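import Mathlib

/-!
# Merged copies (generated) of the modules

* `Pool.Agent.ANP.Defs`
* `Pool.Agent.ANR.Defs`
* `Pool.Agent.ANR.Stmts`
* `Pool.Agent.ANP.Stmts`
* `Pool.Agent.Helper61_ANP.Tor`
* `Pool.Agent.LTG.Defs`
* `Pool.Agent.Helper22_LTG.Lad`
* `Pool.Agent.Helper22_LTG.Poi`
* `Pool.Agent.Helper22_LTG.Box`
* `Pool.Agent.Helper22_LTG.Gen`
* `Pool.Agent.Helper22_LTG.Tor`
* `Pool.Agent.Helper22_LTG.Fbk`
* `Pool.Agent.Helper61_ANP.Psi`
* `Pool.Agent.Helper63_ANR.GRN`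
* `Pool.Agent.Helper72_ANR.GEQ`
* `Pool.Agent.Helper77_ANR.DIR`
* `Pool.Agent.Helper61_ACN.Metric`
* `Pool.Agent.Helper61_ACN.Path`
* `Pool.Agent.Helper61_ANP.Pth`
* `Pool.Agent.Helper17_ANR.LV2`
* `Pool.Agent.Helper31_ANR.QSY`
* `Pool.Agent.Helper89_FAR.Lev`
* `Pool.Agent.Helper92_ANR.LV1`
* `Pool.Agent.Helper89_FAR.Far`
* `Pool.Agent.Helper89_FAR.Far2`
* `Pool.Agent.Helper89_FAR.Ad`
* `Pool.Agent.Helper22_LTG.Stp`
* `Pool.Agent.Helper17_NAS.Cube`
* `Pool.Agent.Helper67_MAJ.MAJ`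
* `Pool.Agent.Helper67_MAJ.MAJ2`
* `Pool.Agent.Helper67_MAJ.HSF`
* `Pool.Agent.Helper67_AHH.Den`
* `Pool.Agent.Helper67_AHH.GeoB`
* `Pool.Agent.QDA.Stmts`
* `Pool.Agent.Helper30_QDA.Upf`
* `Pool.Agent.Helper76_QDA.Lof`
* `Pool.Agent.Helper79_QDA.TRI2`
* `Pool.Agent.Helper79_QDA.NGN2`
-/

set_option autoImplicit false

section -- Pool.Agent.ANP.Defs

/-!
# The protocol: definitions

`X` the sites. The true potential is never revealed at once: `a x` is the noise seen so far at `x`,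
`r x` the variance of the unseen rest. The analysis sees a configuration `(V, s, mb)`: applied
potential, clocks, gauge. Backward induction (`Win`): no measurability of any test is needed.
-/

set_option autoImplicit false

open MeasureTheory ProbabilityTheory

open scoped ENNReal NNReal BigOperators

noncomputable section

namespace Pool.Agent.ANP

/-! ### Gaussian measures and values -/

section win

variable {X : Type} [Fintype X]

/-- independent Gaussian variables with means `a x` and variances `r x` -/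
def gm (a : X → ℝ) (r : X → ℝ≥0) : Measure (X → ℝ) :=
  Measure.pi fun x => gaussianReal (a x) (r x)

/-- the probability of the set `F` of potentials is at most `e` -/
def Win (F : Set (X → ℝ)) (a : X → ℝ) (r : X → ℝ≥0) (e : ℝ) : Prop := (gm a r).real F ≤ e

end win

/-! ### Configurations -/

/-- applied potential, clocks, gauge -/
structure Cfg (X : Type) where
  /-- the applied potential -/
  V : X → ℝ
  /-- the clocks -/
  s : X → ℝ≥0
  /-- the gauge -/
  mb : X → ℂ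

namespace Cfg

variable {X : Type} [DecidableEq X]

/-- one update of the block `U`: noise on `U`, the clocks of `U` are multiplied by `th` -/
def hf (T : Cfg X) (th : ℝ≥0) (U : Finset X) (ζ : X → ℝ) : Cfg X :=
  ⟨fun x => if x ∈ U then T.V x + ζ x else T.V x,
    fun x => if x ∈ U then th * T.s x else T.s x, T.mb⟩

/-- one kill: noise on `D`, the clocks of `D` go to zero -/
def kl (T : Cfg X) (D : Finset X) (ζ : X → ℝ) : Cfg X :=
  ⟨fun x => if x ∈ D then T.V x + ζ x else T.V x, fun x => if x ∈ D then 0 else T.s x, T.mb⟩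

/-- the sites of `Q` are revealed: the potential there is the arbitrary `v` -/
def rv (T : Cfg X) (Q : Finset X) (v : X → ℝ) : Cfg X :=
  ⟨fun x => if x ∈ Q then v x else T.V x, fun x => if x ∈ Q then 0 else T.s x, T.mb⟩

/-- regauge -/
def rg (T : Cfg X) (m : X → ℂ) : Cfg X := ⟨T.V, T.s, m⟩

/-- variances of the noise of a block update -/
def hv (T : Cfg X) (th : ℝ≥0) (U : Finset X) (x : X) : ℝ≥0 :=
  if x ∈ U then (1 - th) * T.s x else 0

/-- variances of the noise of a kill -/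
def kv (T : Cfg X) (D : Finset X) (x : X) : ℝ≥0 := if x ∈ D then T.s x else 0

end Cfg

/-- ATTEMPT: from `T`, with the potential `v` on `Q` already seen, one can reach `Ok` by adaptive kills
inside `R` and applications of the sites of `Q`; `q` bounds the probability that the attempt fails (a
failed attempt is rolled back completely, so it may be given up at any time: `one`). -/
inductive Att {X : Type} [Fintype X] [DecidableEq X] (R Q : Finset X) (v : X → ℝ)
    (Ok : Cfg X → Prop) : Cfg X → ℝ≥0∞ → Prop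
  | ok (T : Cfg X) : Ok T → Att R Q v Ok T 0
  | one (T : Cfg X) : Att R Q v Ok T 1
  | mono (T : Cfg X) (q q' : ℝ≥0∞) : q ≤ q' → Att R Q v Ok T q → Att R Q v Ok T q'
  | ap (T : Cfg X) (b : X) (q : ℝ≥0∞) : b ∈ Q → Att R Q v Ok (T.rv {b} v) q → Att R Q v Ok T q
  | kill (T : Cfg X) (D : Finset X) (q : (X → ℝ) → ℝ≥0∞) : D ⊆ R → (∀ x ∈ D, 0 < T.s x) →
      Measurable q → (∀ ζ, Att R Q v Ok (T.kl D ζ) (q ζ)) →
      Att R Q v Ok T (∫⁻ ζ, q ζ ∂(gm (fun _ => 0) (T.kv D)))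

/-! ### Coins -/

section coins

variable {I : Type} [DecidableEq I]

open Classical in
/-- the probability of `fail` if the coins `i ∈ U` are independent with probabilities `x i` -/
def Phi (U : Finset I) (fail : Finset I → Prop) (x : I → ℝ) : ℝ :=
  ∑ ω ∈ U.powerset, (∏ i ∈ ω, x i) * (∏ i ∈ U \ ω, (1 - x i)) * (if fail ω then 1 else 0)

/-- more failed coins are worse -/
def Mon (fail : Finset I → Prop) : Prop := ∀ ω ω' : Finset I, ω ⊆ ω' → fail ω → fail ω'

end coins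

/-! ### Blocks -/

/-- the scales and blocks on a finite set of sites: `D` the distance, `bl n x` the block of level `n`
of `x`, represented by one of its sites -/
structure Geo (X : Type) where
  /-- the distance -/
  D : X → X → ℕ
  /-- the block (its representative site) -/
  bl : ℕ → X → X
  /-- the side of the blocks of level `n` -/
  L : ℕ → ℕ
  /-- the radius of the releases of super-stage `n` -/
  ρ : ℕ → ℕ
  /-- number of bad sub-blocks which are allowed -/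
  J : ℕ
  /-- number of super-stages -/
  N : ℕ

namespace Geo

variable {X : Type} [Fintype X] [DecidableEq X] (Γ : Geo X)

/-- sites at distance at most `t` from the set `S` -/
def nbh (S : Finset X) (t : ℕ) : Finset X := {x | ∃ y ∈ S, Γ.D x y ≤ t}

/-- the sites of the block `B` of level `n` -/
def blk (n : ℕ) (B : X) : Finset X := {x | Γ.bl n x = B}

/-- the blocks of the set `𝓑` of level `n`, enlarged by `k` sides -/
def enl (n : ℕ) (𝓑 : Finset X) (k : ℕ) : Finset X :=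
  {x | ∃ y, Γ.bl n y ∈ 𝓑 ∧ Γ.D x y ≤ k * Γ.L n}

/-- the bad sub-blocks of `B` (level `n + 1`), `𝓑` = the bad blocks of level `n` -/
def sub (n : ℕ) (𝓑 : Finset X) (B : X) : Finset X := {b ∈ 𝓑 | Γ.bl (n + 1) b = B}

/-- the combinatorial bad sets: `ω` = the failed coins -/
def badS (ω : Finset (ℕ × X)) : ℕ → Finset X
  | 0 => {B | (0, B) ∈ ω}
  | n + 1 => {B | (n + 1, B) ∈ ω ∨ Γ.J < (Γ.sub n (badS ω n) B).card}

open Classical in
/-- the component of `x` in `S` for links of length at most `t` -/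
def comp (S : Finset X) (t : ℕ) (x : X) : Finset X :=
  {y | Relation.ReflTransGen (fun u v => u ∈ S ∧ v ∈ S ∧ Γ.D u v ≤ t) x y ∧ y ∈ S}

end Geo

/-! ### Labels -/

/-- running sites, frozen sites, frozen sites at the start of the super-stage, the sites which died in
super-stage `n`, the bad blocks of the previous and of this super-stage -/
structure Lab (X : Type) where
  /-- running -/
  run : Finset X
  /-- frozen (alive) -/
  pend : Finset X
  /-- frozen at the start of the super-stage -/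
  op : Finset X
  /-- died in super-stage `n` -/
  dd : ℕ → Finset X
  /-- bad blocks of the previous super-stage -/
  old : Finset X
  /-- bad blocks of this super-stage -/
  bad : Finset X

namespace Lab

variable {X : Type} [Fintype X] [DecidableEq X] (Γ : Geo X) (L : Lab X)

/-- freeze the running sites of `Y` -/
def fz (Y : Finset X) : Lab X := { L with run := L.run \ Y, pend := L.pend ∪ (L.run ∩ Y) }

/-- the block `B` of level `n` becomes bad: the running sites of `3 B` are frozen -/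
def bd (n : ℕ) (B : X) : Lab X := { L.fz (Γ.enl n {B} 1) with bad := insert B L.bad }

/-- the sites of `K` (killed) and of `Q` (revealed) die in super-stage `n` -/
def die (n : ℕ) (K Q : Finset X) : Lab X :=
  { L with run := L.run \ K, pend := L.pend \ Q,
           dd := fun m => if m = n then L.dd n ∪ K ∪ Q else L.dd m }

/-- `Q` may be released in super-stage `n` -/
def Elig (n : ℕ) (Q : Finset X) : Prop :=
  Q ⊆ L.pend ∧ ∀ x ∈ Q, ∀ y ∈ Γ.enl n L.bad 1, Γ.ρ n < Γ.D x y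

end Lab

end Pool.Agent.ANP
end
end -- Pool.Agent.ANP.Defs

section -- Pool.Agent.ANR.Defs

/-!
# Release of a block: definitions

`H` a real symmetric matrix on a finite set of sites `X` (hopping, potential, real parts of the
gauge), `κ > 0` the absorption, `G = (H - i κ)⁻¹`. A block `F` is released: the rows of `H` and `κ`
at the sites of `F` are changed arbitrarily, the others are kept.
-/

set_option autoImplicit false

open scoped BigOperators ComplexConjugate

noncomputable section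

namespace Pool.Agent.ANR

variable {X : Type} [Fintype X] [DecidableEq X]

/-- `(H - i κ) ψ` -/
def opv (H : Matrix X X ℝ) (κ : X → ℝ) (ψ : X → ℂ) (x : X) : ℂ :=
  ∑ y, (H x y : ℂ) * ψ y - Complex.I * (κ x : ℂ) * ψ x

/-- `G = (H - i κ)⁻¹` -/
def Gr (H : Matrix X X ℝ) (κ : X → ℝ) : Matrix X X ℂ :=
  (H.map (fun t : ℝ => (t : ℂ)) - Matrix.diagonal fun x => Complex.I * (κ x : ℂ))⁻¹

/-- a network: symmetric, with positive absorption -/
structure Net (H : Matrix X X ℝ) (κ : X → ℝ) : Prop where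
  sym : ∀ x y, H x y = H y x
  pos : ∀ x, 0 < κ x

/-- the same rows off `F` -/
def Off (H : Matrix X X ℝ) (κ : X → ℝ) (H' : Matrix X X ℝ) (κ' : X → ℝ) (F : Finset X) : Prop :=
  ∀ x, x ∉ F → κ' x = κ x ∧ ∀ y, H' x y = H x y

/-- `ψ` solves the equation off `F` -/
def Sol (H : Matrix X X ℝ) (κ : X → ℝ) (F : Finset X) (ψ : X → ℂ) : Prop :=
  ∀ z, z ∉ F → opv H κ ψ z = 0

/-- the flux of `ψ` out of `F`: the absorption off `F` -/
def Q (κ : X → ℝ) (F : Finset X) (ψ : X → ℂ) : ℝ := ∑ z ∈ Fᶜ, κ z * ‖ψ z‖ ^ 2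

/-- leverage: every field with its sources in `F` has at `x` intensity at most `L` times its flux -/
def Lev (H : Matrix X X ℝ) (κ : X → ℝ) (F : Finset X) (x : X) (L : ℝ) : Prop :=
  ∀ ψ : X → ℂ, Sol H κ F ψ → ‖ψ x‖ ^ 2 ≤ L * Q κ F ψ

/-- the Dirichlet form of the sites of `A`: conductances `κ_x κ_y |G_xy|²` -/
def cE (G : Matrix X X ℂ) (κ : X → ℝ) (A : Finset X) (f : X → ℝ) : ℝ :=
  (1 / 2) * ∑ x ∈ A, ∑ y ∈ A, κ x * κ y * ‖G x y‖ ^ 2 * (f x - f y) ^ 2

/-- the flux from `x` to `F`: `∑_(b ∈ F) κ_b |G_xb|²` -/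
def fl (G : Matrix X X ℂ) (κ : X → ℝ) (F : Finset X) (x : X) : ℝ := ∑ b ∈ F, κ b * ‖G x b‖ ^ 2

/-- the part of the change of the form which comes from pairs not inside `B` -/
def tl (G G' : Matrix X X ℂ) (κ : X → ℝ) (A B : Finset X) (f : X → ℝ) : ℝ :=
  ∑ x ∈ A, ∑ y ∈ A, if x ∈ B ∧ y ∈ B then 0 else
    κ x * κ y * (‖G x y‖ * ‖G x y - G' x y‖ + ‖G x y - G' x y‖ ^ 2) * (f x - f y) ^ 2

end Pool.Agent.ANR
end
end -- Pool.Agent.ANR.Defs

section -- Pool.Agent.ANR.Stmts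

/-!
# Release of a block: statements

MAIN POINT. `G` and `G'` differ by an arbitrary change at the sites of the block `F` (any real
potential, any absorption). If every field with sources in `F` has at the outer sites intensity at most
`δ` times its flux (`Lev`; this condition does not see what is inside `F`), then
`|G_xy - G'_xy| ≤ 2 δ` at all outer sites, the walk from `y` hits `F` with probability at most `δ`, and
the Dirichlet form of the outer sites changes only by `∑ κ_x L_x (f_x - c)²`.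
-/

set_option autoImplicit false

open scoped BigOperators ComplexConjugate

noncomputable section

namespace Pool.Agent.ANR

/-- GRN: Green's identities. Proof: (1) the terms with `H` by symmetry and `Finset.sum_comm`, the terms
with `κ` agree. (2) the part with `H` is real (it is equal to its conjugate, by symmetry), the part with
`κ` is `- i ∑ κ |ψ|²`. -/
def GrnStmt : Prop :=
  ∀ (X : Type) [Fintype X] [DecidableEq X] (H : Matrix X X ℝ) (κ : X → ℝ), Net H κ →
    (∀ φ ψ : X → ℂ, ∑ x, φ x * opv H κ ψ x = ∑ x, ψ x * opv H κ φ x) ∧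
    ∀ ψ : X → ℂ, (∑ x, conj (ψ x) * opv H κ ψ x).im = - ∑ x, κ x * ‖ψ x‖ ^ 2

/-- DIR (uses GRN): the Dirichlet problem, for every `F`. Proof: the linear map `B ψ = ψ` on `F`,
`B ψ = opv H κ ψ` off `F` is injective (if `B ψ = 0`, GRN (2): all terms of the left side vanish, so
`∑ κ |ψ|² = 0`), hence surjective (`LinearMap.injective_iff_surjective` on `X → ℂ`). -/
def DirStmt : Prop :=
  ∀ (X : Type) [Fintype X] [DecidableEq X] (H : Matrix X X ℝ) (κ : X → ℝ) (F : Finset X),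
    Net H κ → ∀ f h : X → ℂ,
      ∃! ψ : X → ℂ, (∀ b ∈ F, ψ b = f b) ∧ ∀ x, x ∉ F → opv H κ ψ x = h x

/-- GEQ (uses DIR, GRN): the Green function. Proof: DIR with `F = ∅`: the matrix is invertible
(`Matrix.mulVec` with it is `opv H κ`), so `opv` of the column `y` of `Gr` is `δ_y`. Symmetry: GRN (1)
for the columns `x` and `y`. Ward: GRN (2) for the column `y`: `conj (G y y)` has the imaginary part
`- ∑ κ |G_zy|²`. The last two: `κ y ‖G y y‖² ≤ (G y y).im ≤ ‖G y y‖`;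
`κ x ‖G x y‖² ≤ (G y y).im`. -/
def GeqStmt : Prop :=
  ∀ (X : Type) [Fintype X] [DecidableEq X] (H : Matrix X X ℝ) (κ : X → ℝ), Net H κ →
    (∀ x y, opv H κ (fun z => Gr H κ z y) x = if x = y then 1 else 0) ∧
    (∀ x y, Gr H κ x y = Gr H κ y x) ∧
    (∀ y, ∑ z, κ z * ‖Gr H κ z y‖ ^ 2 = (Gr H κ y y).im) ∧
    (∀ y, κ y * ‖Gr H κ y y‖ ≤ 1) ∧ ∀ x y, κ x * κ y * ‖Gr H κ x y‖ ^ 2 ≤ 1

/-- QSY (uses GRN): conjugate sources have the same flux. Proof: `Off F` both solve, so GRN (2) for `ψ`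
reads `im ∑_(b ∈ F) conj (ψ b) (opv ψ b) = - Q ψ - ∑_(b ∈ F) κ b |ψ b|²`, that is, with `φ b = conj (ψ b)`
on `F`, `im ∑_(b ∈ F) φ b (opv ψ b) = ..`, and the same for `φ`: `im ∑_(b ∈ F) ψ b (opv φ b) = - Q φ - ..`.
The two left sides are equal by GRN (1). -/
def QsyStmt : Prop :=
  ∀ (X : Type) [Fintype X] [DecidableEq X] (H : Matrix X X ℝ) (κ : X → ℝ) (F : Finset X),
    Net H κ → ∀ φ ψ : X → ℂ, Sol H κ F φ → Sol H κ F ψ → (∀ b ∈ F, φ b = conj (ψ b)) →
      Q κ F φ = Q κ F ψ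

/-- LV1 (uses GRN, DIR, QSY). `g` is a column of a Green function with ANY rows in `F`, `g₀` the
Dirichlet solution. Proof: `ψ = g - g₀` solves off `F`, `ψ = g` on `F`. GRN (2) for `ψ` and `(H', κ')`:
`im ∑_(b ∈ F) conj (g b) (opv' ψ b) = - Q ψ - ∑_(b ∈ F) κ' b |g b|²`, and `opv' g b = 0`, so
`opv' ψ b = - opv' g₀ b = - S b`, `S b = ∑_y H' b y g₀ y` (real rows, `g₀ b = 0`; the diagonal entries of
`H'` in `F × F` do not matter because `g₀ = 0` on `F`; `H' b y = H' y b = H y b` for `y ∉ F`). Let `φ` be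
the solution off `F` with `φ b = conj (g b)` on `F` (DIR). GRN (1) for `φ` and `g₀` (with `H`, `κ`):
`∑_(b ∈ F) φ b S b + φ y = 0` (`opv g₀ z = δ_zy` off `F`). Hence
`Q ψ + ∑ κ' b |g b|² = im ∑_(b ∈ F) conj (g b) S b = - im (φ y) ≤ |φ y| ≤ (L Q φ)^(1/2) = (L Q ψ)^(1/2)`
(QSY). So `Q ψ ≤ L`, and then the left side is at most `L`. -/
def Lv1Stmt : Prop :=
  ∀ (X : Type) [Fintype X] [DecidableEq X] (H H' : Matrix X X ℝ) (κ κ' : X → ℝ) (F : Finset X)
    (y : X) (L : ℝ) (g g₀ : X → ℂ), Net H κ → Net H' κ' → Off H κ H' κ' F → y ∉ F → 0 ≤ L →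
      Lev H κ F y L → (∀ x, opv H' κ' g x = if x = y then 1 else 0) → (∀ b ∈ F, g₀ b = 0) →
      (∀ x, x ∉ F → opv H κ g₀ x = if x = y then 1 else 0) →
      Q κ F (fun z => g z - g₀ z) ≤ L ∧ ∑ b ∈ F, κ' b * ‖g b‖ ^ 2 ≤ L

/-- LV2 (uses LV1, DIR, GEQ): THE RELEASE. Proof: `g₀` from DIR. LV1 for the column `y` of `Gr H κ`
(with `H' = H`, `κ' = κ`) and of `Gr H' κ'`; `Q` is the square of a seminorm, so the difference has
`Q ≤ 4 L y`; it solves off `F`, so `Lev` at `x` gives `|G_xy - G'_xy|² ≤ L x * 4 L y`. -/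
def Lv2Stmt : Prop :=
  ∀ (X : Type) [Fintype X] [DecidableEq X] (H H' : Matrix X X ℝ) (κ κ' : X → ℝ) (F : Finset X)
    (x y : X) (Lx Ly : ℝ), Net H κ → Net H' κ' → Off H κ H' κ' F → x ∉ F → y ∉ F → 0 ≤ Lx →
      0 ≤ Ly → Lev H κ F x Lx → Lev H κ F y Ly →
      ‖Gr H κ x y - Gr H' κ' x y‖ ^ 2 ≤ 4 * Lx * Ly ∧
      ∑ z ∈ Fᶜ, κ z * ‖Gr H κ z y - Gr H' κ' z y‖ ^ 2 ≤ 4 * Ly ∧
      ∑ b ∈ F, κ b * ‖Gr H κ b y‖ ^ 2 ≤ Ly ∧ ∑ b ∈ F, κ' b * ‖Gr H' κ' b y‖ ^ 2 ≤ Ly

/-- LV0 (uses GEQ, DIR): one site. Proof: a solution `ψ` off `b` is `c` times the column `b`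
(`c = opv H κ ψ b`, uniqueness from DIR with `F = ∅`). If the sum vanishes, all `G_zb`, `z ≠ b`, are 0. -/
def Lv0Stmt : Prop :=
  ∀ (X : Type) [Fintype X] [DecidableEq X] (H : Matrix X X ℝ) (κ : X → ℝ) (b x : X), Net H κ →
    x ≠ b → Lev H κ {b} x (‖Gr H κ x b‖ ^ 2 / ∑ z ∈ ({b} : Finset X)ᶜ, κ z * ‖Gr H κ z b‖ ^ 2)

/-- LVS: leverages exist and their sum is at most the number of sites. Proof: `κ > 0`, so
`L = 1 / κ x` is always allowed. For the sum: `Q` is a positive semidefinite Hermitian form on the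
finite dimensional space `Sol` (dimension `|F|` by DIR, coordinates `ψ b`, `b ∈ F`); if it is definite
take a `Q`-orthonormal basis `ψ_1..ψ_n`, `n = |F|`, `L x = ∑ |ψ_i x|²` (Cauchy-Schwarz), and
`∑_(x ∉ F) κ x L x = ∑ Q ψ_i = n`. In general the null space of `Q` consists of fields which vanish off
`F`, and one works on a complement. (Alternatively: Gram-Schmidt by induction on the dimension of a
subspace of `Sol`.) -/
def LvsStmt : Prop :=
  ∀ (X : Type) [Fintype X] [DecidableEq X] (H : Matrix X X ℝ) (κ : X → ℝ) (F : Finset X), Net H κ →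
    ∃ L : X → ℝ, (∀ x, 0 ≤ L x) ∧ (∀ x, x ∉ F → Lev H κ F x (L x)) ∧
      ∑ x ∈ Fᶜ, κ x * L x ≤ F.card

/-- TAL (uses DIR): decay of the leverages. `O'` is the far region, `S` a set of sites off `F` and off
`O'` which contains all sites connected to `O'`, with absorption at least `κ₀`; `u` is the column (or
row) `x` of the Green function of `O'`. Proof: let `ψ` solve off `F`. Sum of
`u z * opv ψ z = 0` over `z ∈ O'` (`O'` is disjoint from `F`); as `H` is symmetric and `opv u z = δ_zx` in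
`O'`, `u = 0` off `O'`: `ψ x = - ∑_(y ∈ S) (∑_(z ∈ O') H z y u z) ψ y`. Cauchy-Schwarz and
`∑_(y ∈ S) |ψ y|² ≤ Q ψ / κ₀`. -/
def TalStmt : Prop :=
  ∀ (X : Type) [Fintype X] [DecidableEq X] (H : Matrix X X ℝ) (κ : X → ℝ) (F O S : Finset X)
    (x : X) (κ₀ : ℝ) (u : X → ℂ), Net H κ → Disjoint O F → Disjoint S F → x ∈ O → 0 < κ₀ →
      (∀ y ∈ S, κ₀ ≤ κ y) → (∀ z ∈ O, ∀ y, y ∉ O → H z y ≠ 0 → y ∈ S) →
      (∀ z, z ∉ O → u z = 0) → (∀ z ∈ O, opv H κ u z = if z = x then 1 else 0) →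
      Lev H κ F x (κ₀⁻¹ * ∑ y ∈ S, ‖∑ z ∈ O, (H z y : ℂ) * u z‖ ^ 2)

/-- YHH (uses LV2, GEQ): the threshold of 3281. Proof: `|a² - b²| ≤ |a - b| (2 |a| + |a - b|)`,
Cauchy-Schwarz with the weights `κ`, `∑_z κ |G_zy|² = im G_yy`. -/
def YhhStmt : Prop :=
  ∀ (X : Type) [Fintype X] [DecidableEq X] (H H' : Matrix X X ℝ) (κ κ' : X → ℝ) (F : Finset X)
    (y : X) (L : ℝ), Net H κ → Net H' κ' → Off H κ H' κ' F → y ∉ F → 0 ≤ L → Lev H κ F y L →
      ‖∑ z ∈ Fᶜ, (κ z : ℂ) * Gr H κ z y ^ 2 - ∑ z ∈ Fᶜ, (κ z : ℂ) * Gr H' κ' z y ^ 2‖ ≤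
        4 * Real.sqrt (L * (Gr H κ y y).im) + 4 * L

/-- FRM (uses LV2, GEQ): the change of the form of the outer sites. Proof: for a pair in `B`:
`||G'|² - |G|²| ≤ 2 |G| |Δ| + |Δ|² ≤ ε |G|² + (2/ε) |Δ|²` (`ε ≤ 1`), and
`∑_(x, y ∈ B) κ κ |Δ_xy|² (f x - f y)² ≤ 4 ∑_(x ∈ B) κ x (f x - c)² ∑_y κ y |Δ_xy|² ≤ 16 ∑ κ x L x (f x - c)²`
(symmetry of `Δ`, LV2 (2)). The other pairs are in `tl`. -/
def FrmStmt : Prop :=
  ∀ (X : Type) [Fintype X] [DecidableEq X] (H H' : Matrix X X ℝ) (κ κ' : X → ℝ)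
    (F A B : Finset X) (L f : X → ℝ) (c ε : ℝ), Net H κ → Net H' κ' → Off H κ H' κ' F →
      Disjoint A F → B ⊆ A → 0 < ε → ε ≤ 1 → (∀ x ∈ A, 0 ≤ L x ∧ Lev H κ F x (L x)) →
      |cE (Gr H' κ') κ A f - cE (Gr H κ) κ A f| ≤ ε * cE (Gr H κ) κ B f +
        16 / ε * ∑ x ∈ B, κ x * L x * (f x - c) ^ 2 + tl (Gr H κ) (Gr H' κ') κ A B f

/-- CUT: the form with `F` as nodes and the cut form. Proof: the sum over `A ∪ F` splits; the pairs
inside `F` vanish, the mixed pairs occur twice. -/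
def CutStmt : Prop :=
  ∀ (X : Type) [Fintype X] [DecidableEq X] (G : Matrix X X ℂ) (κ : X → ℝ) (A F : Finset X)
    (f : X → ℝ) (c : ℝ), (∀ x y, G x y = G y x) → Disjoint A F → (∀ b ∈ F, f b = c) →
      cE G κ (A ∪ F) f = cE G κ A f + ∑ x ∈ A, κ x * fl G κ F x * (f x - c) ^ 2

/-- LVI: the leverage does not see what is inside `F`. Proof: for a site off `F` the operators agree,
and `Q` only contains `κ` off `F`. -/
def LviStmt : Prop :=
  ∀ (X : Type) [Fintype X] [DecidableEq X] (H H' : Matrix X X ℝ) (κ κ' : X → ℝ) (F : Finset X)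
    (x : X) (L : ℝ), Off H κ H' κ' F → Lev H κ F x L → Lev H' κ' F x L

end Pool.Agent.ANR
end
end -- Pool.Agent.ANR.Stmts

section -- Pool.Agent.ANP.Stmts

/-!
# The protocol: statements

A. Win calculus (backward induction), B. coins, C. geometry of the frozen sets, D. the interface with
the analysis (`Ana`) and the final statement `PrtStmt`.
-/

set_option autoImplicit false

open MeasureTheory ProbabilityTheory

open scoped ENNReal NNReal BigOperators

noncomputable section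

namespace Pool.Agent.ANP

/-! ### A. Win calculus -/

/-- GST: a Gaussian step. Proof: `gaussianReal (a x) (r x)` is the convolution of `gaussianReal 0 (τ x)`
and `gaussianReal (a x) (r x - τ x)`; `gm a r` is the image of the product measure
`gm 0 τ × gm a (r - τ)` under addition (`Measure.pi_map_pi`, product of images), Tonelli.
Measurability: `gm a r` is the image of `gm 0 r` under `y ↦ a + y` (`Measurable.lintegral_prod`). -/
def GstStmt : Prop :=
  ∀ (X : Type) [Fintype X] (r : X → ℝ≥0) (F : Set (X → ℝ)), MeasurableSet F →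
    (Measurable fun a : X → ℝ => gm a r F) ∧ ∀ (a : X → ℝ) (τ : X → ℝ≥0), (∀ x, τ x ≤ r x) →
      gm a r F = ∫⁻ ζ, gm (fun x => a x + ζ x) (fun x => r x - τ x) F ∂(gm (fun _ => 0) τ)

/-- WSQ (uses GST): one step with a variable bound. Proof: integrate; `∫ min q 1 ≤ min (∫ q) 1`. -/
def WsqStmt : Prop :=
  ∀ (X : Type) [Fintype X] (F : Set (X → ℝ)), MeasurableSet F → ∀ (a : X → ℝ) (τ r : X → ℝ≥0)
    (q : (X → ℝ) → ℝ≥0∞) (e₁ e₂ : ℝ), (∀ x, τ x ≤ r x) → 0 ≤ e₁ → e₁ ≤ e₂ → Measurable q →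
    (∀ ζ : X → ℝ, Win F (fun x => a x + ζ x) (fun x => r x - τ x)
      (e₁ + (min (q ζ) 1).toReal * (e₂ - e₁))) →
    Win F a r (e₁ + (min (∫⁻ ζ, q ζ ∂(gm (fun _ => 0) τ)) 1).toReal * (e₂ - e₁))

/-- WST (uses GST): one test. `R` need not be measurable. Proof: `WSQ` with `q = 1` on the measurable
hull of `R`, `0` elsewhere. -/
def WstStmt : Prop :=
  ∀ (X : Type) [Fintype X] (F : Set (X → ℝ)), MeasurableSet F → ∀ (a : X → ℝ) (τ r : X → ℝ≥0)
    (R : Set (X → ℝ)) (p e₁ e₂ : ℝ), (∀ x, τ x ≤ r x) → 0 ≤ p → 0 ≤ e₁ → e₁ ≤ e₂ →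
    gm (fun _ => 0) τ R ≤ ENNReal.ofReal p →
    (∀ ζ : X → ℝ, ζ ∉ R → Win F (fun x => a x + ζ x) (fun x => r x - τ x) e₁) →
    (∀ ζ : X → ℝ, Win F (fun x => a x + ζ x) (fun x => r x - τ x) e₂) →
    Win F a r (e₁ + p * (e₂ - e₁))

/-- ATW (uses GST, WSQ): an attempt. Proof: first reveal `Q` (noise with the variances `r` on `Q`),
then induction on `Att`: for all `T', a', r'` which agree (`a' = T'.V`, `r' = T'.s`) on `R`, with
`a' = v`, `r' = 0` on `Q`, unchanged off `Q ∪ R`: `Win F a' r' (e₁ + (min q 1).toReal * (e₂ - e₁))`.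
For `ok` it is the first hypothesis, `one` the second, `ap` changes neither `a'` nor `r'`, `kill` is
`WSQ` with `τ = T'.kv D`. Note that the sites of `Q` need not be applied at `ok`. -/
def AtwStmt : Prop :=
  ∀ (X : Type) [Fintype X] [DecidableEq X] (F : Set (X → ℝ)), MeasurableSet F →
    ∀ (R Q : Finset X) (Ok : (X → ℝ) → Cfg X → Prop) (T : Cfg X) (a : X → ℝ) (r : X → ℝ≥0)
      (p e₁ e₂ : ℝ), Disjoint R Q → 0 ≤ p → 0 ≤ e₁ → e₁ ≤ e₂ →
    (∀ x ∈ R, a x = T.V x ∧ r x = T.s x) →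
    (∀ v, Att R Q v (Ok v) T (ENNReal.ofReal p)) →
    (∀ v T' a' r', Ok v T' → T'.mb = T.mb → (∀ x ∈ R, a' x = T'.V x ∧ r' x = T'.s x) →
      (∀ x ∈ R, T'.s x = 0 ∨ T'.V x = T.V x ∧ T'.s x = T.s x) →
      (∀ x ∈ Q, a' x = v x ∧ r' x = 0) →
      (∀ x, x ∉ Q → x ∉ R → a' x = a x ∧ r' x = r x ∧ T'.V x = T.V x ∧ T'.s x = T.s x) →
      Win F a' r' e₁) →
    (∀ a' r', (∀ x, x ∉ Q → x ∉ R → a' x = a x ∧ r' x = r x) → Win F a' r' e₂) →
    Win F a r (e₁ + p * (e₂ - e₁))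

/-! ### B. Coins -/

/-- PHI: the properties of `Phi`. Proof: `Phi` is affine in `x i`: `Phi x = (1 - x i) Phi (x i := 0) +
x i Phi (x i := 1)`, and `Phi (x i := 0) ≤ Phi (x i := 1)` because `fail` is monotone (pair `ω` with
`insert i ω`). -/
def PhiStmt : Prop :=
  ∀ (I : Type) [DecidableEq I] (U : Finset I) (fail : Finset I → Prop), Mon fail →
    (∀ x : I → ℝ, (∀ i, 0 ≤ x i ∧ x i ≤ 1) → 0 ≤ Phi U fail x ∧ Phi U fail x ≤ 1) ∧
    (∀ x y : I → ℝ, (∀ i, 0 ≤ x i ∧ x i ≤ y i ∧ y i ≤ 1) → Phi U fail x ≤ Phi U fail y) ∧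
    (∀ (x : I → ℝ) (i : I) (u p : ℝ), (∀ i, 0 ≤ x i ∧ x i ≤ 1) → 0 ≤ u → 0 ≤ p → u + p ≤ x i →
      Phi U fail (Function.update x i u) +
        p * (Phi U fail (Function.update x i 1) - Phi U fail (Function.update x i u)) ≤
      Phi U fail x) ∧
    ∀ (x : I → ℝ) (ω : Finset I), (∀ i, 0 ≤ x i ∧ x i ≤ 1) → ω ⊆ U → (∀ i ∈ ω, x i = 1) → fail ω →
      Phi U fail x = 1

/-! ### C. Geometry -/

/-- the metric and the blocks -/
structure GeoOk {X : Type} [Fintype X] [DecidableEq X] (Γ : Geo X) (d : ℕ) : Prop where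
  self : ∀ x, Γ.D x x = 0
  comm : ∀ x y, Γ.D x y = Γ.D y x
  tri : ∀ x y z, Γ.D x z ≤ Γ.D x y + Γ.D y z
  /-- balls -/
  vol : ∀ x t, ({y | Γ.D x y ≤ t} : Finset X).card ≤ (2 * t + 1) ^ d
  idem : ∀ n x, Γ.bl n (Γ.bl n x) = Γ.bl n x
  nest : ∀ n x, Γ.bl (n + 1) (Γ.bl n x) = Γ.bl (n + 1) x
  /-- the diameter of a block -/
  diam : ∀ n x y, Γ.bl n x = Γ.bl n y → Γ.D x y ≤ Γ.L n
  /-- a ball of radius `L n` meets at most `3 ^ d` blocks of level `n` -/
  meet : ∀ n x, (({y | Γ.D x y ≤ Γ.L n} : Finset X).image (Γ.bl n)).card ≤ 3 ^ d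
  /-- the same for the neighbours of a block -/
  meetb : ∀ n x, (({y | ∃ z, Γ.bl n z = Γ.bl n x ∧ Γ.D z y ≤ Γ.L n} : Finset X).image
    (Γ.bl n)).card ≤ 3 ^ d
  /-- the number of sites of a block -/
  bvol : ∀ n x, (Γ.blk n x).card ≤ Γ.L n ^ d

/-- the scales, as far as the geometry needs them -/
structure Scl {X : Type} (Γ : Geo X) (d : ℕ) : Prop where
  J1 : 1 ≤ Γ.J
  one : ∀ n, 1 ≤ Γ.L n
  rho : ∀ n, 8 * Γ.L n ≤ Γ.ρ (n + 1)
  big : ∀ n, 8 * (3 ^ d * Γ.J * (5 * Γ.L n + 12 * Γ.ρ (n + 1))) ≤ Γ.L (n + 1)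

section geo

variable {X : Type} [Fintype X] [DecidableEq X]

/-- blocks of level `n` which are too close to the origin `o` -/
def Geo.near (Γ : Geo X) (o : X) (n : ℕ) : Finset X :=
  {B | Γ.bl n B = B ∧ ∃ y, Γ.bl n y = B ∧ Γ.D o y ≤ 3 * Γ.ρ (n + 1) + 2 * Γ.L n}

/-- the combinatorial failure -/
def Geo.fail (Γ : Geo X) (o : X) (ω : Finset (ℕ × X)) : Prop :=
  ∃ n ≤ Γ.N, ∃ B ∈ Γ.badS ω n, B ∈ Γ.near o n

/-- the coins -/
def Geo.coins (Γ : Geo X) : Finset (ℕ × X) :=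
  (Finset.range (Γ.N + 1) ×ˢ Finset.univ).filter fun i => Γ.bl i.1 i.2 = i.2

end geo

/-- REC: the tree of independent coins. `M n` = the number of blocks of level `n` in one of level
`n + 1`. Proof: for distinct `B_1, …, B_m` of level `n` the probability that all are bad is at most
`q_n ^ m` (induction on `n`, union bound over the choice, for every `i`, of the coin or of `J + 1`
sub-blocks; sub-blocks of distinct blocks are distinct), then the union bound over `near`. -/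
def RecStmt : Prop :=
  ∀ (X : Type) [Fintype X] [DecidableEq X] (Γ : Geo X) (d : ℕ), GeoOk Γ d →
    ∀ (o : X) (π q : ℕ → ℝ) (M : ℕ → ℕ),
    (∀ n B, ({b | Γ.bl n b = b ∧ Γ.bl (n + 1) b = B} : Finset X).card ≤ M n) →
    (∀ n, 0 ≤ π n ∧ π n ≤ 1) → π 0 ≤ q 0 →
    (∀ n, π (n + 1) + (M n * q n) ^ (Γ.J + 1) ≤ q (n + 1)) →
    Phi Γ.coins (Γ.fail o) (fun i => π i.1) ≤
      ∑ n ∈ Finset.range (Γ.N + 1), ((Γ.near o n).card : ℝ) * q n

/-- SEP: an eligible component. `old` = the bad blocks of level `m` (`n = m + 1`), a block of level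
`n` which is not in `bad` has at most `J` of them. Proof: a site `x ∈ Q` lies in `5 b`, `b ∈ old`, at
distance `≤ 2 L m`, and `b` is not in a bad block of level `n` because of the distance. If `Q` had
diameter `> L n / 8` there would be a chain from `x` inside a ball of radius `L n`, meeting at most
`3 ^ d J` sets `5 b`, of total length at most `3 ^ d J (5 L m + 10 ρ n) < L n / 8`. -/
def SepStmt : Prop :=
  ∀ (X : Type) [Fintype X] [DecidableEq X] (Γ : Geo X) (d : ℕ), GeoOk Γ d → Scl Γ d →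
    ∀ (m : ℕ) (old bad op : Finset X) (x : X), x ∈ op → op ⊆ Γ.enl m old 2 →
    (∀ b ∈ old, Γ.bl m b = b) →
    (∀ B, B ∉ bad → (Γ.sub m old B).card ≤ Γ.J) →
    (∀ y ∈ Γ.comp op (10 * Γ.ρ (m + 1)) x, ∀ z ∈ Γ.enl (m + 1) bad 1, Γ.ρ (m + 1) < Γ.D y z) →
    (∀ y ∈ Γ.comp op (10 * Γ.ρ (m + 1)) x, Γ.D x y ≤ Γ.L (m + 1) / 8) ∧
    (Γ.comp op (10 * Γ.ρ (m + 1)) x).card ≤ 3 ^ d * Γ.J * (6 * Γ.L m + 1) ^ d

/-- SE2: a waiting component stays near the bad blocks. Proof: chain from `y` to the first site within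
`ρ n + 2 L m` of `enl n bad 1`; before it the blocks are not bad, as in `SepStmt`. -/
def Se2Stmt : Prop :=
  ∀ (X : Type) [Fintype X] [DecidableEq X] (Γ : Geo X) (d : ℕ), GeoOk Γ d → Scl Γ d →
    ∀ (m : ℕ) (old bad op : Finset X) (x : X), x ∈ op → op ⊆ Γ.enl m old 2 →
    (∀ b ∈ old, Γ.bl m b = b) →
    (∀ B, B ∉ bad → (Γ.sub m old B).card ≤ Γ.J) →
    (∃ y ∈ Γ.comp op (10 * Γ.ρ (m + 1)) x, ∃ z ∈ Γ.enl (m + 1) bad 1, Γ.D y z ≤ Γ.ρ (m + 1)) →
    ∀ y, Γ.D x y ≤ 3 * Γ.ρ (m + 1) → y ∈ Γ.enl (m + 1) bad 2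

end Pool.Agent.ANP
end
end -- Pool.Agent.ANP.Stmts

section -- Pool.Agent.Helper61_ANP.Tor

/-!
# The torus as an instance of `Geo`
-/

set_option autoImplicit false

open Finset

namespace Pool.Agent.ANP.H61

/-- the cyclic distance -/
def cd {M : ℕ} (a b : ZMod M) : ℕ := (a - b).valMinAbs.natAbs

/-- the sup distance of the torus -/
def sd {d M : ℕ} (x y : Fin d → ZMod M) : ℕ := Finset.univ.sup fun i => cd (x i) (y i)

/-- rounding down to a multiple of `2 ^ j` -/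
def rnd {μ : ℕ} (j : ℕ) (a : ZMod (2 ^ μ)) : ZMod (2 ^ μ) := ((a.val / 2 ^ j * 2 ^ j : ℕ) : ZMod (2 ^ μ))

theorem cd_self {M : ℕ} (a : ZMod M) : cd a a = 0 := by simp [cd]

theorem cd_comm {M : ℕ} (a b : ZMod M) : cd a b = cd b a := by
  unfold cd
  rw [← ZMod.natAbs_valMinAbs_neg, neg_sub]

theorem cd_tri {M : ℕ} (a b c : ZMod M) : cd a c ≤ cd a b + cd b c := by
  unfold cd
  have h := ZMod.natAbs_valMinAbs_add_le (a - b) (b - c)
  rw [sub_add_sub_cancel] at h
  exact h.trans (Int.natAbs_add_le _ _)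

/-- the distance is at most the absolute value of every integer representative of the difference -/
theorem cd_le {M : ℕ} [NeZero M] (a b : ZMod M) (k : ℤ) (h : a - b = (k : ZMod M)) :
    cd a b ≤ k.natAbs := by
  unfold cd
  refine ZMod.natAbs_min_of_le_div_two M _ _ ?_ (ZMod.natAbs_valMinAbs_le _)
  rw [ZMod.coe_valMinAbs, h]

theorem exists_int {M : ℕ} (a b : ZMod M) : ∃ k : ℤ, a - b = (k : ZMod M) ∧ k.natAbs = cd a b :=
  ⟨(a - b).valMinAbs, (ZMod.coe_valMinAbs _).symm, rfl⟩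

theorem sd_le {d M : ℕ} (x y : Fin d → ZMod M) (t : ℕ) : sd x y ≤ t ↔ ∀ i, cd (x i) (y i) ≤ t := by
  simp [sd, Finset.sup_le_iff]

theorem sd_self {d M : ℕ} (x : Fin d → ZMod M) : sd x x = 0 := by
  have := (sd_le x x 0).2 (fun i => by rw [cd_self])
  omega

theorem sd_comm {d M : ℕ} (x y : Fin d → ZMod M) : sd x y = sd y x := by
  unfold sd
  congr 1
  funext i
  exact cd_comm _ _

theorem le_sd {d M : ℕ} (x y : Fin d → ZMod M) (i : Fin d) : cd (x i) (y i) ≤ sd x y :=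
  Finset.le_sup (f := fun i => cd (x i) (y i)) (mem_univ i)

theorem sd_tri {d M : ℕ} (x y z : Fin d → ZMod M) : sd x z ≤ sd x y + sd y z := by
  rw [sd_le]
  intro i
  have h1 := cd_tri (x i) (y i) (z i)
  have h2 := le_sd x y i
  have h3 := le_sd y z i
  omega

variable {μ : ℕ}

instance neZ : NeZero (2 ^ μ) := ⟨by positivity⟩

theorem val_rnd (j : ℕ) (a : ZMod (2 ^ μ)) : (rnd j a).val = a.val / 2 ^ j * 2 ^ j := by
  unfold rnd
  rw [ZMod.val_natCast]
  refine Nat.mod_eq_of_lt ?_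
  exact lt_of_le_of_lt (Nat.div_mul_le_self _ _) (ZMod.val_lt a)

theorem rnd_idem (j : ℕ) (a : ZMod (2 ^ μ)) : rnd j (rnd j a) = rnd j a := by
  have h := val_rnd j a
  unfold rnd at h ⊢
  rw [h, Nat.mul_div_cancel _ (by positivity)]

theorem rnd_nest (j k : ℕ) (hjk : j ≤ k) (a : ZMod (2 ^ μ)) : rnd k (rnd j a) = rnd k a := by
  have h := val_rnd j a
  have h1 : (a.val / 2 ^ j * 2 ^ j) / 2 ^ k = a.val / 2 ^ k := by
    obtain ⟨m, rfl⟩ := Nat.exists_eq_add_of_le hjk
    rw [pow_add, ← Nat.div_div_eq_div_mul, ← Nat.div_div_eq_div_mul,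
      Nat.mul_div_cancel _ (by positivity)]
  show (((rnd j a).val / 2 ^ k * 2 ^ k : ℕ) : ZMod (2 ^ μ)) = _
  rw [h, h1]
  rfl

theorem rnd_eq (j : ℕ) (a b : ZMod (2 ^ μ)) (h : rnd j a = rnd j b) :
    a.val / 2 ^ j = b.val / 2 ^ j := by
  have h1 := congrArg ZMod.val h
  rw [val_rnd, val_rnd] at h1
  exact Nat.eq_of_mul_eq_mul_right (by positivity) h1

theorem cd_of_rnd (j : ℕ) (a b : ZMod (2 ^ μ)) (h : rnd j a = rnd j b) : cd a b ≤ 2 ^ j := by
  have h1 := rnd_eq j a b h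
  have h2 := cd_le a b ((a.val : ℤ) - b.val) (by push_cast; simp)
  have h3 := Nat.div_add_mod a.val (2 ^ j)
  have h4 := Nat.div_add_mod b.val (2 ^ j)
  have h5 : a.val % 2 ^ j < 2 ^ j := Nat.mod_lt _ (by positivity)
  have h6 : b.val % 2 ^ j < 2 ^ j := Nat.mod_lt _ (by positivity)
  rw [h1] at h3
  omega

theorem rnd_int (j : ℕ) (hj : j ≤ μ) (z : ℤ) :
    rnd j (z : ZMod (2 ^ μ)) = ((z / 2 ^ j * 2 ^ j : ℤ) : ZMod (2 ^ μ)) := by
  obtain ⟨m, rfl⟩ := Nat.exists_eq_add_of_le hj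
  have h1 : ((((z : ZMod (2 ^ (j + m))).val : ℕ) : ℤ)) = z % (2 ^ (j + m) : ℕ) := ZMod.val_intCast z
  have h2 := Int.emod_add_mul_ediv z ((2 ^ (j + m) : ℕ) : ℤ)
  have h3 : (((z : ZMod (2 ^ (j + m))).val / 2 ^ j * 2 ^ j : ℕ) : ℤ) =
      z / 2 ^ j * 2 ^ j - ((2 ^ (j + m) : ℕ) : ℤ) * (z / ((2 ^ (j + m) : ℕ) : ℤ)) := by
    push_cast
    rw [h1]
    have h4 : z % ((2 ^ (j + m) : ℕ) : ℤ) = z + 2 ^ j * (-(2 ^ m * (z / ((2 ^ (j + m) : ℕ) : ℤ)))) := by
      have : ((2 ^ (j + m) : ℕ) : ℤ) = 2 ^ j * 2 ^ m := by push_cast; ring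
      rw [this] at h2 ⊢
      linarith only [h2]
    rw [h4, Int.add_mul_ediv_left _ _ (by positivity)]
    push_cast
    ring
  show (((z : ZMod (2 ^ (j + m))).val / 2 ^ j * 2 ^ j : ℕ) : ZMod (2 ^ (j + m))) = _
  have h5 := congrArg (fun t : ℤ => (t : ZMod (2 ^ (j + m)))) h3
  have h6 : ((((2 ^ (j + m) : ℕ) : ℤ) * (z / ((2 ^ (j + m) : ℕ) : ℤ)) : ℤ) :
      ZMod (2 ^ (j + m))) = 0 := by
    rw [Int.cast_mul, Int.cast_natCast, ZMod.natCast_self, zero_mul]
  simp only [Int.cast_natCast, Int.cast_sub, h6, sub_zero] at h5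
  exact h5

theorem meet1 (j : ℕ) (a : ZMod (2 ^ μ)) :
    (({b | cd a b ≤ 2 ^ j} : Finset (ZMod (2 ^ μ))).image (rnd j)).card ≤ 3 := by
  rcases Nat.lt_or_ge μ j with h | h
  · have h1 : (({b | cd a b ≤ 2 ^ j} : Finset (ZMod (2 ^ μ))).image (rnd j)) ⊆ {0} := by
      intro c hc
      obtain ⟨b, _, rfl⟩ := mem_image.1 hc
      rw [mem_singleton]
      unfold rnd
      rw [Nat.div_eq_of_lt, zero_mul, Nat.cast_zero]
      exact lt_of_lt_of_le (ZMod.val_lt b) (Nat.pow_le_pow_right (by norm_num) h.le)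
    have := card_le_card h1
    rw [card_singleton] at this
    omega
  · obtain ⟨q, hq⟩ : ∃ q : ℤ, q = (a.val : ℤ) / 2 ^ j := ⟨_, rfl⟩
    have h1 : (({b | cd a b ≤ 2 ^ j} : Finset (ZMod (2 ^ μ))).image (rnd j)) ⊆
        {(((q - 1) * 2 ^ j : ℤ) : ZMod (2 ^ μ)), ((q * 2 ^ j : ℤ) : ZMod (2 ^ μ)),
          (((q + 1) * 2 ^ j : ℤ) : ZMod (2 ^ μ))} := by
      intro c hc
      obtain ⟨b, hb, rfl⟩ := mem_image.1 hc
      rw [mem_filter] at hb
      obtain ⟨k, hk1, hk2⟩ := exists_int a b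
      have hb1 : b = (((a.val : ℤ) - k : ℤ) : ZMod (2 ^ μ)) := by
        push_cast
        rw [← hk1]
        simp
      rw [hb1, rnd_int j h]
      have hk3 : k.natAbs ≤ 2 ^ j := by rw [hk2]; exact hb.2
      have hk4 : |k| ≤ 2 ^ j := by
        rw [Int.abs_eq_natAbs]
        exact_mod_cast hk3
      rw [abs_le] at hk4
      have hp : (0 : ℤ) < 2 ^ j := by positivity
      have e1 : q * 2 ^ j ≤ (a.val : ℤ) := by
        rw [hq]; exact Int.ediv_mul_le _ hp.ne'
      have e2 : (a.val : ℤ) < (q + 1) * 2 ^ j := by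
        rw [hq]; exact Int.lt_ediv_add_one_mul_self _ hp
      have e3 : q - 1 ≤ ((a.val : ℤ) - k) / 2 ^ j := by
        rw [Int.le_ediv_iff_mul_le hp]
        linarith only [hk4, e1]
      have e4 : ((a.val : ℤ) - k) / 2 ^ j < q + 2 := by
        rw [Int.ediv_lt_iff_lt_mul hp]
        linarith only [hk4, e2]
      have e5 : ((a.val : ℤ) - k) / 2 ^ j = q - 1 ∨ ((a.val : ℤ) - k) / 2 ^ j = q ∨
          ((a.val : ℤ) - k) / 2 ^ j = q + 1 := by omega
      rw [mem_insert, mem_insert, mem_singleton]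
      rcases e5 with e | e | e
      · left; rw [e]
      · right; left; rw [e]
      · right; right; rw [e]
    refine (card_le_card h1).trans ?_
    exact Finset.card_le_three

/-- the neighbours of a block (helper49) -/
theorem meetb1 (j : ℕ) (a : ZMod (2 ^ μ)) :
    (({b | ∃ z, rnd j z = rnd j a ∧ cd z b ≤ 2 ^ j} : Finset (ZMod (2 ^ μ))).image
      (rnd j)).card ≤ 3 := by
  rcases Nat.lt_or_ge μ j with h | h
  · have h1 : (({b | ∃ z, rnd j z = rnd j a ∧ cd z b ≤ 2 ^ j} : Finset (ZMod (2 ^ μ))).image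
        (rnd j)) ⊆ {0} := by
      intro c hc
      obtain ⟨b, _, rfl⟩ := mem_image.1 hc
      rw [mem_singleton]
      unfold rnd
      rw [Nat.div_eq_of_lt, zero_mul, Nat.cast_zero]
      exact lt_of_lt_of_le (ZMod.val_lt b) (Nat.pow_le_pow_right (by norm_num) h.le)
    have := card_le_card h1
    rw [card_singleton] at this
    omega
  · obtain ⟨q, hq⟩ : ∃ q : ℤ, q = (a.val : ℤ) / 2 ^ j := ⟨_, rfl⟩
    have h1 : (({b | ∃ z, rnd j z = rnd j a ∧ cd z b ≤ 2 ^ j} : Finset (ZMod (2 ^ μ))).image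
        (rnd j)) ⊆
        {(((q - 1) * 2 ^ j : ℤ) : ZMod (2 ^ μ)), ((q * 2 ^ j : ℤ) : ZMod (2 ^ μ)),
          (((q + 1) * 2 ^ j : ℤ) : ZMod (2 ^ μ))} := by
      intro c hc
      obtain ⟨b, hb, rfl⟩ := mem_image.1 hc
      rw [mem_filter] at hb
      obtain ⟨-, z, hz, hzb⟩ := hb
      obtain ⟨k, hk1, hk2⟩ := exists_int z b
      have hq' : q = (z.val : ℤ) / 2 ^ j := by
        rw [hq]
        have h5 := rnd_eq j z a hz
        have h6 := congrArg (fun t : ℕ => (t : ℤ)) h5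
        push_cast at h6
        exact h6.symm
      have hb1 : b = (((z.val : ℤ) - k : ℤ) : ZMod (2 ^ μ)) := by
        push_cast
        rw [← hk1]
        simp
      rw [hb1, rnd_int j h]
      have hk3 : k.natAbs ≤ 2 ^ j := by rw [hk2]; exact hzb
      have hk4 : |k| ≤ 2 ^ j := by
        rw [Int.abs_eq_natAbs]
        exact_mod_cast hk3
      rw [abs_le] at hk4
      have hp : (0 : ℤ) < 2 ^ j := by positivity
      have e1 : q * 2 ^ j ≤ (z.val : ℤ) := by
        rw [hq']; exact Int.ediv_mul_le _ hp.ne'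
      have e2 : (z.val : ℤ) < (q + 1) * 2 ^ j := by
        rw [hq']; exact Int.lt_ediv_add_one_mul_self _ hp
      have e3 : q - 1 ≤ ((z.val : ℤ) - k) / 2 ^ j := by
        rw [Int.le_ediv_iff_mul_le hp]
        linarith only [hk4, e1]
      have e4 : ((z.val : ℤ) - k) / 2 ^ j < q + 2 := by
        rw [Int.ediv_lt_iff_lt_mul hp]
        linarith only [hk4, e2]
      have e5 : ((z.val : ℤ) - k) / 2 ^ j = q - 1 ∨ ((z.val : ℤ) - k) / 2 ^ j = q ∨
          ((z.val : ℤ) - k) / 2 ^ j = q + 1 := by omega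
      rw [mem_insert, mem_insert, mem_singleton]
      rcases e5 with e | e | e
      · left; rw [e]
      · right; left; rw [e]
      · right; right; rw [e]
    exact (card_le_card h1).trans Finset.card_le_three

theorem ball1 (a : ZMod (2 ^ μ)) (t : ℕ) :
    ({b | cd a b ≤ t} : Finset (ZMod (2 ^ μ))).card ≤ 2 * t + 1 := by
  have h1 : ({b | cd a b ≤ t} : Finset (ZMod (2 ^ μ))) ⊆
      (Finset.Icc (-(t : ℤ)) t).image (fun k : ℤ => a - (k : ZMod (2 ^ μ))) := by
    intro b hb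
    rw [mem_filter] at hb
    obtain ⟨k, hk1, hk2⟩ := exists_int a b
    rw [mem_image]
    refine ⟨k, ?_, ?_⟩
    · rw [mem_Icc]
      omega
    · rw [← hk1]
      ring
  refine (card_le_card h1).trans (card_image_le.trans ?_)
  rw [Int.card_Icc]
  omega

theorem blk1 (j : ℕ) (c : ZMod (2 ^ μ)) :
    ({b | rnd j b = c} : Finset (ZMod (2 ^ μ))).card ≤ 2 ^ j := by
  have h1 : (({b | rnd j b = c} : Finset (ZMod (2 ^ μ))).image ZMod.val) ⊆
      Finset.Ico c.val (c.val + 2 ^ j) := by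
    intro v hv
    obtain ⟨b, hb, rfl⟩ := mem_image.1 hv
    rw [mem_filter] at hb
    rw [mem_Ico, ← hb.2, val_rnd]
    have h3 := Nat.div_add_mod b.val (2 ^ j)
    have h5 : b.val % 2 ^ j < 2 ^ j := Nat.mod_lt _ (by positivity)
    rw [mul_comm] at h3
    omega
  have h2 := card_le_card h1
  rw [card_image_of_injective _ (ZMod.val_injective _), Nat.card_Ico,
    Nat.add_sub_cancel_left] at h2
  exact h2

/-- blocks of level `j` in a block of level `k` -/
theorem sub1 (j k : ℕ) (hjk : j ≤ k) (c : ZMod (2 ^ μ)) :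
    ({b | rnd j b = b ∧ rnd k b = c} : Finset (ZMod (2 ^ μ))).card ≤ 2 ^ (k - j) := by
  have h1 : (({b | rnd j b = b ∧ rnd k b = c} : Finset (ZMod (2 ^ μ))).image
      (fun b => b.val / 2 ^ j)) ⊆ Finset.Ico (c.val / 2 ^ j) (c.val / 2 ^ j + 2 ^ (k - j)) := by
    intro v hv
    obtain ⟨b, hb, rfl⟩ := mem_image.1 hv
    rw [mem_filter] at hb
    obtain ⟨_, hb1, hb2⟩ := hb
    have h3 := Nat.div_add_mod b.val (2 ^ k)
    have h5 : b.val % 2 ^ k < 2 ^ k := Nat.mod_lt _ (by positivity)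
    have h6 : c.val = b.val / 2 ^ k * 2 ^ k := by rw [← hb2, val_rnd]
    have h7 : 2 ^ k = 2 ^ (k - j) * 2 ^ j := by rw [← pow_add]; congr 1; omega
    have h8 : c.val / 2 ^ j = b.val / 2 ^ k * 2 ^ (k - j) := by
      rw [h6, h7, ← mul_assoc, ← h7, Nat.mul_div_cancel _ (by positivity)]
    rw [mem_Ico, h8]
    constructor
    · rw [Nat.le_div_iff_mul_le (by positivity), mul_assoc, ← h7]
      rw [mul_comm] at h3
      omega
    · rw [Nat.div_lt_iff_lt_mul (by positivity), add_mul, mul_assoc, ← h7]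
      rw [mul_comm] at h3
      omega
  have h2 := card_le_card h1
  rw [card_image_of_injOn, Nat.card_Ico, Nat.add_sub_cancel_left] at h2
  · exact h2
  · intro b hb b' hb' hbb
    rw [coe_filter] at hb hb'
    have e1 := congrArg ZMod.val hb.2.1
    have e2 := congrArg ZMod.val hb'.2.1
    rw [val_rnd] at e1 e2
    refine ZMod.val_injective _ ?_
    simp only at hbb
    rw [← e1, ← e2, hbb]

/-- the torus with dyadic blocks -/
def geoT (d μ : ℕ) (l ρ : ℕ → ℕ) (J N : ℕ) : Geo (Fin d → ZMod (2 ^ μ)) where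
  D := sd
  bl n x := fun i => rnd (l n) (x i)
  L n := 2 ^ l n
  ρ := ρ
  J := J
  N := N

theorem pi_card {d : ℕ} {Y : Type} [Fintype Y] [DecidableEq Y] (S : Finset (Fin d → Y))
    (T : Fin d → Finset Y) (k : ℕ) (h : ∀ x ∈ S, ∀ i, x i ∈ T i) (hT : ∀ i, (T i).card ≤ k) :
    S.card ≤ k ^ d := by
  have h1 : S ⊆ Fintype.piFinset T := by
    intro x hx
    rw [Fintype.mem_piFinset]
    exact h x hx
  refine (card_le_card h1).trans ?_
  rw [Fintype.card_piFinset]
  refine (Finset.prod_le_prod' (fun i _ => hT i)).trans ?_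
  simp

/-- TRG: the torus satisfies `GeoOk`. -/
theorem trg (d μ : ℕ) (l ρ : ℕ → ℕ) (hl : Monotone l) (J N : ℕ) :
    GeoOk (geoT d μ l ρ J N) d where
  self := sd_self
  comm := sd_comm
  tri := sd_tri
  vol x t := by
    refine pi_card _ (fun i => ({b | cd (x i) b ≤ t} : Finset (ZMod (2 ^ μ)))) _ ?_ ?_
    · intro y hy i
      rw [mem_filter] at hy ⊢
      exact ⟨mem_univ _, (sd_le x y t).1 hy.2 i⟩
    · intro i
      exact ball1 _ _
  idem n x := by
    funext i
    exact rnd_idem _ _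
  nest n x := by
    funext i
    exact rnd_nest _ _ (hl (Nat.le_succ n)) _
  diam n x y h := by
    show sd x y ≤ 2 ^ l n
    rw [sd_le]
    intro i
    exact cd_of_rnd _ _ _ (congrFun h i)
  meet n x := by
    refine pi_card _ (fun i => ({b | cd (x i) b ≤ 2 ^ l n} : Finset (ZMod (2 ^ μ))).image
      (rnd (l n))) _ ?_ ?_
    · intro y hy i
      obtain ⟨z, hz, rfl⟩ := mem_image.1 hy
      rw [mem_filter] at hz
      rw [mem_image]
      refine ⟨z i, ?_, rfl⟩
      rw [mem_filter]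
      exact ⟨mem_univ _, (sd_le x z _).1 hz.2 i⟩
    · intro i
      exact meet1 _ _
  meetb n x := by
    refine pi_card _ (fun i => ({b | ∃ z, rnd (l n) z = rnd (l n) (x i) ∧ cd z b ≤ 2 ^ l n} :
      Finset (ZMod (2 ^ μ))).image (rnd (l n))) _ ?_ ?_
    · intro y hy i
      obtain ⟨w, hw, rfl⟩ := mem_image.1 hy
      rw [mem_filter] at hw
      obtain ⟨-, z, hz, hzw⟩ := hw
      rw [mem_image]
      refine ⟨w i, ?_, rfl⟩
      rw [mem_filter]
      exact ⟨mem_univ _, z i, congrFun hz i, (sd_le z w _).1 hzw i⟩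
    · intro i
      exact meetb1 _ _
  bvol n x := by
    refine pi_card _ (fun i => ({b | rnd (l n) b = x i} : Finset (ZMod (2 ^ μ)))) _ ?_ ?_
    · intro y hy i
      rw [Geo.blk, mem_filter] at hy
      rw [mem_filter]
      exact ⟨mem_univ _, congrFun hy.2 i⟩
    · intro i
      exact blk1 _ _

/-- the number of the sub-blocks -/
theorem trm (d μ : ℕ) (l ρ : ℕ → ℕ) (hl : Monotone l) (J N n : ℕ) (B : Fin d → ZMod (2 ^ μ)) :
    ({b | (geoT d μ l ρ J N).bl n b = b ∧ (geoT d μ l ρ J N).bl (n + 1) b = B} :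
      Finset (Fin d → ZMod (2 ^ μ))).card ≤ (2 ^ (l (n + 1) - l n)) ^ d := by
  refine pi_card _ (fun i => ({b | rnd (l n) b = b ∧ rnd (l (n + 1)) b = B i} :
    Finset (ZMod (2 ^ μ)))) _ ?_ ?_
  · intro y hy i
    rw [mem_filter] at hy
    rw [mem_filter]
    exact ⟨mem_univ _, congrFun hy.2.1 i, congrFun hy.2.2 i⟩
  · intro i
    exact sub1 _ _ (hl (Nat.le_succ n)) _

end Pool.Agent.ANP.H61
end -- Pool.Agent.Helper61_ANP.Tor

section -- Pool.Agent.LTG.Defs

/-!
# Local to global: Moreau forms on a graph and boxes of the torus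

A form is a function `Q : (X → ℝ) → ℝ`. The reference (Moreau) form with node weights `al ≥ 0` and
bond weights `be ≥ 0` is the minimum over `h` of `mor s t al be f h`; we never take the minimum,
`LB` and `UB` say the same with quantifiers. `ep` is the type of the bonds, `s e` and `t e` are the
two ends of the bond `e`. The function `h` lives on ALL sites, also on those with `al x = 0`.
-/

set_option autoImplicit false

open scoped BigOperators

noncomputable section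

namespace Pool.Agent.LTG

section graph

variable {X ep : Type*} [Fintype X] [Fintype ep]

/-- the energy of the bonds -/
def bon (s t : ep → X) (be : ep → ℝ) (h : X → ℝ) : ℝ := ∑ e, be e * (h (t e) - h (s e)) ^ 2

/-- the Moreau form with the pair `f`, `h` -/
def mor (s t : ep → X) (al : X → ℝ) (be : ep → ℝ) (f h : X → ℝ) : ℝ :=
  ∑ x, al x * (f x - h x) ^ 2 + bon s t be h

/-- the form `Q` is bounded below by the Moreau form with weights `al`, `be` -/
def LB (s t : ep → X) (Q : (X → ℝ) → ℝ) (al : X → ℝ) (be : ep → ℝ) : Prop :=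
  ∀ f, ∃ h, mor s t al be f h ≤ Q f

/-- the form `Q` is bounded above by the Moreau form with weights `al`, `be` -/
def UB (s t : ep → X) (Q : (X → ℝ) → ℝ) (al : X → ℝ) (be : ep → ℝ) : Prop :=
  ∀ f h, Q f ≤ mor s t al be f h

/-- node weights cut to the set `B` -/
def cutX (B : X → Prop) [DecidablePred B] (al : X → ℝ) (x : X) : ℝ := if B x then al x else 0

/-- bond weights cut to the bonds with both ends in `B` -/
def cutE (s t : ep → X) (B : X → Prop) [DecidablePred B] (be : ep → ℝ) (e : ep) : ℝ :=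
  if B (s e) ∧ B (t e) then be e else 0

/-- the part of the Moreau form in `B`: nodes in `B`, bonds with both ends in `B` -/
def morB (s t : ep → X) (B : X → Prop) [DecidablePred B] (al : X → ℝ) (be : ep → ℝ)
    (f h : X → ℝ) : ℝ := mor s t (cutX B al) (cutE s t B be) f h

end graph

section ladder

variable {X : Type*} [Fintype X]

/-- the quadratic form of a matrix -/
def qd (E : Matrix X X ℝ) (f : X → ℝ) : ℝ := ∑ a, f a * (E.mulVec f) a

/-- `E1 = (1 + E T)⁻¹ E` with `T = diag τ`, `τ ≥ 0`, `E` symmetric and nonnegative: the ladder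
flow of `E`, the resistance `τ x` is added at the node `x` -/
structure Lad [DecidableEq X] (E E1 : Matrix X X ℝ) (τ : X → ℝ) : Prop where
  sym : E.IsSymm
  psd : ∀ f, 0 ≤ qd E f
  tau : ∀ x, 0 ≤ τ x
  eq : E1 + E * Matrix.diagonal τ * E1 = E

end ladder

section torus

variable {d M : ℕ}

/-- the sites of the torus `(ℤ/M)^d` -/
abbrev Tor (d M : ℕ) : Type := Fin d → ZMod M

/-- the bonds of the torus: the bond `(i, x)` joins `x` and `x + e_i` -/
abbrev Bd (d M : ℕ) : Type := Fin d × Tor d M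

/-- the first end of a bond -/
def sT (e : Bd d M) : Tor d M := e.2

/-- the second end of a bond -/
def tT (e : Bd d M) : Tor d M := e.2 + Pi.single e.1 1

/-- coordinates of `x` seen from the corner `a`: numbers in `[0, M)` -/
def off (a x : Tor d M) (i : Fin d) : ℕ := (x i - a i).val

/-- the box with corner `a` and side `L` (`L` sites in every direction) -/
def Box (a : Tor d M) (L : ℕ) (x : Tor d M) : Prop := ∀ i, off a x i < L

/-- the sites of the box with corner `a` and side `L` at depth `R` inside -/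
def Core (a : Tor d M) (L R : ℕ) (x : Tor d M) : Prop := ∀ i, R ≤ off a x i ∧ off a x i + R < L

instance (a : Tor d M) (L : ℕ) : DecidablePred (Box a L) := fun x => by
  unfold Box; infer_instance

instance (a : Tor d M) (L R : ℕ) : DecidablePred (Core a L R) := fun x => by
  unfold Core; infer_instance

end torus

end Pool.Agent.LTG
end
end -- Pool.Agent.LTG.Defs

section -- Pool.Agent.Helper22_LTG.Lad

/-!
# The ladder on Moreau forms: inf-convolution with the new resistances, kills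
-/

set_option autoImplicit false

open scoped BigOperators
open Finset Matrix

noncomputable section

namespace Pool.Agent.LTG

variable {X ep : Type*} [Fintype X] [Fintype ep] [DecidableEq X]

omit [DecidableEq X] in
/-- bilinear expansion of a symmetric form -/
lemma qd_add (E : Matrix X X ℝ) (hE : E.IsSymm) (u z : X → ℝ) :
    qd E (fun x => u x + z x) = qd E u + 2 * ∑ x, z x * (E *ᵥ u) x + qd E z := by
  have e1 : (fun x => u x + z x) = u + z := rfl
  have h : ∑ x, u x * (E *ᵥ z) x = ∑ x, z x * (E *ᵥ u) x := by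
    have : u ⬝ᵥ (E *ᵥ z) = z ⬝ᵥ (E *ᵥ u) := by
      rw [Matrix.dotProduct_mulVec, ← Matrix.mulVec_transpose, hE.eq, dotProduct_comm]
    exact this
  unfold qd
  rw [e1, Matrix.mulVec_add]
  simp only [Pi.add_apply]
  have : ∀ x, (u x + z x) * ((E *ᵥ u) x + (E *ᵥ z) x) = u x * (E *ᵥ u) x + z x * (E *ᵥ u) x +
      (u x * (E *ᵥ z) x + z x * (E *ᵥ z) x) := fun x => by ring
  rw [Finset.sum_congr rfl fun x _ => this x, Finset.sum_add_distrib, Finset.sum_add_distrib,
    Finset.sum_add_distrib, h]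
  ring

/-- the minimiser -/
def umin (E1 : Matrix X X ℝ) (τ : X → ℝ) (f : X → ℝ) (x : X) : ℝ := f x - τ x * (E1 *ᵥ f) x

lemma E_umin {E E1 : Matrix X X ℝ} {τ : X → ℝ} (h : Lad E E1 τ) (f : X → ℝ) :
    E *ᵥ (umin E1 τ f) = E1 *ᵥ f := by
  have e : umin E1 τ f = f - Matrix.diagonal τ *ᵥ (E1 *ᵥ f) := by
    funext x
    rw [Pi.sub_apply, Matrix.mulVec_diagonal]
    rfl
  have h2 : E1 *ᵥ f + E *ᵥ (Matrix.diagonal τ *ᵥ (E1 *ᵥ f)) = E *ᵥ f := by
    conv_rhs => rw [← h.eq]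
    rw [Matrix.add_mulVec, Matrix.mulVec_mulVec, Matrix.mulVec_mulVec, Matrix.mul_assoc]
  rw [e, Matrix.mulVec_sub, ← h2]
  abel

/-- the value of the ladder form -/
theorem lad_eq {E E1 : Matrix X X ℝ} {τ : X → ℝ} (h : Lad E E1 τ) (f : X → ℝ) :
    qd E1 f = qd E (umin E1 τ f) + ∑ x, (f x - umin E1 τ f x) ^ 2 / τ x := by
  have e1 : qd E (umin E1 τ f) = ∑ x, umin E1 τ f x * (E1 *ᵥ f) x := by
    unfold qd
    rw [E_umin h]
  rw [e1, ← Finset.sum_add_distrib]
  unfold qd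
  refine Finset.sum_congr rfl fun x _ => ?_
  unfold umin
  by_cases hx : τ x = 0
  · rw [hx]; simp
  · field_simp
    ring

/-- the ladder form is an inf-convolution: upper bound by every competitor -/
theorem lad_le {E E1 : Matrix X X ℝ} {τ : X → ℝ} (h : Lad E E1 τ) (f u : X → ℝ)
    (hu : ∀ x, τ x = 0 → u x = f x) :
    qd E1 f ≤ qd E u + ∑ x, (f x - u x) ^ 2 / τ x := by
  rw [lad_eq h f]
  set w := E1 *ᵥ f with hw
  set z : X → ℝ := fun x => u x - umin E1 τ f x with hz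
  have e1 : u = fun x => umin E1 τ f x + z x := by
    funext x; rw [hz]; ring
  have e2 : qd E u = qd E (umin E1 τ f) + 2 * ∑ x, z x * w x + qd E z := by
    rw [e1, qd_add E h.sym, E_umin h]
  have e3 : ∑ x, (f x - u x) ^ 2 / τ x = ∑ x, (f x - umin E1 τ f x) ^ 2 / τ x -
      2 * ∑ x, z x * w x + ∑ x, z x ^ 2 / τ x := by
    rw [Finset.mul_sum, ← Finset.sum_sub_distrib, ← Finset.sum_add_distrib]
    refine Finset.sum_congr rfl fun x _ => ?_
    by_cases hx : τ x = 0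
    · have h1 : umin E1 τ f x = f x := by unfold umin; rw [hx]; ring
      have h2 : z x = 0 := by rw [hz]; simp only [hu x hx, h1]; ring
      rw [hx, h2]; simp
    · have h1 : f x - u x = τ x * w x - z x := by
        rw [hz]; simp only [umin]; rw [hw]; ring
      have h2 : f x - umin E1 τ f x = τ x * w x := by
        simp only [umin]; rw [hw]; ring
      rw [h1, h2]
      field_simp
      ring
  have h4 : 0 ≤ ∑ x, z x ^ 2 / τ x :=
    Finset.sum_nonneg fun x _ => div_nonneg (sq_nonneg _) (h.tau x)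
  have h5 := h.psd z
  rw [e2, e3]
  linarith

/-- the ladder decreases the form -/
theorem lad_mono {E E1 : Matrix X X ℝ} {τ : X → ℝ} (h : Lad E E1 τ) (f : X → ℝ) :
    qd E1 f ≤ qd E f := by
  have := lad_le h f f (fun _ _ => rfl)
  simpa using this

/-- the ladder form is nonnegative -/
theorem lad_nonneg {E E1 : Matrix X X ℝ} {τ : X → ℝ} (h : Lad E E1 τ) (f : X → ℝ) :
    0 ≤ qd E1 f := by
  rw [lad_eq h f]
  exact add_nonneg (h.psd _) (Finset.sum_nonneg fun x _ => div_nonneg (sq_nonneg _) (h.tau x))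

/-- (LAD, lower) -/
theorem lad_lb {E E1 : Matrix X X ℝ} {τ : X → ℝ} (h : Lad E E1 τ) (s t : ep → X)
    {al : X → ℝ} {be : ep → ℝ} (ha : ∀ x, 0 ≤ al x) (hL : LB s t (qd E) al be) :
    LB s t (qd E1) (fun x => al x / (1 + al x * τ x)) be := by
  intro f
  obtain ⟨k, hk⟩ := hL (umin E1 τ f)
  refine ⟨k, ?_⟩
  rw [lad_eq h f]
  have hp : ∀ x, al x / (1 + al x * τ x) * (f x - k x) ^ 2 ≤
      al x * (umin E1 τ f x - k x) ^ 2 + (f x - umin E1 τ f x) ^ 2 / τ x := by
    intro x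
    have ht := h.tau x
    have hax := ha x
    rcases eq_or_lt_of_le ht with h0 | h0
    · have h1 : umin E1 τ f x = f x := by unfold umin; rw [← h0]; ring
      rw [h1, ← h0]; simp
    · have hd : 0 < 1 + al x * τ x := by positivity
      rw [div_mul_eq_mul_div, div_le_iff₀ hd]
      have e : (al x * (umin E1 τ f x - k x) ^ 2 + (f x - umin E1 τ f x) ^ 2 / τ x) *
          (1 + al x * τ x) - al x * (f x - k x) ^ 2 =
          ((f x - umin E1 τ f x) - al x * τ x * (umin E1 τ f x - k x)) ^ 2 / τ x := by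
        field_simp
        ring
      have h3 : 0 ≤ ((f x - umin E1 τ f x) - al x * τ x * (umin E1 τ f x - k x)) ^ 2 / τ x :=
        div_nonneg (sq_nonneg _) ht
      linarith
  unfold mor at hk ⊢
  have h4 := Finset.sum_le_sum fun x (_ : x ∈ Finset.univ) => hp x
  rw [Finset.sum_add_distrib] at h4
  linarith

/-- (LAD, upper) -/
theorem lad_ub {E E1 : Matrix X X ℝ} {τ : X → ℝ} (h : Lad E E1 τ) (s t : ep → X)
    {al : X → ℝ} {be : ep → ℝ} (ha : ∀ x, 0 ≤ al x) (hU : UB s t (qd E) al be) :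
    UB s t (qd E1) (fun x => al x / (1 + al x * τ x)) be := by
  intro f k
  set u : X → ℝ := fun x => f x - al x * τ x / (1 + al x * τ x) * (f x - k x) with hu
  have h1 := lad_le h f u (fun x hx => by rw [hu]; simp only [hx]; simp)
  have h2 := hU u k
  refine h1.trans ?_
  unfold mor at h2 ⊢
  have hp : ∀ x, al x * (u x - k x) ^ 2 + (f x - u x) ^ 2 / τ x =
      al x / (1 + al x * τ x) * (f x - k x) ^ 2 := by
    intro x
    have ht := h.tau x
    have hax := ha x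
    rcases eq_or_lt_of_le ht with h0 | h0
    · rw [hu]; simp only [← h0]; simp
    · have hd : (1 + al x * τ x) ≠ 0 := by positivity
      rw [hu]
      field_simp
      ring
  have h4 := Finset.sum_congr rfl fun x (_ : x ∈ Finset.univ) => hp x
  rw [Finset.sum_add_distrib] at h4
  linarith

/-- (KIL, lower) the kill of the site `x`: minimum over the value at `x` -/
theorem kil_lb (s t : ep → X) {Q Q' : (X → ℝ) → ℝ} {al : X → ℝ} {be : ep → ℝ} (x : X)
    (hx : 0 ≤ al x) (hL : LB s t Q al be)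
    (hQ : ∀ f, ∃ f' : X → ℝ, (∀ y, y ≠ x → f' y = f y) ∧ Q f' ≤ Q' f) :
    LB s t Q' (Function.update al x 0) be := by
  intro f
  obtain ⟨f', h1, h2⟩ := hQ f
  obtain ⟨k, hk⟩ := hL f'
  refine ⟨k, ?_⟩
  refine le_trans ?_ (hk.trans h2)
  unfold mor
  have hp : ∀ y, Function.update al x 0 y * (f y - k y) ^ 2 ≤ al y * (f' y - k y) ^ 2 := by
    intro y
    by_cases hy : y = x
    · subst hy
      rw [Function.update_self, zero_mul]
      positivity
    · rw [Function.update_of_ne hy, h1 y hy]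
  have := Finset.sum_le_sum fun y (_ : y ∈ Finset.univ) => hp y
  linarith

/-- (KIL, upper) -/
theorem kil_ub (s t : ep → X) {Q Q' : (X → ℝ) → ℝ} {al : X → ℝ} {be : ep → ℝ} (x : X)
    (hU : UB s t Q al be)
    (hQ : ∀ f f' : X → ℝ, (∀ y, y ≠ x → f' y = f y) → Q' f ≤ Q f') :
    UB s t Q' (Function.update al x 0) be := by
  intro f k
  refine (hQ f (Function.update f x (k x)) (fun y hy => Function.update_of_ne hy _ _)).trans ?_
  refine (hU _ k).trans (le_of_eq ?_)
  unfold mor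
  congr 1
  refine Finset.sum_congr rfl fun y _ => ?_
  by_cases hy : y = x
  · subst hy
    simp
  · rw [Function.update_of_ne hy, Function.update_of_ne hy]

/-- the ladder exists -/
theorem lad_exists {E : Matrix X X ℝ} {τ : X → ℝ} (hs : E.IsSymm) (hp : ∀ f, 0 ≤ qd E f)
    (hτ : ∀ x, 0 ≤ τ x) : IsUnit (1 + E * Matrix.diagonal τ) ∧
    Lad E ((1 + E * Matrix.diagonal τ)⁻¹ * E) τ := by
  have hu : IsUnit (1 + E * Matrix.diagonal τ) := by
    rw [← Matrix.mulVec_injective_iff_isUnit]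
    intro v w hvw
    have hz0 : (1 + E * Matrix.diagonal τ) *ᵥ (v - w) = 0 := by
      rw [Matrix.mulVec_sub, hvw, sub_self]
    set z := v - w with hz
    have h1 : z + E *ᵥ (Matrix.diagonal τ *ᵥ z) = 0 := by
      rw [Matrix.add_mulVec, Matrix.one_mulVec, ← Matrix.mulVec_mulVec] at hz0
      exact hz0
    have h2 : qd E (Matrix.diagonal τ *ᵥ z) = -∑ x, τ x * z x ^ 2 := by
      have h3 : E *ᵥ (Matrix.diagonal τ *ᵥ z) = -z := by
        rw [eq_neg_iff_add_eq_zero, add_comm]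
        exact h1
      unfold qd
      rw [h3, ← Finset.sum_neg_distrib]
      refine Finset.sum_congr rfl fun x _ => ?_
      rw [Matrix.mulVec_diagonal, Pi.neg_apply]
      ring
    have h3 : ∑ x, τ x * z x ^ 2 = 0 := by
      have h4 := hp (Matrix.diagonal τ *ᵥ z)
      have h5 : 0 ≤ ∑ x, τ x * z x ^ 2 :=
        Finset.sum_nonneg fun x _ => mul_nonneg (hτ x) (sq_nonneg _)
      linarith
    have h4 : Matrix.diagonal τ *ᵥ z = 0 := by
      funext x
      rw [Matrix.mulVec_diagonal, Pi.zero_apply]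
      have h5 := (Finset.sum_eq_zero_iff_of_nonneg
        (fun x _ => mul_nonneg (hτ x) (sq_nonneg (z x)))).1 h3 x (Finset.mem_univ _)
      rcases mul_eq_zero.1 h5 with h6 | h6
      · rw [h6, zero_mul]
      · rw [pow_eq_zero_iff (two_ne_zero)] at h6
        rw [h6, mul_zero]
    rw [h4, Matrix.mulVec_zero, add_zero] at h1
    rw [← sub_eq_zero]
    exact h1
  refine ⟨hu, hs, hp, hτ, ?_⟩
  have hdet : IsUnit (1 + E * Matrix.diagonal τ).det := (Matrix.isUnit_iff_isUnit_det _).1 hu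
  have h1 : (1 + E * Matrix.diagonal τ) * ((1 + E * Matrix.diagonal τ)⁻¹ * E) = E := by
    rw [← Matrix.mul_assoc, Matrix.mul_nonsing_inv _ hdet, Matrix.one_mul]
  rw [Matrix.add_mul, Matrix.one_mul] at h1
  exact h1

/-- uniqueness of the ladder form -/
theorem lad_unique {E E1 : Matrix X X ℝ} {τ : X → ℝ} (h : Lad E E1 τ) :
    E1 = (1 + E * Matrix.diagonal τ)⁻¹ * E := by
  obtain ⟨hu, -⟩ := lad_exists h.sym h.psd h.tau
  have hdet : IsUnit (1 + E * Matrix.diagonal τ).det := (Matrix.isUnit_iff_isUnit_det _).1 hu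
  have h1 : (1 + E * Matrix.diagonal τ) * E1 = E := by
    rw [Matrix.add_mul, Matrix.one_mul]
    exact h.eq
  calc E1 = ((1 + E * Matrix.diagonal τ)⁻¹ * (1 + E * Matrix.diagonal τ)) * E1 := by
        rw [Matrix.nonsing_inv_mul _ hdet, Matrix.one_mul]
    _ = (1 + E * Matrix.diagonal τ)⁻¹ * E := by rw [Matrix.mul_assoc, h1]

/-- the ladder form is symmetric -/
theorem lad_symm {E E1 : Matrix X X ℝ} {τ : X → ℝ} (h : Lad E E1 τ) : E1.IsSymm := by
  obtain ⟨hu, -⟩ := lad_exists h.sym h.psd h.tau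
  have hdet : IsUnit (1 + E * Matrix.diagonal τ).det := (Matrix.isUnit_iff_isUnit_det _).1 hu
  have h1 : (1 + E * Matrix.diagonal τ) * E1 = E := by
    rw [Matrix.add_mul, Matrix.one_mul]
    exact h.eq
  have h2 : E1ᵀ * (1 + Matrix.diagonal τ * E) = E := by
    have := congrArg Matrix.transpose h1
    rw [Matrix.transpose_mul, Matrix.transpose_add, Matrix.transpose_mul, h.sym.eq,
      Matrix.diagonal_transpose, Matrix.transpose_one] at this
    exact this
  have h3 : (1 + E * Matrix.diagonal τ) * E1ᵀ = E := by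
    have hu2 : IsUnit (1 + Matrix.diagonal τ * E) := by
      have : (1 + E * Matrix.diagonal τ)ᵀ = 1 + Matrix.diagonal τ * E := by
        rw [Matrix.transpose_add, Matrix.transpose_mul, h.sym.eq,
          Matrix.diagonal_transpose, Matrix.transpose_one]
      rw [← this, Matrix.isUnit_iff_isUnit_det, Matrix.det_transpose]
      exact hdet
    have h4 : ((1 + E * Matrix.diagonal τ) * E1ᵀ) * (1 + Matrix.diagonal τ * E) =
        E * (1 + Matrix.diagonal τ * E) := by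
      rw [Matrix.mul_assoc, h2, Matrix.add_mul, Matrix.mul_add, Matrix.one_mul, Matrix.mul_one,
        Matrix.mul_assoc]
    exact hu2.mul_right_cancel h4
  have h5 : (1 + E * Matrix.diagonal τ) * E1ᵀ = (1 + E * Matrix.diagonal τ) * E1 := by
    rw [h3, h1]
  exact hu.mul_left_cancel h5

/-- the ladder form does not see constants if the form does not -/
theorem lad_const {E E1 : Matrix X X ℝ} {τ : X → ℝ} (h : Lad E E1 τ) (v : X → ℝ)
    (hv : E *ᵥ v = 0) : E1 *ᵥ v = 0 := by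
  rw [lad_unique h, ← Matrix.mulVec_mulVec, hv, Matrix.mulVec_zero]

/-- the new weights in normal form, lower bound (`ε` of any sign): white weight `w`, new white
weight `w'`, resistance `1 / w' - 1 / w` -/
theorem lad_weight {w w' ε : ℝ} (hw : 0 < w) (hw' : 0 < w') (he : 0 < 1 + ε) :
    w / (1 + ε) / (1 + w / (1 + ε) * (1 / w' - 1 / w)) = w' / (1 + ε * (w' / w)) := by
  have h1 : 1 + w / (1 + ε) * (1 / w' - 1 / w) = (w + ε * w') / ((1 + ε) * w') := by
    field_simp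
    ring
  have h2 : 1 + ε * (w' / w) = (w + ε * w') / w := by
    field_simp
  rw [h1, h2]
  by_cases h3 : w + ε * w' = 0
  · rw [h3]; simp
  · field_simp

end Pool.Agent.LTG
end
end -- Pool.Agent.Helper22_LTG.Lad

section -- Pool.Agent.Helper22_LTG.Poi

/-!
# The Poincaré inequality on boxes of the torus
-/

set_option autoImplicit false

open scoped BigOperators
open Finset

namespace Pool.Agent.LTG

/-- one dimension: two values differ by at most the energy of the line -/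
lemma line (g : ℕ → ℝ) (L p q : ℕ) (hp : p < L) (hq : q < L) :
    (g p - g q) ^ 2 ≤ L * ∑ r : Fin L, if (r : ℕ) + 1 < L then (g (r + 1) - g r) ^ 2 else 0 := by
  wlog h : q ≤ p generalizing p q with H
  · have := H q p hq hp (by omega)
    have e : (g p - g q) ^ 2 = (g q - g p) ^ 2 := by ring
    rw [e]; exact this
  have h1 : g p - g q = ∑ r ∈ Ico q p, (g (r + 1) - g r) := by
    rw [Finset.sum_Ico_eq_sub _ h, Finset.sum_range_sub, Finset.sum_range_sub]; ring
  rw [h1]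
  have h2 : (∑ r ∈ Ico q p, (g (r + 1) - g r)) ^ 2 ≤ (Ico q p).card *
      ∑ r ∈ Ico q p, (g (r + 1) - g r) ^ 2 := sq_sum_le_card_mul_sum_sq
  have h3 : ∑ r ∈ Ico q p, (g (r + 1) - g r) ^ 2 ≤
      ∑ r : Fin L, if (r : ℕ) + 1 < L then (g (r + 1) - g r) ^ 2 else 0 := by
    rw [Fin.sum_univ_eq_sum_range (fun r => if r + 1 < L then (g (r + 1) - g r) ^ 2 else 0) L]
    rw [← Finset.sum_filter]
    apply Finset.sum_le_sum_of_subset_of_nonneg
    · intro r hr
      rw [Finset.mem_Ico] at hr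
      rw [Finset.mem_filter, Finset.mem_range]
      omega
    · intro r _ _
      positivity
  have h4 : ((Ico q p).card : ℝ) ≤ L := by
    rw [Nat.card_Ico]
    exact_mod_cast (by omega : p - q ≤ L)
  have h5 : 0 ≤ ∑ r ∈ Ico q p, (g (r + 1) - g r) ^ 2 := Finset.sum_nonneg fun _ _ => by positivity
  calc (∑ r ∈ Ico q p, (g (r + 1) - g r)) ^ 2
      ≤ (Ico q p).card * ∑ r ∈ Ico q p, (g (r + 1) - g r) ^ 2 := h2
    _ ≤ L * ∑ r ∈ Ico q p, (g (r + 1) - g r) ^ 2 := by gcongr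
    _ ≤ _ := by gcongr

variable {d L : ℕ}

/-- replacing one coordinate by a free one -/
lemma sum_upd (i : Fin d) (φ : (Fin d → Fin L) → ℝ) :
    ∑ u, ∑ r : Fin L, φ (Function.update u i r) = L * ∑ u, φ u := by
  let τ : (Fin d → Fin L) × Fin L → (Fin d → Fin L) × Fin L := fun p =>
    (Function.update p.1 i p.2, p.1 i)
  have hτ : Function.Involutive τ := by
    intro p
    simp [τ]
  have h1 : ∑ p : (Fin d → Fin L) × Fin L, φ ((τ p).1) =
      ∑ p : (Fin d → Fin L) × Fin L, φ p.1 :=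
    Equiv.sum_comp hτ.toPerm (fun p : (Fin d → Fin L) × Fin L => φ p.1)
  rw [Fintype.sum_prod_type, Fintype.sum_prod_type] at h1
  simp only [τ, Finset.sum_const, Finset.card_univ, Fintype.card_fin, nsmul_eq_mul] at h1
  rw [h1, Finset.mul_sum]

/-- the first `k` coordinates of `v`, the others of `u` -/
def mix (k : ℕ) (u v : Fin d → Fin L) : Fin d → Fin L := fun i => if (i : ℕ) < k then v i else u i

lemma mix_zero (u v : Fin d → Fin L) : mix 0 u v = u := by
  funext i; simp [mix]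

lemma mix_last (u v : Fin d → Fin L) : mix d u v = v := by
  funext i; simp [mix]

lemma mix_succ (k : Fin d) (u v : Fin d → Fin L) :
    mix ((k : ℕ) + 1) u v = Function.update (mix k u v) k ((mix k v u) k) := by
  funext i
  by_cases h : i = k
  · subst h; simp [mix]
  · have h' : (i : ℕ) ≠ k := fun e => h (Fin.ext e)
    rw [Function.update_of_ne h]
    simp only [mix]
    by_cases h2 : (i : ℕ) < k
    · rw [if_pos (by omega), if_pos h2]
    · rw [if_neg (by omega), if_neg h2]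

lemma sum_mix (k : ℕ) (Φ : (Fin d → Fin L) → (Fin d → Fin L) → ℝ) :
    ∑ u, ∑ v, Φ (mix k u v) (mix k v u) = ∑ u, ∑ v, Φ u v := by
  let τ : (Fin d → Fin L) × (Fin d → Fin L) → (Fin d → Fin L) × (Fin d → Fin L) := fun p =>
    (mix k p.1 p.2, mix k p.2 p.1)
  have hτ : Function.Involutive τ := by
    intro p
    apply Prod.ext
    · funext i
      simp only [τ, mix]
      split <;> rfl
    · funext i
      simp only [τ, mix]
      split <;> rfl
  have h1 : ∑ p : (Fin d → Fin L) × (Fin d → Fin L), Φ (τ p).1 (τ p).2 =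
      ∑ p : (Fin d → Fin L) × (Fin d → Fin L), Φ p.1 p.2 :=
    Equiv.sum_comp hτ.toPerm (fun p : (Fin d → Fin L) × (Fin d → Fin L) => Φ p.1 p.2)
  rw [Fintype.sum_prod_type, Fintype.sum_prod_type] at h1
  exact h1

/-- the coordinates as natural numbers -/
def co (u : Fin d → Fin L) : Fin d → ℕ := fun i => (u i : ℕ)

/-- the energy of the direction `k` in the cube -/
noncomputable def enk (L : ℕ) (F : (Fin d → ℕ) → ℝ) (k : Fin d) : ℝ :=
  ∑ u : Fin d → Fin L, if (u k : ℕ) + 1 < L then (F (co u + Pi.single k 1) - F (co u)) ^ 2 else 0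

lemma co_upd (u : Fin d → Fin L) (k : Fin d) (r : Fin L) :
    co (Function.update u k r) = Function.update (co u) k (r : ℕ) := by
  funext i
  by_cases h : i = k
  · subst h; simp [co]
  · simp [co, Function.update_of_ne h]

/-- the energy of a line of the cube, summed over the lines -/
lemma sum_line (F : (Fin d → ℕ) → ℝ) (k : Fin d) :
    ∑ w : Fin d → Fin L, ∑ q : Fin L, (if (q : ℕ) + 1 < L then
      (F (Function.update (co w) k ((q : ℕ) + 1)) - F (Function.update (co w) k (q : ℕ))) ^ 2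
        else 0) = L * enk L F k := by
  rw [enk, ← sum_upd k]
  refine Finset.sum_congr rfl fun w _ => Finset.sum_congr rfl fun q _ => ?_
  rw [Function.update_self]
  have e : co (Function.update w k q) + Pi.single k 1 =
      Function.update (co w) k ((q : ℕ) + 1) := by
    rw [co_upd]
    funext i
    by_cases h : i = k
    · subst h; simp
    · simp [Function.update_of_ne h, Pi.single_eq_of_ne h]
  rw [e, co_upd]

lemma step_le (F : (Fin d → ℕ) → ℝ) (k : Fin d) :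
    ∑ u : Fin d → Fin L, ∑ v : Fin d → Fin L,
      (F (co (mix k u v)) - F (co (mix ((k : ℕ) + 1) u v))) ^ 2 ≤
      (L : ℝ) ^ (d + 2) * enk L F k := by
  have h1 : ∑ u : Fin d → Fin L, ∑ v : Fin d → Fin L,
      (F (co (mix k u v)) - F (co (mix ((k : ℕ) + 1) u v))) ^ 2 =
      ∑ w : Fin d → Fin L, ∑ w' : Fin d → Fin L,
        (F (co w) - F (co (Function.update w k (w' k)))) ^ 2 := by
    rw [← sum_mix (k : ℕ) (fun w w' => (F (co w) - F (co (Function.update w k (w' k)))) ^ 2)]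
    refine Finset.sum_congr rfl fun u _ => Finset.sum_congr rfl fun v _ => ?_
    rw [mix_succ]
  rw [h1]
  have h2 : ∀ w w' : Fin d → Fin L, (F (co w) - F (co (Function.update w k (w' k)))) ^ 2 ≤
      L * ∑ q : Fin L, (if (q : ℕ) + 1 < L then
      (F (Function.update (co w) k ((q : ℕ) + 1)) - F (Function.update (co w) k (q : ℕ))) ^ 2
        else 0) := by
    intro w w'
    have := line (fun q => F (Function.update (co w) k q)) L (w k) (w' k) (w k).2 (w' k).2
    have e : Function.update (co w) k (w k : ℕ) = co w := by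
      have : (w k : ℕ) = co w k := rfl
      rw [this, Function.update_eq_self]
    rw [co_upd]
    simp only [e] at this
    exact this
  calc ∑ w : Fin d → Fin L, ∑ w' : Fin d → Fin L,
        (F (co w) - F (co (Function.update w k (w' k)))) ^ 2
      ≤ ∑ w : Fin d → Fin L, ∑ _w' : Fin d → Fin L, (L * ∑ q : Fin L, (if (q : ℕ) + 1 < L then
      (F (Function.update (co w) k ((q : ℕ) + 1)) - F (Function.update (co w) k (q : ℕ))) ^ 2
        else 0)) := Finset.sum_le_sum fun w _ => Finset.sum_le_sum fun w' _ => h2 w w'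
    _ = (L : ℝ) ^ d * L * ∑ w : Fin d → Fin L, ∑ q : Fin L, (if (q : ℕ) + 1 < L then
      (F (Function.update (co w) k ((q : ℕ) + 1)) - F (Function.update (co w) k (q : ℕ))) ^ 2
        else 0) := by
        simp only [Finset.sum_const, Finset.card_univ, Fintype.card_fun, Fintype.card_fin,
          nsmul_eq_mul]
        rw [← Finset.mul_sum, ← Finset.mul_sum]
        push_cast
        ring
    _ = (L : ℝ) ^ (d + 2) * enk L F k := by
        rw [sum_line]; ring

/-- pairs of sites of the cube -/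
lemma pairs_le (F : (Fin d → ℕ) → ℝ) :
    ∑ u : Fin d → Fin L, ∑ v : Fin d → Fin L, (F (co u) - F (co v)) ^ 2 ≤
      d * (L : ℝ) ^ (d + 2) * ∑ k, enk L F k := by
  have h1 : ∀ u v : Fin d → Fin L, (F (co u) - F (co v)) ^ 2 ≤
      d * ∑ k : Fin d, (F (co (mix k u v)) - F (co (mix ((k : ℕ) + 1) u v))) ^ 2 := by
    intro u v
    have h : F (co u) - F (co v) =
        ∑ k : Fin d, (F (co (mix k u v)) - F (co (mix ((k : ℕ) + 1) u v))) := by
      rw [Fin.sum_univ_eq_sum_range (fun k => F (co (mix k u v)) - F (co (mix (k + 1) u v))) d,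
        Finset.sum_range_sub', mix_zero, mix_last]
    rw [h]
    have := @sq_sum_le_card_mul_sum_sq (Fin d) ℝ _ _ _ _ Finset.univ
      (fun k : Fin d => F (co (mix k u v)) - F (co (mix ((k : ℕ) + 1) u v)))
    simpa using this
  calc ∑ u : Fin d → Fin L, ∑ v : Fin d → Fin L, (F (co u) - F (co v)) ^ 2
      ≤ ∑ u : Fin d → Fin L, ∑ v : Fin d → Fin L,
        (d * ∑ k : Fin d, (F (co (mix k u v)) - F (co (mix ((k : ℕ) + 1) u v))) ^ 2) :=
        Finset.sum_le_sum fun u _ => Finset.sum_le_sum fun v _ => h1 u v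
    _ = d * ∑ k : Fin d, ∑ u : Fin d → Fin L, ∑ v : Fin d → Fin L,
        (F (co (mix k u v)) - F (co (mix ((k : ℕ) + 1) u v))) ^ 2 := by
        simp only [← Finset.mul_sum]
        rw [Finset.sum_congr rfl fun u _ => Finset.sum_comm, Finset.sum_comm]
    _ ≤ d * ∑ k : Fin d, (L : ℝ) ^ (d + 2) * enk L F k :=
        mul_le_mul_of_nonneg_left (Finset.sum_le_sum fun k _ => step_le F k) (Nat.cast_nonneg d)
    _ = _ := by rw [← Finset.mul_sum]; ring

/-- deviation from the mean by the pairs -/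
lemma mean_le {V : Type*} [Fintype V] (F : V → ℝ) (hV : 0 < Fintype.card V) :
    ∑ u, (F u - (∑ v, F v) / Fintype.card V) ^ 2 ≤
      (∑ u, ∑ v, (F u - F v) ^ 2) / Fintype.card V := by
  have hc : (0 : ℝ) < Fintype.card V := by exact_mod_cast hV
  have hr : (∑ u, ∑ v, (F u - F v) ^ 2) / (Fintype.card V : ℝ) =
      ∑ u, (∑ v, (F u - F v) ^ 2) / (Fintype.card V : ℝ) := Finset.sum_div _ _ _
  rw [hr]
  refine Finset.sum_le_sum fun u _ => ?_
  have e : F u - (∑ v, F v) / Fintype.card V = (∑ v, (F u - F v)) / Fintype.card V := by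
    rw [Finset.sum_sub_distrib, Finset.sum_const, Finset.card_univ, nsmul_eq_mul]
    field_simp
  rw [e, div_pow, div_le_div_iff₀ (by positivity) hc]
  have := @sq_sum_le_card_mul_sum_sq V ℝ _ _ _ _ Finset.univ (fun v => F u - F v)
  rw [Finset.card_univ] at this
  nlinarith only [this, hc]

/-- the Poincaré inequality on the cube -/
theorem cube_poi (F : (Fin d → ℕ) → ℝ) (hL : 0 < L) :
    ∑ u : Fin d → Fin L, (F (co u) - (∑ v : Fin d → Fin L, F (co v)) / (L : ℝ) ^ d) ^ 2 ≤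
      d * (L : ℝ) ^ 2 * ∑ k, enk L F k := by
  have hcard : Fintype.card (Fin d → Fin L) = L ^ d := by simp
  have h := mean_le (fun u : Fin d → Fin L => F (co u)) (by rw [hcard]; positivity)
  rw [hcard] at h
  push_cast at h
  have hLr : (0 : ℝ) < (L : ℝ) ^ d := by positivity
  have h2 := pairs_le (d := d) (L := L) F
  refine h.trans ?_
  rw [div_le_iff₀ hLr]
  calc _ ≤ _ := h2
    _ = _ := by ring

end Pool.Agent.LTG
end -- Pool.Agent.Helper22_LTG.Poi

section -- Pool.Agent.Helper22_LTG.Box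

/-!
# Boxes of the torus: Poincaré inequality and cutoff functions
-/

set_option autoImplicit false
set_option linter.unusedSectionVars false

open scoped BigOperators
open Finset

namespace Pool.Agent.LTG

variable {d M : ℕ} [NeZero M] {L : ℕ}

/-- the site with coordinates `u` seen from `a` -/
def pt (a : Tor d M) (u : Fin d → ℕ) : Tor d M := fun i => a i + (u i : ZMod M)

lemma off_pt (a : Tor d M) (u : Fin d → ℕ) (i : Fin d) (hu : u i < M) :
    off a (pt a u) i = u i := by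
  simp only [off, pt, add_sub_cancel_left]
  rw [ZMod.val_natCast, Nat.mod_eq_of_lt hu]

lemma pt_off (a x : Tor d M) : pt a (off a x) = x := by
  funext i
  simp [off, pt]

lemma off_lt (a x : Tor d M) (i : Fin d) : off a x i < M := ZMod.val_lt _

lemma sum_box (a : Tor d M) (hL : L ≤ M) (φ : Tor d M → ℝ) :
    ∑ x, (if Box a L x then φ x else 0) = ∑ u : Fin d → Fin L, φ (pt a (co u)) := by
  rw [← Finset.sum_filter]
  symm
  refine Finset.sum_bij' (fun u _ => pt a (co u))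
    (fun x hx i => ⟨off a x i, (Finset.mem_filter.mp hx).2 i⟩) ?_ ?_ ?_ ?_ ?_
  · intro u _
    rw [Finset.mem_filter]
    refine ⟨Finset.mem_univ _, fun i => ?_⟩
    rw [off_pt a (co u) i (lt_of_lt_of_le (u i).2 hL)]
    exact (u i).2
  · intro x _
    exact Finset.mem_univ _
  · intro u _
    funext i
    apply Fin.ext
    exact off_pt a (co u) i (lt_of_lt_of_le (u i).2 hL)
  · intro x hx
    exact pt_off a x
  · intro u _
    rfl

lemma pt_add (a : Tor d M) (u : Fin d → ℕ) (k : Fin d) :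
    pt a (u + Pi.single k 1) = pt a u + Pi.single k 1 := by
  funext i
  by_cases h : i = k
  · subst h; simp [pt, add_assoc]
  · simp [pt, Pi.single_eq_of_ne h]

lemma off_single (a x : Tor d M) (k : Fin d) :
    off a (x + Pi.single k 1) k = (off a x k + 1) % M := by
  simp only [off, Pi.add_apply, Pi.single_eq_same]
  have e : x k + 1 - a k = ((x k - a k).val + 1 : ℕ) := by
    push_cast
    rw [ZMod.natCast_val, ZMod.cast_id]
    ring
  rw [e, ZMod.val_natCast]

/-- coordinates of the neighbour in the direction `k` -/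
lemma off_add (a x : Tor d M) (k i : Fin d) : off a (x + Pi.single k 1) i =
    if i = k then (if off a x k + 1 < M then off a x k + 1 else 0) else off a x i := by
  by_cases h : i = k
  · subst h
    rw [if_pos rfl, off_single]
    have hlt : off a x i < M := off_lt a x i
    by_cases h1 : off a x i + 1 < M
    · rw [if_pos h1]
      exact Nat.mod_eq_of_lt h1
    · rw [if_neg h1]
      have : off a x i + 1 = M := by omega
      rw [this, Nat.mod_self]
  · rw [if_neg h]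
    simp [off, Pi.single_eq_of_ne h]

/-- the Poincaré inequality on a box of the torus -/
theorem poi (a : Tor d M) (hL : 0 < L) (hLM : L ≤ M) (h : Tor d M → ℝ) :
    ∃ c : ℝ, ∑ x, (if Box a L x then (h x - c) ^ 2 else 0) ≤
      d * (L : ℝ) ^ 2 * bon sT tT (cutE sT tT (Box a L) (fun _ => 1)) h := by
  refine ⟨(∑ v : Fin d → Fin L, h (pt a (co v))) / (L : ℝ) ^ d, ?_⟩
  rw [sum_box a hLM]
  refine (cube_poi (fun u => h (pt a u)) hL).trans ?_
  have hle : ∑ k, enk L (fun u : Fin d → ℕ => h (pt a u)) k ≤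
      bon sT tT (cutE sT tT (Box a L) (fun _ => 1)) h := by
    unfold bon
    rw [Fintype.sum_prod_type]
    refine Finset.sum_le_sum fun k _ => ?_
    have h1 : enk L (fun u : Fin d → ℕ => h (pt a u)) k = ∑ x, (if Box a L x then
        (if off a x k + 1 < L then (h (x + Pi.single k 1) - h x) ^ 2 else 0) else 0) := by
      rw [sum_box a hLM]
      unfold enk
      refine Finset.sum_congr rfl fun u _ => ?_
      rw [off_pt a (co u) k (lt_of_lt_of_le (u k).2 hLM)]
      simp only [pt_add]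
      rfl
    rw [h1]
    refine Finset.sum_le_sum fun x _ => ?_
    by_cases hb : Box a L x
    · rw [if_pos hb]
      by_cases hk : off a x k + 1 < L
      · rw [if_pos hk]
        have hb2 : Box a L (x + Pi.single k 1) := by
          intro i
          rw [off_add]
          by_cases hi : i = k
          · rw [if_pos hi]
            split
            · exact hk
            · omega
          · rw [if_neg hi]; exact hb i
        have : cutE sT tT (Box a L) (fun _ => 1) (k, x) = 1 := by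
          unfold cutE
          rw [if_pos ⟨hb, hb2⟩]
        rw [this, one_mul]
        exact le_rfl
      · rw [if_neg hk]
        unfold cutE
        split <;> positivity
    · rw [if_neg hb]
      unfold cutE
      split <;> positivity
  gcongr

/-- the profile of the cutoff function in one direction -/
def pro (L R v : ℕ) : ℕ := min R (min v (L - 1 - v))

lemma pro_le (L R v : ℕ) : pro L R v ≤ R := min_le_left _ _

lemma pro_succ (L R v : ℕ) : |(pro L R (v + 1) : ℝ) - pro L R v| ≤ 1 := by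
  have h1 : pro L R (v + 1) ≤ pro L R v + 1 := by unfold pro; omega
  have h2 : pro L R v ≤ pro L R (v + 1) + 1 := by unfold pro; omega
  rw [abs_le]
  constructor
  · have : (pro L R v : ℝ) ≤ pro L R (v + 1) + 1 := by exact_mod_cast h2
    linarith
  · have : (pro L R (v + 1) : ℝ) ≤ pro L R v + 1 := by exact_mod_cast h1
    linarith

/-- the cutoff function -/
noncomputable def chi (a : Tor d M) (L R : ℕ) (x : Tor d M) : ℝ :=
  ∏ i, ((pro L R (off a x i) : ℝ) / R)

lemma chi_fac (L R v : ℕ) : 0 ≤ (pro L R v : ℝ) / R ∧ (pro L R v : ℝ) / R ≤ 1 := by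
  constructor
  · positivity
  · have : (pro L R v : ℝ) ≤ R := by exact_mod_cast pro_le L R v
    exact div_le_one_of_le₀ this (by positivity)

lemma chi_nonneg (a : Tor d M) (L R : ℕ) (x : Tor d M) : 0 ≤ chi a L R x :=
  Finset.prod_nonneg fun _ _ => (chi_fac _ _ _).1

lemma chi_le_one (a : Tor d M) (L R : ℕ) (x : Tor d M) : chi a L R x ≤ 1 :=
  Finset.prod_le_one (fun _ _ => (chi_fac _ _ _).1) (fun _ _ => (chi_fac _ _ _).2)

lemma chi_core (a : Tor d M) {L R : ℕ} (hR : 0 < R) (x : Tor d M) (hx : Core a L R x) :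
    chi a L R x = 1 := by
  unfold chi
  apply Finset.prod_eq_one
  intro i _
  have h1 : pro L R (off a x i) = R := by
    have := hx i
    unfold pro
    omega
  rw [h1]
  have : (R : ℝ) ≠ 0 := by positivity
  field_simp

lemma chi_ne (a : Tor d M) {L R : ℕ} (x : Tor d M) (h : chi a L R x ≠ 0) (i : Fin d) :
    1 ≤ off a x i ∧ off a x i + 1 < L := by
  by_contra hc
  apply h
  unfold chi
  apply Finset.prod_eq_zero (Finset.mem_univ i)
  have : pro L R (off a x i) = 0 := by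
    unfold pro
    omega
  rw [this]
  simp

lemma chi_lip (a : Tor d M) {L R : ℕ} (hLM : L ≤ M) (k : Fin d) (x : Tor d M) :
    |chi a L R (x + Pi.single k 1) - chi a L R x| ≤ 1 / R := by
  unfold chi
  rw [← Finset.mul_prod_erase Finset.univ _ (Finset.mem_univ k),
    ← Finset.mul_prod_erase Finset.univ (fun i => (pro L R (off a x i) : ℝ) / R)
      (Finset.mem_univ k)]
  have h1 : ∏ i ∈ Finset.univ.erase k, ((pro L R (off a (x + Pi.single k 1) i) : ℝ) / R) =
      ∏ i ∈ Finset.univ.erase k, ((pro L R (off a x i) : ℝ) / R) := by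
    refine Finset.prod_congr rfl fun i hi => ?_
    rw [off_add, if_neg (Finset.ne_of_mem_erase hi)]
  rw [h1, ← sub_mul, abs_mul]
  have h2 : |∏ i ∈ Finset.univ.erase k, ((pro L R (off a x i) : ℝ) / R)| ≤ 1 := by
    rw [abs_of_nonneg (Finset.prod_nonneg fun _ _ => (chi_fac _ _ _).1)]
    exact Finset.prod_le_one (fun _ _ => (chi_fac _ _ _).1) (fun _ _ => (chi_fac _ _ _).2)
  have h3 : |(pro L R (off a (x + Pi.single k 1) k) : ℝ) / R - (pro L R (off a x k) : ℝ) / R|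
      ≤ 1 / R := by
    rw [← sub_div, abs_div, Nat.abs_cast]
    gcongr
    rw [off_add, if_pos rfl]
    split
    · exact pro_succ L R _
    · rename_i h4
      have h5 : off a x k < M := off_lt a x k
      have h6 : pro L R (off a x k) = 0 := by unfold pro; omega
      have h7 : pro L R 0 = 0 := by unfold pro; omega
      rw [h6, h7]
      simp
  calc _ ≤ 1 / (R : ℝ) * 1 := by gcongr
    _ = 1 / R := by ring

/-- bonds which are not inside the box do not see the cutoff -/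
lemma chi_out (a : Tor d M) {L R : ℕ} (e : Bd d M)
    (he : ¬ (Box a L (sT e) ∧ Box a L (tT e))) :
    chi a L R (sT e) = 0 ∧ chi a L R (tT e) = 0 := by
  obtain ⟨k, x⟩ := e
  constructor
  · by_contra hc
    apply he
    have h := chi_ne a _ hc
    simp only [sT] at h
    refine ⟨fun i => by have := (h i).2; simp only [sT]; omega, fun i => ?_⟩
    simp only [tT]
    rw [off_add]
    by_cases hi : i = k
    · subst hi
      rw [if_pos rfl]
      have := (h i).2
      split <;> omega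
    · rw [if_neg hi]
      have := (h i).2
      omega
  · by_contra hc
    apply he
    have h := chi_ne a _ hc
    simp only [tT] at h
    refine ⟨fun i => ?_, fun i => by have := (h i).2; simp only [tT]; omega⟩
    simp only [sT]
    have h1 := h i
    rw [off_add] at h1
    by_cases hi : i = k
    · subst hi
      rw [if_pos rfl] at h1
      have h5 : off a x i < M := off_lt a x i
      by_cases h6 : off a x i + 1 < M
      · rw [if_pos h6] at h1; omega
      · rw [if_neg h6] at h1; omega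
    · rw [if_neg hi] at h1
      omega

end Pool.Agent.LTG
end -- Pool.Agent.Helper22_LTG.Box

section -- Pool.Agent.Helper22_LTG.Gen

/-!
# Local to global on a graph: one block, errors, sums, kills
-/

set_option autoImplicit false

open scoped BigOperators
open Finset

namespace Pool.Agent.LTG

variable {X ep : Type*} [Fintype X] [Fintype ep] (s t : ep → X)

lemma mor_add (al al' : X → ℝ) (be be' : ep → ℝ) (f h : X → ℝ) :
    mor s t (fun x => al x + al' x) (fun e => be e + be' e) f h =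
      mor s t al be f h + mor s t al' be' f h := by
  unfold mor bon
  simp only [add_mul, Finset.sum_add_distrib]
  ring

lemma mor_sub (al al' : X → ℝ) (be be' : ep → ℝ) (f h : X → ℝ) :
    mor s t (fun x => al x - al' x) (fun e => be e - be' e) f h =
      mor s t al be f h - mor s t al' be' f h := by
  unfold mor bon
  simp only [sub_mul, Finset.sum_sub_distrib]
  ring

lemma mor_smul (u : ℝ) (al : X → ℝ) (be : ep → ℝ) (f h : X → ℝ) :
    mor s t (fun x => u * al x) (fun e => u * be e) f h = u * mor s t al be f h := by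
  unfold mor bon
  simp only [mul_add, Finset.mul_sum, mul_assoc]

lemma mor_sum {J : Type*} (A : Finset J) (u : J → ℝ) (al : J → X → ℝ) (be : J → ep → ℝ)
    (f h : X → ℝ) :
    mor s t (fun x => ∑ j ∈ A, u j * al j x) (fun e => ∑ j ∈ A, u j * be j e) f h =
      ∑ j ∈ A, u j * mor s t (al j) (be j) f h := by
  unfold mor bon
  have e1 : ∑ x, (∑ j ∈ A, u j * al j x) * (f x - h x) ^ 2 =
      ∑ j ∈ A, u j * ∑ x, al j x * (f x - h x) ^ 2 := by
    simp only [Finset.sum_mul, Finset.mul_sum]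
    rw [Finset.sum_comm]
    refine Finset.sum_congr rfl fun j _ => Finset.sum_congr rfl fun x _ => ?_
    ring
  have e2 : ∑ e, (∑ j ∈ A, u j * be j e) * (h (t e) - h (s e)) ^ 2 =
      ∑ j ∈ A, u j * ∑ e, be j e * (h (t e) - h (s e)) ^ 2 := by
    simp only [Finset.sum_mul, Finset.mul_sum]
    rw [Finset.sum_comm]
    refine Finset.sum_congr rfl fun j _ => Finset.sum_congr rfl fun e _ => ?_
    ring
  rw [e1, e2, ← Finset.sum_add_distrib]
  refine Finset.sum_congr rfl fun j _ => ?_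
  ring

lemma mor_mono {al al' : X → ℝ} {be be' : ep → ℝ} (ha : ∀ x, al x ≤ al' x)
    (hb : ∀ e, be e ≤ be' e) (f h : X → ℝ) : mor s t al be f h ≤ mor s t al' be' f h := by
  unfold mor bon
  refine add_le_add (Finset.sum_le_sum fun x _ => ?_) (Finset.sum_le_sum fun e _ => ?_)
  · exact mul_le_mul_of_nonneg_right (ha x) (sq_nonneg _)
  · exact mul_le_mul_of_nonneg_right (hb e) (sq_nonneg _)

lemma mor_nonneg {al : X → ℝ} {be : ep → ℝ} (ha : ∀ x, 0 ≤ al x) (hb : ∀ e, 0 ≤ be e)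
    (f h : X → ℝ) : 0 ≤ mor s t al be f h := by
  unfold mor bon
  refine add_nonneg (Finset.sum_nonneg fun x _ => ?_) (Finset.sum_nonneg fun e _ => ?_)
  · exact mul_nonneg (ha x) (sq_nonneg _)
  · exact mul_nonneg (hb e) (sq_nonneg _)

/-- weaker weights keep the lower bound -/
lemma lb_mono {Q : (X → ℝ) → ℝ} {al al' : X → ℝ} {be be' : ep → ℝ} (ha : ∀ x, al' x ≤ al x)
    (hb : ∀ e, be' e ≤ be e) (h : LB s t Q al be) : LB s t Q al' be' := by
  intro f
  obtain ⟨h0, h1⟩ := h f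
  exact ⟨h0, (mor_mono s t ha hb f h0).trans h1⟩

/-- stronger weights keep the upper bound -/
lemma ub_mono {Q : (X → ℝ) → ℝ} {al al' : X → ℝ} {be be' : ep → ℝ} (ha : ∀ x, al x ≤ al' x)
    (hb : ∀ e, be e ≤ be' e) (h : UB s t Q al be) : UB s t Q al' be' := fun f g =>
  (h f g).trans (mor_mono s t ha hb f g)

/-- (LER) an error which is controlled by a Moreau expression moves the weights of the lower
bound -/
theorem ler {Q Q' : (X → ℝ) → ℝ} {al al' : X → ℝ} {be be' : ep → ℝ} (h : LB s t Q al be)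
    (hE : ∀ f h, Q f - mor s t al' be' f h ≤ Q' f) :
    LB s t Q' (fun x => al x - al' x) (fun e => be e - be' e) := by
  intro f
  obtain ⟨h0, h1⟩ := h f
  refine ⟨h0, ?_⟩
  rw [mor_sub]
  linarith [hE f h0]

/-- (UER) the same for the upper bound -/
theorem uer {Q Q' : (X → ℝ) → ℝ} {al al' : X → ℝ} {be be' : ep → ℝ} (h : UB s t Q al be)
    (hE : ∀ f h, Q' f ≤ Q f + mor s t al' be' f h) :
    UB s t Q' (fun x => al x + al' x) (fun e => be e + be' e) := by
  intro f h0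
  rw [mor_add]
  linarith [hE f h0, h f h0]

/-- (SUM) many local errors: their sum is a global error -/
theorem sumer {J : Type*} (A : Finset J) (B : J → X → Prop) [∀ j, DecidablePred (B j)]
    (u : J → ℝ) (U : ℝ) {al : X → ℝ} {be : ep → ℝ} (hu : ∀ j ∈ A, 0 ≤ u j)
    (ha : ∀ x, 0 ≤ al x) (hb : ∀ e, 0 ≤ be e)
    (hU : ∀ x, ∑ j ∈ A, (if B j x then u j else 0) ≤ U) (f h : X → ℝ) :
    ∑ j ∈ A, u j * morB s t (B j) al be f h ≤ U * mor s t al be f h := by
  unfold morB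
  rw [← mor_sum, ← mor_smul]
  refine mor_mono s t (fun x => ?_) (fun e => ?_) f h
  · have e1 : ∑ j ∈ A, u j * cutX (B j) al x = (∑ j ∈ A, (if B j x then u j else 0)) * al x := by
      rw [Finset.sum_mul]
      refine Finset.sum_congr rfl fun j _ => ?_
      unfold cutX
      split <;> simp
    rw [e1]
    exact mul_le_mul_of_nonneg_right (hU x) (ha x)
  · have e1 : ∑ j ∈ A, u j * cutE s t (B j) be e ≤
        (∑ j ∈ A, (if B j (s e) then u j else 0)) * be e := by
      rw [Finset.sum_mul]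
      refine Finset.sum_le_sum fun j hj => ?_
      unfold cutE
      by_cases h1 : B j (s e)
      · by_cases h2 : B j (t e)
        · rw [if_pos ⟨h1, h2⟩, if_pos h1]
        · rw [if_neg (fun h => h2 h.2), if_pos h1, mul_zero]
          exact mul_nonneg (hu j hj) (hb e)
      · rw [if_neg (fun h => h1 h.1), if_neg h1, mul_zero, zero_mul]
    exact e1.trans (mul_le_mul_of_nonneg_right (hU (s e)) (hb e))

/-- the part of the Moreau expression in `B` is at most the whole -/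
lemma morB_le (B : X → Prop) [DecidablePred B] {al : X → ℝ} {be : ep → ℝ}
    (ha : ∀ x, 0 ≤ al x) (hb : ∀ e, 0 ≤ be e) (f h : X → ℝ) :
    morB s t B al be f h ≤ mor s t al be f h := by
  unfold morB
  refine mor_mono s t (fun x => ?_) (fun e => ?_) f h
  · unfold cutX; split
    · exact le_rfl
    · exact ha x
  · unfold cutE; split
    · exact le_rfl
    · exact hb e

lemma morB_nonneg (B : X → Prop) [DecidablePred B] {al : X → ℝ} {be : ep → ℝ}
    (ha : ∀ x, 0 ≤ al x) (hb : ∀ e, 0 ≤ be e) (f h : X → ℝ) :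
    0 ≤ morB s t B al be f h := by
  unfold morB
  refine mor_nonneg s t (fun x => ?_) (fun e => ?_) f h
  · unfold cutX; split
    · exact ha x
    · exact le_rfl
  · unfold cutE; split
    · exact hb e
    · exact le_rfl

lemma morB_eq (B : X → Prop) [DecidablePred B] (al : X → ℝ) (be : ep → ℝ) (f h : X → ℝ) :
    morB s t B al be f h = ∑ x, (if B x then al x * (f x - h x) ^ 2 else 0) +
      ∑ e, (if B (s e) ∧ B (t e) then be e * (h (t e) - h (s e)) ^ 2 else 0) := by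
  unfold morB mor bon cutX cutE
  refine congrArg₂ _ (Finset.sum_congr rfl fun x _ => ?_) (Finset.sum_congr rfl fun e _ => ?_)
  · split <;> simp
  · split <;> simp

/-- a set `B` of sites with a Poincaré inequality (constant `P`), and a cutoff function which is
`1` on `B'` and lives strictly inside `B` (squares of its increments at most `l`) -/
structure Cut (B' B : X → Prop) [DecidablePred B] (P l dg : ℝ) : Prop where
  poi : ∀ h : X → ℝ, ∃ c : ℝ, ∑ x, (if B x then (h x - c) ^ 2 else 0) ≤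
    P * ∑ e, (if B (s e) ∧ B (t e) then (h (t e) - h (s e)) ^ 2 else 0)
  cut : ∃ χ : X → ℝ, (∀ x, 0 ≤ χ x ∧ χ x ≤ 1) ∧ (∀ x, B' x → χ x = 1) ∧
    (∀ x, ¬ B x → χ x = 0) ∧ (∀ e, (χ (t e) - χ (s e)) ^ 2 ≤ l) ∧
    (∀ e, ¬ (B (s e) ∧ B (t e)) → χ (s e) = 0 ∧ χ (t e) = 0)
  deg : ∀ φ : X → ℝ, (∀ x, 0 ≤ φ x) →
    ∑ e, (if B (s e) ∧ B (t e) then φ (s e) else 0) ≤ dg * ∑ x, (if B x then φ x else 0)

/-- (LTG) local to global for one block. `D` sees `f` only in `B'` and does not see constants,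
`|D| ≤ n Q1` on the functions which vanish outside `B`, `Q1` is bounded above by the Moreau form: then `D` is bounded by
`C n` times the part of the Moreau expression in `B`, for every `f` and every `h`. -/
theorem ltg {B' B : X → Prop} [DecidablePred B] {P l dg : ℝ} (hc : Cut s t B' B P l dg)
    (hP : 0 ≤ P) (hl : 0 ≤ l) (hdg : 0 ≤ dg) {al : X → ℝ} {be : ep → ℝ} {b0 b1 : ℝ}
    (hb0 : 0 < b0) (hb1 : 0 ≤ b1) (ha : ∀ x, 0 ≤ al x)
    (hbe : ∀ e, B (s e) ∧ B (t e) → b0 ≤ be e ∧ be e ≤ b1)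
    {Q1 D : (X → ℝ) → ℝ} (hU : UB s t Q1 al be) {n : ℝ} (hn : 0 ≤ n)
    (hD : ∀ f : X → ℝ, (∀ x, ¬ B x → f x = 0) → |D f| ≤ n * Q1 f)
    (hloc : ∀ f g : X → ℝ, ∀ c : ℝ, (∀ x, B' x → f x - g x = c) → D f = D g) (f h : X → ℝ) :
    |D f| ≤ n * (2 + 2 * l * dg * P * (b1 / b0)) * morB s t B al be f h := by
  obtain ⟨χ, h01, h1, h0, hlip, hout⟩ := hc.cut
  obtain ⟨c, hpc⟩ := hc.poi h
  set g : X → ℝ := fun x => χ x * (f x - c) with hg
  set k : X → ℝ := fun x => χ x * (h x - c) with hk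
  have hDg : D f = D g := by
    apply hloc f g c
    intro x hx
    rw [hg]
    simp only [h1 x hx]
    ring
  rw [hDg]
  set K : ℝ := 2 + 2 * l * dg * P * (b1 / b0) with hK
  -- nodes
  have hnod : ∑ x, al x * (g x - k x) ^ 2 ≤ ∑ x, (if B x then al x * (f x - h x) ^ 2 else 0) := by
    refine Finset.sum_le_sum fun x _ => ?_
    have e1 : (g x - k x) ^ 2 = χ x ^ 2 * (f x - h x) ^ 2 := by rw [hg, hk]; ring
    rw [e1]
    by_cases hx : B x
    · rw [if_pos hx]
      have : χ x ^ 2 ≤ 1 := by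
        have := h01 x
        nlinarith only [this]
      have h2 : χ x ^ 2 * (f x - h x) ^ 2 ≤ 1 * (f x - h x) ^ 2 :=
        mul_le_mul_of_nonneg_right this (sq_nonneg _)
      rw [one_mul] at h2
      exact mul_le_mul_of_nonneg_left h2 (ha x)
    · rw [if_neg hx, h0 x hx]
      simp
  -- bonds
  set G : ℝ := ∑ e, (if B (s e) ∧ B (t e) then (h (t e) - h (s e)) ^ 2 else 0) with hG
  set GB : ℝ := ∑ e, (if B (s e) ∧ B (t e) then be e * (h (t e) - h (s e)) ^ 2 else 0) with hGB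
  have hGG : b0 * G ≤ GB := by
    rw [hG, hGB, Finset.mul_sum]
    refine Finset.sum_le_sum fun e _ => ?_
    split
    · rename_i he
      exact mul_le_mul_of_nonneg_right (hbe e he).1 (sq_nonneg _)
    · simp
  have hG0 : 0 ≤ G := Finset.sum_nonneg fun e _ => by split <;> positivity
  have hbon : ∑ e, be e * (k (t e) - k (s e)) ^ 2 ≤ K * GB := by
    have hpt : ∀ e, be e * (k (t e) - k (s e)) ^ 2 ≤
        2 * (if B (s e) ∧ B (t e) then be e * (h (t e) - h (s e)) ^ 2 else 0) +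
        2 * b1 * l * (if B (s e) ∧ B (t e) then (h (s e) - c) ^ 2 else 0) := by
      intro e
      by_cases he : B (s e) ∧ B (t e)
      · rw [if_pos he, if_pos he]
        have hb := hbe e he
        have hb' : 0 ≤ be e := hb0.le.trans hb.1
        have e1 : k (t e) - k (s e) = χ (t e) * (h (t e) - h (s e)) +
            (χ (t e) - χ (s e)) * (h (s e) - c) := by rw [hk]; ring
        have e2 : (k (t e) - k (s e)) ^ 2 ≤ 2 * (h (t e) - h (s e)) ^ 2 +
            2 * (l * (h (s e) - c) ^ 2) := by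
          rw [e1]
          have i1 : (χ (t e) * (h (t e) - h (s e)) + (χ (t e) - χ (s e)) * (h (s e) - c)) ^ 2 ≤
              2 * (χ (t e) * (h (t e) - h (s e))) ^ 2 +
              2 * ((χ (t e) - χ (s e)) * (h (s e) - c)) ^ 2 := by
            nlinarith only [sq_nonneg (χ (t e) * (h (t e) - h (s e)) -
              (χ (t e) - χ (s e)) * (h (s e) - c))]
          have i2 : (χ (t e) * (h (t e) - h (s e))) ^ 2 ≤ (h (t e) - h (s e)) ^ 2 := by
            rw [mul_pow]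
            have : χ (t e) ^ 2 ≤ 1 := by
              have := h01 (t e)
              nlinarith only [this]
            nlinarith only [sq_nonneg (h (t e) - h (s e)), this]
          have i3 : ((χ (t e) - χ (s e)) * (h (s e) - c)) ^ 2 ≤ l * (h (s e) - c) ^ 2 := by
            rw [mul_pow]
            exact mul_le_mul_of_nonneg_right (hlip e) (sq_nonneg _)
          linarith only [i1, i2, i3]
        have e3 : be e * (k (t e) - k (s e)) ^ 2 ≤ be e * (2 * (h (t e) - h (s e)) ^ 2 +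
            2 * (l * (h (s e) - c) ^ 2)) := mul_le_mul_of_nonneg_left e2 hb'
        have e4 : be e * (l * (h (s e) - c) ^ 2) ≤ b1 * (l * (h (s e) - c) ^ 2) :=
          mul_le_mul_of_nonneg_right hb.2 (by positivity)
        nlinarith only [e3, e4]
      · rw [if_neg he, if_neg he]
        have := hout e he
        rw [hk]
        simp only [this.1, this.2]
        simp
    have hs : ∑ e, be e * (k (t e) - k (s e)) ^ 2 ≤ 2 * GB + 2 * b1 * l *
        ∑ e, (if B (s e) ∧ B (t e) then (h (s e) - c) ^ 2 else 0) := by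
      refine (Finset.sum_le_sum fun e _ => hpt e).trans (le_of_eq ?_)
      rw [Finset.sum_add_distrib, ← Finset.mul_sum, ← Finset.mul_sum]
    have h3 : ∑ e, (if B (s e) ∧ B (t e) then (h (s e) - c) ^ 2 else 0) ≤ dg * (P * G) :=
        (hc.deg (fun x => (h x - c) ^ 2) (fun x => sq_nonneg _)).trans
          (mul_le_mul_of_nonneg_left hpc hdg)
    have h4 : G ≤ GB / b0 := by
      rw [le_div_iff₀ hb0]
      linarith only [hGG]
    have h5 : ∑ e, (if B (s e) ∧ B (t e) then (h (s e) - c) ^ 2 else 0) ≤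
        dg * (P * (GB / b0)) := h3.trans (by gcongr)
    calc ∑ e, be e * (k (t e) - k (s e)) ^ 2 ≤ 2 * GB + 2 * b1 * l *
        ∑ e, (if B (s e) ∧ B (t e) then (h (s e) - c) ^ 2 else 0) := hs
      _ ≤ 2 * GB + 2 * b1 * l * (dg * (P * (GB / b0))) := by gcongr
      _ = K * GB := by rw [hK]; ring
  have hK2 : 1 ≤ K := by
    have : 0 ≤ 2 * l * dg * P * (b1 / b0) := by positivity
    rw [hK]
    linarith only [this]
  have hGB0 : 0 ≤ GB := le_trans (by positivity) hGG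
  have hN0 : 0 ≤ ∑ x, (if B x then al x * (f x - h x) ^ 2 else 0) :=
    Finset.sum_nonneg fun x _ => by
      split
      · exact mul_nonneg (ha x) (sq_nonneg _)
      · exact le_rfl
  have hm : mor s t al be g k ≤ K * morB s t B al be f h := by
    rw [morB_eq, mul_add]
    unfold mor bon
    refine add_le_add (hnod.trans ?_) hbon
    nlinarith only [hK2, hN0]
  have hg0 : ∀ x, ¬ B x → g x = 0 := by
    intro x hx
    rw [hg]
    simp only [h0 x hx, zero_mul]
  calc |D g| ≤ n * Q1 g := hD g hg0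
    _ ≤ n * (K * morB s t B al be f h) := mul_le_mul_of_nonneg_left ((hU g k).trans hm) hn
    _ = n * K * morB s t B al be f h := by ring

/-- (LTG, whole space) the trivial case -/
theorem ltg_all {al : X → ℝ} {be : ep → ℝ} {Q1 D : (X → ℝ) → ℝ} (hU : UB s t Q1 al be) {n : ℝ}
    (hn : 0 ≤ n) (hD : ∀ f, |D f| ≤ n * Q1 f) (f h : X → ℝ) :
    |D f| ≤ n * mor s t al be f h :=
  (hD f).trans (mul_le_mul_of_nonneg_left (hU f h) hn)

end Pool.Agent.LTG
end -- Pool.Agent.Helper22_LTG.Gen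

section -- Pool.Agent.Helper22_LTG.Tor

/-!
# Local to global on the torus
-/

set_option autoImplicit false

open scoped BigOperators
open Finset

namespace Pool.Agent.LTG

variable {d M : ℕ} [NeZero M] {L R : ℕ}

/-- a box of the torus has all the data of `Cut` -/
theorem torCut (a : Tor d M) (hL : 0 < L) (hLM : L ≤ M) (hR : 0 < R) :
    Cut (X := Tor d M) (ep := Bd d M) sT tT (Core a L R) (Box a L) (d * (L : ℝ) ^ 2)
      (1 / (R : ℝ) ^ 2) d where
  poi := by
    intro h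
    obtain ⟨c, hc⟩ := poi a hL hLM h
    refine ⟨c, hc.trans (le_of_eq ?_)⟩
    congr 1
    unfold bon cutE
    refine Finset.sum_congr rfl fun e _ => ?_
    split <;> simp
  cut := by
    refine ⟨chi a L R, fun x => ⟨chi_nonneg a L R x, chi_le_one a L R x⟩,
      fun x hx => chi_core a hR x hx, fun x hx => ?_, fun e => ?_, fun e he => chi_out a e he⟩
    · by_contra hc
      exact hx fun i => by have := (chi_ne a x hc i).2; omega
    · have h := chi_lip a hLM (R := R) e.1 e.2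
      have h2 : (chi a L R (tT e) - chi a L R (sT e)) ^ 2 ≤ (1 / (R : ℝ)) ^ 2 := by
        rw [← sq_abs]
        exact pow_le_pow_left₀ (abs_nonneg _) h 2
      refine h2.trans (le_of_eq ?_)
      rw [div_pow, one_pow]
  deg := by
    intro φ hφ
    rw [Fintype.sum_prod_type]
    have : ∀ k : Fin d, ∑ x : Tor d M, (if Box a L (sT (k, x)) ∧ Box a L (tT (k, x)) then
        φ (sT (k, x)) else 0) ≤ ∑ x, (if Box a L x then φ x else 0) := by
      intro k
      refine Finset.sum_le_sum fun x _ => ?_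
      simp only [sT]
      by_cases hx : Box a L x
      · rw [if_pos hx]
        split
        · exact le_rfl
        · exact hφ x
      · rw [if_neg hx, if_neg (fun h => hx h.1)]
    refine (Finset.sum_le_sum fun k _ => this k).trans (le_of_eq ?_)
    rw [Finset.sum_const, Finset.card_univ, Fintype.card_fin, nsmul_eq_mul]

/-- (LTGT) local to global for one block of the torus -/
theorem ltgT (a : Tor d M) (hL : 0 < L) (hLM : L ≤ M) (hR : 0 < R) {al : Tor d M → ℝ}
    {be : Bd d M → ℝ} {b0 b1 : ℝ} (hb0 : 0 < b0) (hb1 : 0 ≤ b1) (ha : ∀ x, 0 ≤ al x)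
    (hbe : ∀ e, Box a L (sT e) ∧ Box a L (tT e) → b0 ≤ be e ∧ be e ≤ b1)
    {Q1 D : (Tor d M → ℝ) → ℝ} (hU : UB sT tT Q1 al be) {n : ℝ} (hn : 0 ≤ n)
    (hD : ∀ f : Tor d M → ℝ, (∀ x, ¬ Box a L x → f x = 0) → |D f| ≤ n * Q1 f)
    (hloc : ∀ f g : Tor d M → ℝ, ∀ c : ℝ, (∀ x, Core a L R x → f x - g x = c) → D f = D g)
    (f h : Tor d M → ℝ) :
    |D f| ≤ n * (2 + 2 * (d : ℝ) ^ 2 * ((L : ℝ) / R) ^ 2 * (b1 / b0)) *
      morB sT tT (Box a L) al be f h := by
  have h1 := ltg sT tT (torCut a hL hLM hR) (by positivity) (by positivity) (by positivity)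
    hb0 hb1 ha hbe hU hn hD hloc f h
  refine h1.trans (le_of_eq ?_)
  rw [div_pow]
  ring

/-- the box with side `M` is the whole torus -/
lemma box_all (a x : Tor d M) : Box a M x := fun i => off_lt a x i

/-- (LTGT, whole torus) for blocks which do not fit in a box smaller than the torus -/
theorem ltgT_all (a : Tor d M) {al : Tor d M → ℝ} {be : Bd d M → ℝ}
    {Q1 D : (Tor d M → ℝ) → ℝ} (hU : UB sT tT Q1 al be) {n : ℝ} (hn : 0 ≤ n)
    (hD : ∀ f, |D f| ≤ n * Q1 f) (f h : Tor d M → ℝ) :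
    |D f| ≤ n * morB sT tT (Box a M) al be f h := by
  have e : morB sT tT (Box a M) al be f h = mor sT tT al be f h := by
    unfold morB
    have e1 : cutX (Box a M) al = al := by
      funext x
      unfold cutX
      rw [if_pos (box_all a x)]
    have e2 : cutE sT tT (Box a M) be = be := by
      funext x
      unfold cutE
      rw [if_pos ⟨box_all a _, box_all a _⟩]
    rw [e1, e2]
  rw [e]
  exact ltg_all sT tT hU hn hD f h

end Pool.Agent.LTG
end -- Pool.Agent.Helper22_LTG.Tor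

section -- Pool.Agent.Helper22_LTG.Fbk

/-!
# One block update in normal form

`Fm s t A w εl εu bl bu Q`: the form `Q` lies between the Moreau forms with the node weights
`w / (1 + εl)`, `w / (1 - εu)` on the nodes `A` (`0` off `A`) and the bond weights `bl`, `bu`.
Only `εl` has to be small (at most `1/4`); `1 / (1 - εu)` may be a large constant `cu`, and `bu / bl`
may be large.
-/

set_option autoImplicit false

open scoped BigOperators
open Finset

noncomputable section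

namespace Pool.Agent.LTG

section graph

variable {X ep : Type*} [Fintype X] [DecidableEq X] [Fintype ep]

/-- lower weights -/
def wl (A : Finset X) (w ε : X → ℝ) (x : X) : ℝ := if x ∈ A then w x / (1 + ε x) else 0

/-- upper weights -/
def wu (A : Finset X) (w ε : X → ℝ) (x : X) : ℝ := if x ∈ A then w x / (1 - ε x) else 0

/-- the two sided comparison in normal form -/
structure Fm (s t : ep → X) (A : Finset X) (w εl εu : X → ℝ) (bl bu : ep → ℝ)
    (Q : (X → ℝ) → ℝ) : Prop where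
  lb : LB s t Q (wl A w εl) bl
  ub : UB s t Q (wu A w εu) bu

lemma Fm.mono {s t : ep → X} {A : Finset X} {w εl εu εl' εu' : X → ℝ} {bl bu bl' bu' : ep → ℝ}
    {Q : (X → ℝ) → ℝ} (h : Fm s t A w εl εu bl bu Q) (hw : ∀ x ∈ A, 0 ≤ w x)
    (h0 : ∀ x ∈ A, 0 ≤ εl x) (hel : ∀ x ∈ A, εl x ≤ εl' x) (heu : ∀ x ∈ A, εu x ≤ εu' x)
    (h1 : ∀ x ∈ A, εu' x < 1)
    (hl : ∀ e, bl' e ≤ bl e) (hu : ∀ e, bu e ≤ bu' e) : Fm s t A w εl' εu' bl' bu' Q := by
  refine ⟨lb_mono s t (fun x => ?_) hl h.lb, ub_mono s t (fun x => ?_) hu h.ub⟩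
  · unfold wl
    split
    · rename_i hx
      have := h0 x hx
      have := hel x hx
      have := hw x hx
      gcongr
    · exact le_rfl
  · unfold wu
    split
    · rename_i hx
      have := heu x hx
      have := h1 x hx
      have := hw x hx
      have h2 : 0 < 1 - εu' x := by linarith
      exact div_le_div_of_nonneg_left this h2 (by linarith)
    · exact le_rfl

/-- the ladder in normal form: `ε` contracts with the factor `w' / w` -/
theorem fm_lad {s t : ep → X} {A : Finset X} {w w' εl εu τ : X → ℝ} {bl bu : ep → ℝ}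
    {E E1 : Matrix X X ℝ} (h : Fm s t A w εl εu bl bu (qd E)) (hL : Lad E E1 τ)
    (hw : ∀ x ∈ A, 0 < w x) (hw' : ∀ x ∈ A, 0 < w' x)
    (h0 : ∀ x ∈ A, 0 ≤ εl x) (h1 : ∀ x ∈ A, εu x < 1)
    (hτ : ∀ x ∈ A, τ x = 1 / w' x - 1 / w x) :
    Fm s t A w' (fun x => εl x * (w' x / w x)) (fun x => εu x * (w' x / w x)) bl bu
      (qd E1) := by
  have e1 : ∀ x, wl A w εl x / (1 + wl A w εl x * τ x) =
      wl A w' (fun x => εl x * (w' x / w x)) x := by
    intro x
    unfold wl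
    by_cases hx : x ∈ A
    · rw [if_pos hx, if_pos hx, hτ x hx]
      exact lad_weight (hw x hx) (hw' x hx) (by linarith [h0 x hx])
    · rw [if_neg hx, if_neg hx]
      simp
  have e2 : ∀ x, wu A w εu x / (1 + wu A w εu x * τ x) =
      wu A w' (fun x => εu x * (w' x / w x)) x := by
    intro x
    unfold wu
    by_cases hx : x ∈ A
    · rw [if_pos hx, if_pos hx, hτ x hx]
      have := lad_weight (ε := -εu x) (hw x hx) (hw' x hx) (by linarith [h1 x hx])
      rw [show 1 + -εu x = 1 - εu x by ring] at this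
      rw [this]
      congr 1
      ring
    · rw [if_neg hx, if_neg hx]
      simp
  constructor
  · have := lad_lb hL s t (al := wl A w εl) (be := bl) (fun x => by
      unfold wl
      split
      · rename_i hx
        have := hw x hx
        have := h0 x hx
        positivity
      · exact le_rfl) h.lb
    simpa only [e1] using this
  · have := lad_ub hL s t (al := wu A w εu) (be := bu) (fun x => by
      unfold wu
      split
      · rename_i hx
        have := hw x hx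
        have := h1 x hx
        have : 0 < 1 - εu x := by linarith
        positivity
      · exact le_rfl) h.ub
    simpa only [e2] using this

/-- the error in normal form -/
theorem fm_err {s t : ep → X} {A : Finset X} {w εl εu v : X → ℝ} {bl bu dl : ep → ℝ}
    {Q Q' : (X → ℝ) → ℝ} (h : Fm s t A w εl εu bl bu Q)
    (hw : ∀ x ∈ A, 0 ≤ w x) (h0 : ∀ x ∈ A, 0 ≤ εl x) (h1 : ∀ x ∈ A, εl x ≤ 1 / 4)
    (h0u : ∀ x ∈ A, 0 ≤ εu x) (h1u : ∀ x ∈ A, εu x + 4 * v x < 1)
    (hv0 : ∀ x ∈ A, 0 ≤ v x) (hv : ∀ x ∈ A, v x ≤ 1 / 16)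
    (hE : ∀ f g, |Q' f - Q f| ≤ mor s t (fun x => if x ∈ A then v x * w x else 0) dl f g) :
    Fm s t A w (fun x => εl x + 4 * v x) (fun x => εu x + 4 * v x) (fun e => bl e - dl e)
      (fun e => bu e + dl e) Q' := by
  constructor
  · have := ler s t h.lb (Q' := Q') (al' := fun x => if x ∈ A then v x * w x else 0) (be' := dl)
      (fun f g => by linarith [abs_le.1 (hE f g)])
    refine lb_mono s t (fun x => ?_) (fun e => le_rfl) this
    unfold wl
    by_cases hx : x ∈ A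
    · rw [if_pos hx, if_pos hx, if_pos hx]
      have a1 := hw x hx
      have a2 := h0 x hx
      have a3 := h1 x hx
      have a4 := hv0 x hx
      have a5 := hv x hx
      have p1 : 0 < 1 + εl x := by linarith only [a2]
      have p2 : 0 < 1 + (εl x + 4 * v x) := by linarith only [a2, a4]
      have key : 1 / (1 + (εl x + 4 * v x)) ≤ 1 / (1 + εl x) - v x := by
        have e1 : 1 / (1 + εl x) - v x - 1 / (1 + (εl x + 4 * v x)) =
            v x * (4 - (1 + εl x) * (1 + (εl x + 4 * v x))) /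
              ((1 + εl x) * (1 + (εl x + 4 * v x))) := by
          field_simp
          ring
        have e2 : 0 ≤ v x * (4 - (1 + εl x) * (1 + (εl x + 4 * v x))) /
              ((1 + εl x) * (1 + (εl x + 4 * v x))) := by
          apply div_nonneg _ (by positivity)
          apply mul_nonneg a4
          nlinarith only [a2, a3, a5]
        linarith only [e1, e2]
      calc w x / (1 + (εl x + 4 * v x)) = w x * (1 / (1 + (εl x + 4 * v x))) := by ring
        _ ≤ w x * (1 / (1 + εl x) - v x) := mul_le_mul_of_nonneg_left key a1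
        _ = w x / (1 + εl x) - v x * w x := by ring
    · rw [if_neg hx, if_neg hx, if_neg hx]
      simp
  · have := uer s t h.ub (Q' := Q') (al' := fun x => if x ∈ A then v x * w x else 0) (be' := dl)
      (fun f g => by linarith [abs_le.1 (hE f g)])
    refine ub_mono s t (fun x => ?_) (fun e => le_rfl) this
    unfold wu
    by_cases hx : x ∈ A
    · rw [if_pos hx, if_pos hx, if_pos hx]
      have a1 := hw x hx
      have a2 := h0u x hx
      have a3 := h1u x hx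
      have a4 := hv0 x hx
      have p2 : 0 < 1 - (εu x + 4 * v x) := by linarith
      have p1 : 0 < 1 - εu x := by linarith
      have key : 1 / (1 - εu x) + v x ≤ 1 / (1 - (εu x + 4 * v x)) := by
        have e1 : 1 / (1 - (εu x + 4 * v x)) - (1 / (1 - εu x) + v x) =
            v x * (4 - (1 - εu x) * (1 - (εu x + 4 * v x))) /
              ((1 - εu x) * (1 - (εu x + 4 * v x))) := by
          field_simp
          ring
        have e2 : 0 ≤ v x * (4 - (1 - εu x) * (1 - (εu x + 4 * v x))) /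
              ((1 - εu x) * (1 - (εu x + 4 * v x))) := by
          apply div_nonneg _ (by positivity)
          apply mul_nonneg a4
          nlinarith only [a2, a3, a4]
        linarith
      calc w x / (1 - εu x) + v x * w x = w x * (1 / (1 - εu x) + v x) := by ring
        _ ≤ w x * (1 / (1 - (εu x + 4 * v x))) := mul_le_mul_of_nonneg_left key a1
        _ = w x / (1 - (εu x + 4 * v x)) := by ring
    · rw [if_neg hx, if_neg hx, if_neg hx]
      simp

/-- (ERR, graph) the error of one block: it is `n` times the ladder form, and local up to a tail.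
`K` is the constant of local to global for the set `B`. -/
theorem errG {s t : ep → X} {A : Finset X} {B : X → Prop} [DecidablePred B]
    {w w' εl εu τ ta : X → ℝ} {bl bu tb : ep → ℝ} {b0 b1 n m K u cu : ℝ} {E E1 : Matrix X X ℝ}
    {Q' D tl : (X → ℝ) → ℝ} (h : Fm s t A w εl εu bl bu (qd E)) (hL : Lad E E1 τ)
    (hw : ∀ x ∈ A, 0 < w x) (hw' : ∀ x ∈ A, 0 < w' x ∧ w' x ≤ w x)
    (h0 : ∀ x ∈ A, 0 ≤ εl x) (h1 : ∀ x ∈ A, εl x ≤ 1 / 4)
    (h0u : ∀ x ∈ A, 0 ≤ εu x) (h1u : ∀ x ∈ A, 1 ≤ cu * (1 - εu x)) (hcu : 0 < cu)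
    (hτ : ∀ x ∈ A, τ x = 1 / w' x - 1 / w x)
    (hb0 : 0 < b0) (hbl : ∀ e, b0 ≤ bl e) (hbu : ∀ e, 0 ≤ bu e) (hbu1 : ∀ e, bu e ≤ b1)
    (hn : 0 ≤ n) (hm : 0 ≤ m) (hK : 0 ≤ K)
    (hE : ∀ f : X → ℝ, (∀ x, ¬ B x → f x = 0) → |Q' f - qd E1 f| ≤ n * qd E1 f)
    (hdec : ∀ f, Q' f - qd E1 f = D f + tl f)
    (hta : ∀ x ∈ A, 0 ≤ ta x ∧ ta x ≤ m) (htb : ∀ e, 0 ≤ tb e ∧ tb e ≤ m * b0)
    (htl : ∀ f g, |tl f| ≤ mor s t (fun x => if x ∈ A then ta x * w' x else 0) tb f g)
    (hltg : UB s t (qd E1) (wu A w' (fun x => εu x * (w' x / w x))) bu →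
      (∀ f : X → ℝ, (∀ x, ¬ B x → f x = 0) → |D f| ≤ (n + 2 * m) * qd E1 f) → ∀ f g,
        |D f| ≤ (n + 2 * m) * K * morB s t B (wu A w' (fun x => εu x * (w' x / w x))) bu f g)
    (hu : K * (n + 2 * m) * cu ≤ u) (hu2 : K * (n + 2 * m) ≤ u) (f g : X → ℝ) :
    |Q' f - qd E1 f| ≤ mor s t
      (fun x => if x ∈ A then ((if B x then u else 0) + ta x) * w' x else 0)
      (fun e => (if B (s e) ∧ B (t e) then u * b1 else 0) + tb e) f g := by
  have hlt : ∀ x ∈ A, εu x < 1 := by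
    intro x hx
    by_contra hc
    have : cu * (1 - εu x) ≤ 0 := mul_nonpos_of_nonneg_of_nonpos hcu.le (by linarith)
    linarith [h1u x hx]
  have hF1 := fm_lad h hL hw (fun x hx => (hw' x hx).1) h0 hlt hτ
  set ε1 : X → ℝ := fun x => εl x * (w' x / w x) with hε1
  set ε2 : X → ℝ := fun x => εu x * (w' x / w x) with hε2
  have hr : ∀ x ∈ A, 0 ≤ w' x / w x ∧ w' x / w x ≤ 1 := fun x hx =>
    ⟨div_nonneg (hw' x hx).1.le (hw x hx).le, (div_le_one (hw x hx)).2 (hw' x hx).2⟩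
  have h01 : ∀ x ∈ A, 0 ≤ ε1 x := fun x hx => mul_nonneg (h0 x hx) (hr x hx).1
  have h11 : ∀ x ∈ A, ε1 x ≤ 1 / 4 := fun x hx =>
    (mul_le_of_le_one_right (h0 x hx) (hr x hx).2).trans (h1 x hx)
  have h02 : ∀ x ∈ A, 0 ≤ ε2 x := fun x hx => mul_nonneg (h0u x hx) (hr x hx).1
  have h12 : ∀ x ∈ A, ε2 x ≤ εu x := fun x hx =>
    mul_le_of_le_one_right (h0u x hx) (hr x hx).2
  have hnm : 0 ≤ n + 2 * m := by linarith only [hn, hm]
  have hu0 : 0 ≤ u := le_trans (by positivity) hu2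
  have hQ0 : ∀ f, 0 ≤ qd E1 f := fun f => lad_nonneg hL f
  -- the tail relative to the ladder form
  have htl1 : ∀ f, |tl f| ≤ 2 * m * qd E1 f := by
    intro f
    obtain ⟨g, hg⟩ := hF1.lb f
    refine (htl f g).trans ?_
    have i1 : mor s t (fun x => if x ∈ A then ta x * w' x else 0) tb f g ≤
        mor s t (fun x => (2 * m) * wl A w' ε1 x) (fun e => (2 * m) * bl e) f g := by
      refine mor_mono s t (fun x => ?_) (fun e => ?_) f g
      · unfold wl
        by_cases hx : x ∈ A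
        · rw [if_pos hx, if_pos hx]
          have a1 := (hw' x hx).1
          have a2 := h01 x hx
          have a3 := h11 x hx
          have a4 := hta x hx
          have p1 : 0 < 1 + ε1 x := by linarith only [a2]
          have i2 : w' x / 2 ≤ w' x / (1 + ε1 x) := by
            apply div_le_div_of_nonneg_left a1.le p1
            linarith only [a3]
          calc ta x * w' x ≤ m * w' x := by gcongr; exact a4.2
            _ = (2 * m) * (w' x / 2) := by ring
            _ ≤ (2 * m) * (w' x / (1 + ε1 x)) := by gcongr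
        · rw [if_neg hx, if_neg hx, mul_zero]
      · have a1 := htb e
        have a2 := hbl e
        calc tb e ≤ m * b0 := a1.2
          _ ≤ m * bl e := by gcongr
          _ ≤ 2 * m * bl e := by
              have : 0 ≤ m * bl e := mul_nonneg hm (by linarith)
              linarith
    refine i1.trans ?_
    rw [mor_smul]
    gcongr
  have hD1 : ∀ f : X → ℝ, (∀ x, ¬ B x → f x = 0) → |D f| ≤ (n + 2 * m) * qd E1 f := by
    intro f hf0
    have e1 : D f = (Q' f - qd E1 f) - tl f := by rw [hdec f]; ring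
    calc |D f| = |(Q' f - qd E1 f) - tl f| := by rw [e1]
      _ ≤ |Q' f - qd E1 f| + |tl f| := abs_sub _ _
      _ ≤ n * qd E1 f + 2 * m * qd E1 f := add_le_add (hE f hf0) (htl1 f)
      _ = (n + 2 * m) * qd E1 f := by ring
  have hD2 := hltg hF1.ub hD1
  have i0 : |Q' f - qd E1 f| ≤ |D f| + |tl f| := by
    rw [hdec f]
    exact abs_add_le _ _
  have i1 := hD2 f g
  have i2 := htl f g
  rw [mul_comm (n + 2 * m) K] at i1
  unfold morB at i1
  rw [← mor_smul] at i1
  have i3 := add_le_add i1 i2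
  rw [← mor_add] at i3
  refine (i0.trans i3).trans (mor_mono s t (fun x => ?_) (fun e => ?_) f g)
  · unfold cutX wu
    by_cases hx : x ∈ A
    · rw [if_pos hx, if_pos hx, if_pos hx]
      have a1 := (hw' x hx).1
      have a2 := h02 x hx
      have a3 := h12 x hx
      have a4 := h1u x hx
      have a5 := hlt x hx
      by_cases hB : B x
      · rw [if_pos hB, if_pos hB, add_mul]
        have p1 : 0 < 1 - ε2 x := by linarith only [a3, a5]
        have i4 : w' x / (1 - ε2 x) ≤ cu * w' x := by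
          rw [div_le_iff₀ p1]
          have i6 : 1 ≤ cu * (1 - ε2 x) := by
            have : cu * (1 - εu x) ≤ cu * (1 - ε2 x) := by gcongr
            linarith only [a4, this]
          nlinarith only [a1, i6]
        have i5 : K * (n + 2 * m) * (w' x / (1 - ε2 x)) ≤ u * w' x := by
          calc K * (n + 2 * m) * (w' x / (1 - ε2 x)) ≤ K * (n + 2 * m) * (cu * w' x) := by
                gcongr
            _ = K * (n + 2 * m) * cu * w' x := by ring
            _ ≤ u * w' x := by gcongr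
        linarith only [i5]
      · rw [if_neg hB, if_neg hB]
        simp
    · rw [if_neg hx, if_neg hx, if_neg hx]
      simp
  · unfold cutE
    split
    · have a1 := hbu e
      have a2 := hbu1 e
      have : K * (n + 2 * m) * bu e ≤ u * b1 := by gcongr
      linarith only [this]
    · simp

/-- (FBK, graph) one block: ladder, then an error which is `n` times the ladder form, local up to
a tail. `K` is the constant of local to global for the set `B`. -/
theorem fbkG {s t : ep → X} {A : Finset X} {B : X → Prop} [DecidablePred B]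
    {w w' εl εu τ ta : X → ℝ} {bl bu tb : ep → ℝ} {b0 b1 n m K u cu : ℝ} {E E1 : Matrix X X ℝ}
    {Q' D tl : (X → ℝ) → ℝ} (h : Fm s t A w εl εu bl bu (qd E)) (hL : Lad E E1 τ)
    (hw : ∀ x ∈ A, 0 < w x) (hw' : ∀ x ∈ A, 0 < w' x ∧ w' x ≤ w x)
    (h0 : ∀ x ∈ A, 0 ≤ εl x) (h1 : ∀ x ∈ A, εl x ≤ 1 / 4)
    (h0u : ∀ x ∈ A, 0 ≤ εu x) (h1u : ∀ x ∈ A, 1 ≤ cu * (1 - εu x)) (hcu : 0 < cu)
    (hτ : ∀ x ∈ A, τ x = 1 / w' x - 1 / w x)
    (hb0 : 0 < b0) (hbl : ∀ e, b0 ≤ bl e) (hbu : ∀ e, 0 ≤ bu e) (hbu1 : ∀ e, bu e ≤ b1)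
    (hn : 0 ≤ n) (hm : 0 ≤ m) (hK : 0 ≤ K)
    (hE : ∀ f : X → ℝ, (∀ x, ¬ B x → f x = 0) → |Q' f - qd E1 f| ≤ n * qd E1 f)
    (hdec : ∀ f, Q' f - qd E1 f = D f + tl f)
    (hta : ∀ x ∈ A, 0 ≤ ta x ∧ ta x ≤ m) (htb : ∀ e, 0 ≤ tb e ∧ tb e ≤ m * b0)
    (htl : ∀ f g, |tl f| ≤ mor s t (fun x => if x ∈ A then ta x * w' x else 0) tb f g)
    (hltg : UB s t (qd E1) (wu A w' (fun x => εu x * (w' x / w x))) bu →
      (∀ f : X → ℝ, (∀ x, ¬ B x → f x = 0) → |D f| ≤ (n + 2 * m) * qd E1 f) → ∀ f g,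
        |D f| ≤ (n + 2 * m) * K * morB s t B (wu A w' (fun x => εu x * (w' x / w x))) bu f g)
    (hu : K * (n + 2 * m) * cu ≤ u) (hu2 : K * (n + 2 * m) ≤ u)
    (hv : ∀ x ∈ A, (if B x then u else 0) + ta x ≤ 1 / 16)
    (hv2 : ∀ x ∈ A, εu x + 4 * ((if B x then u else 0) + ta x) < 1) :
    Fm s t A w' (fun x => εl x * (w' x / w x) + 4 * ((if B x then u else 0) + ta x))
      (fun x => εu x * (w' x / w x) + 4 * ((if B x then u else 0) + ta x))
      (fun e => bl e - ((if B (s e) ∧ B (t e) then u * b1 else 0) + tb e))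
      (fun e => bu e + ((if B (s e) ∧ B (t e) then u * b1 else 0) + tb e)) Q' := by
  have hmain := errG h hL hw hw' h0 h1 h0u h1u hcu hτ hb0 hbl hbu hbu1 hn hm hK hE hdec hta
    htb htl hltg hu hu2
  have hu0 : 0 ≤ u := le_trans (mul_nonneg hK (by linarith only [hn, hm])) hu2
  have hlt : ∀ x ∈ A, εu x < 1 := by
    intro x hx
    by_contra hc
    have : cu * (1 - εu x) ≤ 0 := mul_nonpos_of_nonneg_of_nonpos hcu.le (by linarith)
    linarith [h1u x hx]
  have hF1 := fm_lad h hL hw (fun x hx => (hw' x hx).1) h0 hlt hτ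
  have hr : ∀ x ∈ A, 0 ≤ w' x / w x ∧ w' x / w x ≤ 1 := fun x hx =>
    ⟨div_nonneg (hw' x hx).1.le (hw x hx).le, (div_le_one (hw x hx)).2 (hw' x hx).2⟩
  refine fm_err hF1 (fun x hx => (hw' x hx).1.le)
    (fun x hx => mul_nonneg (h0 x hx) (hr x hx).1)
    (fun x hx => (mul_le_of_le_one_right (h0 x hx) (hr x hx).2).trans (h1 x hx))
    (fun x hx => mul_nonneg (h0u x hx) (hr x hx).1)
    (fun x hx => by
      have := mul_le_of_le_one_right (h0u x hx) (hr x hx).2
      have := hv2 x hx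
      linarith) (fun x hx => ?_) hv hmain
  have := (hta x hx).1
  split <;> linarith

end graph

section torus

variable {d M : ℕ} [NeZero M] {L R : ℕ}

/-- (ERR, torus) the error of one block inside a box -/
theorem err (a : Tor d M) (hL0 : 0 < L) (hLM : L ≤ M) (hR : 0 < R)
    {A : Finset (Tor d M)} {w w' εl εu τ ta : Tor d M → ℝ} {bl bu tb : Bd d M → ℝ}
    {b0 bb b1 n m u cu : ℝ} {E E1 : Matrix (Tor d M) (Tor d M) ℝ}
    {Q' D tl : (Tor d M → ℝ) → ℝ} (h : Fm sT tT A w εl εu bl bu (qd E)) (hL : Lad E E1 τ)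
    (hw : ∀ x ∈ A, 0 < w x) (hw' : ∀ x ∈ A, 0 < w' x ∧ w' x ≤ w x)
    (h0 : ∀ x ∈ A, 0 ≤ εl x) (h1 : ∀ x ∈ A, εl x ≤ 1 / 4)
    (h0u : ∀ x ∈ A, 0 ≤ εu x) (h1u : ∀ x ∈ A, 1 ≤ cu * (1 - εu x)) (hcu : 0 < cu)
    (hτ : ∀ x ∈ A, τ x = 1 / w' x - 1 / w x)
    (hb0 : 0 < b0) (hbl : ∀ e, b0 ≤ bl e) (hbb : 0 < bb) (hbu : ∀ e, bb ≤ bu e)
    (hbu1 : ∀ e, bu e ≤ b1) (hb1 : 0 ≤ b1) (hn : 0 ≤ n) (hm : 0 ≤ m)
    (hE : ∀ f : Tor d M → ℝ, (∀ x, ¬ Box a L x → f x = 0) → |Q' f - qd E1 f| ≤ n * qd E1 f)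
    (hdec : ∀ f, Q' f - qd E1 f = D f + tl f)
    (hloc : ∀ f g : Tor d M → ℝ, ∀ c : ℝ, (∀ x, Core a L R x → f x - g x = c) → D f = D g)
    (hta : ∀ x ∈ A, 0 ≤ ta x ∧ ta x ≤ m) (htb : ∀ e, 0 ≤ tb e ∧ tb e ≤ m * b0)
    (htl : ∀ f g, |tl f| ≤ mor sT tT (fun x => if x ∈ A then ta x * w' x else 0) tb f g)
    (hu : (2 + 2 * (d : ℝ) ^ 2 * ((L : ℝ) / R) ^ 2 * (b1 / bb)) * (n + 2 * m) * cu ≤ u)
    (hu2 : (2 + 2 * (d : ℝ) ^ 2 * ((L : ℝ) / R) ^ 2 * (b1 / bb)) * (n + 2 * m) ≤ u)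
    (f g : Tor d M → ℝ) : |Q' f - qd E1 f| ≤ mor sT tT
      (fun x => if x ∈ A then ((if Box a L x then u else 0) + ta x) * w' x else 0)
      (fun e => (if Box a L (sT e) ∧ Box a L (tT e) then u * b1 else 0) + tb e) f g := by
  refine errG h hL hw hw' h0 h1 h0u h1u hcu hτ hb0 hbl (fun e => hbb.le.trans (hbu e)) hbu1 hn hm
    (K := 2 + 2 * (d : ℝ) ^ 2 * ((L : ℝ) / R) ^ 2 * (b1 / bb)) (by positivity) hE hdec hta htb
    htl ?_ hu hu2 f g
  intro hU hD f g
  refine ltgT a hL0 hLM hR hbb hb1 (fun x => ?_) (fun e _ => ⟨hbu e, hbu1 e⟩) hU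
    (by linarith only [hn, hm]) hD hloc f g
  unfold wu
  split
  · rename_i hx
    have a1 := hw x hx
    have a2 := hw' x hx
    have a3 := h0u x hx
    have a4 : εu x < 1 := by
      by_contra hc
      have : cu * (1 - εu x) ≤ 0 := mul_nonpos_of_nonneg_of_nonpos hcu.le (by linarith only [hc])
      linarith only [h1u x hx, this]
    have r0 : 0 ≤ w' x / w x := div_nonneg a2.1.le a1.le
    have r1 : w' x / w x ≤ 1 := (div_le_one a1).2 a2.2
    have r2 : εu x * (w' x / w x) ≤ εu x := mul_le_of_le_one_right a3 r1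
    exact div_nonneg a2.1.le (by linarith only [a4, r2])
  · exact le_rfl

/-- (ERR, whole torus) the error of one block when there is no room for a box -/
theorem err_all {A : Finset (Tor d M)} {w w' εl εu τ ta : Tor d M → ℝ} {bl bu tb : Bd d M → ℝ}
    {b0 b1 n m u cu : ℝ} {E E1 : Matrix (Tor d M) (Tor d M) ℝ}
    {Q' D tl : (Tor d M → ℝ) → ℝ} (h : Fm sT tT A w εl εu bl bu (qd E)) (hL : Lad E E1 τ)
    (hw : ∀ x ∈ A, 0 < w x) (hw' : ∀ x ∈ A, 0 < w' x ∧ w' x ≤ w x)
    (h0 : ∀ x ∈ A, 0 ≤ εl x) (h1 : ∀ x ∈ A, εl x ≤ 1 / 4)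
    (h0u : ∀ x ∈ A, 0 ≤ εu x) (h1u : ∀ x ∈ A, 1 ≤ cu * (1 - εu x)) (hcu : 0 < cu)
    (hτ : ∀ x ∈ A, τ x = 1 / w' x - 1 / w x)
    (hb0 : 0 < b0) (hbl : ∀ e, b0 ≤ bl e) (hbu : ∀ e, 0 ≤ bu e) (hbu1 : ∀ e, bu e ≤ b1)
    (hn : 0 ≤ n) (hm : 0 ≤ m)
    (hE : ∀ f, |Q' f - qd E1 f| ≤ n * qd E1 f)
    (hdec : ∀ f, Q' f - qd E1 f = D f + tl f)
    (hta : ∀ x ∈ A, 0 ≤ ta x ∧ ta x ≤ m) (htb : ∀ e, 0 ≤ tb e ∧ tb e ≤ m * b0)
    (htl : ∀ f g, |tl f| ≤ mor sT tT (fun x => if x ∈ A then ta x * w' x else 0) tb f g)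
    (hu : (n + 2 * m) * cu ≤ u) (hu2 : n + 2 * m ≤ u) (f g : Tor d M → ℝ) :
    |Q' f - qd E1 f| ≤ mor sT tT
      (fun x => if x ∈ A then (u + ta x) * w' x else 0) (fun e => u * b1 + tb e) f g := by
  have := errG (B := fun _ => True) (K := 1) h hL hw hw' h0 h1 h0u h1u hcu hτ hb0 hbl
    hbu hbu1 hn hm zero_le_one (fun f _ => hE f) hdec hta htb
    htl (fun hU hD f g => by
      rw [mul_one]
      have e1 : morB sT tT (fun _ => True) (wu A w' (fun x => εu x * (w' x / w x))) bu f g =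
          mor sT tT (wu A w' (fun x => εu x * (w' x / w x))) bu f g := by
        unfold morB
        congr 1
      rw [e1]
      exact ltg_all sT tT hU (by linarith only [hn, hm]) (fun f => hD f (fun x hx => absurd trivial hx))
        f g) (u := u) (by rw [one_mul]; exact hu) (by rw [one_mul]; exact hu2) f g
  simpa using this

/-- (FBK, torus) one block inside a box -/
theorem fbk (a : Tor d M) (hL0 : 0 < L) (hLM : L ≤ M) (hR : 0 < R)
    {A : Finset (Tor d M)} {w w' εl εu τ ta : Tor d M → ℝ} {bl bu tb : Bd d M → ℝ}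
    {b0 bb b1 n m u cu : ℝ} {E E1 : Matrix (Tor d M) (Tor d M) ℝ}
    {Q' D tl : (Tor d M → ℝ) → ℝ} (h : Fm sT tT A w εl εu bl bu (qd E)) (hL : Lad E E1 τ)
    (hw : ∀ x ∈ A, 0 < w x) (hw' : ∀ x ∈ A, 0 < w' x ∧ w' x ≤ w x)
    (h0 : ∀ x ∈ A, 0 ≤ εl x) (h1 : ∀ x ∈ A, εl x ≤ 1 / 4)
    (h0u : ∀ x ∈ A, 0 ≤ εu x) (h1u : ∀ x ∈ A, 1 ≤ cu * (1 - εu x)) (hcu : 0 < cu)
    (hτ : ∀ x ∈ A, τ x = 1 / w' x - 1 / w x)
    (hb0 : 0 < b0) (hbl : ∀ e, b0 ≤ bl e) (hbb : 0 < bb) (hbu : ∀ e, bb ≤ bu e)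
    (hbu1 : ∀ e, bu e ≤ b1) (hb1 : 0 ≤ b1) (hn : 0 ≤ n) (hm : 0 ≤ m)
    (hE : ∀ f : Tor d M → ℝ, (∀ x, ¬ Box a L x → f x = 0) → |Q' f - qd E1 f| ≤ n * qd E1 f)
    (hdec : ∀ f, Q' f - qd E1 f = D f + tl f)
    (hloc : ∀ f g : Tor d M → ℝ, ∀ c : ℝ, (∀ x, Core a L R x → f x - g x = c) → D f = D g)
    (hta : ∀ x ∈ A, 0 ≤ ta x ∧ ta x ≤ m) (htb : ∀ e, 0 ≤ tb e ∧ tb e ≤ m * b0)
    (htl : ∀ f g, |tl f| ≤ mor sT tT (fun x => if x ∈ A then ta x * w' x else 0) tb f g)
    (hu : (2 + 2 * (d : ℝ) ^ 2 * ((L : ℝ) / R) ^ 2 * (b1 / bb)) * (n + 2 * m) * cu ≤ u)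
    (hu2 : (2 + 2 * (d : ℝ) ^ 2 * ((L : ℝ) / R) ^ 2 * (b1 / bb)) * (n + 2 * m) ≤ u)
    (hv : ∀ x ∈ A, (if Box a L x then u else 0) + ta x ≤ 1 / 16)
    (hv2 : ∀ x ∈ A, εu x + 4 * ((if Box a L x then u else 0) + ta x) < 1) :
    Fm sT tT A w' (fun x => εl x * (w' x / w x) + 4 * ((if Box a L x then u else 0) + ta x))
      (fun x => εu x * (w' x / w x) + 4 * ((if Box a L x then u else 0) + ta x))
      (fun e => bl e - ((if Box a L (sT e) ∧ Box a L (tT e) then u * b1 else 0) + tb e))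
      (fun e => bu e + ((if Box a L (sT e) ∧ Box a L (tT e) then u * b1 else 0) + tb e)) Q' := by
  refine fbkG h hL hw hw' h0 h1 h0u h1u hcu hτ hb0 hbl (fun e => hbb.le.trans (hbu e)) hbu1 hn hm
    (K := 2 + 2 * (d : ℝ) ^ 2 * ((L : ℝ) / R) ^ 2 * (b1 / bb)) (by positivity) hE hdec hta htb
    htl ?_ hu hu2 hv hv2
  intro hU hD f g
  refine ltgT a hL0 hLM hR hbb hb1 (fun x => ?_) (fun e _ => ⟨hbu e, hbu1 e⟩) hU
    (by linarith only [hn, hm]) hD hloc f g
  unfold wu
  split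
  · rename_i hx
    have a1 := hw x hx
    have a2 := hw' x hx
    have a3 := h0u x hx
    have a4 : εu x < 1 := by
      by_contra hc
      have : cu * (1 - εu x) ≤ 0 := mul_nonpos_of_nonneg_of_nonpos hcu.le (by linarith only [hc])
      linarith only [h1u x hx, this]
    have r0 : 0 ≤ w' x / w x := div_nonneg a2.1.le a1.le
    have r1 : w' x / w x ≤ 1 := (div_le_one a1).2 a2.2
    have r2 : εu x * (w' x / w x) ≤ εu x := mul_le_of_le_one_right a3 r1
    exact div_nonneg a2.1.le (by linarith only [a4, r2])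
  · exact le_rfl

/-- (FBK, whole torus) one block when there is no room for a box: no locality is needed -/
theorem fbk_all {A : Finset (Tor d M)} {w w' εl εu τ ta : Tor d M → ℝ} {bl bu tb : Bd d M → ℝ}
    {b0 b1 n m u cu : ℝ} {E E1 : Matrix (Tor d M) (Tor d M) ℝ}
    {Q' D tl : (Tor d M → ℝ) → ℝ} (h : Fm sT tT A w εl εu bl bu (qd E)) (hL : Lad E E1 τ)
    (hw : ∀ x ∈ A, 0 < w x) (hw' : ∀ x ∈ A, 0 < w' x ∧ w' x ≤ w x)
    (h0 : ∀ x ∈ A, 0 ≤ εl x) (h1 : ∀ x ∈ A, εl x ≤ 1 / 4)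
    (h0u : ∀ x ∈ A, 0 ≤ εu x) (h1u : ∀ x ∈ A, 1 ≤ cu * (1 - εu x)) (hcu : 0 < cu)
    (hτ : ∀ x ∈ A, τ x = 1 / w' x - 1 / w x)
    (hb0 : 0 < b0) (hbl : ∀ e, b0 ≤ bl e) (hbu : ∀ e, 0 ≤ bu e) (hbu1 : ∀ e, bu e ≤ b1)
    (hn : 0 ≤ n) (hm : 0 ≤ m)
    (hE : ∀ f, |Q' f - qd E1 f| ≤ n * qd E1 f)
    (hdec : ∀ f, Q' f - qd E1 f = D f + tl f)
    (hta : ∀ x ∈ A, 0 ≤ ta x ∧ ta x ≤ m) (htb : ∀ e, 0 ≤ tb e ∧ tb e ≤ m * b0)
    (htl : ∀ f g, |tl f| ≤ mor sT tT (fun x => if x ∈ A then ta x * w' x else 0) tb f g)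
    (hu : (n + 2 * m) * cu ≤ u) (hu2 : n + 2 * m ≤ u) (hv : ∀ x ∈ A, u + ta x ≤ 1 / 16)
    (hv2 : ∀ x ∈ A, εu x + 4 * (u + ta x) < 1) :
    Fm sT tT A w' (fun x => εl x * (w' x / w x) + 4 * (u + ta x))
      (fun x => εu x * (w' x / w x) + 4 * (u + ta x))
      (fun e => bl e - (u * b1 + tb e)) (fun e => bu e + (u * b1 + tb e)) Q' := by
  have := fbkG (B := fun _ => True) (K := 1) h hL hw hw' h0 h1 h0u h1u hcu hτ hb0 hbl
    hbu hbu1 hn hm zero_le_one (fun f _ => hE f) hdec hta htb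
    htl (fun hU hD f g => by
      rw [mul_one]
      have e1 : morB sT tT (fun _ => True) (wu A w' (fun x => εu x * (w' x / w x))) bu f g =
          mor sT tT (wu A w' (fun x => εu x * (w' x / w x))) bu f g := by
        unfold morB
        congr 1
      rw [e1]
      exact ltg_all sT tT hU (by linarith only [hn, hm]) (fun f => hD f (fun x hx => absurd trivial hx))
        f g) (u := u) (by rw [one_mul]; exact hu)
      (by rw [one_mul]; exact hu2) (by simpa using hv) (by simpa using hv2)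
  simpa using this

end torus

end Pool.Agent.LTG
end
end -- Pool.Agent.Helper22_LTG.Fbk

section -- Pool.Agent.Helper61_ANP.Psi

/-!
# Sums over the blocks of the torus
-/

set_option autoImplicit false

open Finset

namespace Pool.Agent.ANP.H61

theorem int_sum (r : ℝ) (hr : 0 ≤ r) (hr1 : r < 1) (S : Finset ℤ) :
    ∑ q ∈ S, r ^ q.natAbs ≤ 2 / (1 - r) := by
  classical
  have h1 : ∑ q ∈ S, r ^ q.natAbs = ∑ m ∈ S.image Int.natAbs, ∑ q ∈ S.filter (fun q => q.natAbs = m),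
      r ^ q.natAbs := by
    rw [Finset.sum_fiberwise_of_maps_to]
    intro q hq
    exact mem_image_of_mem _ hq
  have h2 : ∀ m ∈ S.image Int.natAbs, ∑ q ∈ S.filter (fun q => q.natAbs = m), r ^ q.natAbs ≤
      2 * r ^ m := by
    intro m _
    have h3 : ∀ q ∈ S.filter (fun q => q.natAbs = m), r ^ q.natAbs = r ^ m := by
      intro q hq
      rw [(mem_filter.1 hq).2]
    rw [Finset.sum_congr rfl h3, Finset.sum_const, nsmul_eq_mul]
    refine mul_le_mul_of_nonneg_right ?_ (by positivity)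
    have h4 : S.filter (fun q => q.natAbs = m) ⊆ {(m : ℤ), -(m : ℤ)} := by
      intro q hq
      have := (mem_filter.1 hq).2
      rw [mem_insert, mem_singleton]
      omega
    have h5 := card_le_card h4
    have h6 : ({(m : ℤ), -(m : ℤ)} : Finset ℤ).card ≤ 2 := Finset.card_le_two
    exact_mod_cast h5.trans h6
  rw [h1]
  refine (Finset.sum_le_sum h2).trans ?_
  rw [← Finset.mul_sum, div_eq_mul_inv]
  refine mul_le_mul_of_nonneg_left ?_ (by norm_num)
  rw [← tsum_geometric_of_lt_one hr hr1]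
  exact (summable_geometric_of_lt_one hr hr1).sum_le_tsum _ (fun _ _ => by positivity)

variable {μ : ℕ}

theorem reps1 (κ : ℝ) (hκ : 0 < κ) (j : ℕ) (a : ZMod (2 ^ μ)) :
    ∑ b ∈ ({b | rnd j b = b} : Finset (ZMod (2 ^ μ))), Real.exp (-(κ * ((cd a b : ℝ) / 2 ^ j))) ≤
      Real.exp κ * (2 / (1 - Real.exp (-κ))) := by
  classical
  have hr1 : Real.exp (-κ) < 1 := by
    rw [Real.exp_lt_one_iff]
    linarith only [hκ]
  have hr0 : 0 < Real.exp (-κ) := Real.exp_pos _
  rcases Nat.lt_or_ge μ j with h | h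
  · have h1 : ({b | rnd j b = b} : Finset (ZMod (2 ^ μ))) ⊆ {0} := by
      intro b hb
      rw [mem_filter] at hb
      rw [mem_singleton, ← hb.2]
      unfold rnd
      rw [Nat.div_eq_of_lt, zero_mul, Nat.cast_zero]
      exact lt_of_lt_of_le (ZMod.val_lt b) (Nat.pow_le_pow_right (by norm_num) h.le)
    refine (Finset.sum_le_sum_of_subset_of_nonneg h1 (fun _ _ _ => (Real.exp_pos _).le)).trans ?_
    rw [Finset.sum_singleton]
    have h2 : Real.exp (-(κ * ((cd a 0 : ℝ) / 2 ^ j))) ≤ 1 := by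
      rw [Real.exp_le_one_iff]
      have : 0 ≤ κ * ((cd a 0 : ℝ) / 2 ^ j) := by positivity
      linarith only [this]
    have h3 : (1 : ℝ) ≤ Real.exp κ := Real.one_le_exp hκ.le
    have h4 : (1 : ℝ) ≤ 2 / (1 - Real.exp (-κ)) := by
      rw [le_div_iff₀ (by linarith)]
      linarith only [hr1, hr0]
    nlinarith only [hr1, hr0, h2, h3, h4]
  · -- the quotient
    let q : ZMod (2 ^ μ) → ℤ := fun b => (a - b).valMinAbs / 2 ^ j
    have hp : (0 : ℤ) < 2 ^ j := by positivity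
    have hmod : ∀ b ∈ ({b | rnd j b = b} : Finset (ZMod (2 ^ μ))),
        (a - b).valMinAbs % 2 ^ j = (a.val : ℤ) % 2 ^ j := by
      intro b hb
      rw [mem_filter] at hb
      have h1 : b.val = b.val / 2 ^ j * 2 ^ j := by
        have := val_rnd j b
        rw [hb.2] at this
        exact this
      -- `k ≡ a - b` modulo `2 ^ μ`, so modulo `2 ^ j`
      have h2 : (((a - b).valMinAbs : ℤ) : ZMod (2 ^ μ)) = (((a.val : ℤ) - b.val : ℤ) : ZMod (2 ^ μ)) := by
        rw [ZMod.coe_valMinAbs]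
        push_cast
        simp
      have h3 := (ZMod.intCast_eq_intCast_iff _ _ _).1 h2
      have h4 : (a - b).valMinAbs ≡ (a.val : ℤ) - b.val [ZMOD ((2 ^ j : ℕ) : ℤ)] := by
        refine h3.of_dvd ?_
        exact_mod_cast pow_dvd_pow 2 h
      have h5 : (b.val : ℤ) = (b.val / 2 ^ j : ℕ) * 2 ^ j := by exact_mod_cast h1
      have h6 : (a - b).valMinAbs % ((2 ^ j : ℕ) : ℤ) = ((a.val : ℤ) - b.val) % ((2 ^ j : ℕ) : ℤ) := h4
      push_cast at h6
      rw [h6, h5, Int.sub_mul_emod_self_right]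
    have hinj : Set.InjOn q (({b | rnd j b = b} : Finset (ZMod (2 ^ μ))) : Set (ZMod (2 ^ μ))) := by
      intro b hb b' hb' hq
      have h1 := hmod b (mem_coe.1 hb)
      have h2 := hmod b' (mem_coe.1 hb')
      have h3 := Int.emod_add_mul_ediv (a - b).valMinAbs (2 ^ j)
      have h4 := Int.emod_add_mul_ediv (a - b').valMinAbs (2 ^ j)
      have hq' : (a - b).valMinAbs / 2 ^ j = (a - b').valMinAbs / 2 ^ j := hq
      have h5 : (a - b).valMinAbs = (a - b').valMinAbs := by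
        rw [← h3, ← h4, h1, h2, hq']
      have h6 := ZMod.injective_valMinAbs h5
      exact sub_right_injective h6
    have hterm : ∀ b ∈ ({b | rnd j b = b} : Finset (ZMod (2 ^ μ))),
        Real.exp (-(κ * ((cd a b : ℝ) / 2 ^ j))) ≤
          Real.exp κ * Real.exp (-κ) ^ (q b).natAbs := by
      intro b _
      rw [← Real.exp_nat_mul, ← Real.exp_add, Real.exp_le_exp]
      have h3 := Int.emod_add_mul_ediv (a - b).valMinAbs (2 ^ j)
      have h4 := Int.emod_nonneg (a - b).valMinAbs hp.ne'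
      have h5 := Int.emod_lt_of_pos (a - b).valMinAbs hp
      have h6 : ((q b).natAbs : ℤ) * 2 ^ j ≤ (cd a b : ℤ) + 2 ^ j := by
        show (((a - b).valMinAbs / 2 ^ j).natAbs : ℤ) * 2 ^ j ≤ (((a - b).valMinAbs.natAbs : ℕ) : ℤ) + 2 ^ j
        rw [Int.natCast_natAbs, Int.natCast_natAbs]
        have h7 : |(a - b).valMinAbs / 2 ^ j| * 2 ^ j = |(a - b).valMinAbs / 2 ^ j * 2 ^ j| := by
          rw [abs_mul, abs_of_pos hp]
        rw [h7]
        have h8 : (a - b).valMinAbs / 2 ^ j * 2 ^ j = (a - b).valMinAbs - (a - b).valMinAbs % 2 ^ j := by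
          linarith only [h3]
        rw [h8]
        have h9 := abs_sub (a - b).valMinAbs ((a - b).valMinAbs % 2 ^ j)
        rw [abs_of_nonneg h4] at h9
        linarith only [h5, h9]
      have h7 : ((q b).natAbs : ℝ) * 2 ^ j ≤ (cd a b : ℝ) + 2 ^ j := by exact_mod_cast h6
      have h8 : (0 : ℝ) < 2 ^ j := by positivity
      have h9 : ((q b).natAbs : ℝ) ≤ (cd a b : ℝ) / 2 ^ j + 1 := by
        rw [div_add_one h8.ne', le_div_iff₀ h8]
        exact h7
      have h10 := mul_le_mul_of_nonneg_left h9 hκ.le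
      linarith only [h10]
    refine (Finset.sum_le_sum hterm).trans ?_
    rw [← Finset.mul_sum]
    refine mul_le_mul_of_nonneg_left ?_ (Real.exp_pos _).le
    have h1 : ∑ b ∈ ({b | rnd j b = b} : Finset (ZMod (2 ^ μ))), Real.exp (-κ) ^ (q b).natAbs =
        ∑ z ∈ ({b | rnd j b = b} : Finset (ZMod (2 ^ μ))).image q, Real.exp (-κ) ^ z.natAbs := by
      rw [Finset.sum_image hinj]
    rw [h1]
    exact int_sum _ hr0.le hr1 _

/-- PSI: the sum over the blocks (represented by their corners) of `exp (-κ D(x, B) / L n)` is bounded. -/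
theorem psi_le (d μ : ℕ) (l ρ : ℕ → ℕ) (J N : ℕ) (κ : ℝ) (hκ : 0 < κ) (n : ℕ)
    (x : Fin d → ZMod (2 ^ μ)) :
    ∑ B ∈ ({B | (geoT d μ l ρ J N).bl n B = B} : Finset (Fin d → ZMod (2 ^ μ))),
      Real.exp (-(κ * (((geoT d μ l ρ J N).D x B : ℝ) / ((geoT d μ l ρ J N).L n : ℝ)))) ≤
      (Real.exp (κ / (d + 1)) * (2 / (1 - Real.exp (-(κ / (d + 1)))))) ^ d := by
  classical
  have hd : (0 : ℝ) < (d : ℝ) + 1 := by positivity
  have hκd : 0 < κ / (d + 1) := by positivity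
  have hsub : ({B | (geoT d μ l ρ J N).bl n B = B} : Finset (Fin d → ZMod (2 ^ μ))) ⊆
      Fintype.piFinset (fun _ : Fin d => ({b | rnd (l n) b = b} : Finset (ZMod (2 ^ μ)))) := by
    intro B hB
    rw [mem_filter] at hB
    rw [Fintype.mem_piFinset]
    intro i
    rw [mem_filter]
    exact ⟨mem_univ _, congrFun hB.2 i⟩
  have hterm : ∀ B : Fin d → ZMod (2 ^ μ),
      Real.exp (-(κ * (((geoT d μ l ρ J N).D x B : ℝ) / ((geoT d μ l ρ J N).L n : ℝ)))) ≤
        ∏ i, Real.exp (-(κ / (d + 1) * ((cd (x i) (B i) : ℝ) / 2 ^ l n))) := by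
    intro B
    rw [← Real.exp_sum, Real.exp_le_exp, Finset.sum_neg_distrib, neg_le_neg_iff, ← Finset.mul_sum,
      ← Finset.sum_div]
    have h1 : ∑ i : Fin d, (cd (x i) (B i) : ℝ) ≤ d * (sd x B : ℝ) := by
      calc ∑ i : Fin d, (cd (x i) (B i) : ℝ) ≤ ∑ _i : Fin d, (sd x B : ℝ) :=
            Finset.sum_le_sum fun i _ => by exact_mod_cast le_sd x B i
        _ = _ := by
            rw [Finset.sum_const, Finset.card_univ, Fintype.card_fin, nsmul_eq_mul]
    have h2 : ∑ i : Fin d, (cd (x i) (B i) : ℝ) ≤ (d + 1) * (sd x B : ℝ) := by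
      have : (0 : ℝ) ≤ sd x B := by positivity
      linarith only [h1]
    have h3 : (0 : ℝ) < 2 ^ l n := by positivity
    have h4 : ((geoT d μ l ρ J N).L n : ℝ) = 2 ^ l n := by
      show (((2 ^ l n : ℕ)) : ℝ) = 2 ^ l n
      push_cast
      rfl
    have h5 : ((geoT d μ l ρ J N).D x B : ℝ) = (sd x B : ℝ) := rfl
    rw [h4, h5]
    calc κ / (d + 1) * ((∑ i : Fin d, (cd (x i) (B i) : ℝ)) / 2 ^ l n)
        ≤ κ / (d + 1) * (((d + 1) * (sd x B : ℝ)) / 2 ^ l n) := by
          refine mul_le_mul_of_nonneg_left ?_ hκd.le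
          exact div_le_div_of_nonneg_right h2 h3.le
      _ = _ := by
          field_simp
  calc ∑ B ∈ ({B | (geoT d μ l ρ J N).bl n B = B} : Finset (Fin d → ZMod (2 ^ μ))),
      Real.exp (-(κ * (((geoT d μ l ρ J N).D x B : ℝ) / ((geoT d μ l ρ J N).L n : ℝ))))
      ≤ ∑ B ∈ ({B | (geoT d μ l ρ J N).bl n B = B} : Finset (Fin d → ZMod (2 ^ μ))),
        ∏ i, Real.exp (-(κ / (d + 1) * ((cd (x i) (B i) : ℝ) / 2 ^ l n))) :=
        Finset.sum_le_sum fun B _ => hterm B
    _ ≤ ∑ B ∈ Fintype.piFinset (fun _ : Fin d => ({b | rnd (l n) b = b} : Finset (ZMod (2 ^ μ)))),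
        ∏ i, Real.exp (-(κ / (d + 1) * ((cd (x i) (B i) : ℝ) / 2 ^ l n))) :=
        Finset.sum_le_sum_of_subset_of_nonneg hsub
          (fun _ _ _ => Finset.prod_nonneg fun _ _ => (Real.exp_pos _).le)
    _ = ∏ i : Fin d, ∑ b ∈ ({b | rnd (l n) b = b} : Finset (ZMod (2 ^ μ))),
        Real.exp (-(κ / (d + 1) * ((cd (x i) b : ℝ) / 2 ^ l n))) :=
        (Finset.prod_univ_sum
          (fun _ : Fin d => ({b | rnd (l n) b = b} : Finset (ZMod (2 ^ μ))))
          (fun i b => Real.exp (-(κ / (d + 1) * ((cd (x i) b : ℝ) / 2 ^ l n))))).symm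
    _ ≤ ∏ _i : Fin d, (Real.exp (κ / (d + 1)) * (2 / (1 - Real.exp (-(κ / (d + 1)))))) :=
        Finset.prod_le_prod (fun i _ => Finset.sum_nonneg fun _ _ => (Real.exp_pos _).le)
          (fun i _ => reps1 _ hκd _ _)
    _ = _ := by
        rw [Finset.prod_const, Finset.card_univ, Fintype.card_fin]

end Pool.Agent.ANP.H61
end -- Pool.Agent.Helper61_ANP.Psi

section -- Pool.Agent.Helper63_ANR.GRN

/-!
Green's identities for a network.
-/

set_option autoImplicit false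

open scoped BigOperators ComplexConjugate

noncomputable section

namespace Pool.Agent.ANR.H63

open Pool.Agent.ANR

theorem grn_sym (X : Type) [Fintype X] [DecidableEq X] (H : Matrix X X ℝ) (κ : X → ℝ)
    (hN : Net H κ) (φ ψ : X → ℂ) :
    ∑ x, φ x * opv H κ ψ x = ∑ x, ψ x * opv H κ φ x := by
  have e : ∀ a b : X → ℂ, ∑ x, a x * opv H κ b x
      = (∑ x, ∑ y, (H x y : ℂ) * (a x * b y)) - ∑ x, Complex.I * (κ x : ℂ) * (a x * b x) := by
    intro a b
    rw [← Finset.sum_sub_distrib]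
    refine Finset.sum_congr rfl fun x _ => ?_
    unfold opv
    rw [mul_sub, Finset.mul_sum]
    congr 1
    · refine Finset.sum_congr rfl fun y _ => ?_
      ring
    · ring
  rw [e φ ψ, e ψ φ]
  congr 1
  · rw [Finset.sum_comm]
    refine Finset.sum_congr rfl fun x _ => ?_
    refine Finset.sum_congr rfl fun y _ => ?_
    rw [hN.sym y x]
    ring
  · refine Finset.sum_congr rfl fun x _ => ?_
    ring

theorem grn_im (X : Type) [Fintype X] [DecidableEq X] (H : Matrix X X ℝ) (κ : X → ℝ)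
    (hN : Net H κ) (ψ : X → ℂ) :
    (∑ x, conj (ψ x) * opv H κ ψ x).im = - ∑ x, κ x * ‖ψ x‖ ^ 2 := by
  have e : ∑ x, conj (ψ x) * opv H κ ψ x
      = (∑ x, ∑ y, (H x y : ℂ) * (conj (ψ x) * ψ y))
        - ∑ x, Complex.I * (((κ x * ‖ψ x‖ ^ 2 : ℝ)) : ℂ) := by
    rw [← Finset.sum_sub_distrib]
    refine Finset.sum_congr rfl fun x _ => ?_
    unfold opv
    rw [mul_sub, Finset.mul_sum]
    congr 1
    · refine Finset.sum_congr rfl fun y _ => ?_
      ring
    · have h : conj (ψ x) * ψ x = ((‖ψ x‖ ^ 2 : ℝ) : ℂ) := by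
        rw [mul_comm, Complex.mul_conj, Complex.normSq_eq_norm_sq]
      calc conj (ψ x) * (Complex.I * (κ x : ℂ) * ψ x)
          = Complex.I * (κ x : ℂ) * (conj (ψ x) * ψ x) := by ring
        _ = Complex.I * (((κ x * ‖ψ x‖ ^ 2 : ℝ)) : ℂ) := by
          rw [h]; push_cast; ring
  have hr : (∑ x, ∑ y, (H x y : ℂ) * (conj (ψ x) * ψ y)).im = 0 := by
    apply Complex.conj_eq_iff_im.1
    rw [map_sum]
    have h1 : ∀ x : X, conj (∑ y, (H x y : ℂ) * (conj (ψ x) * ψ y))
        = ∑ y, (H x y : ℂ) * (conj (ψ y) * ψ x) := by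
      intro x
      rw [map_sum]
      refine Finset.sum_congr rfl fun y _ => ?_
      rw [map_mul, map_mul, Complex.conj_conj, Complex.conj_ofReal]
      ring
    rw [Finset.sum_congr rfl fun x _ => h1 x, Finset.sum_comm]
    refine Finset.sum_congr rfl fun x _ => ?_
    refine Finset.sum_congr rfl fun y _ => ?_
    rw [hN.sym y x]
  rw [e, Complex.sub_im, hr, Complex.im_sum, zero_sub]
  congr 1
  refine Finset.sum_congr rfl fun x _ => ?_
  rw [Complex.I_mul_im, Complex.ofReal_re]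

theorem grn : GrnStmt := by
  intro X _ _ H κ hN
  exact ⟨fun φ ψ => grn_sym X H κ hN φ ψ, fun ψ => grn_im X H κ hN ψ⟩

end Pool.Agent.ANR.H63
end
end -- Pool.Agent.Helper63_ANR.GRN

section -- Pool.Agent.Helper72_ANR.GEQ

/-!
# ANR, row GEQ: the Green function of a network
-/

set_option autoImplicit false

open scoped BigOperators ComplexConjugate

noncomputable section

namespace Pool.Agent.ANR.H72

open Pool.Agent.ANR

variable {X : Type} [Fintype X] [DecidableEq X]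

/-- the matrix -/
def Mx (H : Matrix X X ℝ) (κ : X → ℝ) : Matrix X X ℂ :=
  H.map (fun t : ℝ => (t : ℂ)) - Matrix.diagonal fun x => Complex.I * (κ x : ℂ)

theorem opv_eq (H : Matrix X X ℝ) (κ : X → ℝ) (ψ : X → ℂ) (x : X) :
    opv H κ ψ x = (Mx H κ).mulVec ψ x := by
  unfold opv Mx
  rw [Matrix.sub_mulVec, Pi.sub_apply, Matrix.mulVec_diagonal]
  rfl

theorem geq (hDIR : DirStmt) (hGRN : GrnStmt) : GeqStmt := by
  intro X _ _ H κ hN
  obtain ⟨g1, g2⟩ := hGRN X H κ hN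
  have h1 : ∀ y : X, ∃ ψ : X → ℂ, ∀ x, opv H κ ψ x = if x = y then 1 else 0 := by
    intro y
    obtain ⟨ψ, hψ, _⟩ := hDIR X H κ ∅ hN 0 (fun x => if x = y then 1 else 0)
    exact ⟨ψ, fun x => hψ.2 x (by simp)⟩
  choose g hg using h1
  have h2 : Mx H κ * Matrix.of (fun z y => g y z) = 1 := by
    ext x y
    have h3 := hg y x
    rw [opv_eq] at h3
    rw [Matrix.mul_apply, Matrix.one_apply, ← h3]
    rfl
  have h3 : Gr H κ = Matrix.of (fun z y => g y z) := by
    unfold Gr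
    exact Matrix.inv_eq_right_inv h2
  have h4 : ∀ x y, Gr H κ x y = g y x := fun x y => by rw [h3]; rfl
  have e1 : ∀ x y, opv H κ (fun z => Gr H κ z y) x = if x = y then 1 else 0 := by
    intro x y
    have h5 : (fun z => Gr H κ z y) = g y := by
      funext z
      exact h4 z y
    rw [h5]
    exact hg y x
  have e2 : ∀ x y, Gr H κ x y = Gr H κ y x := by
    intro x y
    have h5 := g1 (fun z => Gr H κ z x) (fun z => Gr H κ z y)
    simp only [e1] at h5
    simpa using h5.symm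
  have e3 : ∀ y, ∑ z, κ z * ‖Gr H κ z y‖ ^ 2 = (Gr H κ y y).im := by
    intro y
    have h5 := g2 (fun z => Gr H κ z y)
    simp only [e1] at h5
    have h6 : (∑ x, conj (Gr H κ x y) * (if x = y then (1 : ℂ) else 0)) = conj (Gr H κ y y) := by
      simp
    rw [h6, Complex.conj_im] at h5
    linarith
  have hp : ∀ z, 0 ≤ κ z := fun z => (hN.pos z).le
  have e4 : ∀ x y, κ x * ‖Gr H κ x y‖ ^ 2 ≤ (Gr H κ y y).im := by
    intro x y
    rw [← e3 y]
    exact Finset.single_le_sum (f := fun z => κ z * ‖Gr H κ z y‖ ^ 2)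
      (fun z _ => mul_nonneg (hp z) (by positivity)) (Finset.mem_univ x)
  have e5 : ∀ y, (Gr H κ y y).im ≤ ‖Gr H κ y y‖ := fun y =>
    (le_abs_self _).trans (Complex.abs_im_le_norm _)
  have e6 : ∀ y, κ y * ‖Gr H κ y y‖ ≤ 1 := by
    intro y
    have h5 := (e4 y y).trans (e5 y)
    rcases (norm_nonneg (Gr H κ y y)).eq_or_lt with h0 | h0
    · rw [← h0]; simp
    · by_contra hcon
      push Not at hcon
      nlinarith
  refine ⟨e1, e2, e3, e6, ?_⟩
  intro x y
  have h5 := (e4 x y).trans (e5 y)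
  have h6 := mul_le_mul_of_nonneg_left h5 (hp y)
  have h7 := e6 y
  nlinarith

end Pool.Agent.ANR.H72
end
end -- Pool.Agent.Helper72_ANR.GEQ

section -- Pool.Agent.Helper77_ANR.DIR

/-!
# Release of a block, row DIR (helper77): the Dirichlet problem
-/

set_option autoImplicit false

open scoped BigOperators ComplexConjugate

noncomputable section

namespace Pool.Agent.ANR.H77

variable {X : Type} [Fintype X] [DecidableEq X]

theorem opv_add (H : Matrix X X ℝ) (κ : X → ℝ) (φ ψ : X → ℂ) (x : X) :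
    opv H κ (φ + ψ) x = opv H κ φ x + opv H κ ψ x := by
  unfold opv
  have h : ∀ y, (H x y : ℂ) * (φ + ψ) y = (H x y : ℂ) * φ y + (H x y : ℂ) * ψ y :=
    fun y => mul_add _ _ _
  rw [Finset.sum_congr rfl fun y _ => h y, Finset.sum_add_distrib, Pi.add_apply]
  ring

theorem opv_smul (H : Matrix X X ℝ) (κ : X → ℝ) (c : ℂ) (ψ : X → ℂ) (x : X) :
    opv H κ (c • ψ) x = c * opv H κ ψ x := by
  unfold opv
  have h : ∀ y, (H x y : ℂ) * (c • ψ) y = c * ((H x y : ℂ) * ψ y) := by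
    intro y
    rw [Pi.smul_apply, smul_eq_mul]
    ring
  rw [Finset.sum_congr rfl fun y _ => h y, ← Finset.mul_sum, Pi.smul_apply, smul_eq_mul]
  ring

/-- `ψ` on `F`, `opv H κ ψ` off `F` -/
def Bm (H : Matrix X X ℝ) (κ : X → ℝ) (F : Finset X) : (X → ℂ) →ₗ[ℂ] (X → ℂ) where
  toFun ψ x := if x ∈ F then ψ x else opv H κ ψ x
  map_add' φ ψ := by
    funext x
    change (if x ∈ F then (φ + ψ) x else opv H κ (φ + ψ) x) =
      (if x ∈ F then φ x else opv H κ φ x) + (if x ∈ F then ψ x else opv H κ ψ x)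
    split_ifs
    · rfl
    · exact opv_add H κ φ ψ x
  map_smul' c ψ := by
    funext x
    change (if x ∈ F then (c • ψ) x else opv H κ (c • ψ) x) =
      c * (if x ∈ F then ψ x else opv H κ ψ x)
    split_ifs
    · rfl
    · exact opv_smul H κ c ψ x

theorem Bm_apply (H : Matrix X X ℝ) (κ : X → ℝ) (F : Finset X) (ψ : X → ℂ) (x : X) :
    Bm H κ F ψ x = if x ∈ F then ψ x else opv H κ ψ x := rfl

/-- DIR -/
theorem dir (hGrn : GrnStmt) : DirStmt := by
  intro X _ _ H κ F hN f h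
  have hinj : Function.Injective (Bm H κ F) := by
    rw [← LinearMap.ker_eq_bot, LinearMap.ker_eq_bot']
    intro ψ hψ
    have h1 : ∀ x, conj (ψ x) * opv H κ ψ x = 0 := by
      intro x
      have h2 : Bm H κ F ψ x = 0 := by rw [hψ]; rfl
      rw [Bm_apply] at h2
      split_ifs at h2 with hx
      · rw [h2, map_zero, zero_mul]
      · rw [h2, mul_zero]
    have h3 := (hGrn X H κ hN).2 ψ
    rw [Finset.sum_eq_zero fun x _ => h1 x, Complex.zero_im, eq_comm, neg_eq_zero] at h3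
    have h4 := (Finset.sum_eq_zero_iff_of_nonneg fun x _ =>
      mul_nonneg (hN.pos x).le (sq_nonneg ‖ψ x‖)).1 h3
    funext x
    have h5 := (mul_eq_zero.1 (h4 x (Finset.mem_univ x))).resolve_left (hN.pos x).ne'
    exact norm_eq_zero.1 (pow_eq_zero_iff (two_ne_zero)|>.1 h5)
  have hsur := LinearMap.injective_iff_surjective.1 hinj
  obtain ⟨ψ, hψ⟩ := hsur fun x => if x ∈ F then f x else h x
  refine ⟨ψ, ⟨?_, ?_⟩, ?_⟩
  · intro b hb
    have h1 := congrFun hψ b
    rw [Bm_apply, if_pos hb, if_pos hb] at h1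
    exact h1
  · intro x hx
    have h1 := congrFun hψ x
    rw [Bm_apply, if_neg hx, if_neg hx] at h1
    exact h1
  · rintro φ ⟨h1, h2⟩
    apply hinj
    rw [hψ]
    funext x
    rw [Bm_apply]
    split_ifs with hx
    · exact h1 x hx
    · exact h2 x hx

end Pool.Agent.ANR.H77
end
end -- Pool.Agent.Helper77_ANR.DIR

section -- Pool.Agent.Helper61_ACN.Metric

open Finset

namespace Pool.Agent.ACN

/-- Alive cost of a walk (a list of sites): the number of steps with two alive end points. -/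
noncomputable def cost {X : Type*} (dead : Set X) : List X → ℕ
  | [] => 0
  | [_] => 0
  | x :: y :: l => (open Classical in if x ∈ dead ∨ y ∈ dead then 0 else 1) + cost dead (y :: l)

theorem cost_cons_le {X : Type*} (dead : Set X) (x : X) (l : List X) :
    cost dead l ≤ cost dead (x :: l) := by
  cases l with
  | nil => simp [cost]
  | cons y l => simp [cost]

theorem cost_append {X : Type*} (dead : Set X) (s t : List X) :
    cost dead s + cost dead t ≤ cost dead (s ++ t) := by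
  induction s with
  | nil => simp [cost]
  | cons x s ih =>
    cases s with
    | nil =>
      have := cost_cons_le dead x t
      simpa [cost] using this
    | cons y s =>
      simp only [List.cons_append, cost] at ih ⊢
      omega

/-- More dead sites which are not visited do not change the cost. -/
theorem cost_congr {X : Type*} (dead dead' : Set X) (l : List X)
    (h : ∀ x ∈ l, x ∈ dead ↔ x ∈ dead') : cost dead l = cost dead' l := by
  induction l with
  | nil => simp [cost]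
  | cons x l ih =>
    cases l with
    | nil => simp [cost]
    | cons y l =>
      have h1 := h x (by simp)
      have h2 := h y (by simp)
      have h3 := ih (fun z hz => h z (List.mem_cons_of_mem _ hz))
      simp only [cost, h3]
      congr 1
      by_cases hx : x ∈ dead <;> by_cases hy : y ∈ dead
      · simp [hx, hy, h1.1 hx]
      · simp [hx, h1.1 hx]
      · simp [hy, h2.1 hy]
      · have hx' : x ∉ dead' := fun h => hx (h1.2 h)
        have hy' : y ∉ dead' := fun h => hy (h2.2 h)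
        simp [hx, hy, hx', hy']

theorem split_first {X : Type*} (P : X → Prop) (l : List X) :
    (∀ x ∈ l, ¬ P x) ∨ ∃ s v t, l = s ++ v :: t ∧ (∀ x ∈ s, ¬ P x) ∧ P v := by
  classical
  induction l with
  | nil => left; simp
  | cons x l ih =>
    by_cases hx : P x
    · right
      exact ⟨[], x, l, by simp, by simp, hx⟩
    · rcases ih with ih | ⟨s, v, t, h1, h2, h3⟩
      · left
        intro z hz
        rcases List.mem_cons.1 hz with rfl | hz
        · exact hx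
        · exact ih z hz
      · right
        refine ⟨x :: s, v, t, by simp [h1], ?_, h3⟩
        intro z hz
        rcases List.mem_cons.1 hz with rfl | hz
        · exact hx
        · exact h2 z hz

theorem split_last {X : Type*} [DecidableEq X] (v : X) (l : List X) (hv : v ∈ l) :
    ∃ s t, l = s ++ v :: t ∧ v ∉ t := by
  induction l with
  | nil => simp at hv
  | cons x l ih =>
    by_cases hl : v ∈ l
    · obtain ⟨s, t, h1, h2⟩ := ih hl
      exact ⟨x :: s, t, by simp [h1], h2⟩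
    · rcases List.mem_cons.1 hv with rfl | h
      · exact ⟨[], l, by simp, hl⟩
      · exact absurd h hl

/-- A walk from `x` to `y`. -/
def IsWalk {X : Type*} (adj : X → X → Prop) (x y : X) (l : List X) : Prop :=
  List.IsChain adj l ∧ l.head? = some x ∧ l.getLast? = some y

theorem walk_left {X : Type*} {adj : X → X → Prop} {x y v : X} {s t : List X}
    (h : IsWalk adj x y (s ++ v :: t)) (hs : s ≠ []) :
    ∃ u, IsWalk adj x u s ∧ adj u v := by
  obtain ⟨h1, h2, h3⟩ := h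
  refine ⟨s.getLast hs, ⟨?_, ?_, ?_⟩, ?_⟩
  · exact h1.left_of_append
  · cases s with
    | nil => exact absurd rfl hs
    | cons a s => simpa using h2
  · exact List.getLast?_eq_getLast_of_ne_nil hs
  · rw [List.isChain_append] at h1
    exact h1.2.2 _ (List.getLast?_eq_getLast_of_ne_nil hs) _ (by simp)

theorem walk_right {X : Type*} {adj : X → X → Prop} {x y v : X} {s t : List X}
    (h : IsWalk adj x y (s ++ v :: t)) : IsWalk adj v y (v :: t) := by
  obtain ⟨h1, h2, h3⟩ := h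
  refine ⟨h1.right_of_append, by simp, ?_⟩
  rw [List.getLast?_append] at h3
  simpa using h3

theorem walk_tail {X : Type*} {adj : X → X → Prop} {x y v : X} {s t : List X}
    (h : IsWalk adj x y (s ++ v :: t)) (ht : t ≠ []) :
    ∃ u, IsWalk adj u y t ∧ adj v u := by
  obtain ⟨h1, h2, h3⟩ := walk_right h
  cases t with
  | nil => exact absurd rfl ht
  | cons a t =>
    refine ⟨a, ⟨?_, by simp, ?_⟩, ?_⟩
    · exact h1.tail
    · simpa using h3
    · rw [List.isChain_cons_cons] at h1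
      exact h1.1

theorem walk_nil_right {X : Type*} {adj : X → X → Prop} {x y v : X} {s : List X}
    (h : IsWalk adj x y (s ++ [v])) : v = y := by
  obtain ⟨_, _, h3⟩ := h
  simpa using h3

theorem walk_nil_left {X : Type*} {adj : X → X → Prop} {x y v : X} {t : List X}
    (h : IsWalk adj x y (v :: t)) : v = x := by
  obtain ⟨_, h2, _⟩ := h
  simpa using h2

/-- Adding the dead sites of `Hall`, of which the walk visits only sites of the finite set `H`. -/
theorem cost_local {X : Type*} [DecidableEq X] (adj : X → X → Prop) (δ : X → X → ℝ)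
    (δ0 : ∀ x, δ x x = 0) (δp : ∀ x y, 0 ≤ δ x y)
    (δt : ∀ x y z, δ x z ≤ δ x y + δ y z) (hadj : ∀ x y, adj x y → δ x y ≤ 1)
    (dead Hall : Set X) (κ c : ℝ) (hκ0 : 0 ≤ κ) (hκ1 : κ ≤ 1) (hc : 0 ≤ c)
    (hprev : ∀ x y l, IsWalk adj x y l → κ * δ x y - c ≤ cost dead l) :
    ∀ (n : ℕ) (H : Finset X), H.card ≤ n → ∀ x y l, IsWalk adj x y l →
      (∀ z ∈ l, z ∈ Hall → z ∈ H) →
      κ * δ x y - (c + n * (c + 2)) ≤ cost (dead ∪ Hall) l := by
  intro n
  induction n with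
  | zero =>
    intro H hH x y l hl hv
    have hH0 : H = ∅ := Finset.card_eq_zero.1 (by omega)
    have h1 : cost (dead ∪ Hall) l = cost dead l := by
      refine cost_congr _ _ _ ?_
      intro z hz
      constructor
      · rintro (h | h)
        · exact h
        · have := hv z hz h
          rw [hH0] at this
          simp at this
      · intro h
        exact Or.inl h
    rw [h1]
    have := hprev x y l hl
    push_cast
    linarith only [this]
  | succ n ih =>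
    intro H hH x y l hl hv
    rcases split_first (fun z => z ∈ Hall) l with h | ⟨s, v, t, hl1, hs, hvH⟩
    · have h1 : cost (dead ∪ Hall) l = cost dead l := by
        refine cost_congr _ _ _ ?_
        intro z hz
        constructor
        · rintro (h' | h')
          · exact h'
          · exact absurd h' (h z hz)
        · intro h'
          exact Or.inl h'
      rw [h1]
      have := hprev x y l hl
      have h3 : (0 : ℝ) ≤ ((n + 1 : ℕ) : ℝ) * (c + 2) := by positivity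
      linarith only [this, h3]
    · have hvl : v ∈ l := by rw [hl1]; simp
      have hvH' : v ∈ H := hv v hvl hvH
      -- the last visit of v
      obtain ⟨s', t', ht1, ht2⟩ := split_last v (v :: t) (by simp)
      have hl2 : l = (s ++ s') ++ v :: t' := by rw [hl1, ht1]; simp
      have hcost : cost (dead ∪ Hall) s + cost (dead ∪ Hall) t' ≤ cost (dead ∪ Hall) l := by
        rw [hl2]
        have e1 := cost_append (dead ∪ Hall) (s ++ s') (v :: t')
        have e2 := cost_append (dead ∪ Hall) s s'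
        have e3 := cost_cons_le (dead ∪ Hall) v t'
        omega
      -- left part
      have hleft : κ * δ x v - κ - c ≤ cost (dead ∪ Hall) s := by
        by_cases hsn : s = []
        · subst hsn
          have : v = x := walk_nil_left (by rw [hl1] at hl; simpa using hl)
          subst this
          rw [δ0]
          simp only [cost]
          push_cast
          linarith only [hκ0, hc]
        · obtain ⟨u, hu1, hu2⟩ := walk_left (by rw [hl1] at hl; exact hl) hsn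
          have e1 : cost (dead ∪ Hall) s = cost dead s := by
            refine cost_congr _ _ _ ?_
            intro z hz
            constructor
            · rintro (h' | h')
              · exact h'
              · exact absurd h' (hs z hz)
            · intro h'
              exact Or.inl h'
          rw [e1]
          have e2 := hprev x u s hu1
          have e3 := δt x u v
          have e4 := hadj u v hu2
          nlinarith only [hκ0, e2, e3, e4]
      have hright : κ * δ v y - κ - (c + n * (c + 2)) ≤ cost (dead ∪ Hall) t' := by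
        by_cases htn : t' = []
        · subst htn
          have : v = y := walk_nil_right (by rw [hl2] at hl; exact hl)
          subst this
          rw [δ0]
          simp only [cost]
          push_cast
          have : (0 : ℝ) ≤ (n : ℝ) * (c + 2) := by positivity
          linarith only [hκ0, hc, this]
        · obtain ⟨u, hu1, hu2⟩ := walk_tail (by rw [hl2] at hl; exact hl) htn
          have hcard : (H.erase v).card ≤ n := by
            rw [Finset.card_erase_of_mem hvH']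
            omega
          have e2 := ih (H.erase v) hcard u y t' hu1 (by
            intro z hz hz2
            rw [Finset.mem_erase]
            refine ⟨?_, ?_⟩
            · rintro rfl
              exact ht2 hz
            · refine hv z ?_ hz2
              rw [hl2]
              simp [hz])
          have e3 := δt v u y
          have e4 := hadj v u hu2
          nlinarith only [hκ0, e2, e3, e4]
      have e5 := δt x v y
      have e6 : (cost (dead ∪ Hall) s : ℝ) + cost (dead ∪ Hall) t' ≤ cost (dead ∪ Hall) l := by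
        exact_mod_cast hcost
      push_cast
      nlinarith only [hκ0, hκ1, hleft, hright, e5, e6]

/-- One level: the new dead sites have at most `h` elements in every ball of radius `r`. -/
theorem cost_level {X : Type*} [DecidableEq X] (adj : X → X → Prop) (δ : X → X → ℝ)
    (δ0 : ∀ x, δ x x = 0) (δp : ∀ x y, 0 ≤ δ x y)
    (δt : ∀ x y z, δ x z ≤ δ x y + δ y z) (hadj : ∀ x y, adj x y → δ x y ≤ 1)
    (dead Hall : Set X) (κ c : ℝ) (hκ0 : 0 ≤ κ) (hκ1 : κ ≤ 1) (hc : 0 ≤ c)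
    (hprev : ∀ x y l, IsWalk adj x y l → κ * δ x y - c ≤ cost dead l)
    (r : ℝ) (h : ℕ)
    (hball : ∀ x, ∃ H : Finset X, H.card ≤ h ∧ ∀ z, δ x z ≤ r → z ∈ Hall → z ∈ H)
    (κ' c' : ℝ) (hκ'0 : 0 ≤ κ') (hκ' : κ' ≤ κ) (hc' : c + h * (c + 2) ≤ c')
    (hr1 : 1 ≤ r) (hr : c' + 1 ≤ (κ - κ') * (r - 1)) :
    ∀ (N : ℕ) (x y : X) (l : List X), l.length ≤ N → IsWalk adj x y l →
      κ' * δ x y - c' ≤ cost (dead ∪ Hall) l := by
  intro N
  induction N with
  | zero =>
    intro x y l hN hl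
    have : l = [] := List.length_eq_zero_iff.1 (by omega)
    subst this
    obtain ⟨_, h2, _⟩ := hl
    simp at h2
  | succ N ih =>
    intro x y l hN hl
    obtain ⟨H, hH1, hH2⟩ := hball x
    rcases split_first (fun z => ¬ δ x z ≤ r) l with hin | ⟨s, z, t, hl1, hs, hz⟩
    · have e1 := cost_local adj δ δ0 δp δt hadj dead Hall κ c hκ0 hκ1 hc hprev h H hH1 x y l hl (by
        intro z hz hz2
        exact hH2 z (not_not.1 (hin z hz)) hz2)
      have e2 := δp x y
      nlinarith only [hκ', hc', e1, e2]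
    · have hsn : s ≠ [] := by
        intro hs0
        subst hs0
        have : z = x := walk_nil_left (by rw [hl1] at hl; simpa using hl)
        subst this
        rw [δ0] at hz
        exact hz (by linarith)
      obtain ⟨u, hu1, hu2⟩ := walk_left (by rw [hl1] at hl; exact hl) hsn
      have hw := walk_right (by rw [hl1] at hl; exact hl)
      have hlen : (z :: t).length ≤ N := by
        have : l.length = s.length + (z :: t).length := by rw [hl1]; simp
        have : 0 < s.length := List.length_pos_iff.2 hsn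
        omega
      have e1 := cost_local adj δ δ0 δp δt hadj dead Hall κ c hκ0 hκ1 hc hprev h H hH1 x u s hu1 (by
        intro w hw hw2
        exact hH2 w (not_not.1 (hs w hw)) hw2)
      have e2 := ih z y (z :: t) hlen hw
      have e3 : (cost (dead ∪ Hall) s : ℝ) + cost (dead ∪ Hall) (z :: t) ≤
          cost (dead ∪ Hall) l := by
        rw [hl1]
        exact_mod_cast cost_append (dead ∪ Hall) s (z :: t)
      have e4 := hadj u z hu2
      have e5 := δt x u z
      have e6 := δt x z y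
      have e7 : r - 1 ≤ δ x u := by
        have := not_le.1 hz
        linarith only [hz, e4, e5]
      have e8 : c' + 1 ≤ (κ - κ') * δ x u := by
        have : (κ - κ') * (r - 1) ≤ (κ - κ') * δ x u :=
          mul_le_mul_of_nonneg_left e7 (by linarith only [hκ'])
        linarith only [hr, this]
      have e9 := δp z y
      nlinarith only [hκ1, hκ'0, hκ', hc', e1, e2, e3, e4, e5, e6, e8]

/-- No dead sites: the cost is at least the distance. -/
theorem cost_base {X : Type*} (adj : X → X → Prop) (δ : X → X → ℝ)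
    (δ0 : ∀ x, δ x x = 0)
    (δt : ∀ x y z, δ x z ≤ δ x y + δ y z) (hadj : ∀ x y, adj x y → δ x y ≤ 1) :
    ∀ (l : List X) (x y : X), IsWalk adj x y l → (1 : ℝ) * δ x y - 0 ≤ cost (∅ : Set X) l := by
  intro l
  induction l with
  | nil =>
    intro x y hl
    obtain ⟨_, h2, _⟩ := hl
    simp at h2
  | cons a l ih =>
    intro x y hl
    have hax : a = x := walk_nil_left hl
    subst hax
    cases l with
    | nil =>
      have : a = y := by
        obtain ⟨_, _, h3⟩ := hl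
        simpa using h3
      subst this
      rw [δ0]
      simp [cost]
    | cons b l =>
      obtain ⟨h1, h2, h3⟩ := hl
      rw [List.isChain_cons_cons] at h1
      have e1 := ih b y ⟨h1.2, by simp, by simpa using h3⟩
      have e2 := hadj a b h1.1
      have e3 := δt a b y
      simp only [cost, Set.mem_empty_iff_false, or_self, if_false]
      push_cast
      linarith

/-- **All levels.** -/
theorem cost_all {X : Type*} [DecidableEq X] (adj : X → X → Prop) (δ : X → X → ℝ)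
    (δ0 : ∀ x, δ x x = 0) (δp : ∀ x y, 0 ≤ δ x y)
    (δt : ∀ x y z, δ x z ≤ δ x y + δ y z) (hadj : ∀ x y, adj x y → δ x y ≤ 1)
    (D : ℕ → Set X) (r : ℕ → ℝ) (h : ℕ → ℕ)
    (hball : ∀ m x, ∃ H : Finset X, H.card ≤ h m ∧ ∀ z, δ x z ≤ r m → z ∈ D m → z ∈ H)
    (κ c : ℕ → ℝ) (hκ0 : κ 0 ≤ 1) (hc0 : 0 ≤ c 0) (hκ : ∀ m, 0 ≤ κ m)
    (hκm : ∀ m, κ (m + 1) ≤ κ m) (hcm : ∀ m, c m + h m * (c m + 2) ≤ c (m + 1))
    (hr1 : ∀ m, 1 ≤ r m) (hr : ∀ m, c (m + 1) + 1 ≤ (κ m - κ (m + 1)) * (r m - 1)) :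
    ∀ (m : ℕ) (x y : X) (l : List X), IsWalk adj x y l →
      κ m * δ x y - c m ≤ cost (⋃ i ∈ Set.Iio m, D i) l := by
  have hcpos : ∀ m, 0 ≤ c m := by
    intro m
    induction m with
    | zero => exact hc0
    | succ m ih =>
      have h1 := hcm m
      have h2 : (0 : ℝ) ≤ (h m : ℝ) * (c m + 2) := by positivity
      linarith
  have hκle : ∀ m, κ m ≤ 1 := by
    intro m
    induction m with
    | zero => exact hκ0
    | succ m ih => exact le_trans (hκm m) ih
  intro m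
  induction m with
  | zero =>
    intro x y l hl
    have e1 := cost_base adj δ δ0 δt hadj l x y hl
    have e2 : (⋃ i ∈ Set.Iio 0, D i) = (∅ : Set X) := by
      ext z
      simp
    rw [e2]
    have e3 := δp x y
    nlinarith only [hκ0, hc0, e1, e3]
  | succ m ih =>
    intro x y l hl
    have e2 : (⋃ i ∈ Set.Iio (m + 1), D i) = (⋃ i ∈ Set.Iio m, D i) ∪ D m := by
      ext z
      simp only [Set.mem_iUnion, Set.mem_Iio, Set.mem_union, exists_prop]
      constructor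
      · rintro ⟨i, hi, hz⟩
        rcases Nat.lt_succ_iff_lt_or_eq.1 hi with h | rfl
        · exact Or.inl ⟨i, h, hz⟩
        · exact Or.inr hz
      · rintro (⟨i, hi, hz⟩ | hz)
        · exact ⟨i, by omega, hz⟩
        · exact ⟨m, by omega, hz⟩
    rw [e2]
    exact cost_level adj δ δ0 δp δt hadj (⋃ i ∈ Set.Iio m, D i) (D m) (κ m) (c m) (hκ m) (hκle m)
      (hcpos m) ih (r m) (h m) (hball m) (κ (m + 1)) (c (m + 1)) (hκ (m + 1)) (hκm m) (hcm m)
      (hr1 m) (hr m) l.length x y l le_rfl hl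

/-- **The plateau weight.** If every walk costs at least `κ δ - c`, then for every site `x` there is
a function `φ` (the alive distance to `x`, truncated at `N`) which is constant across edges touching
dead sites, 1-Lipschitz across the others, zero at `x`, and large far from `x`. -/
theorem plateau {X : Type*} (adj : X → X → Prop) (hsym : ∀ x y, adj x y → adj y x)
    (δ : X → X → ℝ) (dead : Set X) (κ c : ℝ)
    (hw : ∀ x y l, IsWalk adj x y l → κ * δ x y - c ≤ cost dead l) (x : X) (N : ℕ) :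
    ∃ φ : X → ℕ, φ x = 0 ∧ (∀ y, min (N : ℝ) (κ * δ x y - c) ≤ φ y) ∧ (∀ y, φ y ≤ N) ∧
      (∀ y z, adj y z → φ z ≤ φ y + 1) ∧
      (∀ y z, adj y z → (y ∈ dead ∨ z ∈ dead) → φ z = φ y) := by
  classical
  set A : X → Set ℕ := fun y => {n | n = N ∨ ∃ l, IsWalk adj x y l ∧ cost dead l = n} with hA
  have hne : ∀ y, (A y).Nonempty := fun y => ⟨N, Or.inl rfl⟩
  have hmem : ∀ y, sInf (A y) ∈ A y := fun y => Nat.sInf_mem (hne y)
  have hle : ∀ y n, n ∈ A y → sInf (A y) ≤ n := fun y n hn => Nat.sInf_le hn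
  -- extension of walks by one step
  have hext : ∀ (y z : X) (l : List X), adj y z → IsWalk adj x y l →
      IsWalk adj x z (l ++ [z]) ∧ cost dead (l ++ [z]) ≤ cost dead l + 1 ∧
        ((y ∈ dead ∨ z ∈ dead) → cost dead (l ++ [z]) = cost dead l) := by
    intro y z l hyz hl
    obtain ⟨h1, h2, h3⟩ := hl
    have hln : l ≠ [] := by
      rintro rfl
      simp at h2
    refine ⟨⟨?_, ?_, ?_⟩, ?_⟩
    · rw [List.isChain_append]
      refine ⟨h1, by simp, ?_⟩
      intro a ha b hb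
      rw [h3] at ha
      simp at ha hb
      rw [← ha, ← hb]
      exact hyz
    · cases l with
      | nil => exact absurd rfl hln
      | cons a l => simpa using h2
    · simp
    · clear h2
      induction l with
      | nil => exact absurd rfl hln
      | cons a l ih =>
        cases l with
        | nil =>
          simp at h3
          subst h3
          constructor
          · simp only [List.cons_append, List.nil_append, cost]
            split_ifs <;> omega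
          · intro h
            simp only [List.cons_append, List.nil_append, cost, if_pos h]
        | cons b l =>
          rw [List.isChain_cons_cons] at h1
          obtain ⟨i1, i2⟩ := ih h1.2 (by simpa using h3) (by simp)
          simp only [List.cons_append, cost] at i1 i2 ⊢
          constructor
          · omega
          · intro h
            have := i2 h
            omega
  have hstep : ∀ y z, adj y z → sInf (A z) ≤ sInf (A y) + 1 := by
    intro y z hyz
    rcases hmem y with h | ⟨l, hl, hc⟩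
    · have := hle z N (Or.inl rfl)
      omega
    · obtain ⟨h1, h2, _⟩ := hext y z l hyz hl
      have := hle z _ (Or.inr ⟨_, h1, rfl⟩)
      omega
  have hfree : ∀ y z, adj y z → (y ∈ dead ∨ z ∈ dead) → sInf (A z) ≤ sInf (A y) := by
    intro y z hyz hd
    rcases hmem y with h | ⟨l, hl, hc⟩
    · have := hle z N (Or.inl rfl)
      omega
    · obtain ⟨h1, _, h2⟩ := hext y z l hyz hl
      have := hle z _ (Or.inr ⟨_, h1, rfl⟩)
      have := h2 hd
      omega
  refine ⟨fun y => sInf (A y), ?_, ?_, ?_, hstep, ?_⟩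
  · have : (0 : ℕ) ∈ A x := Or.inr ⟨[x], ⟨by simp, by simp, by simp⟩, by simp [cost]⟩
    have := hle x 0 this
    simp only
    omega
  · intro y
    rcases hmem y with h | ⟨l, hl, hc⟩
    · simp only
      rw [h]
      exact min_le_left _ _
    · have e1 := hw x y l hl
      rw [hc] at e1
      exact le_trans (min_le_right _ _) e1
  · intro y
    exact hle y N (Or.inl rfl)
  · intro y z hyz hd
    refine le_antisymm (hfree y z hyz hd) (hfree z y (hsym y z hyz) ?_)
    tauto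

end Pool.Agent.ACN
end -- Pool.Agent.Helper61_ACN.Metric

section -- Pool.Agent.Helper61_ACN.Path

open Finset

namespace Pool.Agent.ACN

/-- Loop erasure: a walk can be replaced by a simple one of at most the same cost. -/
theorem loop_erase {X : Type*} [DecidableEq X] (adj : X → X → Prop) (dead : Set X) :
    ∀ (N : ℕ) (x y : X) (l : List X), l.length ≤ N → IsWalk adj x y l →
      ∃ l' : List X, IsWalk adj x y l' ∧ l'.Nodup ∧ (∀ z ∈ l', z ∈ l) ∧
        cost dead l' ≤ cost dead l := by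
  intro N
  induction N with
  | zero =>
    intro x y l hN hl
    have : l = [] := List.length_eq_zero_iff.1 (by omega)
    subst this
    obtain ⟨_, h2, _⟩ := hl
    simp at h2
  | succ N ih =>
    intro x y l hN hl
    have hxl : x ∈ l := by
      obtain ⟨_, h2, _⟩ := hl
      exact List.mem_of_mem_head? (by rw [h2]; simp)
    obtain ⟨s, t, h1, h2⟩ := split_last x l hxl
    have hc : cost dead (x :: t) ≤ cost dead l := by
      rw [h1]
      have := cost_append dead s (x :: t)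
      omega
    by_cases ht : t = []
    · subst ht
      have hxy : x = y := walk_nil_right (by rw [h1] at hl; exact hl)
      subst hxy
      refine ⟨[x], ⟨by simp, by simp, by simp⟩, by simp, ?_, by simp [cost]⟩
      intro z hz
      simp at hz
      subst hz
      exact hxl
    · obtain ⟨u, hu1, hu2⟩ := walk_tail (by rw [h1] at hl; exact hl) ht
      have hlen : t.length ≤ N := by
        have : l.length = s.length + (x :: t).length := by rw [h1]; simp
        simp at this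
        omega
      obtain ⟨t', ht1, ht2, ht3, ht4⟩ := ih u y t hlen hu1
      have ht0 : t ≠ [] := ht
      obtain ⟨b, tt, htt⟩ : ∃ b tt, t = b :: tt := by
        cases t with
        | nil => exact absurd rfl ht
        | cons b tt => exact ⟨b, tt, rfl⟩
      obtain ⟨b', tt', htt'⟩ : ∃ b tt, t' = b :: tt := by
        cases t' with
        | nil =>
          obtain ⟨_, h, _⟩ := ht1
          simp at h
        | cons b tt => exact ⟨b, tt, rfl⟩
      have hb : b = u := walk_nil_left (by rw [htt] at hu1; exact hu1)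
      have hb' : b' = u := walk_nil_left (by rw [htt'] at ht1; exact ht1)
      refine ⟨x :: t', ⟨?_, by simp, ?_⟩, ?_, ?_, ?_⟩
      · rw [htt', List.isChain_cons_cons, ← htt']
        exact ⟨by rw [hb']; exact hu2, ht1.1⟩
      · rw [htt']
        have := ht1.2.2
        rw [htt'] at this
        simpa using this
      · rw [List.nodup_cons]
        exact ⟨fun h => h2 (ht3 x h), ht2⟩
      · intro z hz
        rcases List.mem_cons.1 hz with rfl | hz
        · exact hxl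
        · rw [h1]
          have := ht3 z hz
          simp [this]
      · have e1 : cost dead (x :: t') ≤ cost dead (x :: t) := by
          have hbb : b' = b := hb'.trans hb.symm
          subst hbb
          rw [htt', htt] at ht4
          rw [htt', htt]
          simp only [cost]
          omega
        omega

/-- Every dead visit kills at most two steps. -/
theorem cost_count {X : Type*} (dead : Set X) [DecidablePred (· ∈ dead)] (l : List X) :
    l.length ≤ cost dead l + 2 * l.countP (fun z => decide (z ∈ dead)) + 1 := by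
  have key : ∀ (l : List X) (x : X), (x :: l).length + (if x ∈ dead then 1 else 0) ≤
      cost dead (x :: l) + 2 * (x :: l).countP (fun z => decide (z ∈ dead)) + 1 := by
    intro l
    induction l with
    | nil =>
      intro x
      simp only [cost, List.countP_cons, List.countP_nil, List.length_cons, List.length_nil]
      by_cases hx : x ∈ dead <;> simp [hx]
    | cons y l ih =>
      intro x
      have h := ih y
      rw [List.countP_cons]
      simp only [cost, List.length_cons] at h ⊢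
      by_cases hx : x ∈ dead <;> by_cases hy : y ∈ dead <;> simp [hx, hy] at h ⊢ <;> omega
  cases l with
  | nil => simp
  | cons x l =>
    have := key l x
    split_ifs at this <;> omega

/-- The sites of a walk with at most `R` steps are within `R` of its first site. -/
theorem walk_ball {X : Type*} (adj : X → X → Prop) (δ : X → X → ℝ)
    (δ0 : ∀ x, δ x x = 0) (δt : ∀ x y z, δ x z ≤ δ x y + δ y z)
    (hadj : ∀ x y, adj x y → δ x y ≤ 1) :
    ∀ (l : List X) (x : X), List.IsChain adj (x :: l) →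
      ∀ z ∈ x :: l, δ x z ≤ l.length := by
  intro l
  induction l with
  | nil =>
    intro x _ z hz
    simp at hz
    subst hz
    rw [δ0]
    simp
  | cons y l ih =>
    intro x hx z hz
    rw [List.isChain_cons_cons] at hx
    rcases List.mem_cons.1 hz with rfl | hz
    · rw [δ0]
      positivity
    · have h1 := ih y hx.2 z hz
      have h2 := hadj x y hx.1
      have h3 := δt x y z
      push_cast [List.length_cons]
      linarith

/-- Number of visits of a simple walk to a set with at most `h` elements in every ball of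
radius `R`. -/
theorem visits {X : Type*} [DecidableEq X] (adj : X → X → Prop) (δ : X → X → ℝ)
    (δ0 : ∀ x, δ x x = 0) (δt : ∀ x y z, δ x z ≤ δ x y + δ y z)
    (hadj : ∀ x y, adj x y → δ x y ≤ 1) (D : Set X) [DecidablePred (· ∈ D)] (R h : ℕ)
    (hball : ∀ x, ∃ H : Finset X, H.card ≤ h ∧ ∀ z, δ x z ≤ R → z ∈ D → z ∈ H) :
    ∀ (k : ℕ) (l : List X), l.Nodup → List.IsChain adj l → l.length ≤ k * (R + 1) →
      l.countP (fun z => decide (z ∈ D)) ≤ k * h := by
  intro k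
  induction k with
  | zero =>
    intro l _ _ hl
    have : l = [] := List.length_eq_zero_iff.1 (by omega)
    subst this
    simp
  | succ k ih =>
    intro l hn hc hl
    have hsplit : l = l.take (R + 1) ++ l.drop (R + 1) := (List.take_append_drop _ _).symm
    have h1 : (l.drop (R + 1)).countP (fun z => decide (z ∈ D)) ≤ k * h := by
      refine ih _ ?_ ?_ ?_
      · exact hn.sublist (List.drop_sublist _ _)
      · rw [hsplit] at hc
        exact hc.right_of_append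
      · rw [List.length_drop]
        have : (k + 1) * (R + 1) = k * (R + 1) + (R + 1) := by ring
        omega
    have h2 : (l.take (R + 1)).countP (fun z => decide (z ∈ D)) ≤ h := by
      rcases hl0 : l.take (R + 1) with _ | ⟨x, t⟩
      · simp
      · obtain ⟨H, hH1, hH2⟩ := hball x
        have hch : List.IsChain adj (x :: t) := by
          rw [← hl0]
          rw [hsplit] at hc
          exact hc.left_of_append
        have hnd : (x :: t).Nodup := by
          rw [← hl0]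
          exact hn.sublist (List.take_sublist _ _)
        have hlen : t.length ≤ R := by
          have : (x :: t).length ≤ R + 1 := by
            rw [← hl0, List.length_take]
            omega
          simpa using this
        have hz : ∀ z ∈ x :: t, δ x z ≤ R := by
          intro z hz
          have := walk_ball adj δ δ0 δt hadj t x hch z hz
          have h3 : (t.length : ℝ) ≤ R := by exact_mod_cast hlen
          linarith only [this, h3]
        refine le_trans ?_ hH1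
        rw [List.countP_eq_length_filter]
        have hnf : ((x :: t).filter (fun z => decide (z ∈ D))).Nodup := hnd.filter _
        have hcard := List.toFinset_card_of_nodup hnf
        rw [← hcard]
        refine Finset.card_le_card ?_
        intro z hz'
        rw [List.mem_toFinset, List.mem_filter] at hz'
        exact hH2 z (hz z hz'.1) (by simpa using hz'.2)
    calc l.countP (fun z => decide (z ∈ D))
        = (l.take (R + 1)).countP (fun z => decide (z ∈ D)) +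
          (l.drop (R + 1)).countP (fun z => decide (z ∈ D)) := by
          rw [← List.countP_append, ← hsplit]
      _ ≤ (k + 1) * h := by
          have : (k + 1) * h = k * h + h := by ring
          omega

/-- The same with a real bound. -/
theorem visits' {X : Type*} [DecidableEq X] (adj : X → X → Prop) (δ : X → X → ℝ)
    (δ0 : ∀ x, δ x x = 0) (δt : ∀ x y z, δ x z ≤ δ x y + δ y z)
    (hadj : ∀ x y, adj x y → δ x y ≤ 1) (D : Set X) [DecidablePred (· ∈ D)] (R h : ℕ)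
    (hball : ∀ x, ∃ H : Finset X, H.card ≤ h ∧ ∀ z, δ x z ≤ R → z ∈ D → z ∈ H)
    (l : List X) (hn : l.Nodup) (hc : List.IsChain adj l) :
    ((l.countP (fun z => decide (z ∈ D)) : ℕ) : ℝ) ≤ h * (l.length / (R + 1) + 1) := by
  have h1 := visits adj δ δ0 δt hadj D R h hball (l.length / (R + 1) + 1) l hn hc (by
    have := Nat.div_add_mod l.length (R + 1)
    have h2 : l.length % (R + 1) < R + 1 := Nat.mod_lt l.length (by omega)
    have : (l.length / (R + 1) + 1) * (R + 1) =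
      (R + 1) * (l.length / (R + 1)) + (R + 1) := by ring
    omega)
  have h2 : ((l.length / (R + 1) : ℕ) : ℝ) ≤ (l.length : ℝ) / (R + 1) := by
    have := @Nat.cast_div_le ℝ _ _ _ l.length (R + 1)
    push_cast at this
    exact this
  calc ((l.countP (fun z => decide (z ∈ D)) : ℕ) : ℝ) ≤
        (((l.length / (R + 1) + 1) * h : ℕ) : ℝ) := by exact_mod_cast h1
    _ = (((l.length / (R + 1) : ℕ) : ℝ) + 1) * h := by push_cast; ring
    _ ≤ (l.length / (R + 1) + 1) * h := by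
        refine mul_le_mul_of_nonneg_right (by linarith only [h2]) (by positivity)
    _ = _ := by ring

/-- Length of a walk against the distance. -/
theorem walk_length {X : Type*} (adj : X → X → Prop) (δ : X → X → ℝ)
    (δ0 : ∀ x, δ x x = 0) (δt : ∀ x y z, δ x z ≤ δ x y + δ y z)
    (hadj : ∀ x y, adj x y → δ x y ≤ 1) (x y : X) (l : List X) (hl : IsWalk adj x y l) :
    δ x y + 1 ≤ l.length := by
  cases l with
  | nil =>
    obtain ⟨_, h, _⟩ := hl
    simp at h
  | cons a l =>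
    have ha : a = x := walk_nil_left hl
    subst ha
    have hy : y ∈ a :: l := by
      have := hl.2.2
      exact List.mem_of_getLast? this
    have := walk_ball adj δ δ0 δt hadj l a hl.1 y hy
    push_cast [List.length_cons]
    linarith

/-- **The alive metric, all levels at once, additive version.** The dead set is the union of the
sets `D i`, `i ∈ I`; every ball of radius `R i` contains at most `h i` elements of `D i`. Then every
walk from `x` to `y` has at least `(1 - 2 ∑ h i / (R i + 1)) (δ x y + 1) - 1 - 2 ∑ h i` alive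
steps. -/
theorem cost_add {X ι : Type*} [DecidableEq X] (adj : X → X → Prop) (δ : X → X → ℝ)
    (δ0 : ∀ x, δ x x = 0) (δt : ∀ x y z, δ x z ≤ δ x y + δ y z)
    (hadj : ∀ x y, adj x y → δ x y ≤ 1) (I : Finset ι) (D : ι → Set X) (R h : ι → ℕ)
    (hball : ∀ i ∈ I, ∀ x, ∃ H : Finset X, H.card ≤ h i ∧ ∀ z, δ x z ≤ R i → z ∈ D i → z ∈ H)
    (hsum : 2 * ∑ i ∈ I, (h i : ℝ) / (R i + 1) ≤ 1)
    (x y : X) (l : List X) (hl : IsWalk adj x y l) :
    (1 - 2 * ∑ i ∈ I, (h i : ℝ) / (R i + 1)) * (δ x y + 1) - 1 - 2 * ∑ i ∈ I, (h i : ℝ) ≤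
      cost (⋃ i ∈ I, D i) l := by
  classical
  set dead : Set X := ⋃ i ∈ I, D i with hdead
  obtain ⟨l', h1, h2, _, h4⟩ := loop_erase adj dead l.length x y l le_rfl hl
  have h5 := cost_count dead l'
  have h6 : ((l'.countP (fun z => decide (z ∈ dead)) : ℕ) : ℝ) ≤
      ∑ i ∈ I, (h i : ℝ) * (l'.length / (R i + 1) + 1) := by
    have h7 : l'.countP (fun z => decide (z ∈ dead)) ≤
        ∑ i ∈ I, l'.countP (fun z => decide (z ∈ D i)) := by
      have : ∀ t : List X, t.countP (fun z => decide (z ∈ dead)) ≤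
        ∑ i ∈ I, t.countP (fun z => decide (z ∈ D i)) := by
        intro t
        induction t with
        | nil => simp
        | cons a t ih =>
          simp only [List.countP_cons, sum_add_distrib]
          refine add_le_add ih ?_
          by_cases ha : a ∈ dead
          · rw [hdead] at ha
            simp only [Set.mem_iUnion, exists_prop] at ha
            obtain ⟨i, hi, hai⟩ := ha
            have h8 : (if decide (a ∈ D i) = true then 1 else 0) ≤
                ∑ i ∈ I, (if decide (a ∈ D i) = true then 1 else 0) :=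
              Finset.single_le_sum (f := fun i => (if decide (a ∈ D i) = true then 1 else 0))
                (fun _ _ => Nat.zero_le _) hi
            have h9 : (if decide (a ∈ D i) = true then 1 else 0) = 1 := by simp [hai]
            rw [h9] at h8
            refine le_trans ?_ h8
            split_ifs <;> simp
          · simp [ha]
      exact this l'
    calc ((l'.countP (fun z => decide (z ∈ dead)) : ℕ) : ℝ) ≤
          ((∑ i ∈ I, l'.countP (fun z => decide (z ∈ D i)) : ℕ) : ℝ) := by exact_mod_cast h7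
      _ = ∑ i ∈ I, ((l'.countP (fun z => decide (z ∈ D i)) : ℕ) : ℝ) := by push_cast; rfl
      _ ≤ _ := by
          refine Finset.sum_le_sum ?_
          intro i hi
          exact visits' adj δ δ0 δt hadj (D i) (R i) (h i) (hball i hi) l' h2 h1.1
  have h7 : ∑ i ∈ I, (h i : ℝ) * (l'.length / (R i + 1) + 1) =
      l'.length * ∑ i ∈ I, (h i : ℝ) / (R i + 1) + ∑ i ∈ I, (h i : ℝ) := by
    rw [Finset.mul_sum, ← Finset.sum_add_distrib]
    refine Finset.sum_congr rfl ?_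
    intro i _
    ring
  rw [h7] at h6
  have h8 := walk_length adj δ δ0 δt hadj x y l' h1
  have h9 : (l'.length : ℝ) ≤ cost dead l' + 2 * (l'.countP (fun z => decide (z ∈ dead)) : ℕ) + 1 := by
    exact_mod_cast h5
  have h10 : (cost dead l' : ℝ) ≤ cost dead l := by exact_mod_cast h4
  set S : ℝ := ∑ i ∈ I, (h i : ℝ) / (R i + 1) with hS
  have h11 : (1 - 2 * S) * (δ x y + 1) ≤ (1 - 2 * S) * l'.length :=
    mul_le_mul_of_nonneg_left h8 (by linarith only [hsum])
  linarith only [h9, h10, h6, h11]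

end Pool.Agent.ACN
end -- Pool.Agent.Helper61_ACN.Path

section -- Pool.Agent.Helper61_ANP.Pth

/-!
# The alive distance for a `Geo`
-/

set_option autoImplicit false

open Finset Pool.Agent.ACN

namespace Pool.Agent.ANP.H61

/-- every ball of radius `L i` contains at most `3 ^ d h` dead sites, if every block of level `i`
contains at most `h` -/
theorem ball_dead {X : Type} [Fintype X] [DecidableEq X] (Γ : Geo X) (d : ℕ) (hΓ : GeoOk Γ d)
    (i : ℕ) (S : Finset X) (h : ℕ) (hS : ∀ B, (S ∩ Γ.blk i B).card ≤ h) (x : X) :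
    (S.filter fun y => Γ.D x y ≤ Γ.L i).card ≤ 3 ^ d * h := by
  classical
  set T : Finset X := ({y | Γ.D x y ≤ Γ.L i} : Finset X).image (Γ.bl i) with hT
  have h1 : (S.filter fun y => Γ.D x y ≤ Γ.L i) ⊆ T.biUnion (fun B => S ∩ Γ.blk i B) := by
    intro y hy
    rw [mem_filter] at hy
    rw [mem_biUnion]
    refine ⟨Γ.bl i y, ?_, ?_⟩
    · rw [hT, mem_image]
      exact ⟨y, by rw [mem_filter]; exact ⟨mem_univ _, hy.2⟩, rfl⟩
    · rw [mem_inter, Geo.blk, mem_filter]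
      exact ⟨hy.1, mem_univ _, rfl⟩
  refine (card_le_card h1).trans ?_
  refine card_biUnion_le.trans ?_
  refine (Finset.sum_le_card_nsmul _ _ h (fun B _ => hS B)).trans ?_
  rw [smul_eq_mul]
  exact Nat.mul_le_mul_right _ (hΓ.meet i x)

/-- PTH: at most `h i` dead sites of super-stage `i` in each block of level `i`; then every walk from
`x` to `y` has at least `D x y / 2 - c` alive steps. -/
theorem pth {X : Type} [Fintype X] [DecidableEq X] (Γ : Geo X) (d : ℕ) (hΓ : GeoOk Γ d)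
    (hL : ∀ i, 1 ≤ Γ.L i) (adj : X → X → Prop) (hadj : ∀ x y, adj x y → Γ.D x y ≤ 1) (I : Finset ℕ)
    (dd : ℕ → Finset X) (h : ℕ → ℕ) (hdd : ∀ i ∈ I, ∀ B, (dd i ∩ Γ.blk i B).card ≤ h i)
    (hsum : ∑ i ∈ I, (3 ^ d * h i : ℝ) / Γ.L i ≤ 1 / 4)
    (x y : X) (l : List X) (hl : IsWalk adj x y l) :
    (1 / 2 : ℝ) * Γ.D x y - (1 + 2 * ∑ i ∈ I, (3 ^ d * h i : ℝ)) ≤
      cost (↑(I.biUnion dd) : Set X) l := by
  classical
  have hU : (↑(I.biUnion dd) : Set X) = ⋃ i ∈ I, (↑(dd i) : Set X) := by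
    ext z
    simp
  have hle : ∑ i ∈ I, ((3 ^ d * h i : ℕ) : ℝ) / ((Γ.L i : ℕ) + 1) ≤ 1 / 4 := by
    refine le_trans ?_ hsum
    refine Finset.sum_le_sum ?_
    intro i _
    push_cast
    have h1 : (1 : ℝ) ≤ Γ.L i := by exact_mod_cast hL i
    refine div_le_div_of_nonneg_left (by positivity) (by linarith only [h1]) (by linarith only)
  have h0 := cost_add adj (fun x y => (Γ.D x y : ℝ)) (fun x => by simp [hΓ.self x])
    (fun x y z => by exact_mod_cast hΓ.tri x y z) (fun x y hxy => by exact_mod_cast hadj x y hxy) I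
    (fun i => (↑(dd i) : Set X)) Γ.L (fun i => 3 ^ d * h i)
    (fun i hi x => ⟨(dd i).filter fun y => Γ.D x y ≤ Γ.L i,
      ball_dead Γ d hΓ i (dd i) (h i) (hdd i hi) x, fun z hz hz2 => by
        rw [mem_filter]
        exact ⟨hz2, by exact_mod_cast hz⟩⟩) (by linarith only [hle]) x y l hl
  rw [hU]
  refine le_trans ?_ h0
  push_cast at hle ⊢
  have h2 : (0 : ℝ) ≤ Γ.D x y := by positivity
  set S : ℝ := ∑ i ∈ I, (3 ^ d * h i : ℝ) / ((Γ.L i : ℝ) + 1) with hS
  nlinarith only [hle]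

/-- PTW: the plateau weight. -/
theorem ptw {X : Type} [Fintype X] [DecidableEq X] (Γ : Geo X) (d : ℕ) (hΓ : GeoOk Γ d)
    (hL : ∀ i, 1 ≤ Γ.L i) (adj : X → X → Prop) (hsym : ∀ x y, adj x y → adj y x)
    (hadj : ∀ x y, adj x y → Γ.D x y ≤ 1) (I : Finset ℕ)
    (dd : ℕ → Finset X) (h : ℕ → ℕ) (hdd : ∀ i ∈ I, ∀ B, (dd i ∩ Γ.blk i B).card ≤ h i)
    (hsum : ∑ i ∈ I, (3 ^ d * h i : ℝ) / Γ.L i ≤ 1 / 4) (x : X) (N : ℕ) :
    ∃ φ : X → ℕ, φ x = 0 ∧
      (∀ y, min (N : ℝ) ((1 / 2 : ℝ) * Γ.D x y - (1 + 2 * ∑ i ∈ I, (3 ^ d * h i : ℝ))) ≤ φ y) ∧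
      (∀ y, φ y ≤ N) ∧ (∀ y z, adj y z → φ z ≤ φ y + 1) ∧
      (∀ y z, adj y z → (y ∈ I.biUnion dd ∨ z ∈ I.biUnion dd) → φ z = φ y) := by
  obtain ⟨φ, h1, h2, h3, h4, h5⟩ := plateau adj hsym (fun x y => (Γ.D x y : ℝ))
    (↑(I.biUnion dd) : Set X) (1 / 2) (1 + 2 * ∑ i ∈ I, (3 ^ d * h i : ℝ))
    (fun x y l hl => pth Γ d hΓ hL adj hadj I dd h hdd hsum x y l hl) x N
  exact ⟨φ, h1, h2, h3, h4, fun y z hyz hd => h5 y z hyz (by simpa using hd)⟩

end Pool.Agent.ANP.H61
end -- Pool.Agent.Helper61_ANP.Pth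

section -- Pool.Agent.Helper17_ANR.LV2

/-! Squad ANR, rows LV2 and TAL (helper17). -/

set_option autoImplicit false

open scoped BigOperators ComplexConjugate

noncomputable section

namespace Pool.Agent.ANR.H17

open Pool.Agent.ANR

section

variable {X : Type} [Fintype X] [DecidableEq X]

theorem opv_sub (H : Matrix X X ℝ) (κ : X → ℝ) (φ ψ : X → ℂ) (z : X) :
    opv H κ (fun w => φ w - ψ w) z = opv H κ φ z - opv H κ ψ z := by
  unfold opv
  simp only [mul_sub, Finset.sum_sub_distrib]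
  ring

theorem opv_off {H H' : Matrix X X ℝ} {κ κ' : X → ℝ} {F : Finset X} (h : Off H κ H' κ' F)
    (ψ : X → ℂ) {z : X} (hz : z ∉ F) : opv H' κ' ψ z = opv H κ ψ z := by
  unfold opv
  rw [(h z hz).1]
  simp only [(h z hz).2]

theorem sq_norm_sub_le (a b : ℂ) : ‖a - b‖ ^ 2 ≤ 2 * ‖a‖ ^ 2 + 2 * ‖b‖ ^ 2 := by
  have h1 : ‖a - b‖ ≤ ‖a‖ + ‖b‖ := norm_sub_le a b
  have h2 : ‖a - b‖ ^ 2 ≤ (‖a‖ + ‖b‖) ^ 2 := by
    apply pow_le_pow_left₀ (norm_nonneg _) h1
  nlinarith [sq_nonneg (‖a‖ - ‖b‖)]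

end

theorem lv2 (h1 : Lv1Stmt) (hD : DirStmt) (hG : GeqStmt) : Lv2Stmt := by
  intro X _ _ H H' κ κ' F x y Lx Ly hN hN' hoff hx hy hLx hLy hlx hly
  obtain ⟨g₀, ⟨h0, h0'⟩, -⟩ := hD X H κ F hN (fun _ => 0) (fun z => if z = y then 1 else 0)
  obtain ⟨e1, -⟩ := hG X H κ hN
  obtain ⟨e1', -⟩ := hG X H' κ' hN'
  have hself : Off H κ H κ F := fun z _ => ⟨rfl, fun _ => rfl⟩
  obtain ⟨a1, a2⟩ := h1 X H H κ κ F y Ly (fun z => Gr H κ z y) g₀ hN hN hself hy hLy hly
    (fun z => e1 z y) h0 (fun z hz => h0' z hz)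
  obtain ⟨b1, b2⟩ := h1 X H H' κ κ' F y Ly (fun z => Gr H' κ' z y) g₀ hN hN' hoff hy hLy hly
    (fun z => e1' z y) h0 (fun z hz => h0' z hz)
  have hQ : Q κ F (fun z => Gr H κ z y - Gr H' κ' z y) ≤ 4 * Ly := by
    have hle : Q κ F (fun z => Gr H κ z y - Gr H' κ' z y) ≤
        2 * Q κ F (fun z => Gr H κ z y - g₀ z) + 2 * Q κ F (fun z => Gr H' κ' z y - g₀ z) := by
      unfold Q
      rw [Finset.mul_sum, Finset.mul_sum, ← Finset.sum_add_distrib]
      refine Finset.sum_le_sum fun z _ => ?_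
      have h3 := sq_norm_sub_le (Gr H κ z y - g₀ z) (Gr H' κ' z y - g₀ z)
      rw [sub_sub_sub_cancel_right] at h3
      have h4 := mul_le_mul_of_nonneg_left h3 (hN.pos z).le
      calc κ z * ‖Gr H κ z y - Gr H' κ' z y‖ ^ 2
          ≤ κ z * (2 * ‖Gr H κ z y - g₀ z‖ ^ 2 + 2 * ‖Gr H' κ' z y - g₀ z‖ ^ 2) := h4
        _ = _ := by ring
    linarith
  have hsol : Sol H κ F (fun z => Gr H κ z y - Gr H' κ' z y) := by
    intro z hz
    rw [opv_sub, e1 z y]
    have h5 := e1' z y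
    rw [opv_off hoff _ hz] at h5
    rw [h5, sub_self]
  refine ⟨?_, hQ, a2, b2⟩
  have h6 := hlx _ hsol
  have h7 : Lx * Q κ F (fun z => Gr H κ z y - Gr H' κ' z y) ≤ Lx * (4 * Ly) :=
    mul_le_mul_of_nonneg_left hQ hLx
  calc ‖Gr H κ x y - Gr H' κ' x y‖ ^ 2 ≤ Lx * Q κ F (fun z => Gr H κ z y - Gr H' κ' z y) := h6
    _ ≤ Lx * (4 * Ly) := h7
    _ = 4 * Lx * Ly := by ring

theorem tal : TalStmt := by
  intro X _ _ H κ F O S x κ₀ u hN hOF hSF hx hκ₀ hS hOS hu0 hu ψ hψ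
  -- the identity
  have hid : ψ x = - ∑ y ∈ S \ O, (∑ z ∈ O, (H z y : ℂ) * u z) * ψ y := by
    have hz0 : ∑ z ∈ O, u z * opv H κ ψ z = 0 := by
      refine Finset.sum_eq_zero fun z hz => ?_
      rw [hψ z (Finset.disjoint_left.1 hOF hz), mul_zero]
    have hexp : ∑ z ∈ O, u z * opv H κ ψ z =
        ∑ y, (∑ z ∈ O, (H z y : ℂ) * u z) * ψ y - ∑ z ∈ O, Complex.I * (κ z : ℂ) * u z * ψ z := by
      have e1 : ∀ z ∈ O, u z * opv H κ ψ z =
          ∑ y, (H z y : ℂ) * u z * ψ y - Complex.I * (κ z : ℂ) * u z * ψ z := by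
        intro z _
        unfold opv
        rw [mul_sub, Finset.mul_sum]
        congr 1
        · exact Finset.sum_congr rfl fun y _ => by ring
        · ring
      rw [Finset.sum_congr rfl e1, Finset.sum_sub_distrib, Finset.sum_comm]
      congr 1
      exact Finset.sum_congr rfl fun y _ => by rw [Finset.sum_mul]
    have hin : ∀ y ∈ O, (∑ z ∈ O, (H z y : ℂ) * u z) * ψ y - Complex.I * (κ y : ℂ) * u y * ψ y =
        (if y = x then 1 else 0) * ψ y := by
      intro y hy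
      rw [← hu y hy]
      unfold opv
      rw [sub_mul]
      congr 2
      rw [← Finset.sum_subset (Finset.subset_univ O) (f := fun z => (H y z : ℂ) * u z)
        (fun z _ hz => by rw [hu0 z hz, mul_zero])]
      exact Finset.sum_congr rfl fun z _ => by rw [hN.sym z y]
    have hsplit : ∑ y, (∑ z ∈ O, (H z y : ℂ) * u z) * ψ y =
        ∑ y ∈ O, (∑ z ∈ O, (H z y : ℂ) * u z) * ψ y +
          ∑ y ∈ S \ O, (∑ z ∈ O, (H z y : ℂ) * u z) * ψ y := by
      rw [← Finset.sum_add_sum_compl O]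
      congr 1
      symm
      apply Finset.sum_subset
      · intro y hy
        rw [Finset.mem_compl]
        exact (Finset.mem_sdiff.1 hy).2
      · intro y hy hyS
        have hyO : y ∉ O := Finset.mem_compl.1 hy
        have hyS' : y ∉ S := fun h => hyS (Finset.mem_sdiff.2 ⟨h, hyO⟩)
        rw [Finset.sum_eq_zero, zero_mul]
        intro z hz
        have hH : H z y = 0 := by
          by_contra hne
          exact hyS' (hOS z hz y hyO hne)
        rw [hH]
        simp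
    rw [hexp, hsplit] at hz0
    have h3 : ∑ y ∈ O, (∑ z ∈ O, (H z y : ℂ) * u z) * ψ y -
        ∑ z ∈ O, Complex.I * (κ z : ℂ) * u z * ψ z = ψ x := by
      rw [← Finset.sum_sub_distrib, Finset.sum_congr rfl hin]
      simp only [ite_mul, one_mul, zero_mul]
      rw [Finset.sum_ite_eq' O x, if_pos hx]
    have h4 : ψ x + ∑ y ∈ S \ O, (∑ z ∈ O, (H z y : ℂ) * u z) * ψ y = 0 := by
      rw [← h3, ← hz0]
      ring
    exact eq_neg_of_add_eq_zero_left h4
  set w : X → ℂ := fun y => ∑ z ∈ O, (H z y : ℂ) * u z with hw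
  have hA : ∑ y ∈ S \ O, ‖w y‖ ^ 2 ≤ ∑ y ∈ S, ‖w y‖ ^ 2 :=
    Finset.sum_le_sum_of_subset_of_nonneg Finset.sdiff_subset fun _ _ _ => by positivity
  have hB : ∑ y ∈ S \ O, ‖ψ y‖ ^ 2 ≤ κ₀⁻¹ * Q κ F ψ := by
    unfold Q
    rw [← div_eq_inv_mul, le_div_iff₀ hκ₀, Finset.sum_mul]
    calc ∑ y ∈ S \ O, ‖ψ y‖ ^ 2 * κ₀ ≤ ∑ y ∈ S \ O, κ y * ‖ψ y‖ ^ 2 := by
          refine Finset.sum_le_sum fun y hy => ?_
          rw [mul_comm]
          exact mul_le_mul_of_nonneg_right (hS y (Finset.mem_sdiff.1 hy).1) (by positivity)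
      _ ≤ ∑ y ∈ Fᶜ, κ y * ‖ψ y‖ ^ 2 := by
          refine Finset.sum_le_sum_of_subset_of_nonneg ?_ ?_
          · intro y hy
            rw [Finset.mem_compl]
            exact Finset.disjoint_left.1 hSF (Finset.mem_sdiff.1 hy).1
          · intro y _ _
            exact mul_nonneg (hN.pos y).le (by positivity)
  have hC : ‖ψ x‖ ^ 2 ≤ (∑ y ∈ S \ O, ‖w y‖ ^ 2) * ∑ y ∈ S \ O, ‖ψ y‖ ^ 2 := by
    have h5 : ‖ψ x‖ ≤ ∑ y ∈ S \ O, ‖w y‖ * ‖ψ y‖ := by
      rw [hid, norm_neg]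
      refine (norm_sum_le _ _).trans (le_of_eq ?_)
      exact Finset.sum_congr rfl fun y _ => norm_mul _ _
    calc ‖ψ x‖ ^ 2 ≤ (∑ y ∈ S \ O, ‖w y‖ * ‖ψ y‖) ^ 2 :=
          pow_le_pow_left₀ (norm_nonneg _) h5 2
      _ ≤ _ := Finset.sum_mul_sq_le_sq_mul_sq _ _ _
  have hS0 : 0 ≤ ∑ y ∈ S \ O, ‖w y‖ ^ 2 := Finset.sum_nonneg fun _ _ => by positivity
  have hQ0 : 0 ≤ κ₀⁻¹ * Q κ F ψ := (Finset.sum_nonneg fun _ _ => by positivity).trans hB
  calc ‖ψ x‖ ^ 2 ≤ (∑ y ∈ S \ O, ‖w y‖ ^ 2) * ∑ y ∈ S \ O, ‖ψ y‖ ^ 2 := hC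
    _ ≤ (∑ y ∈ S \ O, ‖w y‖ ^ 2) * (κ₀⁻¹ * Q κ F ψ) := mul_le_mul_of_nonneg_left hB hS0
    _ ≤ (∑ y ∈ S, ‖w y‖ ^ 2) * (κ₀⁻¹ * Q κ F ψ) := mul_le_mul_of_nonneg_right hA hQ0
    _ = κ₀⁻¹ * (∑ y ∈ S, ‖w y‖ ^ 2) * Q κ F ψ := by ring

end Pool.Agent.ANR.H17
end
end -- Pool.Agent.Helper17_ANR.LV2

section -- Pool.Agent.Helper31_ANR.QSY

/-! # Squad ANR, row QSY: conjugate sources have the same flux -/

set_option autoImplicit false

open scoped BigOperators ComplexConjugate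

namespace Pool.Agent.ANR.H31

open Pool.Agent.ANR

/-- the sum over all sites of `f x * opv ψ x` is the sum over `F` -/
theorem sum_sol {X : Type} [Fintype X] [DecidableEq X] (H : Matrix X X ℝ) (κ : X → ℝ)
    (F : Finset X) (ψ f : X → ℂ) (hψ : Sol H κ F ψ) :
    ∑ x, f x * opv H κ ψ x = ∑ b ∈ F, f b * opv H κ ψ b := by
  rw [← Finset.sum_add_sum_compl F]
  have h : ∑ x ∈ Fᶜ, f x * opv H κ ψ x = 0 := by
    apply Finset.sum_eq_zero
    intro x hx
    rw [Finset.mem_compl] at hx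
    rw [hψ x hx, mul_zero]
  rw [h, add_zero]

/-- the flux from the sources -/
theorem flux_eq {X : Type} [Fintype X] [DecidableEq X] (H : Matrix X X ℝ) (κ : X → ℝ)
    (F : Finset X)
    (h2 : ∀ ψ : X → ℂ, (∑ x, conj (ψ x) * opv H κ ψ x).im = - ∑ x, κ x * ‖ψ x‖ ^ 2)
    (ψ : X → ℂ) (hψ : Sol H κ F ψ) :
    Q κ F ψ = - (∑ b ∈ F, conj (ψ b) * opv H κ ψ b).im - ∑ b ∈ F, κ b * ‖ψ b‖ ^ 2 := by
  have h3 := h2 ψ
  rw [sum_sol H κ F ψ (fun x => conj (ψ x)) hψ] at h3
  rw [← Finset.sum_add_sum_compl F (fun x => κ x * ‖ψ x‖ ^ 2)] at h3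
  unfold Q
  linarith

/-- QSY -/
theorem qsy (hG : GrnStmt) : QsyStmt := by
  intro X _ _ H κ F hN φ ψ hφ hψ hc
  obtain ⟨h1, h2⟩ := hG X H κ hN
  rw [flux_eq H κ F h2 φ hφ, flux_eq H κ F h2 ψ hψ]
  have e1 : ∑ b ∈ F, conj (ψ b) * opv H κ ψ b = ∑ b ∈ F, φ b * opv H κ ψ b :=
    Finset.sum_congr rfl fun b hb => by rw [hc b hb]
  have e2 : ∑ b ∈ F, conj (φ b) * opv H κ φ b = ∑ b ∈ F, ψ b * opv H κ φ b :=
    Finset.sum_congr rfl fun b hb => by rw [hc b hb, Complex.conj_conj]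
  have e3 : ∑ b ∈ F, φ b * opv H κ ψ b = ∑ b ∈ F, ψ b * opv H κ φ b := by
    rw [← sum_sol H κ F ψ φ hψ, ← sum_sol H κ F φ ψ hφ]
    exact h1 φ ψ
  have e4 : ∑ b ∈ F, κ b * ‖φ b‖ ^ 2 = ∑ b ∈ F, κ b * ‖ψ b‖ ^ 2 :=
    Finset.sum_congr rfl fun b hb => by rw [hc b hb, RCLike.norm_conj]
  rw [e1, e2, e3, e4]

end Pool.Agent.ANR.H31
end -- Pool.Agent.Helper31_ANR.QSY

section -- Pool.Agent.Helper89_FAR.Lev

/-!
# Weighted Green identity: decay of the leverages, weighted Ward identity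

`φ ≥ 0` changes by at most one across a bond, and only across bonds with both ends in `S`, where the
absorption is at least `k₀`.
-/

set_option autoImplicit false

open scoped BigOperators ComplexConjugate

noncomputable section

namespace Pool.Agent.ANR.H89

open Pool.Agent.ANR

variable {X : Type} [Fintype X] [DecidableEq X]

/-- a plateau function -/
structure Plt (H : Matrix X X ℝ) (φ : X → ℝ) (S : Finset X) (h₀ : ℝ) : Prop where
  nn : ∀ x, 0 ≤ φ x
  lip : ∀ x y, H x y ≠ 0 → φ x ≠ φ y → x ∈ S ∧ y ∈ S ∧ |φ x - φ y| ≤ 1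
  row : ∀ x ∈ S, ∑ y, (if y = x then 0 else |H x y|) ≤ h₀

theorem Plt.mono {H : Matrix X X ℝ} {φ : X → ℝ} {S S' : Finset X} {h₀ h₁ : ℝ}
    (h : Plt H φ S h₀) (hS : S ⊆ S') (hr : ∀ x ∈ S', ∑ y, (if y = x then 0 else |H x y|) ≤ h₁) :
    Plt H φ S' h₁ :=
  ⟨h.nn, fun x y h1 h2 => ⟨hS (h.lip x y h1 h2).1, hS (h.lip x y h1 h2).2.1, (h.lip x y h1 h2).2.2⟩, hr⟩

/-- the commutator term -/
def com (H : Matrix X X ℝ) (W : X → ℝ) (ψ : X → ℂ) : ℝ :=
  1 / 2 * ∑ x, ∑ y, (W x - W y) * (H x y * (conj (ψ x) * ψ y).im)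

/-- the weighted Green identity -/
theorem wgreen (H : Matrix X X ℝ) (κ W : X → ℝ) (hs : ∀ x y, H x y = H y x) (ψ : X → ℂ) :
    (∑ x, (W x : ℂ) * (conj (ψ x) * opv H κ ψ x)).im =
      -∑ x, W x * (κ x * ‖ψ x‖ ^ 2) + com H W ψ := by
  have h1 : ∀ x, ((W x : ℂ) * (conj (ψ x) * opv H κ ψ x)).im =
      W x * (∑ y, H x y * (conj (ψ x) * ψ y).im) - W x * (κ x * ‖ψ x‖ ^ 2) := fun x => by
    have h2 : conj (ψ x) * ψ x = ((‖ψ x‖ ^ 2 : ℝ) : ℂ) := by
      rw [mul_comm, Complex.mul_conj, Complex.normSq_eq_norm_sq]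
    have h3 : conj (ψ x) * opv H κ ψ x = ∑ y, (H x y : ℂ) * (conj (ψ x) * ψ y) -
        Complex.I * ((κ x * ‖ψ x‖ ^ 2 : ℝ) : ℂ) := by
      unfold opv
      rw [mul_sub, Finset.mul_sum]
      congr 1
      · exact Finset.sum_congr rfl fun y _ => by ring
      · calc conj (ψ x) * (Complex.I * (κ x : ℂ) * ψ x)
            = Complex.I * (κ x : ℂ) * (conj (ψ x) * ψ x) := by ring
          _ = _ := by rw [h2]; push_cast; ring
    rw [Complex.im_ofReal_mul, h3, Complex.sub_im, Complex.im_sum, Complex.I_mul_im,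
      Complex.ofReal_re, mul_sub]
    congr 1
    congr 1
    exact Finset.sum_congr rfl fun y _ => by rw [Complex.im_ofReal_mul]
  rw [Complex.im_sum, Finset.sum_congr rfl fun x _ => h1 x, Finset.sum_sub_distrib]
  have h4 : ∑ x, W x * (∑ y, H x y * (conj (ψ x) * ψ y).im) = com H W ψ := by
    have h5 : ∑ x, ∑ y, W y * (H x y * (conj (ψ x) * ψ y).im) =
        -∑ x, ∑ y, W x * (H x y * (conj (ψ x) * ψ y).im) := by
      rw [Finset.sum_comm, ← Finset.sum_neg_distrib]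
      refine Finset.sum_congr rfl fun x _ => ?_
      rw [← Finset.sum_neg_distrib]
      refine Finset.sum_congr rfl fun y _ => ?_
      have h6 : (conj (ψ y) * ψ x).im = -(conj (ψ x) * ψ y).im := by
        have : conj (ψ y) * ψ x = conj (conj (ψ x) * ψ y) := by
          rw [map_mul, Complex.conj_conj, mul_comm]
        rw [this, Complex.conj_im]
      rw [hs y x, h6]; ring
    unfold com
    simp only [sub_mul, Finset.sum_sub_distrib]
    rw [h5]
    simp only [Finset.mul_sum]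
    simp only [← Finset.mul_sum]
    ring
  rw [h4]; ring

/-- the bound for the commutator -/
theorem com_le {H : Matrix X X ℝ} {κ W : X → ℝ} {S : Finset X} {σ k₀ h₀ : ℝ}
    (hs : ∀ x y, H x y = H y x) (hW0 : ∀ x, 0 ≤ W x) (hσ : 0 ≤ σ)
    (hW : ∀ x y, H x y ≠ 0 → W x ≠ W y → x ∈ S ∧ y ∈ S ∧
      |W x - W y| ≤ 2 * σ * (Real.sqrt (W x) * Real.sqrt (W y)))
    (hr : ∀ x ∈ S, ∑ y, (if y = x then 0 else |H x y|) ≤ h₀) (hk : ∀ x ∈ S, k₀ ≤ κ x)
    (hc : σ * h₀ ≤ k₀ / 2) (ψ : X → ℂ) :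
    |com H W ψ| ≤ 1 / 2 * ∑ x ∈ S, W x * (κ x * ‖ψ x‖ ^ 2) := by
  have h1 : ∀ x y, |(W x - W y) * (H x y * (conj (ψ x) * ψ y).im)| ≤
      (if x ∈ S then σ * ((if y = x then 0 else |H x y|) * (W x * ‖ψ x‖ ^ 2)) else 0) +
      (if y ∈ S then σ * ((if x = y then 0 else |H y x|) * (W y * ‖ψ y‖ ^ 2)) else 0) :=
    fun x y => by
      have hp : ∀ a b : X, 0 ≤ (if a ∈ S then
          σ * ((if b = a then 0 else |H a b|) * (W a * ‖ψ a‖ ^ 2)) else 0) := fun a b => by
        split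
        · refine mul_nonneg hσ (mul_nonneg ?_ (mul_nonneg (hW0 a) (sq_nonneg _)))
          split
          · exact le_rfl
          · exact abs_nonneg _
        · exact le_rfl
      by_cases h0 : H x y = 0 ∨ W x = W y
      · have h00 : (W x - W y) * (H x y * (conj (ψ x) * ψ y).im) = 0 := by
          rcases h0 with h0 | h0
          · rw [h0]; ring
          · rw [h0]; ring
        rw [h00, abs_zero]; exact add_nonneg (hp x y) (hp y x)
      · push Not at h0
        obtain ⟨hx, hy, hxy⟩ := hW x y h0.1 h0.2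
        have hne : y ≠ x := fun h => h0.2 (by rw [h])
        rw [if_pos hx, if_pos hy, if_neg hne, if_neg hne.symm, hs y x, abs_mul, abs_mul]
        have h2 : |(conj (ψ x) * ψ y).im| ≤ ‖ψ x‖ * ‖ψ y‖ := by
          refine (Complex.abs_im_le_norm _).trans ?_
          rw [norm_mul, RCLike.norm_conj]
        have h3 : (Real.sqrt (W x) * ‖ψ x‖) * (Real.sqrt (W y) * ‖ψ y‖) ≤
            (W x * ‖ψ x‖ ^ 2 + W y * ‖ψ y‖ ^ 2) / 2 := by
          have e1 : (Real.sqrt (W x) * ‖ψ x‖) ^ 2 = W x * ‖ψ x‖ ^ 2 := by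
            rw [mul_pow, Real.sq_sqrt (hW0 x)]
          have e2 : (Real.sqrt (W y) * ‖ψ y‖) ^ 2 = W y * ‖ψ y‖ ^ 2 := by
            rw [mul_pow, Real.sq_sqrt (hW0 y)]
          nlinarith only [sq_nonneg (Real.sqrt (W x) * ‖ψ x‖ - Real.sqrt (W y) * ‖ψ y‖), e1, e2]
        calc |W x - W y| * (|H x y| * |(conj (ψ x) * ψ y).im|)
            ≤ 2 * σ * (Real.sqrt (W x) * Real.sqrt (W y)) * (|H x y| * (‖ψ x‖ * ‖ψ y‖)) :=
              mul_le_mul hxy (mul_le_mul_of_nonneg_left h2 (abs_nonneg _))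
                (mul_nonneg (abs_nonneg _) (abs_nonneg _)) (by positivity)
          _ = 2 * σ * |H x y| * ((Real.sqrt (W x) * ‖ψ x‖) * (Real.sqrt (W y) * ‖ψ y‖)) := by ring
          _ ≤ 2 * σ * |H x y| * ((W x * ‖ψ x‖ ^ 2 + W y * ‖ψ y‖ ^ 2) / 2) :=
              mul_le_mul_of_nonneg_left h3 (by positivity)
          _ = _ := by ring
  have h2 : ∑ x, ∑ y, (if x ∈ S then
      σ * ((if y = x then 0 else |H x y|) * (W x * ‖ψ x‖ ^ 2)) else 0) ≤
      1 / 2 * ∑ x ∈ S, W x * (κ x * ‖ψ x‖ ^ 2) := by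
    rw [← Finset.sum_filter_add_sum_filter_not Finset.univ (fun x => x ∈ S)]
    have h3 : ∑ x ∈ Finset.univ.filter (fun x => x ∉ S), ∑ y, (if x ∈ S then
        σ * ((if y = x then 0 else |H x y|) * (W x * ‖ψ x‖ ^ 2)) else 0) = 0 :=
      Finset.sum_eq_zero fun x hx => Finset.sum_eq_zero fun y _ =>
        if_neg (Finset.mem_filter.1 hx).2
    rw [h3, add_zero, Finset.mul_sum]
    have h4 : Finset.univ.filter (fun x => x ∈ S) = S := by ext; simp
    rw [h4]
    refine Finset.sum_le_sum fun x hx => ?_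
    have h5 : ∑ y, (if x ∈ S then
        σ * ((if y = x then 0 else |H x y|) * (W x * ‖ψ x‖ ^ 2)) else 0) =
        σ * (∑ y, (if y = x then 0 else |H x y|)) * (W x * ‖ψ x‖ ^ 2) := by
      rw [mul_assoc, Finset.sum_mul, Finset.mul_sum]
      exact Finset.sum_congr rfl fun y _ => if_pos hx
    rw [h5]
    have h6 : σ * (∑ y, (if y = x then 0 else |H x y|)) ≤ κ x / 2 :=
      (mul_le_mul_of_nonneg_left (hr x hx) hσ).trans (hc.trans (by linarith only [hk x hx]))
    have h7 : 0 ≤ W x * ‖ψ x‖ ^ 2 := mul_nonneg (hW0 x) (sq_nonneg _)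
    calc σ * (∑ y, (if y = x then 0 else |H x y|)) * (W x * ‖ψ x‖ ^ 2) ≤
        κ x / 2 * (W x * ‖ψ x‖ ^ 2) := mul_le_mul_of_nonneg_right h6 h7
      _ = _ := by ring
  unfold com
  rw [abs_mul, abs_of_pos (by norm_num : (0 : ℝ) < 1 / 2)]
  have h8 : |∑ x, ∑ y, (W x - W y) * (H x y * (conj (ψ x) * ψ y).im)| ≤
      ∑ x ∈ S, W x * (κ x * ‖ψ x‖ ^ 2) := by
    refine (Finset.abs_sum_le_sum_abs _ _).trans ?_
    refine (Finset.sum_le_sum fun x _ => Finset.abs_sum_le_sum_abs _ _).trans ?_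
    refine (Finset.sum_le_sum fun x _ => Finset.sum_le_sum fun y _ => h1 x y).trans ?_
    simp only [Finset.sum_add_distrib]
    have h9 : ∑ x, ∑ y, (if y ∈ S then
        σ * ((if x = y then 0 else |H y x|) * (W y * ‖ψ y‖ ^ 2)) else 0) =
        ∑ x, ∑ y, (if x ∈ S then
        σ * ((if y = x then 0 else |H x y|) * (W x * ‖ψ x‖ ^ 2)) else 0) := Finset.sum_comm
    rw [h9]
    linarith only [h2]
  linarith only [h8]

/-- the weight `exp (2 β φ)` -/
theorem exp_wt {H : Matrix X X ℝ} {φ : X → ℝ} {S : Finset X} {h₀ β : ℝ} (h : Plt H φ S h₀)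
    (hβ : 0 ≤ β) (x y : X) (hH : H x y ≠ 0)
    (hne : Real.exp (2 * β * φ x) ≠ Real.exp (2 * β * φ y)) :
    x ∈ S ∧ y ∈ S ∧ |Real.exp (2 * β * φ x) - Real.exp (2 * β * φ y)| ≤
      2 * Real.sinh β * (Real.sqrt (Real.exp (2 * β * φ x)) *
        Real.sqrt (Real.exp (2 * β * φ y))) := by
  have h1 : φ x ≠ φ y := fun h => hne (by rw [h])
  obtain ⟨hx, hy, hxy⟩ := h.lip x y hH h1
  refine ⟨hx, hy, ?_⟩
  have h2 : ∀ z, Real.sqrt (Real.exp (2 * β * φ z)) = Real.exp (β * φ z) := fun z => by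
    rw [show 2 * β * φ z = β * φ z + β * φ z by ring, Real.exp_add, Real.sqrt_mul_self
      (Real.exp_pos _).le]
  rw [h2, h2]
  have h3 : Real.exp (2 * β * φ x) - Real.exp (2 * β * φ y) =
      Real.exp (β * φ x) * Real.exp (β * φ y) * (2 * Real.sinh (β * (φ x - φ y))) := by
    have h4 : 2 * Real.sinh (β * (φ x - φ y)) =
        Real.exp (β * (φ x - φ y)) - Real.exp (-(β * (φ x - φ y))) := by
      rw [Real.sinh_eq]; ring
    rw [h4, mul_sub, ← Real.exp_add, ← Real.exp_add, ← Real.exp_add]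
    congr 2 <;> ring
  rw [h3, abs_mul, abs_of_pos (mul_pos (Real.exp_pos _) (Real.exp_pos _)), abs_mul,
    abs_of_pos (by norm_num : (0 : ℝ) < 2)]
  have h5 : |Real.sinh (β * (φ x - φ y))| ≤ Real.sinh β := by
    rw [Real.abs_sinh]
    apply Real.sinh_le_sinh.2
    rw [abs_mul, abs_of_nonneg hβ]
    nlinarith only [hβ, hxy]
  have h6 : 0 < Real.exp (β * φ x) * Real.exp (β * φ y) := by positivity
  nlinarith only [mul_le_mul_of_nonneg_left h5 h6.le]

/-- LVD: a field with its sources in `F` decays -/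
theorem sol_decay {H : Matrix X X ℝ} {κ : X → ℝ} (hN : Net H κ) {F S : Finset X} {φ : X → ℝ}
    {h₀ k₀ β : ℝ} (hP : Plt H φ S h₀) (hβ : 0 ≤ β) (hc : Real.sinh β * h₀ ≤ k₀ / 2)
    (hk : ∀ x ∈ S, k₀ ≤ κ x) (hF : ∀ x ∈ F, φ x = 0) (hSF : Disjoint S F) {ψ : X → ℂ}
    (hψ : Sol H κ F ψ) :
    ∑ z ∈ Fᶜ, κ z * (Real.exp (2 * β * φ z) * ‖ψ z‖ ^ 2) ≤ 2 * Q κ F ψ := by
  set W : X → ℝ := fun z => Real.exp (2 * β * φ z) with hW
  have h1 := wgreen H κ (fun z => W z - 1) hN.sym ψ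
  have h2 : ∑ x, ((W x - 1 : ℝ) : ℂ) * (conj (ψ x) * opv H κ ψ x) = 0 := by
    refine Finset.sum_eq_zero fun x _ => ?_
    by_cases hx : x ∈ F
    · have : W x = 1 := by simp only [hW]; rw [hF x hx]; simp
      rw [this]; simp
    · rw [hψ x hx]; simp
  have h3 : com H (fun z => W z - 1) ψ = com H W ψ := by
    unfold com
    congr 1
    refine Finset.sum_congr rfl fun x _ => Finset.sum_congr rfl fun y _ => ?_
    congr 1; ring
  rw [h2, h3, Complex.zero_im] at h1
  have hσ : 0 ≤ Real.sinh β := by rw [← Real.sinh_zero]; exact Real.sinh_le_sinh.2 hβ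
  have h4 := com_le (κ := κ) hN.sym (fun x => (Real.exp_pos (2 * β * φ x)).le) hσ
    (fun x y hH hne => exp_wt hP hβ x y hH hne) hP.row hk hc ψ
  have h5 : ∑ x ∈ S, W x * (κ x * ‖ψ x‖ ^ 2) ≤ ∑ x ∈ Fᶜ, W x * (κ x * ‖ψ x‖ ^ 2) := by
    refine Finset.sum_le_sum_of_subset_of_nonneg (fun x hx => ?_) fun x _ _ =>
      mul_nonneg (Real.exp_pos _).le (mul_nonneg (hN.pos x).le (sq_nonneg _))
    rw [Finset.mem_compl]
    exact Finset.disjoint_left.1 hSF hx
  have h6 : ∑ x, (W x - 1) * (κ x * ‖ψ x‖ ^ 2) =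
      ∑ x ∈ Fᶜ, W x * (κ x * ‖ψ x‖ ^ 2) - Q κ F ψ := by
    rw [← Finset.sum_add_sum_compl F]
    have h7 : ∑ x ∈ F, (W x - 1) * (κ x * ‖ψ x‖ ^ 2) = 0 := Finset.sum_eq_zero fun x hx => by
      have : W x = 1 := by simp only [hW]; rw [hF x hx]; simp
      rw [this]; ring
    rw [h7, zero_add]
    unfold Q
    rw [← Finset.sum_sub_distrib]
    exact Finset.sum_congr rfl fun x _ => by ring
  have h7 : |com H W ψ| ≤ 1 / 2 * ∑ x ∈ S, W x * (κ x * ‖ψ x‖ ^ 2) := h4
  have h8 := (abs_le.1 h7).2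
  have h9 : ∑ z ∈ Fᶜ, κ z * (Real.exp (2 * β * φ z) * ‖ψ z‖ ^ 2) =
      ∑ x ∈ Fᶜ, W x * (κ x * ‖ψ x‖ ^ 2) :=
    Finset.sum_congr rfl fun x _ => by simp only [hW]; ring
  rw [h9]
  linarith only [h1, h5, h6, h8]

/-- LVD: the leverages decay -/
theorem lev_decay {H : Matrix X X ℝ} {κ : X → ℝ} (hN : Net H κ) {F S : Finset X} {φ : X → ℝ}
    {h₀ k₀ β : ℝ} (hP : Plt H φ S h₀) (hβ : 0 ≤ β) (hc : Real.sinh β * h₀ ≤ k₀ / 2)
    (hk : ∀ x ∈ S, k₀ ≤ κ x) (hF : ∀ x ∈ F, φ x = 0) (hSF : Disjoint S F) {x : X} (hx : x ∉ F) :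
    Lev H κ F x (2 / κ x * Real.exp (-(2 * β * φ x))) := by
  intro ψ hψ
  have h1 := sol_decay hN hP hβ hc hk hF hSF hψ
  have h2 : κ x * (Real.exp (2 * β * φ x) * ‖ψ x‖ ^ 2) ≤ 2 * Q κ F ψ :=
    (Finset.single_le_sum (f := fun z => κ z * (Real.exp (2 * β * φ z) * ‖ψ z‖ ^ 2))
      (fun z _ => mul_nonneg (hN.pos z).le (mul_nonneg (Real.exp_pos _).le (sq_nonneg _)))
      (Finset.mem_compl.2 hx)).trans h1
  have hκ := hN.pos x
  have he := Real.exp_pos (2 * β * φ x)
  rw [Real.exp_neg]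
  have h3 : ‖ψ x‖ ^ 2 = (κ x)⁻¹ * (Real.exp (2 * β * φ x))⁻¹ *
      (κ x * (Real.exp (2 * β * φ x) * ‖ψ x‖ ^ 2)) := by field_simp
  rw [h3]
  calc (κ x)⁻¹ * (Real.exp (2 * β * φ x))⁻¹ * (κ x * (Real.exp (2 * β * φ x) * ‖ψ x‖ ^ 2)) ≤
      (κ x)⁻¹ * (Real.exp (2 * β * φ x))⁻¹ * (2 * Q κ F ψ) :=
        mul_le_mul_of_nonneg_left h2 (by positivity)
    _ = _ := by ring

end Pool.Agent.ANR.H89
end
end -- Pool.Agent.Helper89_FAR.Lev

section -- Pool.Agent.Helper92_ANR.LV1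

set_option autoImplicit false

open scoped BigOperators ComplexConjugate

noncomputable section

namespace Pool.Agent.ANR.H92

variable {X : Type} [Fintype X] [DecidableEq X]

theorem opv_sub (H : Matrix X X ℝ) (κ : X → ℝ) (a b : X → ℂ) (x : X) :
    opv H κ (fun z => a z - b z) x = opv H κ a x - opv H κ b x := by
  unfold opv
  simp only [mul_sub, Finset.sum_sub_distrib]
  ring

theorem opv_off {H H' : Matrix X X ℝ} {κ κ' : X → ℝ} {F : Finset X} (hO : Off H κ H' κ' F)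
    (a : X → ℂ) (x : X) (hx : x ∉ F) : opv H' κ' a x = opv H κ a x := by
  unfold opv
  rw [(hO x hx).1]
  congr 1
  exact Finset.sum_congr rfl fun y _ => by rw [(hO x hx).2 y]

theorem lv1 (hG : GrnStmt) (hD : DirStmt) (hQ : QsyStmt) : Lv1Stmt := by
  intro X _ _ H H' κ κ' F y L g g₀ hN hN' hO hy hL hLev hg hg0 hg0'
  set ψ : X → ℂ := fun z => g z - g₀ z with hψdef
  have hψF : ∀ b ∈ F, ψ b = g b := by
    intro b hb
    simp [hψdef, hg0 b hb]
  have hψS : Sol H κ F ψ := by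
    intro z hz
    have h1 : opv H κ ψ z = opv H κ g z - opv H κ g₀ z := opv_sub H κ g g₀ z
    rw [h1, hg0' z hz, ← opv_off hO g z hz, hg z, sub_self]
  -- the solution with conjugate sources
  obtain ⟨φ, ⟨hφF, hφS⟩, -⟩ := hD X H κ F hN (fun b => conj (g b)) (fun _ => 0)
  have hφS' : Sol H κ F φ := fun z hz => hφS z hz
  have hQQ : Q κ F φ = Q κ F ψ := hQ X H κ F hN φ ψ hφS' hψS
    (fun b hb => by rw [hφF b hb, hψF b hb])
  -- first Green identity
  have hG1 := (hG X H' κ' hN').1 φ g₀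
  have hR : ∑ x, g₀ x * opv H' κ' φ x = 0 := by
    refine Finset.sum_eq_zero fun x _ => ?_
    by_cases hx : x ∈ F
    · rw [hg0 x hx, zero_mul]
    · rw [opv_off hO φ x hx, hφS x hx, mul_zero]
  have hLsum : ∑ x, φ x * opv H' κ' g₀ x = ∑ b ∈ F, conj (g b) * opv H' κ' g₀ b + φ y := by
    rw [← Finset.sum_add_sum_compl F]
    congr 1
    · exact Finset.sum_congr rfl fun b hb => by rw [hφF b hb]
    · have : ∀ x ∈ Fᶜ, φ x * opv H' κ' g₀ x = if x = y then φ y else 0 := by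
        intro x hx
        have hx' : x ∉ F := Finset.mem_compl.1 hx
        rw [opv_off hO g₀ x hx', hg0' x hx']
        split_ifs with h
        · rw [h, mul_one]
        · rw [mul_zero]
      rw [Finset.sum_congr rfl this, Finset.sum_ite_eq', if_pos (Finset.mem_compl.2 hy)]
  have hS : ∑ b ∈ F, conj (g b) * opv H' κ' g₀ b = - φ y := by
    have : ∑ b ∈ F, conj (g b) * opv H' κ' g₀ b + φ y = 0 := by
      rw [← hLsum, hG1, hR]
    exact eq_neg_of_add_eq_zero_left this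
  -- second Green identity
  have hG2 := (hG X H' κ' hN').2 ψ
  have hLs2 : ∑ x, conj (ψ x) * opv H' κ' ψ x = φ y := by
    rw [← Finset.sum_add_sum_compl F]
    have h1 : ∑ x ∈ Fᶜ, conj (ψ x) * opv H' κ' ψ x = 0 := by
      refine Finset.sum_eq_zero fun x hx => ?_
      have hx' : x ∉ F := Finset.mem_compl.1 hx
      rw [opv_off hO ψ x hx', hψS x hx', mul_zero]
    have h2 : ∀ b ∈ F, conj (ψ b) * opv H' κ' ψ b = - (conj (g b) * opv H' κ' g₀ b) := by
      intro b hb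
      have h3 : opv H' κ' ψ b = opv H' κ' g b - opv H' κ' g₀ b := opv_sub H' κ' g g₀ b
      have hby : b ≠ y := fun h => hy (h ▸ hb)
      rw [h3, hg b, if_neg hby, hψF b hb]
      ring
    rw [h1, add_zero, Finset.sum_congr rfl h2, Finset.sum_neg_distrib, hS, neg_neg]
  have hRs2 : ∑ x, κ' x * ‖ψ x‖ ^ 2 = ∑ b ∈ F, κ' b * ‖g b‖ ^ 2 + Q κ F ψ := by
    rw [← Finset.sum_add_sum_compl F]
    congr 1
    · exact Finset.sum_congr rfl fun b hb => by rw [hψF b hb]
    · unfold Q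
      exact Finset.sum_congr rfl fun x hx => by rw [(hO x (Finset.mem_compl.1 hx)).1]
  rw [hLs2, hRs2] at hG2
  have ht : ‖φ y‖ ^ 2 ≤ L * Q κ F ψ := by
    rw [← hQQ]
    exact hLev φ hφS'
  have hs0 : 0 ≤ ∑ b ∈ F, κ' b * ‖g b‖ ^ 2 :=
    Finset.sum_nonneg fun b _ => mul_nonneg (hN'.pos b).le (sq_nonneg _)
  have hq0 : 0 ≤ Q κ F ψ :=
    Finset.sum_nonneg fun b _ => mul_nonneg (hN.pos b).le (sq_nonneg _)
  have him : |(φ y).im| ≤ ‖φ y‖ := Complex.abs_im_le_norm _
  have him2 : -(φ y).im ≤ ‖φ y‖ := le_trans (neg_le_abs _) him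
  set q := Q κ F ψ
  set s := ∑ b ∈ F, κ' b * ‖g b‖ ^ 2
  set t := ‖φ y‖
  have hqs : q + s ≤ t := by linarith
  have hsq : (q + s) ^ 2 ≤ L * (q + s) := by
    have h0 : 0 ≤ q + s := add_nonneg hq0 hs0
    have h1 : (q + s) ^ 2 ≤ t ^ 2 := by gcongr
    have h2 : L * q ≤ L * (q + s) := by
      apply mul_le_mul_of_nonneg_left _ hL
      linarith
    linarith
  have hfin : q + s ≤ L := by
    rcases (add_nonneg hq0 hs0).eq_or_lt with h | h
    · rw [← h]; exact hL
    · have : (q + s) * (q + s) ≤ L * (q + s) := by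
        rw [← sq]; exact hsq
      exact le_of_mul_le_mul_right this h
  exact ⟨by linarith, by linarith⟩

end Pool.Agent.ANR.H92
end
end -- Pool.Agent.Helper92_ANR.LV1

section -- Pool.Agent.Helper89_FAR.Far

/-!
# FAR: a block update seen from far away, for every noise

`G = Gr H κ`, `G' = Gr H' κ'`, the rows of `H`, `κ` change at the sites of `F` only, arbitrarily. `φ` is a
plateau function which vanishes on `F` and across the bonds which touch `F`.
-/

set_option autoImplicit false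

open scoped BigOperators ComplexConjugate

noncomputable section

namespace Pool.Agent.ANR.H89

open Pool.Agent.ANR

theorem hGrn : GrnStmt := H63.grn
theorem hDir : DirStmt := H77.dir hGrn
theorem hGeq : GeqStmt := H72.geq hDir hGrn
theorem hLv1 : Lv1Stmt := H92.lv1 hGrn hDir (H31.qsy hGrn)
theorem hLv2 : Lv2Stmt := H17.lv2 hLv1 hDir hGeq

variable {X : Type} [Fintype X] [DecidableEq X]

/-- WWD: the weighted Ward identity -/
theorem wwd {H : Matrix X X ℝ} {κ : X → ℝ} (hN : Net H κ) {S : Finset X} {φ : X → ℝ}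
    {h₀ k₀ β : ℝ} (hP : Plt H φ S h₀) (hβ : 0 ≤ β) (hc : Real.sinh β * h₀ ≤ k₀ / 2)
    (hk : ∀ x ∈ S, k₀ ≤ κ x) {a : X} (ha : φ a = 0) :
    ∑ b, κ b * (Real.exp (2 * β * φ b) * ‖Gr H κ a b‖ ^ 2) ≤ 2 * (Gr H κ a a).im := by
  obtain ⟨g1, g2, g3, g4, g5⟩ := hGeq X H κ hN
  set ψ : X → ℂ := fun z => Gr H κ z a with hψ
  set W : X → ℝ := fun z => Real.exp (2 * β * φ z) with hW
  have h1 := wgreen H κ W hN.sym ψ
  have h2 : ∑ x, ((W x : ℝ) : ℂ) * (conj (ψ x) * opv H κ ψ x) = conj (Gr H κ a a) := by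
    rw [Finset.sum_eq_single a]
    · rw [g1 a a, if_pos rfl, hψ]
      have : W a = 1 := by simp only [hW]; rw [ha]; simp
      rw [this]; simp
    · intro x _ hx
      rw [g1 x a, if_neg hx]; simp
    · intro h; exact absurd (Finset.mem_univ a) h
  rw [h2, Complex.conj_im] at h1
  have hσ : 0 ≤ Real.sinh β := by rw [← Real.sinh_zero]; exact Real.sinh_le_sinh.2 hβ
  have h4 := com_le (κ := κ) hN.sym (fun x => (Real.exp_pos (2 * β * φ x)).le) hσ
    (fun x y hH hne => exp_wt hP hβ x y hH hne) hP.row hk hc ψ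
  have h5 : ∑ x ∈ S, W x * (κ x * ‖ψ x‖ ^ 2) ≤ ∑ x, W x * (κ x * ‖ψ x‖ ^ 2) :=
    Finset.sum_le_sum_of_subset_of_nonneg (Finset.subset_univ _) fun x _ _ =>
      mul_nonneg (Real.exp_pos _).le (mul_nonneg (hN.pos x).le (sq_nonneg _))
  have h6 : |com H W ψ| ≤ 1 / 2 * ∑ x ∈ S, W x * (κ x * ‖ψ x‖ ^ 2) := h4
  have h7 := (abs_le.1 h6).2
  have h8 : ∑ b, κ b * (Real.exp (2 * β * φ b) * ‖Gr H κ a b‖ ^ 2) =
      ∑ x, W x * (κ x * ‖ψ x‖ ^ 2) :=
    Finset.sum_congr rfl fun x _ => by simp only [hW, hψ]; rw [g2 a x]; ring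
  rw [h8]
  linarith

/-- the plateau function centered at another site -/
theorem Plt.center {H : Matrix X X ℝ} {φ : X → ℝ} {S : Finset X} {h₀ : ℝ} (h : Plt H φ S h₀)
    (a : X) : Plt H (fun x => |φ x - φ a|) S h₀ where
  nn := fun x => abs_nonneg _
  lip := fun x y hH hne => by
    have h1 : φ x ≠ φ y := fun h => hne (by rw [h])
    obtain ⟨hx, hy, hxy⟩ := h.lip x y hH h1
    refine ⟨hx, hy, le_trans ?_ hxy⟩
    have h2 := abs_abs_sub_abs_le_abs_sub (φ x - φ a) (φ y - φ a)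
    have h3 : φ x - φ a - (φ y - φ a) = φ x - φ y := by ring
    rwa [h3] at h2
  row := h.row

/-- a change at the sites of `F` only -/
structure Upd (H H' : Matrix X X ℝ) (κ κ' φ : X → ℝ) (F A S : Finset X) (h₀ k₀ β : ℝ) : Prop where
  n : Net H κ
  n' : Net H' κ'
  off : Off H κ H' κ' F
  plt : Plt H φ S h₀
  hβ : 0 ≤ β
  hc : Real.sinh β * h₀ ≤ k₀ / 2
  hk₀ : 0 < k₀
  hF : ∀ x ∈ F, φ x = 0
  hSF : Disjoint S F
  hkS : ∀ x ∈ S, k₀ ≤ κ x
  hA : ∀ x ∈ A, k₀ ≤ κ x ∧ k₀ ≤ κ' x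

namespace Upd

variable {H H' : Matrix X X ℝ} {κ κ' φ : X → ℝ} {F A S : Finset X} {h₀ k₀ β : ℝ}

/-- the leverage of a site off `F` -/
theorem lev (h : Upd H H' κ κ' φ F A S h₀ k₀ β) {x : X} (hx : x ∉ F) :
    Lev H κ F x (2 / κ x * Real.exp (-(2 * β * φ x))) :=
  lev_decay h.n h.plt h.hβ h.hc h.hkS h.hF h.hSF hx

/-- the plateau function for the new network -/
theorem plt' (h : Upd H H' κ κ' φ F A S h₀ k₀ β) : Plt H' φ S h₀ where
  nn := h.plt.nn
  lip := fun x y hH hne => by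
    by_cases hx : x ∈ F
    · by_cases hy : y ∈ F
      · exact absurd (by rw [h.hF x hx, h.hF y hy]) hne
      · have h1 : H' x y = H x y := by rw [h.n'.sym, (h.off y hy).2 x, h.n.sym]
        exact h.plt.lip x y (by rwa [h1] at hH) hne
    · have h1 : H' x y = H x y := (h.off x hx).2 y
      exact h.plt.lip x y (by rwa [h1] at hH) hne
  row := fun x hx => by
    have hxF : x ∉ F := Finset.disjoint_left.1 h.hSF hx
    refine le_trans (le_of_eq ?_) (h.plt.row x hx)
    exact Finset.sum_congr rfl fun y _ => by rw [(h.off x hxF).2 y]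

theorem hkS' (h : Upd H H' κ κ' φ F A S h₀ k₀ β) : ∀ x ∈ S, k₀ ≤ κ' x := fun x hx => by
  rw [(h.off x (Finset.disjoint_left.1 h.hSF hx)).1]; exact h.hkS x hx

/-- WWD for the new network, centered at `a` -/
theorem ww' (h : Upd H H' κ κ' φ F A S h₀ k₀ β) (a : X) :
    ∑ b, κ' b * (Real.exp (2 * β * |φ b - φ a|) * ‖Gr H' κ' a b‖ ^ 2) ≤
      2 * (Gr H' κ' a a).im :=
  wwd h.n' (h.plt'.center a) h.hβ h.hc h.hkS' (by simp)

/-- WWD for the old network, centered at `a` -/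
theorem ww (h : Upd H H' κ κ' φ F A S h₀ k₀ β) (a : X) :
    ∑ b, κ b * (Real.exp (2 * β * |φ b - φ a|) * ‖Gr H κ a b‖ ^ 2) ≤ 2 * (Gr H κ a a).im :=
  wwd h.n (h.plt.center a) h.hβ h.hc h.hkS (by simp)

/-- the fluxes into `F` and the mass of the change, for every site off `F` -/
theorem mass (h : Upd H H' κ κ' φ F A S h₀ k₀ β) {x : X} (hx : x ∉ F) :
    ∑ z ∈ Fᶜ, κ z * ‖Gr H κ z x - Gr H' κ' z x‖ ^ 2 ≤ 8 / κ x * Real.exp (-(2 * β * φ x)) ∧
    ∑ b ∈ F, κ b * ‖Gr H κ b x‖ ^ 2 ≤ 2 / κ x * Real.exp (-(2 * β * φ x)) ∧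
    ∑ b ∈ F, κ' b * ‖Gr H' κ' b x‖ ^ 2 ≤ 2 / κ x * Real.exp (-(2 * β * φ x)) := by
  have hL : 0 ≤ 2 / κ x * Real.exp (-(2 * β * φ x)) :=
    mul_nonneg (div_nonneg (by norm_num) (h.n.pos x).le) (Real.exp_pos _).le
  obtain ⟨_, h2, h3, h4⟩ := hLv2 X H H' κ κ' F x x _ _ h.n h.n' h.off hx hx hL hL (h.lev hx)
    (h.lev hx)
  refine ⟨h2.trans (le_of_eq (by ring)), h3, h4⟩

/-- the entries, both sites off `F`, sharp constants -/
theorem ent_off (h : Upd H H' κ κ' φ F A S h₀ k₀ β) {x y : X} (hx : x ∉ F) (hy : y ∉ F) :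
    κ x * κ y * ‖Gr H κ x y - Gr H' κ' x y‖ ^ 2 ≤ (4 * Real.exp (-(β * (φ x + φ y)))) ^ 2 := by
  have hL : ∀ z, 0 ≤ 2 / κ z * Real.exp (-(2 * β * φ z)) := fun z =>
    mul_nonneg (div_nonneg (by norm_num) (h.n.pos z).le) (Real.exp_pos _).le
  obtain ⟨h1, _⟩ := hLv2 X H H' κ κ' F x y _ _ h.n h.n' h.off hx hy (hL x) (hL y) (h.lev hx)
    (h.lev hy)
  have hκx := h.n.pos x
  have hκy := h.n.pos y
  calc κ x * κ y * ‖Gr H κ x y - Gr H' κ' x y‖ ^ 2 ≤
      κ x * κ y * (4 * (2 / κ x * Real.exp (-(2 * β * φ x))) *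
        (2 / κ y * Real.exp (-(2 * β * φ y)))) :=
        mul_le_mul_of_nonneg_left h1 (mul_pos hκx hκy).le
    _ = 16 * (Real.exp (-(2 * β * φ x)) * Real.exp (-(2 * β * φ y))) := by
        field_simp; norm_num
    _ = _ := by
        rw [mul_pow, ← Real.exp_add, ← Real.exp_nat_mul]
        congr 1
        · norm_num
        · congr 1; push_cast; ring

/-- FAR, entries -/
theorem ent (h : Upd H H' κ κ' φ F A S h₀ k₀ β) {x y : X} (hx : x ∈ A) (hy : y ∈ A)
    (hxy : ¬ (x ∈ F ∧ y ∈ F)) :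
    ‖Gr H' κ' x y - Gr H κ x y‖ ≤ 4 / k₀ * Real.exp (-(β * (φ x + φ y))) := by
  have hk := h.hk₀
  -- one site in `F`
  have key : ∀ u v, u ∈ F → u ∈ A → v ∉ F → v ∈ A → ‖Gr H' κ' u v - Gr H κ u v‖ ≤
      4 / k₀ * Real.exp (-(β * (φ u + φ v))) := fun u v hu huA' hv hvA => by
    obtain ⟨_, h2, h3⟩ := h.mass hv
    have huA := h.hA u huA'
    have hvA' := h.hA v hvA
    have e1 : ∀ (k : ℝ) (z : ℂ), k₀ ≤ k → k * ‖z‖ ^ 2 ≤ 2 / κ v * Real.exp (-(2 * β * φ v)) →
        ‖z‖ ≤ 2 / k₀ * Real.exp (-(β * φ v)) := fun k z hkk hz => by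
      have e2 : k₀ * ‖z‖ ^ 2 ≤ 2 / k₀ * Real.exp (-(2 * β * φ v)) := by
        refine (mul_le_mul_of_nonneg_right hkk (sq_nonneg _)).trans (hz.trans ?_)
        refine mul_le_mul_of_nonneg_right ?_ (Real.exp_pos _).le
        exact div_le_div_of_nonneg_left (by norm_num) hk hvA'.1
      have e3 : ‖z‖ ^ 2 ≤ (2 / k₀ * Real.exp (-(β * φ v))) ^ 2 := by
        have e4 : (2 / k₀ * Real.exp (-(β * φ v))) ^ 2 = 4 / k₀ ^ 2 * Real.exp (-(2 * β * φ v)) := by
          rw [mul_pow, ← Real.exp_nat_mul, div_pow]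
          congr 1
          · norm_num
          · congr 1; push_cast; ring
        rw [e4]
        have e5 : ‖z‖ ^ 2 = 1 / k₀ * (k₀ * ‖z‖ ^ 2) := by field_simp
        rw [e5]
        calc 1 / k₀ * (k₀ * ‖z‖ ^ 2) ≤ 1 / k₀ * (2 / k₀ * Real.exp (-(2 * β * φ v))) :=
              mul_le_mul_of_nonneg_left e2 (by positivity)
          _ = 2 / k₀ ^ 2 * Real.exp (-(2 * β * φ v)) := by field_simp
          _ ≤ _ := by
              refine mul_le_mul_of_nonneg_right ?_ (Real.exp_pos _).le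
              exact div_le_div_of_nonneg_right (by norm_num) (by positivity)
      exact (pow_le_pow_iff_left₀ (norm_nonneg _) (by positivity) (by norm_num)).1 e3
    have e6 := e1 (κ u) (Gr H κ u v) huA.1 ((Finset.single_le_sum
      (f := fun b => κ b * ‖Gr H κ b v‖ ^ 2)
      (fun b _ => mul_nonneg (h.n.pos b).le (sq_nonneg _)) hu).trans h2)
    have e7 := e1 (κ' u) (Gr H' κ' u v) huA.2 ((Finset.single_le_sum
      (f := fun b => κ' b * ‖Gr H' κ' b v‖ ^ 2)
      (fun b _ => mul_nonneg (h.n'.pos b).le (sq_nonneg _)) hu).trans h3)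
    refine (norm_sub_le _ _).trans ?_
    rw [h.hF u hu, zero_add]
    have : 4 / k₀ * Real.exp (-(β * φ v)) = 2 / k₀ * Real.exp (-(β * φ v)) +
      2 / k₀ * Real.exp (-(β * φ v)) := by ring
    rw [this]
    exact add_le_add e7 e6
  by_cases hxF : x ∈ F
  · have hyF : y ∉ F := fun hyF => hxy ⟨hxF, hyF⟩
    exact key x y hxF hx hyF hy
  · by_cases hyF : y ∈ F
    · have := key y x hyF hy hxF hx
      rw [(hGeq X H κ h.n).2.1 x y, (hGeq X H' κ' h.n').2.1 x y, add_comm (φ x)]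
      exact this
    · have h1 := h.ent_off hxF hyF
      have hx' := (h.hA x hx).1
      have hy' := (h.hA y hy).1
      have h2 : (k₀ * ‖Gr H' κ' x y - Gr H κ x y‖) ^ 2 ≤
          (4 * Real.exp (-(β * (φ x + φ y)))) ^ 2 := by
        refine le_trans ?_ h1
        rw [mul_pow, norm_sub_rev]
        refine mul_le_mul_of_nonneg_right ?_ (sq_nonneg _)
        rw [sq]; exact mul_le_mul hx' hy' hk.le (h.n.pos x).le
      have h3 := (pow_le_pow_iff_left₀ (by positivity) (by positivity) (by norm_num)).1 h2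
      have h4 : ‖Gr H' κ' x y - Gr H κ x y‖ = 1 / k₀ * (k₀ * ‖Gr H' κ' x y - Gr H κ x y‖) := by
        field_simp
      rw [h4]
      calc 1 / k₀ * (k₀ * ‖Gr H' κ' x y - Gr H κ x y‖) ≤
          1 / k₀ * (4 * Real.exp (-(β * (φ x + φ y)))) :=
            mul_le_mul_of_nonneg_left h3 (by positivity)
        _ = _ := by ring

end Upd

end Pool.Agent.ANR.H89
end
end -- Pool.Agent.Helper89_FAR.Far

section -- Pool.Agent.Helper89_FAR.Far2

/-!
# FAR, part 2: the total mass of the change, fourth powers, conductances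
-/

set_option autoImplicit false

open scoped BigOperators ComplexConjugate

noncomputable section

namespace Pool.Agent.ANR.H89

open Pool.Agent.ANR

variable {X : Type} [Fintype X] [DecidableEq X]

/-- entries of a network -/
theorem ent_le {H : Matrix X X ℝ} {κ : X → ℝ} (hN : Net H κ) {k₀ : ℝ} (hk : 0 < k₀) {x y : X}
    (hx : k₀ ≤ κ x) (hy : k₀ ≤ κ y) : ‖Gr H κ x y‖ ≤ 1 / k₀ := by
  have h1 := (hGeq X H κ hN).2.2.2.2 x y
  have h2 : (k₀ * ‖Gr H κ x y‖) ^ 2 ≤ 1 ^ 2 := by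
    rw [one_pow]
    refine le_trans ?_ h1
    rw [mul_pow, sq k₀]
    exact mul_le_mul_of_nonneg_right (mul_le_mul hx hy hk.le (hN.pos x).le) (sq_nonneg _)
  have h3 := (pow_le_pow_iff_left₀ (mul_nonneg hk.le (norm_nonneg _)) zero_le_one (by norm_num)).1 h2
  rw [le_div_iff₀ hk, mul_comm]; exact h3

theorem ward {H : Matrix X X ℝ} {κ : X → ℝ} (hN : Net H κ) (x : X) :
    ∑ y, κ y * ‖Gr H κ x y‖ ^ 2 = (Gr H κ x x).im := by
  rw [← (hGeq X H κ hN).2.2.1 x]
  exact Finset.sum_congr rfl fun y _ => by rw [(hGeq X H κ hN).2.1 x y]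

theorem im_le {H : Matrix X X ℝ} {κ : X → ℝ} (hN : Net H κ) {k₀ : ℝ} (hk : 0 < k₀) {x : X}
    (hx : k₀ ≤ κ x) : (Gr H κ x x).im ≤ 1 / k₀ := by
  have h1 := (hGeq X H κ hN).2.2.2.1 x
  have h2 : (Gr H κ x x).im ≤ ‖Gr H κ x x‖ := (le_abs_self _).trans (Complex.abs_im_le_norm _)
  rw [le_div_iff₀ hk]
  nlinarith [norm_nonneg (Gr H κ x x), hN.pos x]

namespace Upd

variable {H H' : Matrix X X ℝ} {κ κ' φ : X → ℝ} {F A S : Finset X} {h₀ k₀ β : ℝ}

/-- FAR, the total mass of the change (the absorption at `F` at most doubles the other way) -/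
theorem mass_all (h : Upd H H' κ κ' φ F A S h₀ k₀ β) (hkk : ∀ x ∈ F, κ x ≤ 2 * κ' x) {x : X}
    (hx : x ∉ F) :
    ∑ z, κ z * ‖Gr H' κ' x z - Gr H κ x z‖ ^ 2 ≤ 20 / κ x * Real.exp (-(2 * β * φ x)) := by
  obtain ⟨h1, h2, h3⟩ := h.mass hx
  rw [← Finset.sum_add_sum_compl F]
  have hsG := (hGeq X H κ h.n).2.1
  have hsG' := (hGeq X H' κ' h.n').2.1
  have h4 : ∑ z ∈ F, κ z * ‖Gr H' κ' x z - Gr H κ x z‖ ^ 2 ≤
      4 * (2 / κ x * Real.exp (-(2 * β * φ x))) + 2 * (2 / κ x * Real.exp (-(2 * β * φ x))) := by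
    refine le_trans ?_ (add_le_add (mul_le_mul_of_nonneg_left h3 (by norm_num : (0 : ℝ) ≤ 4))
      (mul_le_mul_of_nonneg_left h2 (by norm_num : (0 : ℝ) ≤ 2)))
    rw [Finset.mul_sum, Finset.mul_sum, ← Finset.sum_add_distrib]
    refine Finset.sum_le_sum fun z hz => ?_
    rw [hsG x z, hsG' x z]
    have h5 := H17.sq_norm_sub_le (Gr H' κ' z x) (Gr H κ z x)
    have h6 := hkk z hz
    nlinarith only [sq_nonneg ‖Gr H' κ' z x‖, mul_le_mul_of_nonneg_left h5 (h.n.pos z).le,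
      mul_le_mul_of_nonneg_right h6 (sq_nonneg ‖Gr H' κ' z x‖)]
  have h5 : ∑ z ∈ Fᶜ, κ z * ‖Gr H' κ' x z - Gr H κ x z‖ ^ 2 ≤
      8 / κ x * Real.exp (-(2 * β * φ x)) := by
    refine le_trans (le_of_eq ?_) h1
    refine Finset.sum_congr rfl fun z _ => ?_
    rw [hsG x z, hsG' x z, norm_sub_rev]
  have h6 : 20 / κ x * Real.exp (-(2 * β * φ x)) = 4 * (2 / κ x * Real.exp (-(2 * β * φ x))) +
      2 * (2 / κ x * Real.exp (-(2 * β * φ x))) + 8 / κ x * Real.exp (-(2 * β * φ x)) := by ring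
  rw [h6]
  linarith only [h4, h5]

/-- FAR, fourth powers -/
theorem lar (h : Upd H H' κ κ' φ F A S h₀ k₀ β) {R : Finset X} (hR : R ⊆ A) {x : X} (hx : x ∈ A)
    (hxF : x ∉ F) :
    |∑ y ∈ R, ‖Gr H' κ' x y‖ ^ 4 - ∑ y ∈ R, ‖Gr H κ x y‖ ^ 4| ≤
      16 / k₀ ^ 4 * Real.exp (-(β * φ x)) := by
  have hk := h.hk₀
  rw [← Finset.sum_sub_distrib]
  have h1 : ∀ y ∈ R, |‖Gr H' κ' x y‖ ^ 4 - ‖Gr H κ x y‖ ^ 4| ≤
      8 / k₀ ^ 3 * Real.exp (-(β * φ x)) * (κ' y * ‖Gr H' κ' x y‖ ^ 2 + κ y * ‖Gr H κ x y‖ ^ 2) :=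
    fun y hy => by
      have hyA := hR hy
      have e1 := h.ent hx hyA (fun hh => hxF hh.1)
      have e2 := ent_le h.n' hk (h.hA x hx).2 (h.hA y hyA).2
      have e3 := ent_le h.n hk (h.hA x hx).1 (h.hA y hyA).1
      set a := ‖Gr H' κ' x y‖ with ha
      set b := ‖Gr H κ x y‖ with hb
      have ha0 : 0 ≤ a := norm_nonneg _
      have hb0 : 0 ≤ b := norm_nonneg _
      have e4 : |a - b| ≤ 4 / k₀ * Real.exp (-(β * φ x)) := by
        refine (abs_norm_sub_norm_le _ _).trans (e1.trans ?_)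
        refine mul_le_mul_of_nonneg_left (Real.exp_le_exp.2 ?_) (by positivity)
        nlinarith only [h.plt.nn y, h.hβ, mul_nonneg h.hβ (h.plt.nn y)]
      have e5 : a ^ 4 - b ^ 4 = (a - b) * ((a + b) * (a ^ 2 + b ^ 2)) := by ring
      rw [e5, abs_mul, abs_of_nonneg (by positivity : 0 ≤ (a + b) * (a ^ 2 + b ^ 2))]
      have e6 : (a + b) * (a ^ 2 + b ^ 2) ≤ 2 / k₀ * (1 / k₀ * (κ' y * a ^ 2 + κ y * b ^ 2)) := by
        have e7 : a + b ≤ 2 / k₀ := by
          have : 2 / k₀ = 1 / k₀ + 1 / k₀ := by ring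
          rw [this]; exact add_le_add e2 e3
        have e8 : a ^ 2 + b ^ 2 ≤ 1 / k₀ * (κ' y * a ^ 2 + κ y * b ^ 2) := by
          rw [one_div, ← div_eq_inv_mul, le_div_iff₀ hk]
          nlinarith only [mul_le_mul_of_nonneg_right (h.hA y hyA).2 (sq_nonneg a),
            mul_le_mul_of_nonneg_right (h.hA y hyA).1 (sq_nonneg b)]
        exact mul_le_mul e7 e8 (by positivity) (by positivity)
      calc |a - b| * ((a + b) * (a ^ 2 + b ^ 2)) ≤
          4 / k₀ * Real.exp (-(β * φ x)) * (2 / k₀ * (1 / k₀ * (κ' y * a ^ 2 + κ y * b ^ 2))) :=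
            mul_le_mul e4 e6 (by positivity) (by positivity)
        _ = _ := by field_simp; ring
  have h2 : ∑ y ∈ R, (κ' y * ‖Gr H' κ' x y‖ ^ 2 + κ y * ‖Gr H κ x y‖ ^ 2) ≤ 2 / k₀ := by
    rw [Finset.sum_add_distrib]
    have e1 : ∑ y ∈ R, κ' y * ‖Gr H' κ' x y‖ ^ 2 ≤ 1 / k₀ := by
      refine (Finset.sum_le_univ_sum_of_nonneg fun y =>
        mul_nonneg (h.n'.pos y).le (sq_nonneg _)).trans ?_
      rw [ward h.n']; exact im_le h.n' hk (h.hA x hx).2
    have e2 : ∑ y ∈ R, κ y * ‖Gr H κ x y‖ ^ 2 ≤ 1 / k₀ := by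
      refine (Finset.sum_le_univ_sum_of_nonneg fun y =>
        mul_nonneg (h.n.pos y).le (sq_nonneg _)).trans ?_
      rw [ward h.n]; exact im_le h.n hk (h.hA x hx).1
    have : 2 / k₀ = 1 / k₀ + 1 / k₀ := by ring
    rw [this]; exact add_le_add e1 e2
  refine (Finset.abs_sum_le_sum_abs _ _).trans ((Finset.sum_le_sum h1).trans ?_)
  rw [← Finset.mul_sum]
  refine (mul_le_mul_of_nonneg_left h2 (by positivity)).trans (le_of_eq ?_)
  field_simp; norm_num

/-- FAR, the increments of the conductances -/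
theorem cond (h : Upd H H' κ κ' φ F A S h₀ k₀ β) {x y : X} (hxy : ¬ (x ∈ F ∧ y ∈ F)) :
    |κ' x * κ' y * ‖Gr H' κ' x y‖ ^ 2 - κ x * κ y * ‖Gr H κ x y‖ ^ 2| ≤
      8 * Real.exp (-(β * (φ x + φ y))) := by
  have hsG := (hGeq X H κ h.n).2.1
  have hsG' := (hGeq X H' κ' h.n').2.1
  have key : ∀ u v, u ∈ F → v ∉ F →
      |κ' u * κ' v * ‖Gr H' κ' u v‖ ^ 2 - κ u * κ v * ‖Gr H κ u v‖ ^ 2| ≤
      8 * Real.exp (-(β * (φ u + φ v))) := fun u v hu hv => by
    obtain ⟨_, h2, h3⟩ := h.mass hv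
    have hκv := h.n.pos v
    have e2 : κ u * ‖Gr H κ u v‖ ^ 2 ≤ 2 / κ v * Real.exp (-(2 * β * φ v)) :=
      (Finset.single_le_sum (f := fun b => κ b * ‖Gr H κ b v‖ ^ 2)
        (fun b _ => mul_nonneg (h.n.pos b).le (sq_nonneg _)) hu).trans h2
    have e3 : κ' u * ‖Gr H' κ' u v‖ ^ 2 ≤ 2 / κ v * Real.exp (-(2 * β * φ v)) :=
      (Finset.single_le_sum (f := fun b => κ' b * ‖Gr H' κ' b v‖ ^ 2)
        (fun b _ => mul_nonneg (h.n'.pos b).le (sq_nonneg _)) hu).trans h3
    have hv' : κ' v = κ v := (h.off v hv).1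
    have e4 : κ v * (2 / κ v * Real.exp (-(2 * β * φ v))) = 2 * Real.exp (-(2 * β * φ v)) := by
      field_simp
    have e5 : κ u * κ v * ‖Gr H κ u v‖ ^ 2 ≤ 2 * Real.exp (-(2 * β * φ v)) := by
      rw [← e4]; nlinarith only [mul_le_mul_of_nonneg_left e2 hκv.le]
    have e6 : κ' u * κ' v * ‖Gr H' κ' u v‖ ^ 2 ≤ 2 * Real.exp (-(2 * β * φ v)) := by
      rw [← e4, hv']; nlinarith only [mul_le_mul_of_nonneg_left e3 hκv.le]
    have e7 : 0 ≤ κ u * κ v * ‖Gr H κ u v‖ ^ 2 :=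
      mul_nonneg (mul_pos (h.n.pos u) hκv).le (sq_nonneg _)
    have e8 : 0 ≤ κ' u * κ' v * ‖Gr H' κ' u v‖ ^ 2 :=
      mul_nonneg (mul_pos (h.n'.pos u) (h.n'.pos v)).le (sq_nonneg _)
    have e9 : Real.exp (-(2 * β * φ v)) ≤ Real.exp (-(β * (φ u + φ v))) := by
      rw [h.hF u hu]
      apply Real.exp_le_exp.2
      nlinarith only [mul_nonneg h.hβ (h.plt.nn v)]
    rw [abs_le]
    have e10 := (Real.exp_pos (-(β * (φ u + φ v)))).le
    constructor <;> linarith
  by_cases hxF : x ∈ F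
  · exact key x y hxF fun hyF => hxy ⟨hxF, hyF⟩
  · by_cases hyF : y ∈ F
    · have := key y x hyF hxF
      rw [hsG x y, hsG' x y, add_comm (φ x), mul_comm (κ' x), mul_comm (κ x)]
      exact this
    · rw [(h.off x hxF).1, (h.off y hyF).1, ← mul_sub, abs_mul,
        abs_of_pos (mul_pos (h.n.pos x) (h.n.pos y))]
      have h1 := h.ent_off hxF hyF
      set k := κ x * κ y with hk
      have hk0 : 0 < k := mul_pos (h.n.pos x) (h.n.pos y)
      set q := Real.sqrt k with hq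
      have hq2 : q ^ 2 = k := Real.sq_sqrt hk0.le
      have hq0 : 0 ≤ q := Real.sqrt_nonneg _
      set a := ‖Gr H' κ' x y‖ with ha
      set b := ‖Gr H κ x y‖ with hb
      have ha0 : 0 ≤ a := norm_nonneg _
      have hb0 : 0 ≤ b := norm_nonneg _
      have g5 := (hGeq X H κ h.n).2.2.2.2 x y
      have g5' := (hGeq X H' κ' h.n').2.2.2.2 x y
      rw [(h.off x hxF).1, (h.off y hyF).1] at g5'
      have e1 : q * a ≤ 1 := by
        refine (pow_le_pow_iff_left₀ (mul_nonneg hq0 ha0) zero_le_one (by norm_num : (2 : ℕ) ≠ 0)).1 ?_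
        rw [mul_pow, hq2, one_pow]; exact g5'
      have e2 : q * b ≤ 1 := by
        refine (pow_le_pow_iff_left₀ (mul_nonneg hq0 hb0) zero_le_one (by norm_num : (2 : ℕ) ≠ 0)).1 ?_
        rw [mul_pow, hq2, one_pow]; exact g5
      have e3 : q * |a - b| ≤ 4 * Real.exp (-(β * (φ x + φ y))) := by
        refine (pow_le_pow_iff_left₀ (mul_nonneg hq0 (abs_nonneg _)) (by positivity)
          (by norm_num : (2 : ℕ) ≠ 0)).1 ?_
        rw [mul_pow, hq2, sq_abs]
        refine le_trans ?_ h1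
        refine mul_le_mul_of_nonneg_left ?_ hk0.le
        have e4 : |a - b| ≤ ‖Gr H κ x y - Gr H' κ' x y‖ := by
          rw [norm_sub_rev]; exact abs_norm_sub_norm_le _ _
        rw [← sq_abs]
        exact pow_le_pow_left₀ (abs_nonneg _) e4 2
      have e5 : k * |a ^ 2 - b ^ 2| = (q * |a - b|) * (q * a + q * b) := by
        have : a ^ 2 - b ^ 2 = (a - b) * (a + b) := by ring
        rw [this, abs_mul, abs_of_nonneg (add_nonneg ha0 hb0), ← hq2]; ring
      rw [e5]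
      calc (q * |a - b|) * (q * a + q * b) ≤ 4 * Real.exp (-(β * (φ x + φ y))) * 2 :=
            mul_le_mul e3 (by linarith) (by positivity) (by positivity)
        _ = _ := by ring

/-- FAR, the conductances between a site off `F` and a site of `F` -/
theorem cond_F (h : Upd H H' κ κ' φ F A S h₀ k₀ β) {x : X} (hx : x ∉ F) :
    ∑ c ∈ F, κ x * κ c * ‖Gr H κ x c‖ ^ 2 ≤ 2 * Real.exp (-(2 * β * φ x)) := by
  obtain ⟨_, h2, _⟩ := h.mass hx
  have hκ := h.n.pos x
  have e1 : ∑ c ∈ F, κ x * κ c * ‖Gr H κ x c‖ ^ 2 = κ x * ∑ b ∈ F, κ b * ‖Gr H κ b x‖ ^ 2 := by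
    rw [Finset.mul_sum]
    exact Finset.sum_congr rfl fun c _ => by rw [(hGeq X H κ h.n).2.1 x c]; ring
  rw [e1]
  refine (mul_le_mul_of_nonneg_left h2 hκ.le).trans (le_of_eq ?_)
  field_simp

/-- FAR, all conductances of the old network: decay in the plateau distance -/
theorem cond_all (h : Upd H H' κ κ' φ F A S h₀ k₀ β) (x y : X) :
    κ x * κ y * ‖Gr H κ x y‖ ^ 2 ≤ 2 * Real.exp (-(2 * β * |φ y - φ x|)) := by
  have h1 := h.ww x
  have h2 : κ y * (Real.exp (2 * β * |φ y - φ x|) * ‖Gr H κ x y‖ ^ 2) ≤ 2 * (Gr H κ x x).im :=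
    (Finset.single_le_sum (f := fun b => κ b * (Real.exp (2 * β * |φ b - φ x|) *
      ‖Gr H κ x b‖ ^ 2)) (fun b _ => mul_nonneg (h.n.pos b).le
        (mul_nonneg (Real.exp_pos _).le (sq_nonneg _))) (Finset.mem_univ y)).trans h1
  have h3 := (hGeq X H κ h.n).2.2.2.1 x
  have h4 : (Gr H κ x x).im ≤ ‖Gr H κ x x‖ := (le_abs_self _).trans (Complex.abs_im_le_norm _)
  have h5 : κ x * (Gr H κ x x).im ≤ 1 := (mul_le_mul_of_nonneg_left h4 (h.n.pos x).le).trans h3
  have he := Real.exp_pos (2 * β * |φ y - φ x|)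
  rw [Real.exp_neg]
  have h6 : κ x * κ y * ‖Gr H κ x y‖ ^ 2 = (Real.exp (2 * β * |φ y - φ x|))⁻¹ *
      (κ x * (κ y * (Real.exp (2 * β * |φ y - φ x|) * ‖Gr H κ x y‖ ^ 2))) := by
    field_simp
  rw [h6, mul_comm (2 : ℝ) ((Real.exp (2 * β * |φ y - φ x|))⁻¹)]
  refine mul_le_mul_of_nonneg_left ?_ (inv_pos.2 he).le
  nlinarith only [mul_le_mul_of_nonneg_left h2 (h.n.pos x).le, h5]

end Upd

end Pool.Agent.ANR.H89
end
end -- Pool.Agent.Helper89_FAR.Far2

section -- Pool.Agent.Helper89_FAR.Ad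

/-!
# The alive distance as a pseudo-metric
-/

set_option autoImplicit false

open scoped BigOperators

noncomputable section

namespace Pool.Agent.ANR.H89

variable {X : Type}

/-- `x` and `y` are joined by a walk with at most `n` alive steps -/
inductive AW (adj : X → X → Prop) (dead : Set X) : ℕ → X → X → Prop
  | refl (x : X) : AW adj dead 0 x x
  | step {n : ℕ} {x y z : X} : adj x y → AW adj dead n y z → AW adj dead (n + 1) x z
  | free {n : ℕ} {x y z : X} : adj x y → (x ∈ dead ∨ y ∈ dead) → AW adj dead n y z →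
      AW adj dead n x z

variable {adj : X → X → Prop} {dead : Set X}

theorem AW.trans {m n : ℕ} {x y z : X} (h : AW adj dead m x y) (h' : AW adj dead n y z) :
    AW adj dead (m + n) x z := by
  induction h with
  | refl x => rw [Nat.zero_add]; exact h'
  | step ha _ ih =>
    have := AW.step ha (ih h')
    rw [Nat.add_right_comm] at this
    exact this
  | free ha hd _ ih => exact AW.free ha hd (ih h')

theorem AW.symm (hs : ∀ x y, adj x y → adj y x) {n : ℕ} {x y : X} (h : AW adj dead n x y) :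
    AW adj dead n y x := by
  induction h with
  | refl x => exact AW.refl x
  | step ha _ ih =>
    have := ih.trans (AW.step (hs _ _ ha) (AW.refl _))
    rw [Nat.zero_add] at this
    exact this
  | free ha hd _ ih =>
    have := ih.trans (AW.free (hs _ _ ha) hd.symm (AW.refl _))
    rw [Nat.add_zero] at this
    exact this

/-- a walk as a list -/
theorem AW.list {n : ℕ} {x y : X} (h : AW adj dead n x y) :
    ∃ l, ACN.IsWalk adj x y l ∧ ACN.cost dead l ≤ n := by
  induction h with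
  | refl x =>
    refine ⟨[x], ⟨by simp, rfl, rfl⟩, by simp [ACN.cost]⟩
  | @step n x y z ha _ ih =>
    obtain ⟨l, ⟨h1, h2, h3⟩, h4⟩ := ih
    cases l with
    | nil => simp at h2
    | cons a l =>
      simp only [List.head?_cons, Option.some.injEq] at h2
      subst h2
      refine ⟨x :: a :: l, ⟨?_, rfl, ?_⟩, ?_⟩
      · rw [List.isChain_cons_cons]; exact ⟨ha, h1⟩
      · rw [List.getLast?_cons_cons]; exact h3
      · simp only [ACN.cost]
        split <;> omega
  | @free n x y z ha hd _ ih =>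
    obtain ⟨l, ⟨h1, h2, h3⟩, h4⟩ := ih
    cases l with
    | nil => simp at h2
    | cons a l =>
      simp only [List.head?_cons, Option.some.injEq] at h2
      subst h2
      refine ⟨x :: a :: l, ⟨?_, rfl, ?_⟩, ?_⟩
      · rw [List.isChain_cons_cons]; exact ⟨ha, h1⟩
      · rw [List.getLast?_cons_cons]; exact h3
      · simp only [ACN.cost]
        rw [if_pos hd]; omega

/-- the alive distance, cut off at `N` -/
def ad (adj : X → X → Prop) (dead : Set X) (N : ℕ) (x y : X) : ℕ :=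
  sInf {n | n = N ∨ AW adj dead n x y}

theorem ad_mem (N : ℕ) (x y : X) : ad adj dead N x y = N ∨ AW adj dead (ad adj dead N x y) x y :=
  Nat.sInf_mem (s := {n | n = N ∨ AW adj dead n x y}) ⟨N, Or.inl rfl⟩

theorem ad_le (N : ℕ) (x y : X) : ad adj dead N x y ≤ N := Nat.sInf_le (Or.inl rfl)

theorem ad_le_of {N n : ℕ} {x y : X} (h : AW adj dead n x y) : ad adj dead N x y ≤ n :=
  Nat.sInf_le (Or.inr h)

theorem ad_self (N : ℕ) (x : X) : ad adj dead N x x = 0 :=
  Nat.le_zero.1 (ad_le_of (AW.refl x))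

theorem ad_comm (hs : ∀ x y, adj x y → adj y x) (N : ℕ) (x y : X) :
    ad adj dead N x y = ad adj dead N y x := by
  unfold ad
  congr 1
  ext n
  exact ⟨fun h => h.imp id fun h => h.symm hs, fun h => h.imp id fun h => h.symm hs⟩

theorem ad_tri (N : ℕ) (x y z : X) :
    ad adj dead N x z ≤ ad adj dead N x y + ad adj dead N y z := by
  rcases ad_mem (adj := adj) (dead := dead) N x y with h | h
  · have := ad_le (adj := adj) (dead := dead) N x z; omega
  · rcases ad_mem (adj := adj) (dead := dead) N y z with h' | h'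
    · have := ad_le (adj := adj) (dead := dead) N x z; omega
    · exact ad_le_of (h.trans h')

theorem ad_adj (N : ℕ) {x y : X} (h : adj x y) : ad adj dead N x y ≤ 1 :=
  ad_le_of (by have := AW.step (dead := dead) h (AW.refl y); rwa [Nat.zero_add] at this)

theorem ad_dead (N : ℕ) {x y : X} (h : adj x y) (hd : x ∈ dead ∨ y ∈ dead) :
    ad adj dead N x y = 0 := Nat.le_zero.1 (ad_le_of (AW.free h hd (AW.refl y)))

theorem le_ad {D : X → X → ℝ} {c r : ℝ}
    (hw : ∀ x y l, ACN.IsWalk adj x y l → c * D x y - r ≤ ACN.cost dead l) (N : ℕ) (x y : X) :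
    min (N : ℝ) (c * D x y - r) ≤ ad adj dead N x y := by
  rcases ad_mem (adj := adj) (dead := dead) N x y with h | h
  · rw [h]; exact min_le_left _ _
  · obtain ⟨l, hl, hc⟩ := h.list
    refine (min_le_right _ _).trans ((hw x y l hl).trans ?_)
    exact_mod_cast hc

end Pool.Agent.ANR.H89
end
end -- Pool.Agent.Helper89_FAR.Ad

section -- Pool.Agent.Helper22_LTG.Stp

/-!
# One step inside a stage, relative to the start of the stage
-/

set_option autoImplicit false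

open scoped BigOperators
open Finset

noncomputable section

namespace Pool.Agent.LTG

variable {X ep : Type*} [Fintype X] [DecidableEq X] [Fintype ep]

/-- ladder and error, absolute form -/
theorem fm_blk {s t : ep → X} {A : Finset X} {w w' εl εu τ v : X → ℝ} {bl bu dl : ep → ℝ}
    {E E1 : Matrix X X ℝ} {Q' : (X → ℝ) → ℝ} (h : Fm s t A w εl εu bl bu (qd E))
    (hL : Lad E E1 τ) (hw : ∀ x ∈ A, 0 < w x) (hw' : ∀ x ∈ A, 0 < w' x ∧ w' x ≤ w x)
    (h0 : ∀ x ∈ A, 0 ≤ εl x) (h1 : ∀ x ∈ A, εl x ≤ 1 / 4)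
    (h0u : ∀ x ∈ A, 0 ≤ εu x) (h1u : ∀ x ∈ A, εu x + 4 * v x < 1)
    (hτ : ∀ x ∈ A, τ x = 1 / w' x - 1 / w x)
    (hv0 : ∀ x ∈ A, 0 ≤ v x) (hv : ∀ x ∈ A, v x ≤ 1 / 16)
    (hE : ∀ f g, |Q' f - qd E1 f| ≤
      mor s t (fun x => if x ∈ A then v x * w' x else 0) dl f g) :
    Fm s t A w' (fun x => εl x * (w' x / w x) + 4 * v x)
      (fun x => εu x * (w' x / w x) + 4 * v x) (fun e => bl e - dl e)
      (fun e => bu e + dl e) Q' := by
  have hr : ∀ x ∈ A, 0 ≤ w' x / w x ∧ w' x / w x ≤ 1 := fun x hx =>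
    ⟨div_nonneg (hw' x hx).1.le (hw x hx).le, (div_le_one (hw x hx)).2 (hw' x hx).2⟩
  have hF1 := fm_lad h hL hw (fun x hx => (hw' x hx).1) h0
    (fun x hx => by linarith [h1u x hx, hv0 x hx]) hτ
  exact fm_err hF1 (fun x hx => (hw' x hx).1.le) (fun x hx => mul_nonneg (h0 x hx) (hr x hx).1)
    (fun x hx => (mul_le_of_le_one_right (h0 x hx) (hr x hx).2).trans (h1 x hx))
    (fun x hx => mul_nonneg (h0u x hx) (hr x hx).1)
    (fun x hx => by
      have := mul_le_of_le_one_right (h0u x hx) (hr x hx).2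
      linarith [h1u x hx]) hv0 hv hE

/-- (STP) one step relative to the start of the stage: `w0`, `el0`, `eu0`, `bl0`, `bu0` are the
weights at the start, `Ψ`, `Ψe` count the blocks already processed (at the sites and at the bonds),
`om`, `ome` is the contribution of the present block -/
theorem fm_step {s t : ep → X} {A : Finset X} {w0 w w' el0 eu0 Ψ om τ : X → ℝ}
    {bl0 bu0 Ψe ome : ep → ℝ} {nn D : ℝ}
    {E E1 : Matrix X X ℝ} {Q' : (X → ℝ) → ℝ}
    (h : Fm s t A w (fun x => el0 x * (w x / w0 x) + 4 * (nn * Ψ x))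
      (fun x => eu0 x * (w x / w0 x) + 4 * (nn * Ψ x))
      (fun e => bl0 e - nn * D * Ψe e) (fun e => bu0 e + nn * D * Ψe e) (qd E))
    (hL : Lad E E1 τ) (hw0 : ∀ x ∈ A, 0 < w0 x) (hw : ∀ x ∈ A, 0 < w x)
    (hw' : ∀ x ∈ A, 0 < w' x ∧ w' x ≤ w x)
    (h0 : ∀ x ∈ A, 0 ≤ el0 x) (h0u : ∀ x ∈ A, 0 ≤ eu0 x) (hnn : 0 ≤ nn)
    (hΨ : ∀ x ∈ A, 0 ≤ Ψ x) (hom : ∀ x ∈ A, 0 ≤ om x)
    (h1 : ∀ x ∈ A, el0 x * (w x / w0 x) + 4 * (nn * Ψ x) ≤ 1 / 4)
    (h1u : ∀ x ∈ A, eu0 x * (w x / w0 x) + 4 * (nn * Ψ x) + 4 * (nn * om x) < 1)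
    (hτ : ∀ x ∈ A, τ x = 1 / w' x - 1 / w x) (hv : ∀ x ∈ A, nn * om x ≤ 1 / 16)
    (hE : ∀ f g, |Q' f - qd E1 f| ≤
      mor s t (fun x => if x ∈ A then nn * om x * w' x else 0) (fun e => nn * D * ome e) f g) :
    Fm s t A w' (fun x => el0 x * (w' x / w0 x) + 4 * (nn * (Ψ x + om x)))
      (fun x => eu0 x * (w' x / w0 x) + 4 * (nn * (Ψ x + om x)))
      (fun e => bl0 e - nn * D * (Ψe e + ome e))
      (fun e => bu0 e + nn * D * (Ψe e + ome e)) Q' := by
  have hr : ∀ x ∈ A, 0 ≤ w' x / w x ∧ w' x / w x ≤ 1 := fun x hx =>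
    ⟨div_nonneg (hw' x hx).1.le (hw x hx).le, (div_le_one (hw x hx)).2 (hw' x hx).2⟩
  have hr0 : ∀ x ∈ A, 0 ≤ w x / w0 x := fun x hx => div_nonneg (hw x hx).le (hw0 x hx).le
  have hnn1 : ∀ x ∈ A, 0 ≤ nn * Ψ x := fun x hx => mul_nonneg hnn (hΨ x hx)
  have hnn2 : ∀ x ∈ A, 0 ≤ nn * om x := fun x hx => mul_nonneg hnn (hom x hx)
  have hkey : ∀ (e0 : X → ℝ), (∀ x ∈ A, 0 ≤ e0 x) → ∀ x ∈ A,
      (e0 x * (w x / w0 x) + 4 * (nn * Ψ x)) * (w' x / w x) + 4 * (nn * om x) ≤
        e0 x * (w' x / w0 x) + 4 * (nn * (Ψ x + om x)) := by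
    intro e0 he0 x hx
    have e1 : w x / w0 x * (w' x / w x) = w' x / w0 x := by
      have := (hw x hx).ne'
      have := (hw0 x hx).ne'
      field_simp
    have e2 : 4 * (nn * Ψ x) * (w' x / w x) ≤ 4 * (nn * Ψ x) :=
      mul_le_of_le_one_right (by linarith [hnn1 x hx]) (hr x hx).2
    calc _ = e0 x * (w x / w0 x * (w' x / w x)) + 4 * (nn * Ψ x) * (w' x / w x) +
          4 * (nn * om x) := by ring
      _ ≤ e0 x * (w' x / w0 x) + 4 * (nn * Ψ x) + 4 * (nn * om x) := by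
          rw [e1]; linarith
      _ = _ := by ring
  have hb := fm_blk (v := fun x => nn * om x) h hL hw hw'
    (fun x hx => by
      have := mul_nonneg (h0 x hx) (hr0 x hx)
      linarith [hnn1 x hx]) h1
    (fun x hx => by
      have := mul_nonneg (h0u x hx) (hr0 x hx)
      linarith [hnn1 x hx]) h1u hτ hnn2 hv hE
  refine hb.mono (fun x hx => (hw' x hx).1.le) (fun x hx => ?_) (hkey el0 h0) (hkey eu0 h0u)
    (fun x hx => ?_) (fun e => le_of_eq (by ring)) (fun e => le_of_eq (by ring))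
  · have a1 := mul_nonneg (h0 x hx) (hr0 x hx)
    have a2 := mul_nonneg (add_nonneg a1 (by linarith [hnn1 x hx] : 0 ≤ 4 * (nn * Ψ x)))
      (hr x hx).1
    linarith [hnn2 x hx]
  · have a1 : w' x / w0 x ≤ w x / w0 x := by
      have := hw0 x hx
      have := (hw' x hx).2
      gcongr
    have a2 : eu0 x * (w' x / w0 x) ≤ eu0 x * (w x / w0 x) :=
      mul_le_mul_of_nonneg_left a1 (h0u x hx)
    have a3 := h1u x hx
    have a4 : 4 * (nn * (Ψ x + om x)) = 4 * (nn * Ψ x) + 4 * (nn * om x) := by ring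
    linarith

end Pool.Agent.LTG
end
end -- Pool.Agent.Helper22_LTG.Stp

section -- Pool.Agent.Helper17_NAS.Cube

/-!
# Block NAS (AND2B): weighted Poincare inequalities on dyadic cubes (helper17)

`cu d n` is the cube `[0, n)^d`, `gr d n h` the sum of the squares of the differences along the bonds
INSIDE the cube. `sob`: `∑ a_x (h_x - mean)² ≤ C (4^J θ + 2^(-(d-2)J) T) gr` if `0 ≤ a ≤ θ` and
`∑ a ≤ T`; `hls`: `(∑ φ_x (h_x - mean))² ≤ C (4^J ∑ φ² + 2^(-(d-2)J) (∑ |φ|)²) gr`, for every `J`.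
-/

set_option autoImplicit false

open scoped BigOperators

noncomputable section

namespace Pool.Agent.NAS

variable {d : ℕ}

/-- the cube `[0, n)^d` -/
def cu (d n : ℕ) : Finset (Fin d → ℕ) := Fintype.piFinset fun _ => Finset.range n

theorem mem_cu {n : ℕ} {x : Fin d → ℕ} : x ∈ cu d n ↔ ∀ i, x i < n := by
  simp [cu]

theorem card_cu (n : ℕ) : (cu d n).card = n ^ d := by
  simp [cu]

/-- coordinatewise division -/
def dv (x : Fin d → ℕ) (n : ℕ) : Fin d → ℕ := fun i => x i / n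

/-- partition into smaller cubes -/
theorem sum_cu_mul {a : ℕ} (b : ℕ) (ha : 0 < a) (g : (Fin d → ℕ) → ℝ) :
    ∑ x ∈ cu d (a * b), g x = ∑ u ∈ cu d b, ∑ x ∈ cu d a, g (a • u + x) := by
  rw [← Finset.sum_product']
  symm
  refine Finset.sum_nbij' (fun p => a • p.1 + p.2) (fun y => (dv y a, fun i => y i % a))
    ?_ ?_ ?_ ?_ ?_
  · rintro ⟨u, x⟩ h
    rw [Finset.mem_product, mem_cu, mem_cu] at h
    rw [mem_cu]
    intro i
    have h1 : u i + 1 ≤ b := h.1 i
    have h2 : x i < a := h.2 i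
    have h3 : a * (u i + 1) ≤ a * b := Nat.mul_le_mul_left a h1
    show a • u i + x i < a * b
    rw [smul_eq_mul]
    rw [mul_add, mul_one] at h3
    omega
  · intro y hy
    rw [mem_cu] at hy
    rw [Finset.mem_product, mem_cu, mem_cu]
    exact ⟨fun i => Nat.div_lt_of_lt_mul (hy i), fun i => Nat.mod_lt _ ha⟩
  · rintro ⟨u, x⟩ h
    rw [Finset.mem_product, mem_cu, mem_cu] at h
    have h2 : ∀ i, x i < a := h.2
    apply Prod.ext
    · funext i
      show (a • u i + x i) / a = u i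
      rw [smul_eq_mul, Nat.mul_add_div ha, Nat.div_eq_of_lt (h2 i), add_zero]
    · funext i
      show (a • u i + x i) % a = x i
      rw [smul_eq_mul, Nat.mul_add_mod, Nat.mod_eq_of_lt (h2 i)]
  · intro y _
    funext i
    show a • (y i / a) + y i % a = y i
    rw [smul_eq_mul]
    exact Nat.div_add_mod _ _
  · intro p _
    rfl

theorem dv_add {a : ℕ} {u x : Fin d → ℕ} (hx : x ∈ cu d a) : dv (a • u + x) a = u := by
  rw [mem_cu] at hx
  funext i
  show (a • u i + x i) / a = u i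
  have h := hx i
  rw [smul_eq_mul, Nat.mul_add_div (by omega), Nat.div_eq_of_lt h, add_zero]

/-- the energy of the bonds inside the cube in the direction `i` -/
def gi (d n : ℕ) (i : Fin d) (h : (Fin d → ℕ) → ℝ) : ℝ :=
  ∑ x ∈ cu d n, if x i + 1 < n then (h (x + Pi.single i 1) - h x) ^ 2 else 0

/-- the energy of the bonds inside the cube -/
def gr (d n : ℕ) (h : (Fin d → ℕ) → ℝ) : ℝ := ∑ i, gi d n i h

/-- the mean over the cube `2^j u + [0, 2^j)^d` -/
def av (j : ℕ) (h : (Fin d → ℕ) → ℝ) (u : Fin d → ℕ) : ℝ :=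
  (∑ x ∈ cu d (2 ^ j), h (2 ^ j • u + x)) / ((2 : ℝ) ^ j) ^ d

theorem gi_nonneg (n : ℕ) (i : Fin d) (h : (Fin d → ℕ) → ℝ) : 0 ≤ gi d n i h := by
  unfold gi
  refine Finset.sum_nonneg fun x _ => ?_
  split_ifs
  · positivity
  · exact le_rfl

theorem gr_nonneg (n : ℕ) (h : (Fin d → ℕ) → ℝ) : 0 ≤ gr d n h :=
  Finset.sum_nonneg fun i _ => gi_nonneg n i h

theorem pc (j : ℕ) : ((cu d (2 ^ j)).card : ℝ) = ((2 : ℝ) ^ j) ^ d := by
  rw [card_cu]
  push_cast
  rfl

theorem sq_sum_le {ι : Type} (s : Finset ι) (f : ι → ℝ) :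
    (∑ i ∈ s, f i) ^ 2 ≤ (s.card : ℝ) * ∑ i ∈ s, f i ^ 2 := sq_sum_le_card_mul_sum_sq

theorem sum_sq_le {ι : Type} (s : Finset ι) (f : ι → ℝ) (hf : ∀ i ∈ s, 0 ≤ f i) :
    ∑ i ∈ s, f i ^ 2 ≤ (∑ i ∈ s, f i) ^ 2 := by
  rw [sq (∑ i ∈ s, f i), Finset.sum_mul]
  refine Finset.sum_le_sum fun i hi => ?_
  rw [sq]
  exact mul_le_mul_of_nonneg_left (Finset.single_le_sum hf hi) (hf i hi)

/-- the difference along a path of length `n` -/
theorem path_sq (n : ℕ) (g : ℕ → ℝ) :
    (g n - g 0) ^ 2 ≤ (n : ℝ) * ∑ t ∈ Finset.range n, (g (t + 1) - g t) ^ 2 := by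
  rw [← Finset.sum_range_sub]
  have h2 := sq_sum_le (Finset.range n) (fun t => g (t + 1) - g t)
  rwa [Finset.card_range] at h2

theorem av_e1 (j : ℕ) (h : (Fin d → ℕ) → ℝ) (u : Fin d → ℕ) (i : Fin d) :
    av j h (u + Pi.single i 1) - av j h u = (∑ x ∈ cu d (2 ^ j),
      (h (2 ^ j • u + x + Pi.single i (2 ^ j)) - h (2 ^ j • u + x))) / ((2 : ℝ) ^ j) ^ d := by
    unfold av
    rw [← sub_div, ← Finset.sum_sub_distrib]
    congr 1
    refine Finset.sum_congr rfl fun x _ => ?_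
    have : 2 ^ j • (u + Pi.single i 1) + x = 2 ^ j • u + x + Pi.single i (2 ^ j) := by
      funext l
      simp only [Pi.add_apply, Pi.smul_apply, smul_eq_mul]
      by_cases hl : l = i
      · subst hl
        rw [Pi.single_eq_same, Pi.single_eq_same]
        ring
      · rw [Pi.single_eq_of_ne hl, Pi.single_eq_of_ne hl]
        ring
    rw [this]

theorem av_e2 (j : ℕ) (h : (Fin d → ℕ) → ℝ) (u : Fin d → ℕ) (i : Fin d) : ∀ x, (h (2 ^ j • u + x + Pi.single i (2 ^ j)) - h (2 ^ j • u + x)) ^ 2 ≤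
      (2 : ℝ) ^ j * ∑ t ∈ Finset.range (2 ^ j),
        (h (2 ^ j • u + x + Pi.single i (t + 1)) - h (2 ^ j • u + x + Pi.single i t)) ^ 2 := by
    intro x
    have h1 := path_sq (2 ^ j) (fun t => h (2 ^ j • u + x + Pi.single i t))
    rw [Nat.cast_pow, Nat.cast_ofNat] at h1
    have h3 : (2 ^ j • u + x + Pi.single i 0 : Fin d → ℕ) = 2 ^ j • u + x := by
      rw [Pi.single_zero, add_zero]
    have h4 : h (2 ^ j • u + x) = h (2 ^ j • u + x + Pi.single i 0) := by rw [h3]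
    rw [h4]
    exact h1

/-- neighbouring means -/
theorem av_step (j : ℕ) (h : (Fin d → ℕ) → ℝ) (u : Fin d → ℕ) (i : Fin d) :
    (av j h (u + Pi.single i 1) - av j h u) ^ 2 ≤ (((2 : ℝ) ^ j) ^ d)⁻¹ * ((2 : ℝ) ^ j *
      ∑ t ∈ Finset.range (2 ^ j), ∑ x ∈ cu d (2 ^ j),
        (h (2 ^ j • u + x + Pi.single i (t + 1)) - h (2 ^ j • u + x + Pi.single i t)) ^ 2) := by
  have hp : 0 < ((2 : ℝ) ^ j) ^ d := by positivity
  have h3 := sq_sum_le (cu d (2 ^ j)) (fun x =>
    h (2 ^ j • u + x + Pi.single i (2 ^ j)) - h (2 ^ j • u + x))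
  rw [pc] at h3
  have h4 : ∑ x ∈ cu d (2 ^ j), (h (2 ^ j • u + x + Pi.single i (2 ^ j)) - h (2 ^ j • u + x)) ^ 2 ≤
      (2 : ℝ) ^ j * ∑ t ∈ Finset.range (2 ^ j), ∑ x ∈ cu d (2 ^ j),
        (h (2 ^ j • u + x + Pi.single i (t + 1)) - h (2 ^ j • u + x + Pi.single i t)) ^ 2 := by
    rw [Finset.sum_comm, Finset.mul_sum]
    exact Finset.sum_le_sum fun x _ => av_e2 j h u i x
  rw [av_e1]
  generalize (∑ x ∈ cu d (2 ^ j), (h (2 ^ j • u + x + Pi.single i (2 ^ j)) - h (2 ^ j • u + x))) = A at *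
  generalize ∑ x ∈ cu d (2 ^ j), (h (2 ^ j • u + x + Pi.single i (2 ^ j)) - h (2 ^ j • u + x)) ^ 2 = B at *
  generalize ∑ t ∈ Finset.range (2 ^ j), ∑ x ∈ cu d (2 ^ j),
        (h (2 ^ j • u + x + Pi.single i (t + 1)) - h (2 ^ j • u + x + Pi.single i t)) ^ 2 = D at *
  generalize ((2 : ℝ) ^ j) ^ d = P at *
  rw [div_pow, div_le_iff₀ (by positivity)]
  calc A ^ 2 ≤ P * B := h3
    _ ≤ P * (2 ^ j * D) := mul_le_mul_of_nonneg_left h4 hp.le
    _ = P⁻¹ * (2 ^ j * D) * P ^ 2 := by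
        field_simp

/-- the sum over the even cells -/
theorem ev_sum (j l : ℕ) (h : (Fin d → ℕ) → ℝ) (i : Fin d) :
    ∑ u ∈ cu d (2 ^ (l + 1)), (if u i % 2 = 0 then
      (av j h (u + Pi.single i 1) - av j h u) ^ 2 else 0) ≤
      4 ^ j * (((2 : ℝ) ^ j) ^ d)⁻¹ * gi d (2 ^ (j + (l + 1))) i h := by
  have hpj : 0 < 2 ^ j := by positivity
  set n : ℕ := 2 ^ (j + (l + 1)) with hn
  have hn' : n = 2 ^ j * 2 ^ (l + 1) := pow_add 2 j (l + 1)
  -- for one shift
  have key : ∀ t, t < 2 ^ j → ∑ u ∈ cu d (2 ^ (l + 1)), (if u i % 2 = 0 then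
      ∑ x ∈ cu d (2 ^ j), (h (2 ^ j • u + x + Pi.single i (t + 1)) -
        h (2 ^ j • u + x + Pi.single i t)) ^ 2 else 0) ≤ gi d n i h := by
    intro t ht
    set F : (Fin d → ℕ) → ℝ := fun y => (h (y + Pi.single i 1) - h y) ^ 2 with hF
    have e1 : ∑ u ∈ cu d (2 ^ (l + 1)), (if u i % 2 = 0 then
        ∑ x ∈ cu d (2 ^ j), (h (2 ^ j • u + x + Pi.single i (t + 1)) -
          h (2 ^ j • u + x + Pi.single i t)) ^ 2 else 0) =
        ∑ y ∈ cu d n, if (dv y (2 ^ j)) i % 2 = 0 then F (y + Pi.single i t) else 0 := by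
      rw [hn', sum_cu_mul (2 ^ (l + 1)) hpj]
      refine Finset.sum_congr rfl fun u _ => ?_
      split_ifs with hu
      · refine Finset.sum_congr rfl fun x hx => ?_
        rw [dv_add hx, if_pos hu, hF]
        show _ = (h (2 ^ j • u + x + Pi.single i t + Pi.single i 1) - _) ^ 2
        rw [add_assoc (2 ^ j • u + x), ← Pi.single_add]
      · symm
        refine Finset.sum_eq_zero fun x hx => ?_
        rw [dv_add hx, if_neg hu]
    rw [e1, ← Finset.sum_filter]
    have hinj : Set.InjOn (fun y : Fin d → ℕ => y + Pi.single i t)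
        ((cu d n).filter fun y => (dv y (2 ^ j)) i % 2 = 0 : Finset (Fin d → ℕ)) :=
      fun y _ z _ hyz => add_right_cancel hyz
    have e2 : ∑ y ∈ (cu d n).filter (fun y => (dv y (2 ^ j)) i % 2 = 0),
        F (y + Pi.single i t) = ∑ y ∈ ((cu d n).filter fun y =>
          (dv y (2 ^ j)) i % 2 = 0).image (fun y : Fin d → ℕ => y + Pi.single i t), F y := by
      rw [Finset.sum_image hinj]
    rw [e2]
    unfold gi
    rw [← Finset.sum_filter]
    refine Finset.sum_le_sum_of_subset_of_nonneg ?_ fun y _ _ => sq_nonneg _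
    intro z hz
    obtain ⟨y, hy, rfl⟩ := Finset.mem_image.1 hz
    rw [Finset.mem_filter, mem_cu] at hy
    obtain ⟨hy1, hy2⟩ := hy
    have hy3 : (y i / 2 ^ j) % 2 = 0 := hy2
    have hb : y i + t + 1 < n := by
      have h1 : y i < n := hy1 i
      have h2 : y i / 2 ^ j < 2 ^ (l + 1) := Nat.div_lt_of_lt_mul (by rw [← hn']; exact h1)
      have h3 : y i / 2 ^ j + 2 ≤ 2 ^ (l + 1) := by
        have h4 : 2 ^ (l + 1) = 2 * 2 ^ l := pow_succ' 2 l
        omega
      have h5 : y i < 2 ^ j * (y i / 2 ^ j + 1) := by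
        have := Nat.lt_mul_div_succ (y i) hpj
        exact this
      have h6 : 2 ^ j * (y i / 2 ^ j + 2) ≤ 2 ^ j * 2 ^ (l + 1) := Nat.mul_le_mul_left _ h3
      rw [← hn'] at h6
      have h7 : 2 ^ j * (y i / 2 ^ j + 2) = 2 ^ j * (y i / 2 ^ j + 1) + 2 ^ j := by ring
      omega
    rw [Finset.mem_filter, mem_cu]
    refine ⟨fun q => ?_, ?_⟩
    · show y q + (Pi.single i t : Fin d → ℕ) q < n
      by_cases hq : q = i
      · subst hq
        rw [Pi.single_eq_same]
        omega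
      · rw [Pi.single_eq_of_ne hq, add_zero]
        exact hy1 q
    · show y i + (Pi.single i t : Fin d → ℕ) i + 1 < n
      rw [Pi.single_eq_same]
      exact hb
  have hp : 0 < ((2 : ℝ) ^ j) ^ d := by positivity
  calc ∑ u ∈ cu d (2 ^ (l + 1)), (if u i % 2 = 0 then
        (av j h (u + Pi.single i 1) - av j h u) ^ 2 else 0)
      ≤ ∑ u ∈ cu d (2 ^ (l + 1)), (((2 : ℝ) ^ j) ^ d)⁻¹ * ((2 : ℝ) ^ j *
          ∑ t ∈ Finset.range (2 ^ j), (if u i % 2 = 0 then ∑ x ∈ cu d (2 ^ j),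
            (h (2 ^ j • u + x + Pi.single i (t + 1)) - h (2 ^ j • u + x + Pi.single i t)) ^ 2
              else 0)) := by
        refine Finset.sum_le_sum fun u _ => ?_
        split_ifs with hu
        · exact av_step j h u i
        · simp
    _ = (((2 : ℝ) ^ j) ^ d)⁻¹ * ((2 : ℝ) ^ j * ∑ t ∈ Finset.range (2 ^ j),
          ∑ u ∈ cu d (2 ^ (l + 1)), (if u i % 2 = 0 then ∑ x ∈ cu d (2 ^ j),
            (h (2 ^ j • u + x + Pi.single i (t + 1)) - h (2 ^ j • u + x + Pi.single i t)) ^ 2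
              else 0)) := by
        rw [← Finset.mul_sum, ← Finset.mul_sum, Finset.sum_comm]
    _ ≤ (((2 : ℝ) ^ j) ^ d)⁻¹ * ((2 : ℝ) ^ j * ∑ t ∈ Finset.range (2 ^ j), gi d n i h) := by
        gcongr with t ht
        exact key t (Finset.mem_range.1 ht)
    _ = 4 ^ j * (((2 : ℝ) ^ j) ^ d)⁻¹ * gi d n i h := by
        rw [Finset.sum_const, Finset.card_range, nsmul_eq_mul]
        push_cast
        have : (4 : ℝ) ^ j = 2 ^ j * 2 ^ j := by rw [← mul_pow]; norm_num
        rw [this]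
        ring

/-- the mean minimises -/
theorem mean_min {ι : Type} (s : Finset ι) (f : ι → ℝ) (c m : ℝ)
    (hm : (s.card : ℝ) * m = ∑ i ∈ s, f i) :
    ∑ i ∈ s, (f i - m) ^ 2 ≤ ∑ i ∈ s, (f i - c) ^ 2 := by
  have e : ∑ i ∈ s, (f i - c) ^ 2 = ∑ i ∈ s, (f i - m) ^ 2 + (s.card : ℝ) * (m - c) ^ 2 := by
    have h1 : ∀ i ∈ s, (f i - c) ^ 2 = (f i - m) ^ 2 + (2 * (m - c) * f i +
        (c ^ 2 - m ^ 2)) := fun i _ => by ring
    rw [Finset.sum_congr rfl h1, Finset.sum_add_distrib, Finset.sum_add_distrib,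
      ← Finset.mul_sum, ← hm, Finset.sum_const, nsmul_eq_mul]
    ring
  rw [e]
  have : 0 ≤ (s.card : ℝ) * (m - c) ^ 2 := by positivity
  linarith

/-- the energy of the small cube -/
def he (a : (Fin d → ℕ) → ℝ) : ℝ :=
  ∑ i, ∑ e ∈ cu d 2, if e i % 2 = 0 then (a (e + Pi.single i 1) - a e) ^ 2 else 0

theorem he_nonneg (a : (Fin d → ℕ) → ℝ) : 0 ≤ he a := by
  unfold he
  refine Finset.sum_nonneg fun i _ => Finset.sum_nonneg fun e _ => ?_
  split_ifs
  · positivity
  · exact le_rfl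

theorem he_edge (a : (Fin d → ℕ) → ℝ) (i : Fin d) (e : Fin d → ℕ) (he' : e ∈ cu d 2)
    (h0 : e i = 0) : |a (e + Pi.single i 1) - a e| ≤ Real.sqrt (he a) := by
  rw [← Real.sqrt_sq_eq_abs]
  apply Real.sqrt_le_sqrt
  unfold he
  have h1 : (a (e + Pi.single i 1) - a e) ^ 2 =
      if e i % 2 = 0 then (a (e + Pi.single i 1) - a e) ^ 2 else 0 := by
    rw [h0, if_pos (by norm_num)]
  rw [h1]
  refine (Finset.single_le_sum (f := fun e => if e i % 2 = 0 then
    (a (e + Pi.single i 1) - a e) ^ 2 else 0) ?_ he').trans ?_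
  · intro e _
    split_ifs
    · positivity
    · exact le_rfl
  · refine Finset.single_le_sum (f := fun i => ∑ e ∈ cu d 2, if e i % 2 = 0 then
      (a (e + Pi.single i 1) - a e) ^ 2 else 0) ?_ (Finset.mem_univ i)
    intro i _
    refine Finset.sum_nonneg fun e _ => ?_
    split_ifs
    · positivity
    · exact le_rfl

theorem he_path (a : (Fin d → ℕ) → ℝ) (e : Fin d → ℕ) (hE : e ∈ cu d 2) (s : Finset (Fin d)) :
    |a (fun i => if i ∈ s then e i else 0) - a 0| ≤ s.card * Real.sqrt (he a) := by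
  classical
  induction s using Finset.induction_on with
  | empty =>
    have : (fun i : Fin d => if i ∈ (∅ : Finset (Fin d)) then e i else 0) = 0 := by
      funext i
      simp
    rw [this, sub_self, abs_zero]
    simp
  | insert i s hi ih =>
    rw [Finset.card_insert_of_notMem hi]
    push_cast
    rw [mem_cu] at hE
    have hei : e i = 0 ∨ e i = 1 := by
      have := hE i
      omega
    have hs : 0 ≤ Real.sqrt (he a) := Real.sqrt_nonneg _
    rcases hei with h0 | h1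
    · have : (fun q : Fin d => if q ∈ insert i s then e q else 0) =
          fun q => if q ∈ s then e q else 0 := by
        funext q
        by_cases hq : q = i
        · subst hq
          rw [if_pos (Finset.mem_insert_self _ _), if_neg hi, h0]
        · simp [Finset.mem_insert, hq]
      rw [this]
      linarith only [ih, hs]
    · set z : Fin d → ℕ := fun q => if q ∈ s then e q else 0 with hz
      have hzi : z i = 0 := by
        rw [hz]
        simp [hi]
      have hzc : z ∈ cu d 2 := by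
        rw [mem_cu]
        intro q
        rw [hz]
        dsimp only
        split_ifs
        · exact hE q
        · norm_num
      have : (fun q : Fin d => if q ∈ insert i s then e q else 0) = z + Pi.single i 1 := by
        funext q
        show _ = z q + (Pi.single i 1 : Fin d → ℕ) q
        by_cases hq : q = i
        · subst hq
          rw [if_pos (Finset.mem_insert_self _ _), hzi, Pi.single_eq_same, h1]
        · rw [Pi.single_eq_of_ne hq, add_zero, hz]
          simp [Finset.mem_insert, hq]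
      rw [this]
      have h2 := he_edge a i z hzc hzi
      have h3 := abs_sub_le (a (z + Pi.single i 1)) (a z) (a 0)
      linarith only [ih, h2, h3]

theorem he_bound (a : (Fin d → ℕ) → ℝ) (m : ℝ) (hm : (2 : ℝ) ^ d * m = ∑ e ∈ cu d 2, a e) :
    ∑ e ∈ cu d 2, (a e - m) ^ 2 ≤ (2 : ℝ) ^ d * d ^ 2 * he a := by
  have hc : ((cu d 2).card : ℝ) = (2 : ℝ) ^ d := by
    rw [card_cu]
    push_cast
    rfl
  refine (mean_min (cu d 2) a (a 0) m (by rw [hc]; exact hm)).trans ?_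
  have h1 : ∀ e ∈ cu d 2, (a e - a 0) ^ 2 ≤ d ^ 2 * he a := by
    intro e hE
    have h2 := he_path a e hE Finset.univ
    have h3 : (fun i : Fin d => if i ∈ (Finset.univ : Finset (Fin d)) then e i else 0) = e := by
      funext i
      simp
    rw [h3, Finset.card_univ, Fintype.card_fin] at h2
    have h4 : (a e - a 0) ^ 2 ≤ (d * Real.sqrt (he a)) ^ 2 := by
      rw [← sq_abs]
      exact pow_le_pow_left₀ (abs_nonneg _) h2 2
    rw [mul_pow, Real.sq_sqrt (he_nonneg a)] at h4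
    exact h4
  refine (Finset.sum_le_sum h1).trans (le_of_eq ?_)
  rw [Finset.sum_const, nsmul_eq_mul, hc]
  ring

/-- the mean over the parent is the mean of the means over the children -/
theorem av_succ (j : ℕ) (h : (Fin d → ℕ) → ℝ) (v : Fin d → ℕ) :
    (2 : ℝ) ^ d * av (j + 1) h v = ∑ e ∈ cu d 2, av j h (2 • v + e) := by
  unfold av
  rw [← Finset.sum_div]
  have h1 : ∑ x ∈ cu d (2 ^ (j + 1)), h (2 ^ (j + 1) • v + x) =
      ∑ e ∈ cu d 2, ∑ x ∈ cu d (2 ^ j), h (2 ^ j • (2 • v + e) + x) := by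
    rw [pow_succ 2 j, sum_cu_mul 2 (by positivity : 0 < 2 ^ j)]
    refine Finset.sum_congr rfl fun e _ => Finset.sum_congr rfl fun x _ => ?_
    congr 1
    rw [smul_add, ← add_assoc, smul_smul]
  rw [h1]
  have h2 : ((2 : ℝ) ^ (j + 1)) ^ d = 2 ^ d * ((2 : ℝ) ^ j) ^ d := by
    rw [pow_succ, mul_pow]
    ring
  rw [h2]
  field_simp

/-- one level -/
def bb (j : ℕ) (h : (Fin d → ℕ) → ℝ) (u : Fin d → ℕ) : ℝ := av j h u - av (j + 1) h (dv u 2)

theorem level (j l : ℕ) (h : (Fin d → ℕ) → ℝ) :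
    ∑ u ∈ cu d (2 ^ (l + 1)), bb j h u ^ 2 ≤ (2 : ℝ) ^ d * d ^ 2 *
      (4 ^ j * (((2 : ℝ) ^ j) ^ d)⁻¹ * gr d (2 ^ (j + (l + 1))) h) := by
  have h0 : (2 : ℕ) ^ (l + 1) = 2 * 2 ^ l := pow_succ' 2 l
  have e1 : ∑ u ∈ cu d (2 ^ (l + 1)), bb j h u ^ 2 = ∑ v ∈ cu d (2 ^ l), ∑ e ∈ cu d 2,
      (av j h (2 • v + e) - av (j + 1) h v) ^ 2 := by
    rw [h0, sum_cu_mul (2 ^ l) (by norm_num : 0 < 2)]
    refine Finset.sum_congr rfl fun v _ => Finset.sum_congr rfl fun e hE => ?_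
    unfold bb
    rw [dv_add hE]
  rw [e1]
  have e2 : ∀ v ∈ cu d (2 ^ l), ∑ e ∈ cu d 2, (av j h (2 • v + e) - av (j + 1) h v) ^ 2 ≤
      (2 : ℝ) ^ d * d ^ 2 * ∑ i, ∑ e ∈ cu d 2, (if (2 • v + e) i % 2 = 0 then
        (av j h (2 • v + e + Pi.single i 1) - av j h (2 • v + e)) ^ 2 else 0) := by
    intro v _
    refine (he_bound (fun e => av j h (2 • v + e)) _ (av_succ j h v)).trans (le_of_eq ?_)
    congr 1
    unfold he
    refine Finset.sum_congr rfl fun i _ => Finset.sum_congr rfl fun e _ => ?_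
    have h3 : (2 • v + e) i % 2 = e i % 2 := by
      show (2 • v i + e i) % 2 = e i % 2
      rw [smul_eq_mul]
      omega
    rw [h3]
    simp only [add_assoc]
  refine (Finset.sum_le_sum e2).trans ?_
  rw [← Finset.mul_sum]
  refine mul_le_mul_of_nonneg_left ?_ (by positivity)
  rw [Finset.sum_comm]
  unfold gr
  rw [Finset.mul_sum]
  refine Finset.sum_le_sum fun i _ => ?_
  refine le_trans (le_of_eq ?_) (ev_sum j l h i)
  rw [h0, sum_cu_mul (2 ^ l) (by norm_num : 0 < 2)]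

theorem av_zero (h : (Fin d → ℕ) → ℝ) (u : Fin d → ℕ) : av 0 h u = h u := by
  unfold av
  have h1 : cu d (2 ^ 0) = {0} := by
    ext x
    rw [mem_cu, Finset.mem_singleton]
    constructor
    · intro hx
      funext i
      have := hx i
      simp only [pow_zero, Nat.lt_one_iff] at this
      exact this
    · rintro rfl i
      simp
  rw [h1, Finset.sum_singleton]
  simp

theorem dv_dv (x : Fin d → ℕ) (a b : ℕ) : dv (dv x a) b = dv x (a * b) := by
  funext i
  exact Nat.div_div_eq_div_mul _ _ _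

/-- telescoping -/
theorem tele (k : ℕ) (h : (Fin d → ℕ) → ℝ) (x : Fin d → ℕ) (hx : x ∈ cu d (2 ^ k)) :
    h x - av k h 0 = ∑ j ∈ Finset.range k, bb j h (dv x (2 ^ j)) := by
  have h1 := Finset.sum_range_sub' (fun j => av j h (dv x (2 ^ j))) k
  have h2 : dv x (2 ^ 0) = x := by
    funext i
    simp [dv]
  have h3 : dv x (2 ^ k) = 0 := by
    rw [mem_cu] at hx
    funext i
    exact Nat.div_eq_of_lt (hx i)
  rw [h2, h3, av_zero] at h1
  rw [← h1]
  refine Finset.sum_congr rfl fun j _ => ?_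
  unfold bb
  rw [dv_dv, pow_succ]

/-- the weights -/
def gw (J j : ℕ) : ℝ := (2 / 3 : ℝ) ^ ((J - j) + (j - J))

theorem gw_pos (J j : ℕ) : 0 < gw J j := by
  unfold gw
  positivity

theorem geo_le (r : ℝ) (h0 : 0 ≤ r) (h1 : r < 1) (n : ℕ) :
    ∑ i ∈ Finset.range n, r ^ i ≤ (1 - r)⁻¹ := by
  rw [geom_sum_eq h1.ne]
  have h2 : (r ^ n - 1) / (r - 1) = (1 - r ^ n) / (1 - r) := by
    rw [← neg_div_neg_eq]
    congr 1 <;> ring
  rw [h2, div_eq_mul_inv]
  have h3 : 1 - r ^ n ≤ 1 := by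
    have := pow_nonneg h0 n
    linarith
  have h4 : 0 ≤ (1 - r)⁻¹ := inv_nonneg.2 (by linarith)
  calc (1 - r ^ n) * (1 - r)⁻¹ ≤ 1 * (1 - r)⁻¹ := mul_le_mul_of_nonneg_right h3 h4
    _ = _ := one_mul _

/-- splitting a sum over the levels at `J` -/
theorem split_le (k J : ℕ) (f p q : ℕ → ℝ) (P Q : ℝ)
    (h1 : ∀ j, j < J → f j ≤ p (J - j)) (h2 : ∀ j, J ≤ j → f j ≤ q (j - J))
    (hf : ∀ j, 0 ≤ f j)
    (hp : ∀ n, ∑ i ∈ Finset.range n, p (i + 1) ≤ P) (hq : ∀ n, ∑ i ∈ Finset.range n, q i ≤ Q) :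
    ∑ j ∈ Finset.range k, f j ≤ P + Q := by
  have e1 : ∑ j ∈ Finset.range k, f j ≤ ∑ j ∈ Finset.range (J + k), f j :=
    Finset.sum_le_sum_of_subset_of_nonneg (Finset.range_subset_range.2 (by omega))
      fun j _ _ => hf j
  rw [Finset.sum_range_add] at e1
  refine e1.trans (add_le_add ?_ ?_)
  · rw [← Finset.sum_range_reflect]
    refine le_trans (Finset.sum_le_sum fun j hj => ?_) (hp J)
    rw [Finset.mem_range] at hj
    have h3 := h1 (J - 1 - j) (by omega)
    rwa [show J - (J - 1 - j) = j + 1 by omega] at h3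
  · refine le_trans (Finset.sum_le_sum fun j hj => ?_) (hq k)
    have h3 := h2 (J + j) (by omega)
    rwa [show J + j - J = j by omega] at h3

theorem gw_sum (k J : ℕ) : ∑ j ∈ Finset.range k, gw J j ≤ 5 := by
  have h := split_le k J (gw J) (fun i => (2 / 3 : ℝ) ^ i) (fun i => (2 / 3 : ℝ) ^ i) 2 3 ?_ ?_
    (fun j => (gw_pos J j).le) ?_ ?_
  · linarith
  · intro j hj
    unfold gw
    rw [show J - j + (j - J) = J - j by omega]
  · intro j hj
    unfold gw
    rw [show J - j + (j - J) = j - J by omega]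
  · intro n
    have h1 : ∀ i ∈ Finset.range n, (2 / 3 : ℝ) ^ (i + 1) = 2 / 3 * (2 / 3 : ℝ) ^ i :=
      fun i _ => by rw [pow_succ']
    rw [Finset.sum_congr rfl h1, ← Finset.mul_sum]
    have := geo_le (2 / 3) (by norm_num) (by norm_num) n
    norm_num at this
    linarith
  · intro n
    have := geo_le (2 / 3) (by norm_num) (by norm_num) n
    norm_num at this
    linarith

/-- weighted Cauchy-Schwarz over the levels -/
theorem lev_cs (k J : ℕ) (c : ℕ → ℝ) :
    (∑ j ∈ Finset.range k, c j) ^ 2 ≤ 5 * ∑ j ∈ Finset.range k, c j ^ 2 / gw J j := by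
  rcases Nat.eq_zero_or_pos k with h0 | h0
  · subst h0
    simp
  have h1 := Finset.sq_sum_div_le_sum_sq_div (Finset.range k) c
    (g := gw J) (fun j _ => gw_pos J j)
  have h2 : 0 < ∑ j ∈ Finset.range k, gw J j :=
    Finset.sum_pos (fun j _ => gw_pos J j) ⟨0, Finset.mem_range.2 h0⟩
  rw [div_le_iff₀ h2] at h1
  have h3 : 0 ≤ ∑ j ∈ Finset.range k, c j ^ 2 / gw J j :=
    Finset.sum_nonneg fun j _ => div_nonneg (sq_nonneg _) (gw_pos J j).le
  calc _ ≤ (∑ j ∈ Finset.range k, c j ^ 2 / gw J j) * ∑ j ∈ Finset.range k, gw J j := h1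
    _ ≤ (∑ j ∈ Finset.range k, c j ^ 2 / gw J j) * 5 :=
        mul_le_mul_of_nonneg_left (gw_sum k J) h3
    _ = _ := mul_comm _ _

/-- the sum over the levels: `m j ≤ θ` and `m j ≤ T / 2^(j d)` -/
theorem lev_sum (hd : 3 ≤ d) (k J : ℕ) (m : ℕ → ℝ) (θ T : ℝ) (hθ : 0 ≤ θ) (hT : 0 ≤ T)
    (hm0 : ∀ j, 0 ≤ m j) (hm1 : ∀ j, m j ≤ θ) (hm2 : ∀ j, m j ≤ T * (((2 : ℝ) ^ j) ^ d)⁻¹) :
    ∑ j ∈ Finset.range k, m j * 4 ^ j / gw J j ≤ 4 ^ J * θ + 4 * (((1 / 2 : ℝ) ^ (d - 2)) ^ J * T) := by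
  refine split_le k J _ (fun i => 4 ^ J * θ * (3 / 8 : ℝ) ^ i)
    (fun i => ((1 / 2 : ℝ) ^ (d - 2)) ^ J * T * (3 / 4 : ℝ) ^ i) _ _ ?_ ?_ ?_ ?_ ?_
  · intro j hj
    obtain ⟨i, rfl⟩ : ∃ i, J = j + i := ⟨J - j, by omega⟩
    rw [show j + i - j = i by omega]
    unfold gw
    rw [show j + i - j + (j - (j + i)) = i by omega]
    have h1 : m j * 4 ^ j / (2 / 3 : ℝ) ^ i ≤ θ * 4 ^ j / (2 / 3 : ℝ) ^ i := by
      gcongr
      exact hm1 j
    refine h1.trans (le_of_eq ?_)
    rw [pow_add, div_eq_mul_inv, ← inv_pow]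
    have h2 : (3 / 8 : ℝ) ^ i * 4 ^ i = ((2 / 3 : ℝ)⁻¹) ^ i := by
      rw [← mul_pow]
      norm_num
    rw [← h2]
    ring
  · intro j hj
    obtain ⟨i, rfl⟩ : ∃ i, j = J + i := ⟨j - J, by omega⟩
    rw [show J + i - J = i by omega]
    unfold gw
    rw [show J - (J + i) + (J + i - J) = i by omega]
    have h1 : m (J + i) * 4 ^ (J + i) / (2 / 3 : ℝ) ^ i ≤
        T * (((2 : ℝ) ^ (J + i)) ^ d)⁻¹ * 4 ^ (J + i) / (2 / 3 : ℝ) ^ i := by
      gcongr
      exact hm2 _
    refine h1.trans ?_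
    obtain ⟨e, rfl⟩ : ∃ e, d = e + 3 := ⟨d - 3, by omega⟩
    rw [show e + 3 - 2 = e + 1 by omega]
    have h3 : (((2 : ℝ) ^ (J + i)) ^ (e + 3))⁻¹ * 4 ^ (J + i) = ((1 / 2 : ℝ) ^ (e + 1)) ^ (J + i) := by
      rw [← pow_mul, ← pow_mul]
      have h4 : (4 : ℝ) ^ (J + i) = 2 ^ ((J + i) * 2) := by
        rw [mul_comm (J + i) 2, pow_mul]
        norm_num
      rw [h4, one_div, inv_pow, ← div_eq_inv_mul, ← one_div, div_eq_div_iff (by positivity)
        (by positivity), one_mul, ← pow_add]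
      congr 1
      ring
    have h5 : ((1 / 2 : ℝ) ^ (e + 1)) ^ i ≤ (1 / 2 : ℝ) ^ i := by
      apply pow_le_pow_left₀ (by positivity)
      calc (1 / 2 : ℝ) ^ (e + 1) ≤ (1 / 2 : ℝ) ^ 1 :=
            pow_le_pow_of_le_one (by norm_num) (by norm_num) (by omega)
        _ = 1 / 2 := pow_one _
    have h6 : (3 / 4 : ℝ) ^ i = (1 / 2 : ℝ) ^ i * ((2 / 3 : ℝ) ^ i)⁻¹ := by
      rw [← inv_pow, ← mul_pow]
      norm_num
    calc T * (((2 : ℝ) ^ (J + i)) ^ (e + 3))⁻¹ * 4 ^ (J + i) / (2 / 3 : ℝ) ^ i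
        = T * (((1 / 2 : ℝ) ^ (e + 1)) ^ J * ((1 / 2 : ℝ) ^ (e + 1)) ^ i) * ((2 / 3 : ℝ) ^ i)⁻¹ := by
          rw [mul_assoc T, h3, pow_add]
          rfl
      _ ≤ T * (((1 / 2 : ℝ) ^ (e + 1)) ^ J * (1 / 2 : ℝ) ^ i) * ((2 / 3 : ℝ) ^ i)⁻¹ := by
          gcongr
      _ = _ := by
          rw [h6]
          ring
  · intro j
    have := gw_pos J j
    have := hm0 j
    positivity
  · intro n
    have h1 : ∀ i ∈ Finset.range n, 4 ^ J * θ * (3 / 8 : ℝ) ^ (i + 1) =
        4 ^ J * θ * (3 / 8) * (3 / 8 : ℝ) ^ i := fun i _ => by ring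
    rw [Finset.sum_congr rfl h1, ← Finset.mul_sum]
    have h2 := geo_le (3 / 8) (by norm_num) (by norm_num) n
    have h3 : 0 ≤ 4 ^ J * θ := by positivity
    calc 4 ^ J * θ * (3 / 8) * ∑ i ∈ Finset.range n, (3 / 8 : ℝ) ^ i
        ≤ 4 ^ J * θ * (3 / 8) * (1 - 3 / 8)⁻¹ := mul_le_mul_of_nonneg_left h2 (by positivity)
      _ ≤ 4 ^ J * θ := by
          have : (3 / 8 : ℝ) * (1 - 3 / 8)⁻¹ ≤ 1 := by norm_num
          nlinarith only [h3]
  · intro n
    rw [← Finset.mul_sum]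
    have h2 := geo_le (3 / 4) (by norm_num) (by norm_num) n
    have h3 : 0 ≤ ((1 / 2 : ℝ) ^ (d - 2)) ^ J * T := by positivity
    calc ((1 / 2 : ℝ) ^ (d - 2)) ^ J * T * ∑ i ∈ Finset.range n, (3 / 4 : ℝ) ^ i
        ≤ ((1 / 2 : ℝ) ^ (d - 2)) ^ J * T * (1 - 3 / 4)⁻¹ := mul_le_mul_of_nonneg_left h2 h3
      _ = _ := by
          norm_num
          ring

/-- the constant -/
def CS (d : ℕ) : ℝ := 20 * ((2 : ℝ) ^ d * d ^ 2)

theorem CS_nonneg (d : ℕ) : 0 ≤ CS d := by
  unfold CS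
  positivity

/-- SOB: the weighted Poincare inequality on a dyadic cube. -/
theorem sob (hd : 3 ≤ d) (k J : ℕ) (a h : (Fin d → ℕ) → ℝ) (θ T : ℝ)
    (ha0 : ∀ x ∈ cu d (2 ^ k), 0 ≤ a x) (ha1 : ∀ x ∈ cu d (2 ^ k), a x ≤ θ)
    (haT : ∑ x ∈ cu d (2 ^ k), a x ≤ T) :
    ∑ x ∈ cu d (2 ^ k), a x * (h x - av k h 0) ^ 2 ≤
      CS d * (4 ^ J * θ + ((1 / 2 : ℝ) ^ (d - 2)) ^ J * T) * gr d (2 ^ k) h := by
  have hT : 0 ≤ T := (Finset.sum_nonneg ha0).trans haT
  have hθ : 0 ≤ θ := by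
    have h0 : (0 : Fin d → ℕ) ∈ cu d (2 ^ k) := by
      rw [mem_cu]
      intro i
      exact Nat.pos_of_ne_zero (by positivity)
    exact (ha0 0 h0).trans (ha1 0 h0)
  have hg := gr_nonneg (d := d) (2 ^ k) h
  -- the levels
  have hlev : ∀ j ∈ Finset.range k, ∑ x ∈ cu d (2 ^ k), a x * bb j h (dv x (2 ^ j)) ^ 2 ≤
      min θ (T * (((2 : ℝ) ^ j) ^ d)⁻¹) * 4 ^ j * ((2 : ℝ) ^ d * d ^ 2 * gr d (2 ^ k) h) := by
    intro j hj
    rw [Finset.mem_range] at hj
    obtain ⟨l, rfl⟩ : ∃ l, k = j + (l + 1) := ⟨k - j - 1, by omega⟩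
    set n : ℕ := 2 ^ (j + (l + 1)) with hn
    have hn' : n = 2 ^ j * 2 ^ (l + 1) := pow_add 2 j (l + 1)
    have hp : 0 < ((2 : ℝ) ^ j) ^ d := by positivity
    have e1 : ∑ x ∈ cu d n, a x * bb j h (dv x (2 ^ j)) ^ 2 =
        ∑ u ∈ cu d (2 ^ (l + 1)), (∑ x ∈ cu d (2 ^ j), a (2 ^ j • u + x)) * bb j h u ^ 2 := by
      rw [hn', sum_cu_mul (2 ^ (l + 1)) (by positivity : 0 < 2 ^ j)]
      refine Finset.sum_congr rfl fun u _ => ?_
      rw [Finset.sum_mul]
      refine Finset.sum_congr rfl fun x hx => ?_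
      rw [dv_add hx]
    have hmem : ∀ u ∈ cu d (2 ^ (l + 1)), ∀ x ∈ cu d (2 ^ j), 2 ^ j • u + x ∈ cu d n := by
      intro u hu x hx
      rw [mem_cu] at hu hx ⊢
      intro i
      show 2 ^ j • u i + x i < n
      rw [smul_eq_mul, hn']
      have h1 := hu i
      have h2 := hx i
      have h3 : 2 ^ j * (u i + 1) ≤ 2 ^ j * 2 ^ (l + 1) := Nat.mul_le_mul_left _ h1
      rw [mul_add, mul_one] at h3
      omega
    have e2 : ∀ u ∈ cu d (2 ^ (l + 1)), ∑ x ∈ cu d (2 ^ j), a (2 ^ j • u + x) ≤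
        ((2 : ℝ) ^ j) ^ d * min θ (T * (((2 : ℝ) ^ j) ^ d)⁻¹) := by
      intro u hu
      rw [mul_min_of_nonneg _ _ hp.le]
      apply le_min
      · refine (Finset.sum_le_sum fun x hx => ha1 _ (hmem u hu x hx)).trans (le_of_eq ?_)
        rw [Finset.sum_const, nsmul_eq_mul, pc]
      · have h5 : ((2 : ℝ) ^ j) ^ d * (T * (((2 : ℝ) ^ j) ^ d)⁻¹) = T := by
          field_simp
        rw [h5]
        refine le_trans ?_ haT
        rw [hn', sum_cu_mul (2 ^ (l + 1)) (by positivity : 0 < 2 ^ j)]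
        refine Finset.single_le_sum (f := fun u => ∑ x ∈ cu d (2 ^ j), a (2 ^ j • u + x)) ?_ hu
        intro u hu
        exact Finset.sum_nonneg fun x hx => ha0 _ (hmem u hu x hx)
    have hmn : 0 ≤ min θ (T * (((2 : ℝ) ^ j) ^ d)⁻¹) := le_min hθ (by positivity)
    rw [e1]
    calc ∑ u ∈ cu d (2 ^ (l + 1)), (∑ x ∈ cu d (2 ^ j), a (2 ^ j • u + x)) * bb j h u ^ 2
        ≤ ∑ u ∈ cu d (2 ^ (l + 1)), ((2 : ℝ) ^ j) ^ d * min θ (T * (((2 : ℝ) ^ j) ^ d)⁻¹) *
            bb j h u ^ 2 :=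
          Finset.sum_le_sum fun u hu => mul_le_mul_of_nonneg_right (e2 u hu) (sq_nonneg _)
      _ = ((2 : ℝ) ^ j) ^ d * min θ (T * (((2 : ℝ) ^ j) ^ d)⁻¹) *
            ∑ u ∈ cu d (2 ^ (l + 1)), bb j h u ^ 2 := by rw [Finset.mul_sum]
      _ ≤ ((2 : ℝ) ^ j) ^ d * min θ (T * (((2 : ℝ) ^ j) ^ d)⁻¹) * ((2 : ℝ) ^ d * d ^ 2 *
            (4 ^ j * (((2 : ℝ) ^ j) ^ d)⁻¹ * gr d n h)) :=
          mul_le_mul_of_nonneg_left (level j l h) (by positivity)
      _ = _ := by
          field_simp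
  have hpt : ∀ x ∈ cu d (2 ^ k), a x * (h x - av k h 0) ^ 2 ≤
      5 * ∑ j ∈ Finset.range k, a x * bb j h (dv x (2 ^ j)) ^ 2 / gw J j := by
    intro x hx
    rw [tele k h x hx]
    have h1 := mul_le_mul_of_nonneg_left (lev_cs k J fun j => bb j h (dv x (2 ^ j))) (ha0 x hx)
    refine h1.trans (le_of_eq ?_)
    rw [Finset.mul_sum, Finset.mul_sum, Finset.mul_sum]
    exact Finset.sum_congr rfl fun j _ => by ring
  refine (Finset.sum_le_sum hpt).trans ?_
  rw [← Finset.mul_sum, Finset.sum_comm]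
  have h6 : ∑ j ∈ Finset.range k, ∑ x ∈ cu d (2 ^ k), a x * bb j h (dv x (2 ^ j)) ^ 2 / gw J j ≤
      ((2 : ℝ) ^ d * d ^ 2 * gr d (2 ^ k) h) * ∑ j ∈ Finset.range k,
        min θ (T * (((2 : ℝ) ^ j) ^ d)⁻¹) * 4 ^ j / gw J j := by
    rw [Finset.mul_sum]
    refine Finset.sum_le_sum fun j hj => ?_
    rw [← Finset.sum_div]
    have := gw_pos J j
    refine (div_le_div_of_nonneg_right (hlev j hj) this.le).trans (le_of_eq ?_)
    ring
  have h7 := lev_sum hd k J (fun j => min θ (T * (((2 : ℝ) ^ j) ^ d)⁻¹)) θ T hθ hT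
    (fun j => le_min hθ (by positivity)) (fun j => min_le_left _ _) (fun j => min_le_right _ _)
  have h8 : 0 ≤ (2 : ℝ) ^ d * d ^ 2 * gr d (2 ^ k) h := by positivity
  have h9 : 0 ≤ 4 ^ J * θ := by positivity
  calc 5 * ∑ j ∈ Finset.range k, ∑ x ∈ cu d (2 ^ k), a x * bb j h (dv x (2 ^ j)) ^ 2 / gw J j
      ≤ 5 * (((2 : ℝ) ^ d * d ^ 2 * gr d (2 ^ k) h) *
          (4 ^ J * θ + 4 * (((1 / 2 : ℝ) ^ (d - 2)) ^ J * T))) := by
        gcongr
        exact h6.trans (mul_le_mul_of_nonneg_left h7 h8)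
    _ ≤ 5 * (((2 : ℝ) ^ d * d ^ 2 * gr d (2 ^ k) h) *
          (4 * (4 ^ J * θ + (((1 / 2 : ℝ) ^ (d - 2)) ^ J * T)))) := by
        gcongr
        linarith only [h9]
    _ = _ := by
        unfold CS
        ring

/-- HLS: the pairing of a function with the fluctuation of `h`. -/
theorem hls (hd : 3 ≤ d) (k J : ℕ) (φ h : (Fin d → ℕ) → ℝ) :
    (∑ x ∈ cu d (2 ^ k), φ x * (h x - av k h 0)) ^ 2 ≤
      CS d * (4 ^ J * ∑ x ∈ cu d (2 ^ k), φ x ^ 2 +
        ((1 / 2 : ℝ) ^ (d - 2)) ^ J * (∑ x ∈ cu d (2 ^ k), |φ x|) ^ 2) * gr d (2 ^ k) h := by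
  set θ : ℝ := ∑ x ∈ cu d (2 ^ k), φ x ^ 2 with hθd
  set T : ℝ := (∑ x ∈ cu d (2 ^ k), |φ x|) ^ 2 with hTd
  have hT : 0 ≤ T := sq_nonneg _
  have hθ : 0 ≤ θ := Finset.sum_nonneg fun _ _ => sq_nonneg _
  have hg := gr_nonneg (d := d) (2 ^ k) h
  -- the levels
  have hlev : ∀ j ∈ Finset.range k, (∑ x ∈ cu d (2 ^ k), φ x * bb j h (dv x (2 ^ j))) ^ 2 ≤
      min θ (T * (((2 : ℝ) ^ j) ^ d)⁻¹) * 4 ^ j * ((2 : ℝ) ^ d * d ^ 2 * gr d (2 ^ k) h) := by
    intro j hj
    rw [Finset.mem_range] at hj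
    obtain ⟨l, hl⟩ : ∃ l, k = j + (l + 1) := ⟨k - j - 1, by omega⟩
    have hn' : 2 ^ k = 2 ^ j * 2 ^ (l + 1) := by rw [hl]; exact pow_add 2 j (l + 1)
    have hp : 0 < ((2 : ℝ) ^ j) ^ d := by positivity
    set Φ : (Fin d → ℕ) → ℝ := fun u => ∑ x ∈ cu d (2 ^ j), φ (2 ^ j • u + x) with hΦ
    have e1 : ∑ x ∈ cu d (2 ^ k), φ x * bb j h (dv x (2 ^ j)) =
        ∑ u ∈ cu d (2 ^ (l + 1)), Φ u * bb j h u := by
      rw [hn', sum_cu_mul (2 ^ (l + 1)) (by positivity : 0 < 2 ^ j)]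
      refine Finset.sum_congr rfl fun u _ => ?_
      rw [hΦ]
      dsimp only
      rw [Finset.sum_mul]
      refine Finset.sum_congr rfl fun x hx => ?_
      rw [dv_add hx]
    have e2 : ∑ u ∈ cu d (2 ^ (l + 1)), Φ u ^ 2 ≤
        ((2 : ℝ) ^ j) ^ d * min θ (T * (((2 : ℝ) ^ j) ^ d)⁻¹) := by
      rw [mul_min_of_nonneg _ _ hp.le]
      apply le_min
      · have h1 : ∀ u ∈ cu d (2 ^ (l + 1)), Φ u ^ 2 ≤ ((2 : ℝ) ^ j) ^ d *
            ∑ x ∈ cu d (2 ^ j), φ (2 ^ j • u + x) ^ 2 := by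
          intro u _
          have := sq_sum_le (cu d (2 ^ j)) (fun x => φ (2 ^ j • u + x))
          rwa [pc] at this
        refine (Finset.sum_le_sum h1).trans (le_of_eq ?_)
        rw [← Finset.mul_sum, hθd, hn', sum_cu_mul (2 ^ (l + 1)) (by positivity : 0 < 2 ^ j)]
      · have h5 : ((2 : ℝ) ^ j) ^ d * (T * (((2 : ℝ) ^ j) ^ d)⁻¹) = T := by
          field_simp
        rw [h5]
        have h6 : ∀ u ∈ cu d (2 ^ (l + 1)), Φ u ^ 2 ≤
            (∑ x ∈ cu d (2 ^ j), |φ (2 ^ j • u + x)|) ^ 2 := by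
          intro u _
          rw [← sq_abs]
          exact pow_le_pow_left₀ (abs_nonneg _) (Finset.abs_sum_le_sum_abs _ _) 2
        refine (Finset.sum_le_sum h6).trans ?_
        have h7 := sum_sq_le (cu d (2 ^ (l + 1)))
          (fun u => ∑ x ∈ cu d (2 ^ j), |φ (2 ^ j • u + x)|)
          (fun u _ => Finset.sum_nonneg fun _ _ => abs_nonneg _)
        refine h7.trans (le_of_eq ?_)
        rw [hTd, hn', sum_cu_mul (2 ^ (l + 1)) (by positivity : 0 < 2 ^ j)]
    have hmn : 0 ≤ min θ (T * (((2 : ℝ) ^ j) ^ d)⁻¹) := le_min hθ (by positivity)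
    rw [e1]
    have h8 := level j l h
    rw [← hl] at h8
    calc (∑ u ∈ cu d (2 ^ (l + 1)), Φ u * bb j h u) ^ 2
        ≤ (∑ u ∈ cu d (2 ^ (l + 1)), Φ u ^ 2) * ∑ u ∈ cu d (2 ^ (l + 1)), bb j h u ^ 2 :=
          Finset.sum_mul_sq_le_sq_mul_sq _ _ _
      _ ≤ (((2 : ℝ) ^ j) ^ d * min θ (T * (((2 : ℝ) ^ j) ^ d)⁻¹)) * ((2 : ℝ) ^ d * d ^ 2 *
            (4 ^ j * (((2 : ℝ) ^ j) ^ d)⁻¹ * gr d (2 ^ k) h)) :=
          mul_le_mul e2 h8 (Finset.sum_nonneg fun _ _ => sq_nonneg _) (by positivity)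
      _ = _ := by
          field_simp
  have e0 : ∑ x ∈ cu d (2 ^ k), φ x * (h x - av k h 0) =
      ∑ j ∈ Finset.range k, ∑ x ∈ cu d (2 ^ k), φ x * bb j h (dv x (2 ^ j)) := by
    rw [Finset.sum_comm]
    refine Finset.sum_congr rfl fun x hx => ?_
    rw [tele k h x hx, Finset.mul_sum]
  rw [e0]
  refine (lev_cs k J _).trans ?_
  have h6 : ∑ j ∈ Finset.range k,
      (∑ x ∈ cu d (2 ^ k), φ x * bb j h (dv x (2 ^ j))) ^ 2 / gw J j ≤
      ((2 : ℝ) ^ d * d ^ 2 * gr d (2 ^ k) h) * ∑ j ∈ Finset.range k,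
        min θ (T * (((2 : ℝ) ^ j) ^ d)⁻¹) * 4 ^ j / gw J j := by
    rw [Finset.mul_sum]
    refine Finset.sum_le_sum fun j hj => ?_
    have := gw_pos J j
    refine (div_le_div_of_nonneg_right (hlev j hj) this.le).trans (le_of_eq ?_)
    ring
  have h7 := lev_sum hd k J (fun j => min θ (T * (((2 : ℝ) ^ j) ^ d)⁻¹)) θ T hθ hT
    (fun j => le_min hθ (by positivity)) (fun j => min_le_left _ _) (fun j => min_le_right _ _)
  have h8 : 0 ≤ (2 : ℝ) ^ d * d ^ 2 * gr d (2 ^ k) h := by positivity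
  have h9 : 0 ≤ 4 ^ J * θ := by positivity
  calc 5 * ∑ j ∈ Finset.range k,
        (∑ x ∈ cu d (2 ^ k), φ x * bb j h (dv x (2 ^ j))) ^ 2 / gw J j
      ≤ 5 * (((2 : ℝ) ^ d * d ^ 2 * gr d (2 ^ k) h) *
          (4 ^ J * θ + 4 * (((1 / 2 : ℝ) ^ (d - 2)) ^ J * T))) := by
        gcongr
        exact h6.trans (mul_le_mul_of_nonneg_left h7 h8)
    _ ≤ 5 * (((2 : ℝ) ^ d * d ^ 2 * gr d (2 ^ k) h) *
          (4 * (4 ^ J * θ + (((1 / 2 : ℝ) ^ (d - 2)) ^ J * T)))) := by
        gcongr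
        linarith only [h9]
    _ = _ := by
        unfold CS
        ring

end Pool.Agent.NAS
end
end -- Pool.Agent.Helper17_NAS.Cube

section -- Pool.Agent.Helper67_MAJ.MAJ

/-!
# Row MAJ: the dual form of the lower bound, with a small smooth part

From the lower bound by the Moreau form on the torus: for `f = 0` off `B`, `φ = 0` off `B2 ⊆ B`,
`2 ∑ f φ ≤ Q f + ∑_(B2) p_x φ_x² + S0 (∑ |φ|)²` with `p_x = 1 / al_x + 2 C 4^J / b0` and
`S0 = (2 C / b0) 2^(-(d-2) J) + 8 / (m 2^(kd)) + 32 C 4^k / (b0 2^(kd))`. Everything happens in the cube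
`Box a (2^k) ⊇ B`, in which at least a quarter of the sites is off `B` and has `al ≥ m`.
-/

set_option autoImplicit false

open scoped BigOperators

noncomputable section

namespace Pool.Agent.MAJ

open Pool.Agent.LTG
open Pool.Agent.NAS (cu gr gi av CS sob hls mem_cu card_cu)

variable {d M : ℕ} [NeZero M]

theorem sum_cu (a : Tor d M) {L : ℕ} (hL : L ≤ M) (φ : Tor d M → ℝ) :
    ∑ x, (if Box a L x then φ x else 0) = ∑ u ∈ cu d L, φ (pt a u) := by
  rw [← Finset.sum_filter]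
  symm
  refine Finset.sum_bij' (fun u _ => pt a u) (fun x _ => off a x) ?_ ?_ ?_ ?_ ?_
  · intro u hu
    rw [mem_cu] at hu
    rw [Finset.mem_filter]
    refine ⟨Finset.mem_univ _, fun i => ?_⟩
    rw [off_pt a u i (lt_of_lt_of_le (hu i) hL)]
    exact hu i
  · intro x hx
    rw [mem_cu]
    exact (Finset.mem_filter.mp hx).2
  · intro u hu
    rw [mem_cu] at hu
    funext i
    exact off_pt a u i (lt_of_lt_of_le (hu i) hL)
  · intro x _
    exact pt_off a x
  · intro u _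
    rfl

/-- a sum over a subset of the box -/
theorem sum_sub (a : Tor d M) {L : ℕ} (hL : L ≤ M) (φ : Tor d M → ℝ)
    (h0 : ∀ x, ¬ Box a L x → φ x = 0) : ∑ x, φ x = ∑ u ∈ cu d L, φ (pt a u) := by
  rw [← sum_cu a hL]
  refine Finset.sum_congr rfl fun x _ => ?_
  by_cases h : Box a L x
  · rw [if_pos h]
  · rw [if_neg h, h0 x h]

/-- the energy of the bonds in the cube -/
theorem gr_le (a : Tor d M) {L : ℕ} (hL : L ≤ M) (h : Tor d M → ℝ) :
    gr d L (fun u => h (pt a u)) ≤ bon sT tT (cutE sT tT (Box a L) (fun _ => 1)) h := by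
  unfold bon gr
  rw [Fintype.sum_prod_type]
  refine Finset.sum_le_sum fun k _ => ?_
  have h1 : gi d L k (fun u : Fin d → ℕ => h (pt a u)) = ∑ x, (if Box a L x then
      (if off a x k + 1 < L then (h (x + Pi.single k 1) - h x) ^ 2 else 0) else 0) := by
    rw [sum_cu a hL]
    unfold gi
    refine Finset.sum_congr rfl fun u hu => ?_
    rw [mem_cu] at hu
    rw [off_pt a u k (lt_of_lt_of_le (hu k) hL)]
    simp only [pt_add]
  rw [h1]
  refine Finset.sum_le_sum fun x _ => ?_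
  by_cases hb : Box a L x
  · rw [if_pos hb]
    by_cases hk : off a x k + 1 < L
    · rw [if_pos hk]
      have hb2 : Box a L (x + Pi.single k 1) := by
        intro i
        rw [off_add]
        by_cases hi : i = k
        · rw [if_pos hi]
          split
          · exact hk
          · omega
        · rw [if_neg hi]; exact hb i
      have : cutE sT tT (Box a L) (fun _ => 1) (k, x) = 1 := by
        unfold cutE
        rw [if_pos ⟨hb, hb2⟩]
      rw [this, one_mul]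
      exact le_rfl
    · rw [if_neg hk]
      unfold cutE
      split <;> positivity
  · rw [if_neg hb]
    unfold cutE
    split <;> positivity

/-- the constant in front of the square of the `ℓ¹` norm -/
def S0 (d k J : ℕ) (b0 m : ℝ) : ℝ :=
  2 * CS d / b0 * ((1 / 2 : ℝ) ^ (d - 2)) ^ J + 8 / (m * ((2 : ℝ) ^ k) ^ d) +
    32 * CS d * 4 ^ k / (b0 * ((2 : ℝ) ^ k) ^ d)

theorem CS_pos (hd : 3 ≤ d) : 0 < CS d := by
  unfold CS
  have : (0 : ℝ) < d := by exact_mod_cast (by omega : 0 < d)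
  positivity

/-- MAJ -/
theorem maj (hd : 3 ≤ d) (a : Tor d M) (k J : ℕ) (hk : 2 ^ k ≤ M) {Q : (Tor d M → ℝ) → ℝ}
    {al : Tor d M → ℝ} {be : Bd d M → ℝ} (hQ : LB sT tT Q al be) (hal : ∀ x, 0 ≤ al x)
    (hbe0 : ∀ e, 0 ≤ be e) {b0 m : ℝ} (hb0 : 0 < b0) (hm : 0 < m)
    (hbe : ∀ e, Box a (2 ^ k) (sT e) → Box a (2 ^ k) (tT e) → b0 ≤ be e)
    {B B2 Z : Finset (Tor d M)} (hB : ∀ x ∈ B, Box a (2 ^ k) x) (hB2 : B2 ⊆ B)
    (hB2a : ∀ x ∈ B2, 0 < al x)
    (hZ : ∀ x ∈ Z, Box a (2 ^ k) x ∧ x ∉ B ∧ m ≤ al x)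
    (hZc : ((2 : ℝ) ^ k) ^ d ≤ 4 * Z.card) (f φ : Tor d M → ℝ)
    (hf : ∀ x, x ∉ B → f x = 0) (hφ : ∀ x, x ∉ B2 → φ x = 0) :
    2 * ∑ x, f x * φ x ≤ Q f + ∑ x ∈ B2, φ x ^ 2 / al x +
      2 * CS d * 4 ^ J / b0 * ∑ x, φ x ^ 2 + S0 d k J b0 m * (∑ x, |φ x|) ^ 2 := by
  have hCS := CS_pos hd
  obtain ⟨h, hh⟩ := hQ f
  set L : ℕ := 2 ^ k with hL
  set H : (Fin d → ℕ) → ℝ := fun u => h (pt a u) with hH
  set hm' : ℝ := av k H 0 with hhm
  set g : ℝ := gr d L H with hg
  have hg0 : 0 ≤ g := Pool.Agent.NAS.gr_nonneg _ _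
  have hφB : ∀ x, ¬ Box a L x → φ x = 0 := fun x hx =>
    hφ x fun hx2 => hx (hB x (hB2 hx2))
  -- the volume
  have hvol : 0 < ((2 : ℝ) ^ k) ^ d := by positivity
  have hZ0 : (0 : ℝ) < Z.card := by linarith only [hvol, hZc]
  -- (1) the white part
  have e1 : ∑ x, f x * φ x = ∑ x, (f x - h x) * φ x + ∑ x, φ x * (h x - hm') +
      hm' * ∑ x, φ x := by
    rw [Finset.mul_sum, ← Finset.sum_add_distrib, ← Finset.sum_add_distrib]
    refine Finset.sum_congr rfl fun x _ => ?_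
    ring
  have w1 : 2 * ∑ x, (f x - h x) * φ x ≤ ∑ x ∈ B2, al x * (f x - h x) ^ 2 +
      ∑ x ∈ B2, φ x ^ 2 / al x := by
    rw [← Finset.sum_subset (Finset.subset_univ B2)
      (fun x _ hx => by rw [hφ x hx, mul_zero]), Finset.mul_sum, ← Finset.sum_add_distrib]
    refine Finset.sum_le_sum fun x hx => ?_
    have h1 := hB2a x hx
    have h2 : 0 ≤ (al x * (f x - h x) - φ x) ^ 2 / al x := div_nonneg (sq_nonneg _) h1.le
    have h3 : (al x * (f x - h x) - φ x) ^ 2 / al x =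
        al x * (f x - h x) ^ 2 - 2 * ((f x - h x) * φ x) + φ x ^ 2 / al x := by
      field_simp
      ring
    linarith only [h2, h3]
  -- (2) the fluctuation of `h`
  have e2 : ∑ x, φ x * (h x - hm') = ∑ u ∈ cu d L, φ (pt a u) * (H u - hm') :=
    sum_sub a hk _ fun x hx => by rw [hφB x hx, zero_mul]
  have e3 : ∑ x, φ x ^ 2 = ∑ u ∈ cu d L, φ (pt a u) ^ 2 :=
    sum_sub a hk _ fun x hx => by rw [hφB x hx]; norm_num
  have e4 : ∑ x, |φ x| = ∑ u ∈ cu d L, |φ (pt a u)| :=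
    sum_sub a hk _ fun x hx => by rw [hφB x hx, abs_zero]
  have w2 : 2 * ∑ x, φ x * (h x - hm') ≤ b0 / 2 * g + 2 / b0 * (CS d * (4 ^ J * ∑ x, φ x ^ 2 +
      ((1 / 2 : ℝ) ^ (d - 2)) ^ J * (∑ x, |φ x|) ^ 2)) := by
    have h1 := hls hd k J (fun u => φ (pt a u)) H
    rw [← e2, ← e3, ← e4] at h1
    set X := ∑ x, φ x * (h x - hm')
    set Y := CS d * (4 ^ J * ∑ x, φ x ^ 2 + ((1 / 2 : ℝ) ^ (d - 2)) ^ J * (∑ x, |φ x|) ^ 2) with hY
    have hY0 : 0 ≤ Y := by
      have : 0 ≤ ∑ x, φ x ^ 2 := Finset.sum_nonneg fun _ _ => sq_nonneg _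
      exact mul_nonneg hCS.le (add_nonneg (mul_nonneg (pow_nonneg (by norm_num) _) this)
        (mul_nonneg (pow_nonneg (pow_nonneg (by norm_num) _) _) (sq_nonneg _)))
    have h2 : (2 * X) ^ 2 ≤ (b0 / 2 * g + 2 / b0 * Y) ^ 2 := by
      have h3 : 4 * (Y * g) ≤ (b0 / 2 * g + 2 / b0 * Y) ^ 2 := by
        have h4 : (b0 / 2 * g + 2 / b0 * Y) ^ 2 - 4 * (Y * g) = (b0 / 2 * g - 2 / b0 * Y) ^ 2 := by
          field_simp
          ring
        linarith only [h4, sq_nonneg (b0 / 2 * g - 2 / b0 * Y)]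
      calc (2 * X) ^ 2 = 4 * X ^ 2 := by ring
        _ ≤ 4 * (Y * g) := by linarith only [h1]
        _ ≤ _ := h3
    exact (abs_le_of_sq_le_sq' h2 (add_nonneg (mul_nonneg (half_pos hb0).le hg0)
      (mul_nonneg (div_pos two_pos hb0).le hY0))).2
  -- (3) the mean of `h`
  have pz : ∑ u ∈ cu d L, (H u - hm') ^ 2 ≤ 2 * CS d * 4 ^ k * g := by
    have h1 := sob hd k k (fun _ => 1) H 1 (((2 : ℝ) ^ k) ^ d) (fun _ _ => zero_le_one)
      (fun _ _ => le_rfl) (by
        rw [Finset.sum_const, nsmul_eq_mul, mul_one, card_cu]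
        push_cast
        exact le_rfl)
    simp only [one_mul] at h1
    have h2 : (((1 / 2 : ℝ) ^ (d - 2)) ^ k * ((2 : ℝ) ^ k) ^ d) = 4 ^ k := by
      obtain ⟨e, rfl⟩ : ∃ e, d = e + 2 := ⟨d - 2, by omega⟩
      have h3 : e + 2 - 2 = e := by omega
      rw [h3, ← pow_mul, ← pow_mul, mul_comm e k, mul_comm k (e + 2)]
      have h4 : (4 : ℝ) = 2 ^ 2 := by norm_num
      rw [h4, ← pow_mul, one_div, inv_pow, ← one_div, one_div_mul_eq_div, div_eq_iff (by positivity),
        ← pow_add]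
      congr 1
      ring
    rw [h2] at h1
    refine h1.trans (le_of_eq ?_)
    ring
  set P : ℝ := ∑ x ∈ Z, al x * h x ^ 2 with hP
  have hP0 : 0 ≤ P := Finset.sum_nonneg fun x _ => mul_nonneg (hal x) (sq_nonneg _)
  have w3a : hm' ^ 2 * Z.card ≤ 2 / m * P + 4 * CS d * 4 ^ k * g := by
    have h1 : ∀ x ∈ Z, hm' ^ 2 ≤ 2 / m * (al x * h x ^ 2) + 2 * (h x - hm') ^ 2 := by
      intro x hx
      obtain ⟨-, -, h3⟩ := hZ x hx
      have h4 : h x ^ 2 ≤ 1 / m * (al x * h x ^ 2) := by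
        have : m * h x ^ 2 ≤ al x * h x ^ 2 := mul_le_mul_of_nonneg_right h3 (sq_nonneg _)
        rw [one_div, le_inv_mul_iff₀ hm]
        exact this
      have h5 : 2 / m * (al x * h x ^ 2) = 2 * (1 / m * (al x * h x ^ 2)) := by ring
      rw [h5]
      linarith only [h4, sq_nonneg (h x + (h x - hm'))]
    have h2 := Finset.sum_le_sum h1
    rw [Finset.sum_const, nsmul_eq_mul, Finset.sum_add_distrib, ← Finset.mul_sum,
      ← Finset.mul_sum] at h2
    have h3 : ∑ x ∈ Z, (h x - hm') ^ 2 ≤ ∑ u ∈ cu d L, (H u - hm') ^ 2 := by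
      rw [hH, ← sum_cu a hk (fun x => (h x - hm') ^ 2), ← Finset.sum_filter]
      refine Finset.sum_le_sum_of_subset_of_nonneg (fun x hx => ?_) fun x _ _ => sq_nonneg _
      rw [Finset.mem_filter]
      exact ⟨Finset.mem_univ _, (hZ x hx).1⟩
    rw [mul_comm]
    refine h2.trans ?_
    have h4 := h3.trans pz
    linarith only [h4]
  set c' : ℝ := 2 / (m * Z.card) + 8 * CS d * 4 ^ k / (b0 * Z.card) with hc'
  have hCS4 : 0 < 8 * CS d * 4 ^ k :=
    mul_pos (mul_pos (by norm_num) hCS) (pow_pos (by norm_num) _)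
  have hc'0 : 0 < c' :=
    add_pos (div_pos two_pos (mul_pos hm hZ0)) (div_pos hCS4 (mul_pos hb0 hZ0))
  have w3b : hm' ^ 2 ≤ c' * (P + b0 / 2 * g) := by
    have h1 : hm' ^ 2 ≤ (2 / m * P + 4 * CS d * 4 ^ k * g) / Z.card := by
      rw [le_div_iff₀ hZ0]; exact w3a
    refine h1.trans ?_
    have h2 : c' * (P + b0 / 2 * g) - (2 / m * P + 4 * CS d * 4 ^ k * g) / Z.card =
        8 * CS d * 4 ^ k / (b0 * Z.card) * P + 2 / (m * Z.card) * (b0 / 2 * g) := by
      rw [hc']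
      field_simp
      ring
    have h3 : 0 ≤ 8 * CS d * 4 ^ k / (b0 * Z.card) * P + 2 / (m * Z.card) * (b0 / 2 * g) :=
      add_nonneg (mul_nonneg (div_pos hCS4 (mul_pos hb0 hZ0)).le hP0)
        (mul_nonneg (div_pos two_pos (mul_pos hm hZ0)).le (mul_nonneg (half_pos hb0).le hg0))
    linarith only [h2, h3]
  have w3 : 2 * (hm' * ∑ x, φ x) ≤ P + b0 / 2 * g + c' * (∑ x, |φ x|) ^ 2 := by
    have h1 : 2 * (hm' * ∑ x, φ x) ≤ hm' ^ 2 / c' + c' * (∑ x, φ x) ^ 2 := by
      have h2 : 0 ≤ (hm' - c' * ∑ x, φ x) ^ 2 / c' := div_nonneg (sq_nonneg _) hc'0.le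
      have h3 : (hm' - c' * ∑ x, φ x) ^ 2 / c' =
          hm' ^ 2 / c' - 2 * (hm' * ∑ x, φ x) + c' * (∑ x, φ x) ^ 2 := by
        field_simp
        ring
      linarith only [h2, h3]
    have h2 : hm' ^ 2 / c' ≤ P + b0 / 2 * g := by
      rw [div_le_iff₀ hc'0, mul_comm]
      exact w3b
    have h3 : (∑ x, φ x) ^ 2 ≤ (∑ x, |φ x|) ^ 2 := by
      rw [← sq_abs]
      exact pow_le_pow_left₀ (abs_nonneg _) (Finset.abs_sum_le_sum_abs _ _) 2
    have h4 := mul_le_mul_of_nonneg_left h3 hc'0.le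
    linarith only [h1, h2, h4]
  -- the form
  have hmor : ∑ x ∈ B2, al x * (f x - h x) ^ 2 + P + b0 * g ≤ Q f := by
    refine le_trans ?_ hh
    unfold mor
    refine add_le_add ?_ ?_
    · have h1 : P = ∑ x ∈ Z, al x * (f x - h x) ^ 2 := by
        refine Finset.sum_congr rfl fun x hx => ?_
        rw [hf x (hZ x hx).2.1]
        ring
      have hdis : Disjoint B2 Z := by
        rw [Finset.disjoint_left]
        intro x hx hx'
        exact (hZ x hx').2.1 (hB2 hx)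
      rw [h1, ← Finset.sum_union hdis]
      exact Finset.sum_le_sum_of_subset_of_nonneg (Finset.subset_univ _) fun x _ _ =>
        mul_nonneg (hal x) (sq_nonneg _)
    · have h1 := mul_le_mul_of_nonneg_left (gr_le a hk h) hb0.le
      refine h1.trans ?_
      unfold bon
      rw [Finset.mul_sum]
      refine Finset.sum_le_sum fun e _ => ?_
      rw [← mul_assoc]
      refine mul_le_mul_of_nonneg_right ?_ (sq_nonneg _)
      unfold cutE
      split_ifs with h2
      · rw [mul_one]; exact hbe e h2.1 h2.2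
      · rw [mul_zero]; exact hbe0 e
  have hc'le : c' ≤ 8 / (m * ((2 : ℝ) ^ k) ^ d) + 32 * CS d * 4 ^ k / (b0 * ((2 : ℝ) ^ k) ^ d) := by
    have h1 : 2 / (m * (Z.card : ℝ)) ≤ 8 / (m * ((2 : ℝ) ^ k) ^ d) := by
      rw [div_le_div_iff₀ (mul_pos hm hZ0) (mul_pos hm hvol)]
      linarith only [mul_le_mul_of_nonneg_left hZc hm.le]
    have h2 : 8 * CS d * 4 ^ k / (b0 * (Z.card : ℝ)) ≤
        32 * CS d * 4 ^ k / (b0 * ((2 : ℝ) ^ k) ^ d) := by
      rw [div_le_div_iff₀ (mul_pos hb0 hZ0) (mul_pos hb0 hvol)]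
      linarith only [mul_le_mul_of_nonneg_left hZc (mul_pos hCS4 hb0).le]
    exact add_le_add h1 h2
  have hsq : 0 ≤ (∑ x, |φ x|) ^ 2 := sq_nonneg _
  have hfin := mul_le_mul_of_nonneg_right hc'le hsq
  have e5 : S0 d k J b0 m * (∑ x, |φ x|) ^ 2 = 2 / b0 * (CS d * (((1 / 2 : ℝ) ^ (d - 2)) ^ J *
      (∑ x, |φ x|) ^ 2)) + (8 / (m * ((2 : ℝ) ^ k) ^ d) +
        32 * CS d * 4 ^ k / (b0 * ((2 : ℝ) ^ k) ^ d)) * (∑ x, |φ x|) ^ 2 := by
    unfold S0
    ring
  have e6 : 2 / b0 * (CS d * (4 ^ J * ∑ x, φ x ^ 2 +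
      ((1 / 2 : ℝ) ^ (d - 2)) ^ J * (∑ x, |φ x|) ^ 2)) = 2 * CS d * 4 ^ J / b0 * ∑ x, φ x ^ 2 +
      2 / b0 * (CS d * (((1 / 2 : ℝ) ^ (d - 2)) ^ J * (∑ x, |φ x|) ^ 2)) := by
    ring
  rw [e6] at w2
  rw [e1, e5]
  linarith

/-- MAJ with one weight `p` -/
theorem maj' (hd : 3 ≤ d) (a : Tor d M) (k J : ℕ) (hk : 2 ^ k ≤ M) {Q : (Tor d M → ℝ) → ℝ}
    {al : Tor d M → ℝ} {be : Bd d M → ℝ} (hQ : LB sT tT Q al be) (hal : ∀ x, 0 ≤ al x)
    (hbe0 : ∀ e, 0 ≤ be e) {b0 m : ℝ} (hb0 : 0 < b0) (hm : 0 < m)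
    (hbe : ∀ e, Box a (2 ^ k) (sT e) → Box a (2 ^ k) (tT e) → b0 ≤ be e)
    {B B2 Z : Finset (Tor d M)} (hB : ∀ x ∈ B, Box a (2 ^ k) x) (hB2 : B2 ⊆ B)
    (hB2a : ∀ x ∈ B2, 0 < al x)
    (hZ : ∀ x ∈ Z, Box a (2 ^ k) x ∧ x ∉ B ∧ m ≤ al x)
    (hZc : ((2 : ℝ) ^ k) ^ d ≤ 4 * Z.card) {p : Tor d M → ℝ} {s0 : ℝ}
    (hp : ∀ x ∈ B2, 1 / al x + 2 * CS d * 4 ^ J / b0 ≤ p x) (hs0 : S0 d k J b0 m ≤ s0)
    (f φ : Tor d M → ℝ)
    (hf : ∀ x, x ∉ B → f x = 0) (hφ : ∀ x, x ∉ B2 → φ x = 0) :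
    2 * ∑ x, f x * φ x - ∑ x ∈ B2, p x * φ x ^ 2 - s0 * (∑ x, |φ x|) ^ 2 ≤ Q f := by
  have h1 := maj hd a k J hk hQ hal hbe0 hb0 hm hbe hB hB2 hB2a hZ hZc f φ hf hφ
  have h2 : ∑ x ∈ B2, φ x ^ 2 / al x + 2 * CS d * 4 ^ J / b0 * ∑ x, φ x ^ 2 ≤
      ∑ x ∈ B2, p x * φ x ^ 2 := by
    have e1 : ∑ x, φ x ^ 2 = ∑ x ∈ B2, φ x ^ 2 :=
      (Finset.sum_subset (Finset.subset_univ B2) fun x _ hx => by rw [hφ x hx]; norm_num).symm
    rw [e1, Finset.mul_sum, ← Finset.sum_add_distrib]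
    refine Finset.sum_le_sum fun x hx => ?_
    have := mul_le_mul_of_nonneg_right (hp x hx) (sq_nonneg (φ x))
    calc φ x ^ 2 / al x + 2 * CS d * 4 ^ J / b0 * φ x ^ 2 =
        (1 / al x + 2 * CS d * 4 ^ J / b0) * φ x ^ 2 := by ring
      _ ≤ _ := this
  have h3 := mul_le_mul_of_nonneg_right hs0 (sq_nonneg (∑ x, |φ x|))
  linarith

end Pool.Agent.MAJ
end
end -- Pool.Agent.Helper67_MAJ.MAJ

section -- Pool.Agent.Helper67_MAJ.MAJ2

/-!
# Row MAJ, two classes of sites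

As `maj`, but the sites of `B2` are divided into young sites (level `J`, small constant `S2 J`) and old
sites `O` (level `J'`, constant `S2 J'`).
-/

set_option autoImplicit false

open scoped BigOperators

noncomputable section

namespace Pool.Agent.MAJ

open Pool.Agent.LTG
open Pool.Agent.NAS (cu gr gi av CS sob hls mem_cu card_cu)

variable {d M : ℕ} [NeZero M]

/-- the constant in front of the square of the `ℓ¹` norm -/
def S2 (d k J : ℕ) (b0 m : ℝ) : ℝ :=
  4 * CS d / b0 * ((1 / 2 : ℝ) ^ (d - 2)) ^ J + 16 / (m * ((2 : ℝ) ^ k) ^ d) +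
    64 * CS d * 4 ^ k / (b0 * ((2 : ℝ) ^ k) ^ d)

/-- the pairing with the fluctuation of `h` on the cube -/
theorem hls_box (hd : 3 ≤ d) (a : Tor d M) (k J : ℕ) (hk : 2 ^ k ≤ M) (h φ : Tor d M → ℝ)
    (hφB : ∀ x, ¬ Box a (2 ^ k) x → φ x = 0) {b0 : ℝ} (hb0 : 0 < b0) :
    2 * ∑ x, φ x * (h x - av k (fun u => h (pt a u)) 0) ≤
      b0 / 4 * gr d (2 ^ k) (fun u => h (pt a u)) + 4 / b0 * (CS d * (4 ^ J * ∑ x, φ x ^ 2 +
        ((1 / 2 : ℝ) ^ (d - 2)) ^ J * (∑ x, |φ x|) ^ 2)) := by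
  have hCS := CS_pos hd
  set L : ℕ := 2 ^ k with hL
  set H : (Fin d → ℕ) → ℝ := fun u => h (pt a u) with hH
  set hm' : ℝ := av k H 0 with hhm
  set g : ℝ := gr d L H with hg
  have hg0 : 0 ≤ g := Pool.Agent.NAS.gr_nonneg _ _
  have e2 : ∑ x, φ x * (h x - hm') = ∑ u ∈ cu d L, φ (pt a u) * (H u - hm') :=
    sum_sub a hk _ fun x hx => by rw [hφB x hx, zero_mul]
  have e3 : ∑ x, φ x ^ 2 = ∑ u ∈ cu d L, φ (pt a u) ^ 2 :=
    sum_sub a hk _ fun x hx => by rw [hφB x hx]; norm_num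
  have e4 : ∑ x, |φ x| = ∑ u ∈ cu d L, |φ (pt a u)| :=
    sum_sub a hk _ fun x hx => by rw [hφB x hx, abs_zero]
  have h1 := hls hd k J (fun u => φ (pt a u)) H
  rw [← e2, ← e3, ← e4] at h1
  set X := ∑ x, φ x * (h x - hm')
  set Y := CS d * (4 ^ J * ∑ x, φ x ^ 2 + ((1 / 2 : ℝ) ^ (d - 2)) ^ J * (∑ x, |φ x|) ^ 2) with hY
  have hY0 : 0 ≤ Y := by
    have : 0 ≤ ∑ x, φ x ^ 2 := Finset.sum_nonneg fun _ _ => sq_nonneg _
    exact mul_nonneg hCS.le (add_nonneg (mul_nonneg (pow_nonneg (by norm_num) _) this)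
      (mul_nonneg (pow_nonneg (pow_nonneg (by norm_num) _) _) (sq_nonneg _)))
  have h2 : (2 * X) ^ 2 ≤ (b0 / 4 * g + 4 / b0 * Y) ^ 2 := by
    have h3 : 4 * (Y * g) ≤ (b0 / 4 * g + 4 / b0 * Y) ^ 2 := by
      have h4 : (b0 / 4 * g + 4 / b0 * Y) ^ 2 - 4 * (Y * g) = (b0 / 4 * g - 4 / b0 * Y) ^ 2 := by
        field_simp
        ring
      linarith only [h4, sq_nonneg (b0 / 4 * g - 4 / b0 * Y)]
    calc (2 * X) ^ 2 = 4 * X ^ 2 := by ring
      _ ≤ 4 * (Y * g) := by linarith only [h1]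
      _ ≤ _ := h3
  exact (abs_le_of_sq_le_sq' h2 (add_nonneg (mul_nonneg (div_pos hb0 (by norm_num)).le hg0)
    (mul_nonneg (div_pos (by norm_num) hb0).le hY0))).2

/-- MAJ, two classes -/
theorem maj2 (hd : 3 ≤ d) (a : Tor d M) (k J J' : ℕ) (hk : 2 ^ k ≤ M) {Q : (Tor d M → ℝ) → ℝ}
    {al : Tor d M → ℝ} {be : Bd d M → ℝ} (hQ : LB sT tT Q al be) (hal : ∀ x, 0 ≤ al x)
    (hbe0 : ∀ e, 0 ≤ be e) {b0 m : ℝ} (hb0 : 0 < b0) (hm : 0 < m)
    (hbe : ∀ e, Box a (2 ^ k) (sT e) → Box a (2 ^ k) (tT e) → b0 ≤ be e)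
    {B B2 Z O : Finset (Tor d M)} (hB : ∀ x ∈ B, Box a (2 ^ k) x) (hB2 : B2 ⊆ B)
    (hB2a : ∀ x ∈ B2, 0 < al x)
    (hZ : ∀ x ∈ Z, Box a (2 ^ k) x ∧ x ∉ B ∧ m ≤ al x)
    (hZc : ((2 : ℝ) ^ k) ^ d ≤ 4 * Z.card) (f φ : Tor d M → ℝ)
    (hf : ∀ x, x ∉ B → f x = 0) (hφ : ∀ x, x ∉ B2 → φ x = 0) :
    2 * ∑ x, f x * φ x ≤ Q f + ∑ x ∈ B2, φ x ^ 2 / al x +
      4 * CS d * 4 ^ J / b0 * ∑ x ∈ B2 \ O, φ x ^ 2 +
      4 * CS d * 4 ^ J' / b0 * ∑ x ∈ B2 ∩ O, φ x ^ 2 +
      S2 d k J b0 m * (∑ x ∈ B2 \ O, |φ x|) ^ 2 +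
      S2 d k J' b0 m * (∑ x ∈ B2 ∩ O, |φ x|) ^ 2 := by
  have hCS := CS_pos hd
  obtain ⟨h, hh⟩ := hQ f
  set L : ℕ := 2 ^ k with hL
  set H : (Fin d → ℕ) → ℝ := fun u => h (pt a u) with hH
  set hm' : ℝ := av k H 0 with hhm
  set g : ℝ := gr d L H with hg
  have hg0 : 0 ≤ g := Pool.Agent.NAS.gr_nonneg _ _
  have hφB : ∀ x, ¬ Box a L x → φ x = 0 := fun x hx =>
    hφ x fun hx2 => hx (hB x (hB2 hx2))
  -- the volume
  have hvol : 0 < ((2 : ℝ) ^ k) ^ d := by positivity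
  have hZ0 : (0 : ℝ) < Z.card := by linarith only [hvol, hZc]
  -- (1) the white part
  have e1 : ∑ x, f x * φ x = ∑ x, (f x - h x) * φ x + ∑ x, φ x * (h x - hm') +
      hm' * ∑ x, φ x := by
    rw [Finset.mul_sum, ← Finset.sum_add_distrib, ← Finset.sum_add_distrib]
    refine Finset.sum_congr rfl fun x _ => ?_
    ring
  have w1 : 2 * ∑ x, (f x - h x) * φ x ≤ ∑ x ∈ B2, al x * (f x - h x) ^ 2 +
      ∑ x ∈ B2, φ x ^ 2 / al x := by
    rw [← Finset.sum_subset (Finset.subset_univ B2)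
      (fun x _ hx => by rw [hφ x hx, mul_zero]), Finset.mul_sum, ← Finset.sum_add_distrib]
    refine Finset.sum_le_sum fun x hx => ?_
    have h1 := hB2a x hx
    have h2 : 0 ≤ (al x * (f x - h x) - φ x) ^ 2 / al x := div_nonneg (sq_nonneg _) h1.le
    have h3 : (al x * (f x - h x) - φ x) ^ 2 / al x =
        al x * (f x - h x) ^ 2 - 2 * ((f x - h x) * φ x) + φ x ^ 2 / al x := by
      field_simp
      ring
    linarith only [h2, h3]
  -- (2) the fluctuation of `h`
  have w2 : 2 * ∑ x, φ x * (h x - hm') ≤ b0 / 2 * g +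
      4 / b0 * (CS d * (4 ^ J * ∑ x ∈ B2 \ O, φ x ^ 2 +
        ((1 / 2 : ℝ) ^ (d - 2)) ^ J * (∑ x ∈ B2 \ O, |φ x|) ^ 2)) +
      4 / b0 * (CS d * (4 ^ J' * ∑ x ∈ B2 ∩ O, φ x ^ 2 +
        ((1 / 2 : ℝ) ^ (d - 2)) ^ J' * (∑ x ∈ B2 ∩ O, |φ x|) ^ 2)) := by
    obtain ⟨φ1, hφ1⟩ : ∃ φ1 : Tor d M → ℝ, φ1 = fun x => if x ∈ B2 \ O then φ x else 0 := ⟨_, rfl⟩
    obtain ⟨φ2, hφ2⟩ : ∃ φ2 : Tor d M → ℝ, φ2 = fun x => if x ∈ B2 ∩ O then φ x else 0 := ⟨_, rfl⟩
    have hs12 : ∀ x, φ x = φ1 x + φ2 x := by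
      intro x
      simp only [hφ1, hφ2, Finset.mem_sdiff, Finset.mem_inter]
      by_cases h1 : x ∈ B2
      · by_cases h2 : x ∈ O
        · rw [if_neg (by tauto), if_pos ⟨h1, h2⟩, zero_add]
        · rw [if_pos ⟨h1, h2⟩, if_neg (by tauto), add_zero]
      · rw [if_neg (by tauto), if_neg (by tauto), hφ x h1, add_zero]
    have hcut : ∀ (T : Finset (Tor d M)) (F : ℝ → ℝ), F 0 = 0 →
        ∑ x, F (if x ∈ T then φ x else 0) = ∑ x ∈ T, F (φ x) := by
      intro T F hF
      rw [← Finset.sum_subset (Finset.subset_univ T)]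
      · exact Finset.sum_congr rfl fun x hx => by rw [if_pos hx]
      · intro x _ hx
        rw [if_neg hx, hF]
    have q1 : ∑ x, φ1 x ^ 2 = ∑ x ∈ B2 \ O, φ x ^ 2 := by
      rw [hφ1]; exact hcut _ (fun t => t ^ 2) (by norm_num)
    have q2 : ∑ x, φ2 x ^ 2 = ∑ x ∈ B2 ∩ O, φ x ^ 2 := by
      rw [hφ2]; exact hcut _ (fun t => t ^ 2) (by norm_num)
    have q3 : ∑ x, |φ1 x| = ∑ x ∈ B2 \ O, |φ x| := by
      rw [hφ1]; exact hcut _ (fun t => |t|) (by norm_num)
    have q4 : ∑ x, |φ2 x| = ∑ x ∈ B2 ∩ O, |φ x| := by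
      rw [hφ2]; exact hcut _ (fun t => |t|) (by norm_num)
    have hB1 : ∀ x, ¬ Box a L x → φ1 x = 0 := by
      intro x hx
      rw [hφ1]
      dsimp only
      split_ifs
      · exact hφB x hx
      · rfl
    have hB22 : ∀ x, ¬ Box a L x → φ2 x = 0 := by
      intro x hx
      rw [hφ2]
      dsimp only
      split_ifs
      · exact hφB x hx
      · rfl
    have u1 := hls_box hd a k J hk h φ1 hB1 hb0
    have u2 := hls_box hd a k J' hk h φ2 hB22 hb0
    rw [q1, q3] at u1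
    rw [q2, q4] at u2
    have h1 : ∑ x, φ x * (h x - hm') = ∑ x, φ1 x * (h x - hm') + ∑ x, φ2 x * (h x - hm') := by
      rw [← Finset.sum_add_distrib]
      refine Finset.sum_congr rfl fun x _ => ?_
      rw [hs12 x]
      ring
    rw [h1, mul_add]
    have e : b0 / 2 * g = b0 / 4 * g + b0 / 4 * g := by ring
    linarith only [e, u1, u2]
  -- (3) the mean of `h`
  have pz : ∑ u ∈ cu d L, (H u - hm') ^ 2 ≤ 2 * CS d * 4 ^ k * g := by
    have h1 := sob hd k k (fun _ => 1) H 1 (((2 : ℝ) ^ k) ^ d) (fun _ _ => zero_le_one)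
      (fun _ _ => le_rfl) (by
        rw [Finset.sum_const, nsmul_eq_mul, mul_one, card_cu]
        push_cast
        exact le_rfl)
    simp only [one_mul] at h1
    have h2 : (((1 / 2 : ℝ) ^ (d - 2)) ^ k * ((2 : ℝ) ^ k) ^ d) = 4 ^ k := by
      obtain ⟨e, rfl⟩ : ∃ e, d = e + 2 := ⟨d - 2, by omega⟩
      have h3 : e + 2 - 2 = e := by omega
      rw [h3, ← pow_mul, ← pow_mul, mul_comm e k, mul_comm k (e + 2)]
      have h4 : (4 : ℝ) = 2 ^ 2 := by norm_num
      rw [h4, ← pow_mul, one_div, inv_pow, ← one_div, one_div_mul_eq_div, div_eq_iff (by positivity),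
        ← pow_add]
      congr 1
      ring
    rw [h2] at h1
    refine h1.trans (le_of_eq ?_)
    ring
  set P : ℝ := ∑ x ∈ Z, al x * h x ^ 2 with hP
  have hP0 : 0 ≤ P := Finset.sum_nonneg fun x _ => mul_nonneg (hal x) (sq_nonneg _)
  have w3a : hm' ^ 2 * Z.card ≤ 2 / m * P + 4 * CS d * 4 ^ k * g := by
    have h1 : ∀ x ∈ Z, hm' ^ 2 ≤ 2 / m * (al x * h x ^ 2) + 2 * (h x - hm') ^ 2 := by
      intro x hx
      obtain ⟨-, -, h3⟩ := hZ x hx
      have h4 : h x ^ 2 ≤ 1 / m * (al x * h x ^ 2) := by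
        have : m * h x ^ 2 ≤ al x * h x ^ 2 := mul_le_mul_of_nonneg_right h3 (sq_nonneg _)
        rw [one_div, le_inv_mul_iff₀ hm]
        exact this
      have h5 : 2 / m * (al x * h x ^ 2) = 2 * (1 / m * (al x * h x ^ 2)) := by ring
      rw [h5]
      linarith only [h4, sq_nonneg (h x + (h x - hm'))]
    have h2 := Finset.sum_le_sum h1
    rw [Finset.sum_const, nsmul_eq_mul, Finset.sum_add_distrib, ← Finset.mul_sum,
      ← Finset.mul_sum] at h2
    have h3 : ∑ x ∈ Z, (h x - hm') ^ 2 ≤ ∑ u ∈ cu d L, (H u - hm') ^ 2 := by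
      rw [hH, ← sum_cu a hk (fun x => (h x - hm') ^ 2), ← Finset.sum_filter]
      refine Finset.sum_le_sum_of_subset_of_nonneg (fun x hx => ?_) fun x _ _ => sq_nonneg _
      rw [Finset.mem_filter]
      exact ⟨Finset.mem_univ _, (hZ x hx).1⟩
    rw [mul_comm]
    refine h2.trans ?_
    have h4 := h3.trans pz
    linarith only [h4]
  set c' : ℝ := 2 / (m * Z.card) + 8 * CS d * 4 ^ k / (b0 * Z.card) with hc'
  have hCS4 : 0 < 8 * CS d * 4 ^ k :=
    mul_pos (mul_pos (by norm_num) hCS) (pow_pos (by norm_num) _)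
  have hc'0 : 0 < c' :=
    add_pos (div_pos two_pos (mul_pos hm hZ0)) (div_pos hCS4 (mul_pos hb0 hZ0))
  have w3b : hm' ^ 2 ≤ c' * (P + b0 / 2 * g) := by
    have h1 : hm' ^ 2 ≤ (2 / m * P + 4 * CS d * 4 ^ k * g) / Z.card := by
      rw [le_div_iff₀ hZ0]; exact w3a
    refine h1.trans ?_
    have h2 : c' * (P + b0 / 2 * g) - (2 / m * P + 4 * CS d * 4 ^ k * g) / Z.card =
        8 * CS d * 4 ^ k / (b0 * Z.card) * P + 2 / (m * Z.card) * (b0 / 2 * g) := by
      rw [hc']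
      field_simp
      ring
    have h3 : 0 ≤ 8 * CS d * 4 ^ k / (b0 * Z.card) * P + 2 / (m * Z.card) * (b0 / 2 * g) :=
      add_nonneg (mul_nonneg (div_pos hCS4 (mul_pos hb0 hZ0)).le hP0)
        (mul_nonneg (div_pos two_pos (mul_pos hm hZ0)).le (mul_nonneg (half_pos hb0).le hg0))
    linarith only [h2, h3]
  have w3 : 2 * (hm' * ∑ x, φ x) ≤ P + b0 / 2 * g + c' * (∑ x, |φ x|) ^ 2 := by
    have h1 : 2 * (hm' * ∑ x, φ x) ≤ hm' ^ 2 / c' + c' * (∑ x, φ x) ^ 2 := by
      have h2 : 0 ≤ (hm' - c' * ∑ x, φ x) ^ 2 / c' := div_nonneg (sq_nonneg _) hc'0.le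
      have h3 : (hm' - c' * ∑ x, φ x) ^ 2 / c' =
          hm' ^ 2 / c' - 2 * (hm' * ∑ x, φ x) + c' * (∑ x, φ x) ^ 2 := by
        field_simp
        ring
      linarith only [h2, h3]
    have h2 : hm' ^ 2 / c' ≤ P + b0 / 2 * g := by
      rw [div_le_iff₀ hc'0, mul_comm]
      exact w3b
    have h3 : (∑ x, φ x) ^ 2 ≤ (∑ x, |φ x|) ^ 2 := by
      rw [← sq_abs]
      exact pow_le_pow_left₀ (abs_nonneg _) (Finset.abs_sum_le_sum_abs _ _) 2
    have h4 := mul_le_mul_of_nonneg_left h3 hc'0.le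
    linarith only [h1, h2, h4]
  -- the form
  have hmor : ∑ x ∈ B2, al x * (f x - h x) ^ 2 + P + b0 * g ≤ Q f := by
    refine le_trans ?_ hh
    unfold mor
    refine add_le_add ?_ ?_
    · have h1 : P = ∑ x ∈ Z, al x * (f x - h x) ^ 2 := by
        refine Finset.sum_congr rfl fun x hx => ?_
        rw [hf x (hZ x hx).2.1]
        ring
      have hdis : Disjoint B2 Z := by
        rw [Finset.disjoint_left]
        intro x hx hx'
        exact (hZ x hx').2.1 (hB2 hx)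
      rw [h1, ← Finset.sum_union hdis]
      exact Finset.sum_le_sum_of_subset_of_nonneg (Finset.subset_univ _) fun x _ _ =>
        mul_nonneg (hal x) (sq_nonneg _)
    · have h1 := mul_le_mul_of_nonneg_left (gr_le a hk h) hb0.le
      refine h1.trans ?_
      unfold bon
      rw [Finset.mul_sum]
      refine Finset.sum_le_sum fun e _ => ?_
      rw [← mul_assoc]
      refine mul_le_mul_of_nonneg_right ?_ (sq_nonneg _)
      unfold cutE
      split_ifs with h2
      · rw [mul_one]; exact hbe e h2.1 h2.2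
      · rw [mul_zero]; exact hbe0 e
  have hc'le : c' ≤ 8 / (m * ((2 : ℝ) ^ k) ^ d) + 32 * CS d * 4 ^ k / (b0 * ((2 : ℝ) ^ k) ^ d) := by
    have h1 : 2 / (m * (Z.card : ℝ)) ≤ 8 / (m * ((2 : ℝ) ^ k) ^ d) := by
      rw [div_le_div_iff₀ (mul_pos hm hZ0) (mul_pos hm hvol)]
      linarith only [mul_le_mul_of_nonneg_left hZc hm.le]
    have h2 : 8 * CS d * 4 ^ k / (b0 * (Z.card : ℝ)) ≤
        32 * CS d * 4 ^ k / (b0 * ((2 : ℝ) ^ k) ^ d) := by
      rw [div_le_div_iff₀ (mul_pos hb0 hZ0) (mul_pos hb0 hvol)]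
      linarith only [mul_le_mul_of_nonneg_left hZc (mul_pos hCS4 hb0).le]
    exact add_le_add h1 h2
  set Y1 : ℝ := ∑ x ∈ B2 \ O, |φ x| with hY1
  set Y2 : ℝ := ∑ x ∈ B2 ∩ O, |φ x| with hY2
  have hY : ∑ x, |φ x| = Y1 + Y2 := by
    rw [← Finset.sum_subset (Finset.subset_univ B2) (fun x _ hx => by rw [hφ x hx, abs_zero]),
      add_comm]
    exact (Finset.sum_inter_add_sum_sdiff B2 O _).symm
  have hsq : (∑ x, |φ x|) ^ 2 ≤ 2 * Y1 ^ 2 + 2 * Y2 ^ 2 := by
    rw [hY]
    linarith only [sq_nonneg (Y1 - Y2)]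
  set c1 : ℝ := 8 / (m * ((2 : ℝ) ^ k) ^ d) + 32 * CS d * 4 ^ k / (b0 * ((2 : ℝ) ^ k) ^ d) with hc1
  have hfin : c' * (∑ x, |φ x|) ^ 2 ≤ c1 * (2 * Y1 ^ 2 + 2 * Y2 ^ 2) :=
    mul_le_mul hc'le hsq (sq_nonneg _) (hc'0.le.trans hc'le)
  have e5 : ∀ (j : ℕ) (Y : ℝ), S2 d k j b0 m * Y ^ 2 =
      4 / b0 * (CS d * (((1 / 2 : ℝ) ^ (d - 2)) ^ j * Y ^ 2)) + c1 * (2 * Y ^ 2) := by
    intro j Y
    rw [hc1]
    unfold S2
    ring
  rw [e1, e5 J Y1, e5 J' Y2]
  have e6 : ∀ (j : ℕ) (S Y : ℝ), 4 / b0 * (CS d * (4 ^ j * S +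
      ((1 / 2 : ℝ) ^ (d - 2)) ^ j * Y ^ 2)) = 4 * CS d * 4 ^ j / b0 * S +
      4 / b0 * (CS d * (((1 / 2 : ℝ) ^ (d - 2)) ^ j * Y ^ 2)) := by
    intro j S Y
    ring
  rw [e6, e6] at w2
  linarith only [w1, w2, w3, hmor, hfin]

/-- MAJ, two classes, with one weight `p` -/
theorem maj2' (hd : 3 ≤ d) (a : Tor d M) (k J J' : ℕ) (hk : 2 ^ k ≤ M) {Q : (Tor d M → ℝ) → ℝ}
    {al : Tor d M → ℝ} {be : Bd d M → ℝ} (hQ : LB sT tT Q al be) (hal : ∀ x, 0 ≤ al x)
    (hbe0 : ∀ e, 0 ≤ be e) {b0 m : ℝ} (hb0 : 0 < b0) (hm : 0 < m)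
    (hbe : ∀ e, Box a (2 ^ k) (sT e) → Box a (2 ^ k) (tT e) → b0 ≤ be e)
    {B B2 Z O : Finset (Tor d M)} (hB : ∀ x ∈ B, Box a (2 ^ k) x) (hB2 : B2 ⊆ B)
    (hB2a : ∀ x ∈ B2, 0 < al x)
    (hZ : ∀ x ∈ Z, Box a (2 ^ k) x ∧ x ∉ B ∧ m ≤ al x)
    (hZc : ((2 : ℝ) ^ k) ^ d ≤ 4 * Z.card) {p : Tor d M → ℝ} {s1 s3 : ℝ}
    (hp : ∀ x ∈ B2, x ∉ O → 1 / al x + 4 * CS d * 4 ^ J / b0 ≤ p x)
    (hp' : ∀ x ∈ B2, x ∈ O → 1 / al x + 4 * CS d * 4 ^ J' / b0 ≤ p x)
    (hs1 : S2 d k J b0 m ≤ s1) (hs3 : S2 d k J' b0 m ≤ s3)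
    (f φ : Tor d M → ℝ)
    (hf : ∀ x, x ∉ B → f x = 0) (hφ : ∀ x, x ∉ B2 → φ x = 0) :
    2 * ∑ x, f x * φ x - ∑ x ∈ B2, p x * φ x ^ 2 - s1 * (∑ x ∈ B2 \ O, |φ x|) ^ 2 -
      s3 * (∑ x ∈ B2 ∩ O, |φ x|) ^ 2 ≤ Q f := by
  have h1 := maj2 hd a k J J' hk hQ hal hbe0 hb0 hm hbe hB hB2 hB2a hZ hZc f φ hf hφ (O := O)
  have h2 : ∑ x ∈ B2, φ x ^ 2 / al x + 4 * CS d * 4 ^ J / b0 * ∑ x ∈ B2 \ O, φ x ^ 2 +
      4 * CS d * 4 ^ J' / b0 * ∑ x ∈ B2 ∩ O, φ x ^ 2 ≤ ∑ x ∈ B2, p x * φ x ^ 2 := by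
    rw [← Finset.sum_inter_add_sum_sdiff B2 O (fun x => φ x ^ 2 / al x),
      ← Finset.sum_inter_add_sum_sdiff B2 O (fun x => p x * φ x ^ 2)]
    have g1 : ∑ x ∈ B2 ∩ O, φ x ^ 2 / al x + 4 * CS d * 4 ^ J' / b0 * ∑ x ∈ B2 ∩ O, φ x ^ 2 ≤
        ∑ x ∈ B2 ∩ O, p x * φ x ^ 2 := by
      rw [Finset.mul_sum, ← Finset.sum_add_distrib]
      refine Finset.sum_le_sum fun x hx => ?_
      rw [Finset.mem_inter] at hx
      have := mul_le_mul_of_nonneg_right (hp' x hx.1 hx.2) (sq_nonneg (φ x))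
      calc φ x ^ 2 / al x + 4 * CS d * 4 ^ J' / b0 * φ x ^ 2 =
          (1 / al x + 4 * CS d * 4 ^ J' / b0) * φ x ^ 2 := by ring
        _ ≤ _ := this
    have g2 : ∑ x ∈ B2 \ O, φ x ^ 2 / al x + 4 * CS d * 4 ^ J / b0 * ∑ x ∈ B2 \ O, φ x ^ 2 ≤
        ∑ x ∈ B2 \ O, p x * φ x ^ 2 := by
      rw [Finset.mul_sum, ← Finset.sum_add_distrib]
      refine Finset.sum_le_sum fun x hx => ?_
      rw [Finset.mem_sdiff] at hx
      have := mul_le_mul_of_nonneg_right (hp x hx.1 hx.2) (sq_nonneg (φ x))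
      calc φ x ^ 2 / al x + 4 * CS d * 4 ^ J / b0 * φ x ^ 2 =
          (1 / al x + 4 * CS d * 4 ^ J / b0) * φ x ^ 2 := by ring
        _ ≤ _ := this
    linarith only [g1, g2]
  have h3 := mul_le_mul_of_nonneg_right hs1 (sq_nonneg (∑ x ∈ B2 \ O, |φ x|))
  have h4 := mul_le_mul_of_nonneg_right hs3 (sq_nonneg (∑ x ∈ B2 ∩ O, |φ x|))
  linarith only [h1, h2, h3, h4]

end Pool.Agent.MAJ
end
end -- Pool.Agent.Helper67_MAJ.MAJ2

section -- Pool.Agent.Helper67_MAJ.HSF

/-!
# Row HSF: from the normal form `Fm` to the dual lower bounds of the block lemma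
-/

set_option autoImplicit false

open scoped BigOperators

noncomputable section

namespace Pool.Agent.MAJ

open Pool.Agent.LTG
open Pool.Agent.NAS (CS)

variable {d M : ℕ} [NeZero M]

theorem wl_pos {A : Finset (Tor d M)} {w εl : Tor d M → ℝ} (hw : ∀ x ∈ A, 0 < w x)
    (hel : ∀ x ∈ A, 0 ≤ εl x) : (∀ x, 0 ≤ wl A w εl x) ∧ ∀ x ∈ A, 0 < wl A w εl x := by
  have h1 : ∀ x ∈ A, 0 < wl A w εl x := by
    intro x hx
    unfold wl
    rw [if_pos hx]
    have := hel x hx
    have := hw x hx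
    positivity
  refine ⟨fun x => ?_, h1⟩
  by_cases hx : x ∈ A
  · exact (h1 x hx).le
  · unfold wl
    rw [if_neg hx]

theorem wl_inv {A : Finset (Tor d M)} {w εl : Tor d M → ℝ} {x : Tor d M} (hx : x ∈ A) :
    1 / wl A w εl x = (1 + εl x) / w x := by
  unfold wl
  rw [if_pos hx, one_div_div]

/-- HSF, young and old nodes: the constant `2` in the white part -/
theorem hsf1 (hd : 3 ≤ d) (a : Tor d M) (k J J' : ℕ) (hk : 2 ^ k ≤ M) {A : Finset (Tor d M)}
    {w εl εu : Tor d M → ℝ} {bl bu : Bd d M → ℝ} {Qf : (Tor d M → ℝ) → ℝ}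
    (hF : Fm sT tT A w εl εu bl bu Qf) (hw : ∀ x ∈ A, 0 < w x) (hel : ∀ x ∈ A, 0 ≤ εl x)
    (hbl : ∀ e, 0 ≤ bl e) {b0 m : ℝ} (hb0 : 0 < b0) (hm : 0 < m)
    (hbe : ∀ e, Box a (2 ^ k) (sT e) → Box a (2 ^ k) (tT e) → b0 ≤ bl e)
    {Q O Z : Finset (Tor d M)} (hQA : Q ⊆ A) (hQB : ∀ x ∈ Q, Box a (2 ^ k) x)
    (hZ : ∀ x ∈ Z, Box a (2 ^ k) x ∧ x ∉ Q ∧ x ∈ A ∧ m * (1 + εl x) ≤ w x)
    (hZc : ((2 : ℝ) ^ k) ^ d ≤ 4 * Z.card)
    (hp : ∀ x ∈ Q, x ∉ O → εl x + 4 * CS d * 4 ^ J / b0 * w x ≤ 1)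
    (hp' : ∀ x ∈ Q, x ∈ O → εl x + 4 * CS d * 4 ^ J' / b0 * w x ≤ 1) {s1 s3 : ℝ}
    (hs1 : S2 d k J b0 m ≤ s1) (hs3 : S2 d k J' b0 m ≤ s3) (f φ : Tor d M → ℝ)
    (hf : ∀ x, x ∉ Q → f x = 0) (hφ : ∀ x, x ∉ Q → φ x = 0) :
    2 * ∑ x, f x * φ x - 2 * ∑ x ∈ Q, φ x ^ 2 / w x - s1 * (∑ x ∈ Q \ O, |φ x|) ^ 2 -
      s3 * (∑ x ∈ Q ∩ O, |φ x|) ^ 2 ≤ Qf f := by
  obtain ⟨h1, h2⟩ := wl_pos hw hel
  have h3 := maj2' hd a k J J' hk hF.lb h1 hbl hb0 hm hbe hQB (le_refl Q)
    (fun x hx => h2 x (hQA hx))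
    (fun x hx => ⟨(hZ x hx).1, (hZ x hx).2.1, by
      unfold wl
      rw [if_pos (hZ x hx).2.2.1, le_div_iff₀ (by linarith only [hel x (hZ x hx).2.2.1])]
      exact (hZ x hx).2.2.2⟩) hZc (p := fun x => 2 / w x) (s1 := s1) (s3 := s3) (O := O)
    (fun x hx hO => by
      have hw' := hw x (hQA hx)
      rw [wl_inv (hQA hx), div_add' _ _ _ hw'.ne', div_le_div_iff_of_pos_right hw']
      linarith only [hp x hx hO])
    (fun x hx hO => by
      have hw' := hw x (hQA hx)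
      rw [wl_inv (hQA hx), div_add' _ _ _ hw'.ne', div_le_div_iff_of_pos_right hw']
      linarith only [hp' x hx hO]) hs1 hs3 f φ hf hφ
  have h4 : ∑ x ∈ Q, 2 / w x * φ x ^ 2 = 2 * ∑ x ∈ Q, φ x ^ 2 / w x := by
    rw [Finset.mul_sum]
    exact Finset.sum_congr rfl fun x _ => by ring
  rw [h4] at h3
  exact h3

/-- HSF, running nodes: the sharp constant in the white part -/
theorem hsf2 (hd : 3 ≤ d) (a : Tor d M) (k J : ℕ) (hk : 2 ^ k ≤ M) {A : Finset (Tor d M)}
    {w εl εu : Tor d M → ℝ} {bl bu : Bd d M → ℝ} {Qf : (Tor d M → ℝ) → ℝ}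
    (hF : Fm sT tT A w εl εu bl bu Qf) (hw : ∀ x ∈ A, 0 < w x) (hel : ∀ x ∈ A, 0 ≤ εl x)
    (hbl : ∀ e, 0 ≤ bl e) {b0 m : ℝ} (hb0 : 0 < b0) (hm : 0 < m)
    (hbe : ∀ e, Box a (2 ^ k) (sT e) → Box a (2 ^ k) (tT e) → b0 ≤ bl e)
    {Q R Z : Finset (Tor d M)} (hQA : Q ⊆ A) (hQB : ∀ x ∈ Q, Box a (2 ^ k) x) (hR : R ⊆ Q)
    (hZ : ∀ x ∈ Z, Box a (2 ^ k) x ∧ x ∉ Q ∧ x ∈ A ∧ m * (1 + εl x) ≤ w x)
    (hZc : ((2 : ℝ) ^ k) ^ d ≤ 4 * Z.card) {ε s2 : ℝ}
    (hp : ∀ x ∈ R, εl x + 2 * CS d * 4 ^ J / b0 * w x ≤ ε)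
    (hs2 : S0 d k J b0 m ≤ s2) (f φ : Tor d M → ℝ)
    (hf : ∀ x, x ∉ Q → f x = 0) (hφ : ∀ x, x ∉ R → φ x = 0) :
    2 * ∑ x, f x * φ x - (1 + ε) * ∑ x ∈ R, φ x ^ 2 / w x - s2 * (∑ x, |φ x|) ^ 2 ≤ Qf f := by
  obtain ⟨h1, h2⟩ := wl_pos hw hel
  have h3 := maj' hd a k J hk hF.lb h1 hbl hb0 hm hbe hQB hR
    (fun x hx => h2 x (hQA (hR hx)))
    (fun x hx => ⟨(hZ x hx).1, (hZ x hx).2.1, by
      unfold wl
      rw [if_pos (hZ x hx).2.2.1, le_div_iff₀ (by linarith only [hel x (hZ x hx).2.2.1])]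
      exact (hZ x hx).2.2.2⟩) hZc (p := fun x => (1 + ε) / w x) (s0 := s2)
    (fun x hx => by
      have hw' := hw x (hQA (hR hx))
      rw [wl_inv (hQA (hR hx)), div_add' _ _ _ hw'.ne', div_le_div_iff_of_pos_right hw']
      linarith only [hp x hx]) hs2 f φ hf hφ
  have h4 : ∑ x ∈ R, (1 + ε) / w x * φ x ^ 2 = (1 + ε) * ∑ x ∈ R, φ x ^ 2 / w x := by
    rw [Finset.mul_sum]
    exact Finset.sum_congr rfl fun x _ => by ring
  rw [h4] at h3
  exact h3

end Pool.Agent.MAJ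
end
end -- Pool.Agent.Helper67_MAJ.HSF

section -- Pool.Agent.Helper67_AHH.Den

/-!
# AND2B: the number of the dead sites in a box (helper67)

`den`: if a set of level `j` has at most `Dn j` sites in every block of level `j ≤ n`, and the sum of
`3^d Dn j / 2^(l j)` is at most `1/4`, then the union of these sets fills at most a quarter of every box
with the side `2^k ≥ 2^(l n)`.
-/

set_option autoImplicit false

open scoped BigOperators

noncomputable section

namespace Pool.Agent.AHH.H67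

open Pool.Agent.ANP (Geo)
open Pool.Agent.ANP.H61 (rnd geoT neZ pi_card rnd_int)
open Pool.Agent.LTG (Box Tor off)

variable {μ : ℕ}

/-- the blocks of side `2^j` which meet an interval of length `2^k` -/
theorem rnd_box (j k : ℕ) (hjk : j ≤ k) (hk : k ≤ μ) (a : ZMod (2 ^ μ)) :
    ((Finset.univ.filter fun b : ZMod (2 ^ μ) => (b - a).val < 2 ^ k).image (rnd j)).card ≤
      2 * 2 ^ (k - j) := by
  have hsub : ((Finset.univ.filter fun b : ZMod (2 ^ μ) => (b - a).val < 2 ^ k).image (rnd j)) ⊆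
      (Finset.range (2 ^ (k - j) + 1)).image
        (fun q => (((((a.val / 2 ^ j + q) * 2 ^ j : ℕ)) : ℤ) : ZMod (2 ^ μ))) := by
    intro c hc
    obtain ⟨b, hb, rfl⟩ := Finset.mem_image.1 hc
    have hb' := (Finset.mem_filter.1 hb).2
    obtain ⟨m, hm⟩ : ∃ m, m = (b - a).val := ⟨_, rfl⟩
    rw [← hm] at hb'
    have e1 : b = (((a.val + m : ℕ) : ℤ) : ZMod (2 ^ μ)) := by
      rw [hm]
      push_cast
      rw [ZMod.natCast_val, ZMod.cast_id, ZMod.natCast_val, ZMod.cast_id]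
      ring
    rw [e1, rnd_int j (hjk.trans hk)]
    rw [Finset.mem_image]
    refine ⟨(a.val + m) / 2 ^ j - a.val / 2 ^ j, ?_, ?_⟩
    · rw [Finset.mem_range]
      have h1 : (a.val + m) / 2 ^ j ≤ (a.val + 2 ^ (k - j) * 2 ^ j) / 2 ^ j := by
        refine Nat.div_le_div_right ?_
        rw [← pow_add, Nat.sub_add_cancel hjk]
        omega
      rw [Nat.add_mul_div_right _ _ (by positivity)] at h1
      have h0 : 0 < 2 ^ (k - j) := by positivity
      omega
    · have h2 : a.val / 2 ^ j ≤ (a.val + m) / 2 ^ j := Nat.div_le_div_right (by omega)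
      have h3 : a.val / 2 ^ j + ((a.val + m) / 2 ^ j - a.val / 2 ^ j) = (a.val + m) / 2 ^ j := by
        omega
      rw [h3]
      congr 1
  refine (Finset.card_le_card hsub).trans (Finset.card_image_le.trans ?_)
  rw [Finset.card_range]
  have : 1 ≤ 2 ^ (k - j) := Nat.one_le_two_pow
  omega

variable {d : ℕ}

/-- one level -/
theorem den_level (l ρ : ℕ → ℕ) (J N j k : ℕ) (hjk : l j ≤ k) (hk : k ≤ μ) (a : Tor d (2 ^ μ))
    (S : Finset (Tor d (2 ^ μ))) (D : ℕ)
    (hS : ∀ B, (S ∩ (geoT d μ l ρ J N).blk j B).card ≤ D) :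
    (S.filter fun x => Box a (2 ^ k) x).card ≤ (2 * 2 ^ (k - l j)) ^ d * D := by
  set Γ := geoT d μ l ρ J N with hΓ
  set I := (Finset.univ.filter fun x : Tor d (2 ^ μ) => Box a (2 ^ k) x).image (Γ.bl j) with hI
  have h1 : I.card ≤ (2 * 2 ^ (k - l j)) ^ d := by
    refine pi_card I (fun i => (Finset.univ.filter fun b : ZMod (2 ^ μ) =>
      (b - a i).val < 2 ^ k).image (rnd (l j))) _ ?_ (fun i => rnd_box (l j) k hjk hk (a i))
    intro y hy i
    obtain ⟨x, hx, rfl⟩ := Finset.mem_image.1 hy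
    have hx' := (Finset.mem_filter.1 hx).2 i
    exact Finset.mem_image.2 ⟨x i, Finset.mem_filter.2 ⟨Finset.mem_univ _, hx'⟩, rfl⟩
  have h2 : (S.filter fun x => Box a (2 ^ k) x) ⊆ I.biUnion fun B => S ∩ Γ.blk j B := by
    intro x hx
    obtain ⟨hxS, hxB⟩ := Finset.mem_filter.1 hx
    rw [Finset.mem_biUnion]
    refine ⟨Γ.bl j x, Finset.mem_image.2 ⟨x, Finset.mem_filter.2 ⟨Finset.mem_univ _, hxB⟩, rfl⟩, ?_⟩
    rw [Finset.mem_inter]
    refine ⟨hxS, ?_⟩
    unfold Geo.blk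
    exact Finset.mem_filter.2 ⟨Finset.mem_univ _, rfl⟩
  calc (S.filter fun x => Box a (2 ^ k) x).card ≤ (I.biUnion fun B => S ∩ Γ.blk j B).card :=
        Finset.card_le_card h2
    _ ≤ ∑ B ∈ I, (S ∩ Γ.blk j B).card := Finset.card_biUnion_le
    _ ≤ ∑ _B ∈ I, D := Finset.sum_le_sum fun B _ => hS B
    _ = I.card * D := by rw [Finset.sum_const, smul_eq_mul]
    _ ≤ _ := Nat.mul_le_mul_right _ h1

/-- DEN -/
theorem den (hd : 1 ≤ d) (l ρ : ℕ → ℕ) (J N n k : ℕ) (hl : ∀ j ≤ n, l j ≤ k) (hk : k ≤ μ)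
    (a : Tor d (2 ^ μ)) (Dn : ℕ → ℕ) (dd : ℕ → Finset (Tor d (2 ^ μ)))
    (hdd : ∀ j B, (dd j ∩ (geoT d μ l ρ J N).blk j B).card ≤ Dn j)
    (hs : ∑ i ∈ Finset.range (n + 1), (3 ^ d * Dn i : ℝ) / 2 ^ l i ≤ 1 / 4)
    (S : Finset (Tor d (2 ^ μ))) (hS : ∀ x ∈ S, Box a (2 ^ k) x ∧ ∃ j ≤ n, x ∈ dd j) :
    (S.card : ℝ) ≤ ((2 : ℝ) ^ k) ^ d / 4 := by
  have h1 : S ⊆ (Finset.range (n + 1)).biUnion fun j => (dd j).filter fun x => Box a (2 ^ k) x := by
    intro x hx
    obtain ⟨hB, j, hj, hxj⟩ := hS x hx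
    rw [Finset.mem_biUnion]
    exact ⟨j, Finset.mem_range.2 (by omega), Finset.mem_filter.2 ⟨hxj, hB⟩⟩
  have h2 : S.card ≤ ∑ j ∈ Finset.range (n + 1), (2 * 2 ^ (k - l j)) ^ d * Dn j :=
    (Finset.card_le_card h1).trans (Finset.card_biUnion_le.trans
      (Finset.sum_le_sum fun j hj => den_level l ρ J N j k
        (hl j (by rw [Finset.mem_range] at hj; omega)) hk a (dd j) (Dn j) (hdd j)))
  have h3 : ∀ j ∈ Finset.range (n + 1), (((2 * 2 ^ (k - l j)) ^ d * Dn j : ℕ) : ℝ) ≤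
      ((2 : ℝ) ^ k) ^ d * ((3 ^ d * Dn j : ℝ) / 2 ^ l j) := by
    intro j hj
    have hj' := hl j (by rw [Finset.mem_range] at hj; omega)
    push_cast
    have e1 : (2 : ℝ) ^ k = 2 ^ (k - l j) * 2 ^ l j := by
      rw [← pow_add, Nat.sub_add_cancel hj']
    have e2 : (2 : ℝ) ^ l j ≤ ((2 : ℝ) ^ l j) ^ d :=
      le_self_pow₀ (one_le_pow₀ (by norm_num)) (by omega)
    have e3 : (2 : ℝ) ^ d ≤ 3 ^ d := pow_le_pow_left₀ (by norm_num) (by norm_num) d
    have hp : (0 : ℝ) < 2 ^ l j := by positivity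
    rw [e1, mul_pow, mul_pow]
    have e4 : ((2 : ℝ) ^ (k - l j)) ^ d * ((2 : ℝ) ^ l j) ^ d * (3 ^ d * Dn j / 2 ^ l j) =
        (3 ^ d * ((2 : ℝ) ^ (k - l j)) ^ d * Dn j) * (((2 : ℝ) ^ l j) ^ d / 2 ^ l j) := by
      ring
    rw [e4]
    have e5 : 1 ≤ ((2 : ℝ) ^ l j) ^ d / 2 ^ l j := by
      rw [one_le_div hp]
      exact e2
    have e6 : (0 : ℝ) ≤ ((2 : ℝ) ^ (k - l j)) ^ d * Dn j := by positivity
    have e7 : (2 : ℝ) ^ d * ((2 : ℝ) ^ (k - l j)) ^ d * Dn j ≤
        3 ^ d * ((2 : ℝ) ^ (k - l j)) ^ d * Dn j := by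
      have := mul_le_mul_of_nonneg_right e3 e6
      linarith only [this]
    have e8 : (0 : ℝ) ≤ 3 ^ d * ((2 : ℝ) ^ (k - l j)) ^ d * Dn j := by positivity
    exact e7.trans (le_mul_of_one_le_right e8 e5)
  calc (S.card : ℝ) ≤ ((∑ j ∈ Finset.range (n + 1), (2 * 2 ^ (k - l j)) ^ d * Dn j : ℕ) : ℝ) := by
        exact_mod_cast h2
    _ = ∑ j ∈ Finset.range (n + 1), (((2 * 2 ^ (k - l j)) ^ d * Dn j : ℕ) : ℝ) := by
        push_cast
        rfl
    _ ≤ ∑ j ∈ Finset.range (n + 1), ((2 : ℝ) ^ k) ^ d * ((3 ^ d * Dn j : ℝ) / 2 ^ l j) :=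
        Finset.sum_le_sum h3
    _ = ((2 : ℝ) ^ k) ^ d * ∑ j ∈ Finset.range (n + 1), (3 ^ d * Dn j : ℝ) / 2 ^ l j := by
        rw [Finset.mul_sum]
    _ ≤ ((2 : ℝ) ^ k) ^ d * (1 / 4) := mul_le_mul_of_nonneg_left hs (by positivity)
    _ = _ := by ring

/-- the number of the sites of a box -/
theorem card_Box (M : ℕ) [NeZero M] (a : Tor d M) {L : ℕ} (hL : L ≤ M) :
    ((Finset.univ.filter fun x => Box a L x).card : ℝ) = (L : ℝ) ^ d := by
  have h1 := MAJ.sum_cu a hL (fun _ => (1 : ℝ))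
  rw [← Finset.sum_filter, Finset.sum_const, Finset.sum_const, NAS.card_cu] at h1
  simp only [nsmul_eq_mul, mul_one] at h1
  rw [h1]
  push_cast
  rfl

/-- the alive sites of the big box off a small box -/
theorem den_Z (hd : 3 ≤ d) (l ρ : ℕ → ℕ) (J N n k : ℕ) (hl : ∀ j ≤ n, l j ≤ k) (hk : k ≤ μ)
    (a : Tor d (2 ^ μ)) (Dn : ℕ → ℕ) (dd : ℕ → Finset (Tor d (2 ^ μ)))
    (hdd : ∀ j B, (dd j ∩ (geoT d μ l ρ J N).blk j B).card ≤ Dn j)
    (hs : ∑ i ∈ Finset.range (n + 1), (3 ^ d * Dn i : ℝ) / 2 ^ l i ≤ 1 / 4)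
    (A Q : Finset (Tor d (2 ^ μ))) (hA : ∀ x, x ∉ A → ∃ j ≤ n, x ∈ dd j) (kQ : ℕ) (hkQ : kQ < k)
    (hQ : ∀ x ∈ Q, Box a (2 ^ kQ) x) :
    ((2 : ℝ) ^ k) ^ d ≤
      4 * ((Finset.univ.filter fun x => Box a (2 ^ k) x ∧ x ∈ A ∧ x ∉ Q).card : ℝ) := by
  set Z := Finset.univ.filter fun x => Box a (2 ^ k) x ∧ x ∈ A ∧ x ∉ Q with hZ
  set W := Finset.univ.filter fun x => Box a (2 ^ k) x with hW
  set Dd := Finset.univ.filter fun x => Box a (2 ^ k) x ∧ x ∉ A with hDd
  have hk2 : 2 ^ k ≤ 2 ^ μ := Nat.pow_le_pow_right (by norm_num) hk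
  have hWc : (W.card : ℝ) = ((2 : ℝ) ^ k) ^ d := by
    rw [hW, card_Box (2 ^ μ) a hk2]
    push_cast
    rfl
  have hDc : (Dd.card : ℝ) ≤ ((2 : ℝ) ^ k) ^ d / 4 := by
    refine den (by omega) l ρ J N n k hl hk a Dn dd hdd hs Dd fun x hx => ?_
    obtain ⟨-, h1, h2⟩ := Finset.mem_filter.1 hx
    exact ⟨h1, hA x h2⟩
  have hQc : (Q.card : ℝ) ≤ ((2 : ℝ) ^ k) ^ d / 8 := by
    have h1 : Q ⊆ Finset.univ.filter fun x => Box a (2 ^ kQ) x := fun x hx =>
      Finset.mem_filter.2 ⟨Finset.mem_univ _, hQ x hx⟩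
    have hkQ2 : 2 ^ kQ ≤ 2 ^ μ := Nat.pow_le_pow_right (by norm_num) (by omega)
    have h2 : (Q.card : ℝ) ≤ ((2 ^ kQ : ℕ) : ℝ) ^ d := by
      rw [← card_Box (2 ^ μ) a hkQ2]
      exact_mod_cast Finset.card_le_card h1
    refine h2.trans ?_
    push_cast
    obtain ⟨e, rfl⟩ : ∃ e, k = kQ + 1 + e := ⟨k - kQ - 1, by omega⟩
    have e1 : ((2 : ℝ) ^ (kQ + 1 + e)) ^ d = (2 ^ kQ) ^ d * 2 ^ d * (2 ^ e) ^ d := by
      rw [pow_add, pow_add, mul_pow, mul_pow, pow_one]
    rw [e1]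
    have e2 : (8 : ℝ) ≤ 2 ^ d := by
      calc (8 : ℝ) = 2 ^ 3 := by norm_num
        _ ≤ 2 ^ d := pow_le_pow_right₀ (by norm_num) hd
    have e3 : (1 : ℝ) ≤ (2 ^ e) ^ d := one_le_pow₀ (one_le_pow₀ (by norm_num))
    have e4 : (0 : ℝ) ≤ (2 ^ kQ) ^ d := by positivity
    have e5 : (2 ^ kQ) ^ d * 8 * 1 ≤ ((2 : ℝ) ^ kQ) ^ d * 2 ^ d * (2 ^ e) ^ d :=
      mul_le_mul (mul_le_mul_of_nonneg_left e2 e4) e3 (by norm_num) (by positivity)
    linarith only [e5]
  have hcov : W ⊆ Z ∪ (Dd ∪ Q) := by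
    intro x hx
    have h1 := (Finset.mem_filter.1 hx).2
    by_cases hxA : x ∈ A
    · by_cases hxQ : x ∈ Q
      · exact Finset.mem_union_right _ (Finset.mem_union_right _ hxQ)
      · exact Finset.mem_union_left _ (Finset.mem_filter.2 ⟨Finset.mem_univ _, h1, hxA, hxQ⟩)
    · exact Finset.mem_union_right _ (Finset.mem_union_left _
        (Finset.mem_filter.2 ⟨Finset.mem_univ _, h1, hxA⟩))
  have hc : (W.card : ℝ) ≤ Z.card + (Dd.card + Q.card) := by
    have h1 := (Finset.card_le_card hcov).trans (Finset.card_union_le _ _)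
    have h2 := Finset.card_union_le Dd Q
    exact_mod_cast h1.trans (by omega)
  have hp : 0 < ((2 : ℝ) ^ k) ^ d := by positivity
  linarith only [hWc, hDc, hQc, hc, hp]

end Pool.Agent.AHH.H67
end
end -- Pool.Agent.Helper67_AHH.Den

section -- Pool.Agent.Helper67_AHH.GeoB

/-!
# AND2B: boxes and distances on the dyadic torus (helper67)

`aB l B`: the corner of the box with the side `8 2^l` around the block `B`.
-/

set_option autoImplicit false

namespace Pool.Agent.AHH.H67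

open Pool.Agent.ANP.H61 (sd cd neZ sd_le cd_le exists_int le_sd)
open Pool.Agent.LTG (Box Tor off Core)

variable {d μ : ℕ}

/-- the corner of the box around `B` -/
def aB (l : ℕ) (B : Tor d (2 ^ μ)) : Tor d (2 ^ μ) := fun i => B i - ((4 * 2 ^ l : ℕ) : ZMod (2 ^ μ))

/-- near sites have coordinates in the middle of the box -/
theorem off_of_D (l t : ℕ) (B x : Tor d (2 ^ μ)) (ht : t ≤ 4 * 2 ^ l) (hμ : 4 * 2 ^ l + t < 2 ^ μ)
    (h : sd x B ≤ t) (i : Fin d) :
    4 * 2 ^ l ≤ off (aB l B) x i + t ∧ off (aB l B) x i ≤ 4 * 2 ^ l + t := by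
  obtain ⟨k, hk1, hk2⟩ := exists_int (x i) (B i)
  have hk3 : k.natAbs ≤ t := by rw [hk2]; exact (sd_le x B t).1 h i
  obtain ⟨m, hm⟩ : ∃ m : ℕ, (m : ℤ) = k + (4 * 2 ^ l : ℕ) := ⟨(k + (4 * 2 ^ l : ℕ)).toNat, by omega⟩
  have h1 : x i - aB l B i = ((m : ℕ) : ZMod (2 ^ μ)) := by
    have h2 : x i - aB l B i = (x i - B i) + ((4 * 2 ^ l : ℕ) : ZMod (2 ^ μ)) := by
      unfold aB
      ring
    rw [h2, hk1]
    have h3 : ((m : ℕ) : ZMod (2 ^ μ)) = (((m : ℕ) : ℤ) : ZMod (2 ^ μ)) := by push_cast; rfl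
    rw [h3, hm]
    push_cast
    ring
  have hm2 : m < 2 ^ μ := by omega
  have h4 : off (aB l B) x i = m := by
    unfold off
    rw [h1, ZMod.val_natCast, Nat.mod_eq_of_lt hm2]
  rw [h4]
  omega

/-- and conversely -/
theorem D_of_off (l t : ℕ) (B x : Tor d (2 ^ μ))
    (h : ∀ i, 4 * 2 ^ l ≤ off (aB l B) x i + t ∧ off (aB l B) x i ≤ 4 * 2 ^ l + t) :
    sd x B ≤ t := by
  rw [sd_le]
  intro i
  obtain ⟨h1, h2⟩ := h i
  refine (cd_le (x i) (B i) ((off (aB l B) x i : ℤ) - (4 * 2 ^ l : ℕ)) ?_).trans (by omega)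
  have h3 : ((off (aB l B) x i : ℕ) : ZMod (2 ^ μ)) = x i - aB l B i := by
    unfold off
    rw [ZMod.natCast_val, ZMod.cast_id]
  push_cast
  rw [h3]
  unfold aB
  push_cast
  ring

/-- the targets lie in the box -/
theorem box_of_D (l : ℕ) (B x : Tor d (2 ^ μ)) (hμ : l + 4 ≤ μ) (h : sd x B ≤ 2 * 2 ^ l) :
    Box (aB l B) (2 ^ (l + 3)) x := by
  intro i
  have hp : 2 ^ (l + 4) ≤ 2 ^ μ := Nat.pow_le_pow_right (by norm_num) hμ
  have e4 : 2 ^ (l + 4) = 16 * 2 ^ l := by rw [pow_add]; ring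
  have e3 : 2 ^ (l + 3) = 8 * 2 ^ l := by rw [pow_add]; ring
  have h0 : 0 < 2 ^ l := by positivity
  have h1 := (off_of_D l (2 * 2 ^ l) B x (by omega) (by omega) h i).2
  rw [e3]
  omega

/-- sites outside of the core are far from the block -/
theorem D_of_not_core (l : ℕ) (B x : Tor d (2 ^ μ)) (hμ : l + 4 ≤ μ)
    (h : ¬ Core (aB l B) (2 ^ (l + 3)) (2 ^ l) x) : 3 * 2 ^ l ≤ sd x B := by
  by_contra hc
  apply h
  intro i
  have hp : 2 ^ (l + 4) ≤ 2 ^ μ := Nat.pow_le_pow_right (by norm_num) hμ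
  have e4 : 2 ^ (l + 4) = 16 * 2 ^ l := by rw [pow_add]; ring
  have e3 : 2 ^ (l + 3) = 8 * 2 ^ l := by rw [pow_add]; ring
  have h0 : 0 < 2 ^ l := by positivity
  obtain ⟨h1, h2⟩ := off_of_D l (3 * 2 ^ l - 1) B x (by omega) (by omega) (by omega) i
  rw [e3]
  omega

theorem box_mono (a : Tor d (2 ^ μ)) {L L' : ℕ} (h : L ≤ L') {x : Tor d (2 ^ μ)}
    (hx : Box a L x) : Box a L' x := fun i => lt_of_lt_of_le (hx i) h

end Pool.Agent.AHH.H67
end -- Pool.Agent.Helper67_AHH.GeoB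

section -- Pool.Agent.QDA.Stmts

/-!
# QDA (MP_1906c1_mp): quantum diffusion at all times, the deterministic statements

Paper: `/team-store/AND2D_plan.md`. `ANR.Gr H κ = (H - i κ)⁻¹`.
-/

set_option autoImplicit false

open scoped BigOperators ComplexConjugate

noncomputable section

namespace Pool.Agent.QDA

open Pool.Agent.ANR (Net Gr)
open Pool.Agent.LTG (Tor Bd sT tT bon Box)

/-- TRI2: the absorption at the sites of `D` is lowered from `η` to `e₀`: the entries off `D` change, in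
`ℓ²`, at most by the Green functions at the sites of `D`. -/
def Tri2Stmt : Prop :=
  ∀ (X : Type) [Fintype X] [DecidableEq X] (H : Matrix X X ℝ) (D : Finset X) (η e₀ : ℝ),
    (∀ x y, H x y = H y x) → 0 < e₀ → e₀ < η →
    ∑ x ∈ Dᶜ, ∑ y ∈ Dᶜ, ‖Gr H (fun _ => η) x y - Gr H (fun z => if z ∈ D then e₀ else η) x y‖ ^ 2 ≤
      1 / (η - e₀) * ∑ b ∈ D, (Gr H (fun _ => η) b b).im

/-- NGN2: two networks with relatively close diagonals. -/
def Ngn2Stmt : Prop :=
  ∀ (X : Type) [Fintype X] [DecidableEq X] (H H' : Matrix X X ℝ) (κ κ' : X → ℝ) (ε : ℝ),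
    Net H κ → Net H' κ' → (∀ x y, x ≠ y → H' x y = H x y) →
    (∀ x, |H' x x - H x x| + |κ' x - κ x| ≤ ε * (Real.sqrt (κ' x) * Real.sqrt (κ x))) →
    ∀ y, ∑ x, κ' x * ‖Gr H' κ' x y - Gr H κ x y‖ ^ 2 ≤ ε ^ 2 * (Gr H κ y y).im

/-- UPF: conductances which are bounded above by `B` times the lattice Laplacian are small at large
distances (tent functions of one coordinate, all centres). -/
def UpfStmt : Prop :=
  ∀ d : ℕ, 1 ≤ d → ∃ C : ℝ, 1 ≤ C ∧ ∀ (M : ℕ) [NeZero M] (c : Matrix (Tor d M) (Tor d M) ℝ) (B : ℝ),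
    (∀ x y, 0 ≤ c x y) → 0 ≤ B →
    (∀ h : Tor d M → ℝ, 1 / 2 * ∑ x, ∑ y, c x y * (h x - h y) ^ 2 ≤ B * bon sT tT (fun _ => 1) h) →
    ∀ R : ℕ, 1 ≤ R → ∑ x, ∑ y, (if R ≤ ANP.H61.sd x y then c x y else 0) ≤
      C * B * (M : ℝ) ^ d / (R : ℝ) ^ 2

/-- LOF: conductances whose form is bounded below by the Moreau form with node weights `w / (1 + ε)`
and bond weights `b`, with row sums at most `(1 + ν) w`, do not concentrate at small distances, `d ≥ 3`
(indicators of boxes, all corners, dyadic means). -/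
def LofStmt : Prop :=
  ∀ d : ℕ, 3 ≤ d → ∃ C : ℝ, 1 ≤ C ∧ ∀ (μ j : ℕ) (c : Matrix (Tor d (2 ^ μ)) (Tor d (2 ^ μ)) ℝ)
    (A : Finset (Tor d (2 ^ μ))) (w : Tor d (2 ^ μ) → ℝ) (W W' b ε ν : ℝ), j + 1 ≤ μ →
    (∀ x y, 0 ≤ c x y) → (∀ x y, c x y = c y x) → (∀ x y, x ∉ A → c x y = 0) →
    0 < W' → (∀ x ∈ A, W' ≤ w x ∧ w x ≤ W) → 0 < b → 0 ≤ ε → ε ≤ 1 / 2 → 0 ≤ ν →
    (∀ x ∈ A, ∑ y, c x y ≤ (1 + ν) * w x) →
    (∀ f : Tor d (2 ^ μ) → ℝ, ∃ h : Tor d (2 ^ μ) → ℝ,
      ∑ x ∈ A, w x / (1 + ε) * (f x - h x) ^ 2 + b * bon sT tT (fun _ => 1) h ≤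
        1 / 2 * ∑ x, ∑ y, c x y * (f x - f y) ^ 2) →
    (((2 : ℝ) ^ μ) ^ d ≤ 2 * A.card) →
    ∑ x, ∑ y, (if ANP.H61.sd x y < 2 ^ j then c x y else 0) ≤
      C * ((2 : ℝ) ^ μ) ^ d * W * (ε + ν + W * 4 ^ j / b + W / W' * ((2 : ℝ) ^ j / 2 ^ μ) ^ d)

end Pool.Agent.QDA
end
end -- Pool.Agent.QDA.Stmts

section -- Pool.Agent.Helper30_QDA.Upf

/-!
# QDA: the upper form bound and large distances (row UPF, helper30)
-/

set_option autoImplicit false

open scoped BigOperators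

noncomputable section

namespace Pool.Agent.QDA.H30

open Pool.Agent.LTG (Tor Bd sT tT bon)
open Pool.Agent.ANP.H61 (cd sd cd_self cd_comm cd_tri cd_le le_sd)

variable {d M : ℕ} [NeZero M]

theorem cd_one (a : ZMod M) : cd (a + 1) a ≤ 1 := by
  have := cd_le (a + 1) a 1 (by push_cast; ring)
  simpa using this

theorem cd_step (a b : ZMod M) : cd (a + 1) b ≤ cd a b + 1 ∧ cd a b ≤ cd (a + 1) b + 1 := by
  have h1 := cd_one a
  have h2 := cd_tri (a + 1) a b
  have h3 := cd_tri a (a + 1) b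
  rw [cd_comm a (a + 1)] at h3
  omega

/-- the tent -/
def tn (R : ℕ) (m a : ZMod M) : ℝ := ((R - cd a m : ℕ) : ℝ)

theorem tn_step (R : ℕ) (m a : ZMod M) :
    (tn R m (a + 1) - tn R m a) ^ 2 ≤ if cd a m ≤ R then 1 else 0 := by
  obtain ⟨h1, h2⟩ := cd_step a m
  unfold tn
  by_cases h : cd a m ≤ R
  · rw [if_pos h]
    have h3 : R - cd (a + 1) m ≤ R - cd a m + 1 := by omega
    have h4 : R - cd a m ≤ R - cd (a + 1) m + 1 := by omega
    have h5 : ((R - cd (a + 1) m : ℕ) : ℝ) ≤ ((R - cd a m : ℕ) : ℝ) + 1 := by exact_mod_cast h3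
    have h6 : ((R - cd a m : ℕ) : ℝ) ≤ ((R - cd (a + 1) m : ℕ) : ℝ) + 1 := by exact_mod_cast h4
    rw [sq_le_one_iff_abs_le_one, abs_le]
    constructor <;> linarith
  · rw [if_neg h]
    have h3 : R - cd a m = 0 := by omega
    have h4 : R - cd (a + 1) m = 0 := by omega
    rw [h3, h4]
    simp

/-- the number of sites near a site, from above -/
theorem ball_le (a : ZMod M) (R : ℕ) :
    ((Finset.univ.filter fun m : ZMod M => cd a m ≤ R).card : ℝ) ≤ 2 * R + 1 := by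
  have hsub : (Finset.univ.filter fun m : ZMod M => cd a m ≤ R) ⊆
      (Finset.Icc (-(R : ℤ)) R).image fun k : ℤ => a - (k : ZMod M) := by
    intro m hm
    have h1 := (Finset.mem_filter.1 hm).2
    obtain ⟨k, hk, hk'⟩ := ANP.H61.exists_int a m
    refine Finset.mem_image.2 ⟨k, ?_, ?_⟩
    · rw [Finset.mem_Icc]
      omega
    · rw [← hk]
      ring
  have h2 := (Finset.card_le_card hsub).trans Finset.card_image_le
  rw [Int.card_Icc] at h2
  have h3 : (Finset.univ.filter fun m : ZMod M => cd a m ≤ R).card ≤ 2 * R + 1 := by omega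
  exact_mod_cast h3

/-- from below -/
theorem ball_ge (a : ZMod M) (t : ℕ) (ht : t + 1 ≤ M) :
    t + 1 ≤ (Finset.univ.filter fun m : ZMod M => cd a m ≤ t).card := by
  have hsub : (Finset.range (t + 1)).image (fun k : ℕ => a + (k : ZMod M)) ⊆
      Finset.univ.filter fun m : ZMod M => cd a m ≤ t := by
    intro m hm
    obtain ⟨k, hk, rfl⟩ := Finset.mem_image.1 hm
    refine Finset.mem_filter.2 ⟨Finset.mem_univ _, ?_⟩
    have h1 := cd_le a (a + (k : ZMod M)) (-(k : ℤ)) (by push_cast; ring)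
    have h2 := Finset.mem_range.1 hk
    rw [Int.natAbs_neg, Int.natAbs_natCast] at h1
    omega
  refine le_trans (le_of_eq ?_) (Finset.card_le_card hsub)
  rw [Finset.card_image_of_injOn, Finset.card_range]
  intro k hk l hl hkl
  have hk' := Finset.mem_range.1 (Finset.mem_coe.1 hk)
  have hl' := Finset.mem_range.1 (Finset.mem_coe.1 hl)
  have h1 : (k : ZMod M) = (l : ZMod M) := add_left_cancel hkl
  have h2 := congrArg ZMod.val h1
  rwa [ZMod.val_natCast, ZMod.val_natCast, Nat.mod_eq_of_lt (by omega),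
    Nat.mod_eq_of_lt (by omega)] at h2

theorem cd_half (a b : ZMod M) : cd a b ≤ M / 2 := ZMod.natAbs_valMinAbs_le _

theorem comm3 {I X Y : Type} [Fintype I] [Fintype X] [Fintype Y] {F : I → X → Y → ℝ}
    {S : X → Y → ℝ} (h : ∀ x y, S x y = ∑ i, F i x y) :
    ∑ i, ∑ x, ∑ y, F i x y = ∑ x, ∑ y, S x y := by
  rw [Finset.sum_comm]
  refine Finset.sum_congr rfl fun x _ => ?_
  rw [Finset.sum_comm]
  exact Finset.sum_congr rfl fun y _ => (h x y).symm

/-- the energy of a tent -/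
theorem bon_tent (R : ℕ) (i : Fin d) (m : ZMod M) :
    bon sT tT (fun _ => 1) (fun x : Tor d M => tn R m (x i)) ≤
      ∑ x : Tor d M, if cd (x i) m ≤ R then 1 else 0 := by
  unfold bon
  rw [Fintype.sum_prod_type, Finset.sum_comm]
  refine Finset.sum_le_sum fun x _ => ?_
  have h1 : ∀ k : Fin d, 1 * (tn R m ((tT (k, x) : Tor d M) i) - tn R m ((sT (k, x) : Tor d M) i)) ^ 2 ≤
      if k = i then (if cd (x i) m ≤ R then 1 else 0) else 0 := by
    intro k
    unfold tT sT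
    by_cases hk : k = i
    · subst hk
      rw [if_pos rfl, one_mul]
      simp only [Pi.add_apply, Pi.single_eq_same]
      exact tn_step R m (x k)
    · rw [if_neg hk]
      simp only [Pi.add_apply]
      rw [Pi.single_eq_of_ne (Ne.symm hk), add_zero, sub_self]
      simp
  refine (Finset.sum_le_sum fun k _ => h1 k).trans (le_of_eq ?_)
  rw [Finset.sum_ite_eq' Finset.univ i, if_pos (Finset.mem_univ i)]

/-- the energy of all tents of one coordinate -/
theorem bon_tents (R : ℕ) (i : Fin d) :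
    ∑ m : ZMod M, bon sT tT (fun _ => 1) (fun x : Tor d M => tn R m (x i)) ≤
      (M : ℝ) ^ d * (2 * R + 1) := by
  refine (Finset.sum_le_sum fun m _ => bon_tent R i m).trans ?_
  rw [Finset.sum_comm]
  have h1 : ∀ x : Tor d M, ∑ m : ZMod M, (if cd (x i) m ≤ R then (1 : ℝ) else 0) ≤ 2 * R + 1 := by
    intro x
    rw [← Finset.sum_filter, Finset.sum_const, nsmul_eq_mul, mul_one]
    exact ball_le (x i) R
  refine (Finset.sum_le_sum fun x _ => h1 x).trans (le_of_eq ?_)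
  rw [Finset.sum_const, nsmul_eq_mul, Finset.card_univ]
  congr 1
  rw [Fintype.card_fun, Fintype.card_fin, ZMod.card]
  push_cast
  rfl

/-- the tents separate far sites -/
theorem tent_sep {R : ℕ} (hR : 1 ≤ R) (x y : Tor d M) (h : R ≤ sd x y) :
    (R : ℝ) ^ 3 / 16 ≤ ∑ i : Fin d, ∑ m : ZMod M, (tn R m (x i) - tn R m (y i)) ^ 2 := by
  obtain ⟨i, hi⟩ : ∃ i, R ≤ cd (x i) (y i) := by
    by_contra hc
    push Not at hc
    have : sd x y < R := by
      unfold sd
      rw [Finset.sup_lt_iff (by show 0 < R; omega)]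
      exact fun i _ => hc i
    omega
  have hM := cd_half (x i) (y i)
  have h1 : ∑ m : ZMod M, (tn R m (x i) - tn R m (y i)) ^ 2 ≤
      ∑ i : Fin d, ∑ m : ZMod M, (tn R m (x i) - tn R m (y i)) ^ 2 :=
    Finset.single_le_sum (f := fun i => ∑ m : ZMod M, (tn R m (x i) - tn R m (y i)) ^ 2)
      (fun i _ => Finset.sum_nonneg fun m _ => sq_nonneg _) (Finset.mem_univ i)
  refine le_trans ?_ h1
  set t := R / 4 with ht
  have htR : 4 * t ≤ R := by omega
  have h2 := ball_ge (x i) t (by omega)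
  have h3 : ∀ m ∈ Finset.univ.filter (fun m : ZMod M => cd (x i) m ≤ t),
      ((R : ℝ) / 2) ^ 2 ≤ (tn R m (x i) - tn R m (y i)) ^ 2 := by
    intro m hm
    have h4 := (Finset.mem_filter.1 hm).2
    have h5 := cd_tri (x i) m (y i)
    rw [cd_comm m (y i)] at h5
    have h6 : R - t ≤ R - cd (x i) m := by omega
    have h7 : R - cd (y i) m ≤ t := by omega
    have h8 : ((R - t : ℕ) : ℝ) = R - t := by
      push_cast [Nat.cast_sub (show t ≤ R by omega)]
      ring
    have h9 : (R : ℝ) - t ≤ tn R m (x i) := by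
      rw [← h8]
      unfold tn
      exact_mod_cast h6
    have h10 : tn R m (y i) ≤ t := by
      unfold tn
      exact_mod_cast h7
    have h11 : 4 * (t : ℝ) ≤ R := by exact_mod_cast htR
    exact pow_le_pow_left₀ (by positivity) (by linarith only [h9, h10, h11]) 2
  have h4 : (R : ℝ) / 4 ≤ ((Finset.univ.filter fun m : ZMod M => cd (x i) m ≤ t).card : ℝ) := by
    have h5 : R ≤ 4 * (Finset.univ.filter fun m : ZMod M => cd (x i) m ≤ t).card := by omega
    have h6 : (R : ℝ) ≤ 4 * ((Finset.univ.filter fun m : ZMod M => cd (x i) m ≤ t).card : ℝ) := by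
      exact_mod_cast h5
    linarith
  calc (R : ℝ) ^ 3 / 16 = (R : ℝ) / 4 * ((R : ℝ) / 2) ^ 2 := by ring
    _ ≤ ((Finset.univ.filter fun m : ZMod M => cd (x i) m ≤ t).card : ℝ) * ((R : ℝ) / 2) ^ 2 :=
        mul_le_mul_of_nonneg_right h4 (by positivity)
    _ = ∑ _m ∈ Finset.univ.filter (fun m : ZMod M => cd (x i) m ≤ t), ((R : ℝ) / 2) ^ 2 := by
        rw [Finset.sum_const, nsmul_eq_mul]
    _ ≤ ∑ m ∈ Finset.univ.filter (fun m : ZMod M => cd (x i) m ≤ t),
          (tn R m (x i) - tn R m (y i)) ^ 2 := Finset.sum_le_sum h3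
    _ ≤ _ := Finset.sum_le_sum_of_subset_of_nonneg (Finset.filter_subset _ _)
        fun m _ _ => sq_nonneg _

/-- UPF -/
theorem upf : UpfStmt := by
  intro d hd
  have hd' : (1 : ℝ) ≤ d := by exact_mod_cast hd
  refine ⟨96 * d, by linarith only [hd'], ?_⟩
  intro M hM c B hc hB hU R hR
  have hR' : (1 : ℝ) ≤ R := by exact_mod_cast hR
  -- upper
  have h1 : ∑ i : Fin d, ∑ m : ZMod M, 1 / 2 * ∑ x, ∑ y, c x y *
      (tn R m (x i) - tn R m (y i)) ^ 2 ≤ B * (d * ((M : ℝ) ^ d * (2 * R + 1))) := by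
    have h2 : ∀ i : Fin d, ∑ m : ZMod M, 1 / 2 * ∑ x, ∑ y, c x y *
        (tn R m (x i) - tn R m (y i)) ^ 2 ≤ B * ((M : ℝ) ^ d * (2 * R + 1)) := by
      intro i
      refine (Finset.sum_le_sum fun m _ => hU fun x => tn R m (x i)).trans ?_
      rw [← Finset.mul_sum]
      exact mul_le_mul_of_nonneg_left (bon_tents R i) hB
    refine (Finset.sum_le_sum fun i _ => h2 i).trans (le_of_eq ?_)
    rw [Finset.sum_const, Finset.card_univ, Fintype.card_fin, nsmul_eq_mul]
    ring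
  -- lower
  have h3 : (R : ℝ) ^ 3 / 32 * ∑ x, ∑ y, (if R ≤ sd x y then c x y else 0) ≤
      ∑ i : Fin d, ∑ m : ZMod M, 1 / 2 * ∑ x, ∑ y, c x y *
        (tn R m (x i) - tn R m (y i)) ^ 2 := by
    have h4 : ∑ i : Fin d, ∑ m : ZMod M, 1 / 2 * ∑ x, ∑ y, c x y *
        (tn R m (x i) - tn R m (y i)) ^ 2 = 1 / 2 * ∑ x : Tor d M, ∑ y : Tor d M, c x y *
          ∑ i : Fin d, ∑ m : ZMod M, (tn R m (x i) - tn R m (y i)) ^ 2 := by
      have e1 : ∀ i : Fin d, ∑ m : ZMod M, 1 / 2 * ∑ x, ∑ y, c x y *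
          (tn R m (x i) - tn R m (y i)) ^ 2 = ∑ x : Tor d M, ∑ y : Tor d M,
            1 / 2 * (c x y * ∑ m : ZMod M, (tn R m (x i) - tn R m (y i)) ^ 2) := by
        intro i
        refine Eq.trans ?_ (comm3 (F := fun (m : ZMod M) (x y : Tor d M) =>
          1 / 2 * (c x y * (tn R m (x i) - tn R m (y i)) ^ 2)) fun x y => ?_)
        · refine Finset.sum_congr rfl fun m _ => ?_
          simp only [Finset.mul_sum]
        · rw [Finset.mul_sum, Finset.mul_sum]
      rw [Finset.sum_congr rfl fun i _ => e1 i]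
      refine Eq.trans (comm3 (F := fun (i : Fin d) (x y : Tor d M) =>
        1 / 2 * (c x y * ∑ m : ZMod M, (tn R m (x i) - tn R m (y i)) ^ 2))
        (S := fun x y => 1 / 2 * (c x y * ∑ i : Fin d, ∑ m : ZMod M,
          (tn R m (x i) - tn R m (y i)) ^ 2)) fun x y => ?_) ?_
      · rw [Finset.mul_sum, Finset.mul_sum]
      · simp only [Finset.mul_sum]
    rw [h4, Finset.mul_sum, Finset.mul_sum]
    refine Finset.sum_le_sum fun x _ => ?_
    rw [Finset.mul_sum, Finset.mul_sum]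
    refine Finset.sum_le_sum fun y _ => ?_
    split
    · rename_i h
      have h5 := mul_le_mul_of_nonneg_left (tent_sep hR x y h) (hc x y)
      linarith only [hM, h5]
    · have h5 : 0 ≤ ∑ i : Fin d, ∑ m : ZMod M, (tn R m (x i) - tn R m (y i)) ^ 2 :=
        Finset.sum_nonneg fun i _ => Finset.sum_nonneg fun m _ => sq_nonneg _
      have h6 := mul_nonneg (hc x y) h5
      linarith only [hM, h6]
  have h4 := h3.trans h1
  rw [le_div_iff₀ (by positivity)]
  have h5 : (2 * (R : ℝ) + 1) ≤ 3 * R := by linarith only [hR']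
  have h6 : B * (d * ((M : ℝ) ^ d * (2 * R + 1))) ≤ B * (d * ((M : ℝ) ^ d * (3 * R))) := by
    gcongr
  have h7 := h4.trans h6
  have hR0 : (0 : ℝ) < R := by linarith only [hR']
  set S := ∑ x : Tor d M, ∑ y : Tor d M, (if R ≤ sd x y then c x y else 0) with hS
  have h8 : (R : ℝ) / 32 * (S * (R : ℝ) ^ 2) ≤ (R : ℝ) / 32 * (96 * d * B * (M : ℝ) ^ d) := by
    calc (R : ℝ) / 32 * (S * (R : ℝ) ^ 2) = (R : ℝ) ^ 3 / 32 * S := by ring
      _ ≤ B * (d * ((M : ℝ) ^ d * (3 * R))) := h7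
      _ = _ := by ring
  exact le_of_mul_le_mul_left h8 (by positivity)

end Pool.Agent.QDA.H30
end
end -- Pool.Agent.Helper30_QDA.Upf

section -- Pool.Agent.Helper76_QDA.Lof

/-!
# QDA, row LOF: the waves leave every box (helper76)

The lower bound of the form, tested with the indicator of a box `S` of side `R = 2 ^ (j + 1)`, bounds the
conductances inside `S`; every pair at a distance smaller than `2 ^ j` lies in at least `2 ^ (j d)` of
these boxes. Boxes of more than `1 / 16` of the side of the torus: the row sums.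
-/

set_option autoImplicit false

open scoped BigOperators Matrix

noncomputable section

namespace Pool.Agent.QDA.H76

open Pool.Agent.LTG (LB Box bon mor sT tT Tor Bd)
open Pool.Agent.MAJ (maj S0)
open Pool.Agent.NAS (CS)

section abs

variable {X : Type} [Fintype X] [DecidableEq X]

/-- the form on an indicator -/
theorem form_ind (c : Matrix X X ℝ) (hc : ∀ x y, c x y = c y x) (S : Finset X) :
    1 / 2 * ∑ x, ∑ y, c x y * ((if x ∈ S then (1 : ℝ) else 0) - (if y ∈ S then 1 else 0)) ^ 2 =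
      ∑ x ∈ S, (∑ y, c x y) - ∑ x ∈ S, ∑ y ∈ S, c x y := by
  have h1 : ∀ x y, c x y * ((if x ∈ S then (1 : ℝ) else 0) - (if y ∈ S then 1 else 0)) ^ 2 =
      (if x ∈ S then (1 : ℝ) else 0) * c x y + (if y ∈ S then (1 : ℝ) else 0) * c x y -
        2 * ((if x ∈ S then (1 : ℝ) else 0) * ((if y ∈ S then (1 : ℝ) else 0) * c x y)) := by
    intro x y
    split_ifs <;> ring
  have h2 : ∑ x, ∑ y, (if x ∈ S then (1 : ℝ) else 0) * c x y = ∑ x ∈ S, ∑ y, c x y := by
    rw [← Finset.sum_filter_add_sum_filter_not Finset.univ (fun x => x ∈ S)]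
    have e1 : ∑ x ∈ Finset.univ.filter (fun x => x ∉ S), ∑ y,
        (if x ∈ S then (1 : ℝ) else 0) * c x y = 0 := by
      refine Finset.sum_eq_zero fun x hx => Finset.sum_eq_zero fun y _ => ?_
      rw [if_neg (Finset.mem_filter.1 hx).2, zero_mul]
    rw [e1, add_zero]
    refine Finset.sum_congr (by ext x; simp) fun x hx => Finset.sum_congr rfl fun y _ => ?_
    have hx' : x ∈ S := hx
    rw [if_pos hx', one_mul]
  have h3 : ∑ x, ∑ y, (if y ∈ S then (1 : ℝ) else 0) * c x y = ∑ x ∈ S, ∑ y, c x y := by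
    rw [Finset.sum_comm, ← h2]
    refine Finset.sum_congr rfl fun x _ => Finset.sum_congr rfl fun y _ => ?_
    rw [hc x y]
  have h4 : ∑ x, ∑ y, (if x ∈ S then (1 : ℝ) else 0) *
      ((if y ∈ S then (1 : ℝ) else 0) * c x y) = ∑ x ∈ S, ∑ y ∈ S, c x y := by
    rw [← Finset.sum_filter_add_sum_filter_not Finset.univ (fun x => x ∈ S)]
    have e1 : ∑ x ∈ Finset.univ.filter (fun x => x ∉ S), ∑ y,
        (if x ∈ S then (1 : ℝ) else 0) * ((if y ∈ S then (1 : ℝ) else 0) * c x y) = 0 := by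
      refine Finset.sum_eq_zero fun x hx => Finset.sum_eq_zero fun y _ => ?_
      rw [if_neg (Finset.mem_filter.1 hx).2, zero_mul]
    rw [e1, add_zero]
    refine Finset.sum_congr (by ext x; simp) fun x hx => ?_
    have hx' : x ∈ S := hx
    rw [← Finset.sum_filter_add_sum_filter_not Finset.univ (fun y => y ∈ S)]
    have e2 : ∑ y ∈ Finset.univ.filter (fun y => y ∉ S),
        (if x ∈ S then (1 : ℝ) else 0) * ((if y ∈ S then (1 : ℝ) else 0) * c x y) = 0 := by
      refine Finset.sum_eq_zero fun y hy => ?_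
      rw [if_neg (Finset.mem_filter.1 hy).2, zero_mul, mul_zero]
    rw [e2, add_zero]
    refine Finset.sum_congr (by ext y; simp) fun y hy => ?_
    have hy' : y ∈ S := hy
    rw [if_pos hx', if_pos hy', one_mul, one_mul]
  have h5 : ∑ x, ∑ y, c x y * ((if x ∈ S then (1 : ℝ) else 0) - (if y ∈ S then 1 else 0)) ^ 2 =
      ∑ x, ∑ y, (if x ∈ S then (1 : ℝ) else 0) * c x y +
        ∑ x, ∑ y, (if y ∈ S then (1 : ℝ) else 0) * c x y -
        2 * ∑ x, ∑ y, (if x ∈ S then (1 : ℝ) else 0) *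
          ((if y ∈ S then (1 : ℝ) else 0) * c x y) := by
    rw [Finset.mul_sum, ← Finset.sum_add_distrib, ← Finset.sum_sub_distrib]
    refine Finset.sum_congr rfl fun x _ => ?_
    rw [Finset.mul_sum, ← Finset.sum_add_distrib, ← Finset.sum_sub_distrib]
    exact Finset.sum_congr rfl fun y _ => h1 x y
  rw [h5, h2, h3, h4]
  ring

end abs

section torus

variable {d μ : ℕ}

/-- the conductances inside a set `S` of alive sites -/
theorem lof_set (hd : 3 ≤ d) (J : ℕ) {c : Matrix (Tor d (2 ^ μ)) (Tor d (2 ^ μ)) ℝ}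
    {A S : Finset (Tor d (2 ^ μ))} {w : Tor d (2 ^ μ) → ℝ} {b ε ν m : ℝ} (hS : S ⊆ A)
    (hc : ∀ x y, c x y = c y x) (hw : ∀ x ∈ A, 0 < w x) (hε : 0 ≤ ε) (hb : 0 < b)
    (hrow : ∀ x ∈ A, ∑ y, c x y ≤ (1 + ν) * w x)
    (hLB : ∀ f : Tor d (2 ^ μ) → ℝ, ∃ h : Tor d (2 ^ μ) → ℝ,
      ∑ x ∈ A, w x / (1 + ε) * (f x - h x) ^ 2 + b * bon sT tT (fun _ => 1) h ≤
        1 / 2 * ∑ x, ∑ y, c x y * (f x - f y) ^ 2)
    (hm : 0 < m) (hmA : ∀ x ∈ A, m ≤ w x / (1 + ε))
    (hZ : ((2 : ℝ) ^ μ) ^ d ≤ 4 * ((A \ S).card : ℝ)) :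
    ∑ x ∈ S, ∑ y ∈ S, c x y ≤
      (ν + ε) * ∑ x ∈ S, w x + 2 * CS d * 4 ^ J / b * ∑ x ∈ S, w x ^ 2 +
        S0 d μ J b m * (∑ x ∈ S, w x) ^ 2 := by
  set Q : (Tor d (2 ^ μ) → ℝ) → ℝ := fun f => 1 / 2 * ∑ x, ∑ y, c x y * (f x - f y) ^ 2 with hQ
  set al : Tor d (2 ^ μ) → ℝ := fun x => if x ∈ A then w x / (1 + ε) else 0 with hal'
  set f : Tor d (2 ^ μ) → ℝ := fun x => if x ∈ S then 1 else 0 with hf'
  set φ : Tor d (2 ^ μ) → ℝ := fun x => if x ∈ S then w x else 0 with hφ'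
  have hLB' : LB sT tT Q al (fun _ => b) := by
    intro g
    obtain ⟨h, hh⟩ := hLB g
    refine ⟨h, ?_⟩
    unfold mor
    have e1 : ∑ x, al x * (g x - h x) ^ 2 = ∑ x ∈ A, w x / (1 + ε) * (g x - h x) ^ 2 := by
      rw [← Finset.sum_subset (Finset.subset_univ A)]
      · refine Finset.sum_congr rfl fun x hx => ?_
        have : al x = w x / (1 + ε) := if_pos hx
        rw [this]
      · intro x _ hx
        have : al x = 0 := if_neg hx
        rw [this, zero_mul]
    have e2 : bon sT tT (fun _ => b) h = b * bon sT tT (fun _ => 1) h := by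
      unfold bon
      rw [Finset.mul_sum]
      refine Finset.sum_congr rfl fun e _ => ?_
      ring
    rw [e1, e2]
    exact hh
  have halA : ∀ x ∈ A, al x = w x / (1 + ε) := fun x hx => if_pos hx
  have halp : ∀ x ∈ A, 0 < al x := by
    intro x hx
    rw [halA x hx]
    exact div_pos (hw x hx) (by linarith only [hε])
  have hal : ∀ x, 0 ≤ al x := by
    intro x
    by_cases hx : x ∈ A
    · exact (halp x hx).le
    · have : al x = 0 := if_neg hx
      rw [this]
  have hbox : ∀ x : Tor d (2 ^ μ), Box (0 : Tor d (2 ^ μ)) (2 ^ μ) x := fun x i => ZMod.val_lt _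
  have h1 := maj hd (0 : Tor d (2 ^ μ)) μ J le_rfl hLB' hal (fun _ => hb.le) hb hm
    (fun _ _ _ => le_rfl) (B := S) (B2 := S) (Z := A \ S) (fun x _ => hbox x)
    (Finset.Subset.refl S) (fun x hx => halp x (hS hx))
    (fun x hx => ⟨hbox x, (Finset.mem_sdiff.1 hx).2, by
      rw [halA x (Finset.mem_sdiff.1 hx).1]
      exact hmA x (Finset.mem_sdiff.1 hx).1⟩) hZ f φ
    (fun x hx => if_neg hx) (fun x hx => if_neg hx)
  have e0 : Q f = ∑ x ∈ S, (∑ y, c x y) - ∑ x ∈ S, ∑ y ∈ S, c x y := form_ind c hc S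
  have e1 : ∑ x, f x * φ x = ∑ x ∈ S, w x := by
    rw [← Finset.sum_subset (Finset.subset_univ S)]
    · refine Finset.sum_congr rfl fun x hx => ?_
      show (if x ∈ S then (1 : ℝ) else 0) * (if x ∈ S then w x else 0) = w x
      rw [if_pos hx, if_pos hx, one_mul]
    · intro x _ hx
      show (if x ∈ S then (1 : ℝ) else 0) * (if x ∈ S then w x else 0) = 0
      rw [if_neg hx, zero_mul]
  have e2 : ∑ x ∈ S, φ x ^ 2 / al x = (1 + ε) * ∑ x ∈ S, w x := by
    rw [Finset.mul_sum]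
    refine Finset.sum_congr rfl fun x hx => ?_
    have h3 : φ x = w x := if_pos hx
    rw [h3, halA x (hS hx)]
    have h4 := hw x (hS hx)
    have h6 : 1 + ε ≠ 0 := by linarith only [hε]
    field_simp
  have e3 : ∑ x, φ x ^ 2 = ∑ x ∈ S, w x ^ 2 := by
    rw [← Finset.sum_subset (Finset.subset_univ S)]
    · refine Finset.sum_congr rfl fun x hx => ?_
      have h3 : φ x = w x := if_pos hx
      rw [h3]
    · intro x _ hx
      have h3 : φ x = 0 := if_neg hx
      rw [h3]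
      norm_num
  have e4 : ∑ x, |φ x| = ∑ x ∈ S, w x := by
    rw [← Finset.sum_subset (Finset.subset_univ S)]
    · refine Finset.sum_congr rfl fun x hx => ?_
      have h3 : φ x = w x := if_pos hx
      rw [h3, abs_of_pos (hw x (hS hx))]
    · intro x _ hx
      have h3 : φ x = 0 := if_neg hx
      rw [h3, abs_zero]
  have e5 : ∑ x ∈ S, (∑ y, c x y) ≤ (1 + ν) * ∑ x ∈ S, w x := by
    rw [Finset.mul_sum]
    exact Finset.sum_le_sum fun x hx => hrow x (hS hx)
  rw [e0, e1, e2, e3, e4] at h1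
  linarith only [h1, e5]

/-- the number of the sites of a box -/
theorem card_box (a : Tor d (2 ^ μ)) {L : ℕ} (hL : L ≤ 2 ^ μ) :
    ((Finset.univ.filter fun x => Box a L x).card : ℝ) = (L : ℝ) ^ d := by
  have h1 := MAJ.sum_cu a hL (fun _ => (1 : ℝ))
  rw [← Finset.sum_filter, Finset.sum_const, Finset.sum_const, NAS.card_cu] at h1
  simp only [nsmul_eq_mul, mul_one] at h1
  rw [h1]
  push_cast
  rfl

/-- the numbers of the constant `S0` -/
theorem s0_le {J : ℕ} {C b m W' W r M : ℝ} (hd : 3 ≤ d) (hC : 0 ≤ C) (hb : 0 < b)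
    (hW' : 0 < W') (hm : m = W' / 2) (hr : r = 2 ^ J) (hM : M = 2 ^ μ) (hrM : r ≤ M) :
    (2 * C / b * ((1 / 2 : ℝ) ^ (d - 2)) ^ J + 8 / (m * ((2 : ℝ) ^ μ) ^ d) +
      32 * C * 4 ^ μ / (b * ((2 : ℝ) ^ μ) ^ d)) * (W * r ^ d) ^ 2 ≤
      r ^ d * W * (34 * (C * W * r ^ 2 / b) + 16 * (W / W' * (r / M) ^ d)) := by
  obtain ⟨e, rfl⟩ : ∃ e, d = e + 2 := ⟨d - 2, by omega⟩
  have hr0 : 0 < r := by rw [hr]; positivity
  have hM0 : 0 < M := by rw [hM]; positivity
  have e0 : e + 2 - 2 = e := by omega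
  have e1 : ((1 / 2 : ℝ) ^ (e + 2 - 2)) ^ J = 1 / r ^ e := by
    rw [e0, hr, ← pow_mul, ← pow_mul, one_div, one_div, inv_pow, mul_comm]
  have e2 : (4 : ℝ) ^ μ = M ^ 2 := by
    rw [hM, ← pow_mul, mul_comm, pow_mul]
    norm_num
  rw [e1, e2, hm, ← hM]
  have hre : 0 < r ^ e := pow_pos hr0 e
  have hMe : 0 < M ^ e := pow_pos hM0 e
  have hle : r ^ e ≤ M ^ e := pow_le_pow_left₀ hr0.le hrM e
  have t1 : 2 * C / b * (1 / r ^ e) * (W * r ^ (e + 2)) ^ 2 =
      r ^ (e + 2) * W * (2 * (C * W * r ^ 2 / b)) := by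
    field_simp
    ring
  have t2 : 8 / (W' / 2 * M ^ (e + 2)) * (W * r ^ (e + 2)) ^ 2 =
      r ^ (e + 2) * W * (16 * (W / W' * (r / M) ^ (e + 2))) := by
    rw [div_pow]
    field_simp
    ring
  have t3 : 32 * C * M ^ 2 / (b * M ^ (e + 2)) * (W * r ^ (e + 2)) ^ 2 =
      r ^ (e + 2) * W ^ 2 * (32 * (C * r ^ 2 / b)) * (r ^ e / M ^ e) := by
    field_simp
    ring
  have t4 : r ^ e / M ^ e ≤ 1 := by
    rw [div_le_one hMe]
    exact hle
  have t5 : 0 ≤ r ^ (e + 2) * W ^ 2 * (32 * (C * r ^ 2 / b)) := by positivity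
  have t6 := mul_le_mul_of_nonneg_left t4 t5
  rw [add_mul, add_mul, t1, t2, t3]
  have t7 : r ^ (e + 2) * W ^ 2 * (32 * (C * r ^ 2 / b)) * 1 =
      r ^ (e + 2) * W * (32 * (C * W * r ^ 2 / b)) := by ring
  rw [t7] at t6
  have t8 : r ^ (e + 2) * W * (34 * (C * W * r ^ 2 / b) + 16 * (W / W' * (r / M) ^ (e + 2))) =
      r ^ (e + 2) * W * (2 * (C * W * r ^ 2 / b)) +
        r ^ (e + 2) * W * (16 * (W / W' * (r / M) ^ (e + 2))) +
        r ^ (e + 2) * W * (32 * (C * W * r ^ 2 / b)) := by ring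
  rw [t8]
  linarith only [t6]

/-- the conductances inside a box of side `2 ^ J`, `J + 3 ≤ μ` -/
theorem lof_box (hd : 3 ≤ d) {J : ℕ} (hJ : J + 3 ≤ μ) (a : Tor d (2 ^ μ))
    {c : Matrix (Tor d (2 ^ μ)) (Tor d (2 ^ μ)) ℝ}
    {A : Finset (Tor d (2 ^ μ))} {w : Tor d (2 ^ μ) → ℝ} {W W' b ε ν : ℝ}
    (hc : ∀ x y, c x y = c y x) (hW' : 0 < W') (hw : ∀ x ∈ A, W' ≤ w x ∧ w x ≤ W)
    (hb : 0 < b) (hε : 0 ≤ ε) (hε1 : ε ≤ 1 / 2) (hν : 0 ≤ ν)
    (hrow : ∀ x ∈ A, ∑ y, c x y ≤ (1 + ν) * w x)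
    (hLB : ∀ f : Tor d (2 ^ μ) → ℝ, ∃ h : Tor d (2 ^ μ) → ℝ,
      ∑ x ∈ A, w x / (1 + ε) * (f x - h x) ^ 2 + b * bon sT tT (fun _ => 1) h ≤
        1 / 2 * ∑ x, ∑ y, c x y * (f x - f y) ^ 2)
    (hA : ((2 : ℝ) ^ μ) ^ d ≤ 2 * A.card) :
    ∑ x ∈ A.filter (fun x => Box a (2 ^ J) x), ∑ y ∈ A.filter (fun x => Box a (2 ^ J) x),
      c x y ≤ ((2 : ℝ) ^ J) ^ d * W * ((ν + ε) + 36 * (CS d * W * ((2 : ℝ) ^ J) ^ 2 / b) +
        16 * (W / W' * ((2 : ℝ) ^ J / 2 ^ μ) ^ d)) := by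
  set S := A.filter (fun x => Box a (2 ^ J) x) with hS
  have hSA : S ⊆ A := Finset.filter_subset _ _
  have hCS : 0 ≤ CS d := NAS.CS_nonneg d
  have hJμ : (2 : ℕ) ^ J ≤ 2 ^ μ := Nat.pow_le_pow_right (by norm_num) (by omega)
  have hSc : (S.card : ℝ) ≤ ((2 : ℝ) ^ J) ^ d := by
    have h1 : S ⊆ Finset.univ.filter fun x => Box a (2 ^ J) x := fun x hx =>
      Finset.mem_filter.2 ⟨Finset.mem_univ _, (Finset.mem_filter.1 hx).2⟩
    have h2 := card_box a hJμ
    push_cast at h2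
    rw [← h2]
    exact_mod_cast Finset.card_le_card h1
  have hr0 : (0 : ℝ) < (2 : ℝ) ^ J := by positivity
  -- the sites off the box
  have hZ : ((2 : ℝ) ^ μ) ^ d ≤ 4 * ((A \ S).card : ℝ) := by
    have h1 : (A.card : ℝ) = S.card + (A \ S).card := by
      have := Finset.card_sdiff_add_card_eq_card hSA
      have h2 : A.card = S.card + (A \ S).card := by omega
      exact_mod_cast h2
    have h3 : ((2 : ℝ) ^ J) ^ d ≤ ((2 : ℝ) ^ μ) ^ d / 4 := by
      obtain ⟨e, rfl⟩ : ∃ e, μ = J + 3 + e := ⟨μ - (J + 3), by omega⟩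
      have e1 : ((2 : ℝ) ^ (J + 3 + e)) ^ d = ((2 : ℝ) ^ J) ^ d * (8 ^ d) * (2 ^ e) ^ d := by
        rw [pow_add, pow_add, mul_pow, mul_pow]
        norm_num
      rw [e1]
      have e2 : (4 : ℝ) ≤ 8 ^ d := by
        calc (4 : ℝ) ≤ 8 ^ 1 := by norm_num
          _ ≤ 8 ^ d := pow_le_pow_right₀ (by norm_num) (by omega)
      have e3 : (1 : ℝ) ≤ (2 ^ e) ^ d := one_le_pow₀ (one_le_pow₀ (by norm_num))
      have e4 : 0 < ((2 : ℝ) ^ J) ^ d := by positivity
      have e5 : ((2 : ℝ) ^ J) ^ d * 4 * 1 ≤ ((2 : ℝ) ^ J) ^ d * 8 ^ d * (2 ^ e) ^ d :=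
        mul_le_mul (mul_le_mul_of_nonneg_left e2 e4.le) e3 (by norm_num) (by positivity)
      linarith only [e5]
    linarith only [hA, hSc, h1, h3]
  have hWpos : ∀ x ∈ A, 0 < w x := fun x hx => lt_of_lt_of_le hW' (hw x hx).1
  have hm : ∀ x ∈ A, W' / 2 ≤ w x / (1 + ε) := by
    intro x hx
    rw [div_le_div_iff₀ (by norm_num) (by linarith only [hε])]
    have h1 := (hw x hx).1
    nlinarith only [hW', hε1, h1]
  have h1 := lof_set hd J hSA hc hWpos hε hb hrow hLB (by positivity : 0 < W' / 2) hm hZ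
  have hne : A.Nonempty := by
    rw [← Finset.card_pos]
    have h2 : (0 : ℝ) < ((2 : ℝ) ^ μ) ^ d := by positivity
    have h3 : (0 : ℝ) < A.card := by linarith only [hA, h2]
    exact_mod_cast h3
  obtain ⟨x₀, hx₀⟩ := hne
  have hW : 0 < W := lt_of_lt_of_le (hWpos x₀ hx₀) (hw x₀ hx₀).2
  have s1 : ∑ x ∈ S, w x ≤ W * ((2 : ℝ) ^ J) ^ d := by
    calc ∑ x ∈ S, w x ≤ ∑ _x ∈ S, W := Finset.sum_le_sum fun x hx => (hw x (hSA hx)).2
      _ = W * S.card := by rw [Finset.sum_const, nsmul_eq_mul, mul_comm]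
      _ ≤ _ := mul_le_mul_of_nonneg_left hSc hW.le
  have s0 : 0 ≤ ∑ x ∈ S, w x := Finset.sum_nonneg fun x hx => (hWpos x (hSA hx)).le
  have s2 : ∑ x ∈ S, w x ^ 2 ≤ W ^ 2 * ((2 : ℝ) ^ J) ^ d := by
    calc ∑ x ∈ S, w x ^ 2 ≤ ∑ _x ∈ S, W ^ 2 := Finset.sum_le_sum fun x hx =>
          pow_le_pow_left₀ (hWpos x (hSA hx)).le (hw x (hSA hx)).2 2
      _ = W ^ 2 * S.card := by rw [Finset.sum_const, nsmul_eq_mul, mul_comm]
      _ ≤ _ := mul_le_mul_of_nonneg_left hSc (by positivity)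
  have hS0 : 0 ≤ S0 d μ J b (W' / 2) := by
    unfold S0
    positivity
  have t1 : (ν + ε) * ∑ x ∈ S, w x ≤ (ν + ε) * (W * ((2 : ℝ) ^ J) ^ d) :=
    mul_le_mul_of_nonneg_left s1 (by linarith only [hε, hν])
  have t2 : 2 * CS d * 4 ^ J / b * ∑ x ∈ S, w x ^ 2 ≤
      2 * CS d * 4 ^ J / b * (W ^ 2 * ((2 : ℝ) ^ J) ^ d) :=
    mul_le_mul_of_nonneg_left s2 (by positivity)
  have t3 : S0 d μ J b (W' / 2) * (∑ x ∈ S, w x) ^ 2 ≤
      S0 d μ J b (W' / 2) * (W * ((2 : ℝ) ^ J) ^ d) ^ 2 :=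
    mul_le_mul_of_nonneg_left (pow_le_pow_left₀ s0 s1 2) hS0
  have t4 := s0_le (d := d) (μ := μ) (J := J) (C := CS d) (b := b) (W' := W') (W := W) hd hCS hb
    hW' (m := W' / 2) rfl (r := (2 : ℝ) ^ J) rfl (M := (2 : ℝ) ^ μ) rfl (by exact_mod_cast hJμ)
  have t5 : S0 d μ J b (W' / 2) = 2 * CS d / b * ((1 / 2 : ℝ) ^ (d - 2)) ^ J +
      8 / (W' / 2 * ((2 : ℝ) ^ μ) ^ d) + 32 * CS d * 4 ^ μ / (b * ((2 : ℝ) ^ μ) ^ d) := rfl
  rw [← t5] at t4
  have t6 : (4 : ℝ) ^ J = ((2 : ℝ) ^ J) ^ 2 := by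
    rw [← pow_mul, mul_comm, pow_mul]
    norm_num
  have t7 : 2 * CS d * 4 ^ J / b * (W ^ 2 * ((2 : ℝ) ^ J) ^ d) =
      ((2 : ℝ) ^ J) ^ d * W * (2 * (CS d * W * ((2 : ℝ) ^ J) ^ 2 / b)) := by
    rw [t6]
    ring
  rw [t7] at t2
  have t8 : ((2 : ℝ) ^ J) ^ d * W * ((ν + ε) + 36 * (CS d * W * ((2 : ℝ) ^ J) ^ 2 / b) +
        16 * (W / W' * ((2 : ℝ) ^ J / 2 ^ μ) ^ d)) =
      (ν + ε) * (W * ((2 : ℝ) ^ J) ^ d) +
      ((2 : ℝ) ^ J) ^ d * W * (2 * (CS d * W * ((2 : ℝ) ^ J) ^ 2 / b)) +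
      ((2 : ℝ) ^ J) ^ d * W * (34 * (CS d * W * ((2 : ℝ) ^ J) ^ 2 / b) +
        16 * (W / W' * ((2 : ℝ) ^ J / 2 ^ μ) ^ d)) := by ring
  rw [t8]
  linarith only [h1, t1, t2, t3, t4]

/-- one coordinate: the corners of the intervals of length `2 n` which contain two close points -/
theorem corner1 {M n : ℕ} [NeZero M] (hn : 2 * n ≤ M) (u v : ZMod M)
    (h : ANP.H61.cd u v < n) :
    ∃ m : ZMod M, ∀ s : ℕ, s < n → (u - (m - (s : ZMod M))).val < 2 * n ∧
      (v - (m - (s : ZMod M))).val < 2 * n := by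
  obtain ⟨k, hk, hk'⟩ := ANP.H61.exists_int u v
  have key : ∀ (p q : ZMod M) (t : ℕ), t < n → p - q = (t : ZMod M) → ∀ s : ℕ, s < n →
      (p - (q - (s : ZMod M))).val < 2 * n ∧ (q - (q - (s : ZMod M))).val < 2 * n := by
    intro p q t ht hpq s hs
    have e1 : p - (q - (s : ZMod M)) = ((t + s : ℕ) : ZMod M) := by
      push_cast
      rw [← hpq]
      ring
    have e2 : q - (q - (s : ZMod M)) = ((s : ℕ) : ZMod M) := by ring
    rw [e1, e2, ZMod.val_natCast, ZMod.val_natCast, Nat.mod_eq_of_lt (by omega),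
      Nat.mod_eq_of_lt (by omega)]
    omega
  rcases le_total 0 k with hk0 | hk0
  · refine ⟨v, fun s hs => ?_⟩
    have e : ((k.natAbs : ℕ) : ℤ) = k := Int.natAbs_of_nonneg hk0
    have e' : u - v = ((k.natAbs : ℕ) : ZMod M) := by
      rw [hk, ← Int.cast_natCast (k.natAbs), e]
    exact key u v k.natAbs (by omega) e' s hs
  · refine ⟨u, fun s hs => ?_⟩
    have e : ((k.natAbs : ℕ) : ℤ) = -k := Int.ofNat_natAbs_of_nonpos hk0
    have e' : v - u = ((k.natAbs : ℕ) : ZMod M) := by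
      have e3 : v - u = ((-k : ℤ) : ZMod M) := by
        push_cast
        rw [← hk]
        ring
      rw [e3, ← Int.cast_natCast (k.natAbs), e]
    exact (key v u k.natAbs (by omega) e' s hs).symm

/-- two points at a distance smaller than `n` are in at least `n ^ d` boxes of side `2 n` -/
theorem corners {M n : ℕ} [NeZero M] (hn : 2 * n ≤ M) (x y : Tor d M)
    (h : ANP.H61.sd x y < n) :
    n ^ d ≤ (Finset.univ.filter fun a : Tor d M => Box a (2 * n) x ∧ Box a (2 * n) y).card := by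
  have h1 : ∀ i, ∃ m : ZMod M, ∀ s : ℕ, s < n → (x i - (m - (s : ZMod M))).val < 2 * n ∧
      (y i - (m - (s : ZMod M))).val < 2 * n := fun i =>
    corner1 hn (x i) (y i) (lt_of_le_of_lt (ANP.H61.le_sd x y i) h)
  choose m hm using h1
  have hc : Fintype.card (Fin d → Fin n) = n ^ d := by simp
  rw [← hc, ← Finset.card_univ]
  refine Finset.card_le_card_of_injOn (fun s i => m i - ((s i : ℕ) : ZMod M)) ?_ ?_
  · intro s _
    rw [Finset.mem_coe, Finset.mem_filter]
    exact ⟨Finset.mem_univ _, fun i => (hm i (s i) (s i).2).1, fun i => (hm i (s i) (s i).2).2⟩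
  · intro s _ t _ hst
    funext i
    have h2 := congrFun hst i
    simp only at h2
    have h3 : ((s i : ℕ) : ZMod M) = ((t i : ℕ) : ZMod M) := by
      have := sub_right_injective h2
      exact this
    have h4 := congrArg ZMod.val h3
    rw [ZMod.val_natCast, ZMod.val_natCast, Nat.mod_eq_of_lt (by have := (s i).2; omega),
      Nat.mod_eq_of_lt (by have := (t i).2; omega)] at h4
    exact Fin.ext h4

/-- from the boxes to the pairs -/
theorem pairs_box {M n : ℕ} [NeZero M] (hn : 2 * n ≤ M) (c : Matrix (Tor d M) (Tor d M) ℝ)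
    (A : Finset (Tor d M)) (h0 : ∀ x y, 0 ≤ c x y) (hc : ∀ x y, c x y = c y x)
    (hA : ∀ x y, x ∉ A → c x y = 0) :
    (n : ℝ) ^ d * ∑ x, ∑ y, (if ANP.H61.sd x y < n then c x y else 0) ≤
      ∑ a : Tor d M, ∑ x ∈ A.filter (fun x => Box a (2 * n) x),
        ∑ y ∈ A.filter (fun x => Box a (2 * n) x), c x y := by
  have h1 : ∀ a : Tor d M, ∑ x ∈ A.filter (fun x => Box a (2 * n) x),
      ∑ y ∈ A.filter (fun x => Box a (2 * n) x), c x y =
      ∑ x, ∑ y, (if Box a (2 * n) x ∧ Box a (2 * n) y then c x y else 0) := by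
    intro a
    rw [← Finset.sum_subset (Finset.subset_univ (A.filter (fun x => Box a (2 * n) x)))]
    · refine Finset.sum_congr rfl fun x hx => ?_
      rw [← Finset.sum_subset (Finset.subset_univ (A.filter (fun x => Box a (2 * n) x)))]
      · refine Finset.sum_congr rfl fun y hy => ?_
        rw [if_pos ⟨(Finset.mem_filter.1 hx).2, (Finset.mem_filter.1 hy).2⟩]
      · intro y _ hy
        by_cases hyA : y ∈ A
        · rw [if_neg fun h => hy (Finset.mem_filter.2 ⟨hyA, h.2⟩)]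
        · rw [hc x y, hA y x hyA]
          split <;> rfl
    · intro x _ hx
      refine Finset.sum_eq_zero fun y _ => ?_
      by_cases hxA : x ∈ A
      · rw [if_neg fun h => hx (Finset.mem_filter.2 ⟨hxA, h.1⟩)]
      · rw [hA x y hxA]
        split <;> rfl
  have h2 : ∑ a : Tor d M, ∑ x, ∑ y, (if Box a (2 * n) x ∧ Box a (2 * n) y then c x y else 0) =
      ∑ x, ∑ y, ∑ a : Tor d M, (if Box a (2 * n) x ∧ Box a (2 * n) y then c x y else 0) := by
    rw [Finset.sum_comm]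
    exact Finset.sum_congr rfl fun x _ => Finset.sum_comm
  rw [Finset.sum_congr rfl fun a _ => h1 a, h2, Finset.mul_sum]
  refine Finset.sum_le_sum fun x _ => ?_
  rw [Finset.mul_sum]
  refine Finset.sum_le_sum fun y _ => ?_
  rw [← Finset.sum_filter, Finset.sum_const, nsmul_eq_mul]
  by_cases hxy : ANP.H61.sd x y < n
  · rw [if_pos hxy]
    refine mul_le_mul_of_nonneg_right ?_ (h0 x y)
    exact_mod_cast corners hn x y hxy
  · rw [if_neg hxy, mul_zero]
    exact mul_nonneg (Nat.cast_nonneg _) (h0 x y)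

/-- the sum over all pairs, crude -/
theorem lof_triv {c : Matrix (Tor d (2 ^ μ)) (Tor d (2 ^ μ)) ℝ}
    {A : Finset (Tor d (2 ^ μ))} {w : Tor d (2 ^ μ) → ℝ} {W ν : ℝ} (hW : 0 ≤ W) (hν : 0 ≤ ν)
    (h0 : ∀ x y, 0 ≤ c x y) (hA : ∀ x y, x ∉ A → c x y = 0) (hw : ∀ x ∈ A, w x ≤ W)
    (hrow : ∀ x ∈ A, ∑ y, c x y ≤ (1 + ν) * w x) (n : ℕ) :
    ∑ x, ∑ y, (if ANP.H61.sd x y < n then c x y else 0) ≤ ((2 : ℝ) ^ μ) ^ d * ((1 + ν) * W) := by
  have h1 : ∀ x, ∑ y, (if ANP.H61.sd x y < n then c x y else 0) ≤ (1 + ν) * W := by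
    intro x
    have h2 : ∑ y, (if ANP.H61.sd x y < n then c x y else 0) ≤ ∑ y, c x y := by
      refine Finset.sum_le_sum fun y _ => ?_
      split
      · exact le_rfl
      · exact h0 x y
    refine h2.trans ?_
    by_cases hx : x ∈ A
    · exact (hrow x hx).trans (mul_le_mul_of_nonneg_left (hw x hx) (by linarith))
    · rw [Finset.sum_eq_zero fun y _ => hA x y hx]
      positivity
  calc ∑ x, ∑ y, (if ANP.H61.sd x y < n then c x y else 0) ≤
      ∑ _x : Tor d (2 ^ μ), (1 + ν) * W := Finset.sum_le_sum fun x _ => h1 x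
    _ = ((2 : ℝ) ^ μ) ^ d * ((1 + ν) * W) := by
      rw [Finset.sum_const, nsmul_eq_mul, Finset.card_univ]
      congr 1
      rw [Fintype.card_fun, ZMod.card, Fintype.card_fin]
      push_cast
      rfl

end torus

/-- LOF -/
theorem lof : LofStmt := by
  intro d hd
  refine ⟨8 ^ d * (144 * CS d + 17), ?_, ?_⟩
  · have h1 : (1 : ℝ) ≤ 8 ^ d := one_le_pow₀ (by norm_num)
    have h2 : 0 ≤ CS d := NAS.CS_nonneg d
    nlinarith only [h1, h2]
  intro μ j c A w W W' b ε ν hjμ h0 hc hcA hW' hw hb hε hε1 hν hrow hLB hA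
  have hCS : 0 ≤ CS d := NAS.CS_nonneg d
  have hne : A.Nonempty := by
    rw [← Finset.card_pos]
    have h2 : (0 : ℝ) < ((2 : ℝ) ^ μ) ^ d := by positivity
    have h3 : (0 : ℝ) < A.card := by linarith only [hA, h2]
    exact_mod_cast h3
  obtain ⟨x₀, hx₀⟩ := hne
  have hW : 0 < W := lt_of_lt_of_le (lt_of_lt_of_le hW' (hw x₀ hx₀).1) (hw x₀ hx₀).2
  have hWW : 1 ≤ W / W' := by
    rw [one_le_div hW']
    exact (hw x₀ hx₀).1.trans (hw x₀ hx₀).2
  have hM : 0 < ((2 : ℝ) ^ μ) ^ d := by positivity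
  set X : ℝ := W * 4 ^ j / b with hX
  set Y : ℝ := W / W' * ((2 : ℝ) ^ j / 2 ^ μ) ^ d with hY
  have hX0 : 0 ≤ X := by positivity
  have hY0 : 0 ≤ Y := by positivity
  have h8 : (1 : ℝ) ≤ 8 ^ d := one_le_pow₀ (by norm_num)
  by_cases hj : j + 4 ≤ μ
  · -- boxes
    have hn : 2 * 2 ^ j ≤ 2 ^ μ := by
      calc 2 * 2 ^ j = 2 ^ (j + 1) := by rw [pow_succ]; ring
        _ ≤ 2 ^ μ := Nat.pow_le_pow_right (by norm_num) (by omega)
    have h1 := pairs_box (d := d) (M := 2 ^ μ) (n := 2 ^ j) hn c A h0 hc hcA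
    have h2 : ∀ a : Tor d (2 ^ μ), ∑ x ∈ A.filter (fun x => Box a (2 * 2 ^ j) x),
        ∑ y ∈ A.filter (fun x => Box a (2 * 2 ^ j) x), c x y ≤
        ((2 : ℝ) ^ (j + 1)) ^ d * W * ((ν + ε) + 36 * (CS d * W * ((2 : ℝ) ^ (j + 1)) ^ 2 / b) +
        16 * (W / W' * ((2 : ℝ) ^ (j + 1) / 2 ^ μ) ^ d)) := by
      intro a
      have e : 2 * 2 ^ j = 2 ^ (j + 1) := by rw [pow_succ]; ring
      rw [e]
      exact lof_box hd (by omega) a hc hW' hw hb hε hε1 hν hrow hLB hA
    have h3 := h1.trans (Finset.sum_le_sum fun a _ => h2 a)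
    rw [Finset.sum_const, nsmul_eq_mul, Finset.card_univ, Fintype.card_fun, ZMod.card,
      Fintype.card_fin] at h3
    push_cast at h3
    have e1 : ((2 : ℝ) ^ (j + 1)) ^ d = ((2 : ℝ) ^ j) ^ d * 2 ^ d := by
      rw [pow_succ, mul_pow]
    have e2 : CS d * W * ((2 : ℝ) ^ (j + 1)) ^ 2 / b = 4 * CS d * X := by
      have : (4 : ℝ) ^ j = ((2 : ℝ) ^ j) ^ 2 := by
        rw [← pow_mul, mul_comm, pow_mul]
        norm_num
      rw [hX, this, pow_succ]
      ring
    have e3 : W / W' * ((2 : ℝ) ^ (j + 1) / 2 ^ μ) ^ d = 2 ^ d * Y := by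
      rw [hY, pow_succ]
      have : (2 : ℝ) ^ j * 2 / 2 ^ μ = 2 * (2 ^ j / 2 ^ μ) := by ring
      rw [this, mul_pow]
      ring
    rw [e1, e2, e3] at h3
    have hp : 0 < ((2 : ℝ) ^ j) ^ d := by positivity
    have h4 : ((2 : ℝ) ^ j) ^ d * ∑ x, ∑ y, (if ANP.H61.sd x y < 2 ^ j then c x y else 0) ≤
        ((2 : ℝ) ^ j) ^ d * (((2 : ℝ) ^ μ) ^ d * (2 ^ d * W *
          ((ν + ε) + 36 * (4 * CS d * X) + 16 * (2 ^ d * Y)))) := by
      refine h3.trans (le_of_eq ?_)
      ring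
    have h5 := le_of_mul_le_mul_left h4 hp
    refine h5.trans ?_
    have e4 : (2 : ℝ) ^ d ≤ 8 ^ d := pow_le_pow_left₀ (by norm_num) (by norm_num) d
    have e5 : (2 : ℝ) ^ d * 2 ^ d ≤ 8 ^ d := by
      rw [← mul_pow]
      exact pow_le_pow_left₀ (by norm_num) (by norm_num) d
    have t1 : (2 : ℝ) ^ d * ((ν + ε) + 36 * (4 * CS d * X) + 16 * (2 ^ d * Y)) ≤
        8 ^ d * (144 * CS d + 17) * (ε + ν + X + Y) := by
      have a1 : (2 : ℝ) ^ d * (ν + ε) ≤ 8 ^ d * (ν + ε) :=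
        mul_le_mul_of_nonneg_right e4 (by linarith only [hε, hν])
      have a2 : (2 : ℝ) ^ d * (CS d * X) ≤ 8 ^ d * (CS d * X) :=
        mul_le_mul_of_nonneg_right e4 (by positivity)
      have a3 : (2 : ℝ) ^ d * 2 ^ d * Y ≤ 8 ^ d * Y := mul_le_mul_of_nonneg_right e5 hY0
      have a4 : 0 ≤ (8 : ℝ) ^ d * (CS d * (ε + ν + Y)) := by positivity
      have a5 : 0 ≤ (8 : ℝ) ^ d * X := by positivity
      have a6 : 0 ≤ (8 : ℝ) ^ d * Y := by positivity
      have a7 : 0 ≤ (8 : ℝ) ^ d * (ε + ν) := by positivity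
      nlinarith only [a1, a2, a3, a4, a5, a6, a7]
    have t2 : 0 ≤ ((2 : ℝ) ^ μ) ^ d * W := by positivity
    have t3 := mul_le_mul_of_nonneg_left t1 t2
    calc ((2 : ℝ) ^ μ) ^ d * (2 ^ d * W * ((ν + ε) + 36 * (4 * CS d * X) + 16 * (2 ^ d * Y))) =
        ((2 : ℝ) ^ μ) ^ d * W * (2 ^ d * ((ν + ε) + 36 * (4 * CS d * X) + 16 * (2 ^ d * Y))) := by
          ring
      _ ≤ ((2 : ℝ) ^ μ) ^ d * W * (8 ^ d * (144 * CS d + 17) * (ε + ν + X + Y)) := t3
      _ = _ := by ring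
  · -- large distances
    have h1 := lof_triv (d := d) (μ := μ) hW.le hν h0 hcA (fun x hx => (hw x hx).2) hrow (2 ^ j)
    refine h1.trans ?_
    have e1 : (1 : ℝ) / 8 ≤ 2 ^ j / 2 ^ μ := by
      rw [div_le_div_iff₀ (by norm_num) (by positivity)]
      have : (2 : ℝ) ^ μ ≤ 2 ^ (j + 3) := pow_le_pow_right₀ (by norm_num) (by omega)
      rw [pow_add] at this
      linarith only [this]
    have e2 : 1 ≤ 8 ^ d * Y := by
      have h3 : ((1 : ℝ) / 8) ^ d ≤ ((2 : ℝ) ^ j / 2 ^ μ) ^ d :=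
        pow_le_pow_left₀ (by norm_num) e1 d
      have h4 : ((1 : ℝ) / 8) ^ d ≤ Y := by
        calc ((1 : ℝ) / 8) ^ d ≤ 1 * ((2 : ℝ) ^ j / 2 ^ μ) ^ d := by rw [one_mul]; exact h3
          _ ≤ Y := mul_le_mul_of_nonneg_right hWW (by positivity)
      have h5 := mul_le_mul_of_nonneg_left h4 (by positivity : (0 : ℝ) ≤ 8 ^ d)
      rw [one_div, inv_pow, mul_inv_cancel₀ (by positivity)] at h5
      exact h5
    have t1 : 1 + ν ≤ 8 ^ d * (144 * CS d + 17) * (ε + ν + X + Y) := by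
      have a1 : ν ≤ 8 ^ d * ν := by nlinarith only [hν, h8]
      have a4 : 0 ≤ (8 : ℝ) ^ d * (CS d * (ε + ν + X + Y)) := by positivity
      have a5 : 0 ≤ (8 : ℝ) ^ d * (ε + X) := by positivity
      nlinarith only [hν, e2, a1, a4, a5]
    have t3 := mul_le_mul_of_nonneg_left t1 (by positivity : 0 ≤ ((2 : ℝ) ^ μ) ^ d * W)
    calc ((2 : ℝ) ^ μ) ^ d * ((1 + ν) * W) = ((2 : ℝ) ^ μ) ^ d * W * (1 + ν) := by ring
      _ ≤ ((2 : ℝ) ^ μ) ^ d * W * (8 ^ d * (144 * CS d + 17) * (ε + ν + X + Y)) := t3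
      _ = _ := by ring

end Pool.Agent.QDA.H76
end
end -- Pool.Agent.Helper76_QDA.Lof

section -- Pool.Agent.Helper79_QDA.TRI2

/-!
# QDA, TRI2: the missing absorption at the dead sites, Hilbert-Schmidt norm

`H` real symmetric on a finite set `X`, `D ⊆ X`, `0 < e₀ ≤ η`, `G = (H - i η)⁻¹`,
`G' = (H - i η 1_(X - D) - i e₀ 1_D)⁻¹`:
`(η - e₀) ∑_(x, y ∉ D) |G'_xy - G_xy|² ≤ ∑_(b ∈ D) Im G_bb`.

Proof (helper96): `Z = 1 + i lam G_DD = W + i R`, `Y = Z⁻¹ = 1 - i lam G'_DD`, `k_x = (G_xb)_(b ∈ D)`,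
`y_x = Y k_x = (G'_bx)_(b ∈ D)`; `lam² ∑_(x ∉ D) |k_x y|² ≤ y* W y - |Z y|²` for every `y` (Ward), used for
`y = y_x` and for `y = Y e_j`, `e_j` the eigenvectors of `W`; `y* W y = Re y* Z y`.
-/

set_option autoImplicit false

open scoped BigOperators ComplexConjugate

noncomputable section

namespace Pool.Agent.QDA.H79

open Pool.Agent.ANR

variable {X : Type} [Fintype X] [DecidableEq X]

/-- quadratic forms of real symmetric matrices are real -/
theorem quad_im {X : Type} [Fintype X] (A : X → X → ℝ) (hA : ∀ a b, A a b = A b a) (y : X → ℂ) :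
    (∑ a, ∑ b, conj (y a) * ((A a b : ℂ) * y b)).im = 0 := by
  have h : conj (∑ a, ∑ b, conj (y a) * ((A a b : ℂ) * y b)) =
      ∑ a, ∑ b, conj (y a) * ((A a b : ℂ) * y b) := by
    rw [map_sum]
    simp only [map_sum, map_mul, Complex.conj_conj, Complex.conj_ofReal]
    rw [Finset.sum_comm]
    refine Finset.sum_congr rfl fun a _ => Finset.sum_congr rfl fun b _ => ?_
    rw [hA b a]
    ring
  exact Complex.conj_eq_iff_im.1 h

/-- the algebraic core -/
theorem core2 (D : Finset X) (G N : Matrix X X ℂ) (η lam : ℝ) (hη : 0 < η) (hl : 0 < lam)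
    (hlη : lam < η) (hG : ∀ a b, G a b = G b a) (hN : ∀ a b, N a b = N b a)
    (hW : ∀ b c, ∑ x, conj (G x b) * G x c = (((G b c).im / η : ℝ) : ℂ))
    (hR : ∀ a x, G a x = N a x + Complex.I * (lam : ℂ) * ∑ b ∈ D, G a b * N b x) :
    lam * ∑ x ∈ Dᶜ, ∑ y ∈ Dᶜ, ‖N x y - G x y‖ ^ 2 ≤ ∑ b ∈ D, (G b b).im := by
  classical
  set B : Matrix X X ℝ := fun b c => if b ∈ D ∧ c ∈ D then (G b c).im else 0 with hBdef
  have hBs : ∀ b c, B b c = B c b := by
    intro b c
    simp only [hBdef]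
    rw [hG b c]
    by_cases h1 : b ∈ D <;> by_cases h2 : c ∈ D <;> simp [h1, h2]
  have hBH : B.IsHermitian := by
    ext b c
    rw [Matrix.conjTranspose_apply, star_trivial, hBs]
  set U : Matrix X X ℝ := (hBH.eigenvectorUnitary : Matrix X X ℝ) with hU
  set β : X → ℝ := hBH.eigenvalues with hβ
  have u1 : ∀ b c, ∑ j, U b j * U c j = if b = c then 1 else 0 := by
    intro b c
    have h := Matrix.mem_unitaryGroup_iff.1 hBH.eigenvectorUnitary.2
    have h2 := congrFun (congrFun h b) c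
    rw [Matrix.mul_apply, Matrix.one_apply] at h2
    simpa [hU, Matrix.star_apply] using h2
  have u2 : ∀ j l, ∑ b, U b j * U b l = if j = l then 1 else 0 := by
    intro j l
    have h := Matrix.mem_unitaryGroup_iff'.1 hBH.eigenvectorUnitary.2
    have h2 := congrFun (congrFun h j) l
    rw [Matrix.mul_apply, Matrix.one_apply] at h2
    simpa [hU, Matrix.star_apply] using h2
  have u3 : ∀ b j, ∑ c, B b c * U c j = β j * U b j := by
    intro b j
    have h := congrFun (hBH.mulVec_eigenvectorBasis j) b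
    simpa [Matrix.mulVec, dotProduct, hU, hβ, Matrix.IsHermitian.eigenvectorUnitary_apply] using h
  -- coordinates
  set hat : (X → ℂ) → X → ℂ := fun f j => ∑ b, (U b j : ℂ) * f b with hhat
  have pars : ∀ f g : X → ℂ, ∑ j, hat f j * hat g j = ∑ b, f b * g b := by
    intro f g
    calc ∑ j, hat f j * hat g j
        = ∑ j, ∑ b, ∑ c, (U b j : ℂ) * f b * ((U c j : ℂ) * g c) := by
          refine Finset.sum_congr rfl fun j _ => ?_
          simp only [hhat]
          rw [Finset.sum_mul_sum]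
      _ = ∑ b, ∑ c, f b * g c * (((∑ j, U b j * U c j : ℝ)) : ℂ) := by
          rw [Finset.sum_comm]
          refine Finset.sum_congr rfl fun b _ => ?_
          rw [Finset.sum_comm]
          refine Finset.sum_congr rfl fun c _ => ?_
          rw [Complex.ofReal_sum, Finset.mul_sum]
          refine Finset.sum_congr rfl fun j _ => ?_
          push_cast
          ring
      _ = ∑ b, f b * g b := by
          refine Finset.sum_congr rfl fun b _ => ?_
          rw [Finset.sum_eq_single b]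
          · rw [u1, if_pos rfl]; simp
          · intro c _ hc
            rw [u1, if_neg (Ne.symm hc)]; simp
          · intro h; exact absurd (Finset.mem_univ b) h
  have hconj : ∀ (f : X → ℂ) (j : X), conj (hat f j) = hat (fun b => conj (f b)) j := by
    intro f j
    simp only [hhat]
    rw [map_sum]
    simp [Complex.conj_ofReal]
  set A : X → X → ℝ := fun b c => if b ∈ D ∧ c ∈ D then (G b c).re else 0 with hA
  have hAs : ∀ b c, A b c = A c b := by
    intro b c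
    simp only [hA]
    rw [hG b c]
    by_cases h1 : b ∈ D <;> by_cases h2 : c ∈ D <;> simp [h1, h2]
  have bsp : ∀ b c, B b c = ∑ j, β j * U b j * U c j := by
    intro b c
    have h : ∑ j, β j * U b j * U c j = ∑ j, (∑ e, B b e * U e j) * U c j := by
      refine Finset.sum_congr rfl fun j _ => ?_
      rw [u3]
    rw [h]
    have h2 : ∑ j, (∑ e, B b e * U e j) * U c j = ∑ e, B b e * ∑ j, U e j * U c j := by
      simp only [Finset.sum_mul, Finset.mul_sum]
      rw [Finset.sum_comm]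
      refine Finset.sum_congr rfl fun e _ => Finset.sum_congr rfl fun j _ => ?_
      ring
    rw [h2, Finset.sum_eq_single c]
    · rw [u1, if_pos rfl, mul_one]
    · intro e _ he
      rw [u1, if_neg he, mul_zero]
    · intro h; exact absurd (Finset.mem_univ c) h
  have nsq : ∀ z : ℂ, conj z * z = ((‖z‖ ^ 2 : ℝ) : ℂ) := by
    intro z
    rw [Complex.conj_mul']
    push_cast
    ring
  -- the quadratic form of `B`
  set QB : (X → ℂ) → ℝ := fun y => ∑ j, β j * ‖hat y j‖ ^ 2 with hQBdef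
  have hQB : ∀ y : X → ℂ, ∑ b, ∑ c, conj (y b) * ((B b c : ℂ) * y c) = ((QB y : ℝ) : ℂ) := by
    intro y
    have e7 : ∀ j, ((β j * ‖hat y j‖ ^ 2 : ℝ) : ℂ) =
        ∑ b, ∑ c, conj (y b) * (((β j * U b j * U c j : ℝ) : ℂ) * y c) := by
      intro j
      rw [Complex.ofReal_mul, ← nsq, hconj]
      simp only [hhat]
      rw [Finset.sum_mul_sum, Finset.mul_sum]
      refine Finset.sum_congr rfl fun b _ => ?_
      rw [Finset.mul_sum]
      refine Finset.sum_congr rfl fun c _ => ?_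
      push_cast
      ring
    calc ∑ b, ∑ c, conj (y b) * ((B b c : ℂ) * y c)
        = ∑ b, ∑ c, ∑ j, conj (y b) * (((β j * U b j * U c j : ℝ) : ℂ) * y c) := by
          refine Finset.sum_congr rfl fun b _ => Finset.sum_congr rfl fun c _ => ?_
          rw [bsp b c, Complex.ofReal_sum, Finset.sum_mul, Finset.mul_sum]
      _ = ∑ b, ∑ j, ∑ c, conj (y b) * (((β j * U b j * U c j : ℝ) : ℂ) * y c) :=
          Finset.sum_congr rfl fun b _ => Finset.sum_comm
      _ = ∑ j, ∑ b, ∑ c, conj (y b) * (((β j * U b j * U c j : ℝ) : ℂ) * y c) :=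
          Finset.sum_comm
      _ = _ := by
          simp only [hQBdef]
          rw [Complex.ofReal_sum]
          exact Finset.sum_congr rfl fun j _ => (e7 j).symm
  have hNn : ∀ y : X → ℂ, ∑ b, ‖y b‖ ^ 2 = ∑ j, ‖hat y j‖ ^ 2 := by
    intro y
    have h : ((∑ b, ‖y b‖ ^ 2 : ℝ) : ℂ) = ((∑ j, ‖hat y j‖ ^ 2 : ℝ) : ℂ) := by
      rw [Complex.ofReal_sum, Complex.ofReal_sum]
      simp only [← nsq, hconj]
      exact (pars _ _).symm
    exact_mod_cast h
  -- the block of `G` and the operator `Z`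
  set g : (X → ℂ) → X → ℂ := fun y b => ∑ c, ((A b c : ℂ) + Complex.I * (B b c : ℂ)) * y c
    with hgdef
  set Z : (X → ℂ) → X → ℂ := fun y b => y b + Complex.I * (lam : ℂ) * g y b with hZdef
  have hgim : ∀ y : X → ℂ, (∑ b, conj (y b) * g y b).im = QB y := by
    intro y
    have e1 : ∑ b, conj (y b) * g y b = ∑ b, ∑ c, conj (y b) * ((A b c : ℂ) * y c) +
        Complex.I * ∑ b, ∑ c, conj (y b) * ((B b c : ℂ) * y c) := by
      rw [Finset.mul_sum, ← Finset.sum_add_distrib]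
      refine Finset.sum_congr rfl fun b _ => ?_
      simp only [hgdef]
      rw [Finset.mul_sum, Finset.mul_sum, ← Finset.sum_add_distrib]
      refine Finset.sum_congr rfl fun c _ => ?_
      ring
    rw [e1, hQB, Complex.add_im, quad_im A hAs y, zero_add]
    simp
  have hZn : ∀ y : X → ℂ, ∑ b, ‖Z y b‖ ^ 2 =
      ∑ b, ‖y b‖ ^ 2 + lam ^ 2 * ∑ b, ‖g y b‖ ^ 2 - 2 * lam * QB y := by
    intro y
    have e1 : ∀ b, ‖Z y b‖ ^ 2 =
        ‖y b‖ ^ 2 + lam ^ 2 * ‖g y b‖ ^ 2 - 2 * lam * (conj (y b) * g y b).im := by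
      intro b
      simp only [hZdef]
      rw [← Complex.normSq_eq_norm_sq, ← Complex.normSq_eq_norm_sq, ← Complex.normSq_eq_norm_sq,
        Complex.normSq_apply, Complex.normSq_apply, Complex.normSq_apply]
      simp only [Complex.add_re, Complex.add_im, Complex.mul_re, Complex.mul_im, Complex.I_re,
        Complex.I_im, Complex.ofReal_re, Complex.ofReal_im, Complex.conj_re, Complex.conj_im]
      ring
    rw [Finset.sum_congr rfl fun b _ => e1 b, Finset.sum_sub_distrib, Finset.sum_add_distrib,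
      ← Finset.mul_sum, ← Finset.mul_sum, ← Complex.im_sum, hgim]
  set q : (X → ℂ) → ℝ := fun y => ∑ j, (1 - lam * β j) * ‖hat y j‖ ^ 2 with hqdef
  have hq1 : ∀ y : X → ℂ, q y = ∑ b, ‖y b‖ ^ 2 - lam * QB y := by
    intro y
    simp only [hqdef, hQBdef]
    rw [hNn y, Finset.mul_sum, ← Finset.sum_sub_distrib]
    refine Finset.sum_congr rfl fun j _ => ?_
    ring
  have hq2 : ∀ y : X → ℂ, q y = (∑ b, conj (y b) * Z y b).re := by
    intro y
    have e1 : ∀ b, (conj (y b) * Z y b).re = ‖y b‖ ^ 2 - lam * (conj (y b) * g y b).im := by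
      intro b
      simp only [hZdef]
      rw [← Complex.normSq_eq_norm_sq, Complex.normSq_apply]
      simp only [Complex.add_re, Complex.add_im, Complex.mul_re, Complex.mul_im, Complex.I_re,
        Complex.I_im, Complex.ofReal_re, Complex.ofReal_im, Complex.conj_re, Complex.conj_im]
      ring
    rw [Complex.re_sum, Finset.sum_congr rfl fun b _ => e1 b, Finset.sum_sub_distrib,
      ← Finset.mul_sum, ← Complex.im_sum, hgim, hq1]
  -- Ward
  set k : X → X → ℂ := fun x b => if b ∈ D then G x b else 0 with hk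
  have hkk : ∀ b c, ∑ x, conj (k x b) * k x c = ((B b c / η : ℝ) : ℂ) := by
    intro b c
    by_cases hb : b ∈ D
    · by_cases hc : c ∈ D
      · simp only [hk, hBdef, hb, hc, if_true, and_self]
        rw [← hW b c]
      · simp [hk, hBdef, hc]
    · simp [hk, hBdef, hb]
  have hward : ∀ y : X → ℂ, ∑ x, ‖∑ b, k x b * y b‖ ^ 2 = QB y / η := by
    intro y
    have h : ((∑ x, ‖∑ b, k x b * y b‖ ^ 2 : ℝ) : ℂ) = ((QB y / η : ℝ) : ℂ) := by
      calc ((∑ x, ‖∑ b, k x b * y b‖ ^ 2 : ℝ) : ℂ)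
          = ∑ x, ∑ b, ∑ c, conj (y b) * y c * (conj (k x b) * k x c) := by
            rw [Complex.ofReal_sum]
            refine Finset.sum_congr rfl fun x _ => ?_
            rw [← nsq, map_sum, Finset.sum_mul_sum]
            refine Finset.sum_congr rfl fun b _ => Finset.sum_congr rfl fun c _ => ?_
            rw [map_mul]
            ring
        _ = ∑ b, ∑ c, conj (y b) * y c * ∑ x, conj (k x b) * k x c := by
            rw [Finset.sum_comm]
            refine Finset.sum_congr rfl fun b _ => ?_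
            rw [Finset.sum_comm]
            refine Finset.sum_congr rfl fun c _ => ?_
            rw [Finset.mul_sum]
        _ = (∑ b, ∑ c, conj (y b) * ((B b c : ℂ) * y c)) / (η : ℂ) := by
            rw [Finset.sum_div]
            refine Finset.sum_congr rfl fun b _ => ?_
            rw [Finset.sum_div]
            refine Finset.sum_congr rfl fun c _ => ?_
            rw [hkk]
            push_cast
            ring
        _ = ((QB y / η : ℝ) : ℂ) := by
            rw [hQB]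
            push_cast
            rfl
    exact_mod_cast h
  have hQB0 : ∀ y : X → ℂ, 0 ≤ QB y := by
    intro y
    have h := hward y
    have h1 : 0 ≤ QB y / η := by rw [← h]; positivity
    have h2 : QB y = QB y / η * η := by field_simp
    rw [h2]
    positivity
  have hgk : ∀ (y : X → ℂ) (x : X), x ∈ D → ∑ b, k x b * y b = g y x := by
    intro y x hx
    simp only [hgdef]
    refine Finset.sum_congr rfl fun b _ => ?_
    simp only [hk, hA, hBdef, hx, true_and]
    by_cases hb : b ∈ D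
    · simp only [hb, if_true]
      rw [mul_comm Complex.I, Complex.re_add_im]
    · simp [hb]
  have hg0 : ∀ (y : X → ℂ) (x : X), x ∉ D → g y x = 0 := by
    intro y x hx
    simp only [hgdef]
    refine Finset.sum_eq_zero fun b _ => ?_
    simp [hA, hBdef, hx]
  have hsplit : ∀ y : X → ℂ, ∑ x ∈ Dᶜ, ‖∑ b, k x b * y b‖ ^ 2 =
      QB y / η - ∑ x, ‖g y x‖ ^ 2 := by
    intro y
    have e1 := Finset.sum_add_sum_compl D fun x => ‖∑ b, k x b * y b‖ ^ 2
    have e2 : ∑ x ∈ D, ‖∑ b, k x b * y b‖ ^ 2 = ∑ x, ‖g y x‖ ^ 2 := by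
      rw [Finset.sum_congr rfl fun x hx => by rw [hgk y x hx]]
      refine Finset.sum_subset (Finset.subset_univ D) fun x _ hx => ?_
      rw [hg0 y x hx]
      simp
    rw [hward y, e2] at e1
    linarith only [e1]
  -- the main inequality
  have hL1 : ∀ y : X → ℂ, lam ^ 2 * ∑ x ∈ Dᶜ, ‖∑ b, k x b * y b‖ ^ 2 ≤
      q y - ∑ b, ‖Z y b‖ ^ 2 := by
    intro y
    rw [hsplit y, hq1 y, hZn y]
    have e1 : lam ^ 2 * (QB y / η) ≤ lam * QB y := by
      have h0 := hQB0 y
      have h1 : lam ^ 2 * (QB y / η) = lam * QB y * (lam / η) := by ring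
      rw [h1]
      have h2 : lam / η ≤ 1 := ((div_lt_one hη).2 hlη).le
      calc lam * QB y * (lam / η) ≤ lam * QB y * 1 := by gcongr
        _ = lam * QB y := mul_one _
    nlinarith only [e1]
  -- the eigenvectors
  have hUn : ∀ j, ∑ b, ‖((U b j : ℝ) : ℂ)‖ ^ 2 = 1 := by
    intro j
    have e1 : ∀ b, ‖((U b j : ℝ) : ℂ)‖ ^ 2 = U b j * U b j := by
      intro b
      rw [Complex.norm_real, Real.norm_eq_abs, sq_abs]
      ring
    rw [Finset.sum_congr rfl fun b _ => e1 b, u2, if_pos rfl]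
  have hb0 : ∀ j, 0 ≤ β j ∧ β j ^ 2 ≤ β j / η := by
    intro j
    have e1 : ∀ l, hat (fun b => ((U b j : ℝ) : ℂ)) l = if l = j then 1 else 0 := by
      intro l
      simp only [hhat]
      have : ∑ b, (U b l : ℂ) * ((U b j : ℝ) : ℂ) = ((∑ b, U b l * U b j : ℝ) : ℂ) := by
        push_cast
        rfl
      rw [this, u2]
      split_ifs <;> simp
    have e2 : QB (fun b => ((U b j : ℝ) : ℂ)) = β j := by
      simp only [hQBdef, e1]
      rw [Finset.sum_eq_single j]
      · simp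
      · intro l _ hl
        simp [hl]
      · intro h; exact absurd (Finset.mem_univ j) h
    have e3 : ∀ x, (g (fun b => ((U b j : ℝ) : ℂ)) x).im = β j * U x j := by
      intro x
      rw [← u3 x j]
      simp only [hgdef]
      rw [Complex.im_sum]
      refine Finset.sum_congr rfl fun c _ => ?_
      simp
    have e4 : β j ^ 2 ≤ ∑ x, ‖g (fun b => ((U b j : ℝ) : ℂ)) x‖ ^ 2 := by
      calc β j ^ 2 = ∑ x, (β j * U x j) ^ 2 := by
            have e5 : ∀ c, (β j * U c j) ^ 2 = β j ^ 2 * (U c j * U c j) := fun c => by ring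
            rw [Finset.sum_congr rfl fun c _ => e5 c, ← Finset.mul_sum, u2, if_pos rfl, mul_one]
        _ ≤ _ := by
            refine Finset.sum_le_sum fun x _ => ?_
            rw [← e3 x, ← Complex.normSq_eq_norm_sq, Complex.normSq_apply]
            nlinarith only [mul_self_nonneg (g (fun b => ((U b j : ℝ) : ℂ)) x).re]
    have e6 := hsplit (fun b => ((U b j : ℝ) : ℂ))
    rw [e2] at e6
    have e7 : 0 ≤ ∑ x ∈ Dᶜ, ‖∑ b, k x b * ((U b j : ℝ) : ℂ)‖ ^ 2 := by positivity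
    refine ⟨?_, by linarith only [e4, e6, e7]⟩
    rw [← e2]
    exact hQB0 _
  have hw : ∀ j, 0 < 1 - lam * β j := by
    intro j
    obtain ⟨e0, e1⟩ := hb0 j
    have e2 : η * β j ≤ 1 := by
      rcases e0.eq_or_lt with h | h
      · rw [← h]; simp
      · have e3 : 0 ≤ (β j / η - β j ^ 2) * (η / β j) := mul_nonneg (by linarith) (by positivity)
        have e4 : (β j / η - β j ^ 2) * (η / β j) = 1 - η * β j := by
          field_simp
        rw [e4] at e3
        linarith only [e3]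
    have e5 : lam * β j ≤ lam / η := by
      rw [le_div_iff₀ hη]
      calc lam * β j * η = lam * (η * β j) := by ring
        _ ≤ lam * 1 := by gcongr
        _ = lam := mul_one _
    have e6 : lam / η < 1 := (div_lt_one hη).2 hlη
    linarith only [e5, e6]
  have hq0 : ∀ y : X → ℂ, 0 ≤ q y := by
    intro y
    simp only [hqdef]
    exact Finset.sum_nonneg fun j _ => mul_nonneg (hw j).le (by positivity)
  -- the inverse of `Z`
  set ND : X → X → ℂ := fun b c => if b ∈ D ∧ c ∈ D then N b c else 0 with hNDdef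
  have hNDs : ∀ b c, ND b c = ND c b := by
    intro b c
    simp only [hNDdef]
    rw [hN b c]
    by_cases h1 : b ∈ D <;> by_cases h2 : c ∈ D <;> simp [h1, h2]
  set Y : (X → ℂ) → X → ℂ := fun z b => z b - Complex.I * (lam : ℂ) * ∑ c, ND b c * z c
    with hYdef
  have hR2 : ∀ b c, (((A b c : ℝ) : ℂ) + Complex.I * ((B b c : ℝ) : ℂ)) = ND b c +
      Complex.I * (lam : ℂ) * ∑ e, (((A b e : ℝ) : ℂ) + Complex.I * ((B b e : ℝ) : ℂ)) * ND e c := by
    intro b c
    by_cases hb : b ∈ D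
    · by_cases hc : c ∈ D
      · have e1 : ∑ e, (((A b e : ℝ) : ℂ) + Complex.I * ((B b e : ℝ) : ℂ)) * ND e c =
            ∑ e ∈ D, G b e * N e c := by
          rw [← Finset.sum_subset (Finset.subset_univ D)]
          · refine Finset.sum_congr rfl fun e he => ?_
            simp only [hA, hBdef, hNDdef, hb, hc, he, and_self, if_true]
            rw [mul_comm Complex.I, Complex.re_add_im]
          · intro e _ he
            simp [hA, hBdef, hNDdef, he]
        rw [e1]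
        simp only [hA, hBdef, hNDdef, hb, hc, and_self, if_true]
        rw [mul_comm Complex.I (((G b c).im : ℝ) : ℂ), Complex.re_add_im]
        exact hR b c
      · simp [hA, hBdef, hNDdef, hc]
    · simp [hA, hBdef, hNDdef, hb]
  have hZY : ∀ z : X → ℂ, Z (Y z) = z := by
    intro z
    funext b
    simp only [hZdef, hYdef, hgdef]
    have e1 : ∑ c, (((A b c : ℝ) : ℂ) + Complex.I * ((B b c : ℝ) : ℂ)) *
        (z c - Complex.I * (lam : ℂ) * ∑ e, ND c e * z e) =
        ∑ c, (((A b c : ℝ) : ℂ) + Complex.I * ((B b c : ℝ) : ℂ)) * z c -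
        Complex.I * (lam : ℂ) * ∑ e, (∑ c, (((A b c : ℝ) : ℂ) + Complex.I * ((B b c : ℝ) : ℂ)) *
          ND c e) * z e := by
      have e2 : ∑ e, (∑ c, (((A b c : ℝ) : ℂ) + Complex.I * ((B b c : ℝ) : ℂ)) * ND c e) * z e =
          ∑ c, (((A b c : ℝ) : ℂ) + Complex.I * ((B b c : ℝ) : ℂ)) * ∑ e, ND c e * z e := by
        simp only [Finset.sum_mul, Finset.mul_sum]
        rw [Finset.sum_comm]
        refine Finset.sum_congr rfl fun e _ => Finset.sum_congr rfl fun j _ => ?_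
        ring
      rw [e2, Finset.mul_sum, ← Finset.sum_sub_distrib]
      refine Finset.sum_congr rfl fun c _ => ?_
      ring
    rw [e1]
    have e3 : ∑ c, (((A b c : ℝ) : ℂ) + Complex.I * ((B b c : ℝ) : ℂ)) * z c =
        ∑ c, ND b c * z c + Complex.I * (lam : ℂ) *
          ∑ c, (∑ e, (((A b e : ℝ) : ℂ) + Complex.I * ((B b e : ℝ) : ℂ)) * ND e c) * z c := by
      rw [Finset.mul_sum, ← Finset.sum_add_distrib]
      refine Finset.sum_congr rfl fun c _ => ?_
      rw [hR2 b c]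
      have e4 : ∑ e, (((A b e : ℝ) : ℂ) + Complex.I * ((B b e : ℝ) : ℂ)) * ND e c =
        ∑ e, (((A b e : ℝ) : ℂ) + Complex.I * ((B b e : ℝ) : ℂ)) * ND e c := rfl
      ring
    rw [e3]
    ring
  have hYs : ∀ z v : X → ℂ, ∑ b, v b * Y z b = ∑ b, Y v b * z b := by
    intro z v
    have e1 : ∑ b, v b * Y z b = ∑ b, v b * z b -
        Complex.I * (lam : ℂ) * ∑ b, ∑ c, v b * (ND b c * z c) := by
      rw [Finset.mul_sum, ← Finset.sum_sub_distrib]
      refine Finset.sum_congr rfl fun b _ => ?_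
      simp only [hYdef]
      rw [← Finset.mul_sum]
      ring
    have e2 : ∑ b, Y v b * z b = ∑ b, v b * z b -
        Complex.I * (lam : ℂ) * ∑ b, ∑ c, v c * (ND c b * z b) := by
      rw [Finset.mul_sum, ← Finset.sum_sub_distrib]
      refine Finset.sum_congr rfl fun b _ => ?_
      simp only [hYdef]
      have e3 : ∑ c, v c * (ND c b * z b) = (∑ c, ND b c * v c) * z b := by
        rw [Finset.sum_mul]
        refine Finset.sum_congr rfl fun c _ => ?_
        rw [hNDs c b]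
        ring
      rw [e3]
      ring
    rw [e1, e2]
    congr 2
    exact Finset.sum_comm
  -- the vectors `y_x`
  have hYk : ∀ x b, Y (k x) b = if b ∈ D then N b x else 0 := by
    intro x b
    simp only [hYdef]
    by_cases hb : b ∈ D
    · have e1 : ∑ c, ND b c * k x c = ∑ c ∈ D, G x c * N c b := by
        rw [← Finset.sum_subset (Finset.subset_univ D)]
        · refine Finset.sum_congr rfl fun c hc => ?_
          simp only [hNDdef, hk, hb, hc, and_self, if_true]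
          rw [hN b c]
          ring
        · intro c _ hc
          simp [hk, hc]
      rw [e1]
      simp only [hk, hb, if_true]
      rw [hR x b, hN x b]
      ring
    · have e1 : ∑ c, ND b c * k x c = 0 := by
        refine Finset.sum_eq_zero fun c _ => ?_
        simp [hNDdef, hb]
      rw [e1]
      simp [hk, hb]
  have hdiff : ∀ x y, ‖N x y - G x y‖ ^ 2 = lam ^ 2 * ‖∑ b, k x b * Y (k y) b‖ ^ 2 := by
    intro x y
    have e1 : ∑ b, k x b * Y (k y) b = ∑ b ∈ D, G x b * N b y := by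
      rw [← Finset.sum_subset (Finset.subset_univ D)]
      · refine Finset.sum_congr rfl fun b hb => ?_
        rw [hYk]
        simp only [hk, hb, if_true]
      · intro b _ hb
        simp [hk, hb]
    have e2 : N x y - G x y = -(Complex.I * (lam : ℂ) * ∑ b, k x b * Y (k y) b) := by
      rw [e1, hR x y]
      ring
    rw [e2, norm_neg, norm_mul, norm_mul, Complex.norm_I, one_mul, Complex.norm_real,
      Real.norm_of_nonneg hl.le]
    ring
  -- first use
  have h1 : ∀ y, lam ^ 2 * ∑ x ∈ Dᶜ, ‖∑ b, k x b * Y (k y) b‖ ^ 2 ≤ q (Y (k y)) := by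
    intro y
    refine (hL1 _).trans ?_
    have : 0 ≤ ∑ b, ‖Z (Y (k y)) b‖ ^ 2 := by positivity
    linarith only [this]
  -- second use
  have h2 : ∀ j, lam ^ 2 * ∑ x ∈ Dᶜ, ‖hat (Y (k x)) j‖ ^ 2 ≤
      q (Y fun b => ((U b j : ℝ) : ℂ)) - 1 := by
    intro j
    have e1 : ∀ x, hat (Y (k x)) j = ∑ b, k x b * Y (fun b => ((U b j : ℝ) : ℂ)) b := by
      intro x
      simp only [hhat]
      rw [hYs (k x) (fun b => ((U b j : ℝ) : ℂ))]
      exact Finset.sum_congr rfl fun b _ => mul_comm _ _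
    simp only [e1]
    refine (hL1 _).trans (le_of_eq ?_)
    rw [hZY]
    rw [hUn j]
  have h3 : ∀ j, (1 - lam * β j) * q (Y fun b => ((U b j : ℝ) : ℂ)) ≤ 1 := by
    intro j
    set v : X → ℂ := Y fun b => ((U b j : ℝ) : ℂ) with hv
    have e1 : q v ≤ ‖hat v j‖ := by
      rw [hq2 v, hv, hZY, ← hv]
      have e2 : ∑ b, conj (v b) * ((U b j : ℝ) : ℂ) = conj (hat v j) := by
        rw [hconj]
        simp only [hhat]
        exact Finset.sum_congr rfl fun b _ => mul_comm _ _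
      rw [e2]
      refine (Complex.re_le_norm _).trans (le_of_eq ?_)
      rw [Complex.norm_conj]
    have e3 : (1 - lam * β j) * ‖hat v j‖ ^ 2 ≤ q v := by
      simp only [hqdef]
      exact Finset.single_le_sum (f := fun j => (1 - lam * β j) * ‖hat v j‖ ^ 2)
        (fun l _ => mul_nonneg (hw l).le (by positivity)) (Finset.mem_univ j)
    have e4 : (1 - lam * β j) * ‖hat v j‖ ≤ 1 := by
      rcases (norm_nonneg (hat v j)).eq_or_lt with h | h
      · rw [← h]; simp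
      · have e5 : (1 - lam * β j) * ‖hat v j‖ * ‖hat v j‖ ≤ 1 * ‖hat v j‖ := by
          calc (1 - lam * β j) * ‖hat v j‖ * ‖hat v j‖ = (1 - lam * β j) * ‖hat v j‖ ^ 2 := by ring
            _ ≤ 1 * ‖hat v j‖ := by rw [one_mul]; exact e3.trans e1
        exact le_of_mul_le_mul_right e5 h
    exact (mul_le_mul_of_nonneg_left e1 (hw j).le).trans e4
  -- the sum
  have h4 : lam ^ 2 * ∑ y ∈ Dᶜ, q (Y (k y)) ≤ lam * ∑ b ∈ D, (G b b).im := by
    calc lam ^ 2 * ∑ y ∈ Dᶜ, q (Y (k y))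
        = ∑ j, (1 - lam * β j) * (lam ^ 2 * ∑ y ∈ Dᶜ, ‖hat (Y (k y)) j‖ ^ 2) := by
          simp only [hqdef]
          rw [Finset.sum_comm, Finset.mul_sum]
          refine Finset.sum_congr rfl fun j _ => ?_
          rw [← Finset.mul_sum]
          ring
      _ ≤ ∑ j, (1 - lam * β j) * (q (Y fun b => ((U b j : ℝ) : ℂ)) - 1) := by
          refine Finset.sum_le_sum fun j _ => ?_
          exact mul_le_mul_of_nonneg_left (h2 j) (hw j).le
      _ ≤ ∑ j, lam * β j := by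
          refine Finset.sum_le_sum fun j _ => ?_
          have := h3 j
          linarith
      _ = lam * ∑ b ∈ D, (G b b).im := by
          rw [← Finset.mul_sum]
          congr 1
          have e1 : ∑ b, B b b = ∑ j, β j := by
            simp only [bsp]
            rw [Finset.sum_comm]
            refine Finset.sum_congr rfl fun j _ => ?_
            have e2 : ∀ b, β j * U b j * U b j = β j * (U b j * U b j) := fun b => by ring
            rw [Finset.sum_congr rfl fun b _ => e2 b, ← Finset.mul_sum, u2, if_pos rfl, mul_one]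
          rw [← e1]
          rw [← Finset.sum_subset (Finset.subset_univ D) (f := fun b => B b b)]
          · refine Finset.sum_congr rfl fun b hb => ?_
            simp [hBdef, hb]
          · intro b _ hb
            simp [hBdef, hb]
  have h5 : lam * (lam * ∑ x ∈ Dᶜ, ∑ y ∈ Dᶜ, ‖N x y - G x y‖ ^ 2) ≤
      lam * ∑ b ∈ D, (G b b).im := by
    refine le_trans ?_ h4
    calc lam * (lam * ∑ x ∈ Dᶜ, ∑ y ∈ Dᶜ, ‖N x y - G x y‖ ^ 2)
        = lam ^ 2 * ∑ y ∈ Dᶜ, lam ^ 2 * ∑ x ∈ Dᶜ, ‖∑ b, k x b * Y (k y) b‖ ^ 2 := by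
          rw [Finset.sum_comm]
          simp only [hdiff, Finset.mul_sum]
          refine Finset.sum_congr rfl fun y _ => Finset.sum_congr rfl fun x _ => ?_
          ring
      _ ≤ lam ^ 2 * ∑ y ∈ Dᶜ, q (Y (k y)) := by
          gcongr with y _
          exact h1 y
  exact le_of_mul_le_mul_left h5 hl

/-- the resolvent identity and the Ward identity for `Gr` -/
theorem gr_facts (H : Matrix X X ℝ) (D : Finset X) (η e₀ : ℝ)
    (hH : ∀ x y, H x y = H y x) (he : 0 < e₀) (hη0 : 0 < η) :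
    (∀ a b, Gr H (fun _ => η) a b = Gr H (fun _ => η) b a) ∧
    (∀ a b, Gr H (fun z => if z ∈ D then e₀ else η) a b =
      Gr H (fun z => if z ∈ D then e₀ else η) b a) ∧
    (∀ b c, ∑ x, conj (Gr H (fun _ => η) x b) * Gr H (fun _ => η) x c =
      (((Gr H (fun _ => η) b c).im / η : ℝ) : ℂ)) ∧
    ∀ a x, Gr H (fun _ => η) a x = Gr H (fun z => if z ∈ D then e₀ else η) a x +
      Complex.I * ((η - e₀ : ℝ) : ℂ) *
        ∑ b ∈ D, Gr H (fun _ => η) a b * Gr H (fun z => if z ∈ D then e₀ else η) b x := by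
  set κ : X → ℝ := fun _ => η with hκ
  set κ' : X → ℝ := fun z => if z ∈ D then e₀ else η with hκ'
  have n1 : Net H κ := ⟨hH, fun _ => hη0⟩
  have n2 : Net H κ' := ⟨hH, fun z => by simp only [hκ']; split_ifs <;> assumption⟩
  obtain ⟨g1, g2, g3, -, -⟩ := H72.geq (H77.dir H63.grn) H63.grn X H κ n1
  obtain ⟨f1, f2, f3, -, -⟩ := H72.geq (H77.dir H63.grn) H63.grn X H κ' n2
  have m1 : H72.Mx H κ * Gr H κ = 1 := by
    ext x y
    have h := g1 x y
    rw [H72.opv_eq] at h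
    rw [Matrix.mul_apply, Matrix.one_apply, ← h]
    rfl
  have m2 : H72.Mx H κ' * Gr H κ' = 1 := by
    ext x y
    have h := f1 x y
    rw [H72.opv_eq] at h
    rw [Matrix.mul_apply, Matrix.one_apply, ← h]
    rfl
  have m3 : Gr H κ * H72.Mx H κ = 1 := mul_eq_one_comm.1 m1
  have m4 : H72.Mx H κ' - H72.Mx H κ =
      Matrix.diagonal fun z => if z ∈ D then Complex.I * ((η - e₀ : ℝ) : ℂ) else 0 := by
    ext x y
    simp only [H72.Mx, Matrix.sub_apply, Matrix.diagonal_apply, hκ, hκ']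
    by_cases hxy : x = y
    · subst hxy
      by_cases hx : x ∈ D
      · simp only [if_true, hx]
        push_cast
        ring
      · simp [hx]
    · simp [hxy]
  have m5 : Gr H κ = Gr H κ' + Gr H κ * (H72.Mx H κ' - H72.Mx H κ) * Gr H κ' := by
    rw [mul_sub, m3, sub_mul, mul_assoc, m2, mul_one, one_mul]
    abel
  refine ⟨g2, f2, ?_, ?_⟩
  · intro b c
    have q1 : (H72.Mx H κ).conjTranspose =
        H72.Mx H κ + Matrix.diagonal fun _ => (2 * Complex.I * (η : ℂ)) := by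
      ext x y
      simp only [H72.Mx, Matrix.conjTranspose_apply, Matrix.sub_apply, Matrix.add_apply,
        Matrix.map_apply, Matrix.diagonal_apply, hκ]
      by_cases hxy : x = y
      · subst hxy
        simp only [if_true, star_sub, star_mul', Complex.star_def, Complex.conj_ofReal,
          Complex.conj_I]
        ring
      · simp only [hxy, Ne.symm hxy, if_false, sub_zero, add_zero, Complex.star_def,
          Complex.conj_ofReal]
        rw [hH y x]
    have q2 : (Gr H κ).conjTranspose * (H72.Mx H κ).conjTranspose = 1 := by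
      rw [← Matrix.conjTranspose_mul, m1, Matrix.conjTranspose_one]
    have q3 : Gr H κ - (Gr H κ).conjTranspose = (Gr H κ).conjTranspose *
        (Matrix.diagonal fun _ => (2 * Complex.I * (η : ℂ))) * Gr H κ := by
      have h1 : (Matrix.diagonal fun _ => (2 * Complex.I * (η : ℂ)) : Matrix X X ℂ) =
          (H72.Mx H κ).conjTranspose - H72.Mx H κ := by
        rw [q1]; abel
      rw [h1, mul_sub, q2, sub_mul, one_mul, mul_assoc, m1, mul_one]
    have q4 := congrFun (congrFun q3 b) c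
    rw [Matrix.sub_apply, Matrix.conjTranspose_apply, g2 c b, Matrix.mul_apply] at q4
    have q5 : ∑ x, conj (Gr H κ x b) * Gr H κ x c * (2 * Complex.I * (η : ℂ)) =
        Gr H κ b c - star (Gr H κ b c) := by
      rw [q4]
      refine Finset.sum_congr rfl fun x _ => ?_
      rw [Matrix.mul_diagonal, Matrix.conjTranspose_apply, Complex.star_def]
      ring
    rw [← Finset.sum_mul] at q5
    have q6 : Gr H κ b c - star (Gr H κ b c) =
        (((Gr H κ b c).im / η : ℝ) : ℂ) * (2 * Complex.I * (η : ℂ)) := by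
      rw [Complex.star_def]
      apply Complex.ext
      · simp
      · have := hη0.ne'
        simp
        field_simp
        ring
    rw [q6] at q5
    have q7 : (2 * Complex.I * (η : ℂ)) ≠ 0 := by
      simp [hη0.ne', Complex.I_ne_zero]
    exact mul_right_cancel₀ q7 q5
  · intro a x
    have h := congrFun (congrFun m5 a) x
    rw [Matrix.add_apply, m4, Matrix.mul_apply] at h
    rw [h]
    congr 1
    rw [← Finset.sum_subset (Finset.subset_univ D)]
    · rw [Finset.mul_sum]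
      refine Finset.sum_congr rfl fun b hb => ?_
      rw [Matrix.mul_diagonal, if_pos hb]
      ring
    · intro b _ hb
      rw [Matrix.mul_diagonal, if_neg hb]
      ring

/-- TRI2: the missing absorption at the dead sites, Hilbert-Schmidt norm -/
def Tri2Stmt : Prop :=
  ∀ (X : Type) [Fintype X] [DecidableEq X] (H : Matrix X X ℝ) (D : Finset X) (η e₀ : ℝ),
    (∀ x y, H x y = H y x) → 0 < e₀ → e₀ ≤ η →
    (η - e₀) * ∑ x ∈ Dᶜ, ∑ y ∈ Dᶜ,
        ‖Gr H (fun z => if z ∈ D then e₀ else η) x y - Gr H (fun _ => η) x y‖ ^ 2 ≤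
      ∑ b ∈ D, (Gr H (fun _ => η) b b).im

/-- the imaginary part of the diagonal is not negative -/
theorem im_nonneg (H : Matrix X X ℝ) (η : ℝ) (hH : ∀ x y, H x y = H y x) (hη : 0 < η) (b : X) :
    0 ≤ (Gr H (fun _ => η) b b).im := by
  obtain ⟨-, -, h, -⟩ := gr_facts H ∅ η η hH hη hη
  have h1 := h b b
  have h2 : (((Gr H (fun _ => η) b b).im / η : ℝ) : ℂ) =
      ((∑ x, ‖Gr H (fun _ => η) x b‖ ^ 2 : ℝ) : ℂ) := by
    rw [← h1, Complex.ofReal_sum]
    refine Finset.sum_congr rfl fun x _ => ?_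
    rw [Complex.conj_mul']
    push_cast
    ring
  have h3 : (Gr H (fun _ => η) b b).im / η = ∑ x, ‖Gr H (fun _ => η) x b‖ ^ 2 := by
    exact_mod_cast h2
  have h4 : 0 ≤ (Gr H (fun _ => η) b b).im / η := by rw [h3]; positivity
  have h5 : (Gr H (fun _ => η) b b).im = (Gr H (fun _ => η) b b).im / η * η := by field_simp
  rw [h5]
  positivity

theorem tri2 : Tri2Stmt := by
  intro X _ _ H D η e₀ hH he hle
  rcases hle.eq_or_lt with heq | hη
  · rw [heq, sub_self, zero_mul]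
    exact Finset.sum_nonneg fun b _ => im_nonneg H η hH (heq ▸ he) b
  · obtain ⟨a1, a2, a3, a4⟩ := gr_facts H D η e₀ hH he (he.trans hη)
    exact core2 D _ _ η (η - e₀) (he.trans hη) (by linarith) (by linarith) a1 a2 a3 a4

end Pool.Agent.QDA.H79
end
end -- Pool.Agent.Helper79_QDA.TRI2

section -- Pool.Agent.Helper79_QDA.NGN2

/-!
# QDA: NGN2 (two networks with relatively close diagonals) and TRI2 in the form of the statement file
-/

set_option autoImplicit false

open scoped BigOperators ComplexConjugate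

noncomputable section

namespace Pool.Agent.QDA.H79

open Pool.Agent.ANR

theorem tri2' : QDA.Tri2Stmt := by
  intro X _ _ H D η e₀ hH he hη
  have h := tri2 X H D η e₀ hH he hη.le
  have h0 : 0 < η - e₀ := by linarith
  have h1 : ∑ x ∈ Dᶜ, ∑ y ∈ Dᶜ,
      ‖Gr H (fun _ => η) x y - Gr H (fun z => if z ∈ D then e₀ else η) x y‖ ^ 2 =
      ∑ x ∈ Dᶜ, ∑ y ∈ Dᶜ,
        ‖Gr H (fun z => if z ∈ D then e₀ else η) x y - Gr H (fun _ => η) x y‖ ^ 2 := by
    refine Finset.sum_congr rfl fun x _ => Finset.sum_congr rfl fun y _ => ?_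
    rw [norm_sub_rev]
  rw [h1, one_div, ← div_eq_inv_mul, le_div_iff₀ h0]
  linarith

theorem ngn2 : QDA.Ngn2Stmt := by
  intro X _ _ H H' κ κ' ε hN hN' hoff hdiag y
  obtain ⟨g1, g2, g3, -, -⟩ := H72.geq (H77.dir H63.grn) H63.grn X H κ hN
  obtain ⟨f1, f2, f3, -, -⟩ := H72.geq (H77.dir H63.grn) H63.grn X H' κ' hN'
  obtain ⟨-, r2⟩ := H63.grn X H' κ' hN'
  set v : X → ℂ := fun x => Gr H' κ' x y - Gr H κ x y with hv
  -- the equation for the difference
  have e1 : ∀ x, opv H' κ' v x =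
      -((((H' x x - H x x : ℝ) : ℂ) - Complex.I * ((κ' x - κ x : ℝ) : ℂ)) * Gr H κ x y) := by
    intro x
    have h1 := g1 x y
    have h2 := f1 x y
    unfold opv at h1 h2 ⊢
    have h3 : ∑ z, (H' x z : ℂ) * v z = ∑ z, (H' x z : ℂ) * Gr H' κ' z y -
        ∑ z, (H' x z : ℂ) * Gr H κ z y := by
      rw [← Finset.sum_sub_distrib]
      refine Finset.sum_congr rfl fun z _ => ?_
      simp only [hv]
      ring
    have h4 : ∑ z, (H' x z : ℂ) * Gr H κ z y = ∑ z, (H x z : ℂ) * Gr H κ z y +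
        ((H' x x - H x x : ℝ) : ℂ) * Gr H κ x y := by
      have h5 : ∑ z, ((H' x z : ℂ) * Gr H κ z y - (H x z : ℂ) * Gr H κ z y) =
          ((H' x x - H x x : ℝ) : ℂ) * Gr H κ x y := by
        rw [Finset.sum_eq_single x]
        · push_cast
          ring
        · intro z _ hz
          rw [hoff x z (Ne.symm hz)]
          ring
        · intro h; exact absurd (Finset.mem_univ x) h
      rw [Finset.sum_sub_distrib] at h5
      linear_combination h5
    rw [h3, h4]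
    simp only [hv]
    push_cast
    push_cast at h1 h2
    linear_combination h2 - h1
  have e2 : ∀ x, ‖opv H' κ' v x‖ ≤
      ε * (Real.sqrt (κ' x) * Real.sqrt (κ x)) * ‖Gr H κ x y‖ := by
    intro x
    rw [e1 x, norm_neg, norm_mul]
    gcongr
    refine (norm_sub_le _ _).trans ?_
    rw [norm_mul, Complex.norm_I, one_mul, Complex.norm_real, Complex.norm_real, Real.norm_eq_abs,
      Real.norm_eq_abs]
    exact hdiag x
  set S : ℝ := ∑ x, κ' x * ‖v x‖ ^ 2 with hS
  set T : ℝ := (Gr H κ y y).im with hT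
  have hS0 : 0 ≤ S := Finset.sum_nonneg fun x _ => mul_nonneg (hN'.pos x).le (by positivity)
  have hT0 : 0 ≤ T := by
    rw [hT, ← g3 y]
    exact Finset.sum_nonneg fun x _ => mul_nonneg (hN.pos x).le (by positivity)
  have e3 : S ≤ ∑ x, (Real.sqrt (κ' x) * ‖v x‖) * (ε * (Real.sqrt (κ x) * ‖Gr H κ x y‖)) := by
    have h1 := r2 v
    have h2 : S = -(∑ x, conj (v x) * opv H' κ' v x).im := by
      rw [h1]
      ring
    rw [h2]
    refine (neg_le_abs _).trans ((Complex.abs_im_le_norm _).trans ((norm_sum_le _ _).trans ?_))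
    refine Finset.sum_le_sum fun x _ => ?_
    rw [norm_mul, Complex.norm_conj]
    calc ‖v x‖ * ‖opv H' κ' v x‖
        ≤ ‖v x‖ * (ε * (Real.sqrt (κ' x) * Real.sqrt (κ x)) * ‖Gr H κ x y‖) := by
          gcongr
          exact e2 x
      _ = _ := by ring
  have e4 : S ^ 2 ≤ S * (ε ^ 2 * T) := by
    have h1 : (∑ x, (Real.sqrt (κ' x) * ‖v x‖) * (ε * (Real.sqrt (κ x) * ‖Gr H κ x y‖))) ^ 2 ≤
        (∑ x, (Real.sqrt (κ' x) * ‖v x‖) ^ 2) *
          ∑ x, (ε * (Real.sqrt (κ x) * ‖Gr H κ x y‖)) ^ 2 :=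
      Finset.sum_mul_sq_le_sq_mul_sq _ _ _
    have h2 : ∑ x, (Real.sqrt (κ' x) * ‖v x‖) ^ 2 = S := by
      refine Finset.sum_congr rfl fun x _ => ?_
      rw [mul_pow, Real.sq_sqrt (hN'.pos x).le]
    have h3 : ∑ x, (ε * (Real.sqrt (κ x) * ‖Gr H κ x y‖)) ^ 2 = ε ^ 2 * T := by
      rw [hT, ← g3 y, Finset.mul_sum]
      refine Finset.sum_congr rfl fun x _ => ?_
      rw [mul_pow, mul_pow, Real.sq_sqrt (hN.pos x).le]
    rw [h2, h3] at h1
    refine le_trans ?_ h1
    exact pow_le_pow_left₀ hS0 e3 2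
  rcases hS0.eq_or_lt with h | h
  · rw [← h]
    positivity
  · have h1 : S * S ≤ S * (ε ^ 2 * T) := by rw [← pow_two]; exact e4
    exact le_of_mul_le_mul_left h1 h

end Pool.Agent.QDA.H79
end
end -- Pool.Agent.Helper79_QDA.NGN2
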