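import Pool.Agent.Helper12_MEB.B000

/-!
# Merged copies (generated) of the modules

* `Pool.Agent.Helper72_ANP.Phi`
* `Pool.Agent.ANP.StmtsD`
* `Pool.Agent.Helper16_AND.Ana0`
* `Pool.Agent.ACX.Prt`
* `Pool.Agent.Helper16_ANP.Gm`
* `Pool.Agent.Helper16_ANP.Win`
* `Pool.Agent.Helper16_AC.Wf`
* `Pool.Agent.Helper16_AC.Dens`
* `Pool.Agent.Helper16_AC.Att`
* `Pool.Agent.Helper16_ANP.PhiB`
* `Pool.Agent.Helper16_ANP.AttB`
* `Pool.Agent.Helper16_ANP.Trial`
* `Pool.Agent.Helper16_ANP.Rows`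
* `Pool.Agent.Helper16_ANP.PrtA`
* `Pool.Agent.Helper16_AC.Val`
* `Pool.Agent.Helper16_ANP.PrtB`
* `Pool.Agent.Helper16_ANP.PrtC`
* `Pool.Agent.Helper16_ANP.PrtD`
* `Pool.Agent.Helper16_AC.Mark`
* `Pool.Agent.Helper16_AC.Stage`
* `Pool.Agent.Helper16_ANP.PrtE`
* `Pool.Agent.Helper16_AC.Rel`
* `Pool.Agent.Helper16_AC.Prt2`
* `Pool.Agent.Helper72_ANP.Sep`
* `Pool.Agent.Helper49_ANP.Lab`
* `Pool.Agent.Helper72_ANP.SepRows`
* `Pool.Agent.Helper16_AC.All`
* `Pool.Agent.Helper61_ANP.Scl`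
* `Pool.Agent.Helper61_ANP.Scn`
* `Pool.Agent.Helper61_ANP.Scp`
* `Pool.Agent.Helper79_ACX.V0`
* `Pool.Agent.Helper22_QDA.Kq`
-/

set_option autoImplicit false

section -- Pool.Agent.Helper72_ANP.Phi

/-!
# Block P3: the potential function of the coins

`x (n, B)` is the (bound of the) probability that a trial of the block `B` of the level `n` fails. The
number `QQ x n B` bounds the probability that `B` becomes bad: a trial of `B` fails or at least
`J + 1` of the subblocks `ch n B` of `B` are bad. It is a polynomial with nonnegative coefficients, of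
degree one in each `x (n, B)`. No probability space is needed.
-/

set_option autoImplicit false
set_option linter.unusedSectionVars false

open scoped BigOperators

noncomputable section

namespace Pool.Agent.ANP.H72

variable {Y : Type} [DecidableEq Y]

/-- the bound of the probability that the block `B` of the level `n` becomes bad -/
def QQ (ch : ℕ → Y → Finset Y) (J : ℕ) (x : ℕ × Y → ℝ) : ℕ → Y → ℝ
  | 0, B => x (0, B)
  | n + 1, B => x (n + 1, B) +
      ∑ S ∈ (ch n B).powersetCard (J + 1), ∏ b ∈ S, QQ ch J x n b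

/-- the potential function: `near n` are the blocks of the level `n` which matter, `n < N` -/
def Phi (ch : ℕ → Y → Finset Y) (J N : ℕ) (near : ℕ → Finset Y) (x : ℕ × Y → ℝ) : ℝ :=
  ∑ n ∈ Finset.range N, ∑ B ∈ near n, QQ ch J x n B

/-- a block is a subblock of at most one block -/
def Tree (ch : ℕ → Y → Finset Y) : Prop :=
  ∀ n B B' b, b ∈ ch n B → b ∈ ch n B' → B = B'

variable {ch : ℕ → Y → Finset Y} {J : ℕ}

theorem qq_zero (x : ℕ × Y → ℝ) (B : Y) : QQ ch J x 0 B = x (0, B) := rfl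

theorem qq_succ (x : ℕ × Y → ℝ) (n : ℕ) (B : Y) : QQ ch J x (n + 1) B = x (n + 1, B) +
    ∑ S ∈ (ch n B).powersetCard (J + 1), ∏ b ∈ S, QQ ch J x n b := rfl

theorem qq_nonneg {x : ℕ × Y → ℝ} (h0 : ∀ c, 0 ≤ x c) : ∀ n B, 0 ≤ QQ ch J x n B := by
  intro n
  induction n with
  | zero => exact fun B => h0 _
  | succ n ih =>
    intro B
    rw [qq_succ]
    exact add_nonneg (h0 _) (Finset.sum_nonneg fun S _ => Finset.prod_nonneg fun b _ => ih b)

theorem qq_mono {x y : ℕ × Y → ℝ} (h0 : ∀ c, 0 ≤ x c) (h : ∀ c, x c ≤ y c) :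
    ∀ n B, QQ ch J x n B ≤ QQ ch J y n B := by
  intro n
  induction n with
  | zero => exact fun B => h _
  | succ n ih =>
    intro B
    rw [qq_succ, qq_succ]
    refine add_le_add (h _) (Finset.sum_le_sum fun S _ => ?_)
    exact Finset.prod_le_prod (fun b _ => qq_nonneg h0 n b) fun b _ => ih b

theorem phi_nonneg {x : ℕ × Y → ℝ} (h0 : ∀ c, 0 ≤ x c) (N : ℕ) (near : ℕ → Finset Y) :
    0 ≤ Phi ch J N near x :=
  Finset.sum_nonneg fun n _ => Finset.sum_nonneg fun B _ => qq_nonneg h0 n B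

theorem phi_mono {x y : ℕ × Y → ℝ} (h0 : ∀ c, 0 ≤ x c) (h : ∀ c, x c ≤ y c) (N : ℕ)
    (near : ℕ → Finset Y) : Phi ch J N near x ≤ Phi ch J N near y :=
  Finset.sum_le_sum fun n _ => Finset.sum_le_sum fun B _ => qq_mono h0 h n B

/-- a block with a failed trial -/
theorem qq_one_of_coin {x : ℕ × Y → ℝ} (h0 : ∀ c, 0 ≤ x c) {n : ℕ} {B : Y}
    (h : 1 ≤ x (n, B)) : 1 ≤ QQ ch J x n B := by
  cases n with
  | zero => exact h
  | succ n =>
    rw [qq_succ]
    have h1 : 0 ≤ ∑ S ∈ (ch n B).powersetCard (J + 1), ∏ b ∈ S, QQ ch J x n b :=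
      Finset.sum_nonneg fun S _ => Finset.prod_nonneg fun b _ => qq_nonneg h0 n b
    linarith

/-- a block with `J + 1` bad subblocks -/
theorem qq_one_of_children {x : ℕ × Y → ℝ} (h0 : ∀ c, 0 ≤ x c) {n : ℕ} {B : Y} {T : Finset Y}
    (hT : T ⊆ ch n B) (hc : J + 1 ≤ T.card) (h : ∀ b ∈ T, 1 ≤ QQ ch J x n b) :
    1 ≤ QQ ch J x (n + 1) B := by
  obtain ⟨S, hS, hSc⟩ := Finset.exists_subset_card_eq hc
  have h1 : 1 ≤ ∏ b ∈ S, QQ ch J x n b := by
    rw [← Finset.prod_const_one (s := S)]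
    exact Finset.prod_le_prod (fun b _ => zero_le_one) fun b hb => h b (hS hb)
  have h2 : ∏ b ∈ S, QQ ch J x n b ≤
      ∑ S ∈ (ch n B).powersetCard (J + 1), ∏ b ∈ S, QQ ch J x n b :=
    Finset.single_le_sum (f := fun S => ∏ b ∈ S, QQ ch J x n b)
      (fun S _ => Finset.prod_nonneg fun b _ => qq_nonneg h0 n b)
      (Finset.mem_powersetCard.2 ⟨hS.trans hT, hSc⟩)
  rw [qq_succ]
  have := h0 (n + 1, B)
  linarith

theorem phi_one {x : ℕ × Y → ℝ} (h0 : ∀ c, 0 ≤ x c) {N : ℕ} {near : ℕ → Finset Y} {n : ℕ}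
    (hn : n < N) {B : Y} (hB : B ∈ near n) (h : 1 ≤ QQ ch J x n B) :
    1 ≤ Phi ch J N near x := by
  have h1 : QQ ch J x n B ≤ ∑ B ∈ near n, QQ ch J x n B :=
    Finset.single_le_sum (f := fun B => QQ ch J x n B) (fun B _ => qq_nonneg h0 n B) hB
  have h2 : ∑ B ∈ near n, QQ ch J x n B ≤ Phi ch J N near x :=
    Finset.single_le_sum (f := fun n => ∑ B ∈ near n, QQ ch J x n B)
      (fun n _ => Finset.sum_nonneg fun B _ => qq_nonneg h0 n B) (Finset.mem_range.2 hn)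
  linarith

/-! ### the dependence on one coin -/

/-- a product with at most one factor which is not constant -/
theorem prod_affine {A D : Y → ℝ} (hA : ∀ b, 0 ≤ A b) (hD : ∀ b, 0 ≤ D b)
    (h1 : ∀ b b', D b ≠ 0 → D b' ≠ 0 → b = b') (S : Finset Y) :
    ∃ a e : ℝ, 0 ≤ a ∧ 0 ≤ e ∧ (∀ t : ℝ, ∏ b ∈ S, (A b + D b * t) = a + e * t) ∧
      (e ≠ 0 → ∃ b ∈ S, D b ≠ 0) := by
  by_cases h : ∃ b ∈ S, D b ≠ 0
  · obtain ⟨b₀, hb₀, hD0⟩ := h
    refine ⟨A b₀ * ∏ b ∈ S.erase b₀, A b, D b₀ * ∏ b ∈ S.erase b₀, A b,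
      mul_nonneg (hA _) (Finset.prod_nonneg fun b _ => hA b),
      mul_nonneg (hD _) (Finset.prod_nonneg fun b _ => hA b), ?_, fun _ => ⟨b₀, hb₀, hD0⟩⟩
    intro t
    rw [← Finset.mul_prod_erase S _ hb₀]
    have h2 : ∏ b ∈ S.erase b₀, (A b + D b * t) = ∏ b ∈ S.erase b₀, A b := by
      refine Finset.prod_congr rfl fun b hb => ?_
      have h3 : D b = 0 := by
        by_contra h4
        exact (Finset.mem_erase.1 hb).1 (h1 b b₀ h4 hD0)
      rw [h3, zero_mul, add_zero]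
    rw [h2]
    ring
  · push Not at h
    refine ⟨∏ b ∈ S, A b, 0, Finset.prod_nonneg fun b _ => hA b, le_rfl, ?_,
      fun h2 => absurd rfl h2⟩
    intro t
    rw [zero_mul, add_zero]
    refine Finset.prod_congr rfl fun b hb => ?_
    rw [h b hb, zero_mul, add_zero]

theorem qq_affine (hT : Tree ch) {x : ℕ × Y → ℝ} (h0 : ∀ c, 0 ≤ x c) (m : ℕ) (C : Y) :
    ∀ n, ∃ A D : Y → ℝ, (∀ b, 0 ≤ A b) ∧ (∀ b, 0 ≤ D b) ∧
      (∀ b (t : ℝ), QQ ch J (Function.update x (m, C) t) n b = A b + D b * t) ∧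
      (n < m → ∀ b, D b = 0) ∧ (n = m → ∀ b, D b ≠ 0 → b = C) ∧
      (∀ b b', D b ≠ 0 → D b' ≠ 0 → b = b') := by
  classical
  have hown : ∀ n b (t : ℝ), Function.update x (m, C) t (n, b) =
      (if n = m ∧ b = C then 0 else x (n, b)) + (if n = m ∧ b = C then 1 else 0) * t := by
    intro n b t
    by_cases h : n = m ∧ b = C
    · rw [if_pos h, if_pos h, h.1, h.2, Function.update_self]
      ring
    · rw [if_neg h, if_neg h, Function.update_of_ne]
      · ring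
      · intro h2
        exact h ⟨congrArg Prod.fst h2, congrArg Prod.snd h2⟩
  intro n
  induction n with
  | zero =>
    refine ⟨fun b => if 0 = m ∧ b = C then 0 else x (0, b), fun b => if 0 = m ∧ b = C then 1 else 0,
      ?_, ?_, ?_, ?_, ?_, ?_⟩
    · intro b
      simp only
      split_ifs
      · exact le_rfl
      · exact h0 _
    · intro b
      simp only
      split_ifs
      · exact zero_le_one
      · exact le_rfl
    · intro b t
      rw [qq_zero]
      exact hown 0 b t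
    · intro hm b
      exact if_neg (fun h => by omega)
    · intro _ b hb
      simp only [ne_eq, ite_eq_right_iff, not_forall] at hb
      obtain ⟨h1, -⟩ := hb
      exact h1.2
    · intro b b' hb hb'
      simp only [ne_eq, ite_eq_right_iff, not_forall] at hb hb'
      obtain ⟨h1, -⟩ := hb
      obtain ⟨h2, -⟩ := hb'
      rw [h1.2, h2.2]
  | succ n ih =>
    obtain ⟨A, D, hA, hD, hf, hlt, heq, huni⟩ := ih
    choose a e ha he hae hsup using fun S : Finset Y => prod_affine hA hD huni S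
    refine ⟨fun b => (if n + 1 = m ∧ b = C then 0 else x (n + 1, b)) +
      ∑ S ∈ (ch n b).powersetCard (J + 1), a S, fun b => (if n + 1 = m ∧ b = C then 1 else 0) +
      ∑ S ∈ (ch n b).powersetCard (J + 1), e S, ?_, ?_, ?_, ?_⟩
    · intro b
      refine add_nonneg ?_ (Finset.sum_nonneg fun S _ => ha S)
      split_ifs
      · exact le_rfl
      · exact h0 _
    · intro b
      refine add_nonneg ?_ (Finset.sum_nonneg fun S _ => he S)
      split_ifs
      · exact zero_le_one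
      · exact le_rfl
    · intro b t
      rw [qq_succ, hown]
      have h1 : ∑ S ∈ (ch n b).powersetCard (J + 1),
          ∏ b ∈ S, QQ ch J (Function.update x (m, C) t) n b =
          ∑ S ∈ (ch n b).powersetCard (J + 1), a S +
            (∑ S ∈ (ch n b).powersetCard (J + 1), e S) * t := by
        rw [Finset.sum_mul, ← Finset.sum_add_distrib]
        refine Finset.sum_congr rfl fun S _ => ?_
        rw [← hae S t]
        exact Finset.prod_congr rfl fun b _ => hf b t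
      rw [h1]
      ring
    -- the support
    have key : ∀ b, ((if n + 1 = m ∧ b = C then (1 : ℝ) else 0) +
        ∑ S ∈ (ch n b).powersetCard (J + 1), e S) ≠ 0 →
        (n + 1 = m ∧ b = C) ∨ ∃ b' ∈ ch n b, D b' ≠ 0 := by
      intro b hb
      by_contra hcon
      push Not at hcon
      apply hb
      rw [if_neg (fun h => hcon.1 h.1 h.2), zero_add]
      refine Finset.sum_eq_zero fun S hS => ?_
      by_contra h2
      obtain ⟨b', hb', hD'⟩ := hsup S h2
      exact hD' (hcon.2 b' ((Finset.mem_powersetCard.1 hS).1 hb'))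
    refine ⟨?_, ?_, ?_⟩
    · intro hm b
      by_contra hb
      rcases key b hb with h1 | ⟨b', -, hD'⟩
      · omega
      · exact hD' (hlt (by omega) b')
    · intro hm b hb
      rcases key b hb with h1 | ⟨b', -, hD'⟩
      · exact h1.2
      · exact absurd (hlt (by omega) b') hD'
    · intro b b' hb hb'
      rcases key b hb with h1 | ⟨c, hc, hDc⟩
      · rcases key b' hb' with h2 | ⟨c', -, hDc'⟩
        · rw [h1.2, h2.2]
        · exact absurd (hlt (by omega) c') hDc'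
      · rcases key b' hb' with h2 | ⟨c', hc', hDc'⟩
        · exact absurd (hlt (by omega) c) hDc
        · have h3 := huni c c' hDc hDc'
          subst h3
          exact hT n b b' c hc hc'

theorem phi_affine (hT : Tree ch) {x : ℕ × Y → ℝ} (h0 : ∀ c, 0 ≤ x c) (N : ℕ)
    (near : ℕ → Finset Y) (c : ℕ × Y) : ∃ A D : ℝ, 0 ≤ A ∧ 0 ≤ D ∧
      ∀ t : ℝ, Phi ch J N near (Function.update x c t) = A + D * t := by
  obtain ⟨m, C⟩ := c
  choose A D hA hD hf _ _ _ using qq_affine (J := J) hT h0 m C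
  refine ⟨∑ n ∈ Finset.range N, ∑ B ∈ near n, A n B, ∑ n ∈ Finset.range N, ∑ B ∈ near n, D n B,
    Finset.sum_nonneg fun n _ => Finset.sum_nonneg fun B _ => hA n B,
    Finset.sum_nonneg fun n _ => Finset.sum_nonneg fun B _ => hD n B, ?_⟩
  intro t
  unfold Phi
  simp only [hf, Finset.sum_add_distrib, Finset.sum_mul]

/-- one trial of the block `c`, which fails with probability at most `p ≤ x c` -/
theorem coin_step (hT : Tree ch) {x : ℕ × Y → ℝ} (h0 : ∀ c, 0 ≤ x c) (N : ℕ)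
    (near : ℕ → Finset Y) (c : ℕ × Y) {p : ℝ} (hp : 0 ≤ p) (hpx : p ≤ x c) :
    (1 - p) * Phi ch J N near (Function.update x c (x c - p)) +
      p * Phi ch J N near (Function.update x c 1) ≤ Phi ch J N near x := by
  obtain ⟨A, D, hA, hD, h⟩ := phi_affine (J := J) hT h0 N near c
  have h1 := h (x c)
  rw [Function.update_eq_self] at h1
  rw [h, h, h1]
  have h2 : 0 ≤ D * (p * (x c - p)) := mul_nonneg hD (mul_nonneg hp (by linarith))
  nlinarith

/-! ### the initial value -/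

theorem qq_start {x : ℕ × Y → ℝ} (h0 : ∀ c, 0 ≤ x c) {t q : ℕ → ℝ} {K : ℕ → ℕ}
    (hx : ∀ n B, x (n, B) ≤ t n) (hK : ∀ n B, (ch n B).card ≤ K n) (hq0 : t 0 ≤ q 0)
    (hq : ∀ n, t (n + 1) + ((K n : ℝ) * q n) ^ (J + 1) ≤ q (n + 1)) :
    ∀ n B, QQ ch J x n B ≤ q n := by
  intro n
  induction n with
  | zero => exact fun B => (hx 0 B).trans hq0
  | succ n ih =>
    intro B
    rw [qq_succ]
    refine le_trans (add_le_add (hx _ _) ?_) (hq n)
    have hqn : 0 ≤ q n := (qq_nonneg h0 n B).trans (ih B)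
    calc ∑ S ∈ (ch n B).powersetCard (J + 1), ∏ b ∈ S, QQ ch J x n b ≤
        ∑ S ∈ (ch n B).powersetCard (J + 1), q n ^ (J + 1) := by
          refine Finset.sum_le_sum fun S hS => ?_
          rw [← (Finset.mem_powersetCard.1 hS).2, ← Finset.prod_const]
          exact Finset.prod_le_prod (fun b _ => qq_nonneg h0 n b) fun b _ => ih b
      _ = ((ch n B).card.choose (J + 1) : ℝ) * q n ^ (J + 1) := by
          rw [Finset.sum_const, Finset.card_powersetCard, nsmul_eq_mul]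
      _ ≤ (K n : ℝ) ^ (J + 1) * q n ^ (J + 1) := by
          gcongr
          have h1 : (ch n B).card.choose (J + 1) ≤ K n ^ (J + 1) :=
            (Nat.choose_le_pow _ _).trans (Nat.pow_le_pow_left (hK n B) _)
          exact_mod_cast h1
      _ = ((K n : ℝ) * q n) ^ (J + 1) := by rw [mul_pow]

theorem phi_start {x : ℕ × Y → ℝ} (h0 : ∀ c, 0 ≤ x c) {t q : ℕ → ℝ} {K : ℕ → ℕ} (N : ℕ)
    (near : ℕ → Finset Y) (hx : ∀ n B, x (n, B) ≤ t n) (hK : ∀ n B, (ch n B).card ≤ K n)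
    (hq0 : t 0 ≤ q 0) (hq : ∀ n, t (n + 1) + ((K n : ℝ) * q n) ^ (J + 1) ≤ q (n + 1)) :
    Phi ch J N near x ≤ ∑ n ∈ Finset.range N, ((near n).card : ℝ) * q n := by
  refine Finset.sum_le_sum fun n _ => ?_
  rw [← nsmul_eq_mul, ← Finset.sum_const]
  exact Finset.sum_le_sum fun B _ => qq_start h0 hx hK hq0 hq n B

end Pool.Agent.ANP.H72
end
end -- Pool.Agent.Helper72_ANP.Phi

section -- Pool.Agent.ANP.StmtsD

/-!
# The protocol: labels, interface with the analysis, final statement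

Everything probabilistic is `H16.win_step`, `H16.att_gen_real` (`Helper16_ANP`) and the potential
function `H72.Phi` (`Helper72_ANP/Phi.lean`). Super-stage `n ≤ N` = the stages `kk n ≤ k < kk (n+1)`,
then the release phase with the clock `cl (kk (n+1))`.

The clock `s x` of a frozen site is not its remaining variance `r x`: a rejected noise is seen (`a`,
`r` change) but not applied (`V`, `s` do not change). Only running and dead sites are in accordance
with the truth: `a = V`, `r = s`.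
-/

set_option autoImplicit false

open MeasureTheory ProbabilityTheory

open scoped ENNReal NNReal BigOperators

noncomputable section

namespace Pool.Agent.ANP

/-! ### Labels -/

/-- `run` running, `pend` frozen, `op` frozen at the start of the super-stage, `dd n` died in
super-stage `n`, `bad n` the bad blocks of level `n` -/
structure Lb (X : Type) where
  /-- running -/
  run : Finset X
  /-- frozen -/
  pend : Finset X
  /-- frozen at the start of the super-stage -/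
  op : Finset X
  /-- died in super-stage `n` -/
  dd : ℕ → Finset X
  /-- bad blocks of level `n` -/
  bad : ℕ → Finset X

namespace Lb

variable {X : Type} [Fintype X] [DecidableEq X] (Γ : Geo X) (L : Lb X)

/-- the blocks of `𝓑` of level `n` become bad: the running sites of their `3 B` are frozen -/
def add (n : ℕ) (𝓑 : Finset X) : Lb X :=
  { L with run := L.run \ Γ.enl n 𝓑 1, pend := L.pend ∪ (L.run ∩ Γ.enl n 𝓑 1),
           bad := Function.update L.bad n (L.bad n ∪ 𝓑) }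

/-- `K` (killed) and `Q` (released) die in super-stage `n` -/
def die (n : ℕ) (K Q : Finset X) : Lb X :=
  { L with run := L.run \ K, pend := L.pend \ Q,
           dd := Function.update L.dd n (L.dd n ∪ K ∪ Q) }

/-- the end of super-stage `n`: the waiting sites get a shell of width `3 ρ n` -/
def shl (n : ℕ) : Lb X :=
  { L with run := L.run \ Γ.nbh (L.op ∩ L.pend) (3 * Γ.ρ n),
           pend := L.pend ∪ (L.run ∩ Γ.nbh (L.op ∩ L.pend) (3 * Γ.ρ n)),
           op := L.pend ∪ (L.run ∩ Γ.nbh (L.op ∩ L.pend) (3 * Γ.ρ n)) }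

/-- the blocks of level `n + 1` with more than `J` bad sub-blocks -/
def many (n : ℕ) : Finset X := {B | Γ.bl (n + 1) B = B ∧ Γ.J < (Γ.sub n (L.bad n) B).card}

/-- the start of super-stage `n + 1` -/
def nxt (n : ℕ) : Lb X := (L.shl Γ n).add Γ (n + 1) (L.many Γ n)

/-- `Q` may be released in super-stage `n` -/
def elig (n : ℕ) (Q : Finset X) : Prop :=
  Q ⊆ L.pend ∧ ∀ y ∈ Q, ∀ z ∈ Γ.enl n (L.bad n) 1, Γ.ρ n < Γ.D y z

/-- the component of `x` in the sites which were frozen at the start of the super-stage -/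
def cmp (n : ℕ) (x : X) : Finset X := Γ.comp L.op (10 * Γ.ρ n) x

/-- the start: everything is running -/
def ini (X : Type) [Fintype X] : Lb X := ⟨Finset.univ, ∅, ∅, fun _ => ∅, fun _ => ∅⟩

end Lb

/-- what follows from the label invariant -/
structure LFac {X : Type} [Fintype X] [DecidableEq X] (Γ : Geo X) (d : ℕ) (o : X) (Dn : ℕ → ℕ)
    (n : ℕ) (L : Lb X) : Prop where
  disj : Disjoint L.run L.pend
  dead : ∀ x, x ∉ L.run → x ∉ L.pend → ∃ j ≤ n, x ∈ L.dd j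
  dens : ∀ j B, (L.dd j ∩ Γ.blk j B).card ≤ Dn j
  rep : ∀ j, ∀ B ∈ L.bad j, Γ.bl j B = B
  frz : Disjoint L.run (Γ.enl n (L.bad n) 1)
  pen : n = 0 → L.op = ∅
  npe : ∀ x ∈ L.pend, x ∉ L.op → x ∈ Γ.enl n (L.bad n) 1
  /-- a component which may be released is small and isolated -/
  rel : ∀ x ∈ L.op, L.elig Γ n (L.cmp Γ n x) →
    (∀ y ∈ L.cmp Γ n x, Γ.D x y + Γ.ρ n ≤ Γ.L n) ∧
    (L.cmp Γ n x).card ≤ 3 ^ d * Γ.J * (6 * Γ.L (n - 1) + 1) ^ d ∧
    ∀ y ∈ L.cmp Γ n x, ∀ z ∈ L.pend, z ∉ L.cmp Γ n x → Γ.ρ n < Γ.D y z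
  /-- the origin -/
  orig : o ∉ L.run → ∃ j ≤ n, ∃ B ∈ L.bad j, B ∈ Γ.near o j
  /-- the frozen sites of the old super-stage at the start of the next one -/
  opn : ∀ m, n = m + 1 → L.op ⊆ Γ.enl m (L.bad m) 2

/-- LAB (uses SEP, SE2): THERE IS A LABEL INVARIANT. `Kn n` bounds the number of kills for one cluster.
Proof: `LI n L` = the fields of `LFac` with the exception of `rel` (which follows from `SepStmt`), the
blocks of level `n = m + 1` outside `bad n` have at most `J` sub-blocks in `bad m`, `bad j = ∅` for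
`n < j`, `dd j = ∅` for `n < j`, and the ledger of the releases of super-stage `n`: `dd n` is the union
of sets `G c`, `c ∈ C ⊆ op`, with `G c ⊆ nbh (cmp c) (ρ n)`, `card ≤ Kn n + card (cmp c)`, `cmp c` no
longer frozen, different `c` in different components, and every `b ∈ bad m` near `cmp c` in a block of
level `n` with at most `J` sub-blocks in `bad m` (it was not bad at the time of the release; `bad m` is
fixed). Two components cannot meet the same `5 b` (its diameter is at most `10 ρ n`), so at most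
`3 ^ d * J` of the `c` are near a given block of level `n`. `nxt`: the waiting components are not
eligible, `Se2Stmt`. `orig`: `near` allows `3 ρ (n+1) + 2 L n`. -/
def LabStmt : Prop :=
  ∀ (X : Type) [Fintype X] [DecidableEq X] (Γ : Geo X) (d : ℕ) (o : X) (Kn Dn : ℕ → ℕ),
    GeoOk Γ d → Scl Γ d →
    (∀ n, 1 ≤ n →
      3 ^ d * Γ.J * (Kn n + 3 ^ d * Γ.J * (6 * Γ.L (n - 1) + 1) ^ d) ≤ Dn n) →
    ∃ LI : ℕ → Lb X → Prop,
      LI 0 (Lb.ini X) ∧
      (∀ n L, LI n L → LFac Γ d o Dn n L) ∧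
      (∀ n L (𝓑 : Finset X), LI n L → (∀ B ∈ 𝓑, Γ.bl n B = B) → LI n (L.add Γ n 𝓑)) ∧
      (∀ n L x (K : Finset X), LI n L → x ∈ L.op → L.elig Γ n (L.cmp Γ n x) →
        K ⊆ L.run ∩ Γ.nbh (L.cmp Γ n x) (Γ.ρ n) → K.card ≤ Kn n →
        LI n (L.die n K (L.cmp Γ n x))) ∧
      ∀ n L, LI n L → (∀ x ∈ L.op, ¬ L.elig Γ n (L.cmp Γ n x)) → LI (n + 1) (L.nxt Γ n)

/-! ### The interface with the analysis -/

/-- the facts about clocks and dead sites which the protocol guarantees in super-stage `n`, stage `k`,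
processed sites `P` -/
structure Fc {X : Type} [Fintype X] [DecidableEq X] (Γ : Geo X) (kk : ℕ → ℕ) (cl : ℕ → ℝ≥0)
    (Dn : ℕ → ℕ) (n k : ℕ) (P : Finset X) (T : Cfg X) (run : Finset X) : Prop where
  runs : ∀ x ∈ run, T.s x = if x ∈ P then cl (k + 1) else cl k
  rest : ∀ x, x ∉ run → T.s x = 0 ∨
    (if x ∈ P then cl (k + 1) else cl k) ≤ T.s x ∧ T.s x ≤ cl 0
  dens : ∃ dd : ℕ → Finset X, (∀ x, T.s x = 0 → ∃ j ≤ n, x ∈ dd j) ∧
    ∀ j B, (dd j ∩ Γ.blk j B).card ≤ Dn j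
  /-- the shells: a site which was frozen before super-stage `m`, `n = m + 1`, is far from the running
  sites -/
  shell : ∀ m, n = m + 1 → ∀ x, x ∉ run → cl (kk m) < T.s x → ∀ y ∈ run, 3 * Γ.ρ m < Γ.D x y

/-- THE INTERFACE. `HS n k` the good configurations at the start of stage `k` (and at the start of the
release phase, `k = kk (n + 1)`), `HM n k T₀ run₀ P` during the stage (`T₀, run₀` the start, `P` the
processed sites), `HR n T₀ run₀ P` during the release phase. -/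
structure Ana {X : Type} [Fintype X] [DecidableEq X] (Γ : Geo X) (d : ℕ) (o : X)
    (F : Set (X → ℝ)) (th : ℝ≥0) (kk : ℕ → ℕ) (cl : ℕ → ℝ≥0) (Kn Dn : ℕ → ℕ) (p : ℕ → ℝ) where
  /-- start of a stage -/
  HS : ℕ → ℕ → Cfg X → Finset X → Prop
  /-- during a stage -/
  HM : ℕ → ℕ → Cfg X → Finset X → Finset X → Cfg X → Finset X → Prop
  /-- during the release phase -/
  HR : ℕ → Cfg X → Finset X → Finset X → Cfg X → Finset X → Prop
  /-- the first gauge -/
  m0 : X → ℂ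
  ini : HS 0 0 ⟨fun _ => 0, fun _ => cl 0, m0⟩ Finset.univ
  /-- start of a stage -/
  beg : ∀ n k T run, n ≤ Γ.N → kk n ≤ k → k < kk (n + 1) → Fc Γ kk cl Dn n k ∅ T run →
    HS n k T run → HM n k T run ∅ T run
  /-- freezing, rejected blocks count as processed -/
  mmon : ∀ n k T₀ run₀ P P' T run run', P ⊆ P' → run' ⊆ run → Fc Γ kk cl Dn n k P T run →
    Fc Γ kk cl Dn n k P' T run' → HM n k T₀ run₀ P T run → HM n k T₀ run₀ P' T run'
  /-- FLO: one block update; accepted iff `HM` holds afterwards -/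
  flo : ∀ n k T₀ run₀ P T run B, n ≤ Γ.N → kk n ≤ k → k < kk (n + 1) → Γ.bl n B = B →
    Disjoint P (Γ.blk n B) → HS n k T₀ run₀ → Fc Γ kk cl Dn n k ∅ T₀ run₀ →
    Fc Γ kk cl Dn n k P T run → HM n k T₀ run₀ P T run →
    gm (fun _ => 0) (T.hv th (run ∩ Γ.blk n B))
      {ζ | ¬ HM n k T₀ run₀ (P ∪ Γ.blk n B) (T.hf th (run ∩ Γ.blk n B) ζ) run} ≤
      ENNReal.ofReal (p n)
  /-- GAU: end of a stage -/
  fin : ∀ n k T₀ run₀ T run, n ≤ Γ.N → kk n ≤ k → k < kk (n + 1) →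
    HS n k T₀ run₀ → Fc Γ kk cl Dn n k ∅ T₀ run₀ →
    Fc Γ kk cl Dn n k Finset.univ T run → HM n k T₀ run₀ Finset.univ T run →
    ∃ m, HS n (k + 1) (T.rg m) run
  /-- start of the release phase -/
  rbeg : ∀ n T run, n ≤ Γ.N → Fc Γ kk cl Dn n (kk (n + 1)) ∅ T run → HS n (kk (n + 1)) T run →
    HR n T run ∅ T run
  /-- freezing, a failed cluster counts as processed -/
  rmon : ∀ n T₀ run₀ P P' T run run', P ⊆ P' → run' ⊆ run →
    Fc Γ kk cl Dn n (kk (n + 1)) ∅ T run → Fc Γ kk cl Dn n (kk (n + 1)) ∅ T run' →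
    HR n T₀ run₀ P T run → HR n T₀ run₀ P' T run'
  /-- KIL + REL: the release of one cluster `Q`, for every potential `v` there -/
  kil : ∀ n T₀ run₀ P T run (Q : Finset X) (v : X → ℝ), n ≤ Γ.N → 1 ≤ n →
    HS n (kk (n + 1)) T₀ run₀ → Fc Γ kk cl Dn n (kk (n + 1)) ∅ T₀ run₀ →
    Fc Γ kk cl Dn n (kk (n + 1)) ∅ T run → HR n T₀ run₀ P T run →
    Q.Nonempty → (∀ x ∈ Q, x ∉ run ∧ 0 < T.s x) → (∀ x ∈ Q, ∀ y ∈ Q, Γ.D x y ≤ 2 * Γ.L n) →
    Q.card ≤ 3 ^ d * Γ.J * (6 * Γ.L (n - 1) + 1) ^ d →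
    (∀ x ∈ Q, ∀ y, Γ.D x y ≤ Γ.ρ n → y ∈ Q ∨ y ∈ run ∨ T.s y = 0) →
    (∀ x ∈ Q, ∀ y ∈ P, 3 * Γ.ρ n < Γ.D x y) →
    Att (run ∩ Γ.nbh Q (Γ.ρ n)) Q v (fun T' =>
      (∀ x ∈ Q, T'.V x = v x ∧ T'.s x = 0) ∧
      ({x ∈ run | T'.s x = 0} : Finset X).card ≤ Kn n ∧
      HR n T₀ run₀ (P ∪ Γ.nbh Q (Γ.ρ n)) T' {x ∈ run | T'.s x ≠ 0}) T (ENNReal.ofReal (p n))
  /-- end of the release phase; `run'` = the running sites outside the new shells -/
  rfin : ∀ n T₀ run₀ P T run run', n ≤ Γ.N → HS n (kk (n + 1)) T₀ run₀ →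
    Fc Γ kk cl Dn n (kk (n + 1)) ∅ T₀ run₀ → Fc Γ kk cl Dn n (kk (n + 1)) ∅ T run →
    HR n T₀ run₀ P T run → run' ⊆ run → Fc Γ kk cl Dn (n + 1) (kk (n + 1)) ∅ T run' →
    ∃ m, HS (n + 1) (kk (n + 1)) (T.rg m) run'
  /-- the end: near the origin there are only running and dead sites -/
  out : ∀ T run (a : X → ℝ) (r : X → ℝ≥0), HS (Γ.N + 1) (kk (Γ.N + 1)) T run →
    Fc Γ kk cl Dn (Γ.N + 1) (kk (Γ.N + 1)) ∅ T run → o ∈ run →
    (∀ x, x ∉ run → T.s x ≠ 0 → 3 * Γ.ρ (Γ.N + 1) < Γ.D o x) →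
    (∀ x, x ∈ run ∨ T.s x = 0 → a x = T.V x ∧ r x = T.s x) → Win F a r (1 / 4)

/-- the sub-blocks, for `H72.Phi` -/
def Geo.ch {X : Type} [Fintype X] [DecidableEq X] (Γ : Geo X) (n : ℕ) (B : X) : Finset X :=
  {b | Γ.bl n b = b ∧ Γ.bl (n + 1) b = B}

/-- PRT (uses LAB, `H16.win_step`, `H16.att_gen_real`, `H72.coin_step`): THE PROTOCOL. `π n` bounds the
sum of the failure probabilities of the trials of one block of level `n`: at most one per stage and at
most one per site.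
Proof: backward induction; the claim at every moment is `Win F a r (min 1 (Phi x + 1 / 4))` for all
states with: `LI n L`; `1 ≤ QQ x j B` for `B ∈ L.bad j`; `Fc` for `T, L.run`; `0 < T.s y` on `L.pend`,
`T.s = 0` off `run ∪ pend`; `T.s y ≤ cl (kk n)` on `pend \ op`; `a = V`, `r = s` on `run` and off
`pend`; `HM` / `HR` / `HS`; `x (n, B) ≥ p n * (number of the remaining trials of B)` for the blocks `B`
of level `n` which are not bad, `x (j, B) ≥ π j` for `j > n`. One trial of a block: `H16.win_step`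
(resp. `H16.att_gen_real`), `e₁ = min 1 (Phi (x (n,B) := x (n,B) - p n) + 1/4)`, `e₂ = min 1 (Phi (x (n,B)
:= 1) + 1/4)`, `H72.coin_step`. A rejected block update: `L.add n {B}`, `T` unchanged, `a, r` changed
only at the sites of `B`, which are frozen. Release phase: the sites `x ∈ L.op` one after the other
(order arbitrary): if `cmp x` is eligible, one attempt with the coin of `bl n x` (this block is not
bad); success: `L.die n K (cmp x)`; failure: `L.add n {bl n x}`, `T` as before the attempt; `cmp x`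
is in `3 B` (or `D ≤ ρ n`), so it is not eligible any more. `P ⊆` the union of `nbh (cmp c) (ρ n)` over
processed `c`; different components have distance `> 10 ρ n`. End of super-stage `n`: `L.nxt n`. At
the end: if `o ∉ run` or a frozen site is within `3 ρ (N+1)` of `o` then a bad block is `near`, so
`Phi x ≥ 1`; otherwise `out`. -/
def PrtStmt : Prop :=
  ∀ (X : Type) [Fintype X] [DecidableEq X] (Γ : Geo X) (d : ℕ) (o : X) (F : Set (X → ℝ))
    (th : ℝ≥0) (kk : ℕ → ℕ) (cl : ℕ → ℝ≥0) (Kn Dn : ℕ → ℕ) (p π : ℕ → ℝ), MeasurableSet F →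
    GeoOk Γ d → Scl Γ d → 0 < th → th < 1 →
    (∀ n, 1 ≤ n →
      3 ^ d * Γ.J * (Kn n + 3 ^ d * Γ.J * (6 * Γ.L (n - 1) + 1) ^ d) ≤ Dn n) →
    kk 0 = 0 → (∀ n, kk n < kk (n + 1)) → (∀ k, cl (k + 1) = th * cl k) → 0 < cl 0 →
    (∀ n, 0 ≤ p n) → (∀ n, p n * ((kk (n + 1) : ℝ) - kk n + (Γ.L n : ℝ) ^ d) ≤ π n) →
    (∀ n, π n ≤ 1) →
    Nonempty (Ana Γ d o F th kk cl Kn Dn p) →
    H72.Phi Γ.ch Γ.J (Γ.N + 2) (Γ.near o) (fun i => π i.1) ≤ 1 / 4 →
    Win F (fun _ => 0) (fun _ => cl 0) (1 / 2)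

end Pool.Agent.ANP
end
end -- Pool.Agent.ANP.StmtsD

section -- Pool.Agent.Helper16_AND.Ana0

/-!
# The wrapper for the event `WL`: from the analysis off `Vi` to the interface `Ana`

`Vi T`: the dead sites of the configuration already exclude the set `F`. Everything is allowed there.
-/

set_option autoImplicit false

open MeasureTheory ProbabilityTheory

open scoped ENNReal NNReal BigOperators

noncomputable section

namespace Pool.Agent.ANP.H16

open Pool.Agent.ANP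

/-- monotonicity of an attempt in its goal -/
theorem att_imp {X : Type} [Fintype X] [DecidableEq X] {R Q : Finset X} {v : X → ℝ}
    {Ok Ok' : Cfg X → Prop} (h : ∀ T, Ok T → Ok' T) {T : Cfg X} {q : ℝ≥0∞}
    (hA : Att R Q v Ok T q) : Att R Q v Ok' T q := by
  induction hA with
  | ok T hT => exact Att.ok T (h T hT)
  | one T => exact Att.one T
  | mono T q q' hq _ ih => exact Att.mono T q q' hq ih
  | ap T b q hb _ ih => exact Att.ap T b q hb ih
  | kill T D q hD hs hq _ ih => exact Att.kill T D q hD hs hq ih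

/-- what is needed of the predicate `Vi` -/
structure ViOk {X : Type} [Fintype X] [DecidableEq X] (F : Set (X → ℝ)) (Vi : Cfg X → Prop) :
    Prop where
  /-- `Vi` depends on the dead sites and is monotone in them -/
  mono : ∀ T T' : Cfg X, (∀ x, T.s x = 0 → T'.s x = 0 ∧ T'.V x = T.V x) → Vi T → Vi T'
  /-- the end -/
  win : ∀ (T : Cfg X) (a : X → ℝ) (r : X → ℝ≥0), Vi T → (∀ x, T.s x = 0 → a x = T.V x ∧ r x = 0) →
    Win F a r (1 / 4)

/-- the predicate for the torus: the dead sites violate a family of closed conditions -/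
theorem viok_of {X : Type} [Fintype X] [DecidableEq X] (F : Set (X → ℝ))
    (C : (X → ℝ) → Finset X → Prop)
    (hC : ∀ V V' D, (∀ x ∈ D, V' x = V x) → C V D → C V' D)
    (hF : ∀ U ∈ F, ∀ D, ¬ C U D) :
    ViOk F (fun T : Cfg X => ∃ D, (∀ x ∈ D, T.s x = 0) ∧ C T.V D) := by
  refine ⟨?_, ?_⟩
  · rintro T T' h ⟨D, h1, h2⟩
    exact ⟨D, fun x hx => (h x (h1 x hx)).1, hC _ _ D (fun x hx => (h x (h1 x hx)).2) h2⟩
  · rintro T a r ⟨D, h1, h2⟩ h
    have h3 : gm a r F = 0 := by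
      refine measure_mono_null (t := {U | ∃ x ∈ D, U x ≠ a x}) ?_ ?_
      · intro U hU
        by_contra hc
        simp only [Set.mem_ofPred_eq, not_exists, not_and, not_not] at hc
        exact hF U hU D (hC T.V U D (fun x hx => by rw [hc x hx, (h x (h1 x hx)).1]) h2)
      · have h4 : {U : X → ℝ | ∃ x ∈ D, U x ≠ a x} ⊆ ⋃ x ∈ D, {U : X → ℝ | U x ≠ a x} := by
          rintro U ⟨x, hx, hU⟩
          exact Set.mem_biUnion hx hU
        refine measure_mono_null h4 ?_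
        refine (measure_biUnion_null_iff (μ := gm a r) (s := fun x => {U : X → ℝ | U x ≠ a x})
          D.countable_toSet).2 ?_
        intro x hx
        have h5 : gm a r {U : X → ℝ | U x ≠ a x} =
            (Measure.map (fun U : X → ℝ => U x) (gm a r)) {u : ℝ | u ≠ a x} := by
          rw [Measure.map_apply (measurable_pi_apply x) (by measurability)]
          rfl
        have h6 : Measure.map (fun U : X → ℝ => U x) (gm a r) = gaussianReal (a x) (r x) := by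
          unfold gm
          exact (measurePreserving_eval (fun x => gaussianReal (a x) (r x)) x).map_eq
        rw [h5, h6, (h x (h1 x hx)).2, gaussianReal_zero_var]
        rw [Measure.dirac_apply' _ (by measurability)]
        simp
    unfold Win
    rw [measureReal_def, h3]
    norm_num

/-- THE ANALYSIS OFF `Vi`. The same fields as `Ana`; every hypothesis may use `¬ Vi`, every conclusion
may end in `Vi`. -/
structure Ana0 {X : Type} [Fintype X] [DecidableEq X] (Γ : Geo X) (d : ℕ) (o : X)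
    (F : Set (X → ℝ)) (th : ℝ≥0) (kk : ℕ → ℕ) (cl : ℕ → ℝ≥0) (Kn Dn : ℕ → ℕ) (p : ℕ → ℝ)
    (Vi : Cfg X → Prop) where
  /-- start of a stage -/
  HS : ℕ → ℕ → Cfg X → Finset X → Prop
  /-- during a stage -/
  HM : ℕ → ℕ → Cfg X → Finset X → Finset X → Cfg X → Finset X → Prop
  /-- during the release phase -/
  HR : ℕ → Cfg X → Finset X → Finset X → Cfg X → Finset X → Prop
  /-- the first gauge -/
  m0 : X → ℂ
  ini : HS 0 0 ⟨fun _ => 0, fun _ => cl 0, m0⟩ Finset.univ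
  beg : ∀ n k T run, n ≤ Γ.N → kk n ≤ k → k < kk (n + 1) → Fc Γ kk cl Dn n k ∅ T run →
    ¬ Vi T → HS n k T run → HM n k T run ∅ T run
  mmon : ∀ n k T₀ run₀ P P' T run run', P ⊆ P' → run' ⊆ run → Fc Γ kk cl Dn n k P T run →
    Fc Γ kk cl Dn n k P' T run' → ¬ Vi T₀ → ¬ Vi T → HS n k T₀ run₀ →
    HM n k T₀ run₀ P T run → HM n k T₀ run₀ P' T run'
  flo : ∀ n k T₀ run₀ P T run B, n ≤ Γ.N → kk n ≤ k → k < kk (n + 1) → Γ.bl n B = B →
    Disjoint P (Γ.blk n B) → ¬ Vi T₀ → ¬ Vi T → HS n k T₀ run₀ → Fc Γ kk cl Dn n k ∅ T₀ run₀ →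
    Fc Γ kk cl Dn n k P T run → HM n k T₀ run₀ P T run →
    gm (fun _ => 0) (T.hv th (run ∩ Γ.blk n B))
      {ζ | ¬ (Vi (T.hf th (run ∩ Γ.blk n B) ζ) ∨
        HM n k T₀ run₀ (P ∪ Γ.blk n B) (T.hf th (run ∩ Γ.blk n B) ζ) run)} ≤
      ENNReal.ofReal (p n)
  fin : ∀ n k T₀ run₀ T run, n ≤ Γ.N → kk n ≤ k → k < kk (n + 1) →
    ¬ Vi T₀ → ¬ Vi T → HS n k T₀ run₀ → Fc Γ kk cl Dn n k ∅ T₀ run₀ →
    Fc Γ kk cl Dn n k Finset.univ T run → HM n k T₀ run₀ Finset.univ T run →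
    ∃ m, HS n (k + 1) (T.rg m) run
  rbeg : ∀ n T run, n ≤ Γ.N → Fc Γ kk cl Dn n (kk (n + 1)) ∅ T run → ¬ Vi T →
    HS n (kk (n + 1)) T run → HR n T run ∅ T run
  rmon : ∀ n T₀ run₀ P P' T run run', P ⊆ P' → run' ⊆ run →
    Fc Γ kk cl Dn n (kk (n + 1)) ∅ T run → Fc Γ kk cl Dn n (kk (n + 1)) ∅ T run' →
    ¬ Vi T₀ → ¬ Vi T → HS n (kk (n + 1)) T₀ run₀ →
    HR n T₀ run₀ P T run → HR n T₀ run₀ P' T run'
  kil : ∀ n T₀ run₀ P T run (Q : Finset X) (v : X → ℝ), n ≤ Γ.N → 1 ≤ n →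
    ¬ Vi T₀ → ¬ Vi T →
    HS n (kk (n + 1)) T₀ run₀ → Fc Γ kk cl Dn n (kk (n + 1)) ∅ T₀ run₀ →
    Fc Γ kk cl Dn n (kk (n + 1)) ∅ T run → HR n T₀ run₀ P T run →
    Q.Nonempty → (∀ x ∈ Q, x ∉ run ∧ 0 < T.s x) → (∀ x ∈ Q, ∀ y ∈ Q, Γ.D x y ≤ 2 * Γ.L n) →
    Q.card ≤ 3 ^ d * Γ.J * (6 * Γ.L (n - 1) + 1) ^ d →
    (∀ x ∈ Q, ∀ y, Γ.D x y ≤ Γ.ρ n → y ∈ Q ∨ y ∈ run ∨ T.s y = 0) →
    (∀ x ∈ Q, ∀ y ∈ P, 3 * Γ.ρ n < Γ.D x y) →
    Att (run ∩ Γ.nbh Q (Γ.ρ n)) Q v (fun T' =>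
      (∀ x ∈ Q, T'.V x = v x ∧ T'.s x = 0) ∧
      ({x ∈ run | T'.s x = 0} : Finset X).card ≤ Kn n ∧
      (Vi T' ∨ HR n T₀ run₀ (P ∪ Γ.nbh Q (Γ.ρ n)) T' {x ∈ run | T'.s x ≠ 0})) T
        (ENNReal.ofReal (p n))
  rfin : ∀ n T₀ run₀ P T run run', n ≤ Γ.N → ¬ Vi T₀ → ¬ Vi T → HS n (kk (n + 1)) T₀ run₀ →
    Fc Γ kk cl Dn n (kk (n + 1)) ∅ T₀ run₀ → Fc Γ kk cl Dn n (kk (n + 1)) ∅ T run →
    HR n T₀ run₀ P T run → run' ⊆ run → Fc Γ kk cl Dn (n + 1) (kk (n + 1)) ∅ T run' →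
    ∃ m, HS (n + 1) (kk (n + 1)) (T.rg m) run'
  out : ∀ T run (a : X → ℝ) (r : X → ℝ≥0), ¬ Vi T → HS (Γ.N + 1) (kk (Γ.N + 1)) T run →
    Fc Γ kk cl Dn (Γ.N + 1) (kk (Γ.N + 1)) ∅ T run → o ∈ run →
    (∀ x, x ∉ run → T.s x ≠ 0 → 3 * Γ.ρ (Γ.N + 1) < Γ.D o x) →
    (∀ x, x ∈ run ∨ T.s x = 0 → a x = T.V x ∧ r x = T.s x) → Win F a r (1 / 4)

/-- the sites of `Q` are applied one after the other -/
theorem att_ap_all {X : Type} [Fintype X] [DecidableEq X] {R Q : Finset X} {v : X → ℝ}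
    {Ok : Cfg X → Prop} (T : Cfg X) (Q' : Finset X) (hQ : Q' ⊆ Q) {q : ℝ≥0∞}
    (h : Att R Q v Ok (T.rv Q' v) q) : Att R Q v Ok T q := by
  classical
  induction Q' using Finset.induction_on generalizing T with
  | empty =>
    have : T.rv ∅ v = T := by
      unfold Cfg.rv
      simp
    rwa [this] at h
  | insert b Q' hb ih =>
    have h1 : T.rv (insert b Q') v = (T.rv {b} v).rv Q' v := by
      unfold Cfg.rv
      congr 1
      · funext x
        by_cases h1 : x ∈ Q' <;> by_cases h2 : x = b <;> simp [h1, h2]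
      · funext x
        by_cases h1 : x ∈ Q' <;> by_cases h2 : x = b <;> simp [h1, h2]
    rw [h1] at h
    refine Att.ap T b q (hQ (Finset.mem_insert_self b Q')) ?_
    exact ih (T.rv {b} v) (fun x hx => hQ (Finset.mem_insert_of_mem hx)) h

/-- THE CONSTRUCTOR -/
def ana_of_ana0 {X : Type} [Fintype X] [DecidableEq X] {Γ : Geo X} {d : ℕ} {o : X}
    {F : Set (X → ℝ)} {th : ℝ≥0} {kk : ℕ → ℕ} {cl : ℕ → ℝ≥0} {Kn Dn : ℕ → ℕ} {p : ℕ → ℝ}
    {Vi : Cfg X → Prop} (hV : ViOk F Vi) (hcl : ∀ k, 0 < cl k)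
    (A : Ana0 Γ d o F th kk cl Kn Dn p Vi) : Ana Γ d o F th kk cl Kn Dn p where
  HS n k T run := Vi T ∨ A.HS n k T run
  HM n k T₀ run₀ P T run := Vi T ∨ (¬ Vi T₀ ∧ A.HS n k T₀ run₀ ∧ A.HM n k T₀ run₀ P T run)
  HR n T₀ run₀ P T run := Vi T ∨ (¬ Vi T₀ ∧ A.HS n (kk (n + 1)) T₀ run₀ ∧ A.HR n T₀ run₀ P T run)
  m0 := A.m0
  ini := Or.inr A.ini
  beg n k T run h1 h2 h3 h4 h5 := by
    by_cases hT : Vi T
    · exact Or.inl hT
    · have h6 := h5.resolve_left hT
      exact Or.inr ⟨hT, h6, A.beg n k T run h1 h2 h3 h4 hT h6⟩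
  mmon n k T₀ run₀ P P' T run run' h1 h2 h3 h4 h5 := by
    by_cases hT : Vi T
    · exact Or.inl hT
    · obtain ⟨h6, h7, h8⟩ := h5.resolve_left hT
      exact Or.inr ⟨h6, h7, A.mmon n k T₀ run₀ P P' T run run' h1 h2 h3 h4 h6 hT h7 h8⟩
  flo n k T₀ run₀ P T run B h1 h2 h3 h4 h5 h6 h7 h8 h9 := by
    by_cases hT : Vi T
    · refine le_trans (le_of_eq ?_) (zero_le (α := ℝ≥0∞))
      refine measure_mono_null (t := ∅) ?_ (measure_empty)
      intro ζ hζ
      refine absurd (Or.inl (hV.mono T _ (fun x hx => ?_) hT)) hζ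
      have hx1 : x ∉ run := by
        intro hr
        have h10 := h8.runs x hr
        rw [hx] at h10
        split_ifs at h10
        · exact (hcl _).ne h10
        · exact (hcl _).ne h10
      have hx2 : x ∉ run ∩ Γ.blk n B := fun h => hx1 (Finset.mem_inter.1 h).1
      unfold Cfg.hf
      simp only
      rw [if_neg hx2, if_neg hx2]
      exact ⟨hx, rfl⟩
    · obtain ⟨g1, g2, g3⟩ := h9.resolve_left hT
      refine le_trans (measure_mono ?_)
        (A.flo n k T₀ run₀ P T run B h1 h2 h3 h4 h5 g1 hT g2 h7 h8 g3)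
      intro ζ hζ
      simp only [Set.mem_ofPred_eq] at hζ ⊢
      intro hc
      refine hζ ?_
      rcases hc with hc | hc
      · exact Or.inl hc
      · exact Or.inr ⟨g1, g2, hc⟩
  fin n k T₀ run₀ T run h1 h2 h3 h4 h5 h6 h7 := by
    by_cases hT : Vi T
    · exact ⟨T.mb, Or.inl (hV.mono T _ (fun x hx => ⟨hx, rfl⟩) hT)⟩
    · obtain ⟨g1, g2, g3⟩ := h7.resolve_left hT
      obtain ⟨m, hm⟩ := A.fin n k T₀ run₀ T run h1 h2 h3 g1 hT g2 h5 h6 g3
      exact ⟨m, Or.inr hm⟩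
  rbeg n T run h1 h2 h3 := by
    by_cases hT : Vi T
    · exact Or.inl hT
    · have h4 := h3.resolve_left hT
      exact Or.inr ⟨hT, h4, A.rbeg n T run h1 h2 hT h4⟩
  rmon n T₀ run₀ P P' T run run' h1 h2 h3 h4 h5 := by
    by_cases hT : Vi T
    · exact Or.inl hT
    · obtain ⟨h6, h7, h8⟩ := h5.resolve_left hT
      exact Or.inr ⟨h6, h7, A.rmon n T₀ run₀ P P' T run run' h1 h2 h3 h4 h6 hT h7 h8⟩
  kil n T₀ run₀ P T run Q v h1 h2 h3 h4 h5 h6 h7 h8 h9 h10 h11 h12 := by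
    by_cases hT : Vi T
    · refine att_ap_all T Q (Finset.Subset.refl Q) ?_
      refine Att.mono _ 0 _ (zero_le (α := ℝ≥0∞)) (Att.ok _ ?_)
      refine ⟨?_, ?_, ?_⟩
      · intro x hx
        unfold Cfg.rv
        simp [hx]
      · have he : ({x ∈ run | (T.rv Q v).s x = 0} : Finset X) = ∅ := by
          refine Finset.filter_eq_empty_iff.2 ?_
          intro x hx hc
          have hxQ : x ∉ Q := fun h => (h8 x h).1 hx
          unfold Cfg.rv at hc
          simp only at hc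
          rw [if_neg hxQ] at hc
          have h13 := h5.runs x hx
          rw [hc] at h13
          split_ifs at h13
          · exact (hcl _).ne h13
          · exact (hcl _).ne h13
        rw [he]
        exact Nat.zero_le _
      · left
        refine hV.mono T _ (fun x hx => ?_) hT
        have hxQ : x ∉ Q := fun h => (h8 x h).2.ne' hx
        unfold Cfg.rv
        simp only
        rw [if_neg hxQ, if_neg hxQ]
        exact ⟨hx, rfl⟩
    · obtain ⟨g1, g2, g3⟩ := h6.resolve_left hT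
      refine att_imp ?_ (A.kil n T₀ run₀ P T run Q v h1 h2 g1 hT g2 h4 h5 g3 h7 h8 h9 h10 h11 h12)
      rintro T' ⟨e1, e2, e3⟩
      refine ⟨e1, e2, ?_⟩
      rcases e3 with e3 | e3
      · exact Or.inl e3
      · exact Or.inr ⟨g1, g2, e3⟩
  rfin n T₀ run₀ P T run run' h1 h2 h3 h4 h5 h6 h7 := by
    by_cases hT : Vi T
    · exact ⟨T.mb, Or.inl (hV.mono T _ (fun x hx => ⟨hx, rfl⟩) hT)⟩
    · obtain ⟨g1, g2, g3⟩ := h5.resolve_left hT
      obtain ⟨m, hm⟩ := A.rfin n T₀ run₀ P T run run' h1 g1 hT g2 h3 h4 g3 h6 h7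
      exact ⟨m, Or.inr hm⟩
  out T run a r h1 h2 h3 h4 h5 := by
    by_cases hT : Vi T
    · refine hV.win T a r hT (fun x hx => ?_)
      have := h5 x (Or.inr hx)
      rw [hx] at this
      exact this
    · exact A.out T run a r hT (h1.resolve_left hT) h2 h3 h4 h5

end Pool.Agent.ANP.H16
end
end -- Pool.Agent.Helper16_AND.Ana0

section -- Pool.Agent.ACX.Prt

/-!
# ACX: the protocol for a functional

The protocol of `ANP.PrtStmt`, but the truth has the variance `s - f`, `f = cl (kk (N + 1))` the last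
clock: on the running and on the dead sites `a = T.V`, `r = T.s - f` (truncated). At the end the potential
is known completely. The set `F` is replaced by a function `φ` with values in `[0, 1]` and `ψ x`, the
cost of a dead site `x`. The structure `Ana` is used with `F = ∅` (`out` is trivial then).
-/

set_option autoImplicit false

open MeasureTheory ProbabilityTheory

open scoped ENNReal NNReal BigOperators

noncomputable section

namespace Pool.Agent.ACX

open Pool.Agent.ANP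

/-- PRT2. Proof: `H16.prt` with `∫ (φ - ∑_(x ∈ S) ψ x) d gm a r ≤ e + ∑_(j ≥ n) W j ∑_B QQ x j B` instead of
`Win F a r (min 1 (Phi x + 1/4))`. `S` the marked sites: at the start of super-stage `n < N` the sites
within `ρ n` of `enl (n - 1) (bad (n - 1)) 2` are marked, once and for all, before any attempt touches
them; every site which is not marked has `cl (k + 1) ≤ r x + f` at stage `k`; dead sites are marked.
A rejected update of a block leaves `r = th s - f`. The noise of a kill has the variance `s - f` instead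
of `s`: density at most `(s / (s - f))^(1/2)` for each site, at most `2` for a whole attempt. No
attempts in super-stage `N`: if a block of level `N - 1` is bad then the value is at least one. -/
def Prt2Stmt : Prop :=
  ∀ (X : Type) [Fintype X] [DecidableEq X] (Γ : Geo X) (d : ℕ) (o : X) (th : ℝ≥0) (kk : ℕ → ℕ)
    (cl : ℕ → ℝ≥0) (Kn Dn : ℕ → ℕ) (p π c W : ℕ → ℝ) (K e : ℝ) (φ : (X → ℝ) → ℝ)
    (ψ : X → (X → ℝ) → ℝ) (A : Ana Γ d o ∅ th kk cl Kn Dn p) (V₀ : X → ℝ) (m₁ : X → ℂ),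
    Measurable φ → (∀ U, 0 ≤ φ U ∧ φ U ≤ 1) → (∀ x, Measurable (ψ x)) →
    (∀ x U, 0 ≤ ψ x U ∧ ψ x U ≤ K) → 0 ≤ e →
    GeoOk Γ d → Scl Γ d → 0 < th → th < 1 →
    (∀ n, 1 ≤ n →
      3 ^ d * Γ.J * (Kn n + 3 ^ d * Γ.J * (6 * Γ.L (n - 1) + 1) ^ d) ≤ Dn n) →
    kk 0 = 0 → (∀ n, kk n < kk (n + 1)) → (∀ k, cl (k + 1) = th * cl k) → 0 < cl 0 →
    1 ≤ Γ.N → (∀ n, 0 ≤ p n) →
    -- the coins
    (∀ n, 2 * p n * ((kk (n + 1) : ℝ) - kk n + (Γ.L n : ℝ) ^ d) ≤ π n) → (∀ n, π n ≤ 1) →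
    -- the densities of the kills
    (∀ n, 1 ≤ n → n < Γ.N →
      2 * (cl (kk (Γ.N + 1)) : ℝ) *
        (3 ^ d * Γ.J * (6 * Γ.L (n - 1) + 1) ^ d * (2 * Γ.ρ n + 1) ^ d) ≤ cl (kk (n + 1))) →
    -- the cost of one site in super-stage `n`
    (∀ n, 0 ≤ c n) →
    (∀ n, 1 ≤ n → n < Γ.N → ∀ (x : X) (a : X → ℝ) (r : X → ℝ≥0),
      th * cl (kk n) ≤ r x + cl (kk (Γ.N + 1)) → ∫ U, ψ x U ∂(gm a r) ≤ c n) →
    -- the weights
    (∀ n, 0 ≤ W n) →
    (∀ n, 1 ≤ n → n < Γ.N → ∀ B,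
      ((Γ.nbh (Γ.enl (n - 1) {B} 2) (Γ.ρ n)).card : ℝ) * c n ≤ W (n - 1)) →
    1 ≤ W (Γ.N - 1) → 1 ≤ W Γ.N → 1 ≤ W (Γ.N + 1) →
    -- the start and the end
    A.HS 0 0 ⟨V₀, fun _ => cl 0, m₁⟩ Finset.univ →
    (∀ (T : Cfg X) (run : Finset X), A.HS (Γ.N + 1) (kk (Γ.N + 1)) T run →
      Fc Γ kk cl Dn (Γ.N + 1) (kk (Γ.N + 1)) ∅ T run → (∀ x, x ∉ run → T.s x = 0) →
      φ T.V ≤ e + ∑ x ∈ Finset.univ \ run, ψ x T.V) →
    ∫ U, φ U ∂(gm V₀ fun _ => cl 0 - cl (kk (Γ.N + 1))) ≤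
      e + ∑ j ∈ Finset.range (Γ.N + 2), W j *
        ∑ B ∈ ({B | Γ.bl j B = B} : Finset X), H72.QQ Γ.ch Γ.J (fun i => π i.1) j B

end Pool.Agent.ACX
end
end -- Pool.Agent.ACX.Prt

section -- Pool.Agent.Helper16_ANP.Gm

/-! Step identity for the Gaussian product measures. -/

set_option autoImplicit false

open MeasureTheory ProbabilityTheory

open scoped ENNReal NNReal BigOperators

noncomputable section

namespace Pool.Agent.ANP.H16

variable {X : Type} [Fintype X]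

instance gm_prob (a : X → ℝ) (r : X → ℝ≥0) : IsProbabilityMeasure (gm a r) := by
  unfold gm; infer_instance

theorem gm_conv (a b : X → ℝ) (p q : X → ℝ≥0) :
    (gm a p).conv (gm b q) = gm (fun x => a x + b x) (fun x => p x + q x) := by
  unfold Measure.conv gm
  have h := (measurePreserving_arrowProdEquivProdArrow ℝ ℝ X
    (fun x => gaussianReal (a x) (p x)) (fun x => gaussianReal (b x) (q x))).map_eq
  rw [← h, Measure.map_map (by fun_prop) (MeasurableEquiv.measurable _)]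
  have h2 : ((fun x : (X → ℝ) × (X → ℝ) => x.1 + x.2) ∘
      (MeasurableEquiv.arrowProdEquivProdArrow ℝ ℝ X)) =
      (fun (x : X → ℝ × ℝ) i => (fun z : ℝ × ℝ => z.1 + z.2) (x i)) := by
    funext x i
    rfl
  rw [h2, Measure.pi_map_pi (fun i => (by fun_prop : Measurable fun z : ℝ × ℝ => z.1 + z.2).aemeasurable)]
  congr 1
  funext i
  exact gaussianReal_conv_gaussianReal

theorem gm_shift (a ζ : X → ℝ) (r : X → ℝ≥0) :
    (gm a r).map (fun y => ζ + y) = gm (fun x => a x + ζ x) r := by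
  unfold gm
  have h := Measure.pi_map_pi (μ := fun x => gaussianReal (a x) (r x))
    (f := fun (i : X) (y : ℝ) => ζ i + y) (fun i => (measurable_const_add (ζ i)).aemeasurable)
  have h2 : (fun y : X → ℝ => ζ + y) = fun (x : X → ℝ) i => ζ i + x i := by
    funext y i; rfl
  rw [h2, h]
  congr 1
  funext i
  exact gaussianReal_map_const_add (ζ i)

/-- the step identity, any measurable function -/
theorem gm_step_lint (a : X → ℝ) (p q : X → ℝ≥0) (f : (X → ℝ) → ℝ≥0∞) (hf : Measurable f) :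
    ∫⁻ y, f y ∂(gm a (fun x => p x + q x)) =
      ∫⁻ ζ, (∫⁻ y, f y ∂(gm (fun x => a x + ζ x) q)) ∂(gm (fun _ => 0) p) := by
  have h := gm_conv (fun _ : X => (0 : ℝ)) a p q
  have h1 : (fun x => (0 : ℝ) + a x) = a := by funext x; simp
  rw [h1] at h
  rw [← h, Measure.lintegral_conv hf]
  refine lintegral_congr fun ζ => ?_
  rw [← gm_shift a ζ q, lintegral_map hf (by fun_prop)]

theorem gm_meas_shift (a : X → ℝ) (q : X → ℝ≥0) (F : Set (X → ℝ)) (hF : MeasurableSet F) :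
    Measurable (fun ζ : X → ℝ => gm (fun x => a x + ζ x) q F) := by
  have h : (fun ζ : X → ℝ => gm (fun x => a x + ζ x) q F) =
      fun ζ => (gm a q) (Prod.mk ζ ⁻¹' {p : (X → ℝ) × (X → ℝ) | p.1 + p.2 ∈ F}) := by
    funext ζ
    rw [← gm_shift a ζ q, Measure.map_apply (by fun_prop) hF]
    rfl
  rw [h]
  exact measurable_measure_prodMk_left ((by fun_prop : Measurable fun p : (X → ℝ) × (X → ℝ) =>
    p.1 + p.2) hF)

/-- the step identity for the measure of a set -/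
theorem gm_step (a : X → ℝ) (p q : X → ℝ≥0) (F : Set (X → ℝ)) (hF : MeasurableSet F) :
    gm a (fun x => p x + q x) F =
      ∫⁻ ζ, gm (fun x => a x + ζ x) q F ∂(gm (fun _ => 0) p) := by
  have h := gm_step_lint a p q (F.indicator 1) (measurable_one.indicator hF)
  rw [lintegral_indicator_one hF] at h
  rw [h]
  refine lintegral_congr fun ζ => ?_
  rw [lintegral_indicator_one hF]

/-- the step identity with `τ ≤ r` -/
theorem gm_step' (a : X → ℝ) (r τ : X → ℝ≥0) (hτ : ∀ x, τ x ≤ r x) (F : Set (X → ℝ))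
    (hF : MeasurableSet F) :
    gm a r F = ∫⁻ ζ, gm (fun x => a x + ζ x) (fun x => r x - τ x) F ∂(gm (fun _ => 0) τ) := by
  have h := gm_step a τ (fun x => r x - τ x) F hF
  have h1 : (fun x => τ x + (r x - τ x)) = r := by
    funext x; exact add_tsub_cancel_of_le (hτ x)
  rw [h1] at h
  exact h

theorem gm_step_real (a : X → ℝ) (r τ : X → ℝ≥0) (hτ : ∀ x, τ x ≤ r x) (F : Set (X → ℝ))
    (hF : MeasurableSet F) :
    (gm a r).real F =
      ∫ ζ, (gm (fun x => a x + ζ x) (fun x => r x - τ x)).real F ∂(gm (fun _ => 0) τ) := by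
  unfold Measure.real
  rw [gm_step' a r τ hτ F hF, integral_toReal]
  · exact (gm_meas_shift a _ F hF).aemeasurable
  · filter_upwards with ζ
    exact measure_lt_top _ _

end Pool.Agent.ANP.H16
end
end -- Pool.Agent.Helper16_ANP.Gm

section -- Pool.Agent.Helper16_ANP.Win

/-! `Win` under one noise. -/

set_option autoImplicit false

open MeasureTheory ProbabilityTheory

open scoped ENNReal NNReal BigOperators

noncomputable section

namespace Pool.Agent.ANP.H16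

variable {X : Type} [Fintype X]

theorem gm_real_meas (a : X → ℝ) (q : X → ℝ≥0) (F : Set (X → ℝ)) (hF : MeasurableSet F) :
    Measurable (fun ζ : X → ℝ => (gm (fun x => a x + ζ x) q).real F) := by
  unfold Measure.real
  exact (gm_meas_shift a q F hF).ennreal_toReal

theorem gm_real_int (a : X → ℝ) (q τ : X → ℝ≥0) (F : Set (X → ℝ)) (hF : MeasurableSet F) :
    Integrable (fun ζ : X → ℝ => (gm (fun x => a x + ζ x) q).real F) (gm (fun _ => 0) τ) := by
  refine Integrable.of_bound (gm_real_meas a q F hF).aestronglyMeasurable 1 ?_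
  filter_upwards with ζ
  rw [Real.norm_eq_abs, abs_of_nonneg measureReal_nonneg]
  exact measureReal_le_one

/-- the noise has no component where its variance is zero -/
theorem gm_ae_zero (τ : X → ℝ≥0) :
    ∀ᵐ ζ ∂(gm (fun _ : X => (0 : ℝ)) τ), ∀ x, τ x = 0 → ζ x = 0 := by
  rw [ae_all_iff]
  intro x
  by_cases hx : τ x = 0
  · have h : (gm (fun _ : X => (0 : ℝ)) τ) {ζ | ζ x ≠ 0} = 0 := by
      have h1 : {ζ : X → ℝ | ζ x ≠ 0} = Function.eval x ⁻¹' ({0}ᶜ : Set ℝ) := by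
        ext ζ; simp [Function.eval]
      classical
      have hm : MeasurableSet ({0}ᶜ : Set ℝ) := (measurableSet_singleton 0).compl
      have h2 := (measurePreserving_eval (fun x : X => gaussianReal 0 (τ x)) x).measure_preimage
        hm.nullMeasurableSet
      unfold gm
      rw [h1, h2, hx, gaussianReal_zero_var, Measure.dirac_apply' _ hm]
      simp
    filter_upwards [measure_eq_zero_iff_ae_notMem.mp h] with ζ hζ _
    by_contra hc
    exact hζ hc
  · filter_upwards with ζ h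
    exact absurd h hx

/-- `Win` under one noise, with an exceptional set of small outer measure; only noises supported
where the variance is positive matter -/
theorem win_step (a : X → ℝ) (r τ : X → ℝ≥0) (hτ : ∀ x, τ x ≤ r x) (F : Set (X → ℝ))
    (hF : MeasurableSet F) (R : Set (X → ℝ)) (p e₁ e₂ : ℝ) (he : e₁ ≤ e₂) (hp : 0 ≤ p)
    (hR : gm (fun _ => 0) τ R ≤ ENNReal.ofReal p)
    (h₁ : ∀ ζ : X → ℝ, (∀ x, τ x = 0 → ζ x = 0) → ζ ∉ R →
      Win F (fun x => a x + ζ x) (fun x => r x - τ x) e₁)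
    (h₂ : ∀ ζ : X → ℝ, (∀ x, τ x = 0 → ζ x = 0) →
      Win F (fun x => a x + ζ x) (fun x => r x - τ x) e₂) :
    Win F a r (e₁ + p * (e₂ - e₁)) := by
  unfold Win
  rw [gm_step_real a r τ hτ F hF]
  set μ := gm (fun _ : X => (0 : ℝ)) τ with hμ
  set e : (X → ℝ) → ℝ := fun ζ => (gm (fun x => a x + ζ x) (fun x => r x - τ x)).real F with hedef
  have hem : Measurable e := gm_real_meas a _ F hF
  set B : Set (X → ℝ) := {ζ | e₁ < e ζ} with hB
  have hBm : MeasurableSet B := measurableSet_lt measurable_const hem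
  have h0 := gm_ae_zero τ
  rw [← hμ] at h0
  have hBR : μ B ≤ μ R := by
    refine measure_mono_ae ?_
    filter_upwards [h0] with ζ hζ hζB
    by_contra hc
    exact absurd (h₁ ζ hζ hc) (not_le.mpr hζB)
  have hBp : μ.real B ≤ p := by
    unfold Measure.real
    exact ENNReal.toReal_le_of_le_ofReal hp (hBR.trans hR)
  have hle : e ≤ᵐ[μ] fun ζ => e₁ + B.indicator (fun _ => e₂ - e₁) ζ := by
    filter_upwards [h0] with ζ hζ
    by_cases hb : ζ ∈ B
    · rw [Set.indicator_of_mem hb]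
      have := h₂ ζ hζ
      unfold Win at this
      simp only [hedef]
      linarith
    · rw [Set.indicator_of_notMem hb, add_zero]
      exact not_lt.mp hb
  have hint : Integrable (fun ζ => B.indicator (fun _ => e₂ - e₁) ζ) μ :=
    (integrable_const (e₂ - e₁)).indicator hBm
  calc ∫ ζ, e ζ ∂μ ≤ ∫ ζ, (e₁ + B.indicator (fun _ => e₂ - e₁) ζ) ∂μ :=
        integral_mono_ae (gm_real_int a _ τ F hF) ((integrable_const e₁).add hint) hle
    _ = e₁ + μ.real B * (e₂ - e₁) := by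
        rw [integral_add (integrable_const e₁) hint, integral_const, integral_indicator_const _ hBm]
        simp
    _ ≤ e₁ + p * (e₂ - e₁) := by
        have := mul_le_mul_of_nonneg_right hBp (sub_nonneg.mpr he)
        linarith

end Pool.Agent.ANP.H16
end
end -- Pool.Agent.Helper16_ANP.Win

section -- Pool.Agent.Helper16_AC.Wf

/-! `Win` for a bounded function: `∫ g d gm a r ≤ e`. -/

set_option autoImplicit false

open MeasureTheory ProbabilityTheory

open scoped ENNReal NNReal BigOperators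

noncomputable section

namespace Pool.Agent.ANP.AC

open Pool.Agent.ANP Pool.Agent.ANP.H16

variable {X : Type} [Fintype X]

/-- the mean of `g` is at most `e` -/
def Wf (g : (X → ℝ) → ℝ) (a : X → ℝ) (r : X → ℝ≥0) (e : ℝ) : Prop := ∫ U, g U ∂(gm a r) ≤ e

/-- bounded and measurable -/
structure Bm (g : (X → ℝ) → ℝ) : Prop where
  meas : Measurable g
  bd : ∃ K : ℝ, 0 ≤ K ∧ ∀ U, |g U| ≤ K

theorem Bm.int {g : (X → ℝ) → ℝ} (h : Bm g) (μ : Measure (X → ℝ)) [IsFiniteMeasure μ] :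
    Integrable g μ := by
  obtain ⟨K, _, hK⟩ := h.bd
  refine Integrable.of_bound h.meas.aestronglyMeasurable K ?_
  filter_upwards with ζ
  rw [Real.norm_eq_abs]
  exact hK ζ

theorem gm_integral_shift {g : (X → ℝ) → ℝ} (hg : Bm g) (a ζ : X → ℝ) (q : X → ℝ≥0) :
    ∫ y, g y ∂(gm (fun x => a x + ζ x) q) = ∫ y, g (ζ + y) ∂(gm a q) := by
  rw [← gm_shift a ζ q, integral_map (by fun_prop) hg.meas.aestronglyMeasurable]

theorem gm_int_meas {g : (X → ℝ) → ℝ} (hg : Bm g) (a : X → ℝ) (q : X → ℝ≥0) :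
    Measurable (fun ζ : X → ℝ => ∫ y, g y ∂(gm (fun x => a x + ζ x) q)) := by
  have h : (fun ζ : X → ℝ => ∫ y, g y ∂(gm (fun x => a x + ζ x) q)) =
      fun ζ => ∫ y, g (ζ + y) ∂(gm a q) := by
    funext ζ
    exact gm_integral_shift hg a ζ q
  rw [h]
  have h2 : StronglyMeasurable (Function.uncurry fun ζ y : X → ℝ => g (ζ + y)) := by
    have h3 : Measurable (Function.uncurry fun ζ y : X → ℝ => g (ζ + y)) :=
      hg.meas.comp (by fun_prop)
    exact h3.stronglyMeasurable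
  exact h2.integral_prod_right.measurable

theorem gm_int_bd {g : (X → ℝ) → ℝ} {K : ℝ} (hK : ∀ U, |g U| ≤ K) (a : X → ℝ)
    (q : X → ℝ≥0) : |∫ y, g y ∂(gm a q)| ≤ K := by
  rw [← Real.norm_eq_abs]
  refine (norm_integral_le_of_norm_le_const (C := K) ?_).trans ?_
  · filter_upwards with ζ
    rw [Real.norm_eq_abs]
    exact hK ζ
  · simp

/-- the step identity -/
theorem gm_step_int {g : (X → ℝ) → ℝ} (hg : Bm g) (a : X → ℝ) (p q : X → ℝ≥0) :
    ∫ y, g y ∂(gm a (fun x => p x + q x)) =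
      ∫ ζ, (∫ y, g y ∂(gm (fun x => a x + ζ x) q)) ∂(gm (fun _ => 0) p) := by
  have h := gm_conv (fun _ : X => (0 : ℝ)) a p q
  have h1 : (fun x => (0 : ℝ) + a x) = a := by funext x; simp
  rw [h1] at h
  rw [← h]
  unfold Measure.conv
  rw [integral_map (by fun_prop) hg.meas.aestronglyMeasurable, integral_prod]
  · refine integral_congr_ae ?_
    filter_upwards with ζ
    exact (gm_integral_shift hg a ζ q).symm
  · obtain ⟨K, _, hK⟩ := hg.bd
    refine Integrable.of_bound ?_ K ?_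
    · exact (hg.meas.comp (by fun_prop)).aestronglyMeasurable
    · filter_upwards with ζ
      rw [Real.norm_eq_abs]
      exact hK _

theorem gm_step_int' {g : (X → ℝ) → ℝ} (hg : Bm g) (a : X → ℝ) (r τ : X → ℝ≥0)
    (hτ : ∀ x, τ x ≤ r x) :
    ∫ y, g y ∂(gm a r) =
      ∫ ζ, (∫ y, g y ∂(gm (fun x => a x + ζ x) (fun x => r x - τ x))) ∂(gm (fun _ => 0) τ) := by
  have h := gm_step_int hg a τ (fun x => r x - τ x)
  have h1 : (fun x => τ x + (r x - τ x)) = r := by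
    funext x; exact add_tsub_cancel_of_le (hτ x)
  rw [h1] at h
  exact h

theorem gm_int_int {g : (X → ℝ) → ℝ} (hg : Bm g) (a : X → ℝ) (q τ : X → ℝ≥0) :
    Integrable (fun ζ : X → ℝ => ∫ y, g y ∂(gm (fun x => a x + ζ x) q))
      (gm (fun _ => 0) τ) := by
  obtain ⟨K, _, hK⟩ := hg.bd
  refine Integrable.of_bound (gm_int_meas hg a q).aestronglyMeasurable K ?_
  filter_upwards with ζ
  rw [Real.norm_eq_abs]
  exact gm_int_bd hK _ _

theorem wf_mono {g : (X → ℝ) → ℝ} {a : X → ℝ} {r : X → ℝ≥0} {e e' : ℝ} (h : Wf g a r e)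
    (he : e ≤ e') : Wf g a r e' := le_trans h he

/-- `Wf` under one noise, with an exceptional set of small outer measure -/
theorem wf_step {g : (X → ℝ) → ℝ} (hg : Bm g) (a : X → ℝ) (r τ : X → ℝ≥0)
    (hτ : ∀ x, τ x ≤ r x) (R : Set (X → ℝ)) (p e₁ e₂ : ℝ) (he : e₁ ≤ e₂) (hp : 0 ≤ p)
    (hR : gm (fun _ => 0) τ R ≤ ENNReal.ofReal p)
    (h₁ : ∀ ζ : X → ℝ, (∀ x, τ x = 0 → ζ x = 0) → ζ ∉ R →
      Wf g (fun x => a x + ζ x) (fun x => r x - τ x) e₁)
    (h₂ : ∀ ζ : X → ℝ, (∀ x, τ x = 0 → ζ x = 0) →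
      Wf g (fun x => a x + ζ x) (fun x => r x - τ x) e₂) :
    Wf g a r (e₁ + p * (e₂ - e₁)) := by
  unfold Wf
  rw [gm_step_int' hg a r τ hτ]
  set μ := gm (fun _ : X => (0 : ℝ)) τ with hμ
  set e : (X → ℝ) → ℝ := fun ζ => ∫ y, g y ∂(gm (fun x => a x + ζ x) (fun x => r x - τ x))
    with hedef
  have hem : Measurable e := gm_int_meas hg a _
  set B : Set (X → ℝ) := {ζ | e₁ < e ζ} with hB
  have hBm : MeasurableSet B := measurableSet_lt measurable_const hem
  have h0 := gm_ae_zero τ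
  rw [← hμ] at h0
  have hBR : μ B ≤ μ R := by
    refine measure_mono_ae ?_
    filter_upwards [h0] with ζ hζ hζB
    by_contra hc
    exact absurd (h₁ ζ hζ hc) (not_le.mpr hζB)
  have hBp : μ.real B ≤ p := by
    unfold Measure.real
    exact ENNReal.toReal_le_of_le_ofReal hp (hBR.trans hR)
  have hle : e ≤ᵐ[μ] fun ζ => e₁ + B.indicator (fun _ => e₂ - e₁) ζ := by
    filter_upwards [h0] with ζ hζ
    by_cases hb : ζ ∈ B
    · rw [Set.indicator_of_mem hb]
      have := h₂ ζ hζ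
      unfold Wf at this
      simp only [hedef]
      linarith
    · rw [Set.indicator_of_notMem hb, add_zero]
      exact not_lt.mp hb
  have hint : Integrable (fun ζ => B.indicator (fun _ => e₂ - e₁) ζ) μ :=
    (integrable_const (e₂ - e₁)).indicator hBm
  calc ∫ ζ, e ζ ∂μ ≤ ∫ ζ, (e₁ + B.indicator (fun _ => e₂ - e₁) ζ) ∂μ :=
        integral_mono_ae (gm_int_int hg a _ τ) ((integrable_const e₁).add hint) hle
    _ = e₁ + μ.real B * (e₂ - e₁) := by
        rw [integral_add (integrable_const e₁) hint, integral_const, integral_indicator_const _ hBm]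
        simp
    _ ≤ e₁ + p * (e₂ - e₁) := by
        have := mul_le_mul_of_nonneg_right hBp (sub_nonneg.mpr he)
        linarith

/-- noise which is seen, never a test -/
theorem wf_noise {g : (X → ℝ) → ℝ} (hg : Bm g) (a : X → ℝ) (r τ : X → ℝ≥0)
    (hτ : ∀ x, τ x ≤ r x) (e : ℝ)
    (h : ∀ ζ : X → ℝ, (∀ x, τ x = 0 → ζ x = 0) →
      Wf g (fun x => a x + ζ x) (fun x => r x - τ x) e) :
    Wf g a r e := by
  have h1 := wf_step hg a r τ hτ ∅ 0 e e le_rfl le_rfl (by simp) (fun ζ hζ _ => h ζ hζ)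
    (fun ζ hζ => h ζ hζ)
  simpa using h1

end Pool.Agent.ANP.AC
end
end -- Pool.Agent.Helper16_AC.Wf

section -- Pool.Agent.Helper16_AC.Dens

/-! Comparison of Gaussian product measures. -/

set_option autoImplicit false

open MeasureTheory ProbabilityTheory

open scoped ENNReal NNReal BigOperators

noncomputable section

namespace Pool.Agent.ANP.AC

open Pool.Agent.ANP Pool.Agent.ANP.H16

/-- products of measures are monotone -/
theorem pi_le {ι : Type} [Fintype ι] {α : ι → Type} [∀ i, MeasurableSpace (α i)]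
    (μ ν : ∀ i, Measure (α i)) [∀ i, SigmaFinite (μ i)] [∀ i, SigmaFinite (ν i)]
    (c : ι → ℝ≥0∞) (hc0 : ∀ i, c i ≠ 0) (hc : ∀ i, c i ≠ ⊤) (h : ∀ i, μ i ≤ c i • ν i) :
    Measure.pi μ ≤ (∏ i, c i) • Measure.pi ν := by
  have hC0 : (∏ i, c i) ≠ 0 := Finset.prod_ne_zero_iff.2 fun i _ => hc0 i
  have hC : (∏ i, c i) ≠ ⊤ := ENNReal.prod_ne_top fun i _ => hc i
  have h1 : ((∏ i, c i)⁻¹ • Measure.pi μ).toOuterMeasure ≤
      OuterMeasure.pi fun i => (ν i).toOuterMeasure := by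
    rw [OuterMeasure.le_pi]
    intro s _
    have h2 : ((∏ i, c i)⁻¹ • Measure.pi μ).toOuterMeasure (Set.univ.pi s) =
        (∏ i, c i)⁻¹ * ∏ i, μ i (s i) := by
      show ((∏ i, c i)⁻¹ • Measure.pi μ) (Set.univ.pi s) = _
      rw [Measure.smul_apply, Measure.pi_pi, smul_eq_mul]
    rw [h2]
    have h3 : ∏ i, μ i (s i) ≤ (∏ i, c i) * ∏ i, ν i (s i) := by
      rw [← Finset.prod_mul_distrib]
      refine Finset.prod_le_prod' fun i _ => ?_
      have := h i (s i)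
      rwa [Measure.smul_apply, smul_eq_mul] at this
    calc (∏ i, c i)⁻¹ * ∏ i, μ i (s i) ≤ (∏ i, c i)⁻¹ * ((∏ i, c i) * ∏ i, ν i (s i)) := by
          gcongr
      _ = ∏ i, ν i (s i) := by
          rw [← mul_assoc, ENNReal.inv_mul_cancel hC0 hC, one_mul]
      _ = ∏ i, (ν i).toOuterMeasure (s i) := rfl
  refine Measure.le_iff.2 fun s hs => ?_
  have h2 : (∏ i, c i)⁻¹ * Measure.pi μ s ≤ Measure.pi ν s := by
    have h3 := h1 s
    have h4 : (OuterMeasure.pi fun i => (ν i).toOuterMeasure) s = Measure.pi ν s := by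
      rw [Measure.pi, toMeasure_apply _ _ hs]
    rw [h4] at h3
    exact h3
  rw [Measure.smul_apply, smul_eq_mul]
  calc Measure.pi μ s = (∏ i, c i) * ((∏ i, c i)⁻¹ * Measure.pi μ s) := by
        rw [← mul_assoc, ENNReal.mul_inv_cancel hC0 hC, one_mul]
    _ ≤ (∏ i, c i) * Measure.pi ν s := by gcongr

/-- a smaller variance -/
theorem gauss_le (r s : ℝ≥0) (hr : 0 < r) (hrs : r ≤ s) :
    gaussianReal 0 r ≤ ENNReal.ofReal (Real.sqrt (s / r)) • gaussianReal 0 s := by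
  have hs : 0 < s := lt_of_lt_of_le hr hrs
  have hr' : (0 : ℝ) < r := by exact_mod_cast hr
  have hs' : (0 : ℝ) < s := by exact_mod_cast hs
  have hrs' : (r : ℝ) ≤ s := by exact_mod_cast hrs
  rw [gaussianReal_of_var_ne_zero 0 hr.ne', gaussianReal_of_var_ne_zero 0 hs.ne',
    ← withDensity_smul _ (measurable_gaussianPDF 0 s)]
  refine withDensity_mono ?_
  filter_upwards with x
  show gaussianPDF 0 r x ≤ ENNReal.ofReal (Real.sqrt (s / r)) * gaussianPDF 0 s x
  unfold gaussianPDF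
  rw [← ENNReal.ofReal_mul (Real.sqrt_nonneg _)]
  refine ENNReal.ofReal_le_ofReal ?_
  unfold gaussianPDFReal
  have e1 : Real.exp (-(x - 0) ^ 2 / (2 * r)) ≤ Real.exp (-(x - 0) ^ 2 / (2 * s)) := by
    refine Real.exp_le_exp.2 ?_
    rw [neg_div, neg_div, neg_le_neg_iff]
    gcongr
  have e2 : (Real.sqrt (2 * Real.pi * r))⁻¹ =
      Real.sqrt (s / r) * (Real.sqrt (2 * Real.pi * s))⁻¹ := by
    rw [← Real.sqrt_inv, ← Real.sqrt_inv, ← Real.sqrt_mul (by positivity)]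
    congr 1
    field_simp
  rw [e2]
  have h0 : 0 ≤ Real.sqrt (s / r) * (Real.sqrt (2 * Real.pi * s))⁻¹ := by positivity
  calc Real.sqrt (s / r) * (Real.sqrt (2 * Real.pi * s))⁻¹ * Real.exp (-(x - 0) ^ 2 / (2 * r))
      ≤ Real.sqrt (s / r) * (Real.sqrt (2 * Real.pi * s))⁻¹ *
        Real.exp (-(x - 0) ^ 2 / (2 * s)) := mul_le_mul_of_nonneg_left e1 h0
    _ = Real.sqrt (s / r) * ((Real.sqrt (2 * Real.pi * s))⁻¹ *
        Real.exp (-(x - 0) ^ 2 / (2 * s))) := by ring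

variable {X : Type} [Fintype X]

/-- the noise of a kill with a smaller variance -/
theorem gm_le [DecidableEq X] (D : Finset X) (r s : X → ℝ≥0) (c : ℝ) (hc : 1 ≤ c)
    (h0 : ∀ x, x ∉ D → r x = 0 ∧ s x = 0)
    (h1 : ∀ x ∈ D, 0 < r x ∧ r x ≤ s x ∧ Real.sqrt ((s x : ℝ) / r x) ≤ c) :
    gm (fun _ => 0) r ≤ (ENNReal.ofReal c ^ D.card) • gm (fun _ => 0) s := by
  unfold gm
  have h := pi_le (fun x => gaussianReal 0 (r x)) (fun x => gaussianReal 0 (s x))
    (fun x => if x ∈ D then ENNReal.ofReal c else 1)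
    (fun x => by
      split_ifs
      · exact (ENNReal.ofReal_pos.2 (by linarith)).ne'
      · exact one_ne_zero)
    (fun x => by
      split_ifs
      · exact ENNReal.ofReal_ne_top
      · exact ENNReal.one_ne_top)
    (fun x => by
      by_cases hx : x ∈ D
      · rw [if_pos hx]
        obtain ⟨e1, e2, e3⟩ := h1 x hx
        refine (gauss_le (r x) (s x) e1 e2).trans ?_
        refine Measure.le_iff.2 fun A _ => ?_
        rw [Measure.smul_apply, Measure.smul_apply, smul_eq_mul, smul_eq_mul]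
        gcongr
      · rw [if_neg hx, (h0 x hx).1, (h0 x hx).2, one_smul])
  have h2 : (∏ x, if x ∈ D then ENNReal.ofReal c else (1 : ℝ≥0∞)) = ENNReal.ofReal c ^ D.card := by
    rw [Finset.prod_ite_mem, Finset.univ_inter, Finset.prod_const]
  rw [h2] at h
  exact h

end Pool.Agent.ANP.AC
end
end -- Pool.Agent.Helper16_AC.Dens

section -- Pool.Agent.Helper16_AC.Att

/-! From `Att` to `Wf`, the truth has the variance `s - f`. -/

set_option autoImplicit false

open MeasureTheory ProbabilityTheory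

open scoped ENNReal NNReal BigOperators

noncomputable section

namespace Pool.Agent.ANP.AC

open Pool.Agent.ANP Pool.Agent.ANP.H16

theorem ofReal_integral_le {α : Type} [MeasurableSpace α] {μ : Measure α} {f : α → ℝ}
    (hf : Integrable f μ) : ENNReal.ofReal (∫ x, f x ∂μ) ≤ ∫⁻ x, ENNReal.ofReal (f x) ∂μ := by
  rw [integral_eq_lintegral_pos_part_sub_lintegral_neg_part hf]
  have h1 : (∫⁻ x, ENNReal.ofReal (f x) ∂μ) ≠ ⊤ := by
    refine ne_top_of_le_ne_top hf.2.ne ?_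
    refine lintegral_mono fun x => ?_
    exact Real.ofReal_le_enorm (f x)
  calc ENNReal.ofReal ((∫⁻ x, ENNReal.ofReal (f x) ∂μ).toReal -
        (∫⁻ x, ENNReal.ofReal (-f x) ∂μ).toReal)
      ≤ ENNReal.ofReal ((∫⁻ x, ENNReal.ofReal (f x) ∂μ).toReal) := by
        refine ENNReal.ofReal_le_ofReal ?_
        have : 0 ≤ (∫⁻ x, ENNReal.ofReal (-f x) ∂μ).toReal := ENNReal.toReal_nonneg
        linarith
    _ = ∫⁻ x, ENNReal.ofReal (f x) ∂μ := ENNReal.ofReal_toReal h1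

variable {X : Type} [Fintype X] [DecidableEq X]

/-- the sites of `R` which are alive -/
def alv (R : Finset X) (T : Cfg X) : Finset X := {x ∈ R | T.s x ≠ 0}

/-- the noise which reveals `D` -/
def rvl (r : X → ℝ≥0) (D : Finset X) (x : X) : ℝ≥0 := if x ∈ D then r x else 0

theorem att_w (R Q : Finset X) (v : X → ℝ) (Ok : Cfg X → Prop) {g : (X → ℝ) → ℝ}
    (hg : Bm g) (e₁ e₂ : ℝ) (he : e₁ ≤ e₂) (c : ℝ) (hc : 1 ≤ c)
    (P : Cfg X → (X → ℝ) → (X → ℝ≥0) → Prop)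
    (hle : ∀ T a r, P T a r → ∀ x ∈ R, 0 < T.s x →
      0 < r x ∧ r x ≤ T.s x ∧ Real.sqrt ((T.s x : ℝ) / r x) ≤ c)
    (hap : ∀ T a r b, b ∈ Q → P T a r → P (T.rv {b} v) a r)
    (hkl : ∀ T a r (D : Finset X) (ζ : X → ℝ), D ⊆ R → (∀ x ∈ D, 0 < T.s x) →
      (∀ x, x ∉ D → ζ x = 0) → P T a r →
      P (T.kl D ζ) (fun x => a x + ζ x) (fun x => r x - rvl r D x))
    (h₁ : ∀ T a r, Ok T → P T a r → Wf g a r e₁)
    (h₂ : ∀ T a r, P T a r → Wf g a r e₂)
    (T : Cfg X) (q : ℝ≥0∞) (h : Att R Q v Ok T q) :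
    ∀ (a : X → ℝ) (r : X → ℝ≥0), P T a r →
      ENNReal.ofReal ((∫ U, g U ∂(gm a r)) - e₁) ≤
        ENNReal.ofReal c ^ (alv R T).card * q * ENNReal.ofReal (e₂ - e₁) := by
  have hc1 : (1 : ℝ≥0∞) ≤ ENNReal.ofReal c := by
    rw [← ENNReal.ofReal_one]
    exact ENNReal.ofReal_le_ofReal hc
  induction h with
  | ok T hT =>
    intro a r hP
    have := h₁ T a r hT hP
    unfold Wf at this
    rw [ENNReal.ofReal_of_nonpos (by linarith)]
    exact zero_le
  | one T =>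
    intro a r hP
    have := h₂ T a r hP
    unfold Wf at this
    rw [mul_one]
    calc ENNReal.ofReal ((∫ U, g U ∂(gm a r)) - e₁) ≤ ENNReal.ofReal (e₂ - e₁) :=
          ENNReal.ofReal_le_ofReal (by linarith)
      _ = 1 * ENNReal.ofReal (e₂ - e₁) := (one_mul _).symm
      _ ≤ ENNReal.ofReal c ^ (alv R T).card * ENNReal.ofReal (e₂ - e₁) := by
          gcongr
          exact one_le_pow₀ hc1
  | mono T q q' hq _ ih =>
    intro a r hP
    refine (ih a r hP).trans ?_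
    gcongr
  | ap T b q hb _ ih =>
    intro a r hP
    refine (ih a r (hap T a r b hb hP)).trans ?_
    have h3 : (alv R (T.rv {b} v)).card ≤ (alv R T).card := by
      refine Finset.card_le_card fun x hx => ?_
      unfold alv Cfg.rv at hx
      unfold alv
      rw [Finset.mem_filter] at hx ⊢
      refine ⟨hx.1, fun h => hx.2 ?_⟩
      simp only
      split_ifs
      · rfl
      · exact h
    gcongr
  | kill T D q hD hs hq _ ih =>
    intro a r hP
    have hτ : ∀ x, rvl r D x ≤ r x := by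
      intro x
      unfold rvl
      split_ifs
      · exact le_rfl
      · exact zero_le
    set μ := gm (fun _ : X => (0 : ℝ)) (rvl r D) with hμ
    have h0 := gm_ae_zero (rvl r D)
    have h4 : (∫ U, g U ∂(gm a r)) - e₁ = ∫ ζ, ((∫ y, g y
        ∂(gm (fun x => a x + ζ x) (fun x => r x - rvl r D x))) - e₁) ∂μ := by
      rw [gm_step_int' hg a r (rvl r D) hτ, integral_sub (gm_int_int hg a _ _)
        (integrable_const e₁), integral_const]
      simp
    rw [h4]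
    have hi : Integrable (fun ζ => ((∫ y, g y
        ∂(gm (fun x => a x + ζ x) (fun x => r x - rvl r D x))) - e₁)) μ :=
      (gm_int_int hg a _ _).sub (integrable_const e₁)
    refine (ofReal_integral_le hi).trans ?_
    have hcard : ∀ ζ : X → ℝ, (alv R (T.kl D ζ)).card + D.card = (alv R T).card := by
      intro ζ
      have e1 : alv R (T.kl D ζ) = alv R T \ D := by
        ext x
        unfold alv Cfg.kl
        rw [Finset.mem_filter, Finset.mem_sdiff, Finset.mem_filter]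
        by_cases hx : x ∈ D
        · simp [hx]
        · simp [hx]
      have e2 : D ⊆ alv R T := by
        intro x hx
        unfold alv
        rw [Finset.mem_filter]
        exact ⟨hD hx, (hs x hx).ne'⟩
      rw [e1, Finset.card_sdiff_add_card_eq_card e2]
    have h5 : ∀ᵐ ζ ∂μ, ENNReal.ofReal ((∫ y, g y
        ∂(gm (fun x => a x + ζ x) (fun x => r x - rvl r D x))) - e₁) ≤
        ENNReal.ofReal c ^ ((alv R T).card - D.card) * q ζ * ENNReal.ofReal (e₂ - e₁) := by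
      filter_upwards [h0] with ζ hζ
      have hζ' : ∀ x, x ∉ D → ζ x = 0 := fun x hx => hζ x (by unfold rvl; rw [if_neg hx])
      have h6 := ih ζ _ _ (hkl T a r D ζ hD hs hζ' hP)
      have h7 : (alv R (T.kl D ζ)).card = (alv R T).card - D.card := by
        have := hcard ζ
        omega
      rw [h7] at h6
      exact h6
    have hle' : D.card ≤ (alv R T).card := by
      have := hcard (fun _ => 0)
      omega
    have h8 : μ ≤ (ENNReal.ofReal c ^ D.card) • gm (fun _ => 0) (T.kv D) := by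
      rw [hμ]
      refine gm_le D (rvl r D) (T.kv D) c hc (fun x hx => ?_) (fun x hx => ?_)
      · unfold rvl Cfg.kv
        rw [if_neg hx, if_neg hx]
        exact ⟨rfl, rfl⟩
      · unfold rvl Cfg.kv
        rw [if_pos hx, if_pos hx]
        exact hle T a r hP x (hD hx) (hs x hx)
    calc ∫⁻ ζ, ENNReal.ofReal ((∫ y, g y
          ∂(gm (fun x => a x + ζ x) (fun x => r x - rvl r D x))) - e₁) ∂μ
        ≤ ∫⁻ ζ, ENNReal.ofReal c ^ ((alv R T).card - D.card) * q ζ *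
            ENNReal.ofReal (e₂ - e₁) ∂μ := lintegral_mono_ae h5
      _ = ENNReal.ofReal c ^ ((alv R T).card - D.card) * (∫⁻ ζ, q ζ ∂μ) *
            ENNReal.ofReal (e₂ - e₁) := by
          rw [lintegral_mul_const _ (hq.const_mul _), lintegral_const_mul _ hq]
      _ ≤ ENNReal.ofReal c ^ ((alv R T).card - D.card) *
            (ENNReal.ofReal c ^ D.card * ∫⁻ ζ, q ζ ∂(gm (fun _ => 0) (T.kv D))) *
            ENNReal.ofReal (e₂ - e₁) := by
          gcongr
          refine (lintegral_mono' h8 le_rfl).trans ?_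
          rw [lintegral_smul_measure, smul_eq_mul]
      _ = ENNReal.ofReal c ^ (alv R T).card * (∫⁻ ζ, q ζ ∂(gm (fun _ => 0) (T.kv D))) *
            ENNReal.ofReal (e₂ - e₁) := by
          rw [← mul_assoc, ← pow_add, Nat.sub_add_cancel hle']

theorem att_real (R Q : Finset X) (v : X → ℝ) (Ok : Cfg X → Prop) {g : (X → ℝ) → ℝ}
    (hg : Bm g) (e₁ e₂ : ℝ) (he : e₁ ≤ e₂) (c : ℝ) (hc : 1 ≤ c) (hc2 : c ^ R.card ≤ 2)
    (P : Cfg X → (X → ℝ) → (X → ℝ≥0) → Prop)
    (hle : ∀ T a r, P T a r → ∀ x ∈ R, 0 < T.s x →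
      0 < r x ∧ r x ≤ T.s x ∧ Real.sqrt ((T.s x : ℝ) / r x) ≤ c)
    (hap : ∀ T a r b, b ∈ Q → P T a r → P (T.rv {b} v) a r)
    (hkl : ∀ T a r (D : Finset X) (ζ : X → ℝ), D ⊆ R → (∀ x ∈ D, 0 < T.s x) →
      (∀ x, x ∉ D → ζ x = 0) → P T a r →
      P (T.kl D ζ) (fun x => a x + ζ x) (fun x => r x - rvl r D x))
    (h₁ : ∀ T a r, Ok T → P T a r → Wf g a r e₁)
    (h₂ : ∀ T a r, P T a r → Wf g a r e₂)
    (T : Cfg X) (p : ℝ) (hp : 0 ≤ p) (h : Att R Q v Ok T (ENNReal.ofReal p))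
    (a : X → ℝ) (r : X → ℝ≥0) (hP : P T a r) : Wf g a r (e₁ + 2 * p * (e₂ - e₁)) := by
  have h3 := att_w R Q v Ok hg e₁ e₂ he c hc P hle hap hkl h₁ h₂ T _ h a r hP
  have hc0 : 0 ≤ c := by linarith
  have h4 : ENNReal.ofReal c ^ (alv R T).card * ENNReal.ofReal p * ENNReal.ofReal (e₂ - e₁) =
      ENNReal.ofReal (c ^ (alv R T).card * p * (e₂ - e₁)) := by
    rw [ENNReal.ofReal_mul (by positivity), ENNReal.ofReal_mul (by positivity),
      ENNReal.ofReal_pow hc0]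
  rw [h4] at h3
  have h5 : c ^ (alv R T).card ≤ 2 := by
    refine le_trans (pow_le_pow_right₀ hc (Finset.card_le_card (Finset.filter_subset _ _))) hc2
  have h6 : 0 ≤ p * (e₂ - e₁) := mul_nonneg hp (sub_nonneg.2 he)
  have h7 : c ^ (alv R T).card * p * (e₂ - e₁) ≤ 2 * p * (e₂ - e₁) := by
    rw [mul_assoc, mul_assoc]
    exact mul_le_mul_of_nonneg_right h5 h6
  have h8 : 0 ≤ c ^ (alv R T).card * p * (e₂ - e₁) := by
    rw [mul_assoc]
    exact mul_nonneg (pow_nonneg hc0 _) h6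
  unfold Wf
  have h9 := (ENNReal.ofReal_le_ofReal_iff h8).1 h3
  linarith

/-- AN ATTEMPT. The truth on `R` has the variance `s - f`. -/
theorem atf {g : (X → ℝ) → ℝ} (hg : Bm g) (R Q : Finset X) (Ok : (X → ℝ) → Cfg X → Prop)
    (T : Cfg X) (a : X → ℝ) (r : X → ℝ≥0) (f : ℝ≥0) (c p e₁ e₂ : ℝ) (hc : 1 ≤ c)
    (hc2 : c ^ R.card ≤ 2) (hRQ : Disjoint R Q) (hp : 0 ≤ p) (he : e₁ ≤ e₂)
    (hR : ∀ x ∈ R, a x = T.V x ∧ r x = T.s x - f)
    (hf : ∀ x ∈ R, f < T.s x ∧ Real.sqrt ((T.s x : ℝ) / ((T.s x - f : ℝ≥0) : ℝ)) ≤ c)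
    (hAtt : ∀ v, Att R Q v (Ok v) T (ENNReal.ofReal p))
    (h₁ : ∀ v T' a' r', Ok v T' → T'.mb = T.mb → (∀ x ∈ R, a' x = T'.V x ∧ r' x = T'.s x - f) →
      (∀ x ∈ R, T'.s x = 0 ∨ T'.V x = T.V x ∧ T'.s x = T.s x) →
      (∀ x ∈ Q, a' x = v x ∧ r' x = 0) →
      (∀ x, x ∉ Q → x ∉ R → a' x = a x ∧ r' x = r x ∧ T'.V x = T.V x ∧ T'.s x = T.s x) →
      Wf g a' r' e₁)
    (h₂ : ∀ a' r', (∀ x, x ∉ Q → x ∉ R → a' x = a x ∧ r' x = r x) → Wf g a' r' e₂) :
    Wf g a r (e₁ + 2 * p * (e₂ - e₁)) := by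
  -- reveal `Q`
  refine wf_noise hg a r (fun x => if x ∈ Q then r x else 0) ?_ _ ?_
  · intro x
    split_ifs
    · exact le_rfl
    · exact zero_le
  intro ζ hζ
  set v : X → ℝ := fun x => a x + ζ x with hv
  have hζQ : ∀ x, x ∉ Q → ζ x = 0 := by
    intro x hx
    refine hζ x ?_
    rw [if_neg hx]
  have hQR : ∀ x, x ∈ R → x ∉ Q := fun x hx hq => Finset.disjoint_left.mp hRQ hx hq
  refine att_real R Q v (Ok v) hg e₁ e₂ he c hc hc2
    (fun T' a' r' => T'.mb = T.mb ∧ (∀ x ∈ R, a' x = T'.V x ∧ r' x = T'.s x - f) ∧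
      (∀ x ∈ R, T'.s x = 0 ∨ T'.V x = T.V x ∧ T'.s x = T.s x) ∧
      (∀ x ∈ Q, a' x = v x ∧ r' x = 0) ∧
      (∀ x, x ∉ Q → x ∉ R → a' x = a x ∧ r' x = r x ∧ T'.V x = T.V x ∧ T'.s x = T.s x))
    ?_ ?_ ?_ ?_ ?_ T p hp (hAtt v) _ _ ?_
  · intro T' a' r' hP x hx hs
    rcases hP.2.2.1 x hx with h | h
    · exact absurd h hs.ne'
    · rw [(hP.2.1 x hx).2, h.2]
      exact ⟨tsub_pos_of_lt (hf x hx).1, tsub_le_self, (hf x hx).2⟩
  · intro T' a' r' b hb ⟨p1, p2, p3, p4, p5⟩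
    have hbR : b ∉ R := fun h => hQR b h hb
    have hV : ∀ x, x ≠ b → (T'.rv {b} v).V x = T'.V x := fun x hx => by
      show (if x ∈ ({b} : Finset X) then v x else T'.V x) = _
      rw [if_neg (by simpa using hx)]
    have hs : ∀ x, x ≠ b → (T'.rv {b} v).s x = T'.s x := fun x hx => by
      show (if x ∈ ({b} : Finset X) then 0 else T'.s x) = _
      rw [if_neg (by simpa using hx)]
    have hne : ∀ x, x ∈ R → x ≠ b := fun x hx h => hbR (h ▸ hx)
    have hne2 : ∀ x, x ∉ Q → x ≠ b := fun x hx h => hx (h ▸ hb)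
    refine ⟨p1, fun x hx => ?_, fun x hx => ?_, p4, fun x hx hx2 => ?_⟩
    · rw [hV x (hne x hx), hs x (hne x hx)]; exact p2 x hx
    · rw [hV x (hne x hx), hs x (hne x hx)]; exact p3 x hx
    · rw [hV x (hne2 x hx), hs x (hne2 x hx)]; exact p5 x hx hx2
  · intro T' a' r' D ξ hD _ hξ ⟨p1, p2, p3, p4, p5⟩
    have hV : ∀ x, x ∉ D → (T'.kl D ξ).V x = T'.V x := fun x hx => by
      show (if x ∈ D then T'.V x + ξ x else T'.V x) = _
      rw [if_neg hx]
    have hs : ∀ x, x ∉ D → (T'.kl D ξ).s x = T'.s x := fun x hx => by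
      show (if x ∈ D then 0 else T'.s x) = _
      rw [if_neg hx]
    have hV2 : ∀ x, x ∈ D → (T'.kl D ξ).V x = T'.V x + ξ x := fun x hx => by
      show (if x ∈ D then T'.V x + ξ x else T'.V x) = _
      rw [if_pos hx]
    have hs2 : ∀ x, x ∈ D → (T'.kl D ξ).s x = 0 := fun x hx => by
      show (if x ∈ D then 0 else T'.s x) = _
      rw [if_pos hx]
    have hk : ∀ x, x ∉ D → rvl r' D x = 0 := fun x hx => by
      unfold rvl; rw [if_neg hx]
    have hk2 : ∀ x, x ∈ D → rvl r' D x = r' x := fun x hx => by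
      unfold rvl; rw [if_pos hx]
    refine ⟨p1, fun x hx => ?_, fun x hx => ?_, fun x hx => ?_, fun x hx hx2 => ?_⟩ <;> beta_reduce
    · by_cases hd : x ∈ D
      · rw [hV2 x hd, hs2 x hd, hk2 x hd, (p2 x hx).1]
        exact ⟨rfl, by rw [tsub_self, zero_tsub]⟩
      · rw [hV x hd, hs x hd, hk x hd, hξ x hd, add_zero, tsub_zero]
        exact p2 x hx
    · by_cases hd : x ∈ D
      · exact Or.inl (hs2 x hd)
      · rw [hV x hd, hs x hd]; exact p3 x hx
    · have hd : x ∉ D := fun h => hQR x (hD h) hx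
      rw [hk x hd, hξ x hd, add_zero, tsub_zero]
      exact p4 x hx
    · have hd : x ∉ D := fun h => hx2 (hD h)
      rw [hV x hd, hs x hd, hk x hd, hξ x hd, add_zero, tsub_zero]
      exact p5 x hx hx2
  · intro T' a' r' hOk ⟨p1, p2, p3, p4, p5⟩
    exact h₁ v T' a' r' hOk p1 p2 p3 p4 p5
  · intro T' a' r' ⟨_, _, _, _, p5⟩
    exact h₂ a' r' fun x hx hx2 => ⟨(p5 x hx hx2).1, (p5 x hx hx2).2.1⟩
  · refine ⟨rfl, fun x hx => ?_, fun x hx => Or.inr ⟨rfl, rfl⟩, fun x hx => ?_, fun x hx hx2 => ?_⟩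
    · have hq := hQR x hx
      show a x + ζ x = _ ∧ r x - (if x ∈ Q then r x else 0) = _
      rw [if_neg hq, hζQ x hq, add_zero, tsub_zero]
      exact hR x hx
    · refine ⟨rfl, ?_⟩
      show r x - (if x ∈ Q then r x else 0) = 0
      rw [if_pos hx]
      exact tsub_self _
    · refine ⟨?_, ?_, rfl, rfl⟩
      · show a x + ζ x = a x
        rw [hζQ x hx, add_zero]
      · show r x - (if x ∈ Q then r x else 0) = r x
        rw [if_neg hx, tsub_zero]

end Pool.Agent.ANP.AC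
end
end -- Pool.Agent.Helper16_AC.Att

section -- Pool.Agent.Helper16_ANP.PhiB

/-! The multilinear function of the coins. -/

set_option autoImplicit false

open MeasureTheory ProbabilityTheory

open scoped ENNReal NNReal BigOperators

noncomputable section

namespace Pool.Agent.ANP.H16

variable {I : Type} [DecidableEq I]

theorem phi_insert (U : Finset I) (i : I) (hi : i ∉ U) (fail : Finset I → Prop) (x : I → ℝ) :
    Phi (insert i U) fail x =
      (1 - x i) * Phi U fail x + x i * Phi U (fun ω => fail (insert i ω)) x := by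
  classical
  unfold Phi
  rw [Finset.sum_powerset_insert hi, Finset.mul_sum, Finset.mul_sum]
  congr 1
  · refine Finset.sum_congr rfl fun ω hω => ?_
    have hiω : i ∉ ω := fun h => hi (Finset.mem_powerset.mp hω h)
    have h1 : insert i U \ ω = insert i (U \ ω) := Finset.insert_sdiff_of_notMem U hiω
    have h2 : i ∉ U \ ω := fun h => hi (Finset.mem_sdiff.mp h).1
    rw [h1, Finset.prod_insert h2]
    ring
  · refine Finset.sum_congr rfl fun ω hω => ?_
    have hiω : i ∉ ω := fun h => hi (Finset.mem_powerset.mp hω h)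
    have h1 : insert i U \ insert i ω = U \ ω := by
      ext j
      simp only [Finset.mem_sdiff, Finset.mem_insert, not_or]
      constructor
      · rintro ⟨h | h, hj, hj2⟩
        · exact absurd h hj
        · exact ⟨h, hj2⟩
      · rintro ⟨h, hj2⟩
        exact ⟨Or.inr h, fun h3 => hi (h3 ▸ h), hj2⟩
    rw [h1, Finset.prod_insert hiω]
    ring

theorem phi_congr (U : Finset I) (fail fail' : Finset I → Prop) (x y : I → ℝ)
    (hxy : ∀ i ∈ U, x i = y i) (hf : ∀ ω, ω ⊆ U → (fail ω ↔ fail' ω)) :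
    Phi U fail x = Phi U fail' y := by
  classical
  unfold Phi
  refine Finset.sum_congr rfl fun ω hω => ?_
  have hωU := Finset.mem_powerset.mp hω
  rw [Finset.prod_congr rfl fun i hi => hxy i (hωU hi),
    Finset.prod_congr rfl fun i hi => show 1 - x i = 1 - y i by
      rw [hxy i (Finset.mem_sdiff.mp hi).1]]
  simp only [hf ω hωU]

theorem phi_mono_fail (U : Finset I) (fail fail' : Finset I → Prop) (x : I → ℝ)
    (hx : ∀ i ∈ U, 0 ≤ x i ∧ x i ≤ 1) (hf : ∀ ω, ω ⊆ U → fail ω → fail' ω) :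
    Phi U fail x ≤ Phi U fail' x := by
  classical
  unfold Phi
  refine Finset.sum_le_sum fun ω hω => ?_
  have hωU := Finset.mem_powerset.mp hω
  have hw : 0 ≤ (∏ i ∈ ω, x i) * ∏ i ∈ U \ ω, (1 - x i) :=
    mul_nonneg (Finset.prod_nonneg fun i hi => (hx i (hωU hi)).1)
      (Finset.prod_nonneg fun i hi => sub_nonneg.mpr (hx i (Finset.mem_sdiff.mp hi).1).2)
  refine mul_le_mul_of_nonneg_left ?_ hw
  by_cases h : fail ω
  · rw [if_pos h, if_pos (hf ω hωU h)]
  · rw [if_neg h]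
    split_ifs <;> norm_num

theorem phi_true (U : Finset I) (x : I → ℝ) : Phi U (fun _ => True) x = 1 := by
  classical
  unfold Phi
  simp only [if_true, mul_one]
  have h := Finset.prod_add (fun i => x i) (fun i => 1 - x i) U
  rw [← h]
  simp

theorem phi_nonneg (U : Finset I) (fail : Finset I → Prop) (x : I → ℝ)
    (hx : ∀ i ∈ U, 0 ≤ x i ∧ x i ≤ 1) : 0 ≤ Phi U fail x := by
  classical
  unfold Phi
  refine Finset.sum_nonneg fun ω hω => ?_
  have hωU := Finset.mem_powerset.mp hω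
  refine mul_nonneg (mul_nonneg (Finset.prod_nonneg fun i hi => (hx i (hωU hi)).1)
      (Finset.prod_nonneg fun i hi => sub_nonneg.mpr (hx i (Finset.mem_sdiff.mp hi).1).2)) ?_
  split_ifs <;> norm_num

theorem phi_le_one (U : Finset I) (fail : Finset I → Prop) (x : I → ℝ)
    (hx : ∀ i ∈ U, 0 ≤ x i ∧ x i ≤ 1) : Phi U fail x ≤ 1 := by
  rw [← phi_true U x]
  exact phi_mono_fail U fail _ x hx fun _ _ _ => trivial

/-- the two coefficients of a coin -/
theorem phi_update (U : Finset I) (i : I) (hi : i ∈ U) (fail : Finset I → Prop) (x : I → ℝ) (t : ℝ) :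
    Phi U fail (Function.update x i t) =
      (1 - t) * Phi (U.erase i) fail x +
        t * Phi (U.erase i) (fun ω => fail (insert i ω)) x := by
  have h := phi_insert (U.erase i) i (Finset.notMem_erase i U) fail (Function.update x i t)
  rw [Finset.insert_erase hi, Function.update_self] at h
  rw [h]
  have hc : ∀ j ∈ U.erase i, Function.update x i t j = x j := fun j hj => by
    rw [Function.update_of_ne (Finset.ne_of_mem_erase hj)]
  rw [phi_congr (U.erase i) fail fail _ x hc fun _ _ => Iff.rfl,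
    phi_congr (U.erase i) (fun ω => fail (insert i ω)) (fun ω => fail (insert i ω)) _ x hc
      fun _ _ => Iff.rfl]

theorem phi_update_notMem (U : Finset I) (i : I) (hi : i ∉ U) (fail : Finset I → Prop) (x : I → ℝ)
    (t : ℝ) : Phi U fail (Function.update x i t) = Phi U fail x := by
  refine phi_congr U fail fail _ x (fun j hj => ?_) fun _ _ => Iff.rfl
  rw [Function.update_of_ne]
  rintro rfl
  exact hi hj

/-- affine in each coin -/
theorem phi_affine (U : Finset I) (i : I) (fail : Finset I → Prop) (x : I → ℝ) (t : ℝ) :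
    Phi U fail (Function.update x i t) =
      (1 - t) * Phi U fail (Function.update x i 0) + t * Phi U fail (Function.update x i 1) := by
  by_cases hi : i ∈ U
  · rw [phi_update U i hi, phi_update U i hi, phi_update U i hi]
    ring
  · rw [phi_update_notMem U i hi, phi_update_notMem U i hi, phi_update_notMem U i hi]
    ring

theorem phi_coef (U : Finset I) (i : I) (fail : Finset I → Prop) (hM : Mon fail) (x : I → ℝ)
    (hx : ∀ j ∈ U, 0 ≤ x j ∧ x j ≤ 1) :
    Phi (U.erase i) fail x ≤ Phi (U.erase i) (fun ω => fail (insert i ω)) x := by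
  refine phi_mono_fail _ _ _ x (fun j hj => hx j (Finset.mem_of_mem_erase hj)) fun ω _ h => ?_
  exact hM ω (insert i ω) (Finset.subset_insert i ω) h

/-- increasing in one coin -/
theorem phi_update_mono (U : Finset I) (i : I) (fail : Finset I → Prop) (hM : Mon fail) (x : I → ℝ)
    (hx : ∀ j ∈ U, 0 ≤ x j ∧ x j ≤ 1) (s t : ℝ) (hst : s ≤ t) :
    Phi U fail (Function.update x i s) ≤ Phi U fail (Function.update x i t) := by
  by_cases hi : i ∈ U
  · rw [phi_update U i hi, phi_update U i hi]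
    have := phi_coef U i fail hM x hx
    nlinarith
  · rw [phi_update_notMem U i hi, phi_update_notMem U i hi]

/-- increasing in all the coins -/
theorem phi_mono (U : Finset I) (fail : Finset I → Prop) (hM : Mon fail) (x y : I → ℝ)
    (hx : ∀ j ∈ U, 0 ≤ x j ∧ x j ≤ 1) (hy : ∀ j ∈ U, 0 ≤ y j ∧ y j ≤ 1)
    (hxy : ∀ j ∈ U, x j ≤ y j) : Phi U fail x ≤ Phi U fail y := by
  induction U using Finset.induction_on generalizing fail with
  | empty =>
    refine le_of_eq (phi_congr ∅ fail fail x y (fun i hi => ?_) fun _ _ => Iff.rfl)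
    exact absurd hi (Finset.notMem_empty i)
  | insert i U hi ih =>
    rw [phi_insert U i hi, phi_insert U i hi]
    have hx' : ∀ j ∈ U, 0 ≤ x j ∧ x j ≤ 1 := fun j hj => hx j (Finset.mem_insert_of_mem hj)
    have hy' : ∀ j ∈ U, 0 ≤ y j ∧ y j ≤ 1 := fun j hj => hy j (Finset.mem_insert_of_mem hj)
    have hxy' : ∀ j ∈ U, x j ≤ y j := fun j hj => hxy j (Finset.mem_insert_of_mem hj)
    have h1 := ih fail hM hx' hy' hxy'
    have hM2 : Mon (fun ω => fail (insert i ω)) := fun ω ω' h hf =>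
      hM _ _ (Finset.insert_subset_insert i h) hf
    have h2 := ih (fun ω => fail (insert i ω)) hM2 hx' hy' hxy'
    have h3 : Phi U fail y ≤ Phi U (fun ω => fail (insert i ω)) y :=
      phi_mono_fail _ _ _ y hy' fun ω _ h => hM ω (insert i ω) (Finset.subset_insert i ω) h
    obtain ⟨hx0, hx1⟩ := hx i (Finset.mem_insert_self i U)
    obtain ⟨hy0, hy1⟩ := hy i (Finset.mem_insert_self i U)
    have hxyi := hxy i (Finset.mem_insert_self i U)
    nlinarith [mul_le_mul_of_nonneg_left h1 (sub_nonneg.mpr hx1),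
      mul_le_mul_of_nonneg_left h2 hx0, mul_nonneg (sub_nonneg.mpr hxyi) (sub_nonneg.mpr h3)]

end Pool.Agent.ANP.H16
end
end -- Pool.Agent.Helper16_ANP.PhiB

section -- Pool.Agent.Helper16_ANP.AttB

/-! From `Att` to `Win`: the generic form. -/

set_option autoImplicit false

open MeasureTheory ProbabilityTheory

open scoped ENNReal NNReal BigOperators

noncomputable section

namespace Pool.Agent.ANP.H16

variable {X : Type} [Fintype X] [DecidableEq X]

theorem kv_le (T : Cfg X) (R D : Finset X) (hD : D ⊆ R) (r : X → ℝ≥0) (h : ∀ x ∈ R, T.s x ≤ r x) :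
    ∀ x, T.kv D x ≤ r x := by
  intro x
  unfold Cfg.kv
  split_ifs with hx
  · exact h x (hD hx)
  · exact zero_le

theorem kv_supp (T : Cfg X) (D : Finset X) (ζ : X → ℝ) (h : ∀ x, T.kv D x = 0 → ζ x = 0) :
    ∀ x, x ∉ D → ζ x = 0 := by
  intro x hx
  refine h x ?_
  unfold Cfg.kv
  rw [if_neg hx]

/-- `P T a r`: the relation between the configuration and the truth (noise seen, unseen variance). -/
theorem att_gen (R Q : Finset X) (v : X → ℝ) (Ok : Cfg X → Prop) (F : Set (X → ℝ))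
    (hF : MeasurableSet F) (e₁ e₂ : ℝ) (he₁ : 0 ≤ e₁) (he : e₁ ≤ e₂)
    (P : Cfg X → (X → ℝ) → (X → ℝ≥0) → Prop)
    (hle : ∀ T a r, P T a r → ∀ x ∈ R, T.s x ≤ r x)
    (hap : ∀ T a r b, b ∈ Q → P T a r → P (T.rv {b} v) a r)
    (hkl : ∀ T a r (D : Finset X) (ζ : X → ℝ), D ⊆ R → (∀ x ∈ D, 0 < T.s x) →
      (∀ x, x ∉ D → ζ x = 0) → P T a r →
      P (T.kl D ζ) (fun x => a x + ζ x) (fun x => r x - T.kv D x))
    (h₁ : ∀ T a r, Ok T → P T a r → Win F a r e₁)
    (h₂ : ∀ T a r, P T a r → Win F a r e₂)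
    (T : Cfg X) (q : ℝ≥0∞) (h : Att R Q v Ok T q) :
    ∀ (a : X → ℝ) (r : X → ℝ≥0), P T a r →
      gm a r F ≤ ENNReal.ofReal e₁ + q * ENNReal.ofReal (e₂ - e₁) := by
  induction h with
  | ok T hT =>
    intro a r hP
    rw [zero_mul, add_zero]
    have := h₁ T a r hT hP
    unfold Win Measure.real at this
    rw [← ENNReal.ofReal_toReal (measure_ne_top (gm a r) F)]
    exact ENNReal.ofReal_le_ofReal this
  | one T =>
    intro a r hP
    rw [one_mul, ← ENNReal.ofReal_add he₁ (sub_nonneg.mpr he)]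
    have := h₂ T a r hP
    unfold Win Measure.real at this
    rw [← ENNReal.ofReal_toReal (measure_ne_top (gm a r) F)]
    exact ENNReal.ofReal_le_ofReal (by linarith)
  | mono T q q' hq _ ih =>
    intro a r hP
    refine (ih a r hP).trans ?_
    gcongr
  | ap T b q hb _ ih =>
    intro a r hP
    exact ih a r (hap T a r b hb hP)
  | kill T D q hD hs hq _ ih =>
    intro a r hP
    rw [gm_step' a r (T.kv D) (kv_le T R D hD r (hle T a r hP)) F hF]
    have h0 := gm_ae_zero (T.kv D)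
    calc ∫⁻ ζ, gm (fun x => a x + ζ x) (fun x => r x - T.kv D x) F ∂(gm (fun _ => 0) (T.kv D))
        ≤ ∫⁻ ζ, (ENNReal.ofReal e₁ + q ζ * ENNReal.ofReal (e₂ - e₁))
            ∂(gm (fun _ => 0) (T.kv D)) := by
          refine lintegral_mono_ae ?_
          filter_upwards [h0] with ζ hζ
          exact ih ζ _ _ (hkl T a r D ζ hD hs (kv_supp T D ζ hζ) hP)
      _ = ENNReal.ofReal e₁ +
            (∫⁻ ζ, q ζ ∂(gm (fun _ => 0) (T.kv D))) * ENNReal.ofReal (e₂ - e₁) := by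
          rw [lintegral_add_left measurable_const, lintegral_mul_const _ hq, lintegral_const,
            measure_univ, mul_one]

theorem att_gen_real (R Q : Finset X) (v : X → ℝ) (Ok : Cfg X → Prop) (F : Set (X → ℝ))
    (hF : MeasurableSet F) (e₁ e₂ : ℝ) (he₁ : 0 ≤ e₁) (he : e₁ ≤ e₂)
    (P : Cfg X → (X → ℝ) → (X → ℝ≥0) → Prop)
    (hle : ∀ T a r, P T a r → ∀ x ∈ R, T.s x ≤ r x)
    (hap : ∀ T a r b, b ∈ Q → P T a r → P (T.rv {b} v) a r)
    (hkl : ∀ T a r (D : Finset X) (ζ : X → ℝ), D ⊆ R → (∀ x ∈ D, 0 < T.s x) →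
      (∀ x, x ∉ D → ζ x = 0) → P T a r →
      P (T.kl D ζ) (fun x => a x + ζ x) (fun x => r x - T.kv D x))
    (h₁ : ∀ T a r, Ok T → P T a r → Win F a r e₁)
    (h₂ : ∀ T a r, P T a r → Win F a r e₂)
    (T : Cfg X) (q : ℝ≥0∞) (h : Att R Q v Ok T q) (p : ℝ) (hp : 0 ≤ p) (hqp : q ≤ ENNReal.ofReal p)
    (a : X → ℝ) (r : X → ℝ≥0) (hP : P T a r) : Win F a r (e₁ + p * (e₂ - e₁)) := by
  have h3 := att_gen R Q v Ok F hF e₁ e₂ he₁ he P hle hap hkl h₁ h₂ T q h a r hP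
  have h4 : gm a r F ≤ ENNReal.ofReal (e₁ + p * (e₂ - e₁)) := by
    refine h3.trans ?_
    rw [ENNReal.ofReal_add he₁ (mul_nonneg hp (sub_nonneg.mpr he)), ENNReal.ofReal_mul hp]
    gcongr
  unfold Win Measure.real
  refine ENNReal.toReal_le_of_le_ofReal ?_ h4
  have := mul_nonneg hp (sub_nonneg.mpr he)
  linarith

end Pool.Agent.ANP.H16
end
end -- Pool.Agent.Helper16_ANP.AttB

section -- Pool.Agent.Helper16_ANP.Trial

/-! One trial: block update and attempt, against the value `min 1 (Phi + e0)`. -/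

set_option autoImplicit false

open MeasureTheory ProbabilityTheory

open scoped ENNReal NNReal BigOperators

noncomputable section

namespace Pool.Agent.ANP.H16

section val

variable {Y : Type} [DecidableEq Y]

/-- the value function -/
def val (ch : ℕ → Y → Finset Y) (J N : ℕ) (near : ℕ → Finset Y) (e₀ : ℝ) (x : ℕ × Y → ℝ) : ℝ :=
  min 1 (H72.Phi ch J N near x + e₀)

variable {ch : ℕ → Y → Finset Y} {J N : ℕ} {near : ℕ → Finset Y} {e₀ : ℝ}

theorem val_le_one (x : ℕ × Y → ℝ) : val ch J N near e₀ x ≤ 1 := min_le_left _ _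

theorem val_nonneg {x : ℕ × Y → ℝ} (h0 : ∀ c, 0 ≤ x c) (he : 0 ≤ e₀) :
    0 ≤ val ch J N near e₀ x :=
  le_min zero_le_one (add_nonneg (H72.phi_nonneg h0 N near) he)

theorem val_mono {x y : ℕ × Y → ℝ} (h0 : ∀ c, 0 ≤ x c) (h : ∀ c, x c ≤ y c) :
    val ch J N near e₀ x ≤ val ch J N near e₀ y :=
  min_le_min le_rfl (add_le_add (H72.phi_mono h0 h N near) le_rfl)

/-- the value is one as soon as a block which matters is bad -/
theorem val_one {x : ℕ × Y → ℝ} (h0 : ∀ c, 0 ≤ x c) (he : 0 ≤ e₀) {n : ℕ} (hn : n < N) {B : Y}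
    (hB : B ∈ near n) (h : 1 ≤ H72.QQ ch J x n B) : val ch J N near e₀ x = 1 := by
  have := H72.phi_one h0 hn hB h
  exact min_eq_left (by linarith)

theorem upd_nonneg {x : ℕ × Y → ℝ} (h0 : ∀ c, 0 ≤ x c) (c : ℕ × Y) {t : ℝ} (ht : 0 ≤ t) :
    ∀ d, 0 ≤ Function.update x c t d := by
  intro d
  by_cases hd : d = c
  · subst hd; rw [Function.update_self]; exact ht
  · rw [Function.update_of_ne hd]; exact h0 d

theorem upd_le {x : ℕ × Y → ℝ} (c : ℕ × Y) {s t : ℝ} (h : s ≤ t) :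
    ∀ d, Function.update x c s d ≤ Function.update x c t d := by
  intro d
  by_cases hd : d = c
  · subst hd; rw [Function.update_self, Function.update_self]; exact h
  · rw [Function.update_of_ne hd, Function.update_of_ne hd]

theorem val_step (hT : H72.Tree ch) {x : ℕ × Y → ℝ} (h0 : ∀ c, 0 ≤ x c) (c : ℕ × Y) {p : ℝ}
    (hp : 0 ≤ p) (hp1 : p ≤ 1) (hpx : p ≤ x c) :
    (1 - p) * val ch J N near e₀ (Function.update x c (x c - p)) +
      p * val ch J N near e₀ (Function.update x c 1) ≤ val ch J N near e₀ x := by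
  have h := H72.coin_step (J := J) hT h0 N near c hp hpx
  unfold val
  set A := H72.Phi ch J N near (Function.update x c (x c - p))
  set B := H72.Phi ch J N near (Function.update x c 1)
  have hq : 0 ≤ 1 - p := sub_nonneg.mpr hp1
  refine le_min ?_ ?_
  · have h1 := mul_le_mul_of_nonneg_left (min_le_left 1 (A + e₀)) hq
    have h2 := mul_le_mul_of_nonneg_left (min_le_left 1 (B + e₀)) hp
    linarith
  · have h1 := mul_le_mul_of_nonneg_left (min_le_right 1 (A + e₀)) hq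
    have h2 := mul_le_mul_of_nonneg_left (min_le_right 1 (B + e₀)) hp
    nlinarith

end val

variable {X : Type} [Fintype X] {Y : Type} [DecidableEq Y]
variable {ch : ℕ → Y → Finset Y} {J N : ℕ} {near : ℕ → Finset Y} {e₀ : ℝ}

theorem win_mono {F : Set (X → ℝ)} {a : X → ℝ} {r : X → ℝ≥0} {e e' : ℝ} (h : Win F a r e)
    (he : e ≤ e') : Win F a r e' := le_trans h he

theorem win_one (F : Set (X → ℝ)) (a : X → ℝ) (r : X → ℝ≥0) : Win F a r 1 :=
  measureReal_le_one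

/-- noise which is seen, never a test -/
theorem win_noise (a : X → ℝ) (r τ : X → ℝ≥0) (hτ : ∀ x, τ x ≤ r x) (F : Set (X → ℝ))
    (hF : MeasurableSet F) (e : ℝ)
    (h : ∀ ζ : X → ℝ, (∀ x, τ x = 0 → ζ x = 0) →
      Win F (fun x => a x + ζ x) (fun x => r x - τ x) e) :
    Win F a r e := by
  have h1 := win_step a r τ hτ F hF ∅ 0 e e le_rfl le_rfl (by simp) (fun ζ hζ _ => h ζ hζ)
    (fun ζ hζ => h ζ hζ)
  simpa using h1

/-- TRIAL: one noise, the set `R` of rejected noises has outer measure at most `p` -/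
theorem win_trial (hT : H72.Tree ch) {x : ℕ × Y → ℝ} (h0 : ∀ c, 0 ≤ x c)
    (c : ℕ × Y) {p : ℝ} (hp : 0 ≤ p) (hpx : p ≤ x c) (hx1 : x c ≤ 1)
    (a : X → ℝ) (r τ : X → ℝ≥0) (hτ : ∀ x, τ x ≤ r x) (F : Set (X → ℝ)) (hF : MeasurableSet F)
    (R : Set (X → ℝ)) (hR : gm (fun _ => 0) τ R ≤ ENNReal.ofReal p)
    (h₁ : ∀ ζ : X → ℝ, (∀ x, τ x = 0 → ζ x = 0) → ζ ∉ R →
      Win F (fun x => a x + ζ x) (fun x => r x - τ x)
        (val ch J N near e₀ (Function.update x c (x c - p))))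
    (h₂ : ∀ ζ : X → ℝ, (∀ x, τ x = 0 → ζ x = 0) →
      Win F (fun x => a x + ζ x) (fun x => r x - τ x)
        (val ch J N near e₀ (Function.update x c 1))) :
    Win F a r (val ch J N near e₀ x) := by
  have hp1 : p ≤ 1 := hpx.trans hx1
  have hle : val ch J N near e₀ (Function.update x c (x c - p)) ≤
      val ch J N near e₀ (Function.update x c 1) :=
    val_mono (upd_nonneg h0 c (sub_nonneg.mpr hpx)) (upd_le c (by linarith))
  have h := win_step a r τ hτ F hF R p _ _ hle hp hR h₁ h₂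
  refine win_mono h ?_
  have h2 := val_step (J := J) (N := N) (near := near) (e₀ := e₀) hT h0 c hp hp1 hpx
  linarith

/-- ATTEMPT: as `win_trial` for an adaptive attempt which is rolled back if it fails -/
theorem win_att [DecidableEq X] (hT : H72.Tree ch) {x : ℕ × Y → ℝ} (h0 : ∀ c, 0 ≤ x c)
    (he₀ : 0 ≤ e₀) (c : ℕ × Y) {p : ℝ} (hp : 0 ≤ p) (hpx : p ≤ x c) (hx1 : x c ≤ 1)
    (R Q : Finset X) (v : X → ℝ) (Ok : Cfg X → Prop) (F : Set (X → ℝ)) (hF : MeasurableSet F)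
    (P : Cfg X → (X → ℝ) → (X → ℝ≥0) → Prop)
    (hle : ∀ T a r, P T a r → ∀ x ∈ R, T.s x ≤ r x)
    (hap : ∀ T a r b, b ∈ Q → P T a r → P (T.rv {b} v) a r)
    (hkl : ∀ T a r (D : Finset X) (ζ : X → ℝ), D ⊆ R → (∀ x ∈ D, 0 < T.s x) →
      (∀ x, x ∉ D → ζ x = 0) → P T a r →
      P (T.kl D ζ) (fun x => a x + ζ x) (fun x => r x - T.kv D x))
    (T : Cfg X) (q : ℝ≥0∞) (h : Att R Q v Ok T q) (hqp : q ≤ ENNReal.ofReal p)
    (a : X → ℝ) (r : X → ℝ≥0) (hP : P T a r)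
    (h₁ : ∀ T a r, Ok T → P T a r → Win F a r
      (val ch J N near e₀ (Function.update x c (x c - p))))
    (h₂ : ∀ T a r, P T a r → Win F a r (val ch J N near e₀ (Function.update x c 1))) :
    Win F a r (val ch J N near e₀ x) := by
  have hp1 : p ≤ 1 := hpx.trans hx1
  have hle' : val ch J N near e₀ (Function.update x c (x c - p)) ≤
      val ch J N near e₀ (Function.update x c 1) :=
    val_mono (upd_nonneg h0 c (sub_nonneg.mpr hpx)) (upd_le c (by linarith))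
  have h3 := att_gen_real R Q v Ok F hF _ _
    (val_nonneg (upd_nonneg h0 c (sub_nonneg.mpr hpx)) he₀) hle' P hle hap hkl h₁ h₂ T q h p hp hqp
    a r hP
  refine win_mono h3 ?_
  have h2 := val_step (J := J) (N := N) (near := near) (e₀ := e₀) hT h0 c hp hp1 hpx
  linarith

end Pool.Agent.ANP.H16
end
end -- Pool.Agent.Helper16_ANP.Trial

section -- Pool.Agent.Helper16_ANP.Rows

/-! Rows GST WSQ WST ATW PHI of the block ANP. -/

set_option autoImplicit false

open MeasureTheory ProbabilityTheory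

open scoped ENNReal NNReal BigOperators

noncomputable section

namespace Pool.Agent.ANP.H16

theorem gst : GstStmt := by
  intro X _ r F hF
  refine ⟨?_, fun a τ hτ => gm_step' a r τ hτ F hF⟩
  have h := gm_meas_shift (fun _ : X => (0 : ℝ)) r F hF
  simpa only [zero_add] using h

theorem min_one_meas {α : Type} [MeasurableSpace α] {q : α → ℝ≥0∞} (hq : Measurable q) :
    Measurable fun ζ => (min (q ζ) 1).toReal :=
  (hq.min measurable_const).ennreal_toReal

theorem wsq : WsqStmt := by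
  intro X _ F hF a τ r q e₁ e₂ hτ he₁ he hq h
  unfold Win
  rw [gm_step_real a r τ hτ F hF]
  set μ := gm (fun _ : X => (0 : ℝ)) τ with hμ
  have hint : Integrable (fun ζ => (min (q ζ) 1).toReal) μ := by
    refine Integrable.of_bound (min_one_meas hq).aestronglyMeasurable 1 ?_
    filter_upwards with ζ
    rw [Real.norm_eq_abs, abs_of_nonneg ENNReal.toReal_nonneg]
    exact ENNReal.toReal_le_of_le_ofReal zero_le_one (by rw [ENNReal.ofReal_one]; exact min_le_right _ _)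
  have hint2 : Integrable (fun ζ => (min (q ζ) 1).toReal * (e₂ - e₁)) μ := hint.mul_const _
  have h1 : ∫ ζ, (gm (fun x => a x + ζ x) (fun x => r x - τ x)).real F ∂μ ≤
      ∫ ζ, (e₁ + (min (q ζ) 1).toReal * (e₂ - e₁)) ∂μ :=
    integral_mono (gm_real_int a _ τ F hF) ((integrable_const e₁).add hint2) fun ζ => h ζ
  have h2 : ∫ ζ, (e₁ + (min (q ζ) 1).toReal * (e₂ - e₁)) ∂μ =
      e₁ + (∫ ζ, (min (q ζ) 1).toReal ∂μ) * (e₂ - e₁) := by
    rw [integral_add (integrable_const e₁) hint2, integral_const, integral_mul_const]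
    simp
  have h3 : ∫ ζ, (min (q ζ) 1).toReal ∂μ = (∫⁻ ζ, min (q ζ) 1 ∂μ).toReal := by
    rw [integral_toReal (hq.min measurable_const).aemeasurable]
    filter_upwards with ζ
    exact lt_of_le_of_lt (min_le_right _ _) ENNReal.one_lt_top
  have h4 : (∫⁻ ζ, min (q ζ) 1 ∂μ) ≤ min (∫⁻ ζ, q ζ ∂μ) 1 := by
    refine le_min (lintegral_mono fun ζ => min_le_left _ _) ?_
    calc ∫⁻ ζ, min (q ζ) 1 ∂μ ≤ ∫⁻ _, 1 ∂μ := lintegral_mono fun ζ => min_le_right _ _
      _ = 1 := by simp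
  have h5 : (∫⁻ ζ, min (q ζ) 1 ∂μ).toReal ≤ (min (∫⁻ ζ, q ζ ∂μ) 1).toReal :=
    ENNReal.toReal_mono (ne_top_of_le_ne_top ENNReal.one_ne_top (min_le_right _ _)) h4
  rw [h2, h3] at h1
  have h6 := mul_le_mul_of_nonneg_right h5 (sub_nonneg.mpr he)
  linarith

theorem wst : WstStmt := by
  intro X _ F hF a τ r R p e₁ e₂ hτ hp _ he hR h₁ h₂
  exact win_step a r τ hτ F hF R p e₁ e₂ he hp hR (fun ζ _ hζ => h₁ ζ hζ) fun ζ _ => h₂ ζ

theorem atw : AtwStmt := by
  intro X _ _ F hF R Q Ok T a r p e₁ e₂ hRQ hp he₁ he hR hAtt h₁ h₂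
  -- reveal `Q`
  refine win_noise a r (fun x => if x ∈ Q then r x else 0) ?_ F hF _ ?_
  · intro x
    split_ifs
    · exact le_rfl
    · exact zero_le
  intro ζ hζ
  set v : X → ℝ := fun x => a x + ζ x with hv
  have hζQ : ∀ x, x ∉ Q → ζ x = 0 := by
    intro x hx
    refine hζ x ?_
    rw [if_neg hx]
  have hQR : ∀ x, x ∈ R → x ∉ Q := fun x hx hq => Finset.disjoint_left.mp hRQ hx hq
  refine att_gen_real R Q v (Ok v) F hF e₁ e₂ he₁ he
    (fun T' a' r' => T'.mb = T.mb ∧ (∀ x ∈ R, a' x = T'.V x ∧ r' x = T'.s x) ∧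
      (∀ x ∈ R, T'.s x = 0 ∨ T'.V x = T.V x ∧ T'.s x = T.s x) ∧
      (∀ x ∈ Q, a' x = v x ∧ r' x = 0) ∧
      (∀ x, x ∉ Q → x ∉ R → a' x = a x ∧ r' x = r x ∧ T'.V x = T.V x ∧ T'.s x = T.s x))
    ?_ ?_ ?_ ?_ ?_ T (ENNReal.ofReal p) (hAtt v) p hp le_rfl _ _ ?_
  · intro T' a' r' hP x hx
    exact le_of_eq (hP.2.1 x hx).2.symm
  · intro T' a' r' b hb ⟨p1, p2, p3, p4, p5⟩
    have hbR : b ∉ R := fun h => hQR b h hb
    have hV : ∀ x, x ≠ b → (T'.rv {b} v).V x = T'.V x := fun x hx => by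
      show (if x ∈ ({b} : Finset X) then v x else T'.V x) = _
      rw [if_neg (by simpa using hx)]
    have hs : ∀ x, x ≠ b → (T'.rv {b} v).s x = T'.s x := fun x hx => by
      show (if x ∈ ({b} : Finset X) then 0 else T'.s x) = _
      rw [if_neg (by simpa using hx)]
    have hne : ∀ x, x ∈ R → x ≠ b := fun x hx h => hbR (h ▸ hx)
    have hne2 : ∀ x, x ∉ Q → x ≠ b := fun x hx h => hx (h ▸ hb)
    refine ⟨p1, fun x hx => ?_, fun x hx => ?_, p4, fun x hx hx2 => ?_⟩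
    · rw [hV x (hne x hx), hs x (hne x hx)]; exact p2 x hx
    · rw [hV x (hne x hx), hs x (hne x hx)]; exact p3 x hx
    · rw [hV x (hne2 x hx), hs x (hne2 x hx)]; exact p5 x hx hx2
  · intro T' a' r' D ξ hD _ hξ ⟨p1, p2, p3, p4, p5⟩
    have hV : ∀ x, x ∉ D → (T'.kl D ξ).V x = T'.V x := fun x hx => by
      show (if x ∈ D then T'.V x + ξ x else T'.V x) = _
      rw [if_neg hx]
    have hs : ∀ x, x ∉ D → (T'.kl D ξ).s x = T'.s x := fun x hx => by
      show (if x ∈ D then 0 else T'.s x) = _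
      rw [if_neg hx]
    have hV2 : ∀ x, x ∈ D → (T'.kl D ξ).V x = T'.V x + ξ x := fun x hx => by
      show (if x ∈ D then T'.V x + ξ x else T'.V x) = _
      rw [if_pos hx]
    have hs2 : ∀ x, x ∈ D → (T'.kl D ξ).s x = 0 := fun x hx => by
      show (if x ∈ D then 0 else T'.s x) = _
      rw [if_pos hx]
    have hk : ∀ x, x ∉ D → T'.kv D x = 0 := fun x hx => by
      unfold Cfg.kv; rw [if_neg hx]
    have hk2 : ∀ x, x ∈ D → T'.kv D x = T'.s x := fun x hx => by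
      unfold Cfg.kv; rw [if_pos hx]
    refine ⟨p1, fun x hx => ?_, fun x hx => ?_, fun x hx => ?_, fun x hx hx2 => ?_⟩ <;> beta_reduce
    · by_cases hd : x ∈ D
      · rw [hV2 x hd, hs2 x hd, hk2 x hd, (p2 x hx).1, (p2 x hx).2]
        exact ⟨rfl, tsub_self _⟩
      · rw [hV x hd, hs x hd, hk x hd, hξ x hd, add_zero, tsub_zero]
        exact p2 x hx
    · by_cases hd : x ∈ D
      · exact Or.inl (hs2 x hd)
      · rw [hV x hd, hs x hd]; exact p3 x hx
    · have hd : x ∉ D := fun h => hQR x (hD h) hx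
      rw [hk x hd, hξ x hd, add_zero, tsub_zero]
      exact p4 x hx
    · have hd : x ∉ D := fun h => hx2 (hD h)
      rw [hV x hd, hs x hd, hk x hd, hξ x hd, add_zero, tsub_zero]
      exact p5 x hx hx2
  · intro T' a' r' hOk ⟨p1, p2, p3, p4, p5⟩
    exact h₁ v T' a' r' hOk p1 p2 p3 p4 p5
  · intro T' a' r' ⟨_, _, _, _, p5⟩
    exact h₂ a' r' fun x hx hx2 => ⟨(p5 x hx hx2).1, (p5 x hx hx2).2.1⟩
  · refine ⟨rfl, fun x hx => ?_, fun x hx => Or.inr ⟨rfl, rfl⟩, fun x hx => ?_, fun x hx hx2 => ?_⟩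
    · have hq := hQR x hx
      show a x + ζ x = _ ∧ r x - (if x ∈ Q then r x else 0) = _
      rw [if_neg hq, hζQ x hq, add_zero, tsub_zero]
      exact hR x hx
    · refine ⟨rfl, ?_⟩
      show r x - (if x ∈ Q then r x else 0) = 0
      rw [if_pos hx]
      exact tsub_self _
    · refine ⟨?_, ?_, rfl, rfl⟩
      · show a x + ζ x = a x
        rw [hζQ x hx, add_zero]
      · show r x - (if x ∈ Q then r x else 0) = r x
        rw [if_neg hx, tsub_zero]

theorem phi : PhiStmt := by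
  classical
  intro I _ U fail hM
  refine ⟨fun x hx => ⟨phi_nonneg U fail x fun i _ => hx i, phi_le_one U fail x fun i _ => hx i⟩,
    fun x y hxy => ?_, fun x i u p hx hu hp hup => ?_, fun x ω hx hωU h1 hf => ?_⟩
  · refine phi_mono U fail hM x y (fun i _ => ⟨(hxy i).1, (hxy i).2.1.trans (hxy i).2.2⟩)
      (fun i _ => ⟨(hxy i).1.trans (hxy i).2.1, (hxy i).2.2⟩) fun i _ => (hxy i).2.1
  · by_cases hi : i ∈ U
    · have hxx : Function.update x i (x i) = x := Function.update_eq_self i x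
      have e : Phi U fail x = (1 - x i) * Phi (U.erase i) fail x +
          x i * Phi (U.erase i) (fun ω => fail (insert i ω)) x := by
        have := phi_update U i hi fail x (x i)
        rwa [hxx] at this
      rw [e, phi_update U i hi, phi_update U i hi]
      have hc := phi_coef U i fail hM x fun j _ => hx j
      set A := Phi (U.erase i) fail x
      set B := Phi (U.erase i) (fun ω => fail (insert i ω)) x
      nlinarith [mul_nonneg (sub_nonneg.mpr hup) (sub_nonneg.mpr hc),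
        mul_nonneg (mul_nonneg hu hp) (sub_nonneg.mpr hc)]
    · rw [phi_update_notMem U i hi, phi_update_notMem U i hi]
      linarith
  · rw [← phi_true U x]
    unfold Phi
    refine Finset.sum_congr rfl fun ω' hω' => ?_
    by_cases hs : ω ⊆ ω'
    · rw [if_pos (hM ω ω' hs hf), if_pos trivial]
    · obtain ⟨i, hi, hi'⟩ := Finset.not_subset.mp hs
      have hz : ∏ i ∈ U \ ω', (1 - x i) = 0 := by
        refine Finset.prod_eq_zero (Finset.mem_sdiff.mpr ⟨hωU hi, hi'⟩) ?_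
        rw [h1 i hi, sub_self]
      rw [hz, mul_zero, zero_mul, zero_mul]

end Pool.Agent.ANP.H16
end
end -- Pool.Agent.Helper16_ANP.Rows

section -- Pool.Agent.Helper16_ANP.PrtA

/-! The main induction of the protocol, part 1: definitions and simple facts. -/

set_option autoImplicit false

open MeasureTheory ProbabilityTheory

open scoped ENNReal NNReal BigOperators

noncomputable section

namespace Pool.Agent.ANP.H16

section basic

variable {X : Type} [Fintype X] [DecidableEq X] (Γ : Geo X)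

theorem mem_nbh (S : Finset X) (t : ℕ) (x : X) :
    x ∈ Γ.nbh S t ↔ ∃ y ∈ S, Γ.D x y ≤ t := by simp [Geo.nbh]

theorem mem_blk (n : ℕ) (B x : X) : x ∈ Γ.blk n B ↔ Γ.bl n x = B := by simp [Geo.blk]

theorem mem_enl (n : ℕ) (𝓑 : Finset X) (k : ℕ) (x : X) :
    x ∈ Γ.enl n 𝓑 k ↔ ∃ y, Γ.bl n y ∈ 𝓑 ∧ Γ.D x y ≤ k * Γ.L n := by simp [Geo.enl]

theorem mem_comp (S : Finset X) (t : ℕ) (x y : X) :
    y ∈ Γ.comp S t x ↔
      Relation.ReflTransGen (fun u v => u ∈ S ∧ v ∈ S ∧ Γ.D u v ≤ t) x y ∧ y ∈ S := by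
  simp [Geo.comp]

theorem mem_near (o : X) (n : ℕ) (B : X) : B ∈ Γ.near o n ↔
    Γ.bl n B = B ∧ ∃ y, Γ.bl n y = B ∧ Γ.D o y ≤ 3 * Γ.ρ (n + 1) + 2 * Γ.L n := by
  simp [Geo.near]

theorem mem_ch (n : ℕ) (B b : X) : b ∈ Γ.ch n B ↔ Γ.bl n b = b ∧ Γ.bl (n + 1) b = B := by
  simp [Geo.ch]

theorem tree_ch : H72.Tree Γ.ch := by
  intro n B B' b h1 h2
  rw [mem_ch] at h1 h2
  rw [← h1.2, ← h2.2]

variable {Γ}

theorem self_comp {S : Finset X} {t : ℕ} {x : X} (h : x ∈ S) : x ∈ Γ.comp S t x :=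
  (mem_comp Γ S t x x).mpr ⟨Relation.ReflTransGen.refl, h⟩

theorem comp_sub {S : Finset X} {t : ℕ} {x y : X} (h : y ∈ Γ.comp S t x) : y ∈ S :=
  ((mem_comp Γ S t x y).mp h).2

/-- the links are symmetric -/
theorem link_symm {d : ℕ} (hG : GeoOk Γ d) {S : Finset X} {t : ℕ} {x y : X}
    (h : Relation.ReflTransGen (fun u v => u ∈ S ∧ v ∈ S ∧ Γ.D u v ≤ t) x y) :
    Relation.ReflTransGen (fun u v => u ∈ S ∧ v ∈ S ∧ Γ.D u v ≤ t) y x := by
  induction h with
  | refl => exact Relation.ReflTransGen.refl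
  | tail _ h2 ih =>
    refine Relation.ReflTransGen.head ⟨h2.2.1, h2.1, ?_⟩ ih
    rw [hG.comm]
    exact h2.2.2

/-- two components with a link between them are equal -/
theorem comp_eq {d : ℕ} (hG : GeoOk Γ d) {S : Finset X} {t : ℕ} {c z q x : X}
    (hq : q ∈ Γ.comp S t c) (hx : x ∈ Γ.comp S t z) (hD : Γ.D q x ≤ t) :
    Γ.comp S t c = Γ.comp S t z := by
  have h1 := ((mem_comp Γ S t c q).mp hq)
  have h2 := ((mem_comp Γ S t z x).mp hx)
  have hcz : Relation.ReflTransGen (fun u v => u ∈ S ∧ v ∈ S ∧ Γ.D u v ≤ t) c z :=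
    (h1.1.tail ⟨h1.2, h2.2, hD⟩).trans (link_symm hG h2.1)
  have hzc := link_symm hG hcz
  ext y
  rw [mem_comp, mem_comp]
  exact ⟨fun h => ⟨hzc.trans h.1, h.2⟩, fun h => ⟨hcz.trans h.1, h.2⟩⟩

theorem blk_sub_enl {d : ℕ} (hG : GeoOk Γ d) {n : ℕ} {B : X} {𝓑 : Finset X} (hB : B ∈ 𝓑) (k : ℕ) :
    Γ.blk n B ⊆ Γ.enl n 𝓑 k := by
  intro x hx
  rw [mem_blk] at hx
  rw [mem_enl]
  refine ⟨x, by rw [hx]; exact hB, ?_⟩
  rw [hG.self]
  exact Nat.zero_le _

theorem enl_mono {n : ℕ} {𝓑 𝓑' : Finset X} (h : 𝓑 ⊆ 𝓑') (k : ℕ) :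
    Γ.enl n 𝓑 k ⊆ Γ.enl n 𝓑' k := by
  intro x hx
  rw [mem_enl] at hx ⊢
  obtain ⟨y, hy, hD⟩ := hx
  exact ⟨y, h hy, hD⟩

end basic

/-! ### coins -/

section coin

variable {Y : Type} [DecidableEq Y] {ch : ℕ → Y → Finset Y} {J : ℕ}

theorem qq_upd {x : ℕ × Y → ℝ} {n : ℕ} {B : Y} {t : ℝ} : ∀ (j : ℕ) (B' : Y),
    (j < n ∨ (j = n ∧ B' ≠ B)) →
    H72.QQ ch J (Function.update x (n, B) t) j B' = H72.QQ ch J x j B' := by
  intro j
  induction j with
  | zero =>
    intro B' h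
    rw [H72.qq_zero, H72.qq_zero, Function.update_of_ne]
    rintro heq
    rw [Prod.mk.injEq] at heq
    rcases h with h | h
    · omega
    · exact h.2 heq.2
  | succ j ih =>
    intro B' h
    rw [H72.qq_succ, H72.qq_succ, Function.update_of_ne]
    · congr 1
      refine Finset.sum_congr rfl fun S _ => Finset.prod_congr rfl fun b _ => ih b (Or.inl ?_)
      rcases h with h | h
      · omega
      · omega
    · rintro heq
      rw [Prod.mk.injEq] at heq
      rcases h with h | h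
      · omega
      · exact h.2 heq.2

end coin

/-! ### the data and the invariant -/

section inv

variable {X : Type} [Fintype X] [DecidableEq X]

/-- the hypotheses of the main induction -/
structure Pr (Γ : Geo X) (d : ℕ) (o : X) (F : Set (X → ℝ)) (th : ℝ≥0) (kk : ℕ → ℕ) (cl : ℕ → ℝ≥0)
    (Kn Dn : ℕ → ℕ) (p π : ℕ → ℝ) (LI : ℕ → Lb X → Prop) : Prop where
  hF : MeasurableSet F
  geo : GeoOk Γ d
  scl : Scl Γ d
  kks : ∀ n, kk n < kk (n + 1)
  th0 : 0 < th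
  th1 : th < 1
  cls : ∀ k, cl (k + 1) = th * cl k
  cl0 : 0 < cl 0
  p0 : ∀ n, 0 ≤ p n
  pp : ∀ n, p n * ((kk (n + 1) : ℝ) - kk n + (Γ.L n : ℝ) ^ d) ≤ π n
  fac : ∀ n L, LI n L → LFac Γ d o Dn n L
  add : ∀ n L (𝓑 : Finset X), LI n L → (∀ B ∈ 𝓑, Γ.bl n B = B) → LI n (L.add Γ n 𝓑)
  die : ∀ n L x (K : Finset X), LI n L → x ∈ L.op → L.elig Γ n (L.cmp Γ n x) →
        K ⊆ L.run ∩ Γ.nbh (L.cmp Γ n x) (Γ.ρ n) → K.card ≤ Kn n →
        LI n (L.die n K (L.cmp Γ n x))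
  nxt : ∀ n L, LI n L → (∀ x ∈ L.op, ¬ L.elig Γ n (L.cmp Γ n x)) → LI (n + 1) (L.nxt Γ n)

/-- the invariant -/
structure Bs (Γ : Geo X) (kk : ℕ → ℕ) (cl : ℕ → ℝ≥0) (Dn : ℕ → ℕ) (π : ℕ → ℝ)
    (LI : ℕ → Lb X → Prop) (n k : ℕ) (P : Finset X) (T : Cfg X) (L : Lb X) (a : X → ℝ)
    (r : X → ℝ≥0) (x : ℕ × X → ℝ) : Prop where
  li : LI n L
  badj : ∀ j, n < j → L.bad j = ∅
  opr : Disjoint L.op L.run
  x0 : ∀ c, 0 ≤ x c
  x1 : ∀ c, x c ≤ 1
  qq : ∀ j, ∀ B ∈ L.bad j, 1 ≤ H72.QQ Γ.ch Γ.J x j B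
  fc : Fc Γ kk cl Dn n k P T L.run
  ppos : ∀ y ∈ L.pend, 0 < T.s y
  dead : ∀ y, y ∉ L.run → y ∉ L.pend → T.s y = 0
  new : ∀ y ∈ L.pend, y ∉ L.op → T.s y ≤ cl (kk n)
  tru : ∀ y, y ∉ L.pend → a y = T.V y ∧ r y = T.s y
  cj : ∀ j, n < j → ∀ B, π j ≤ x (j, B)

variable {Γ : Geo X} {d : ℕ} {o : X} {F : Set (X → ℝ)} {th : ℝ≥0} {kk : ℕ → ℕ} {cl : ℕ → ℝ≥0}
  {Kn Dn : ℕ → ℕ} {p π : ℕ → ℝ} {LI : ℕ → Lb X → Prop}

theorem Pr.clpos (h : Pr Γ d o F th kk cl Kn Dn p π LI) : ∀ k, 0 < cl k := by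
  intro k
  induction k with
  | zero => exact h.cl0
  | succ k ih => rw [h.cls]; exact mul_pos h.th0 ih

theorem Pr.cl_succ_le (h : Pr Γ d o F th kk cl Kn Dn p π LI) (k : ℕ) : cl (k + 1) ≤ cl k := by
  rw [h.cls]; exact mul_le_of_le_one_left zero_le h.th1.le

theorem Pr.cl_anti (h : Pr Γ d o F th kk cl Kn Dn p π LI) {k l : ℕ} (hkl : k ≤ l) : cl l ≤ cl k :=
  antitone_nat_of_succ_le (fun k => h.cl_succ_le k) hkl

theorem Pr.kk_le (h : Pr Γ d o F th kk cl Kn Dn p π LI) (n : ℕ) : kk n ≤ kk (n + 1) := (h.kks n).le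

/-- the density of the dead sites from the labels -/
theorem fc_dens (h : Pr Γ d o F th kk cl Kn Dn p π LI) {n : ℕ} {T : Cfg X} {L : Lb X} (hL : LI n L)
    (h1 : ∀ y ∈ L.run, T.s y ≠ 0) (h2 : ∀ y ∈ L.pend, 0 < T.s y) :
    ∃ dd : ℕ → Finset X, (∀ x, T.s x = 0 → ∃ j ≤ n, x ∈ dd j) ∧
      ∀ j B, (dd j ∩ Γ.blk j B).card ≤ Dn j := by
  refine ⟨L.dd, fun x hx => ?_, (h.fac n L hL).dens⟩
  refine (h.fac n L hL).dead x (fun hr => h1 x hr hx) fun hp => ?_
  exact absurd hx (h2 x hp).ne'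

theorem ite_cl_pos (h : Pr Γ d o F th kk cl Kn Dn p π LI) (c : Prop) [Decidable c] (k : ℕ) :
    0 < (if c then cl (k + 1) else cl k) := by
  split_ifs
  · exact h.clpos _
  · exact h.clpos _

/-- the processed set grows by a set without running sites, the running sites shrink -/
theorem fc_mono (h : Pr Γ d o F th kk cl Kn Dn p π LI) {n k : ℕ} {P P' : Finset X} {T : Cfg X}
    {run run' : Finset X} (hk : kk n ≤ k) (hF : Fc Γ kk cl Dn n k P T run) (hP : P ⊆ P')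
    (hr : run' ⊆ run) (hd : ∀ x ∈ run', x ∈ P' → x ∈ P) :
    Fc Γ kk cl Dn n k P' T run' := by
  have hb : ∀ x : X, (if x ∈ P' then cl (k + 1) else cl k) ≤ (if x ∈ P then cl (k + 1) else cl k) := by
    intro x
    by_cases h1 : x ∈ P
    · rw [if_pos h1, if_pos (hP h1)]
    · rw [if_neg h1]
      split_ifs
      · exact h.cl_succ_le k
      · exact le_rfl
  have hc : ∀ x : X, (if x ∈ P then cl (k + 1) else cl k) ≤ cl k := by
    intro x
    split_ifs
    · exact h.cl_succ_le k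
    · exact le_rfl
  refine ⟨fun x hx => ?_, fun x hx => ?_, hF.dens, fun m hm x hx hcl y hy => ?_⟩
  · rw [hF.runs x (hr hx)]
    by_cases h1 : x ∈ P
    · rw [if_pos h1, if_pos (hP h1)]
    · rw [if_neg h1, if_neg fun h2 => h1 (hd x hx h2)]
  · by_cases h1 : x ∈ run
    · right
      rw [hF.runs x h1]
      exact ⟨hb x, (hc x).trans (h.cl_anti (Nat.zero_le k))⟩
    · rcases hF.rest x h1 with h2 | h2
      · exact Or.inl h2
      · exact Or.inr ⟨(hb x).trans h2.1, h2.2⟩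
  · by_cases h1 : x ∈ run
    · exfalso
      rw [hF.runs x h1] at hcl
      have h2 : cl k ≤ cl (kk m) := h.cl_anti (by subst hm; exact (h.kk_le m).trans hk)
      exact absurd (lt_of_lt_of_le hcl (hc x)) (not_lt.mpr h2)
    · exact hF.shell m hm x h1 hcl y (hr hy)

end inv

end Pool.Agent.ANP.H16
end
end -- Pool.Agent.Helper16_ANP.PrtA

section -- Pool.Agent.Helper16_AC.Val

/-! The weighted potential function. -/

set_option autoImplicit false

open MeasureTheory ProbabilityTheory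

open scoped ENNReal NNReal BigOperators

noncomputable section

namespace Pool.Agent.ANP.AC

open Pool.Agent.ANP Pool.Agent.ANP.H16

section val

variable {Y : Type} [DecidableEq Y]

/-- the weighted potential function of the levels `n ≤ j < M` -/
def wph (ch : ℕ → Y → Finset Y) (J M : ℕ) (W : ℕ → ℝ) (bb : ℕ → Finset Y) (n : ℕ)
    (x : ℕ × Y → ℝ) : ℝ :=
  ∑ j ∈ Finset.Ico n M, W j * ∑ B ∈ bb j, H72.QQ ch J x j B

variable {ch : ℕ → Y → Finset Y} {J M : ℕ} {W : ℕ → ℝ} {bb : ℕ → Finset Y} {n : ℕ}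

theorem wph_nonneg (hW : ∀ j, 0 ≤ W j) {x : ℕ × Y → ℝ} (h0 : ∀ c, 0 ≤ x c) :
    0 ≤ wph ch J M W bb n x :=
  Finset.sum_nonneg fun j _ => mul_nonneg (hW j)
    (Finset.sum_nonneg fun B _ => H72.qq_nonneg h0 j B)

theorem wph_mono (hW : ∀ j, 0 ≤ W j) {x y : ℕ × Y → ℝ} (h0 : ∀ c, 0 ≤ x c)
    (h : ∀ c, x c ≤ y c) : wph ch J M W bb n x ≤ wph ch J M W bb n y :=
  Finset.sum_le_sum fun j _ => mul_le_mul_of_nonneg_left
    (Finset.sum_le_sum fun B _ => H72.qq_mono h0 h j B) (hW j)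

theorem wph_affine (hW : ∀ j, 0 ≤ W j) (hT : H72.Tree ch) {x : ℕ × Y → ℝ} (h0 : ∀ c, 0 ≤ x c)
    (c : ℕ × Y) : ∃ A D : ℝ, 0 ≤ A ∧ 0 ≤ D ∧
      ∀ t : ℝ, wph ch J M W bb n (Function.update x c t) = A + D * t := by
  obtain ⟨m, C⟩ := c
  choose A D hA hD hf _ _ _ using H72.qq_affine (J := J) hT h0 m C
  refine ⟨∑ j ∈ Finset.Ico n M, W j * ∑ B ∈ bb j, A j B,
    ∑ j ∈ Finset.Ico n M, W j * ∑ B ∈ bb j, D j B,
    Finset.sum_nonneg fun j _ => mul_nonneg (hW j) (Finset.sum_nonneg fun B _ => hA j B),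
    Finset.sum_nonneg fun j _ => mul_nonneg (hW j) (Finset.sum_nonneg fun B _ => hD j B), ?_⟩
  intro t
  unfold wph
  rw [Finset.sum_mul, ← Finset.sum_add_distrib]
  refine Finset.sum_congr rfl fun j _ => ?_
  simp only [hf, Finset.sum_add_distrib]
  rw [← Finset.sum_mul]
  ring

/-- one trial of the block `c`, which fails with probability at most `p ≤ x c` -/
theorem wph_step (hW : ∀ j, 0 ≤ W j) (hT : H72.Tree ch) {x : ℕ × Y → ℝ} (h0 : ∀ c, 0 ≤ x c)
    (c : ℕ × Y) {p : ℝ} (hp : 0 ≤ p) (hpx : p ≤ x c) :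
    (1 - p) * wph ch J M W bb n (Function.update x c (x c - p)) +
      p * wph ch J M W bb n (Function.update x c 1) ≤ wph ch J M W bb n x := by
  obtain ⟨A, D, hA, hD, h⟩ := wph_affine (J := J) (M := M) (bb := bb) (n := n) hW hT h0 c
  have h1 := h (x c)
  rw [Function.update_eq_self] at h1
  rw [h, h, h1]
  have h2 : 0 ≤ D * (p * (x c - p)) := mul_nonneg hD (mul_nonneg hp (by linarith))
  nlinarith

theorem wph_one (hW : ∀ j, 0 ≤ W j) {x : ℕ × Y → ℝ} (h0 : ∀ c, 0 ≤ x c) {j : ℕ} (hn : n ≤ j)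
    (hM : j < M) (h1 : 1 ≤ W j) {B : Y} (hB : B ∈ bb j) (h : 1 ≤ H72.QQ ch J x j B) :
    1 ≤ wph ch J M W bb n x := by
  have h2 : H72.QQ ch J x j B ≤ ∑ B ∈ bb j, H72.QQ ch J x j B :=
    Finset.single_le_sum (f := fun B => H72.QQ ch J x j B)
      (fun B _ => H72.qq_nonneg h0 j B) hB
  have h3 : W j * ∑ B ∈ bb j, H72.QQ ch J x j B ≤ wph ch J M W bb n x :=
    Finset.single_le_sum (f := fun j => W j * ∑ B ∈ bb j, H72.QQ ch J x j B)
      (fun j _ => mul_nonneg (hW j) (Finset.sum_nonneg fun B _ => H72.qq_nonneg h0 j B))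
      (Finset.mem_Ico.2 ⟨hn, hM⟩)
  have h4 : 1 * 1 ≤ W j * ∑ B ∈ bb j, H72.QQ ch J x j B :=
    mul_le_mul h1 (h.trans h2) zero_le_one (hW j)
  linarith

theorem wph_succ (hn : n < M) (x : ℕ × Y → ℝ) : wph ch J M W bb n x =
    W n * ∑ B ∈ bb n, H72.QQ ch J x n B + wph ch J M W bb (n + 1) x := by
  unfold wph
  rw [Finset.sum_eq_sum_Ico_succ_bot hn]

theorem wph_succ_le (hW : ∀ j, 0 ≤ W j) {x : ℕ × Y → ℝ} (h0 : ∀ c, 0 ≤ x c) :
    wph ch J M W bb (n + 1) x ≤ wph ch J M W bb n x := by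
  refine Finset.sum_le_sum_of_subset_of_nonneg ?_ fun j _ _ => mul_nonneg (hW j)
    (Finset.sum_nonneg fun B _ => H72.qq_nonneg h0 j B)
  intro j hj
  rw [Finset.mem_Ico] at hj ⊢
  omega

/-- the value -/
def vw (ch : ℕ → Y → Finset Y) (J M : ℕ) (W : ℕ → ℝ) (bb : ℕ → Finset Y) (e₀ : ℝ) (n : ℕ)
    (x : ℕ × Y → ℝ) : ℝ := e₀ + wph ch J M W bb n x

variable {e₀ : ℝ}

theorem vw_mono (hW : ∀ j, 0 ≤ W j) {x y : ℕ × Y → ℝ} (h0 : ∀ c, 0 ≤ x c)
    (h : ∀ c, x c ≤ y c) : vw ch J M W bb e₀ n x ≤ vw ch J M W bb e₀ n y :=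
  add_le_add le_rfl (wph_mono hW h0 h)

theorem vw_step (hW : ∀ j, 0 ≤ W j) (hT : H72.Tree ch) {x : ℕ × Y → ℝ} (h0 : ∀ c, 0 ≤ x c)
    (c : ℕ × Y) {p : ℝ} (hp : 0 ≤ p) (hpx : p ≤ x c) :
    vw ch J M W bb e₀ n (Function.update x c (x c - p)) +
      p * (vw ch J M W bb e₀ n (Function.update x c 1) -
        vw ch J M W bb e₀ n (Function.update x c (x c - p))) ≤ vw ch J M W bb e₀ n x := by
  have h := wph_step (J := J) (M := M) (bb := bb) (n := n) hW hT h0 c hp hpx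
  unfold vw
  linarith

theorem vw_upd_le (hW : ∀ j, 0 ≤ W j) {x : ℕ × Y → ℝ} (h0 : ∀ c, 0 ≤ x c) (c : ℕ × Y) {p : ℝ}
    (hp : 0 ≤ p) (hpx : p ≤ x c) (hx1 : x c ≤ 1) :
    vw ch J M W bb e₀ n (Function.update x c (x c - p)) ≤
      vw ch J M W bb e₀ n (Function.update x c 1) :=
  vw_mono hW (upd_nonneg h0 c (sub_nonneg.mpr hpx)) (upd_le c (by linarith))

end val

variable {X : Type} [Fintype X] {Y : Type} [DecidableEq Y]
variable {ch : ℕ → Y → Finset Y} {J M : ℕ} {W : ℕ → ℝ} {bb : ℕ → Finset Y} {n : ℕ} {e₀ : ℝ}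

/-- TRIAL: one noise, the set `R` of rejected noises has outer measure at most `p` -/
theorem wf_trial (hW : ∀ j, 0 ≤ W j) (hT : H72.Tree ch) {x : ℕ × Y → ℝ} (h0 : ∀ c, 0 ≤ x c)
    (c : ℕ × Y) {p : ℝ} (hp : 0 ≤ p) (hpx : p ≤ x c) (hx1 : x c ≤ 1)
    (a : X → ℝ) (r τ : X → ℝ≥0) (hτ : ∀ x, τ x ≤ r x) {g : (X → ℝ) → ℝ} (hg : Bm g)
    (R : Set (X → ℝ)) (hR : gm (fun _ => 0) τ R ≤ ENNReal.ofReal p)
    (h₁ : ∀ ζ : X → ℝ, (∀ x, τ x = 0 → ζ x = 0) → ζ ∉ R →
      Wf g (fun x => a x + ζ x) (fun x => r x - τ x)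
        (vw ch J M W bb e₀ n (Function.update x c (x c - p))))
    (h₂ : ∀ ζ : X → ℝ, (∀ x, τ x = 0 → ζ x = 0) →
      Wf g (fun x => a x + ζ x) (fun x => r x - τ x)
        (vw ch J M W bb e₀ n (Function.update x c 1))) :
    Wf g a r (vw ch J M W bb e₀ n x) :=
  wf_mono (wf_step hg a r τ hτ R p _ _ (vw_upd_le hW h0 c hp hpx hx1) hp hR h₁ h₂)
    (vw_step hW hT h0 c hp hpx)

end Pool.Agent.ANP.AC
end
end -- Pool.Agent.Helper16_AC.Val

section -- Pool.Agent.Helper16_ANP.PrtB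

/-! The main induction of the protocol, part 2: the transitions of the invariant. -/

set_option autoImplicit false

open MeasureTheory ProbabilityTheory

open scoped ENNReal NNReal BigOperators

noncomputable section

namespace Pool.Agent.ANP.H16

variable {X : Type} [Fintype X] [DecidableEq X]
  {Γ : Geo X} {d : ℕ} {o : X} {F : Set (X → ℝ)} {th : ℝ≥0} {kk : ℕ → ℕ} {cl : ℕ → ℝ≥0}
  {Kn Dn : ℕ → ℕ} {p π : ℕ → ℝ} {LI : ℕ → Lb X → Prop}

/-- the running sites have positive clocks -/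
theorem Bs.run_pos (h : Pr Γ d o F th kk cl Kn Dn p π LI) {n k : ℕ} {P : Finset X} {T : Cfg X}
    {L : Lb X} {a : X → ℝ} {r : X → ℝ≥0} {x : ℕ × X → ℝ}
    (hB : Bs Γ kk cl Dn π LI n k P T L a r x) : ∀ y ∈ L.run, 0 < T.s y := by
  intro y hy
  rw [hB.fc.runs y hy]
  exact ite_cl_pos h _ k

theorem Bs.disj (h : Pr Γ d o F th kk cl Kn Dn p π LI) {n k : ℕ} {P : Finset X} {T : Cfg X}
    {L : Lb X} {a : X → ℝ} {r : X → ℝ≥0} {x : ℕ × X → ℝ}
    (hB : Bs Γ kk cl Dn π LI n k P T L a r x) {y : X} (hy : y ∈ L.run) : y ∉ L.pend :=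
  fun hp => Finset.disjoint_left.mp (h.fac n L hB.li).disj hy hp

/-- processed sites -/
theorem Bs.skip (h : Pr Γ d o F th kk cl Kn Dn p π LI) {n k : ℕ} {P P' : Finset X} {T : Cfg X}
    {L : Lb X} {a : X → ℝ} {r : X → ℝ≥0} {x : ℕ × X → ℝ}
    (hB : Bs Γ kk cl Dn π LI n k P T L a r x) (hk : kk n ≤ k) (hP : P ⊆ P')
    (hd : ∀ y ∈ L.run, y ∈ P' → y ∈ P) : Bs Γ kk cl Dn π LI n k P' T L a r x :=
  { hB with fc := fc_mono h hk hB.fc hP (Finset.Subset.refl _) hd }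

/-- the coins after a trial of a block which is not bad -/
theorem coin_upd {n : ℕ} {L : Lb X} {x : ℕ × X → ℝ} {B : X} (t : ℝ)
    (badj : ∀ j, n < j → L.bad j = ∅)
    (qq : ∀ j, ∀ B ∈ L.bad j, 1 ≤ H72.QQ Γ.ch Γ.J x j B) (hBb : B ∉ L.bad n) :
    ∀ j, ∀ B' ∈ L.bad j, 1 ≤ H72.QQ Γ.ch Γ.J (Function.update x (n, B) t) j B' := by
  intro j B' hB'
  rw [qq_upd j B']
  · exact qq j B' hB'
  · rcases lt_trichotomy j n with hj | hj | hj
    · exact Or.inl hj
    · right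
      refine ⟨hj, ?_⟩
      rintro rfl
      exact hBb (hj ▸ hB')
    · rw [badj j hj] at hB'
      exact absurd hB' (Finset.notMem_empty _)

theorem upd01 {x : ℕ × X → ℝ} (x0 : ∀ c, 0 ≤ x c) (x1 : ∀ c, x c ≤ 1) (c : ℕ × X) {t : ℝ}
    (ht0 : 0 ≤ t) (ht1 : t ≤ 1) :
    (∀ e, 0 ≤ Function.update x c t e) ∧ ∀ e, Function.update x c t e ≤ 1 := by
  constructor
  · exact upd_nonneg x0 c ht0
  · intro e
    by_cases he : e = c
    · subst he; rw [Function.update_self]; exact ht1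
    · rw [Function.update_of_ne he]; exact x1 e

theorem cj_upd {n : ℕ} {x : ℕ × X → ℝ} {B : X} (t : ℝ) (cj : ∀ j, n < j → ∀ B, π j ≤ x (j, B)) :
    ∀ j, n < j → ∀ B', π j ≤ Function.update x (n, B) t (j, B') := by
  intro j hj B'
  rw [Function.update_of_ne]
  · exact cj j hj B'
  · intro heq
    rw [Prod.mk.injEq] at heq
    omega

/-- an accepted block update -/
theorem Bs.upd (h : Pr Γ d o F th kk cl Kn Dn p π LI) {n k : ℕ} {P : Finset X} {T : Cfg X}
    {L : Lb X} {a : X → ℝ} {r : X → ℝ≥0} {x : ℕ × X → ℝ}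
    (hB : Bs Γ kk cl Dn π LI n k P T L a r x) {B : X} (hBb : B ∉ L.bad n)
    (hdis : Disjoint P (Γ.blk n B)) (hx : p n ≤ x (n, B)) (ζ : X → ℝ)
    (hζ : ∀ y, T.hv th (L.run ∩ Γ.blk n B) y = 0 → ζ y = 0) :
    Bs Γ kk cl Dn π LI n k (P ∪ Γ.blk n B) (T.hf th (L.run ∩ Γ.blk n B) ζ) L
      (fun y => a y + ζ y) (fun y => r y - T.hv th (L.run ∩ Γ.blk n B) y)
      (Function.update x (n, B) (x (n, B) - p n)) := by
  have hp0 := h.p0 n
  obtain ⟨u0, u1⟩ := upd01 hB.x0 hB.x1 (n, B) (t := x (n, B) - p n) (by linarith)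
    (by linarith [hB.x1 (n, B)])
  set U := L.run ∩ Γ.blk n B with hU
  have hs1 : ∀ y, y ∈ U → (T.hf th U ζ).s y = th * T.s y := fun y hy => by
    show (if y ∈ U then th * T.s y else T.s y) = _
    rw [if_pos hy]
  have hs2 : ∀ y, y ∉ U → (T.hf th U ζ).s y = T.s y := fun y hy => by
    show (if y ∈ U then th * T.s y else T.s y) = _
    rw [if_neg hy]
  have hV1 : ∀ y, y ∈ U → (T.hf th U ζ).V y = T.V y + ζ y := fun y hy => by
    show (if y ∈ U then T.V y + ζ y else T.V y) = _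
    rw [if_pos hy]
  have hV2 : ∀ y, y ∉ U → (T.hf th U ζ).V y = T.V y := fun y hy => by
    show (if y ∈ U then T.V y + ζ y else T.V y) = _
    rw [if_neg hy]
  have hv1 : ∀ y, y ∈ U → T.hv th U y = (1 - th) * T.s y := fun y hy => by
    unfold Cfg.hv; rw [if_pos hy]
  have hv2 : ∀ y, y ∉ U → T.hv th U y = 0 := fun y hy => by
    unfold Cfg.hv; rw [if_neg hy]
  have hUr : ∀ y, y ∈ U → y ∈ L.run := fun y hy => (Finset.mem_inter.mp hy).1
  have hUb : ∀ y, y ∈ U → y ∈ Γ.blk n B := fun y hy => (Finset.mem_inter.mp hy).2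
  have hUP : ∀ y, y ∈ U → y ∉ P := fun y hy hP => Finset.disjoint_left.mp hdis hP (hUb y hy)
  have hzero : ∀ y, (T.hf th U ζ).s y = 0 → T.s y = 0 := by
    intro y hy
    by_cases hyU : y ∈ U
    · rw [hs1 y hyU] at hy
      have h1 := hB.run_pos h y (hUr y hyU)
      exact absurd hy (mul_pos h.th0 h1).ne'
    · rw [hs2 y hyU] at hy
      exact hy
  have hnU : ∀ y, y ∉ L.run → y ∉ U := fun y hy hyU => hy (hUr y hyU)
  refine ⟨hB.li, hB.badj, hB.opr, u0, u1, coin_upd _ hB.badj hB.qq hBb,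
    ⟨fun y hy => ?_, fun y hy => ?_, ?_, fun m hm y hy hcl z hz => ?_⟩, fun y hy => ?_,
    fun y h1 h2 => ?_, fun y h1 h2 => ?_, fun y hy => ?_, cj_upd _ hB.cj⟩
  · by_cases hyU : y ∈ U
    · rw [hs1 y hyU, hB.fc.runs y hy, if_neg (hUP y hyU),
        if_pos (Finset.mem_union_right _ (hUb y hyU)), h.cls]
    · have hyb : y ∉ Γ.blk n B := fun hb => hyU (Finset.mem_inter.mpr ⟨hy, hb⟩)
      rw [hs2 y hyU, hB.fc.runs y hy]
      by_cases hyP : y ∈ P
      · rw [if_pos hyP, if_pos (Finset.mem_union_left _ hyP)]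
      · rw [if_neg hyP, if_neg]
        rw [Finset.mem_union]
        rintro (h1 | h1)
        · exact hyP h1
        · exact hyb h1
  · rw [hs2 y (hnU y hy)]
    rcases hB.fc.rest y hy with h1 | h1
    · exact Or.inl h1
    · refine Or.inr ⟨le_trans ?_ h1.1, h1.2⟩
      by_cases hyP : y ∈ P
      · rw [if_pos hyP, if_pos (Finset.mem_union_left _ hyP)]
      · rw [if_neg hyP]
        split_ifs
        · exact h.cl_succ_le k
        · exact le_rfl
  · obtain ⟨dd, h1, h2⟩ := hB.fc.dens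
    exact ⟨dd, fun y hy => h1 y (hzero y hy), h2⟩
  · rw [hs2 y (hnU y hy)] at hcl
    exact hB.fc.shell m hm y hy hcl z hz
  · rw [hs2 y fun hyU => hB.disj h (hUr y hyU) hy]
    exact hB.ppos y hy
  · rw [hs2 y (hnU y h1)]
    exact hB.dead y h1 h2
  · rw [hs2 y fun hyU => hB.disj h (hUr y hyU) h1]
    exact hB.new y h1 h2
  · obtain ⟨e1, e2⟩ := hB.tru y hy
    by_cases hyU : y ∈ U
    · rw [hV1 y hyU, hs1 y hyU, hv1 y hyU, e1, e2]
      refine ⟨rfl, tsub_eq_of_eq_add ?_⟩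
      rw [← add_mul, add_tsub_cancel_of_le h.th1.le, one_mul]
    · rw [hV2 y hyU, hs2 y hyU, hζ y (hv2 y hyU), hv2 y hyU, e1, e2, add_zero, tsub_zero]
      exact ⟨rfl, rfl⟩

/-- the block `B` becomes bad; `a, r` are changed only at sites which are frozen afterwards -/
theorem Bs.rej (h : Pr Γ d o F th kk cl Kn Dn p π LI) {n k : ℕ} {P P' : Finset X} {T : Cfg X}
    {L : Lb X} {a a' : X → ℝ} {r r' : X → ℝ≥0} {x : ℕ × X → ℝ}
    (hB : Bs Γ kk cl Dn π LI n k P T L a r x) (hk : kk n ≤ k) {B : X} (hBB : Γ.bl n B = B)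
    (hP : P ⊆ P') (hd : ∀ y ∈ L.run, y ∉ Γ.enl n {B} 1 → y ∈ P' → y ∈ P)
    (ha : ∀ y, y ∉ L.pend → y ∉ Γ.enl n {B} 1 → a' y = a y ∧ r' y = r y)
    (ha2 : ∀ y, y ∉ L.pend → y ∉ L.run → a' y = a y ∧ r' y = r y) :
    Bs Γ kk cl Dn π LI n k P' T (L.add Γ n {B}) a' r' (Function.update x (n, B) 1) := by
  obtain ⟨u0, u1⟩ := upd01 hB.x0 hB.x1 (n, B) (t := 1) zero_le_one le_rfl
  have hrun : (L.add Γ n {B}).run = L.run \ Γ.enl n {B} 1 := rfl
  have hpend : (L.add Γ n {B}).pend = L.pend ∪ (L.run ∩ Γ.enl n {B} 1) := rfl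
  have hop : (L.add Γ n {B}).op = L.op := rfl
  have hbad : (L.add Γ n {B}).bad = Function.update L.bad n (L.bad n ∪ {B}) := rfl
  have hle : ∀ e, x e ≤ Function.update x (n, B) 1 e := by
    intro e
    by_cases he : e = (n, B)
    · subst he; rw [Function.update_self]; exact hB.x1 _
    · rw [Function.update_of_ne he]
  have hsub : (L.add Γ n {B}).run ⊆ L.run := by rw [hrun]; exact Finset.sdiff_subset
  refine ⟨h.add n L {B} hB.li (fun C hC => by rw [Finset.mem_singleton.mp hC]; exact hBB),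
    fun j hj => ?_, ?_, u0, u1, fun j C hC => ?_,
    fc_mono h hk hB.fc hP hsub (fun y hy hy2 => ?_), fun y hy => ?_, fun y h1 h2 => ?_,
    fun y h1 h2 => ?_, fun y hy => ?_, cj_upd _ hB.cj⟩
  · rw [hbad, Function.update_of_ne (by omega)]
    exact hB.badj j hj
  · rw [hop, hrun]
    exact hB.opr.mono_right Finset.sdiff_subset
  · rw [hbad] at hC
    by_cases hj : j = n
    · subst hj
      rw [Function.update_self, Finset.mem_union, Finset.mem_singleton] at hC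
      rcases hC with hC | hC
      · exact (hB.qq j C hC).trans (H72.qq_mono hB.x0 hle j C)
      · subst hC
        refine H72.qq_one_of_coin u0 ?_
        rw [Function.update_self]
    · rw [Function.update_of_ne hj] at hC
      exact (hB.qq j C hC).trans (H72.qq_mono hB.x0 hle j C)
  · rw [hrun, Finset.mem_sdiff] at hy
    exact hd y hy.1 hy.2 hy2
  · rw [hpend, Finset.mem_union, Finset.mem_inter] at hy
    rcases hy with hy | hy
    · exact hB.ppos y hy
    · exact hB.run_pos h y hy.1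
  · rw [hpend, Finset.mem_union, Finset.mem_inter, not_or] at h2
    rw [hrun, Finset.mem_sdiff] at h1
    refine hB.dead y (fun hr => ?_) h2.1
    exact h2.2 ⟨hr, by by_contra hc; exact h1 ⟨hr, hc⟩⟩
  · rw [hpend, Finset.mem_union, Finset.mem_inter] at h1
    rcases h1 with h1 | h1
    · exact hB.new y h1 h2
    · rw [hB.fc.runs y h1.1]
      split_ifs
      · exact (h.cl_succ_le k).trans (h.cl_anti hk)
      · exact h.cl_anti hk
  · rw [hpend, Finset.mem_union, Finset.mem_inter, not_or] at hy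
    have h1 : a' y = a y ∧ r' y = r y := by
      by_cases hr : y ∈ L.run
      · exact ha y hy.1 fun he => hy.2 ⟨hr, he⟩
      · exact ha2 y hy.1 hr
    rw [h1.1, h1.2]
    exact hB.tru y hy.1

/-- the end of a stage: new gauge, next clock -/
theorem Bs.stage {n k : ℕ} {T : Cfg X}
    {L : Lb X} {a : X → ℝ} {r : X → ℝ≥0} {x : ℕ × X → ℝ} (m : X → ℂ)
    (hB : Bs Γ kk cl Dn π LI n k Finset.univ T L a r x) :
    Bs Γ kk cl Dn π LI n (k + 1) ∅ (T.rg m) L a r x := by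
  refine ⟨hB.li, hB.badj, hB.opr, hB.x0, hB.x1, hB.qq,
    ⟨fun y hy => ?_, fun y hy => ?_, hB.fc.dens, hB.fc.shell⟩, hB.ppos, hB.dead, hB.new, hB.tru,
    hB.cj⟩
  · have := hB.fc.runs y hy
    rw [if_pos (Finset.mem_univ y)] at this
    rw [if_neg (Finset.notMem_empty y)]
    exact this
  · have := hB.fc.rest y hy
    rw [if_pos (Finset.mem_univ y)] at this
    rw [if_neg (Finset.notMem_empty y)]
    exact this

end Pool.Agent.ANP.H16
end
end -- Pool.Agent.Helper16_ANP.PrtB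

section -- Pool.Agent.Helper16_ANP.PrtC

/-! The main induction of the protocol, part 3: one stage. -/

set_option autoImplicit false

open MeasureTheory ProbabilityTheory

open scoped ENNReal NNReal BigOperators

noncomputable section

namespace Pool.Agent.ANP.H16

variable {X : Type} [Fintype X] [DecidableEq X]
  {Γ : Geo X} {d : ℕ} {o : X} {F : Set (X → ℝ)} {th : ℝ≥0} {kk : ℕ → ℕ} {cl : ℕ → ℝ≥0}
  {Kn Dn : ℕ → ℕ} {p π : ℕ → ℝ} {LI : ℕ → Lb X → Prop}

/-- the value of the coins -/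
def vv (Γ : Geo X) (o : X) (x : ℕ × X → ℝ) : ℝ := val Γ.ch Γ.J (Γ.N + 2) (Γ.near o) (1 / 4) x

/-- the sites of the processed blocks; `W` = the blocks which are not yet processed -/
def Pw (Γ : Geo X) (n : ℕ) (W : Finset X) : Finset X := {y | Γ.bl n y ∉ W}

theorem mem_Pw (n : ℕ) (W : Finset X) (y : X) : y ∈ Pw Γ n W ↔ Γ.bl n y ∉ W := by simp [Pw]

theorem Pw_empty (n : ℕ) : Pw Γ n ∅ = Finset.univ := by
  ext y; simp [mem_Pw]

theorem Pw_insert {n : ℕ} {W : Finset X} {B : X} (hB : B ∉ W) :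
    Pw Γ n (insert B W) ∪ Γ.blk n B = Pw Γ n W := by
  ext y
  rw [Finset.mem_union, mem_Pw, mem_Pw, mem_blk, Finset.mem_insert, not_or]
  constructor
  · rintro (h | h)
    · exact h.2
    · rw [h]; exact hB
  · intro h
    by_cases h1 : Γ.bl n y = B
    · exact Or.inr h1
    · exact Or.inl ⟨h1, h⟩

theorem Pw_disj {n : ℕ} {W : Finset X} {B : X} :
    Disjoint (Pw Γ n (insert B W)) (Γ.blk n B) := by
  rw [Finset.disjoint_left]
  intro y hy hy2
  rw [mem_Pw, Finset.mem_insert, not_or] at hy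
  rw [mem_blk] at hy2
  exact hy.1 hy2

/-- during a stage -/
theorem stage_mid (h : Pr Γ d o F th kk cl Kn Dn p π LI) (A : Ana Γ d o F th kk cl Kn Dn p)
    {n k : ℕ} (hn : n ≤ Γ.N) (hk1 : kk n ≤ k) (hk2 : k < kk (n + 1))
    (next : ∀ (T : Cfg X) (L : Lb X) (a : X → ℝ) (r : X → ℝ≥0) (x : ℕ × X → ℝ),
      Bs Γ kk cl Dn π LI n (k + 1) ∅ T L a r x → A.HS n (k + 1) T L.run →
      (∀ B, Γ.bl n B = B → B ∉ L.bad n →
        p n * ((kk (n + 1) : ℝ) - (k + 1) + (Γ.L n : ℝ) ^ d) ≤ x (n, B)) →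
      Win F a r (vv Γ o x))
    (T₀ : Cfg X) (run₀ : Finset X) (hHS : A.HS n k T₀ run₀) (hFc : Fc Γ kk cl Dn n k ∅ T₀ run₀)
    (W : Finset X) :
    (∀ B ∈ W, Γ.bl n B = B) →
    ∀ (T : Cfg X) (L : Lb X) (a : X → ℝ) (r : X → ℝ≥0) (x : ℕ × X → ℝ),
      Bs Γ kk cl Dn π LI n k (Pw Γ n W) T L a r x → A.HM n k T₀ run₀ (Pw Γ n W) T L.run →
      (∀ B, Γ.bl n B = B → B ∉ L.bad n →
        p n * ((kk (n + 1) : ℝ) - (k + 1) + (Γ.L n : ℝ) ^ d + if B ∈ W then 1 else 0) ≤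
          x (n, B)) →
      Win F a r (vv Γ o x) := by
  induction W using Finset.induction_on with
  | empty =>
    intro _ T L a r x hB hM hc
    rw [Pw_empty] at hB hM
    obtain ⟨m, hm⟩ := A.fin n k T₀ run₀ T L.run hn hk1 hk2 hHS hFc hB.fc hM
    refine next (T.rg m) L a r x (hB.stage m) hm fun B h1 h2 => ?_
    have := hc B h1 h2
    rw [if_neg (Finset.notMem_empty B), add_zero] at this
    exact this
  | insert B W hBW ih =>
    intro hW T L a r x hB hM hc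
    have hBB : Γ.bl n B = B := hW B (Finset.mem_insert_self B W)
    have hW' : ∀ B ∈ W, Γ.bl n B = B := fun C hC => hW C (Finset.mem_insert_of_mem hC)
    have hPP := Pw_insert (Γ := Γ) (n := n) hBW
    have hdis := Pw_disj (Γ := Γ) (n := n) (W := W) (B := B)
    have hPsub : Pw Γ n (insert B W) ⊆ Pw Γ n W := by rw [← hPP]; exact Finset.subset_union_left
    have hp0 := h.p0 n
    by_cases hBb : B ∈ L.bad n
    · -- the block is bad: skip
      have hfz := (h.fac n L hB.li).frz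
      have hd' : ∀ y ∈ L.run, y ∈ Pw Γ n W → y ∈ Pw Γ n (insert B W) := by
        intro y hy hy2
        rw [← hPP, Finset.mem_union] at hy2
        rcases hy2 with h1 | h1
        · exact h1
        · exact absurd (blk_sub_enl h.geo hBb 1 h1) (Finset.disjoint_left.mp hfz hy)
      have hB' := hB.skip h hk1 hPsub hd'
      refine ih hW' T L a r x hB' ?_ fun C h1 h2 => ?_
      · exact A.mmon n k T₀ run₀ _ _ T L.run L.run hPsub (Finset.Subset.refl _) hB.fc hB'.fc hM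
      · refine le_trans (mul_le_mul_of_nonneg_left ?_ hp0) (hc C h1 h2)
        by_cases hC : C ∈ W
        · rw [if_pos hC, if_pos (Finset.mem_insert_of_mem hC)]
        · rw [if_neg hC]
          split_ifs <;> linarith only
    · -- a trial
      set U := L.run ∩ Γ.blk n B with hU
      have hkk : (k : ℝ) + 1 ≤ kk (n + 1) := by exact_mod_cast hk2
      have hL0 : (0 : ℝ) ≤ (Γ.L n : ℝ) ^ d := by positivity
      have hpx : p n ≤ x (n, B) := by
        have h1 := hc B hBB hBb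
        rw [if_pos (Finset.mem_insert_self B W)] at h1
        refine le_trans ?_ h1
        have h2 := mul_le_mul_of_nonneg_left
          (by linarith only [hkk, hL0] : (1 : ℝ) ≤ (kk (n + 1) : ℝ) - (k + 1) + (Γ.L n : ℝ) ^ d + 1) hp0
        linarith only [h2]
      have hτ : ∀ y, T.hv th U y ≤ r y := by
        intro y
        unfold Cfg.hv
        split_ifs with hy
        · have hyr : y ∈ L.run := (Finset.mem_inter.mp hy).1
          rw [(hB.tru y (hB.disj h hyr)).2]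
          exact mul_le_of_le_one_left zero_le tsub_le_self
        · exact zero_le
      refine win_trial (tree_ch Γ) hB.x0 (n, B) hp0 hpx (hB.x1 _) a r (T.hv th U) hτ F h.hF
        {ζ | ¬ A.HM n k T₀ run₀ (Pw Γ n (insert B W) ∪ Γ.blk n B) (T.hf th U ζ) L.run} ?_ ?_ ?_
      · exact A.flo n k T₀ run₀ _ T L.run B hn hk1 hk2 hBB hdis hHS hFc hB.fc hM
      · intro ζ hζ hR
        rw [Set.mem_setOf_eq, not_not, hPP] at hR
        have hB' := hB.upd h hBb hdis hpx ζ hζ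
        rw [hPP] at hB'
        refine ih hW' (T.hf th U ζ) L _ _ _ hB' hR fun C h1 h2 => ?_
        have h3 := hc C h1 h2
        by_cases hCB : C = B
        · subst hCB
          rw [Function.update_self, if_neg hBW]
          rw [if_pos (Finset.mem_insert_self C W)] at h3
          linarith only [h3]
        · rw [Function.update_of_ne (by simpa using hCB)]
          refine le_trans (mul_le_mul_of_nonneg_left ?_ hp0) h3
          by_cases hC : C ∈ W
          · rw [if_pos hC, if_pos (Finset.mem_insert_of_mem hC)]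
          · rw [if_neg hC]
            split_ifs <;> linarith only
      · intro ζ hζ
        have hζ' : ∀ y, y ∉ U → ζ y = 0 ∧ T.hv th U y = 0 := fun y hy => by
          have e : T.hv th U y = 0 := by unfold Cfg.hv; rw [if_neg hy]
          exact ⟨hζ y e, e⟩
        have hsb : Γ.blk n B ⊆ Γ.enl n {B} 1 := blk_sub_enl h.geo (Finset.mem_singleton_self B) 1
        have hB' := hB.rej h (a' := fun y => a y + ζ y) (r' := fun y => r y - T.hv th U y) hk1 hBB
          hPsub (fun y _ hy hy2 => by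
            rw [← hPP, Finset.mem_union] at hy2
            rcases hy2 with h1 | h1
            · exact h1
            · exact absurd (hsb h1) hy)
          (fun y _ hy => by
            obtain ⟨e1, e2⟩ := hζ' y fun hU' => hy (hsb (Finset.mem_inter.mp hU').2)
            rw [e1, e2, add_zero, tsub_zero]
            exact ⟨rfl, rfl⟩)
          (fun y _ hy => by
            obtain ⟨e1, e2⟩ := hζ' y fun hU' => hy (Finset.mem_inter.mp hU').1
            rw [e1, e2, add_zero, tsub_zero]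
            exact ⟨rfl, rfl⟩)
        refine ih hW' T (L.add Γ n {B}) _ _ _ hB' ?_ fun C h1 h2 => ?_
        · exact A.mmon n k T₀ run₀ _ _ T L.run _ hPsub Finset.sdiff_subset hB.fc hB'.fc hM
        · have hbad : (L.add Γ n {B}).bad n = L.bad n ∪ {B} := by
            show Function.update L.bad n (L.bad n ∪ {B}) n = _
            rw [Function.update_self]
          rw [hbad, Finset.mem_union, Finset.mem_singleton, not_or] at h2
          rw [Function.update_of_ne (by simpa using h2.2)]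
          refine le_trans (mul_le_mul_of_nonneg_left ?_ hp0) (hc C h1 h2.1)
          by_cases hC : C ∈ W
          · rw [if_pos hC, if_pos (Finset.mem_insert_of_mem hC)]
          · rw [if_neg hC]
            split_ifs <;> linarith only

/-- one stage -/
theorem stage_step (h : Pr Γ d o F th kk cl Kn Dn p π LI) (A : Ana Γ d o F th kk cl Kn Dn p)
    {n k : ℕ} (hn : n ≤ Γ.N) (hk1 : kk n ≤ k) (hk2 : k < kk (n + 1))
    (next : ∀ (T : Cfg X) (L : Lb X) (a : X → ℝ) (r : X → ℝ≥0) (x : ℕ × X → ℝ),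
      Bs Γ kk cl Dn π LI n (k + 1) ∅ T L a r x → A.HS n (k + 1) T L.run →
      (∀ B, Γ.bl n B = B → B ∉ L.bad n →
        p n * ((kk (n + 1) : ℝ) - (k + 1) + (Γ.L n : ℝ) ^ d) ≤ x (n, B)) →
      Win F a r (vv Γ o x))
    (T : Cfg X) (L : Lb X) (a : X → ℝ) (r : X → ℝ≥0) (x : ℕ × X → ℝ)
    (hB : Bs Γ kk cl Dn π LI n k ∅ T L a r x) (hHS : A.HS n k T L.run)
    (hc : ∀ B, Γ.bl n B = B → B ∉ L.bad n →
        p n * ((kk (n + 1) : ℝ) - k + (Γ.L n : ℝ) ^ d) ≤ x (n, B)) :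
    Win F a r (vv Γ o x) := by
  have hP : Pw Γ n (Finset.univ.filter fun B => Γ.bl n B = B) = ∅ := by
    ext y
    simp [mem_Pw, h.geo.idem]
  refine stage_mid h A hn hk1 hk2 next T L.run hHS hB.fc
    (Finset.univ.filter fun B => Γ.bl n B = B) (fun B hB => by simpa using hB) T L a r x
    (by rw [hP]; exact hB) ?_ fun B h1 h2 => ?_
  · rw [hP]
    exact A.beg n k T L.run hn hk1 hk2 hB.fc hHS
  · refine le_trans (le_of_eq ?_) (hc B h1 h2)
    rw [if_pos (by simpa using h1)]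
    ring

end Pool.Agent.ANP.H16
end
end -- Pool.Agent.Helper16_ANP.PrtC

section -- Pool.Agent.Helper16_ANP.PrtD

/-! The main induction of the protocol, part 4: the release phase. -/

set_option autoImplicit false

open MeasureTheory ProbabilityTheory

open scoped ENNReal NNReal BigOperators

noncomputable section

namespace Pool.Agent.ANP.H16

variable {X : Type} [Fintype X] [DecidableEq X]
  {Γ : Geo X} {d : ℕ} {o : X} {F : Set (X → ℝ)} {th : ℝ≥0} {kk : ℕ → ℕ} {cl : ℕ → ℝ≥0}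
  {Kn Dn : ℕ → ℕ} {p π : ℕ → ℝ} {LI : ℕ → Lb X → Prop}

/-- the component of `c` cannot be released any more -/
def Dnp (Γ : Geo X) (n : ℕ) (L : Lb X) (c : X) : Prop :=
  (∃ q ∈ L.cmp Γ n c, q ∉ L.run ∧ q ∉ L.pend) ∨
    ∃ q ∈ L.cmp Γ n c, ∃ z ∈ Γ.enl n (L.bad n) 1, Γ.D q z ≤ Γ.ρ n

theorem dnp_not_elig {n : ℕ} {L : Lb X} {c : X} (h : Dnp Γ n L c) :
    ¬ L.elig Γ n (L.cmp Γ n c) := by
  rintro ⟨h1, h2⟩
  rcases h with ⟨q, hq, _, hqp⟩ | ⟨q, hq, z, hz, hD⟩
  · exact hqp (h1 hq)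
  · exact absurd (h2 q hq z hz) (not_lt.mpr hD)

theorem not_elig_dnp {n : ℕ} {L : Lb X} (hop : Disjoint L.op L.run) {c : X}
    (h : ¬ L.elig Γ n (L.cmp Γ n c)) : Dnp Γ n L c := by
  by_cases h1 : L.cmp Γ n c ⊆ L.pend
  · right
    by_contra h2
    push Not at h2
    exact h ⟨h1, fun y hy z hz => h2 y hy z hz⟩
  · left
    obtain ⟨q, hq, hqp⟩ := Finset.not_subset.mp h1
    exact ⟨q, hq, fun hr => Finset.disjoint_left.mp hop (comp_sub hq) hr, hqp⟩

theorem dnp_add {n : ℕ} {L : Lb X} {c : X} {𝓑 : Finset X} (h : Dnp Γ n L c) :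
    Dnp Γ n (L.add Γ n 𝓑) c := by
  have hbad : (L.add Γ n 𝓑).bad n = L.bad n ∪ 𝓑 := by
    show Function.update L.bad n (L.bad n ∪ 𝓑) n = _
    rw [Function.update_self]
  rcases h with ⟨q, hq, h1, h2⟩ | ⟨q, hq, z, hz, hD⟩
  · left
    refine ⟨q, hq, fun h3 => h1 (Finset.mem_sdiff.mp h3).1, fun h3 => ?_⟩
    have h4 : q ∈ L.pend ∪ (L.run ∩ Γ.enl n 𝓑 1) := h3
    rw [Finset.mem_union, Finset.mem_inter] at h4
    rcases h4 with h4 | h4
    · exact h2 h4
    · exact h1 h4.1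
  · right
    refine ⟨q, hq, z, ?_, hD⟩
    rw [hbad]
    exact enl_mono Finset.subset_union_left 1 hz

theorem dnp_die {n : ℕ} {L : Lb X} {c : X} {K Q : Finset X} (h : Dnp Γ n L c) :
    Dnp Γ n (L.die n K Q) c := by
  rcases h with ⟨q, hq, h1, h2⟩ | ⟨q, hq, z, hz, hD⟩
  · left
    exact ⟨q, hq, fun h3 => h1 (Finset.mem_sdiff.mp h3).1,
      fun h3 => h2 (Finset.mem_sdiff.mp h3).1⟩
  · right
    exact ⟨q, hq, z, hz, hD⟩

/-- a successful attempt -/
theorem Bs.die (h : Pr Γ d o F th kk cl Kn Dn p π LI) {n k : ℕ} {T T' : Cfg X}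
    {L : Lb X} {a a' : X → ℝ} {r r' : X → ℝ≥0} {x : ℕ × X → ℝ}
    (hB : Bs Γ kk cl Dn π LI n k ∅ T L a r x) {B : X} (hBb : B ∉ L.bad n)
    (hpx : p n ≤ x (n, B)) {z : X} (hz : z ∈ L.op) (hel : L.elig Γ n (L.cmp Γ n z))
    (hQ : ∀ y ∈ L.cmp Γ n z, a' y = T'.V y ∧ r' y = 0 ∧ T'.s y = 0)
    (hR1 : ∀ y ∈ L.run ∩ Γ.nbh (L.cmp Γ n z) (Γ.ρ n), a' y = T'.V y ∧ r' y = T'.s y)
    (hR2 : ∀ y ∈ L.run ∩ Γ.nbh (L.cmp Γ n z) (Γ.ρ n),
      T'.s y = 0 ∨ T'.V y = T.V y ∧ T'.s y = T.s y)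
    (hoff : ∀ y, y ∉ L.cmp Γ n z → y ∉ L.run ∩ Γ.nbh (L.cmp Γ n z) (Γ.ρ n) →
      a' y = a y ∧ r' y = r y ∧ T'.V y = T.V y ∧ T'.s y = T.s y)
    (K : Finset X) (hKdef : ∀ y, y ∈ K ↔ y ∈ L.run ∧ T'.s y = 0) (hK : K.card ≤ Kn n) :
    Bs Γ kk cl Dn π LI n k ∅ T' (L.die n K (L.cmp Γ n z)) a' r'
      (Function.update x (n, B) (x (n, B) - p n)) := by
  have hp0 := h.p0 n
  obtain ⟨u0, u1⟩ := upd01 hB.x0 hB.x1 (n, B) (t := x (n, B) - p n) (by linarith)
    (by linarith [hB.x1 (n, B)])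
  set Q := L.cmp Γ n z with hQdef
  set R := L.run ∩ Γ.nbh Q (Γ.ρ n) with hRdef
  have hQp : Q ⊆ L.pend := hel.1
  have hrQ : ∀ y, y ∈ L.run → y ∉ Q := fun y hy hq => hB.disj h hy (hQp hq)
  have hrp := hB.run_pos h
  have hKR : K ⊆ R := by
    intro y hy
    rw [hKdef] at hy
    by_contra hc
    have h1 := (hoff y (hrQ y hy.1) hc).2.2.2
    rw [hy.2] at h1
    exact absurd h1.symm (hrp y hy.1).ne'
  have hrun : (L.die n K Q).run = L.run \ K := rfl
  have hpend : (L.die n K Q).pend = L.pend \ Q := rfl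
  have hLI : LI n (L.die n K Q) := h.die n L z K hB.li hz hel hKR hK
  -- a site which is not dead in the new configuration is as before
  have hsame : ∀ y, T'.s y ≠ 0 → y ∉ Q ∧ T'.s y = T.s y := by
    intro y hy
    have hyQ : y ∉ Q := fun hq => hy (hQ y hq).2.2
    refine ⟨hyQ, ?_⟩
    by_cases hyR : y ∈ R
    · rcases hR2 y hyR with h1 | h1
      · exact absurd h1 hy
      · exact h1.2
    · exact (hoff y hyQ hyR).2.2.2
  have hrun' : ∀ y, y ∈ L.run \ K ↔ y ∈ L.run ∧ T'.s y ≠ 0 := by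
    intro y
    rw [Finset.mem_sdiff, hKdef]
    tauto
  have hpp : ∀ y ∈ L.pend \ Q, T'.s y = T.s y := by
    intro y hy
    rw [Finset.mem_sdiff] at hy
    refine (hoff y hy.2 fun hyR => ?_).2.2.2
    exact hB.disj h (Finset.mem_inter.mp hyR).1 hy.1
  have hpos' : ∀ y ∈ (L.die n K Q).pend, 0 < T'.s y := by
    intro y hy
    rw [hpend] at hy
    rw [hpp y hy]
    exact hB.ppos y (Finset.mem_sdiff.mp hy).1
  have hrpos' : ∀ y ∈ (L.die n K Q).run, T'.s y ≠ 0 := by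
    intro y hy
    rw [hrun, hrun'] at hy
    exact hy.2
  refine ⟨hLI, hB.badj, ?_, u0, u1, coin_upd _ hB.badj hB.qq hBb,
    ⟨fun y hy => ?_, fun y hy => ?_, fc_dens h hLI hrpos' hpos', fun m hm y hy hcl w hw => ?_⟩,
    hpos', fun y h1 h2 => ?_, fun y h1 h2 => ?_, fun y hy => ?_, cj_upd _ hB.cj⟩
  · exact hB.opr.mono_right Finset.sdiff_subset
  · rw [hrun, hrun'] at hy
    rw [(hsame y hy.2).2]
    exact hB.fc.runs y hy.1
  · by_cases h0 : T'.s y = 0
    · exact Or.inl h0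
    · right
      rw [(hsame y h0).2]
      have hy' : y ∉ L.run := fun hr => hy (by rw [hrun, hrun']; exact ⟨hr, h0⟩)
      rcases hB.fc.rest y hy' with h1 | h1
      · exact absurd h1 (by rw [← (hsame y h0).2]; exact h0)
      · exact h1
  · have h0 : T'.s y ≠ 0 := (lt_of_le_of_lt zero_le hcl).ne'
    rw [(hsame y h0).2] at hcl
    have hy' : y ∉ L.run := fun hr => hy (by rw [hrun, hrun']; exact ⟨hr, h0⟩)
    exact hB.fc.shell m hm y hy' hcl w (Finset.mem_sdiff.mp hw).1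
  · rw [hpend, Finset.mem_sdiff, not_and, not_not] at h2
    rw [hrun, hrun', not_and, not_not] at h1
    by_cases hyp : y ∈ L.pend
    · exact (hQ y (h2 hyp)).2.2
    · by_cases hyr : y ∈ L.run
      · exact h1 hyr
      · by_cases hyQ : y ∈ Q
        · exact (hQ y hyQ).2.2
        · rw [(hoff y hyQ fun hR => hyr (Finset.mem_inter.mp hR).1).2.2.2]
          exact hB.dead y hyr hyp
  · have h1' : y ∈ L.pend \ Q := h1
    rw [hpp y h1']
    exact hB.new y (Finset.mem_sdiff.mp h1').1 h2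
  · rw [hpend, Finset.mem_sdiff, not_and, not_not] at hy
    by_cases hyQ : y ∈ Q
    · obtain ⟨e1, e2, e3⟩ := hQ y hyQ
      exact ⟨e1, by rw [e2, e3]⟩
    · have hyp : y ∉ L.pend := fun h1 => hyQ (hy h1)
      by_cases hyR : y ∈ R
      · exact hR1 y hyR
      · obtain ⟨e1, e2, e3, e4⟩ := hoff y hyQ hyR
        rw [e1, e2, e3, e4]
        exact hB.tru y hyp

/-- the next super-stage -/
theorem Bs.next (h : Pr Γ d o F th kk cl Kn Dn p π LI) {n : ℕ} {T : Cfg X}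
    {L : Lb X} {a : X → ℝ} {r : X → ℝ≥0} {x : ℕ × X → ℝ}
    (hB : Bs Γ kk cl Dn π LI n (kk (n + 1)) ∅ T L a r x)
    (hel : ∀ c ∈ L.op, ¬ L.elig Γ n (L.cmp Γ n c)) (m : X → ℂ) :
    Bs Γ kk cl Dn π LI (n + 1) (kk (n + 1)) ∅ (T.rg m) (L.nxt Γ n) a r x := by
  have hLI := h.nxt n L hB.li hel
  have hfac := h.fac n L hB.li
  set S := Γ.nbh (L.op ∩ L.pend) (3 * Γ.ρ n) with hS
  set E := Γ.enl (n + 1) (L.many Γ n) 1 with hE
  have hrun : (L.nxt Γ n).run = (L.run \ S) \ E := rfl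
  have hpend : (L.nxt Γ n).pend = (L.pend ∪ (L.run ∩ S)) ∪ ((L.run \ S) ∩ E) := rfl
  have hop : (L.nxt Γ n).op = L.pend ∪ (L.run ∩ S) := rfl
  have hbad : (L.nxt Γ n).bad = Function.update L.bad (n + 1) (L.bad (n + 1) ∪ L.many Γ n) := rfl
  have hcl : ∀ y ∈ L.run, T.s y = cl (kk (n + 1)) := by
    intro y hy
    have := hB.fc.runs y hy
    rwa [if_neg (Finset.notMem_empty y)] at this
  have hsub : (L.nxt Γ n).run ⊆ L.run := by
    rw [hrun]
    exact Finset.sdiff_subset.trans Finset.sdiff_subset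
  have hpos : ∀ y ∈ (L.nxt Γ n).pend, 0 < T.s y := by
    intro y hy
    rw [hpend, Finset.mem_union, Finset.mem_union, Finset.mem_inter, Finset.mem_inter,
      Finset.mem_sdiff] at hy
    rcases hy with (hy | hy) | hy
    · exact hB.ppos y hy
    · exact hB.run_pos h y hy.1
    · exact hB.run_pos h y hy.1.1
  -- outside of the new labels
  have hout : ∀ y, y ∉ (L.nxt Γ n).run → y ∉ (L.nxt Γ n).pend → y ∉ L.run ∧ y ∉ L.pend := by
    intro y h1 h2
    rw [hrun, Finset.mem_sdiff, Finset.mem_sdiff] at h1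
    rw [hpend, Finset.mem_union, Finset.mem_union, Finset.mem_inter, Finset.mem_inter,
      Finset.mem_sdiff] at h2
    tauto
  refine ⟨hLI, fun j hj => ?_, ?_, hB.x0, hB.x1, fun j C hC => ?_,
    ⟨fun y hy => ?_, fun y hy => ?_,
      fc_dens (T := T.rg m) h hLI (fun y hy => (hB.run_pos h y (hsub hy)).ne') hpos,
      fun m' hm y hy hcly w hw => ?_⟩, hpos, fun y h1 h2 => ?_, fun y h1 h2 => ?_, fun y hy => ?_,
      fun j hj B => hB.cj j (by omega) B⟩
  · rw [hbad, Function.update_of_ne (by omega)]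
    exact hB.badj j (by omega)
  · rw [hop, hrun, Finset.disjoint_left]
    intro y hy hy2
    rw [Finset.mem_sdiff, Finset.mem_sdiff] at hy2
    rw [Finset.mem_union, Finset.mem_inter] at hy
    rcases hy with hy | hy
    · exact hB.disj h hy2.1.1 hy
    · exact hy2.1.2 hy.2
  · rw [hbad] at hC
    by_cases hj : j = n + 1
    · subst hj
      rw [Function.update_self, hB.badj (n + 1) (Nat.lt_succ_self n), Finset.empty_union] at hC
      have hC' : Γ.bl (n + 1) C = C ∧ Γ.J < (Γ.sub n (L.bad n) C).card := by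
        simpa [Lb.many] using hC
      refine H72.qq_one_of_children hB.x0 (T := Γ.sub n (L.bad n) C) ?_ hC'.2 fun b hb => ?_
      · intro b hb
        have hb' : b ∈ L.bad n ∧ Γ.bl (n + 1) b = C := by simpa [Geo.sub] using hb
        rw [mem_ch]
        exact ⟨hfac.rep n b hb'.1, hb'.2⟩
      · have hb' : b ∈ L.bad n ∧ Γ.bl (n + 1) b = C := by simpa [Geo.sub] using hb
        exact hB.qq n b hb'.1
    · rw [Function.update_of_ne hj] at hC
      exact hB.qq j C hC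
  · rw [if_neg (Finset.notMem_empty y)]
    exact hcl y (hsub hy)
  · rw [if_neg (Finset.notMem_empty y)]
    by_cases hyr : y ∈ L.run
    · right
      show cl (kk (n + 1)) ≤ T.s y ∧ T.s y ≤ cl 0
      rw [hcl y hyr]
      exact ⟨le_rfl, h.cl_anti (Nat.zero_le _)⟩
    · have := hB.fc.rest y hyr
      rwa [if_neg (Finset.notMem_empty y)] at this
  · -- the shells
    have hmn : m' = n := by omega
    subst hmn
    have hcly' : cl (kk m') < T.s y := hcly
    have hyr : y ∉ L.run := fun hr => by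
      rw [hcl y hr] at hcly'
      exact absurd hcly' (not_lt.mpr (h.cl_anti (h.kk_le m')))
    have hyp : y ∈ L.pend := by
      by_contra hc
      rw [hB.dead y hyr hc] at hcly'
      exact absurd hcly' (not_lt.mpr zero_le)
    have hyo : y ∈ L.op := by
      by_contra hc
      exact absurd hcly' (not_lt.mpr (hB.new y hyp hc))
    rw [hrun, Finset.mem_sdiff, Finset.mem_sdiff, hS, mem_nbh] at hw
    by_contra hc
    refine hw.1.2 ⟨y, Finset.mem_inter.mpr ⟨hyo, hyp⟩, ?_⟩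
    rw [h.geo.comm]
    exact not_lt.mp hc
  · obtain ⟨e1, e2⟩ := hout y h1 h2
    exact hB.dead y e1 e2
  · rw [hop, Finset.mem_union, not_or] at h2
    rw [hpend, Finset.mem_union, Finset.mem_union, Finset.mem_inter (s₁ := L.run \ S),
      Finset.mem_sdiff] at h1
    show T.s y ≤ cl (kk (n + 1))
    have hyr : y ∈ L.run := by tauto
    rw [hcl y hyr]
  · have hyp : y ∉ L.pend := by
      intro hc
      refine hy ?_
      rw [hpend]
      exact Finset.mem_union_left _ (Finset.mem_union_left _ hc)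
    exact hB.tru y hyp

end Pool.Agent.ANP.H16
end
end -- Pool.Agent.Helper16_ANP.PrtD

section -- Pool.Agent.Helper16_AC.Mark

/-! The functional with marked sites, the truth `s - f`. -/

set_option autoImplicit false
set_option linter.unusedSectionVars false

open MeasureTheory ProbabilityTheory

open scoped ENNReal NNReal BigOperators

noncomputable section

namespace Pool.Agent.ANP.AC

open Pool.Agent.ANP Pool.Agent.ANP.H16

variable {X : Type} [Fintype X] [DecidableEq X]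

/-- the functional, `S` the marked sites -/
def gS (φ : (X → ℝ) → ℝ) (ψ : X → (X → ℝ) → ℝ) (S : Finset X) (U : X → ℝ) : ℝ :=
  φ U - ∑ x ∈ S, ψ x U

/-- the hypotheses on the functional -/
structure Fn (φ : (X → ℝ) → ℝ) (ψ : X → (X → ℝ) → ℝ) (K : ℝ) : Prop where
  mφ : Measurable φ
  bφ : ∀ U, 0 ≤ φ U ∧ φ U ≤ 1
  mψ : ∀ x, Measurable (ψ x)
  bψ : ∀ x U, 0 ≤ ψ x U ∧ ψ x U ≤ K

variable {φ : (X → ℝ) → ℝ} {ψ : X → (X → ℝ) → ℝ} {K : ℝ}

theorem Fn.bm (h : Fn φ ψ K) (S : Finset X) : Bm (gS φ ψ S) := by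
  refine ⟨?_, 1 + ∑ x ∈ S, |K|, by positivity, fun U => ?_⟩
  · exact h.mφ.sub (Finset.measurable_fun_sum S fun x _ => h.mψ x)
  · have h1 : 0 ≤ ∑ x ∈ S, ψ x U := Finset.sum_nonneg fun x _ => (h.bψ x U).1
    have h2 : ∑ x ∈ S, ψ x U ≤ ∑ x ∈ S, |K| :=
      Finset.sum_le_sum fun x _ => (h.bψ x U).2.trans (le_abs_self K)
    have h3 := h.bφ U
    unfold gS
    rw [abs_le]
    constructor <;> linarith

theorem Fn.bmψ (h : Fn φ ψ K) (x : X) : Bm (ψ x) := by
  refine ⟨h.mψ x, |K|, abs_nonneg K, fun U => ?_⟩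
  rw [abs_of_nonneg (h.bψ x U).1]
  exact (h.bψ x U).2.trans (le_abs_self K)

/-- the value one is trivial -/
theorem Fn.one (h : Fn φ ψ K) (S : Finset X) (a : X → ℝ) (r : X → ℝ≥0) : Wf (gS φ ψ S) a r 1 := by
  unfold Wf
  calc ∫ U, gS φ ψ S U ∂(gm a r) ≤ ∫ _, (1 : ℝ) ∂(gm a r) := by
        refine integral_mono ((h.bm S).int _) (integrable_const 1) fun U => ?_
        have h1 : 0 ≤ ∑ x ∈ S, ψ x U := Finset.sum_nonneg fun x _ => (h.bψ x U).1
        have h3 := h.bφ U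
        unfold gS
        simp only
        linarith
    _ = 1 := by simp

/-- marking -/
theorem Fn.mark (h : Fn φ ψ K) (S S' : Finset X) (hS : S ⊆ S') (a : X → ℝ) (r : X → ℝ≥0)
    (c e e' : ℝ) (hc : ∀ x ∈ S' \ S, ∫ U, ψ x U ∂(gm a r) ≤ c)
    (he : e' + ((S' \ S).card : ℝ) * c ≤ e) (hw : Wf (gS φ ψ S') a r e') :
    Wf (gS φ ψ S) a r e := by
  unfold Wf at hw ⊢
  have h1 : ∀ U, gS φ ψ S U = gS φ ψ S' U + ∑ x ∈ S' \ S, ψ x U := by
    intro U
    unfold gS
    rw [← Finset.sum_sdiff hS]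
    ring
  have h2 : ∫ U, gS φ ψ S U ∂(gm a r) =
      (∫ U, gS φ ψ S' U ∂(gm a r)) + ∑ x ∈ S' \ S, ∫ U, ψ x U ∂(gm a r) := by
    rw [← integral_finsetSum _ (fun x _ => (h.bmψ x).int _),
      ← integral_add ((h.bm S').int _) (integrable_finsetSum _ fun x _ => (h.bmψ x).int _)]
    exact integral_congr_ae (Filter.Eventually.of_forall h1)
  have h3 : ∑ x ∈ S' \ S, ∫ U, ψ x U ∂(gm a r) ≤ ((S' \ S).card : ℝ) * c := by
    rw [← nsmul_eq_mul, ← Finset.sum_const]
    exact Finset.sum_le_sum hc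
  rw [h2]
  linarith

/-- the truth has the variance `r - f` -/
def Wg (g : (X → ℝ) → ℝ) (f : ℝ≥0) (a : X → ℝ) (r : X → ℝ≥0) (e : ℝ) : Prop :=
  Wf g a (fun x => r x - f) e

theorem wg_mono {g : (X → ℝ) → ℝ} {f : ℝ≥0} {a : X → ℝ} {r : X → ℝ≥0} {e e' : ℝ}
    (h : Wg g f a r e) (he : e ≤ e') : Wg g f a r e' := le_trans h he

/-- the end: nothing is unknown -/
theorem wg_end {g : (X → ℝ) → ℝ} (hg : Bm g) {f : ℝ≥0} {a : X → ℝ} {r : X → ℝ≥0} {e : ℝ}
    (hr : ∀ x, r x ≤ f) (h : g a ≤ e) : Wg g f a r e := by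
  unfold Wg Wf
  have h1 : (fun x => r x - f) = fun _ : X => (0 : ℝ≥0) := by
    funext x
    exact tsub_eq_zero_of_le (hr x)
  have h2 : gm a (fun _ : X => (0 : ℝ≥0)) = Measure.dirac a := by
    have h3 := gm_shift (fun _ : X => (0 : ℝ)) a (fun _ => 0)
    have h4 : gm (fun _ : X => (0 : ℝ)) (fun _ => 0) = Measure.dirac (fun _ => 0) := by
      have h5 := gm_ae_zero (fun _ : X => (0 : ℝ≥0))
      have h6 : ∀ᵐ ζ ∂(gm (fun _ : X => (0 : ℝ)) (fun _ => 0)), ζ = fun _ => (0 : ℝ) := by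
        filter_upwards [h5] with ζ hζ
        funext x
        exact hζ x rfl
      refine Measure.ext fun s hs => ?_
      rw [Measure.dirac_apply' _ hs]
      by_cases hm : (fun _ : X => (0 : ℝ)) ∈ s
      · rw [Set.indicator_of_mem hm, Pi.one_apply]
        have h7 : s =ᵐ[gm (fun _ : X => (0 : ℝ)) (fun _ => 0)] Set.univ := by
          filter_upwards [h6] with ζ hζ
          subst hζ
          exact propext ⟨fun _ => trivial, fun _ => hm⟩
        rw [measure_congr h7, measure_univ]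
      · rw [Set.indicator_of_notMem hm]
        have h7 : s =ᵐ[gm (fun _ : X => (0 : ℝ)) (fun _ => 0)] (∅ : Set (X → ℝ)) := by
          filter_upwards [h6] with ζ hζ
          subst hζ
          exact propext ⟨fun h => (hm h).elim, fun h => h.elim⟩
        rw [measure_congr h7, measure_empty]
    have hm : Measurable fun y : X → ℝ => a + y := by fun_prop
    rw [h4, Measure.map_dirac' hm] at h3
    have h8 : (fun x => (0 : ℝ) + a x) = a := by funext x; simp
    rw [h8] at h3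
    rw [← h3]
    congr 1
    funext x
    simp
  rw [h1, h2, integral_dirac' _ _ hg.meas.stronglyMeasurable]
  exact h

theorem tsub_comm' (r : X → ℝ≥0) (f : ℝ≥0) (τ : X → ℝ≥0) :
    (fun x => (r x - f) - τ x) = fun x => (r x - τ x) - f := by
  funext x
  exact tsub_right_comm

section trial

variable {Y : Type} [DecidableEq Y]
variable {ch : ℕ → Y → Finset Y} {J M : ℕ} {W : ℕ → ℝ} {bb : ℕ → Finset Y} {n : ℕ} {e₀ : ℝ}

/-- TRIAL -/
theorem wg_trial (hW : ∀ j, 0 ≤ W j) (hT : H72.Tree ch) {x : ℕ × Y → ℝ} (h0 : ∀ c, 0 ≤ x c)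
    (c : ℕ × Y) {p : ℝ} (hp : 0 ≤ p) (hpx : p ≤ x c) (hx1 : x c ≤ 1) (f : ℝ≥0)
    (a : X → ℝ) (r τ : X → ℝ≥0) (hτ : ∀ x, τ x ≤ r x - f) {g : (X → ℝ) → ℝ} (hg : Bm g)
    (R : Set (X → ℝ)) (hR : gm (fun _ => 0) τ R ≤ ENNReal.ofReal p)
    (h₁ : ∀ ζ : X → ℝ, (∀ x, τ x = 0 → ζ x = 0) → ζ ∉ R →
      Wg g f (fun x => a x + ζ x) (fun x => r x - τ x)
        (vw ch J M W bb e₀ n (Function.update x c (x c - p))))
    (h₂ : ∀ ζ : X → ℝ, (∀ x, τ x = 0 → ζ x = 0) →
      Wg g f (fun x => a x + ζ x) (fun x => r x - τ x)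
        (vw ch J M W bb e₀ n (Function.update x c 1))) :
    Wg g f a r (vw ch J M W bb e₀ n x) := by
  refine wf_trial hW hT h0 c hp hpx hx1 a _ τ hτ hg R hR (fun ζ hζ hR => ?_) (fun ζ hζ => ?_)
  · rw [tsub_comm']
    exact h₁ ζ hζ hR
  · rw [tsub_comm']
    exact h₂ ζ hζ

end trial

/-- AN ATTEMPT -/
theorem wg_att {g : (X → ℝ) → ℝ} (hg : Bm g) (R Q : Finset X) (Ok : (X → ℝ) → Cfg X → Prop)
    (T : Cfg X) (a : X → ℝ) (r : X → ℝ≥0) (f : ℝ≥0) (c p e₁ e₂ : ℝ) (hc : 1 ≤ c)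
    (hc2 : c ^ R.card ≤ 2) (hRQ : Disjoint R Q) (hp : 0 ≤ p) (he : e₁ ≤ e₂)
    (hR : ∀ x ∈ R, a x = T.V x ∧ r x = T.s x)
    (hf : ∀ x ∈ R, f < T.s x ∧ Real.sqrt ((T.s x : ℝ) / ((T.s x - f : ℝ≥0) : ℝ)) ≤ c)
    (hAtt : ∀ v, Att R Q v (Ok v) T (ENNReal.ofReal p))
    (h₁ : ∀ v T' a' r', Ok v T' → T'.mb = T.mb → (∀ x ∈ R, a' x = T'.V x ∧ r' x = T'.s x) →
      (∀ x ∈ R, T'.s x = 0 ∨ T'.V x = T.V x ∧ T'.s x = T.s x) →
      (∀ x ∈ Q, a' x = v x ∧ r' x = 0) →
      (∀ x, x ∉ Q → x ∉ R → a' x = a x ∧ r' x = r x ∧ T'.V x = T.V x ∧ T'.s x = T.s x) →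
      Wg g f a' r' e₁)
    (h₂ : ∀ a' r', (∀ x, x ∉ Q → x ∉ R → a' x = a x ∧ r' x = r x) → Wg g f a' r' e₂) :
    Wg g f a r (e₁ + 2 * p * (e₂ - e₁)) := by
  have hQR : ∀ x, x ∈ R → x ∉ Q := fun x hx hq => Finset.disjoint_left.mp hRQ hx hq
  refine atf hg R Q Ok T a (fun x => r x - f) f c p e₁ e₂ hc hc2 hRQ hp he
    (fun x hx => ⟨(hR x hx).1, by rw [(hR x hx).2]⟩) hf hAtt ?_ ?_
  · intro v T' a' r' hOk hmb q1 q2 q3 q4
    have h := h₁ v T' a' (fun x => if x ∈ Q then 0 else if x ∈ R then T'.s x else r x) hOk hmb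
      (fun x hx => ⟨(q1 x hx).1, by rw [if_neg (hQR x hx), if_pos hx]⟩) q2
      (fun x hx => ⟨(q3 x hx).1, by rw [if_pos hx]⟩)
      (fun x hx hx2 => ⟨(q4 x hx hx2).1, by rw [if_neg hx, if_neg hx2],
        (q4 x hx hx2).2.2⟩)
    unfold Wg at h
    have e1 : (fun x => (if x ∈ Q then 0 else if x ∈ R then T'.s x else r x) - f) = r' := by
      funext x
      by_cases hxQ : x ∈ Q
      · rw [if_pos hxQ, (q3 x hxQ).2, zero_tsub]
      · rw [if_neg hxQ]
        by_cases hxR : x ∈ R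
        · rw [if_pos hxR, (q1 x hxR).2]
        · rw [if_neg hxR, (q4 x hxQ hxR).2.1]
    rw [e1] at h
    exact h
  · intro a' r' q
    have h := h₂ a' (fun x => if x ∈ Q ∪ R then r' x + f else r x) (fun x hx hx2 => by
      refine ⟨(q x hx hx2).1, ?_⟩
      rw [if_neg]
      rw [Finset.mem_union]
      rintro (h | h)
      · exact hx h
      · exact hx2 h)
    unfold Wg at h
    have e1 : (fun x => (if x ∈ Q ∪ R then r' x + f else r x) - f) = r' := by
      funext x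
      by_cases hxQ : x ∈ Q ∪ R
      · rw [if_pos hxQ, add_tsub_cancel_right]
      · rw [if_neg hxQ]
        rw [Finset.mem_union, not_or] at hxQ
        exact ((q x hxQ.1 hxQ.2).2).symm
    rw [e1] at h
    exact h

end Pool.Agent.ANP.AC
end
end -- Pool.Agent.Helper16_AC.Mark

section -- Pool.Agent.Helper16_AC.Stage

/-! One stage. -/

set_option autoImplicit false
set_option linter.unusedSectionVars false

open MeasureTheory ProbabilityTheory

open scoped ENNReal NNReal BigOperators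

noncomputable section

namespace Pool.Agent.ANP.AC

open Pool.Agent.ANP Pool.Agent.ANP.H16

variable {X : Type} [Fintype X] [DecidableEq X]

/-- the hypotheses -/
structure Hp (Γ : Geo X) (d : ℕ) (o : X) (th : ℝ≥0) (kk : ℕ → ℕ) (cl : ℕ → ℝ≥0)
    (Kn Dn : ℕ → ℕ) (p π c W : ℕ → ℝ) (K e : ℝ) (φ : (X → ℝ) → ℝ) (ψ : X → (X → ℝ) → ℝ)
    (LI : ℕ → Lb X → Prop) : Prop where
  pr : Pr Γ d o ∅ th kk cl Kn Dn (fun n => 2 * p n) π LI
  fn : Fn φ ψ K
  e0 : 0 ≤ e
  N1 : 1 ≤ Γ.N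
  p0 : ∀ n, 0 ≤ p n
  W0 : ∀ n, 0 ≤ W n
  c0 : ∀ n, 0 ≤ c n
  dens : ∀ n, 1 ≤ n → n < Γ.N →
      2 * (cl (kk (Γ.N + 1)) : ℝ) *
        (3 ^ d * Γ.J * (6 * Γ.L (n - 1) + 1) ^ d * (2 * Γ.ρ n + 1) ^ d) ≤ cl (kk (n + 1))
  cost : ∀ n, 1 ≤ n → n < Γ.N → ∀ (x : X) (a : X → ℝ) (r : X → ℝ≥0),
      th * cl (kk n) ≤ r x + cl (kk (Γ.N + 1)) → ∫ U, ψ x U ∂(gm a r) ≤ c n
  wgt : ∀ n, 1 ≤ n → n < Γ.N → ∀ B,
      ((Γ.nbh (Γ.enl (n - 1) {B} 2) (Γ.ρ n)).card : ℝ) * c n ≤ W (n - 1)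
  w1 : 1 ≤ W (Γ.N - 1)
  w2 : 1 ≤ W Γ.N
  w3 : 1 ≤ W (Γ.N + 1)

/-- the marked sites -/
structure Mk (Γ : Geo X) (cl : ℕ → ℝ≥0) (n k : ℕ) (L : Lb X) (r : X → ℝ≥0) (S : Finset X) :
    Prop where
  fresh : ∀ y, y ∉ S → cl (k + 1) ≤ r y
  dead : ∀ y, y ∉ L.run → y ∉ L.pend → y ∈ S
  opn : n < Γ.N → ∀ y ∈ L.op, ∀ z, Γ.D z y ≤ Γ.ρ n → z ∈ S
  lst : Γ.N ≤ n → L.op = ∅

/-- the blocks of level `j` -/
def bb (Γ : Geo X) (j : ℕ) : Finset X := {B | Γ.bl j B = B}

/-- the value in super-stage `n` -/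
def vx (Γ : Geo X) (W : ℕ → ℝ) (e : ℝ) (n : ℕ) (x : ℕ × X → ℝ) : ℝ :=
  vw Γ.ch Γ.J (Γ.N + 2) W (bb Γ) e n x

variable {Γ : Geo X} {d : ℕ} {o : X} {th : ℝ≥0} {kk : ℕ → ℕ} {cl : ℕ → ℝ≥0}
  {Kn Dn : ℕ → ℕ} {p π c W : ℕ → ℝ} {K e : ℝ} {φ : (X → ℝ) → ℝ} {ψ : X → (X → ℝ) → ℝ}
  {LI : ℕ → Lb X → Prop}

/-- freezing does not change the marks -/
theorem Mk.add {n k : ℕ} {L : Lb X} {r r' : X → ℝ≥0} {S : Finset X} (h : Mk Γ cl n k L r S)
    (𝓑 : Finset X) (hr : ∀ y, y ∉ S → cl (k + 1) ≤ r' y) : Mk Γ cl n k (L.add Γ n 𝓑) r' S := by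
  refine ⟨hr, fun y h1 h2 => ?_, fun hn y hy z hz => h.opn hn y hy z hz, fun hn => h.lst hn⟩
  have hrun : (L.add Γ n 𝓑).run = L.run \ Γ.enl n 𝓑 1 := rfl
  have hpend : (L.add Γ n 𝓑).pend = L.pend ∪ (L.run ∩ Γ.enl n 𝓑 1) := rfl
  rw [hrun, Finset.mem_sdiff] at h1
  rw [hpend, Finset.mem_union, Finset.mem_inter] at h2
  refine h.dead y ?_ ?_ <;> tauto

theorem Mk.next {n k : ℕ} {L : Lb X} {r : X → ℝ≥0} {S : Finset X} (h : Mk Γ cl n k L r S)
    (hcl : cl (k + 1 + 1) ≤ cl (k + 1)) : Mk Γ cl n (k + 1) L r S :=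
  ⟨fun y hy => hcl.trans (h.fresh y hy), h.dead, h.opn, h.lst⟩

/-- during a stage -/
theorem stage_mid2 (H : Hp Γ d o th kk cl Kn Dn p π c W K e φ ψ LI)
    (A : Ana Γ d o ∅ th kk cl Kn Dn p) (S : Finset X)
    {n k : ℕ} (hn : n ≤ Γ.N) (hk1 : kk n ≤ k) (hk2 : k < kk (n + 1))
    (next : ∀ (T : Cfg X) (L : Lb X) (a : X → ℝ) (r : X → ℝ≥0) (x : ℕ × X → ℝ),
      Bs Γ kk cl Dn π LI n (k + 1) ∅ T L a r x → Mk Γ cl n (k + 1) L r S →
      A.HS n (k + 1) T L.run →
      (∀ B, Γ.bl n B = B → B ∉ L.bad n →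
        2 * p n * ((kk (n + 1) : ℝ) - (k + 1) + (Γ.L n : ℝ) ^ d) ≤ x (n, B)) →
      Wg (gS φ ψ S) (cl (kk (Γ.N + 1))) a r (vx Γ W e n x))
    (T₀ : Cfg X) (run₀ : Finset X) (hHS : A.HS n k T₀ run₀) (hFc : Fc Γ kk cl Dn n k ∅ T₀ run₀)
    (W' : Finset X) :
    (∀ B ∈ W', Γ.bl n B = B) →
    ∀ (T : Cfg X) (L : Lb X) (a : X → ℝ) (r : X → ℝ≥0) (x : ℕ × X → ℝ),
      Bs Γ kk cl Dn π LI n k (Pw Γ n W') T L a r x → Mk Γ cl n k L r S →
      A.HM n k T₀ run₀ (Pw Γ n W') T L.run →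
      (∀ B, Γ.bl n B = B → B ∉ L.bad n →
        2 * p n * ((kk (n + 1) : ℝ) - (k + 1) + (Γ.L n : ℝ) ^ d + if B ∈ W' then 1 else 0) ≤
          x (n, B)) →
      Wg (gS φ ψ S) (cl (kk (Γ.N + 1))) a r (vx Γ W e n x) := by
  have h := H.pr
  have hfk : cl (kk (Γ.N + 1)) ≤ cl (k + 1) := by
    refine h.cl_anti ?_
    have h1 : kk (n + 1) ≤ kk (Γ.N + 1) :=
      monotone_nat_of_le_succ (fun n => h.kk_le n) (by omega)
    omega
  induction W' using Finset.induction_on with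
  | empty =>
    intro _ T L a r x hB hMk hM hc
    rw [Pw_empty] at hB hM
    obtain ⟨m, hm⟩ := A.fin n k T₀ run₀ T L.run hn hk1 hk2 hHS hFc hB.fc hM
    refine next (T.rg m) L a r x (hB.stage m) (hMk.next (h.cl_succ_le _)) hm fun B h1 h2 => ?_
    have := hc B h1 h2
    rw [if_neg (Finset.notMem_empty B), add_zero] at this
    exact this
  | insert B W' hBW ih =>
    intro hW T L a r x hB hMk hM hc
    have hBB : Γ.bl n B = B := hW B (Finset.mem_insert_self B W')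
    have hW' : ∀ B ∈ W', Γ.bl n B = B := fun C hC => hW C (Finset.mem_insert_of_mem hC)
    have hPP := Pw_insert (Γ := Γ) (n := n) hBW
    have hdis := Pw_disj (Γ := Γ) (n := n) (W := W') (B := B)
    have hPsub : Pw Γ n (insert B W') ⊆ Pw Γ n W' := by rw [← hPP]; exact Finset.subset_union_left
    have hp0 : 0 ≤ 2 * p n := h.p0 n
    by_cases hBb : B ∈ L.bad n
    · -- the block is bad: skip
      have hfz := (h.fac n L hB.li).frz
      have hd' : ∀ y ∈ L.run, y ∈ Pw Γ n W' → y ∈ Pw Γ n (insert B W') := by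
        intro y hy hy2
        rw [← hPP, Finset.mem_union] at hy2
        rcases hy2 with h1 | h1
        · exact h1
        · exact absurd (blk_sub_enl h.geo hBb 1 h1) (Finset.disjoint_left.mp hfz hy)
      have hB' := hB.skip h hk1 hPsub hd'
      refine ih hW' T L a r x hB' hMk ?_ fun C h1 h2 => ?_
      · exact A.mmon n k T₀ run₀ _ _ T L.run L.run hPsub (Finset.Subset.refl _) hB.fc hB'.fc hM
      · refine le_trans (mul_le_mul_of_nonneg_left ?_ hp0) (hc C h1 h2)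
        by_cases hC : C ∈ W'
        · rw [if_pos hC, if_pos (Finset.mem_insert_of_mem hC)]
        · rw [if_neg hC]
          split_ifs <;> linarith only
    · -- a trial
      set U := L.run ∩ Γ.blk n B with hU
      have hkk : (k : ℝ) + 1 ≤ kk (n + 1) := by exact_mod_cast hk2
      have hL0 : (0 : ℝ) ≤ (Γ.L n : ℝ) ^ d := by positivity
      have hpx : 2 * p n ≤ x (n, B) := by
        have h1 := hc B hBB hBb
        rw [if_pos (Finset.mem_insert_self B W')] at h1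
        refine le_trans ?_ h1
        have h2 := mul_le_mul_of_nonneg_left
          (by linarith only [hkk, hL0] : (1 : ℝ) ≤ (kk (n + 1) : ℝ) - (k + 1) + (Γ.L n : ℝ) ^ d + 1) hp0
        linarith only [h2]
      -- the sites of `U` have the clock `cl k`
      have hUs : ∀ y ∈ U, T.s y = cl k ∧ r y = cl k := by
        intro y hy
        have hyr : y ∈ L.run := (Finset.mem_inter.mp hy).1
        have hyP : y ∉ Pw Γ n (insert B W') := fun hP =>
          Finset.disjoint_left.mp hdis hP (Finset.mem_inter.mp hy).2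
        have h1 := hB.fc.runs y hyr
        rw [if_neg hyP] at h1
        exact ⟨h1, by rw [(hB.tru y (hB.disj h hyr)).2, h1]⟩
      have hτ : ∀ y, T.hv th U y ≤ r y - cl (kk (Γ.N + 1)) := by
        intro y
        unfold Cfg.hv
        split_ifs with hy
        · rw [(hUs y hy).1, (hUs y hy).2]
          refine le_tsub_of_add_le_left ?_
          have h1 : th * cl k + (1 - th) * cl k = cl k := by
            rw [← add_mul, add_tsub_cancel_of_le h.th1.le, one_mul]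
          calc cl (kk (Γ.N + 1)) + (1 - th) * cl k ≤ cl (k + 1) + (1 - th) * cl k := by gcongr
            _ = th * cl k + (1 - th) * cl k := by rw [h.cls]
            _ = cl k := h1
        · exact zero_le
      -- the fresh sites stay fresh
      have hfr : ∀ y, y ∉ S → cl (k + 1) ≤ r y - T.hv th U y := by
        intro y hy
        by_cases hyU : y ∈ U
        · unfold Cfg.hv
          rw [if_pos hyU, (hUs y hyU).1, (hUs y hyU).2, h.cls]
          refine le_of_eq (tsub_eq_of_eq_add ?_).symm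
          rw [← add_mul, add_tsub_cancel_of_le h.th1.le, one_mul]
        · unfold Cfg.hv
          rw [if_neg hyU, tsub_zero]
          exact hMk.fresh y hy
      have hle2 : ENNReal.ofReal (p n) ≤ ENNReal.ofReal (2 * p n) :=
        ENNReal.ofReal_le_ofReal (by linarith only [H.p0 n, hp0])
      unfold vx
      refine wg_trial H.W0 (tree_ch Γ) hB.x0 (n, B) hp0 hpx (hB.x1 _) _ a r (T.hv th U) hτ
        (H.fn.bm S)
        {ζ | ¬ A.HM n k T₀ run₀ (Pw Γ n (insert B W') ∪ Γ.blk n B) (T.hf th U ζ) L.run} ?_ ?_ ?_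
      · exact (A.flo n k T₀ run₀ _ T L.run B hn hk1 hk2 hBB hdis hHS hFc hB.fc hM).trans hle2
      · intro ζ hζ hR
        rw [Set.mem_setOf_eq, not_not, hPP] at hR
        have hB' := hB.upd h hBb hdis hpx ζ hζ
        rw [hPP] at hB'
        refine ih hW' (T.hf th U ζ) L _ _ _ hB' ⟨hfr, hMk.dead, hMk.opn, hMk.lst⟩ hR
          fun C h1 h2 => ?_
        have h3 := hc C h1 h2
        by_cases hCB : C = B
        · subst hCB
          rw [Function.update_self, if_neg hBW]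
          rw [if_pos (Finset.mem_insert_self C W')] at h3
          linarith only [h3]
        · rw [Function.update_of_ne (by simpa using hCB)]
          refine le_trans (mul_le_mul_of_nonneg_left ?_ hp0) h3
          by_cases hC : C ∈ W'
          · rw [if_pos hC, if_pos (Finset.mem_insert_of_mem hC)]
          · rw [if_neg hC]
            split_ifs <;> linarith only
      · intro ζ hζ
        have hζ' : ∀ y, y ∉ U → ζ y = 0 ∧ T.hv th U y = 0 := fun y hy => by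
          have e : T.hv th U y = 0 := by unfold Cfg.hv; rw [if_neg hy]
          exact ⟨hζ y e, e⟩
        have hsb : Γ.blk n B ⊆ Γ.enl n {B} 1 := blk_sub_enl h.geo (Finset.mem_singleton_self B) 1
        have hB' := hB.rej h (a' := fun y => a y + ζ y) (r' := fun y => r y - T.hv th U y) hk1 hBB
          hPsub (fun y _ hy hy2 => by
            rw [← hPP, Finset.mem_union] at hy2
            rcases hy2 with h1 | h1
            · exact h1
            · exact absurd (hsb h1) hy)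
          (fun y _ hy => by
            obtain ⟨e1, e2⟩ := hζ' y fun hU' => hy (hsb (Finset.mem_inter.mp hU').2)
            rw [e1, e2, add_zero, tsub_zero]
            exact ⟨rfl, rfl⟩)
          (fun y _ hy => by
            obtain ⟨e1, e2⟩ := hζ' y fun hU' => hy (Finset.mem_inter.mp hU').1
            rw [e1, e2, add_zero, tsub_zero]
            exact ⟨rfl, rfl⟩)
        refine ih hW' T (L.add Γ n {B}) _ _ _ hB' (hMk.add {B} hfr) ?_ fun C h1 h2 => ?_
        · exact A.mmon n k T₀ run₀ _ _ T L.run _ hPsub Finset.sdiff_subset hB.fc hB'.fc hM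
        · have hbad : (L.add Γ n {B}).bad n = L.bad n ∪ {B} := by
            show Function.update L.bad n (L.bad n ∪ {B}) n = _
            rw [Function.update_self]
          rw [hbad, Finset.mem_union, Finset.mem_singleton, not_or] at h2
          rw [Function.update_of_ne (by simpa using h2.2)]
          refine le_trans (mul_le_mul_of_nonneg_left ?_ hp0) (hc C h1 h2.1)
          by_cases hC : C ∈ W'
          · rw [if_pos hC, if_pos (Finset.mem_insert_of_mem hC)]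
          · rw [if_neg hC]
            split_ifs <;> linarith only

/-- one stage -/
theorem stage_step2 (H : Hp Γ d o th kk cl Kn Dn p π c W K e φ ψ LI)
    (A : Ana Γ d o ∅ th kk cl Kn Dn p) (S : Finset X)
    {n k : ℕ} (hn : n ≤ Γ.N) (hk1 : kk n ≤ k) (hk2 : k < kk (n + 1))
    (next : ∀ (T : Cfg X) (L : Lb X) (a : X → ℝ) (r : X → ℝ≥0) (x : ℕ × X → ℝ),
      Bs Γ kk cl Dn π LI n (k + 1) ∅ T L a r x → Mk Γ cl n (k + 1) L r S →
      A.HS n (k + 1) T L.run →
      (∀ B, Γ.bl n B = B → B ∉ L.bad n →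
        2 * p n * ((kk (n + 1) : ℝ) - (k + 1) + (Γ.L n : ℝ) ^ d) ≤ x (n, B)) →
      Wg (gS φ ψ S) (cl (kk (Γ.N + 1))) a r (vx Γ W e n x))
    (T : Cfg X) (L : Lb X) (a : X → ℝ) (r : X → ℝ≥0) (x : ℕ × X → ℝ)
    (hB : Bs Γ kk cl Dn π LI n k ∅ T L a r x) (hMk : Mk Γ cl n k L r S)
    (hHS : A.HS n k T L.run)
    (hc : ∀ B, Γ.bl n B = B → B ∉ L.bad n →
        2 * p n * ((kk (n + 1) : ℝ) - k + (Γ.L n : ℝ) ^ d) ≤ x (n, B)) :
    Wg (gS φ ψ S) (cl (kk (Γ.N + 1))) a r (vx Γ W e n x) := by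
  have h := H.pr
  have hP : Pw Γ n (Finset.univ.filter fun B => Γ.bl n B = B) = ∅ := by
    ext y
    simp [mem_Pw, h.geo.idem]
  refine stage_mid2 H A S hn hk1 hk2 next T L.run hHS hB.fc
    (Finset.univ.filter fun B => Γ.bl n B = B) (fun B hB => by simpa using hB) T L a r x
    (by rw [hP]; exact hB) hMk ?_ fun B h1 h2 => ?_
  · rw [hP]
    exact A.beg n k T L.run hn hk1 hk2 hB.fc hHS
  · refine le_trans (le_of_eq ?_) (hc B h1 h2)
    rw [if_pos (by simpa using h1)]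
    ring

end Pool.Agent.ANP.AC
end
end -- Pool.Agent.Helper16_AC.Stage

section -- Pool.Agent.Helper16_ANP.PrtE

/-! The main induction of the protocol, part 5: release phase, end, final theorem. -/

set_option autoImplicit false

open MeasureTheory ProbabilityTheory

open scoped ENNReal NNReal BigOperators

noncomputable section

namespace Pool.Agent.ANP.H16

variable {X : Type} [Fintype X] [DecidableEq X]
  {Γ : Geo X} {d : ℕ} {o : X} {F : Set (X → ℝ)} {th : ℝ≥0} {kk : ℕ → ℕ} {cl : ℕ → ℝ≥0}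
  {Kn Dn : ℕ → ℕ} {p π : ℕ → ℝ} {LI : ℕ → Lb X → Prop}

/-- the number of the sites of `W` in the block `B` -/
def cnt (Γ : Geo X) (n : ℕ) (W : Finset X) (B : X) : ℝ :=
  ((W.filter fun y => Γ.bl n y = B).card : ℝ)

theorem cnt_nonneg (n : ℕ) (W : Finset X) (B : X) : 0 ≤ cnt Γ n W B := Nat.cast_nonneg _

theorem cnt_insert {n : ℕ} {W : Finset X} {z : X} (hz : z ∉ W) (B : X) :
    cnt Γ n (insert z W) B = cnt Γ n W B + if Γ.bl n z = B then 1 else 0 := by
  unfold cnt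
  rw [Finset.filter_insert]
  split_ifs with h
  · rw [Finset.card_insert_of_notMem (fun h2 => hz (Finset.mem_filter.mp h2).1)]
    push_cast
    ring
  · rw [add_zero]

theorem cnt_le_insert {n : ℕ} {W : Finset X} {z : X} (hz : z ∉ W) (B : X) :
    cnt Γ n W B ≤ cnt Γ n (insert z W) B := by
  rw [cnt_insert hz]
  split_ifs <;> linarith

/-- the release phase -/
theorem rel_mid (h : Pr Γ d o F th kk cl Kn Dn p π LI) (A : Ana Γ d o F th kk cl Kn Dn p)
    {n : ℕ} (hn : n ≤ Γ.N)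
    (next : ∀ (T : Cfg X) (L : Lb X) (a : X → ℝ) (r : X → ℝ≥0) (x : ℕ × X → ℝ),
      Bs Γ kk cl Dn π LI (n + 1) (kk (n + 1)) ∅ T L a r x → A.HS (n + 1) (kk (n + 1)) T L.run →
      (∀ B, Γ.bl (n + 1) B = B → B ∉ L.bad (n + 1) →
        p (n + 1) * ((kk (n + 2) : ℝ) - kk (n + 1) + (Γ.L (n + 1) : ℝ) ^ d) ≤ x (n + 1, B)) →
      Win F a r (vv Γ o x))
    (T₀ : Cfg X) (run₀ : Finset X) (hHS : A.HS n (kk (n + 1)) T₀ run₀)
    (hFc : Fc Γ kk cl Dn n (kk (n + 1)) ∅ T₀ run₀) (W : Finset X) :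
    ∀ (P : Finset X) (T : Cfg X) (L : Lb X) (a : X → ℝ) (r : X → ℝ≥0) (x : ℕ × X → ℝ),
      Bs Γ kk cl Dn π LI n (kk (n + 1)) ∅ T L a r x → A.HR n T₀ run₀ P T L.run →
      (∀ y ∈ P, ∃ c ∈ L.op, Dnp Γ n L c ∧ ∃ q ∈ L.cmp Γ n c, Γ.D q y ≤ Γ.ρ n) →
      (∀ c ∈ L.op, c ∉ W → Dnp Γ n L c) →
      (∀ B, Γ.bl n B = B → B ∉ L.bad n → p n * cnt Γ n W B ≤ x (n, B)) →
      Win F a r (vv Γ o x) := by
  have hp0 := h.p0 n
  induction W using Finset.induction_on with
  | empty =>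
    intro P T L a r x hB hHR _ hdone _
    have hel : ∀ c ∈ L.op, ¬ L.elig Γ n (L.cmp Γ n c) := fun c hc =>
      dnp_not_elig (hdone c hc (Finset.notMem_empty c))
    have hB0 := hB.next h hel T.mb
    have hsub : (L.nxt Γ n).run ⊆ L.run := by
      show (L.run \ _) \ _ ⊆ L.run
      exact Finset.sdiff_subset.trans Finset.sdiff_subset
    have hfc' : Fc Γ kk cl Dn (n + 1) (kk (n + 1)) ∅ T (L.nxt Γ n).run := hB0.fc
    obtain ⟨m, hm⟩ := A.rfin n T₀ run₀ P T L.run (L.nxt Γ n).run hn hHS hFc hB.fc hHR hsub hfc'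
    refine next (T.rg m) (L.nxt Γ n) a r x (hB.next h hel m) hm fun B _ _ => ?_
    refine le_trans ?_ (hB.cj (n + 1) (Nat.lt_succ_self n) B)
    exact h.pp (n + 1)
  | insert z W hzW ih =>
    intro P T L a r x hB hHR hP hdone hc
    have hfac := h.fac n L hB.li
    by_cases hz : z ∈ L.op ∧ L.elig Γ n (L.cmp Γ n z)
    · -- an attempt
      obtain ⟨hzo, hel⟩ := hz
      set Q := L.cmp Γ n z with hQ
      set B := Γ.bl n z with hBdef
      have hn1 : 1 ≤ n := by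
        by_contra hc
        have h0 : n = 0 := by omega
        rw [hfac.pen h0] at hzo
        exact absurd hzo (Finset.notMem_empty z)
      have hzQ : z ∈ Q := self_comp hzo
      have hBB : Γ.bl n B = B := h.geo.idem n z
      have hBb : B ∉ L.bad n := by
        intro hb
        have h1 : z ∈ Γ.enl n (L.bad n) 1 :=
          blk_sub_enl h.geo hb 1 (by rw [mem_blk])
        have h2 := hel.2 z hzQ z h1
        rw [h.geo.self] at h2
        exact absurd h2 (Nat.not_lt_zero _)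
      obtain ⟨hrel1, hrel2, hrel3⟩ := hfac.rel z hzo hel
      have hQp : Q ⊆ L.pend := hel.1
      have hpx : p n ≤ x (n, B) := by
        have h1 := hc B hBB hBb
        rw [cnt_insert hzW, if_pos rfl] at h1
        have h2 := mul_nonneg hp0 (cnt_nonneg (Γ := Γ) n W B)
        linarith only [h1, h2]
      have hdisRQ : Disjoint (L.run ∩ Γ.nbh Q (Γ.ρ n)) Q := by
        rw [Finset.disjoint_left]
        intro y hy hyQ
        exact hB.disj h (Finset.mem_inter.mp hy).1 (hQp hyQ)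
      -- the value
      have hval := val_step (J := Γ.J) (N := Γ.N + 2) (near := Γ.near o) (e₀ := 1 / 4)
        (tree_ch Γ) hB.x0 (n, B) hp0 (hpx.trans (hB.x1 _)) hpx
      have hle : val Γ.ch Γ.J (Γ.N + 2) (Γ.near o) (1 / 4)
          (Function.update x (n, B) (x (n, B) - p n)) ≤
          val Γ.ch Γ.J (Γ.N + 2) (Γ.near o) (1 / 4) (Function.update x (n, B) 1) :=
        val_mono (upd_nonneg hB.x0 _ (sub_nonneg.mpr hpx))
          (upd_le _ (by linarith only [hB.x1 (n, B), hp0]))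
      refine win_mono (e := val Γ.ch Γ.J (Γ.N + 2) (Γ.near o) (1 / 4)
          (Function.update x (n, B) (x (n, B) - p n)) +
          p n * (val Γ.ch Γ.J (Γ.N + 2) (Γ.near o) (1 / 4) (Function.update x (n, B) 1) -
            val Γ.ch Γ.J (Γ.N + 2) (Γ.near o) (1 / 4)
              (Function.update x (n, B) (x (n, B) - p n)))) ?_ (by unfold vv; linarith only [hval])
      refine atw X F h.hF (L.run ∩ Γ.nbh Q (Γ.ρ n)) Q
        (fun v T' => (∀ x ∈ Q, T'.V x = v x ∧ T'.s x = 0) ∧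
          ({x ∈ L.run | T'.s x = 0} : Finset X).card ≤ Kn n ∧
          A.HR n T₀ run₀ (P ∪ Γ.nbh Q (Γ.ρ n)) T' {x ∈ L.run | T'.s x ≠ 0})
        T a r (p n) _ _ hdisRQ hp0
        (val_nonneg (upd_nonneg hB.x0 _ (sub_nonneg.mpr hpx)) (by norm_num)) hle
        (fun y hy => hB.tru y (hB.disj h (Finset.mem_inter.mp hy).1)) ?_ ?_ ?_
      · intro v
        refine A.kil n T₀ run₀ P T L.run Q v hn hn1 hHS hFc hB.fc hHR ⟨z, hzQ⟩
          (fun y hy => ⟨fun hr => hB.disj h hr (hQp hy), hB.ppos y (hQp hy)⟩)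
          (fun y hy w hw => ?_) hrel2 (fun y hy w hD => ?_) (fun y hy w hw => ?_)
        · have h1 := hrel1 y hy
          have h2 := hrel1 w hw
          have h3 := h.geo.tri y z w
          rw [h.geo.comm y z] at h3
          omega
        · by_cases hwQ : w ∈ Q
          · exact Or.inl hwQ
          · right
            by_cases hwr : w ∈ L.run
            · exact Or.inl hwr
            · right
              refine hB.dead w hwr fun hwp => ?_
              exact absurd (hrel3 y hy w hwp hwQ) (not_lt.mpr hD)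
        · obtain ⟨c, _, hdc, q, hq, hqD⟩ := hP w hw
          by_contra hcon
          have h1 : Γ.D y w ≤ 3 * Γ.ρ n := not_lt.mp hcon
          have h2 := h.geo.tri q w y
          rw [h.geo.comm w y] at h2
          have h3 : Γ.D q y ≤ 10 * Γ.ρ n := by omega
          have h4 : L.cmp Γ n c = L.cmp Γ n z := comp_eq h.geo hq hy h3
          refine dnp_not_elig hdc ?_
          rw [h4]
          exact hel
      · -- success
        intro v T' a' r' hOk hmb hR1 hR2 hQ1 hoff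
        obtain ⟨hOk1, hOk2, hOk3⟩ := hOk
        have hKdef : ∀ y, y ∈ ({x ∈ L.run | T'.s x = 0} : Finset X) ↔
            y ∈ L.run ∧ T'.s y = 0 := fun y => Finset.mem_filter
        have hB' := hB.die h hBb hpx hzo hel
          (fun y hy => ⟨by rw [(hQ1 y hy).1, (hOk1 y hy).1], (hQ1 y hy).2, (hOk1 y hy).2⟩)
          hR1 hR2 hoff _ hKdef hOk2
        have hrun' : (L.die n ({x ∈ L.run | T'.s x = 0} : Finset X) Q).run =
            ({x ∈ L.run | T'.s x ≠ 0} : Finset X) := by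
          ext y
          show y ∈ L.run \ _ ↔ _
          rw [Finset.mem_sdiff, hKdef, Finset.mem_filter]
          tauto
        refine ih (P ∪ Γ.nbh Q (Γ.ρ n)) T' _ a' r' _ hB' (by rw [hrun']; exact hOk3) ?_ ?_ ?_
        · intro y hy
          rw [Finset.mem_union, mem_nbh] at hy
          rcases hy with hy | ⟨q, hq, hD⟩
          · obtain ⟨c, hc1, hc2, hc3⟩ := hP y hy
            exact ⟨c, hc1, dnp_die hc2, hc3⟩
          · refine ⟨z, hzo, Or.inl ⟨z, hzQ, fun h1 => ?_, fun h1 => ?_⟩, q, hq, ?_⟩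
            · exact hB.disj h (Finset.mem_sdiff.mp h1).1 (hQp hzQ)
            · exact (Finset.mem_sdiff.mp h1).2 hzQ
            · rw [h.geo.comm]; exact hD
        · intro c hc1 hc2
          by_cases hcz : c = z
          · subst hcz
            exact Or.inl ⟨c, hzQ, fun h1 => hB.disj h (Finset.mem_sdiff.mp h1).1 (hQp hzQ),
              fun h1 => (Finset.mem_sdiff.mp h1).2 hzQ⟩
          · exact dnp_die (hdone c hc1 fun h1 => by
              rcases Finset.mem_insert.mp h1 with h1 | h1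
              · exact hcz h1
              · exact hc2 h1)
        · intro C h1 h2
          have h3 := hc C h1 h2
          rw [cnt_insert hzW] at h3
          by_cases hCB : C = B
          · subst hCB
            rw [Function.update_self]
            rw [if_pos rfl] at h3
            linarith only [h3]
          · rw [Function.update_of_ne (by simpa using hCB)]
            rw [if_neg (Ne.symm hCB), add_zero] at h3
            exact h3
      · -- failure
        intro a' r' hoff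
        have hRen : ∀ y, y ∈ L.run ∩ Γ.nbh Q (Γ.ρ n) → y ∈ Γ.enl n {B} 1 := by
          intro y hy
          obtain ⟨q, hq, hD⟩ := (mem_nbh Γ Q (Γ.ρ n) y).mp (Finset.mem_inter.mp hy).2
          rw [mem_enl]
          refine ⟨z, Finset.mem_singleton_self _, ?_⟩
          have h1 := hrel1 q hq
          have h2 := h.geo.tri y q z
          rw [h.geo.comm q z] at h2
          omega
        have hB' := hB.rej h (P' := ∅) (a' := a') (r' := r') (h.kk_le n) hBB
          (Finset.Subset.refl _) (fun y _ _ hy => hy)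
          (fun y hy hye => hoff y (fun hq => hy (hQp hq)) fun hR => hye (hRen y hR))
          (fun y hy hyr => hoff y (fun hq => hy (hQp hq))
            fun hR => hyr (Finset.mem_inter.mp hR).1)
        have hbad : (L.add Γ n {B}).bad n = L.bad n ∪ {B} := by
          show Function.update L.bad n (L.bad n ∪ {B}) n = _
          rw [Function.update_self]
        refine ih P T (L.add Γ n {B}) a' r' _ hB' ?_ ?_ ?_ ?_
        · exact A.rmon n T₀ run₀ P P T L.run _ (Finset.Subset.refl _) Finset.sdiff_subset hB.fc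
            hB'.fc hHR
        · intro y hy
          obtain ⟨c, hc1, hc2, hc3⟩ := hP y hy
          exact ⟨c, hc1, dnp_add hc2, hc3⟩
        · intro c hc1 hc2
          by_cases hcz : c = z
          · subst hcz
            right
            refine ⟨c, hzQ, c, ?_, ?_⟩
            · rw [hbad]
              refine blk_sub_enl h.geo (B := B)
                (Finset.mem_union_right _ (Finset.mem_singleton_self B)) 1 ?_
              rw [mem_blk]
            · rw [h.geo.self]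
              exact Nat.zero_le _
          · exact dnp_add (hdone c hc1 fun h1 => by
              rcases Finset.mem_insert.mp h1 with h1 | h1
              · exact hcz h1
              · exact hc2 h1)
        · intro C h1 h2
          rw [hbad, Finset.mem_union, Finset.mem_singleton, not_or] at h2
          rw [Function.update_of_ne (by simpa using h2.2)]
          refine le_trans (mul_le_mul_of_nonneg_left (cnt_le_insert hzW C) hp0) (hc C h1 h2.1)
    · -- nothing to do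
      refine ih P T L a r x hB hHR hP (fun c hc1 hc2 => ?_) fun C h1 h2 => ?_
      · by_cases hcz : c = z
        · subst hcz
          exact not_elig_dnp hB.opr fun hel => hz ⟨hc1, hel⟩
        · exact hdone c hc1 fun h1 => by
            rcases Finset.mem_insert.mp h1 with h1 | h1
            · exact hcz h1
            · exact hc2 h1
      · exact le_trans (mul_le_mul_of_nonneg_left (cnt_le_insert hzW C) hp0) (hc C h1 h2)

/-- the release phase of the super-stage `n` -/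
theorem rel_step (h : Pr Γ d o F th kk cl Kn Dn p π LI) (A : Ana Γ d o F th kk cl Kn Dn p)
    {n : ℕ} (hn : n ≤ Γ.N)
    (next : ∀ (T : Cfg X) (L : Lb X) (a : X → ℝ) (r : X → ℝ≥0) (x : ℕ × X → ℝ),
      Bs Γ kk cl Dn π LI (n + 1) (kk (n + 1)) ∅ T L a r x → A.HS (n + 1) (kk (n + 1)) T L.run →
      (∀ B, Γ.bl (n + 1) B = B → B ∉ L.bad (n + 1) →
        p (n + 1) * ((kk (n + 2) : ℝ) - kk (n + 1) + (Γ.L (n + 1) : ℝ) ^ d) ≤ x (n + 1, B)) →
      Win F a r (vv Γ o x))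
    (T : Cfg X) (L : Lb X) (a : X → ℝ) (r : X → ℝ≥0) (x : ℕ × X → ℝ)
    (hB : Bs Γ kk cl Dn π LI n (kk (n + 1)) ∅ T L a r x) (hHS : A.HS n (kk (n + 1)) T L.run)
    (hc : ∀ B, Γ.bl n B = B → B ∉ L.bad n →
        p n * ((kk (n + 1) : ℝ) - (kk (n + 1) : ℕ) + (Γ.L n : ℝ) ^ d) ≤ x (n, B)) :
    Win F a r (vv Γ o x) := by
  refine rel_mid h A hn next T L.run hHS hB.fc Finset.univ ∅ T L a r x hB
    (A.rbeg n T L.run hn hB.fc hHS) (fun y hy => absurd hy (Finset.notMem_empty y))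
    (fun c _ hc => absurd (Finset.mem_univ c) hc) fun B h1 h2 => ?_
  refine le_trans (mul_le_mul_of_nonneg_left ?_ (h.p0 n)) (hc B h1 h2)
  rw [sub_self, zero_add]
  unfold cnt
  have h3 := h.geo.bvol n B
  unfold Geo.blk at h3
  exact_mod_cast h3

/-- the end -/
theorem fin_step (h : Pr Γ d o F th kk cl Kn Dn p π LI) (A : Ana Γ d o F th kk cl Kn Dn p)
    (T : Cfg X) (L : Lb X) (a : X → ℝ) (r : X → ℝ≥0) (x : ℕ × X → ℝ)
    (hB : Bs Γ kk cl Dn π LI (Γ.N + 1) (kk (Γ.N + 1)) ∅ T L a r x)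
    (hHS : A.HS (Γ.N + 1) (kk (Γ.N + 1)) T L.run) : Win F a r (vv Γ o x) := by
  have hfac := h.fac _ L hB.li
  have hone : ∀ j ≤ Γ.N + 1, ∀ B ∈ L.bad j, B ∈ Γ.near o j → Win F a r (vv Γ o x) := by
    intro j hj B hB1 hB2
    have h1 := val_one (N := Γ.N + 2) (near := Γ.near o) (e₀ := 1 / 4) hB.x0 (by norm_num)
      (by omega : j < Γ.N + 2) hB2 (hB.qq j B hB1)
    unfold vv
    rw [h1]
    exact win_one F a r
  by_cases ho : o ∈ L.run
  · by_cases hfar : ∀ y, y ∉ L.run → T.s y ≠ 0 → 3 * Γ.ρ (Γ.N + 1) < Γ.D o y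
    · refine win_mono (A.out T L.run a r hHS hB.fc ho hfar fun y hy => hB.tru y ?_) ?_
      · intro hp
        rcases hy with h1 | h1
        · exact hB.disj h h1 hp
        · exact absurd h1 (hB.ppos y hp).ne'
      · unfold vv val
        refine le_min (by norm_num) ?_
        have := H72.phi_nonneg (ch := Γ.ch) (J := Γ.J) hB.x0 (Γ.N + 2) (Γ.near o)
        linarith only [this]
    · push Not at hfar
      obtain ⟨y, hyr, hys, hyD⟩ := hfar
      have hyp : y ∈ L.pend := by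
        by_contra hc
        exact hys (hB.dead y hyr hc)
      by_cases hyo : y ∈ L.op
      · have h1 := hfac.opn Γ.N rfl hyo
        obtain ⟨w, hw, hwD⟩ := (mem_enl Γ Γ.N (L.bad Γ.N) 2 y).mp h1
        refine hone Γ.N (Nat.le_succ _) (Γ.bl Γ.N w) hw ((mem_near Γ o Γ.N _).mpr
          ⟨h.geo.idem _ _, w, rfl, ?_⟩)
        have h2 := h.geo.tri o y w
        omega
      · have h1 := hfac.npe y hyp hyo
        obtain ⟨w, hw, hwD⟩ := (mem_enl Γ (Γ.N + 1) (L.bad (Γ.N + 1)) 1 y).mp h1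
        refine hone (Γ.N + 1) le_rfl (Γ.bl (Γ.N + 1) w) hw ((mem_near Γ o (Γ.N + 1) _).mpr
          ⟨h.geo.idem _ _, w, rfl, ?_⟩)
        have h2 := h.geo.tri o y w
        have h3 := h.scl.big Γ.N
        have h4 := h.scl.J1
        have h5 : 1 ≤ 3 ^ d * Γ.J := Nat.one_le_iff_ne_zero.mpr
          (Nat.mul_ne_zero (by positivity) (by omega))
        have h6 : 1 * (5 * Γ.L Γ.N + 12 * Γ.ρ (Γ.N + 1)) ≤
            3 ^ d * Γ.J * (5 * Γ.L Γ.N + 12 * Γ.ρ (Γ.N + 1)) := Nat.mul_le_mul_right _ h5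
        omega
  · obtain ⟨j, hj, B, hB1, hB2⟩ := hfac.orig ho
    exact hone j hj B hB1 hB2

/-- from the stage `k` to the end of the super-stage -/
theorem super_mid (h : Pr Γ d o F th kk cl Kn Dn p π LI) (A : Ana Γ d o F th kk cl Kn Dn p)
    {n : ℕ} (hn : n ≤ Γ.N)
    (next : ∀ (T : Cfg X) (L : Lb X) (a : X → ℝ) (r : X → ℝ≥0) (x : ℕ × X → ℝ),
      Bs Γ kk cl Dn π LI (n + 1) (kk (n + 1)) ∅ T L a r x → A.HS (n + 1) (kk (n + 1)) T L.run →
      (∀ B, Γ.bl (n + 1) B = B → B ∉ L.bad (n + 1) →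
        p (n + 1) * ((kk (n + 2) : ℝ) - kk (n + 1) + (Γ.L (n + 1) : ℝ) ^ d) ≤ x (n + 1, B)) →
      Win F a r (vv Γ o x)) (j : ℕ) :
    ∀ (k : ℕ), kk n ≤ k → k + j = kk (n + 1) →
    ∀ (T : Cfg X) (L : Lb X) (a : X → ℝ) (r : X → ℝ≥0) (x : ℕ × X → ℝ),
      Bs Γ kk cl Dn π LI n k ∅ T L a r x → A.HS n k T L.run →
      (∀ B, Γ.bl n B = B → B ∉ L.bad n →
        p n * ((kk (n + 1) : ℝ) - k + (Γ.L n : ℝ) ^ d) ≤ x (n, B)) →
      Win F a r (vv Γ o x) := by
  induction j with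
  | zero =>
    intro k _ hkj T L a r x hB hHS hc
    have hk : k = kk (n + 1) := by omega
    subst hk
    exact rel_step h A hn next T L a r x hB hHS hc
  | succ j ih =>
    intro k hk hkj T L a r x hB hHS hc
    refine stage_step h A hn hk (by omega) (fun T L a r x hB hHS hc => ?_) T L a r x hB hHS hc
    refine ih (k + 1) (by omega) (by omega) T L a r x hB hHS fun B h1 h2 => ?_
    have := hc B h1 h2
    push_cast
    exact this

/-- from the super-stage `n` to the end -/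
theorem all_super (h : Pr Γ d o F th kk cl Kn Dn p π LI) (A : Ana Γ d o F th kk cl Kn Dn p) (j : ℕ) :
    ∀ (n : ℕ), n + j = Γ.N + 1 →
    ∀ (T : Cfg X) (L : Lb X) (a : X → ℝ) (r : X → ℝ≥0) (x : ℕ × X → ℝ),
      Bs Γ kk cl Dn π LI n (kk n) ∅ T L a r x → A.HS n (kk n) T L.run →
      (∀ B, Γ.bl n B = B → B ∉ L.bad n →
        p n * ((kk (n + 1) : ℝ) - kk n + (Γ.L n : ℝ) ^ d) ≤ x (n, B)) →
      Win F a r (vv Γ o x) := by
  induction j with
  | zero =>
    intro n hn T L a r x hB hHS _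
    have hn' : n = Γ.N + 1 := by omega
    subst hn'
    exact fin_step h A T L a r x hB hHS
  | succ j ih =>
    intro n hn T L a r x hB hHS hc
    have hlt := h.kk_le n
    exact super_mid h A (by omega) (ih (n + 1) (by omega)) (kk (n + 1) - kk n) (kk n) le_rfl
      (by omega) T L a r x hB hHS hc

/-- PRT -/
theorem prt (hLab : LabStmt) : PrtStmt := by
  intro X _ _ Γ d o F th kk cl Kn Dn p π hF hG hS hth0 hth1 hDn hk0 hkk hcl hcl0 hp hpp hπ hA hPhi
  obtain ⟨A⟩ := hA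
  obtain ⟨LI, l0, l1, l2, l3, l4⟩ := hLab X Γ d o Kn Dn hG hS hDn
  have h : Pr Γ d o F th kk cl Kn Dn p π LI :=
    ⟨hF, hG, hS, hkk, hth0, hth1, hcl, hcl0, hp, hpp, l1, l2, l3, l4⟩
  have hπ0 : ∀ n, 0 ≤ π n := by
    intro n
    refine le_trans (mul_nonneg (hp n) ?_) (hpp n)
    have h1 : (kk n : ℝ) ≤ kk (n + 1) := by exact_mod_cast (hkk n).le
    have h2 : (0 : ℝ) ≤ (Γ.L n : ℝ) ^ d := by positivity
    linarith only [h1, h2]
  have hB : Bs Γ kk cl Dn π LI 0 (kk 0) ∅ ⟨fun _ => 0, fun _ => cl 0, A.m0⟩ (Lb.ini X)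
      (fun _ => 0) (fun _ => cl 0) (fun i => π i.1) := by
    refine ⟨l0, fun _ _ => rfl, ?_, fun c => hπ0 c.1, fun c => hπ c.1,
      fun j B hB => absurd hB (Finset.notMem_empty B), ⟨fun y _ => ?_, fun y hy => ?_, ?_,
        fun m hm => absurd hm (by omega)⟩, fun y hy => absurd hy (Finset.notMem_empty y),
      fun y hy => absurd (Finset.mem_univ y) hy, fun y hy => absurd hy (Finset.notMem_empty y),
      fun y _ => ⟨rfl, rfl⟩, fun j _ B => le_rfl⟩
    · exact Finset.disjoint_empty_left _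
    · rw [if_neg (Finset.notMem_empty y), hk0]
    · exact absurd (Finset.mem_univ y) hy
    · refine ⟨fun _ => ∅, fun y hy => absurd hy hcl0.ne', fun j B => ?_⟩
      rw [Finset.empty_inter, Finset.card_empty]
      exact Nat.zero_le _
  have h1 := all_super h A (Γ.N + 1) 0 (by omega) _ (Lb.ini X) _ _ _ hB
    (by rw [hk0]; exact A.ini) fun B _ _ => hpp 0
  refine win_mono h1 ?_
  unfold vv val
  refine (min_le_right _ _).trans ?_
  linarith only [hPhi]

end Pool.Agent.ANP.H16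
end
end -- Pool.Agent.Helper16_ANP.PrtE

section -- Pool.Agent.Helper16_AC.Rel

/-! The release phase and the next super-stage. -/

set_option autoImplicit false
set_option linter.unusedSectionVars false

open MeasureTheory ProbabilityTheory

open scoped ENNReal NNReal BigOperators

noncomputable section

namespace Pool.Agent.ANP.AC

open Pool.Agent.ANP Pool.Agent.ANP.H16

variable {X : Type} [Fintype X] [DecidableEq X]

/-- the density of an attempt -/
theorem fac_two (s f : ℝ≥0) (m : ℕ) (hs : 0 < s) (hf : f < s) (h : 2 * (f : ℝ) * m ≤ s) :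
    Real.sqrt ((s : ℝ) / ((s - f : ℝ≥0) : ℝ)) ^ m ≤ 2 := by
  have hs' : (0 : ℝ) < s := by exact_mod_cast hs
  have hf' : (f : ℝ) < s := by exact_mod_cast hf
  have e1 : ((s - f : ℝ≥0) : ℝ) = (s : ℝ) - f := NNReal.coe_sub hf.le
  rw [e1]
  have hd : (0 : ℝ) < (s : ℝ) - f := by linarith only [hf]
  set u : ℝ := (f : ℝ) / s with hu
  have hu0 : 0 ≤ u := div_nonneg (NNReal.coe_nonneg f) hs'.le
  have hu1 : u ≤ 1 := by rw [hu, div_le_one hs']; exact hf'.le
  have e2 : (s : ℝ) / ((s : ℝ) - f) = (1 + -u)⁻¹ := by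
    have e3 : 1 + -u = ((s : ℝ) - f) / s := by
      rw [hu, sub_div, div_self hs'.ne']
      ring
    rw [e3, inv_div]
  have h1 : 1 + (m : ℝ) * (-u) ≤ (1 + -u) ^ m := one_add_mul_le_pow (by linarith only [hu1]) m
  have h2 : (m : ℝ) * u ≤ 1 / 2 := by
    rw [hu, ← mul_div_assoc, div_le_iff₀ hs']
    linarith only [h]
  have h3 : 1 / 2 ≤ (1 + -u) ^ m := by linarith only [h1, h2]
  have h4 : ((s : ℝ) / ((s : ℝ) - f)) ^ m ≤ 2 := by
    rw [e2, inv_pow]
    calc ((1 + -u) ^ m)⁻¹ ≤ (1 / 2 : ℝ)⁻¹ := inv_anti₀ (by norm_num) h3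
      _ = 2 := by norm_num
  have h5 : 0 ≤ (s : ℝ) / ((s : ℝ) - f) := by positivity
  have h6 : (Real.sqrt ((s : ℝ) / ((s : ℝ) - f)) ^ m) ^ 2 ≤ 2 ^ 2 := by
    rw [← pow_mul, mul_comm m 2, pow_mul, Real.sq_sqrt h5]
    linarith only [h4]
  exact le_of_sq_le_sq h6 (by norm_num)

theorem card_nbh {Γ : Geo X} {d : ℕ} (hG : GeoOk Γ d) (Q : Finset X) (t : ℕ) :
    (Γ.nbh Q t).card ≤ Q.card * (2 * t + 1) ^ d := by
  have h1 : Γ.nbh Q t ⊆ Q.biUnion fun q => ({y | Γ.D q y ≤ t} : Finset X) := by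
    intro y hy
    obtain ⟨q, hq, hD⟩ := (mem_nbh Γ Q t y).mp hy
    rw [Finset.mem_biUnion]
    refine ⟨q, hq, ?_⟩
    rw [Finset.mem_filter]
    refine ⟨Finset.mem_univ y, ?_⟩
    rw [hG.comm]
    exact hD
  refine (Finset.card_le_card h1).trans (Finset.card_biUnion_le.trans ?_)
  calc ∑ q ∈ Q, ({y | Γ.D q y ≤ t} : Finset X).card ≤ ∑ q ∈ Q, (2 * t + 1) ^ d :=
        Finset.sum_le_sum fun q _ => hG.vol q t
    _ = Q.card * (2 * t + 1) ^ d := by rw [Finset.sum_const, smul_eq_mul]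

theorem nbh_enl_sub {Γ : Geo X} (n : ℕ) (𝓑 : Finset X) (k t : ℕ) :
    Γ.nbh (Γ.enl n 𝓑 k) t ⊆ 𝓑.biUnion fun B => Γ.nbh (Γ.enl n {B} k) t := by
  intro x hx
  obtain ⟨y, hy, hD⟩ := (mem_nbh Γ _ t x).mp hx
  obtain ⟨z, hz, hD'⟩ := (mem_enl Γ n 𝓑 k y).mp hy
  rw [Finset.mem_biUnion]
  refine ⟨Γ.bl n z, hz, (mem_nbh Γ _ t x).mpr ⟨y, ?_, hD⟩⟩
  exact (mem_enl Γ n _ k y).mpr ⟨z, Finset.mem_singleton_self _, hD'⟩

variable {Γ : Geo X} {d : ℕ} {o : X} {th : ℝ≥0} {kk : ℕ → ℕ} {cl : ℕ → ℝ≥0}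
  {Kn Dn : ℕ → ℕ} {p π c W : ℕ → ℝ} {K e : ℝ} {φ : (X → ℝ) → ℝ} {ψ : X → (X → ℝ) → ℝ}
  {LI : ℕ → Lb X → Prop}

/-- a bad block with weight one -/
theorem vx_one (H : Hp Γ d o th kk cl Kn Dn p π c W K e φ ψ LI) {x : ℕ × X → ℝ}
    (h0 : ∀ c, 0 ≤ x c) {n j : ℕ} (hn : n ≤ j) (hj : j < Γ.N + 2) (h1 : 1 ≤ W j) {B : X}
    (hB : Γ.bl j B = B) (h : 1 ≤ H72.QQ Γ.ch Γ.J x j B) (S : Finset X) (a : X → ℝ)
    (r : X → ℝ≥0) : Wg (gS φ ψ S) (cl (kk (Γ.N + 1))) a r (vx Γ W e n x) := by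
  refine wg_mono (H.fn.one S a _) ?_
  have h2 := wph_one (J := Γ.J) (M := Γ.N + 2) (bb := bb Γ) (n := n) H.W0 h0 hn hj h1
    (B := B) (by unfold bb; rw [Finset.mem_filter]; exact ⟨Finset.mem_univ B, hB⟩) h
  unfold vx vw
  have := H.e0
  linarith only [h2, this]

/-- the next super-stage -/
theorem trans2 (H : Hp Γ d o th kk cl Kn Dn p π c W K e φ ψ LI)
    (A : Ana Γ d o ∅ th kk cl Kn Dn p) (S : Finset X) {n : ℕ} (hn : n ≤ Γ.N)
    (next : ∀ (S' : Finset X) (T : Cfg X) (L : Lb X) (a : X → ℝ) (r : X → ℝ≥0) (x : ℕ × X → ℝ),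
      Bs Γ kk cl Dn π LI (n + 1) (kk (n + 1)) ∅ T L a r x → Mk Γ cl (n + 1) (kk (n + 1)) L r S' →
      A.HS (n + 1) (kk (n + 1)) T L.run →
      (∀ B, Γ.bl (n + 1) B = B → B ∉ L.bad (n + 1) →
        2 * p (n + 1) * ((kk (n + 2) : ℝ) - kk (n + 1) + (Γ.L (n + 1) : ℝ) ^ d) ≤ x (n + 1, B)) →
      Wg (gS φ ψ S') (cl (kk (Γ.N + 1))) a r (vx Γ W e (n + 1) x))
    (T₀ : Cfg X) (run₀ : Finset X) (hHS : A.HS n (kk (n + 1)) T₀ run₀)
    (hFc : Fc Γ kk cl Dn n (kk (n + 1)) ∅ T₀ run₀)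
    (P : Finset X) (T : Cfg X) (L : Lb X) (a : X → ℝ) (r : X → ℝ≥0) (x : ℕ × X → ℝ)
    (hB : Bs Γ kk cl Dn π LI n (kk (n + 1)) ∅ T L a r x) (hMk : Mk Γ cl n (kk (n + 1)) L r S)
    (hHR : A.HR n T₀ run₀ P T L.run) (hel : ∀ c ∈ L.op, ¬ L.elig Γ n (L.cmp Γ n c)) :
    Wg (gS φ ψ S) (cl (kk (Γ.N + 1))) a r (vx Γ W e n x) := by
  have h := H.pr
  have hfac := h.fac n L hB.li
  have hB0 := hB.next h hel T.mb
  have hsub : (L.nxt Γ n).run ⊆ L.run := by
    show (L.run \ _) \ _ ⊆ L.run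
    exact Finset.sdiff_subset.trans Finset.sdiff_subset
  have hfc' : Fc Γ kk cl Dn (n + 1) (kk (n + 1)) ∅ T (L.nxt Γ n).run := hB0.fc
  obtain ⟨m, hm⟩ := A.rfin n T₀ run₀ P T L.run (L.nxt Γ n).run hn hHS hFc hB.fc hHR hsub hfc'
  have hB1 := hB.next h hel m
  have hcoin : ∀ B, Γ.bl (n + 1) B = B → B ∉ (L.nxt Γ n).bad (n + 1) →
      2 * p (n + 1) * ((kk (n + 2) : ℝ) - kk (n + 1) + (Γ.L (n + 1) : ℝ) ^ d) ≤ x (n + 1, B) := by
    intro B _ _
    refine le_trans ?_ (hB.cj (n + 1) (Nat.lt_succ_self n) B)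
    exact h.pp (n + 1)
  have hfac1 := h.fac (n + 1) (L.nxt Γ n) hB1.li
  have hbadn : (L.nxt Γ n).bad n = L.bad n := by
    show Function.update L.bad (n + 1) (L.bad (n + 1) ∪ L.many Γ n) n = _
    rw [Function.update_of_ne (by omega)]
  have hopn := hfac1.opn n rfl
  rw [hbadn] at hopn
  -- outside of the new labels
  have hout : ∀ y, y ∉ (L.nxt Γ n).run → y ∉ (L.nxt Γ n).pend → y ∈ S := by
    intro y h1 h2
    have hrun : (L.nxt Γ n).run = (L.run \ Γ.nbh (L.op ∩ L.pend) (3 * Γ.ρ n)) \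
      Γ.enl (n + 1) (L.many Γ n) 1 := rfl
    have hpend : (L.nxt Γ n).pend = (L.pend ∪ (L.run ∩ Γ.nbh (L.op ∩ L.pend) (3 * Γ.ρ n))) ∪
      ((L.run \ Γ.nbh (L.op ∩ L.pend) (3 * Γ.ρ n)) ∩ Γ.enl (n + 1) (L.many Γ n) 1) := rfl
    rw [hrun, Finset.mem_sdiff, Finset.mem_sdiff] at h1
    rw [hpend, Finset.mem_union, Finset.mem_union, Finset.mem_inter (s₁ := L.run),
      Finset.mem_inter (s₁ := L.run \ _), Finset.mem_sdiff] at h2
    refine hMk.dead y ?_ ?_ <;> tauto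
  by_cases hN : n + 1 < Γ.N
  · -- mark
    set S' : Finset X := S ∪ Γ.nbh (Γ.enl n (L.bad n) 2) (Γ.ρ (n + 1)) with hS'
    have hMk' : Mk Γ cl (n + 1) (kk (n + 1)) (L.nxt Γ n) r S' := by
      refine ⟨fun y hy => hMk.fresh y fun hyS => hy (Finset.mem_union_left _ hyS),
        fun y h1 h2 => Finset.mem_union_left _ (hout y h1 h2), fun _ y hy z hz => ?_,
        fun h3 => absurd h3 (by omega)⟩
      exact Finset.mem_union_right _ ((mem_nbh Γ _ _ z).mpr ⟨y, hopn hy, hz⟩)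
    have hw := next S' (T.rg m) (L.nxt Γ n) a r x hB1 hMk' hm hcoin
    unfold Wg at hw ⊢
    have hcard : ((S' \ S).card : ℝ) * c (n + 1) ≤
        W n * ∑ B ∈ bb Γ n, H72.QQ Γ.ch Γ.J x n B := by
      have h1 : (S' \ S).card ≤ ∑ B ∈ L.bad n, (Γ.nbh (Γ.enl n {B} 2) (Γ.ρ (n + 1))).card := by
        refine (Finset.card_le_card (t := Γ.nbh (Γ.enl n (L.bad n) 2) (Γ.ρ (n + 1))) ?_).trans
          ((Finset.card_le_card (nbh_enl_sub n (L.bad n) 2 (Γ.ρ (n + 1)))).trans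
            Finset.card_biUnion_le)
        intro y hy
        rw [Finset.mem_sdiff, hS', Finset.mem_union] at hy
        tauto
      have h2 : ((S' \ S).card : ℝ) ≤
          ∑ B ∈ L.bad n, ((Γ.nbh (Γ.enl n {B} 2) (Γ.ρ (n + 1))).card : ℝ) := by
        exact_mod_cast h1
      calc ((S' \ S).card : ℝ) * c (n + 1)
          ≤ (∑ B ∈ L.bad n, ((Γ.nbh (Γ.enl n {B} 2) (Γ.ρ (n + 1))).card : ℝ)) * c (n + 1) :=
            mul_le_mul_of_nonneg_right h2 (H.c0 _)
        _ = ∑ B ∈ L.bad n, ((Γ.nbh (Γ.enl n {B} 2) (Γ.ρ (n + 1))).card : ℝ) * c (n + 1) :=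
            Finset.sum_mul _ _ _
        _ ≤ ∑ B ∈ L.bad n, W n * H72.QQ Γ.ch Γ.J x n B := by
            refine Finset.sum_le_sum fun B hBb => ?_
            have h3 := H.wgt (n + 1) (by omega) hN B
            have h4 := hB.qq n B hBb
            have h5 := mul_le_mul_of_nonneg_left h4 (H.W0 n)
            rw [mul_one] at h5
            exact h3.trans h5
        _ ≤ ∑ B ∈ bb Γ n, W n * H72.QQ Γ.ch Γ.J x n B := by
            refine Finset.sum_le_sum_of_subset_of_nonneg (fun B hBb => ?_)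
              (fun B _ _ => mul_nonneg (H.W0 n) (H72.qq_nonneg hB.x0 n B))
            unfold bb
            rw [Finset.mem_filter]
            exact ⟨Finset.mem_univ B, hfac.rep n B hBb⟩
        _ = W n * ∑ B ∈ bb Γ n, H72.QQ Γ.ch Γ.J x n B := by rw [Finset.mul_sum]
    refine H.fn.mark S S' Finset.subset_union_left a _ (c (n + 1)) _ _ (fun y hy => ?_) ?_ hw
    · refine H.cost (n + 1) (by omega) hN y a _ ?_
      have h1 := hMk.fresh y (Finset.mem_sdiff.mp hy).2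
      rw [h.cls] at h1
      exact h1.trans le_tsub_add
    · unfold vx vw
      rw [wph_succ (J := Γ.J) (W := W) (bb := bb Γ) (by omega : n < Γ.N + 2) x]
      linarith only [hcard]
  · -- nothing may be bad
    by_cases hbad : L.bad n = ∅
    · have hop : (L.nxt Γ n).op = ∅ := by
        rw [Finset.eq_empty_iff_forall_notMem]
        intro y hy
        have h1 := hopn hy
        rw [hbad, mem_enl] at h1
        obtain ⟨z, hz, _⟩ := h1
        exact Finset.notMem_empty _ hz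
      have hMk' : Mk Γ cl (n + 1) (kk (n + 1)) (L.nxt Γ n) r S :=
        ⟨hMk.fresh, hout, fun _ y hy => absurd hy (by rw [hop]; exact Finset.notMem_empty y),
          fun _ => hop⟩
      refine wg_mono (next S (T.rg m) (L.nxt Γ n) a r x hB1 hMk' hm hcoin) ?_
      have := wph_succ_le (ch := Γ.ch) (J := Γ.J) (M := Γ.N + 2) (bb := bb Γ) (n := n) H.W0 hB.x0
      unfold vx vw
      linarith only [this]
    · obtain ⟨B, hBb⟩ := Finset.nonempty_iff_ne_empty.2 hbad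
      have hWn : 1 ≤ W n := by
        rcases Nat.lt_or_ge n Γ.N with h1 | h1
        · have h2 : n = Γ.N - 1 := by omega
          rw [h2]
          exact H.w1
        · have h2 : n = Γ.N := by omega
          rw [h2]
          exact H.w2
      exact vx_one H hB.x0 le_rfl (by omega) hWn (hfac.rep n B hBb) (hB.qq n B hBb) S a r

/-- the release phase -/
theorem rel_mid2 (H : Hp Γ d o th kk cl Kn Dn p π c W K e φ ψ LI)
    (A : Ana Γ d o ∅ th kk cl Kn Dn p) (S : Finset X) {n : ℕ} (hn : n ≤ Γ.N)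
    (next : ∀ (S' : Finset X) (T : Cfg X) (L : Lb X) (a : X → ℝ) (r : X → ℝ≥0) (x : ℕ × X → ℝ),
      Bs Γ kk cl Dn π LI (n + 1) (kk (n + 1)) ∅ T L a r x → Mk Γ cl (n + 1) (kk (n + 1)) L r S' →
      A.HS (n + 1) (kk (n + 1)) T L.run →
      (∀ B, Γ.bl (n + 1) B = B → B ∉ L.bad (n + 1) →
        2 * p (n + 1) * ((kk (n + 2) : ℝ) - kk (n + 1) + (Γ.L (n + 1) : ℝ) ^ d) ≤ x (n + 1, B)) →
      Wg (gS φ ψ S') (cl (kk (Γ.N + 1))) a r (vx Γ W e (n + 1) x))
    (T₀ : Cfg X) (run₀ : Finset X) (hHS : A.HS n (kk (n + 1)) T₀ run₀)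
    (hFc : Fc Γ kk cl Dn n (kk (n + 1)) ∅ T₀ run₀) (W' : Finset X) :
    ∀ (P : Finset X) (T : Cfg X) (L : Lb X) (a : X → ℝ) (r : X → ℝ≥0) (x : ℕ × X → ℝ),
      Bs Γ kk cl Dn π LI n (kk (n + 1)) ∅ T L a r x → Mk Γ cl n (kk (n + 1)) L r S →
      A.HR n T₀ run₀ P T L.run →
      (∀ y ∈ P, ∃ c ∈ L.op, Dnp Γ n L c ∧ ∃ q ∈ L.cmp Γ n c, Γ.D q y ≤ Γ.ρ n) →
      (∀ c ∈ L.op, c ∉ W' → Dnp Γ n L c) →
      (∀ B, Γ.bl n B = B → B ∉ L.bad n → 2 * p n * cnt Γ n W' B ≤ x (n, B)) →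
      Wg (gS φ ψ S) (cl (kk (Γ.N + 1))) a r (vx Γ W e n x) := by
  have h := H.pr
  have hp0 : 0 ≤ 2 * p n := h.p0 n
  induction W' using Finset.induction_on with
  | empty =>
    intro P T L a r x hB hMk hHR _ hdone _
    have hel : ∀ c ∈ L.op, ¬ L.elig Γ n (L.cmp Γ n c) := fun c hc =>
      dnp_not_elig (hdone c hc (Finset.notMem_empty c))
    exact trans2 H A S hn next T₀ run₀ hHS hFc P T L a r x hB hMk hHR hel
  | insert z W' hzW ih =>
    intro P T L a r x hB hMk hHR hP hdone hc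
    have hfac := h.fac n L hB.li
    by_cases hz : z ∈ L.op ∧ L.elig Γ n (L.cmp Γ n z)
    · -- an attempt
      obtain ⟨hzo, hel⟩ := hz
      set Q := L.cmp Γ n z with hQ
      set B := Γ.bl n z with hBdef
      have hn1 : 1 ≤ n := by
        by_contra hc
        have h0 : n = 0 := by omega
        rw [hfac.pen h0] at hzo
        exact absurd hzo (Finset.notMem_empty z)
      have hnN : n < Γ.N := by
        by_contra hc
        rw [hMk.lst (not_lt.mp hc)] at hzo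
        exact absurd hzo (Finset.notMem_empty z)
      have hzQ : z ∈ Q := self_comp hzo
      have hBB : Γ.bl n B = B := h.geo.idem n z
      have hBb : B ∉ L.bad n := by
        intro hb
        have h1 : z ∈ Γ.enl n (L.bad n) 1 :=
          blk_sub_enl h.geo hb 1 (by rw [mem_blk])
        have h2 := hel.2 z hzQ z h1
        rw [h.geo.self] at h2
        exact absurd h2 (Nat.not_lt_zero _)
      obtain ⟨hrel1, hrel2, hrel3⟩ := hfac.rel z hzo hel
      have hQp : Q ⊆ L.pend := hel.1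
      have hpx : 2 * p n ≤ x (n, B) := by
        have h1 := hc B hBB hBb
        rw [cnt_insert hzW, if_pos rfl] at h1
        have h2 := mul_nonneg hp0 (cnt_nonneg (Γ := Γ) n W' B)
        linarith only [h1, h2]
      have hdisRQ : Disjoint (L.run ∩ Γ.nbh Q (Γ.ρ n)) Q := by
        rw [Finset.disjoint_left]
        intro y hy hyQ
        exact hB.disj h (Finset.mem_inter.mp hy).1 (hQp hyQ)
      -- the marked sites
      have hQS : ∀ y ∈ Q, y ∈ S := fun y hy => hMk.opn hnN y (comp_sub hy) y (by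
        rw [h.geo.self]; exact Nat.zero_le _)
      have hRS : ∀ y ∈ L.run ∩ Γ.nbh Q (Γ.ρ n), y ∈ S := by
        intro y hy
        obtain ⟨q, hq, hD⟩ := (mem_nbh Γ Q (Γ.ρ n) y).mp (Finset.mem_inter.mp hy).2
        exact hMk.opn hnN q (comp_sub hq) y hD
      -- the densities
      have hrs : ∀ y ∈ L.run, T.s y = cl (kk (n + 1)) := by
        intro y hy
        have := hB.fc.runs y hy
        rwa [if_neg (Finset.notMem_empty y)] at this
      have hclp : (0 : ℝ) < cl (kk (n + 1)) := by exact_mod_cast h.clpos _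
      have hfp : (0 : ℝ) < cl (kk (Γ.N + 1)) := by exact_mod_cast h.clpos _
      have hdn := H.dens n hn1 hnN
      have hone : (1 : ℝ) ≤ 3 ^ d * Γ.J * (6 * Γ.L (n - 1) + 1) ^ d * (2 * Γ.ρ n + 1) ^ d := by
        have h1 : 1 ≤ 3 ^ d * Γ.J * (6 * Γ.L (n - 1) + 1) ^ d * (2 * Γ.ρ n + 1) ^ d := by
          have hJ := h.scl.J1
          have h2 : 0 < Γ.J := by omega
          exact Nat.one_le_iff_ne_zero.mpr (by positivity)
        exact_mod_cast h1
      have hf1 : cl (kk (Γ.N + 1)) < cl (kk (n + 1)) := by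
        have h1 : (cl (kk (Γ.N + 1)) : ℝ) < cl (kk (n + 1)) := by
          have h2 : 2 * (cl (kk (Γ.N + 1)) : ℝ) * 1 ≤ 2 * (cl (kk (Γ.N + 1)) : ℝ) *
              (3 ^ d * Γ.J * (6 * Γ.L (n - 1) + 1) ^ d * (2 * Γ.ρ n + 1) ^ d) := by gcongr
          linarith only [hfp, hdn, h2]
        exact_mod_cast h1
      have hRc : ((L.run ∩ Γ.nbh Q (Γ.ρ n)).card : ℝ) ≤
          3 ^ d * Γ.J * (6 * Γ.L (n - 1) + 1) ^ d * (2 * Γ.ρ n + 1) ^ d := by
        have h1 : (L.run ∩ Γ.nbh Q (Γ.ρ n)).card ≤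
            3 ^ d * Γ.J * (6 * Γ.L (n - 1) + 1) ^ d * (2 * Γ.ρ n + 1) ^ d :=
          (Finset.card_le_card Finset.inter_subset_right).trans
            ((card_nbh h.geo Q (Γ.ρ n)).trans (Nat.mul_le_mul_right _ hrel2))
        exact_mod_cast h1
      set cc := Real.sqrt ((cl (kk (n + 1)) : ℝ) /
        ((cl (kk (n + 1)) - cl (kk (Γ.N + 1)) : ℝ≥0) : ℝ)) with hcc
      have hcc1 : 1 ≤ cc := by
        rw [hcc, Real.one_le_sqrt]
        have h1 : (0 : ℝ) < ((cl (kk (n + 1)) - cl (kk (Γ.N + 1)) : ℝ≥0) : ℝ) := by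
          exact_mod_cast tsub_pos_of_lt hf1
        rw [one_le_div h1]
        exact_mod_cast tsub_le_self
      have hcc2 : cc ^ (L.run ∩ Γ.nbh Q (Γ.ρ n)).card ≤ 2 := by
        refine fac_two _ _ _ (h.clpos _) hf1 (le_trans ?_ hdn)
        exact mul_le_mul_of_nonneg_left hRc (by positivity)
      -- the value
      have hval := vw_step (J := Γ.J) (M := Γ.N + 2) (bb := bb Γ) (e₀ := e) (n := n) H.W0
        (tree_ch Γ) hB.x0 (n, B) hp0 hpx
      have hle := vw_upd_le (ch := Γ.ch) (J := Γ.J) (M := Γ.N + 2) (bb := bb Γ) (e₀ := e) (n := n)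
        H.W0 hB.x0 (n, B) hp0 hpx (hB.x1 _)
      refine wg_mono (e := vw Γ.ch Γ.J (Γ.N + 2) W (bb Γ) e n
          (Function.update x (n, B) (x (n, B) - 2 * p n)) +
          2 * p n * (vw Γ.ch Γ.J (Γ.N + 2) W (bb Γ) e n (Function.update x (n, B) 1) -
            vw Γ.ch Γ.J (Γ.N + 2) W (bb Γ) e n
              (Function.update x (n, B) (x (n, B) - 2 * p n)))) ?_ hval
      refine wg_att (H.fn.bm S) (L.run ∩ Γ.nbh Q (Γ.ρ n)) Q
        (fun v T' => (∀ x ∈ Q, T'.V x = v x ∧ T'.s x = 0) ∧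
          ({x ∈ L.run | T'.s x = 0} : Finset X).card ≤ Kn n ∧
          A.HR n T₀ run₀ (P ∪ Γ.nbh Q (Γ.ρ n)) T' {x ∈ L.run | T'.s x ≠ 0})
        T a r (cl (kk (Γ.N + 1))) cc (p n) _ _ hcc1 hcc2 hdisRQ (H.p0 n) hle
        (fun y hy => hB.tru y (hB.disj h (Finset.mem_inter.mp hy).1))
        (fun y hy => by
          rw [hrs y (Finset.mem_inter.mp hy).1]
          exact ⟨hf1, le_rfl⟩) ?_ ?_ ?_
      · intro v
        refine A.kil n T₀ run₀ P T L.run Q v hn hn1 hHS hFc hB.fc hHR ⟨z, hzQ⟩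
          (fun y hy => ⟨fun hr => hB.disj h hr (hQp hy), hB.ppos y (hQp hy)⟩)
          (fun y hy w hw => ?_) hrel2 (fun y hy w hD => ?_) (fun y hy w hw => ?_)
        · have h1 := hrel1 y hy
          have h2 := hrel1 w hw
          have h3 := h.geo.tri y z w
          rw [h.geo.comm y z] at h3
          omega
        · by_cases hwQ : w ∈ Q
          · exact Or.inl hwQ
          · right
            by_cases hwr : w ∈ L.run
            · exact Or.inl hwr
            · right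
              refine hB.dead w hwr fun hwp => ?_
              exact absurd (hrel3 y hy w hwp hwQ) (not_lt.mpr hD)
        · obtain ⟨c, _, hdc, q, hq, hqD⟩ := hP w hw
          by_contra hcon
          have h1 : Γ.D y w ≤ 3 * Γ.ρ n := not_lt.mp hcon
          have h2 := h.geo.tri q w y
          rw [h.geo.comm w y] at h2
          have h3 : Γ.D q y ≤ 10 * Γ.ρ n := by omega
          have h4 : L.cmp Γ n c = L.cmp Γ n z := comp_eq h.geo hq hy h3
          refine dnp_not_elig hdc ?_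
          rw [h4]
          exact hel
      · -- success
        intro v T' a' r' hOk hmb hR1 hR2 hQ1 hoff
        obtain ⟨hOk1, hOk2, hOk3⟩ := hOk
        have hKdef : ∀ y, y ∈ ({x ∈ L.run | T'.s x = 0} : Finset X) ↔
            y ∈ L.run ∧ T'.s y = 0 := fun y => Finset.mem_filter
        have hB' := hB.die (p := fun n => 2 * p n) h hBb hpx hzo hel
          (fun y hy => ⟨by rw [(hQ1 y hy).1, (hOk1 y hy).1], (hQ1 y hy).2, (hOk1 y hy).2⟩)
          hR1 hR2 hoff _ hKdef hOk2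
        have hrun' : (L.die n ({x ∈ L.run | T'.s x = 0} : Finset X) Q).run =
            ({x ∈ L.run | T'.s x ≠ 0} : Finset X) := by
          ext y
          show y ∈ L.run \ _ ↔ _
          rw [Finset.mem_sdiff, hKdef, Finset.mem_filter]
          tauto
        have hMk' : Mk Γ cl n (kk (n + 1)) (L.die n ({x ∈ L.run | T'.s x = 0} : Finset X) Q)
            r' S := by
          refine ⟨fun y hy => ?_, fun y h1 h2 => ?_, fun hn y hy w hw => hMk.opn hn y hy w hw,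
            fun hn => hMk.lst hn⟩
          · rw [(hoff y (fun hq => hy (hQS y hq)) fun hR => hy (hRS y hR)).2.1]
            exact hMk.fresh y hy
          · have hpend : (L.die n ({x ∈ L.run | T'.s x = 0} : Finset X) Q).pend =
              L.pend \ Q := rfl
            rw [hrun', Finset.mem_filter, not_and, not_not] at h1
            rw [hpend, Finset.mem_sdiff, not_and, not_not] at h2
            by_contra hyS
            have hyQ : y ∉ Q := fun hq => hyS (hQS y hq)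
            have hyp : y ∉ L.pend := fun hp => hyQ (h2 hp)
            by_cases hyr : y ∈ L.run
            · have h3 := h1 hyr
              have hyR : y ∉ L.run ∩ Γ.nbh Q (Γ.ρ n) := fun hR => hyS (hRS y hR)
              rw [(hoff y hyQ hyR).2.2.2] at h3
              exact absurd h3 (hB.run_pos h y hyr).ne'
            · exact hyS (hMk.dead y hyr hyp)
        refine ih (P ∪ Γ.nbh Q (Γ.ρ n)) T' _ a' r' _ hB' hMk' (by rw [hrun']; exact hOk3) ?_ ?_ ?_
        · intro y hy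
          rw [Finset.mem_union, mem_nbh] at hy
          rcases hy with hy | ⟨q, hq, hD⟩
          · obtain ⟨c, hc1, hc2, hc3⟩ := hP y hy
            exact ⟨c, hc1, dnp_die hc2, hc3⟩
          · refine ⟨z, hzo, Or.inl ⟨z, hzQ, fun h1 => ?_, fun h1 => ?_⟩, q, hq, ?_⟩
            · exact hB.disj h (Finset.mem_sdiff.mp h1).1 (hQp hzQ)
            · exact (Finset.mem_sdiff.mp h1).2 hzQ
            · rw [h.geo.comm]; exact hD
        · intro c hc1 hc2
          by_cases hcz : c = z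
          · subst hcz
            exact Or.inl ⟨c, hzQ, fun h1 => hB.disj h (Finset.mem_sdiff.mp h1).1 (hQp hzQ),
              fun h1 => (Finset.mem_sdiff.mp h1).2 hzQ⟩
          · exact dnp_die (hdone c hc1 fun h1 => by
              rcases Finset.mem_insert.mp h1 with h1 | h1
              · exact hcz h1
              · exact hc2 h1)
        · intro C h1 h2
          have h3 := hc C h1 h2
          rw [cnt_insert hzW] at h3
          by_cases hCB : C = B
          · subst hCB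
            rw [Function.update_self]
            rw [if_pos rfl] at h3
            linarith only [h3]
          · rw [Function.update_of_ne (by simpa using hCB)]
            rw [if_neg (Ne.symm hCB), add_zero] at h3
            exact h3
      · -- failure
        intro a' r' hoff
        have hRen : ∀ y, y ∈ L.run ∩ Γ.nbh Q (Γ.ρ n) → y ∈ Γ.enl n {B} 1 := by
          intro y hy
          obtain ⟨q, hq, hD⟩ := (mem_nbh Γ Q (Γ.ρ n) y).mp (Finset.mem_inter.mp hy).2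
          rw [mem_enl]
          refine ⟨z, Finset.mem_singleton_self _, ?_⟩
          have h1 := hrel1 q hq
          have h2 := h.geo.tri y q z
          rw [h.geo.comm q z] at h2
          omega
        have hB' := hB.rej h (P' := ∅) (a' := a') (r' := r') (h.kk_le n) hBB
          (Finset.Subset.refl _) (fun y _ _ hy => hy)
          (fun y hy hye => hoff y (fun hq => hy (hQp hq)) fun hR => hye (hRen y hR))
          (fun y hy hyr => hoff y (fun hq => hy (hQp hq))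
            fun hR => hyr (Finset.mem_inter.mp hR).1)
        have hbad : (L.add Γ n {B}).bad n = L.bad n ∪ {B} := by
          show Function.update L.bad n (L.bad n ∪ {B}) n = _
          rw [Function.update_self]
        have hMk' : Mk Γ cl n (kk (n + 1)) (L.add Γ n {B}) r' S := hMk.add {B} fun y hy => by
          rw [(hoff y (fun hq => hy (hQS y hq)) fun hR => hy (hRS y hR)).2]
          exact hMk.fresh y hy
        refine ih P T (L.add Γ n {B}) a' r' _ hB' hMk' ?_ ?_ ?_ ?_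
        · exact A.rmon n T₀ run₀ P P T L.run _ (Finset.Subset.refl _) Finset.sdiff_subset hB.fc
            hB'.fc hHR
        · intro y hy
          obtain ⟨c, hc1, hc2, hc3⟩ := hP y hy
          exact ⟨c, hc1, dnp_add hc2, hc3⟩
        · intro c hc1 hc2
          by_cases hcz : c = z
          · subst hcz
            right
            refine ⟨c, hzQ, c, ?_, ?_⟩
            · rw [hbad]
              refine blk_sub_enl h.geo (B := B)
                (Finset.mem_union_right _ (Finset.mem_singleton_self B)) 1 ?_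
              rw [mem_blk]
            · rw [h.geo.self]
              exact Nat.zero_le _
          · exact dnp_add (hdone c hc1 fun h1 => by
              rcases Finset.mem_insert.mp h1 with h1 | h1
              · exact hcz h1
              · exact hc2 h1)
        · intro C h1 h2
          rw [hbad, Finset.mem_union, Finset.mem_singleton, not_or] at h2
          rw [Function.update_of_ne (by simpa using h2.2)]
          refine le_trans (mul_le_mul_of_nonneg_left (cnt_le_insert hzW C) hp0) (hc C h1 h2.1)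
    · -- nothing to do
      refine ih P T L a r x hB hMk hHR hP (fun c hc1 hc2 => ?_) fun C h1 h2 => ?_
      · by_cases hcz : c = z
        · subst hcz
          exact not_elig_dnp hB.opr fun hel => hz ⟨hc1, hel⟩
        · exact hdone c hc1 fun h1 => by
            rcases Finset.mem_insert.mp h1 with h1 | h1
            · exact hcz h1
            · exact hc2 h1
      · exact le_trans (mul_le_mul_of_nonneg_left (cnt_le_insert hzW C) hp0) (hc C h1 h2)

/-- the release phase of the super-stage `n` -/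
theorem rel_step2 (H : Hp Γ d o th kk cl Kn Dn p π c W K e φ ψ LI)
    (A : Ana Γ d o ∅ th kk cl Kn Dn p) (S : Finset X) {n : ℕ} (hn : n ≤ Γ.N)
    (next : ∀ (S' : Finset X) (T : Cfg X) (L : Lb X) (a : X → ℝ) (r : X → ℝ≥0) (x : ℕ × X → ℝ),
      Bs Γ kk cl Dn π LI (n + 1) (kk (n + 1)) ∅ T L a r x → Mk Γ cl (n + 1) (kk (n + 1)) L r S' →
      A.HS (n + 1) (kk (n + 1)) T L.run →
      (∀ B, Γ.bl (n + 1) B = B → B ∉ L.bad (n + 1) →
        2 * p (n + 1) * ((kk (n + 2) : ℝ) - kk (n + 1) + (Γ.L (n + 1) : ℝ) ^ d) ≤ x (n + 1, B)) →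
      Wg (gS φ ψ S') (cl (kk (Γ.N + 1))) a r (vx Γ W e (n + 1) x))
    (T : Cfg X) (L : Lb X) (a : X → ℝ) (r : X → ℝ≥0) (x : ℕ × X → ℝ)
    (hB : Bs Γ kk cl Dn π LI n (kk (n + 1)) ∅ T L a r x) (hMk : Mk Γ cl n (kk (n + 1)) L r S)
    (hHS : A.HS n (kk (n + 1)) T L.run)
    (hc : ∀ B, Γ.bl n B = B → B ∉ L.bad n →
        2 * p n * ((kk (n + 1) : ℝ) - (kk (n + 1) : ℕ) + (Γ.L n : ℝ) ^ d) ≤ x (n, B)) :
    Wg (gS φ ψ S) (cl (kk (Γ.N + 1))) a r (vx Γ W e n x) := by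
  have h := H.pr
  refine rel_mid2 H A S hn next T L.run hHS hB.fc Finset.univ ∅ T L a r x hB hMk
    (A.rbeg n T L.run hn hB.fc hHS) (fun y hy => absurd hy (Finset.notMem_empty y))
    (fun c _ hc => absurd (Finset.mem_univ c) hc) fun B h1 h2 => ?_
  refine le_trans (mul_le_mul_of_nonneg_left ?_ (h.p0 n)) (hc B h1 h2)
  rw [sub_self, zero_add]
  unfold cnt
  have h3 := h.geo.bvol n B
  unfold Geo.blk at h3
  exact_mod_cast h3

end Pool.Agent.ANP.AC
end
end -- Pool.Agent.Helper16_AC.Rel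

section -- Pool.Agent.Helper16_AC.Prt2

/-! The protocol for a functional: the final theorem. -/

set_option autoImplicit false
set_option linter.unusedSectionVars false

open MeasureTheory ProbabilityTheory

open scoped ENNReal NNReal BigOperators

noncomputable section

namespace Pool.Agent.ANP.AC

open Pool.Agent.ANP Pool.Agent.ANP.H16

variable {X : Type} [Fintype X] [DecidableEq X]
  {Γ : Geo X} {d : ℕ} {o : X} {th : ℝ≥0} {kk : ℕ → ℕ} {cl : ℕ → ℝ≥0}
  {Kn Dn : ℕ → ℕ} {p π c W : ℕ → ℝ} {K e : ℝ} {φ : (X → ℝ) → ℝ} {ψ : X → (X → ℝ) → ℝ}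
  {LI : ℕ → Lb X → Prop}

/-- the end -/
theorem fin_step2 (H : Hp Γ d o th kk cl Kn Dn p π c W K e φ ψ LI)
    (A : Ana Γ d o ∅ th kk cl Kn Dn p)
    (hend : ∀ (T : Cfg X) (run : Finset X), A.HS (Γ.N + 1) (kk (Γ.N + 1)) T run →
      Fc Γ kk cl Dn (Γ.N + 1) (kk (Γ.N + 1)) ∅ T run → (∀ x, x ∉ run → T.s x = 0) →
      φ T.V ≤ e + ∑ x ∈ Finset.univ \ run, ψ x T.V)
    (S : Finset X) (T : Cfg X) (L : Lb X) (a : X → ℝ) (r : X → ℝ≥0) (x : ℕ × X → ℝ)
    (hB : Bs Γ kk cl Dn π LI (Γ.N + 1) (kk (Γ.N + 1)) ∅ T L a r x)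
    (hMk : Mk Γ cl (Γ.N + 1) (kk (Γ.N + 1)) L r S)
    (hHS : A.HS (Γ.N + 1) (kk (Γ.N + 1)) T L.run) :
    Wg (gS φ ψ S) (cl (kk (Γ.N + 1))) a r (vx Γ W e (Γ.N + 1) x) := by
  have h := H.pr
  have hfac := h.fac _ L hB.li
  have hop : L.op = ∅ := hMk.lst (Nat.le_succ _)
  by_cases hp : L.pend = ∅
  · have hnp : ∀ y, y ∉ L.pend := fun y hy => by
      rw [hp] at hy
      exact Finset.notMem_empty y hy
    have hdead : ∀ y, y ∉ L.run → T.s y = 0 := fun y hy => hB.dead y hy (hnp y)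
    have ha : a = T.V := by
      funext y
      exact (hB.tru y (hnp y)).1
    have hr : ∀ y, r y ≤ cl (kk (Γ.N + 1)) := by
      intro y
      rw [(hB.tru y (hnp y)).2]
      by_cases hy : y ∈ L.run
      · have := hB.fc.runs y hy
        rw [if_neg (Finset.notMem_empty y)] at this
        rw [this]
      · rw [hdead y hy]
        exact zero_le
    refine wg_mono (wg_end (H.fn.bm S) (e := e) hr ?_) ?_
    · have h1 := hend T L.run hHS hB.fc hdead
      have h2 : ∑ y ∈ Finset.univ \ L.run, ψ y T.V ≤ ∑ y ∈ S, ψ y T.V := by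
        refine Finset.sum_le_sum_of_subset_of_nonneg (fun y hy => ?_) fun y _ _ => (H.fn.bψ y _).1
        exact hMk.dead y (Finset.mem_sdiff.mp hy).2 (hnp y)
      rw [ha]
      unfold gS
      linarith
    · unfold vx vw
      have := wph_nonneg (ch := Γ.ch) (J := Γ.J) (M := Γ.N + 2) (bb := bb Γ) (n := Γ.N + 1) H.W0
        hB.x0
      linarith
  · obtain ⟨y, hy⟩ := Finset.nonempty_iff_ne_empty.2 hp
    have hyo : y ∉ L.op := by
      rw [hop]
      exact Finset.notMem_empty y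
    have h1 := hfac.npe y hy hyo
    obtain ⟨w, hw, _⟩ := (mem_enl Γ (Γ.N + 1) (L.bad (Γ.N + 1)) 1 y).mp h1
    exact vx_one H hB.x0 le_rfl (Nat.lt_succ_self _) H.w3 (h.geo.idem _ _)
      (hB.qq _ _ hw) S a r

/-- from the stage `k` to the end of the super-stage -/
theorem super_mid2 (H : Hp Γ d o th kk cl Kn Dn p π c W K e φ ψ LI)
    (A : Ana Γ d o ∅ th kk cl Kn Dn p) (S : Finset X) {n : ℕ} (hn : n ≤ Γ.N)
    (next : ∀ (S' : Finset X) (T : Cfg X) (L : Lb X) (a : X → ℝ) (r : X → ℝ≥0) (x : ℕ × X → ℝ),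
      Bs Γ kk cl Dn π LI (n + 1) (kk (n + 1)) ∅ T L a r x → Mk Γ cl (n + 1) (kk (n + 1)) L r S' →
      A.HS (n + 1) (kk (n + 1)) T L.run →
      (∀ B, Γ.bl (n + 1) B = B → B ∉ L.bad (n + 1) →
        2 * p (n + 1) * ((kk (n + 2) : ℝ) - kk (n + 1) + (Γ.L (n + 1) : ℝ) ^ d) ≤ x (n + 1, B)) →
      Wg (gS φ ψ S') (cl (kk (Γ.N + 1))) a r (vx Γ W e (n + 1) x)) (j : ℕ) :
    ∀ (k : ℕ), kk n ≤ k → k + j = kk (n + 1) →
    ∀ (T : Cfg X) (L : Lb X) (a : X → ℝ) (r : X → ℝ≥0) (x : ℕ × X → ℝ),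
      Bs Γ kk cl Dn π LI n k ∅ T L a r x → Mk Γ cl n k L r S → A.HS n k T L.run →
      (∀ B, Γ.bl n B = B → B ∉ L.bad n →
        2 * p n * ((kk (n + 1) : ℝ) - k + (Γ.L n : ℝ) ^ d) ≤ x (n, B)) →
      Wg (gS φ ψ S) (cl (kk (Γ.N + 1))) a r (vx Γ W e n x) := by
  induction j with
  | zero =>
    intro k _ hkj T L a r x hB hMk hHS hc
    have hk : k = kk (n + 1) := by omega
    subst hk
    exact rel_step2 H A S hn next T L a r x hB hMk hHS hc
  | succ j ih =>
    intro k hk hkj T L a r x hB hMk hHS hc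
    refine stage_step2 H A S hn hk (by omega) (fun T L a r x hB hMk hHS hc => ?_) T L a r x hB hMk
      hHS hc
    refine ih (k + 1) (by omega) (by omega) T L a r x hB hMk hHS fun B h1 h2 => ?_
    have := hc B h1 h2
    push_cast
    exact this

/-- from the super-stage `n` to the end -/
theorem all_super2 (H : Hp Γ d o th kk cl Kn Dn p π c W K e φ ψ LI)
    (A : Ana Γ d o ∅ th kk cl Kn Dn p)
    (hend : ∀ (T : Cfg X) (run : Finset X), A.HS (Γ.N + 1) (kk (Γ.N + 1)) T run →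
      Fc Γ kk cl Dn (Γ.N + 1) (kk (Γ.N + 1)) ∅ T run → (∀ x, x ∉ run → T.s x = 0) →
      φ T.V ≤ e + ∑ x ∈ Finset.univ \ run, ψ x T.V) (j : ℕ) :
    ∀ (n : ℕ), n + j = Γ.N + 1 →
    ∀ (S : Finset X) (T : Cfg X) (L : Lb X) (a : X → ℝ) (r : X → ℝ≥0) (x : ℕ × X → ℝ),
      Bs Γ kk cl Dn π LI n (kk n) ∅ T L a r x → Mk Γ cl n (kk n) L r S →
      A.HS n (kk n) T L.run →
      (∀ B, Γ.bl n B = B → B ∉ L.bad n →
        2 * p n * ((kk (n + 1) : ℝ) - kk n + (Γ.L n : ℝ) ^ d) ≤ x (n, B)) →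
      Wg (gS φ ψ S) (cl (kk (Γ.N + 1))) a r (vx Γ W e n x) := by
  induction j with
  | zero =>
    intro n hn S T L a r x hB hMk hHS _
    have hn' : n = Γ.N + 1 := by omega
    subst hn'
    exact fin_step2 H A hend S T L a r x hB hMk hHS
  | succ j ih =>
    intro n hn S T L a r x hB hMk hHS hc
    have hlt := H.pr.kk_le n
    exact super_mid2 H A S (by omega) (ih (n + 1) (by omega)) (kk (n + 1) - kk n) (kk n) le_rfl
      (by omega) T L a r x hB hMk hHS hc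

/-- PRT2 -/
theorem prt2 (hLab : LabStmt) : ACX.Prt2Stmt := by
  intro X _ _ Γ d o th kk cl Kn Dn p π c W K e φ ψ A V₀ m₁ hφ hφ1 hψ hψ1 he hG hS hth0 hth1 hDn hk0
    hkk hcl hcl0 hN hp hpp hπ hdens hc0 hcost hW0 hwgt hw1 hw2 hw3 hini hend
  obtain ⟨LI, l0, l1, l2, l3, l4⟩ := hLab X Γ d o Kn Dn hG hS hDn
  have h : Pr Γ d o ∅ th kk cl Kn Dn (fun n => 2 * p n) π LI :=
    ⟨MeasurableSet.empty, hG, hS, hkk, hth0, hth1, hcl, hcl0,
      fun n => mul_nonneg (by norm_num) (hp n), hpp, l1, l2, l3, l4⟩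
  have H : Hp Γ d o th kk cl Kn Dn p π c W K e φ ψ LI :=
    ⟨h, ⟨hφ, hφ1, hψ, hψ1⟩, he, hN, hp, hW0, hc0, hdens, hcost, hwgt, hw1, hw2, hw3⟩
  have hπ0 : ∀ n, 0 ≤ π n := by
    intro n
    refine le_trans (mul_nonneg (h.p0 n) ?_) (hpp n)
    have h1 : (kk n : ℝ) ≤ kk (n + 1) := by exact_mod_cast (hkk n).le
    have h2 : (0 : ℝ) ≤ (Γ.L n : ℝ) ^ d := by positivity
    linarith
  have hB : Bs Γ kk cl Dn π LI 0 (kk 0) ∅ ⟨V₀, fun _ => cl 0, m₁⟩ (Lb.ini X)
      V₀ (fun _ => cl 0) (fun i => π i.1) := by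
    refine ⟨l0, fun _ _ => rfl, ?_, fun c => hπ0 c.1, fun c => hπ c.1,
      fun j B hB => absurd hB (Finset.notMem_empty B), ⟨fun y _ => ?_, fun y hy => ?_, ?_,
        fun m hm => absurd hm (by omega)⟩, fun y hy => absurd hy (Finset.notMem_empty y),
      fun y hy => absurd (Finset.mem_univ y) hy, fun y hy => absurd hy (Finset.notMem_empty y),
      fun y _ => ⟨rfl, rfl⟩, fun j _ B => le_rfl⟩
    · exact Finset.disjoint_empty_left _
    · rw [if_neg (Finset.notMem_empty y), hk0]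
    · exact absurd (Finset.mem_univ y) hy
    · refine ⟨fun _ => ∅, fun y hy => absurd hy hcl0.ne', fun j B => ?_⟩
      rw [Finset.empty_inter, Finset.card_empty]
      exact Nat.zero_le _
  have hMk : Mk Γ cl 0 (kk 0) (Lb.ini X) (fun _ => cl 0) ∅ := by
    refine ⟨fun y _ => ?_, fun y hy => absurd (Finset.mem_univ y) hy,
      fun _ y hy => absurd hy (Finset.notMem_empty y), fun _ => rfl⟩
    rw [hk0]
    exact h.cl_anti (Nat.zero_le _)
  have h1 := all_super2 H A hend (Γ.N + 1) 0 (by omega) ∅ _ (Lb.ini X) _ _ _ hB hMk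
    (by rw [hk0]; exact hini) fun B _ _ => hpp 0
  unfold Wg Wf vx vw wph at h1
  have e1 : gS φ ψ (∅ : Finset X) = φ := by
    funext U
    unfold gS
    rw [Finset.sum_empty, sub_zero]
  rw [e1, ← Finset.range_eq_Ico] at h1
  exact h1

end Pool.Agent.ANP.AC
end
end -- Pool.Agent.Helper16_AC.Prt2

section -- Pool.Agent.Helper72_ANP.Sep

/-!
# ANP, rows SEP and SE2: components of the frozen set
-/

set_option autoImplicit false
set_option linter.unusedSectionVars false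

open scoped BigOperators

noncomputable section

namespace Pool.Agent.ANP.H72

open Pool.Agent.ANP

variable {X : Type} [Fintype X] [DecidableEq X]

/-- last exit from `p` -/
theorem last_exit {R : X → X → Prop} (p : X → Prop) {x y : X} (hp : p x)
    (h : Relation.ReflTransGen R x y) :
    p y ∨ (¬ p y ∧ ∃ u v, p u ∧ R u v ∧ ¬ p v ∧
      Relation.ReflTransGen (fun a b => R a b ∧ ¬ p a ∧ ¬ p b) v y) := by
  induction h with
  | refl => exact Or.inl hp
  | @tail b c _ hbc ih =>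
    by_cases hc : p c
    · exact Or.inl hc
    · right
      refine ⟨hc, ?_⟩
      rcases ih with hb | ⟨hb, u, v, hu, huv, hv, hvb⟩
      · exact ⟨b, c, hb, hbc, hc, Relation.ReflTransGen.refl⟩
      · exact ⟨u, v, hu, huv, hv, hvb.tail ⟨hbc, hb, hc⟩⟩

/-- first exit from `p` -/
theorem first_exit {R : X → X → Prop} (p : X → Prop) {x y : X} (hp : p x)
    (h : Relation.ReflTransGen R x y) :
    (p y ∧ Relation.ReflTransGen (fun a b => R a b ∧ p a ∧ p b) x y) ∨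
      ∃ u v, p u ∧ R u v ∧ ¬ p v ∧ Relation.ReflTransGen (fun a b => R a b ∧ p a ∧ p b) x u := by
  induction h with
  | refl => exact Or.inl ⟨hp, Relation.ReflTransGen.refl⟩
  | @tail b c _ hbc ih =>
    rcases ih with ⟨hb, hxb⟩ | h
    · by_cases hc : p c
      · exact Or.inl ⟨hc, hxb.tail ⟨hbc, hb, hc⟩⟩
      · exact Or.inr ⟨b, c, hb, hbc, hc, hxb⟩
    · exact Or.inr h

/-- a chain which visits at most `|W|` balls of radius `c` with steps of length at most `t` -/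
theorem chain_dist {D : X → X → ℕ} (hc : ∀ x y, D x y = D y x)
    (ht : ∀ x y z, D x z ≤ D x y + D y z) (f : X → X) (c t : ℕ) :
    ∀ (k : ℕ) (W : Finset X) (A : X → Prop) (R : X → X → Prop) (x y : X), W.card = k → A x →
      (∀ z, A z → f z ∈ W ∧ D z (f z) ≤ c) → (∀ u v, R u v → A u ∧ A v ∧ D u v ≤ t) →
      Relation.ReflTransGen R x y → D x y ≤ k * (2 * c + t) := by
  intro k
  induction k with
  | zero =>
    intro W A R x y hW hx hf _ _
    have h1 := (hf x hx).1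
    rw [Finset.card_eq_zero] at hW
    rw [hW] at h1
    exact absurd h1 (Finset.notMem_empty _)
  | succ k ih =>
    intro W A R x y hW hx hf hR h
    have hx1 := hf x hx
    have hsame : ∀ z, A z → f z = f x → D x z ≤ 2 * c := by
      intro z hz hz2
      have h1 := (hf z hz).2
      have h2 := ht x (f x) z
      rw [hz2, hc] at h1
      have h3 := hx1.2
      omega
    have hAend : ∀ z, Relation.ReflTransGen R x z → A z := by
      intro z hz
      rcases hz.cases_tail with h1 | ⟨w, -, hw⟩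
      · rw [h1]; exact hx
      · exact (hR w z hw).2.1
    rcases last_exit (fun z => f z = f x) rfl h with h1 | ⟨h1, u, v, hu, huv, hv, hvy⟩
    · have h2 := hsame y (hAend y h) h1
      calc D x y ≤ 2 * c := h2
        _ ≤ (k + 1) * (2 * c + t) := by nlinarith
    · obtain ⟨hAu, hAv, huv2⟩ := hR u v huv
      have h2 := hsame u hAu hu
      have h3 := ih (W.erase (f x)) (fun z => A z ∧ f z ≠ f x)
        (fun a b => R a b ∧ f a ≠ f x ∧ f b ≠ f x) v y
        (by rw [Finset.card_erase_of_mem hx1.1, hW]; rfl) ⟨hAv, hv⟩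
        (fun z hz => ⟨Finset.mem_erase.2 ⟨hz.2, (hf z hz.1).1⟩, (hf z hz.1).2⟩)
        (fun a b hab => ⟨⟨(hR a b hab.1).1, hab.2.1⟩, ⟨(hR a b hab.1).2.1, hab.2.2⟩,
          (hR a b hab.1).2.2⟩) hvy
      have h4 := ht x u y
      have h5 := ht u v y
      calc D x y ≤ 2 * c + t + k * (2 * c + t) := by omega
        _ = (k + 1) * (2 * c + t) := by ring

/-- the centre of a site of `op` -/
theorem centre {Γ : Geo X} {d : ℕ} (hG : GeoOk Γ d) {m : ℕ} {old op : Finset X}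
    (hop : op ⊆ Γ.enl m old 2) (hold : ∀ b ∈ old, Γ.bl m b = b) :
    ∃ f : X → X, ∀ z ∈ op, f z ∈ old ∧ Γ.D z (f z) ≤ 3 * Γ.L m := by
  classical
  have h1 : ∀ z, ∃ b, z ∈ op → b ∈ old ∧ Γ.D z b ≤ 3 * Γ.L m := by
    intro z
    by_cases hz : z ∈ op
    · have h2 := hop hz
      simp only [Geo.enl, Finset.mem_filter, Finset.mem_univ, true_and] at h2
      obtain ⟨w, hw, hzw⟩ := h2
      refine ⟨Γ.bl m w, fun _ => ⟨hw, ?_⟩⟩
      have h3 := hG.diam m w (Γ.bl m w) (hold _ hw).symm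
      have h4 := hG.tri z w (Γ.bl m w)
      omega
    · exact ⟨z, fun h => absurd h hz⟩
  choose f hf using h1
  exact ⟨f, hf⟩

/-- the old blocks in good blocks near `x` -/
def WW (Γ : Geo X) (m : ℕ) (old bad : Finset X) (x : X) : Finset X :=
  ((({y | Γ.D x y ≤ Γ.L (m + 1)} : Finset X).image (Γ.bl (m + 1))).filter
    fun B => B ∉ bad).biUnion fun B => Γ.sub m old B

theorem ww_card {Γ : Geo X} {d : ℕ} (hG : GeoOk Γ d) {m : ℕ} {old bad : Finset X}
    (hJ : ∀ B, B ∉ bad → (Γ.sub m old B).card ≤ Γ.J) (x : X) :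
    (WW Γ m old bad x).card ≤ 3 ^ d * Γ.J := by
  classical
  unfold WW
  refine (Finset.card_biUnion_le_card_mul _ _ Γ.J ?_).trans ?_
  · intro B hB
    exact hJ B (Finset.mem_filter.1 hB).2
  · exact Nat.mul_le_mul_right _ ((Finset.card_filter_le _ _).trans (hG.meet (m + 1) x))

theorem ww_mem {Γ : Geo X} {m : ℕ} {old bad : Finset X} {x b : X} (hb : b ∈ old)
    (hB : Γ.bl (m + 1) b ∉ bad) (hD : Γ.D x b ≤ Γ.L (m + 1)) : b ∈ WW Γ m old bad x := by
  classical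
  unfold WW
  rw [Finset.mem_biUnion]
  refine ⟨Γ.bl (m + 1) b, ?_, ?_⟩
  · rw [Finset.mem_filter, Finset.mem_image]
    exact ⟨⟨b, by simpa using hD, rfl⟩, hB⟩
  · simp only [Geo.sub, Finset.mem_filter]
    exact ⟨hb, trivial⟩

/-- MAIN: a chain in `op` of sites which are far from the bad blocks stays near its origin -/
theorem main_chain {Γ : Geo X} {d : ℕ} (hG : GeoOk Γ d) (hS : Scl Γ d) {m : ℕ}
    {old bad op : Finset X} (hop : op ⊆ Γ.enl m old 2) (hold : ∀ b ∈ old, Γ.bl m b = b)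
    (hJ : ∀ B, B ∉ bad → (Γ.sub m old B).card ≤ Γ.J) {x y : X} (hx : x ∈ op)
    (far : X → Prop) (hfar : ∀ z, far z → z ∈ op ∧ ∀ w ∈ Γ.enl (m + 1) bad 1,
      Γ.ρ (m + 1) < Γ.D z w) (hxf : far x)
    (h : Relation.ReflTransGen (fun u v => far u ∧ far v ∧ Γ.D u v ≤ 10 * Γ.ρ (m + 1)) x y) :
    1 ≤ Γ.J ∧ Γ.D x y ≤ Γ.L (m + 1) / 8 ∧ ∀ f : X → X,
      (∀ z ∈ op, f z ∈ old ∧ Γ.D z (f z) ≤ 3 * Γ.L m) → f y ∈ WW Γ m old bad x := by
  classical
  obtain ⟨f₀, hf₀⟩ := centre hG hop hold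
  have hrho := hS.rho m
  have hone := hS.one m
  -- the centres are in good blocks
  have hgood : ∀ f : X → X, (∀ z ∈ op, f z ∈ old ∧ Γ.D z (f z) ≤ 3 * Γ.L m) → ∀ z, far z →
      Γ.bl (m + 1) (f z) ∉ bad := by
    intro f hf z hz hbad
    obtain ⟨hz1, hz2⟩ := hfar z hz
    have h1 : f z ∈ Γ.enl (m + 1) bad 1 := by
      simp only [Geo.enl, Finset.mem_filter, Finset.mem_univ, true_and]
      exact ⟨f z, hbad, by rw [hG.self]; exact Nat.zero_le _⟩
    have h2 := hz2 _ h1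
    have h3 := (hf z hz1).2
    omega
  have hJ1 : 1 ≤ Γ.J := by
    have h1 := hJ _ (hgood f₀ hf₀ x hxf)
    have h2 : f₀ x ∈ Γ.sub m old (Γ.bl (m + 1) (f₀ x)) := by
      simp only [Geo.sub, Finset.mem_filter]
      exact ⟨(hf₀ x hx).1, trivial⟩
    have h3 : 0 < (Γ.sub m old (Γ.bl (m + 1) (f₀ x))).card := Finset.card_pos.2 ⟨_, h2⟩
    omega
  have hbig := hS.big m
  have h3d : 1 ≤ 3 ^ d * Γ.J := Nat.one_le_iff_ne_zero.2 (by positivity)
  have hbig1 : 8 * (5 * Γ.L m + 12 * Γ.ρ (m + 1)) ≤ Γ.L (m + 1) := by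
    refine le_trans ?_ hbig
    calc 8 * (5 * Γ.L m + 12 * Γ.ρ (m + 1)) = 8 * (1 * (5 * Γ.L m + 12 * Γ.ρ (m + 1))) := by ring
      _ ≤ 8 * (3 ^ d * Γ.J * (5 * Γ.L m + 12 * Γ.ρ (m + 1))) := by gcongr
  -- membership in `W`
  have hW : ∀ f : X → X, (∀ z ∈ op, f z ∈ old ∧ Γ.D z (f z) ≤ 3 * Γ.L m) → ∀ z, far z →
      Γ.D x z ≤ Γ.L (m + 1) / 8 + 10 * Γ.ρ (m + 1) → f z ∈ WW Γ m old bad x := by
    intro f hf z hz hD
    refine ww_mem (hf z (hfar z hz).1).1 (hgood f hf z hz) ?_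
    have h1 := hG.tri x z (f z)
    have h2 := (hf z (hfar z hz).1).2
    omega
  have hWc := ww_card hG hJ x
  have key : ∀ R : X → X → Prop, (∀ u v, R u v → (far u ∧ Γ.D x u ≤ Γ.L (m + 1) / 8 +
      10 * Γ.ρ (m + 1)) ∧ (far v ∧ Γ.D x v ≤ Γ.L (m + 1) / 8 + 10 * Γ.ρ (m + 1)) ∧
      Γ.D u v ≤ 10 * Γ.ρ (m + 1)) → ∀ v, Relation.ReflTransGen R x v →
      Γ.D x v ≤ Γ.L (m + 1) / 8 := by
    intro R hR v hv
    have h1 := chain_dist hG.comm hG.tri f₀ (3 * Γ.L m) (10 * Γ.ρ (m + 1))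
      (WW Γ m old bad x).card (WW Γ m old bad x)
      (fun z => far z ∧ Γ.D x z ≤ Γ.L (m + 1) / 8 + 10 * Γ.ρ (m + 1)) R x v rfl
      ⟨hxf, by rw [hG.self]; exact Nat.zero_le _⟩
      (fun z hz => ⟨hW f₀ hf₀ z hz.1 hz.2, (hf₀ z (hfar z hz.1).1).2⟩) hR hv
    have h2 : (WW Γ m old bad x).card * (2 * (3 * Γ.L m) + 10 * Γ.ρ (m + 1)) ≤
        3 ^ d * Γ.J * (5 * Γ.L m + 12 * Γ.ρ (m + 1)) := by
      refine Nat.mul_le_mul hWc ?_
      omega
    omega
  -- the path stays in the ball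
  have hball : Γ.D x y ≤ Γ.L (m + 1) / 8 := by
    rcases first_exit (fun z => Γ.D x z ≤ Γ.L (m + 1) / 8) (by rw [hG.self]; exact Nat.zero_le _)
      h with h1 | ⟨u, v, hu, huv, hv, hxu⟩
    · exact h1.1
    · exfalso
      apply hv
      refine key (fun a b => (far a ∧ Γ.D x a ≤ Γ.L (m + 1) / 8 + 10 * Γ.ρ (m + 1)) ∧
        (far b ∧ Γ.D x b ≤ Γ.L (m + 1) / 8 + 10 * Γ.ρ (m + 1)) ∧ Γ.D a b ≤ 10 * Γ.ρ (m + 1))
        (fun u v huv => huv) v ?_
      refine Relation.ReflTransGen.tail (b := u) (Relation.ReflTransGen.mono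
        (fun a b hab => ⟨⟨hab.1.1, by have := hab.2.1; omega⟩,
          ⟨hab.1.2.1, by have := hab.2.2; omega⟩, hab.1.2.2⟩) _ _ hxu) ?_
      · have h2 := hG.tri x u v
        exact ⟨⟨huv.1, by omega⟩, ⟨huv.2.1, by have := huv.2.2; omega⟩, huv.2.2⟩
  have hyf : far y := by
    rcases h.cases_tail with h1 | ⟨w, -, hw⟩
    · rw [h1]; exact hxf
    · exact hw.2.1
  exact ⟨hJ1, hball, fun f hf => hW f hf y hyf (by omega)⟩

theorem mem_comp {Γ : Geo X} {S : Finset X} {t : ℕ} {x y : X} : y ∈ Γ.comp S t x ↔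
    Relation.ReflTransGen (fun u v => u ∈ S ∧ v ∈ S ∧ Γ.D u v ≤ t) x y ∧ y ∈ S := by
  simp only [Geo.comp, Finset.mem_filter, Finset.mem_univ, true_and]

theorem comp_path {Γ : Geo X} {S : Finset X} {t : ℕ} {x y : X} (hx : x ∈ S)
    (h : Relation.ReflTransGen (fun u v => u ∈ S ∧ v ∈ S ∧ Γ.D u v ≤ t) x y) :
    Relation.ReflTransGen (fun u v => u ∈ Γ.comp S t x ∧ v ∈ Γ.comp S t x ∧ Γ.D u v ≤ t) x y ∧
      y ∈ Γ.comp S t x := by
  induction h with
  | refl => exact ⟨Relation.ReflTransGen.refl, mem_comp.2 ⟨Relation.ReflTransGen.refl, hx⟩⟩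
  | @tail b c hab hbc ih =>
    have hc : c ∈ Γ.comp S t x := mem_comp.2 ⟨hab.tail hbc, hbc.2.1⟩
    exact ⟨ih.1.tail ⟨ih.2, hc, hbc.2.2⟩, hc⟩

/-- SEP -/
theorem sep_core {Γ : Geo X} {d : ℕ} (hG : GeoOk Γ d) (hS : Scl Γ d) {m : ℕ}
    {old bad op : Finset X} {x : X} (hx : x ∈ op) (hop : op ⊆ Γ.enl m old 2)
    (hold : ∀ b ∈ old, Γ.bl m b = b) (hJ : ∀ B, B ∉ bad → (Γ.sub m old B).card ≤ Γ.J)
    (hfar : ∀ y ∈ Γ.comp op (10 * Γ.ρ (m + 1)) x, ∀ z ∈ Γ.enl (m + 1) bad 1,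
      Γ.ρ (m + 1) < Γ.D y z) :
    (∀ y ∈ Γ.comp op (10 * Γ.ρ (m + 1)) x, Γ.D x y ≤ Γ.L (m + 1) / 8) ∧
    (Γ.comp op (10 * Γ.ρ (m + 1)) x).card ≤ 3 ^ d * Γ.J * (6 * Γ.L m + 1) ^ d := by
  classical
  obtain ⟨f, hf⟩ := centre hG hop hold
  have h1 : ∀ y ∈ Γ.comp op (10 * Γ.ρ (m + 1)) x, 1 ≤ Γ.J ∧ Γ.D x y ≤ Γ.L (m + 1) / 8 ∧
      f y ∈ WW Γ m old bad x := by
    intro y hy
    have h2 := comp_path hx (mem_comp.1 hy).1
    obtain ⟨a1, a2, a3⟩ := main_chain hG hS hop hold hJ hx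
      (fun z => z ∈ Γ.comp op (10 * Γ.ρ (m + 1)) x)
      (fun z hz => ⟨(mem_comp.1 hz).2, fun w hw => hfar z hz w hw⟩)
      (mem_comp.2 ⟨Relation.ReflTransGen.refl, hx⟩) h2.1
    exact ⟨a1, a2, a3 f hf⟩
  refine ⟨fun y hy => (h1 y hy).2.1, ?_⟩
  have h2 : Γ.comp op (10 * Γ.ρ (m + 1)) x ⊆ (WW Γ m old bad x).biUnion fun b =>
      ({y | Γ.D b y ≤ 3 * Γ.L m} : Finset X) := by
    intro y hy
    rw [Finset.mem_biUnion]
    refine ⟨f y, (h1 y hy).2.2, ?_⟩
    simp only [Finset.mem_filter, Finset.mem_univ, true_and]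
    rw [hG.comm]
    exact (hf y (mem_comp.1 hy).2).2
  refine (Finset.card_le_card h2).trans ?_
  refine (Finset.card_biUnion_le_card_mul _ _ ((6 * Γ.L m + 1) ^ d) ?_).trans
    (Nat.mul_le_mul_right _ (ww_card hG hJ x))
  intro b _
  have h3 := hG.vol b (3 * Γ.L m)
  have h4 : 2 * (3 * Γ.L m) + 1 = 6 * Γ.L m + 1 := by ring
  rwa [h4] at h3

/-- SE2 -/
theorem se2_core {Γ : Geo X} {d : ℕ} (hG : GeoOk Γ d) (hS : Scl Γ d) (hJ1 : 1 ≤ Γ.J) {m : ℕ}
    {old bad op : Finset X} {x : X} (hx : x ∈ op) (hop : op ⊆ Γ.enl m old 2)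
    (hold : ∀ b ∈ old, Γ.bl m b = b) (hJ : ∀ B, B ∉ bad → (Γ.sub m old B).card ≤ Γ.J)
    (hnear : ∃ y ∈ Γ.comp op (10 * Γ.ρ (m + 1)) x, ∃ z ∈ Γ.enl (m + 1) bad 1,
      Γ.D y z ≤ Γ.ρ (m + 1)) :
    ∀ y, Γ.D x y ≤ 3 * Γ.ρ (m + 1) → y ∈ Γ.enl (m + 1) bad 2 := by
  classical
  have hbig := hS.big m
  have h3d : 1 ≤ 3 ^ d * Γ.J := Nat.one_le_iff_ne_zero.2 (by positivity)
  have hbig1 : 8 * (5 * Γ.L m + 12 * Γ.ρ (m + 1)) ≤ Γ.L (m + 1) := by
    refine le_trans ?_ hbig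
    calc 8 * (5 * Γ.L m + 12 * Γ.ρ (m + 1)) = 8 * (1 * (5 * Γ.L m + 12 * Γ.ρ (m + 1))) := by ring
      _ ≤ 8 * (3 ^ d * Γ.J * (5 * Γ.L m + 12 * Γ.ρ (m + 1))) := by gcongr
  -- a site `v` near the bad blocks and not far from `x`
  have key : ∃ v w : X, Γ.D x v ≤ Γ.L (m + 1) / 8 + 10 * Γ.ρ (m + 1) ∧
      w ∈ Γ.enl (m + 1) bad 1 ∧ Γ.D v w ≤ Γ.ρ (m + 1) := by
    obtain ⟨y₀, hy₀, z₀, hz₀, hyz⟩ := hnear
    obtain ⟨far, hfd⟩ : ∃ far : X → Prop, far = fun z => z ∈ Γ.comp op (10 * Γ.ρ (m + 1)) x ∧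
      ∀ w ∈ Γ.enl (m + 1) bad 1, Γ.ρ (m + 1) < Γ.D z w := ⟨_, rfl⟩
    have hfx : ∀ z, far z ↔ z ∈ Γ.comp op (10 * Γ.ρ (m + 1)) x ∧
      ∀ w ∈ Γ.enl (m + 1) bad 1, Γ.ρ (m + 1) < Γ.D z w := fun z => by rw [hfd]
    have hxc : x ∈ Γ.comp op (10 * Γ.ρ (m + 1)) x :=
      mem_comp.2 ⟨Relation.ReflTransGen.refl, hx⟩
    by_cases hxf : far x
    · have hp := comp_path hx (mem_comp.1 hy₀).1
      have hny : ¬ far y₀ := by
        rw [hfx]
        rintro ⟨-, h⟩
        have := h z₀ hz₀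
        omega
      rcases first_exit far hxf hp.1 with h1 | ⟨u, v, hu, huv, hv, hxu⟩
      · exact absurd h1.1 hny
      · have h2 := main_chain hG hS hop hold hJ hx far
          (fun z hz => ⟨(mem_comp.1 ((hfx z).1 hz).1).2, ((hfx z).1 hz).2⟩) hxf
          (Relation.ReflTransGen.mono (fun a b hab => ⟨hab.2.1, hab.2.2, hab.1.2.2⟩) _ _ hxu)
        have h3 : ∃ w ∈ Γ.enl (m + 1) bad 1, Γ.D v w ≤ Γ.ρ (m + 1) := by
          by_contra hcon
          push Not at hcon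
          exact hv ((hfx v).2 ⟨huv.2.1, hcon⟩)
        obtain ⟨w, hw, hvw⟩ := h3
        refine ⟨v, w, ?_, hw, hvw⟩
        have h4 := hG.tri x u v
        have h5 := h2.2.1
        have h6 := huv.2.2
        omega
    · have h3 : ∃ w ∈ Γ.enl (m + 1) bad 1, Γ.D x w ≤ Γ.ρ (m + 1) := by
        by_contra hcon
        push Not at hcon
        exact hxf ((hfx x).2 ⟨hxc, hcon⟩)
      obtain ⟨w, hw, hvw⟩ := h3
      exact ⟨x, w, by rw [hG.self]; exact Nat.zero_le _, hw, hvw⟩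
  obtain ⟨v, w, hxv, hw, hvw⟩ := key
  simp only [Geo.enl, Finset.mem_filter, Finset.mem_univ, true_and] at hw
  obtain ⟨y', hy', hwy⟩ := hw
  intro y hy
  simp only [Geo.enl, Finset.mem_filter, Finset.mem_univ, true_and]
  refine ⟨y', hy', ?_⟩
  have t1 := hG.tri y x v
  have t2 := hG.tri y v w
  have t3 := hG.tri y w y'
  rw [hG.comm y x] at t1
  omega

end Pool.Agent.ANP.H72
end
end -- Pool.Agent.Helper72_ANP.Sep

section -- Pool.Agent.Helper49_ANP.Lab

/-!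
# LAB: the label invariant
-/

set_option autoImplicit false
set_option linter.unusedSectionVars false

namespace Pool.Agent.ANP.H49

open Pool.Agent.ANP.H72 (mem_comp)

variable {X : Type} [Fintype X] [DecidableEq X] {Γ : Geo X} {d : ℕ}

/-! ### Components -/

theorem comp_self {S : Finset X} {t : ℕ} {x : X} (hx : x ∈ S) : x ∈ Γ.comp S t x :=
  mem_comp.2 ⟨Relation.ReflTransGen.refl, hx⟩

theorem comp_sub {S : Finset X} {t : ℕ} {x : X} : Γ.comp S t x ⊆ S :=
  fun _ hy => (mem_comp.1 hy).2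

theorem comp_trans {S : Finset X} {t : ℕ} {x y z : X} (h1 : y ∈ Γ.comp S t x)
    (h2 : z ∈ Γ.comp S t y) : z ∈ Γ.comp S t x :=
  mem_comp.2 ⟨(mem_comp.1 h1).1.trans (mem_comp.1 h2).1, (mem_comp.1 h2).2⟩

theorem comp_symm (hG : GeoOk Γ d) {S : Finset X} {t : ℕ} {x y : X} (hx : x ∈ S)
    (h : y ∈ Γ.comp S t x) : x ∈ Γ.comp S t y := by
  refine mem_comp.2 ⟨?_, hx⟩
  have h1 := (mem_comp.1 h).1
  induction h1 with
  | refl => exact Relation.ReflTransGen.refl
  | @tail b c hab hbc ih =>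
    have h2 : Relation.ReflTransGen (fun u v => u ∈ S ∧ v ∈ S ∧ Γ.D u v ≤ t) c b :=
      Relation.ReflTransGen.single ⟨hbc.2.1, hbc.1, by rw [hG.comm]; exact hbc.2.2⟩
    exact h2.trans (ih (mem_comp.2 ⟨hab, hbc.1⟩))

theorem comp_link {S : Finset X} {t : ℕ} {x y z : X} (h : y ∈ Γ.comp S t x) (hz : z ∈ S)
    (hD : Γ.D y z ≤ t) : z ∈ Γ.comp S t x :=
  mem_comp.2 ⟨(mem_comp.1 h).1.tail ⟨(mem_comp.1 h).2, hz, hD⟩, hz⟩

/-! ### Memberships -/

theorem mem_nbh {S : Finset X} {t : ℕ} {x : X} : x ∈ Γ.nbh S t ↔ ∃ y ∈ S, Γ.D x y ≤ t := by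
  simp only [Geo.nbh, Finset.mem_filter, Finset.mem_univ, true_and]

theorem mem_blk {n : ℕ} {B x : X} : x ∈ Γ.blk n B ↔ Γ.bl n x = B := by
  simp only [Geo.blk, Finset.mem_filter, Finset.mem_univ, true_and]

theorem mem_enl {n : ℕ} {𝓑 : Finset X} {k : ℕ} {x : X} :
    x ∈ Γ.enl n 𝓑 k ↔ ∃ y, Γ.bl n y ∈ 𝓑 ∧ Γ.D x y ≤ k * Γ.L n := by
  simp only [Geo.enl, Finset.mem_filter, Finset.mem_univ, true_and]

theorem mem_near {o : X} {n : ℕ} {B : X} : B ∈ Γ.near o n ↔
    Γ.bl n B = B ∧ ∃ y, Γ.bl n y = B ∧ Γ.D o y ≤ 3 * Γ.ρ (n + 1) + 2 * Γ.L n := by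
  simp only [Geo.near, Finset.mem_filter, Finset.mem_univ, true_and]

theorem mem_many {n : ℕ} {L : Lb X} {B : X} : B ∈ L.many Γ n ↔
    Γ.bl (n + 1) B = B ∧ Γ.J < (Γ.sub n (L.bad n) B).card := by
  simp only [Lb.many, Finset.mem_filter, Finset.mem_univ, true_and]

theorem enl_mono {n : ℕ} {𝓑 𝓑' : Finset X} {k k' : ℕ} (h : 𝓑 ⊆ 𝓑') (hk : k ≤ k') {x : X}
    (hx : x ∈ Γ.enl n 𝓑 k) : x ∈ Γ.enl n 𝓑' k' := by
  obtain ⟨y, hy, hD⟩ := mem_enl.1 hx
  exact mem_enl.2 ⟨y, h hy, hD.trans (Nat.mul_le_mul_right _ hk)⟩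

theorem enl_union {n : ℕ} {𝓑 𝓑' : Finset X} {k : ℕ} {x : X} (hx : x ∈ Γ.enl n (𝓑 ∪ 𝓑') k) :
    x ∈ Γ.enl n 𝓑 k ∨ x ∈ Γ.enl n 𝓑' k := by
  obtain ⟨y, hy, hD⟩ := mem_enl.1 hx
  rcases Finset.mem_union.1 hy with h | h
  · exact Or.inl (mem_enl.2 ⟨y, h, hD⟩)
  · exact Or.inr (mem_enl.2 ⟨y, h, hD⟩)

/-- the centre of a bad block near a site of `op` -/
theorem cen (hG : GeoOk Γ d) {m : ℕ} {old op : Finset X} (hop : op ⊆ Γ.enl m old 2) {z : X}
    (hz : z ∈ op) : ∃ b ∈ old, Γ.D z b ≤ 3 * Γ.L m := by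
  obtain ⟨w, hw, hD⟩ := mem_enl.1 (hop hz)
  refine ⟨Γ.bl m w, hw, ?_⟩
  have h1 := hG.tri z w (Γ.bl m w)
  have h2 := hG.diam m w (Γ.bl m w) (hG.idem m w).symm
  omega

/-- a site within `3 ρ (m + 1)` of `op` is near a bad block -/
theorem near_of_op (hG : GeoOk Γ d) {m : ℕ} {old op : Finset X} (hop : op ⊆ Γ.enl m old 2)
    (hrep : ∀ B ∈ old, Γ.bl m B = B) {o z : X} (hz : z ∈ op)
    (hD : Γ.D o z ≤ 3 * Γ.ρ (m + 1)) : ∃ B ∈ old, B ∈ Γ.near o m := by
  obtain ⟨w, hw, hD2⟩ := mem_enl.1 (hop hz)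
  refine ⟨Γ.bl m w, hw, mem_near.2 ⟨hrep _ hw, w, rfl, ?_⟩⟩
  have h1 := hG.tri o z w
  omega

theorem near_of_enl {n : ℕ} {𝓑 : Finset X} (hrep : ∀ B ∈ 𝓑, Γ.bl n B = B) {o : X}
    (h : o ∈ Γ.enl n 𝓑 1) : ∃ B ∈ 𝓑, B ∈ Γ.near o n := by
  obtain ⟨w, hw, hD⟩ := mem_enl.1 h
  refine ⟨Γ.bl n w, hw, mem_near.2 ⟨hrep _ hw, w, rfl, ?_⟩⟩
  omega

theorem bl_sub (hG : GeoOk Γ d) {m : ℕ} {𝓑 : Finset X} {B : X}
    (hB : Γ.bl (m + 1) B ≠ B) : (Γ.sub m 𝓑 B).card = 0 := by
  rw [Finset.card_eq_zero, Finset.eq_empty_iff_forall_notMem]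
  intro b hb
  have h1 : Γ.bl (m + 1) b = B := (Finset.mem_filter.1 hb).2
  apply hB
  rw [← h1, hG.idem]

/-! ### The invariant -/

/-- the ledger of the releases of super-stage `m + 1` -/
structure Led (Γ : Geo X) (d : ℕ) (Kn : ℕ → ℕ) (m : ℕ) (L : Lb X) (C : Finset X)
    (G : X → Finset X) : Prop where
  sub : C ⊆ L.op
  dd : L.dd (m + 1) = C.biUnion G
  nb : ∀ c ∈ C, G c ⊆ Γ.nbh (L.cmp Γ (m + 1) c) (Γ.ρ (m + 1))
  card : ∀ c ∈ C, (G c).card ≤ Kn (m + 1) + 3 ^ d * Γ.J * (6 * Γ.L m + 1) ^ d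
  np : ∀ c ∈ C, ∀ y ∈ L.cmp Γ (m + 1) c, y ∉ L.pend
  sep : ∀ c ∈ C, ∀ c' ∈ C, c' ∈ L.cmp Γ (m + 1) c → c = c'
  few : ∀ c ∈ C, ∀ z ∈ L.cmp Γ (m + 1) c, ∀ b ∈ L.bad m, Γ.D z b ≤ 3 * Γ.L m →
    (Γ.sub m (L.bad m) (Γ.bl (m + 1) b)).card ≤ Γ.J
  all : ∀ y ∈ L.op, y ∉ L.pend → ∃ c ∈ C, y ∈ L.cmp Γ (m + 1) c

/-- the label invariant -/
structure LI (Γ : Geo X) (d : ℕ) (o : X) (Kn Dn : ℕ → ℕ) (n : ℕ) (L : Lb X) : Prop where
  disj : Disjoint L.run L.pend
  dead : ∀ x, x ∉ L.run → x ∉ L.pend → ∃ j ≤ n, x ∈ L.dd j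
  rep : ∀ j, ∀ B ∈ L.bad j, Γ.bl j B = B
  frz : Disjoint L.run (Γ.enl n (L.bad n) 1)
  pen : n = 0 → L.op = ∅
  npe : ∀ x ∈ L.pend, x ∉ L.op → x ∈ Γ.enl n (L.bad n) 1
  orig : o ∉ L.run → ∃ j ≤ n, ∃ B ∈ L.bad j, B ∈ Γ.near o j
  opn : ∀ m, n = m + 1 → L.op ⊆ Γ.enl m (L.bad m) 2
  opr : ∀ x ∈ L.op, x ∉ L.run
  bz : ∀ j, n < j → L.bad j = ∅
  dz : ∀ j, n < j → L.dd j = ∅
  d0 : n = 0 → L.dd 0 = ∅
  sub : ∀ m, n = m + 1 → ∀ B, B ∉ L.bad n → (Γ.sub m (L.bad m) B).card ≤ Γ.J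
  den : ∀ j, j < n → ∀ B, (L.dd j ∩ Γ.blk j B).card ≤ Dn j
  led : ∀ m, n = m + 1 → ∃ C G, Led Γ d Kn m L C G

/-- the density -/
theorem led_dens (hG : GeoOk Γ d) (hS : Scl Γ d) {Kn : ℕ → ℕ} {m : ℕ}
    {L : Lb X} {C : Finset X} {G : X → Finset X} (h : Led Γ d Kn m L C G)
    (hop : L.op ⊆ Γ.enl m (L.bad m) 2) (B : X) :
    (L.dd (m + 1) ∩ Γ.blk (m + 1) B).card ≤
      3 ^ d * Γ.J * (Kn (m + 1) + 3 ^ d * Γ.J * (6 * Γ.L m + 1) ^ d) := by
  classical
  rcases Finset.eq_empty_or_nonempty (Γ.blk (m + 1) B) with h0 | ⟨x₀, hx₀⟩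
  · rw [h0, Finset.inter_empty, Finset.card_empty]
    exact Nat.zero_le _
  have hx₀ := mem_blk.1 hx₀
  have hrho := hS.rho m
  have hbig := hS.big m
  have hJ1 := hS.J1
  have h3d : 1 ≤ 3 ^ d * Γ.J := Nat.one_le_iff_ne_zero.2 (by positivity)
  have hL : 12 * Γ.ρ (m + 1) + 5 * Γ.L m ≤ Γ.L (m + 1) := by
    have h1 : 1 * (5 * Γ.L m + 12 * Γ.ρ (m + 1)) ≤
        3 ^ d * Γ.J * (5 * Γ.L m + 12 * Γ.ρ (m + 1)) := Nat.mul_le_mul_right _ h3d
    omega
  set C' : Finset X := C.filter fun c => (G c ∩ Γ.blk (m + 1) B).Nonempty with hC'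
  set W : Finset X := ((((Finset.univ.filter fun y =>
    ∃ z, Γ.bl (m + 1) z = Γ.bl (m + 1) x₀ ∧ Γ.D z y ≤ Γ.L (m + 1))).image (Γ.bl (m + 1))).filter
    fun B' => (Γ.sub m (L.bad m) B').card ≤ Γ.J).biUnion fun B' => Γ.sub m (L.bad m) B' with hW
  have hWc : W.card ≤ 3 ^ d * Γ.J := by
    rw [hW]
    refine (Finset.card_biUnion_le_card_mul _ _ Γ.J ?_).trans ?_
    · intro B' hB'
      exact (Finset.mem_filter.1 hB').2
    · exact Nat.mul_le_mul_right _ ((Finset.card_filter_le _ _).trans (hG.meetb (m + 1) x₀))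
  have hf : ∀ c, ∃ z b, c ∈ C' → z ∈ L.cmp Γ (m + 1) c ∧ b ∈ W ∧ Γ.D z b ≤ 3 * Γ.L m := by
    intro c
    by_cases hc : c ∈ C'
    · obtain ⟨hc1, y, hy⟩ := Finset.mem_filter.1 hc
      obtain ⟨hy1, hy2⟩ := Finset.mem_inter.1 hy
      obtain ⟨z, hz, hyz⟩ := mem_nbh.1 (h.nb c hc1 hy1)
      have hzop : z ∈ L.op := comp_sub hz
      obtain ⟨b, hb, hzb⟩ := cen hG hop hzop
      refine ⟨z, b, fun _ => ⟨hz, ?_, hzb⟩⟩
      rw [hW, Finset.mem_biUnion]
      refine ⟨Γ.bl (m + 1) b, ?_, ?_⟩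
      · rw [Finset.mem_filter, Finset.mem_image]
        refine ⟨⟨b, ?_, rfl⟩, h.few c hc1 z hz b hb hzb⟩
        rw [Finset.mem_filter]
        refine ⟨Finset.mem_univ _, y, (mem_blk.1 hy2).trans hx₀.symm, ?_⟩
        have h1 := hG.tri y z b
        omega
      · exact Finset.mem_filter.2 ⟨hb, rfl⟩
    · exact ⟨c, c, fun h1 => absurd h1 hc⟩
  choose fz fb hfz using hf
  have hC'c : C'.card ≤ W.card := by
    refine Finset.card_le_card_of_injOn fb (fun c hc => (hfz c hc).2.1) ?_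
    intro c hc c' hc' hcc
    obtain ⟨h1, -, h2⟩ := hfz c hc
    obtain ⟨h1', -, h2'⟩ := hfz c' hc'
    have hcC : c ∈ C := (Finset.mem_filter.1 hc).1
    have hcC' : c' ∈ C := (Finset.mem_filter.1 hc').1
    have h3 : Γ.D (fz c) (fz c') ≤ 10 * Γ.ρ (m + 1) := by
      have h4 := hG.tri (fz c) (fb c) (fz c')
      have h5 := hG.comm (fb c) (fz c')
      rw [hcc] at h4 h5 h2
      omega
    have h4 : fz c' ∈ L.cmp Γ (m + 1) c := comp_link h1 (comp_sub h1') h3
    have h5 : c' ∈ L.cmp Γ (m + 1) (fz c') := comp_symm hG (h.sub hcC') h1'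
    exact h.sep c hcC c' hcC' (comp_trans h4 h5)
  have h1 : L.dd (m + 1) ∩ Γ.blk (m + 1) B ⊆ C'.biUnion G := by
    intro y hy
    obtain ⟨hy1, hy2⟩ := Finset.mem_inter.1 hy
    rw [h.dd, Finset.mem_biUnion] at hy1
    obtain ⟨c, hc, hyc⟩ := hy1
    exact Finset.mem_biUnion.2 ⟨c, Finset.mem_filter.2 ⟨hc, y, Finset.mem_inter.2 ⟨hyc, hy2⟩⟩, hyc⟩
  refine (Finset.card_le_card h1).trans ?_
  refine (Finset.card_biUnion_le_card_mul _ _
    (Kn (m + 1) + 3 ^ d * Γ.J * (6 * Γ.L m + 1) ^ d) ?_).trans ?_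
  · intro c hc
    exact h.card c (Finset.mem_filter.1 hc).1
  · exact Nat.mul_le_mul_right _ (hC'c.trans hWc)

variable {o : X} {Kn Dn : ℕ → ℕ}

/-- the facts -/
theorem li_fac (sep : SepStmt) (hG : GeoOk Γ d) (hS : Scl Γ d)
    (hD : ∀ n, 1 ≤ n → 3 ^ d * Γ.J * (Kn n + 3 ^ d * Γ.J * (6 * Γ.L (n - 1) + 1) ^ d) ≤ Dn n)
    {n : ℕ} {L : Lb X} (h : LI Γ d o Kn Dn n L) : LFac Γ d o Dn n L where
  disj := h.disj
  dead := h.dead
  dens := by
    intro j B
    rcases lt_trichotomy j n with hj | hj | hj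
    · exact h.den j hj B
    · subst hj
      rcases j with _ | m
      · rw [h.d0 rfl, Finset.empty_inter, Finset.card_empty]
        exact Nat.zero_le _
      · obtain ⟨C, G, hl⟩ := h.led m rfl
        exact (led_dens hG hS hl (h.opn m rfl) B).trans (hD (m + 1) (Nat.succ_pos m))
    · rw [h.dz j hj, Finset.empty_inter, Finset.card_empty]
      exact Nat.zero_le _
  rep := h.rep
  frz := h.frz
  pen := h.pen
  npe := h.npe
  rel := by
    intro x hx hel
    rcases n with _ | m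
    · rw [h.pen rfl] at hx
      exact absurd hx (Finset.notMem_empty _)
    · have h1 := sep X Γ d hG hS m (L.bad m) (L.bad (m + 1)) L.op x hx (h.opn m rfl) (h.rep m)
        (h.sub m rfl) hel.2
      have hbig := hS.big m
      have hJ1 := hS.J1
      have h3d : 1 ≤ 3 ^ d * Γ.J := Nat.one_le_iff_ne_zero.2 (by positivity)
      have hL : 8 * (12 * Γ.ρ (m + 1) + 5 * Γ.L m) ≤ Γ.L (m + 1) := by
        have h1 : 1 * (5 * Γ.L m + 12 * Γ.ρ (m + 1)) ≤
            3 ^ d * Γ.J * (5 * Γ.L m + 12 * Γ.ρ (m + 1)) := Nat.mul_le_mul_right _ h3d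
        omega
      refine ⟨?_, h1.2, ?_⟩
      · intro y hy
        have h2 := h1.1 y hy
        omega
      · intro y hy z hz hzc
        by_cases hzo : z ∈ L.op
        · by_contra hc
          push Not at hc
          exact hzc (comp_link hy hzo (by omega))
        · exact hel.2 y hy z (h.npe z hz hzo)
  orig := h.orig
  opn := h.opn

/-- rejected or declared blocks -/
theorem li_add {n : ℕ} {L : Lb X} (𝓑 : Finset X) (h : LI Γ d o Kn Dn n L)
    (hr : ∀ B ∈ 𝓑, Γ.bl n B = B) : LI Γ d o Kn Dn n (L.add Γ n 𝓑) := by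
  have hb : ∀ j, j ≠ n → (L.add Γ n 𝓑).bad j = L.bad j := fun j hj =>
    Function.update_of_ne hj _ _
  have hbn : (L.add Γ n 𝓑).bad n = L.bad n ∪ 𝓑 := Function.update_self _ _ _
  have hrun : (L.add Γ n 𝓑).run = L.run \ Γ.enl n 𝓑 1 := rfl
  have hpend : (L.add Γ n 𝓑).pend = L.pend ∪ (L.run ∩ Γ.enl n 𝓑 1) := rfl
  have hop : (L.add Γ n 𝓑).op = L.op := rfl
  have hdd : (L.add Γ n 𝓑).dd = L.dd := rfl
  have hrep : ∀ j, ∀ B ∈ (L.add Γ n 𝓑).bad j, Γ.bl j B = B := by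
    intro j B hB
    by_cases hj : j = n
    · subst hj
      rw [hbn] at hB
      rcases Finset.mem_union.1 hB with h1 | h1
      · exact h.rep _ B h1
      · exact hr B h1
    · rw [hb j hj] at hB
      exact h.rep j B hB
  refine ⟨?_, ?_, hrep, ?_, h.pen, ?_, ?_, ?_, ?_, ?_, h.dz, h.d0, ?_, h.den, ?_⟩
  · rw [hrun, hpend, Finset.disjoint_left]
    intro x hx hx2
    obtain ⟨h1, h2⟩ := Finset.mem_sdiff.1 hx
    rcases Finset.mem_union.1 hx2 with h3 | h3
    · exact Finset.disjoint_left.1 h.disj h1 h3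
    · exact h2 (Finset.mem_inter.1 h3).2
  · intro x hx1 hx2
    rw [hrun, Finset.mem_sdiff] at hx1
    rw [hpend, Finset.mem_union, Finset.mem_inter] at hx2
    rw [hdd]
    refine h.dead x (fun h1 => ?_) (fun h1 => hx2 (Or.inl h1))
    by_cases h2 : x ∈ Γ.enl n 𝓑 1
    · exact hx2 (Or.inr ⟨h1, h2⟩)
    · exact hx1 ⟨h1, h2⟩
  · rw [hrun, hbn, Finset.disjoint_left]
    intro x hx hx2
    obtain ⟨h1, h2⟩ := Finset.mem_sdiff.1 hx
    rcases enl_union hx2 with h3 | h3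
    · exact Finset.disjoint_left.1 h.frz h1 h3
    · exact h2 h3
  · intro x hx hx2
    rw [hop] at hx2
    rw [hbn]
    rw [hpend, Finset.mem_union, Finset.mem_inter] at hx
    rcases hx with h1 | h1
    · exact enl_mono Finset.subset_union_left le_rfl (h.npe x h1 hx2)
    · exact enl_mono Finset.subset_union_right le_rfl h1.2
  · intro ho
    by_cases h1 : o ∈ L.run
    · have h2 : o ∈ Γ.enl n 𝓑 1 := by
        by_contra h3
        exact ho (Finset.mem_sdiff.2 ⟨h1, h3⟩)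
      obtain ⟨B, hB, hB2⟩ := near_of_enl hr h2
      exact ⟨n, le_rfl, B, by rw [hbn]; exact Finset.mem_union_right _ hB, hB2⟩
    · obtain ⟨j, hj, B, hB, hB2⟩ := h.orig h1
      refine ⟨j, hj, B, ?_, hB2⟩
      by_cases hjn : j = n
      · subst hjn
        rw [hbn]
        exact Finset.mem_union_left _ hB
      · rw [hb j hjn]
        exact hB
  · intro m hm
    rw [hop, hb m (by omega)]
    exact h.opn m hm
  · intro x hx hx2
    exact h.opr x hx (Finset.mem_sdiff.1 hx2).1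
  · intro j hj
    rw [hb j (by omega)]
    exact h.bz j hj
  · intro m hm B hB
    rw [hb m (by omega)]
    refine h.sub m hm B (fun h1 => hB ?_)
    rw [hbn]
    exact Finset.mem_union_left _ h1
  · intro m hm
    obtain ⟨C, G, hl⟩ := h.led m hm
    refine ⟨C, G, hl.sub, hl.dd, hl.nb, hl.card, ?_, hl.sep, ?_, ?_⟩
    · intro c hc y hy hy2
      rw [hpend, Finset.mem_union, Finset.mem_inter] at hy2
      rcases hy2 with h1 | h1
      · exact hl.np c hc y hy h1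
      · exact h.opr y (comp_sub hy) h1.1
    · rw [hb m (by omega)]
      exact hl.few
    · intro y hy hy2
      refine hl.all y hy (fun h1 => hy2 ?_)
      rw [hpend]
      exact Finset.mem_union_left _ h1

/-- a release -/
theorem li_die (sep : SepStmt) (hG : GeoOk Γ d) (hS : Scl Γ d) {n : ℕ} {L : Lb X} (x : X)
    (K : Finset X) (h : LI Γ d o Kn Dn n L) (hx : x ∈ L.op) (hel : L.elig Γ n (L.cmp Γ n x))
    (hK : K ⊆ L.run ∩ Γ.nbh (L.cmp Γ n x) (Γ.ρ n)) (hKc : K.card ≤ Kn n) :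
    LI Γ d o Kn Dn n (L.die n K (L.cmp Γ n x)) := by
  classical
  obtain ⟨m, rfl⟩ : ∃ m, n = m + 1 := by
    rcases n with _ | m
    · rw [h.pen rfl] at hx
      exact absurd hx (Finset.notMem_empty _)
    · exact ⟨m, rfl⟩
  obtain ⟨Q, hQ⟩ : ∃ Q, Q = L.cmp Γ (m + 1) x := ⟨_, rfl⟩
  have hrun : (L.die (m + 1) K Q).run = L.run \ K := rfl
  have hpend : (L.die (m + 1) K Q).pend = L.pend \ Q := rfl
  have hop : (L.die (m + 1) K Q).op = L.op := rfl
  have hbad : (L.die (m + 1) K Q).bad = L.bad := rfl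
  have hdn : (L.die (m + 1) K Q).dd (m + 1) = L.dd (m + 1) ∪ K ∪ Q := Function.update_self _ _ _
  have hdj : ∀ j, j ≠ m + 1 → (L.die (m + 1) K Q).dd j = L.dd j := fun j hj =>
    Function.update_of_ne hj _ _
  have hsep := sep X Γ d hG hS m (L.bad m) (L.bad (m + 1)) L.op x hx (h.opn m rfl) (h.rep m)
    (h.sub m rfl) hel.2
  rw [← hQ] at hel hK ⊢
  refine ⟨?_, ?_, h.rep, ?_, h.pen, ?_, ?_, h.opn, ?_, h.bz, ?_, ?_, h.sub, ?_, ?_⟩
  · rw [hrun, hpend]
    exact Finset.disjoint_of_subset_left Finset.sdiff_subset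
      (Finset.disjoint_of_subset_right Finset.sdiff_subset h.disj)
  · intro y hy1 hy2
    rw [hrun, Finset.mem_sdiff] at hy1
    rw [hpend, Finset.mem_sdiff] at hy2
    by_cases h1 : y ∈ L.run
    · have h2 : y ∈ K := by
        by_contra h3
        exact hy1 ⟨h1, h3⟩
      exact ⟨m + 1, le_rfl, by rw [hdn]; simp [h2]⟩
    · by_cases h2 : y ∈ L.pend
      · have h3 : y ∈ Q := by
          by_contra h3
          exact hy2 ⟨h2, h3⟩
        exact ⟨m + 1, le_rfl, by rw [hdn]; simp [h3]⟩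
      · obtain ⟨j, hj, hyj⟩ := h.dead y h1 h2
        refine ⟨j, hj, ?_⟩
        by_cases hjm : j = m + 1
        · subst hjm
          rw [hdn]
          simp [hyj]
        · rw [hdj j hjm]
          exact hyj
  · rw [hrun, hbad]
    exact Finset.disjoint_of_subset_left Finset.sdiff_subset h.frz
  · intro y hy hy2
    exact h.npe y (Finset.sdiff_subset hy) hy2
  · intro ho
    by_cases h1 : o ∈ L.run
    · have h2 : o ∈ K := by
        by_contra h3
        exact ho (Finset.mem_sdiff.2 ⟨h1, h3⟩)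
      obtain ⟨z, hz, hoz⟩ := mem_nbh.1 (Finset.mem_inter.1 (hK h2)).2
      rw [hQ] at hz
      obtain ⟨B, hB, hB2⟩ := near_of_op hG (h.opn m rfl) (h.rep m) (comp_sub hz)
        (o := o) (by omega)
      exact ⟨m, Nat.le_succ m, B, hB, hB2⟩
    · exact h.orig h1
  · intro y hy hy2
    exact h.opr y hy (Finset.sdiff_subset hy2)
  · intro j hj
    rw [hdj j (by omega)]
    exact h.dz j hj
  · intro h0
    exact absurd h0 (Nat.succ_ne_zero m)
  · intro j hj B
    rw [hdj j (by omega)]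
    exact h.den j hj B
  · intro m' hm'
    obtain rfl : m = m' := by omega
    obtain ⟨C, G, hl⟩ := h.led m rfl
    have hxQ : x ∈ Q := by
      rw [hQ]
      exact comp_self hx
    have hxC : ∀ c ∈ C, x ∉ L.cmp Γ (m + 1) c := fun c hc hxc =>
      hl.np c hc x hxc (hel.1 hxQ)
    have hCx : ∀ c ∈ C, c ∉ Q := by
      intro c hc hcQ
      exact hl.np c hc c (comp_self (hl.sub hc)) (hel.1 hcQ)
    have hxC0 : x ∉ C := fun hc => hxC x hc (comp_self hx)
    have hne : ∀ c ∈ C, c ≠ x := fun c hc hcx => hxC0 (by rw [← hcx]; exact hc)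
    refine ⟨insert x C, Function.update G x (K ∪ Q), ?_, ?_, ?_, ?_, ?_, ?_, ?_, ?_⟩
    · intro c hc
      rcases Finset.mem_insert.1 hc with rfl | hc
      · exact hx
      · exact hl.sub hc
    · rw [hdn, hl.dd, Finset.biUnion_insert, Function.update_self, Finset.union_assoc,
        Finset.union_comm]
      congr 1
      refine Finset.biUnion_congr rfl fun c hc => ?_
      rw [Function.update_of_ne (hne c hc)]
    · intro c hc
      rcases Finset.mem_insert.1 hc with rfl | hc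
      · rw [Function.update_self]
        intro y hy
        show y ∈ Γ.nbh (L.cmp Γ (m + 1) c) (Γ.ρ (m + 1))
        rw [← hQ]
        rcases Finset.mem_union.1 hy with h1 | h1
        · exact (Finset.mem_inter.1 (hK h1)).2
        · exact mem_nbh.2 ⟨y, h1, by rw [hG.self]; exact Nat.zero_le _⟩
      · rw [Function.update_of_ne (hne c hc)]
        exact hl.nb c hc
    · intro c hc
      rcases Finset.mem_insert.1 hc with rfl | hc
      · rw [Function.update_self]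
        refine (Finset.card_union_le _ _).trans (Nat.add_le_add hKc ?_)
        rw [hQ]
        exact hsep.2
      · rw [Function.update_of_ne (hne c hc)]
        exact hl.card c hc
    · intro c hc y hy hy2
      obtain ⟨h1, h2⟩ := Finset.mem_sdiff.1 hy2
      rcases Finset.mem_insert.1 hc with rfl | hc
      · apply h2
        rw [hQ]
        exact hy
      · exact hl.np c hc y hy h1
    · intro c hc c' hc' hcc
      rcases Finset.mem_insert.1 hc with rfl | hc1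
      · rcases Finset.mem_insert.1 hc' with rfl | hc1'
        · rfl
        · exact absurd (by rw [hQ]; exact hcc) (hCx c' hc1')
      · rcases Finset.mem_insert.1 hc' with rfl | hc1'
        · exact absurd hcc (hxC c hc1)
        · exact hl.sep c hc1 c' hc1' hcc
    · intro c hc z hz b hb hzb
      rcases Finset.mem_insert.1 hc with rfl | hc1
      · refine h.sub m rfl _ (fun hB => ?_)
        have h1 : b ∈ Γ.enl (m + 1) (L.bad (m + 1)) 1 :=
          mem_enl.2 ⟨b, hB, by rw [hG.self]; exact Nat.zero_le _⟩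
        have h2 := hel.2 z (by rw [hQ]; exact hz) b h1
        have h3 := hS.rho m
        omega
      · exact hl.few c hc1 z hz b hb hzb
    · intro y hy hy2
      by_cases h1 : y ∈ L.pend
      · have h2 : y ∈ Q := by
          by_contra h3
          exact hy2 (Finset.mem_sdiff.2 ⟨h1, h3⟩)
        exact ⟨x, Finset.mem_insert_self _ _, by rw [hQ] at h2; exact h2⟩
      · obtain ⟨c, hc, hyc⟩ := hl.all y hy h1
        exact ⟨c, Finset.mem_insert_of_mem hc, hyc⟩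

/-- the waiting components are in `5 B` -/
theorem wait (se2 : Se2Stmt) (hG : GeoOk Γ d) (hS : Scl Γ d) {m : ℕ} {L : Lb X}
    (h : LI Γ d o Kn Dn (m + 1) L)
    (hne : ∀ x ∈ L.op, ¬ L.elig Γ (m + 1) (L.cmp Γ (m + 1) x)) {x : X} (hx : x ∈ L.op)
    (hxp : x ∈ L.pend) {y : X} (hy : Γ.D x y ≤ 3 * Γ.ρ (m + 1)) :
    y ∈ Γ.enl (m + 1) (L.bad (m + 1)) 2 := by
  classical
  obtain ⟨C, G, hl⟩ := h.led m rfl
  refine se2 X Γ d hG hS m (L.bad m) (L.bad (m + 1)) L.op x hx (h.opn m rfl) (h.rep m)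
    (h.sub m rfl) ?_ y hy
  by_contra hc
  push Not at hc
  refine hne x hx ⟨?_, hc⟩
  intro z hz
  by_contra hzp
  obtain ⟨c, hcC, hzc⟩ := hl.all z (comp_sub hz) hzp
  have h1 : x ∈ L.cmp Γ (m + 1) z := comp_symm hG hx hz
  exact hl.np c hcC x (comp_trans hzc h1) hxp

/-- the next super-stage -/
theorem li_nxt (se2 : Se2Stmt) (hG : GeoOk Γ d) (hS : Scl Γ d)
    (hD : ∀ n, 1 ≤ n → 3 ^ d * Γ.J * (Kn n + 3 ^ d * Γ.J * (6 * Γ.L (n - 1) + 1) ^ d) ≤ Dn n)
    {n : ℕ} {L : Lb X} (h : LI Γ d o Kn Dn n L)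
    (hne : ∀ x ∈ L.op, ¬ L.elig Γ n (L.cmp Γ n x)) : LI Γ d o Kn Dn (n + 1) (L.nxt Γ n) := by
  classical
  obtain ⟨Y, hY⟩ : ∃ Y, Y = Γ.nbh (L.op ∩ L.pend) (3 * Γ.ρ n) := ⟨_, rfl⟩
  obtain ⟨Z, hZ⟩ : ∃ Z, Z = Γ.enl (n + 1) (L.many Γ n) 1 := ⟨_, rfl⟩
  have hrun : (L.nxt Γ n).run = (L.run \ Y) \ Z := by rw [hY, hZ]; rfl
  have hpend : (L.nxt Γ n).pend = (L.pend ∪ (L.run ∩ Y)) ∪ ((L.run \ Y) ∩ Z) := by
    rw [hY, hZ]; rfl
  have hop : (L.nxt Γ n).op = L.pend ∪ (L.run ∩ Y) := by rw [hY]; rfl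
  have hdd : (L.nxt Γ n).dd = L.dd := rfl
  have hbj : ∀ j, j ≠ n + 1 → (L.nxt Γ n).bad j = L.bad j := fun j hj =>
    Function.update_of_ne hj _ _
  have hbn : (L.nxt Γ n).bad (n + 1) = L.many Γ n := by
    have h1 : (L.nxt Γ n).bad (n + 1) = L.bad (n + 1) ∪ L.many Γ n := Function.update_self _ _ _
    rw [h1, h.bz (n + 1) (Nat.lt_succ_self n), Finset.empty_union]
  have hrep : ∀ j, ∀ B ∈ (L.nxt Γ n).bad j, Γ.bl j B = B := by
    intro j B hB
    by_cases hj : j = n + 1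
    · subst hj
      rw [hbn] at hB
      exact (mem_many.1 hB).1
    · rw [hbj j hj] at hB
      exact h.rep j B hB
  refine ⟨?_, ?_, hrep, ?_, ?_, ?_, ?_, ?_, ?_, ?_, ?_, ?_, ?_, ?_, ?_⟩
  · rw [hrun, hpend, Finset.disjoint_left]
    intro x hx hx2
    obtain ⟨h0, hxZ⟩ := Finset.mem_sdiff.1 hx
    obtain ⟨hxr, hxY⟩ := Finset.mem_sdiff.1 h0
    rcases Finset.mem_union.1 hx2 with h1 | h1
    · rcases Finset.mem_union.1 h1 with h2 | h2
      · exact Finset.disjoint_left.1 h.disj hxr h2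
      · exact hxY (Finset.mem_inter.1 h2).2
    · exact hxZ (Finset.mem_inter.1 h1).2
  · intro x hx1 hx2
    rw [hrun, Finset.mem_sdiff, Finset.mem_sdiff] at hx1
    rw [hpend, Finset.mem_union, Finset.mem_union, Finset.mem_inter, Finset.mem_inter,
      Finset.mem_sdiff] at hx2
    rw [hdd]
    have h1 : x ∉ L.run := by
      intro h1
      by_cases h2 : x ∈ Y
      · exact hx2 (Or.inl (Or.inr ⟨h1, h2⟩))
      · by_cases h3 : x ∈ Z
        · exact hx2 (Or.inr ⟨⟨h1, h2⟩, h3⟩)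
        · exact hx1 ⟨⟨h1, h2⟩, h3⟩
    obtain ⟨j, hj, hxj⟩ := h.dead x h1 (fun h2 => hx2 (Or.inl (Or.inl h2)))
    exact ⟨j, by omega, hxj⟩
  · rw [hrun, hbn, ← hZ]
    exact Finset.sdiff_disjoint
  · intro h0
    exact absurd h0 (Nat.succ_ne_zero n)
  · intro x hx hx2
    rw [hop] at hx2
    rw [hpend] at hx
    rcases Finset.mem_union.1 hx with h1 | h1
    · exact absurd h1 hx2
    · rw [hbn, ← hZ]
      exact (Finset.mem_inter.1 h1).2
  · intro ho
    by_cases h1 : o ∈ L.run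
    · by_cases h2 : o ∈ Y
      · rw [hY] at h2
        obtain ⟨z, hz, hoz⟩ := mem_nbh.1 h2
        have hzo : z ∈ L.op := (Finset.mem_inter.1 hz).1
        rcases n with _ | m
        · rw [h.pen rfl] at hzo
          exact absurd hzo (Finset.notMem_empty _)
        · obtain ⟨B, hB, hB2⟩ := near_of_op hG (h.opn m rfl) (h.rep m) hzo hoz
          exact ⟨m, by omega, B, by rw [hbj m (by omega)]; exact hB, hB2⟩
      · have h3 : o ∈ Z := by
          by_contra h3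
          exact ho (by rw [hrun, Finset.mem_sdiff, Finset.mem_sdiff]; exact ⟨⟨h1, h2⟩, h3⟩)
        rw [hZ] at h3
        obtain ⟨B, hB, hB2⟩ := near_of_enl (fun B hB => (mem_many.1 hB).1) h3
        exact ⟨n + 1, le_rfl, B, by rw [hbn]; exact hB, hB2⟩
    · obtain ⟨j, hj, B, hB, hB2⟩ := h.orig h1
      exact ⟨j, by omega, B, by rw [hbj j (by omega)]; exact hB, hB2⟩
  · intro m hm x hx
    obtain rfl : n = m := by omega
    rw [hbj n (by omega)]
    rw [hop] at hx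
    rcases Finset.mem_union.1 hx with h1 | h1
    · by_cases h2 : x ∈ L.op
      · rcases n with _ | m
        · rw [h.pen rfl] at h2
          exact absurd h2 (Finset.notMem_empty _)
        · exact wait se2 hG hS h hne h2 h1 (by rw [hG.self]; exact Nat.zero_le _)
      · exact enl_mono (Finset.Subset.refl _) (by omega) (h.npe x h1 h2)
    · obtain ⟨h2, h3⟩ := Finset.mem_inter.1 h1
      rw [hY] at h3
      obtain ⟨z, hz, hxz⟩ := mem_nbh.1 h3
      obtain ⟨hzo, hzp⟩ := Finset.mem_inter.1 hz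
      rcases n with _ | m
      · rw [h.pen rfl] at hzo
        exact absurd hzo (Finset.notMem_empty _)
      · exact wait se2 hG hS h hne hzo hzp (by rw [hG.comm]; exact hxz)
  · intro x hx hx2
    rw [hop] at hx
    rw [hrun, Finset.mem_sdiff, Finset.mem_sdiff] at hx2
    rcases Finset.mem_union.1 hx with h1 | h1
    · exact Finset.disjoint_left.1 h.disj hx2.1.1 h1
    · exact hx2.1.2 (Finset.mem_inter.1 h1).2
  · intro j hj
    rw [hbj j (by omega)]
    exact h.bz j (by omega)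
  · intro j hj
    exact h.dz j (by omega)
  · intro h0
    exact absurd h0 (Nat.succ_ne_zero n)
  · intro m hm B hB
    obtain rfl : n = m := by omega
    rw [hbj n (by omega)]
    rw [hbn] at hB
    by_cases hBr : Γ.bl (n + 1) B = B
    · by_contra hc
      push Not at hc
      exact hB (mem_many.2 ⟨hBr, hc⟩)
    · rw [bl_sub hG hBr]
      exact Nat.zero_le _
  · intro j hj B
    rw [hdd]
    rcases Nat.lt_or_ge j n with h1 | h1
    · exact h.den j h1 B
    · obtain rfl : j = n := by omega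
      rcases j with _ | m
      · rw [h.d0 rfl, Finset.empty_inter, Finset.card_empty]
        exact Nat.zero_le _
      · obtain ⟨C, G, hl⟩ := h.led m rfl
        exact (led_dens hG hS hl (h.opn m rfl) B).trans (hD (m + 1) (Nat.succ_pos m))
  · intro m hm
    obtain rfl : n = m := by omega
    refine ⟨∅, fun _ => ∅, Finset.empty_subset _, ?_, ?_, ?_, ?_, ?_, ?_, ?_⟩
    · rw [hdd, h.dz (n + 1) (Nat.lt_succ_self n)]
      rfl
    · intro c hc
      exact absurd hc (Finset.notMem_empty _)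
    · intro c hc
      exact absurd hc (Finset.notMem_empty _)
    · intro c hc
      exact absurd hc (Finset.notMem_empty _)
    · intro c hc
      exact absurd hc (Finset.notMem_empty _)
    · intro c hc
      exact absurd hc (Finset.notMem_empty _)
    · intro y hy hy2
      rw [hop] at hy
      rw [hpend] at hy2
      exact absurd (Finset.mem_union_left _ hy) hy2

/-- the start -/
theorem li_ini : LI Γ d o Kn Dn 0 (Lb.ini X) := by
  have hrun : (Lb.ini X).run = Finset.univ := rfl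
  refine ⟨?_, ?_, ?_, ?_, ?_, ?_, ?_, ?_, ?_, ?_, ?_, ?_, ?_, ?_, ?_⟩
  · exact Finset.disjoint_empty_right _
  · intro x hx
    exact absurd (Finset.mem_univ x) hx
  · intro j B hB
    exact absurd hB (Finset.notMem_empty _)
  · rw [Finset.disjoint_left]
    intro x _ hx
    obtain ⟨y, hy, -⟩ := mem_enl.1 hx
    exact absurd hy (Finset.notMem_empty _)
  · intro _
    rfl
  · intro x hx
    exact absurd hx (Finset.notMem_empty _)
  · intro ho
    exact absurd (Finset.mem_univ o) ho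
  · intro m hm
    exact absurd hm.symm (Nat.succ_ne_zero m)
  · intro x hx
    exact absurd hx (Finset.notMem_empty _)
  · intro j _
    rfl
  · intro j _
    rfl
  · intro _
    rfl
  · intro m hm
    exact absurd hm.symm (Nat.succ_ne_zero m)
  · intro j hj
    exact absurd hj (Nat.not_lt_zero j)
  · intro m hm
    exact absurd hm.symm (Nat.succ_ne_zero m)

/-- LAB -/
theorem lab (sep : SepStmt) (se2 : Se2Stmt) : LabStmt := by
  intro X _ _ Γ d o Kn Dn hG hS hD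
  exact ⟨LI Γ d o Kn Dn, li_ini, fun n L h => li_fac sep hG hS hD h,
    fun n L 𝓑 h hr => li_add 𝓑 h hr,
    fun n L x K h hx hel hK hKc => li_die sep hG hS x K h hx hel hK hKc,
    fun n L h hne => li_nxt se2 hG hS hD h hne⟩

end Pool.Agent.ANP.H49
end -- Pool.Agent.Helper49_ANP.Lab

section -- Pool.Agent.Helper72_ANP.SepRows

/-!
# Block P3, rows SEP and SE2
-/

set_option autoImplicit false

namespace Pool.Agent.ANP.H72

open Pool.Agent.ANP

theorem sep : SepStmt := by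
  intro X _ _ Γ d hG hS m old bad op x hx hop hold hJ hfar
  exact sep_core hG hS hx hop hold hJ hfar

theorem se2 : Se2Stmt := by
  intro X _ _ Γ d hG hS m old bad op x hx hop hold hJ hnear
  exact se2_core hG hS hS.J1 hx hop hold hJ hnear

end Pool.Agent.ANP.H72
end -- Pool.Agent.Helper72_ANP.SepRows

section -- Pool.Agent.Helper16_AC.All

/-! PRT2 without hypotheses. -/

set_option autoImplicit false

noncomputable section

namespace Pool.Agent.ANP.AC

theorem prt2T : ACX.Prt2Stmt := prt2 (ANP.H49.lab ANP.H72.sep ANP.H72.se2)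

end Pool.Agent.ANP.AC
end
end -- Pool.Agent.Helper16_AC.All

section -- Pool.Agent.Helper61_ANP.Scl

/-!
# The scales
-/

set_option autoImplicit false

open Finset Filter

noncomputable section

namespace Pool.Agent.ANP.H61

/-! ### Calculus -/

theorem growth (c : ℝ) (hc : 0 < c) (B : ℝ) :
    ∃ E : ℕ, ∀ e : ℕ, E ≤ e → B * ((e : ℝ) + 1) ≤ (2 : ℝ) ^ (c * e) := by
  have hr : (1 : ℝ) < (2 : ℝ) ^ c := Real.one_lt_rpow (by norm_num) hc
  have h := tendsto_pow_const_div_const_pow_of_one_lt 1 hr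
  have hB : (0 : ℝ) < 2 * (|B| + 1) := by positivity
  have h2 : ∀ᶠ n : ℕ in atTop, (n : ℝ) ^ 1 / ((2 : ℝ) ^ c) ^ n < (2 * (|B| + 1))⁻¹ :=
    h.eventually (gt_mem_nhds (by positivity))
  obtain ⟨E, hE⟩ := eventually_atTop.1 h2
  refine ⟨max E 1, fun e he => ?_⟩
  have h3 := hE e (le_trans (le_max_left _ _) he)
  have h4 : (1 : ℝ) ≤ e := by exact_mod_cast le_trans (le_max_right _ _) he
  have h5 : (0 : ℝ) < ((2 : ℝ) ^ c) ^ e := by positivity
  rw [pow_one, div_lt_iff₀ h5, inv_mul_eq_div, lt_div_iff₀ hB] at h3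
  have h6 : (2 : ℝ) ^ (c * e) = ((2 : ℝ) ^ c) ^ e := by
    rw [← Real.rpow_natCast, ← Real.rpow_mul (by norm_num)]
  rw [h6]
  have h7 : B ≤ |B| := le_abs_self B
  have h8 : (0 : ℝ) ≤ |B| := abs_nonneg B
  nlinarith only [hB, h3, h4, h7]

theorem rp_lo (x c : ℝ) (e : ℕ) (hx : 0 < x) (hxe : x * 2 ^ e ≤ 1) (hc : 0 ≤ c) :
    (2 : ℝ) ^ (c * e) ≤ x ^ (-c) := by
  rw [Real.rpow_neg hx.le, ← Real.inv_rpow hx.le]
  have h1 : (2 : ℝ) ^ e ≤ x⁻¹ := by
    rw [le_inv_comm₀ (by positivity) hx]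
    rw [← one_div, le_div_iff₀ (by positivity)]
    exact hxe
  calc (2 : ℝ) ^ (c * e) = ((2 : ℝ) ^ e) ^ c := by
        rw [← Real.rpow_natCast, ← Real.rpow_mul (by norm_num), mul_comm]
    _ ≤ _ := Real.rpow_le_rpow (by positivity) h1 hc

theorem rp_hi (x c : ℝ) (e : ℕ) (hx : 0 < x) (hxe : 1 ≤ x * 2 ^ (e + 1)) (hc : 0 ≤ c) :
    x ^ (-c) ≤ (2 : ℝ) ^ (c * (e + 1)) := by
  rw [Real.rpow_neg hx.le, ← Real.inv_rpow hx.le]
  have h1 : x⁻¹ ≤ (2 : ℝ) ^ (e + 1) := by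
    rw [inv_le_comm₀ hx (by positivity)]
    rw [← one_div, div_le_iff₀ (by positivity)]
    exact hxe
  calc (x⁻¹) ^ c ≤ ((2 : ℝ) ^ (e + 1)) ^ c := Real.rpow_le_rpow (by positivity) h1 hc
    _ = _ := by
        rw [← Real.rpow_natCast, ← Real.rpow_mul (by norm_num), mul_comm]
        push_cast
        ring_nf

theorem rp_mono (x : ℝ) (hx : 0 < x) (hx1 : x ≤ 1) (p q : ℝ) (hpq : p ≤ q) : x ^ (-p) ≤ x ^ (-q) :=
  Real.rpow_le_rpow_of_exponent_ge hx hx1 (by linarith)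

theorem geo_sum (N k : ℕ) : ∑ i ∈ range N, (1 / 2 : ℝ) ^ (i + k + 1) ≤ (1 / 2) ^ k := by
  have h : ∑ i ∈ range N, (1 / 2 : ℝ) ^ (i + k + 1) = (1 / 2) ^ k * (1 - (1 / 2) ^ N) := by
    induction N with
    | zero => simp
    | succ N ih =>
      rw [sum_range_succ, ih]
      ring
  rw [h]
  have h1 : (0 : ℝ) ≤ (1 / 2) ^ N := by positivity
  have h2 : (0 : ℝ) ≤ (1 / 2) ^ k := by positivity
  nlinarith only [h1, h2]

/-! ### The clocks -/

/-- the clocks `s n` at the starts of the super-stages, and the natural numbers `e n` with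
`2 ^ -(e n + 1) ≤ s n ≤ 2 ^ -(e n)` -/
structure Sq (v a : ℕ) (s : ℕ → ℝ) (e : ℕ → ℕ) : Prop where
  a2 : 2 ≤ a
  v1 : 1 ≤ v
  pos : ∀ n, 0 < s n
  hi : ∀ n, s n * 2 ^ e n ≤ 1
  lo : ∀ n, 1 ≤ s n * 2 ^ (e n + 1)
  ev : v ≤ e 0
  e1 : ∀ n, a * e n ≤ e (n + 1)
  e2 : ∀ n, e (n + 1) ≤ (a + 1) * (e n + 1)
  anti : Antitone s

/-- the clocks with the factor `θ` for each stage -/
structure Kq (w θ : ℝ) (v a : ℕ) (kk e : ℕ → ℕ) : Prop where
  kk0 : kk 0 = 0
  kks : ∀ n, kk n < kk (n + 1)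
  up : ∀ n, w * θ ^ kk (n + 1) ≤ (w * θ ^ kk n) ^ a
  dn : ∀ n, (w * θ ^ kk n) ^ (a + 1) ≤ w * θ ^ kk (n + 1)
  sq : Sq v a (fun n => w * θ ^ kk n) e

theorem exists_kq (w θ : ℝ) (v a : ℕ) (ha : 2 ≤ a) (hv : 1 ≤ v) (hθ : 0 < θ) (hθ1 : θ < 1)
    (hw : 0 < w) (hwθ : w ≤ θ) (hw1 : w * 2 ^ v ≤ 1) : ∃ kk e : ℕ → ℕ, Kq w θ v a kk e := by
  classical
  have hw1' : w < 1 := lt_of_le_of_lt hwθ hθ1
  have hex : ∀ k : ℕ, ∃ m : ℕ, w * θ ^ m ≤ (w * θ ^ k) ^ a := by
    intro k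
    have h1 : 0 < (w * θ ^ k) ^ a / w := by positivity
    obtain ⟨m, hm⟩ := exists_pow_lt_of_lt_one h1 hθ1
    refine ⟨m, ?_⟩
    rw [lt_div_iff₀ hw] at hm
    linarith only [hm]
  let nx : ℕ → ℕ := fun k => Nat.find (hex k)
  have hnx1 : ∀ k, w * θ ^ nx k ≤ (w * θ ^ k) ^ a := fun k => Nat.find_spec (hex k)
  have hs0 : ∀ k, 0 < w * θ ^ k := fun k => by positivity
  have hs1 : ∀ k, w * θ ^ k ≤ w := fun k => by
    have := pow_le_one₀ (n := k) hθ.le hθ1.le
    nlinarith only [hθ, hθ1, hw, this]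
  have hlt : ∀ k, (w * θ ^ k) ^ a < w * θ ^ k := by
    intro k
    have h1 : w * θ ^ k < 1 := lt_of_le_of_lt (hs1 k) hw1'
    exact pow_lt_self_of_lt_one₀ (hs0 k) h1 (by omega)
  have hnx2 : ∀ k, k < nx k := by
    intro k
    by_contra hcon
    push Not at hcon
    have h1 := hnx1 k
    have h2 : θ ^ k ≤ θ ^ nx k := pow_le_pow_of_le_one hθ.le hθ1.le hcon
    have h3 : w * θ ^ k ≤ w * θ ^ nx k := mul_le_mul_of_nonneg_left h2 hw.le
    have := hlt k
    linarith only [h1, h3, this]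
  have hnx3 : ∀ k, (w * θ ^ k) ^ (a + 1) ≤ w * θ ^ nx k := by
    intro k
    obtain ⟨m, hm⟩ : ∃ m, nx k = m + 1 := ⟨nx k - 1, by have := hnx2 k; omega⟩
    have h1 : ¬ (w * θ ^ m ≤ (w * θ ^ k) ^ a) := by
      refine Nat.find_min (hex k) ?_
      show m < nx k
      omega
    push Not at h1
    rw [hm, pow_succ, pow_succ θ m]
    have h2 : w * θ ^ k ≤ θ := (hs1 k).trans hwθ
    have h3 : 0 ≤ (w * θ ^ k) ^ a := by positivity
    calc (w * θ ^ k) ^ a * (w * θ ^ k) ≤ (w * θ ^ k) ^ a * θ := mul_le_mul_of_nonneg_left h2 h3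
      _ ≤ (w * θ ^ m) * θ := mul_le_mul_of_nonneg_right h1.le hθ.le
      _ = w * (θ ^ m * θ) := by ring
  let kk : ℕ → ℕ := fun n => Nat.rec 0 (fun _ k => nx k) n
  have hkk0 : kk 0 = 0 := rfl
  have hkks : ∀ n, kk (n + 1) = nx (kk n) := fun n => rfl
  have hexe : ∀ n, ∃ e : ℕ, (1 / 2 : ℝ) ^ (e + 1) < w * θ ^ kk n ∧ w * θ ^ kk n ≤ (1 / 2) ^ e :=
    fun n => exists_nat_pow_near_of_lt_one (hs0 _) ((hs1 _).trans hw1'.le) (by norm_num) (by norm_num)
  choose e he1 he2 using hexe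
  have hhi : ∀ n, w * θ ^ kk n * 2 ^ e n ≤ 1 := by
    intro n
    have h1 := mul_le_mul_of_nonneg_right (he2 n) (show (0 : ℝ) ≤ 2 ^ e n by positivity)
    rw [← mul_pow] at h1
    norm_num at h1 ⊢
    exact h1
  have hlo' : ∀ n, 1 < w * θ ^ kk n * 2 ^ (e n + 1) := by
    intro n
    have h1 := mul_lt_mul_of_pos_right (he1 n) (show (0 : ℝ) < 2 ^ (e n + 1) by positivity)
    rw [← mul_pow] at h1
    norm_num at h1 ⊢
    exact h1
  refine ⟨kk, e, ⟨hkk0, fun n => ?_, fun n => ?_, fun n => ?_, ⟨ha, hv, fun n => hs0 _, hhi,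
    fun n => (hlo' n).le, ?_, fun n => ?_, fun n => ?_, ?_⟩⟩⟩
  · rw [hkks]
    exact hnx2 _
  · rw [hkks]
    exact hnx1 _
  · rw [hkks]
    exact hnx3 _
  · -- v ≤ e 0
    by_contra hcon
    push Not at hcon
    have h1 := hlo' 0
    rw [hkk0, pow_zero, mul_one] at h1
    have h2 : (2 : ℝ) ^ (e 0 + 1) ≤ 2 ^ v := pow_le_pow_right₀ (by norm_num) (by omega)
    have h3 := mul_le_mul_of_nonneg_left h2 hw.le
    linarith only [hw1, h1, h3]
  · -- a e n ≤ e (n+1)
    by_contra hcon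
    push Not at hcon
    have h1 := hlo' (n + 1)
    have h2 : w * θ ^ kk (n + 1) ≤ (w * θ ^ kk n) ^ a := by rw [hkks]; exact hnx1 _
    have h3 : (2 : ℝ) ^ (e (n + 1) + 1) ≤ 2 ^ (a * e n) := pow_le_pow_right₀ (by norm_num) (by omega)
    have h4 : (w * θ ^ kk n * 2 ^ e n) ^ a ≤ 1 := pow_le_one₀ (by have := hs0 (kk n); positivity) (hhi n)
    have h5 : (w * θ ^ kk n) ^ a * 2 ^ (a * e n) ≤ 1 := by
      rw [mul_pow, ← pow_mul, mul_comm (e n) a] at h4
      exact h4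
    have h6 : w * θ ^ kk (n + 1) * 2 ^ (e (n + 1) + 1) ≤ (w * θ ^ kk n) ^ a * 2 ^ (a * e n) :=
      mul_le_mul h2 h3 (by positivity) (by have := hs0 (kk n); positivity)
    linarith only [h1, h5, h6]
  · -- e (n+1) ≤ (a+1)(e n + 1)
    by_contra hcon
    push Not at hcon
    have h1 := hhi (n + 1)
    have h2 : (w * θ ^ kk n) ^ (a + 1) ≤ w * θ ^ kk (n + 1) := by rw [hkks]; exact hnx3 _
    have h3 : (2 : ℝ) ^ ((a + 1) * (e n + 1)) ≤ 2 ^ (e (n + 1)) :=
      pow_le_pow_right₀ (by norm_num) (by omega)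
    have h4 : 1 < (w * θ ^ kk n * 2 ^ (e n + 1)) ^ (a + 1) :=
      one_lt_pow₀ (hlo' n) (by omega)
    have h5 : 1 < (w * θ ^ kk n) ^ (a + 1) * 2 ^ ((a + 1) * (e n + 1)) := by
      rw [mul_pow, ← pow_mul, mul_comm (e n + 1) (a + 1)] at h4
      exact h4
    have h6 : (w * θ ^ kk n) ^ (a + 1) * 2 ^ ((a + 1) * (e n + 1)) ≤
        w * θ ^ kk (n + 1) * 2 ^ (e (n + 1)) :=
      mul_le_mul h2 h3 (by positivity) (hs0 _).le
    linarith only [h1, h5, h6]
  · -- antitone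
    refine antitone_nat_of_succ_le fun n => ?_
    show w * θ ^ kk (n + 1) ≤ w * θ ^ kk n
    refine mul_le_mul_of_nonneg_left ?_ hw.le
    refine pow_le_pow_of_le_one hθ.le hθ1.le ?_
    rw [hkks]
    exact (hnx2 _).le

/-- the number of the stages of a super-stage -/
theorem kq_count (w θ : ℝ) (v a h : ℕ) (kk e : ℕ → ℕ) (hθ : 0 < θ) (hθ1 : θ < 1)
    (hh : θ ^ h ≤ 1 / 2) (hw : 0 < w) (hw1 : w ≤ 1) (H : Kq w θ v a kk e) (n : ℕ) :
    kk (n + 1) ≤ kk n + h * (e (n + 1) + 2) := by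
  by_contra hcon
  push Not at hcon
  have h1 : 1 ≤ w * θ ^ kk (n + 1) * 2 ^ (e (n + 1) + 1) := H.sq.lo (n + 1)
  have h2 : θ ^ kk (n + 1) ≤ θ ^ (h * (e (n + 1) + 2)) :=
    pow_le_pow_of_le_one hθ.le hθ1.le (by omega)
  have h3 : θ ^ (h * (e (n + 1) + 2)) ≤ (1 / 2) ^ (e (n + 1) + 2) := by
    rw [pow_mul]
    exact pow_le_pow_left₀ (by positivity) hh _
  have h4 : w * θ ^ kk (n + 1) ≤ (1 / 2) ^ (e (n + 1) + 2) := by
    have h5 : 0 ≤ θ ^ kk (n + 1) := by positivity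
    nlinarith only [hθ, hθ1, hw1, h2, h3, h5]
  have h6 : w * θ ^ kk (n + 1) * 2 ^ (e (n + 1) + 1) ≤ (1 / 2) ^ (e (n + 1) + 2) * 2 ^ (e (n + 1) + 1) :=
    mul_le_mul_of_nonneg_right h4 (by positivity)
  have h7 : (1 / 2 : ℝ) ^ (e (n + 1) + 2) * 2 ^ (e (n + 1) + 1) = 1 / 2 := by
    rw [pow_succ, mul_right_comm, ← mul_pow]
    norm_num
  linarith only [hθ, hθ1, h1, h6, h7]

namespace Sq

variable {v a : ℕ} {s : ℕ → ℝ} {e : ℕ → ℕ}

theorem lin (H : Sq v a s e) (n : ℕ) : v + n ≤ e n := by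
  induction n with
  | zero => exact H.ev
  | succ n ih =>
    have h1 := H.e1 n
    have h2 : 2 * e n ≤ a * e n := Nat.mul_le_mul_right _ H.a2
    have := H.v1
    omega

theorem ge (H : Sq v a s e) (n : ℕ) : v ≤ e n := by
  have := H.lin n
  omega

theorem le_one (H : Sq v a s e) (n : ℕ) : s n ≤ 1 := by
  have h1 := H.hi n
  have h2 : (1 : ℝ) ≤ 2 ^ e n := one_le_pow₀ (by norm_num)
  have h3 := (H.pos n).le
  nlinarith only [h1, h2, h3]

end Sq

/-! ### The exponents of the sides and of the radii -/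

/-- exponent of the side of the torus -/
def mt (C0 a : ℕ) (e : ℕ → ℕ) (N : ℕ) : ℕ := a * (C0 * (e (N + 1) + 1))

/-- exponents of the sides of the blocks -/
def lt (C0 a m0 : ℕ) (e : ℕ → ℕ) (N n : ℕ) : ℕ :=
  if n ≤ N then C0 * (e (n + 1) + 1) else mt C0 a e N + (n - N - 1) * (m0 + 3) + m0

/-- exponents of the radii -/
def rt (C0 a m0 : ℕ) (e : ℕ → ℕ) (N n : ℕ) : ℕ :=
  if n ≤ N then 3 * (e (n + 1) + 1) else mt C0 a e N + (n - N - 1) * (m0 + 3)

theorem lt_of_le {C0 a m0 : ℕ} {e : ℕ → ℕ} {N n : ℕ} (h : n ≤ N) :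
    lt C0 a m0 e N n = C0 * (e (n + 1) + 1) := by simp [lt, h]

theorem rt_of_le {C0 a m0 : ℕ} {e : ℕ → ℕ} {N n : ℕ} (h : n ≤ N) :
    rt C0 a m0 e N n = 3 * (e (n + 1) + 1) := by simp [rt, h]

theorem lt_of_gt {C0 a m0 : ℕ} {e : ℕ → ℕ} {N n : ℕ} (h : N < n) :
    lt C0 a m0 e N n = mt C0 a e N + (n - N - 1) * (m0 + 3) + m0 := by
  simp [lt, Nat.not_le.2 h]

theorem rt_of_gt {C0 a m0 : ℕ} {e : ℕ → ℕ} {N n : ℕ} (h : N < n) :
    rt C0 a m0 e N n = mt C0 a e N + (n - N - 1) * (m0 + 3) := by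
  simp [rt, Nat.not_le.2 h]

section exps

variable {v a C0 m0 : ℕ} {s : ℕ → ℝ} {e : ℕ → ℕ} (H : Sq v a s e) (N : ℕ)
  (hC : 5 ≤ C0) (h3a : C0 + 1 ≤ 3 * a) (hv : C0 ≤ v) (hvm : m0 ≤ v)

include H hC h3a hv in
theorem lr (n : ℕ) : 3 + lt C0 a m0 e N n ≤ rt C0 a m0 e N (n + 1) := by
  rcases lt_trichotomy n N with h | h | h
  · rw [lt_of_le h.le, rt_of_le (show n + 1 ≤ N from h)]
    have h1 := H.e1 (n + 1)
    have h2 := H.ge (n + 1)
    have h3 : (C0 + 1) * e (n + 1) ≤ 3 * a * e (n + 1) := Nat.mul_le_mul_right _ h3a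
    have h4 : C0 * (e (n + 1) + 1) = C0 * e (n + 1) + C0 := by ring
    have h5 : (C0 + 1) * e (n + 1) = C0 * e (n + 1) + e (n + 1) := by ring
    have h6 : 3 * a * e (n + 1) = 3 * (a * e (n + 1)) := by ring
    omega
  · subst h
    rw [lt_of_le le_rfl, rt_of_gt (Nat.lt_succ_self n)]
    have h1 : (n + 1 - n - 1) * (m0 + 3) = 0 := by simp
    rw [h1, add_zero]
    unfold mt
    have h2 : 2 * (C0 * (e (n + 1) + 1)) ≤ a * (C0 * (e (n + 1) + 1)) := Nat.mul_le_mul_right _ H.a2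
    have h3 := H.ge (n + 1)
    have h5 : 5 * (e (n + 1) + 1) ≤ C0 * (e (n + 1) + 1) := Nat.mul_le_mul_right _ hC
    omega
  · rw [lt_of_gt h, rt_of_gt (by omega : N < n + 1)]
    have h1 : n + 1 - N - 1 = (n - N - 1) + 1 := by omega
    rw [h1, Nat.add_mul]
    omega

include H hC hvm in
theorem rl (n : ℕ) : m0 + rt C0 a m0 e N (n + 1) ≤ lt C0 a m0 e N (n + 1) := by
  rcases Nat.lt_or_ge N (n + 1) with h | h
  · rw [lt_of_gt h, rt_of_gt h]
    omega
  · rw [lt_of_le h, rt_of_le h]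
    have h1 := H.ge (n + 1 + 1)
    have h5 : 5 * (e (n + 1 + 1) + 1) ≤ C0 * (e (n + 1 + 1) + 1) := Nat.mul_le_mul_right _ hC
    omega

include H hC h3a hv hvm in
theorem lmono : Monotone (lt C0 a m0 e N) := by
  refine monotone_nat_of_le_succ fun n => ?_
  have h1 := lr H N hC h3a hv (m0 := m0) n
  have h2 := rl H N hC hvm n
  omega

include H hC in
theorem l_ge (n : ℕ) : 5 * v ≤ lt C0 a m0 e N n := by
  rcases Nat.lt_or_ge N n with h | h
  · rw [lt_of_gt h]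
    unfold mt
    have h1 := H.ge (N + 1)
    have h5 : 5 * (e (N + 1) + 1) ≤ C0 * (e (N + 1) + 1) := Nat.mul_le_mul_right _ hC
    have h6 : 1 * (C0 * (e (N + 1) + 1)) ≤ a * (C0 * (e (N + 1) + 1)) :=
      Nat.mul_le_mul_right _ (by have := H.a2; omega)
    omega
  · rw [lt_of_le h]
    have h1 := H.ge (n + 1)
    have h5 : 5 * (e (n + 1) + 1) ≤ C0 * (e (n + 1) + 1) := Nat.mul_le_mul_right _ hC
    omega

include H hC hvm in
theorem l_succ (n : ℕ) : lt C0 a m0 e N (n + 1) ≤ (a + 2) * lt C0 a m0 e N n := by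
  rcases lt_trichotomy n N with h | h | h
  · rw [lt_of_le h.le, lt_of_le (show n + 1 ≤ N from h)]
    have h1 := H.e2 (n + 1)
    have h2 : C0 * (e (n + 1 + 1) + 1) ≤ C0 * ((a + 1) * (e (n + 1) + 1) + 1) :=
      Nat.mul_le_mul_left _ (by omega)
    have h3 : C0 * ((a + 1) * (e (n + 1) + 1) + 1) ≤ C0 * ((a + 2) * (e (n + 1) + 1)) := by
      refine Nat.mul_le_mul_left _ ?_
      have : (a + 2) * (e (n + 1) + 1) = (a + 1) * (e (n + 1) + 1) + (e (n + 1) + 1) := by ring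
      omega
    have h4 : C0 * ((a + 2) * (e (n + 1) + 1)) = (a + 2) * (C0 * (e (n + 1) + 1)) := by ring
    omega
  · subst h
    rw [lt_of_le le_rfl, lt_of_gt (Nat.lt_succ_self n)]
    have h1 : (n + 1 - n - 1) * (m0 + 3) = 0 := by simp
    rw [h1, add_zero]
    unfold mt
    have h2 := H.ge (n + 1)
    have h5 : 5 * (e (n + 1) + 1) ≤ C0 * (e (n + 1) + 1) := Nat.mul_le_mul_right _ hC
    have h6 : (a + 2) * (C0 * (e (n + 1) + 1)) =
        a * (C0 * (e (n + 1) + 1)) + 2 * (C0 * (e (n + 1) + 1)) := by ring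
    omega
  · rw [lt_of_gt h, lt_of_gt (by omega : N < n + 1)]
    have h1 : n + 1 - N - 1 = (n - N - 1) + 1 := by omega
    rw [h1, Nat.add_mul]
    have h2 : 5 * v ≤ lt C0 a m0 e N n := l_ge H N hC n
    rw [lt_of_gt h] at h2
    have h3 := H.v1
    have h4 : 2 * (mt C0 a e N + (n - N - 1) * (m0 + 3) + m0) ≤
        (a + 2) * (mt C0 a e N + (n - N - 1) * (m0 + 3) + m0) :=
      Nat.mul_le_mul_right _ (by omega)
    omega

end exps

/-- the scales satisfy `Scl` -/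
theorem scl_scl {v a C0 m0 : ℕ} {s : ℕ → ℝ} {e : ℕ → ℕ} (H : Sq v a s e) (d J N μ : ℕ)
    (hC : 5 ≤ C0) (h3a : C0 + 1 ≤ 3 * a) (hv : C0 ≤ v) (hvm : m0 ≤ v) (hJ : 1 ≤ J)
    (hm0 : 104 * (3 ^ d * J) ≤ 2 ^ m0) :
    Scl (geoT d μ (lt C0 a m0 e N) (fun n => 2 ^ rt C0 a m0 e N n) J N) d where
  J1 := hJ
  one n := Nat.one_le_two_pow
  rho n := by
    show 8 * 2 ^ lt C0 a m0 e N n ≤ 2 ^ rt C0 a m0 e N (n + 1)
    have h8 : (8 : ℕ) = 2 ^ 3 := by norm_num
    rw [h8, ← pow_add]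
    exact Nat.pow_le_pow_right (by norm_num) (lr H N hC h3a hv n)
  big n := by
    show 8 * (3 ^ d * J * (5 * 2 ^ lt C0 a m0 e N n + 12 * 2 ^ rt C0 a m0 e N (n + 1))) ≤
      2 ^ lt C0 a m0 e N (n + 1)
    have h1 : 2 ^ 3 * 2 ^ lt C0 a m0 e N n ≤ 2 ^ rt C0 a m0 e N (n + 1) := by
      rw [← pow_add]
      exact Nat.pow_le_pow_right (by norm_num) (lr H N hC h3a hv n)
    have h3 : 5 * 2 ^ lt C0 a m0 e N n + 12 * 2 ^ rt C0 a m0 e N (n + 1) ≤
        13 * 2 ^ rt C0 a m0 e N (n + 1) := by omega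
    calc 8 * (3 ^ d * J * (5 * 2 ^ lt C0 a m0 e N n + 12 * 2 ^ rt C0 a m0 e N (n + 1)))
        ≤ 8 * (3 ^ d * J * (13 * 2 ^ rt C0 a m0 e N (n + 1))) :=
          Nat.mul_le_mul_left _ (Nat.mul_le_mul_left _ h3)
      _ = 104 * (3 ^ d * J) * 2 ^ rt C0 a m0 e N (n + 1) := by ring
      _ ≤ 2 ^ m0 * 2 ^ rt C0 a m0 e N (n + 1) := Nat.mul_le_mul_right _ hm0
      _ = 2 ^ (m0 + rt C0 a m0 e N (n + 1)) := by rw [← pow_add]
      _ ≤ _ := Nat.pow_le_pow_right (by norm_num) (rl H N hC hvm n)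

end Pool.Agent.ANP.H61
end
end -- Pool.Agent.Helper61_ANP.Scl

section -- Pool.Agent.Helper61_ANP.Scn

/-!
# The scales: numbers of sites
-/

set_option autoImplicit false

open Finset Filter

noncomputable section

namespace Pool.Agent.ANP.H61

/-- the number of the kills for one cluster -/
def KN (k1 : ℝ) (s : ℕ → ℝ) (N n : ℕ) : ℕ := if n ≤ N then ⌊s (n + 1) ^ (-k1)⌋₊ else 0

/-- the number of the sites of a block of level `n` which die in super-stage `n` -/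
def DN (d J C0 a m0 : ℕ) (k1 : ℝ) (s : ℕ → ℝ) (e : ℕ → ℕ) (N n : ℕ) : ℕ :=
  if n = 0 then 0 else
    3 ^ d * J * (KN k1 s N n + 3 ^ d * J * (6 * 2 ^ lt C0 a m0 e N (n - 1) + 1) ^ d)

section nums

variable {v a C0 m0 : ℕ} {s : ℕ → ℝ} {e : ℕ → ℕ} (H : Sq v a s e) (d J N : ℕ)

theorem six_le (l d : ℕ) : (6 * 2 ^ l + 1) ^ d ≤ 2 ^ (3 * d + d * l) := by
  have h2 : 6 * 2 ^ l + 1 ≤ 2 ^ (3 + l) := by
    rw [pow_add]
    have : 1 ≤ 2 ^ l := Nat.one_le_two_pow
    omega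
  calc (6 * 2 ^ l + 1) ^ d ≤ (2 ^ (3 + l)) ^ d := Nat.pow_le_pow_left h2 d
    _ = _ := by
      rw [← pow_mul]
      congr 1
      ring

include H in
/-- the size of a cluster -/
theorem clu (c1 : ℝ) (hc : 0 ≤ c1) (hca : ((d * C0 + 1 : ℕ) : ℝ) ≤ c1 * a)
    (hv : (3 ^ d * J) ^ 2 * 2 ^ (3 * d + d * C0) ≤ v) (m : ℕ) (hm : m + 1 ≤ N) :
    (((3 ^ d * J) ^ 2 * (6 * 2 ^ lt C0 a m0 e N m + 1) ^ d : ℕ) : ℝ) ≤ s (m + 2) ^ (-c1) := by
  have h1 : (3 ^ d * J) ^ 2 * (6 * 2 ^ lt C0 a m0 e N m + 1) ^ d ≤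
      2 ^ ((d * C0 + 1) * e (m + 1)) := by
    rw [lt_of_le (show m ≤ N by omega)]
    calc (3 ^ d * J) ^ 2 * (6 * 2 ^ (C0 * (e (m + 1) + 1)) + 1) ^ d
        ≤ (3 ^ d * J) ^ 2 * 2 ^ (3 * d + d * (C0 * (e (m + 1) + 1))) :=
          Nat.mul_le_mul_left _ (six_le _ _)
      _ = (3 ^ d * J) ^ 2 * 2 ^ (3 * d + d * C0) * 2 ^ (d * C0 * e (m + 1)) := by
          rw [mul_assoc, ← pow_add]
          congr 2
          ring
      _ ≤ v * 2 ^ (d * C0 * e (m + 1)) := Nat.mul_le_mul_right _ hv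
      _ ≤ 2 ^ e (m + 1) * 2 ^ (d * C0 * e (m + 1)) :=
          Nat.mul_le_mul_right _ ((H.ge (m + 1)).trans (Nat.lt_two_pow_self).le)
      _ = _ := by
          rw [← pow_add]
          congr 1
          ring
  have h3 := rp_lo (s (m + 2)) c1 (e (m + 2)) (H.pos _) (H.hi _) hc
  refine le_trans ?_ h3
  calc (((3 ^ d * J) ^ 2 * (6 * 2 ^ lt C0 a m0 e N m + 1) ^ d : ℕ) : ℝ)
      ≤ ((2 ^ ((d * C0 + 1) * e (m + 1)) : ℕ) : ℝ) := by exact_mod_cast h1
    _ = (2 : ℝ) ^ (((d * C0 + 1 : ℕ) : ℝ) * (e (m + 1) : ℝ)) := by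
        push_cast
        rw [← Real.rpow_natCast]
        push_cast
        rfl
    _ ≤ (2 : ℝ) ^ (c1 * (e (m + 2) : ℝ)) := by
        refine Real.rpow_le_rpow_of_exponent_le (by norm_num) ?_
        have h5 : ((a : ℝ) * e (m + 1)) ≤ e (m + 2) := by exact_mod_cast H.e1 (m + 1)
        push_cast at hca ⊢
        have h4 : (0 : ℝ) ≤ e (m + 1) := by positivity
        nlinarith only [hc, h5, hca]

include H in
/-- the kills and the clusters -/
theorem dn_le (c1 k1 k2 : ℝ) (hc : 0 ≤ c1) (hck : c1 ≤ k1) (hk : k1 < k2)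
    (hca : ((d * C0 + 1 : ℕ) : ℝ) ≤ c1 * a)
    (hv : (3 ^ d * J) ^ 2 * 2 ^ (3 * d + d * C0) ≤ v) (E : ℕ)
    (hE : ∀ e : ℕ, E ≤ e → (((3 ^ d * J : ℕ) : ℝ) + 1) * ((e : ℝ) + 1) ≤ (2 : ℝ) ^ ((k2 - k1) * e))
    (hvE : E ≤ v) (n : ℕ) (hn : n ≤ N) :
    ((DN d J C0 a m0 k1 s e N n : ℕ) : ℝ) ≤ s (n + 1) ^ (-k2) := by
  have hs := H.pos (n + 1)
  have hs1 := H.le_one (n + 1)
  unfold DN
  rcases Nat.eq_zero_or_pos n with h0 | h0
  · rw [if_pos h0]
    push_cast
    exact Real.rpow_nonneg hs.le _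
  · obtain ⟨m, rfl⟩ : ∃ m, n = m + 1 := ⟨n - 1, by omega⟩
    have h1 := clu H (m0 := m0) d J N c1 hc hca hv m hn
    rw [if_neg (Nat.succ_ne_zero m)]
    have h2 : ((KN k1 s N (m + 1) : ℕ) : ℝ) ≤ s (m + 2) ^ (-k1) := by
      unfold KN
      rw [if_pos hn]
      exact Nat.floor_le (Real.rpow_nonneg hs.le _)
    have h3 : s (m + 2) ^ (-c1) ≤ s (m + 2) ^ (-k1) := rp_mono _ hs hs1 _ _ hck
    have h4 := rp_lo (s (m + 2)) (k2 - k1) (e (m + 2)) hs (H.hi _) (by linarith only [hk])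
    have h5 := hE (e (m + 2)) (hvE.trans (H.ge _))
    have h6 : s (m + 2) ^ (-k2) = s (m + 2) ^ (-(k2 - k1)) * s (m + 2) ^ (-k1) := by
      rw [← Real.rpow_add hs]
      congr 1
      ring
    have h7 : (0 : ℝ) ≤ s (m + 2) ^ (-k1) := Real.rpow_nonneg hs.le _
    have h8 : ((3 ^ d * J : ℕ) : ℝ) + 1 ≤ s (m + 2) ^ (-(k2 - k1)) := by
      refine le_trans ?_ h4
      refine le_trans ?_ h5
      have h9 : (0 : ℝ) ≤ (((3 ^ d * J : ℕ) : ℝ) + 1) := by positivity
      have h10 : (0 : ℝ) ≤ (e (m + 2) : ℝ) := by positivity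
      nlinarith only
    have h11 : (0 : ℝ) ≤ ((3 ^ d * J : ℕ) : ℝ) := by positivity
    rw [Nat.add_sub_cancel]
    calc ((3 ^ d * J * (KN k1 s N (m + 1) +
            3 ^ d * J * (6 * 2 ^ lt C0 a m0 e N m + 1) ^ d) : ℕ) : ℝ)
        = ((3 ^ d * J : ℕ) : ℝ) * (KN k1 s N (m + 1) : ℕ) +
          (((3 ^ d * J) ^ 2 * (6 * 2 ^ lt C0 a m0 e N m + 1) ^ d : ℕ) : ℝ) := by
          push_cast
          ring
      _ ≤ ((3 ^ d * J : ℕ) : ℝ) * s (m + 2) ^ (-k1) + s (m + 2) ^ (-k1) :=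
          add_le_add (mul_le_mul_of_nonneg_left h2 h11) (h1.trans h3)
      _ = (((3 ^ d * J : ℕ) : ℝ) + 1) * s (m + 2) ^ (-k1) := by ring
      _ ≤ _ := by
          show _ ≤ s (m + 1 + 1) ^ (-k2)
          rw [h6]
          exact mul_le_mul_of_nonneg_right h8 h7

theorem dn_last (k1 : ℝ) (hv : (3 ^ d * J) ^ 2 * 2 ^ (3 * d + d * C0) ≤ v) :
    DN d J C0 a m0 k1 s e N (N + 1) ≤ 2 ^ (v + d * (C0 * (e (N + 1) + 1))) := by
  unfold DN KN
  rw [if_neg (Nat.succ_ne_zero N), if_neg (by omega), Nat.add_sub_cancel, zero_add,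
    lt_of_le (le_refl N)]
  have h1 := six_le (C0 * (e (N + 1) + 1)) d
  have h2 : (3 ^ d * J) ^ 2 * 2 ^ (3 * d) ≤ 2 ^ v := by
    refine le_trans (Nat.mul_le_mul_left _ (Nat.pow_le_pow_right (by norm_num) ?_))
      (hv.trans (Nat.lt_two_pow_self).le)
    omega
  calc 3 ^ d * J * (3 ^ d * J * (6 * 2 ^ (C0 * (e (N + 1) + 1)) + 1) ^ d)
      = (3 ^ d * J) ^ 2 * (6 * 2 ^ (C0 * (e (N + 1) + 1)) + 1) ^ d := by ring
    _ ≤ (3 ^ d * J) ^ 2 * 2 ^ (3 * d + d * (C0 * (e (N + 1) + 1))) := Nat.mul_le_mul_left _ h1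
    _ = (3 ^ d * J) ^ 2 * 2 ^ (3 * d) * 2 ^ (d * (C0 * (e (N + 1) + 1))) := by
        rw [pow_add]; ring
    _ ≤ 2 ^ v * 2 ^ (d * (C0 * (e (N + 1) + 1))) := Nat.mul_le_mul_right _ h2
    _ = _ := by rw [pow_add]

include H in
/-- the density of the dead sites on paths -/
theorem dsum (k1 k2 : ℝ) (hk0 : 0 ≤ k2) (hC : 5 ≤ C0) (hk : k2 + 1 ≤ C0) (hd : d + 1 ≤ a)
    (hvd : 2 * d + 2 ≤ v) (hv : (3 ^ d * J) ^ 2 * 2 ^ (3 * d + d * C0) ≤ v)
    (hD : ∀ n ≤ N, ((DN d J C0 a m0 k1 s e N n : ℕ) : ℝ) ≤ s (n + 1) ^ (-k2)) :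
    ∑ i ∈ range (N + 2), (3 ^ d * (DN d J C0 a m0 k1 s e N i : ℝ)) /
      ((2 ^ lt C0 a m0 e N i : ℕ) : ℝ) ≤ 1 / 4 := by
  have h33 : (3 : ℝ) ^ d ≤ 2 ^ (2 * d) := by
    rw [pow_mul]
    exact pow_le_pow_left₀ (by norm_num) (by norm_num) d
  have key : ∀ i ∈ range (N + 2), (3 ^ d * (DN d J C0 a m0 k1 s e N i : ℝ)) /
      ((2 ^ lt C0 a m0 e N i : ℕ) : ℝ) ≤ (1 / 2 : ℝ) ^ (i + 2 + 1) := by
    intro i hi
    rw [mem_range] at hi
    have hi2 : i ≤ N ∨ i = N + 1 := by omega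
    rw [div_le_iff₀ (by positivity)]
    rcases hi2 with h | h
    · have h1 := hD i h
      have h2 := rp_hi (s (i + 1)) k2 (e (i + 1)) (H.pos _) (H.lo _) hk0
      have h3 : (((2 ^ lt C0 a m0 e N i : ℕ) : ℝ)) =
          (2 : ℝ) ^ ((C0 : ℝ) * ((e (i + 1) : ℝ) + 1)) := by
        rw [lt_of_le h]
        push_cast
        rw [← Real.rpow_natCast]
        push_cast
        rfl
      have h5 := H.lin (i + 1)
      have h6 : (1 / 2 : ℝ) ^ (i + 2 + 1) = (2 : ℝ) ^ (-((i : ℝ) + 3)) := by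
        rw [one_div, inv_pow, Real.rpow_neg (by norm_num)]
        congr 1
        rw [← Real.rpow_natCast]
        push_cast
        ring_nf
      rw [h3, h6, ← Real.rpow_add (by norm_num)]
      calc (3 : ℝ) ^ d * (DN d J C0 a m0 k1 s e N i : ℝ)
          ≤ 2 ^ (2 * d) * (2 : ℝ) ^ (k2 * ((e (i + 1) : ℝ) + 1)) :=
            mul_le_mul h33 (h1.trans h2) (by positivity) (by positivity)
        _ = (2 : ℝ) ^ ((2 * d : ℕ) + k2 * ((e (i + 1) : ℝ) + 1)) := by
            rw [Real.rpow_add (by norm_num), Real.rpow_natCast]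
        _ ≤ _ := by
            refine Real.rpow_le_rpow_of_exponent_le (by norm_num) ?_
            have h7 : ((v : ℝ) + (i + 1)) ≤ e (i + 1) := by exact_mod_cast h5
            have h8 : (2 * (d : ℝ) + 2) ≤ v := by exact_mod_cast hvd
            have h9 : (0 : ℝ) ≤ (e (i + 1) : ℝ) := by positivity
            push_cast
            nlinarith only [hk, h7, h8]
    · subst h
      have h1 := dn_last (v := v) (a := a) (m0 := m0) (s := s) (e := e) d J N k1 hv
      have h2 : ((DN d J C0 a m0 k1 s e N (N + 1) : ℕ) : ℝ) ≤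
          2 ^ (v + d * (C0 * (e (N + 1) + 1))) := by exact_mod_cast h1
      have h3 : ((2 ^ lt C0 a m0 e N (N + 1) : ℕ) : ℝ) = 2 ^ lt C0 a m0 e N (N + 1) := by
        push_cast
        rfl
      rw [h3]
      calc (3 : ℝ) ^ d * (DN d J C0 a m0 k1 s e N (N + 1) : ℝ)
          ≤ 2 ^ (2 * d) * 2 ^ (v + d * (C0 * (e (N + 1) + 1))) :=
            mul_le_mul h33 h2 (by positivity) (by positivity)
        _ = (1 / 2 : ℝ) ^ (N + 1 + 2 + 1) *
            (2 ^ (N + 1 + 2 + 1) * 2 ^ (2 * d) * 2 ^ (v + d * (C0 * (e (N + 1) + 1)))) := by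
            rw [one_div, inv_pow]
            field_simp
        _ ≤ (1 / 2 : ℝ) ^ (N + 1 + 2 + 1) * 2 ^ lt C0 a m0 e N (N + 1) := by
            refine mul_le_mul_of_nonneg_left ?_ (by positivity)
            rw [← pow_add, ← pow_add]
            refine pow_le_pow_right₀ (by norm_num) ?_
            rw [lt_of_gt (Nat.lt_succ_self N)]
            unfold mt
            have h4 := H.lin (N + 1)
            have h5 : 5 * (e (N + 1) + 1) ≤ C0 * (e (N + 1) + 1) := Nat.mul_le_mul_right _ hC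
            have h6 : (d + 1) * (C0 * (e (N + 1) + 1)) ≤ a * (C0 * (e (N + 1) + 1)) :=
              Nat.mul_le_mul_right _ hd
            have h7 : (d + 1) * (C0 * (e (N + 1) + 1)) =
              d * (C0 * (e (N + 1) + 1)) + C0 * (e (N + 1) + 1) := by ring
            omega
  refine (Finset.sum_le_sum key).trans ?_
  refine (geo_sum (N + 2) 2).trans ?_
  norm_num

include H in
/-- the constant in the alive distance -/
theorem dcon (k1 k2 k3 : ℝ) (hk0 : 0 ≤ k2) (hk : k2 < k3) (E : ℕ)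
    (hE : ∀ e : ℕ, E ≤ e → (2 * 3 ^ d : ℝ) * ((e : ℝ) + 1) ≤ (2 : ℝ) ^ ((k3 - k2) * e))
    (hvE : E ≤ v)
    (hD : ∀ n ≤ N, ((DN d J C0 a m0 k1 s e N n : ℕ) : ℝ) ≤ s (n + 1) ^ (-k2)) (n : ℕ) (hn : n ≤ N) :
    1 + 2 * ∑ i ∈ range (n + 1), (3 ^ d * (DN d J C0 a m0 k1 s e N i : ℝ)) ≤ s (n + 1) ^ (-k3) := by
  have hs := H.pos (n + 1)
  have hs1 := H.le_one (n + 1)
  have h1 : ∑ i ∈ range (n + 1), (3 ^ d * (DN d J C0 a m0 k1 s e N i : ℝ)) ≤
      (n + 1) * (3 ^ d * s (n + 1) ^ (-k2)) := by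
    have h2 : ∀ i ∈ range (n + 1), (3 ^ d * (DN d J C0 a m0 k1 s e N i : ℝ)) ≤
        3 ^ d * s (n + 1) ^ (-k2) := by
      intro i hi
      rw [mem_range] at hi
      refine mul_le_mul_of_nonneg_left ?_ (by positivity)
      refine (hD i (by omega)).trans ?_
      rw [Real.rpow_neg (H.pos _).le, Real.rpow_neg hs.le]
      refine inv_anti₀ (Real.rpow_pos_of_pos hs _) ?_
      exact Real.rpow_le_rpow hs.le (H.anti (by omega)) hk0
    refine (Finset.sum_le_card_nsmul _ _ _ h2).trans ?_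
    rw [card_range, nsmul_eq_mul]
    push_cast
    exact le_rfl
  have h3 := hE (e (n + 1)) (hvE.trans (H.ge _))
  have h4 := rp_lo (s (n + 1)) (k3 - k2) (e (n + 1)) hs (H.hi _) (by linarith only [hk])
  have h5 := H.lin (n + 1)
  have hv1 := H.v1
  have h6 : s (n + 1) ^ (-k3) = s (n + 1) ^ (-(k3 - k2)) * s (n + 1) ^ (-k2) := by
    rw [← Real.rpow_add hs]
    congr 1
    ring
  have h7 : (1 : ℝ) ≤ s (n + 1) ^ (-k2) := by
    have := rp_mono _ hs hs1 0 k2 hk0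
    simpa using this
  have h8 : (1 : ℝ) ≤ 3 ^ d := one_le_pow₀ (by norm_num)
  have h9 : ((n : ℝ) + 2) ≤ e (n + 1) := by
    have : n + 2 ≤ e (n + 1) := by omega
    exact_mod_cast this
  have h10 : 1 + 2 * 3 ^ d * ((n : ℝ) + 1) ≤ s (n + 1) ^ (-(k3 - k2)) := by
    refine le_trans ?_ h4
    refine le_trans ?_ h3
    nlinarith only [h8, h9]
  rw [h6]
  have h11 : (0 : ℝ) ≤ n := by positivity
  calc 1 + 2 * ∑ i ∈ range (n + 1), (3 ^ d * (DN d J C0 a m0 k1 s e N i : ℝ))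
      ≤ s (n + 1) ^ (-k2) + 2 * ((n + 1) * (3 ^ d * s (n + 1) ^ (-k2))) := by linarith only [h1, h7]
    _ = (1 + 2 * 3 ^ d * ((n : ℝ) + 1)) * s (n + 1) ^ (-k2) := by ring
    _ ≤ _ := mul_le_mul_of_nonneg_right h10 (by linarith only [h7])

include H in
/-- the constant in the alive distance at the end -/
theorem dcon_last (k1 k3 : ℝ) (hC : 5 ≤ C0) (hd : d + 2 ≤ a) (hk0 : 0 ≤ k3) (hk : k3 ≤ 5)
    (hvd : 2 * d + 2 ≤ v) (hv : (3 ^ d * J) ^ 2 * 2 ^ (3 * d + d * C0) ≤ v)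
    (h : 1 + 2 * ∑ i ∈ range (N + 1), (3 ^ d * (DN d J C0 a m0 k1 s e N i : ℝ)) ≤
      s (N + 1) ^ (-k3)) :
    64 * (1 + 2 * ∑ i ∈ range (N + 2), (3 ^ d * (DN d J C0 a m0 k1 s e N i : ℝ))) ≤
      2 ^ mt C0 a e N := by
  have h33 : (3 : ℝ) ^ d ≤ 2 ^ (2 * d) := by
    rw [pow_mul]
    exact pow_le_pow_left₀ (by norm_num) (by norm_num) d
  rw [sum_range_succ]
  have h1 := dn_last (v := v) (a := a) (m0 := m0) (s := s) (e := e) d J N k1 hv
  have h2 : ((DN d J C0 a m0 k1 s e N (N + 1) : ℕ) : ℝ) ≤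
      2 ^ (v + d * (C0 * (e (N + 1) + 1))) := by exact_mod_cast h1
  have h3 := rp_hi (s (N + 1)) k3 (e (N + 1)) (H.pos _) (H.lo _) hk0
  have h4 : (2 : ℝ) ^ (k3 * ((e (N + 1) : ℝ) + 1)) ≤ 2 ^ (5 * (e (N + 1) + 1)) := by
    rw [← Real.rpow_natCast]
    refine Real.rpow_le_rpow_of_exponent_le (by norm_num) ?_
    push_cast
    exact mul_le_mul_of_nonneg_right hk (by positivity)
  have h5 : (2 : ℝ) ^ (5 * (e (N + 1) + 1)) * 128 ≤ 2 ^ mt C0 a e N := by
    have : (128 : ℝ) = 2 ^ 7 := by norm_num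
    rw [this, ← pow_add]
    refine pow_le_pow_right₀ (by norm_num) ?_
    unfold mt
    have h5 : 5 * (e (N + 1) + 1) ≤ C0 * (e (N + 1) + 1) := Nat.mul_le_mul_right _ hC
    have h6 : (d + 2) * (C0 * (e (N + 1) + 1)) ≤ a * (C0 * (e (N + 1) + 1)) :=
      Nat.mul_le_mul_right _ hd
    have h7 : (d + 2) * (C0 * (e (N + 1) + 1)) =
      d * (C0 * (e (N + 1) + 1)) + 2 * (C0 * (e (N + 1) + 1)) := by ring
    have h8 := H.lin (N + 1)
    omega
  have h6 : 2 * (3 ^ d * (DN d J C0 a m0 k1 s e N (N + 1) : ℝ)) * 128 ≤ 2 ^ mt C0 a e N := by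
    have h7 : 2 * (3 ^ d * (DN d J C0 a m0 k1 s e N (N + 1) : ℝ)) ≤
        2 * (2 ^ (2 * d) * 2 ^ (v + d * (C0 * (e (N + 1) + 1)))) := by
      refine mul_le_mul_of_nonneg_left ?_ (by norm_num)
      exact mul_le_mul h33 h2 (by positivity) (by positivity)
    have h8 : (2 : ℝ) * (2 ^ (2 * d) * 2 ^ (v + d * (C0 * (e (N + 1) + 1)))) * 128 ≤
        2 ^ mt C0 a e N := by
      have h9 : (2 : ℝ) * (2 ^ (2 * d) * 2 ^ (v + d * (C0 * (e (N + 1) + 1)))) * 128 =
          2 ^ (8 + 2 * d + (v + d * (C0 * (e (N + 1) + 1)))) := by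
        ring
      rw [h9]
      refine pow_le_pow_right₀ (by norm_num) ?_
      unfold mt
      have h5 : 5 * (e (N + 1) + 1) ≤ C0 * (e (N + 1) + 1) := Nat.mul_le_mul_right _ hC
      have h6 : (d + 2) * (C0 * (e (N + 1) + 1)) ≤ a * (C0 * (e (N + 1) + 1)) :=
        Nat.mul_le_mul_right _ hd
      have h7 : (d + 2) * (C0 * (e (N + 1) + 1)) =
        d * (C0 * (e (N + 1) + 1)) + 2 * (C0 * (e (N + 1) + 1)) := by ring
      have h8 := H.lin (N + 1)
      omega
    linarith only [h7, h8]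
  linarith only [h, h3, h4, h5, h6]

end nums

end Pool.Agent.ANP.H61
end
end -- Pool.Agent.Helper61_ANP.Scn

section -- Pool.Agent.Helper61_ANP.Scp

/-!
# The scales: probabilities
-/

set_option autoImplicit false

open Finset Filter

noncomputable section

namespace Pool.Agent.ANP.H61

/-- the exponent of the probabilities -/
def AA (d a : ℕ) : ℕ := 2 * (d * (a + 2) + 1)

/-- the bound of the probability that a block of level `n` is bad -/
def qn (d C0 a m0 : ℕ) (e : ℕ → ℕ) (N n : ℕ) : ℝ := (1 / 2) ^ (AA d a * lt C0 a m0 e N n)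

theorem half_pow (x y z : ℕ) (h : x + z ≤ y) : (2 : ℝ) ^ x * (1 / 2) ^ y ≤ (1 / 2) ^ z := by
  obtain ⟨t, rfl⟩ := Nat.exists_eq_add_of_le h
  have h1 : (2 : ℝ) ^ x * (1 / 2) ^ (x + z + t) = (1 / 2) ^ z * (1 / 2) ^ t := by
    rw [pow_add, pow_add, ← mul_assoc, ← mul_assoc, ← mul_pow]
    norm_num
  rw [h1]
  have h2 : ((1 : ℝ) / 2) ^ t ≤ 1 := pow_le_one₀ (by norm_num) (by norm_num)
  have h3 : (0 : ℝ) ≤ (1 / 2) ^ z := by positivity
  nlinarith only [h2, h3]

theorem rec_exp (d a l l' : ℕ) (hl : 1 ≤ l) (hl2 : l' ≤ (a + 2) * l) :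
    d * (l' - l) * (2 * a + 4 + 1) + (1 + AA d a * l') ≤ AA d a * l * (2 * a + 4 + 1) := by
  have h1 : l' - l ≤ (a + 1) * l := by
    have : (a + 2) * l = (a + 1) * l + l := by ring
    omega
  have h2 : d * (l' - l) * (2 * a + 4 + 1) ≤ d * ((a + 1) * l) * (2 * a + 4 + 1) :=
    Nat.mul_le_mul_right _ (Nat.mul_le_mul_left _ h1)
  have h3 : AA d a * l' ≤ AA d a * ((a + 2) * l) := Nat.mul_le_mul_left _ hl2
  have h4 : d * ((a + 1) * l) * (2 * a + 4 + 1) + (1 + AA d a * ((a + 2) * l)) ≤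
      AA d a * l * (2 * a + 4 + 1) := by
    unfold AA
    have h5 : 2 * (d * (a + 2) + 1) * l * (2 * a + 4 + 1) =
        2 * (d * (a + 2) + 1) * ((a + 2) * l) + d * ((a + 1) * l) * (2 * a + 4 + 1) +
          (d * (3 * a + 7) * l + (2 * a + 6) * l) := by ring
    rw [h5]
    have h6 : 1 * 1 ≤ (2 * a + 6) * l := Nat.mul_le_mul (by omega) hl
    have h7 : 0 ≤ d * (3 * a + 7) * l := Nat.zero_le _
    omega
  omega

section prob

variable {v a C0 m0 : ℕ} {s : ℕ → ℝ} {e : ℕ → ℕ} (H : Sq v a s e) (d N : ℕ)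
  (hC : 5 ≤ C0) (h3a : C0 + 1 ≤ 3 * a) (hv : C0 ≤ v) (hvm : m0 ≤ v)

include H hC hvm in
/-- the recursion -/
theorem q_rec (n : ℕ) :
    (((2 ^ (lt C0 a m0 e N (n + 1) - lt C0 a m0 e N n)) ^ d : ℕ) * qn d C0 a m0 e N n : ℝ) ^
      (2 * a + 4 + 1) ≤ qn d C0 a m0 e N (n + 1) / 2 := by
  have hl := l_ge H (m0 := m0) N hC n
  have hv1 := H.v1
  have h1 := rec_exp d a (lt C0 a m0 e N n) (lt C0 a m0 e N (n + 1)) (by omega)
    (l_succ H N hC hvm n)
  unfold qn
  push_cast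
  rw [mul_pow, ← pow_mul, ← pow_mul, ← pow_mul]
  have h2 := half_pow ((lt C0 a m0 e N (n + 1) - lt C0 a m0 e N n) * (d * (2 * a + 4 + 1)))
    (AA d a * lt C0 a m0 e N n * (2 * a + 4 + 1)) (1 + AA d a * lt C0 a m0 e N (n + 1))
    (by
      have e1 : (lt C0 a m0 e N (n + 1) - lt C0 a m0 e N n) * (d * (2 * a + 4 + 1)) =
        d * (lt C0 a m0 e N (n + 1) - lt C0 a m0 e N n) * (2 * a + 4 + 1) := by ring
      rw [e1]
      exact h1)
  refine h2.trans (le_of_eq ?_)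
  rw [pow_add, pow_one]
  ring

/-- blocks near the origin -/
theorem near_card {X : Type} [Fintype X] [DecidableEq X] (Γ : Geo X) (hΓ : GeoOk Γ d)
    (hr : ∀ n, 8 * Γ.L n ≤ Γ.ρ (n + 1)) (h1 : ∀ n, 1 ≤ Γ.L n) (o : X) (n : ℕ) :
    (Γ.near o n).card ≤ (8 * Γ.ρ (n + 1)) ^ d := by
  have h2 : Γ.near o n ⊆ ({y | Γ.D o y ≤ 3 * Γ.ρ (n + 1) + 3 * Γ.L n} : Finset X) := by
    intro B hB
    rw [Geo.near, mem_filter] at hB
    obtain ⟨_, hB1, y, hy1, hy2⟩ := hB
    rw [mem_filter]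
    refine ⟨mem_univ _, ?_⟩
    have h3 := hΓ.diam n y B (by rw [hy1, hB1])
    have h4 := hΓ.tri o y B
    omega
  refine (card_le_card h2).trans ((hΓ.vol _ _).trans ?_)
  refine Nat.pow_le_pow_left ?_ d
  have := hr n
  have := h1 n
  omega

include H hC h3a hv hvm in
theorem near_q (J n : ℕ) (hn : n < N + 2) (o : Fin d → ZMod (2 ^ mt C0 a e N)) :
    (((geoT d (mt C0 a e N) (lt C0 a m0 e N) (fun n => 2 ^ rt C0 a m0 e N n) J N).near o n).card : ℝ) *
      qn d C0 a m0 e N n ≤ (1 / 2) ^ (n + 2 + 1) := by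
  have hlr := lr H N hC h3a hv (m0 := m0)
  have hmono : Monotone (lt C0 a m0 e N) := lmono H N hC h3a hv hvm
  set Γ := geoT d (mt C0 a e N) (lt C0 a m0 e N) (fun n => 2 ^ rt C0 a m0 e N n) J N with hΓ
  have hl := l_ge H (m0 := m0) N hC n
  have hv1 := H.v1
  have hlin := H.lin (n + 1)
  -- an exponent
  obtain ⟨x, hx1, hx2⟩ : ∃ x : ℕ, (Γ.near o n).card ≤ 2 ^ x ∧
      x + (n + 2 + 1) ≤ AA d a * lt C0 a m0 e N n := by
    rcases Nat.lt_or_ge n N with h | h
    · refine ⟨d * (3 + rt C0 a m0 e N (n + 1)), ?_, ?_⟩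
      · have h1 := near_card d Γ (trg d _ _ _ hmono J N) (fun k => by
          show 8 * 2 ^ lt C0 a m0 e N k ≤ 2 ^ rt C0 a m0 e N (k + 1)
          have h8 : (8 : ℕ) = 2 ^ 3 := by norm_num
          rw [h8, ← pow_add]
          exact Nat.pow_le_pow_right (by norm_num) (hlr k)) (fun k => Nat.one_le_two_pow) o n
        refine h1.trans (le_of_eq ?_)
        show (8 * 2 ^ rt C0 a m0 e N (n + 1)) ^ d = _
        have h8 : (8 : ℕ) = 2 ^ 3 := by norm_num
        rw [h8, ← pow_add, ← pow_mul, mul_comm]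
      · rw [rt_of_le (show n + 1 ≤ N from h), lt_of_le h.le]
        have h2 := H.e2 (n + 1)
        have h3 : d * (3 + 3 * (e (n + 1 + 1) + 1)) ≤
            d * (6 + 3 * ((a + 1) * (e (n + 1) + 1))) := Nat.mul_le_mul_left _ (by omega)
        have h4 : AA d a * (5 * (e (n + 1) + 1)) ≤ AA d a * (C0 * (e (n + 1) + 1)) :=
          Nat.mul_le_mul_left _ (Nat.mul_le_mul_right _ hC)
        have h5 : AA d a * (5 * (e (n + 1) + 1)) =
            d * (6 + 3 * ((a + 1) * (e (n + 1) + 1))) + 10 * (e (n + 1) + 1) +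
              (d * (7 * a * (e (n + 1) + 1) + 17 * e (n + 1) + 11)) := by
          unfold AA
          ring
        have h6 : 0 ≤ d * (7 * a * (e (n + 1) + 1) + 17 * e (n + 1) + 11) := Nat.zero_le _
        omega
    · refine ⟨d * mt C0 a e N, ?_, ?_⟩
      · have h1 : (Γ.near o n).card ≤ Fintype.card (Fin d → ZMod (2 ^ mt C0 a e N)) :=
          card_le_univ _
        refine h1.trans (le_of_eq ?_)
        rw [Fintype.card_fun, ZMod.card, Fintype.card_fin, ← pow_mul, mul_comm]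
      · have h9 : mt C0 a e N ≤ a * lt C0 a m0 e N n := by
          rcases Nat.lt_or_ge N n with h' | h'
          · rw [lt_of_gt h']
            have : 1 * (mt C0 a e N + (n - N - 1) * (m0 + 3) + m0) ≤
              a * (mt C0 a e N + (n - N - 1) * (m0 + 3) + m0) :=
              Nat.mul_le_mul_right _ (by have := H.a2; omega)
            omega
          · have : n = N := by omega
            subst this
            rw [lt_of_le le_rfl]
            unfold mt
            exact le_rfl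
        have h10 : d * mt C0 a e N ≤ d * (a * lt C0 a m0 e N n) := Nat.mul_le_mul_left _ h9
        have h11 : AA d a * lt C0 a m0 e N n =
            d * (a * lt C0 a m0 e N n) + 2 * lt C0 a m0 e N n +
              d * ((a + 4) * lt C0 a m0 e N n) := by
          unfold AA
          ring
        have h12 : n + 5 ≤ lt C0 a m0 e N n := by
          rcases Nat.lt_or_ge N n with h' | h'
          · rw [lt_of_gt h']
            unfold mt
            have h5 : 5 * (e (N + 1) + 1) ≤ C0 * (e (N + 1) + 1) := Nat.mul_le_mul_right _ hC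
            have h6 : 1 * (C0 * (e (N + 1) + 1)) ≤ a * (C0 * (e (N + 1) + 1)) :=
              Nat.mul_le_mul_right _ (by have := H.a2; omega)
            have h7 := H.lin (N + 1)
            omega
          · rw [lt_of_le h']
            have h5 : 5 * (e (n + 1) + 1) ≤ C0 * (e (n + 1) + 1) := Nat.mul_le_mul_right _ hC
            omega
        have h13 : 0 ≤ d * ((a + 4) * lt C0 a m0 e N n) := Nat.zero_le _
        omega
  have h1 : ((Γ.near o n).card : ℝ) ≤ 2 ^ x := by exact_mod_cast hx1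
  have h2 : (0 : ℝ) ≤ qn d C0 a m0 e N n := by
    unfold qn
    positivity
  refine (mul_le_mul_of_nonneg_right h1 h2).trans ?_
  exact half_pow _ _ _ hx2

include H hC h3a hv hvm in
/-- the total probability -/
theorem phi_le (J : ℕ) (hJ : J = 2 * a + 4) (o : Fin d → ZMod (2 ^ mt C0 a e N)) :
    H72.Phi (geoT d (mt C0 a e N) (lt C0 a m0 e N) (fun n => 2 ^ rt C0 a m0 e N n) J N).ch J (N + 2)
      ((geoT d (mt C0 a e N) (lt C0 a m0 e N) (fun n => 2 ^ rt C0 a m0 e N n) J N).near o)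
      (fun i => qn d C0 a m0 e N i.1 / 2) ≤ 1 / 4 := by
  have hmono : Monotone (lt C0 a m0 e N) := lmono H N hC h3a hv hvm
  have hq0 : ∀ n, (0 : ℝ) ≤ qn d C0 a m0 e N n := fun n => by
    unfold qn
    positivity
  refine le_trans (H72.phi_start (t := fun n => qn d C0 a m0 e N n / 2)
    (q := qn d C0 a m0 e N)
    (K := fun n => (2 ^ (lt C0 a m0 e N (n + 1) - lt C0 a m0 e N n)) ^ d)
    (fun c => by have := hq0 c.1; positivity) (N + 2) _ (fun n B => le_rfl) (fun n B => ?_) ?_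
    (fun n => ?_)) ?_
  · exact trm d (mt C0 a e N) (lt C0 a m0 e N) _ hmono J N n B
  · have := hq0 0
    linarith only [this]
  · have h1 := q_rec H (m0 := m0) d N hC hvm n
    rw [hJ]
    linarith only [h1]
  · refine (Finset.sum_le_sum fun n hn =>
      near_q H d N hC h3a hv hvm J n (mem_range.1 hn) o).trans ?_
    refine (geo_sum (N + 2) 2).trans ?_
    norm_num

include H hC in
/-- the probability of a failed trial -/
theorem pi_le (c0 Cp : ℝ) (h : ℕ) (hc0 : 0 ≤ c0) (kk : ℕ → ℕ)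
    (hkk : ∀ n, kk (n + 1) ≤ kk n + h * (e (n + 1) + 2)) (E : ℕ)
    (hE : ∀ e : ℕ, E ≤ e → (Real.log (max Cp 1) +
      (2 + h + (d + 1 + AA d a) * (C0 * (a + 2)) : ℕ)) * ((e : ℝ) + 1) ≤ (2 : ℝ) ^ (c0 * e))
    (hvE : E ≤ v) (p : ℝ) (n : ℕ) (hn : n ≤ N) (hp0 : 0 ≤ p)
    (hp : p ≤ Cp * Real.exp (-(s n ^ (-c0)))) :
    p * ((kk (n + 1) : ℝ) - kk n + ((2 ^ lt C0 a m0 e N n : ℕ) : ℝ) ^ d) ≤
      qn d C0 a m0 e N n / 2 := by
  have h1 := rp_lo (s n) c0 (e n) (H.pos n) (H.hi n) hc0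
  have h2 := hE (e n) (hvE.trans (H.ge n))
  have hl : lt C0 a m0 e N n = C0 * (e (n + 1) + 1) := lt_of_le hn
  set l := lt C0 a m0 e N n with hldef
  have hl2 : l ≤ C0 * (a + 2) * (e n + 1) := by
    rw [hl, mul_assoc]
    refine Nat.mul_le_mul_left _ ?_
    have h3 := H.e2 n
    have : (a + 2) * (e n + 1) = (a + 1) * (e n + 1) + (e n + 1) := by ring
    omega
  have hel : e (n + 1) + 2 ≤ 2 ^ l := by
    have h3 : e (n + 1) + 1 < 2 ^ (e (n + 1) + 1) := Nat.lt_two_pow_self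
    have h4 : (2 : ℕ) ^ (e (n + 1) + 1) ≤ 2 ^ l := by
      refine Nat.pow_le_pow_right (by norm_num) ?_
      rw [hl]
      exact Nat.le_mul_of_pos_left _ (by omega)
    omega
  -- the number of trials
  have hnum : ((kk (n + 1) : ℝ) - kk n + ((2 ^ l : ℕ) : ℝ) ^ d) ≤ 2 ^ (1 + h + (d + 1) * l) := by
    have h5 : ((kk (n + 1) : ℝ) - kk n) ≤ h * ((e (n + 1) : ℝ) + 2) := by
      have : ((kk (n + 1) : ℕ) : ℝ) ≤ ((kk n + h * (e (n + 1) + 2) : ℕ) : ℝ) := by
        exact_mod_cast hkk n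
      push_cast at this
      linarith only [this]
    have h6 : (h : ℝ) ≤ 2 ^ h := by exact_mod_cast (Nat.lt_two_pow_self (n := h)).le
    have h7 : ((e (n + 1) : ℝ) + 2) ≤ 2 ^ l := by exact_mod_cast hel
    have h8 : (h : ℝ) * ((e (n + 1) : ℝ) + 2) ≤ 2 ^ h * 2 ^ l :=
      mul_le_mul h6 h7 (by positivity) (by positivity)
    have h9 : (2 : ℝ) ^ h * 2 ^ l ≤ 2 ^ (h + (d + 1) * l) := by
      rw [← pow_add]
      refine pow_le_pow_right₀ (by norm_num) ?_
      have : 1 * l ≤ (d + 1) * l := Nat.mul_le_mul_right _ (by omega)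
      omega
    have h10 : ((2 ^ l : ℕ) : ℝ) ^ d ≤ 2 ^ (h + (d + 1) * l) := by
      push_cast
      rw [← pow_mul]
      refine pow_le_pow_right₀ (by norm_num) ?_
      have : (d + 1) * l = l * d + l := by ring
      omega
    have h11 : (2 : ℝ) ^ (1 + h + (d + 1) * l) = 2 * 2 ^ (h + (d + 1) * l) := by
      rw [add_assoc, pow_add, pow_one]
    rw [h11]
    linarith only [h5, h8, h9, h10]
  -- the exponential
  have hexp : max Cp 1 * 2 ^ (2 + h + (d + 1 + AA d a) * l) ≤ Real.exp (s n ^ (-c0)) := by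
    have hm : 0 < max Cp 1 := lt_max_of_lt_right one_pos
    have hlog0 : 0 ≤ Real.log (max Cp 1) := Real.log_nonneg (le_max_right _ _)
    have h3 : max Cp 1 * 2 ^ (2 + h + (d + 1 + AA d a) * l) =
        Real.exp (Real.log (max Cp 1) + ((2 + h + (d + 1 + AA d a) * l : ℕ) : ℝ) * Real.log 2) := by
      rw [Real.exp_add, Real.exp_log hm, mul_comm (((2 + h + (d + 1 + AA d a) * l : ℕ) : ℝ)),
        Real.exp_mul, Real.exp_log (by norm_num), Real.rpow_natCast]
    rw [h3, Real.exp_le_exp]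
    refine le_trans ?_ h1
    refine le_trans ?_ h2
    have h4 : ((2 + h + (d + 1 + AA d a) * l : ℕ) : ℝ) ≤
        ((2 + h + (d + 1 + AA d a) * (C0 * (a + 2)) : ℕ) : ℝ) * ((e n : ℝ) + 1) := by
      have h5 : 2 + h + (d + 1 + AA d a) * l ≤
          (2 + h + (d + 1 + AA d a) * (C0 * (a + 2))) * (e n + 1) := by
        have h6 : (d + 1 + AA d a) * l ≤ (d + 1 + AA d a) * (C0 * (a + 2) * (e n + 1)) :=
          Nat.mul_le_mul_left _ hl2
        have h7 : (2 + h + (d + 1 + AA d a) * (C0 * (a + 2))) * (e n + 1) =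
            (2 + h) * (e n + 1) + (d + 1 + AA d a) * (C0 * (a + 2) * (e n + 1)) := by ring
        have h8 : (2 + h) * 1 ≤ (2 + h) * (e n + 1) := Nat.mul_le_mul_left _ (by omega)
        omega
      exact_mod_cast h5
    have hlog2 : Real.log 2 ≤ 1 := by
      have := Real.log_two_lt_d9
      linarith only [this]
    have hlog2' : 0 ≤ Real.log 2 := Real.log_nonneg (by norm_num)
    have h9 : (0 : ℝ) ≤ ((2 + h + (d + 1 + AA d a) * l : ℕ) : ℝ) := by positivity
    have h10 : (0 : ℝ) ≤ e n := by positivity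
    nlinarith only [hlog0, h4, hlog2]
  have hCp : Cp ≤ max Cp 1 := le_max_left _ _
  have hnum0 : (0 : ℝ) ≤ (kk (n + 1) : ℝ) - kk n + ((2 ^ l : ℕ) : ℝ) ^ d ∨
      (kk (n + 1) : ℝ) - kk n + ((2 ^ l : ℕ) : ℝ) ^ d < 0 := le_or_gt _ _
  have hpe : p ≤ max Cp 1 * Real.exp (-(s n ^ (-c0))) :=
    hp.trans (mul_le_mul_of_nonneg_right hCp (Real.exp_pos _).le)
  calc p * ((kk (n + 1) : ℝ) - kk n + ((2 ^ l : ℕ) : ℝ) ^ d)
      ≤ p * 2 ^ (1 + h + (d + 1) * l) := mul_le_mul_of_nonneg_left hnum hp0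
    _ ≤ max Cp 1 * Real.exp (-(s n ^ (-c0))) * 2 ^ (1 + h + (d + 1) * l) :=
        mul_le_mul_of_nonneg_right hpe (by positivity)
    _ ≤ qn d C0 a m0 e N n / 2 := by
        rw [Real.exp_neg]
        have hX : 0 < Real.exp (s n ^ (-c0)) := Real.exp_pos _
        rw [mul_right_comm, ← div_eq_mul_inv, div_le_iff₀ hX]
        unfold qn
        rw [← hldef]
        have h12 : (1 / 2 : ℝ) ^ (AA d a * l) / 2 * (max Cp 1 * 2 ^ (2 + h + (d + 1 + AA d a) * l)) =
            max Cp 1 * 2 ^ (1 + h + (d + 1) * l) := by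
          have h13 : (2 : ℝ) ^ (2 + h + (d + 1 + AA d a) * l) =
              2 * 2 ^ (1 + h + (d + 1) * l) * 2 ^ (AA d a * l) := by
            rw [mul_assoc, ← pow_add, mul_comm (2 : ℝ), ← pow_succ]
            congr 1
            ring
          rw [h13, one_div, inv_pow]
          field_simp
        rw [← h12]
        exact mul_le_mul_of_nonneg_left hexp (by positivity)

end prob

end Pool.Agent.ANP.H61
end
end -- Pool.Agent.Helper61_ANP.Scp

section -- Pool.Agent.Helper79_ACX.V0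

/-! V0 step: the mixture of the starts, the bound with the exceptional starts, the Gaussian tail. -/

set_option autoImplicit false

open MeasureTheory ProbabilityTheory

open scoped ENNReal NNReal BigOperators

noncomputable section

namespace Pool.Agent.ACX.H79

open Pool.Agent.ANP Pool.Agent.ANP.H16

variable {X : Type} [Fintype X]

/-- the inner integral is a measurable function of the start -/
theorem meas_start (a : X → ℝ) (q : X → ℝ≥0) (F : (X → ℝ) → ℝ≥0∞) (hF : Measurable F) :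
    Measurable (fun ζ : X → ℝ => ∫⁻ y, F y ∂(gm (fun x => a x + ζ x) q)) := by
  have h : (fun ζ : X → ℝ => ∫⁻ y, F y ∂(gm (fun x => a x + ζ x) q)) =
      fun ζ => ∫⁻ y, F (ζ + y) ∂(gm a q) := by
    funext ζ
    rw [← gm_shift a ζ q, lintegral_map hF (by fun_prop)]
  rw [h]
  exact Measurable.lintegral_prod_right' (f := fun z : (X → ℝ) × (X → ℝ) => F (z.1 + z.2))
    (hF.comp (by fun_prop))

theorem int_eq (a : X → ℝ) (q : X → ℝ≥0) (F : (X → ℝ) → ℝ) (hF : Measurable F)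
    (h0 : ∀ y, 0 ≤ F y) :
    ∫ y, F y ∂(gm a q) = (∫⁻ y, ENNReal.ofReal (F y) ∂(gm a q)).toReal :=
  integral_eq_lintegral_of_nonneg_ae (Filter.Eventually.of_forall h0) hF.aestronglyMeasurable

theorem lint_lt (a : X → ℝ) (q : X → ℝ≥0) (F : (X → ℝ) → ℝ) {C : ℝ} (h1 : ∀ y, F y ≤ C) :
    ∫⁻ y, ENNReal.ofReal (F y) ∂(gm a q) < ∞ := by
  have h : ∫⁻ y, ENNReal.ofReal (F y) ∂(gm a q) ≤ ∫⁻ _, ENNReal.ofReal C ∂(gm a q) :=
    lintegral_mono fun y => ENNReal.ofReal_le_ofReal (h1 y)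
  refine h.trans_lt ?_
  rw [lintegral_const, measure_univ, mul_one]
  exact ENNReal.ofReal_lt_top

/-- THE MIXTURE: general variances and general centre -/
theorem mix (a : X → ℝ) (p q : X → ℝ≥0) (F : (X → ℝ) → ℝ) (hF : Measurable F)
    (h0 : ∀ y, 0 ≤ F y) {C : ℝ} (h1 : ∀ y, F y ≤ C) :
    ∫ y, F y ∂(gm a (fun x => p x + q x)) =
      ∫ ζ, (∫ y, F y ∂(gm (fun x => a x + ζ x) q)) ∂(gm (fun _ => 0) p) := by
  have h2 : (fun ζ : X → ℝ => ∫ y, F y ∂(gm (fun x => a x + ζ x) q)) =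
      fun ζ => (∫⁻ y, ENNReal.ofReal (F y) ∂(gm (fun x => a x + ζ x) q)).toReal := by
    funext ζ
    exact int_eq _ q F hF h0
  have hO : Measurable fun y : X → ℝ => ENNReal.ofReal (F y) := ENNReal.measurable_ofReal.comp hF
  rw [int_eq _ _ F hF h0, h2, integral_toReal
    (meas_start a q (fun y => ENNReal.ofReal (F y)) hO).aemeasurable
    (Filter.Eventually.of_forall fun ζ => lint_lt _ q F h1),
    gm_step_lint a p q (fun y => ENNReal.ofReal (F y)) hO]

/-- the mixture, homogeneous variances, centre `0` -/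
theorem mix_const (w f : ℝ≥0) (hfw : f ≤ w) (F : (X → ℝ) → ℝ) (hF : Measurable F)
    (h0 : ∀ y, 0 ≤ F y) {C : ℝ} (h1 : ∀ y, F y ≤ C) :
    ∫ y, F y ∂(gm (fun _ : X => 0) (fun _ => w)) =
      ∫ V₀, (∫ y, F y ∂(gm V₀ (fun _ => w - f))) ∂(gm (fun _ => 0) (fun _ => f)) := by
  have h := mix (fun _ : X => (0 : ℝ)) (fun _ => f) (fun _ => w - f) F hF h0 h1
  have h2 : (fun _ : X => f + (w - f)) = fun _ => w := by
    funext x; exact add_tsub_cancel_of_le hfw
  rw [h2] at h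
  rw [h]
  refine integral_congr_ae (Filter.Eventually.of_forall fun ζ => ?_)
  have h3 : (fun x : X => (0 : ℝ) + ζ x) = ζ := by funext x; simp
  simp only [h3]

/-- THE BOUND, set of good starts `A`: outside `A` the integrand is bounded by its maximum -/
theorem start_le (w f : ℝ≥0) (hfw : f ≤ w) (F : (X → ℝ) → ℝ) (hF : Measurable F)
    (h0 : ∀ y, 0 ≤ F y) {C e : ℝ} (h1 : ∀ y, F y ≤ C) (he : 0 ≤ e)
    (B : Set (X → ℝ)) (hB : MeasurableSet B)
    (hin : ∀ V₀, V₀ ∉ B → ∫ y, F y ∂(gm V₀ (fun _ => w - f)) ≤ e) :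
    ∫ y, F y ∂(gm (fun _ : X => 0) (fun _ => w)) ≤
      e + C * (gm (fun _ : X => 0) (fun _ => f)).real B := by
  rw [mix_const w f hfw F hF h0 h1]
  have hC : 0 ≤ C := (h0 (fun _ => 0)).trans (h1 _)
  have hI : ∀ V₀ : X → ℝ, ∫ y, F y ∂(gm V₀ (fun _ => w - f)) ≤ C := by
    intro V₀
    have h2 : ∫ y, F y ∂(gm V₀ (fun _ => w - f)) ≤ ∫ _, C ∂(gm V₀ (fun _ => w - f)) := by
      refine integral_mono_of_nonneg (Filter.Eventually.of_forall h0) (integrable_const _)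
        (Filter.Eventually.of_forall h1)
    simpa using h2
  have hmeas : AEStronglyMeasurable (fun V₀ : X → ℝ => e + C * B.indicator (fun _ => (1 : ℝ)) V₀)
      (gm (fun _ : X => 0) (fun _ => f)) :=
    (measurable_const.add ((measurable_const.indicator hB).const_mul C)).aestronglyMeasurable
  have h3 : ∫ V₀, (∫ y, F y ∂(gm V₀ (fun _ => w - f))) ∂(gm (fun _ => 0) (fun _ => f)) ≤
      ∫ V₀, (e + C * B.indicator (fun _ => (1 : ℝ)) V₀) ∂(gm (fun _ : X => 0) (fun _ => f)) := by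
    refine integral_mono_of_nonneg
      (Filter.Eventually.of_forall fun V₀ => integral_nonneg h0) ?_
      (Filter.Eventually.of_forall fun V₀ => ?_)
    · refine Integrable.add (integrable_const e) (Integrable.const_mul ?_ C)
      exact (integrable_const (1 : ℝ)).indicator hB
    · by_cases hV : V₀ ∈ B
      · simp only [Set.indicator_of_mem hV]
        linarith [hI V₀]
      · simp only [Set.indicator_of_notMem hV]
        linarith [hin V₀ hV]
  refine h3.trans (le_of_eq ?_)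
  rw [integral_add (integrable_const e)
    (((integrable_const (1 : ℝ)).indicator hB).const_mul C), integral_const, integral_const_mul,
    integral_indicator_const _ hB]
  simp

/-- the exceptional starts -/
theorem meas_exc (ρ₀ : ℝ) : MeasurableSet {V₀ : X → ℝ | ∃ x, ρ₀ < |V₀ x|} := by
  have h : {V₀ : X → ℝ | ∃ x, ρ₀ < |V₀ x|} = ⋃ x, {V₀ : X → ℝ | ρ₀ < |V₀ x|} := by
    ext V; simp
  rw [h]
  refine MeasurableSet.iUnion fun x => ?_
  exact measurableSet_lt measurable_const ((measurable_pi_apply x).abs)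

/-- THE BOUND of the V0 step -/
theorem v0_step (w f : ℝ≥0) (hfw : f ≤ w) (φ : (X → ℝ) → ℝ) (hφ : Measurable φ)
    (h0 : ∀ y, 0 ≤ φ y) (h1 : ∀ y, φ y ≤ 1) (e ρ₀ : ℝ) (he : 0 ≤ e)
    (hin : ∀ V₀ : X → ℝ, (∀ x, |V₀ x| ≤ ρ₀) → ∫ y, φ y ∂(gm V₀ (fun _ => w - f)) ≤ e) :
    ∫ y, φ y ∂(gm (fun _ : X => 0) (fun _ => w)) ≤
      e + (gm (fun _ : X => 0) (fun _ => f)).real {V₀ | ∃ x, ρ₀ < |V₀ x|} := by
  have h := start_le w f hfw φ hφ h0 h1 he _ (meas_exc ρ₀) (fun V₀ hV => hin V₀ fun x => by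
    by_contra hc
    exact hV ⟨x, not_le.1 hc⟩)
  rwa [one_mul] at h

/-- tail of one coordinate -/
theorem tail_one (f : ℝ≥0) (hf : 0 < f) (R : ℝ) (hR : 0 ≤ R) :
    (gaussianReal 0 f).real {y | R < |y|} ≤ 2 * Real.exp (-(R ^ 2 / (2 * f))) := by
  have hf' : (0 : ℝ) < f := by exact_mod_cast hf
  have hmgf : ∀ t : ℝ, mgf (fun y : ℝ => y) (gaussianReal 0 f) t = Real.exp (f * t ^ 2 / 2) := by
    intro t
    have h := mgf_gaussianReal (p := gaussianReal 0 f) (X := fun y : ℝ => y) (μ := 0) (v := f)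
      (by simp) t
    rw [h]
    congr 1
    ring
  have hint : ∀ t : ℝ, Integrable (fun y : ℝ => Real.exp (t * y)) (gaussianReal 0 f) := by
    intro t
    have h0 : 0 < mgf (fun y : ℝ => y) (gaussianReal 0 f) t := by rw [hmgf]; positivity
    by_contra hcon
    rw [mgf, integral_undef hcon] at h0
    exact lt_irrefl _ h0
  have h1 : (gaussianReal 0 f).real {y | R ≤ y} ≤ Real.exp (-(R ^ 2 / (2 * f))) := by
    refine (measure_ge_le_exp_mul_mgf (X := fun y : ℝ => y) R (t := R / f) (by positivity)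
      (hint _)).trans (le_of_eq ?_)
    rw [hmgf, ← Real.exp_add]
    congr 1; field_simp; ring
  have h2 : (gaussianReal 0 f).real {y | y ≤ -R} ≤ Real.exp (-(R ^ 2 / (2 * f))) := by
    refine (measure_le_le_exp_mul_mgf (X := fun y : ℝ => y) (-R) (t := -(R / f))
      (by have : 0 ≤ R / f := by positivity
          linarith)
      (hint _)).trans (le_of_eq ?_)
    rw [hmgf, ← Real.exp_add]
    congr 1; field_simp; ring
  have hsub : {y : ℝ | R < |y|} ⊆ {y | R ≤ y} ∪ {y | y ≤ -R} := by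
    intro y hy
    rw [Set.mem_ofPred_eq, lt_abs] at hy
    rcases hy with h | h
    · left; exact h.le
    · right
      rw [Set.mem_ofPred_eq]
      linarith
  calc (gaussianReal 0 f).real {y | R < |y|}
      ≤ (gaussianReal 0 f).real ({y | R ≤ y} ∪ {y | y ≤ -R}) := measureReal_mono hsub
    _ ≤ (gaussianReal 0 f).real {y | R ≤ y} + (gaussianReal 0 f).real {y | y ≤ -R} :=
        measureReal_union_le _ _
    _ ≤ 2 * Real.exp (-(R ^ 2 / (2 * f))) := by linarith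

/-- tail of the starts, general variances bounded by `f` -/
theorem tail_exc (f : ℝ≥0) (hf : 0 < f) (ρ₀ : ℝ) (hρ : 0 ≤ ρ₀) :
    (gm (fun _ : X => 0) (fun _ => f)).real {V₀ | ∃ x, ρ₀ < |V₀ x|} ≤
      Fintype.card X * 2 * Real.exp (-(ρ₀ ^ 2 / (2 * f))) := by
  have h : {V₀ : X → ℝ | ∃ x, ρ₀ < |V₀ x|} = ⋃ x ∈ (Finset.univ : Finset X),
      {V₀ : X → ℝ | ρ₀ < |V₀ x|} := by
    ext V; simp
  rw [h]
  refine (measureReal_biUnion_finset_le _ _).trans ?_
  have h2 : ∀ x : X, (gm (fun _ : X => 0) (fun _ => f)).real {V₀ : X → ℝ | ρ₀ < |V₀ x|} ≤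
      2 * Real.exp (-(ρ₀ ^ 2 / (2 * f))) := by
    intro x
    have h3 : (gm (fun _ : X => 0) (fun _ => f)).real {V₀ : X → ℝ | ρ₀ < |V₀ x|} =
        (gaussianReal 0 f).real {y | ρ₀ < |y|} := by
      have h4 := (measurePreserving_eval (fun _ : X => gaussianReal 0 f) x).measure_preimage
        (s := {y : ℝ | ρ₀ < |y|}) (measurableSet_lt measurable_const measurable_id.abs).nullMeasurableSet
      unfold Measure.real
      rw [← h4]
      rfl
    rw [h3]
    exact tail_one f hf ρ₀ hρ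
  calc ∑ x : X, (gm (fun _ : X => 0) (fun _ => f)).real {V₀ : X → ℝ | ρ₀ < |V₀ x|}
      ≤ ∑ _x : X, 2 * Real.exp (-(ρ₀ ^ 2 / (2 * f))) := Finset.sum_le_sum fun x _ => h2 x
    _ = Fintype.card X * 2 * Real.exp (-(ρ₀ ^ 2 / (2 * f))) := by
        rw [Finset.sum_const, Finset.card_univ, nsmul_eq_mul, mul_assoc]

/-- (1) + (2) + (3) together -/
theorem v0_final (w f : ℝ≥0) (hf : 0 < f) (hfw : f ≤ w) (φ : (X → ℝ) → ℝ) (hφ : Measurable φ)
    (h0 : ∀ y, 0 ≤ φ y) (h1 : ∀ y, φ y ≤ 1) (e ρ₀ : ℝ) (he : 0 ≤ e) (hρ : 0 ≤ ρ₀)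
    (hin : ∀ V₀ : X → ℝ, (∀ x, |V₀ x| ≤ ρ₀) → ∫ y, φ y ∂(gm V₀ (fun _ => w - f)) ≤ e) :
    ∫ y, φ y ∂(gm (fun _ : X => 0) (fun _ => w)) ≤
      e + Fintype.card X * 2 * Real.exp (-(ρ₀ ^ 2 / (2 * f))) :=
  (v0_step w f hfw φ hφ h0 h1 e ρ₀ he hin).trans (by linarith [tail_exc (X := X) f hf ρ₀ hρ])

end Pool.Agent.ACX.H79
end
end -- Pool.Agent.Helper79_ACX.V0

section -- Pool.Agent.Helper22_QDA.Kq

/-!
# QDA, row SCB: clocks with a prescribed last stage

`exists_kqK`: for `w` small and every `K` with `w θ ^ K ≤ w ^ P` there are clocks with the ratio of the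
scales between `a` and `a + 1` and `kk (N + 1) = K`. `P` depends on `a` only.
-/

set_option autoImplicit false

open Finset Filter

noncomputable section

namespace Pool.Agent.QDA.H22

open Pool.Agent.ANP.H61

/-- the exponents `e` for given stages `kk` -/
theorem kq_of (w θ : ℝ) (v a : ℕ) (ha : 2 ≤ a) (hv : 1 ≤ v) (hθ : 0 < θ) (hθ1 : θ < 1)
    (hw : 0 < w) (hw1' : w < 1) (hw1 : w * 2 ^ v ≤ 1) (kk : ℕ → ℕ) (hkk0 : kk 0 = 0)
    (hkks : ∀ n, kk n < kk (n + 1)) (hup : ∀ n, w * θ ^ kk (n + 1) ≤ (w * θ ^ kk n) ^ a)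
    (hdn : ∀ n, (w * θ ^ kk n) ^ (a + 1) ≤ w * θ ^ kk (n + 1)) :
    ∃ e : ℕ → ℕ, Kq w θ v a kk e := by
  have hs0 : ∀ k, 0 < w * θ ^ k := fun k => by positivity
  have hs1 : ∀ k, w * θ ^ k ≤ w := fun k => by
    have := pow_le_one₀ (n := k) hθ.le hθ1.le
    nlinarith only [hθ, hθ1, hw, this]
  have hexe : ∀ n, ∃ e : ℕ, (1 / 2 : ℝ) ^ (e + 1) < w * θ ^ kk n ∧ w * θ ^ kk n ≤ (1 / 2) ^ e :=
    fun n => exists_nat_pow_near_of_lt_one (hs0 _) ((hs1 _).trans hw1'.le) (by norm_num) (by norm_num)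
  choose e he1 he2 using hexe
  have hhi : ∀ n, w * θ ^ kk n * 2 ^ e n ≤ 1 := by
    intro n
    have h1 := mul_le_mul_of_nonneg_right (he2 n) (show (0 : ℝ) ≤ 2 ^ e n by positivity)
    rw [← mul_pow] at h1
    norm_num at h1 ⊢
    exact h1
  have hlo' : ∀ n, 1 < w * θ ^ kk n * 2 ^ (e n + 1) := by
    intro n
    have h1 := mul_lt_mul_of_pos_right (he1 n) (show (0 : ℝ) < 2 ^ (e n + 1) by positivity)
    rw [← mul_pow] at h1
    norm_num at h1 ⊢
    exact h1
  refine ⟨e, ⟨hkk0, hkks, hup, hdn, ⟨ha, hv, fun n => hs0 _, hhi,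
    fun n => (hlo' n).le, ?_, fun n => ?_, fun n => ?_, ?_⟩⟩⟩
  · -- v ≤ e 0
    by_contra hcon
    push Not at hcon
    have h1 := hlo' 0
    rw [hkk0, pow_zero, mul_one] at h1
    have h2 : (2 : ℝ) ^ (e 0 + 1) ≤ 2 ^ v := pow_le_pow_right₀ (by norm_num) (by omega)
    have h3 := mul_le_mul_of_nonneg_left h2 hw.le
    linarith only [hw1, h1, h3]
  · -- a e n ≤ e (n+1)
    by_contra hcon
    push Not at hcon
    have h1 := hlo' (n + 1)
    have h2 : w * θ ^ kk (n + 1) ≤ (w * θ ^ kk n) ^ a := hup n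
    have h3 : (2 : ℝ) ^ (e (n + 1) + 1) ≤ 2 ^ (a * e n) := pow_le_pow_right₀ (by norm_num) (by omega)
    have h4 : (w * θ ^ kk n * 2 ^ e n) ^ a ≤ 1 := pow_le_one₀ (by have := hs0 (kk n); positivity) (hhi n)
    have h5 : (w * θ ^ kk n) ^ a * 2 ^ (a * e n) ≤ 1 := by
      rw [mul_pow, ← pow_mul, mul_comm (e n) a] at h4
      exact h4
    have h6 : w * θ ^ kk (n + 1) * 2 ^ (e (n + 1) + 1) ≤ (w * θ ^ kk n) ^ a * 2 ^ (a * e n) :=
      mul_le_mul h2 h3 (by positivity) (by have := hs0 (kk n); positivity)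
    linarith only [h1, h5, h6]
  · -- e (n+1) ≤ (a+1)(e n + 1)
    by_contra hcon
    push Not at hcon
    have h1 := hhi (n + 1)
    have h2 : (w * θ ^ kk n) ^ (a + 1) ≤ w * θ ^ kk (n + 1) := hdn n
    have h3 : (2 : ℝ) ^ ((a + 1) * (e n + 1)) ≤ 2 ^ (e (n + 1)) :=
      pow_le_pow_right₀ (by norm_num) (by omega)
    have h4 : 1 < (w * θ ^ kk n * 2 ^ (e n + 1)) ^ (a + 1) :=
      one_lt_pow₀ (hlo' n) (by omega)
    have h5 : 1 < (w * θ ^ kk n) ^ (a + 1) * 2 ^ ((a + 1) * (e n + 1)) := by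
      rw [mul_pow, ← pow_mul, mul_comm (e n + 1) (a + 1)] at h4
      exact h4
    have h6 : (w * θ ^ kk n) ^ (a + 1) * 2 ^ ((a + 1) * (e n + 1)) ≤
        w * θ ^ kk (n + 1) * 2 ^ (e (n + 1)) :=
      mul_le_mul h2 h3 (by positivity) (hs0 _).le
    linarith only [h1, h5, h6]
  · -- antitone
    refine antitone_nat_of_succ_le fun n => ?_
    show w * θ ^ kk (n + 1) ≤ w * θ ^ kk n
    refine mul_le_mul_of_nonneg_left ?_ hw.le
    exact pow_le_pow_of_le_one hθ.le hθ1.le (hkks n).le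

/-- the exponent `m₀`: from it on the intervals `[(a + 1/4)^m, (a + 3/4)^m]` overlap -/
theorem exists_m0 (a : ℕ) : ∃ m₀ : ℕ, 3 ≤ m₀ ∧
    ∀ m : ℕ, m₀ ≤ m → ((a : ℝ) + 1 / 4) ^ (m + 1) ≤ ((a : ℝ) + 3 / 4) ^ m := by
  have ha : (0 : ℝ) < (a : ℝ) + 1 / 4 := by positivity
  have hr : 1 < ((a : ℝ) + 3 / 4) / (a + 1 / 4) := by
    rw [one_lt_div ha]
    linarith only
  obtain ⟨m₁, hm₁⟩ := pow_unbounded_of_one_lt ((a : ℝ) + 1 / 4) hr
  refine ⟨m₁ + 3, by omega, fun m hm => ?_⟩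
  have h1 : (a : ℝ) + 1 / 4 ≤ (((a : ℝ) + 3 / 4) / (a + 1 / 4)) ^ m :=
    hm₁.le.trans (pow_le_pow_right₀ hr.le (by omega))
  rw [div_pow, le_div_iff₀ (by positivity)] at h1
  rw [pow_succ, mul_comm]
  exact h1

/-- the ratio: a power of a number between `a + 1/4` and `a + 3/4` -/
theorem exists_ratio (a m₀ : ℕ) (ha : 2 ≤ a)
    (hm : ∀ m : ℕ, m₀ ≤ m → ((a : ℝ) + 1 / 4) ^ (m + 1) ≤ ((a : ℝ) + 3 / 4) ^ m) (x : ℝ)
    (hx : ((a : ℝ) + 1 / 4) ^ m₀ ≤ x) :
    ∃ (m : ℕ) (b : ℝ), m₀ ≤ m ∧ (a : ℝ) + 1 / 4 ≤ b ∧ b ≤ a + 3 / 4 ∧ b ^ m = x := by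
  have ha0 : (0 : ℝ) ≤ (a : ℝ) := Nat.cast_nonneg _
  have ha1 : (1 : ℝ) < (a : ℝ) + 1 / 4 := by
    have : (2 : ℝ) ≤ a := by exact_mod_cast ha
    linarith only [this]
  have hx1 : 1 ≤ x := (one_le_pow₀ ha1.le).trans hx
  obtain ⟨m, h1, h2⟩ := exists_nat_pow_near hx1 ha1
  have hmm : m₀ ≤ m := by
    by_contra hcon
    push Not at hcon
    have h3 : ((a : ℝ) + 1 / 4) ^ (m + 1) ≤ ((a : ℝ) + 1 / 4) ^ m₀ :=
      pow_le_pow_right₀ ha1.le hcon
    linarith only [hx, h2, h3]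
  have h3 : x ≤ ((a : ℝ) + 3 / 4) ^ m := h2.le.trans (hm m hmm)
  rcases Nat.eq_zero_or_pos m with h0 | h0
  · subst h0
    refine ⟨0, (a : ℝ) + 1 / 4, hmm, le_rfl, by linarith only, ?_⟩
    rw [pow_zero] at h1 h3 ⊢
    linarith only [hx1, h3]
  have hm0 : m ≠ 0 := by omega
  have hmr : (0 : ℝ) < m := by exact_mod_cast h0
  have hx0 : 0 ≤ x := by linarith only [hx1]
  refine ⟨m, x ^ (1 / (m : ℝ)), hmm, ?_, ?_, ?_⟩
  · have h4 := Real.rpow_le_rpow (by positivity) h1 (show 0 ≤ 1 / (m : ℝ) by positivity)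
    rwa [← Real.rpow_natCast, ← Real.rpow_mul (by positivity), mul_one_div_cancel hmr.ne',
      Real.rpow_one] at h4
  · have h4 := Real.rpow_le_rpow hx0 h3 (show 0 ≤ 1 / (m : ℝ) by positivity)
    rwa [← Real.rpow_natCast ((a : ℝ) + 3 / 4), ← Real.rpow_mul (by positivity),
      mul_one_div_cancel hmr.ne', Real.rpow_one] at h4
  · rw [← Real.rpow_natCast, ← Real.rpow_mul hx0, one_div_mul_cancel hmr.ne', Real.rpow_one]

/-- the exponent `P` -/
theorem exists_kqK (a : ℕ) (ha : 2 ≤ a) : ∃ P : ℕ, 1 ≤ P ∧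
    ∀ (w θ : ℝ) (v K : ℕ), 1 ≤ v → 1 / 2 ≤ θ → θ < 1 → 0 < w → w ≤ (1 / 2) ^ (4 * (a + 1)) →
      w * 2 ^ v ≤ 1 → w * θ ^ K ≤ w ^ P →
      ∃ (N : ℕ) (kk e : ℕ → ℕ), 2 ≤ N ∧ kk (N + 1) = K ∧ Kq w θ v a kk e := by
  obtain ⟨m₀, hm3, hm⟩ := exists_m0 a
  refine ⟨(a + 1) ^ m₀, Nat.one_le_pow _ _ (by omega), ?_⟩
  intro w θ v K hv hθ2 hθ1 hw hwa hw1 hK
  have hθ : 0 < θ := by linarith only [hθ2, hθ1]
  have har : (2 : ℝ) ≤ a := by exact_mod_cast ha
  -- logarithms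
  obtain ⟨lam, hlam⟩ : ∃ lam, lam = -Real.log θ := ⟨_, rfl⟩
  obtain ⟨L0, hL0⟩ : ∃ L0, L0 = -Real.log w := ⟨_, rfl⟩
  have hlam0 : 0 < lam := by
    rw [hlam]
    have := Real.log_neg hθ hθ1
    linarith only [this]
  have hlog2 : 0 < Real.log 2 := Real.log_pos (by norm_num)
  have hlam1 : lam ≤ Real.log 2 := by
    rw [hlam]
    have h1 : Real.log (1 / 2) ≤ Real.log θ := Real.log_le_log (by norm_num) hθ2
    have h2 : Real.log (1 / 2) = -Real.log 2 := by rw [one_div, Real.log_inv]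
    linarith only [h1, h2]
  have hL1 : 4 * ((a : ℝ) + 1) * Real.log 2 ≤ L0 := by
    rw [hL0]
    have h1 : Real.log w ≤ Real.log ((1 / 2) ^ (4 * (a + 1))) := Real.log_le_log hw hwa
    rw [Real.log_pow, one_div, Real.log_inv] at h1
    push_cast at h1
    linarith only [h1]
  have hL00 : 0 < L0 := lt_of_lt_of_le (by positivity) hL1
  have hlog : ∀ k : ℕ, Real.log (w * θ ^ k) = -(L0 + k * lam) := by
    intro k
    rw [Real.log_mul hw.ne' (by positivity), Real.log_pow, hL0, hlam]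
    ring
  have hpos : ∀ k : ℕ, 0 < w * θ ^ k := fun k => by positivity
  -- the total
  obtain ⟨x, hx⟩ : ∃ x, x = (L0 + K * lam) / L0 := ⟨_, rfl⟩
  have hxP : (((a + 1) ^ m₀ : ℕ) : ℝ) ≤ x := by
    have h1 : Real.log (w * θ ^ K) ≤ Real.log (w ^ ((a + 1) ^ m₀)) := Real.log_le_log (hpos K) hK
    rw [hlog, Real.log_pow] at h1
    rw [hx, le_div_iff₀ hL00, hL0] at *
    linarith only [h1]
  have hx1 : ((a : ℝ) + 1 / 4) ^ m₀ ≤ x := by
    refine le_trans ?_ hxP
    push_cast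
    gcongr
    norm_num
  obtain ⟨m, b, hmm, hb1, hb2, hbm⟩ := exists_ratio a m₀ ha hm x hx1
  -- the stages
  have hb0 : 0 < b := by linarith only [hθ2, hθ1, har, hb1]
  have hb1' : 1 ≤ b := by linarith only [hθ2, hθ1, har, hb1]
  obtain ⟨g, hg⟩ : ∃ g : ℕ → ℝ, g = fun n => L0 * (b ^ n - 1) / lam := ⟨_, rfl⟩
  have hg0 : ∀ n, 0 ≤ g n := by
    intro n
    rw [hg]
    have : (1 : ℝ) ≤ b ^ n := one_le_pow₀ hb1'
    have : 0 ≤ b ^ n - 1 := by linarith only [this]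
    positivity
  obtain ⟨kk, hkk⟩ : ∃ kk : ℕ → ℕ, kk = fun n => ⌊g n⌋₊ := ⟨_, rfl⟩
  have h1 : ∀ n, L0 + kk n * lam ≤ L0 * b ^ n := by
    intro n
    have h2 : (kk n : ℝ) ≤ g n := by rw [hkk]; exact Nat.floor_le (hg0 n)
    have h3 : (kk n : ℝ) * lam ≤ g n * lam := mul_le_mul_of_nonneg_right h2 hlam0.le
    have h4 : g n * lam = L0 * (b ^ n - 1) := by
      rw [hg]
      field_simp
    rw [h4] at h3
    linarith only [h3]
  have h2 : ∀ n, L0 * b ^ n < L0 + kk n * lam + lam := by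
    intro n
    have h3 : g n < (kk n : ℝ) + 1 := by rw [hkk]; exact Nat.lt_floor_add_one _
    have h4 : g n * lam < ((kk n : ℝ) + 1) * lam := mul_lt_mul_of_pos_right h3 hlam0
    have h5 : g n * lam = L0 * (b ^ n - 1) := by
      rw [hg]
      field_simp
    rw [h5] at h4
    linarith only [h4]
  have hLn : ∀ n, L0 ≤ L0 + kk n * lam := fun n => by
    have : 0 ≤ (kk n : ℝ) * lam := by positivity
    linarith only [this]
  have hup : ∀ n, (a : ℝ) * (L0 + kk n * lam) ≤ L0 + kk (n + 1) * lam := by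
    intro n
    have e1 := h1 n
    have e2 := h2 (n + 1)
    have e3 := hLn n
    rw [pow_succ] at e2
    have e4 : ((a : ℝ) + 1 / 4) * (L0 + kk n * lam) ≤ b * (L0 * b ^ n) := by
      have : 0 ≤ L0 * b ^ n := by positivity
      calc ((a : ℝ) + 1 / 4) * (L0 + kk n * lam) ≤ ((a : ℝ) + 1 / 4) * (L0 * b ^ n) := by gcongr
        _ ≤ b * (L0 * b ^ n) := by gcongr
    have e5 : L0 * (b ^ n * b) = b * (L0 * b ^ n) := by ring
    rw [e5] at e2
    have e6 : 4 * lam ≤ L0 := by nlinarith only [hlog2, hlam1, hL1]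
    nlinarith only [e2, e3, e4, e6]
  have hdn : ∀ n, L0 + kk (n + 1) * lam ≤ ((a : ℝ) + 1) * (L0 + kk n * lam) := by
    intro n
    have e1 := h1 (n + 1)
    have e2 := h2 n
    have e3 := hLn n
    rw [pow_succ] at e1
    have e4 : b * (L0 * b ^ n) ≤ ((a : ℝ) + 3 / 4) * (L0 + kk n * lam + lam) := by
      have : 0 ≤ L0 * b ^ n := by positivity
      calc b * (L0 * b ^ n) ≤ ((a : ℝ) + 3 / 4) * (L0 * b ^ n) := by gcongr
        _ ≤ _ := by gcongr
    have e5 : L0 * (b ^ n * b) = b * (L0 * b ^ n) := by ring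
    rw [e5] at e1
    have e6 : 4 * ((a : ℝ) + 1) * lam ≤ L0 := by
      refine le_trans ?_ hL1
      gcongr
    nlinarith only [hlam0, e1, e3, e4, e6]
  have hupE : ∀ n, w * θ ^ kk (n + 1) ≤ (w * θ ^ kk n) ^ a := by
    intro n
    rw [← Real.log_le_log_iff (hpos _) (pow_pos (hpos _) _), Real.log_pow, hlog, hlog]
    have := hup n
    linarith only [this]
  have hdnE : ∀ n, (w * θ ^ kk n) ^ (a + 1) ≤ w * θ ^ kk (n + 1) := by
    intro n
    rw [← Real.log_le_log_iff (pow_pos (hpos _) _) (hpos _), Real.log_pow, hlog, hlog]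
    have := hdn n
    push_cast
    linarith only [this]
  have hkks : ∀ n, kk n < kk (n + 1) := by
    intro n
    have e1 := hup n
    have e2 := hLn n
    have e3 : (kk n : ℝ) * lam < kk (n + 1) * lam := by nlinarith only [hθ2, hθ1, har, hlam0, hlam1, hL1, hL00, e1, e2]
    have e4 : (kk n : ℝ) < kk (n + 1) := lt_of_mul_lt_mul_right e3 hlam0.le
    exact_mod_cast e4
  have hkk0 : kk 0 = 0 := by
    rw [hkk, hg]
    simp
  have hkkm : kk m = K := by
    have e1 : g m = K := by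
      rw [hg]
      show L0 * (b ^ m - 1) / lam = K
      rw [hbm, hx]
      field_simp
      ring
    rw [hkk]
    show ⌊g m⌋₊ = K
    rw [e1, Nat.floor_natCast]
  have hw1' : w < 1 := by
    refine lt_of_le_of_lt hwa (pow_lt_one₀ (by norm_num) (by norm_num) (by omega))
  obtain ⟨e, he⟩ := kq_of w θ v a ha hv hθ hθ1 hw hw1' hw1 kk hkk0 hkks hupE hdnE
  refine ⟨m - 1, kk, e, by omega, ?_, he⟩
  rw [show m - 1 + 1 = m by omega]
  exact hkkm

end Pool.Agent.QDA.H22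
end
end -- Pool.Agent.Helper22_QDA.Kq
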