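import Pool.Agent.Helper12_MEB.B000

/-!
# Merged copies (generated) of the modules

* `Pool.Agent.ANR.Stmts2`
* `Pool.Agent.Helper20_ANR.LV0`
* `Pool.Agent.Helper92_ANR.REV`
* `Pool.Agent.Helper34_CTC.Comp`
* `Pool.Agent.Helper34_CTC.Gen`
* `Pool.Agent.Helper34_CTC.Box`
* `Pool.Agent.Helper34_CTC.Tai`
* `Pool.Agent.Helper34_CTC.Tlt`
* `Pool.Agent.Helper34_CTC.Fm`
* `Pool.Agent.Helper34_CTC.Mul`
* `Pool.Agent.Helper34_CTC.Seq`
* `Pool.Agent.Helper34_KL2.Cen`
* `Pool.Agent.Helper34_KL2.Kfm`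
* `Pool.Agent.Helper44_ANR.FRM`
* `Pool.Agent.Helper49_ANR.RKB`
* `Pool.Agent.Helper52_ANR.LMR`
* `Pool.Agent.Helper60_ANR.CUT`
* `Pool.Agent.Helper60_ANR.LVI`
* `Pool.Agent.Helper81_ANR.FLR`
* `Pool.Agent.Helper84_ANR.YHH`
* `Pool.Agent.Helper90_ANR.LVS`
* `Pool.Agent.Helper99_ANR.FRX`
* `Pool.Agent.Helper76_ANR.All`
-/

set_option autoImplicit false

section -- Pool.Agent.ANR.Stmts2

/-!
# Release of a cluster: statements, part 2

A finite change `G → G'` (kills and releases together) measured by `m x = ∑_y κ_y |G_xy - G'_xy|²`.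
-/

set_option autoImplicit false

open scoped BigOperators ComplexConjugate

noncomputable section

namespace Pool.Agent.ANR

/-- FRX: the change of the form of the nodes. Proof: for a pair in `B`:
`||G'|² - |G|²| ≤ 2 |G| |Δ| + |Δ|² ≤ ε |G|² + (2/ε) |Δ|²` (`ε ≤ 1`), and
`(1/ε) ∑_(x, y ∈ B) κ κ |Δ_xy|² (f x - f y)² ≤ (2/ε) ∑_(x, y ∈ B) κ κ |Δ_xy|² ((f x - c)² + (f y - c)²)
≤ (4/ε) ∑ κ x m x (f x - c)²` (symmetry of `Δ`). The other pairs are in `tl`. (Edit of
Helper44_ANR/FRM.lean.) -/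
def FrxStmt : Prop :=
  ∀ (X : Type) [Fintype X] [DecidableEq X] (G G' : Matrix X X ℂ) (κ : X → ℝ) (A B : Finset X)
    (m f : X → ℝ) (c ε : ℝ), (∀ x y, G x y = G y x) → (∀ x y, G' x y = G' y x) →
      (∀ x ∈ A, 0 ≤ κ x) → B ⊆ A → 0 < ε → ε ≤ 1 →
      (∀ x ∈ B, ∑ y ∈ B, κ y * ‖G x y - G' x y‖ ^ 2 ≤ m x) →
      |cE G' κ A f - cE G κ A f| ≤ ε * cE G κ B f + 4 / ε * ∑ x ∈ B, κ x * m x * (f x - c) ^ 2 +
        tl G G' κ A B f

/-- RKB (uses LV2, LVS): the total mass of the change is at most four times the number of changed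
sites. Proof: leverages from LVS; LV2 (2): `∑_(z ∉ F) κ_z |Δ_zy|² ≤ 4 L_y`; sum over `y` with `κ_y`. -/
def RkbStmt : Prop :=
  ∀ (X : Type) [Fintype X] [DecidableEq X] (H H' : Matrix X X ℝ) (κ κ' : X → ℝ) (F : Finset X),
    Net H κ → Net H' κ' → Off H κ H' κ' F →
      ∑ x ∈ Fᶜ, ∑ y ∈ Fᶜ, κ x * κ y * ‖Gr H κ x y - Gr H' κ' x y‖ ^ 2 ≤ 4 * F.card

/-- FLR: the flux to a set `P`. Proof: Minkowski in `ℓ²(P, κ)`
(`Real.sqrt (∑ κ |u + v|²) ≤ Real.sqrt (∑ κ |u|²) + Real.sqrt (∑ κ |v|²)`; symmetric in `G`, `G'`). -/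
def FlrStmt : Prop :=
  ∀ (X : Type) [Fintype X] [DecidableEq X] (G G' : Matrix X X ℂ) (κ : X → ℝ) (P : Finset X)
    (x : X) (m : ℝ), (∀ y ∈ P, 0 ≤ κ y) → ∑ y ∈ P, κ y * ‖G x y - G' x y‖ ^ 2 ≤ m →
      Real.sqrt (fl G' κ P x) ≤ Real.sqrt (fl G κ P x) + Real.sqrt m

/-- LMR: the fourth powers. Proof: Minkowski in `ℓ⁴(R)` (`Real.Lp_add_le`) and
`∑ |Δ|⁴ ≤ u² ∑ |Δ|² ≤ u² m / k`. -/
def LmrStmt : Prop :=
  ∀ (X : Type) [Fintype X] [DecidableEq X] (G G' : Matrix X X ℂ) (κ : X → ℝ) (R : Finset X)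
    (x : X) (u m k : ℝ), 0 < k → (∀ y ∈ R, k ≤ κ y) → 0 ≤ u → (∀ y ∈ R, ‖G x y - G' x y‖ ≤ u) →
      ∑ y ∈ R, κ y * ‖G x y - G' x y‖ ^ 2 ≤ m →
      (∑ y ∈ R, ‖G' x y‖ ^ 4) ^ ((1 : ℝ) / 4) ≤
        (∑ y ∈ R, ‖G x y‖ ^ 4) ^ ((1 : ℝ) / 4) + (u ^ 2 * m / k) ^ ((1 : ℝ) / 4)

/-- THD: sums of squares. Proof: `|a² - b²| ≤ |a - b| (2 |a| + |a - b|)` for `a = G_xy`, `b = G'_xy`
(and for their real parts), Cauchy-Schwarz with the weights `κ`. -/
def ThdStmt : Prop :=
  ∀ (X : Type) [Fintype X] [DecidableEq X] (G G' : Matrix X X ℂ) (κ : X → ℝ) (P : Finset X)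
    (x : X) (g m : ℝ), (∀ y ∈ P, 0 ≤ κ y) → ∑ y ∈ P, κ y * ‖G x y‖ ^ 2 ≤ g →
      ∑ y ∈ P, κ y * ‖G x y - G' x y‖ ^ 2 ≤ m →
      ‖∑ y ∈ P, (κ y : ℂ) * G x y ^ 2 - ∑ y ∈ P, (κ y : ℂ) * G' x y ^ 2‖ ≤
          2 * Real.sqrt (g * m) + m ∧
      |∑ y ∈ P, κ y * (G x y).re ^ 2 - ∑ y ∈ P, κ y * (G' x y).re ^ 2| ≤
          2 * Real.sqrt (g * m) + m ∧
      |∑ y ∈ P, κ y * ‖G x y‖ ^ 2 - ∑ y ∈ P, κ y * ‖G' x y‖ ^ 2| ≤ 2 * Real.sqrt (g * m) + m

/-- REV (uses LV2, LVI): one release after a history. `Go` is the Green function at the start of the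
attempt; the changes add. Proof: triangle inequality and LV2 (1), (2) (Minkowski in `ℓ²`). -/
def RevStmt : Prop :=
  ∀ (X : Type) [Fintype X] [DecidableEq X] (H H' : Matrix X X ℝ) (κ κ' : X → ℝ) (b : X)
    (A : Finset X) (L : X → ℝ) (Go : Matrix X X ℂ), Net H κ → Net H' κ' →
      Off H κ H' κ' {b} → b ∉ A → (∀ x ∈ A, 0 ≤ L x ∧ Lev H κ {b} x (L x)) →
      ∀ x ∈ A, (∀ y ∈ A, ‖Gr H' κ' x y - Go x y‖ ≤ ‖Gr H κ x y - Go x y‖ +
          2 * Real.sqrt (L x * L y)) ∧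
        Real.sqrt (∑ y ∈ A, κ y * ‖Gr H' κ' x y - Go x y‖ ^ 2) ≤
          Real.sqrt (∑ y ∈ A, κ y * ‖Gr H κ x y - Go x y‖ ^ 2) + 2 * Real.sqrt (L x)

end Pool.Agent.ANR
end
end -- Pool.Agent.ANR.Stmts2

section -- Pool.Agent.Helper20_ANR.LV0

/-!
# Release of a block, row LV0: one site
-/

set_option autoImplicit false

open scoped BigOperators ComplexConjugate

noncomputable section

namespace Pool.Agent.ANR.H20

open Pool.Agent.ANR

theorem opv_sub {X : Type} [Fintype X] [DecidableEq X] (H : Matrix X X ℝ) (κ : X → ℝ)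
    (ψ φ : X → ℂ) (c : ℂ) (x : X) :
    opv H κ (fun z => ψ z - c * φ z) x = opv H κ ψ x - c * opv H κ φ x := by
  unfold opv
  have h1 : ∑ y, (H x y : ℂ) * (ψ y - c * φ y) =
      ∑ y, (H x y : ℂ) * ψ y - c * ∑ y, (H x y : ℂ) * φ y := by
    rw [Finset.mul_sum, ← Finset.sum_sub_distrib]
    apply Finset.sum_congr rfl
    intro y _
    ring
  rw [h1]
  ring

theorem lv0 (hG : GeqStmt) (hD : DirStmt) : Lv0Stmt := by
  intro X _ _ H κ b x hN hxb ψ hψ
  obtain ⟨g1, -, -, -, -⟩ := hG X H κ hN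
  obtain ⟨c, hc⟩ : ∃ c, c = opv H κ ψ b := ⟨_, rfl⟩
  obtain ⟨φ, hφ⟩ : ∃ φ : X → ℂ, φ = fun z => Gr H κ z b := ⟨_, rfl⟩
  have hz : ∀ z, opv H κ (fun z => ψ z - c * φ z) z = 0 := by
    intro z
    rw [opv_sub, hφ, g1 z b]
    by_cases h : z = b
    · rw [if_pos h, h, hc, mul_one, sub_self]
    · rw [if_neg h, mul_zero, sub_zero]
      apply hψ
      simpa using h
  have h0 : ∀ z, opv H κ (fun _ => (0 : ℂ)) z = 0 := by
    intro z
    unfold opv
    simp
  obtain ⟨w, -, hw⟩ := hD X H κ ∅ hN (fun _ => 0) (fun _ => 0)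
  have e1 := hw (fun z => ψ z - c * φ z) ⟨fun b hb => absurd hb (Finset.notMem_empty b),
    fun z _ => hz z⟩
  have e2 := hw (fun _ => (0 : ℂ)) ⟨fun b hb => absurd hb (Finset.notMem_empty b),
    fun z _ => h0 z⟩
  have hψ2 : ∀ z, ψ z = c * Gr H κ z b := by
    intro z
    have h1 := congrFun (e1.trans e2.symm) z
    have h2 : ψ z - c * φ z = 0 := h1
    rw [hφ] at h2
    exact sub_eq_zero.1 h2
  have hQ : Q κ {b} ψ = ‖c‖ ^ 2 * ∑ z ∈ ({b} : Finset X)ᶜ, κ z * ‖Gr H κ z b‖ ^ 2 := by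
    unfold Q
    rw [Finset.mul_sum]
    apply Finset.sum_congr rfl
    intro z _
    rw [hψ2 z, norm_mul, mul_pow]
    ring
  rw [hQ, hψ2 x, norm_mul, mul_pow]
  have hnn : ∀ z ∈ ({b} : Finset X)ᶜ, 0 ≤ κ z * ‖Gr H κ z b‖ ^ 2 := by
    intro z _
    have := hN.pos z
    positivity
  by_cases hS : ∑ z ∈ ({b} : Finset X)ᶜ, κ z * ‖Gr H κ z b‖ ^ 2 = 0
  · have hx : x ∈ ({b} : Finset X)ᶜ := by
      rw [Finset.mem_compl, Finset.mem_singleton]
      exact hxb
    have h1 := (Finset.sum_eq_zero_iff_of_nonneg hnn).1 hS x hx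
    have h2 : ‖Gr H κ x b‖ ^ 2 = 0 := by
      rcases mul_eq_zero.1 h1 with h | h
      · exact absurd h (hN.pos x).ne'
      · exact h
    rw [h2]
    simp
  · apply le_of_eq
    field_simp

end Pool.Agent.ANR.H20
end
end -- Pool.Agent.Helper20_ANR.LV0

section -- Pool.Agent.Helper92_ANR.REV

set_option autoImplicit false

open scoped BigOperators ComplexConjugate

noncomputable section

namespace Pool.Agent.ANR.H92

theorem mink {X : Type} (A : Finset X) (κ : X → ℝ) (hκ : ∀ y ∈ A, 0 ≤ κ y) (u v : X → ℂ) :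
    Real.sqrt (∑ y ∈ A, κ y * ‖u y + v y‖ ^ 2) ≤
      Real.sqrt (∑ y ∈ A, κ y * ‖u y‖ ^ 2) + Real.sqrt (∑ y ∈ A, κ y * ‖v y‖ ^ 2) := by
  set P := ∑ y ∈ A, κ y * ‖u y‖ ^ 2 with hP
  set R := ∑ y ∈ A, κ y * ‖v y‖ ^ 2 with hR
  have hP0 : 0 ≤ P := Finset.sum_nonneg fun y hy => mul_nonneg (hκ y hy) (sq_nonneg _)
  have hR0 : 0 ≤ R := Finset.sum_nonneg fun y hy => mul_nonneg (hκ y hy) (sq_nonneg _)
  apply Real.sqrt_le_iff.2
  refine ⟨by positivity, ?_⟩
  have hcs : ∑ y ∈ A, κ y * (‖u y‖ * ‖v y‖) ≤ Real.sqrt P * Real.sqrt R := by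
    rw [← Real.sqrt_mul hP0]
    apply Real.le_sqrt_of_sq_le
    refine Finset.sum_sq_le_sum_mul_sum_of_sq_le_mul A
      (fun y hy => mul_nonneg (hκ y hy) (sq_nonneg _))
      (fun y hy => mul_nonneg (hκ y hy) (sq_nonneg _)) (fun y _ => le_of_eq ?_)
    ring
  have h1 : ∑ y ∈ A, κ y * ‖u y + v y‖ ^ 2 ≤
      P + R + 2 * ∑ y ∈ A, κ y * (‖u y‖ * ‖v y‖) := by
    rw [hP, hR, Finset.mul_sum, ← Finset.sum_add_distrib, ← Finset.sum_add_distrib]
    refine Finset.sum_le_sum fun y hy => ?_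
    have h2 : ‖u y + v y‖ ^ 2 ≤ ‖u y‖ ^ 2 + ‖v y‖ ^ 2 + 2 * (‖u y‖ * ‖v y‖) := by
      have h3 := norm_add_le (u y) (v y)
      nlinarith only [norm_nonneg (u y + v y), norm_nonneg (u y), norm_nonneg (v y), h3]
    have := mul_le_mul_of_nonneg_left h2 (hκ y hy)
    linarith only [this]
  have h2 : (Real.sqrt P + Real.sqrt R) ^ 2 = P + R + 2 * (Real.sqrt P * Real.sqrt R) := by
    have e1 := Real.sq_sqrt hP0
    have e2 := Real.sq_sqrt hR0
    nlinarith only [e1, e2]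
  rw [h2]
  linarith only [hcs, h1]

theorem rev (h2 : Lv2Stmt) (h3 : GeqStmt) : RevStmt := by
  intro X _ _ H H' κ κ' b A L Go hN hN' hO hbA hL x hx
  have hne : ∀ z ∈ A, z ∉ ({b} : Finset X) := by
    intro z hz h
    rw [Finset.mem_singleton] at h
    exact hbA (h ▸ hz)
  refine ⟨fun y hy => ?_, ?_⟩
  · have h4 := (h2 X H H' κ κ' {b} x y (L x) (L y) hN hN' hO (hne x hx) (hne y hy)
      (hL x hx).1 (hL y hy).1 (hL x hx).2 (hL y hy).2).1
    have h5 : ‖Gr H κ x y - Gr H' κ' x y‖ ≤ 2 * Real.sqrt (L x * L y) := by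
      have h6 : (2 * Real.sqrt (L x * L y)) ^ 2 = 4 * L x * L y := by
        rw [mul_pow, Real.sq_sqrt (mul_nonneg (hL x hx).1 (hL y hy).1)]
        ring
      exact abs_le_of_sq_le_sq' (by rw [h6]; exact h4) (by positivity) |>.2
    calc ‖Gr H' κ' x y - Go x y‖ = ‖(Gr H κ x y - Go x y) - (Gr H κ x y - Gr H' κ' x y)‖ := by
          congr 1
          ring
      _ ≤ ‖Gr H κ x y - Go x y‖ + ‖Gr H κ x y - Gr H' κ' x y‖ := norm_sub_le _ _
      _ ≤ _ := by linarith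
  · have h4 := (h2 X H H' κ κ' {b} x x (L x) (L x) hN hN' hO (hne x hx) (hne x hx)
      (hL x hx).1 (hL x hx).1 (hL x hx).2 (hL x hx).2).2.1
    have hs := (h3 X H κ hN).2.1
    have hs' := (h3 X H' κ' hN').2.1
    have h5 : ∑ y ∈ A, κ y * ‖-(Gr H κ x y - Gr H' κ' x y)‖ ^ 2 ≤ 4 * L x := by
      refine le_trans ?_ h4
      refine le_trans (le_of_eq (Finset.sum_congr rfl fun y _ => ?_))
        (Finset.sum_le_sum_of_subset_of_nonneg (f := fun z => κ z * ‖Gr H κ z x - Gr H' κ' z x‖ ^ 2)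
          (s := A) (t := ({b} : Finset X)ᶜ) (fun y hy => Finset.mem_compl.2 (hne y hy))
          fun z _ _ => mul_nonneg (hN.pos z).le (sq_nonneg _))
      rw [norm_neg, hs x y, hs' x y]
    have h6 := mink A κ (fun y _ => (hN.pos y).le) (fun y => Gr H κ x y - Go x y)
      (fun y => -(Gr H κ x y - Gr H' κ' x y))
    have h7 : ∀ y, (Gr H κ x y - Go x y) + -(Gr H κ x y - Gr H' κ' x y) =
        Gr H' κ' x y - Go x y := fun y => by ring
    simp only [h7] at h6
    have h8 : Real.sqrt (∑ y ∈ A, κ y * ‖-(Gr H κ x y - Gr H' κ' x y)‖ ^ 2) ≤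
        2 * Real.sqrt (L x) := by
      have h9 : Real.sqrt (4 * L x) = 2 * Real.sqrt (L x) := by
        rw [show (4 : ℝ) * L x = 2 ^ 2 * L x by ring, Real.sqrt_mul (by norm_num),
          Real.sqrt_sq (by norm_num)]
      rw [← h9]
      exact Real.sqrt_le_sqrt h5
    linarith only [h6, h8]

end Pool.Agent.ANR.H92
end
end -- Pool.Agent.Helper92_ANR.REV

section -- Pool.Agent.Helper34_CTC.Comp

/-!
# Clusters of a finite set
-/

set_option autoImplicit false

open Finset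

namespace Pool.Agent.CTC

/-- (COMP) A finite set splits into clusters: different clusters are farther apart than `t`, and every
site is within distance `card * t` of the representative of its cluster. -/
theorem comp {X : Type} [DecidableEq X] (D : X → X → ℕ) (h0 : ∀ x, D x x = 0)
    (hc : ∀ x y, D x y = D y x) (ht : ∀ x y z, D x z ≤ D x y + D y z) (S : Finset X) (t : ℕ) :
    ∃ rep : X → X, (∀ x ∈ S, rep x ∈ S ∧ rep (rep x) = rep x ∧ D x (rep x) ≤ S.card * t) ∧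
      ∀ x ∈ S, ∀ y ∈ S, rep x ≠ rep y → t < D x y := by
  classical
  let G : SimpleGraph {x // x ∈ S} := SimpleGraph.fromRel fun u v => D u.1 v.1 ≤ t
  have hwalk : ∀ (u v : {x // x ∈ S}) (p : G.Walk u v), D u.1 v.1 ≤ p.length * t := by
    intro u v p
    induction p with
    | nil => rw [h0]; exact Nat.zero_le _
    | @cons a b c hab p ih =>
      have h1 : D a.1 b.1 ≤ t := by
        rw [SimpleGraph.fromRel_adj] at hab
        rcases hab.2 with h | h
        · exact h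
        · rw [hc]; exact h
      have h2 := ht a.1 b.1 c.1
      rw [SimpleGraph.Walk.length_cons, add_mul, one_mul]
      omega
  let rp : {x // x ∈ S} → {x // x ∈ S} := fun u => (G.connectedComponentMk u).out
  have hrp : ∀ u, G.Reachable (rp u) u := fun u =>
    SimpleGraph.ConnectedComponent.exact (Quot.out_eq (G.connectedComponentMk u))
  have hrr : ∀ u, rp (rp u) = rp u := by
    intro u
    have : G.connectedComponentMk (rp u) = G.connectedComponentMk u :=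
      SimpleGraph.ConnectedComponent.sound (hrp u)
    show (G.connectedComponentMk (rp u)).out = (G.connectedComponentMk u).out
    rw [this]
  refine ⟨fun x => if h : x ∈ S then (rp ⟨x, h⟩).1 else x, ?_, ?_⟩
  · intro x hx
    have e : (fun x => if h : x ∈ S then (rp ⟨x, h⟩).1 else x) x = (rp ⟨x, hx⟩).1 := dif_pos hx
    rw [e]
    refine ⟨(rp ⟨x, hx⟩).2, ?_, ?_⟩
    · have e2 : (fun x => if h : x ∈ S then (rp ⟨x, h⟩).1 else x) (rp ⟨x, hx⟩).1 =
          (rp ⟨(rp ⟨x, hx⟩).1, (rp ⟨x, hx⟩).2⟩).1 := dif_pos (rp ⟨x, hx⟩).2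
      rw [e2]
      exact congrArg Subtype.val (hrr ⟨x, hx⟩)
    · obtain ⟨p, hp⟩ := (hrp ⟨x, hx⟩).symm.exists_isPath
      have h1 := hwalk _ _ p
      have h2 : p.length ≤ S.card := by
        have h3 := hp.length_lt
        rw [Fintype.card_coe] at h3
        exact h3.le
      exact h1.trans (Nat.mul_le_mul_right t h2)
  · intro x hx y hy hne
    by_contra hcon
    push Not at hcon
    apply hne
    have e1 : (fun x => if h : x ∈ S then (rp ⟨x, h⟩).1 else x) x = (rp ⟨x, hx⟩).1 := dif_pos hx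
    have e2 : (fun x => if h : x ∈ S then (rp ⟨x, h⟩).1 else x) y = (rp ⟨y, hy⟩).1 := dif_pos hy
    rw [e1, e2]
    have hreach : G.Reachable ⟨x, hx⟩ ⟨y, hy⟩ := by
      by_cases hxy : x = y
      · subst hxy
        exact SimpleGraph.Reachable.refl _
      · apply SimpleGraph.Adj.reachable
        rw [SimpleGraph.fromRel_adj]
        refine ⟨fun h => hxy (congrArg Subtype.val h), Or.inl hcon⟩
    have : G.connectedComponentMk ⟨x, hx⟩ = G.connectedComponentMk ⟨y, hy⟩ :=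
      SimpleGraph.ConnectedComponent.sound hreach
    show (G.connectedComponentMk ⟨x, hx⟩).out.1 = (G.connectedComponentMk ⟨y, hy⟩).out.1
    rw [this]

end Pool.Agent.CTC
end -- Pool.Agent.Helper34_CTC.Comp

section -- Pool.Agent.Helper34_CTC.Gen

/-!
# Cutting nodes and releasing clusters in the language of Moreau forms: any graph

`cE G κ A` is the Dirichlet form of the nodes `A`, `LB` / `UB` are the lower and upper bounds by the
Moreau form. All constants `c` are the weighted mean `wm a f` of `f`: it minimizes `∑ a (f - c)²`, so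
the same `c` is good for every `h`.
-/

set_option autoImplicit false
set_option linter.unusedSectionVars false

open scoped BigOperators
open Finset

noncomputable section

namespace Pool.Agent.CTC

open Pool.Agent.LTG Pool.Agent.ANR

section mean

variable {X : Type*} [Fintype X]

/-- the weighted mean of `f` -/
def wm (a f : X → ℝ) : ℝ := (∑ x, a x * f x) / ∑ x, a x

/-- (WME) the weighted mean minimizes -/
theorem wm_min (a f : X → ℝ) (ha : ∀ x, 0 ≤ a x) (c : ℝ) :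
    ∑ x, a x * (f x - wm a f) ^ 2 ≤ ∑ x, a x * (f x - c) ^ 2 := by
  set m := wm a f with hm
  have h0 : 0 ≤ ∑ x, a x := Finset.sum_nonneg fun x _ => ha x
  have h1 : ∑ x, a x * (f x - c) ^ 2 =
      ∑ x, a x * (f x - m) ^ 2 + 2 * (m - c) * (∑ x, a x * f x - m * ∑ x, a x) +
        (m - c) ^ 2 * ∑ x, a x := by
    have e : ∀ x, a x * (f x - c) ^ 2 = a x * (f x - m) ^ 2 + 2 * (m - c) * (a x * f x) -
        2 * (m - c) * m * a x + (m - c) ^ 2 * a x := fun x => by ring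
    simp only [e, Finset.sum_add_distrib, Finset.sum_sub_distrib, ← Finset.mul_sum]
    ring
  have h2 : ∑ x, a x * f x - m * ∑ x, a x = 0 := by
    rcases eq_or_lt_of_le h0 with h | h
    · have hz : ∀ x, a x = 0 := fun x =>
        (Finset.sum_eq_zero_iff_of_nonneg fun x _ => ha x).mp h.symm x (Finset.mem_univ x)
      simp [hz]
    · rw [hm]
      unfold wm
      rw [div_mul_cancel₀ _ h.ne', sub_self]
  rw [h1, h2]
  have := mul_nonneg (sq_nonneg (m - c)) h0
  linarith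

/-- the weighted mean only sees the support of the weight -/
theorem wm_congr (a f g : X → ℝ) (h : ∀ x, a x ≠ 0 → f x = g x) : wm a f = wm a g := by
  unfold wm
  congr 1
  refine Finset.sum_congr rfl fun x _ => ?_
  by_cases hx : a x = 0
  · rw [hx, zero_mul, zero_mul]
  · rw [h x hx]

end mean

variable {X : Type} [Fintype X] [DecidableEq X] {ep : Type*} [Fintype ep] (s t : ep → X)

/-- the form only sees the nodes -/
theorem cE_congr (G : Matrix X X ℂ) (κ : X → ℝ) (A : Finset X) {f g : X → ℝ} (c : ℝ)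
    (h : ∀ x ∈ A, f x - g x = c) : cE G κ A f = cE G κ A g := by
  unfold cE
  congr 1
  refine Finset.sum_congr rfl fun x hx => Finset.sum_congr rfl fun y hy => ?_
  have : f x - f y = g x - g y := by linarith [h x hx, h y hy]
  rw [this]

theorem cE_mono (G : Matrix X X ℂ) (κ : X → ℝ) {B A : Finset X} (hBA : B ⊆ A)
    (hκ : ∀ x ∈ A, 0 ≤ κ x) (f : X → ℝ) : cE G κ B f ≤ cE G κ A f := by
  unfold cE
  refine mul_le_mul_of_nonneg_left ?_ (by norm_num)
  have hp : ∀ x ∈ A, ∀ y ∈ A, 0 ≤ κ x * κ y * ‖G x y‖ ^ 2 * (f x - f y) ^ 2 := fun x hx y hy =>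
    mul_nonneg (mul_nonneg (mul_nonneg (hκ x hx) (hκ y hy)) (sq_nonneg _)) (sq_nonneg _)
  calc ∑ x ∈ B, ∑ y ∈ B, κ x * κ y * ‖G x y‖ ^ 2 * (f x - f y) ^ 2
      ≤ ∑ x ∈ B, ∑ y ∈ A, κ x * κ y * ‖G x y‖ ^ 2 * (f x - f y) ^ 2 :=
        Finset.sum_le_sum fun x hx => Finset.sum_le_sum_of_subset_of_nonneg hBA
          fun y hy _ => hp x (hBA hx) y hy
    _ ≤ _ := Finset.sum_le_sum_of_subset_of_nonneg hBA fun x hx _ =>
        Finset.sum_nonneg fun y hy => hp x hx y hy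

theorem cE_nonneg (G : Matrix X X ℂ) (κ : X → ℝ) {A : Finset X} (hκ : ∀ x ∈ A, 0 ≤ κ x)
    (f : X → ℝ) : 0 ≤ cE G κ A f := by
  unfold cE
  refine mul_nonneg (by norm_num) (Finset.sum_nonneg fun x hx => Finset.sum_nonneg fun y hy => ?_)
  exact mul_nonneg (mul_nonneg (mul_nonneg (hκ x hx) (hκ y hy)) (sq_nonneg _)) (sq_nonneg _)

/-- the weight of the bonds which are cut: `κ x ∑_(b ∈ Q) κ b K_xb` on `A \ Q` -/
def cw (G : Matrix X X ℂ) (κ : X → ℝ) (A Q : Finset X) (x : X) : ℝ :=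
  if x ∈ A \ Q then κ x * fl G κ Q x else 0

theorem cw_nonneg (G : Matrix X X ℂ) (κ : X → ℝ) (A Q : Finset X) (hQA : Q ⊆ A)
    (hκ : ∀ x ∈ A, 0 ≤ κ x) (x : X) : 0 ≤ cw G κ A Q x := by
  unfold cw
  split
  · rename_i h
    refine mul_nonneg (hκ x (Finset.mem_sdiff.1 h).1) ?_
    unfold fl
    exact Finset.sum_nonneg fun b hb => mul_nonneg (hκ b (hQA hb)) (sq_nonneg _)
  · exact le_rfl

/-- the cut in one formula -/
theorem cut_eq (hcut : CutStmt) (G : Matrix X X ℂ) (κ : X → ℝ) (A Q : Finset X) (hQA : Q ⊆ A)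
    (hs : ∀ x y, G x y = G y x) (f : X → ℝ) (c : ℝ) :
    cE G κ A (fun x => if x ∈ Q then c else f x) =
      cE G κ (A \ Q) f + ∑ x, cw G κ A Q x * (f x - c) ^ 2 := by
  have h := hcut X G κ (A \ Q) Q (fun x => if x ∈ Q then c else f x) c hs
    Finset.sdiff_disjoint (fun b hb => if_pos hb)
  rw [Finset.sdiff_union_of_subset hQA] at h
  rw [h]
  have e1 : cE G κ (A \ Q) (fun x => if x ∈ Q then c else f x) = cE G κ (A \ Q) f :=
    cE_congr G κ (A \ Q) 0 fun x hx => by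
      show (if x ∈ Q then c else f x) - f x = 0
      rw [if_neg (Finset.mem_sdiff.1 hx).2, sub_self]
  rw [e1]
  congr 1
  rw [← Finset.sum_subset (Finset.subset_univ (A \ Q))]
  · refine Finset.sum_congr rfl fun x hx => ?_
    unfold cw
    rw [if_pos hx, if_neg (Finset.mem_sdiff.1 hx).2]
  · intro x _ hx
    unfold cw
    rw [if_neg hx, zero_mul]

/-- (CTC, lower) THE CUT. The nodes `Q` leave the network. `al'`, `be'` is a bound for the weighted
variance of `f` with the weights of the cut bonds. -/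
theorem ctc_lb (hcut : CutStmt) {G : Matrix X X ℂ} {κ : X → ℝ} {A Q : Finset X} (hQA : Q ⊆ A)
    (hs : ∀ x y, G x y = G y x) {al al' : X → ℝ} {be be' : ep → ℝ} (hal : ∀ x, 0 ≤ al x)
    (hLB : LB s t (cE G κ A) al be)
    (hab : ∀ f h, ∑ x, cw G κ A Q x * (f x - wm (cw G κ A Q) f) ^ 2 ≤ mor s t al' be' f h) :
    LB s t (cE G κ (A \ Q)) (fun x => (if x ∈ Q then 0 else al x) - al' x)
      (fun e => be e - be' e) := by
  intro f
  set c := wm (cw G κ A Q) f with hc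
  obtain ⟨h, hh⟩ := hLB (fun x => if x ∈ Q then c else f x)
  refine ⟨h, ?_⟩
  rw [cut_eq hcut G κ A Q hQA hs f c] at hh
  rw [mor_sub]
  have h1 := hab f h
  rw [← hc] at h1
  have h2 : mor s t (fun x => if x ∈ Q then 0 else al x) be f h ≤
      mor s t al be (fun x => if x ∈ Q then c else f x) h := by
    unfold mor
    refine add_le_add (Finset.sum_le_sum fun x _ => ?_) le_rfl
    by_cases hx : x ∈ Q
    · simp only [if_pos hx, zero_mul]
      exact mul_nonneg (hal x) (sq_nonneg _)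
    · simp only [if_neg hx]
      exact le_rfl
  linarith

/-- (CTC, upper) the upper bound costs nothing -/
theorem ctc_ub {G : Matrix X X ℂ} {κ : X → ℝ} {A Q : Finset X}
    (hκ : ∀ x ∈ A, 0 ≤ κ x) {al : X → ℝ} {be : ep → ℝ}
    (hUB : UB s t (cE G κ A) al be) :
    UB s t (cE G κ (A \ Q)) (fun x => if x ∈ Q then 0 else al x) be := by
  intro f h
  set f' : X → ℝ := fun x => if x ∈ Q then h x else f x with hf'
  have e1 : cE G κ (A \ Q) f = cE G κ (A \ Q) f' :=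
    cE_congr G κ (A \ Q) 0 fun x hx => by
      rw [hf']
      dsimp only
      rw [if_neg (Finset.mem_sdiff.1 hx).2, sub_self]
  rw [e1]
  refine (cE_mono G κ Finset.sdiff_subset hκ f').trans ((hUB f' h).trans (le_of_eq ?_))
  unfold mor
  congr 1
  refine Finset.sum_congr rfl fun x _ => ?_
  by_cases hx : x ∈ Q
  · simp only [hf', if_pos hx, sub_self, zero_mul]
    simp
  · simp only [hf', if_neg hx]

/-- the weights of the nodes outside of the network may be put equal to zero (upper bound) -/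
theorem ub_off {G : Matrix X X ℂ} {κ : X → ℝ} {A : Finset X} {al : X → ℝ} {be : ep → ℝ}
    (hUB : UB s t (cE G κ A) al be) :
    UB s t (cE G κ A) (fun x => if x ∈ A then al x else 0) be := by
  intro f h
  set f' : X → ℝ := fun x => if x ∈ A then f x else h x with hf'
  have e1 : cE G κ A f = cE G κ A f' :=
    cE_congr G κ A 0 fun x hx => by
      rw [hf']
      dsimp only
      rw [if_pos hx, sub_self]
  rw [e1]
  refine (hUB f' h).trans (le_of_eq ?_)
  unfold mor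
  congr 1
  refine Finset.sum_congr rfl fun x _ => ?_
  by_cases hx : x ∈ A
  · simp only [hf', if_pos hx]
  · simp only [hf', if_neg hx, sub_self, zero_mul]
    simp

/-- (RLB) THE RELEASE as an error in the language of Moreau forms: `hB` is the local form, `hab` the
absorber, `htl` the tail. Then `ler`, `uer` give the new bounds. -/
theorem rel_err (hfrx : FrxStmt) {G G' : Matrix X X ℂ} {κ : X → ℝ} {A B : Finset X}
    (m : X → ℝ) {ε : ℝ} (hs : ∀ x y, G x y = G y x) (hs' : ∀ x y, G' x y = G' y x)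
    (hκ : ∀ x ∈ A, 0 ≤ κ x) (hBA : B ⊆ A) (hε : 0 < ε) (hε1 : ε ≤ 1)
    (hm : ∀ x ∈ B, ∑ y ∈ B, κ y * ‖G x y - G' x y‖ ^ 2 ≤ m x)
    {al₁ al₂ al₃ : X → ℝ} {be₁ be₂ be₃ : ep → ℝ}
    (hB : ∀ f h, cE G κ B f ≤ mor s t al₁ be₁ f h)
    (hab : ∀ f h, ∑ x, (if x ∈ B then κ x * m x else 0) *
      (f x - wm (fun x => if x ∈ B then κ x * m x else 0) f) ^ 2 ≤ mor s t al₂ be₂ f h)
    (htl : ∀ f h, tl G G' κ A B f ≤ mor s t al₃ be₃ f h) (f h : X → ℝ) :
    |cE G' κ A f - cE G κ A f| ≤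
      mor s t (fun x => ε * al₁ x + 4 / ε * al₂ x + al₃ x)
        (fun e => ε * be₁ e + 4 / ε * be₂ e + be₃ e) f h := by
  set a : X → ℝ := fun x => if x ∈ B then κ x * m x else 0 with ha
  have h1 := hfrx X G G' κ A B m f (wm a f) ε hs hs' hκ hBA hε hε1 hm
  have e1 : ∑ x ∈ B, κ x * m x * (f x - wm a f) ^ 2 = ∑ x, a x * (f x - wm a f) ^ 2 := by
    rw [← Finset.sum_subset (Finset.subset_univ B)]
    · refine Finset.sum_congr rfl fun x hx => ?_
      rw [ha]
      dsimp only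
      rw [if_pos hx]
    · intro x _ hx
      rw [ha]
      dsimp only
      rw [if_neg hx, zero_mul]
  rw [e1] at h1
  rw [mor_add s t (fun x => ε * al₁ x + 4 / ε * al₂ x) al₃ (fun e => ε * be₁ e + 4 / ε * be₂ e)
    be₃, mor_add s t (fun x => ε * al₁ x) (fun x => 4 / ε * al₂ x) (fun e => ε * be₁ e)
    (fun e => 4 / ε * be₂ e), mor_smul, mor_smul]
  have h4 : 0 ≤ 4 / ε := by positivity
  have i1 := mul_le_mul_of_nonneg_left (hB f h) hε.le
  have i2 := mul_le_mul_of_nonneg_left (hab f h) h4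
  have i3 := htl f h
  linarith

end Pool.Agent.CTC
end
end -- Pool.Agent.Helper34_CTC.Gen

section -- Pool.Agent.Helper34_CTC.Box

/-!
# The absorber lemma on a dyadic cube of the torus
-/

set_option autoImplicit false
set_option linter.unusedSectionVars false

open scoped BigOperators
open Finset

noncomputable section

namespace Pool.Agent.CTC

open Pool.Agent.LTG

variable {d M : ℕ} [NeZero M] {L : ℕ}

/-- sums over the cube in the two languages -/
theorem sum_cu (g : (Fin d → ℕ) → ℝ) :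
    ∑ u : Fin d → Fin L, g (co u) = ∑ x ∈ NAS.cu d L, g x := by
  refine Finset.sum_bij' (fun u _ => co u)
    (fun x hx i => ⟨x i, (NAS.mem_cu.1 hx) i⟩) ?_ ?_ ?_ ?_ ?_
  · intro u _
    rw [NAS.mem_cu]
    exact fun i => (u i).2
  · intro x _
    exact Finset.mem_univ _
  · intro u _
    rfl
  · intro x _
    rfl
  · intro u _
    rfl

theorem gi_enk (F : (Fin d → ℕ) → ℝ) (k : Fin d) : NAS.gi d L k F = enk L F k := by
  unfold NAS.gi enk
  exact (sum_cu (L := L)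
    (fun x => if x k + 1 < L then (F (x + Pi.single k 1) - F x) ^ 2 else 0)).symm

/-- the energy of the cube and the energy of the bonds inside the box -/
theorem gr_bon (a : Tor d M) (hLM : L ≤ M) (h : Tor d M → ℝ) :
    NAS.gr d L (fun u => h (pt a u)) ≤ bon sT tT (cutE sT tT (Box a L) (fun _ => 1)) h := by
  unfold NAS.gr bon
  rw [Fintype.sum_prod_type]
  refine Finset.sum_le_sum fun k _ => ?_
  rw [gi_enk]
  have h1 : enk L (fun u : Fin d → ℕ => h (pt a u)) k = ∑ x, (if Box a L x then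
      (if off a x k + 1 < L then (h (x + Pi.single k 1) - h x) ^ 2 else 0) else 0) := by
    rw [sum_box a hLM]
    unfold enk
    refine Finset.sum_congr rfl fun u _ => ?_
    rw [off_pt a (co u) k (lt_of_lt_of_le (u k).2 hLM)]
    simp only [pt_add]
    rfl
  rw [h1]
  refine Finset.sum_le_sum fun x _ => ?_
  by_cases hb : Box a L x
  · rw [if_pos hb]
    by_cases hk : off a x k + 1 < L
    · rw [if_pos hk]
      have hb2 : Box a L (x + Pi.single k 1) := by
        intro i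
        rw [off_add]
        by_cases hi : i = k
        · rw [if_pos hi]
          split
          · exact hk
          · omega
        · rw [if_neg hi]; exact hb i
      have : cutE sT tT (Box a L) (fun _ => 1) (k, x) = 1 := by
        unfold cutE
        rw [if_pos ⟨hb, hb2⟩]
      rw [this, one_mul]
      exact le_rfl
    · rw [if_neg hk]
      unfold cutE
      split <;> positivity
  · rw [if_neg hb]
    unfold cutE
    split <;> positivity

/-- the factor of the absorber lemma -/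
def fac (d J : ℕ) (θ T : ℝ) : ℝ := NAS.CS d * (4 ^ J * θ + ((1 / 2 : ℝ) ^ (d - 2)) ^ J * T)

theorem fac_nonneg (d J : ℕ) {θ T : ℝ} (hθ : 0 ≤ θ) (hT : 0 ≤ T) : 0 ≤ fac d J θ T := by
  unfold fac
  have := NAS.CS_nonneg d
  positivity

/-- (BXA) THE ABSORBER LEMMA: the weighted variance of `f` in a dyadic cube. -/
theorem bxa (hd : 3 ≤ d) {k : ℕ} (J : ℕ) (hM : 2 ^ k ≤ M) (a₀ : Tor d M) {a al : Tor d M → ℝ}
    {be : Bd d M → ℝ} {θ T δ b₀ : ℝ} (ha : ∀ x, 0 ≤ a x) (hB : ∀ x, ¬ Box a₀ (2 ^ k) x → a x = 0)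
    (haθ : ∀ x, a x ≤ θ) (haT : ∑ x, a x ≤ T) (hal : ∀ x, a x ≤ δ * al x) (hb₀ : 0 < b₀)
    (hbe : ∀ e, Box a₀ (2 ^ k) (sT e) ∧ Box a₀ (2 ^ k) (tT e) → b₀ ≤ be e)
    (f h : Tor d M → ℝ) :
    ∑ x, a x * (f x - wm a f) ^ 2 ≤ morB sT tT (Box a₀ (2 ^ k)) (fun x => 2 * δ * al x)
      (fun e => 2 * fac d J θ T / b₀ * be e) f h := by
  set L : ℕ := 2 ^ k with hL
  set c : ℝ := NAS.av k (fun u => h (pt a₀ u)) 0 with hc
  have hLM : L ≤ M := hM
  have hT : 0 ≤ T := (Finset.sum_nonneg fun x _ => ha x).trans haT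
  have hθ : 0 ≤ θ := (ha a₀).trans (haθ a₀)
  -- the part with `h`
  have h1 : ∑ x, a x * (h x - c) ^ 2 ≤
      fac d J θ T * bon sT tT (cutE sT tT (Box a₀ L) (fun _ => 1)) h := by
    have e1 : ∑ x, a x * (h x - c) ^ 2 =
        ∑ x, (if Box a₀ L x then a x * (h x - c) ^ 2 else 0) := by
      refine Finset.sum_congr rfl fun x _ => ?_
      by_cases hx : Box a₀ L x
      · rw [if_pos hx]
      · rw [if_neg hx, hB x hx, zero_mul]
    have e2 : ∑ x ∈ NAS.cu d L, a (pt a₀ x) = ∑ x, a x := by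
      have e3 : ∑ x, a x = ∑ x, (if Box a₀ L x then a x else 0) := by
        refine Finset.sum_congr rfl fun x _ => ?_
        by_cases hx : Box a₀ L x
        · rw [if_pos hx]
        · rw [if_neg hx, hB x hx]
      rw [e3, sum_box a₀ hLM, sum_cu (L := L) (fun u => a (pt a₀ u))]
    rw [e1, sum_box a₀ hLM,
      sum_cu (L := L) (fun u => a (pt a₀ u) * (h (pt a₀ u) - c) ^ 2)]
    refine (NAS.sob hd k J (fun u => a (pt a₀ u)) (fun u => h (pt a₀ u)) θ T
      (fun x _ => ha _) (fun x _ => haθ _) (by rw [← hL, e2]; exact haT)).trans ?_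
    exact mul_le_mul_of_nonneg_left (gr_bon a₀ hLM h) (fac_nonneg d J hθ hT)
  -- the bonds
  have h2 : b₀ * bon sT tT (cutE sT tT (Box a₀ L) (fun _ => 1)) h ≤
      bon sT tT (cutE sT tT (Box a₀ L) be) h := by
    unfold bon
    rw [Finset.mul_sum]
    refine Finset.sum_le_sum fun e _ => ?_
    unfold cutE
    by_cases he : Box a₀ L (sT e) ∧ Box a₀ L (tT e)
    · rw [if_pos he, if_pos he, one_mul]
      exact mul_le_mul_of_nonneg_right (hbe e he) (sq_nonneg _)
    · rw [if_neg he, if_neg he]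
      simp
  have h3 : ∑ x, a x * (f x - wm a f) ^ 2 ≤
      2 * ∑ x, a x * (f x - h x) ^ 2 + 2 * ∑ x, a x * (h x - c) ^ 2 := by
    refine (wm_min a f ha c).trans ?_
    rw [Finset.mul_sum, Finset.mul_sum, ← Finset.sum_add_distrib]
    refine Finset.sum_le_sum fun x _ => ?_
    have := mul_nonneg (ha x) (sq_nonneg ((f x - h x) - (h x - c)))
    nlinarith only [this]
  have h4 : ∑ x, a x * (f x - h x) ^ 2 ≤ ∑ x, cutX (Box a₀ L) (fun x => δ * al x) x *
      (f x - h x) ^ 2 := by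
    refine Finset.sum_le_sum fun x _ => ?_
    unfold cutX
    by_cases hx : Box a₀ L x
    · rw [if_pos hx]
      exact mul_le_mul_of_nonneg_right (hal x) (sq_nonneg _)
    · rw [if_neg hx, hB x hx]
  have h5 : fac d J θ T * bon sT tT (cutE sT tT (Box a₀ L) (fun _ => 1)) h ≤
      fac d J θ T / b₀ * bon sT tT (cutE sT tT (Box a₀ L) be) h := by
    rw [div_mul_eq_mul_div, le_div_iff₀ hb₀]
    have := mul_le_mul_of_nonneg_left h2 (fac_nonneg d J hθ hT)
    linarith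
  have e4 : morB sT tT (Box a₀ L) (fun x => 2 * δ * al x)
      (fun e => 2 * fac d J θ T / b₀ * be e) f h =
      2 * ∑ x, cutX (Box a₀ L) (fun x => δ * al x) x * (f x - h x) ^ 2 +
        2 * (fac d J θ T / b₀ * bon sT tT (cutE sT tT (Box a₀ L) be) h) := by
    unfold morB mor bon cutX cutE
    rw [Finset.mul_sum, Finset.mul_sum, Finset.mul_sum]
    refine congrArg₂ _ (Finset.sum_congr rfl fun x _ => ?_) (Finset.sum_congr rfl fun e _ => ?_)
    · split <;> ring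
    · split <;> ring
  rw [e4]
  linarith

/-- the local form: `B` is inside the core of the box -/
theorem loc_form {G : Matrix (Tor d M) (Tor d M) ℂ} {κ : Tor d M → ℝ} {A B : Finset (Tor d M)}
    (a₀ : Tor d M) {R : ℕ} (hL : 0 < L) (hLM : L ≤ M) (hR : 0 < R) (hBA : B ⊆ A)
    (hκ : ∀ x ∈ A, 0 ≤ κ x) (hB : ∀ x ∈ B, Core a₀ L R x) {al : Tor d M → ℝ} {be : Bd d M → ℝ}
    {b₀ b₁ : ℝ} (hb₀ : 0 < b₀) (hb₁ : 0 ≤ b₁) (ha : ∀ x, 0 ≤ al x)
    (hbe : ∀ e, Box a₀ L (sT e) ∧ Box a₀ L (tT e) → b₀ ≤ be e ∧ be e ≤ b₁)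
    (hU : UB sT tT (ANR.cE G κ A) al be) (f h : Tor d M → ℝ) :
    ANR.cE G κ B f ≤ (2 + 2 * (d : ℝ) ^ 2 * ((L : ℝ) / R) ^ 2 * (b₁ / b₀)) *
      morB sT tT (Box a₀ L) al be f h := by
  have h0 : ∀ f, 0 ≤ ANR.cE G κ B f := cE_nonneg G κ fun x hx => hκ x (hBA hx)
  have h1 := ltgT a₀ hL hLM hR hb₀ hb₁ ha hbe hU (n := 1) zero_le_one
    (D := ANR.cE G κ B) (fun f _ => by
      rw [abs_of_nonneg (h0 f), one_mul]
      exact cE_mono G κ hBA hκ f)
    (fun f g c hc => cE_congr G κ B c fun x hx => hc x (hB x hx)) f h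
  rw [abs_of_nonneg (h0 f), one_mul] at h1
  exact h1

end Pool.Agent.CTC
end
end -- Pool.Agent.Helper34_CTC.Box

section -- Pool.Agent.Helper34_CTC.Tai

/-!
# Tails on the torus, uniformly in the size of the torus

A pair form `∑ w_xy (f x - f y)²` with exponentially small weights is bounded by a Moreau expression
with exponentially small weights.
-/

set_option autoImplicit false
set_option linter.unusedSectionVars false

open scoped BigOperators
open Finset

noncomputable section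

namespace Pool.Agent.CTC

open Pool.Agent.LTG Pool.Agent.ANP.H61

variable {d M : ℕ} [NeZero M]

/-- the `ℓ¹` distance of the torus -/
def l1 (x y : Tor d M) : ℕ := ∑ i, cd (x i) (y i)

theorem l1_self (x : Tor d M) : l1 x x = 0 := by
  unfold l1
  simp [cd_self]

theorem l1_comm (x y : Tor d M) : l1 x y = l1 y x := by
  unfold l1
  exact Finset.sum_congr rfl fun i _ => cd_comm _ _

theorem l1_tri (x y z : Tor d M) : l1 x z ≤ l1 x y + l1 y z := by
  unfold l1
  rw [← Finset.sum_add_distrib]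
  exact Finset.sum_le_sum fun i _ => cd_tri _ _ _

theorem sd_le_l1 (x y : Tor d M) : sd x y ≤ l1 x y := by
  rw [sd_le]
  intro i
  unfold l1
  exact Finset.single_le_sum (f := fun i => cd (x i) (y i)) (fun _ _ => Nat.zero_le _)
    (Finset.mem_univ i)

theorem l1_le_sd (x y : Tor d M) : l1 x y ≤ d * sd x y := by
  unfold l1
  refine (Finset.sum_le_sum fun i _ => le_sd x y i).trans (le_of_eq ?_)
  rw [Finset.sum_const, Finset.card_univ, Fintype.card_fin, smul_eq_mul]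

theorem cd_zero {a b : ZMod M} (h : cd a b = 0) : a = b := by
  unfold cd at h
  rw [Int.natAbs_eq_zero, ZMod.valMinAbs_eq_zero] at h
  exact sub_eq_zero.1 h

theorem l1_zero {x y : Tor d M} (h : l1 x y = 0) : x = y := by
  unfold l1 at h
  rw [Finset.sum_eq_zero_iff] at h
  funext i
  exact cd_zero (h i (Finset.mem_univ i))

/-- one step towards `b` -/
theorem cd_step {a b : ZMod M} (h : 0 < cd a b) :
    cd (a + 1) b + 1 = cd a b ∨ cd (a - 1) b + 1 = cd a b := by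
  obtain ⟨k, hk, hk2⟩ := exists_int a b
  have hk0 : k ≠ 0 := by
    intro h0
    rw [h0] at hk2
    simp at hk2
    omega
  rcases lt_or_gt_of_ne hk0 with h1 | h1
  · left
    have e : a + 1 - b = ((k + 1 : ℤ) : ZMod M) := by
      push_cast
      rw [← hk]
      ring
    have h2 := cd_le (a + 1) b (k + 1) e
    have h3 : (k + 1).natAbs + 1 = k.natAbs := by omega
    have h4 := cd_tri a (a + 1) b
    have h5 : cd a (a + 1) ≤ 1 := by
      have := cd_le a (a + 1) (-1) (by push_cast; ring)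
      simpa using this
    omega
  · right
    have e : a - 1 - b = ((k - 1 : ℤ) : ZMod M) := by
      push_cast
      rw [← hk]
      ring
    have h2 := cd_le (a - 1) b (k - 1) e
    have h3 : (k - 1).natAbs + 1 = k.natAbs := by omega
    have h4 := cd_tri a (a - 1) b
    have h5 : cd a (a - 1) ≤ 1 := by
      have := cd_le a (a - 1) 1 (by push_cast; ring)
      simpa using this
    omega

theorem l1_upd (x y : Tor d M) (i : Fin d) (v : ZMod M) :
    l1 (Function.update x i v) y + cd (x i) (y i) = l1 x y + cd v (y i) := by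
  unfold l1
  rw [← Finset.add_sum_erase _ _ (Finset.mem_univ i),
    ← Finset.add_sum_erase _ (fun j => cd (x j) (y j)) (Finset.mem_univ i)]
  have : ∑ j ∈ Finset.univ.erase i, cd (Function.update x i v j) (y j) =
      ∑ j ∈ Finset.univ.erase i, cd (x j) (y j) := by
    refine Finset.sum_congr rfl fun j hj => ?_
    rw [Function.update_of_ne (Finset.ne_of_mem_erase hj)]
  rw [this, Function.update_self]
  ring

/-- the bond `e` is within distance `n` of `x` and of `y` -/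
def Nr (n : ℕ) (x y : Tor d M) (e : Bd d M) : Prop :=
  l1 x (sT e) ≤ n ∧ l1 y (sT e) ≤ n

/-- a step along a bond -/
theorem step_bond (x : Tor d M) (i : Fin d) (v : ZMod M) (hv : v = x i + 1 ∨ v = x i - 1) :
    ∃ e : Bd d M, (∀ h : Tor d M → ℝ, |h x - h (Function.update x i v)| = |h (tT e) - h (sT e)|) ∧
      (sT e = x ∨ sT e = Function.update x i v) := by
  rcases hv with hv | hv
  · refine ⟨(i, x), fun h => ?_, Or.inl rfl⟩
    have e1 : tT (i, x) = Function.update x i v := by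
      funext j
      unfold tT
      by_cases hj : j = i
      · subst hj; simp [hv]
      · simp [Function.update_of_ne hj, Pi.single_eq_of_ne hj]
    rw [e1, abs_sub_comm]
    rfl
  · refine ⟨(i, Function.update x i v), fun h => ?_, Or.inr rfl⟩
    have e1 : tT (i, Function.update x i v) = x := by
      funext j
      unfold tT
      by_cases hj : j = i
      · subst hj; simp [hv]
      · simp [Function.update_of_ne hj, Pi.single_eq_of_ne hj]
    rw [e1]
    rfl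

/-- PATHS -/
theorem path (n : ℕ) : ∀ x y : Tor d M, l1 x y = n → ∃ P : List (Bd d M), P.length ≤ n ∧
    (∀ e ∈ P, Nr n x y e) ∧
    ∀ h : Tor d M → ℝ, |h x - h y| ≤ (P.map fun e => |h (tT e) - h (sT e)|).sum := by
  induction n with
  | zero =>
    intro x y hxy
    have := l1_zero hxy
    subst this
    exact ⟨[], le_rfl, by simp, fun h => by simp⟩
  | succ n ih =>
    intro x y hxy
    have hex : ∃ i, 0 < cd (x i) (y i) := by
      by_contra hc
      push Not at hc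
      have : l1 x y = 0 := by
        unfold l1
        exact Finset.sum_eq_zero fun i _ => Nat.le_zero.1 (hc i)
      omega
    obtain ⟨i, hi⟩ := hex
    have hv : ∃ v, (v = x i + 1 ∨ v = x i - 1) ∧ cd v (y i) + 1 = cd (x i) (y i) := by
      rcases cd_step hi with h | h
      · exact ⟨_, Or.inl rfl, h⟩
      · exact ⟨_, Or.inr rfl, h⟩
    obtain ⟨v, hv1, hv2⟩ := hv
    set x' := Function.update x i v with hx'
    have hup := l1_upd x y i v
    rw [← hx'] at hup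
    have hl : l1 x' y = n := by omega
    obtain ⟨P, hP1, hP2, hP3⟩ := ih x' y hl
    obtain ⟨e, he1, he2⟩ := step_bond x i v hv1
    have hcd : cd (x i) v ≤ 1 := by
      rcases hv1 with h | h
      · have := cd_le (x i) v (-1) (by rw [h]; push_cast; ring)
        simpa using this
      · have := cd_le (x i) v 1 (by rw [h]; push_cast; ring)
        simpa using this
    have hxx : l1 x x' ≤ 1 := by
      have h1 := l1_upd x x i v
      rw [← hx', l1_self, cd_self, cd_comm v] at h1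
      rw [l1_comm]
      omega
    refine ⟨e :: P, by simpa using hP1, ?_, fun h => ?_⟩
    · intro e' he'
      rcases List.mem_cons.1 he' with h | h
      · subst h
        rcases he2 with h | h
        · rw [← hx'] at *
          refine ⟨by rw [h, l1_self]; omega, by rw [h, l1_comm]; omega⟩
        · rw [← hx'] at h
          refine ⟨by rw [h]; omega, by rw [h, l1_comm]; omega⟩
      · obtain ⟨h1, h2⟩ := hP2 e' h
        exact ⟨by have := l1_tri x x' (sT e'); omega, by omega⟩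
    · rw [List.map_cons, List.sum_cons, ← he1 h, ← hx']
      have := hP3 h
      have h2 : h x - h y = (h x - h x') + (h x' - h y) := by ring
      rw [h2]
      exact (abs_add_le _ _).trans (by linarith)

theorem list_sum_le (P : List (Bd d M)) (n : ℕ) (hn : P.length ≤ n) (S : Bd d M → Prop)
    [DecidablePred S] (hS : ∀ e ∈ P, S e) (g : Bd d M → ℝ) (hg : ∀ e, 0 ≤ g e) :
    (P.map g).sum ^ 2 ≤ (n : ℝ) ^ 2 * ∑ e, (if S e then g e ^ 2 else 0) := by
  have h0 : ∀ e, 0 ≤ (if S e then g e ^ 2 else 0) := fun e => by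
    split
    · exact sq_nonneg _
    · exact le_rfl
  set m : ℝ := Real.sqrt (∑ e, (if S e then g e ^ 2 else 0)) with hm
  have h1 : ∀ e ∈ P, g e ≤ m := by
    intro e he
    rw [hm]
    refine Real.le_sqrt_of_sq_le ?_
    have := Finset.single_le_sum (fun e _ => h0 e) (Finset.mem_univ e)
    rw [if_pos (hS e he)] at this
    exact this
  have h2 : (P.map g).sum ≤ n * m := by
    have h3 : (P.map g).sum ≤ (P.map fun _ => m).sum := List.sum_le_sum h1
    rw [List.map_const', List.sum_replicate, nsmul_eq_mul] at h3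
    refine h3.trans ?_
    have : (P.length : ℝ) ≤ n := by exact_mod_cast hn
    exact mul_le_mul_of_nonneg_right this (Real.sqrt_nonneg _)
  have h3 : 0 ≤ (P.map g).sum := List.sum_nonneg (by
    intro x hx
    obtain ⟨e, _, rfl⟩ := List.mem_map.1 hx
    exact hg e)
  calc (P.map g).sum ^ 2 ≤ (n * m) ^ 2 := pow_le_pow_left₀ h3 h2 2
    _ = (n : ℝ) ^ 2 * ∑ e, (if S e then g e ^ 2 else 0) := by
      rw [mul_pow, hm, Real.sq_sqrt (Finset.sum_nonneg fun e _ => h0 e)]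

/-- the difference of two values by the bonds near the two points -/
theorem diff_sq (x y : Tor d M) (h : Tor d M → ℝ) :
    (h x - h y) ^ 2 ≤ (l1 x y : ℝ) ^ 2 *
      ∑ e, (if l1 x (sT e) ≤ l1 x y ∧ l1 y (sT e) ≤ l1 x y then (h (tT e) - h (sT e)) ^ 2
        else 0) := by
  obtain ⟨P, hP1, hP2, hP3⟩ := path (l1 x y) x y rfl
  have h1 := list_sum_le P (l1 x y) hP1 (fun e => l1 x (sT e) ≤ l1 x y ∧ l1 y (sT e) ≤ l1 x y)
    hP2 (fun e => |h (tT e) - h (sT e)|) (fun e => abs_nonneg _)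
  simp only [sq_abs] at h1
  refine le_trans ?_ h1
  rw [← sq_abs]
  exact pow_le_pow_left₀ (abs_nonneg _) (hP3 h) 2

/-- (TLP) a pair form with any weights -/
theorem tlp (w : Tor d M → Tor d M → ℝ) (hw : ∀ x y, 0 ≤ w x y) (f h : Tor d M → ℝ) :
    ∑ x, ∑ y, w x y * (f x - f y) ^ 2 ≤
      mor sT tT (fun x => 3 * ∑ y, (w x y + w y x))
        (fun e => 3 * ∑ x, ∑ y, (if l1 x (sT e) ≤ l1 x y ∧ l1 y (sT e) ≤ l1 x y then
          w x y * (l1 x y : ℝ) ^ 2 else 0)) f h := by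
  have h1 : ∀ x y, w x y * (f x - f y) ^ 2 ≤ 3 * (w x y * (f x - h x) ^ 2) +
      3 * (w x y * (f y - h y) ^ 2) + 3 * (w x y * (h x - h y) ^ 2) := by
    intro x y
    have h2 : (f x - f y) ^ 2 ≤ 3 * (f x - h x) ^ 2 + 3 * (f y - h y) ^ 2 +
        3 * (h x - h y) ^ 2 := by
      nlinarith [sq_nonneg ((f x - h x) + (f y - h y)), sq_nonneg ((f x - h x) - (h x - h y)),
        sq_nonneg ((f y - h y) + (h x - h y))]
    have := mul_le_mul_of_nonneg_left h2 (hw x y)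
    linarith
  have e1 : ∑ x, ∑ y, w x y * (f x - h x) ^ 2 = ∑ x, (∑ y, w x y) * (f x - h x) ^ 2 :=
    Finset.sum_congr rfl fun x _ => by rw [Finset.sum_mul]
  have e2 : ∑ x, ∑ y, w x y * (f y - h y) ^ 2 = ∑ x, (∑ y, w y x) * (f x - h x) ^ 2 := by
    rw [Finset.sum_comm]
    exact Finset.sum_congr rfl fun x _ => by rw [Finset.sum_mul]
  have h3 : ∑ x, ∑ y, w x y * (h x - h y) ^ 2 ≤
      ∑ e, (∑ x, ∑ y, (if l1 x (sT e) ≤ l1 x y ∧ l1 y (sT e) ≤ l1 x y then
          w x y * (l1 x y : ℝ) ^ 2 else 0)) * (h (tT e) - h (sT e)) ^ 2 := by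
    have e3 : ∑ e : Bd d M, (∑ x, ∑ y, (if l1 x (sT e) ≤ l1 x y ∧ l1 y (sT e) ≤ l1 x y then
          w x y * (l1 x y : ℝ) ^ 2 else 0)) * (h (tT e) - h (sT e)) ^ 2 =
        ∑ x, ∑ y, ∑ e : Bd d M, (if l1 x (sT e) ≤ l1 x y ∧ l1 y (sT e) ≤ l1 x y then
          w x y * (l1 x y : ℝ) ^ 2 else 0) * (h (tT e) - h (sT e)) ^ 2 := by
      simp only [Finset.sum_mul]
      rw [Finset.sum_comm]
      refine Finset.sum_congr rfl fun x _ => ?_
      rw [Finset.sum_comm]
    rw [e3]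
    refine Finset.sum_le_sum fun x _ => Finset.sum_le_sum fun y _ => ?_
    refine (mul_le_mul_of_nonneg_left (diff_sq x y h) (hw x y)).trans (le_of_eq ?_)
    rw [← mul_assoc, Finset.mul_sum]
    refine Finset.sum_congr rfl fun e _ => ?_
    split
    · rfl
    · simp
  calc ∑ x, ∑ y, w x y * (f x - f y) ^ 2
      ≤ ∑ x, ∑ y, (3 * (w x y * (f x - h x) ^ 2) + 3 * (w x y * (f y - h y) ^ 2) +
        3 * (w x y * (h x - h y) ^ 2)) :=
        Finset.sum_le_sum fun x _ => Finset.sum_le_sum fun y _ => h1 x y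
    _ = 3 * ∑ x, ∑ y, w x y * (f x - h x) ^ 2 + 3 * ∑ x, ∑ y, w x y * (f y - h y) ^ 2 +
        3 * ∑ x, ∑ y, w x y * (h x - h y) ^ 2 := by
      simp only [Finset.sum_add_distrib, Finset.mul_sum]
    _ ≤ _ := by
      rw [e1, e2]
      unfold mor bon
      have e5 : ∑ x, 3 * (∑ y, (w x y + w y x)) * (f x - h x) ^ 2 =
          3 * ∑ x, (∑ y, w x y) * (f x - h x) ^ 2 + 3 * ∑ x, (∑ y, w y x) * (f x - h x) ^ 2 := by
        rw [Finset.mul_sum, Finset.mul_sum, ← Finset.sum_add_distrib]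
        refine Finset.sum_congr rfl fun x _ => ?_
        rw [Finset.sum_add_distrib]
        ring
      rw [e5]
      have e6 : ∀ e : Bd d M, 3 * (∑ x, ∑ y, (if l1 x (sT e) ≤ l1 x y ∧ l1 y (sT e) ≤ l1 x y then
          w x y * (l1 x y : ℝ) ^ 2 else 0)) * (h (tT e) - h (sT e)) ^ 2 =
          3 * ((∑ x, ∑ y, (if l1 x (sT e) ≤ l1 x y ∧ l1 y (sT e) ≤ l1 x y then
          w x y * (l1 x y : ℝ) ^ 2 else 0)) * (h (tT e) - h (sT e)) ^ 2) := fun e => by ring
      simp only [e6, ← Finset.mul_sum]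
      linarith

end Pool.Agent.CTC
end
end -- Pool.Agent.Helper34_CTC.Tai

section -- Pool.Agent.Helper34_CTC.Tlt

/-!
# Tails on the torus: exponential weights
-/

set_option autoImplicit false
set_option linter.unusedSectionVars false

open scoped BigOperators
open Finset

noncomputable section

namespace Pool.Agent.CTC

open Pool.Agent.LTG Pool.Agent.ANP.H61

variable {d M : ℕ} [NeZero M]

theorem fiber_cd (b : ZMod M) (n : ℕ) : ({a | cd a b = n} : Finset (ZMod M)).card ≤ 2 := by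
  have hsub : ({a | cd a b = n} : Finset (ZMod M)) ⊆ {b + (n : ZMod M), b - (n : ZMod M)} := by
    intro a ha
    rw [Finset.mem_filter] at ha
    obtain ⟨k, hk, hk2⟩ := exists_int a b
    rw [ha.2] at hk2
    rw [Finset.mem_insert, Finset.mem_singleton]
    rcases Int.natAbs_eq k with h | h
    · left
      rw [hk2] at h
      rw [h] at hk
      push_cast at hk
      rw [← hk]
      ring
    · right
      rw [hk2] at h
      rw [h] at hk
      push_cast at hk
      have : a = b + (a - b) := by ring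
      rw [this, hk]
      ring
  exact (Finset.card_le_card hsub).trans Finset.card_le_two

theorem one_sub_exp {γ : ℝ} (h0 : 0 < γ) (h1 : γ ≤ 1) : γ / 2 ≤ 1 - Real.exp (-γ) := by
  have h := Real.add_one_le_exp γ
  have h2 : Real.exp (-γ) * Real.exp γ = 1 := by rw [← Real.exp_add]; simp
  have h3 : 0 < Real.exp (-γ) := Real.exp_pos _
  nlinarith only [mul_le_mul_of_nonneg_left h h3.le, h0, h1, h2]

theorem geo_exp {γ : ℝ} (h0 : 0 < γ) (h1 : γ ≤ 1) (N : ℕ) :
    ∑ n ∈ Finset.range N, Real.exp (-(γ * n)) ≤ 2 / γ := by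
  have hr0 : 0 < Real.exp (-γ) := Real.exp_pos _
  have hr1 : Real.exp (-γ) < 1 := by
    rw [Real.exp_lt_one_iff]
    linarith
  have e : ∀ n : ℕ, Real.exp (-(γ * n)) = Real.exp (-γ) ^ n := fun n => by
    rw [← Real.exp_nat_mul]
    congr 1
    ring
  simp only [e]
  have h2 : ∑ n ∈ Finset.range N, Real.exp (-γ) ^ n ≤ 1 / (1 - Real.exp (-γ)) := by
    rw [geom_sum_eq hr1.ne, ← neg_div_neg_eq, neg_sub, neg_sub]
    have h3 : 0 < 1 - Real.exp (-γ) := by linarith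
    gcongr
    linarith [pow_pos hr0 N]
  have h3 := one_sub_exp h0 h1
  refine h2.trans ?_
  rw [div_le_div_iff₀ (by linarith only [hr1]) h0]
  linarith only [h3]

theorem sum_cd {γ : ℝ} (h0 : 0 < γ) (h1 : γ ≤ 1) (b : ZMod M) :
    ∑ a : ZMod M, Real.exp (-(γ * cd a b)) ≤ 4 / γ := by
  have hlt : ∀ a ∈ (Finset.univ : Finset (ZMod M)), cd a b ∈ Finset.range (M + 1) := by
    intro a _
    rw [Finset.mem_range]
    have : cd a b ≤ M / 2 := ZMod.natAbs_valMinAbs_le _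
    omega
  rw [← Finset.sum_fiberwise_of_maps_to hlt]
  have h2 : ∀ n ∈ Finset.range (M + 1), ∑ a ∈ (Finset.univ : Finset (ZMod M)) with cd a b = n,
      Real.exp (-(γ * cd a b)) ≤ 2 * Real.exp (-(γ * n)) := by
    intro n _
    have e : ∑ a ∈ (Finset.univ : Finset (ZMod M)) with cd a b = n, Real.exp (-(γ * cd a b)) =
        ∑ a ∈ (Finset.univ : Finset (ZMod M)) with cd a b = n, Real.exp (-(γ * n)) :=
      Finset.sum_congr rfl fun a ha => by rw [(Finset.mem_filter.1 ha).2]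
    rw [e, Finset.sum_const, nsmul_eq_mul]
    have : (({a | cd a b = n} : Finset (ZMod M)).card : ℝ) ≤ 2 := by
      exact_mod_cast fiber_cd b n
    exact mul_le_mul_of_nonneg_right this (Real.exp_pos _).le
  refine (Finset.sum_le_sum h2).trans ?_
  rw [← Finset.mul_sum]
  have := geo_exp h0 h1 (M + 1)
  have e : (4 : ℝ) / γ = 2 * (2 / γ) := by ring
  rw [e]
  linarith only [this]

theorem sum_l1 {γ : ℝ} (h0 : 0 < γ) (h1 : γ ≤ 1) (b : Tor d M) :
    ∑ x : Tor d M, Real.exp (-(γ * l1 x b)) ≤ (4 / γ) ^ d := by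
  have e : ∀ x : Tor d M, Real.exp (-(γ * l1 x b)) = ∏ i, Real.exp (-(γ * cd (x i) (b i))) := by
    intro x
    rw [← Real.exp_sum]
    congr 1
    unfold l1
    push_cast
    rw [Finset.mul_sum, Finset.sum_neg_distrib]
  simp only [e]
  have h2 := Finset.prod_univ_sum (fun _ : Fin d => (Finset.univ : Finset (ZMod M)))
    (fun i a => Real.exp (-(γ * cd a (b i))))
  rw [Fintype.piFinset_univ] at h2
  rw [← h2]
  calc ∏ i : Fin d, ∑ a : ZMod M, Real.exp (-(γ * cd a (b i))) ≤ ∏ _i : Fin d, (4 / γ) := by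
        refine Finset.prod_le_prod (fun i _ => Finset.sum_nonneg fun a _ => (Real.exp_pos _).le)
          fun i _ => sum_cd h0 h1 (b i)
    _ = (4 / γ) ^ d := by rw [Finset.prod_const, Finset.card_univ, Fintype.card_fin]

/-- the constant of the tail lemma -/
def CT (d : ℕ) (c : ℝ) : ℝ := 96 / (c / d) ^ 2 * (16 / (c / d)) ^ (2 * d)

theorem sq_exp {t : ℝ} (ht : 0 ≤ t) : t ^ 2 ≤ 2 * Real.exp t := by
  have := Real.quadratic_le_exp_of_nonneg ht
  nlinarith only [ht, this]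

theorem pw_bound {W γ S l T : ℝ} (hW : 0 ≤ W) (hγ : 0 < γ) (hS : 0 ≤ S) (hl : l ≤ 2 * S)
    (hT0 : 0 ≤ T) (hT : T ≤ S) : W * Real.exp (-(γ * S)) * T ^ 2 ≤
      W * (32 / γ ^ 2) * Real.exp (-(γ / 4 * l)) * Real.exp (-(γ / 4 * S)) := by
  have h1 : T ^ 2 ≤ S ^ 2 := pow_le_pow_left₀ hT0 hT 2
  have h2 : S ^ 2 ≤ 32 / γ ^ 2 * Real.exp (γ / 4 * S) := by
    have h3 := sq_exp (t := γ / 4 * S) (by positivity)
    have h4 : (γ / 4 * S) ^ 2 = γ ^ 2 * S ^ 2 / 16 := by ring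
    rw [h4] at h3
    rw [div_mul_eq_mul_div, le_div_iff₀ (by positivity)]
    linarith only [h3]
  have h5 : Real.exp (-(γ * S)) * Real.exp (γ / 4 * S) ≤
      Real.exp (-(γ / 4 * l)) * Real.exp (-(γ / 4 * S)) := by
    rw [← Real.exp_add, ← Real.exp_add]
    apply Real.exp_le_exp.2
    nlinarith only [hγ, hl]
  calc W * Real.exp (-(γ * S)) * T ^ 2
      ≤ W * Real.exp (-(γ * S)) * (32 / γ ^ 2 * Real.exp (γ / 4 * S)) := by
        refine mul_le_mul_of_nonneg_left (h1.trans h2) (mul_nonneg hW (Real.exp_pos _).le)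
    _ = W * (32 / γ ^ 2) * (Real.exp (-(γ * S)) * Real.exp (γ / 4 * S)) := by ring
    _ ≤ W * (32 / γ ^ 2) * (Real.exp (-(γ / 4 * l)) * Real.exp (-(γ / 4 * S))) :=
        mul_le_mul_of_nonneg_left h5 (by positivity)
    _ = _ := by ring

/-- (TLT) TAILS. Pair weights on the nodes `A` which decay away from the site `b`. -/
theorem tlt (hd : 0 < d) (b : Tor d M) (A : Finset (Tor d M)) (w : Tor d M → Tor d M → ℝ)
    {W c : ℝ} (hW : 0 ≤ W) (hc : 0 < c) (hc1 : c ≤ 1) (hw : ∀ x y, 0 ≤ w x y)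
    (hwA : ∀ x y, ¬ (x ∈ A ∧ y ∈ A) → w x y = 0)
    (hwW : ∀ x y, w x y ≤ W * Real.exp (-(c * (sd x b + sd y b)))) (f h : Tor d M → ℝ) :
    ∑ x, ∑ y, w x y * (f x - f y) ^ 2 ≤
      mor sT tT (fun x => if x ∈ A then CT d c * W * Real.exp (-(c / (4 * d) * sd x b)) else 0)
        (fun e => CT d c * W * Real.exp (-(c / (4 * d) * sd (sT e) b))) f h := by
  have hd' : (0 : ℝ) < d := by exact_mod_cast hd
  have hd1 : (1 : ℝ) ≤ d := by exact_mod_cast hd
  set γ : ℝ := c / d with hγ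
  have hγ0 : 0 < γ := by positivity
  have hγ1 : γ ≤ 1 := by
    rw [hγ, div_le_one hd']
    linarith only [hc1, hd1]
  have hcd : c / (4 * d) = γ / 4 := by rw [hγ]; field_simp
  have hγd : c = γ * d := by rw [hγ]; field_simp
  -- the weights in the `ℓ¹` distance
  have hl : ∀ x y, w x y ≤ W * Real.exp (-(γ * ((l1 x b : ℝ) + l1 y b))) := by
    intro x y
    refine (hwW x y).trans (mul_le_mul_of_nonneg_left (Real.exp_le_exp.2 ?_) hW)
    have h1 : (l1 x b : ℝ) ≤ d * sd x b := by exact_mod_cast l1_le_sd x b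
    have h2 : (l1 y b : ℝ) ≤ d * sd y b := by exact_mod_cast l1_le_sd y b
    rw [hγd]
    nlinarith only [hγ0, h1, h2]
  have hS4 : ∑ x : Tor d M, Real.exp (-(γ / 4 * l1 x b)) ≤ (16 / γ) ^ d := by
    refine (sum_l1 (by positivity) (by linarith only [hγ1]) b).trans (le_of_eq ?_)
    congr 1
    field_simp
    ring
  have hS1 : ∑ x : Tor d M, Real.exp (-(γ * l1 x b)) ≤ (4 / γ) ^ d := sum_l1 hγ0 hγ1 b
  have hCT : CT d c = 96 / γ ^ 2 * (16 / γ) ^ (2 * d) := rfl
  have h16 : 1 ≤ 16 / γ := by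
    rw [le_div_iff₀ hγ0]
    linarith only [hγ1]
  refine (tlp w hw f h).trans (mor_mono sT tT (fun x => ?_) (fun e => ?_) f h)
  · -- nodes
    by_cases hx : x ∈ A
    · rw [if_pos hx, hcd]
      have h1 : ∑ y, (w x y + w y x) ≤ 2 * (W * Real.exp (-(γ * l1 x b)) * (4 / γ) ^ d) := by
        have h2 : ∀ y, w x y + w y x ≤ 2 * (W * Real.exp (-(γ * l1 x b)) *
            Real.exp (-(γ * l1 y b))) := by
          intro y
          have h3 := hl x y
          have h4 := hl y x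
          have e1 : Real.exp (-(γ * ((l1 x b : ℝ) + l1 y b))) =
              Real.exp (-(γ * l1 x b)) * Real.exp (-(γ * l1 y b)) := by
            rw [← Real.exp_add]
            congr 1
            ring
          have e2 : Real.exp (-(γ * ((l1 y b : ℝ) + l1 x b))) =
              Real.exp (-(γ * l1 x b)) * Real.exp (-(γ * l1 y b)) := by
            rw [← Real.exp_add]
            congr 1
            ring
          rw [e1] at h3
          rw [e2] at h4
          linarith only [h3, h4]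
        refine (Finset.sum_le_sum fun y _ => h2 y).trans ?_
        rw [← Finset.mul_sum, ← Finset.mul_sum]
        have h5 : 0 ≤ W * Real.exp (-(γ * l1 x b)) := mul_nonneg hW (Real.exp_pos _).le
        exact mul_le_mul_of_nonneg_left (mul_le_mul_of_nonneg_left hS1 h5) (by norm_num)
      have h6 : Real.exp (-(γ * l1 x b)) ≤ Real.exp (-(γ / 4 * sd x b)) := by
        apply Real.exp_le_exp.2
        have h7 : (sd x b : ℝ) ≤ l1 x b := by exact_mod_cast sd_le_l1 x b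
        have h8 : (0 : ℝ) ≤ sd x b := Nat.cast_nonneg _
        nlinarith only [hc, hd', hγd, h7]
      have h9 : 6 * (4 / γ) ^ d ≤ CT d c := by
        rw [hCT]
        have i1 : (6 : ℝ) ≤ 96 / γ ^ 2 := by
          rw [le_div_iff₀ (by positivity)]
          nlinarith only [hγ0, hγ1]
        have i2 : (4 / γ) ^ d ≤ (16 / γ) ^ (2 * d) := by
          calc (4 / γ) ^ d ≤ (16 / γ) ^ d := by gcongr; norm_num
            _ ≤ (16 / γ) ^ (2 * d) := pow_le_pow_right₀ h16 (by omega)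
        exact mul_le_mul i1 i2 (by positivity) (by positivity)
      calc 3 * ∑ y, (w x y + w y x) ≤ 3 * (2 * (W * Real.exp (-(γ * l1 x b)) * (4 / γ) ^ d)) := by
            linarith
        _ = 6 * (4 / γ) ^ d * W * Real.exp (-(γ * l1 x b)) := by ring
        _ ≤ CT d c * W * Real.exp (-(γ / 4 * sd x b)) := by
            refine mul_le_mul (mul_le_mul_of_nonneg_right h9 hW) h6 (Real.exp_pos _).le ?_
            exact mul_nonneg ((by positivity : (0 : ℝ) ≤ 6 * (4 / γ) ^ d).trans h9) hW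
    · rw [if_neg hx]
      have : ∑ y, (w x y + w y x) = 0 := Finset.sum_eq_zero fun y _ => by
        rw [hwA x y (fun h => hx h.1), hwA y x (fun h => hx h.2), add_zero]
      rw [this, mul_zero]
  · -- bonds
    rw [hcd]
    set K : ℝ := W * (32 / γ ^ 2) * Real.exp (-(γ / 4 * l1 (sT e) b)) with hK
    have hK0 : 0 ≤ K := by positivity
    have h1 : ∀ x y, (if l1 x (sT e) ≤ l1 x y ∧ l1 y (sT e) ≤ l1 x y then
        w x y * (l1 x y : ℝ) ^ 2 else 0) ≤
        K * (Real.exp (-(γ / 4 * l1 x b)) * Real.exp (-(γ / 4 * l1 y b))) := by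
      intro x y
      split
      · rename_i hxy
        have t1 : l1 x y ≤ l1 x b + l1 y b := by
          have := l1_tri x b y
          rwa [l1_comm b y] at this
        have t2 : l1 (sT e) b ≤ 2 * (l1 x b + l1 y b) := by
          have h2 := l1_tri (sT e) x b
          rw [l1_comm (sT e) x] at h2
          omega
        have t1' : (l1 x y : ℝ) ≤ (l1 x b : ℝ) + l1 y b := by exact_mod_cast t1
        have t2' : (l1 (sT e) b : ℝ) ≤ 2 * ((l1 x b : ℝ) + l1 y b) := by exact_mod_cast t2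
        have h3 := pw_bound hW hγ0 (S := (l1 x b : ℝ) + l1 y b) (by positivity) t2'
          (Nat.cast_nonneg _) t1'
        refine (mul_le_mul_of_nonneg_right (hl x y) (sq_nonneg _)).trans (h3.trans (le_of_eq ?_))
        rw [hK, ← Real.exp_add (-(γ / 4 * (l1 x b : ℝ)))]
        congr 2
        ring
      · positivity
    have h2 : ∑ x, ∑ y, (if l1 x (sT e) ≤ l1 x y ∧ l1 y (sT e) ≤ l1 x y then
        w x y * (l1 x y : ℝ) ^ 2 else 0) ≤ K * (16 / γ) ^ (2 * d) := by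
      refine (Finset.sum_le_sum fun x _ => Finset.sum_le_sum fun y _ => h1 x y).trans ?_
      have e1 : ∑ x : Tor d M, ∑ y : Tor d M,
          K * (Real.exp (-(γ / 4 * l1 x b)) * Real.exp (-(γ / 4 * l1 y b))) =
          K * ((∑ x : Tor d M, Real.exp (-(γ / 4 * l1 x b))) *
            ∑ y : Tor d M, Real.exp (-(γ / 4 * l1 y b))) := by
        rw [Finset.sum_mul_sum, Finset.mul_sum]
        exact Finset.sum_congr rfl fun x _ => by rw [Finset.mul_sum]
      rw [e1]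
      refine mul_le_mul_of_nonneg_left ?_ hK0
      have e2 : (16 / γ) ^ (2 * d) = (16 / γ) ^ d * (16 / γ) ^ d := by rw [two_mul, pow_add]
      rw [e2]
      exact mul_le_mul hS4 hS4 (Finset.sum_nonneg fun x _ => (Real.exp_pos _).le) (by positivity)
    have h3 : Real.exp (-(γ / 4 * l1 (sT e) b)) ≤ Real.exp (-(γ / 4 * sd (sT e) b)) := by
      apply Real.exp_le_exp.2
      have h7 : (sd (sT e) b : ℝ) ≤ l1 (sT e) b := by exact_mod_cast sd_le_l1 (sT e) b
      nlinarith only [hc, hd', hγd, h7]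
    calc 3 * ∑ x, ∑ y, (if l1 x (sT e) ≤ l1 x y ∧ l1 y (sT e) ≤ l1 x y then
        w x y * (l1 x y : ℝ) ^ 2 else 0) ≤ 3 * (K * (16 / γ) ^ (2 * d)) := by linarith
      _ = 96 / γ ^ 2 * (16 / γ) ^ (2 * d) * W * Real.exp (-(γ / 4 * l1 (sT e) b)) := by
          rw [hK]
          ring
      _ ≤ CT d c * W * Real.exp (-(γ / 4 * sd (sT e) b)) := by
          rw [hCT]
          exact mul_le_mul_of_nonneg_left h3 (by positivity)

end Pool.Agent.CTC
end
end -- Pool.Agent.Helper34_CTC.Tlt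

section -- Pool.Agent.Helper34_CTC.Fm

/-!
# Cut and release in the normal form `Fm`
-/

set_option autoImplicit false
set_option linter.unusedSectionVars false

open scoped BigOperators
open Finset

noncomputable section

namespace Pool.Agent.CTC

open Pool.Agent.LTG Pool.Agent.ANR Pool.Agent.ANP.H61

section graph

variable {X : Type} [Fintype X] [DecidableEq X] {ep : Type*} [Fintype ep] {s t : ep → X}

/-- (FMC) THE CUT in normal form: the nodes `Q` leave the network -/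
theorem fm_cut (hcut : CutStmt) {G : Matrix X X ℂ} {κ : X → ℝ} {A Q : Finset X} (hQA : Q ⊆ A)
    (hs : ∀ x y, G x y = G y x) (hκ : ∀ x ∈ A, 0 ≤ κ x)
    {w εl εu v : X → ℝ} {bl bu dl : ep → ℝ} (h : Fm s t A w εl εu bl bu (cE G κ A))
    (hw : ∀ x ∈ A, 0 ≤ w x) (h0 : ∀ x ∈ A, 0 ≤ εl x) (h1 : ∀ x ∈ A, εl x ≤ 1 / 4)
    (hv0 : ∀ x ∈ A, 0 ≤ v x) (hv : ∀ x ∈ A, v x ≤ 1 / 16)
    (hab : ∀ f h, ∑ x, cw G κ A Q x * (f x - wm (cw G κ A Q) f) ^ 2 ≤
      mor s t (fun x => if x ∈ A \ Q then v x * w x else 0) dl f h) :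
    Fm s t (A \ Q) w (fun x => εl x + 4 * v x) εu (fun e => bl e - dl e) bu
      (cE G κ (A \ Q)) := by
  constructor
  · have hal : ∀ x, 0 ≤ wl A w εl x := fun x => by
      unfold wl
      split
      · rename_i hx
        have := hw x hx
        have := h0 x hx
        positivity
      · exact le_rfl
    have h2 := ctc_lb s t hcut hQA hs hal h.lb hab
    refine lb_mono s t (fun x => ?_) (fun e => le_rfl) h2
    unfold wl
    by_cases hx : x ∈ A \ Q
    · have hxA := (Finset.mem_sdiff.1 hx).1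
      have hxQ := (Finset.mem_sdiff.1 hx).2
      rw [if_pos hx, if_neg hxQ, if_pos hxA, if_pos hx]
      have a1 := hw x hxA
      have a2 := h0 x hxA
      have a3 := h1 x hxA
      have a4 := hv0 x hxA
      have a5 := hv x hxA
      have p1 : 0 < 1 + εl x := by linarith only [a2]
      have p2 : 0 < 1 + (εl x + 4 * v x) := by linarith only [a2, a4]
      have key : 1 / (1 + (εl x + 4 * v x)) ≤ 1 / (1 + εl x) - v x := by
        have e1 : 1 / (1 + εl x) - v x - 1 / (1 + (εl x + 4 * v x)) =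
            v x * (4 - (1 + εl x) * (1 + (εl x + 4 * v x))) /
              ((1 + εl x) * (1 + (εl x + 4 * v x))) := by
          field_simp
          ring
        have e2 : 0 ≤ v x * (4 - (1 + εl x) * (1 + (εl x + 4 * v x))) /
              ((1 + εl x) * (1 + (εl x + 4 * v x))) := by
          apply div_nonneg _ (by positivity)
          apply mul_nonneg a4
          nlinarith only [a2, a3, a5]
        linarith only [e1, e2]
      calc w x / (1 + (εl x + 4 * v x)) = w x * (1 / (1 + (εl x + 4 * v x))) := by ring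
        _ ≤ w x * (1 / (1 + εl x) - v x) := mul_le_mul_of_nonneg_left key a1
        _ = w x / (1 + εl x) - v x * w x := by ring
    · rw [if_neg hx, if_neg hx, sub_zero]
      split
      · exact le_rfl
      · split
        · rename_i hxA
          have := hw x hxA
          have := h0 x hxA
          positivity
        · exact le_rfl
  · have h2 := ctc_ub (Q := Q) s t hκ h.ub
    refine ub_mono s t (fun x => ?_) (fun e => le_rfl) (ub_off s t h2)
    unfold wu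
    by_cases hx : x ∈ A \ Q
    · rw [if_pos hx, if_pos hx, if_neg (Finset.mem_sdiff.1 hx).2, if_pos (Finset.mem_sdiff.1 hx).1]
    · rw [if_neg hx, if_neg hx]

/-- (FMR) THE RELEASE in normal form, any graph: all inputs as Moreau expressions -/
theorem fm_rel (hfrx : FrxStmt) {G G' : Matrix X X ℂ} {κ : X → ℝ} {A B : Finset X}
    (m : X → ℝ) {ε : ℝ} (hs : ∀ x y, G x y = G y x) (hs' : ∀ x y, G' x y = G' y x)
    (hκ : ∀ x ∈ A, 0 ≤ κ x) (hBA : B ⊆ A) (hε : 0 < ε) (hε1 : ε ≤ 1)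
    (hm : ∀ x ∈ B, ∑ y ∈ B, κ y * ‖G x y - G' x y‖ ^ 2 ≤ m x)
    {w εl εu v₁ v₂ v₃ : X → ℝ} {bl bu d₁ d₂ d₃ : ep → ℝ}
    (h : Fm s t A w εl εu bl bu (cE G κ A))
    (hw : ∀ x ∈ A, 0 ≤ w x) (h0 : ∀ x ∈ A, 0 ≤ εl x) (h1 : ∀ x ∈ A, εl x ≤ 1 / 4)
    (h0u : ∀ x ∈ A, 0 ≤ εu x)
    (h1u : ∀ x ∈ A, εu x + 4 * (ε * v₁ x + 4 / ε * v₂ x + v₃ x) < 1)
    (hv0 : ∀ x ∈ A, 0 ≤ ε * v₁ x + 4 / ε * v₂ x + v₃ x)
    (hv : ∀ x ∈ A, ε * v₁ x + 4 / ε * v₂ x + v₃ x ≤ 1 / 16)
    (hB : ∀ f h, cE G κ B f ≤ mor s t (fun x => if x ∈ A then v₁ x * w x else 0) d₁ f h)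
    (hab : ∀ f h, ∑ x, (if x ∈ B then κ x * m x else 0) *
      (f x - wm (fun x => if x ∈ B then κ x * m x else 0) f) ^ 2 ≤
        mor s t (fun x => if x ∈ A then v₂ x * w x else 0) d₂ f h)
    (htl : ∀ f h, tl G G' κ A B f ≤ mor s t (fun x => if x ∈ A then v₃ x * w x else 0) d₃ f h) :
    Fm s t A w (fun x => εl x + 4 * (ε * v₁ x + 4 / ε * v₂ x + v₃ x))
      (fun x => εu x + 4 * (ε * v₁ x + 4 / ε * v₂ x + v₃ x))
      (fun e => bl e - (ε * d₁ e + 4 / ε * d₂ e + d₃ e))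
      (fun e => bu e + (ε * d₁ e + 4 / ε * d₂ e + d₃ e)) (cE G' κ A) := by
  refine fm_err (v := fun x => ε * v₁ x + 4 / ε * v₂ x + v₃ x)
    (dl := fun e => ε * d₁ e + 4 / ε * d₂ e + d₃ e) h hw h0 h1 h0u h1u hv0 hv fun f g => ?_
  refine (rel_err s t hfrx m hs hs' hκ hBA hε hε1 hm hB hab htl f g).trans (le_of_eq ?_)
  congr 1
  funext x
  split <;> ring

end graph

section torus

variable {d M : ℕ} [NeZero M]

/-- the weighted variance as a pair form -/
theorem wvar {X : Type*} [Fintype X] (a f : X → ℝ) (ha : ∀ x, 0 ≤ a x) :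
    ∑ x, a x * (f x - wm a f) ^ 2 =
      ∑ x, ∑ y, a x * a y / (2 * ∑ z, a z) * (f x - f y) ^ 2 := by
  set T := ∑ z, a z with hT
  set m := wm a f with hm
  have h0 : 0 ≤ T := Finset.sum_nonneg fun x _ => ha x
  rcases eq_or_lt_of_le h0 with h | h
  · have hz : ∀ x, a x = 0 := fun x =>
      (Finset.sum_eq_zero_iff_of_nonneg fun x _ => ha x).mp (hT ▸ h.symm) x (Finset.mem_univ x)
    simp [hz]
  · have e0 : ∑ x, a x * f x = m * T := by
      rw [hm]
      unfold wm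
      rw [← hT, div_mul_cancel₀ _ h.ne']
    have e1 : ∀ x y, a x * a y / (2 * T) * (f x - f y) ^ 2 =
        (a x * (f x - m) ^ 2) * a y * (1 / (2 * T)) +
        a x * (a y * (f y - m) ^ 2) * (1 / (2 * T)) -
        (a x * (f x - m)) * (a y * (f y - m)) * (1 / T) := by
      intro x y
      field_simp
      ring
    have e2 : ∑ x, a x * (f x - m) = 0 := by
      have : ∑ x, a x * (f x - m) = ∑ x, a x * f x - m * T := by
        rw [hT, Finset.mul_sum, ← Finset.sum_sub_distrib]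
        exact Finset.sum_congr rfl fun x _ => by ring
      rw [this, e0, sub_self]
    simp only [e1, Finset.sum_add_distrib, Finset.sum_sub_distrib, ← Finset.sum_mul,
      ← Finset.mul_sum]
    rw [e2, ← hT]
    field_simp
    ring

theorem mor_cut_le (B : Tor d M → Prop) [DecidablePred B] (al : Tor d M → ℝ) (be : Bd d M → ℝ)
    (f h : Tor d M → ℝ) : morB sT tT B al be f h =
      mor sT tT (fun x => if B x then al x else 0)
        (fun e => if B (sT e) ∧ B (tT e) then be e else 0) f h := rfl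

/-- (CAB) THE CUT ABSORBER on the torus: weights which are bounded in a dyadic cube and decay outside -/
theorem cab (hd : 3 ≤ d) {k : ℕ} (J : ℕ) (hM : 2 ^ k ≤ M) (a₀ b : Tor d M)
    (A : Finset (Tor d M)) {a w : Tor d M → ℝ} {θ T δ W c : ℝ} (ha : ∀ x, 0 ≤ a x)
    (haA : ∀ x, x ∉ A → a x = 0) (haθ : ∀ x, Box a₀ (2 ^ k) x → a x ≤ θ)
    (haT : ∑ x, (if Box a₀ (2 ^ k) x then a x else 0) ≤ T) (hθ : 0 ≤ θ)
    (hδ : 0 ≤ δ) (hw : ∀ x ∈ A, 0 ≤ w x)
    (hal : ∀ x ∈ A, Box a₀ (2 ^ k) x → a x ≤ δ * w x) (hW : 0 ≤ W) (hc : 0 < c) (hc1 : c ≤ 1)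
    (hout : ∀ x, ¬ Box a₀ (2 ^ k) x → a x ≤ W * Real.exp (-(c * sd x b)))
    (hgeo : ∀ x y, ¬ Box a₀ (2 ^ k) x → Box a₀ (2 ^ k) y → sd y b ≤ 2 * sd x b)
    (f h : Tor d M → ℝ) :
    ∑ x, a x * (f x - wm a f) ^ 2 ≤
      mor sT tT (fun x => if x ∈ A then (if Box a₀ (2 ^ k) x then 2 * δ * w x else 0) +
          CT d (c / 3) * W * Real.exp (-(c / 3 / (4 * d) * sd x b)) else 0)
        (fun e => (if Box a₀ (2 ^ k) (sT e) ∧ Box a₀ (2 ^ k) (tT e) then 2 * fac d J θ T else 0) +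
          CT d (c / 3) * W * Real.exp (-(c / 3 / (4 * d) * sd (sT e) b))) f h := by
  set B : Tor d M → Prop := Box a₀ (2 ^ k) with hBdef
  set S : ℝ := ∑ z, a z with hS
  have hS0 : 0 ≤ S := Finset.sum_nonneg fun x _ => ha x
  set a₁ : Tor d M → ℝ := fun x => if B x then a x else 0 with ha₁
  have ha₁0 : ∀ x, 0 ≤ a₁ x := fun x => by
    rw [ha₁]
    dsimp only
    split
    · exact ha x
    · exact le_rfl
  -- the pairs inside the box
  set w' : Tor d M → Tor d M → ℝ := fun x y => if B x ∧ B y then 0 else a x * a y / (2 * S)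
    with hw'
  have hsplit : ∑ x, a x * (f x - wm a f) ^ 2 ≤
      ∑ x, a₁ x * (f x - wm a₁ f) ^ 2 + ∑ x, ∑ y, w' x y * (f x - f y) ^ 2 := by
    rw [wvar a f ha, wvar a₁ f ha₁0, ← Finset.sum_add_distrib]
    refine Finset.sum_le_sum fun x _ => ?_
    rw [← Finset.sum_add_distrib]
    refine Finset.sum_le_sum fun y _ => ?_
    by_cases hxy : B x ∧ B y
    · have e1 : a₁ x = a x := if_pos hxy.1
      have e2 : a₁ y = a y := if_pos hxy.2
      have e3 : w' x y = 0 := if_pos hxy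
      rw [e1, e2, e3, zero_mul, add_zero]
      refine mul_le_mul_of_nonneg_right ?_ (sq_nonneg _)
      have hS1 : ∑ z, a₁ z ≤ S := Finset.sum_le_sum fun z _ => by
        rw [ha₁]
        dsimp only
        split
        · exact le_rfl
        · exact ha z
      have hS1' : 0 ≤ ∑ z, a₁ z := Finset.sum_nonneg fun z _ => ha₁0 z
      rcases eq_or_lt_of_le hS1' with h0 | h0
      · have hz : a₁ x = 0 := (Finset.sum_eq_zero_iff_of_nonneg fun z _ => ha₁0 z).mp h0.symm x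
          (Finset.mem_univ x)
        rw [e1] at hz
        rw [hz]
        simp
      · have := mul_nonneg (ha x) (ha y)
        exact div_le_div_of_nonneg_left this (by linarith) (by linarith)
    · have e3 : w' x y = a x * a y / (2 * S) := if_neg hxy
      rw [e3]
      have : 0 ≤ a₁ x * a₁ y / (2 * ∑ z, a₁ z) * (f x - f y) ^ 2 := by
        have := ha₁0 x
        have := ha₁0 y
        have : 0 ≤ ∑ z, a₁ z := Finset.sum_nonneg fun z _ => ha₁0 z
        positivity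
      linarith
  -- the box
  have hδw : ∀ x, a₁ x ≤ δ * (if x ∈ A then w x else 0) := by
    intro x
    rw [ha₁]
    dsimp only
    by_cases hx : x ∈ A
    · rw [if_pos hx]
      by_cases hb : B x
      · rw [if_pos hb]
        exact hal x hx hb
      · rw [if_neg hb]
        exact mul_nonneg hδ (hw x hx)
    · rw [if_neg hx, haA x hx]
      simp
  have h1 := bxa hd J hM a₀ (al := fun x => if x ∈ A then w x else 0) (be := fun _ => 1)
    (θ := θ) (T := T) (δ := δ) (b₀ := 1) ha₁0 (fun x hx => if_neg hx)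
    (fun x => by
      rw [ha₁]
      dsimp only
      split
      · rename_i hx
        exact haθ x hx
      · exact hθ) haT hδw one_pos (fun e _ => le_rfl) f h
  -- the other pairs
  have hw'0 : ∀ x y, 0 ≤ w' x y := by
    intro x y
    rw [hw']
    dsimp only
    split
    · exact le_rfl
    · have := ha x
      have := ha y
      positivity
  have hmin : ∀ x y, a x * a y / (2 * S) ≤ a x := by
    intro x y
    rcases eq_or_lt_of_le hS0 with h0 | h0
    · rw [← h0]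
      simp only [mul_zero, div_zero]
      exact ha x
    · rw [div_le_iff₀ (by positivity)]
      have h2 : a y ≤ S := Finset.single_le_sum (f := a) (fun z _ => ha z) (Finset.mem_univ y)
      have := mul_le_mul_of_nonneg_left h2 (ha x)
      have := mul_nonneg (ha x) hS0
      linarith
  have hmin' : ∀ x y, a x * a y / (2 * S) ≤ a y := by
    intro x y
    rw [mul_comm (a x)]
    exact hmin y x
  have hfar : ∀ x y, ¬ B x → B y → a x ≤ W * Real.exp (-(c / 3 * (sd x b + sd y b))) := by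
    intro x y hx hy
    refine (hout x hx).trans (mul_le_mul_of_nonneg_left (Real.exp_le_exp.2 ?_) hW)
    have h2 : (sd y b : ℝ) ≤ 2 * sd x b := by exact_mod_cast hgeo x y hx hy
    nlinarith only [hc, h2]
  have hboth : ∀ x y, ¬ B x → ¬ B y → a x * a y / (2 * S) ≤
      W * Real.exp (-(c / 3 * (sd x b + sd y b))) := by
    intro x y hx hy
    have key : ∀ u v : ℝ, 0 ≤ u → 0 ≤ v → u ≤ v → Real.exp (-(c * v)) ≤
        Real.exp (-(c / 3 * (u + v))) := by
      intro u v hu hv huv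
      apply Real.exp_le_exp.2
      nlinarith only [hc, hv, huv]
    rcases le_total (sd x b : ℝ) (sd y b) with h2 | h2
    · refine (hmin' x y).trans ((hout y hy).trans (mul_le_mul_of_nonneg_left ?_ hW))
      exact key _ _ (Nat.cast_nonneg _) (Nat.cast_nonneg _) h2
    · refine (hmin x y).trans ((hout x hx).trans (mul_le_mul_of_nonneg_left ?_ hW))
      have := key _ _ (Nat.cast_nonneg _) (Nat.cast_nonneg _) h2
      rwa [add_comm] at this
  have hw'W : ∀ x y, w' x y ≤ W * Real.exp (-(c / 3 * (sd x b + sd y b))) := by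
    intro x y
    by_cases hxy : B x ∧ B y
    · have e3 : w' x y = 0 := if_pos hxy
      rw [e3]
      positivity
    · have e3 : w' x y = a x * a y / (2 * S) := if_neg hxy
      rw [e3]
      by_cases hx : B x
      · have hy : ¬ B y := fun hy => hxy ⟨hx, hy⟩
        have := hfar y x hy hx
        rw [add_comm] at this
        exact (hmin' x y).trans this
      · by_cases hy : B y
        · exact (hmin x y).trans (hfar x y hx hy)
        · exact hboth x y hx hy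
  have hw'A : ∀ x y, ¬ (x ∈ A ∧ y ∈ A) → w' x y = 0 := by
    intro x y hxy
    rw [hw']
    dsimp only
    split
    · rfl
    · by_cases hx : x ∈ A
      · rw [haA y (fun hy => hxy ⟨hx, hy⟩)]
        simp
      · rw [haA x hx]
        simp
  have h2 := tlt (by omega : 0 < d) b A w' hW (by positivity : 0 < c / 3) (by linarith only [hc1]) hw'0 hw'A
    hw'W f h
  refine hsplit.trans ((add_le_add h1 h2).trans (le_of_eq ?_))
  rw [mor_cut_le, ← mor_add]
  congr 1
  · funext x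
    by_cases hx : x ∈ A
    · simp only [if_pos hx]
    · simp [if_neg hx]
  · funext e
    split <;> ring

/-- (CTT) THE CUT on the torus, in normal form. The flux `κ x ∑_(b ∈ Q) κ b K_xb` is at most `δ w x` and
at most `θ` in the cube, its total mass there is at most `T`, and it decays outside of the cube. -/
theorem cut_tor (hcut : CutStmt) (hd : 3 ≤ d) {k : ℕ} (J : ℕ) (hM : 2 ^ k ≤ M) (a₀ b : Tor d M)
    {G : Matrix (Tor d M) (Tor d M) ℂ} {κ : Tor d M → ℝ} {A Q : Finset (Tor d M)} (hQA : Q ⊆ A)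
    (hs : ∀ x y, G x y = G y x) (hκ : ∀ x ∈ A, 0 ≤ κ x)
    {w εl εu : Tor d M → ℝ} {bl bu : Bd d M → ℝ} {θ T δ W c : ℝ}
    (h : Fm sT tT A w εl εu bl bu (cE G κ A))
    (hw : ∀ x ∈ A, 0 < w x) (h0 : ∀ x ∈ A, 0 ≤ εl x) (h1 : ∀ x ∈ A, εl x ≤ 1 / 4)
    (hθ : 0 ≤ θ) (hδ : 0 ≤ δ) (hW : 0 ≤ W) (hc : 0 < c) (hc1 : c ≤ 1)
    (hin : ∀ x ∈ A \ Q, Box a₀ (2 ^ k) x → κ x * fl G κ Q x ≤ θ ∧ κ x * fl G κ Q x ≤ δ * w x)
    (hT : ∑ x ∈ A \ Q, (if Box a₀ (2 ^ k) x then κ x * fl G κ Q x else 0) ≤ T)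
    (hout : ∀ x ∈ A \ Q, ¬ Box a₀ (2 ^ k) x →
      κ x * fl G κ Q x ≤ W * Real.exp (-(c * sd x b)))
    (hgeo : ∀ x y, ¬ Box a₀ (2 ^ k) x → Box a₀ (2 ^ k) y → sd y b ≤ 2 * sd x b)
    (hv : ∀ x ∈ A, (if Box a₀ (2 ^ k) x then 2 * δ else 0) +
      CT d (c / 3) * W * Real.exp (-(c / 3 / (4 * d) * sd x b)) / w x ≤ 1 / 16) :
    Fm sT tT (A \ Q) w
      (fun x => εl x + 4 * ((if Box a₀ (2 ^ k) x then 2 * δ else 0) +
        CT d (c / 3) * W * Real.exp (-(c / 3 / (4 * d) * sd x b)) / w x)) εu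
      (fun e => bl e - ((if Box a₀ (2 ^ k) (sT e) ∧ Box a₀ (2 ^ k) (tT e) then
        2 * fac d J θ T else 0) + CT d (c / 3) * W * Real.exp (-(c / 3 / (4 * d) * sd (sT e) b))))
      bu (cE G κ (A \ Q)) := by
  have hCT : 0 ≤ CT d (c / 3) := by
    unfold CT
    positivity
  have hcw : ∀ x, x ∉ A \ Q → cw G κ A Q x = 0 := fun x hx => if_neg hx
  have hcw' : ∀ x, x ∈ A \ Q → cw G κ A Q x = κ x * fl G κ Q x := fun x hx => if_pos hx
  have hcab := cab hd J hM a₀ b (A \ Q) (a := cw G κ A Q) (w := w) (θ := θ) (T := T) (δ := δ)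
    (W := W) (c := c) (cw_nonneg G κ A Q hQA hκ) hcw
    (fun x hx => by
      by_cases hxA : x ∈ A \ Q
      · rw [hcw' x hxA]
        exact (hin x hxA hx).1
      · rw [hcw x hxA]
        exact hθ)
    (by
      refine le_trans (le_of_eq ?_) hT
      rw [← Finset.sum_subset (Finset.subset_univ (A \ Q))]
      · refine Finset.sum_congr rfl fun x hx => ?_
        rw [hcw' x hx]
      · intro x _ hx
        rw [hcw x hx]
        simp)
    hθ hδ (fun x hx => (hw x (Finset.mem_sdiff.1 hx).1).le)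
    (fun x hx hb => by
      rw [hcw' x hx]
      exact (hin x hx hb).2) hW hc hc1
    (fun x hx => by
      by_cases hxA : x ∈ A \ Q
      · rw [hcw' x hxA]
        exact hout x hxA hx
      · rw [hcw x hxA]
        positivity) hgeo
  refine fm_cut hcut hQA hs hκ (v := fun x => (if Box a₀ (2 ^ k) x then 2 * δ else 0) +
        CT d (c / 3) * W * Real.exp (-(c / 3 / (4 * d) * sd x b)) / w x) h
    (fun x hx => (hw x hx).le) h0 h1 (fun x hx => ?_) hv fun f g => (hcab f g).trans (le_of_eq ?_)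
  · have := hw x hx
    have : 0 ≤ (if Box a₀ (2 ^ k) x then 2 * δ else 0) := by split <;> positivity
    positivity
  · congr 1
    funext x
    by_cases hx : x ∈ A \ Q
    · rw [if_pos hx, if_pos hx]
      have hwx := hw x (Finset.mem_sdiff.1 hx).1
      rw [add_mul, div_mul_cancel₀ _ hwx.ne']
      by_cases hb : Box a₀ (2 ^ k) x
      · rw [if_pos hb, if_pos hb]
      · rw [if_neg hb, if_neg hb, zero_mul]
    · rw [if_neg hx, if_neg hx]

/-- (RLT) THE RELEASE on the torus, in normal form: `m` bounds the change of the rows, `κ m` is at most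
`θ`, at most `δ w`, its mass is at most `T`. -/
theorem rel_tor (hfrx : FrxStmt) (hd : 3 ≤ d) {k : ℕ} (J : ℕ) {R : ℕ} (hR : 0 < R)
    (hM : 2 ^ k ≤ M) (a₀ b : Tor d M)
    {G G' : Matrix (Tor d M) (Tor d M) ℂ} {κ m : Tor d M → ℝ} {A B : Finset (Tor d M)} {ε : ℝ}
    (hs : ∀ x y, G x y = G y x) (hs' : ∀ x y, G' x y = G' y x)
    (hκ : ∀ x ∈ A, 0 ≤ κ x) (hBA : B ⊆ A) (hB : ∀ x ∈ B, Core a₀ (2 ^ k) R x)
    (hε : 0 < ε) (hε1 : ε ≤ 1)
    (hm : ∀ x ∈ B, ∑ y ∈ B, κ y * ‖G x y - G' x y‖ ^ 2 ≤ m x)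
    {w εl εu : Tor d M → ℝ} {bl bu : Bd d M → ℝ} {θ T δ W c b₀ b₁ cu u : ℝ}
    (h : Fm sT tT A w εl εu bl bu (cE G κ A))
    (hw : ∀ x ∈ A, 0 < w x) (h0 : ∀ x ∈ A, 0 ≤ εl x) (h1 : ∀ x ∈ A, εl x ≤ 1 / 4)
    (h0u : ∀ x ∈ A, 0 ≤ εu x) (h1u : ∀ x ∈ A, εu x < 1)
    (hcu : ∀ x ∈ A, Box a₀ (2 ^ k) x → 1 ≤ cu * (1 - εu x)) (hcu0 : 0 ≤ cu)
    (hb₀ : 0 < b₀) (hb : ∀ e, Box a₀ (2 ^ k) (sT e) ∧ Box a₀ (2 ^ k) (tT e) →
      b₀ ≤ bu e ∧ bu e ≤ b₁) (hb₁ : 0 ≤ b₁)
    (hm0 : ∀ x ∈ B, 0 ≤ m x) (hθ : 0 ≤ θ) (hδ : 0 ≤ δ)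
    (hin : ∀ x ∈ B, κ x * m x ≤ θ ∧ κ x * m x ≤ δ * w x) (hT : ∑ x ∈ B, κ x * m x ≤ T)
    (hW : 0 ≤ W) (hc : 0 < c) (hc1 : c ≤ 1)
    (hout : ∀ x ∈ A, ∀ y ∈ A, ¬ (x ∈ B ∧ y ∈ B) →
      κ x * κ y * (‖G x y‖ * ‖G x y - G' x y‖ + ‖G x y - G' x y‖ ^ 2) ≤
        W * Real.exp (-(c * (sd x b + sd y b))))
    (hu1 : ε * ((2 + 2 * (d : ℝ) ^ 2 * (((2 ^ k : ℕ) : ℝ) / R) ^ 2 * (b₁ / b₀)) * cu) +
      8 / ε * δ ≤ u)
    (hu2 : ε * ((2 + 2 * (d : ℝ) ^ 2 * (((2 ^ k : ℕ) : ℝ) / R) ^ 2 * (b₁ / b₀)) * b₁) +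
      8 / ε * fac d J θ T ≤ u * b₁)
    (hv : ∀ x ∈ A, (if Box a₀ (2 ^ k) x then u else 0) +
      CT d c * W * Real.exp (-(c / (4 * d) * sd x b)) / w x ≤ 1 / 16)
    (hvu : ∀ x ∈ A, εu x + 4 * ((if Box a₀ (2 ^ k) x then u else 0) +
      CT d c * W * Real.exp (-(c / (4 * d) * sd x b)) / w x) < 1) :
    Fm sT tT A w
      (fun x => εl x + 4 * ((if Box a₀ (2 ^ k) x then u else 0) +
        CT d c * W * Real.exp (-(c / (4 * d) * sd x b)) / w x))
      (fun x => εu x + 4 * ((if Box a₀ (2 ^ k) x then u else 0) +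
        CT d c * W * Real.exp (-(c / (4 * d) * sd x b)) / w x))
      (fun e => bl e - ((if Box a₀ (2 ^ k) (sT e) ∧ Box a₀ (2 ^ k) (tT e) then u * b₁ else 0) +
        CT d c * W * Real.exp (-(c / (4 * d) * sd (sT e) b))))
      (fun e => bu e + ((if Box a₀ (2 ^ k) (sT e) ∧ Box a₀ (2 ^ k) (tT e) then u * b₁ else 0) +
        CT d c * W * Real.exp (-(c / (4 * d) * sd (sT e) b)))) (cE G' κ A) := by
  set K : ℝ := 2 + 2 * (d : ℝ) ^ 2 * (((2 ^ k : ℕ) : ℝ) / R) ^ 2 * (b₁ / b₀) with hK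
  have hK0 : 0 ≤ K := by positivity
  have hCT : 0 ≤ CT d c := by
    unfold CT
    positivity
  have hT0 : 0 ≤ T := (Finset.sum_nonneg fun x hx => mul_nonneg (hκ x (hBA hx)) (hm0 x hx)).trans
    hT
  have hfac := fac_nonneg d J hθ hT0
  -- the local form
  have hBbox : ∀ x, Core a₀ (2 ^ k) R x → Box a₀ (2 ^ k) x := fun x hx i => by
    have := hx i
    omega
  have hwu : ∀ x, 0 ≤ wu A w εu x := fun x => by
    unfold wu
    split
    · rename_i hx
      have := hw x hx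
      have := h1u x hx
      have : 0 < 1 - εu x := by linarith only [this]
      positivity
    · exact le_rfl
  have hloc : ∀ f g : Tor d M → ℝ, cE G κ B f ≤
      mor sT tT (fun x => if x ∈ A then (if Box a₀ (2 ^ k) x then K * cu else 0) * w x else 0)
        (fun e => if Box a₀ (2 ^ k) (sT e) ∧ Box a₀ (2 ^ k) (tT e) then K * b₁ else 0) f g := by
    intro f g
    have h2 := loc_form a₀ (R := R) (L := 2 ^ k) (by positivity) hM hR hBA hκ hB hb₀ hb₁ hwu hb
      h.ub f g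
    refine h2.trans ?_
    rw [← hK, mor_cut_le, ← mor_smul]
    refine mor_mono sT tT (fun x => ?_) (fun e => ?_) f g
    · by_cases hx : Box a₀ (2 ^ k) x
      · rw [if_pos hx, if_pos hx]
        unfold wu
        by_cases hxA : x ∈ A
        · rw [if_pos hxA, if_pos hxA]
          have i1 := hw x hxA
          have i2 : 0 < 1 - εu x := by linarith only [h1u x hxA]
          have i3 := hcu x hxA hx
          have i4 : w x / (1 - εu x) ≤ cu * w x := by
            rw [div_le_iff₀ i2]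
            nlinarith only [i1, i3]
          calc K * (w x / (1 - εu x)) ≤ K * (cu * w x) := mul_le_mul_of_nonneg_left i4 hK0
            _ = K * cu * w x := by ring
        · rw [if_neg hxA, if_neg hxA, mul_zero]
      · rw [if_neg hx, if_neg hx, mul_zero, zero_mul]
        split <;> exact le_rfl
    · by_cases he : Box a₀ (2 ^ k) (sT e) ∧ Box a₀ (2 ^ k) (tT e)
      · rw [if_pos he, if_pos he]
        exact mul_le_mul_of_nonneg_left (hb e he).2 hK0
      · rw [if_neg he, if_neg he, mul_zero]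
  -- the absorber
  set a : Tor d M → ℝ := fun x => if x ∈ B then κ x * m x else 0 with ha
  have ha0 : ∀ x, 0 ≤ a x := fun x => by
    rw [ha]
    dsimp only
    split
    · rename_i hx
      exact mul_nonneg (hκ x (hBA hx)) (hm0 x hx)
    · exact le_rfl
  have hab : ∀ f g : Tor d M → ℝ, ∑ x, a x * (f x - wm a f) ^ 2 ≤
      mor sT tT (fun x => if x ∈ A then (if Box a₀ (2 ^ k) x then 2 * δ else 0) * w x else 0)
        (fun e => if Box a₀ (2 ^ k) (sT e) ∧ Box a₀ (2 ^ k) (tT e) then 2 * fac d J θ T else 0)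
        f g := by
    intro f g
    have h2 := bxa hd J hM a₀ (a := a) (al := fun x => if x ∈ A then w x else 0)
      (be := fun _ => 1) (θ := θ) (T := T) (δ := δ) (b₀ := 1) ha0
      (fun x hx => if_neg fun hxB => hx (hBbox x (hB x hxB)))
      (fun x => by
        rw [ha]
        dsimp only
        split
        · rename_i hx
          exact (hin x hx).1
        · exact hθ)
      (by
        rw [ha, ← Finset.sum_subset (Finset.subset_univ B)]
        · refine le_trans (le_of_eq (Finset.sum_congr rfl fun x hx => ?_)) hT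
          rw [if_pos hx]
        · intro x _ hx
          rw [if_neg hx])
      (fun x => by
        rw [ha]
        dsimp only
        by_cases hx : x ∈ B
        · rw [if_pos hx, if_pos (hBA hx)]
          exact (hin x hx).2
        · rw [if_neg hx]
          split
          · rename_i hxA
            exact mul_nonneg hδ (hw x hxA).le
          · simp)
      one_pos (fun e _ => le_rfl) f g
    refine h2.trans (le_of_eq ?_)
    rw [mor_cut_le]
    congr 1
    · funext x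
      by_cases hx : Box a₀ (2 ^ k) x
      · rw [if_pos hx, if_pos hx]
        split <;> ring
      · rw [if_neg hx, if_neg hx]
        simp
    · funext e
      split <;> ring
  -- the tail
  have htl : ∀ f g : Tor d M → ℝ, tl G G' κ A B f ≤
      mor sT tT (fun x => if x ∈ A then
          CT d c * W * Real.exp (-(c / (4 * d) * sd x b)) / w x * w x else 0)
        (fun e => CT d c * W * Real.exp (-(c / (4 * d) * sd (sT e) b))) f g := by
    intro f g
    set w' : Tor d M → Tor d M → ℝ := fun x y => if x ∈ A ∧ y ∈ A then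
      (if x ∈ B ∧ y ∈ B then 0 else
        κ x * κ y * (‖G x y‖ * ‖G x y - G' x y‖ + ‖G x y - G' x y‖ ^ 2)) else 0 with hw'
    have e1 : tl G G' κ A B f = ∑ x, ∑ y, w' x y * (f x - f y) ^ 2 := by
      unfold tl
      rw [← Finset.sum_subset (Finset.subset_univ A)]
      · refine Finset.sum_congr rfl fun x hx => ?_
        rw [← Finset.sum_subset (Finset.subset_univ A)]
        · refine Finset.sum_congr rfl fun y hy => ?_
          have ew : w' x y = if x ∈ B ∧ y ∈ B then 0 else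
            κ x * κ y * (‖G x y‖ * ‖G x y - G' x y‖ + ‖G x y - G' x y‖ ^ 2) := if_pos ⟨hx, hy⟩
          rw [ew]
          by_cases hxy : x ∈ B ∧ y ∈ B
          · rw [if_pos hxy, if_pos hxy, zero_mul]
          · rw [if_neg hxy, if_neg hxy]
        · intro y _ hy
          have ew : w' x y = 0 := if_neg (fun h => hy h.2)
          rw [ew, zero_mul]
      · intro x _ hx
        refine Finset.sum_eq_zero fun y _ => ?_
        have ew : w' x y = 0 := if_neg (fun h => hx h.1)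
        rw [ew, zero_mul]
    rw [e1]
    refine (tlt (by omega : 0 < d) b A w' hW hc hc1 (fun x y => ?_) (fun x y hxy => if_neg hxy)
      (fun x y => ?_) f g).trans (le_of_eq ?_)
    · rw [hw']
      dsimp only
      split
      · rename_i hxy
        split
        · exact le_rfl
        · have := hκ x hxy.1
          have := hκ y hxy.2
          positivity
      · exact le_rfl
    · rw [hw']
      dsimp only
      split
      · rename_i hxy
        split
        · positivity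
        · rename_i hxB
          exact hout x hxy.1 y hxy.2 hxB
      · positivity
    · congr 1
      funext x
      by_cases hx : x ∈ A
      · rw [if_pos hx, if_pos hx, div_mul_cancel₀ _ (hw x hx).ne']
      · rw [if_neg hx, if_neg hx]
  -- sum up
  have hle1 : ∀ x ∈ A, ε * (if Box a₀ (2 ^ k) x then K * cu else 0) +
      4 / ε * (if Box a₀ (2 ^ k) x then 2 * δ else 0) +
      CT d c * W * Real.exp (-(c / (4 * d) * sd x b)) / w x ≤
      (if Box a₀ (2 ^ k) x then u else 0) +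
        CT d c * W * Real.exp (-(c / (4 * d) * sd x b)) / w x := by
    intro x _
    split
    · have : 4 / ε * (2 * δ) = 8 / ε * δ := by ring
      linarith only [hu1, this]
    · simp
  have hle2 : ∀ e : Bd d M, ε * (if Box a₀ (2 ^ k) (sT e) ∧ Box a₀ (2 ^ k) (tT e) then
        K * b₁ else 0) + 4 / ε * (if Box a₀ (2 ^ k) (sT e) ∧ Box a₀ (2 ^ k) (tT e) then
        2 * fac d J θ T else 0) + CT d c * W * Real.exp (-(c / (4 * d) * sd (sT e) b)) ≤
      (if Box a₀ (2 ^ k) (sT e) ∧ Box a₀ (2 ^ k) (tT e) then u * b₁ else 0) +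
        CT d c * W * Real.exp (-(c / (4 * d) * sd (sT e) b)) := by
    intro e
    split
    · have : 4 / ε * (2 * fac d J θ T) = 8 / ε * fac d J θ T := by ring
      linarith only [hu2, this]
    · simp
  have hnn : ∀ x ∈ A, 0 ≤ ε * (if Box a₀ (2 ^ k) x then K * cu else 0) +
      4 / ε * (if Box a₀ (2 ^ k) x then 2 * δ else 0) +
      CT d c * W * Real.exp (-(c / (4 * d) * sd x b)) / w x := by
    intro x hx
    have := hw x hx
    have i1 : 0 ≤ (if Box a₀ (2 ^ k) x then K * cu else 0) := by split <;> positivity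
    have i2 : 0 ≤ (if Box a₀ (2 ^ k) x then 2 * δ else 0) := by split <;> positivity
    positivity
  have hmain := fm_rel hfrx m hs hs' hκ hBA hε hε1 hm
    (v₁ := fun x => if Box a₀ (2 ^ k) x then K * cu else 0)
    (v₂ := fun x => if Box a₀ (2 ^ k) x then 2 * δ else 0)
    (v₃ := fun x => CT d c * W * Real.exp (-(c / (4 * d) * sd x b)) / w x)
    (d₁ := fun e => if Box a₀ (2 ^ k) (sT e) ∧ Box a₀ (2 ^ k) (tT e) then K * b₁ else 0)
    (d₂ := fun e => if Box a₀ (2 ^ k) (sT e) ∧ Box a₀ (2 ^ k) (tT e) then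
      2 * fac d J θ T else 0)
    (d₃ := fun e => CT d c * W * Real.exp (-(c / (4 * d) * sd (sT e) b))) h
    (fun x hx => (hw x hx).le) h0 h1 h0u
    (fun x hx => by linarith only [hle1 x hx, hvu x hx]) hnn
    (fun x hx => (hle1 x hx).trans (hv x hx)) hloc hab htl
  refine hmain.mono (fun x hx => (hw x hx).le) (fun x hx => ?_) (fun x hx => ?_)
    (fun x hx => ?_) (fun x hx => ?_) (fun e => ?_) (fun e => ?_)
  · have := hnn x hx
    have := h0 x hx
    linarith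
  · linarith only [hle1 x hx]
  · linarith only [hle1 x hx]
  · exact hvu x hx
  · linarith only [hle2 e]
  · linarith only [hle2 e]

end torus

end Pool.Agent.CTC
end
end -- Pool.Agent.Helper34_CTC.Fm

section -- Pool.Agent.Helper34_CTC.Mul

/-!
# Release of a long cluster: one ball per site

The change of the form is split into the balls `B j`; pairs which are not in a common ball are tails.
-/

set_option autoImplicit false
set_option linter.unusedSectionVars false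

open scoped BigOperators
open Finset

noncomputable section

namespace Pool.Agent.CTC

open Pool.Agent.LTG Pool.Agent.ANR Pool.Agent.ANP.H61

section graph

variable {X : Type} [Fintype X] [DecidableEq X] {ι : Type} [DecidableEq ι]

open Classical in
/-- the part of the change of the form which comes from pairs in no common `B j` -/
def tlJ (G G' : Matrix X X ℂ) (κ : X → ℝ) (A : Finset X) (I : Finset ι) (B : ι → Finset X)
    (f : X → ℝ) : ℝ :=
  ∑ x ∈ A, ∑ y ∈ A, if ∃ j ∈ I, x ∈ B j ∧ y ∈ B j then 0 else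
    κ x * κ y * (‖G x y‖ * ‖G x y - G' x y‖ + ‖G x y - G' x y‖ ^ 2) * (f x - f y) ^ 2

theorem pw1 {a g g' δ w : ℝ} (ha : 0 ≤ a) (hw : 0 ≤ w) (hg : 0 ≤ g) (hg' : 0 ≤ g') (hd : 0 ≤ δ)
    (h : |g' - g| ≤ δ) :
    1 / 2 * |a * g' ^ 2 * w - a * g ^ 2 * w| ≤ a * (g * δ + δ ^ 2) * w := by
  have h1 : |g' ^ 2 - g ^ 2| ≤ 2 * g * δ + δ ^ 2 := by
    have h2 : g' ^ 2 - g ^ 2 = (g' - g) * (g' + g) := by ring
    have h3 : g' ≤ g + δ := by linarith [(abs_le.1 h).2]
    have h4 : |g' + g| = g' + g := abs_of_nonneg (by linarith)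
    rw [h2, abs_mul, h4]
    calc |g' - g| * (g' + g) ≤ δ * (g + δ + g) :=
          mul_le_mul h (by linarith) (by linarith) hd
      _ = _ := by ring
  have h5 : a * g' ^ 2 * w - a * g ^ 2 * w = a * w * (g' ^ 2 - g ^ 2) := by ring
  rw [h5, abs_mul, abs_of_nonneg (mul_nonneg ha hw)]
  have h6 := mul_le_mul_of_nonneg_left h1 (mul_nonneg ha hw)
  have h7 : 0 ≤ a * w * δ ^ 2 := by positivity
  nlinarith only [h6, h7]

theorem young1 {g δ ε : ℝ} (hε : 0 < ε) (hε1 : ε ≤ 1) :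
    1 / 2 * (2 * g * δ + δ ^ 2) ≤ ε / 2 * g ^ 2 + 1 / ε * δ ^ 2 := by
  obtain ⟨t, ht⟩ : ∃ t : ℝ, t = 1 / ε := ⟨_, rfl⟩
  have hte : t * ε = 1 := by rw [ht]; field_simp
  have ht1 : 1 ≤ t := by
    rw [ht, le_div_iff₀ hε]
    linarith only [hε1]
  rw [← ht]
  have h1 : 0 ≤ t * (ε * g - δ) ^ 2 := mul_nonneg (by linarith only [ht1]) (sq_nonneg _)
  have h2 : t * (ε * g - δ) ^ 2 = ε * g ^ 2 - 2 * g * δ + t * δ ^ 2 := by
    linear_combination (ε * g ^ 2 - 2 * g * δ) * hte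
  have h3 : δ ^ 2 ≤ t * δ ^ 2 := by nlinarith only [sq_nonneg δ, ht1]
  rw [h2] at h1
  linarith only [h1, h3]

theorem pw2 {a g g' δ w ε : ℝ} (ha : 0 ≤ a) (hw : 0 ≤ w) (hg : 0 ≤ g) (hg' : 0 ≤ g')
    (hd : 0 ≤ δ) (h : |g' - g| ≤ δ) (hε : 0 < ε) (hε1 : ε ≤ 1) :
    1 / 2 * |a * g' ^ 2 * w - a * g ^ 2 * w| ≤
      ε / 2 * (a * g ^ 2 * w) + 1 / ε * (a * δ ^ 2 * w) := by
  have h1 : |g' ^ 2 - g ^ 2| ≤ 2 * g * δ + δ ^ 2 := by
    have h2 : g' ^ 2 - g ^ 2 = (g' - g) * (g' + g) := by ring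
    have h3 : g' ≤ g + δ := by linarith [(abs_le.1 h).2]
    have h4 : |g' + g| = g' + g := abs_of_nonneg (by linarith)
    rw [h2, abs_mul, h4]
    calc |g' - g| * (g' + g) ≤ δ * (g + δ + g) :=
          mul_le_mul h (by linarith) (by linarith) hd
      _ = _ := by ring
  have h5 : a * g' ^ 2 * w - a * g ^ 2 * w = a * w * (g' ^ 2 - g ^ 2) := by ring
  rw [h5, abs_mul, abs_of_nonneg (mul_nonneg ha hw)]
  have h6 := mul_le_mul_of_nonneg_left h1 (mul_nonneg ha hw)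
  have h7 := mul_le_mul_of_nonneg_left (young1 (g := g) (δ := δ) hε hε1) (mul_nonneg ha hw)
  have e : a * w * (ε / 2 * g ^ 2 + 1 / ε * δ ^ 2) =
      ε / 2 * (a * g ^ 2 * w) + 1 / ε * (a * δ ^ 2 * w) := by ring
  rw [← e]
  refine le_trans ?_ h7
  have e2 : a * w * (1 / 2 * (2 * g * δ + δ ^ 2)) = 1 / 2 * (a * w * (2 * g * δ + δ ^ 2)) := by
    ring
  rw [e2]
  exact mul_le_mul_of_nonneg_left h6 (by norm_num)

/-- the absorber bound of one ball -/
theorem ball_abs {G G' : Matrix X X ℂ} {κ : X → ℝ} {B : Finset X} (hs : ∀ x y, G x y = G y x)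
    (hs' : ∀ x y, G' x y = G' y x) (hκ : ∀ x ∈ B, 0 ≤ κ x) {ε : ℝ} (hε : 0 < ε) (m : X → ℝ)
    (hm : ∀ x ∈ B, ∑ y ∈ B, κ y * ‖G x y - G' x y‖ ^ 2 ≤ m x) (f : X → ℝ) (c : ℝ) :
    ∑ x ∈ B, ∑ y ∈ B, 1 / ε * (κ x * κ y * ‖G x y - G' x y‖ ^ 2 * (f x - f y) ^ 2) ≤
      4 / ε * ∑ x ∈ B, κ x * m x * (f x - c) ^ 2 := by
  have h1 : ∀ x ∈ B, ∀ y ∈ B, 1 / ε * (κ x * κ y * ‖G x y - G' x y‖ ^ 2 * (f x - f y) ^ 2) ≤
      2 / ε * (κ x * (κ y * ‖G x y - G' x y‖ ^ 2) * (f x - c) ^ 2) +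
      2 / ε * (κ y * (κ x * ‖G y x - G' y x‖ ^ 2) * (f y - c) ^ 2) := by
    intro x hx y hy
    have e : ‖G y x - G' y x‖ = ‖G x y - G' x y‖ := by rw [hs y x, hs' y x]
    rw [e]
    have h2 : (f x - f y) ^ 2 ≤ 2 * (f x - c) ^ 2 + 2 * (f y - c) ^ 2 := by
      nlinarith only [sq_nonneg ((f x - c) + (f y - c))]
    have h3 : 0 ≤ κ x * κ y * ‖G x y - G' x y‖ ^ 2 :=
      mul_nonneg (mul_nonneg (hκ x hx) (hκ y hy)) (sq_nonneg _)
    have h4 := mul_le_mul_of_nonneg_left h2 h3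
    have h5 : 0 ≤ 1 / ε := by positivity
    have h6 := mul_le_mul_of_nonneg_left h4 h5
    refine h6.trans (le_of_eq ?_)
    ring
  refine (Finset.sum_le_sum fun x hx => Finset.sum_le_sum fun y hy => h1 x hx y hy).trans ?_
  have e1 : ∑ x ∈ B, ∑ y ∈ B,
      (2 / ε * (κ x * (κ y * ‖G x y - G' x y‖ ^ 2) * (f x - c) ^ 2) +
      2 / ε * (κ y * (κ x * ‖G y x - G' y x‖ ^ 2) * (f y - c) ^ 2)) =
      4 / ε * ∑ x ∈ B, κ x * (∑ y ∈ B, κ y * ‖G x y - G' x y‖ ^ 2) * (f x - c) ^ 2 := by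
    simp only [Finset.sum_add_distrib]
    rw [Finset.sum_comm (s := B) (t := B)
      (f := fun x y => 2 / ε * (κ y * (κ x * ‖G y x - G' y x‖ ^ 2) * (f y - c) ^ 2))]
    rw [← Finset.sum_add_distrib, Finset.mul_sum]
    refine Finset.sum_congr rfl fun x _ => ?_
    rw [← Finset.sum_add_distrib, Finset.mul_sum, Finset.sum_mul, Finset.mul_sum]
    refine Finset.sum_congr rfl fun y _ => ?_
    ring
  rw [e1]
  refine mul_le_mul_of_nonneg_left (Finset.sum_le_sum fun x hx => ?_) (by positivity)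
  exact mul_le_mul_of_nonneg_right (mul_le_mul_of_nonneg_left (hm x hx) (hκ x hx)) (sq_nonneg _)

open Classical in
/-- (FRJ) the change of the form, split into balls -/
theorem frxJ {G G' : Matrix X X ℂ} {κ : X → ℝ} {A : Finset X} (I : Finset ι)
    (B : ι → Finset X) (hs : ∀ x y, G x y = G y x)
    (hs' : ∀ x y, G' x y = G' y x) (hκ : ∀ x ∈ A, 0 ≤ κ x) (hBA : ∀ j ∈ I, B j ⊆ A) {ε : ℝ}
    (hε : 0 < ε) (hε1 : ε ≤ 1) (m : X → ℝ)
    (hm : ∀ j ∈ I, ∀ x ∈ B j, ∑ y ∈ B j, κ y * ‖G x y - G' x y‖ ^ 2 ≤ m x) (f : X → ℝ)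
    (c : ι → ℝ) :
    |cE G' κ A f - cE G κ A f| ≤ ∑ j ∈ I, (ε * cE G κ (B j) f +
      4 / ε * ∑ x ∈ B j, κ x * m x * (f x - c j) ^ 2) + tlJ G G' κ A I B f := by
  set T1 : X → X → ℝ := fun x y => κ x * κ y * ‖G x y‖ ^ 2 * (f x - f y) ^ 2 with hT1
  set T2 : X → X → ℝ := fun x y => κ x * κ y * ‖G x y - G' x y‖ ^ 2 * (f x - f y) ^ 2 with hT2
  set T3 : X → X → ℝ := fun x y =>
    κ x * κ y * (‖G x y‖ * ‖G x y - G' x y‖ + ‖G x y - G' x y‖ ^ 2) * (f x - f y) ^ 2 with hT3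
  have h1 : |cE G' κ A f - cE G κ A f| ≤ ∑ x ∈ A, ∑ y ∈ A,
      1 / 2 * |κ x * κ y * ‖G' x y‖ ^ 2 * (f x - f y) ^ 2 -
        κ x * κ y * ‖G x y‖ ^ 2 * (f x - f y) ^ 2| := by
    unfold cE
    rw [← mul_sub, ← Finset.sum_sub_distrib, abs_mul, abs_of_pos (by norm_num : (0:ℝ) < 1 / 2)]
    have e2 : ∑ x ∈ A, ∑ y ∈ A, 1 / 2 * |κ x * κ y * ‖G' x y‖ ^ 2 * (f x - f y) ^ 2 -
        κ x * κ y * ‖G x y‖ ^ 2 * (f x - f y) ^ 2| = 1 / 2 * ∑ x ∈ A, ∑ y ∈ A,
        |κ x * κ y * ‖G' x y‖ ^ 2 * (f x - f y) ^ 2 -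
        κ x * κ y * ‖G x y‖ ^ 2 * (f x - f y) ^ 2| := by
      rw [Finset.mul_sum]
      exact Finset.sum_congr rfl fun x _ => by rw [Finset.mul_sum]
    rw [e2]
    refine mul_le_mul_of_nonneg_left ?_ (by norm_num)
    refine (Finset.abs_sum_le_sum_abs _ _).trans (Finset.sum_le_sum fun x _ => ?_)
    rw [← Finset.sum_sub_distrib]
    exact Finset.abs_sum_le_sum_abs _ _
  refine h1.trans ?_
  have hp : ∀ x ∈ A, ∀ y ∈ A, 1 / 2 * |κ x * κ y * ‖G' x y‖ ^ 2 * (f x - f y) ^ 2 -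
        κ x * κ y * ‖G x y‖ ^ 2 * (f x - f y) ^ 2| ≤
      ∑ j ∈ I, (if x ∈ B j ∧ y ∈ B j then ε / 2 * T1 x y + 1 / ε * T2 x y else 0) +
      (if ∃ j ∈ I, x ∈ B j ∧ y ∈ B j then 0 else T3 x y) := by
    intro x hx y hy
    have ha : 0 ≤ κ x * κ y := mul_nonneg (hκ x hx) (hκ y hy)
    have hw : 0 ≤ (f x - f y) ^ 2 := sq_nonneg _
    have h3 : |‖G' x y‖ - ‖G x y‖| ≤ ‖G x y - G' x y‖ := by
      rw [abs_sub_comm]
      exact abs_norm_sub_norm_le _ _
    have hnn : ∀ j ∈ I, 0 ≤ (if x ∈ B j ∧ y ∈ B j then ε / 2 * T1 x y + 1 / ε * T2 x y else 0) := by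
      intro j _
      split
      · rw [hT1, hT2]
        positivity
      · exact le_rfl
    by_cases hex : ∃ j ∈ I, x ∈ B j ∧ y ∈ B j
    · obtain ⟨j, hj, hxy⟩ := hex
      rw [if_pos ⟨j, hj, hxy⟩, add_zero]
      refine le_trans ?_ (Finset.single_le_sum hnn hj)
      rw [if_pos hxy]
      exact pw2 ha hw (norm_nonneg _) (norm_nonneg _) (norm_nonneg _) h3 hε hε1
    · rw [if_neg hex]
      have h4 := pw1 ha hw (norm_nonneg (G x y)) (norm_nonneg (G' x y)) (norm_nonneg _) h3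
      have h5 := Finset.sum_nonneg hnn
      linarith only [h4, h5]
  refine (Finset.sum_le_sum fun x hx => Finset.sum_le_sum fun y hy => hp x hx y hy).trans ?_
  simp only [Finset.sum_add_distrib]
  unfold tlJ
  refine add_le_add ?_ le_rfl
  have e1 : ∑ x ∈ A, ∑ y ∈ A, ∑ j ∈ I,
      (if x ∈ B j ∧ y ∈ B j then ε / 2 * T1 x y + 1 / ε * T2 x y else 0) =
      ∑ j ∈ I, ∑ x ∈ A, ∑ y ∈ A,
        (if x ∈ B j ∧ y ∈ B j then ε / 2 * T1 x y + 1 / ε * T2 x y else 0) := by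
    rw [Finset.sum_comm (s := I)]
    refine Finset.sum_congr rfl fun x _ => ?_
    rw [Finset.sum_comm]
  rw [e1, ← Finset.sum_add_distrib]
  refine Finset.sum_le_sum fun j hj => ?_
  have e2 : ∑ x ∈ A, ∑ y ∈ A,
        (if x ∈ B j ∧ y ∈ B j then ε / 2 * T1 x y + 1 / ε * T2 x y else 0) =
      ∑ x ∈ B j, ∑ y ∈ B j, (ε / 2 * T1 x y + 1 / ε * T2 x y) := by
    symm
    rw [← Finset.sum_subset (hBA j hj)]
    · refine Finset.sum_congr rfl fun x hx => ?_
      rw [← Finset.sum_subset (hBA j hj)]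
      · refine Finset.sum_congr rfl fun y hy => ?_
        rw [if_pos ⟨hx, hy⟩]
      · intro y _ hy
        rw [if_neg fun h => hy h.2]
    · intro x _ hx
      exact Finset.sum_eq_zero fun y _ => if_neg fun h => hx h.1
  rw [e2]
  simp only [Finset.sum_add_distrib]
  refine add_le_add (le_of_eq ?_) ?_
  · unfold cE
    rw [Finset.mul_sum, Finset.mul_sum]
    refine Finset.sum_congr rfl fun x _ => ?_
    rw [Finset.mul_sum, Finset.mul_sum]
    refine Finset.sum_congr rfl fun y _ => ?_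
    rw [hT1]
    ring
  · exact ball_abs hs hs' (fun x hx => hκ x (hBA j hj hx)) hε m (hm j hj) f (c j)

end graph


section torus

variable {d M : ℕ} [NeZero M]

theorem mor_sumJ {ι : Type} (I : Finset ι) (al : ι → Tor d M → ℝ) (be : ι → Bd d M → ℝ)
    (f h : Tor d M → ℝ) :
    ∑ j ∈ I, mor sT tT (al j) (be j) f h =
      mor sT tT (fun x => ∑ j ∈ I, al j x) (fun e => ∑ j ∈ I, be j e) f h := by
  have h1 := mor_sum sT tT I (fun _ => (1 : ℝ)) al be f h
  simp only [one_mul] at h1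
  exact h1.symm

/-- (TLJ) tails with several centres -/
theorem tltJ (hd : 0 < d) (S : Finset (Tor d M)) (hS : S.Nonempty) (A : Finset (Tor d M))
    (w : Tor d M → Tor d M → ℝ)
    {W c : ℝ} (hW : 0 ≤ W) (hc : 0 < c) (hc1 : c ≤ 1) (hw : ∀ x y, 0 ≤ w x y)
    (hwA : ∀ x y, ¬ (x ∈ A ∧ y ∈ A) → w x y = 0)
    (hwW : ∀ x y, w x y ≤ W * ∑ q ∈ S, Real.exp (-(c * (sd x q + sd y q))))
    (f h : Tor d M → ℝ) :
    ∑ x, ∑ y, w x y * (f x - f y) ^ 2 ≤
      mor sT tT (fun x => if x ∈ A then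
          CT d c * W * ∑ q ∈ S, Real.exp (-(c / (4 * d) * sd x q)) else 0)
        (fun e => CT d c * W * ∑ q ∈ S, Real.exp (-(c / (4 * d) * sd (sT e) q))) f h := by
  set E : Tor d M → Tor d M → Tor d M → ℝ := fun q x y => Real.exp (-(c * (sd x q + sd y q)))
    with hE
  set Sg : Tor d M → Tor d M → ℝ := fun x y => ∑ q ∈ S, E q x y with hSg
  have hEpos : ∀ q x y, 0 < E q x y := fun q x y => Real.exp_pos _
  have hSgp : ∀ x y, 0 < Sg x y := fun x y => Finset.sum_pos (fun q _ => hEpos q x y) hS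
  have h1 : ∀ q ∈ S, ∑ x, ∑ y, (w x y * (E q x y / Sg x y)) * (f x - f y) ^ 2 ≤
      mor sT tT (fun x => if x ∈ A then CT d c * W * Real.exp (-(c / (4 * d) * sd x q)) else 0)
        (fun e => CT d c * W * Real.exp (-(c / (4 * d) * sd (sT e) q))) f h := by
    intro q _
    refine tlt hd q A (fun x y => w x y * (E q x y / Sg x y)) hW hc hc1 (fun x y => ?_)
      (fun x y hxy => ?_) (fun x y => ?_) f h
    · exact mul_nonneg (hw x y) (div_nonneg (hEpos q x y).le (hSgp x y).le)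
    · rw [hwA x y hxy, zero_mul]
    · have h2 := mul_le_mul_of_nonneg_right (hwW x y)
        (div_nonneg (hEpos q x y).le (hSgp x y).le)
      refine h2.trans (le_of_eq ?_)
      have h3 : (∑ q ∈ S, Real.exp (-(c * (sd x q + sd y q)))) = Sg x y := rfl
      rw [h3, mul_assoc, mul_div_cancel₀ _ (hSgp x y).ne']
  have h2 : ∑ x, ∑ y, w x y * (f x - f y) ^ 2 =
      ∑ q ∈ S, ∑ x, ∑ y, (w x y * (E q x y / Sg x y)) * (f x - f y) ^ 2 := by
    rw [Finset.sum_comm (s := S)]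
    refine Finset.sum_congr rfl fun x _ => ?_
    rw [Finset.sum_comm (s := S)]
    refine Finset.sum_congr rfl fun y _ => ?_
    rw [← Finset.sum_mul, ← Finset.mul_sum, ← Finset.sum_div, div_self (hSgp x y).ne', mul_one]
  rw [h2]
  refine (Finset.sum_le_sum h1).trans (le_of_eq ?_)
  rw [mor_sumJ]
  congr 1
  · funext x
    by_cases hx : x ∈ A
    · simp only [if_pos hx, Finset.mul_sum]
    · simp only [if_neg hx, Finset.sum_const_zero]
  · funext e
    rw [Finset.mul_sum]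

/-- the number of the boxes which contain `x` -/
def nb {ι : Type} (I : Finset ι) (a₀ : ι → Tor d M) (L : ℕ) (x : Tor d M) : ℝ :=
  ∑ j ∈ I, if Box (a₀ j) L x then 1 else 0

/-- the number of the boxes which contain the bond `e` -/
def nbE {ι : Type} (I : Finset ι) (a₀ : ι → Tor d M) (L : ℕ) (e : Bd d M) : ℝ :=
  ∑ j ∈ I, if Box (a₀ j) L (sT e) ∧ Box (a₀ j) L (tT e) then 1 else 0

theorem nb_nonneg {ι : Type} (I : Finset ι) (a₀ : ι → Tor d M) (L : ℕ) (x : Tor d M) :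
    0 ≤ nb I a₀ L x := Finset.sum_nonneg fun j _ => by split <;> norm_num

theorem nbE_nonneg {ι : Type} (I : Finset ι) (a₀ : ι → Tor d M) (L : ℕ) (e : Bd d M) :
    0 ≤ nbE I a₀ L e := Finset.sum_nonneg fun j _ => by split <;> norm_num

theorem nb_le_card {ι : Type} (I : Finset ι) (a₀ : ι → Tor d M) (L : ℕ) (x : Tor d M) :
    nb I a₀ L x ≤ I.card := by
  unfold nb
  refine (Finset.sum_le_sum (g := fun _ => (1 : ℝ)) fun j _ => ?_).trans (le_of_eq (by simp))
  split <;> norm_num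

open Classical in
/-- (RLJ) THE RELEASE OF A LONG CLUSTER on the torus: balls `B j` inside cubes, `S` = the changed
sites -/
theorem rel_torJ (hd : 3 ≤ d) {ι : Type} (I : Finset ι) {k : ℕ} (J : ℕ) {R : ℕ} (hR : 0 < R)
    (hM : 2 ^ k ≤ M) (a₀ : ι → Tor d M) (S : Finset (Tor d M)) (hSne : S.Nonempty)
    {G G' : Matrix (Tor d M) (Tor d M) ℂ} {κ m : Tor d M → ℝ} {A : Finset (Tor d M)}
    {B : ι → Finset (Tor d M)} {ε : ℝ}
    (hs : ∀ x y, G x y = G y x) (hs' : ∀ x y, G' x y = G' y x)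
    (hκ : ∀ x ∈ A, 0 ≤ κ x) (hBA : ∀ j ∈ I, B j ⊆ A)
    (hB : ∀ j ∈ I, ∀ x ∈ B j, Core (a₀ j) (2 ^ k) R x)
    (hε : 0 < ε) (hε1 : ε ≤ 1)
    (hm : ∀ j ∈ I, ∀ x ∈ B j, ∑ y ∈ B j, κ y * ‖G x y - G' x y‖ ^ 2 ≤ m x)
    {w εl εu : Tor d M → ℝ} {bl bu : Bd d M → ℝ} {θ T δ W c b₀ b₁ cu u : ℝ}
    (h : Fm sT tT A w εl εu bl bu (cE G κ A))
    (hw : ∀ x ∈ A, 0 < w x) (h0 : ∀ x ∈ A, 0 ≤ εl x) (h1 : ∀ x ∈ A, εl x ≤ 1 / 4)
    (h0u : ∀ x ∈ A, 0 ≤ εu x) (h1u : ∀ x ∈ A, εu x < 1)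
    (hcu : ∀ x ∈ A, 1 ≤ cu * (1 - εu x)) (hcu0 : 0 ≤ cu)
    (hb₀ : 0 < b₀) (hb : ∀ j ∈ I, ∀ e, Box (a₀ j) (2 ^ k) (sT e) ∧ Box (a₀ j) (2 ^ k) (tT e) →
      b₀ ≤ bu e ∧ bu e ≤ b₁) (hb₁ : 0 ≤ b₁)
    (hm0 : ∀ j ∈ I, ∀ x ∈ B j, 0 ≤ m x) (hθ : 0 ≤ θ) (hδ : 0 ≤ δ)
    (hin : ∀ j ∈ I, ∀ x ∈ B j, κ x * m x ≤ θ ∧ κ x * m x ≤ δ * w x)
    (hT : ∀ j ∈ I, ∑ x ∈ B j, κ x * m x ≤ T)
    (hW : 0 ≤ W) (hc : 0 < c) (hc1 : c ≤ 1)
    (hout : ∀ x ∈ A, ∀ y ∈ A, ¬ (∃ j ∈ I, x ∈ B j ∧ y ∈ B j) →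
      κ x * κ y * (‖G x y‖ * ‖G x y - G' x y‖ + ‖G x y - G' x y‖ ^ 2) ≤
        W * ∑ q ∈ S, Real.exp (-(c * (sd x q + sd y q))))
    (hu0 : 0 ≤ u)
    (hu1 : ε * ((2 + 2 * (d : ℝ) ^ 2 * (((2 ^ k : ℕ) : ℝ) / R) ^ 2 * (b₁ / b₀)) * cu) +
      8 / ε * δ ≤ u)
    (hu2 : ε * ((2 + 2 * (d : ℝ) ^ 2 * (((2 ^ k : ℕ) : ℝ) / R) ^ 2 * (b₁ / b₀)) * b₁) +
      8 / ε * fac d J θ T ≤ u * b₁)
    (hv : ∀ x ∈ A, u * nb I a₀ (2 ^ k) x +
      CT d c * W * (∑ q ∈ S, Real.exp (-(c / (4 * d) * sd x q))) / w x ≤ 1 / 16)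
    (hvu : ∀ x ∈ A, εu x + 4 * (u * nb I a₀ (2 ^ k) x +
      CT d c * W * (∑ q ∈ S, Real.exp (-(c / (4 * d) * sd x q))) / w x) < 1) :
    Fm sT tT A w
      (fun x => εl x + 4 * (u * nb I a₀ (2 ^ k) x +
        CT d c * W * (∑ q ∈ S, Real.exp (-(c / (4 * d) * sd x q))) / w x))
      (fun x => εu x + 4 * (u * nb I a₀ (2 ^ k) x +
        CT d c * W * (∑ q ∈ S, Real.exp (-(c / (4 * d) * sd x q))) / w x))
      (fun e => bl e - (u * b₁ * nbE I a₀ (2 ^ k) e +
        CT d c * W * ∑ q ∈ S, Real.exp (-(c / (4 * d) * sd (sT e) q))))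
      (fun e => bu e + (u * b₁ * nbE I a₀ (2 ^ k) e +
        CT d c * W * ∑ q ∈ S, Real.exp (-(c / (4 * d) * sd (sT e) q)))) (cE G' κ A) := by
  set K : ℝ := 2 + 2 * (d : ℝ) ^ 2 * (((2 ^ k : ℕ) : ℝ) / R) ^ 2 * (b₁ / b₀) with hK
  have hK0 : 0 ≤ K := by positivity
  have hCT : 0 ≤ CT d c := by
    unfold CT
    positivity
  have hBbox : ∀ a x : Tor d M, Core a (2 ^ k) R x → Box a (2 ^ k) x := fun a x hx i => by
    have := hx i
    omega
  have hwu : ∀ x, 0 ≤ wu A w εu x := fun x => by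
    unfold wu
    split
    · rename_i hx
      have := hw x hx
      have := h1u x hx
      have : 0 < 1 - εu x := by linarith only [this]
      positivity
    · exact le_rfl
  -- the local forms
  have hloc : ∀ j ∈ I, ∀ f g : Tor d M → ℝ, cE G κ (B j) f ≤
      mor sT tT (fun x => if x ∈ A then (if Box (a₀ j) (2 ^ k) x then K * cu else 0) * w x else 0)
        (fun e => if Box (a₀ j) (2 ^ k) (sT e) ∧ Box (a₀ j) (2 ^ k) (tT e) then K * b₁ else 0)
        f g := by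
    intro j hj f g
    have h2 := loc_form (a₀ j) (R := R) (L := 2 ^ k) (by positivity) hM hR (hBA j hj) hκ (hB j hj)
      hb₀ hb₁ hwu (hb j hj) h.ub f g
    refine h2.trans ?_
    rw [← hK, mor_cut_le, ← mor_smul]
    refine mor_mono sT tT (fun x => ?_) (fun e => ?_) f g
    · by_cases hx : Box (a₀ j) (2 ^ k) x
      · rw [if_pos hx, if_pos hx]
        unfold wu
        by_cases hxA : x ∈ A
        · rw [if_pos hxA, if_pos hxA]
          have i1 := hw x hxA
          have i2 : 0 < 1 - εu x := by linarith only [h1u x hxA]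
          have i3 := hcu x hxA
          have i4 : w x / (1 - εu x) ≤ cu * w x := by
            rw [div_le_iff₀ i2]
            nlinarith only [i1, i3]
          calc K * (w x / (1 - εu x)) ≤ K * (cu * w x) := mul_le_mul_of_nonneg_left i4 hK0
            _ = K * cu * w x := by ring
        · rw [if_neg hxA, if_neg hxA, mul_zero]
      · rw [if_neg hx, if_neg hx, mul_zero, zero_mul]
        split <;> exact le_rfl
    · by_cases he : Box (a₀ j) (2 ^ k) (sT e) ∧ Box (a₀ j) (2 ^ k) (tT e)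
      · rw [if_pos he, if_pos he]
        exact mul_le_mul_of_nonneg_left (hb j hj e he).2 hK0
      · rw [if_neg he, if_neg he, mul_zero]
  -- the absorbers
  set a : ι → Tor d M → ℝ := fun j x => if x ∈ B j then κ x * m x else 0 with ha
  have ha0 : ∀ j ∈ I, ∀ x, 0 ≤ a j x := fun j hj x => by
    rw [ha]
    dsimp only
    split
    · rename_i hx
      exact mul_nonneg (hκ x (hBA j hj hx)) (hm0 j hj x hx)
    · exact le_rfl
  have hab : ∀ j ∈ I, ∀ f g : Tor d M → ℝ, ∑ x, a j x * (f x - wm (a j) f) ^ 2 ≤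
      mor sT tT (fun x => if x ∈ A then (if Box (a₀ j) (2 ^ k) x then 2 * δ else 0) * w x else 0)
        (fun e => if Box (a₀ j) (2 ^ k) (sT e) ∧ Box (a₀ j) (2 ^ k) (tT e) then
          2 * fac d J θ T else 0) f g := by
    intro j hj f g
    have h2 := bxa hd J hM (a₀ j) (a := a j) (al := fun x => if x ∈ A then w x else 0)
      (be := fun _ => 1) (θ := θ) (T := T) (δ := δ) (b₀ := 1) (ha0 j hj)
      (fun x hx => if_neg fun hxB => hx (hBbox _ x (hB j hj x hxB)))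
      (fun x => by
        rw [ha]
        dsimp only
        split
        · rename_i hx
          exact (hin j hj x hx).1
        · exact hθ)
      (by
        rw [ha, ← Finset.sum_subset (Finset.subset_univ (B j))]
        · refine le_trans (le_of_eq (Finset.sum_congr rfl fun x hx => ?_)) (hT j hj)
          exact if_pos hx
        · intro x _ hx
          exact if_neg hx)
      (fun x => by
        rw [ha]
        dsimp only
        by_cases hx : x ∈ B j
        · rw [if_pos hx, if_pos (hBA j hj hx)]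
          exact (hin j hj x hx).2
        · rw [if_neg hx]
          split
          · rename_i hxA
            exact mul_nonneg hδ (hw x hxA).le
          · simp)
      one_pos (fun e _ => le_rfl) f g
    refine h2.trans (le_of_eq ?_)
    rw [mor_cut_le]
    congr 1
    · funext x
      by_cases hx : Box (a₀ j) (2 ^ k) x
      · rw [if_pos hx, if_pos hx]
        split <;> ring
      · rw [if_neg hx, if_neg hx]
        simp
    · funext e
      split <;> ring
  -- the tail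
  have htl : ∀ f g : Tor d M → ℝ, tlJ G G' κ A I B f ≤
      mor sT tT (fun x => if x ∈ A then
          CT d c * W * (∑ q ∈ S, Real.exp (-(c / (4 * d) * sd x q))) / w x * w x else 0)
        (fun e => CT d c * W * ∑ q ∈ S, Real.exp (-(c / (4 * d) * sd (sT e) q))) f g := by
    intro f g
    set w' : Tor d M → Tor d M → ℝ := fun x y => if x ∈ A ∧ y ∈ A then
      (if ∃ j ∈ I, x ∈ B j ∧ y ∈ B j then 0 else
        κ x * κ y * (‖G x y‖ * ‖G x y - G' x y‖ + ‖G x y - G' x y‖ ^ 2)) else 0 with hw'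
    have e1 : tlJ G G' κ A I B f = ∑ x, ∑ y, w' x y * (f x - f y) ^ 2 := by
      unfold tlJ
      rw [← Finset.sum_subset (Finset.subset_univ A)]
      · refine Finset.sum_congr rfl fun x hx => ?_
        rw [← Finset.sum_subset (Finset.subset_univ A)]
        · refine Finset.sum_congr rfl fun y hy => ?_
          have ew : w' x y = if ∃ j ∈ I, x ∈ B j ∧ y ∈ B j then 0 else
            κ x * κ y * (‖G x y‖ * ‖G x y - G' x y‖ + ‖G x y - G' x y‖ ^ 2) := if_pos ⟨hx, hy⟩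
          rw [ew]
          by_cases hxy : ∃ j ∈ I, x ∈ B j ∧ y ∈ B j
          · rw [if_pos hxy, if_pos hxy, zero_mul]
          · rw [if_neg hxy, if_neg hxy]
        · intro y _ hy
          have ew : w' x y = 0 := if_neg (fun h => hy h.2)
          rw [ew, zero_mul]
      · intro x _ hx
        refine Finset.sum_eq_zero fun y _ => ?_
        have ew : w' x y = 0 := if_neg (fun h => hx h.1)
        rw [ew, zero_mul]
    rw [e1]
    refine (tltJ (by omega : 0 < d) S hSne A w' hW hc hc1 (fun x y => ?_)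
      (fun x y hxy => if_neg hxy) (fun x y => ?_) f g).trans (le_of_eq ?_)
    · rw [hw']
      dsimp only
      split
      · rename_i hxy
        split
        · exact le_rfl
        · have := hκ x hxy.1
          have := hκ y hxy.2
          positivity
      · exact le_rfl
    · rw [hw']
      dsimp only
      split
      · rename_i hxy
        split
        · positivity
        · rename_i hxB
          exact hout x hxy.1 y hxy.2 hxB
      · positivity
    · congr 1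
      funext x
      by_cases hx : x ∈ A
      · rw [if_pos hx, if_pos hx, div_mul_cancel₀ _ (hw x hx).ne']
      · rw [if_neg hx, if_neg hx]
  -- the error
  set v : Tor d M → ℝ := fun x => u * nb I a₀ (2 ^ k) x +
      CT d c * W * (∑ q ∈ S, Real.exp (-(c / (4 * d) * sd x q))) / w x with hvdef
  set dl : Bd d M → ℝ := fun e => u * b₁ * nbE I a₀ (2 ^ k) e +
        CT d c * W * ∑ q ∈ S, Real.exp (-(c / (4 * d) * sd (sT e) q)) with hdl
  have herr : ∀ f g : Tor d M → ℝ, |cE G' κ A f - cE G κ A f| ≤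
      mor sT tT (fun x => if x ∈ A then v x * w x else 0) dl f g := by
    intro f g
    have i1 := frxJ I B hs hs' hκ hBA hε hε1 m hm f (fun j => wm (a j) f)
    refine i1.trans ?_
    have i2 : ∀ j ∈ I, ε * cE G κ (B j) f +
        4 / ε * ∑ x ∈ B j, κ x * m x * (f x - wm (a j) f) ^ 2 ≤
        mor sT tT (fun x => if x ∈ A then (if Box (a₀ j) (2 ^ k) x then u else 0) * w x else 0)
          (fun e => if Box (a₀ j) (2 ^ k) (sT e) ∧ Box (a₀ j) (2 ^ k) (tT e) then u * b₁ else 0)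
          f g := by
      intro j hj
      have e2 : ∑ x ∈ B j, κ x * m x * (f x - wm (a j) f) ^ 2 =
          ∑ x, a j x * (f x - wm (a j) f) ^ 2 := by
        rw [← Finset.sum_subset (Finset.subset_univ (B j))]
        · refine Finset.sum_congr rfl fun x hx => ?_
          have : a j x = κ x * m x := if_pos hx
          rw [this]
        · intro x _ hx
          have : a j x = 0 := if_neg hx
          rw [this, zero_mul]
      rw [e2]
      have i3 := mul_le_mul_of_nonneg_left (hloc j hj f g) hε.le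
      have i4 := mul_le_mul_of_nonneg_left (hab j hj f g) (by positivity : 0 ≤ 4 / ε)
      refine (add_le_add i3 i4).trans ?_
      rw [← mor_smul, ← mor_smul, ← mor_add]
      refine mor_mono sT tT (fun x => ?_) (fun e => ?_) f g
      · by_cases hx : x ∈ A
        · simp only [if_pos hx]
          by_cases hb : Box (a₀ j) (2 ^ k) x
          · simp only [if_pos hb]
            have i5 := hw x hx
            have : 4 / ε * (2 * δ) = 8 / ε * δ := by ring
            nlinarith only [hu1, i5, this]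
          · simp [if_neg hb]
        · simp [if_neg hx]
      · by_cases hb : Box (a₀ j) (2 ^ k) (sT e) ∧ Box (a₀ j) (2 ^ k) (tT e)
        · simp only [if_pos hb]
          have : 4 / ε * (2 * fac d J θ T) = 8 / ε * fac d J θ T := by ring
          linarith only [hu2, this]
        · simp [if_neg hb]
    refine (add_le_add (Finset.sum_le_sum i2) (htl f g)).trans (le_of_eq ?_)
    rw [mor_sumJ, ← mor_add]
    congr 1
    · funext x
      by_cases hx : x ∈ A
      · simp only [if_pos hx]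
        rw [← Finset.sum_mul, hvdef]
        dsimp only
        rw [add_mul]
        congr 2
        unfold nb
        rw [Finset.mul_sum]
        refine Finset.sum_congr rfl fun j _ => ?_
        split <;> ring
      · simp [if_neg hx]
    · funext e
      rw [hdl]
      dsimp only
      congr 1
      unfold nbE
      rw [Finset.mul_sum]
      refine Finset.sum_congr rfl fun j _ => ?_
      split <;> ring
  have hv0 : ∀ x ∈ A, 0 ≤ v x := by
    intro x hx
    have i1 := hw x hx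
    have i2 := nb_nonneg I a₀ (2 ^ k) x
    have i3 : 0 ≤ ∑ q ∈ S, Real.exp (-(c / (4 * d) * sd x q)) :=
      Finset.sum_nonneg fun q _ => (Real.exp_pos _).le
    rw [hvdef]
    positivity
  exact fm_err (v := v) (dl := dl) h (fun x hx => (hw x hx).le) h0 h1 h0u hvu hv0 hv herr

end torus

end Pool.Agent.CTC
end
end -- Pool.Agent.Helper34_CTC.Mul

section -- Pool.Agent.Helper34_CTC.Seq

/-!
# The cut of several clusters, one after the other
-/

set_option autoImplicit false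
set_option linter.unusedSectionVars false

open scoped BigOperators
open Finset

noncomputable section

namespace Pool.Agent.CTC

open Pool.Agent.LTG Pool.Agent.ANR Pool.Agent.ANP.H61

variable {d M : ℕ} [NeZero M]

/-- (CTJ) THE CUT of the sites `⋃ Q j`. All hypotheses are about one `Q j` in the full network. -/
theorem cut_torJ (hcut : CutStmt) (hd : 3 ≤ d) {ι : Type} [DecidableEq ι] (I : Finset ι) {k : ℕ}
    (J : ℕ) (hM : 2 ^ k ≤ M) (a₀ b : ι → Tor d M)
    {G : Matrix (Tor d M) (Tor d M) ℂ} {κ : Tor d M → ℝ} {A : Finset (Tor d M)}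
    {Q : ι → Finset (Tor d M)} (hQA : ∀ j ∈ I, Q j ⊆ A)
    (hdis : ∀ i ∈ I, ∀ j ∈ I, i ≠ j → Disjoint (Q i) (Q j))
    (hs : ∀ x y, G x y = G y x) (hκ : ∀ x ∈ A, 0 ≤ κ x)
    {w εl εu : Tor d M → ℝ} {bl bu : Bd d M → ℝ} {θ T δ W c : ℝ}
    (h : Fm sT tT A w εl εu bl bu (cE G κ A))
    (hw : ∀ x ∈ A, 0 < w x) (h0 : ∀ x ∈ A, 0 ≤ εl x)
    (hθ : 0 ≤ θ) (hδ : 0 ≤ δ) (hW : 0 ≤ W) (hc : 0 < c) (hc1 : c ≤ 1)
    (hin : ∀ j ∈ I, ∀ x ∈ A \ Q j, Box (a₀ j) (2 ^ k) x →
      κ x * fl G κ (Q j) x ≤ θ ∧ κ x * fl G κ (Q j) x ≤ δ * w x)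
    (hT : ∀ j ∈ I, ∑ x ∈ A \ Q j, (if Box (a₀ j) (2 ^ k) x then κ x * fl G κ (Q j) x else 0) ≤ T)
    (hout : ∀ j ∈ I, ∀ x ∈ A \ Q j, ¬ Box (a₀ j) (2 ^ k) x →
      κ x * fl G κ (Q j) x ≤ W * Real.exp (-(c * sd x (b j))))
    (hgeo : ∀ j ∈ I, ∀ x y, ¬ Box (a₀ j) (2 ^ k) x → Box (a₀ j) (2 ^ k) y →
      sd y (b j) ≤ 2 * sd x (b j))
    (hv : ∀ x ∈ A, εl x + 4 * (2 * δ * nb I a₀ (2 ^ k) x +
      CT d (c / 3) * W * (∑ j ∈ I, Real.exp (-(c / 3 / (4 * d) * sd x (b j)))) / w x) ≤ 1 / 4) :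
    Fm sT tT (A \ I.biUnion Q) w
      (fun x => εl x + 4 * (2 * δ * nb I a₀ (2 ^ k) x +
        CT d (c / 3) * W * (∑ j ∈ I, Real.exp (-(c / 3 / (4 * d) * sd x (b j)))) / w x)) εu
      (fun e => bl e - (2 * fac d J θ T * nbE I a₀ (2 ^ k) e +
        CT d (c / 3) * W * ∑ j ∈ I, Real.exp (-(c / 3 / (4 * d) * sd (sT e) (b j)))))
      bu (cE G κ (A \ I.biUnion Q)) := by
  have hCT : 0 ≤ CT d (c / 3) := by
    unfold CT
    positivity
  -- monotonicity of the errors in `I`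
  have hmono : ∀ I' : Finset ι, I' ⊆ I → ∀ x ∈ A,
      2 * δ * nb I' a₀ (2 ^ k) x +
        CT d (c / 3) * W * (∑ j ∈ I', Real.exp (-(c / 3 / (4 * d) * sd x (b j)))) / w x ≤
      2 * δ * nb I a₀ (2 ^ k) x +
        CT d (c / 3) * W * (∑ j ∈ I, Real.exp (-(c / 3 / (4 * d) * sd x (b j)))) / w x := by
    intro I' hI' x hx
    have hwx := hw x hx
    have i1 : nb I' a₀ (2 ^ k) x ≤ nb I a₀ (2 ^ k) x :=
      Finset.sum_le_sum_of_subset_of_nonneg hI' fun j _ _ => by split <;> norm_num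
    have i2 : ∑ j ∈ I', Real.exp (-(c / 3 / (4 * d) * sd x (b j))) ≤
        ∑ j ∈ I, Real.exp (-(c / 3 / (4 * d) * sd x (b j))) :=
      Finset.sum_le_sum_of_subset_of_nonneg hI' fun j _ _ => (Real.exp_pos _).le
    have i3 : 0 ≤ CT d (c / 3) * W := mul_nonneg hCT hW
    refine add_le_add (mul_le_mul_of_nonneg_left i1 (by positivity)) ?_
    exact div_le_div_of_nonneg_right (mul_le_mul_of_nonneg_left i2 i3) hwx.le
  have key : ∀ I' : Finset ι, I' ⊆ I → Fm sT tT (A \ I'.biUnion Q) w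
      (fun x => εl x + 4 * (2 * δ * nb I' a₀ (2 ^ k) x +
        CT d (c / 3) * W * (∑ j ∈ I', Real.exp (-(c / 3 / (4 * d) * sd x (b j)))) / w x)) εu
      (fun e => bl e - (2 * fac d J θ T * nbE I' a₀ (2 ^ k) e +
        CT d (c / 3) * W * ∑ j ∈ I', Real.exp (-(c / 3 / (4 * d) * sd (sT e) (b j)))))
      bu (cE G κ (A \ I'.biUnion Q)) := by
    intro I'
    induction I' using Finset.induction_on with
    | empty =>
      intro _
      have e1 : A \ (∅ : Finset ι).biUnion Q = A := by simp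
      rw [e1]
      have e2 : (fun x => εl x + 4 * (2 * δ * nb (∅ : Finset ι) a₀ (2 ^ k) x +
          CT d (c / 3) * W * (∑ j ∈ (∅ : Finset ι),
            Real.exp (-(c / 3 / (4 * d) * sd x (b j)))) / w x)) = εl := by
        funext x
        simp [nb]
      have e3 : (fun e => bl e - (2 * fac d J θ T * nbE (∅ : Finset ι) a₀ (2 ^ k) e +
          CT d (c / 3) * W * ∑ j ∈ (∅ : Finset ι),
            Real.exp (-(c / 3 / (4 * d) * sd (sT e) (b j))))) = bl := by
        funext e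
        simp [nbE]
      rw [e2, e3]
      exact h
    | insert i I' hi ih =>
      intro hI'
      have hiI : i ∈ I := hI' (Finset.mem_insert_self i I')
      have hI'I : I' ⊆ I := fun j hj => hI' (Finset.mem_insert_of_mem hj)
      have h2 := ih hI'I
      set A' := A \ I'.biUnion Q with hA'
      have hA'A : A' ⊆ A := Finset.sdiff_subset
      have hQA' : Q i ⊆ A' := by
        intro x hx
        rw [hA', Finset.mem_sdiff]
        refine ⟨hQA i hiI hx, fun hc' => ?_⟩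
        obtain ⟨j, hj, hxj⟩ := Finset.mem_biUnion.1 hc'
        have hij : i ≠ j := fun h => hi (h ▸ hj)
        exact Finset.disjoint_left.1 (hdis i hiI j (hI'I hj) hij) hx hxj
      have hsub : A' \ Q i ⊆ A \ Q i := Finset.sdiff_subset_sdiff hA'A (Finset.Subset.refl _)
      have hfl0 : ∀ x ∈ A, 0 ≤ κ x * fl G κ (Q i) x := fun x hx => by
        refine mul_nonneg (hκ x hx) ?_
        unfold fl
        exact Finset.sum_nonneg fun c' hc' => mul_nonneg (hκ c' (hQA i hiI hc')) (sq_nonneg _)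
      have hstep : ∀ x ∈ A, (2 * δ * nb I' a₀ (2 ^ k) x +
          CT d (c / 3) * W * (∑ j ∈ I', Real.exp (-(c / 3 / (4 * d) * sd x (b j)))) / w x) +
          ((if Box (a₀ i) (2 ^ k) x then 2 * δ else 0) +
            CT d (c / 3) * W * Real.exp (-(c / 3 / (4 * d) * sd x (b i))) / w x) =
          2 * δ * nb (insert i I') a₀ (2 ^ k) x +
          CT d (c / 3) * W * (∑ j ∈ insert i I',
            Real.exp (-(c / 3 / (4 * d) * sd x (b j)))) / w x := by
        intro x hx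
        unfold nb
        rw [Finset.sum_insert hi, Finset.sum_insert hi]
        have := (hw x hx).ne'
        split <;> ring
      have hnn : ∀ x ∈ A, 0 ≤ 2 * δ * nb I' a₀ (2 ^ k) x +
          CT d (c / 3) * W * (∑ j ∈ I', Real.exp (-(c / 3 / (4 * d) * sd x (b j)))) / w x := by
        intro x hx
        have := hw x hx
        have := nb_nonneg I' a₀ (2 ^ k) x
        have : 0 ≤ ∑ j ∈ I', Real.exp (-(c / 3 / (4 * d) * sd x (b j))) :=
          Finset.sum_nonneg fun _ _ => (Real.exp_pos _).le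
        positivity
      have hnn2 : ∀ x ∈ A, 0 ≤ (if Box (a₀ i) (2 ^ k) x then 2 * δ else 0) +
            CT d (c / 3) * W * Real.exp (-(c / 3 / (4 * d) * sd x (b i))) / w x := by
        intro x hx
        have := hw x hx
        have : 0 ≤ (if Box (a₀ i) (2 ^ k) x then 2 * δ else 0) := by split <;> positivity
        positivity
      have h3 := cut_tor hcut hd J hM (a₀ i) (b i) hQA' hs (fun x hx => hκ x (hA'A hx)) h2
        (fun x hx => hw x (hA'A hx))
        (fun x hx => by linarith only [h0 x (hA'A hx), hnn x (hA'A hx)])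
        (fun x hx => by linarith only [hmono I' hI'I x (hA'A hx), hv x (hA'A hx)])
        hθ hδ hW hc hc1 (fun x hx => hin i hiI x (hsub hx))
        ((Finset.sum_le_sum_of_subset_of_nonneg hsub fun x hx _ => by
          split
          · exact hfl0 x (Finset.mem_sdiff.1 hx).1
          · exact le_rfl).trans (hT i hiI))
        (fun x hx => hout i hiI x (hsub hx)) (hgeo i hiI)
        (fun x hx => by
          have hxA := hA'A hx
          have := hstep x hxA
          have := hmono _ hI' x hxA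
          have := hv x hxA
          have := h0 x hxA
          have := hnn x hxA
          linarith)
      have e1 : A' \ Q i = A \ (insert i I').biUnion Q := by
        rw [hA']
        ext x
        simp only [Finset.mem_sdiff, Finset.mem_biUnion, Finset.mem_insert, not_exists, not_and]
        constructor
        · rintro ⟨⟨hxA, h1⟩, h2⟩
          refine ⟨hxA, fun j hj => ?_⟩
          rcases hj with rfl | hj
          · exact h2
          · exact h1 j hj
        · rintro ⟨hxA, h1⟩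
          exact ⟨⟨hxA, fun j hj => h1 j (Or.inr hj)⟩, h1 i (Or.inl rfl)⟩
      rw [e1] at h3
      refine ⟨lb_mono sT tT (fun x => ?_) (fun e => ?_) h3.lb, h3.ub⟩
      · unfold wl
        by_cases hx : x ∈ A \ (insert i I').biUnion Q
        · rw [if_pos hx, if_pos hx]
          have hxA := (Finset.mem_sdiff.1 hx).1
          refine le_of_eq ?_
          have e4 := hstep x hxA
          dsimp only
          rw [← e4]
          ring
        · rw [if_neg hx, if_neg hx]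
      · refine le_of_eq ?_
        unfold nbE
        rw [Finset.sum_insert hi, Finset.sum_insert hi]
        split <;> ring
  exact key I (Finset.Subset.refl I)

end Pool.Agent.CTC
end
end -- Pool.Agent.Helper34_CTC.Seq

section -- Pool.Agent.Helper34_KL2.Cen

/-!
# Cubes around a center
-/

set_option autoImplicit false

open scoped BigOperators
open Finset

namespace Pool.Agent.KL2

open Pool.Agent.LTG Pool.Agent.ANP.H61

variable {d M : ℕ} [NeZero M]

/-- the corner of the cube with the center `j` and the side `2 K` -/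
def cor (K : ℕ) (j : Tor d M) : Tor d M := fun i => j i - (K : ZMod M)

theorem off_near {K r : ℕ} (hK : 2 * K ≤ M) (hr : r < K) {j x : Tor d M} {i : Fin d}
    (h : cd (x i) (j i) ≤ r) : K ≤ off (cor K j) x i + r ∧ off (cor K j) x i ≤ K + r := by
  obtain ⟨z, hz, hz2⟩ := exists_int (x i) (j i)
  have h1 : z.natAbs ≤ r := hz2 ▸ h
  have h2 : off (cor K j) x i = (z + K).toNat := by
    unfold off cor
    have e : x i - (j i - (K : ZMod M)) = (((z + K).toNat : ℕ) : ZMod M) := by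
      have e2 : (((z + K).toNat : ℕ) : ZMod M) = (((z + K).toNat : ℤ) : ZMod M) := by push_cast; rfl
      rw [e2, Int.toNat_of_nonneg (by omega)]
      push_cast
      rw [← hz]
      ring
    rw [e, ZMod.val_natCast, Nat.mod_eq_of_lt (by omega)]
  rw [h2]
  omega

theorem off_far {K : ℕ} (hK : 2 * K ≤ M) {j x : Tor d M} {i : Fin d}
    (h : off (cor K j) x i < 2 * K) : cd (x i) (j i) ≤ K := by
  have e : x i - j i = ((((off (cor K j) x i : ℕ) : ℤ) - K : ℤ) : ZMod M) := by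
    unfold off cor
    push_cast
    rw [ZMod.natCast_val, ZMod.cast_id]
    ring
  have h1 := cd_le (x i) (j i) _ e
  omega

/-- the cube is contained in a ball -/
theorem box_sd {K : ℕ} (hK : 2 * K ≤ M) {j x : Tor d M} (h : Box (cor K j) (2 * K) x) :
    sd x j ≤ K := by
  rw [sd_le]
  exact fun i => off_far hK (h i)

/-- sites off the cube are far from the center -/
theorem nbox_sd {K : ℕ} (hK : 2 * K ≤ M) {j x : Tor d M} (h : ¬ Box (cor K j) (2 * K) x) :
    K ≤ sd x j := by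
  unfold Box at h
  push Not at h
  obtain ⟨i, hi⟩ := h
  by_contra hc
  push Not at hc
  have h1 := le_sd x j i
  have h2 := off_near hK (show cd (x i) (j i) < K by omega) (le_refl _) (j := j) (x := x) (i := i)
  omega

/-- a small ball is in the core of the cube -/
theorem core_sd {K R r : ℕ} (hK : 2 * K ≤ M) (hr : r + R < K) {j x : Tor d M} (h : sd x j ≤ r) :
    Core (cor K j) (2 * K) R x := by
  intro i
  have h1 := off_near hK (show r < K by omega) ((le_sd x j i).trans h) (j := j) (x := x) (i := i)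
  omega

end Pool.Agent.KL2
end -- Pool.Agent.Helper34_KL2.Cen

section -- Pool.Agent.Helper34_KL2.Kfm

/-!
# Kill and release of a cluster in the normal form: cut of the changed sites, then change of `G`
-/

set_option autoImplicit false
set_option linter.unusedSectionVars false

open scoped BigOperators
open Finset

noncomputable section

namespace Pool.Agent.KL2

open Pool.Agent.LTG Pool.Agent.ANR Pool.Agent.ANP.H61 Pool.Agent.CTC

variable {d M : ℕ} [NeZero M]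

/-- `x` is near the changed sites -/
def nr (S : Finset (Tor d M)) (t : ℕ) (x : Tor d M) : Prop := ∃ q ∈ S, 4 * sd x q ≤ t

open Classical in
/-- the numbers of one kill and release: `Q` the cluster, `S = Q ∪ K` the sites which die, `A` the nodes
before, `t` the linking distance, cubes of side `2 ^ (k + 2)` -/
structure KF (Q S A : Finset (Tor d M)) (G G' : Matrix (Tor d M) (Tor d M) ℂ)
    (κ w m : Tor d M → ℝ) (k t : ℕ) (W₁ c₁ Wt θ δ T θ₁ δ₁ T₁ : ℝ) : Prop where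
  hM : 2 ^ (k + 2) ≤ M
  hQS : Q ⊆ S
  hSA : S ⊆ A
  hS : S.Nonempty
  hQt : ∀ x ∈ S, ∃ q ∈ Q, sd x q ≤ t
  hgeo : S.card * t + t + 1 ≤ 2 ^ k
  hs : ∀ x y, G x y = G y x
  hs' : ∀ x y, G' x y = G' y x
  hκ : ∀ x ∈ A, 0 ≤ κ x
  hw : ∀ x ∈ A, 0 < w x
  hc : 0 < c₁ ∧ c₁ ≤ 1
  hW₁ : 0 ≤ W₁
  pos : 0 ≤ θ ∧ 0 ≤ δ ∧ 0 ≤ θ₁ ∧ 0 ≤ δ₁
  /-- decay -/
  d1 : ∀ x ∈ A, ∀ y ∈ A, κ x * κ y * ‖G x y‖ ^ 2 ≤ W₁ * Real.exp (-(c₁ * sd x y))
  d2 : ∀ x ∈ A \ S, ∀ y ∈ A \ S, κ x * κ y * ‖G' x y‖ ^ 2 ≤ W₁ * Real.exp (-(c₁ * sd x y))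
  d3 : ∀ x ∈ A \ S, ∀ y ∈ A \ S, ∃ q ∈ S,
    κ x * κ y * ‖G x y - G' x y‖ ^ 2 ≤ W₁ * Real.exp (-(c₁ * sd x q))
  e1 : (S.card : ℝ) * (W₁ * Real.exp (-(c₁ / 2 * 2 ^ k))) ≤ Wt
  e2 : 6 * W₁ * Real.exp (-(c₁ / 12 * t)) ≤ Wt
  /-- the flux into `S` -/
  f1 : ∀ x ∈ A \ S, (∃ q ∈ Q, sd x q ≤ 2 ^ (k + 2)) →
    κ x * fl G κ S x ≤ θ₁ ∧ κ x * fl G κ S x ≤ δ₁ * w x
  f2 : ∀ x ∈ S, (S.card : ℝ) * (W₁ * Real.exp (-(c₁ * t))) ≤ θ₁ ∧
    (S.card : ℝ) * (W₁ * Real.exp (-(c₁ * t))) ≤ δ₁ * w x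
  f3 : ∑ c ∈ S, κ c * ∑ x ∈ A, κ x * ‖G c x‖ ^ 2 ≤ T₁
  /-- the change of `G` near `S` -/
  m0 : ∀ x ∈ A \ S, nr S t x → 0 ≤ m x
  m1 : ∀ x ∈ A \ S, nr S t x →
    ∑ y ∈ (A \ S).filter (nr S t), κ y * ‖G x y - G' x y‖ ^ 2 ≤ m x
  m2 : ∀ x ∈ A \ S, nr S t x → κ x * m x ≤ θ ∧ κ x * m x ≤ δ * w x
  m3 : ∑ x ∈ (A \ S).filter (nr S t), κ x * m x ≤ T

theorem exp_le_of {a b : ℝ} (h : a ≤ b) : Real.exp (-b) ≤ Real.exp (-a) :=
  Real.exp_le_exp.2 (neg_le_neg h)

/-- the three cases of a tail pair -/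
theorem tail_pair {κx κy g g' D W₁ c₁ Wt a b s tt : ℝ} (hκx : 0 ≤ κx) (hκy : 0 ≤ κy) (hg : 0 ≤ g)
    (hD : 0 ≤ D) (hDg : D ≤ g + g')
    (hW₁ : 0 ≤ W₁) (hc : 0 < c₁)
    (h1 : κx * κy * g ^ 2 ≤ W₁ * Real.exp (-(c₁ * s)))
    (h2 : κx * κy * g' ^ 2 ≤ W₁ * Real.exp (-(c₁ * s)))
    (ha : 0 ≤ a) (hb : 0 ≤ b) (hs : 0 ≤ s)
    (hWt : 6 * W₁ * Real.exp (-(c₁ / 12 * tt)) ≤ Wt)
    (hcase : (κx * κy * D ^ 2 ≤ W₁ * Real.exp (-(c₁ * a)) ∧ b ≤ s + a ∧ tt ≤ 4 * a) ∨
      (a + b ≤ 2 * s ∧ tt ≤ 2 * s)) :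
    κx * κy * (g * D + D ^ 2) ≤ Wt * Real.exp (-(c₁ / 16 * (a + b))) := by
  have hκ : 0 ≤ κx * κy := mul_nonneg hκx hκy
  set k := κx * κy with hk
  have e0 : ∀ r : ℝ, 0 < Real.exp (-r) := fun r => Real.exp_pos _
  rcases hcase with ⟨h3, h4, h5⟩ | ⟨h4, h5⟩
  · -- geometric means
    have hd2 : k * D ^ 2 ≤ 4 * W₁ * Real.exp (-(c₁ * s)) := by
      have e1 : D ^ 2 ≤ 2 * g ^ 2 + 2 * g' ^ 2 := by nlinarith only [sq_nonneg (g - g'), hD, hDg]
      nlinarith only [mul_le_mul_of_nonneg_left e1 hκ, h1, h2]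
    have E1 : Real.exp (-(c₁ * s)) * Real.exp (-(c₁ * a)) = Real.exp (-(c₁ / 2 * (s + a))) ^ 2 := by
      rw [← Real.exp_add, ← Real.exp_nat_mul]
      congr 1
      push_cast
      ring
    set F := Real.exp (-(c₁ / 2 * (s + a))) with hF
    have hF0 : 0 < F := Real.exp_pos _
    have i1 : (k * (g * D)) ^ 2 ≤ (W₁ * F) ^ 2 := by
      have : (k * (g * D)) ^ 2 = (k * g ^ 2) * (k * D ^ 2) := by ring
      rw [this]
      refine (mul_le_mul h1 h3 (mul_nonneg hκ (sq_nonneg _)) (by positivity)).trans (le_of_eq ?_)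
      rw [mul_pow, ← E1]
      ring
    have i2 : (k * D ^ 2) ^ 2 ≤ (2 * (W₁ * F)) ^ 2 := by
      have : (k * D ^ 2) ^ 2 = (k * D ^ 2) * (k * D ^ 2) := by ring
      rw [this]
      refine (mul_le_mul hd2 h3 (mul_nonneg hκ (sq_nonneg _)) (by positivity)).trans (le_of_eq ?_)
      rw [mul_pow, mul_pow, ← E1]
      ring
    have j1 := (pow_le_pow_iff_left₀ (mul_nonneg hκ (mul_nonneg hg hD)) (by positivity)
      (by norm_num)).1 i1
    have j2 := (pow_le_pow_iff_left₀ (mul_nonneg hκ (sq_nonneg D)) (by positivity)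
      (by norm_num)).1 i2
    have i3 : F ≤ Real.exp (-(c₁ / 12 * tt)) * Real.exp (-(c₁ / 16 * (a + b))) := by
      rw [← Real.exp_add]
      refine Real.exp_le_exp.2 ?_
      nlinarith only [hc, ha, hs, h4, h5]
    have i4 : 3 * (W₁ * F) ≤ 6 * W₁ * Real.exp (-(c₁ / 12 * tt)) *
        Real.exp (-(c₁ / 16 * (a + b))) := by
      have := mul_le_mul_of_nonneg_left i3 hW₁
      have : 0 ≤ W₁ * F := by positivity
      nlinarith
    calc k * (g * D + D ^ 2) = k * (g * D) + k * D ^ 2 := by ring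
      _ ≤ W₁ * F + 2 * (W₁ * F) := add_le_add j1 j2
      _ = 3 * (W₁ * F) := by ring
      _ ≤ _ := i4.trans (mul_le_mul_of_nonneg_right hWt (e0 _).le)
  · have i1 : g * D + D ^ 2 ≤ 7 / 2 * g ^ 2 + 5 / 2 * g' ^ 2 := by
      have hgD := mul_le_mul_of_nonneg_left hDg hg
      have e1 : D ^ 2 ≤ (g + g') ^ 2 := pow_le_pow_left₀ hD hDg 2
      nlinarith only [sq_nonneg (g - g'), hgD, e1]
    have i2 : k * (g * D + D ^ 2) ≤ 6 * W₁ * Real.exp (-(c₁ * s)) := by
      have := mul_le_mul_of_nonneg_left i1 hκ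
      nlinarith only [h1, h2, this]
    have i3 : Real.exp (-(c₁ * s)) ≤ Real.exp (-(c₁ / 12 * tt)) *
        Real.exp (-(c₁ / 16 * (a + b))) := by
      rw [← Real.exp_add]
      refine Real.exp_le_exp.2 ?_
      nlinarith only [hc, hs, h4, h5]
    have i4 := mul_le_mul_of_nonneg_left i3 (by positivity : 0 ≤ 6 * W₁)
    refine i2.trans (i4.trans ?_)
    rw [← mul_assoc]
    exact mul_le_mul_of_nonneg_right hWt (e0 _).le

open Classical in
/-- (KFM) THE FORM AFTER THE KILL AND RELEASE OF A CLUSTER -/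
theorem kfm (hcut : CutStmt) (hd : 3 ≤ d) (Jc Jr : ℕ) {Q S A : Finset (Tor d M)}
    {G G' : Matrix (Tor d M) (Tor d M) ℂ} {κ w m : Tor d M → ℝ} {k t : ℕ}
    {W₁ c₁ Wt θ δ T θ₁ δ₁ T₁ : ℝ} (h : KF Q S A G G' κ w m k t W₁ c₁ Wt θ δ T θ₁ δ₁ T₁)
    {εl εu : Tor d M → ℝ} {bl bu : Bd d M → ℝ} {ε b₀ b₁ cu u : ℝ}
    (hF : Fm sT tT A w εl εu bl bu (cE G κ A))
    (hε : 0 < ε) (hε1 : ε ≤ 1) (h0 : ∀ x ∈ A, 0 ≤ εl x) (h0u : ∀ x ∈ A, 0 ≤ εu x)
    (hcu : ∀ x ∈ A, 1 ≤ cu * (1 - εu x)) (hcu0 : 0 ≤ cu)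
    (hb₀ : 0 < b₀) (hb : ∀ e, (∃ q ∈ Q, sd (sT e) q ≤ 2 ^ (k + 2)) → b₀ ≤ bu e ∧ bu e ≤ b₁)
    (hb₁ : 0 ≤ b₁) (hu0 : 0 ≤ u)
    (hu1 : ε * ((2 + 32 * (d : ℝ) ^ 2 * (b₁ / b₀)) * cu) + 8 / ε * δ ≤ u)
    (hu2 : ε * ((2 + 32 * (d : ℝ) ^ 2 * (b₁ / b₀)) * b₁) + 8 / ε * fac d Jr θ T ≤ u * b₁)
    {ν : Tor d M → ℝ} {νb : Bd d M → ℝ}
    (hν : ∀ x ∈ A, 4 * ((2 * δ₁ + u) * (Q.card * if ∃ q ∈ Q, sd x q ≤ 2 ^ (k + 2) then 1 else 0)) +
      8 * (CT d (c₁ / 16) * Wt * (∑ q ∈ S, Real.exp (-(c₁ / 16 / (4 * d) * sd x q))) / w x) ≤ ν x)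
    (hνb : ∀ e, (2 * fac d Jc θ₁ T₁ + u * b₁) *
        (Q.card * if ∃ q ∈ Q, sd (sT e) q ≤ 2 ^ (k + 2) then 1 else 0) +
      2 * (CT d (c₁ / 16) * Wt * (∑ q ∈ S, Real.exp (-(c₁ / 16 / (4 * d) * sd (sT e) q)))) ≤ νb e)
    (hν1 : ∀ x ∈ A, εl x + ν x ≤ 1 / 4) (hν2 : ∀ x ∈ A, εu x + ν x < 1) :
    Fm sT tT (A \ S) w (fun x => εl x + ν x) (fun x => εu x + ν x) (fun e => bl e - νb e)
      (fun e => bu e + νb e) (cE G' κ (A \ S)) := by
  obtain ⟨hc, hc1⟩ := h.hc
  obtain ⟨hθ, hδ, hθ₁, hδ₁⟩ := h.pos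
  have hWt0 : 0 ≤ Wt := by
    have := h.hW₁
    refine le_trans ?_ h.e2
    positivity
  have hsdc : ∀ x y : Tor d M, (sd x y : ℝ) = sd y x := fun x y => by rw [sd_comm]
  have htri : ∀ x y z : Tor d M, (sd x z : ℝ) ≤ sd x y + sd y z := fun x y z => by
    exact_mod_cast sd_tri x y z
  -- the clusters
  obtain ⟨rep, hrep, hsep⟩ := comp (sd (d := d) (M := M)) sd_self sd_comm sd_tri S t
  set K : ℕ := 2 ^ (k + 1) with hKdef
  have hK2 : 2 ^ (k + 2) = 2 * K := by rw [hKdef]; ring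
  have hKk : K = 2 * 2 ^ k := by rw [hKdef]; ring
  have hKM : 2 * K ≤ M := hK2 ▸ h.hM
  set I : Finset (Tor d M) := S.image rep with hI
  set a₀ : Tor d M → Tor d M := fun j => cor K j with ha₀
  set Qj : Tor d M → Finset (Tor d M) := fun j => S.filter fun x => rep x = j with hQj
  have hIS : I ⊆ S := by
    intro j hj
    obtain ⟨x, hx, rfl⟩ := Finset.mem_image.1 hj
    exact (hrep x hx).1
  have hIQ : ∀ j ∈ I, ∃ q ∈ Q, rep q = j := by
    intro j hj
    obtain ⟨x, hx, rfl⟩ := Finset.mem_image.1 hj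
    obtain ⟨q, hq, hxq⟩ := h.hQt x hx
    refine ⟨q, hq, ?_⟩
    by_contra hne
    have := hsep x hx q (h.hQS hq) (Ne.symm hne)
    omega
  have hIcard : (I.card : ℝ) ≤ Q.card := by
    have h1 : I ⊆ Q.image rep := by
      intro j hj
      obtain ⟨q, hq, hqj⟩ := hIQ j hj
      exact Finset.mem_image.2 ⟨q, hq, hqj⟩
    exact_mod_cast (Finset.card_le_card h1).trans Finset.card_image_le
  have hUn : I.biUnion Qj = S := by
    ext x
    rw [Finset.mem_biUnion]
    constructor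
    · rintro ⟨j, _, hx⟩
      exact (Finset.mem_filter.1 hx).1
    · intro hx
      exact ⟨rep x, Finset.mem_image_of_mem rep hx, Finset.mem_filter.2 ⟨hx, rfl⟩⟩
  have hQjS : ∀ j, Qj j ⊆ S := fun j => Finset.filter_subset _ _
  -- a site of `Qj j` is close to `j`
  have hclose : ∀ j, ∀ c ∈ Qj j, sd c j ≤ S.card * t := by
    intro j c hcj
    obtain ⟨hcS, hcr⟩ := Finset.mem_filter.1 hcj
    have := (hrep c hcS).2.2
    rwa [hcr] at this
  -- the cubes are near `Q`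
  have hBQ : ∀ j ∈ I, ∀ x, Box (a₀ j) (2 * K) x → ∃ q ∈ Q, sd x q ≤ 2 ^ (k + 2) := by
    intro j hj x hx
    obtain ⟨q, hq, hqj⟩ := hIQ j hj
    refine ⟨q, hq, ?_⟩
    have i1 := box_sd hKM hx
    have i2 := hclose j q (Finset.mem_filter.2 ⟨h.hQS hq, hqj⟩)
    have i3 := sd_tri x j q
    have i4 := sd_comm q j
    have i5 := h.hgeo
    rw [hK2]
    omega
  have hnb : ∀ x, nb I a₀ (2 * K) x ≤
      Q.card * (if ∃ q ∈ Q, sd x q ≤ 2 ^ (k + 2) then 1 else 0) := by
    intro x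
    by_cases hx : ∃ q ∈ Q, sd x q ≤ 2 ^ (k + 2)
    · rw [if_pos hx, mul_one]
      exact (nb_le_card I a₀ (2 * K) x).trans hIcard
    · rw [if_neg hx, mul_zero]
      refine le_of_eq (Finset.sum_eq_zero fun j hj => if_neg fun hb => hx (hBQ j hj x hb))
  have hnbE : ∀ e, nbE I a₀ (2 * K) e ≤
      Q.card * (if ∃ q ∈ Q, sd (sT e) q ≤ 2 ^ (k + 2) then 1 else 0) := by
    intro e
    refine le_trans (Finset.sum_le_sum fun j _ => ?_) (hnb (sT e))
    by_cases hb : Box (a₀ j) (2 * K) (sT e)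
    · rw [if_pos hb]
      split <;> norm_num
    · rw [if_neg hb, if_neg (fun h => hb h.1)]
  have hCT : 0 ≤ CT d (c₁ / 16) := by
    unfold CT
    positivity
  -- the sum of the tails
  set Ex : Tor d M → ℝ := fun x => ∑ q ∈ S, Real.exp (-(c₁ / 16 / (4 * d) * sd x q)) with hEx
  have hEx0 : ∀ x, 0 ≤ Ex x := fun x => Finset.sum_nonneg fun _ _ => (Real.exp_pos _).le
  have hExI : ∀ x, ∑ j ∈ I, Real.exp (-(c₁ / 16 / (4 * d) * sd x j)) ≤ Ex x := fun x =>
    Finset.sum_le_sum_of_subset_of_nonneg hIS fun _ _ _ => (Real.exp_pos _).le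
  have hν' : ∀ x ∈ A, 4 * (2 * δ₁ * nb I a₀ (2 * K) x + CT d (c₁ / 16) * Wt *
      (∑ j ∈ I, Real.exp (-(c₁ / 16 / (4 * d) * sd x j))) / w x) +
      4 * (u * nb I a₀ (2 * K) x + CT d (c₁ / 16) * Wt * Ex x / w x) ≤ ν x := by
    intro x hx
    refine le_trans ?_ (hν x hx)
    have hwx := h.hw x hx
    have i1 := mul_le_mul_of_nonneg_left (hnb x) (by positivity : 0 ≤ 4 * (2 * δ₁ + u))
    have i2 : CT d (c₁ / 16) * Wt * (∑ j ∈ I, Real.exp (-(c₁ / 16 / (4 * d) * sd x j))) / w x ≤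
        CT d (c₁ / 16) * Wt * Ex x / w x :=
      div_le_div_of_nonneg_right (mul_le_mul_of_nonneg_left (hExI x) (mul_nonneg hCT hWt0)) hwx.le
    linarith only [i1, i2]
  have hnn1 : ∀ x ∈ A, 0 ≤ 4 * (2 * δ₁ * nb I a₀ (2 * K) x + CT d (c₁ / 16) * Wt *
      (∑ j ∈ I, Real.exp (-(c₁ / 16 / (4 * d) * sd x j))) / w x) := by
    intro x hx
    have := h.hw x hx
    have := nb_nonneg I a₀ (2 * K) x
    have : 0 ≤ ∑ j ∈ I, Real.exp (-(c₁ / 16 / (4 * d) * sd x j)) :=
      Finset.sum_nonneg fun _ _ => (Real.exp_pos _).le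
    positivity
  have hnn2 : ∀ x ∈ A, 0 ≤ 4 * (u * nb I a₀ (2 * K) x + CT d (c₁ / 16) * Wt * Ex x / w x) := by
    intro x hx
    have := h.hw x hx
    have := nb_nonneg I a₀ (2 * K) x
    have := hEx0 x
    positivity
  have hc16 : 3 * c₁ / 16 / 3 = c₁ / 16 := by ring
  -- fluxes
  have hfl : ∀ x ∈ A, ∀ j, κ x * fl G κ (Qj j) x ≤ κ x * fl G κ S x := by
    intro x hx j
    refine mul_le_mul_of_nonneg_left ?_ (h.hκ x hx)
    unfold fl
    exact Finset.sum_le_sum_of_subset_of_nonneg (hQjS j) fun c hc' _ =>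
      mul_nonneg (h.hκ c (h.hSA hc')) (sq_nonneg _)
  have hfs : ∀ x, ∀ j, κ x * fl G κ (Qj j) x = ∑ c ∈ Qj j, κ x * κ c * ‖G x c‖ ^ 2 := by
    intro x j
    unfold fl
    rw [Finset.mul_sum]
    exact Finset.sum_congr rfl fun c _ => by ring
  have hcardj : ∀ j, ((Qj j).card : ℝ) ≤ S.card := fun j => by
    exact_mod_cast Finset.card_le_card (hQjS j)
  -- the cut
  have hC := cut_torJ hcut hd I Jc (k := k + 2) h.hM a₀ (fun j => j) (Q := Qj)
    (fun j _ => (hQjS j).trans h.hSA)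
    (fun i _ j _ hij => by
      rw [Finset.disjoint_left]
      intro x hx hx'
      exact hij ((Finset.mem_filter.1 hx).2.symm.trans (Finset.mem_filter.1 hx').2))
    h.hs h.hκ hF h.hw h0 (θ := θ₁) (T := T₁) (δ := δ₁) (W := Wt) (c := 3 * c₁ / 16) hθ₁ hδ₁ hWt0
    (by positivity) (by linarith only [hc1])
    (fun j hj x hx hbx => by
      rw [hK2] at hbx
      obtain ⟨hxA, hxQ⟩ := Finset.mem_sdiff.1 hx
      by_cases hxS : x ∈ S
      · have i1 : κ x * fl G κ (Qj j) x ≤ (S.card : ℝ) * (W₁ * Real.exp (-(c₁ * t))) := by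
          rw [hfs]
          refine (Finset.sum_le_card_nsmul _ _ (W₁ * Real.exp (-(c₁ * t))) fun c hc' => ?_).trans ?_
          · refine (h.d1 x hxA c (h.hSA (hQjS j hc'))).trans ?_
            refine mul_le_mul_of_nonneg_left (exp_le_of ?_) h.hW₁
            have hne : rep x ≠ rep c := by
              intro he
              refine hxQ (Finset.mem_filter.2 ⟨hxS, ?_⟩)
              rw [he]
              exact (Finset.mem_filter.1 hc').2
            have i2 := hsep x hxS c (hQjS j hc') hne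
            have i3 : (t : ℝ) ≤ sd x c := by exact_mod_cast i2.le
            exact mul_le_mul_of_nonneg_left i3 hc.le
          · rw [nsmul_eq_mul]
            have := h.hW₁
            exact mul_le_mul_of_nonneg_right (hcardj j) (by positivity)
        exact ⟨i1.trans (h.f2 x hxS).1, i1.trans (h.f2 x hxS).2⟩
      · have i1 := h.f1 x (Finset.mem_sdiff.2 ⟨hxA, hxS⟩) (hBQ j hj x hbx)
        exact ⟨(hfl x hxA j).trans i1.1, (hfl x hxA j).trans i1.2⟩)
    (fun j hj => by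
      have i1 : ∑ x ∈ A \ Qj j, (if Box (a₀ j) (2 ^ (k + 2)) x then κ x * fl G κ (Qj j) x else 0) ≤
          ∑ x ∈ A, κ x * fl G κ S x := by
        refine le_trans (Finset.sum_le_sum (g := fun x => κ x * fl G κ S x) fun x hx => ?_) ?_
        · have hxA := (Finset.mem_sdiff.1 hx).1
          split
          · exact hfl x hxA j
          · refine mul_nonneg (h.hκ x hxA) ?_
            unfold fl
            exact Finset.sum_nonneg fun c hc' =>
              mul_nonneg (h.hκ c (h.hSA hc')) (sq_nonneg _)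
        · refine Finset.sum_le_sum_of_subset_of_nonneg Finset.sdiff_subset fun x hx _ => ?_
          refine mul_nonneg (h.hκ x hx) ?_
          unfold fl
          exact Finset.sum_nonneg fun c hc' => mul_nonneg (h.hκ c (h.hSA hc')) (sq_nonneg _)
      refine i1.trans (le_trans (le_of_eq ?_) h.f3)
      unfold fl
      simp only [Finset.mul_sum]
      rw [Finset.sum_comm]
      refine Finset.sum_congr rfl fun c _ => Finset.sum_congr rfl fun x _ => ?_
      rw [h.hs x c]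
      ring)
    (fun j hj x hx hbx => by
      rw [hK2] at hbx
      obtain ⟨hxA, hxQ⟩ := Finset.mem_sdiff.1 hx
      have i0 : (2 : ℝ) * 2 ^ k ≤ sd x j := by
        have := nbox_sd hKM hbx
        rw [hKk] at this
        exact_mod_cast this
      rw [hfs]
      refine (Finset.sum_le_card_nsmul _ _ (W₁ * (Real.exp (-(c₁ / 2 * 2 ^ k)) *
        Real.exp (-(3 * c₁ / 16 * sd x j)))) fun c hc' => ?_).trans ?_
      · refine (h.d1 x hxA c (h.hSA (hQjS j hc'))).trans ?_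
        refine mul_le_mul_of_nonneg_left ?_ h.hW₁
        rw [← Real.exp_add]
        refine Real.exp_le_exp.2 ?_
        have i2 := hclose j c hc'
        have i3 := h.hgeo
        have i4 : (sd c j : ℝ) ≤ 2 ^ k := by
          have : sd c j ≤ 2 ^ k := by omega
          exact_mod_cast this
        have i5 := htri x c j
        nlinarith only [hc, i0, i4, i5]
      · rw [nsmul_eq_mul]
        have := h.hW₁
        calc ((Qj j).card : ℝ) * (W₁ * (Real.exp (-(c₁ / 2 * 2 ^ k)) *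
              Real.exp (-(3 * c₁ / 16 * sd x j))))
            ≤ (S.card : ℝ) * (W₁ * (Real.exp (-(c₁ / 2 * 2 ^ k)) *
              Real.exp (-(3 * c₁ / 16 * sd x j)))) :=
              mul_le_mul_of_nonneg_right (hcardj j) (by positivity)
          _ = (S.card : ℝ) * (W₁ * Real.exp (-(c₁ / 2 * 2 ^ k))) *
              Real.exp (-(3 * c₁ / 16 * sd x j)) := by ring
          _ ≤ _ := mul_le_mul_of_nonneg_right h.e1 (Real.exp_pos _).le)
    (fun j hj x y hx hy => by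
      rw [hK2] at hx hy
      have i1 := nbox_sd hKM hx
      have i2 := box_sd hKM hy
      have : sd y j ≤ 2 * sd x j := by omega
      exact_mod_cast this)
    (fun x hx => by
      rw [hc16, hK2]
      have := hν' x hx
      have := hnn2 x hx
      have := hν1 x hx
      linarith)
  rw [hUn, hc16, hK2] at hC
  -- the release
  have hR := rel_torJ hd I (k := k + 2) Jr (R := 2 ^ k) (by positivity) h.hM a₀ S h.hS
    (G := G) (G' := G') (κ := κ) (m := m) (A := A \ S)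
    (B := fun j => (A \ S).filter fun x => ∃ q ∈ S, rep q = j ∧ 4 * sd x q ≤ t) (ε := ε)
    h.hs h.hs' (fun x hx => h.hκ x (Finset.mem_sdiff.1 hx).1)
    (fun j _ => Finset.filter_subset _ _)
    (fun j hj x hx => by
      rw [hK2]
      obtain ⟨_, q, hq, hqj, hxq⟩ := Finset.mem_filter.1 hx
      refine core_sd hKM (r := S.card * t + t) ?_ ?_
      · have := h.hgeo
        omega
      · have i1 := hclose j q (Finset.mem_filter.2 ⟨hq, hqj⟩)
        have i2 := sd_tri x q j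
        omega)
    hε hε1
    (fun j hj x hx => by
      obtain ⟨hxA, q, hq, hqj, hxq⟩ := Finset.mem_filter.1 hx
      refine le_trans ?_ (h.m1 x hxA ⟨q, hq, hxq⟩)
      refine Finset.sum_le_sum_of_subset_of_nonneg ?_ fun y hy _ => ?_
      · intro y hy
        obtain ⟨hyA, q', hq', _, hyq⟩ := Finset.mem_filter.1 hy
        exact Finset.mem_filter.2 ⟨hyA, q', hq', hyq⟩
      · exact mul_nonneg (h.hκ y (Finset.mem_sdiff.1 (Finset.mem_filter.1 hy).1).1) (sq_nonneg _))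
    (θ := θ) (T := T) (δ := δ) (W := Wt) (c := c₁ / 16) (b₀ := b₀) (b₁ := b₁) (cu := cu) (u := u)
    hC (fun x hx => h.hw x (Finset.mem_sdiff.1 hx).1)
    (fun x hx => by
      have hxA := (Finset.mem_sdiff.1 hx).1
      have := h0 x hxA
      have := hnn1 x hxA
      linarith)
    (fun x hx => by
      have hxA := (Finset.mem_sdiff.1 hx).1
      have := hν' x hxA
      have := hnn2 x hxA
      have := hν1 x hxA
      linarith)
    (fun x hx => h0u x (Finset.mem_sdiff.1 hx).1)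
    (fun x hx => by
      have hxA := (Finset.mem_sdiff.1 hx).1
      have := hν' x hxA
      have := hnn1 x hxA
      have := hnn2 x hxA
      have := hν2 x hxA
      linarith)
    (fun x hx => hcu x (Finset.mem_sdiff.1 hx).1) hcu0 hb₀
    (fun j hj e he => by
      rw [hK2] at he
      exact hb e (hBQ j hj _ he.1))
    hb₁
    (fun j hj x hx => by
      obtain ⟨hxA, q, hq, hqj, hxq⟩ := Finset.mem_filter.1 hx
      exact h.m0 x hxA ⟨q, hq, hxq⟩)
    hθ hδ
    (fun j hj x hx => by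
      obtain ⟨hxA, q, hq, hqj, hxq⟩ := Finset.mem_filter.1 hx
      exact h.m2 x hxA ⟨q, hq, hxq⟩)
    (fun j hj => by
      refine le_trans ?_ h.m3
      refine Finset.sum_le_sum_of_subset_of_nonneg ?_ fun y hy _ => ?_
      · intro y hy
        obtain ⟨hyA, q', hq', _, hyq⟩ := Finset.mem_filter.1 hy
        exact Finset.mem_filter.2 ⟨hyA, q', hq', hyq⟩
      · obtain ⟨hyA, hyn⟩ := Finset.mem_filter.1 hy
        exact mul_nonneg (h.hκ y (Finset.mem_sdiff.1 hyA).1) (h.m0 y hyA hyn))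
    hWt0 (by positivity) (by linarith only [hc1])
    (fun x hx y hy hxy => by
      have hxA := (Finset.mem_sdiff.1 hx).1
      have hyA := (Finset.mem_sdiff.1 hy).1
      have hg' : ‖G x y - G' x y‖ ≤ ‖G x y‖ + ‖G' x y‖ := norm_sub_le _ _
      have key : ∀ q ∈ S, κ x * κ y * (‖G x y‖ * ‖G x y - G' x y‖ + ‖G x y - G' x y‖ ^ 2) ≤
          Wt * Real.exp (-(c₁ / 16 * ((sd x q : ℝ) + sd y q))) →
          κ x * κ y * (‖G x y‖ * ‖G x y - G' x y‖ + ‖G x y - G' x y‖ ^ 2) ≤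
            Wt * ∑ q ∈ S, Real.exp (-(c₁ / 16 * ((sd x q : ℝ) + sd y q))) := by
        intro q hq hh
        refine hh.trans (mul_le_mul_of_nonneg_left ?_ hWt0)
        exact Finset.single_le_sum
          (f := fun q => Real.exp (-(c₁ / 16 * ((sd x q : ℝ) + sd y q))))
          (fun _ _ => (Real.exp_pos _).le) hq
      by_cases hnx : nr S t x
      · by_cases hny : nr S t y
        · -- different clusters
          obtain ⟨q₁, hq₁, h1⟩ := hnx
          obtain ⟨q₂, hq₂, h2⟩ := hny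
          have hne : rep q₁ ≠ rep q₂ := by
            intro he
            refine hxy ⟨rep q₁, Finset.mem_image_of_mem rep hq₁, ?_, ?_⟩
            · exact Finset.mem_filter.2 ⟨hx, q₁, hq₁, rfl, h1⟩
            · exact Finset.mem_filter.2 ⟨hy, q₂, hq₂, he.symm, h2⟩
          have h3 := hsep q₁ hq₁ q₂ hq₂ hne
          have h4 : (t : ℝ) ≤ sd q₁ q₂ := by exact_mod_cast h3.le
          have h5 : 4 * (sd x q₁ : ℝ) ≤ t := by exact_mod_cast h1
          have h6 : 4 * (sd y q₂ : ℝ) ≤ t := by exact_mod_cast h2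
          have h7 := htri q₁ x q₂
          have h8 := htri x y q₂
          have h9 := hsdc q₁ x
          have h10 := htri y x q₁
          have h11 := hsdc y x
          refine key q₁ hq₁ ?_
          refine tail_pair (s := (sd x y : ℝ)) (tt := t) (h.hκ x hxA) (h.hκ y hyA) (norm_nonneg _)
            (norm_nonneg _) hg' h.hW₁ hc (h.d1 x hxA y hyA) (h.d2 x hx y hy)
            (by positivity) (by positivity) (by positivity) h.e2 (Or.inr ⟨?_, ?_⟩)
          · linarith only [h4, h5, h6, h7, h8, h9, h10, h11]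
          · linarith only [h4, h5, h6, h7, h8, h9]
        · obtain ⟨q, hq, h1⟩ := h.d3 y hy x hx
          have h2 : (t : ℝ) ≤ 4 * sd y q := by
            have : ¬ 4 * sd y q ≤ t := fun hh => hny ⟨q, hq, hh⟩
            exact_mod_cast (Nat.lt_of_not_le this).le
          refine key q hq ?_
          have h3 := tail_pair (s := (sd x y : ℝ)) (tt := t) (a := sd y q) (b := sd x q)
            (g := ‖G x y‖) (g' := ‖G' x y‖)
            (D := ‖G x y - G' x y‖) (h.hκ x hxA) (h.hκ y hyA) (norm_nonneg _)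
            (norm_nonneg _) hg' h.hW₁ hc (h.d1 x hxA y hyA) (h.d2 x hx y hy)
            (by positivity) (by positivity) (by positivity) h.e2 (Or.inl ⟨?_, ?_, h2⟩)
          · rw [add_comm (sd x q : ℝ)]
            exact h3
          · rw [h.hs x y, h.hs' x y, mul_comm (κ x)]
            exact h1
          · exact htri x y q
      · obtain ⟨q, hq, h1⟩ := h.d3 x hx y hy
        have h2 : (t : ℝ) ≤ 4 * sd x q := by
          have : ¬ 4 * sd x q ≤ t := fun hh => hnx ⟨q, hq, hh⟩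
          exact_mod_cast (Nat.lt_of_not_le this).le
        refine key q hq ?_
        refine tail_pair (s := (sd x y : ℝ)) (tt := t) (h.hκ x hxA) (h.hκ y hyA) (norm_nonneg _)
          (norm_nonneg _) hg' h.hW₁ hc (h.d1 x hxA y hyA) (h.d2 x hx y hy)
          (by positivity) (by positivity) (by positivity) h.e2 (Or.inl ⟨h1, ?_, h2⟩)
        have h3 := htri y x q
        have h4 := hsdc y x
        linarith only [h3, h4])
    hu0
    (by
      refine le_trans (le_of_eq ?_) hu1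
      have e1 : (((2 ^ (k + 2) : ℕ) : ℝ) / ((2 ^ k : ℕ) : ℝ)) ^ 2 = 16 := by
        push_cast
        rw [pow_add, mul_div_assoc, mul_comm, div_mul_cancel₀ _ (by positivity)]
        norm_num
      rw [e1]
      ring)
    (by
      refine le_trans (le_of_eq ?_) hu2
      have e1 : (((2 ^ (k + 2) : ℕ) : ℝ) / ((2 ^ k : ℕ) : ℝ)) ^ 2 = 16 := by
        push_cast
        rw [pow_add, mul_div_assoc, mul_comm, div_mul_cancel₀ _ (by positivity)]
        norm_num
      rw [e1]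
      ring)
    (fun x hx => by
      have hxA := (Finset.mem_sdiff.1 hx).1
      rw [hK2]
      have := hν' x hxA
      have := hnn1 x hxA
      have := h0 x hxA
      have := hν1 x hxA
      have e : (∑ q ∈ S, Real.exp (-(c₁ / 16 / (4 * d) * sd x q))) = Ex x := rfl
      rw [e]
      linarith)
    (fun x hx => by
      have hxA := (Finset.mem_sdiff.1 hx).1
      rw [hK2]
      have := hν' x hxA
      have := hnn1 x hxA
      have := hν2 x hxA
      have e : (∑ q ∈ S, Real.exp (-(c₁ / 16 / (4 * d) * sd x q))) = Ex x := rfl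
      rw [e]
      linarith)
  rw [hK2] at hR
  have hA' : ∀ x ∈ A \ S, x ∈ A := fun x hx => (Finset.mem_sdiff.1 hx).1
  have hbd : ∀ e, 2 * fac d Jc θ₁ T₁ * nbE I a₀ (2 * K) e + CT d (c₁ / 16) * Wt *
      (∑ j ∈ I, Real.exp (-(c₁ / 16 / (4 * d) * sd (sT e) j))) +
      (u * b₁ * nbE I a₀ (2 * K) e + CT d (c₁ / 16) * Wt * Ex (sT e)) ≤ νb e := by
    intro e
    refine le_trans ?_ (hνb e)
    have hT0 : 0 ≤ T₁ := by
      refine le_trans (Finset.sum_nonneg fun c hc' => ?_) h.f3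
      refine mul_nonneg (h.hκ c (h.hSA hc')) (Finset.sum_nonneg fun x hx => ?_)
      exact mul_nonneg (h.hκ x hx) (sq_nonneg _)
    have i0 := fac_nonneg d Jc hθ₁ hT0
    have i1 := mul_le_mul_of_nonneg_left (hnbE e)
      (by positivity : 0 ≤ 2 * fac d Jc θ₁ T₁ + u * b₁)
    have i2 := mul_le_mul_of_nonneg_left (hExI (sT e)) (mul_nonneg hCT hWt0)
    linarith only [i1, i2]
  have hnbE0 : ∀ e, 0 ≤ 2 * fac d Jc θ₁ T₁ * nbE I a₀ (2 * K) e + CT d (c₁ / 16) * Wt *
      (∑ j ∈ I, Real.exp (-(c₁ / 16 / (4 * d) * sd (sT e) j))) := by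
    intro e
    have hT0 : 0 ≤ T₁ := by
      refine le_trans (Finset.sum_nonneg fun c hc' => ?_) h.f3
      refine mul_nonneg (h.hκ c (h.hSA hc')) (Finset.sum_nonneg fun x hx => ?_)
      exact mul_nonneg (h.hκ x hx) (sq_nonneg _)
    have i0 := fac_nonneg d Jc hθ₁ hT0
    have i1 := nbE_nonneg I a₀ (2 * K) e
    have : 0 ≤ ∑ j ∈ I, Real.exp (-(c₁ / 16 / (4 * d) * sd (sT e) j)) :=
      Finset.sum_nonneg fun _ _ => (Real.exp_pos _).le
    positivity
  refine hR.mono (fun x hx => (h.hw x (hA' x hx)).le) (fun x hx => ?_) (fun x hx => ?_)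
    (fun x hx => ?_) (fun x hx => ?_) (fun e => ?_) (fun e => ?_)
  · have := h0 x (hA' x hx)
    have := hnn1 x (hA' x hx)
    have := hnn2 x (hA' x hx)
    have e : (∑ q ∈ S, Real.exp (-(c₁ / 16 / (4 * d) * sd x q))) = Ex x := rfl
    rw [e]
    linarith
  · have := hν' x (hA' x hx)
    have e : (∑ q ∈ S, Real.exp (-(c₁ / 16 / (4 * d) * sd x q))) = Ex x := rfl
    rw [e]
    linarith only [this]
  · have := hν' x (hA' x hx)
    have := hnn1 x (hA' x hx)
    have e : (∑ q ∈ S, Real.exp (-(c₁ / 16 / (4 * d) * sd x q))) = Ex x := rfl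
    rw [e]
    linarith
  · exact hν2 x (hA' x hx)
  · have := hbd e
    have e2 : (∑ q ∈ S, Real.exp (-(c₁ / 16 / (4 * d) * sd (sT e) q))) = Ex (sT e) := rfl
    rw [e2]
    linarith only [this]
  · have := hbd e
    have := hnbE0 e
    have e2 : (∑ q ∈ S, Real.exp (-(c₁ / 16 / (4 * d) * sd (sT e) q))) = Ex (sT e) := rfl
    rw [e2]
    linarith

end Pool.Agent.KL2
end
end -- Pool.Agent.Helper34_KL2.Kfm

section -- Pool.Agent.Helper44_ANR.FRM

/-! Squad ANR (MP_1906c1_mp), row FRM (helper44): the change of the form of the outer sites. -/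

set_option autoImplicit false

open scoped BigOperators ComplexConjugate

noncomputable section

namespace Pool.Agent.ANR.H44

theorem pw {a g g' d w : ℝ} (ha : 0 ≤ a) (hw : 0 ≤ w) (hg : 0 ≤ g) (hg' : 0 ≤ g') (hd : 0 ≤ d)
    (h : |g' - g| ≤ d) :
    |a * g' ^ 2 * w - a * g ^ 2 * w| ≤ a * (2 * g * d + d ^ 2) * w := by
  have h1 : |g' ^ 2 - g ^ 2| ≤ 2 * g * d + d ^ 2 := by
    have h2 : g' ^ 2 - g ^ 2 = (g' - g) * (g' + g) := by ring
    have h3 : g' ≤ g + d := by linarith [(abs_le.1 h).2]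
    have h4 : |g' + g| = g' + g := abs_of_nonneg (by linarith)
    rw [h2, abs_mul, h4]
    calc |g' - g| * (g' + g) ≤ d * (g + d + g) :=
          mul_le_mul h (by linarith) (by linarith) hd
      _ = _ := by ring
  have h5 : a * g' ^ 2 * w - a * g ^ 2 * w = a * w * (g' ^ 2 - g ^ 2) := by ring
  rw [h5, abs_mul, abs_of_nonneg (mul_nonneg ha hw)]
  calc a * w * |g' ^ 2 - g ^ 2| ≤ a * w * (2 * g * d + d ^ 2) :=
        mul_le_mul_of_nonneg_left h1 (mul_nonneg ha hw)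
    _ = _ := by ring

theorem young {g d ε : ℝ} (hε : 0 < ε) (hε1 : ε ≤ 1) :
    1 / 2 * (2 * g * d + d ^ 2) ≤ ε / 2 * g ^ 2 + 1 / ε * d ^ 2 := by
  obtain ⟨t, ht⟩ : ∃ t : ℝ, t = 1 / ε := ⟨_, rfl⟩
  have hte : t * ε = 1 := by rw [ht]; field_simp
  have ht1 : 1 ≤ t := by
    rw [ht, le_div_iff₀ hε]
    linarith
  rw [← ht]
  have h1 : 0 ≤ t * (ε * g - d) ^ 2 := mul_nonneg (by linarith) (sq_nonneg _)
  have h2 : t * (ε * g - d) ^ 2 = ε * g ^ 2 - 2 * g * d + t * d ^ 2 := by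
    linear_combination (ε * g ^ 2 - 2 * g * d) * hte
  have h3 : d ^ 2 ≤ t * d ^ 2 := by nlinarith only [sq_nonneg d, ht1]
  rw [h2] at h1
  linarith

theorem frm (h2 : Lv2Stmt) (hgeq : GeqStmt) : FrmStmt := by
  intro X _ _ H H' κ κ' F A B L f c ε hN hN' hoff hdis hBA hε hε1 hL
  classical
  obtain ⟨G, hG⟩ : ∃ G, G = Gr H κ := ⟨_, rfl⟩
  obtain ⟨G', hG'⟩ : ∃ G', G' = Gr H' κ' := ⟨_, rfl⟩
  have hs : ∀ x y, G x y = G y x := by rw [hG]; exact (hgeq X H κ hN).2.1
  have hs' : ∀ x y, G' x y = G' y x := by rw [hG']; exact (hgeq X H' κ' hN').2.1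
  have hLv : ∀ x ∈ A, ∑ z ∈ Fᶜ, κ z * ‖G z x - G' z x‖ ^ 2 ≤ 4 * L x := by
    intro x hx
    have hxF : x ∉ F := Finset.disjoint_left.1 hdis hx
    obtain ⟨h0, h1⟩ := hL x hx
    rw [hG, hG']
    exact (h2 X H H' κ κ' F x x (L x) (L x) hN hN' hoff hxF hxF h0 h0 h1 h1).2.1
  have hBF : B ⊆ Fᶜ := fun x hx => by
    rw [Finset.mem_compl]
    exact Finset.disjoint_left.1 hdis (hBA hx)
  have hκ : ∀ x, 0 ≤ κ x := fun x => (hN.pos x).le
  rw [← hG, ← hG']
  -- pointwise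
  have hp : ∀ x y, 1 / 2 * |κ x * κ y * ‖G' x y‖ ^ 2 * (f x - f y) ^ 2 -
      κ x * κ y * ‖G x y‖ ^ 2 * (f x - f y) ^ 2| ≤
      (if x ∈ B ∧ y ∈ B then (ε / 2 * (κ x * κ y * ‖G x y‖ ^ 2 * (f x - f y) ^ 2) +
        1 / ε * (κ x * κ y * ‖G x y - G' x y‖ ^ 2 * (f x - f y) ^ 2)) else 0) +
      (if x ∈ B ∧ y ∈ B then 0 else
        κ x * κ y * (‖G x y‖ * ‖G x y - G' x y‖ + ‖G x y - G' x y‖ ^ 2) * (f x - f y) ^ 2) := by
    intro x y
    have ha : 0 ≤ κ x * κ y := mul_nonneg (hκ x) (hκ y)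
    have hw : 0 ≤ (f x - f y) ^ 2 := sq_nonneg _
    have h1 : |‖G' x y‖ - ‖G x y‖| ≤ ‖G x y - G' x y‖ := by
      rw [abs_sub_comm]
      exact abs_norm_sub_norm_le _ _
    have h3 := pw ha hw (norm_nonneg (G x y)) (norm_nonneg (G' x y))
      (norm_nonneg (G x y - G' x y)) h1
    have h4 : 1 / 2 * |κ x * κ y * ‖G' x y‖ ^ 2 * (f x - f y) ^ 2 -
        κ x * κ y * ‖G x y‖ ^ 2 * (f x - f y) ^ 2| ≤ (κ x * κ y * (f x - f y) ^ 2) *
        (1 / 2 * (2 * ‖G x y‖ * ‖G x y - G' x y‖ + ‖G x y - G' x y‖ ^ 2)) := by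
      calc _ ≤ 1 / 2 * (κ x * κ y * (2 * ‖G x y‖ * ‖G x y - G' x y‖ + ‖G x y - G' x y‖ ^ 2) *
            (f x - f y) ^ 2) := mul_le_mul_of_nonneg_left h3 (by norm_num)
        _ = _ := by ring
    have haw : 0 ≤ κ x * κ y * (f x - f y) ^ 2 := mul_nonneg ha hw
    refine h4.trans ?_
    split_ifs
    · rw [add_zero]
      calc _ ≤ (κ x * κ y * (f x - f y) ^ 2) * (ε / 2 * ‖G x y‖ ^ 2 +
            1 / ε * ‖G x y - G' x y‖ ^ 2) := mul_le_mul_of_nonneg_left (young hε hε1) haw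
        _ = _ := by ring
    · rw [zero_add]
      have h5 : 1 / 2 * (2 * ‖G x y‖ * ‖G x y - G' x y‖ + ‖G x y - G' x y‖ ^ 2) ≤
          ‖G x y‖ * ‖G x y - G' x y‖ + ‖G x y - G' x y‖ ^ 2 := by
        nlinarith only [sq_nonneg ‖G x y - G' x y‖]
      calc _ ≤ (κ x * κ y * (f x - f y) ^ 2) * (‖G x y‖ * ‖G x y - G' x y‖ +
            ‖G x y - G' x y‖ ^ 2) := mul_le_mul_of_nonneg_left h5 haw
        _ = _ := by ring
  -- the sum
  have hsum : |cE G' κ A f - cE G κ A f| ≤ ∑ x ∈ A, ∑ y ∈ A,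
      ((if x ∈ B ∧ y ∈ B then (ε / 2 * (κ x * κ y * ‖G x y‖ ^ 2 * (f x - f y) ^ 2) +
        1 / ε * (κ x * κ y * ‖G x y - G' x y‖ ^ 2 * (f x - f y) ^ 2)) else 0) +
      (if x ∈ B ∧ y ∈ B then 0 else
        κ x * κ y * (‖G x y‖ * ‖G x y - G' x y‖ + ‖G x y - G' x y‖ ^ 2) *
          (f x - f y) ^ 2)) := by
    unfold cE
    rw [← mul_sub, ← Finset.sum_sub_distrib, Finset.mul_sum]
    refine (Finset.abs_sum_le_sum_abs _ _).trans (Finset.sum_le_sum fun x _ => ?_)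
    rw [← Finset.sum_sub_distrib, Finset.mul_sum]
    refine (Finset.abs_sum_le_sum_abs _ _).trans (Finset.sum_le_sum fun y _ => ?_)
    rw [abs_mul, abs_of_nonneg (by norm_num : (0 : ℝ) ≤ 1 / 2)]
    exact hp x y
  have hite : ∀ s : X → X → ℝ, ∑ x ∈ A, ∑ y ∈ A, (if x ∈ B ∧ y ∈ B then s x y else 0) =
      ∑ x ∈ B, ∑ y ∈ B, s x y := by
    intro s
    have h3 : ∀ x, ∑ y ∈ A, (if x ∈ B ∧ y ∈ B then s x y else 0) =
        if x ∈ B then ∑ y ∈ B, s x y else 0 := by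
      intro x
      by_cases hx : x ∈ B
      · simp only [hx, true_and, if_true]
        rw [Finset.sum_ite_mem, Finset.inter_eq_right.2 hBA]
      · simp only [hx, false_and, if_false, Finset.sum_const_zero]
    simp only [h3]
    rw [Finset.sum_ite_mem, Finset.inter_eq_right.2 hBA]
  have hsplit : ∑ x ∈ A, ∑ y ∈ A,
      ((if x ∈ B ∧ y ∈ B then (ε / 2 * (κ x * κ y * ‖G x y‖ ^ 2 * (f x - f y) ^ 2) +
        1 / ε * (κ x * κ y * ‖G x y - G' x y‖ ^ 2 * (f x - f y) ^ 2)) else 0) +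
      (if x ∈ B ∧ y ∈ B then 0 else
        κ x * κ y * (‖G x y‖ * ‖G x y - G' x y‖ + ‖G x y - G' x y‖ ^ 2) *
          (f x - f y) ^ 2)) = ε * cE G κ B f +
        1 / ε * ∑ x ∈ B, ∑ y ∈ B, κ x * κ y * ‖G x y - G' x y‖ ^ 2 * (f x - f y) ^ 2 +
        tl G G' κ A B f := by
    simp only [Finset.sum_add_distrib]
    congr 1
    rw [hite]
    simp only [Finset.sum_add_distrib, ← Finset.mul_sum]
    congr 1
    unfold cE
    ring
  rw [hsplit] at hsum
  refine hsum.trans ?_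
  have hfin : ∑ x ∈ B, ∑ y ∈ B, κ x * κ y * ‖G x y - G' x y‖ ^ 2 * (f x - f y) ^ 2 ≤
      16 * ∑ x ∈ B, κ x * L x * (f x - c) ^ 2 := by
    have h3 : ∀ x y, κ x * κ y * ‖G x y - G' x y‖ ^ 2 * (f x - f y) ^ 2 ≤
        2 * (κ x * κ y * ‖G x y - G' x y‖ ^ 2 * (f x - c) ^ 2) +
        2 * (κ x * κ y * ‖G x y - G' x y‖ ^ 2 * (f y - c) ^ 2) := by
      intro x y
      have h4 : 0 ≤ κ x * κ y * ‖G x y - G' x y‖ ^ 2 :=
        mul_nonneg (mul_nonneg (hκ x) (hκ y)) (sq_nonneg _)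
      have h5 : (f x - f y) ^ 2 ≤ 2 * (f x - c) ^ 2 + 2 * (f y - c) ^ 2 := by
        nlinarith only [sq_nonneg ((f x - c) + (f y - c))]
      calc _ ≤ κ x * κ y * ‖G x y - G' x y‖ ^ 2 * (2 * (f x - c) ^ 2 + 2 * (f y - c) ^ 2) :=
            mul_le_mul_of_nonneg_left h5 h4
        _ = _ := by ring
    have h6 : ∑ x ∈ B, ∑ y ∈ B, κ x * κ y * ‖G x y - G' x y‖ ^ 2 * (f y - c) ^ 2 =
        ∑ x ∈ B, ∑ y ∈ B, κ x * κ y * ‖G x y - G' x y‖ ^ 2 * (f x - c) ^ 2 := by
      rw [Finset.sum_comm]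
      refine Finset.sum_congr rfl fun x _ => Finset.sum_congr rfl fun y _ => ?_
      rw [hs y x, hs' y x, mul_comm (κ y)]
    have h7 : ∀ x ∈ B, ∑ y ∈ B, κ x * κ y * ‖G x y - G' x y‖ ^ 2 * (f x - c) ^ 2 ≤
        4 * (κ x * L x * (f x - c) ^ 2) := by
      intro x hx
      have h8 : ∑ y ∈ B, κ y * ‖G y x - G' y x‖ ^ 2 ≤ 4 * L x :=
        (Finset.sum_le_sum_of_subset_of_nonneg hBF fun y _ _ =>
          mul_nonneg (hκ y) (sq_nonneg _)).trans (hLv x (hBA hx))
      have h9 : ∑ y ∈ B, κ x * κ y * ‖G x y - G' x y‖ ^ 2 * (f x - c) ^ 2 =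
          (κ x * (f x - c) ^ 2) * ∑ y ∈ B, κ y * ‖G y x - G' y x‖ ^ 2 := by
        rw [Finset.mul_sum]
        refine Finset.sum_congr rfl fun y _ => ?_
        rw [hs x y, hs' x y]
        ring
      rw [h9]
      calc _ ≤ (κ x * (f x - c) ^ 2) * (4 * L x) :=
            mul_le_mul_of_nonneg_left h8 (mul_nonneg (hκ x) (sq_nonneg _))
        _ = _ := by ring
    calc ∑ x ∈ B, ∑ y ∈ B, κ x * κ y * ‖G x y - G' x y‖ ^ 2 * (f x - f y) ^ 2 ≤
        ∑ x ∈ B, ∑ y ∈ B, (2 * (κ x * κ y * ‖G x y - G' x y‖ ^ 2 * (f x - c) ^ 2) +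
          2 * (κ x * κ y * ‖G x y - G' x y‖ ^ 2 * (f y - c) ^ 2)) :=
          Finset.sum_le_sum fun x _ => Finset.sum_le_sum fun y _ => h3 x y
      _ = 4 * ∑ x ∈ B, ∑ y ∈ B, κ x * κ y * ‖G x y - G' x y‖ ^ 2 * (f x - c) ^ 2 := by
          simp only [Finset.sum_add_distrib, ← Finset.mul_sum]
          rw [h6]
          ring
      _ ≤ 4 * ∑ x ∈ B, 4 * (κ x * L x * (f x - c) ^ 2) :=
          mul_le_mul_of_nonneg_left (Finset.sum_le_sum h7) (by norm_num)
      _ = _ := by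
          rw [← Finset.mul_sum]
          ring
  have hfin2 : 1 / ε * ∑ x ∈ B, ∑ y ∈ B, κ x * κ y * ‖G x y - G' x y‖ ^ 2 * (f x - f y) ^ 2 ≤
      16 / ε * ∑ x ∈ B, κ x * L x * (f x - c) ^ 2 := by
    calc _ ≤ 1 / ε * (16 * ∑ x ∈ B, κ x * L x * (f x - c) ^ 2) :=
          mul_le_mul_of_nonneg_left hfin (by positivity)
      _ = _ := by ring
  linarith only [hfin2]

end Pool.Agent.ANR.H44
end
end -- Pool.Agent.Helper44_ANR.FRM

section -- Pool.Agent.Helper49_ANR.RKB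

set_option autoImplicit false

open scoped BigOperators ComplexConjugate

noncomputable section

namespace Pool.Agent.ANR.H49

theorem rkb (lv2 : Lv2Stmt) (lvs : LvsStmt) : RkbStmt := by
  intro X _ _ H H' κ κ' F hN hN' hO
  obtain ⟨L, hL0, hL1, hL2⟩ := lvs X H κ F hN
  rw [Finset.sum_comm]
  have h1 : ∀ y ∈ Fᶜ, ∑ x ∈ Fᶜ, κ x * κ y * ‖Gr H κ x y - Gr H' κ' x y‖ ^ 2 ≤
      κ y * (4 * L y) := by
    intro y hy
    have hy' : y ∉ F := Finset.mem_compl.1 hy
    have h2 := (lv2 X H H' κ κ' F y y (L y) (L y) hN hN' hO hy' hy' (hL0 y) (hL0 y)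
      (hL1 y hy') (hL1 y hy')).2.1
    have h3 : ∑ x ∈ Fᶜ, κ x * κ y * ‖Gr H κ x y - Gr H' κ' x y‖ ^ 2 =
        κ y * ∑ z ∈ Fᶜ, κ z * ‖Gr H κ z y - Gr H' κ' z y‖ ^ 2 := by
      rw [Finset.mul_sum]
      exact Finset.sum_congr rfl fun z _ => by ring
    rw [h3]
    exact mul_le_mul_of_nonneg_left h2 (hN.pos y).le
  refine (Finset.sum_le_sum h1).trans ?_
  have h4 : ∑ y ∈ Fᶜ, κ y * (4 * L y) = 4 * ∑ x ∈ Fᶜ, κ x * L x := by
    rw [Finset.mul_sum]
    exact Finset.sum_congr rfl fun z _ => by ring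
  rw [h4]
  exact mul_le_mul_of_nonneg_left hL2 (by norm_num)

theorem cs {X : Type} (P : Finset X) (κ : X → ℝ) (a b : X → ℂ) (g m : ℝ) (hκ : ∀ y ∈ P, 0 ≤ κ y)
    (hg : ∑ y ∈ P, κ y * ‖a y‖ ^ 2 ≤ g) (hm : ∑ y ∈ P, κ y * ‖a y - b y‖ ^ 2 ≤ m) (c : X → ℝ)
    (hc : ∀ y ∈ P, c y ≤ ‖a y - b y‖ * (2 * ‖a y‖ + ‖a y - b y‖)) :
    ∑ y ∈ P, κ y * c y ≤ 2 * Real.sqrt (g * m) + m := by
  have h1 : ∑ y ∈ P, κ y * c y ≤
      2 * ∑ y ∈ P, κ y * (‖a y‖ * ‖a y - b y‖) + ∑ y ∈ P, κ y * ‖a y - b y‖ ^ 2 := by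
    rw [Finset.mul_sum, ← Finset.sum_add_distrib]
    refine Finset.sum_le_sum fun y hy => ?_
    have := mul_le_mul_of_nonneg_left (hc y hy) (hκ y hy)
    nlinarith
  have h2 : (∑ y ∈ P, κ y * (‖a y‖ * ‖a y - b y‖)) ^ 2 ≤
      (∑ y ∈ P, κ y * ‖a y‖ ^ 2) * ∑ y ∈ P, κ y * ‖a y - b y‖ ^ 2 := by
    refine Finset.sum_sq_le_sum_mul_sum_of_sq_le_mul _ ?_ ?_ ?_
    · intro y hy
      exact mul_nonneg (hκ y hy) (by positivity)
    · intro y hy
      exact mul_nonneg (hκ y hy) (by positivity)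
    · intro y _
      exact le_of_eq (by ring)
  have hm0 : 0 ≤ ∑ y ∈ P, κ y * ‖a y - b y‖ ^ 2 :=
    Finset.sum_nonneg fun y hy => mul_nonneg (hκ y hy) (by positivity)
  have hg0 : 0 ≤ ∑ y ∈ P, κ y * ‖a y‖ ^ 2 :=
    Finset.sum_nonneg fun y hy => mul_nonneg (hκ y hy) (by positivity)
  have h3 : ∑ y ∈ P, κ y * (‖a y‖ * ‖a y - b y‖) ≤ Real.sqrt (g * m) :=
    Real.le_sqrt_of_sq_le (h2.trans (mul_le_mul hg hm hm0 (hg0.trans hg)))
  linarith

theorem thd : ThdStmt := by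
  intro X _ _ G G' κ P x g m hκ hg hm
  have hadd : ∀ a b : ℂ, ‖a + b‖ ≤ 2 * ‖a‖ + ‖a - b‖ := by
    intro a b
    calc ‖a + b‖ = ‖(a + a) - (a - b)‖ := by congr 1; ring
      _ ≤ ‖a + a‖ + ‖a - b‖ := norm_sub_le _ _
      _ ≤ 2 * ‖a‖ + ‖a - b‖ := by
        have := norm_add_le a a
        linarith
  refine ⟨?_, ?_, ?_⟩
  · rw [← Finset.sum_sub_distrib]
    refine (norm_sum_le _ _).trans ?_
    have h1 : ∀ y ∈ P, ‖(κ y : ℂ) * G x y ^ 2 - (κ y : ℂ) * G' x y ^ 2‖ =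
        κ y * ‖G x y ^ 2 - G' x y ^ 2‖ := by
      intro y hy
      rw [← mul_sub, norm_mul, Complex.norm_real, Real.norm_of_nonneg (hκ y hy)]
    rw [Finset.sum_congr rfl h1]
    refine cs P κ (fun y => G x y) (fun y => G' x y) g m hκ hg hm _ ?_
    intro y _
    have h2 : G x y ^ 2 - G' x y ^ 2 = (G x y - G' x y) * (G x y + G' x y) := by ring
    rw [h2, norm_mul]
    exact mul_le_mul_of_nonneg_left (hadd _ _) (norm_nonneg _)
  · rw [← Finset.sum_sub_distrib]
    refine (Finset.abs_sum_le_sum_abs _ _).trans ?_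
    have h1 : ∀ y ∈ P, |κ y * (G x y).re ^ 2 - κ y * (G' x y).re ^ 2| =
        κ y * |(G x y).re ^ 2 - (G' x y).re ^ 2| := by
      intro y hy
      rw [← mul_sub, abs_mul, abs_of_nonneg (hκ y hy)]
    rw [Finset.sum_congr rfl h1]
    refine cs P κ (fun y => G x y) (fun y => G' x y) g m hκ hg hm _ ?_
    intro y _
    have h2 : (G x y).re ^ 2 - (G' x y).re ^ 2 =
        (G x y - G' x y).re * (G x y + G' x y).re := by
      rw [Complex.sub_re, Complex.add_re]
      ring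
    rw [h2, abs_mul]
    exact mul_le_mul (Complex.abs_re_le_norm _) ((Complex.abs_re_le_norm _).trans (hadd _ _))
      (abs_nonneg _) (norm_nonneg _)
  · rw [← Finset.sum_sub_distrib]
    refine (Finset.abs_sum_le_sum_abs _ _).trans ?_
    have h1 : ∀ y ∈ P, |κ y * ‖G x y‖ ^ 2 - κ y * ‖G' x y‖ ^ 2| =
        κ y * |‖G x y‖ ^ 2 - ‖G' x y‖ ^ 2| := by
      intro y hy
      rw [← mul_sub, abs_mul, abs_of_nonneg (hκ y hy)]
    rw [Finset.sum_congr rfl h1]
    refine cs P κ (fun y => G x y) (fun y => G' x y) g m hκ hg hm _ ?_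
    intro y _
    have h2 : ‖G x y‖ ^ 2 - ‖G' x y‖ ^ 2 = (‖G x y‖ - ‖G' x y‖) * (‖G x y‖ + ‖G' x y‖) := by ring
    have h3 : ‖G' x y‖ ≤ ‖G x y‖ + ‖G x y - G' x y‖ := by
      have := norm_sub_norm_le (G' x y) (G x y)
      rw [norm_sub_rev] at this
      linarith
    rw [h2, abs_mul, abs_of_nonneg (by positivity : 0 ≤ ‖G x y‖ + ‖G' x y‖)]
    exact mul_le_mul (abs_norm_sub_norm_le _ _) (by linarith) (by positivity) (norm_nonneg _)

end Pool.Agent.ANR.H49
end
end -- Pool.Agent.Helper49_ANR.RKB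

section -- Pool.Agent.Helper52_ANR.LMR

/-! Row LMR of tank ANR: the fourth powers. -/

open scoped BigOperators

noncomputable section

namespace Pool.Agent.ANR.H52

theorem lmr : LmrStmt := by
  intro X _ _ G G' κ R x u m k hk hκ hu hΔ hm
  -- the fourth powers of the change
  have h2 : ∑ y ∈ R, k * ‖G x y - G' x y‖ ^ 2 ≤ m :=
    le_trans (Finset.sum_le_sum (fun y hy => mul_le_mul_of_nonneg_right (hκ y hy) (sq_nonneg _))) hm
  have h3 : ∑ y ∈ R, ‖G x y - G' x y‖ ^ 2 ≤ m / k := by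
    rw [← Finset.mul_sum] at h2
    rw [le_div_iff₀ hk, mul_comm]
    exact h2
  have h4 : ∑ y ∈ R, ‖G x y - G' x y‖ ^ 4 ≤ u ^ 2 * m / k := by
    calc ∑ y ∈ R, ‖G x y - G' x y‖ ^ 4 ≤ ∑ y ∈ R, u ^ 2 * ‖G x y - G' x y‖ ^ 2 := by
          apply Finset.sum_le_sum
          intro y hy
          have h5 : ‖G x y - G' x y‖ ^ 2 ≤ u ^ 2 :=
            pow_le_pow_left₀ (norm_nonneg _) (hΔ y hy) 2
          calc ‖G x y - G' x y‖ ^ 4 = ‖G x y - G' x y‖ ^ 2 * ‖G x y - G' x y‖ ^ 2 := by ring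
            _ ≤ u ^ 2 * ‖G x y - G' x y‖ ^ 2 := mul_le_mul_of_nonneg_right h5 (sq_nonneg _)
      _ = u ^ 2 * ∑ y ∈ R, ‖G x y - G' x y‖ ^ 2 := by rw [Finset.mul_sum]
      _ ≤ u ^ 2 * (m / k) := mul_le_mul_of_nonneg_left h3 (sq_nonneg _)
      _ = u ^ 2 * m / k := by ring
  have hmink := Real.Lp_add_le R (f := fun y => ‖G x y‖) (g := fun y => ‖G x y - G' x y‖)
    (p := (4 : ℝ)) (by norm_num)
  have hpow : ∀ t : ℝ, 0 ≤ t → |t| ^ (4 : ℝ) = t ^ 4 := by
    intro t ht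
    rw [abs_of_nonneg ht]
    exact_mod_cast Real.rpow_natCast t 4
  have e1 : ∑ y ∈ R, |‖G x y‖| ^ (4 : ℝ) = ∑ y ∈ R, ‖G x y‖ ^ 4 :=
    Finset.sum_congr rfl (fun y _ => hpow _ (norm_nonneg _))
  have e2 : ∑ y ∈ R, |‖G x y - G' x y‖| ^ (4 : ℝ) = ∑ y ∈ R, ‖G x y - G' x y‖ ^ 4 :=
    Finset.sum_congr rfl (fun y _ => hpow _ (norm_nonneg _))
  have e3 : ∑ y ∈ R, |‖G x y‖ + ‖G x y - G' x y‖| ^ (4 : ℝ) =
      ∑ y ∈ R, (‖G x y‖ + ‖G x y - G' x y‖) ^ 4 :=
    Finset.sum_congr rfl (fun y _ => hpow _ (by positivity))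
  rw [e1, e2, e3] at hmink
  have h6 : ∑ y ∈ R, ‖G' x y‖ ^ 4 ≤ ∑ y ∈ R, (‖G x y‖ + ‖G x y - G' x y‖) ^ 4 := by
    apply Finset.sum_le_sum
    intro y _
    apply pow_le_pow_left₀ (norm_nonneg _)
    calc ‖G' x y‖ = ‖G x y - (G x y - G' x y)‖ := by rw [sub_sub_cancel]
      _ ≤ ‖G x y‖ + ‖G x y - G' x y‖ := norm_sub_le _ _
  calc (∑ y ∈ R, ‖G' x y‖ ^ 4) ^ ((1 : ℝ) / 4)
      ≤ (∑ y ∈ R, (‖G x y‖ + ‖G x y - G' x y‖) ^ 4) ^ ((1 : ℝ) / 4) :=
        Real.rpow_le_rpow (Finset.sum_nonneg (fun y _ => by positivity)) h6 (by norm_num)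
    _ ≤ (∑ y ∈ R, ‖G x y‖ ^ 4) ^ ((1 : ℝ) / 4) +
          (∑ y ∈ R, ‖G x y - G' x y‖ ^ 4) ^ ((1 : ℝ) / 4) := hmink
    _ ≤ (∑ y ∈ R, ‖G x y‖ ^ 4) ^ ((1 : ℝ) / 4) + (u ^ 2 * m / k) ^ ((1 : ℝ) / 4) := by
        gcongr

end Pool.Agent.ANR.H52
end
end -- Pool.Agent.Helper52_ANR.LMR

section -- Pool.Agent.Helper60_ANR.CUT

set_option autoImplicit false

/-!
# Tank ANR, row CUT: the form with `F` as nodes and the cut form
-/

open scoped BigOperators ComplexConjugate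

noncomputable section

namespace Pool.Agent.ANR.H60

theorem cut : CutStmt := by
  intro X _ _ G κ A F f c hs hd hf
  have hFF : ∑ x ∈ F, ∑ y ∈ F, κ x * κ y * ‖G x y‖ ^ 2 * (f x - f y) ^ 2 = 0 := by
    refine Finset.sum_eq_zero fun x hx => Finset.sum_eq_zero fun y hy => ?_
    rw [hf x hx, hf y hy, sub_self]
    ring
  have hAF : ∑ x ∈ A, ∑ y ∈ F, κ x * κ y * ‖G x y‖ ^ 2 * (f x - f y) ^ 2 =
      ∑ x ∈ A, κ x * fl G κ F x * (f x - c) ^ 2 := by
    refine Finset.sum_congr rfl fun x _ => ?_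
    rw [fl, Finset.mul_sum, Finset.sum_mul]
    refine Finset.sum_congr rfl fun y hy => ?_
    rw [hf y hy]
    ring
  have hFA : ∑ x ∈ F, ∑ y ∈ A, κ x * κ y * ‖G x y‖ ^ 2 * (f x - f y) ^ 2 =
      ∑ x ∈ A, κ x * fl G κ F x * (f x - c) ^ 2 := by
    rw [Finset.sum_comm, ← hAF]
    refine Finset.sum_congr rfl fun x _ => Finset.sum_congr rfl fun y _ => ?_
    rw [hs y x]
    ring
  have hsplit : ∑ x ∈ A ∪ F, ∑ y ∈ A ∪ F, κ x * κ y * ‖G x y‖ ^ 2 * (f x - f y) ^ 2 =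
      ∑ x ∈ A, ∑ y ∈ A, κ x * κ y * ‖G x y‖ ^ 2 * (f x - f y) ^ 2 +
      2 * ∑ x ∈ A, κ x * fl G κ F x * (f x - c) ^ 2 := by
    rw [Finset.sum_union hd]
    simp only [Finset.sum_union hd, Finset.sum_add_distrib]
    rw [hAF, hFA, hFF]
    ring
  rw [cE, cE, hsplit]
  ring

end Pool.Agent.ANR.H60
end
end -- Pool.Agent.Helper60_ANR.CUT

section -- Pool.Agent.Helper60_ANR.LVI

set_option autoImplicit false

/-!
# Tank ANR, row LVI: the leverage does not see what is inside `F`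
-/

open scoped BigOperators ComplexConjugate

noncomputable section

namespace Pool.Agent.ANR.H60

theorem lvi : LviStmt := by
  intro X _ _ H H' κ κ' F x L ho hL ψ hψ
  have h1 : Sol H κ F ψ := by
    intro z hz
    have h2 := hψ z hz
    obtain ⟨h3, h4⟩ := ho z hz
    have h5 : opv H κ ψ z = opv H' κ' ψ z := by
      simp only [opv, h3, h4]
    rw [h5]
    exact h2
  have h2 : Q κ' F ψ = Q κ F ψ := by
    refine Finset.sum_congr rfl fun z hz => ?_
    rw [(ho z (Finset.mem_compl.1 hz)).1]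
  rw [h2]
  exact hL ψ h1

end Pool.Agent.ANR.H60
end
end -- Pool.Agent.Helper60_ANR.LVI

section -- Pool.Agent.Helper81_ANR.FLR

/-! Tank ANR, row FLR (helper81): the flux to a set after a change of the Green function. -/

set_option autoImplicit false

open scoped BigOperators ComplexConjugate

noncomputable section

namespace Pool.Agent.ANR.H81

open Pool.Agent.ANR

/-- Minkowski with weights -/
theorem wmink {ι : Type} (P : Finset ι) (κ a b c : ι → ℝ) (hκ : ∀ y ∈ P, 0 ≤ κ y)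
    (ha : ∀ y ∈ P, 0 ≤ a y) (h : ∀ y ∈ P, a y ≤ b y + c y) :
    Real.sqrt (∑ y ∈ P, κ y * a y ^ 2) ≤
      Real.sqrt (∑ y ∈ P, κ y * b y ^ 2) + Real.sqrt (∑ y ∈ P, κ y * c y ^ 2) := by
  have hB : 0 ≤ ∑ y ∈ P, κ y * b y ^ 2 :=
    Finset.sum_nonneg fun y hy => mul_nonneg (hκ y hy) (sq_nonneg _)
  have hC : 0 ≤ ∑ y ∈ P, κ y * c y ^ 2 :=
    Finset.sum_nonneg fun y hy => mul_nonneg (hκ y hy) (sq_nonneg _)
  rw [Real.sqrt_le_iff]
  refine ⟨add_nonneg (Real.sqrt_nonneg _) (Real.sqrt_nonneg _), ?_⟩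
  have h1 : ∑ y ∈ P, κ y * a y ^ 2 ≤ ∑ y ∈ P, κ y * (b y + c y) ^ 2 := by
    refine Finset.sum_le_sum fun y hy => mul_le_mul_of_nonneg_left ?_ (hκ y hy)
    exact pow_le_pow_left₀ (ha y hy) (h y hy) 2
  have h2 : ∑ y ∈ P, κ y * (b y + c y) ^ 2 = ∑ y ∈ P, κ y * b y ^ 2 +
      2 * ∑ y ∈ P, (Real.sqrt (κ y) * b y) * (Real.sqrt (κ y) * c y) + ∑ y ∈ P, κ y * c y ^ 2 := by
    rw [Finset.mul_sum, ← Finset.sum_add_distrib, ← Finset.sum_add_distrib]
    refine Finset.sum_congr rfl fun y hy => ?_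
    have h3 := Real.mul_self_sqrt (hκ y hy)
    linear_combination (-2 * b y * c y) * h3
  have h4 : ∑ y ∈ P, (Real.sqrt (κ y) * b y) * (Real.sqrt (κ y) * c y) ≤
      Real.sqrt (∑ y ∈ P, κ y * b y ^ 2) * Real.sqrt (∑ y ∈ P, κ y * c y ^ 2) := by
    have h5 := Real.sum_mul_le_sqrt_mul_sqrt P (fun y => Real.sqrt (κ y) * b y)
      (fun y => Real.sqrt (κ y) * c y)
    have h6 : ∀ f : ι → ℝ, ∑ y ∈ P, (Real.sqrt (κ y) * f y) ^ 2 = ∑ y ∈ P, κ y * f y ^ 2 := fun f =>
      Finset.sum_congr rfl fun y hy => by rw [mul_pow, Real.sq_sqrt (hκ y hy)]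
    rwa [h6, h6] at h5
  rw [h2] at h1
  have h7 := Real.sq_sqrt hB
  have h8 := Real.sq_sqrt hC
  nlinarith only [h1, h4, h7, h8]

/-- row FLR -/
theorem flr : FlrStmt := by
  intro X _ _ G G' κ P x m hκ hm
  have h := wmink P κ (fun y => ‖G' x y‖) (fun y => ‖G x y‖) (fun y => ‖G x y - G' x y‖) hκ
    (fun y _ => norm_nonneg _) (fun y _ => by
      show ‖G' x y‖ ≤ ‖G x y‖ + ‖G x y - G' x y‖
      have h1 : G' x y = G x y - (G x y - G' x y) := by ring
      calc ‖G' x y‖ = ‖G x y - (G x y - G' x y)‖ := congrArg _ h1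
        _ ≤ _ := norm_sub_le _ _)
  refine h.trans ?_
  exact add_le_add le_rfl (Real.sqrt_le_sqrt hm)

end Pool.Agent.ANR.H81
end
end -- Pool.Agent.Helper81_ANR.FLR

section -- Pool.Agent.Helper84_ANR.YHH

/-! Tank ANR, row YHH: the threshold. -/

set_option autoImplicit false

open scoped BigOperators ComplexConjugate

noncomputable section

namespace Pool.Agent.ANR.H84

theorem yhh (lv2 : Lv2Stmt) (geq : GeqStmt) : YhhStmt := by
  intro X _ _ H H' κ κ' F y L hH hH' hO hy hL hLev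
  obtain ⟨-, h2, -, -⟩ := lv2 X H H' κ κ' F y y L L hH hH' hO hy hy hL hL hLev hLev
  obtain ⟨-, -, h3, -, -⟩ := geq X H κ hH
  have hW := h3 y
  have hS : ∑ z ∈ Fᶜ, κ z * ‖Gr H κ z y‖ ^ 2 ≤ (Gr H κ y y).im := by
    rw [← hW]
    refine Finset.sum_le_sum_of_subset_of_nonneg (Finset.subset_univ _) fun z _ _ => ?_
    exact mul_nonneg (hH.pos z).le (sq_nonneg _)
  have hI : 0 ≤ (Gr H κ y y).im := by
    rw [← hW]
    exact Finset.sum_nonneg fun z _ => mul_nonneg (hH.pos z).le (sq_nonneg _)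
  -- Cauchy-Schwarz
  have hC : ∑ z ∈ Fᶜ, κ z * (‖Gr H κ z y - Gr H' κ' z y‖ * ‖Gr H κ z y‖)
      ≤ 2 * Real.sqrt (L * (Gr H κ y y).im) := by
    have h4 := Finset.sum_mul_sq_le_sq_mul_sq Fᶜ
      (fun z => Real.sqrt (κ z) * ‖Gr H κ z y - Gr H' κ' z y‖)
      (fun z => Real.sqrt (κ z) * ‖Gr H κ z y‖)
    have h5 : ∀ z, (Real.sqrt (κ z) * ‖Gr H κ z y - Gr H' κ' z y‖) *
        (Real.sqrt (κ z) * ‖Gr H κ z y‖)
        = κ z * (‖Gr H κ z y - Gr H' κ' z y‖ * ‖Gr H κ z y‖) := by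
      intro z
      have := Real.mul_self_sqrt (hH.pos z).le
      calc _ = (Real.sqrt (κ z) * Real.sqrt (κ z)) *
            (‖Gr H κ z y - Gr H' κ' z y‖ * ‖Gr H κ z y‖) := by ring
        _ = _ := by rw [this]
    have h6 : ∀ (z : X) (t : ℝ), (Real.sqrt (κ z) * t) ^ 2 = κ z * t ^ 2 := by
      intro z t
      rw [mul_pow, Real.sq_sqrt (hH.pos z).le]
    simp only [h5, h6] at h4
    have h7 : (∑ z ∈ Fᶜ, κ z * ‖Gr H κ z y - Gr H' κ' z y‖ ^ 2) *
        ∑ z ∈ Fᶜ, κ z * ‖Gr H κ z y‖ ^ 2 ≤ 4 * (L * (Gr H κ y y).im) := by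
      calc _ ≤ (4 * L) * (Gr H κ y y).im :=
            mul_le_mul h2 hS (Finset.sum_nonneg fun z _ => mul_nonneg (hH.pos z).le (sq_nonneg _))
              (by positivity)
        _ = _ := by ring
    have h8 : (∑ z ∈ Fᶜ, κ z * (‖Gr H κ z y - Gr H' κ' z y‖ * ‖Gr H κ z y‖)) ^ 2
        ≤ (2 * Real.sqrt (L * (Gr H κ y y).im)) ^ 2 := by
      rw [mul_pow, Real.sq_sqrt (mul_nonneg hL hI)]
      norm_num
      exact h4.trans h7
    exact abs_le_of_sq_le_sq' h8 (by positivity) |>.2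
  have hD : ‖∑ z ∈ Fᶜ, (κ z : ℂ) * Gr H κ z y ^ 2 - ∑ z ∈ Fᶜ, (κ z : ℂ) * Gr H' κ' z y ^ 2‖ ≤
      ∑ z ∈ Fᶜ, (2 * (κ z * (‖Gr H κ z y - Gr H' κ' z y‖ * ‖Gr H κ z y‖)) +
        κ z * ‖Gr H κ z y - Gr H' κ' z y‖ ^ 2) := by
    rw [← Finset.sum_sub_distrib]
    refine (norm_sum_le _ _).trans (Finset.sum_le_sum fun z _ => ?_)
    have e : (κ z : ℂ) * Gr H κ z y ^ 2 - (κ z : ℂ) * Gr H' κ' z y ^ 2 =
        (κ z : ℂ) * ((Gr H κ z y - Gr H' κ' z y) *
          (2 * Gr H κ z y - (Gr H κ z y - Gr H' κ' z y))) := by ring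
    rw [e, norm_mul, norm_mul, Complex.norm_real, Real.norm_of_nonneg (hH.pos z).le]
    have h9 : ‖2 * Gr H κ z y - (Gr H κ z y - Gr H' κ' z y)‖ ≤
        2 * ‖Gr H κ z y‖ + ‖Gr H κ z y - Gr H' κ' z y‖ := by
      refine (norm_sub_le _ _).trans ?_
      rw [norm_mul]
      norm_num
    calc κ z * (‖Gr H κ z y - Gr H' κ' z y‖ * ‖2 * Gr H κ z y - (Gr H κ z y - Gr H' κ' z y)‖)
        ≤ κ z * (‖Gr H κ z y - Gr H' κ' z y‖ *
          (2 * ‖Gr H κ z y‖ + ‖Gr H κ z y - Gr H' κ' z y‖)) :=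
          mul_le_mul_of_nonneg_left (mul_le_mul_of_nonneg_left h9 (norm_nonneg _)) (hH.pos z).le
      _ = _ := by ring
  rw [Finset.sum_add_distrib, ← Finset.mul_sum] at hD
  linarith

end Pool.Agent.ANR.H84
end
end -- Pool.Agent.Helper84_ANR.YHH

section -- Pool.Agent.Helper90_ANR.LVS

/-!
# LVS: leverages exist, and their sum is at most the number of sites
-/

set_option autoImplicit false

open scoped BigOperators ComplexConjugate

noncomputable section

namespace Pool.Agent.ANR.H90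

open Pool.Agent.ANR

set_option linter.unusedSectionVars false

variable {X : Type} [Fintype X] [DecidableEq X]

theorem opv_add (H : Matrix X X ℝ) (κ : X → ℝ) (φ ψ : X → ℂ) (x : X) :
    opv H κ (φ + ψ) x = opv H κ φ x + opv H κ ψ x := by
  unfold opv
  simp only [Pi.add_apply, mul_add, Finset.sum_add_distrib]
  ring

theorem opv_smul (H : Matrix X X ℝ) (κ : X → ℝ) (a : ℂ) (ψ : X → ℂ) (x : X) :
    opv H κ (a • ψ) x = a * opv H κ ψ x := by
  unfold opv
  simp only [Pi.smul_apply, smul_eq_mul]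
  rw [mul_sub, Finset.mul_sum]
  refine congrArg₂ _ (Finset.sum_congr rfl fun y _ => ?_) ?_ <;> ring

theorem opv_zero (H : Matrix X X ℝ) (κ : X → ℝ) (x : X) : opv H κ 0 x = 0 := by
  simp [opv]

/-- the space of the solutions off `F` -/
def solS (H : Matrix X X ℝ) (κ : X → ℝ) (F : Finset X) : Submodule ℂ (X → ℂ) where
  carrier := {ψ | Sol H κ F ψ}
  add_mem' := by
    intro φ ψ h1 h2 z hz
    rw [opv_add, h1 z hz, h2 z hz, add_zero]
  zero_mem' := by
    intro z _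
    exact opv_zero H κ z
  smul_mem' := by
    intro a ψ h1 z hz
    rw [opv_smul, h1 z hz, mul_zero]

/-- the weighted outer part -/
def wt (κ : X → ℝ) (F : Finset X) : (X → ℂ) →ₗ[ℂ] EuclideanSpace ℂ X where
  toFun ψ := WithLp.toLp 2 (fun x => if x ∈ F then 0 else (Real.sqrt (κ x) : ℂ) * ψ x)
  map_add' := by
    intro φ ψ
    ext x
    simp only [PiLp.add_apply, Pi.add_apply]
    by_cases hx : x ∈ F <;> simp [hx, mul_add]
  map_smul' := by
    intro a ψ
    ext x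
    simp only [PiLp.smul_apply, Pi.smul_apply, smul_eq_mul, RingHom.id_apply]
    by_cases hx : x ∈ F
    · simp [hx]
    · simp only [hx, if_false]; ring

theorem wt_apply (κ : X → ℝ) (F : Finset X) (ψ : X → ℂ) (x : X) :
    wt κ F ψ x = if x ∈ F then 0 else (Real.sqrt (κ x) : ℂ) * ψ x := rfl

theorem wt_norm {H : Matrix X X ℝ} {κ : X → ℝ} (hN : Net H κ) (F : Finset X) (ψ : X → ℂ) :
    ‖wt κ F ψ‖ ^ 2 = Q κ F ψ := by
  have h0 : ∑ x ∈ Fᶜ, ‖wt κ F ψ x‖ ^ 2 = ∑ x, ‖wt κ F ψ x‖ ^ 2 := by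
    refine Finset.sum_subset (Finset.subset_univ (Fᶜ)) ?_
    intro x _ hx
    rw [wt_apply, if_pos (by simpa using hx)]
    simp
  rw [EuclideanSpace.norm_sq_eq, Q, ← h0]
  refine Finset.sum_congr rfl fun x hx => ?_
  rw [wt_apply, if_neg (Finset.mem_compl.1 hx), norm_mul, mul_pow, Complex.norm_real,
    Real.norm_eq_abs, sq_abs, Real.sq_sqrt (hN.pos x).le]

/-- the solutions are determined by their values in `F` -/
theorem finrank_le (hD : DirStmt) {H : Matrix X X ℝ} {κ : X → ℝ} (hN : Net H κ) (F : Finset X) :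
    Module.finrank ℂ (solS H κ F) ≤ F.card := by
  have h1 : Module.finrank ℂ ({b // b ∈ F} → ℂ) = F.card := by
    rw [Module.finrank_fintype_fun_eq_card, Fintype.card_coe]
  rw [← h1]
  let r : solS H κ F →ₗ[ℂ] ({b // b ∈ F} → ℂ) :=
    { toFun := fun ψ b => (ψ : X → ℂ) b
      map_add' := fun _ _ => rfl
      map_smul' := fun _ _ => rfl }
  have hinj : Function.Injective r := by
    intro φ ψ h
    apply Subtype.ext
    refine (hD X H κ F hN (fun b => (φ : X → ℂ) b) 0).unique ⟨fun b _ => rfl, ?_⟩ ⟨fun b hb => ?_, ?_⟩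
    · intro x hx
      exact φ.2 x hx
    · exact (congrFun h ⟨b, hb⟩).symm
    · intro x hx
      exact ψ.2 x hx
  exact LinearMap.finrank_le_finrank_of_injective hinj

theorem lvs (hD : DirStmt) : LvsStmt := by
  intro X _ _ H κ F hN
  let W : Submodule ℂ (EuclideanSpace ℂ X) := (solS H κ F).map (wt κ F)
  have hW : Module.finrank ℂ W ≤ F.card :=
    le_trans (Submodule.finrank_map_le _ _) (finrank_le hD hN F)
  let b := stdOrthonormalBasis ℂ W
  let L : X → ℝ := fun x => (∑ i, ‖((b i : W) : EuclideanSpace ℂ X) x‖ ^ 2) / κ x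
  refine ⟨L, fun x => div_nonneg (Finset.sum_nonneg fun i _ => by positivity) (hN.pos x).le, ?_, ?_⟩
  · intro x hx ψ hψ
    let v : W := ⟨wt κ F ψ, Submodule.mem_map_of_mem hψ⟩
    have h1 : ((v : W) : EuclideanSpace ℂ X) x =
        ∑ i, (b.repr v i) * ((b i : W) : EuclideanSpace ℂ X) x := by
      have h := b.sum_repr v
      have h2 := congrArg (fun u : W => ((u : W) : EuclideanSpace ℂ X) x) h
      simp only at h2
      rw [← h2]
      simp
    have h2 : ‖((v : W) : EuclideanSpace ℂ X) x‖ ^ 2 ≤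
        (∑ i, ‖b.repr v i‖ ^ 2) * ∑ i, ‖((b i : W) : EuclideanSpace ℂ X) x‖ ^ 2 := by
      rw [h1]
      calc ‖∑ i, (b.repr v i) * ((b i : W) : EuclideanSpace ℂ X) x‖ ^ 2
          ≤ (∑ i, ‖b.repr v i‖ * ‖((b i : W) : EuclideanSpace ℂ X) x‖) ^ 2 := by
            gcongr
            refine le_trans (norm_sum_le _ _) (le_of_eq (Finset.sum_congr rfl fun i _ => norm_mul _ _))
        _ ≤ _ := Finset.sum_mul_sq_le_sq_mul_sq _ _ _
    have h3 : ∑ i, ‖b.repr v i‖ ^ 2 = Q κ F ψ := by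
      rw [← EuclideanSpace.norm_sq_eq, b.repr.norm_map, ← wt_norm hN F ψ]
      rfl
    have h4 : ‖((v : W) : EuclideanSpace ℂ X) x‖ ^ 2 = κ x * ‖ψ x‖ ^ 2 := by
      change ‖wt κ F ψ x‖ ^ 2 = _
      rw [wt_apply, if_neg hx, norm_mul, mul_pow, Complex.norm_real, Real.norm_eq_abs, sq_abs,
        Real.sq_sqrt (hN.pos x).le]
    rw [h3, h4] at h2
    have hk := hN.pos x
    change ‖ψ x‖ ^ 2 ≤ (∑ i, ‖((b i : W) : EuclideanSpace ℂ X) x‖ ^ 2) / κ x * Q κ F ψ
    rw [div_mul_eq_mul_div, le_div_iff₀ hk]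
    linarith [h2, mul_comm (κ x) (‖ψ x‖ ^ 2), mul_comm (Q κ F ψ)
      (∑ i, ‖((b i : W) : EuclideanSpace ℂ X) x‖ ^ 2)]
  · have h1 : ∀ x, κ x * L x = ∑ i, ‖((b i : W) : EuclideanSpace ℂ X) x‖ ^ 2 := by
      intro x
      change κ x * ((∑ i, ‖((b i : W) : EuclideanSpace ℂ X) x‖ ^ 2) / κ x) = _
      rw [mul_div_cancel₀ _ (hN.pos x).ne']
    calc ∑ x ∈ Fᶜ, κ x * L x = ∑ x ∈ Fᶜ, ∑ i, ‖((b i : W) : EuclideanSpace ℂ X) x‖ ^ 2 :=
          Finset.sum_congr rfl fun x _ => h1 x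
      _ ≤ ∑ x, ∑ i, ‖((b i : W) : EuclideanSpace ℂ X) x‖ ^ 2 :=
          Finset.sum_le_sum_of_subset_of_nonneg (Finset.subset_univ _)
            fun x _ _ => Finset.sum_nonneg fun i _ => by positivity
      _ = ∑ i, ∑ x, ‖((b i : W) : EuclideanSpace ℂ X) x‖ ^ 2 := Finset.sum_comm
      _ = ∑ i : Fin (Module.finrank ℂ W), (1 : ℝ) := by
          refine Finset.sum_congr rfl fun i _ => ?_
          rw [← EuclideanSpace.norm_sq_eq]
          have : ‖(b i : W)‖ = 1 := b.orthonormal.1 i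
          rw [← Submodule.coe_norm] at *
          rw [this]; norm_num
      _ = (Module.finrank ℂ W : ℝ) := by simp
      _ ≤ F.card := by exact_mod_cast hW

end Pool.Agent.ANR.H90
end
end -- Pool.Agent.Helper90_ANR.LVS

section -- Pool.Agent.Helper99_ANR.FRX

/-!
# FRX: the change of the form of the nodes
-/

set_option autoImplicit false

open scoped BigOperators ComplexConjugate

noncomputable section

namespace Pool.Agent.ANR.H99

open Pool.Agent.ANR

lemma sq_le (a b : ℂ) : |‖b‖ ^ 2 - ‖a‖ ^ 2| ≤ 2 * ‖a‖ * ‖a - b‖ + ‖a - b‖ ^ 2 := by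
  have h1 : ‖b‖ ≤ ‖a‖ + ‖a - b‖ := by
    have := norm_sub_norm_le b a
    rw [norm_sub_rev b a] at this
    linarith only [this]
  have h2 : ‖a‖ ≤ ‖b‖ + ‖a - b‖ := by
    have := norm_sub_norm_le a b
    linarith
  have ha := norm_nonneg a
  have hb := norm_nonneg b
  have hd := norm_nonneg (a - b)
  rw [abs_le]
  constructor
  · by_cases h : ‖a - b‖ ≤ ‖a‖
    · have h3 : ‖a‖ - ‖a - b‖ ≤ ‖b‖ := by linarith
      have h4 : 0 ≤ ‖a‖ - ‖a - b‖ := by linarith
      nlinarith only [mul_self_le_mul_self h4 h3]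
    · push Not at h
      nlinarith only [mul_nonneg ha hd, sq_nonneg ‖b‖, h1, h2, ha]
  · nlinarith only [mul_self_le_mul_self hb h1]

theorem frx : FrxStmt := by
  intro X _ _ G G' κ A B m f c ε hs hs' hκ hBA hε hε1 hm
  have hκB : ∀ x ∈ B, 0 ≤ κ x := fun x hx => hκ x (hBA hx)
  -- pointwise bound
  have hpt : ∀ x ∈ A, ∀ y ∈ A, |1 / 2 * (κ x * κ y * ‖G' x y‖ ^ 2 * (f x - f y) ^ 2) -
      1 / 2 * (κ x * κ y * ‖G x y‖ ^ 2 * (f x - f y) ^ 2)| ≤
      (if x ∈ B ∧ y ∈ B then (ε * (1 / 2 * (κ x * κ y * ‖G x y‖ ^ 2 * (f x - f y) ^ 2)) +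
        1 / ε * (κ x * κ y * ‖G x y - G' x y‖ ^ 2 * (f x - f y) ^ 2)) else 0) +
      (if x ∈ B ∧ y ∈ B then 0 else
    κ x * κ y * (‖G x y‖ * ‖G x y - G' x y‖ + ‖G x y - G' x y‖ ^ 2) * (f x - f y) ^ 2) := by
    intro x hx y hy
    have hw : 0 ≤ κ x * κ y * (f x - f y) ^ 2 :=
      mul_nonneg (mul_nonneg (hκ x hx) (hκ y hy)) (sq_nonneg _)
    have h1 := sq_le (G x y) (G' x y)
    have he : |1 / 2 * (κ x * κ y * ‖G' x y‖ ^ 2 * (f x - f y) ^ 2) -
      1 / 2 * (κ x * κ y * ‖G x y‖ ^ 2 * (f x - f y) ^ 2)| =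
      1 / 2 * (κ x * κ y * (f x - f y) ^ 2) * |‖G' x y‖ ^ 2 - ‖G x y‖ ^ 2| := by
      rw [show 1 / 2 * (κ x * κ y * ‖G' x y‖ ^ 2 * (f x - f y) ^ 2) -
        1 / 2 * (κ x * κ y * ‖G x y‖ ^ 2 * (f x - f y) ^ 2) =
        1 / 2 * (κ x * κ y * (f x - f y) ^ 2) * (‖G' x y‖ ^ 2 - ‖G x y‖ ^ 2) by ring, abs_mul,
        abs_of_nonneg (by positivity)]
    rw [he]
    by_cases hB : x ∈ B ∧ y ∈ B
    · rw [if_pos hB, if_pos hB, add_zero]
      have h2 : |‖G' x y‖ ^ 2 - ‖G x y‖ ^ 2| ≤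
          ε * ‖G x y‖ ^ 2 + 2 / ε * ‖G x y - G' x y‖ ^ 2 := by
        refine h1.trans ?_
        have h3 : 2 * ‖G x y‖ * ‖G x y - G' x y‖ ≤
            ε * ‖G x y‖ ^ 2 + 1 / ε * ‖G x y - G' x y‖ ^ 2 := by
          have h4 : 0 ≤ 1 / ε * (ε * ‖G x y‖ - ‖G x y - G' x y‖) ^ 2 := by positivity
          have h5 : 1 / ε * (ε * ‖G x y‖ - ‖G x y - G' x y‖) ^ 2 = ε * ‖G x y‖ ^ 2 +
            1 / ε * ‖G x y - G' x y‖ ^ 2 - 2 * ‖G x y‖ * ‖G x y - G' x y‖ := by
            field_simp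
            ring
          linarith only [h4, h5]
        have h6 : ‖G x y - G' x y‖ ^ 2 ≤ 1 / ε * ‖G x y - G' x y‖ ^ 2 := by
          have : 1 ≤ 1 / ε := by
            rw [le_div_iff₀ hε]
            linarith only [hε1]
          nlinarith only [sq_nonneg ‖G x y - G' x y‖, this]
        have h7 : 2 / ε * ‖G x y - G' x y‖ ^ 2 = 1 / ε * ‖G x y - G' x y‖ ^ 2 +
          1 / ε * ‖G x y - G' x y‖ ^ 2 := by ring
        linarith only [h3, h6, h7]
      calc 1 / 2 * (κ x * κ y * (f x - f y) ^ 2) * |‖G' x y‖ ^ 2 - ‖G x y‖ ^ 2|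
          ≤ 1 / 2 * (κ x * κ y * (f x - f y) ^ 2) *
            (ε * ‖G x y‖ ^ 2 + 2 / ε * ‖G x y - G' x y‖ ^ 2) :=
            mul_le_mul_of_nonneg_left h2 (by positivity)
        _ = _ := by
            field_simp
    · rw [if_neg hB, if_neg hB, zero_add]
      calc 1 / 2 * (κ x * κ y * (f x - f y) ^ 2) * |‖G' x y‖ ^ 2 - ‖G x y‖ ^ 2|
          ≤ 1 / 2 * (κ x * κ y * (f x - f y) ^ 2) *
            (2 * ‖G x y‖ * ‖G x y - G' x y‖ + ‖G x y - G' x y‖ ^ 2) :=
            mul_le_mul_of_nonneg_left h1 (by positivity)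
        _ ≤ (κ x * κ y * (f x - f y) ^ 2) *
            (‖G x y‖ * ‖G x y - G' x y‖ + ‖G x y - G' x y‖ ^ 2) := by
            nlinarith only [mul_nonneg hw (sq_nonneg ‖G x y - G' x y‖)]
        _ = _ := by ring
  -- the sum over pairs in `B`
  have hBs : ∀ F : X → X → ℝ, ∑ x ∈ A, ∑ y ∈ A, (if x ∈ B ∧ y ∈ B then F x y else 0) =
      ∑ x ∈ B, ∑ y ∈ B, F x y := by
    intro F
    have h1 : ∀ x ∈ A, ∑ y ∈ A, (if x ∈ B ∧ y ∈ B then F x y else 0) =
        if x ∈ B then ∑ y ∈ B, F x y else 0 := by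
      intro x _
      by_cases hx : x ∈ B
      · simp only [hx, true_and, if_true]
        rw [← Finset.sum_filter]
        congr 1
        ext y
        simp only [Finset.mem_filter]
        exact ⟨fun h => h.2, fun h => ⟨hBA h, h⟩⟩
      · simp [hx]
    rw [Finset.sum_congr rfl h1, ← Finset.sum_filter]
    congr 1
    ext x
    simp only [Finset.mem_filter]
    exact ⟨fun h => h.2, fun h => ⟨hBA h, h⟩⟩
  -- the change in `B`
  have hch : ∑ x ∈ B, ∑ y ∈ B, κ x * κ y * ‖G x y - G' x y‖ ^ 2 * (f x - f y) ^ 2 ≤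
      4 * ∑ x ∈ B, κ x * m x * (f x - c) ^ 2 := by
    have h1 : ∀ x ∈ B, ∑ y ∈ B, κ x * κ y * ‖G x y - G' x y‖ ^ 2 * (f x - c) ^ 2 ≤
        κ x * m x * (f x - c) ^ 2 := by
      intro x hx
      have h2 : ∑ y ∈ B, κ x * κ y * ‖G x y - G' x y‖ ^ 2 * (f x - c) ^ 2 =
          κ x * (f x - c) ^ 2 * ∑ y ∈ B, κ y * ‖G x y - G' x y‖ ^ 2 := by
        rw [Finset.mul_sum]
        refine Finset.sum_congr rfl fun y _ => by ring
      rw [h2]
      calc κ x * (f x - c) ^ 2 * ∑ y ∈ B, κ y * ‖G x y - G' x y‖ ^ 2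
          ≤ κ x * (f x - c) ^ 2 * m x :=
            mul_le_mul_of_nonneg_left (hm x hx) (mul_nonneg (hκB x hx) (sq_nonneg _))
        _ = _ := by ring
    have h3 : ∑ x ∈ B, ∑ y ∈ B, κ x * κ y * ‖G x y - G' x y‖ ^ 2 * (f y - c) ^ 2 =
        ∑ x ∈ B, ∑ y ∈ B, κ x * κ y * ‖G x y - G' x y‖ ^ 2 * (f x - c) ^ 2 := by
      rw [Finset.sum_comm]
      refine Finset.sum_congr rfl fun x _ => Finset.sum_congr rfl fun y _ => ?_
      rw [hs y x, hs' y x]
      ring
    have h4 : ∑ x ∈ B, ∑ y ∈ B, κ x * κ y * ‖G x y - G' x y‖ ^ 2 * (f x - f y) ^ 2 ≤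
        ∑ x ∈ B, ∑ y ∈ B, (2 * (κ x * κ y * ‖G x y - G' x y‖ ^ 2 * (f x - c) ^ 2) +
          2 * (κ x * κ y * ‖G x y - G' x y‖ ^ 2 * (f y - c) ^ 2)) := by
      refine Finset.sum_le_sum fun x hx => Finset.sum_le_sum fun y hy => ?_
      have h5 : 0 ≤ κ x * κ y * ‖G x y - G' x y‖ ^ 2 :=
        mul_nonneg (mul_nonneg (hκB x hx) (hκB y hy)) (sq_nonneg _)
      have h6 : (f x - f y) ^ 2 ≤ 2 * (f x - c) ^ 2 + 2 * (f y - c) ^ 2 := by
        nlinarith only [sq_nonneg ((f x - c) + (f y - c))]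
      calc κ x * κ y * ‖G x y - G' x y‖ ^ 2 * (f x - f y) ^ 2
          ≤ κ x * κ y * ‖G x y - G' x y‖ ^ 2 * (2 * (f x - c) ^ 2 + 2 * (f y - c) ^ 2) :=
            mul_le_mul_of_nonneg_left h6 h5
        _ = _ := by ring
    refine h4.trans ?_
    have h7 : ∑ x ∈ B, ∑ y ∈ B, (2 * (κ x * κ y * ‖G x y - G' x y‖ ^ 2 * (f x - c) ^ 2) +
          2 * (κ x * κ y * ‖G x y - G' x y‖ ^ 2 * (f y - c) ^ 2)) =
        2 * ∑ x ∈ B, ∑ y ∈ B, κ x * κ y * ‖G x y - G' x y‖ ^ 2 * (f x - c) ^ 2 +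
        2 * ∑ x ∈ B, ∑ y ∈ B, κ x * κ y * ‖G x y - G' x y‖ ^ 2 * (f y - c) ^ 2 := by
      simp only [Finset.sum_add_distrib, Finset.mul_sum]
    rw [h7, h3]
    have h8 := Finset.sum_le_sum h1
    linarith only [h8]
  -- assembly
  unfold cE tl
  rw [Finset.mul_sum, Finset.mul_sum, ← Finset.sum_sub_distrib]
  refine (Finset.abs_sum_le_sum_abs _ _).trans ?_
  have hA : ∑ x ∈ A, |1 / 2 * ∑ y ∈ A, κ x * κ y * ‖G' x y‖ ^ 2 * (f x - f y) ^ 2 -
      1 / 2 * ∑ y ∈ A, κ x * κ y * ‖G x y‖ ^ 2 * (f x - f y) ^ 2| ≤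
      ∑ x ∈ A, ∑ y ∈ A, ((if x ∈ B ∧ y ∈ B then
        (ε * (1 / 2 * (κ x * κ y * ‖G x y‖ ^ 2 * (f x - f y) ^ 2)) +
        1 / ε * (κ x * κ y * ‖G x y - G' x y‖ ^ 2 * (f x - f y) ^ 2)) else 0) +
      (if x ∈ B ∧ y ∈ B then 0 else
    κ x * κ y * (‖G x y‖ * ‖G x y - G' x y‖ + ‖G x y - G' x y‖ ^ 2) * (f x - f y) ^ 2)) := by
    refine Finset.sum_le_sum fun x hx => ?_
    rw [Finset.mul_sum, Finset.mul_sum, ← Finset.sum_sub_distrib]
    exact (Finset.abs_sum_le_sum_abs _ _).trans (Finset.sum_le_sum fun y hy => hpt x hx y hy)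
  refine hA.trans ?_
  have h9 : ∑ x ∈ A, ∑ y ∈ A, ((if x ∈ B ∧ y ∈ B then
        (ε * (1 / 2 * (κ x * κ y * ‖G x y‖ ^ 2 * (f x - f y) ^ 2)) +
        1 / ε * (κ x * κ y * ‖G x y - G' x y‖ ^ 2 * (f x - f y) ^ 2)) else 0) +
      (if x ∈ B ∧ y ∈ B then 0 else
    κ x * κ y * (‖G x y‖ * ‖G x y - G' x y‖ + ‖G x y - G' x y‖ ^ 2) * (f x - f y) ^ 2)) =
      ∑ x ∈ B, ∑ y ∈ B, (ε * (1 / 2 * (κ x * κ y * ‖G x y‖ ^ 2 * (f x - f y) ^ 2)) +
        1 / ε * (κ x * κ y * ‖G x y - G' x y‖ ^ 2 * (f x - f y) ^ 2)) +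
      ∑ x ∈ A, ∑ y ∈ A, (if x ∈ B ∧ y ∈ B then 0 else
    κ x * κ y * (‖G x y‖ * ‖G x y - G' x y‖ + ‖G x y - G' x y‖ ^ 2) * (f x - f y) ^ 2) := by
    rw [← hBs]
    simp only [Finset.sum_add_distrib]
  rw [h9]
  have h10 : ∑ x ∈ B, ∑ y ∈ B, (ε * (1 / 2 * (κ x * κ y * ‖G x y‖ ^ 2 * (f x - f y) ^ 2)) +
        1 / ε * (κ x * κ y * ‖G x y - G' x y‖ ^ 2 * (f x - f y) ^ 2)) =
      ε * ∑ x ∈ B, 1 / 2 * ∑ y ∈ B, κ x * κ y * ‖G x y‖ ^ 2 * (f x - f y) ^ 2 +
      1 / ε * ∑ x ∈ B, ∑ y ∈ B, κ x * κ y * ‖G x y - G' x y‖ ^ 2 * (f x - f y) ^ 2 := by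
    simp only [Finset.sum_add_distrib, Finset.mul_sum]
  rw [h10]
  have h11 : 1 / ε * ∑ x ∈ B, ∑ y ∈ B, κ x * κ y * ‖G x y - G' x y‖ ^ 2 * (f x - f y) ^ 2 ≤
      4 / ε * ∑ x ∈ B, κ x * m x * (f x - c) ^ 2 := by
    calc _ ≤ 1 / ε * (4 * ∑ x ∈ B, κ x * m x * (f x - c) ^ 2) :=
          mul_le_mul_of_nonneg_left hch (by positivity)
      _ = _ := by ring
  rw [Finset.mul_sum (s := B) (a := (1 : ℝ) / 2)]
  linarith only [h11]

end Pool.Agent.ANR.H99
end
end -- Pool.Agent.Helper99_ANR.FRX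

section -- Pool.Agent.Helper76_ANR.All

/-!
# The tank ANR (release of sites): all rows without hypotheses
-/

set_option autoImplicit false

namespace Pool.Agent.ANR.H76

theorem grn : GrnStmt := H63.grn
theorem dir : DirStmt := H77.dir grn
theorem geq : GeqStmt := H72.geq dir grn
theorem qsy : QsyStmt := H31.qsy grn
theorem lv1 : Lv1Stmt := H92.lv1 grn dir qsy
theorem lv2 : Lv2Stmt := H17.lv2 lv1 dir geq
theorem lv0 : Lv0Stmt := H20.lv0 geq dir
theorem lvs : LvsStmt := H90.lvs dir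
theorem tal : TalStmt := H17.tal
theorem yhh : YhhStmt := H84.yhh lv2 geq
theorem frm : FrmStmt := H44.frm lv2 geq
theorem cut : CutStmt := H60.cut
theorem lvi : LviStmt := H60.lvi
theorem frx : FrxStmt := H99.frx
theorem rkb : RkbStmt := H49.rkb lv2 lvs
theorem flr : FlrStmt := H81.flr
theorem lmr : LmrStmt := H52.lmr
theorem thd : ThdStmt := H49.thd
theorem rev : RevStmt := H92.rev lv2 geq

end Pool.Agent.ANR.H76
end -- Pool.Agent.Helper76_ANR.All
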