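import Mathlib

/-!
# Merged copies (generated) of the modules

* `Pool.Agent.Helper68_LQF.INIa`
* `Pool.Agent.Helper68_LQF.INIb`
* `Pool.Agent.Helper68_LQX.INIa`
* `Pool.Agent.Helper84_LQZ.INIa`
-/

set_option autoImplicit false

section -- Pool.Agent.Helper68_LQF.INIa

/-!
# The parameters: numbers
-/

set_option autoImplicit false

open Filter

open scoped BigOperators Topology

noncomputable section

namespace Pool.Agent.LE.QF.H68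

theorem log_bound {s γ : ℝ} (hs : 0 < s) (hs1 : s ≤ 1) (hγ : 0 < γ) :
    1 + Real.log (1 / s) ≤ (1 + 1 / γ) * s ^ (-γ) := by
  have h1 : (1 : ℝ) ≤ s ^ (-γ) := by
    apply Real.one_le_rpow_of_pos_of_le_one_of_nonpos hs hs1
    linarith only [hγ]
  have h2 : Real.log (1 / s) = 1 / γ * Real.log (s ^ (-γ)) := by
    rw [Real.log_rpow hs, one_div, Real.log_inv]
    field_simp
  have h3 : Real.log (s ^ (-γ)) ≤ s ^ (-γ) - 1 :=
    Real.log_le_sub_one_of_pos (by positivity)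
  have h4 : 0 < 1 / γ := by positivity
  rw [h2]
  nlinarith only [h1, h3, h4]

/-- powers beat logarithms -/
theorem evt (K α β : ℝ) (k : ℕ) (h : β < α) :
    ∀ᶠ s in 𝓝[>] (0 : ℝ), K * s ^ α * (1 + Real.log (1 / s)) ^ k ≤ s ^ β := by
  set γ : ℝ := (α - β) / (k + 1) with hγ
  have hk : (0 : ℝ) < (k : ℝ) + 1 := by positivity
  have hγ0 : 0 < γ := by
    apply div_pos _ hk
    linarith
  have ht : Tendsto (fun s : ℝ => |K| * (1 + 1 / γ) ^ k * s ^ γ) (𝓝[>] 0) (𝓝 0) := by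
    have h1 : Tendsto (fun s : ℝ => s ^ γ) (𝓝[>] 0) (𝓝 0) := by
      have h2 : ContinuousAt (fun s : ℝ => s ^ γ) 0 :=
        Real.continuousAt_rpow_const _ _ (Or.inr hγ0.le)
      have h3 := h2.tendsto
      rw [Real.zero_rpow hγ0.ne'] at h3
      exact h3.mono_left nhdsWithin_le_nhds
    simpa using h1.const_mul (|K| * (1 + 1 / γ) ^ k)
  have e1 : ∀ᶠ s in 𝓝[>] (0 : ℝ), |K| * (1 + 1 / γ) ^ k * s ^ γ < 1 :=
    ht.eventually (gt_mem_nhds one_pos)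
  have e2 : ∀ᶠ s in 𝓝[>] (0 : ℝ), 0 < s := self_mem_nhdsWithin
  have e3 : ∀ᶠ s in 𝓝[>] (0 : ℝ), s < 1 :=
    nhdsWithin_le_nhds (gt_mem_nhds one_pos)
  filter_upwards [e1, e2, e3] with s h1 h2 h3
  have hl0 : 0 ≤ Real.log (1 / s) := Real.log_nonneg (by rw [le_div_iff₀ h2]; linarith only [h3])
  have hl : 0 ≤ 1 + Real.log (1 / s) := by linarith only [h2, h3, hl0]
  have hb := log_bound h2 h3.le hγ0
  calc K * s ^ α * (1 + Real.log (1 / s)) ^ k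
      ≤ |K| * s ^ α * ((1 + 1 / γ) * s ^ (-γ)) ^ k := by
        have := le_abs_self K
        gcongr
    _ = |K| * (1 + 1 / γ) ^ k * s ^ γ * s ^ β := by
        rw [mul_pow, ← Real.rpow_natCast (s ^ (-γ)) k, ← Real.rpow_mul h2.le]
        have e5 : s ^ γ * s ^ β = s ^ α * s ^ (-γ * (k : ℝ)) := by
          rw [← Real.rpow_add h2, ← Real.rpow_add h2]
          congr 1
          have : γ * (k + 1) = α - β := by
            rw [hγ]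
            field_simp
          linarith only [this]
        rw [mul_assoc (|K| * (1 + 1 / γ) ^ k), e5]
        ring
    _ ≤ 1 * s ^ β := by gcongr
    _ = s ^ β := one_mul _

/-- the same with a constant on the right -/
theorem evc (K α c : ℝ) (k : ℕ) (h : 0 < α) (hc : 0 < c) :
    ∀ᶠ s in 𝓝[>] (0 : ℝ), K * s ^ α * (1 + Real.log (1 / s)) ^ k ≤ c := by
  filter_upwards [evt (K / c) α 0 k h] with s hs
  rw [Real.rpow_zero] at hs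
  have : K * s ^ α * (1 + Real.log (1 / s)) ^ k =
      c * (K / c * s ^ α * (1 + Real.log (1 / s)) ^ k) := by
    field_simp
  rw [this]
  calc c * (K / c * s ^ α * (1 + Real.log (1 / s)) ^ k) ≤ c * 1 := by gcongr
    _ = c := mul_one _

theorem evt0 (K α β : ℝ) (h : β < α) : ∀ᶠ s in 𝓝[>] (0 : ℝ), K * s ^ α ≤ s ^ β := by
  filter_upwards [evt K α β 0 h] with s hs
  simpa using hs

theorem evc0 (K α c : ℝ) (h : 0 < α) (hc : 0 < c) :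
    ∀ᶠ s in 𝓝[>] (0 : ℝ), K * s ^ α ≤ c := by
  filter_upwards [evc K α c 0 h hc] with s hs
  simpa using hs

theorem xpow {s : ℝ} (hs : 0 < s) (θ : ℝ) (n : ℕ) : (s ^ θ) ^ n = s ^ ((n : ℝ) * θ) := by
  rw [← Real.rpow_natCast, ← Real.rpow_mul hs.le, mul_comm]

/-- the errors -/
theorem aN_bound {Nw pe x j p ch : ℝ} (hx : 0 < x) (hx1 : x ≤ 1) (hN0 : 0 ≤ Nw)
    (hN : Nw ≤ x ^ 20) (hp0 : 0 ≤ pe) (hp : pe ≤ x ^ 20) (hj0 : 0 ≤ j) (hj : j ≤ 2 / x)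
    (hpp0 : 0 ≤ p) (hpp : p ≤ 2 / x ^ 4) (hch : ch = (x ^ 6)⁻¹ * (Nw + pe + (x ^ 5) ^ 4)) :
    j * (x ^ 5 + Real.sqrt ch / x ^ 5 + x ^ 5 / x ^ 3) +
      j ^ 2 * (ch / (x ^ 5) ^ 2 + (Nw + (x ^ 5) ^ 2) / (x ^ 3) ^ 2 +
        1 / Real.sqrt ((x ^ 6)⁻¹) + x ^ 3 + (1 + x ^ 3 - 1)) +
      p * x ^ 5 + p ^ 2 * (Nw + (x ^ 5) ^ 2 + pe) ≤ 54 * x := by
  have hch1 : ch ≤ 3 * x ^ 14 := by
    rw [hch]
    calc (x ^ 6)⁻¹ * (Nw + pe + (x ^ 5) ^ 4) ≤ (x ^ 6)⁻¹ * (x ^ 20 + x ^ 20 + (x ^ 5) ^ 4) := by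
          gcongr
      _ = 3 * x ^ 14 := by
          field_simp
          ring
  have hsq : Real.sqrt ch ≤ 2 * x ^ 7 := by
    apply Real.sqrt_le_iff.2
    refine ⟨by positivity, ?_⟩
    have : (2 * x ^ 7) ^ 2 = 4 * x ^ 14 := by ring
    rw [this]
    have : 0 ≤ x ^ 14 := by positivity
    linarith only [hch1, this]
  have hpow : ∀ m n : ℕ, n ≤ m → x ^ m ≤ x ^ n := fun m n h =>
    pow_le_pow_of_le_one hx.le hx1 h
  have t1 : x ^ 5 + Real.sqrt ch / x ^ 5 + x ^ 5 / x ^ 3 ≤ 4 * x ^ 2 := by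
    have a1 : x ^ 5 ≤ x ^ 2 := hpow _ _ (by norm_num)
    have a2 : Real.sqrt ch / x ^ 5 ≤ 2 * x ^ 2 := by
      rw [div_le_iff₀ (by positivity)]
      calc Real.sqrt ch ≤ 2 * x ^ 7 := hsq
        _ = 2 * x ^ 2 * x ^ 5 := by ring
    have a3 : x ^ 5 / x ^ 3 = x ^ 2 := by
      field_simp
    linarith
  have t2 : ch / (x ^ 5) ^ 2 + (Nw + (x ^ 5) ^ 2) / (x ^ 3) ^ 2 +
      1 / Real.sqrt ((x ^ 6)⁻¹) + x ^ 3 + (1 + x ^ 3 - 1) ≤ 8 * x ^ 3 := by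
    have a1 : ch / (x ^ 5) ^ 2 ≤ 3 * x ^ 4 := by
      rw [div_le_iff₀ (by positivity)]
      calc ch ≤ 3 * x ^ 14 := hch1
        _ = 3 * x ^ 4 * (x ^ 5) ^ 2 := by ring
    have a2 : (Nw + (x ^ 5) ^ 2) / (x ^ 3) ^ 2 ≤ 2 * x ^ 4 := by
      rw [div_le_iff₀ (by positivity)]
      have : x ^ 20 ≤ x ^ 10 := hpow _ _ (by norm_num)
      calc Nw + (x ^ 5) ^ 2 ≤ x ^ 10 + (x ^ 5) ^ 2 := by linarith only [hN, this]
        _ = 2 * x ^ 4 * (x ^ 3) ^ 2 := by ring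
    have a3 : 1 / Real.sqrt ((x ^ 6)⁻¹) = x ^ 3 := by
      rw [Real.sqrt_inv, show x ^ 6 = (x ^ 3) ^ 2 by ring, Real.sqrt_sq (by positivity)]
      simp
    have a4 : x ^ 4 ≤ x ^ 3 := hpow _ _ (by norm_num)
    rw [a3]
    linarith only [a1, a2, a4]
  have t3 : Nw + (x ^ 5) ^ 2 + pe ≤ 3 * x ^ 10 := by
    have : x ^ 20 ≤ x ^ 10 := hpow _ _ (by norm_num)
    have e : (x ^ 5) ^ 2 = x ^ 10 := by ring
    rw [e]
    linarith only [hN, hp, this]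
  have u1 : j * (x ^ 5 + Real.sqrt ch / x ^ 5 + x ^ 5 / x ^ 3) ≤ 8 * x := by
    calc j * (x ^ 5 + Real.sqrt ch / x ^ 5 + x ^ 5 / x ^ 3) ≤ 2 / x * (4 * x ^ 2) := by gcongr
      _ = 8 * x := by
          field_simp
          ring
  have u2 : j ^ 2 * (ch / (x ^ 5) ^ 2 + (Nw + (x ^ 5) ^ 2) / (x ^ 3) ^ 2 +
        1 / Real.sqrt ((x ^ 6)⁻¹) + x ^ 3 + (1 + x ^ 3 - 1)) ≤ 32 * x := by
    calc j ^ 2 * (ch / (x ^ 5) ^ 2 + (Nw + (x ^ 5) ^ 2) / (x ^ 3) ^ 2 +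
        1 / Real.sqrt ((x ^ 6)⁻¹) + x ^ 3 + (1 + x ^ 3 - 1)) ≤ j ^ 2 * (8 * x ^ 3) := by gcongr
      _ ≤ (2 / x) ^ 2 * (8 * x ^ 3) := by gcongr
      _ = 32 * x := by
          field_simp
          ring
  have u3 : p * x ^ 5 ≤ 2 * x := by
    calc p * x ^ 5 ≤ 2 / x ^ 4 * x ^ 5 := by gcongr
      _ = 2 * x := by
          field_simp
  have u4 : p ^ 2 * (Nw + (x ^ 5) ^ 2 + pe) ≤ 12 * x := by
    calc p ^ 2 * (Nw + (x ^ 5) ^ 2 + pe) ≤ p ^ 2 * (3 * x ^ 10) := by gcongr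
      _ ≤ (2 / x ^ 4) ^ 2 * (3 * x ^ 10) := by gcongr
      _ = 12 * x ^ 2 := by
          field_simp
          ring
      _ ≤ 12 * x := by nlinarith only [hx, hx1]
  linarith only [u1, u2, u3, u4]

/-- the additive errors -/
theorem bN_bound {x : ℝ} {j p : ℕ} (hx : 0 < x) (hx1 : x ≤ 1) (hj : x⁻¹ ≤ j)
    (hp : (x ^ 4)⁻¹ ≤ p) (h2 : 2 ≤ Real.exp (x⁻¹ / 8)) :
    (1 / 4 : ℝ) ^ j + (1 / (1 + x ^ 3 / 2)) ^ p ≤ Real.exp (-(x⁻¹ / 8)) := by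
  have hxi : 0 < x⁻¹ := by positivity
  have a1 : (1 / 4 : ℝ) ^ j ≤ Real.exp (-(x⁻¹ / 4)) := by
    have b1 : (1 / 4 : ℝ) ≤ Real.exp (-1) := by
      rw [Real.exp_neg, one_div]
      apply inv_anti₀ (Real.exp_pos 1)
      have := Real.exp_one_lt_d9
      linarith only [this]
    calc (1 / 4 : ℝ) ^ j ≤ (Real.exp (-1)) ^ j := by gcongr
      _ = Real.exp (-(j : ℝ)) := by
          rw [← Real.exp_nat_mul]
          congr 1
          ring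
      _ ≤ Real.exp (-(x⁻¹ / 4)) := by
          apply Real.exp_le_exp.2
          linarith only [hj, hxi]
  have a2 : (1 / (1 + x ^ 3 / 2)) ^ p ≤ Real.exp (-(x⁻¹ / 4)) := by
    have hx3 : 0 < x ^ 3 := by positivity
    have hx3' : x ^ 3 ≤ 1 := pow_le_one₀ hx.le hx1
    have b1 : 1 / (1 + x ^ 3 / 2) ≤ Real.exp (-(x ^ 3 / 4)) := by
      have b2 : 1 / (1 + x ^ 3 / 2) ≤ 1 - x ^ 3 / 4 := by
        rw [div_le_iff₀ (by positivity)]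
        nlinarith only [hx3, hx3']
      have b3 := Real.add_one_le_exp (-(x ^ 3 / 4))
      linarith only [b2, b3]
    calc (1 / (1 + x ^ 3 / 2)) ^ p ≤ (Real.exp (-(x ^ 3 / 4))) ^ p := by gcongr
      _ = Real.exp ((p : ℝ) * -(x ^ 3 / 4)) := by rw [← Real.exp_nat_mul]
      _ ≤ Real.exp (-(x⁻¹ / 4)) := by
          apply Real.exp_le_exp.2
          have b4 : (x ^ 4)⁻¹ * (x ^ 3 / 4) ≤ p * (x ^ 3 / 4) := by gcongr
          have b5 : (x ^ 4)⁻¹ * (x ^ 3 / 4) = x⁻¹ / 4 := by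
            field_simp
          rw [b5] at b4
          linarith only [b4]
  have a3 : 2 * Real.exp (-(x⁻¹ / 4)) ≤ Real.exp (-(x⁻¹ / 8)) := by
    have b1 : Real.exp (-(x⁻¹ / 8)) = Real.exp (x⁻¹ / 8) * Real.exp (-(x⁻¹ / 4)) := by
      rw [← Real.exp_add]
      congr 1
      ring
    rw [b1]
    gcongr
  linarith only [a1, a2, a3]

/-- the logarithm of `w` -/
theorem lw_bound {s w cm : ℝ} (hs : 0 < s) (hs1 : s ≤ 1) (hcm : 0 < cm) (hcm1 : cm ≤ 1)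
    (hw : cm * s ^ 2 ≤ w) :
    1 + Real.log (1 / w) ≤ (2 + Real.log (1 / cm)) * (1 + Real.log (1 / s)) := by
  have h0 : 0 < cm * s ^ 2 := by positivity
  have h1 : Real.log (1 / w) ≤ Real.log (1 / (cm * s ^ 2)) := by
    have hw0 : 0 < w := by linarith
    apply Real.log_le_log (by positivity)
    gcongr
  have h2 : Real.log (1 / (cm * s ^ 2)) = Real.log (1 / cm) + 2 * Real.log (1 / s) := by
    rw [show 1 / (cm * s ^ 2) = 1 / cm * (1 / s) ^ 2 by field_simp,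
      Real.log_mul (by positivity) (by positivity), Real.log_pow]
    push_cast
    ring
  have h3 : 0 ≤ Real.log (1 / cm) := Real.log_nonneg (by rw [le_div_iff₀ hcm]; linarith only [hcm1])
  have h4 : 0 ≤ Real.log (1 / s) := Real.log_nonneg (by rw [le_div_iff₀ hs]; linarith only [hs1])
  have h5 : 0 ≤ Real.log (1 / cm) * Real.log (1 / s) := by positivity
  nlinarith only [h1, h2, h5]

/-- the logarithm of `M` -/
theorem lM_bound {s Mr A : ℝ} (hs : 0 < s) (hs1 : s ≤ 1) (hM : 1 ≤ Mr) (hA : 1 ≤ A)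
    (h : Mr ≤ s ^ (-A)) : 1 + Real.log Mr ≤ A * (1 + Real.log (1 / s)) := by
  have h1 : Real.log Mr ≤ Real.log (s ^ (-A)) := Real.log_le_log (by linarith) h
  have h2 : Real.log (s ^ (-A)) = A * Real.log (1 / s) := by
    rw [Real.log_rpow hs, one_div, Real.log_inv]
    ring
  rw [h2] at h1
  linarith only [hA, h1]

/-- the ceiling of `M r` -/
theorem ceil_bound {Mr r : ℝ} (hM : 0 < Mr) (h : 1 ≤ Mr * r) :
    1 ≤ ⌈Mr * r⌉₊ ∧ r ≤ (⌈Mr * r⌉₊ : ℝ) / Mr ∧ (⌈Mr * r⌉₊ : ℝ) / Mr ≤ 2 * r := by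
  have h1 : Mr * r ≤ (⌈Mr * r⌉₊ : ℝ) := Nat.le_ceil _
  have h2 : (⌈Mr * r⌉₊ : ℝ) < Mr * r + 1 := Nat.ceil_lt_add_one (by linarith)
  refine ⟨?_, ?_, ?_⟩
  · have : (1 : ℝ) ≤ (⌈Mr * r⌉₊ : ℝ) := h.trans h1
    exact_mod_cast this
  · rw [le_div_iff₀ hM]
    linarith
  · rw [div_le_iff₀ hM]
    linarith

/-- the sums of `S`, numbers -/
theorem sS_bound {s ε cm Cw η w CS cs K ρ q N θ : ℝ} {d : ℕ} (hd : 3 ≤ d) (hs : 0 < s)
    (hs1 : s ≤ 1) (hε : 0 < ε) (hε1 : ε ≤ 1) (hcm : 0 < cm) (hCw : 0 < Cw) (hw1 : cm * s ^ 2 ≤ w)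
    (hw2 : w ≤ Cw * s ^ 2) (hη : η = s ^ (2 * (d : ℝ) - ε)) (hCS : 0 ≤ CS) (hcs : 0 ≤ cs)
    (hρ : ρ = s ^ ((d : ℝ) + 1 - 3 * ε / 4)) (hq1 : ρ ≤ q) (hq2 : q ≤ 2 * ρ) (hN0 : 0 ≤ N)
    (hN : N ≤ s ^ (-((d : ℝ) * (d + 1 - ε))))
    (hK : K = CS * cs * ((1 / cm + Cw) * (1 + 2 ^ d)))
    (hθ : K * s ^ (ε / 2) ≤ s ^ θ) :
    CS * cs * ((1 / w + w / q ^ 2) * N + (q ^ d / w + w * q ^ (d - 2)) * N ^ 2) ≤
      s ^ θ * N / η := by
  have hd3 : (3 : ℝ) ≤ d := by exact_mod_cast hd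
  have hη0 : 0 < η := by
    rw [hη]
    positivity
  have hρ0 : 0 < ρ := by
    rw [hρ]
    positivity
  have hq0 : 0 < q := by linarith only [hq1, hρ0]
  have hcs2 : 0 < cm * s ^ 2 := by positivity
  have hw0 : 0 < w := by linarith only [hw1, hcs2]
  have hle : ∀ α β : ℝ, β ≤ α → s ^ α ≤ s ^ β := fun α β h =>
    Real.rpow_le_rpow_of_exponent_ge hs hs1 h
  have hs2 : s ^ 2 = s ^ (2 : ℝ) := by
    rw [← Real.rpow_natCast]
    norm_num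
  -- `η / w`
  have a1 : η / w ≤ 1 / cm * s ^ (ε / 2) := by
    rw [div_le_iff₀ hw0]
    have b1 : η ≤ s ^ (ε / 2) * s ^ 2 := by
      rw [hη, hs2, ← Real.rpow_add hs]
      apply hle
      linarith only [hε1, hd3]
    calc η ≤ s ^ (ε / 2) * s ^ 2 := b1
      _ = 1 / cm * s ^ (ε / 2) * (cm * s ^ 2) := by field_simp
      _ ≤ 1 / cm * s ^ (ε / 2) * w := by gcongr
  -- `η w / ρ²`
  have a2 : η * w / ρ ^ 2 ≤ Cw * s ^ (ε / 2) := by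
    rw [div_le_iff₀ (by positivity)]
    have b1 : s ^ (2 * (d : ℝ) - ε) * s ^ 2 = s ^ (ε / 2) * ρ ^ 2 := by
      rw [hρ, hs2, ← Real.rpow_natCast (s ^ ((d : ℝ) + 1 - 3 * ε / 4)), ← Real.rpow_mul hs.le,
        ← Real.rpow_add hs, ← Real.rpow_add hs]
      congr 1
      push_cast
      ring
    calc η * w ≤ η * (Cw * s ^ 2) := by gcongr
      _ = Cw * (s ^ (2 * (d : ℝ) - ε) * s ^ 2) := by
          rw [hη]
          ring
      _ = Cw * s ^ (ε / 2) * ρ ^ 2 := by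
          rw [b1]
          ring
  -- `ρ^d N`
  have a3 : ρ ^ d * N ≤ 1 := by
    have b1 : ρ ^ d = s ^ ((d : ℝ) * (d + 1 - 3 * ε / 4)) := by
      rw [hρ, xpow hs]
    calc ρ ^ d * N ≤ ρ ^ d * s ^ (-((d : ℝ) * (d + 1 - ε))) := by gcongr
      _ = s ^ ((d : ℝ) * ε / 4) := by
          rw [b1, ← Real.rpow_add hs]
          congr 1
          ring
      _ ≤ 1 := Real.rpow_le_one hs.le hs1 (by positivity)
  have hqd : q ^ d ≤ 2 ^ d * ρ ^ d := by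
    rw [← mul_pow]
    gcongr
  have hqd2 : q ^ (d - 2) ≤ 2 ^ d * ρ ^ d / ρ ^ 2 := by
    rw [le_div_iff₀ (by positivity)]
    calc q ^ (d - 2) * ρ ^ 2 ≤ q ^ (d - 2) * q ^ 2 := by gcongr
      _ = q ^ d := by
          rw [← pow_add]
          congr 1
          omega
      _ ≤ 2 ^ d * ρ ^ d := hqd
  have hsε : 0 < s ^ (ε / 2) := by positivity
  have b1 : η * (1 / w + w / q ^ 2) ≤ (1 / cm + Cw) * s ^ (ε / 2) := by
    have c1 : w / q ^ 2 ≤ w / ρ ^ 2 := by gcongr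
    calc η * (1 / w + w / q ^ 2) ≤ η * (1 / w + w / ρ ^ 2) := by gcongr
      _ = η / w + η * w / ρ ^ 2 := by ring
      _ ≤ 1 / cm * s ^ (ε / 2) + Cw * s ^ (ε / 2) := add_le_add a1 a2
      _ = _ := by ring
  have b2 : η * ((q ^ d / w + w * q ^ (d - 2)) * N) ≤ (1 / cm + Cw) * 2 ^ d * s ^ (ε / 2) := by
    calc η * ((q ^ d / w + w * q ^ (d - 2)) * N)
        ≤ η * ((2 ^ d * ρ ^ d / w + w * (2 ^ d * ρ ^ d / ρ ^ 2)) * N) := by gcongr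
      _ = (η / w + η * w / ρ ^ 2) * 2 ^ d * (ρ ^ d * N) := by
          field_simp
      _ ≤ (1 / cm * s ^ (ε / 2) + Cw * s ^ (ε / 2)) * 2 ^ d * 1 := by gcongr
      _ = _ := by ring
  rw [le_div_iff₀ hη0]
  calc CS * cs * ((1 / w + w / q ^ 2) * N + (q ^ d / w + w * q ^ (d - 2)) * N ^ 2) * η
      = CS * cs * (η * (1 / w + w / q ^ 2) +
          η * ((q ^ d / w + w * q ^ (d - 2)) * N)) * N := by ring
    _ ≤ CS * cs * ((1 / cm + Cw) * s ^ (ε / 2) + (1 / cm + Cw) * 2 ^ d * s ^ (ε / 2)) * N := by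
        gcongr
    _ = K * s ^ (ε / 2) * N := by
        rw [hK]
        ring
    _ ≤ s ^ θ * N := by gcongr

end Pool.Agent.LE.QF.H68
end
end -- Pool.Agent.Helper68_LQF.INIa

section -- Pool.Agent.Helper68_LQF.INIb

/-!
# The parameters: the conditions on `s = |σ|`
-/

set_option autoImplicit false

open Filter

open scoped BigOperators Topology

noncomputable section

namespace Pool.Agent.LE.QF.H68

/-- the constants -/
structure Cst where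
  d : ℕ
  k₀ : ℕ
  ε : ℝ
  a : ℝ
  c₀ : ℝ
  cm : ℝ
  Cm : ℝ
  CI : ℝ
  CK : ℝ
  CB : ℝ
  CF : ℝ
  CS : ℝ
  cG : ℝ
  CG : ℝ
  cs : ℝ

namespace Cst

variable (K : Cst)

def θ : ℝ := K.ε / (24 * K.d)

def Cw : ℝ := 1 + K.Cm

def Kl : ℝ := 2 + Real.log (1 / K.cm)

/-- the radius of the low momenta -/
def r (s : ℝ) : ℝ := s ^ (2 - K.ε / (2 * K.d))

/-- the conditions on the constants -/
structure Ok : Prop where
  hd : 3 ≤ K.d
  hε : 0 < K.ε ∧ K.ε ≤ 1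
  ha : 0 < K.a
  hc₀ : 0 < K.c₀
  hcm : 0 < K.cm ∧ K.cm ≤ 1
  hCm : 1 ≤ K.Cm
  hCI : 1 ≤ K.CI
  hCK : 1 ≤ K.CK
  hCB : 1 ≤ K.CB
  hCF : 1 ≤ K.CF
  hCS : 1 ≤ K.CS
  hcG : 0 < K.cG
  hCG : 1 ≤ K.CG
  hcs : 1 ≤ K.cs
  hk₀ : (K.d : ℝ) * (4 * K.d + 6) < 6 * K.k₀ * K.θ

/-- the conditions on `s` -/
structure Cnd (s : ℝ) : Prop where
  q0 : 0 < s ∧ s ≤ 1 / 4
  q1 : s ^ 2 ≤ K.cm ∧ K.Cw * s ^ 2 ≤ 1 / 2 ∧ K.Cw * s ^ 2 ≤ K.cG
  q3 : K.CK / K.cm ^ 2 * s ≤ 1 ∧ K.CB / K.cm ^ 2 * s ≤ 1 ∧ K.CF / K.cm ^ 2 * s ≤ 1 ∧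
    K.CG / K.cm * s ≤ 1 ∧ K.Cm * s ≤ 1
  q4 : 4 * K.Cm * s ^ 2 * (1 + Real.log (1 / s)) ≤ s ^ (2 - K.ε) ∧
    4 * K.Cm * s ^ 2 * (1 + Real.log (1 / s)) ≤ K.a
  q5 : (s ^ K.θ) ^ 3 ≤ K.c₀ ∧ s ^ K.θ ≤ 1 / 8
  q7 : s ^ (-((K.d : ℝ) * (4 * K.d + 6))) * (s ^ K.θ) ^ (6 * K.k₀) ≤ 1 / 4
  q11 : K.CB * K.Kl / K.cm * (1 + Real.log (1 / s)) *
    (Real.sqrt K.Cw * (s ^ K.θ) ^ 6 + 2 * K.Cw * s ^ K.ε) ≤ (s ^ K.θ) ^ 3 / 2
  q12 : K.CK * K.Kl * (1 + Real.log (1 / s)) * (Real.sqrt K.Cw * (s ^ K.θ) ^ 6) ≤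
    K.cm * ((s ^ K.θ) ^ 3 / 8)
  q13 : 16 * K.r s ≤ 1
  q15 : 8 * K.d * K.r s ≤ s ^ (2 - K.ε)
  q16 : K.CF * K.Cw * (4 * K.d + 6) ^ 6 * s ^ (2 / 3 : ℝ) * (1 + Real.log (1 / s)) ^ 6 ≤
    (s ^ K.θ) ^ 40
  q17 : K.CI * K.cs * 2 ^ K.d * (4 + K.Cw ^ 2) * s ^ (K.ε / 2) ≤ (s ^ K.θ) ^ 20
  q20 : 2 * s ≤ (s ^ K.θ) ^ 4
  q22 : K.CS * K.cs * ((1 / K.cm + K.Cw) * (1 + 2 ^ K.d)) * s ^ (K.ε / 2) ≤ s ^ K.θ

variable {K}

theorem Ok.dpos (h : K.Ok) : (3 : ℝ) ≤ K.d := by exact_mod_cast h.hd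

theorem Ok.θpos (h : K.Ok) : 0 < K.θ := by
  have := h.dpos
  have := h.hε.1
  unfold θ
  positivity

theorem Ok.θd (h : K.Ok) : 24 * K.d * K.θ = K.ε := by
  have := h.dpos
  unfold θ
  field_simp

theorem Ok.θ72 (h : K.Ok) : 72 * K.θ ≤ K.ε := by
  have h1 := h.dpos
  have h2 := h.θd
  have h3 := h.θpos
  nlinarith only [h1, h2, h3]

theorem Ok.Cwpos (h : K.Ok) : 2 ≤ K.Cw := by
  have := h.hCm
  unfold Cw
  linarith

theorem Ok.Klpos (h : K.Ok) : 2 ≤ K.Kl := by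
  have h1 : 0 ≤ Real.log (1 / K.cm) :=
    Real.log_nonneg (by rw [le_div_iff₀ h.hcm.1]; linarith [h.hcm.2])
  unfold Kl
  linarith

theorem Ok.rexp (h : K.Ok) : 2 - K.ε / (2 * K.d) = 2 - 12 * K.θ := by
  have h1 := h.dpos
  unfold θ
  field_simp
  ring

theorem Ok.ev (h : K.Ok) : ∀ᶠ s in 𝓝[>] (0 : ℝ), K.Cnd s := by
  have hd := h.dpos
  have hθ := h.θpos
  have hθ72 := h.θ72
  have hε := h.hε.1
  have hε1 := h.hε.2
  have hcm := h.hcm.1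
  have e0 : ∀ᶠ s in 𝓝[>] (0 : ℝ), 0 < s := self_mem_nhdsWithin
  have e1 : ∀ᶠ s in 𝓝[>] (0 : ℝ), s ≤ 1 / 4 := by
    filter_upwards [evc0 1 1 (1 / 4) (by norm_num) (by norm_num)] with s hs
    simpa using hs
  have p1 := evc0 1 2 K.cm (by norm_num) hcm
  have p2 := evc0 K.Cw 2 (1 / 2) (by norm_num) (by norm_num)
  have p3 := evc0 K.Cw 2 K.cG (by norm_num) h.hcG
  have p4 := evc0 (K.CK / K.cm ^ 2) 1 1 (by norm_num) one_pos
  have p5 := evc0 (K.CB / K.cm ^ 2) 1 1 (by norm_num) one_pos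
  have p6 := evc0 (K.CF / K.cm ^ 2) 1 1 (by norm_num) one_pos
  have p7 := evc0 (K.CG / K.cm) 1 1 (by norm_num) one_pos
  have p8 := evc0 K.Cm 1 1 (by norm_num) one_pos
  have p9 := evt (4 * K.Cm) 2 (2 - K.ε) 1 (by linarith)
  have p10 := evc (4 * K.Cm) 2 K.a 1 (by norm_num) h.ha
  have p11 := evc0 1 (3 * K.θ) K.c₀ (by positivity) h.hc₀
  have p12 := evc0 1 K.θ (1 / 8) hθ (by norm_num)
  have p13 := evc0 1 (6 * K.k₀ * K.θ - (K.d : ℝ) * (4 * K.d + 6)) (1 / 4)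
    (by linarith [h.hk₀]) (by norm_num)
  have p14 := evt (4 * (K.CB * K.Kl / K.cm * Real.sqrt K.Cw)) (6 * K.θ) (3 * K.θ) 1 (by linarith)
  have p15 := evt (4 * (K.CB * K.Kl / K.cm * (2 * K.Cw))) K.ε (3 * K.θ) 1 (by linarith)
  have p16 := evt (8 / K.cm * (K.CK * K.Kl * Real.sqrt K.Cw)) (6 * K.θ) (3 * K.θ) 1 (by linarith)
  have p17 := evc0 16 (2 - K.ε / (2 * K.d)) 1 (by rw [h.rexp]; linarith only [hθ, hθ72, hε1]) one_pos
  have p18 := evt0 (8 * K.d) (2 - K.ε / (2 * K.d)) (2 - K.ε) (by rw [h.rexp]; linarith)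
  have p19 := evt (K.CF * K.Cw * (4 * K.d + 6) ^ 6) (2 / 3) (40 * K.θ) 6 (by linarith)
  have p20 := evt0 (K.CI * K.cs * 2 ^ K.d * (4 + K.Cw ^ 2)) (K.ε / 2) (20 * K.θ) (by linarith)
  have p21 := evt0 2 1 (4 * K.θ) (by linarith)
  have p22 := evt0 (K.CS * K.cs * ((1 / K.cm + K.Cw) * (1 + 2 ^ K.d))) (K.ε / 2) K.θ
    (by linarith)
  filter_upwards [e0, e1, p1, p2, p3, p4, p5, p6, p7, p8, p9, p10, p11, p12, p13, p14, p15, p16,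
    p17, p18, p19, p20, p21, p22] with s e0 e1 p1 p2 p3 p4 p5 p6 p7 p8 p9 p10 p11 p12 p13 p14 p15
    p16 p17 p18 p19 p20 p21 p22
  have x3 : (s ^ K.θ) ^ 3 = s ^ (3 * K.θ) := by
    rw [xpow e0]
    norm_num
  have x4 : (s ^ K.θ) ^ 4 = s ^ (4 * K.θ) := by
    rw [xpow e0]
    norm_num
  have x6 : (s ^ K.θ) ^ 6 = s ^ (6 * K.θ) := by
    rw [xpow e0]
    norm_num
  have x20 : (s ^ K.θ) ^ 20 = s ^ (20 * K.θ) := by
    rw [xpow e0]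
    norm_num
  have x40 : (s ^ K.θ) ^ 40 = s ^ (40 * K.θ) := by
    rw [xpow e0]
    norm_num
  have s2 : s ^ (2 : ℝ) = s ^ 2 := by
    rw [← Real.rpow_natCast]
    norm_num
  have s1 : s ^ (1 : ℝ) = s := Real.rpow_one s
  rw [s2] at p1 p2 p3 p9 p10
  rw [s1] at p4 p5 p6 p7 p8 p21
  rw [one_mul] at p1 p11 p12 p13
  rw [pow_one] at p9 p10 p14 p15 p16
  refine ⟨⟨e0, e1⟩, ⟨p1, p2, p3⟩, ⟨p4, p5, p6, p7, p8⟩, ⟨p9, p10⟩, ⟨?_, p12⟩, ?_, ?_, ?_, p17,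
    p18, ?_, ?_, ?_, p22⟩
  · rw [x3]
    exact p11
  · rw [xpow e0, ← Real.rpow_add e0]
    have : -((K.d : ℝ) * (4 * K.d + 6)) + ((6 * K.k₀ : ℕ) : ℝ) * K.θ =
        6 * K.k₀ * K.θ - (K.d : ℝ) * (4 * K.d + 6) := by
      push_cast
      ring
    rw [this]
    exact p13
  · rw [x3, x6]
    have e : K.CB * K.Kl / K.cm * (1 + Real.log (1 / s)) *
        (Real.sqrt K.Cw * s ^ (6 * K.θ) + 2 * K.Cw * s ^ K.ε) =
        (4 * (K.CB * K.Kl / K.cm * Real.sqrt K.Cw) * s ^ (6 * K.θ) * (1 + Real.log (1 / s)) +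
          4 * (K.CB * K.Kl / K.cm * (2 * K.Cw)) * s ^ K.ε * (1 + Real.log (1 / s))) / 4 := by
      ring
    rw [e]
    linarith only [p14, p15]
  · rw [x3, x6]
    have e : K.CK * K.Kl * (1 + Real.log (1 / s)) * (Real.sqrt K.Cw * s ^ (6 * K.θ)) =
        K.cm / 8 * (8 / K.cm * (K.CK * K.Kl * Real.sqrt K.Cw) * s ^ (6 * K.θ) *
          (1 + Real.log (1 / s))) := by
      field_simp
    rw [e]
    calc K.cm / 8 * (8 / K.cm * (K.CK * K.Kl * Real.sqrt K.Cw) * s ^ (6 * K.θ) *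
          (1 + Real.log (1 / s))) ≤ K.cm / 8 * s ^ (3 * K.θ) := by gcongr
      _ = K.cm * (s ^ (3 * K.θ) / 8) := by ring
  · rw [x40]
    exact p19
  · rw [x20]
    exact p20
  · rw [x4]
    exact p21

/-- the constant -/
theorem Ok.exists_c (h : K.Ok) : ∃ c : ℝ, 0 < c ∧ c ≤ 1 / 4 ∧ ∀ s : ℝ, 0 < s → s ≤ c → K.Cnd s := by
  obtain ⟨u, hu, hu2⟩ := (mem_nhdsGT_iff_exists_Ioc_subset (a := (0 : ℝ))).1 h.ev
  have hu0 : (0 : ℝ) < u := hu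
  refine ⟨min u (1 / 4), by positivity, min_le_right _ _, fun s hs hs2 => ?_⟩
  exact hu2 ⟨hs, hs2.trans (min_le_left _ _)⟩

end Cst

end Pool.Agent.LE.QF.H68
end
end -- Pool.Agent.Helper68_LQF.INIb

section -- Pool.Agent.Helper68_LQX.INIa

/-!
# The parameters (stretched exponential version): numbers, the conditions on `s = |σ|`
-/

set_option autoImplicit false

open Filter

open scoped BigOperators Topology

noncomputable section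

namespace Pool.Agent.LE.QX.H68

open Pool.Agent.LE.QF.H68

/-- the errors -/
theorem aNx_bound {Nw pe x y j p h ch : ℝ} (hy : 0 < y) (hy1 : y ≤ 1) (hxy : x = y ^ 8)
    (hN : Nw ≤ x ^ 20) (hp : pe ≤ x ^ 20) (hj0 : 0 ≤ j) (hj : j ≤ 2 / x)
    (hpp0 : 0 ≤ p) (hpp : p ≤ 2 / x ^ 4) (hh0 : 0 ≤ h) (hh : h ≤ 5 / y ^ 2)
    (hch : ch = (x ^ 6)⁻¹ * (Nw + pe + (x ^ 5) ^ 4)) :
    j * (h ^ 2 * (x ^ 5 + Real.sqrt ch / x ^ 5) + x ^ 5 / x ^ 3) +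
      j ^ 2 * (h ^ 4 * (ch / (x ^ 5) ^ 2) + (Nw + (x ^ 5) ^ 2) / (x ^ 3) ^ 2 +
        1 / Real.sqrt ((x ^ 6)⁻¹) + x ^ 3 + (1 + x ^ 3 - 1)) +
      p * x ^ 5 + p ^ 2 * (Nw + (x ^ 5) ^ 2 + pe) ≤ 8000 * y ^ 4 := by
  have hx : 0 < x := by
    rw [hxy]
    positivity
  have hx1 : x ≤ 1 := by
    rw [hxy]
    exact pow_le_one₀ hy.le hy1
  have hpow : ∀ m n : ℕ, n ≤ m → x ^ m ≤ x ^ n := fun m n h =>
    pow_le_pow_of_le_one hx.le hx1 h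
  have hxy4 : x ≤ y ^ 4 := by
    rw [hxy]
    exact pow_le_pow_of_le_one hy.le hy1 (by norm_num)
  have hch1 : ch ≤ 3 * x ^ 14 := by
    rw [hch]
    calc (x ^ 6)⁻¹ * (Nw + pe + (x ^ 5) ^ 4) ≤ (x ^ 6)⁻¹ * (x ^ 20 + x ^ 20 + (x ^ 5) ^ 4) := by
          gcongr
      _ = 3 * x ^ 14 := by
          field_simp
          ring
  have hsq : Real.sqrt ch ≤ 2 * x ^ 7 := by
    apply Real.sqrt_le_iff.2
    refine ⟨by positivity, ?_⟩
    have : (2 * x ^ 7) ^ 2 = 4 * x ^ 14 := by ring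
    rw [this]
    have : 0 ≤ x ^ 14 := by positivity
    linarith only [hch1, this]
  have t1 : x ^ 5 + Real.sqrt ch / x ^ 5 ≤ 3 * x ^ 2 := by
    have a1 : x ^ 5 ≤ x ^ 2 := hpow _ _ (by norm_num)
    have a2 : Real.sqrt ch / x ^ 5 ≤ 2 * x ^ 2 := by
      rw [div_le_iff₀ (by positivity)]
      calc Real.sqrt ch ≤ 2 * x ^ 7 := hsq
        _ = 2 * x ^ 2 * x ^ 5 := by ring
    linarith only [a1, a2]
  have t1' : x ^ 5 / x ^ 3 = x ^ 2 := by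
    field_simp
  have t2 : ch / (x ^ 5) ^ 2 ≤ 3 * x ^ 4 := by
    rw [div_le_iff₀ (by positivity)]
    calc ch ≤ 3 * x ^ 14 := hch1
      _ = 3 * x ^ 4 * (x ^ 5) ^ 2 := by ring
  have t3 : (Nw + (x ^ 5) ^ 2) / (x ^ 3) ^ 2 + 1 / Real.sqrt ((x ^ 6)⁻¹) + x ^ 3 +
      (1 + x ^ 3 - 1) ≤ 5 * x ^ 3 := by
    have a2 : (Nw + (x ^ 5) ^ 2) / (x ^ 3) ^ 2 ≤ 2 * x ^ 4 := by
      rw [div_le_iff₀ (by positivity)]
      have : x ^ 20 ≤ x ^ 10 := hpow _ _ (by norm_num)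
      calc Nw + (x ^ 5) ^ 2 ≤ x ^ 10 + (x ^ 5) ^ 2 := by linarith only [hN, this]
        _ = 2 * x ^ 4 * (x ^ 3) ^ 2 := by ring
    have a3 : 1 / Real.sqrt ((x ^ 6)⁻¹) = x ^ 3 := by
      rw [Real.sqrt_inv, show x ^ 6 = (x ^ 3) ^ 2 by ring, Real.sqrt_sq (by positivity)]
      simp
    have a4 : x ^ 4 ≤ x ^ 3 := hpow _ _ (by norm_num)
    rw [a3]
    linarith only [a2, a4]
  have t4 : Nw + (x ^ 5) ^ 2 + pe ≤ 3 * x ^ 10 := by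
    have : x ^ 20 ≤ x ^ 10 := hpow _ _ (by norm_num)
    have e : (x ^ 5) ^ 2 = x ^ 10 := by ring
    rw [e]
    linarith only [hN, hp, this]
  have hh2 : h ^ 2 ≤ 25 / y ^ 4 := by
    calc h ^ 2 ≤ (5 / y ^ 2) ^ 2 := by gcongr
      _ = 25 / y ^ 4 := by
          field_simp
          norm_num
  have hh4 : h ^ 4 ≤ 625 / x := by
    calc h ^ 4 = (h ^ 2) ^ 2 := by ring
      _ ≤ (25 / y ^ 4) ^ 2 := by gcongr
      _ = 625 / x := by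
          rw [hxy]
          field_simp
          norm_num
  have u1 : j * (h ^ 2 * (x ^ 5 + Real.sqrt ch / x ^ 5) + x ^ 5 / x ^ 3) ≤ 152 * y ^ 4 := by
    have b1 : 0 ≤ x ^ 5 + Real.sqrt ch / x ^ 5 := by positivity
    rw [t1']
    calc j * (h ^ 2 * (x ^ 5 + Real.sqrt ch / x ^ 5) + x ^ 2)
        ≤ 2 / x * (25 / y ^ 4 * (3 * x ^ 2) + x ^ 2) := by gcongr
      _ = 150 * (x / y ^ 4) + 2 * x := by
          field_simp
          ring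
      _ = 150 * y ^ 4 + 2 * x := by
          have : x / y ^ 4 = y ^ 4 := by
            rw [hxy]
            field_simp
          rw [this]
      _ ≤ 152 * y ^ 4 := by linarith only [hxy4]
  have u2 : j ^ 2 * (h ^ 4 * (ch / (x ^ 5) ^ 2) + (Nw + (x ^ 5) ^ 2) / (x ^ 3) ^ 2 +
        1 / Real.sqrt ((x ^ 6)⁻¹) + x ^ 3 + (1 + x ^ 3 - 1)) ≤ 7520 * y ^ 4 := by
    have b1 : h ^ 4 * (ch / (x ^ 5) ^ 2) ≤ 1875 * x ^ 3 := by
      calc h ^ 4 * (ch / (x ^ 5) ^ 2) ≤ h ^ 4 * (3 * x ^ 4) := by gcongr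
        _ ≤ 625 / x * (3 * x ^ 4) := by gcongr
        _ = 1875 * x ^ 3 := by
            field_simp
            ring
    have b2 : h ^ 4 * (ch / (x ^ 5) ^ 2) + (Nw + (x ^ 5) ^ 2) / (x ^ 3) ^ 2 +
        1 / Real.sqrt ((x ^ 6)⁻¹) + x ^ 3 + (1 + x ^ 3 - 1) ≤ 1880 * x ^ 3 := by linarith only [t3, b1]
    calc j ^ 2 * (h ^ 4 * (ch / (x ^ 5) ^ 2) + (Nw + (x ^ 5) ^ 2) / (x ^ 3) ^ 2 +
        1 / Real.sqrt ((x ^ 6)⁻¹) + x ^ 3 + (1 + x ^ 3 - 1)) ≤ j ^ 2 * (1880 * x ^ 3) := by gcongr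
      _ ≤ (2 / x) ^ 2 * (1880 * x ^ 3) := by gcongr
      _ = 7520 * x := by
          field_simp
          ring
      _ ≤ 7520 * y ^ 4 := by linarith only [hxy4]
  have u3 : p * x ^ 5 ≤ 2 * y ^ 4 := by
    calc p * x ^ 5 ≤ 2 / x ^ 4 * x ^ 5 := by gcongr
      _ = 2 * x := by
          field_simp
      _ ≤ 2 * y ^ 4 := by linarith only [hxy4]
  have u4 : p ^ 2 * (Nw + (x ^ 5) ^ 2 + pe) ≤ 12 * y ^ 4 := by
    calc p ^ 2 * (Nw + (x ^ 5) ^ 2 + pe) ≤ p ^ 2 * (3 * x ^ 10) := by gcongr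
      _ ≤ (2 / x ^ 4) ^ 2 * (3 * x ^ 10) := by gcongr
      _ = 12 * x ^ 2 := by
          field_simp
          ring
      _ ≤ 12 * x := by nlinarith only [hx, hx1]
      _ ≤ 12 * y ^ 4 := by linarith only [hxy4]
  linarith only [pow_pos hy 4, hx, hxy4, u1, u2, u3, u4]

/-- the sums of `S`, numbers -/
theorem sSx_bound {s ε cm Cw η w CS cs K q N θ : ℝ} {d : ℕ} (hd : 3 ≤ d) (hs : 0 < s)
    (hs1 : s ≤ 1) (hε : 0 < ε) (hε1 : ε ≤ 1) (hcm : 0 < cm) (hCw : 0 < Cw) (hw1 : cm * s ^ 2 ≤ w)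
    (hw2 : w ≤ Cw * s ^ 2) (hη0 : 0 < η) (hη : η ≤ s ^ 3) (hCS : 0 ≤ CS) (hcs : 0 ≤ cs)
    (hq1 : s ^ (1 - ε / 4) * Real.sqrt η ≤ q) (hq2 : q ≤ 2 * (s ^ (1 - ε / 4) * Real.sqrt η))
    (hN0 : 0 ≤ N) (hN : N ≤ (s ^ (ε - 1) / Real.sqrt η) ^ d)
    (hK : K = CS * cs * ((1 / cm + Cw) * (1 + 2 ^ d)))
    (hθ : K * s ^ (ε / 2) ≤ s ^ θ) :
    CS * cs * ((1 / w + w / q ^ 2) * N + (q ^ d / w + w * q ^ (d - 2)) * N ^ 2) ≤
      s ^ θ * N / η := by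
  have hsη : 0 < Real.sqrt η := Real.sqrt_pos.2 hη0
  set ρ : ℝ := s ^ (1 - ε / 4) * Real.sqrt η with hρ
  have hρ0 : 0 < ρ := by positivity
  have hq0 : 0 < q := by linarith only [hq1, hρ0]
  have hcs2 : 0 < cm * s ^ 2 := by positivity
  have hw0 : 0 < w := by linarith only [hw1, hcs2]
  have hle : ∀ α β : ℝ, β ≤ α → s ^ α ≤ s ^ β := fun α β h =>
    Real.rpow_le_rpow_of_exponent_ge hs hs1 h
  have hs2 : s ^ 2 = s ^ (2 : ℝ) := by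
    rw [← Real.rpow_natCast]
    norm_num
  have hse : s ≤ s ^ (ε / 2) := by
    calc s = s ^ (1 : ℝ) := (Real.rpow_one s).symm
      _ ≤ s ^ (ε / 2) := hle _ _ (by linarith only [hε1])
  -- `η / w`
  have a1 : η / w ≤ 1 / cm * s ^ (ε / 2) := by
    rw [div_le_iff₀ hw0]
    calc η ≤ s ^ 3 := hη
      _ = 1 / cm * s * (cm * s ^ 2) := by field_simp
      _ ≤ 1 / cm * s ^ (ε / 2) * w := by gcongr
  -- `η w / ρ²`
  have a2 : η * w / ρ ^ 2 ≤ Cw * s ^ (ε / 2) := by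
    rw [div_le_iff₀ (by positivity)]
    have b1 : s ^ (ε / 2) * ρ ^ 2 = η * s ^ 2 := by
      have c1 : Real.sqrt η ^ 2 = η := Real.sq_sqrt hη0.le
      rw [hρ, mul_pow, c1, xpow hs, ← mul_assoc, ← Real.rpow_add hs, hs2, mul_comm]
      congr 2
      push_cast
      ring
    calc η * w ≤ η * (Cw * s ^ 2) := by gcongr
      _ = Cw * (η * s ^ 2) := by ring
      _ = Cw * s ^ (ε / 2) * ρ ^ 2 := by
          rw [← b1]
          ring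
  -- `ρ^d N`
  have a3 : ρ ^ d * N ≤ 1 := by
    calc ρ ^ d * N ≤ ρ ^ d * (s ^ (ε - 1) / Real.sqrt η) ^ d := by gcongr
      _ = (s ^ (1 - ε / 4) * s ^ (ε - 1)) ^ d := by
          rw [← mul_pow]
          congr 1
          rw [hρ]
          field_simp
      _ ≤ 1 := by
          apply pow_le_one₀ (by positivity)
          rw [← Real.rpow_add hs]
          apply Real.rpow_le_one hs.le hs1
          linarith only [hε]
  have hqd : q ^ d ≤ 2 ^ d * ρ ^ d := by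
    rw [← mul_pow]
    gcongr
  have hqd2 : q ^ (d - 2) ≤ 2 ^ d * ρ ^ d / ρ ^ 2 := by
    rw [le_div_iff₀ (by positivity)]
    calc q ^ (d - 2) * ρ ^ 2 ≤ q ^ (d - 2) * q ^ 2 := by gcongr
      _ = q ^ d := by
          rw [← pow_add]
          congr 1
          omega
      _ ≤ 2 ^ d * ρ ^ d := hqd
  have hsε : 0 < s ^ (ε / 2) := by positivity
  have b1 : η * (1 / w + w / q ^ 2) ≤ (1 / cm + Cw) * s ^ (ε / 2) := by
    have c1 : w / q ^ 2 ≤ w / ρ ^ 2 := by gcongr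
    calc η * (1 / w + w / q ^ 2) ≤ η * (1 / w + w / ρ ^ 2) := by gcongr
      _ = η / w + η * w / ρ ^ 2 := by ring
      _ ≤ 1 / cm * s ^ (ε / 2) + Cw * s ^ (ε / 2) := add_le_add a1 a2
      _ = _ := by ring
  have b2 : η * ((q ^ d / w + w * q ^ (d - 2)) * N) ≤ (1 / cm + Cw) * 2 ^ d * s ^ (ε / 2) := by
    calc η * ((q ^ d / w + w * q ^ (d - 2)) * N)
        ≤ η * ((2 ^ d * ρ ^ d / w + w * (2 ^ d * ρ ^ d / ρ ^ 2)) * N) := by gcongr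
      _ = (η / w + η * w / ρ ^ 2) * 2 ^ d * (ρ ^ d * N) := by
          field_simp
      _ ≤ (1 / cm * s ^ (ε / 2) + Cw * s ^ (ε / 2)) * 2 ^ d * 1 := by gcongr
      _ = _ := by ring
  rw [le_div_iff₀ hη0]
  calc CS * cs * ((1 / w + w / q ^ 2) * N + (q ^ d / w + w * q ^ (d - 2)) * N ^ 2) * η
      = CS * cs * (η * (1 / w + w / q ^ 2) +
          η * ((q ^ d / w + w * q ^ (d - 2)) * N)) * N := by ring
    _ ≤ CS * cs * ((1 / cm + Cw) * s ^ (ε / 2) + (1 / cm + Cw) * 2 ^ d * s ^ (ε / 2)) * N := by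
        gcongr
    _ = K * s ^ (ε / 2) * N := by
        rw [hK]
        ring
    _ ≤ s ^ θ * N := by gcongr

/-- the conditions on `s` -/
structure CndX (K : Cst) (s : ℝ) : Prop extends K.Cnd s where
  z1 : 6 * (1 + Real.log (1 / s)) ≤ s ^ (-(K.θ / 8))
  z2 : 2 * (s ^ (K.θ / 8)) ^ 38 ≤ K.c₀
  z3 : (3 * K.d + 2) * s ^ (K.θ / 8) ≤ 6 * K.θ
  z4 : 8 * (6 * K.d + 2) * s ^ (K.θ / 8) ≤ 1
  z5 : K.CI * K.cs * 2 ^ K.d * (4 + K.Cw ^ 2) / K.cm * s ^ (1 / 2 : ℝ) + s ≤ 1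
  z6 : K.CF * K.Cw * 4 ^ 6 * s ^ (2 / 3 : ℝ) * (s ^ (-(K.θ / 8))) ^ 6 ≤ (s ^ K.θ) ^ 40
  z7 : s ^ 3 ≤ (s ^ K.θ) ^ 20
  z8 : K.CS * K.cs * ((1 / K.cm + K.Cw) * (1 + 2 ^ K.d)) * s ^ (K.ε / 2) ≤ s ^ (4 * (K.θ / 8))

theorem evX {K : Cst} (h : K.Ok) : ∀ᶠ s in 𝓝[>] (0 : ℝ), CndX K s := by
  have hd := h.dpos
  have hθ := h.θpos
  have hθ72 := h.θ72
  have hε := h.hε.1
  have hε1 := h.hε.2
  have hcm := h.hcm.1
  have e0 : ∀ᶠ s in 𝓝[>] (0 : ℝ), 0 < s := self_mem_nhdsWithin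
  have p1 := evt 6 0 (-(K.θ / 8)) 1 (by linarith only [hθ])
  have p2 := evc0 2 (38 * (K.θ / 8)) K.c₀ (by positivity) h.hc₀
  have p3 := evc0 (3 * K.d + 2) (K.θ / 8) (6 * K.θ) (by positivity) (by positivity)
  have p4 := evc0 (8 * (6 * K.d + 2)) (K.θ / 8) 1 (by positivity) one_pos
  have p5 := evc0 (K.CI * K.cs * 2 ^ K.d * (4 + K.Cw ^ 2) / K.cm) (1 / 2) (1 / 2) (by norm_num)
    (by norm_num)
  have p6 := evt0 (K.CF * K.Cw * 4 ^ 6) (2 / 3 - 6 * (K.θ / 8)) (40 * K.θ) (by linarith)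
  have p7 := evt0 1 3 (20 * K.θ) (by linarith)
  have p8 := evt0 (K.CS * K.cs * ((1 / K.cm + K.Cw) * (1 + 2 ^ K.d))) (K.ε / 2)
    (4 * (K.θ / 8)) (by linarith)
  filter_upwards [h.ev, e0, p1, p2, p3, p4, p5, p6, p7, p8] with s he e0 p1 p2 p3 p4 p5 p6 p7 p8
  have hs4 := he.q0.2
  refine { toCnd := he, z1 := ?_, z2 := ?_, z3 := p3, z4 := p4, z5 := by linarith only [hθ, hθ72, hε1, p5, hs4], z6 := ?_,
           z7 := ?_, z8 := p8 }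
  · simpa using p1
  · rw [xpow e0]
    push_cast
    exact p2
  · rw [xpow e0, xpow e0]
    have e1 : s ^ (2 / 3 - 6 * (K.θ / 8)) = s ^ (2 / 3 : ℝ) * s ^ (((6 : ℕ) : ℝ) * -(K.θ / 8)) := by
      rw [← Real.rpow_add e0]
      congr 1
      push_cast
      ring
    rw [e1] at p6
    push_cast at p6 ⊢
    linarith only [p6]
  · rw [xpow e0]
    have e1 : s ^ (3 : ℝ) = s ^ 3 := by
      rw [← Real.rpow_natCast]
      norm_num
    rw [e1] at p7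
    push_cast
    linarith only [p7]

/-- the constant -/
theorem exists_cX {K : Cst} (h : K.Ok) :
    ∃ c : ℝ, 0 < c ∧ c ≤ 1 / 4 ∧ ∀ s : ℝ, 0 < s → s ≤ c → CndX K s := by
  obtain ⟨u, hu, hu2⟩ := (mem_nhdsGT_iff_exists_Ioc_subset (a := (0 : ℝ))).1 (evX h)
  have hu0 : (0 : ℝ) < u := hu
  refine ⟨min u (1 / 4), by positivity, min_le_right _ _, fun s hs hs2 => ?_⟩
  exact hu2 ⟨hs, hs2.trans (min_le_left _ _)⟩

end Pool.Agent.LE.QX.H68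
end
end -- Pool.Agent.Helper68_LQX.INIa

section -- Pool.Agent.Helper84_LQZ.INIa

/-!
# The parameters (all energies of the bulk): numbers, the conditions on `s = |σ|`
-/

set_option autoImplicit false

open Filter

open scoped BigOperators Topology

noncomputable section

namespace Pool.Agent.LE.QZ.H84

open Pool.Agent.LE.QF.H68

/-- the errors -/
theorem aNz_bound {Nw pe x y j p h ch : ℝ} (hy : 0 < y) (hy1 : y ≤ 1) (hxy : x = y ^ 8)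
    (hN : Nw ≤ x ^ 20) (hp : pe ≤ x ^ 20) (hj0 : 0 ≤ j) (hj : j ≤ 2 / x)
    (hpp0 : 0 ≤ p) (hpp : p ≤ 2 / x ^ 4) (hh0 : 0 ≤ h) (hh : h ≤ 5 / y ^ 2)
    (hch : ch = (x ^ 6)⁻¹ * (Nw + pe + (x ^ 5) ^ 4)) :
    j * (h ^ 2 * (x ^ 5 + Real.sqrt ch / x ^ 5)) +
      j ^ 2 * (h ^ 4 * (ch / (x ^ 5) ^ 2) + Nw + x ^ 5 +
        1 / Real.sqrt ((x ^ 6)⁻¹) + (1 + x ^ 3 - 1)) +
      p * x ^ 5 + p ^ 2 * (Nw + (x ^ 5) ^ 2 + pe) ≤ 8000 * y ^ 4 := by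
  have hx : 0 < x := by
    rw [hxy]
    positivity
  have hx1 : x ≤ 1 := by
    rw [hxy]
    exact pow_le_one₀ hy.le hy1
  have hpow : ∀ m n : ℕ, n ≤ m → x ^ m ≤ x ^ n := fun m n h =>
    pow_le_pow_of_le_one hx.le hx1 h
  have hxy4 : x ≤ y ^ 4 := by
    rw [hxy]
    exact pow_le_pow_of_le_one hy.le hy1 (by norm_num)
  have hch1 : ch ≤ 3 * x ^ 14 := by
    rw [hch]
    calc (x ^ 6)⁻¹ * (Nw + pe + (x ^ 5) ^ 4) ≤ (x ^ 6)⁻¹ * (x ^ 20 + x ^ 20 + (x ^ 5) ^ 4) := by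
          gcongr
      _ = 3 * x ^ 14 := by
          field_simp
          ring
  have hsq : Real.sqrt ch ≤ 2 * x ^ 7 := by
    apply Real.sqrt_le_iff.2
    refine ⟨by positivity, ?_⟩
    have : (2 * x ^ 7) ^ 2 = 4 * x ^ 14 := by ring
    rw [this]
    have : 0 ≤ x ^ 14 := by positivity
    linarith only [hch1, this]
  have t1 : x ^ 5 + Real.sqrt ch / x ^ 5 ≤ 3 * x ^ 2 := by
    have a1 : x ^ 5 ≤ x ^ 2 := hpow _ _ (by norm_num)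
    have a2 : Real.sqrt ch / x ^ 5 ≤ 2 * x ^ 2 := by
      rw [div_le_iff₀ (by positivity)]
      calc Real.sqrt ch ≤ 2 * x ^ 7 := hsq
        _ = 2 * x ^ 2 * x ^ 5 := by ring
    linarith only [a1, a2]
  have t2 : ch / (x ^ 5) ^ 2 ≤ 3 * x ^ 4 := by
    rw [div_le_iff₀ (by positivity)]
    calc ch ≤ 3 * x ^ 14 := hch1
      _ = 3 * x ^ 4 * (x ^ 5) ^ 2 := by ring
  have t3 : Nw + x ^ 5 + 1 / Real.sqrt ((x ^ 6)⁻¹) + (1 + x ^ 3 - 1) ≤ 4 * x ^ 3 := by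
    have a2 : Nw ≤ x ^ 3 := hN.trans (hpow _ _ (by norm_num))
    have a3 : 1 / Real.sqrt ((x ^ 6)⁻¹) = x ^ 3 := by
      rw [Real.sqrt_inv, show x ^ 6 = (x ^ 3) ^ 2 by ring, Real.sqrt_sq (by positivity)]
      simp
    have a4 : x ^ 5 ≤ x ^ 3 := hpow _ _ (by norm_num)
    rw [a3]
    linarith only [a2, a4]
  have t4 : Nw + (x ^ 5) ^ 2 + pe ≤ 3 * x ^ 10 := by
    have : x ^ 20 ≤ x ^ 10 := hpow _ _ (by norm_num)
    have e : (x ^ 5) ^ 2 = x ^ 10 := by ring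
    rw [e]
    linarith only [hN, hp, this]
  have hh2 : h ^ 2 ≤ 25 / y ^ 4 := by
    calc h ^ 2 ≤ (5 / y ^ 2) ^ 2 := by gcongr
      _ = 25 / y ^ 4 := by
          field_simp
          norm_num
  have hh4 : h ^ 4 ≤ 625 / x := by
    calc h ^ 4 = (h ^ 2) ^ 2 := by ring
      _ ≤ (25 / y ^ 4) ^ 2 := by gcongr
      _ = 625 / x := by
          rw [hxy]
          field_simp
          norm_num
  have u1 : j * (h ^ 2 * (x ^ 5 + Real.sqrt ch / x ^ 5)) ≤ 150 * y ^ 4 := by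
    have b1 : 0 ≤ x ^ 5 + Real.sqrt ch / x ^ 5 := by positivity
    calc j * (h ^ 2 * (x ^ 5 + Real.sqrt ch / x ^ 5))
        ≤ 2 / x * (25 / y ^ 4 * (3 * x ^ 2)) := by gcongr
      _ = 150 * (x / y ^ 4) := by
          field_simp
          ring
      _ = 150 * y ^ 4 := by
          have : x / y ^ 4 = y ^ 4 := by
            rw [hxy]
            field_simp
          rw [this]
  have u2 : j ^ 2 * (h ^ 4 * (ch / (x ^ 5) ^ 2) + Nw + x ^ 5 +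
        1 / Real.sqrt ((x ^ 6)⁻¹) + (1 + x ^ 3 - 1)) ≤ 7520 * y ^ 4 := by
    have b1 : h ^ 4 * (ch / (x ^ 5) ^ 2) ≤ 1875 * x ^ 3 := by
      calc h ^ 4 * (ch / (x ^ 5) ^ 2) ≤ h ^ 4 * (3 * x ^ 4) := by gcongr
        _ ≤ 625 / x * (3 * x ^ 4) := by gcongr
        _ = 1875 * x ^ 3 := by
            field_simp
            ring
    have b2 : h ^ 4 * (ch / (x ^ 5) ^ 2) + Nw + x ^ 5 +
        1 / Real.sqrt ((x ^ 6)⁻¹) + (1 + x ^ 3 - 1) ≤ 1880 * x ^ 3 := by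
      have : 0 < x ^ 3 := by positivity
      linarith only [t3, b1, this]
    calc j ^ 2 * (h ^ 4 * (ch / (x ^ 5) ^ 2) + Nw + x ^ 5 +
        1 / Real.sqrt ((x ^ 6)⁻¹) + (1 + x ^ 3 - 1)) ≤ j ^ 2 * (1880 * x ^ 3) := by gcongr
      _ ≤ (2 / x) ^ 2 * (1880 * x ^ 3) := by gcongr
      _ = 7520 * x := by
          field_simp
          ring
      _ ≤ 7520 * y ^ 4 := by linarith only [hxy4]
  have u3 : p * x ^ 5 ≤ 2 * y ^ 4 := by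
    calc p * x ^ 5 ≤ 2 / x ^ 4 * x ^ 5 := by gcongr
      _ = 2 * x := by
          field_simp
      _ ≤ 2 * y ^ 4 := by linarith only [hxy4]
  have u4 : p ^ 2 * (Nw + (x ^ 5) ^ 2 + pe) ≤ 12 * y ^ 4 := by
    calc p ^ 2 * (Nw + (x ^ 5) ^ 2 + pe) ≤ p ^ 2 * (3 * x ^ 10) := by gcongr
      _ ≤ (2 / x ^ 4) ^ 2 * (3 * x ^ 10) := by gcongr
      _ = 12 * x ^ 2 := by
          field_simp
          ring
      _ ≤ 12 * x := by nlinarith only [hx, hx1]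
      _ ≤ 12 * y ^ 4 := by linarith only [hxy4]
  linarith only [pow_pos hy 4, hx, hxy4, u1, u2, u3, u4]

/-- the additive errors -/
theorem bNz_bound {x : ℝ} {j p : ℕ} (hx : 0 < x) (hx1 : x ≤ 1) (hj : x⁻¹ ≤ j)
    (hp : (x ^ 4)⁻¹ ≤ p) :
    (97 / 100 : ℝ) ^ j + (1 / (1 + x ^ 3 / 2)) ^ p ≤ 2 * Real.exp (-(x⁻¹ / 40)) := by
  have hxi : 0 < x⁻¹ := by positivity
  have a1 : (97 / 100 : ℝ) ^ j ≤ Real.exp (-(x⁻¹ / 40)) := by
    have b1 : (97 / 100 : ℝ) ≤ Real.exp (-(1 / 40)) := by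
      have := Real.add_one_le_exp (-(1 / 40) : ℝ)
      linarith only [this]
    calc (97 / 100 : ℝ) ^ j ≤ (Real.exp (-(1 / 40))) ^ j := by gcongr
      _ = Real.exp (-((j : ℝ) / 40)) := by
          rw [← Real.exp_nat_mul]
          congr 1
          ring
      _ ≤ Real.exp (-(x⁻¹ / 40)) := by
          apply Real.exp_le_exp.2
          linarith only [hj]
  have a2 : (1 / (1 + x ^ 3 / 2)) ^ p ≤ Real.exp (-(x⁻¹ / 40)) := by
    have hx3 : 0 < x ^ 3 := by positivity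
    have hx3' : x ^ 3 ≤ 1 := pow_le_one₀ hx.le hx1
    have b1 : 1 / (1 + x ^ 3 / 2) ≤ Real.exp (-(x ^ 3 / 4)) := by
      have b2 : 1 / (1 + x ^ 3 / 2) ≤ 1 - x ^ 3 / 4 := by
        rw [div_le_iff₀ (by positivity)]
        nlinarith only [hx3, hx3']
      have b3 := Real.add_one_le_exp (-(x ^ 3 / 4))
      linarith only [b2, b3]
    calc (1 / (1 + x ^ 3 / 2)) ^ p ≤ (Real.exp (-(x ^ 3 / 4))) ^ p := by gcongr
      _ = Real.exp ((p : ℝ) * -(x ^ 3 / 4)) := by rw [← Real.exp_nat_mul]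
      _ ≤ Real.exp (-(x⁻¹ / 40)) := by
          apply Real.exp_le_exp.2
          have b4 : (x ^ 4)⁻¹ * (x ^ 3 / 4) ≤ p * (x ^ 3 / 4) := by gcongr
          have b5 : (x ^ 4)⁻¹ * (x ^ 3 / 4) = x⁻¹ / 4 := by
            field_simp
          rw [b5] at b4
          linarith only [hxi, b4]
  linarith only [a1, a2]

/-- the sums of `S`, numbers -/
theorem sSz_bound {s ε cm Cw η w CS cs K q N θ : ℝ} {d : ℕ} (hd : 3 ≤ d) (hs : 0 < s)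
    (hs1 : s ≤ 1) (hε : 0 < ε) (hε1 : ε ≤ 1) (hcm : 0 < cm) (hCw : 0 < Cw) (hw1 : cm * s ^ 2 ≤ w)
    (hw2 : w ≤ Cw * s ^ 2) (hη0 : 0 < η) (hη : η ≤ s ^ 3) (hCS : 0 ≤ CS) (hcs : 0 ≤ cs)
    (hq1 : s ^ (1 - ε / 4) * Real.sqrt η ≤ q)
    (hN0 : 0 ≤ N) (hqN : q ^ d * N ≤ 2 ^ d)
    (hK : K = CS * cs * ((1 / cm + Cw) * (1 + 2 ^ d)))
    (hθ : K * s ^ (ε / 2) ≤ s ^ θ) :
    CS * cs * ((1 / w + w / q ^ 2) * N + (q ^ d / w + w * q ^ (d - 2)) * N ^ 2) ≤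
      s ^ θ * N / η := by
  have hsη : 0 < Real.sqrt η := Real.sqrt_pos.2 hη0
  set ρ : ℝ := s ^ (1 - ε / 4) * Real.sqrt η with hρ
  have hρ0 : 0 < ρ := by positivity
  have hq0 : 0 < q := by linarith only [hq1, hρ0]
  have hcs2 : 0 < cm * s ^ 2 := by positivity
  have hw0 : 0 < w := by linarith only [hw1, hcs2]
  have hle : ∀ α β : ℝ, β ≤ α → s ^ α ≤ s ^ β := fun α β h =>
    Real.rpow_le_rpow_of_exponent_ge hs hs1 h
  have hs2 : s ^ 2 = s ^ (2 : ℝ) := by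
    rw [← Real.rpow_natCast]
    norm_num
  have hse : s ≤ s ^ (ε / 2) := by
    calc s = s ^ (1 : ℝ) := (Real.rpow_one s).symm
      _ ≤ s ^ (ε / 2) := hle _ _ (by linarith only [hε1])
  -- `η / w`
  have a1 : η / w ≤ 1 / cm * s ^ (ε / 2) := by
    rw [div_le_iff₀ hw0]
    calc η ≤ s ^ 3 := hη
      _ = 1 / cm * s * (cm * s ^ 2) := by field_simp
      _ ≤ 1 / cm * s ^ (ε / 2) * w := by gcongr
  -- `η w / ρ²`
  have a2 : η * w / ρ ^ 2 ≤ Cw * s ^ (ε / 2) := by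
    rw [div_le_iff₀ (by positivity)]
    have b1 : s ^ (ε / 2) * ρ ^ 2 = η * s ^ 2 := by
      have c1 : Real.sqrt η ^ 2 = η := Real.sq_sqrt hη0.le
      rw [hρ, mul_pow, c1, xpow hs, ← mul_assoc, ← Real.rpow_add hs, hs2, mul_comm]
      congr 2
      push_cast
      ring
    calc η * w ≤ η * (Cw * s ^ 2) := by gcongr
      _ = Cw * (η * s ^ 2) := by ring
      _ = Cw * s ^ (ε / 2) * ρ ^ 2 := by
          rw [← b1]
          ring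
  have hsε : 0 < s ^ (ε / 2) := by positivity
  have c1 : η * w / q ^ 2 ≤ Cw * s ^ (ε / 2) := by
    refine le_trans ?_ a2
    gcongr
  have b1 : η * (1 / w + w / q ^ 2) ≤ (1 / cm + Cw) * s ^ (ε / 2) := by
    calc η * (1 / w + w / q ^ 2) = η / w + η * w / q ^ 2 := by ring
      _ ≤ 1 / cm * s ^ (ε / 2) + Cw * s ^ (ε / 2) := add_le_add a1 c1
      _ = _ := by ring
  have hqd2 : q ^ (d - 2) = q ^ d / q ^ 2 := by
    rw [eq_div_iff (by positivity), ← pow_add]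
    congr 1
    omega
  have b2 : η * ((q ^ d / w + w * q ^ (d - 2)) * N) ≤ (1 / cm + Cw) * 2 ^ d * s ^ (ε / 2) := by
    have hqN0 : 0 ≤ q ^ d * N := by positivity
    have d1 : 0 ≤ η / w + η * w / q ^ 2 := by positivity
    calc η * ((q ^ d / w + w * q ^ (d - 2)) * N)
        = (η / w + η * w / q ^ 2) * (q ^ d * N) := by
          rw [hqd2]
          field_simp
      _ ≤ (1 / cm * s ^ (ε / 2) + Cw * s ^ (ε / 2)) * 2 ^ d := by gcongr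
      _ = _ := by ring
  rw [le_div_iff₀ hη0]
  calc CS * cs * ((1 / w + w / q ^ 2) * N + (q ^ d / w + w * q ^ (d - 2)) * N ^ 2) * η
      = CS * cs * (η * (1 / w + w / q ^ 2) +
          η * ((q ^ d / w + w * q ^ (d - 2)) * N)) * N := by ring
    _ ≤ CS * cs * ((1 / cm + Cw) * s ^ (ε / 2) + (1 / cm + Cw) * 2 ^ d * s ^ (ε / 2)) * N := by
        gcongr
    _ = K * s ^ (ε / 2) * N := by
        rw [hK]
        ring
    _ ≤ s ^ θ * N := by gcongr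

/-- the conditions on `s` -/
structure CndZ (K : Cst) (s : ℝ) : Prop extends K.Cnd s where
  z2 : 2 * (s ^ (K.θ / 8)) ^ 38 ≤ K.c₀
  z3 : 5 * (K.d + 2) * s ^ (K.θ / 8) ≤ 1
  z4 : 40 * (2 * K.d + 3) * s ^ (K.θ / 8) ≤ 1
  z5 : K.CI * K.cs * 2 ^ K.d * (4 + K.Cw ^ 2) / K.cm * s ^ (1 / 2 : ℝ) + s ≤ 1
  z6 : K.CF * K.Cw * 4 ^ 6 * s ^ (2 / 3 : ℝ) * (s ^ (-(K.θ / 8))) ^ 6 ≤ (s ^ K.θ) ^ 40
  z7 : s ^ 3 + s ^ K.ε ≤ (s ^ K.θ) ^ 20
  z8 : K.CS * K.cs * ((1 / K.cm + K.Cw) * (1 + 2 ^ K.d)) * s ^ (K.ε / 2) ≤ s ^ (4 * (K.θ / 8))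
  z9 : K.CB * K.Kl * Real.sqrt K.Cw * s * (1 + Real.log (1 / s)) ≤ K.cm / 100
  z10 : K.Cw * s ^ 2 ≤ 1 / 4

theorem evZ {K : Cst} (h : K.Ok) : ∀ᶠ s in 𝓝[>] (0 : ℝ), CndZ K s := by
  have hd := h.dpos
  have hθ := h.θpos
  have hθ72 := h.θ72
  have hε := h.hε.1
  have hε1 := h.hε.2
  have hcm := h.hcm.1
  have e0 : ∀ᶠ s in 𝓝[>] (0 : ℝ), 0 < s := self_mem_nhdsWithin
  have p2 := evc0 2 (38 * (K.θ / 8)) K.c₀ (by positivity) h.hc₀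
  have p3 := evc0 (5 * (K.d + 2)) (K.θ / 8) 1 (by positivity) one_pos
  have p4 := evc0 (40 * (2 * K.d + 3)) (K.θ / 8) 1 (by positivity) one_pos
  have p5 := evc0 (K.CI * K.cs * 2 ^ K.d * (4 + K.Cw ^ 2) / K.cm) (1 / 2) (1 / 2) (by norm_num)
    (by norm_num)
  have p6 := evt0 (K.CF * K.Cw * 4 ^ 6) (2 / 3 - 6 * (K.θ / 8)) (40 * K.θ) (by linarith only [hθ, hθ72, hε1])
  have p7 := evt0 2 3 (20 * K.θ) (by linarith)
  have p7' := evt0 2 K.ε (20 * K.θ) (by linarith)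
  have p8 := evt0 (K.CS * K.cs * ((1 / K.cm + K.Cw) * (1 + 2 ^ K.d))) (K.ε / 2)
    (4 * (K.θ / 8)) (by linarith)
  have p9 := evc (K.CB * K.Kl * Real.sqrt K.Cw) 1 (K.cm / 100) 1 one_pos (by positivity)
  have p10 := evc0 K.Cw 2 (1 / 4) (by norm_num) (by norm_num)
  filter_upwards [h.ev, e0, p2, p3, p4, p5, p6, p7, p7', p8, p9, p10] with s he e0 p2 p3 p4 p5 p6
    p7 p7' p8 p9 p10
  have hs4 := he.q0.2
  refine { toCnd := he, z2 := ?_, z3 := p3, z4 := p4, z5 := by linarith only [hθ, hθ72, hε1, p5, hs4], z6 := ?_,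
           z7 := ?_, z8 := p8, z9 := ?_, z10 := ?_ }
  · rw [xpow e0]
    push_cast
    exact p2
  · rw [xpow e0, xpow e0]
    have e1 : s ^ (2 / 3 - 6 * (K.θ / 8)) = s ^ (2 / 3 : ℝ) * s ^ (((6 : ℕ) : ℝ) * -(K.θ / 8)) := by
      rw [← Real.rpow_add e0]
      congr 1
      push_cast
      ring
    rw [e1] at p6
    push_cast at p6 ⊢
    linarith only [p6]
  · rw [xpow e0]
    have e1 : s ^ (3 : ℝ) = s ^ 3 := by
      rw [← Real.rpow_natCast]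
      norm_num
    rw [e1] at p7
    push_cast
    linarith only [p7, p7']
  · rw [Real.rpow_one, pow_one] at p9
    exact p9
  · have e1 : s ^ (2 : ℝ) = s ^ 2 := by
      rw [← Real.rpow_natCast]
      norm_num
    rw [e1] at p10
    exact p10

/-- the constant -/
theorem exists_cZ {K : Cst} (h : K.Ok) :
    ∃ c : ℝ, 0 < c ∧ c ≤ 1 / 4 ∧ ∀ s : ℝ, 0 < s → s ≤ c → CndZ K s := by
  obtain ⟨u, hu, hu2⟩ := (mem_nhdsGT_iff_exists_Ioc_subset (a := (0 : ℝ))).1 (evZ h)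
  have hu0 : (0 : ℝ) < u := hu
  refine ⟨min u (1 / 4), by positivity, min_le_right _ _, fun s hs hs2 => ?_⟩
  exact hu2 ⟨hs, hs2.trans (min_le_left _ _)⟩

end Pool.Agent.LE.QZ.H84
end
end -- Pool.Agent.Helper84_LQZ.INIa
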