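import Mathlib

/-!
# Merged copies (generated) of the modules

* `Pool.Agent.Helper54_Ballistic.Res`
* `Pool.Agent.Helper54_Ballistic.Int`
* `Pool.Agent.Helper54_Ballistic.Planch`
-/

set_option autoImplicit false

section -- Pool.Agent.Helper54_Ballistic.Res

/-!
# Abstract resolvent families on a complex Hilbert space

`IsRes D`: `D z` (`z` non-real) is a family of bounded injective operators with the resolvent
identity and `(D z)* = D (conj z)`. Perturbation by a bounded symmetric operator.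
-/

set_option autoImplicit false
set_option linter.unusedSectionVars false

open scoped InnerProductSpace ComplexConjugate Topology

noncomputable section

namespace Pool.Agent.Helper54.Bal

variable {X : Type*} [NormedAddCommGroup X] [InnerProductSpace ℂ X] [CompleteSpace X]

/-- an abstract resolvent family -/
structure IsRes (D : ℂ → X →L[ℂ] X) : Prop where
  ident : ∀ z w : ℂ, z.im ≠ 0 → w.im ≠ 0 → D z - D w = (z - w) • (D z * D w)
  adj : ∀ z : ℂ, z.im ≠ 0 → ∀ f g : X, ⟪D z f, g⟫_ℂ = ⟪f, D (conj z) g⟫_ℂ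
  inj : ∀ z : ℂ, z.im ≠ 0 → ∀ f : X, D z f = 0 → f = 0

theorem conj_im_ne {z : ℂ} (hz : z.im ≠ 0) : (conj z).im ≠ 0 := by
  simpa using hz

namespace IsRes

variable {D : ℂ → X →L[ℂ] X} (hD : IsRes D)

include hD

theorem ident_apply {z w : ℂ} (hz : z.im ≠ 0) (hw : w.im ≠ 0) (f : X) :
    D z f - D w f = (z - w) • D z (D w f) := by
  have := congrArg (fun T : X →L[ℂ] X => T f) (hD.ident z w hz hw)
  simpa using this

theorem comm {z w : ℂ} (hz : z.im ≠ 0) (hw : w.im ≠ 0) : D z * D w = D w * D z := by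
  by_cases h : z = w
  · rw [h]
  · have h1 := hD.ident z w hz hw
    have h2 := hD.ident w z hw hz
    have h3 : (z - w) • (D z * D w - D w * D z) = 0 := by
      rw [smul_sub, ← h1]
      have : (z - w) • (D w * D z) = -((w - z) • (D w * D z)) := by
        rw [← neg_smul, neg_sub]
      rw [this, ← h2]
      abel
    rcases smul_eq_zero.1 h3 with h4 | h4
    · exact absurd (sub_eq_zero.1 h4) h
    · exact sub_eq_zero.1 h4

theorem comm_apply {z w : ℂ} (hz : z.im ≠ 0) (hw : w.im ≠ 0) (f : X) :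
    D z (D w f) = D w (D z f) := by
  have := congrArg (fun T : X →L[ℂ] X => T f) (hD.comm hz hw)
  simpa using this

theorem im_inner {z : ℂ} (hz : z.im ≠ 0) (f : X) :
    (⟪f, D z f⟫_ℂ).im = z.im * ‖D z f‖ ^ 2 := by
  have hz' := conj_im_ne hz
  have h1 : ⟪D z f, D z f⟫_ℂ = ⟪f, D (conj z) (D z f)⟫_ℂ := hD.adj z hz _ _
  have h2 : D (conj z) f - D z f = (conj z - z) • D (conj z) (D z f) :=
    hD.ident_apply hz' hz f
  have h3 : ⟪f, D (conj z) f⟫_ℂ - ⟪f, D z f⟫_ℂ = (conj z - z) * ⟪D z f, D z f⟫_ℂ := by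
    rw [← inner_sub_right, h2, inner_smul_right, h1]
  have h4 : ⟪f, D (conj z) f⟫_ℂ = conj ⟪f, D z f⟫_ℂ := by
    rw [← hD.adj z hz, inner_conj_symm]
  rw [h4, inner_self_eq_norm_sq_to_K] at h3
  have h5 := congrArg Complex.im h3
  simp only [Complex.sub_im, Complex.conj_im, Complex.mul_im, Complex.sub_re, Complex.conj_re,
    sub_self, zero_mul, zero_add] at h5
  have h6 : (((‖D z f‖ : ℝ) : ℂ) ^ 2).re = ‖D z f‖ ^ 2 := by
    rw [← Complex.ofReal_pow, Complex.ofReal_re]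
  have h7 : ((‖D z f‖ : ℂ) ^ 2).re = ‖D z f‖ ^ 2 := h6
  simp only [Complex.coe_algebraMap] at h5
  rw [h7] at h5
  linarith only [h5]

theorem norm_le {z : ℂ} (hz : z.im ≠ 0) (f : X) : |z.im| * ‖D z f‖ ≤ ‖f‖ := by
  have h1 := hD.im_inner hz f
  have h2 : |(⟪f, D z f⟫_ℂ).im| ≤ ‖f‖ * ‖D z f‖ :=
    (Complex.abs_im_le_norm _).trans (norm_inner_le_norm _ _)
  rw [h1, abs_mul, abs_of_nonneg (by positivity : (0:ℝ) ≤ ‖D z f‖ ^ 2)] at h2
  rcases (norm_nonneg (D z f)).eq_or_lt with h | h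
  · rw [← h]; simp
  · have : (|z.im| * ‖D z f‖) * ‖D z f‖ ≤ ‖f‖ * ‖D z f‖ := by nlinarith only [h2]
    exact le_of_mul_le_mul_right this h

theorem norm_le' {z : ℂ} (hz : z.im ≠ 0) (f : X) : ‖D z f‖ ≤ |z.im|⁻¹ * ‖f‖ := by
  have h := hD.norm_le hz f
  have h0 : 0 < |z.im| := abs_pos.2 hz
  rw [inv_mul_eq_div, le_div_iff₀ h0]
  linarith

theorem opNorm_le {z : ℂ} (hz : z.im ≠ 0) : ‖D z‖ ≤ |z.im|⁻¹ :=
  ContinuousLinearMap.opNorm_le_bound _ (by positivity) fun f => hD.norm_le' hz f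

theorem norm_conj {z : ℂ} (hz : z.im ≠ 0) (f : X) : ‖D (conj z) f‖ = ‖D z f‖ := by
  have hz' := conj_im_ne hz
  have h1 := hD.im_inner hz f
  have h2 := hD.im_inner hz' f
  have h4 : ⟪f, D (conj z) f⟫_ℂ = conj ⟪f, D z f⟫_ℂ := by
    rw [← hD.adj z hz, inner_conj_symm]
  rw [h4, Complex.conj_im, h1, Complex.conj_im] at h2
  have h5 : z.im * (‖D (conj z) f‖ ^ 2 - ‖D z f‖ ^ 2) = 0 := by linarith only [h2]
  rcases mul_eq_zero.1 h5 with h | h
  · exact absurd h hz
  · have := norm_nonneg (D (conj z) f)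
    have := norm_nonneg (D z f)
    nlinarith [sq_nonneg (‖D (conj z) f‖ - ‖D z f‖)]

theorem sub_norm_le {z w : ℂ} (hz : z.im ≠ 0) (hw : w.im ≠ 0) :
    ‖D z - D w‖ ≤ ‖z - w‖ * (|z.im|⁻¹ * |w.im|⁻¹) := by
  rw [hD.ident z w hz hw, norm_smul]
  gcongr
  refine (norm_mul_le _ _).trans ?_
  gcongr
  · exact hD.opNorm_le hz
  · exact hD.opNorm_le hw

theorem continuousAt {w : ℂ} (hw : w.im ≠ 0) : ContinuousAt D w := by
  have hc : ContinuousAt (fun z : ℂ => ‖z - w‖ * (|z.im|⁻¹ * |w.im|⁻¹)) w := by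
    refine ContinuousAt.mul (by fun_prop) (ContinuousAt.mul ?_ continuousAt_const)
    refine ContinuousAt.inv₀ (by fun_prop) (abs_pos.2 hw).ne'
  have h0 : Filter.Tendsto (fun z : ℂ => ‖z - w‖ * (|z.im|⁻¹ * |w.im|⁻¹)) (𝓝 w) (𝓝 0) := by
    have := hc.tendsto
    simpa using this
  rw [ContinuousAt, tendsto_iff_norm_sub_tendsto_zero]
  refine squeeze_zero' (Filter.Eventually.of_forall fun _ => norm_nonneg _) ?_ h0
  have hev : ∀ᶠ z : ℂ in 𝓝 w, z.im ≠ 0 :=
    Complex.continuous_im.continuousAt.eventually_ne hw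
  filter_upwards [hev] with z hz
  exact hD.sub_norm_le hz hw

/-- `z ↦ D z` is holomorphic off the real axis, with derivative `D z * D z`. -/
theorem hasDerivAt {w : ℂ} (hw : w.im ≠ 0) : HasDerivAt D (D w * D w) w := by
  rw [hasDerivAt_iff_tendsto_slope]
  have hc : Filter.Tendsto (fun z => D z * D w) (𝓝[≠] w) (𝓝 (D w * D w)) :=
    (((hD.continuousAt hw).tendsto.mono_left nhdsWithin_le_nhds).mul_const _)
  refine hc.congr' ?_
  have hev : ∀ᶠ z : ℂ in 𝓝[≠] w, z.im ≠ 0 :=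
    (Complex.continuous_im.continuousAt.eventually_ne hw).filter_mono nhdsWithin_le_nhds
  filter_upwards [hev, self_mem_nhdsWithin] with z hz hzw
  have hne : z - w ≠ 0 := sub_ne_zero.2 hzw
  rw [slope_def_module, hD.ident z w hz hw, smul_smul, inv_mul_cancel₀ hne, one_smul]

theorem hasDerivAt_inner {w : ℂ} (hw : w.im ≠ 0) (f g : X) :
    HasDerivAt (fun z => ⟪f, D z g⟫_ℂ) ⟪f, D w (D w g)⟫_ℂ w := by
  have h := hD.hasDerivAt hw
  have h1 : HasDerivAt (fun z => D z g) ((D w * D w) g) w := by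
    exact ((ContinuousLinearMap.apply ℂ X g).hasFDerivAt.comp_hasDerivAt w h)
  have h2 := ((innerSL ℂ f).hasFDerivAt.comp_hasDerivAt w h1)
  simpa [Function.comp_def] using h2

theorem dense_range {z : ℂ} (hz : z.im ≠ 0) : DenseRange (D z) := by
  have hz' := conj_im_ne hz
  have h : (LinearMap.range (D z : X →ₗ[ℂ] X))ᗮ = ⊥ := by
    rw [Submodule.eq_bot_iff]
    intro g hg
    rw [Submodule.mem_orthogonal] at hg
    apply hD.inj _ hz'
    rw [← inner_self_eq_zero (𝕜 := ℂ)]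
    have h1 := hg (D z (D (conj z) g)) ⟨_, rfl⟩
    rw [hD.adj z hz] at h1
    exact h1
  have h2 := Submodule.topologicalClosure_eq_top_iff.2 h
  have h3 : Dense ((LinearMap.range (D z : X →ₗ[ℂ] X)) : Set X) := by
    rw [Submodule.dense_iff_topologicalClosure_eq_top]
    exact h2
  have h4 : ((LinearMap.range (D z : X →ₗ[ℂ] X)) : Set X) = Set.range (D z) := by
    ext; simp
  rw [h4] at h3
  exact h3

end IsRes

section Pert

variable {D : ℂ → X →L[ℂ] X} (hD : IsRes D) {S : X →L[ℂ] X}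
  (hS : ∀ f g : X, ⟪S f, g⟫_ℂ = ⟪f, S g⟫_ℂ)

include hS in
theorem inner_S_im (k : X) : (⟪S k, k⟫_ℂ).im = 0 := by
  have h : conj ⟪S k, k⟫_ℂ = ⟪S k, k⟫_ℂ := by
    rw [inner_conj_symm, ← hS]
  exact Complex.conj_eq_iff_im.1 h

include hD hS

theorem pert_key {z : ℂ} (hz : z.im ≠ 0) {g h : X} (e : g + D z (S g) = h) :
    ‖g‖ ≤ (1 + ‖S‖ * |z.im|⁻¹) * ‖h‖ := by
  set k : X := g - h with hk
  have hk1 : D z (-(S g)) = k := by
    rw [map_neg, hk, ← e]; abel
  have h1 := hD.im_inner hz (-(S g))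
  rw [hk1] at h1
  have hg : g = h + k := by rw [hk]; abel
  have h2 : (⟪-(S g), k⟫_ℂ).im = -(⟪S h, k⟫_ℂ).im := by
    rw [inner_neg_left, hg, map_add, inner_add_left, Complex.neg_im, Complex.add_im,
      inner_S_im hS k, add_zero]
  rw [h2] at h1
  have h3 : |z.im| * ‖k‖ ^ 2 ≤ ‖S‖ * ‖h‖ * ‖k‖ := by
    have : |z.im * ‖k‖ ^ 2| ≤ ‖S‖ * ‖h‖ * ‖k‖ := by
      rw [← h1, abs_neg]
      refine (Complex.abs_im_le_norm _).trans ((norm_inner_le_norm _ _).trans ?_)
      gcongr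
      exact S.le_opNorm h
    rwa [abs_mul, abs_of_nonneg (by positivity : (0:ℝ) ≤ ‖k‖ ^ 2)] at this
  have hp : 0 < |z.im| := abs_pos.2 hz
  have h4 : ‖k‖ ≤ ‖S‖ * |z.im|⁻¹ * ‖h‖ := by
    rcases (norm_nonneg k).eq_or_lt with h0 | h0
    · rw [← h0]; positivity
    · have h5 : |z.im| * ‖k‖ ≤ ‖S‖ * ‖h‖ := by
        have : (|z.im| * ‖k‖) * ‖k‖ ≤ (‖S‖ * ‖h‖) * ‖k‖ := by nlinarith only [h3]
        exact le_of_mul_le_mul_right this h0
      calc ‖k‖ = |z.im|⁻¹ * (|z.im| * ‖k‖) := by field_simp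
        _ ≤ |z.im|⁻¹ * (‖S‖ * ‖h‖) := by gcongr
        _ = _ := by ring
  calc ‖g‖ = ‖h + k‖ := by rw [hg]
    _ ≤ ‖h‖ + ‖k‖ := norm_add_le _ _
    _ ≤ ‖h‖ + ‖S‖ * |z.im|⁻¹ * ‖h‖ := by gcongr
    _ = _ := by ring

theorem isUnit_one_add {z : ℂ} (hz : z.im ≠ 0) : IsUnit (1 + D z * S) := by
  set T : X →L[ℂ] X := 1 + D z * S with hT
  have hTa : ∀ g, T g = g + D z (S g) := fun g => by
    rw [hT]; simp
  have hanti : AntilipschitzWith (Real.toNNReal (1 + ‖S‖ * |z.im|⁻¹)) T := by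
    refine T.antilipschitz_of_bound fun g => ?_
    rw [Real.coe_toNNReal _ (by positivity)]
    exact pert_key hD hS hz (hTa g).symm
  have hinj : Function.Injective T := hanti.injective
  have hclosed : IsClosed (Set.range T) := hanti.isClosed_range T.uniformContinuous
  have hdense : (LinearMap.range (T : X →ₗ[ℂ] X))ᗮ = ⊥ := by
    rw [Submodule.eq_bot_iff]
    intro g hg
    rw [Submodule.mem_orthogonal] at hg
    have hz' := conj_im_ne hz
    have h1 : g + S (D (conj z) g) = 0 := by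
      rw [← inner_self_eq_zero (𝕜 := ℂ)]
      set u := g + S (D (conj z) g) with hu
      have h2 := hg (T u) ⟨_, rfl⟩
      rw [hTa, inner_add_left, hD.adj z hz, hS, ← inner_add_right] at h2
      exact h2
    set k := D (conj z) g with hk
    have h2 := hD.im_inner hz' g
    rw [← hk] at h2
    have h3 : g = -(S k) := eq_neg_of_add_eq_zero_left h1
    have h4 : (⟪g, k⟫_ℂ).im = 0 := by
      rw [h3, inner_neg_left, Complex.neg_im, inner_S_im hS k, neg_zero]
    rw [h4] at h2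
    have h5 : ‖k‖ ^ 2 = 0 := by
      rcases mul_eq_zero.1 h2.symm with h | h
      · exact absurd h hz'
      · exact h
    have h6 : k = 0 := by
      have : ‖k‖ = 0 := by simpa using h5
      exact norm_eq_zero.1 this
    rw [h3, h6, map_zero, neg_zero]
  have hsurj : Function.Surjective T := by
    have h2 := Submodule.topologicalClosure_eq_top_iff.2 hdense
    have h3 : Dense ((LinearMap.range (T : X →ₗ[ℂ] X)) : Set X) := by
      rw [Submodule.dense_iff_topologicalClosure_eq_top]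
      exact h2
    have h4 : ((LinearMap.range (T : X →ₗ[ℂ] X)) : Set X) = Set.range T := by
      ext; simp
    rw [h4] at h3
    rw [← Set.range_eq_univ, ← hclosed.closure_eq, h3.closure_eq]
  exact (ContinuousLinearMap.isUnit_iff_bijective).2 ⟨hinj, hsurj⟩

end Pert

/-- the perturbed resolvent `(1 + D S)⁻¹ D` -/
def pert (D : ℂ → X →L[ℂ] X) (S : X →L[ℂ] X) (z : ℂ) : X →L[ℂ] X :=
  Ring.inverse (1 + D z * S) * D z

section Pert

variable {D : ℂ → X →L[ℂ] X} (hD : IsRes D) {S : X →L[ℂ] X}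
  (hS : ∀ f g : X, ⟪S f, g⟫_ℂ = ⟪f, S g⟫_ℂ)

include hD hS

theorem pert_mul {z : ℂ} (hz : z.im ≠ 0) : (1 + D z * S) * pert D S z = D z := by
  unfold pert
  rw [← mul_assoc, Ring.mul_inverse_cancel _ (isUnit_one_add hD hS hz), one_mul]

theorem pert_apply {z : ℂ} (hz : z.im ≠ 0) (f : X) :
    pert D S z f + D z (S (pert D S z f)) = D z f := by
  have := congrArg (fun T : X →L[ℂ] X => T f) (pert_mul hD hS hz)
  simpa using this

theorem pert_apply' {z : ℂ} (hz : z.im ≠ 0) (f : X) :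
    pert D S z f = D z (f - S (pert D S z f)) := by
  rw [map_sub, ← pert_apply hD hS hz f]
  abel

theorem pert_unique {z : ℂ} (hz : z.im ≠ 0) {f g : X} (h : g + D z (S g) = D z f) :
    g = pert D S z f := by
  have h2 := pert_apply hD hS hz f
  have h3 : (g - pert D S z f) + D z (S (g - pert D S z f)) = 0 := by
    rw [map_sub, map_sub]
    have : g - pert D S z f + (D z (S g) - D z (S (pert D S z f)))
      = (g + D z (S g)) - (pert D S z f + D z (S (pert D S z f))) := by abel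
    rw [this, h, h2, sub_self]
  have h4 := pert_key hD hS hz h3
  rw [norm_zero, mul_zero] at h4
  exact sub_eq_zero.1 (norm_eq_zero.1 (le_antisymm h4 (norm_nonneg _)))

theorem isRes_pert : IsRes (pert D S) where
  ident z w hz hw := by
    ext f
    have e : ∀ T : X →L[ℂ] X, ∀ g, (T * T) g = T (T g) := fun _ _ => rfl
    change pert D S z f - pert D S w f = (z - w) • pert D S z (pert D S w f)
    have key : pert D S w f + (z - w) • pert D S z (pert D S w f) = pert D S z f := by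
      apply pert_unique hD hS hz
      set q := pert D S w f with hq
      have hq' : q = D w (f - S q) := pert_apply' hD hS hw f
      have h1 := pert_apply hD hS hz q
      have h2 : D z (f - S q) - q = (z - w) • D z q := by
        have := hD.ident_apply hz hw (f - S q)
        rw [← hq'] at this
        exact this
      simp only [map_add, map_smul]
      have h3 : q + (z - w) • pert D S z q + (D z (S q) + (z - w) • D z (S (pert D S z q)))
        = q + D z (S q) + (z - w) • (pert D S z q + D z (S (pert D S z q))) := by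
        rw [smul_add]; abel
      rw [h3, h1, ← h2, map_sub]
      abel
    rw [← key]
    abel
  adj z hz f g := by
    have hz' := conj_im_ne hz
    set p := pert D S z f with hp
    set q := pert D S (conj z) g with hq
    have hp' : p = D z (f - S p) := pert_apply' hD hS hz f
    have hq' : q = D (conj z) (g - S q) := pert_apply' hD hS hz' g
    have h1 : ⟪p, g - S q⟫_ℂ = ⟪f - S p, q⟫_ℂ := by
      conv_lhs => rw [hp']
      rw [hD.adj z hz, ← hq']
    have h2 : ⟪p, g⟫_ℂ = ⟪p, g - S q⟫_ℂ + ⟪p, S q⟫_ℂ := by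
      rw [← inner_add_right]; congr 1; abel
    rw [h2, h1, inner_sub_left, hS]
    ring
  inj z hz f h := by
    have h1 := pert_apply hD hS hz f
    rw [h, map_zero, map_zero, add_zero] at h1
    exact hD.inj z hz f h1.symm

theorem pert_apply'' {z : ℂ} (hz : z.im ≠ 0) (f : X) :
    pert D S z (S (D z f)) = D z f - pert D S z f := by
  have h : D z f - pert D S z (S (D z f)) = pert D S z f := by
    apply pert_unique hD hS hz
    have h1 := pert_apply hD hS hz (S (D z f))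
    rw [map_sub, map_sub]
    have : D z f - pert D S z (S (D z f)) +
        (D z (S (D z f)) - D z (S (pert D S z (S (D z f))))) =
        D z f + D z (S (D z f)) - (pert D S z (S (D z f)) +
          D z (S (pert D S z (S (D z f))))) := by abel
    rw [this, h1]
    abel
  rw [← h]
  abel

/-- an operator commuting with `D z` and `S` commutes with the perturbed resolvent -/
theorem comm_pert {z : ℂ} (hz : z.im ≠ 0) {B : X →L[ℂ] X} (h1 : ∀ f, B (D z f) = D z (B f))
    (h2 : ∀ f, B (S f) = S (B f)) (f : X) : B (pert D S z f) = pert D S z (B f) := by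
  apply pert_unique hD hS hz
  rw [← h2, ← h1, ← map_add, pert_apply hD hS hz, h1]

end Pert

end Pool.Agent.Helper54.Bal
end
end -- Pool.Agent.Helper54_Ballistic.Res

section -- Pool.Agent.Helper54_Ballistic.Int

/-!
# Plancherel type identities for resolvent families
-/

set_option autoImplicit false
set_option linter.unusedSectionVars false

open scoped InnerProductSpace ComplexConjugate Topology
open MeasureTheory Filter

noncomputable section

namespace Pool.Agent.Helper54.Bal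

/-- the point `E + i η` -/
def zz (η E : ℝ) : ℂ := (E : ℂ) + (η : ℂ) * Complex.I

@[simp] theorem zz_im (η E : ℝ) : (zz η E).im = η := by simp [zz]

@[simp] theorem zz_re (η E : ℝ) : (zz η E).re = E := by simp [zz]

theorem continuous_zz (η : ℝ) : Continuous (zz η) := by unfold zz; fun_prop

theorem normSq_zz (η E : ℝ) : ‖zz η E‖ ^ 2 = E ^ 2 + η ^ 2 := by
  rw [← Complex.normSq_eq_norm_sq, Complex.normSq_apply]; simp; ring

theorem integrable_inv_sq {η : ℝ} (hη : 0 < η) (C : ℝ) :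
    Integrable (fun E : ℝ => C * (1 + η⁻¹ ^ 2) * (1 + E ^ 2)⁻¹) :=
  integrable_inv_one_add_sq.const_mul _

theorem inv_sq_le {η y : ℝ} (hη : 0 < η) (hy : η ≤ y) {C : ℝ} (hC : 0 ≤ C) (E : ℝ) :
    C / ‖zz y E‖ ^ 2 ≤ C * (1 + η⁻¹ ^ 2) * (1 + E ^ 2)⁻¹ := by
  rw [normSq_zz]
  have h1 : 0 < E ^ 2 + y ^ 2 := by nlinarith only [hη, hy]
  have h2 : 0 < 1 + E ^ 2 := by nlinarith only
  rw [div_le_iff₀ h1]
  have h3 : 1 + E ^ 2 ≤ (1 + η⁻¹ ^ 2) * (E ^ 2 + y ^ 2) := by
    have h4 : η⁻¹ ^ 2 * y ^ 2 ≥ 1 := by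
      have h5 : η⁻¹ * y ≥ 1 := by
        rw [ge_iff_le, ← inv_mul_cancel₀ hη.ne']
        exact mul_le_mul_of_nonneg_left hy (by positivity)
      nlinarith only [h5]
    nlinarith only [sq_nonneg (η⁻¹ * E), sq_nonneg y, h4]
  calc C = C * (1 + E ^ 2)⁻¹ * (1 + E ^ 2) := by field_simp
    _ ≤ C * (1 + E ^ 2)⁻¹ * ((1 + η⁻¹ ^ 2) * (E ^ 2 + y ^ 2)) := by gcongr
    _ = _ := by ring

/-- contour shift: a holomorphic function on the upper half plane with quadratic decay has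
vanishing integral along horizontal lines -/
theorem integral_horizontal {R : ℂ → ℂ} {η C : ℝ} (hη : 0 < η) (hC : 0 ≤ C)
    (hd : ∀ z : ℂ, 0 < z.im → DifferentiableAt ℂ R z)
    (hb : ∀ z : ℂ, η ≤ z.im → ‖R z‖ ≤ C / ‖z‖ ^ 2) :
    Integrable (fun E : ℝ => R (zz η E)) ∧ ∫ E : ℝ, R (zz η E) = 0 := by
  have hcont : ∀ y : ℝ, η ≤ y → Continuous fun E : ℝ => R (zz y E) := by
    intro y hy
    rw [continuous_iff_continuousAt]
    intro E
    exact ContinuousAt.comp (f := zz y) (g := R)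
      (hd (zz y E) (by simpa using hη.trans_le hy)).continuousAt (continuous_zz y).continuousAt
  have hbd : ∀ y : ℝ, η ≤ y → ∀ E : ℝ, ‖R (zz y E)‖ ≤ C * (1 + η⁻¹ ^ 2) * (1 + E ^ 2)⁻¹ := by
    intro y hy E
    exact (hb (zz y E) (by simpa using hy)).trans (inv_sq_le hη hy hC E)
  have hint : ∀ y : ℝ, η ≤ y → Integrable fun E : ℝ => R (zz y E) := by
    intro y hy
    exact (integrable_inv_sq hη C).mono' (hcont y hy).aestronglyMeasurable
      (Eventually.of_forall (hbd y hy))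
  refine ⟨hint η le_rfl, ?_⟩
  -- the integral does not depend on the height
  have hshift : ∀ Y : ℝ, η ≤ Y → ∫ E : ℝ, R (zz η E) = ∫ E : ℝ, R (zz Y E) := by
    intro Y hY
    have hrect : ∀ T : ℝ, 0 < T →
        (∫ E in (-T)..T, R (zz η E)) - (∫ E in (-T)..T, R (zz Y E)) =
          Complex.I • (∫ y in η..Y, R (zz y (-T))) - Complex.I • (∫ y in η..Y, R (zz y T)) := by
      intro T hT
      have h := Complex.integral_boundary_rect_eq_zero_of_differentiableOn R
        (zz η (-T)) (zz Y T) (by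
          intro z hz
          refine (hd z ?_).differentiableWithinAt
          have := hz.2
          simp only [zz_im, Set.mem_preimage, Set.uIcc_of_le hY] at this
          exact hη.trans_le this.1)
      simp only [zz_im, zz_re] at h
      have e1 : ∀ y : ℝ, (fun x : ℝ => R ((x : ℂ) + (y : ℂ) * Complex.I)) = fun x => R (zz y x) :=
        fun y => rfl
      have e2 : ∀ x : ℝ, (fun y : ℝ => R ((x : ℂ) + (y : ℂ) * Complex.I)) = fun y => R (zz y x) :=
        fun x => rfl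
      simp only [e1, e2] at h
      have h' := sub_eq_zero.1 h
      rw [← h']
      abel
    have hL : Tendsto (fun T : ℝ => (∫ E in (-T)..T, R (zz η E)) -
        (∫ E in (-T)..T, R (zz Y E))) atTop
        (𝓝 ((∫ E : ℝ, R (zz η E)) - ∫ E : ℝ, R (zz Y E))) :=
      (intervalIntegral_tendsto_integral (hint η le_rfl) tendsto_neg_atTop_atBot tendsto_id).sub
        (intervalIntegral_tendsto_integral (hint Y hY) tendsto_neg_atTop_atBot tendsto_id)
    have hside : ∀ T : ℝ, 0 < T → ∀ s : ℝ, s ^ 2 = T ^ 2 →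
        ‖∫ y in η..Y, R (zz y s)‖ ≤ C / T ^ 2 * |Y - η| := by
      intro T hT s hs
      refine intervalIntegral.norm_integral_le_of_norm_le_const ?_
      intro y hy
      rw [Set.uIoc_of_le hY] at hy
      refine (hb (zz y s) (by simpa using hy.1.le)).trans ?_
      rw [normSq_zz, hs]
      have : 0 < T ^ 2 := by positivity
      gcongr
      nlinarith only [sq_nonneg y]
    have hR : Tendsto (fun T : ℝ => Complex.I • (∫ y in η..Y, R (zz y (-T))) -
        Complex.I • (∫ y in η..Y, R (zz y T))) atTop (𝓝 0) := by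
      have h0 : Tendsto (fun T : ℝ => C / T ^ 2 * |Y - η| + C / T ^ 2 * |Y - η|) atTop (𝓝 0) := by
        have h1 : Tendsto (fun T : ℝ => C / T ^ 2) atTop (𝓝 0) :=
          tendsto_const_nhds.div_atTop (tendsto_pow_atTop two_ne_zero)
        have h2 := (h1.mul_const |Y - η|).add (h1.mul_const |Y - η|)
        simpa using h2
      refine squeeze_zero_norm' ?_ h0
      filter_upwards [eventually_gt_atTop 0] with T hT
      refine (norm_sub_le _ _).trans ?_
      rw [norm_smul, norm_smul, Complex.norm_I, one_mul, one_mul]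
      exact add_le_add (hside T hT _ (by ring)) (hside T hT _ rfl)
    have hev : (fun T : ℝ => (∫ E in (-T)..T, R (zz η E)) - (∫ E in (-T)..T, R (zz Y E)))
        =ᶠ[atTop] fun T => Complex.I • (∫ y in η..Y, R (zz y (-T))) -
          Complex.I • (∫ y in η..Y, R (zz y T)) := by
      filter_upwards [eventually_gt_atTop 0] with T hT
      exact hrect T hT
    have := tendsto_nhds_unique (hL.congr' hev) hR
    exact sub_eq_zero.1 this
  have hlim : Tendsto (fun Y : ℝ => ∫ E : ℝ, R (zz Y E)) atTop (𝓝 (∫ _ : ℝ, (0:ℂ))) := by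
    refine tendsto_integral_filter_of_dominated_convergence
      (fun E => C * (1 + η⁻¹ ^ 2) * (1 + E ^ 2)⁻¹) ?_ ?_ (integrable_inv_sq hη C) ?_
    · filter_upwards [eventually_ge_atTop η] with Y hY
      exact (hcont Y hY).aestronglyMeasurable
    · filter_upwards [eventually_ge_atTop η] with Y hY
      exact Eventually.of_forall (hbd Y hY)
    · refine Eventually.of_forall fun E => ?_
      have h0 : Tendsto (fun Y : ℝ => C / Y ^ 2) atTop (𝓝 0) :=
        tendsto_const_nhds.div_atTop (tendsto_pow_atTop two_ne_zero)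
      refine squeeze_zero_norm' ?_ h0
      filter_upwards [eventually_ge_atTop η] with Y hY
      refine (hb (zz Y E) (by simpa using hY)).trans ?_
      rw [normSq_zz]
      have : 0 < Y ^ 2 := by have := hη.trans_le hY; positivity
      gcongr
      nlinarith only [sq_nonneg E]
  rw [integral_zero] at hlim
  have hconst : Tendsto (fun _ : ℝ => ∫ E : ℝ, R (zz η E)) atTop (𝓝 0) := by
    refine hlim.congr' ?_
    filter_upwards [eventually_ge_atTop η] with Y hY
    exact (hshift Y hY).symm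
  exact tendsto_nhds_unique tendsto_const_nhds hconst

theorem integral_poisson {y : ℝ} (hy : 0 < y) :
    Integrable (fun E : ℝ => y / (E ^ 2 + y ^ 2)) ∧ ∫ E : ℝ, y / (E ^ 2 + y ^ 2) = Real.pi := by
  have e : (fun E : ℝ => y / (E ^ 2 + y ^ 2)) = fun E => y⁻¹ * (1 + (E / y) ^ 2)⁻¹ := by
    funext E
    field_simp
    ring
  constructor
  · rw [e]
    exact (integrable_inv_one_add_sq.comp_div hy.ne').const_mul _
  · rw [e, integral_const_mul, Measure.integral_comp_div (fun E : ℝ => (1 + E ^ 2)⁻¹),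
      integral_univ_inv_one_add_sq, abs_of_pos hy, smul_eq_mul]
    field_simp

end Pool.Agent.Helper54.Bal
end
end -- Pool.Agent.Helper54_Ballistic.Int

section -- Pool.Agent.Helper54_Ballistic.Planch

/-!
# `∫ ⟪D f, D g⟫ = (π/η) ⟪f, g⟫` and `∫ ⟪D² f, D² g⟫ = (π/(2η³)) ⟪f, g⟫`
-/

set_option autoImplicit false
set_option linter.unusedSectionVars false

open scoped InnerProductSpace ComplexConjugate Topology
open MeasureTheory Filter

noncomputable section

namespace Pool.Agent.Helper54.Bal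

variable {X : Type*} [NormedAddCommGroup X] [InnerProductSpace ℂ X] [CompleteSpace X]

namespace IsRes

variable {D : ℂ → X →L[ℂ] X} (hD : IsRes D)

include hD

theorem cont_line {η : ℝ} (hη : η ≠ 0) (f : X) : Continuous fun E : ℝ => D (zz η E) f := by
  rw [continuous_iff_continuousAt]
  intro E
  have h1 : ContinuousAt D (zz η E) := hD.continuousAt (by simpa using hη)
  have h2 : ContinuousAt (fun z => D z f) (zz η E) :=
    (ContinuousLinearMap.apply ℂ X f).continuous.continuousAt.comp h1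
  exact ContinuousAt.comp (f := zz η) (g := fun z => D z f) h2 (continuous_zz η).continuousAt

theorem cont_line2 {η : ℝ} (hη : η ≠ 0) (f : X) :
    Continuous fun E : ℝ => D (zz η E) (D (zz η E) f) := by
  rw [continuous_iff_continuousAt]
  intro E
  have h1 : ContinuousAt D (zz η E) := hD.continuousAt (by simpa using hη)
  have h2 : ContinuousAt (fun z => D z (D z f)) (zz η E) :=
    h1.clm_apply (h1.clm_apply continuousAt_const)
  exact ContinuousAt.comp (f := zz η) (g := fun z => D z (D z f)) h2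
    (continuous_zz η).continuousAt

/-- the diagonal identity on a dense set -/
theorem diag_dense {η : ℝ} (hη : 0 < η) (h : X) :
    let f := D (-Complex.I) (D (-Complex.I) h)
    Integrable (fun E : ℝ => ‖D (zz η E) f‖ ^ 2) ∧
      ∫ E : ℝ, ‖D (zz η E) f‖ ^ 2 = Real.pi / η * ‖f‖ ^ 2 := by
  intro f
  have hI : (-Complex.I).im ≠ 0 := by simp
  set k : X := D (-Complex.I) h with hk
  have hf : f = D (-Complex.I) k := rfl
  set R : ℂ → ℂ := fun z => (-⟪f, k⟫_ℂ + ⟪f, D z h⟫_ℂ) / (z + Complex.I) ^ 2 with hR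
  have hne : ∀ z : ℂ, 0 < z.im → z + Complex.I ≠ 0 := by
    intro z hz h0
    have := congrArg Complex.im h0
    simp at this
    linarith only [hz, this]
  have hexp : ∀ z : ℂ, 0 < z.im → ⟪f, D z f⟫_ℂ = -((‖f‖ : ℂ) ^ 2) / (z + Complex.I) + R z := by
    intro z hz
    have h1 : D z k - f = (z + Complex.I) • D z f := by
      have := hD.ident_apply hz.ne' hI k
      rw [sub_neg_eq_add] at this
      exact this
    have h2 : D z h - k = (z + Complex.I) • D z k := by
      have := hD.ident_apply hz.ne' hI h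
      rw [sub_neg_eq_add] at this
      exact this
    have h3 : ⟪f, D z k⟫_ℂ - ⟪f, f⟫_ℂ = (z + Complex.I) * ⟪f, D z f⟫_ℂ := by
      rw [← inner_sub_right, h1, inner_smul_right]
    have h4 : ⟪f, D z h⟫_ℂ - ⟪f, k⟫_ℂ = (z + Complex.I) * ⟪f, D z k⟫_ℂ := by
      rw [← inner_sub_right, h2, inner_smul_right]
    rw [inner_self_eq_norm_sq_to_K] at h3
    have hz' := hne z hz
    rw [hR]
    simp only
    have h3' : ⟪f, D z f⟫_ℂ = (⟪f, D z k⟫_ℂ - (‖f‖ : ℂ) ^ 2) / (z + Complex.I) := by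
      rw [eq_div_iff hz', mul_comm, ← h3]; rfl
    have h4' : ⟪f, D z k⟫_ℂ = (⟪f, D z h⟫_ℂ - ⟪f, k⟫_ℂ) / (z + Complex.I) := by
      rw [eq_div_iff hz', mul_comm, ← h4]
    rw [h3', h4']
    field_simp
    ring
  have hRd : ∀ z : ℂ, 0 < z.im → DifferentiableAt ℂ R z := by
    intro z hz
    refine DifferentiableAt.div ?_ ((differentiableAt_id.add_const _).pow 2)
      (pow_ne_zero 2 (hne z hz))
    exact (differentiableAt_const _).add (hD.hasDerivAt_inner hz.ne' f h).differentiableAt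
  set C : ℝ := ‖f‖ * ‖k‖ + ‖f‖ * (η⁻¹ * ‖h‖) with hC
  have hC0 : 0 ≤ C := by positivity
  have hRb : ∀ z : ℂ, η ≤ z.im → ‖R z‖ ≤ C / ‖z‖ ^ 2 := by
    intro z hz
    have hz0 : 0 < z.im := hη.trans_le hz
    have hzn : 0 < ‖z‖ := by
      refine norm_pos_iff.2 fun h0 => ?_
      rw [h0] at hz0; simp at hz0
    rw [hR]
    simp only
    rw [norm_div, norm_pow]
    have h1 : ‖z‖ ^ 2 ≤ ‖z + Complex.I‖ ^ 2 := by
      rw [← Complex.normSq_eq_norm_sq, ← Complex.normSq_eq_norm_sq, Complex.normSq_apply,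
        Complex.normSq_apply]
      simp
      nlinarith only [hη, hz]
    have h2 : ‖-⟪f, k⟫_ℂ + ⟪f, D z h⟫_ℂ‖ ≤ C := by
      refine (norm_add_le _ _).trans ?_
      rw [norm_neg]
      refine add_le_add (norm_inner_le_norm _ _) ((norm_inner_le_norm _ _).trans ?_)
      gcongr
      refine (hD.norm_le' hz0.ne' h).trans ?_
      gcongr
      rw [abs_of_pos hz0]
      exact hz
    have h3 : 0 < ‖z‖ ^ 2 := by positivity
    calc _ ≤ C / ‖z + Complex.I‖ ^ 2 := by gcongr
      _ ≤ C / ‖z‖ ^ 2 := by gcongr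
  obtain ⟨hi, hint⟩ := integral_horizontal hη hC0 hRd hRb
  have hη1 : 0 < η + 1 := by linarith only [hη]
  obtain ⟨hp, hpint⟩ := integral_poisson hη1
  have hform : ∀ E : ℝ, ‖D (zz η E) f‖ ^ 2 =
      η⁻¹ * (‖f‖ ^ 2 * ((η + 1) / (E ^ 2 + (η + 1) ^ 2)) + (R (zz η E)).im) := by
    intro E
    have hz : 0 < (zz η E).im := by simpa using hη
    have h1 := hD.im_inner hz.ne' f
    rw [hexp _ hz, Complex.add_im, zz_im] at h1
    have h2 : (-((‖f‖ : ℂ) ^ 2) / (zz η E + Complex.I)).im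
        = ‖f‖ ^ 2 * ((η + 1) / (E ^ 2 + (η + 1) ^ 2)) := by
      have e1 : zz η E + Complex.I = zz (η + 1) E := by
        unfold zz; push_cast; ring
      have e2 : -((‖f‖ : ℂ) ^ 2) = ((-(‖f‖ ^ 2) : ℝ) : ℂ) := by push_cast; ring
      rw [e1, e2, Complex.div_im, Complex.ofReal_im, Complex.ofReal_re, zz_im, zz_re,
        Complex.normSq_eq_norm_sq, normSq_zz]
      ring
    rw [h2] at h1
    rw [h1]
    field_simp
  have hi' : Integrable fun E : ℝ => (R (zz η E)).im := hi.im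
  have hint' : ∫ E : ℝ, (R (zz η E)).im = 0 := by
    have : ∫ E : ℝ, (R (zz η E)).im = (∫ E : ℝ, R (zz η E)).im :=
      integral_im hi
    rw [this, hint]; simp
  constructor
  · have := ((hp.const_mul (‖f‖ ^ 2)).add hi').const_mul η⁻¹
    refine this.congr (Eventually.of_forall fun E => ?_)
    exact (hform E).symm
  · calc ∫ E : ℝ, ‖D (zz η E) f‖ ^ 2
        = ∫ E : ℝ, η⁻¹ * (‖f‖ ^ 2 * ((η + 1) / (E ^ 2 + (η + 1) ^ 2)) + (R (zz η E)).im) := by
          exact integral_congr_ae (Eventually.of_forall hform)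
      _ = η⁻¹ * (‖f‖ ^ 2 * Real.pi + 0) := by
          rw [integral_const_mul, integral_add (hp.const_mul _) hi', integral_const_mul, hpint,
            hint']
      _ = _ := by rw [add_zero]; ring

/-- the dense set of vectors `D(-i)² h` -/
theorem dense_sq : DenseRange fun h : X => D (-Complex.I) (D (-Complex.I) h) := by
  have hI : (-Complex.I).im ≠ 0 := by simp
  exact (hD.dense_range hI).comp (hD.dense_range hI) (D (-Complex.I)).continuous

theorem exists_seq (f : X) : ∃ u : ℕ → X,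
    Tendsto (fun n => D (-Complex.I) (D (-Complex.I) (u n))) atTop (𝓝 f) := by
  obtain ⟨v, hv, hlim⟩ := mem_closure_iff_seq_limit.1 (hD.dense_sq f)
  choose u hu using hv
  exact ⟨u, by simpa [hu] using hlim⟩

theorem lintegral_le {η : ℝ} (hη : 0 < η) (f : X) :
    ∫⁻ E : ℝ, ENNReal.ofReal (‖D (zz η E) f‖ ^ 2) ≤ ENNReal.ofReal (Real.pi / η * ‖f‖ ^ 2) := by
  obtain ⟨u, hu⟩ := hD.exists_seq f
  set F : ℕ → X := fun n => D (-Complex.I) (D (-Complex.I) (u n)) with hF
  have h1 : ∀ n, ∫⁻ E : ℝ, ENNReal.ofReal (‖D (zz η E) (F n)‖ ^ 2) =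
      ENNReal.ofReal (Real.pi / η * ‖F n‖ ^ 2) := by
    intro n
    obtain ⟨hi, he⟩ := hD.diag_dense hη (u n)
    rw [← ofReal_integral_eq_lintegral_ofReal hi
      (Eventually.of_forall fun E => by positivity), he]
  have h2 : ∀ E : ℝ, ENNReal.ofReal (‖D (zz η E) f‖ ^ 2) =
      liminf (fun n => ENNReal.ofReal (‖D (zz η E) (F n)‖ ^ 2)) atTop := by
    intro E
    refine (Tendsto.liminf_eq ?_).symm
    refine (ENNReal.continuous_ofReal.tendsto _).comp ?_
    exact (((D (zz η E)).continuous.tendsto f).comp hu).norm.pow 2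
  have h3 : Tendsto (fun n => ENNReal.ofReal (Real.pi / η * ‖F n‖ ^ 2)) atTop
      (𝓝 (ENNReal.ofReal (Real.pi / η * ‖f‖ ^ 2))) := by
    refine (ENNReal.continuous_ofReal.tendsto _).comp ?_
    exact (hu.norm.pow 2).const_mul _
  calc ∫⁻ E : ℝ, ENNReal.ofReal (‖D (zz η E) f‖ ^ 2)
      = ∫⁻ E : ℝ, liminf (fun n => ENNReal.ofReal (‖D (zz η E) (F n)‖ ^ 2)) atTop :=
        lintegral_congr h2
    _ ≤ liminf (fun n => ∫⁻ E : ℝ, ENNReal.ofReal (‖D (zz η E) (F n)‖ ^ 2)) atTop := by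
        refine lintegral_liminf_le fun n => ?_
        refine ENNReal.measurable_ofReal.comp ?_
        exact ((hD.cont_line hη.ne' (F n)).norm.pow 2).measurable
    _ = liminf (fun n => ENNReal.ofReal (Real.pi / η * ‖F n‖ ^ 2)) atTop := by
        congr 1; funext n; exact h1 n
    _ = _ := h3.liminf_eq

theorem integrable_sq {η : ℝ} (hη : 0 < η) (f : X) :
    Integrable (fun E : ℝ => ‖D (zz η E) f‖ ^ 2) := by
  refine ⟨((hD.cont_line hη.ne' f).norm.pow 2).aestronglyMeasurable, ?_⟩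
  rw [hasFiniteIntegral_iff_ofReal (Eventually.of_forall fun E => by positivity)]
  exact (hD.lintegral_le hη f).trans_lt ENNReal.ofReal_lt_top

theorem integral_sq_le {η : ℝ} (hη : 0 < η) (f : X) :
    ∫ E : ℝ, ‖D (zz η E) f‖ ^ 2 ≤ Real.pi / η * ‖f‖ ^ 2 := by
  have h := hD.lintegral_le hη f
  rw [← ofReal_integral_eq_lintegral_ofReal (hD.integrable_sq hη f)
      (Eventually.of_forall fun E => by positivity)] at h
  exact (ENNReal.ofReal_le_ofReal_iff (by positivity)).1 h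

theorem integral_sq {η : ℝ} (hη : 0 < η) (f : X) :
    ∫ E : ℝ, ‖D (zz η E) f‖ ^ 2 = Real.pi / η * ‖f‖ ^ 2 := by
  refine le_antisymm (hD.integral_sq_le hη f) ?_
  obtain ⟨u, hu⟩ := hD.exists_seq f
  set F : ℕ → X := fun n => D (-Complex.I) (D (-Complex.I) (u n)) with hF
  have key : ∀ ε : ℝ, 0 < ε → Real.pi / η * ‖f‖ ^ 2 ≤ (1 + ε) * ∫ E : ℝ, ‖D (zz η E) f‖ ^ 2 := by
    intro ε hε
    have h1 : ∀ n, Real.pi / η * ‖F n‖ ^ 2 ≤ (1 + ε) * (∫ E : ℝ, ‖D (zz η E) f‖ ^ 2) +
        (1 + ε⁻¹) * (Real.pi / η * ‖F n - f‖ ^ 2) := by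
      intro n
      have h2 := (hD.diag_dense hη (u n)).2
      have h3 : ∫ E : ℝ, ‖D (zz η E) (F n)‖ ^ 2 ≤
          ∫ E : ℝ, ((1 + ε) * ‖D (zz η E) f‖ ^ 2 + (1 + ε⁻¹) * ‖D (zz η E) (F n - f)‖ ^ 2) := by
        refine integral_mono (hD.integrable_sq hη _)
          (((hD.integrable_sq hη f).const_mul _).add ((hD.integrable_sq hη _).const_mul _)) ?_
        intro E
        have h4 : D (zz η E) (F n) = D (zz η E) f + D (zz η E) (F n - f) := by
          rw [← map_add]; congr 1; abel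
        have h5 : ‖D (zz η E) (F n)‖ ≤ ‖D (zz η E) f‖ + ‖D (zz η E) (F n - f)‖ := by
          rw [h4]; exact norm_add_le _ _
        simp only
        set a := ‖D (zz η E) f‖
        set b := ‖D (zz η E) (F n - f)‖
        have ha : 0 ≤ a := norm_nonneg _
        have hb : 0 ≤ b := norm_nonneg _
        have h6 : ‖D (zz η E) (F n)‖ ^ 2 ≤ (a + b) ^ 2 := by gcongr
        have h7 : 0 ≤ ε⁻¹ * (ε * a - b) ^ 2 := by positivity
        have h8 : ε⁻¹ * (ε * a - b) ^ 2 = ε * a ^ 2 - 2 * a * b + ε⁻¹ * b ^ 2 := by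
          field_simp
          ring
        nlinarith only [h6, h7, h8]
      rw [integral_add ((hD.integrable_sq hη f).const_mul _)
        ((hD.integrable_sq hη _).const_mul _), integral_const_mul, integral_const_mul] at h3
      have h9 := hD.integral_sq_le hη (F n - f)
      have h10 : 0 ≤ 1 + ε⁻¹ := by positivity
      calc Real.pi / η * ‖F n‖ ^ 2 = ∫ E : ℝ, ‖D (zz η E) (F n)‖ ^ 2 := h2.symm
        _ ≤ _ := h3
        _ ≤ _ := by gcongr
    have h11 : Tendsto (fun n => Real.pi / η * ‖F n‖ ^ 2) atTop (𝓝 (Real.pi / η * ‖f‖ ^ 2)) :=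
      (hu.norm.pow 2).const_mul _
    have h12 : Tendsto (fun n => (1 + ε) * (∫ E : ℝ, ‖D (zz η E) f‖ ^ 2) +
        (1 + ε⁻¹) * (Real.pi / η * ‖F n - f‖ ^ 2)) atTop
        (𝓝 ((1 + ε) * (∫ E : ℝ, ‖D (zz η E) f‖ ^ 2) + (1 + ε⁻¹) * (Real.pi / η * 0 ^ 2))) := by
      refine Tendsto.const_add _ (Tendsto.const_mul _ (Tendsto.const_mul _ ?_))
      refine Tendsto.pow ?_ 2
      have : Tendsto (fun n => F n - f) atTop (𝓝 (f - f)) := hu.sub_const f
      rw [sub_self] at this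
      simpa using this.norm
    have h13 := le_of_tendsto_of_tendsto' h11 h12 h1
    simpa using h13
  have hq : 0 ≤ ∫ E : ℝ, ‖D (zz η E) f‖ ^ 2 := integral_nonneg fun E => by positivity
  refine le_of_forall_pos_le_add fun δ hδ => ?_
  have := key (δ / ((∫ E : ℝ, ‖D (zz η E) f‖ ^ 2) + 1)) (by positivity)
  refine this.trans ?_
  have h1 : δ / ((∫ E : ℝ, ‖D (zz η E) f‖ ^ 2) + 1) * (∫ E : ℝ, ‖D (zz η E) f‖ ^ 2) ≤ δ := by
    rw [div_mul_eq_mul_div, div_le_iff₀ (by positivity)]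
    nlinarith only [hδ]
  linarith only [h1]

theorem integrable_inner {η : ℝ} (hη : 0 < η) (f g : X) :
    Integrable (fun E : ℝ => ⟪D (zz η E) f, D (zz η E) g⟫_ℂ) := by
  refine (((hD.integrable_sq hη f).add (hD.integrable_sq hη g)).mono' ?_ ?_)
  · exact ((hD.cont_line hη.ne' f).inner (hD.cont_line hη.ne' g)).aestronglyMeasurable
  · refine Eventually.of_forall fun E => (norm_inner_le_norm _ _).trans ?_
    simp only [Pi.add_apply]
    nlinarith only [sq_nonneg (‖D (zz η E) f‖ - ‖D (zz η E) g‖), sq_nonneg (‖D (zz η E) f‖),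
      sq_nonneg (‖D (zz η E) g‖)]

theorem integral_inner {η : ℝ} (hη : 0 < η) (f g : X) :
    ∫ E : ℝ, ⟪D (zz η E) f, D (zz η E) g⟫_ℂ = (Real.pi / η : ℝ) * ⟪f, g⟫_ℂ := by
  have e : ∀ E : ℝ, ⟪D (zz η E) f, D (zz η E) g⟫_ℂ =
      (((‖D (zz η E) (f + g)‖ ^ 2 : ℝ) : ℂ) - ((‖D (zz η E) (f - g)‖ ^ 2 : ℝ) : ℂ) +
        (((‖D (zz η E) (f - Complex.I • g)‖ ^ 2 : ℝ) : ℂ) -
          ((‖D (zz η E) (f + Complex.I • g)‖ ^ 2 : ℝ) : ℂ)) * Complex.I) / 4 := by
    intro E
    rw [inner_eq_sum_norm_sq_div_four]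
    simp only [map_add, map_sub, map_smul]
    push_cast
    rfl
  have i1 : ∀ h : X, Integrable fun E : ℝ => ((‖D (zz η E) h‖ ^ 2 : ℝ) : ℂ) :=
    fun h => (hD.integrable_sq hη h).ofReal
  have i2 : ∀ h : X, ∫ E : ℝ, ((‖D (zz η E) h‖ ^ 2 : ℝ) : ℂ) =
      ((Real.pi / η * ‖h‖ ^ 2 : ℝ) : ℂ) := by
    intro h
    rw [← hD.integral_sq hη h]
    exact integral_ofReal
  have i3 : ∀ h h' : X, Integrable fun E : ℝ => ((‖D (zz η E) h‖ ^ 2 : ℝ) : ℂ) -
      ((‖D (zz η E) h'‖ ^ 2 : ℝ) : ℂ) := fun h h' => (i1 h).sub (i1 h')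
  rw [integral_congr_ae (Eventually.of_forall e), integral_div, integral_add
    (i3 _ _) ((i3 _ _).mul_const _), integral_mul_const,
    integral_sub (i1 _) (i1 _), integral_sub (i1 _) (i1 _), i2, i2, i2, i2,
    inner_eq_sum_norm_sq_div_four (𝕜 := ℂ) f g]
  push_cast
  simp only [Complex.coe_algebraMap, RCLike.I_to_complex]
  ring

theorem tendsto_line_zero {η : ℝ} (hη : 0 < η) (f g : X) {l : Filter ℝ}
    (hl : Tendsto (fun E : ℝ => ‖zz η E + Complex.I‖) l atTop) :
    Tendsto (fun E : ℝ => ⟪f, D (zz η E) g⟫_ℂ) l (𝓝 0) := by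
  have hI : (-Complex.I).im ≠ 0 := by simp
  have hz : ∀ E : ℝ, (zz η E).im ≠ 0 := fun E => by simpa using hη.ne'
  rw [Metric.tendsto_nhds]
  intro ε hε
  obtain ⟨g', ⟨h, hh⟩, hg'⟩ : ∃ g' ∈ Set.range (D (-Complex.I)),
      dist g g' < ε * η / (2 * (‖f‖ + 1)) := by
    have := hD.dense_range hI g
    exact Metric.mem_closure_iff.1 this _ (by positivity)
  have hsm : Tendsto (fun E : ℝ => ‖f‖ * ((η⁻¹ * ‖h‖ + ‖g'‖) / ‖zz η E + Complex.I‖)) l
      (𝓝 (‖f‖ * 0)) := Tendsto.const_mul _ (tendsto_const_nhds.div_atTop hl)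
  rw [mul_zero] at hsm
  have hev := hsm.eventually_lt_const (half_pos hε)
  filter_upwards [hev] with E hE
  rw [dist_zero_right]
  have h1 : ⟪f, D (zz η E) g⟫_ℂ = ⟪f, D (zz η E) g'⟫_ℂ + ⟪f, D (zz η E) (g - g')⟫_ℂ := by
    rw [← inner_add_right, ← map_add]; congr 2; abel
  have hne : zz η E + Complex.I ≠ 0 := by
    intro h0
    have := congrArg Complex.im h0
    simp at this
    linarith only [hη, this]
  have h2 : ‖D (zz η E) g'‖ ≤ (η⁻¹ * ‖h‖ + ‖g'‖) / ‖zz η E + Complex.I‖ := by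
    have h3 := hD.ident_apply (hz E) hI h
    rw [sub_neg_eq_add, hh] at h3
    have h4 : ‖(zz η E + Complex.I) • D (zz η E) g'‖ ≤ η⁻¹ * ‖h‖ + ‖g'‖ := by
      rw [← h3]
      refine (norm_sub_le _ _).trans ?_
      gcongr
      have := hD.norm_le' (hz E) h
      rwa [zz_im, abs_of_pos hη] at this
    rw [norm_smul] at h4
    rw [le_div_iff₀ (norm_pos_iff.2 hne), mul_comm]
    exact h4
  have h5 : ‖D (zz η E) (g - g')‖ ≤ η⁻¹ * ‖g - g'‖ := by
    have := hD.norm_le' (hz E) (g - g')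
    rwa [zz_im, abs_of_pos hη] at this
  rw [dist_eq_norm] at hg'
  have h6 : ‖f‖ * (η⁻¹ * ‖g - g'‖) < ε / 2 := by
    have h7 : ‖f‖ * (η⁻¹ * ‖g - g'‖) ≤ (‖f‖ + 1) * (η⁻¹ * ‖g - g'‖) := by
      gcongr; linarith only
    refine h7.trans_lt ?_
    have h8 : (‖f‖ + 1) * (η⁻¹ * ‖g - g'‖) < (‖f‖ + 1) * (η⁻¹ * (ε * η / (2 * (‖f‖ + 1)))) := by
      gcongr
    refine h8.trans_le (le_of_eq ?_)
    field_simp
  calc ‖⟪f, D (zz η E) g⟫_ℂ‖ ≤ ‖⟪f, D (zz η E) g'⟫_ℂ‖ + ‖⟪f, D (zz η E) (g - g')⟫_ℂ‖ := by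
        rw [h1]; exact norm_add_le _ _
    _ ≤ ‖f‖ * ((η⁻¹ * ‖h‖ + ‖g'‖) / ‖zz η E + Complex.I‖) + ‖f‖ * (η⁻¹ * ‖g - g'‖) := by
        refine add_le_add ((norm_inner_le_norm _ _).trans ?_)
          ((norm_inner_le_norm _ _).trans ?_) <;> gcongr
    _ < ε := by linarith only [hE, h6]

theorem norm_zz_tendsto_top (η : ℝ) :
    Tendsto (fun E : ℝ => ‖zz η E + Complex.I‖) atTop atTop := by
  refine tendsto_atTop_mono (fun E => ?_) tendsto_id
  have := Complex.abs_re_le_norm (zz η E + Complex.I)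
  simp at this
  exact (le_abs_self E).trans this

theorem norm_zz_tendsto_bot (η : ℝ) :
    Tendsto (fun E : ℝ => ‖zz η E + Complex.I‖) atBot atTop := by
  refine tendsto_atTop_mono (fun E => ?_) tendsto_neg_atBot_atTop
  have := Complex.abs_re_le_norm (zz η E + Complex.I)
  simp at this
  exact (neg_le_abs E).trans this

theorem integrable_sq_inner {η : ℝ} (hη : 0 < η) (f g : X) :
    Integrable (fun E : ℝ => ⟪f, D (zz η E) (D (zz η E) g)⟫_ℂ) := by
  have hz : ∀ E : ℝ, (zz η E).im ≠ 0 := fun E => by simpa using hη.ne'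
  refine (((hD.integrable_sq hη f).add (hD.integrable_sq hη g)).mono' ?_ ?_)
  · exact (continuous_const.inner (hD.cont_line2 hη.ne' g)).aestronglyMeasurable
  · refine Eventually.of_forall fun E => ?_
    have h1 : ⟪f, D (zz η E) (D (zz η E) g)⟫_ℂ = ⟪D (conj (zz η E)) f, D (zz η E) g⟫_ℂ := by
      rw [hD.adj _ (conj_im_ne (hz E)), Complex.conj_conj]
    rw [h1]
    refine (norm_inner_le_norm _ _).trans ?_
    rw [hD.norm_conj (hz E)]
    simp only [Pi.add_apply]
    nlinarith only [sq_nonneg (‖D (zz η E) f‖ - ‖D (zz η E) g‖), sq_nonneg (‖D (zz η E) f‖),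
      sq_nonneg (‖D (zz η E) g‖)]

theorem integral_sq_inner {η : ℝ} (hη : 0 < η) (f g : X) :
    ∫ E : ℝ, ⟪f, D (zz η E) (D (zz η E) g)⟫_ℂ = 0 := by
  have hd : ∀ E : ℝ, HasDerivAt (fun E : ℝ => ⟪f, D (zz η E) g⟫_ℂ)
      ⟪f, D (zz η E) (D (zz η E) g)⟫_ℂ E := by
    intro E
    have h1 := hD.hasDerivAt_inner (w := zz η E) (by simpa using hη.ne') f g
    have h2 : HasDerivAt (zz η) 1 E := by
      unfold zz
      simpa using (Complex.ofRealCLM.hasDerivAt (x := E)).add_const ((η : ℂ) * Complex.I)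
    have h3 := HasDerivAt.comp_of_eq (h := zz η) (h₂ := fun z => ⟪f, D z g⟫_ℂ) E h1 h2 rfl
    simpa [Function.comp_def] using h3
  have := integral_of_hasDerivAt_of_tendsto hd (hD.integrable_sq_inner hη f g)
    (hD.tendsto_line_zero hη f g (norm_zz_tendsto_bot hD η))
    (hD.tendsto_line_zero hη f g (norm_zz_tendsto_top hD η))
  rw [this, sub_zero]

theorem inner_sq_sq {z : ℂ} (hz : z.im ≠ 0) (f g : X) :
    ⟪D z (D z f), D z (D z g)⟫_ℂ =
      (1 / (4 * z.im ^ 2) : ℝ) * (2 * ⟪D z f, D z g⟫_ℂ - ⟪f, D z (D z g)⟫_ℂ -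
        conj ⟪g, D z (D z f)⟫_ℂ) := by
  have hz' := conj_im_ne hz
  -- `D̄ D = (D - D̄)/(2 i η)`
  have hdiff : ∀ h : X, D z h - D (conj z) h = (2 * z.im * Complex.I) • D (conj z) (D z h) := by
    intro h
    have h1 := hD.ident_apply hz' hz h
    have h2 : conj z - z = -(2 * z.im * Complex.I) := by
      apply Complex.ext <;> simp
      ring
    rw [h2, neg_smul] at h1
    rw [← neg_inj, neg_sub, h1]
  have hc : (2 * (z.im : ℂ) * Complex.I) ≠ 0 := by
    have : (z.im : ℂ) ≠ 0 := by exact_mod_cast hz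
    simp [this]
  have hinv : ∀ h : X, D (conj z) (D z h) = (2 * z.im * Complex.I)⁻¹ • (D z h - D (conj z) h) := by
    intro h
    rw [hdiff, smul_smul, inv_mul_cancel₀ hc, one_smul]
  have h1 : ⟪D z (D z f), D z (D z g)⟫_ℂ = ⟪f, D (conj z) (D z (D (conj z) (D z g)))⟫_ℂ := by
    rw [hD.adj z hz, hD.adj z hz, hD.comm_apply hz' hz (D z g)]
  rw [h1, hinv, hinv]
  simp only [map_sub, map_smul, inner_smul_right, inner_sub_right]
  have h2 : ⟪f, D z (D (conj z) g)⟫_ℂ = ⟪D z f, D z g⟫_ℂ := by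
    rw [hD.adj z hz, hD.comm_apply hz hz']
  have h3 : ⟪f, D (conj z) (D z g)⟫_ℂ = ⟪D z f, D z g⟫_ℂ := by
    rw [hD.adj z hz]
  have h4 : ⟪f, D (conj z) (D (conj z) g)⟫_ℂ = conj ⟪g, D z (D z f)⟫_ℂ := by
    rw [inner_conj_symm, hD.adj z hz, hD.adj z hz]
  rw [h2, h3, h4]
  have h5 : (2 * (z.im : ℂ) * Complex.I)⁻¹ * (2 * (z.im : ℂ) * Complex.I)⁻¹ =
      -((1 / (4 * z.im ^ 2) : ℝ) : ℂ) := by
    have : (z.im : ℂ) ≠ 0 := by exact_mod_cast hz
    push_cast
    field_simp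
    rw [Complex.I_sq]
    ring
  calc _ = ((2 * (z.im : ℂ) * Complex.I)⁻¹ * (2 * (z.im : ℂ) * Complex.I)⁻¹) *
      (⟪f, D z (D z g)⟫_ℂ - ⟪D z f, D z g⟫_ℂ - (⟪D z f, D z g⟫_ℂ - conj ⟪g, D z (D z f)⟫_ℂ)) := by
        ring
    _ = _ := by rw [h5]; ring

theorem integrable_sq_sq {η : ℝ} (hη : 0 < η) (f g : X) :
    Integrable (fun E : ℝ => ⟪D (zz η E) (D (zz η E) f), D (zz η E) (D (zz η E) g)⟫_ℂ) := by
  have e : ∀ E : ℝ, ⟪D (zz η E) (D (zz η E) f), D (zz η E) (D (zz η E) g)⟫_ℂ =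
      (1 / (4 * η ^ 2) : ℝ) * (2 * ⟪D (zz η E) f, D (zz η E) g⟫_ℂ -
        ⟪f, D (zz η E) (D (zz η E) g)⟫_ℂ - conj ⟪g, D (zz η E) (D (zz η E) f)⟫_ℂ) := by
    intro E
    have := hD.inner_sq_sq (z := zz η E) (by simpa using hη.ne') f g
    rwa [zz_im] at this
  refine Integrable.congr ?_ (Eventually.of_forall fun E => (e E).symm)
  refine Integrable.const_mul ?_ _
  refine (((hD.integrable_inner hη f g).const_mul 2).sub (hD.integrable_sq_inner hη f g)).sub ?_
  exact (LinearIsometryEquiv.integrable_comp_iff Complex.conjLIE).2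
    (hD.integrable_sq_inner hη g f)

theorem integral_sq_sq {η : ℝ} (hη : 0 < η) (f g : X) :
    ∫ E : ℝ, ⟪D (zz η E) (D (zz η E) f), D (zz η E) (D (zz η E) g)⟫_ℂ =
      (Real.pi / (2 * η ^ 3) : ℝ) * ⟪f, g⟫_ℂ := by
  have e : ∀ E : ℝ, ⟪D (zz η E) (D (zz η E) f), D (zz η E) (D (zz η E) g)⟫_ℂ =
      (1 / (4 * η ^ 2) : ℝ) * (2 * ⟪D (zz η E) f, D (zz η E) g⟫_ℂ -
        ⟪f, D (zz η E) (D (zz η E) g)⟫_ℂ - conj ⟪g, D (zz η E) (D (zz η E) f)⟫_ℂ) := by
    intro E
    have := hD.inner_sq_sq (z := zz η E) (by simpa using hη.ne') f g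
    rwa [zz_im] at this
  have hconj : Integrable fun E : ℝ => conj ⟪g, D (zz η E) (D (zz η E) f)⟫_ℂ :=
    (LinearIsometryEquiv.integrable_comp_iff Complex.conjLIE).2 (hD.integrable_sq_inner hη g f)
  have h2 : Integrable fun E : ℝ => 2 * ⟪D (zz η E) f, D (zz η E) g⟫_ℂ -
      ⟪f, D (zz η E) (D (zz η E) g)⟫_ℂ :=
    ((hD.integrable_inner hη f g).const_mul 2).sub (hD.integrable_sq_inner hη f g)
  rw [integral_congr_ae (Eventually.of_forall e), integral_const_mul, integral_sub h2 hconj,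
    integral_sub ((hD.integrable_inner hη f g).const_mul 2) (hD.integrable_sq_inner hη f g),
    integral_const_mul, hD.integral_inner hη, hD.integral_sq_inner hη, integral_conj,
    hD.integral_sq_inner hη, map_zero]
  have : (η : ℂ) ≠ 0 := by exact_mod_cast hη.ne'
  push_cast
  field_simp
  ring

/-- bound for the quadratic form of `D²` -/
theorem norm_sq_sq_le {z : ℂ} (hz : z.im ≠ 0) (f : X) :
    ‖D z (D z f)‖ ^ 2 ≤ (z.im ^ 2)⁻¹ * ‖D z f‖ ^ 2 := by
  have h := hD.norm_le' hz (D z f)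
  calc ‖D z (D z f)‖ ^ 2 ≤ (|z.im|⁻¹ * ‖D z f‖) ^ 2 := by gcongr
    _ = _ := by rw [mul_pow, inv_pow, sq_abs]

end IsRes

end Pool.Agent.Helper54.Bal
end
end -- Pool.Agent.Helper54_Ballistic.Planch
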