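import Mathlib

/-!
# Merged copies (generated) of the modules

* `Pool.Agent.Helper48_Loc.Gauss`
* `Pool.Agent.Helper48_Loc.GMom`
* `Pool.Agent.Helper48_Loc.Diag`
* `Pool.Agent.Helper48_Loc.MatrixIBP`
* `Pool.Agent.Helper48_Loc.Scal`
* `Pool.Agent.Helper48_Loc.Terms`
* `Pool.Agent.Helper48_Loc.QFacts`
* `Pool.Agent.Helper48_Loc.Core`
* `Pool.Agent.Helper48_Loc.MomentBound`
-/

set_option autoImplicit false

section -- Pool.Agent.Helper48_Loc.Gauss

/-!
# Gaussian integration by parts for polynomially bounded functions of finitely many variables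
-/

set_option autoImplicit false
set_option linter.unusedSectionVars false

open MeasureTheory ProbabilityTheory Function Filter

open scoped ENNReal BigOperators Topology NNReal

noncomputable section

namespace Pool.Agent.Loc

/-- the standard Gaussian measure on the line -/
abbrev γ1 : Measure ℝ := gaussianReal 0 1

/-! ### one variable -/

theorem integrable_poly_gauss (m : ℕ) : Integrable (fun t : ℝ => (1 + |t|) ^ m) γ1 := by
  have h1 : MemLp (fun t : ℝ => 1 + |t|) m γ1 := by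
    apply MemLp.add
    · exact memLp_const 1
    · exact (memLp_id_gaussianReal' m (by simp)).norm
  have h2 := h1.integrable_norm_pow'
  refine h2.congr (ae_of_all _ fun t => ?_)
  beta_reduce
  rw [Real.norm_eq_abs, abs_of_nonneg (by positivity)]

theorem integrable_of_poly {f : ℝ → ℝ} (hf : Continuous f) {C : ℝ} {m : ℕ}
    (hb : ∀ t, |f t| ≤ C * (1 + |t|) ^ m) : Integrable f γ1 := by
  refine ((integrable_poly_gauss m).const_mul C).mono' hf.aestronglyMeasurable
    (ae_of_all _ fun t => ?_)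
  rw [Real.norm_eq_abs]
  exact hb t

theorem integrable_pdf_mul {f : ℝ → ℝ} (hf : Integrable f γ1) :
    Integrable (fun t => gaussianPDFReal 0 1 t * f t) := by
  rw [γ1, gaussianReal_of_var_ne_zero _ one_ne_zero] at hf
  rw [integrable_withDensity_iff_integrable_smul' (measurable_gaussianPDF 0 1)
    (ae_of_all _ fun t => ENNReal.ofReal_lt_top)] at hf
  refine hf.congr (ae_of_all _ fun t => ?_)
  simp only [smul_eq_mul]
  congr 1
  rw [gaussianPDF, ENNReal.toReal_ofReal (gaussianPDFReal_nonneg 0 1 t)]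

theorem hasDerivAt_pdf (t : ℝ) :
    HasDerivAt (gaussianPDFReal 0 1) (-t * gaussianPDFReal 0 1 t) t := by
  have h1 : gaussianPDFReal 0 1 = fun t => (√(2 * Real.pi))⁻¹ * Real.exp (-t ^ 2 / 2) := by
    funext t
    simp [gaussianPDFReal]
  rw [h1]
  have h2 : HasDerivAt (fun t : ℝ => -t ^ 2 / 2) (-t) t := by
    have := ((hasDerivAt_id t).pow 2).neg.div_const 2
    convert! this using 1
    simp
    ring
  have h3 := (h2.exp).const_mul ((√(2 * Real.pi))⁻¹)
  convert! h3 using 1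
  ring

/-- Gaussian integration by parts in one variable -/
theorem stein1 {f f' : ℝ → ℝ} (hf : ∀ t, HasDerivAt f (f' t) t) (hf' : Continuous f')
    {C : ℝ} {m : ℕ} (hb : ∀ t, |f t| ≤ C * (1 + |t|) ^ m)
    (hb' : ∀ t, |f' t| ≤ C * (1 + |t|) ^ m) :
    ∫ t, t * f t ∂γ1 = ∫ t, f' t ∂γ1 := by
  have hfc : Continuous f := continuous_iff_continuousAt.2 fun t => (hf t).continuousAt
  have i1 : Integrable f γ1 := integrable_of_poly hfc hb
  have i2 : Integrable f' γ1 := integrable_of_poly hf' hb'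
  have i3 : Integrable (fun t => t * f t) γ1 := by
    refine integrable_of_poly (by fun_prop) (C := C) (m := m + 1) fun t => ?_
    rw [abs_mul, pow_succ]
    calc |t| * |f t| ≤ (1 + |t|) * (C * (1 + |t|) ^ m) := by
          apply mul_le_mul (by linarith) (hb t) (abs_nonneg _) (by positivity)
      _ = _ := by ring
  have j1 := integrable_pdf_mul i1
  have j2 := integrable_pdf_mul i2
  have j3 := integrable_pdf_mul i3
  rw [integral_gaussianReal_eq_integral_smul one_ne_zero,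
    integral_gaussianReal_eq_integral_smul one_ne_zero]
  simp only [smul_eq_mul]
  have h := integral_mul_deriv_eq_deriv_mul_of_integrable (u := f) (u' := f')
    (v := gaussianPDFReal 0 1) (v' := fun t => -t * gaussianPDFReal 0 1 t)
    (fun x _ => hf x) (fun x _ => hasDerivAt_pdf x) ?_ ?_ ?_
  · have e1 : ∫ t, f t * (-t * gaussianPDFReal 0 1 t) = - ∫ t, gaussianPDFReal 0 1 t * (t * f t) := by
      rw [← integral_neg]
      congr 1
      funext t
      ring
    have e2 : ∫ t, f' t * gaussianPDFReal 0 1 t = ∫ t, gaussianPDFReal 0 1 t * f' t := by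
      congr 1
      funext t
      ring
    rw [e1, e2] at h
    linarith
  · refine j3.neg.congr (ae_of_all _ fun t => ?_)
    simp only [Pi.neg_apply, Pi.mul_apply]
    ring
  · refine j2.congr (ae_of_all _ fun t => ?_)
    simp only [Pi.mul_apply]
    ring
  · refine j1.congr (ae_of_all _ fun t => ?_)
    simp only [Pi.mul_apply]
    ring

/-! ### several variables -/

section Multi

variable {n : Type*} [Fintype n] [DecidableEq n]

/-- the standard Gaussian measure on `ℝ^n` -/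
abbrev γn (n : Type*) [Fintype n] : Measure (n → ℝ) := Measure.pi fun _ : n => γ1

/-- continuous functions of at most polynomial growth -/
def PB (F : (n → ℝ) → ℝ) : Prop :=
  Continuous F ∧ ∃ (C : ℝ) (m : ℕ), 0 ≤ C ∧ ∀ ξ, |F ξ| ≤ C * ∏ x, (1 + |ξ x|) ^ m

theorem one_le_prod (m : ℕ) (ξ : n → ℝ) : 1 ≤ ∏ x, (1 + |ξ x|) ^ m := by
  calc (1:ℝ) = ∏ _x : n, 1 := by simp
    _ ≤ _ := by
        apply Finset.prod_le_prod
        · intro x _; exact zero_le_one
        · intro x _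
          exact one_le_pow₀ (by linarith [abs_nonneg (ξ x)])

theorem prod_mono {m m' : ℕ} (h : m ≤ m') (ξ : n → ℝ) :
    ∏ x, (1 + |ξ x|) ^ m ≤ ∏ x, (1 + |ξ x|) ^ m' := by
  apply Finset.prod_le_prod
  · intro x _; positivity
  · intro x _
    exact pow_le_pow_right₀ (by linarith [abs_nonneg (ξ x)]) h

theorem PB.const (c : ℝ) : PB (fun _ : n → ℝ => c) := by
  refine ⟨continuous_const, |c|, 0, abs_nonneg _, fun ξ => ?_⟩
  simp

theorem PB.coord (x : n) : PB (fun ξ : n → ℝ => ξ x) := by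
  refine ⟨continuous_apply x, 1, 1, zero_le_one, fun ξ => ?_⟩
  simp only [pow_one, one_mul]
  have h1 : |ξ x| ≤ 1 + |ξ x| := by linarith
  refine h1.trans ?_
  rw [← Finset.mul_prod_erase _ _ (Finset.mem_univ x)]
  have h2 : 1 ≤ ∏ y ∈ Finset.univ.erase x, (1 + |ξ y|) := by
    calc (1:ℝ) = ∏ _y ∈ Finset.univ.erase x, 1 := by simp
      _ ≤ _ := by
          apply Finset.prod_le_prod
          · intro y _; exact zero_le_one
          · intro y _
            linarith [abs_nonneg (ξ y)]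
  have h3 : 0 ≤ 1 + |ξ x| := by positivity
  nlinarith

theorem PB.add {F G : (n → ℝ) → ℝ} (hF : PB F) (hG : PB G) : PB (fun ξ => F ξ + G ξ) := by
  obtain ⟨hFc, C, m, hC, hF⟩ := hF
  obtain ⟨hGc, C', m', hC', hG⟩ := hG
  refine ⟨hFc.add hGc, C + C', max m m', by positivity, fun ξ => ?_⟩
  have h1 := prod_mono (le_max_left m m') ξ
  have h2 := prod_mono (le_max_right m m') ξ
  calc |F ξ + G ξ| ≤ |F ξ| + |G ξ| := abs_add_le _ _
    _ ≤ C * ∏ x, (1 + |ξ x|) ^ m + C' * ∏ x, (1 + |ξ x|) ^ m' := add_le_add (hF ξ) (hG ξ)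
    _ ≤ C * ∏ x, (1 + |ξ x|) ^ (max m m') + C' * ∏ x, (1 + |ξ x|) ^ (max m m') := by gcongr
    _ = _ := by ring

theorem PB.mul {F G : (n → ℝ) → ℝ} (hF : PB F) (hG : PB G) : PB (fun ξ => F ξ * G ξ) := by
  obtain ⟨hFc, C, m, hC, hF⟩ := hF
  obtain ⟨hGc, C', m', hC', hG⟩ := hG
  refine ⟨hFc.mul hGc, C * C', m + m', by positivity, fun ξ => ?_⟩
  rw [abs_mul]
  calc |F ξ| * |G ξ| ≤ (C * ∏ x, (1 + |ξ x|) ^ m) * (C' * ∏ x, (1 + |ξ x|) ^ m') :=
        mul_le_mul (hF ξ) (hG ξ) (abs_nonneg _) (by positivity)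
    _ = C * C' * ((∏ x, (1 + |ξ x|) ^ m) * ∏ x, (1 + |ξ x|) ^ m') := by ring
    _ = _ := by
        rw [← Finset.prod_mul_distrib]
        congr 1
        apply Finset.prod_congr rfl
        intro x _
        rw [pow_add]

theorem PB.const_mul {F : (n → ℝ) → ℝ} (c : ℝ) (hF : PB F) : PB (fun ξ => c * F ξ) :=
  (PB.const c).mul hF

theorem PB.neg {F : (n → ℝ) → ℝ} (hF : PB F) : PB (fun ξ => - F ξ) := by
  have := hF.const_mul (-1)
  simpa using this

theorem PB.sub {F G : (n → ℝ) → ℝ} (hF : PB F) (hG : PB G) : PB (fun ξ => F ξ - G ξ) := by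
  have := hF.add hG.neg
  simpa [sub_eq_add_neg] using this

theorem PB.pow {F : (n → ℝ) → ℝ} (hF : PB F) (k : ℕ) : PB (fun ξ => F ξ ^ k) := by
  induction k with
  | zero => simpa using PB.const 1
  | succ k ih =>
    have := ih.mul hF
    simpa [pow_succ] using this

theorem PB.abs {F : (n → ℝ) → ℝ} (hF : PB F) : PB (fun ξ => |F ξ|) := by
  obtain ⟨hFc, C, m, hC, hF⟩ := hF
  exact ⟨hFc.abs, C, m, hC, fun ξ => by rw [abs_abs]; exact hF ξ⟩

theorem PB.sum {ι : Type*} (s : Finset ι) {F : ι → (n → ℝ) → ℝ} (hF : ∀ i ∈ s, PB (F i)) :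
    PB (fun ξ => ∑ i ∈ s, F i ξ) := by
  classical
  induction s using Finset.induction with
  | empty => simpa using PB.const 0
  | insert a s ha ih =>
    have h1 := (hF a (Finset.mem_insert_self a s)).add
      (ih fun i hi => hF i (Finset.mem_insert_of_mem hi))
    simpa [Finset.sum_insert ha] using h1

theorem PB.integrable {F : (n → ℝ) → ℝ} (hF : PB F) : Integrable F (γn n) := by
  obtain ⟨hFc, C, m, hC, hF⟩ := hF
  have h1 : Integrable (fun ξ : n → ℝ => ∏ x, (1 + |ξ x|) ^ m) (γn n) :=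
    Integrable.fintype_prod fun _ => integrable_poly_gauss m
  refine (h1.const_mul C).mono' hFc.aestronglyMeasurable (ae_of_all _ fun ξ => ?_)
  rw [Real.norm_eq_abs]
  exact hF ξ

/-- resampling one coordinate preserves a product measure -/
theorem resample {ν : Measure ℝ} [IsProbabilityMeasure ν] (x : n) :
    MeasurePreserving (fun z : (n → ℝ) × ℝ => update z.1 x z.2)
      ((Measure.pi fun _ : n => ν).prod ν) (Measure.pi fun _ : n => ν) := by
  have hm : Measurable (fun z : (n → ℝ) × ℝ => update z.1 x z.2) := by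
    rw [measurable_pi_iff]
    intro w
    by_cases h1 : w = x
    · subst h1; simp only [update_self]; exact measurable_snd
    · simp only [update_of_ne h1]
      exact (measurable_pi_apply w).comp measurable_fst
  refine ⟨hm, ?_⟩
  symm
  apply Measure.pi_eq
  intro s hs
  rw [Measure.map_apply hm (MeasurableSet.univ_pi hs)]
  have h1 : (fun z : (n → ℝ) × ℝ => update z.1 x z.2) ⁻¹' (Set.univ.pi s) =
      (Set.univ.pi (update s x Set.univ)) ×ˢ (s x) := by
    ext z
    simp only [Set.mem_preimage, Set.mem_pi, Set.mem_univ, true_imp_iff, Set.mem_prod]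
    constructor
    · intro h
      refine ⟨fun i => ?_, ?_⟩
      · by_cases hi : i = x
        · subst hi; simp
        · have := h i
          rw [update_of_ne hi] at this
          rw [update_of_ne hi]
          exact this
      · have := h x
        rwa [update_self] at this
    · rintro ⟨h, h'⟩ i
      by_cases hi : i = x
      · subst hi; rwa [update_self]
      · have := h i
        rw [update_of_ne hi] at this
        rw [update_of_ne hi]
        exact this
  rw [h1, Measure.prod_prod, Measure.pi_pi]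
  rw [← Finset.mul_prod_erase _ _ (Finset.mem_univ x), update_self, measure_univ, one_mul,
    ← Finset.mul_prod_erase _ (fun i => ν (s i)) (Finset.mem_univ x), mul_comm]
  congr 1
  apply Finset.prod_congr rfl
  intro i hi
  rw [update_of_ne (Finset.ne_of_mem_erase hi)]

theorem PB.slice {F : (n → ℝ) → ℝ} (hF : PB F) (x : n) (ξ : n → ℝ) :
    ∃ (C : ℝ) (m : ℕ), ∀ t, |F (update ξ x t)| ≤ C * (1 + |t|) ^ m := by
  obtain ⟨hFc, C, m, hC, hF⟩ := hF
  refine ⟨C * ∏ y ∈ Finset.univ.erase x, (1 + |ξ y|) ^ m, m, fun t => ?_⟩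
  refine (hF _).trans (le_of_eq ?_)
  rw [← Finset.mul_prod_erase _ _ (Finset.mem_univ x), update_self]
  have : ∏ y ∈ Finset.univ.erase x, (1 + |update ξ x t y|) ^ m =
      ∏ y ∈ Finset.univ.erase x, (1 + |ξ y|) ^ m := by
    apply Finset.prod_congr rfl
    intro i hi
    rw [update_of_ne (Finset.ne_of_mem_erase hi)]
  rw [this]
  ring

/-- Gaussian integration by parts in several variables -/
theorem stein {F F' : (n → ℝ) → ℝ} (hF : PB F) (hF' : PB F') (x : n)
    (hd : ∀ ξ, HasDerivAt (fun t => F (update ξ x t)) (F' ξ) (ξ x)) :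
    ∫ ξ, ξ x * F ξ ∂(γn n) = ∫ ξ, F' ξ ∂(γn n) := by
  have hmp := resample (n := n) (ν := γ1) x
  have e1 : ∀ G : (n → ℝ) → ℝ, PB G → ∫ ξ, G ξ ∂(γn n) =
      ∫ ξ, ∫ t, G (update ξ x t) ∂γ1 ∂(γn n) := by
    intro G hG
    have hint := hG.integrable
    have h1 : Integrable (fun z : (n → ℝ) × ℝ => G (update z.1 x z.2)) ((γn n).prod γ1) :=
      hmp.integrable_comp_of_integrable hint
    rw [← integral_prod (fun z : (n → ℝ) × ℝ => G (update z.1 x z.2)) h1]
    have h2 := hmp.map_eq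
    conv_lhs => rw [γn, ← h2]
    rw [integral_map hmp.measurable.aemeasurable]
    rw [h2]
    exact hG.1.aestronglyMeasurable
  rw [e1 _ ((PB.coord x).mul hF), e1 _ hF']
  congr 1
  funext ξ
  simp only [update_self]
  obtain ⟨C, m, hC⟩ := hF.slice x ξ
  obtain ⟨C', m', hC'⟩ := hF'.slice x ξ
  have hu : Continuous fun t : ℝ => update ξ x t := continuous_const.update x continuous_id
  have hC0 : 0 ≤ C := by
    have := (abs_nonneg _).trans (hC 0)
    simpa using this
  have hC0' : 0 ≤ C' := by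
    have := (abs_nonneg _).trans (hC' 0)
    simpa using this
  refine stein1 (C := C + C') (m := max m m') (fun t => ?_) (hF'.1.comp hu) (fun t => ?_)
    (fun t => ?_)
  · have := hd (update ξ x t)
    simp only [update_idem, update_self] at this
    exact this
  · have h1 : (1 + |t|) ^ m ≤ (1 + |t|) ^ (max m m') :=
      pow_le_pow_right₀ (by linarith [abs_nonneg t]) (le_max_left _ _)
    calc _ ≤ C * (1 + |t|) ^ m := hC t
      _ ≤ (C + C') * (1 + |t|) ^ (max m m') := by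
          apply mul_le_mul (by linarith) h1 (by positivity) (by positivity)
  · have h1 : (1 + |t|) ^ m' ≤ (1 + |t|) ^ (max m m') :=
      pow_le_pow_right₀ (by linarith [abs_nonneg t]) (le_max_right _ _)
    calc _ ≤ C' * (1 + |t|) ^ m' := hC' t
      _ ≤ (C + C') * (1 + |t|) ^ (max m m') := by
          apply mul_le_mul (by linarith) h1 (by positivity) (by positivity)

end Multi

end Pool.Agent.Loc
end
end -- Pool.Agent.Helper48_Loc.Gauss

section -- Pool.Agent.Helper48_Loc.GMom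

/-!
# Moments of linear and quadratic forms of Gaussians
-/

set_option autoImplicit false
set_option linter.unusedSectionVars false

open MeasureTheory ProbabilityTheory Function Filter

open scoped ENNReal BigOperators Topology NNReal

noncomputable section

namespace Pool.Agent.Loc

variable {n : Type*} [Fintype n] [DecidableEq n]

theorem integral_exp_lin (β : n → ℝ) :
    ∫ ξ, Real.exp (∑ y, β y * ξ y) ∂(γn n) = Real.exp ((∑ y, β y ^ 2) / 2) := by
  have h1 : ∀ ξ : n → ℝ, Real.exp (∑ y, β y * ξ y) = ∏ y, Real.exp (β y * ξ y) := fun ξ =>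
    Real.exp_sum _ _
  simp_rw [h1]
  rw [integral_fintype_prod_eq_prod (f := fun y t => Real.exp (β y * t)), Finset.sum_div,
    Real.exp_sum]
  apply Finset.prod_congr rfl
  intro y _
  have h2 := congrFun (mgf_id_gaussianReal (μ := 0) (v := 1)) (β y)
  unfold mgf at h2
  simp only [id] at h2
  rw [h2]
  simp

theorem integrable_exp_lin (β : n → ℝ) :
    Integrable (fun ξ : n → ℝ => Real.exp (∑ y, β y * ξ y)) (γn n) := by
  have h1 : ∀ ξ : n → ℝ, Real.exp (∑ y, β y * ξ y) = ∏ y, Real.exp (β y * ξ y) := fun ξ =>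
    Real.exp_sum _ _
  simp_rw [h1]
  exact Integrable.fintype_prod (f := fun y t => Real.exp (β y * t)) fun y =>
    integrable_exp_mul_gaussianReal (β y)

theorem PB_lin (β : n → ℝ) : PB (fun ξ : n → ℝ => ∑ y, β y * ξ y) :=
  PB.sum _ fun y _ => (PB.coord y).const_mul (β y)

/-- even moments of a linear form -/
theorem moment_lin (β : n → ℝ) {p : ℕ} (hp : 1 ≤ p) :
    ∫ ξ, (∑ y, β y * ξ y) ^ (2 * p) ∂(γn n) ≤ (4 * Real.exp 1 * p * ∑ y, β y ^ 2) ^ p := by
  set S := ∑ y, β y ^ 2 with hS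
  have hS0 : 0 ≤ S := Finset.sum_nonneg fun _ _ => sq_nonneg _
  have hp0 : (0:ℝ) < p := by exact_mod_cast hp
  rcases hS0.eq_or_lt with h0 | h0
  · have hβ : ∀ y, β y = 0 := by
      intro y
      have := (Finset.sum_eq_zero_iff_of_nonneg fun _ _ => sq_nonneg _).1 h0.symm y (Finset.mem_univ y)
      exact pow_eq_zero_iff (two_ne_zero) |>.1 this
    have h1 : ∀ ξ : n → ℝ, ∑ y, β y * ξ y = 0 := fun ξ => by simp [hβ]
    simp_rw [h1]
    rw [zero_pow (by omega)]
    simp only [integral_zero]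
    positivity
  set t : ℝ := √(2 * p / S) with ht
  have ht0 : 0 < t := Real.sqrt_pos.2 (by positivity)
  have ht2 : t ^ 2 = 2 * p / S := Real.sq_sqrt (by positivity)
  -- pointwise bound
  have hpt : ∀ ξ : n → ℝ, (∑ y, β y * ξ y) ^ (2 * p) ≤ (t ^ (2 * p))⁻¹ * ((2 * p).factorial *
      (Real.exp (∑ y, (t * β y) * ξ y) + Real.exp (∑ y, (-(t * β y)) * ξ y))) := by
    intro ξ
    set z := ∑ y, β y * ξ y with hz
    have e1 : ∑ y, (t * β y) * ξ y = t * z := by
      rw [hz, Finset.mul_sum]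
      apply Finset.sum_congr rfl
      intro y _
      ring
    have e2 : ∑ y, (-(t * β y)) * ξ y = -(t * z) := by
      rw [hz, Finset.mul_sum, ← Finset.sum_neg_distrib]
      apply Finset.sum_congr rfl
      intro y _
      ring
    rw [e1, e2]
    have h1 := Real.pow_div_factorial_le_exp (x := |t * z|) (abs_nonneg _) (2 * p)
    have h2 : Real.exp |t * z| ≤ Real.exp (t * z) + Real.exp (-(t * z)) := by
      rcases abs_cases (t * z) with ⟨h, _⟩ | ⟨h, _⟩
      · rw [h]; linarith [Real.exp_pos (-(t * z))]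
      · rw [h]; linarith [Real.exp_pos (t * z)]
    have h3 : |t * z| ^ (2 * p) = t ^ (2 * p) * z ^ (2 * p) := by
      rw [pow_mul, sq_abs, ← pow_mul, mul_pow]
    rw [h3, div_le_iff₀ (by positivity)] at h1
    rw [← div_eq_inv_mul, le_div_iff₀ (by positivity)]
    calc z ^ (2 * p) * t ^ (2 * p) = t ^ (2 * p) * z ^ (2 * p) := mul_comm _ _
      _ ≤ Real.exp |t * z| * (2 * p).factorial := h1
      _ ≤ (Real.exp (t * z) + Real.exp (-(t * z))) * (2 * p).factorial := by gcongr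
      _ = _ := mul_comm _ _
  have hint1 := integrable_exp_lin (fun y => t * β y)
  have hint2 := integrable_exp_lin (fun y => -(t * β y))
  have hPB := ((PB_lin β).pow (2 * p)).integrable
  refine (integral_mono hPB (((hint1.add hint2).const_mul _).const_mul _) hpt).trans ?_
  rw [integral_const_mul, integral_const_mul]
  have e3 : ∫ ξ, ((fun ξ : n → ℝ => Real.exp (∑ y, (t * β y) * ξ y)) +
      fun ξ : n → ℝ => Real.exp (∑ y, (-(t * β y)) * ξ y)) ξ ∂(γn n) = 2 * Real.exp p := by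
    simp only [Pi.add_apply]
    rw [integral_add hint1 hint2, integral_exp_lin, integral_exp_lin]
    have e4 : ∑ y, (t * β y) ^ 2 = 2 * p := by
      simp_rw [mul_pow]
      rw [← Finset.mul_sum, ht2, ← hS]
      field_simp
    have e5 : ∑ y, (-(t * β y)) ^ 2 = 2 * p := by
      simp_rw [neg_sq]; exact e4
    rw [e4, e5]
    have : (2 * (p:ℝ)) / 2 = p := by ring
    rw [this]
    ring
  rw [e3]
  have hfac : ((2 * p).factorial : ℝ) ≤ (2 * p) ^ (2 * p) := by
    exact_mod_cast Nat.factorial_le_pow (2 * p)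
  have ht2p : t ^ (2 * p) = (2 * p / S) ^ p := by rw [pow_mul, ht2]
  rw [ht2p]
  have h2p : (2:ℝ) ≤ 2 ^ p := by
    calc (2:ℝ) = 2 ^ 1 := (pow_one 2).symm
      _ ≤ 2 ^ p := pow_le_pow_right₀ (by norm_num) hp
  have hexp : Real.exp p = Real.exp 1 ^ p := by
    rw [← Real.exp_nat_mul]; simp
  calc ((2 * (p:ℝ) / S) ^ p)⁻¹ * (((2 * p).factorial : ℝ) * (2 * Real.exp p))
      ≤ ((2 * (p:ℝ) / S) ^ p)⁻¹ * ((2 * p) ^ (2 * p) * (2 ^ p * Real.exp p)) := by gcongr
    _ = (4 * Real.exp 1 * p * S) ^ p := by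
        rw [hexp, pow_mul, ← inv_pow, ← mul_pow, ← mul_pow, ← mul_pow]
        congr 1
        field_simp
        ring

/-- moments of a sum of squares of linear forms -/
theorem moment_quad {m : Type*} [Fintype m] (B : m → n → ℝ) {p : ℕ} (hp : 1 ≤ p) :
    ∫ ξ, (∑ w, (∑ y, B w y * ξ y) ^ 2) ^ p ∂(γn n) ≤
      (4 * Real.exp 1 * p * ∑ w, ∑ y, B w y ^ 2) ^ p := by
  set s : m → ℝ := fun w => ∑ y, B w y ^ 2 with hs
  have hs0 : ∀ w, 0 ≤ s w := fun w => Finset.sum_nonneg fun _ _ => sq_nonneg _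
  set S := ∑ w, s w with hS
  have hS0 : 0 ≤ S := Finset.sum_nonneg fun w _ => hs0 w
  have hp0 : (0:ℝ) < p := by exact_mod_cast hp
  have hzero : ∀ w, s w = 0 → ∀ ξ : n → ℝ, ∑ y, B w y * ξ y = 0 := by
    intro w hw ξ
    apply Finset.sum_eq_zero
    intro y _
    have := (Finset.sum_eq_zero_iff_of_nonneg fun _ _ => sq_nonneg _).1 hw y (Finset.mem_univ y)
    rw [pow_eq_zero_iff (two_ne_zero)] at this
    rw [this, zero_mul]
  rcases hS0.eq_or_lt with h0 | h0
  · have hw : ∀ w, s w = 0 := fun w =>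
      (Finset.sum_eq_zero_iff_of_nonneg fun w _ => hs0 w).1 h0.symm w (Finset.mem_univ w)
    have h1 : ∀ ξ : n → ℝ, ∑ w, (∑ y, B w y * ξ y) ^ 2 = 0 := by
      intro ξ
      apply Finset.sum_eq_zero
      intro w _
      rw [hzero w (hw w) ξ]; norm_num
    simp_rw [h1]
    rw [zero_pow (by omega)]
    simp only [integral_zero]
    positivity
  -- weights
  have hpt : ∀ ξ : n → ℝ, (∑ w, (∑ y, B w y * ξ y) ^ 2) ^ p ≤
      ∑ w, (s w / S) * (S / s w) ^ p * (∑ y, B w y * ξ y) ^ (2 * p) := by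
    intro ξ
    have h1 := Real.pow_arith_mean_le_arith_mean_pow Finset.univ (fun w => s w / S)
      (fun w => S / s w * (∑ y, B w y * ξ y) ^ 2)
      (fun w _ => div_nonneg (hs0 w) h0.le) (by rw [← Finset.sum_div]; exact div_self h0.ne')
      (fun w _ => mul_nonneg (div_nonneg h0.le (hs0 w)) (sq_nonneg _)) p
    have e1 : ∑ w, s w / S * (S / s w * (∑ y, B w y * ξ y) ^ 2) =
        ∑ w, (∑ y, B w y * ξ y) ^ 2 := by
      apply Finset.sum_congr rfl
      intro w _
      by_cases hw : s w = 0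
      · rw [hzero w hw ξ]; simp
      · field_simp
    rw [e1] at h1
    refine h1.trans (le_of_eq ?_)
    apply Finset.sum_congr rfl
    intro w _
    rw [mul_pow, ← pow_mul]
    ring
  have hI1 : PB (fun ξ : n → ℝ => (∑ w, (∑ y, B w y * ξ y) ^ 2) ^ p) :=
    (PB.sum _ fun w _ => (PB_lin (B w)).pow 2).pow p
  have hI2 : PB (fun ξ : n → ℝ => ∑ w, (s w / S) * (S / s w) ^ p *
      (∑ y, B w y * ξ y) ^ (2 * p)) :=
    PB.sum _ fun w _ => ((PB_lin (B w)).pow (2 * p)).const_mul _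
  refine (integral_mono hI1.integrable hI2.integrable hpt).trans ?_
  rw [integral_finsetSum _ fun w _ => (((PB_lin (B w)).pow (2 * p)).const_mul _).integrable]
  calc ∑ w, ∫ ξ, (s w / S) * (S / s w) ^ p * (∑ y, B w y * ξ y) ^ (2 * p) ∂(γn n)
      ≤ ∑ w, (s w / S) * (4 * Real.exp 1 * p * S) ^ p := by
        apply Finset.sum_le_sum
        intro w _
        rw [integral_const_mul]
        have h2 := moment_lin (B w) hp
        by_cases hw : s w = 0
        · rw [hw]; simp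
        · have hw' : 0 < s w := lt_of_le_of_ne (hs0 w) (Ne.symm hw)
          calc s w / S * (S / s w) ^ p * ∫ ξ, (∑ y, B w y * ξ y) ^ (2 * p) ∂(γn n)
              ≤ s w / S * (S / s w) ^ p * (4 * Real.exp 1 * p * s w) ^ p := by gcongr
            _ = s w / S * ((S / s w) * (4 * Real.exp 1 * p * s w)) ^ p := by rw [mul_pow]; ring
            _ = _ := by
                congr 2
                field_simp
    _ = (4 * Real.exp 1 * p * S) ^ p := by
        rw [← Finset.sum_mul, ← Finset.sum_div, ← hS, div_self h0.ne', one_mul]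

end Pool.Agent.Loc
end
end -- Pool.Agent.Helper48_Loc.GMom

section -- Pool.Agent.Helper48_Loc.Diag

/-!
# Diagonalization of real symmetric matrices: what is needed
-/

set_option autoImplicit false
set_option linter.unusedSectionVars false

open scoped BigOperators

noncomputable section

namespace Pool.Agent.Loc

variable {n : Type*} [Fintype n] [DecidableEq n]

theorem pow_of_diag {A U : Matrix n n ℝ} {lam : n → ℝ} (h2 : U.transpose * U = 1)
    (h3 : U * U.transpose = 1) (h1 : A = U * Matrix.diagonal lam * U.transpose) (m : ℕ) :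
    A ^ m = U * Matrix.diagonal (fun l => lam l ^ m) * U.transpose := by
  induction m with
  | zero => simp [h3]
  | succ m ih =>
    rw [pow_succ, ih, h1]
    rw [show U * Matrix.diagonal (fun l => lam l ^ m) * U.transpose *
      (U * Matrix.diagonal lam * U.transpose) =
      U * Matrix.diagonal (fun l => lam l ^ m) * (U.transpose * U) *
        Matrix.diagonal lam * U.transpose by simp only [mul_assoc], h2, mul_one,
      mul_assoc U, Matrix.diagonal_mul_diagonal]
    simp only [pow_succ]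

theorem exists_diag_real {A : Matrix n n ℝ} (hA : A.transpose = A) :
    ∃ (U : Matrix n n ℝ) (lam : n → ℝ), U.transpose * U = 1 ∧ U * U.transpose = 1 ∧
      ∀ m : ℕ, A ^ m = U * Matrix.diagonal (fun l => lam l ^ m) * U.transpose := by
  have hH : A.IsHermitian := by
    unfold Matrix.IsHermitian
    rw [Matrix.conjTranspose_eq_transpose_of_trivial, hA]
  have h2 : (hH.eigenvectorUnitary : Matrix n n ℝ).transpose *
      (hH.eigenvectorUnitary : Matrix n n ℝ) = 1 := by
    have := Unitary.coe_star_mul_self hH.eigenvectorUnitary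
    rwa [Matrix.star_eq_conjTranspose, Matrix.conjTranspose_eq_transpose_of_trivial] at this
  have h3 : (hH.eigenvectorUnitary : Matrix n n ℝ) *
      (hH.eigenvectorUnitary : Matrix n n ℝ).transpose = 1 := mul_eq_one_comm.1 h2
  have h1 : A = (hH.eigenvectorUnitary : Matrix n n ℝ) * Matrix.diagonal hH.eigenvalues *
      (hH.eigenvectorUnitary : Matrix n n ℝ).transpose := by
    have := hH.spectral_theorem
    rw [Unitary.conjStarAlgAut_apply, Matrix.star_eq_conjTranspose,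
      Matrix.conjTranspose_eq_transpose_of_trivial] at this
    simpa using this
  exact ⟨_, _, h2, h3, pow_of_diag h2 h3 h1⟩

/-- `(Xᵀ diag(lam^m) Y)` entries -/
theorem form_diag (U X Y : Matrix n n ℝ) (w : n → ℝ) (x y : n) :
    (X.transpose * (U * Matrix.diagonal w * U.transpose) * Y) x y =
      ∑ l, (U.transpose * X) l x * (U.transpose * Y) l y * w l := by
  have h1 : X.transpose * (U * Matrix.diagonal w * U.transpose) * Y =
      (U.transpose * X).transpose * Matrix.diagonal w * (U.transpose * Y) := by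
    rw [Matrix.transpose_mul, Matrix.transpose_transpose]
    simp only [mul_assoc]
  rw [h1, Matrix.mul_apply]
  apply Finset.sum_congr rfl
  intro l _
  rw [Matrix.mul_diagonal, Matrix.transpose_apply]
  ring

theorem trace_diag {U : Matrix n n ℝ} (hU : U.transpose * U = 1) (w : n → ℝ) :
    (U * Matrix.diagonal w * U.transpose).trace = ∑ l, w l := by
  rw [Matrix.trace_mul_comm, ← mul_assoc, hU, one_mul, Matrix.trace_diagonal]

/-- sums over the spectral index -/
theorem sum_l {U : Matrix n n ℝ} (hU : U * U.transpose = 1) (X : Matrix n n ℝ) (x : n) :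
    ∑ l, (U.transpose * X) l x ^ 2 = (X.transpose * X) x x := by
  have h1 : X.transpose * X = (U.transpose * X).transpose * (U.transpose * X) := by
    rw [Matrix.transpose_mul, Matrix.transpose_transpose, mul_assoc, ← mul_assoc U, hU, one_mul]
  rw [h1, Matrix.mul_apply]
  apply Finset.sum_congr rfl
  intro l _
  rw [Matrix.transpose_apply]
  ring

/-- sums over the sites -/
theorem sum_x (U X : Matrix n n ℝ) (l : n) :
    ∑ x, (U.transpose * X) l x ^ 2 = (U.transpose * (X * X.transpose) * U) l l := by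
  have h1 : U.transpose * (X * X.transpose) * U = (U.transpose * X) * (U.transpose * X).transpose := by
    rw [Matrix.transpose_mul, Matrix.transpose_transpose]
    simp only [mul_assoc]
  rw [h1, Matrix.mul_apply]
  apply Finset.sum_congr rfl
  intro x _
  rw [Matrix.transpose_apply]
  ring

/-- matrix elements in terms of columns -/
theorem col_form (U A : Matrix n n ℝ) (l : n) :
    (U.transpose * A * U) l l = (fun i => U i l) ⬝ᵥ A.mulVec (fun i => U i l) := by
  rw [mul_assoc, Matrix.mul_apply]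
  apply Finset.sum_congr rfl
  intro i _
  rw [Matrix.transpose_apply, Matrix.mul_apply]
  rfl

theorem col_norm {U : Matrix n n ℝ} (hU : U.transpose * U = 1) (l : n) :
    (fun i => U i l) ⬝ᵥ (fun i => U i l) = 1 := by
  have := congrFun (congrFun hU l) l
  rw [Matrix.mul_apply, Matrix.one_apply_eq] at this
  exact this

end Pool.Agent.Loc
end
end -- Pool.Agent.Helper48_Loc.Diag

section -- Pool.Agent.Helper48_Loc.MatrixIBP

/-!
# Integration by parts for traces of powers of `C diag(σ ξ) C`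
-/

set_option autoImplicit false
set_option linter.unusedSectionVars false

open MeasureTheory ProbabilityTheory Function Filter

open scoped ENNReal BigOperators Topology NNReal

noncomputable section

namespace Pool.Agent.Loc

variable {n : Type*} [Fintype n] [DecidableEq n]

/-- `M(ξ) = C diag(σ ξ) C` -/
def MM (C : Matrix n n ℝ) (σ : ℝ) (ξ : n → ℝ) : Matrix n n ℝ :=
  C * Matrix.diagonal (fun x => σ * ξ x) * C

theorem MM_apply (C : Matrix n n ℝ) (σ : ℝ) (ξ : n → ℝ) (i k : n) :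
    MM C σ ξ i k = ∑ x, C i x * (σ * ξ x) * C x k := by
  unfold MM
  rw [Matrix.mul_apply]
  apply Finset.sum_congr rfl
  intro x _
  rw [Matrix.mul_diagonal]

theorem MM_symm {C : Matrix n n ℝ} (hC : C.transpose = C) (σ : ℝ) (ξ : n → ℝ) :
    (MM C σ ξ).transpose = MM C σ ξ := by
  unfold MM
  rw [Matrix.transpose_mul, Matrix.transpose_mul, Matrix.diagonal_transpose, hC, mul_assoc]

theorem PB_MM (C : Matrix n n ℝ) (σ : ℝ) (i k : n) : PB (fun ξ : n → ℝ => MM C σ ξ i k) := by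
  simp_rw [MM_apply]
  apply PB.sum
  intro x _
  have h := (((PB.const (C i x)).mul ((PB.const σ).mul (PB.coord x))).mul (PB.const (C x k)))
  exact h

/-- matrices of functions of polynomial growth -/
def PBM (F : (n → ℝ) → Matrix n n ℝ) : Prop := ∀ i k, PB (fun ξ => F ξ i k)

theorem PBM.const (A : Matrix n n ℝ) : PBM (fun _ : n → ℝ => A) := fun i k => PB.const (A i k)

theorem PBM.mul {F G : (n → ℝ) → Matrix n n ℝ} (hF : PBM F) (hG : PBM G) :
    PBM (fun ξ => F ξ * G ξ) := by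
  intro i k
  simp_rw [Matrix.mul_apply]
  exact PB.sum _ fun j _ => (hF i j).mul (hG j k)

theorem PBM.pow {F : (n → ℝ) → Matrix n n ℝ} (hF : PBM F) (m : ℕ) : PBM (fun ξ => F ξ ^ m) := by
  induction m with
  | zero => simpa using PBM.const (1 : Matrix n n ℝ)
  | succ m ih =>
    simp_rw [pow_succ]
    exact ih.mul hF

theorem PBM.trace {F : (n → ℝ) → Matrix n n ℝ} (hF : PBM F) : PB (fun ξ => (F ξ).trace) := by
  simp_rw [Matrix.trace, Matrix.diag_apply]
  exact PB.sum _ fun j _ => hF j j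

theorem PBM_MM (C : Matrix n n ℝ) (σ : ℝ) : PBM (MM C σ) := fun i k => PB_MM C σ i k

theorem trace_MM_mul (C : Matrix n n ℝ) (σ : ℝ) (ξ : n → ℝ) (Y : Matrix n n ℝ) :
    (MM C σ ξ * Y).trace = ∑ x, ξ x * (σ * (C * Y * C) x x) := by
  unfold MM
  rw [mul_assoc, mul_assoc, Matrix.trace_mul_comm, mul_assoc]
  simp only [Matrix.trace, Matrix.diag_apply, Matrix.diagonal_mul]
  apply Finset.sum_congr rfl
  intro x _
  ring

/-- products with a rank one matrix in the middle -/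
theorem mul_single_apply (X Y : Matrix n n ℝ) (x i k : n) :
    (X * Matrix.single x x (1:ℝ) * Y) i k = X i x * Y x k := by
  have h1 : ∀ l, (X * Matrix.single x x (1:ℝ)) i l = if l = x then X i x else 0 := by
    intro l
    rw [Matrix.mul_apply]
    by_cases h : l = x
    · subst h
      rw [if_pos rfl, Finset.sum_eq_single l]
      · simp
      · intro b _ hb
        simp [Matrix.single_apply, hb.symm]
      · intro h; exact absurd (Finset.mem_univ _) h
    · rw [if_neg h]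
      apply Finset.sum_eq_zero
      intro b _
      have h' : x ≠ l := fun h' => h h'.symm
      simp [Matrix.single_apply, h']
  rw [Matrix.mul_apply]
  simp_rw [h1, ite_mul, zero_mul]
  rw [Finset.sum_ite_eq', if_pos (Finset.mem_univ _)]

theorem MM_update (C : Matrix n n ℝ) (σ : ℝ) (ξ : n → ℝ) (x : n) (t : ℝ) :
    MM C σ (update ξ x t) = MM C σ ξ + (t - ξ x) • (σ • (C * Matrix.single x x (1:ℝ) * C)) := by
  ext i k
  rw [Matrix.add_apply, Matrix.smul_apply, Matrix.smul_apply, MM_apply, MM_apply]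
  have h1 : (C * Matrix.single x x (1:ℝ) * C) i k = C i x * C x k := mul_single_apply C C x i k
  rw [h1, smul_eq_mul, smul_eq_mul,
    ← Finset.add_sum_erase _ _ (Finset.mem_univ x),
    ← Finset.add_sum_erase _ (fun y => C i y * (σ * ξ y) * C y k) (Finset.mem_univ x), update_self]
  have h2 : ∑ y ∈ Finset.univ.erase x, C i y * (σ * update ξ x t y) * C y k =
      ∑ y ∈ Finset.univ.erase x, C i y * (σ * ξ y) * C y k := by
    apply Finset.sum_congr rfl
    intro y hy
    rw [update_of_ne (Finset.ne_of_mem_erase hy)]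
  rw [h2]
  ring

/-- noncommutative derivative of a power -/
theorem hasDerivAt_pow_entry (A B : Matrix n n ℝ) (t₀ : ℝ) (m : ℕ) (i k : n) :
    HasDerivAt (fun t => ((A + (t - t₀) • B) ^ m) i k)
      ((∑ j ∈ Finset.range m, A ^ j * B * A ^ (m - 1 - j)) i k) t₀ := by
  induction m generalizing i k with
  | zero => simpa using hasDerivAt_const t₀ ((1 : Matrix n n ℝ) i k)
  | succ m ih =>
    simp_rw [pow_succ, Matrix.mul_apply]
    have h1 : ∀ j, HasDerivAt (fun t => (A + (t - t₀) • B) j k) (B j k) t₀ := by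
      intro j
      simp only [Matrix.add_apply, Matrix.smul_apply, smul_eq_mul]
      have h2 : HasDerivAt (fun t : ℝ => (t - t₀) * B j k) (1 * B j k) t₀ :=
        ((hasDerivAt_id t₀).sub_const t₀).mul_const _
      have := h2.const_add (A j k)
      simpa using this
    have h2 : ∀ j ∈ Finset.univ, HasDerivAt (fun t => ((A + (t - t₀) • B) ^ m) i j *
        (A + (t - t₀) • B) j k)
        ((∑ l ∈ Finset.range m, A ^ l * B * A ^ (m - 1 - l)) i j *
          (A + (t₀ - t₀) • B) j k + ((A + (t₀ - t₀) • B) ^ m) i j * B j k) t₀ := by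
      intro j _
      exact (ih i j).mul (h1 j)
    have h3 := HasDerivAt.fun_sum h2
    convert! h3 using 1
    simp only [sub_self, zero_smul, add_zero]
    rw [Finset.sum_add_distrib, ← Matrix.mul_apply, ← Matrix.mul_apply, ← Matrix.add_apply]
    rw [Finset.sum_range_succ, Finset.sum_mul]
    have h4 : ∑ l ∈ Finset.range m, A ^ l * B * A ^ (m + 1 - 1 - l) =
        ∑ l ∈ Finset.range m, A ^ l * B * A ^ (m - 1 - l) * A := by
      apply Finset.sum_congr rfl
      intro l hl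
      rw [Finset.mem_range] at hl
      rw [mul_assoc (A ^ l * B), ← pow_succ]
      congr 2
      omega
    rw [h4]
    simp

/-- **Integration by parts for traces.** -/
theorem ibp_trace (C : Matrix n n ℝ) (σ : ℝ) (m : ℕ) (Y : Matrix n n ℝ) :
    ∫ ξ, (MM C σ ξ ^ (m + 1) * Y).trace ∂(γn n) =
      ∑ j ∈ Finset.range m, ∫ ξ, σ ^ 2 * ∑ x, (C * MM C σ ξ ^ j * C) x x *
        (C * (MM C σ ξ ^ (m - 1 - j) * Y) * C) x x ∂(γn n) := by
  have hpb : ∀ (l : ℕ) (Z : Matrix n n ℝ) (x : n),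
      PB (fun ξ : n → ℝ => (C * (MM C σ ξ ^ l * Z) * C) x x) := fun l Z x =>
    (((PBM.const C).mul (((PBM_MM C σ).pow l).mul (PBM.const Z))).mul (PBM.const C)) x x
  have hpb' : ∀ (l : ℕ) (x : n),
      PB (fun ξ : n → ℝ => (C * MM C σ ξ ^ l * C) x x) := fun l x =>
    (((PBM.const C).mul ((PBM_MM C σ).pow l)).mul (PBM.const C)) x x
  have e1 : ∀ ξ : n → ℝ, (MM C σ ξ ^ (m + 1) * Y).trace =
      ∑ x, ξ x * (σ * (C * (MM C σ ξ ^ m * Y) * C) x x) := by
    intro ξ
    rw [pow_succ', mul_assoc, trace_MM_mul]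
  simp_rw [e1]
  rw [integral_finsetSum]
  swap
  · intro x _
    exact ((PB.coord x).mul ((hpb m Y x).const_mul σ)).integrable
  have e2 : ∀ x : n, ∫ ξ, ξ x * (σ * (C * (MM C σ ξ ^ m * Y) * C) x x) ∂(γn n) =
      ∫ ξ, ∑ j ∈ Finset.range m, σ ^ 2 * ((C * MM C σ ξ ^ j * C) x x *
        (C * (MM C σ ξ ^ (m - 1 - j) * Y) * C) x x) ∂(γn n) := by
    intro x
    apply stein ((hpb m Y x).const_mul σ)
    · apply PB.sum
      intro j _
      exact ((hpb' j x).mul (hpb (m - 1 - j) Y x)).const_mul _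
    · intro ξ
      -- entries of the update
      have h1 : ∀ t, σ * (C * (MM C σ (update ξ x t) ^ m * Y) * C) x x =
          ∑ i, ∑ k, (σ * (C x i * (Y * C) k x)) *
            ((MM C σ ξ + (t - ξ x) • (σ • (C * Matrix.single x x (1:ℝ) * C))) ^ m) i k := by
        intro t
        rw [MM_update, show C * ((MM C σ ξ + (t - ξ x) • (σ • (C * Matrix.single x x (1:ℝ) * C))) ^ m *
          Y) * C = C * (MM C σ ξ + (t - ξ x) • (σ • (C * Matrix.single x x (1:ℝ) * C))) ^ m *
          (Y * C) by simp only [mul_assoc]]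
        rw [Matrix.mul_apply]
        simp_rw [Matrix.mul_apply (M := C), Finset.sum_mul, Finset.mul_sum]
        rw [Finset.sum_comm]
        apply Finset.sum_congr rfl
        intro i _
        apply Finset.sum_congr rfl
        intro k _
        ring
      have h2 : HasDerivAt (fun t => ∑ i, ∑ k, (σ * (C x i * (Y * C) k x)) *
            ((MM C σ ξ + (t - ξ x) • (σ • (C * Matrix.single x x (1:ℝ) * C))) ^ m) i k)
          (∑ i, ∑ k, (σ * (C x i * (Y * C) k x)) *
            (∑ j ∈ Finset.range m, MM C σ ξ ^ j * (σ • (C * Matrix.single x x (1:ℝ) * C)) *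
              MM C σ ξ ^ (m - 1 - j)) i k) (ξ x) := by
        apply HasDerivAt.fun_sum
        intro i _
        apply HasDerivAt.fun_sum
        intro k _
        exact (hasDerivAt_pow_entry _ _ _ _ _ _).const_mul _
      have h3 : (∑ i, ∑ k, (σ * (C x i * (Y * C) k x)) *
            (∑ j ∈ Finset.range m, MM C σ ξ ^ j * (σ • (C * Matrix.single x x (1:ℝ) * C)) *
              MM C σ ξ ^ (m - 1 - j)) i k) =
          ∑ j ∈ Finset.range m, σ ^ 2 * ((C * MM C σ ξ ^ j * C) x x *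
            (C * (MM C σ ξ ^ (m - 1 - j) * Y) * C) x x) := by
        have h4 : (∑ i, ∑ k, (σ * (C x i * (Y * C) k x)) *
            (∑ j ∈ Finset.range m, MM C σ ξ ^ j * (σ • (C * Matrix.single x x (1:ℝ) * C)) *
              MM C σ ξ ^ (m - 1 - j)) i k) =
            σ * (C * (∑ j ∈ Finset.range m, MM C σ ξ ^ j * (σ • (C * Matrix.single x x (1:ℝ) * C)) *
              MM C σ ξ ^ (m - 1 - j)) * (Y * C)) x x := by
          rw [Matrix.mul_apply]
          simp_rw [Matrix.mul_apply (M := C), Finset.sum_mul, Finset.mul_sum]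
          rw [Finset.sum_comm]
          apply Finset.sum_congr rfl
          intro i _
          apply Finset.sum_congr rfl
          intro k _
          ring
        rw [h4, Finset.mul_sum, Finset.sum_mul, Matrix.sum_apply, Finset.mul_sum]
        apply Finset.sum_congr rfl
        intro j _
        have h5 : C * (MM C σ ξ ^ j * (σ • (C * Matrix.single x x (1:ℝ) * C)) *
            MM C σ ξ ^ (m - 1 - j)) * (Y * C) =
            σ • ((C * MM C σ ξ ^ j * C) * Matrix.single x x (1:ℝ) *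
              (C * (MM C σ ξ ^ (m - 1 - j) * Y) * C)) := by
          rw [Matrix.mul_smul, Matrix.smul_mul, Matrix.mul_smul, Matrix.smul_mul]
          congr 1
          simp only [mul_assoc]
        rw [h5, Matrix.smul_apply, mul_single_apply, smul_eq_mul]
        ring
      rw [← h3]
      refine h2.congr_of_eventuallyEq (Eventually.of_forall fun t => ?_)
      exact h1 t
  simp_rw [e2]
  rw [← integral_finsetSum]
  swap
  · intro x _
    exact (PB.sum _ fun j _ => ((hpb' j x).mul (hpb (m - 1 - j) Y x)).const_mul _).integrable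
  rw [← integral_finsetSum]
  swap
  · intro j _
    exact ((PB.sum _ fun x _ => (hpb' j x).mul (hpb (m - 1 - j) Y x)).const_mul _).integrable
  congr 1
  funext ξ
  rw [Finset.sum_comm]
  apply Finset.sum_congr rfl
  intro j _
  rw [Finset.mul_sum]

end Pool.Agent.Loc
end
end -- Pool.Agent.Helper48_Loc.MatrixIBP

section -- Pool.Agent.Helper48_Loc.Scal

/-!
# Scalar inequalities for moment sequences
-/

set_option autoImplicit false
set_option linter.unusedSectionVars false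

open scoped BigOperators

noncomputable section

namespace Pool.Agent.Loc

variable {ι : Type*} [Fintype ι]

/-- absolute moments of the weights `a²` -/
def cm (a lam : ι → ℝ) (j : ℕ) : ℝ := ∑ l, a l ^ 2 * |lam l| ^ j

theorem cm_nonneg (a lam : ι → ℝ) (j : ℕ) : 0 ≤ cm a lam j :=
  Finset.sum_nonneg fun _ _ => by positivity

theorem pow_rearr {x y : ℝ} (hx : 0 ≤ x) (hy : 0 ≤ y) (s t : ℕ) :
    x ^ s * y ^ t + x ^ t * y ^ s ≤ x ^ (s + t) + y ^ (s + t) := by
  have h : 0 ≤ (x ^ s - y ^ s) * (x ^ t - y ^ t) := by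
    rcases le_total x y with h | h
    · have h1 := pow_le_pow_left₀ hx h s
      have h2 := pow_le_pow_left₀ hx h t
      exact mul_nonneg_of_nonpos_of_nonpos (by linarith) (by linarith)
    · have h1 := pow_le_pow_left₀ hy h s
      have h2 := pow_le_pow_left₀ hy h t
      exact mul_nonneg (by linarith) (by linarith)
  rw [pow_add, pow_add]
  nlinarith only [h]

/-- log-convexity in the form of a majorization inequality -/
theorem cm_major (a lam : ι → ℝ) {j i j' i' : ℕ} (h1 : j' ≤ j) (h2 : j' ≤ i)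
    (h3 : j + i = j' + i') : cm a lam j * cm a lam i ≤ cm a lam j' * cm a lam i' := by
  obtain ⟨s, rfl⟩ := Nat.exists_eq_add_of_le h1
  obtain ⟨t, rfl⟩ := Nat.exists_eq_add_of_le h2
  have hi' : i' = j' + (s + t) := by omega
  subst hi'
  have e1 : ∀ p q : ℕ, cm a lam p * cm a lam q =
      ∑ l, ∑ m, (a l ^ 2 * a m ^ 2) * (|lam l| ^ p * |lam m| ^ q) := by
    intro p q
    unfold cm
    rw [Finset.sum_mul_sum]
    apply Finset.sum_congr rfl
    intro l _
    apply Finset.sum_congr rfl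
    intro m _
    ring
  have e2 : ∀ p q : ℕ, 2 * (cm a lam p * cm a lam q) =
      ∑ l, ∑ m, (a l ^ 2 * a m ^ 2) * (|lam l| ^ p * |lam m| ^ q + |lam l| ^ q * |lam m| ^ p) := by
    intro p q
    have h4 : cm a lam p * cm a lam q = cm a lam q * cm a lam p := mul_comm _ _
    calc 2 * (cm a lam p * cm a lam q) = cm a lam p * cm a lam q + cm a lam q * cm a lam p := by
          rw [← h4]; ring
      _ = _ := by
          rw [e1, e1, ← Finset.sum_add_distrib]
          apply Finset.sum_congr rfl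
          intro l _
          rw [← Finset.sum_add_distrib]
          apply Finset.sum_congr rfl
          intro m _
          ring
  have key : 2 * (cm a lam (j' + s) * cm a lam (j' + t)) ≤
      2 * (cm a lam j' * cm a lam (j' + (s + t))) := by
    rw [e2, e2]
    apply Finset.sum_le_sum
    intro l _
    apply Finset.sum_le_sum
    intro m _
    apply mul_le_mul_of_nonneg_left _ (by positivity)
    have h5 := pow_rearr (abs_nonneg (lam l)) (abs_nonneg (lam m)) s t
    have h6 : 0 ≤ |lam l| ^ j' * |lam m| ^ j' := by positivity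
    have h7 := mul_le_mul_of_nonneg_left h5 h6
    calc _ = |lam l| ^ j' * |lam m| ^ j' * (|lam l| ^ s * |lam m| ^ t + |lam l| ^ t * |lam m| ^ s) := by
          ring
      _ ≤ _ := h7
      _ = _ := by ring
  linarith only [key]

theorem cm_eq_zero {a lam : ι → ℝ} {m : ℕ} (hm : m ≠ 0) (h : cm a lam m = 0) {j : ℕ}
    (hj : j ≠ 0) : cm a lam j = 0 := by
  unfold cm at h ⊢
  rw [Finset.sum_eq_zero_iff_of_nonneg (fun _ _ => by positivity)] at h
  apply Finset.sum_eq_zero
  intro l _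
  have h1 := h l (Finset.mem_univ l)
  rcases mul_eq_zero.1 h1 with h2 | h2
  · rw [h2, zero_mul]
  · rw [pow_eq_zero_iff hm] at h2
    rw [h2, zero_pow hj, mul_zero]

theorem cm_A (a lam : ι → ℝ) {i j : ℕ} (hij : i ≤ j) :
    cm a lam j ^ 2 * cm a lam (2 * i) ≤ cm a lam 0 * cm a lam (i + j) ^ 2 := by
  rcases Nat.eq_zero_or_pos i with hi | hi
  · subst hi
    simp only [Nat.mul_zero, Nat.zero_add]
    exact le_of_eq (mul_comm _ _)
  have h1 := cm_major a lam (j := j) (i := 2 * i) (j' := i) (i' := i + j) hij (by omega) (by omega)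
  have h2 := cm_major a lam (j := j) (i := i) (j' := 0) (i' := i + j) (by omega) (by omega) (by omega)
  rcases (cm_nonneg a lam i).eq_or_lt with h0 | h0
  · have hj := cm_eq_zero (by omega) h0.symm (j := j) (by omega)
    rw [hj]
    have := cm_nonneg a lam 0
    have : 0 ≤ cm a lam 0 * cm a lam (i + j) ^ 2 := by positivity
    simpa using this
  · have h3 := mul_le_mul h1 h2 (mul_nonneg (cm_nonneg _ _ _) (cm_nonneg _ _ _))
      (mul_nonneg (cm_nonneg _ _ _) (cm_nonneg _ _ _))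
    have h4 : (cm a lam j ^ 2 * cm a lam (2 * i)) * cm a lam i ≤
        (cm a lam 0 * cm a lam (i + j) ^ 2) * cm a lam i := by
      calc _ = cm a lam j * cm a lam (2 * i) * (cm a lam j * cm a lam i) := by ring
        _ ≤ _ := h3
        _ = _ := by ring
    exact le_of_mul_le_mul_right h4 h0

theorem cm_B (a lam : ι → ℝ) {j i h : ℕ} (hj : 2 ≤ j) (hi : 1 ≤ i) (hh : j + i = h + 2) :
    cm a lam j ^ 2 * cm a lam (2 * i) ≤ cm a lam 2 ^ 2 * cm a lam (2 * h) := by
  have h1 := cm_major a lam (j := j) (i := 2 * i) (j' := 2) (i' := j + 2 * i - 2) hj (by omega)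
    (by omega)
  have h2 := cm_major a lam (j := j) (i := j + 2 * i - 2) (j' := 2) (i' := 2 * h) hj (by omega)
    (by omega)
  rcases (cm_nonneg a lam (j + 2 * i - 2)).eq_or_lt with h0 | h0
  · have hj := cm_eq_zero (by omega) h0.symm (j := j) (by omega)
    rw [hj]
    have := cm_nonneg a lam (2 * h)
    have : 0 ≤ cm a lam 2 ^ 2 * cm a lam (2 * h) := by positivity
    simpa using this
  · have h3 := mul_le_mul h1 h2 (mul_nonneg (cm_nonneg _ _ _) (cm_nonneg _ _ _))
      (mul_nonneg (cm_nonneg _ _ _) (cm_nonneg _ _ _))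
    have h4 : (cm a lam j ^ 2 * cm a lam (2 * i)) * cm a lam (j + 2 * i - 2) ≤
        (cm a lam 2 ^ 2 * cm a lam (2 * h)) * cm a lam (j + 2 * i - 2) := by
      calc _ = cm a lam j * cm a lam (2 * i) * (cm a lam j * cm a lam (j + 2 * i - 2)) := by ring
        _ ≤ _ := h3
        _ = _ := by ring
    exact le_of_mul_le_mul_right h4 h0

theorem abs_sum_sq_le (a lam : ι → ℝ) (j : ℕ) : |∑ l, a l ^ 2 * lam l ^ j| ≤ cm a lam j := by
  refine (Finset.abs_sum_le_sum_abs _ _).trans (le_of_eq ?_)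
  apply Finset.sum_congr rfl
  intro l _
  rw [abs_mul, abs_of_nonneg (sq_nonneg (a l)), abs_pow]

theorem cs_sum (a b lam : ι → ℝ) {i i₁ i₂ : ℕ} (hi : i = i₁ + i₂) :
    |∑ l, a l * b l * lam l ^ i| ≤ √(cm a lam (2 * i₁) * cm b lam (2 * i₂)) := by
  apply Real.abs_le_sqrt
  have h1 : ∑ l, a l * b l * lam l ^ i = ∑ l, (a l * lam l ^ i₁) * (b l * lam l ^ i₂) := by
    apply Finset.sum_congr rfl
    intro l _
    rw [hi, pow_add]; ring
  rw [h1]
  refine (Finset.sum_mul_sq_le_sq_mul_sq _ _ _).trans (le_of_eq ?_)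
  unfold cm
  congr 1
  · apply Finset.sum_congr rfl
    intro l _
    rw [mul_pow, pow_mul, sq_abs, ← pow_mul, ← pow_mul, mul_comm i₁ 2]
  · apply Finset.sum_congr rfl
    intro l _
    rw [mul_pow, pow_mul, sq_abs, ← pow_mul, ← pow_mul, mul_comm i₂ 2]

/-- case `i ≤ j` -/
theorem bound_A (a b lam : ι → ℝ) {i j : ℕ} (hij : i ≤ j) :
    |∑ l, a l ^ 2 * lam l ^ j| * |∑ l, a l * b l * lam l ^ i| ≤
      √(cm a lam 0 * cm b lam 0) * cm a lam (i + j) := by
  have h1 := abs_sum_sq_le a lam j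
  have h2 := cs_sum a b lam (i := i) (i₁ := i) (i₂ := 0) (by omega)
  rw [Nat.mul_zero] at h2
  have c0 := cm_nonneg a lam 0
  have cj := cm_nonneg a lam j
  have c2i := cm_nonneg a lam (2 * i)
  have cij := cm_nonneg a lam (i + j)
  have e0 := cm_nonneg b lam 0
  calc _ ≤ cm a lam j * √(cm a lam (2 * i) * cm b lam 0) :=
        mul_le_mul h1 h2 (abs_nonneg _) cj
    _ = √(cm a lam j ^ 2 * cm a lam (2 * i) * cm b lam 0) := by
        rw [mul_assoc, Real.sqrt_mul (sq_nonneg _), Real.sqrt_sq cj]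
    _ ≤ √(cm a lam 0 * cm a lam (i + j) ^ 2 * cm b lam 0) := by
        apply Real.sqrt_le_sqrt
        exact mul_le_mul_of_nonneg_right (cm_A a lam hij) e0
    _ = √(cm a lam (i + j) ^ 2 * (cm a lam 0 * cm b lam 0)) := by ring_nf
    _ = _ := by rw [Real.sqrt_mul (sq_nonneg _), Real.sqrt_sq cij, mul_comm]

/-- case `2 ≤ j ≤ i` -/
theorem bound_B2 (a b lam : ι → ℝ) {i j h : ℕ} (hj : 2 ≤ j) (hji : j ≤ i)
    (hh : i + j = 2 * h + 2) :
    |∑ l, a l ^ 2 * lam l ^ j| * |∑ l, a l * b l * lam l ^ i| ≤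
      cm a lam 2 * ((cm a lam (2 * h) + cm b lam (2 * h)) / 2) := by
  have h1 := abs_sum_sq_le a lam j
  have h2 := cs_sum a b lam (i := i) (i₁ := i - h) (i₂ := h) (by omega)
  have cj := cm_nonneg a lam j
  have c2 := cm_nonneg a lam 2
  have c2h := cm_nonneg a lam (2 * h)
  have e2h := cm_nonneg b lam (2 * h)
  calc _ ≤ cm a lam j * √(cm a lam (2 * (i - h)) * cm b lam (2 * h)) :=
        mul_le_mul h1 h2 (abs_nonneg _) cj
    _ = √(cm a lam j ^ 2 * cm a lam (2 * (i - h)) * cm b lam (2 * h)) := by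
        rw [mul_assoc, Real.sqrt_mul (sq_nonneg _), Real.sqrt_sq cj]
    _ ≤ √(cm a lam 2 ^ 2 * cm a lam (2 * h) * cm b lam (2 * h)) := by
        apply Real.sqrt_le_sqrt
        exact mul_le_mul_of_nonneg_right (cm_B a lam hj (by omega) (by omega)) e2h
    _ = cm a lam 2 * √(cm a lam (2 * h) * cm b lam (2 * h)) := by
        rw [mul_assoc, Real.sqrt_mul (sq_nonneg _), Real.sqrt_sq c2]
    _ ≤ _ := by
        apply mul_le_mul_of_nonneg_left _ c2
        rw [Real.sqrt_le_left (by positivity)]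
        nlinarith only [sq_nonneg (cm a lam (2 * h) - cm b lam (2 * h))]

/-- case `j = 1` -/
theorem bound_B1 (a b lam : ι → ℝ) {i h : ℕ} (hh : i = 2 * h + 1) :
    |∑ l, a l ^ 2 * lam l ^ 1| * |∑ l, a l * b l * lam l ^ i| ≤
      √(cm a lam 0 * cm a lam 2) * ((cm a lam (2 * (h + 1)) + cm b lam (2 * h)) / 2) := by
  have h1 : |∑ l, a l ^ 2 * lam l ^ 1| ≤ √(cm a lam 0 * cm a lam 2) := by
    have h3 := cs_sum a a lam (i := 1) (i₁ := 0) (i₂ := 1) (by omega)
    simp only [Nat.mul_zero, Nat.mul_one] at h3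
    have h4 : ∑ l, a l ^ 2 * lam l ^ 1 = ∑ l, a l * a l * lam l ^ 1 := by
      apply Finset.sum_congr rfl
      intro l _
      ring
    rw [h4]
    exact h3
  have h2 := cs_sum a b lam (i := i) (i₁ := h + 1) (i₂ := h) (by omega)
  have c2h := cm_nonneg a lam (2 * (h + 1))
  have e2h := cm_nonneg b lam (2 * h)
  refine mul_le_mul h1 (h2.trans ?_) (abs_nonneg _) (Real.sqrt_nonneg _)
  rw [Real.sqrt_le_left (by positivity)]
  nlinarith only [sq_nonneg (cm a lam (2 * (h + 1)) - cm b lam (2 * h))]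

/-- `u λ^{2m} ≤ 1 + λ^{2p} + u^p` for `m < p` -/
theorem young1 {u x : ℝ} (hu : 0 ≤ u) {m p : ℕ} (hmp : m < p) :
    u * x ^ (2 * m) ≤ 1 + x ^ (2 * p) + u ^ p := by
  have hy : 0 ≤ x ^ 2 := sq_nonneg x
  rw [pow_mul, pow_mul]
  set y := x ^ 2
  rcases le_total u 1 with h | h
  · rcases le_total y 1 with h' | h'
    · have h1 : y ^ m ≤ 1 := pow_le_one₀ hy h'
      have h2 : 0 ≤ y ^ m := pow_nonneg hy m
      have h3 : 0 ≤ y ^ p := pow_nonneg hy p
      have h4 : 0 ≤ u ^ p := pow_nonneg hu p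
      nlinarith only [hu, h, h1, h3, h4]
    · have h1 : y ^ m ≤ y ^ p := pow_le_pow_right₀ h' hmp.le
      have h2 : 0 ≤ y ^ m := pow_nonneg hy m
      have h4 : 0 ≤ u ^ p := pow_nonneg hu p
      nlinarith only [h, h1, h2, h4]
  · rcases le_total y u with h' | h'
    · have h1 : u * y ^ m ≤ u * u ^ m := mul_le_mul_of_nonneg_left (pow_le_pow_left₀ hy h' m) hu
      have h2 : u * u ^ m = u ^ (m + 1) := by rw [pow_succ]; ring
      have h3 : u ^ (m + 1) ≤ u ^ p := pow_le_pow_right₀ h hmp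
      have h4 : 0 ≤ y ^ p := pow_nonneg hy p
      linarith
    · have h0 : 1 ≤ y := h.trans h'
      have h1 : u * y ^ m ≤ y * y ^ m := mul_le_mul_of_nonneg_right h' (pow_nonneg hy m)
      have h2 : y * y ^ m = y ^ (m + 1) := by rw [pow_succ]; ring
      have h3 : y ^ (m + 1) ≤ y ^ p := pow_le_pow_right₀ h0 hmp
      have h4 : 0 ≤ u ^ p := pow_nonneg hu p
      linarith only [h1, h2, h3, h4]

theorem young2 {u x : ℝ} (hu : 0 ≤ u) {m p : ℕ} (hmp : m < p) :
    √u * x ^ (2 * m) ≤ 1 + x ^ (2 * p) + u ^ p := by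
  rcases le_total u 1 with h | h
  · have h1 : √u ≤ 1 := by rw [Real.sqrt_le_one]; exact h
    have h2 := young1 (u := √u) (x := x) (Real.sqrt_nonneg u) hmp
    have hy : 0 ≤ x ^ 2 := sq_nonneg x
    rw [pow_mul, pow_mul] at *
    set y := x ^ 2
    have h4 : 0 ≤ u ^ p := pow_nonneg hu p
    rcases le_total y 1 with h' | h'
    · have h1' : y ^ m ≤ 1 := pow_le_one₀ hy h'
      have h2 : 0 ≤ y ^ m := pow_nonneg hy m
      have h3 : 0 ≤ y ^ p := pow_nonneg hy p
      have h5 := Real.sqrt_nonneg u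
      nlinarith only [h1, h4, h1', h2, h3]
    · have h1' : y ^ m ≤ y ^ p := pow_le_pow_right₀ h' hmp.le
      have h2 : 0 ≤ y ^ m := pow_nonneg hy m
      have h5 := Real.sqrt_nonneg u
      nlinarith only [h1, h4, h1', h2]
  · have h1 : √u ≤ u := by
      rw [Real.sqrt_le_left hu]
      nlinarith only [hu, h]
    have h2 := young1 (u := u) (x := x) hu hmp
    have h3 : √u * x ^ (2 * m) ≤ u * x ^ (2 * m) := by
      apply mul_le_mul_of_nonneg_right h1
      rw [pow_mul]; positivity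
    linarith

theorem young0 {x : ℝ} {m p : ℕ} (hmp : m ≤ p) : x ^ (2 * m) ≤ 1 + x ^ (2 * p) := by
  have hy : 0 ≤ x ^ 2 := sq_nonneg x
  rw [pow_mul, pow_mul]
  set y := x ^ 2
  rcases le_total y 1 with h' | h'
  · have h1 : y ^ m ≤ 1 := pow_le_one₀ hy h'
    have h3 : 0 ≤ y ^ p := pow_nonneg hy p
    linarith only [h1, h3]
  · have h1 : y ^ m ≤ y ^ p := pow_le_pow_right₀ h' hmp
    linarith

end Pool.Agent.Loc
end
end -- Pool.Agent.Helper48_Loc.Scal

section -- Pool.Agent.Helper48_Loc.Terms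

/-!
# Bounds for the terms of the integration by parts expansion
-/

set_option autoImplicit false
set_option linter.unusedSectionVars false

open MeasureTheory ProbabilityTheory Function Filter

open scoped ENNReal BigOperators Topology NNReal

noncomputable section

namespace Pool.Agent.Loc

variable {n : Type*} [Fintype n] [DecidableEq n]

/-- Hypotheses on the square root `C` of the free resolvent `K = C * C`. -/
structure Hyp (C : Matrix n n ℝ) (a g κ₂ : ℝ) : Prop where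
  symm : C.transpose = C
  ha : 0 < a
  hg : 0 < g
  hκ : 0 ≤ κ₂
  diag : ∀ x, (C * C) x x ≤ g
  norm : ∀ v : n → ℝ, v ⬝ᵥ (C * C).mulVec v ≤ 1 / a * (v ⬝ᵥ v)
  sq : ∀ x, ∑ y, (C * C) x y ^ 2 ≤ κ₂

/-- symmetric contractions -/
structure Contr (Y : Matrix n n ℝ) : Prop where
  symm : Y.transpose = Y
  contr : ∀ v : n → ℝ, (Y.mulVec v) ⬝ᵥ (Y.mulVec v) ≤ v ⬝ᵥ v

/-- a term of the expansion -/
def TT (C : Matrix n n ℝ) (σ : ℝ) (Y : Matrix n n ℝ) (j i : ℕ) (ξ : n → ℝ) : ℝ :=
  σ ^ 2 * ∑ x, (C * MM C σ ξ ^ j * C) x x * (C * (MM C σ ξ ^ i * Y) * C) x x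

theorem PB_TT (C : Matrix n n ℝ) (σ : ℝ) (Y : Matrix n n ℝ) (j i : ℕ) : PB (TT C σ Y j i) := by
  have hpb : ∀ (l : ℕ) (Z : Matrix n n ℝ) (x : n),
      PB (fun ξ : n → ℝ => (C * (MM C σ ξ ^ l * Z) * C) x x) := fun l Z x =>
    (((PBM.const C).mul (((PBM_MM C σ).pow l).mul (PBM.const Z))).mul (PBM.const C)) x x
  have hpb' : ∀ (l : ℕ) (x : n),
      PB (fun ξ : n → ℝ => (C * MM C σ ξ ^ l * C) x x) := fun l x =>
    (((PBM.const C).mul ((PBM_MM C σ).pow l)).mul (PBM.const C)) x x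
  exact (PB.sum _ fun x _ => (hpb' j x).mul (hpb i Y x)).const_mul _

section Det

variable {C : Matrix n n ℝ} {a g κ₂ σ : ℝ} {Y : Matrix n n ℝ}

/-- everything in the eigenbasis of `M` -/
theorem spectral_data (hC : Hyp C a g κ₂) (hY : Contr Y) (σ : ℝ) (ξ : n → ℝ) :
    ∃ (av bv : n → n → ℝ) (lam : n → ℝ),
      (∀ j x, (C * MM C σ ξ ^ j * C) x x = ∑ l, av x l ^ 2 * lam l ^ j) ∧
      (∀ i x, (C * (MM C σ ξ ^ i * Y) * C) x x = ∑ l, av x l * bv x l * lam l ^ i) ∧
      (∀ m, (MM C σ ξ ^ m).trace = ∑ l, lam l ^ m) ∧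
      (∀ x, ∑ l, av x l ^ 2 ≤ g) ∧ (∀ l, ∑ x, av x l ^ 2 ≤ 1 / a) ∧
      (∀ x, ∑ l, bv x l ^ 2 = (C * (Y * Y) * C) x x) ∧ (∀ l, ∑ x, bv x l ^ 2 ≤ 1 / a) := by
  obtain ⟨U, lam, hU1, hU2, hM⟩ := exists_diag_real (MM_symm hC.symm σ ξ)
  have ha := hC.ha
  refine ⟨fun x l => (U.transpose * C) l x, fun x l => (U.transpose * (Y * C)) l x, lam,
    ?_, ?_, ?_, ?_, ?_, ?_, ?_⟩
  · intro j x
    have h1 := form_diag U C C (fun l => lam l ^ j) x x
    rw [hC.symm, ← hM j] at h1
    rw [h1]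
    apply Finset.sum_congr rfl
    intro l _
    ring
  · intro i x
    have h1 := form_diag U C (Y * C) (fun l => lam l ^ i) x x
    rw [hC.symm, ← hM i] at h1
    rw [show C * (MM C σ ξ ^ i * Y) * C = C * MM C σ ξ ^ i * (Y * C) by simp only [mul_assoc], h1]
  · intro m
    rw [hM m, trace_diag hU1]
  · intro x
    rw [sum_l hU2, hC.symm]
    exact hC.diag x
  · intro l
    rw [sum_x, hC.symm, col_form]
    refine (hC.norm _).trans ?_
    rw [col_norm hU1, mul_one]
  · intro x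
    rw [sum_l hU2, Matrix.transpose_mul, hC.symm, hY.symm]
    simp only [mul_assoc]
  · intro l
    rw [sum_x, Matrix.transpose_mul, hC.symm, hY.symm, col_form]
    have h1 : (fun i => U i l) ⬝ᵥ (Y * C * (C * Y)).mulVec (fun i => U i l) =
        (Y.mulVec fun i => U i l) ⬝ᵥ (C * C).mulVec (Y.mulVec fun i => U i l) := by
      rw [show Y * C * (C * Y) = Y * ((C * C) * Y) by simp only [mul_assoc],
        ← Matrix.mulVec_mulVec, ← Matrix.mulVec_mulVec, Matrix.dotProduct_mulVec,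
        ← Matrix.mulVec_transpose, hY.symm]
    rw [h1]
    refine (hC.norm _).trans ?_
    have h2 := hY.contr (fun i => U i l)
    rw [col_norm hU1] at h2
    calc 1 / a * ((Y.mulVec fun i => U i l) ⬝ᵥ (Y.mulVec fun i => U i l)) ≤ 1 / a * 1 := by gcongr
      _ = 1 / a := mul_one _

/-- the summation lemma -/
theorem sum_weights {w : n → n → ℝ} {lam u : n → ℝ} {p : ℕ} (hw : ∀ x l, 0 ≤ w x l)
    (hu : ∀ x, 0 ≤ u x) (h1 : ∀ x, ∑ l, w x l ≤ g) (h2 : ∀ l, ∑ x, w x l ≤ 1 / a) {φ : n → n → ℝ}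
    (hφ : ∀ x l, φ x l ≤ 1 + lam l ^ (2 * p) + u x ^ p) :
    ∑ x, ∑ l, w x l * φ x l ≤
      1 / a * (Fintype.card n + ∑ l, lam l ^ (2 * p)) + g * ∑ x, u x ^ p := by
  calc ∑ x, ∑ l, w x l * φ x l ≤ ∑ x, ∑ l, (w x l * (1 + lam l ^ (2 * p)) + w x l * u x ^ p) := by
        apply Finset.sum_le_sum
        intro x _
        apply Finset.sum_le_sum
        intro l _
        rw [← mul_add]
        exact mul_le_mul_of_nonneg_left (hφ x l) (hw x l)
    _ = ∑ l, (∑ x, w x l) * (1 + lam l ^ (2 * p)) + ∑ x, (∑ l, w x l) * u x ^ p := by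
        simp_rw [Finset.sum_add_distrib]
        congr 1
        · rw [Finset.sum_comm]
          apply Finset.sum_congr rfl
          intro l _
          rw [Finset.sum_mul]
        · apply Finset.sum_congr rfl
          intro x _
          rw [Finset.sum_mul]
    _ ≤ ∑ l, (1 / a) * (1 + lam l ^ (2 * p)) + ∑ x, g * u x ^ p := by
        apply add_le_add
        · apply Finset.sum_le_sum
          intro l _
          apply mul_le_mul_of_nonneg_right (h2 l)
          have : 0 ≤ lam l ^ (2 * p) := by rw [pow_mul]; positivity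
          linarith
        · apply Finset.sum_le_sum
          intro x _
          exact mul_le_mul_of_nonneg_right (h1 x) (pow_nonneg (hu x) p)
    _ = _ := by
        rw [← Finset.mul_sum, ← Finset.mul_sum, Finset.sum_add_distrib]
        simp

theorem abs_TT_le (σ : ℝ) (Y : Matrix n n ℝ) (j i : ℕ) (ξ : n → ℝ) :
    |TT C σ Y j i ξ| ≤ σ ^ 2 * ∑ x, |(C * MM C σ ξ ^ j * C) x x| *
      |(C * (MM C σ ξ ^ i * Y) * C) x x| := by
  unfold TT
  rw [abs_mul, abs_of_nonneg (sq_nonneg σ)]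
  apply mul_le_mul_of_nonneg_left _ (sq_nonneg σ)
  refine (Finset.abs_sum_le_sum_abs _ _).trans (le_of_eq ?_)
  apply Finset.sum_congr rfl
  intro x _
  rw [abs_mul]

/-- case A -/
theorem TT_A (hC : Hyp C a g κ₂) (hY : Contr Y) {lamY : ℝ} (hlam : 0 ≤ lamY)
    (hYC : ∀ x, (C * (Y * Y) * C) x x ≤ lamY ^ 2) {i j h p : ℕ} (hij : i ≤ j)
    (hh : i + j = 2 * h) (hp : h ≤ p) (hp0 : 0 < p) (ξ : n → ℝ) :
    |TT C σ Y j i ξ| ≤ σ ^ 2 * (√g * lamY) *
      (1 / a * (Fintype.card n + (MM C σ ξ ^ (2 * p)).trace)) := by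
  obtain ⟨av, bv, lam, e1, e2, e3, h1, h2, h3, h4⟩ := spectral_data hC hY σ ξ
  have ha := hC.ha
  refine (abs_TT_le σ Y j i ξ).trans ?_
  rw [mul_assoc (σ ^ 2)]
  apply mul_le_mul_of_nonneg_left _ (sq_nonneg σ)
  have key : ∀ x, |(C * MM C σ ξ ^ j * C) x x| * |(C * (MM C σ ξ ^ i * Y) * C) x x| ≤
      (√g * lamY) * cm (av x) lam (i + j) := by
    intro x
    rw [e1, e2]
    refine (bound_A (av x) (bv x) lam hij).trans ?_
    apply mul_le_mul_of_nonneg_right _ (cm_nonneg _ _ _)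
    have c0 : cm (av x) lam 0 ≤ g := by
      unfold cm; simp only [pow_zero, mul_one]; exact h1 x
    have c1 : cm (bv x) lam 0 ≤ lamY ^ 2 := by
      unfold cm; simp only [pow_zero, mul_one]; rw [h3 x]; exact hYC x
    calc √(cm (av x) lam 0 * cm (bv x) lam 0) ≤ √(g * lamY ^ 2) := by
          apply Real.sqrt_le_sqrt
          exact mul_le_mul c0 c1 (cm_nonneg _ _ _) hC.hg.le
      _ = √g * lamY := by rw [Real.sqrt_mul hC.hg.le, Real.sqrt_sq hlam]
  refine (Finset.sum_le_sum fun x _ => key x).trans ?_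
  rw [← Finset.mul_sum]
  apply mul_le_mul_of_nonneg_left _ (by positivity)
  have h5 := sum_weights (w := fun x l => av x l ^ 2) (lam := lam) (u := fun _ => 0) (p := p)
    (g := g) (a := a) (fun x l => sq_nonneg _) (fun _ => le_rfl) h1 h2
    (φ := fun x l => |lam l| ^ (i + j)) ?_
  · rw [e3]
    unfold cm
    refine h5.trans ?_
    simp [zero_pow (by omega : p ≠ 0)]
  · intro x l
    beta_reduce
    rw [hh, pow_mul, sq_abs, ← pow_mul]
    have := young0 (x := lam l) hp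
    have h6 : (0:ℝ) ≤ 0 ^ p := by positivity
    linarith only [this, h6]

/-- the second moment `k_x M² k_x` -/
def c2 (C : Matrix n n ℝ) (σ : ℝ) (x : n) (ξ : n → ℝ) : ℝ := (C * MM C σ ξ ^ 2 * C) x x

/-- the common bound of the cases B -/
theorem TT_B_sum (hC : Hyp C a g κ₂) {av bv : n → n → ℝ} {lam : n → ℝ}
    (h1 : ∀ x, ∑ l, av x l ^ 2 ≤ g) (h2 : ∀ l, ∑ x, av x l ^ 2 ≤ 1 / a)
    (h3 : ∀ x, ∑ l, bv x l ^ 2 ≤ g) (h4 : ∀ l, ∑ x, bv x l ^ 2 ≤ 1 / a)
    {u s : n → ℝ} (hu : ∀ x, 0 ≤ u x) {p m₁ m₂ : ℕ}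
    (hs1 : ∀ x l, s x * |lam l| ^ (2 * m₁) ≤ 1 + lam l ^ (2 * p) + u x ^ p)
    (hs2 : ∀ x l, s x * |lam l| ^ (2 * m₂) ≤ 1 + lam l ^ (2 * p) + u x ^ p) :
    ∑ x, s x * ((cm (av x) lam (2 * m₁) + cm (bv x) lam (2 * m₂)) / 2) ≤
      1 / a * (Fintype.card n + ∑ l, lam l ^ (2 * p)) + g * ∑ x, u x ^ p := by
  have k1 := sum_weights (w := fun x l => av x l ^ 2) (lam := lam) (u := u) (p := p)
    (g := g) (a := a) (fun x l => sq_nonneg _) hu h1 h2
    (φ := fun x l => s x * |lam l| ^ (2 * m₁)) hs1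
  have k2 := sum_weights (w := fun x l => bv x l ^ 2) (lam := lam) (u := u) (p := p)
    (g := g) (a := a) (fun x l => sq_nonneg _) hu h3 h4
    (φ := fun x l => s x * |lam l| ^ (2 * m₂)) hs2
  have e : ∑ x, s x * ((cm (av x) lam (2 * m₁) + cm (bv x) lam (2 * m₂)) / 2) =
      ((∑ x, ∑ l, av x l ^ 2 * (s x * |lam l| ^ (2 * m₁))) +
        ∑ x, ∑ l, bv x l ^ 2 * (s x * |lam l| ^ (2 * m₂))) / 2 := by
    rw [← Finset.sum_add_distrib, Finset.sum_div]
    apply Finset.sum_congr rfl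
    intro x _
    unfold cm
    rw [← Finset.sum_add_distrib, ← Finset.sum_add_distrib, Finset.sum_div, Finset.sum_div,
      Finset.mul_sum]
    apply Finset.sum_congr rfl
    intro l _
    ring
  rw [e]
  linarith only [k1, k2]

/-- case B2 -/
theorem TT_B2 (hC : Hyp C a g κ₂) (hY : Contr Y) (hYC : ∀ x, (C * (Y * Y) * C) x x ≤ g)
    {A₀ : ℝ} (hA : 0 < A₀) {i j h p : ℕ} (hj : 2 ≤ j) (hji : j ≤ i)
    (hh : i + j = 2 * h + 2) (hp : h < p) (ξ : n → ℝ) :
    |TT C σ Y j i ξ| ≤ σ ^ 2 * A₀ *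
      (1 / a * (Fintype.card n + (MM C σ ξ ^ (2 * p)).trace) + g * ∑ x, (c2 C σ x ξ / A₀) ^ p) := by
  obtain ⟨av, bv, lam, e1, e2, e3, h1, h2, h3, h4⟩ := spectral_data hC hY σ ξ
  refine (abs_TT_le σ Y j i ξ).trans ?_
  rw [mul_assoc (σ ^ 2)]
  apply mul_le_mul_of_nonneg_left _ (sq_nonneg σ)
  have hc2 : ∀ x, c2 C σ x ξ = cm (av x) lam 2 := by
    intro x
    unfold c2 cm
    rw [e1]
    apply Finset.sum_congr rfl
    intro l _
    rw [sq_abs]
  have hc2n : ∀ x, 0 ≤ c2 C σ x ξ := fun x => by rw [hc2]; exact cm_nonneg _ _ _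
  have key : ∀ x, |(C * MM C σ ξ ^ j * C) x x| * |(C * (MM C σ ξ ^ i * Y) * C) x x| ≤
      A₀ * (c2 C σ x ξ / A₀ * ((cm (av x) lam (2 * h) + cm (bv x) lam (2 * h)) / 2)) := by
    intro x
    rw [e1, e2]
    refine (bound_B2 (av x) (bv x) lam hj hji hh).trans (le_of_eq ?_)
    rw [hc2]
    field_simp
  refine (Finset.sum_le_sum fun x _ => key x).trans ?_
  rw [← Finset.mul_sum, e3]
  apply mul_le_mul_of_nonneg_left _ hA.le
  refine TT_B_sum hC h1 h2 (fun x => by rw [h3 x]; exact hYC x) h4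
    (u := fun x => c2 C σ x ξ / A₀) (s := fun x => c2 C σ x ξ / A₀)
    (fun x => div_nonneg (hc2n x) hA.le) (fun x l => ?_) (fun x l => ?_)
  all_goals
    rw [pow_mul, sq_abs, ← pow_mul]
    exact young1 (div_nonneg (hc2n x) hA.le) hp

/-- case B1 -/
theorem TT_B1 (hC : Hyp C a g κ₂) (hY : Contr Y) (hYC : ∀ x, (C * (Y * Y) * C) x x ≤ g)
    {A₀ : ℝ} (hA : 0 < A₀) {i h p : ℕ} (hh : i = 2 * h + 1) (hp : h + 1 < p) (ξ : n → ℝ) :
    |TT C σ Y 1 i ξ| ≤ σ ^ 2 * √(g * A₀) *
      (1 / a * (Fintype.card n + (MM C σ ξ ^ (2 * p)).trace) + g * ∑ x, (c2 C σ x ξ / A₀) ^ p) := by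
  obtain ⟨av, bv, lam, e1, e2, e3, h1, h2, h3, h4⟩ := spectral_data hC hY σ ξ
  refine (abs_TT_le σ Y 1 i ξ).trans ?_
  rw [mul_assoc (σ ^ 2)]
  apply mul_le_mul_of_nonneg_left _ (sq_nonneg σ)
  have hc2 : ∀ x, c2 C σ x ξ = cm (av x) lam 2 := by
    intro x
    unfold c2 cm
    rw [e1]
    apply Finset.sum_congr rfl
    intro l _
    rw [sq_abs]
  have hc2n : ∀ x, 0 ≤ c2 C σ x ξ := fun x => by rw [hc2]; exact cm_nonneg _ _ _
  have hg := hC.hg
  have key : ∀ x, |(C * MM C σ ξ ^ 1 * C) x x| * |(C * (MM C σ ξ ^ i * Y) * C) x x| ≤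
      √(g * A₀) * (√(c2 C σ x ξ / A₀) *
        ((cm (av x) lam (2 * (h + 1)) + cm (bv x) lam (2 * h)) / 2)) := by
    intro x
    rw [e1, e2]
    refine (bound_B1 (av x) (bv x) lam hh).trans ?_
    rw [← mul_assoc]
    apply mul_le_mul_of_nonneg_right
    · rw [← Real.sqrt_mul (by positivity)]
      apply Real.sqrt_le_sqrt
      have c0 : cm (av x) lam 0 ≤ g := by
        unfold cm; simp only [pow_zero, mul_one]; exact h1 x
      have e : g * A₀ * (c2 C σ x ξ / A₀) = g * cm (av x) lam 2 := by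
        rw [← hc2]; field_simp
      rw [e]
      exact mul_le_mul_of_nonneg_right c0 (cm_nonneg _ _ _)
    · have := cm_nonneg (av x) lam (2 * (h + 1))
      have := cm_nonneg (bv x) lam (2 * h)
      positivity
  refine (Finset.sum_le_sum fun x _ => key x).trans ?_
  rw [← Finset.mul_sum, e3]
  apply mul_le_mul_of_nonneg_left _ (Real.sqrt_nonneg _)
  refine TT_B_sum hC h1 h2 (fun x => by rw [h3 x]; exact hYC x) h4
    (u := fun x => c2 C σ x ξ / A₀) (s := fun x => √(c2 C σ x ξ / A₀))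
    (fun x => div_nonneg (hc2n x) hA.le) (fun x l => ?_) (fun x l => ?_)
  · rw [pow_mul, sq_abs, ← pow_mul]
    exact young2 (div_nonneg (hc2n x) hA.le) hp
  · rw [pow_mul, sq_abs, ← pow_mul]
    exact young2 (div_nonneg (hc2n x) hA.le) (by omega)

end Det

end Pool.Agent.Loc
end
end -- Pool.Agent.Helper48_Loc.Terms

section -- Pool.Agent.Helper48_Loc.QFacts

/-!
# The second moment matrix `Q = σ² C diag(K_xx) C`, and the moments of `c2`
-/

set_option autoImplicit false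
set_option linter.unusedSectionVars false

open MeasureTheory ProbabilityTheory Function Filter

open scoped ENNReal BigOperators Topology NNReal

noncomputable section

namespace Pool.Agent.Loc

variable {n : Type*} [Fintype n] [DecidableEq n]

/-- `Q = σ² C diag(K_xx) C` -/
def QM (C : Matrix n n ℝ) (σ : ℝ) : Matrix n n ℝ :=
  σ ^ 2 • (C * Matrix.diagonal (fun x => (C * C) x x) * C)

variable {C : Matrix n n ℝ} {a g κ₂ σ : ℝ}

theorem Hyp.diag_nonneg (hC : Hyp C a g κ₂) (x : n) : 0 ≤ (C * C) x x := by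
  rw [Matrix.mul_apply]
  apply Finset.sum_nonneg
  intro y _
  have : C y x = C x y := by
    conv_lhs => rw [← hC.symm]
    rfl
  rw [this]
  exact mul_self_nonneg _

theorem QM_symm (hC : Hyp C a g κ₂) (σ : ℝ) : (QM C σ).transpose = QM C σ := by
  unfold QM
  rw [Matrix.transpose_smul, Matrix.transpose_mul, Matrix.transpose_mul,
    Matrix.diagonal_transpose, hC.symm, mul_assoc]

theorem form_C (hC : Hyp C a g κ₂) (v : n → ℝ) :
    v ⬝ᵥ (C * C).mulVec v = (C.mulVec v) ⬝ᵥ (C.mulVec v) := by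
  rw [← Matrix.mulVec_mulVec, Matrix.dotProduct_mulVec, ← Matrix.mulVec_transpose, hC.symm]

theorem form_Q (hC : Hyp C a g κ₂) (σ : ℝ) (v : n → ℝ) :
    v ⬝ᵥ (QM C σ).mulVec v = σ ^ 2 * ∑ x, (C * C) x x * (C.mulVec v x) ^ 2 := by
  unfold QM
  rw [Matrix.smul_mulVec, dotProduct_smul, smul_eq_mul]
  congr 1
  rw [mul_assoc, ← Matrix.mulVec_mulVec, Matrix.dotProduct_mulVec, ← Matrix.mulVec_transpose,
    hC.symm, ← Matrix.mulVec_mulVec]
  unfold dotProduct
  apply Finset.sum_congr rfl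
  intro x _
  rw [Matrix.mulVec_diagonal]
  ring

theorem form_Q_nonneg (hC : Hyp C a g κ₂) (σ : ℝ) (v : n → ℝ) :
    0 ≤ v ⬝ᵥ (QM C σ).mulVec v := by
  rw [form_Q hC]
  apply mul_nonneg (sq_nonneg _)
  exact Finset.sum_nonneg fun x _ => mul_nonneg (hC.diag_nonneg x) (sq_nonneg _)

theorem form_Q_le (hC : Hyp C a g κ₂) (σ : ℝ) (v : n → ℝ) :
    v ⬝ᵥ (QM C σ).mulVec v ≤ σ ^ 2 * g / a * (v ⬝ᵥ v) := by
  rw [form_Q hC]
  have h1 : ∑ x, (C * C) x x * (C.mulVec v x) ^ 2 ≤ g * (v ⬝ᵥ (C * C).mulVec v) := by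
    rw [form_C hC]
    unfold dotProduct
    rw [Finset.mul_sum]
    apply Finset.sum_le_sum
    intro x _
    rw [← pow_two (C.mulVec v x)]
    exact mul_le_mul_of_nonneg_right (hC.diag x) (sq_nonneg _)
  have h2 := hC.norm v
  have hg := hC.hg
  calc σ ^ 2 * ∑ x, (C * C) x x * (C.mulVec v x) ^ 2
      ≤ σ ^ 2 * (g * (1 / a * (v ⬝ᵥ v))) := by
        apply mul_le_mul_of_nonneg_left _ (sq_nonneg _)
        exact h1.trans (mul_le_mul_of_nonneg_left h2 hg.le)
    _ = _ := by ring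

/-- spectral data of `Q` -/
theorem QM_diag (hC : Hyp C a g κ₂) (σ : ℝ) :
    ∃ (O : Matrix n n ℝ) (κ : n → ℝ), O.transpose * O = 1 ∧ O * O.transpose = 1 ∧
      (∀ m : ℕ, QM C σ ^ m = O * Matrix.diagonal (fun l => κ l ^ m) * O.transpose) ∧
      (∀ l, 0 ≤ κ l) ∧ ∀ l, κ l ≤ σ ^ 2 * g / a := by
  obtain ⟨O, κ, h1, h2, h3⟩ := exists_diag_real (QM_symm hC σ)
  have h4 : ∀ l, κ l = (fun i => O i l) ⬝ᵥ (QM C σ).mulVec (fun i => O i l) := by
    intro l
    rw [← col_form]
    have h5 := h3 1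
    simp only [pow_one] at h5
    have h6 : O.transpose * QM C σ * O = Matrix.diagonal κ := by
      rw [h5, show O.transpose * (O * Matrix.diagonal (fun l => κ l) * O.transpose) * O =
        (O.transpose * O) * Matrix.diagonal (fun l => κ l) * (O.transpose * O) by
          simp only [mul_assoc], h1, one_mul, mul_one]
    rw [h6, Matrix.diagonal_apply_eq]
  refine ⟨O, κ, h1, h2, h3, fun l => ?_, fun l => ?_⟩
  · rw [h4]; exact form_Q_nonneg hC σ _
  · rw [h4]
    refine (form_Q_le hC σ _).trans (le_of_eq ?_)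
    rw [col_norm h1, mul_one]

theorem trace_QM_le (hC : Hyp C a g κ₂) (σ : ℝ) (p : ℕ) :
    (QM C σ ^ p).trace ≤ Fintype.card n * (σ ^ 2 * g / a) ^ p := by
  obtain ⟨O, κ, h1, h2, h3, h4, h5⟩ := QM_diag hC σ
  rw [h3 p, trace_diag h1]
  calc ∑ l, κ l ^ p ≤ ∑ _l : n, (σ ^ 2 * g / a) ^ p :=
        Finset.sum_le_sum fun l _ => pow_le_pow_left₀ (h4 l) (h5 l) p
    _ = _ := by simp

theorem QM_pow_symm (hC : Hyp C a g κ₂) (σ : ℝ) (m : ℕ) :
    (QM C σ ^ m).transpose = QM C σ ^ m := by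
  rw [Matrix.transpose_pow, QM_symm hC]

theorem QM_contr (hC : Hyp C a g κ₂) {σ : ℝ} (hq : σ ^ 2 * g / a ≤ 1) (m : ℕ) :
    Contr (QM C σ ^ m) := by
  refine ⟨QM_pow_symm hC σ m, fun v => ?_⟩
  obtain ⟨O, κ, h1, h2, h3, h4, h5⟩ := QM_diag hC σ
  have e1 : ∀ w : n → ℝ, (O.mulVec w) ⬝ᵥ (O.mulVec w) = w ⬝ᵥ w := by
    intro w
    rw [Matrix.dotProduct_mulVec, ← Matrix.mulVec_transpose, Matrix.mulVec_mulVec, h1,
      Matrix.one_mulVec]
  have e2 : ∀ w : n → ℝ, (O.transpose.mulVec w) ⬝ᵥ (O.transpose.mulVec w) = w ⬝ᵥ w := by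
    intro w
    rw [Matrix.dotProduct_mulVec, ← Matrix.mulVec_transpose, Matrix.mulVec_mulVec,
      Matrix.transpose_transpose, h2, Matrix.one_mulVec]
  rw [h3 m, mul_assoc, ← Matrix.mulVec_mulVec, e1, ← Matrix.mulVec_mulVec]
  rw [← e2 v]
  unfold dotProduct
  apply Finset.sum_le_sum
  intro l _
  rw [Matrix.mulVec_diagonal]
  have h6 : κ l ^ m ≤ 1 := pow_le_one₀ (h4 l) ((h5 l).trans hq)
  have h7 : 0 ≤ κ l ^ m := pow_nonneg (h4 l) m
  set z := O.transpose.mulVec v l
  have h8 : (κ l ^ m) * (κ l ^ m) ≤ 1 := by nlinarith only [h6, h7]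
  nlinarith only [mul_self_nonneg z, h8]

theorem QM_diag_bound (hC : Hyp C a g κ₂) {σ : ℝ} (hq : σ ^ 2 * g / a ≤ 1) (m : ℕ) (x : n) :
    (C * (QM C σ ^ m * QM C σ ^ m) * C) x x ≤ g := by
  obtain ⟨O, κ, h1, h2, h3, h4, h5⟩ := QM_diag hC σ
  have e1 := form_diag O C C (fun l => κ l ^ (m + m)) x x
  rw [hC.symm, ← h3] at e1
  rw [← pow_add, e1]
  calc _ ≤ ∑ l, (O.transpose * C) l x ^ 2 := by
        apply Finset.sum_le_sum
        intro l _
        have h6 : κ l ^ (m + m) ≤ 1 := pow_le_one₀ (h4 l) ((h5 l).trans hq)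
        have h7 : 0 ≤ κ l ^ (m + m) := pow_nonneg (h4 l) _
        nlinarith only [mul_self_nonneg ((O.transpose * C) l x), h6]
    _ = (C * C) x x := by rw [sum_l h2, hC.symm]
    _ ≤ g := hC.diag x

/-- the small quantity `‖Q k_x‖²` -/
theorem QQ_bound (hC : Hyp C a g κ₂) (σ : ℝ) (x : n) :
    (C * (QM C σ * QM C σ) * C) x x ≤ σ ^ 4 * g ^ 2 * κ₂ / a := by
  have hg := hC.hg
  have ha := hC.ha
  set w : n → ℝ := fun y => σ ^ 2 * ((C * C) y y * (C * C) y x) with hw
  have e1 : C * (QM C σ * QM C σ) * C = (QM C σ * C).transpose * (QM C σ * C) := by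
    rw [Matrix.transpose_mul, hC.symm, QM_symm hC]
    simp only [mul_assoc]
  have e2 : (QM C σ * C).mulVec (Pi.single x 1) = C.mulVec w := by
    unfold QM
    rw [Matrix.smul_mul, Matrix.smul_mulVec, mul_assoc, mul_assoc, ← Matrix.mulVec_mulVec,
      ← Matrix.mulVec_smul]
    congr 1
    funext y
    rw [Pi.smul_apply, smul_eq_mul, ← Matrix.mulVec_mulVec, Matrix.mulVec_diagonal,
      Matrix.mulVec_single_one]
    rfl
  have e3 : (C * (QM C σ * QM C σ) * C) x x = w ⬝ᵥ (C * C).mulVec w := by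
    rw [e1, form_C hC, ← e2, Matrix.mul_apply]
    unfold dotProduct
    apply Finset.sum_congr rfl
    intro y _
    rw [Matrix.mulVec_single_one]
    rfl
  rw [e3]
  refine (hC.norm w).trans ?_
  have h1 : w ⬝ᵥ w ≤ σ ^ 4 * g ^ 2 * κ₂ := by
    unfold dotProduct
    calc ∑ y, w y * w y ≤ ∑ y, σ ^ 4 * g ^ 2 * (C * C) x y ^ 2 := by
          apply Finset.sum_le_sum
          intro y _
          have hsym : (C * C) y x = (C * C) x y := by
            have : (C * C).transpose = C * C := by rw [Matrix.transpose_mul, hC.symm]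
            conv_lhs => rw [← this]
            rfl
          have h2 := hC.diag y
          have h3 := hC.diag_nonneg y
          have h4 : (C * C) y y ^ 2 ≤ g ^ 2 := pow_le_pow_left₀ h3 h2 2
          calc w y * w y = σ ^ 4 * ((C * C) y y ^ 2) * (C * C) x y ^ 2 := by
                rw [hw]; simp only; rw [hsym]; ring
            _ ≤ _ := by gcongr
      _ = σ ^ 4 * g ^ 2 * ∑ y, (C * C) x y ^ 2 := by rw [Finset.mul_sum]
      _ ≤ _ := by
          gcongr
          exact hC.sq x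
  calc 1 / a * (w ⬝ᵥ w) ≤ 1 / a * (σ ^ 4 * g ^ 2 * κ₂) := by gcongr
    _ = _ := by ring

theorem QM_pow_bound (hC : Hyp C a g κ₂) {σ : ℝ} (hq : σ ^ 2 * g / a ≤ 1) {m : ℕ} (hm : 1 ≤ m)
    (x : n) : (C * (QM C σ ^ m * QM C σ ^ m) * C) x x ≤ σ ^ 4 * g ^ 2 * κ₂ / a := by
  refine le_trans ?_ (QQ_bound hC σ x)
  obtain ⟨O, κ, h1, h2, h3, h4, h5⟩ := QM_diag hC σ
  have e1 := form_diag O C C (fun l => κ l ^ (m + m)) x x
  have e2 := form_diag O C C (fun l => κ l ^ (1 + 1)) x x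
  rw [hC.symm, ← h3] at e1 e2
  rw [pow_add, pow_one] at e2
  rw [← pow_add, e1, e2]
  apply Finset.sum_le_sum
  intro l _
  have h6 : κ l ^ (m + m) ≤ κ l ^ (1 + 1) :=
    pow_le_pow_of_le_one (h4 l) ((h5 l).trans hq) (by omega)
  exact mul_le_mul_of_nonneg_left h6 (mul_self_nonneg _)

/-- moments of `c2` -/
theorem moment_c2 (hC : Hyp C a g κ₂) (σ : ℝ) (x : n) {p : ℕ} (hp : 1 ≤ p) :
    ∫ ξ, (c2 C σ x ξ) ^ p ∂(γn n) ≤ (4 * Real.exp 1 * p * (σ ^ 2 * g * κ₂)) ^ p := by
  have hg := hC.hg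
  have e1 : ∀ ξ : n → ℝ, c2 C σ x ξ = ∑ w, (∑ y, (σ * C w y * (C * C) y x) * ξ y) ^ 2 := by
    intro ξ
    have h1 : C * MM C σ ξ ^ 2 * C = (MM C σ ξ * C).transpose * (MM C σ ξ * C) := by
      rw [Matrix.transpose_mul, hC.symm, MM_symm hC.symm, pow_two]
      simp only [mul_assoc]
    unfold c2
    rw [h1, Matrix.mul_apply]
    apply Finset.sum_congr rfl
    intro w _
    have h2 : (MM C σ ξ * C) w x = ∑ y, (σ * C w y * (C * C) y x) * ξ y := by
      unfold MM
      rw [mul_assoc, Matrix.mul_apply]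
      apply Finset.sum_congr rfl
      intro y _
      rw [Matrix.mul_diagonal]
      ring
    rw [Matrix.transpose_apply, h2]
    ring
  simp_rw [e1]
  refine (moment_quad (fun w y => σ * C w y * (C * C) y x) hp).trans ?_
  have hp0 : (0:ℝ) < p := by exact_mod_cast hp
  apply pow_le_pow_left₀ (by positivity)
  apply mul_le_mul_of_nonneg_left _ (by positivity)
  calc ∑ w, ∑ y, (σ * C w y * (C * C) y x) ^ 2 = ∑ y, σ ^ 2 * ((C * C) y y * (C * C) x y ^ 2) := by
        rw [Finset.sum_comm]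
        apply Finset.sum_congr rfl
        intro y _
        have hsym : (C * C) y x = (C * C) x y := by
          have : (C * C).transpose = C * C := by rw [Matrix.transpose_mul, hC.symm]
          conv_lhs => rw [← this]
          rfl
        have h3 : (C * C) y y = ∑ w, C w y ^ 2 := by
          rw [Matrix.mul_apply]
          apply Finset.sum_congr rfl
          intro w _
          have : C y w = C w y := by
            conv_lhs => rw [← hC.symm]
            rfl
          rw [this]; ring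
        rw [h3, hsym, Finset.sum_mul, Finset.mul_sum]
        apply Finset.sum_congr rfl
        intro w _
        ring
    _ ≤ ∑ y, σ ^ 2 * (g * (C * C) x y ^ 2) := by
        apply Finset.sum_le_sum
        intro y _
        have := hC.diag y
        gcongr
    _ = σ ^ 2 * g * ∑ y, (C * C) x y ^ 2 := by
        rw [Finset.mul_sum]
        apply Finset.sum_congr rfl
        intro y _
        ring
    _ ≤ _ := by
        gcongr
        exact hC.sq x

end Pool.Agent.Loc
end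
end -- Pool.Agent.Helper48_Loc.QFacts

section -- Pool.Agent.Helper48_Loc.Core

/-!
# The moment recursion
-/

set_option autoImplicit false
set_option linter.unusedSectionVars false

open MeasureTheory ProbabilityTheory Function Filter

open scoped ENNReal BigOperators Topology NNReal

noncomputable section

namespace Pool.Agent.Loc

variable {n : Type*} [Fintype n] [DecidableEq n]

/-- mixed moments -/
def SS (C : Matrix n n ℝ) (σ : ℝ) (α m : ℕ) : ℝ :=
  ∫ ξ, (MM C σ ξ ^ m * QM C σ ^ α).trace ∂(γn n)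

/-- the size of the remainder terms, relative to the dimension -/
def bet (a g κ₂ σ : ℝ) (p : ℕ) : ℝ :=
  σ ^ 2 / a * (2 * (√g * √(σ ^ 4 * g ^ 2 * κ₂ / a)) +
    3 * (4 * Real.exp 1 * p * (σ ^ 2 * g * κ₂)) +
    3 * √(g * (4 * Real.exp 1 * p * (σ ^ 2 * g * κ₂))))

variable {C : Matrix n n ℝ} {a g κ₂ σ : ℝ}

theorem TT_zero (C : Matrix n n ℝ) (σ : ℝ) (α m : ℕ) (ξ : n → ℝ) :
    TT C σ (QM C σ ^ α) 0 m ξ = (MM C σ ξ ^ m * QM C σ ^ (α + 1)).trace := by
  unfold TT
  rw [pow_zero, mul_one]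
  have h1 : ∀ Z : Matrix n n ℝ, σ ^ 2 * ∑ x, (C * C) x x * (C * Z * C) x x =
      (QM C σ * Z).trace := by
    intro Z
    unfold QM
    rw [Matrix.smul_mul, Matrix.trace_smul, smul_eq_mul,
      show C * Matrix.diagonal (fun x => (C * C) x x) * C * Z =
        C * (Matrix.diagonal (fun x => (C * C) x x) * (C * Z)) by simp only [mul_assoc],
      Matrix.trace_mul_comm C,
      show Matrix.diagonal (fun x => (C * C) x x) * (C * Z) * C =
        Matrix.diagonal (fun x => (C * C) x x) * (C * Z * C) by simp only [mul_assoc]]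
    congr 1
    unfold Matrix.trace
    apply Finset.sum_congr rfl
    intro x _
    rw [Matrix.diag_apply, Matrix.diagonal_mul]
  rw [h1, Matrix.trace_mul_comm, pow_succ, mul_assoc]

theorem TT_swap (C : Matrix n n ℝ) (σ : ℝ) (i j : ℕ) (ξ : n → ℝ) :
    TT C σ 1 j i ξ = TT C σ 1 i j ξ := by
  unfold TT
  congr 1
  apply Finset.sum_congr rfl
  intro x _
  rw [mul_one, mul_one, mul_comm]

theorem SS_expand (C : Matrix n n ℝ) (σ : ℝ) (α m : ℕ) :
    SS C σ α (m + 2) = SS C σ (α + 1) m +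
      ∑ j ∈ Finset.range m, ∫ ξ, TT C σ (QM C σ ^ α) (j + 1) (m - (j + 1)) ξ ∂(γn n) := by
  unfold SS
  rw [ibp_trace C σ (m + 1) (QM C σ ^ α)]
  have h1 : ∀ j, ∫ ξ, σ ^ 2 * ∑ x, (C * MM C σ ξ ^ j * C) x x *
      (C * (MM C σ ξ ^ (m + 1 - 1 - j) * QM C σ ^ α) * C) x x ∂(γn n) =
      ∫ ξ, TT C σ (QM C σ ^ α) j (m - j) ξ ∂(γn n) := by
    intro j
    rfl
  simp_rw [h1]
  rw [Finset.sum_range_succ', add_comm]
  congr 1
  simp_rw [Nat.sub_zero, TT_zero]

/-- the constants used in the cases B -/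
def A0 (g κ₂ σ : ℝ) (p : ℕ) : ℝ := 4 * Real.exp 1 * p * (σ ^ 2 * g * κ₂)

theorem integral_B (hC : Hyp C a g κ₂) (hκ : 0 < κ₂) (hσ : σ ≠ 0) (hag : a * g ≤ 1) {p : ℕ}
    (hp : 1 ≤ p) (hm : SS C σ 0 (2 * p) ≤ Fintype.card n) {F : (n → ℝ) → ℝ} (hF : PB F)
    {c : ℝ} (hc : 0 ≤ c)
    (hb : ∀ ξ, |F ξ| ≤ σ ^ 2 * c * (1 / a * (Fintype.card n + (MM C σ ξ ^ (2 * p)).trace) +
      g * ∑ x, (c2 C σ x ξ / A0 g κ₂ σ p) ^ p)) :
    |∫ ξ, F ξ ∂(γn n)| ≤ Fintype.card n * (σ ^ 2 / a * (3 * c)) := by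
  have ha := hC.ha
  have hg := hC.hg
  have hp0 : (0:ℝ) < p := by exact_mod_cast hp
  have hA : 0 < A0 g κ₂ σ p := by
    unfold A0
    have : 0 < σ ^ 2 := by positivity
    positivity
  have hPt : PB (fun ξ : n → ℝ => (MM C σ ξ ^ (2 * p)).trace) := ((PBM_MM C σ).pow (2 * p)).trace
  have hPc : ∀ x, PB (fun ξ : n → ℝ => (c2 C σ x ξ / A0 g κ₂ σ p) ^ p) := by
    intro x
    have h1 : PB (fun ξ : n → ℝ => c2 C σ x ξ) :=
      (((PBM.const C).mul ((PBM_MM C σ).pow 2)).mul (PBM.const C)) x x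
    have h2 := (h1.const_mul (A0 g κ₂ σ p)⁻¹).pow p
    simpa [div_eq_inv_mul] using h2
  have hPsum : PB (fun ξ : n → ℝ => ∑ x, (c2 C σ x ξ / A0 g κ₂ σ p) ^ p) :=
    PB.sum _ fun x _ => hPc x
  have hPbig : PB (fun ξ : n → ℝ => σ ^ 2 * c * (1 / a * (Fintype.card n +
      (MM C σ ξ ^ (2 * p)).trace) + g * ∑ x, (c2 C σ x ξ / A0 g κ₂ σ p) ^ p)) :=
    ((((PB.const _).add hPt).const_mul _).add (hPsum.const_mul _)).const_mul _
  have h1 : |∫ ξ, F ξ ∂(γn n)| ≤ ∫ ξ, |F ξ| ∂(γn n) := abs_integral_le_integral_abs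
  refine h1.trans ((integral_mono hF.abs.integrable hPbig.integrable hb).trans ?_)
  rw [integral_const_mul, integral_add ((((PB.const _).add hPt).const_mul _).integrable)
    ((hPsum.const_mul _).integrable), integral_const_mul, integral_const_mul,
    integral_add (PB.const _).integrable hPt.integrable, integral_finsetSum _
    fun x _ => (hPc x).integrable]
  have h2 : ∫ ξ, (MM C σ ξ ^ (2 * p)).trace ∂(γn n) ≤ Fintype.card n := by
    unfold SS at hm
    simpa using hm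
  have h3 : ∑ x, ∫ ξ, (c2 C σ x ξ / A0 g κ₂ σ p) ^ p ∂(γn n) ≤ Fintype.card n := by
    calc _ ≤ ∑ _x : n, (1:ℝ) := by
          apply Finset.sum_le_sum
          intro x _
          simp_rw [div_pow]
          rw [integral_div, div_le_one (by positivity)]
          exact moment_c2 hC σ x hp
      _ = _ := by simp
  have h4 : ∫ _ξ : n → ℝ, (Fintype.card n : ℝ) ∂(γn n) = Fintype.card n := by simp
  rw [h4]
  have hN : (0:ℝ) ≤ Fintype.card n := by positivity
  have hga : g ≤ 1 / a := by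
    rw [le_div_iff₀ ha]; linarith only [mul_comm a g, hag]
  calc σ ^ 2 * c * (1 / a * (Fintype.card n + ∫ ξ, (MM C σ ξ ^ (2 * p)).trace ∂(γn n)) +
        g * ∑ x, ∫ ξ, (c2 C σ x ξ / A0 g κ₂ σ p) ^ p ∂(γn n))
      ≤ σ ^ 2 * c * (1 / a * (Fintype.card n + Fintype.card n) + 1 / a * Fintype.card n) := by
        have h5 := mul_le_mul_of_nonneg_left h3 hg.le
        have h6 := mul_le_mul_of_nonneg_right hga hN
        apply mul_le_mul_of_nonneg_left _ (by positivity)
        apply add_le_add _ (h5.trans h6)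
        gcongr
    _ = _ := by ring

theorem bet_nonneg (hC : Hyp C a g κ₂) (σ : ℝ) (p : ℕ) : 0 ≤ bet a g κ₂ σ p := by
  have := hC.ha
  have := hC.hg
  have := hC.hκ
  unfold bet
  positivity

/-- every remainder term is small -/
theorem remainder (hC : Hyp C a g κ₂) (hκ : 0 < κ₂) (hσ : σ ≠ 0) (hag : a * g ≤ 1)
    (hq : σ ^ 2 * g / a ≤ 1) {p : ℕ} (hp : 1 ≤ p) (hm : SS C σ 0 (2 * p) ≤ Fintype.card n)
    {α j i h : ℕ} (hj : 1 ≤ j) (hi : i + j = 2 * h) (hh : h < p) (hcase : j ≤ i ∨ 1 ≤ α) :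
    |∫ ξ, TT C σ (QM C σ ^ α) j i ξ ∂(γn n)| ≤ Fintype.card n * bet a g κ₂ σ p := by
  have ha := hC.ha
  have hg := hC.hg
  have hp0 : (0:ℝ) < p := by exact_mod_cast hp
  have hσ2 : 0 < σ ^ 2 := by positivity
  have hA : 0 < A0 g κ₂ σ p := by unfold A0; positivity
  have hN : (0:ℝ) ≤ Fintype.card n := by positivity
  have hY := QM_contr hC hq α
  have hYC := QM_diag_bound hC hq α
  have hPB := PB_TT C σ (QM C σ ^ α) j i
  have t1 : 0 ≤ 2 * (√g * √(σ ^ 4 * g ^ 2 * κ₂ / a)) := by positivity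
  have t2 : 0 ≤ 3 * A0 g κ₂ σ p := by positivity
  have t3 : 0 ≤ 3 * √(g * A0 g κ₂ σ p) := by positivity
  have hbet : bet a g κ₂ σ p = σ ^ 2 / a * (2 * (√g * √(σ ^ 4 * g ^ 2 * κ₂ / a)) +
      3 * A0 g κ₂ σ p + 3 * √(g * A0 g κ₂ σ p)) := rfl
  by_cases hij : j ≤ i
  · -- case B
    rcases Nat.lt_or_ge 1 j with hj2 | hj1
    · -- B2
      obtain ⟨h', hh'⟩ : ∃ h', h = h' + 1 := ⟨h - 1, by omega⟩
      have hb := fun ξ => TT_B2 (σ := σ) hC hY hYC hA (i := i) (j := j) (h := h') (p := p) hj2 hij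
        (by omega) (by omega) ξ
      refine (integral_B hC hκ hσ hag hp hm hPB hA.le hb).trans ?_
      apply mul_le_mul_of_nonneg_left _ hN
      rw [hbet]
      apply mul_le_mul_of_nonneg_left _ (by positivity)
      linarith only [t1, t3]
    · -- B1
      have hj' : j = 1 := by omega
      subst hj'
      obtain ⟨h', hh'⟩ : ∃ h', h = h' + 1 := ⟨h - 1, by omega⟩
      have hb := fun ξ => TT_B1 (σ := σ) hC hY hYC hA (i := i) (h := h') (p := p)
        (by omega) (by omega) ξ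
      refine (integral_B hC hκ hσ hag hp hm hPB (Real.sqrt_nonneg _) hb).trans ?_
      apply mul_le_mul_of_nonneg_left _ hN
      rw [hbet]
      apply mul_le_mul_of_nonneg_left _ (by positivity)
      linarith only [hA, t1]
  · -- case A
    have hα : 1 ≤ α := by
      rcases hcase with h1 | h1
      · exact absurd h1 hij
      · exact h1
    have hlam : ∀ x, (C * (QM C σ ^ α * QM C σ ^ α) * C) x x ≤
        (√(σ ^ 4 * g ^ 2 * κ₂ / a)) ^ 2 := by
      intro x
      rw [Real.sq_sqrt (by positivity)]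
      exact QM_pow_bound hC hq hα x
    have hb := fun ξ => TT_A (σ := σ) hC hY (Real.sqrt_nonneg _) hlam (i := i) (j := j) (h := h)
      (p := p) (by omega) hi hh.le (by omega) ξ
    have hPt : PB (fun ξ : n → ℝ => (MM C σ ξ ^ (2 * p)).trace) :=
      ((PBM_MM C σ).pow (2 * p)).trace
    have h1 : |∫ ξ, TT C σ (QM C σ ^ α) j i ξ ∂(γn n)| ≤
        ∫ ξ, |TT C σ (QM C σ ^ α) j i ξ| ∂(γn n) := abs_integral_le_integral_abs
    refine h1.trans ((integral_mono hPB.abs.integrable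
      ((((PB.const _).add hPt).const_mul _).const_mul _).integrable hb).trans ?_)
    rw [integral_const_mul, integral_const_mul, integral_add (PB.const _).integrable
      hPt.integrable]
    have h2 : ∫ ξ, (MM C σ ξ ^ (2 * p)).trace ∂(γn n) ≤ Fintype.card n := by
      unfold SS at hm
      simpa using hm
    have h4 : ∫ _ξ : n → ℝ, (Fintype.card n : ℝ) ∂(γn n) = Fintype.card n := by simp
    rw [h4]
    calc σ ^ 2 * (√g * √(σ ^ 4 * g ^ 2 * κ₂ / a)) *
          (1 / a * (Fintype.card n + ∫ ξ, (MM C σ ξ ^ (2 * p)).trace ∂(γn n)))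
        ≤ σ ^ 2 * (√g * √(σ ^ 4 * g ^ 2 * κ₂ / a)) *
          (1 / a * (Fintype.card n + Fintype.card n)) := by gcongr
      _ = Fintype.card n * (σ ^ 2 / a * (2 * (√g * √(σ ^ 4 * g ^ 2 * κ₂ / a)))) := by ring
      _ ≤ _ := by
          apply mul_le_mul_of_nonneg_left _ hN
          rw [hbet]
          apply mul_le_mul_of_nonneg_left _ (by positivity)
          linarith only [hA, t3]

/-- one step of the recursion for `α ≥ 1` -/
theorem SS_step (hC : Hyp C a g κ₂) (hκ : 0 < κ₂) (hσ : σ ≠ 0) (hag : a * g ≤ 1)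
    (hq : σ ^ 2 * g / a ≤ 1) {p : ℕ} (hp : 1 ≤ p) (hm : SS C σ 0 (2 * p) ≤ Fintype.card n)
    {α h : ℕ} (hα : 1 ≤ α) (hh : h < p) :
    SS C σ α (2 * h + 2) ≤ SS C σ (α + 1) (2 * h) +
      2 * p * (Fintype.card n * bet a g κ₂ σ p) := by
  rw [SS_expand]
  have h1 : ∀ j ∈ Finset.range (2 * h),
      ∫ ξ, TT C σ (QM C σ ^ α) (j + 1) (2 * h - (j + 1)) ξ ∂(γn n) ≤
        Fintype.card n * bet a g κ₂ σ p := by
    intro j hj
    rw [Finset.mem_range] at hj
    exact (le_abs_self _).trans (remainder hC hκ hσ hag hq hp hm (by omega) (h := h) (by omega) hh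
      (Or.inr hα))
  have h2 := Finset.sum_le_sum h1
  rw [Finset.sum_const, Finset.card_range, nsmul_eq_mul] at h2
  have hb := bet_nonneg hC σ p
  have hN : (0:ℝ) ≤ Fintype.card n := by positivity
  have h3 : ((2 * h : ℕ) : ℝ) ≤ 2 * p := by
    have : 2 * h ≤ 2 * p := by omega
    exact_mod_cast this
  have h4 : ((2 * h : ℕ) : ℝ) * (Fintype.card n * bet a g κ₂ σ p) ≤
      2 * p * (Fintype.card n * bet a g κ₂ σ p) := by
    apply mul_le_mul_of_nonneg_right h3 (by positivity)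
  linarith only [h2, h4]

/-- the first step -/
theorem SS_first (hC : Hyp C a g κ₂) (hκ : 0 < κ₂) (hσ : σ ≠ 0) (hag : a * g ≤ 1)
    (hq : σ ^ 2 * g / a ≤ 1) {h : ℕ} (hh : 1 ≤ h)
    (hm : SS C σ 0 (2 * (h + 1)) ≤ Fintype.card n) :
    SS C σ 0 (2 * h + 2) ≤ 2 * SS C σ 1 (2 * h) +
      2 * (h + 1 : ℕ) * (Fintype.card n * bet a g κ₂ σ (h + 1)) := by
  rw [SS_expand, zero_add]
  obtain ⟨m, hm2⟩ : ∃ m, 2 * h = m + 1 := ⟨2 * h - 1, by omega⟩
  have hlast : ∫ ξ, TT C σ (QM C σ ^ 0) (2 * h) (2 * h - 2 * h) ξ ∂(γn n) =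
      SS C σ 1 (2 * h) := by
    unfold SS
    congr 1
    funext ξ
    rw [Nat.sub_self, pow_zero, TT_swap]
    have := TT_zero C σ 0 (2 * h) ξ
    rw [pow_zero, zero_add] at this
    exact this
  have h1 : ∑ j ∈ Finset.range (2 * h),
      ∫ ξ, TT C σ (QM C σ ^ 0) (j + 1) (2 * h - (j + 1)) ξ ∂(γn n) =
      (∑ j ∈ Finset.range m,
        ∫ ξ, TT C σ (QM C σ ^ 0) (j + 1) (2 * h - (j + 1)) ξ ∂(γn n)) + SS C σ 1 (2 * h) := by
    rw [← hlast]
    conv_lhs => rw [hm2, Finset.sum_range_succ]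
    rw [hm2]
  rw [h1]
  have h2 : ∀ j ∈ Finset.range m,
      ∫ ξ, TT C σ (QM C σ ^ 0) (j + 1) (2 * h - (j + 1)) ξ ∂(γn n) ≤
        Fintype.card n * bet a g κ₂ σ (h + 1) := by
    intro j hj
    rw [Finset.mem_range] at hj
    rcases le_total (j + 1) (2 * h - (j + 1)) with h3 | h3
    · exact (le_abs_self _).trans (remainder hC hκ hσ hag hq (by omega) hm (by omega) (h := h)
        (by omega) (by omega) (Or.inl h3))
    · have e : ∀ ξ, TT C σ (QM C σ ^ 0) (j + 1) (2 * h - (j + 1)) ξ =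
          TT C σ (QM C σ ^ 0) (2 * h - (j + 1)) (j + 1) ξ := by
        intro ξ
        rw [pow_zero, TT_swap]
      simp_rw [e]
      exact (le_abs_self _).trans (remainder hC hκ hσ hag hq (by omega) hm (by omega) (h := h)
        (by omega) (by omega) (Or.inl h3))
  have h3 := Finset.sum_le_sum h2
  rw [Finset.sum_const, Finset.card_range, nsmul_eq_mul] at h3
  have hb := bet_nonneg hC σ (h + 1)
  have hN : (0:ℝ) ≤ Fintype.card n := by positivity
  have h5 : (m : ℝ) ≤ 2 * (h + 1 : ℕ) := by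
    have : m ≤ 2 * (h + 1) := by omega
    exact_mod_cast this
  have h4 : (m : ℝ) * (Fintype.card n * bet a g κ₂ σ (h + 1)) ≤
      2 * (h + 1 : ℕ) * (Fintype.card n * bet a g κ₂ σ (h + 1)) := by
    apply mul_le_mul_of_nonneg_right h5 (by positivity)
  linarith only [h3, h4]

/-- **The normalised moment bound.** -/
theorem SS_normalised (hC : Hyp C a g κ₂) (hκ : 0 < κ₂) (hσ : σ ≠ 0) (hag : a * g ≤ 1)
    (hq : σ ^ 2 * g / a ≤ 1) {p : ℕ} (hp : 2 ≤ p) (hm : SS C σ 0 (2 * p) ≤ Fintype.card n) :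
    SS C σ 0 (2 * p) ≤ 2 * (Fintype.card n * (σ ^ 2 * g / a) ^ p) +
      4 * p ^ 2 * (Fintype.card n * bet a g κ₂ σ p) := by
  have hN : (0:ℝ) ≤ Fintype.card n := by positivity
  have hb := bet_nonneg hC σ p
  -- descending recursion
  have hrec : ∀ k : ℕ, ∀ α : ℕ, 1 ≤ α → α + k = p →
      SS C σ α (2 * k) ≤ Fintype.card n * (σ ^ 2 * g / a) ^ p +
        k * (2 * p * (Fintype.card n * bet a g κ₂ σ p)) := by
    intro k
    induction k with
    | zero =>
      intro α hα hαp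
      have h1 : SS C σ α (2 * 0) = (QM C σ ^ α).trace := by
        unfold SS
        simp
      rw [h1, ← hαp, Nat.add_zero, Nat.cast_zero, zero_mul, add_zero]
      exact trace_QM_le hC σ α
    | succ k ih =>
      intro α hα hαp
      have h1 := ih (α + 1) (by omega) (by omega)
      have h2 := SS_step hC hκ hσ hag hq (by omega) hm (α := α) (h := k) hα (by omega)
      rw [show 2 * (k + 1) = 2 * k + 2 by ring]
      push_cast
      linarith only [h1, h2]
  obtain ⟨h, rfl⟩ : ∃ h, p = h + 1 := ⟨p - 1, by omega⟩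
  have h1 := SS_first hC hκ hσ hag hq (h := h) (by omega) hm
  have h2 := hrec h 1 le_rfl (by omega)
  rw [show 2 * (h + 1) = 2 * h + 2 by ring] at *
  have h3 : (h : ℝ) ≤ (h + 1 : ℕ) := by push_cast; linarith only
  set P : ℝ := ((h + 1 : ℕ) : ℝ) with hP
  set X := Fintype.card n * bet a g κ₂ σ (h + 1) with hX
  have hX0 : 0 ≤ X := by positivity
  have hP0 : 0 ≤ P := by positivity
  have h4 : P = h + 1 := by rw [hP]; push_cast; ring
  have hh0 : (0:ℝ) ≤ h := by positivity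
  calc SS C σ 0 (2 * h + 2) ≤ 2 * SS C σ 1 (2 * h) + 2 * P * X := h1
    _ ≤ 2 * (Fintype.card n * (σ ^ 2 * g / a) ^ (h + 1) + h * (2 * P * X)) + 2 * P * X := by
        linarith only [h2]
    _ ≤ _ := by
        have : (h : ℝ) = P - 1 := by linarith only [h4]
        rw [this]
        nlinarith only [mul_nonneg hP0 hX0]

end Pool.Agent.Loc
end
end -- Pool.Agent.Helper48_Loc.Core

section -- Pool.Agent.Helper48_Loc.MomentBound

/-!
# The moment bound and the tail bound for `‖M‖`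
-/

set_option autoImplicit false
set_option linter.unusedSectionVars false

open MeasureTheory ProbabilityTheory Function Filter

open scoped ENNReal BigOperators Topology NNReal

noncomputable section

namespace Pool.Agent.Loc

variable {n : Type*} [Fintype n] [DecidableEq n]

variable {C : Matrix n n ℝ} {a g κ₂ σ : ℝ}

/-- rescaling of the hypotheses -/
theorem Hyp.rescale (hC : Hyp C a g κ₂) {s : ℝ} (hs : 0 < s) :
    Hyp ((√s)⁻¹ • C) (a * s) (g / s) (κ₂ / s ^ 2) := by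
  have hss : (√s)⁻¹ * (√s)⁻¹ = 1 / s := by
    rw [← mul_inv, Real.mul_self_sqrt hs.le, one_div]
  have hCC : ((√s)⁻¹ • C) * ((√s)⁻¹ • C) = (1 / s) • (C * C) := by
    rw [Matrix.smul_mul, Matrix.mul_smul, smul_smul, hss]
  have ha := hC.ha
  have hg := hC.hg
  have hκ := hC.hκ
  refine ⟨?_, by positivity, by positivity, by positivity, ?_, ?_, ?_⟩
  · rw [Matrix.transpose_smul, hC.symm]
  · intro x
    rw [hCC, Matrix.smul_apply, smul_eq_mul]
    have := hC.diag x
    calc 1 / s * (C * C) x x ≤ 1 / s * g := by gcongr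
      _ = g / s := by ring
  · intro v
    rw [hCC, Matrix.smul_mulVec, dotProduct_smul, smul_eq_mul]
    have := hC.norm v
    calc 1 / s * (v ⬝ᵥ (C * C).mulVec v) ≤ 1 / s * (1 / a * (v ⬝ᵥ v)) := by gcongr
      _ = 1 / (a * s) * (v ⬝ᵥ v) := by field_simp
  · intro x
    rw [hCC]
    have := hC.sq x
    calc ∑ y, ((1 / s) • (C * C)) x y ^ 2 = (1 / s) ^ 2 * ∑ y, (C * C) x y ^ 2 := by
          rw [Finset.mul_sum]
          apply Finset.sum_congr rfl
          intro y _
          rw [Matrix.smul_apply, smul_eq_mul]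
          ring
      _ ≤ (1 / s) ^ 2 * κ₂ := by gcongr
      _ = κ₂ / s ^ 2 := by rw [div_pow, one_pow]; ring

theorem MM_rescale (C : Matrix n n ℝ) (σ : ℝ) {s : ℝ} (hs : 0 < s) (ξ : n → ℝ) :
    MM ((√s)⁻¹ • C) σ ξ = (1 / s) • MM C σ ξ := by
  have hss : (√s)⁻¹ * (√s)⁻¹ = 1 / s := by
    rw [← mul_inv, Real.mul_self_sqrt hs.le, one_div]
  unfold MM
  rw [Matrix.smul_mul, Matrix.smul_mul, Matrix.mul_smul, smul_smul, hss]

theorem SS_rescale (C : Matrix n n ℝ) (σ : ℝ) {s : ℝ} (hs : 0 < s) (m : ℕ) :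
    SS ((√s)⁻¹ • C) σ 0 m = (1 / s) ^ m * SS C σ 0 m := by
  unfold SS
  simp_rw [MM_rescale C σ hs, pow_zero, mul_one, smul_pow, Matrix.trace_smul, smul_eq_mul]
  rw [integral_const_mul]

theorem bet_le (hC : Hyp C a g κ₂) (hq : σ ^ 2 * g / a ≤ 1) {p : ℕ} (hp : 1 ≤ p)
    (hw : √(σ ^ 2 * κ₂) ≤ 1) :
    bet a g κ₂ σ p ≤ 45 * p * √(σ ^ 2 * κ₂) := by
  have ha := hC.ha
  have hg := hC.hg
  have hκ := hC.hκ
  have hp1 : (1:ℝ) ≤ p := by exact_mod_cast hp
  set w := √(σ ^ 2 * κ₂) with hwdef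
  have hw0 : 0 ≤ w := Real.sqrt_nonneg _
  have hww : w ^ 2 = σ ^ 2 * κ₂ := Real.sq_sqrt (by positivity)
  set q := σ ^ 2 * g / a with hqdef
  have hq0 : 0 ≤ q := by positivity
  have he : Real.exp 1 ≤ 2.7182818286 := Real.exp_one_lt_d9.le
  have he0 : 0 < Real.exp 1 := Real.exp_pos 1
  -- first term
  have t1 : σ ^ 2 / a * (√g * √(σ ^ 4 * g ^ 2 * κ₂ / a)) ≤ w := by
    have h1 : σ ^ 2 / a * (√g * √(σ ^ 4 * g ^ 2 * κ₂ / a)) = √(q ^ 3 * (σ ^ 2 * κ₂)) := by
      rw [← Real.sqrt_mul hg.le, ← Real.sqrt_sq (show 0 ≤ σ ^ 2 / a by positivity),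
        ← Real.sqrt_mul (by positivity)]
      congr 1
      rw [hqdef]
      field_simp
    rw [h1]
    apply Real.sqrt_le_sqrt
    have : q ^ 3 ≤ 1 := pow_le_one₀ hq0 hq
    calc q ^ 3 * (σ ^ 2 * κ₂) ≤ 1 * (σ ^ 2 * κ₂) := by gcongr
      _ = _ := one_mul _
  have t2 : σ ^ 2 / a * (4 * Real.exp 1 * p * (σ ^ 2 * g * κ₂)) ≤ 11 * p * w := by
    have h1 : σ ^ 2 / a * (4 * Real.exp 1 * p * (σ ^ 2 * g * κ₂)) =
        4 * Real.exp 1 * p * (q * w ^ 2) := by
      rw [hww, hqdef]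
      field_simp
    rw [h1]
    have h2 : q * w ^ 2 ≤ 1 * w := by
      have : w ^ 2 ≤ w := by nlinarith only [hw, hw0]
      exact mul_le_mul hq this (by positivity) zero_le_one
    calc 4 * Real.exp 1 * p * (q * w ^ 2) ≤ 4 * Real.exp 1 * p * (1 * w) := by gcongr
      _ ≤ 4 * 2.7182818286 * p * (1 * w) := by gcongr
      _ ≤ 11 * p * w := by nlinarith [mul_nonneg (by linarith only [hp1] : (0:ℝ) ≤ p) hw0]
  have t3 : σ ^ 2 / a * √(g * (4 * Real.exp 1 * p * (σ ^ 2 * g * κ₂))) ≤ 10 / 3 * p * w := by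
    have h1 : σ ^ 2 / a * √(g * (4 * Real.exp 1 * p * (σ ^ 2 * g * κ₂))) =
        √(q ^ 2 * (4 * Real.exp 1 * p) * (σ ^ 2 * κ₂)) := by
      rw [← Real.sqrt_sq (show 0 ≤ σ ^ 2 / a by positivity), ← Real.sqrt_mul (by positivity)]
      congr 1
      rw [hqdef]
      field_simp
    rw [h1]
    have h3 : √(q ^ 2 * (4 * Real.exp 1 * p) * (σ ^ 2 * κ₂)) ≤ √((10 / 3 * p * w) ^ 2) := by
      apply Real.sqrt_le_sqrt
      have h4 : q ^ 2 ≤ 1 := pow_le_one₀ hq0 hq
      calc q ^ 2 * (4 * Real.exp 1 * p) * (σ ^ 2 * κ₂)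
          ≤ 1 * (4 * Real.exp 1 * p) * (σ ^ 2 * κ₂) := by gcongr
        _ ≤ 1 * (4 * 2.7182818286 * p) * (σ ^ 2 * κ₂) := by gcongr
        _ = (4 * 2.7182818286 * p) * w ^ 2 := by rw [hww]; ring
        _ ≤ (10 / 3 * p * w) ^ 2 := by
            have h5 : (p:ℝ) ≤ p ^ 2 := by nlinarith only [hp1]
            have h6 : 0 ≤ w ^ 2 := by positivity
            nlinarith [mul_le_mul_of_nonneg_right h5 h6, mul_nonneg (by linarith only [hp1] : (0:ℝ) ≤ p) h6]
    rwa [Real.sqrt_sq (by positivity)] at h3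
  unfold bet
  have hpw : w ≤ p * w := by nlinarith only [hp1, hw0]
  calc σ ^ 2 / a * (2 * (√g * √(σ ^ 4 * g ^ 2 * κ₂ / a)) +
        3 * (4 * Real.exp 1 * p * (σ ^ 2 * g * κ₂)) +
        3 * √(g * (4 * Real.exp 1 * p * (σ ^ 2 * g * κ₂))))
      = 2 * (σ ^ 2 / a * (√g * √(σ ^ 4 * g ^ 2 * κ₂ / a))) +
        3 * (σ ^ 2 / a * (4 * Real.exp 1 * p * (σ ^ 2 * g * κ₂))) +
        3 * (σ ^ 2 / a * √(g * (4 * Real.exp 1 * p * (σ ^ 2 * g * κ₂)))) := by ring
    _ ≤ 2 * w + 3 * (11 * p * w) + 3 * (10 / 3 * p * w) := by gcongr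
    _ ≤ 45 * p * w := by nlinarith only [hpw]

/-- rescaled remainder -/
theorem bet_rescale (hC : Hyp C a g κ₂) {s : ℝ} (hs : 0 < s) (hs2 : 1 / 2 ≤ s ^ 2)
    (p : ℕ) :
    bet (a * s) (g / s) (κ₂ / s ^ 2) σ p ≤ 4 * bet a g κ₂ σ p := by
  have ha := hC.ha
  have hg := hC.hg
  have hκ := hC.hκ
  have hu2 : (1 / s) ^ 2 ≤ 2 := by
    rw [div_pow, one_pow, div_le_iff₀ (by positivity)]
    linarith only [hs2]
  have hu0 : 0 < 1 / s := by positivity
  have hu4 : (1 / s) ^ 4 ≤ 4 := by nlinarith only [hu2]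
  have hu3 : (1 / s) ^ 3 ≤ 4 := by
    have h1 : 1 / s ≤ 2 := by nlinarith only [hu2, hu0]
    calc (1 / s) ^ 3 = (1 / s) ^ 2 * (1 / s) := by ring
      _ ≤ 2 * 2 := by gcongr
      _ = 4 := by norm_num
  have e1 : σ ^ 2 / (a * s) = σ ^ 2 / a * (1 / s) := by field_simp
  have e2 : √(g / s) * √(σ ^ 4 * (g / s) ^ 2 * (κ₂ / s ^ 2) / (a * s)) =
      √g * √(σ ^ 4 * g ^ 2 * κ₂ / a) * (1 / s) ^ 3 := by
    rw [← Real.sqrt_mul (by positivity), ← Real.sqrt_mul (by positivity),
      ← Real.sqrt_sq (show 0 ≤ (1 / s) ^ 3 by positivity), ← Real.sqrt_mul (by positivity)]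
    congr 1
    field_simp
  have e3 : 4 * Real.exp 1 * p * (σ ^ 2 * (g / s) * (κ₂ / s ^ 2)) =
      4 * Real.exp 1 * p * (σ ^ 2 * g * κ₂) * (1 / s) ^ 3 := by
    field_simp
  have e4 : √(g / s * (4 * Real.exp 1 * p * (σ ^ 2 * (g / s) * (κ₂ / s ^ 2)))) =
      √(g * (4 * Real.exp 1 * p * (σ ^ 2 * g * κ₂))) * (1 / s) ^ 2 := by
    rw [← Real.sqrt_sq (show 0 ≤ (1 / s) ^ 2 by positivity), ← Real.sqrt_mul (by positivity)]
    congr 1
    field_simp
  unfold bet
  rw [e1, e2, e4, e3]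
  set X := √g * √(σ ^ 4 * g ^ 2 * κ₂ / a) with hX
  set Y := 4 * Real.exp 1 * p * (σ ^ 2 * g * κ₂) with hY
  set Z := √(g * Y) with hZ
  have hX0 : 0 ≤ X := by positivity
  have hY0 : 0 ≤ Y := by positivity
  have hZ0 : 0 ≤ Z := Real.sqrt_nonneg _
  have hc : 0 ≤ σ ^ 2 / a := by positivity
  calc σ ^ 2 / a * (1 / s) * (2 * (X * (1 / s) ^ 3) + 3 * (Y * (1 / s) ^ 3) +
        3 * (Z * (1 / s) ^ 2))
      = σ ^ 2 / a * (2 * X * (1 / s) ^ 4 + 3 * Y * (1 / s) ^ 4 + 3 * Z * (1 / s) ^ 3) := by ring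
    _ ≤ σ ^ 2 / a * (2 * X * 4 + 3 * Y * 4 + 3 * Z * 4) := by gcongr
    _ = _ := by ring

/-- **The moment bound.** -/
theorem moment_bound (hC : Hyp C a g κ₂) (hκ : 0 < κ₂) (hσ : σ ≠ 0) (hag : a * g ≤ 1)
    (hq1 : 1 / 2 ≤ σ ^ 2 * g / a) (hq : σ ^ 2 * g / a ≤ 1) {p : ℕ} (hp : 2 ≤ p)
    (hsmall : 1440 * (p : ℝ) ^ 3 * √(σ ^ 2 * κ₂) ≤ 1) :
    SS C σ 0 (2 * p) ≤ 4 * (Fintype.card n * (σ ^ 2 * g / a) ^ p) := by
  by_contra hcon
  push Not at hcon
  have ha := hC.ha
  have hg := hC.hg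
  have hp1 : (2:ℝ) ≤ p := by exact_mod_cast hp
  have hw0 : 0 ≤ √(σ ^ 2 * κ₂) := Real.sqrt_nonneg _
  rcases isEmpty_or_nonempty n with hempty | hne
  · have h1 : SS C σ 0 (2 * p) = 0 := by
      unfold SS
      simp [Matrix.trace]
    rw [h1] at hcon
    simp at hcon
  have hN : (0:ℝ) < Fintype.card n := by exact_mod_cast Fintype.card_pos
  set q := σ ^ 2 * g / a with hqdef
  have hq0 : 0 < q := by linarith only [hq1]
  set m := SS C σ 0 (2 * p) with hm
  have hm0 : 0 < m := by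
    have : 0 < 4 * (Fintype.card n * q ^ p) := by positivity
    linarith only [hcon, this]
  set s : ℝ := (m / Fintype.card n) ^ ((1:ℝ) / (2 * p : ℕ)) with hs
  have hbase : 0 < m / Fintype.card n := by positivity
  have hs0 : 0 < s := Real.rpow_pos_of_pos hbase _
  have hspow : s ^ (2 * p) = m / Fintype.card n := by
    rw [hs, ← Real.rpow_natCast, ← Real.rpow_mul hbase.le, one_div, inv_mul_cancel₀,
      Real.rpow_one]
    have : 0 < 2 * p := by omega
    positivity
  have hs4 : 4 * q ^ p < (s ^ 2) ^ p := by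
    rw [← pow_mul, hspow, lt_div_iff₀ hN]
    linarith only [hcon]
  have hqs : q < s ^ 2 := by
    by_contra h1
    push Not at h1
    have h2 : (s ^ 2) ^ p ≤ q ^ p := pow_le_pow_left₀ (by positivity) h1 p
    have h3 : 0 < q ^ p := by positivity
    linarith only [hs4, h2, h3]
  have hs2 : 1 / 2 ≤ s ^ 2 := by linarith only [hq1, hqs]
  have hC' := hC.rescale hs0
  have hq' : σ ^ 2 * (g / s) / (a * s) = q / s ^ 2 := by
    rw [hqdef]; field_simp
  have hSS : SS ((√s)⁻¹ • C) σ 0 (2 * p) = Fintype.card n := by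
    rw [SS_rescale C σ hs0, ← hm, div_pow, one_pow, hspow]
    field_simp
  have hmain := SS_normalised hC' (by positivity) hσ
    (by rw [show a * s * (g / s) = a * g by field_simp]; exact hag)
    (by rw [hq', div_le_one (by positivity)]; exact hqs.le) hp hSS.le
  rw [hSS, hq'] at hmain
  have h1 : (q / s ^ 2) ^ p < 1 / 4 := by
    rw [div_pow, div_lt_iff₀ (by positivity)]
    linarith only [hs4]
  have hw1 : √(σ ^ 2 * κ₂) ≤ 1 := by
    have h5 : 1 * √(σ ^ 2 * κ₂) ≤ 1440 * (p : ℝ) ^ 3 * √(σ ^ 2 * κ₂) := by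
      apply mul_le_mul_of_nonneg_right _ hw0
      have : (1:ℝ) ≤ (p:ℝ) ^ 3 := one_le_pow₀ (by linarith only [hp1])
      linarith only [this]
    linarith only [hsmall, h5]
  have hb1 := bet_rescale (σ := σ) hC hs0 hs2 p
  have hb2 := bet_le hC hq (p := p) (by omega) hw1
  have hb3 : 4 * (p:ℝ) ^ 2 * bet (a * s) (g / s) (κ₂ / s ^ 2) σ p ≤ 1 / 2 := by
    calc 4 * (p:ℝ) ^ 2 * bet (a * s) (g / s) (κ₂ / s ^ 2) σ p
        ≤ 4 * (p:ℝ) ^ 2 * (4 * (45 * p * √(σ ^ 2 * κ₂))) := by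
          apply mul_le_mul_of_nonneg_left _ (by positivity)
          exact hb1.trans (by linarith only [hb2])
      _ = 1 / 2 * (1440 * (p : ℝ) ^ 3 * √(σ ^ 2 * κ₂)) := by ring
      _ ≤ 1 / 2 * 1 := by gcongr
      _ = _ := by ring
  have h2 : 2 * (Fintype.card n * (q / s ^ 2) ^ p) < 1 / 2 * Fintype.card n := by
    have := mul_lt_mul_of_pos_left h1 hN
    linarith only [this]
  have h3 : 4 * (p:ℝ) ^ 2 * (Fintype.card n * bet (a * s) (g / s) (κ₂ / s ^ 2) σ p) ≤
      1 / 2 * Fintype.card n := by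
    have := mul_le_mul_of_nonneg_right hb3 hN.le
    calc 4 * (p:ℝ) ^ 2 * (Fintype.card n * bet (a * s) (g / s) (κ₂ / s ^ 2) σ p) =
        4 * (p:ℝ) ^ 2 * bet (a * s) (g / s) (κ₂ / s ^ 2) σ p * Fintype.card n := by ring
      _ ≤ _ := this
  linarith only [hmain, h2, h3]

/-- control of the quadratic form by the trace of a power -/
theorem form_le_of_trace {M : Matrix n n ℝ} (hM : M.transpose = M) {p : ℕ} (hp : 1 ≤ p) {θ : ℝ}
    (hθ : 0 ≤ θ) (h : (M ^ (2 * p)).trace ≤ θ ^ (2 * p)) (v : n → ℝ) :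
    |v ⬝ᵥ M.mulVec v| ≤ θ * (v ⬝ᵥ v) := by
  obtain ⟨U, lam, hU1, hU2, hMp⟩ := exists_diag_real hM
  have htr : (M ^ (2 * p)).trace = ∑ l, lam l ^ (2 * p) := by
    rw [hMp, trace_diag hU1]
  have hlam : ∀ l, |lam l| ≤ θ := by
    intro l
    have h1 : lam l ^ (2 * p) ≤ θ ^ (2 * p) := by
      refine le_trans ?_ h
      rw [htr]
      exact Finset.single_le_sum (f := fun l => lam l ^ (2 * p))
        (fun l _ => by rw [pow_mul]; positivity) (Finset.mem_univ l)
    have h2 : |lam l| ^ (2 * p) ≤ θ ^ (2 * p) := by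
      rwa [pow_mul, sq_abs, ← pow_mul]
    exact le_of_pow_le_pow_left₀ (by omega) hθ h2
  have hform : v ⬝ᵥ M.mulVec v = ∑ l, (U.transpose.mulVec v) l ^ 2 * lam l := by
    have h1 := hMp 1
    rw [pow_one] at h1
    rw [h1, ← Matrix.mulVec_mulVec, ← Matrix.mulVec_mulVec, Matrix.dotProduct_mulVec,
      ← Matrix.mulVec_transpose]
    unfold dotProduct
    apply Finset.sum_congr rfl
    intro l _
    rw [Matrix.mulVec_diagonal]
    ring
  have hnorm : v ⬝ᵥ v = ∑ l, (U.transpose.mulVec v) l ^ 2 := by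
    have h1 : (U.transpose.mulVec v) ⬝ᵥ (U.transpose.mulVec v) = v ⬝ᵥ v := by
      rw [Matrix.dotProduct_mulVec, ← Matrix.mulVec_transpose, Matrix.transpose_transpose,
        Matrix.mulVec_mulVec, hU2, Matrix.one_mulVec]
    rw [← h1]
    unfold dotProduct
    apply Finset.sum_congr rfl
    intro l _
    ring
  rw [hform, hnorm, Finset.mul_sum]
  refine (Finset.abs_sum_le_sum_abs _ _).trans (Finset.sum_le_sum fun l _ => ?_)
  rw [abs_mul, abs_of_nonneg (sq_nonneg _), mul_comm]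
  exact mul_le_mul_of_nonneg_right (hlam l) (sq_nonneg _)

/-- **The tail bound.** -/
theorem tail_bound (hC : Hyp C a g κ₂) (hκ : 0 < κ₂) (hσ : σ ≠ 0) (hag : a * g ≤ 1)
    (hq1 : 1 / 2 ≤ σ ^ 2 * g / a) (hq : σ ^ 2 * g / a ≤ 1) {p : ℕ} (hp : 2 ≤ p)
    (hsmall : 1440 * (p : ℝ) ^ 3 * √(σ ^ 2 * κ₂) ≤ 1) {θ : ℝ} (hθ : 0 < θ) :
    (γn n) {ξ | θ ^ (2 * p) ≤ (MM C σ ξ ^ (2 * p)).trace} ≤
      ENNReal.ofReal (4 * Fintype.card n * (σ ^ 2 * g / a / θ ^ 2) ^ p) := by
  have hPt : PB (fun ξ : n → ℝ => (MM C σ ξ ^ (2 * p)).trace) := ((PBM_MM C σ).pow (2 * p)).trace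
  have h0 : ∀ ξ : n → ℝ, 0 ≤ (MM C σ ξ ^ (2 * p)).trace := by
    intro ξ
    obtain ⟨U, lam, hU1, hU2, hMp⟩ := exists_diag_real (MM_symm hC.symm σ ξ)
    rw [hMp, trace_diag hU1]
    exact Finset.sum_nonneg fun l _ => by rw [pow_mul]; positivity
  have h1 := mul_meas_ge_le_integral_of_nonneg (μ := γn n) (Filter.Eventually.of_forall h0)
    hPt.integrable (θ ^ (2 * p))
  have h2 := moment_bound hC hκ hσ hag hq1 hq hp hsmall
  have h3 : ∫ ξ, (MM C σ ξ ^ (2 * p)).trace ∂(γn n) = SS C σ 0 (2 * p) := by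
    unfold SS
    simp
  rw [h3] at h1
  have h4 : (γn n).real {ξ | θ ^ (2 * p) ≤ (MM C σ ξ ^ (2 * p)).trace} ≤
      4 * Fintype.card n * (σ ^ 2 * g / a / θ ^ 2) ^ p := by
    have h5 := h1.trans h2
    have h6 : 0 < θ ^ (2 * p) := by positivity
    rw [mul_comm, ← le_div_iff₀ h6] at h5
    refine h5.trans (le_of_eq ?_)
    rw [div_pow _ (θ ^ 2), ← pow_mul]
    ring
  rw [← ENNReal.ofReal_toReal (measure_ne_top (γn n) _)]
  exact ENNReal.ofReal_le_ofReal h4

end Pool.Agent.Loc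
end
end -- Pool.Agent.Helper48_Loc.MomentBound
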