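import Pool.Agent.Helper48_Loc.Defs

/-!
# Merged copies (generated) of the modules

* `Pool.Agent.Helper54_BED.Defs`
* `Pool.Agent.Helper54_BED.LA`
* `Pool.Agent.Helper54_BED.Stmt`
* `Pool.Agent.Helper61_BED.Cov`
* `Pool.Agent.Helper61_BED.Mcs`
-/

set_option autoImplicit false

section -- Pool.Agent.Helper54_BED.Defs

/-!
# Band edge delocalization (BED): definitions

The operator `z - V - Δ` on the discrete torus `(ℤ/M)^d`, its inverse, the landscape function
`DD z V = (z - V - Δ)⁻¹ 1`.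
-/

set_option autoImplicit false

open MeasureTheory ProbabilityTheory

open scoped ENNReal NNReal BigOperators

noncomputable section

namespace Pool.Agent.BED

open Pool.Agent.Anderson Pool.Agent.Loc

/-- the discrete torus `(ℤ/M)^d` -/
abbrev Tor (d M : ℕ) : Type := Fin d → ZMod M

variable {d M : ℕ}

/-- the unit vectors -/
def ev (i : Fin d) : Tor d M := Pi.single i 1

/-- the adjacency matrix of the torus (with multiplicities): `(adj f)(x)` is the sum of `f` over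
the `2d` neighbours of `x` -/
def adj (d M : ℕ) [NeZero M] : Matrix (Tor d M) (Tor d M) ℝ :=
  Matrix.of fun x y => ∑ i : Fin d, ((if y = x + ev i then (1 : ℝ) else 0) +
    (if y = x - ev i then (1 : ℝ) else 0))

/-- the matrix of `z - V - Δ` on the torus -/
def AM [NeZero M] (z : ℝ) (V : Tor d M → ℝ) : Matrix (Tor d M) (Tor d M) ℝ :=
  Matrix.diagonal (fun x => z - V x) - adj d M

/-- the inverse of `z - V - Δ` -/
def GM [NeZero M] (z : ℝ) (V : Tor d M → ℝ) : Matrix (Tor d M) (Tor d M) ℝ := (AM z V)⁻¹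

/-- the landscape function `(z - V - Δ)⁻¹ 1` -/
def DD [NeZero M] (z : ℝ) (V : Tor d M → ℝ) (x : Tor d M) : ℝ := ∑ y, GM z V x y

/-- `1 - (z - V - Δ)/(8d)` -/
def TM [NeZero M] (z : ℝ) (V : Tor d M → ℝ) : Matrix (Tor d M) (Tor d M) ℝ :=
  1 - (1 / (8 * (d : ℝ))) • AM z V

/-- the Dirichlet form of the torus -/
def energy [NeZero M] (u : Tor d M → ℝ) : ℝ := ∑ x, ∑ i : Fin d, (u (x + ev i) - u x) ^ 2

/-- `√t` for `d = 3`, `1 + log t` for `d = 4`, `1` otherwise -/
def growth (d : ℕ) (t : ℝ) : ℝ :=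
  if d = 3 then Real.sqrt t else if d = 4 then 1 + Real.log t else 1

/-- the constant in the heat kernel bound -/
def KH (d : ℕ) : ℝ := 12 * (36 * (d : ℝ) ^ 3) ^ d

/-- the set of potentials with the bounds `m` for the landscape function, `B` for the row sums of
squares and `C1` for the diagonal of the Green function -/
def goodSet [NeZero M] (z m B C1 : ℝ) : Set (Tor d M → ℝ) :=
  {V | (AM z V).PosDef ∧ (∀ x, DD z V x ≤ m) ∧ (∀ x, ∑ y, (GM z V x y) ^ 2 ≤ B) ∧
    ∀ x, GM z V x x ≤ C1}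

/-- the landscape function is within two percent of `μ` -/
def Flat [NeZero M] (z μ : ℝ) (V : Tor d M → ℝ) : Prop :=
  (∀ x, -1 ≤ V x) ∧ (AM z V).PosDef ∧ ∀ x, |DD z V x - μ| ≤ μ / 50

/-- independent centred Gaussians of variance `v` on the torus -/
def gau (d M : ℕ) [NeZero M] (v : ℝ≥0) : Measure (Tor d M → ℝ) :=
  Measure.pi fun _ => gaussianReal 0 v

/-- translation -/
def tr (x : Tor d M) (V : Tor d M → ℝ) : Tor d M → ℝ := fun y => V (x + y)

/-- the representative of a point of the torus in the box `(-M/2, M/2]^d` -/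
def rep (x : Tor d M) : Site d := fun i => (x i).valMinAbs

/-- `u ∈ ℓ²(ℤ^d)` vanishes outside of `S` and solves `(Δ + W) u = E u` on `S`: `u` is an
eigenfunction, with the eigenvalue `E`, of the restriction of `Δ + W` to `S` (or `u = 0`) -/
def IsEigenOn (S : Set (Site d)) (W : Site d → ℝ) (E : ℝ) (u : L2 d) : Prop :=
  (∀ x, x ∉ S → u x = 0) ∧ ∀ x, x ∈ S → lap u x + (W x : ℂ) * u x = (E : ℂ) * u x

end Pool.Agent.BED
end
end -- Pool.Agent.Helper54_BED.Defs

section -- Pool.Agent.Helper54_BED.LA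

/-!
# Linear algebra of `diagonal a - W`, `W` symmetric with nonnegative entries
-/

set_option autoImplicit false
set_option linter.unusedSectionVars false

open scoped BigOperators

noncomputable section

namespace Pool.Agent.BED

open Matrix

section general

variable {X : Type*} [Fintype X] [DecidableEq X]

theorem posDef_of_real {A : Matrix X X ℝ} (hA : ∀ x y, A x y = A y x)
    (h : ∀ f : X → ℝ, f ≠ 0 → 0 < ∑ x, f x * (A *ᵥ f) x) : A.PosDef := by
  refine Matrix.PosDef.of_dotProduct_mulVec_pos ?_ ?_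
  · ext x y
    simp [Matrix.conjTranspose_apply, hA x y]
  · intro f hf
    have := h f hf
    simpa [dotProduct] using this

theorem pos_of_posDef {A : Matrix X X ℝ} (hA : A.PosDef) {f : X → ℝ} (hf : f ≠ 0) :
    0 < ∑ x, f x * (A *ᵥ f) x := by
  have := hA.dotProduct_mulVec_pos hf
  simpa [dotProduct] using this

theorem nonneg_of_posDef {A : Matrix X X ℝ} (hA : A.PosDef) (f : X → ℝ) :
    0 ≤ ∑ x, f x * (A *ᵥ f) x := by
  by_cases hf : f = 0
  · simp [hf]
  · exact (pos_of_posDef hA hf).le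

theorem symm_of_posDef {A : Matrix X X ℝ} (hA : A.PosDef) (x y : X) : A x y = A y x := by
  have := hA.isHermitian
  have h2 := congrFun (congrFun this y) x
  simpa [Matrix.conjTranspose_apply] using h2

theorem diag_sub_mulVec (a : X → ℝ) (W : Matrix X X ℝ) (f : X → ℝ) (x : X) :
    ((Matrix.diagonal a - W) *ᵥ f) x = a x * f x - ∑ y, W x y * f y := by
  rw [Matrix.sub_mulVec, Pi.sub_apply, Matrix.mulVec_diagonal]
  rfl

/-- The ground state transform. -/
theorem doob (W : Matrix X X ℝ) (hW : ∀ x y, W x y = W y x) (a g u : X → ℝ) :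
    ∑ x, (g x * u x) * ((Matrix.diagonal a - W) *ᵥ fun y => g y * u y) x =
      (1 / 2) * ∑ x, ∑ y, W x y * g x * g y * (u x - u y) ^ 2 +
        ∑ x, g x * ((Matrix.diagonal a - W) *ᵥ g) x * (u x) ^ 2 := by
  simp only [diag_sub_mulVec]
  have h1 : ∑ x, ∑ y, W x y * g x * g y * (u x - u y) ^ 2 =
      2 * ∑ x, ∑ y, W x y * g x * g y * u x ^ 2 - 2 * ∑ x, ∑ y, W x y * g x * g y * u x * u y := by
    have e1 : ∑ x, ∑ y, W x y * g x * g y * u y ^ 2 = ∑ x, ∑ y, W x y * g x * g y * u x ^ 2 := by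
      rw [Finset.sum_comm]
      refine Finset.sum_congr rfl fun x _ => Finset.sum_congr rfl fun y _ => ?_
      rw [hW y x]; ring
    have e2 : ∑ x, ∑ y, W x y * g x * g y * (u x - u y) ^ 2 =
        ∑ x, ∑ y, W x y * g x * g y * u x ^ 2 + ∑ x, ∑ y, W x y * g x * g y * u y ^ 2 -
          2 * ∑ x, ∑ y, W x y * g x * g y * u x * u y := by
      simp only [Finset.mul_sum, ← Finset.sum_add_distrib, ← Finset.sum_sub_distrib]
      refine Finset.sum_congr rfl fun x _ => Finset.sum_congr rfl fun y _ => ?_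
      ring
    rw [e2, e1]; ring
  rw [h1]
  have h2 : ∑ x, g x * u x * (a x * (g x * u x) - ∑ y, W x y * (g y * u y)) =
      ∑ x, a x * g x ^ 2 * u x ^ 2 - ∑ x, ∑ y, W x y * g x * g y * u x * u y := by
    rw [← Finset.sum_sub_distrib]
    refine Finset.sum_congr rfl fun x _ => ?_
    rw [mul_sub, Finset.mul_sum]
    congr 1
    · ring
    · refine Finset.sum_congr rfl fun y _ => ?_
      ring
  have h3 : ∑ x, g x * (a x * g x - ∑ y, W x y * g y) * u x ^ 2 =
      ∑ x, a x * g x ^ 2 * u x ^ 2 - ∑ x, ∑ y, W x y * g x * g y * u x ^ 2 := by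
    rw [← Finset.sum_sub_distrib]
    refine Finset.sum_congr rfl fun x _ => ?_
    rw [mul_sub, sub_mul, Finset.mul_sum, Finset.sum_mul]
    congr 1
    · ring
    · refine Finset.sum_congr rfl fun y _ => ?_
      ring
  rw [h2, h3]; ring

/-- A positive strict supersolution gives positive definiteness. -/
theorem posDef_of_super {W : Matrix X X ℝ} (hW : ∀ x y, W x y = W y x) (hW0 : ∀ x y, 0 ≤ W x y)
    {a g : X → ℝ} (hg : ∀ x, 0 < g x) (hA : ∀ x, 0 < ((Matrix.diagonal a - W) *ᵥ g) x) :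
    (Matrix.diagonal a - W).PosDef := by
  refine posDef_of_real (fun x y => ?_) fun f hf => ?_
  · by_cases h : x = y
    · rw [h]
    · rw [Matrix.sub_apply, Matrix.sub_apply, Matrix.diagonal_apply_ne _ h,
        Matrix.diagonal_apply_ne _ (Ne.symm h), hW x y]
  · have h := doob W hW a g (fun x => f x / g x)
    have e : (fun y => g y * (f y / g y)) = f := by
      funext y; rw [mul_div_cancel₀ _ (hg y).ne']
    have e' : ∀ y, g y * (f y / g y) = f y := fun y => congrFun e y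
    simp only [e'] at h
    rw [h]
    have h1 : 0 ≤ (1 / 2) * ∑ x, ∑ y, W x y * g x * g y * (f x / g x - f y / g y) ^ 2 := by
      refine mul_nonneg (by norm_num) (Finset.sum_nonneg fun x _ => Finset.sum_nonneg fun y _ => ?_)
      have := hW0 x y
      have := (hg x).le
      have := (hg y).le
      positivity
    obtain ⟨x, hx⟩ : ∃ x, f x ≠ 0 := Function.ne_iff.1 hf
    have h2 : 0 < ∑ x, g x * ((Matrix.diagonal a - W) *ᵥ g) x * (f x / g x) ^ 2 := by
      refine Finset.sum_pos' (fun y _ => ?_) ⟨x, Finset.mem_univ x, ?_⟩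
      · have := (hg y).le
        have := (hA y).le
        positivity
      · have := hg x
        have := hA x
        have : 0 < (f x / g x) ^ 2 := by positivity
        positivity
    linarith only [h1, h2]

/-- The maximum principle. -/
theorem nonneg_of_mulVec {W : Matrix X X ℝ} (hW0 : ∀ x y, 0 ≤ W x y) {a v : X → ℝ}
    (hA : (Matrix.diagonal a - W).PosDef) (h : ∀ x, 0 ≤ ((Matrix.diagonal a - W) *ᵥ v) x) :
    ∀ x, 0 ≤ v x := by
  -- the negative part
  set m : X → ℝ := fun x => max (-v x) 0 with hm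
  have hm0 : ∀ x, 0 ≤ m x := fun x => le_max_right _ _
  by_contra hcon
  push Not at hcon
  obtain ⟨x₀, hx₀⟩ := hcon
  have hmne : m ≠ 0 := by
    intro h0
    have : m x₀ = 0 := by rw [h0]; rfl
    have h1 : -v x₀ ≤ m x₀ := le_max_left _ _
    linarith only [hx₀, this, h1]
  have hpos := pos_of_posDef hA hmne
  have h1 : 0 ≤ ∑ x, m x * ((Matrix.diagonal a - W) *ᵥ v) x :=
    Finset.sum_nonneg fun x _ => mul_nonneg (hm0 x) (h x)
  -- `∑ m (A v) ≤ - ∑ m (A m)`
  have h2 : ∑ x, m x * ((Matrix.diagonal a - W) *ᵥ v) x ≤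
      - ∑ x, m x * ((Matrix.diagonal a - W) *ᵥ m) x := by
    rw [← Finset.sum_neg_distrib]
    refine Finset.sum_le_sum fun x _ => ?_
    rw [diag_sub_mulVec, diag_sub_mulVec]
    have e1 : m x * (a x * v x) = - (m x * (a x * m x)) := by
      rcases le_total 0 (v x) with hv | hv
      · have : m x = 0 := max_eq_right (by linarith)
        rw [this]; ring
      · have : m x = - v x := max_eq_left (by linarith)
        rw [this]; ring
    have e2 : - ∑ y, W x y * m y ≤ ∑ y, W x y * v y := by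
      rw [← Finset.sum_neg_distrib]
      refine Finset.sum_le_sum fun y _ => ?_
      have : - m y ≤ v y := by
        have : -v y ≤ m y := le_max_left _ _
        linarith
      calc - (W x y * m y) = W x y * (- m y) := by ring
        _ ≤ W x y * v y := mul_le_mul_of_nonneg_left this (hW0 x y)
    have e3 : m x * (- ∑ y, W x y * m y) ≤ m x * ∑ y, W x y * v y :=
      mul_le_mul_of_nonneg_left e2 (hm0 x)
    calc m x * (a x * v x - ∑ y, W x y * v y) = m x * (a x * v x) - m x * ∑ y, W x y * v y := by ring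
      _ ≤ - (m x * (a x * m x)) - m x * (- ∑ y, W x y * m y) := by linarith
      _ = - (m x * (a x * m x - ∑ y, W x y * m y)) := by ring
  linarith only [hpos, h1, h2]

theorem mulVec_inv {A : Matrix X X ℝ} (hA : A.PosDef) (f : X → ℝ) : A *ᵥ (A⁻¹ *ᵥ f) = f := by
  rw [Matrix.mulVec_mulVec, Matrix.mul_nonsing_inv _ ((Matrix.isUnit_iff_isUnit_det _).1 hA.isUnit),
    Matrix.one_mulVec]

theorem inv_mulVec {A : Matrix X X ℝ} (hA : A.PosDef) (f : X → ℝ) : A⁻¹ *ᵥ (A *ᵥ f) = f := by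
  rw [Matrix.mulVec_mulVec, Matrix.nonsing_inv_mul _ ((Matrix.isUnit_iff_isUnit_det _).1 hA.isUnit),
    Matrix.one_mulVec]

theorem inv_nonneg_entries {W : Matrix X X ℝ} (hW0 : ∀ x y, 0 ≤ W x y) {a : X → ℝ}
    (hA : (Matrix.diagonal a - W).PosDef) (x y : X) : 0 ≤ (Matrix.diagonal a - W)⁻¹ x y := by
  have h : ∀ z, 0 ≤ ((Matrix.diagonal a - W) *ᵥ
      ((Matrix.diagonal a - W)⁻¹ *ᵥ (Pi.single y (1 : ℝ)))) z := by
    intro z
    rw [mulVec_inv hA]
    by_cases hz : z = y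
    · subst hz; simp
    · simp [hz]
  have := nonneg_of_mulVec hW0 hA h x
  simpa using this

theorem inv_symm {A : Matrix X X ℝ} (hA : A.PosDef) (x y : X) : A⁻¹ x y = A⁻¹ y x :=
  symm_of_posDef hA.inv x y

/-- comparison: `A u ≤ A v` implies `u ≤ v` -/
theorem le_of_mulVec_le {W : Matrix X X ℝ} (hW0 : ∀ x y, 0 ≤ W x y) {a u v : X → ℝ}
    (hA : (Matrix.diagonal a - W).PosDef)
    (h : ∀ x, ((Matrix.diagonal a - W) *ᵥ u) x ≤ ((Matrix.diagonal a - W) *ᵥ v) x) (x : X) :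
    u x ≤ v x := by
  have := nonneg_of_mulVec hW0 hA (v := v - u) (fun x => by
    rw [Matrix.mulVec_sub, Pi.sub_apply]; linarith [h x]) x
  simpa using this

/-- symmetry of the bilinear form -/
theorem sum_mul_mulVec_comm {A : Matrix X X ℝ} (hA : ∀ x y, A x y = A y x) (f g : X → ℝ) :
    ∑ x, f x * (A *ᵥ g) x = ∑ x, (A *ᵥ f) x * g x := by
  simp only [Matrix.mulVec, dotProduct, Finset.mul_sum, Finset.sum_mul]
  rw [Finset.sum_comm]
  refine Finset.sum_congr rfl fun x _ => Finset.sum_congr rfl fun y _ => ?_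
  rw [hA y x]; ring

end general

/-! ### The torus -/

variable {d M : ℕ} [NeZero M]

theorem adj_nonneg (x y : Tor d M) : 0 ≤ adj d M x y := by
  unfold adj
  rw [Matrix.of_apply]
  refine Finset.sum_nonneg fun i _ => ?_
  split_ifs <;> norm_num

theorem adj_symm (x y : Tor d M) : adj d M x y = adj d M y x := by
  unfold adj
  rw [Matrix.of_apply, Matrix.of_apply]
  refine Finset.sum_congr rfl fun i _ => ?_
  have h1 : (y = x + ev i) ↔ (x = y - ev i) := by
    constructor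
    · intro h; rw [h]; abel
    · intro h; rw [h]; abel
  have h2 : (y = x - ev i) ↔ (x = y + ev i) := by
    constructor
    · intro h; rw [h]; abel
    · intro h; rw [h]; abel
  simp only [h1, h2]
  ring

theorem adj_mulVec (f : Tor d M → ℝ) (x : Tor d M) :
    ∑ y, adj d M x y * f y = ∑ i : Fin d, (f (x + ev i) + f (x - ev i)) := by
  unfold adj
  simp only [Matrix.of_apply, Finset.sum_mul, add_mul]
  rw [Finset.sum_comm]
  refine Finset.sum_congr rfl fun i _ => ?_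
  rw [Finset.sum_add_distrib]
  simp

theorem AM_mulVec (z : ℝ) (V f : Tor d M → ℝ) (x : Tor d M) :
    (AM z V *ᵥ f) x = (z - V x) * f x - ∑ i : Fin d, (f (x + ev i) + f (x - ev i)) := by
  unfold AM
  rw [diag_sub_mulVec, adj_mulVec]

theorem AM_symm (z : ℝ) (V : Tor d M → ℝ) (x y : Tor d M) : AM z V x y = AM z V y x := by
  unfold AM
  by_cases h : x = y
  · rw [h]
  · rw [Matrix.sub_apply, Matrix.sub_apply, Matrix.diagonal_apply_ne _ h,
      Matrix.diagonal_apply_ne _ (Ne.symm h), adj_symm x y]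

theorem AM_sub (z h : ℝ) (V : Tor d M → ℝ) : AM (z - h) V = AM z V - h • (1 : Matrix _ _ ℝ) := by
  unfold AM
  ext x y
  by_cases hxy : x = y
  · subst hxy; simp; ring
  · simp [hxy]

theorem DD_eq (z : ℝ) (V : Tor d M → ℝ) : DD z V = GM z V *ᵥ 1 := by
  funext x
  simp [DD, Matrix.mulVec, dotProduct]

theorem AM_DD {z : ℝ} {V : Tor d M → ℝ} (hA : (AM z V).PosDef) : AM z V *ᵥ DD z V = 1 := by
  rw [DD_eq]
  exact mulVec_inv hA 1

theorem GM_nonneg {z : ℝ} {V : Tor d M → ℝ} (hA : (AM z V).PosDef) (x y : Tor d M) :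
    0 ≤ GM z V x y := inv_nonneg_entries adj_nonneg hA x y

theorem GM_symm {z : ℝ} {V : Tor d M → ℝ} (hA : (AM z V).PosDef) (x y : Tor d M) :
    GM z V x y = GM z V y x := inv_symm hA x y

/-- positive strict supersolutions -/
theorem AM_posDef_of_super {z : ℝ} {V g : Tor d M → ℝ} (hg : ∀ x, 0 < g x)
    (hA : ∀ x, 0 < (AM z V *ᵥ g) x) : (AM z V).PosDef :=
  posDef_of_super adj_symm adj_nonneg hg hA

theorem AM_le_of {z : ℝ} {V u v : Tor d M → ℝ} (hA : (AM z V).PosDef)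
    (h : ∀ x, (AM z V *ᵥ u) x ≤ (AM z V *ᵥ v) x) (x : Tor d M) : u x ≤ v x :=
  le_of_mulVec_le adj_nonneg hA h x

theorem DD_pos {z : ℝ} {V : Tor d M → ℝ} (hA : (AM z V).PosDef) (x : Tor d M) : 0 < DD z V x := by
  have h0 : ∀ y, 0 ≤ DD z V y := by
    intro y
    exact Finset.sum_nonneg fun w _ => GM_nonneg hA y w
  rcases (h0 x).lt_or_eq with h | h
  · exact h
  · exfalso
    have h1 := congrFun (AM_DD hA) x
    rw [AM_mulVec, ← h] at h1
    simp only [Pi.one_apply, mul_zero, zero_sub] at h1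
    have h2 : 0 ≤ ∑ i : Fin d, (DD z V (x + ev i) + DD z V (x - ev i)) :=
      Finset.sum_nonneg fun i _ => add_nonneg (h0 _) (h0 _)
    linarith

/-- The ground state transform on the torus, with the energy. -/
theorem AM_doob (z : ℝ) (V g u : Tor d M → ℝ) :
    ∑ x, (g x * u x) * (AM z V *ᵥ fun y => g y * u y) x =
      ∑ x, ∑ i : Fin d, g x * g (x + ev i) * (u (x + ev i) - u x) ^ 2 +
        ∑ x, g x * (AM z V *ᵥ g) x * (u x) ^ 2 := by
  have h := doob (adj d M) adj_symm (fun x => z - V x) g u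
  unfold AM
  rw [h]
  congr 1
  have h1 : ∀ x, ∑ y, adj d M x y * g x * g y * (u x - u y) ^ 2 =
      ∑ i : Fin d, (g x * g (x + ev i) * (u (x + ev i) - u x) ^ 2 +
        g x * g (x - ev i) * (u (x - ev i) - u x) ^ 2) := by
    intro x
    have := adj_mulVec (fun y => g x * g y * (u y - u x) ^ 2) x
    rw [← this]
    refine Finset.sum_congr rfl fun y _ => ?_
    ring
  simp only [h1, Finset.sum_add_distrib]
  have h2 : ∑ x : Tor d M, ∑ i : Fin d, g x * g (x - ev i) * (u (x - ev i) - u x) ^ 2 =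
      ∑ x : Tor d M, ∑ i : Fin d, g x * g (x + ev i) * (u (x + ev i) - u x) ^ 2 := by
    rw [Finset.sum_comm]
    rw [Finset.sum_comm (f := fun (x : Tor d M) (i : Fin d) =>
      g x * g (x + ev i) * (u (x + ev i) - u x) ^ 2)]
    refine Finset.sum_congr rfl fun i _ => ?_
    rw [← Equiv.sum_comp (Equiv.addRight (ev i : Tor d M))]
    refine Finset.sum_congr rfl fun x _ => ?_
    simp only [Equiv.coe_addRight, add_sub_cancel_right]
    ring
  rw [h2]; ring

end Pool.Agent.BED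
end
end -- Pool.Agent.Helper54_BED.LA

section -- Pool.Agent.Helper54_BED.Stmt

/-!
# Band edge delocalization (BED): module statements
-/

set_option autoImplicit false

open MeasureTheory ProbabilityTheory

open scoped ENNReal NNReal BigOperators

noncomputable section

namespace Pool.Agent.BED

open Matrix Pool.Agent.Anderson Pool.Agent.Loc

/-- Module GC: Gaussian concentration for Lipschitz functions (Maurey-Pisier). -/
def GCStmt : Prop := ∀ (ι : Type) [Fintype ι] (v : ℝ≥0) (F : (ι → ℝ) → ℝ) (K : ℝ), 0 < K →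
  (∀ x y, |F x - F y| ≤ K * Real.sqrt (∑ i, (x i - y i) ^ 2)) → ∀ r : ℝ, 0 ≤ r →
    (Measure.pi fun _ : ι => gaussianReal 0 v)
        {x | r ≤ |F x - ∫ y, F y ∂(Measure.pi fun _ : ι => gaussianReal 0 v)|} ≤
      ENNReal.ofReal (2 * Real.exp (-(r ^ 2) / (5 * K ^ 2 * v)))

/-- Module NASH: the Nash-Poincaré inequality at scale `l`. -/
def NashStmt : Prop := ∀ (d M : ℕ) [NeZero M] (u : Tor d M → ℝ) (l : ℕ), 1 ≤ l → l ≤ M →
  ∑ x, u x ^ 2 ≤ (1 / (l : ℝ) ^ d) * (∑ x, |u x|) ^ 2 + (d * (l : ℝ) ^ 2 / 2) * energy u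

/-- Module SEQ: the recursive inequality implies the decay `n ^ (-d/2)`. -/
def SeqStmt : Prop := ∀ (d M : ℕ), 1 ≤ d → ∀ φ : ℕ → ℝ, (∀ n, 0 ≤ φ n) → φ 0 ≤ 1 →
  (∀ n, φ (n + 1) ≤ φ n) →
  (∀ n l : ℕ, 1 ≤ l → l ≤ M →
    φ (n + 1) ≤ φ n - (1 / (9 * (d : ℝ) ^ 2 * (l : ℝ) ^ 2)) * (φ n - 6 / (l : ℝ) ^ d)) →
  ∀ n : ℕ, n + 1 ≤ M ^ 2 → φ n ≤ KH d * ((n : ℝ) + 1) ^ (-(d : ℝ) / 2)

/-- Module HEAT: heat kernel bounds from the flatness of the landscape function. -/
def HeatStmt : Prop := ∀ (d M : ℕ) [NeZero M], 1 ≤ d → ∀ (z : ℝ) (V : Tor d M → ℝ) (a : ℝ),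
  z ≤ 2 * d + 1 → (∀ x, -1 ≤ V x) → (AM z V).PosDef → 0 < a →
  (∀ x, a ≤ DD z V x) → (∀ x, DD z V x ≤ 3 / 2 * a) →
    (∀ x y, 0 ≤ TM z V x y) ∧
    (∀ (x : Tor d M) (n : ℕ), ∑ y, ((TM z V ^ (n + 1)) x y) ^ 2 ≤ ∑ y, ((TM z V ^ n) x y) ^ 2) ∧
    (∀ (x : Tor d M) (n : ℕ), n + 1 ≤ M ^ 2 →
      ∑ y, ((TM z V ^ n) x y) ^ 2 ≤ KH d * ((n : ℝ) + 1) ^ (-(d : ℝ) / 2)) ∧
    (∀ f : Tor d M → ℝ, ∑ x, ((TM z V *ᵥ f) x) ^ 2 ≤ (1 - 1 / (12 * d * a)) * ∑ x, f x ^ 2) ∧
    (∀ f : Tor d M → ℝ, 0 ≤ ∑ x, f x * (TM z V *ᵥ f) x) ∧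
    (∀ f : Tor d M → ℝ, ∑ x, f x * (TM z V *ᵥ f) x ≤ ∑ x, f x ^ 2)

/-- Module SUM: bounds for the Green function. -/
def SumStmt : Prop := ∀ d : ℕ, 3 ≤ d → ∃ C : ℝ, 1 ≤ C ∧ ∀ (M : ℕ) [NeZero M] (z t a : ℝ)
    (V : Tor d M → ℝ), 3 ≤ M → 1 ≤ t → t ≤ M → z ≤ 2 * d + 1 → (∀ x, -1 ≤ V x) →
    (AM z V).PosDef → 1 / 2 ≤ a → a ≤ 15 * t → (∀ x, a ≤ DD z V x) →
    (∀ x, DD z V x ≤ 3 / 2 * a) →
      ∀ x, ∑ y, (GM z V x y) ^ 2 ≤ C * growth d t ∧ GM z V x x ≤ C

/-- Module MCS: Lipschitz extension of the landscape function at the origin. -/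
def McsStmt : Prop := ∀ (d M : ℕ) [NeZero M] (z m B C1 : ℝ), 0 < m → 0 ≤ B → 0 ≤ C1 →
  ∃ F : (Tor d M → ℝ) → ℝ, (∀ V, 0 ≤ F V) ∧ (∀ V, F V ≤ m) ∧
    (∀ V W, |F V - F W| ≤ m * (C1 + Real.sqrt B) * Real.sqrt (∑ x, (V x - W x) ^ 2)) ∧
    (∀ V W, (∀ x, x ≠ 0 → V x = W x) → |F V - F W| ≤ m * C1 * |V 0 - W 0|) ∧
    ∀ V ∈ goodSet z m B C1, F V = DD z V 0

/-- Module STEPD: the deterministic step. -/
def StepStmt : Prop := ∀ (d M : ℕ) [NeZero M] (z μ : ℝ) (V : Tor d M → ℝ), 0 < μ →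
  (AM z V).PosDef → (∀ x, |DD z V x - μ| ≤ μ / 50) →
    (AM (z - 1 / (10 * μ)) V).PosDef ∧
      ∀ x, 1.08 * μ ≤ DD (z - 1 / (10 * μ)) V x ∧ DD (z - 1 / (10 * μ)) V x ≤ 1.14 * μ

/-- Module COV: translation covariance. -/
def CovStmt : Prop := ∀ (d M : ℕ) [NeZero M] (z : ℝ) (V : Tor d M → ℝ) (x : Tor d M),
  (∀ y w, AM z (tr x V) y w = AM z V (x + y) (x + w)) ∧
  ((AM z (tr x V)).PosDef ↔ (AM z V).PosDef) ∧
  (∀ y w, GM z (tr x V) y w = GM z V (x + y) (x + w)) ∧
  (∀ y, DD z (tr x V) y = DD z V (x + y)) ∧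
  (∀ m B C1 : ℝ, tr x V ∈ goodSet z m B C1 ↔ V ∈ goodSet z m B C1) ∧
  ∀ v : ℝ≥0, MeasurePreserving (tr x) (gau d M v) (gau d M v)

/-- Module FLAT: with large probability the landscape function is flat. -/
def FlatStmt : Prop := ∀ d : ℕ, 3 ≤ d → ∃ c0 C0 : ℝ, 0 < c0 ∧ 0 < C0 ∧
  ∀ (M : ℕ) [NeZero M] (t : ℝ) (σ : ℝ≥0) (p : ℝ), 3 ≤ M → 1 ≤ t → t ≤ M → 0 < σ → σ ≤ 1 →
    p = C0 * (1 + Real.log t) * (M : ℝ) ^ d * Real.exp (-c0 / ((σ : ℝ) ^ 2 * growth d t)) →
    p ≤ 1 / 2 →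
    ∃ z μ : ℝ, 10 * t ≤ μ ∧ μ ≤ 12 * t ∧ z ≤ 2 * d + 1 ∧
      |z - 2 * d| ≤ C0 * ((σ : ℝ) ^ 2 + 1 / t + Real.sqrt p) ∧
      gau d M (σ ^ 2) {V | ¬ Flat z μ V} ≤ ENNReal.ofReal p

/-- Module TRANS: from the torus to `ℤ^d` (sup bound for combinations of eigenfunctions of the
restriction to any set `S`, energies near the top of the spectrum). -/
def TransStmt : Prop := ∀ (d M : ℕ) [NeZero M], 1 ≤ d → ∀ (r : ℕ), 1 ≤ r → 4 * r + 3 ≤ M →
  ∀ (z μ : ℝ) (W : Site d → ℝ), 0 < μ → z ≤ 2 * d + 1 →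
    Flat z μ (fun x : Tor d M => W (rep x)) →
    ∀ lam : ℝ, 1 / (r : ℝ) ≤ lam → lam ≤ 1 →
    ∀ (S : Set (Site d)) (J : Finset ℝ) (u : ℝ → L2 d), (∀ E ∈ J, z - lam ≤ E) →
      (∀ E ∈ J, IsEigenOn S W E (u E)) →
      ∀ x : Site d, (∀ i, |x i| ≤ r) →
        ‖(∑ E ∈ J, u E : L2 d) x‖ ^ 2 ≤
          3 * KH d * lam ^ ((d : ℝ) / 2) * ‖(∑ E ∈ J, u E : L2 d)‖ ^ 2

/-- Module ORTH: eigenfunctions for different energies are orthogonal. -/
def OrthStmt : Prop := ∀ (d : ℕ) (S : Set (Site d)) (W : Site d → ℝ) (J : Finset ℝ)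
  (u : ℝ → L2 d), (∀ E ∈ J, IsEigenOn S W E (u E)) →
    ∀ c : ℝ → ℝ, ‖(∑ E ∈ J, (c E : ℂ) • u E : L2 d)‖ ^ 2 = ∑ E ∈ J, (c E) ^ 2 * ‖u E‖ ^ 2

/-- Module MINMAX: counting eigenvalues by test functions with disjoint, non-adjacent supports. -/
def MinmaxStmt : Prop := ∀ (n : Type) [Fintype n] [DecidableEq n] (H : Matrix n n ℝ)
  (hH : H.IsHermitian) (e : ℝ) (k : ℕ) (f : Fin k → n → ℝ), (∀ j, f j ≠ 0) →
    (∀ j j', j ≠ j' → ∀ x, f j x * f j' x = 0) →
    (∀ j j', j ≠ j' → ∑ x, f j x * (H *ᵥ f j') x = 0) →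
    (∀ j, e * ∑ x, f j x ^ 2 ≤ ∑ x, f j x * (H *ᵥ f j) x) →
      k ≤ (Finset.univ.filter fun i => e ≤ hH.eigenvalues i).card

/-- Module COUNT: many eigenvalues near the top in boxes. -/
def CountStmt : Prop := ∀ d : ℕ, 1 ≤ d → ∃ C : ℝ, 0 < C ∧ ∀ (M : ℕ) [NeZero M] (r : ℕ),
  4 * r + 3 ≤ M → ∀ (z μ : ℝ) (W : Site d → ℝ), 0 < μ →
    Flat z μ (fun x : Tor d M => W (rep x)) →
    ∀ (x₀ : Site d) (L : ℕ), (∀ i, |x₀ i| + L ≤ r) →
      ∀ (hH : (HM W (box x₀ L)).IsHermitian) (lam : ℝ), 10 / μ ≤ lam → lam ≤ 1 →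
        C ≤ lam * (L : ℝ) ^ 2 →
        lam ^ ((d : ℝ) / 2) * (2 * (L : ℝ) + 1) ^ d ≤
          C * ((Finset.univ.filter fun i => z - lam ≤ hH.eigenvalues i).card : ℝ)

/-- Module EDGE: no eigenvalues above `z` or below `-z` in boxes. -/
def EdgeStmt : Prop := ∀ (d M : ℕ) [NeZero M], 1 ≤ d → ∀ (r : ℕ),
  4 * r + 3 ≤ M → ∀ (z μ : ℝ) (W : Site d → ℝ), 0 < μ →
    ∀ (x₀ : Site d) (L : ℕ), (∀ i, |x₀ i| + L ≤ r) →
      ∀ (hH : (HM W (box x₀ L)).IsHermitian),
        (Flat z μ (fun x : Tor d M => W (rep x)) → ∀ i, hH.eigenvalues i < z) ∧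
        (Flat z μ (fun x : Tor d M => - W (rep x)) → ∀ i, -z < hH.eigenvalues i)

universe u

/-- Module LAWT: the law of the potential on the torus. -/
def LawStmt : Prop := ∀ (d M : ℕ) [NeZero M] (Ω : Type u) [MeasurableSpace Ω] (P : Measure Ω)
  [IsProbabilityMeasure P] (ξ : Site d → Ω → ℝ), (∀ y, Measurable (ξ y)) →
    (∀ y, P.map (ξ y) = gaussianReal 0 1) → iIndepFun ξ P → ∀ (s : ℝ) (v : ℝ≥0),
      (v : ℝ) = s ^ 2 → P.map (fun ω (x : Tor d M) => s * ξ (rep x) ω) = gau d M v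

end Pool.Agent.BED
end
end -- Pool.Agent.Helper54_BED.Stmt

section -- Pool.Agent.Helper61_BED.Cov

/-!
# Module COV of squad BED
-/

set_option autoImplicit false

open MeasureTheory ProbabilityTheory

open scoped ENNReal NNReal BigOperators

noncomputable section

namespace Pool.Agent.BED.H61

open Matrix Pool.Agent.Anderson Pool.Agent.Loc Pool.Agent.BED

theorem AM_tr {d M : ℕ} [NeZero M] (z : ℝ) (V : Tor d M → ℝ) (x : Tor d M) :
    AM z (tr x V) = (AM z V).submatrix (Equiv.addLeft x) (Equiv.addLeft x) := by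
  ext y w
  simp only [AM, tr, adj, Matrix.sub_apply, Matrix.submatrix_apply, Equiv.coe_addLeft,
    Matrix.of_apply, Matrix.diagonal_apply, add_right_inj]
  congr 1
  refine Finset.sum_congr rfl fun i _ => ?_
  have h1 : (x + w = x + y + ev i) ↔ w = y + ev i := by rw [add_assoc, add_right_inj]
  have h2 : (x + w = x + y - ev i) ↔ w = y - ev i := by
    rw [add_sub_assoc, add_right_inj]
  simp only [h1, h2]

/-- COV -/
theorem cov : CovStmt := by
  intro d M _ z V x
  have hG : GM z (tr x V) = (GM z V).submatrix (Equiv.addLeft x) (Equiv.addLeft x) := by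
    unfold GM
    rw [AM_tr, Matrix.inv_submatrix_equiv]
  have hGe : ∀ y w, GM z (tr x V) y w = GM z V (x + y) (x + w) := by
    intro y w; rw [hG]; rfl
  have hP : (AM z (tr x V)).PosDef ↔ (AM z V).PosDef := by
    rw [AM_tr]
    constructor
    · intro h
      have h2 := h.submatrix (e := (Equiv.addLeft x).symm) (Equiv.injective _)
      have e2 : ((AM z V).submatrix (Equiv.addLeft x) (Equiv.addLeft x)).submatrix
          (Equiv.addLeft x).symm (Equiv.addLeft x).symm = AM z V := by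
        rw [Matrix.submatrix_submatrix, Equiv.self_comp_symm, Matrix.submatrix_id_id]
      rwa [e2] at h2
    · intro h
      exact h.submatrix (Equiv.injective _)
  have hD : ∀ y, DD z (tr x V) y = DD z V (x + y) := by
    intro y
    unfold DD
    simp only [hGe]
    exact Equiv.sum_comp (Equiv.addLeft x) (fun w => GM z V (x + y) w)
  have hs : ∀ y, ∑ w, (GM z (tr x V) y w) ^ 2 = ∑ w, (GM z V (x + y) w) ^ 2 := by
    intro y
    simp only [hGe]
    exact Equiv.sum_comp (Equiv.addLeft x) (fun w => (GM z V (x + y) w) ^ 2)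
  have all : ∀ p : Tor d M → Prop, (∀ y, p (x + y)) ↔ ∀ y, p y :=
    fun p => (Equiv.addLeft x).forall_congr_right
  refine ⟨fun y w => by rw [AM_tr]; rfl, hP, hGe, hD, ?_, ?_⟩
  · intro m B C1
    have g1 : (∀ y, DD z (tr x V) y ≤ m) ↔ ∀ y, DD z V y ≤ m := by
      rw [← all (fun y => DD z V y ≤ m)]
      exact forall_congr' fun y => by rw [hD]
    have g2 : (∀ y, ∑ w, (GM z (tr x V) y w) ^ 2 ≤ B) ↔ ∀ y, ∑ w, (GM z V y w) ^ 2 ≤ B := by
      rw [← all (fun y => ∑ w, (GM z V y w) ^ 2 ≤ B)]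
      exact forall_congr' fun y => by rw [hs]
    have g3 : (∀ y, GM z (tr x V) y y ≤ C1) ↔ ∀ y, GM z V y y ≤ C1 := by
      rw [← all (fun y => GM z V y y ≤ C1)]
      exact forall_congr' fun y => by rw [hGe]
    exact and_congr hP (and_congr g1 (and_congr g2 g3))
  · intro v
    have h := measurePreserving_piCongrLeft (fun _ : Tor d M => gaussianReal 0 v)
      (Equiv.addLeft x).symm
    have e : (tr x : (Tor d M → ℝ) → Tor d M → ℝ)
        = MeasurableEquiv.piCongrLeft (fun _ : Tor d M => ℝ) (Equiv.addLeft x).symm := by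
      funext W y
      have := Equiv.piCongrLeft_apply_apply (fun _ : Tor d M => ℝ) (Equiv.addLeft x).symm W (x + y)
      simp only [Equiv.addLeft_symm, Equiv.coe_addLeft, neg_add_cancel_left] at this
      simp only [tr]
      rw [MeasurableEquiv.coe_piCongrLeft, Equiv.addLeft_symm]
      exact this.symm
    rw [e]
    exact h

end Pool.Agent.BED.H61
end
end -- Pool.Agent.Helper61_BED.Cov

section -- Pool.Agent.Helper61_BED.Mcs

/-!
# Modules MCS and COV of squad BED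
-/

set_option autoImplicit false

open MeasureTheory ProbabilityTheory

open scoped ENNReal NNReal BigOperators

noncomputable section

namespace Pool.Agent.BED.H61

open Matrix Pool.Agent.Anderson Pool.Agent.Loc Pool.Agent.BED

variable {d M : ℕ} [NeZero M]

/-- the part of a vector away from the origin -/
def off (V : Tor d M → ℝ) : EuclideanSpace ℝ (Tor d M) :=
  WithLp.toLp 2 (fun y => if y = 0 then 0 else V y)

omit [NeZero M] in
theorem off_sub (V W : Tor d M → ℝ) : off (V - W) = off V - off W := by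
  ext y
  by_cases h : y = 0
  · simp [off, h]
  · simp [off, h]

theorem norm_off (V : Tor d M → ℝ) :
    ‖off V‖ = Real.sqrt (∑ y ∈ Finset.univ.filter (fun y => y ≠ 0), V y ^ 2) := by
  rw [EuclideanSpace.norm_eq]
  congr 1
  rw [Finset.sum_filter]
  refine Finset.sum_congr rfl fun y _ => ?_
  by_cases h : y = 0
  · simp [off, h]
  · simp [off, h]

/-- the distance -/
def rho (B C1 : ℝ) (V W : Tor d M → ℝ) : ℝ := C1 * |V 0 - W 0| + Real.sqrt B * ‖off V - off W‖

theorem rho_nonneg {B C1 : ℝ} (h1 : 0 ≤ C1) (V W : Tor d M → ℝ) : 0 ≤ rho B C1 V W :=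
  add_nonneg (mul_nonneg h1 (abs_nonneg _)) (mul_nonneg (Real.sqrt_nonneg _) (norm_nonneg _))

theorem rho_self (B C1 : ℝ) (V : Tor d M → ℝ) : rho B C1 V V = 0 := by simp [rho]

theorem rho_symm (B C1 : ℝ) (V W : Tor d M → ℝ) : rho B C1 V W = rho B C1 W V := by
  unfold rho
  rw [abs_sub_comm, norm_sub_rev]

theorem rho_tri {B C1 : ℝ} (h1 : 0 ≤ C1) (U V W : Tor d M → ℝ) :
    rho B C1 U W ≤ rho B C1 U V + rho B C1 V W := by
  unfold rho
  have a1 : |U 0 - W 0| ≤ |U 0 - V 0| + |V 0 - W 0| := abs_sub_le _ _ _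
  have a2 : ‖off U - off W‖ ≤ ‖off U - off V‖ + ‖off V - off W‖ := norm_sub_le_norm_sub_add_norm_sub _ _ _
  have a3 := mul_le_mul_of_nonneg_left a1 h1
  have a4 := mul_le_mul_of_nonneg_left a2 (Real.sqrt_nonneg B)
  linarith

theorem rho_le (B : ℝ) {C1 : ℝ} (h1 : 0 ≤ C1) (V W : Tor d M → ℝ) :
    rho B C1 V W ≤ (C1 + Real.sqrt B) * Real.sqrt (∑ x, (V x - W x) ^ 2) := by
  unfold rho
  have a1 : |V 0 - W 0| ≤ Real.sqrt (∑ x, (V x - W x) ^ 2) := by
    refine Real.abs_le_sqrt ?_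
    exact Finset.single_le_sum (f := fun x => (V x - W x) ^ 2) (fun x _ => sq_nonneg _)
      (Finset.mem_univ 0)
  have a2 : ‖off V - off W‖ ≤ Real.sqrt (∑ x, (V x - W x) ^ 2) := by
    rw [← off_sub, norm_off]
    refine Real.sqrt_le_sqrt ?_
    exact Finset.sum_le_sum_of_subset_of_nonneg (Finset.filter_subset _ _)
      (fun x _ _ => sq_nonneg _)
  have a3 := mul_le_mul_of_nonneg_left a1 h1
  have a4 := mul_le_mul_of_nonneg_left a2 (Real.sqrt_nonneg B)
  linarith

/-- the difference of the landscape functions -/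
theorem DD_sub {z : ℝ} {U V : Tor d M → ℝ} (hU : (AM z U).PosDef) (hV : (AM z V).PosDef)
    (x : Tor d M) : DD z V x - DD z U x = ∑ y, GM z V x y * ((V y - U y) * DD z U y) := by
  have h1 : AM z V *ᵥ (DD z V - DD z U) = fun y => (V y - U y) * DD z U y := by
    funext y
    rw [Matrix.mulVec_sub, Pi.sub_apply, AM_DD hV]
    have h2 := congrFun (AM_DD hU) y
    rw [AM_mulVec] at h2 ⊢
    rw [Pi.one_apply] at h2 ⊢
    rw [← h2]; ring
  have h3 := congrFun (inv_mulVec hV (DD z V - DD z U)) x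
  rw [h1] at h3
  rw [← Pi.sub_apply, ← h3]
  rfl

theorem key {z m B C1 : ℝ} (hm : 0 < m) {U V : Tor d M → ℝ}
    (hU : U ∈ goodSet z m B C1) (hV : V ∈ goodSet z m B C1) :
    DD z V 0 - DD z U 0 ≤ m * rho B C1 V U := by
  obtain ⟨pU, dU, -, -⟩ := hU
  obtain ⟨pV, -, sV, gV⟩ := hV
  rw [DD_sub pU pV]
  have hD0 : ∀ y, 0 ≤ DD z U y := fun y => (DD_pos pU y).le
  have h1 : ∀ y, GM z V 0 y * ((V y - U y) * DD z U y) ≤ m * (GM z V 0 y * |V y - U y|) := by
    intro y
    have g0 := GM_nonneg pV 0 y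
    calc GM z V 0 y * ((V y - U y) * DD z U y) ≤ GM z V 0 y * (|V y - U y| * DD z U y) :=
          mul_le_mul_of_nonneg_left (mul_le_mul_of_nonneg_right (le_abs_self _) (hD0 y)) g0
      _ ≤ GM z V 0 y * (|V y - U y| * m) :=
          mul_le_mul_of_nonneg_left (mul_le_mul_of_nonneg_left (dU y) (abs_nonneg _)) g0
      _ = _ := by ring
  refine (Finset.sum_le_sum fun y _ => h1 y).trans ?_
  rw [← Finset.mul_sum]
  refine mul_le_mul_of_nonneg_left ?_ hm.le
  unfold rho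
  rw [← Finset.add_sum_erase _ _ (Finset.mem_univ (0 : Tor d M))]
  refine add_le_add (mul_le_mul_of_nonneg_right (gV 0) (abs_nonneg _)) ?_
  have e : Finset.univ.erase (0 : Tor d M) = Finset.univ.filter (fun y => y ≠ 0) := by
    ext y; simp
  rw [e]
  refine (Real.sum_mul_le_sqrt_mul_sqrt _ _ _).trans ?_
  refine mul_le_mul ?_ ?_ (Real.sqrt_nonneg _) (Real.sqrt_nonneg _)
  · refine Real.sqrt_le_sqrt (le_trans ?_ (sV 0))
    exact Finset.sum_le_sum_of_subset_of_nonneg (Finset.filter_subset _ _)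
      (fun x _ _ => sq_nonneg _)
  · rw [← off_sub, norm_off]
    refine le_of_eq ?_
    congr 1
    refine Finset.sum_congr rfl fun y _ => ?_
    rw [sq_abs]; rfl

/-- MCS -/
theorem mcs : McsStmt := by
  intro d M _ z m B C1 hm hB hC1
  by_cases hne : (goodSet (d := d) (M := M) z m B C1).Nonempty
  swap
  · refine ⟨fun _ => 0, fun _ => le_rfl, fun _ => hm.le, ?_, ?_, ?_⟩
    · intro V W
      simp only [sub_self, abs_zero]
      positivity
    · intro V W _
      simp only [sub_self, abs_zero]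
      positivity
    · intro V hV
      exact absurd ⟨V, hV⟩ hne
  obtain ⟨U0, hU0⟩ := hne
  set G := goodSet (d := d) (M := M) z m B C1 with hG
  have : Nonempty G := ⟨⟨U0, hU0⟩⟩
  set F0 : (Tor d M → ℝ) → ℝ := fun V => ⨅ U : G, (DD z U.1 0 + m * rho B C1 V U.1) with hF0
  have hbd : ∀ V, BddBelow (Set.range fun U : G => DD z U.1 0 + m * rho B C1 V U.1) := by
    intro V
    refine ⟨0, ?_⟩
    rintro _ ⟨U, rfl⟩
    exact add_nonneg (DD_pos U.2.1 0).le (mul_nonneg hm.le (rho_nonneg hC1 _ _))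
  have hlip : ∀ V W, F0 V ≤ F0 W + m * rho B C1 V W := by
    intro V W
    rw [← sub_le_iff_le_add]
    refine le_ciInf fun U => ?_
    rw [sub_le_iff_le_add]
    refine (ciInf_le (hbd V) U).trans ?_
    have := mul_le_mul_of_nonneg_left (rho_tri (B := B) hC1 V W U.1) hm.le
    linarith
  have hval : ∀ V ∈ G, F0 V = DD z V 0 := by
    intro V hV
    refine le_antisymm ?_ ?_
    · refine (ciInf_le (hbd V) ⟨V, hV⟩).trans ?_
      simp [rho_self]
    · refine le_ciInf fun U => ?_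
      have := key hm U.2 hV
      linarith
  have hF : ∀ V W, |max 0 (min m (F0 V)) - max 0 (min m (F0 W))| ≤ m * rho B C1 V W := by
    intro V W
    have h1 := hlip V W
    have h2 := hlip W V
    rw [rho_symm B C1 W V] at h2
    calc |max 0 (min m (F0 V)) - max 0 (min m (F0 W))|
        ≤ |min m (F0 V) - min m (F0 W)| := by
          have := abs_max_sub_max_le_max 0 (min m (F0 V)) 0 (min m (F0 W))
          simpa using this
      _ ≤ |F0 V - F0 W| := by
          have := abs_min_sub_min_le_max m (F0 V) m (F0 W)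
          simpa using this
      _ ≤ _ := by rw [abs_le]; constructor <;> linarith
  refine ⟨fun V => max 0 (min m (F0 V)), fun V => le_max_left _ _, fun V => ?_, ?_, ?_, ?_⟩
  · exact max_le hm.le (min_le_left _ _)
  · intro V W
    refine (hF V W).trans ?_
    rw [mul_assoc]
    exact mul_le_mul_of_nonneg_left (rho_le B hC1 V W) hm.le
  · intro V W h
    refine (hF V W).trans (le_of_eq ?_)
    have h1 : off V - off W = 0 := by
      rw [← off_sub]
      ext y
      by_cases hy : y = 0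
      · simp [off, hy]
      · simp [off, hy, h y hy]
    unfold rho
    rw [h1]
    simp [mul_assoc]
  · intro V hV
    simp only
    rw [hval V hV]
    have h1 : DD z V 0 ≤ m := hV.2.1 0
    rw [min_eq_right h1, max_eq_right (DD_pos hV.1 0).le]

end Pool.Agent.BED.H61
end
end -- Pool.Agent.Helper61_BED.Mcs
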