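import Pool.Agent.Helper12_MEB.B006

/-!
# Merged copies (generated) of the modules

* `Pool.Agent.Helper54_BED.Next`
* `Pool.Agent.Helper54_BED.Induct`
* `Pool.Agent.Helper54_BED.Est`
* `Pool.Agent.Helper54_BED.Flat`
* `Pool.Agent.Helper54_BED.Stag`
* `Pool.Agent.Helper54_BED.Main`
-/

set_option autoImplicit false

section -- Pool.Agent.Helper54_BED.Next

/-!
# BED, module FLAT, part 1: from a rough bound to flatness
-/

set_option autoImplicit false

open MeasureTheory ProbabilityTheory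

open scoped ENNReal NNReal BigOperators

noncomputable section

namespace Pool.Agent.BED

open Matrix

variable {d M : ℕ} [NeZero M]

/-- the data at a stage of the induction -/
structure Stage (v : ℝ≥0) (C B z μ m p : ℝ) (F : (Tor d M → ℝ) → ℝ) (U : Set (Tor d M → ℝ)) :
    Prop where
  zle : z ≤ 2 * d + 1
  μpos : 0 < μ
  mpos : 0 < m
  mle : m ≤ 1.1 * μ
  F0 : ∀ V, 0 ≤ F V
  Fm : ∀ V, F V ≤ m
  lip : ∀ V W, |F V - F W| ≤ m * (C + Real.sqrt B) * Real.sqrt (∑ x, (V x - W x) ^ 2)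
  coord : ∀ V W, (∀ x, x ≠ 0 → V x = W x) → |F V - F W| ≤ m * C * |V 0 - W 0|
  int : ∫ V, F V ∂(gau d M v) = μ
  flat : ∀ V ∈ U, Flat z μ V
  eq : ∀ V ∈ U, ∀ x, DD z V x = F (tr x V)
  meas : gau d M v Uᶜ ≤ ENNReal.ofReal p

/-- `ℓ²`-Lipschitz functions are continuous -/
theorem continuous_of_lip {ι : Type*} [Fintype ι] {F : (ι → ℝ) → ℝ} {K : ℝ} (hK : 0 ≤ K)
    (hF : ∀ x y, |F x - F y| ≤ K * Real.sqrt (∑ i, (x i - y i) ^ 2)) : Continuous F := by
  have h : LipschitzWith (Real.toNNReal (K * Real.sqrt (Fintype.card ι))) F := by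
    refine LipschitzWith.of_dist_le_mul fun x y => ?_
    rw [Real.dist_eq, Real.coe_toNNReal _ (by positivity), mul_assoc]
    refine (hF x y).trans (mul_le_mul_of_nonneg_left ?_ hK)
    rw [← Real.sqrt_sq (dist_nonneg (x := x) (y := y)), ← Real.sqrt_mul (Nat.cast_nonneg _)]
    refine Real.sqrt_le_sqrt ?_
    calc ∑ i, (x i - y i) ^ 2 ≤ ∑ _i : ι, dist x y ^ 2 := by
          refine Finset.sum_le_sum fun i _ => ?_
          rw [← sq_abs (x i - y i), ← Real.dist_eq]
          exact pow_le_pow_left₀ dist_nonneg (dist_le_pi_dist x y i) 2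
      _ = Fintype.card ι * dist x y ^ 2 := by simp
  exact h.continuous

theorem gau_isProb (v : ℝ≥0) : IsProbabilityMeasure (gau d M v) := by
  unfold gau; infer_instance

theorem gau_union {v : ℝ≥0} {A : Set (Tor d M → ℝ)} {S : Tor d M → Set (Tor d M → ℝ)}
    {a q : ℝ} (ha : 0 ≤ a) (hq : 0 ≤ q) (hA : gau d M v A ≤ ENNReal.ofReal a)
    (hS : ∀ x, gau d M v (S x) ≤ ENNReal.ofReal q) :
    gau d M v (A ∪ ⋃ x, S x) ≤ ENNReal.ofReal (a + (M : ℝ) ^ d * q) := by
  have h1 : gau d M v (⋃ x, S x) ≤ ENNReal.ofReal ((M : ℝ) ^ d * q) := by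
    refine (measure_iUnion_fintype_le _ _).trans ?_
    calc ∑ x : Tor d M, gau d M v (S x) ≤ ∑ _x : Tor d M, ENNReal.ofReal q :=
          Finset.sum_le_sum fun x _ => hS x
      _ = ENNReal.ofReal ((M : ℝ) ^ d * q) := by
          rw [Finset.sum_const, Finset.card_univ, Fintype.card_fun, ZMod.card, Fintype.card_fin,
            nsmul_eq_mul, ENNReal.ofReal_mul (by positivity), Nat.cast_pow]
          congr 1
          rw [ENNReal.ofReal_pow (by positivity), ENNReal.ofReal_natCast]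
  calc gau d M v (A ∪ ⋃ x, S x) ≤ gau d M v A + gau d M v (⋃ x, S x) := measure_union_le _ _
    _ ≤ ENNReal.ofReal a + ENNReal.ofReal ((M : ℝ) ^ d * q) := add_le_add hA h1
    _ = _ := (ENNReal.ofReal_add ha (by positivity)).symm

/-- the probability that the landscape function at one point is off by `m/120` -/
def qq (C B : ℝ) (v : ℝ≥0) : ℝ := 2 * Real.exp (-1 / (72000 * (C + Real.sqrt B) ^ 2 * v))

theorem qq_pos (C B : ℝ) (v : ℝ≥0) : 0 < qq C B v := by unfold qq; positivity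

theorem next (hGC : GCStmt) (hMcs : McsStmt) (hCov : CovStmt) {C t : ℝ} (hC : 1 ≤ C)
    (hgr : 0 ≤ growth d t)
    (hSum : ∀ (z a : ℝ) (V : Tor d M → ℝ), z ≤ 2 * d + 1 → (∀ x, -1 ≤ V x) → (AM z V).PosDef →
      1 / 2 ≤ a → a ≤ 15 * t → (∀ x, a ≤ DD z V x) → (∀ x, DD z V x ≤ 3 / 2 * a) →
      ∀ x, ∑ y, (GM z V x y) ^ 2 ≤ C * growth d t ∧ GM z V x x ≤ C)
    {v : ℝ≥0} {z α m p : ℝ} {U₀ : Set (Tor d M → ℝ)} (hz : z ≤ 2 * d + 1) (hα : 1 / 2 ≤ α)
    (hαt : α ≤ 15 * t) (hαm : α ≤ m) (hm : m ≤ 1.06 * α)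
    (hU : ∀ V ∈ U₀, (∀ x, -1 ≤ V x) ∧ (AM z V).PosDef ∧ ∀ x, α ≤ DD z V x ∧ DD z V x ≤ m)
    (hp : 0 ≤ p) (hUp : gau d M v U₀ᶜ ≤ ENNReal.ofReal p)
    (hlt : p + (M : ℝ) ^ d * qq C (C * growth d t) v < 1) :
    ∃ (F : (Tor d M → ℝ) → ℝ) (μ : ℝ) (U : Set (Tor d M → ℝ)), U ⊆ U₀ ∧
      α - m / 120 ≤ μ ∧ μ ≤ m + m / 120 ∧
      Stage v C (C * growth d t) z μ m (p + (M : ℝ) ^ d * qq C (C * growth d t) v) F U := by
  set B : ℝ := C * growth d t with hB
  have hB0 : 0 ≤ B := by positivity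
  have hm0 : 0 < m := by linarith only [hα, hαm]
  obtain ⟨F, hF0, hFm, hFlip, hFco, hFeq⟩ := hMcs d M z m B C hm0 hB0 (by linarith only [hC])
  have hK : 0 < m * (C + Real.sqrt B) := by positivity
  have hcont := continuous_of_lip hK.le hFlip
  set μ : ℝ := ∫ V, F V ∂(gau d M v) with hμ
  -- the exceptional set at a point
  set S : Tor d M → Set (Tor d M → ℝ) := fun x => {V | m / 120 ≤ |F (tr x V) - μ|} with hS
  have hSp : ∀ x, gau d M v (S x) ≤ ENNReal.ofReal (qq C B v) := by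
    intro x
    have h1 := hGC (Tor d M) v F _ hK hFlip (m / 120) (by positivity)
    have hmeas : MeasurableSet {V : Tor d M → ℝ | m / 120 ≤ |F V - μ|} :=
      measurableSet_le measurable_const ((hcont.measurable.sub_const _).abs)
    have h2 : gau d M v (S x) = gau d M v {V : Tor d M → ℝ | m / 120 ≤ |F V - μ|} := by
      have h3 := (hCov d M z 0 x).2.2.2.2.2 v
      exact h3.measure_preimage hmeas.nullMeasurableSet
    rw [h2]
    refine (show gau d M v {V : Tor d M → ℝ | m / 120 ≤ |F V - μ|} ≤ _ from h1).trans ?_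
    refine ENNReal.ofReal_le_ofReal (le_of_eq ?_)
    unfold qq
    congr 2
    by_cases hv : (v : ℝ) = 0
    · simp [hv]
    · field_simp
      norm_num
  set U : Set (Tor d M → ℝ) := U₀ ∩ ⋂ x, (S x)ᶜ with hUdef
  have hUc : Uᶜ = U₀ᶜ ∪ ⋃ x, S x := by
    rw [hUdef, Set.compl_inter, Set.compl_iInter]
    simp only [compl_compl]
  have hUm : gau d M v Uᶜ ≤ ENNReal.ofReal (p + (M : ℝ) ^ d * qq C B v) := by
    rw [hUc]
    exact gau_union hp (qq_pos _ _ _).le hUp hSp
  have key : ∀ V ∈ U, ∀ x, DD z V x = F (tr x V) ∧ |DD z V x - μ| < m / 120 := by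
    intro V hV x
    obtain ⟨h1, h2⟩ := hV
    obtain ⟨hV1, hV2, hV3⟩ := hU V h1
    have hgood : V ∈ goodSet z m B C := by
      have h4 := hSum z α V hz hV1 hV2 hα hαt (fun y => (hV3 y).1)
        (fun y => (hV3 y).2.trans (by linarith only [hα, hm]))
      exact ⟨hV2, fun y => (hV3 y).2, fun y => (h4 y).1, fun y => (h4 y).2⟩
    obtain ⟨-, -, -, hc4, hc5, -⟩ := hCov d M z V x
    have h5 := hFeq (tr x V) ((hc5 m B C).2 hgood)
    have h6 : DD z V x = F (tr x V) := by
      rw [h5, hc4 0, add_zero]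
    refine ⟨h6, ?_⟩
    have h7 := Set.mem_iInter.1 h2 x
    simp only [hS, Set.mem_compl_iff, Set.mem_setOf_eq, not_le] at h7
    rw [h6]; exact h7
  -- the good set is not empty
  haveI := gau_isProb (d := d) (M := M) v
  obtain ⟨V₀, hV₀⟩ : U.Nonempty := by
    by_contra hcon
    rw [Set.not_nonempty_iff_eq_empty] at hcon
    rw [hcon, Set.compl_empty, measure_univ] at hUm
    have : (1 : ℝ≥0∞) < 1 := hUm.trans_lt (by
      rw [← ENNReal.ofReal_one]
      exact (ENNReal.ofReal_lt_ofReal_iff one_pos).2 hlt)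
    exact lt_irrefl _ this
  have h8 := (key V₀ hV₀ 0).2
  have h9 := (hU V₀ hV₀.1).2.2 0
  rw [abs_lt] at h8
  have hμ1 : α - m / 120 ≤ μ := by linarith only [h8.2, h9.1]
  have hμ2 : μ ≤ m + m / 120 := by linarith only [h8.1, h9.2]
  have hμm : m ≤ 1.1 * μ := by linarith
  have hμ0 : 0 < μ := by linarith
  refine ⟨F, μ, U, Set.inter_subset_left, hμ1, hμ2, ⟨hz, hμ0, hm0, hμm, hF0, hFm, hFlip, hFco,
    rfl, ?_, fun V hV x => (key V hV x).1, hUm⟩⟩
  intro V hV
  obtain ⟨hV1, hV2, hV3⟩ := hU V hV.1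
  refine ⟨hV1, hV2, fun x => ?_⟩
  have := (key V hV x).2
  linarith

end Pool.Agent.BED
end
end -- Pool.Agent.Helper54_BED.Next

section -- Pool.Agent.Helper54_BED.Induct

/-!
# BED, module FLAT, part 2: the induction
-/

set_option autoImplicit false

open MeasureTheory ProbabilityTheory

open scoped ENNReal NNReal BigOperators

noncomputable section

namespace Pool.Agent.BED

open Matrix

variable {d M : ℕ} [NeZero M]

theorem sum_eval_le (f : Tor d M → ℝ) (x : Tor d M) : |f x| ≤ Real.sqrt (∑ y, f y ^ 2) := by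
  rw [← Real.sqrt_sq_eq_abs]
  exact Real.sqrt_le_sqrt (Finset.single_le_sum (f := fun y => f y ^ 2)
    (fun y _ => sq_nonneg (f y)) (Finset.mem_univ x))

/-- the tail of one coordinate -/
theorem coord_tail (hGC : GCStmt) {C B : ℝ} (hC : 1 ≤ C) (v : ℝ≥0) (x : Tor d M) :
    gau d M v {V | 1 / 100 ≤ |V x|} ≤ ENNReal.ofReal (qq C B v) := by
  have h1 := hGC (Tor d M) v (fun V => V x) 1 one_pos (fun V W => by
    rw [one_mul]
    exact sum_eval_le (fun y => V y - W y) x) (1 / 100) (by norm_num)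
  have h2 : ∫ V : Tor d M → ℝ, V x ∂(Measure.pi fun _ : Tor d M => gaussianReal 0 v) = 0 := by
    have h3 := (measurePreserving_eval (fun _ : Tor d M => gaussianReal 0 v) x)
    have h5 : ∫ V : Tor d M → ℝ, V x ∂(Measure.pi fun _ : Tor d M => gaussianReal 0 v) =
        ∫ s, s ∂(gaussianReal 0 v) := by
      have h6 := integral_map (μ := Measure.pi fun _ : Tor d M => gaussianReal 0 v)
        h3.measurable.aemeasurable (f := fun s : ℝ => s) (by fun_prop)
      rw [h3.map_eq] at h6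
      exact h6.symm
    rw [h5, integral_id_gaussianReal]
  simp only [h2, sub_zero] at h1
  refine (show gau d M v {V | 1 / 100 ≤ |V x|} ≤ _ from h1).trans ?_
  refine ENNReal.ofReal_le_ofReal ?_
  unfold qq
  refine mul_le_mul_of_nonneg_left (Real.exp_le_exp.2 ?_) (by norm_num)
  by_cases hv : (v : ℝ) = 0
  · simp [hv]
  · have hv0 : 0 < (v : ℝ) := lt_of_le_of_ne v.2 (Ne.symm hv)
    have hs := Real.sqrt_nonneg B
    have h6 : 1 ≤ (C + Real.sqrt B) ^ 2 := by nlinarith only [hC, hs]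
    rw [neg_div, neg_div, neg_le_neg_iff, div_le_div_iff₀ (by positivity) (by positivity)]
    nlinarith only [hv0, h6]

/-- the base of the induction -/
theorem base (hGC : GCStmt) (hMcs : McsStmt) (hCov : CovStmt) {C t : ℝ} (hC : 1 ≤ C)
    (hgr : 0 ≤ growth d t) (ht : 1 ≤ t)
    (hSum : ∀ (z a : ℝ) (V : Tor d M → ℝ), z ≤ 2 * d + 1 → (∀ x, -1 ≤ V x) → (AM z V).PosDef →
      1 / 2 ≤ a → a ≤ 15 * t → (∀ x, a ≤ DD z V x) → (∀ x, DD z V x ≤ 3 / 2 * a) →
      ∀ x, ∑ y, (GM z V x y) ^ 2 ≤ C * growth d t ∧ GM z V x x ≤ C)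
    {v : ℝ≥0} (hlt : 2 * ((M : ℝ) ^ d * qq C (C * growth d t) v) < 1) :
    ∃ (z μ m : ℝ) (F : (Tor d M → ℝ) → ℝ) (U : Set (Tor d M → ℝ)), 0.98 ≤ μ ∧ μ ≤ 1.03 ∧
      Stage v C (C * growth d t) z μ m (2 * ((M : ℝ) ^ d * qq C (C * growth d t) v)) F U := by
  set q : ℝ := (M : ℝ) ^ d * qq C (C * growth d t) v with hq
  have hq0 : 0 < q := by
    have := qq_pos C (C * growth d t) v
    have : (0:ℝ) < M := by exact_mod_cast Nat.pos_of_ne_zero (NeZero.ne M)
    positivity
  set U₀ : Set (Tor d M → ℝ) := {V | ∀ x, |V x| < 1 / 100} with hU₀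
  have hU₀c : U₀ᶜ = ∅ ∪ ⋃ x, {V : Tor d M → ℝ | 1 / 100 ≤ |V x|} := by
    ext V
    simp [hU₀]
  have hmeas : gau d M v U₀ᶜ ≤ ENNReal.ofReal q := by
    rw [hU₀c]
    have := gau_union (v := v) (A := ∅) (S := fun x => {V : Tor d M → ℝ | 1 / 100 ≤ |V x|})
      (a := 0) (q := qq C (C * growth d t) v) le_rfl (qq_pos _ _ _).le (by simp)
      (fun x => coord_tail hGC hC v x)
    simpa [hq] using this
  have hU : ∀ V ∈ U₀, (∀ x, -1 ≤ V x) ∧ (AM (2 * (d : ℝ) + 1) V).PosDef ∧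
      ∀ x, 0.99 ≤ DD (2 * (d : ℝ) + 1) V x ∧ DD (2 * (d : ℝ) + 1) V x ≤ 1.02 := by
    intro V hV
    have hV' : ∀ x, -(1 / 100) < V x ∧ V x < 1 / 100 := fun x => abs_lt.1 (hV x)
    have hA : ∀ (c : ℝ) (x : Tor d M), (AM (2 * (d : ℝ) + 1) V *ᵥ fun _ => c) x =
        c * (1 - V x) := by
      intro c x
      rw [AM_mulVec]
      simp
      ring
    have hpd : (AM (2 * (d : ℝ) + 1) V).PosDef :=
      AM_posDef_of_super (g := fun _ => 1) (fun _ => one_pos) (fun x => by
        rw [hA]; linarith only [(hV' x).2, hlt, hq0])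
    have hD := AM_DD hpd
    refine ⟨fun x => by linarith [(hV' x).1], hpd, fun x => ⟨?_, ?_⟩⟩
    · have := AM_le_of hpd (u := fun _ => 0.99) (v := DD (2 * (d : ℝ) + 1) V) (fun y => by
        rw [hA, hD, Pi.one_apply]; linarith only [(hV' y).1, hlt, hq0]) x
      simpa using this
    · have := AM_le_of hpd (u := DD (2 * (d : ℝ) + 1) V) (v := fun _ => 1.02) (fun y => by
        rw [hA, hD, Pi.one_apply]; linarith only [(hV' y).2, hlt, hq0]) x
      simpa using this
  obtain ⟨F, μ, U, -, h1, h2, h3⟩ := next hGC hMcs hCov hC hgr hSum (U₀ := U₀) (p := q)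
    (z := 2 * (d : ℝ) + 1) (α := 0.99) (m := 1.02) le_rfl (by norm_num) (by linarith only [ht, hlt, hq0])
    (by norm_num) (by norm_num) hU hq0.le hmeas (by linarith)
  have e : 2 * q = q + (M : ℝ) ^ d * qq C (C * growth d t) v := by rw [← hq]; ring
  refine ⟨2 * (d : ℝ) + 1, μ, 1.02, F, U, by linarith only [hlt, hq0, h1], by linarith only [hlt, hq0, h2], ?_⟩
  rw [e]; exact h3

/-- one step of the induction -/
theorem step (hGC : GCStmt) (hMcs : McsStmt) (hCov : CovStmt) (hStep : StepStmt) {C t : ℝ}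
    (hC : 1 ≤ C) (hgr : 0 ≤ growth d t)
    (hSum : ∀ (z a : ℝ) (V : Tor d M → ℝ), z ≤ 2 * d + 1 → (∀ x, -1 ≤ V x) → (AM z V).PosDef →
      1 / 2 ≤ a → a ≤ 15 * t → (∀ x, a ≤ DD z V x) → (∀ x, DD z V x ≤ 3 / 2 * a) →
      ∀ x, ∑ y, (GM z V x y) ^ 2 ≤ C * growth d t ∧ GM z V x x ≤ C)
    {v : ℝ≥0} {z μ m p : ℝ} {F : (Tor d M → ℝ) → ℝ} {U : Set (Tor d M → ℝ)} (hp : 0 ≤ p)
    (hμ : 1 / 2 ≤ μ) (hμt : μ ≤ 12 * t)
    (hS : Stage v C (C * growth d t) z μ m p F U)
    (hlt : p + (M : ℝ) ^ d * qq C (C * growth d t) v < 1) :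
    ∃ (z' μ' m' : ℝ) (F' : (Tor d M → ℝ) → ℝ) (U' : Set (Tor d M → ℝ)),
      1.07 * μ ≤ μ' ∧ μ' ≤ 1.15 * μ ∧
      Stage v C (C * growth d t) z' μ' m' (p + (M : ℝ) ^ d * qq C (C * growth d t) v) F' U' := by
  have hμ0 := hS.μpos
  have hU : ∀ V ∈ U, (∀ x, -1 ≤ V x) ∧ (AM (z - 1 / (10 * μ)) V).PosDef ∧
      ∀ x, 1.08 * μ ≤ DD (z - 1 / (10 * μ)) V x ∧ DD (z - 1 / (10 * μ)) V x ≤ 1.14 * μ := by
    intro V hV
    obtain ⟨h1, h2, h3⟩ := hS.flat V hV
    obtain ⟨h4, h5⟩ := hStep d M z μ V hμ0 h2 h3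
    exact ⟨h1, h4, h5⟩
  have hz : z - 1 / (10 * μ) ≤ 2 * d + 1 := by
    have := hS.zle
    have : 0 < 1 / (10 * μ) := by positivity
    linarith
  obtain ⟨F', μ', U', -, h1, h2, h3⟩ := next hGC hMcs hCov hC hgr hSum (U₀ := U) (p := p)
    (z := z - 1 / (10 * μ)) (α := 1.08 * μ) (m := 1.14 * μ) hz (by linarith only [hμ, hμ0]) (by linarith only [hμt, hμ0])
    (by linarith only [hμ0]) (by linarith only [hμ0]) hU hp hS.meas hlt
  exact ⟨_, μ', _, F', U', by linarith only [hμ0, h1], by linarith only [hμ0, h2], h3⟩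

/-- the induction -/
theorem induct (hGC : GCStmt) (hMcs : McsStmt) (hCov : CovStmt) (hStep : StepStmt) {C t : ℝ}
    (hC : 1 ≤ C) (hgr : 0 ≤ growth d t) (ht : 1 ≤ t)
    (hSum : ∀ (z a : ℝ) (V : Tor d M → ℝ), z ≤ 2 * d + 1 → (∀ x, -1 ≤ V x) → (AM z V).PosDef →
      1 / 2 ≤ a → a ≤ 15 * t → (∀ x, a ≤ DD z V x) → (∀ x, DD z V x ≤ 3 / 2 * a) →
      ∀ x, ∑ y, (GM z V x y) ^ 2 ≤ C * growth d t ∧ GM z V x x ≤ C)
    {v : ℝ≥0} (k : ℕ) (hlt : (k + 2 : ℝ) * ((M : ℝ) ^ d * qq C (C * growth d t) v) < 1) :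
    ∃ (z μ m : ℝ) (F : (Tor d M → ℝ) → ℝ) (U : Set (Tor d M → ℝ)),
      Stage v C (C * growth d t) z μ m ((k + 2 : ℝ) * ((M : ℝ) ^ d * qq C (C * growth d t) v)) F U ∧
      ((10 * t ≤ μ ∧ μ ≤ 12 * t) ∨ (μ < 10 * t ∧ 0.98 * 1.07 ^ k ≤ μ)) := by
  have hq0 : 0 < (M : ℝ) ^ d * qq C (C * growth d t) v := by
    have := qq_pos C (C * growth d t) v
    have : (0:ℝ) < M := by exact_mod_cast Nat.pos_of_ne_zero (NeZero.ne M)
    positivity
  induction k with
  | zero =>
    simp only [Nat.cast_zero, zero_add] at hlt ⊢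
    obtain ⟨z, μ, m, F, U, h1, h2, h3⟩ := base hGC hMcs hCov hC hgr ht hSum (v := v) hlt
    exact ⟨z, μ, m, F, U, h3, Or.inr ⟨by linarith only [ht, hq0, hlt, h2], by simpa using h1⟩⟩
  | succ k ih =>
    have hlt' : (k + 2 : ℝ) * ((M : ℝ) ^ d * qq C (C * growth d t) v) < 1 := by
      push_cast at hlt
      nlinarith only [hq0, hlt]
    obtain ⟨z, μ, m, F, U, h1, h2⟩ := ih hlt'
    rcases h2 with h2 | ⟨h2, h3⟩
    · refine ⟨z, μ, m, F, U, ?_, Or.inl h2⟩
      refine { h1 with meas := h1.meas.trans (ENNReal.ofReal_le_ofReal ?_) }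
      push_cast
      nlinarith only [hq0]
    · have h4 : (1:ℝ) ≤ 1.07 ^ k := one_le_pow₀ (by norm_num)
      obtain ⟨z', μ', m', F', U', h5, h6, h7⟩ := step hGC hMcs hCov hStep hC hgr hSum (by positivity)
        (by linarith only [h3, h4]) (by linarith only [ht, h2]) h1 (by push_cast at hlt; linarith only [hlt])
      refine ⟨z', μ', m', F', U', ?_, ?_⟩
      · have e : ((k + 1 : ℕ) + 2 : ℝ) * ((M : ℝ) ^ d * qq C (C * growth d t) v) =
            (k + 2 : ℝ) * ((M : ℝ) ^ d * qq C (C * growth d t) v) +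
              (M : ℝ) ^ d * qq C (C * growth d t) v := by push_cast; ring
        rw [e]; exact h7
      · by_cases h8 : 10 * t ≤ μ'
        · exact Or.inl ⟨h8, by linarith only [ht, h2, h6]⟩
        · refine Or.inr ⟨not_le.1 h8, ?_⟩
          rw [pow_succ]
          linarith only [h3, h5]

end Pool.Agent.BED
end
end -- Pool.Agent.Helper54_BED.Induct

section -- Pool.Agent.Helper54_BED.Est

/-!
# BED, module FLAT, part 3: the edge is `2d + O(σ²)`
-/

set_option autoImplicit false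

open MeasureTheory ProbabilityTheory

open scoped ENNReal NNReal BigOperators

noncomputable section

namespace Pool.Agent.BED

open Matrix

variable {d M : ℕ} [NeZero M]

theorem map_eval_gau (v : ℝ≥0) (x : Tor d M) :
    (gau d M v).map (fun V => V x) = gaussianReal 0 v :=
  (measurePreserving_eval (fun _ : Tor d M => gaussianReal 0 v) x).map_eq

theorem integrable_eval (v : ℝ≥0) (x : Tor d M) : Integrable (fun V : Tor d M → ℝ => V x) (gau d M v) := by
  have h := (memLp_id_gaussianReal (μ := 0) (v := v) 1).integrable (by norm_num)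
  rw [← map_eval_gau (d := d) (M := M) v x] at h
  exact h.comp_measurable (measurable_pi_apply x)

theorem integrable_eval_sq (v : ℝ≥0) (x : Tor d M) :
    Integrable (fun V : Tor d M → ℝ => V x ^ 2) (gau d M v) := by
  have h := (memLp_id_gaussianReal (μ := 0) (v := v) 2).integrable_sq
  rw [← map_eval_gau (d := d) (M := M) v x] at h
  exact h.comp_measurable (measurable_pi_apply x)

theorem integral_eval_sq (v : ℝ≥0) (x : Tor d M) :
    ∫ V : Tor d M → ℝ, V x ^ 2 ∂(gau d M v) = v := by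
  have h1 : ∫ V : Tor d M → ℝ, V x ^ 2 ∂(gau d M v) = ∫ s, s ^ 2 ∂(gaussianReal 0 v) := by
    have h6 := integral_map (μ := gau d M v) (measurable_pi_apply x).aemeasurable
      (f := fun s : ℝ => s ^ 2) (by fun_prop)
    rw [show (gau d M v).map (fun V : Tor d M → ℝ => V x) = gaussianReal 0 v from
      map_eval_gau v x] at h6
    exact h6.symm
  rw [h1]
  have h2 := variance_id_gaussianReal (μ := 0) (v := v)
  rw [variance_of_integral_eq_zero (by fun_prop) (by simp)] at h2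
  simpa using h2

/-- reflection of the coordinate at the origin -/
def flip0 (V : Tor d M → ℝ) : Tor d M → ℝ := fun x => if x = 0 then - V x else V x

theorem mp_flip0 (v : ℝ≥0) : MeasurePreserving (flip0 : (Tor d M → ℝ) → _) (gau d M v) (gau d M v) := by
  unfold gau
  have h := measurePreserving_pi (fun _ : Tor d M => gaussianReal 0 v)
    (fun _ : Tor d M => gaussianReal 0 v) (f := fun x s => if x = 0 then -s else s) (fun x => by
      by_cases hx : x = 0
      · simp only [hx, if_true]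
        refine ⟨by fun_prop, ?_⟩
        have := gaussianReal_map_neg (μ := 0) (v := v)
        simpa using this
      · simp only [hx, if_false]
        exact MeasurePreserving.id _)
  exact h

/-- Gaussian integration by parts, as an inequality -/
theorem ibp {v : ℝ≥0} {F : (Tor d M → ℝ) → ℝ} {K m : ℝ} (hm : 0 ≤ m) (hF0 : ∀ V, 0 ≤ F V)
    (hFm : ∀ V, F V ≤ m) (hFc : Continuous F)
    (hco : ∀ V W, (∀ x, x ≠ 0 → V x = W x) → |F V - F W| ≤ K * |V 0 - W 0|) :
    Integrable (fun V => V 0 * F V) (gau d M v) ∧ |∫ V, V 0 * F V ∂(gau d M v)| ≤ K * v := by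
  have hint : Integrable (fun V => V 0 * F V) (gau d M v) := by
    refine (integrable_eval v 0).mul_bdd (c := m) hFc.aestronglyMeasurable
      (Filter.Eventually.of_forall fun V => ?_)
    rw [Real.norm_eq_abs, abs_of_nonneg (hF0 V)]
    exact hFm V
  refine ⟨hint, ?_⟩
  have h1 : ∫ V, V 0 * F V ∂(gau d M v) = ∫ V, (flip0 V) 0 * F (flip0 V) ∂(gau d M v) := by
    have h := (mp_flip0 (d := d) (M := M) v)
    have h2 := integral_map (μ := gau d M v) h.measurable.aemeasurable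
      (f := fun V : Tor d M → ℝ => V 0 * F V) (by
        exact ((continuous_apply 0).mul hFc).aestronglyMeasurable)
    rw [h.map_eq] at h2
    exact h2
  have hint' : Integrable (fun V => (flip0 V) 0 * F (flip0 V)) (gau d M v) := by
    have h := (mp_flip0 (d := d) (M := M) v)
    exact (h.integrable_comp hint.aestronglyMeasurable).2 hint
  have h2 : 2 * ∫ V, V 0 * F V ∂(gau d M v) =
      ∫ V, (V 0 * F V + (flip0 V) 0 * F (flip0 V)) ∂(gau d M v) := by
    rw [integral_add hint hint', ← h1]; ring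
  have h3 : |∫ V, (V 0 * F V + (flip0 V) 0 * F (flip0 V)) ∂(gau d M v)| ≤
      ∫ V : Tor d M → ℝ, 2 * K * V 0 ^ 2 ∂(gau d M v) := by
    refine (abs_integral_le_integral_abs).trans (integral_mono_ae ?_ ?_ ?_)
    · exact (hint.add hint').abs
    · exact (integrable_eval_sq v 0).const_mul _
    · refine Filter.Eventually.of_forall fun V => ?_
      have e : (flip0 V) 0 = - V 0 := by simp [flip0]
      have h4 := hco V (flip0 V) (fun x hx => by simp [flip0, hx])
      rw [e] at h4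
      simp only [e]
      have e2 : V 0 * F V + -V 0 * F (flip0 V) = V 0 * (F V - F (flip0 V)) := by ring
      rw [e2, abs_mul]
      calc |V 0| * |F V - F (flip0 V)| ≤ |V 0| * (K * |V 0 - -V 0|) :=
            mul_le_mul_of_nonneg_left h4 (abs_nonneg _)
        _ = 2 * K * V 0 ^ 2 := by
            rw [show V 0 - -V 0 = 2 * V 0 by ring, abs_mul, abs_two, ← sq_abs (V 0)]; ring
  rw [← h2, integral_const_mul, integral_eval_sq, abs_mul, abs_two] at h3
  linarith

theorem sum_shift (f : Tor d M → ℝ) :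
    ∑ x, ∑ i : Fin d, (f (x + ev i) + f (x - ev i)) = 2 * d * ∑ x, f x := by
  rw [Finset.sum_comm]
  have : ∀ i : Fin d, ∑ x : Tor d M, (f (x + ev i) + f (x - ev i)) = 2 * ∑ x, f x := by
    intro i
    have h0 := Equiv.sum_comp (Equiv.addRight (ev i : Tor d M)) f
    have h := Equiv.sum_comp (Equiv.subRight (ev i : Tor d M)) f
    simp only [Equiv.subRight_apply, Equiv.coe_addRight] at h h0
    rw [Finset.sum_add_distrib, h, h0]; ring
  simp only [this, Finset.sum_const, Finset.card_univ, Fintype.card_fin, nsmul_eq_mul]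
  ring

theorem sum_landscape {z : ℝ} {V : Tor d M → ℝ} (hA : (AM z V).PosDef) :
    ∑ x, (z - 2 * d - V x) * DD z V x = (M : ℝ) ^ d := by
  have h1 : ∑ x, (AM z V *ᵥ DD z V) x = (M : ℝ) ^ d := by
    rw [AM_DD hA]
    simp [Finset.card_univ]
  rw [← h1]
  simp only [AM_mulVec, Finset.sum_sub_distrib]
  rw [sum_shift, Finset.mul_sum, ← Finset.sum_sub_distrib]
  refine Finset.sum_congr rfl fun x _ => ?_
  ring

theorem est (hCov : CovStmt) {C B z μ m p : ℝ} (hC : 1 ≤ C) (σ : ℝ≥0) (hσ : 0 < σ) (hσ1 : σ ≤ 1)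
    {F : (Tor d M → ℝ) → ℝ} {U : Set (Tor d M → ℝ)}
    (hS : Stage (σ ^ 2) C B z μ m p F U) (hp : 0 < p) (hp2 : p ≤ 1 / 2) :
    |z - 2 * d| ≤ 4 * (C * (σ : ℝ) ^ 2 + 1 / μ + Real.sqrt p) := by
  haveI := gau_isProb (d := d) (M := M) (σ ^ 2)
  have hM : (0:ℝ) < (M : ℝ) ^ d := by
    have : (0:ℝ) < M := by exact_mod_cast Nat.pos_of_ne_zero (NeZero.ne M)
    positivity
  have hμ := hS.μpos
  have hm := hS.mpos
  have hmμ := hS.mle
  have hσ' : (0:ℝ) < σ := hσ
  have hσ1' : (σ:ℝ) ≤ 1 := hσ1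
  have hFc : Continuous F := continuous_of_lip (by positivity) hS.lip
  set g := gau d M (σ ^ 2) with hg
  set y : ℝ := |z - 2 * d| with hy
  have hy0 : 0 ≤ y := abs_nonneg _
  obtain ⟨hint, hibp⟩ := ibp (v := σ ^ 2) (K := m * C) hm.le hS.F0 hS.Fm hFc hS.coord
  have hvv : ((σ ^ 2 : ℝ≥0) : ℝ) = (σ : ℝ) ^ 2 := by push_cast; rfl
  rw [hvv] at hibp
  -- the translated functions
  have hmp : ∀ x : Tor d M, MeasurePreserving (tr x) g g := fun x => (hCov d M z 0 x).2.2.2.2.2 _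
  have htrc : ∀ x : Tor d M, Continuous (tr x : (Tor d M → ℝ) → _) := fun x =>
    continuous_pi fun y => continuous_apply _
  have hI1 : ∀ x : Tor d M, Integrable (fun V => F (tr x V)) g ∧ ∫ V, F (tr x V) ∂g = μ := by
    intro x
    have hi : Integrable F g := by
      refine Integrable.of_bound hFc.aestronglyMeasurable m
        (Filter.Eventually.of_forall fun V => ?_)
      rw [Real.norm_eq_abs, abs_of_nonneg (hS.F0 V)]
      exact hS.Fm V
    refine ⟨((hmp x).integrable_comp hi.aestronglyMeasurable).2 hi, ?_⟩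
    have h2 := integral_map (μ := g) (hmp x).measurable.aemeasurable
      (f := F) (hFc.aestronglyMeasurable)
    rw [(hmp x).map_eq] at h2
    rw [← h2]
    exact hS.int
  have hI2 : ∀ x : Tor d M, Integrable (fun V : Tor d M → ℝ => V x * F (tr x V)) g ∧
      ∫ V : Tor d M → ℝ, V x * F (tr x V) ∂g = ∫ V : Tor d M → ℝ, V 0 * F V ∂g := by
    intro x
    have e : (fun V : Tor d M → ℝ => V x * F (tr x V)) =
        (fun V : Tor d M → ℝ => V 0 * F V) ∘ tr x := by
      funext V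
      simp [tr]
    rw [e]
    refine ⟨((hmp x).integrable_comp hint.aestronglyMeasurable).2 hint, ?_⟩
    have h2 := integral_map (μ := g) (hmp x).measurable.aemeasurable
      (f := fun V : Tor d M → ℝ => V 0 * F V) (((continuous_apply 0).mul hFc).aestronglyMeasurable)
    rw [(hmp x).map_eq] at h2
    exact h2.symm
  set Z : (Tor d M → ℝ) → ℝ := fun V => ∑ x, (z - 2 * d - V x) * F (tr x V) with hZ
  have hZi : ∀ x : Tor d M, Integrable (fun V : Tor d M → ℝ => (z - 2 * d - V x) * F (tr x V)) g := by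
    intro x
    have : (fun V : Tor d M → ℝ => (z - 2 * d - V x) * F (tr x V)) =
        fun V => (z - 2 * d) * F (tr x V) - V x * F (tr x V) := by
      funext V; ring
    rw [this]
    exact ((hI1 x).1.const_mul _).sub (hI2 x).1
  have hZint : ∫ V, Z V ∂g = (M : ℝ) ^ d * ((z - 2 * d) * μ - ∫ V : Tor d M → ℝ, V 0 * F V ∂g) := by
    rw [hZ, integral_finsetSum _ (fun x _ => hZi x)]
    have : ∀ x : Tor d M, ∫ V : Tor d M → ℝ, (z - 2 * d - V x) * F (tr x V) ∂g =
        (z - 2 * d) * μ - ∫ V : Tor d M → ℝ, V 0 * F V ∂g := by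
      intro x
      rw [← (hI2 x).2, ← (hI1 x).2, ← integral_const_mul, ← integral_sub ((hI1 x).1.const_mul _)
        (hI2 x).1]
      refine integral_congr_ae (Filter.Eventually.of_forall fun V => ?_)
      simp only; ring
    simp only [this, Finset.sum_const, Finset.card_univ, Fintype.card_fun, ZMod.card,
      Fintype.card_fin, nsmul_eq_mul, Nat.cast_pow]
  -- the exceptional set
  set H := toMeasurable g Uᶜ with hH
  have hHm : MeasurableSet H := measurableSet_toMeasurable _ _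
  have hHp : g.real H ≤ p := by
    rw [Measure.real, measure_toMeasurable]
    exact ENNReal.toReal_le_of_le_ofReal hp.le hS.meas
  have hZU : ∀ V, V ∉ H → Z V = (M : ℝ) ^ d := by
    intro V hV
    have hVU : V ∈ U := by
      by_contra hc
      exact hV (subset_toMeasurable g _ hc)
    rw [hZ, ← sum_landscape (hS.flat V hVU).2.1]
    exact Finset.sum_congr rfl fun x _ => by rw [hS.eq V hVU x]
  -- the bound
  have hZi' : Integrable Z g := integrable_finsetSum _ fun x _ => hZi x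
  have hbd : |∫ V, Z V ∂g - (M : ℝ) ^ d| ≤ (M : ℝ) ^ d * ((1 + y * m) * p + m * σ * Real.sqrt p) := by
    have e1 : ∫ V, Z V ∂g - (M : ℝ) ^ d = ∫ V, (Z V - (M : ℝ) ^ d) ∂g := by
      rw [integral_sub hZi' (integrable_const _), integral_const]
      simp
    have e2 : ∫ V, (Z V - (M : ℝ) ^ d) ∂g = ∫ V in H, (Z V - (M : ℝ) ^ d) ∂g := by
      rw [setIntegral_eq_integral_of_forall_compl_eq_zero]
      intro V hV
      rw [hZU V hV, sub_self]
    rw [e1, e2]
    have hs : 0 < Real.sqrt p := Real.sqrt_pos.2 hp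
    have hss : Real.sqrt p * Real.sqrt p = p := Real.mul_self_sqrt hp.le
    -- the dominating function
    set D : (Tor d M → ℝ) → ℝ := fun V => (M : ℝ) ^ d * (1 + y * m + m * (σ / (2 * Real.sqrt p))) +
      ∑ x, m * (Real.sqrt p / (2 * σ)) * V x ^ 2 with hD
    have hDi : Integrable D g := by
      refine (integrable_const _).add (integrable_finsetSum _ fun x _ => ?_)
      exact (integrable_eval_sq _ x).const_mul _
    have hdom : ∀ V, |Z V - (M : ℝ) ^ d| ≤ D V := by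
      intro V
      have h1 : |Z V| ≤ ∑ x, (y + |V x|) * m := by
        rw [hZ]
        refine (Finset.abs_sum_le_sum_abs _ _).trans (Finset.sum_le_sum fun x _ => ?_)
        rw [abs_mul, abs_of_nonneg (hS.F0 _)]
        refine mul_le_mul ?_ (hS.Fm _) (hS.F0 _) (by positivity)
        exact abs_sub _ _
      have h2 : ∀ x : Tor d M, |V x| ≤ σ / (2 * Real.sqrt p) + Real.sqrt p / (2 * σ) * V x ^ 2 := by
        intro x
        have h3 : 0 ≤ (Real.sqrt p * |V x| - σ) ^ 2 := sq_nonneg _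
        have h4 : σ / (2 * Real.sqrt p) + Real.sqrt p / (2 * σ) * V x ^ 2 - |V x| =
            (Real.sqrt p * |V x| - σ) ^ 2 / (2 * Real.sqrt p * σ) := by
          rw [← sq_abs (V x)]
          field_simp
          ring
        have h5 : 0 ≤ (Real.sqrt p * |V x| - σ) ^ 2 / (2 * Real.sqrt p * σ) := by positivity
        linarith only [h4, h5]
      have h3 : ∑ x : Tor d M, (y + |V x|) * m ≤
          (M : ℝ) ^ d * (y * m + m * (σ / (2 * Real.sqrt p))) +
            ∑ x, m * (Real.sqrt p / (2 * σ)) * V x ^ 2 := by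
        have h4 : ∑ x : Tor d M, (y + |V x|) * m ≤
            ∑ x : Tor d M, ((y * m + m * (σ / (2 * Real.sqrt p))) +
              m * (Real.sqrt p / (2 * σ)) * V x ^ 2) := by
          refine Finset.sum_le_sum fun x _ => ?_
          have := h2 x
          nlinarith only [hp, hp2, hm, this]
        refine h4.trans (le_of_eq ?_)
        rw [Finset.sum_add_distrib]
        congr 1
        simp only [Finset.sum_const, Finset.card_univ, Fintype.card_fun, ZMod.card,
          Fintype.card_fin, nsmul_eq_mul, Nat.cast_pow]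
      calc |Z V - (M : ℝ) ^ d| ≤ |Z V| + |(M : ℝ) ^ d| := abs_sub _ _
        _ ≤ _ := by
            rw [abs_of_pos hM, hD]
            simp only
            have := h1.trans h3
            nlinarith
    calc |∫ V in H, (Z V - (M : ℝ) ^ d) ∂g| ≤ ∫ V in H, |Z V - (M : ℝ) ^ d| ∂g :=
          abs_integral_le_integral_abs
      _ ≤ ∫ V in H, D V ∂g := by
          refine setIntegral_mono ?_ hDi.integrableOn hdom
          exact ((hZi'.sub (integrable_const _)).abs).integrableOn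
      _ = (M : ℝ) ^ d * (1 + y * m + m * (σ / (2 * Real.sqrt p))) * g.real H +
            ∑ x : Tor d M, m * (Real.sqrt p / (2 * σ)) * ∫ V in H, V x ^ 2 ∂g := by
          rw [hD, integral_add (integrable_const _) (integrable_finsetSum _ fun x _ =>
            ((integrable_eval_sq _ x).const_mul _).integrableOn), integral_const,
            integral_finsetSum _ (fun x _ => ((integrable_eval_sq _ x).const_mul _).integrableOn)]
          congr 1
          · rw [measureReal_restrict_apply_univ, smul_eq_mul, mul_comm]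
          · refine Finset.sum_congr rfl fun x _ => ?_
            rw [integral_const_mul]
      _ ≤ (M : ℝ) ^ d * (1 + y * m + m * (σ / (2 * Real.sqrt p))) * p +
            ∑ _x : Tor d M, m * (Real.sqrt p / (2 * σ)) * (σ : ℝ) ^ 2 := by
          refine add_le_add (mul_le_mul_of_nonneg_left hHp (by positivity))
            (Finset.sum_le_sum fun x _ => mul_le_mul_of_nonneg_left ?_ (by positivity))
          rw [← hvv, ← integral_eval_sq (d := d) (M := M) (σ ^ 2) x]
          exact setIntegral_le_integral (integrable_eval_sq _ x)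
            (Filter.Eventually.of_forall fun V => sq_nonneg _)
      _ = (M : ℝ) ^ d * ((1 + y * m) * p + m * σ * Real.sqrt p) := by
          simp only [Finset.sum_const, Finset.card_univ, Fintype.card_fun, ZMod.card,
            Fintype.card_fin, nsmul_eq_mul, Nat.cast_pow]
          have h5 : m * (σ / (2 * Real.sqrt p)) * p = m * σ * Real.sqrt p / 2 := by
            calc m * (σ / (2 * Real.sqrt p)) * p =
                  m * (σ / (2 * Real.sqrt p)) * (Real.sqrt p * Real.sqrt p) := by rw [hss]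
              _ = _ := by field_simp
          have h6 : m * (Real.sqrt p / (2 * σ)) * (σ : ℝ) ^ 2 = m * σ * Real.sqrt p / 2 := by
            field_simp
          rw [h6]
          have : (M : ℝ) ^ d * (1 + y * m + m * (σ / (2 * Real.sqrt p))) * p =
              (M : ℝ) ^ d * ((1 + y * m) * p + m * (σ / (2 * Real.sqrt p)) * p) := by ring
          rw [this, h5]; ring
  rw [hZint] at hbd
  have hbd2 : |(z - 2 * d) * μ - ∫ V : Tor d M → ℝ, V 0 * F V ∂g - 1| ≤
      (1 + y * m) * p + m * σ * Real.sqrt p := by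
    have e : (M : ℝ) ^ d * ((z - 2 * d) * μ - ∫ V : Tor d M → ℝ, V 0 * F V ∂g) - (M : ℝ) ^ d =
        (M : ℝ) ^ d * ((z - 2 * d) * μ - ∫ V : Tor d M → ℝ, V 0 * F V ∂g - 1) := by ring
    rw [e, abs_mul, abs_of_pos hM] at hbd
    exact le_of_mul_le_mul_left hbd hM
  have h7 : y * μ ≤ m * C * σ ^ 2 + 1 + ((1 + y * m) * p + m * σ * Real.sqrt p) := by
    have h8 : y * μ = |(z - 2 * d) * μ| := by rw [abs_mul, abs_of_pos hμ]
    rw [h8]
    have h9 := abs_add_le ((z - 2 * d) * μ - ∫ V : Tor d M → ℝ, V 0 * F V ∂g - 1)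
      (∫ V : Tor d M → ℝ, V 0 * F V ∂g + 1)
    have h10 := abs_add_le (∫ V : Tor d M → ℝ, V 0 * F V ∂g) 1
    rw [abs_one] at h10
    have e : (z - 2 * d) * μ - ∫ V : Tor d M → ℝ, V 0 * F V ∂g - 1 +
        (∫ V : Tor d M → ℝ, V 0 * F V ∂g + 1) = (z - 2 * d) * μ := by ring
    rw [e] at h9
    linarith
  have hs0 : 0 ≤ Real.sqrt p := Real.sqrt_nonneg _
  have h8 : y * m * p ≤ 0.55 * (y * μ) := by
    have h81 : y * m ≤ y * (1.1 * μ) := mul_le_mul_of_nonneg_left hmμ hy0
    have h82 : y * m * p ≤ y * m * (1 / 2) := mul_le_mul_of_nonneg_left hp2 (by positivity)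
    linarith only [h81, h82]
  have h9 : m * C * σ ^ 2 ≤ 1.1 * μ * (C * σ ^ 2) := by
    have : 0 ≤ C * (σ : ℝ) ^ 2 := by positivity
    nlinarith only [hp, hp2, hmμ, this]
  have h10 : m * σ * Real.sqrt p ≤ 1.1 * μ * Real.sqrt p := by
    have : m * σ ≤ 1.1 * μ := by nlinarith only [hσ1, hμ, hmμ]
    nlinarith only [hp, hp2, hs0, this]
  have h11 : 0.45 * (y * μ) ≤ 1.1 * μ * (C * σ ^ 2) + 1.5 + 1.1 * μ * Real.sqrt p := by nlinarith only [hp2, h7, h8, h9, h10]
  have h12 : y * μ ≤ (4 * (C * (σ : ℝ) ^ 2 + 1 / μ + Real.sqrt p)) * μ := by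
    have : 4 * (C * (σ : ℝ) ^ 2 + 1 / μ + Real.sqrt p) * μ =
        4 * (μ * (C * σ ^ 2)) + 4 + 4 * (μ * Real.sqrt p) := by field_simp
    rw [this]
    have h13 : 0 ≤ μ * (C * (σ : ℝ) ^ 2) := by positivity
    have h14 : 0 ≤ μ * Real.sqrt p := by positivity
    nlinarith only [hp, hp2, h7, h8, h9, h10, h13, h14]
  exact le_of_mul_le_mul_right h12 hμ

end Pool.Agent.BED
end
end -- Pool.Agent.Helper54_BED.Est

section -- Pool.Agent.Helper54_BED.Flat

/-!
# BED, module FLAT: the landscape function is flat with large probability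
-/

set_option autoImplicit false

open MeasureTheory ProbabilityTheory

open scoped ENNReal NNReal BigOperators

noncomputable section

namespace Pool.Agent.BED

open Matrix

theorem one_le_growth (d : ℕ) {t : ℝ} (ht : 1 ≤ t) : 1 ≤ growth d t := by
  unfold growth
  split_ifs
  · exact Real.one_le_sqrt.2 ht
  · have := Real.log_nonneg ht
    linarith only [this]
  · exact le_rfl

theorem ten_le_pow {t : ℝ} (ht : 1 ≤ t) :
    10 * t ≤ 0.98 * 1.07 ^ ⌈40 * (1 + Real.log t)⌉₊ := by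
  have hlog := Real.log_nonneg ht
  have h1 : (0.065 : ℝ) ≤ Real.log 1.07 := by
    have := Real.one_sub_inv_le_log_of_pos (x := 1.07) (by norm_num)
    norm_num at this ⊢
    linarith only [this]
  have h2 : 2.6 + Real.log t ≤ (⌈40 * (1 + Real.log t)⌉₊ : ℝ) * Real.log 1.07 := by
    have h3 := Nat.le_ceil (40 * (1 + Real.log t))
    have h4 : 40 * (1 + Real.log t) * 0.065 ≤ (⌈40 * (1 + Real.log t)⌉₊ : ℝ) * Real.log 1.07 :=
      mul_le_mul h3 h1 (by norm_num) (by positivity)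
    linarith only [hlog, h4]
  have h5 : (1.07 : ℝ) ^ ⌈40 * (1 + Real.log t)⌉₊ =
      Real.exp ((⌈40 * (1 + Real.log t)⌉₊ : ℝ) * Real.log 1.07) := by
    rw [Real.exp_nat_mul, Real.exp_log (by norm_num)]
  have h6 : Real.exp (2.6 + Real.log t) ≤ (1.07 : ℝ) ^ ⌈40 * (1 + Real.log t)⌉₊ := by
    rw [h5]; exact Real.exp_le_exp.2 h2
  have h7 : (10.5 : ℝ) ≤ Real.exp 2.6 := by
    have e1 : Real.exp 2.6 = Real.exp 1 * Real.exp 1 * Real.exp 0.6 := by
      rw [← Real.exp_add, ← Real.exp_add]; norm_num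
    have e2 := Real.exp_one_gt_d9
    have e3 : (1.6 : ℝ) ≤ Real.exp 0.6 := by
      have := Real.add_one_le_exp (0.6 : ℝ)
      linarith only [this]
    rw [e1]
    have e4 : (7.3 : ℝ) ≤ Real.exp 1 * Real.exp 1 := by nlinarith only [e2]
    nlinarith only [e3, e4]
  rw [Real.exp_add, Real.exp_log (by linarith only [ht])] at h6
  nlinarith only [ht, h6, h7]

theorem flat (hGC : GCStmt) (hMcs : McsStmt) (hCov : CovStmt) (hStep : StepStmt)
    (hSum : SumStmt) : FlatStmt := by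
  intro d hd
  obtain ⟨C, hC, hSumC⟩ := hSum d hd
  refine ⟨1 / (288000 * C ^ 2), 86 + 4 * C, by positivity, by positivity, ?_⟩
  intro M _ t σ p hM ht htM hσ hσ1 hp hp2
  have hgr := one_le_growth d ht
  have hlog := Real.log_nonneg ht
  have hσ' : (0:ℝ) < σ := hσ
  have hMpos : (0:ℝ) < M := by exact_mod_cast Nat.pos_of_ne_zero (NeZero.ne M)
  have hSum' : ∀ (z a : ℝ) (V : Tor d M → ℝ), z ≤ 2 * d + 1 → (∀ x, -1 ≤ V x) →
      (AM z V).PosDef → 1 / 2 ≤ a → a ≤ 15 * t → (∀ x, a ≤ DD z V x) →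
      (∀ x, DD z V x ≤ 3 / 2 * a) →
      ∀ x, ∑ y, (GM z V x y) ^ 2 ≤ C * growth d t ∧ GM z V x x ≤ C :=
    fun z a V h1 h2 h3 h4 h5 h6 h7 => hSumC M z t a V hM ht htM h1 h2 h3 h4 h5 h6 h7
  set v : ℝ≥0 := σ ^ 2 with hv
  have hvv : (v : ℝ) = (σ : ℝ) ^ 2 := by rw [hv]; push_cast; rfl
  set K : ℕ := ⌈40 * (1 + Real.log t)⌉₊ with hK
  set q : ℝ := (M : ℝ) ^ d * qq C (C * growth d t) v with hq
  have hq0 : 0 < q := by
    have := qq_pos C (C * growth d t) v
    positivity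
  -- comparison of the probabilities
  have hqq : qq C (C * growth d t) v ≤
      2 * Real.exp (-(1 / (288000 * C ^ 2)) / ((σ : ℝ) ^ 2 * growth d t)) := by
    unfold qq
    refine mul_le_mul_of_nonneg_left (Real.exp_le_exp.2 ?_) (by norm_num)
    rw [hvv, neg_div, neg_div, neg_le_neg_iff, div_div]
    have h1 : Real.sqrt (C * growth d t) ≤ C * Real.sqrt (growth d t) := by
      rw [Real.sqrt_mul (by positivity)]
      refine mul_le_mul_of_nonneg_right ?_ (Real.sqrt_nonneg _)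
      rw [Real.sqrt_le_left (by positivity)]
      nlinarith only [hC]
    have h2 : C ≤ C * Real.sqrt (growth d t) := by
      have : 1 ≤ Real.sqrt (growth d t) := Real.one_le_sqrt.2 hgr
      nlinarith only [hC, this]
    have h3 : (C + Real.sqrt (C * growth d t)) ^ 2 ≤ 4 * C ^ 2 * growth d t := by
      have h4 : C + Real.sqrt (C * growth d t) ≤ 2 * C * Real.sqrt (growth d t) := by linarith only [h1, h2]
      have h5 : 0 ≤ C + Real.sqrt (C * growth d t) := by positivity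
      calc (C + Real.sqrt (C * growth d t)) ^ 2 ≤ (2 * C * Real.sqrt (growth d t)) ^ 2 :=
            pow_le_pow_left₀ h5 h4 2
        _ = 4 * C ^ 2 * (Real.sqrt (growth d t)) ^ 2 := by ring
        _ = 4 * C ^ 2 * growth d t := by rw [Real.sq_sqrt (by linarith only [hgr])]
    refine one_div_le_one_div_of_le (by positivity) ?_
    calc 72000 * (C + Real.sqrt (C * growth d t)) ^ 2 * (σ : ℝ) ^ 2
        ≤ 72000 * (4 * C ^ 2 * growth d t) * (σ : ℝ) ^ 2 := by gcongr
      _ = 288000 * C ^ 2 * ((σ : ℝ) ^ 2 * growth d t) := by ring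
  have hKle : (K : ℝ) + 2 ≤ 43 * (1 + Real.log t) := by
    have := (Nat.ceil_lt_add_one (a := 40 * (1 + Real.log t)) (by positivity)).le
    linarith only [hlog, this]
  have hE : 0 < Real.exp (-(1 / (288000 * C ^ 2)) / ((σ : ℝ) ^ 2 * growth d t)) :=
    Real.exp_pos _
  set E := Real.exp (-(1 / (288000 * C ^ 2)) / ((σ : ℝ) ^ 2 * growth d t)) with hEdef
  have hpq : ((K : ℝ) + 2) * q ≤ p := by
    calc ((K : ℝ) + 2) * q ≤ (43 * (1 + Real.log t)) * ((M : ℝ) ^ d * (2 * E)) := by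
          rw [hq]
          gcongr
      _ = 86 * ((1 + Real.log t) * (M : ℝ) ^ d * E) := by ring
      _ ≤ (86 + 4 * C) * ((1 + Real.log t) * (M : ℝ) ^ d * E) := by
          have : 0 ≤ (1 + Real.log t) * (M : ℝ) ^ d * E := by positivity
          nlinarith only [hC, this]
      _ = p := by rw [hp]; ring
  obtain ⟨z, μ, m, F, U, hS, halt⟩ := induct hGC hMcs hCov hStep hC (by linarith only [hgr]) ht hSum'
    (v := v) K (by linarith only [hp2, hpq])
  have hμ : 10 * t ≤ μ ∧ μ ≤ 12 * t := by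
    rcases halt with h | ⟨h1, h2⟩
    · exact h
    · exfalso
      have := ten_le_pow ht
      linarith only [h1, h2, this]
  have hp'0 : 0 < ((K : ℝ) + 2) * q := by positivity
  have hest := est hCov hC σ hσ hσ1 hS hp'0 (by linarith only [hp2, hpq])
  refine ⟨z, μ, hμ.1, hμ.2, hS.zle, ?_, ?_⟩
  · refine hest.trans ?_
    have h1 : 1 / μ ≤ 1 / t := one_div_le_one_div_of_le (by linarith only [ht, hp2, hpq, hp'0]) (by linarith only [hμ.1, ht, hp2, hpq, hp'0])
    have h2 : Real.sqrt (((K : ℝ) + 2) * q) ≤ Real.sqrt p := Real.sqrt_le_sqrt hpq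
    have h3 : 0 ≤ 1 / t := by positivity
    have h4 := Real.sqrt_nonneg p
    have h5 : 0 ≤ (σ : ℝ) ^ 2 := by positivity
    nlinarith only [hC, h1, h2, h3, h4]
  · refine le_trans ?_ (hS.meas.trans (ENNReal.ofReal_le_ofReal hpq))
    refine measure_mono fun V hV => ?_
    intro hVU
    exact hV (hS.flat V hVU)

end Pool.Agent.BED
end
end -- Pool.Agent.Helper54_BED.Flat

section -- Pool.Agent.Helper54_BED.Stag

/-!
# BED: both ends of the spectrum (staggering)
-/

set_option autoImplicit false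

open MeasureTheory ProbabilityTheory

open scoped ENNReal NNReal BigOperators

noncomputable section

namespace Pool.Agent.BED

open Matrix Pool.Agent.Anderson Pool.Agent.Loc

variable {d : ℕ}

/-- the staggering sign -/
def sg (y : Site d) : ℝ := if Even (∑ i, y i) then 1 else -1

theorem sg_sq (y : Site d) : sg y * sg y = 1 := by
  unfold sg
  split_ifs <;> norm_num

theorem abs_sg (y : Site d) : |sg y| = 1 := by
  unfold sg
  split_ifs <;> norm_num

theorem sg_add (y : Site d) (i : Fin d) : sg (y + Pi.single i 1) = - sg y := by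
  unfold sg
  have h1 : ∑ j, (y + Pi.single i 1 : Site d) j = ∑ j, y j + 1 := by
    simp [Finset.sum_add_distrib]
  rw [h1]
  by_cases h : Even (∑ j, y j)
  · have h' : ¬ Even (∑ j, y j + 1) := by
      rw [Int.not_even_iff_odd]; exact h.add_one
    rw [if_pos h, if_neg h']
  · have h' : Even (∑ j, y j + 1) := (Int.not_even_iff_odd.1 h).add_one
    rw [if_neg h, if_pos h', neg_neg]

theorem sg_sub (y : Site d) (i : Fin d) : sg (y - Pi.single i 1) = - sg y := by
  have h := sg_add (y - Pi.single i 1) i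
  rw [sub_add_cancel] at h
  linarith only [h]

/-- staggered vector -/
def stg (u : L2 d) : L2 d :=
  ⟨fun x => (sg x : ℂ) * u x, by
    refine memℓp_gen ?_
    have h := (lp.memℓp u).summable (by norm_num)
    refine h.congr fun x => ?_
    rw [norm_mul, Complex.norm_real, Real.norm_eq_abs, abs_sg, one_mul]⟩

theorem stg_apply (u : L2 d) (x : Site d) : stg u x = (sg x : ℂ) * u x := rfl

theorem norm_stg_apply (u : L2 d) (x : Site d) : ‖stg u x‖ = ‖u x‖ := by
  rw [stg_apply, norm_mul, Complex.norm_real, Real.norm_eq_abs, abs_sg, one_mul]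

theorem norm_stg (u : L2 d) : ‖stg u‖ = ‖u‖ := by
  have h2 : (0:ℝ) < (2:ℝ≥0∞).toReal := by norm_num
  rw [lp.norm_eq_tsum_rpow h2, lp.norm_eq_tsum_rpow h2]
  simp only [norm_stg_apply]

theorem stg_sum (J : Finset ℝ) (u : ℝ → L2 d) : stg (∑ E ∈ J, u E) = ∑ E ∈ J, stg (u E) := by
  ext x
  rw [stg_apply, lp.coeFn_sum, lp.coeFn_sum]
  simp only [Finset.sum_apply, Finset.mul_sum, stg_apply]

theorem isEigenOn_stg {S : Set (Site d)} {W : Site d → ℝ} {E : ℝ} {u : L2 d}
    (h : IsEigenOn S W E u) : IsEigenOn S (fun y => - W y) (-E) (stg u) := by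
  refine ⟨fun x hx => by rw [stg_apply, h.1 x hx, mul_zero], fun x hx => ?_⟩
  have h1 := h.2 x hx
  have h2 : lap (stg u) x = - (sg x : ℂ) * lap u x := by
    unfold lap
    rw [Finset.mul_sum]
    refine Finset.sum_congr rfl fun i _ => ?_
    rw [stg_apply, stg_apply, sg_add, sg_sub]
    push_cast; ring
  rw [h2, stg_apply]
  push_cast
  linear_combination (-(sg x : ℂ)) * h1

/-- The bound for both ends of the spectrum. -/
theorem both (hTrans : TransStmt) (hOrth : OrthStmt) {M : ℕ} [NeZero M] (hd : 1 ≤ d) {r : ℕ}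
    (hr : 1 ≤ r) (hM : 4 * r + 3 ≤ M) {z μ : ℝ} {W : Site d → ℝ} (hμ : 0 < μ)
    (hz : z ≤ 2 * d + 1) (h1 : Flat z μ (fun x : Tor d M => W (rep x)))
    (h2 : Flat z μ (fun x : Tor d M => - W (rep x))) {lam : ℝ} (hl1 : 1 / (r : ℝ) ≤ lam)
    (hl2 : lam ≤ 1) (S : Set (Site d)) (J : Finset ℝ) (u : ℝ → L2 d)
    (hJ : ∀ E ∈ J, z - lam ≤ |E|) (hu : ∀ E ∈ J, IsEigenOn S W E (u E)) (x : Site d)
    (hx : ∀ i, |x i| ≤ r) :
    ‖(∑ E ∈ J, u E : L2 d) x‖ ^ 2 ≤
      6 * KH d * lam ^ ((d : ℝ) / 2) * ‖(∑ E ∈ J, u E : L2 d)‖ ^ 2 := by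
  classical
  set Jp := J.filter fun E => z - lam ≤ E with hJp
  set Jm := J.filter fun E => ¬ (z - lam ≤ E) with hJm
  set vp : L2 d := ∑ E ∈ Jp, u E with hvp
  set vm : L2 d := ∑ E ∈ Jm, u E with hvm
  have hsplit : (∑ E ∈ J, u E : L2 d) = vp + vm := by
    rw [hvp, hvm, hJp, hJm, Finset.sum_filter_add_sum_filter_not]
  have horth : ∀ T : Finset ℝ, T ⊆ J → ‖(∑ E ∈ T, u E : L2 d)‖ ^ 2 = ∑ E ∈ T, ‖u E‖ ^ 2 := by
    intro T hT
    have := hOrth d S W T u (fun E hE => hu E (hT hE)) (fun _ => 1)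
    simpa using this
  have hnorm : ‖vp‖ ^ 2 + ‖vm‖ ^ 2 = ‖(∑ E ∈ J, u E : L2 d)‖ ^ 2 := by
    rw [hvp, hvm, horth _ (Finset.filter_subset _ _), horth _ (Finset.filter_subset _ _),
      horth _ subset_rfl, Finset.sum_filter_add_sum_filter_not]
  have hp := hTrans d M hd r hr hM z μ W hμ hz h1 lam hl1 hl2 S Jp u
    (fun E hE => (Finset.mem_filter.1 hE).2) (fun E hE => hu E (Finset.mem_filter.1 hE).1) x hx
  -- the lower end
  have hm : ‖vm x‖ ^ 2 ≤ 3 * KH d * lam ^ ((d : ℝ) / 2) * ‖vm‖ ^ 2 := by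
    have hinj : Set.InjOn (fun E : ℝ => -E) Jm := fun a _ b _ hab => neg_injective hab
    have hs : stg vm = ∑ E ∈ Jm.image (fun E => -E), stg (u (-E)) := by
      rw [Finset.sum_image hinj, hvm, stg_sum]
      simp only [neg_neg]
    have h3 := hTrans d M hd r hr hM z μ (fun y => - W y) hμ hz h2 lam hl1 hl2 S
      (Jm.image fun E => -E) (fun E => stg (u (-E))) (fun E hE => by
        obtain ⟨E', hE', rfl⟩ := Finset.mem_image.1 hE
        obtain ⟨h4, h5⟩ := Finset.mem_filter.1 hE'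
        have h6 := hJ E' h4
        rcases le_total 0 E' with h7 | h7
        · rw [abs_of_nonneg h7] at h6; exact absurd h6 h5
        · rw [abs_of_nonpos h7] at h6; exact h6) (fun E hE => by
        obtain ⟨E', hE', rfl⟩ := Finset.mem_image.1 hE
        have h4 := isEigenOn_stg (hu E' (Finset.mem_filter.1 hE').1)
        simpa using h4) x hx
    rw [← hs, norm_stg_apply, norm_stg] at h3
    exact h3
  rw [← hnorm, hsplit]
  have e : (vp + vm : L2 d) x = vp x + vm x := rfl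
  rw [e]
  have h5 : ‖vp x + vm x‖ ^ 2 ≤ 2 * ‖vp x‖ ^ 2 + 2 * ‖vm x‖ ^ 2 := by
    have h6 := norm_add_le (vp x) (vm x)
    have h7 : ‖vp x + vm x‖ ^ 2 ≤ (‖vp x‖ + ‖vm x‖) ^ 2 :=
      pow_le_pow_left₀ (norm_nonneg _) h6 2
    nlinarith only [sq_nonneg (‖vp x‖ - ‖vm x‖), h7]
  calc ‖vp x + vm x‖ ^ 2 ≤ 2 * ‖vp x‖ ^ 2 + 2 * ‖vm x‖ ^ 2 := h5
    _ ≤ 2 * (3 * KH d * lam ^ ((d : ℝ) / 2) * ‖vp‖ ^ 2) +
        2 * (3 * KH d * lam ^ ((d : ℝ) / 2) * ‖vm‖ ^ 2) := by linarith only [hp, hm]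
    _ = _ := by ring

end Pool.Agent.BED
end
end -- Pool.Agent.Helper54_BED.Stag

section -- Pool.Agent.Helper54_BED.Main

/-!
# BED: assembly
-/

set_option autoImplicit false

open MeasureTheory ProbabilityTheory

open scoped ENNReal NNReal BigOperators

noncomputable section

namespace Pool.Agent.BED

open Matrix Pool.Agent.Anderson Pool.Agent.Loc

universe u

theorem KH_pos (d : ℕ) (hd : 1 ≤ d) : 0 < KH d := by
  unfold KH
  have : (0:ℝ) < d := by exact_mod_cast hd
  positivity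

/-- the smallness of the failure probability -/
theorem prob_small (d : ℕ) {c0 C0 : ℝ} (hc0 : 0 < c0) (hC0 : 0 < C0) :
    ∃ c : ℝ, 0 < c ∧ c ≤ 1 / 2 ∧ ∀ (σ t R : ℝ) (M : ℕ), σ ≠ 0 → 2 ≤ t → t ≤ R →
      (M : ℝ) ≤ 8 * R → σ ^ 2 * growth d t * Real.log R ≤ c →
      C0 * (1 + Real.log t) * (M : ℝ) ^ d * Real.exp (-c0 / (σ ^ 2 * growth d t)) ≤
        1 / (2 * R ^ 2) := by
  obtain ⟨k, hk⟩ := pow_unbounded_of_one_lt (2 * C0 * 8 ^ d) (one_lt_two)
  set A : ℝ := d + 4 + k with hA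
  have hA0 : 0 < A := by positivity
  refine ⟨min (c0 / A) (1 / 2), by positivity, min_le_right _ _, ?_⟩
  intro σ t R M hσ ht htR hM hcond
  have hR : 2 ≤ R := by linarith only [ht, htR]
  have hR0 : 0 < R := by linarith only [ht, htR]
  have hg := one_le_growth d (t := t) (by linarith only [ht])
  have hσ2 : 0 < σ ^ 2 := by positivity
  have hs : 0 < σ ^ 2 * growth d t := by positivity
  have h1 : σ ^ 2 * growth d t * Real.log R ≤ c0 / A := hcond.trans (min_le_left _ _)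
  have h2 : A * Real.log R ≤ c0 / (σ ^ 2 * growth d t) := by
    rw [le_div_iff₀ hs]
    rw [le_div_iff₀ hA0] at h1
    linarith only [h1]
  have h3 : Real.exp (-c0 / (σ ^ 2 * growth d t)) ≤ (R ^ (d + 4 + k))⁻¹ := by
    have h4 : Real.exp (-c0 / (σ ^ 2 * growth d t)) ≤ Real.exp (-(A * Real.log R)) := by
      refine Real.exp_le_exp.2 ?_
      rw [neg_div]; linarith only [h2]
    refine h4.trans (le_of_eq ?_)
    rw [Real.exp_neg, hA]
    congr 1
    have : ((d : ℝ) + 4 + k) * Real.log R = ((d + 4 + k : ℕ) : ℝ) * Real.log R := by push_cast; ring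
    rw [this, Real.exp_nat_mul, Real.exp_log hR0]
  have h5 : 1 + Real.log t ≤ R := by
    have := Real.log_le_sub_one_of_pos (x := t) (by linarith only [ht])
    linarith only [htR, this]
  have hlog := Real.log_nonneg (x := t) (by linarith only [ht])
  have h6 : (M : ℝ) ^ d ≤ 8 ^ d * R ^ d := by
    rw [← mul_pow]
    exact pow_le_pow_left₀ (by positivity) hM d
  have h7 : (2:ℝ) ^ k ≤ R ^ k := pow_le_pow_left₀ (by norm_num) hR k
  calc C0 * (1 + Real.log t) * (M : ℝ) ^ d * Real.exp (-c0 / (σ ^ 2 * growth d t))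
      ≤ C0 * R * (8 ^ d * R ^ d) * (R ^ (d + 4 + k))⁻¹ := by gcongr
    _ = (C0 * 8 ^ d) / (R ^ 3 * R ^ k) := by
        field_simp
        ring
    _ ≤ (C0 * 8 ^ d) / (R ^ 3 * (2 * C0 * 8 ^ d)) := by
        have : 2 * C0 * 8 ^ d ≤ R ^ k := (hk.le).trans h7
        gcongr
    _ = 1 / (2 * R ^ 3) := by
        field_simp
    _ ≤ 1 / (2 * R ^ 2) := by
        refine one_div_le_one_div_of_le (by positivity) ?_
        have : R ^ 2 ≤ R ^ 3 := pow_le_pow_right₀ (by linarith only [ht, htR]) (by norm_num)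
        linarith only [this]

theorem main_of (hFlat : FlatStmt) (hTrans : TransStmt) (hOrth : OrthStmt) (hCount : CountStmt)
    (hEdge : EdgeStmt) (hLaw : LawStmt.{u}) (d : ℕ) (hd : 3 ≤ d) :
    ∃ c C : ℝ, 0 < c ∧ 0 < C ∧ ∀ σ : ℝ, σ ≠ 0 → ∀ t R : ℝ, 2 ≤ t → t ≤ R →
      σ ^ 2 * growth d t * Real.log R ≤ c →
      ∃ Es : ℝ, |Es - 2 * d| ≤ C * (σ ^ 2 + 1 / t) ∧
        ∀ (Ω : Type u) [MeasurableSpace Ω] (P : Measure Ω) [IsProbabilityMeasure P]
          (ξ : Site d → Ω → ℝ), (∀ y, Measurable (ξ y)) →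
          (∀ y, P.map (ξ y) = gaussianReal 0 1) → iIndepFun ξ P →
          ∃ G : Set Ω, MeasurableSet G ∧ P Gᶜ ≤ ENNReal.ofReal (1 / R) ∧ ∀ ω ∈ G,
            (∀ lam : ℝ, 1 / t ≤ lam → lam ≤ 1 →
              ∀ (S : Set (Site d)) (J : Finset ℝ) (u : ℝ → L2 d), (∀ E ∈ J, Es - lam ≤ |E|) →
                (∀ E ∈ J, IsEigenOn S (fun y => σ * ξ y ω) E (u E)) →
                ∀ x : Site d, (∀ i, |(x i : ℝ)| ≤ R) →
                  ‖(∑ E ∈ J, u E : L2 d) x‖ ^ 2 ≤
                    C * lam ^ ((d : ℝ) / 2) * ‖(∑ E ∈ J, u E : L2 d)‖ ^ 2) ∧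
            ∀ (x₀ : Site d) (L : ℕ), (∀ i, |(x₀ i : ℝ)| + L ≤ R) →
              ∀ hH : (HM (fun y => σ * ξ y ω) (box x₀ L)).IsHermitian,
                (∀ i, |hH.eigenvalues i| < Es) ∧
                ∀ lam : ℝ, 1 / t ≤ lam → lam ≤ 1 → C ≤ lam * (L : ℝ) ^ 2 →
                  lam ^ ((d : ℝ) / 2) * (2 * (L : ℝ) + 1) ^ d ≤
                    C * ((Finset.univ.filter fun i => Es - lam ≤ hH.eigenvalues i).card : ℝ) := by
  obtain ⟨c0, C0, hc0, hC0, hF⟩ := hFlat d hd
  obtain ⟨Cc, hCc, hCnt⟩ := hCount d (by omega)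
  obtain ⟨c, hc, hc2, hprob⟩ := prob_small d hc0 hC0
  have hKH := KH_pos d (by omega)
  refine ⟨c, 2 * C0 + 6 * KH d + Cc, hc, by positivity, ?_⟩
  intro σ hσ t R ht htR hcond
  set C := 2 * C0 + 6 * KH d + Cc with hC
  have hR : 2 ≤ R := by linarith only [ht, htR]
  have hR0 : 0 < R := by linarith only [hc, hc2, ht, htR]
  have ht0 : 0 < t := by linarith
  set r : ℕ := ⌈R⌉₊ with hr
  have hRr : R ≤ r := Nat.le_ceil R
  have hrR : (r : ℝ) < R + 1 := Nat.ceil_lt_add_one (by linarith only [hc, hc2, ht, htR])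
  have hr1 : 1 ≤ r := by
    have : (1:ℝ) ≤ r := by linarith only [hc, hc2, ht, htR, hRr]
    exact_mod_cast this
  set M : ℕ := 4 * r + 3 with hM
  haveI : NeZero M := ⟨by omega⟩
  have hMR : (M : ℝ) ≤ 8 * R := by
    rw [hM]; push_cast; linarith only [hc, hc2, ht, htR, hrR]
  have htM : t ≤ M := by
    rw [hM]; push_cast; linarith only [hc, hc2, ht, htR, hRr]
  have hg := one_le_growth d (t := t) (by linarith only [hc, hc2, ht])
  have hσ2 : 0 < σ ^ 2 := by positivity
  have hlogR : (0.69 : ℝ) ≤ Real.log R := by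
    have h1 := Real.log_two_gt_d9
    have h2 : Real.log 2 ≤ Real.log R := Real.log_le_log (by norm_num) hR
    linarith only [hc, hc2, h1, h2]
  have hσ1 : σ ^ 2 ≤ 1 := by
    have h1 : σ ^ 2 * 1 * 0.69 ≤ σ ^ 2 * growth d t * Real.log R := by gcongr
    nlinarith only [hc, hc2, hcond, h1]
  -- the disorder as a nonnegative real
  set s : ℝ≥0 := ⟨|σ|, abs_nonneg σ⟩ with hs
  have hsσ : (s : ℝ) ^ 2 = σ ^ 2 := by
    rw [hs]; exact sq_abs σ
  have hs0 : 0 < s := by
    rw [← NNReal.coe_pos]; exact abs_pos.2 hσ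
  have hs1 : s ≤ 1 := by
    rw [← NNReal.coe_le_coe]
    exact abs_le_one_iff_mul_self_le_one.2 (by nlinarith only [hσ1])
  set p : ℝ := C0 * (1 + Real.log t) * (M : ℝ) ^ d *
    Real.exp (-c0 / ((s : ℝ) ^ 2 * growth d t)) with hp
  have hpR : p ≤ 1 / (2 * R ^ 2) := by
    rw [hp, hsσ]
    exact hprob σ t R M hσ ht htR hMR hcond
  have hp0 : 0 ≤ p := by
    have := Real.log_nonneg (x := t) (by linarith only [hc, hc2, ht])
    positivity
  have hp2 : p ≤ 1 / 2 := by
    refine hpR.trans (one_div_le_one_div_of_le (by norm_num) ?_)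
    nlinarith only [hc, hc2, ht, htR]
  obtain ⟨z, μ, hμ1, hμ2, hz, hzest, hmeas⟩ := hF M t s p (by omega) (by linarith only [hc, hc2, ht]) htM hs0 hs1
    rfl hp2
  have hμ0 : 0 < μ := by linarith only [hc, hc2, ht, hμ1]
  refine ⟨z, ?_, ?_⟩
  · refine hzest.trans ?_
    rw [hsσ]
    have h1 : Real.sqrt p ≤ 1 / t := by
      rw [Real.sqrt_le_left (by positivity)]
      refine hpR.trans ?_
      rw [div_pow, one_pow]
      refine one_div_le_one_div_of_le (by positivity) ?_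
      nlinarith only [hc, hc2, ht, htR]
    have h2 : 0 ≤ 1 / t := by positivity
    rw [hC]
    nlinarith only [mul_nonneg hKH.le (add_nonneg hσ2.le h2), mul_nonneg hCc.le (add_nonneg hσ2.le h2),
      mul_nonneg hC0.le hσ2.le, mul_nonneg hC0.le h2, hC0, hCc, hKH, hσ2, h1, h2]
  intro Ω _ P _ ξ hm hlaw hind
  set Vp : Ω → Tor d M → ℝ := fun ω x => σ * ξ (rep x) ω with hVp
  set Vm : Ω → Tor d M → ℝ := fun ω x => -σ * ξ (rep x) ω with hVm
  have hvv : ((s ^ 2 : ℝ≥0) : ℝ) = σ ^ 2 := by rw [← hsσ]; push_cast; rfl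
  have hlp := hLaw d M Ω P ξ hm hlaw hind σ (s ^ 2) hvv
  have hlm := hLaw d M Ω P ξ hm hlaw hind (-σ) (s ^ 2) (by rw [hvv]; ring)
  set Bad : Set Ω := {ω | ¬ Flat z μ (Vp ω)} ∪ {ω | ¬ Flat z μ (Vm ω)} with hBad
  have hmp : Measurable Vp := measurable_pi_lambda _ fun x => (hm (rep x)).const_mul σ
  have hmm : Measurable Vm := measurable_pi_lambda _ fun x => (hm (rep x)).const_mul (-σ)
  have hBadP : P Bad ≤ ENNReal.ofReal (1 / R) := by
    have h1 : P {ω | ¬ Flat z μ (Vp ω)} ≤ ENNReal.ofReal p := by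
      have h2 := Measure.le_map_apply (μ := P) hmp.aemeasurable {V | ¬ Flat z μ V}
      rw [show P.map Vp = gau d M (s ^ 2) from hlp] at h2
      exact h2.trans hmeas
    have h3 : P {ω | ¬ Flat z μ (Vm ω)} ≤ ENNReal.ofReal p := by
      have h2 := Measure.le_map_apply (μ := P) hmm.aemeasurable {V | ¬ Flat z μ V}
      rw [show P.map Vm = gau d M (s ^ 2) from hlm] at h2
      exact h2.trans hmeas
    refine (measure_union_le _ _).trans ((add_le_add h1 h3).trans ?_)
    rw [← ENNReal.ofReal_add hp0 hp0]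
    refine ENNReal.ofReal_le_ofReal ?_
    have h4 : 1 / (2 * R ^ 2) = (1 / R) * (1 / R) / 2 := by field_simp
    have h5 : 1 / R ≤ 1 := by
      rw [div_le_one hR0]; linarith only [hc, hc2, ht, htR]
    have h6 : 0 < 1 / R := by positivity
    nlinarith only [hc, hc2, hpR, h4, h5, h6]
  refine ⟨(toMeasurable P Bad)ᶜ, (measurableSet_toMeasurable _ _).compl, ?_, ?_⟩
  · rw [compl_compl, measure_toMeasurable]; exact hBadP
  intro ω hω
  have hωB : ω ∉ Bad := fun h => hω (subset_toMeasurable P Bad h)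
  rw [hBad, Set.mem_union, not_or] at hωB
  have hfp : Flat z μ (fun x : Tor d M => (fun y => σ * ξ y ω) (rep x)) := by
    by_contra h; exact hωB.1 h
  have hfm : Flat z μ (fun x : Tor d M => - (fun y => σ * ξ y ω) (rep x)) := by
    have h1 : Flat z μ (Vm ω) := by
      by_contra h; exact hωB.2 h
    have e : (fun x : Tor d M => - (fun y => σ * ξ y ω) (rep x)) = Vm ω := by
      funext x; simp [hVm]
    rw [e]; exact h1
  constructor
  · intro lam hl1 hl2 S J u hJ hu x hx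
    have hl : 1 / (r : ℝ) ≤ lam :=
      (one_div_le_one_div_of_le ht0 (htR.trans hRr)).trans hl1
    have hx' : ∀ i, |x i| ≤ r := by
      intro i
      have h1 : |(x i : ℝ)| ≤ (r : ℝ) := (hx i).trans hRr
      exact_mod_cast h1
    refine (both hTrans hOrth (by omega) hr1 le_rfl hμ0 hz hfp hfm hl hl2 S J u hJ hu x hx').trans ?_
    have h1 : 0 ≤ lam ^ ((d : ℝ) / 2) := Real.rpow_nonneg (by
      have : 0 < 1 / t := by positivity
      linarith only [hl1, this]) _
    have h2 : 6 * KH d ≤ C := by rw [hC]; linarith only [hC0, hCc]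
    have h3 : 0 ≤ ‖(∑ E ∈ J, u E : L2 d)‖ ^ 2 := by positivity
    gcongr
  · intro x₀ L hL hH
    have hL' : ∀ i, |x₀ i| + (L : ℤ) ≤ r := by
      intro i
      have h1 : |(x₀ i : ℝ)| + L ≤ (r : ℝ) := (hL i).trans hRr
      exact_mod_cast h1
    obtain ⟨he1, he2⟩ := hEdge d M (by omega) r le_rfl z μ (fun y => σ * ξ y ω) hμ0 x₀ L hL' hH
    refine ⟨fun i => abs_lt.2 ⟨he2 hfm i, he1 hfp i⟩, ?_⟩
    intro lam hl1 hl2 hlL
    have h10 : 10 / μ ≤ lam := by
      refine le_trans ?_ hl1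
      rw [div_le_div_iff₀ hμ0 ht0]
      linarith only [hμ1]
    have h3 := hCnt M r le_rfl z μ (fun y => σ * ξ y ω) hμ0 hfp x₀ L hL' hH lam h10 hl2
      (by rw [hC] at hlL; linarith only [hC0, hKH, hlL])
    refine h3.trans ?_
    have h4 : Cc ≤ C := by rw [hC]; linarith only [hC0, hKH]
    gcongr

end Pool.Agent.BED
end
end -- Pool.Agent.Helper54_BED.Main
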