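import Pool.Agent.Helper12_MEB.B006

/-!
# Merged copies (generated) of the modules

* `Pool.Agent.Helper15_BED.Sum`
-/

set_option autoImplicit false

section -- Pool.Agent.Helper15_BED.Sum

/-!
# Band edge delocalization, module SUM: bounds for the Green function
-/

set_option autoImplicit false
set_option linter.unusedSectionVars false

open scoped BigOperators

noncomputable section

namespace Pool.Agent.BED.H15

open Matrix Pool.Agent.BED

variable {d M : ℕ} [NeZero M]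

/-! ### Lower bound of the form -/

theorem form_lower {z : ℝ} {V : Tor d M → ℝ} (hA : (AM z V).PosDef) {c : ℝ}
    (hc : ∀ x, DD z V x ≤ c) (f : Tor d M → ℝ) :
    ∑ x, f x ^ 2 ≤ c * ∑ x, f x * (AM z V *ᵥ f) x := by
  have hpos := DD_pos hA
  have h := AM_doob z V (DD z V) (fun x => f x / DD z V x)
  have e' : ∀ y, DD z V y * (f y / DD z V y) = f y := fun y => mul_div_cancel₀ _ (hpos y).ne'
  simp only [e'] at h
  rw [AM_DD hA] at h
  rw [h]
  have hc0 : 0 ≤ c := (hpos 0).le.trans (hc 0)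
  have h1 : 0 ≤ ∑ x, ∑ i : Fin d, DD z V x * DD z V (x + ev i) *
      (f (x + ev i) / DD z V (x + ev i) - f x / DD z V x) ^ 2 := by
    refine Finset.sum_nonneg fun x _ => Finset.sum_nonneg fun i _ => ?_
    have := (hpos x).le
    have := (hpos (x + ev i)).le
    positivity
  have h2 : ∑ x, f x ^ 2 ≤ c * ∑ x, DD z V x * (1 : Tor d M → ℝ) x * (f x / DD z V x) ^ 2 := by
    rw [Finset.mul_sum]
    refine Finset.sum_le_sum fun x _ => ?_
    have hx := hpos x
    have e : DD z V x * (1 : Tor d M → ℝ) x * (f x / DD z V x) ^ 2 = f x ^ 2 / DD z V x := by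
      rw [Pi.one_apply]
      field_simp
    rw [e, mul_div_assoc', le_div_iff₀ hx, mul_comm]
    exact mul_le_mul_of_nonneg_right (hc x) (sq_nonneg _)
  have h3 := mul_nonneg hc0 h1
  rw [mul_add]
  linarith

theorem green_bounds {z : ℝ} {V : Tor d M → ℝ} (hA : (AM z V).PosDef) {c : ℝ} (hc0 : 0 < c)
    (hc : ∀ x, DD z V x ≤ c) (f : Tor d M → ℝ) :
    ∑ x, ((GM z V *ᵥ f) x) ^ 2 ≤ c ^ 2 * ∑ x, f x ^ 2 ∧
      ∑ x, f x * (GM z V *ᵥ f) x ≤ c * ∑ x, f x ^ 2 := by
  set g := GM z V *ᵥ f with hg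
  have h1 := form_lower hA hc g
  have h2 : AM z V *ᵥ g = f := mulVec_inv hA f
  rw [h2] at h1
  have h3 : ∑ x, g x * f x ≤ (1 / (2 * c)) * ∑ x, g x ^ 2 + (c / 2) * ∑ x, f x ^ 2 := by
    rw [Finset.mul_sum, Finset.mul_sum, ← Finset.sum_add_distrib]
    refine Finset.sum_le_sum fun x _ => ?_
    have e : 1 / (2 * c) * g x ^ 2 + c / 2 * f x ^ 2 - g x * f x
        = 1 / (2 * c) * (g x - c * f x) ^ 2 := by
      field_simp
      ring
    have h4 : 0 ≤ 1 / (2 * c) * (g x - c * f x) ^ 2 := by positivity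
    linarith only [e, h4]
  have h4 : c * ∑ x, g x * f x ≤ (1 / 2) * ∑ x, g x ^ 2 + (c ^ 2 / 2) * ∑ x, f x ^ 2 := by
    have := mul_le_mul_of_nonneg_left h3 hc0.le
    refine this.trans (le_of_eq ?_)
    field_simp
  have h5 : ∑ x, g x ^ 2 ≤ c ^ 2 * ∑ x, f x ^ 2 := by linarith
  refine ⟨h5, ?_⟩
  have h6 : ∑ x, f x * g x = ∑ x, g x * f x := Finset.sum_congr rfl fun x _ => mul_comm _ _
  rw [h6]
  refine h3.trans ?_
  have h7 : (1 / (2 * c)) * ∑ x, g x ^ 2 ≤ (1 / (2 * c)) * (c ^ 2 * ∑ x, f x ^ 2) :=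
    mul_le_mul_of_nonneg_left h5 (by positivity)
  have h8 : (1 / (2 * c)) * (c ^ 2 * ∑ x, f x ^ 2) = (c / 2) * ∑ x, f x ^ 2 := by
    field_simp
  rw [h8] at h7
  linarith

/-! ### Powers of the transfer matrix -/

theorem TM_symm (z : ℝ) (V : Tor d M → ℝ) (x y : Tor d M) : TM z V x y = TM z V y x := by
  unfold TM
  rw [Matrix.sub_apply, Matrix.sub_apply, Matrix.smul_apply, Matrix.smul_apply, AM_symm z V x y]
  congr 1
  by_cases h : x = y
  · rw [h]
  · rw [Matrix.one_apply_ne h, Matrix.one_apply_ne (Ne.symm h)]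

theorem TM_transpose (z : ℝ) (V : Tor d M → ℝ) : (TM z V)ᵀ = TM z V := by
  ext x y
  rw [Matrix.transpose_apply]
  exact TM_symm z V y x

theorem pow_symm (z : ℝ) (V : Tor d M → ℝ) (n : ℕ) (x y : Tor d M) :
    (TM z V ^ n) x y = (TM z V ^ n) y x := by
  have h : (TM z V ^ n)ᵀ = TM z V ^ n := by rw [Matrix.transpose_pow, TM_transpose]
  have := congrFun (congrFun h y) x
  rw [Matrix.transpose_apply] at this
  exact this

/-- square of the norm of a row of the power -/
def ph (z : ℝ) (V : Tor d M → ℝ) (x : Tor d M) (n : ℕ) : ℝ := ∑ y, ((TM z V ^ n) x y) ^ 2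

theorem pow_add_diag (z : ℝ) (V : Tor d M → ℝ) (x : Tor d M) (n m : ℕ) :
    (TM z V ^ (n + m)) x x = ∑ y, (TM z V ^ n) x y * (TM z V ^ m) x y := by
  rw [pow_add, Matrix.mul_apply]
  refine Finset.sum_congr rfl fun y _ => ?_
  rw [pow_symm z V m y x]

theorem pow_even (z : ℝ) (V : Tor d M → ℝ) (x : Tor d M) (j : ℕ) :
    (TM z V ^ (2 * j)) x x = ph z V x j := by
  rw [two_mul, pow_add_diag]
  unfold ph
  refine Finset.sum_congr rfl fun y _ => ?_
  rw [sq]

theorem pow_odd (z : ℝ) (V : Tor d M → ℝ) (x : Tor d M) (j : ℕ) :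
    (TM z V ^ (2 * j + 1)) x x
      = ∑ y, (TM z V ^ j) x y * (TM z V *ᵥ fun w => (TM z V ^ j) x w) y := by
  have h1 : 2 * j + 1 = j + (1 + j) := by ring
  rw [h1, pow_add, Matrix.mul_apply]
  refine Finset.sum_congr rfl fun y _ => ?_
  congr 1
  rw [pow_add, pow_one, Matrix.mul_apply, Matrix.mulVec, dotProduct]
  refine Finset.sum_congr rfl fun w _ => ?_
  rw [pow_symm z V j w x]

theorem pow_diag_le {z : ℝ} {V : Tor d M → ℝ}
    (h5 : ∀ f : Tor d M → ℝ, ∑ x, f x * (TM z V *ᵥ f) x ≤ ∑ x, f x ^ 2) (x : Tor d M) (k : ℕ) :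
    (TM z V ^ k) x x ≤ ph z V x (k / 2) := by
  rcases Nat.even_or_odd' k with ⟨j, rfl | rfl⟩
  · rw [pow_even, Nat.mul_div_cancel_left j (by norm_num)]
  · rw [pow_odd]
    have e : (2 * j + 1) / 2 = j := by omega
    rw [e]
    exact h5 _

theorem ph_anti {z : ℝ} {V : Tor d M → ℝ} {x : Tor d M}
    (h2 : ∀ n : ℕ, ph z V x (n + 1) ≤ ph z V x n) : Antitone (ph z V x) :=
  antitone_nat_of_succ_le h2

/-- finite sums of the Neumann series -/
def PP (z : ℝ) (V : Tor d M → ℝ) (m : ℕ) : Matrix (Tor d M) (Tor d M) ℝ :=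
  ∑ n ∈ Finset.range m, TM z V ^ n

theorem GM_eq (hd : 0 < d) {z : ℝ} {V : Tor d M → ℝ} (hA : (AM z V).PosDef) (m : ℕ) :
    GM z V = (1 / (8 * (d : ℝ))) • PP z V m + TM z V ^ m * GM z V := by
  have hd' : (8 * (d : ℝ)) ≠ 0 := by positivity
  have h1 : AM z V * GM z V = 1 :=
    Matrix.mul_nonsing_inv _ ((Matrix.isUnit_iff_isUnit_det _).1 hA.isUnit)
  have h2 : TM z V * GM z V = GM z V - (1 / (8 * (d : ℝ))) • (1 : Matrix _ _ ℝ) := by
    unfold TM
    rw [Matrix.sub_mul, Matrix.one_mul, Matrix.smul_mul, h1]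
  induction m with
  | zero => simp [PP]
  | succ m ih =>
    have h3 : TM z V ^ (m + 1) * GM z V
        = TM z V ^ m * GM z V - (1 / (8 * (d : ℝ))) • TM z V ^ m := by
      rw [pow_succ, Matrix.mul_assoc, h2, Matrix.mul_sub, Matrix.mul_smul, Matrix.mul_one]
    have h4 : PP z V (m + 1) = PP z V m + TM z V ^ m := Finset.sum_range_succ _ _
    rw [h3, h4, smul_add]
    conv_lhs => rw [ih]
    abel

theorem PP_rec {z : ℝ} {V : Tor d M → ℝ}
    (h2 : ∀ (x : Tor d M) (n : ℕ), ph z V x (n + 1) ≤ ph z V x n)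
    (h5 : ∀ f : Tor d M → ℝ, ∑ x, f x * (TM z V *ᵥ f) x ≤ ∑ x, f x ^ 2) (x : Tor d M) (m : ℕ) :
    ∑ y, (PP z V (m + 1) x y) ^ 2 ≤ ∑ y, (PP z V m x y) ^ 2 +
      (2 * (m : ℝ) + 1) * ph z V x (m / 2) := by
  have hanti := ph_anti (h2 x)
  have e1 : ∀ y, PP z V (m + 1) x y = PP z V m x y + (TM z V ^ m) x y := by
    intro y
    have h4 : PP z V (m + 1) = PP z V m + TM z V ^ m := Finset.sum_range_succ _ _
    rw [h4, Matrix.add_apply]
  have e2 : ∑ y, (PP z V (m + 1) x y) ^ 2 = ∑ y, (PP z V m x y) ^ 2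
      + 2 * ∑ y, PP z V m x y * (TM z V ^ m) x y + ph z V x m := by
    unfold ph
    rw [Finset.mul_sum, ← Finset.sum_add_distrib, ← Finset.sum_add_distrib]
    refine Finset.sum_congr rfl fun y _ => ?_
    rw [e1]
    ring
  have e3 : ∑ y, PP z V m x y * (TM z V ^ m) x y
      = ∑ n ∈ Finset.range m, (TM z V ^ (n + m)) x x := by
    have : ∀ y, PP z V m x y * (TM z V ^ m) x y
        = ∑ n ∈ Finset.range m, (TM z V ^ n) x y * (TM z V ^ m) x y := by
      intro y
      unfold PP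
      rw [Matrix.sum_apply, Finset.sum_mul]
    simp only [this]
    rw [Finset.sum_comm]
    refine Finset.sum_congr rfl fun n _ => ?_
    rw [pow_add_diag]
  have e4 : ∑ n ∈ Finset.range m, (TM z V ^ (n + m)) x x ≤ (m : ℝ) * ph z V x (m / 2) := by
    calc ∑ n ∈ Finset.range m, (TM z V ^ (n + m)) x x
        ≤ ∑ _n ∈ Finset.range m, ph z V x (m / 2) := by
          refine Finset.sum_le_sum fun n _ => ?_
          exact (pow_diag_le h5 x (n + m)).trans (hanti (Nat.div_le_div_right (by omega)))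
      _ = (m : ℝ) * ph z V x (m / 2) := by
          rw [Finset.sum_const, Finset.card_range, nsmul_eq_mul]
  have e5 : ph z V x m ≤ ph z V x (m / 2) := hanti (Nat.div_le_self m 2)
  rw [e2, e3]
  linarith

/-! ### Series -/

theorem rpow_three_half {x : ℝ} (hx : 0 < x) : x ^ (-(3 : ℝ) / 2) = 1 / Real.sqrt x ^ 3 := by
  have h1 : Real.sqrt x ^ 3 = x ^ ((3 : ℝ) / 2) := by
    rw [Real.sqrt_eq_rpow, ← Real.rpow_natCast, ← Real.rpow_mul hx.le]
    norm_num
  rw [h1, neg_div, Real.rpow_neg hx.le, one_div]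

theorem sum_three_half (r : ℕ) :
    ∑ j ∈ Finset.range r, ((j : ℝ) + 1) ^ (-(3 : ℝ) / 2) ≤ 4 - 4 / Real.sqrt ((r : ℝ) + 1) := by
  induction r with
  | zero => simp
  | succ r ih =>
    rw [Finset.sum_range_succ]
    have hr : (0 : ℝ) ≤ (r : ℝ) := Nat.cast_nonneg r
    set s := Real.sqrt ((r : ℝ) + 1) with hs
    set t := Real.sqrt (((r + 1 : ℕ) : ℝ) + 1) with ht
    have hs2 : s ^ 2 = (r : ℝ) + 1 := Real.sq_sqrt (by positivity)
    have ht2 : t ^ 2 = s ^ 2 + 1 := by
      rw [hs2, ht, Real.sq_sqrt (by positivity)]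
      push_cast
      ring
    have hs1 : 1 ≤ s := Real.one_le_sqrt.2 (by linarith only)
    have ht0 : 0 ≤ t := Real.sqrt_nonneg _
    have htpos : 0 < t := by
      rcases ht0.lt_or_eq with h | h
      · exact h
      · rw [← h] at ht2; nlinarith only [hs2, ht2]
    have hst : s ≤ t := by nlinarith only [ht2, hs1, ht0]
    have ht32 : t ≤ 3 / 2 * s := by nlinarith only [ht2, hs1, ht0, hst]
    rw [rpow_three_half (by positivity), ← hs]
    have key : 1 / s ^ 3 ≤ 4 / s - 4 / t := by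
      have e : 4 / s - 4 / t = 4 / (s * t * (s + t)) := by
        have h1 : (t - s) * (s + t) = 1 := by nlinarith only [ht2]
        field_simp
        linarith only [ht2]
      rw [e, div_le_div_iff₀ (by positivity) (by positivity)]
      have h2 : t * (s + t) ≤ 4 * s ^ 2 := by nlinarith only [hs2, ht2, hs1, ht32]
      calc 1 * (s * t * (s + t)) = s * (t * (s + t)) := by ring
        _ ≤ s * (4 * s ^ 2) := mul_le_mul_of_nonneg_left h2 (by linarith only [hs1])
        _ = 4 * s ^ 3 := by ring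
    linarith only [ih, key]

theorem sum_three_half' (r : ℕ) :
    ∑ j ∈ Finset.range r, ((j : ℝ) + 1) ^ (-(3 : ℝ) / 2) ≤ 4 := by
  have h := sum_three_half r
  have h2 : 0 ≤ 4 / Real.sqrt ((r : ℝ) + 1) := by positivity
  linarith only [h, h2]

theorem sum_half (r : ℕ) :
    ∑ j ∈ Finset.range r, ((j : ℝ) + 1) ^ (-(1 : ℝ) / 2) ≤ 2 * Real.sqrt (r : ℝ) := by
  induction r with
  | zero => simp
  | succ r ih =>
    rw [Finset.sum_range_succ]
    have hr : (0 : ℝ) ≤ (r : ℝ) := Nat.cast_nonneg r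
    have e1 : ((r : ℝ) + 1) ^ (-(1 : ℝ) / 2) = 1 / Real.sqrt ((r : ℝ) + 1) := by
      rw [Real.sqrt_eq_rpow, neg_div, Real.rpow_neg (by positivity)]
      simp only [one_div]
    rw [e1]
    push_cast
    set s := Real.sqrt (r : ℝ) with hs
    set t := Real.sqrt ((r : ℝ) + 1) with ht
    have hs2 : s ^ 2 = (r : ℝ) := Real.sq_sqrt hr
    have ht2 : t ^ 2 = s ^ 2 + 1 := by
      rw [hs2, ht, Real.sq_sqrt (by positivity)]
    have hs0 : 0 ≤ s := Real.sqrt_nonneg _
    have htpos : 0 < t := Real.sqrt_pos.2 (by positivity)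
    have key : 1 / t ≤ 2 * t - 2 * s := by
      rw [div_le_iff₀ htpos]
      nlinarith only [sq_nonneg (t - s), ht2]
    linarith only [ih, key]

theorem sum_one (r : ℕ) (hr : 1 ≤ r) :
    ∑ j ∈ Finset.range r, ((j : ℝ) + 1) ^ (-(1 : ℝ)) ≤ 1 + Real.log r := by
  have h := harmonic_le_one_add_log r
  have e : ((harmonic r : ℚ) : ℝ) = ∑ j ∈ Finset.range r, ((j : ℝ) + 1) ^ (-(1 : ℝ)) := by
    unfold harmonic
    push_cast
    refine Finset.sum_congr rfl fun j _ => ?_
    rw [Real.rpow_neg_one]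
  rw [← e]
  exact h

theorem growth_ge {d : ℕ} {t : ℝ} (hd : 3 ≤ d) (ht : 1 ≤ t) :
    1 ≤ growth d t ∧ t ^ (2 : ℝ) * t ^ (-(d : ℝ) / 2) ≤ growth d t := by
  have ht0 : 0 < t := by linarith only [ht]
  rw [← Real.rpow_add ht0]
  unfold growth
  split_ifs with h3 h4
  · subst h3
    refine ⟨Real.one_le_sqrt.2 ht, le_of_eq ?_⟩
    rw [Real.sqrt_eq_rpow]
    norm_num
  · subst h4
    have := Real.log_nonneg ht
    refine ⟨by linarith, ?_⟩
    norm_num
    linarith
  · refine ⟨le_rfl, ?_⟩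
    refine Real.rpow_le_one_of_one_le_of_nonpos ht ?_
    have h5 : 5 ≤ d := by omega
    have : (5 : ℝ) ≤ (d : ℝ) := by exact_mod_cast h5
    linarith only [this]

theorem sum_growth {d : ℕ} {t : ℝ} (hd : 3 ≤ d) (ht : 1 ≤ t) :
    ∑ j ∈ Finset.range ⌈t⌉₊, ((j : ℝ) + 1) ^ (1 - (d : ℝ) / 2) ≤ 4 * growth d t := by
  have hr : (⌈t⌉₊ : ℝ) ≤ 2 * t := by
    have := Nat.ceil_lt_add_one (show 0 ≤ t by linarith only [ht])
    linarith only [ht, this]
  have hr1 : 1 ≤ ⌈t⌉₊ := Nat.one_le_ceil_iff.2 (by linarith only [ht])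
  unfold growth
  split_ifs with h3 h4
  · subst h3
    have h := sum_half ⌈t⌉₊
    have e : (1 - ((3 : ℕ) : ℝ) / 2) = -(1 : ℝ) / 2 := by norm_num
    rw [e]
    refine h.trans ?_
    have h1 : Real.sqrt (⌈t⌉₊ : ℝ) ≤ 2 * Real.sqrt t := by
      have h2 : (2 : ℝ) * Real.sqrt t = Real.sqrt (4 * t) := by
        rw [Real.sqrt_mul (by norm_num), show (4 : ℝ) = 2 ^ 2 by norm_num,
          Real.sqrt_sq (by norm_num)]
      rw [h2]
      exact Real.sqrt_le_sqrt (by linarith only [ht, hr])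
    linarith only [h1]
  · subst h4
    have h := sum_one ⌈t⌉₊ hr1
    have e : (1 - ((4 : ℕ) : ℝ) / 2) = -(1 : ℝ) := by norm_num
    rw [e]
    refine h.trans ?_
    have h1 : Real.log (⌈t⌉₊ : ℝ) ≤ Real.log (2 * t) :=
      Real.log_le_log (by exact_mod_cast hr1) hr
    rw [Real.log_mul (by norm_num) (by linarith only [ht])] at h1
    have h2 := Real.log_two_lt_d9
    have h3 := Real.log_nonneg ht
    linarith only [h1, h2, h3]
  · rw [mul_one]
    refine (Finset.sum_le_sum fun j _ => ?_).trans (sum_three_half' ⌈t⌉₊)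
    refine Real.rpow_le_rpow_of_exponent_le ?_ ?_
    · have : (0 : ℝ) ≤ (j : ℝ) := Nat.cast_nonneg j
      linarith only
    · have h5 : 5 ≤ d := by omega
      have : (5 : ℝ) ≤ (d : ℝ) := by exact_mod_cast h5
      linarith only [this]

/-! ### The module -/

theorem TM_commute {z : ℝ} {V : Tor d M → ℝ} (hA : (AM z V).PosDef) :
    Commute (TM z V) (GM z V) := by
  have h1 : AM z V * GM z V = 1 :=
    Matrix.mul_nonsing_inv _ ((Matrix.isUnit_iff_isUnit_det _).1 hA.isUnit)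
  have h2 : GM z V * AM z V = 1 :=
    Matrix.nonsing_inv_mul _ ((Matrix.isUnit_iff_isUnit_det _).1 hA.isUnit)
  unfold Commute SemiconjBy TM
  rw [Matrix.sub_mul, Matrix.mul_sub, Matrix.one_mul, Matrix.mul_one, Matrix.smul_mul,
    Matrix.mul_smul, h1, h2]

theorem sum_mod (hH : HeatStmt) : SumStmt := by
  intro d hd
  have hd0 : 0 < d := by omega
  have hdR : (3 : ℝ) ≤ (d : ℝ) := by exact_mod_cast hd
  set K := KH d with hK
  have hK1 : 1 ≤ K := by
    rw [hK]
    unfold KH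
    have h1 : (1 : ℝ) ≤ (36 * (d : ℝ) ^ 3) := by
      have : (1 : ℝ) ≤ (d : ℝ) ^ 3 := one_le_pow₀ (by linarith only [hdR])
      linarith only [this]
    have h2 : (1 : ℝ) ≤ (36 * (d : ℝ) ^ 3) ^ d := one_le_pow₀ h1
    linarith only [h2]
  set E : ℝ := (2 : ℝ) ^ ((d : ℝ) / 2) with hE
  have hE1 : 1 ≤ E := Real.one_le_rpow (by norm_num) (by positivity)
  refine ⟨(16 * E + 1013) * K, by nlinarith only [hK1, hE1], ?_⟩
  intro M _ z t a V hM ht htM hz hV hA ha1 ha2 hDa hDb x
  have ht0 : 0 < t := by linarith only [ht]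
  obtain ⟨g1, g2⟩ := growth_ge (t := t) hd ht
  obtain ⟨_, h2, h3, _, _, h5⟩ := hH d M (by omega) z V a hz hV hA (by linarith only [ha1]) hDa hDb
  have h2' : ∀ (x : Tor d M) (n : ℕ), ph z V x (n + 1) ≤ ph z V x n := h2
  have hanti := ph_anti (h2' x)
  set c : ℝ := 3 / 2 * a with hc
  have hc0 : 0 < c := by rw [hc]; linarith only [ha1]
  have hc22 : c ≤ 22.5 * t := by rw [hc]; linarith only [ha2]
  have hgb := fun f => green_bounds hA hc0 hDb f
  set r : ℕ := ⌈t⌉₊ with hr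
  have hr1 : 1 ≤ r := Nat.one_le_ceil_iff.2 ht0
  have hrM : r ≤ M := Nat.ceil_le.2 htM
  have htr : t ≤ (r : ℝ) := Nat.le_ceil t
  -- decay
  have hdec : ∀ n : ℕ, n + 1 ≤ M ^ 2 → ph z V x n ≤ K * ((n : ℝ) + 1) ^ (-(d : ℝ) / 2) :=
    fun n hn => h3 x n hn
  have hM2 : M + 1 ≤ M ^ 2 := by nlinarith only [hM]
  have hphr : ph z V x r ≤ K * t ^ (-(d : ℝ) / 2) := by
    refine (hdec r (by omega)).trans (mul_le_mul_of_nonneg_left ?_ (by linarith only [hK1]))
    exact Real.rpow_le_rpow_of_nonpos ht0 (by linarith only [htr]) (by linarith only [hdR])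
  -- finite sums
  have hs : ∀ m : ℕ, m ≤ r → ∑ y, (PP z V m x y) ^ 2 ≤
      2 * E * K * ∑ j ∈ Finset.range m, ((j : ℝ) + 1) ^ (1 - (d : ℝ) / 2) := by
    intro m
    induction m with
    | zero =>
      intro _
      simp [PP]
    | succ m ih =>
      intro hm
      have h6 := PP_rec h2' h5 x m
      have h7 := ih (by omega)
      have hm2 : m / 2 + 1 ≤ M ^ 2 := by
        have : m / 2 ≤ m := Nat.div_le_self m 2
        omega
      have h8 := hdec (m / 2) hm2
      have hmp : (0 : ℝ) < (m : ℝ) + 1 := by positivity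
      have h9 : (((m / 2 : ℕ) : ℝ) + 1) ^ (-(d : ℝ) / 2)
          ≤ E * ((m : ℝ) + 1) ^ (-(d : ℝ) / 2) := by
        have h10 : ((m : ℝ) + 1) / 2 ≤ ((m / 2 : ℕ) : ℝ) + 1 := by
          have : m + 1 ≤ 2 * (m / 2 + 1) := by omega
          have h11 : ((m : ℝ) + 1) ≤ 2 * (((m / 2 : ℕ) : ℝ) + 1) := by exact_mod_cast this
          linarith only [h11]
        refine (Real.rpow_le_rpow_of_nonpos (by positivity) h10 (by linarith only [hdR])).trans (le_of_eq ?_)
        rw [Real.div_rpow hmp.le (by norm_num), hE, neg_div (2 : ℝ) (d : ℝ),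
          Real.rpow_neg (show (0 : ℝ) ≤ 2 by norm_num)]
        field_simp
      have h12 : (2 * (m : ℝ) + 1) * ph z V x (m / 2)
          ≤ 2 * E * K * ((m : ℝ) + 1) ^ (1 - (d : ℝ) / 2) := by
        have h13 : ((m : ℝ) + 1) ^ (1 - (d : ℝ) / 2)
            = ((m : ℝ) + 1) * ((m : ℝ) + 1) ^ (-(d : ℝ) / 2) := by
          rw [show (1 - (d : ℝ) / 2) = 1 + (-(d : ℝ) / 2) by ring, Real.rpow_add hmp,
            Real.rpow_one]
        have h14 : ph z V x (m / 2) ≤ K * (E * ((m : ℝ) + 1) ^ (-(d : ℝ) / 2)) :=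
          h8.trans (mul_le_mul_of_nonneg_left h9 (by linarith only [hK1]))
        have h15 : 0 ≤ K * (E * ((m : ℝ) + 1) ^ (-(d : ℝ) / 2)) := by positivity
        calc (2 * (m : ℝ) + 1) * ph z V x (m / 2)
            ≤ (2 * (m : ℝ) + 1) * (K * (E * ((m : ℝ) + 1) ^ (-(d : ℝ) / 2))) :=
              mul_le_mul_of_nonneg_left h14 (by positivity)
          _ ≤ (2 * ((m : ℝ) + 1)) * (K * (E * ((m : ℝ) + 1) ^ (-(d : ℝ) / 2))) :=
              mul_le_mul_of_nonneg_right (by linarith only) h15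
          _ = _ := by rw [h13]; ring
      rw [Finset.sum_range_succ, mul_add]
      linarith
  have hsr : ∑ y, (PP z V r x y) ^ 2 ≤ 8 * E * K * growth d t := by
    refine (hs r le_rfl).trans ?_
    have := sum_growth (t := t) hd ht
    have h6 := mul_le_mul_of_nonneg_left this (show 0 ≤ 2 * E * K by positivity)
    linarith only [h6]
  have hd8 : (1 / (8 * (d : ℝ))) ≤ 1 := by
    rw [div_le_one (by positivity)]
    linarith only [hdR]
  have hd8' : 0 ≤ (1 / (8 * (d : ℝ))) := by positivity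
  constructor
  · -- rows
    have e1 := GM_eq hd0 hA r
    have e2 : ∀ y, GM z V x y = (1 / (8 * (d : ℝ))) * PP z V r x y
        + (GM z V *ᵥ fun w => (TM z V ^ r) x w) y := by
      intro y
      conv_lhs => rw [e1]
      rw [Matrix.add_apply, Matrix.smul_apply, smul_eq_mul, Matrix.mul_apply, Matrix.mulVec,
        dotProduct]
      congr 1
      refine Finset.sum_congr rfl fun w _ => ?_
      rw [GM_symm hA w y, mul_comm]
    have e3 : ∑ y, (GM z V x y) ^ 2 ≤ 2 * ∑ y, (PP z V r x y) ^ 2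
        + 2 * ∑ y, ((GM z V *ᵥ fun w => (TM z V ^ r) x w) y) ^ 2 := by
      rw [Finset.mul_sum, Finset.mul_sum, ← Finset.sum_add_distrib]
      refine Finset.sum_le_sum fun y _ => ?_
      rw [e2]
      set p := PP z V r x y
      set q := (GM z V *ᵥ fun w => (TM z V ^ r) x w) y
      set k := (1 / (8 * (d : ℝ)))
      have h6 : (k * p) ^ 2 ≤ p ^ 2 := by
        rw [mul_pow]
        have : k ^ 2 ≤ 1 := pow_le_one₀ hd8' hd8
        nlinarith only [sq_nonneg p, this]
      nlinarith only [sq_nonneg (k * p - q), h6]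
    have e4 : ∑ y, ((GM z V *ᵥ fun w => (TM z V ^ r) x w) y) ^ 2
        ≤ 506.25 * (K * growth d t) := by
      refine (hgb _).1.trans ?_
      have h6 : c ^ 2 ≤ 506.25 * t ^ (2 : ℝ) := by
        rw [show (t : ℝ) ^ (2 : ℝ) = t ^ 2 by exact_mod_cast Real.rpow_natCast t 2]
        nlinarith only [ht, ha1, ha2, hc]
      have h7 : ∑ w, ((TM z V ^ r) x w) ^ 2 ≤ K * t ^ (-(d : ℝ) / 2) := hphr
      have h8 : 0 ≤ K * t ^ (-(d : ℝ) / 2) := by positivity
      have h9 : 0 ≤ t ^ (2 : ℝ) := by positivity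
      calc c ^ 2 * ∑ w, ((TM z V ^ r) x w) ^ 2
          ≤ (506.25 * t ^ (2 : ℝ)) * (K * t ^ (-(d : ℝ) / 2)) :=
            mul_le_mul h6 h7 (Finset.sum_nonneg fun w _ => sq_nonneg _) (by positivity)
        _ = 506.25 * (K * (t ^ (2 : ℝ) * t ^ (-(d : ℝ) / 2))) := by ring
        _ ≤ 506.25 * (K * growth d t) := by
            refine mul_le_mul_of_nonneg_left ?_ (by norm_num)
            exact mul_le_mul_of_nonneg_left g2 (by linarith only [hK1])
    have h10 : 0 ≤ K * growth d t := mul_nonneg (by linarith only [hK1]) (by linarith only [g1])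
    have e5 : (16 * E + 1013) * K * growth d t
        = 16 * E * K * growth d t + 1013 * (K * growth d t) := by ring
    rw [e5]
    linarith
  · -- diagonal
    have e1 := GM_eq hd0 hA (2 * r)
    have e2 : TM z V ^ (2 * r) * GM z V = TM z V ^ r * (GM z V * TM z V ^ r) := by
      rw [two_mul, pow_add, Matrix.mul_assoc]
      congr 1
      exact ((TM_commute hA).pow_left r).eq
    have e3 : (TM z V ^ (2 * r) * GM z V) x x
        = ∑ y, (TM z V ^ r) x y * (GM z V *ᵥ fun w => (TM z V ^ r) x w) y := by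
      rw [e2, Matrix.mul_apply]
      refine Finset.sum_congr rfl fun y _ => ?_
      congr 1
      rw [Matrix.mul_apply, Matrix.mulVec, dotProduct]
      refine Finset.sum_congr rfl fun w _ => ?_
      rw [pow_symm z V r w x]
    have e4 : (TM z V ^ (2 * r) * GM z V) x x ≤ 22.5 * K := by
      rw [e3]
      refine (hgb _).2.trans ?_
      have h7 : ∑ w, ((TM z V ^ r) x w) ^ 2 ≤ K * t ^ (-(d : ℝ) / 2) := hphr
      have h8 : t * t ^ (-(d : ℝ) / 2) ≤ 1 := by
        have : t * t ^ (-(d : ℝ) / 2) = t ^ (1 + -(d : ℝ) / 2) := by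
          rw [Real.rpow_add ht0, Real.rpow_one]
        rw [this]
        exact Real.rpow_le_one_of_one_le_of_nonpos ht (by linarith only [hdR])
      have h9 : 0 ≤ t ^ (-(d : ℝ) / 2) := by positivity
      calc c * ∑ w, ((TM z V ^ r) x w) ^ 2
          ≤ (22.5 * t) * (K * t ^ (-(d : ℝ) / 2)) :=
            mul_le_mul hc22 h7 (Finset.sum_nonneg fun w _ => sq_nonneg _) (by positivity)
        _ = 22.5 * K * (t * t ^ (-(d : ℝ) / 2)) := by ring
        _ ≤ 22.5 * K * 1 := mul_le_mul_of_nonneg_left h8 (by positivity)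
        _ = 22.5 * K := mul_one _
    have e5 : PP z V (2 * r) x x ≤ 8 * K := by
      have h6 : PP z V (2 * r) x x = ∑ n ∈ Finset.range (2 * r), (TM z V ^ n) x x := by
        unfold PP
        rw [Matrix.sum_apply]
      have h7 : ∀ m : ℕ, m ≤ r → ∑ n ∈ Finset.range (2 * m), (TM z V ^ n) x x
          ≤ 2 * K * ∑ j ∈ Finset.range m, ((j : ℝ) + 1) ^ (-(3 : ℝ) / 2) := by
        intro m
        induction m with
        | zero => intro _; simp
        | succ m ih =>
          intro hm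
          have h8 : 2 * (m + 1) = 2 * m + 1 + 1 := by ring
          rw [h8, Finset.sum_range_succ, Finset.sum_range_succ, Finset.sum_range_succ, mul_add]
          have h9 := pow_diag_le h5 x (2 * m)
          have h10 := pow_diag_le h5 x (2 * m + 1)
          have h11 : 2 * m / 2 = m := by omega
          have h12 : (2 * m + 1) / 2 = m := by omega
          rw [h11] at h9
          rw [h12] at h10
          have h13 : ph z V x m ≤ K * ((m : ℝ) + 1) ^ (-(3 : ℝ) / 2) := by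
            refine (hdec m (by omega)).trans (mul_le_mul_of_nonneg_left ?_ (by linarith only [hK1]))
            refine Real.rpow_le_rpow_of_exponent_le ?_ (by linarith only [hdR])
            have : (0 : ℝ) ≤ (m : ℝ) := Nat.cast_nonneg m
            linarith only
          have h14 := ih (by omega)
          linarith
      rw [h6]
      refine (h7 r le_rfl).trans ?_
      have := mul_le_mul_of_nonneg_left (sum_three_half' r) (show 0 ≤ 2 * K by linarith only [hK1])
      linarith only [this]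
    have e6 : GM z V x x = (1 / (8 * (d : ℝ))) * PP z V (2 * r) x x
        + (TM z V ^ (2 * r) * GM z V) x x := by
      conv_lhs => rw [e1]
      rw [Matrix.add_apply, Matrix.smul_apply, smul_eq_mul]
    have e7 : (1 / (8 * (d : ℝ))) * PP z V (2 * r) x x ≤ 8 * K := by
      calc (1 / (8 * (d : ℝ))) * PP z V (2 * r) x x
          ≤ (1 / (8 * (d : ℝ))) * (8 * K) := mul_le_mul_of_nonneg_left e5 hd8'
        _ ≤ 1 * (8 * K) := mul_le_mul_of_nonneg_right hd8 (by linarith only [hK1])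
        _ = 8 * K := one_mul _
    rw [e6]
    nlinarith

end Pool.Agent.BED.H15
end
end -- Pool.Agent.Helper15_BED.Sum
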