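import Pool.Agent.Helper48_Loc.Defs

/-!
# Merged copies (generated) of the modules

* `Pool.Agent.Helper48_Loc.Marg`
* `Pool.Agent.Helper48_Loc.Apriori`
* `Pool.Agent.Helper48_Loc.Apriori2`
* `Pool.Agent.Helper48_Loc.Null`
* `Pool.Agent.Helper48_Loc.Geom`
* `Pool.Agent.Helper48_Loc.CT`
* `Pool.Agent.Helper3_LEW.CTX`
-/

set_option autoImplicit false

section -- Pool.Agent.Helper48_Loc.Marg

/-!
# Partial integration over finitely many sites
-/

set_option autoImplicit false
set_option linter.unusedSectionVars false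

open MeasureTheory ProbabilityTheory Function

open scoped ENNReal BigOperators

noncomputable section

namespace Pool.Agent.Loc

section General

variable {δ : Type*} [DecidableEq δ] {ν : Measure ℝ} [IsProbabilityMeasure ν]
  {s t A B : Finset δ} {f g : (δ → ℝ) → ℝ≥0∞}

/-- `f` does not depend on the coordinates in `s` -/
def Free (f : (δ → ℝ) → ℝ≥0∞) (s : Finset δ) : Prop :=
  ∀ x y : δ → ℝ, (∀ i ∉ s, x i = y i) → f x = f y

/-- `f` depends only on the coordinates in `s` -/
def Only (f : (δ → ℝ) → ℝ≥0∞) (s : Finset δ) : Prop :=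
  ∀ x y : δ → ℝ, (∀ i ∈ s, x i = y i) → f x = f y

theorem Only.free (h : Only f A) (hd : Disjoint A s) : Free f s := by
  intro x y hxy
  apply h
  intro i hi
  exact hxy i (Finset.disjoint_left.1 hd hi)

theorem Only.mono (h : Only f A) (hAB : A ⊆ B) : Only f B :=
  fun x y hxy => h x y fun i hi => hxy i (hAB hi)

theorem marg_mul_left (hf : Free f s) (hg : Measurable g) :
    ∫⋯∫⁻_s, (fun x => f x * g x) ∂(fun _ => ν) = fun x => f x * (∫⋯∫⁻_s, g ∂(fun _ => ν)) x := by
  funext x
  unfold lmarginal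
  have h1 : ∀ y : (i : s) → ℝ, f (updateFinset x s y) = f x := by
    intro y
    apply hf
    intro i hi
    simp [updateFinset, hi]
  simp_rw [h1]
  rw [lintegral_const_mul]
  exact hg.comp measurable_updateFinset

theorem marg_free (hf : Free f s) : ∫⋯∫⁻_s, f ∂(fun _ => ν) = f := by
  funext x
  unfold lmarginal
  have h1 : ∀ y : (i : s) → ℝ, f (updateFinset x s y) = f x := by
    intro y
    apply hf
    intro i hi
    simp [updateFinset, hi]
  simp_rw [h1]
  simp

theorem marg_only_const (hf : Only f s) (x y : δ → ℝ) :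
    (∫⋯∫⁻_s, f ∂(fun _ => ν)) x = (∫⋯∫⁻_s, f ∂(fun _ => ν)) y := by
  unfold lmarginal
  congr 1
  funext z
  apply hf
  intro i hi
  simp [updateFinset, hi]

theorem marg_subset (hfm : Measurable f) (hf : Only f s) (hst : s ⊆ t) :
    ∫⋯∫⁻_t, f ∂(fun _ => ν) = ∫⋯∫⁻_s, f ∂(fun _ => ν) := by
  rw [← Finset.union_sdiff_of_subset hst, lmarginal_union _ f hfm Finset.disjoint_sdiff,
    marg_free (hf.free Finset.disjoint_sdiff)]

theorem marg_le_const {c : ℝ≥0∞} (h : ∀ x, f x ≤ c) (x : δ → ℝ) :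
    (∫⋯∫⁻_s, f ∂(fun _ => ν)) x ≤ c := by
  unfold lmarginal
  calc _ ≤ ∫⁻ _ : (i : s) → ℝ, c ∂Measure.pi fun _ : s => ν := lintegral_mono fun y => h _
    _ = c := by simp

theorem marg_mul (hfm : Measurable f) (hgm : Measurable g) (hf : Only f A) (hg : Only g B)
    (hAB : Disjoint A B) (hst : A ∪ B ⊆ t) (x : δ → ℝ) :
    (∫⋯∫⁻_t, (fun x => f x * g x) ∂(fun _ => ν)) x =
      (∫⋯∫⁻_A, f ∂(fun _ => ν)) x * (∫⋯∫⁻_B, g ∂(fun _ => ν)) x := by
  have h0 : Only (fun x => f x * g x) (A ∪ B) := by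
    intro x y hxy
    beta_reduce
    rw [hf x y fun i hi => hxy i (Finset.mem_union_left _ hi),
      hg x y fun i hi => hxy i (Finset.mem_union_right _ hi)]
  have hm : Measurable (fun x => f x * g x) := hfm.mul hgm
  rw [marg_subset hm h0 hst, lmarginal_union _ _ hm hAB,
    marg_mul_left (hf.free hAB) hgm]
  have h1 : (fun x => f x * (∫⋯∫⁻_B, g ∂(fun _ => ν)) x) =
      fun x => (∫⋯∫⁻_B, g ∂(fun _ => ν)) x * f x := by
    funext x
    rw [mul_comm]
  rw [h1, marg_mul_left _ hfm, mul_comm]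
  intro x y _
  exact marg_only_const hg x y

theorem marg_sum {ι : Type*} (I : Finset ι) {F : ι → (δ → ℝ) → ℝ≥0∞}
    (hF : ∀ i ∈ I, Measurable (F i)) (x : δ → ℝ) :
    (∫⋯∫⁻_s, (fun x => ∑ i ∈ I, F i x) ∂(fun _ => ν)) x =
      ∑ i ∈ I, (∫⋯∫⁻_s, F i ∂(fun _ => ν)) x := by
  unfold lmarginal
  rw [lintegral_finsetSum']
  intro i hi
  exact ((hF i hi).comp measurable_updateFinset).aemeasurable

theorem marg_const_mul (c : ℝ≥0∞) (hf : Measurable f) (x : δ → ℝ) :
    (∫⋯∫⁻_s, (fun x => c * f x) ∂(fun _ => ν)) x = c * (∫⋯∫⁻_s, f ∂(fun _ => ν)) x := by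
  unfold lmarginal
  rw [lintegral_const_mul]
  exact hf.comp measurable_updateFinset

theorem marg_add (hf : Measurable f) (x : δ → ℝ) :
    (∫⋯∫⁻_s, (fun x => f x + g x) ∂(fun _ => ν)) x =
      (∫⋯∫⁻_s, f ∂(fun _ => ν)) x + (∫⋯∫⁻_s, g ∂(fun _ => ν)) x := by
  unfold lmarginal
  rw [lintegral_add_left]
  exact hf.comp measurable_updateFinset

end General

end Pool.Agent.Loc
end
end -- Pool.Agent.Helper48_Loc.Marg

section -- Pool.Agent.Helper48_Loc.Apriori

/-!
# The a-priori bound on the fractional moments of the Green function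
-/

set_option autoImplicit false
set_option linter.unusedSectionVars false

open MeasureTheory ProbabilityTheory Function

open scoped ENNReal BigOperators

noncomputable section

namespace Pool.Agent.Loc

open Pool.Agent.Anderson

/-- a probability measure on the line with bounded density -/
def BddDens (ν : Measure ℝ) (ρ : ℝ) : Prop :=
  0 < ρ ∧ ∀ a b : ℝ, ν (Set.Icc a b) ≤ ENNReal.ofReal (ρ * (b - a))

section Scalar

variable {ν : Measure ℝ} [IsProbabilityMeasure ν] {ρ : ℝ}

theorem section_bound (hν : BddDens ν ρ) {a c g τ s₀ : ℝ} (hg : g ≠ 0) (hc : |g| ≤ |c|)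
    (hτ : 0 < τ) : ν {s | τ * |a - (s - s₀) * c| ≤ |g|} ≤ ENNReal.ofReal (ρ * (2 / τ)) := by
  have hg' : 0 < |g| := abs_pos.2 hg
  have hc' : 0 < |c| := hg'.trans_le hc
  have hc0 : c ≠ 0 := abs_pos.1 hc'
  have hsub : {s | τ * |a - (s - s₀) * c| ≤ |g|} ⊆ Set.Icc (s₀ + a / c - 1 / τ) (s₀ + a / c + 1 / τ) := by
    intro s hs
    rw [Set.mem_ofPred_eq] at hs
    have h1 : a - (s - s₀) * c = (a / c - (s - s₀)) * c := by field_simp
    rw [h1, abs_mul] at hs
    have h2 : τ * |a / c - (s - s₀)| ≤ 1 := by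
      by_contra hcon
      push Not at hcon
      have : |c| < τ * |a / c - (s - s₀)| * |c| := by
        calc |c| = 1 * |c| := (one_mul _).symm
          _ < _ := mul_lt_mul_of_pos_right hcon hc'
      nlinarith only [hc, hs, this]
    have h3 : |a / c - (s - s₀)| ≤ 1 / τ := by
      rw [le_div_iff₀ hτ]; linarith only [h2]
    have h4 := abs_le.1 h3
    constructor <;> linarith only [h4]
  refine (measure_mono hsub).trans ((hν.2 _ _).trans (le_of_eq ?_))
  congr 2
  ring

/-- the determinant function of a two-site perturbation -/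
def D2 (p q g s t : ℝ) : ℝ := (1 - s * p) * (1 - t * q) - s * t * g ^ 2

theorem two_site (hν : BddDens ν ρ) {p q g τ s₀ t₀ : ℝ} (hg : g ≠ 0) (hτ : 0 < τ) :
    (ν.prod ν) {z : ℝ × ℝ | τ * |D2 p q g (z.1 - s₀) (z.2 - t₀)| ≤ |g|} ≤
      ENNReal.ofReal (6 * ρ / τ) := by
  have hg' : 0 < |g| := abs_pos.2 hg
  set Δ : ℝ := p * q - g ^ 2 with hΔ
  set S1 : Set (ℝ × ℝ) := {z | |g| ≤ |p - (z.2 - t₀) * Δ| ∧
    τ * |D2 p q g (z.1 - s₀) (z.2 - t₀)| ≤ |g|} with hS1
  set S2 : Set (ℝ × ℝ) := {z | |g| ≤ |q - (z.1 - s₀) * Δ| ∧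
    τ * |D2 p q g (z.1 - s₀) (z.2 - t₀)| ≤ |g|} with hS2
  set T : Set ℝ := {t | Δ ≠ 0 ∧ |g| - |Δ| / τ ≤ |p - (t - t₀) * Δ| ∧ |p - (t - t₀) * Δ| ≤ |g|} with hT
  have cD : Continuous fun z : ℝ × ℝ => D2 p q g (z.1 - s₀) (z.2 - t₀) := by
    unfold D2; fun_prop
  have cD' : Continuous fun z : ℝ × ℝ => τ * |D2 p q g (z.1 - s₀) (z.2 - t₀)| := by fun_prop
  have mD : IsClosed {z : ℝ × ℝ | τ * |D2 p q g (z.1 - s₀) (z.2 - t₀)| ≤ |g|} :=
    isClosed_le cD' continuous_const
  have mS1 : MeasurableSet S1 := by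
    have h1 : IsClosed {z : ℝ × ℝ | |g| ≤ |p - (z.2 - t₀) * Δ|} :=
      isClosed_le (by fun_prop) (by fun_prop)
    exact (h1.inter mD).measurableSet
  have mS2 : MeasurableSet S2 := by
    have h1 : IsClosed {z : ℝ × ℝ | |g| ≤ |q - (z.1 - s₀) * Δ|} :=
      isClosed_le (by fun_prop) (by fun_prop)
    exact (h1.inter mD).measurableSet
  have hcov : {z : ℝ × ℝ | τ * |D2 p q g (z.1 - s₀) (z.2 - t₀)| ≤ |g|} ⊆
      (S1 ∪ S2) ∪ (Set.univ ×ˢ T) := by
    rintro ⟨s', t'⟩ hz
    simp only [Set.mem_ofPred_eq] at hz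
    by_cases h1 : |g| ≤ |p - (t' - t₀) * Δ|
    · exact Or.inl (Or.inl ⟨h1, hz⟩)
    by_cases h2 : |g| ≤ |q - (s' - s₀) * Δ|
    · exact Or.inl (Or.inr ⟨h2, hz⟩)
    right
    push Not at h1 h2
    refine ⟨Set.mem_univ _, ?_⟩
    set s := s' - s₀ with hs
    set t := t' - t₀ with ht
    have hid : (p - t * Δ) * (q - s * Δ) = g ^ 2 + Δ * D2 p q g s t := by
      simp only [D2, hΔ]; ring
    have hprod : |(p - t * Δ) * (q - s * Δ)| ≤ |p - t * Δ| * |g| := by
      rw [abs_mul]
      exact mul_le_mul_of_nonneg_left h2.le (abs_nonneg _)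
    rw [hid] at hprod
    have h3 : g ^ 2 - |Δ * D2 p q g s t| ≤ |g ^ 2 + Δ * D2 p q g s t| := by
      have := abs_add_le (g ^ 2 + Δ * D2 p q g s t) (-(Δ * D2 p q g s t))
      rw [abs_neg] at this
      have h4 : g ^ 2 + Δ * D2 p q g s t + -(Δ * D2 p q g s t) = g ^ 2 := by ring
      rw [h4, abs_of_nonneg (sq_nonneg g)] at this
      linarith only [this]
    have h5 : |g| ^ 2 - |Δ| * |D2 p q g s t| ≤ |p - t * Δ| * |g| := by
      rw [sq_abs, ← abs_mul]; linarith only [hprod, h3]
    have hΔ0 : Δ ≠ 0 := by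
      intro h0
      rw [h0, abs_zero, zero_mul, sub_zero, mul_zero, sub_zero] at h5
      rw [h0, mul_zero, sub_zero] at h1
      nlinarith only [hg', h1, h5]
    have hD : |D2 p q g s t| ≤ |g| / τ := by
      rw [le_div_iff₀ hτ]; linarith
    have h6 : |Δ| * |D2 p q g s t| ≤ |Δ| / τ * |g| := by
      calc _ ≤ |Δ| * (|g| / τ) := mul_le_mul_of_nonneg_left hD (abs_nonneg _)
        _ = _ := by ring
    refine ⟨hΔ0, ?_, h1.le⟩
    by_contra hcon
    push Not at hcon
    have := mul_lt_mul_of_pos_right hcon hg'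
    nlinarith only [h5, h6, this]
  have b1 : (ν.prod ν) S1 ≤ ENNReal.ofReal (ρ * (2 / τ)) := by
    rw [Measure.prod_apply_symm mS1]
    calc _ ≤ ∫⁻ _ : ℝ, ENNReal.ofReal (ρ * (2 / τ)) ∂ν := by
          apply lintegral_mono
          intro t'
          by_cases h1 : |g| ≤ |p - (t' - t₀) * Δ|
          · refine le_trans (measure_mono ?_) (section_bound hν (a := 1 - (t' - t₀) * q)
              (c := p - (t' - t₀) * Δ) (s₀ := s₀) hg h1 hτ)
            intro s' hs'
            have h2 := hs'.2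
            simp only [Set.mem_ofPred_eq] at h2 ⊢
            have e : D2 p q g (s' - s₀) (t' - t₀) =
              1 - (t' - t₀) * q - (s' - s₀) * (p - (t' - t₀) * Δ) := by
              simp only [D2, hΔ]; ring
            rw [e] at h2
            exact h2
          · have : (fun x => (x, t')) ⁻¹' S1 = ∅ := by
              ext s'
              simp only [Set.mem_preimage, hS1, Set.mem_ofPred_eq, Set.mem_empty_iff_false,
                iff_false, not_and]
              intro h; exact absurd h h1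
            beta_reduce
            rw [this, measure_empty]
            exact zero_le
      _ = _ := by simp
  have b2 : (ν.prod ν) S2 ≤ ENNReal.ofReal (ρ * (2 / τ)) := by
    rw [Measure.prod_apply mS2]
    calc _ ≤ ∫⁻ _ : ℝ, ENNReal.ofReal (ρ * (2 / τ)) ∂ν := by
          apply lintegral_mono
          intro s'
          by_cases h1 : |g| ≤ |q - (s' - s₀) * Δ|
          · refine le_trans (measure_mono ?_) (section_bound hν (a := 1 - (s' - s₀) * p)
              (c := q - (s' - s₀) * Δ) (s₀ := t₀) hg h1 hτ)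
            intro t' ht'
            have h2 := ht'.2
            simp only [Set.mem_ofPred_eq] at h2 ⊢
            have e : D2 p q g (s' - s₀) (t' - t₀) =
              1 - (s' - s₀) * p - (t' - t₀) * (q - (s' - s₀) * Δ) := by
              simp only [D2, hΔ]; ring
            rw [e] at h2
            exact h2
          · have : Prod.mk s' ⁻¹' S2 = ∅ := by
              ext t'
              simp only [Set.mem_preimage, hS2, Set.mem_ofPred_eq, Set.mem_empty_iff_false,
                iff_false, not_and]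
              intro h; exact absurd h h1
            beta_reduce
            rw [this, measure_empty]
            exact zero_le
      _ = _ := by simp
  have b3 : (ν.prod ν) (Set.univ ×ˢ T) ≤ ENNReal.ofReal (ρ * (2 / τ)) := by
    rw [Measure.prod_prod, measure_univ, one_mul]
    by_cases hΔ0 : Δ = 0
    · have : T = ∅ := by
        ext t; simp [hT, hΔ0]
      rw [this, measure_empty]; exact zero_le
    have hΔ' : 0 < |Δ| := abs_pos.2 hΔ0
    set r := |g| / |Δ| with hr
    have hsub : T ⊆ Set.Icc (t₀ + p / Δ - r) (t₀ + p / Δ - r + 1 / τ) ∪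
        Set.Icc (t₀ + p / Δ + r - 1 / τ) (t₀ + p / Δ + r) := by
      rintro t ⟨_, h1, h2⟩
      have e : p - (t - t₀) * Δ = (p / Δ - (t - t₀)) * Δ := by field_simp
      rw [e, abs_mul] at h1 h2
      have h3 : |p / Δ - (t - t₀)| ≤ r := by
        rw [hr, le_div_iff₀ hΔ']; exact h2
      have h4 : r - 1 / τ ≤ |p / Δ - (t - t₀)| := by
        by_contra hcon
        push Not at hcon
        have h5 := mul_lt_mul_of_pos_right hcon hΔ'
        have h6 : (r - 1 / τ) * |Δ| = |g| - |Δ| / τ := by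
          rw [hr]; field_simp
        rw [h6] at h5
        linarith only [h1, h5]
      rcases le_total 0 (p / Δ - (t - t₀)) with h | h
      · rw [abs_of_nonneg h] at h3 h4
        left; constructor <;> linarith
      · rw [abs_of_nonpos h] at h3 h4
        right; constructor <;> linarith
    refine (measure_mono hsub).trans ((measure_union_le _ _).trans ?_)
    refine (add_le_add (hν.2 _ _) (hν.2 _ _)).trans (le_of_eq ?_)
    have hρ := hν.1
    rw [← ENNReal.ofReal_add]
    · congr 1; ring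
    · have : t₀ + p / Δ - r + 1 / τ - (t₀ + p / Δ - r) = 1 / τ := by ring
      rw [this]; positivity
    · have : t₀ + p / Δ + r - (t₀ + p / Δ + r - 1 / τ) = 1 / τ := by ring
      rw [this]; positivity
  have hρ := hν.1
  calc _ ≤ (ν.prod ν) ((S1 ∪ S2) ∪ (Set.univ ×ˢ T)) := measure_mono hcov
    _ ≤ (ν.prod ν) S1 + (ν.prod ν) S2 + (ν.prod ν) (Set.univ ×ˢ T) :=
        (measure_union_le _ _).trans (add_le_add_left (measure_union_le _ _) _)
    _ ≤ ENNReal.ofReal (ρ * (2 / τ)) + ENNReal.ofReal (ρ * (2 / τ)) +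
        ENNReal.ofReal (ρ * (2 / τ)) := add_le_add (add_le_add b1 b2) b3
    _ = _ := by
        rw [← ENNReal.ofReal_add (by positivity) (by positivity),
          ← ENNReal.ofReal_add (by positivity) (by positivity)]
        congr 1; ring

/-- From a weak type bound to the integral of the square root, also on a small event. -/
theorem weak_sqrt {α : Type*} [MeasurableSpace α] {m : Measure α} {f : α → ℝ}
    (hf : Measurable f) {B : Set α} {c : ℝ} (hc : 0 ≤ c)
    (h : ∀ τ : ℝ, 0 < τ → m {a | τ < |f a|} ≤ ENNReal.ofReal (c / τ)) {a : ℝ} (ha : 0 < a) :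
    ∫⁻ x in B, ENNReal.ofReal (√|f x|) ∂m ≤ ENNReal.ofReal a * m B + ENNReal.ofReal (c / a) := by
  rw [lintegral_eq_lintegral_meas_lt _ (Filter.Eventually.of_forall fun x => Real.sqrt_nonneg _)
    (by fun_prop)]
  have hsplit : Set.Ioi (0 : ℝ) = Set.Ioc 0 a ∪ Set.Ioi a := (Set.Ioc_union_Ioi_eq_Ioi ha.le).symm
  rw [hsplit]
  refine (lintegral_union_le _ _ _).trans (add_le_add ?_ ?_)
  · calc _ ≤ ∫⁻ _ in Set.Ioc (0:ℝ) a, m B := by
          apply lintegral_mono
          intro t
          refine (measure_mono (Set.subset_univ _)).trans (le_of_eq ?_)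
          rw [Measure.restrict_apply MeasurableSet.univ, Set.univ_inter]
      _ = _ := by
          rw [setLIntegral_const, Real.volume_Ioc, sub_zero, mul_comm]
  · have h1 : ∀ t ∈ Set.Ioi a, (m.restrict B) {x | t < √|f x|} ≤ ENNReal.ofReal (c * t ^ (-2 : ℝ)) := by
      intro t ht
      have ht0 : 0 < t := ha.trans ht
      refine (Measure.restrict_apply_le _ _).trans ?_
      have h2 : {x | t < √|f x|} ⊆ {x | t ^ 2 < |f x|} := by
        intro x hx
        simp only [Set.mem_ofPred_eq] at hx ⊢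
        exact (Real.lt_sqrt ht0.le).1 hx
      refine (measure_mono h2).trans ((h _ (by positivity)).trans (le_of_eq ?_))
      congr 1
      rw [Real.rpow_neg ht0.le]
      norm_cast
    calc _ ≤ ∫⁻ t in Set.Ioi a, ENNReal.ofReal (c * t ^ (-2 : ℝ)) :=
          setLIntegral_mono (by fun_prop) h1
      _ = ENNReal.ofReal (∫ t in Set.Ioi a, c * t ^ (-2 : ℝ)) := by
          rw [ofReal_integral_eq_lintegral_ofReal]
          · exact (integrableOn_Ioi_rpow_of_lt (by norm_num) ha).const_mul c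
          · filter_upwards [ae_restrict_mem measurableSet_Ioi] with t ht
            have ht0 : 0 < t := ha.trans ht
            positivity
      _ ≤ _ := by
          rw [integral_const_mul, integral_Ioi_rpow_of_lt (by norm_num) ha]
          apply le_of_eq
          congr 1
          rw [show ((-2:ℝ) + 1) = -1 by norm_num, Real.rpow_neg_one]
          field_simp

end Scalar

end Pool.Agent.Loc
end
end -- Pool.Agent.Helper48_Loc.Apriori

section -- Pool.Agent.Helper48_Loc.Apriori2

/-!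
# The a-priori bound for the finite-volume Green function
-/

set_option autoImplicit false
set_option linter.unusedSectionVars false

open MeasureTheory ProbabilityTheory Function

open scoped ENNReal BigOperators

noncomputable section

namespace Pool.Agent.Loc

open Pool.Agent.Anderson

variable {d : ℕ}

theorem continuous_RM (Λ : Finset (Site d)) (E : ℝ) : Continuous fun V : Site d → ℝ => RM V Λ E := by
  apply continuous_matrix
  intro x y
  simp only [RM, HM, Matrix.sub_apply, Matrix.smul_apply, Matrix.of_apply, smul_eq_mul]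
  by_cases h : x = y
  · simp only [h, if_true]
    fun_prop
  · simp only [h, if_false]
    fun_prop

theorem continuous_det (Λ : Finset (Site d)) (E : ℝ) :
    Continuous fun V : Site d → ℝ => (RM V Λ E).det := (continuous_RM Λ E).matrix_det

theorem gr_eq {V : Site d → ℝ} {Λ : Finset (Site d)} {E : ℝ} {x y : Site d} (hx : x ∈ Λ)
    (hy : y ∈ Λ) : gr V Λ E x y = (RM V Λ E)⁻¹ ⟨x, hx⟩ ⟨y, hy⟩ := by
  unfold gr
  rw [dif_pos ⟨hx, hy⟩]

theorem gr_eq_adj {V : Site d → ℝ} {Λ : Finset (Site d)} {E : ℝ} {x y : Site d} (hx : x ∈ Λ)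
    (hy : y ∈ Λ) : gr V Λ E x y = ((RM V Λ E).det)⁻¹ * (RM V Λ E).adjugate ⟨x, hx⟩ ⟨y, hy⟩ := by
  rw [gr_eq hx hy, Matrix.inv_def, Matrix.smul_apply, Ring.inverse_eq_inv', smul_eq_mul]

theorem measurable_gr (Λ : Finset (Site d)) (E : ℝ) (x y : Site d) :
    Measurable fun V : Site d → ℝ => gr V Λ E x y := by
  by_cases h : x ∈ Λ ∧ y ∈ Λ
  · simp_rw [gr_eq_adj h.1 h.2]
    apply Measurable.mul
    · exact (continuous_det Λ E).measurable.inv
    · have h1 : Continuous fun V : Site d → ℝ => (RM V Λ E).adjugate :=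
        (continuous_RM Λ E).matrix_adjugate
      exact (h1.matrix_elem _ _).measurable
  · have : (fun V : Site d → ℝ => gr V Λ E x y) = fun _ => 0 := by
      funext V
      unfold gr
      rw [dif_neg h]
    rw [this]
    exact measurable_const

theorem gr_ne_zero {V : Site d → ℝ} {Λ : Finset (Site d)} {E : ℝ} {x y : Site d}
    (h : gr V Λ E x y ≠ 0) : x ∈ Λ ∧ y ∈ Λ ∧ (RM V Λ E).det ≠ 0 := by
  by_cases hxy : x ∈ Λ ∧ y ∈ Λ
  · refine ⟨hxy.1, hxy.2, ?_⟩
    intro hdet
    apply h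
    rw [gr_eq_adj hxy.1 hxy.2, hdet, inv_zero, zero_mul]
  · exact absurd (by unfold gr; rw [dif_neg hxy]) h

/-- resolvent identity for two potentials -/
theorem gr_perturb {V V' : Site d → ℝ} {Λ : Finset (Site d)} {E : ℝ}
    (h : (RM V Λ E).det ≠ 0) (h' : (RM V' Λ E).det ≠ 0) {x y : Site d} (hx : x ∈ Λ)
    (hy : y ∈ Λ) :
    gr V Λ E x y = gr V' Λ E x y -
      ∑ z ∈ Λ, gr V Λ E x z * (V' z - V z) * gr V' Λ E z y := by
  have e1 : (RM V Λ E)⁻¹ * RM V Λ E = 1 := Matrix.nonsing_inv_mul _ (isUnit_iff_ne_zero.2 h)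
  have e2 : RM V' Λ E * (RM V' Λ E)⁻¹ = 1 := Matrix.mul_nonsing_inv _ (isUnit_iff_ne_zero.2 h')
  have e3 : RM V Λ E - RM V' Λ E = Matrix.diagonal fun z : Λ => V' z - V z := by
    ext a b
    simp only [RM, HM, Matrix.sub_apply, Matrix.smul_apply, Matrix.of_apply, Matrix.diagonal_apply]
    by_cases hab : a = b
    · subst hab; simp
    · simp [hab]
  have e4 : (RM V' Λ E)⁻¹ - (RM V Λ E)⁻¹ =
      (RM V Λ E)⁻¹ * (Matrix.diagonal fun z : Λ => V' z - V z) * (RM V' Λ E)⁻¹ := by
    rw [← e3, mul_sub, sub_mul, e1, one_mul, mul_assoc, e2, mul_one]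
  have e5 := congrFun (congrFun e4 ⟨x, hx⟩) ⟨y, hy⟩
  rw [Matrix.sub_apply, ← gr_eq hx hy, ← gr_eq hx hy] at e5
  have e6 : ((RM V Λ E)⁻¹ * (Matrix.diagonal fun z : Λ => V' z - V z) * (RM V' Λ E)⁻¹)
      ⟨x, hx⟩ ⟨y, hy⟩ = ∑ z ∈ Λ, gr V Λ E x z * (V' z - V z) * gr V' Λ E z y := by
    rw [Matrix.mul_apply, ← Finset.sum_coe_sort Λ
      (fun z => gr V Λ E x z * (V' z - V z) * gr V' Λ E z y)]
    apply Finset.sum_congr rfl
    intro z _
    rw [Matrix.mul_diagonal, gr_eq hx z.2, gr_eq z.2 hy]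
  rw [e6] at e5
  linarith

section Two

variable {ν : Measure ℝ} [IsProbabilityMeasure ν] {ρ : ℝ}

theorem two_site_gr (hν : BddDens ν ρ) (V : Site d → ℝ) (Λ : Finset (Site d)) (E : ℝ)
    {x y : Site d} (hxy : x ≠ y) {τ : ℝ} (hτ : 0 < τ) :
    (ν.prod ν) {z : ℝ × ℝ | τ < |gr (update (update V x z.1) y z.2) Λ E x y|} ≤
      ENNReal.ofReal (6 * ρ / τ) := by
  by_cases hall : ∀ z : ℝ × ℝ, gr (update (update V x z.1) y z.2) Λ E x y = 0
  · have : {z : ℝ × ℝ | τ < |gr (update (update V x z.1) y z.2) Λ E x y|} = ∅ := by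
      ext z
      simp only [Set.mem_ofPred_eq, Set.mem_empty_iff_false, iff_false, not_lt]
      rw [hall z, abs_zero]
      exact hτ.le
    rw [this, measure_empty]
    exact zero_le
  push Not at hall
  obtain ⟨z₀, hz₀⟩ := hall
  obtain ⟨hx, hy, hdet0⟩ := gr_ne_zero hz₀
  set V₀ := update (update V x z₀.1) y z₀.2 with hV₀
  refine (measure_mono ?_) |>.trans (two_site hν (p := gr V₀ Λ E x x) (q := gr V₀ Λ E y y)
    (g := gr V₀ Λ E x y) (s₀ := z₀.1) (t₀ := z₀.2) hz₀ hτ)
  intro z hz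
  simp only [Set.mem_ofPred_eq] at hz ⊢
  set V' := update (update V x z.1) y z.2 with hV'
  have hne : gr V' Λ E x y ≠ 0 := by
    intro h0
    rw [h0, abs_zero] at hz
    linarith
  obtain ⟨_, _, hdet'⟩ := gr_ne_zero hne
  have hV : ∀ w : Site d, V' w - V₀ w = (if w = x then z.1 - z₀.1 else 0) +
      (if w = y then z.2 - z₀.2 else 0) := by
    intro w
    rw [hV', hV₀]
    by_cases h1 : w = y
    · subst h1; simp [hxy.symm]
    · by_cases h2 : w = x
      · subst h2; simp [h1]
      · simp [h1, h2]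
  have key : ∀ a ∈ Λ, ∑ w ∈ Λ, gr V₀ Λ E a w * (V' w - V₀ w) * gr V' Λ E w y =
      (z.1 - z₀.1) * gr V₀ Λ E a x * gr V' Λ E x y +
        (z.2 - z₀.2) * gr V₀ Λ E a y * gr V' Λ E y y := by
    intro a _
    simp_rw [hV, mul_add, add_mul, mul_ite, mul_zero, ite_mul, zero_mul]
    rw [Finset.sum_add_distrib, Finset.sum_ite_eq', Finset.sum_ite_eq', if_pos hx, if_pos hy]
    ring
  have e1 := gr_perturb hdet0 hdet' hx hy
  have e2 := gr_perturb hdet0 hdet' hy hy
  rw [key x hx] at e1
  rw [key y hy] at e2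
  have hsym : gr V₀ Λ E y x = gr V₀ Λ E x y := gr_symm _ _ _ _ _
  rw [hsym] at e2
  set p := gr V₀ Λ E x x
  set q := gr V₀ Λ E y y
  set g := gr V₀ Λ E x y
  set s := z.1 - z₀.1
  set t := z.2 - z₀.2
  have e3 : gr V' Λ E x y * D2 p q g s t = g := by
    simp only [D2]
    linear_combination (-(1 - t * q)) * e1 - t * g * e2
  calc τ * |D2 p q g s t| ≤ |gr V' Λ E x y| * |D2 p q g s t| :=
        mul_le_mul_of_nonneg_right hz.le (abs_nonneg _)
    _ = |g| := by rw [← abs_mul, e3]

theorem one_site_gr (hν : BddDens ν ρ) (V : Site d → ℝ) (Λ : Finset (Site d)) (E : ℝ)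
    {x : Site d} {τ : ℝ} (hτ : 0 < τ) :
    ν {z : ℝ | τ < |gr (update V x z) Λ E x x|} ≤ ENNReal.ofReal (6 * ρ / τ) := by
  by_cases hall : ∀ z : ℝ, gr (update V x z) Λ E x x = 0
  · have : {z : ℝ | τ < |gr (update V x z) Λ E x x|} = ∅ := by
      ext z
      simp only [Set.mem_ofPred_eq, Set.mem_empty_iff_false, iff_false, not_lt]
      rw [hall z, abs_zero]
      exact hτ.le
    rw [this, measure_empty]
    exact zero_le
  push Not at hall
  obtain ⟨z₀, hz₀⟩ := hall
  obtain ⟨hx, _, hdet0⟩ := gr_ne_zero hz₀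
  set V₀ := update V x z₀ with hV₀
  have hρ := hν.1
  refine (measure_mono ?_) |>.trans ((section_bound hν (a := 1) (c := gr V₀ Λ E x x)
    (g := gr V₀ Λ E x x) (s₀ := z₀) hz₀ le_rfl hτ).trans (ENNReal.ofReal_le_ofReal ?_))
  · intro z hz
    simp only [Set.mem_ofPred_eq] at hz ⊢
    set V' := update V x z with hV'
    have hne : gr V' Λ E x x ≠ 0 := by
      intro h0
      rw [h0, abs_zero] at hz
      linarith
    obtain ⟨_, _, hdet'⟩ := gr_ne_zero hne
    have hV : ∀ w : Site d, V' w - V₀ w = (if w = x then z - z₀ else 0) := by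
      intro w
      rw [hV', hV₀]
      by_cases h2 : w = x
      · subst h2; simp
      · simp [h2]
    have e1 := gr_perturb hdet0 hdet' hx hx
    simp_rw [hV, mul_ite, mul_zero, ite_mul, zero_mul] at e1
    rw [Finset.sum_ite_eq', if_pos hx] at e1
    have e3 : gr V' Λ E x x * (1 - (z - z₀) * gr V₀ Λ E x x) = gr V₀ Λ E x x := by
      linear_combination (-1) * e1
    calc τ * |1 - (z - z₀) * gr V₀ Λ E x x| ≤
          |gr V' Λ E x x| * |1 - (z - z₀) * gr V₀ Λ E x x| :=
          mul_le_mul_of_nonneg_right hz.le (abs_nonneg _)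
      _ = |gr V₀ Λ E x x| := by rw [← abs_mul, e3]
  · rw [← mul_div_assoc]
    apply div_le_div_of_nonneg_right _ hτ.le
    linarith

/-- The a-priori weak bound, conditionally on all sites but `x` and `y`. -/
theorem marg_weak (hν : BddDens ν ρ) (V : Site d → ℝ) (Λ : Finset (Site d)) (E : ℝ)
    (x y : Site d) {τ : ℝ} (hτ : 0 < τ) :
    (∫⋯∫⁻_{x, y}, Set.indicator {V | τ < |gr V Λ E x y|} 1 ∂(fun _ => ν)) V ≤
      ENNReal.ofReal (6 * ρ / τ) := by
  have hS : MeasurableSet {V : Site d → ℝ | τ < |gr V Λ E x y|} :=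
    measurableSet_lt measurable_const (measurable_gr Λ E x y).abs
  have hm : Measurable (Set.indicator {V : Site d → ℝ | τ < |gr V Λ E x y|} (1 : (Site d → ℝ) → ℝ≥0∞)) :=
    measurable_one.indicator hS
  by_cases hxy : x = y
  · subst hxy
    rw [Finset.insert_eq_of_mem (Finset.mem_singleton_self x), lmarginal_singleton]
    have : ∀ z : ℝ, Set.indicator {V : Site d → ℝ | τ < |gr V Λ E x x|} (1 : (Site d → ℝ) → ℝ≥0∞)
        (update V x z) = Set.indicator {z : ℝ | τ < |gr (update V x z) Λ E x x|} 1 z := by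
      intro z; rfl
    simp_rw [this]
    rw [lintegral_indicator_one]
    · exact one_site_gr hν V Λ E hτ
    · exact (measurable_update V) hS
  · have hmem : x ∉ ({y} : Finset (Site d)) := by simpa using hxy
    rw [lmarginal_insert _ hm hmem, lmarginal_singleton]
    have hu : Measurable fun z : ℝ × ℝ => update (update V x z.1) y z.2 := by
      rw [measurable_pi_iff]
      intro w
      by_cases h1 : w = y
      · subst h1; simp only [update_self]; exact measurable_snd
      · simp only [update_of_ne h1]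
        by_cases h2 : w = x
        · subst h2; simp only [update_self]; exact measurable_fst
        · simp only [update_of_ne h2]; exact measurable_const
    have : ∀ s t : ℝ, Set.indicator {V : Site d → ℝ | τ < |gr V Λ E x y|} (1 : (Site d → ℝ) → ℝ≥0∞)
        (update (update V x s) y t) =
        Set.indicator {z : ℝ × ℝ | τ < |gr (update (update V x z.1) y z.2) Λ E x y|} 1 (s, t) := by
      intro s t; rfl
    simp_rw [this]
    rw [← lintegral_prod, lintegral_indicator_one]
    · exact two_site_gr hν V Λ E hxy hτ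
    · exact hu hS
    · exact (measurable_one.indicator (hu hS)).aemeasurable

/-- The a-priori fractional moment bound, conditionally on all sites but `x` and `y`. -/
theorem marg_sqrt (hν : BddDens ν ρ) (V : Site d → ℝ) (Λ : Finset (Site d)) (E : ℝ)
    (x y : Site d) :
    (∫⋯∫⁻_{x, y}, (fun V => ENNReal.ofReal (√|gr V Λ E x y|)) ∂(fun _ => ν)) V ≤
      ENNReal.ofReal (2 * √(6 * ρ)) := by
  have hρ := hν.1
  set m : Measure (Site d → ℝ) := (Measure.pi fun _ : ({x, y} : Finset (Site d)) => ν).map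
    (updateFinset V {x, y}) with hm
  have hmu : Measurable (updateFinset V ({x, y} : Finset (Site d))) := measurable_updateFinset
  have hint : ∀ f : (Site d → ℝ) → ℝ≥0∞, Measurable f →
      ∫⁻ W, f W ∂m = (∫⋯∫⁻_{x, y}, f ∂(fun _ => ν)) V := by
    intro f hf
    rw [hm, lintegral_map hf hmu]
    rfl
  have hprob : IsProbabilityMeasure m := Measure.isProbabilityMeasure_map hmu.aemeasurable
  have hgm := measurable_gr Λ E x y
  have hweak : ∀ τ : ℝ, 0 < τ → m {W | τ < |gr W Λ E x y|} ≤ ENNReal.ofReal (6 * ρ / τ) := by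
    intro τ hτ
    have hS : MeasurableSet {V : Site d → ℝ | τ < |gr V Λ E x y|} :=
      measurableSet_lt measurable_const hgm.abs
    rw [← lintegral_indicator_one hS, hint _ (measurable_one.indicator hS)]
    exact marg_weak hν V Λ E x y hτ
  have h1 := weak_sqrt hgm (B := Set.univ) (c := 6 * ρ) (by positivity) hweak
    (a := √(6 * ρ)) (by positivity)
  rw [Measure.restrict_univ, hint _ (by fun_prop), measure_univ, mul_one] at h1
  refine h1.trans ?_
  rw [← ENNReal.ofReal_add (by positivity) (by positivity)]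
  apply le_of_eq
  congr 1
  have h2 : 6 * ρ / √(6 * ρ) = √(6 * ρ) := by
    rw [div_eq_iff (by positivity)]
    exact (Real.mul_self_sqrt (by positivity)).symm
  rw [h2]; ring

end Two

end Pool.Agent.Loc
end
end -- Pool.Agent.Helper48_Loc.Apriori2

section -- Pool.Agent.Helper48_Loc.Null

/-!
# Almost sure invertibility, and the measure `PL` of finitely many random sites
-/

set_option autoImplicit false
set_option linter.unusedSectionVars false

open MeasureTheory ProbabilityTheory Function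

open scoped ENNReal BigOperators

noncomputable section

namespace Pool.Agent.Loc

open Pool.Agent.Anderson

variable {d : ℕ} {ν : Measure ℝ} [IsProbabilityMeasure ν] {ρ : ℝ}

/-- the law of the potential in the finite set `Λ` (and `0` elsewhere) -/
def PL (ν : Measure ℝ) (Λ : Finset (Site d)) : Measure (Site d → ℝ) :=
  (Measure.pi fun _ : Λ => ν).map (updateFinset (0 : Site d → ℝ) Λ)

theorem lintegral_PL (Λ : Finset (Site d)) {f : (Site d → ℝ) → ℝ≥0∞} (hf : Measurable f) :
    ∫⁻ V, f V ∂(PL ν Λ) = (∫⋯∫⁻_Λ, f ∂(fun _ => ν)) 0 := by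
  unfold PL
  rw [lintegral_map hf measurable_updateFinset]
  rfl

instance (Λ : Finset (Site d)) : IsProbabilityMeasure (PL ν Λ) :=
  Measure.isProbabilityMeasure_map measurable_updateFinset.aemeasurable

theorem PL_apply (Λ : Finset (Site d)) {S : Set (Site d → ℝ)} (hS : MeasurableSet S) :
    PL ν Λ S = (∫⋯∫⁻_Λ, S.indicator 1 ∂(fun _ => ν)) 0 := by
  rw [← lintegral_indicator_one hS, lintegral_PL Λ (measurable_one.indicator hS)]

theorem RM_congr {V V' : Site d → ℝ} {Λ : Finset (Site d)} (h : ∀ x ∈ Λ, V x = V' x) (E : ℝ) :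
    RM V Λ E = RM V' Λ E := by
  ext x y
  simp only [RM, HM, Matrix.sub_apply, Matrix.smul_apply, Matrix.of_apply]
  rw [h x x.2]

theorem gr_congr {V V' : Site d → ℝ} {Λ : Finset (Site d)} (h : ∀ x ∈ Λ, V x = V' x) (E : ℝ)
    (x y : Site d) : gr V Λ E x y = gr V' Λ E x y := by
  unfold gr
  rw [RM_congr h]

theorem only_indicator {A : Finset (Site d)} {S : Set (Site d → ℝ)}
    (h : ∀ V V' : Site d → ℝ, (∀ x ∈ A, V x = V' x) → (V ∈ S ↔ V' ∈ S)) :
    Only (S.indicator 1) A := by
  intro V V' hVV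
  by_cases hV : V ∈ S
  · rw [Set.indicator_of_mem hV, Set.indicator_of_mem ((h V V' hVV).1 hV)]
    rfl
  · rw [Set.indicator_of_notMem hV, Set.indicator_of_notMem (fun h' => hV ((h V V' hVV).2 h'))]

/-- Conditional to unconditional. -/
theorem PL_le_of_marg {Λ S : Finset (Site d)} (hS : S ⊆ Λ) {f : (Site d → ℝ) → ℝ≥0∞}
    (hf : Measurable f) {c : ℝ≥0∞} (h : ∀ V, (∫⋯∫⁻_S, f ∂(fun _ => ν)) V ≤ c) :
    ∫⁻ V, f V ∂(PL ν Λ) ≤ c := by
  rw [lintegral_PL Λ hf, ← Finset.sdiff_union_of_subset hS,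
    lmarginal_union _ f hf Finset.sdiff_disjoint]
  exact marg_le_const h 0

theorem PL_weak (hν : BddDens ν ρ) (Λ : Finset (Site d)) (E : ℝ) (x y : Site d) {τ : ℝ}
    (hτ : 0 < τ) : PL ν Λ {V | τ < |gr V Λ E x y|} ≤ ENNReal.ofReal (6 * ρ / τ) := by
  have hρ := hν.1
  by_cases hxy : x ∈ Λ ∧ y ∈ Λ
  · have hS : MeasurableSet {V : Site d → ℝ | τ < |gr V Λ E x y|} :=
      measurableSet_lt measurable_const (measurable_gr Λ E x y).abs
    rw [← lintegral_indicator_one hS]
    apply PL_le_of_marg (S := {x, y})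
    · intro z hz
      simp only [Finset.mem_insert, Finset.mem_singleton] at hz
      rcases hz with rfl | rfl
      · exact hxy.1
      · exact hxy.2
    · exact measurable_one.indicator hS
    · intro V
      exact marg_weak hν V Λ E x y hτ
  · have : {V : Site d → ℝ | τ < |gr V Λ E x y|} = ∅ := by
      ext V
      simp only [Set.mem_ofPred_eq, Set.mem_empty_iff_false, iff_false, not_lt]
      unfold gr
      rw [dif_neg hxy, abs_zero]
      exact hτ.le
    rw [this, measure_empty]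
    exact zero_le

/-- fractional moment on an event -/
theorem PL_sqrt_event (hν : BddDens ν ρ) (Λ : Finset (Site d)) (E : ℝ) (x y : Site d)
    (B : Set (Site d → ℝ)) {a : ℝ} (ha : 0 < a) :
    ∫⁻ V in B, ENNReal.ofReal (√|gr V Λ E x y|) ∂(PL ν Λ) ≤
      ENNReal.ofReal a * PL ν Λ B + ENNReal.ofReal (6 * ρ / a) := by
  have hρ := hν.1
  exact weak_sqrt (measurable_gr Λ E x y) (by positivity) (fun τ hτ => PL_weak hν Λ E x y hτ) ha

theorem PL_sqrt (hν : BddDens ν ρ) (Λ : Finset (Site d)) (E : ℝ) (x y : Site d) :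
    ∫⁻ V, ENNReal.ofReal (√|gr V Λ E x y|) ∂(PL ν Λ) ≤ ENNReal.ofReal (2 * √(6 * ρ)) := by
  have hρ := hν.1
  have h := PL_sqrt_event hν Λ E x y Set.univ (a := √(6 * ρ)) (by positivity)
  rw [Measure.restrict_univ, measure_univ, mul_one,
    ← ENNReal.ofReal_add (by positivity) (by positivity)] at h
  refine h.trans (le_of_eq ?_)
  congr 1
  have h2 : 6 * ρ / √(6 * ρ) = √(6 * ρ) := by
    rw [div_eq_iff (by positivity)]
    exact (Real.mul_self_sqrt (by positivity)).symm
  rw [h2]; ring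

/-! ### the determinant vanishes with probability zero -/

/-- interpolation between `-1` and `RM V Λ E`, row by row -/
def NM (V : Site d → ℝ) (Λ : Finset (Site d)) (E : ℝ) (S : Finset (Site d)) : Matrix Λ Λ ℝ :=
  Matrix.of fun x y => if (x : Site d) ∈ S then RM V Λ E x y else -(1 : Matrix Λ Λ ℝ) x y

theorem NM_empty (V : Site d → ℝ) (Λ : Finset (Site d)) (E : ℝ) : NM V Λ E ∅ = -1 := by
  ext x y
  simp [NM]

theorem NM_self (V : Site d → ℝ) (Λ : Finset (Site d)) (E : ℝ) : NM V Λ E Λ = RM V Λ E := by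
  ext x y
  simp [NM]

theorem continuous_NM (Λ : Finset (Site d)) (E : ℝ) (S : Finset (Site d)) :
    Continuous fun V : Site d → ℝ => NM V Λ E S := by
  apply continuous_matrix
  intro x y
  simp only [NM, Matrix.of_apply]
  by_cases h : (x : Site d) ∈ S
  · simp only [h, if_true]
    exact (continuous_RM Λ E).matrix_elem _ _
  · simp only [h, if_false]
    fun_prop

theorem det_NM_insert (V : Site d → ℝ) (Λ : Finset (Site d)) (E : ℝ) {S : Finset (Site d)}
    {i : Site d} (hi : i ∉ S) (hiΛ : i ∈ Λ) (v : ℝ) :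
    (NM (update V i v) Λ E (insert i S)).det =
      (NM (update V i 0) Λ E (insert i S)).det + v * (NM V Λ E S).det := by
  set N := NM V Λ E S with hN
  set i' : Λ := ⟨i, hiΛ⟩ with hi'
  have key : ∀ v : ℝ, NM (update V i v) Λ E (insert i S) =
      Matrix.updateRow N i' (RM (update V i 0) Λ E i' + v • N i') := by
    intro v
    ext x y
    by_cases hx : x = i'
    · subst hx
      rw [Matrix.updateRow_self]
      simp only [NM, hN, RM, HM, Matrix.of_apply, Matrix.sub_apply, Matrix.smul_apply, hi',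
        Finset.mem_insert, true_or, if_true, update_self, Pi.add_apply, Pi.smul_apply, hi,
        if_false, smul_eq_mul, Matrix.one_apply]
      by_cases hy : (⟨i, hiΛ⟩ : Λ) = y
      · simp [hy]; ring
      · simp [hy]
    · rw [Matrix.updateRow_ne hx]
      have hx' : (x : Site d) ≠ i := fun h => hx (Subtype.ext h)
      simp only [NM, hN, RM, HM, Matrix.of_apply, Matrix.sub_apply, Matrix.smul_apply,
        Finset.mem_insert, hx', false_or, update_of_ne hx']
  have key0 := key 0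
  rw [zero_smul, add_zero] at key0
  rw [key v, key0, Matrix.det_updateRow_add, Matrix.det_updateRow_smul]
  congr 2
  rw [Matrix.updateRow_eq_self]

theorem NM_update (V : Site d → ℝ) (Λ : Finset (Site d)) (E : ℝ) {S : Finset (Site d)}
    {i : Site d} (hi : i ∉ S) (v : ℝ) : NM (update V i v) Λ E S = NM V Λ E S := by
  ext x y
  simp only [NM, RM, HM, Matrix.of_apply, Matrix.sub_apply, Matrix.smul_apply]
  by_cases hx : (x : Site d) ∈ S
  · have hx' : (x : Site d) ≠ i := by rintro rfl; exact hi hx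
    simp [hx, update_of_ne hx']
  · simp [hx]

theorem PL_det_NM (hν : BddDens ν ρ) (Λ : Finset (Site d)) (E : ℝ) (S : Finset (Site d))
    (hS : S ⊆ Λ) : PL ν Λ {V | (NM V Λ E S).det = 0} = 0 := by
  induction S using Finset.induction with
  | empty =>
    have : {V : Site d → ℝ | (NM V Λ E ∅).det = 0} = ∅ := by
      ext V
      simp only [Set.mem_ofPred_eq, Set.mem_empty_iff_false, iff_false]
      rw [NM_empty, Matrix.det_neg, Matrix.det_one, mul_one]
      exact pow_ne_zero _ (by norm_num)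
    rw [this, measure_empty]
  | insert i S hi ih =>
    have hiΛ : i ∈ Λ := hS (Finset.mem_insert_self i S)
    have ih' := ih ((Finset.subset_insert i S).trans hS)
    have hc1 : Continuous fun V : Site d → ℝ => (NM V Λ E (insert i S)).det :=
      (continuous_NM Λ E _).matrix_det
    have hc2 : Continuous fun V : Site d → ℝ => (NM V Λ E S).det :=
      (continuous_NM Λ E _).matrix_det
    have hm1 : MeasurableSet {V : Site d → ℝ | (NM V Λ E (insert i S)).det = 0} :=
      (isClosed_singleton.preimage hc1).measurableSet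
    have hm2 : MeasurableSet {V : Site d → ℝ | (NM V Λ E S).det = 0} :=
      (isClosed_singleton.preimage hc2).measurableSet
    set T : Set (Site d → ℝ) := {V | (NM V Λ E (insert i S)).det = 0} \
      {V | (NM V Λ E S).det = 0} with hT
    have hmT : MeasurableSet T := hm1.diff hm2
    have hsub : {V : Site d → ℝ | (NM V Λ E (insert i S)).det = 0} ⊆
        {V | (NM V Λ E S).det = 0} ∪ T := by
      intro V hV
      by_cases h : V ∈ {V : Site d → ℝ | (NM V Λ E S).det = 0}
      · exact Or.inl h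
      · exact Or.inr ⟨hV, h⟩
    apply measure_mono_null hsub
    rw [measure_union_null_iff]
    refine ⟨ih', ?_⟩
    rw [← lintegral_indicator_one hmT]
    apply le_antisymm _ zero_le
    apply PL_le_of_marg (S := {i}) (by simpa using hiΛ) (measurable_one.indicator hmT)
    intro V
    rw [lmarginal_singleton]
    have h1 : ∀ z : ℝ, T.indicator (1 : (Site d → ℝ) → ℝ≥0∞) (update V i z) =
        Set.indicator {z : ℝ | update V i z ∈ T} 1 z := fun z => rfl
    simp_rw [h1]
    have hmz : MeasurableSet {z : ℝ | update V i z ∈ T} := (measurable_update V) hmT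
    rw [lintegral_indicator_one hmz]
    set c := (NM (update V i 0) Λ E (insert i S)).det with hc
    set e := (NM V Λ E S).det with he
    have hsub2 : {z : ℝ | update V i z ∈ T} ⊆ Set.Icc (-c / e) (-c / e) := by
      intro z hz
      rw [Set.mem_ofPred_eq, hT] at hz
      obtain ⟨hz1, hz2⟩ := hz
      rw [Set.mem_ofPred_eq, NM_update V Λ E hi] at hz2
      rw [Set.mem_ofPred_eq, det_NM_insert V Λ E hi hiΛ] at hz1
      have : z = -c / e := by
        rw [eq_div_iff hz2]
        linarith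
      rw [this]
      exact ⟨le_rfl, le_rfl⟩
    refine (measure_mono hsub2).trans ((hν.2 _ _).trans ?_)
    simp

theorem PL_det (hν : BddDens ν ρ) (Λ Λ' : Finset (Site d)) (hΛ : Λ ⊆ Λ') (E : ℝ) :
    PL ν Λ' {V | (RM V Λ E).det = 0} = 0 := by
  have h1 : PL ν Λ {V | (RM V Λ E).det = 0} = 0 := by
    have := PL_det_NM hν Λ E Λ le_rfl
    simp_rw [NM_self] at this
    exact this
  have hm : MeasurableSet {V : Site d → ℝ | (RM V Λ E).det = 0} :=
    (isClosed_singleton.preimage (continuous_det Λ E)).measurableSet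
  rw [PL_apply _ hm] at h1 ⊢
  rw [marg_subset (measurable_one.indicator hm) _ hΛ, h1]
  exact only_indicator fun V V' hVV => by
    rw [Set.mem_ofPred_eq, Set.mem_ofPred_eq, RM_congr hVV]

end Pool.Agent.Loc
end
end -- Pool.Agent.Helper48_Loc.Null

section -- Pool.Agent.Helper48_Loc.Geom

/-!
# The geometric resolvent identity and the finite-volume criterion
-/

set_option autoImplicit false
set_option linter.unusedSectionVars false

open MeasureTheory ProbabilityTheory Function

open scoped ENNReal BigOperators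

noncomputable section

namespace Pool.Agent.Loc

open Pool.Agent.Anderson

variable {d : ℕ}

/-- matrix elements of `E - H` -/
def rm (V : Site d → ℝ) (E : ℝ) (x y : Site d) : ℝ := (if x = y then E - V x else 0) - hop x y

theorem RM_apply (V : Site d → ℝ) (Λ : Finset (Site d)) (E : ℝ) (x y : Λ) :
    RM V Λ E x y = rm V E x y := by
  simp only [RM, HM, Matrix.sub_apply, Matrix.smul_apply, Matrix.of_apply, rm, Matrix.one_apply]
  by_cases h : x = y
  · subst h; simp; ring
  · have h' : (x : Site d) ≠ y := fun h' => h (Subtype.ext h')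
    simp [h, h']

theorem gr_mul_rm {V : Site d → ℝ} {Λ : Finset (Site d)} {E : ℝ} (h : (RM V Λ E).det ≠ 0)
    {x y : Site d} (hx : x ∈ Λ) (hy : y ∈ Λ) :
    ∑ z ∈ Λ, gr V Λ E x z * rm V E z y = if x = y then 1 else 0 := by
  have e1 : (RM V Λ E)⁻¹ * RM V Λ E = 1 := Matrix.nonsing_inv_mul _ (isUnit_iff_ne_zero.2 h)
  have e2 := congrFun (congrFun e1 ⟨x, hx⟩) ⟨y, hy⟩
  rw [Matrix.mul_apply, Matrix.one_apply] at e2
  rw [← Finset.sum_coe_sort Λ (fun z => gr V Λ E x z * rm V E z y)]
  have e3 : ∀ z : Λ, gr V Λ E x z * rm V E z y = (RM V Λ E)⁻¹ ⟨x, hx⟩ z * RM V Λ E z ⟨y, hy⟩ := by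
    intro z
    rw [gr_eq hx z.2, RM_apply]
  simp_rw [e3, e2]
  simp [Subtype.ext_iff]

theorem rm_mul_gr {V : Site d → ℝ} {Λ : Finset (Site d)} {E : ℝ} (h : (RM V Λ E).det ≠ 0)
    {x y : Site d} (hx : x ∈ Λ) (hy : y ∈ Λ) :
    ∑ z ∈ Λ, rm V E x z * gr V Λ E z y = if x = y then 1 else 0 := by
  have e1 : RM V Λ E * (RM V Λ E)⁻¹ = 1 := Matrix.mul_nonsing_inv _ (isUnit_iff_ne_zero.2 h)
  have e2 := congrFun (congrFun e1 ⟨x, hx⟩) ⟨y, hy⟩
  rw [Matrix.mul_apply, Matrix.one_apply] at e2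
  rw [← Finset.sum_coe_sort Λ (fun z => rm V E x z * gr V Λ E z y)]
  have e3 : ∀ z : Λ, rm V E x z * gr V Λ E z y = RM V Λ E ⟨x, hx⟩ z * (RM V Λ E)⁻¹ z ⟨y, hy⟩ := by
    intro z
    rw [gr_eq z.2 hy, RM_apply]
  simp_rw [e3, e2]
  simp [Subtype.ext_iff]

/-- geometric resolvent identity -/
theorem geo1 {V : Site d → ℝ} {Λ A : Finset (Site d)} {E : ℝ} (hA : A ⊆ Λ)
    (h : (RM V Λ E).det ≠ 0) (hA' : (RM V A E).det ≠ 0) {x y : Site d} (hx : x ∈ A)
    (hy : y ∈ Λ \ A) :
    gr V Λ E x y = ∑ u ∈ A, ∑ u' ∈ Λ \ A, gr V A E x u * hop u u' * gr V Λ E u' y := by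
  rw [Finset.mem_sdiff] at hy
  have e1 : ∀ u ∈ A, ∑ z ∈ A, rm V E u z * gr V Λ E z y =
      ∑ u' ∈ Λ \ A, hop u u' * gr V Λ E u' y := by
    intro u hu
    have h1 := rm_mul_gr h (hA hu) hy.1
    have huy : u ≠ y := by rintro rfl; exact hy.2 hu
    rw [if_neg huy, ← Finset.sum_sdiff hA] at h1
    have h2 : ∑ z ∈ Λ \ A, rm V E u z * gr V Λ E z y =
        - ∑ u' ∈ Λ \ A, hop u u' * gr V Λ E u' y := by
      rw [← Finset.sum_neg_distrib]
      apply Finset.sum_congr rfl
      intro z hz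
      have huz : u ≠ z := by
        rintro rfl
        exact (Finset.mem_sdiff.1 hz).2 hu
      unfold rm
      rw [if_neg huz]
      ring
    rw [h2] at h1
    linarith
  have e2 : ∑ u ∈ A, gr V A E x u * ∑ z ∈ A, rm V E u z * gr V Λ E z y = gr V Λ E x y := by
    simp_rw [Finset.mul_sum]
    rw [Finset.sum_comm]
    have : ∀ z ∈ A, ∑ u ∈ A, gr V A E x u * (rm V E u z * gr V Λ E z y) =
        (if x = z then 1 else 0) * gr V Λ E z y := by
      intro z hz
      rw [← gr_mul_rm hA' hx hz, Finset.sum_mul]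
      apply Finset.sum_congr rfl
      intro u _
      ring
    rw [Finset.sum_congr rfl this]
    simp [hx]
  rw [← e2]
  apply Finset.sum_congr rfl
  intro u hu
  rw [e1 u hu, Finset.mul_sum]
  apply Finset.sum_congr rfl
  intro z _
  ring

theorem geo2 {V : Site d → ℝ} {Λ A : Finset (Site d)} {E : ℝ} (hA : A ⊆ Λ)
    (h : (RM V Λ E).det ≠ 0) (hA' : (RM V (Λ \ A) E).det ≠ 0) {x y : Site d} (hx : x ∈ A)
    (hy : y ∈ Λ \ A) :
    gr V Λ E x y = ∑ v ∈ A, ∑ v' ∈ Λ \ A, gr V Λ E x v * hop v v' * gr V (Λ \ A) E v' y := by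
  have hx' : x ∈ Λ \ (Λ \ A) := by
    rw [Finset.sdiff_sdiff_eq_self hA]; exact hx
  have h1 := geo1 (A := Λ \ A) Finset.sdiff_subset h hA' hy hx'
  rw [gr_symm, h1, Finset.sdiff_sdiff_eq_self hA, Finset.sum_comm]
  apply Finset.sum_congr rfl
  intro v _
  apply Finset.sum_congr rfl
  intro v' _
  rw [gr_symm V (Λ \ A) E y v', gr_symm V Λ E v x, hop_comm v' v]
  ring

/-- square root of the modulus of the Green function -/
def qg (Λ : Finset (Site d)) (E : ℝ) (x y : Site d) (V : Site d → ℝ) : ℝ≥0∞ :=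
  ENNReal.ofReal (√|gr V Λ E x y|)

theorem measurable_qg (Λ : Finset (Site d)) (E : ℝ) (x y : Site d) :
    Measurable (qg Λ E x y) := by
  unfold qg
  have := measurable_gr Λ E x y
  fun_prop

theorem only_qg (Λ : Finset (Site d)) (E : ℝ) (x y : Site d) : Only (qg Λ E x y) Λ := by
  intro V V' h
  unfold qg
  rw [gr_congr h]

theorem sqrt_abs_sum_le {ι : Type*} (s : Finset ι) (f : ι → ℝ) :
    √|∑ i ∈ s, f i| ≤ ∑ i ∈ s, √|f i| := by
  classical
  induction s using Finset.induction with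
  | empty => simp
  | insert a s ha ih =>
    rw [Finset.sum_insert ha, Finset.sum_insert ha]
    calc √|f a + ∑ i ∈ s, f i| ≤ √(|f a| + |∑ i ∈ s, f i|) := Real.sqrt_le_sqrt (abs_add_le _ _)
      _ ≤ √|f a| + √|∑ i ∈ s, f i| := by
          rw [Real.sqrt_le_left (by positivity)]
          have h1 := Real.sq_sqrt (abs_nonneg (f a))
          have h2 := Real.sq_sqrt (abs_nonneg (∑ i ∈ s, f i))
          have h3 : 0 ≤ √|f a| * √|∑ i ∈ s, f i| := by positivity
          nlinarith
      _ ≤ _ := by linarith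

/-- The pointwise inequality behind the finite-volume criterion. -/
theorem qg_step {V : Site d → ℝ} {Λ : Finset (Site d)} {E : ℝ} {L : ℕ} {x y : Site d}
    (hx : x ∈ Λ) (hy : y ∈ Λ) (hxy : L + 2 ≤ sd x y)
    (h1 : (RM V (Λ ∩ box x L) E).det ≠ 0) (h2 : (RM V (Λ \ (Λ ∩ box x (L + 1))) E).det ≠ 0) :
    qg Λ E x y V ≤ ENNReal.ofReal (2 * d) *
      ∑ u ∈ (Λ ∩ box x L).filter (fun u => sd x u = L),
        ∑ u' ∈ (Λ ∩ box x (L + 1)) \ (Λ ∩ box x L),
          ∑ v ∈ (Λ ∩ box x (L + 1)) \ (Λ ∩ box x L),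
            ∑ v' ∈ (Λ \ (Λ ∩ box x (L + 1))) ∩ box x (L + 2),
              qg (Λ ∩ box x L) E x u V * qg (Λ \ (Λ ∩ box x (L + 1))) E v' y V *
                qg Λ E u' v V := by
  by_cases hdet : (RM V Λ E).det = 0
  · have : gr V Λ E x y = 0 := by
      by_contra hne
      exact (gr_ne_zero hne).2.2 hdet
    unfold qg
    rw [this]
    simp
  set W := Λ ∩ box x L with hW
  set W' := Λ ∩ box x (L + 1) with hW'
  have hWW' : W ⊆ W' := Finset.inter_subset_inter_left (box_mono x (by omega))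
  have hxW : x ∈ W := by
    rw [hW, Finset.mem_inter, mem_box, sd_self]; exact ⟨hx, by omega⟩
  have hyW' : y ∈ Λ \ W' := by
    rw [Finset.mem_sdiff, hW', Finset.mem_inter, mem_box]
    exact ⟨hy, fun h => by omega⟩
  have hyW : y ∈ Λ \ W := by
    rw [Finset.mem_sdiff] at *
    exact ⟨hy, fun h => hyW'.2 (hWW' h)⟩
  -- first identity with restricted sums
  have g1 : gr V Λ E x y = ∑ u ∈ W.filter (fun u => sd x u = L), ∑ u' ∈ W' \ W,
      gr V W E x u * hop u u' * gr V Λ E u' y := by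
    rw [geo1 Finset.inter_subset_left hdet h1 hxW hyW, ← hW]
    have hz : ∀ u ∈ W, ∀ u' ∈ Λ \ W, hop u u' ≠ 0 → sd x u = L ∧ u' ∈ W' \ W := by
      intro u hu u' hu' hne
      have h3 := sd_of_hop hne
      rw [hW, Finset.mem_inter, mem_box] at hu
      rw [Finset.mem_sdiff, hW, Finset.mem_inter, mem_box] at hu'
      have h4 := sd_triangle x u u'
      have h5 : ¬ sd x u' ≤ L := fun h => hu'.2 ⟨hu'.1, h⟩
      refine ⟨by omega, ?_⟩
      rw [Finset.mem_sdiff, hW', hW, Finset.mem_inter, mem_box, Finset.mem_inter, mem_box]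
      exact ⟨⟨hu'.1, by omega⟩, fun h => h5 h.2⟩
    have s1 : ∀ u ∈ W, ∑ u' ∈ Λ \ W, gr V W E x u * hop u u' * gr V Λ E u' y =
        if sd x u = L then ∑ u' ∈ W' \ W, gr V W E x u * hop u u' * gr V Λ E u' y else 0 := by
      intro u hu
      by_cases hL : sd x u = L
      · rw [if_pos hL]
        symm
        apply Finset.sum_subset
        · exact Finset.sdiff_subset_sdiff Finset.inter_subset_left le_rfl
        · intro u' hu' hu''
          have : hop u u' = 0 := by
            by_contra hne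
            exact hu'' (hz u hu u' hu' hne).2
          rw [this]; ring
      · rw [if_neg hL]
        apply Finset.sum_eq_zero
        intro u' hu'
        have : hop u u' = 0 := by
          by_contra hne
          exact hL (hz u hu u' hu' hne).1
        rw [this]; ring
    rw [Finset.sum_congr rfl s1, Finset.sum_filter]
  have g2 : ∀ u' ∈ W' \ W, gr V Λ E u' y = ∑ v ∈ W' \ W, ∑ v' ∈ (Λ \ W') ∩ box x (L + 2),
      gr V Λ E u' v * hop v v' * gr V (Λ \ W') E v' y := by
    intro u' hu'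
    rw [geo2 Finset.inter_subset_left hdet h2 (Finset.mem_sdiff.1 hu').1 hyW', ← hW']
    have hz : ∀ v ∈ W', ∀ v' ∈ Λ \ W', hop v v' ≠ 0 → v ∈ W' \ W ∧ v' ∈ box x (L + 2) := by
      intro v hv v' hv' hne
      have h3 := sd_of_hop hne
      have hv0 := hv
      rw [hW', Finset.mem_inter, mem_box] at hv
      rw [Finset.mem_sdiff, hW', Finset.mem_inter, mem_box] at hv'
      have h4 := sd_triangle x v v'
      have h5 : ¬ sd x v' ≤ L + 1 := fun h => hv'.2 ⟨hv'.1, h⟩
      refine ⟨?_, by rw [mem_box]; omega⟩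
      rw [Finset.mem_sdiff]
      refine ⟨hv0, fun h => ?_⟩
      rw [hW, Finset.mem_inter, mem_box] at h
      omega
    have s1 : ∀ v ∈ W', ∑ v' ∈ Λ \ W', gr V Λ E u' v * hop v v' * gr V (Λ \ W') E v' y =
        ∑ v' ∈ (Λ \ W') ∩ box x (L + 2), gr V Λ E u' v * hop v v' * gr V (Λ \ W') E v' y := by
      intro v hv
      symm
      apply Finset.sum_subset Finset.inter_subset_left
      intro v' hv' hv''
      have : hop v v' = 0 := by
        by_contra hne
        exact hv'' (Finset.mem_inter.2 ⟨hv', (hz v hv v' hv' hne).2⟩)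
      rw [this]; ring
    rw [Finset.sum_congr rfl s1]
    symm
    apply Finset.sum_subset Finset.sdiff_subset
    intro v hv hv''
    apply Finset.sum_eq_zero
    intro v' hv'
    have : hop v v' = 0 := by
      by_contra hne
      exact hv'' (hz v hv v' (Finset.mem_inter.1 hv').1 hne).1
    rw [this]; ring
  have g3 : gr V Λ E x y = ∑ u ∈ W.filter (fun u => sd x u = L), ∑ u' ∈ W' \ W,
      ∑ v ∈ W' \ W, ∑ v' ∈ (Λ \ W') ∩ box x (L + 2),
        gr V W E x u * hop u u' * (gr V Λ E u' v * hop v v' * gr V (Λ \ W') E v' y) := by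
    rw [g1]
    apply Finset.sum_congr rfl
    intro u _
    apply Finset.sum_congr rfl
    intro u' hu'
    rw [g2 u' hu', Finset.mul_sum]
    apply Finset.sum_congr rfl
    intro v _
    rw [Finset.mul_sum]
  have hh : ∀ a b : Site d, √(hop a b) * √(hop a b) = hop a b := fun a b =>
    Real.mul_self_sqrt (hop_nonneg a b)
  have hhop : ∀ a b a' b' : Site d, √(hop a b) * √(hop a' b') ≤ 2 * d := by
    intro a b a' b'
    have h3 : √(hop a b) ≤ √(2 * d) := Real.sqrt_le_sqrt (hop_le a b)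
    have h4 : √(hop a' b') ≤ √(2 * d) := Real.sqrt_le_sqrt (hop_le a' b')
    calc _ ≤ √(2 * d) * √(2 * d) := mul_le_mul h3 h4 (Real.sqrt_nonneg _) (Real.sqrt_nonneg _)
      _ = 2 * d := Real.mul_self_sqrt (by positivity)
  have g4 : √|gr V Λ E x y| ≤ ∑ u ∈ W.filter (fun u => sd x u = L), ∑ u' ∈ W' \ W,
      ∑ v ∈ W' \ W, ∑ v' ∈ (Λ \ W') ∩ box x (L + 2),
        2 * d * (√|gr V W E x u| * √|gr V (Λ \ W') E v' y| * √|gr V Λ E u' v|) := by
    rw [g3]
    refine (sqrt_abs_sum_le _ _).trans (Finset.sum_le_sum fun u _ => ?_)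
    refine (sqrt_abs_sum_le _ _).trans (Finset.sum_le_sum fun u' _ => ?_)
    refine (sqrt_abs_sum_le _ _).trans (Finset.sum_le_sum fun v _ => ?_)
    refine (sqrt_abs_sum_le _ _).trans (Finset.sum_le_sum fun v' _ => ?_)
    rw [abs_mul, abs_mul, abs_mul, abs_mul, abs_of_nonneg (hop_nonneg u u'),
      abs_of_nonneg (hop_nonneg v v')]
    have h0 := hop_nonneg u u'
    have h0' := hop_nonneg v v'
    rw [Real.sqrt_mul (by positivity), Real.sqrt_mul (by positivity),
      Real.sqrt_mul (by positivity), Real.sqrt_mul (by positivity)]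
    calc _ = (√(hop u u') * √(hop v v')) *
          (√|gr V W E x u| * √|gr V (Λ \ W') E v' y| * √|gr V Λ E u' v|) := by ring
      _ ≤ _ := mul_le_mul_of_nonneg_right (hhop _ _ _ _) (by positivity)
  unfold qg
  refine (ENNReal.ofReal_le_ofReal g4).trans (le_of_eq ?_)
  have hz : ∀ u u' v v', 0 ≤ 2 * (d:ℝ) * (√|gr V W E x u| * √|gr V (Λ \ W') E v' y| *
      √|gr V Λ E u' v|) := fun _ _ _ _ => by positivity
  rw [ENNReal.ofReal_sum_of_nonneg
    (fun u _ => Finset.sum_nonneg fun u' _ => Finset.sum_nonneg fun v _ =>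
      Finset.sum_nonneg fun v' _ => hz u u' v v'), Finset.mul_sum]
  apply Finset.sum_congr rfl
  intro u _
  rw [ENNReal.ofReal_sum_of_nonneg
    (fun u' _ => Finset.sum_nonneg fun v _ =>
      Finset.sum_nonneg fun v' _ => hz u u' v v'), Finset.mul_sum]
  apply Finset.sum_congr rfl
  intro u' _
  rw [ENNReal.ofReal_sum_of_nonneg
    (fun v _ => Finset.sum_nonneg fun v' _ => hz u u' v v'), Finset.mul_sum]
  apply Finset.sum_congr rfl
  intro v _
  rw [ENNReal.ofReal_sum_of_nonneg (fun v' _ => hz u u' v v'), Finset.mul_sum]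
  apply Finset.sum_congr rfl
  intro v' _
  rw [ENNReal.ofReal_mul (p := 2 * (d:ℝ)) (by positivity),
    ENNReal.ofReal_mul (p := √|gr V W E x u| * √|gr V (Λ \ W') E v' y|) (by positivity),
    ENNReal.ofReal_mul (p := √|gr V W E x u|) (by positivity)]

end Pool.Agent.Loc
end
end -- Pool.Agent.Helper48_Loc.Geom

section -- Pool.Agent.Helper48_Loc.CT

/-!
# Quadratic forms, staggering, and the Combes-Thomas bound
-/

set_option autoImplicit false
set_option linter.unusedSectionVars false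

open MeasureTheory ProbabilityTheory Function

open scoped ENNReal BigOperators

noncomputable section

namespace Pool.Agent.Loc

open Pool.Agent.Anderson

variable {d : ℕ}

/-- the quadratic form of `E - H_Λ` -/
def qform (V : Site d → ℝ) (Λ : Finset (Site d)) (E : ℝ) (u : Site d → ℝ) : ℝ :=
  ∑ y ∈ Λ, ∑ z ∈ Λ, u y * rm V E y z * u z

/-- the quadratic form of the hopping -/
def hf (Λ : Finset (Site d)) (u : Site d → ℝ) : ℝ :=
  ∑ y ∈ Λ, ∑ z ∈ Λ, u y * hop y z * u z

theorem qform_eq_dot (V : Site d → ℝ) (Λ : Finset (Site d)) (E : ℝ) (u : Site d → ℝ) :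
    qform V Λ E u = (fun z : Λ => u z) ⬝ᵥ (RM V Λ E).mulVec (fun z : Λ => u z) := by
  unfold qform dotProduct Matrix.mulVec dotProduct
  rw [← Finset.sum_coe_sort Λ (fun y => ∑ z ∈ Λ, u y * rm V E y z * u z)]
  apply Finset.sum_congr rfl
  intro y _
  rw [← Finset.sum_coe_sort Λ (fun z => u y * rm V E y z * u z), Finset.mul_sum]
  apply Finset.sum_congr rfl
  intro z _
  change u y * rm V E y z * u z = u y * (RM V Λ E y z * u z)
  rw [RM_apply]
  ring

theorem qform_eq (V : Site d → ℝ) (Λ : Finset (Site d)) (E : ℝ) (u : Site d → ℝ) :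
    qform V Λ E u = E * ∑ y ∈ Λ, u y ^ 2 - ∑ y ∈ Λ, V y * u y ^ 2 - hf Λ u := by
  unfold qform hf rm
  rw [Finset.mul_sum, ← Finset.sum_sub_distrib, ← Finset.sum_sub_distrib]
  apply Finset.sum_congr rfl
  intro y hy
  have h1 : ∀ z, u y * ((if y = z then E - V y else 0) - hop y z) * u z =
      (if y = z then (E - V y) * u y * u z else 0) - u y * hop y z * u z := by
    intro z
    split_ifs <;> ring
  simp_rw [h1]
  rw [Finset.sum_sub_distrib, Finset.sum_ite_eq, if_pos hy]
  ring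

/-- Schur's test for kernels dominated by the hopping -/
theorem schur (Λ : Finset (Site d)) (u : Site d → ℝ) {k : Site d → Site d → ℝ} {c : ℝ}
    (hc : 0 ≤ c) (hk : ∀ y z, |k y z| ≤ c * hop y z) :
    |∑ y ∈ Λ, ∑ z ∈ Λ, u y * k y z * u z| ≤ c * (2 * d) * ∑ y ∈ Λ, u y ^ 2 := by
  have h1 : ∀ y z, |u y * k y z * u z| ≤ c / 2 * (hop y z * u y ^ 2) +
      c / 2 * (hop y z * u z ^ 2) := by
    intro y z
    rw [abs_mul, abs_mul]
    have h2 := hk y z
    have h3 := hop_nonneg y z
    have h4 : |u y| * |u z| ≤ (u y ^ 2 + u z ^ 2) / 2 := by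
      have := two_mul_le_add_sq |u y| |u z|
      rw [sq_abs, sq_abs] at this
      linarith only [this]
    calc |u y| * |k y z| * |u z| = |k y z| * (|u y| * |u z|) := by ring
      _ ≤ (c * hop y z) * ((u y ^ 2 + u z ^ 2) / 2) := by gcongr
      _ = _ := by ring
  calc |∑ y ∈ Λ, ∑ z ∈ Λ, u y * k y z * u z|
      ≤ ∑ y ∈ Λ, ∑ z ∈ Λ, |u y * k y z * u z| :=
        (Finset.abs_sum_le_sum_abs _ _).trans (Finset.sum_le_sum fun y _ =>
          Finset.abs_sum_le_sum_abs _ _)
    _ ≤ ∑ y ∈ Λ, ∑ z ∈ Λ, (c / 2 * (hop y z * u y ^ 2) + c / 2 * (hop y z * u z ^ 2)) :=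
        Finset.sum_le_sum fun y _ => Finset.sum_le_sum fun z _ => h1 y z
    _ = c / 2 * ∑ y ∈ Λ, (∑ z ∈ Λ, hop y z) * u y ^ 2 +
        c / 2 * ∑ z ∈ Λ, (∑ y ∈ Λ, hop z y) * u z ^ 2 := by
        simp_rw [Finset.sum_add_distrib]
        congr 1
        · simp_rw [Finset.sum_mul, Finset.mul_sum]
        · rw [Finset.sum_comm]
          simp_rw [Finset.sum_mul, Finset.mul_sum]
          apply Finset.sum_congr rfl
          intro z _
          apply Finset.sum_congr rfl
          intro y _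
          rw [hop_comm y z]
    _ ≤ c / 2 * ∑ y ∈ Λ, (2 * d) * u y ^ 2 + c / 2 * ∑ z ∈ Λ, (2 * d) * u z ^ 2 := by
        have h5 : ∑ y ∈ Λ, (∑ z ∈ Λ, hop y z) * u y ^ 2 ≤ ∑ y ∈ Λ, (2 * d) * u y ^ 2 :=
          Finset.sum_le_sum fun y _ => mul_le_mul_of_nonneg_right (sum_hop_le y Λ) (sq_nonneg _)
        gcongr
    _ = _ := by
        rw [← Finset.mul_sum]
        ring

theorem abs_hf_le (Λ : Finset (Site d)) (u : Site d → ℝ) :
    |hf Λ u| ≤ 2 * d * ∑ y ∈ Λ, u y ^ 2 := by
  have := schur Λ u (k := hop) (c := 1) zero_le_one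
    (fun y z => by rw [one_mul, abs_of_nonneg (hop_nonneg y z)])
  rw [one_mul] at this
  exact this

/-! ### staggering -/

/-- the staggering sign -/
def stag (y : Site d) : ℝ := if Even (∑ i, y i) then 1 else -1

theorem stag_sq (y : Site d) : stag y ^ 2 = 1 := by
  unfold stag
  split_ifs <;> norm_num

theorem stag_add_single (y : Site d) (i : Fin d) : stag (y + Pi.single i 1) = - stag y := by
  unfold stag
  have h1 : ∑ j, (y + Pi.single i 1 : Site d) j = ∑ j, y j + 1 := by
    simp [Finset.sum_add_distrib, Pi.single_apply]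
  rw [h1]
  by_cases h : Even (∑ j, y j)
  · rw [if_pos h, if_neg (by rw [Int.not_even_iff_odd]; exact h.add_one)]
  · rw [if_neg h, if_pos (by rw [Int.not_even_iff_odd] at h; exact h.add_one)]
    norm_num

theorem stag_sub_single (y : Site d) (i : Fin d) : stag (y - Pi.single i 1) = - stag y := by
  have := stag_add_single (y - Pi.single i 1) i
  rw [sub_add_cancel] at this
  linarith only [this]

theorem stag_hop (y z : Site d) : stag y * hop y z * stag z = - hop y z := by
  unfold hop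
  rw [Finset.mul_sum, Finset.sum_mul, ← Finset.sum_neg_distrib]
  apply Finset.sum_congr rfl
  intro i _
  by_cases h1 : z = y + Pi.single i 1
  · by_cases h2 : z = y - Pi.single i 1
    · exfalso
      rw [h2] at h1
      have := congrFun h1 i
      simp at this
      omega
    · rw [if_pos h1, if_neg h2, h1, stag_add_single]
      have := stag_sq y
      nlinarith only [this]
  · by_cases h2 : z = y - Pi.single i 1
    · rw [if_neg h1, if_pos h2, h2, stag_sub_single]
      have := stag_sq y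
      nlinarith only [this]
    · rw [if_neg h1, if_neg h2]; ring

theorem hf_stag (Λ : Finset (Site d)) (u : Site d → ℝ) :
    hf Λ (fun y => stag y * u y) = - hf Λ u := by
  unfold hf
  rw [← Finset.sum_neg_distrib]
  apply Finset.sum_congr rfl
  intro y _
  rw [← Finset.sum_neg_distrib]
  apply Finset.sum_congr rfl
  intro z _
  have := stag_hop y z
  calc stag y * u y * hop y z * (stag z * u z) = u y * (stag y * hop y z * stag z) * u z := by ring
    _ = _ := by rw [this]; ring

/-- `s (E - H_Λ) ≥ g` in the sense of quadratic forms -/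
def LB (V : Site d → ℝ) (Λ : Finset (Site d)) (E s g : ℝ) : Prop :=
  ∀ u : Site d → ℝ, g * ∑ y ∈ Λ, u y ^ 2 ≤ s * qform V Λ E u

/-- the form bound which controls both edges -/
theorem LB_of_form {V : Site d → ℝ} {Λ : Finset (Site d)} {a θ : ℝ} (hθ : θ ≤ 1)
    (h : ∀ u : Site d → ℝ, |∑ y ∈ Λ, V y * u y ^ 2| ≤
      θ * ((2 * d + a) * ∑ y ∈ Λ, u y ^ 2 - hf Λ u)) {E : ℝ} (hE : 2 * d + a ≤ |E|) :
    ∃ s : ℝ, |s| = 1 ∧ LB V Λ E s ((1 - θ) * a) := by
  have key : ∀ u : Site d → ℝ, ∀ s : ℝ, |s| = 1 →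
      ((1 - θ) * a) * ∑ y ∈ Λ, u y ^ 2 ≤ |E| * ∑ y ∈ Λ, u y ^ 2 -
        s * ∑ y ∈ Λ, V y * u y ^ 2 - hf Λ u := by
    intro u s hs
    have h1 := h u
    have h2 := le_abs_self (hf Λ u)
    have h3 := abs_hf_le Λ u
    have h4 : s * ∑ y ∈ Λ, V y * u y ^ 2 ≤ |∑ y ∈ Λ, V y * u y ^ 2| := by
      calc s * ∑ y ∈ Λ, V y * u y ^ 2 ≤ |s * ∑ y ∈ Λ, V y * u y ^ 2| := le_abs_self _
        _ = _ := by rw [abs_mul, hs, one_mul]
    have h5 : 0 ≤ ∑ y ∈ Λ, u y ^ 2 := Finset.sum_nonneg fun y _ => sq_nonneg _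
    have h6 : (2 * d + a) * ∑ y ∈ Λ, u y ^ 2 ≤ |E| * ∑ y ∈ Λ, u y ^ 2 :=
      mul_le_mul_of_nonneg_right hE h5
    have h7 : (1 - θ) * (a * ∑ y ∈ Λ, u y ^ 2) ≤
        (1 - θ) * ((2 * d + a) * ∑ y ∈ Λ, u y ^ 2 - hf Λ u) := by
      apply mul_le_mul_of_nonneg_left _ (by linarith only [hθ])
      have : (2 * d + a) * ∑ y ∈ Λ, u y ^ 2 = 2 * d * ∑ y ∈ Λ, u y ^ 2 +
        a * ∑ y ∈ Λ, u y ^ 2 := by ring
      linarith only [h3, h2]
    nlinarith only [h5, h4, h3, h2, h1, hE, hθ]
  rcases le_total 0 E with hE0 | hE0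
  · refine ⟨1, abs_one, fun u => ?_⟩
    have := key u 1 abs_one
    rw [abs_of_nonneg hE0, one_mul] at this
    rw [one_mul, qform_eq]
    exact this
  · refine ⟨-1, by norm_num, fun u => ?_⟩
    have := key (fun y => stag y * u y) (-1) (by norm_num)
    rw [abs_of_nonpos hE0, hf_stag] at this
    simp_rw [mul_pow, stag_sq, one_mul] at this
    rw [qform_eq]
    linarith only [this]

/-- The Combes-Thomas bound. -/
theorem combes_thomas {V : Site d → ℝ} {Λ : Finset (Site d)} {E s g : ℝ} (hg : 0 < g)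
    (hs : |s| = 1) (h : LB V Λ E s g) {κ : ℝ} (hκ : 0 ≤ κ)
    (hκg : 2 * d * (Real.exp κ - 1) ≤ g / 2) (x y : Site d) :
    |gr V Λ E x y| ≤ 2 / g * Real.exp (-κ * sd x y) := by
  by_cases hxy : x ∈ Λ ∧ y ∈ Λ
  swap
  · unfold gr
    rw [dif_neg hxy, abs_zero]
    positivity
  obtain ⟨hx, hy⟩ := hxy
  have hdet : (RM V Λ E).det ≠ 0 := by
    intro hd
    obtain ⟨v, hv, hv0⟩ := Matrix.exists_mulVec_eq_zero_iff.2 hd
    apply hv
    set u : Site d → ℝ := fun z => if hz : z ∈ Λ then v ⟨z, hz⟩ else 0 with hu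
    have huv : (fun z : Λ => u z) = v := by
      funext z
      simp [hu]
    have h1 := h u
    rw [qform_eq_dot, huv, hv0, dotProduct_zero, mul_zero] at h1
    have h2 : ∑ z ∈ Λ, u z ^ 2 ≤ 0 := by
      by_contra hcon
      push Not at hcon
      have := mul_pos hg hcon
      linarith only [this, h1]
    have h3 : ∑ z ∈ Λ, u z ^ 2 = 0 := le_antisymm h2 (Finset.sum_nonneg fun z _ => sq_nonneg _)
    rw [Finset.sum_eq_zero_iff_of_nonneg fun z _ => sq_nonneg _] at h3
    funext z
    have h4 := h3 z z.2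
    rw [← huv]
    exact pow_eq_zero_iff (two_ne_zero) |>.1 h4
  -- the weighted vector
  set w : Site d → ℝ := fun z => Real.exp (κ * sd x z) with hw
  have hw0 : ∀ z, 0 < w z := fun z => Real.exp_pos _
  set ψ : Site d → ℝ := fun z => w z * gr V Λ E x z with hψ
  have hwx : w x = 1 := by simp [hw, sd_self]
  have heq : ∀ z ∈ Λ, ∑ z' ∈ Λ, gr V Λ E x z' * rm V E z' z = if x = z then 1 else 0 :=
    fun z hz => gr_mul_rm hdet hx hz
  have hrm : ∀ z z', rm V E z z' = rm V E z' z := by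
    intro z z'
    unfold rm
    rw [hop_comm]
    by_cases hzz : z = z'
    · subst hzz; simp
    · rw [if_neg hzz, if_neg (Ne.symm hzz)]
  -- the conjugated form
  have h1 : ∑ z ∈ Λ, ∑ z' ∈ Λ, ψ z * (w z / w z' * rm V E z z') * ψ z' = ψ x := by
    have h2 : ∀ z ∈ Λ, ∑ z' ∈ Λ, ψ z * (w z / w z' * rm V E z z') * ψ z' =
        if x = z then ψ z * w z else 0 := by
      intro z hz
      have h3 : ∀ z', ψ z * (w z / w z' * rm V E z z') * ψ z' =
          ψ z * w z * (gr V Λ E x z' * rm V E z' z) := by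
        intro z'
        have := (hw0 z').ne'
        rw [hrm z z']
        simp only [hψ]
        field_simp
      simp_rw [h3]
      rw [← Finset.mul_sum, heq z hz]
      split_ifs <;> ring
    rw [Finset.sum_congr rfl h2, Finset.sum_ite_eq, if_pos hx, hwx, mul_one]
  have h2 : ∑ z ∈ Λ, ∑ z' ∈ Λ, ψ z * (w z / w z' * rm V E z z') * ψ z' =
      qform V Λ E ψ + ∑ z ∈ Λ, ∑ z' ∈ Λ, ψ z * ((w z / w z' - 1) * rm V E z z') * ψ z' := by
    unfold qform
    rw [← Finset.sum_add_distrib]
    apply Finset.sum_congr rfl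
    intro z _
    rw [← Finset.sum_add_distrib]
    apply Finset.sum_congr rfl
    intro z' _
    ring
  have hexp : 1 ≤ Real.exp κ := Real.one_le_exp hκ
  have h3 : |∑ z ∈ Λ, ∑ z' ∈ Λ, ψ z * ((w z / w z' - 1) * rm V E z z') * ψ z'| ≤
      (Real.exp κ - 1) * (2 * d) * ∑ z ∈ Λ, ψ z ^ 2 := by
    apply schur Λ ψ (by linarith only [hexp])
    intro z z'
    by_cases hzz : z = z'
    · subst hzz
      rw [div_self (hw0 z).ne', sub_self, zero_mul, abs_zero]
      exact mul_nonneg (by linarith only [hexp]) (hop_nonneg _ _)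
    · have e1 : rm V E z z' = - hop z z' := by
        unfold rm
        rw [if_neg hzz]; ring
      rw [e1, abs_mul, abs_neg, abs_of_nonneg (hop_nonneg z z')]
      by_cases hh : hop z z' = 0
      · rw [hh]; simp
      · have hd := sd_of_hop hh
        apply mul_le_mul_of_nonneg_right _ (hop_nonneg z z')
        have t1 := sd_triangle x z z'
        have t2 := sd_triangle x z' z
        rw [sd_comm z' z] at t2
        have e2 : w z / w z' = Real.exp (κ * ((sd x z : ℝ) - sd x z')) := by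
          simp only [hw]
          rw [← Real.exp_sub]
          congr 1
          ring
        rw [e2, abs_le]
        have r1 : ((sd x z : ℕ) : ℝ) - sd x z' ≤ 1 := by
          have : sd x z ≤ sd x z' + 1 := by omega
          have : ((sd x z : ℕ) : ℝ) ≤ sd x z' + 1 := by exact_mod_cast this
          linarith only [this]
        have r2 : -1 ≤ ((sd x z : ℕ) : ℝ) - sd x z' := by
          have : sd x z' ≤ sd x z + 1 := by omega
          have : ((sd x z' : ℕ) : ℝ) ≤ sd x z + 1 := by exact_mod_cast this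
          linarith only [this]
        constructor
        · have s1 : Real.exp (-κ) ≤ Real.exp (κ * ((sd x z : ℝ) - sd x z')) := by
            apply Real.exp_le_exp.2
            nlinarith only [r2, hκ]
          have s2 : Real.exp (-κ) * Real.exp κ = 1 := by
            rw [← Real.exp_add]; simp
          have s3 : 2 ≤ Real.exp (-κ) + Real.exp κ := by
            nlinarith only [s2, sq_nonneg (Real.exp κ - 1), Real.exp_pos (-κ), Real.exp_pos κ]
          linarith only [s3, s1]
        · have s1 : Real.exp (κ * ((sd x z : ℝ) - sd x z')) ≤ Real.exp κ := by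
            apply Real.exp_le_exp.2
            nlinarith only [r1, hκ]
          linarith only [s1]
  have h4 := h ψ
  set S := ∑ z ∈ Λ, ψ z ^ 2 with hS
  have hS0 : 0 ≤ S := Finset.sum_nonneg fun z _ => sq_nonneg _
  rw [h2] at h1
  generalize (∑ z ∈ Λ, ∑ z' ∈ Λ, ψ z * ((w z / w z' - 1) * rm V E z z') * ψ z') = T at h1 h3
  have h5 : qform V Λ E ψ = ψ x - T := by linarith only [h1]
  have h6 : s * qform V Λ E ψ ≤ |ψ x| + g / 2 * S := by
    calc s * qform V Λ E ψ ≤ |s * qform V Λ E ψ| := le_abs_self _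
      _ = |qform V Λ E ψ| := by rw [abs_mul, hs, one_mul]
      _ ≤ |ψ x| + |T| := by
          rw [h5]; exact abs_sub _ _
      _ ≤ |ψ x| + (Real.exp κ - 1) * (2 * d) * S := by linarith only [h3]
      _ ≤ |ψ x| + g / 2 * S := by
          have h11 : (Real.exp κ - 1) * (2 * d) ≤ g / 2 := by linarith only [hκg]
          have h12 := mul_le_mul_of_nonneg_right h11 hS0
          linarith only [h12]
  have h7 : g / 2 * S ≤ |ψ x| := by linarith only [h6, h4]
  have hle : ∀ z ∈ Λ, ψ z ^ 2 ≤ S := fun z hz =>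
    Finset.single_le_sum (f := fun z => ψ z ^ 2) (fun z _ => sq_nonneg _) hz
  have h8 : |ψ x| ≤ √S := Real.abs_le_sqrt (hle x hx)
  have h9 : √S ≤ 2 / g := by
    rcases eq_or_lt_of_le (Real.sqrt_nonneg S) with h0 | h0
    · rw [← h0]; positivity
    · have h10 : g / 2 * (√S * √S) ≤ √S := by
        rw [Real.mul_self_sqrt hS0]; linarith only [h8, h6, h4]
      rw [le_div_iff₀ hg]
      have h11 : (g / 2 * √S) * √S ≤ 1 * √S := by linarith only [h10]
      have := le_of_mul_le_mul_right h11 h0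
      linarith only [this]
  have h10 : |ψ y| ≤ 2 / g := (Real.abs_le_sqrt (hle y hy)).trans h9
  simp only [hψ, hw, abs_mul, abs_of_pos (Real.exp_pos _)] at h10
  calc |gr V Λ E x y| = Real.exp (κ * sd x y) * |gr V Λ E x y| * Real.exp (-κ * sd x y) := by
        rw [mul_comm (Real.exp _), mul_assoc, ← Real.exp_add]
        simp
    _ ≤ 2 / g * Real.exp (-κ * sd x y) := by gcongr

end Pool.Agent.Loc
end
end -- Pool.Agent.Helper48_Loc.CT

section -- Pool.Agent.Helper3_LEW.CTX

/-!
# The Combes-Thomas bound with `cosh`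
-/

set_option autoImplicit false
set_option linter.unusedSectionVars false

open MeasureTheory ProbabilityTheory Function

open scoped ENNReal BigOperators

noncomputable section

namespace Pool.Agent.LE.H3Y

open Pool.Agent.Anderson Pool.Agent.Loc

variable {d : ℕ}

/-- The Combes-Thomas bound. -/
theorem combes_thomas_cosh {V : Site d → ℝ} {Λ : Finset (Site d)} {E s g : ℝ} (hg : 0 < g)
    (hs : |s| = 1) (h : LB V Λ E s g) {κ : ℝ} (hκ : 0 ≤ κ)
    (hκg : 2 * d * (Real.cosh κ - 1) ≤ g / 2) (x y : Site d) :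
    |gr V Λ E x y| ≤ 2 / g * Real.exp (-κ * sd x y) := by
  by_cases hxy : x ∈ Λ ∧ y ∈ Λ
  swap
  · unfold gr
    rw [dif_neg hxy, abs_zero]
    positivity
  obtain ⟨hx, hy⟩ := hxy
  have hdet : (RM V Λ E).det ≠ 0 := by
    intro hd
    obtain ⟨v, hv, hv0⟩ := Matrix.exists_mulVec_eq_zero_iff.2 hd
    apply hv
    set u : Site d → ℝ := fun z => if hz : z ∈ Λ then v ⟨z, hz⟩ else 0 with hu
    have huv : (fun z : Λ => u z) = v := by
      funext z
      simp [hu]
    have h1 := h u
    rw [qform_eq_dot, huv, hv0, dotProduct_zero, mul_zero] at h1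
    have h2 : ∑ z ∈ Λ, u z ^ 2 ≤ 0 := by
      by_contra hcon
      push Not at hcon
      have := mul_pos hg hcon
      linarith only [h1, this]
    have h3 : ∑ z ∈ Λ, u z ^ 2 = 0 := le_antisymm h2 (Finset.sum_nonneg fun z _ => sq_nonneg _)
    rw [Finset.sum_eq_zero_iff_of_nonneg fun z _ => sq_nonneg _] at h3
    funext z
    have h4 := h3 z z.2
    rw [← huv]
    exact pow_eq_zero_iff (two_ne_zero) |>.1 h4
  -- the weighted vector
  set w : Site d → ℝ := fun z => Real.exp (κ * sd x z) with hw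
  have hw0 : ∀ z, 0 < w z := fun z => Real.exp_pos _
  set ψ : Site d → ℝ := fun z => w z * gr V Λ E x z with hψ
  have hwx : w x = 1 := by simp [hw, sd_self]
  have heq : ∀ z ∈ Λ, ∑ z' ∈ Λ, gr V Λ E x z' * rm V E z' z = if x = z then 1 else 0 :=
    fun z hz => gr_mul_rm hdet hx hz
  have hrm : ∀ z z', rm V E z z' = rm V E z' z := by
    intro z z'
    unfold rm
    rw [hop_comm]
    by_cases hzz : z = z'
    · subst hzz; simp
    · rw [if_neg hzz, if_neg (Ne.symm hzz)]
  -- the conjugated form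
  have h1 : ∑ z ∈ Λ, ∑ z' ∈ Λ, ψ z * (w z / w z' * rm V E z z') * ψ z' = ψ x := by
    have h2 : ∀ z ∈ Λ, ∑ z' ∈ Λ, ψ z * (w z / w z' * rm V E z z') * ψ z' =
        if x = z then ψ z * w z else 0 := by
      intro z hz
      have h3 : ∀ z', ψ z * (w z / w z' * rm V E z z') * ψ z' =
          ψ z * w z * (gr V Λ E x z' * rm V E z' z) := by
        intro z'
        have := (hw0 z').ne'
        rw [hrm z z']
        simp only [hψ]
        field_simp
      simp_rw [h3]
      rw [← Finset.mul_sum, heq z hz]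
      split_ifs <;> ring
    rw [Finset.sum_congr rfl h2, Finset.sum_ite_eq, if_pos hx, hwx, mul_one]
  have h2 : ∑ z ∈ Λ, ∑ z' ∈ Λ, ψ z * (w z / w z' * rm V E z z') * ψ z' =
      qform V Λ E ψ + ∑ z ∈ Λ, ∑ z' ∈ Λ, ψ z * ((w z / w z' - 1) * rm V E z z') * ψ z' := by
    unfold qform
    rw [← Finset.sum_add_distrib]
    apply Finset.sum_congr rfl
    intro z _
    rw [← Finset.sum_add_distrib]
    apply Finset.sum_congr rfl
    intro z' _
    ring
  have hcosh : 0 ≤ Real.cosh κ - 1 := by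
    have := Real.one_le_cosh κ
    linarith only [this]
  have hsym : ∑ z ∈ Λ, ∑ z' ∈ Λ, ψ z * ((w z / w z' - 1) * rm V E z z') * ψ z' =
      ∑ z ∈ Λ, ∑ z' ∈ Λ, ψ z * (((w z / w z' + w z' / w z) / 2 - 1) * rm V E z z') * ψ z' := by
    have e1 : ∑ z ∈ Λ, ∑ z' ∈ Λ, ψ z * ((w z / w z' - 1) * rm V E z z') * ψ z' =
        ∑ z ∈ Λ, ∑ z' ∈ Λ, ψ z * ((w z' / w z - 1) * rm V E z z') * ψ z' := by
      rw [Finset.sum_comm]
      refine Finset.sum_congr rfl fun z _ => Finset.sum_congr rfl fun z' _ => ?_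
      rw [hrm z' z]
      ring
    have e2 : ∑ z ∈ Λ, ∑ z' ∈ Λ, ψ z * (((w z / w z' + w z' / w z) / 2 - 1) * rm V E z z') * ψ z' =
        (∑ z ∈ Λ, ∑ z' ∈ Λ, ψ z * ((w z / w z' - 1) * rm V E z z') * ψ z' +
          ∑ z ∈ Λ, ∑ z' ∈ Λ, ψ z * ((w z' / w z - 1) * rm V E z z') * ψ z') / 2 := by
      rw [← Finset.sum_add_distrib, Finset.sum_div]
      refine Finset.sum_congr rfl fun z _ => ?_
      rw [← Finset.sum_add_distrib, Finset.sum_div]
      refine Finset.sum_congr rfl fun z' _ => ?_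
      ring
    rw [e2, ← e1]
    ring
  have h3 : |∑ z ∈ Λ, ∑ z' ∈ Λ, ψ z * ((w z / w z' - 1) * rm V E z z') * ψ z'| ≤
      (Real.cosh κ - 1) * (2 * d) * ∑ z ∈ Λ, ψ z ^ 2 := by
    rw [hsym]
    apply schur Λ ψ hcosh
    intro z z'
    by_cases hzz : z = z'
    · subst hzz
      rw [div_self (hw0 z).ne']
      norm_num
      exact mul_nonneg hcosh (hop_nonneg _ _)
    · have e1 : rm V E z z' = - hop z z' := by
        unfold rm
        rw [if_neg hzz]; ring
      rw [e1, abs_mul, abs_neg, abs_of_nonneg (hop_nonneg z z')]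
      by_cases hh : hop z z' = 0
      · rw [hh]; simp
      · have hd := sd_of_hop hh
        apply mul_le_mul_of_nonneg_right _ (hop_nonneg z z')
        have t1 := sd_triangle x z z'
        have t2 := sd_triangle x z' z
        rw [sd_comm z' z] at t2
        have e2 : ∀ a b : Site d, w a / w b = Real.exp (κ * ((sd x a : ℝ) - sd x b)) := by
          intro a b
          simp only [hw]
          rw [← Real.exp_sub]
          congr 1
          ring
        have e3 : (w z / w z' + w z' / w z) / 2 =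
            Real.cosh (κ * ((sd x z : ℝ) - sd x z')) := by
          rw [e2 z z', e2 z' z, Real.cosh_eq]
          congr 3
          ring
        have r1 : ((sd x z : ℕ) : ℝ) - sd x z' ≤ 1 := by
          have : sd x z ≤ sd x z' + 1 := by omega
          have : ((sd x z : ℕ) : ℝ) ≤ sd x z' + 1 := by exact_mod_cast this
          linarith only [this]
        have r2 : -1 ≤ ((sd x z : ℕ) : ℝ) - sd x z' := by
          have : sd x z' ≤ sd x z + 1 := by omega
          have : ((sd x z' : ℕ) : ℝ) ≤ sd x z + 1 := by exact_mod_cast this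
          linarith only [this]
        have e4 : Real.cosh (κ * ((sd x z : ℝ) - sd x z')) ≤ Real.cosh κ := by
          rw [Real.cosh_le_cosh, abs_mul, abs_of_nonneg hκ]
          have : |((sd x z : ℕ) : ℝ) - sd x z'| ≤ 1 := abs_le.2 ⟨r2, r1⟩
          nlinarith only [hκ, this]
        have e5 := Real.one_le_cosh (κ * ((sd x z : ℝ) - sd x z'))
        rw [e3, abs_of_nonneg (by linarith only [e5])]
        linarith only [e4]
  have h4 := h ψ
  set S := ∑ z ∈ Λ, ψ z ^ 2 with hS
  have hS0 : 0 ≤ S := Finset.sum_nonneg fun z _ => sq_nonneg _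
  rw [h2] at h1
  generalize (∑ z ∈ Λ, ∑ z' ∈ Λ, ψ z * ((w z / w z' - 1) * rm V E z z') * ψ z') = T at h1 h3
  have h5 : qform V Λ E ψ = ψ x - T := by linarith only [h1]
  have h6 : s * qform V Λ E ψ ≤ |ψ x| + g / 2 * S := by
    calc s * qform V Λ E ψ ≤ |s * qform V Λ E ψ| := le_abs_self _
      _ = |qform V Λ E ψ| := by rw [abs_mul, hs, one_mul]
      _ ≤ |ψ x| + |T| := by
          rw [h5]; exact abs_sub _ _
      _ ≤ |ψ x| + (Real.cosh κ - 1) * (2 * d) * S := by linarith only [h3]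
      _ ≤ |ψ x| + g / 2 * S := by
          have h11 : (Real.cosh κ - 1) * (2 * d) ≤ g / 2 := by linarith only [hκg]
          have h12 := mul_le_mul_of_nonneg_right h11 hS0
          linarith only [h12]
  have h7 : g / 2 * S ≤ |ψ x| := by linarith only [h4, h6]
  have hle : ∀ z ∈ Λ, ψ z ^ 2 ≤ S := fun z hz =>
    Finset.single_le_sum (f := fun z => ψ z ^ 2) (fun z _ => sq_nonneg _) hz
  have h8 : |ψ x| ≤ √S := Real.abs_le_sqrt (hle x hx)
  have h9 : √S ≤ 2 / g := by
    rcases eq_or_lt_of_le (Real.sqrt_nonneg S) with h0 | h0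
    · rw [← h0]; positivity
    · have h10 : g / 2 * (√S * √S) ≤ √S := by
        rw [Real.mul_self_sqrt hS0]; linarith only [h4, h6, h8]
      rw [le_div_iff₀ hg]
      have h11 : (g / 2 * √S) * √S ≤ 1 * √S := by linarith only [h10]
      have := le_of_mul_le_mul_right h11 h0
      linarith only [this]
  have h10 : |ψ y| ≤ 2 / g := (Real.abs_le_sqrt (hle y hy)).trans h9
  simp only [hψ, hw, abs_mul, abs_of_pos (Real.exp_pos _)] at h10
  calc |gr V Λ E x y| = Real.exp (κ * sd x y) * |gr V Λ E x y| * Real.exp (-κ * sd x y) := by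
        rw [mul_comm (Real.exp _), mul_assoc, ← Real.exp_add]
        simp
    _ ≤ 2 / g * Real.exp (-κ * sd x y) := by gcongr

/-- `cosh κ ≤ 1 + κ ^ 2` for `κ ≤ 1`. -/
theorem cosh_le {κ : ℝ} (h0 : 0 ≤ κ) (h1 : κ ≤ 1) : Real.cosh κ ≤ 1 + κ ^ 2 := by
  have h2 := Real.cosh_le_exp_half_sq κ
  set y := κ ^ 2 / 2 with hy
  have hy0 : 0 ≤ y := by positivity
  have hy1 : y ≤ 1 / 2 := by
    rw [hy]
    nlinarith only [h0, h1]
  have h3 := Real.one_sub_le_exp_neg y
  have h4 : Real.exp (-y) * Real.exp y = 1 := by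
    rw [← Real.exp_add]; simp
  have h5 : (1 - y) * Real.exp y ≤ 1 := by
    have := mul_le_mul_of_nonneg_right h3 (Real.exp_pos y).le
    linarith only [h4, this]
  have h6 : Real.exp y ≤ 1 + 2 * y := by
    have h7 : 1 ≤ (1 - y) * (1 + 2 * y) := by nlinarith only [hy, hy1]
    have h8 : 0 < 1 - y := by linarith only [hy1]
    have h9 : (1 - y) * Real.exp y ≤ (1 - y) * (1 + 2 * y) := h5.trans h7
    exact le_of_mul_le_mul_left h9 h8
  have h7 : 1 + 2 * y = 1 + κ ^ 2 := by rw [hy]; ring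
  linarith only [h2, hy, h6]

/-- The rate `√g / (2 d)`. -/
theorem combes_thomas_sqrt (hd : 1 ≤ d) {V : Site d → ℝ} {Λ : Finset (Site d)} {E s g : ℝ}
    (hg : 0 < g) (hg1 : g ≤ 1) (hs : |s| = 1) (h : LB V Λ E s g) (x y : Site d) :
    |gr V Λ E x y| ≤ 2 / g * Real.exp (-(Real.sqrt g / (2 * d)) * sd x y) := by
  have hd' : (1 : ℝ) ≤ d := by exact_mod_cast hd
  have hs1 : Real.sqrt g ≤ 1 := by
    rw [show (1 : ℝ) = Real.sqrt 1 by simp]
    exact Real.sqrt_le_sqrt hg1
  have hκ0 : 0 ≤ Real.sqrt g / (2 * d) := by positivity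
  have hκ1 : Real.sqrt g / (2 * d) ≤ 1 := by
    rw [div_le_one (by positivity)]
    linarith only [hd', hs1]
  apply combes_thomas_cosh hg hs h hκ0
  have h1 := cosh_le hκ0 hκ1
  have h2 : (Real.sqrt g / (2 * d)) ^ 2 = g / (4 * d ^ 2) := by
    rw [div_pow, Real.sq_sqrt hg.le]
    ring
  rw [h2] at h1
  have h3 : 2 * (d : ℝ) * (g / (4 * d ^ 2)) = g / 2 / d := by
    field_simp
    ring
  have h4 : g / 2 / d ≤ g / 2 := div_le_self (by positivity) hd'
  nlinarith only [h1, h3, h4]

/-- A form bounded below has a nonzero determinant. -/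
theorem det_ne {V : Site d → ℝ} {Λ : Finset (Site d)} {E s g : ℝ} (hg : 0 < g)
    (h : LB V Λ E s g) : (RM V Λ E).det ≠ 0 := by
  intro hd
  obtain ⟨v, hv, hv0⟩ := Matrix.exists_mulVec_eq_zero_iff.2 hd
  apply hv
  set u : Site d → ℝ := fun z => if hz : z ∈ Λ then v ⟨z, hz⟩ else 0 with hu
  have huv : (fun z : Λ => u z) = v := by
    funext z
    simp [hu]
  have h1 := h u
  rw [qform_eq_dot, huv, hv0, dotProduct_zero, mul_zero] at h1
  have h2 : ∑ z ∈ Λ, u z ^ 2 ≤ 0 := by
    by_contra hcon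
    push Not at hcon
    have := mul_pos hg hcon
    linarith
  have h3 : ∑ z ∈ Λ, u z ^ 2 = 0 := le_antisymm h2 (Finset.sum_nonneg fun z _ => sq_nonneg _)
  rw [Finset.sum_eq_zero_iff_of_nonneg fun z _ => sq_nonneg _] at h3
  funext z
  have h4 := h3 z z.2
  rw [← huv]
  exact pow_eq_zero_iff (two_ne_zero) |>.1 h4

/-- CTX, the shape used in SGE. -/
theorem ctx {V : Site d → ℝ} {Λ : Finset (Site d)} {E δ κ : ℝ} (hδ : 0 < δ) (hκ : 0 ≤ κ)
    (hk : 2 * d * (Real.cosh κ - 1) ≤ δ / 2)
    (hform : ∀ u : Site d → ℝ, δ * ∑ y ∈ Λ, u y ^ 2 ≤ qform V Λ E u) :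
    (RM V Λ E).det ≠ 0 ∧ ∀ s ∈ Λ, ∀ u ∈ Λ,
      |gr V Λ E s u| ≤ 2 / δ * Real.exp (-κ * sd s u) := by
  have h : LB V Λ E 1 δ := fun u => by rw [one_mul]; exact hform u
  exact ⟨det_ne hδ h, fun s _ u _ => combes_thomas_cosh hδ abs_one h hκ hk s u⟩

end Pool.Agent.LE.H3Y
end
end -- Pool.Agent.Helper3_LEW.CTX
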