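import Pool.Agent.Helper12_MEB.B005
import Pool.Agent.Helper12_MEB.B009

/-!
# Merged copies (generated) of the modules

* `Pool.Agent.Helper48_Loc.FM`
* `Pool.Agent.Helper48_Loc.InitTail`
* `Pool.Agent.Helper48_Loc.Half`
* `Pool.Agent.Helper48_Loc.GaussLaw`
-/

set_option autoImplicit false

section -- Pool.Agent.Helper48_Loc.FM

/-!
# The finite-volume criterion: exponential decay of the fractional moments
-/

set_option autoImplicit false
set_option linter.unusedSectionVars false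

open MeasureTheory ProbabilityTheory Function

open scoped ENNReal BigOperators

noncomputable section

namespace Pool.Agent.Loc

open Pool.Agent.Anderson

variable {d : ℕ} {ν : Measure ℝ} [IsProbabilityMeasure ν] {ρ : ℝ}

/-- The initial scale estimate at the energy `E`: in all parts of boxes of radius `L` the
expectation of the square root of the Green function between the centre and the boundary is at
most `ε`. -/
def InitScale (d : ℕ) (ν : Measure ℝ) (L : ℕ) (ε E : ℝ) : Prop :=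
  ∀ (x : Site d) (W : Finset (Site d)), x ∈ W → W ⊆ box x L → ∀ u ∈ W, sd x u = L →
    ∫⁻ V, qg W E x u V ∂(PL ν W) ≤ ENNReal.ofReal ε

theorem term_bound (hν : BddDens ν ρ) {Λ A B : Finset (Site d)} (hA : A ⊆ Λ) (hB : B ⊆ Λ)
    (hAB : Disjoint A B) (E : ℝ) (x u v' y : Site d) {u' v : Site d}
    (hu' : u' ∈ Λ) (hu'A : u' ∉ A) (hu'B : u' ∉ B) (hv : v ∈ Λ) (hvA : v ∉ A) (hvB : v ∉ B) :
    ∫⁻ V, qg A E x u V * qg B E v' y V * qg Λ E u' v V ∂(PL ν Λ) ≤
      (∫⁻ V, qg A E x u V ∂(PL ν A)) * (∫⁻ V, qg B E v' y V ∂(PL ν B)) *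
        ENNReal.ofReal (2 * √(6 * ρ)) := by
  set S : Finset (Site d) := {u', v} with hS
  have hSΛ : S ⊆ Λ := by
    intro z hz
    simp only [hS, Finset.mem_insert, Finset.mem_singleton] at hz
    rcases hz with rfl | rfl <;> assumption
  have hAS : Disjoint A S := by
    rw [Finset.disjoint_right]
    intro z hz
    simp only [hS, Finset.mem_insert, Finset.mem_singleton] at hz
    rcases hz with rfl | rfl <;> assumption
  have hBS : Disjoint B S := by
    rw [Finset.disjoint_right]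
    intro z hz
    simp only [hS, Finset.mem_insert, Finset.mem_singleton] at hz
    rcases hz with rfl | rfl <;> assumption
  have mA := measurable_qg A E x u
  have mB := measurable_qg B E v' y
  have mC := measurable_qg Λ E u' v
  have mAB : Measurable fun V => qg A E x u V * qg B E v' y V := mA.mul mB
  have mABC : Measurable fun V => qg A E x u V * qg B E v' y V * qg Λ E u' v V := mAB.mul mC
  rw [lintegral_PL _ mABC, lintegral_PL _ mA, lintegral_PL _ mB]
  have e0 : (∫⋯∫⁻_Λ, (fun V => qg A E x u V * qg B E v' y V * qg Λ E u' v V) ∂(fun _ => ν)) 0 =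
      (∫⋯∫⁻_(Λ \ S), (∫⋯∫⁻_S, (fun V => qg A E x u V * qg B E v' y V * qg Λ E u' v V)
        ∂(fun _ => ν)) ∂(fun _ => ν)) 0 := by
    rw [← lmarginal_union _ _ mABC Finset.sdiff_disjoint, Finset.sdiff_union_of_subset hSΛ]
  rw [e0]
  have hfree : Free (fun V => qg A E x u V * qg B E v' y V) S := by
    intro V V' h
    have h1 := (only_qg A E x u).free hAS V V' h
    have h2 := (only_qg B E v' y).free hBS V V' h
    beta_reduce
    rw [h1, h2]
  have e1 : (∫⋯∫⁻_S, (fun V => qg A E x u V * qg B E v' y V * qg Λ E u' v V) ∂(fun _ => ν)) =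
      fun V => (qg A E x u V * qg B E v' y V) * (∫⋯∫⁻_S, qg Λ E u' v ∂(fun _ => ν)) V :=
    marg_mul_left hfree mC
  rw [e1]
  have e2 : (fun V => (qg A E x u V * qg B E v' y V) * (∫⋯∫⁻_S, qg Λ E u' v ∂(fun _ => ν)) V) ≤
      fun V => ENNReal.ofReal (2 * √(6 * ρ)) * (qg A E x u V * qg B E v' y V) := by
    intro V
    beta_reduce
    rw [mul_comm (ENNReal.ofReal (2 * √(6 * ρ)))]
    gcongr
    exact marg_sqrt hν V Λ E u' v
  refine (lmarginal_mono e2 0).trans ?_
  rw [marg_const_mul _ mAB, marg_mul mA mB (only_qg A E x u) (only_qg B E v' y) hAB]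
  · rw [mul_comm]
  · intro z hz
    rw [Finset.mem_sdiff]
    rcases Finset.mem_union.1 hz with h | h
    · exact ⟨hA h, Finset.disjoint_left.1 hAS h⟩
    · exact ⟨hB h, Finset.disjoint_left.1 hBS h⟩

/-- One step of the finite-volume criterion. -/
theorem fm_step (hν : BddDens ν ρ) {L : ℕ} {ε E : ℝ} (hinit : InitScale d ν L ε E)
    {Λ : Finset (Site d)} {x y : Site d} (hx : x ∈ Λ) (hy : y ∈ Λ) (hxy : L + 2 ≤ sd x y)
    {F : ℝ≥0∞} (hF : ∀ (Λ' : Finset (Site d)) (v' : Site d), v' ∈ Λ' → y ∈ Λ' →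
      sd x y ≤ sd v' y + (L + 2) → ∫⁻ V, qg Λ' E v' y V ∂(PL ν Λ') ≤ F) :
    ∫⁻ V, qg Λ E x y V ∂(PL ν Λ) ≤ ENNReal.ofReal (2 * d) * (((2 * L + 5) ^ d) ^ 4 : ℕ) *
      (ENNReal.ofReal ε * F * ENNReal.ofReal (2 * √(6 * ρ))) := by
  set W := Λ ∩ box x L with hW
  set W' := Λ ∩ box x (L + 1) with hW'
  have hWW' : W ⊆ W' := Finset.inter_subset_inter_left (box_mono x (by omega))
  have hxW : x ∈ W := by
    rw [hW, Finset.mem_inter, mem_box, sd_self]; exact ⟨hx, by omega⟩
  have hyW' : y ∈ Λ \ W' := by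
    rw [Finset.mem_sdiff, hW', Finset.mem_inter, mem_box]
    exact ⟨hy, fun h => by omega⟩
  have n1 := PL_det hν W Λ Finset.inter_subset_left E
  have n2 := PL_det hν (Λ \ W') Λ Finset.sdiff_subset E
  have hae : ∀ᵐ V ∂(PL ν Λ), qg Λ E x y V ≤ ENNReal.ofReal (2 * d) *
      ∑ u ∈ W.filter (fun u => sd x u = L), ∑ u' ∈ W' \ W, ∑ v ∈ W' \ W,
        ∑ v' ∈ (Λ \ W') ∩ box x (L + 2),
          qg W E x u V * qg (Λ \ W') E v' y V * qg Λ E u' v V := by
    have n1' : ∀ᵐ V ∂(PL ν Λ), (RM V W E).det ≠ 0 := by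
      rw [ae_iff]; simpa using n1
    have n2' : ∀ᵐ V ∂(PL ν Λ), (RM V (Λ \ W') E).det ≠ 0 := by
      rw [ae_iff]; simpa using n2
    filter_upwards [n1', n2'] with V h1 h2
    exact qg_step hx hy hxy h1 h2
  have mt : ∀ u u' v v' : Site d, Measurable fun V =>
      qg W E x u V * qg (Λ \ W') E v' y V * qg Λ E u' v V := fun u u' v v' =>
    ((measurable_qg _ _ _ _).mul (measurable_qg _ _ _ _)).mul (measurable_qg _ _ _ _)
  refine (lintegral_mono_ae hae).trans ?_
  rw [lintegral_const_mul _ (Finset.measurable_sum _ fun u _ => Finset.measurable_sum _ fun u' _ =>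
    Finset.measurable_sum _ fun v _ => Finset.measurable_sum _ fun v' _ => mt u u' v v'),
    mul_assoc]
  gcongr
  rw [lintegral_finsetSum _ fun u _ => Finset.measurable_sum _ fun u' _ =>
    Finset.measurable_sum _ fun v _ => Finset.measurable_sum _ fun v' _ => mt u u' v v']
  set Cst := ENNReal.ofReal ε * F * ENNReal.ofReal (2 * √(6 * ρ)) with hCst
  have hcard1 : (W.filter (fun u => sd x u = L)).card ≤ (2 * L + 5) ^ d := by
    have h1 : (W.filter (fun u => sd x u = L)).card ≤ (box x (L + 2)).card := by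
      apply Finset.card_le_card
      refine (Finset.filter_subset _ _).trans (Finset.inter_subset_right.trans (box_mono x (by omega)))
    rw [card_box] at h1
    exact h1
  have hcard2 : (W' \ W).card ≤ (2 * L + 5) ^ d := by
    have h1 : (W' \ W).card ≤ (box x (L + 2)).card := by
      apply Finset.card_le_card
      refine (Finset.sdiff_subset).trans (Finset.inter_subset_right.trans (box_mono x (by omega)))
    rw [card_box] at h1
    exact h1
  have hcard3 : ((Λ \ W') ∩ box x (L + 2)).card ≤ (2 * L + 5) ^ d := by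
    have h1 : ((Λ \ W') ∩ box x (L + 2)).card ≤ (box x (L + 2)).card :=
      Finset.card_le_card Finset.inter_subset_right
    rw [card_box] at h1
    exact h1
  have hb : ∀ u ∈ W.filter (fun u => sd x u = L), ∀ u' ∈ W' \ W, ∀ v ∈ W' \ W,
      ∀ v' ∈ (Λ \ W') ∩ box x (L + 2),
      ∫⁻ V, qg W E x u V * qg (Λ \ W') E v' y V * qg Λ E u' v V ∂(PL ν Λ) ≤ Cst := by
    intro u hu u' hu' v hv v' hv'
    rw [Finset.mem_filter] at hu
    rw [Finset.mem_sdiff] at hu' hv
    rw [Finset.mem_inter, mem_box] at hv'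
    have hdisj : Disjoint W (Λ \ W') := by
      rw [Finset.disjoint_left]
      intro z hz hz'
      exact (Finset.mem_sdiff.1 hz').2 (hWW' hz)
    refine (term_bound hν (Λ := Λ) (A := W) (B := Λ \ W') Finset.inter_subset_left
      Finset.sdiff_subset hdisj E x u v' y
      (Finset.inter_subset_left hu'.1) hu'.2 (fun h => (Finset.mem_sdiff.1 h).2 hu'.1)
      (Finset.inter_subset_left hv.1) hv.2 (fun h => (Finset.mem_sdiff.1 h).2 hv.1)).trans ?_
    rw [hCst]
    gcongr
    · exact hinit x W hxW Finset.inter_subset_right u hu.1 hu.2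
    · apply hF _ _ hv'.1 hyW'
      have := sd_triangle x v' y
      omega
  calc _ ≤ ∑ _u ∈ W.filter (fun u => sd x u = L), (((2 * L + 5) ^ d) ^ 3 : ℕ) * Cst := by
        apply Finset.sum_le_sum
        intro u hu
        rw [lintegral_finsetSum _ fun u' _ =>
          Finset.measurable_sum _ fun v _ => Finset.measurable_sum _ fun v' _ => mt u u' v v']
        calc _ ≤ ∑ _u' ∈ W' \ W, (((2 * L + 5) ^ d) ^ 2 : ℕ) * Cst := by
              apply Finset.sum_le_sum
              intro u' hu'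
              rw [lintegral_finsetSum _ fun v _ => Finset.measurable_sum _ fun v' _ => mt u u' v v']
              calc _ ≤ ∑ _v ∈ W' \ W, (((2 * L + 5) ^ d) : ℕ) * Cst := by
                    apply Finset.sum_le_sum
                    intro v hv
                    rw [lintegral_finsetSum _ fun v' _ => mt u u' v v']
                    refine (Finset.sum_le_sum fun v' hv' => hb u hu u' hu' v hv v' hv').trans ?_
                    rw [Finset.sum_const, nsmul_eq_mul]
                    gcongr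
                _ ≤ _ := by
                    rw [Finset.sum_const, nsmul_eq_mul, ← mul_assoc]
                    gcongr
                    rw [pow_two]
                    push_cast
                    gcongr
                    exact_mod_cast hcard2
          _ ≤ _ := by
              rw [Finset.sum_const, nsmul_eq_mul, ← mul_assoc]
              gcongr
              rw [show ((2 * L + 5) ^ d) ^ 3 = (2 * L + 5) ^ d * ((2 * L + 5) ^ d) ^ 2 by ring]
              push_cast
              gcongr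
              exact_mod_cast hcard2
    _ ≤ _ := by
        rw [Finset.sum_const, nsmul_eq_mul, ← mul_assoc]
        gcongr
        rw [show ((2 * L + 5) ^ d) ^ 4 = (2 * L + 5) ^ d * ((2 * L + 5) ^ d) ^ 3 by ring]
        push_cast
        gcongr
        exact_mod_cast hcard1

/-- Exponential decay of the fractional moments, uniformly in the finite volume. -/
theorem fm_decay (hν : BddDens ν ρ) {L : ℕ} {ε E : ℝ} (hε : 0 ≤ ε) (hinit : InitScale d ν L ε E)
    {K : ℝ} (hK : 2 * d * ((2 * L + 5) ^ d) ^ 4 * (ε * (2 * √(6 * ρ))) ≤ K) (k : ℕ) :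
    ∀ (Λ : Finset (Site d)) (x y : Site d), x ∈ Λ → y ∈ Λ → k * (L + 2) ≤ sd x y →
      ∫⁻ V, qg Λ E x y V ∂(PL ν Λ) ≤ ENNReal.ofReal (2 * √(6 * ρ) * K ^ k) := by
  have hρ := hν.1
  have hK0 : 0 ≤ K := le_trans (by positivity) hK
  induction k with
  | zero =>
    intro Λ x y hx hy _
    rw [pow_zero, mul_one]
    exact PL_sqrt hν Λ E x y
  | succ k ih =>
    intro Λ x y hx hy hxy
    have hxy' : L + 2 ≤ sd x y := by
      rw [add_mul, one_mul] at hxy; omega
    have h1 := fm_step hν hinit hx hy hxy' (F := ENNReal.ofReal (2 * √(6 * ρ) * K ^ k))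
      (fun Λ' v' hv' hy' hd' => ih Λ' v' y hv' hy' (by rw [add_mul, one_mul] at hxy; omega))
    refine h1.trans ?_
    rw [← ENNReal.ofReal_natCast, ← ENNReal.ofReal_mul (by positivity),
      ← ENNReal.ofReal_mul hε, ← ENNReal.ofReal_mul (by positivity),
      ← ENNReal.ofReal_mul (by positivity)]
    apply ENNReal.ofReal_le_ofReal
    push_cast
    calc 2 * (d:ℝ) * ((2 * L + 5) ^ d) ^ 4 * (ε * (2 * √(6 * ρ) * K ^ k) * (2 * √(6 * ρ)))
        = (2 * d * ((2 * L + 5) ^ d) ^ 4 * (ε * (2 * √(6 * ρ)))) * (2 * √(6 * ρ) * K ^ k) := by ring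
      _ ≤ K * (2 * √(6 * ρ) * K ^ k) := mul_le_mul_of_nonneg_right hK (by positivity)
      _ = _ := by ring

/-- decay in probability in terms of the measure `PL` -/
theorem prob_decay (hν : BddDens ν ρ) {L : ℕ} {ε E : ℝ} (hε : 0 ≤ ε)
    (hinit : InitScale d ν L ε E)
    (hK : 2 * d * ((2 * L + 5) ^ d) ^ 4 * (ε * (2 * √(6 * ρ))) ≤ Real.exp (-1))
    (Λ : Finset (Site d)) {x y : Site d} (hx : x ∈ Λ) (hy : y ∈ Λ) :
    PL ν Λ {V | ¬ Good V Λ E x y (Real.exp (-(2 / (3 * (L + 2))) * sd x y))} ≤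
      ENNReal.ofReal (2 * √(6 * ρ) * Real.exp 1 * Real.exp (-(2 / (3 * (L + 2))) * sd x y)) := by
  have hρ := hν.1
  set μ : ℝ := 2 / (3 * (L + 2)) with hμ
  have hμ0 : 0 < μ := by positivity
  set s : ℝ := (sd x y : ℝ) with hs
  set k := sd x y / (L + 2) with hk
  have hk1 : k * (L + 2) ≤ sd x y := Nat.div_mul_le_self _ _
  have hk2 : s ≤ (k + 1) * (L + 2) := by
    rw [hs, hk]
    have : sd x y ≤ (sd x y / (L + 2) + 1) * (L + 2) := by
      have := Nat.lt_div_mul_add (a := sd x y) (b := L + 2) (by omega)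
      rw [add_mul, one_mul]
      omega
    exact_mod_cast this
  have h1 := fm_decay hν hε hinit hK k Λ x y hx hy hk1
  have hdet := PL_det hν Λ Λ le_rfl E
  have hsub : {V : Site d → ℝ | ¬ Good V Λ E x y (Real.exp (-μ * s))} ⊆
      {V | (RM V Λ E).det = 0} ∪
        {V | ENNReal.ofReal (√(Real.exp (-μ * s))) ≤ qg Λ E x y V} := by
    intro V hV
    rw [Set.mem_ofPred_eq, Good, not_and_or, not_not, not_lt] at hV
    rcases hV with h | h
    · exact Or.inl h
    · right
      rw [Set.mem_ofPred_eq, qg]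
      exact ENNReal.ofReal_le_ofReal (Real.sqrt_le_sqrt h)
  refine (measure_mono hsub).trans ((measure_union_le _ _).trans ?_)
  rw [hdet, zero_add]
  have h2 := mul_meas_ge_le_lintegral (μ := PL ν Λ) (measurable_qg Λ E x y)
    (ENNReal.ofReal (√(Real.exp (-μ * s))))
  have h3 := h2.trans h1
  have hpos : 0 < √(Real.exp (-μ * s)) := Real.sqrt_pos.2 (Real.exp_pos _)
  rw [ENNReal.mul_le_iff_le_inv (by simpa using hpos) ENNReal.ofReal_ne_top,
    ← ENNReal.ofReal_inv_of_pos hpos, ← ENNReal.ofReal_mul (by positivity)] at h3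
  refine h3.trans (ENNReal.ofReal_le_ofReal ?_)
  have e1 : (√(Real.exp (-μ * s)))⁻¹ = Real.exp (μ * s / 2) := by
    rw [← Real.exp_half, ← Real.exp_neg]
    congr 1; ring
  have e2 : Real.exp (-1) ^ k = Real.exp (-k) := by
    rw [← Real.exp_nat_mul]; congr 1; ring
  rw [e1, e2]
  have e3 : Real.exp (μ * s / 2) * (2 * √(6 * ρ) * Real.exp (-(k:ℝ))) =
      2 * √(6 * ρ) * Real.exp (μ * s / 2 - k) := by
    rw [sub_eq_add_neg, Real.exp_add]; ring
  have e4 : 2 * √(6 * ρ) * Real.exp 1 * Real.exp (-μ * s) =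
      2 * √(6 * ρ) * Real.exp (1 + -μ * s) := by
    rw [Real.exp_add]; ring
  rw [e3, e4]
  apply mul_le_mul_of_nonneg_left _ (by positivity)
  apply Real.exp_le_exp.2
  have h5 : μ * (L + 2) = 2 / 3 := by rw [hμ]; field_simp
  have h6 : μ * s ≤ (k + 1) * (2 / 3) := by
    rw [← h5]
    calc μ * s ≤ μ * ((k + 1) * (L + 2)) := mul_le_mul_of_nonneg_left hk2 hμ0.le
      _ = _ := by ring
  linarith

end Pool.Agent.Loc
end
end -- Pool.Agent.Helper48_Loc.FM

section -- Pool.Agent.Helper48_Loc.InitTail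

/-!
# The initial scale estimate from a bound on the probability that the form bound fails
-/

set_option autoImplicit false
set_option linter.unusedSectionVars false

open MeasureTheory ProbabilityTheory Function

open scoped ENNReal BigOperators

noncomputable section

namespace Pool.Agent.Loc

open Pool.Agent.Anderson

variable {d : ℕ} {ν : Measure ℝ} [IsProbabilityMeasure ν] {ρ : ℝ}

/-- the potential is form-bounded by `θ (2d + a - Δ_Λ)` -/
def GE (V : Site d → ℝ) (Λ : Finset (Site d)) (a θ : ℝ) : Prop :=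
  ∀ u : Site d → ℝ, |∑ y ∈ Λ, V y * u y ^ 2| ≤ θ * ((2 * d + a) * ∑ y ∈ Λ, u y ^ 2 - hf Λ u)

theorem measurableSet_GE (Λ : Finset (Site d)) (a θ : ℝ) :
    MeasurableSet {V : Site d → ℝ | GE V Λ a θ} := by
  have h1 : {V : Site d → ℝ | GE V Λ a θ} = ⋂ u : Site d → ℝ,
      {V : Site d → ℝ | |∑ y ∈ Λ, V y * u y ^ 2| ≤
        θ * ((2 * d + a) * ∑ y ∈ Λ, u y ^ 2 - hf Λ u)} := by
    ext V
    simp only [GE, Set.mem_ofPred_eq, Set.mem_iInter]
  rw [h1]
  apply IsClosed.measurableSet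
  apply isClosed_iInter
  intro u
  apply isClosed_le _ continuous_const
  apply Continuous.abs
  exact continuous_finsetSum _ fun y _ => (continuous_apply y).mul continuous_const

theorem initScale_of_tail (hν : BddDens ν ρ) {a θ κ p₀ : ℝ} {L : ℕ} (ha : 0 < a) (hθ : θ < 1)
    (hκ : 0 ≤ κ) (hκg : 2 * d * (Real.exp κ - 1) ≤ (1 - θ) * a / 2) (hp₀ : 0 < p₀)
    (hbad : ∀ (x : Site d) (W : Finset (Site d)), W ⊆ box x L →
      PL ν W {V | ¬ GE V W a θ} ≤ ENNReal.ofReal p₀) {E : ℝ} (hE : 2 * d + a ≤ |E|) :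
    InitScale d ν L (√(2 / ((1 - θ) * a)) * Real.exp (-κ * L / 2) + 2 * √(6 * ρ * p₀)) E := by
  intro x W hx hW u hu hxu
  have hρ := hν.1
  have hg : 0 < (1 - θ) * a := mul_pos (by linarith) ha
  set B : Set (Site d → ℝ) := {V | ¬ GE V W a θ} with hB
  have hBm : MeasurableSet B := (measurableSet_GE W a θ).compl
  rw [← lintegral_add_compl _ hBm, add_comm]
  have h1 : ∫⁻ V in Bᶜ, qg W E x u V ∂(PL ν W) ≤
      ENNReal.ofReal (√(2 / ((1 - θ) * a)) * Real.exp (-κ * L / 2)) := by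
    calc ∫⁻ V in Bᶜ, qg W E x u V ∂(PL ν W)
        ≤ ∫⁻ V in Bᶜ, ENNReal.ofReal (√(2 / ((1 - θ) * a)) * Real.exp (-κ * L / 2))
            ∂(PL ν W) := by
          apply setLIntegral_mono measurable_const
          intro V hV
          have hGE : GE V W a θ := by
            by_contra hcon
            exact hV hcon
          obtain ⟨s, hs, hLB⟩ := LB_of_form hθ.le hGE hE
          have h2 := combes_thomas hg hs hLB hκ hκg x u
          unfold qg
          apply ENNReal.ofReal_le_ofReal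
          refine (Real.sqrt_le_sqrt h2).trans (le_of_eq ?_)
          rw [Real.sqrt_mul (by positivity), hxu]
          congr 1
          rw [show -κ * (L : ℝ) = -κ * L / 2 + -κ * L / 2 by ring, Real.exp_add,
            Real.sqrt_mul_self (Real.exp_pos _).le]
          try ring_nf
      _ ≤ ENNReal.ofReal (√(2 / ((1 - θ) * a)) * Real.exp (-κ * L / 2)) * 1 := by
          rw [setLIntegral_const]
          gcongr
          exact prob_le_one
      _ = _ := mul_one _
  have h2 : ∫⁻ V in B, qg W E x u V ∂(PL ν W) ≤ ENNReal.ofReal (2 * √(6 * ρ * p₀)) := by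
    have h3 := PL_sqrt_event hν W E x u B (a := √(6 * ρ / p₀)) (by positivity)
    refine h3.trans ?_
    have h4 : √(6 * ρ / p₀) * p₀ = √(6 * ρ * p₀) := by
      rw [← Real.sqrt_sq (show 0 ≤ √(6 * ρ / p₀) * p₀ by positivity)]
      congr 1
      rw [mul_pow, Real.sq_sqrt (by positivity)]
      field_simp
    have h5 : 6 * ρ / √(6 * ρ / p₀) = √(6 * ρ * p₀) := by
      rw [div_eq_iff (by positivity), ← Real.sqrt_mul (by positivity),
        show 6 * ρ * p₀ * (6 * ρ / p₀) = (6 * ρ) ^ 2 by field_simp,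
        Real.sqrt_sq (by positivity)]
    calc ENNReal.ofReal √(6 * ρ / p₀) * PL ν W B + ENNReal.ofReal (6 * ρ / √(6 * ρ / p₀))
        ≤ ENNReal.ofReal √(6 * ρ / p₀) * ENNReal.ofReal p₀ +
          ENNReal.ofReal (6 * ρ / √(6 * ρ / p₀)) := by
          gcongr
          exact hbad x W hW
      _ = ENNReal.ofReal (2 * √(6 * ρ * p₀)) := by
          rw [← ENNReal.ofReal_mul (by positivity), h4, h5,
            ← ENNReal.ofReal_add (by positivity) (by positivity)]
          congr 1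
          ring
  calc _ ≤ ENNReal.ofReal (√(2 / ((1 - θ) * a)) * Real.exp (-κ * L / 2)) +
        ENNReal.ofReal (2 * √(6 * ρ * p₀)) := add_le_add h1 h2
    _ = _ := (ENNReal.ofReal_add (by positivity) (by positivity)).symm

end Pool.Agent.Loc
end
end -- Pool.Agent.Helper48_Loc.InitTail

section -- Pool.Agent.Helper48_Loc.Half

/-!
# The square root of the free Green function, and the passage from `‖M‖` to the form bound
-/

set_option autoImplicit false
set_option linter.unusedSectionVars false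

open MeasureTheory ProbabilityTheory Function

open scoped ENNReal BigOperators

noncomputable section

namespace Pool.Agent.Loc

section Abstract

variable {n : Type*} [Fintype n] [DecidableEq n]

theorem form_diag_vec (U : Matrix n n ℝ) (w v : n → ℝ) :
    v ⬝ᵥ (U * Matrix.diagonal w * U.transpose).mulVec v =
      ∑ l, (U.transpose.mulVec v) l ^ 2 * w l := by
  rw [← Matrix.mulVec_mulVec, ← Matrix.mulVec_mulVec, Matrix.dotProduct_mulVec,
    ← Matrix.mulVec_transpose]
  unfold dotProduct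
  apply Finset.sum_congr rfl
  intro l _
  rw [Matrix.mulVec_diagonal]
  ring

theorem norm_U {U : Matrix n n ℝ} (hU2 : U * U.transpose = 1) (v : n → ℝ) :
    v ⬝ᵥ v = ∑ l, (U.transpose.mulVec v) l ^ 2 := by
  have h1 : (U.transpose.mulVec v) ⬝ᵥ (U.transpose.mulVec v) = v ⬝ᵥ v := by
    rw [Matrix.dotProduct_mulVec, ← Matrix.mulVec_transpose, Matrix.transpose_transpose,
      Matrix.mulVec_mulVec, hU2, Matrix.one_mulVec]
  rw [← h1]
  unfold dotProduct
  apply Finset.sum_congr rfl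
  intro l _
  ring

theorem diag_mul_diag {U : Matrix n n ℝ} (hU1 : U.transpose * U = 1) (w w' : n → ℝ) :
    (U * Matrix.diagonal w * U.transpose) * (U * Matrix.diagonal w' * U.transpose) =
      U * Matrix.diagonal (fun l => w l * w' l) * U.transpose := by
  rw [show U * Matrix.diagonal w * U.transpose * (U * Matrix.diagonal w' * U.transpose) =
      U * Matrix.diagonal w * (U.transpose * U) * Matrix.diagonal w' * U.transpose by
        simp only [mul_assoc], hU1, mul_one, mul_assoc U, Matrix.diagonal_mul_diagonal]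

theorem diag_symm (U : Matrix n n ℝ) (w : n → ℝ) :
    (U * Matrix.diagonal w * U.transpose).transpose = U * Matrix.diagonal w * U.transpose := by
  rw [Matrix.transpose_mul, Matrix.transpose_mul, Matrix.transpose_transpose,
    Matrix.diagonal_transpose, mul_assoc]

theorem exists_half {R : Matrix n n ℝ} (hR : R.transpose = R) {a : ℝ} (ha : 0 < a)
    (hpos : ∀ v : n → ℝ, a * (v ⬝ᵥ v) ≤ v ⬝ᵥ R.mulVec v) :
    ∃ C B : Matrix n n ℝ, C.transpose = C ∧ B.transpose = B ∧ C * B = 1 ∧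
      C * C = R⁻¹ ∧ B * B = R ∧ ∀ v : n → ℝ, v ⬝ᵥ (C * C).mulVec v ≤ 1 / a * (v ⬝ᵥ v) := by
  obtain ⟨U, lam, hU1, hU2, hp⟩ := exists_diag_real hR
  have hR1 : R = U * Matrix.diagonal lam * U.transpose := by
    have := hp 1
    simpa using this
  have hlam : ∀ l, a ≤ lam l := by
    intro l
    have h1 := hpos (fun i => U i l)
    rw [col_norm hU1, mul_one, ← col_form, hR1] at h1
    have h2 : U.transpose * (U * Matrix.diagonal lam * U.transpose) * U = Matrix.diagonal lam := by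
      rw [show U.transpose * (U * Matrix.diagonal lam * U.transpose) * U =
        (U.transpose * U) * Matrix.diagonal lam * (U.transpose * U) by simp only [mul_assoc], hU1,
        one_mul, mul_one]
    rw [h2, Matrix.diagonal_apply_eq] at h1
    exact h1
  have hlam0 : ∀ l, 0 < lam l := fun l => lt_of_lt_of_le ha (hlam l)
  have hCB : (U * Matrix.diagonal (fun l => (√(lam l))⁻¹) * U.transpose) *
      (U * Matrix.diagonal (fun l => √(lam l)) * U.transpose) = 1 := by
    rw [diag_mul_diag hU1]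
    have : (fun l => (√(lam l))⁻¹ * √(lam l)) = fun _ : n => (1:ℝ) := by
      funext l
      exact inv_mul_cancel₀ (Real.sqrt_pos.2 (hlam0 l)).ne'
    rw [this, Matrix.diagonal_one, mul_one, hU2]
  have hCC : (U * Matrix.diagonal (fun l => (√(lam l))⁻¹) * U.transpose) *
      (U * Matrix.diagonal (fun l => (√(lam l))⁻¹) * U.transpose) =
      U * Matrix.diagonal (fun l => (lam l)⁻¹) * U.transpose := by
    rw [diag_mul_diag hU1]
    congr 3
    funext l
    rw [← mul_inv, Real.mul_self_sqrt (hlam0 l).le]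
  refine ⟨U * Matrix.diagonal (fun l => (√(lam l))⁻¹) * U.transpose,
    U * Matrix.diagonal (fun l => √(lam l)) * U.transpose, diag_symm _ _, diag_symm _ _, hCB,
    ?_, ?_, ?_⟩
  · rw [hCC]
    symm
    apply Matrix.inv_eq_left_inv
    rw [hR1, diag_mul_diag hU1]
    have : (fun l => (lam l)⁻¹ * lam l) = fun _ : n => (1:ℝ) := by
      funext l
      exact inv_mul_cancel₀ (hlam0 l).ne'
    rw [this, Matrix.diagonal_one, mul_one, hU2]
  · rw [diag_mul_diag hU1]
    conv_rhs => rw [hR1]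
    congr 3
    funext l
    exact Real.mul_self_sqrt (hlam0 l).le
  · intro v
    rw [hCC, form_diag_vec, norm_U hU2, Finset.mul_sum]
    apply Finset.sum_le_sum
    intro l _
    rw [mul_comm, ← one_div]
    exact mul_le_mul_of_nonneg_right (one_div_le_one_div_of_le ha (hlam l)) (sq_nonneg _)

/-- from `‖M‖ ≤ θ` to the form bound -/
theorem form_of_MM {C B R : Matrix n n ℝ} (hB : B.transpose = B) (hCB : C * B = 1)
    (hBB : B * B = R) {σ θ : ℝ} {ξ : n → ℝ}
    (h : ∀ v : n → ℝ, |v ⬝ᵥ (MM C σ ξ).mulVec v| ≤ θ * (v ⬝ᵥ v)) (u : n → ℝ) :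
    |∑ y, σ * ξ y * u y ^ 2| ≤ θ * (u ⬝ᵥ R.mulVec u) := by
  have hBC : B * C = 1 := mul_eq_one_comm.1 hCB
  have h1 := h (B.mulVec u)
  have h2 : B.mulVec u ⬝ᵥ B.mulVec u = u ⬝ᵥ R.mulVec u := by
    rw [Matrix.dotProduct_mulVec, ← Matrix.mulVec_transpose, hB, Matrix.mulVec_mulVec, hBB,
      dotProduct_comm]
  have h3 : B.mulVec u ⬝ᵥ (MM C σ ξ).mulVec (B.mulVec u) = ∑ y, σ * ξ y * u y ^ 2 := by
    have h4 : B * MM C σ ξ * B = Matrix.diagonal fun x => σ * ξ x := by
      unfold MM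
      rw [show B * (C * Matrix.diagonal (fun x => σ * ξ x) * C) * B =
        (B * C) * Matrix.diagonal (fun x => σ * ξ x) * (C * B) by simp only [mul_assoc], hBC, hCB,
        one_mul, mul_one]
    have h5 : B.mulVec u ⬝ᵥ (MM C σ ξ).mulVec (B.mulVec u) =
        u ⬝ᵥ (B * MM C σ ξ * B).mulVec u := by
      rw [← Matrix.mulVec_mulVec, ← Matrix.mulVec_mulVec, Matrix.dotProduct_mulVec u,
        ← Matrix.mulVec_transpose, hB]
    rw [h5, h4]
    unfold dotProduct
    apply Finset.sum_congr rfl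
    intro y _
    rw [Matrix.mulVec_diagonal]
    ring
  rw [h2, h3] at h1
  exact h1

end Abstract

open Pool.Agent.Anderson

variable {d : ℕ}

theorem dot_RM_zero (Λ : Finset (Site d)) (E : ℝ) (u : Site d → ℝ) :
    (fun z : Λ => u z) ⬝ᵥ (RM 0 Λ E).mulVec (fun z : Λ => u z) =
      E * ∑ y ∈ Λ, u y ^ 2 - hf Λ u := by
  rw [← qform_eq_dot, qform_eq]
  simp

theorem dot_eq (Λ : Finset (Site d)) (u : Site d → ℝ) :
    (fun z : Λ => u z) ⬝ᵥ (fun z : Λ => u z) = ∑ y ∈ Λ, u y ^ 2 := by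
  unfold dotProduct
  rw [← Finset.sum_coe_sort Λ (fun y => u y ^ 2)]
  apply Finset.sum_congr rfl
  intro z _
  ring

/-- extension by zero -/
def ext0 {Λ : Finset (Site d)} (v : Λ → ℝ) (z : Site d) : ℝ :=
  if hz : z ∈ Λ then v ⟨z, hz⟩ else 0

theorem ext0_coe {Λ : Finset (Site d)} (v : Λ → ℝ) : (fun z : Λ => ext0 v z) = v := by
  funext z
  simp [ext0]

/-- the free form is bounded below -/
theorem RM_zero_pos (Λ : Finset (Site d)) {a : ℝ} (v : Λ → ℝ) :
    a * (v ⬝ᵥ v) ≤ v ⬝ᵥ (RM 0 Λ (2 * d + a)).mulVec v := by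
  have h1 := dot_RM_zero Λ (2 * d + a) (ext0 v)
  have h2 := dot_eq Λ (ext0 v)
  rw [ext0_coe] at h1 h2
  rw [h1, h2]
  have h3 := le_abs_self (hf Λ (ext0 v))
  have h4 := abs_hf_le Λ (ext0 v)
  nlinarith

/-- The hypotheses `Hyp` for the free Green function, and the form bound. -/
theorem exists_C (Λ : Finset (Site d)) {a g κ₂ : ℝ} (ha : 0 < a) (hg : 0 < g) (hκ : 0 ≤ κ₂)
    (hdiag : ∀ x, gr 0 Λ (2 * d + a) x x ≤ g)
    (hsq : ∀ x, ∑ y ∈ Λ, gr 0 Λ (2 * d + a) x y ^ 2 ≤ κ₂) :
    ∃ C : Matrix Λ Λ ℝ, Hyp C a g κ₂ ∧ ∀ (σ θ : ℝ) (ξ : Λ → ℝ) (V : Site d → ℝ),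
      (∀ x : Λ, V x = σ * ξ x) → (∀ v : Λ → ℝ, |v ⬝ᵥ (MM C σ ξ).mulVec v| ≤ θ * (v ⬝ᵥ v)) →
        GE V Λ a θ := by
  obtain ⟨C, B, hC, hB, hCB, hCC, hBB, hnorm⟩ :=
    exists_half (RM_symm 0 Λ (2 * d + a)) ha (RM_zero_pos Λ)
  have hgr : ∀ x y : Λ, (C * C) x y = gr 0 Λ (2 * d + a) x y := by
    intro x y
    rw [hCC]
    unfold gr
    rw [dif_pos ⟨x.2, y.2⟩]
  refine ⟨C, ⟨hC, ha, hg, hκ, ?_, hnorm, ?_⟩, ?_⟩
  · intro x
    rw [hgr]
    exact hdiag x
  · intro x
    have h1 := hsq x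
    rw [← Finset.sum_coe_sort Λ (fun y => gr 0 Λ (2 * d + a) x y ^ 2)] at h1
    simp_rw [hgr]
    exact h1
  · intro σ θ ξ V hV h u
    have h1 := form_of_MM hB hCB hBB h (fun z : Λ => u z)
    rw [dot_RM_zero] at h1
    have h2 : ∑ y ∈ Λ, V y * u y ^ 2 = ∑ y : Λ, σ * ξ y * u y ^ 2 := by
      rw [← Finset.sum_coe_sort Λ (fun y => V y * u y ^ 2)]
      apply Finset.sum_congr rfl
      intro y _
      rw [hV]
    rw [h2]
    exact h1

end Pool.Agent.Loc
end
end -- Pool.Agent.Helper48_Loc.Half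

section -- Pool.Agent.Helper48_Loc.GaussLaw

/-!
# The Gaussian law of the potential, and the probability that the form bound fails
-/

set_option autoImplicit false
set_option linter.unusedSectionVars false

open MeasureTheory ProbabilityTheory Function

open scoped ENNReal BigOperators NNReal

noncomputable section

namespace Pool.Agent.Loc

open Pool.Agent.Anderson

variable {d : ℕ}

/-- the law of `σ ξ`, with `ξ` a standard Gaussian variable -/
def gl (σ : ℝ) : Measure ℝ := γ1.map fun t => σ * t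

instance (σ : ℝ) : IsProbabilityMeasure (gl σ) :=
  Measure.isProbabilityMeasure_map (by fun_prop)

theorem bddDens_gl {σ : ℝ} (hσ : σ ≠ 0) : BddDens (gl σ) (1 / |σ|) := by
  refine ⟨by positivity, fun a b => ?_⟩
  have h1 : gl σ = gaussianReal 0 (.mk (σ ^ 2) (sq_nonneg _)) := by
    unfold gl γ1
    rw [gaussianReal_map_const_mul, mul_zero, mul_one]
  have hv : (NNReal.mk (σ ^ 2) (sq_nonneg _)) ≠ 0 := by
    intro h
    have : σ ^ 2 = 0 := congrArg NNReal.toReal h
    exact hσ (by simpa using this)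
  rw [h1, gaussianReal_apply _ hv]
  calc ∫⁻ x in Set.Icc a b, gaussianPDF 0 (.mk (σ ^ 2) (sq_nonneg _)) x
      ≤ ∫⁻ _x in Set.Icc a b, ENNReal.ofReal (1 / |σ|) := by
        apply setLIntegral_mono measurable_const
        intro x _
        unfold gaussianPDF
        apply ENNReal.ofReal_le_ofReal
        unfold gaussianPDFReal
        have e1 : Real.exp (-(x - 0) ^ 2 / (2 * ((NNReal.mk (σ ^ 2) (sq_nonneg _) : ℝ≥0) : ℝ))) ≤
            1 := by
          rw [Real.exp_le_one_iff]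
          have : 0 ≤ (x - 0) ^ 2 / (2 * σ ^ 2) := by positivity
          change -(x - 0) ^ 2 / (2 * σ ^ 2) ≤ 0
          rw [neg_div]
          linarith
        have e2 : (√(2 * Real.pi * ((NNReal.mk (σ ^ 2) (sq_nonneg _) : ℝ≥0) : ℝ)))⁻¹ ≤
            1 / |σ| := by
          rw [← one_div]
          apply one_div_le_one_div_of_le (by positivity)
          rw [← Real.sqrt_sq_eq_abs]
          apply Real.sqrt_le_sqrt
          change σ ^ 2 ≤ 2 * Real.pi * σ ^ 2
          have := Real.pi_gt_three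
          nlinarith [sq_nonneg σ]
        calc _ ≤ 1 / |σ| * 1 := mul_le_mul e2 e1 (Real.exp_pos _).le (by positivity)
          _ = _ := mul_one _
    _ = ENNReal.ofReal (1 / |σ|) * ENNReal.ofReal (b - a) := by
        rw [setLIntegral_const, Real.volume_Icc]
    _ = ENNReal.ofReal (1 / |σ| * (b - a)) := (ENNReal.ofReal_mul (by positivity)).symm

theorem PL_gl (σ : ℝ) (Λ : Finset (Site d)) {S : Set (Site d → ℝ)} (hS : MeasurableSet S) :
    PL (gl σ) Λ S = γn Λ {ξ | updateFinset (0 : Site d → ℝ) Λ (fun z => σ * ξ z) ∈ S} := by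
  have h1 : (Measure.pi fun _ : Λ => gl σ) = (γn Λ).map fun ξ z => σ * ξ z := by
    unfold gl
    exact (Measure.pi_map_pi (μ := fun _ : Λ => γ1) (f := fun _ t => σ * t)
      (fun _ => by fun_prop)).symm
  have hm1 : Measurable fun (ξ : Λ → ℝ) z => σ * ξ z := by fun_prop
  have hm2 : Measurable (updateFinset (0 : Site d → ℝ) Λ) := measurable_updateFinset
  unfold PL
  rw [h1, Measure.map_map hm2 hm1, Measure.map_apply (hm2.comp hm1) hS]
  rfl

/-- The probability that the form bound fails. -/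
theorem bad_prob {Λ : Finset (Site d)} {a g κ₂ σ : ℝ} (ha : 0 < a) (hg : 0 < g) (hκ : 0 < κ₂)
    (hdiag : ∀ x, gr 0 Λ (2 * d + a) x x ≤ g)
    (hsq : ∀ x, ∑ y ∈ Λ, gr 0 Λ (2 * d + a) x y ^ 2 ≤ κ₂)
    (hσ : σ ≠ 0) (hag : a * g ≤ 1)
    (hq1 : 1 / 2 ≤ σ ^ 2 * g / a) (hq : σ ^ 2 * g / a ≤ 1) {p : ℕ} (hp : 2 ≤ p)
    (hsmall : 1440 * (p : ℝ) ^ 3 * √(σ ^ 2 * κ₂) ≤ 1) {θ : ℝ} (hθ : 0 < θ) :
    PL (gl σ) Λ {V | ¬ GE V Λ a θ} ≤
      ENNReal.ofReal (4 * Λ.card * (σ ^ 2 * g / a / θ ^ 2) ^ p) := by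
  obtain ⟨C, hC, hform⟩ := exists_C Λ ha hg hκ.le hdiag hsq
  have hS : MeasurableSet {V : Site d → ℝ | ¬ GE V Λ a θ} := (measurableSet_GE Λ a θ).compl
  rw [PL_gl σ Λ hS]
  have h1 := tail_bound hC hκ hσ hag hq1 hq hp hsmall hθ
  rw [Fintype.card_coe] at h1
  refine (measure_mono ?_).trans h1
  intro ξ hξ
  simp only [Set.mem_ofPred_eq] at hξ ⊢
  by_contra hcon
  push Not at hcon
  apply hξ
  apply hform σ θ ξ
  · intro x
    simp [updateFinset]
  · intro v
    exact form_le_of_trace (MM_symm hC.symm σ ξ) (by omega) hθ.le hcon.le v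

/-- a cruder bound, for large disorder -/
theorem GE_of_sup {Λ : Finset (Site d)} {a : ℝ} {V : Site d → ℝ}
    (h : ∀ y ∈ Λ, |V y| ≤ a / 2) : GE V Λ a (1 / 2) := by
  intro u
  have h1 := le_abs_self (hf Λ u)
  have h2 := abs_hf_le Λ u
  have h3 : |∑ y ∈ Λ, V y * u y ^ 2| ≤ a / 2 * ∑ y ∈ Λ, u y ^ 2 := by
    rw [Finset.mul_sum]
    refine (Finset.abs_sum_le_sum_abs _ _).trans (Finset.sum_le_sum fun y hy => ?_)
    rw [abs_mul, abs_of_nonneg (sq_nonneg (u y))]
    exact mul_le_mul_of_nonneg_right (h y hy) (sq_nonneg _)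
  linarith

/-- Gaussian tail -/
theorem gauss_tail {t : ℝ} (ht : 0 ≤ t) : γ1 {s | t < |s|} ≤
    ENNReal.ofReal (2 * Real.exp (-t ^ 2 / 2)) := by
  have hint : ∀ c : ℝ, Integrable (fun x : ℝ => Real.exp (c * x)) γ1 :=
    fun c => integrable_exp_mul_gaussianReal c
  have e1 : Real.exp (-t * t) * Real.exp (t ^ 2 / 2) = Real.exp (-t ^ 2 / 2) := by
    rw [← Real.exp_add]; congr 1; ring
  have h1 : γ1.real {s : ℝ | t ≤ s} ≤ Real.exp (-t ^ 2 / 2) := by
    have := measure_ge_le_exp_mul_mgf (μ := γ1) (X := fun x => x) t ht (hint t)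
    rw [mgf_fun_id_gaussianReal] at this
    refine this.trans (le_of_eq ?_)
    rw [← e1]
    simp
  have h2 : γ1.real {s : ℝ | s ≤ -t} ≤ Real.exp (-t ^ 2 / 2) := by
    have := measure_le_le_exp_mul_mgf (μ := γ1) (X := fun x => x) (-t) (neg_nonpos.2 ht)
      (hint (-t))
    rw [mgf_fun_id_gaussianReal] at this
    refine this.trans (le_of_eq ?_)
    rw [← e1]
    simp
  have h3 : {s : ℝ | t < |s|} ⊆ {s : ℝ | t ≤ s} ∪ {s : ℝ | s ≤ -t} := by
    intro s hs
    simp only [Set.mem_ofPred_eq] at hs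
    rcases lt_abs.1 hs with h | h
    · exact Or.inl h.le
    · exact Or.inr (by simp only [Set.mem_ofPred_eq]; linarith)
  have h4 : γ1.real {s : ℝ | t < |s|} ≤ 2 * Real.exp (-t ^ 2 / 2) := by
    calc γ1.real {s : ℝ | t < |s|} ≤ γ1.real ({s : ℝ | t ≤ s} ∪ {s : ℝ | s ≤ -t}) :=
          measureReal_mono h3
      _ ≤ γ1.real {s : ℝ | t ≤ s} + γ1.real {s : ℝ | s ≤ -t} := measureReal_union_le _ _
      _ ≤ _ := by linarith
  rw [← ENNReal.ofReal_toReal (measure_ne_top γ1 _)]
  exact ENNReal.ofReal_le_ofReal h4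

theorem bad_prob_large {Λ : Finset (Site d)} {a σ : ℝ} (ha : 0 < a) (hσ : σ ≠ 0) :
    PL (gl σ) Λ {V | ¬ GE V Λ a (1 / 2)} ≤
      ENNReal.ofReal (2 * Λ.card * Real.exp (-(a / (2 * |σ|)) ^ 2 / 2)) := by
  have hS : MeasurableSet {V : Site d → ℝ | ¬ GE V Λ a (1 / 2)} := (measurableSet_GE Λ a _).compl
  rw [PL_gl σ Λ hS]
  have hσ0 : 0 < |σ| := abs_pos.2 hσ
  have h1 : {ξ : Λ → ℝ | updateFinset (0 : Site d → ℝ) Λ (fun z => σ * ξ z) ∈
      {V : Site d → ℝ | ¬ GE V Λ a (1 / 2)}} ⊆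
      ⋃ z ∈ (Finset.univ : Finset Λ), {ξ | a / (2 * |σ|) < |ξ z|} := by
    intro ξ hξ
    simp only [Set.mem_ofPred_eq] at hξ
    by_contra hcon
    apply hξ
    apply GE_of_sup
    intro y hy
    simp only [Finset.mem_univ, Set.iUnion_true, Set.mem_iUnion, Set.mem_ofPred_eq, not_exists,
      not_lt] at hcon
    have h2 := hcon ⟨y, hy⟩
    have h3 : updateFinset (0 : Site d → ℝ) Λ (fun z => σ * ξ z) y = σ * ξ ⟨y, hy⟩ := by
      simp [updateFinset, hy]
    rw [h3, abs_mul]
    calc |σ| * |ξ ⟨y, hy⟩| ≤ |σ| * (a / (2 * |σ|)) := by gcongr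
      _ = a / 2 := by field_simp
  refine (measure_mono h1).trans ((measure_biUnion_finset_le _ _).trans ?_)
  have h2 : ∀ z : Λ, γn Λ {ξ : Λ → ℝ | a / (2 * |σ|) < |ξ z|} ≤
      ENNReal.ofReal (2 * Real.exp (-(a / (2 * |σ|)) ^ 2 / 2)) := by
    intro z
    have h3 : γn Λ {ξ : Λ → ℝ | a / (2 * |σ|) < |ξ z|} = γ1 {s | a / (2 * |σ|) < |s|} := by
      have hmp := measurePreserving_eval (fun _ : Λ => γ1) z
      have hms : MeasurableSet {s : ℝ | a / (2 * |σ|) < |s|} :=
        measurableSet_lt measurable_const measurable_id.abs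
      rw [← hmp.measure_preimage hms.nullMeasurableSet]
      rfl
    rw [h3]
    exact gauss_tail (by positivity)
  calc ∑ z : Λ, γn Λ {ξ : Λ → ℝ | a / (2 * |σ|) < |ξ z|}
      ≤ ∑ _z : Λ, ENNReal.ofReal (2 * Real.exp (-(a / (2 * |σ|)) ^ 2 / 2)) :=
        Finset.sum_le_sum fun z _ => h2 z
    _ = _ := by
        rw [Finset.sum_const, Finset.card_univ, Fintype.card_coe, nsmul_eq_mul,
          show (Λ.card : ℝ≥0∞) = ENNReal.ofReal (Λ.card : ℝ) by simp,
          ← ENNReal.ofReal_mul (by positivity)]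
        congr 1
        ring

end Pool.Agent.Loc
end
end -- Pool.Agent.Helper48_Loc.GaussLaw
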