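import Pool.Agent.Helper12_MEB.B010

/-!
# Merged copies (generated) of the modules

* `Pool.Agent.Helper54_LY.Ker`
* `Pool.Agent.Helper54_LY.Aff`
* `Pool.Agent.Helper54_LY.Neg`
* `Pool.Agent.Helper54_LY.Fam`
-/

set_option autoImplicit false

section -- Pool.Agent.Helper54_LY.Ker

/-!
# Green functions with a complex potential on finitely many sites

`Ker L W K`: `K` is the kernel of `(L + W)⁻¹`, where `L` is a hopping operator and `Im W < 0`.
`upk u w K` is the kernel after the change `W u ↦ W u + w`.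
-/

set_option autoImplicit false
set_option linter.unusedSectionVars false

open scoped InnerProductSpace ComplexConjugate Topology ENNReal
open MeasureTheory Filter

noncomputable section

namespace Pool.Agent.LY

variable {ι : Type*} [DecidableEq ι]

/-- kernels -/
abbrev Kern (ι : Type*) : Type _ := ι → ι → ℂ

/-- rank one update of a kernel: the potential at `u` is increased by `w` -/
def upk (u : ι) (w : ℂ) (K : Kern ι) : Kern ι :=
  fun x y => K x y - w * K x u * K u y / (1 + w * K u u)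

/-- the function `K f` -/
def app (K : Kern ι) (f : ι →₀ ℂ) (x : ι) : ℂ := f.sum fun y c => K x y * c

/-- the form `⟨f, K f⟩` -/
def form (K : Kern ι) (f : ι →₀ ℂ) : ℂ := f.sum fun x c => conj c * app K f x

/-- `K` is the kernel of `(L + W)⁻¹`. -/
structure Ker (L : (ι → ℂ) →ₗ[ℂ] (ι → ℂ)) (W : ι → ℂ) (K : Kern ι) : Prop where
  symm : ∀ x y, K x y = K y x
  eqn : ∀ x y, L (fun t => K t y) x + W x * K x y = if x = y then 1 else 0
  neg : ∀ x, (W x).im < 0
  pos : ∀ (f : ι →₀ ℂ) (T : Finset (ι)),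
    ∑ u ∈ T, (-(W u).im) * ‖app K f u‖ ^ 2 ≤ (form K f).im

theorem app_single (K : Kern ι) (y : ι) (c : ℂ) (x : ι) :
    app K (Finsupp.single y c) x = K x y * c := by
  unfold app
  rw [Finsupp.sum_single_index (by simp)]

theorem form_single (K : Kern ι) (y : ι) (c : ℂ) :
    form K (Finsupp.single y c) = conj c * (K y y * c) := by
  unfold form
  rw [Finsupp.sum_single_index (by simp), app_single]

theorem app_sub (K : Kern ι) (f g : ι →₀ ℂ) (x : ι) :
    app K (f - g) x = app K f x - app K g x := by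
  unfold app
  rw [Finsupp.sum_sub_index]
  intro y a b
  ring

namespace Ker

variable {L : (ι → ℂ) →ₗ[ℂ] (ι → ℂ)} {W : ι → ℂ} {K : Kern ι} (h : Ker L W K)
include h

/-- the norm bound at one column -/
theorem col (y : ι) (T : Finset (ι)) :
    ∑ u ∈ T, (-(W u).im) * ‖K u y‖ ^ 2 ≤ (K y y).im := by
  have h1 := h.pos (Finsupp.single y 1) T
  rw [form_single] at h1
  simpa [app_single] using h1

theorem im_pos (y : ι) : 0 < (K y y).im := by
  by_contra hcon
  push Not at hcon
  have h0 : ∀ u, K u y = 0 := by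
    intro u
    have h1 := h.col y {u}
    rw [Finset.sum_singleton] at h1
    have h2 := h.neg u
    have h3 : ‖K u y‖ ^ 2 = 0 := by
      have h4 : 0 ≤ ‖K u y‖ ^ 2 := by positivity
      by_contra h5
      have h6 : 0 < ‖K u y‖ ^ 2 := lt_of_le_of_ne h4 (Ne.symm h5)
      have : 0 < (-(W u).im) * ‖K u y‖ ^ 2 := mul_pos (by linarith) h6
      linarith
    exact norm_eq_zero.1 (pow_eq_zero_iff (by norm_num) |>.1 h3)
  have h1 := h.eqn y y
  rw [if_pos rfl] at h1
  have h2 : (fun t => K t y) = 0 := funext h0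
  rw [h2, map_zero, h0] at h1
  simp at h1

theorem ne_zero (y : ι) : K y y ≠ 0 := by
  intro h0
  have := h.im_pos y
  rw [h0] at this
  simp at this

/-- the denominator is not zero -/
theorem den_ne {w : ℂ} (hw : w.im ≤ 0) (u : ι) : 1 + w * K u u ≠ 0 := by
  intro h0
  have h1 : (K u u)⁻¹ = -w := by
    have h2 := h.ne_zero u
    field_simp
    linear_combination h0
  have h3 : ((K u u)⁻¹).im < 0 := by
    rw [Complex.inv_im]
    have h4 := h.im_pos u
    have h5 : 0 < Complex.normSq (K u u) := Complex.normSq_pos.2 (h.ne_zero u)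
    rw [div_neg_iff]
    right
    exact ⟨by linarith, h5⟩
  rw [h1, Complex.neg_im] at h3
  linarith

theorem app_upk {w : ℂ} (u : ι) (f : ι →₀ ℂ) (x : ι) :
    app (upk u w K) f x = app K f x - w * K x u * app K f u / (1 + w * K u u) := by
  unfold app upk
  simp only [Finsupp.sum]
  rw [Finset.mul_sum, Finset.sum_div, ← Finset.sum_sub_distrib]
  refine Finset.sum_congr rfl fun y _ => ?_
  ring

/-- the update of a kernel -/
theorem upd {w : ℂ} (hw : w.im ≤ 0) (u : ι) :
    Ker L (Function.update W u (W u + w)) (upk u w K) where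
  symm x y := by
    unfold upk
    rw [h.symm x y, h.symm x u, h.symm u y]
    ring
  eqn x y := by
    have hD := h.den_ne hw u
    set c : ℂ := w * K u y / (1 + w * K u u) with hc
    have e : (fun t => upk u w K t y) = (fun t => K t y) - c • fun t => K t u := by
      funext t
      rw [Pi.sub_apply, Pi.smul_apply, smul_eq_mul]
      unfold upk
      rw [hc]
      ring
    have e2 : L ((fun t => K t y) - c • fun t => K t u) x =
        L (fun t => K t y) x - c * L (fun t => K t u) x := by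
      rw [map_sub, map_smul, Pi.sub_apply, Pi.smul_apply, smul_eq_mul]
    have e3 : upk u w K x y = K x y - c * K x u := by
      unfold upk
      rw [hc]
      ring
    rw [e, e2, e3]
    have h1 := h.eqn x y
    have h2 := h.eqn x u
    by_cases hx : x = u
    · subst hx
      rw [Function.update_self]
      rw [if_pos rfl] at h2
      have h3 : w * (K x y - c * K x x) = c := by
        rw [hc]
        field_simp
        ring
      linear_combination h1 - c * h2 + h3
    · rw [Function.update_of_ne hx]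
      rw [if_neg hx] at h2
      linear_combination h1 - c * h2
  neg x := by
    by_cases hx : x = u
    · subst hx
      rw [Function.update_self, Complex.add_im]
      have := h.neg x
      linarith
    · rw [Function.update_of_ne hx]
      exact h.neg x
  pos f T := by
    have hD := h.den_ne hw u
    set b : ℂ := app K f u / (1 + w * K u u) with hb
    have hbu : app (upk u w K) f u = b := by
      rw [h.app_upk, hb]
      field_simp
      ring
    set g : ι →₀ ℂ := f - Finsupp.single u (w * b) with hg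
    have hag : ∀ x, app K g x = app (upk u w K) f x := by
      intro x
      rw [hg, app_sub, app_single, h.app_upk, hb]
      ring
    have hform : form K g = form (upk u w K) f - conj (w * b) * b := by
      unfold form
      rw [hg, Finsupp.sum_sub_index (by intros; rw [map_sub]; ring),
        Finsupp.sum_single_index (by simp), ← hg, hag u, hbu]
      congr 1
      unfold Finsupp.sum
      refine Finset.sum_congr rfl fun x _ => ?_
      simp only [hag x]
    have him : (form (upk u w K) f).im = (form K g).im + (-w.im) * ‖b‖ ^ 2 := by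
      have h1 : (conj (w * b) * b).im = (-w.im) * ‖b‖ ^ 2 := by
        rw [map_mul, mul_assoc, Complex.conj_mul', ← Complex.ofReal_pow, Complex.im_mul_ofReal,
          Complex.conj_im]
      rw [hform, Complex.sub_im, h1]
      ring
    rw [him]
    have h1 := h.pos g T
    simp only [hag] at h1
    have h2 : ∑ v ∈ T, (-(Function.update W u (W u + w) v).im) * ‖app (upk u w K) f v‖ ^ 2 ≤
        ∑ v ∈ T, (-(W v).im) * ‖app (upk u w K) f v‖ ^ 2 + (-w.im) * ‖b‖ ^ 2 := by
      by_cases hu : u ∈ T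
      · rw [← Finset.add_sum_erase _ _ hu, ← Finset.add_sum_erase _ _ hu, Function.update_self,
          Complex.add_im, hbu]
        have h3 : ∑ v ∈ T.erase u, (-(Function.update W u (W u + w) v).im) *
            ‖app (upk u w K) f v‖ ^ 2 = ∑ v ∈ T.erase u, (-(W v).im) *
            ‖app (upk u w K) f v‖ ^ 2 := by
          refine Finset.sum_congr rfl fun v hv => ?_
          rw [Function.update_of_ne (Finset.ne_of_mem_erase hv)]
        rw [h3]
        apply le_of_eq
        ring
      · have h3 : ∑ v ∈ T, (-(Function.update W u (W u + w) v).im) *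
            ‖app (upk u w K) f v‖ ^ 2 = ∑ v ∈ T, (-(W v).im) *
            ‖app (upk u w K) f v‖ ^ 2 := by
          refine Finset.sum_congr rfl fun v hv => ?_
          have hvu : v ≠ u := by
            rintro rfl
            exact hu hv
          rw [Function.update_of_ne hvu]
        rw [h3]
        have h4 : 0 ≤ (-w.im) * ‖b‖ ^ 2 := mul_nonneg (by linarith) (by positivity)
        linarith
    linarith

end Ker

/-- updates at different sites commute -/
theorem upk_comm {K : Kern ι} {u v : ι} {w w' : ℂ}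
    (h1 : 1 + w * K u u ≠ 0) (h2 : 1 + w' * K v v ≠ 0)
    (h3 : 1 + w' * upk u w K v v ≠ 0) :
    upk v w' (upk u w K) = upk u w (upk v w' K) := by
  funext x y
  have hD : (1 + w * K u u) * (1 + w' * K v v) - w * w' * K u v * K v u ≠ 0 := by
    have e : (1 + w * K u u) * (1 + w' * K v v) - w * w' * K u v * K v u =
        (1 + w * K u u) * (1 + w' * upk u w K v v) := by
      unfold upk
      field_simp
      ring
    rw [e]
    exact mul_ne_zero h1 h3
  have e1 : 1 + w' * upk u w K v v =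
      ((1 + w * K u u) * (1 + w' * K v v) - w * w' * K u v * K v u) / (1 + w * K u u) := by
    unfold upk
    field_simp
    ring
  have e2 : 1 + w * upk v w' K u u =
      ((1 + w * K u u) * (1 + w' * K v v) - w * w' * K u v * K v u) / (1 + w' * K v v) := by
    unfold upk
    field_simp
    ring
  have g1 : upk v w' (upk u w K) x y = upk u w K x y -
      w' * upk u w K x v * upk u w K v y / (1 + w' * upk u w K v v) := rfl
  have g2 : upk u w (upk v w' K) x y = upk v w' K x y -
      w * upk v w' K x u * upk v w' K u y / (1 + w * upk v w' K u u) := rfl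
  rw [g1, g2, e1, e2]
  unfold upk
  field_simp
  ring

end Pool.Agent.LY
end
end -- Pool.Agent.Helper54_LY.Ker

section -- Pool.Agent.Helper54_LY.Aff

/-!
# Integrals over one potential
-/

set_option autoImplicit false
set_option linter.unusedSectionVars false

open scoped InnerProductSpace ComplexConjugate Topology ENNReal
open MeasureTheory Filter

noncomputable section

namespace Pool.Agent.LY

open Pool.Agent.Loc

/-- the norm as an extended nonnegative number -/
abbrev en (z : ℂ) : ℝ≥0∞ := ENNReal.ofReal ‖z‖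

/-- the first moment -/
def mom1 (ν : Measure ℝ) : ℝ≥0∞ := ∫⁻ v, ENNReal.ofReal |v| ∂ν

section one

variable {ν : Measure ℝ} [IsProbabilityMeasure ν] {ρ : ℝ}

theorem null_singleton (hν : BddDens ν ρ) (a : ℝ) : ν {a} = 0 := by
  have h := hν.2 a a
  rw [Set.Icc_self, sub_self, mul_zero, ENNReal.ofReal_zero] at h
  exact le_antisymm h zero_le

theorem measurable_inv_sub (a : ℂ) : Measurable fun v : ℝ => ‖(v : ℂ) - a‖⁻¹ := by
  have h1 : Continuous fun v : ℝ => ‖(v : ℂ) - a‖ := by fun_prop
  exact h1.measurable.inv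

/-- the fractional moment of `1/|v - a|` -/
theorem lint_sqrt_le (hν : BddDens ν ρ) (a : ℂ) :
    ∫⁻ v : ℝ, ENNReal.ofReal (√(‖(v : ℂ) - a‖⁻¹)) ∂ν ≤ ENNReal.ofReal (1 + 2 * ρ) := by
  have hρ := hν.1
  have hw : ∀ τ : ℝ, 0 < τ → ν {v : ℝ | τ < |‖(v : ℂ) - a‖⁻¹|} ≤ ENNReal.ofReal (2 * ρ / τ) := by
    intro τ hτ
    have hsub : {v : ℝ | τ < |‖(v : ℂ) - a‖⁻¹|} ⊆ Set.Icc (a.re - 1 / τ) (a.re + 1 / τ) := by
      intro v hv
      simp only [Set.mem_ofPred_eq] at hv
      rw [abs_of_nonneg (by positivity)] at hv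
      have h1 : 0 < ‖(v : ℂ) - a‖ := by
        by_contra hcon
        have h2 : ‖(v : ℂ) - a‖ = 0 := le_antisymm (not_lt.1 hcon) (norm_nonneg _)
        rw [h2, inv_zero] at hv
        linarith only [hτ, hv]
      have h3 : ‖(v : ℂ) - a‖ < 1 / τ := by
        rw [lt_div_iff₀ hτ]
        have := (lt_inv_comm₀ hτ h1).1 hv
        rw [← one_div, lt_div_iff₀ hτ] at this
        exact this
      have h4 : |v - a.re| ≤ ‖(v : ℂ) - a‖ := by
        have := Complex.abs_re_le_norm ((v : ℂ) - a)
        simpa using this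
      have h5 := abs_le.1 (h4.trans h3.le)
      constructor <;> linarith only [h5]
    refine (measure_mono hsub).trans ((hν.2 _ _).trans (le_of_eq ?_))
    congr 1
    ring
  have h := weak_sqrt (measurable_inv_sub a) (B := Set.univ) (c := 2 * ρ) (by positivity) hw
    (a := 1) one_pos
  rw [Measure.restrict_univ, measure_univ, mul_one, div_one,
    ← ENNReal.ofReal_add (by norm_num) (by positivity)] at h
  refine le_trans (le_of_eq ?_) h
  refine lintegral_congr fun v => ?_
  rw [abs_of_nonneg (by positivity)]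

/-- the weight in the comparison of `v` with `- i M` -/
def wt (M : ℝ) (a : ℂ) (v : ℝ) : ℝ := (1 + |v| / M) * (1 + (|v| + M) * ‖(v : ℂ) - a‖⁻¹)

theorem one_le_wt {M : ℝ} (hM : 1 ≤ M) (a : ℂ) (v : ℝ) : 1 ≤ wt M a v := by
  unfold wt
  have h1 : 1 ≤ 1 + |v| / M := by
    have : 0 ≤ |v| / M := by positivity
    linarith only [this]
  have h2 : 1 ≤ 1 + (|v| + M) * ‖(v : ℂ) - a‖⁻¹ := by
    have : 0 ≤ (|v| + M) * ‖(v : ℂ) - a‖⁻¹ := by positivity
    linarith
  nlinarith only [h1, h2]

theorem wt_rpow_le {M : ℝ} (hM : 1 ≤ M) (a : ℂ) (v : ℝ) :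
    (wt M a v) ^ (1 / 4 : ℝ) ≤ M * (2 + |v| + √(‖(v : ℂ) - a‖⁻¹)) := by
  set g := ‖(v : ℂ) - a‖⁻¹ with hg
  have hg0 : 0 ≤ g := by positivity
  have hv0 : 0 ≤ |v| := abs_nonneg v
  set s := √g with hs
  have hs0 : 0 ≤ s := Real.sqrt_nonneg _
  have hs2 : s ^ 2 = g := Real.sq_sqrt hg0
  have h0 : 0 ≤ wt M a v := zero_le_one.trans (one_le_wt hM a v)
  have key : wt M a v ≤ (M * (2 + |v| + s)) ^ 4 := by
    have h1 : wt M a v ≤ M * (1 + |v|) ^ 2 * (1 + g) := by
      unfold wt
      rw [← hg]
      have e1 : 1 + |v| / M ≤ 1 + |v| := by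
        have : |v| / M ≤ |v| := div_le_self hv0 hM
        linarith only [this]
      have e2 : 1 + (|v| + M) * g ≤ M * (1 + |v|) * (1 + g) := by
        have k1 : |v| + M ≤ M * (1 + |v|) := by nlinarith only [hM, hv0]
        have k2 : (|v| + M) * g ≤ M * (1 + |v|) * g := mul_le_mul_of_nonneg_right k1 hg0
        have k3 : 1 ≤ M * (1 + |v|) := by nlinarith only [hM, hv0, k1]
        nlinarith only [hM, hv0, k1, k2]
      calc (1 + |v| / M) * (1 + (|v| + M) * g) ≤ (1 + |v|) * (M * (1 + |v|) * (1 + g)) := by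
            apply mul_le_mul e1 e2 (by positivity) (by positivity)
        _ = _ := by ring
    have h2 : 1 + g ≤ (2 + |v| + s) ^ 2 := by
      rw [← hs2]
      nlinarith only [hv0, hs0]
    have h3 : (1 + |v|) ^ 2 ≤ (2 + |v| + s) ^ 2 := by
      apply pow_le_pow_left₀ (by positivity)
      linarith
    have h4 : M ≤ M ^ 4 := by
      calc M = M ^ 1 := (pow_one M).symm
        _ ≤ M ^ 4 := pow_le_pow_right₀ hM (by norm_num)
    calc wt M a v ≤ M * (1 + |v|) ^ 2 * (1 + g) := h1
      _ ≤ M ^ 4 * (2 + |v| + s) ^ 2 * (2 + |v| + s) ^ 2 := by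
          apply mul_le_mul _ h2 (by positivity) (by positivity)
          exact mul_le_mul h4 h3 (by positivity) (by positivity)
      _ = _ := by ring
  calc (wt M a v) ^ (1 / 4 : ℝ) ≤ ((M * (2 + |v| + s)) ^ 4) ^ (1 / 4 : ℝ) :=
        Real.rpow_le_rpow h0 key (by norm_num)
    _ = _ := by
        have h5 : 0 ≤ M * (2 + |v| + s) := by positivity
        rw [← Real.rpow_natCast, ← Real.rpow_mul h5]
        norm_num

/-- the constant of the one site comparison -/
def CC (ν : Measure ℝ) (ρ M : ℝ) : ℝ≥0∞ :=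
  ENNReal.ofReal M * (2 + mom1 ν + ENNReal.ofReal (1 + 2 * ρ))

theorem lint_wt_le (hν : BddDens ν ρ) {M : ℝ} (hM : 1 ≤ M) (a : ℂ) :
    ∫⁻ v, ENNReal.ofReal ((wt M a v) ^ (1 / 4 : ℝ)) ∂ν ≤ CC ν ρ M := by
  have hs : Measurable fun v : ℝ => ENNReal.ofReal (√(‖(v : ℂ) - a‖⁻¹)) :=
    ((measurable_inv_sub a).sqrt).ennreal_ofReal
  have hm : Measurable fun v : ℝ => ENNReal.ofReal |v| := by fun_prop
  calc ∫⁻ v, ENNReal.ofReal ((wt M a v) ^ (1 / 4 : ℝ)) ∂ν
      ≤ ∫⁻ v, ENNReal.ofReal M * (2 + ENNReal.ofReal |v| +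
          ENNReal.ofReal (√(‖(v : ℂ) - a‖⁻¹))) ∂ν := by
        refine lintegral_mono fun v => ?_
        refine (ENNReal.ofReal_le_ofReal (wt_rpow_le hM a v)).trans (le_of_eq ?_)
        rw [ENNReal.ofReal_mul (by linarith), ENNReal.ofReal_add (by positivity) (by positivity),
          ENNReal.ofReal_add (by norm_num) (by positivity), ENNReal.ofReal_ofNat]
    _ = ENNReal.ofReal M * (2 + mom1 ν + ∫⁻ v : ℝ, ENNReal.ofReal (√(‖(v : ℂ) - a‖⁻¹)) ∂ν) := by
        rw [lintegral_const_mul' _ _ ENNReal.ofReal_ne_top, lintegral_add_right _ hs,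
          lintegral_add_right _ hm, lintegral_const, measure_univ, mul_one]
        rfl
    _ ≤ _ := by
        unfold CC
        gcongr
        exact lint_sqrt_le hν a

/-- from a pointwise comparison to the negative moments -/
theorem neg_moment (hν : BddDens ν ρ) {M : ℝ} (hM : 1 ≤ M) (a : ℂ) {F : ℝ → ℂ} {F₀ : ℂ}
    (h : ∀ᵐ v ∂ν, ‖F₀‖ ≤ ‖F v‖ * wt M a v) :
    ∫⁻ v, (en (F v)) ^ (-(1 / 4) : ℝ) ∂ν ≤ CC ν ρ M * (en F₀) ^ (-(1 / 4) : ℝ) := by
  have h1 : ∀ᵐ v ∂ν, (en (F v)) ^ (-(1 / 4) : ℝ) ≤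
      ENNReal.ofReal ((wt M a v) ^ (1 / 4 : ℝ)) * (en F₀) ^ (-(1 / 4) : ℝ) := by
    filter_upwards [h] with v hv
    have hw := one_le_wt hM a v
    have hw0 : 0 < wt M a v := by linarith
    have h2 : en F₀ ≤ en (F v) * ENNReal.ofReal (wt M a v) := by
      unfold en
      rw [← ENNReal.ofReal_mul (norm_nonneg _)]
      exact ENNReal.ofReal_le_ofReal hv
    have h3 : (en F₀) ^ (1 / 4 : ℝ) ≤ (en (F v)) ^ (1 / 4 : ℝ) *
        ENNReal.ofReal ((wt M a v) ^ (1 / 4 : ℝ)) := by
      have := ENNReal.rpow_le_rpow h2 (by norm_num : (0 : ℝ) ≤ 1 / 4)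
      rw [ENNReal.mul_rpow_of_nonneg _ _ (by norm_num),
        ENNReal.ofReal_rpow_of_pos hw0] at this
      exact this
    rw [ENNReal.rpow_neg, ENNReal.rpow_neg]
    have hr0 : ENNReal.ofReal ((wt M a v) ^ (1 / 4 : ℝ)) ≠ 0 := by
      rw [Ne, ENNReal.ofReal_eq_zero, not_le]
      positivity
    have hrt : ENNReal.ofReal ((wt M a v) ^ (1 / 4 : ℝ)) ≠ ∞ := ENNReal.ofReal_ne_top
    have h4 := ENNReal.inv_le_inv.2 h3
    rw [ENNReal.mul_inv (Or.inr hrt) (Or.inr hr0)] at h4
    calc ((en (F v)) ^ (1 / 4 : ℝ))⁻¹ = ENNReal.ofReal ((wt M a v) ^ (1 / 4 : ℝ)) *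
          (((en (F v)) ^ (1 / 4 : ℝ))⁻¹ * (ENNReal.ofReal ((wt M a v) ^ (1 / 4 : ℝ)))⁻¹) := by
          rw [mul_comm _ (((en (F v)) ^ (1 / 4 : ℝ))⁻¹ * _), mul_assoc,
            ENNReal.inv_mul_cancel hr0 hrt, mul_one]
      _ ≤ _ := by gcongr
  calc _ ≤ ∫⁻ v, ENNReal.ofReal ((wt M a v) ^ (1 / 4 : ℝ)) * (en F₀) ^ (-(1 / 4) : ℝ) ∂ν :=
        lintegral_mono_ae h1
    _ ≤ _ := by
        have hmw : Measurable fun v => ENNReal.ofReal ((wt M a v) ^ (1 / 4 : ℝ)) := by
          have : Measurable fun v => wt M a v := by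
            unfold wt
            have := measurable_inv_sub a
            fun_prop
          fun_prop
        rw [lintegral_mul_const _ hmw]
        gcongr
        exact lint_wt_le hν hM a

end one

end Pool.Agent.LY
end
end -- Pool.Agent.Helper54_LY.Aff

section -- Pool.Agent.Helper54_LY.Neg

/-!
# One potential: negative moments, and the ratio of Green functions
-/

set_option autoImplicit false
set_option linter.unusedSectionVars false

open scoped InnerProductSpace ComplexConjugate Topology ENNReal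
open MeasureTheory Filter

noncomputable section

namespace Pool.Agent.LY

open Pool.Agent.Loc

variable {ι : Type*} [DecidableEq ι]

/-- the function of the comparison is a quotient of affine functions -/
theorem upk_eq {K : Kern ι} {u : ι} {w : ℂ} (hD : 1 + w * K u u ≠ 0) (x y : ι) :
    upk u w K x y = (K x y + w * (K u u * K x y - K x u * K u y)) / (1 + w * K u u) := by
  unfold upk
  field_simp
  ring

/-- the numerator: affine function -/
theorem affine_le {p q : ℂ} {M : ℝ} (hM : 0 ≤ M) {v : ℝ} (hv : q ≠ 0 → (v : ℂ) - (-p / q) ≠ 0) :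
    ‖p + (-(M * Complex.I)) * q‖ ≤
      ‖p + v * q‖ * (1 + (|v| + M) * ‖(v : ℂ) - (-p / q)‖⁻¹) := by
  by_cases hq : q = 0
  · subst hq
    simp only [mul_zero, add_zero]
    have h1 : 0 ≤ ‖p‖ := norm_nonneg _
    have h2 : 0 ≤ (|v| + M) * ‖(v : ℂ) - (-p / 0)‖⁻¹ := by positivity
    nlinarith
  · have h0 := hv hq
    have e1 : p + v * q = q * ((v : ℂ) - (-p / q)) := by
      field_simp
      ring
    have e2 : p + (-(M * Complex.I)) * q = (p + v * q) + (-(M * Complex.I) - v) * q := by ring
    have h1 : ‖-((M : ℂ) * Complex.I) - v‖ ≤ |v| + M := by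
      refine (norm_sub_le _ _).trans ?_
      rw [norm_neg, norm_mul, Complex.norm_I, mul_one, Complex.norm_real, Complex.norm_real,
        Real.norm_of_nonneg hM, Real.norm_eq_abs]
      linarith only
    have hpos : 0 < ‖(v : ℂ) - (-p / q)‖ := norm_pos_iff.2 h0
    calc ‖p + (-(M * Complex.I)) * q‖ ≤ ‖p + v * q‖ + ‖(-(M * Complex.I) - v) * q‖ := by
          rw [e2]; exact norm_add_le _ _
      _ ≤ ‖p + v * q‖ + (|v| + M) * ‖q‖ := by
          rw [norm_mul]
          gcongr
      _ = ‖p + v * q‖ * (1 + (|v| + M) * ‖(v : ℂ) - (-p / q)‖⁻¹) := by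
          rw [e1, norm_mul]
          generalize ‖(v : ℂ) - (-p / q)‖ = r at hpos
          field_simp

/-- the denominator -/
theorem den_le {g : ℂ} (hg : 0 < g.im) {M : ℝ} (hM : 0 < M) (v : ℝ) :
    ‖1 + v * g‖ ≤ (1 + |v| / M) * ‖1 + (-(M * Complex.I)) * g‖ := by
  have hg0 : g ≠ 0 := by
    intro h
    rw [h] at hg
    simp at hg
  have e1 : 1 + v * g = (1 + (-(M * Complex.I)) * g) + (v + M * Complex.I) * g := by ring
  -- `‖1 - iMg‖ ≥ M ‖g‖`, hence the claim needs a finer splitting
  set a : ℂ := -g⁻¹ with ha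
  have ha_im : 0 < a.im := by
    rw [ha, Complex.neg_im, Complex.inv_im]
    have h5 : 0 < Complex.normSq g := Complex.normSq_pos.2 hg0
    rw [neg_div, neg_neg]
    positivity
  have f1 : 1 + v * g = g * ((v : ℂ) - a) := by
    rw [ha]; field_simp; ring
  have f2 : 1 + (-(M * Complex.I)) * g = g * (-(M * Complex.I) - a) := by
    rw [ha]; field_simp; ring
  have hsq : ‖-((M : ℂ) * Complex.I) - a‖ ^ 2 = a.re ^ 2 + (M + a.im) ^ 2 := by
    rw [← Complex.normSq_eq_norm_sq, Complex.normSq_apply]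
    simp
    ring
  have hasq : ‖a‖ ^ 2 = a.re ^ 2 + a.im ^ 2 := by
    rw [← Complex.normSq_eq_norm_sq, Complex.normSq_apply]
    ring
  have h1 : ‖a‖ ≤ ‖-((M : ℂ) * Complex.I) - a‖ := by
    apply (pow_le_pow_iff_left₀ (norm_nonneg _) (norm_nonneg _) two_ne_zero).1
    rw [hsq, hasq]
    nlinarith only [hM, ha_im]
  have h2 : M ≤ ‖-((M : ℂ) * Complex.I) - a‖ := by
    apply (pow_le_pow_iff_left₀ hM.le (norm_nonneg _) two_ne_zero).1
    rw [hsq]
    nlinarith only [sq_nonneg a.re, hM, ha_im]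
  rw [f1, f2, norm_mul, norm_mul]
  have h3 : ‖(v : ℂ) - a‖ ≤ (1 + |v| / M) * ‖-((M : ℂ) * Complex.I) - a‖ := by
    calc ‖(v : ℂ) - a‖ ≤ |v| + ‖a‖ := by
          refine (norm_sub_le _ _).trans ?_
          rw [Complex.norm_real, Real.norm_eq_abs]
      _ ≤ |v| / M * ‖-((M : ℂ) * Complex.I) - a‖ + ‖-((M : ℂ) * Complex.I) - a‖ := by
          have : |v| ≤ |v| / M * ‖-((M : ℂ) * Complex.I) - a‖ := by
            rw [div_mul_eq_mul_div, le_div_iff₀ hM]
            exact mul_le_mul_of_nonneg_left h2 (abs_nonneg _)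
          linarith only [h1, this]
      _ = _ := by ring
  calc ‖g‖ * ‖(v : ℂ) - a‖ ≤ ‖g‖ * ((1 + |v| / M) * ‖-((M : ℂ) * Complex.I) - a‖) := by gcongr
    _ = _ := by ring

section

variable {L : (ι → ℂ) →ₗ[ℂ] (ι → ℂ)} {W : ι → ℂ} {K : Kern ι} (h : Ker L W K)
  {ν : Measure ℝ} [IsProbabilityMeasure ν] {ρ : ℝ}
include h

theorem neg_im_le {M : ℝ} (hM : 0 ≤ M) : (-(M * Complex.I)).im ≤ 0 := by
  simp [hM]

/-- the negative moment over one potential, compared with the potential `- i M` -/
theorem Ker.neg_one_aux (hν : BddDens ν ρ) {M : ℝ} (hM : 1 ≤ M) (u x y : ι) :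
    ∫⁻ v : ℝ, (en (upk u v K x y)) ^ (-(1 / 4) : ℝ) ∂ν ≤
      CC ν ρ M * (en (upk u (-(M * Complex.I)) K x y)) ^ (-(1 / 4) : ℝ) := by
  set p := K x y with hp
  set q := K u u * K x y - K x u * K u y with hq
  have hM0 : 0 < M := by linarith
  apply neg_moment hν hM (-p / q)
  have hnull : ∀ᵐ v : ℝ ∂ν, v ≠ (-p / q).re := by
    rw [ae_iff]
    have : {v : ℝ | ¬ v ≠ (-p / q).re} = {(-p / q).re} := by ext; simp
    rw [this]
    exact null_singleton hν _
  filter_upwards [hnull] with v hv
  have hv' : (v : ℂ) - (-p / q) ≠ 0 := by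
    intro h0
    apply hv
    have := congrArg Complex.re h0
    simp only [Complex.sub_re, Complex.ofReal_re, Complex.zero_re] at this
    linarith only [this]
  have hDv := h.den_ne (w := (v : ℂ)) (by simp) u
  have hDM := h.den_ne (w := -(M * Complex.I)) (neg_im_le h hM0.le) u
  rw [upk_eq hDv, upk_eq hDM, ← hp, ← hq, norm_div, norm_div]
  have h1 := affine_le (p := p) (q := q) hM0.le (v := v) (fun _ => hv')
  have h2 := den_le (h.im_pos u) hM0 v
  have hDv0 : 0 < ‖1 + (v : ℂ) * K u u‖ := norm_pos_iff.2 hDv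
  have hDM0 : 0 < ‖1 + (-(M * Complex.I)) * K u u‖ := norm_pos_iff.2 hDM
  have h3 : 1 ≤ (1 + |v| / M) * ‖1 + (-(M * Complex.I)) * K u u‖ / ‖1 + (v : ℂ) * K u u‖ := by
    rw [le_div_iff₀ hDv0, one_mul]
    exact h2
  unfold wt
  calc ‖p + (-(M * Complex.I)) * q‖ / ‖1 + (-(M * Complex.I)) * K u u‖
      ≤ (‖p + v * q‖ * (1 + (|v| + M) * ‖(v : ℂ) - (-p / q)‖⁻¹)) /
          ‖1 + (-(M * Complex.I)) * K u u‖ *
          ((1 + |v| / M) * ‖1 + (-(M * Complex.I)) * K u u‖ / ‖1 + (v : ℂ) * K u u‖) := by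
        have h4 : ‖p + (-(M * Complex.I)) * q‖ / ‖1 + (-(M * Complex.I)) * K u u‖ ≤
            (‖p + v * q‖ * (1 + (|v| + M) * ‖(v : ℂ) - (-p / q)‖⁻¹)) /
            ‖1 + (-(M * Complex.I)) * K u u‖ := by gcongr
        have h5 : 0 ≤ (‖p + v * q‖ * (1 + (|v| + M) * ‖(v : ℂ) - (-p / q)‖⁻¹)) /
            ‖1 + (-(M * Complex.I)) * K u u‖ := by positivity
        nlinarith only [h3, h4, h5]
    _ = _ := by
        generalize ‖(v : ℂ) - (-p / q)‖⁻¹ = g
        generalize hA : ‖1 + (-(M * Complex.I)) * K u u‖ = A at hDM0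
        generalize ‖1 + (v : ℂ) * K u u‖ = B at hDv0
        field_simp

/-- the ratio of the Green functions at a site `u` between `x` and `y` -/
theorem Ker.ratio_le (u x y : ι) (v : ℝ) (hN : upk u v K x y ≠ 0) :
    ‖upk u v K x u‖ * ‖upk u v K u y‖ / ‖upk u v K x y‖ ≤
      ‖(v : ℂ) - (-K x y / (K u u * K x y - K x u * K u y))‖⁻¹ +
        ‖(v : ℂ) - (-1 / K u u)‖⁻¹ := by
  have hD := h.den_ne (w := (v : ℂ)) (by simp) u
  have hg := h.ne_zero u
  set p := K x y with hp
  set q := K u u * K x y - K x u * K u y with hq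
  set D : ℂ := 1 + v * K u u with hDdef
  set N : ℂ := p + v * q with hNdef
  have e1 : upk u v K x u = K x u / D := by
    rw [upk_eq hD]
    congr 1
    ring
  have e2 : upk u v K u y = K u y / D := by
    rw [upk_eq hD]
    congr 1
    ring
  have e3 : upk u v K x y = N / D := upk_eq hD x y
  have hN0 : N ≠ 0 := by
    intro h0
    apply hN
    rw [e3, h0, zero_div]
  have hD0 : 0 < ‖D‖ := norm_pos_iff.2 hD
  have hNp : 0 < ‖N‖ := norm_pos_iff.2 hN0
  rw [e1, e2, e3, norm_div, norm_div, norm_div]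
  have e4 : ‖K x u‖ / ‖D‖ * (‖K u y‖ / ‖D‖) / (‖N‖ / ‖D‖) = ‖K x u * K u y‖ / (‖D‖ * ‖N‖) := by
    rw [norm_mul]
    field_simp
  rw [e4]
  have e5 : K x u * K u y = K u u * N - D * q := by
    rw [hNdef, hDdef, hq, hp]
    ring
  have h1 : ‖K x u * K u y‖ ≤ ‖K u u‖ * ‖N‖ + ‖D‖ * ‖q‖ := by
    rw [e5]
    refine (norm_sub_le _ _).trans ?_
    rw [norm_mul, norm_mul]
  have h2 : ‖K x u * K u y‖ / (‖D‖ * ‖N‖) ≤ ‖q‖ / ‖N‖ + ‖K u u‖ / ‖D‖ := by
    rw [div_add_div _ _ hNp.ne' hD0.ne', mul_comm ‖D‖ ‖N‖]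
    gcongr
    linarith only [h1]
  refine h2.trans (add_le_add ?_ (le_of_eq ?_))
  · by_cases hq0 : q = 0
    · rw [hq0, norm_zero, zero_div]
      positivity
    · have e6 : N = q * ((v : ℂ) - (-p / q)) := by
        rw [hNdef]
        field_simp
        ring
      rw [e6, norm_mul]
      have hq1 : 0 < ‖q‖ := norm_pos_iff.2 hq0
      have : ‖q‖ / (‖q‖ * ‖(v : ℂ) - (-p / q)‖) = ‖(v : ℂ) - (-p / q)‖⁻¹ := by
        field_simp
      rw [this]
  · have e7 : D = K u u * ((v : ℂ) - (-1 / K u u)) := by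
      rw [hDdef]
      field_simp
      ring
    rw [e7, norm_mul]
    have hg1 : 0 < ‖K u u‖ := norm_pos_iff.2 hg
    field_simp

end

end Pool.Agent.LY
end
end -- Pool.Agent.Helper54_LY.Neg

section -- Pool.Agent.Helper54_LY.Fam

/-!
# Families of kernels: several potentials
-/

set_option autoImplicit false
set_option linter.unusedSectionVars false

open scoped InnerProductSpace ComplexConjugate Topology ENNReal
open MeasureTheory Filter

noncomputable section

namespace Pool.Agent.LY

open Pool.Agent.Loc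

variable {ι δ : Type*} [DecidableEq ι] [DecidableEq δ]

/-- The Green functions for all real potentials, at the complex energy `z`. The index `i` has the
potential `V (φ i)`. -/
structure Fam (L : (ι → ℂ) →ₗ[ℂ] (ι → ℂ)) (φ : ι → δ) (z : ℂ) (K₀ : (δ → ℝ) → Kern ι) : Prop where
  ker : ∀ V, Ker L (fun i => (V (φ i) : ℂ) - z) (K₀ V)
  upd : ∀ V i (v : ℝ), K₀ (Function.update V (φ i) v) = upk i ((v : ℂ) - V (φ i)) (K₀ V)
  inj : Function.Injective φ
  meas : ∀ x y, Measurable fun V => K₀ V x y

/-- the potential is `- i M` at the sites of the list `l` -/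
def KL (K₀ : (δ → ℝ) → Kern ι) (φ : ι → δ) (M : ℝ) : List ι → (δ → ℝ) → Kern ι
  | [], V => K₀ V
  | i :: l, V => upk i (-(M * Complex.I)) (KL K₀ φ M l (Function.update V (φ i) 0))

namespace Fam

variable {L : (ι → ℂ) →ₗ[ℂ] (ι → ℂ)} {φ : ι → δ} {z : ℂ} {K₀ : (δ → ℝ) → Kern ι}
  (h : Fam L φ z K₀) {M : ℝ} (hM : 0 ≤ M)
include h hM

theorem ker_KL {l : List ι} (hl : l.Nodup) (V : δ → ℝ) :
    Ker L (fun j => (if j ∈ l then -(M * Complex.I) else (V (φ j) : ℂ)) - z) (KL K₀ φ M l V) := by
  induction l generalizing V with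
  | nil => simpa [KL] using h.ker V
  | cons i l ih =>
    rw [List.nodup_cons] at hl
    have h1 := (ih hl.2 (Function.update V (φ i) 0)).upd (w := -(M * Complex.I)) (by simp [hM]) i
    have e : (Function.update (fun j => (if j ∈ l then -(M * Complex.I)
        else ((Function.update V (φ i) 0 (φ j) : ℝ) : ℂ)) - z) i
        ((if i ∈ l then -(M * Complex.I) else ((Function.update V (φ i) 0 (φ i) : ℝ) : ℂ)) - z +
          -(M * Complex.I))) =
        fun j => (if j ∈ i :: l then -(M * Complex.I) else (V (φ j) : ℂ)) - z := by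
      funext j
      by_cases hj : j = i
      · subst hj
        rw [Function.update_self, if_neg hl.1, Function.update_self, if_pos List.mem_cons_self]
        push_cast
        ring
      · rw [Function.update_of_ne hj, Function.update_of_ne (fun e => hj (h.inj e))]
        simp only [List.mem_cons, hj, false_or]
    have h2 : Ker L _ (KL K₀ φ M (i :: l) V) := h1
    rw [e] at h2
    exact h2

theorem KL_update {l : List ι} (hl : l.Nodup) {i : ι} (hi : i ∉ l) (V : δ → ℝ) (v : ℝ) :
    KL K₀ φ M l (Function.update V (φ i) v) =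
      upk i ((v : ℂ) - V (φ i)) (KL K₀ φ M l V) := by
  induction l generalizing V with
  | nil => exact h.upd V i v
  | cons j l ih =>
    rw [List.nodup_cons] at hl
    rw [List.mem_cons, not_or] at hi
    have hne : φ j ≠ φ i := fun e => hi.1 (h.inj e).symm
    have e1 : KL K₀ φ M (j :: l) (Function.update V (φ i) v) =
        upk j (-(M * Complex.I)) (KL K₀ φ M l
          (Function.update (Function.update V (φ i) v) (φ j) 0)) := rfl
    have e2 : KL K₀ φ M (j :: l) V =
        upk j (-(M * Complex.I)) (KL K₀ φ M l (Function.update V (φ j) 0)) := rfl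
    rw [e1, e2, Function.update_comm hne.symm, ih hl.2 hi.2, Function.update_of_ne hne.symm]
    have hk := h.ker_KL hM hl.2 (Function.update V (φ j) 0)
    have hw : ((v : ℂ) - V (φ i)).im ≤ 0 := by simp
    have hw' : (-(M * Complex.I)).im ≤ 0 := by simp [hM]
    exact upk_comm (hk.den_ne hw i) (hk.den_ne hw' j) ((hk.upd hw i).den_ne hw' j)

theorem meas_KL (l : List ι) (x y : ι) : Measurable fun V => KL K₀ φ M l V x y := by
  induction l generalizing x y with
  | nil => exact h.meas x y
  | cons i l ih =>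
    have hu : Measurable fun V : δ → ℝ => Function.update V (φ i) 0 := measurable_update_left
    have e : (fun V => KL K₀ φ M (i :: l) V x y) = fun V =>
        KL K₀ φ M l (Function.update V (φ i) 0) x y - (-(M * Complex.I)) *
        KL K₀ φ M l (Function.update V (φ i) 0) x i * KL K₀ φ M l (Function.update V (φ i) 0) i y /
        (1 + (-(M * Complex.I)) * KL K₀ φ M l (Function.update V (φ i) 0) i i) := rfl
    rw [e]
    have f : ∀ a b, Measurable fun V => KL K₀ φ M l (Function.update V (φ i) 0) a b :=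
      fun a b => (ih a b).comp hu
    exact (f x y).sub ((((f x i).const_mul _).mul (f i y)).div (((f i i).const_mul _).const_add _))

omit hM in
/-- the negative moment over the potentials of a finite set -/
theorem neg_many {ν : Measure ℝ} [IsProbabilityMeasure ν] {ρ : ℝ} (hν : BddDens ν ρ)
    (hM : 1 ≤ M) {x y : ι} {b : ℝ≥0∞} {B : Finset ι}
    (hb : ∀ l : List ι, l.Nodup → (∀ i, i ∈ l ↔ i ∈ B) → ∀ V,
      (en (KL K₀ φ M l V x y)) ^ (-(1 / 4) : ℝ) ≤ b) (V : δ → ℝ) :
    (∫⋯∫⁻_(B.image φ), (fun V => (en (K₀ V x y)) ^ (-(1 / 4) : ℝ)) ∂(fun _ => ν)) V ≤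
      (CC ν ρ M) ^ B.card * b := by
  have hM0 : 0 ≤ M := by linarith
  have hmeas : ∀ l, Measurable fun V => (en (KL K₀ φ M l V x y)) ^ (-(1 / 4) : ℝ) := fun l =>
    ((h.meas_KL hM0 l x y).norm.ennreal_ofReal).pow_const _
  have key : ∀ s : Finset ι, ∀ l : List ι, l.Nodup → (∀ i ∈ l, i ∉ s) →
      (∀ i, (i ∈ s ∨ i ∈ l) ↔ i ∈ B) → ∀ V,
      (∫⋯∫⁻_(s.image φ), (fun V => (en (KL K₀ φ M l V x y)) ^ (-(1 / 4) : ℝ)) ∂(fun _ => ν)) V ≤
        (CC ν ρ M) ^ s.card * b := by
    intro s
    induction s using Finset.induction_on with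
    | empty =>
      intro l hl _ hB V
      rw [Finset.image_empty, lmarginal_empty, Finset.card_empty, pow_zero, one_mul]
      exact hb l hl (fun i => by simpa using hB i) V
    | insert u s hu ih =>
      intro l hl hdis hB V
      have hul : u ∉ l := fun hmem => hdis u hmem (Finset.mem_insert_self _ _)
      have hφu : φ u ∉ s.image φ := by
        intro hmem
        obtain ⟨i, hi, e⟩ := Finset.mem_image.1 hmem
        exact hu (h.inj e ▸ hi)
      rw [Finset.image_insert, lmarginal_insert' _ (hmeas l) hφu]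
      have hstep : ∀ V, ∫⁻ v, (en (KL K₀ φ M l (Function.update V (φ u) v) x y)) ^
          (-(1 / 4) : ℝ) ∂ν ≤ CC ν ρ M * (en (KL K₀ φ M (u :: l) V x y)) ^ (-(1 / 4) : ℝ) := by
        intro V
        have h1 := (h.ker_KL hM0 hl (Function.update V (φ u) 0)).neg_one_aux hν hM u x y
        refine le_trans (le_of_eq ?_) h1
        refine lintegral_congr fun v => ?_
        have e := h.KL_update hM0 hl hul (Function.update V (φ u) 0) v
        rw [Function.update_idem, Function.update_self, Complex.ofReal_zero, sub_zero] at e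
        rw [e]
      calc _ ≤ (∫⋯∫⁻_(s.image φ), (fun V => CC ν ρ M *
            (en (KL K₀ φ M (u :: l) V x y)) ^ (-(1 / 4) : ℝ)) ∂(fun _ => ν)) V := by
            refine lmarginal_mono (fun V => ?_) V
            exact hstep V
        _ = CC ν ρ M * (∫⋯∫⁻_(s.image φ), (fun V =>
            (en (KL K₀ φ M (u :: l) V x y)) ^ (-(1 / 4) : ℝ)) ∂(fun _ => ν)) V := by
            exact marg_const_mul _ (hmeas (u :: l)) V
        _ ≤ CC ν ρ M * ((CC ν ρ M) ^ s.card * b) := by
            gcongr
            refine ih (u :: l) (List.nodup_cons.2 ⟨hul, hl⟩) ?_ ?_ V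
            · intro i hi
              rcases List.mem_cons.1 hi with rfl | hi
              · exact hu
              · exact fun hs => hdis i hi (Finset.mem_insert_of_mem hs)
            · intro i
              rw [← hB i, Finset.mem_insert, List.mem_cons]
              tauto
        _ = _ := by
            rw [Finset.card_insert_of_notMem hu, pow_succ]
            ring
  have := key B [] List.nodup_nil (by simp) (fun i => by simp) V
  exact this

end Fam

end Pool.Agent.LY
end
end -- Pool.Agent.Helper54_LY.Fam
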