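import Pool.Agent.Helper12_MEB.B010

/-!
# Merged copies (generated) of the modules

* `Pool.Agent.Helper48_Loc.Params`
* `Pool.Agent.Helper48_Loc.Walks`
* `Pool.Agent.Helper48_Loc.Super`
* `Pool.Agent.Helper48_Loc.Transfer`
* `Pool.Agent.Helper48_Loc.TwoBox`
* `Pool.Agent.Helper48_Loc.Assembly`
-/

set_option autoImplicit false

section -- Pool.Agent.Helper48_Loc.Params

/-!
# Choice of the parameters
-/

set_option autoImplicit false
set_option linter.unusedSectionVars false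

open MeasureTheory ProbabilityTheory Function Filter

open scoped ENNReal BigOperators NNReal Topology

noncomputable section

namespace Pool.Agent.Loc

open Pool.Agent.Anderson

variable {d : ℕ}

theorem card_le_of_subset_box {W : Finset (Site d)} {x : Site d} {L : ℕ} (h : W ⊆ box x L) :
    W.card ≤ (2 * L + 1) ^ d := by
  rw [← card_box x L]
  exact Finset.card_le_card h

/-- asymptotics used for small disorder -/
theorem tendsto_aux (m : ℕ) {c γ : ℝ} (hc : 0 < c) (hγ : 0 < γ) :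
    Tendsto (fun τ : ℝ => (τ⁻¹) ^ m * Real.exp (-c * (τ⁻¹) ^ γ)) (𝓝[>] 0) (𝓝 0) := by
  have h1 := tendsto_rpow_mul_exp_neg_mul_atTop_nhds_zero ((m : ℝ) / γ) c hc
  have h2 : Tendsto (fun τ : ℝ => (τ⁻¹) ^ γ) (𝓝[>] 0) atTop :=
    (tendsto_rpow_atTop hγ).comp tendsto_inv_nhdsGT_zero
  have h3 := h1.comp h2
  refine h3.congr' ?_
  filter_upwards [self_mem_nhdsWithin] with τ hτ
  have hτ' : (0:ℝ) < τ := hτ
  have hτ0 : 0 < τ⁻¹ := by positivity
  simp only [Function.comp]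
  rw [← Real.rpow_mul hτ0.le, mul_div_cancel₀ _ hγ.ne', Real.rpow_natCast]

theorem exp_sub_one_le {x : ℝ} (h0 : 0 ≤ x) (h1 : x ≤ 1) : Real.exp x - 1 ≤ 2 * x := by
  have h2 := Real.abs_exp_sub_one_le (x := x) (by rw [abs_of_nonneg h0]; exact h1)
  rw [abs_of_nonneg h0] at h2
  exact (le_abs_self _).trans h2

theorem prm_aux_theta {δ : ℝ} (hδ0 : 0 < δ) (hδ1 : δ ≤ 1) :
    1 + δ / 2 ≤ (1 + δ) * (1 - δ / 8) ^ 2 := by
  have e : (1 + δ) * (1 - δ / 8) ^ 2 - (1 + δ / 2) =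
      δ * (1 - δ) / 4 + δ * δ * (1 + δ) / 64 := by ring
  have e1 : 0 ≤ δ * (1 - δ) := mul_nonneg hδ0.le (sub_nonneg.2 hδ1)
  have e2 : 0 ≤ δ * δ * (1 + δ) := by positivity
  linarith only [e, e1, e2]

/-- exponent bookkeeping -/
theorem prm_pow_three_rpow {t γ : ℝ} (ht0 : 0 < t) {p : ℝ} (hp : 0 ≤ p) (hple : p ≤ 3 * t ^ (2 * γ)) :
    p ^ 3 ≤ 27 * t ^ (6 * γ) := by
  calc p ^ 3 ≤ (3 * t ^ (2 * γ)) ^ 3 := pow_le_pow_left₀ hp hple 3
    _ = 27 * (t ^ (2 * γ)) ^ 3 := by ring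
    _ = 27 * t ^ (6 * γ) := by
        rw [← Real.rpow_natCast (t ^ (2 * γ)) 3, ← Real.rpow_mul ht0.le]
        congr 2
        push_cast
        ring

theorem prm_sq_mul_rpow {G τ η : ℝ} (hG : 0 < G) (hτ : 0 < τ) :
    (τ ^ 2) * (G * τ ^ 2) ^ (-1 + η) = G ^ (-1 + η) * (τ ^ η) ^ 2 := by
  rw [Real.mul_rpow hG.le (sq_nonneg τ)]
  have e3 : τ ^ 2 * (τ ^ 2) ^ (-1 + η) = (τ ^ η) ^ 2 := by
    rw [← Real.rpow_natCast τ 2, ← Real.rpow_mul hτ.le, ← Real.rpow_add hτ,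
      ← Real.rpow_natCast (τ ^ η) 2, ← Real.rpow_mul hτ.le]
    congr 1
    push_cast
    ring
  rw [mul_left_comm, e3]

theorem prm_sqrt_small {G C₅ τ η a : ℝ} (hG : 0 < G) (hC₅ : 0 < C₅) (hη1 : η ≤ 1) (hτ : 0 < τ)
    (hageq : G * τ ^ 2 ≤ a) :
    √(τ ^ 2 * (C₅ * a ^ (-1 + η))) ≤ √(C₅ * G ^ (-1 + η)) * τ ^ η := by
  have hGτ : 0 < G * τ ^ 2 := mul_pos hG (pow_pos hτ 2)
  have e1 : a ^ (-1 + η) ≤ (G * τ ^ 2) ^ (-1 + η) :=
    Real.rpow_le_rpow_of_nonpos hGτ hageq (by linarith only [hη1])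
  have e0 : 0 ≤ C₅ * G ^ (-1 + η) := mul_nonneg hC₅.le (Real.rpow_nonneg hG.le _)
  have e2 : τ ^ 2 * (C₅ * a ^ (-1 + η)) ≤ C₅ * G ^ (-1 + η) * (τ ^ η) ^ 2 := by
    calc τ ^ 2 * (C₅ * a ^ (-1 + η)) ≤ τ ^ 2 * (C₅ * (G * τ ^ 2) ^ (-1 + η)) :=
          mul_le_mul_of_nonneg_left (mul_le_mul_of_nonneg_left e1 hC₅.le) (sq_nonneg τ)
      _ = C₅ * (τ ^ 2 * (G * τ ^ 2) ^ (-1 + η)) := by rw [mul_left_comm]
      _ = C₅ * G ^ (-1 + η) * (τ ^ η) ^ 2 := by rw [prm_sq_mul_rpow hG hτ, mul_assoc]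
  refine (Real.sqrt_le_sqrt e2).trans (le_of_eq ?_)
  rw [Real.sqrt_mul e0, Real.sqrt_sq (Real.rpow_nonneg hτ.le _)]

theorem prm_small_le_one {G C₅ τ t η γ a Q : ℝ} {p : ℕ} (hG : 0 < G) (hC₅ : 0 < C₅) (hη1 : η ≤ 1)
    (hγ : γ = η / 12) (hτ : 0 < τ) (ht : t = τ⁻¹) (hageq : G * τ ^ 2 ≤ a)
    (hQ : Q = 1440 * 27 * √(C₅ * G ^ (-1 + η))) (h3 : Q * τ ^ (η / 2) < 1)
    (hple : (p:ℝ) ≤ 3 * t ^ (2 * γ)) :
    1440 * (p : ℝ) ^ 3 * √(τ ^ 2 * (C₅ * a ^ (-1 + η))) ≤ 1 := by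
  have ht0 : 0 < t := by rw [ht]; exact inv_pos.2 hτ
  have e4 := prm_sqrt_small hG hC₅ hη1 hτ hageq
  have e5 := prm_pow_three_rpow ht0 (Nat.cast_nonneg p) hple
  have e6 : t ^ (6 * γ) * τ ^ η = τ ^ (η / 2) := by
    rw [ht, Real.inv_rpow hτ.le, ← Real.rpow_neg hτ.le, ← Real.rpow_add hτ]
    congr 1
    rw [hγ]; ring
  have e7 : 0 ≤ t ^ (6 * γ) := Real.rpow_nonneg ht0.le _
  calc 1440 * (p : ℝ) ^ 3 * √(τ ^ 2 * (C₅ * a ^ (-1 + η)))
      ≤ 1440 * (27 * t ^ (6 * γ)) * (√(C₅ * G ^ (-1 + η)) * τ ^ η) :=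
        mul_le_mul (mul_le_mul_of_nonneg_left e5 (by norm_num)) e4 (Real.sqrt_nonneg _)
          (mul_nonneg (by norm_num) (mul_nonneg (by norm_num) e7))
    _ = Q * (t ^ (6 * γ) * τ ^ η) := by rw [hQ]; ring
    _ = Q * τ ^ (η / 2) := by rw [e6]
    _ ≤ 1 := h3.le

theorem prm_sqrt_two_div {G τ t γ δ a g₀ : ℝ} (hG : 0 < G) (hτ : 0 < τ) (h1 : τ < 1)
    (ht : t = τ⁻¹) (ht1 : 1 ≤ t) (hγ1 : γ ≤ 1 / 12) (hδ : δ = τ ^ γ)
    (hageq : G * τ ^ 2 ≤ a) (hg₀ : g₀ = δ / 8 * a) :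
    √(2 / g₀) ≤ √(16 / G) * t ^ 2 := by
  have hδ0 : 0 < δ := by rw [hδ]; exact Real.rpow_pos_of_pos hτ _
  have hGτ : 0 < G * τ ^ 2 := mul_pos hG (pow_pos hτ 2)
  have f3 : τ ≤ δ := by
    rw [hδ]
    calc τ = τ ^ (1:ℝ) := (Real.rpow_one τ).symm
      _ ≤ τ ^ γ := Real.rpow_le_rpow_of_exponent_ge hτ h1.le (by linarith only [hγ1])
  have f2 : G * τ ^ 3 / 8 ≤ g₀ := by
    rw [hg₀]
    calc G * τ ^ 3 / 8 = τ / 8 * (G * τ ^ 2) := by ring
      _ ≤ δ / 8 * a := mul_le_mul (div_le_div_of_nonneg_right f3 (by norm_num)) hageq hGτ.le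
          (by positivity)
  have f1 : 2 / g₀ ≤ 16 / G * (t ^ 2) ^ 2 := by
    calc 2 / g₀ ≤ 2 / (G * τ ^ 3 / 8) :=
          div_le_div_of_nonneg_left (by norm_num) (by positivity) f2
      _ = 16 / G * t ^ 3 := by rw [ht]; field_simp; norm_num
      _ ≤ 16 / G * (t ^ 2) ^ 2 := by
          rw [← pow_mul]
          exact mul_le_mul_of_nonneg_left (pow_le_pow_right₀ ht1 (by norm_num)) (by positivity)
  refine (Real.sqrt_le_sqrt f1).trans (le_of_eq ?_)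
  rw [Real.sqrt_mul (by positivity), Real.sqrt_sq (by positivity)]

theorem prm_exp_kappa_le {d : ℕ} {G τ t γ δ a κ c : ℝ} {L : ℕ} (hd0 : (0:ℝ) < d) (hG : 0 < G)
    (hτ : 0 < τ) (ht : t = τ⁻¹) (ht1 : 1 ≤ t) (hγ1 : γ ≤ 1 / 12) (hδ : δ = τ ^ γ)
    (hageq : G * τ ^ 2 ≤ a) (hκ : κ = δ / 8 * a / (8 * d)) (hL : t ^ 3 ≤ L)
    (hc : c ≤ G / (128 * d)) :
    Real.exp (-κ * L / 2) ≤ Real.exp (-c * t ^ γ) := by
  have ht0 : 0 < t := by linarith only [ht1]
  have hδ0 : 0 < δ := by rw [hδ]; exact Real.rpow_pos_of_pos hτ _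
  have hGτ : 0 < G * τ ^ 2 := mul_pos hG (pow_pos hτ 2)
  have f3 : G * τ ^ (2 + γ) ≤ δ * a := by
    rw [Real.rpow_add hτ, Real.rpow_two, ← hδ]
    calc G * (τ ^ 2 * δ) = δ * (G * τ ^ 2) := by ring
      _ ≤ δ * a := mul_le_mul_of_nonneg_left hageq hδ0.le
  have f2 : G * τ ^ (2 + γ) / (64 * d) ≤ κ := by
    rw [hκ]
    calc G * τ ^ (2 + γ) / (64 * d) ≤ δ * a / (64 * d) :=
          div_le_div_of_nonneg_right f3 (by positivity)
      _ = δ / 8 * a / (8 * d) := by field_simp; norm_num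
  have f4 : t ^ γ ≤ τ ^ (2 + γ) * t ^ 3 := by
    have f5 : τ ^ (2 + γ) * t ^ 3 = t ^ (1 - γ) := by
      rw [ht, Real.inv_rpow hτ.le, ← Real.rpow_neg hτ.le, inv_pow,
        ← Real.rpow_natCast τ 3, ← Real.rpow_neg hτ.le, ← Real.rpow_add hτ]
      congr 1
      push_cast
      ring
    rw [f5]
    exact Real.rpow_le_rpow_of_exponent_le ht1 (by linarith only [hγ1])
  have hκ0 : 0 ≤ κ := by
    refine le_trans ?_ f2
    positivity
  have f1 : G / (128 * d) * t ^ γ ≤ κ * L / 2 := by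
    calc G / (128 * d) * t ^ γ ≤ G / (128 * d) * (τ ^ (2 + γ) * t ^ 3) :=
          mul_le_mul_of_nonneg_left f4 (by positivity)
      _ = G * τ ^ (2 + γ) / (64 * d) * t ^ 3 / 2 := by ring
      _ ≤ κ * L / 2 := div_le_div_of_nonneg_right
          (mul_le_mul f2 hL (by positivity) hκ0) (by norm_num)
  have f6 : c * t ^ γ ≤ G / (128 * d) * t ^ γ :=
    mul_le_mul_of_nonneg_right hc (Real.rpow_nonneg ht0.le _)
  apply Real.exp_le_exp.2
  linarith only [f1, f6]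

theorem prm_sqrt_six_le {d : ℕ} {τ t γ c p₀ : ℝ} (ht : t = τ⁻¹) (ht1 : 1 ≤ t)
    (hp₀ : p₀ = 4 * (5 * t ^ 3) ^ d * Real.exp (-(t ^ γ / 4))) (hc : c ≤ 1 / 8) :
    √(6 * (1 / τ) * p₀) ≤ √(24 * 5 ^ d) * t ^ (3 * d + 1) * Real.exp (-c * t ^ γ) := by
  have ht0 : 0 < t := by linarith only [ht1]
  have f2 : Real.exp (-(t ^ γ / 4)) ≤ Real.exp (-c * t ^ γ) ^ 2 := by
    rw [← Real.exp_nat_mul]
    apply Real.exp_le_exp.2
    have f3 : c * t ^ γ ≤ 1 / 8 * t ^ γ :=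
      mul_le_mul_of_nonneg_right hc (Real.rpow_nonneg ht0.le _)
    push_cast
    linarith only [f3]
  have f4 : t ^ (3 * d + 1) ≤ (t ^ (3 * d + 1)) ^ 2 :=
    le_self_pow₀ (one_le_pow₀ ht1) two_ne_zero
  have f1 : 6 * (1 / τ) * p₀ ≤ 24 * 5 ^ d * (t ^ (3 * d + 1) * Real.exp (-c * t ^ γ)) ^ 2 := by
    calc 6 * (1 / τ) * p₀ = 24 * 5 ^ d * (t ^ (3 * d + 1) * Real.exp (-(t ^ γ / 4))) := by
          rw [hp₀, one_div, ← ht, mul_pow, ← pow_mul, pow_succ]
          ring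
      _ ≤ 24 * 5 ^ d * ((t ^ (3 * d + 1)) ^ 2 * Real.exp (-c * t ^ γ) ^ 2) :=
          mul_le_mul_of_nonneg_left
            (mul_le_mul f4 f2 (Real.exp_pos _).le (by positivity)) (by positivity)
      _ = 24 * 5 ^ d * (t ^ (3 * d + 1) * Real.exp (-c * t ^ γ)) ^ 2 := by rw [mul_pow]
  refine (Real.sqrt_le_sqrt f1).trans (le_of_eq ?_)
  rw [Real.sqrt_mul (by positivity), Real.sqrt_sq (by positivity), mul_assoc]

theorem prm_sqrt_six_inv_le {τ t : ℝ} (ht : t = τ⁻¹) (ht1 : 1 ≤ t) : √(6 * (1 / τ)) ≤ √6 * t := by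
  have ht0 : 0 < t := by linarith only [ht1]
  rw [Real.sqrt_mul (by norm_num), one_div, ← ht]
  refine mul_le_mul_of_nonneg_left ?_ (Real.sqrt_nonneg _)
  calc √t ≤ √(t ^ 2) := Real.sqrt_le_sqrt (le_self_pow₀ ht1 two_ne_zero)
    _ = t := Real.sqrt_sq ht0.le

/-- the numerical condition -/
theorem prm_num_cond {d : ℕ} {G t γ c K A E P R : ℝ} {L m : ℕ}
    (ht1 : 1 ≤ t) (hLle : (L:ℝ) ≤ 2 * t ^ 3)
    (hK : K = 2 * d * 9 ^ (d * 4) * ((√(16 / G) + 2 * √(24 * 5 ^ d)) * (2 * √6)))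
    (hm : m = 3 * (d * 4) + (3 * d + 2) + 1)
    (h4 : K * (t ^ m * Real.exp (-c * t ^ γ)) < Real.exp (-1))
    (hA0 : 0 ≤ A) (hA : A ≤ √(16 / G) * t ^ 2) (hE0 : 0 ≤ E) (hE : E ≤ Real.exp (-c * t ^ γ))
    (hP0 : 0 ≤ P) (hP : P ≤ √(24 * 5 ^ d) * t ^ (3 * d + 1) * Real.exp (-c * t ^ γ))
    (hR0 : 0 ≤ R) (hR : R ≤ √6 * t) :
    2 * d * ((2 * (L:ℝ) + 5) ^ d) ^ 4 * ((A * E + 2 * P) * (2 * R)) ≤ Real.exp (-1) := by
  have ht0 : 0 < t := by linarith only [ht1]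
  have ht3 : 1 ≤ t ^ 3 := one_le_pow₀ ht1
  set X : ℝ := Real.exp (-c * t ^ γ) with hX
  have hX0 : 0 < X := Real.exp_pos _
  clear_value X
  have e5 : ((2 * (L:ℝ) + 5) ^ d) ^ 4 ≤ 9 ^ (d * 4) * t ^ (3 * (d * 4)) := by
    rw [← pow_mul]
    calc (2 * (L:ℝ) + 5) ^ (d * 4) ≤ (9 * t ^ 3) ^ (d * 4) := by
          apply pow_le_pow_left₀ (by positivity)
          linarith only [hLle, ht3]
      _ = 9 ^ (d * 4) * t ^ (3 * (d * 4)) := by rw [mul_pow, ← pow_mul]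
  have f1 : A * E ≤ √(16 / G) * t ^ (3 * d + 2) * X := by
    calc A * E ≤ (√(16 / G) * t ^ 2) * X :=
          mul_le_mul hA hE hE0 (by positivity)
      _ ≤ √(16 / G) * t ^ (3 * d + 2) * X :=
          mul_le_mul_of_nonneg_right (mul_le_mul_of_nonneg_left
            (pow_le_pow_right₀ ht1 (by omega)) (Real.sqrt_nonneg _)) hX0.le
  have f2 : P ≤ √(24 * 5 ^ d) * t ^ (3 * d + 2) * X :=
    hP.trans (mul_le_mul_of_nonneg_right (mul_le_mul_of_nonneg_left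
            (pow_le_pow_right₀ ht1 (by omega)) (Real.sqrt_nonneg _)) hX0.le)
  have e6 : A * E + 2 * P ≤ (√(16 / G) + 2 * √(24 * 5 ^ d)) * t ^ (3 * d + 2) * X := by
    have e : (√(16 / G) + 2 * √(24 * 5 ^ d)) * t ^ (3 * d + 2) * X =
      √(16 / G) * t ^ (3 * d + 2) * X + 2 * (√(24 * 5 ^ d) * t ^ (3 * d + 2) * X) := by ring
    linarith only [e, f1, f2]
  have g0 : 0 ≤ A * E + 2 * P := by positivity
  have g1 : (A * E + 2 * P) * (2 * R) ≤
      (√(16 / G) + 2 * √(24 * 5 ^ d)) * t ^ (3 * d + 2) * X * (2 * (√6 * t)) :=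
    mul_le_mul e6 (by linarith only [hR]) (by positivity) (by positivity)
  calc 2 * d * ((2 * (L:ℝ) + 5) ^ d) ^ 4 * ((A * E + 2 * P) * (2 * R))
      ≤ 2 * d * (9 ^ (d * 4) * t ^ (3 * (d * 4))) *
        ((√(16 / G) + 2 * √(24 * 5 ^ d)) * t ^ (3 * d + 2) * X * (2 * (√6 * t))) :=
        mul_le_mul (mul_le_mul_of_nonneg_left e5 (by positivity)) g1 (by positivity)
          (by positivity)
    _ = K * (t ^ m * X) := by
        rw [hK, hm, pow_succ t (3 * (d * 4) + (3 * d + 2)), pow_add t (3 * (d * 4))]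
        ring
    _ ≤ Real.exp (-1) := h4.le

/-- the conditions which hold for all small disorders -/
theorem prm_ev_small {G Q η K c γ : ℝ} (m : ℕ) (hG : 0 < G) (hη : 0 < η) (hc : 0 < c) (hγ : 0 < γ) :
    ∃ σ₀ : ℝ, 0 < σ₀ ∧ ∀ τ : ℝ, 0 < τ → τ < σ₀ → τ < 1 ∧ 2 * G * τ ^ 2 < min 1 (1 / G) ∧
      Q * τ ^ (η / 2) < 1 ∧ K * ((τ⁻¹) ^ m * Real.exp (-c * (τ⁻¹) ^ γ)) < Real.exp (-1) := by
  have ev1 : ∀ᶠ τ : ℝ in 𝓝[>] 0, τ < 1 := by
    filter_upwards [Ioo_mem_nhdsGT (show (0:ℝ) < 1 by norm_num)] with τ hτ using hτ.2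
  have ev2 : ∀ᶠ τ : ℝ in 𝓝[>] 0, 2 * G * τ ^ 2 < min 1 (1 / G) := by
    have h1 : Tendsto (fun τ : ℝ => 2 * G * τ ^ 2) (𝓝 0) (𝓝 (2 * G * 0 ^ 2)) := by
      apply Continuous.tendsto; fun_prop
    have h2 : Tendsto (fun τ : ℝ => 2 * G * τ ^ 2) (𝓝[>] 0) (𝓝 0) := by
      rw [show (2 * G * 0 ^ 2 : ℝ) = 0 by ring] at h1
      exact h1.mono_left nhdsWithin_le_nhds
    exact h2.eventually_lt_const (by positivity)
  have ev3 : ∀ᶠ τ : ℝ in 𝓝[>] 0, Q * τ ^ (η / 2) < 1 := by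
    have h1 : Tendsto (fun τ : ℝ => Q * τ ^ (η / 2)) (𝓝 0) (𝓝 (Q * 0 ^ (η / 2))) := by
      apply Tendsto.const_mul
      exact (Real.continuousAt_rpow_const 0 (η / 2) (Or.inr (by positivity))).tendsto
    rw [Real.zero_rpow (by positivity), mul_zero] at h1
    exact (h1.mono_left nhdsWithin_le_nhds).eventually_lt_const (by norm_num)
  have ev4 : ∀ᶠ τ : ℝ in 𝓝[>] 0,
      K * ((τ⁻¹) ^ m * Real.exp (-c * (τ⁻¹) ^ γ)) < Real.exp (-1) := by
    have h1 := (tendsto_aux m hc hγ).const_mul K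
    rw [mul_zero] at h1
    exact h1.eventually_lt_const (Real.exp_pos _)
  have evall := ev1.and (ev2.and (ev3.and ev4))
  rw [eventually_nhdsWithin_iff, Metric.eventually_nhds_iff] at evall
  obtain ⟨σ₀, hσ₀, hall⟩ := evall
  refine ⟨σ₀, hσ₀, fun τ hτ hσσ => ?_⟩
  exact hall (y := τ) (by rw [Real.dist_eq, sub_zero, abs_of_pos hτ]; exact hσσ) hτ

/-- the geometric decay of the bad probability -/
theorem prm_decay_pow {σ τ t γ δ a G θ : ℝ} {p : ℕ} (hτ : 0 < τ) (ht : t = τ⁻¹) (ht0 : 0 < t)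
    (hδ : δ = τ ^ γ) (hδ0 : 0 < δ) (hδ1 : δ ≤ 1) (hθ : θ = 1 - δ / 8) (hθ0 : 0 < θ)
    (hq : σ ^ 2 * G / a = 1 / (1 + δ)) (hpge : t ^ (2 * γ) ≤ p) :
    (σ ^ 2 * G / a / θ ^ 2) ^ p ≤ Real.exp (-(t ^ γ / 4)) := by
  have e1 := exp_sub_one_le (x := δ / 4) (by linarith only [hδ0]) (by linarith only [hδ1])
  have e2 : 1 + δ / 2 ≤ (1 + δ) * θ ^ 2 := by
    rw [hθ]
    exact prm_aux_theta hδ0 hδ1
  have h0 : 0 ≤ σ ^ 2 * G / a / θ ^ 2 := by
    rw [hq]
    have : 0 < 1 + δ := by linarith only [hδ0]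
    positivity
  have hθq : σ ^ 2 * G / a / θ ^ 2 ≤ Real.exp (-(δ / 4)) := by
    rw [hq, div_div, Real.exp_neg, ← one_div]
    apply one_div_le_one_div_of_le (Real.exp_pos _)
    linarith only [e1, e2]
  have hpδ : t ^ γ / 4 ≤ p * (δ / 4) := by
    have e1 : t ^ γ = t ^ (2 * γ) * δ := by
      have e3 : t * τ = 1 := by rw [ht]; exact inv_mul_cancel₀ hτ.ne'
      rw [hδ, show (2 * γ) = γ + γ by ring, Real.rpow_add ht0, mul_assoc,
        ← Real.mul_rpow ht0.le hτ.le, e3, Real.one_rpow, mul_one]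
    have := mul_le_mul_of_nonneg_right hpge hδ0.le
    rw [e1]
    linarith only [this]
  calc (σ ^ 2 * G / a / θ ^ 2) ^ p ≤ (Real.exp (-(δ / 4))) ^ p := pow_le_pow_left₀ h0 hθq p
    _ = Real.exp (-(p * (δ / 4))) := by
        rw [← Real.exp_nat_mul]; congr 1; ring
    _ ≤ Real.exp (-(t ^ γ / 4)) := Real.exp_le_exp.2 (by linarith only [hpδ])

/-- The initial scale estimate for weak disorder. -/
theorem regime_small (hd : 1 ≤ d) {G C₅ η : ℝ} (hG : 0 < G) (hC₅ : 0 < C₅) (hη : 0 < η)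
    (hη1 : η ≤ 1)
    (hD3 : ∀ (Λ : Finset (Site d)) (a : ℝ) (x : Site d), 0 < a → gr 0 Λ (2 * d + a) x x ≤ G)
    (hD5 : ∀ (Λ : Finset (Site d)) (a : ℝ) (x : Site d), 0 < a → a ≤ 1 →
      ∑ y ∈ Λ, gr 0 Λ (2 * d + a) x y ^ 2 ≤ C₅ * a ^ (-1 + η)) :
    ∃ σ₀ : ℝ, 0 < σ₀ ∧ ∀ σ : ℝ, σ ≠ 0 → |σ| < σ₀ → ∃ (L : ℕ) (ε : ℝ), 0 ≤ ε ∧
      (∀ E : ℝ, 2 * d + (G * σ ^ 2 + G * |σ| ^ (2 + η / 12)) ≤ |E| →
        InitScale d (gl σ) L ε E) ∧
      2 * d * ((2 * L + 5) ^ d) ^ 4 * (ε * (2 * √(6 * (1 / |σ|)))) ≤ Real.exp (-1) := by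
  obtain ⟨γ, hγdef⟩ : ∃ γ : ℝ, γ = η / 12 := ⟨_, rfl⟩
  have hγ : 0 < γ := by rw [hγdef]; linarith only [hη]
  have hγ1 : γ ≤ 1 / 12 := by rw [hγdef]; linarith only [hη1]
  have hd0 : (0:ℝ) < d := by exact_mod_cast hd
  have hd1 : (1:ℝ) ≤ d := by exact_mod_cast hd
  obtain ⟨c, hcdef⟩ : ∃ c : ℝ, c = min (G / (128 * d)) (1 / 8) := ⟨_, rfl⟩
  have hc : 0 < c := by rw [hcdef]; positivity
  obtain ⟨K, hK⟩ : ∃ K : ℝ, K = 2 * d * 9 ^ (d * 4) *
    ((√(16 / G) + 2 * √(24 * 5 ^ d)) * (2 * √6)) := ⟨_, rfl⟩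
  obtain ⟨m, hm⟩ : ∃ m : ℕ, m = 3 * (d * 4) + (3 * d + 2) + 1 := ⟨_, rfl⟩
  obtain ⟨Q, hQ⟩ : ∃ Q : ℝ, Q = 1440 * 27 * √(C₅ * G ^ (-1 + η)) := ⟨_, rfl⟩
  obtain ⟨σ₀, hσ₀, hall⟩ := prm_ev_small (Q := Q) (K := K) m hG hη hc hγ
  refine ⟨σ₀, hσ₀, fun σ hσ hσσ => ?_⟩
  rw [← hγdef]
  have hσ2' : σ ^ 2 = |σ| ^ 2 := (sq_abs σ).symm
  have hτ' : 0 < |σ| := abs_pos.2 hσ
  generalize hτdef : |σ| = τ at hσ2' hτ' hσσ ⊢
  have hτ : 0 < τ := hτ'
  have hσ2 : σ ^ 2 = τ ^ 2 := hσ2'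
  obtain ⟨h1, h2, h3, h4⟩ := hall τ hτ hσσ
  clear hall
  obtain ⟨t, htdef⟩ : ∃ t : ℝ, t = τ⁻¹ := ⟨_, rfl⟩
  rw [← htdef] at h4
  have ht1 : 1 ≤ t := by rw [htdef]; exact (one_le_inv₀ hτ).2 h1.le
  have ht0 : 0 < t := by linarith only [ht1]
  obtain ⟨δ, hδdef⟩ : ∃ δ : ℝ, δ = τ ^ γ := ⟨_, rfl⟩
  have hδ0 : 0 < δ := by rw [hδdef]; exact Real.rpow_pos_of_pos hτ _
  have hδ1 : δ ≤ 1 := by rw [hδdef]; exact Real.rpow_le_one hτ.le h1.le hγ.le
  have h1δ : 0 < 1 + δ := by linarith only [hδ0]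
  have hGτ : 0 < G * τ ^ 2 := mul_pos hG (pow_pos hτ 2)
  obtain ⟨a, hadef⟩ : ∃ a : ℝ, a = G * τ ^ 2 * (1 + δ) := ⟨_, rfl⟩
  have ha : 0 < a := by rw [hadef]; exact mul_pos hGτ h1δ
  have haeq : G * σ ^ 2 + G * τ ^ (2 + γ) = a := by
    rw [hσ2, Real.rpow_add hτ, Real.rpow_two, hadef, hδdef]
    ring
  have ha2 : a ≤ 2 * G * τ ^ 2 := by
    rw [hadef]
    calc G * τ ^ 2 * (1 + δ) ≤ G * τ ^ 2 * 2 :=
          mul_le_mul_of_nonneg_left (by linarith only [hδ1]) hGτ.le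
      _ = 2 * G * τ ^ 2 := by ring
  have ha1 : a ≤ 1 := ha2.trans (h2.le.trans (min_le_left _ _))
  have hag : a * G ≤ 1 := by
    have : a ≤ 1 / G := ha2.trans (h2.le.trans (min_le_right _ _))
    rwa [le_div_iff₀ hG] at this
  have hageq : G * τ ^ 2 ≤ a := by
    rw [hadef]
    exact le_mul_of_one_le_right hGτ.le (by linarith only [hδ0])
  have hq : σ ^ 2 * G / a = 1 / (1 + δ) := by
    rw [hσ2, hadef]
    field_simp
  -- the parameters
  obtain ⟨θ, hθ⟩ : ∃ θ : ℝ, θ = 1 - δ / 8 := ⟨_, rfl⟩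
  have hθ0 : 0 < θ := by rw [hθ]; linarith only [hδ1]
  have hθ1 : θ < 1 := by rw [hθ]; linarith only [hδ0]
  have hg₀eq : (1 - θ) * a = δ / 8 * a := by rw [hθ]; ring
  have hδa : 0 < δ / 8 * a := mul_pos (by linarith only [hδ0]) ha
  obtain ⟨κ, hκdef⟩ : ∃ κ : ℝ, κ = δ / 8 * a / (8 * d) := ⟨_, rfl⟩
  have hκ : 0 < κ := by rw [hκdef]; exact div_pos hδa (by linarith only [hd0])
  have hκ1 : κ ≤ 1 := by
    rw [hκdef, div_le_one (by linarith only [hd0])]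
    have : δ / 8 * a ≤ 1 / 8 * 1 :=
      mul_le_mul (by linarith only [hδ1]) ha1 ha.le (by norm_num)
    linarith only [this, hd1]
  have hκg : 2 * d * (Real.exp κ - 1) ≤ (1 - θ) * a / 2 := by
    have e1 := exp_sub_one_le hκ.le hκ1
    calc 2 * d * (Real.exp κ - 1) ≤ 2 * d * (2 * κ) :=
          mul_le_mul_of_nonneg_left e1 (by linarith only [hd0])
      _ = (1 - θ) * a / 2 := by rw [hg₀eq, hκdef]; field_simp; ring
  obtain ⟨L, hL⟩ : ∃ L : ℕ, L = ⌈t ^ 3⌉₊ := ⟨_, rfl⟩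
  have hLge : t ^ 3 ≤ L := by rw [hL]; exact Nat.le_ceil _
  have ht3 : 1 ≤ t ^ 3 := one_le_pow₀ ht1
  have hLle : (L:ℝ) ≤ 2 * t ^ 3 := by
    have := (Nat.ceil_lt_add_one (show 0 ≤ t ^ 3 by linarith only [ht3])).le
    rw [← hL] at this
    linarith only [this, ht3]
  obtain ⟨p, hp⟩ : ∃ p : ℕ, p = ⌈t ^ (2 * γ)⌉₊ + 1 := ⟨_, rfl⟩
  have htγ : 1 ≤ t ^ (2 * γ) := Real.one_le_rpow ht1 (by linarith only [hγ])
  have hpge : t ^ (2 * γ) ≤ p := by
    rw [hp]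
    push_cast
    have := Nat.le_ceil (t ^ (2 * γ))
    linarith only [this]
  have hp2 : 2 ≤ p := by
    rw [hp]
    have : 0 < ⌈t ^ (2 * γ)⌉₊ := Nat.ceil_pos.2 (by linarith only [htγ])
    omega
  have hple : (p:ℝ) ≤ 3 * t ^ (2 * γ) := by
    rw [hp]
    push_cast
    have := (Nat.ceil_lt_add_one (show 0 ≤ t ^ (2 * γ) by linarith only [htγ])).le
    linarith only [this, htγ]
  have hθqp := prm_decay_pow (σ := σ) (G := G) hτ htdef ht0 hδdef hδ0 hδ1 hθ hθ0 hq hpge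
  obtain ⟨p₀, hp₀⟩ : ∃ p₀ : ℝ, p₀ = 4 * (5 * t ^ 3) ^ d * Real.exp (-(t ^ γ / 4)) := ⟨_, rfl⟩
  have hp₀pos : 0 < p₀ := by rw [hp₀]; positivity
  have hsmall : 1440 * (p : ℝ) ^ 3 * √(σ ^ 2 * (C₅ * a ^ (-1 + η))) ≤ 1 := by
    rw [hσ2]
    exact prm_small_le_one hG hC₅ hη1 hγdef hτ htdef hageq hQ h3 hple
  have hbad : ∀ (x : Site d) (W : Finset (Site d)), W ⊆ box x L →
      PL (gl σ) W {V | ¬ GE V W a θ} ≤ ENNReal.ofReal p₀ := by
    intro x W hW
    refine (bad_prob (g := G) (κ₂ := C₅ * a ^ (-1 + η)) ha hG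
      (mul_pos hC₅ (Real.rpow_pos_of_pos ha _))
      (fun x => hD3 W a x ha) (fun x => hD5 W a x ha ha1) hσ hag ?_ ?_ hp2 hsmall hθ0).trans ?_
    · rw [hq]
      apply one_div_le_one_div_of_le h1δ
      linarith only [hδ1]
    · rw [hq, div_le_one h1δ]
      linarith only [hδ0]
    · apply ENNReal.ofReal_le_ofReal
      have e1 : (W.card : ℝ) ≤ (5 * t ^ 3) ^ d := by
        have e2 := card_le_of_subset_box hW
        calc (W.card : ℝ) ≤ (((2 * L + 1) ^ d : ℕ) : ℝ) := by exact_mod_cast e2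
          _ = (2 * (L:ℝ) + 1) ^ d := by push_cast; rfl
          _ ≤ (5 * t ^ 3) ^ d := by
              apply pow_le_pow_left₀ (by positivity)
              linarith only [hLle, ht3]
      rw [hp₀]
      exact mul_le_mul (mul_le_mul_of_nonneg_left e1 (by norm_num)) hθqp
        (pow_nonneg (by rw [hq]; positivity) _) (by positivity)
  refine ⟨L, √(2 / ((1 - θ) * a)) * Real.exp (-κ * L / 2) + 2 * √(6 * (1 / τ) * p₀),
    by positivity, ?_, ?_⟩
  · intro E hE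
    rw [haeq] at hE
    rw [← hτdef]
    exact initScale_of_tail (bddDens_gl hσ) ha hθ1 hκ.le hκg hp₀pos hbad hE
  · exact prm_num_cond (G := G) ht1 hLle hK hm h4 (Real.sqrt_nonneg _)
      (prm_sqrt_two_div hG hτ h1 htdef ht1 hγ1 hδdef hageq hg₀eq) (Real.exp_pos _).le
      (prm_exp_kappa_le hd0 hG hτ htdef ht1 hγ1 hδdef hageq hκdef hLge
        (by rw [hcdef]; exact min_le_left _ _)) (Real.sqrt_nonneg _)
      (prm_sqrt_six_le htdef ht1 hp₀ (by rw [hcdef]; exact min_le_right _ _)) (Real.sqrt_nonneg _)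
      (prm_sqrt_six_inv_le htdef ht1)

/-- The initial scale estimate for strong disorder. -/
theorem regime_large (hd : 1 ≤ d) {σ₀ : ℝ} (hσ₀ : 0 < σ₀) :
    ∃ C : ℝ, 0 < C ∧ ∀ σ : ℝ, σ₀ ≤ |σ| → ∃ (L : ℕ) (ε : ℝ), 0 ≤ ε ∧
      (∀ E : ℝ, 2 * d + C * σ ^ 2 ≤ |E| → InitScale d (gl σ) L ε E) ∧
      2 * d * ((2 * L + 5) ^ d) ^ 4 * (ε * (2 * √(6 * (1 / |σ|)))) ≤ Real.exp (-1) := by
  have hd0 : (0:ℝ) < d := by exact_mod_cast hd
  set K : ℝ := 2 * d * (5 ^ d) ^ 4 with hK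
  have hK0 : 0 < K := by positivity
  have ev : ∀ᶠ C : ℝ in atTop, K * (2 * √(24 / (C * σ₀ ^ 3)) +
      24 / σ₀ * √(2 * Real.exp (-(C * σ₀ / 2) ^ 2 / 2))) < Real.exp (-1) := by
    have h1 : Tendsto (fun C : ℝ => √(24 / (C * σ₀ ^ 3))) atTop (𝓝 0) := by
      rw [← Real.sqrt_zero]
      apply (Real.continuous_sqrt.tendsto 0).comp
      exact Tendsto.const_div_atTop (tendsto_id.atTop_mul_const (by positivity)) 24
    have h2 : Tendsto (fun C : ℝ => √(2 * Real.exp (-(C * σ₀ / 2) ^ 2 / 2))) atTop (𝓝 0) := by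
      have h3 : Tendsto (fun C : ℝ => -(C * σ₀ / 2) ^ 2 / 2) atTop atBot := by
        have h4 : Tendsto (fun C : ℝ => C * σ₀ / 2) atTop atTop :=
          (tendsto_id.atTop_mul_const hσ₀).atTop_div_const (by norm_num)
        have h5 : Tendsto (fun C : ℝ => (C * σ₀ / 2) ^ 2) atTop atTop :=
          (tendsto_pow_atTop (two_ne_zero)).comp h4
        have h6 : Tendsto (fun C : ℝ => -(C * σ₀ / 2) ^ 2) atTop atBot :=
          tendsto_neg_atTop_atBot.comp h5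
        exact h6.atBot_div_const (by norm_num)
      have h4 : Tendsto (fun C : ℝ => 2 * Real.exp (-(C * σ₀ / 2) ^ 2 / 2)) atTop (𝓝 0) := by
        have := (Real.tendsto_exp_atBot.comp h3).const_mul 2
        rwa [mul_zero] at this
      rw [← Real.sqrt_zero]
      exact (Real.continuous_sqrt.tendsto 0).comp h4
    have h3 := ((h1.const_mul 2).add (h2.const_mul (24 / σ₀))).const_mul K
    rw [mul_zero, mul_zero, add_zero, mul_zero] at h3
    exact h3.eventually_lt_const (Real.exp_pos _)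
  obtain ⟨C, hC1, hC2⟩ := ((eventually_gt_atTop (0:ℝ)).and ev).exists
  refine ⟨C, hC1, fun σ hσ => ?_⟩
  set τ : ℝ := |σ| with hτdef
  have hτ : 0 < τ := by linarith
  have hσ0 : σ ≠ 0 := abs_pos.1 hτ
  have hσ2 : σ ^ 2 = τ ^ 2 := by rw [hτdef, sq_abs]
  set a : ℝ := C * σ ^ 2 with hadef
  have ha : 0 < a := by rw [hadef, hσ2]; positivity
  set p₀ : ℝ := 2 * Real.exp (-(a / (2 * τ)) ^ 2 / 2) with hp₀
  have hp₀pos : 0 < p₀ := by positivity
  have haτ : a / (2 * τ) = C * τ / 2 := by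
    rw [hadef, hσ2]; field_simp
  refine ⟨0, √(2 / ((1 - 1 / 2) * a)) * Real.exp (-0 * (0:ℕ) / 2) + 2 * √(6 * (1 / τ) * p₀),
    by positivity, ?_, ?_⟩
  · intro E hE
    refine initScale_of_tail (bddDens_gl hσ0) ha (by norm_num) le_rfl ?_ hp₀pos ?_ hE
    · rw [Real.exp_zero, sub_self, mul_zero]
      positivity
    · intro x W hW
      refine (bad_prob_large (Λ := W) ha hσ0).trans ?_
      apply ENNReal.ofReal_le_ofReal
      have h1 : W.card ≤ 1 := by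
        have := card_le_of_subset_box hW
        simpa using this
      have h2 : (W.card : ℝ) ≤ 1 := by exact_mod_cast h1
      calc 2 * (W.card : ℝ) * Real.exp (-(a / (2 * |σ|)) ^ 2 / 2)
          ≤ 2 * 1 * Real.exp (-(a / (2 * |σ|)) ^ 2 / 2) := by gcongr
        _ = p₀ := by rw [hp₀, hτdef]; ring
  · have e1 : √(2 / ((1 - 1 / 2) * a)) * √(6 * (1 / τ)) ≤ √(24 / (C * σ₀ ^ 3)) := by
      rw [← Real.sqrt_mul (by positivity)]
      apply Real.sqrt_le_sqrt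
      rw [hadef, hσ2]
      calc 2 / ((1 - 1 / 2) * (C * τ ^ 2)) * (6 * (1 / τ)) = 24 / (C * τ ^ 3) := by
            field_simp; norm_num
        _ ≤ 24 / (C * σ₀ ^ 3) := by gcongr
    have e2 : √(6 * (1 / τ) * p₀) * √(6 * (1 / τ)) ≤
        6 / σ₀ * √(2 * Real.exp (-(C * σ₀ / 2) ^ 2 / 2)) := by
      rw [Real.sqrt_mul (by positivity), mul_right_comm, Real.mul_self_sqrt (by positivity)]
      have f1 : 6 * (1 / τ) ≤ 6 / σ₀ := by
        rw [mul_one_div]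
        gcongr
      have f2 : √p₀ ≤ √(2 * Real.exp (-(C * σ₀ / 2) ^ 2 / 2)) := by
        apply Real.sqrt_le_sqrt
        rw [hp₀, haτ]
        gcongr
      gcongr
    have e3 : (2 * ((0:ℕ):ℝ) + 5) = 5 := by norm_num
    rw [e3]
    have e4 : Real.exp (-0 * ((0:ℕ):ℝ) / 2) = 1 := by simp
    rw [e4, mul_one]
    calc 2 * d * (5 ^ d) ^ 4 *
          ((√(2 / ((1 - 1 / 2) * a)) + 2 * √(6 * (1 / τ) * p₀)) * (2 * √(6 * (1 / τ))))
        = K * (2 * (√(2 / ((1 - 1 / 2) * a)) * √(6 * (1 / τ))) +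
          4 * (√(6 * (1 / τ) * p₀) * √(6 * (1 / τ)))) := by rw [hK]; ring
      _ ≤ K * (2 * √(24 / (C * σ₀ ^ 3)) +
          4 * (6 / σ₀ * √(2 * Real.exp (-(C * σ₀ / 2) ^ 2 / 2)))) := by gcongr
      _ = K * (2 * √(24 / (C * σ₀ ^ 3)) +
          24 / σ₀ * √(2 * Real.exp (-(C * σ₀ / 2) ^ 2 / 2))) := by ring
      _ ≤ Real.exp (-1) := hC2.le

/-- Smaller thresholds are stronger. -/
theorem init_all (hd : 1 ≤ d) {G C₅ η : ℝ} (hG : 0 < G) (hC₅ : 0 < C₅) (hη : 0 < η)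
    (hη1 : η ≤ 1)
    (hD3 : ∀ (Λ : Finset (Site d)) (a : ℝ) (x : Site d), 0 < a → gr 0 Λ (2 * d + a) x x ≤ G)
    (hD5 : ∀ (Λ : Finset (Site d)) (a : ℝ) (x : Site d), 0 < a → a ≤ 1 →
      ∑ y ∈ Λ, gr 0 Λ (2 * d + a) x y ^ 2 ≤ C₅ * a ^ (-1 + η)) :
    ∃ C : ℝ, 0 < C ∧ ∀ σ : ℝ, σ ≠ 0 → ∃ (L : ℕ) (ε : ℝ), 0 ≤ ε ∧
      (∀ E : ℝ, 2 * d + G * σ ^ 2 + C * |σ| ^ (2 + η / 12) ≤ |E| →
        InitScale d (gl σ) L ε E) ∧
      2 * d * ((2 * L + 5) ^ d) ^ 4 * (ε * (2 * √(6 * (1 / |σ|)))) ≤ Real.exp (-1) := by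
  obtain ⟨σ₀, hσ₀, h1⟩ := regime_small hd hG hC₅ hη hη1 hD3 hD5
  obtain ⟨C₂, hC₂, h2⟩ := regime_large hd hσ₀
  refine ⟨max G (C₂ / σ₀ ^ (η / 12)), by positivity, fun σ hσ => ?_⟩
  have hτ : 0 < |σ| := abs_pos.2 hσ
  rcases lt_or_ge |σ| σ₀ with h | h
  · obtain ⟨L, ε, hε, hi, hn⟩ := h1 σ hσ h
    refine ⟨L, ε, hε, fun E hE => hi E ?_, hn⟩
    have : G * |σ| ^ (2 + η / 12) ≤ max G (C₂ / σ₀ ^ (η / 12)) * |σ| ^ (2 + η / 12) := by
      gcongr
      exact le_max_left _ _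
    linarith
  · obtain ⟨L, ε, hε, hi, hn⟩ := h2 σ h
    refine ⟨L, ε, hε, fun E hE => hi E ?_, hn⟩
    have h3 : C₂ * σ ^ 2 ≤ max G (C₂ / σ₀ ^ (η / 12)) * |σ| ^ (2 + η / 12) := by
      calc C₂ * σ ^ 2 = C₂ / σ₀ ^ (η / 12) * (σ ^ 2 * σ₀ ^ (η / 12)) := by
            have : σ₀ ^ (η / 12) ≠ 0 := (Real.rpow_pos_of_pos hσ₀ _).ne'
            field_simp
        _ ≤ max G (C₂ / σ₀ ^ (η / 12)) * (|σ| ^ 2 * |σ| ^ (η / 12)) := by
            rw [sq_abs]
            gcongr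
            exact le_max_right _ _
        _ = _ := by rw [Real.rpow_add hτ, Real.rpow_two]
    have h4 : 0 ≤ G * σ ^ 2 := by positivity
    linarith

end Pool.Agent.Loc
end
end -- Pool.Agent.Helper48_Loc.Params

section -- Pool.Agent.Helper48_Loc.Walks

/-!
# The free Green function: maximum principle, walks, supersolutions
-/

set_option autoImplicit false
set_option linter.unusedSectionVars false

open MeasureTheory ProbabilityTheory Function Filter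

open scoped ENNReal BigOperators Topology

noncomputable section

namespace Pool.Agent.Loc

open Pool.Agent.Anderson

variable {d : ℕ}

/-- the number of nearest neighbour walks on `ℤ^d` with `n` steps from `0` to `x` -/
def walks : ℕ → Site d → ℕ
  | 0, x => if x = 0 then 1 else 0
  | n + 1, x => ∑ i : Fin d, (walks n (x + Pi.single i 1) + walks n (x - Pi.single i 1))

/-- the Green function `(2d - Δ)⁻¹(0, 0) = ∑ₙ walks n 0 / (2d)^(n+1)` of the lattice -/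
def watson (d : ℕ) : ℝ := ∑' n : ℕ, (walks n (0 : Site d) : ℝ) / (2 * d) ^ (n + 1)

/-- the real lattice Laplacian (sum over the nearest neighbours) -/
def nb (f : Site d → ℝ) (x : Site d) : ℝ :=
  ∑ i : Fin d, (f (x + Pi.single i 1) + f (x - Pi.single i 1))

theorem walks_zero (x : Site d) : (walks 0 x : ℝ) = if x = 0 then 1 else 0 := by
  unfold walks
  split_ifs <;> simp

theorem walks_succ (n : ℕ) (x : Site d) : (walks (n + 1) x : ℝ) = nb (fun y => (walks n y : ℝ)) x := by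
  rw [walks]
  unfold nb
  push_cast
  rfl

theorem walks_le (n : ℕ) (x : Site d) : (walks n x : ℝ) ≤ (2 * d) ^ n := by
  induction n generalizing x with
  | zero =>
    rw [walks_zero]
    split_ifs <;> norm_num
  | succ n ih =>
    rw [walks_succ]
    unfold nb
    calc ∑ i : Fin d, ((walks n (x + Pi.single i 1) : ℝ) + walks n (x - Pi.single i 1))
        ≤ ∑ _i : Fin d, ((2 * (d:ℝ)) ^ n + (2 * (d:ℝ)) ^ n) :=
          Finset.sum_le_sum fun i _ => add_le_add (ih _) (ih _)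
      _ = (2 * d) ^ (n + 1) := by
          rw [Finset.sum_const, Finset.card_univ, Fintype.card_fin, nsmul_eq_mul]
          ring

/-- `nb` of a nonnegative function dominates the sum over a finite set -/
theorem sum_hop_le_nb (Λ : Finset (Site d)) {f : Site d → ℝ} (hf : ∀ y, 0 ≤ f y) (x : Site d) :
    ∑ y ∈ Λ, hop x y * f y ≤ nb f x := by
  have h1 := sum_hop x (box x 1 ∪ Λ) Finset.subset_union_left f
  simp only [smul_eq_mul] at h1
  have h2 : ∑ y ∈ box x 1 ∪ Λ, hop x y * f y = nb f x := h1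
  rw [← h2]
  exact Finset.sum_le_sum_of_subset_of_nonneg Finset.subset_union_right
    fun y _ _ => mul_nonneg (hop_nonneg x y) (hf y)

/-- the maximum principle -/
theorem max_principle {Λ : Finset (Site d)} {E : ℝ} (hE : 2 * d < E) {v : Site d → ℝ}
    (h : ∀ y ∈ Λ, 0 ≤ E * v y - ∑ z ∈ Λ, hop y z * v z) : ∀ y ∈ Λ, 0 ≤ v y := by
  by_contra hcon
  push Not at hcon
  obtain ⟨y₁, hy₁, hv₁⟩ := hcon
  obtain ⟨y₀, hy₀, hmin⟩ := Λ.exists_min_image v ⟨y₁, hy₁⟩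
  have hv₀ : v y₀ < 0 := lt_of_le_of_lt (hmin y₁ hy₁) hv₁
  have h1 := h y₀ hy₀
  have h2 : (∑ z ∈ Λ, hop y₀ z) * v y₀ ≤ ∑ z ∈ Λ, hop y₀ z * v z := by
    rw [Finset.sum_mul]
    exact Finset.sum_le_sum fun z hz => mul_le_mul_of_nonneg_left (hmin z hz) (hop_nonneg _ _)
  have h3 := sum_hop_le y₀ Λ
  have h4 : 2 * d * v y₀ ≤ (∑ z ∈ Λ, hop y₀ z) * v y₀ := mul_le_mul_of_nonpos_right h3 hv₀.le
  nlinarith only [hE, hv₀, h1, h2, h4]

theorem det_zero_ne {Λ : Finset (Site d)} {E : ℝ} (hE : 2 * d < E) : (RM 0 Λ E).det ≠ 0 := by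
  intro hd
  obtain ⟨v, hv, hv0⟩ := Matrix.exists_mulVec_eq_zero_iff.2 hd
  apply hv
  have key : ∀ w : Λ → ℝ, (RM 0 Λ E).mulVec w = 0 → ∀ y : Λ, 0 ≤ w y := by
    intro w hw y
    set u : Site d → ℝ := fun z => if hz : z ∈ Λ then w ⟨z, hz⟩ else 0 with hu
    have huw : ∀ z : Λ, u z = w z := by
      intro z
      simp [hu]
    have := max_principle hE (Λ := Λ) (v := u) ?_ y y.2
    · rwa [huw] at this
    · intro z hz
      have h1 := congrFun hw ⟨z, hz⟩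
      rw [Matrix.mulVec, dotProduct] at h1
      have h2 : ∑ z' : Λ, RM 0 Λ E ⟨z, hz⟩ z' * w z' = E * u z - ∑ z' ∈ Λ, hop z z' * u z' := by
        simp_rw [RM_apply]
        rw [← Finset.sum_coe_sort Λ (fun z' => hop z z' * u z')]
        have h3 : ∀ z' : Λ, rm 0 E z z' * w z' =
            (if z' = ⟨z, hz⟩ then E * u z else 0) - hop z z' * u z' := by
          intro z'
          unfold rm
          rw [← huw]
          by_cases h : z' = ⟨z, hz⟩
          · subst h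
            simp only [if_true, Pi.zero_apply]
            ring
          · have h' : z ≠ (z' : Site d) := fun e => h (Subtype.ext e.symm)
            rw [if_neg h, if_neg h']
            ring
        simp_rw [h3]
        rw [Finset.sum_sub_distrib, Finset.sum_ite_eq', if_pos (Finset.mem_univ _)]
      rw [h2] at h1
      rw [h1]
      exact le_rfl
  funext y
  have h1 := key v hv0 y
  have h2 := key (-v) (by rw [Matrix.mulVec_neg, hv0, neg_zero]) y
  simp only [Pi.neg_apply, Pi.zero_apply] at h2 ⊢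
  linarith

/-- the equation satisfied by the free Green function -/
theorem gr_zero_eq {Λ : Finset (Site d)} {E : ℝ} (hE : 2 * d < E) {x y : Site d} (hx : x ∈ Λ)
    (hy : y ∈ Λ) : E * gr 0 Λ E x y - ∑ z ∈ Λ, hop y z * gr 0 Λ E x z = if x = y then 1 else 0 := by
  have h1 := gr_mul_rm (det_zero_ne hE) hx hy
  rw [← h1]
  have h2 : ∀ z, gr 0 Λ E x z * rm 0 E z y = (if z = y then E * gr 0 Λ E x y else 0) -
      hop y z * gr 0 Λ E x z := by
    intro z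
    unfold rm
    rw [hop_comm z y]
    by_cases h : z = y
    · subst h; simp only [if_true, Pi.zero_apply]; ring
    · rw [if_neg h, if_neg h]; ring
  simp_rw [h2]
  rw [Finset.sum_sub_distrib, Finset.sum_ite_eq', if_pos hy]

/-- comparison: supersolutions dominate the Green function -/
theorem gr_le_of_super {Λ : Finset (Site d)} {E : ℝ} (hE : 2 * d < E) {x : Site d} (hx : x ∈ Λ)
    {v : Site d → ℝ}
    (h : ∀ y ∈ Λ, (if x = y then 1 else 0) ≤ E * v y - ∑ z ∈ Λ, hop y z * v z) :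
    ∀ y ∈ Λ, gr 0 Λ E x y ≤ v y := by
  intro y hy
  have h1 := max_principle hE (Λ := Λ) (v := fun z => v z - gr 0 Λ E x z) ?_ y hy
  · linarith
  · intro z hz
    have h2 := h z hz
    rw [← gr_zero_eq hE hx hz] at h2
    simp_rw [mul_sub]
    rw [Finset.sum_sub_distrib]
    linarith

theorem gr_zero_nonneg (Λ : Finset (Site d)) {E : ℝ} (hE : 2 * d < E) (x y : Site d) :
    0 ≤ gr 0 Λ E x y := by
  by_cases hxy : x ∈ Λ ∧ y ∈ Λ
  · refine max_principle hE (Λ := Λ) (v := fun z => gr 0 Λ E x z) ?_ y hxy.2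
    intro z hz
    rw [gr_zero_eq hE hxy.1 hz]
    split_ifs <;> norm_num
  · unfold gr
    rw [dif_neg hxy]

/-- the row sums of the free Green function -/
theorem sum_gr_zero_le (Λ : Finset (Site d)) {a : ℝ} (ha : 0 < a) (x : Site d) :
    ∑ y ∈ Λ, gr 0 Λ (2 * d + a) x y ≤ 1 / a := by
  have hE : 2 * (d:ℝ) < 2 * d + a := by linarith
  by_cases hx : x ∈ Λ
  swap
  · have : ∀ y ∈ Λ, gr 0 Λ (2 * d + a) x y = 0 := by
      intro y _
      unfold gr
      rw [dif_neg (fun h => hx h.1)]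
    rw [Finset.sum_eq_zero this]
    positivity
  have h1 := max_principle hE (Λ := Λ)
    (v := fun z => 1 / a - ∑ y ∈ Λ, gr 0 Λ (2 * d + a) y z) ?_ x hx
  · have h2 : ∑ y ∈ Λ, gr 0 Λ (2 * d + a) x y = ∑ y ∈ Λ, gr 0 Λ (2 * d + a) y x :=
      Finset.sum_congr rfl fun y _ => gr_symm _ _ _ _ _
    rw [h2]
    linarith only [h1]
  · intro z hz
    have h2 : ∑ y ∈ Λ, ((2 * d + a) * gr 0 Λ (2 * d + a) y z -
        ∑ z' ∈ Λ, hop z z' * gr 0 Λ (2 * d + a) y z') = 1 := by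
      rw [Finset.sum_congr rfl fun y hy => gr_zero_eq hE hy hz, Finset.sum_ite_eq', if_pos hz]
    rw [Finset.sum_sub_distrib, ← Finset.mul_sum, Finset.sum_comm] at h2
    simp_rw [mul_sub]
    rw [Finset.sum_sub_distrib]
    have h3 : ∀ z' ∈ Λ, hop z z' * ∑ y ∈ Λ, gr 0 Λ (2 * d + a) y z' =
        ∑ y ∈ Λ, hop z z' * gr 0 Λ (2 * d + a) y z' := fun z' _ => Finset.mul_sum _ _ _
    rw [Finset.sum_congr rfl h3]
    have h4 : ∑ z' ∈ Λ, hop z z' * (1 / a) ≤ 2 * d * (1 / a) := by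
      rw [← Finset.sum_mul]
      exact mul_le_mul_of_nonneg_right (sum_hop_le z Λ) (by positivity)
    have h5 : a * (1 / a) = 1 := by field_simp
    nlinarith only [h2, h4, h5]

/-- partial sums of the walk expansion -/
def SW (E : ℝ) (x : Site d) (N : ℕ) (y : Site d) : ℝ :=
  ∑ n ∈ Finset.range N, (walks n (y - x) : ℝ) / E ^ (n + 1)

theorem SW_nonneg {E : ℝ} (hE : 0 < E) (x : Site d) (N : ℕ) (y : Site d) : 0 ≤ SW E x N y := by
  unfold SW
  positivity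

theorem nb_shift (f : Site d → ℝ) (x y : Site d) : nb (fun z => f (z - x)) y = nb f (y - x) := by
  unfold nb
  apply Finset.sum_congr rfl
  intro i _
  beta_reduce
  rw [add_sub_right_comm, sub_right_comm]

theorem nb_add (f g : Site d → ℝ) (y : Site d) : nb (fun z => f z + g z) y = nb f y + nb g y := by
  unfold nb
  rw [← Finset.sum_add_distrib]
  apply Finset.sum_congr rfl
  intro i _
  ring

theorem nb_const_mul (c : ℝ) (f : Site d → ℝ) (y : Site d) :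
    nb (fun z => c * f z) y = c * nb f y := by
  unfold nb
  rw [Finset.mul_sum]
  apply Finset.sum_congr rfl
  intro i _
  ring

theorem SW_eq {E : ℝ} (hE : 0 < E) (x : Site d) (N : ℕ) (y : Site d) :
    E * SW E x N y - nb (SW E x N) y =
      (if x = y then 1 else 0) - (walks N (y - x) : ℝ) / E ^ N := by
  have hxy : (y - x = 0) ↔ (x = y) := by rw [sub_eq_zero, eq_comm]
  induction N with
  | zero =>
    have h0 : (SW E x 0 : Site d → ℝ) = fun _ => 0 := by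
      funext z
      simp [SW]
    rw [h0]
    simp only [mul_zero, nb, add_zero, Finset.sum_const_zero, pow_zero, div_one,
      walks_zero, hxy, sub_self]
  | succ N ih =>
    have h1 : (SW E x (N + 1) : Site d → ℝ) =
        fun z => SW E x N z + E⁻¹ ^ (N + 1) * (walks N (z - x) : ℝ) := by
      funext z
      unfold SW
      rw [Finset.sum_range_succ]
      rw [inv_pow, inv_mul_eq_div]
    rw [h1, nb_add, nb_const_mul, nb_shift (fun z => (walks N z : ℝ)) x y, ← walks_succ]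
    have h2 : E * (E⁻¹ ^ (N + 1) * (walks N (y - x) : ℝ)) = (walks N (y - x) : ℝ) / E ^ N := by
      rw [inv_pow, pow_succ]
      field_simp
    have h3 : E⁻¹ ^ (N + 1) * (walks (N + 1) (y - x) : ℝ) =
        (walks (N + 1) (y - x) : ℝ) / E ^ (N + 1) := by
      rw [inv_pow, inv_mul_eq_div]
    rw [mul_add, h2, h3]
    linarith only [ih]

/-- The Green function is dominated by the partial sums of the walk expansion. -/
theorem gr_le_SW (Λ : Finset (Site d)) {a : ℝ} (ha : 0 < a) {x y : Site d} (hx : x ∈ Λ)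
    (hy : y ∈ Λ) (N : ℕ) :
    gr 0 Λ (2 * d + a) x y ≤ SW (2 * d + a) x N y + (2 * d / (2 * d + a)) ^ N / a := by
  have hd0 : (0:ℝ) ≤ d := by positivity
  have hE : 2 * (d:ℝ) < 2 * d + a := by linarith
  have hE0 : 0 < 2 * (d:ℝ) + a := by linarith only [ha]
  refine gr_le_of_super hE hx
    (v := fun z => SW (2 * d + a) x N z + (2 * d / (2 * d + a)) ^ N / a) ?_ y hy
  intro z hz
  have h1 := SW_eq hE0 x N z
  have h2 := sum_hop_le_nb Λ (SW_nonneg hE0 x N) z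
  have h3 : (walks N (z - x) : ℝ) / (2 * d + a) ^ N ≤ (2 * d / (2 * d + a)) ^ N := by
    rw [div_pow]
    gcongr
    exact walks_le N _
  have h4 : ∑ z' ∈ Λ, hop z z' * ((2 * d / (2 * d + a)) ^ N / a) ≤
      2 * d * ((2 * d / (2 * d + a)) ^ N / a) := by
    rw [← Finset.sum_mul]
    exact mul_le_mul_of_nonneg_right (sum_hop_le z Λ) (by positivity)
  have h5 : a * ((2 * d / (2 * d + a)) ^ N / a) = (2 * d / (2 * d + a)) ^ N := by field_simp
  simp_rw [mul_add]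
  rw [Finset.sum_add_distrib]
  nlinarith only [h1, h2, h3, h4, h5]

/-- a strict supersolution on the lattice gives a bound for the Green function -/
theorem gr_le_of_lattice_super (Λ : Finset (Site d)) {a : ℝ} (ha : 0 < a) {f : Site d → ℝ}
    (hf : ∀ y, 0 ≤ f y) (hsup : ∀ y, (if y = 0 then 1 else 0) ≤ 2 * d * f y - nb f y)
    (x y : Site d) : gr 0 Λ (2 * d + a) x y ≤ f (y - x) := by
  by_cases hxy : x ∈ Λ ∧ y ∈ Λ
  swap
  · unfold gr
    rw [dif_neg hxy]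
    exact hf _
  have hE : 2 * (d:ℝ) < 2 * d + a := by linarith
  refine gr_le_of_super hE hxy.1 (v := fun z => f (z - x)) ?_ y hxy.2
  intro z hz
  have h1 := hsup (z - x)
  have h2 := sum_hop_le_nb Λ (f := fun z => f (z - x)) (fun _ => hf _) z
  rw [nb_shift] at h2
  have h3 : (z - x = 0) ↔ (x = z) := by rw [sub_eq_zero, eq_comm]
  simp only [h3] at h1
  have h4 := mul_nonneg ha.le (hf (z - x))
  linarith

/-- the same comparison for the partial sums of the walk expansion -/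
theorem SW_le_of_lattice_super {a : ℝ} (ha : 0 < a) {f : Site d → ℝ}
    (hf : ∀ y, 0 ≤ f y) (hsup : ∀ y, (if y = 0 then 1 else 0) ≤ 2 * d * f y - nb f y) (N : ℕ) :
    SW (2 * d + a) 0 N (0 : Site d) ≤ f 0 := by
  have hd0 : (0:ℝ) ≤ d := by positivity
  have hE : 2 * (d:ℝ) < 2 * d + a := by linarith
  have hE0 : 0 < 2 * (d:ℝ) + a := by linarith
  -- the walks live in a box
  have hsupp : ∀ n : ℕ, ∀ y : Site d, n < sd 0 y → walks n y = 0 := by
    intro n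
    induction n with
    | zero =>
      intro y hy
      rw [walks, if_neg]
      rintro rfl
      rw [sd_self] at hy
      omega
    | succ n ih =>
      intro y hy
      rw [walks]
      apply Finset.sum_eq_zero
      intro i _
      have t1 := sd_triangle 0 (y + Pi.single i 1) y
      have t2 := sd_triangle 0 (y - Pi.single i 1) y
      have t3 := sd_add_single_le y i
      have t4 := sd_sub_single_le y i
      rw [sd_comm] at t3 t4
      rw [ih _ (by omega), ih _ (by omega), add_zero]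
  have hSW : ∀ y : Site d, N ≤ sd 0 y → SW (2 * d + a) 0 N y = 0 := by
    intro y hy
    unfold SW
    apply Finset.sum_eq_zero
    intro n hn
    rw [Finset.mem_range] at hn
    rw [sub_zero, hsupp n y (by omega), Nat.cast_zero, zero_div]
  have h1 := max_principle hE (Λ := box 0 N) (v := fun z => f z - SW (2 * d + a) 0 N z) ?_ 0
    (by rw [mem_box, sd_self]; omega)
  · linarith
  · intro z hz
    have h2 := SW_eq hE0 0 N z
    have h3 : ∑ z' ∈ box 0 N, hop z z' * SW (2 * d + a) 0 N z' = nb (SW (2 * d + a) 0 N) z := by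
      have h4 := sum_hop z (box z 1 ∪ box 0 N) Finset.subset_union_left (SW (2 * d + a) 0 N)
      simp only [smul_eq_mul] at h4
      have h5 : ∑ z' ∈ box z 1 ∪ box 0 N, hop z z' * SW (2 * d + a) 0 N z' =
        nb (SW (2 * d + a) 0 N) z := h4
      rw [← h5]
      apply Finset.sum_subset Finset.subset_union_right
      intro z' _ hz'
      rw [mem_box] at hz'
      rw [hSW z' (by omega), mul_zero]
    have h6 := sum_hop_le_nb (box 0 N) hf z
    have h7 := hsup z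
    have h8 := mul_nonneg ha.le (hf z)
    have h9 : (0:ℝ) ≤ (walks N (z - 0) : ℝ) / (2 * d + a) ^ N := by positivity
    simp_rw [mul_sub]
    rw [Finset.sum_sub_distrib, h3]
    have h10 : (if (0 : Site d) = z then (1:ℝ) else 0) = if z = 0 then 1 else 0 := by
      simp only [eq_comm]
    rw [h10] at h2
    linarith only [h2, h6, h7, h8, h9]

end Pool.Agent.Loc
end
end -- Pool.Agent.Helper48_Loc.Walks

section -- Pool.Agent.Helper48_Loc.Super

/-!
# A supersolution in three coordinates, and its consequences for the free Green function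
-/

set_option autoImplicit false
set_option linter.unusedSectionVars false

open MeasureTheory ProbabilityTheory Function Filter

open scoped ENNReal BigOperators Topology

noncomputable section

namespace Pool.Agent.Loc

open Pool.Agent.Anderson

/-- the upper Taylor polynomial of `(1 + h)^(-1/2)` -/
def PT (h : ℝ) : ℝ := 1 - h / 2 + 3 / 8 * h ^ 2 - 5 / 16 * h ^ 3 + h ^ 4

theorem inv_sqrt_le {h : ℝ} (hh : -1 / 2 ≤ h) : 1 / √(1 + h) ≤ PT h := by
  obtain ⟨k, hk, rfl⟩ : ∃ k : ℝ, 0 ≤ k ∧ h = k - 1 / 2 := ⟨h + 1 / 2, by linarith only [hh], by ring⟩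
  have h1 : 0 < 1 + (k - 1 / 2) := by linarith only [hk]
  have hP : 0 < PT (k - 1 / 2) := by
    unfold PT
    nlinarith only [sq_nonneg (k - 1 / 2), sq_nonneg ((k - 1 / 2) ^ 2 - (k - 1 / 2) / 6),
      sq_nonneg (k - 1), sq_nonneg k]
  have hQ : 1 ≤ (1 + (k - 1 / 2)) * PT (k - 1 / 2) ^ 2 := by
    have e : (1 + (k - 1 / 2)) * PT (k - 1 / 2) ^ 2 - 1 = (k - 1 / 2) ^ 4 *
        (93 / 64 + 39 / 32 * (k - 1 / 2) - 99 / 256 * (k - 1 / 2) ^ 2 +
          57 / 256 * (k - 1 / 2) ^ 3 + 3 / 8 * (k - 1 / 2) ^ 4 + (k - 1 / 2) ^ 5) := by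
      unfold PT; ring
    have hk3 : 0 ≤ k ^ 3 := by positivity
    have e2 : 0 ≤ 93 / 64 + 39 / 32 * (k - 1 / 2) - 99 / 256 * (k - 1 / 2) ^ 2 +
          57 / 256 * (k - 1 / 2) ^ 3 + 3 / 8 * (k - 1 / 2) ^ 4 + (k - 1 / 2) ^ 5 := by
      nlinarith only [hk3, mul_nonneg hk (sq_nonneg (k - 1)), mul_nonneg hk3 (sq_nonneg (k - 17 / 16)),
        mul_nonneg hk (sq_nonneg k), mul_nonneg hk (sq_nonneg (k - 1 / 2)), hk3]
    have e3 : 0 ≤ (k - 1 / 2) ^ 4 := by positivity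
    have := mul_nonneg e3 e2
    linarith only [this, e]
  have hs : 0 < √(1 + (k - 1 / 2)) := Real.sqrt_pos.2 h1
  rw [div_le_iff₀ hs]
  have h2 : 1 ≤ (PT (k - 1 / 2) * √(1 + (k - 1 / 2))) ^ 2 := by
    rw [mul_pow, Real.sq_sqrt h1.le]
    linarith only [hQ]
  have h3 : 0 ≤ PT (k - 1 / 2) * √(1 + (k - 1 / 2)) := by positivity
  exact (one_le_sq_iff₀ h3).1 h2

/-- a pair of neighbours -/
theorem pair_le {F s : ℝ} (hF : 16 + s ^ 2 ≤ F) :
    1 / √(F + 1 + 2 * s) + 1 / √(F + 1 - 2 * s) ≤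
      1 / √F * (2 - 1 / F + 3 / 8 * (2 + 8 * s ^ 2) / F ^ 2 - 5 / 16 * (2 + 24 * s ^ 2) / F ^ 3 +
        (2 + 48 * s ^ 2 + 32 * s ^ 4) / F ^ 4) := by
  have hF0 : 0 < F := by nlinarith only [hF, sq_nonneg s]
  have key : ∀ u : ℝ, u = s ∨ u = -s → 1 / √(F + 1 + 2 * u) ≤ 1 / √F * PT ((1 + 2 * u) / F) := by
    intro u hu
    have hu2 : u ^ 2 = s ^ 2 := by rcases hu with rfl | rfl <;> ring
    have h1 : -1 / 2 ≤ (1 + 2 * u) / F := by
      rw [le_div_iff₀ hF0]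
      nlinarith only [hu2, hF, sq_nonneg (u + 2), sq_nonneg u]
    have h2 : F + 1 + 2 * u = F * (1 + (1 + 2 * u) / F) := by field_simp; ring
    rw [h2, Real.sqrt_mul hF0.le, ← one_div_mul_one_div]
    exact mul_le_mul_of_nonneg_left (inv_sqrt_le h1) (by positivity)
  have h1 := key s (Or.inl rfl)
  have h2 := key (-s) (Or.inr rfl)
  have e1 : F + 1 + 2 * -s = F + 1 - 2 * s := by ring
  rw [e1] at h2
  refine (add_le_add h1 h2).trans (le_of_eq ?_)
  rw [← mul_add]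
  congr 1
  unfold PT
  field_simp
  ring

theorem six_le {F s₁ s₂ s₃ : ℝ} (hF : F = 16 + s₁ ^ 2 + s₂ ^ 2 + s₃ ^ 2) :
    (1 / √(F + 1 + 2 * s₁) + 1 / √(F + 1 - 2 * s₁)) +
      (1 / √(F + 1 + 2 * s₂) + 1 / √(F + 1 - 2 * s₂)) +
      (1 / √(F + 1 + 2 * s₃) + 1 / √(F + 1 - 2 * s₃)) ≤ 1 / √F * (6 - 10 / F ^ 2) := by
  have q1 := sq_nonneg s₁
  have q2 := sq_nonneg s₂
  have q3 := sq_nonneg s₃
  have hF0 : 16 ≤ F := by linarith only [q3, q2, q1, hF]
  have hFp : 0 < F := by linarith only [q3, q2, q1, hF]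
  have h1 := pair_le (F := F) (s := s₁) (by linarith only [q3, q2, hF])
  have h2 := pair_le (F := F) (s := s₂) (by linarith only [q3, q1, hF])
  have h3 := pair_le (F := F) (s := s₃) (by linarith only [q2, q1, hF])
  refine (add_le_add (add_le_add h1 h2) h3).trans ?_
  rw [← mul_add, ← mul_add]
  apply mul_le_mul_of_nonneg_left _ (by positivity)
  set r := s₁ ^ 2 + s₂ ^ 2 + s₃ ^ 2 with hr
  have hr0 : 0 ≤ r := by linarith only [q3, q2, q1]
  have hFr : F = 16 + r := by rw [hF, hr]; ring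
  have h4 : s₁ ^ 4 + s₂ ^ 4 + s₃ ^ 4 ≤ r ^ 2 := by
    rw [hr]
    nlinarith only [mul_nonneg q1 q2, mul_nonneg q1 q3, mul_nonneg q2 q3]
  have h5 : (2 - 1 / F + 3 / 8 * (2 + 8 * s₁ ^ 2) / F ^ 2 - 5 / 16 * (2 + 24 * s₁ ^ 2) / F ^ 3 +
        (2 + 48 * s₁ ^ 2 + 32 * s₁ ^ 4) / F ^ 4) +
      (2 - 1 / F + 3 / 8 * (2 + 8 * s₂ ^ 2) / F ^ 2 - 5 / 16 * (2 + 24 * s₂ ^ 2) / F ^ 3 +
        (2 + 48 * s₂ ^ 2 + 32 * s₂ ^ 4) / F ^ 4) +
      (2 - 1 / F + 3 / 8 * (2 + 8 * s₃ ^ 2) / F ^ 2 - 5 / 16 * (2 + 24 * s₃ ^ 2) / F ^ 3 +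
        (2 + 48 * s₃ ^ 2 + 32 * s₃ ^ 4) / F ^ 4) =
      6 + (-3 * F ^ 3 + 3 / 8 * (6 + 8 * r) * F ^ 2 - 5 / 16 * (6 + 24 * r) * F +
        (6 + 48 * r + 32 * (s₁ ^ 4 + s₂ ^ 4 + s₃ ^ 4))) / F ^ 4 := by
    rw [hr]
    field_simp
    ring
  rw [h5]
  have h6 : (-3 * F ^ 3 + 3 / 8 * (6 + 8 * r) * F ^ 2 - 5 / 16 * (6 + 24 * r) * F +
        (6 + 48 * r + 32 * (s₁ ^ 4 + s₂ ^ 4 + s₃ ^ 4))) ≤ -10 * F ^ 2 := by
    have h7 : r = F - 16 := by linarith only [hF]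
    rw [h7] at h4 ⊢
    nlinarith only [hF, mul_nonneg hr0 hr0]
  have h7 : (-3 * F ^ 3 + 3 / 8 * (6 + 8 * r) * F ^ 2 - 5 / 16 * (6 + 24 * r) * F +
        (6 + 48 * r + 32 * (s₁ ^ 4 + s₂ ^ 4 + s₃ ^ 4))) / F ^ 4 ≤ -(10 / F ^ 2) := by
    rw [div_le_iff₀ (by positivity)]
    refine h6.trans (le_of_eq ?_)
    field_simp
  linarith only [h7]

variable {d : ℕ}

/-- the supersolution -/
def sup3 (i j k : Fin d) (y : Site d) : ℝ :=
  128 / √(16 + (y i : ℝ) ^ 2 + (y j : ℝ) ^ 2 + (y k : ℝ) ^ 2)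

theorem sup3_nonneg (i j k : Fin d) (y : Site d) : 0 ≤ sup3 i j k y := by
  unfold sup3
  positivity

theorem sup3_super {i j k : Fin d} (hij : i ≠ j) (hik : i ≠ k) (hjk : j ≠ k) (y : Site d) :
    (if y = 0 then 1 else 0) ≤ 2 * d * sup3 i j k y - nb (sup3 i j k) y := by
  set F : ℝ := 16 + (y i : ℝ) ^ 2 + (y j : ℝ) ^ 2 + (y k : ℝ) ^ 2 with hF
  have hF0 : 16 ≤ F := by
    have q1 := sq_nonneg (y i : ℝ)
    have q2 := sq_nonneg (y j : ℝ)
    have q3 := sq_nonneg (y k : ℝ)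
    linarith only [q3, q2, q1]
  have hFp : 0 < F := by linarith only [hF0]
  have h1 : 2 * d * sup3 i j k y - nb (sup3 i j k) y =
      ∑ l : Fin d, (2 * sup3 i j k y - (sup3 i j k (y + Pi.single l 1) +
        sup3 i j k (y - Pi.single l 1))) := by
    unfold nb
    rw [Finset.sum_sub_distrib, Finset.sum_const, Finset.card_univ, Fintype.card_fin,
      nsmul_eq_mul]
    ring
  have h2 : ∑ l : Fin d, (2 * sup3 i j k y - (sup3 i j k (y + Pi.single l 1) +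
        sup3 i j k (y - Pi.single l 1))) =
      ∑ l ∈ {i, j, k}, (2 * sup3 i j k y - (sup3 i j k (y + Pi.single l 1) +
        sup3 i j k (y - Pi.single l 1))) := by
    symm
    apply Finset.sum_subset (Finset.subset_univ _)
    intro l _ hl
    simp only [Finset.mem_insert, Finset.mem_singleton, not_or] at hl
    obtain ⟨l1, l2, l3⟩ := hl
    have e1 : sup3 i j k (y + Pi.single l 1) = sup3 i j k y := by
      unfold sup3
      simp [Ne.symm l1, Ne.symm l2, Ne.symm l3]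
    have e2 : sup3 i j k (y - Pi.single l 1) = sup3 i j k y := by
      unfold sup3
      simp [Ne.symm l1, Ne.symm l2, Ne.symm l3]
    rw [e1, e2]
    ring
  have h3 := six_le (F := F) (s₁ := y i) (s₂ := y j) (s₃ := y k) hF
  have p1 : sup3 i j k (y + Pi.single i 1) = 128 * (1 / √(F + 1 + 2 * (y i : ℝ))) := by
    unfold sup3
    have : 16 + ((y + Pi.single i 1 : Site d) i : ℝ) ^ 2 + ((y + Pi.single i 1 : Site d) j : ℝ) ^ 2 +
        ((y + Pi.single i 1 : Site d) k : ℝ) ^ 2 = F + 1 + 2 * (y i : ℝ) := by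
      simp [hij.symm, hik.symm, hF]
      ring
    rw [this]
    ring
  have p2 : sup3 i j k (y - Pi.single i 1) = 128 * (1 / √(F + 1 - 2 * (y i : ℝ))) := by
    unfold sup3
    have : 16 + ((y - Pi.single i 1 : Site d) i : ℝ) ^ 2 + ((y - Pi.single i 1 : Site d) j : ℝ) ^ 2 +
        ((y - Pi.single i 1 : Site d) k : ℝ) ^ 2 = F + 1 - 2 * (y i : ℝ) := by
      simp [hij.symm, hik.symm, hF]
      ring
    rw [this]
    ring
  have p3 : sup3 i j k (y + Pi.single j 1) = 128 * (1 / √(F + 1 + 2 * (y j : ℝ))) := by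
    unfold sup3
    have : 16 + ((y + Pi.single j 1 : Site d) i : ℝ) ^ 2 + ((y + Pi.single j 1 : Site d) j : ℝ) ^ 2 +
        ((y + Pi.single j 1 : Site d) k : ℝ) ^ 2 = F + 1 + 2 * (y j : ℝ) := by
      simp [hij, hjk.symm, hF]
      ring
    rw [this]
    ring
  have p4 : sup3 i j k (y - Pi.single j 1) = 128 * (1 / √(F + 1 - 2 * (y j : ℝ))) := by
    unfold sup3
    have : 16 + ((y - Pi.single j 1 : Site d) i : ℝ) ^ 2 + ((y - Pi.single j 1 : Site d) j : ℝ) ^ 2 +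
        ((y - Pi.single j 1 : Site d) k : ℝ) ^ 2 = F + 1 - 2 * (y j : ℝ) := by
      simp [hij, hjk.symm, hF]
      ring
    rw [this]
    ring
  have p5 : sup3 i j k (y + Pi.single k 1) = 128 * (1 / √(F + 1 + 2 * (y k : ℝ))) := by
    unfold sup3
    have : 16 + ((y + Pi.single k 1 : Site d) i : ℝ) ^ 2 + ((y + Pi.single k 1 : Site d) j : ℝ) ^ 2 +
        ((y + Pi.single k 1 : Site d) k : ℝ) ^ 2 = F + 1 + 2 * (y k : ℝ) := by
      simp [hik, hjk, hF]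
      ring
    rw [this]
    ring
  have p6 : sup3 i j k (y - Pi.single k 1) = 128 * (1 / √(F + 1 - 2 * (y k : ℝ))) := by
    unfold sup3
    have : 16 + ((y - Pi.single k 1 : Site d) i : ℝ) ^ 2 + ((y - Pi.single k 1 : Site d) j : ℝ) ^ 2 +
        ((y - Pi.single k 1 : Site d) k : ℝ) ^ 2 = F + 1 - 2 * (y k : ℝ) := by
      simp [hik, hjk, hF]
      ring
    rw [this]
    ring
  have p0 : sup3 i j k y = 128 * (1 / √F) := by
    unfold sup3
    rw [← hF]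
    ring
  rw [h1, h2, Finset.sum_insert (by simp [hij, hik]), Finset.sum_insert (by simp [hjk]),
    Finset.sum_singleton, p0, p1, p2, p3, p4, p5, p6]
  have h4 : 128 * (1 / √F * (10 / F ^ 2)) ≤ 2 * (128 * (1 / √F)) -
      (128 * (1 / √(F + 1 + 2 * (y i : ℝ))) + 128 * (1 / √(F + 1 - 2 * (y i : ℝ)))) +
      (2 * (128 * (1 / √F)) - (128 * (1 / √(F + 1 + 2 * (y j : ℝ))) +
        128 * (1 / √(F + 1 - 2 * (y j : ℝ)))) +
      (2 * (128 * (1 / √F)) - (128 * (1 / √(F + 1 + 2 * (y k : ℝ))) +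
        128 * (1 / √(F + 1 - 2 * (y k : ℝ)))))) := by
    have := mul_le_mul_of_nonneg_left h3 (show (0:ℝ) ≤ 128 by norm_num)
    linarith only [h3]
  refine le_trans ?_ h4
  split_ifs with h0
  · have hF16 : F = 16 := by
      rw [hF, h0]
      simp
    rw [hF16, show √(16:ℝ) = 4 by
      rw [show (16:ℝ) = 4 ^ 2 by norm_num]; exact Real.sqrt_sq (by norm_num)]
    norm_num
  · positivity

theorem exists_three (hd : 3 ≤ d) (i : Fin d) : ∃ j k : Fin d, i ≠ j ∧ i ≠ k ∧ j ≠ k := by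
  have h1 : 1 < (Finset.univ.erase i).card := by
    rw [Finset.card_erase_of_mem (Finset.mem_univ i), Finset.card_univ, Fintype.card_fin]
    omega
  obtain ⟨j, hj, k, hk, hjk⟩ := Finset.one_lt_card.1 h1
  exact ⟨j, k, (Finset.ne_of_mem_erase hj).symm, (Finset.ne_of_mem_erase hk).symm, hjk⟩

/-- pointwise decay of the free Green function -/
theorem gr_zero_decay (hd : 3 ≤ d) (Λ : Finset (Site d)) {a : ℝ} (ha : 0 < a) (x y : Site d) :
    gr 0 Λ (2 * d + a) x y * (sd x y) ≤ 128 := by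
  haveI : NeZero d := ⟨by omega⟩
  obtain ⟨i, hi⟩ := exists_sd_eq x y
  obtain ⟨j, k, hij, hik, hjk⟩ := exists_three hd i
  have h1 := gr_le_of_lattice_super Λ ha (sup3_nonneg i j k) (sup3_super hij hik hjk) x y
  have h2 : ((sd x y : ℕ) : ℝ) ^ 2 = ((y - x) i : ℝ) ^ 2 := by
    have h3 : ((sd x y : ℤ)) ^ 2 = ((y - x) i) ^ 2 := by
      rw [hi, sq_abs, Pi.sub_apply]
      ring
    exact_mod_cast h3
  have h4 : ((sd x y : ℕ) : ℝ) ≤
      √(16 + ((y - x) i : ℝ) ^ 2 + ((y - x) j : ℝ) ^ 2 + ((y - x) k : ℝ) ^ 2) := by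
    apply Real.le_sqrt_of_sq_le
    rw [h2]
    nlinarith only [sq_nonneg ((y - x) j : ℝ), sq_nonneg ((y - x) k : ℝ)]
  have h5 : 0 < √(16 + ((y - x) i : ℝ) ^ 2 + ((y - x) j : ℝ) ^ 2 + ((y - x) k : ℝ) ^ 2) := by
    positivity
  calc gr 0 Λ (2 * d + a) x y * (sd x y) ≤ sup3 i j k (y - x) *
        √(16 + ((y - x) i : ℝ) ^ 2 + ((y - x) j : ℝ) ^ 2 + ((y - x) k : ℝ) ^ 2) :=
        mul_le_mul h1 h4 (by positivity) (sup3_nonneg _ _ _ _)
    _ = 128 := by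
        unfold sup3
        field_simp

theorem gr_zero_le (hd : 3 ≤ d) (Λ : Finset (Site d)) {a : ℝ} (ha : 0 < a) (x y : Site d) :
    gr 0 Λ (2 * d + a) x y ≤ 32 := by
  obtain ⟨j, k, hij, hik, hjk⟩ := exists_three hd (⟨0, by omega⟩ : Fin d)
  have h1 := gr_le_of_lattice_super Λ ha (sup3_nonneg ⟨0, by omega⟩ j k)
    (sup3_super hij hik hjk) x y
  refine h1.trans ?_
  unfold sup3
  rw [div_le_iff₀ (by positivity)]
  have : (4:ℝ) ≤ √(16 + ((y - x) ⟨0, by omega⟩ : ℝ) ^ 2 + ((y - x) j : ℝ) ^ 2 +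
      ((y - x) k : ℝ) ^ 2) := by
    apply Real.le_sqrt_of_sq_le
    nlinarith only [sq_nonneg ((y - x) ⟨0, by omega⟩ : ℝ), sq_nonneg ((y - x) j : ℝ),
      sq_nonneg ((y - x) k : ℝ)]
  linarith only [this]

theorem summable_walks (hd : 3 ≤ d) :
    Summable fun n : ℕ => (walks n (0 : Site d) : ℝ) / (2 * d) ^ (n + 1) := by
  obtain ⟨j, k, hij, hik, hjk⟩ := exists_three hd (⟨0, by omega⟩ : Fin d)
  have hd0 : (0:ℝ) < d := by
    have : 0 < d := by omega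
    exact_mod_cast this
  apply summable_of_sum_range_le (c := 32)
  · intro n; positivity
  · intro N
    have h1 : ∀ a : ℝ, 0 < a → SW (2 * d + a) 0 N (0 : Site d) ≤ 32 := by
      intro a ha
      refine (SW_le_of_lattice_super ha (sup3_nonneg ⟨0, by omega⟩ j k)
        (sup3_super hij hik hjk) N).trans (le_of_eq ?_)
      unfold sup3
      simp only [Pi.zero_apply, Int.cast_zero]
      rw [show (16 + (0:ℝ) ^ 2 + 0 ^ 2 + 0 ^ 2) = 4 ^ 2 by norm_num, Real.sqrt_sq (by norm_num)]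
      norm_num
    have h2 : Tendsto (fun a : ℝ => SW (2 * d + a) 0 N (0 : Site d)) (𝓝[>] 0)
        (𝓝 (∑ n ∈ Finset.range N, (walks n (0 : Site d) : ℝ) / (2 * d) ^ (n + 1))) := by
      have h3 : ContinuousAt (fun a : ℝ => SW (2 * d + a) 0 N (0 : Site d)) 0 := by
        unfold SW
        apply tendsto_finsetSum
        intro n _
        apply ContinuousAt.div continuousAt_const
        · fun_prop
        · positivity
      have h4 : SW (2 * d + (0:ℝ)) 0 N (0 : Site d) =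
          ∑ n ∈ Finset.range N, (walks n (0 : Site d) : ℝ) / (2 * d) ^ (n + 1) := by
        unfold SW
        rw [add_zero, sub_zero]
      rw [← h4]
      exact h3.tendsto.mono_left nhdsWithin_le_nhds
    refine le_of_tendsto h2 ?_
    filter_upwards [self_mem_nhdsWithin] with a ha using h1 a ha

/-- **(D3)** the free Green function on the diagonal -/
theorem gr_zero_diag (hd : 3 ≤ d) (Λ : Finset (Site d)) {a : ℝ} (ha : 0 < a) (x : Site d) :
    gr 0 Λ (2 * d + a) x x ≤ watson d := by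
  have hd0 : (0:ℝ) < d := by
    have : 0 < d := by omega
    exact_mod_cast this
  have hnn : ∀ n : ℕ, 0 ≤ (walks n (0 : Site d) : ℝ) / (2 * d) ^ (n + 1) := fun n => by positivity
  by_cases hx : x ∈ Λ
  swap
  · unfold gr
    rw [dif_neg (fun h => hx h.1)]
    exact tsum_nonneg hnn
  have h1 : ∀ N : ℕ, gr 0 Λ (2 * d + a) x x ≤ watson d + (2 * d / (2 * d + a)) ^ N / a := by
    intro N
    refine (gr_le_SW Λ ha hx hx N).trans ?_
    have h2 : SW (2 * d + a) x N x ≤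
        ∑ n ∈ Finset.range N, (walks n (0 : Site d) : ℝ) / (2 * d) ^ (n + 1) := by
      unfold SW
      rw [sub_self]
      apply Finset.sum_le_sum
      intro n _
      gcongr
      linarith only [ha]
    have h3 := (summable_walks hd).sum_le_tsum (Finset.range N) fun n _ => hnn n
    unfold watson
    linarith only [h3, h2]
  have h2 : Tendsto (fun N : ℕ => watson d + (2 * d / (2 * d + a)) ^ N / a) atTop
      (𝓝 (watson d + 0 / a)) := by
    apply Tendsto.const_add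
    apply Tendsto.div_const
    apply tendsto_pow_atTop_nhds_zero_of_lt_one (by positivity)
    rw [div_lt_one (by positivity)]
    linarith only [ha]
  rw [zero_div, add_zero] at h2
  exact ge_of_tendsto' h2 h1

/-- **(D5)** the off-diagonal square sum -/
theorem gr_zero_sq (hd : 3 ≤ d) (Λ : Finset (Site d)) {a : ℝ} (ha : 0 < a) (ha1 : a ≤ 1)
    (x : Site d) :
    ∑ y ∈ Λ, gr 0 Λ (2 * d + a) x y ^ 2 ≤ (1024 * 5 ^ d + 128) * a ^ (-1 + 1 / (2 * d : ℝ)) := by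
  have hd0 : (0:ℝ) < d := by
    have : 0 < d := by omega
    exact_mod_cast this
  have hd3 : (3:ℝ) ≤ d := by exact_mod_cast hd
  have hE : 2 * (d:ℝ) < 2 * d + a := by linarith only [ha]
  set η : ℝ := 1 / (2 * d : ℝ) with hη
  have hη0 : 0 < η := by positivity
  have hη1 : η ≤ 1 / 6 := by
    rw [hη]
    apply one_div_le_one_div_of_le (by norm_num)
    linarith only [hd3]
  set R : ℕ := ⌈a ^ (-η)⌉₊ with hR
  have haη : 1 ≤ a ^ (-η) := Real.one_le_rpow_of_pos_of_le_one_of_nonpos ha ha1 (by linarith only [hη0])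
  have hR1 : a ^ (-η) ≤ R := Nat.le_ceil _
  have hR2 : (R:ℝ) ≤ 2 * a ^ (-η) := by
    have := (Nat.ceil_lt_add_one (show 0 ≤ a ^ (-η) by positivity)).le
    rw [← hR] at this
    linarith only [this, haη]
  have hR0 : (0:ℝ) < R := by linarith only [hR1, haη]
  have hnn := fun y => gr_zero_nonneg Λ hE x y
  rw [← Finset.sum_filter_add_sum_filter_not Λ (fun y => sd x y ≤ R)]
  have h1 : ∑ y ∈ Λ with sd x y ≤ R, gr 0 Λ (2 * d + a) x y ^ 2 ≤
      1024 * 5 ^ d * a ^ (-1 + η) := by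
    calc ∑ y ∈ Λ with sd x y ≤ R, gr 0 Λ (2 * d + a) x y ^ 2
        ≤ ∑ y ∈ Λ with sd x y ≤ R, (1024 : ℝ) := by
          apply Finset.sum_le_sum
          intro y _
          have := gr_zero_le hd Λ ha x y
          nlinarith only [this, hnn y]
      _ ≤ ∑ y ∈ box x R, (1024 : ℝ) := by
          apply Finset.sum_le_sum_of_subset_of_nonneg
          · intro y hy
            rw [Finset.mem_filter] at hy
            exact mem_box.2 hy.2
          · intro _ _ _; norm_num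
      _ = 1024 * (2 * (R:ℝ) + 1) ^ d := by
          rw [Finset.sum_const, card_box, nsmul_eq_mul]
          push_cast
          ring
      _ ≤ 1024 * (5 * a ^ (-η)) ^ d := by
          gcongr
          linarith only [hR2, haη]
      _ = 1024 * 5 ^ d * a ^ (-(1 / 2) : ℝ) := by
          rw [mul_pow, ← Real.rpow_natCast (a ^ (-η)) d, ← Real.rpow_mul ha.le, ← mul_assoc]
          congr 2
          rw [hη]
          field_simp
      _ ≤ 1024 * 5 ^ d * a ^ (-1 + η) := by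
          apply mul_le_mul_of_nonneg_left _ (by positivity)
          exact Real.rpow_le_rpow_of_exponent_ge ha ha1 (by linarith only [hη1])
  have h2 : ∑ y ∈ Λ with ¬ sd x y ≤ R, gr 0 Λ (2 * d + a) x y ^ 2 ≤ 128 * a ^ (-1 + η) := by
    calc ∑ y ∈ Λ with ¬ sd x y ≤ R, gr 0 Λ (2 * d + a) x y ^ 2
        ≤ ∑ y ∈ Λ with ¬ sd x y ≤ R, 128 * a ^ η * gr 0 Λ (2 * d + a) x y := by
          apply Finset.sum_le_sum
          intro y hy
          rw [Finset.mem_filter, not_le] at hy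
          have h3 := gr_zero_decay hd Λ ha x y
          have h4 : (R:ℝ) ≤ sd x y := by exact_mod_cast hy.2.le
          have h5 : gr 0 Λ (2 * d + a) x y * R ≤ 128 :=
            (mul_le_mul_of_nonneg_left h4 (hnn y)).trans h3
          have h6 : gr 0 Λ (2 * d + a) x y * a ^ (-η) ≤ 128 :=
            (mul_le_mul_of_nonneg_left hR1 (hnn y)).trans h5
          have h7 : gr 0 Λ (2 * d + a) x y ≤ 128 * a ^ η := by
            rw [Real.rpow_neg ha.le, ← div_eq_mul_inv, div_le_iff₀ (by positivity)] at h6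
            exact h6
          rw [sq]
          exact mul_le_mul_of_nonneg_right h7 (hnn y)
      _ ≤ ∑ y ∈ Λ, 128 * a ^ η * gr 0 Λ (2 * d + a) x y := by
          apply Finset.sum_le_sum_of_subset_of_nonneg (Finset.filter_subset _ _)
          intro y _ _
          have := hnn y
          positivity
      _ = 128 * a ^ η * ∑ y ∈ Λ, gr 0 Λ (2 * d + a) x y := by rw [Finset.mul_sum]
      _ ≤ 128 * a ^ η * (1 / a) := by
          apply mul_le_mul_of_nonneg_left (sum_gr_zero_le Λ ha x) (by positivity)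
      _ = 128 * a ^ (-1 + η) := by
          rw [Real.rpow_add ha, Real.rpow_neg_one]
          field_simp
  linarith only [h2, h1]

theorem watson_pos (hd : 3 ≤ d) : 0 < watson d := by
  have hd0 : (0:ℝ) < d := by
    have : 0 < d := by omega
    exact_mod_cast this
  have h1 := (summable_walks hd).le_tsum 0 (fun n _ => by positivity)
  have h2 : (walks 0 (0 : Site d) : ℝ) / (2 * d) ^ (0 + 1) = 1 / (2 * d) := by
    rw [walks_zero, if_pos rfl]
    simp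
  rw [h2] at h1
  exact lt_of_lt_of_le (by positivity) h1

end Pool.Agent.Loc
end
end -- Pool.Agent.Helper48_Loc.Super

section -- Pool.Agent.Helper48_Loc.Transfer

/-!
# Transfer to an arbitrary probability space
-/

set_option autoImplicit false
set_option linter.unusedSectionVars false

open MeasureTheory ProbabilityTheory Function

open scoped ENNReal BigOperators

noncomputable section

namespace Pool.Agent.Loc

open Pool.Agent.Anderson

variable {d : ℕ} {ν : Measure ℝ} [IsProbabilityMeasure ν] {ρ : ℝ}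
  {Ω : Type*} [MeasurableSpace Ω] {P : Measure Ω} [IsProbabilityMeasure P]
  {V : Site d → Ω → ℝ}

theorem transfer (hm : ∀ z, Measurable (V z)) (hlaw : ∀ z, P.map (V z) = ν)
    (hind : iIndepFun V P) {Λ : Finset (Site d)} {S : Set (Site d → ℝ)} (hS : MeasurableSet S)
    (h : ∀ W W' : Site d → ℝ, (∀ x ∈ Λ, W x = W' x) → (W ∈ S ↔ W' ∈ S)) :
    P {ω | (fun z => V z ω) ∈ S} = PL ν Λ S := by
  have hind' : iIndepFun (fun z : Λ => V z) P := hind.precomp Subtype.val_injective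
  have h1 : P.map (fun ω (z : Λ) => V z ω) = Measure.pi fun _ : Λ => ν := by
    rw [(iIndepFun_iff_map_fun_eq_pi_map (fun z : Λ => (hm z).aemeasurable)).1 hind']
    congr 1
    funext z
    exact hlaw z
  have hmr : Measurable fun ω (z : Λ) => V z ω := measurable_pi_iff.2 fun z => hm z
  have hmu : Measurable (updateFinset (0 : Site d → ℝ) Λ) := measurable_updateFinset
  unfold PL
  rw [← h1, Measure.map_apply hmu hS, Measure.map_apply hmr (hmu hS)]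
  congr 1
  ext ω
  simp only [Set.mem_ofPred_eq, Set.mem_preimage, Function.comp]
  apply h
  intro x hx
  simp [updateFinset, hx]

theorem measurableSet_not_good (Λ : Finset (Site d)) (E : ℝ) (x y : Site d) (t : ℝ) :
    MeasurableSet {V : Site d → ℝ | ¬ Good V Λ E x y t} := by
  have h1 : MeasurableSet {V : Site d → ℝ | (RM V Λ E).det = 0} :=
    (isClosed_singleton.preimage (continuous_det Λ E)).measurableSet
  have h2 : MeasurableSet {V : Site d → ℝ | |gr V Λ E x y| < t} :=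
    measurableSet_lt (measurable_gr Λ E x y).abs measurable_const
  have : {V : Site d → ℝ | Good V Λ E x y t} = {V | (RM V Λ E).det = 0}ᶜ ∩
      {V | |gr V Λ E x y| < t} := by
    ext V; simp [Good]
  have h3 : MeasurableSet {V : Site d → ℝ | Good V Λ E x y t} := by
    rw [this]; exact h1.compl.inter h2
  exact h3.compl

theorem good_congr {W W' : Site d → ℝ} {Λ : Finset (Site d)} (h : ∀ x ∈ Λ, W x = W' x)
    (E : ℝ) (x y : Site d) (t : ℝ) : Good W Λ E x y t ↔ Good W' Λ E x y t := by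
  unfold Good
  rw [RM_congr h, gr_congr h]

/-- The initial scale estimate implies exponential decay in probability at all scales. -/
theorem fixedDecay_of_init (hν : BddDens ν ρ) (hm : ∀ z, Measurable (V z))
    (hlaw : ∀ z, P.map (V z) = ν) (hind : iIndepFun V P) {L : ℕ} {ε E₀ : ℝ} (hε : 0 ≤ ε)
    (hinit : ∀ E : ℝ, E₀ ≤ |E| → InitScale d ν L ε E)
    (hK : 2 * d * ((2 * L + 5) ^ d) ^ 4 * (ε * (2 * √(6 * ρ))) ≤ Real.exp (-1)) :
    FixedDecay P V E₀ (2 * √(6 * ρ) * Real.exp 1) (2 / (3 * (L + 2))) := by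
  intro Λ x y E hx hy hE
  have h1 := prob_decay hν hε (hinit E hE) hK Λ hx hy
  have h2 := transfer (Λ := Λ) hm hlaw hind
    (measurableSet_not_good Λ E x y (Real.exp (-(2 / (3 * (L + 2))) * sd x y)))
    (fun W W' hW => not_congr (good_congr hW E x y _))
  rw [← h2] at h1
  exact h1

end Pool.Agent.Loc
end
end -- Pool.Agent.Helper48_Loc.Transfer

section -- Pool.Agent.Helper48_Loc.TwoBox

/-!
# From fixed-energy decay in probability to the two-box property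

The event that two disjoint boxes are both bad at some energy in the (unbounded) energy range is
controlled without a Wegner estimate: a box is good at the energy `E` iff a certain polynomial in
`E`, of degree twice the volume, is negative.  If both polynomials are `≥ 0` somewhere in `[E₀, ∞)`, then
moving the energy down until something happens we find that the first one is `≥ 0` at `E₀`, or
that one of them is `≥ 0` at a root of the other one.  The roots of the first polynomial depend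
only on the potential in the first box, which is independent of the second one.
-/

set_option autoImplicit false

open MeasureTheory ProbabilityTheory

open scoped ENNReal BigOperators

noncomputable section

namespace Pool.Agent.Loc

open Pool.Agent.Anderson

variable {d : ℕ}

section Abstract

set_option linter.unusedSectionVars false
set_option linter.unusedVariables false

variable {α β : Type*} [TopologicalSpace α] [MeasurableSpace α] [BorelSpace α]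
  [SecondCountableTopology α] [TopologicalSpace β] [MeasurableSpace β] [BorelSpace β]
  [SecondCountableTopology β]

theorem measurableSet_exists {I : Set ℝ} (hI : IsClosed I) {F : Set ((α × β) × ℝ)}
    (hF : IsClosed F) : MeasurableSet {p : α × β | ∃ E ∈ I, (p, E) ∈ F} := by
  have h : {p : α × β | ∃ E ∈ I, (p, E) ∈ F} = ⋃ R : ℕ, Prod.fst ''
      {q : (α × β) × (Set.Icc (-(R : ℝ)) R) | (q.2 : ℝ) ∈ I ∧ (q.1, (q.2 : ℝ)) ∈ F} := by
    ext p
    simp only [Set.mem_ofPred_eq, Set.mem_iUnion, Set.mem_image]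
    constructor
    · rintro ⟨E, hE, hpE⟩
      obtain ⟨R, hR⟩ := exists_nat_ge |E|
      exact ⟨R, (p, ⟨E, abs_le.1 hR⟩), ⟨hE, hpE⟩, rfl⟩
    · rintro ⟨R, q, ⟨h1, h2⟩, rfl⟩
      exact ⟨q.2, h1, h2⟩
  rw [h]
  refine MeasurableSet.iUnion fun R => IsClosed.measurableSet ?_
  refine isClosedMap_fst_of_compactSpace _ ?_
  have c1 : Continuous (fun q : (α × β) × (Set.Icc (-(R : ℝ)) R) => (q.2 : ℝ)) :=
    continuous_subtype_val.comp continuous_snd
  have c2 : Continuous (fun q : (α × β) × (Set.Icc (-(R : ℝ)) R) => (q.1, (q.2 : ℝ))) :=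
    continuous_fst.prodMk c1
  exact (hI.preimage c1).inter (hF.preimage c2)

theorem measurableSet_exists₂ {g₁ : α → ℝ → ℝ} {g₂ : β → ℝ → ℝ}
    (h₁ : Continuous (fun p : α × ℝ => g₁ p.1 p.2))
    (h₂ : Continuous (fun p : β × ℝ => g₂ p.1 p.2)) (E₀ : ℝ) :
    MeasurableSet {p : α × β | ∃ E, E₀ ≤ |E| ∧ 0 ≤ g₁ p.1 E ∧ 0 ≤ g₂ p.2 E} := by
  have hI : IsClosed {E : ℝ | E₀ ≤ |E|} := isClosed_le continuous_const continuous_abs
  have e₁ : Continuous (fun p : (α × β) × ℝ => g₁ p.1.1 p.2) :=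
    h₁.comp ((continuous_fst.comp continuous_fst).prodMk continuous_snd)
  have e₂ : Continuous (fun p : (α × β) × ℝ => g₂ p.1.2 p.2) :=
    h₂.comp ((continuous_snd.comp continuous_fst).prodMk continuous_snd)
  have := measurableSet_exists (α := α) (β := β) hI
    (F := {p | 0 ≤ g₁ p.1.1 p.2} ∩ {p | 0 ≤ g₂ p.1.2 p.2})
    ((isClosed_le continuous_const e₁).inter (isClosed_le continuous_const e₂))
  simpa using this

theorem isClosed_slice {g₁ : α → ℝ → ℝ}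
    (h₁ : Continuous (fun p : α × ℝ => g₁ p.1 p.2)) (E : ℝ) :
    IsClosed {a : α | 0 ≤ g₁ a E} :=
  isClosed_le continuous_const (h₁.comp (continuous_id.prodMk continuous_const))

theorem exists_root {q₁ q₂ : ℝ → ℝ} (h₁ : Continuous q₁) (h₂ : Continuous q₂) {E₀ E : ℝ}
    (hE : E₀ ≤ E) (hq₁ : 0 ≤ q₁ E) (hq₂ : 0 ≤ q₂ E) :
    0 ≤ q₁ E₀ ∨ (∃ F, E₀ ≤ F ∧ q₁ F = 0 ∧ 0 ≤ q₂ F) ∨ (∃ F, E₀ ≤ F ∧ q₂ F = 0 ∧ 0 ≤ q₁ F) := by
  set S : Set ℝ := Set.Icc E₀ E ∩ ({F | 0 ≤ q₁ F} ∩ {F | 0 ≤ q₂ F}) with hS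
  have hcl : IsClosed ({F | 0 ≤ q₁ F} ∩ {F | 0 ≤ q₂ F}) :=
    (isClosed_le continuous_const h₁).inter (isClosed_le continuous_const h₂)
  have hcomp : IsCompact S := isCompact_Icc.inter_right hcl
  have hne : S.Nonempty := ⟨E, ⟨hE, le_rfl⟩, hq₁, hq₂⟩
  obtain ⟨m, ⟨⟨hm1, hm2⟩, hm3, hm4⟩, hmin⟩ := hcomp.exists_isLeast hne
  simp only [Set.mem_ofPred_eq] at hm3 hm4
  rcases hm1.eq_or_lt with h | h
  · left; rw [h]; exact hm3
  · right
    rcases hm3.eq_or_lt with h3 | h3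
    · left; exact ⟨m, hm1, h3.symm, hm4⟩
    rcases hm4.eq_or_lt with h4 | h4
    · right; exact ⟨m, hm1, h4.symm, hm3⟩
    exfalso
    have e1 : ∀ᶠ F in nhds m, 0 < q₁ F := h₁.continuousAt.eventually (lt_mem_nhds h3)
    have e2 : ∀ᶠ F in nhds m, 0 < q₂ F := h₂.continuousAt.eventually (lt_mem_nhds h4)
    have e3 : ∀ᶠ F in nhds m, E₀ < F := lt_mem_nhds h
    have e4 : ∀ᶠ F in nhdsWithin m (Set.Iio m), 0 < q₁ F ∧ 0 < q₂ F ∧ E₀ < F ∧ F < m := by
      have := (e1.and (e2.and e3)).filter_mono (nhdsWithin_le_nhds (s := Set.Iio m))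
      filter_upwards [this, self_mem_nhdsWithin] with F hF hF'
      exact ⟨hF.1, hF.2.1, hF.2.2, hF'⟩
    obtain ⟨F, f1, f2, f3, f4⟩ := e4.exists
    have := hmin ⟨⟨f3.le, (f4.le.trans hm2)⟩, f1.le, f2.le⟩
    exact absurd this (not_le.2 f4)

/-- both half lines -/
theorem exists_root_abs {q₁ q₂ : ℝ → ℝ} (h₁ : Continuous q₁) (h₂ : Continuous q₂) {E₀ E : ℝ}
    (hE₀ : 0 ≤ E₀) (hE : E₀ ≤ |E|) (hq₁ : 0 ≤ q₁ E) (hq₂ : 0 ≤ q₂ E) :
    0 ≤ q₁ E₀ ∨ 0 ≤ q₁ (-E₀) ∨ (∃ F, E₀ ≤ |F| ∧ q₁ F = 0 ∧ 0 ≤ q₂ F) ∨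
      (∃ F, E₀ ≤ |F| ∧ q₂ F = 0 ∧ 0 ≤ q₁ F) := by
  rcases le_total 0 E with h | h
  · rw [abs_of_nonneg h] at hE
    rcases exists_root h₁ h₂ hE hq₁ hq₂ with h' | ⟨F, f1, f2, f3⟩ | ⟨F, f1, f2, f3⟩
    · exact Or.inl h'
    · exact Or.inr (Or.inr (Or.inl ⟨F, f1.trans (le_abs_self F), f2, f3⟩))
    · exact Or.inr (Or.inr (Or.inr ⟨F, f1.trans (le_abs_self F), f2, f3⟩))
  · rw [abs_of_nonpos h] at hE
    have := exists_root (q₁ := fun F => q₁ (-F)) (q₂ := fun F => q₂ (-F))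
      (h₁.comp continuous_neg) (h₂.comp continuous_neg) hE (by simpa using hq₁)
      (by simpa using hq₂)
    rcases this with h' | ⟨F, f1, f2, f3⟩ | ⟨F, f1, f2, f3⟩
    · exact Or.inr (Or.inl h')
    · refine Or.inr (Or.inr (Or.inl ⟨-F, ?_, f2, f3⟩))
      rw [abs_neg]; exact f1.trans (le_abs_self F)
    · refine Or.inr (Or.inr (Or.inr ⟨-F, ?_, f2, f3⟩))
      rw [abs_neg]; exact f1.trans (le_abs_self F)

/-- the probability that the second function is `≥ 0` at a root of the first one -/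
theorem prob_root {μ₁ : Measure α} {μ₂ : Measure β} [IsProbabilityMeasure μ₁] [SFinite μ₂]
    {q₁ : α → ℝ → ℝ} {q₂ : β → ℝ → ℝ}
    {E₀ : ℝ} {N : ℕ} {K : ℝ≥0∞}
    (hN : ∀ a, ∃ s : Finset ℝ, s.card ≤ N ∧ ∀ E, q₁ a E = 0 → E ∈ s)
    (hK : ∀ E, E₀ ≤ |E| → μ₂ {b | 0 ≤ q₂ b E} ≤ K)
    (hB : MeasurableSet {p : α × β | ∃ E, E₀ ≤ |E| ∧ q₁ p.1 E = 0 ∧ 0 ≤ q₂ p.2 E}) :
    (μ₁.prod μ₂) {p | ∃ E, E₀ ≤ |E| ∧ q₁ p.1 E = 0 ∧ 0 ≤ q₂ p.2 E} ≤ N * K := by
  rw [Measure.prod_apply hB]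
  calc ∫⁻ a, μ₂ (Prod.mk a ⁻¹' {p : α × β | ∃ E, E₀ ≤ |E| ∧ q₁ p.1 E = 0 ∧ 0 ≤ q₂ p.2 E}) ∂μ₁
      ≤ ∫⁻ _a, (N : ℝ≥0∞) * K ∂μ₁ := by
        apply lintegral_mono
        intro a
        obtain ⟨s, hs1, hs2⟩ := hN a
        have hsub : Prod.mk a ⁻¹' {p : α × β | ∃ E, E₀ ≤ |E| ∧ q₁ p.1 E = 0 ∧ 0 ≤ q₂ p.2 E} ⊆
            ⋃ E ∈ s.filter (fun E => E₀ ≤ |E|), {b | 0 ≤ q₂ b E} := by
          intro b hb
          obtain ⟨E, e1, e2, e3⟩ := hb
          simp only [Set.mem_iUnion]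
          exact ⟨E, Finset.mem_filter.2 ⟨hs2 E e2, e1⟩, e3⟩
        calc μ₂ (Prod.mk a ⁻¹' {p : α × β | ∃ E, E₀ ≤ |E| ∧ q₁ p.1 E = 0 ∧ 0 ≤ q₂ p.2 E})
            ≤ μ₂ (⋃ E ∈ s.filter (fun E => E₀ ≤ |E|), {b | 0 ≤ q₂ b E}) := measure_mono hsub
          _ ≤ ∑ E ∈ s.filter (fun E => E₀ ≤ |E|), μ₂ {b | 0 ≤ q₂ b E} :=
              measure_biUnion_finset_le _ _
          _ ≤ ∑ _E ∈ s.filter (fun E => E₀ ≤ |E|), K :=
              Finset.sum_le_sum fun E hE => hK E (Finset.mem_filter.1 hE).2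
          _ = ((s.filter (fun E => E₀ ≤ |E|)).card : ℝ≥0∞) * K := by
              rw [Finset.sum_const, nsmul_eq_mul]
          _ ≤ (N : ℝ≥0∞) * K := by
              gcongr
              exact (Finset.card_filter_le _ _).trans hs1
    _ = (N : ℝ≥0∞) * K := by rw [lintegral_const, measure_univ, mul_one]

/-- the same with the factors exchanged -/
theorem prob_root' {μ₁ : Measure α} {μ₂ : Measure β} [IsProbabilityMeasure μ₂] [SFinite μ₁]
    {q₁ : α → ℝ → ℝ} {q₂ : β → ℝ → ℝ}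
    {E₀ : ℝ} {N : ℕ} {K : ℝ≥0∞}
    (hN : ∀ b, ∃ s : Finset ℝ, s.card ≤ N ∧ ∀ E, q₂ b E = 0 → E ∈ s)
    (hK : ∀ E, E₀ ≤ |E| → μ₁ {a | 0 ≤ q₁ a E} ≤ K)
    (hB : MeasurableSet {p : α × β | ∃ E, E₀ ≤ |E| ∧ q₂ p.2 E = 0 ∧ 0 ≤ q₁ p.1 E}) :
    (μ₁.prod μ₂) {p | ∃ E, E₀ ≤ |E| ∧ q₂ p.2 E = 0 ∧ 0 ≤ q₁ p.1 E} ≤ N * K := by
  have h := prob_root (μ₁ := μ₂) (μ₂ := μ₁) (q₁ := q₂) (q₂ := q₁) (E₀ := E₀) hN hK
    (hB.preimage measurable_swap)
  rw [← Measure.prod_swap, Measure.map_apply measurable_swap hB]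
  exact h

/-- the probability that both functions are `≥ 0` at some common point -/
theorem prob_both {μ₁ : Measure α} {μ₂ : Measure β} [IsProbabilityMeasure μ₁]
    [IsProbabilityMeasure μ₂] {q₁ : α → ℝ → ℝ} {q₂ : β → ℝ → ℝ}
    (hq₁ : Continuous (fun p : α × ℝ => q₁ p.1 p.2))
    (hq₂ : Continuous (fun p : β × ℝ => q₂ p.1 p.2))
    {E₀ : ℝ} (hE₀ : 0 ≤ E₀) {N₁ N₂ : ℕ} {K : ℝ≥0∞}
    (hN₁ : ∀ a, ∃ s : Finset ℝ, s.card ≤ N₁ ∧ ∀ E, q₁ a E = 0 → E ∈ s)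
    (hN₂ : ∀ b, ∃ s : Finset ℝ, s.card ≤ N₂ ∧ ∀ E, q₂ b E = 0 → E ∈ s)
    (hK₁ : ∀ E, E₀ ≤ |E| → μ₁ {a | 0 ≤ q₁ a E} ≤ K)
    (hK₂ : ∀ E, E₀ ≤ |E| → μ₂ {b | 0 ≤ q₂ b E} ≤ K) :
    (μ₁.prod μ₂) {p | ∃ E, E₀ ≤ |E| ∧ 0 ≤ q₁ p.1 E ∧ 0 ≤ q₂ p.2 E} ≤
      ((2 + N₁ + N₂ : ℕ) : ℝ≥0∞) * K := by
  have hI : IsClosed {E : ℝ | E₀ ≤ |E|} := isClosed_le continuous_const continuous_abs
  have g₁ : Continuous (fun p : (α × β) × ℝ => q₁ p.1.1 p.2) :=
    hq₁.comp ((continuous_fst.comp continuous_fst).prodMk continuous_snd)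
  have g₂ : Continuous (fun p : (α × β) × ℝ => q₂ p.1.2 p.2) :=
    hq₂.comp ((continuous_snd.comp continuous_fst).prodMk continuous_snd)
  have hB₁ : MeasurableSet {p : α × β | ∃ E, E₀ ≤ |E| ∧ q₁ p.1 E = 0 ∧ 0 ≤ q₂ p.2 E} := by
    have := measurableSet_exists (α := α) (β := β) hI
      (F := {p | q₁ p.1.1 p.2 = 0} ∩ {p | 0 ≤ q₂ p.1.2 p.2})
      ((isClosed_eq g₁ continuous_const).inter (isClosed_le continuous_const g₂))
    simpa using this
  have hB₂ : MeasurableSet {p : α × β | ∃ E, E₀ ≤ |E| ∧ q₂ p.2 E = 0 ∧ 0 ≤ q₁ p.1 E} := by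
    have := measurableSet_exists (α := α) (β := β) hI
      (F := {p | q₂ p.1.2 p.2 = 0} ∩ {p | 0 ≤ q₁ p.1.1 p.2})
      ((isClosed_eq g₂ continuous_const).inter (isClosed_le continuous_const g₁))
    simpa using this
  have hsub : {p : α × β | ∃ E, E₀ ≤ |E| ∧ 0 ≤ q₁ p.1 E ∧ 0 ≤ q₂ p.2 E} ⊆
      ({a | 0 ≤ q₁ a E₀} ×ˢ Set.univ) ∪ (({a | 0 ≤ q₁ a (-E₀)} ×ˢ Set.univ) ∪
      ({p | ∃ E, E₀ ≤ |E| ∧ q₁ p.1 E = 0 ∧ 0 ≤ q₂ p.2 E} ∪
       {p | ∃ E, E₀ ≤ |E| ∧ q₂ p.2 E = 0 ∧ 0 ≤ q₁ p.1 E})) := by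
    rintro ⟨a, b⟩ ⟨E, e1, e2, e3⟩
    have c₁ : Continuous (q₁ a) := hq₁.comp (Continuous.prodMk continuous_const continuous_id)
    have c₂ : Continuous (q₂ b) := hq₂.comp (Continuous.prodMk continuous_const continuous_id)
    rcases exists_root_abs c₁ c₂ hE₀ e1 e2 e3 with h | h | h | h
    · exact Or.inl ⟨h, trivial⟩
    · exact Or.inr (Or.inl ⟨h, trivial⟩)
    · exact Or.inr (Or.inr (Or.inl h))
    · exact Or.inr (Or.inr (Or.inr h))
  have k1 : (μ₁.prod μ₂) ({a | 0 ≤ q₁ a E₀} ×ˢ Set.univ) ≤ K := by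
    rw [Measure.prod_prod, measure_univ, mul_one]
    exact hK₁ E₀ (le_abs_self _)
  have k2 : (μ₁.prod μ₂) ({a | 0 ≤ q₁ a (-E₀)} ×ˢ Set.univ) ≤ K := by
    rw [Measure.prod_prod, measure_univ, mul_one]
    exact hK₁ (-E₀) (by rw [abs_neg]; exact le_abs_self _)
  have k3 := prob_root (μ₁ := μ₁) (μ₂ := μ₂) hN₁ hK₂ hB₁
  have k4 := prob_root' (μ₁ := μ₁) (μ₂ := μ₂) hN₂ hK₁ hB₂
  calc (μ₁.prod μ₂) {p | ∃ E, E₀ ≤ |E| ∧ 0 ≤ q₁ p.1 E ∧ 0 ≤ q₂ p.2 E}
      ≤ _ := measure_mono hsub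
    _ ≤ K + (K + (N₁ * K + N₂ * K)) := by
        refine (measure_union_le _ _).trans (add_le_add k1 ?_)
        refine (measure_union_le _ _).trans (add_le_add k2 ?_)
        exact (measure_union_le _ _).trans (add_le_add k3 k4)
    _ = ((2 + N₁ + N₂ : ℕ) : ℝ≥0∞) * K := by push_cast; ring

end Abstract

/-! ### the polynomial attached to a box -/

section Poly

open Polynomial

variable {Λ : Finset (Site d)}

/-- `H_Λ` as a function of the potential in `Λ` -/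
def ham (Λ : Finset (Site d)) (a : Λ → ℝ) : Matrix Λ Λ ℝ :=
  Matrix.of fun x y => hop (x : Site d) y + if x = y then a x else 0

theorem HM_eq_ham (V : Site d → ℝ) (Λ : Finset (Site d)) : HM V Λ = ham Λ (fun z => V z) := rfl

/-- `adj(E - H_Λ)_{ij}² - t² det(E - H_Λ)²` -/
def qf (Λ : Finset (Site d)) (i j : Λ) (t : ℝ) (a : Λ → ℝ) (E : ℝ) : ℝ :=
  ((E • (1 : Matrix Λ Λ ℝ) - ham Λ a).adjugate i j) ^ 2 -
    t ^ 2 * ((E • (1 : Matrix Λ Λ ℝ) - ham Λ a).det) ^ 2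

theorem good_iff {V : Site d → ℝ} {E : ℝ} {x y : Site d} (hx : x ∈ Λ) (hy : y ∈ Λ) {t : ℝ}
    (ht : 0 < t) :
    Good V Λ E x y t ↔ qf Λ ⟨x, hx⟩ ⟨y, hy⟩ t (fun z => V z) E < 0 := by
  unfold Good gr qf
  rw [dif_pos ⟨hx, hy⟩]
  have hR : RM V Λ E = E • (1 : Matrix Λ Λ ℝ) - ham Λ (fun z => V z) := rfl
  rw [hR]
  set M := E • (1 : Matrix Λ Λ ℝ) - ham Λ (fun z => V z)
  set A := M.adjugate ⟨x, hx⟩ ⟨y, hy⟩ with hA
  have hinv : M⁻¹ ⟨x, hx⟩ ⟨y, hy⟩ = (M.det)⁻¹ * A := by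
    rw [Matrix.inv_def, Matrix.smul_apply, smul_eq_mul, Ring.inverse_eq_inv']
  rw [hinv]
  constructor
  · rintro ⟨h1, h2⟩
    have h3 : |A| < t * |M.det| := by
      rw [abs_mul, abs_inv, inv_mul_lt_iff₀ (abs_pos.2 h1)] at h2
      linarith only [mul_comm t |M.det|, h2]
    have h4 : A ^ 2 < (t * M.det) ^ 2 := by
      rw [sq_lt_sq, abs_mul, abs_of_pos ht]
      exact h3
    nlinarith only [h4]
  · intro h
    have h4 : A ^ 2 < (t * M.det) ^ 2 := by nlinarith only [h]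
    have h1 : M.det ≠ 0 := by
      intro h0
      rw [h0, mul_zero] at h4
      nlinarith only [sq_nonneg A, h4]
    refine ⟨h1, ?_⟩
    rw [sq_lt_sq, abs_mul, abs_of_pos ht] at h4
    rw [abs_mul, abs_inv, inv_mul_lt_iff₀ (abs_pos.2 h1)]
    linarith [mul_comm t |M.det|]

theorem continuous_ham : Continuous (fun a : Λ → ℝ => ham Λ a) := by
  unfold ham
  refine continuous_matrix fun i j => ?_
  by_cases h : i = j
  · simp only [h, if_true, Matrix.of_apply]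
    fun_prop
  · simp only [h, if_false, Matrix.of_apply]
    fun_prop

theorem continuous_qf (i j : Λ) (t : ℝ) :
    Continuous (fun p : (Λ → ℝ) × ℝ => qf Λ i j t p.1 p.2) := by
  unfold qf
  have h1 : Continuous (fun p : (Λ → ℝ) × ℝ => p.2 • (1 : Matrix Λ Λ ℝ) - ham Λ p.1) :=
    (continuous_snd.smul continuous_const).sub (continuous_ham.comp continuous_fst)
  exact ((h1.matrix_adjugate.matrix_elem i j).pow 2).sub
    (continuous_const.mul (h1.matrix_det.pow 2))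

/-- the polynomial in the energy -/
def qp (M : Matrix Λ Λ ℝ) (i j : Λ) (t : ℝ) : ℝ[X] :=
  (M.charmatrix.adjugate i j) ^ 2 - C (t ^ 2) * M.charpoly ^ 2

theorem eval_qp (a : Λ → ℝ) (i j : Λ) (t E : ℝ) :
    (qp (ham Λ a) i j t).eval E = qf Λ i j t a E := by
  have h1 : (ham Λ a).charmatrix.map (evalRingHom E) = E • (1 : Matrix Λ Λ ℝ) - ham Λ a := by
    ext u v
    by_cases h : u = v
    · subst h
      simp [Matrix.charmatrix_apply_eq]
    · simp [Matrix.charmatrix_apply_ne _ _ _ h, Matrix.one_apply_ne h]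
  have h2 : ((ham Λ a).charmatrix.adjugate i j).eval E =
      (E • (1 : Matrix Λ Λ ℝ) - ham Λ a).adjugate i j := by
    rw [← h1, ← RingHom.mapMatrix_apply, ← RingHom.map_adjugate]
    rfl
  have h3 : (ham Λ a).charpoly.eval E = (E • (1 : Matrix Λ Λ ℝ) - ham Λ a).det := by
    rw [← h1, ← RingHom.mapMatrix_apply, ← RingHom.map_det]
    rfl
  unfold qp qf
  rw [eval_sub, eval_mul, eval_pow, eval_pow, eval_C, h2, h3]

theorem natDegree_adj (M : Matrix Λ Λ ℝ) (i j : Λ) :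
    (M.charmatrix.adjugate i j).natDegree ≤ Λ.card ∧
      (M.charmatrix.adjugate i j).coeff Λ.card = 0 := by
  have h : M.charmatrix.adjugate i j =
      ((X : ℝ[X]) • ((1 : Matrix Λ Λ ℝ).updateRow j 0).map C +
        ((-M).updateRow j (Pi.single i 1)).map C).det := by
    rw [Matrix.adjugate_apply]
    congr 1
    ext u v
    by_cases h : u = j
    · subst h
      by_cases hv : v = i
      · subst hv; simp
      · simp [hv]
    · rw [Matrix.updateRow_ne h, Matrix.add_apply, Matrix.smul_apply, Matrix.map_apply,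
        Matrix.map_apply, Matrix.updateRow_ne h, Matrix.updateRow_ne h]
      by_cases huv : u = v
      · subst huv
        simp [Matrix.charmatrix_apply_eq, sub_eq_add_neg]
      · simp [Matrix.charmatrix_apply_ne _ _ _ huv, Matrix.one_apply_ne huv]
  have hc : Fintype.card Λ = Λ.card := Fintype.card_coe Λ
  rw [h]
  constructor
  · have := natDegree_det_X_add_C_le ((1 : Matrix Λ Λ ℝ).updateRow j 0)
      ((-M).updateRow j (Pi.single i 1))
    rwa [hc] at this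
  · have := coeff_det_X_add_C_card ((1 : Matrix Λ Λ ℝ).updateRow j 0)
      ((-M).updateRow j (Pi.single i 1))
    rw [hc] at this
    rw [this]
    apply Matrix.det_eq_zero_of_row_eq_zero j
    intro v
    simp

theorem natDegree_qp (M : Matrix Λ Λ ℝ) (i j : Λ) (t : ℝ) :
    (qp M i j t).natDegree ≤ 2 * Λ.card := by
  obtain ⟨h1, -⟩ := natDegree_adj M i j
  have h2 : M.charpoly.natDegree = Λ.card := by
    rw [Matrix.charpoly_natDegree_eq_dim, Fintype.card_coe]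
  unfold qp
  refine (natDegree_sub_le _ _).trans (max_le ?_ ?_)
  · refine natDegree_pow_le.trans ?_
    omega
  · refine (natDegree_C_mul_le _ _).trans (natDegree_pow_le.trans ?_)
    rw [h2]

theorem qp_ne_zero (M : Matrix Λ Λ ℝ) (i j : Λ) {t : ℝ} (ht : t ≠ 0) : qp M i j t ≠ 0 := by
  obtain ⟨h1, h1'⟩ := natDegree_adj M i j
  have h2 : M.charpoly.natDegree = Λ.card := by
    rw [Matrix.charpoly_natDegree_eq_dim, Fintype.card_coe]
  have h3 : M.charpoly.coeff Λ.card = 1 := by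
    rw [← h2]; exact M.charpoly_monic.coeff_natDegree
  intro h0
  have h4 : (qp M i j t).coeff (2 * Λ.card) = 0 := by rw [h0, coeff_zero]
  unfold qp at h4
  rw [coeff_sub, coeff_C_mul, coeff_pow_of_natDegree_le h1, coeff_pow_of_natDegree_le h2.le,
    h1', h3] at h4
  simp at h4
  exact ht h4

theorem exists_roots (i j : Λ) {t : ℝ} (ht : t ≠ 0) (a : Λ → ℝ) :
    ∃ s : Finset ℝ, s.card ≤ 2 * Λ.card ∧ ∀ E, qf Λ i j t a E = 0 → E ∈ s := by
  refine ⟨(qp (ham Λ a) i j t).roots.toFinset, ?_, ?_⟩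
  · refine (Multiset.toFinset_card_le _).trans ?_
    exact (card_roots' _).trans (natDegree_qp _ _ _ _)
  · intro E hE
    rw [Multiset.mem_toFinset, mem_roots (qp_ne_zero _ i j ht), IsRoot.def, eval_qp, hE]

end Poly

/-! ### probability -/

section Prob

variable {Ω : Type*} [MeasurableSpace Ω] {P : Measure Ω} [IsProbabilityMeasure P]
  {V : Site d → Ω → ℝ} {Λ : Finset (Site d)}

theorem isClosed_qf (i j : Λ) (t E : ℝ) : IsClosed {a : Λ → ℝ | 0 ≤ qf Λ i j t a E} :=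
  isClosed_slice (continuous_qf i j t) E

theorem measurableSet_both {Λ₁ Λ₂ : Finset (Site d)} (i j : Λ₁) (k l : Λ₂) (t E₀ : ℝ) :
    MeasurableSet {p : (Λ₁ → ℝ) × (Λ₂ → ℝ) |
      ∃ E, E₀ ≤ |E| ∧ 0 ≤ qf Λ₁ i j t p.1 E ∧ 0 ≤ qf Λ₂ k l t p.2 E} :=
  measurableSet_exists₂ (continuous_qf i j t) (continuous_qf k l t) E₀

theorem prob_pair (hm : ∀ z, Measurable (V z)) (hind : iIndepFun V P) {Λ₁ Λ₂ : Finset (Site d)}
    (hdis : Disjoint Λ₁ Λ₂) {x u y v : Site d} (hx : x ∈ Λ₁) (hu : u ∈ Λ₁) (hy : y ∈ Λ₂)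
    (hv : v ∈ Λ₂) {t E₀ : ℝ} (ht : 0 < t) (hE₀ : 0 ≤ E₀) {K : ℝ≥0∞}
    (hK₁ : ∀ E, E₀ ≤ |E| → P {ω | ¬ Good (fun z => V z ω) Λ₁ E x u t} ≤ K)
    (hK₂ : ∀ E, E₀ ≤ |E| → P {ω | ¬ Good (fun z => V z ω) Λ₂ E y v t} ≤ K) :
    P {ω | ∃ E, E₀ ≤ |E| ∧ ¬ Good (fun z => V z ω) Λ₁ E x u t ∧
      ¬ Good (fun z => V z ω) Λ₂ E y v t} ≤
      ((2 + 2 * Λ₁.card + 2 * Λ₂.card : ℕ) : ℝ≥0∞) * K := by
  have hfm : Measurable (fun (ω : Ω) (z : Λ₁) => V z ω) := measurable_pi_lambda _ fun z => hm z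
  have hgm : Measurable (fun (ω : Ω) (z : Λ₂) => V z ω) := measurable_pi_lambda _ fun z => hm z
  have hfg := hind.indepFun_finset Λ₁ Λ₂ hdis hm
  have hmap := (indepFun_iff_map_prod_eq_prod_map_map hfm.aemeasurable hgm.aemeasurable).1 hfg
  have i₁ : IsProbabilityMeasure (P.map (fun (ω : Ω) (z : Λ₁) => V z ω)) :=
    Measure.isProbabilityMeasure_map hfm.aemeasurable
  have i₂ : IsProbabilityMeasure (P.map (fun (ω : Ω) (z : Λ₂) => V z ω)) :=
    Measure.isProbabilityMeasure_map hgm.aemeasurable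
  have k₁ : ∀ E, E₀ ≤ |E| →
      (P.map (fun (ω : Ω) (z : Λ₁) => V z ω)) {a | 0 ≤ qf Λ₁ ⟨x, hx⟩ ⟨u, hu⟩ t a E} ≤ K := by
    intro E hE
    rw [Measure.map_apply hfm (isClosed_qf _ _ t E).measurableSet]
    refine (measure_mono ?_).trans (hK₁ E hE)
    intro ω hω hg
    exact absurd ((good_iff hx hu ht).1 hg) (not_lt.2 hω)
  have k₂ : ∀ E, E₀ ≤ |E| →
      (P.map (fun (ω : Ω) (z : Λ₂) => V z ω)) {a | 0 ≤ qf Λ₂ ⟨y, hy⟩ ⟨v, hv⟩ t a E} ≤ K := by
    intro E hE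
    rw [Measure.map_apply hgm (isClosed_qf _ _ t E).measurableSet]
    refine (measure_mono ?_).trans (hK₂ E hE)
    intro ω hω hg
    exact absurd ((good_iff hy hv ht).1 hg) (not_lt.2 hω)
  have hmain := prob_both (q₁ := qf Λ₁ ⟨x, hx⟩ ⟨u, hu⟩ t) (q₂ := qf Λ₂ ⟨y, hy⟩ ⟨v, hv⟩ t)
    (continuous_qf _ _ t) (continuous_qf _ _ t) hE₀
    (exists_roots ⟨x, hx⟩ ⟨u, hu⟩ ht.ne') (exists_roots ⟨y, hy⟩ ⟨v, hv⟩ ht.ne') k₁ k₂
  rw [← hmap, Measure.map_apply (hfm.prodMk hgm) (measurableSet_both _ _ _ _ t E₀)] at hmain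
  refine (measure_mono ?_).trans hmain
  rintro ω ⟨E, e1, e2, e3⟩
  refine ⟨E, e1, ?_, ?_⟩
  · by_contra hc
    exact e2 ((good_iff hx hu ht).2 (not_le.1 hc))
  · by_contra hc
    exact e3 ((good_iff hy hv ht).2 (not_le.1 hc))

/-- the bad event at scale `L` -/
def badEv (V : Site d → Ω → ℝ) (E₀ μ : ℝ) (L : ℕ) : Set Ω :=
  {ω | ∃ n ≤ L ^ 2 + L, ∃ x ∈ box (0 : Site d) (L ^ 2), ∃ y ∈ box (0 : Site d) (L ^ 2),
    x ∈ box (0 : Site d) n ∧ y ∈ box (0 : Site d) n ∧ 2 * L < sd x y ∧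
      ∃ E : ℝ, E₀ ≤ |E| ∧ ¬ GoodBox (fun z => V z ω) n L x E μ ∧
        ¬ GoodBox (fun z => V z ω) n L y E μ}

theorem prob_badEv (hm : ∀ z, Measurable (V z)) (hind : iIndepFun V P) {E₀ C μ : ℝ}
    (hE₀ : 0 < E₀) (h : FixedDecay P V E₀ C μ) (L : ℕ) :
    P (badEv V E₀ μ L) ≤ ENNReal.ofReal
      (6 * 2 ^ (5 * d) * |C| * ((L + 1 : ℕ) ^ (7 * d + 2) * Real.exp (-μ * L))) := by
  classical
  set K : ℝ≥0∞ := ENNReal.ofReal (C * Real.exp (-μ * L)) with hK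
  set A : ℕ → Site d → Site d → Site d → Site d → Set Ω := fun n x y u v =>
    {ω | (x ∈ box (0 : Site d) n ∧ y ∈ box (0 : Site d) n ∧ 2 * L < sd x y ∧
      u ∈ box x L ∩ box 0 n ∧ sd x u = L ∧ v ∈ box y L ∩ box 0 n ∧ sd y v = L) ∧
      ∃ E, E₀ ≤ |E| ∧ ¬ Good (fun z => V z ω) (box x L ∩ box 0 n) E x u (Real.exp (-μ * L)) ∧
        ¬ Good (fun z => V z ω) (box y L ∩ box 0 n) E y v (Real.exp (-μ * L))} with hA
  have hsub : badEv V E₀ μ L ⊆ ⋃ n ∈ Finset.range (L ^ 2 + L + 1),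
      ⋃ x ∈ box (0 : Site d) (L ^ 2), ⋃ y ∈ box (0 : Site d) (L ^ 2),
        ⋃ u ∈ box x L, ⋃ v ∈ box y L, A n x y u v := by
    rintro ω ⟨n, hn, x, hx, y, hy, hxn, hyn, hxy, E, hE, hb1, hb2⟩
    unfold GoodBox at hb1 hb2
    push Not at hb1 hb2
    obtain ⟨u, hu, hu', hu''⟩ := hb1
    obtain ⟨v, hv, hv', hv''⟩ := hb2
    simp only [Set.mem_iUnion, exists_prop]
    refine ⟨n, Finset.mem_range.2 (by omega), x, hx, y, hy, u, (Finset.mem_inter.1 hu).1, v,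
      (Finset.mem_inter.1 hv).1, ⟨hxn, hyn, hxy, hu, hu', hv, hv'⟩, E, hE, hu'', hv''⟩
  have hcard : ∀ (x : Site d) (n : ℕ), (box x L ∩ box 0 n).card ≤ (2 * L + 1) ^ d := by
    intro x n
    rw [← card_box x L]
    exact Finset.card_le_card Finset.inter_subset_left
  have hAb : ∀ n x y u v, P (A n x y u v) ≤ ((2 + 4 * (2 * L + 1) ^ d : ℕ) : ℝ≥0∞) * K := by
    intro n x y u v
    by_cases hc : (x ∈ box (0 : Site d) n ∧ y ∈ box (0 : Site d) n ∧ 2 * L < sd x y ∧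
      u ∈ box x L ∩ box 0 n ∧ sd x u = L ∧ v ∈ box y L ∩ box 0 n ∧ sd y v = L)
    · obtain ⟨hxn, hyn, hxy, hu, hu', hv, hv'⟩ := hc
      have hx1 : x ∈ box x L ∩ box 0 n :=
        Finset.mem_inter.2 ⟨mem_box.2 (by rw [sd_self]; omega), hxn⟩
      have hy1 : y ∈ box y L ∩ box 0 n :=
        Finset.mem_inter.2 ⟨mem_box.2 (by rw [sd_self]; omega), hyn⟩
      have hdis : Disjoint (box x L ∩ box 0 n) (box y L ∩ box 0 n) := by
        rw [Finset.disjoint_left]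
        intro z hz1 hz2
        have z1 := mem_box.1 (Finset.mem_inter.1 hz1).1
        have z2 := mem_box.1 (Finset.mem_inter.1 hz2).1
        have z3 := sd_triangle x z y
        rw [sd_comm z y] at z3
        omega
      have b1 : ∀ E, E₀ ≤ |E| → P {ω | ¬ Good (fun z => V z ω) (box x L ∩ box 0 n) E x u
          (Real.exp (-μ * L))} ≤ K := by
        intro E hE
        have := h (box x L ∩ box 0 n) x u E hx1 hu hE
        rw [hu'] at this
        exact this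
      have b2 : ∀ E, E₀ ≤ |E| → P {ω | ¬ Good (fun z => V z ω) (box y L ∩ box 0 n) E y v
          (Real.exp (-μ * L))} ≤ K := by
        intro E hE
        have := h (box y L ∩ box 0 n) y v E hy1 hv hE
        rw [hv'] at this
        exact this
      have := prob_pair hm hind hdis hx1 hu hy1 hv (Real.exp_pos (-μ * L)) hE₀.le b1 b2
      refine (measure_mono ?_).trans (this.trans ?_)
      · intro ω hω
        exact hω.2
      · refine mul_le_mul' (Nat.cast_le.2 ?_) le_rfl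
        have c1 := hcard x n
        have c2 := hcard y n
        omega
    · have : A n x y u v = ∅ := by
        ext ω
        simp only [hA, Set.mem_ofPred_eq, Set.mem_empty_iff_false, iff_false]
        intro h'
        exact hc h'.1
      rw [this, measure_empty]
      exact bot_le
  have e1 : P (badEv V E₀ μ L) ≤ ((L ^ 2 + L + 1 : ℕ) : ℝ≥0∞) * (((2 * L ^ 2 + 1) ^ d : ℕ) *
      (((2 * L ^ 2 + 1) ^ d : ℕ) * (((2 * L + 1) ^ d : ℕ) * (((2 * L + 1) ^ d : ℕ) *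
        (((2 + 4 * (2 * L + 1) ^ d : ℕ) : ℝ≥0∞) * K))))) := by
    refine (measure_mono hsub).trans ?_
    refine (measure_biUnion_finset_le _ _).trans ?_
    refine (Finset.sum_le_card_nsmul _ _ _ fun n _ => ?_).trans_eq
      (by rw [Finset.card_range, nsmul_eq_mul])
    refine (measure_biUnion_finset_le _ _).trans ?_
    refine (Finset.sum_le_card_nsmul _ _ _ fun x _ => ?_).trans_eq
      (by rw [card_box, nsmul_eq_mul])
    refine (measure_biUnion_finset_le _ _).trans ?_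
    refine (Finset.sum_le_card_nsmul _ _ _ fun y _ => ?_).trans_eq
      (by rw [card_box, nsmul_eq_mul])
    refine (measure_biUnion_finset_le _ _).trans ?_
    refine (Finset.sum_le_card_nsmul _ _ _ fun u _ => ?_).trans_eq
      (by rw [card_box, nsmul_eq_mul])
    refine (measure_biUnion_finset_le _ _).trans ?_
    exact (Finset.sum_le_card_nsmul _ _ _ fun v _ => hAb n x y u v).trans_eq
      (by rw [card_box, nsmul_eq_mul])
  refine e1.trans ?_
  have hK' : K ≤ ENNReal.ofReal (|C| * Real.exp (-μ * L)) := by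
    apply ENNReal.ofReal_le_ofReal
    exact mul_le_mul_of_nonneg_right (le_abs_self C) (Real.exp_pos _).le
  have e2 : ((L ^ 2 + L + 1 : ℕ) : ℝ≥0∞) * (((2 * L ^ 2 + 1) ^ d : ℕ) *
      (((2 * L ^ 2 + 1) ^ d : ℕ) * (((2 * L + 1) ^ d : ℕ) * (((2 * L + 1) ^ d : ℕ) *
        (((2 + 4 * (2 * L + 1) ^ d : ℕ) : ℝ≥0∞) * K))))) ≤
      ((6 * 2 ^ (5 * d) * (L + 1) ^ (7 * d + 2) : ℕ) : ℝ≥0∞) *
        ENNReal.ofReal (|C| * Real.exp (-μ * L)) := by
    have hnat : (L ^ 2 + L + 1) * ((2 * L ^ 2 + 1) ^ d * ((2 * L ^ 2 + 1) ^ d *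
        ((2 * L + 1) ^ d * ((2 * L + 1) ^ d * (2 + 4 * (2 * L + 1) ^ d))))) ≤
        6 * 2 ^ (5 * d) * (L + 1) ^ (7 * d + 2) := by
      have n1 : L ^ 2 + L + 1 ≤ (L + 1) ^ 2 := by nlinarith only
      have n2 : (2 * L ^ 2 + 1) ^ d ≤ 2 ^ d * (L + 1) ^ (2 * d) := by
        rw [pow_mul, ← mul_pow]
        exact Nat.pow_le_pow_left (by nlinarith) d
      have n3 : (2 * L + 1) ^ d ≤ 2 ^ d * (L + 1) ^ d := by
        rw [← mul_pow]
        exact Nat.pow_le_pow_left (by nlinarith only) d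
      have n4 : 2 + 4 * (2 * L + 1) ^ d ≤ 6 * (2 ^ d * (L + 1) ^ d) := by
        have : 1 ≤ (2 * L + 1) ^ d := Nat.one_le_pow _ _ (by omega)
        omega
      calc _ ≤ (L + 1) ^ 2 * ((2 ^ d * (L + 1) ^ (2 * d)) * ((2 ^ d * (L + 1) ^ (2 * d)) *
          ((2 ^ d * (L + 1) ^ d) * ((2 ^ d * (L + 1) ^ d) * (6 * (2 ^ d * (L + 1) ^ d)))))) := by
            gcongr
        _ = _ := by ring
    calc _ = (((L ^ 2 + L + 1) * ((2 * L ^ 2 + 1) ^ d * ((2 * L ^ 2 + 1) ^ d *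
        ((2 * L + 1) ^ d * ((2 * L + 1) ^ d * (2 + 4 * (2 * L + 1) ^ d))))) : ℕ) : ℝ≥0∞) * K := by
          push_cast; ring
      _ ≤ _ := by gcongr
  refine e2.trans (le_of_eq ?_)
  rw [← ENNReal.ofReal_natCast, ← ENNReal.ofReal_mul (by positivity)]
  congr 1
  push_cast
  ring

/-- Fixed-energy decay in probability implies the two-box property. -/
theorem twoBox_of_fixedDecay (hm : ∀ z, Measurable (V z)) (hind : iIndepFun V P)
    {E₀ C μ : ℝ} (hE₀ : 0 < E₀) (hμ : 0 < μ) (h : FixedDecay P V E₀ C μ) :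
    ∀ᵐ ω ∂P, ∃ L₀, TwoBox (fun z => V z ω) E₀ μ L₀ := by
  have hsum : Summable (fun L : ℕ =>
      6 * 2 ^ (5 * d) * |C| * ((L + 1 : ℕ) ^ (7 * d + 2) * Real.exp (-μ * L))) := by
    apply Summable.mul_left
    have h1 := (summable_nat_add_iff 1).2 (Real.summable_pow_mul_exp_neg_nat_mul (7 * d + 2) hμ)
    have h2 := h1.mul_left (Real.exp μ)
    refine h2.congr fun L => ?_
    have : Real.exp (-μ * L) = Real.exp μ * Real.exp (-μ * ((L + 1 : ℕ) : ℝ)) := by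
      rw [← Real.exp_add]
      congr 1
      push_cast
      ring
    rw [this]
    ring
  have hfin : (∑' L, P (badEv V E₀ μ L)) ≠ ∞ := by
    refine ne_top_of_le_ne_top ?_ (ENNReal.tsum_le_tsum fun L => prob_badEv hm hind hE₀ h L)
    rw [← ENNReal.ofReal_tsum_of_nonneg (fun L => by positivity) hsum]
    exact ENNReal.ofReal_ne_top
  filter_upwards [ae_eventually_notMem hfin] with ω hω
  obtain ⟨L₀, hL₀⟩ := Filter.eventually_atTop.1 hω
  refine ⟨L₀, ?_⟩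
  intro L hL n x hx y hy hxn hyn hxy E hE
  have hnot := hL₀ L hL
  by_contra hcon
  push Not at hcon
  apply hnot
  have hfull : ∀ z ∈ box (0 : Site d) (L ^ 2), box z L ⊆ box (0 : Site d) (L ^ 2 + L) := by
    intro z hz w hw
    rw [mem_box] at *
    have := sd_triangle 0 z w
    omega
  rcases le_total n (L ^ 2 + L) with hn | hn
  · exact ⟨n, hn, x, hx, y, hy, hxn, hyn, hxy, E, hE, hcon.1, hcon.2⟩
  · have hint : ∀ z ∈ box (0 : Site d) (L ^ 2),
        box z L ∩ box 0 n = box z L ∩ box 0 (L ^ 2 + L) := by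
      intro z hz
      rw [Finset.inter_eq_left.2 (hfull z hz),
        Finset.inter_eq_left.2 ((hfull z hz).trans (box_mono 0 hn))]
    refine ⟨L ^ 2 + L, le_rfl, x, hx, y, hy, box_mono 0 (by omega) hx, box_mono 0 (by omega) hy,
      hxy, E, hE, ?_, ?_⟩
    · have := hcon.1
      unfold GoodBox at *
      rwa [hint x hx] at this
    · have := hcon.2
      unfold GoodBox at *
      rwa [hint y hy] at this

end Prob

end Pool.Agent.Loc
end
end -- Pool.Agent.Helper48_Loc.TwoBox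

section -- Pool.Agent.Helper48_Loc.Assembly

/-!
# Assembly: the two-box property for the Gaussian Anderson model, for all `σ ≠ 0`
-/

set_option autoImplicit false
set_option linter.unusedSectionVars false

open MeasureTheory ProbabilityTheory Function Filter

open scoped ENNReal BigOperators NNReal Topology

noncomputable section

namespace Pool.Agent.Loc

open Pool.Agent.Anderson

variable {d : ℕ}

/-- fixed energy decay for all `σ ≠ 0`, above the threshold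
`2d + G_d σ² + C |σ|^(2 + 1/(24 d))` -/
theorem fixedDecay_gauss (hd : 3 ≤ d) :
    ∃ C : ℝ, 0 < C ∧ ∀ σ : ℝ, σ ≠ 0 → ∃ K m : ℝ, 0 < m ∧
      ∀ {Ω : Type*} [MeasurableSpace Ω] (P : Measure Ω) [IsProbabilityMeasure P]
        (ξ : Site d → Ω → ℝ), (∀ y, Measurable (ξ y)) →
        (∀ y, P.map (ξ y) = gaussianReal 0 1) → iIndepFun ξ P →
        FixedDecay P (fun y ω => σ * ξ y ω)
          (2 * d + watson d * σ ^ 2 + C * |σ| ^ (2 + 1 / (24 * d : ℝ))) K m := by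
  have hd0 : (0:ℝ) < d := by
    have : 0 < d := by omega
    exact_mod_cast this
  have hd3 : (3:ℝ) ≤ d := by exact_mod_cast hd
  obtain ⟨C, hC, h⟩ := init_all (d := d) (by omega) (watson_pos hd)
    (C₅ := 1024 * 5 ^ d + 128) (η := 1 / (2 * d : ℝ)) (by positivity) (by positivity)
    (by
      rw [div_le_one (by positivity)]
      linarith)
    (fun Λ a x ha => gr_zero_diag hd Λ ha x)
    (fun Λ a x ha ha1 => gr_zero_sq hd Λ ha ha1 x)
  have hexp : 1 / (2 * d : ℝ) / 12 = 1 / (24 * d : ℝ) := by field_simp; norm_num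
  rw [hexp] at h
  refine ⟨C, hC, fun σ hσ => ?_⟩
  obtain ⟨L, ε, hε, hinit, hnum⟩ := h σ hσ
  refine ⟨2 * √(6 * (1 / |σ|)) * Real.exp 1, 2 / (3 * (L + 2)), by positivity, ?_⟩
  intro Ω _ P _ ξ hm hlaw hind
  refine fixedDecay_of_init (ν := gl σ) (bddDens_gl hσ) (fun z => (hm z).const_mul σ) ?_ ?_ hε
    hinit hnum
  · intro z
    unfold gl γ1
    rw [← hlaw z, Measure.map_map (by fun_prop) (hm z)]
    rfl
  · exact hind.comp (fun _ t => σ * t) fun _ => by fun_prop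

end Pool.Agent.Loc
end
end -- Pool.Agent.Helper48_Loc.Assembly
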