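import Pool.Agent.Helper12_MEB.B007
import Pool.Agent.Helper12_MEB.B008
import Pool.Agent.Helper12_MEB.B013

/-!
# Merged copies (generated) of the modules

* `Pool.Agent.Helper32_BED.Heat`
* `Pool.Agent.Helper15_BED.Minmax`
* `Pool.Agent.Helper32_BED.Nash`
* `Pool.Agent.Helper32_BED.Seq`
* `Pool.Agent.Helper55_BED.GC`
* `Pool.Agent.Helper55_BED.GCFinal`
* `Pool.Agent.Helper61_BED.Orth`
* `Pool.Agent.Helper61_BED.Trans`
* `Pool.Agent.Helper73_BED.Edge`
* `Pool.Agent.Helper73_BED.Tent`
* `Pool.Agent.Helper73_BED.Count`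
* `Pool.Agent.Helper73_BED.LawT`
* `Pool.Agent.Helper73_BED.StepD`
* `Pool.Agent.Helper54_BED.All`
-/

set_option autoImplicit false

section -- Pool.Agent.Helper32_BED.Heat

/-!
# BED: module HEAT
-/

set_option autoImplicit false
set_option linter.unusedSectionVars false

open scoped BigOperators

noncomputable section

namespace Pool.Agent.BED.H32

open Matrix Pool.Agent.BED

variable {d M : ℕ} [NeZero M]

theorem sum_shift (F : Tor d M → ℝ) (e : Tor d M) : ∑ x, F (x + e) = ∑ x, F x :=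
  Equiv.sum_comp (Equiv.addRight e) F

theorem sum_shift_sub (F : Tor d M → ℝ) (e : Tor d M) : ∑ x, F (x - e) = ∑ x, F x := by
  have := sum_shift F (-e)
  simpa [sub_eq_add_neg] using this

theorem TM_mulVec (z : ℝ) (V f : Tor d M → ℝ) (x : Tor d M) :
    (TM z V *ᵥ f) x = f x - 1 / (8 * d) * (AM z V *ᵥ f) x := by
  unfold TM
  rw [Matrix.sub_mulVec, Matrix.one_mulVec, Matrix.smul_mulVec, Pi.sub_apply, Pi.smul_apply,
    smul_eq_mul]

theorem TM_symm (z : ℝ) (V : Tor d M → ℝ) (x y : Tor d M) : TM z V x y = TM z V y x := by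
  unfold TM
  rw [Matrix.sub_apply, Matrix.sub_apply, Matrix.smul_apply, Matrix.smul_apply, AM_symm z V x y]
  congr 1
  by_cases h : x = y
  · rw [h]
  · rw [Matrix.one_apply_ne h, Matrix.one_apply_ne (Ne.symm h)]

theorem TM_nonneg (hd : 1 ≤ d) {z : ℝ} {V : Tor d M → ℝ} (hz : z ≤ 2 * d + 1)
    (hV : ∀ x, -1 ≤ V x) (x y : Tor d M) : 0 ≤ TM z V x y := by
  have hd1 : (1 : ℝ) ≤ d := by exact_mod_cast hd
  have hadj : 0 ≤ adj d M x y := adj_nonneg x y
  have hc : 0 ≤ 1 / (8 * (d : ℝ)) := by positivity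
  unfold TM AM
  rw [Matrix.sub_apply, Matrix.smul_apply, Matrix.sub_apply, smul_eq_mul]
  by_cases h : x = y
  · subst h
    rw [Matrix.one_apply_eq, Matrix.diagonal_apply_eq]
    have h1 : 1 / (8 * (d : ℝ)) * (z - V x) ≤ 1 := by
      rw [one_div_mul_eq_div, div_le_one (by positivity)]
      have := hV x
      linarith only [hz, hd1, this]
    have h2 := mul_nonneg hc hadj
    rw [mul_sub]
    linarith
  · rw [Matrix.one_apply_ne h, Matrix.diagonal_apply_ne _ h]
    have h2 := mul_nonneg hc hadj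
    rw [mul_sub]
    linarith

/-- the upper bound for the quadratic form -/
theorem AM_form_le (hd : 1 ≤ d) {z : ℝ} {V : Tor d M → ℝ} (hz : z ≤ 2 * d + 1)
    (hV : ∀ x, -1 ≤ V x) (f : Tor d M → ℝ) :
    ∑ x, f x * (AM z V *ᵥ f) x ≤ 8 * d * ∑ x, f x ^ 2 := by
  have hd1 : (1 : ℝ) ≤ d := by exact_mod_cast hd
  have h0 : 0 ≤ ∑ x, f x ^ 2 := Finset.sum_nonneg fun x _ => sq_nonneg _
  have h1 : ∑ x, f x * (AM z V *ᵥ f) x =
      ∑ x, (z - V x) * f x ^ 2 - ∑ x, ∑ i : Fin d, (f x * f (x + ev i) + f x * f (x - ev i)) := by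
    rw [← Finset.sum_sub_distrib]
    refine Finset.sum_congr rfl fun x _ => ?_
    rw [AM_mulVec, mul_sub, Finset.mul_sum]
    congr 1
    · ring
    · refine Finset.sum_congr rfl fun i _ => ?_
      ring
  have h2 : ∑ x, (z - V x) * f x ^ 2 ≤ (2 * d + 2) * ∑ x, f x ^ 2 := by
    rw [Finset.mul_sum]
    refine Finset.sum_le_sum fun x _ => ?_
    refine mul_le_mul_of_nonneg_right ?_ (sq_nonneg _)
    have := hV x
    linarith only [hz, this]
  have h3 : - ∑ x, ∑ i : Fin d, (f x * f (x + ev i) + f x * f (x - ev i)) ≤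
      2 * d * ∑ x, f x ^ 2 := by
    rw [← Finset.sum_neg_distrib]
    have e1 : ∀ x ∈ (Finset.univ : Finset (Tor d M)),
        - ∑ i : Fin d, (f x * f (x + ev i) + f x * f (x - ev i)) ≤
        ∑ i : Fin d, (f x ^ 2 + (f (x + ev i) ^ 2 + f (x - ev i) ^ 2) / 2) := by
      intro x _
      rw [← Finset.sum_neg_distrib]
      refine Finset.sum_le_sum fun i _ => ?_
      nlinarith only [sq_nonneg (f x + f (x + ev i)), sq_nonneg (f x + f (x - ev i))]
    refine (Finset.sum_le_sum e1).trans (le_of_eq ?_)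
    rw [Finset.sum_comm]
    have e2 : ∀ i ∈ (Finset.univ : Finset (Fin d)),
        ∑ x : Tor d M, (f x ^ 2 + (f (x + ev i) ^ 2 + f (x - ev i) ^ 2) / 2) =
          2 * ∑ x, f x ^ 2 := by
      intro i _
      rw [Finset.sum_add_distrib, ← Finset.sum_div, Finset.sum_add_distrib,
        sum_shift (fun x => f x ^ 2), sum_shift_sub (fun x => f x ^ 2)]
      ring
    rw [Finset.sum_congr rfl e2]
    simp
    ring
  rw [h1]
  have h4 : (2 * (d : ℝ) + 2) * ∑ x, f x ^ 2 + 2 * d * ∑ x, f x ^ 2 ≤ 8 * d * ∑ x, f x ^ 2 := by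
    nlinarith
  linarith

theorem TM_form (z : ℝ) (V f : Tor d M → ℝ) :
    ∑ x, f x * (TM z V *ᵥ f) x =
      ∑ x, f x ^ 2 - 1 / (8 * d) * ∑ x, f x * (AM z V *ᵥ f) x := by
  rw [Finset.mul_sum, ← Finset.sum_sub_distrib]
  refine Finset.sum_congr rfl fun x _ => ?_
  rw [TM_mulVec]
  ring

theorem TM_form_nonneg (hd : 1 ≤ d) {z : ℝ} {V : Tor d M → ℝ} (hz : z ≤ 2 * d + 1)
    (hV : ∀ x, -1 ≤ V x) (f : Tor d M → ℝ) : 0 ≤ ∑ x, f x * (TM z V *ᵥ f) x := by
  have hd1 : (1 : ℝ) ≤ d := by exact_mod_cast hd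
  rw [TM_form]
  have h := AM_form_le hd hz hV f
  have h2 : 1 / (8 * (d : ℝ)) * ∑ x, f x * (AM z V *ᵥ f) x ≤
      1 / (8 * (d : ℝ)) * (8 * d * ∑ x, f x ^ 2) :=
    mul_le_mul_of_nonneg_left h (by positivity)
  have h3 : 1 / (8 * (d : ℝ)) * (8 * d * ∑ x, f x ^ 2) = ∑ x, f x ^ 2 := by
    field_simp
  linarith

theorem TM_form_le (hd : 1 ≤ d) {z : ℝ} {V : Tor d M → ℝ} (hA : (AM z V).PosDef)
    (f : Tor d M → ℝ) : ∑ x, f x * (TM z V *ᵥ f) x ≤ ∑ x, f x ^ 2 := by
  have hd1 : (1 : ℝ) ≤ d := by exact_mod_cast hd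
  rw [TM_form]
  have h := nonneg_of_posDef hA f
  have : 0 ≤ 1 / (8 * (d : ℝ)) * ∑ x, f x * (AM z V *ᵥ f) x := mul_nonneg (by positivity) h
  linarith

/-- `T² ≤ T` -/
theorem TM_sq_le (hd : 1 ≤ d) {z : ℝ} {V : Tor d M → ℝ} (hz : z ≤ 2 * d + 1)
    (hV : ∀ x, -1 ≤ V x) (hA : (AM z V).PosDef) (f : Tor d M → ℝ) :
    ∑ x, (TM z V *ᵥ f) x ^ 2 ≤ ∑ x, f x * (TM z V *ᵥ f) x := by
  set T := TM z V with hT
  set g := T *ᵥ f with hg
  have h1 := TM_form_le hd hA g
  have h2 := TM_form_nonneg hd hz hV (f - g)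
  rw [← hT] at h1 h2
  -- `⟨f, T g⟩ = ⟨g, g⟩`
  have h3 : ∑ x, f x * (T *ᵥ g) x = ∑ x, g x ^ 2 := by
    rw [sum_mul_mulVec_comm (TM_symm z V) f g, ← hT, ← hg]
    exact Finset.sum_congr rfl fun x _ => (sq (g x)).symm
  have h4 : ∑ x, g x * (T *ᵥ f) x = ∑ x, g x ^ 2 := by
    rw [← hg]
    exact Finset.sum_congr rfl fun x _ => (sq (g x)).symm
  have h5 : ∑ x, (f - g) x * (T *ᵥ (f - g)) x =
      ∑ x, f x * g x - ∑ x, f x * (T *ᵥ g) x - ∑ x, g x * (T *ᵥ f) x + ∑ x, g x * (T *ᵥ g) x := by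
    rw [← Finset.sum_sub_distrib, ← Finset.sum_sub_distrib, ← Finset.sum_add_distrib]
    refine Finset.sum_congr rfl fun x _ => ?_
    rw [Matrix.mulVec_sub, Pi.sub_apply, Pi.sub_apply, ← hg]
    ring
  rw [h5, h3, h4] at h2
  linarith

/-- the lower bound for the quadratic form -/
theorem AM_form_ge {z : ℝ} {V : Tor d M → ℝ} (hA : (AM z V).PosDef) {b : ℝ}
    (hD : ∀ x, DD z V x ≤ b) (f : Tor d M → ℝ) :
    1 / b * ∑ x, f x ^ 2 ≤ ∑ x, f x * (AM z V *ᵥ f) x := by
  set g := DD z V with hg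
  have hg0 : ∀ x, 0 < g x := DD_pos hA
  have h := AM_doob z V g (fun x => f x / g x)
  have e : (fun y => g y * (f y / g y)) = f := by
    funext y; rw [mul_div_cancel₀ _ (hg0 y).ne']
  have e' : ∀ y, g y * (f y / g y) = f y := fun y => congrFun e y
  simp only [e'] at h
  rw [h, hg, AM_DD hA, ← hg]
  have h1 : 0 ≤ ∑ x, ∑ i : Fin d, g x * g (x + ev i) *
      (f (x + ev i) / g (x + ev i) - f x / g x) ^ 2 := by
    refine Finset.sum_nonneg fun x _ => Finset.sum_nonneg fun i _ => ?_
    have := (hg0 x).le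
    have := (hg0 (x + ev i)).le
    positivity
  have h2 : 1 / b * ∑ x, f x ^ 2 ≤ ∑ x, g x * (1 : Tor d M → ℝ) x * (f x / g x) ^ 2 := by
    rw [Finset.mul_sum]
    refine Finset.sum_le_sum fun x _ => ?_
    rw [Pi.one_apply, mul_one]
    have hx := hg0 x
    have e3 : g x * (f x / g x) ^ 2 = 1 / g x * f x ^ 2 := by
      field_simp
    rw [e3]
    refine mul_le_mul_of_nonneg_right ?_ (sq_nonneg _)
    exact one_div_le_one_div_of_le hx (hD x)
  linarith

theorem TM_contr (hd : 1 ≤ d) {z : ℝ} {V : Tor d M → ℝ} (hz : z ≤ 2 * d + 1)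
    (hV : ∀ x, -1 ≤ V x) (hA : (AM z V).PosDef) {a : ℝ} (ha : 0 < a)
    (hD : ∀ x, DD z V x ≤ 3 / 2 * a) (f : Tor d M → ℝ) :
    ∑ x, ((TM z V *ᵥ f) x) ^ 2 ≤ (1 - 1 / (12 * d * a)) * ∑ x, f x ^ 2 := by
  have hd1 : (1 : ℝ) ≤ d := by exact_mod_cast hd
  refine (TM_sq_le hd hz hV hA f).trans ?_
  rw [TM_form]
  have h := AM_form_ge hA hD f
  have h2 : 1 / (8 * (d : ℝ)) * (1 / (3 / 2 * a) * ∑ x, f x ^ 2) ≤
      1 / (8 * (d : ℝ)) * ∑ x, f x * (AM z V *ᵥ f) x :=
    mul_le_mul_of_nonneg_left h (by positivity)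
  have h3 : 1 / (8 * (d : ℝ)) * (1 / (3 / 2 * a) * ∑ x, f x ^ 2) =
      1 / (12 * d * a) * ∑ x, f x ^ 2 := by
    field_simp
    ring
  rw [h3] at h2
  linarith

/-- the row of the power -/
theorem row_succ (z : ℝ) (V : Tor d M → ℝ) (x : Tor d M) (n : ℕ) (y : Tor d M) :
    (TM z V ^ (n + 1)) x y = (TM z V *ᵥ fun w => (TM z V ^ n) x w) y := by
  rw [pow_succ, Matrix.mul_apply, Matrix.mulVec, dotProduct]
  refine Finset.sum_congr rfl fun w _ => ?_
  rw [TM_symm z V w y, mul_comm]

theorem row_nonneg (hd : 1 ≤ d) {z : ℝ} {V : Tor d M → ℝ} (hz : z ≤ 2 * d + 1)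
    (hV : ∀ x, -1 ≤ V x) (x : Tor d M) (n : ℕ) (y : Tor d M) : 0 ≤ (TM z V ^ n) x y := by
  induction n generalizing y with
  | zero =>
      rw [pow_zero, Matrix.one_apply]
      split_ifs <;> norm_num
  | succ n ih =>
      rw [pow_succ, Matrix.mul_apply]
      exact Finset.sum_nonneg fun w _ => mul_nonneg (ih w) (TM_nonneg hd hz hV w y)

theorem row_sum (hd : 1 ≤ d) {z : ℝ} {V : Tor d M → ℝ} (hz : z ≤ 2 * d + 1)
    (hV : ∀ x, -1 ≤ V x) (hA : (AM z V).PosDef) (x : Tor d M) (n : ℕ) :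
    ∑ y, (TM z V ^ n) x y * DD z V y ≤ DD z V x := by
  have hd1 : (1 : ℝ) ≤ d := by exact_mod_cast hd
  induction n with
  | zero =>
      rw [pow_zero]
      refine le_of_eq ?_
      simp [Matrix.one_apply]
  | succ n ih =>
      refine le_trans ?_ ih
      have e1 : ∑ y, (TM z V ^ (n + 1)) x y * DD z V y =
          ∑ y, (TM z V ^ n) x y * (TM z V *ᵥ DD z V) y := by
        rw [sum_mul_mulVec_comm (TM_symm z V)]
        exact Finset.sum_congr rfl fun y _ => by rw [row_succ]
      rw [e1]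
      refine Finset.sum_le_sum fun y _ => ?_
      refine mul_le_mul_of_nonneg_left ?_ (row_nonneg hd hz hV x n y)
      rw [TM_mulVec, AM_DD hA, Pi.one_apply, mul_one]
      have : 0 ≤ 1 / (8 * (d : ℝ)) := by positivity
      linarith

/-- Module HEAT. -/
theorem heat (hnash : NashStmt) (hseq : SeqStmt) : HeatStmt := by
  intro d M _ hd z V a hz hV hA ha hDa hDb
  have hd1 : (1 : ℝ) ≤ d := by exact_mod_cast hd
  have hmono : ∀ (x : Tor d M) (n : ℕ),
      ∑ y, ((TM z V ^ (n + 1)) x y) ^ 2 ≤ ∑ y, ((TM z V ^ n) x y) ^ 2 := by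
    intro x n
    have e1 : ∑ y, ((TM z V ^ (n + 1)) x y) ^ 2 =
        ∑ y, (TM z V *ᵥ fun w => (TM z V ^ n) x w) y ^ 2 :=
      Finset.sum_congr rfl fun y _ => by rw [row_succ]
    rw [e1]
    exact (TM_sq_le hd hz hV hA _).trans (TM_form_le hd hA _)
  refine ⟨TM_nonneg hd hz hV, hmono, ?_, TM_contr hd hz hV hA ha hDb,
    TM_form_nonneg hd hz hV, TM_form_le hd hA⟩
  intro x
  refine hseq d M hd (fun n => ∑ y, ((TM z V ^ n) x y) ^ 2)
    (fun n => Finset.sum_nonneg fun y _ => sq_nonneg _) ?_ (fun n => hmono x n) ?_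
  · simp [Matrix.one_apply]
  · intro n l hl1 hlM
    set f : Tor d M → ℝ := fun w => (TM z V ^ n) x w with hf
    set g : Tor d M → ℝ := DD z V with hg
    have hg0 : ∀ y, 0 < g y := DD_pos hA
    have hf0 : ∀ y, 0 ≤ f y := fun y => row_nonneg hd hz hV x n y
    have e1 : ∑ y, ((TM z V ^ (n + 1)) x y) ^ 2 = ∑ y, (TM z V *ᵥ f) y ^ 2 :=
      Finset.sum_congr rfl fun y _ => by rw [row_succ]
    have h1 := TM_sq_le hd hz hV hA f
    rw [TM_form] at h1
    -- the transformed function
    set u : Tor d M → ℝ := fun y => f y / g y with hu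
    have hdoob := AM_doob z V g u
    have e : (fun y => g y * u y) = f := by
      funext y; rw [hu]; exact mul_div_cancel₀ _ (hg0 y).ne'
    have e' : ∀ y, g y * u y = f y := fun y => congrFun e y
    simp only [e'] at hdoob
    have hAg : AM z V *ᵥ g = 1 := AM_DD hA
    have h2 : a ^ 2 * energy u ≤ ∑ y, f y * (AM z V *ᵥ f) y := by
      have hen : a ^ 2 * energy u ≤
          ∑ x, ∑ i : Fin d, g x * g (x + ev i) * (u (x + ev i) - u x) ^ 2 := by
        unfold energy
        rw [Finset.mul_sum]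
        refine Finset.sum_le_sum fun y _ => ?_
        rw [Finset.mul_sum]
        refine Finset.sum_le_sum fun i _ => ?_
        refine mul_le_mul_of_nonneg_right ?_ (sq_nonneg _)
        have h3 := hDa y
        have h4 := hDa (y + ev i)
        rw [sq]
        exact mul_le_mul h3 h4 ha.le (ha.le.trans h3)
      have hnn : 0 ≤ ∑ y, g y * (AM z V *ᵥ g) y * u y ^ 2 := by
        rw [hAg]
        refine Finset.sum_nonneg fun y _ => ?_
        have := (hg0 y).le
        simp only [Pi.one_apply, mul_one]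
        positivity
      linarith
    -- the sums
    have hsum : ∑ y, f y ≤ 3 / 2 := by
      have h3 := row_sum hd hz hV hA x n
      have h4 : a * ∑ y, f y ≤ ∑ y, (TM z V ^ n) x y * DD z V y := by
        rw [Finset.mul_sum]
        refine Finset.sum_le_sum fun y _ => ?_
        have := mul_le_mul_of_nonneg_left (hDa y) (hf0 y)
        calc a * f y = f y * a := mul_comm _ _
          _ ≤ f y * DD z V y := this
      have h5 := hDb x
      have h6 : a * ∑ y, f y ≤ a * (3 / 2) := by linarith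
      exact le_of_mul_le_mul_left h6 ha
    have hsum0 : 0 ≤ ∑ y, f y := Finset.sum_nonneg fun y _ => hf0 y
    have hu1 : ∑ y, |u y| ≤ 3 / (2 * a) := by
      have h3 : ∑ y, |u y| ≤ (∑ y, f y) / a := by
        rw [Finset.sum_div]
        refine Finset.sum_le_sum fun y _ => ?_
        rw [hu]
        simp only
        rw [abs_of_nonneg (div_nonneg (hf0 y) (hg0 y).le)]
        exact div_le_div_of_nonneg_left (hf0 y) ha (hDa y)
      refine h3.trans ?_
      rw [div_le_div_iff₀ ha (by positivity)]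
      nlinarith
    have hu1' : (∑ y, |u y|) ^ 2 ≤ (3 / (2 * a)) ^ 2 :=
      pow_le_pow_left₀ (Finset.sum_nonneg fun y _ => abs_nonneg _) hu1 2
    have hu2 : 4 / (9 * a ^ 2) * ∑ y, f y ^ 2 ≤ ∑ y, u y ^ 2 := by
      rw [Finset.mul_sum]
      refine Finset.sum_le_sum fun y _ => ?_
      rw [hu]
      simp only
      rw [div_pow]
      have h3 : g y ^ 2 ≤ (3 / 2 * a) ^ 2 := pow_le_pow_left₀ (hg0 y).le (hDb y) 2
      have h4 : 0 < g y ^ 2 := by have := hg0 y; positivity
      calc 4 / (9 * a ^ 2) * f y ^ 2 = f y ^ 2 / (3 / 2 * a) ^ 2 := by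
            field_simp
            ring
        _ ≤ f y ^ 2 / g y ^ 2 := div_le_div_of_nonneg_left (sq_nonneg _) h4 h3
    have hN := hnash d M u l hl1 hlM
    -- assembly
    have hl0 : (0 : ℝ) < l := by exact_mod_cast hl1
    set P : ℝ := ∑ y, f y ^ 2 with hP
    set L : ℝ := 1 / (l : ℝ) ^ d with hL
    have hL0 : 0 < L := by positivity
    have h7 : 4 / (9 * a ^ 2) * P ≤ L * (3 / (2 * a)) ^ 2 + (d * (l : ℝ) ^ 2 / 2) * energy u := by
      have := mul_le_mul_of_nonneg_left hu1' hL0.le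
      linarith
    -- multiply by `a²`
    have h8 : 4 / 9 * P ≤ L * (9 / 4) + (d * (l : ℝ) ^ 2 / 2) * (a ^ 2 * energy u) := by
      have h9 := mul_le_mul_of_nonneg_left h7 (by positivity : 0 ≤ a ^ 2)
      have e3 : a ^ 2 * (4 / (9 * a ^ 2) * P) = 4 / 9 * P := by field_simp
      have e4 : a ^ 2 * (L * (3 / (2 * a)) ^ 2 + (d * (l : ℝ) ^ 2 / 2) * energy u) =
          L * (9 / 4) + (d * (l : ℝ) ^ 2 / 2) * (a ^ 2 * energy u) := by
        field_simp
        ring
      rw [e3, e4] at h9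
      exact h9
    have h10 : (d * (l : ℝ) ^ 2 / 2) * (a ^ 2 * energy u) ≤
        (d * (l : ℝ) ^ 2 / 2) * ∑ y, f y * (AM z V *ᵥ f) y :=
      mul_le_mul_of_nonneg_left h2 (by positivity)
    set Q : ℝ := ∑ y, f y * (AM z V *ᵥ f) y with hQ
    have h11 : 4 / 9 * P - L * (9 / 4) ≤ (d * (l : ℝ) ^ 2 / 2) * Q := by linarith
    have h12 : 1 / (4 * (d : ℝ) ^ 2 * (l : ℝ) ^ 2) * (4 / 9 * P - L * (9 / 4)) ≤
        1 / (8 * d) * Q := by
      have h13 := mul_le_mul_of_nonneg_left h11
        (by positivity : 0 ≤ 1 / (4 * (d : ℝ) ^ 2 * (l : ℝ) ^ 2))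
      have e5 : 1 / (4 * (d : ℝ) ^ 2 * (l : ℝ) ^ 2) * ((d * (l : ℝ) ^ 2 / 2) * Q) =
          1 / (8 * d) * Q := by
        field_simp
        ring
      rw [e5] at h13
      exact h13
    have h14 : 1 / (9 * (d : ℝ) ^ 2 * (l : ℝ) ^ 2) * (P - 6 / (l : ℝ) ^ d) ≤
        1 / (4 * (d : ℝ) ^ 2 * (l : ℝ) ^ 2) * (4 / 9 * P - L * (9 / 4)) := by
      have e6 : 1 / (9 * (d : ℝ) ^ 2 * (l : ℝ) ^ 2) =
          1 / (4 * (d : ℝ) ^ 2 * (l : ℝ) ^ 2) * (4 / 9) := by
        field_simp
      rw [e6, mul_assoc]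
      refine mul_le_mul_of_nonneg_left ?_ (by positivity)
      have e7 : 6 / (l : ℝ) ^ d = 6 * L := by rw [hL]; ring
      rw [e7]
      nlinarith only [hL0]
    have h15 : ∑ y, (TM z V *ᵥ f) y ^ 2 ≤
        P - 1 / (9 * (d : ℝ) ^ 2 * (l : ℝ) ^ 2) * (P - 6 / (l : ℝ) ^ d) := by linarith
    exact e1.le.trans h15

end Pool.Agent.BED.H32
end
end -- Pool.Agent.Helper32_BED.Heat

section -- Pool.Agent.Helper15_BED.Minmax

/-!
# Band edge delocalization, module MINMAX
-/

set_option autoImplicit false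

open scoped BigOperators

noncomputable section

namespace Pool.Agent.BED.H15

open Matrix Pool.Agent.BED

theorem inner_toLp {n : Type} [Fintype n] (f g : n → ℝ) :
    inner ℝ (WithLp.toLp 2 f) (WithLp.toLp 2 g) = ∑ x, f x * g x := by
  rw [EuclideanSpace.inner_eq_star_dotProduct]
  simp only [dotProduct, star_trivial]
  exact Finset.sum_congr rfl fun x _ => mul_comm _ _

theorem spectral {n : Type} [Fintype n] [DecidableEq n] (H : Matrix n n ℝ) (hH : H.IsHermitian)
    (f : n → ℝ) : ∃ c : n → ℝ, (∀ i, c i = ∑ x, (hH.eigenvectorBasis i).ofLp x * f x) ∧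
      ∑ x, f x ^ 2 = ∑ i, c i ^ 2 ∧
      ∑ x, f x * (H *ᵥ f) x = ∑ i, hH.eigenvalues i * c i ^ 2 := by
  set b := hH.eigenvectorBasis with hb
  have hbi : ∀ i, b i = WithLp.toLp 2 (b i).ofLp := fun i => rfl
  refine ⟨fun i => ∑ x, (b i).ofLp x * f x, fun i => rfl, ?_, ?_⟩
  · have h := b.sum_inner_mul_inner (WithLp.toLp 2 f) (WithLp.toLp 2 f)
    rw [inner_toLp] at h
    have e : ∑ x, f x ^ 2 = ∑ x, f x * f x := Finset.sum_congr rfl fun x _ => sq _
    rw [e, ← h]
    refine Finset.sum_congr rfl fun i _ => ?_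
    rw [real_inner_comm, hbi i, inner_toLp, sq]
  · have h := b.sum_inner_mul_inner (WithLp.toLp 2 f) (WithLp.toLp 2 (H *ᵥ f))
    rw [inner_toLp] at h
    rw [← h]
    refine Finset.sum_congr rfl fun i _ => ?_
    rw [real_inner_comm, hbi i, inner_toLp, inner_toLp]
    have h1 : ∑ x, (b i).ofLp x * (H *ᵥ f) x = hH.eigenvalues i * ∑ x, (b i).ofLp x * f x := by
      have h2 := sum_mul_mulVec_comm (A := H) (fun x y => by
        have := congrFun (congrFun hH y) x
        simpa [Matrix.conjTranspose_apply] using this) (b i).ofLp f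
      rw [h2, hH.mulVec_eigenvectorBasis i, Finset.mul_sum]
      refine Finset.sum_congr rfl fun x _ => ?_
      rw [Pi.smul_apply, smul_eq_mul]
      ring
    rw [h1]
    ring

/-- MINMAX -/
theorem minmax : MinmaxStmt := by
  intro n _ _ H hH e k f hf0 hdis horth hlow
  by_contra hcon
  push Not at hcon
  set S := Finset.univ.filter fun i => e ≤ hH.eigenvalues i with hS
  -- a combination orthogonal to the eigenvectors with large eigenvalues
  let Φ : (Fin k → ℝ) →ₗ[ℝ] (S → ℝ) :=
    { toFun := fun c i => ∑ x, (hH.eigenvectorBasis i).ofLp x * ∑ j, c j * f j x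
      map_add' := by
        intro c c'
        funext i
        simp only [Pi.add_apply, add_mul, Finset.sum_add_distrib, mul_add]
      map_smul' := by
        intro a c
        funext i
        simp only [Pi.smul_apply, smul_eq_mul, RingHom.id_apply, Finset.mul_sum]
        refine Finset.sum_congr rfl fun x _ => Finset.sum_congr rfl fun j _ => ?_
        ring }
  obtain ⟨c, hc0, hcne⟩ : ∃ c : Fin k → ℝ, Φ c = 0 ∧ c ≠ 0 := by
    by_contra h
    push Not at h
    have hinj : Function.Injective Φ := by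
      rw [injective_iff_map_eq_zero]
      exact h
    have := LinearMap.finrank_le_finrank_of_injective hinj
    rw [Module.finrank_fin_fun, Module.finrank_fintype_fun_eq_card, Fintype.card_coe] at this
    omega
  set g : n → ℝ := fun x => ∑ j, c j * f j x with hg
  obtain ⟨a, ha1, ha2, ha3⟩ := spectral H hH g
  have haS : ∀ i ∈ S, a i = 0 := by
    intro i hi
    rw [ha1]
    have := congrFun hc0 ⟨i, hi⟩
    exact this
  -- norm and energy of the combination
  have hgg : ∑ x, g x ^ 2 = ∑ j, c j ^ 2 * ∑ x, f j x ^ 2 := by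
    have e1 : ∀ x, g x ^ 2 = ∑ j, c j ^ 2 * f j x ^ 2 := by
      intro x
      rw [hg, sq, Finset.sum_mul_sum]
      refine Finset.sum_congr rfl fun j _ => ?_
      rw [Finset.sum_eq_single j]
      · ring
      · intro j' _ hj
        have := hdis j j' (Ne.symm hj) x
        calc c j * f j x * (c j' * f j' x) = c j * c j' * (f j x * f j' x) := by ring
          _ = 0 := by rw [this, mul_zero]
      · intro h; exact absurd (Finset.mem_univ j) h
    simp only [e1]
    rw [Finset.sum_comm]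
    refine Finset.sum_congr rfl fun j _ => ?_
    rw [Finset.mul_sum]
  have hHg : H *ᵥ g = fun x => ∑ j, c j * (H *ᵥ f j) x := by
    funext x
    simp only [Matrix.mulVec, dotProduct, hg, Finset.mul_sum]
    rw [Finset.sum_comm]
    refine Finset.sum_congr rfl fun j _ => Finset.sum_congr rfl fun y _ => ?_
    ring
  have hgH : ∑ x, g x * (H *ᵥ g) x = ∑ j, c j ^ 2 * ∑ x, f j x * (H *ᵥ f j) x := by
    rw [hHg]
    have e1 : ∑ x, g x * ∑ j', c j' * (H *ᵥ f j') x
        = ∑ j, ∑ j', c j * c j' * ∑ x, f j x * (H *ᵥ f j') x := by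
      calc ∑ x, g x * ∑ j', c j' * (H *ᵥ f j') x
          = ∑ x, ∑ j, ∑ j', c j * c j' * (f j x * (H *ᵥ f j') x) := by
            refine Finset.sum_congr rfl fun x _ => ?_
            rw [hg, Finset.sum_mul_sum]
            refine Finset.sum_congr rfl fun j _ => Finset.sum_congr rfl fun j' _ => ?_
            ring
        _ = ∑ j, ∑ x, ∑ j', c j * c j' * (f j x * (H *ᵥ f j') x) := Finset.sum_comm
        _ = ∑ j, ∑ j', ∑ x, c j * c j' * (f j x * (H *ᵥ f j') x) :=
            Finset.sum_congr rfl fun j _ => Finset.sum_comm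
        _ = ∑ j, ∑ j', c j * c j' * ∑ x, f j x * (H *ᵥ f j') x := by
            simp only [Finset.mul_sum]
    rw [e1]
    refine Finset.sum_congr rfl fun j _ => ?_
    rw [Finset.sum_eq_single j]
    · ring
    · intro j' _ hj
      rw [horth j j' (Ne.symm hj), mul_zero]
    · intro h; exact absurd (Finset.mem_univ j) h
  have hlow2 : e * ∑ x, g x ^ 2 ≤ ∑ x, g x * (H *ᵥ g) x := by
    rw [hgg, hgH, Finset.mul_sum]
    refine Finset.sum_le_sum fun j _ => ?_
    have := mul_le_mul_of_nonneg_left (hlow j) (sq_nonneg (c j))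
    linarith only [this]
  have hpos : 0 < ∑ x, g x ^ 2 := by
    rw [hgg]
    obtain ⟨j, hj⟩ := Function.ne_iff.1 hcne
    refine Finset.sum_pos' (fun i _ => mul_nonneg (sq_nonneg _)
      (Finset.sum_nonneg fun x _ => sq_nonneg _)) ⟨j, Finset.mem_univ j, ?_⟩
    obtain ⟨x, hx⟩ := Function.ne_iff.1 (hf0 j)
    have hx' : f j x ≠ 0 := hx
    have hj' : c j ≠ 0 := hj
    refine mul_pos (by positivity) (Finset.sum_pos' (fun y _ => sq_nonneg _)
      ⟨x, Finset.mem_univ x, by positivity⟩)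
  rw [ha2, ha3] at hlow2
  rw [ha2] at hpos
  have hlt : ∑ i, hH.eigenvalues i * a i ^ 2 < e * ∑ i, a i ^ 2 := by
    rw [Finset.mul_sum]
    obtain ⟨i, _, hi⟩ := Finset.exists_ne_zero_of_sum_ne_zero hpos.ne'
    have hai : a i ≠ 0 := by
      intro h
      exact hi (by rw [h]; ring)
    refine Finset.sum_lt_sum (fun j _ => ?_) ⟨i, Finset.mem_univ i, ?_⟩
    · by_cases hj : j ∈ S
      · rw [haS j hj]; simp
      · have : hH.eigenvalues j < e := by
          rw [hS, Finset.mem_filter] at hj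
          push Not at hj
          exact hj (Finset.mem_univ j)
        exact mul_le_mul_of_nonneg_right this.le (sq_nonneg _)
    · have hiS : i ∉ S := fun h => hai (haS i h)
      have : hH.eigenvalues i < e := by
        rw [hS, Finset.mem_filter] at hiS
        push Not at hiS
        exact hiS (Finset.mem_univ i)
      exact mul_lt_mul_of_pos_right this (by positivity)
  linarith only [hH, hlow2, hlt]

end Pool.Agent.BED.H15
end
end -- Pool.Agent.Helper15_BED.Minmax

section -- Pool.Agent.Helper32_BED.Nash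

/-!
# BED: module NASH
-/

set_option autoImplicit false
set_option linter.unusedSectionVars false

open scoped BigOperators

noncomputable section

namespace Pool.Agent.BED.H32

open Pool.Agent.BED

variable {d M : ℕ} [NeZero M]

/-- the `l²` norm -/
def nrm (f : Tor d M → ℝ) : ℝ := ‖(WithLp.toLp 2 f : EuclideanSpace ℝ (Tor d M))‖

theorem nrm_sq (f : Tor d M → ℝ) : nrm f ^ 2 = ∑ x, f x ^ 2 := by
  unfold nrm
  rw [EuclideanSpace.norm_sq_eq]
  simp

theorem nrm_nonneg (f : Tor d M → ℝ) : 0 ≤ nrm f := norm_nonneg _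

theorem nrm_add (f g : Tor d M → ℝ) : nrm (f + g) ≤ nrm f + nrm g := by
  unfold nrm
  exact norm_add_le (WithLp.toLp 2 f : EuclideanSpace ℝ (Tor d M)) (WithLp.toLp 2 g)

theorem nrm_shift (f : Tor d M → ℝ) (s : Tor d M) : nrm (fun x => f (x + s)) = nrm f := by
  have h : nrm (fun x => f (x + s)) ^ 2 = nrm f ^ 2 := by
    rw [nrm_sq, nrm_sq]
    exact Equiv.sum_comp (Equiv.addRight s) (fun x => f x ^ 2)
  exact (pow_left_inj₀ (nrm_nonneg _) (nrm_nonneg _) two_ne_zero).1 h

/-- the distance from the translate -/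
def dst (u : Tor d M → ℝ) (s : Tor d M) : ℝ := nrm (fun x => u (x + s) - u x)

theorem dst_zero (u : Tor d M → ℝ) : dst u 0 = 0 := by
  have : dst u 0 ^ 2 = 0 := by
    unfold dst
    rw [nrm_sq]
    simp
  exact pow_eq_zero_iff two_ne_zero |>.1 this

theorem dst_add (u : Tor d M → ℝ) (s t : Tor d M) : dst u (s + t) ≤ dst u s + dst u t := by
  have h : (fun x => u (x + (s + t)) - u x) =
      (fun x => (fun y => u (y + t) - u y) (x + s)) + (fun x => u (x + s) - u x) := by
    funext x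
    simp only [Pi.add_apply]
    rw [add_assoc]
    ring
  unfold dst
  rw [h]
  refine (nrm_add _ _).trans ?_
  rw [nrm_shift (fun y => u (y + t) - u y) s]
  linarith

theorem dst_nsmul (u : Tor d M → ℝ) (n : ℕ) (s : Tor d M) : dst u (n • s) ≤ n * dst u s := by
  induction n with
  | zero => simp [dst_zero]
  | succ n ih =>
      rw [succ_nsmul]
      refine (dst_add u _ _).trans ?_
      push_cast
      linarith

/-- the translation vector with coordinates `s` -/
def vec {l : ℕ} (s : Fin d → Fin l) : Tor d M := fun i => ((s i : ℕ) : ZMod M)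

theorem vec_eq {l : ℕ} (s : Fin d → Fin l) :
    (vec s : Tor d M) = ∑ i, (s i : ℕ) • (ev i : Tor d M) := by
  funext j
  rw [Finset.sum_apply]
  simp only [Pi.smul_apply, ev, Pi.single_apply, nsmul_eq_mul, mul_ite, mul_one, mul_zero]
  rw [Finset.sum_ite_eq]
  simp [vec]

theorem vec_injective {l : ℕ} (hl : l ≤ M) :
    Function.Injective (vec : (Fin d → Fin l) → Tor d M) := by
  intro s t h
  funext i
  have h1 := congrFun h i
  unfold vec at h1
  have h2 := (ZMod.natCast_eq_natCast_iff' _ _ _).1 h1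
  rw [Nat.mod_eq_of_lt ((s i).2.trans_le hl), Nat.mod_eq_of_lt ((t i).2.trans_le hl)] at h2
  exact Fin.ext h2

theorem dst_sq_sum (u : Tor d M → ℝ) : ∑ i : Fin d, dst u (ev i) ^ 2 = energy u := by
  unfold energy
  rw [Finset.sum_comm]
  refine Finset.sum_congr rfl fun i _ => ?_
  unfold dst
  rw [nrm_sq]

theorem dst_vec {l : ℕ} (u : Tor d M → ℝ) (s : Fin d → Fin l) :
    dst u (vec s) ^ 2 ≤ d * (l : ℝ) ^ 2 * energy u := by
  have h1 : dst u (vec s) ≤ ∑ i : Fin d, ((s i : ℕ) : ℝ) * dst u (ev i) := by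
    rw [vec_eq]
    refine (Finset.le_sum_of_subadditive (dst u) (dst_zero u).le (dst_add u) _ _).trans ?_
    exact Finset.sum_le_sum fun i _ => dst_nsmul u _ _
  have h0 : 0 ≤ dst u (vec s) := nrm_nonneg _
  calc dst u (vec s) ^ 2 ≤ (∑ i : Fin d, ((s i : ℕ) : ℝ) * dst u (ev i)) ^ 2 :=
        pow_le_pow_left₀ h0 h1 2
    _ ≤ (∑ i : Fin d, ((s i : ℕ) : ℝ) ^ 2) * ∑ i : Fin d, dst u (ev i) ^ 2 :=
        Finset.sum_mul_sq_le_sq_mul_sq _ _ _
    _ ≤ (∑ _i : Fin d, (l : ℝ) ^ 2) * ∑ i : Fin d, dst u (ev i) ^ 2 := by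
        refine mul_le_mul_of_nonneg_right ?_ (Finset.sum_nonneg fun i _ => sq_nonneg _)
        refine Finset.sum_le_sum fun i _ => ?_
        have : ((s i : ℕ) : ℝ) ≤ l := by exact_mod_cast (s i).2.le
        exact pow_le_pow_left₀ (by positivity) this 2
    _ = d * (l : ℝ) ^ 2 * energy u := by
        rw [dst_sq_sum]
        simp

theorem one_shift (u : Tor d M → ℝ) (s : Tor d M) :
    ∑ x, u x ^ 2 = ∑ x, u x * u (x + s) + (1 / 2) * dst u s ^ 2 := by
  unfold dst
  rw [nrm_sq]
  have h : ∑ x, u (x + s) ^ 2 = ∑ x, u x ^ 2 :=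
    Equiv.sum_comp (Equiv.addRight s) (fun x => u x ^ 2)
  have h2 : ∑ x, (u (x + s) - u x) ^ 2 =
      ∑ x, u (x + s) ^ 2 + ∑ x, u x ^ 2 - 2 * ∑ x, u x * u (x + s) := by
    rw [Finset.mul_sum, ← Finset.sum_add_distrib, ← Finset.sum_sub_distrib]
    refine Finset.sum_congr rfl fun x _ => ?_
    ring
  rw [h2, h]
  ring

/-- Module NASH. -/
theorem nash : NashStmt := by
  intro d M _ u l hl1 hlM
  have hcard : (Fintype.card (Fin d → Fin l) : ℝ) = (l : ℝ) ^ d := by
    simp
  have hl0 : (0 : ℝ) < (l : ℝ) ^ d := by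
    have : 0 < l := hl1
    positivity
  have hsum : (l : ℝ) ^ d * ∑ x, u x ^ 2 =
      ∑ s : Fin d → Fin l, (∑ x, u x * u (x + vec s) + (1 / 2) * dst u (vec s) ^ 2) := by
    have : ∀ s ∈ (Finset.univ : Finset (Fin d → Fin l)),
        ∑ x, u x * u (x + vec s) + (1 / 2) * dst u (vec s) ^ 2 = ∑ x, u x ^ 2 :=
      fun s _ => (one_shift u _).symm
    rw [Finset.sum_congr rfl this, Finset.sum_const, Finset.card_univ, nsmul_eq_mul, hcard]
  have h1 : ∑ s : Fin d → Fin l, ∑ x, u x * u (x + vec s) ≤ (∑ x, |u x|) ^ 2 := by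
    rw [Finset.sum_comm, sq, Finset.sum_mul]
    refine Finset.sum_le_sum fun x _ => ?_
    rw [← Finset.mul_sum]
    have h2 : |∑ s : Fin d → Fin l, u (x + vec s)| ≤ ∑ y, |u y| := by
      refine (Finset.abs_sum_le_sum_abs _ _).trans ?_
      have hinj : Function.Injective (fun s : Fin d → Fin l => x + (vec s : Tor d M)) :=
        (add_right_injective x).comp (vec_injective hlM)
      have e := Finset.sum_map Finset.univ (⟨_, hinj⟩ : (Fin d → Fin l) ↪ Tor d M)
        (fun y => |u y|)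
      simp only [Function.Embedding.coeFn_mk] at e
      rw [← e]
      exact Finset.sum_le_sum_of_subset_of_nonneg (Finset.subset_univ _)
        fun y _ _ => abs_nonneg _
    calc u x * ∑ s : Fin d → Fin l, u (x + vec s) ≤ |u x * ∑ s : Fin d → Fin l, u (x + vec s)| :=
          le_abs_self _
      _ = |u x| * |∑ s : Fin d → Fin l, u (x + vec s)| := abs_mul _ _
      _ ≤ |u x| * ∑ y, |u y| := mul_le_mul_of_nonneg_left h2 (abs_nonneg _)
  have h3 : ∑ s : Fin d → Fin l, (1 / 2) * dst u (vec s) ^ 2 ≤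
      (l : ℝ) ^ d * ((d * (l : ℝ) ^ 2 / 2) * energy u) := by
    have : ∀ s ∈ (Finset.univ : Finset (Fin d → Fin l)),
        (1 / 2) * dst u (vec s) ^ 2 ≤ (d * (l : ℝ) ^ 2 / 2) * energy u := by
      intro s _
      have := dst_vec u s
      linarith
    refine (Finset.sum_le_sum this).trans (le_of_eq ?_)
    rw [Finset.sum_const, Finset.card_univ, nsmul_eq_mul, hcard]
  rw [Finset.sum_add_distrib] at hsum
  have h4 : (l : ℝ) ^ d * ∑ x, u x ^ 2 ≤
      (l : ℝ) ^ d * ((1 / (l : ℝ) ^ d) * (∑ x, |u x|) ^ 2 + (d * (l : ℝ) ^ 2 / 2) * energy u) := by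
    rw [mul_add, ← mul_assoc ((l : ℝ) ^ d) (1 / (l : ℝ) ^ d), mul_one_div_cancel hl0.ne', one_mul,
      hsum]
    exact add_le_add h1 h3
  exact le_of_mul_le_mul_left h4 hl0

end Pool.Agent.BED.H32
end
end -- Pool.Agent.Helper32_BED.Nash

section -- Pool.Agent.Helper32_BED.Seq

/-!
# BED: module SEQ
-/

set_option autoImplicit false

open scoped BigOperators

noncomputable section

namespace Pool.Agent.BED.H32

open Pool.Agent.BED

theorem rpow_half {x : ℝ} (hx : 0 < x) (d : ℕ) :
    x ^ (-(d : ℝ) / 2) = ((Real.sqrt x) ^ d)⁻¹ := by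
  rw [Real.sqrt_eq_rpow, ← Real.rpow_natCast, ← Real.rpow_mul hx.le, ← Real.rpow_neg hx.le]
  congr 1
  ring

theorem bern {m : ℝ} (hm : 0 < m) (d : ℕ) :
    ((Real.sqrt m) ^ d)⁻¹ * (1 - d / (2 * m)) ≤ ((Real.sqrt (m + 1)) ^ d)⁻¹ := by
  rw [← rpow_half hm, ← rpow_half (by linarith : 0 < m + 1)]
  have h1 : (m + 1) ^ (-(d : ℝ) / 2) = m ^ (-(d : ℝ) / 2) * (1 + 1 / m) ^ (-(d : ℝ) / 2) := by
    rw [← Real.mul_rpow hm.le (by positivity)]
    congr 1
    field_simp
  rw [h1]
  refine mul_le_mul_of_nonneg_left ?_ (by positivity)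
  have h2 : 0 < 1 + 1 / m := by positivity
  rw [Real.rpow_def_of_pos h2]
  have h3 : Real.log (1 + 1 / m) ≤ 1 / m := by
    have := Real.log_le_sub_one_of_pos h2
    linarith only [this]
  have h4 := Real.add_one_le_exp (Real.log (1 + 1 / m) * (-(d : ℝ) / 2))
  have h5 : (d : ℝ) / (2 * m) = (1 / m) * (d / 2) := by field_simp
  have h6 : Real.log (1 + 1 / m) * ((d : ℝ) / 2) ≤ (1 / m) * (d / 2) :=
    mul_le_mul_of_nonneg_right h3 (by positivity)
  have h7 : Real.log (1 + 1 / m) * (-(d : ℝ) / 2) = - (Real.log (1 + 1 / m) * ((d : ℝ) / 2)) := by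
    ring
  rw [h7] at h4 ⊢
  linarith only [h4, h5, h6]

/-- Module SEQ. -/
theorem seq : SeqStmt := by
  intro d M hd φ h0 h00 hmono hrec n
  have hd1 : (1 : ℝ) ≤ d := by exact_mod_cast hd
  have hd3 : (1 : ℝ) ≤ (d : ℝ) ^ 3 := one_le_pow₀ hd1
  have hle1 : ∀ n, φ n ≤ 1 := by
    intro n
    induction n with
    | zero => exact h00
    | succ n ih => exact (hmono n).trans ih
  set c : ℝ := Real.sqrt (36 * (d : ℝ) ^ 3) with hc
  have hc2 : c ^ 2 = 36 * (d : ℝ) ^ 3 := Real.sq_sqrt (by positivity)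
  have hc1 : 1 ≤ c := by
    rw [hc]
    exact Real.one_le_sqrt.2 (by linarith only [hd3])
  have hcK : c ≤ 36 * (d : ℝ) ^ 3 := by
    rw [← hc2]; nlinarith only [hd3, hc2, hc1]
  have hcd : c ^ d ≤ (36 * (d : ℝ) ^ 3) ^ d := pow_le_pow_left₀ (by linarith) hcK d
  have hcd0 : 0 < c ^ d := by positivity
  have hK : KH d = 12 * (36 * (d : ℝ) ^ 3) ^ d := rfl
  induction n with
  | zero =>
      intro _
      rw [rpow_half (by norm_num)]
      simp only [Nat.cast_zero, zero_add, Real.sqrt_one, one_pow, inv_one, mul_one]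
      rw [hK]
      have : (1 : ℝ) ≤ c ^ d := one_le_pow₀ hc1
      linarith only [h00, hcd, hcd0, this]
  | succ n ih =>
      intro hM
      have hM' : n + 1 ≤ M ^ 2 := by omega
      have ih := ih hM'
      have hm0 : (0 : ℝ) < (n : ℝ) + 1 := by positivity
      rw [rpow_half hm0] at ih
      have hcast : (((n + 1 : ℕ) : ℝ) + 1) = ((n : ℝ) + 1) + 1 := by push_cast; ring
      rw [hcast, rpow_half (by positivity)]
      set m : ℝ := (n : ℝ) + 1 with hm
      set r : ℝ := Real.sqrt m with hr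
      have hr2 : r ^ 2 = m := Real.sq_sqrt hm0.le
      have hr0 : 0 < r := Real.sqrt_pos.2 hm0
      by_cases hsmall : m < 36 * (d : ℝ) ^ 3
      · -- small `m`
        have h1 : Real.sqrt (m + 1) ≤ 2 * c := by
          rw [show (2 : ℝ) * c = Real.sqrt ((2 * c) ^ 2) from (Real.sqrt_sq (by linarith only [hc1])).symm]
          refine Real.sqrt_le_sqrt ?_
          rw [mul_pow, hc2]
          linarith only [hd3, hsmall]
        have h2c : 2 * c ≤ 36 * (d : ℝ) ^ 3 := by
          rw [← hc2]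
          have : (2 : ℝ) ≤ c := by
            rw [hc]
            refine Real.le_sqrt_of_sq_le ?_
            linarith only [hd3]
          nlinarith only [hd3, hc2, hc1, this]
        have h2 : (Real.sqrt (m + 1)) ^ d ≤ (36 * (d : ℝ) ^ 3) ^ d :=
          pow_le_pow_left₀ (Real.sqrt_nonneg _) (h1.trans h2c) d
        have h3 : 0 < (Real.sqrt (m + 1)) ^ d := by positivity
        refine (hle1 _).trans ?_
        rw [hK, ← div_eq_mul_inv, le_div_iff₀ h3]
        linarith only [hcd, hcd0, h2]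
      · -- large `m`
        push Not at hsmall
        have hrc : c ≤ r := by
          rw [hc, hr]
          exact Real.sqrt_le_sqrt hsmall
        set x : ℝ := 2 * r / c with hx
        have hx2 : 2 ≤ x := by
          rw [hx, le_div_iff₀ (by linarith only [hc1])]
          linarith only [hrc]
        set l : ℕ := ⌊x⌋₊ with hl
        have hlx : (l : ℝ) ≤ x := Nat.floor_le (by linarith only [hx2])
        have hxl : x / 2 ≤ l := by
          have := Nat.lt_floor_add_one x
          rw [← hl] at this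
          linarith only [hx2, this]
        have hl1 : 1 ≤ l := by
          have : (1 : ℝ) ≤ l := by linarith only [hx2, hxl]
          exact_mod_cast this
        have hl1r : (1 : ℝ) ≤ l := by exact_mod_cast hl1
        have hlM : l ≤ M := by
          have h1 : x ≤ r := by
            rw [hx, div_le_iff₀ (by linarith only [hc1])]
            have : (2 : ℝ) ≤ c := by
              rw [hc]
              refine Real.le_sqrt_of_sq_le ?_
              linarith only [hd3]
            nlinarith only [hd3, hc2, hc1, hcK, hr0, hrc]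
          have h2 : r ≤ M := by
            rw [hr]
            rw [show (M : ℝ) = Real.sqrt ((M : ℝ) ^ 2) from (Real.sqrt_sq (by positivity)).symm]
            refine Real.sqrt_le_sqrt ?_
            rw [hm]
            exact_mod_cast hM'
          exact_mod_cast hlx.trans (h1.trans h2)
        have hstep := hrec n l hl1 hlM
        set s : ℝ := 1 / (9 * (d : ℝ) ^ 2 * (l : ℝ) ^ 2) with hs
        have hs1 : s ≤ 1 := by
          rw [hs, div_le_one (by positivity)]
          have : (1 : ℝ) ≤ (d : ℝ) ^ 2 := one_le_pow₀ hd1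
          have : (1 : ℝ) ≤ (l : ℝ) ^ 2 := one_le_pow₀ hl1r
          nlinarith
        have hsm : (d : ℝ) / m ≤ s := by
          rw [hs, div_le_div_iff₀ hm0 (by positivity), one_mul]
          have h1 : (l : ℝ) ^ 2 ≤ x ^ 2 := by
            have := pow_le_pow_left₀ (by positivity) hlx 2
            exact this
          have h2 : x ^ 2 = 4 * m / (36 * (d : ℝ) ^ 3) := by
            rw [hx, div_pow, mul_pow, hr2, hc2]; ring
          have h3 : (d : ℝ) * (9 * (d : ℝ) ^ 2 * x ^ 2) = m := by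
            rw [h2]; field_simp; ring
          calc (d : ℝ) * (9 * (d : ℝ) ^ 2 * (l : ℝ) ^ 2) ≤ (d : ℝ) * (9 * (d : ℝ) ^ 2 * x ^ 2) := by
                gcongr
            _ = m := h3
        have hs0 : 0 ≤ s := by rw [hs]; positivity
        -- the second term
        have hld : 6 / (l : ℝ) ^ d ≤ KH d / 2 * (r ^ d)⁻¹ := by
          have h1 : (r / c) ^ d ≤ (l : ℝ) ^ d := by
            refine pow_le_pow_left₀ (by positivity) ?_ d
            have : x / 2 = r / c := by rw [hx]; ring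
            linarith only [hxl, this]
          have h2 : 0 < (r / c) ^ d := by positivity
          calc 6 / (l : ℝ) ^ d ≤ 6 / (r / c) ^ d := by gcongr
            _ = 6 * c ^ d * (r ^ d)⁻¹ := by
                rw [div_pow]; field_simp
            _ ≤ KH d / 2 * (r ^ d)⁻¹ := by
                refine mul_le_mul_of_nonneg_right ?_ (by positivity)
                rw [hK]
                linarith only [hcd]
        have hrd : 0 < (r ^ d)⁻¹ := by positivity
        have hKr : 0 ≤ KH d * (r ^ d)⁻¹ := (h0 n).trans ih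
        have h1 : φ (n + 1) ≤ KH d * (r ^ d)⁻¹ * (1 - s / 2) := by
          have e1 : (1 - s) * φ n ≤ (1 - s) * (KH d * (r ^ d)⁻¹) :=
            mul_le_mul_of_nonneg_left ih (by linarith only [hs1])
          have e2 : s * (6 / (l : ℝ) ^ d) ≤ s * (KH d / 2 * (r ^ d)⁻¹) :=
            mul_le_mul_of_nonneg_left hld hs0
          calc φ (n + 1) ≤ φ n - s * (φ n - 6 / (l : ℝ) ^ d) := hstep
            _ = (1 - s) * φ n + s * (6 / (l : ℝ) ^ d) := by ring
            _ ≤ (1 - s) * (KH d * (r ^ d)⁻¹) + s * (KH d / 2 * (r ^ d)⁻¹) := add_le_add e1 e2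
            _ = KH d * (r ^ d)⁻¹ * (1 - s / 2) := by ring
        have h2 : KH d * (r ^ d)⁻¹ * (1 - s / 2) ≤ KH d * (r ^ d)⁻¹ * (1 - d / (2 * m)) := by
          refine mul_le_mul_of_nonneg_left ?_ hKr
          have : (d : ℝ) / (2 * m) = d / m / 2 := by field_simp
          rw [this]
          linarith only [hsm]
        have h3 := bern hm0 d
        rw [← hr] at h3
        have hK0 : 0 ≤ KH d := by rw [hK]; positivity
        calc φ (n + 1) ≤ KH d * (r ^ d)⁻¹ * (1 - s / 2) := h1
          _ ≤ KH d * (r ^ d)⁻¹ * (1 - d / (2 * m)) := h2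
          _ = KH d * ((r ^ d)⁻¹ * (1 - d / (2 * m))) := by ring
          _ ≤ KH d * ((Real.sqrt (m + 1)) ^ d)⁻¹ := mul_le_mul_of_nonneg_left h3 hK0

end Pool.Agent.BED.H32
end
end -- Pool.Agent.Helper32_BED.Seq

section -- Pool.Agent.Helper55_BED.GC

/-!
GC: Gaussian concentration for Lipschitz functions (Maurey, Pisier).
-/

set_option autoImplicit false

open MeasureTheory ProbabilityTheory Filter Topology

open scoped ENNReal NNReal BigOperators Convolution

noncomputable section

namespace Pool.Agent.BED.H55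

variable {ι : Type} [Fintype ι]

/-- the product of centered Gaussian measures -/
abbrev gm (ι : Type) [Fintype ι] (v : ℝ≥0) : Measure (ι → ℝ) :=
  Measure.pi fun _ : ι => gaussianReal 0 v

/-- Euclidean norm -/
def N (x : ι → ℝ) : ℝ := Real.sqrt (∑ i, x i ^ 2)

theorem N_nonneg (x : ι → ℝ) : 0 ≤ N x := Real.sqrt_nonneg _

theorem N_sq (x : ι → ℝ) : N x ^ 2 = ∑ i, x i ^ 2 :=
  Real.sq_sqrt (Finset.sum_nonneg fun _ _ => sq_nonneg _)

theorem N_smul (t : ℝ) (x : ι → ℝ) : N (t • x) = |t| * N x := by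
  rw [N, N, ← Real.sqrt_sq_eq_abs, ← Real.sqrt_mul (sq_nonneg t), Finset.mul_sum]
  congr 1
  refine Finset.sum_congr rfl fun i _ => ?_
  simp only [Pi.smul_apply, smul_eq_mul]
  ring

instance isGaussian_gm (v : ℝ≥0) : IsGaussian (gm ι v) := by
  have h1 : ∀ i : ι, HasGaussianLaw (fun x : ι → ℝ => x i) (gm ι v) := by
    intro i
    refine ⟨?_⟩
    rw [show Measure.map (fun x : ι → ℝ => x i) (gm ι v) = gaussianReal 0 v from
      (measurePreserving_eval (fun _ : ι => gaussianReal 0 v) i).map_eq]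
    infer_instance
  have h2 : iIndepFun (fun (i : ι) (x : ι → ℝ) => x i) (gm ι v) :=
    iIndepFun_pi (X := fun _ : ι => (id : ℝ → ℝ)) (μ := fun _ : ι => gaussianReal 0 v)
      fun _ => aemeasurable_id
  have h3 := (iIndepFun.hasGaussianLaw h1 h2).isGaussian_map
  have e : (fun (x : ι → ℝ) (i : ι) => x i) = id := rfl
  rw [e, Measure.map_id] at h3
  exact h3

theorem integrable_coord (v : ℝ≥0) (i : ι) : Integrable (fun x : ι → ℝ => x i) (gm ι v) :=
  IsGaussian.integrable_dual (gm ι v) (ContinuousLinearMap.proj (R := ℝ) (φ := fun _ : ι => ℝ) i)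

theorem integral_coord (v : ℝ≥0) (i : ι) : ∫ x : ι → ℝ, x i ∂(gm ι v) = 0 := by
  have h := (measurePreserving_eval (fun _ : ι => gaussianReal 0 v) i)
  have h2 := h.map_eq
  have h3 : ∫ x : ι → ℝ, x i ∂(gm ι v) = ∫ y, y ∂(gaussianReal 0 v) := by
    rw [← h2, integral_map h.measurable.aemeasurable (f := fun y : ℝ => y)
      aestronglyMeasurable_id]
  rw [h3, integral_id_gaussianReal]

theorem dual_eq [DecidableEq ι] (L : StrongDual ℝ (ι → ℝ)) (x : ι → ℝ) :
    L x = ∑ i, L (Pi.single i 1) * x i := by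
  conv_lhs => rw [show x = ∑ i, x i • (Pi.single i (1 : ℝ) : ι → ℝ) from pi_eq_sum_univ' x]
  rw [map_sum]
  refine Finset.sum_congr rfl fun i _ => ?_
  rw [map_smul, smul_eq_mul, mul_comm]

theorem integral_dual (v : ℝ≥0) (L : StrongDual ℝ (ι → ℝ)) : ∫ x, L x ∂(gm ι v) = 0 := by
  classical
  have e : ∫ x, L x ∂(gm ι v) = ∫ x : ι → ℝ, ∑ i, L (Pi.single i 1) * x i ∂(gm ι v) :=
    integral_congr_ae (Eventually.of_forall fun x => dual_eq L x)
  rw [e, integral_finsetSum _ fun i _ => (integrable_coord v i).const_mul _]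
  refine Finset.sum_eq_zero fun i _ => ?_
  rw [integral_const_mul, integral_coord, mul_zero]

theorem map_rotation (v : ℝ≥0) (θ : ℝ) :
    ((gm ι v).prod (gm ι v)).map (ContinuousLinearMap.rotation θ) = (gm ι v).prod (gm ι v) :=
  IsGaussian.map_rotation_eq_self_of_forall_strongDual_eq_zero (integral_dual v) θ

/-- exponential moments of linear functionals -/
theorem lintegral_exp_dual (v : ℝ≥0) (L : StrongDual ℝ (ι → ℝ)) {K : ℝ}
    (hL : ∀ u, |L u| ≤ K * N u) (c : ℝ) :
    ∫⁻ x, ENNReal.ofReal (Real.exp (c * L x)) ∂(gm ι v)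
      ≤ ENNReal.ofReal (Real.exp (c ^ 2 * v * K ^ 2 / 2)) := by
  classical
  set a : ι → ℝ := fun i => L (Pi.single i 1) with ha
  have hexp : ∀ x : ι → ℝ, Real.exp (c * L x) = ∏ i, Real.exp (c * a i * x i) := by
    intro x
    rw [← Real.exp_sum, dual_eq L x, Finset.mul_sum]
    congr 1
    refine Finset.sum_congr rfl fun i _ => ?_
    simp only [ha]
    ring
  have hint : ∀ i : ι, Integrable (fun t : ℝ => Real.exp (c * a i * t)) (gaussianReal 0 v) :=
    fun i => integrable_exp_mul_gaussianReal _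
  have hI : ∫ x, Real.exp (c * L x) ∂(gm ι v) = Real.exp (c ^ 2 * v * (∑ i, a i ^ 2) / 2) := by
    simp only [hexp]
    rw [integral_fintype_prod_eq_prod (f := fun i (t : ℝ) => Real.exp (c * a i * t))]
    have h1 : ∀ i : ι, ∫ t, Real.exp (c * a i * t) ∂(gaussianReal 0 v)
        = Real.exp (v * (c * a i) ^ 2 / 2) := by
      intro i
      have := mgf_gaussianReal (p := gaussianReal 0 v) (X := id) (μ := 0) (v := v)
        (Measure.map_id) (c * a i)
      rw [zero_mul, zero_add] at this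
      exact this
    simp only [h1]
    rw [← Real.exp_sum]
    congr 1
    rw [Finset.mul_sum, Finset.sum_div]
    refine Finset.sum_congr rfl fun i _ => ?_
    ring
  have hInt : Integrable (fun x => Real.exp (c * L x)) (gm ι v) := by
    simp only [hexp]
    exact Integrable.fintype_prod (f := fun i (t : ℝ) => Real.exp (c * a i * t)) hint
  rw [← ofReal_integral_eq_lintegral_ofReal hInt
    (Eventually.of_forall fun x => (Real.exp_pos _).le), hI]
  apply ENNReal.ofReal_le_ofReal
  rw [Real.exp_le_exp]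
  have hsq : ∑ i, a i ^ 2 ≤ K ^ 2 := by
    have h1 := hL a
    have h2 : L a = ∑ i, a i ^ 2 := by
      rw [dual_eq L a]
      refine Finset.sum_congr rfl fun i _ => ?_
      simp only [ha]
      ring
    rw [h2, ← N_sq, abs_of_nonneg (sq_nonneg _)] at h1
    rw [← N_sq]
    have h3 := N_nonneg a
    rcases h3.eq_or_lt with h0 | h0
    · rw [← h0]
      nlinarith only [sq_nonneg K]
    · have h4 : N a ≤ K := by
        have : N a * N a ≤ K * N a := by rw [← sq]; exact h1
        exact le_of_mul_le_mul_right this h0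
      nlinarith only [h1, h0, h4]
  have hv : (0 : ℝ) ≤ v := v.2
  have : 0 ≤ c ^ 2 * (v : ℝ) := by positivity
  nlinarith only [hsq, this]

/-- the derivative of a Lipschitz function -/
theorem fderiv_bound {F : (ι → ℝ) → ℝ} {K : ℝ} (hK : ∀ x y, |F x - F y| ≤ K * N (x - y))
    {x : ι → ℝ} (hF : DifferentiableAt ℝ F x) (u : ι → ℝ) : |fderiv ℝ F x u| ≤ K * N u := by
  have h1 : HasDerivAt (fun t : ℝ => F (x + t • u)) (fderiv ℝ F x u) 0 := by
    have := hF.hasFDerivAt.hasLineDerivAt u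
    exact this
  have h2 := h1.tendsto_slope_zero
  have h3 : Tendsto (fun t : ℝ => |t⁻¹ • (F (x + (0 + t) • u) - F (x + (0 : ℝ) • u))|) (𝓝[≠] 0)
      (𝓝 |fderiv ℝ F x u|) := h2.abs
  refine le_of_tendsto h3 ?_
  filter_upwards [self_mem_nhdsWithin] with t ht
  have ht0 : t ≠ 0 := ht
  rw [smul_eq_mul, abs_mul, abs_inv, inv_mul_le_iff₀ (abs_pos.2 ht0)]
  have h4 := hK (x + (0 + t) • u) (x + (0 : ℝ) • u)
  have e : x + (0 + t) • u - (x + (0 : ℝ) • u) = t • u := by
    rw [zero_add, zero_smul, add_zero, add_sub_cancel_left]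
  rw [e, N_smul] at h4
  linarith

/-- the Maurey-Pisier inequality, smooth case -/
theorem mp_smooth (v : ℝ≥0) {F : (ι → ℝ) → ℝ} (hF : ContDiff ℝ 1 F) {K : ℝ}
    (hK : ∀ x y, |F x - F y| ≤ K * N (x - y)) (l : ℝ) :
    ∫⁻ p : (ι → ℝ) × (ι → ℝ), ENNReal.ofReal (Real.exp (l * (F p.2 - F p.1)))
      ∂((gm ι v).prod (gm ι v))
      ≤ ENNReal.ofReal (Real.exp ((Real.pi / 2 * l) ^ 2 * v * K ^ 2 / 2)) := by
  set G : (ι → ℝ) × (ι → ℝ) → ℝ := fun p => fderiv ℝ F p.1 p.2 with hG
  have hGc : Continuous G := hF.continuous_fderiv_apply (by norm_num)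
  have hpi : 0 < Real.pi / 2 := by positivity
  have hrc : ∀ p : (ι → ℝ) × (ι → ℝ),
      Continuous fun θ : ℝ => ContinuousLinearMap.rotation θ p := by
    intro p
    simp only [ContinuousLinearMap.rotation_apply]
    fun_prop
  -- pointwise bound
  have hpt : ∀ p : (ι → ℝ) × (ι → ℝ), ENNReal.ofReal (Real.exp (l * (F p.2 - F p.1)))
      ≤ ENNReal.ofReal (2 / Real.pi) * ∫⁻ θ in Set.Ioc 0 (Real.pi / 2),
        ENNReal.ofReal (Real.exp (Real.pi / 2 * l * G (ContinuousLinearMap.rotation θ p))) := by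
    intro p
    have hd : ∀ θ : ℝ, HasDerivAt (fun θ => F (ContinuousLinearMap.rotation θ p).1)
        (G (ContinuousLinearMap.rotation θ p)) θ := by
      intro θ
      have h1 : HasDerivAt (fun θ : ℝ => Real.cos θ • p.1 + Real.sin θ • p.2)
          (-Real.sin θ • p.1 + Real.cos θ • p.2) θ :=
        ((Real.hasDerivAt_cos θ).smul_const p.1).add ((Real.hasDerivAt_sin θ).smul_const p.2)
      have h2 := (hF.differentiable (by norm_num)
        (Real.cos θ • p.1 + Real.sin θ • p.2)).hasFDerivAt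
      exact h2.comp_hasDerivAt θ h1
    have hcont : Continuous fun θ : ℝ => G (ContinuousLinearMap.rotation θ p) :=
      hGc.comp (hrc p)
    have hFTC : ∫ θ in (0 : ℝ)..(Real.pi / 2), G (ContinuousLinearMap.rotation θ p)
        = F p.2 - F p.1 := by
      rw [intervalIntegral.integral_eq_sub_of_hasDerivAt (fun θ _ => hd θ)
        (hcont.intervalIntegrable _ _)]
      simp [ContinuousLinearMap.rotation_apply]
    set μ : Measure ℝ := volume.restrict (Set.Ioc 0 (Real.pi / 2)) with hμ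
    have hμ1 : μ Set.univ = ENNReal.ofReal (Real.pi / 2) := by
      rw [hμ, Measure.restrict_apply_univ, Real.volume_Ioc, sub_zero]
    have hμne : NeZero μ := ⟨by
      intro h0
      rw [h0] at hμ1
      have h1 : ENNReal.ofReal (Real.pi / 2) = 0 := by simpa using hμ1.symm
      rw [ENNReal.ofReal_eq_zero] at h1
      linarith only [hpi, h1]⟩
    have hμf : IsFiniteMeasure μ := ⟨by rw [hμ1]; exact ENNReal.ofReal_lt_top⟩
    set f : ℝ → ℝ := fun θ => Real.pi / 2 * l * G (ContinuousLinearMap.rotation θ p) with hf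
    have hfc : Continuous f := continuous_const.mul hcont
    have hfi : Integrable f μ := (hfc.integrableOn_Icc (a := 0) (b := Real.pi / 2)).mono_set
      Set.Ioc_subset_Icc_self
    have hfe : Integrable (Real.exp ∘ f) μ :=
      ((Real.continuous_exp.comp hfc).integrableOn_Icc (a := 0) (b := Real.pi / 2)).mono_set
        Set.Ioc_subset_Icc_self
    have hJ := convexOn_exp.map_average_le (μ := μ) (f := f) Real.continuous_exp.continuousOn
      isClosed_univ (Eventually.of_forall fun _ => Set.mem_univ _) hfi hfe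
    have hav : ∀ g : ℝ → ℝ, ⨍ θ, g θ ∂μ = 2 / Real.pi * ∫ θ in (0 : ℝ)..(Real.pi / 2), g θ := by
      intro g
      rw [average_eq, intervalIntegral.integral_of_le hpi.le, smul_eq_mul, Measure.real, hμ1,
        ENNReal.toReal_ofReal hpi.le]
      congr 1
      rw [inv_div]
    rw [hav, hav] at hJ
    have e1 : 2 / Real.pi * ∫ θ in (0 : ℝ)..(Real.pi / 2), f θ = l * (F p.2 - F p.1) := by
      rw [hf, intervalIntegral.integral_const_mul, hFTC]
      field_simp
    rw [e1] at hJ
    refine (ENNReal.ofReal_le_ofReal hJ).trans (le_of_eq ?_)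
    rw [ENNReal.ofReal_mul (by positivity), intervalIntegral.integral_of_le hpi.le]
    congr 1
    exact ofReal_integral_eq_lintegral_ofReal hfe (Eventually.of_forall fun θ => (Real.exp_pos _).le)
  have hmeas : Measurable fun q : ((ι → ℝ) × (ι → ℝ)) × ℝ => ENNReal.ofReal
      (Real.exp (Real.pi / 2 * l * G (ContinuousLinearMap.rotation q.2 q.1))) := by
    apply Continuous.measurable
    apply ENNReal.continuous_ofReal.comp
    apply Real.continuous_exp.comp
    apply continuous_const.mul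
    apply hGc.comp
    simp only [ContinuousLinearMap.rotation_apply]
    fun_prop
  have hJ : ∫⁻ p, ENNReal.ofReal (Real.exp (Real.pi / 2 * l * G p)) ∂((gm ι v).prod (gm ι v))
      ≤ ENNReal.ofReal (Real.exp ((Real.pi / 2 * l) ^ 2 * v * K ^ 2 / 2)) := by
    rw [lintegral_prod _ (by
      apply Continuous.aemeasurable
      exact ENNReal.continuous_ofReal.comp (Real.continuous_exp.comp (continuous_const.mul hGc)))]
    calc ∫⁻ x, ∫⁻ y, ENNReal.ofReal (Real.exp (Real.pi / 2 * l * G (x, y))) ∂(gm ι v) ∂(gm ι v)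
        ≤ ∫⁻ _, ENNReal.ofReal (Real.exp ((Real.pi / 2 * l) ^ 2 * v * K ^ 2 / 2)) ∂(gm ι v) := by
          refine lintegral_mono fun x => ?_
          exact lintegral_exp_dual v (fderiv ℝ F x)
            (fderiv_bound hK (hF.differentiable (by norm_num) x)) _
      _ = _ := by rw [lintegral_const, measure_univ, mul_one]
  calc ∫⁻ p : (ι → ℝ) × (ι → ℝ), ENNReal.ofReal (Real.exp (l * (F p.2 - F p.1)))
        ∂((gm ι v).prod (gm ι v))
      ≤ ∫⁻ p, (ENNReal.ofReal (2 / Real.pi) * ∫⁻ θ in Set.Ioc 0 (Real.pi / 2), ENNReal.ofReal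
        (Real.exp (Real.pi / 2 * l * G (ContinuousLinearMap.rotation θ p))))
          ∂((gm ι v).prod (gm ι v)) := lintegral_mono hpt
    _ = ENNReal.ofReal (2 / Real.pi) * ∫⁻ θ in Set.Ioc 0 (Real.pi / 2), ∫⁻ p, ENNReal.ofReal
        (Real.exp (Real.pi / 2 * l * G (ContinuousLinearMap.rotation θ p)))
          ∂((gm ι v).prod (gm ι v)) := by
        rw [lintegral_const_mul' _ _ ENNReal.ofReal_ne_top, lintegral_lintegral_swap]
        exact hmeas.aemeasurable
    _ = ENNReal.ofReal (2 / Real.pi) * ∫⁻ _ in Set.Ioc 0 (Real.pi / 2), ∫⁻ p, ENNReal.ofReal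
        (Real.exp (Real.pi / 2 * l * G p)) ∂((gm ι v).prod (gm ι v)) := by
        have hθ : ∀ θ : ℝ, ∫⁻ p, ENNReal.ofReal
            (Real.exp (Real.pi / 2 * l * G (ContinuousLinearMap.rotation θ p)))
              ∂((gm ι v).prod (gm ι v))
            = ∫⁻ p, ENNReal.ofReal (Real.exp (Real.pi / 2 * l * G p))
              ∂((gm ι v).prod (gm ι v)) := by
          intro θ
          conv_rhs => rw [← map_rotation v θ]
          rw [lintegral_map]
          · exact (ENNReal.continuous_ofReal.comp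
              (Real.continuous_exp.comp (continuous_const.mul hGc))).measurable
          · exact (ContinuousLinearMap.rotation θ).continuous.measurable
        simp only [hθ]
    _ = ∫⁻ p, ENNReal.ofReal (Real.exp (Real.pi / 2 * l * G p)) ∂((gm ι v).prod (gm ι v)) := by
        rw [lintegral_const, Measure.restrict_apply_univ, Real.volume_Ioc, sub_zero,
          mul_comm (∫⁻ p, _ ∂_), ← mul_assoc, ← ENNReal.ofReal_mul (by positivity)]
        rw [show 2 / Real.pi * (Real.pi / 2) = 1 by field_simp, ENNReal.ofReal_one, one_mul]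
    _ ≤ _ := hJ

end Pool.Agent.BED.H55
end
end -- Pool.Agent.Helper55_BED.GC

section -- Pool.Agent.Helper55_BED.GCFinal

/-!
GC: Gaussian concentration for Lipschitz functions, general case.
-/

set_option autoImplicit false

open MeasureTheory ProbabilityTheory Filter Topology

open scoped ENNReal NNReal BigOperators Convolution

noncomputable section

namespace Pool.Agent.BED.H55

variable {ι : Type} [Fintype ι]

theorem N_le (x : ι → ℝ) {δ : ℝ} (hδ : 0 ≤ δ) (h : ‖x‖ ≤ δ) :
    N x ≤ Real.sqrt (Fintype.card ι) * δ := by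
  rw [N]
  apply Real.sqrt_le_iff.2
  refine ⟨by positivity, ?_⟩
  rw [mul_pow, Real.sq_sqrt (Nat.cast_nonneg _)]
  calc ∑ i, x i ^ 2 ≤ ∑ _i : ι, δ ^ 2 := by
        refine Finset.sum_le_sum fun i _ => ?_
        rw [← sq_abs]
        exact pow_le_pow_left₀ (abs_nonneg _) ((norm_le_pi_norm x i).trans h) 2
    _ = (Fintype.card ι : ℝ) * δ ^ 2 := by
        rw [Finset.sum_const, Finset.card_univ, nsmul_eq_mul]

theorem continuous_N : Continuous (N : (ι → ℝ) → ℝ) := by
  unfold N
  fun_prop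

theorem continuous_of_lip {F : (ι → ℝ) → ℝ} {K : ℝ} (hK : ∀ x y, |F x - F y| ≤ K * N (x - y)) :
    Continuous F := by
  rw [continuous_iff_continuousAt]
  intro x
  rw [ContinuousAt, tendsto_iff_dist_tendsto_zero]
  have h1 : Tendsto (fun y => K * N (y - x)) (𝓝 x) (𝓝 (K * N (x - x))) := by
    apply Continuous.tendsto
    exact continuous_const.mul (continuous_N.comp (continuous_id.sub continuous_const))
  have h0 : N (x - x) = 0 := by simp [N]
  rw [h0, mul_zero] at h1
  refine squeeze_zero (fun _ => dist_nonneg) (fun y => ?_) h1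
  rw [Real.dist_eq]
  exact hK y x

/-- smooth approximation with the same Lipschitz constant -/
theorem exists_smooth {F : (ι → ℝ) → ℝ} {K : ℝ} (hK0 : 0 ≤ K)
    (hK : ∀ x y, |F x - F y| ≤ K * N (x - y)) {ε : ℝ} (hε : 0 < ε) :
    ∃ F' : (ι → ℝ) → ℝ, ContDiff ℝ 1 F' ∧ (∀ x y, |F' x - F' y| ≤ K * N (x - y)) ∧
      ∀ x, |F' x - F x| ≤ ε := by
  have hFc := continuous_of_lip hK
  set δ : ℝ := ε / (K * Real.sqrt (Fintype.card ι) + 1) with hδ
  have hden : 0 < K * Real.sqrt (Fintype.card ι) + 1 := by positivity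
  have hδ0 : 0 < δ := by positivity
  set φ : ContDiffBump (0 : ι → ℝ) := ⟨δ / 2, δ, by positivity, by linarith only [hδ0]⟩ with hφ
  have hi : ∀ x, Integrable (fun t => φ.normed volume t * F (x - t)) := by
    intro x
    apply Continuous.integrable_of_hasCompactSupport
    · exact φ.continuous_normed.mul (hFc.comp (continuous_const.sub continuous_id))
    · exact φ.hasCompactSupport_normed.mul_right
  set F' : (ι → ℝ) → ℝ := φ.normed volume ⋆[ContinuousLinearMap.lsmul ℝ ℝ, volume] F with hF'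
  have hap : ∀ x, F' x = ∫ t, φ.normed volume t * F (x - t) := by
    intro x
    simp only [hF', convolution_def, ContinuousLinearMap.lsmul_apply, smul_eq_mul]
  have hint1 : ∀ c : ℝ, ∫ t, c * φ.normed volume t = c := by
    intro c
    rw [integral_const_mul, φ.integral_normed, mul_one]
  refine ⟨F', ?_, ?_, ?_⟩
  · exact φ.hasCompactSupport_normed.contDiff_convolution_left _ (φ.contDiff_normed (n := 1))
      hFc.locallyIntegrable
  · intro x y
    rw [hap, hap, ← integral_sub (hi x) (hi y), ← Real.norm_eq_abs, ← hint1 (K * N (x - y))]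
    refine norm_integral_le_of_norm_le (φ.integrable_normed.const_mul _)
      (Eventually.of_forall fun t => ?_)
    rw [← mul_sub, norm_mul, Real.norm_of_nonneg (φ.nonneg_normed t), Real.norm_eq_abs, mul_comm]
    refine mul_le_mul_of_nonneg_right ?_ (φ.nonneg_normed t)
    have := hK (x - t) (y - t)
    rwa [show x - t - (y - t) = x - y by abel] at this
  · intro x
    have e : F x = ∫ t, φ.normed volume t * F x := by
      rw [integral_mul_const, φ.integral_normed, one_mul]
    rw [hap]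
    conv_lhs => rw [e]
    rw [← integral_sub (hi x) (φ.integrable_normed.mul_const _), ← Real.norm_eq_abs,
      ← hint1 ε]
    refine norm_integral_le_of_norm_le (φ.integrable_normed.const_mul _)
      (Eventually.of_forall fun t => ?_)
    rw [← mul_sub, norm_mul, Real.norm_of_nonneg (φ.nonneg_normed t), Real.norm_eq_abs]
    by_cases ht : t ∈ Metric.ball (0 : ι → ℝ) δ
    · rw [mul_comm]
      refine mul_le_mul_of_nonneg_right ?_ (φ.nonneg_normed t)
      refine (hK (x - t) x).trans ?_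
      rw [mem_ball_zero_iff] at ht
      have h1 := N_le (x - t - x) hδ0.le (by
        rw [show x - t - x = -t by abel, norm_neg]
        exact ht.le)
      calc K * N (x - t - x) ≤ K * (Real.sqrt (Fintype.card ι) * δ) :=
            mul_le_mul_of_nonneg_left h1 hK0
        _ = K * Real.sqrt (Fintype.card ι) * δ := by ring
        _ ≤ (K * Real.sqrt (Fintype.card ι) + 1) * δ := by
            apply mul_le_mul_of_nonneg_right _ hδ0.le
            linarith only
        _ = ε := by rw [hδ]; field_simp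
    · have h0 : φ.normed volume t = 0 := by
        have : t ∉ Function.support (φ.normed volume) := by
          rw [ContDiffBump.support_normed_eq]
          exact ht
        simpa using this
      rw [h0]
      simp

/-- the Maurey-Pisier inequality -/
theorem mp (v : ℝ≥0) {F : (ι → ℝ) → ℝ} {K : ℝ} (hK0 : 0 ≤ K)
    (hK : ∀ x y, |F x - F y| ≤ K * N (x - y)) (l : ℝ) :
    ∫⁻ p : (ι → ℝ) × (ι → ℝ), ENNReal.ofReal (Real.exp (l * (F p.2 - F p.1)))
      ∂((gm ι v).prod (gm ι v))
      ≤ ENNReal.ofReal (Real.exp ((Real.pi / 2 * l) ^ 2 * v * K ^ 2 / 2)) := by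
  set B : ℝ := (Real.pi / 2 * l) ^ 2 * v * K ^ 2 / 2 with hB
  have key : ∀ ε : ℝ, 0 < ε →
      ∫⁻ p : (ι → ℝ) × (ι → ℝ), ENNReal.ofReal (Real.exp (l * (F p.2 - F p.1)))
        ∂((gm ι v).prod (gm ι v)) ≤ ENNReal.ofReal (Real.exp (2 * |l| * ε + B)) := by
    intro ε hε
    obtain ⟨F', h1, h2, h3⟩ := exists_smooth hK0 hK hε
    have h4 := mp_smooth v h1 h2 l
    calc ∫⁻ p : (ι → ℝ) × (ι → ℝ), ENNReal.ofReal (Real.exp (l * (F p.2 - F p.1)))
          ∂((gm ι v).prod (gm ι v))
        ≤ ∫⁻ p : (ι → ℝ) × (ι → ℝ), ENNReal.ofReal (Real.exp (2 * |l| * ε)) *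
          ENNReal.ofReal (Real.exp (l * (F' p.2 - F' p.1))) ∂((gm ι v).prod (gm ι v)) := by
          refine lintegral_mono fun p => ?_
          rw [← ENNReal.ofReal_mul (Real.exp_pos _).le, ← Real.exp_add]
          apply ENNReal.ofReal_le_ofReal
          rw [Real.exp_le_exp]
          have e1 : l * (F p.2 - F p.1) - l * (F' p.2 - F' p.1)
              = l * ((F' p.1 - F p.1) - (F' p.2 - F p.2)) := by ring
          have e2 : |l * ((F' p.1 - F p.1) - (F' p.2 - F p.2))| ≤ |l| * (ε + ε) := by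
            rw [abs_mul]
            refine mul_le_mul_of_nonneg_left ?_ (abs_nonneg l)
            exact (abs_sub _ _).trans (add_le_add (h3 _) (h3 _))
          have e3 := le_abs_self (l * ((F' p.1 - F p.1) - (F' p.2 - F p.2)))
          linarith only [e2, e3]
      _ = ENNReal.ofReal (Real.exp (2 * |l| * ε)) *
          ∫⁻ p : (ι → ℝ) × (ι → ℝ), ENNReal.ofReal (Real.exp (l * (F' p.2 - F' p.1)))
            ∂((gm ι v).prod (gm ι v)) := lintegral_const_mul' _ _ ENNReal.ofReal_ne_top
      _ ≤ ENNReal.ofReal (Real.exp (2 * |l| * ε)) * ENNReal.ofReal (Real.exp B) := by gcongr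
      _ = _ := by rw [← ENNReal.ofReal_mul (Real.exp_pos _).le, ← Real.exp_add]
  have hlim : Tendsto (fun ε : ℝ => ENNReal.ofReal (Real.exp (2 * |l| * ε + B))) (𝓝[>] 0)
      (𝓝 (ENNReal.ofReal (Real.exp B))) := by
    have h1 : Continuous fun ε : ℝ => ENNReal.ofReal (Real.exp (2 * |l| * ε + B)) := by
      apply ENNReal.continuous_ofReal.comp
      fun_prop
    have h2 := h1.tendsto 0
    rw [mul_zero, zero_add] at h2
    exact h2.mono_left nhdsWithin_le_nhds
  refine ge_of_tendsto hlim ?_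
  filter_upwards [self_mem_nhdsWithin] with ε hε
  exact key ε hε

theorem integrable_exp {v : ℝ≥0} {F : (ι → ℝ) → ℝ} {K : ℝ} (hK0 : 0 ≤ K)
    (hK : ∀ x y, |F x - F y| ≤ K * N (x - y)) (l : ℝ) :
    Integrable (fun x => Real.exp (l * F x)) (gm ι v) := by
  have hFc := continuous_of_lip hK
  have h1 := (mp v hK0 hK l).trans_lt ENNReal.ofReal_lt_top
  have hm : Measurable fun p : (ι → ℝ) × (ι → ℝ) => ENNReal.ofReal
      (Real.exp (l * (F p.2 - F p.1))) := by
    apply Continuous.measurable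
    apply ENNReal.continuous_ofReal.comp
    fun_prop
  rw [lintegral_prod _ hm.aemeasurable] at h1
  have h2 := ae_lt_top (hm.lintegral_prod_right') h1.ne
  obtain ⟨x, hx⟩ := h2.exists
  have h3 : Integrable (fun y => Real.exp (l * (F y - F x))) (gm ι v) := by
    refine ⟨(by fun_prop : Continuous fun y => Real.exp (l * (F y - F x))).aestronglyMeasurable, ?_⟩
    rw [hasFiniteIntegral_iff_ofReal (Eventually.of_forall fun y => (Real.exp_pos _).le)]
    exact hx
  have h4 := h3.mul_const (Real.exp (l * F x))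
  refine h4.congr (Eventually.of_forall fun y => ?_)
  show Real.exp (l * (F y - F x)) * Real.exp (l * F x) = Real.exp (l * F y)
  rw [← Real.exp_add]
  congr 1
  ring

theorem integrable_lip {v : ℝ≥0} {F : (ι → ℝ) → ℝ} {K : ℝ} (hK0 : 0 ≤ K)
    (hK : ∀ x y, |F x - F y| ≤ K * N (x - y)) : Integrable F (gm ι v) := by
  have h1 := (integrable_exp (v := v) hK0 hK 1).add (integrable_exp (v := v) hK0 hK (-1))
  refine h1.mono' (continuous_of_lip hK).aestronglyMeasurable (Eventually.of_forall fun x => ?_)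
  simp only [Pi.add_apply, one_mul, neg_mul, Real.norm_eq_abs]
  have a1 := Real.add_one_le_exp (F x)
  have a2 := Real.add_one_le_exp (-F x)
  have a3 := Real.exp_pos (F x)
  have a4 := Real.exp_pos (-F x)
  rw [abs_le]
  constructor <;> linarith

/-- sub-Gaussian bound -/
theorem subgaussian (v : ℝ≥0) {F : (ι → ℝ) → ℝ} {K : ℝ} (hK0 : 0 ≤ K)
    (hK : ∀ x y, |F x - F y| ≤ K * N (x - y)) :
    HasSubgaussianMGF (fun x => F x - ∫ y, F y ∂(gm ι v))
      (Real.toNNReal (Real.pi ^ 2 / 4 * K ^ 2 * v)) (gm ι v) := by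
  set m : ℝ := ∫ y, F y ∂(gm ι v) with hm
  have hFi := integrable_lip (v := v) hK0 hK
  have hexp : ∀ l : ℝ, Integrable (fun x => Real.exp (l * F x)) (gm ι v) :=
    integrable_exp hK0 hK
  constructor
  · intro t
    have := (hexp t).mul_const (Real.exp (-(t * m)))
    refine this.congr (Eventually.of_forall fun x => ?_)
    show Real.exp (t * F x) * Real.exp (-(t * m)) = Real.exp (t * (F x - m))
    rw [← Real.exp_add]
    congr 1
    ring
  · intro t
    rw [Real.coe_toNNReal _ (by positivity)]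
    have hJ : Real.exp (-t * m) ≤ ∫ x, Real.exp (-t * F x) ∂(gm ι v) := by
      have h1 := convexOn_exp.map_integral_le (μ := gm ι v) (f := fun x => -t * F x)
        Real.continuous_exp.continuousOn isClosed_univ (Eventually.of_forall fun _ => Set.mem_univ _)
        (hFi.const_mul _) (hexp (-t))
      rw [integral_const_mul] at h1
      exact h1
    have e1 : mgf (fun x => F x - m) (gm ι v) t
        = (∫ x, Real.exp (t * F x) ∂(gm ι v)) * Real.exp (-t * m) := by
      rw [mgf, ← integral_mul_const]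
      refine integral_congr_ae (Eventually.of_forall fun x => ?_)
      show Real.exp (t * (F x - m)) = Real.exp (t * F x) * Real.exp (-t * m)
      rw [← Real.exp_add]
      congr 1
      ring
    have h0 : 0 ≤ ∫ x, Real.exp (t * F x) ∂(gm ι v) :=
      integral_nonneg fun x => (Real.exp_pos _).le
    have e2 : (∫ x, Real.exp (t * F x) ∂(gm ι v)) * (∫ x, Real.exp (-t * F x) ∂(gm ι v))
        = ∫ p : (ι → ℝ) × (ι → ℝ), Real.exp (t * (F p.2 - F p.1)) ∂((gm ι v).prod (gm ι v)) := by
      rw [mul_comm, ← integral_prod_mul]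
      refine integral_congr_ae (Eventually.of_forall fun p => ?_)
      show Real.exp (-t * F p.1) * Real.exp (t * F p.2) = Real.exp (t * (F p.2 - F p.1))
      rw [← Real.exp_add]
      congr 1
      ring
    have h3 : ∫ p : (ι → ℝ) × (ι → ℝ), Real.exp (t * (F p.2 - F p.1)) ∂((gm ι v).prod (gm ι v))
        ≤ Real.exp ((Real.pi / 2 * t) ^ 2 * v * K ^ 2 / 2) := by
      have hFc := continuous_of_lip hK
      have h4 : Integrable (fun p : (ι → ℝ) × (ι → ℝ) => Real.exp (t * (F p.2 - F p.1)))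
          ((gm ι v).prod (gm ι v)) := by
        refine ⟨(by fun_prop : Continuous fun p : (ι → ℝ) × (ι → ℝ) =>
          Real.exp (t * (F p.2 - F p.1))).aestronglyMeasurable, ?_⟩
        rw [hasFiniteIntegral_iff_ofReal (Eventually.of_forall fun y => (Real.exp_pos _).le)]
        exact (mp v hK0 hK t).trans_lt ENNReal.ofReal_lt_top
      have h5 := mp v hK0 hK t
      rw [← ofReal_integral_eq_lintegral_ofReal h4
        (Eventually.of_forall fun y => (Real.exp_pos _).le)] at h5
      exact (ENNReal.ofReal_le_ofReal_iff (Real.exp_pos _).le).1 h5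
    rw [e1]
    calc (∫ x, Real.exp (t * F x) ∂(gm ι v)) * Real.exp (-t * m)
        ≤ (∫ x, Real.exp (t * F x) ∂(gm ι v)) * ∫ x, Real.exp (-t * F x) ∂(gm ι v) :=
          mul_le_mul_of_nonneg_left hJ h0
      _ ≤ Real.exp ((Real.pi / 2 * t) ^ 2 * v * K ^ 2 / 2) := by rw [e2]; exact h3
      _ = _ := by
          congr 1
          ring

theorem one_side (v : ℝ≥0) {F : (ι → ℝ) → ℝ} {K : ℝ} (hK0 : 0 < K)
    (hK : ∀ x y, |F x - F y| ≤ K * N (x - y)) {r : ℝ} (hr : 0 ≤ r) :
    (gm ι v) {x | r ≤ F x - ∫ y, F y ∂(gm ι v)}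
      ≤ ENNReal.ofReal (Real.exp (-(r ^ 2) / (5 * K ^ 2 * v))) := by
  have h1 := (subgaussian v hK0.le hK).measure_ge_le hr
  rw [Real.coe_toNNReal _ (by positivity)] at h1
  rw [← ENNReal.ofReal_toReal (measure_ne_top (gm ι v) {x | r ≤ F x - ∫ y, F y ∂(gm ι v)})]
  apply ENNReal.ofReal_le_ofReal
  refine h1.trans ?_
  rw [Real.exp_le_exp]
  rcases eq_or_lt_of_le (show (0 : ℝ) ≤ v from v.2) with h0 | h0
  · rw [← h0]
    simp
  · rw [neg_div, neg_div, neg_le_neg_iff]
    apply div_le_div_of_nonneg_left (sq_nonneg r) (by positivity)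
    have hpi : Real.pi ^ 2 ≤ 10 := by
      have h2 := Real.pi_lt_d2
      have h3 := Real.pi_pos
      nlinarith only [h2, h3]
    have h4 : 0 < K ^ 2 * (v : ℝ) := by positivity
    nlinarith only [hpi, h4]

theorem gc : GCStmt := by
  intro ι _ v F K hK0 hK r hr
  have hK' : ∀ x y, |F x - F y| ≤ K * N (x - y) := hK
  have hneg : ∀ x y, |(fun z => -F z) x - (fun z => -F z) y| ≤ K * N (x - y) := by
    intro x y
    have := hK' x y
    rw [abs_sub_comm] at this
    rw [show (fun z => -F z) x - (fun z => -F z) y = F y - F x by ring]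
    exact this
  have h1 := one_side v hK0 hK' hr
  have h2 := one_side v hK0 hneg hr
  rw [integral_neg] at h2
  have hsub : {x | r ≤ |F x - ∫ y, F y ∂(gm ι v)|} ⊆
      {x | r ≤ F x - ∫ y, F y ∂(gm ι v)} ∪ {x | r ≤ -F x - -∫ y, F y ∂(gm ι v)} := by
    intro x hx
    have hx' : r ≤ |F x - ∫ y, F y ∂(gm ι v)| := hx
    rcases le_abs.1 hx' with h | h
    · exact Or.inl h
    · right
      show r ≤ -F x - -∫ y, F y ∂(gm ι v)
      linarith
  refine (measure_mono hsub).trans ((measure_union_le _ _).trans ?_)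
  refine (add_le_add h1 h2).trans (le_of_eq ?_)
  rw [← ENNReal.ofReal_add (Real.exp_pos _).le (Real.exp_pos _).le]
  congr 1
  ring

end Pool.Agent.BED.H55
end
end -- Pool.Agent.Helper55_BED.GCFinal

section -- Pool.Agent.Helper61_BED.Orth

/-!
# Module ORTH of squad BED
-/

set_option autoImplicit false

open MeasureTheory ProbabilityTheory

open scoped ENNReal NNReal BigOperators InnerProductSpace

noncomputable section

namespace Pool.Agent.BED.H61

open Matrix Pool.Agent.Anderson Pool.Agent.Loc Pool.Agent.BED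

variable {d : ℕ}

theorem eigen_orth {S : Set (Site d)} {W : Site d → ℝ} {E E' : ℝ} (hne : E ≠ E') {f g : L2 d}
    (hf : IsEigenOn S W E f) (hg : IsEigenOn S W E' g) : ⟪f, g⟫_ℂ = 0 := by
  have h := inner_Lap f g
  have s1 := lp.summable_inner (𝕜 := ℂ) (Lap d f) g
  have s2 := lp.summable_inner (𝕜 := ℂ) f (Lap d g)
  rw [lp.inner_eq_tsum, lp.inner_eq_tsum, ← sub_eq_zero, ← s1.tsum_sub s2] at h
  have h2 : ∀ x, ⟪Lap d f x, g x⟫_ℂ - ⟪f x, Lap d g x⟫_ℂ = ((E - E' : ℝ) : ℂ) * ⟪f x, g x⟫_ℂ := by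
    intro x
    by_cases hx : x ∈ S
    · have e1 : Lap d f x = ((E - W x : ℝ) : ℂ) * f x := by
        rw [Lap_apply]
        have := hf.2 x hx
        push_cast
        linear_combination this
      have e2 : Lap d g x = ((E' - W x : ℝ) : ℂ) * g x := by
        rw [Lap_apply]
        have := hg.2 x hx
        push_cast
        linear_combination this
      rw [e1, e2]
      simp only [RCLike.inner_apply, map_mul, Complex.conj_ofReal]
      push_cast
      ring
    · rw [hf.1 x hx, hg.1 x hx]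
      simp
  simp only [h2] at h
  rw [tsum_mul_left, ← lp.inner_eq_tsum] at h
  rcases mul_eq_zero.1 h with h3 | h3
  · exfalso
    have : E - E' = 0 := by exact_mod_cast h3
    exact hne (by linarith)
  · exact h3

theorem norm_sq_sum {J : Finset ℝ} {v : ℝ → L2 d}
    (h : ∀ E ∈ J, ∀ E' ∈ J, E ≠ E' → ⟪v E, v E'⟫_ℂ = 0) :
    ‖(∑ E ∈ J, v E : L2 d)‖ ^ 2 = ∑ E ∈ J, ‖v E‖ ^ 2 := by
  induction J using Finset.induction_on with
  | empty => simp
  | insert a s ha ih =>
    rw [Finset.sum_insert ha, Finset.sum_insert ha, ← ih fun E hE E' hE' hne =>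
      h E (Finset.mem_insert_of_mem hE) E' (Finset.mem_insert_of_mem hE') hne]
    have h0 : ⟪v a, ∑ E ∈ s, v E⟫_ℂ = 0 := by
      rw [inner_sum]
      refine Finset.sum_eq_zero fun E hE => ?_
      refine h a (Finset.mem_insert_self a s) E (Finset.mem_insert_of_mem hE) ?_
      rintro rfl
      exact ha hE
    have := norm_add_sq_eq_norm_sq_add_norm_sq_of_inner_eq_zero (v a) (∑ E ∈ s, v E) h0
    rw [sq, sq, sq]
    exact this

/-- ORTH -/
theorem orth : OrthStmt := by
  intro d S W J u hu c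
  rw [norm_sq_sum]
  · refine Finset.sum_congr rfl fun E _ => ?_
    rw [norm_smul, mul_pow, Complex.norm_real, Real.norm_eq_abs, sq_abs]
  · intro E hE E' hE' hne
    rw [inner_smul_left, inner_smul_right, eigen_orth hne (hu E hE) (hu E' hE')]
    simp

end Pool.Agent.BED.H61
end
end -- Pool.Agent.Helper61_BED.Orth

section -- Pool.Agent.Helper61_BED.Trans

/-!
# Module TRANS of squad BED
-/

set_option autoImplicit false

open MeasureTheory ProbabilityTheory

open scoped ENNReal NNReal BigOperators InnerProductSpace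

noncomputable section

namespace Pool.Agent.BED.H61

open Matrix Pool.Agent.Anderson Pool.Agent.Loc Pool.Agent.BED

variable {d M : ℕ}

/-- reduction modulo `M` -/
def red (M : ℕ) (y : Site d) : Tor d M := fun i => (y i : ZMod M)

theorem rep_red [NeZero M] {y : Site d} {R : ℕ} (hR : 2 * R < M) (hy : ∀ i, |y i| ≤ R) :
    rep (red M y) = y := by
  funext i
  unfold rep red
  rw [ZMod.valMinAbs_spec]
  refine ⟨rfl, ?_⟩
  have h := abs_le.1 (hy i)
  have hR' : (2 * R : ℤ) < M := by exact_mod_cast hR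
  rw [Set.mem_Ioc]
  constructor <;> linarith only [h.1, h.2, hR]

theorem red_add (y : Site d) (i : Fin d) : red M (y + Pi.single i 1) = red M y + ev i := by
  funext j
  by_cases h : j = i
  · subst h; simp [red, ev]
  · simp [red, ev, h]

theorem red_sub (y : Site d) (i : Fin d) : red M (y - Pi.single i 1) = red M y - ev i := by
  funext j
  by_cases h : j = i
  · subst h; simp [red, ev]
  · simp [red, ev, h]

theorem rep_inj [NeZero M] : Function.Injective (rep : Tor d M → Site d) := by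
  intro x y h
  funext i
  exact ZMod.injective_valMinAbs (congrFun h i)

theorem TM_mulVec [NeZero M] (z : ℝ) (V f : Tor d M → ℝ) (x : Tor d M) :
    (TM z V *ᵥ f) x = (1 - 1 / (8 * (d : ℝ)) * (z - V x)) * f x
      + 1 / (8 * (d : ℝ)) * ∑ i : Fin d, (f (x + ev i) + f (x - ev i)) := by
  unfold TM
  rw [Matrix.sub_mulVec, Matrix.one_mulVec, Matrix.smul_mulVec, Pi.sub_apply, Pi.smul_apply,
    AM_mulVec, smul_eq_mul]
  ring

section

variable {S : Set (Site d)} {W : Site d → ℝ} {J : Finset ℝ} {u : ℝ → L2 d}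

/-- combinations of the eigenfunctions -/
def comb (J : Finset ℝ) (u : ℝ → L2 d) (a : ℝ → ℝ) : L2 d := ∑ E ∈ J, (a E : ℂ) • u E

theorem comb_apply (a : ℝ → ℝ) (x : Site d) :
    comb J u a x = ∑ E ∈ J, (a E : ℂ) * u E x := by
  unfold comb
  rw [coe_sum_apply]
  rfl

theorem comb_step (hu : ∀ E ∈ J, IsEigenOn S W E (u E)) (t z : ℝ) (a : ℝ → ℝ)
    {x : Site d} (hx : x ∈ S) :
    comb J u (fun E => a E * (1 - t * (z - E))) x
      = ((1 - t * (z - W x) : ℝ) : ℂ) * comb J u a x
        + (t : ℂ) * ∑ i : Fin d, (comb J u a (x + Pi.single i 1) + comb J u a (x - Pi.single i 1)) := by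
  have h1 : ∑ i : Fin d, (comb J u a (x + Pi.single i 1) + comb J u a (x - Pi.single i 1))
      = ∑ E ∈ J, (a E : ℂ) * lap (u E) x := by
    simp only [comb_apply, ← Finset.sum_add_distrib]
    rw [Finset.sum_comm]
    refine Finset.sum_congr rfl fun E _ => ?_
    unfold lap
    rw [Finset.mul_sum]
    refine Finset.sum_congr rfl fun i _ => ?_
    ring
  rw [h1, comb_apply, comb_apply, Finset.mul_sum, Finset.mul_sum, ← Finset.sum_add_distrib]
  refine Finset.sum_congr rfl fun E hE => ?_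
  have := (hu E hE).2 x hx
  push_cast
  linear_combination (-(t : ℂ) * (a E : ℂ)) * this

theorem comb_out (hu : ∀ E ∈ J, IsEigenOn S W E (u E)) (a : ℝ → ℝ)
    {x : Site d} (hx : x ∉ S) : comb J u a x = 0 := by
  rw [comb_apply]
  refine Finset.sum_eq_zero fun E hE => ?_
  rw [(hu E hE).1 x hx, mul_zero]

/-- finite propagation speed -/
theorem prop_speed [NeZero M] (hd : 1 ≤ d) (hu : ∀ E ∈ J, IsEigenOn S W E (u E)) {R : ℕ}
    (hR : 2 * R < M) {z : ℝ} (hz : z ≤ 2 * d + 1) (hV : ∀ x : Tor d M, -1 ≤ W (rep x))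
    (c : ℝ → ℝ) : ∀ k : ℕ, k ≤ R → ∀ y : Site d, (∀ i, |y i| ≤ (R : ℤ) - k) →
      ‖comb J u (fun E => c E * (1 - 1 / (8 * (d : ℝ)) * (z - E)) ^ k) y‖
        ≤ ((TM z fun x : Tor d M => W (rep x)) ^ k *ᵥ fun x => ‖comb J u c (rep x)‖) (red M y) := by
  have hd' : (1 : ℝ) ≤ d := by exact_mod_cast hd
  have ht : 0 < 1 / (8 * (d : ℝ)) := by positivity
  intro k
  induction k with
  | zero =>
    intro _ y hy
    simp only [pow_zero, mul_one, Matrix.one_mulVec]
    rw [rep_red hR (fun i => by simpa using hy i)]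
  | succ k ih =>
    intro hk y hy
    have hk' : k ≤ R := by omega
    have hyR : ∀ i, |y i| ≤ R := fun i => by
      have := hy i
      push_cast at this
      linarith only [this]
    have hrep : rep (red M y) = y := rep_red hR hyR
    rw [pow_succ', ← Matrix.mulVec_mulVec, TM_mulVec, hrep]
    set F : Tor d M → ℝ := (TM z fun x : Tor d M => W (rep x)) ^ k *ᵥ fun x => ‖comb J u c (rep x)‖
      with hF
    set a : ℝ → ℝ := fun E => c E * (1 - 1 / (8 * (d : ℝ)) * (z - E)) ^ k with ha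
    have hW : -1 ≤ W y := by
      have := hV (red M y)
      rwa [hrep] at this
    have hcoef : 0 ≤ 1 - 1 / (8 * (d : ℝ)) * (z - W y) := by
      have h1 : 1 / (8 * (d : ℝ)) * (z - W y) ≤ 1 / (8 * (d : ℝ)) * (8 * d) :=
        mul_le_mul_of_nonneg_left (by linarith only [hz, hd', hW]) ht.le
      have h2 : 1 / (8 * (d : ℝ)) * (8 * d) = 1 := by field_simp
      linarith only [h1, h2]
    have b0 : ‖comb J u a y‖ ≤ F (red M y) := ih hk' y fun i => by
      have := hy i
      push_cast at this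
      linarith only [this]
    have b1 : ∀ i, ‖comb J u a (y + Pi.single i 1)‖ ≤ F (red M y + ev i) := by
      intro i
      rw [← red_add]
      refine ih hk' _ fun j => ?_
      have h1 := abs_le.1 (hy j)
      push_cast at h1
      rw [abs_le, Pi.add_apply]
      by_cases h : j = i
      · subst h; simp only [Pi.single_eq_same]; constructor <;> linarith only [h1.1, h1.2]
      · simp only [Pi.single_eq_of_ne h]; constructor <;> linarith only [h1.1, h1.2]
    have b2 : ∀ i, ‖comb J u a (y - Pi.single i 1)‖ ≤ F (red M y - ev i) := by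
      intro i
      rw [← red_sub]
      refine ih hk' _ fun j => ?_
      have h1 := abs_le.1 (hy j)
      push_cast at h1
      rw [abs_le, Pi.sub_apply]
      by_cases h : j = i
      · subst h; simp only [Pi.single_eq_same]; constructor <;> linarith only [h1.1, h1.2]
      · simp only [Pi.single_eq_of_ne h]; constructor <;> linarith only [h1.1, h1.2]
    have e : (fun E => c E * (1 - 1 / (8 * (d : ℝ)) * (z - E)) ^ (k + 1))
        = fun E => a E * (1 - 1 / (8 * (d : ℝ)) * (z - E)) := by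
      funext E
      rw [ha]; ring
    have hRHS : ‖comb J u a y‖ * (1 - 1 / (8 * (d : ℝ)) * (z - W y))
        + 1 / (8 * (d : ℝ)) * ∑ i : Fin d, (‖comb J u a (y + Pi.single i 1)‖
          + ‖comb J u a (y - Pi.single i 1)‖)
        ≤ (1 - 1 / (8 * (d : ℝ)) * (z - W y)) * F (red M y)
          + 1 / (8 * (d : ℝ)) * ∑ i : Fin d, (F (red M y + ev i) + F (red M y - ev i)) := by
      refine add_le_add ?_ ?_
      · rw [mul_comm]
        exact mul_le_mul_of_nonneg_left b0 hcoef
      · refine mul_le_mul_of_nonneg_left ?_ ht.le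
        exact Finset.sum_le_sum fun i _ => add_le_add (b1 i) (b2 i)
    refine le_trans ?_ hRHS
    rw [e]
    by_cases hy' : y ∈ S
    · rw [comb_step hu (1 / (8 * (d : ℝ))) z a hy']
      refine (norm_add_le _ _).trans (add_le_add ?_ ?_)
      · rw [norm_mul, Complex.norm_real, Real.norm_of_nonneg hcoef, mul_comm]
      · rw [norm_mul, Complex.norm_real, Real.norm_of_nonneg ht.le]
        refine mul_le_mul_of_nonneg_left ?_ ht.le
        refine (norm_sum_le _ _).trans ?_
        exact Finset.sum_le_sum fun i _ => norm_add_le _ _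
    · rw [comb_out hu _ hy', norm_zero]
      positivity

end

theorem sum_rep_le [NeZero M] (w : L2 d) : ∑ x : Tor d M, ‖w (rep x)‖ ^ 2 ≤ ‖w‖ ^ 2 := by
  rw [L2.norm_sq]
  have h := (L2.summable_sq w).sum_le_tsum (Finset.univ.map ⟨rep, rep_inj (d := d) (M := M)⟩)
    (fun x _ => by positivity)
  rw [Finset.sum_map] at h
  exact h

/-- TRANS -/
theorem trans (hH : HeatStmt) (hO : OrthStmt) : TransStmt := by
  intro d M _ hd r hr hM z μ W hμ hz hflat lam hlam1 hlam2 S J u hJ hu x hx
  have hd' : (1 : ℝ) ≤ d := by exact_mod_cast hd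
  have hr' : (1 : ℝ) ≤ r := by exact_mod_cast hr
  have hlam0 : 0 < lam := lt_of_lt_of_le (by positivity) hlam1
  obtain ⟨hV, hP, hD⟩ := hflat
  set V : Tor d M → ℝ := fun x => W (rep x) with hVdef
  have heat := hH d M hd z V (49 / 50 * μ) hz hV hP (by positivity)
    (fun x => by have := (abs_le.1 (hD x)).1; linarith)
    (fun x => by have := (abs_le.1 (hD x)).2; linarith)
  obtain ⟨-, -, hphi, -⟩ := heat
  set n : ℕ := ⌊1 / lam⌋₊ with hn
  have hn1 : (n : ℝ) ≤ 1 / lam := Nat.floor_le (by positivity)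
  have hn2 : 1 / lam < n + 1 := Nat.lt_floor_add_one _
  have hnr : n ≤ r := by
    have h1 : 1 / lam ≤ r := by
      rw [div_le_iff₀ hlam0]
      rw [div_le_iff₀ (by linarith only [hr'])] at hlam1
      linarith only [hlam1]
    have : (n : ℝ) ≤ r := hn1.trans h1
    exact_mod_cast this
  have hM2 : n + 1 ≤ M ^ 2 := by nlinarith only [hr, hM, hnr]
  have hR : 2 * (2 * r + 1) < M := by omega
  set t : ℝ := 1 / (8 * (d : ℝ)) with ht
  have ht0 : 0 < t := by positivity
  have ht8 : t ≤ 1 / 8 := by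
    rw [ht]
    apply one_div_le_one_div_of_le (by norm_num)
    linarith only [hd']
  -- the coefficients
  set q : ℝ → ℝ := fun E => 1 - t * (z - E) with hq
  have hq0 : ∀ E ∈ J, 1 - t * lam ≤ q E := by
    intro E hE
    have h1 := hJ E hE
    have h2 := mul_le_mul_of_nonneg_left (show z - E ≤ lam by linarith only [h1]) ht0.le
    simp only [hq]; linarith only [h2]
  have hs0 : 0 < 1 - t * lam := by nlinarith only [hlam2, ht0, ht8]
  have hqpos : ∀ E ∈ J, 0 < q E := fun E hE => hs0.trans_le (hq0 E hE)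
  set c : ℝ → ℝ := fun E => (q E ^ n)⁻¹ with hc
  have hbound := prop_speed hd hu hR hz hV c n (by omega) x (fun i => by
    have := hx i
    push_cast
    have h3 : (n : ℤ) ≤ r := by exact_mod_cast hnr
    linarith only [hnr, this])
  -- the combination is the sum
  have hv : comb J u (fun E => c E * (1 - 1 / (8 * (d : ℝ)) * (z - E)) ^ n) x
      = (∑ E ∈ J, u E : L2 d) x := by
    rw [comb_apply, coe_sum_apply]
    refine Finset.sum_congr rfl fun E hE => ?_
    have h1 : c E * (1 - 1 / (8 * (d : ℝ)) * (z - E)) ^ n = 1 := by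
      have := (hqpos E hE).ne'
      simp only [hc, ← ht, hq] at this ⊢
      exact inv_mul_cancel₀ (pow_ne_zero _ this)
    rw [h1]; simp
  rw [hv] at hbound
  -- the norm of the combination
  have hw : ‖comb J u c‖ ^ 2 ≤ 3 * ‖(∑ E ∈ J, u E : L2 d)‖ ^ 2 := by
    have e1 := hO d S W J u hu c
    have e2 := hO d S W J u hu (fun _ => 1)
    have e3 : (∑ E ∈ J, (((1 : ℝ) : ℂ)) • u E : L2 d) = ∑ E ∈ J, u E := by
      refine Finset.sum_congr rfl fun E _ => ?_
      simp
    rw [e3] at e2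
    unfold comb
    rw [e1, e2, Finset.mul_sum]
    refine Finset.sum_le_sum fun E hE => ?_
    have h1 : c E ^ 2 ≤ 3 := by
      have hb : 1 + (2 * n : ℕ) * (-(t * lam)) ≤ (1 + -(t * lam)) ^ (2 * n) :=
        one_add_mul_le_pow (by nlinarith only [ht0, ht8, hs0]) _
      have h2 : (3 / 4 : ℝ) ≤ (1 - t * lam) ^ (2 * n) := by
        have h3 : (n : ℝ) * lam ≤ 1 := by
          have := mul_le_mul_of_nonneg_right hn1 hlam0.le
          rwa [one_div, inv_mul_cancel₀ hlam0.ne'] at this
        have h4 : t * (n * lam) ≤ 1 / 8 * 1 := mul_le_mul ht8 h3 (by positivity) (by norm_num)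
        push_cast at hb
        rw [sub_eq_add_neg]
        linarith only [h4, hb]
      have h5 : (1 - t * lam) ^ (2 * n) ≤ (q E) ^ (2 * n) := pow_le_pow_left₀ hs0.le (hq0 E hE) _
      have h6 : c E ^ 2 = ((q E) ^ (2 * n))⁻¹ := by
        simp only [hc]
        rw [inv_pow, ← pow_mul, mul_comm n 2]
      rw [h6]
      have h7 : (3 / 4 : ℝ) ≤ (q E) ^ (2 * n) := h2.trans h5
      calc ((q E) ^ (2 * n))⁻¹ ≤ (3 / 4 : ℝ)⁻¹ := inv_anti₀ (by norm_num) h7
        _ ≤ 3 := by norm_num
    have h8 : (0 : ℝ) ≤ ‖u E‖ ^ 2 := by positivity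
    calc c E ^ 2 * ‖u E‖ ^ 2 ≤ 3 * ‖u E‖ ^ 2 := mul_le_mul_of_nonneg_right h1 h8
      _ = 3 * ((1 : ℝ) ^ 2 * ‖u E‖ ^ 2) := by ring
  -- Cauchy-Schwarz
  have hcs : ((TM z V) ^ n *ᵥ fun x => ‖comb J u c (rep x)‖) (red M x)
      ≤ Real.sqrt (∑ y, (((TM z V) ^ n) (red M x) y) ^ 2) *
        Real.sqrt (∑ y : Tor d M, ‖comb J u c (rep y)‖ ^ 2) :=
    Real.sum_mul_le_sqrt_mul_sqrt _ _ _
  have hfin : ‖(∑ E ∈ J, u E : L2 d) x‖ ^ 2 ≤
      (∑ y, (((TM z V) ^ n) (red M x) y) ^ 2) * (∑ y : Tor d M, ‖comb J u c (rep y)‖ ^ 2) := by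
    have h1 := hbound.trans hcs
    have h2 := pow_le_pow_left₀ (norm_nonneg _) h1 2
    rw [mul_pow, Real.sq_sqrt (Finset.sum_nonneg fun y _ => sq_nonneg _),
      Real.sq_sqrt (Finset.sum_nonneg fun y _ => by positivity)] at h2
    exact h2
  have hK0 : 0 ≤ KH d := by unfold KH; positivity
  have hpow : ((n : ℝ) + 1) ^ (-(d : ℝ) / 2) ≤ lam ^ ((d : ℝ) / 2) := by
    have h1 : (1 / lam) ^ ((d : ℝ) / 2) ≤ ((n : ℝ) + 1) ^ ((d : ℝ) / 2) :=
      Real.rpow_le_rpow (by positivity) hn2.le (by positivity)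
    rw [neg_div, Real.rpow_neg (by positivity)]
    have h2 : (1 / lam) ^ ((d : ℝ) / 2) = (lam ^ ((d : ℝ) / 2))⁻¹ := by
      rw [one_div, Real.inv_rpow hlam0.le]
    rw [h2] at h1
    have h3 : 0 < lam ^ ((d : ℝ) / 2) := Real.rpow_pos_of_pos hlam0 _
    calc (((n : ℝ) + 1) ^ ((d : ℝ) / 2))⁻¹ ≤ ((lam ^ ((d : ℝ) / 2))⁻¹)⁻¹ :=
          inv_anti₀ (by positivity) h1
      _ = _ := inv_inv _
  have h1 : ∑ y, (((TM z V) ^ n) (red M x) y) ^ 2 ≤ KH d * lam ^ ((d : ℝ) / 2) :=
    (hphi (red M x) n hM2).trans (mul_le_mul_of_nonneg_left hpow hK0)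
  have h2 : ∑ y : Tor d M, ‖comb J u c (rep y)‖ ^ 2 ≤ 3 * ‖(∑ E ∈ J, u E : L2 d)‖ ^ 2 :=
    (sum_rep_le _).trans hw
  have h3 : 0 < lam ^ ((d : ℝ) / 2) := Real.rpow_pos_of_pos hlam0 _
  calc ‖(∑ E ∈ J, u E : L2 d) x‖ ^ 2 ≤ _ := hfin
    _ ≤ (KH d * lam ^ ((d : ℝ) / 2)) * (3 * ‖(∑ E ∈ J, u E : L2 d)‖ ^ 2) :=
        mul_le_mul h1 h2 (Finset.sum_nonneg fun y _ => by positivity) (by positivity)
    _ = _ := by ring

end Pool.Agent.BED.H61
end
end -- Pool.Agent.Helper61_BED.Trans

section -- Pool.Agent.Helper73_BED.Edge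

/-!
# Band edge delocalization: module EDGE (no eigenvalues beyond `z` in boxes)
-/

set_option autoImplicit false

open scoped BigOperators

noncomputable section

namespace Pool.Agent.BED.H73

open Matrix Pool.Agent.Anderson Pool.Agent.Loc Pool.Agent.BED

variable {d M : ℕ}

theorem rep_inj : Function.Injective (rep : Tor d M → Site d) := by
  intro x y h
  funext i
  have := congrFun h i
  exact (ZMod.valMinAbs_inj).1 this

theorem rep_coe [NeZero M] (y : Site d) (hy : ∀ i, 2 * |y i| < M) :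
    rep (fun i => ((y i : ℤ) : ZMod M)) = y := by
  funext i
  unfold rep
  rw [ZMod.valMinAbs_spec]
  refine ⟨rfl, ?_⟩
  have := hy i
  constructor
  · have := neg_abs_le (y i)
    linarith
  · have := le_abs_self (y i)
    linarith

theorem rep_add_ev [NeZero M] (x : Tor d M) (hx : ∀ i, 2 * (|rep x i| + 1) < M) (i : Fin d) :
    rep (x + ev i) = rep x + Pi.single i 1 := by
  funext j
  have hj := hx j
  change (x j + (ev i : Tor d M) j).valMinAbs = (x j).valMinAbs + (Pi.single i 1 : Site d) j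
  change 2 * (|(x j).valMinAbs| + 1) < (M : ℤ) at hj
  by_cases h : j = i
  · subst h
    have e1 : (ev j : Tor d M) j = 1 := by unfold ev; simp
    rw [e1, Pi.single_eq_same, ZMod.valMinAbs_spec]
    refine ⟨by push_cast; simp, ?_⟩
    have h1 := neg_abs_le (x j).valMinAbs
    have h2 := le_abs_self (x j).valMinAbs
    constructor <;> linarith
  · have e1 : (ev i : Tor d M) j = 0 := by unfold ev; rw [Pi.single_eq_of_ne h]
    rw [e1, Pi.single_eq_of_ne h, add_zero, add_zero]

theorem rep_sub_ev [NeZero M] (x : Tor d M) (hx : ∀ i, 2 * (|rep x i| + 1) < M) (i : Fin d) :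
    rep (x - ev i) = rep x - Pi.single i 1 := by
  funext j
  have hj := hx j
  change (x j - (ev i : Tor d M) j).valMinAbs = (x j).valMinAbs - (Pi.single i 1 : Site d) j
  change 2 * (|(x j).valMinAbs| + 1) < (M : ℤ) at hj
  by_cases h : j = i
  · subst h
    have e1 : (ev j : Tor d M) j = 1 := by unfold ev; simp
    rw [e1, Pi.single_eq_same, ZMod.valMinAbs_spec]
    refine ⟨by push_cast; simp, ?_⟩
    have h1 := neg_abs_le (x j).valMinAbs
    have h2 := le_abs_self (x j).valMinAbs
    constructor <;> linarith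
  · have e1 : (ev i : Tor d M) j = 0 := by unfold ev; rw [Pi.single_eq_of_ne h]
    rw [e1, Pi.single_eq_of_ne h, sub_zero, sub_zero]

/-- The sum over the neighbours of a function supported in `Λ`. -/
theorem sum_nb (Λ : Finset (Site d)) (F : Site d → ℝ) (hF : ∀ y, y ∉ Λ → F y = 0) (y : Site d) :
    ∑ i : Fin d, (F (y + Pi.single i 1) + F (y - Pi.single i 1)) = ∑ w ∈ Λ, hop y w * F w := by
  have h := sum_hop y (box y 1 ∪ Λ) Finset.subset_union_left F
  simp only [smul_eq_mul] at h
  rw [← h]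
  symm
  refine Finset.sum_subset Finset.subset_union_right fun w _ hw => ?_
  rw [hF w hw, mul_zero]

/-- The quadratic form on the torus for a function supported in a small set. -/
theorem quad_torus [NeZero M] (z : ℝ) (U : Site d → ℝ) (Λ : Finset (Site d))
    (hΛ : ∀ y ∈ Λ, ∀ i, 2 * (|y i| + 1) < (M : ℤ)) (F : Site d → ℝ)
    (hF : ∀ y, y ∉ Λ → F y = 0) :
    ∑ x : Tor d M, F (rep x) * (AM z (fun x => U (rep x)) *ᵥ fun x => F (rep x)) x =
      ∑ y ∈ Λ, F y * ((z - U y) * F y - ∑ w ∈ Λ, hop y w * F w) := by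
  set G : Site d → ℝ := fun y => F y * ((z - U y) * F y - ∑ w ∈ Λ, hop y w * F w) with hG
  have h1 : ∀ x : Tor d M,
      F (rep x) * (AM z (fun x => U (rep x)) *ᵥ fun x => F (rep x)) x = G (rep x) := by
    intro x
    by_cases hx : rep x ∈ Λ
    · have hb := hΛ _ hx
      rw [AM_mulVec, hG]
      simp only
      rw [← sum_nb Λ F hF (rep x)]
      simp only [rep_add_ev x hb, rep_sub_ev x hb]
    · rw [hG]
      simp only [hF _ hx, zero_mul]
  simp only [h1]
  have h2 : ∑ x : Tor d M, G (rep x) = ∑ y ∈ Finset.univ.image (rep : Tor d M → Site d), G y := by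
    rw [Finset.sum_image (fun x _ y _ h => rep_inj h)]
  rw [h2]
  symm
  refine Finset.sum_subset (fun y hy => ?_) fun y _ hy => ?_
  · rw [Finset.mem_image]
    refine ⟨fun i => ((y i : ℤ) : ZMod M), Finset.mem_univ _, rep_coe y fun i => ?_⟩
    have := hΛ y hy i
    linarith only [this]
  · change F y * _ = 0
    rw [hF _ hy, zero_mul]

/-- Signs. -/
def sg (y : Site d) : ℝ := if Even (∑ i, y i) then 1 else -1

theorem sg_sq (y : Site d) : sg y * sg y = 1 := by
  unfold sg; split_ifs <;> norm_num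

theorem sum_single_add (y : Site d) (i : Fin d) (t : ℤ) :
    ∑ j, (y + Pi.single i t : Site d) j = ∑ j, y j + t := by
  simp [Finset.sum_add_distrib]

theorem hop_sg (y w : Site d) : hop y w * sg w = - (hop y w * sg y) := by
  unfold hop
  rw [Finset.sum_mul, Finset.sum_mul, ← Finset.sum_neg_distrib]
  refine Finset.sum_congr rfl fun i _ => ?_
  have key : ∀ t : ℤ, (t = 1 ∨ t = -1) → w = y + Pi.single i t → sg w = - sg y := by
    intro t ht h
    unfold sg
    rw [h, sum_single_add]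
    rcases ht with ht | ht <;> rw [ht]
    · by_cases he : Even (∑ j, y j)
      · rw [if_pos he, if_neg]
        rw [Int.even_add_one, not_not]
        exact he
      · rw [if_neg he, if_pos]
        · ring
        · rw [Int.even_add_one]; exact he
    · by_cases he : Even (∑ j, y j)
      · rw [if_pos he, if_neg]
        rw [← sub_eq_add_neg, Int.even_sub_one, not_not]
        exact he
      · rw [if_neg he, if_pos]
        · ring
        · rw [← sub_eq_add_neg, Int.even_sub_one]; exact he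
  have e1 : (if w = y + Pi.single i 1 then (1 : ℝ) else 0) * sg w =
      - ((if w = y + Pi.single i 1 then (1 : ℝ) else 0) * sg y) := by
    split_ifs with h
    · rw [key 1 (Or.inl rfl) h]; ring
    · ring
  have e2 : (if w = y - Pi.single i 1 then (1 : ℝ) else 0) * sg w =
      - ((if w = y - Pi.single i 1 then (1 : ℝ) else 0) * sg y) := by
    split_ifs with h
    · rw [key (-1) (Or.inr rfl) (by rw [h, sub_eq_add_neg, Pi.single_neg])]; ring
    · ring
  rw [add_mul, e1, e2, add_mul]; ring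

/-- Module EDGE. -/
theorem edge : EdgeStmt := by
  intro d M _ _ r hr z μ W _ x₀ L hL hH
  set Λ := box x₀ L with hΛdef
  have hΛ : ∀ y ∈ Λ, ∀ i, 2 * (|y i| + 1) < (M : ℤ) := by
    intro y hy i
    rw [hΛdef, mem_box] at hy
    have h1 := sd_le_iff.1 hy i
    have h2 := hL i
    have h3 : |y i| ≤ |x₀ i| + |x₀ i - y i| := by
      calc |y i| = |x₀ i - (x₀ i - y i)| := by ring_nf
        _ ≤ |x₀ i| + |x₀ i - y i| := abs_sub _ _
    have h4 : (4 * (r : ℤ) + 3) ≤ M := by exact_mod_cast hr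
    linarith only [hr, h1, h2, h3]
  have key : ∀ (v : Λ → ℝ) (E : ℝ), v ≠ 0 → HM W Λ *ᵥ v = E • v → ∀ (U : Site d → ℝ)
      (s : Site d → ℝ) (δ : ℝ), (∀ y, s y * s y = 1) → (∀ y, U y = δ * W y) →
      (∀ y w, hop y w * s w = δ * (hop y w * s y)) → δ * δ = 1 →
      (AM z (fun x : Tor d M => U (rep x))).PosDef → 0 < z - δ * E := by
    intro v E hv hE U s δ hs hU hhop hδ hP
    classical
    set F : Site d → ℝ := fun y => if h : y ∈ Λ then s y * v ⟨y, h⟩ else 0 with hFdef
    have hF : ∀ y, y ∉ Λ → F y = 0 := fun y hy => by rw [hFdef]; simp only [dif_neg hy]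
    have hF1 : ∀ y : Λ, F y = s y * v y := fun y => by
      rw [hFdef]; simp only [dif_pos y.2]
    have hq := quad_torus (M := M) z U Λ hΛ F hF
    have hrhs : ∑ y ∈ Λ, F y * ((z - U y) * F y - ∑ w ∈ Λ, hop y w * F w) =
        (z - δ * E) * ∑ y : Λ, v y ^ 2 := by
      rw [← Finset.sum_coe_sort Λ, Finset.mul_sum]
      refine Finset.sum_congr rfl fun y _ => ?_
      have hE' := congrFun hE y
      have h1 : ∑ w ∈ Λ, hop (y : Site d) w * F w = δ * s y * ∑ w : Λ, hop (y : Site d) w * v w := by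
        rw [← Finset.sum_coe_sort Λ, Finset.mul_sum]
        refine Finset.sum_congr rfl fun w _ => ?_
        rw [hF1]
        calc hop (y : Site d) w * (s w * v w) = (hop (y : Site d) w * s w) * v w := by ring
          _ = _ := by rw [hhop]; ring
      have h2 : (HM W Λ *ᵥ v) y = ∑ w : Λ, hop (y : Site d) w * v w + W y * v y := by
        unfold HM
        simp only [Matrix.mulVec, dotProduct, Matrix.of_apply, add_mul, Finset.sum_add_distrib]
        congr 1
        simp
      have h3 : ∑ w : Λ, hop (y : Site d) w * v w = E * v y - W y * v y := by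
        rw [h2] at hE'
        simp only [Pi.smul_apply, smul_eq_mul] at hE'
        linarith only [hE']
      rw [h1, h3, hF1, hU]
      have h4 := hs y
      calc s y * v y * ((z - δ * W y) * (s y * v y) - δ * s y * (E * v y - W y * v y))
          = (s y * s y) * ((z - δ * E) * v y ^ 2) := by ring
        _ = (z - δ * E) * v y ^ 2 := by rw [h4, one_mul]
    have hne : (fun x : Tor d M => F (rep x)) ≠ 0 := by
      obtain ⟨y, hy⟩ := Function.ne_iff.1 hv
      intro h0
      have := congrFun h0 (fun i => (((y : Site d) i : ℤ) : ZMod M))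
      simp only [Pi.zero_apply] at this
      rw [rep_coe (y : Site d) (fun i => by have := hΛ y y.2 i; linarith only [this]), hF1] at this
      rcases mul_eq_zero.1 this with h | h
      · have h4 := hs y
        rw [h] at h4
        norm_num at h4
      · exact hy h
    have hpos := pos_of_posDef hP hne
    rw [hq, hrhs] at hpos
    have hsum : 0 ≤ ∑ y : Λ, v y ^ 2 := Finset.sum_nonneg fun y _ => sq_nonneg _
    by_contra hcon
    have : (z - δ * E) * ∑ y : Λ, v y ^ 2 ≤ 0 :=
      mul_nonpos_of_nonpos_of_nonneg (not_lt.1 hcon) hsum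
    linarith only [hpos, this]
  have hev : ∀ i, HM W Λ *ᵥ (hH.eigenvectorBasis i : Λ → ℝ) =
      hH.eigenvalues i • (hH.eigenvectorBasis i : Λ → ℝ) := fun i =>
    hH.mulVec_eigenvectorBasis i
  have hev0 : ∀ i, (hH.eigenvectorBasis i : Λ → ℝ) ≠ 0 := by
    intro i h0
    have h1 : hH.eigenvectorBasis i ≠ 0 := by
      intro h
      have := hH.eigenvectorBasis.orthonormal.1 i
      rw [h, norm_zero] at this
      exact zero_ne_one this
    apply h1
    ext y
    exact congrFun h0 y
  constructor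
  · intro hflat i
    have := key _ _ (hev0 i) (hev i) W (fun _ => 1) 1 (fun _ => by norm_num) (fun _ => by ring)
      (fun _ _ => by ring) (by norm_num) hflat.2.1
    linarith
  · intro hflat i
    have := key _ _ (hev0 i) (hev i) (fun y => - W y) sg (-1) sg_sq (fun _ => by ring)
      (fun y w => by rw [hop_sg]; ring) (by norm_num) hflat.2.1
    linarith

end Pool.Agent.BED.H73
end
end -- Pool.Agent.Helper73_BED.Edge

section -- Pool.Agent.Helper73_BED.Tent

/-!
# Band edge delocalization: tents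
-/

set_option autoImplicit false

open scoped BigOperators

noncomputable section

namespace Pool.Agent.BED.H73

open Pool.Agent.Anderson Pool.Agent.Loc Pool.Agent.BED

variable {d : ℕ}

/-- the tent of height `k` -/
def tent (k : ℕ) (s : ℤ) : ℝ := max ((k : ℝ) - |(s : ℝ)|) 0

theorem tent_nonneg (k : ℕ) (s : ℤ) : 0 ≤ tent k s := le_max_right _ _

theorem tent_zero (k : ℕ) : tent k 0 = k := by
  unfold tent
  simp

theorem tent_eq_zero {k : ℕ} {s : ℤ} (h : (k : ℤ) ≤ |s|) : tent k s = 0 := by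
  unfold tent
  apply max_eq_right
  have : (k : ℝ) ≤ |(s : ℝ)| := by exact_mod_cast h
  linarith

theorem tent_ge (k : ℕ) (s : ℤ) : (k : ℝ) - |(s : ℝ)| ≤ tent k s := le_max_left _ _

theorem tent_step (k : ℕ) (s t : ℤ) (h : |s - t| ≤ 1) : (tent k s - tent k t) ^ 2 ≤ 1 := by
  have h1 : |tent k s - tent k t| ≤ 1 := by
    unfold tent
    refine (abs_max_sub_max_le_abs _ _ _).trans ?_
    have e : ((k : ℝ) - |(s : ℝ)|) - ((k : ℝ) - |(t : ℝ)|) = |(t : ℝ)| - |(s : ℝ)| := by ring
    rw [e]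
    refine (abs_abs_sub_abs_le_abs_sub _ _).trans ?_
    rw [abs_sub_comm]
    exact_mod_cast h
  rw [← sq_abs]
  have := abs_nonneg (tent k s - tent k t)
  nlinarith

theorem sum_tent_sq (k : ℕ) (c : ℤ) :
    (k : ℝ) ^ 3 / 4 ≤ ∑ s ∈ Finset.Icc (c - k) (c + k), tent k (s - c) ^ 2 := by
  have h1 : ∑ s ∈ Finset.Icc (c - (k / 2 : ℕ)) (c + (k / 2 : ℕ)), ((k : ℝ) / 2) ^ 2 ≤
      ∑ s ∈ Finset.Icc (c - (k / 2 : ℕ)) (c + (k / 2 : ℕ)), tent k (s - c) ^ 2 := by
    refine Finset.sum_le_sum fun s hs => ?_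
    rw [Finset.mem_Icc] at hs
    have h2 : |s - c| ≤ ((k / 2 : ℕ) : ℤ) := abs_le.2 ⟨by linarith [hs.1], by linarith [hs.2]⟩
    have h3 : |((s - c : ℤ) : ℝ)| ≤ ((k / 2 : ℕ) : ℝ) := by
      have h3' : ((|s - c| : ℤ) : ℝ) ≤ (((k / 2 : ℕ) : ℤ) : ℝ) := Int.cast_le.2 h2
      rw [Int.cast_abs, Int.cast_natCast] at h3'
      exact h3'
    have h4 : ((k / 2 : ℕ) : ℝ) ≤ (k : ℝ) / 2 := by
      have := @Nat.cast_div_le ℝ _ _ _ k 2
      simpa using this
    have h5 := tent_ge k (s - c)
    have h6 : (k : ℝ) / 2 ≤ tent k (s - c) := by linarith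
    have h7 : (0 : ℝ) ≤ (k : ℝ) / 2 := by positivity
    gcongr
  have h8 : ∑ s ∈ Finset.Icc (c - (k / 2 : ℕ)) (c + (k / 2 : ℕ)), tent k (s - c) ^ 2 ≤
      ∑ s ∈ Finset.Icc (c - k) (c + k), tent k (s - c) ^ 2 := by
    refine Finset.sum_le_sum_of_subset_of_nonneg ?_ fun _ _ _ => sq_nonneg _
    refine Finset.Icc_subset_Icc ?_ ?_ <;> push_cast <;> omega
  refine le_trans ?_ (h1.trans h8)
  rw [Finset.sum_const, Int.card_Icc, nsmul_eq_mul]
  have h9 : (c + (k / 2 : ℕ) + 1 - (c - (k / 2 : ℕ))).toNat = 2 * (k / 2) + 1 := by omega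
  rw [h9]
  have h10 : (k : ℝ) ≤ ((2 * (k / 2) + 1 : ℕ) : ℝ) := by
    exact_mod_cast (by omega : k ≤ 2 * (k / 2) + 1)
  have h11 : (0 : ℝ) ≤ ((k : ℝ) / 2) ^ 2 := by positivity
  calc (k : ℝ) ^ 3 / 4 = k * ((k : ℝ) / 2) ^ 2 := by ring
    _ ≤ _ := mul_le_mul_of_nonneg_right h10 h11

theorem sum_tent_diff (k : ℕ) (hk : 1 ≤ k) (c : ℤ) :
    ∑ s ∈ Finset.Icc (c - k) (c + k), (tent k (s + 1 - c) - tent k (s - c)) ^ 2 ≤
      (12 / (k : ℝ) ^ 2) * ∑ s ∈ Finset.Icc (c - k) (c + k), tent k (s - c) ^ 2 := by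
  have h1 : ∑ s ∈ Finset.Icc (c - k) (c + k), (tent k (s + 1 - c) - tent k (s - c)) ^ 2 ≤
      3 * k := by
    calc ∑ s ∈ Finset.Icc (c - k) (c + k), (tent k (s + 1 - c) - tent k (s - c)) ^ 2
        ≤ ∑ s ∈ Finset.Icc (c - k) (c + k), (1 : ℝ) := Finset.sum_le_sum fun s _ =>
          tent_step k _ _ (by rw [show s + 1 - c - (s - c) = 1 by ring]; simp)
      _ = ((2 * k + 1 : ℕ) : ℝ) := by
          rw [Finset.sum_const, Int.card_Icc, nsmul_eq_mul, mul_one]
          congr 1
          omega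
      _ ≤ 3 * k := by exact_mod_cast (by omega : 2 * k + 1 ≤ 3 * k)
  have h2 := sum_tent_sq k c
  have hk' : (0 : ℝ) < k := by exact_mod_cast hk
  calc _ ≤ 3 * (k : ℝ) := h1
    _ = (12 / (k : ℝ) ^ 2) * ((k : ℝ) ^ 3 / 4) := by field_simp; ring
    _ ≤ _ := mul_le_mul_of_nonneg_left h2 (by positivity)

/-- the product of tents with centre `c` -/
def chi (k : ℕ) (c y : Site d) : ℝ := ∏ i, tent k (y i - c i)

theorem chi_self {k : ℕ} (hk : 1 ≤ k) (c : Site d) : chi k c c ≠ 0 := by
  unfold chi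
  rw [Finset.prod_ne_zero_iff]
  intro i _
  rw [sub_self, tent_zero]
  exact_mod_cast (by omega : k ≠ 0)

theorem lt_of_chi {k : ℕ} {c y : Site d} (h : chi k c y ≠ 0) (i : Fin d) : |y i - c i| < k := by
  by_contra hcon
  exact h (Finset.prod_eq_zero (Finset.mem_univ i) (tent_eq_zero (not_lt.1 hcon)))

theorem box_eq_pi (c : Site d) (k : ℕ) :
    box c k = Fintype.piFinset fun i => Finset.Icc (c i - k) (c i + k) := by
  ext y
  rw [box, Finset.mem_Icc, Fintype.mem_piFinset]
  constructor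
  · intro h i
    exact Finset.mem_Icc.2 ⟨h.1 i, h.2 i⟩
  · intro h
    exact ⟨fun i => (Finset.mem_Icc.1 (h i)).1, fun i => (Finset.mem_Icc.1 (h i)).2⟩

theorem sum_chi_diff (k : ℕ) (hk : 1 ≤ k) (c : Site d) (i : Fin d) :
    ∑ y ∈ box c k, (chi k c (y + Pi.single i 1) - chi k c y) ^ 2 ≤
      (12 / (k : ℝ) ^ 2) * ∑ y ∈ box c k, chi k c y ^ 2 := by
  classical
  set a : Fin d → ℤ → ℝ := fun j s =>
    if j = i then (tent k (s + 1 - c j) - tent k (s - c j)) ^ 2 else tent k (s - c j) ^ 2 with ha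
  have h1 : ∀ y : Site d, (chi k c (y + Pi.single i 1) - chi k c y) ^ 2 = ∏ j, a j (y j) := by
    intro y
    have e1 : chi k c (y + Pi.single i 1) =
        tent k (y i + 1 - c i) * ∏ j ∈ Finset.univ.erase i, tent k (y j - c j) := by
      unfold chi
      rw [← Finset.mul_prod_erase Finset.univ _ (Finset.mem_univ i)]
      congr 1
      · simp
      · refine Finset.prod_congr rfl fun j hj => ?_
        have : j ≠ i := (Finset.mem_erase.1 hj).1
        simp [this]
    have e2 : chi k c y =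
        tent k (y i - c i) * ∏ j ∈ Finset.univ.erase i, tent k (y j - c j) := by
      unfold chi
      rw [← Finset.mul_prod_erase Finset.univ _ (Finset.mem_univ i)]
    have e3 : ∏ j, a j (y j) = (tent k (y i + 1 - c i) - tent k (y i - c i)) ^ 2 *
        ∏ j ∈ Finset.univ.erase i, tent k (y j - c j) ^ 2 := by
      rw [← Finset.mul_prod_erase Finset.univ _ (Finset.mem_univ i)]
      congr 1
      · simp [ha]
      · refine Finset.prod_congr rfl fun j hj => ?_
        have : j ≠ i := (Finset.mem_erase.1 hj).1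
        simp [ha, this]
    rw [e1, e2, e3, Finset.prod_pow]
    ring
  have h2 : ∀ y : Site d, chi k c y ^ 2 = ∏ j, tent k (y j - c j) ^ 2 := by
    intro y
    unfold chi
    rw [Finset.prod_pow]
  simp only [h1, h2]
  rw [box_eq_pi, ← Finset.prod_univ_sum (fun j => Finset.Icc (c j - k) (c j + k)) a,
    ← Finset.prod_univ_sum (fun j => Finset.Icc (c j - k) (c j + k))
      (fun j s => tent k (s - c j) ^ 2),
    ← Finset.mul_prod_erase Finset.univ _ (Finset.mem_univ i),
    ← Finset.mul_prod_erase Finset.univ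
      (fun j => ∑ s ∈ Finset.Icc (c j - k) (c j + k), tent k (s - c j) ^ 2) (Finset.mem_univ i),
    ← mul_assoc]
  have h3 : ∏ j ∈ Finset.univ.erase i, ∑ s ∈ Finset.Icc (c j - k) (c j + k), a j s =
      ∏ j ∈ Finset.univ.erase i, ∑ s ∈ Finset.Icc (c j - k) (c j + k), tent k (s - c j) ^ 2 := by
    refine Finset.prod_congr rfl fun j hj => Finset.sum_congr rfl fun s _ => ?_
    have : j ≠ i := (Finset.mem_erase.1 hj).1
    simp [ha, this]
  rw [h3]
  refine mul_le_mul_of_nonneg_right ?_ (Finset.prod_nonneg fun j _ =>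
    Finset.sum_nonneg fun s _ => sq_nonneg _)
  have h4 := sum_tent_diff k hk (c i)
  have h5 : ∑ s ∈ Finset.Icc (c i - k) (c i + k), a i s =
      ∑ s ∈ Finset.Icc (c i - k) (c i + k), (tent k (s + 1 - c i) - tent k (s - c i)) ^ 2 := by
    refine Finset.sum_congr rfl fun s _ => ?_
    simp [ha]
  rw [h5]
  exact h4

end Pool.Agent.BED.H73
end
end -- Pool.Agent.Helper73_BED.Tent

section -- Pool.Agent.Helper73_BED.Count

/-!
# Band edge delocalization: module COUNT (many eigenvalues near the top in boxes)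
-/

set_option autoImplicit false

open scoped BigOperators

noncomputable section

namespace Pool.Agent.BED.H73

open Matrix Pool.Agent.Anderson Pool.Agent.Loc Pool.Agent.BED

variable {d M : ℕ}

/-- Sums over the torus of functions supported in a small set. -/
theorem sum_rep [NeZero M] (S : Finset (Site d)) (hS : ∀ y ∈ S, ∀ i, 2 * |y i| < (M : ℤ))
    (G : Site d → ℝ) (hG : ∀ y, y ∉ S → G y = 0) : ∑ x : Tor d M, G (rep x) = ∑ y ∈ S, G y := by
  have h2 : ∑ x : Tor d M, G (rep x) = ∑ y ∈ Finset.univ.image (rep : Tor d M → Site d), G y := by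
    rw [Finset.sum_image (fun x _ y _ h => rep_inj h)]
  rw [h2]
  symm
  refine Finset.sum_subset (fun y hy => ?_) fun y _ hy => hG y hy
  rw [Finset.mem_image]
  exact ⟨fun i => ((y i : ℤ) : ZMod M), Finset.mem_univ _, rep_coe y (hS y hy)⟩

/-- The energy on the torus of a tent function. -/
theorem energy_chi [NeZero M] (k : ℕ) (hk : 1 ≤ k) (c : Site d)
    (hc : ∀ i, 2 * (|c i| + k + 1) < (M : ℤ)) :
    energy (fun x : Tor d M => chi k c (rep x)) ≤
      (12 * d / (k : ℝ) ^ 2) * ∑ x : Tor d M, chi k c (rep x) ^ 2 := by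
  have habs : ∀ y : Site d, ∀ i, |y i - c i| ≤ k → |y i| ≤ |c i| + k := by
    intro y i h
    calc |y i| = |c i + (y i - c i)| := by ring_nf
      _ ≤ |c i| + |y i - c i| := abs_add_le _ _
      _ ≤ _ := by linarith only [h]
  have hbox : ∀ y ∈ box c k, ∀ i, 2 * |y i| < (M : ℤ) := by
    intro y hy i
    rw [mem_box, sd_comm] at hy
    have h1 := habs y i (sd_le_iff.1 hy i)
    have h2 := hc i
    linarith only [h1, h2]
  have hchi0 : ∀ y, y ∉ box c k → chi k c y = 0 := by
    intro y hy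
    by_contra hne
    apply hy
    rw [mem_box, sd_comm, sd_le_iff]
    intro i
    have := lt_of_chi hne i
    linarith only [this]
  have hdiff0 : ∀ i y, y ∉ box c k →
      (chi k c (y + Pi.single i 1) - chi k c y) ^ 2 = 0 := by
    intro i y hy
    have h2 : chi k c (y + Pi.single i 1) = 0 := by
      by_contra hne
      apply hy
      rw [mem_box, sd_comm, sd_le_iff]
      intro j
      have h1 := lt_of_chi hne j
      rw [Pi.add_apply] at h1
      have h3 : |(Pi.single i 1 : Site d) j| ≤ 1 := by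
        by_cases h : j = i
        · subst h; simp
        · simp [h]
      have h4 : |y j - c j| ≤ |y j + (Pi.single i 1 : Site d) j - c j| +
          |(Pi.single i 1 : Site d) j| := by
        calc |y j - c j| = |(y j + (Pi.single i 1 : Site d) j - c j) -
              (Pi.single i 1 : Site d) j| := by ring_nf
          _ ≤ _ := abs_sub _ _
      have h5 : |y j + (Pi.single i 1 : Site d) j - c j| + 1 ≤ k := h1
      linarith only [h1, h3, h4]
    rw [h2, hchi0 y hy]; ring
  have hterm : ∀ (x : Tor d M) (i : Fin d),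
      (chi k c (rep (x + ev i)) - chi k c (rep x)) ^ 2 ≤
        (chi k c (rep x + Pi.single i 1) - chi k c (rep x)) ^ 2 := by
    intro x i
    by_cases h : chi k c (rep (x + ev i)) = 0 ∧ chi k c (rep x) = 0
    · rw [h.1, h.2]
      rw [sub_self, sub_zero]
      nlinarith only [sq_nonneg (chi k c (rep x + Pi.single i 1))]
    · have hr : rep (x + ev i) = rep x + Pi.single i 1 := by
        by_cases h2 : chi k c (rep x) = 0
        · have h1 : chi k c (rep (x + ev i)) ≠ 0 := fun h1 => h ⟨h1, h2⟩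
          have h3 := rep_sub_ev (x + ev i) (fun j => by
            have h4 := habs _ j (lt_of_chi h1 j).le
            have h5 := hc j
            linarith only [h4, h5]) i
          rw [add_sub_cancel_right] at h3
          rw [h3, sub_add_cancel]
        · exact rep_add_ev x (fun j => by
            have h4 := habs _ j (lt_of_chi h2 j).le
            have h5 := hc j
            linarith) i
      rw [hr]
  have hE : energy (fun x : Tor d M => chi k c (rep x)) ≤
      ∑ i : Fin d, ∑ y ∈ box c k, (chi k c (y + Pi.single i 1) - chi k c y) ^ 2 := by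
    unfold energy
    rw [Finset.sum_comm]
    refine Finset.sum_le_sum fun i _ => ?_
    rw [← sum_rep (M := M) (box c k) hbox
      (fun y => (chi k c (y + Pi.single i 1) - chi k c y) ^ 2) (hdiff0 i)]
    exact Finset.sum_le_sum fun x _ => hterm x i
  refine hE.trans ?_
  rw [sum_rep (M := M) (box c k) hbox (fun y => chi k c y ^ 2)
    (fun y hy => by simp [hchi0 y hy])]
  calc ∑ i : Fin d, ∑ y ∈ box c k, (chi k c (y + Pi.single i 1) - chi k c y) ^ 2
      ≤ ∑ _i : Fin d, (12 / (k : ℝ) ^ 2) * ∑ y ∈ box c k, chi k c y ^ 2 :=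
        Finset.sum_le_sum fun i _ => sum_chi_diff k hk c i
    _ = _ := by
      rw [Finset.sum_const, Finset.card_univ, Fintype.card_fin, nsmul_eq_mul]; ring

/-- The quadratic form of the test function. -/
theorem form_test [NeZero M] (k : ℕ) (hk : 1 ≤ k) (c : Site d)
    (hc : ∀ i, 2 * (|c i| + k + 1) < (M : ℤ)) {z μ lam : ℝ} {V : Tor d M → ℝ} (hμ : 0 < μ)
    (hV : Flat z μ V) (h10 : 10 / μ ≤ lam) (hlk : 26 * d ≤ lam * (k : ℝ) ^ 2) :
    ∑ x, (DD z V x * chi k c (rep x)) * (AM z V *ᵥ fun y => DD z V y * chi k c (rep y)) x ≤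
      lam * ∑ x, (DD z V x * chi k c (rep x)) ^ 2 := by
  rw [AM_doob z V (DD z V) (fun y => chi k c (rep y)), AM_DD hV.2.1]
  have hlo : ∀ x, 0.98 * μ ≤ DD z V x := fun x => by
    have := (abs_le.1 (hV.2.2 x)).1
    linarith
  have hhi : ∀ x, DD z V x ≤ 1.02 * μ := fun x => by
    have := (abs_le.1 (hV.2.2 x)).2
    linarith
  have hk' : (0 : ℝ) < k := by exact_mod_cast hk
  have hpos : ∀ x, 0 ≤ DD z V x := fun x => (DD_pos hV.2.1 x).le
  set X : ℝ := ∑ x : Tor d M, chi k c (rep x) ^ 2 with hX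
  have hX0 : 0 ≤ X := Finset.sum_nonneg fun x _ => sq_nonneg _
  have h1 : ∑ x : Tor d M, ∑ i : Fin d, DD z V x * DD z V (x + ev i) *
      (chi k c (rep (x + ev i)) - chi k c (rep x)) ^ 2 ≤
        (1.02 * μ) ^ 2 * energy (fun x : Tor d M => chi k c (rep x)) := by
    unfold energy
    rw [Finset.mul_sum]
    refine Finset.sum_le_sum fun x _ => ?_
    rw [Finset.mul_sum]
    refine Finset.sum_le_sum fun i _ => ?_
    refine mul_le_mul_of_nonneg_right ?_ (sq_nonneg _)
    rw [sq]
    exact mul_le_mul (hhi x) (hhi _) (hpos _) (by positivity)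
  have h2 : ∑ x : Tor d M, DD z V x * (1 : Tor d M → ℝ) x * chi k c (rep x) ^ 2 ≤
      (1.02 * μ) * X := by
    rw [hX, Finset.mul_sum]
    refine Finset.sum_le_sum fun x _ => ?_
    rw [Pi.one_apply, mul_one]
    exact mul_le_mul_of_nonneg_right (hhi x) (sq_nonneg _)
  have h3 : (0.98 * μ) ^ 2 * X ≤ ∑ x, (DD z V x * chi k c (rep x)) ^ 2 := by
    rw [hX, Finset.mul_sum]
    refine Finset.sum_le_sum fun x _ => ?_
    rw [mul_pow (DD z V x)]
    refine mul_le_mul_of_nonneg_right ?_ (sq_nonneg _)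
    exact pow_le_pow_left₀ (by positivity) (hlo x) 2
  have h4 := energy_chi (M := M) k hk c hc
  have hlam : 10 ≤ lam * μ := by
    rw [div_le_iff₀ hμ] at h10
    exact h10
  have hlam0 : 0 < lam := by
    by_contra hcon
    have : lam * μ ≤ 0 := mul_nonpos_of_nonpos_of_nonneg (not_lt.1 hcon) hμ.le
    linarith only [hlam, this]
  have h5 : 12 * (d : ℝ) / (k : ℝ) ^ 2 ≤ (12 / 26) * lam := by
    rw [div_le_iff₀ (by positivity)]
    nlinarith only [hlk]
  have h6 : (1.02 * μ) ^ 2 * energy (fun x : Tor d M => chi k c (rep x)) ≤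
      (1.02 * μ) ^ 2 * ((12 / 26) * lam * X) := by
    refine mul_le_mul_of_nonneg_left (h4.trans ?_) (by positivity)
    exact mul_le_mul_of_nonneg_right h5 hX0
  have h7 : (1.02 * μ) * X ≤ 0.102 * (lam * μ) * μ * X := by
    have : (0 : ℝ) ≤ μ * X := mul_nonneg hμ.le hX0
    nlinarith only [hlam, this]
  calc _ ≤ (1.02 * μ) ^ 2 * ((12 / 26) * lam * X) + 0.102 * (lam * μ) * μ * X := by linarith
    _ = (1.02 ^ 2 * (12 / 26) + 0.102) * (lam * μ ^ 2 * X) := by ring
    _ ≤ 0.98 ^ 2 * (lam * μ ^ 2 * X) := by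
        refine mul_le_mul_of_nonneg_right (by norm_num) (by positivity)
    _ = lam * ((0.98 * μ) ^ 2 * X) := by ring
    _ ≤ _ := mul_le_mul_of_nonneg_left h3 hlam0.le

/-- The class of a lattice point on the torus. -/
def cls (M : ℕ) (y : Site d) : Tor d M := fun i => ((y i : ℤ) : ZMod M)

theorem cls_rep [NeZero M] (x : Tor d M) : cls M (rep x) = x := by
  funext i
  exact ZMod.coe_valMinAbs (x i)

theorem exists_k {d : ℕ} (hd : 1 ≤ d) {lam : ℝ} (h0 : 0 < lam) (h1 : lam ≤ 1) :
    ∃ k : ℕ, 1 ≤ k ∧ 26 * (d : ℝ) ≤ lam * (k : ℝ) ^ 2 ∧ lam * (k : ℝ) ^ 2 ≤ 104 * d := by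
  have hd' : (1 : ℝ) ≤ d := by exact_mod_cast hd
  set t : ℝ := Real.sqrt (26 * d / lam) with ht
  have hfrac : 1 ≤ 26 * (d : ℝ) / lam := by
    rw [le_div_iff₀ h0]; linarith only [h1, hd']
  have ht1 : 1 ≤ t := by
    rw [ht]
    exact Real.one_le_sqrt.2 hfrac
  have htsq : lam * t ^ 2 = 26 * d := by
    rw [ht, Real.sq_sqrt (by positivity)]
    field_simp
  refine ⟨⌈t⌉₊, ?_, ?_, ?_⟩
  · exact Nat.one_le_ceil_iff.2 (by linarith only [ht1])
  · rw [← htsq]
    refine mul_le_mul_of_nonneg_left ?_ h0.le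
    exact pow_le_pow_left₀ (by linarith only [ht1]) (Nat.le_ceil t) 2
  · have h2 : (⌈t⌉₊ : ℝ) ≤ 2 * t := by
      have := (Nat.ceil_lt_add_one (by linarith only [ht1] : 0 ≤ t)).le
      linarith only [ht1, this]
    calc lam * (⌈t⌉₊ : ℝ) ^ 2 ≤ lam * (2 * t) ^ 2 := by
          refine mul_le_mul_of_nonneg_left ?_ h0.le
          exact pow_le_pow_left₀ (by positivity) h2 2
      _ = 4 * (lam * t ^ 2) := by ring
      _ = _ := by rw [htsq]; ring

/-- Module COUNT. -/
theorem count (hmm : MinmaxStmt) : CountStmt := by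
  intro d hd
  have hd' : (1 : ℝ) ≤ d := by exact_mod_cast hd
  have hC1 : (1 : ℝ) ≤ 1664 * d := by linarith only [hd']
  refine ⟨(1664 * d) ^ d, by positivity, ?_⟩
  intro M _ r hr z μ W hμ hflat x₀ L hL hH lam h10 hlam1 hCL
  have hlam : 10 ≤ lam * μ := by
    rw [div_le_iff₀ hμ] at h10
    exact h10
  have hlam0 : 0 < lam := by
    by_contra hcon
    have : lam * μ ≤ 0 := mul_nonpos_of_nonpos_of_nonneg (not_lt.1 hcon) hμ.le
    linarith only [hlam, this]
  obtain ⟨k, hk1, hklo, hkhi⟩ := exists_k hd hlam0 hlam1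
  have hCd : 1664 * (d : ℝ) ≤ (1664 * d) ^ d := by
    calc 1664 * (d : ℝ) = (1664 * d) ^ 1 := by ring
      _ ≤ _ := pow_le_pow_right₀ hC1 hd
  -- `4 k ≤ L`
  have h4k : 4 * k ≤ L := by
    have h1 : lam * (4 * (k : ℝ)) ^ 2 ≤ lam * (L : ℝ) ^ 2 := by
      calc lam * (4 * (k : ℝ)) ^ 2 = 16 * (lam * (k : ℝ) ^ 2) := by ring
        _ ≤ 16 * (104 * (d : ℝ)) := by linarith only [hkhi]
        _ = 1664 * (d : ℝ) := by ring
        _ ≤ _ := hCd.trans hCL
    have h2 : (4 * (k : ℝ)) ^ 2 ≤ (L : ℝ) ^ 2 := le_of_mul_le_mul_left h1 hlam0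
    have h3 : 4 * (k : ℝ) ≤ L := le_of_sq_le_sq h2 (by positivity)
    exact_mod_cast h3
  set Λ := box x₀ L with hΛdef
  set N : ℕ := (L + 1 - k) / (2 * k) with hN
  have hN1 : 2 * k * N + k ≤ L + 1 := by
    have := Nat.div_mul_le_self (L + 1 - k) (2 * k)
    have h2 : 2 * k * N ≤ L + 1 - k := by rw [hN]; linarith only [this]
    omega
  have hN2 : L + 2 ≤ 2 * k * N + 3 * k := by
    have h1 := Nat.lt_div_mul_add (a := L + 1 - k) (b := 2 * k) (by omega)
    have h2 : (L + 1 - k) < 2 * k * N + 2 * k := by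
      calc (L + 1 - k) < (L + 1 - k) / (2 * k) * (2 * k) + 2 * k := h1
        _ = _ := by rw [hN]; ring
    omega
  -- centres
  set cen : Site d → Site d := fun n i => x₀ i + 2 * k * n i with hcen
  set V : Tor d M → ℝ := fun x => W (rep x) with hV
  have hcenb : ∀ n ∈ box (0 : Site d) N, ∀ i, |cen n i - x₀ i| + k ≤ L + 1 := by
    intro n hn i
    rw [mem_box, sd_comm] at hn
    have h1 := sd_le_iff.1 hn i
    simp only [Pi.zero_apply, sub_zero] at h1
    have e : cen n i - x₀ i = (2 * k) * n i := by rw [hcen]; ring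
    rw [e, abs_mul, abs_of_nonneg (by positivity : (0 : ℤ) ≤ 2 * k)]
    have h2 : (2 * (k : ℤ)) * |n i| ≤ 2 * k * N := mul_le_mul_of_nonneg_left h1 (by positivity)
    have h3 : (2 * (k : ℤ) * N + k) ≤ L + 1 := by exact_mod_cast hN1
    linarith only [hN1, h2]
  have hrM : (4 * (r : ℤ) + 3) ≤ M := by exact_mod_cast hr
  have hxr : ∀ i, |x₀ i| + L ≤ r := fun i => hL i
  have hL4 : (4 * (k : ℤ)) ≤ L := by exact_mod_cast h4k
  have hk1' : (1 : ℤ) ≤ k := by exact_mod_cast hk1
  have hcenr : ∀ n ∈ box (0 : Site d) N, ∀ i, 2 * (|cen n i| + k + 1) < (M : ℤ) := by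
    intro n hn i
    have h1 := hcenb n hn i
    have h2 := hxr i
    have h3 : |cen n i| ≤ |x₀ i| + |cen n i - x₀ i| := by
      calc |cen n i| = |x₀ i + (cen n i - x₀ i)| := by ring_nf
        _ ≤ _ := abs_add_le _ _
    have h4 := abs_nonneg (x₀ i)
    linarith only [hr, hk1, h4k, h1, h2, h3, h4]
  have hΛr : ∀ y ∈ Λ, ∀ i, 2 * (|y i| + 1) < (M : ℤ) := by
    intro y hy i
    rw [hΛdef, mem_box, sd_comm] at hy
    have h1 := sd_le_iff.1 hy i
    have h2 := hxr i
    have h3 : |y i| ≤ |x₀ i| + |y i - x₀ i| := by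
      calc |y i| = |x₀ i + (y i - x₀ i)| := by ring_nf
        _ ≤ _ := abs_add_le _ _
    linarith only [hr, h1, h2, h3]
  have hsupp : ∀ n ∈ box (0 : Site d) N, ∀ y, chi k (cen n) y ≠ 0 → y ∈ Λ := by
    intro n hn y hy
    rw [hΛdef, mem_box, sd_comm, sd_le_iff]
    intro i
    have h1 := lt_of_chi hy i
    have h2 := hcenb n hn i
    have h3 : |y i - x₀ i| ≤ |y i - cen n i| + |cen n i - x₀ i| := by
      calc |y i - x₀ i| = |(y i - cen n i) + (cen n i - x₀ i)| := by ring_nf
        _ ≤ _ := abs_add_le _ _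
    have h4 : |y i - cen n i| + 1 ≤ k := h1
    linarith only [h1, h2, h3]
  -- separation
  have hsep : ∀ n n' : Site d, n ≠ n' → ∀ y w, chi k (cen n) y ≠ 0 → chi k (cen n') w ≠ 0 →
      2 ≤ sd y w := by
    intro n n' hnn y w hy hw
    by_contra hcon
    apply hnn
    funext i
    have h0 : sd y w ≤ 1 := by omega
    have h1 := lt_of_chi hy i
    have h2 := lt_of_chi hw i
    have h3 := sd_le_iff.1 h0 i
    push_cast at h3
    by_contra hni
    have h4 : 1 ≤ |n i - n' i| := Int.one_le_abs (sub_ne_zero.2 hni)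
    have h5 : cen n i - cen n' i = (2 * k) * (n i - n' i) := by rw [hcen]; ring
    have h6 : (2 * (k : ℤ)) ≤ |cen n i - cen n' i| := by
      rw [h5, abs_mul, abs_of_nonneg (by positivity : (0 : ℤ) ≤ 2 * k)]
      nlinarith only [h4]
    have h7 : |cen n i - cen n' i| ≤ |y i - cen n i| + |y i - w i| + |w i - cen n' i| := by
      calc |cen n i - cen n' i| = |(-(y i - cen n i)) + (y i - w i) + (w i - cen n' i)| := by
            ring_nf
        _ ≤ |(-(y i - cen n i)) + (y i - w i)| + |w i - cen n' i| := abs_add_le _ _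
        _ ≤ |(-(y i - cen n i))| + |y i - w i| + |w i - cen n' i| := by
            have := abs_add_le (-(y i - cen n i)) (y i - w i)
            linarith only [this]
        _ = _ := by rw [abs_neg]
    have h8 : |y i - cen n i| + 1 ≤ k := h1
    have h9 : |w i - cen n' i| + 1 ≤ k := h2
    linarith only [h1, h2, h3, h6, h7]
  -- test functions
  set F : Site d → Site d → ℝ := fun n y => DD z V (cls M y) * chi k (cen n) y with hF
  have hFchi : ∀ n y, F n y ≠ 0 → chi k (cen n) y ≠ 0 := by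
    intro n y h h0
    apply h
    rw [hF]
    simp only [h0, mul_zero]
  have hF0 : ∀ n ∈ box (0 : Site d) N, ∀ y, y ∉ Λ → F n y = 0 := by
    intro n hn y hy
    by_contra hne
    exact hy (hsupp n hn y (hFchi n y hne))
  have hFrep : ∀ n (x : Tor d M), F n (rep x) = DD z V x * chi k (cen n) (rep x) := by
    intro n x
    rw [hF]
    simp only [cls_rep]
  have hHM : ∀ (g : Site d → ℝ) (y : Λ), (HM W Λ *ᵥ fun w : Λ => g w) y =
      ∑ w ∈ Λ, hop (y : Site d) w * g w + W y * g y := by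
    intro g y
    unfold HM
    simp only [Matrix.mulVec, dotProduct, Matrix.of_apply, add_mul, Finset.sum_add_distrib]
    congr 1
    · rw [← Finset.sum_coe_sort Λ]
    · simp
  classical
  set I := (box (0 : Site d) N) with hI
  have hcard : Fintype.card I = (2 * N + 1) ^ d := by
    rw [Fintype.card_coe, hI, card_box]
  let e : Fin ((2 * N + 1) ^ d) ≃ I := (Fintype.equivFinOfCardEq hcard).symm
  have hmain := hmm Λ (HM W Λ) hH (z - lam) ((2 * N + 1) ^ d)
    (fun j y => F (e j : Site d) (y : Site d)) ?_ ?_ ?_ ?_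
  · -- the final computation
    have hcount : ((2 * (N : ℝ) + 1)) ^ d ≤
        ((Finset.univ.filter fun i => z - lam ≤ hH.eigenvalues i).card : ℝ) := by
      exact_mod_cast hmain
    have hq : lam ^ ((d : ℝ) / 2) = (Real.sqrt lam) ^ d := by
      rw [Real.sqrt_eq_rpow, ← Real.rpow_natCast, ← Real.rpow_mul hlam0.le]
      congr 1
      ring
    rw [hq, ← mul_pow]
    have hs0 : 0 ≤ Real.sqrt lam := Real.sqrt_nonneg _
    have h1 : Real.sqrt lam * (4 * k) ≤ 1664 * d := by
      have h2 : (Real.sqrt lam * (4 * k)) ^ 2 ≤ (1664 * (d : ℝ)) ^ 2 := by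
        calc (Real.sqrt lam * (4 * k)) ^ 2 = 16 * ((Real.sqrt lam) ^ 2 * (k : ℝ) ^ 2) := by ring
          _ = 16 * (lam * (k : ℝ) ^ 2) := by rw [Real.sq_sqrt hlam0.le]
          _ ≤ 16 * (104 * d) := by linarith only [hkhi]
          _ = 1664 * d := by ring
          _ ≤ (1664 * (d : ℝ)) ^ 2 := by nlinarith only [hd']
      exact le_of_sq_le_sq h2 (by positivity)
    have h3 : (2 * (L : ℝ) + 1) ≤ 4 * k * (2 * N + 1) := by
      have h4 : 2 * L + 1 ≤ 4 * k * (2 * N + 1) := by
        have e1 : 4 * k * (2 * N + 1) = 4 * (2 * k * N) + 4 * k := by ring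
        rw [e1]
        generalize 2 * k * N = t at hN2 hN1
        omega
      exact_mod_cast h4
    have h5 : Real.sqrt lam * (2 * (L : ℝ) + 1) ≤ 1664 * d * (2 * N + 1) := by
      calc Real.sqrt lam * (2 * (L : ℝ) + 1) ≤ Real.sqrt lam * (4 * k * (2 * N + 1)) :=
            mul_le_mul_of_nonneg_left h3 hs0
        _ = (Real.sqrt lam * (4 * k)) * (2 * N + 1) := by ring
        _ ≤ _ := mul_le_mul_of_nonneg_right h1 (by positivity)
    calc (Real.sqrt lam * (2 * (L : ℝ) + 1)) ^ d ≤ (1664 * d * (2 * N + 1)) ^ d :=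
          pow_le_pow_left₀ (by positivity) h5 d
      _ = (1664 * (d : ℝ)) ^ d * (2 * N + 1) ^ d := by rw [mul_pow]
      _ ≤ _ := mul_le_mul_of_nonneg_left hcount (by positivity)
  · -- nonzero
    intro j h0
    have hj := (e j).2
    have hc := chi_self hk1 (cen (e j))
    have hmem : cen (e j) ∈ Λ := hsupp _ hj _ hc
    have := congrFun h0 ⟨_, hmem⟩
    simp only [hF, Pi.zero_apply] at this
    rcases mul_eq_zero.1 this with h | h
    · exact (DD_pos hflat.2.1 _).ne' h
    · exact hc h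
  · intro j j' hjj y
    by_contra hne
    have h1 := left_ne_zero_of_mul hne
    have h2 := right_ne_zero_of_mul hne
    have hne' : (e j : Site d) ≠ e j' := fun h => hjj (e.injective (Subtype.ext h))
    have h3 := hsep _ _ hne' _ _ (hFchi _ _ h1) (hFchi _ _ h2)
    rw [sd_self] at h3
    omega
  · intro j j' hjj
    have hne' : (e j : Site d) ≠ e j' := fun h => hjj (e.injective (Subtype.ext h))
    refine Finset.sum_eq_zero fun y _ => ?_
    by_cases h1 : F (e j : Site d) (y : Site d) = 0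
    · rw [h1, zero_mul]
    · rw [hHM (F (e j')) y]
      have h2 : F (e j') (y : Site d) = 0 := by
        by_contra h2
        have h3 := hsep _ _ hne' _ _ (hFchi _ _ h1) (hFchi _ _ h2)
        rw [sd_self] at h3
        omega
      have h3 : ∑ w ∈ Λ, hop (y : Site d) w * F (e j') w = 0 := by
        refine Finset.sum_eq_zero fun w _ => ?_
        by_contra h4
        have h5 := sd_of_hop (left_ne_zero_of_mul h4)
        have h6 := hsep _ _ hne' _ _ (hFchi _ _ h1) (hFchi _ _ (right_ne_zero_of_mul h4))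
        omega
      rw [h2, h3]
      ring
  · intro j
    have hj := (e j).2
    set n : Site d := (e j : Site d) with hn
    have h1 := form_test (M := M) k hk1 (cen n) (hcenr n hj) hμ hflat h10 hklo
    have h2 := quad_torus (M := M) z W Λ hΛr (F n) (hF0 n hj)
    simp only [hFrep] at h2
    rw [h2] at h1
    have h3 : ∑ x : Tor d M, (DD z V x * chi k (cen n) (rep x)) ^ 2 = ∑ y ∈ Λ, F n y ^ 2 := by
      have := sum_rep (M := M) Λ (fun y hy i => by have := hΛr y hy i; linarith only [this])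
        (fun y => F n y ^ 2) (fun y hy => by simp [hF0 n hj y hy])
      rw [← this]
      refine Finset.sum_congr rfl fun x _ => ?_
      simp only [hFrep]
    rw [h3] at h1
    have h4 : ∑ y : Λ, F n y * (HM W Λ *ᵥ fun w : Λ => F n w) y =
        ∑ y ∈ Λ, F n y * (∑ w ∈ Λ, hop (y : Site d) w * F n w + W y * F n y) := by
      rw [← Finset.sum_coe_sort Λ]
      refine Finset.sum_congr rfl fun y _ => ?_
      rw [hHM (F n) y]
    have h5 : ∑ y : Λ, F n y ^ 2 = ∑ y ∈ Λ, F n y ^ 2 :=
      Finset.sum_coe_sort Λ (fun y => F n y ^ 2)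
    rw [h4, h5]
    have h6 : ∑ y ∈ Λ, F n y * ((z - W y) * F n y - ∑ w ∈ Λ, hop y w * F n w) =
        z * ∑ y ∈ Λ, F n y ^ 2 -
          ∑ y ∈ Λ, F n y * (∑ w ∈ Λ, hop (y : Site d) w * F n w + W y * F n y) := by
      rw [Finset.mul_sum, ← Finset.sum_sub_distrib]
      refine Finset.sum_congr rfl fun y _ => ?_
      ring
    rw [h6] at h1
    linarith only [h1]

end Pool.Agent.BED.H73
end
end -- Pool.Agent.Helper73_BED.Count

section -- Pool.Agent.Helper73_BED.LawT

/-!
# Band edge delocalization: module LAWT (the law of the potential on the torus)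
-/

set_option autoImplicit false

open MeasureTheory ProbabilityTheory

open scoped ENNReal NNReal BigOperators

noncomputable section

namespace Pool.Agent.BED.H73

open Pool.Agent.Anderson Pool.Agent.Loc Pool.Agent.BED

universe u

theorem rep_injective {d M : ℕ} : Function.Injective (rep : Tor d M → Site d) := by
  intro x y h
  funext i
  have := congrFun h i
  exact (ZMod.valMinAbs_inj).1 this

/-- Module LAWT. -/
theorem lawT : LawStmt.{u} := by
  intro d M _ Ω _ P _ ξ hm hlaw hind s v hv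
  have h1 : iIndepFun (fun x : Tor d M => ξ (rep x)) P := hind.precomp rep_injective
  have h2 : iIndepFun (fun x : Tor d M => fun ω => s * ξ (rep x) ω) P :=
    h1.comp (fun _ => fun t : ℝ => s * t) (fun _ => measurable_const_mul s)
  have h3 := (iIndepFun_iff_map_fun_eq_pi_map
    (fun x : Tor d M => ((hm (rep x)).const_mul s).aemeasurable)).1 h2
  rw [h3]
  unfold gau
  congr 1
  funext x
  have e : (fun ω => s * ξ (rep x) ω) = (fun t : ℝ => s * t) ∘ ξ (rep x) := rfl
  rw [e, ← Measure.map_map (measurable_const_mul s) (hm (rep x)), hlaw,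
    gaussianReal_map_const_mul, mul_zero]
  congr 1
  ext
  rw [mul_one, hv]
  rfl

end Pool.Agent.BED.H73
end
end -- Pool.Agent.Helper73_BED.LawT

section -- Pool.Agent.Helper73_BED.StepD

/-!
# Band edge delocalization: module STEPD (the deterministic step)
-/

set_option autoImplicit false

open scoped BigOperators

noncomputable section

namespace Pool.Agent.BED.H73

open Matrix Pool.Agent.BED

theorem AM_sub_mulVec {d M : ℕ} [NeZero M] (z h : ℝ) (V f : Tor d M → ℝ) (x : Tor d M) :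
    (AM (z - h) V *ᵥ f) x = (AM z V *ᵥ f) x - h * f x := by
  rw [AM_mulVec, AM_mulVec]; ring

/-- Module STEPD. -/
theorem stepD : StepStmt := by
  intro d M _ z μ V hμ hA hD
  set h : ℝ := 1 / (10 * μ) with hh
  have hhμ : h * μ = 1 / 10 := by
    rw [hh]; field_simp
  have hhpos : 0 < h := by rw [hh]; positivity
  set D := DD z V with hDdef
  have hlo : ∀ x, 0.98 * μ ≤ D x := fun x => by
    have := (abs_le.1 (hD x)).1
    linarith only [this]
  have hhi : ∀ x, D x ≤ 1.02 * μ := fun x => by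
    have := (abs_le.1 (hD x)).2
    linarith only [this]
  have hAD : ∀ x, (AM (z - h) V *ᵥ D) x = 1 - h * D x := fun x => by
    rw [AM_sub_mulVec, hDdef, AM_DD hA, Pi.one_apply]
  have hhDlo : ∀ x, 0.098 ≤ h * D x := fun x => by
    have := mul_le_mul_of_nonneg_left (hlo x) hhpos.le
    nlinarith only [hhμ, this]
  have hhDhi : ∀ x, h * D x ≤ 0.102 := fun x => by
    have := mul_le_mul_of_nonneg_left (hhi x) hhpos.le
    nlinarith only [hhμ, this]
  have hDpos : ∀ x, 0 < D x := fun x => lt_of_lt_of_le (by positivity) (hlo x)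
  have hA' : (AM (z - h) V).PosDef := AM_posDef_of_super hDpos fun x => by
    rw [hAD]; linarith only [hhDhi x]
  refine ⟨hA', fun x => ⟨?_, ?_⟩⟩
  · have h1 := AM_le_of hA' (u := (1 / 0.902 : ℝ) • D) (v := DD (z - h) V) (fun y => by
      rw [Matrix.mulVec_smul, AM_DD hA', Pi.smul_apply, Pi.one_apply, hAD, smul_eq_mul]
      have := hhDlo y
      linarith only [this]) x
    rw [Pi.smul_apply, smul_eq_mul] at h1
    have := hlo x
    linarith
  · have h1 := AM_le_of hA' (u := DD (z - h) V) (v := (1 / 0.898 : ℝ) • D) (fun y => by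
      rw [Matrix.mulVec_smul, AM_DD hA', Pi.smul_apply, Pi.one_apply, hAD, smul_eq_mul]
      have := hhDhi y
      linarith only [this]) x
    rw [Pi.smul_apply, smul_eq_mul] at h1
    have := hhi x
    linarith

end Pool.Agent.BED.H73
end
end -- Pool.Agent.Helper73_BED.StepD

section -- Pool.Agent.Helper54_BED.All

/-!
# BED: all modules together
-/

set_option autoImplicit false

open MeasureTheory ProbabilityTheory

open scoped ENNReal NNReal BigOperators

noncomputable section

namespace Pool.Agent.BED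

universe u

theorem heatAll : HeatStmt := H32.heat H32.nash H32.seq

theorem sumAll : SumStmt := H15.sum_mod heatAll

theorem flatAll : FlatStmt := flat H55.gc H61.mcs H61.cov H73.stepD sumAll

theorem transAll : TransStmt := H61.trans heatAll H61.orth

theorem countAll : CountStmt := H73.count H15.minmax

end Pool.Agent.BED
end
end -- Pool.Agent.Helper54_BED.All
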