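import Pool.Agent.Helper12_MEB.B012
import Pool.Agent.Helper12_MEB.B014

/-!
# Merged copies (generated) of the modules

* `Pool.Agent.Helper54_LOC.Stmt`
* `Pool.Agent.Helper54_LOC.StmtLow`
* `Pool.Agent.Helper28_LOC.Low`
* `Pool.Agent.Helper48_LOC.GreenLow`
* `Pool.Agent.Helper48_LOC.Up`
* `Pool.Agent.Helper54_LOC.Gap`
* `Pool.Agent.Helper54_LOC.Law`
* `Pool.Agent.Helper54_LOC.Num`
* `Pool.Agent.Helper54_LOC.Init`
* `Pool.Agent.Helper54_LOC.Cnt`
* `Pool.Agent.Helper54_LOC.Window`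
* `Pool.Agent.Helper54_LOC.Edge`
-/

set_option autoImplicit false

section -- Pool.Agent.Helper54_LOC.Stmt

/-!
# LOC: localization up to the effective band edge: module statements
-/

set_option autoImplicit false

open MeasureTheory ProbabilityTheory

open scoped ENNReal NNReal BigOperators

noncomputable section

namespace Pool.Agent.LOC

open Matrix Pool.Agent.Anderson Pool.Agent.Loc Pool.Agent.BED

variable {d : ℕ}

/-- the quadratic form of `H_Λ` is bounded by `e` in absolute value -/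
def FB (V : Site d → ℝ) (Λ : Finset (Site d)) (e : ℝ) : Prop :=
  ∀ u : Site d → ℝ, |∑ y ∈ Λ, V y * u y ^ 2 + hf Λ u| ≤ e * ∑ y ∈ Λ, u y ^ 2

theorem HM_isHermitian (V : Site d → ℝ) (Λ : Finset (Site d)) : (HM V Λ).IsHermitian := by
  unfold Matrix.IsHermitian
  rw [Matrix.conjTranspose_eq_transpose_of_trivial]
  exact HM_symm V Λ

/-- the number of eigenvalues `≥ e` of the restriction of `Δ + V` to the finite set `Λ` -/
def nAbove (V : Site d → ℝ) (Λ : Finset (Site d)) (e : ℝ) : ℕ :=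
  (Finset.univ.filter fun i => e ≤ (HM_isHermitian V Λ).eigenvalues i).card

/-- Module GAP: a gap from the flatness of the landscape function. -/
def GapStmt : Prop := ∀ (d M : ℕ) [NeZero M] (r : ℕ), 4 * r + 3 ≤ M →
  ∀ (z μ : ℝ) (W : Site d → ℝ), 0 < μ → Flat z μ (fun x : Tor d M => W (rep x)) →
    Flat z μ (fun x : Tor d M => - W (rep x)) →
    ∀ Λ : Finset (Site d), Λ ⊆ box 0 r → FB W Λ (z - 1 / (2 * μ))

/-- Module INIT: the initial scale estimate from a gap (as `initScale_of_tail`). -/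
def InitStmt : Prop := ∀ (d : ℕ) (ν : Measure ℝ) [IsProbabilityMeasure ν] (ρ : ℝ),
  BddDens ν ρ → ∀ (z g κ p₀ : ℝ) (L : ℕ), 0 < g → 0 ≤ κ →
    2 * d * (Real.exp κ - 1) ≤ g / 2 → 0 < p₀ →
    (∀ (x : Site d) (W : Finset (Site d)), W ⊆ box x L →
      PL ν W {V | ¬ FB V W (z - g)} ≤ ENNReal.ofReal p₀) →
    ∀ E : ℝ, z ≤ |E| →
      InitScale d ν L (√(2 / g) * Real.exp (-κ * L / 2) + 2 * √(6 * ρ * p₀)) E

universe u

/-- Module UP: an upper bound for the spectrum in boxes of radius `|σ|⁻³` (from the proof of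
`regime_small` and `fixedDecay_gauss`). -/
def UpStmt : Prop := ∀ d : ℕ, 3 ≤ d → ∃ σ₀ : ℝ, 0 < σ₀ ∧ ∀ σ : ℝ, σ ≠ 0 → |σ| < σ₀ →
  ∀ L : ℕ, (L : ℝ) ≤ |σ|⁻¹ ^ 3 →
    ∀ (Ω : Type u) [MeasurableSpace Ω] (P : Measure Ω) [IsProbabilityMeasure P]
      (ξ : Site d → Ω → ℝ), (∀ y, Measurable (ξ y)) →
      (∀ y, P.map (ξ y) = gaussianReal 0 1) → iIndepFun ξ P →
      P {ω | ¬ ∀ u : Site d → ℝ, ∑ y ∈ box 0 L, σ * ξ y ω * u y ^ 2 + hf (box 0 L) u ≤
        (2 * d + watson d * σ ^ 2 + watson d * |σ| ^ (2 + 1 / (24 * d : ℝ))) *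
          ∑ y ∈ box 0 L, u y ^ 2} ≤ ENNReal.ofReal (1 / 4)

/-- Module EXPC: the expected number of eigenvalues above `e` in large boxes, from a bound on the
probability that there is at least one in small boxes (use `MinmaxStmt` with one test function, the
top eigenvector, for each of the disjoint non-adjacent small boxes). -/
def ExpcStmt : Prop := ∀ (d : ℕ) (l : ℕ) (e : ℝ) (Ω : Type u) [MeasurableSpace Ω]
  (P : Measure Ω) [IsProbabilityMeasure P] (V : Site d → Ω → ℝ),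
    (∀ x : Site d, ∃ A : Set Ω, MeasurableSet A ∧ ENNReal.ofReal (1 / 2) ≤ P A ∧
      ∀ ω ∈ A, 0 < nAbove (fun y => V y ω) (box x l) e) →
    ∀ L : ℕ, 2 * l + 2 ≤ L →
      ENNReal.ofReal (1 / 2 * ((2 * (L : ℝ) + 1) / (4 * l + 4)) ^ d) ≤
        ∫⁻ ω, (nAbove (fun y => V y ω) (box 0 L) e : ℝ≥0∞) ∂P

end Pool.Agent.LOC
end
end -- Pool.Agent.Helper54_LOC.Stmt

section -- Pool.Agent.Helper54_LOC.StmtLow

/-!
# LOC: statements of the modules GREENLOW and LOW (lower bound for the edge of the spectrum)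
-/

set_option autoImplicit false

open MeasureTheory ProbabilityTheory

open scoped ENNReal NNReal BigOperators

noncomputable section

namespace Pool.Agent.LOC

open Matrix Pool.Agent.Anderson Pool.Agent.Loc Pool.Agent.BED

/-- Module GREENLOW: lower bound for the diagonal of the free Green function in finite volume.
Recipe: (1) for `box x N ⊆ Λ`, `gr 0 Λ (2d+a) x x ≥ ∑_{n ≤ N} walks n 0 / (2d+a)^(n+1)` (the truncated
sum is a subsolution, maximum principle as in `gr_le_SW`), and the rest of the infinite series is at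
most `∑_{n > N} (2d)^n / (2d+a)^(n+1) = (1/a) (1+a/(2d))^(-(N+1))`; (2) the infinite volume
difference `∑_n walks n 0 ((2d)^(-n-1) - (2d+a)^(-n-1))` is at most `C a^(1/(2d))`, because the
derivative of `gr 0 Λ (2d+s) x x` is `- ∑_y gr 0 Λ (2d+s) x y ^ 2 ≥ - C₅ s^(-1+1/(2d))` by
`gr_zero_sq` (or directly, by dyadic use of the resolvent identity
`gr(2d+s) x x - gr(2d+2s) x x = s ∑_y gr(2d+s) x y gr(2d+2s) y x ≤ s ∑_y gr(2d+s) x y ^ 2`). -/
def GreenLowStmt : Prop := ∀ d : ℕ, 3 ≤ d → ∃ C : ℝ, 0 < C ∧ ∀ (Λ : Finset (Site d)) (N : ℕ)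
  (a : ℝ) (x : Site d), 0 < a → a ≤ 1 → box x N ⊆ Λ →
    watson d - C * a ^ (1 / (2 * d : ℝ)) - (1 / a) * (1 + a / (2 * d)) ^ (-(N : ℝ)) ≤
      gr 0 Λ (2 * d + a) x x

universe u

/-- Module LOW: with not too small probability there is a test function in the box of radius
`|σ|⁻³` with a large Rayleigh quotient. Recipe (`Λ = box 0 L`, `V = σ ξ`, `G = (2d + a - Δ_Λ)⁻¹`,
`a = |σ|²` or so, `φ = 1_Λ`, `u = φ + G V φ`, `s = 2d + b`, `b = G_d σ² - C |σ|^(2+1/(24d)) < a`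
after enlarging `a`): the form `X = ⟨u, (Δ + V - s) u⟩` is a polynomial of degree 3 in the `ξ`; the
terms of odd degree have expectation 0, and
`E X = ⟨φ, (Δ - s) φ⟩ + σ² tr G + (a - b) σ² ∑ G(x,y)² ≥ |Λ| (σ² avg G(x,x) - b - C / L) ≥
|Λ| |σ|³`; `E X² ≤ C |Λ|^6` (crude), so by Cauchy-Schwarz
`P(X > 0) ≥ (E X)² / E X² ≥ |σ|^(24 d)`. -/
def LowStmt : Prop := ∀ d : ℕ, 3 ≤ d → ∃ σ₀ C : ℝ, 0 < σ₀ ∧ 0 < C ∧ ∀ σ : ℝ, σ ≠ 0 → |σ| < σ₀ →
  ∀ L : ℕ, |σ|⁻¹ ^ 3 ≤ (L : ℝ) → (L : ℝ) ≤ 2 * |σ|⁻¹ ^ 3 →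
    ∀ (Ω : Type u) [MeasurableSpace Ω] (P : Measure Ω) [IsProbabilityMeasure P]
      (ξ : Site d → Ω → ℝ), (∀ y, Measurable (ξ y)) →
      (∀ y, P.map (ξ y) = gaussianReal 0 1) → iIndepFun ξ P →
      ENNReal.ofReal (|σ| ^ (24 * d)) ≤
        P {ω | ∃ u : Site d → ℝ,
          (2 * d + watson d * σ ^ 2 - C * |σ| ^ (2 + 1 / (24 * d : ℝ))) *
            ∑ y ∈ box 0 L, u y ^ 2 < ∑ y ∈ box 0 L, σ * ξ y ω * u y ^ 2 + hf (box 0 L) u}

end Pool.Agent.LOC
end
end -- Pool.Agent.Helper54_LOC.StmtLow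

section -- Pool.Agent.Helper28_LOC.Low

/-!
# LOC: module LOW
-/

set_option autoImplicit false

open MeasureTheory ProbabilityTheory

open scoped ENNReal NNReal BigOperators

noncomputable section

namespace Pool.Agent.LOC.H28

open Matrix Pool.Agent.Anderson Pool.Agent.Loc Pool.Agent.BED

variable {d : ℕ}

/-! ### the deterministic part -/

/-- the function `G V 1` -/
def gv (Λ : Finset (Site d)) (a : ℝ) (V : Site d → ℝ) (x : Site d) : ℝ :=
  ∑ y ∈ Λ, gr 0 Λ (2 * d + a) x y * V y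

theorem gv_eq {Λ : Finset (Site d)} {a : ℝ} (ha : 0 < a) (V : Site d → ℝ) {x : Site d}
    (hx : x ∈ Λ) :
    ∑ z ∈ Λ, hop x z * gv Λ a V z = (2 * d + a) * gv Λ a V x - V x := by
  have hE : 2 * (d : ℝ) < 2 * d + a := by linarith only [ha]
  have h1 : ∀ y ∈ Λ, (2 * d + a) * gr 0 Λ (2 * d + a) x y -
      ∑ z ∈ Λ, hop x z * gr 0 Λ (2 * d + a) z y = if y = x then 1 else 0 := by
    intro y hy
    rw [← gr_zero_eq hE hy hx, gr_symm _ _ _ x y]
    congr 1
    exact Finset.sum_congr rfl fun z _ => by rw [gr_symm _ _ _ z y]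
  have h2 : ∑ y ∈ Λ, ((2 * d + a) * gr 0 Λ (2 * d + a) x y -
      ∑ z ∈ Λ, hop x z * gr 0 Λ (2 * d + a) z y) * V y = V x := by
    rw [Finset.sum_congr rfl fun y hy => by rw [h1 y hy]]
    simp [hx]
  have h3 : ∑ z ∈ Λ, hop x z * gv Λ a V z =
      ∑ y ∈ Λ, (∑ z ∈ Λ, hop x z * gr 0 Λ (2 * d + a) z y) * V y := by
    unfold gv
    simp_rw [Finset.mul_sum, Finset.sum_mul]
    rw [Finset.sum_comm]
    refine Finset.sum_congr rfl fun y _ => Finset.sum_congr rfl fun z _ => by ring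
  have h4 : (2 * d + a) * gv Λ a V x =
      ∑ y ∈ Λ, (∑ z ∈ Λ, hop x z * gr 0 Λ (2 * d + a) z y) * V y +
      ∑ y ∈ Λ, ((2 * d + a) * gr 0 Λ (2 * d + a) x y -
        ∑ z ∈ Λ, hop x z * gr 0 Λ (2 * d + a) z y) * V y := by
    unfold gv
    rw [Finset.mul_sum, ← Finset.sum_add_distrib]
    exact Finset.sum_congr rfl fun y _ => by ring
  rw [h3, h4, h2]
  ring

/-- the degree of `y` in `Λ` -/
def dg (Λ : Finset (Site d)) (y : Site d) : ℝ := ∑ z ∈ Λ, hop y z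

theorem hf_one_add {Λ : Finset (Site d)} {a : ℝ} (ha : 0 < a) (V : Site d → ℝ) :
    hf Λ (fun y => 1 + gv Λ a V y) = ∑ y ∈ Λ, dg Λ y + 2 * ∑ y ∈ Λ, dg Λ y * gv Λ a V y +
      ((2 * d + a) * ∑ y ∈ Λ, gv Λ a V y ^ 2 - ∑ y ∈ Λ, V y * gv Λ a V y) := by
  have h1 : hf Λ (fun y => 1 + gv Λ a V y) = ∑ y ∈ Λ, ∑ z ∈ Λ, hop y z +
      ∑ y ∈ Λ, ∑ z ∈ Λ, hop y z * gv Λ a V y + ∑ y ∈ Λ, ∑ z ∈ Λ, hop y z * gv Λ a V z +
      ∑ y ∈ Λ, ∑ z ∈ Λ, gv Λ a V y * (hop y z * gv Λ a V z) := by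
    unfold hf
    simp_rw [← Finset.sum_add_distrib]
    exact Finset.sum_congr rfl fun y _ => Finset.sum_congr rfl fun z _ => by ring
  have h2 : ∑ y ∈ Λ, ∑ z ∈ Λ, hop y z * gv Λ a V z = ∑ y ∈ Λ, dg Λ y * gv Λ a V y := by
    rw [Finset.sum_comm]
    refine Finset.sum_congr rfl fun y _ => ?_
    unfold dg
    rw [Finset.sum_mul]
    exact Finset.sum_congr rfl fun z _ => by rw [hop_comm]
  have h3 : ∑ y ∈ Λ, ∑ z ∈ Λ, hop y z * gv Λ a V y = ∑ y ∈ Λ, dg Λ y * gv Λ a V y := by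
    refine Finset.sum_congr rfl fun y _ => ?_
    unfold dg
    rw [Finset.sum_mul]
  have h4 : ∑ y ∈ Λ, ∑ z ∈ Λ, gv Λ a V y * (hop y z * gv Λ a V z) =
      (2 * d + a) * ∑ y ∈ Λ, gv Λ a V y ^ 2 - ∑ y ∈ Λ, V y * gv Λ a V y := by
    rw [Finset.mul_sum, ← Finset.sum_sub_distrib]
    refine Finset.sum_congr rfl fun y hy => ?_
    rw [← Finset.mul_sum, gv_eq ha V hy]
    ring
  rw [h1, h2, h3, h4]
  unfold dg
  ring

/-- the value of the form at the trial function -/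
def XX (Λ : Finset (Site d)) (a s : ℝ) (V : Site d → ℝ) : ℝ :=
  ∑ y ∈ Λ, V y * (1 + gv Λ a V y) ^ 2 + hf Λ (fun y => 1 + gv Λ a V y) -
    s * ∑ y ∈ Λ, (1 + gv Λ a V y) ^ 2

theorem XX_eq {Λ : Finset (Site d)} {a : ℝ} (ha : 0 < a) (s : ℝ) (V : Site d → ℝ) :
    XX Λ a s V = (∑ y ∈ Λ, dg Λ y - s * Λ.card) + ∑ y ∈ Λ, V y + ∑ y ∈ Λ, V y * gv Λ a V y +
      ∑ y ∈ Λ, V y * gv Λ a V y ^ 2 + 2 * ∑ y ∈ Λ, dg Λ y * gv Λ a V y +
      (2 * d + a - s) * ∑ y ∈ Λ, gv Λ a V y ^ 2 - 2 * s * ∑ y ∈ Λ, gv Λ a V y := by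
  unfold XX
  rw [hf_one_add ha V]
  have h1 : ∑ y ∈ Λ, V y * (1 + gv Λ a V y) ^ 2 = ∑ y ∈ Λ, V y +
      2 * ∑ y ∈ Λ, V y * gv Λ a V y + ∑ y ∈ Λ, V y * gv Λ a V y ^ 2 := by
    rw [Finset.mul_sum]
    simp_rw [← Finset.sum_add_distrib]
    exact Finset.sum_congr rfl fun y _ => by ring
  have h2 : ∑ y ∈ Λ, (1 + gv Λ a V y) ^ 2 = Λ.card + 2 * ∑ y ∈ Λ, gv Λ a V y +
      ∑ y ∈ Λ, gv Λ a V y ^ 2 := by
    rw [Finset.mul_sum]
    have : (Λ.card : ℝ) = ∑ _y ∈ Λ, 1 := by simp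
    rw [this]
    simp_rw [← Finset.sum_add_distrib]
    exact Finset.sum_congr rfl fun y _ => by ring
  rw [h1, h2]
  ring

/-- crude bound of the form -/
theorem abs_XX_le {Λ : Finset (Site d)} {a s t : ℝ} (ht : 0 < t) (ht1 : t ≤ 1) (ha : t ^ 2 ≤ a)
    (V : Site d → ℝ) {S : ℝ} (hS : ∑ y ∈ Λ, |V y| ≤ t * S) (hS0 : 0 ≤ S) :
    |XX Λ a s V| ≤ Λ.card * ((1 + S) / t) ^ 2 * ((2 * d + |s| + 1) * (1 + S)) := by
  have ha0 : 0 < a := lt_of_lt_of_le (by positivity) ha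
  have hE : 2 * (d : ℝ) < 2 * d + a := by linarith only [ha0]
  have hg : ∀ x, |gv Λ a V x| ≤ S / t := by
    intro x
    have h1 : ∀ y ∈ Λ, gr 0 Λ (2 * d + a) x y ≤ 1 / a := fun y hy =>
      (Finset.single_le_sum (f := fun y => gr 0 Λ (2 * d + a) x y)
        (fun z _ => gr_zero_nonneg Λ hE x z) hy).trans (sum_gr_zero_le Λ ha0 x)
    calc |gv Λ a V x| ≤ ∑ y ∈ Λ, |gr 0 Λ (2 * d + a) x y * V y| := Finset.abs_sum_le_sum_abs _ _
      _ ≤ ∑ y ∈ Λ, 1 / a * |V y| := by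
          refine Finset.sum_le_sum fun y hy => ?_
          rw [abs_mul, abs_of_nonneg (gr_zero_nonneg Λ hE x y)]
          exact mul_le_mul_of_nonneg_right (h1 y hy) (abs_nonneg _)
      _ = 1 / a * ∑ y ∈ Λ, |V y| := by rw [Finset.mul_sum]
      _ ≤ 1 / a * (t * S) := by gcongr
      _ ≤ 1 / t ^ 2 * (t * S) := by gcongr
      _ = S / t := by field_simp
  have hu : ∀ x, (1 + gv Λ a V x) ^ 2 ≤ ((1 + S) / t) ^ 2 := by
    intro x
    rw [← sq_abs]
    apply pow_le_pow_left₀ (abs_nonneg _)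
    calc |1 + gv Λ a V x| ≤ 1 + |gv Λ a V x| := by
          have := abs_add_le 1 (gv Λ a V x)
          rwa [abs_one] at this
      _ ≤ 1 / t + S / t := by
          apply add_le_add _ (hg x)
          rw [le_div_iff₀ ht]; linarith only [ht1]
      _ = (1 + S) / t := by ring
  have hV : ∀ y ∈ Λ, |V y| ≤ S := by
    intro y hy
    have := (Finset.single_le_sum (f := fun y => |V y|) (fun z _ => abs_nonneg _) hy).trans hS
    nlinarith only [this, hS0, ht1]
  have hsum : ∑ y ∈ Λ, (1 + gv Λ a V y) ^ 2 ≤ Λ.card * ((1 + S) / t) ^ 2 := by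
    calc _ ≤ ∑ _y ∈ Λ, ((1 + S) / t) ^ 2 := Finset.sum_le_sum fun y _ => hu y
      _ = _ := by simp
  have hsum0 : 0 ≤ ∑ y ∈ Λ, (1 + gv Λ a V y) ^ 2 := Finset.sum_nonneg fun y _ => sq_nonneg _
  have e1 : |∑ y ∈ Λ, V y * (1 + gv Λ a V y) ^ 2| ≤ S * ∑ y ∈ Λ, (1 + gv Λ a V y) ^ 2 := by
    rw [Finset.mul_sum]
    refine (Finset.abs_sum_le_sum_abs _ _).trans (Finset.sum_le_sum fun y hy => ?_)
    rw [abs_mul, abs_of_nonneg (sq_nonneg (1 + gv Λ a V y))]
    exact mul_le_mul_of_nonneg_right (hV y hy) (sq_nonneg _)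
  have e2 := abs_hf_le Λ (fun y => 1 + gv Λ a V y)
  have e3 : |s * ∑ y ∈ Λ, (1 + gv Λ a V y) ^ 2| ≤ |s| * ∑ y ∈ Λ, (1 + gv Λ a V y) ^ 2 := by
    rw [abs_mul, abs_of_nonneg hsum0]
  have e4 : |XX Λ a s V| ≤ (S + 2 * d + |s|) * ∑ y ∈ Λ, (1 + gv Λ a V y) ^ 2 := by
    unfold XX
    rw [abs_le] at e1 e2 e3 ⊢
    constructor <;> nlinarith only [e1, e2, e3]
  have hs0 := abs_nonneg s
  have hd0 : (0 : ℝ) ≤ d := Nat.cast_nonneg d
  calc |XX Λ a s V| ≤ (S + 2 * d + |s|) * ∑ y ∈ Λ, (1 + gv Λ a V y) ^ 2 := e4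
    _ ≤ (S + 2 * d + |s|) * (Λ.card * ((1 + S) / t) ^ 2) := by gcongr
    _ ≤ ((2 * d + |s| + 1) * (1 + S)) * (Λ.card * ((1 + S) / t) ^ 2) := by
        apply mul_le_mul_of_nonneg_right _ (by positivity)
        have : 0 ≤ (2 * d + |s|) * S := by positivity
        nlinarith only [hs0, hS0]
    _ = _ := by ring

/-- the volume term -/
theorem sum_dg_ge (L : ℕ) : 2 * (d : ℝ) * ((2 * L + 1 : ℝ) ^ d * (1 - 2 * d / (2 * L + 1))) ≤
    ∑ y ∈ box (0 : Site d) L, dg (box 0 L) y := by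
  rcases Nat.eq_zero_or_pos L with hL | hL
  · subst hL
    have h0 : 0 ≤ ∑ y ∈ box (0 : Site d) 0, dg (box 0 0) y :=
      Finset.sum_nonneg fun y _ => Finset.sum_nonneg fun z _ => hop_nonneg y z
    refine le_trans ?_ h0
    rcases Nat.eq_zero_or_pos d with hd | hd
    · subst hd; simp
    · have : (1 : ℝ) ≤ d := by exact_mod_cast hd
      simp
      nlinarith only [this]
  have h1 : ∑ y ∈ box (0 : Site d) (L - 1), dg (box 0 L) y ≤
      ∑ y ∈ box (0 : Site d) L, dg (box 0 L) y :=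
    Finset.sum_le_sum_of_subset_of_nonneg (box_mono _ (by omega))
      fun y _ _ => Finset.sum_nonneg fun z _ => hop_nonneg y z
  refine le_trans ?_ h1
  have h2 : ∀ y ∈ box (0 : Site d) (L - 1), dg (box 0 L) y = 2 * d := by
    intro y hy
    unfold dg
    have h3 : box y 1 ⊆ box (0 : Site d) L := by
      intro z hz
      rw [mem_box] at *
      have := sd_triangle 0 y z
      omega
    have h4 := sum_hop y (box 0 L) h3 (fun _ => (1 : ℝ))
    simp only [smul_eq_mul, mul_one] at h4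
    rw [h4]
    simp
    ring
  rw [Finset.sum_congr rfl h2, Finset.sum_const, card_box, nsmul_eq_mul]
  have h5 : ((2 * (L - 1) + 1 : ℕ) : ℝ) = 2 * L - 1 := by
    have : 2 * (L - 1) + 1 + 1 = 2 * L := by omega
    have h6 : ((2 * (L - 1) + 1 : ℕ) : ℝ) + 1 = 2 * L := by exact_mod_cast this
    linarith only [h6]
  have h6 : (2 * L + 1 : ℝ) ^ d * (1 - 2 * d / (2 * L + 1)) ≤ (2 * L - 1 : ℝ) ^ d := by
    have h7 : (0 : ℝ) < 2 * L + 1 := by positivity
    have h8 := one_add_mul_le_pow (a := -(2 / (2 * L + 1 : ℝ))) (by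
      rw [neg_le_neg_iff, div_le_iff₀ h7]
      have : (1 : ℝ) ≤ L := by exact_mod_cast hL
      linarith only []) d
    have h9 : (2 * L - 1 : ℝ) = (2 * L + 1) * (1 + -(2 / (2 * L + 1 : ℝ))) := by
      field_simp
      ring
    rw [h9, mul_pow]
    apply mul_le_mul_of_nonneg_left _ (by positivity)
    refine le_trans (le_of_eq ?_) h8
    ring
  push_cast at h5 ⊢
  rw [h5]
  nlinarith only [h6, h6, (Nat.cast_nonneg d : (0 : ℝ) ≤ d)]

/-- the trace term -/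
theorem trace_ge {L N : ℕ} {a : ℝ} (ha : 0 < a) (hN : N ≤ L) (hw : 0 ≤ watson d)
    {q : ℝ} (hq : 0 ≤ q)
    (h : ∀ x ∈ box (0 : Site d) (L - N), watson d - q ≤ gr 0 (box 0 L) (2 * d + a) x x) :
    (2 * L + 1 : ℝ) ^ d * (watson d * (1 - 2 * d * N / (2 * L + 1)) - q) ≤
      ∑ x ∈ box (0 : Site d) L, gr 0 (box 0 L) (2 * d + a) x x := by
  have hE : 2 * (d : ℝ) < 2 * d + a := by linarith only [ha]
  have h1 : ∑ x ∈ box (0 : Site d) (L - N), gr 0 (box 0 L) (2 * d + a) x x ≤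
      ∑ x ∈ box (0 : Site d) L, gr 0 (box 0 L) (2 * d + a) x x :=
    Finset.sum_le_sum_of_subset_of_nonneg (box_mono _ (by omega))
      fun y _ _ => gr_zero_nonneg _ hE _ _
  refine le_trans ?_ h1
  have h2 : ((box (0 : Site d) (L - N)).card : ℝ) * (watson d - q) ≤
      ∑ x ∈ box (0 : Site d) (L - N), gr 0 (box 0 L) (2 * d + a) x x := by
    rw [← nsmul_eq_mul, ← Finset.sum_const]
    exact Finset.sum_le_sum h
  refine le_trans ?_ h2
  rw [card_box]
  have h5 : ((2 * (L - N) + 1 : ℕ) : ℝ) = 2 * L + 1 - 2 * N := by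
    have : 2 * (L - N) + 1 + 2 * N = 2 * L + 1 := by omega
    have h6 : ((2 * (L - N) + 1 : ℕ) : ℝ) + 2 * N = 2 * L + 1 := by exact_mod_cast this
    linarith only [h6]
  have h7 : (0 : ℝ) < 2 * L + 1 := by positivity
  have hNL : (N : ℝ) ≤ L := by exact_mod_cast hN
  have hN0 : (0 : ℝ) ≤ N := Nat.cast_nonneg N
  have h6 : (2 * L + 1 : ℝ) ^ d * (1 - 2 * d * N / (2 * L + 1)) ≤ (2 * L + 1 - 2 * N : ℝ) ^ d := by
    have h8 := one_add_mul_le_pow (a := -(2 * N / (2 * L + 1 : ℝ))) (by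
      rw [neg_le_neg_iff, div_le_iff₀ h7]
      linarith only [h5]) d
    have h9 : (2 * L + 1 - 2 * N : ℝ) = (2 * L + 1) * (1 + -(2 * N / (2 * L + 1 : ℝ))) := by
      field_simp
      ring
    rw [h9, mul_pow]
    apply mul_le_mul_of_nonneg_left _ (by positivity)
    refine le_trans (le_of_eq ?_) h8
    ring
  have h10 : (2 * L + 1 - 2 * N : ℝ) ^ d ≤ (2 * L + 1 : ℝ) ^ d :=
    pow_le_pow_left₀ (by linarith only [h5]) (by linarith only []) d
  push_cast at h5 ⊢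
  rw [h5]
  calc (2 * L + 1 : ℝ) ^ d * (watson d * (1 - 2 * d * N / (2 * L + 1)) - q)
      = (2 * L + 1 : ℝ) ^ d * (1 - 2 * d * N / (2 * L + 1)) * watson d -
        (2 * L + 1 : ℝ) ^ d * q := by ring
    _ ≤ (2 * L + 1 - 2 * N : ℝ) ^ d * watson d - (2 * L + 1 - 2 * N : ℝ) ^ d * q := by gcongr
    _ = _ := by ring


/-! ### moments -/

section moments

variable {Ω : Type*} [MeasurableSpace Ω] {P : Measure Ω} [IsProbabilityMeasure P]
  {ξ : Site d → Ω → ℝ}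

theorem memLp (hm : ∀ y, Measurable (ξ y)) (hl : ∀ y, P.map (ξ y) = gaussianReal 0 1)
    (y : Site d) (p : ℝ≥0) : MemLp (ξ y) p P := by
  have h := memLp_id_gaussianReal (μ := 0) (v := 1) p
  rw [← hl y] at h
  exact (memLp_map_measure_iff aestronglyMeasurable_id (hm y).aemeasurable).1 h

theorem int_pow (hm : ∀ y, Measurable (ξ y)) (hl : ∀ y, P.map (ξ y) = gaussianReal 0 1)
    (y : Site d) (n : ℕ) : Integrable (fun ω => |ξ y ω| ^ n) P := by
  have := (memLp hm hl y n).integrable_norm_pow'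
  simpa using this

theorem mom1 (hm : ∀ y, Measurable (ξ y)) (hl : ∀ y, P.map (ξ y) = gaussianReal 0 1)
    (y : Site d) : ∫ ω, ξ y ω ∂P = 0 := by
  have h := integral_map (μ := P) (hm y).aemeasurable (f := fun t : ℝ => t)
    aestronglyMeasurable_id
  rw [hl y, integral_id_gaussianReal] at h
  exact h.symm

theorem mom_sq (hm : ∀ y, Measurable (ξ y)) (hl : ∀ y, P.map (ξ y) = gaussianReal 0 1)
    (y : Site d) : ∫ ω, ξ y ω * ξ y ω ∂P = 1 := by
  have h := integral_map (μ := P) (hm y).aemeasurable (f := fun t : ℝ => t * t)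
    (by fun_prop)
  have h2 : ∫ t, t * t ∂(gaussianReal 0 1) = 1 := by
    have h3 := variance_id_gaussianReal (μ := 0) (v := 1)
    rw [variance_eq_integral (by fun_prop)] at h3
    simp only [id, integral_id_gaussianReal, sub_zero, NNReal.coe_one] at h3
    rw [← h3]
    congr 1
    funext t
    ring
  rw [← h, hl y, h2]

theorem mom_cube (hm : ∀ y, Measurable (ξ y)) (hl : ∀ y, P.map (ξ y) = gaussianReal 0 1)
    (y : Site d) : ∫ ω, ξ y ω * ξ y ω * ξ y ω ∂P = 0 := by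
  have h := integral_map (μ := P) (hm y).aemeasurable (f := fun t : ℝ => t * t * t)
    (by fun_prop)
  rw [← h, hl y]
  have h1 : (gaussianReal 0 1).map (fun t : ℝ => -t) = gaussianReal 0 1 := by
    rw [gaussianReal_map_neg, neg_zero]
  have h2 : ∫ t, t * t * t ∂(gaussianReal 0 1) = ∫ t, -(t * t * t) ∂(gaussianReal 0 1) := by
    conv_lhs => rw [← h1]
    rw [integral_map (by fun_prop) (by fun_prop)]
    congr 1
    funext t
    ring
  rw [integral_neg] at h2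
  linarith only [h2]

theorem int1 (hm : ∀ y, Measurable (ξ y)) (hl : ∀ y, P.map (ξ y) = gaussianReal 0 1)
    (y : Site d) : Integrable (ξ y) P :=
  memLp_one_iff_integrable.1 (memLp hm hl y 1)

theorem int2 (hm : ∀ y, Measurable (ξ y)) (hl : ∀ y, P.map (ξ y) = gaussianReal 0 1)
    (x y : Site d) : Integrable (fun ω => ξ x ω * ξ y ω) P := by
  have hx : MemLp (ξ x) 2 P := by simpa using memLp hm hl x 2
  have hy : MemLp (ξ y) 2 P := by simpa using memLp hm hl y 2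
  exact hx.integrable_mul hy

theorem int3 (hm : ∀ y, Measurable (ξ y)) (hl : ∀ y, P.map (ξ y) = gaussianReal 0 1)
    (x y z : Site d) : Integrable (fun ω => ξ x ω * ξ y ω * ξ z ω) P := by
  have h := ((int_pow hm hl x 3).add (int_pow hm hl y 3)).add (int_pow hm hl z 3)
  refine h.mono' ((((hm x).mul (hm y)).mul (hm z)).aestronglyMeasurable) ?_
  filter_upwards with ω
  simp only [Real.norm_eq_abs, Pi.add_apply, abs_mul]
  have hx := abs_nonneg (ξ x ω)
  have hy := abs_nonneg (ξ y ω)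
  have hz := abs_nonneg (ξ z ω)
  generalize |ξ x ω| = p at *
  generalize |ξ y ω| = q at *
  generalize |ξ z ω| = r at *
  have key : ∀ m : ℝ, p ≤ m → q ≤ m → r ≤ m → p * q * r ≤ m ^ 3 := by
    intro m h1 h2 h3
    have hm0 : 0 ≤ m := hx.trans h1
    have : p * q * r ≤ m * m * m :=
      mul_le_mul (mul_le_mul h1 h2 hy hm0) h3 hz (mul_nonneg hm0 hm0)
    calc _ ≤ _ := this
      _ = _ := by ring
  have hp3 : 0 ≤ p ^ 3 := by positivity
  have hq3 : 0 ≤ q ^ 3 := by positivity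
  have hr3 : 0 ≤ r ^ 3 := by positivity
  rcases le_total p q with h1 | h1 <;> rcases le_total q r with h2 | h2 <;>
    rcases le_total p r with h3 | h3
  · linarith only [hq3, hp3, key r h3 h2 le_rfl]
  · linarith only [hr3, hq3, key p le_rfl (h2.trans h3) h3]
  · linarith only [hr3, hp3, key q h1 le_rfl h2]
  · linarith only [hr3, hp3, key q h1 le_rfl h2]
  · linarith only [hq3, hp3, key r h3 h2 le_rfl]
  · linarith only [hr3, hq3, key p le_rfl h1 h3]
  · linarith only [hr3, hq3, key p le_rfl h1 (h2.trans h1)]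
  · linarith only [hr3, hq3, key p le_rfl h1 h3]

theorem mom2 (hm : ∀ y, Measurable (ξ y)) (hl : ∀ y, P.map (ξ y) = gaussianReal 0 1)
    (hi : iIndepFun ξ P) (x y : Site d) :
    ∫ ω, ξ x ω * ξ y ω ∂P = if x = y then 1 else 0 := by
  split_ifs with h
  · subst h
    exact mom_sq hm hl x
  · have := (hi.indepFun h).integral_fun_mul_eq_mul_integral
      (hm x).aestronglyMeasurable (hm y).aestronglyMeasurable
    rw [this, mom1 hm hl, zero_mul]

theorem mom3 (hm : ∀ y, Measurable (ξ y)) (hl : ∀ y, P.map (ξ y) = gaussianReal 0 1)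
    (hi : iIndepFun ξ P) (x y z : Site d) :
    ∫ ω, ξ x ω * ξ y ω * ξ z ω ∂P = 0 := by
  have key : ∀ u v w : Site d, u ≠ w → v ≠ w → ∫ ω, ξ u ω * ξ v ω * ξ w ω ∂P = 0 := by
    intro u v w h1 h2
    have h3 := hi.indepFun_mul_left hm u v w h1 h2
    have := h3.integral_fun_mul_eq_mul_integral
      ((hm u).mul (hm v)).aestronglyMeasurable (hm w).aestronglyMeasurable
    simp only [Pi.mul_apply] at this
    rw [this, mom1 hm hl, mul_zero]
  by_cases h1 : x = z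
  · by_cases h2 : y = z
    · subst h1
      subst h2
      exact mom_cube hm hl y
    · have h3 := key x z y (by rw [h1]; exact fun h => h2 h.symm) (fun h => h2 h.symm)
      rw [← h3]
      congr 1
      funext ω
      ring
  · by_cases h2 : y = z
    · have h3 := key y z x (by rw [h2]; exact fun h => h1 h.symm) (fun h => h1 h.symm)
      rw [← h3]
      congr 1
      funext ω
      ring
    · exact key x y z h1 h2

theorem lin7 {c₀ c₅ c₆ : ℝ} {f1 f2 f3 f4 f5 f6 : Ω → ℝ} (h1 : Integrable f1 P)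
    (h2 : Integrable f2 P) (h3 : Integrable f3 P) (h4 : Integrable f4 P) (h5 : Integrable f5 P)
    (h6 : Integrable f6 P) :
    ∫ ω, (c₀ + f1 ω + f2 ω + f3 ω + 2 * f4 ω + c₅ * f5 ω - c₆ * f6 ω) ∂P =
      c₀ + ∫ ω, f1 ω ∂P + ∫ ω, f2 ω ∂P + ∫ ω, f3 ω ∂P + 2 * ∫ ω, f4 ω ∂P +
        c₅ * ∫ ω, f5 ω ∂P - c₆ * ∫ ω, f6 ω ∂P := by
  have I0 : Integrable (fun _ : Ω => c₀) P := integrable_const _
  have I1 : Integrable (fun ω : Ω => c₀ + f1 ω) P := I0.add h1
  have I2 : Integrable (fun ω : Ω => c₀ + f1 ω + f2 ω) P := I1.add h2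
  have I3 : Integrable (fun ω : Ω => c₀ + f1 ω + f2 ω + f3 ω) P := I2.add h3
  have J4 : Integrable (fun ω : Ω => 2 * f4 ω) P := h4.const_mul _
  have I4 : Integrable (fun ω : Ω => c₀ + f1 ω + f2 ω + f3 ω + 2 * f4 ω) P := I3.add J4
  have J5 : Integrable (fun ω : Ω => c₅ * f5 ω) P := h5.const_mul _
  have I5 : Integrable (fun ω : Ω => c₀ + f1 ω + f2 ω + f3 ω + 2 * f4 ω + c₅ * f5 ω) P :=
    I4.add J5
  have J6 : Integrable (fun ω : Ω => c₆ * f6 ω) P := h6.const_mul _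
  rw [integral_sub I5 J6, integral_add I4 J5, integral_add I3 J4, integral_add I2 h3,
    integral_add I1 h2, integral_add I0 h1, integral_const_mul, integral_const_mul,
    integral_const_mul]
  simp

/-- the expectation of the form is large -/
theorem exp_ge (hm : ∀ y, Measurable (ξ y)) (hl : ∀ y, P.map (ξ y) = gaussianReal 0 1)
    (hi : iIndepFun ξ P) (Λ : Finset (Site d)) {a s : ℝ} (ha : 0 < a) (hs : s ≤ 2 * d + a)
    (σ : ℝ) :
    (∑ y ∈ Λ, dg Λ y - s * Λ.card) + σ ^ 2 * ∑ x ∈ Λ, gr 0 Λ (2 * d + a) x x ≤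
      ∫ ω, XX Λ a s (fun y => σ * ξ y ω) ∂P := by
  have hg : ∀ (x : Site d) (ω : Ω), gv Λ a (fun y => σ * ξ y ω) x =
      ∑ y ∈ Λ, σ * gr 0 Λ (2 * d + a) x y * ξ y ω := by
    intro x ω
    unfold gv
    exact Finset.sum_congr rfl fun y _ => by ring
  have hg2 : ∀ (x : Site d) (ω : Ω), gv Λ a (fun y => σ * ξ y ω) x ^ 2 =
      ∑ y ∈ Λ, ∑ z ∈ Λ, (σ * gr 0 Λ (2 * d + a) x y) * (σ * gr 0 Λ (2 * d + a) x z) *
        (ξ y ω * ξ z ω) := by
    intro x ω
    rw [hg, sq, Finset.sum_mul_sum]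
    exact Finset.sum_congr rfl fun y _ => Finset.sum_congr rfl fun z _ => by ring
  -- integrability and integrals of the terms
  have i1 : ∀ x, Integrable (fun ω => gv Λ a (fun y => σ * ξ y ω) x) P := by
    intro x
    simp_rw [hg]
    exact integrable_finsetSum _ fun y _ => (int1 hm hl y).const_mul _
  have j1 : ∀ x, ∫ ω, gv Λ a (fun y => σ * ξ y ω) x ∂P = 0 := by
    intro x
    simp_rw [hg]
    rw [integral_finsetSum _ fun y _ => (int1 hm hl y).const_mul _]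
    refine Finset.sum_eq_zero fun y _ => ?_
    rw [integral_const_mul, mom1 hm hl, mul_zero]
  have i2 : ∀ x, Integrable (fun ω => gv Λ a (fun y => σ * ξ y ω) x ^ 2) P := by
    intro x
    simp_rw [hg2]
    exact integrable_finsetSum _ fun y _ => integrable_finsetSum _ fun z _ =>
      (int2 hm hl y z).const_mul _
  have hV1 : ∀ (x : Site d) (ω : Ω), σ * ξ x ω * gv Λ a (fun y => σ * ξ y ω) x =
      ∑ y ∈ Λ, (σ ^ 2 * gr 0 Λ (2 * d + a) x y) * (ξ x ω * ξ y ω) := by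
    intro x ω
    rw [hg, Finset.mul_sum]
    exact Finset.sum_congr rfl fun y _ => by ring
  have i3 : ∀ x, Integrable (fun ω => σ * ξ x ω * gv Λ a (fun y => σ * ξ y ω) x) P := by
    intro x
    simp_rw [hV1]
    exact integrable_finsetSum _ fun y _ => (int2 hm hl x y).const_mul _
  have j3 : ∀ x ∈ Λ, ∫ ω, σ * ξ x ω * gv Λ a (fun y => σ * ξ y ω) x ∂P =
      σ ^ 2 * gr 0 Λ (2 * d + a) x x := by
    intro x hx
    simp_rw [hV1]
    rw [integral_finsetSum _ fun y _ => (int2 hm hl x y).const_mul _]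
    simp_rw [integral_const_mul, mom2 hm hl hi]
    simp [hx]
  have hV2 : ∀ (x : Site d) (ω : Ω), σ * ξ x ω * gv Λ a (fun y => σ * ξ y ω) x ^ 2 =
      ∑ y ∈ Λ, ∑ z ∈ Λ, (σ * (σ * gr 0 Λ (2 * d + a) x y) * (σ * gr 0 Λ (2 * d + a) x z)) *
        (ξ x ω * ξ y ω * ξ z ω) := by
    intro x ω
    rw [hg2, Finset.mul_sum]
    refine Finset.sum_congr rfl fun y _ => ?_
    rw [Finset.mul_sum]
    exact Finset.sum_congr rfl fun z _ => by ring
  have i4 : ∀ x, Integrable (fun ω => σ * ξ x ω * gv Λ a (fun y => σ * ξ y ω) x ^ 2) P := by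
    intro x
    simp_rw [hV2]
    exact integrable_finsetSum _ fun y _ => integrable_finsetSum _ fun z _ =>
      (int3 hm hl x y z).const_mul _
  have j4 : ∀ x, ∫ ω, σ * ξ x ω * gv Λ a (fun y => σ * ξ y ω) x ^ 2 ∂P = 0 := by
    intro x
    simp_rw [hV2]
    rw [integral_finsetSum _ fun y _ => integrable_finsetSum _ fun z _ =>
      (int3 hm hl x y z).const_mul _]
    refine Finset.sum_eq_zero fun y _ => ?_
    rw [integral_finsetSum _ fun z _ => (int3 hm hl x y z).const_mul _]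
    refine Finset.sum_eq_zero fun z _ => ?_
    rw [integral_const_mul, mom3 hm hl hi, mul_zero]
  have i5 : ∀ x, Integrable (fun ω => σ * ξ x ω) P := fun x => (int1 hm hl x).const_mul _
  have j5 : ∀ x, ∫ ω, σ * ξ x ω ∂P = 0 := by
    intro x
    rw [integral_const_mul, mom1 hm hl, mul_zero]
  have hX : ∀ ω, XX Λ a s (fun y => σ * ξ y ω) = (∑ y ∈ Λ, dg Λ y - s * Λ.card) +
      (∑ y ∈ Λ, σ * ξ y ω) + (∑ y ∈ Λ, σ * ξ y ω * gv Λ a (fun y => σ * ξ y ω) y) +
      (∑ y ∈ Λ, σ * ξ y ω * gv Λ a (fun y => σ * ξ y ω) y ^ 2) +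
      2 * (∑ y ∈ Λ, dg Λ y * gv Λ a (fun y => σ * ξ y ω) y) +
      (2 * d + a - s) * (∑ y ∈ Λ, gv Λ a (fun y => σ * ξ y ω) y ^ 2) -
      2 * s * (∑ y ∈ Λ, gv Λ a (fun y => σ * ξ y ω) y) := fun ω => XX_eq ha s _
  simp_rw [hX]
  have I5 := integrable_finsetSum Λ fun y _ => i5 y
  have I3 := integrable_finsetSum Λ fun y _ => i3 y
  have I4 := integrable_finsetSum Λ fun y _ => i4 y
  have I6 := integrable_finsetSum Λ fun y (_ : y ∈ Λ) => (i1 y).const_mul (dg Λ y)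
  have I2 := integrable_finsetSum Λ fun y _ => i2 y
  have I1 := integrable_finsetSum Λ fun y _ => i1 y
  rw [lin7 I5 I3 I4 I6 I2 I1,
    integral_finsetSum _ fun y _ => i5 y, integral_finsetSum _ fun y _ => i3 y,
    integral_finsetSum _ fun y _ => i4 y,
    integral_finsetSum _ fun y _ => (i1 y).const_mul (dg Λ y),
    integral_finsetSum _ fun y _ => i1 y]
  have k6 : ∑ y ∈ Λ, ∫ ω, dg Λ y * gv Λ a (fun y => σ * ξ y ω) y ∂P = 0 :=
    Finset.sum_eq_zero fun y _ => by rw [integral_const_mul, j1, mul_zero]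
  have k5 : ∑ y ∈ Λ, ∫ ω, σ * ξ y ω ∂P = 0 := Finset.sum_eq_zero fun y _ => j5 y
  have k4 : ∑ y ∈ Λ, ∫ ω, σ * ξ y ω * gv Λ a (fun y => σ * ξ y ω) y ^ 2 ∂P = 0 :=
    Finset.sum_eq_zero fun y _ => j4 y
  have k1 : ∑ y ∈ Λ, ∫ ω, gv Λ a (fun y => σ * ξ y ω) y ∂P = 0 :=
    Finset.sum_eq_zero fun y _ => j1 y
  rw [k6, k5, k4, k1, Finset.sum_congr rfl j3, ← Finset.mul_sum]
  have k2 : 0 ≤ ∫ ω, ∑ y ∈ Λ, gv Λ a (fun y => σ * ξ y ω) y ^ 2 ∂P :=
    integral_nonneg fun ω => Finset.sum_nonneg fun y _ => sq_nonneg _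
  have k0 : 0 ≤ 2 * d + a - s := by linarith only [hs]
  have := mul_nonneg k0 k2
  linarith only [this]

/-- the second moment method -/
theorem pz {X : Ω → ℝ} (hX : Measurable X) (h1 : Integrable X P)
    (h2 : Integrable (fun ω => X ω ^ 2) P) {e m : ℝ} (he : 0 < e) (hm : 0 < m)
    (hE : e ≤ ∫ ω, X ω ∂P) (hM : ∫ ω, X ω ^ 2 ∂P ≤ m) :
    ENNReal.ofReal (e ^ 2 / m) ≤ P {ω | 0 < X ω} := by
  set A : Set Ω := {ω | 0 < X ω} with hA
  have hAm : MeasurableSet A := measurableSet_lt measurable_const hX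
  have h3 : ∀ ω, X ω ≤ e / m / 2 * X ω ^ 2 + m / (2 * e) * A.indicator (fun _ => (1 : ℝ)) ω := by
    intro ω
    have hc : 0 < e / m := div_pos he hm
    by_cases hω : ω ∈ A
    · rw [Set.indicator_of_mem hω]
      have : 0 ≤ (e / m * X ω - 1) ^ 2 := sq_nonneg _
      have h4 : e / m / 2 * X ω ^ 2 + m / (2 * e) * 1 - X ω =
          m / (2 * e) * (e / m * X ω - 1) ^ 2 := by
        field_simp
        ring
      have h5 : 0 ≤ m / (2 * e) * (e / m * X ω - 1) ^ 2 := by positivity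
      linarith only [h5, h4]
    · rw [Set.indicator_of_notMem hω]
      have : X ω ≤ 0 := not_lt.1 hω
      have : 0 ≤ e / m / 2 * X ω ^ 2 := by positivity
      linarith
  have hAi : Integrable (A.indicator (fun _ => (1 : ℝ))) P :=
    (integrable_const (1 : ℝ)).indicator hAm
  have h4 : ∫ ω, X ω ∂P ≤ ∫ ω, (e / m / 2 * X ω ^ 2 +
      m / (2 * e) * A.indicator (fun _ => (1 : ℝ)) ω) ∂P :=
    integral_mono h1 ((h2.const_mul _).add (hAi.const_mul _)) h3
  rw [integral_add (h2.const_mul _) (hAi.const_mul _), integral_const_mul, integral_const_mul,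
    integral_indicator_const _ hAm] at h4
  simp only [smul_eq_mul, mul_one] at h4
  have h5 : e / m / 2 * ∫ ω, X ω ^ 2 ∂P ≤ e / 2 := by
    calc e / m / 2 * ∫ ω, X ω ^ 2 ∂P ≤ e / m / 2 * m := by gcongr
      _ = e / 2 := by field_simp
  have h6 : e / 2 ≤ m / (2 * e) * P.real A := by linarith only [h5, h4, hE]
  have h7 : e ^ 2 / m ≤ P.real A := by
    rw [div_le_iff₀ hm]
    have h8 : m / (2 * e) * P.real A * (2 * e) = m * P.real A := by field_simp
    nlinarith only [h8, h5, h4, hE, he]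
  rw [← ENNReal.ofReal_toReal (measure_ne_top P A)]
  exact ENNReal.ofReal_le_ofReal h7

/-- the sixth moment of `1 + ∑ |ξ|` -/
theorem sixth (hm : ∀ y, Measurable (ξ y)) (hl : ∀ y, P.map (ξ y) = gaussianReal 0 1)
    (Λ : Finset (Site d)) (hΛ : 1 ≤ Λ.card) :
    Integrable (fun ω => (1 + ∑ y ∈ Λ, |ξ y ω|) ^ 6) P ∧
    ∫ ω, (1 + ∑ y ∈ Λ, |ξ y ω|) ^ 6 ∂P ≤
      32 * (1 + ∫ t, |t| ^ 6 ∂(gaussianReal 0 1)) * (Λ.card : ℝ) ^ 6 := by
  have hb : ∀ ω, (1 + ∑ y ∈ Λ, |ξ y ω|) ^ 6 ≤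
      32 * (1 + (Λ.card : ℝ) ^ 5 * ∑ y ∈ Λ, |ξ y ω| ^ 6) := by
    intro ω
    have hS : 0 ≤ ∑ y ∈ Λ, |ξ y ω| := Finset.sum_nonneg fun y _ => abs_nonneg _
    have h1 := add_pow_le zero_le_one hS 6
    have h2 := pow_sum_div_card_le_sum_pow (s := Λ) (f := fun y => |ξ y ω|)
      (fun y _ => abs_nonneg _) 5
    have hc : (0 : ℝ) < (Λ.card : ℝ) ^ 5 := by
      have : (0 : ℝ) < Λ.card := by exact_mod_cast hΛ
      positivity
    rw [div_le_iff₀ hc] at h2
    norm_num at h1 h2 ⊢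
    nlinarith only [h2, h1]
  have hi : Integrable (fun ω => 32 * (1 + (Λ.card : ℝ) ^ 5 * ∑ y ∈ Λ, |ξ y ω| ^ 6)) P :=
    ((integrable_const (1 : ℝ)).add ((integrable_finsetSum _
      fun y _ => int_pow hm hl y 6).const_mul _)).const_mul _
  have hmeas : Measurable (fun ω => (1 + ∑ y ∈ Λ, |ξ y ω|) ^ 6) :=
    (measurable_const.add (Finset.measurable_fun_sum _ fun y _ => (hm y).abs)).pow_const 6
  have hint : Integrable (fun ω => (1 + ∑ y ∈ Λ, |ξ y ω|) ^ 6) P := by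
    refine hi.mono' hmeas.aestronglyMeasurable ?_
    filter_upwards with ω
    rw [Real.norm_eq_abs, abs_of_nonneg]
    · exact hb ω
    · have hS : 0 ≤ ∑ y ∈ Λ, |ξ y ω| := Finset.sum_nonneg fun y _ => abs_nonneg _
      positivity
  refine ⟨hint, ?_⟩
  have h6 : ∀ y, ∫ ω, |ξ y ω| ^ 6 ∂P = ∫ t, |t| ^ 6 ∂(gaussianReal 0 1) := by
    intro y
    have h := integral_map (μ := P) (hm y).aemeasurable (f := fun t : ℝ => |t| ^ 6)
      (by fun_prop)
    rw [← h, hl y]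
  calc ∫ ω, (1 + ∑ y ∈ Λ, |ξ y ω|) ^ 6 ∂P
      ≤ ∫ ω, 32 * (1 + (Λ.card : ℝ) ^ 5 * ∑ y ∈ Λ, |ξ y ω| ^ 6) ∂P := integral_mono hint hi hb
    _ = 32 * (1 + (Λ.card : ℝ) ^ 6 * ∫ t, |t| ^ 6 ∂(gaussianReal 0 1)) := by
        rw [integral_const_mul, integral_add (integrable_const _) ((integrable_finsetSum _
          fun y _ => int_pow hm hl y 6).const_mul _), integral_const_mul,
          integral_finsetSum _ fun y _ => int_pow hm hl y 6]
        simp only [h6, integral_const, probReal_univ, smul_eq_mul, mul_one, Finset.sum_const,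
          nsmul_eq_mul]
        ring
    _ ≤ _ := by
        have h0 : 0 ≤ ∫ t, |t| ^ 6 ∂(gaussianReal 0 1) := integral_nonneg fun t => by positivity
        have h1 : (1 : ℝ) ≤ (Λ.card : ℝ) ^ 6 := by
          have : (1 : ℝ) ≤ Λ.card := by exact_mod_cast hΛ
          exact one_le_pow₀ this
        nlinarith only [h1]

end moments

/-! ### numerics -/

theorem abs_le_one_add_sq (x : ℝ) : |x| ≤ 1 + x ^ 2 := by
  nlinarith only [sq_nonneg (|x| - 1), sq_abs x, abs_nonneg x]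

theorem exp_half_le {x : ℝ} (h0 : 0 ≤ x) (h1 : x ≤ 1) : Real.exp (x / 2) ≤ 1 + x := by
  have h2 := Real.add_one_le_exp (-(x / 2))
  rw [Real.exp_neg] at h2
  have h3 : 0 < Real.exp (x / 2) := Real.exp_pos _
  have h4 : (-(x / 2) + 1) * Real.exp (x / 2) ≤ 1 := by
    calc (-(x / 2) + 1) * Real.exp (x / 2) ≤ (Real.exp (x / 2))⁻¹ * Real.exp (x / 2) := by gcongr
      _ = 1 := inv_mul_cancel₀ h3.ne'
  nlinarith only [h4, h1, h0]

theorem tail_small {d : ℕ} (hd : 3 ≤ d) {w τ : ℝ} (hw : 0 ≤ w) (hτ : 0 < τ)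
    (h1 : 5040 * (4 * d : ℝ) ^ 7 * τ ≤ 1) (ha1 : (w + 1) * τ ^ 4 ≤ 1) {N : ℕ}
    (hN : (τ⁻¹) ^ 5 ≤ (N : ℝ)) :
    1 / ((w + 1) * τ ^ 4) * (1 + (w + 1) * τ ^ 4 / (2 * d)) ^ (-(N : ℝ)) ≤ τ ^ 2 := by
  have hd' : (3 : ℝ) ≤ d := by exact_mod_cast hd
  set x : ℝ := (w + 1) * τ ^ 4 / (2 * d) with hx
  have hx0 : 0 < x := by positivity
  have hx1 : x ≤ 1 := by
    rw [hx, div_le_one (by positivity)]
    linarith only [hd', ha1]
  have h2 : (1 + x) ^ (-(N : ℝ)) ≤ Real.exp (-(τ⁻¹ / (4 * d))) := by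
    rw [Real.rpow_neg (by positivity), Real.rpow_natCast, Real.exp_neg]
    apply inv_anti₀ (Real.exp_pos _)
    calc Real.exp (τ⁻¹ / (4 * d)) ≤ Real.exp (N * (x / 2)) := by
          apply Real.exp_le_exp.2
          have h3 : τ⁻¹ / (4 * d) = (τ⁻¹) ^ 5 * (τ ^ 4 / (4 * d)) := by
            field_simp
          rw [h3]
          have h4 : τ ^ 4 / (4 * d) ≤ x / 2 := by
            rw [hx]
            have : (w + 1) * τ ^ 4 / (2 * d) / 2 = (w + 1) * (τ ^ 4 / (4 * d)) := by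
              field_simp
              ring
            rw [this]
            have h5 : 0 ≤ τ ^ 4 / (4 * d) := by positivity
            nlinarith only [this, hx0, hw]
          gcongr
      _ = Real.exp (x / 2) ^ N := by rw [← Real.exp_nat_mul]
      _ ≤ (1 + x) ^ N := pow_le_pow_left₀ (Real.exp_pos _).le (exp_half_le hx0.le hx1) N
  set z : ℝ := τ⁻¹ / (4 * d) with hz
  have hz0 : 0 < z := by positivity
  have h3 : Real.exp (-z) ≤ 5040 * (4 * d : ℝ) ^ 7 * τ ^ 7 := by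
    have h4 := Real.pow_div_factorial_le_exp z hz0.le 7
    rw [Real.exp_neg]
    have h5 : z ^ 7 / (Nat.factorial 7 : ℝ) = (5040 * (4 * d : ℝ) ^ 7 * τ ^ 7)⁻¹ := by
      rw [hz]
      have : (Nat.factorial 7 : ℝ) = 5040 := by norm_num [Nat.factorial]
      rw [this]
      field_simp
    rw [h5] at h4
    rw [inv_le_comm₀ (Real.exp_pos _) (by positivity)]
    exact h4
  calc 1 / ((w + 1) * τ ^ 4) * (1 + x) ^ (-(N : ℝ))
      ≤ 1 / τ ^ 4 * (5040 * (4 * d : ℝ) ^ 7 * τ ^ 7) := by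
        apply mul_le_mul _ (h2.trans h3) (by positivity) (by positivity)
        apply one_div_le_one_div_of_le (by positivity)
        have : 0 < τ ^ 4 := by positivity
        nlinarith only [this, hw]
    _ = (5040 * (4 * d : ℝ) ^ 7 * τ) * τ ^ 2 := by field_simp
    _ ≤ 1 * τ ^ 2 := by gcongr
    _ = τ ^ 2 := one_mul _

theorem cmp {d : ℕ} (hd : 3 ≤ d) {t K' : ℝ} {L : ℕ} (ht0 : 0 < t) (ht1 : t ≤ 1)
    (hL2 : (L : ℝ) ≤ 2 * t⁻¹ ^ 3) (hK'0 : 0 < K') (b4 : t * (K' * 5 ^ (6 * d)) ≤ 1) :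
    t ^ (24 * d) ≤ ((2 * L + 1 : ℝ) ^ d * t ^ 3) ^ 2 /
      (K' * ((2 * L + 1 : ℝ) ^ d) ^ 8 / t ^ 4) := by
  set M : ℝ := (2 * L + 1 : ℝ) ^ d with hM
  have hM0 : 0 < M := by positivity
  have h1 : (M * t ^ 3) ^ 2 / (K' * M ^ 8 / t ^ 4) = t ^ 10 / (K' * M ^ 6) := by
    field_simp
  rw [h1, le_div_iff₀ (by positivity)]
  have h2 : (2 * L + 1 : ℝ) * t ^ 3 ≤ 5 := by
    have h3 : (2 * L + 1 : ℝ) ≤ 4 * t⁻¹ ^ 3 + 1 := by linarith only [hL2]
    have h4 : t⁻¹ ^ 3 * t ^ 3 = 1 := by field_simp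
    have h5 : t ^ 3 ≤ 1 := pow_le_one₀ ht0.le ht1
    calc (2 * L + 1 : ℝ) * t ^ 3 ≤ (4 * t⁻¹ ^ 3 + 1) * t ^ 3 := by gcongr
      _ = 4 * (t⁻¹ ^ 3 * t ^ 3) + t ^ 3 := by ring
      _ ≤ 5 := by rw [h4]; linarith only [h5]
  have h3 : M * t ^ (3 * d) ≤ 5 ^ d := by
    rw [hM, pow_mul, ← mul_pow]
    exact pow_le_pow_left₀ (by positivity) h2 d
  have h4 : t ^ (24 * d) * (K' * M ^ 6) = K' * (M * t ^ (3 * d)) ^ 6 * t ^ (6 * d) := by
    rw [mul_pow, ← pow_mul]
    have : t ^ (24 * d) = t ^ (3 * d * 6) * t ^ (6 * d) := by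
      rw [← pow_add]
      congr 1
      ring
    rw [this]
    ring
  rw [h4]
  calc K' * (M * t ^ (3 * d)) ^ 6 * t ^ (6 * d)
      ≤ K' * (5 ^ d) ^ 6 * t ^ (6 * d) := by gcongr
    _ = (t * (K' * 5 ^ (6 * d))) * t ^ (6 * d - 1) := by
        rw [← pow_mul, mul_comm d 6]
        have : t ^ (6 * d) = t * t ^ (6 * d - 1) := by
          rw [← pow_succ']
          congr 1
          omega
        rw [this]
        ring
    _ ≤ 1 * t ^ (6 * d - 1) := by gcongr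
    _ ≤ 1 * t ^ 10 := by
        gcongr 1 * ?_
        exact pow_le_pow_of_le_one ht0.le ht1 (by omega)
    _ = t ^ 10 := one_mul _

theorem low (h : GreenLowStmt) : LowStmt := by
  intro d hd
  obtain ⟨C₁, hC₁, hG⟩ := h d hd
  have hd' : (3 : ℝ) ≤ d := by exact_mod_cast hd
  set w : ℝ := watson d with hwdef
  have hw : 0 ≤ w := tsum_nonneg fun n => by positivity
  set m6 : ℝ := ∫ t, |t| ^ 6 ∂(gaussianReal 0 1) with hm6
  have hm60 : 0 ≤ m6 := integral_nonneg fun t => by positivity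
  set r : ℝ := 1 / (24 * d : ℝ) with hr
  have hr0 : 0 < r := by positivity
  have hr1 : r ≤ 1 / 2 := by
    rw [hr]
    apply one_div_le_one_div_of_le (by norm_num)
    linarith only [hd']
  set C : ℝ := 2 * d ^ 2 + 2 * d * w + C₁ * (w + 1) + 2 with hC
  have hC0 : 0 < C := by positivity
  set K : ℝ := 4 * d + w + C + 1 with hK
  have hK0 : 0 < K := by positivity
  set K' : ℝ := K ^ 2 * (32 * (1 + m6)) with hK'
  have hK'0 : 0 < K' := by positivity
  set τ₀ : ℝ := min (1 / 2) (min (1 / (w + 1)) (min (1 / (5040 * (4 * d : ℝ) ^ 7))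
    (1 / (K' * 5 ^ (6 * d))))) with hτ₀
  have hτ₀0 : 0 < τ₀ := by
    rw [hτ₀]
    refine lt_min (by norm_num) (lt_min (by positivity) (lt_min (by positivity) (by positivity)))
  refine ⟨τ₀ ^ 2, C, by positivity, hC0, ?_⟩
  intro σ hσ hσ1 L hL1 hL2 Ω _ P _ ξ hm hl hi
  set t : ℝ := |σ| with ht
  have ht0 : 0 < t := abs_pos.2 hσ
  set τ : ℝ := √t with hτ
  have hτ0 : 0 < τ := Real.sqrt_pos.2 ht0
  have hτ2 : τ ^ 2 = t := Real.sq_sqrt ht0.le
  have hτ1 : τ < τ₀ := by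
    rw [hτ, Real.sqrt_lt' hτ₀0]
    exact hσ1
  have b1 : τ ≤ 1 / 2 := hτ1.le.trans (min_le_left _ _)
  have b2 : τ ≤ 1 / (w + 1) := hτ1.le.trans ((min_le_right _ _).trans (min_le_left _ _))
  have b3 : τ ≤ 1 / (5040 * (4 * d : ℝ) ^ 7) :=
    hτ1.le.trans ((min_le_right _ _).trans ((min_le_right _ _).trans (min_le_left _ _)))
  have b4 : τ ≤ 1 / (K' * 5 ^ (6 * d)) :=
    hτ1.le.trans ((min_le_right _ _).trans ((min_le_right _ _).trans (min_le_right _ _)))
  rw [le_div_iff₀ (by positivity)] at b2 b3 b4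
  have hτle1 : τ ≤ 1 := by linarith only [b1]
  have ht1 : t ≤ 1 := by
    rw [← hτ2]
    exact pow_le_one₀ hτ0.le hτle1
  have htτ : t ≤ τ := by
    rw [← hτ2]
    exact pow_le_of_le_one hτ0.le hτle1 two_ne_zero
  have hσ2 : σ ^ 2 = t ^ 2 := by rw [ht, sq_abs]
  -- powers
  have hr2 : t ^ (2 + r) = t ^ 2 * t ^ r := by
    rw [Real.rpow_add ht0]
    congr 1
    exact_mod_cast Real.rpow_natCast t 2
  have htr0 : 0 < t ^ r := Real.rpow_pos_of_pos ht0 r
  have hτr : τ ≤ t ^ r := by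
    rw [hτ, Real.sqrt_eq_rpow]
    exact Real.rpow_le_rpow_of_exponent_ge ht0 ht1 hr1
  have htr : t ≤ t ^ r := htτ.trans hτr
  -- the parameters
  set a : ℝ := (w + 1) * τ ^ 4 with hadef
  have hat : a = (w + 1) * t ^ 2 := by
    rw [hadef, ← hτ2]
    ring
  have ha0 : 0 < a := by positivity
  have ha1 : a ≤ 1 := by
    have : a = (τ * (w + 1)) * τ ^ 3 := by rw [hadef]; ring
    rw [this]
    exact mul_le_one₀ b2 (by positivity) (pow_le_one₀ hτ0.le hτle1)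
  set N : ℕ := ⌈(τ⁻¹) ^ 5⌉₊ with hN
  have hN1 : (τ⁻¹) ^ 5 ≤ (N : ℝ) := Nat.le_ceil _
  have hτi : 2 ≤ τ⁻¹ := by
    rw [le_inv_comm₀ (by norm_num) hτ0]
    linarith only [b1]
  have hN2 : (N : ℝ) ≤ 2 * (τ⁻¹) ^ 5 := by
    have h1 : (N : ℝ) < (τ⁻¹) ^ 5 + 1 := Nat.ceil_lt_add_one (by positivity)
    have h2 : 1 ≤ (τ⁻¹) ^ 5 := one_le_pow₀ (by linarith only [hτi])
    linarith only [h2, h1]
  have ht3 : t⁻¹ ^ 3 = (τ⁻¹) ^ 6 := by
    rw [← hτ2, inv_pow, inv_pow, ← pow_mul]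
  have hNL : N ≤ L := by
    have h1 : (N : ℝ) ≤ L := by
      calc (N : ℝ) ≤ 2 * (τ⁻¹) ^ 5 := hN2
        _ ≤ τ⁻¹ * (τ⁻¹) ^ 5 := by gcongr
        _ = t⁻¹ ^ 3 := by rw [ht3]; ring
        _ ≤ L := hL1
    exact_mod_cast h1
  set b : ℝ := w * σ ^ 2 - C * t ^ (2 + r) with hb
  set s : ℝ := 2 * d + w * σ ^ 2 - C * t ^ (2 + r) with hs
  have ht2r0 : 0 < t ^ (2 + r) := Real.rpow_pos_of_pos ht0 _
  have ht2r1 : t ^ (2 + r) ≤ 1 := Real.rpow_le_one ht0.le ht1 (by positivity)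
  have ht2 : t ^ 2 ≤ 1 := pow_le_one₀ ht0.le ht1
  have ht20 : 0 < t ^ 2 := by positivity
  have hs1 : s ≤ 2 * d + a := by
    rw [hs, hat, hσ2]
    have h1 := mul_pos hC0 ht2r0
    have h2 : (w + 1) * t ^ 2 = w * t ^ 2 + t ^ 2 := by ring
    rw [h2]
    clear_value C t w τ
    clear b1 b2 b3 b4 hτ₀ hτ1 hL1 hL2 hN1 hN2 ha1 htr hτr htr0 hτle1 ht1 htτ
    linarith only [h1, ht20]
  have hs2 : |s| ≤ 2 * d + w + C := by
    rw [abs_le, hs, hσ2]
    have h1 := mul_pos hC0 ht2r0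
    have h2 : C * t ^ (2 + r) ≤ C := mul_le_of_le_one_right hC0.le ht2r1
    have h3 : 0 ≤ w * t ^ 2 := by positivity
    have h4 : w * t ^ 2 ≤ w := mul_le_of_le_one_right hw ht2
    constructor <;> linarith only [h2, ht2, ha0, hat, hw, hd', h4, h1, hC0]
  set Λ := box (0 : Site d) L with hΛ
  set M : ℝ := (2 * L + 1 : ℝ) ^ d with hM
  have hM1 : 1 ≤ M := one_le_pow₀ (by linarith only [(Nat.cast_nonneg L : (0 : ℝ) ≤ L)])
  have hM0 : 0 < M := by linarith only [hM1]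
  have hcard : (Λ.card : ℝ) = M := by
    rw [hΛ, card_box]
    push_cast
    rfl
  have hcard1 : 1 ≤ Λ.card := by
    rw [hΛ, card_box]
    exact Nat.one_le_pow _ _ (by omega)
  set q : ℝ := C₁ * a ^ (1 / (2 * d : ℝ)) + (1 / a) * (1 + a / (2 * d)) ^ (-(N : ℝ)) with hq
  have hq0 : 0 ≤ q := by positivity
  have hq1 : q ≤ (C₁ * (w + 1) + 1) * t ^ r := by
    have h1 : a ^ (1 / (2 * d : ℝ)) ≤ (w + 1) * t ^ r := by
      rw [hat, Real.mul_rpow (by positivity) (by positivity)]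
      have h2 : (w + 1) ^ (1 / (2 * d : ℝ)) ≤ w + 1 := by
        have h3 : (w + 1) ^ (1 / (2 * d : ℝ)) ≤ (w + 1) ^ (1 : ℝ) := by
          apply Real.rpow_le_rpow_of_exponent_le (by linarith only [hw])
          rw [div_le_one (by positivity)]
          linarith only [hd']
        rwa [Real.rpow_one] at h3
      have h4 : (t ^ 2) ^ (1 / (2 * d : ℝ)) ≤ t ^ r := by
        have h5 : (t ^ 2) ^ (1 / (2 * d : ℝ)) = t ^ (2 * (1 / (2 * d : ℝ))) := by
          rw [Real.rpow_mul ht0.le]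
          congr 1
          exact_mod_cast (Real.rpow_natCast t 2).symm
        rw [h5]
        apply Real.rpow_le_rpow_of_exponent_ge ht0 ht1
        rw [hr]
        have : 2 * (1 / (2 * d : ℝ)) = 1 / d := by field_simp
        rw [this]
        apply one_div_le_one_div_of_le (by positivity)
        linarith only []
      gcongr
    have h2 := tail_small hd hw hτ0 (by linarith only [b3]) ha1 hN1
    rw [← hadef, hτ2] at h2
    calc q ≤ C₁ * ((w + 1) * t ^ r) + t := by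
          rw [hq]
          gcongr
      _ ≤ C₁ * ((w + 1) * t ^ r) + t ^ r := by gcongr
      _ = _ := by ring
  -- the expectation
  have hEX := exp_ge hm hl hi Λ ha0 hs1 σ
  set X : Ω → ℝ := fun ω => XX Λ a s (fun y => σ * ξ y ω) with hX
  have hR : (0 : ℝ) < 2 * L + 1 := by positivity
  have hLt : t⁻¹ ^ 3 * 2 ≤ 2 * L + 1 := by linarith only [hL1]
  have p1 : 2 * (d : ℝ) * (2 * d / (2 * L + 1)) ≤ 2 * d ^ 2 * t ^ 3 := by
    have h1 : (2 * (d : ℝ)) / (2 * L + 1) ≤ d * t ^ 3 := by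
      rw [div_le_iff₀ hR]
      calc 2 * (d : ℝ) = d * t ^ 3 * (t⁻¹ ^ 3 * 2) := by field_simp
        _ ≤ d * t ^ 3 * (2 * L + 1) := by gcongr
    calc 2 * (d : ℝ) * (2 * d / (2 * L + 1)) ≤ 2 * d * (d * t ^ 3) := by gcongr
      _ = _ := by ring
  have p2 : 2 * (d : ℝ) * N / (2 * L + 1) ≤ 2 * d * τ := by
    rw [div_le_iff₀ hR]
    calc 2 * (d : ℝ) * N ≤ 2 * d * (2 * (τ⁻¹) ^ 5) := by gcongr
      _ = 2 * d * τ * (t⁻¹ ^ 3 * 2) := by
          rw [ht3]
          field_simp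
      _ ≤ 2 * d * τ * (2 * L + 1) := by gcongr
  have e1 := sum_dg_ge (d := d) L
  have e2 := trace_ge (d := d) (L := L) (N := N) (a := a) ha0 hNL hw hq0 (by
    intro x hx
    have h1 := hG Λ N a x ha0 ha1 (by
      intro y hy
      rw [hΛ]
      rw [mem_box] at *
      have := sd_triangle 0 x y
      omega)
    rw [← hwdef, hq]
    linarith only [h1])
  have hE : M * t ^ 3 ≤ ∫ ω, X ω ∂P := by
    refine le_trans ?_ hEX
    rw [hcard, hσ2]
    have h1 : t ^ 2 * (M * (w * (1 - 2 * d * N / (2 * L + 1)) - q)) ≤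
        t ^ 2 * ∑ x ∈ Λ, gr 0 Λ (2 * d + a) x x := by gcongr
    have h2 : t ^ 2 * (M * (w * (1 - 2 * d * τ) - (C₁ * (w + 1) + 1) * t ^ r)) ≤
        t ^ 2 * (M * (w * (1 - 2 * d * N / (2 * L + 1)) - q)) := by gcongr
    have h3 : M * (2 * d - 2 * d ^ 2 * t ^ 3) ≤
        2 * (d : ℝ) * (M * (1 - 2 * d / (2 * L + 1))) := by
      have : 2 * (d : ℝ) * (M * (1 - 2 * d / (2 * L + 1))) =
        M * (2 * d - 2 * (d : ℝ) * (2 * d / (2 * L + 1))) := by ring
      rw [this]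
      gcongr
    have h4 : M * t ^ 3 ≤ M * (2 * d - 2 * d ^ 2 * t ^ 3) - s * M +
        t ^ 2 * (M * (w * (1 - 2 * d * τ) - (C₁ * (w + 1) + 1) * t ^ r)) := by
      have h5 : M * (2 * d - 2 * d ^ 2 * t ^ 3) - s * M +
          t ^ 2 * (M * (w * (1 - 2 * d * τ) - (C₁ * (w + 1) + 1) * t ^ r)) =
          M * (C * (t ^ 2 * t ^ r) - 2 * d ^ 2 * t ^ 3 - t ^ 2 * (2 * d * w * τ) -
            (C₁ * (w + 1) + 1) * (t ^ 2 * t ^ r)) := by
        rw [hs, hσ2, hr2]
        ring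
      rw [h5]
      apply mul_le_mul_of_nonneg_left _ hM0.le
      have h6 : t ^ 3 ≤ t ^ 2 * t ^ r := by
        calc t ^ 3 = t ^ 2 * t := by ring
          _ ≤ _ := by gcongr
      have h7 : 2 * (d : ℝ) ^ 2 * t ^ 3 ≤ 2 * (d : ℝ) ^ 2 * (t ^ 2 * t ^ r) := by gcongr
      have h8 : t ^ 2 * (2 * d * w * τ) ≤ 2 * d * w * (t ^ 2 * t ^ r) := by
        calc t ^ 2 * (2 * d * w * τ) = 2 * d * w * (t ^ 2 * τ) := by ring
          _ ≤ _ := by gcongr
      rw [hC]
      linarith only [h8, h7, h6]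
    linarith only [h4, h3, h2, h1, e1]
  -- measurability and the second moment
  have hXm : Measurable X := by
    rw [hX]
    have h1 : ∀ y : Site d, Measurable (fun ω => gv Λ a (fun y => σ * ξ y ω) y) := by
      intro y
      unfold gv
      exact Finset.measurable_fun_sum _ fun z _ => ((hm z).const_mul σ).const_mul _
    have h2 : ∀ ω, XX Λ a s (fun y => σ * ξ y ω) = (∑ y ∈ Λ, dg Λ y - s * Λ.card) +
      (∑ y ∈ Λ, σ * ξ y ω) + (∑ y ∈ Λ, σ * ξ y ω * gv Λ a (fun y => σ * ξ y ω) y) +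
      (∑ y ∈ Λ, σ * ξ y ω * gv Λ a (fun y => σ * ξ y ω) y ^ 2) +
      2 * (∑ y ∈ Λ, dg Λ y * gv Λ a (fun y => σ * ξ y ω) y) +
      (2 * d + a - s) * (∑ y ∈ Λ, gv Λ a (fun y => σ * ξ y ω) y ^ 2) -
      2 * s * (∑ y ∈ Λ, gv Λ a (fun y => σ * ξ y ω) y) := fun ω => XX_eq ha0 s _
    simp_rw [h2]
    have m1 : Measurable (fun ω => ∑ y ∈ Λ, σ * ξ y ω) :=
      Finset.measurable_fun_sum _ fun y _ => (hm y).const_mul σ
    have m2 : Measurable (fun ω => ∑ y ∈ Λ, σ * ξ y ω * gv Λ a (fun y => σ * ξ y ω) y) :=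
      Finset.measurable_fun_sum _ fun y _ => ((hm y).const_mul σ).mul (h1 y)
    have m3 : Measurable (fun ω => ∑ y ∈ Λ, σ * ξ y ω * gv Λ a (fun y => σ * ξ y ω) y ^ 2) :=
      Finset.measurable_fun_sum _ fun y _ => ((hm y).const_mul σ).mul ((h1 y).pow_const 2)
    have m4 : Measurable (fun ω => ∑ y ∈ Λ, dg Λ y * gv Λ a (fun y => σ * ξ y ω) y) :=
      Finset.measurable_fun_sum _ fun y _ => (h1 y).const_mul _
    have m5 : Measurable (fun ω => ∑ y ∈ Λ, gv Λ a (fun y => σ * ξ y ω) y ^ 2) :=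
      Finset.measurable_fun_sum _ fun y _ => (h1 y).pow_const 2
    have m6 : Measurable (fun ω => ∑ y ∈ Λ, gv Λ a (fun y => σ * ξ y ω) y) :=
      Finset.measurable_fun_sum _ fun y _ => h1 y
    exact (((((measurable_const.add m1).add m2).add m3).add (m4.const_mul 2)).add
      (m5.const_mul _)).sub (m6.const_mul _)
  obtain ⟨hS1, hS2⟩ := sixth hm hl Λ hcard1
  rw [hcard, ← hm6] at hS2
  have hXle : ∀ ω, |X ω| ≤ M * K * (1 + ∑ y ∈ Λ, |ξ y ω|) ^ 3 / t ^ 2 := by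
    intro ω
    have hS0 : 0 ≤ ∑ y ∈ Λ, |ξ y ω| := Finset.sum_nonneg fun y _ => abs_nonneg _
    have h1 := abs_XX_le (Λ := Λ) (a := a) (s := s) ht0 ht1 (by
        rw [hat]
        exact le_mul_of_one_le_left ht20.le (by linarith only [hw]))
      (fun y => σ * ξ y ω) (S := ∑ y ∈ Λ, |ξ y ω|) (by
        simp_rw [abs_mul]
        rw [← Finset.mul_sum]) hS0
    rw [hcard] at h1
    refine h1.trans ?_
    have h2 : 2 * (d : ℝ) + |s| + 1 ≤ K := by rw [hK]; linarith only [hs2]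
    calc M * ((1 + ∑ y ∈ Λ, |ξ y ω|) / t) ^ 2 * ((2 * d + |s| + 1) * (1 + ∑ y ∈ Λ, |ξ y ω|))
        ≤ M * ((1 + ∑ y ∈ Λ, |ξ y ω|) / t) ^ 2 * (K * (1 + ∑ y ∈ Λ, |ξ y ω|)) := by gcongr
      _ = _ := by field_simp
  have hX2 : ∀ ω, X ω ^ 2 ≤ (M ^ 2 * K ^ 2 / t ^ 4) * (1 + ∑ y ∈ Λ, |ξ y ω|) ^ 6 := by
    intro ω
    have h1 := pow_le_pow_left₀ (abs_nonneg _) (hXle ω) 2
    rw [sq_abs] at h1
    refine h1.trans (le_of_eq ?_)
    field_simp
  have hXi2 : Integrable (fun ω => X ω ^ 2) P := by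
    refine (hS1.const_mul (M ^ 2 * K ^ 2 / t ^ 4)).mono' (hXm.pow_const 2).aestronglyMeasurable ?_
    filter_upwards with ω
    rw [Real.norm_eq_abs, abs_of_nonneg (sq_nonneg _)]
    exact hX2 ω
  have hXi : Integrable X P := by
    refine ((integrable_const (1 : ℝ)).add hXi2).mono' hXm.aestronglyMeasurable ?_
    filter_upwards with ω
    rw [Real.norm_eq_abs, Pi.add_apply]
    exact abs_le_one_add_sq _
  have hXM : ∫ ω, X ω ^ 2 ∂P ≤ K' * M ^ 8 / t ^ 4 := by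
    calc ∫ ω, X ω ^ 2 ∂P ≤ ∫ ω, (M ^ 2 * K ^ 2 / t ^ 4) * (1 + ∑ y ∈ Λ, |ξ y ω|) ^ 6 ∂P :=
          integral_mono hXi2 (hS1.const_mul _) hX2
      _ = (M ^ 2 * K ^ 2 / t ^ 4) * ∫ ω, (1 + ∑ y ∈ Λ, |ξ y ω|) ^ 6 ∂P := integral_const_mul _ _
      _ ≤ (M ^ 2 * K ^ 2 / t ^ 4) * (32 * (1 + m6) * M ^ 6) := by gcongr
      _ = _ := by
          rw [hK']
          ring
  have hfin := pz hXm hXi hXi2 (e := M * t ^ 3) (m := K' * M ^ 8 / t ^ 4) (by positivity)
    (by positivity) hE hXM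
  -- the final comparison
  have hcmp : t ^ (24 * d) ≤ (M * t ^ 3) ^ 2 / (K' * M ^ 8 / t ^ 4) :=
    cmp hd ht0 ht1 hL2 hK'0 ((mul_le_mul_of_nonneg_right htτ (by positivity)).trans b4)
  refine (ENNReal.ofReal_le_ofReal hcmp).trans (hfin.trans (measure_mono ?_))
  intro ω hω
  refine ⟨fun y => 1 + gv Λ a (fun y => σ * ξ y ω) y, ?_⟩
  have hω' : 0 < X ω := hω
  rw [hX] at hω'
  simp only [XX] at hω'
  linarith only [hω']

end Pool.Agent.LOC.H28
end
end -- Pool.Agent.Helper28_LOC.Low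

section -- Pool.Agent.Helper48_LOC.GreenLow

/-!
# LOC: module GREENLOW
-/

set_option autoImplicit false
set_option linter.unusedSectionVars false

open MeasureTheory ProbabilityTheory Function Filter

open scoped ENNReal BigOperators NNReal Topology

noncomputable section

namespace Pool.Agent.LOC.H48

open Pool.Agent.Anderson Pool.Agent.Loc Pool.Agent.LOC

variable {d : ℕ}

theorem walks_eq_zero : ∀ (n : ℕ) (y : Site d), n < sd 0 y → walks n y = 0 := by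
  intro n
  induction n with
  | zero =>
    intro y hy
    rw [walks, if_neg]
    rintro rfl
    rw [sd_self] at hy
    omega
  | succ n ih =>
    intro y hy
    rw [walks]
    apply Finset.sum_eq_zero
    intro i _
    have t1 := sd_triangle 0 (y + Pi.single i 1) y
    have t2 := sd_triangle 0 (y - Pi.single i 1) y
    have t3 := sd_add_single_le y i
    have t4 := sd_sub_single_le y i
    rw [sd_comm] at t3 t4
    rw [ih _ (by omega), ih _ (by omega), add_zero]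

theorem sd_shift (x y : Site d) : sd 0 (y - x) = sd x y := by
  rw [sd_comm x y]
  unfold sd
  apply Finset.sup_congr rfl
  intro i _
  simp only [Pi.zero_apply, Pi.sub_apply]
  omega

theorem SW_eq_zero {E : ℝ} {x y : Site d} {N : ℕ} (h : N ≤ sd x y) : SW E x N y = 0 := by
  unfold SW
  apply Finset.sum_eq_zero
  intro n hn
  rw [Finset.mem_range] at hn
  rw [walks_eq_zero n (y - x) (by rw [sd_shift]; omega), Nat.cast_zero, zero_div]

/-- the truncated walk expansion is a lower bound -/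
theorem SW_le_gr {Λ : Finset (Site d)} {a : ℝ} (ha : 0 < a) {x : Site d} {N : ℕ}
    (hΛ : box x N ⊆ Λ) : ∀ y ∈ Λ, SW (2 * d + a) x (N + 1) y ≤ gr 0 Λ (2 * d + a) x y := by
  have hE : 2 * (d:ℝ) < 2 * d + a := by linarith
  have hE0 : 0 < 2 * (d:ℝ) + a := by positivity
  have hx : x ∈ Λ := hΛ (by rw [mem_box, sd_self]; omega)
  intro y hy
  have h1 := max_principle hE (Λ := Λ)
    (v := fun z => gr 0 Λ (2 * d + a) x z - SW (2 * d + a) x (N + 1) z) ?_ y hy
  · linarith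
  · intro z hz
    have h2 := SW_eq hE0 x (N + 1) z
    have h3 : ∑ z' ∈ Λ, hop z z' * SW (2 * d + a) x (N + 1) z' =
        nb (SW (2 * d + a) x (N + 1)) z := by
      have h4 := sum_hop z (box z 1 ∪ Λ) Finset.subset_union_left (SW (2 * d + a) x (N + 1))
      simp only [smul_eq_mul] at h4
      have h5 : ∑ z' ∈ box z 1 ∪ Λ, hop z z' * SW (2 * d + a) x (N + 1) z' =
        nb (SW (2 * d + a) x (N + 1)) z := h4
      rw [← h5]
      apply Finset.sum_subset Finset.subset_union_right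
      intro z' _ hz'
      have h6 : z' ∉ box x N := fun h => hz' (hΛ h)
      rw [mem_box] at h6
      rw [SW_eq_zero (by omega), mul_zero]
    have h9 : (0:ℝ) ≤ (walks (N + 1) (z - x) : ℝ) / (2 * d + a) ^ (N + 1) := by positivity
    have h10 := gr_zero_eq hE hx hz
    simp_rw [mul_sub]
    rw [Finset.sum_sub_distrib, h3]
    linarith

/-- dyadic use of the resolvent identity -/
theorem gr_double (Λ : Finset (Site d)) {s : ℝ} (hs : 0 < s) {x : Site d} (hx : x ∈ Λ) :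
    gr 0 Λ (2 * d + s) x x ≤ gr 0 Λ (2 * d + 2 * s) x x +
      s * ∑ y ∈ Λ, gr 0 Λ (2 * d + s) x y ^ 2 := by
  have hE : 2 * (d:ℝ) < 2 * d + s := by linarith
  have hE2 : 2 * (d:ℝ) < 2 * d + 2 * s := by linarith
  have h1 := max_principle hE2 (Λ := Λ) (v := fun y => gr 0 Λ (2 * d + 2 * s) x y +
    s * ∑ z ∈ Λ, gr 0 Λ (2 * d + s) x z * gr 0 Λ (2 * d + 2 * s) z y -
      gr 0 Λ (2 * d + s) x y) ?_ x hx
  · have h2 : ∀ z ∈ Λ, gr 0 Λ (2 * d + s) x z * gr 0 Λ (2 * d + 2 * s) z x ≤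
        gr 0 Λ (2 * d + s) x z ^ 2 := by
      intro z hz
      rw [gr_symm 0 Λ (2 * d + 2 * s) z x, sq]
      refine mul_le_mul_of_nonneg_left ?_ (gr_zero_nonneg Λ hE x z)
      refine gr_le_of_super hE2 hx (v := fun y => gr 0 Λ (2 * d + s) x y) ?_ z hz
      intro y hy
      have h3 := gr_zero_eq hE hx hy
      have h4 := mul_nonneg hs.le (gr_zero_nonneg Λ hE x y)
      linarith
    have h3 := mul_le_mul_of_nonneg_left (Finset.sum_le_sum h2) hs.le
    linarith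
  · intro y hy
    have e1 := gr_zero_eq hE hx hy
    have e2 := gr_zero_eq hE2 hx hy
    have e3 : ∑ y' ∈ Λ, hop y y' *
        (∑ z ∈ Λ, gr 0 Λ (2 * d + s) x z * gr 0 Λ (2 * d + 2 * s) z y') =
        ∑ z ∈ Λ, gr 0 Λ (2 * d + s) x z *
          ∑ y' ∈ Λ, hop y y' * gr 0 Λ (2 * d + 2 * s) z y' := by
      simp_rw [Finset.mul_sum]
      rw [Finset.sum_comm]
      refine Finset.sum_congr rfl fun z _ => Finset.sum_congr rfl fun y' _ => by ring
    have e4 : (2 * d + 2 * s) * ∑ z ∈ Λ, gr 0 Λ (2 * d + s) x z * gr 0 Λ (2 * d + 2 * s) z y -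
        ∑ z ∈ Λ, gr 0 Λ (2 * d + s) x z *
          ∑ y' ∈ Λ, hop y y' * gr 0 Λ (2 * d + 2 * s) z y' = gr 0 Λ (2 * d + s) x y := by
      rw [Finset.mul_sum, ← Finset.sum_sub_distrib]
      have e5 : ∀ z ∈ Λ, (2 * d + 2 * s) *
          (gr 0 Λ (2 * d + s) x z * gr 0 Λ (2 * d + 2 * s) z y) -
          gr 0 Λ (2 * d + s) x z * ∑ y' ∈ Λ, hop y y' * gr 0 Λ (2 * d + 2 * s) z y' =
          if z = y then gr 0 Λ (2 * d + s) x y else 0 := by
        intro z hz
        have e6 := gr_zero_eq hE2 hz hy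
        have e7 : (2 * d + 2 * s) *
          (gr 0 Λ (2 * d + s) x z * gr 0 Λ (2 * d + 2 * s) z y) -
          gr 0 Λ (2 * d + s) x z * ∑ y' ∈ Λ, hop y y' * gr 0 Λ (2 * d + 2 * s) z y' =
          gr 0 Λ (2 * d + s) x z * ((2 * d + 2 * s) * gr 0 Λ (2 * d + 2 * s) z y -
            ∑ y' ∈ Λ, hop y y' * gr 0 Λ (2 * d + 2 * s) z y') := by ring
        rw [e7, e6]
        split_ifs with h
        · rw [h, mul_one]
        · rw [mul_zero]
      rw [Finset.sum_congr rfl e5, Finset.sum_ite_eq', if_pos hy]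
    have e8 : ∑ y' ∈ Λ, hop y y' * (gr 0 Λ (2 * d + 2 * s) x y' +
        s * ∑ z ∈ Λ, gr 0 Λ (2 * d + s) x z * gr 0 Λ (2 * d + 2 * s) z y' -
          gr 0 Λ (2 * d + s) x y') =
        ∑ y' ∈ Λ, hop y y' * gr 0 Λ (2 * d + 2 * s) x y' +
        s * ∑ y' ∈ Λ, hop y y' *
          (∑ z ∈ Λ, gr 0 Λ (2 * d + s) x z * gr 0 Λ (2 * d + 2 * s) z y') -
        ∑ y' ∈ Λ, hop y y' * gr 0 Λ (2 * d + s) x y' := by
      rw [Finset.mul_sum, ← Finset.sum_add_distrib, ← Finset.sum_sub_distrib]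
      exact Finset.sum_congr rfl fun y' _ => by ring
    rw [e8, e3]
    nlinarith only [e1, e2, e4, hs]

/-- Module GREENLOW. -/
theorem greenLow : GreenLowStmt := by
  intro d hd
  have hd0 : (0:ℝ) < d := by
    have : 0 < d := by omega
    exact_mod_cast this
  set η : ℝ := 1 / (2 * d : ℝ) with hη
  have hη0 : 0 < η := by positivity
  set C₅ : ℝ := 1024 * 5 ^ d + 128 with hC₅
  have hC₅0 : 0 < C₅ := by positivity
  set r : ℝ := (1 / 2 : ℝ) ^ η with hr
  have hr0 : 0 < r := by positivity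
  have hr1 : r < 1 := Real.rpow_lt_one (by norm_num) (by norm_num) hη0
  set K : ℝ := C₅ / (1 - r) with hK
  have hK0 : 0 < K := div_pos hC₅0 (by linarith only [hr1])
  refine ⟨K, hK0, fun Λ N a x ha ha1 hΛ => ?_⟩
  have hx : x ∈ Λ := hΛ (by rw [mem_box, sd_self]; omega)
  -- the main estimate for partial sums
  have key : ∀ M : ℕ, ∑ n ∈ Finset.range M, (walks n (0 : Site d) : ℝ) / (2 * d) ^ (n + 1) ≤
      gr 0 Λ (2 * d + a) x x + (2 * d / (2 * d + a)) ^ (N + 1) / a + K * a ^ η := by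
    intro M
    set B : Finset (Site d) := box 0 M with hB
    have h0B : (0 : Site d) ∈ B := by rw [hB, mem_box, sd_self]; omega
    have s1 : ∀ k : ℕ, gr 0 B (2 * d + a / 2 ^ k) 0 0 + K * (a / 2 ^ k) ^ η ≤
        gr 0 B (2 * d + a) 0 0 + K * a ^ η := by
      intro k
      induction k with
      | zero => simp
      | succ k ih =>
        refine le_trans ?_ ih
        set s : ℝ := a / 2 ^ (k + 1) with hs
        have hs0 : 0 < s := by positivity
        have hs1 : s ≤ 1 := by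
          rw [hs]
          calc a / 2 ^ (k + 1) ≤ a / 1 := by
                gcongr
                exact one_le_pow₀ (by norm_num)
            _ ≤ 1 := by rw [div_one]; exact ha1
        have hs2 : a / 2 ^ k = 2 * s := by
          rw [hs, pow_succ]
          field_simp
        have h1 := gr_double B hs0 h0B
        have h2 := gr_zero_sq hd B hs0 hs1 0
        rw [← hη, ← hC₅] at h2
        have h3 : s * ∑ y ∈ B, gr 0 B (2 * d + s) 0 y ^ 2 ≤ C₅ * s ^ η := by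
          calc s * ∑ y ∈ B, gr 0 B (2 * d + s) 0 y ^ 2 ≤ s * (C₅ * s ^ (-1 + η)) :=
                mul_le_mul_of_nonneg_left h2 hs0.le
            _ = C₅ * s ^ η := by
                rw [Real.rpow_add hs0, Real.rpow_neg_one]
                field_simp
        have h4 : s ^ η = r * (2 * s) ^ η := by
          rw [hr, ← Real.mul_rpow (by norm_num) (by positivity)]
          congr 1
          ring
        have h5 : C₅ * s ^ η + K * s ^ η ≤ K * (2 * s) ^ η := by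
          have h6 : K * (1 - r) = C₅ := by
            rw [hK]
            exact div_mul_cancel₀ C₅ (by linarith only [hr1])
          have h7 : 0 ≤ (2 * s) ^ η := by positivity
          have h8 : C₅ * s ^ η ≤ C₅ * (2 * s) ^ η := by
            apply mul_le_mul_of_nonneg_left _ hC₅0.le
            exact Real.rpow_le_rpow hs0.le (by linarith only [hs0]) hη0.le
          calc C₅ * s ^ η + K * s ^ η ≤ C₅ * (2 * s) ^ η + K * (r * (2 * s) ^ η) := by
                rw [← h4]; linarith only [h8]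
            _ = K * (2 * s) ^ η := by rw [← h6]; ring
        rw [hs2]
        linarith only [h1, h3, h5]
    have s2 : ∀ k : ℕ, SW (2 * d + a / 2 ^ k) 0 M (0 : Site d) ≤
        gr 0 Λ (2 * d + a) x x + (2 * d / (2 * d + a)) ^ (N + 1) / a + K * a ^ η := by
      intro k
      have hk : 0 < a / 2 ^ k := by positivity
      have h1 : SW (2 * d + a / 2 ^ k) 0 M (0 : Site d) ≤
          SW (2 * d + a / 2 ^ k) 0 (M + 1) (0 : Site d) := by
        unfold SW
        rw [Finset.sum_range_succ]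
        have : 0 ≤ (walks M ((0 : Site d) - 0) : ℝ) / (2 * d + a / 2 ^ k) ^ (M + 1) := by
          positivity
        linarith only [this]
      have h2 := SW_le_gr hk (Λ := B) (x := 0) (N := M) le_rfl 0 h0B
      have h3 := s1 k
      have h4 := gr_le_SW B ha h0B h0B (N + 1)
      have h5 : SW (2 * d + a) 0 (N + 1) (0 : Site d) = SW (2 * d + a) x (N + 1) x := by
        unfold SW
        rw [sub_self, sub_self]
      have h6 := SW_le_gr ha hΛ x hx
      have h7 : 0 ≤ K * (a / 2 ^ k) ^ η := by positivity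
      linarith only [h1, h2, h3, h4, h5, h6, h7]
    have s3 : Tendsto (fun k : ℕ => SW (2 * d + a / 2 ^ k) 0 M (0 : Site d)) atTop
        (𝓝 (∑ n ∈ Finset.range M, (walks n (0 : Site d) : ℝ) / (2 * d) ^ (n + 1))) := by
      have h1 : Tendsto (fun k : ℕ => 2 * (d:ℝ) + a / 2 ^ k) atTop (𝓝 (2 * d)) := by
        have h2 : Tendsto (fun k : ℕ => a / (2:ℝ) ^ k) atTop (𝓝 0) :=
          (tendsto_pow_atTop_atTop_of_one_lt (by norm_num)).const_div_atTop a
        have h3 := h2.const_add (2 * (d:ℝ))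
        rwa [add_zero] at h3
      unfold SW
      rw [sub_self]
      apply tendsto_finsetSum
      intro n _
      apply Tendsto.div tendsto_const_nhds (h1.pow (n + 1))
      positivity
    exact le_of_tendsto' s3 s2
  have hw : watson d ≤ gr 0 Λ (2 * d + a) x x + (2 * d / (2 * d + a)) ^ (N + 1) / a +
      K * a ^ η := by
    unfold watson
    exact Real.tsum_le_of_sum_range_le (fun n => by positivity) key
  have h1 : (2 * d / (2 * d + a)) ^ (N + 1) / a ≤ (1 / a) * (1 + a / (2 * d)) ^ (-(N : ℝ)) := by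
    have e1 : (1 + a / (2 * d)) ^ (-(N : ℝ)) = (2 * d / (2 * d + a)) ^ N := by
      rw [Real.rpow_neg (by positivity), Real.rpow_natCast, ← inv_pow]
      congr 1
      field_simp
    rw [e1, div_eq_mul_one_div, mul_comm (1 / a)]
    apply mul_le_mul_of_nonneg_right _ (by positivity)
    apply pow_le_pow_of_le_one (by positivity) _ (Nat.le_succ N)
    rw [div_le_one (by positivity)]
    linarith only [ha]
  linarith only [hw, h1]

end Pool.Agent.LOC.H48
end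
end -- Pool.Agent.Helper48_LOC.GreenLow

section -- Pool.Agent.Helper48_LOC.Up

/-!
# LOC: module UP
-/

set_option autoImplicit false
set_option linter.unusedSectionVars false

open MeasureTheory ProbabilityTheory Function Filter

open scoped ENNReal BigOperators NNReal Topology

noncomputable section

namespace Pool.Agent.LOC.H48

open Pool.Agent.Anderson Pool.Agent.Loc Pool.Agent.LOC

variable {d : ℕ}

/-- the probability that the form bound fails in boxes of radius `|σ|⁻³` -/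
theorem bad_small (hd : 1 ≤ d) {G C₅ η : ℝ} (hG : 0 < G) (hC₅ : 0 < C₅) (hη : 0 < η)
    (hη1 : η ≤ 1)
    (hD3 : ∀ (Λ : Finset (Site d)) (a : ℝ) (x : Site d), 0 < a → gr 0 Λ (2 * d + a) x x ≤ G)
    (hD5 : ∀ (Λ : Finset (Site d)) (a : ℝ) (x : Site d), 0 < a → a ≤ 1 →
      ∑ y ∈ Λ, gr 0 Λ (2 * d + a) x y ^ 2 ≤ C₅ * a ^ (-1 + η)) :
    ∃ σ₀ : ℝ, 0 < σ₀ ∧ ∀ σ : ℝ, σ ≠ 0 → |σ| < σ₀ → ∃ θ : ℝ, θ ≤ 1 ∧
      ∀ L : ℕ, (L : ℝ) ≤ |σ|⁻¹ ^ 3 → ∀ (x : Site d) (W : Finset (Site d)), W ⊆ box x L →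
        PL (gl σ) W {V | ¬ GE V W (G * σ ^ 2 + G * |σ| ^ (2 + η / 12)) θ} ≤
          ENNReal.ofReal (1 / 4) := by
  set γ : ℝ := η / 12 with hγdef
  have hγ : 0 < γ := by positivity
  have hγ1 : γ ≤ 1 / 12 := by rw [hγdef]; linarith only [hη1]
  set K : ℝ := 4 * 3 ^ d with hK
  have hK0 : 0 < K := by positivity
  set Q : ℝ := 1440 * 27 * √(C₅ * G ^ (-1 + η)) with hQ
  have hQ0 : 0 < Q := by positivity
  -- the eventual conditions
  have ev1 : ∀ᶠ τ : ℝ in 𝓝[>] 0, τ < 1 := by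
    filter_upwards [Ioo_mem_nhdsGT (show (0:ℝ) < 1 by norm_num)] with τ hτ using hτ.2
  have ev2 : ∀ᶠ τ : ℝ in 𝓝[>] 0, 2 * G * τ ^ 2 < min 1 (1 / G) := by
    have h1 : Tendsto (fun τ : ℝ => 2 * G * τ ^ 2) (𝓝 0) (𝓝 (2 * G * 0 ^ 2)) := by
      apply Continuous.tendsto; fun_prop
    have h2 : Tendsto (fun τ : ℝ => 2 * G * τ ^ 2) (𝓝[>] 0) (𝓝 0) := by
      rw [show (2 * G * 0 ^ 2 : ℝ) = 0 by ring] at h1
      exact h1.mono_left nhdsWithin_le_nhds
    exact h2.eventually_lt_const (by positivity)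
  have ev3 : ∀ᶠ τ : ℝ in 𝓝[>] 0, Q * τ ^ (η / 2) < 1 := by
    have h1 : Tendsto (fun τ : ℝ => Q * τ ^ (η / 2)) (𝓝 0) (𝓝 (Q * 0 ^ (η / 2))) := by
      apply Tendsto.const_mul
      exact (Real.continuousAt_rpow_const 0 (η / 2) (Or.inr (by positivity))).tendsto
    rw [Real.zero_rpow (by positivity), mul_zero] at h1
    exact (h1.mono_left nhdsWithin_le_nhds).eventually_lt_const (by norm_num)
  have ev4 : ∀ᶠ τ : ℝ in 𝓝[>] 0,
      K * ((τ⁻¹) ^ (3 * d) * Real.exp (-(1 / 4) * (τ⁻¹) ^ γ)) < 1 / 4 := by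
    have h1 := (tendsto_aux (3 * d) (show (0:ℝ) < 1 / 4 by norm_num) hγ).const_mul K
    rw [mul_zero] at h1
    exact h1.eventually_lt_const (by norm_num)
  have evall := ev1.and (ev2.and (ev3.and ev4))
  rw [eventually_nhdsWithin_iff, Metric.eventually_nhds_iff] at evall
  obtain ⟨σ₀, hσ₀, hall⟩ := evall
  refine ⟨σ₀, hσ₀, fun σ hσ hσσ => ?_⟩
  set τ : ℝ := |σ| with hτdef
  have hτ : 0 < τ := abs_pos.2 hσ
  obtain ⟨h1, h2, h3, h4⟩ := hall (y := τ) (by rw [Real.dist_eq, sub_zero, abs_of_pos hτ]; exact hσσ)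
    hτ
  have hσ2 : σ ^ 2 = τ ^ 2 := by rw [hτdef, sq_abs]
  set t : ℝ := τ⁻¹ with htdef
  have ht1 : 1 ≤ t := (one_le_inv₀ hτ).2 h1.le
  have ht0 : 0 < t := by linarith only [ht1]
  have htτ : t * τ = 1 := inv_mul_cancel₀ hτ.ne'
  set δ : ℝ := τ ^ γ with hδdef
  have hδ0 : 0 < δ := by positivity
  have hδ1 : δ ≤ 1 := Real.rpow_le_one hτ.le h1.le hγ.le
  set a : ℝ := G * τ ^ 2 * (1 + δ) with hadef
  have ha : 0 < a := by positivity
  have haeq : G * σ ^ 2 + G * τ ^ (2 + γ) = a := by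
    rw [hσ2, Real.rpow_add hτ, Real.rpow_two, hadef, hδdef]
    ring
  have ha2 : a ≤ 2 * G * τ ^ 2 := by
    rw [hadef]
    nlinarith only [hδ1, mul_pos hG (pow_pos hτ 2)]
  have ha1 : a ≤ 1 := ha2.trans (h2.le.trans (min_le_left _ _))
  have hag : a * G ≤ 1 := by
    have : a ≤ 1 / G := ha2.trans (h2.le.trans (min_le_right _ _))
    rwa [le_div_iff₀ hG] at this
  have hageq : G * τ ^ 2 ≤ a := by
    rw [hadef]
    nlinarith only [hδ0, mul_pos hG (pow_pos hτ 2)]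
  have hq : σ ^ 2 * G / a = 1 / (1 + δ) := by
    rw [hσ2, hadef]
    field_simp
  -- the parameters
  set θ : ℝ := 1 - δ / 8 with hθ
  have hθ0 : 0 < θ := by rw [hθ]; linarith only [hδ1]
  have hθ1 : θ < 1 := by rw [hθ]; linarith only [hδ0]
  have ht3 : 1 ≤ t ^ 3 := one_le_pow₀ ht1
  set p : ℕ := ⌈t ^ (2 * γ)⌉₊ + 1 with hp
  have htγ : 1 ≤ t ^ (2 * γ) := Real.one_le_rpow ht1 (by positivity)
  have hpge : t ^ (2 * γ) ≤ p := by
    rw [hp]
    push_cast
    have := Nat.le_ceil (t ^ (2 * γ))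
    linarith only [this]
  have hp2 : 2 ≤ p := by
    rw [hp]
    have : 0 < ⌈t ^ (2 * γ)⌉₊ := Nat.ceil_pos.2 (by linarith only [htγ])
    omega
  have hple : (p:ℝ) ≤ 3 * t ^ (2 * γ) := by
    rw [hp]
    push_cast
    have := (Nat.ceil_lt_add_one (show 0 ≤ t ^ (2 * γ) by positivity)).le
    linarith only [this, htγ]
  have hθq : σ ^ 2 * G / a / θ ^ 2 ≤ Real.exp (-(δ / 4)) := by
    rw [hq, div_div, Real.exp_neg, ← one_div]
    apply one_div_le_one_div_of_le (Real.exp_pos _)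
    have e1 := exp_sub_one_le (x := δ / 4) (by positivity) (by linarith only [hδ1])
    have e2 : 1 + δ / 2 ≤ (1 + δ) * θ ^ 2 := by
      rw [hθ]
      nlinarith only [mul_nonneg hδ0.le (sub_nonneg.2 hδ1), mul_pos hδ0 hδ0,
        mul_pos hδ0 (mul_pos hδ0 hδ0)]
    linarith only [e2, e1]
  have hpδ : t ^ γ / 4 ≤ p * (δ / 4) := by
    have e1 : t ^ γ = t ^ (2 * γ) * δ := by
      rw [hδdef, show (2 * γ) = γ + γ by ring, Real.rpow_add ht0, mul_assoc,
        ← Real.mul_rpow ht0.le hτ.le, htτ, Real.one_rpow, mul_one]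
    rw [e1]
    have := mul_le_mul_of_nonneg_right hpge hδ0.le
    linarith only [this]
  have hθqp : (σ ^ 2 * G / a / θ ^ 2) ^ p ≤ Real.exp (-(t ^ γ / 4)) := by
    calc (σ ^ 2 * G / a / θ ^ 2) ^ p ≤ (Real.exp (-(δ / 4))) ^ p := by
          apply pow_le_pow_left₀ (by positivity) hθq
      _ = Real.exp (-(p * (δ / 4))) := by
          rw [← Real.exp_nat_mul]; congr 1; ring
      _ ≤ _ := Real.exp_le_exp.2 (by linarith only [hpδ])
  have hsmall : 1440 * (p : ℝ) ^ 3 * √(σ ^ 2 * (C₅ * a ^ (-1 + η))) ≤ 1 := by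
    have e1 : a ^ (-1 + η) ≤ (G * τ ^ 2) ^ (-1 + η) :=
      Real.rpow_le_rpow_of_nonpos (by positivity) hageq (by linarith only [hη1])
    have e2 : (τ ^ 2) * (G * τ ^ 2) ^ (-1 + η) = G ^ (-1 + η) * (τ ^ η) ^ 2 := by
      rw [Real.mul_rpow hG.le (by positivity)]
      have e3 : τ ^ 2 * (τ ^ 2) ^ (-1 + η) = (τ ^ η) ^ 2 := by
        rw [← Real.rpow_natCast τ 2, ← Real.rpow_mul hτ.le, ← Real.rpow_add hτ,
          ← Real.rpow_natCast (τ ^ η) 2, ← Real.rpow_mul hτ.le]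
        congr 1
        push_cast
        ring
      calc τ ^ 2 * (G ^ (-1 + η) * (τ ^ 2) ^ (-1 + η)) =
          G ^ (-1 + η) * (τ ^ 2 * (τ ^ 2) ^ (-1 + η)) := by ring
        _ = _ := by rw [e3]
    have e4 : √(σ ^ 2 * (C₅ * a ^ (-1 + η))) ≤ √(C₅ * G ^ (-1 + η)) * τ ^ η := by
      calc √(σ ^ 2 * (C₅ * a ^ (-1 + η))) ≤ √(C₅ * G ^ (-1 + η) * (τ ^ η) ^ 2) := by
            apply Real.sqrt_le_sqrt
            rw [hσ2]
            calc τ ^ 2 * (C₅ * a ^ (-1 + η)) ≤ τ ^ 2 * (C₅ * (G * τ ^ 2) ^ (-1 + η)) := by gcongr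
              _ = C₅ * (τ ^ 2 * (G * τ ^ 2) ^ (-1 + η)) := by ring
              _ = C₅ * G ^ (-1 + η) * (τ ^ η) ^ 2 := by rw [e2]; ring
        _ = _ := by
            rw [Real.sqrt_mul (by positivity), Real.sqrt_sq (by positivity)]
    have e5 : (p:ℝ) ^ 3 ≤ 27 * t ^ (6 * γ) := by
      calc (p:ℝ) ^ 3 ≤ (3 * t ^ (2 * γ)) ^ 3 := by gcongr
        _ = 27 * (t ^ (2 * γ)) ^ 3 := by ring
        _ = 27 * t ^ (6 * γ) := by
            rw [← Real.rpow_natCast (t ^ (2 * γ)) 3, ← Real.rpow_mul ht0.le]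
            congr 2
            push_cast
            ring
    have e6 : t ^ (6 * γ) * τ ^ η = τ ^ (η / 2) := by
      rw [htdef, Real.inv_rpow hτ.le, ← Real.rpow_neg hτ.le, ← Real.rpow_add hτ]
      congr 1
      rw [hγdef]; ring
    calc 1440 * (p : ℝ) ^ 3 * √(σ ^ 2 * (C₅ * a ^ (-1 + η)))
        ≤ 1440 * (27 * t ^ (6 * γ)) * (√(C₅ * G ^ (-1 + η)) * τ ^ η) := by gcongr
      _ = Q * (t ^ (6 * γ) * τ ^ η) := by rw [hQ]; ring
      _ = Q * τ ^ (η / 2) := by rw [e6]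
      _ ≤ 1 := h3.le
  refine ⟨θ, hθ1.le, fun L hL x W hW => ?_⟩
  rw [haeq]
  refine (bad_prob (g := G) (κ₂ := C₅ * a ^ (-1 + η)) ha hG (by positivity)
    (fun x => hD3 W a x ha) (fun x => hD5 W a x ha ha1) hσ hag ?_ ?_ hp2 hsmall hθ0).trans ?_
  · rw [hq]
    apply one_div_le_one_div_of_le (by positivity)
    linarith only [hδ1]
  · rw [hq, div_le_one (by positivity)]
    linarith only [hδ0]
  · apply ENNReal.ofReal_le_ofReal
    have e1 : (W.card : ℝ) ≤ (3 * t ^ 3) ^ d := by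
      have e2 := card_le_of_subset_box hW
      calc (W.card : ℝ) ≤ (((2 * L + 1) ^ d : ℕ) : ℝ) := by exact_mod_cast e2
        _ = (2 * (L:ℝ) + 1) ^ d := by push_cast; ring
        _ ≤ (3 * t ^ 3) ^ d := by
            apply pow_le_pow_left₀ (by positivity)
            linarith only [hL, ht3]
    calc 4 * (W.card : ℝ) * (σ ^ 2 * G / a / θ ^ 2) ^ p
        ≤ 4 * (3 * t ^ 3) ^ d * Real.exp (-(t ^ γ / 4)) := by gcongr
      _ = K * (t ^ (3 * d) * Real.exp (-(1 / 4) * t ^ γ)) := by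
          rw [hK, mul_pow, ← pow_mul, show -(t ^ γ / 4) = -(1 / 4) * t ^ γ by ring]
          ring
      _ ≤ 1 / 4 := h4.le

/-- Module UP. -/
theorem up : UpStmt := by
  intro d hd
  have hd0 : (0:ℝ) < d := by
    have : 0 < d := by omega
    exact_mod_cast this
  have hd3 : (3:ℝ) ≤ d := by exact_mod_cast hd
  obtain ⟨σ₀, hσ₀, h⟩ := bad_small (d := d) (by omega) (watson_pos hd)
    (C₅ := 1024 * 5 ^ d + 128) (η := 1 / (2 * d : ℝ)) (by positivity) (by positivity)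
    (by
      rw [div_le_one (by positivity)]
      linarith only [hd3])
    (fun Λ a x ha => gr_zero_diag hd Λ ha x)
    (fun Λ a x ha ha1 => gr_zero_sq hd Λ ha ha1 x)
  have hexp : 1 / (2 * d : ℝ) / 12 = 1 / (24 * d : ℝ) := by field_simp; norm_num
  rw [hexp] at h
  refine ⟨σ₀, hσ₀, fun σ hσ hσσ L hL Ω _ P _ ξ hm hlaw hind => ?_⟩
  obtain ⟨θ, hθ1, hbad⟩ := h σ hσ hσσ
  have h1 := hbad L hL 0 (box 0 L) le_rfl
  set a : ℝ := watson d * σ ^ 2 + watson d * |σ| ^ (2 + 1 / (24 * d : ℝ)) with ha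
  have ha0 : 0 ≤ a := by
    have := watson_pos hd
    positivity
  have h2 := transfer (P := P) (ν := gl σ) (V := fun y ω => σ * ξ y ω) (Λ := box 0 L)
    (fun z => (hm z).const_mul σ) (by
      intro z
      unfold gl γ1
      rw [← hlaw z, Measure.map_map (by fun_prop) (hm z)]
      rfl) (hind.comp (fun _ t => σ * t) fun _ => by fun_prop)
    (measurableSet_GE (box 0 L) a θ).compl (by
      intro W W' hW
      refine not_congr ?_
      simp only [Set.mem_ofPred_eq, GE]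
      refine forall_congr' fun u => ?_
      rw [Finset.sum_congr rfl fun y hy => by rw [hW y hy]])
  refine le_trans (measure_mono ?_) (h2.trans_le h1)
  intro ω hω
  simp only [Set.mem_ofPred_eq, Set.mem_compl_iff] at hω ⊢
  intro hGE
  apply hω
  intro u
  have h3 := hGE u
  have h4 := abs_hf_le (box 0 L) u
  have h5 : 0 ≤ ∑ y ∈ box (0 : Site d) L, u y ^ 2 := Finset.sum_nonneg fun y _ => sq_nonneg _
  have h6 : 0 ≤ (2 * d + a) * ∑ y ∈ box (0 : Site d) L, u y ^ 2 - hf (box 0 L) u := by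
    have := le_abs_self (hf (box (0 : Site d) L) u)
    nlinarith only [this, h5, h4, ha0]
  have h7 := le_abs_self (∑ y ∈ box (0 : Site d) L, (σ * ξ y ω) * u y ^ 2)
  have h8 : θ * ((2 * d + a) * ∑ y ∈ box (0 : Site d) L, u y ^ 2 - hf (box 0 L) u) ≤
      (2 * d + a) * ∑ y ∈ box (0 : Site d) L, u y ^ 2 - hf (box 0 L) u := by
    nlinarith only [h6, hθ1]
  have h9 : (2 * d + watson d * σ ^ 2 + watson d * |σ| ^ (2 + 1 / (24 * d : ℝ))) = 2 * d + a := by
    rw [ha]; ring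
  rw [h9]
  linarith only [h8, h7, h3]

end Pool.Agent.LOC.H48
end
end -- Pool.Agent.Helper48_LOC.Up

section -- Pool.Agent.Helper54_LOC.Gap

/-!
# LOC: module GAP
-/

set_option autoImplicit false

open MeasureTheory ProbabilityTheory

open scoped ENNReal NNReal BigOperators

noncomputable section

namespace Pool.Agent.LOC

open Matrix Pool.Agent.Anderson Pool.Agent.Loc Pool.Agent.BED

variable {d M : ℕ}

theorem sum_rep [NeZero M] (Λ : Finset (Site d)) (hΛ : ∀ y ∈ Λ, ∀ i, 2 * |y i| < (M : ℤ))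
    (G : Site d → ℝ) (hG : ∀ y, y ∉ Λ → G y = 0) :
    ∑ x : Tor d M, G (rep x) = ∑ y ∈ Λ, G y := by
  have h2 : ∑ x : Tor d M, G (rep x) = ∑ y ∈ Finset.univ.image (rep : Tor d M → Site d), G y := by
    rw [Finset.sum_image (fun x _ y _ h => H73.rep_inj h)]
  rw [h2]
  symm
  refine Finset.sum_subset (fun y hy => ?_) fun y _ hy => hG _ hy
  rw [Finset.mem_image]
  exact ⟨fun i => ((y i : ℤ) : ZMod M), Finset.mem_univ _, H73.rep_coe y fun i => hΛ y hy i⟩

/-- one side -/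
theorem gap_one [NeZero M] {r : ℕ} (hr : 4 * r + 3 ≤ M) {z μ : ℝ} {U : Site d → ℝ} (hμ : 0 < μ)
    (hf1 : Flat z μ (fun x : Tor d M => U (rep x))) {Λ : Finset (Site d)} (hΛ : Λ ⊆ box 0 r)
    (v : Site d → ℝ) :
    1 / (2 * μ) * ∑ y ∈ Λ, v y ^ 2 ≤
      z * ∑ y ∈ Λ, v y ^ 2 - (∑ y ∈ Λ, U y * v y ^ 2 + hf Λ v) := by
  classical
  obtain ⟨-, hA, hD⟩ := hf1
  have hM : (4 * (r : ℤ) + 3) ≤ M := by exact_mod_cast hr
  have hb : ∀ y ∈ Λ, ∀ i, |y i| ≤ (r : ℤ) := by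
    intro y hy i
    have h1 := sd_le_iff.1 (mem_box.1 (hΛ hy)) i
    simpa [abs_neg] using h1
  have hΛ1 : ∀ y ∈ Λ, ∀ i, 2 * (|y i| + 1) < (M : ℤ) := by
    intro y hy i
    have := hb y hy i
    linarith
  set F : Site d → ℝ := fun y => if y ∈ Λ then v y else 0 with hF
  have hF0 : ∀ y, y ∉ Λ → F y = 0 := fun y hy => by rw [hF]; simp only [if_neg hy]
  have hF1 : ∀ y, y ∈ Λ → F y = v y := fun y hy => by rw [hF]; simp only [if_pos hy]
  have hq := H73.quad_torus (M := M) z U Λ hΛ1 F hF0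
  have hs : ∑ x : Tor d M, (fun x : Tor d M => F (rep x)) x ^ 2 = ∑ y ∈ Λ, v y ^ 2 := by
    rw [sum_rep Λ (fun y hy i => by have := hΛ1 y hy i; linarith) (fun y => F y ^ 2)
      (fun y hy => by simp only [hF0 y hy]; norm_num)]
    exact Finset.sum_congr rfl fun y hy => by rw [hF1 y hy]
  have hDb : ∀ x : Tor d M, DD z (fun x : Tor d M => U (rep x)) x ≤ 51 / 50 * μ := by
    intro x
    have := (abs_le.1 (hD x)).2
    linarith
  have h1 := H32.AM_form_ge hA hDb (fun x => F (rep x))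
  rw [hs, hq] at h1
  have h2 : ∑ y ∈ Λ, F y * ((z - U y) * F y - ∑ w ∈ Λ, hop y w * F w) =
      z * ∑ y ∈ Λ, v y ^ 2 - (∑ y ∈ Λ, U y * v y ^ 2 + hf Λ v) := by
    unfold hf
    rw [Finset.mul_sum, ← Finset.sum_add_distrib, ← Finset.sum_sub_distrib]
    refine Finset.sum_congr rfl fun y hy => ?_
    rw [hF1 y hy]
    have h3 : ∑ w ∈ Λ, hop y w * F w = ∑ w ∈ Λ, hop y w * v w :=
      Finset.sum_congr rfl fun w hw => by rw [hF1 w hw]
    rw [h3, mul_sub, Finset.mul_sum]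
    have h4 : ∑ w ∈ Λ, v y * (hop y w * v w) = ∑ w ∈ Λ, v y * hop y w * v w :=
      Finset.sum_congr rfl fun w _ => by ring
    rw [h4]
    ring
  rw [h2] at h1
  refine le_trans ?_ h1
  have h5 : 0 ≤ ∑ y ∈ Λ, v y ^ 2 := Finset.sum_nonneg fun y _ => sq_nonneg _
  refine mul_le_mul_of_nonneg_right ?_ h5
  refine one_div_le_one_div_of_le (by positivity) (by linarith)

theorem gap : GapStmt := by
  intro d M _ r hr z μ W hμ hfp hfm Λ hΛ u
  have h1 := gap_one hr hμ hfp hΛ u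
  have h2 := gap_one (U := fun y => - W y) hr hμ hfm hΛ (fun y => stag y * u y)
  rw [hf_stag] at h2
  simp_rw [mul_pow, stag_sq, one_mul] at h2
  have h3 : ∑ y ∈ Λ, - W y * u y ^ 2 = - ∑ y ∈ Λ, W y * u y ^ 2 := by
    rw [← Finset.sum_neg_distrib]
    exact Finset.sum_congr rfl fun y _ => by ring
  rw [h3] at h2
  rw [abs_le, sub_mul]
  constructor <;> linarith

end Pool.Agent.LOC
end
end -- Pool.Agent.Helper54_LOC.Gap

section -- Pool.Agent.Helper54_LOC.Law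

/-!
# LOC: the law of the potential in boxes
-/

set_option autoImplicit false

open MeasureTheory ProbabilityTheory

open scoped ENNReal NNReal BigOperators

noncomputable section

namespace Pool.Agent.LOC

open Matrix Pool.Agent.Anderson Pool.Agent.Loc Pool.Agent.BED

variable {d M : ℕ}

theorem hop_shift (x y w : Site d) : hop (y - x) (w - x) = hop y w := by
  unfold hop
  refine Finset.sum_congr rfl fun i _ => ?_
  have h1 : (w - x = y - x + Pi.single i 1) ↔ (w = y + Pi.single i 1) := by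
    rw [sub_eq_iff_eq_add, add_right_comm, sub_add_cancel]
  have h2 : (w - x = y - x - Pi.single i 1) ↔ (w = y - Pi.single i 1) := by
    rw [sub_eq_iff_eq_add, sub_add_eq_add_sub, sub_add_cancel]
  simp only [h1, h2]

theorem FB_shift {V : Site d → ℝ} {Λ : Finset (Site d)} {e : ℝ} (x : Site d)
    (h : FB (fun y => V (x + y)) (Λ.image fun y => y - x) e) : FB V Λ e := by
  classical
  intro u
  have h1 := h (fun y => u (x + y))
  have hinj : ∀ y ∈ Λ, ∀ w ∈ Λ, y - x = w - x → y = w := fun y _ w _ h => sub_left_injective h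
  have e1 : ∀ y : Site d, x + (y - x) = y := fun y => by abel
  unfold hf at h1 ⊢
  rw [Finset.sum_image hinj, Finset.sum_image hinj, Finset.sum_image hinj] at h1
  simp only [e1, hop_shift] at h1
  have h2 : ∀ y ∈ Λ, ∑ z ∈ Λ.image (fun y => y - x), u y * hop (y - x) z * u (x + z) =
      ∑ z ∈ Λ, u y * hop y z * u z := by
    intro y _
    rw [Finset.sum_image hinj]
    simp only [e1, hop_shift]
  rw [Finset.sum_congr rfl h2] at h1
  exact h1

theorem measurableSet_FB (Λ : Finset (Site d)) (e : ℝ) :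
    MeasurableSet {V : Site d → ℝ | FB V Λ e} := by
  have h1 : {V : Site d → ℝ | FB V Λ e} = ⋂ u : Site d → ℝ,
      {V : Site d → ℝ | |∑ y ∈ Λ, V y * u y ^ 2 + hf Λ u| ≤ e * ∑ y ∈ Λ, u y ^ 2} := by
    ext V
    simp only [FB, Set.mem_ofPred_eq, Set.mem_iInter]
  rw [h1]
  apply IsClosed.measurableSet
  apply isClosed_iInter
  intro u
  apply isClosed_le _ continuous_const
  apply Continuous.abs
  refine Continuous.add ?_ continuous_const
  exact continuous_finsetSum _ fun y _ => (continuous_apply y).mul continuous_const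

theorem FB_congr {V V' : Site d → ℝ} {Λ : Finset (Site d)} (h : ∀ x ∈ Λ, V x = V' x) (e : ℝ) :
    FB V Λ e ↔ FB V' Λ e := by
  unfold FB
  refine forall_congr' fun u => ?_
  rw [Finset.sum_congr rfl fun y hy => by rw [h y hy]]

universe u

variable {Ω : Type u} [MeasurableSpace Ω] {P : Measure Ω} [IsProbabilityMeasure P]
  {ξ : Site d → Ω → ℝ}

/-- the probability that the landscape functions are not flat -/
theorem prob_flat [NeZero M] (hm : ∀ y, Measurable (ξ y))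
    (hlaw : ∀ y, P.map (ξ y) = gaussianReal 0 1) (hind : iIndepFun ξ P) {σ : ℝ} {v : ℝ≥0}
    (hv : (v : ℝ) = σ ^ 2) {z μ p : ℝ} (hp : 0 ≤ p)
    (hgau : gau d M v {V | ¬ Flat z μ V} ≤ ENNReal.ofReal p) (x : Site d) :
    P {ω | ¬ (Flat z μ (fun t : Tor d M => σ * ξ (x + rep t) ω) ∧
      Flat z μ (fun t : Tor d M => - (σ * ξ (x + rep t) ω)))} ≤ ENNReal.ofReal (2 * p) := by
  have hind' : iIndepFun (fun y => ξ (x + y)) P := hind.precomp (add_right_injective x)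
  have key : ∀ s : ℝ, s ^ 2 = σ ^ 2 →
      P {ω | ¬ Flat z μ (fun t : Tor d M => s * ξ (x + rep t) ω)} ≤ ENNReal.ofReal p := by
    intro s hs
    have hl := H73.lawT d M Ω P (fun y => ξ (x + y)) (fun y => hm _) (fun y => hlaw _) hind' s v
      (by rw [hv, hs])
    have hmeas : Measurable fun ω (t : Tor d M) => s * ξ (x + rep t) ω :=
      measurable_pi_lambda _ fun t => (hm _).const_mul s
    have h2 := Measure.le_map_apply (μ := P) hmeas.aemeasurable {V | ¬ Flat z μ V}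
    rw [show P.map (fun ω (t : Tor d M) => s * ξ (x + rep t) ω) = gau d M v from hl] at h2
    exact h2.trans hgau
  have h1 := key σ rfl
  have h2 := key (-σ) (by ring)
  have hsub : {ω | ¬ (Flat z μ (fun t : Tor d M => σ * ξ (x + rep t) ω) ∧
      Flat z μ (fun t : Tor d M => - (σ * ξ (x + rep t) ω)))} ⊆
      {ω | ¬ Flat z μ (fun t : Tor d M => σ * ξ (x + rep t) ω)} ∪
      {ω | ¬ Flat z μ (fun t : Tor d M => (-σ) * ξ (x + rep t) ω)} := by
    intro ω hω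
    by_contra hcon
    rw [Set.mem_union, not_or] at hcon
    apply hω
    refine ⟨by_contra fun h => hcon.1 h, ?_⟩
    have e : (fun t : Tor d M => - (σ * ξ (x + rep t) ω)) =
        fun t : Tor d M => (-σ) * ξ (x + rep t) ω := by
      funext t; ring
    rw [e]
    exact by_contra fun h => hcon.2 h
  refine (measure_mono hsub).trans ((measure_union_le _ _).trans ?_)
  rw [two_mul, ENNReal.ofReal_add hp hp]
  exact add_le_add h1 h2

/-- the gap in boxes, with large probability -/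
theorem prob_FB [NeZero M] (hm : ∀ y, Measurable (ξ y))
    (hlaw : ∀ y, P.map (ξ y) = gaussianReal 0 1) (hind : iIndepFun ξ P) {σ : ℝ} {v : ℝ≥0}
    (hv : (v : ℝ) = σ ^ 2) {z μ p : ℝ} (hp : 0 ≤ p) (hμ : 0 < μ)
    (hgau : gau d M v {V | ¬ Flat z μ V} ≤ ENNReal.ofReal p) {r : ℕ} (hr : 4 * r + 3 ≤ M)
    (x : Site d) (W : Finset (Site d)) (hW : W ⊆ box x r) :
    P {ω | ¬ FB (fun y => σ * ξ y ω) W (z - 1 / (2 * μ))} ≤ ENNReal.ofReal (2 * p) := by
  classical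
  refine (measure_mono ?_).trans (prob_flat hm hlaw hind hv hp hgau x)
  intro ω hω hcon
  apply hω
  refine FB_shift x (gap d M r hr z μ _ hμ hcon.1 hcon.2 _ ?_)
  intro y hy
  rw [Finset.mem_image] at hy
  obtain ⟨w, hw, rfl⟩ := hy
  have h1 := sd_le_iff.1 (mem_box.1 (hW hw))
  rw [mem_box, sd_le_iff]
  intro i
  have h2 := h1 i
  rw [Pi.zero_apply, zero_sub, Pi.sub_apply, neg_sub]
  exact h2

/-- the same for the law `PL` -/
theorem PL_FB [NeZero M] (hm : ∀ y, Measurable (ξ y))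
    (hlaw : ∀ y, P.map (ξ y) = gaussianReal 0 1) (hind : iIndepFun ξ P) {σ : ℝ} {v : ℝ≥0}
    (hv : (v : ℝ) = σ ^ 2) {z μ p : ℝ} (hp : 0 ≤ p) (hμ : 0 < μ)
    (hgau : gau d M v {V | ¬ Flat z μ V} ≤ ENNReal.ofReal p) {r : ℕ} (hr : 4 * r + 3 ≤ M)
    (x : Site d) (W : Finset (Site d)) (hW : W ⊆ box x r) :
    PL (gl σ) W {V | ¬ FB V W (z - 1 / (2 * μ))} ≤ ENNReal.ofReal (2 * p) := by
  have h1 := prob_FB hm hlaw hind hv hp hμ hgau hr x W hW
  have h2 := transfer (ν := gl σ) (P := P) (V := fun y ω => σ * ξ y ω) (Λ := W)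
    (S := {V | ¬ FB V W (z - 1 / (2 * μ))}) (fun y => (hm y).const_mul σ) (fun y => by
      unfold gl γ1
      rw [← hlaw y, Measure.map_map (by fun_prop) (hm y)]
      rfl) (hind.comp (fun _ t => σ * t) fun _ => by fun_prop) (measurableSet_FB W _).compl
    (fun V V' h => not_congr (FB_congr h _))
  rw [← h2]
  exact h1

end Pool.Agent.LOC
end
end -- Pool.Agent.Helper54_LOC.Law

section -- Pool.Agent.Helper54_LOC.Num

/-!
# LOC: numerics
-/

set_option autoImplicit false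

open MeasureTheory ProbabilityTheory Filter

open scoped ENNReal NNReal BigOperators Topology

noncomputable section

namespace Pool.Agent.LOC

open Matrix Pool.Agent.Anderson Pool.Agent.Loc Pool.Agent.BED

theorem exists_t0 (d : ℕ) (hd : 1 ≤ d) : ∃ t₀ : ℝ, 2 ≤ t₀ ∧ ∀ t : ℝ, t₀ ≤ t →
    84 * d * 4 ^ (4 * d) * (t ^ (8 * d + 2) * Real.exp (-(1 / (384 * d) * t)) + t⁻¹) ≤
      Real.exp (-1) := by
  have hd0 : (0:ℝ) < d := by exact_mod_cast hd
  have h1 : Tendsto (fun t : ℝ => t ^ (8 * d + 2) * Real.exp (-(1 / (384 * d) * t))) atTop (𝓝 0) := by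
    have h := tendsto_rpow_mul_exp_neg_mul_atTop_nhds_zero ((8 * d + 2 : ℕ) : ℝ) (1 / (384 * d))
      (by positivity)
    refine h.congr' ?_
    filter_upwards [eventually_gt_atTop 0] with t ht
    rw [Real.rpow_natCast, neg_mul]
  have h2 := ((h1.add tendsto_inv_atTop_zero).const_mul (84 * (d:ℝ) * 4 ^ (4 * d)))
  rw [add_zero, mul_zero] at h2
  have h3 := h2.eventually_le_const (Real.exp_pos (-1))
  obtain ⟨t₁, ht₁⟩ := eventually_atTop.1 h3
  exact ⟨max 2 t₁, le_max_left _ _, fun t ht => ht₁ t ((le_max_right _ _).trans ht)⟩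

theorem numeric {d : ℕ} (hd : 1 ≤ d) {t s μ p : ℝ} {r : ℕ} (ht : 2 ≤ t)
    (htt : 84 * d * 4 ^ (4 * d) * (t ^ (8 * d + 2) * Real.exp (-(1 / (384 * d) * t)) + t⁻¹) ≤
      Real.exp (-1)) (hs : 0 < s) (hst : 1 / s ≤ t) (hμ1 : 10 * t ≤ μ) (hμ2 : μ ≤ 12 * t)
    (hr1 : t ^ 2 ≤ r) (hr2 : (r : ℝ) ≤ t ^ 2 + 1) (hp0 : 0 ≤ p)
    (hp : p ≤ 1 / (2 * (t ^ (8 * d + 3)) ^ 2)) :
    2 * d * ((2 * (r:ℝ) + 5) ^ d) ^ 4 * ((√(2 / (1 / (2 * μ))) *
      Real.exp (-(1 / (2 * μ) / (8 * d)) * r / 2) + 2 * √(6 * (1 / s) * (2 * p))) *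
        (2 * √(6 * (1 / s)))) ≤ Real.exp (-1) := by
  have hd0 : (0:ℝ) < d := by exact_mod_cast hd
  have ht0 : 0 < t := by linarith only [ht]
  have hμ0 : 0 < μ := by linarith only [ht, hμ1]
  have hs1 : 0 < 1 / s := by positivity
  refine le_trans ?_ htt
  have e1 : ((2 * (r:ℝ) + 5) ^ d) ^ 4 ≤ 4 ^ (4 * d) * t ^ (8 * d) := by
    rw [← pow_mul]
    calc (2 * (r:ℝ) + 5) ^ (d * 4) ≤ (4 * t ^ 2) ^ (d * 4) := by
          apply pow_le_pow_left₀ (by positivity)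
          nlinarith only [hr2, ht]
      _ = _ := by rw [mul_pow, ← pow_mul]; congr 2 <;> ring
  have e2 : √(2 / (1 / (2 * μ))) ≤ 7 * t := by
    rw [Real.sqrt_le_left (by positivity)]
    have : 2 / (1 / (2 * μ)) = 4 * μ := by field_simp; ring
    rw [this]
    nlinarith only [hμ2, ht]
  have e3 : Real.exp (-(1 / (2 * μ) / (8 * d)) * r / 2) ≤ Real.exp (-(1 / (384 * d) * t)) := by
    apply Real.exp_le_exp.2
    have f1 : 1 / (384 * d) * t ≤ (1 / (2 * μ) / (8 * d)) * r / 2 := by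
      have f2 : (1 / (2 * μ) / (8 * d)) * (r:ℝ) / 2 = r / (32 * d * μ) := by
        field_simp; ring
      have f3 : 1 / (384 * d) * t = t ^ 2 / (32 * d * (12 * t)) := by
        field_simp; norm_num
      rw [f2, f3]
      gcongr
    linarith only [f1]
  have e4 : √(6 * (1 / s)) ≤ 3 * t := by
    rw [Real.sqrt_le_left (by positivity)]
    nlinarith only [hst, ht]
  have e5 : √(6 * (1 / s) * (2 * p)) ≤ 3.5 * (t ^ (8 * d + 2))⁻¹ := by
    rw [Real.sqrt_le_left (by positivity)]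
    have f1 : 6 * (1 / s) * (2 * p) ≤ 6 * t * (2 * (1 / (2 * (t ^ (8 * d + 3)) ^ 2))) := by
      gcongr
    refine f1.trans ?_
    have f2 : 6 * t * (2 * (1 / (2 * (t ^ (8 * d + 3)) ^ 2))) = 6 * t⁻¹ * ((t ^ (8 * d + 2))⁻¹) ^ 2 := by
      have : t ^ (8 * d + 3) = t ^ (8 * d + 2) * t := by rw [← pow_succ]
      rw [this]
      field_simp
    rw [f2, mul_pow]
    have f3 : t⁻¹ ≤ 1 := inv_le_one_of_one_le₀ (by linarith only [ht])
    have f4 : 0 ≤ ((t ^ (8 * d + 2))⁻¹) ^ 2 := by positivity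
    linarith only [mul_le_mul_of_nonneg_right f3 f4, f4]
  calc 2 * d * ((2 * (r:ℝ) + 5) ^ d) ^ 4 * ((√(2 / (1 / (2 * μ))) *
      Real.exp (-(1 / (2 * μ) / (8 * d)) * r / 2) + 2 * √(6 * (1 / s) * (2 * p))) *
        (2 * √(6 * (1 / s))))
      ≤ 2 * d * (4 ^ (4 * d) * t ^ (8 * d)) * (((7 * t) *
      Real.exp (-(1 / (384 * d) * t)) + 2 * (3.5 * (t ^ (8 * d + 2))⁻¹)) * (2 * (3 * t))) := by
        gcongr
    _ = 84 * d * 4 ^ (4 * d) * (t ^ (8 * d + 2) * Real.exp (-(1 / (384 * d) * t)) +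
        t ^ (8 * d + 1) * (t ^ (8 * d + 2))⁻¹) := by
        rw [pow_add t (8 * d) 2, pow_add t (8 * d) 1]; ring
    _ = 84 * d * 4 ^ (4 * d) * (t ^ (8 * d + 2) * Real.exp (-(1 / (384 * d) * t)) + t⁻¹) := by
        congr 2
        rw [pow_succ t (8 * d + 1)]
        field_simp

/-- the core: the parameters -/
theorem params (d : ℕ) (hd : 3 ≤ d) :
    ∃ c₂ t₀ C : ℝ, 0 < c₂ ∧ 2 ≤ t₀ ∧ 0 < C ∧ ∀ (σ t : ℝ), σ ≠ 0 → |σ| ≤ 1 → t₀ ≤ t →
      1 / |σ| ≤ t → σ ^ 2 * growth d t * Real.log t ≤ c₂ →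
      ∃ (z μ p : ℝ) (r : ℕ) (v : ℝ≥0), (v : ℝ) = σ ^ 2 ∧ 10 * t ≤ μ ∧ μ ≤ 12 * t ∧
        |z - 2 * d| ≤ C * (σ ^ 2 + 1 / t) ∧ t ^ 2 ≤ r ∧ (r : ℝ) ≤ t ^ 2 + 1 ∧ 0 < p ∧
        p ≤ 1 / 8 ∧ p ≤ 1 / (2 * (t ^ (8 * d + 3)) ^ 2) ∧
        gau d (4 * r + 3) v {V | ¬ Flat z μ V} ≤ ENNReal.ofReal p ∧
        2 * d * ((2 * (r:ℝ) + 5) ^ d) ^ 4 * ((√(2 / (1 / (2 * μ))) *
          Real.exp (-(1 / (2 * μ) / (8 * d)) * r / 2) + 2 * √(6 * (1 / |σ|) * (2 * p))) *
            (2 * √(6 * (1 / |σ|)))) ≤ Real.exp (-1) := by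
  obtain ⟨c0, C0, hc0, hC0, hF⟩ := flatAll d hd
  obtain ⟨c, hc, hc2, hprob⟩ := prob_small d hc0 hC0
  obtain ⟨t₀, ht₀, htt⟩ := exists_t0 d (by omega)
  set K : ℕ := 8 * d + 3 with hK
  have hK0 : (0:ℝ) < K := by rw [hK]; positivity
  refine ⟨c / K, t₀, 2 * C0, by positivity, ht₀, by positivity, ?_⟩
  intro σ t hσ hσ1 ht hst hcond
  have ht2 : 2 ≤ t := ht₀.trans ht
  have ht0 : 0 < t := by linarith only [hc, hc2, ht₀, ht]
  set R : ℝ := t ^ K with hR
  have htR : t ^ 2 ≤ R := pow_le_pow_right₀ (by linarith only [hc, hc2, ht₀, ht]) (by omega)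
  have htR1 : t ≤ R := by nlinarith only [htR, ht2]
  set r : ℕ := ⌈t ^ 2⌉₊ with hr
  have hr1 : t ^ 2 ≤ r := Nat.le_ceil _
  have hr2 : (r:ℝ) ≤ t ^ 2 + 1 := (Nat.ceil_lt_add_one (by positivity)).le
  set M : ℕ := 4 * r + 3 with hM
  have hMR : (M:ℝ) ≤ 8 * R := by
    rw [hM]; push_cast; nlinarith only [hr2, htR, ht2]
  have htM : t ≤ M := by
    rw [hM]; push_cast; nlinarith only [hr1, ht2]
  have hlogR : Real.log R = K * Real.log t := by rw [hR, Real.log_pow]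
  have hcond' : σ ^ 2 * growth d t * Real.log R ≤ c := by
    rw [hlogR]
    rw [le_div_iff₀ hK0] at hcond
    linarith only [hcond]
  have hpR := hprob σ t R M hσ ht2 htR1 hMR hcond'
  set s : ℝ≥0 := ⟨|σ|, abs_nonneg σ⟩ with hs
  have hsσ : (s : ℝ) ^ 2 = σ ^ 2 := by
    rw [hs]; exact sq_abs σ
  have hs0 : 0 < s := by
    rw [← NNReal.coe_pos]; exact abs_pos.2 hσ
  have hs1 : s ≤ 1 := by
    rw [← NNReal.coe_le_coe]
    exact hσ1
  set p : ℝ := C0 * (1 + Real.log t) * (M : ℝ) ^ d *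
    Real.exp (-c0 / ((s : ℝ) ^ 2 * growth d t)) with hp
  have hp1 : p ≤ 1 / (2 * R ^ 2) := by rw [hp, hsσ]; exact hpR
  have hp0 : 0 < p := by
    have := Real.log_nonneg (x := t) (by linarith only [hc, hc2, ht₀, ht])
    positivity
  have hR4 : 4 ≤ R := by nlinarith only [htR, ht2]
  have hp8 : p ≤ 1 / 8 := hp1.trans (one_div_le_one_div_of_le (by norm_num) (by nlinarith only [hR4]))
  obtain ⟨z, μ, hμ1, hμ2, hz, hzest, hmeas⟩ := hF M t s p (by omega) (by linarith only [ht₀, ht, hp0, hp8]) htM hs0 hs1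
    rfl (by linarith only [hp0, hp8])
  refine ⟨z, μ, p, r, s ^ 2, by rw [← hsσ]; push_cast; rfl, hμ1, hμ2, ?_, hr1, hr2, hp0, hp8, hp1,
    hmeas, numeric (by omega) ht2 (htt t ht) (abs_pos.2 hσ) hst hμ1 hμ2 hr1 hr2 hp0.le hp1⟩
  refine hzest.trans ?_
  rw [hsσ]
  have h1 : Real.sqrt p ≤ 1 / t := by
    rw [Real.sqrt_le_left (by positivity)]
    refine hp1.trans ?_
    rw [div_pow, one_pow]
    refine one_div_le_one_div_of_le (by positivity) ?_
    linarith only [mul_self_le_mul_self ht0.le htR1, mul_self_nonneg R]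
  have h2 : 0 ≤ 1 / t := by positivity
  have h3 : 0 ≤ σ ^ 2 := sq_nonneg _
  linarith only [mul_le_mul_of_nonneg_left h1 hC0.le, mul_nonneg hC0.le h3, mul_nonneg hC0.le h2]

end Pool.Agent.LOC
end
end -- Pool.Agent.Helper54_LOC.Num

section -- Pool.Agent.Helper54_LOC.Init

/-!
# LOC: module INIT
-/

set_option autoImplicit false

open MeasureTheory ProbabilityTheory Filter

open scoped ENNReal NNReal BigOperators Topology

noncomputable section

namespace Pool.Agent.LOC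

open Matrix Pool.Agent.Anderson Pool.Agent.Loc Pool.Agent.BED

theorem LB_of_FB {d : ℕ} {V : Site d → ℝ} {Λ : Finset (Site d)} {z g : ℝ}
    (h : FB V Λ (z - g)) {E : ℝ} (hE : z ≤ |E|) : ∃ s : ℝ, |s| = 1 ∧ LB V Λ E s g := by
  have h5 : ∀ u : Site d → ℝ, 0 ≤ ∑ y ∈ Λ, u y ^ 2 :=
    fun u => Finset.sum_nonneg fun y _ => sq_nonneg _
  rcases le_total 0 E with hE0 | hE0
  · refine ⟨1, abs_one, fun u => ?_⟩
    have h1 := (abs_le.1 (h u)).2
    rw [abs_of_nonneg hE0] at hE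
    have h2 := mul_le_mul_of_nonneg_right hE (h5 u)
    rw [one_mul, qform_eq]
    linarith
  · refine ⟨-1, by norm_num, fun u => ?_⟩
    have h1 := (abs_le.1 (h u)).1
    rw [abs_of_nonpos hE0] at hE
    have h2 := mul_le_mul_of_nonneg_right hE (h5 u)
    rw [qform_eq]
    linarith

theorem init : InitStmt := by
  intro d ν _ ρ hν z g κ p₀ L hg hκ hκg hp₀ hbad E hE x W hx hW u hu hxu
  have hρ := hν.1
  set B : Set (Site d → ℝ) := {V | ¬ FB V W (z - g)} with hB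
  have hBm : MeasurableSet B := (measurableSet_FB W _).compl
  rw [← lintegral_add_compl _ hBm, add_comm]
  have h1 : ∫⁻ V in Bᶜ, qg W E x u V ∂(PL ν W) ≤
      ENNReal.ofReal (√(2 / g) * Real.exp (-κ * L / 2)) := by
    calc ∫⁻ V in Bᶜ, qg W E x u V ∂(PL ν W)
        ≤ ∫⁻ V in Bᶜ, ENNReal.ofReal (√(2 / g) * Real.exp (-κ * L / 2))
            ∂(PL ν W) := by
          apply setLIntegral_mono measurable_const
          intro V hV
          have hGE : FB V W (z - g) := by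
            by_contra hcon
            exact hV hcon
          obtain ⟨s, hs, hLB⟩ := LB_of_FB hGE hE
          have h2 := combes_thomas hg hs hLB hκ hκg x u
          unfold qg
          apply ENNReal.ofReal_le_ofReal
          refine (Real.sqrt_le_sqrt h2).trans (le_of_eq ?_)
          rw [Real.sqrt_mul (by positivity), hxu]
          congr 1
          have e : Real.exp (-κ * (L : ℝ)) = Real.exp (-κ * L / 2) * Real.exp (-κ * L / 2) := by
            rw [← Real.exp_add]; congr 1; ring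
          rw [e, Real.sqrt_mul_self (Real.exp_pos _).le]
      _ ≤ ENNReal.ofReal (√(2 / g) * Real.exp (-κ * L / 2)) * 1 := by
          rw [setLIntegral_const]
          gcongr
          exact prob_le_one
      _ = _ := mul_one _
  have h2 : ∫⁻ V in B, qg W E x u V ∂(PL ν W) ≤ ENNReal.ofReal (2 * √(6 * ρ * p₀)) := by
    have h3 := PL_sqrt_event hν W E x u B (a := √(6 * ρ / p₀)) (by positivity)
    refine h3.trans ?_
    have h4 : √(6 * ρ / p₀) * p₀ = √(6 * ρ * p₀) := by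
      rw [← Real.sqrt_sq (show 0 ≤ √(6 * ρ / p₀) * p₀ by positivity)]
      congr 1
      rw [mul_pow, Real.sq_sqrt (by positivity)]
      field_simp
    have h5 : 6 * ρ / √(6 * ρ / p₀) = √(6 * ρ * p₀) := by
      rw [div_eq_iff (by positivity), ← Real.sqrt_mul (by positivity),
        show 6 * ρ * p₀ * (6 * ρ / p₀) = (6 * ρ) ^ 2 by field_simp,
        Real.sqrt_sq (by positivity)]
    calc ENNReal.ofReal √(6 * ρ / p₀) * PL ν W B + ENNReal.ofReal (6 * ρ / √(6 * ρ / p₀))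
        ≤ ENNReal.ofReal √(6 * ρ / p₀) * ENNReal.ofReal p₀ +
          ENNReal.ofReal (6 * ρ / √(6 * ρ / p₀)) := by
          gcongr
          exact hbad x W hW
      _ = ENNReal.ofReal (2 * √(6 * ρ * p₀)) := by
          rw [← ENNReal.ofReal_mul (by positivity), h4, h5,
            ← ENNReal.ofReal_add (by positivity) (by positivity)]
          congr 1
          ring
  calc _ ≤ ENNReal.ofReal (√(2 / g) * Real.exp (-κ * L / 2)) +
        ENNReal.ofReal (2 * √(6 * ρ * p₀)) := add_le_add h1 h2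
    _ = _ := (ENNReal.ofReal_add (by positivity) (by positivity)).symm

universe u

/-- fixed energy decay from the flatness of the landscape function -/
theorem fixedDecay_of_flat {d : ℕ} (hd : 1 ≤ d) {σ z μ p : ℝ} {r : ℕ} {v : ℝ≥0} (hσ : σ ≠ 0)
    (hv : (v : ℝ) = σ ^ 2) (hμ : 1 ≤ μ)
    (hgau : gau d (4 * r + 3) v {V | ¬ Flat z μ V} ≤ ENNReal.ofReal p) (hp1 : 0 < p)
    (hnum : 2 * d * ((2 * (r:ℝ) + 5) ^ d) ^ 4 * ((√(2 / (1 / (2 * μ))) *
          Real.exp (-(1 / (2 * μ) / (8 * d)) * r / 2) + 2 * √(6 * (1 / |σ|) * (2 * p))) *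
            (2 * √(6 * (1 / |σ|)))) ≤ Real.exp (-1))
    {Ω : Type u} [MeasurableSpace Ω] {P : Measure Ω} [IsProbabilityMeasure P]
    {ξ : Site d → Ω → ℝ} (hm : ∀ y, Measurable (ξ y))
    (hlaw : ∀ y, P.map (ξ y) = gaussianReal 0 1) (hind : iIndepFun ξ P) :
    FixedDecay P (fun y ω => σ * ξ y ω) z (2 * √(6 * (1 / |σ|)) * Real.exp 1)
      (2 / (3 * (r + 2))) := by
  have hd0 : (0:ℝ) < d := by exact_mod_cast hd
  have hμ0 : 0 < μ := by linarith only [hμ]
  set g : ℝ := 1 / (2 * μ) with hg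
  have hg0 : 0 < g := by positivity
  have hg1 : g ≤ 1 := by
    rw [hg, div_le_one (by positivity)]; linarith only [hμ]
  set κ : ℝ := g / (8 * d) with hκ
  have hκ0 : 0 < κ := by positivity
  have hκ1 : κ ≤ 1 := by
    rw [hκ, div_le_one (by positivity)]
    have : (1:ℝ) ≤ d := by exact_mod_cast hd
    linarith only [hd0, hg1, this]
  have hκg : 2 * d * (Real.exp κ - 1) ≤ g / 2 := by
    have e1 := exp_sub_one_le hκ0.le hκ1
    calc 2 * d * (Real.exp κ - 1) ≤ 2 * d * (2 * κ) := by gcongr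
      _ = g / 2 := by rw [hκ]; field_simp; ring
  refine fixedDecay_of_init (ν := gl σ) (bddDens_gl hσ) (fun y => (hm y).const_mul σ) ?_ ?_
    (ε := √(2 / g) * Real.exp (-κ * r / 2) + 2 * √(6 * (1 / |σ|) * (2 * p))) (by positivity)
    ?_ hnum
  · intro y
    unfold gl γ1
    rw [← hlaw y, Measure.map_map (by fun_prop) (hm y)]
    rfl
  · exact hind.comp (fun _ t => σ * t) fun _ => by fun_prop
  · intro E hE
    exact init d (gl σ) (1 / |σ|) (bddDens_gl hσ) z g κ (2 * p) r hg0 hκ0.le hκg (by positivity)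
      (fun x W hW => PL_FB hm hlaw hind hv hp1.le hμ0 hgau le_rfl x W hW) E hE

end Pool.Agent.LOC
end
end -- Pool.Agent.Helper54_LOC.Init

section -- Pool.Agent.Helper54_LOC.Cnt

/-!
# LOC: eigenvalue counts and test functions
-/

set_option autoImplicit false

open MeasureTheory ProbabilityTheory Filter

open scoped ENNReal NNReal BigOperators Topology

noncomputable section

namespace Pool.Agent.LOC

open Matrix Pool.Agent.Anderson Pool.Agent.Loc Pool.Agent.BED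

variable {d : ℕ}

/-- the quadratic form of `H_Λ` -/
def hform (V : Site d → ℝ) (Λ : Finset (Site d)) (u : Site d → ℝ) : ℝ :=
  ∑ y ∈ Λ, V y * u y ^ 2 + hf Λ u

theorem hform_eq_dot (V : Site d → ℝ) (Λ : Finset (Site d)) (u : Site d → ℝ) :
    hform V Λ u = (fun z : Λ => u z) ⬝ᵥ (HM V Λ).mulVec (fun z : Λ => u z) := by
  have h1 := qform_eq_dot V Λ 0 u
  rw [qform_eq] at h1
  unfold RM at h1
  rw [zero_smul, zero_sub, Matrix.neg_mulVec, dotProduct_neg] at h1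
  unfold hform
  linarith

theorem hform_shift (V : Site d → ℝ) (Λ : Finset (Site d)) (u : Site d → ℝ) (x : Site d) :
    hform (fun y => V (x + y)) (Λ.image fun y => y - x) (fun y => u (x + y)) = hform V Λ u ∧
    ∑ y ∈ Λ.image (fun y => y - x), u (x + y) ^ 2 = ∑ y ∈ Λ, u y ^ 2 := by
  classical
  have hinj : ∀ y ∈ Λ, ∀ w ∈ Λ, y - x = w - x → y = w := fun y _ w _ h => sub_left_injective h
  have e1 : ∀ y : Site d, x + (y - x) = y := fun y => by abel
  unfold hform hf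
  rw [Finset.sum_image hinj, Finset.sum_image hinj, Finset.sum_image hinj]
  simp only [e1]
  refine ⟨?_, trivial⟩
  congr 1
  refine Finset.sum_congr rfl fun y _ => ?_
  rw [Finset.sum_image hinj]
  simp only [e1, hop_shift]

theorem image_box (x : Site d) (l : ℕ) : (box x l).image (fun y => y - x) = box 0 l := by
  classical
  ext w
  rw [Finset.mem_image]
  constructor
  · rintro ⟨y, hy, rfl⟩
    rw [mem_box, sd_le_iff] at *
    intro i
    have := hy i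
    rw [Pi.zero_apply, zero_sub, Pi.sub_apply, neg_sub]
    exact this
  · intro hw
    refine ⟨x + w, ?_, by abel⟩
    rw [mem_box, sd_le_iff] at *
    intro i
    have := hw i
    rw [Pi.zero_apply, zero_sub] at this
    rw [Pi.add_apply, sub_add_cancel_left]
    exact this

theorem form_of_nAbove {V : Site d → ℝ} {Λ : Finset (Site d)} {e : ℝ} (h : 0 < nAbove V Λ e) :
    ∃ u : Site d → ℝ, (∃ y ∈ Λ, u y ≠ 0) ∧ e * ∑ y ∈ Λ, u y ^ 2 ≤ hform V Λ u := by
  classical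
  unfold nAbove at h
  obtain ⟨i, hi⟩ := Finset.card_pos.1 h
  have hi2 : e ≤ (HM_isHermitian V Λ).eigenvalues i := (Finset.mem_filter.1 hi).2
  set v : Λ → ℝ := ((HM_isHermitian V Λ).eigenvectorBasis i : Λ → ℝ) with hv
  have hev : HM V Λ *ᵥ v = (HM_isHermitian V Λ).eigenvalues i • v :=
    (HM_isHermitian V Λ).mulVec_eigenvectorBasis i
  have hv0 : v ≠ 0 := by
    intro h0
    have h1 := (HM_isHermitian V Λ).eigenvectorBasis.orthonormal.ne_zero i
    apply h1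
    ext z
    exact congrFun h0 z
  set u : Site d → ℝ := fun z => if hz : z ∈ Λ then v ⟨z, hz⟩ else 0 with hu
  have huv : (fun z : Λ => u z) = v := by
    funext z
    simp [hu]
  have hs : ∑ y ∈ Λ, u y ^ 2 = v ⬝ᵥ v := by
    rw [← Finset.sum_coe_sort Λ, ← huv]
    exact Finset.sum_congr rfl fun y _ => by rw [sq]
  refine ⟨u, ?_, ?_⟩
  · obtain ⟨z, hz⟩ := Function.ne_iff.1 hv0
    refine ⟨z, z.2, ?_⟩
    have := congrFun huv z
    rw [this]
    exact hz
  · rw [hform_eq_dot, huv, hev, dotProduct_smul, smul_eq_mul, hs]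
    refine mul_le_mul_of_nonneg_right hi2 ?_
    rw [← hs]
    exact Finset.sum_nonneg fun y _ => sq_nonneg _

theorem nAbove_of_form {V : Site d → ℝ} {Λ : Finset (Site d)} {e : ℝ} {u : Site d → ℝ}
    (hu : ∃ y ∈ Λ, u y ≠ 0) (h : e * ∑ y ∈ Λ, u y ^ 2 ≤ hform V Λ u) : 0 < nAbove V Λ e := by
  classical
  have h1 := H15.minmax Λ (HM V Λ) (HM_isHermitian V Λ) e 1 (fun _ z => u z)
    (fun _ => by
      obtain ⟨y, hy, hy0⟩ := hu
      intro h0
      exact hy0 (congrFun h0 ⟨y, hy⟩))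
    (fun j j' hjj => absurd (Subsingleton.elim j j') hjj)
    (fun j j' hjj => absurd (Subsingleton.elim j j') hjj)
    (fun _ => by
      have e1 : ∑ x : Λ, u x * (HM V Λ *ᵥ fun z : Λ => u z) x = hform V Λ u := by
        rw [hform_eq_dot]; rfl
      rw [e1, Finset.sum_coe_sort Λ (fun y => u y ^ 2)]
      exact h)
  unfold nAbove
  exact h1

/-- eigenvalues near the top in boxes at an arbitrary place -/
theorem nAbove_of_flat {M : ℕ} [NeZero M] {C : ℝ} {r : ℕ} {z μ : ℝ} {W : Site d → ℝ}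
    (hC : ∀ (W : Site d → ℝ), Flat z μ (fun x : Tor d M => W (rep x)) →
      ∀ (x₀ : Site d) (L : ℕ), (∀ i, |x₀ i| + L ≤ r) →
      ∀ (hH : (HM W (box x₀ L)).IsHermitian) (lam : ℝ), 10 / μ ≤ lam → lam ≤ 1 →
        C ≤ lam * (L : ℝ) ^ 2 →
        lam ^ ((d : ℝ) / 2) * (2 * (L : ℝ) + 1) ^ d ≤
          C * ((Finset.univ.filter fun i => z - lam ≤ hH.eigenvalues i).card : ℝ))
    (x : Site d) (hf : Flat z μ (fun t : Tor d M => W (x + rep t))) {l : ℕ} (hl : l ≤ r)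
    {lam : ℝ} (h0 : 0 < lam) (h1 : 10 / μ ≤ lam) (h2 : lam ≤ 1) (h3 : C ≤ lam * (l : ℝ) ^ 2) :
    0 < nAbove W (box x l) (z - lam) := by
  have h4 := hC (fun y => W (x + y)) hf 0 l (fun i => by simpa using hl)
    (HM_isHermitian _ _) lam h1 h2 h3
  have h5 : 0 < nAbove (fun y => W (x + y)) (box 0 l) (z - lam) := by
    unfold nAbove
    by_contra hcon
    have h6 : (Finset.univ.filter fun i => z - lam ≤
      (HM_isHermitian (fun y => W (x + y)) (box 0 l)).eigenvalues i).card = 0 := by omega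
    rw [h6] at h4
    have h7 : 0 < lam ^ ((d : ℝ) / 2) * (2 * (l : ℝ) + 1) ^ d := by positivity
    rw [Nat.cast_zero, mul_zero] at h4
    linarith
  obtain ⟨u, hu, hform⟩ := form_of_nAbove h5
  rw [← image_box x l] at hu hform
  have e : (fun y => (fun w => u (w - x)) (x + y)) = u := by
    funext y
    simp only [add_sub_cancel_left]
  obtain ⟨g1, g2⟩ := hform_shift W (box x l) (fun w => u (w - x)) x
  have e2 : ∀ y, (fun w => u (w - x)) (x + y) = u y := fun y => congrFun e y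
  rw [e] at g1
  simp only [add_sub_cancel_left] at g2
  rw [g1, g2] at hform
  refine nAbove_of_form ?_ hform
  obtain ⟨y, hy, hy0⟩ := hu
  rw [Finset.mem_image] at hy
  obtain ⟨w, hw, rfl⟩ := hy
  exact ⟨w, hw, hy0⟩

end Pool.Agent.LOC
end
end -- Pool.Agent.Helper54_LOC.Cnt

section -- Pool.Agent.Helper54_LOC.Window

/-!
# LOC: the width of the window
-/

set_option autoImplicit false

open scoped BigOperators

noncomputable section

namespace Pool.Agent.LOC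

open Pool.Agent.BED

/-- `σ⁴ (1 + log (1/|σ|))² / c` for `d = 3`, `exp (-c / |σ|)` for `d = 4`, `exp (-c / σ²)`
otherwise -/
def window (d : ℕ) (c σ : ℝ) : ℝ :=
  if d = 3 then σ ^ 4 * (1 + Real.log (1 / |σ|)) ^ 2 / c
  else if d = 4 then Real.exp (-c / |σ|) else Real.exp (-c / σ ^ 2)

theorem window_anti (d : ℕ) {c c₁ σ : ℝ} (hc : 0 < c) (hcc : c ≤ c₁) :
    window d c₁ σ ≤ window d c σ := by
  unfold window
  have h1 : 0 ≤ |σ| := abs_nonneg σ
  have h2 : 0 ≤ σ ^ 2 := sq_nonneg σ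
  split_ifs
  · have : 0 ≤ σ ^ 4 * (1 + Real.log (1 / |σ|)) ^ 2 := by positivity
    gcongr
  · gcongr
  · gcongr

theorem window_spec (d : ℕ) {c₂ : ℝ} (hc₂ : 0 < c₂) : ∃ c₁ σ₁ : ℝ, 0 < c₁ ∧ 0 < σ₁ ∧ σ₁ ≤ 1 ∧
    ∀ σ : ℝ, σ ≠ 0 → |σ| ≤ σ₁ → 0 < window d c₁ σ ∧ |σ|⁻¹ ^ 3 ≤ (window d c₁ σ)⁻¹ ∧
      σ ^ 2 * growth d (window d c₁ σ)⁻¹ * Real.log (window d c₁ σ)⁻¹ ≤ c₂ := by
  set c₁ : ℝ := min 1 (min (c₂ / 2) (c₂ ^ 2 / 16)) with hc₁
  have hc0 : 0 < c₁ := by positivity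
  have hc1 : c₁ ≤ 1 := min_le_left _ _
  have hc2 : c₁ ≤ c₂ / 2 := (min_le_right _ _).trans (min_le_left _ _)
  have hc3 : c₁ ≤ c₂ ^ 2 / 16 := (min_le_right _ _).trans (min_le_right _ _)
  refine ⟨c₁, min 1 (min ((c₁ / 16) ^ 2) (min (c₁ ^ 4 / 24) (c₁ ^ 2 / 2))), hc0, by positivity,
    min_le_left _ _, ?_⟩
  intro σ hσ hσσ
  set s : ℝ := |σ| with hs
  have hs0 : 0 < s := abs_pos.2 hσ
  have hss : σ ^ 2 = s ^ 2 := by rw [hs, sq_abs]
  have hs4 : σ ^ 4 = s ^ 4 := by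
    rw [show σ ^ 4 = (σ ^ 2) ^ 2 by ring, hss]; ring
  have hs1 : s ≤ 1 := hσσ.trans (min_le_left _ _)
  have hsA : s ≤ (c₁ / 16) ^ 2 := hσσ.trans ((min_le_right _ _).trans (min_le_left _ _))
  have hsB : s ≤ c₁ ^ 4 / 24 :=
    hσσ.trans ((min_le_right _ _).trans ((min_le_right _ _).trans (min_le_left _ _)))
  have hsC : s ≤ c₁ ^ 2 / 2 :=
    hσσ.trans ((min_le_right _ _).trans ((min_le_right _ _).trans (min_le_right _ _)))
  unfold window
  rw [← hs, hss, hs4]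
  split_ifs with h3 h4
  · -- d = 3
    set y : ℝ := 1 / s with hy
    have hy1 : 1 ≤ y := by rw [hy, le_div_iff₀ hs0]; linarith only [hs1]
    have hlog : 0 ≤ Real.log y := Real.log_nonneg hy1
    set l : ℝ := 1 + Real.log y with hl
    have hl1 : 1 ≤ l := by rw [hl]; linarith only [hlog]
    have hl0 : 0 < l := by linarith only [hlog]
    have hl2 : l ≤ 4 * √√y := by
      have h5 : Real.log y = 4 * Real.log √√y := by
        rw [Real.log_sqrt (Real.sqrt_nonneg _), Real.log_sqrt (by linarith only [hy1])]; ring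
      have h6 : 0 < √√y := Real.sqrt_pos.2 (Real.sqrt_pos.2 (by linarith only [hy1]))
      have h7 := Real.log_le_sub_one_of_pos h6
      rw [hl, h5]; linarith only [h7]
    have hl3 : s * l ^ 2 ≤ c₁ := by
      have h8 : l ^ 2 ≤ 16 * √y := by
        calc l ^ 2 ≤ (4 * √√y) ^ 2 := by gcongr
          _ = 16 * √y := by rw [mul_pow, Real.sq_sqrt (Real.sqrt_nonneg _)]; norm_num
      have h9 : s * √y = √s := by
        rw [hy, Real.sqrt_div zero_le_one, Real.sqrt_one]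
        rw [mul_one_div, div_eq_iff (Real.sqrt_pos.2 hs0).ne', Real.mul_self_sqrt hs0.le]
      have h10 : √s ≤ c₁ / 16 := by
        rw [Real.sqrt_le_left (by positivity)]; exact hsA
      calc s * l ^ 2 ≤ s * (16 * √y) := by gcongr
        _ = 16 * (s * √y) := by ring
        _ = 16 * √s := by rw [h9]
        _ ≤ c₁ := by linarith only [h10]
    have hinv : (s ^ 4 * l ^ 2 / c₁)⁻¹ = c₁ / (s ^ 4 * l ^ 2) := by rw [inv_div]
    refine ⟨by positivity, ?_, ?_⟩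
    · rw [hinv, le_div_iff₀ (by positivity)]
      have : s⁻¹ ^ 3 * (s ^ 4 * l ^ 2) = s * l ^ 2 := by field_simp
      rw [this]; exact hl3
    · rw [hinv]
      unfold growth
      rw [if_pos h3]
      have h11 : √(c₁ / (s ^ 4 * l ^ 2)) = √c₁ / (s ^ 2 * l) := by
        rw [Real.sqrt_div hc0.le, show s ^ 4 * l ^ 2 = (s ^ 2 * l) ^ 2 by ring,
          Real.sqrt_sq (by positivity)]
      have h12 : Real.log (c₁ / (s ^ 4 * l ^ 2)) ≤ 4 * l := by
        have h13 : c₁ / (s ^ 4 * l ^ 2) ≤ y ^ 4 := by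
          rw [hy, div_pow, one_pow, div_le_div_iff₀ (by positivity) (by positivity), one_mul]
          have : 1 ≤ l ^ 2 := one_le_pow₀ hl1
          have h14 : 0 < s ^ 4 := by positivity
          nlinarith only [hc1, this, h14]
        calc Real.log (c₁ / (s ^ 4 * l ^ 2)) ≤ Real.log (y ^ 4) :=
              Real.log_le_log (by positivity) h13
          _ = 4 * Real.log y := by rw [Real.log_pow]; norm_num
          _ ≤ 4 * l := by rw [hl]; linarith only
      have h15 : √c₁ ≤ c₂ / 4 := by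
        rw [Real.sqrt_le_left (by positivity)]
        linarith only [hc3]
      rw [h11]
      calc s ^ 2 * (√c₁ / (s ^ 2 * l)) * Real.log (c₁ / (s ^ 4 * l ^ 2))
          ≤ s ^ 2 * (√c₁ / (s ^ 2 * l)) * (4 * l) := by gcongr
        _ = 4 * √c₁ := by field_simp
        _ ≤ c₂ := by linarith only [h15]
  · -- d = 4
    have hinv : (Real.exp (-c₁ / s))⁻¹ = Real.exp (c₁ / s) := by
      rw [← Real.exp_neg]; congr 1; ring
    refine ⟨Real.exp_pos _, ?_, ?_⟩
    · rw [hinv]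
      have h5 := Real.pow_div_factorial_le_exp (c₁ / s) (by positivity) 4
      refine le_trans ?_ h5
      have h6 : ((Nat.factorial 4 : ℕ) : ℝ) = 24 := by norm_num [Nat.factorial]
      rw [h6, inv_pow, ← one_div, div_pow, div_div, div_le_div_iff₀ (by positivity) (by positivity)]
      have h7 : 0 < s ^ 3 := by positivity
      nlinarith only [hsB, h7]
    · rw [hinv]
      unfold growth
      rw [if_neg h3, if_pos h4, Real.log_exp]
      have : s ^ 2 * (1 + c₁ / s) * (c₁ / s) = s * c₁ + c₁ ^ 2 := by field_simp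
      rw [this]
      nlinarith only [hc0, hc1, hc2, hs1]
  · -- d ≥ 5 (or small)
    have hinv : (Real.exp (-c₁ / s ^ 2))⁻¹ = Real.exp (c₁ / s ^ 2) := by
      rw [← Real.exp_neg]; congr 1; ring
    refine ⟨Real.exp_pos _, ?_, ?_⟩
    · rw [hinv]
      have h5 := Real.pow_div_factorial_le_exp (c₁ / s ^ 2) (by positivity) 2
      refine le_trans ?_ h5
      have h6 : ((Nat.factorial 2 : ℕ) : ℝ) = 2 := by norm_num [Nat.factorial]
      rw [h6, inv_pow, ← one_div, div_pow, div_div, div_le_div_iff₀ (by positivity) (by positivity)]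
      have h7 : 0 < s ^ 3 := by positivity
      nlinarith only [hs0, hsA]
    · rw [hinv]
      unfold growth
      rw [if_neg h3, if_neg h4, Real.log_exp]
      have : s ^ 2 * 1 * (c₁ / s ^ 2) = c₁ := by field_simp
      rw [this]
      linarith only [hc0, hc2]

end Pool.Agent.LOC
end
end -- Pool.Agent.Helper54_LOC.Window

section -- Pool.Agent.Helper54_LOC.Edge

/-!
# LOC: the position of the edge
-/

set_option autoImplicit false

open MeasureTheory ProbabilityTheory Filter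

open scoped ENNReal NNReal BigOperators Topology

noncomputable section

namespace Pool.Agent.LOC

open Matrix Pool.Agent.Anderson Pool.Agent.Loc Pool.Agent.BED

variable {d : ℕ}

/-- the property of the count, for fixed parameters -/
def CountAt (d : ℕ) (C : ℝ) (r : ℕ) (z μ : ℝ) : Prop :=
  ∀ (W : Site d → ℝ), Flat z μ (fun x : Tor d (4 * r + 3) => W (rep x)) →
      ∀ (x₀ : Site d) (L : ℕ), (∀ i, |x₀ i| + L ≤ r) →
      ∀ (hH : (HM W (box x₀ L)).IsHermitian) (lam : ℝ), 10 / μ ≤ lam → lam ≤ 1 →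
        C ≤ lam * (L : ℝ) ^ 2 →
        lam ^ ((d : ℝ) / 2) * (2 * (L : ℝ) + 1) ^ d ≤
          C * ((Finset.univ.filter fun i => z - lam ≤ hH.eigenvalues i).card : ℝ)

/-- upper bound for the edge -/
theorem edge_upper {C : ℝ} {r : ℕ} {z μ : ℝ} (hC : CountAt d C r z μ)
    {σ p B : ℝ} {v : ℝ≥0} (hv : (v : ℝ) = σ ^ 2) (hp0 : 0 ≤ p) (hp8 : p ≤ 1 / 8)
    (hgau : gau d (4 * r + 3) v {V | ¬ Flat z μ V} ≤ ENNReal.ofReal p) {L : ℕ}
    (hUp : ∀ (Ω : Type) [MeasurableSpace Ω] (P : Measure Ω) [IsProbabilityMeasure P]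
      (ξ : Site d → Ω → ℝ), (∀ y, Measurable (ξ y)) →
      (∀ y, P.map (ξ y) = gaussianReal 0 1) → iIndepFun ξ P →
      P {ω | ¬ ∀ u : Site d → ℝ, ∑ y ∈ box 0 L, σ * ξ y ω * u y ^ 2 + hf (box 0 L) u ≤
        B * ∑ y ∈ box 0 L, u y ^ 2} ≤ ENNReal.ofReal (1 / 4))
    (hLr : L ≤ r) {lam : ℝ} (h0 : 0 < lam) (h1 : 10 / μ ≤ lam) (h2 : lam ≤ 1)
    (h3 : C ≤ lam * (L : ℝ) ^ 2) : z ≤ B + lam := by
  obtain ⟨Ω, _, P, ξ, hm, hlaw', hind, _⟩ := exists_iid (Site d) (gaussianReal 0 1)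
  have hlaw : ∀ y, P.map (ξ y) = gaussianReal 0 1 := fun y => (hlaw' y).map_eq
  have hb1 := prob_flat hm hlaw hind hv hp0 hgau 0
  have hb2 := hUp Ω P ξ hm hlaw hind
  have hex : ∃ ω, (Flat z μ (fun t : Tor d (4 * r + 3) => σ * ξ (0 + rep t) ω) ∧
      Flat z μ (fun t : Tor d (4 * r + 3) => - (σ * ξ (0 + rep t) ω))) ∧
      ∀ u : Site d → ℝ, ∑ y ∈ box 0 L, σ * ξ y ω * u y ^ 2 + hf (box 0 L) u ≤
        B * ∑ y ∈ box 0 L, u y ^ 2 := by
    by_contra hcon
    push Not at hcon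
    have hsub : (Set.univ : Set Ω) ⊆ {ω | ¬ (Flat z μ (fun t : Tor d (4 * r + 3) =>
        σ * ξ (0 + rep t) ω) ∧ Flat z μ (fun t : Tor d (4 * r + 3) => - (σ * ξ (0 + rep t) ω)))} ∪
        {ω | ¬ ∀ u : Site d → ℝ, ∑ y ∈ box 0 L, σ * ξ y ω * u y ^ 2 + hf (box 0 L) u ≤
        B * ∑ y ∈ box 0 L, u y ^ 2} := by
      intro ω _
      by_cases hω : (Flat z μ (fun t : Tor d (4 * r + 3) => σ * ξ (0 + rep t) ω) ∧
        Flat z μ (fun t : Tor d (4 * r + 3) => - (σ * ξ (0 + rep t) ω)))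
      · right
        intro hall
        obtain ⟨u, hu⟩ := hcon ω hω
        exact absurd (hall u) (not_le.2 hu)
      · left
        exact hω
    have h5 : (1 : ℝ≥0∞) ≤ ENNReal.ofReal (1 / 2) := by
      calc (1 : ℝ≥0∞) = P Set.univ := measure_univ.symm
        _ ≤ _ := (measure_mono hsub).trans (measure_union_le _ _)
        _ ≤ ENNReal.ofReal (2 * p) + ENNReal.ofReal (1 / 4) := add_le_add hb1 hb2
        _ = ENNReal.ofReal (2 * p + 1 / 4) := (ENNReal.ofReal_add (by positivity) (by norm_num)).symm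
        _ ≤ ENNReal.ofReal (1 / 2) := ENNReal.ofReal_le_ofReal (by linarith only [hp8])
    rw [ENNReal.one_le_ofReal] at h5
    norm_num at h5
  obtain ⟨ω, hω1, hω2⟩ := hex
  have h6 := nAbove_of_flat (W := fun y => σ * ξ y ω) hC 0 hω1.1 hLr h0 h1 h2 h3
  obtain ⟨u, ⟨y, hy, hy0⟩, hu⟩ := form_of_nAbove h6
  have h7 := hω2 u
  have h8 : 0 < ∑ y ∈ box 0 L, u y ^ 2 :=
    Finset.sum_pos' (fun y _ => sq_nonneg _) ⟨y, hy, by positivity⟩
  unfold hform at hu
  by_contra hcon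
  push Not at hcon
  nlinarith only [hu, h7, h8, hcon]

/-- lower bound for the edge -/
theorem edge_lower {r : ℕ} {z μ : ℝ} {σ p B q : ℝ} {v : ℝ≥0} (hμ : 0 < μ)
    (hv : (v : ℝ) = σ ^ 2) (hp0 : 0 ≤ p)
    (hgau : gau d (4 * r + 3) v {V | ¬ Flat z μ V} ≤ ENNReal.ofReal p) (hpq : 2 * p < q) {L : ℕ}
    (hLow : ∀ (Ω : Type) [MeasurableSpace Ω] (P : Measure Ω) [IsProbabilityMeasure P]
      (ξ : Site d → Ω → ℝ), (∀ y, Measurable (ξ y)) →
      (∀ y, P.map (ξ y) = gaussianReal 0 1) → iIndepFun ξ P →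
      ENNReal.ofReal q ≤ P {ω | ∃ u : Site d → ℝ, B * ∑ y ∈ box 0 L, u y ^ 2 <
        ∑ y ∈ box 0 L, σ * ξ y ω * u y ^ 2 + hf (box 0 L) u})
    (hLr : L ≤ r) : B ≤ z := by
  obtain ⟨Ω, _, P, ξ, hm, hlaw', hind, _⟩ := exists_iid (Site d) (gaussianReal 0 1)
  have hlaw : ∀ y, P.map (ξ y) = gaussianReal 0 1 := fun y => (hlaw' y).map_eq
  have hb1 := prob_FB hm hlaw hind hv hp0 hμ hgau le_rfl 0 (box 0 L) (box_mono 0 hLr)
  have hb2 := hLow Ω P ξ hm hlaw hind
  by_contra hcon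
  push Not at hcon
  have hsub : {ω | ∃ u : Site d → ℝ, B * ∑ y ∈ box 0 L, u y ^ 2 <
        ∑ y ∈ box 0 L, σ * ξ y ω * u y ^ 2 + hf (box 0 L) u} ⊆
      {ω | ¬ FB (fun y => σ * ξ y ω) (box 0 L) (z - 1 / (2 * μ))} := by
    rintro ω ⟨u, hu⟩ hFB
    have h1 := (abs_le.1 (hFB u)).2
    have h2 : 0 ≤ ∑ y ∈ box 0 L, u y ^ 2 := Finset.sum_nonneg fun y _ => sq_nonneg _
    have h3 : 0 < 1 / (2 * μ) := by positivity
    nlinarith only [hcon, hu, h1, h2, h3]
  have h4 := hb2.trans ((measure_mono hsub).trans hb1)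
  rw [ENNReal.ofReal_le_ofReal_iff (by positivity)] at h4
  linarith

end Pool.Agent.LOC
end
end -- Pool.Agent.Helper54_LOC.Edge
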