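import Pool.Agent.Helper12_MEB.B014

/-!
# Merged copies (generated) of the modules

* `Pool.Agent.Helper61_AND.Num`
* `Pool.Agent.Helper41_IR.Defs`
* `Pool.Agent.Helper41_IR.Base`
* `Pool.Agent.Helper41_IR.Phase`
* `Pool.Agent.Helper41_IR.Stmts`
* `Pool.Agent.Helper85_IR.Avg`
* `Pool.Agent.Helper96_AHH.Core`
* `Pool.Agent.Helper41_AHH.Cal`
-/

set_option autoImplicit false

section -- Pool.Agent.Helper61_AND.Num

/-!
# Numeric inequalities for small parameters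

`Small P`: `P s` holds for all sufficiently small `s > 0`. `Small` statements can be combined with
`Filter.Eventually.and` or `filter_upwards`, and `Small.ex` gives the threshold.
-/

set_option autoImplicit false

open Filter Topology

namespace Pool.Agent.AND.Num

/-- `P s` for all sufficiently small `s > 0` -/
def Small (P : ℝ → Prop) : Prop := ∀ᶠ s : ℝ in 𝓝[>] (0 : ℝ), P s

theorem Small.ex {P : ℝ → Prop} (h : Small P) :
    ∃ s₀ : ℝ, 0 < s₀ ∧ s₀ ≤ 1 ∧ ∀ s : ℝ, 0 < s → s ≤ s₀ → P s := by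
  unfold Small at h
  rw [eventually_nhdsWithin_iff, Metric.eventually_nhds_iff] at h
  obtain ⟨ε, hε, h⟩ := h
  refine ⟨min (ε / 2) 1, lt_min (by positivity) one_pos, min_le_right _ _, fun s hs hs' => ?_⟩
  refine h ?_ hs
  rw [Real.dist_eq, sub_zero, abs_of_pos hs]
  have := hs'.trans (min_le_left _ _)
  linarith only [hs, this]

theorem Small.of_ex {P : ℝ → Prop} (s₀ : ℝ) (h0 : 0 < s₀) (h : ∀ s : ℝ, 0 < s → s ≤ s₀ → P s) :
    Small P := by
  unfold Small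
  rw [eventually_nhdsWithin_iff, Metric.eventually_nhds_iff]
  refine ⟨s₀, h0, fun s hs hs' => h s hs' ?_⟩
  rw [Real.dist_eq, sub_zero, abs_of_pos hs'] at hs
  exact hs.le

theorem Small.and {P Q : ℝ → Prop} (hP : Small P) (hQ : Small Q) : Small fun s => P s ∧ Q s :=
  Filter.Eventually.and hP hQ

theorem Small.mono {P Q : ℝ → Prop} (hP : Small P) (h : ∀ s, 0 < s → P s → Q s) : Small Q := by
  unfold Small at *
  filter_upwards [hP, self_mem_nhdsWithin] with s hs hs'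
  exact h s hs' hs

theorem Small.pos : Small fun s => 0 < s := self_mem_nhdsWithin

/-- finitely many -/
theorem Small.all {ι : Type*} [Finite ι] {P : ι → ℝ → Prop} (h : ∀ i, Small (P i)) :
    Small fun s => ∀ i, P i s := Filter.eventually_all.2 h

theorem small_le (c : ℝ) (hc : 0 < c) : Small fun s => s ≤ c :=
  Small.of_ex c hc fun _ _ h => h

/-- `s ^ r → 0` -/
theorem tendsto_rpow (r : ℝ) (hr : 0 < r) : Tendsto (fun s : ℝ => s ^ r) (𝓝[>] 0) (𝓝 0) := by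
  have h := (Real.continuous_rpow_const hr.le).tendsto (0 : ℝ)
  rw [Real.zero_rpow hr.ne'] at h
  exact h.mono_left nhdsWithin_le_nhds

/-- `C s ^ p ≤ s ^ q` for `q < p` -/
theorem small_pow (C p q : ℝ) (h : q < p) : Small fun s => C * s ^ p ≤ s ^ q := by
  have h1 := (tendsto_rpow (p - q) (by linarith)).const_mul C
  rw [mul_zero] at h1
  have h2 : Small fun s => C * s ^ (p - q) < 1 := h1.eventually (gt_mem_nhds one_pos)
  refine h2.mono fun s hs h3 => ?_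
  have h4 : s ^ p = s ^ (p - q) * s ^ q := by
    rw [← Real.rpow_add hs]
    congr 1
    ring
  have h5 : 0 < s ^ q := Real.rpow_pos_of_pos hs _
  rw [h4, ← mul_assoc]
  nlinarith only [h3, h5]

/-- `C s ^ p ≤ c s ^ q` for `q < p`, `0 < c` -/
theorem small_pow' (C c p q : ℝ) (hc : 0 < c) (h : q < p) : Small fun s => C * s ^ p ≤ c * s ^ q := by
  refine (small_pow (C / c) p q h).mono fun s hs h3 => ?_
  have h4 := mul_le_mul_of_nonneg_left h3 hc.le
  have h5 : c * (C / c * s ^ p) = C * s ^ p := by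
    field_simp
  rw [h5] at h4
  exact h4

/-- `s ^ p ≤ s ^ q` for `q ≤ p` and `s ≤ 1` -/
theorem rpow_anti {s p q : ℝ} (hs : 0 < s) (hs1 : s ≤ 1) (h : q ≤ p) : s ^ p ≤ s ^ q :=
  Real.rpow_le_rpow_of_exponent_ge hs hs1 h

/-- `log (1/s) ^ k * s ^ r → 0` -/
theorem tendsto_log (r : ℝ) (hr : 0 < r) (k : ℕ) :
    Tendsto (fun s : ℝ => |Real.log s| ^ k * s ^ r) (𝓝[>] 0) (𝓝 0) := by
  rcases Nat.eq_zero_or_pos k with h0 | h0
  · subst h0
    simpa using tendsto_rpow r hr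
  · have hk : (0 : ℝ) < k := by exact_mod_cast h0
    have h1 := tendsto_log_mul_rpow_nhdsGT_zero (r := r / k) (by positivity)
    have h2 : Tendsto (fun s : ℝ => |Real.log s * s ^ (r / k)|) (𝓝[>] 0) (𝓝 0) := by
      simpa using h1.abs
    have h3 := h2.pow k
    rw [zero_pow (by omega)] at h3
    refine h3.congr' ?_
    filter_upwards [self_mem_nhdsWithin] with s hs
    have hs' : (0 : ℝ) < s := hs
    rw [abs_mul, abs_of_pos (Real.rpow_pos_of_pos hs' _), mul_pow]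
    congr 1
    rw [← Real.rpow_natCast, ← Real.rpow_mul hs'.le]
    congr 1
    field_simp

/-- `C |log s| ^ k s ^ p ≤ s ^ q` for `q < p` -/
theorem small_pow_log (C p q : ℝ) (k : ℕ) (h : q < p) :
    Small fun s => C * |Real.log s| ^ k * s ^ p ≤ s ^ q := by
  have h1 := (tendsto_log (p - q) (by linarith) k).const_mul C
  rw [mul_zero] at h1
  have h2 : Small fun s => C * (|Real.log s| ^ k * s ^ (p - q)) < 1 :=
    h1.eventually (gt_mem_nhds one_pos)
  refine h2.mono fun s hs h3 => ?_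
  have h4 : s ^ p = s ^ (p - q) * s ^ q := by
    rw [← Real.rpow_add hs]
    congr 1
    ring
  have h5 : 0 < s ^ q := Real.rpow_pos_of_pos hs _
  rw [h4]
  nlinarith only [h3, h5]

/-- `C |log s| ^ k ≤ s ^ (-q)` for `0 < q` -/
theorem small_log (C q : ℝ) (k : ℕ) (h : 0 < q) : Small fun s => C * |Real.log s| ^ k ≤ s ^ (-q) := by
  refine (small_pow_log C 0 (-q) k (by linarith)).mono fun s hs h1 => ?_
  rwa [Real.rpow_zero, mul_one] at h1

/-- `C ≤ s ^ (-q)` for `0 < q` -/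
theorem small_const (C q : ℝ) (h : 0 < q) : Small fun s => C ≤ s ^ (-q) := by
  refine (small_log C q 0 h).mono fun s hs h1 => ?_
  simpa using h1

/-- `s ^ p ≤ c` for `0 < p`, `0 < c` -/
theorem small_rpow_le (c p : ℝ) (hc : 0 < c) (h : 0 < p) : Small fun s => s ^ p ≤ c := by
  refine (small_pow' 1 c p 0 hc h).mono fun s hs h1 => ?_
  simpa using h1

/-- `C s ^ (-q) exp (-(c s ^ (-p))) ≤ exp (-s ^ (-r))` for `r < p` -/
theorem small_exp (C c p q r : ℝ) (hc : 0 < c) (hp : 0 < p) (hr : r < p) :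
    Small fun s => C * s ^ (-q) * Real.exp (-(c * s ^ (-p))) ≤ Real.exp (-(s ^ (-r))) := by
  have h1 := small_const (3 * Real.log (max C 1) / c) p hp
  have h2 := small_log (3 * |q| / c) p 1 hp
  have h3 := small_pow' 3 c (-r) (-p) hc (by linarith)
  refine (((h1.and h2).and h3).and (small_le 1 one_pos)).mono fun s hs h4 => ?_
  obtain ⟨⟨⟨h1, h2⟩, h3⟩, h5⟩ := h4
  have hm : 0 < max C 1 := lt_max_of_lt_right one_pos
  have hs0 : 0 < s ^ (-q) := Real.rpow_pos_of_pos hs _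
  have h6 : C * s ^ (-q) * Real.exp (-(c * s ^ (-p))) ≤
      max C 1 * s ^ (-q) * Real.exp (-(c * s ^ (-p))) :=
    mul_le_mul_of_nonneg_right (mul_le_mul_of_nonneg_right (le_max_left _ _) hs0.le)
      (Real.exp_pos _).le
  refine h6.trans ?_
  have h7 : max C 1 * s ^ (-q) = Real.exp (Real.log (max C 1) + Real.log s * (-q)) := by
    rw [Real.exp_add, Real.exp_log hm, Real.exp_mul, Real.exp_log hs]
  rw [h7, ← Real.exp_add, Real.exp_le_exp]
  have h8 : 3 * Real.log (max C 1) ≤ c * s ^ (-p) := by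
    rw [div_le_iff₀ hc] at h1
    linarith only [h1]
  have h9 : 3 * (|q| * |Real.log s|) ≤ c * s ^ (-p) := by
    rw [pow_one, div_mul_eq_mul_div, div_le_iff₀ hc] at h2
    linarith only [h2]
  have h10 : Real.log s * (-q) ≤ |q| * |Real.log s| := by
    rw [← abs_mul]
    have := le_abs_self (-(q * Real.log s))
    rw [abs_neg] at this
    linarith only [this]
  linarith only [h3, h8, h9, h10]

/-- `C s ^ (-q) exp (-(c s ^ (-p))) ≤ s ^ r` -/
theorem small_exp_pow (C c p q r : ℝ) (hc : 0 < c) (hp : 0 < p) :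
    Small fun s => C * s ^ (-q) * Real.exp (-(c * s ^ (-p))) ≤ s ^ r := by
  have h1 := small_exp C c p (q + r) (p / 2) hc hp (by linarith only [hp])
  refine (h1.and (small_le 1 one_pos)).mono fun s hs h4 => ?_
  obtain ⟨h1, h5⟩ := h4
  have h6 : s ^ (-(q + r)) = s ^ (-q) * s ^ (-r) := by
    rw [← Real.rpow_add hs]
    congr 1
    ring
  have h7 : Real.exp (-(s ^ (-(p / 2)))) ≤ 1 := by
    rw [Real.exp_le_one_iff]
    have : 0 < s ^ (-(p / 2)) := Real.rpow_pos_of_pos hs _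
    linarith only [this]
  have h8 : C * (s ^ (-q) * s ^ (-r)) * Real.exp (-(c * s ^ (-p))) ≤ 1 := by
    rw [h6] at h1
    exact h1.trans h7
  have h9 : 0 < s ^ r := Real.rpow_pos_of_pos hs _
  have h10 : s ^ (-r) * s ^ r = 1 := by
    rw [← Real.rpow_add hs]
    simp
  have h11 := mul_le_mul_of_nonneg_right h8 h9.le
  calc C * s ^ (-q) * Real.exp (-(c * s ^ (-p)))
      = C * (s ^ (-q) * s ^ (-r)) * Real.exp (-(c * s ^ (-p))) * s ^ r := by
        rw [show C * (s ^ (-q) * s ^ (-r)) * Real.exp (-(c * s ^ (-p))) * s ^ r =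
          C * s ^ (-q) * Real.exp (-(c * s ^ (-p))) * (s ^ (-r) * s ^ r) by ring, h10, mul_one]
    _ ≤ 1 * s ^ r := h11
    _ = _ := one_mul _

/-- natural powers of the distance: `C L ^ k exp (-c s L) ≤ s ^ r` if `L ≥ s ^ (-p)`, `p > 1` -/
theorem small_exp_dist (C c p r : ℝ) (k : ℕ) (hC : 0 ≤ C) (hc : 0 < c) (hp : 1 < p) :
    Small fun s => ∀ L : ℝ, s ^ (-p) ≤ L → C * L ^ k * Real.exp (-(c * s * L)) ≤ s ^ r := by
  -- `L ^ k exp (- c s L / 2) ≤ k! (2 / (c s)) ^ k`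
  have h1 := small_exp_pow (C * (k.factorial * (2 / c) ^ k)) (c / 2) (p - 1) k r (by positivity)
    (by linarith)
  refine h1.mono fun s hs h2 L hL => ?_
  have hLp : 0 < s ^ (-p) := Real.rpow_pos_of_pos hs _
  have hL0 : 0 < L := lt_of_lt_of_le hLp hL
  have h3 : L ^ k ≤ k.factorial * (2 / (c * s)) ^ k * Real.exp (c * s * L / 2) := by
    have h4 := Real.pow_div_factorial_le_exp (c * s * L / 2) (by positivity) k
    rw [div_le_iff₀ (by positivity)] at h4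
    have h5 : L ^ k = (c * s * L / 2) ^ k * (2 / (c * s)) ^ k := by
      rw [← mul_pow]
      congr 1
      field_simp
    rw [h5]
    have h6 : (0 : ℝ) < (2 / (c * s)) ^ k := by positivity
    calc (c * s * L / 2) ^ k * (2 / (c * s)) ^ k
        ≤ (Real.exp (c * s * L / 2) * k.factorial) * (2 / (c * s)) ^ k :=
          mul_le_mul_of_nonneg_right h4 h6.le
      _ = _ := by ring
  have h7 : Real.exp (-(c * s * L)) = Real.exp (-(c * s * L / 2)) * Real.exp (-(c * s * L / 2)) := by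
    rw [← Real.exp_add]
    congr 1
    ring
  have h8 : Real.exp (c * s * L / 2) * Real.exp (-(c * s * L / 2)) = 1 := by
    rw [← Real.exp_add]
    simp
  have h9 : Real.exp (-(c * s * L / 2)) ≤ Real.exp (-(c / 2 * s ^ (-(p - 1)))) := by
    rw [Real.exp_le_exp, neg_le_neg_iff]
    have h10 : s ^ (-(p - 1)) = s * s ^ (-p) := by
      nth_rewrite 2 [← Real.rpow_one s]
      rw [← Real.rpow_add hs]
      congr 1
      ring
    rw [h10]
    have h11 := mul_le_mul_of_nonneg_left hL (show 0 ≤ c / 2 * s by positivity)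
    calc c / 2 * (s * s ^ (-p)) = c / 2 * s * s ^ (-p) := by ring
      _ ≤ c / 2 * s * L := h11
      _ = _ := by ring
  have h12 : (2 / (c * s)) ^ k = (2 / c) ^ k * s ^ (-(k : ℝ)) := by
    rw [Real.rpow_neg hs.le, Real.rpow_natCast, ← inv_pow, ← mul_pow]
    congr 1
    field_simp
  calc C * L ^ k * Real.exp (-(c * s * L))
      ≤ C * (k.factorial * (2 / (c * s)) ^ k * Real.exp (c * s * L / 2)) *
          Real.exp (-(c * s * L)) :=
        mul_le_mul_of_nonneg_right (mul_le_mul_of_nonneg_left h3 hC) (Real.exp_pos _).le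
    _ = C * (k.factorial * (2 / c) ^ k) * s ^ (-(k : ℝ)) * Real.exp (-(c * s * L / 2)) *
          (Real.exp (c * s * L / 2) * Real.exp (-(c * s * L / 2))) := by
        rw [h7, h12]
        ring
    _ = C * (k.factorial * (2 / c) ^ k) * s ^ (-(k : ℝ)) * Real.exp (-(c * s * L / 2)) := by
        rw [h8, mul_one]
    _ ≤ C * (k.factorial * (2 / c) ^ k) * s ^ (-(k : ℝ)) * Real.exp (-(c / 2 * s ^ (-(p - 1)))) :=
        mul_le_mul_of_nonneg_left h9 (by
          have : 0 < s ^ (-(k : ℝ)) := Real.rpow_pos_of_pos hs _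
          positivity)
    _ ≤ s ^ r := h2

/-- sums of powers of the clocks of the stages: `∑ (w θ ^ j) ^ p ≤ w ^ p / (1 - θ ^ p)` -/
theorem sum_clocks (w θ p : ℝ) (hw : 0 < w) (hθ : 0 < θ) (hθ1 : θ < 1) (hp : 0 < p) (n : ℕ) :
    ∑ j ∈ Finset.range n, (w * θ ^ j) ^ p ≤ w ^ p / (1 - θ ^ p) := by
  have h1 : θ ^ p < 1 := Real.rpow_lt_one hθ.le hθ1 hp
  have h2 : 0 < θ ^ p := Real.rpow_pos_of_pos hθ _
  have h3 : ∀ j : ℕ, (w * θ ^ j) ^ p = w ^ p * (θ ^ p) ^ j := by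
    intro j
    rw [Real.mul_rpow hw.le (by positivity)]
    congr 1
    rw [← Real.rpow_natCast, ← Real.rpow_natCast, ← Real.rpow_mul hθ.le, ← Real.rpow_mul hθ.le,
      mul_comm]
  rw [Finset.sum_congr rfl fun j _ => h3 j, ← Finset.mul_sum, div_eq_mul_inv]
  refine mul_le_mul_of_nonneg_left ?_ (Real.rpow_nonneg hw.le _)
  have h4 : (0 : ℝ) < 1 - θ ^ p := by linarith
  rw [geom_sum_eq h1.ne, div_le_iff_of_neg (by linarith)]
  have h5 : (1 - θ ^ p)⁻¹ * (θ ^ p - 1) = -1 := by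
    have : θ ^ p - 1 = -(1 - θ ^ p) := by ring
    rw [this, mul_neg, inv_mul_cancel₀ h4.ne']
  rw [h5]
  have : 0 ≤ (θ ^ p) ^ n := by positivity
  linarith only [this]

end Pool.Agent.AND.Num
end -- Pool.Agent.Helper61_AND.Num

section -- Pool.Agent.Helper41_IR.Defs

/-!
# Ioffe-Regel squad (IR): definitions

A torus `(ℤ/M)^d`, the averaging operator `QM` over cubes of side `l`, the operator
`AP = E - V - Δ + (2/(d l²)) QMᵀ QM`, its inverse `GP`, and the effective operator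
`BB = (2/(d l²)) QM GP QMᵀ`. Finite Fourier analysis with real functions.
-/

set_option autoImplicit false

open MeasureTheory ProbabilityTheory

open scoped ENNReal NNReal BigOperators

noncomputable section

namespace Pool.Agent.IR

open Matrix Pool.Agent.Anderson Pool.Agent.Loc Pool.Agent.BED

variable {d M : ℕ}

/-- the square of the `ℓ²` norm -/
def sqn {n : Type} [Fintype n] (u : n → ℝ) : ℝ := ∑ x, u x ^ 2

/-- the inner product -/
def ip {n : Type} [Fintype n] (u v : n → ℝ) : ℝ := ∑ x, u x * v x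

/-- the `ℓ¹` norm on the torus -/
def nd (x : Tor d M) : ℕ := ∑ i, (x i).valMinAbs.natAbs

/-- averaging over cubes of side `l`: `(QM f)(x) = l^(-d) ∑_k f(x + k)` -/
def QM (d M l : ℕ) [NeZero M] : Matrix (Tor d M) (Tor d M) ℝ :=
  Matrix.of fun x y =>
    (∑ k : Fin d → Fin l, if y = x + (H32.vec k : Tor d M) then (1 : ℝ) else 0) / (l : ℝ) ^ d

/-- the strength `2 / (d l²)` of the penalty -/
def sL (d l : ℕ) : ℝ := 2 / ((d : ℝ) * (l : ℝ) ^ 2)

/-- `E - V - Δ + (2/(d l²)) QMᵀ QM` -/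
def AP [NeZero M] (l : ℕ) (E : ℝ) (V : Tor d M → ℝ) : Matrix (Tor d M) (Tor d M) ℝ :=
  AM E V + sL d l • ((QM d M l)ᵀ * QM d M l)

/-- the inverse of `AP` -/
def GP [NeZero M] (l : ℕ) (E : ℝ) (V : Tor d M → ℝ) : Matrix (Tor d M) (Tor d M) ℝ := (AP l E V)⁻¹

/-- the effective operator: `(1 - BB) (QM v) = QM GP r` if `(E - V - Δ) v = r` -/
def BB [NeZero M] (l : ℕ) (E : ℝ) (V : Tor d M → ℝ) : Matrix (Tor d M) (Tor d M) ℝ :=
  sL d l • (QM d M l * GP l E V * (QM d M l)ᵀ)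

/-- the landscape function is within `δ μ` of `μ` -/
def FlatD [NeZero M] (δ z μ : ℝ) (V : Tor d M → ℝ) : Prop :=
  (∀ x, -1 ≤ V x) ∧ (AM z V).PosDef ∧ ∀ x, |DD z V x - μ| ≤ δ * μ

/-- the standing assumptions on the parameters: the energy `E` is below the energy `z` at which
the landscape function is flat, by at most `7/(10 d l²)` -/
structure Par (d M l : ℕ) (z μ E : ℝ) : Prop where
  hd : 1 ≤ d
  hM : 3 ≤ M
  hl : 1 ≤ l
  hlM : l < M
  hμ : 0 < μ
  hz : z ≤ 2 * d + 1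
  hE : 0 ≤ z - E
  hE2 : (z - E) * (l : ℝ) ^ 2 ≤ 7 / (10 * d)

/-- the phase `2π θ·x / M` (for the representatives in `(-M/2, M/2]`) -/
def ph (θ x : Tor d M) : ℝ :=
  2 * Real.pi * (∑ i, ((θ i).valMinAbs : ℝ) * ((x i).valMinAbs : ℝ)) / M

/-- the squared absolute value of the (unitary) Fourier transform of `w` -/
def ft [NeZero M] (w : Tor d M → ℝ) (θ : Tor d M) : ℝ :=
  ((∑ x, w x * Real.cos (ph θ x)) ^ 2 + (∑ x, w x * Real.sin (ph θ x)) ^ 2) / (M : ℝ) ^ d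

/-- the symbol of the convolution with the even function `b` -/
def bh [NeZero M] (b : Tor d M → ℝ) (θ : Tor d M) : ℝ := ∑ y, b y * Real.cos (ph θ y)

/-- the symbol of `2d - Δ` -/
def om (θ : Tor d M) : ℝ := ∑ i, 2 * (1 - Real.cos (2 * Real.pi * ((θ i).valMinAbs : ℝ) / M))

/-- the convolution matrix -/
def cvM (b : Tor d M → ℝ) : Matrix (Tor d M) (Tor d M) ℝ := Matrix.of fun x y => b (y - x)

/-- the Fourier multiplier -/
def mulM [NeZero M] (u : Tor d M → ℝ) : Matrix (Tor d M) (Tor d M) ℝ :=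
  Matrix.of fun x y => (∑ θ, u θ * Real.cos (ph θ (x - y))) / (M : ℝ) ^ d

/-- the regularised inverse `((1 - β(θ))² + ε²)^(-1/2)`, `β` the symbol of `b` -/
def kk [NeZero M] (b : Tor d M → ℝ) (ε : ℝ) (θ : Tor d M) : ℝ :=
  1 / Real.sqrt ((1 - bh b θ) ^ 2 + ε ^ 2)

/-- the quadratic form `∑ ((1 - β(θ))² + ε²)^(1/2) |ŵ(θ)|²` -/
def NK [NeZero M] (b : Tor d M → ℝ) (ε : ℝ) (w : Tor d M → ℝ) : ℝ :=
  ∑ θ, Real.sqrt ((1 - bh b θ) ^ 2 + ε ^ 2) * ft w θ

/-- the set of potentials with flat landscape function -/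
def Gd (d M : ℕ) [NeZero M] (δ z μ : ℝ) : Set (Tor d M → ℝ) := {V | FlatD δ z μ V}

/-- the mean of the effective operator, as a function of `y - x` -/
def bbar [NeZero M] (v : ℝ≥0) (δ z μ : ℝ) (l : ℕ) (E : ℝ) (y : Tor d M) : ℝ :=
  (∫ V in Gd d M δ z μ, BB l E V 0 y ∂(gau d M v)) / (gau d M v (Gd d M δ z μ)).toReal

/-- The properties of the mean effective operator `b`: symmetry, exponential decay at scale `l`,
the upper bound by the symbol of `1/(1 - c l² Δ)`, and `β(0) ≥ 1 + τ`. -/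
structure Sym (d M : ℕ) [NeZero M] (l : ℕ) (C γ τ : ℝ) (b : Tor d M → ℝ) : Prop where
  even : ∀ y, b (-y) = b y
  decay : ∀ y, (l : ℝ) ^ d * |b y| ≤ C * Real.exp (-((nd y : ℝ) / (3 * d * l)))
  coer : ∀ θ, bh b θ ≤ (1 + γ) * (2 / (2 + 2 / 5 * d * (l : ℝ) ^ 2 * om θ))
  zero : 1 + τ ≤ bh b 0

/-- the rotated pair: `cos a · V + sin a · V'` -/
def rotV {n : Type} (a : ℝ) (V V' : n → ℝ) : n → ℝ := fun x => Real.cos a * V x + Real.sin a * V' x

/-- the derivative of `rotV`: `- sin a · V + cos a · V'` -/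
def rotD {n : Type} (a : ℝ) (V V' : n → ℝ) : n → ℝ :=
  fun x => -Real.sin a * V x + Real.cos a * V' x

end Pool.Agent.IR
end
end -- Pool.Agent.Helper41_IR.Defs

section -- Pool.Agent.Helper41_IR.Base

/-!
# IR: basic facts about the definitions
-/

set_option autoImplicit false

open MeasureTheory ProbabilityTheory

open scoped ENNReal NNReal BigOperators

noncomputable section

namespace Pool.Agent.IR

open Matrix Pool.Agent.Anderson Pool.Agent.Loc Pool.Agent.BED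

/-! ### norms and inner products -/

section norms

variable {n : Type} [Fintype n]

theorem sqn_nonneg (u : n → ℝ) : 0 ≤ sqn u := Finset.sum_nonneg fun _ _ => sq_nonneg _

theorem sqn_eq_zero {u : n → ℝ} (h : sqn u = 0) : u = 0 := by
  funext x
  have := (Finset.sum_eq_zero_iff_of_nonneg (fun x _ => sq_nonneg (u x))).1 h x (Finset.mem_univ x)
  simpa using this

theorem sqn_pos {u : n → ℝ} (h : u ≠ 0) : 0 < sqn u :=
  lt_of_le_of_ne (sqn_nonneg u) fun h0 => h (sqn_eq_zero h0.symm)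

theorem sqn_smul (c : ℝ) (u : n → ℝ) : sqn (c • u) = c ^ 2 * sqn u := by
  unfold sqn
  rw [Finset.mul_sum]
  exact Finset.sum_congr rfl fun x _ => by simp [mul_pow]

theorem sqn_neg (u : n → ℝ) : sqn (-u) = sqn u := by
  unfold sqn; simp

theorem ip_self (u : n → ℝ) : ip u u = sqn u := Finset.sum_congr rfl fun x _ => by ring

theorem ip_comm (u v : n → ℝ) : ip u v = ip v u := Finset.sum_congr rfl fun x _ => by ring

theorem ip_add_left (u v w : n → ℝ) : ip (u + v) w = ip u w + ip v w := by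
  unfold ip; simp [add_mul, Finset.sum_add_distrib]

theorem ip_add_right (u v w : n → ℝ) : ip u (v + w) = ip u v + ip u w := by
  unfold ip; simp [mul_add, Finset.sum_add_distrib]

theorem ip_sub_left (u v w : n → ℝ) : ip (u - v) w = ip u w - ip v w := by
  unfold ip; simp [sub_mul, Finset.sum_sub_distrib]

theorem ip_sub_right (u v w : n → ℝ) : ip u (v - w) = ip u v - ip u w := by
  unfold ip; simp [mul_sub, Finset.sum_sub_distrib]

theorem ip_smul_left (c : ℝ) (u v : n → ℝ) : ip (c • u) v = c * ip u v := by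
  unfold ip; rw [Finset.mul_sum]; exact Finset.sum_congr rfl fun x _ => by simp [mul_assoc]

theorem ip_smul_right (c : ℝ) (u v : n → ℝ) : ip u (c • v) = c * ip u v := by
  rw [ip_comm, ip_smul_left, ip_comm]

theorem ip_neg_left (u v : n → ℝ) : ip (-u) v = -ip u v := by unfold ip; simp

theorem ip_neg_right (u v : n → ℝ) : ip u (-v) = -ip u v := by unfold ip; simp

theorem ip_sq_le (u v : n → ℝ) : ip u v ^ 2 ≤ sqn u * sqn v := Finset.sum_mul_sq_le_sq_mul_sq _ _ _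

theorem abs_ip_le (u v : n → ℝ) : |ip u v| ≤ Real.sqrt (sqn u) * Real.sqrt (sqn v) := by
  rw [← Real.sqrt_mul (sqn_nonneg u), ← Real.sqrt_sq_eq_abs]
  exact Real.sqrt_le_sqrt (ip_sq_le u v)

theorem sqn_add (u v : n → ℝ) : sqn (u + v) = sqn u + 2 * ip u v + sqn v := by
  unfold sqn ip
  rw [Finset.mul_sum, ← Finset.sum_add_distrib, ← Finset.sum_add_distrib]
  exact Finset.sum_congr rfl fun x _ => by simp; ring

theorem sqn_sub (u v : n → ℝ) : sqn (u - v) = sqn u - 2 * ip u v + sqn v := by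
  unfold sqn ip
  rw [Finset.mul_sum, ← Finset.sum_sub_distrib, ← Finset.sum_add_distrib]
  exact Finset.sum_congr rfl fun x _ => by simp; ring

theorem sqn_add_le (u v : n → ℝ) : sqn (u + v) ≤ 2 * sqn u + 2 * sqn v := by
  have h1 := sqn_add u v
  have h2 := sqn_sub u v
  have h3 := sqn_nonneg (u - v)
  linarith

/-- the weighted triangle inequality -/
theorem sqn_add_le' (u v : n → ℝ) {η : ℝ} (hη : 0 < η) :
    sqn (u + v) ≤ (1 + η) * sqn u + (1 + 1 / η) * sqn v := by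
  have h := sqn_nonneg (η • u - v)
  rw [sqn_sub, sqn_smul, ip_smul_left] at h
  have h1 : 2 * ip u v ≤ η * sqn u + 1 / η * sqn v := by
    have h2 : 0 ≤ (1 / η) * (η ^ 2 * sqn u - 2 * (η * ip u v) + sqn v) :=
      mul_nonneg (by positivity) h
    have h3 : (1 / η) * (η ^ 2 * sqn u - 2 * (η * ip u v) + sqn v) =
        η * sqn u - 2 * ip u v + 1 / η * sqn v := by
      field_simp
    linarith
  rw [sqn_add]
  linarith

theorem sqrt_sqn_add_le (u v : n → ℝ) :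
    Real.sqrt (sqn (u + v)) ≤ Real.sqrt (sqn u) + Real.sqrt (sqn v) := by
  have h1 := abs_ip_le u v
  have h2 := le_abs_self (ip u v)
  have h0 : 0 ≤ Real.sqrt (sqn u) + Real.sqrt (sqn v) := by positivity
  rw [show Real.sqrt (sqn u) + Real.sqrt (sqn v) =
    Real.sqrt ((Real.sqrt (sqn u) + Real.sqrt (sqn v)) ^ 2) from (Real.sqrt_sq h0).symm]
  refine Real.sqrt_le_sqrt ?_
  rw [sqn_add, add_sq, Real.sq_sqrt (sqn_nonneg u), Real.sq_sqrt (sqn_nonneg v)]
  linarith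

theorem ip_mulVec (A : Matrix n n ℝ) (u v : n → ℝ) : ip u (A *ᵥ v) = ip (Aᵀ *ᵥ u) v := by
  unfold ip
  simp only [Matrix.mulVec, dotProduct, Matrix.transpose_apply, Finset.mul_sum, Finset.sum_mul]
  rw [Finset.sum_comm]
  exact Finset.sum_congr rfl fun x _ => Finset.sum_congr rfl fun y _ => by ring

theorem ip_mulVec_transpose (A : Matrix n n ℝ) (u v : n → ℝ) :
    ip u (Aᵀ *ᵥ v) = ip (A *ᵥ u) v := by
  rw [ip_mulVec, Matrix.transpose_transpose]

theorem sqn_mulVec_eq (A : Matrix n n ℝ) (u : n → ℝ) : sqn (A *ᵥ u) = ip u ((Aᵀ * A) *ᵥ u) := by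
  rw [← ip_self, ← Matrix.mulVec_mulVec, ip_mulVec_transpose]

theorem ip_single [DecidableEq n] (x : n) (v : n → ℝ) : ip (Pi.single x 1) v = v x := by
  unfold ip
  rw [Finset.sum_eq_single x]
  · simp
  · intro y _ hy; simp [hy]
  · simp

theorem mulVec_single_one [DecidableEq n] (A : Matrix n n ℝ) (y x : n) :
    (A *ᵥ (Pi.single y 1)) x = A x y := by
  simp

/-- convexity: the square of an average -/
theorem sq_avg_le {ι : Type} [Fintype ι] (f : ι → ℝ) {N : ℝ} (hN : 0 < N)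
    (hc : (Fintype.card ι : ℝ) = N) : ((∑ i, f i) / N) ^ 2 ≤ (∑ i, f i ^ 2) / N := by
  have h := Finset.sum_mul_sq_le_sq_mul_sq (Finset.univ : Finset ι) (fun _ => (1 : ℝ)) f
  simp only [one_mul, one_pow, Finset.sum_const, Finset.card_univ, nsmul_eq_mul, mul_one] at h
  rw [hc] at h
  rw [div_pow, div_le_div_iff₀ (by positivity) hN]
  nlinarith [h]

end norms

/-! ### the averaging operator -/

section QMfacts

variable {d M : ℕ} [NeZero M]

theorem card_cube (d l : ℕ) : (Fintype.card (Fin d → Fin l) : ℝ) = (l : ℝ) ^ d := by simp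

theorem QM_mulVec (l : ℕ) (f : Tor d M → ℝ) (x : Tor d M) :
    (QM d M l *ᵥ f) x = (∑ k : Fin d → Fin l, f (x + H32.vec k)) / (l : ℝ) ^ d := by
  unfold QM
  simp only [Matrix.mulVec, dotProduct, Matrix.of_apply, div_mul_eq_mul_div, ← Finset.sum_div,
    Finset.sum_mul]
  congr 1
  rw [Finset.sum_comm]
  refine Finset.sum_congr rfl fun k _ => ?_
  simp

theorem QMt_mulVec (l : ℕ) (f : Tor d M → ℝ) (x : Tor d M) :
    ((QM d M l)ᵀ *ᵥ f) x = (∑ k : Fin d → Fin l, f (x - H32.vec k)) / (l : ℝ) ^ d := by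
  unfold QM
  simp only [Matrix.mulVec, dotProduct, Matrix.transpose_apply, Matrix.of_apply,
    div_mul_eq_mul_div, ← Finset.sum_div, Finset.sum_mul]
  congr 1
  rw [Finset.sum_comm]
  refine Finset.sum_congr rfl fun k _ => ?_
  rw [Finset.sum_eq_single (x - H32.vec k)]
  · simp
  · intro y _ hy
    rw [if_neg, zero_mul]
    rintro rfl
    exact hy (by abel)
  · simp

theorem QM_nonneg (l : ℕ) (x y : Tor d M) : 0 ≤ QM d M l x y := by
  unfold QM
  rw [Matrix.of_apply]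
  refine div_nonneg (Finset.sum_nonneg fun k _ => ?_) (by positivity)
  split_ifs <;> norm_num

theorem QM_one {l : ℕ} (hl : 1 ≤ l) : QM d M l *ᵥ (1 : Tor d M → ℝ) = 1 := by
  funext x
  rw [QM_mulVec]
  have : (0 : ℝ) < (l : ℝ) ^ d := by positivity
  simp [this.ne']

theorem QMt_one {l : ℕ} (hl : 1 ≤ l) : (QM d M l)ᵀ *ᵥ (1 : Tor d M → ℝ) = 1 := by
  funext x
  rw [QMt_mulVec]
  have : (0 : ℝ) < (l : ℝ) ^ d := by positivity
  simp [this.ne']

theorem sqn_QM_le {l : ℕ} (hl : 1 ≤ l) (f : Tor d M → ℝ) : sqn (QM d M l *ᵥ f) ≤ sqn f := by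
  have hl0 : (0 : ℝ) < (l : ℝ) ^ d := by positivity
  have h1 : ∀ x, (QM d M l *ᵥ f) x ^ 2 ≤ (∑ k : Fin d → Fin l, f (x + H32.vec k) ^ 2) / (l : ℝ) ^ d :=
    fun x => by
      rw [QM_mulVec]
      exact sq_avg_le _ hl0 (card_cube d l)
  calc sqn (QM d M l *ᵥ f) ≤ ∑ x, (∑ k : Fin d → Fin l, f (x + H32.vec k) ^ 2) / (l : ℝ) ^ d :=
        Finset.sum_le_sum fun x _ => h1 x
    _ = (∑ k : Fin d → Fin l, ∑ x, f (x + H32.vec k) ^ 2) / (l : ℝ) ^ d := by
        rw [← Finset.sum_div, Finset.sum_comm]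
    _ = (∑ _k : Fin d → Fin l, sqn f) / (l : ℝ) ^ d := by
        congr 1
        refine Finset.sum_congr rfl fun k _ => ?_
        exact Equiv.sum_comp (Equiv.addRight (H32.vec k)) (fun x => f x ^ 2)
    _ = sqn f := by
        rw [Finset.sum_const, Finset.card_univ, nsmul_eq_mul, card_cube]
        field_simp

theorem sqn_QMt_le {l : ℕ} (hl : 1 ≤ l) (f : Tor d M → ℝ) : sqn ((QM d M l)ᵀ *ᵥ f) ≤ sqn f := by
  have hl0 : (0 : ℝ) < (l : ℝ) ^ d := by positivity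
  have h1 : ∀ x, ((QM d M l)ᵀ *ᵥ f) x ^ 2 ≤
      (∑ k : Fin d → Fin l, f (x - H32.vec k) ^ 2) / (l : ℝ) ^ d :=
    fun x => by
      rw [QMt_mulVec]
      exact sq_avg_le _ hl0 (card_cube d l)
  calc sqn ((QM d M l)ᵀ *ᵥ f) ≤ ∑ x, (∑ k : Fin d → Fin l, f (x - H32.vec k) ^ 2) / (l : ℝ) ^ d :=
        Finset.sum_le_sum fun x _ => h1 x
    _ = (∑ k : Fin d → Fin l, ∑ x, f (x - H32.vec k) ^ 2) / (l : ℝ) ^ d := by
        rw [← Finset.sum_div, Finset.sum_comm]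
    _ = (∑ _k : Fin d → Fin l, sqn f) / (l : ℝ) ^ d := by
        congr 1
        refine Finset.sum_congr rfl fun k _ => ?_
        exact Equiv.sum_comp (Equiv.subRight (H32.vec k)) (fun x => f x ^ 2)
    _ = sqn f := by
        rw [Finset.sum_const, Finset.card_univ, nsmul_eq_mul, card_cube]
        field_simp

theorem QM_sup {l : ℕ} (hl : 1 ≤ l) (hlM : l ≤ M) (f : Tor d M → ℝ) (x : Tor d M) :
    (l : ℝ) ^ d * (QM d M l *ᵥ f) x ^ 2 ≤ sqn f := by
  have hl0 : (0 : ℝ) < (l : ℝ) ^ d := by positivity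
  have h1 : (QM d M l *ᵥ f) x ^ 2 ≤ (∑ k : Fin d → Fin l, f (x + H32.vec k) ^ 2) / (l : ℝ) ^ d := by
    rw [QM_mulVec]
    exact sq_avg_le _ hl0 (card_cube d l)
  have h2 : ∑ k : Fin d → Fin l, f (x + H32.vec k) ^ 2 ≤ sqn f := by
    have hinj : Function.Injective (fun k : Fin d → Fin l => x + (H32.vec k : Tor d M)) :=
      (add_right_injective x).comp (H32.vec_injective hlM)
    have e := Finset.sum_map Finset.univ (⟨_, hinj⟩ : (Fin d → Fin l) ↪ Tor d M)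
      (fun y => f y ^ 2)
    simp only [Function.Embedding.coeFn_mk] at e
    rw [← e]
    exact Finset.sum_le_sum_of_subset_of_nonneg (Finset.subset_univ _) fun y _ _ => sq_nonneg _
  calc (l : ℝ) ^ d * (QM d M l *ᵥ f) x ^ 2 ≤
        (l : ℝ) ^ d * ((∑ k : Fin d → Fin l, f (x + H32.vec k) ^ 2) / (l : ℝ) ^ d) :=
        mul_le_mul_of_nonneg_left h1 hl0.le
    _ = ∑ k : Fin d → Fin l, f (x + H32.vec k) ^ 2 := by field_simp
    _ ≤ sqn f := h2

theorem QMt_sup {l : ℕ} (hl : 1 ≤ l) (hlM : l ≤ M) (f : Tor d M → ℝ) (x : Tor d M) :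
    (l : ℝ) ^ d * ((QM d M l)ᵀ *ᵥ f) x ^ 2 ≤ sqn f := by
  have hl0 : (0 : ℝ) < (l : ℝ) ^ d := by positivity
  have h1 : ((QM d M l)ᵀ *ᵥ f) x ^ 2 ≤
      (∑ k : Fin d → Fin l, f (x - H32.vec k) ^ 2) / (l : ℝ) ^ d := by
    rw [QMt_mulVec]
    exact sq_avg_le _ hl0 (card_cube d l)
  have h2 : ∑ k : Fin d → Fin l, f (x - H32.vec k) ^ 2 ≤ sqn f := by
    have hinj : Function.Injective (fun k : Fin d → Fin l => x - (H32.vec k : Tor d M)) := by
      intro a b hab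
      exact H32.vec_injective hlM (sub_right_injective hab)
    have e := Finset.sum_map Finset.univ (⟨_, hinj⟩ : (Fin d → Fin l) ↪ Tor d M)
      (fun y => f y ^ 2)
    simp only [Function.Embedding.coeFn_mk] at e
    rw [← e]
    exact Finset.sum_le_sum_of_subset_of_nonneg (Finset.subset_univ _) fun y _ _ => sq_nonneg _
  calc (l : ℝ) ^ d * ((QM d M l)ᵀ *ᵥ f) x ^ 2 ≤
        (l : ℝ) ^ d * ((∑ k : Fin d → Fin l, f (x - H32.vec k) ^ 2) / (l : ℝ) ^ d) :=
        mul_le_mul_of_nonneg_left h1 hl0.le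
    _ = ∑ k : Fin d → Fin l, f (x - H32.vec k) ^ 2 := by field_simp
    _ ≤ sqn f := h2

/-- `QM` commutes with translations -/
theorem QM_add (l : ℕ) (a x y : Tor d M) : QM d M l (a + x) (a + y) = QM d M l x y := by
  unfold QM
  rw [Matrix.of_apply, Matrix.of_apply]
  congr 1
  refine Finset.sum_congr rfl fun k _ => ?_
  simp [add_assoc]

theorem QM_shift (l : ℕ) (a : Tor d M) (f : Tor d M → ℝ) (x : Tor d M) :
    (QM d M l *ᵥ fun y => f (y + a)) x = (QM d M l *ᵥ f) (x + a) := by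
  rw [QM_mulVec, QM_mulVec]
  congr 1
  refine Finset.sum_congr rfl fun k _ => ?_
  congr 1
  abel

theorem QM_row_sum {l : ℕ} (hl : 1 ≤ l) (x : Tor d M) : ∑ y, QM d M l x y = 1 := by
  have := congrFun (QM_one (d := d) (M := M) hl) x
  simpa [Matrix.mulVec, dotProduct] using this

theorem QM_col_sum {l : ℕ} (hl : 1 ≤ l) (y : Tor d M) : ∑ x, QM d M l x y = 1 := by
  have := congrFun (QMt_one (d := d) (M := M) hl) y
  simpa [Matrix.mulVec, dotProduct] using this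

end QMfacts

/-! ### the `ℓ¹` norm on the torus -/

section ndfacts

variable {d M : ℕ}

theorem nd_neg [NeZero M] (x : Tor d M) : nd (-x) = nd x := by
  unfold nd
  exact Finset.sum_congr rfl fun i _ => by rw [Pi.neg_apply, ZMod.natAbs_valMinAbs_neg]

theorem nd_add_le [NeZero M] (x y : Tor d M) : nd (x + y) ≤ nd x + nd y := by
  unfold nd
  rw [← Finset.sum_add_distrib]
  refine Finset.sum_le_sum fun i _ => ?_
  rw [Pi.add_apply]
  exact (ZMod.natAbs_valMinAbs_add_le _ _).trans (Int.natAbs_add_le _ _)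

theorem nd_zero : nd (0 : Tor d M) = 0 := by
  unfold nd; simp

theorem nd_sub_comm [NeZero M] (x y : Tor d M) : nd (x - y) = nd (y - x) := by
  rw [← nd_neg (x - y), neg_sub]

theorem natAbs_valMinAbs_natCast_le [NeZero M] (k : ℕ) : ((k : ZMod M).valMinAbs).natAbs ≤ k := by
  have h := ZMod.natAbs_min_of_le_div_two M ((k : ZMod M).valMinAbs) (k : ℤ)
    (by rw [ZMod.coe_valMinAbs]; simp) (ZMod.natAbs_valMinAbs_le _)
  simpa using h

theorem nd_vec_le [NeZero M] {l : ℕ} (k : Fin d → Fin l) : nd (H32.vec k : Tor d M) ≤ d * l := by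
  unfold nd
  calc ∑ i, ((H32.vec k : Tor d M) i).valMinAbs.natAbs ≤ ∑ _i : Fin d, l :=
        Finset.sum_le_sum fun i _ => by
          unfold H32.vec
          exact (natAbs_valMinAbs_natCast_le _).trans (k i).2.le
    _ = d * l := by simp

theorem nd_ev_le [NeZero M] (i : Fin d) : nd (ev i : Tor d M) ≤ 1 := by
  unfold nd
  rw [Finset.sum_eq_single i]
  · unfold ev
    rw [Pi.single_eq_same]
    have := natAbs_valMinAbs_natCast_le (M := M) 1
    simpa using this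
  · intro j _ hj
    unfold ev
    rw [Pi.single_eq_of_ne hj]
    simp
  · simp

theorem QM_support [NeZero M] {l : ℕ} {x y : Tor d M} (h : QM d M l x y ≠ 0) :
    nd (y - x) ≤ d * l := by
  unfold QM at h
  rw [Matrix.of_apply] at h
  have h2 : ∑ k : Fin d → Fin l, (if y = x + (H32.vec k : Tor d M) then (1 : ℝ) else 0) ≠ 0 := by
    intro h0
    rw [h0] at h
    simp at h
  obtain ⟨k, -, hk⟩ := Finset.exists_ne_zero_of_sum_ne_zero h2
  have hk' : y = x + (H32.vec k : Tor d M) := by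
    by_contra hc
    rw [if_neg hc] at hk
    exact hk rfl
  rw [hk', add_sub_cancel_left]
  exact nd_vec_le k

/-- the support of `QMᵀ QM`: two points of a cube -/
theorem QQ_support [NeZero M] {l : ℕ} {x y : Tor d M}
    (h : ((QM d M l)ᵀ * QM d M l) x y ≠ 0) : nd (x - y) ≤ d * l := by
  rw [Matrix.mul_apply] at h
  obtain ⟨z, -, hz⟩ := Finset.exists_ne_zero_of_sum_ne_zero h
  rw [Matrix.transpose_apply] at hz
  have h1 : QM d M l z x ≠ 0 := left_ne_zero_of_mul hz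
  have h2 : QM d M l z y ≠ 0 := right_ne_zero_of_mul hz
  unfold QM at h1 h2
  rw [Matrix.of_apply] at h1 h2
  have h1' : ∑ k : Fin d → Fin l, (if x = z + (H32.vec k : Tor d M) then (1 : ℝ) else 0) ≠ 0 := by
    intro h0; rw [h0] at h1; simp at h1
  have h2' : ∑ k : Fin d → Fin l, (if y = z + (H32.vec k : Tor d M) then (1 : ℝ) else 0) ≠ 0 := by
    intro h0; rw [h0] at h2; simp at h2
  obtain ⟨k, -, hk⟩ := Finset.exists_ne_zero_of_sum_ne_zero h1'
  obtain ⟨k', -, hk'⟩ := Finset.exists_ne_zero_of_sum_ne_zero h2'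
  have e1 : x = z + (H32.vec k : Tor d M) := by
    by_contra hc; rw [if_neg hc] at hk; exact hk rfl
  have e2 : y = z + (H32.vec k' : Tor d M) := by
    by_contra hc; rw [if_neg hc] at hk'; exact hk' rfl
  rw [e1, e2, add_sub_add_left_eq_sub]
  unfold nd
  calc ∑ i, (((H32.vec k : Tor d M) - (H32.vec k' : Tor d M)) i).valMinAbs.natAbs ≤
        ∑ _i : Fin d, l := by
        refine Finset.sum_le_sum fun i _ => ?_
        rw [Pi.sub_apply]
        unfold H32.vec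
        rcases le_total (k' i : ℕ) (k i : ℕ) with h | h
        · rw [← Nat.cast_sub h]
          exact (natAbs_valMinAbs_natCast_le _).trans ((Nat.sub_le _ _).trans (k i).2.le)
        · rw [← neg_sub, ZMod.natAbs_valMinAbs_neg, ← Nat.cast_sub h]
          exact (natAbs_valMinAbs_natCast_le _).trans ((Nat.sub_le _ _).trans (k' i).2.le)
    _ = d * l := by simp

end ndfacts

end Pool.Agent.IR
end
end -- Pool.Agent.Helper41_IR.Base

section -- Pool.Agent.Helper41_IR.Phase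

/-!
# IR: the phases, and simple consequences of flatness
-/

set_option autoImplicit false

open MeasureTheory ProbabilityTheory

open scoped ENNReal NNReal BigOperators

noncomputable section

namespace Pool.Agent.IR

open Matrix Pool.Agent.Anderson Pool.Agent.Loc Pool.Agent.BED

variable {d M : ℕ}

/-- the phase for arbitrary integer representatives -/
def phI (M : ℕ) (a b : Fin d → ℤ) : ℝ := 2 * Real.pi * (∑ i, (a i : ℝ) * (b i : ℝ)) / M

theorem ph_eq_phI (θ x : Tor d M) :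
    ph θ x = phI M (fun i => (θ i).valMinAbs) (fun i => (x i).valMinAbs) := rfl

/-- the phases for different representatives differ by a multiple of `2π` -/
theorem exists_phI [NeZero M] {a a' b b' : Fin d → ℤ} (ha : ∀ i, (a i : ZMod M) = (a' i : ZMod M))
    (hb : ∀ i, (b i : ZMod M) = (b' i : ZMod M)) :
    ∃ k : ℤ, phI M a b = phI M a' b' + k * (2 * Real.pi) := by
  have h : ((∑ i, a i * b i : ℤ) : ZMod M) = ((∑ i, a' i * b' i : ℤ) : ZMod M) := by
    push_cast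
    exact Finset.sum_congr rfl fun i _ => by rw [ha, hb]
  obtain ⟨k, hk⟩ := (ZMod.intCast_eq_intCast_iff_dvd_sub _ _ _).1 h.symm
  refine ⟨k, ?_⟩
  have hM : (M : ℝ) ≠ 0 := by exact_mod_cast NeZero.ne M
  have hk' : (∑ i, (a i : ℝ) * (b i : ℝ)) = (∑ i, (a' i : ℝ) * (b' i : ℝ)) + M * k := by
    have : (∑ i, a i * b i : ℤ) = (∑ i, a' i * b' i) + M * k := by linarith
    have h2 : ((∑ i, a i * b i : ℤ) : ℝ) = ((∑ i, a' i * b' i + M * k : ℤ) : ℝ) := by rw [this]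
    push_cast at h2
    exact h2
  unfold phI
  rw [hk']
  field_simp

theorem cos_phI_congr [NeZero M] {a a' b b' : Fin d → ℤ}
    (ha : ∀ i, (a i : ZMod M) = (a' i : ZMod M)) (hb : ∀ i, (b i : ZMod M) = (b' i : ZMod M)) :
    Real.cos (phI M a b) = Real.cos (phI M a' b') := by
  obtain ⟨k, hk⟩ := exists_phI ha hb
  rw [hk, Real.cos_add_int_mul_two_pi]

theorem sin_phI_congr [NeZero M] {a a' b b' : Fin d → ℤ}
    (ha : ∀ i, (a i : ZMod M) = (a' i : ZMod M)) (hb : ∀ i, (b i : ZMod M) = (b' i : ZMod M)) :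
    Real.sin (phI M a b) = Real.sin (phI M a' b') := by
  obtain ⟨k, hk⟩ := exists_phI ha hb
  rw [hk, Real.sin_add_int_mul_two_pi]

/-- `cos (ph θ x)` for arbitrary integer representatives -/
theorem cos_ph_of [NeZero M] {θ x : Tor d M} {a b : Fin d → ℤ} (ha : ∀ i, (a i : ZMod M) = θ i)
    (hb : ∀ i, (b i : ZMod M) = x i) : Real.cos (ph θ x) = Real.cos (phI M a b) := by
  rw [ph_eq_phI]
  refine cos_phI_congr (fun i => ?_) fun i => ?_
  · rw [ha, ZMod.coe_valMinAbs]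
  · rw [hb, ZMod.coe_valMinAbs]

theorem sin_ph_of [NeZero M] {θ x : Tor d M} {a b : Fin d → ℤ} (ha : ∀ i, (a i : ZMod M) = θ i)
    (hb : ∀ i, (b i : ZMod M) = x i) : Real.sin (ph θ x) = Real.sin (phI M a b) := by
  rw [ph_eq_phI]
  refine sin_phI_congr (fun i => ?_) fun i => ?_
  · rw [ha, ZMod.coe_valMinAbs]
  · rw [hb, ZMod.coe_valMinAbs]

theorem ph_comm (θ x : Tor d M) : ph θ x = ph x θ := by
  unfold ph
  congr 2
  exact Finset.sum_congr rfl fun i _ => mul_comm _ _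

theorem ph_zero_right (θ : Tor d M) : ph θ 0 = 0 := by unfold ph; simp

theorem ph_zero_left (θ : Tor d M) : ph 0 θ = 0 := by unfold ph; simp

theorem phI_add_right (a b b' : Fin d → ℤ) :
    phI M a (fun i => b i + b' i) = phI M a b + phI M a b' := by
  unfold phI
  push_cast
  simp only [mul_add, Finset.sum_add_distrib, add_div]

theorem phI_neg_right (a b : Fin d → ℤ) : phI M a (fun i => -b i) = -phI M a b := by
  unfold phI
  push_cast
  simp only [mul_neg, Finset.sum_neg_distrib, neg_div]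

theorem phI_neg_left (a b : Fin d → ℤ) : phI M (fun i => -a i) b = -phI M a b := by
  unfold phI
  push_cast
  simp only [neg_mul, Finset.sum_neg_distrib, mul_neg, neg_div]

theorem phI_mul_left (n : ℤ) (a b : Fin d → ℤ) : phI M (fun i => n * a i) b = n * phI M a b := by
  unfold phI
  push_cast
  simp only [mul_assoc, ← Finset.mul_sum]
  ring

theorem cos_ph_add [NeZero M] (θ x y : Tor d M) :
    Real.cos (ph θ (x + y)) = Real.cos (ph θ x + ph θ y) := by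
  rw [cos_ph_of (a := fun i => (θ i).valMinAbs)
    (b := fun i => (x i).valMinAbs + (y i).valMinAbs) (fun i => ZMod.coe_valMinAbs _)
    (fun i => by push_cast [ZMod.coe_valMinAbs]; rfl), phI_add_right]
  rfl

theorem sin_ph_add [NeZero M] (θ x y : Tor d M) :
    Real.sin (ph θ (x + y)) = Real.sin (ph θ x + ph θ y) := by
  rw [sin_ph_of (a := fun i => (θ i).valMinAbs)
    (b := fun i => (x i).valMinAbs + (y i).valMinAbs) (fun i => ZMod.coe_valMinAbs _)
    (fun i => by push_cast [ZMod.coe_valMinAbs]; rfl), phI_add_right]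
  rfl

theorem cos_ph_neg [NeZero M] (θ x : Tor d M) : Real.cos (ph θ (-x)) = Real.cos (ph θ x) := by
  rw [cos_ph_of (a := fun i => (θ i).valMinAbs) (b := fun i => -(x i).valMinAbs)
    (fun i => ZMod.coe_valMinAbs _) (fun i => by push_cast [ZMod.coe_valMinAbs]; rfl),
    phI_neg_right, Real.cos_neg]
  rfl

theorem sin_ph_neg [NeZero M] (θ x : Tor d M) : Real.sin (ph θ (-x)) = -Real.sin (ph θ x) := by
  rw [sin_ph_of (a := fun i => (θ i).valMinAbs) (b := fun i => -(x i).valMinAbs)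
    (fun i => ZMod.coe_valMinAbs _) (fun i => by push_cast [ZMod.coe_valMinAbs]; rfl),
    phI_neg_right, Real.sin_neg]
  rfl

theorem cos_ph_neg_left [NeZero M] (θ x : Tor d M) : Real.cos (ph (-θ) x) = Real.cos (ph θ x) := by
  rw [ph_comm, cos_ph_neg, ph_comm]

theorem sin_ph_neg_left [NeZero M] (θ x : Tor d M) :
    Real.sin (ph (-θ) x) = -Real.sin (ph θ x) := by
  rw [ph_comm, sin_ph_neg, ph_comm]

theorem cos_ph_sub [NeZero M] (θ x y : Tor d M) :
    Real.cos (ph θ (x - y)) = Real.cos (ph θ x - ph θ y) := by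
  rw [sub_eq_add_neg, cos_ph_add, Real.cos_add, cos_ph_neg, sin_ph_neg, Real.cos_sub]
  ring

theorem sin_ph_sub [NeZero M] (θ x y : Tor d M) :
    Real.sin (ph θ (x - y)) = Real.sin (ph θ x - ph θ y) := by
  rw [sub_eq_add_neg, sin_ph_add, Real.sin_add, cos_ph_neg, sin_ph_neg, Real.sin_sub]
  ring

/-- multiples of the momentum -/
theorem cos_ph_nsmul [NeZero M] (n : ℕ) (θ x : Tor d M) :
    Real.cos (ph (n • θ) x) = Real.cos (n * ph θ x) := by
  rw [cos_ph_of (a := fun i => (n : ℤ) * (θ i).valMinAbs) (b := fun i => (x i).valMinAbs)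
    (fun i => by push_cast [ZMod.coe_valMinAbs]; simp)
    (fun i => ZMod.coe_valMinAbs _), phI_mul_left]
  simp [ph_eq_phI]

theorem bh_neg [NeZero M] (b : Tor d M → ℝ) (θ : Tor d M) : bh b (-θ) = bh b θ := by
  unfold bh
  exact Finset.sum_congr rfl fun y _ => by rw [cos_ph_neg_left]

theorem ft_nonneg [NeZero M] (w : Tor d M → ℝ) (θ : Tor d M) : 0 ≤ ft w θ := by
  unfold ft
  positivity

theorem ft_neg [NeZero M] (w : Tor d M → ℝ) (θ : Tor d M) : ft w (-θ) = ft w θ := by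
  unfold ft
  simp only [cos_ph_neg_left, sin_ph_neg_left, mul_neg, Finset.sum_neg_distrib, neg_sq]

theorem om_nonneg (θ : Tor d M) : 0 ≤ om θ :=
  Finset.sum_nonneg fun i _ => by
    have := Real.cos_le_one (2 * Real.pi * ((θ i).valMinAbs : ℝ) / M)
    linarith

theorem NK_nonneg [NeZero M] (b : Tor d M → ℝ) (ε : ℝ) (w : Tor d M → ℝ) : 0 ≤ NK b ε w :=
  Finset.sum_nonneg fun _ _ => mul_nonneg (Real.sqrt_nonneg _) (ft_nonneg _ _)

theorem kk_pos [NeZero M] (b : Tor d M → ℝ) {ε : ℝ} (hε : 0 < ε) (θ : Tor d M) :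
    0 < kk b ε θ := by
  unfold kk
  positivity

theorem kk_le [NeZero M] (b : Tor d M → ℝ) {ε : ℝ} (hε : 0 < ε) (θ : Tor d M) :
    kk b ε θ ≤ 1 / ε := by
  unfold kk
  refine one_div_le_one_div_of_le hε ?_
  refine Real.le_sqrt_of_sq_le ?_
  nlinarith [sq_nonneg (1 - bh b θ)]

/-! ### flatness -/

theorem FlatD.mono [NeZero M] {δ δ' z μ : ℝ} {V : Tor d M → ℝ} (h : FlatD δ z μ V) (hμ : 0 ≤ μ)
    (hδ : δ ≤ δ') : FlatD δ' z μ V :=
  ⟨h.1, h.2.1, fun x => (h.2.2 x).trans (mul_le_mul_of_nonneg_right hδ hμ)⟩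

theorem FlatD.lower [NeZero M] {δ z μ : ℝ} {V : Tor d M → ℝ} (h : FlatD δ z μ V) (x : Tor d M) :
    (1 - δ) * μ ≤ DD z V x := by
  have := (abs_le.1 (h.2.2 x)).1
  linarith

theorem FlatD.upper [NeZero M] {δ z μ : ℝ} {V : Tor d M → ℝ} (h : FlatD δ z μ V) (x : Tor d M) :
    DD z V x ≤ (1 + δ) * μ := by
  have := (abs_le.1 (h.2.2 x)).2
  linarith

theorem FlatD.lt [NeZero M] {δ z μ : ℝ} {V : Tor d M → ℝ} (h : FlatD δ z μ V) (x : Tor d M) :
    V x < z := by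
  have h1 := pos_of_posDef h.2.1 (f := Pi.single x 1) (by
    intro h0
    have := congrFun h0 x
    simp at this)
  rw [Finset.sum_eq_single x] at h1
  · simp only [Pi.single_eq_same, one_mul, Matrix.mulVec_single_one, Matrix.col_apply] at h1
    unfold AM at h1
    rw [Matrix.sub_apply, Matrix.diagonal_apply_eq] at h1
    have := adj_nonneg x x
    linarith
  · intro y _ hy
    simp [hy]
  · simp

/-- bound for the potential -/
theorem FlatD.abs_le [NeZero M] {δ z μ : ℝ} {V : Tor d M → ℝ} (h : FlatD δ z μ V)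
    (hz : z ≤ 2 * d + 1) (x : Tor d M) : |V x| ≤ 2 * d + 1 := by
  rw [_root_.abs_le]
  have h1 := h.1 x
  have h2 := h.lt x
  have h3 : (0 : ℝ) ≤ d := by positivity
  constructor <;> linarith

end Pool.Agent.IR
end
end -- Pool.Agent.Helper41_IR.Phase

section -- Pool.Agent.Helper41_IR.Stmts

/-!
# IR: module statements
-/

set_option autoImplicit false

open MeasureTheory ProbabilityTheory

open scoped ENNReal NNReal BigOperators

noncomputable section

namespace Pool.Agent.IR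

open Matrix Pool.Agent.Anderson Pool.Agent.Loc Pool.Agent.BED

/-- Module GAP: the penalty opens a gap. -/
def GapStmt : Prop := ∀ (d M l : ℕ) [NeZero M] (z μ E : ℝ) (V : Tor d M → ℝ), Par d M l z μ E →
  FlatD (1 / 50) z μ V →
    (∀ u, 17 / 10 / (d * (l : ℝ) ^ 2) * sqn u ≤
      ip u (AM z V *ᵥ u) + sL d l * sqn (QM d M l *ᵥ u)) ∧
    (AP l E V).PosDef ∧
    (∀ u, 1 / (d * (l : ℝ) ^ 2) * sqn u ≤ ip u (AP l E V *ᵥ u)) ∧
    (∀ f, sqn (GP l E V *ᵥ f) ≤ (d * (l : ℝ) ^ 2) ^ 2 * sqn f) ∧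
    (∀ x y, BB l E V x y = BB l E V y x) ∧
    (∀ w, 0 ≤ ip w (BB l E V *ᵥ w)) ∧
    (∀ w, ip w (BB l E V *ᵥ w) ≤ 2 * sqn w) ∧
    (∀ w, sqn (BB l E V *ᵥ w) ≤ 4 * sqn w)

/-- Module SUP: sup bound for `GP QMᵀ`, as a bound for its rows. -/
def SupStmt : Prop := ∀ d : ℕ, 1 ≤ d → ∃ C : ℝ, 0 < C ∧
  ∀ (M l : ℕ) [NeZero M] (z μ E : ℝ) (V : Tor d M → ℝ), Par d M l z μ E →
    FlatD (1 / 50) z μ V →
      ∀ x, (l : ℝ) ^ d * ∑ y, ((GP l E V * (QM d M l)ᵀ) x y) ^ 2 ≤ C * (l : ℝ) ^ 4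

/-- Module CT: Combes-Thomas bounds. -/
def CtStmt : Prop := ∀ d : ℕ, 1 ≤ d → ∃ C : ℝ, 0 < C ∧
  ∀ (M l : ℕ) [NeZero M] (z μ E : ℝ) (V : Tor d M → ℝ), Par d M l z μ E →
    FlatD (1 / 50) z μ V →
      (∀ x y, |(GP l E V * (QM d M l)ᵀ) x y| ≤
        C * (l : ℝ) ^ 2 * Real.exp (-((nd (x - y) : ℝ) / (3 * d * l)))) ∧
      ∀ x y, (l : ℝ) ^ d * |BB l E V x y| ≤ C * Real.exp (-((nd (x - y) : ℝ) / (3 * d * l)))

/-- Module COER: upper bound of `BB` by `1/(1 - c l² Δ)`. -/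
def CoerStmt : Prop := ∀ (d M l : ℕ) [NeZero M] (z μ E δ : ℝ) (V : Tor d M → ℝ),
  Par d M l z μ E → 0 ≤ δ → δ ≤ 1 / 50 → FlatD δ z μ V →
    ∀ (w : Tor d M → ℝ) (o : ℝ), 0 ≤ o →
      (∀ x, ∑ i : Fin d, (w (x + ev i) + w (x - ev i)) = (2 * d - o) * w x) →
      ip w (BB l E V *ᵥ w) ≤ (1 + d * ((z - E) * (l : ℝ) ^ 2 + 4 * d * δ ^ 2)) *
        (2 / (2 + 2 / 5 * d * (l : ℝ) ^ 2 * o)) * sqn w

/-- Module ZERO: lower bound for `BB` at zero momentum. -/
def ZeroStmt : Prop := ∀ (d M l : ℕ) [NeZero M] (z μ E δ : ℝ) (V : Tor d M → ℝ),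
  Par d M l z μ E → 0 ≤ δ → δ ≤ 1 / 50 → FlatD δ z μ V →
    (1 - 4 * δ) * (sL d l / (sL d l - (z - E) + 1 / μ)) * (M : ℝ) ^ d ≤ ∑ x, ∑ y, BB l E V x y

/-- Module COVB: translation covariance. -/
def CovbStmt : Prop := ∀ (d M l : ℕ) [NeZero M] (E : ℝ) (V : Tor d M → ℝ) (x : Tor d M),
  (∀ y w, GP l E (tr x V) y w = GP l E V (x + y) (x + w)) ∧
  (∀ y w, BB l E (tr x V) y w = BB l E V (x + y) (x + w)) ∧
  ∀ δ z μ : ℝ, FlatD δ z μ (tr x V) ↔ FlatD δ z μ V

/-- Module MEAS: measurability. -/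
def MeasStmt : Prop := ∀ (d M l : ℕ) [NeZero M] (E δ z μ : ℝ),
  (∀ x y, Measurable fun V : Tor d M → ℝ => GP l E V x y) ∧
  (∀ x y, Measurable fun V : Tor d M → ℝ => BB l E V x y) ∧
  MeasurableSet (Gd d M δ z μ)

/-- Module MEAN: the properties of the mean of the effective operator. -/
def MeanStmt : Prop := ∀ d : ℕ, 1 ≤ d → ∃ C : ℝ, 0 < C ∧
  ∀ (M l : ℕ) [NeZero M] (z μ E δ : ℝ) (v : ℝ≥0), Par d M l z μ E → 0 ≤ δ → δ ≤ 1 / 50 →
    gau d M v (Gd d M δ z μ) ≠ 0 →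
      (∀ x y, (∫ V in Gd d M δ z μ, BB l E V x y ∂(gau d M v)) /
        (gau d M v (Gd d M δ z μ)).toReal = bbar v δ z μ l E (y - x)) ∧
      ∀ τ : ℝ, 1 + τ ≤ (1 - 4 * δ) * (sL d l / (sL d l - (z - E) + 1 / μ)) →
        Sym d M l C (d * ((z - E) * (l : ℝ) ^ 2 + 4 * d * δ ^ 2)) τ (bbar v δ z μ l E)

/-- Module FOUR: finite Fourier analysis. -/
def FourStmt : Prop := ∀ (d M : ℕ) [NeZero M],
  (∀ w : Tor d M → ℝ, ∑ θ, ft w θ = sqn w) ∧
  (mulM (fun _ : Tor d M => 1) = 1) ∧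
  (∀ u1 u2 : Tor d M → ℝ, (∀ θ, u1 (-θ) = u1 θ) → (∀ θ, u2 (-θ) = u2 θ) →
    mulM u1 * mulM u2 = mulM (fun θ => u1 θ * u2 θ)) ∧
  (∀ u w : Tor d M → ℝ, ip w (mulM u *ᵥ w) = ∑ θ, u θ * ft w θ) ∧
  (∀ (u w : Tor d M → ℝ) (θ : Tor d M), (∀ θ, u (-θ) = u θ) →
    ft (mulM u *ᵥ w) θ = u θ ^ 2 * ft w θ) ∧
  (∀ b : Tor d M → ℝ, (∀ y, b (-y) = b y) → cvM b = mulM (bh b)) ∧
  (∀ (w : Tor d M → ℝ) (θ : Tor d M), (M : ℝ) ^ d * ft w θ ≤ (∑ x, |w x|) ^ 2)

/-- Module SLICE: the Fourier transform of functions supported in a slab. -/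
def SliceStmt : Prop := ∀ (d M : ℕ) [NeZero M] (w : Tor d M → ℝ) (i : Fin d) (x0 : ZMod M) (ρ : ℕ),
  (∀ x, w x ≠ 0 → ((x i - x0).valMinAbs).natAbs ≤ ρ) → ∀ θ : Tor d M,
    (M : ℝ) * ft w θ ≤ (2 * ρ + 1) * ∑ t : ZMod M, ft w (Function.update θ i t)

/-- Module LINE: a sum over well separated values. -/
def LineStmt : Prop := ∀ (T : Finset ℤ) (y : ℤ → ℝ) (δ ε : ℝ) (N : ℕ), 0 < δ → 0 < ε →
  (∀ s ∈ T, ∀ t ∈ T, δ * |(s : ℝ) - t| ≤ |y s - y t|) → (∀ s ∈ T, ∀ t ∈ T, |s - t| ≤ N) →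
    ∑ t ∈ T, 1 / Real.sqrt (y t ^ 2 + ε ^ 2) ≤ 2 / ε + 6 / δ * Real.log (1 + N * δ / ε)

/-- Module MOM: moments. -/
def MomStmt : Prop := ∀ d : ℕ, 1 ≤ d → ∀ C : ℝ, 0 < C → ∃ C' : ℝ, 0 < C' ∧
  ∀ (M l : ℕ) [NeZero M] (b : Tor d M → ℝ), 1 ≤ l →
    (∀ y, (l : ℝ) ^ d * |b y| ≤ C * Real.exp (-((nd y : ℝ) / (3 * d * l)))) →
      ∀ k ≤ 4, ∑ y, |b y| * ((nd y : ℝ) / l) ^ k ≤ C'

/-- Module SYM: the regions of momentum space. -/
def SymStmt : Prop := ∀ d : ℕ, 1 ≤ d → ∀ C : ℝ, 0 < C → ∃ γ0 : ℝ, 0 < γ0 ∧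
  ∀ τ : ℝ, 0 < τ → ∃ ε0 C' : ℝ, 0 < ε0 ∧ 0 < C' ∧
    ∀ (M l : ℕ) [NeZero M] (b : Tor d M → ℝ) (γ : ℝ), 1 ≤ l → (l : ℝ) ≤ ε0 * M → 0 ≤ γ → γ ≤ γ0 →
      Sym d M l C γ τ b → ∃ R : Fin d → Bool → Set (Tor d M),
        (∀ θ, (∀ i s, θ ∉ R i s) → 1 ≤ C' * |1 - bh b θ|) ∧
        (∀ i s θ, θ ∈ R i s → ∀ j, |((θ j).valMinAbs : ℝ)| * l ≤ M) ∧
        (∀ i s θ t, θ ∈ R i s → Function.update θ i t ∈ R i s →
          |((θ i).valMinAbs : ℝ) - (t.valMinAbs : ℝ)| * l ≤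
            C' * M * |bh b θ - bh b (Function.update θ i t)|)

/-- first bound for the multiplier `kk`: functions supported in a box of radius `ρ` -/
def KBox (d M : ℕ) [NeZero M] (l : ℕ) (C : ℝ) (b : Tor d M → ℝ) (ε : ℝ) : Prop :=
  ∀ (w : Tor d M → ℝ) (x0 : Tor d M) (ρ : ℕ),
    (∀ x, w x ≠ 0 → ∀ i, ((x i - x0 i).valMinAbs).natAbs ≤ ρ) →
      ∑ θ, kk b ε θ * ft w θ ≤ C * (1 + (2 * ρ + 1) / l * Real.log (1 / ε)) * sqn w

/-- second bound for the multiplier `kk` -/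
def KGen (d M : ℕ) [NeZero M] (l : ℕ) (C : ℝ) (b : Tor d M → ℝ) (ε : ℝ) : Prop :=
  ∀ g : Tor d M → ℝ, (l : ℝ) ^ d * ∑ θ, kk b ε θ * ft g θ ≤
    C * ((l : ℝ) ^ d * sqn g + Real.log (1 / ε) * (∑ x, |g x|) ^ 2)

/-- Module KBND: bounds for the multiplier `kk`. -/
def KbndStmt : Prop := ∀ d : ℕ, 1 ≤ d → ∀ C : ℝ, 0 < C → ∃ γ0 : ℝ, 0 < γ0 ∧
  ∀ τ : ℝ, 0 < τ → ∃ ε0 C' : ℝ, 0 < ε0 ∧ ε0 ≤ 1 / 2 ∧ 1 ≤ C' ∧
    ∀ (M l : ℕ) [NeZero M] (b : Tor d M → ℝ) (γ ε : ℝ), 1 ≤ l → 0 < ε → ε ≤ ε0 →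
      (l : ℝ) ≤ ε * M → 0 ≤ γ → γ ≤ γ0 → Sym d M l C γ τ b →
        KBox d M l C' b ε ∧ KGen d M l C' b ε

/-- Module KHI: Khintchine inequality for `T D Tᵀ`. -/
def KhiStmt : Prop := ∀ (n : Type) [Fintype n] [DecidableEq n] (T : Matrix n n ℝ) (v : ℝ≥0)
  (κ L s ρ : ℝ) (p : ℕ), 0 ≤ κ → 0 ≤ L → 0 ≤ s → 0 < ρ → 1 ≤ p →
    (∀ y, ∑ x, T x y ^ 2 ≤ κ) → (∀ u, sqn (T *ᵥ u) ≤ L * sqn u) →
      (Measure.pi fun _ : n => gaussianReal 0 v)
          {D | (∀ y, |D y| ≤ s) ∧ ∃ a : n → ℝ, ρ * sqn a < |∑ y, D y * ((Tᵀ *ᵥ a) y) ^ 2|} ≤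
        ENNReal.ofReal (Fintype.card n * (2 * p * (s ^ 2 * κ * L) / ρ ^ 2) ^ p)

/-- Module GROW: the rows of `GP QMᵀ`. -/
def GrowStmt : Prop := ∀ d : ℕ, 1 ≤ d → ∃ C : ℝ, 0 < C ∧
  ∀ (M l : ℕ) [NeZero M] (z μ E : ℝ) (V : Tor d M → ℝ), Par d M l z μ E →
    FlatD (1 / 50) z μ V → ∀ x,
      (l : ℝ) ^ d * ∑ y, ((GP l E V * (QM d M l)ᵀ) x y) ^ 2 ≤ C * (l : ℝ) ^ 4 ∧
      (∑ y, |(GP l E V * (QM d M l)ᵀ) x y|) ^ 2 ≤ C * Real.log M ^ d * (l : ℝ) ^ 4

/-- the derivative of `ip w (BB l E V *ᵥ w)` in the direction `D` -/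
def dB {d M : ℕ} [NeZero M] (l : ℕ) (E : ℝ) (V D w : Tor d M → ℝ) : ℝ :=
  sL d l * ∑ y, D y * ((GP l E V *ᵥ ((QM d M l)ᵀ *ᵥ w)) y) ^ 2

/-- Module KHB: the derivative of `BB` in a random direction. -/
def KhbStmt : Prop := ∀ d : ℕ, 1 ≤ d → ∃ C : ℝ, 0 < C ∧
  ∀ (M l : ℕ) [NeZero M] (z μ E : ℝ) (V b : Tor d M → ℝ) (ε Cg s ρ : ℝ) (v : ℝ≥0) (p : ℕ),
    Par d M l z μ E → FlatD (1 / 50) z μ V → (∀ y, b (-y) = b y) → 0 < ε → ε ≤ 1 / 2 → 1 ≤ Cg →
      KGen d M l Cg b ε → 0 ≤ s → 0 < ρ → 1 ≤ p →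
        gau d M v {D | (∀ y, |D y| ≤ s) ∧ ∃ w, ρ * NK b ε w < |dB l E V D w|} ≤
          ENNReal.ofReal ((M : ℝ) ^ d * (p * C * Cg * s ^ 2 * Real.log M ^ d * Real.log (1 / ε) *
            (l : ℝ) ^ 4 / ((l : ℝ) ^ d * ε * ρ ^ 2)) ^ p)

/-- Module ROT: the Gaussian measure on pairs is invariant under rotations. -/
def RotStmt : Prop := ∀ (n : Type) [Fintype n] (v : ℝ≥0) (a : ℝ),
  MeasurePreserving (fun q : (n → ℝ) × (n → ℝ) => (rotV a q.1 q.2, rotD a q.1 q.2))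
    ((Measure.pi fun _ : n => gaussianReal 0 v).prod (Measure.pi fun _ : n => gaussianReal 0 v))
    ((Measure.pi fun _ : n => gaussianReal 0 v).prod (Measure.pi fun _ : n => gaussianReal 0 v))

/-- the angles of the path -/
def ang (N j : ℕ) : ℝ := j * Real.pi / (2 * N)

/-- Module PATH: the discretised path from `V` to `V'`. -/
def PathStmt : Prop := ∀ d : ℕ, 1 ≤ d → ∃ C : ℝ, 0 < C ∧
  ∀ (M l : ℕ) [NeZero M] (z μ E : ℝ) (b : Tor d M → ℝ) (ε ρ : ℝ) (N : ℕ) (V V' : Tor d M → ℝ),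
    Par d M l z μ E → 0 < ε → ε ≤ 1 → 0 ≤ ρ → 1 ≤ N → C * (l : ℝ) ^ 4 / ε ≤ N →
      (∀ j ≤ N, FlatD (1 / 50) z μ (rotV (ang N j) V V')) →
      (∀ j < N, ∀ w, |dB l E (rotV (ang N j) V V') (rotD (ang N j) V V') w| ≤ ρ * NK b ε w) →
        ∀ w, |ip w ((BB l E V' - BB l E V) *ᵥ w)| ≤ (2 * ρ + 1 / 16) * NK b ε w

/-- Module AVG: with large probability `BB` is close to its mean. -/
def AvgStmt : Prop := ∀ d : ℕ, 1 ≤ d → ∀ K : ℕ, ∃ C : ℝ, 0 < C ∧
  ∀ (M l : ℕ) [NeZero M] (z μ E δ : ℝ) (v : ℝ≥0) (b : Tor d M → ℝ) (ε Cg p : ℝ),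
    Par d M l z μ E → 0 ≤ δ → δ ≤ 1 / 50 → 0 < v → (∀ y, b (-y) = b y) →
      (∀ x y, (∫ V in Gd d M δ z μ, BB l E V x y ∂(gau d M v)) /
        (gau d M v (Gd d M δ z μ)).toReal = b (y - x)) →
      0 < ε → ε ≤ 1 / 2 → (l : ℝ) ≤ ε * M → 1 ≤ Cg → KGen d M l Cg b ε →
      C * Cg * v * Real.log M ^ (d + 2) * Real.log (1 / ε) * (l : ℝ) ^ 4 ≤ ε * (l : ℝ) ^ d →
      0 ≤ p → p ≤ 1 / 2 → gau d M v (Gd d M δ z μ)ᶜ ≤ ENNReal.ofReal p →
        gau d M v {V | ¬ (FlatD δ z μ V ∧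
            ∀ w, |ip w ((BB l E V - cvM b) *ᵥ w)| ≤ 1 / 4 * NK b ε w)} ≤
          ENNReal.ofReal (C * (M : ℝ) ^ 7 * (p + 1 / (M : ℝ) ^ K))

/-- Module CORE: local mass bound on the torus. -/
def CoreStmt : Prop := ∀ d : ℕ, 1 ≤ d → ∃ C : ℝ, 0 < C ∧
  ∀ (M l : ℕ) [NeZero M] (z μ E : ℝ) (V b : Tor d M → ℝ) (ε Cb : ℝ),
    Par d M l z μ E → FlatD (1 / 50) z μ V → (∀ y, b (-y) = b y) → 0 < ε → ε ≤ 1 / 2 →
      (l : ℝ) ≤ ε * M → 1 ≤ Cb → KBox d M l Cb b ε →
      (∀ w, |ip w ((BB l E V - cvM b) *ᵥ w)| ≤ 1 / 4 * NK b ε w) →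
        ∀ u r : Tor d M → ℝ, AM E V *ᵥ u = r → ∀ (x0 : Tor d M) (ρ : ℕ),
          ∑ x, (if ∀ i, ((x i - x0 i).valMinAbs).natAbs ≤ ρ then u x ^ 2 else 0) ≤
            C * Cb * ε * Real.log (1 / ε) * (ρ / l + Real.log M) *
              (sqn u + (l : ℝ) ^ 4 * sqn r / ε ^ 2)

/-- Module TRANSP: from `ℤ^d` to the torus. -/
def TranspStmt : Prop := ∀ (d M L : ℕ) [NeZero M], 1 ≤ L → 4 * L + 5 ≤ M →
  ∀ (W : Site d → ℝ) (E : ℝ) (v r : L2 d),
    (∀ y, lap v y + (W y : ℂ) * v y - (E : ℂ) * v y = r y) →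
      ∃ u1 u2 r1 r2 : Tor d M → ℝ, AM E (fun x => W (rep x)) *ᵥ u1 = r1 ∧
        AM E (fun x => W (rep x)) *ᵥ u2 = r2 ∧
        sqn u1 + sqn u2 ≤ ‖v‖ ^ 2 ∧
        sqn r1 + sqn r2 ≤ 2 * ‖r‖ ^ 2 + 8 * (d : ℝ) ^ 2 / (L : ℝ) ^ 2 * ‖v‖ ^ 2 ∧
        ∀ x : Site d, (∀ i, |x i| ≤ L) →
          ‖v x‖ ^ 2 = u1 (H61.red M x) ^ 2 + u2 (H61.red M x) ^ 2

/-- Module FLAT2: flatness with an arbitrary precision. -/
def Flat2Stmt : Prop := ∀ d : ℕ, 3 ≤ d → ∀ δ : ℝ, 0 < δ → δ ≤ 1 / 50 →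
  ∃ c0 C0 : ℝ, 0 < c0 ∧ 0 < C0 ∧
    ∀ (M : ℕ) [NeZero M] (t : ℝ) (σ : ℝ≥0) (p : ℝ), 3 ≤ M → 1 ≤ t → t ≤ M → 0 < σ → σ ≤ 1 →
      p = C0 * (1 + Real.log t) * (M : ℝ) ^ d * Real.exp (-c0 / ((σ : ℝ) ^ 2 * growth d t)) →
      p ≤ 1 / 2 →
      ∃ z μ : ℝ, 9 * t ≤ μ ∧ μ ≤ 13 * t ∧ z ≤ 2 * d + 1 ∧
        |z - 2 * d| ≤ C0 * ((σ : ℝ) ^ 2 + 1 / t + Real.sqrt p) ∧
        gau d M (σ ^ 2) {V | ¬ FlatD δ z μ V} ≤ ENNReal.ofReal p

end Pool.Agent.IR
end
end -- Pool.Agent.Helper41_IR.Stmts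

section -- Pool.Agent.Helper85_IR.Avg

/-!
# IR squad, module AVG: with large probability `BB` is close to its mean
-/

set_option autoImplicit false

open MeasureTheory ProbabilityTheory

open scoped ENNReal NNReal BigOperators

noncomputable section

namespace Pool.Agent.IR.H85A

open Matrix Pool.Agent.Anderson Pool.Agent.Loc Pool.Agent.BED

variable {d M : ℕ} [NeZero M]

instance (v : ℝ≥0) : IsProbabilityMeasure (gau d M v) := by unfold gau; infer_instance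

/-! ### Gaussian tails -/

theorem gauss_tail {v : ℝ≥0} (hv : 0 < v) {y : ℝ} (hy : 0 ≤ y) :
    gaussianReal 0 v {z | y < |z|} ≤ ENNReal.ofReal (2 * Real.exp (-(y ^ 2 / (2 * v)))) := by
  have hv0 : (0 : ℝ) < v := by exact_mod_cast hv
  have ht : 0 ≤ y / v := by positivity
  have e : Real.exp (-(y / v) * y) * Real.exp (0 * (y / v) + v * (y / v) ^ 2 / 2) =
      Real.exp (-(y ^ 2 / (2 * v))) := by
    rw [← Real.exp_add]
    congr 1
    field_simp
    ring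
  have e' : Real.exp (-(-(y / v)) * (-y)) * Real.exp (0 * (-(y / v)) + v * (-(y / v)) ^ 2 / 2) =
      Real.exp (-(y ^ 2 / (2 * v))) := by
    rw [← Real.exp_add]
    congr 1
    field_simp
    ring
  have h1 : (gaussianReal 0 v).real {z | y ≤ z} ≤ Real.exp (-(y ^ 2 / (2 * v))) := by
    have h := measure_ge_le_exp_mul_mgf (μ := gaussianReal 0 v) (X := id) (t := y / v) y ht
      (integrable_exp_mul_gaussianReal _)
    rw [mgf_id_gaussianReal, e] at h
    exact h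
  have h2 : (gaussianReal 0 v).real {z | z ≤ -y} ≤ Real.exp (-(y ^ 2 / (2 * v))) := by
    have h := measure_le_le_exp_mul_mgf (μ := gaussianReal 0 v) (X := id) (t := -(y / v)) (-y)
      (neg_nonpos.2 ht) (integrable_exp_mul_gaussianReal _)
    rw [mgf_id_gaussianReal, e'] at h
    exact h
  have h3 : {z : ℝ | y < |z|} ⊆ {z : ℝ | y ≤ z} ∪ {z : ℝ | z ≤ -y} := by
    intro z hz
    have hz' : y < |z| := hz
    rcases lt_abs.1 hz' with h | h
    · exact Or.inl h.le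
    · exact Or.inr (by change z ≤ -y; linarith only [h])
  have h4 : (gaussianReal 0 v).real {z : ℝ | y < |z|} ≤
      2 * Real.exp (-(y ^ 2 / (2 * v))) := by
    have := (measureReal_mono (μ := gaussianReal 0 v) h3).trans (measureReal_union_le _ _)
    linarith only [h1, h2, this]
  rw [← ENNReal.ofReal_toReal (measure_ne_top (gaussianReal 0 v) {z : ℝ | y < |z|})]
  exact ENNReal.ofReal_le_ofReal h4

theorem card_tor : (Fintype.card (Tor d M) : ℝ) = (M : ℝ) ^ d := by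
  simp [Tor, ZMod.card]

theorem gau_tail {v : ℝ≥0} (hv : 0 < v) {s : ℝ} (hs : 0 ≤ s) :
    gau d M v {D | ¬ ∀ y, |D y| ≤ s} ≤
      ENNReal.ofReal ((M : ℝ) ^ d * (2 * Real.exp (-(s ^ 2 / (2 * v))))) := by
  have h1 : {D : Tor d M → ℝ | ¬ ∀ y, |D y| ≤ s} ⊆ ⋃ y : Tor d M, {D | s < |D y|} := by
    intro D hD
    obtain ⟨y, hy⟩ := not_forall.1 hD
    exact Set.mem_iUnion.2 ⟨y, not_le.1 hy⟩
  have h2 : ∀ y : Tor d M, gau d M v {D | s < |D y|} ≤
      ENNReal.ofReal (2 * Real.exp (-(s ^ 2 / (2 * v)))) := by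
    intro y
    have hp := measurePreserving_eval (fun _ : Tor d M => gaussianReal 0 v) y
    have hm : MeasurableSet {z : ℝ | s < |z|} :=
      measurableSet_lt measurable_const measurable_norm
    have := hp.measure_preimage hm.nullMeasurableSet
    calc gau d M v {D | s < |D y|} = gaussianReal 0 v {z : ℝ | s < |z|} := this
      _ ≤ _ := gauss_tail hv hs
  refine (measure_mono h1).trans ((measure_iUnion_fintype_le _ _).trans ?_)
  refine (Finset.sum_le_sum fun y _ => h2 y).trans ?_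
  have hc : (Fintype.card (Tor d M) : ℝ≥0∞) = ENNReal.ofReal ((M : ℝ) ^ d) := by
    rw [← card_tor, ENNReal.ofReal_natCast]
  rw [Finset.sum_const, Finset.card_univ, nsmul_eq_mul, hc, ← ENNReal.ofReal_mul (by positivity)]

/-! ### measurability of the bad set -/

/-- the bad directions -/
def badD (l : ℕ) (z μ E : ℝ) (b : Tor d M → ℝ) (ε s ρ : ℝ) :
    Set ((Tor d M → ℝ) × (Tor d M → ℝ)) :=
  {q | FlatD (1 / 50) z μ q.1 ∧ (∀ y, |q.2 y| ≤ s) ∧ ∃ w, ρ * NK b ε w < |dB l E q.1 q.2 w|}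

theorem cont_ft (θ : Tor d M) : Continuous fun w : Tor d M → ℝ => ft w θ := by
  unfold ft
  fun_prop

theorem cont_NK (b : Tor d M → ℝ) (ε : ℝ) : Continuous fun w : Tor d M → ℝ => NK b ε w := by
  unfold NK
  exact continuous_finsetSum _ fun θ _ => continuous_const.mul (cont_ft θ)

theorem cont_dB (l : ℕ) (E : ℝ) (V D : Tor d M → ℝ) :
    Continuous fun w : Tor d M → ℝ => dB l E V D w := by
  unfold dB
  simp only [Matrix.mulVec, dotProduct]
  fun_prop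

theorem meas_dB (hM : MeasStmt) (l : ℕ) (E : ℝ) (w : Tor d M → ℝ) :
    Measurable fun q : (Tor d M → ℝ) × (Tor d M → ℝ) => dB l E q.1 q.2 w := by
  have hG := (hM d M l E 0 0 0).1
  unfold dB
  simp only [Matrix.mulVec, dotProduct]
  refine Measurable.const_mul (Finset.measurable_fun_sum _ fun y _ => ?_) _
  refine ((measurable_pi_apply y).comp measurable_snd).mul ?_
  refine Measurable.pow_const (Finset.measurable_fun_sum _ fun x _ => ?_) 2
  exact ((hG y x).comp measurable_fst).mul_const _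

theorem meas_badD (hM : MeasStmt) (l : ℕ) (z μ E : ℝ) (b : Tor d M → ℝ) (ε s ρ : ℝ) :
    MeasurableSet (badD l z μ E b ε s ρ) := by
  have hF : MeasurableSet (Gd d M (1 / 50) z μ) := (hM d M l E (1 / 50) z μ).2.2
  have e : badD l z μ E b ε s ρ = (Prod.fst ⁻¹' (Gd d M (1 / 50) z μ)) ∩
      ((⋂ y : Tor d M, {q : (Tor d M → ℝ) × (Tor d M → ℝ) | |q.2 y| ≤ s}) ∩
      ⋃ n : ℕ, {q | ρ * NK b ε (TopologicalSpace.denseSeq (Tor d M → ℝ) n) <
        |dB l E q.1 q.2 (TopologicalSpace.denseSeq (Tor d M → ℝ) n)|}) := by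
    ext q
    constructor
    · rintro ⟨h1, h2, w, h3⟩
      refine ⟨h1, Set.mem_iInter.2 h2, ?_⟩
      have ho : IsOpen {w : Tor d M → ℝ | ρ * NK b ε w < |dB l E q.1 q.2 w|} :=
        isOpen_lt (continuous_const.mul (cont_NK b ε)) (cont_dB l E q.1 q.2).abs
      obtain ⟨n, hn⟩ := (TopologicalSpace.denseRange_denseSeq (Tor d M → ℝ)).exists_mem_open ho
        ⟨w, h3⟩
      exact Set.mem_iUnion.2 ⟨n, hn⟩
    · rintro ⟨h1, h2, h3⟩
      obtain ⟨n, hn⟩ := Set.mem_iUnion.1 h3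
      have h4 := Set.mem_iInter.1 h2
      exact ⟨h1, h4, _, hn⟩
  rw [e]
  refine (measurable_fst hF).inter (MeasurableSet.inter (MeasurableSet.iInter fun y => ?_)
    (MeasurableSet.iUnion fun n => ?_))
  · exact measurableSet_le (((measurable_pi_apply y).comp measurable_snd).norm) measurable_const
  · exact measurableSet_lt measurable_const (meas_dB hM l E _).norm

/-! ### elementary facts -/

theorem ft_nonneg (w : Tor d M → ℝ) (θ : Tor d M) : 0 ≤ ft w θ := by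
  unfold ft; positivity

theorem NK_ge (hF : FourStmt) (b : Tor d M → ℝ) {ε : ℝ} (hε : 0 < ε) (w : Tor d M → ℝ) :
    ε * sqn w ≤ NK b ε w := by
  rw [← (hF d M).1 w, Finset.mul_sum]
  unfold NK
  refine Finset.sum_le_sum fun θ _ => mul_le_mul_of_nonneg_right ?_ (ft_nonneg w θ)
  refine Real.le_sqrt_of_sq_le ?_
  nlinarith only [sq_nonneg (1 - bh b θ)]

theorem NK_nonneg (b : Tor d M → ℝ) (ε : ℝ) (w : Tor d M → ℝ) : 0 ≤ NK b ε w :=
  Finset.sum_nonneg fun θ _ => mul_nonneg (Real.sqrt_nonneg _) (ft_nonneg w θ)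

theorem ip_sub_mulVec (A B : Matrix (Tor d M) (Tor d M) ℝ) (w : Tor d M → ℝ) :
    ip w ((A - B) *ᵥ w) = ip w (A *ᵥ w) - ip w (B *ᵥ w) := by
  rw [Matrix.sub_mulVec, ip_sub_right]

theorem ip_mulVec_eq (A : Matrix (Tor d M) (Tor d M) ℝ) (w : Tor d M → ℝ) :
    ip w (A *ᵥ w) = ∑ x, ∑ y, w x * w y * A x y := by
  unfold ip
  refine Finset.sum_congr rfl fun x _ => ?_
  simp only [Matrix.mulVec, dotProduct, Finset.mul_sum]
  exact Finset.sum_congr rfl fun y _ => by ring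

theorem flat_mono {δ z μ : ℝ} (hμ : 0 < μ) (hδ : δ ≤ 1 / 50) {V : Tor d M → ℝ}
    (h : FlatD δ z μ V) : FlatD (1 / 50) z μ V :=
  ⟨h.1, h.2.1, fun x => (h.2.2 x).trans (mul_le_mul_of_nonneg_right hδ hμ.le)⟩

theorem BB_le (hG : GapStmt) {l : ℕ} {z μ E : ℝ} (hP : Par d M l z μ E) {V : Tor d M → ℝ}
    (hV : FlatD (1 / 50) z μ V) (x y : Tor d M) : |BB l E V x y| ≤ 2 := by
  have h := (hG d M l z μ E V hP hV).2.2.2.2.2.2.2 (Pi.single y 1)
  have h1 : sqn (Pi.single y 1 : Tor d M → ℝ) = 1 := by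
    rw [← ip_self, ip_single]
    simp
  have h2 : (BB l E V x y) ^ 2 ≤ sqn (BB l E V *ᵥ (Pi.single y 1)) := by
    have := Finset.single_le_sum (f := fun x => (BB l E V *ᵥ (Pi.single y 1)) x ^ 2)
      (fun x _ => sq_nonneg _) (Finset.mem_univ x)
    simpa [sqn] using this
  rw [h1] at h
  exact abs_le_of_sq_le_sq (by linarith) (by norm_num)

theorem int_BB (hM : MeasStmt) (hG : GapStmt) {l : ℕ} {z μ E δ : ℝ} (hP : Par d M l z μ E)
    (hδ : δ ≤ 1 / 50) (v : ℝ≥0) (x y : Tor d M) :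
    IntegrableOn (fun V => BB l E V x y) (Gd d M δ z μ) (gau d M v) := by
  have hmG : MeasurableSet (Gd d M δ z μ) := (hM d M l E δ z μ).2.2
  refine Measure.integrableOn_of_bounded (M := 2) (measure_ne_top _ _)
    ((hM d M l E δ z μ).2.1 x y).aestronglyMeasurable ?_
  refine ae_restrict_of_forall_mem hmG fun V hV => ?_
  exact BB_le hG hP (flat_mono hP.hμ hδ hV) x y

/-! ### the average over the good potentials -/

theorem good_V (hM : MeasStmt) (hG : GapStmt) (hF : FourStmt) {l : ℕ} {z μ E δ : ℝ} {v : ℝ≥0}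
    {b : Tor d M → ℝ} {ε : ℝ} (hP : Par d M l z μ E) (hδ : δ ≤ 1 / 50)
    (hmean : ∀ x y, (∫ V in Gd d M δ z μ, BB l E V x y ∂(gau d M v)) /
        (gau d M v (Gd d M δ z μ)).toReal = b (y - x))
    (hε : 0 < ε) (hm : 1 / 2 ≤ (gau d M v (Gd d M δ z μ)).toReal)
    {V : Tor d M → ℝ} (hV : FlatD δ z μ V) {B : Set (Tor d M → ℝ)} (hB : MeasurableSet B)
    (hBε : (gau d M v).real B ≤ ε / 100)
    (hgood : ∀ V' ∉ B, ∀ w, |ip w ((BB l E V' - BB l E V) *ᵥ w)| ≤ 9 / 80 * NK b ε w)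
    (w : Tor d M → ℝ) : |ip w ((BB l E V - cvM b) *ᵥ w)| ≤ 1 / 4 * NK b ε w := by
  have hmG : MeasurableSet (Gd d M δ z μ) := (hM d M l E δ z μ).2.2
  set G := Gd d M δ z μ with hGdef
  set P := gau d M v with hPdef
  set m := (P G).toReal with hmdef
  have hm0 : 0 < m := by linarith only [hm]
  have hN0 := NK_nonneg b ε w
  have hNg := NK_ge hF b hε w
  have hI := fun x y => int_BB hM hG hP hδ v x y
  -- the identity
  have hb : ∀ x y, ∫ V' in G, BB l E V' x y ∂P = m * b (y - x) := by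
    intro x y
    rw [← hmean x y]
    field_simp
  have hId : ∫ V' in G, ip w ((BB l E V - BB l E V') *ᵥ w) ∂P =
      m * ip w ((BB l E V - cvM b) *ᵥ w) := by
    have e1 : ∀ V' : Tor d M → ℝ, ip w ((BB l E V - BB l E V') *ᵥ w) =
        ∑ x, ∑ y, (w x * w y * BB l E V x y - w x * w y * BB l E V' x y) := by
      intro V'
      rw [ip_mulVec_eq]
      refine Finset.sum_congr rfl fun x _ => Finset.sum_congr rfl fun y _ => ?_
      rw [Matrix.sub_apply]
      ring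
    have e2 : ∀ x y : Tor d M, ∫ V' in G, (w x * w y * BB l E V x y -
        w x * w y * BB l E V' x y) ∂P = m * (w x * w y * (BB l E V - cvM b) x y) := by
      intro x y
      rw [integral_sub (integrable_const _) ((hI x y).const_mul _), integral_const,
        integral_const_mul, hb x y]
      simp only [Matrix.sub_apply, cvM, Matrix.of_apply, smul_eq_mul]
      have : (P.restrict G).real Set.univ = m := by
        rw [measureReal_restrict_apply MeasurableSet.univ, Set.univ_inter]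
        rfl
      rw [this]
      ring
    have hi : ∀ x y : Tor d M, Integrable (fun V' => w x * w y * BB l E V x y -
        w x * w y * BB l E V' x y) (P.restrict G) := fun x y =>
      (integrable_const _).sub ((hI x y).const_mul _)
    have hi2 : ∀ x : Tor d M, Integrable (fun V' => ∑ y, (w x * w y * BB l E V x y -
        w x * w y * BB l E V' x y)) (P.restrict G) := fun x =>
      integrable_finsetSum _ fun y _ => hi x y
    have e3 : (fun V' : Tor d M → ℝ => ip w ((BB l E V - BB l E V') *ᵥ w)) =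
        fun V' => ∑ x, ∑ y, (w x * w y * BB l E V x y - w x * w y * BB l E V' x y) := funext e1
    rw [e3, integral_finsetSum _ fun x _ => hi2 x, ip_mulVec_eq, Finset.mul_sum]
    refine Finset.sum_congr rfl fun x _ => ?_
    rw [integral_finsetSum _ fun y _ => hi x y, Finset.mul_sum]
    exact Finset.sum_congr rfl fun y _ => e2 x y
  -- the pointwise bound
  have hpt : ∀ V' ∈ G, ‖ip w ((BB l E V - BB l E V') *ᵥ w)‖ ≤
      9 / 80 * NK b ε w + B.indicator (fun _ => 2 / ε * NK b ε w) V' := by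
    intro V' hV'
    rw [Real.norm_eq_abs]
    by_cases hb' : V' ∈ B
    · rw [Set.indicator_of_mem hb', ip_sub_mulVec]
      have g1 := hG d M l z μ E V hP (flat_mono hP.hμ hδ hV)
      have g2 := hG d M l z μ E V' hP (flat_mono hP.hμ hδ hV')
      have a1 := g1.2.2.2.2.2.1 w
      have a2 := g1.2.2.2.2.2.2.1 w
      have a3 := g2.2.2.2.2.2.1 w
      have a4 := g2.2.2.2.2.2.2.1 w
      have a5 : |ip w (BB l E V *ᵥ w) - ip w (BB l E V' *ᵥ w)| ≤ 2 * sqn w :=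
        abs_le.2 ⟨by linarith, by linarith⟩
      have a6 : 2 * sqn w ≤ 2 / ε * NK b ε w := by
        rw [div_mul_eq_mul_div, le_div_iff₀ hε]
        linarith
      linarith
    · rw [Set.indicator_of_notMem hb', add_zero, ← abs_neg]
      have := hgood V' hb' w
      have e : -ip w ((BB l E V - BB l E V') *ᵥ w) = ip w ((BB l E V' - BB l E V) *ᵥ w) := by
        rw [ip_sub_mulVec, ip_sub_mulVec]
        ring
      rw [e]
      exact this
  have hgi : Integrable (fun V' => 9 / 80 * NK b ε w +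
      B.indicator (fun _ => 2 / ε * NK b ε w) V') (P.restrict G) :=
    (integrable_const _).add ((integrable_const _).indicator hB)
  have hmain := norm_integral_le_of_norm_le hgi (ae_restrict_of_forall_mem hmG hpt)
  rw [hId, Real.norm_eq_abs, integral_add (integrable_const _)
    ((integrable_const _).indicator hB), integral_const, integral_indicator_const _ hB,
    abs_mul, abs_of_pos hm0] at hmain
  have hu : (P.restrict G).real Set.univ = m := by
    rw [measureReal_restrict_apply MeasurableSet.univ, Set.univ_inter]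
    rfl
  have hBr : (P.restrict G).real B ≤ ε / 100 := by
    rw [measureReal_restrict_apply hB]
    exact (measureReal_mono Set.inter_subset_left).trans hBε
  rw [hu, smul_eq_mul, smul_eq_mul] at hmain
  have h5 : (P.restrict G).real B * (2 / ε * NK b ε w) ≤ ε / 100 * (2 / ε * NK b ε w) :=
    mul_le_mul_of_nonneg_right hBr (by positivity)
  have h6 : ε / 100 * (2 / ε * NK b ε w) = 1 / 50 * NK b ε w := by field_simp; ring
  have h7 : 1 / 50 * NK b ε w ≤ m * (1 / 25 * NK b ε w) := by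
    have := mul_le_mul_of_nonneg_right hm (show 0 ≤ 1 / 25 * NK b ε w by positivity)
    linarith
  have h8 : m * |ip w ((BB l E V - cvM b) *ᵥ w)| ≤ m * (1 / 4 * NK b ε w) := by
    have h9 : m * (9 / 80 * NK b ε w) + m * (1 / 25 * NK b ε w) ≤ m * (1 / 4 * NK b ε w) := by
      rw [← mul_add]
      refine mul_le_mul_of_nonneg_left ?_ hm0.le
      linarith
    linarith
  exact le_of_mul_le_mul_left h8 hm0

/-! ### the probability of the bad pairs -/

theorem prob_badD (hM : MeasStmt) {l : ℕ} {z μ E : ℝ} {b : Tor d M → ℝ} {ε s ρ : ℝ} {v : ℝ≥0}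
    {q : ℝ≥0∞} (h : ∀ V : Tor d M → ℝ, FlatD (1 / 50) z μ V →
      gau d M v {D | (∀ y, |D y| ≤ s) ∧ ∃ w, ρ * NK b ε w < |dB l E V D w|} ≤ q) :
    ((gau d M v).prod (gau d M v)) (badD l z μ E b ε s ρ) ≤ q := by
  rw [Measure.prod_apply (meas_badD hM l z μ E b ε s ρ)]
  calc ∫⁻ V, gau d M v (Prod.mk V ⁻¹' badD l z μ E b ε s ρ) ∂(gau d M v) ≤
        ∫⁻ _, q ∂(gau d M v) := by
        refine lintegral_mono fun V => ?_
        by_cases hV : FlatD (1 / 50) z μ V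
        · refine (measure_mono ?_).trans (h V hV)
          rintro D ⟨_, h2⟩
          exact h2
        · have : Prod.mk V ⁻¹' badD l z μ E b ε s ρ = ∅ := by
            ext D
            simp only [Set.mem_preimage, Set.mem_empty_iff_false, iff_false]
            rintro ⟨h1, _⟩
            exact hV h1
          rw [this, measure_empty]
          exact bot_le
    _ = q := by rw [lintegral_const, measure_univ, mul_one]

/-- the bad pairs at the angle `a` -/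
def badP (l : ℕ) (z μ E : ℝ) (b : Tor d M → ℝ) (ε ρ a : ℝ) :
    Set ((Tor d M → ℝ) × (Tor d M → ℝ)) :=
  {q | ¬ (FlatD (1 / 50) z μ (rotV a q.1 q.2) ∧
    ∀ w, |dB l E (rotV a q.1 q.2) (rotD a q.1 q.2) w| ≤ ρ * NK b ε w)}

theorem prob_badP (hM : MeasStmt) (hR : RotStmt) {l : ℕ} {z μ E : ℝ} {b : Tor d M → ℝ}
    {ε s ρ : ℝ} {v : ℝ≥0} {q1 q2 q3 : ℝ≥0∞} (a : ℝ)
    (h1 : gau d M v (Gd d M (1 / 50) z μ)ᶜ ≤ q1)
    (h2 : gau d M v {D | ¬ ∀ y, |D y| ≤ s} ≤ q2)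
    (h : ∀ V : Tor d M → ℝ, FlatD (1 / 50) z μ V →
      gau d M v {D | (∀ y, |D y| ≤ s) ∧ ∃ w, ρ * NK b ε w < |dB l E V D w|} ≤ q3) :
    ((gau d M v).prod (gau d M v)) (badP l z μ E b ε ρ a) ≤ q1 + q2 + q3 := by
  have hmG : MeasurableSet (Gd d M (1 / 50) z μ) := (hM d M l E (1 / 50) z μ).2.2
  have hmD : MeasurableSet {D : Tor d M → ℝ | ¬ ∀ y, |D y| ≤ s} := by
    refine MeasurableSet.compl (s := {D : Tor d M → ℝ | ∀ y, |D y| ≤ s}) ?_
    have : {D : Tor d M → ℝ | ∀ y, |D y| ≤ s} = ⋂ y, {D | |D y| ≤ s} := by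
      ext D
      constructor
      · intro h
        exact Set.mem_iInter.2 h
      · intro h
        have h2 := Set.mem_iInter.1 h
        exact h2
    rw [this]
    exact MeasurableSet.iInter fun y => measurableSet_le (measurable_pi_apply y).norm
      measurable_const
  have hrot := hR (Tor d M) v a
  have hsub : badP l z μ E b ε ρ a ⊆
      (fun q : (Tor d M → ℝ) × (Tor d M → ℝ) => (rotV a q.1 q.2, rotD a q.1 q.2)) ⁻¹'
        (((Gd d M (1 / 50) z μ)ᶜ ×ˢ Set.univ) ∪ (Set.univ ×ˢ {D | ¬ ∀ y, |D y| ≤ s}) ∪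
          badD l z μ E b ε s ρ) := by
    rintro q hq
    by_cases c1 : FlatD (1 / 50) z μ (rotV a q.1 q.2)
    · by_cases c2 : ∀ y, |rotD a q.1 q.2 y| ≤ s
      · refine Or.inr ⟨c1, c2, ?_⟩
        by_contra hcon
        push Not at hcon
        exact hq ⟨c1, hcon⟩
      · exact Or.inl (Or.inr ⟨Set.mem_univ _, c2⟩)
    · exact Or.inl (Or.inl ⟨c1, Set.mem_univ _⟩)
  refine (measure_mono hsub).trans ?_
  have hmS := ((hmG.compl.prod MeasurableSet.univ).union (MeasurableSet.univ.prod hmD)).union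
    (meas_badD hM l z μ E b ε s ρ)
  have e := hrot.measure_preimage hmS.nullMeasurableSet
  refine (le_of_eq e).trans ?_
  refine (measure_union_le _ _).trans (add_le_add ((measure_union_le _ _).trans
    (add_le_add ?_ ?_)) (prob_badD hM h))
  · have := Measure.prod_prod (μ := gau d M v) (ν := gau d M v)
      ((Gd d M (1 / 50) z μ)ᶜ) Set.univ
    rw [measure_univ, mul_one] at this
    exact (le_of_eq this).trans h1
  · have := Measure.prod_prod (μ := gau d M v) (ν := gau d M v)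
      Set.univ {D : Tor d M → ℝ | ¬ ∀ y, |D y| ≤ s}
    rw [measure_univ, one_mul] at this
    exact (le_of_eq this).trans h2

/-- Markov inequality for sections -/
theorem markov {X : Type} [MeasurableSpace X] (P : Measure X) [IsProbabilityMeasure P]
    (S : Set (X × X)) (hS : MeasurableSet S) {q : ℝ≥0∞} (hq : (P.prod P) S ≤ q) {c : ℝ}
    (hc : 0 < c) :
    P {x | ENNReal.ofReal c ≤ P (Prod.mk x ⁻¹' S)} ≤ q / ENNReal.ofReal c := by
  have h1 := meas_ge_le_lintegral_div (μ := P)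
    (measurable_measure_prodMk_left (ν := P) hS).aemeasurable
    (ε := ENNReal.ofReal c) (by simpa using hc) ENNReal.ofReal_ne_top
  refine h1.trans (ENNReal.div_le_div_right ?_ _)
  rw [← Measure.prod_apply hS]
  exact hq

/-! ### constants -/

theorem exp_pow_le {K : ℕ} (hM : 3 ≤ M) :
    (M : ℝ) ^ d * Real.exp (-(((K + d : ℕ) : ℝ) * Real.log M)) = 1 / (M : ℝ) ^ K := by
  have hM0 : (0 : ℝ) < M := by positivity
  rw [Real.exp_neg, Real.exp_nat_mul, Real.exp_log hM0, pow_add]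
  field_simp

theorem log_ge_one (hM : 3 ≤ M) : 1 ≤ Real.log M := by
  have h3 : (3 : ℝ) ≤ M := by exact_mod_cast hM
  rw [Real.le_log_iff_exp_le (by linarith only [h3])]
  have := Real.exp_one_lt_d9
  linarith only [h3, this]

theorem avg (hM : MeasStmt) (hKhb : KhbStmt) (hRot : RotStmt) (hPath : PathStmt)
    (hG : GapStmt) (hF : FourStmt) : AvgStmt := by
  intro d hd K
  obtain ⟨C1, hC1, hPath⟩ := hPath d hd
  obtain ⟨C2, hC2, hKhb⟩ := hKhb d hd
  refine ⟨300 * (C1 + 2) + 1 + 19200 * ((K + d : ℕ) : ℝ) ^ 2 * C2, by positivity, ?_⟩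
  intro M l _ z μ E δ v b ε Cg p hPar hδ0 hδ hv hbe hmean hε hε2 hlM hCg hKG hbig hp0 hp2 hGd
  have hM3 := hPar.hM
  have hL := log_ge_one hM3
  set L := Real.log M with hLdef
  set A : ℝ := ((K + d : ℕ) : ℝ) with hA
  have hA1 : 1 ≤ A := by
    rw [hA]
    exact_mod_cast (show 1 ≤ K + d by omega)
  have hAL : 1 ≤ A * L := by nlinarith only [hL, hA1]
  have hv0 : (0 : ℝ) < v := by exact_mod_cast hv
  have hMr : (3 : ℝ) ≤ M := by exact_mod_cast hM3
  have hM0 : (0 : ℝ) < M := by linarith only [hε, hε2, hMr]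
  have hl1 : (1 : ℝ) ≤ l := by exact_mod_cast hPar.hl
  have hl0 : (0 : ℝ) < l := by linarith only [hε, hε2, hl1]
  -- the parameters
  set s := Real.sqrt (2 * A * v * L) with hs
  have hs2 : s ^ 2 = 2 * A * v * L := Real.sq_sqrt (by positivity)
  set pk := ⌈A * L⌉₊ with hpk
  have hpk1 : 1 ≤ pk := Nat.one_le_ceil_iff.2 (by linarith only [hε, hε2, hAL])
  have hpk2 : A * L ≤ pk := Nat.le_ceil _
  have hpk3 : (pk : ℝ) ≤ 2 * (A * L) := by
    have := Nat.ceil_lt_add_one (show 0 ≤ A * L by linarith only [hε, hε2, hAL])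
    rw [← hpk] at this
    linarith only [hAL, this]
  set X : ℝ := Cg * v * L ^ (d + 2) * Real.log (1 / ε) * (l : ℝ) ^ 4 with hX
  have hlogε : 0 ≤ Real.log (1 / ε) := by
    refine Real.log_nonneg ?_
    rw [le_div_iff₀ hε]
    linarith only [hε, hε2]
  have hX0 : 0 ≤ X := by positivity
  have hld : (0 : ℝ) < (l : ℝ) ^ d := by positivity
  have hbig2 : 19200 * A ^ 2 * C2 * X ≤ ε * (l : ℝ) ^ d := by
    have e : (300 * (C1 + 2) + 1 + 19200 * A ^ 2 * C2) * Cg * v * L ^ (d + 2) *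
        Real.log (1 / ε) * (l : ℝ) ^ 4 = (300 * (C1 + 2) + 1) * X + 19200 * A ^ 2 * C2 * X := by
      rw [hX]; ring
    rw [e] at hbig
    have : 0 ≤ (300 * (C1 + 2) + 1) * X := by positivity
    linarith only [hbig, this]
  have hbase : (pk : ℝ) * C2 * Cg * s ^ 2 * L ^ d * Real.log (1 / ε) * (l : ℝ) ^ 4 /
      ((l : ℝ) ^ d * ε * (1 / 40) ^ 2) ≤ Real.exp (-1) := by
    have h1 : (pk : ℝ) * C2 * Cg * s ^ 2 * L ^ d * Real.log (1 / ε) * (l : ℝ) ^ 4 ≤
        4 * A ^ 2 * C2 * X := by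
      have e1 : (pk : ℝ) * C2 * Cg * s ^ 2 * L ^ d * Real.log (1 / ε) * (l : ℝ) ^ 4 =
          pk * (C2 * Cg * (2 * A * v * L) * L ^ d * Real.log (1 / ε) * (l : ℝ) ^ 4) := by
        rw [hs2]; ring
      have e2 : 4 * A ^ 2 * C2 * X = 2 * (A * L) *
          (C2 * Cg * (2 * A * v * L) * L ^ d * Real.log (1 / ε) * (l : ℝ) ^ 4) := by
        rw [hX]; ring
      rw [e1, e2]
      exact mul_le_mul_of_nonneg_right hpk3 (by positivity)
    have h2 : Real.exp 1 ≤ 3 := by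
      have := Real.exp_one_lt_d9
      linarith only [hε, hε2, this]
    rw [Real.exp_neg, div_le_iff₀ (by positivity)]
    have h3 : (1 : ℝ) / 3 ≤ (Real.exp 1)⁻¹ := by
      rw [one_div]
      exact inv_anti₀ (Real.exp_pos 1) h2
    have h4 : 1 / 3 * ((l : ℝ) ^ d * ε * (1 / 40) ^ 2) ≤
        (Real.exp 1)⁻¹ * ((l : ℝ) ^ d * ε * (1 / 40) ^ 2) :=
      mul_le_mul_of_nonneg_right h3 (by positivity)
    have h5 : 4 * A ^ 2 * C2 * X ≤ 1 / 3 * ((l : ℝ) ^ d * ε * (1 / 40) ^ 2) := by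
      linarith only [hbig2]
    linarith only [hbig2, h1, h4]
  have hdir : ∀ V : Tor d M → ℝ, FlatD (1 / 50) z μ V →
      gau d M v {D | (∀ y, |D y| ≤ s) ∧ ∃ w, 1 / 40 * NK b ε w < |dB l E V D w|} ≤
        ENNReal.ofReal (1 / (M : ℝ) ^ K) := by
    intro V hV
    refine (hKhb M l z μ E V b ε Cg s (1 / 40) v pk hPar hV hbe hε hε2 hCg hKG
      (Real.sqrt_nonneg _) (by norm_num) hpk1).trans (ENNReal.ofReal_le_ofReal ?_)
    rw [← exp_pow_le (d := d) (K := K) hM3]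
    refine mul_le_mul_of_nonneg_left ?_ (by positivity)
    refine (pow_le_pow_left₀ (by positivity) hbase pk).trans ?_
    rw [← Real.exp_nat_mul]
    refine Real.exp_le_exp.2 ?_
    rw [mul_neg_one]
    linarith only [hpk2]
  have htail : gau d M v {D | ¬ ∀ y, |D y| ≤ s} ≤ ENNReal.ofReal (2 * (1 / (M : ℝ) ^ K)) := by
    refine (gau_tail hv (Real.sqrt_nonneg _)).trans (ENNReal.ofReal_le_ofReal (le_of_eq ?_))
    rw [← exp_pow_le (d := d) (K := K) hM3, hs2]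
    have : -(2 * A * v * L / (2 * v)) = -(A * L) := by field_simp
    rw [this]
    ring
  have hsubG : Gd d M δ z μ ⊆ Gd d M (1 / 50) z μ := fun V hV => flat_mono hPar.hμ hδ hV
  have hflat : gau d M v (Gd d M (1 / 50) z μ)ᶜ ≤ ENNReal.ofReal p :=
    (measure_mono (Set.compl_subset_compl.2 hsubG)).trans hGd
  have hK0 : (0 : ℝ) ≤ 1 / (M : ℝ) ^ K := by positivity
  set q0 : ℝ := p + 3 * (1 / (M : ℝ) ^ K) with hq0
  have hq00 : 0 ≤ q0 := by positivity
  have hpair : ∀ a : ℝ, ((gau d M v).prod (gau d M v)) (badP l z μ E b ε (1 / 40) a) ≤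
      ENNReal.ofReal q0 := by
    intro a
    refine (prob_badP hM hRot a hflat htail hdir).trans (le_of_eq ?_)
    rw [← ENNReal.ofReal_add hp0 (by positivity), ← ENNReal.ofReal_add (by positivity) hK0]
    congr 1
    rw [hq0]
    ring
  -- the number of steps
  set N := ⌈C1 * (l : ℝ) ^ 4 / ε⌉₊ with hN
  have hN1 : 1 ≤ N := Nat.one_le_ceil_iff.2 (by positivity)
  have hN2 : C1 * (l : ℝ) ^ 4 / ε ≤ N := Nat.le_ceil _
  have hN3 : (N : ℝ) ≤ C1 * (l : ℝ) ^ 4 / ε + 1 :=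
    (Nat.ceil_lt_add_one (by positivity)).le
  have hεM : 1 / ε ≤ M := by
    rw [div_le_iff₀ hε]
    linarith only [hlM, hl1]
  have hN4 : ((N + 1 : ℕ) : ℝ) ≤ (C1 + 2) * (M : ℝ) ^ 5 := by
    have hlM' : (l : ℝ) ≤ M := by nlinarith only [hε, hε2, hlM, hMr]
    have h1 : (l : ℝ) ^ 4 ≤ (M : ℝ) ^ 4 := pow_le_pow_left₀ hl0.le hlM' 4
    have h2 : C1 * (l : ℝ) ^ 4 / ε ≤ C1 * (M : ℝ) ^ 5 := by
      calc C1 * (l : ℝ) ^ 4 / ε = C1 * (l : ℝ) ^ 4 * (1 / ε) := by ring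
        _ ≤ C1 * (M : ℝ) ^ 4 * M :=
            mul_le_mul (mul_le_mul_of_nonneg_left h1 hC1.le) hεM (by positivity) (by positivity)
        _ = C1 * (M : ℝ) ^ 5 := by ring
    have h3 : (1 : ℝ) ≤ (M : ℝ) ^ 5 := one_le_pow₀ (by linarith only [hε, hε2, hMr])
    push_cast
    linarith only [hN3, h2, h3]
  -- the bad set of pairs
  set S : Set ((Tor d M → ℝ) × (Tor d M → ℝ)) :=
    ⋃ j ∈ Finset.range (N + 1), badP l z μ E b ε (1 / 40) (ang N j) with hS
  have hSq : ((gau d M v).prod (gau d M v)) S ≤ ENNReal.ofReal (((N + 1 : ℕ) : ℝ) * q0) := by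
    refine (measure_biUnion_finset_le _ _).trans ?_
    refine (Finset.sum_le_sum fun j _ => hpair (ang N j)).trans (le_of_eq ?_)
    rw [Finset.sum_const, Finset.card_range, nsmul_eq_mul, ENNReal.ofReal_mul (by positivity),
      ENNReal.ofReal_natCast]
  set S' := toMeasurable ((gau d M v).prod (gau d M v)) S with hS'
  have hS'm : MeasurableSet S' := measurableSet_toMeasurable _ _
  have hSS' : S ⊆ S' := subset_toMeasurable _ _
  have hS'q : ((gau d M v).prod (gau d M v)) S' ≤ ENNReal.ofReal (((N + 1 : ℕ) : ℝ) * q0) := by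
    rw [hS', measure_toMeasurable]
    exact hSq
  have hmk := markov (gau d M v) S' hS'm hS'q (c := ε / 100) (by positivity)
  -- the probability of the good set
  have hmG : MeasurableSet (Gd d M δ z μ) := (hM d M l E δ z μ).2.2
  have hhalf : 1 / 2 ≤ (gau d M v (Gd d M δ z μ)).toReal := by
    have h1 : (gau d M v).real (Gd d M δ z μ)ᶜ ≤ p := by
      have := ENNReal.toReal_mono ENNReal.ofReal_ne_top hGd
      rwa [ENNReal.toReal_ofReal hp0] at this
    have h2 := probReal_compl_eq_one_sub (μ := gau d M v) hmG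
    have h3 : (gau d M v (Gd d M δ z μ)).toReal = (gau d M v).real (Gd d M δ z μ) := rfl
    rw [h3]
    linarith
  have hincl : {V : Tor d M → ℝ | ¬ (FlatD δ z μ V ∧
      ∀ w, |ip w ((BB l E V - cvM b) *ᵥ w)| ≤ 1 / 4 * NK b ε w)} ⊆
      (Gd d M δ z μ)ᶜ ∪ {V | ENNReal.ofReal (ε / 100) ≤ gau d M v (Prod.mk V ⁻¹' S')} := by
    intro V hV
    by_contra hcon
    rw [Set.mem_union, not_or] at hcon
    obtain ⟨c1, c2⟩ := hcon
    have hVf : FlatD δ z μ V := by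
      by_contra h
      exact c1 h
    have c3 : gau d M v (Prod.mk V ⁻¹' S') < ENNReal.ofReal (ε / 100) := not_le.1 c2
    refine hV ⟨hVf, fun w => ?_⟩
    refine good_V hM hG hF hPar hδ hmean hε hhalf hVf (B := Prod.mk V ⁻¹' S')
      (measurable_prodMk_left hS'm) ?_ ?_ w
    · have := ENNReal.toReal_mono ENNReal.ofReal_ne_top c3.le
      rwa [ENNReal.toReal_ofReal (by positivity)] at this
    · intro V' hV' w
      have hnot : ∀ j ∈ Finset.range (N + 1), (V, V') ∉ badP l z μ E b ε (1 / 40) (ang N j) := by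
        intro j hj hb
        exact hV' (hSS' (Set.mem_biUnion hj hb))
      have hok : ∀ j ≤ N, FlatD (1 / 50) z μ (rotV (ang N j) V V') ∧
          ∀ w, |dB l E (rotV (ang N j) V V') (rotD (ang N j) V V') w| ≤ 1 / 40 * NK b ε w := by
        intro j hj
        have := hnot j (Finset.mem_range.2 (by omega))
        unfold badP at this
        simpa only [Set.mem_ofPred_eq, not_not] using this
      have h9 := hPath M l z μ E b ε (1 / 40) N V V' hPar hε (by linarith only [hε, hε2]) (by norm_num) hN1 hN2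
        (fun j hj => (hok j hj).1) (fun j hj => (hok j hj.le).2) w
      refine h9.trans (le_of_eq ?_)
      ring
  refine (measure_mono hincl).trans ((measure_union_le _ _).trans ((add_le_add hGd hmk).trans ?_))
  rw [← ENNReal.ofReal_div_of_pos (by positivity), ← ENNReal.ofReal_add hp0 (by positivity)]
  refine ENNReal.ofReal_le_ofReal ?_
  have hMK : 0 ≤ p + 1 / (M : ℝ) ^ K := by positivity
  have e1 : ((N + 1 : ℕ) : ℝ) * q0 / (ε / 100) = 100 * (((N + 1 : ℕ) : ℝ) * q0 * (1 / ε)) := by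
    field_simp
  have h1 : q0 ≤ 3 * (p + 1 / (M : ℝ) ^ K) := by
    rw [hq0]
    linarith only [hp0]
  have h2 : ((N + 1 : ℕ) : ℝ) * q0 * (1 / ε) ≤
      (C1 + 2) * (M : ℝ) ^ 5 * (3 * (p + 1 / (M : ℝ) ^ K)) * M :=
    mul_le_mul (mul_le_mul hN4 h1 hq00 (by positivity)) hεM (by positivity) (by positivity)
  have h3 : (M : ℝ) ^ 5 * M ≤ (M : ℝ) ^ 7 := by
    have : (M : ℝ) ^ 7 = (M : ℝ) ^ 5 * M * M := by ring
    rw [this]
    exact le_mul_of_one_le_right (by positivity) (by linarith only [hε, hε2, hMr])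
  have h4 : (1 : ℝ) ≤ (M : ℝ) ^ 7 := one_le_pow₀ (by linarith only [hε, hε2, hMr])
  have h5 : p ≤ (M : ℝ) ^ 7 * (p + 1 / (M : ℝ) ^ K) := by
    calc p ≤ p + 1 / (M : ℝ) ^ K := by linarith only [hK0]
      _ ≤ (M : ℝ) ^ 7 * (p + 1 / (M : ℝ) ^ K) := le_mul_of_one_le_left hMK h4
  have h6 : (C1 + 2) * (M : ℝ) ^ 5 * (3 * (p + 1 / (M : ℝ) ^ K)) * M ≤
      3 * (C1 + 2) * ((M : ℝ) ^ 7 * (p + 1 / (M : ℝ) ^ K)) := by
    calc (C1 + 2) * (M : ℝ) ^ 5 * (3 * (p + 1 / (M : ℝ) ^ K)) * M =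
          3 * (C1 + 2) * ((M : ℝ) ^ 5 * M * (p + 1 / (M : ℝ) ^ K)) := by ring
      _ ≤ _ := mul_le_mul_of_nonneg_left (mul_le_mul_of_nonneg_right h3 hMK) (by positivity)
  have h7 : 0 ≤ 19200 * A ^ 2 * C2 * ((M : ℝ) ^ 7 * (p + 1 / (M : ℝ) ^ K)) := by positivity
  calc p + ((N + 1 : ℕ) : ℝ) * q0 / (ε / 100) ≤
        (M : ℝ) ^ 7 * (p + 1 / (M : ℝ) ^ K) +
          100 * (3 * (C1 + 2) * ((M : ℝ) ^ 7 * (p + 1 / (M : ℝ) ^ K))) := by
        rw [e1]
        linarith only [h2, h5, h6]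
    _ ≤ (300 * (C1 + 2) + 1 + 19200 * A ^ 2 * C2) * (M : ℝ) ^ 7 * (p + 1 / (M : ℝ) ^ K) := by
        linarith only [h7]

end Pool.Agent.IR.H85A
end
end -- Pool.Agent.Helper85_IR.Avg

section -- Pool.Agent.Helper96_AHH.Core

/-!
# AND2B: the steps of the budget, inequalities between real numbers

`stage`: one stage, from the clock `s` to `th s`; `rel`: one release phase at the clock `s`, `σ` is the
clock at the start of the super-stage. `X` is the change made by the regauging.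
-/

set_option autoImplicit false

open Filter Topology

noncomputable section

namespace Pool.Agent.AHH.H96

open Pool.Agent.AND.Num

/-- the logarithm of a power of `1 / (th s)` -/
theorem log_bd (th s Cw : ℝ) (hth : 1 / 2 ≤ th) (_hth1 : th ≤ 1) (hs : 0 < s) (hs1 : s ≤ 1)
    (hCw : 1 ≤ Cw) : 1 + Real.log (Cw * (th * s) ^ (-Cw)) ≤ (1 + 2 * Cw) * (1 + |Real.log s|) := by
  have hts : 0 < th * s := by positivity
  have h1 : Real.log (Cw * (th * s) ^ (-Cw)) = Real.log Cw + -Cw * Real.log (th * s) := by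
    rw [Real.log_mul (by positivity) (by positivity), Real.log_rpow hts]
  have h2 : Real.log (th * s) = Real.log th + Real.log s := Real.log_mul (by positivity) hs.ne'
  have h3 : Real.log Cw ≤ Cw - 1 := Real.log_le_sub_one_of_pos (by linarith only [hCw])
  have h4 : -Real.log th ≤ 1 := by
    have h5 : Real.log (1 / 2) ≤ Real.log th := Real.log_le_log (by norm_num) hth
    have h6 : Real.log (1 / 2) = -Real.log 2 := by rw [one_div, Real.log_inv]
    have h7 := Real.log_two_lt_d9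
    linarith only [h5, h6, h7]
  have h8 : -Real.log s = |Real.log s| := by
    rw [abs_of_nonpos (Real.log_nonpos hs.le hs1)]
  rw [h1, h2]
  have h9 := abs_nonneg (Real.log s)
  have h10 : -Cw * (Real.log th + Real.log s) = Cw * (-Real.log th) + Cw * |Real.log s| := by
    rw [← h8]
    ring
  rw [h10]
  nlinarith only [hCw, h3, h4, h9]

/-- the correction of the gauge is small -/
theorem small_X (Cr Cw Cp B p q : ℝ) (hCr : 0 ≤ Cr) (hCw : 1 ≤ Cw) (hCp : 0 ≤ Cp) (hB : 0 ≤ B)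
    (hpq : q < p) (hp8 : p ≤ 1 / 8) :
    Small fun s => ∀ th : ℝ, 1 / 2 ≤ th → th ≤ 1 →
      Cr * (1 + Real.log (Cw * (th * s) ^ (-Cw))) * (B * s ^ (1 / 8 : ℝ) + Cp * s ^ p) ≤ s ^ q := by
  have h0 := small_pow_log (2 * (Cr * (1 + 2 * Cw) * (B + Cp))) p q 0 hpq
  have h1 := small_pow_log (2 * (Cr * (1 + 2 * Cw) * (B + Cp))) p q 1 hpq
  refine ((h0.and h1).and (small_le 1 one_pos)).mono fun s hs ⟨⟨h0, h1⟩, hs1⟩ th hth hth1 => ?_
  have hl := log_bd th s Cw hth hth1 hs hs1 hCw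
  have h2 : s ^ (1 / 8 : ℝ) ≤ s ^ p := rpow_anti hs hs1 hp8
  have h3 : 0 < s ^ p := Real.rpow_pos_of_pos hs _
  have h4 : B * s ^ (1 / 8 : ℝ) + Cp * s ^ p ≤ (B + Cp) * s ^ p := by
    have := mul_le_mul_of_nonneg_left h2 hB
    linarith only [this]
  have h5 : 0 ≤ B * s ^ (1 / 8 : ℝ) + Cp * s ^ p := by
    have := Real.rpow_nonneg hs.le (1 / 8 : ℝ)
    positivity
  have h6 : 0 ≤ (1 + 2 * Cw) * (1 + |Real.log s|) := by
    have := abs_nonneg (Real.log s)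
    positivity
  rw [pow_zero, mul_one] at h0
  rw [pow_one] at h1
  calc Cr * (1 + Real.log (Cw * (th * s) ^ (-Cw))) * (B * s ^ (1 / 8 : ℝ) + Cp * s ^ p)
      ≤ Cr * ((1 + 2 * Cw) * (1 + |Real.log s|)) * ((B + Cp) * s ^ p) := by
        refine mul_le_mul (mul_le_mul_of_nonneg_left hl hCr) h4 h5 (by positivity)
    _ = (2 * (Cr * (1 + 2 * Cw) * (B + Cp)) * s ^ p +
          2 * (Cr * (1 + 2 * Cw) * (B + Cp)) * |Real.log s| * s ^ p) / 2 := by ring
    _ ≤ (s ^ q + s ^ q) / 2 := by linarith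
    _ = s ^ q := by ring

/-- Minkowski: the step of `∑ |G|⁴` -/
theorem four (lam δ x : ℝ) (hlam : 0 < lam) (hδ : 0 ≤ δ) (hx : 0 ≤ x) (hx1 : x ≤ lam ^ (1 / 4 : ℝ)) :
    ((lam * (1 + δ)) ^ (1 / 4 : ℝ) + x) ^ 4 ≤
      lam * ((1 + δ) * (1 + 15 * (x / lam ^ (1 / 4 : ℝ)))) := by
  set a : ℝ := lam ^ (1 / 4 : ℝ) with ha
  have ha0 : 0 < a := Real.rpow_pos_of_pos hlam _
  set b : ℝ := (1 + δ) ^ (1 / 4 : ℝ) with hb
  have hb1 : 1 ≤ b := Real.one_le_rpow (by linarith only [hδ]) (by norm_num)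
  have ha4 : a ^ 4 = lam := by
    rw [ha, ← Real.rpow_natCast, ← Real.rpow_mul hlam.le]
    norm_num
  have hb4 : b ^ 4 = 1 + δ := by
    rw [hb, ← Real.rpow_natCast, ← Real.rpow_mul (by linarith only [hδ])]
    norm_num
  have h1 : (lam * (1 + δ)) ^ (1 / 4 : ℝ) = a * b := Real.mul_rpow hlam.le (by linarith only [hδ])
  obtain ⟨ρ, hρ⟩ : ∃ ρ, ρ = x / a := ⟨_, rfl⟩
  have hρ0 : 0 ≤ ρ := by rw [hρ]; positivity
  have hρ1 : ρ ≤ 1 := by rw [hρ, div_le_one ha0]; exact hx1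
  have hxa : x = a * ρ := by
    rw [hρ]
    field_simp
  rw [h1, ← hρ, hxa]
  have h2 : a * b + a * ρ ≤ a * b * (1 + ρ) := by
    have h3 : a * ρ * 1 ≤ a * ρ * b := mul_le_mul_of_nonneg_left hb1 (by positivity)
    linarith only [h3]
  have h3 : (1 + ρ) ^ 4 ≤ 1 + 15 * ρ := by
    have e2 : ρ ^ 2 ≤ ρ := by nlinarith only [hρ0, hρ1]
    have e3 : ρ ^ 3 ≤ ρ := by nlinarith only [hρ1, e2]
    have e4 : ρ ^ 4 ≤ ρ := by nlinarith only [e2, e3]
    nlinarith only [e2, e3, e4]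
  calc (a * b + a * ρ) ^ 4 ≤ (a * b * (1 + ρ)) ^ 4 := by gcongr
    _ = a ^ 4 * (b ^ 4 * (1 + ρ) ^ 4) := by ring
    _ = lam * ((1 + δ) * (1 + ρ) ^ 4) := by rw [ha4, hb4]
    _ ≤ lam * ((1 + δ) * (1 + 15 * ρ)) := by gcongr

/-- Bernoulli: `th ^ p ≤ 1 - p (1 - th)` -/
theorem pow_up (th p : ℝ) (hth : 0 < th) (hp : 0 ≤ p) (hp1 : p ≤ 1) :
    th ^ p ≤ 1 - p * (1 - th) := by
  have h := rpow_one_add_le_one_add_mul_self (s := th - 1) (by linarith) hp hp1
  have e : 1 + (th - 1) = th := by ring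
  rw [e] at h
  linarith

/-- `1 - 2 p (1 - th) ≤ th ^ p` -/
theorem pow_low (th p : ℝ) (hth : 1 / 2 ≤ th) (hth1 : th ≤ 1) (hp : 0 ≤ p) (hp1 : p ≤ 1) :
    1 - 2 * p * (1 - th) ≤ th ^ p := by
  have hth0 : 0 < th := by linarith only [hth]
  have h := rpow_one_add_le_one_add_mul_self (s := 1 / th - 1)
    (by have := one_div_pos.2 hth0; linarith only [this]) hp hp1
  have e : 1 + (1 / th - 1) = 1 / th := by ring
  rw [e, Real.div_rpow zero_le_one hth0.le, Real.one_rpow] at h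
  have hp0 : 0 < th ^ p := Real.rpow_pos_of_pos hth0 _
  have h1 : 1 / th - 1 ≤ 2 * (1 - th) := by
    rw [div_sub_one hth0.ne', div_le_iff₀ hth0]
    nlinarith only [hth, hth1]
  have h2 : 1 / th ^ p ≤ 1 + 2 * p * (1 - th) := by nlinarith only [hp, h, h1]
  rw [div_le_iff₀ hp0] at h2
  have h3 : 0 ≤ 2 * p * (1 - th) := by
    have : 0 ≤ 1 - th := by linarith only [hth1]
    positivity
  nlinarith only [h2, h3]

/-- ONE STAGE: `s` the clock, `th s` the next one. -/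
def StgP (Cr Cw Cp th ka s : ℝ) : Prop :=
  Cr * (1 + Real.log (Cw * (th * s) ^ (-Cw))) *
    (s ^ (1 / 8 : ℝ) + s ^ (1 / 8 - 1 / 200 : ℝ) * Cp) ≤ s ^ (1 / 9 : ℝ) ∧
  ∀ X : ℝ, 0 ≤ X → X ≤ s ^ (1 / 9 : ℝ) →
    s ^ (1 / 8 - 1 / 200 : ℝ) * Cp + X ≤ s ^ (1 / 20 : ℝ) * (1 - th ^ (1 / 20 : ℝ)) ∧
    X ^ 2 ≤ (th * s) ^ (1 / 8 : ℝ) ∧
    (∀ lam : ℝ, 1 / 4 * s ^ (-(3 / 4) : ℝ) ≤ lam →
      ((lam * (1 + (1 - th) / (8 * Cp) * Cp)) ^ (1 / 4 : ℝ) + X * (th * s) ^ (-(1 / 4) : ℝ)) ^ 4 ≤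
        th ^ (-(3 / 4) : ℝ) * lam) ∧
    (∀ y : ℝ, y ≤ s ^ (1 / 20 : ℝ) → s ^ (1 / 16 : ℝ) + y * Cp + X ≤
      s ^ (1 / 400 : ℝ) * (1 - th ^ (1 / 400 : ℝ))) ∧
    (∀ g : ℝ, 1 ≤ g → s ^ (ka / 2) * g * ((1 + th) / 2) + s ^ ka * Cp + X ≤
      th ^ (ka / 2) * (s ^ (ka / 2) * g)) ∧
    s ^ ka * Cp + X ≤ s ^ (ka / 4) * (1 - th ^ (ka / 4))

theorem stage (Cr Cw Cp th ka : ℝ) (hth : 1 / 2 ≤ th) (hth1 : th < 1) (hCr : 0 ≤ Cr)
    (hCw : 1 ≤ Cw) (hCp : 0 < Cp) (hka : 0 < ka) (hka1 : ka ≤ 1 / 10) :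
    Small (StgP Cr Cw Cp th ka) := by
  have hδ : 0 < 1 - th := by linarith only [hth1]
  have gap : ∀ p : ℝ, 0 < p → p ≤ 1 → 0 < 1 - th ^ p := fun p hp hp1 => by
    have := pow_up th p (by linarith only [hth, hka, hka1]) hp.le hp1
    have : 0 < p * (1 - th) := by positivity
    linarith
  have a1 := small_X Cr Cw Cp 1 (1 / 8 - 1 / 200) (1 / 9) hCr hCw hCp.le zero_le_one (by norm_num)
    (by norm_num)
  have a2 := small_pow' Cp ((1 - th ^ (1 / 20 : ℝ)) / 2) (1 / 8 - 1 / 200) (1 / 20)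
    (by have := gap (1 / 20) (by norm_num) (by norm_num); linarith only [this]) (by norm_num)
  have a3 := small_pow' 1 ((1 - th ^ (1 / 20 : ℝ)) / 2) (1 / 9) (1 / 20)
    (by have := gap (1 / 20) (by norm_num) (by norm_num); linarith) (by norm_num)
  have a4 := small_pow' 2 1 (2 / 9) (1 / 8) one_pos (by norm_num)
  have a5 := small_rpow_le ((1 - th) / 240) (7 / 144) (by positivity) (by norm_num)
  have b1 := small_pow' 1 ((1 - th ^ (1 / 400 : ℝ)) / 3) (1 / 16) (1 / 400)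
    (by have := gap (1 / 400) (by norm_num) (by norm_num); linarith only [this]) (by norm_num)
  have b2 := small_pow' Cp ((1 - th ^ (1 / 400 : ℝ)) / 3) (1 / 20) (1 / 400)
    (by have := gap (1 / 400) (by norm_num) (by norm_num); linarith only [this]) (by norm_num)
  have b3 := small_pow' 1 ((1 - th ^ (1 / 400 : ℝ)) / 3) (1 / 9) (1 / 400)
    (by have := gap (1 / 400) (by norm_num) (by norm_num); linarith only [this]) (by norm_num)
  have c1 := small_pow' Cp ((1 - th) / 8) ka (ka / 2) (by positivity) (by linarith only [hka])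
  have c2 := small_pow' 1 ((1 - th) / 8) (1 / 9) (ka / 2) (by positivity) (by linarith only [hka, hka1])
  have d1 := small_pow' Cp ((1 - th ^ (ka / 4)) / 2) ka (ka / 4)
    (by have := gap (ka / 4) (by positivity) (by linarith only [hka, hka1]); linarith only [this]) (by linarith only [hka])
  have d2 := small_pow' 1 ((1 - th ^ (ka / 4)) / 2) (1 / 9) (ka / 4)
    (by have := gap (ka / 4) (by positivity) (by linarith only [hka, hka1]); linarith only [this]) (by linarith only [hka, hka1])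
  refine ((((a1.and a2).and (a3.and a4)).and ((a5.and b1).and (b2.and b3))).and
    (((c1.and c2).and (d1.and d2)).and (small_le 1 one_pos))).mono fun s hs H => ?_
  obtain ⟨⟨⟨⟨a1, a2⟩, a3, a4⟩, ⟨a5, b1⟩, b2, b3⟩, ⟨⟨c1, c2⟩, d1, d2⟩, hs1⟩ := H
  have hth0 : 0 < th := by linarith only [hth, hka, hka1]
  refine ⟨?_, fun X hX0 hX => ⟨?_, ?_, ?_, ?_, ?_, ?_⟩⟩
  · have := a1 th hth hth1.le
    rw [one_mul] at this
    rw [mul_comm (s ^ (1 / 8 - 1 / 200 : ℝ)) Cp]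
    exact this
  · linarith only [a2, a3, hX]
  · have h1 : X ^ 2 ≤ s ^ (2 / 9 : ℝ) := by
      calc X ^ 2 ≤ (s ^ (1 / 9 : ℝ)) ^ 2 := by gcongr
        _ = s ^ (2 / 9 : ℝ) := by
            rw [← Real.rpow_natCast, ← Real.rpow_mul hs.le]
            norm_num
    have h2 : (1 / 2 : ℝ) ≤ th ^ (1 / 8 : ℝ) := by
      have := pow_low th (1 / 8) hth hth1.le (by norm_num) (by norm_num)
      linarith only [hth, hka, hka1, this]
    have h3 : 0 < s ^ (1 / 8 : ℝ) := Real.rpow_pos_of_pos hs _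
    rw [Real.mul_rpow hth0.le hs.le]
    nlinarith only [hka, hka1, a4, h1, h2]
  · intro lam hlam
    have h1 : 0 < s ^ (-(3 / 4) : ℝ) := Real.rpow_pos_of_pos hs _
    have hl0 : 0 < lam := by linarith only [hlam, h1]
    have h2 : (1 - th) / (8 * Cp) * Cp = (1 - th) / 8 := by
      field_simp
    rw [h2]
    -- `lam ^ (1/4) ≥ s ^ (-3/16) / 2`
    have h3 : 1 / 2 * s ^ (-(3 / 16) : ℝ) ≤ lam ^ (1 / 4 : ℝ) := by
      have h4 : (1 / 2 * s ^ (-(3 / 16) : ℝ)) ^ 4 ≤ lam := by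
        have h5 : (s ^ (-(3 / 16) : ℝ)) ^ 4 = s ^ (-(3 / 4) : ℝ) := by
          rw [← Real.rpow_natCast, ← Real.rpow_mul hs.le]
          norm_num
        rw [mul_pow, h5]
        linarith only [hlam, hl0]
      have h6 : 0 ≤ 1 / 2 * s ^ (-(3 / 16) : ℝ) := by positivity
      calc 1 / 2 * s ^ (-(3 / 16) : ℝ) = ((1 / 2 * s ^ (-(3 / 16) : ℝ)) ^ 4) ^ (1 / 4 : ℝ) := by
            rw [← Real.rpow_natCast, ← Real.rpow_mul h6]
            norm_num
        _ ≤ lam ^ (1 / 4 : ℝ) := Real.rpow_le_rpow (by positivity) h4 (by norm_num)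
    -- `x = X (th s) ^ (-1/4) ≤ 2 s ^ (1/9 - 1/4)`
    have h7 : (th * s) ^ (-(1 / 4) : ℝ) ≤ 2 * s ^ (-(1 / 4) : ℝ) := by
      rw [Real.mul_rpow hth0.le hs.le]
      have h8 : th ^ (-(1 / 4) : ℝ) ≤ 2 := by
        rw [Real.rpow_neg hth0.le]
        have h9 := pow_low th (1 / 4) hth hth1.le (by norm_num) (by norm_num)
        have h10 : (1 / 2 : ℝ) ≤ th ^ (1 / 4 : ℝ) := by linarith only [hth, hka, hka1, h9]
        rw [inv_le_comm₀ (by linarith only [hth, hka, hka1, h9]) (by norm_num)]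
        linarith only [hth, hka, hka1, h9]
      have := Real.rpow_nonneg hs.le (-(1 / 4) : ℝ)
      gcongr
    have h11 : X * (th * s) ^ (-(1 / 4) : ℝ) ≤ 2 * s ^ (-(5 / 36) : ℝ) := by
      have h12 : s ^ (1 / 9 : ℝ) * s ^ (-(1 / 4) : ℝ) = s ^ (-(5 / 36) : ℝ) := by
        rw [← Real.rpow_add hs]
        norm_num
      calc X * (th * s) ^ (-(1 / 4) : ℝ) ≤ s ^ (1 / 9 : ℝ) * (2 * s ^ (-(1 / 4) : ℝ)) := by
            have := Real.rpow_nonneg (mul_nonneg hth0.le hs.le) (-(1 / 4) : ℝ)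
            gcongr
        _ = 2 * s ^ (-(5 / 36) : ℝ) := by rw [← h12]; ring
    have h13 : s ^ (-(5 / 36) : ℝ) = s ^ (7 / 144 : ℝ) * s ^ (-(3 / 16) : ℝ) := by
      rw [← Real.rpow_add hs]
      norm_num
    have h14 : 0 < s ^ (-(3 / 16) : ℝ) := Real.rpow_pos_of_pos hs _
    have hx0 : 0 ≤ X * (th * s) ^ (-(1 / 4) : ℝ) :=
      mul_nonneg hX0 (Real.rpow_nonneg (mul_nonneg hth0.le hs.le) _)
    have hla : 0 < lam ^ (1 / 4 : ℝ) := Real.rpow_pos_of_pos hl0 _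
    have h15 : X * (th * s) ^ (-(1 / 4) : ℝ) ≤ (1 - th) / 60 * lam ^ (1 / 4 : ℝ) := by
      calc X * (th * s) ^ (-(1 / 4) : ℝ) ≤ 2 * (s ^ (7 / 144 : ℝ) * s ^ (-(3 / 16) : ℝ)) := by
            rw [← h13]; exact h11
        _ ≤ 2 * ((1 - th) / 240 * s ^ (-(3 / 16) : ℝ)) := by gcongr
        _ = (1 - th) / 60 * (1 / 2 * s ^ (-(3 / 16) : ℝ)) := by ring
        _ ≤ _ := by gcongr
    have h16 : X * (th * s) ^ (-(1 / 4) : ℝ) ≤ lam ^ (1 / 4 : ℝ) := by
      refine h15.trans ?_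
      nlinarith only [hth, h3, h14, hla]
    have h17 := four lam ((1 - th) / 8) (X * (th * s) ^ (-(1 / 4) : ℝ)) hl0 (by positivity) hx0 h16
    refine h17.trans ?_
    have h18 : X * (th * s) ^ (-(1 / 4) : ℝ) / lam ^ (1 / 4 : ℝ) ≤ (1 - th) / 60 := by
      rw [div_le_iff₀ hla]
      exact h15
    have h19 : 1 + 3 / 4 * (1 - th) ≤ th ^ (-(3 / 4) : ℝ) := by
      rw [Real.rpow_neg hth0.le]
      have h20 := pow_up th (3 / 4) hth0 (by norm_num) (by norm_num)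
      have h21 : 0 < th ^ (3 / 4 : ℝ) := Real.rpow_pos_of_pos hth0 _
      rw [le_inv_comm₀ (by positivity) h21]
      rw [← one_div, le_div_iff₀ (by positivity)]
      nlinarith only [hth1, h20]
    have h22 : (1 + (1 - th) / 8) * (1 + 15 * (X * (th * s) ^ (-(1 / 4) : ℝ) /
        lam ^ (1 / 4 : ℝ))) ≤ th ^ (-(3 / 4) : ℝ) := by
      refine le_trans ?_ h19
      have h23 : (1 + (1 - th) / 8) * (1 + 15 * (X * (th * s) ^ (-(1 / 4) : ℝ) /
          lam ^ (1 / 4 : ℝ))) ≤ (1 + (1 - th) / 8) * (1 + 15 * ((1 - th) / 60)) := by gcongr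
      refine h23.trans ?_
      nlinarith only [hth, hth1]
    rw [mul_comm (th ^ (-(3 / 4) : ℝ)) lam]
    gcongr
  · intro y hy
    have hy2 : y * Cp ≤ s ^ (1 / 20 : ℝ) * Cp := mul_le_mul_of_nonneg_right hy hCp.le
    linarith only [b1, b2, b3, hX, hy2]
  · intro g hg
    have h1 := pow_low th (ka / 2) hth hth1.le (by positivity) (by linarith only [hka, hka1])
    have h2 : (1 - th) / 4 ≤ th ^ (ka / 2) - (1 + th) / 2 := by
      have : 2 * (ka / 2) * (1 - th) ≤ 1 / 4 * (1 - th) := by gcongr; linarith only [hka, hka1]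
      linarith only [h1, this]
    have h3 : 0 < s ^ (ka / 2) := Real.rpow_pos_of_pos hs _
    have h4 : s ^ ka * Cp + X ≤ (1 - th) / 4 * s ^ (ka / 2) := by linarith only [c1, c2, hX]
    have h5 : (1 - th) / 4 * s ^ (ka / 2) ≤ (th ^ (ka / 2) - (1 + th) / 2) * (s ^ (ka / 2) * g) := by
      have h6 : s ^ (ka / 2) * 1 ≤ s ^ (ka / 2) * g := by gcongr
      have h7 : 0 ≤ (1 - th) / 4 := by positivity
      calc (1 - th) / 4 * s ^ (ka / 2) ≤ (1 - th) / 4 * (s ^ (ka / 2) * g) := by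
            gcongr
            linarith only [h6]
        _ ≤ _ := by
            have : 0 ≤ s ^ (ka / 2) * g := by positivity
            gcongr
    linarith only [c1, c2, hX, h5]
  · linarith only [d1, d2, hX]

/-- ONE RELEASE PHASE at the clock `s`; `σ` = the clock at the start of the super-stage. -/
def RelP (Cr Cw th ka s : ℝ) : Prop := ∀ σ : ℝ, s ≤ th * σ → σ ≤ 1 →
  Cr * (1 + Real.log (Cw * s ^ (-Cw))) * (s ^ (1 / 8 : ℝ) + 2 * s ^ (1 / 10 : ℝ)) ≤
    s ^ (1 / 11 : ℝ) ∧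
  ∀ X : ℝ, 0 ≤ X → X ≤ s ^ (1 / 11 : ℝ) →
    2 * s ^ (1 / 10 : ℝ) + X ≤ σ ^ (1 / 20 : ℝ) - s ^ (1 / 20 : ℝ) ∧
    X ^ 2 ≤ s ^ (1 / 8 : ℝ) ∧
    (((1 / 4 * s ^ (-(3 / 4) : ℝ) * (2 - σ ^ (1 / 400 : ℝ))) * (1 + 2 * s ^ (1 / 200 : ℝ))) ^
        (1 / 4 : ℝ) + X * s ^ (-(1 / 4) : ℝ)) ^ 4 ≤
      1 / 4 * s ^ (-(3 / 4) : ℝ) * (2 - s ^ (1 / 400 : ℝ)) ∧
    2 * s ^ (1 / 100 : ℝ) + X ≤ σ ^ (1 / 400 : ℝ) - s ^ (1 / 400 : ℝ) ∧
    s ^ (ka / 2) * (2 - σ ^ ka) + 2 * s ^ (1 / 100 : ℝ) + X ≤ s ^ (ka / 2) * (2 - s ^ ka) ∧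
    2 * s ^ (1 / 100 : ℝ) + X ≤ σ ^ (ka / 4) - s ^ (ka / 4)

theorem rel (Cr Cw th ka : ℝ) (hth : 1 / 2 ≤ th) (hth1 : th < 1) (hCr : 0 ≤ Cr)
    (hCw : 1 ≤ Cw) (hka : 0 < ka) (hka1 : ka ≤ 1 / 200) : Small (RelP Cr Cw th ka) := by
  have hth0 : 0 < th := by linarith only [hth, hka, hka1]
  have hδ : 0 < 1 - th := by linarith only [hth1]
  have gap : ∀ p : ℝ, 0 < p → p ≤ 1 → 0 < 1 - th ^ p := fun p hp hp1 => by
    have := pow_up th p (by linarith) hp.le hp1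
    have : 0 < p * (1 - th) := by positivity
    linarith
  have a1 := small_X Cr Cw 2 1 (1 / 10) (1 / 11) hCr hCw (by norm_num) zero_le_one (by norm_num)
    (by norm_num)
  have a2 := small_pow' 2 ((1 - th ^ (1 / 20 : ℝ)) / 2) (1 / 10) (1 / 20)
    (by have := gap (1 / 20) (by norm_num) (by norm_num); linarith only [this]) (by norm_num)
  have a3 := small_pow' 1 ((1 - th ^ (1 / 20 : ℝ)) / 2) (1 / 11) (1 / 20)
    (by have := gap (1 / 20) (by norm_num) (by norm_num); linarith only [this]) (by norm_num)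
  have a4 := small_pow' 1 1 (2 / 11) (1 / 8) one_pos (by norm_num)
  have g4 : 0 < (1 - th ^ (1 / 400 : ℝ)) / 400 := by
    have := gap (1 / 400) (by norm_num) (by norm_num)
    linarith only [this]
  have a5 := small_pow' 1 ((1 - th ^ (1 / 400 : ℝ)) / 400) (5 / 176) (1 / 400) g4 (by norm_num)
  have a6 := small_pow' 1 ((1 - th ^ (1 / 400 : ℝ)) / 400) (1 / 200) (1 / 400) g4 (by norm_num)
  have b1 := small_pow' 2 ((1 - th ^ (1 / 400 : ℝ)) / 2) (1 / 100) (1 / 400)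
    (by linarith only [g4]) (by norm_num)
  have b3 := small_pow' 1 ((1 - th ^ (1 / 400 : ℝ)) / 2) (1 / 11) (1 / 400)
    (by linarith only [g4]) (by norm_num)
  have hgk := gap ka hka (by linarith only [hka, hka1])
  have hgk4 := gap (ka / 4) (by positivity) (by linarith only [hka, hka1])
  have c1 := small_pow' 2 ((1 - th ^ ka) / 2) (1 / 100) (3 * ka / 2) (by linarith only [hgk]) (by linarith only [hka, hka1])
  have c2 := small_pow' 1 ((1 - th ^ ka) / 2) (1 / 11) (3 * ka / 2) (by linarith only [hgk]) (by linarith only [hka, hka1])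
  have d1 := small_pow' 2 ((1 - th ^ (ka / 4)) / 2) (1 / 100) (ka / 4) (by linarith only [hgk4]) (by linarith only [hka, hka1])
  have d2 := small_pow' 1 ((1 - th ^ (ka / 4)) / 2) (1 / 11) (ka / 4) (by linarith only [hgk4]) (by linarith only [hka, hka1])
  refine ((((a1.and a2).and (a3.and a4)).and ((a5.and a6).and (b1.and b3))).and
    (((c1.and c2).and (d1.and d2)).and (small_le 1 one_pos))).mono fun s hs H => ?_
  obtain ⟨⟨⟨⟨a1, a2⟩, a3, a4⟩, ⟨a5, a6⟩, b1, b3⟩, ⟨⟨c1, c2⟩, d1, d2⟩, hs1⟩ := H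
  intro σ hσ hσ1
  have hσ0 : 0 < σ := by
    by_contra h
    push Not at h
    nlinarith only [hth, hs, hσ, h]
  -- the gain of a growing threshold
  have gain : ∀ p : ℝ, 0 < p → p ≤ 1 → s ^ p * (1 - th ^ p) ≤ σ ^ p - s ^ p := by
    intro p hp hp1
    have h1 : s ^ p ≤ th ^ p * σ ^ p := by
      rw [← Real.mul_rpow hth0.le hσ0.le]
      exact Real.rpow_le_rpow hs.le hσ hp.le
    have h2 := gap p hp hp1
    have h3 : 0 < th ^ p := Real.rpow_pos_of_pos hth0 _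
    have h4 : 0 < s ^ p := Real.rpow_pos_of_pos hs _
    have h5 : 0 < σ ^ p := Real.rpow_pos_of_pos hσ0 _
    nlinarith only [mul_nonneg h5.le h2.le, mul_nonneg (mul_nonneg h5.le h2.le) h2.le, hka, hka1, h1, h2, h5]
  refine ⟨?_, fun X hX0 hX => ⟨?_, ?_, ?_, ?_, ?_, ?_⟩⟩
  · have := a1 1 (by norm_num) le_rfl
    rw [one_mul, one_mul] at this
    exact this
  · have := gain (1 / 20) (by norm_num) (by norm_num)
    linarith only [a2, a3, hX, this]
  · calc X ^ 2 ≤ (s ^ (1 / 11 : ℝ)) ^ 2 := by gcongr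
      _ = s ^ (2 / 11 : ℝ) := by
          rw [← Real.rpow_natCast, ← Real.rpow_mul hs.le]
          norm_num
      _ ≤ s ^ (1 / 8 : ℝ) := by linarith only [a4]
  · -- the fourth powers
    have h1 : 0 < s ^ (-(3 / 4) : ℝ) := Real.rpow_pos_of_pos hs _
    have hσp : σ ^ (1 / 400 : ℝ) ≤ 1 := Real.rpow_le_one hσ0.le hσ1 (by norm_num)
    have hσp0 : 0 < σ ^ (1 / 400 : ℝ) := Real.rpow_pos_of_pos hσ0 _
    have hsp : s ^ (1 / 400 : ℝ) ≤ 1 := Real.rpow_le_one hs.le hs1 (by norm_num)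
    obtain ⟨lam, hlam⟩ : ∃ lam, lam = 1 / 4 * s ^ (-(3 / 4) : ℝ) * (2 - σ ^ (1 / 400 : ℝ)) := ⟨_, rfl⟩
    rw [← hlam]
    have hl1 : 1 / 4 * s ^ (-(3 / 4) : ℝ) ≤ lam := by
      rw [hlam]
      nlinarith only [hka, hka1, h1, hσp]
    have hl0 : 0 < lam := by linarith only [h1, hl1]
    have h3 : 1 / 2 * s ^ (-(3 / 16) : ℝ) ≤ lam ^ (1 / 4 : ℝ) := by
      have h4 : (1 / 2 * s ^ (-(3 / 16) : ℝ)) ^ 4 ≤ lam := by
        have h5 : (s ^ (-(3 / 16) : ℝ)) ^ 4 = s ^ (-(3 / 4) : ℝ) := by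
          rw [← Real.rpow_natCast, ← Real.rpow_mul hs.le]
          norm_num
        rw [mul_pow, h5]
        linarith only [hl1, hl0]
      have h6 : 0 ≤ 1 / 2 * s ^ (-(3 / 16) : ℝ) := by
        have := Real.rpow_nonneg hs.le (-(3 / 16) : ℝ)
        positivity
      calc 1 / 2 * s ^ (-(3 / 16) : ℝ) = ((1 / 2 * s ^ (-(3 / 16) : ℝ)) ^ 4) ^ (1 / 4 : ℝ) := by
            rw [← Real.rpow_natCast, ← Real.rpow_mul h6]
            norm_num
        _ ≤ lam ^ (1 / 4 : ℝ) := Real.rpow_le_rpow (by positivity) h4 (by norm_num)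
    have h14 : 0 < s ^ (-(3 / 16) : ℝ) := Real.rpow_pos_of_pos hs _
    have h12 : s ^ (1 / 11 : ℝ) * s ^ (-(1 / 4) : ℝ) = s ^ (5 / 176 : ℝ) * s ^ (-(3 / 16) : ℝ) := by
      rw [← Real.rpow_add hs, ← Real.rpow_add hs]
      norm_num
    have hs4 : 0 < s ^ (-(1 / 4) : ℝ) := Real.rpow_pos_of_pos hs _
    have hx0 : 0 ≤ X * s ^ (-(1 / 4) : ℝ) := by positivity
    have hla : 0 < lam ^ (1 / 4 : ℝ) := Real.rpow_pos_of_pos hl0 _
    have h15 : X * s ^ (-(1 / 4) : ℝ) ≤ 2 * s ^ (5 / 176 : ℝ) * lam ^ (1 / 4 : ℝ) := by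
      have hs5 : 0 < s ^ (5 / 176 : ℝ) := Real.rpow_pos_of_pos hs _
      calc X * s ^ (-(1 / 4) : ℝ) ≤ s ^ (1 / 11 : ℝ) * s ^ (-(1 / 4) : ℝ) := by gcongr
        _ = 2 * s ^ (5 / 176 : ℝ) * (1 / 2 * s ^ (-(3 / 16) : ℝ)) := by rw [h12]; ring
        _ ≤ _ := by gcongr
    have hq : s ^ (1 / 400 : ℝ) * ((1 - th ^ (1 / 400 : ℝ)) / 400) ≤ 1 / 400 := by
      have : 0 < th ^ (1 / 400 : ℝ) := Real.rpow_pos_of_pos hth0 _
      nlinarith only [hka, hka1, g4, hsp, this]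
    have hs5 : s ^ (5 / 176 : ℝ) ≤ 1 / 400 := by linarith only [a5, hq]
    have h16 : X * s ^ (-(1 / 4) : ℝ) ≤ lam ^ (1 / 4 : ℝ) := by
      refine h15.trans ?_
      nlinarith only [hka, hka1, a5, h3, h14, hq]
    have hs2 : 0 < s ^ (1 / 200 : ℝ) := Real.rpow_pos_of_pos hs _
    have hs6 : 0 < s ^ (5 / 176 : ℝ) := Real.rpow_pos_of_pos hs _
    have hs7 : s ^ (1 / 200 : ℝ) ≤ 1 / 400 := by linarith only [a6, hq]
    have h17 := four lam (2 * s ^ (1 / 200 : ℝ)) (X * s ^ (-(1 / 4) : ℝ)) hl0 (by positivity) hx0 h16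
    refine h17.trans ?_
    have h18 : X * s ^ (-(1 / 4) : ℝ) / lam ^ (1 / 4 : ℝ) ≤ 2 * s ^ (5 / 176 : ℝ) := by
      rw [div_le_iff₀ hla]
      exact h15
    have hg := gain (1 / 400) (by norm_num) (by norm_num)
    have h19 : (1 + 2 * s ^ (1 / 200 : ℝ)) * (1 + 15 * (X * s ^ (-(1 / 4) : ℝ) /
        lam ^ (1 / 4 : ℝ))) ≤ 1 + (σ ^ (1 / 400 : ℝ) - s ^ (1 / 400 : ℝ)) / 2 := by
      calc (1 + 2 * s ^ (1 / 200 : ℝ)) * (1 + 15 * (X * s ^ (-(1 / 4) : ℝ) / lam ^ (1 / 4 : ℝ)))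
          ≤ (1 + 2 * s ^ (1 / 200 : ℝ)) * (1 + 15 * (2 * s ^ (5 / 176 : ℝ))) := by gcongr
        _ ≤ 1 + 4 * s ^ (1 / 200 : ℝ) + 60 * s ^ (5 / 176 : ℝ) := by nlinarith only [a6, hx0, hla, h15, hq, hs2, hs6]
        _ ≤ 1 + (s ^ (1 / 400 : ℝ) * (1 - th ^ (1 / 400 : ℝ))) / 2 := by
            have hpos : 0 < s ^ (1 / 400 : ℝ) * (1 - th ^ (1 / 400 : ℝ)) := by
              have := Real.rpow_pos_of_pos hs (1 / 400 : ℝ)
              have := gap (1 / 400) (by norm_num) (by norm_num)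
              positivity
            nlinarith only [a5, a6, hs2]
        _ ≤ _ := by linarith only [hg]
    have h20 : lam * (1 + (σ ^ (1 / 400 : ℝ) - s ^ (1 / 400 : ℝ)) / 2) ≤
        1 / 4 * s ^ (-(3 / 4) : ℝ) * (2 - s ^ (1 / 400 : ℝ)) := by
      rw [hlam]
      have h21 : 0 ≤ σ ^ (1 / 400 : ℝ) - s ^ (1 / 400 : ℝ) := by
        have := Real.rpow_pos_of_pos hs (1 / 400 : ℝ)
        have := gap (1 / 400) (by norm_num) (by norm_num)
        have : 0 ≤ s ^ (1 / 400 : ℝ) * (1 - th ^ (1 / 400 : ℝ)) := by positivity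
        linarith only [a6, hs2, hg]
      have h22 : (2 - σ ^ (1 / 400 : ℝ)) * (1 + (σ ^ (1 / 400 : ℝ) - s ^ (1 / 400 : ℝ)) / 2) ≤
          2 - s ^ (1 / 400 : ℝ) := by nlinarith only [hka, hka1, b3, hX0, hX, hσp0, hg]
      rw [mul_assoc]
      gcongr
    refine le_trans ?_ h20
    gcongr
  · have := gain (1 / 400) (by norm_num) (by norm_num)
    linarith only [b1, b3, hX, this]
  · have h1 := gain ka hka (by linarith only [hka, hka1])
    have h2 : 0 < s ^ (ka / 2) := Real.rpow_pos_of_pos hs _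
    have h3 : s ^ (3 * ka / 2) = s ^ (ka / 2) * s ^ ka := by
      rw [← Real.rpow_add hs]
      congr 1
      ring
    have h4 : s ^ (ka / 2) * (s ^ ka * (1 - th ^ ka)) ≤ s ^ (ka / 2) * (σ ^ ka - s ^ ka) := by
      gcongr
    rw [h3] at c1 c2
    nlinarith only [c1, c2, hX, h4]
  · have := gain (ka / 4) (by positivity) (by linarith only [hka, hka1])
    linarith only [d1, d2, hX, this]

end Pool.Agent.AHH.H96
end
end -- Pool.Agent.Helper96_AHH.Core

section -- Pool.Agent.Helper41_AHH.Cal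

/-!
# A calculus of powers of a small parameter

`Up s p x`: `0 ≤ x ≤ s ^ p`. `Lo s p x`: `s ^ p ≤ x`.
-/

set_option autoImplicit false

open Filter Topology

namespace Pool.Agent.AHH.H41

open Pool.Agent.AND.Num

/-- `0 ≤ x ≤ s ^ p` -/
structure Up (s p x : ℝ) : Prop where
  nn : 0 ≤ x
  le : x ≤ s ^ p

/-- `s ^ p ≤ x` -/
def Lo (s p x : ℝ) : Prop := s ^ p ≤ x

section cal

variable {s p q x y e r : ℝ}

theorem Up.self (hs : 0 < s) (p : ℝ) : Up s p (s ^ p) := ⟨Real.rpow_nonneg hs.le _, le_rfl⟩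

theorem Lo.self (s p : ℝ) : Lo s p (s ^ p) := le_refl (s ^ p)

theorem Lo.pos (hs : 0 < s) (h : Lo s p x) : 0 < x := lt_of_lt_of_le (Real.rpow_pos_of_pos hs _) h

theorem Up.zero (hs : 0 < s) : Up s p 0 := ⟨le_rfl, Real.rpow_nonneg hs.le _⟩

theorem Up.one (s : ℝ) : Up s 0 1 := ⟨zero_le_one, by rw [Real.rpow_zero]⟩

theorem Up.of_le (h : Up s p y) (h0 : 0 ≤ x) (h1 : x ≤ y) : Up s p x := ⟨h0, h1.trans h.le⟩

theorem Lo.of_le (h : Lo s p x) (h1 : x ≤ y) : Lo s p y := h.trans h1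

theorem Up.mono (hs : 0 < s) (hs1 : s ≤ 1) (hpq : q ≤ p) (h : Up s p x) : Up s q x :=
  ⟨h.nn, h.le.trans (Real.rpow_le_rpow_of_exponent_ge hs hs1 hpq)⟩

theorem Lo.mono (hs : 0 < s) (hs1 : s ≤ 1) (hpq : p ≤ q) (h : Lo s p x) : Lo s q x :=
  (Real.rpow_le_rpow_of_exponent_ge hs hs1 hpq).trans h

theorem Up.mul (hs : 0 < s) (hx : Up s p x) (hy : Up s q y) : Up s (p + q) (x * y) :=
  ⟨mul_nonneg hx.nn hy.nn, by
    rw [Real.rpow_add hs]
    exact mul_le_mul hx.le hy.le hy.nn (Real.rpow_nonneg hs.le _)⟩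

theorem Lo.mul (hs : 0 < s) (hx : Lo s p x) (hy : Lo s q y) : Lo s (p + q) (x * y) := by
  unfold Lo
  rw [Real.rpow_add hs]
  exact mul_le_mul hx hy (Real.rpow_nonneg hs.le _) (hx.pos hs).le

theorem Up.div (hs : 0 < s) (hx : Up s p x) (hy : Lo s q y) : Up s (p - q) (x / y) :=
  ⟨div_nonneg hx.nn (hy.pos hs).le, by
    rw [Real.rpow_sub hs]
    exact div_le_div₀ (Real.rpow_nonneg hs.le _) hx.le (Real.rpow_pos_of_pos hs _) hy⟩

theorem Lo.div (hs : 0 < s) (hx : Lo s p x) (hy : Up s q y) (hy0 : 0 < y) :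
    Lo s (p - q) (x / y) := by
  unfold Lo
  rw [Real.rpow_sub hs]
  exact div_le_div₀ (hx.pos hs).le hx hy0 hy.le

theorem Up.inv (hs : 0 < s) (hy : Lo s q y) : Up s (-q) y⁻¹ := by
  have h := (Up.one s).div hs hy
  rw [one_div] at h
  rwa [zero_sub] at h

theorem Lo.inv (hs : 0 < s) (hy : Up s q y) (hy0 : 0 < y) : Lo s (-q) y⁻¹ := by
  have h : Lo s 0 1 := by
    unfold Lo
    rw [Real.rpow_zero]
  have h := h.div hs hy hy0
  rw [one_div] at h
  rwa [zero_sub] at h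

theorem Up.pow (hs : 0 < s) (hx : Up s p x) (k : ℕ) : Up s (p * k) (x ^ k) :=
  ⟨pow_nonneg hx.nn k, by
    rw [Real.rpow_mul hs.le, Real.rpow_natCast]
    exact pow_le_pow_left₀ hx.nn hx.le k⟩

theorem Lo.pow (hs : 0 < s) (hx : Lo s p x) (k : ℕ) : Lo s (p * k) (x ^ k) := by
  unfold Lo
  rw [Real.rpow_mul hs.le, Real.rpow_natCast]
  exact pow_le_pow_left₀ (Real.rpow_nonneg hs.le _) hx k

theorem Up.rpow (hs : 0 < s) (hx : Up s p x) (hr : 0 ≤ r) : Up s (p * r) (x ^ r) :=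
  ⟨Real.rpow_nonneg hx.nn _, by
    rw [Real.rpow_mul hs.le]
    exact Real.rpow_le_rpow hx.nn hx.le hr⟩

theorem Lo.rpow (hs : 0 < s) (hx : Lo s p x) (hr : 0 ≤ r) : Lo s (p * r) (x ^ r) := by
  unfold Lo
  rw [Real.rpow_mul hs.le]
  exact Real.rpow_le_rpow (Real.rpow_nonneg hs.le _) hx hr

theorem Up.sqrt (hs : 0 < s) (hx : Up s p x) : Up s (p * (1 / 2)) (Real.sqrt x) := by
  rw [Real.sqrt_eq_rpow]
  exact hx.rpow hs (by norm_num)

/-- the sum of two, `2 ≤ s ^ (-e)` -/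
theorem Up.add (hs : 0 < s) (he : 2 ≤ s ^ (-e)) (hx : Up s p x) (hy : Up s p y) :
    Up s (p - e) (x + y) :=
  ⟨add_nonneg hx.nn hy.nn, by
    have h1 : s ^ (p - e) = s ^ (-e) * s ^ p := by
      rw [← Real.rpow_add hs]
      congr 1
      ring
    have h2 := Real.rpow_nonneg hs.le p
    have h3 := hx.le
    have h4 := hy.le
    rw [h1]
    nlinarith⟩

/-- three -/
theorem Up.add3 {z : ℝ} (hs : 0 < s) (he : 3 ≤ s ^ (-e)) (hx : Up s p x) (hy : Up s p y)
    (hz : Up s p z) : Up s (p - e) (x + y + z) :=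
  ⟨add_nonneg (add_nonneg hx.nn hy.nn) hz.nn, by
    have h1 : s ^ (p - e) = s ^ (-e) * s ^ p := by
      rw [← Real.rpow_add hs]
      congr 1
      ring
    have h2 := Real.rpow_nonneg hs.le p
    have h3 := hx.le
    have h4 := hy.le
    have h5 := hz.le
    rw [h1]
    nlinarith⟩

theorem Up.sum {ι : Type*} (hs : 0 < s) (t : Finset ι) (f : ι → ℝ) (hf : ∀ i ∈ t, Up s p (f i))
    (ht : (t.card : ℝ) ≤ s ^ q) : Up s (q + p) (∑ i ∈ t, f i) :=
  ⟨Finset.sum_nonneg fun i hi => (hf i hi).nn, by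
    refine (Finset.sum_le_card_nsmul t f (s ^ p) fun i hi => (hf i hi).le).trans ?_
    rw [nsmul_eq_mul, Real.rpow_add hs]
    exact mul_le_mul_of_nonneg_right ht (Real.rpow_nonneg hs.le _)⟩

/-- a constant -/
theorem Up.const (hx : 0 ≤ x) (h : x ≤ s ^ (-e)) : Up s (-e) x := ⟨hx, h⟩

theorem Lo.const (hs : 0 < s) (hx : 0 < x) (h : 1 / x ≤ s ^ (-e)) : Lo s e x := by
  unfold Lo
  rw [Real.rpow_neg hs.le, div_le_iff₀ hx, inv_mul_eq_div, one_le_div (Real.rpow_pos_of_pos hs _)] at h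
  exact h

/-- the final step -/
theorem Up.fin (hs : 0 < s) (hs1 : s ≤ 1) (hpq : q ≤ p) (h : Up s p x) : x ≤ s ^ q :=
  (h.mono hs hs1 hpq).le

theorem Up.fin' (hs : 0 < s) (hs1 : s ≤ 1) (hpq : q ≤ p) (h : Up s p x) (h' : Lo s q y) : x ≤ y :=
  (h.fin hs hs1 hpq).trans h'

theorem Up.le_one (hs : 0 < s) (hs1 : s ≤ 1) (hp : 0 ≤ p) (h : Up s p x) : x ≤ 1 := by
  have := h.fin hs hs1 hp
  rwa [Real.rpow_zero] at this

/-- multiplied with a constant -/
theorem Up.cmul (hs : 0 < s) {c : ℝ} (hc : 0 ≤ c) (hc' : c ≤ s ^ (-e)) (h : Up s p x) :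
    Up s (p - e) (c * x) := by
  have := (Up.const hc hc').mul hs h
  rwa [neg_add_eq_sub] at this

end cal

/-! ### Small -/

/-- finitely many constants -/
theorem small_consts (e : ℝ) (he : 0 < e) (K : ℝ) : Small fun s => K ≤ s ^ (-e) := small_const K e he

/-- `exp (-x) ≤ s ^ R` for all `x ≥ c s ^ (-p)` -/
theorem small_exp_all (c p R : ℝ) (hc : 0 < c) (hp : 0 < p) :
    Small fun s => ∀ x, c * s ^ (-p) ≤ x → Real.exp (-x) ≤ s ^ R := by
  refine (small_exp_pow 1 c p 0 R hc hp).mono fun s hs h x hx => ?_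
  rw [neg_zero, Real.rpow_zero, mul_one, one_mul] at h
  exact (Real.exp_le_exp.2 (neg_le_neg hx)).trans h

end Pool.Agent.AHH.H41
end -- Pool.Agent.Helper41_AHH.Cal
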