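import Pool.Agent.Helper12_MEB.B017

/-!
# Merged copies (generated) of the modules

* `Pool.Agent.Helper54_QE.Defs`
* `Pool.Agent.Helper54_QE.Rank`
* `Pool.Agent.Helper54_QE.Defs2`
* `Pool.Agent.Helper36_QE.Trace`
-/

set_option autoImplicit false

section -- Pool.Agent.Helper54_QE.Defs

/-!
# Conserved covariant observables of the Anderson model: definitions and module statements
-/

set_option autoImplicit false
set_option linter.unusedSectionVars false

open scoped InnerProductSpace ComplexConjugate Topology ENNReal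
open MeasureTheory Filter

noncomputable section

namespace Pool.Agent.QE

open Pool.Agent.Anderson Pool.Agent.Helper54.Bal

/-- configurations of the potential -/
abbrev Cfg (d : ℕ) : Type := Site d → ℝ

/-- bounded operators on `ℓ²(ℤ^d)` -/
abbrev Op (d : ℕ) : Type := L2 d →L[ℂ] L2 d

variable {d : ℕ}

/-- translation of configurations -/
def tau (a : Site d) (V : Cfg d) : Cfg d := fun y => V (y + a)

/-- the law of an i.i.d. potential -/
abbrev PP (d : ℕ) (μ : Measure ℝ) [IsProbabilityMeasure μ] : Measure (Cfg d) :=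
  Measure.infinitePi fun _ : Site d => μ

/-- the finite reference measure `dE / (1 + E²)` on energies -/
def lam : Measure ℝ := (volume : Measure ℝ).withDensity fun E => ENNReal.ofReal (1 + E ^ 2)⁻¹

/-- `P ⊗ dE/(1+E²)` -/
abbrev KK (d : ℕ) (μ : Measure ℝ) [IsProbabilityMeasure μ] : Measure (Cfg d × ℝ) :=
  (PP d μ).prod lam

/-- replace the potential at `x₀` -/
def upd (x₀ : Site d) (ω : (Cfg d × ℝ) × ℝ) : Cfg d × ℝ :=
  (Function.update ω.1.1 x₀ ω.2, ω.1.2)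

/-- bounded measurable covariant families of operators -/
structure Cov (A : Cfg d → Op d) : Prop where
  meas : ∀ f : L2 d, StronglyMeasurable fun V => A V f
  cov : ∀ (a : Site d) (V : Cfg d) (f : L2 d), A (tau a V) (shift a f) = shift a (A V f)
  bdd : ∃ C : ℝ, ∀ V, ‖A V‖ ≤ C

/-- conserved covariant observables: bounded, measurable, covariant, symmetric, commuting with
the resolvent of `H = Δ + V` -/
structure Obs (A : Cfg d → Op d) : Prop extends Cov A where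
  sa : ∀ (V : Cfg d) (f g : L2 d), ⟪A V f, g⟫_ℂ = ⟪f, A V g⟫_ℂ
  comm : ∀ (V : Cfg d) (z : ℂ), z.im ≠ 0 → ∀ f : L2 d, A V (G V z f) = G V z (A V f)

/-- a family that depends on each potential value only through finitely many columns -/
def Loc (B : Cfg d → Op d) (CB : ℝ) (F : Finset (Site d)) : Prop :=
  0 ≤ CB ∧ ∀ (x₀ : Site d) (V : Cfg d) (v : ℝ) (u : L2 d),
    ‖B (Function.update V x₀ v) u - B V u‖ ≤ CB * ∑ y ∈ F, ‖u (x₀ + y)‖

/-- diagonal matrix elements of the resolvent -/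
def Fw (w : Cfg d → L2 d) (ε : ℝ) (p : Cfg d × ℝ) : ℂ :=
  ⟪w p.1, G p.1 (zz ε p.2) (w p.1)⟫_ℂ

/-- the bounded transform of `Fw` -/
def gw (w : Cfg d → L2 d) (ε : ℝ) (p : Cfg d × ℝ) : ℂ :=
  Fw w ε p / (Fw w ε p + Complex.I) / (zz ε p.2 + Complex.I)

/-- the effect of a change of the potential at `x₀` -/
def dq (A : Cfg d → Op d) (x₀ x : Site d) (ε : ℝ) (ω : (Cfg d × ℝ) × ℝ) : ℝ :=
  Real.sqrt |ε| * ‖A (Function.update ω.1.1 x₀ ω.2) (G ω.1.1 (zz ε ω.1.2) (del x)) -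
    A ω.1.1 (G ω.1.1 (zz ε ω.1.2) (del x))‖

/-! ### module statements -/

/-- module CYL: approximation by cylinder functions -/
def CylStatement : Prop := ∀ (d : ℕ) (μ : Measure ℝ) [IsProbabilityMeasure μ] (f : Cfg d → ℂ)
  (_ : Measurable f) (C : ℝ) (_ : ∀ V, ‖f V‖ ≤ C) (κ : ℝ) (_ : 0 < κ),
  ∃ (g : Cfg d → ℂ) (Λ : Finset (Site d)) (C' : ℝ), Measurable g ∧ (∀ V, ‖g V‖ ≤ C') ∧
    (∀ V W : Cfg d, (∀ x ∈ Λ, V x = W x) → g V = g W) ∧
    ∫⁻ V, ‖f V - g V‖ₑ ^ 2 ∂(PP d μ) ≤ ENNReal.ofReal κ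

/-- module LOCAL: approximation of covariant families by local ones (uses CYL) -/
def LocalStatement : Prop := ∀ (d : ℕ) (μ : Measure ℝ) [IsProbabilityMeasure μ]
  (A : Cfg d → Op d) (_ : Cov A) (κ : ℝ) (_ : 0 < κ),
  ∃ (B : Cfg d → Op d) (CB : ℝ) (F : Finset (Site d)), Cov B ∧ Loc B CB F ∧
    ∫⁻ V, ‖A V (del 0) - B V (del 0)‖ₑ ^ 2 ∂(PP d μ) ≤ ENNReal.ofReal κ

/-- module TRACE: the trace-Plancherel identity -/
def TraceStatement : Prop := ∀ (d : ℕ) (μ : Measure ℝ) [IsProbabilityMeasure μ]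
  (D : Cfg d → Op d) (_ : Cov D) (x : Site d) (ε : ℝ) (_ : ε ≠ 0),
  ∫⁻ V, (∫⁻ E : ℝ, ENNReal.ofReal |ε| * ‖D V (G V (zz ε E) (del x))‖ₑ ^ 2) ∂(PP d μ) =
    ENNReal.ofReal Real.pi * ∫⁻ V, ‖D V (del 0)‖ₑ ^ 2 ∂(PP d μ)

/-- module TIGHT: the Green functions are tight in energy, for every potential -/
def TightStatement : Prop := ∀ (d : ℕ) (V : Cfg d) (w : L2 d) (ε : ℝ) (_ : 0 < ε),
  ∫⁻ E, ENNReal.ofReal (Real.sqrt ‖⟪w, G V (zz ε E) w⟫_ℂ‖) ∂lam ≤
    ENNReal.ofReal (Real.sqrt 2 * Real.pi * ‖w‖)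

/-- module CAUCHY: `L²` convergence of the bounded transforms as `ε → 0` -/
def CauchyStatement : Prop := ∀ (d : ℕ) (μ : Measure ℝ) [IsProbabilityMeasure μ]
  (w : Cfg d → L2 d) (_ : StronglyMeasurable w) (C : ℝ) (_ : ∀ V, ‖w V‖ ≤ C),
  ∃ g₀ : Cfg d × ℝ → ℂ, Measurable g₀ ∧ ∀ δ : ℝ, 0 < δ →
    Tendsto (fun ε => (KK d μ) {p | δ ≤ ‖gw w ε p - g₀ p‖}) (𝓝[>] 0) (𝓝 0)

/-- module STEP: changing the potential at one site (uses LOCAL, TRACE, TIGHT) -/
def StepStatement : Prop := ∀ (d : ℕ) (μ : Measure ℝ) [IsProbabilityMeasure μ]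
  (A : Cfg d → Op d) (_ : Cov A) (x₀ x : Site d) (s : ℝ) (_ : s = 1 ∨ s = -1) (δ : ℝ)
  (_ : 0 < δ),
  Tendsto (fun ε => ((KK d μ).prod μ) {ω | δ ≤ dq A x₀ x (s * ε) ω}) (𝓝[>] 0) (𝓝 0)

/-- module SEQ: a common sequence -/
def SeqStatement : Prop := ∀ (α : Type) [MeasurableSpace α] (κ : Measure α) (ι : Type)
  [Countable ι] (q : ι → ℝ → α → ℝ)
  (_ : ∀ i δ, 0 < δ → Tendsto (fun ε => κ {ω | δ ≤ |q i ε ω|}) (𝓝[>] 0) (𝓝 0)),
  ∃ e : ℕ → ℝ, (∀ k, 0 < e k) ∧ Tendsto e atTop (𝓝 0) ∧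
    ∀ i, ∀ᵐ ω ∂κ, Tendsto (fun k => q i (e k) ω) atTop (𝓝 0)

/-- module MP: resampling at one site preserves the measure -/
def MPStatement : Prop := ∀ (d : ℕ) (μ : Measure ℝ) [IsProbabilityMeasure μ] (x₀ : Site d),
  MeasurePreserving (upd x₀) ((KK d μ).prod μ) (KK d μ)

/-- module NULL -/
def NullStatement : Prop := ∀ (d : ℕ) (μ : Measure ℝ) [IsProbabilityMeasure μ] (y : Site d)
  (S : Set (Cfg d × ℝ)) (_ : MeasurableSet S)
  (_ : ∀ᵐ ω ∂((KK d μ).prod μ), ω.1 ∈ S → upd y ω ∉ S), (KK d μ) S = 0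

/-- module ZERO: functions invariant under resampling are constant -/
def ZeroStatement : Prop := ∀ (d : ℕ) (μ : Measure ℝ) [IsProbabilityMeasure μ] (f : Cfg d → ℝ)
  (_ : Measurable f) (C : ℝ) (_ : ∀ V, |f V| ≤ C)
  (_ : ∀ y : Site d, ∀ᵐ p ∂((PP d μ).prod μ), f (Function.update p.1 y p.2) = f p.1),
  ∀ᵐ V ∂(PP d μ), f V = ∫ W, f W ∂(PP d μ)

/-- module GRAPH: connectivity of the Green function -/
def GraphStatement : Prop := ∀ (d : ℕ) (V : Cfg d) (E : ℝ) (g : Site d → Site d → ℂ)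
  (_ : ∀ x y, g x y = g y x)
  (_ : ∀ x y, lap (fun w => g w y) x + ((V x : ℂ) - E) * g x y = if x = y then 1 else 0)
  (B : Set (Site d)) (_ : B.Nonempty) (_ : ∀ y ∈ B, ∀ x ∉ B, g y x = 0), B = Set.univ

/-- `ψ ∈ ℓ²` has an absolutely continuous spectral measure for `H = Δ + V`, with density `ρ`:
`⟪ψ, (H - z)⁻¹ ψ⟫ = ∫ ρ(E) / (E - z) dE` for all non-real `z`. -/
def IsACVector (V : Cfg d) (ρ : ℝ → ℝ) (ψ : L2 d) : Prop :=
  Integrable ρ ∧ ∀ z : ℂ, z.im ≠ 0 → ∀ u : L2 d,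
    (∀ x, lap u x + ((V x : ℂ) - z) * u x = ψ x) →
      ⟪ψ, u⟫_ℂ = ∫ E : ℝ, (ρ E : ℂ) / ((E : ℂ) - z)

/-- `χ = c(H) ψ`, for `ψ` with spectral density `ρ` -/
def IsFunctionOfEnergy (V : Cfg d) (ρ : ℝ → ℝ) (c : ℝ → ℂ) (ψ χ : L2 d) : Prop :=
  (∀ z : ℂ, z.im ≠ 0 → ∀ u : L2 d, (∀ x, lap u x + ((V x : ℂ) - z) * u x = ψ x) →
    ⟪u, χ⟫_ℂ = ∫ E : ℝ, c E * (ρ E : ℂ) / ((E : ℂ) - conj z)) ∧
  ‖χ‖ ^ 2 = ∫ E : ℝ, ‖c E‖ ^ 2 * ρ E

/-- module AC: the conclusion for vectors with absolutely continuous spectral measure -/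
def ACStatement : Prop := ∀ (d : ℕ) (V : Cfg d) (A : Op d)
  (_ : ∀ z : ℂ, z.im ≠ 0 → ∀ f : L2 d, A (G V z f) = G V z (A f))
  (c : ℝ → ℂ) (_ : Measurable c) (C : ℝ) (_ : ∀ E, ‖c E‖ ≤ C)
  (e : ℕ → ℝ) (_ : ∀ k, 0 < e k) (_ : Tendsto e atTop (𝓝 0))
  (_ : ∀ x : Site d, ∀ᵐ E : ℝ, Tendsto (fun k => Real.sqrt (e k) *
    ‖A (G V (zz (e k) E) (del x)) - c E • G V (zz (e k) E) (del x)‖) atTop (𝓝 0))
  (ψ : L2 d) (ρ : ℝ → ℝ) (_ : IsACVector V ρ ψ), IsFunctionOfEnergy V ρ c ψ (A ψ)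

end Pool.Agent.QE
end
end -- Pool.Agent.Helper54_QE.Defs

section -- Pool.Agent.Helper54_QE.Rank

/-!
# Rank one formulas and the key inequality
-/

set_option autoImplicit false
set_option linter.unusedSectionVars false

open scoped InnerProductSpace ComplexConjugate Topology ENNReal
open MeasureTheory Filter

noncomputable section

namespace Pool.Agent.QE

open Pool.Agent.Anderson Pool.Agent.Helper54.Bal

variable {d : ℕ}

theorem conj_zz' (η E : ℝ) : conj (zz η E) = zz (-η) E := by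
  unfold zz
  simp [map_add, map_mul]

theorem star_del' (x : Site d) : star (del x) = del x := by
  ext y
  rw [star_apply, del_apply]
  split_ifs <;> simp

/-- change of the potential at one site -/
theorem G_upd {V : Cfg d} {z : ℂ} (hz : z.im ≠ 0) (x₀ : Site d) (s : ℝ) (f : L2 d) :
    G V z f = G (Function.update V x₀ s) z f +
      (((s : ℂ) - V x₀) * G (Function.update V x₀ s) z f x₀) • G V z (del x₀) := by
  symm
  apply G_unique hz
  intro x
  set V' := Function.update V x₀ s with hV'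
  have h1 := G_eq (V := V') hz f x
  have h2 := G_eq (V := V) hz (del x₀) x
  set c : ℂ := ((s : ℂ) - V x₀) * G V' z f x₀ with hc
  have hl : lap (⇑(G V' z f + c • G V z (del x₀))) x =
      lap (G V' z f) x + c * lap (G V z (del x₀)) x := by
    rw [← Lap_apply, ← Lap_apply, ← Lap_apply, map_add, map_smul, lp.coeFn_add, Pi.add_apply,
      lp.coeFn_smul, Pi.smul_apply, smul_eq_mul]
  rw [hl, lp.coeFn_add, Pi.add_apply, lp.coeFn_smul, Pi.smul_apply, smul_eq_mul]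
  have h3 : lap (G V' z f) x + c * lap (G V z (del x₀)) x +
      ((V x : ℂ) - z) * (G V' z f x + c * G V z (del x₀) x) =
      (lap (G V' z f) x + ((V' x : ℂ) - z) * G V' z f x) +
      ((V x : ℂ) - V' x) * G V' z f x +
      c * (lap (G V z (del x₀)) x + ((V x : ℂ) - z) * G V z (del x₀) x) := by ring
  rw [h3, h1, h2, del_apply]
  by_cases hx : x = x₀
  · subst hx
    rw [if_pos rfl, hV', Function.update_self, hc, ← hV']
    ring
  · rw [if_neg hx, hV', Function.update_of_ne hx]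
    ring

theorem upd_upd (V : Cfg d) (x₀ : Site d) (s : ℝ) :
    Function.update (Function.update V x₀ s) x₀ (V x₀) = V := by
  rw [Function.update_idem, Function.update_eq_self]

/-- the reversed formula -/
theorem G_upd' {V : Cfg d} {z : ℂ} (hz : z.im ≠ 0) (x₀ : Site d) (s : ℝ) (f : L2 d) :
    G V z f = G (Function.update V x₀ s) z f +
      (((s : ℂ) - V x₀) * G V z f x₀) • G (Function.update V x₀ s) z (del x₀) := by
  have h := G_upd (V := Function.update V x₀ s) hz x₀ (V x₀) f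
  rw [upd_upd, Function.update_self] at h
  rw [h]
  have e : (((V x₀ : ℝ) : ℂ) - (s : ℝ)) * G V z f x₀ = -(((s : ℂ) - V x₀) * G V z f x₀) := by ring
  rw [e, neg_smul]
  abel

theorem G_symm {V : Cfg d} {z : ℂ} (hz : z.im ≠ 0) (x y : Site d) :
    G V z (del y) x = G V z (del x) y := by
  have h1 : ⟪del x, G V z (del y)⟫_ℂ = ⟪G V (conj z) (del x), del y⟫_ℂ := by
    rw [(isRes_G V).adj _ (conj_im_ne hz), Complex.conj_conj]
  rw [inner_del_left, inner_del_right] at h1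
  have h2 := G_star (V := V) hz (del x)
  rw [star_del'] at h2
  rw [h2, star_apply, Complex.conj_conj] at h1
  exact h1

theorem G_conj_del {V : Cfg d} {z : ℂ} (hz : z.im ≠ 0) (x y : Site d) :
    G V (conj z) (del x) y = conj (G V z (del x) y) := by
  have h2 := G_star (V := V) hz (del x)
  rw [star_del'] at h2
  rw [h2, star_apply]

/-- the Gram matrix of the resolvent vectors -/
theorem gram_G {V : Cfg d} {z : ℂ} (hz : z.im ≠ 0) (u v : L2 d) :
    (2 * Complex.I * z.im) * ⟪G V z u, G V z v⟫_ℂ = ⟪u, G V z v⟫_ℂ - ⟪G V z u, v⟫_ℂ := by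
  have hz' := conj_im_ne hz
  have h1 : ⟪G V z u, G V z v⟫_ℂ = ⟪u, G V (conj z) (G V z v)⟫_ℂ := (isRes_G V).adj z hz _ _
  have h2 := (isRes_G V).ident_apply hz' hz v
  have h3 : ⟪u, G V (conj z) v⟫_ℂ - ⟪u, G V z v⟫_ℂ = (conj z - z) * ⟪G V z u, G V z v⟫_ℂ := by
    rw [← inner_sub_right, h2, inner_smul_right, h1]
  have h4 : ⟪G V z u, v⟫_ℂ = ⟪u, G V (conj z) v⟫_ℂ := (isRes_G V).adj z hz _ _
  have h5 : (conj z - z) = -(2 * Complex.I * z.im) := by
    apply Complex.ext <;> simp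
    ring
  rw [h4]
  rw [h5] at h3
  linear_combination h3

theorem gram_del {V : Cfg d} {z : ℂ} (hz : z.im ≠ 0) (x y : Site d) :
    (z.im : ℂ) * ⟪G V z (del y), G V z (del x)⟫_ℂ = ((G V z (del x) y).im : ℂ) := by
  have h := gram_G (V := V) hz (del y) (del x)
  rw [inner_del_left, inner_del_right, G_symm hz x y, Complex.sub_conj] at h
  have hI : (2 * Complex.I : ℂ) ≠ 0 := by simp
  apply mul_left_cancel₀ hI
  rw [← mul_assoc, h]
  push_cast
  ring

theorem im_G_del' {V : Cfg d} {z : ℂ} (hz : z.im ≠ 0) (x : Site d) :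
    (G V z (del x) x).im = z.im * ‖G V z (del x)‖ ^ 2 := by
  rw [← (isRes_G V).im_inner hz, inner_del_left]

theorem G_del_ne {V : Cfg d} {z : ℂ} (hz : z.im ≠ 0) (x : Site d) : G V z (del x) ≠ 0 := by
  intro h
  have h1 := (isRes_G V).inj z hz _ h
  have h2 := norm_del x
  rw [h1, norm_zero] at h2
  exact zero_ne_one h2

theorem norm_G_del_pos {V : Cfg d} {z : ℂ} (hz : z.im ≠ 0) (x : Site d) :
    0 < ‖G V z (del x)‖ := norm_pos_iff.2 (G_del_ne hz x)

theorem im_G_del_pos {V : Cfg d} {z : ℂ} (hz : 0 < z.im) (x : Site d) :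
    0 < (G V z (del x) x).im := by
  rw [im_G_del' hz.ne']
  have := norm_G_del_pos (V := V) hz.ne' x
  positivity

/-! ### the local value of a conserved observable -/

section obs

variable {A : Op d} {V : Cfg d} (hsa : ∀ f g : L2 d, ⟪A f, g⟫_ℂ = ⟪f, A g⟫_ℂ)
  (hcm : ∀ z : ℂ, z.im ≠ 0 → ∀ f : L2 d, A (G V z f) = G V z (A f))

include hsa hcm in
theorem gram_A {z : ℂ} (hz : z.im ≠ 0) (x : Site d) :
    (z.im : ℂ) * ⟪G V z (del x), A (G V z (del x))⟫_ℂ = ((G V z (A (del x)) x).im : ℂ) := by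
  have h := gram_G (V := V) hz (del x) (A (del x))
  rw [hcm z hz]
  have h1 : ⟪G V z (del x), A (del x)⟫_ℂ = conj ⟪del x, G V z (A (del x))⟫_ℂ := by
    rw [← hsa, hcm z hz, inner_conj_symm]
  rw [h1, inner_del_left, Complex.sub_conj] at h
  have hI : (2 * Complex.I : ℂ) ≠ 0 := by simp
  apply mul_left_cancel₀ hI
  rw [← mul_assoc, h]
  push_cast
  ring

/-- the local value `⟪Gδ, AGδ⟫ / ‖Gδ‖²` -/
def aa (A : Op d) (V : Cfg d) (z : ℂ) (x : Site d) : ℝ :=
  (G V z (A (del x)) x).im / (G V z (del x) x).im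

/-- the residual -/
def rr (A : Op d) (V : Cfg d) (z : ℂ) (x : Site d) : L2 d :=
  A (G V z (del x)) - (aa A V z x : ℂ) • G V z (del x)

theorem A_G_del (A : Op d) (V : Cfg d) (z : ℂ) (x : Site d) :
    A (G V z (del x)) = (aa A V z x : ℂ) • G V z (del x) + rr A V z x := by
  unfold rr; abel

include hsa hcm

theorem aa_eq {z : ℂ} (hz : z.im ≠ 0) (x : Site d) :
    ⟪G V z (del x), A (G V z (del x))⟫_ℂ = (aa A V z x : ℂ) * ((‖G V z (del x)‖ ^ 2 : ℝ) : ℂ) := by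
  have h := gram_A hsa hcm hz x
  have h0 : (z.im : ℂ) ≠ 0 := by exact_mod_cast hz
  apply mul_left_cancel₀ h0
  rw [h]
  have h1 : (z.im : ℂ) * ((aa A V z x : ℂ) * ((‖G V z (del x)‖ ^ 2 : ℝ) : ℂ)) =
      (aa A V z x : ℂ) * (((z.im * ‖G V z (del x)‖ ^ 2 : ℝ)) : ℂ) := by
    push_cast; ring
  rw [h1, ← im_G_del' hz]
  unfold aa
  have h2 : (G V z (del x) x).im ≠ 0 := by
    rw [im_G_del' hz]
    have := norm_G_del_pos (V := V) hz x
    exact mul_ne_zero hz (by positivity)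
  rw [← Complex.ofReal_mul, div_mul_cancel₀ _ h2]

theorem inner_rr {z : ℂ} (hz : z.im ≠ 0) (x : Site d) : ⟪G V z (del x), rr A V z x⟫_ℂ = 0 := by
  unfold rr
  rw [inner_sub_right, inner_smul_right, aa_eq hsa hcm hz, inner_self_eq_norm_sq_to_K]
  push_cast
  simp

/-- best approximation -/
theorem norm_rr_le {z : ℂ} (hz : z.im ≠ 0) (x : Site d) (c : ℂ) :
    ‖rr A V z x‖ ≤ ‖A (G V z (del x)) - c • G V z (del x)‖ := by
  have h1 : A (G V z (del x)) - c • G V z (del x) =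
      rr A V z x + ((aa A V z x : ℂ) - c) • G V z (del x) := by
    rw [A_G_del, sub_smul]; abel
  have h2 : ⟪rr A V z x, ((aa A V z x : ℂ) - c) • G V z (del x)⟫_ℂ = 0 := by
    rw [inner_smul_right, ← inner_conj_symm, inner_rr hsa hcm hz]
    simp
  have h3 := norm_add_sq_eq_norm_sq_add_norm_sq_of_inner_eq_zero _ _ h2
  rw [← h1] at h3
  have h4 := norm_nonneg (rr A V z x)
  have h5 := norm_nonneg (A (G V z (del x)) - c • G V z (del x))
  have h6 := norm_nonneg (((aa A V z x : ℂ) - c) • G V z (del x))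
  nlinarith only [mul_self_nonneg (‖((aa A V z x : ℂ) - c) • G V z (del x)‖), h3, h5]

theorem norm_rr_le' {z : ℂ} (hz : z.im ≠ 0) (x : Site d) :
    ‖rr A V z x‖ ≤ ‖A‖ * ‖G V z (del x)‖ := by
  have h := norm_rr_le hsa hcm hz x 0
  rw [zero_smul, sub_zero] at h
  exact h.trans (A.le_opNorm _)

theorem abs_aa_le {z : ℂ} (hz : z.im ≠ 0) (x : Site d) : |aa A V z x| ≤ ‖A‖ := by
  have h := aa_eq hsa hcm hz x
  have hp := norm_G_del_pos (V := V) hz x
  have h1 : ‖⟪G V z (del x), A (G V z (del x))⟫_ℂ‖ ≤ ‖A‖ * ‖G V z (del x)‖ ^ 2 := by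
    refine (norm_inner_le_norm _ _).trans ?_
    have := A.le_opNorm (G V z (del x))
    nlinarith
  rw [h, norm_mul, Complex.norm_real, Complex.norm_real, Real.norm_eq_abs,
    Real.norm_of_nonneg (by positivity)] at h1
  exact le_of_mul_le_mul_right h1 (by positivity)

end obs

/-! ### the key inequality -/

section key

variable {V : Cfg d} {x₀ : Site d} {s : ℝ} {A A' : Op d}
  (hcm : ∀ z : ℂ, z.im ≠ 0 → ∀ f : L2 d, A (G V z f) = G V z (A f))
  (hsa' : ∀ f g : L2 d, ⟪A' f, g⟫_ℂ = ⟪f, A' g⟫_ℂ)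
  (hcm' : ∀ z : ℂ, z.im ≠ 0 → ∀ f : L2 d,
    A' (G (Function.update V x₀ s) z f) = G (Function.update V x₀ s) z (A' f))

theorem G_upd_del {z : ℂ} (hz : z.im ≠ 0) :
    G V z (del x₀) = (1 + ((s : ℂ) - V x₀) * G V z (del x₀) x₀) •
      G (Function.update V x₀ s) z (del x₀) := by
  have h := G_upd' (V := V) hz x₀ s (del x₀)
  rw [add_smul, one_smul]
  exact h

theorem G_upd_del' {z : ℂ} (hz : z.im ≠ 0) :
    G (Function.update V x₀ s) z (del x₀) =
      (1 - ((s : ℂ) - V x₀) * G (Function.update V x₀ s) z (del x₀) x₀) • G V z (del x₀) := by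
  have h := G_upd (V := V) hz x₀ s (del x₀)
  rw [sub_smul, one_smul, eq_sub_iff_add_eq]
  exact h.symm

/-- the two factors are inverse to each other -/
theorem factor_mul {z : ℂ} (hz : z.im ≠ 0) :
    (1 + ((s : ℂ) - V x₀) * G V z (del x₀) x₀) *
      (1 - ((s : ℂ) - V x₀) * G (Function.update V x₀ s) z (del x₀) x₀) = 1 := by
  have h1 := G_upd_del (V := V) (x₀ := x₀) (s := s) hz
  have h2 := G_upd_del' (V := V) (x₀ := x₀) (s := s) hz
  rw [h2, smul_smul] at h1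
  have h3 : ((1 + ((s : ℂ) - V x₀) * G V z (del x₀) x₀) *
      (1 - ((s : ℂ) - V x₀) * G (Function.update V x₀ s) z (del x₀) x₀) - 1) •
      G V z (del x₀) = 0 := by
    rw [sub_smul, one_smul, ← h1, sub_self]
  rcases smul_eq_zero.1 h3 with h | h
  · exact sub_eq_zero.1 h
  · exact absurd h (G_del_ne hz x₀)

include hcm hcm' in
theorem diff_eq {z : ℂ} (hz : z.im ≠ 0) : ∃ c : ℂ,
    A' (G V z (del x₀)) - A (G V z (del x₀)) =
      G V z ((1 + ((s : ℂ) - V x₀) * G V z (del x₀) x₀) • A' (del x₀) - c • del x₀ -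
        A (del x₀)) := by
  set V' := Function.update V x₀ s with hV'
  set b : ℂ := 1 + ((s : ℂ) - V x₀) * G V z (del x₀) x₀ with hb
  refine ⟨b * (((s : ℂ) - V x₀) * G V' z (A' (del x₀)) x₀), ?_⟩
  have h1 : A' (G V z (del x₀)) = b • G V' z (A' (del x₀)) := by
    conv_lhs => rw [G_upd_del (s := s) hz]
    rw [map_smul, hcm' z hz]
  have h2 := G_upd (V := V) hz x₀ s (A' (del x₀))
  rw [← hV'] at h2
  have h3 : G V' z (A' (del x₀)) = G V z (A' (del x₀)) -
      (((s : ℂ) - V x₀) * G V' z (A' (del x₀)) x₀) • G V z (del x₀) := by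
    rw [eq_sub_iff_add_eq]; exact h2.symm
  rw [h1, hcm z hz, map_sub, map_sub, map_smul, map_smul, h3, smul_sub, smul_smul]
  have e : ∀ a b c : L2 d, a - b - c = a - b - c := fun _ _ _ => rfl
  have h4 : G V z (A' (del x₀)) - (((s : ℂ) - V x₀) * G V' z (A' (del x₀)) x₀) •
      G V z (del x₀) = G V' z (A' (del x₀)) := h3.symm
  rw [h4]

include hcm hsa' hcm' in
/-- the key inequality -/
theorem key {z : ℂ} (hz : 0 < z.im) :
    2 * |s - V x₀| * (G V z (del x₀) x₀).im * ‖rr A' (Function.update V x₀ s) z x₀‖ ≤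
      ‖A' (G V z (del x₀)) - A (G V z (del x₀))‖ +
      ‖A' (G V (conj z) (del x₀)) - A (G V (conj z) (del x₀))‖ := by
  have hz0 := hz.ne'
  have hz' := conj_im_ne hz0
  set V' := Function.update V x₀ s with hV'
  set t : ℂ := (s : ℂ) - V x₀ with ht
  set g : ℂ := G V z (del x₀) x₀ with hg
  set f' : L2 d := A' (del x₀) with hf'
  obtain ⟨c₁, h1⟩ := diff_eq (s := s) hcm hcm' hz0
  obtain ⟨c₂, h2⟩ := diff_eq (s := s) hcm hcm' hz'
  rw [G_conj_del hz0, ← hg, ← ht, ← hf'] at h2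
  rw [← hg, ← ht, ← hf'] at h1
  rw [h1, h2, (isRes_G V).norm_conj hz0]
  have h3 : ‖G V z ((t * (g - conj g)) • f' - (c₁ - c₂) • del x₀)‖ ≤
      ‖G V z ((1 + t * g) • f' - c₁ • del x₀ - A (del x₀))‖ +
      ‖G V z ((1 + t * conj g) • f' - c₂ • del x₀ - A (del x₀))‖ := by
    refine le_trans (le_of_eq ?_) (norm_sub_le _ _)
    rw [← map_sub]
    congr 2
    have e1 : (1 + t * g) • f' - c₁ • del x₀ - A (del x₀) -
        ((1 + t * conj g) • f' - c₂ • del x₀ - A (del x₀)) =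
        ((1 + t * g) • f' - (1 + t * conj g) • f') - (c₁ • del x₀ - c₂ • del x₀) := by abel
    rw [e1, ← sub_smul, ← sub_smul]
    congr 2
    ring
  refine le_trans ?_ h3
  -- rewrite in terms of `V'`
  have h4 := G_upd (V := V) hz0 x₀ s f'
  rw [← hV', ← ht] at h4
  have h5 := G_upd_del (V := V) (x₀ := x₀) (s := s) hz0
  rw [← hV', ← ht, ← hg] at h5
  have h6 : G V' z f' = A' (G V' z (del x₀)) := by rw [hf', hcm' z hz0]
  set b : ℂ := 1 + t * g with hb
  set τ : ℂ := t * (g - conj g) with hτ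
  have h7 : ∃ c : ℂ, G V z (τ • f' - (c₁ - c₂) • del x₀) =
      τ • (A' (G V' z (del x₀))) - c • G V' z (del x₀) := by
    refine ⟨-(τ * (t * G V' z f' x₀) * b) + (c₁ - c₂) * b, ?_⟩
    rw [map_sub, map_smul, map_smul, h4, h5, h6, smul_add, smul_smul, smul_smul, smul_smul,
      add_smul, neg_smul]
    abel
  obtain ⟨c, h8⟩ := h7
  rw [h8]
  have h9 : ‖τ‖ = 2 * |s - V x₀| * g.im := by
    have e1 : g - conj g = ((2 * g.im : ℝ) : ℂ) * Complex.I := Complex.sub_conj g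
    have e2 : t = ((s - V x₀ : ℝ) : ℂ) := by rw [ht]; push_cast; ring
    have hpos : 0 ≤ g.im := (im_G_del_pos hz x₀).le
    rw [hτ, e1, e2, norm_mul, norm_mul, Complex.norm_I, mul_one, Complex.norm_real,
      Complex.norm_real, Real.norm_eq_abs, Real.norm_of_nonneg (by positivity)]
    ring
  by_cases hτ0 : τ = 0
  · rw [← h9, hτ0, norm_zero, zero_mul]
    exact norm_nonneg _
  · have h10 : τ • (A' (G V' z (del x₀))) - c • G V' z (del x₀) =
        τ • (A' (G V' z (del x₀)) - (τ⁻¹ * c) • G V' z (del x₀)) := by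
      rw [smul_sub, smul_smul, ← mul_assoc, mul_inv_cancel₀ hτ0, one_mul]
    rw [h10, norm_smul, h9]
    refine mul_le_mul_of_nonneg_left ?_ (by rw [← h9]; exact norm_nonneg _)
    exact norm_rr_le hsa' hcm' hz0 x₀ _

end key

end Pool.Agent.QE
end
end -- Pool.Agent.Helper54_QE.Rank

section -- Pool.Agent.Helper54_QE.Defs2

/-!
# Quantum ergodicity of eigenfunctions in boxes: definitions and module statements
-/

set_option autoImplicit false
set_option linter.unusedSectionVars false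

open scoped InnerProductSpace ComplexConjugate Topology ENNReal
open MeasureTheory Filter

noncomputable section

namespace Pool.Agent.QE

open Pool.Agent.Anderson Pool.Agent.Helper54.Bal

variable {d : ℕ}

/-- the Cayley transform `U = (H - i)(H + i)⁻¹ = 1 - 2i (H + i)⁻¹`, a unitary operator -/
def cay (V : Cfg d) : Op d := 1 - (2 * Complex.I) • G V (-Complex.I)

/-- its inverse `U* = 1 + 2i (H - i)⁻¹` -/
def cayS (V : Cfg d) : Op d := 1 + (2 * Complex.I) • G V Complex.I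

/-- the time average `(N+1)⁻¹ ∑_{n ≤ N} U*ⁿ B Uⁿ` -/
def avg (V : Cfg d) (N : ℕ) (B : Op d) : Op d :=
  ((N : ℂ) + 1)⁻¹ • ∑ n ∈ Finset.range (N + 1), (cayS V) ^ n * B * (cay V) ^ n

/-- finite combinations of `1 / (E - w)` with non-real poles -/
structure RF where
  n : ℕ
  a : Fin n → ℂ
  w : Fin n → ℂ
  hw : ∀ k, (w k).im ≠ 0

/-- the value at a real energy -/
def RF.ev (p : RF) (E : ℝ) : ℂ := ∑ k, p.a k / ((E : ℂ) - p.w k)

/-- the value at `H = Δ + V` -/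
def RF.op (p : RF) (V : Cfg d) : Op d := ∑ k, p.a k • G V (p.w k)

/-- the box `[-L, L]^d` -/
def bx (d : ℕ) (L : ℕ) : Finset (Site d) :=
  Fintype.piFinset fun _ : Fin d => Finset.Icc (-(L : ℤ)) L

/-- the inner boundary of a finite set -/
def bdry (Λ : Finset (Site d)) : Finset (Site d) :=
  open Classical in
  Λ.filter fun x => ∃ i : Fin d, x + Pi.single i 1 ∉ Λ ∨ x - Pi.single i 1 ∉ Λ

/-- `φ` vanishes outside the finite set `Λ` and `(Δ + V) φ = E φ` on `Λ`: an eigenvector of the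
restriction of `Δ + V` to `Λ`, extended by zero -/
def IsBoxEigen (V : Cfg d) (Λ : Finset (Site d)) (E : ℝ) (φ : L2 d) : Prop :=
  (∀ x ∉ Λ, φ x = 0) ∧ ∀ x ∈ Λ, lap φ x + (V x : ℂ) * φ x = (E : ℂ) * φ x

/-! ### module statements -/

/-- module ERG: the mean ergodic theorem for stationary sequences -/
def ErgStatement : Prop := ∀ (X : Type) [NormedAddCommGroup X] [InnerProductSpace ℂ X]
  (v : ℕ → X) (_ : ∀ (s : Finset ℕ) (l : ℕ → ℂ),
    ‖∑ n ∈ s, l n • v (n + 1)‖ = ‖∑ n ∈ s, l n • v n‖),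
  CauchySeq fun N : ℕ => ((N : ℂ) + 1)⁻¹ • ∑ n ∈ Finset.range (N + 1), v n

/-- module ISO: the Heisenberg evolution is an isometry for the trace norm -/
def IsoStatement : Prop := ∀ (d : ℕ) (μ : Measure ℝ) [IsProbabilityMeasure μ]
  (D : Cfg d → Op d) (_ : Cov D), Cov (fun V => cayS V * D V * cay V) ∧
    ∫⁻ V, ‖(cayS V * D V * cay V) (del 0)‖ₑ ^ 2 ∂(PP d μ) =
      ∫⁻ V, ‖D V (del 0)‖ₑ ^ 2 ∂(PP d μ)

/-- module RIGHT: right multiplication by a function of `H` is bounded for the trace norm -/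
def RightStatement : Prop := ∀ (d : ℕ) (μ : Measure ℝ) [IsProbabilityMeasure μ] (p : RF),
  ∃ K : ℝ, 0 ≤ K ∧ ∀ D : Cfg d → Op d, Cov D →
    ∫⁻ V, ‖D V (p.op V (del 0))‖ₑ ^ 2 ∂(PP d μ) ≤
      ENNReal.ofReal K * ∫⁻ V, ‖D V (del 0)‖ₑ ^ 2 ∂(PP d μ)

/-- module LIM: completeness for the trace norm -/
def LimStatement : Prop := ∀ (d : ℕ) (μ : Measure ℝ) [IsProbabilityMeasure μ]
  (D : ℕ → Cfg d → Op d) (_ : ∀ n, Cov (D n)) (C : ℝ) (_ : ∀ n V, ‖D n V‖ ≤ C)
  (_ : ∀ κ : ℝ, 0 < κ → ∃ N₀ : ℕ, ∀ n ≥ N₀, ∀ m ≥ N₀,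
    ∫⁻ V, ‖D n V (del 0) - D m V (del 0)‖ₑ ^ 2 ∂(PP d μ) ≤ ENNReal.ofReal κ),
  ∃ (A : Cfg d → Op d) (φ : ℕ → ℕ), StrictMono φ ∧ Cov A ∧ (∀ V, ‖A V‖ ≤ C) ∧
    (∀ V, A V = 0 ∨ ∀ f, Tendsto (fun k => D (φ k) V f) atTop (𝓝 (A V f))) ∧
    Tendsto (fun n => ∫⁻ V, ‖D n V (del 0) - A V (del 0)‖ₑ ^ 2 ∂(PP d μ)) atTop (𝓝 0)

/-- module CONS: the conserved part of a covariant observable (uses ERG, ISO, LIM) -/
def ConsStatement : Prop := ∀ (d : ℕ) (μ : Measure ℝ) [IsProbabilityMeasure μ]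
  (B : Cfg d → Op d) (_ : Cov B) (C : ℝ) (_ : ∀ V, ‖B V‖ ≤ C),
  ∃ A : Cfg d → Op d, Cov A ∧ (∀ V, ‖A V‖ ≤ C) ∧
    (∀ (V : Cfg d) (z : ℂ), z.im ≠ 0 → ∀ f : L2 d, A V (G V z f) = G V z (A V f)) ∧
    Tendsto (fun N => ∫⁻ V, ‖avg V N (B V) (del 0) - A V (del 0)‖ₑ ^ 2 ∂(PP d μ)) atTop (𝓝 0)

/-- module SW: density of rational functions -/
def SWStatement : Prop := ∀ (h : ℝ → ℂ) (_ : Continuous h) (_ : HasCompactSupport h) (δ : ℝ)
  (_ : 0 < δ), ∃ p : RF, ∀ E, ‖h E - p.ev E‖ ≤ δ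

/-- module DENS: density of continuous functions -/
def DensStatement : Prop := ∀ (ν : Measure ℝ) [IsFiniteMeasure ν] (c : ℝ → ℂ)
  (_ : Measurable c) (C : ℝ) (_ : 0 ≤ C) (_ : ∀ E, ‖c E‖ ≤ C) (δ : ℝ) (_ : 0 < δ),
  ∃ c' : ℝ → ℂ, Continuous c' ∧ HasCompactSupport c' ∧ (∀ E, ‖c' E‖ ≤ C) ∧
    ∫⁻ E, ‖c E - c' E‖ₑ ^ 2 ∂ν ≤ ENNReal.ofReal δ

/-- module BOX: the boundary of a box is small -/
def BoxStatement : Prop := ∀ d : ℕ,
  Tendsto (fun L : ℕ => ((bdry (bx d L)).card : ℝ) / ((bx d L).card : ℝ)) atTop (𝓝 0)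

/-- module FV: the finite volume inequality, for every potential -/
def FVStatement : Prop := ∀ (d : ℕ) (C : ℝ) (N : ℕ) (p q : RF) (θ : ℝ) (_ : 0 < θ),
  ∃ (η K : ℝ), 0 < η ∧ ∀ (V : Cfg d) (Λ : Finset (Site d)) (B : Op d) (_ : ‖B‖ ≤ C) (n : ℕ)
    (φ : Fin n → L2 d) (E : Fin n → ℝ) (_ : Orthonormal ℂ φ)
    (_ : ∀ j, IsBoxEigen V Λ (E j) (φ j)),
    ∑ j, ∑ k, (if |E j - E k| ≤ η then
      ‖p.ev (E j)‖ ^ 2 * ‖⟪φ k, B (φ j)⟫_ℂ - (if j = k then q.ev (E j) else 0)‖ ^ 2 else 0) ≤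
      (1 + θ) * ∑ x ∈ Λ, ‖(avg V N B - q.op V) (p.op V (del x))‖ ^ 2 +
        K * ((bdry Λ).card : ℝ)

/-- module AC2: the energy resolution of a conserved observable -/
def AC2Statement : Prop := ∀ (d : ℕ) (V : Cfg d) (A : Op d)
  (_ : ∀ z : ℂ, z.im ≠ 0 → ∀ f : L2 d, A (G V z f) = G V z (A f))
  (C : ℝ) (_ : ‖A‖ ≤ C) (c : ℝ → ℂ) (_ : Measurable c) (_ : ∀ E, ‖c E‖ ≤ C)
  (e : ℕ → ℝ) (_ : ∀ k, 0 < e k) (_ : Tendsto e atTop (𝓝 0))
  (_ : ∀ᵐ E : ℝ, Tendsto (fun k => Real.sqrt (e k) *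
    ‖A (G V (zz (e k) E) (del 0)) - c E • G V (zz (e k) E) (del 0)‖) atTop (𝓝 0))
  (g₀ : ℝ → ℝ) (_ : Measurable g₀)
  (_ : ∀ᵐ E : ℝ, Tendsto (fun k => (G V (zz (e k) E) (del 0) 0).im) atTop (𝓝 (g₀ E)))
  (m : Measure ℝ) (_ : IsFiniteMeasure m)
  (_ : ∀ z : ℂ, z.im ≠ 0 → G V z (del 0) 0 = ∫ E : ℝ, 1 / ((E : ℂ) - z) ∂m)
  (p q : RF) (Q : ℝ) (_ : ∀ E, ‖q.ev E‖ ≤ Q),
  ‖A (p.op V (del 0)) - q.op V (p.op V (del 0))‖ₑ ^ 2 ≤
    (∫⁻ E : ℝ, ENNReal.ofReal (‖p.ev E‖ ^ 2 * ‖c E - q.ev E‖ ^ 2 * (g₀ E / Real.pi))) +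
    ENNReal.ofReal ((C + Q) ^ 2) *
      ∫⁻ E, ENNReal.ofReal (‖p.ev E‖ ^ 2) ∂(m.singularPart volume)

/-- module SPEC: existence of the spectral measure of a delta function -/
def SpecStatement : Prop := ∀ (d : ℕ) (V : Cfg d) (x : Site d),
  ∃ m : Measure ℝ, IsFiniteMeasure m ∧
    ∀ z : ℂ, z.im ≠ 0 → G V z (del x) x = ∫ E : ℝ, 1 / ((E : ℂ) - z) ∂m

end Pool.Agent.QE
end
end -- Pool.Agent.Helper54_QE.Defs2

section -- Pool.Agent.Helper36_QE.Trace

/-!
# Module TRACE: the trace-Plancherel identity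
-/

set_option autoImplicit false

open scoped InnerProductSpace ComplexConjugate Topology ENNReal
open MeasureTheory Filter

noncomputable section

namespace Pool.Agent.QE

open Pool.Agent.Anderson Pool.Agent.Helper54.Bal

variable {d : ℕ}

namespace Tr

theorem mp_tau (μ : Measure ℝ) [IsProbabilityMeasure μ] (a : Site d) :
    MeasurePreserving (tau a) (PP d μ) (PP d μ) := by
  refine ⟨?_, ?_⟩
  · unfold tau
    fun_prop
  · exact Measure.map_infinitePi_infinitePi_of_inj (P := fun _ : Site d => μ)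
      (f := fun x : Site d => x + a) (add_left_injective a)

theorem continuous_coord (x : Site d) : Continuous (fun f : L2 d => f x) :=
  (lp.evalCLM ℂ (fun _ : Site d => ℂ) 2 x).continuous

theorem hasSum_del (f : L2 d) : HasSum (fun x => f x • del x) f := by
  have h := lp.hasSum_single (p := 2) (by norm_num) f
  have e : (fun x => f x • del x) = fun x => lp.single 2 x (f x) := by
    funext x
    ext y
    rw [lp.coeFn_smul, Pi.smul_apply, del_apply, lp.single_apply, Pi.single_apply]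
    split_ifs with h
    · subst h; simp
    · simp
  rw [e]
  exact h

section meas
variable {Ω : Type*} [MeasurableSpace Ω]

theorem sm_apply {D : Ω → Op d} (hD : ∀ y, StronglyMeasurable (fun ω => D ω (del y)))
    {u : Ω → L2 d} (hu : StronglyMeasurable u) : StronglyMeasurable (fun ω => D ω (u ω)) := by
  have h1 : ∀ s : Finset (Site d),
      StronglyMeasurable (fun ω => ∑ y ∈ s, u ω y • D ω (del y)) := by
    intro s
    refine Finset.stronglyMeasurable_fun_sum s fun y _ => ?_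
    exact ((continuous_coord y).comp_stronglyMeasurable hu).smul (hD y)
  refine stronglyMeasurable_of_tendsto (u := (atTop : Filter (Finset (Site d)))) h1 ?_
  rw [tendsto_pi_nhds]
  intro ω
  have h2 := (hasSum_del (u ω)).mapL (D ω)
  have h3 : (fun y => D ω (u ω y • del y)) = fun y => u ω y • D ω (del y) := by
    funext y; rw [map_smul]
  rw [h3] at h2
  exact h2

theorem sm_of_coord {u : Ω → L2 d} (hu : ∀ x, Measurable (fun ω => u ω x)) :
    StronglyMeasurable u := by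
  have h1 : ∀ s : Finset (Site d),
      StronglyMeasurable (fun ω => ∑ y ∈ s, u ω y • (del y : L2 d)) := by
    intro s
    refine Finset.stronglyMeasurable_fun_sum s fun y _ => ?_
    exact (hu y).stronglyMeasurable.smul_const _
  refine stronglyMeasurable_of_tendsto (u := (atTop : Filter (Finset (Site d)))) h1 ?_
  rw [tendsto_pi_nhds]
  intro ω
  exact hasSum_del (u ω)

theorem measurable_coord {u : Ω → L2 d} (hu : StronglyMeasurable u) (x : Site d) :
    Measurable (fun ω => u ω x) :=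
  ((continuous_coord x).comp_stronglyMeasurable hu).measurable

end meas

theorem enorm_sq_tsum (f : L2 d) : ‖f‖ₑ ^ 2 = ∑' x, ‖f x‖ₑ ^ 2 := by
  have e : ∀ {X : Type} [SeminormedAddCommGroup X] (v : X), ‖v‖ₑ ^ 2 = ENNReal.ofReal (‖v‖ ^ 2) := by
    intro X _ v
    rw [ENNReal.ofReal_pow (norm_nonneg _), ofReal_norm]
  rw [e, L2.norm_sq, ENNReal.ofReal_tsum_of_nonneg (fun x => by positivity) (L2.summable_sq f)]
  exact tsum_congr fun x => (e _).symm

theorem adj_coord (T : Op d) (f : L2 d) (y : Site d) :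
    ContinuousLinearMap.adjoint T f y = ⟪T (del y), f⟫_ℂ := by
  rw [← inner_del_left y, ContinuousLinearMap.adjoint_inner_right]

theorem adj_del_coord (T : Op d) (x y : Site d) :
    ContinuousLinearMap.adjoint T (del x) y = conj (T (del y) x) := by
  rw [adj_coord, inner_del_right]

theorem shift_del (a x : Site d) : shift a (del x) = del (x - a) := by
  ext y
  rw [shift_apply, del_apply, del_apply]
  congr 1
  exact propext ⟨fun h => by rw [← h]; abel, fun h => by rw [h]; abel⟩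

/-- trace identity for covariant families -/
theorem trace_gen (μ : Measure ℝ) [IsProbabilityMeasure μ] {T : Cfg d → Op d}
    (hm : ∀ x y : Site d, Measurable fun V => T V (del x) y)
    (hc : ∀ (a : Site d) (V : Cfg d) (f : L2 d), T (tau a V) (shift a f) = shift a (T V f))
    (x : Site d) :
    ∫⁻ V, ‖T V (del x)‖ₑ ^ 2 ∂(PP d μ) =
      ∫⁻ V, ‖ContinuousLinearMap.adjoint (T V) (del 0)‖ₑ ^ 2 ∂(PP d μ) := by
  have e1 : ∀ V : Cfg d, ‖T V (del x)‖ₑ ^ 2 = ∑' y, ‖T V (del x) y‖ₑ ^ 2 := fun V =>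
    enorm_sq_tsum _
  have e2 : ∀ V : Cfg d, ‖ContinuousLinearMap.adjoint (T V) (del 0)‖ₑ ^ 2 =
      ∑' y, ‖T V (del y) 0‖ₑ ^ 2 := by
    intro V
    rw [enorm_sq_tsum]
    refine tsum_congr fun y => ?_
    rw [adj_del_coord]
    congr 1
    rw [← ofReal_norm, ← ofReal_norm, Complex.norm_conj]
  simp only [e1, e2]
  have hm1 : ∀ x y, Measurable fun V => ‖T V (del x) y‖ₑ ^ 2 := fun x y =>
    (hm x y).enorm.pow_const 2
  rw [lintegral_tsum (fun y => (hm1 x y).aemeasurable),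
    lintegral_tsum (fun y => (hm1 y 0).aemeasurable),
    ← (Equiv.subLeft x).tsum_eq (fun y => ∫⁻ V, ‖T V (del y) 0‖ₑ ^ 2 ∂(PP d μ))]
  refine tsum_congr fun y => ?_
  have h0 := (mp_tau μ y).lintegral_comp (hm1 (x - y) 0)
  rw [Equiv.subLeft_apply, ← h0]
  refine lintegral_congr fun V => ?_
  have h1 := hc y V (del x)
  rw [shift_del] at h1
  rw [h1, shift_apply, zero_add]

theorem G_cov {z : ℂ} (hz : z.im ≠ 0) (a : Site d) (V : Cfg d) (f : L2 d) :
    G (tau a V) z (shift a f) = shift a (G V z f) := by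
  symm
  apply G_unique hz
  intro x
  have h := G_eq (V := V) hz f (x + a)
  have hl : lap (⇑(shift a (G V z f))) x = lap (G V z f) (x + a) := by
    unfold lap
    simp only [shift_apply]
    refine Finset.sum_congr rfl fun i _ => ?_
    rw [add_right_comm, sub_add_eq_add_sub]
  rw [hl, shift_apply, shift_apply]
  exact h

theorem sm_adj {D : Cfg d → Op d} (hD : Cov D) :
    StronglyMeasurable fun V => ContinuousLinearMap.adjoint (D V) (del 0) := by
  apply sm_of_coord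
  intro y
  simp only [adj_del_coord]
  exact Complex.continuous_conj.measurable.comp (measurable_coord (hD.meas (del y)) 0)

theorem sm_G {ε : ℝ} (hε : ε ≠ 0) {u : Cfg d → L2 d} (hu : StronglyMeasurable u) :
    StronglyMeasurable fun p : Cfg d × ℝ => G p.1 (zz ε p.2) (u p.1) := by
  have h1 : StronglyMeasurable fun p : Cfg d × ℝ => p.1 := measurable_fst.stronglyMeasurable
  have h2 : StronglyMeasurable fun p : Cfg d × ℝ => p.2 := measurable_snd.stronglyMeasurable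
  have h3 : StronglyMeasurable fun p : Cfg d × ℝ => u p.1 := hu.comp_measurable measurable_fst
  have h4 : StronglyMeasurable fun p : Cfg d × ℝ => (p.1, p.2, u p.1) :=
    h1.prodMk (h2.prodMk h3)
  have h5 := continuous_G (d := d) hε
  have h6 := h5.comp_stronglyMeasurable h4
  exact h6

/-- Plancherel for both signs of `ε` -/
theorem plancherel (V : Cfg d) {ε : ℝ} (hε : ε ≠ 0) (f : L2 d) :
    ∫⁻ E : ℝ, ENNReal.ofReal |ε| * ‖G V (conj (zz ε E)) f‖ₑ ^ 2 =
      ENNReal.ofReal Real.pi * ‖f‖ₑ ^ 2 := by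
  have hz : ∀ E : ℝ, (zz |ε| E).im ≠ 0 := fun E => by rw [zz_im]; exact abs_ne_zero.2 hε
  have h0 : 0 < |ε| := abs_pos.2 hε
  have e : ∀ {X : Type} [SeminormedAddCommGroup X] (v : X), ‖v‖ₑ ^ 2 = ENNReal.ofReal (‖v‖ ^ 2) := by
    intro X _ v
    rw [ENNReal.ofReal_pow (norm_nonneg _), ofReal_norm]
  have hn : ∀ E : ℝ, ‖G V (conj (zz ε E)) f‖ = ‖G V (zz |ε| E) f‖ := by
    intro E
    rcases le_or_gt 0 ε with h | h
    · rw [abs_of_nonneg h]
      exact (isRes_G V).norm_conj (by rw [zz_im]; exact hε) f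
    · have : conj (zz ε E) = zz |ε| E := by
        rw [abs_of_neg h]; unfold zz; simp
      rw [this]
  have hi := (isRes_G V).integral_sq h0 f
  have hint := (isRes_G V).integrable_sq h0 f
  rw [lintegral_const_mul' _ _ ENNReal.ofReal_ne_top]
  have h1 : ∫⁻ E : ℝ, ‖G V (conj (zz ε E)) f‖ₑ ^ 2 =
      ENNReal.ofReal (Real.pi / |ε| * ‖f‖ ^ 2) := by
    rw [← hi, ofReal_integral_eq_lintegral_ofReal hint
      (Eventually.of_forall fun E => by positivity)]
    refine lintegral_congr fun E => ?_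
    rw [e, hn]
  rw [h1, e, ← ENNReal.ofReal_mul (abs_nonneg _), ← ENNReal.ofReal_mul Real.pi_pos.le]
  congr 1
  field_simp

end Tr

open Tr in
theorem trace : TraceStatement := by
  intro d μ _ D hD x ε hε
  have hz : ∀ E : ℝ, (zz ε E).im ≠ 0 := fun E => by rw [zz_im]; exact hε
  -- measurability
  have hG : ∀ x : Site d, StronglyMeasurable fun p : Cfg d × ℝ => G p.1 (zz ε p.2) (del x) :=
    fun x => sm_G hε (u := fun _ => del x) stronglyMeasurable_const
  have hDG : ∀ x : Site d,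
      StronglyMeasurable fun p : Cfg d × ℝ => D p.1 (G p.1 (zz ε p.2) (del x)) := fun x =>
    sm_apply (D := fun p : Cfg d × ℝ => D p.1)
      (fun y => (hD.meas (del y)).comp_measurable measurable_fst) (hG x)
  have hA := sm_adj hD
  have hzc : ∀ E : ℝ, conj (zz ε E) = zz (-ε) E := fun E => by unfold zz; simp
  have hGA : StronglyMeasurable fun p : Cfg d × ℝ =>
      G p.1 (conj (zz ε p.2)) (ContinuousLinearMap.adjoint (D p.1) (del 0)) := by
    simp only [hzc]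
    exact sm_G (neg_ne_zero.2 hε) hA
  -- fixed energy
  have key : ∀ E : ℝ, ∫⁻ V, ‖D V (G V (zz ε E) (del x))‖ₑ ^ 2 ∂(PP d μ) =
      ∫⁻ V, ‖G V (conj (zz ε E)) (ContinuousLinearMap.adjoint (D V) (del 0))‖ₑ ^ 2
        ∂(PP d μ) := by
    intro E
    have h1 := trace_gen μ (T := fun V => (D V).comp (G V (zz ε E))) (fun x y => by
      simp only [ContinuousLinearMap.comp_apply]
      exact measurable_coord ((hDG x).comp_measurable
        (measurable_id.prodMk (measurable_const (a := E)))) y) (fun a V f => by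
      simp only [ContinuousLinearMap.comp_apply]
      rw [G_cov (hz E), hD.cov]) x
    simp only [ContinuousLinearMap.comp_apply] at h1
    rw [h1]
    refine lintegral_congr fun V => ?_
    congr 2
    rw [ContinuousLinearMap.adjoint_comp, ContinuousLinearMap.comp_apply]
    refine ext_inner_left ℂ fun v => ?_
    rw [ContinuousLinearMap.adjoint_inner_right, (isRes_G V).adj _ (hz E)]
  have hswap1 : ∫⁻ V, (∫⁻ E : ℝ, ENNReal.ofReal |ε| * ‖D V (G V (zz ε E) (del x))‖ₑ ^ 2)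
      ∂(PP d μ) = ∫⁻ E : ℝ, ∫⁻ V, ENNReal.ofReal |ε| * ‖D V (G V (zz ε E) (del x))‖ₑ ^ 2
        ∂(PP d μ) := by
    apply lintegral_lintegral_swap
    exact (((hDG x).enorm.pow_const 2).const_mul _).aemeasurable
  have hswap2 : ∫⁻ E : ℝ, ∫⁻ V, ENNReal.ofReal |ε| *
      ‖G V (conj (zz ε E)) (ContinuousLinearMap.adjoint (D V) (del 0))‖ₑ ^ 2 ∂(PP d μ) =
      ∫⁻ V, (∫⁻ E : ℝ, ENNReal.ofReal |ε| *
        ‖G V (conj (zz ε E)) (ContinuousLinearMap.adjoint (D V) (del 0))‖ₑ ^ 2) ∂(PP d μ) := by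
    symm
    apply lintegral_lintegral_swap
    exact ((hGA.enorm.pow_const 2).const_mul _).aemeasurable
  rw [hswap1]
  have h2 : ∀ E : ℝ, ∫⁻ V, ENNReal.ofReal |ε| * ‖D V (G V (zz ε E) (del x))‖ₑ ^ 2 ∂(PP d μ) =
      ∫⁻ V, ENNReal.ofReal |ε| *
        ‖G V (conj (zz ε E)) (ContinuousLinearMap.adjoint (D V) (del 0))‖ₑ ^ 2 ∂(PP d μ) := by
    intro E
    rw [lintegral_const_mul' _ _ ENNReal.ofReal_ne_top,
      lintegral_const_mul' _ _ ENNReal.ofReal_ne_top, key]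
  simp only [h2]
  rw [hswap2]
  simp only [plancherel _ hε]
  rw [lintegral_const_mul' _ _ ENNReal.ofReal_ne_top]
  congr 1
  exact (trace_gen μ (fun x y => measurable_coord (hD.meas (del x)) y) hD.cov 0).symm

end Pool.Agent.QE
end
end -- Pool.Agent.Helper36_QE.Trace
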