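import Pool.Agent.Helper12_MEB.B018

/-!
# Merged copies (generated) of the modules

* `Pool.Agent.Helper36_QE.Tight`
* `Pool.Agent.Helper54_QE.Pair`
* `Pool.Agent.Helper54_QE.Pair2`
* `Pool.Agent.Helper54_QE.Meas`
* `Pool.Agent.Helper54_QE.Bv`
* `Pool.Agent.Helper54_QE.Seqs`
* `Pool.Agent.Helper54_QE.Lims`
* `Pool.Agent.Helper54_QE.Final`
* `Pool.Agent.Helper68_QE.Resample`
* `Pool.Agent.Helper68_QE.Seq`
* `Pool.Agent.Helper94_QE.Cauchy`
* `Pool.Agent.Helper94_QE.Graph`
* `Pool.Agent.Helper97_ACE.Seq`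
* `Pool.Agent.Helper97_ACE.Pos`
* `Pool.Agent.Helper97_ACE.Avg`
* `Pool.Agent.Helper54_QE.Alg`
-/

set_option autoImplicit false

section -- Pool.Agent.Helper36_QE.Tight

/-!
# Module TIGHT: the Poisson formula for the square root of a Herglotz function
-/

set_option autoImplicit false

open scoped InnerProductSpace ComplexConjugate Topology ENNReal
open MeasureTheory Filter

noncomputable section

namespace Pool.Agent.QE

open Pool.Agent.Anderson Pool.Agent.Helper54.Bal

/-- Poisson formula for bounded holomorphic functions on the upper half plane, on horizontal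
lines -/
theorem poisson_line {g : ℂ → ℂ} {ε M : ℝ} (hε : 0 < ε)
    (hd : ∀ z : ℂ, 0 < z.im → DifferentiableAt ℂ g z)
    (hb : ∀ z : ℂ, ε ≤ z.im → ‖g z‖ ≤ M) :
    Integrable (fun E : ℝ => g (zz ε E) * (((1 + E ^ 2)⁻¹ : ℝ) : ℂ)) ∧
      ∫ E : ℝ, g (zz ε E) * (((1 + E ^ 2)⁻¹ : ℝ) : ℂ) = Real.pi * g (zz (1 + ε) 0) := by
  set z0 : ℂ := zz (1 + ε) 0 with hz0
  have hz0im : z0.im = 1 + ε := by rw [hz0, zz_im]
  set η : ℝ := min ε 1 with hη
  have hη0 : 0 < η := lt_min hε one_pos
  set a : ℝ := ε - η with ha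
  have ha0 : 0 ≤ a := by rw [ha, sub_nonneg]; exact min_le_left _ _
  have ha1 : η ≤ 1 := min_le_right _ _
  have hM : 0 ≤ M := (norm_nonneg _).trans (hb z0 (by rw [hz0im]; linarith))
  -- the slope
  have hds : DifferentiableOn ℂ (dslope g z0) {z : ℂ | 0 < z.im} := by
    rw [Complex.differentiableOn_dslope]
    · exact fun z hz => (hd z hz).differentiableWithinAt
    · refine IsOpen.mem_nhds (isOpen_lt continuous_const Complex.continuous_im) ?_
      change 0 < z0.im
      rw [hz0im]; linarith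
  have hds' : ∀ z : ℂ, 0 < z.im → DifferentiableAt ℂ (dslope g z0) z := fun z hz =>
    hds.differentiableAt ((isOpen_lt continuous_const Complex.continuous_im).mem_nhds hz)
  obtain ⟨K1, hK1⟩ : ∃ K : ℝ, ∀ z ∈ Metric.closedBall z0 1, ‖dslope g z0 z‖ ≤ K := by
    refine (isCompact_closedBall z0 1).exists_bound_of_continuousOn ?_
    intro z hz
    refine (hds' z ?_).continuousAt.continuousWithinAt
    have h1 := Complex.abs_im_le_norm (z - z0)
    rw [Metric.mem_closedBall, dist_eq_norm] at hz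
    have h2 := neg_abs_le ((z - z0).im)
    rw [Complex.sub_im, hz0im] at h2
    rw [Complex.sub_im, hz0im] at h1
    linarith
  have hK1' : 0 ≤ K1 := (norm_nonneg _).trans (hK1 z0 (by simp))
  have hbd : ∀ z : ℂ, ε ≤ z.im → ‖dslope g z0 z‖ ≤ (2 * K1 + 4 * M) / (1 + ‖z - z0‖) := by
    intro z hz
    have hr := norm_nonneg (z - z0)
    rw [le_div_iff₀ (by linarith)]
    by_cases h1 : ‖z - z0‖ ≤ 1
    · have h2 := hK1 z (by rwa [Metric.mem_closedBall, dist_eq_norm])
      have h3 := norm_nonneg (dslope g z0 z)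
      nlinarith only [hM, hK1', hr, h1, h2]
    · push Not at h1
      have hne : z ≠ z0 := by
        rintro rfl
        simp at h1
        linarith
      have h3 : ‖g z - g z0‖ ≤ 2 * M := by
        refine (norm_sub_le _ _).trans ?_
        linarith [hb z hz, hb z0 (by rw [hz0im]; linarith)]
      rw [dslope_of_ne _ hne, slope_def_module, norm_smul, norm_inv]
      have h4 : ‖z - z0‖⁻¹ * ‖z - z0‖ = 1 := inv_mul_cancel₀ (by linarith)
      have h5 : ‖z - z0‖⁻¹ ≤ 1 := inv_le_one_of_one_le₀ h1.le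
      have h6 : 0 ≤ ‖z - z0‖⁻¹ := by positivity
      have h7 := norm_nonneg (g z - g z0)
      calc ‖z - z0‖⁻¹ * ‖g z - g z0‖ * (1 + ‖z - z0‖)
          = ‖z - z0‖⁻¹ * ‖g z - g z0‖ + (‖z - z0‖⁻¹ * ‖z - z0‖) * ‖g z - g z0‖ := by ring
        _ ≤ 1 * ‖g z - g z0‖ + 1 * ‖g z - g z0‖ := by rw [h4]; gcongr
        _ ≤ 2 * K1 + 4 * M := by linarith only [hK1', h3]
  -- the function to which the contour shift applies
  set R : ℂ → ℂ := fun z => dslope g z0 (z + a * Complex.I) /
    (z + a * Complex.I - z0 + 2 * Complex.I) with hR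
  have him : ∀ z : ℂ, (z + a * Complex.I).im = z.im + a := by intro z; simp
  have him2 : ∀ z : ℂ, (z + a * Complex.I - z0 + 2 * Complex.I).im = z.im + 1 - η := by
    intro z
    simp only [Complex.add_im, Complex.sub_im, hz0im, Complex.mul_im, Complex.ofReal_re,
      Complex.I_im, Complex.ofReal_im, Complex.I_re, mul_one, mul_zero, add_zero,
      Complex.re_ofNat, Complex.im_ofNat]
    rw [ha]; ring
  have hne2 : ∀ z : ℂ, 0 < z.im → z + a * Complex.I - z0 + 2 * Complex.I ≠ 0 := by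
    intro z hz h0
    have := congrArg Complex.im h0
    rw [him2] at this
    simp at this
    linarith
  have hRd : ∀ z : ℂ, 0 < z.im → DifferentiableAt ℂ R z := by
    intro z hz
    have h1 : DifferentiableAt ℂ (fun z : ℂ => z + a * Complex.I) z :=
      differentiableAt_id.add_const _
    refine DifferentiableAt.div ?_ ((h1.sub_const _).add_const _) (hne2 z hz)
    exact DifferentiableAt.comp z (hds' (z + a * Complex.I) (by rw [him]; linarith)) h1
  have hRb : ∀ z : ℂ, η ≤ z.im → ‖R z‖ ≤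
      (4 * (2 * K1 + 4 * M) * (1 + ‖z0 - a * Complex.I‖) ^ 2) / ‖z‖ ^ 2 := by
    intro z hz
    have hzi : 0 < z.im := hη0.trans_le hz
    have hzn : 0 < ‖z‖ := by
      refine norm_pos_iff.2 fun h0 => ?_
      rw [h0] at hzi; simp at hzi
    set u : ℂ := z + a * Complex.I with hu
    have hui : ε ≤ u.im := by rw [hu, him, ha]; linarith
    have h1 := hbd u hui
    set r : ℝ := ‖u - z0‖ with hr
    have hr0 : 0 ≤ r := norm_nonneg _
    have h2 : 1 ≤ ‖u - z0 + 2 * Complex.I‖ := by
      have := Complex.im_le_norm (u - z0 + 2 * Complex.I)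
      rw [hu, him2, ← hu] at this
      linarith
    have h3 : r - 2 ≤ ‖u - z0 + 2 * Complex.I‖ := by
      have h4 : u - z0 = (u - z0 + 2 * Complex.I) - 2 * Complex.I := by ring
      have h5 := norm_sub_le (u - z0 + 2 * Complex.I) (2 * Complex.I)
      rw [← h4, norm_mul, Complex.norm_I] at h5
      simp at h5
      linarith only [h5]
    have h6 : (1 + r) / 4 ≤ ‖u - z0 + 2 * Complex.I‖ := by linarith only [h2, h3]
    have h7 : ‖z‖ ≤ (1 + ‖z0 - a * Complex.I‖) * (1 + r) := by
      have h8 : z = (u - z0) + (z0 - a * Complex.I) := by rw [hu]; ring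
      have h9 := norm_add_le (u - z0) (z0 - a * Complex.I)
      rw [← h8] at h9
      nlinarith only [norm_nonneg (z0 - a * Complex.I), hr0, h9]
    have h10 : ‖R z‖ = ‖dslope g z0 u‖ / ‖u - z0 + 2 * Complex.I‖ := by
      rw [hR]; simp only; rw [norm_div]
    rw [h10, le_div_iff₀ (by positivity)]
    have h11 : ‖dslope g z0 u‖ / ‖u - z0 + 2 * Complex.I‖ ≤
        ((2 * K1 + 4 * M) / (1 + r)) / ((1 + r) / 4) := by gcongr
    have h12 : ‖z‖ ^ 2 ≤ ((1 + ‖z0 - a * Complex.I‖) * (1 + r)) ^ 2 := by gcongr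
    calc ‖dslope g z0 u‖ / ‖u - z0 + 2 * Complex.I‖ * ‖z‖ ^ 2
        ≤ ((2 * K1 + 4 * M) / (1 + r)) / ((1 + r) / 4) *
          ((1 + ‖z0 - a * Complex.I‖) * (1 + r)) ^ 2 := by gcongr
      _ = 4 * (2 * K1 + 4 * M) * (1 + ‖z0 - a * Complex.I‖) ^ 2 := by
        have : 1 + r ≠ 0 := by positivity
        field_simp
  obtain ⟨hi, hint⟩ := integral_horizontal hη0 (by positivity) hRd hRb
  have hRE : ∀ E : ℝ, R (zz η E) = (g (zz ε E) - g z0) * (((1 + E ^ 2)⁻¹ : ℝ) : ℂ) := by
    intro E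
    have e1 : zz η E + a * Complex.I = zz ε E := by
      unfold zz; rw [ha]; push_cast; ring
    have e2 : zz ε E - z0 = E - Complex.I := by
      rw [hz0]; unfold zz; push_cast; ring
    have hEI : (E : ℂ) - Complex.I ≠ 0 := by
      intro h0
      have := congrArg Complex.im h0
      simp at this
    have hEI' : (E : ℂ) + Complex.I ≠ 0 := by
      intro h0
      have := congrArg Complex.im h0
      simp at this
    have hne : zz ε E ≠ z0 := by
      rw [← sub_ne_zero, e2]; exact hEI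
    have e3 : (((1 + E ^ 2)⁻¹ : ℝ) : ℂ) = ((E : ℂ) - Complex.I)⁻¹ * ((E : ℂ) + Complex.I)⁻¹ := by
      rw [← mul_inv]
      push_cast
      congr 1
      have := Complex.I_sq
      ring_nf
      rw [this]; ring
    rw [hR]
    simp only
    rw [e1, e2, dslope_of_ne _ hne, slope_def_module, e2, smul_eq_mul, e3, div_eq_mul_inv]
    have e4 : (E : ℂ) - Complex.I + 2 * Complex.I = E + Complex.I := by ring
    rw [e4]
    ring
  simp only [hRE] at hi hint
  have hc : Integrable fun E : ℝ => g z0 * (((1 + E ^ 2)⁻¹ : ℝ) : ℂ) :=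
    (integrable_inv_one_add_sq.ofReal).const_mul _
  have hsum : (fun E : ℝ => g (zz ε E) * (((1 + E ^ 2)⁻¹ : ℝ) : ℂ)) = fun E =>
      (g (zz ε E) - g z0) * (((1 + E ^ 2)⁻¹ : ℝ) : ℂ) + g z0 * (((1 + E ^ 2)⁻¹ : ℝ) : ℂ) := by
    funext E; ring
  rw [hsum]
  refine ⟨hi.add hc, ?_⟩
  have hpi : ∫ E : ℝ, (((1 + E ^ 2)⁻¹ : ℝ) : ℂ) = (Real.pi : ℂ) := by
    have h := integral_ofReal (𝕜 := ℂ) (f := fun E : ℝ => (1 + E ^ 2)⁻¹) (μ := volume)
    rw [integral_univ_inv_one_add_sq] at h
    exact h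
  rw [integral_add hi hc, hint, zero_add, integral_const_mul, hpi]
  ring

/-- the square root of a number with positive real part -/
theorem re_sqrt {u : ℂ} (hu : 0 < u.re) :
    Real.sqrt ‖u‖ ≤ Real.sqrt 2 * (u ^ (((2 : ℕ) : ℂ)⁻¹)).re ∧
      ‖u ^ (((2 : ℕ) : ℂ)⁻¹)‖ = Real.sqrt ‖u‖ := by
  have hu0 : u ≠ 0 := by rintro rfl; simp at hu
  set s : ℂ := u ^ (((2 : ℕ) : ℂ)⁻¹) with hs
  have hsq : s ^ 2 = u := Complex.cpow_nat_inv_pow u two_ne_zero
  have hnorm : ‖s‖ = Real.sqrt ‖u‖ := by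
    rw [← hsq, norm_pow, Real.sqrt_sq (norm_nonneg _)]
  have hre : 0 < s.re := by
    rw [hs, Complex.cpow_def_of_ne_zero hu0, Complex.exp_re]
    have h1 : (Complex.log u * ((2 : ℕ) : ℂ)⁻¹).im = Complex.arg u / 2 := by
      have : (((2 : ℕ) : ℂ)⁻¹) = ((1 / 2 : ℝ) : ℂ) := by push_cast; norm_num
      rw [this, Complex.mul_im, Complex.ofReal_im, Complex.ofReal_re, Complex.log_im]
      ring
    rw [h1]
    have h2 := Complex.abs_arg_le_pi_div_two_iff.2 hu.le
    rw [abs_le] at h2
    have h3 : 0 < Real.cos (Complex.arg u / 2) := by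
      apply Real.cos_pos_of_mem_Ioo
      constructor <;> linarith only [Real.pi_pos, h2]
    positivity
  have h1 : s.re ^ 2 - s.im ^ 2 = u.re := by
    rw [← hsq, sq s, Complex.mul_re]; ring
  have h2 : ‖s‖ ^ 2 = s.re ^ 2 + s.im ^ 2 := by
    rw [← Complex.normSq_eq_norm_sq, Complex.normSq_apply]; ring
  refine ⟨?_, hnorm⟩
  rw [← hnorm]
  have h3 : ‖s‖ ^ 2 ≤ (Real.sqrt 2 * s.re) ^ 2 := by
    rw [mul_pow, Real.sq_sqrt (by norm_num), h2]
    linarith
  have h4 : 0 ≤ Real.sqrt 2 * s.re := by positivity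
  exact (pow_le_pow_iff_left₀ (norm_nonneg _) h4 two_ne_zero).1 h3

theorem tight : TightStatement := by
  intro d V w ε hε
  by_cases hw : w = 0
  · subst hw
    simp
  have hG := isRes_G V
  set F : ℂ → ℂ := fun z => ⟪w, G V z w⟫_ℂ with hF
  have hFim : ∀ z : ℂ, 0 < z.im → 0 < (F z).im := by
    intro z hz
    rw [hF]; simp only
    rw [hG.im_inner hz.ne']
    have h1 : G V z w ≠ 0 := fun h => hw (hG.inj z hz.ne' w h)
    have h2 : 0 < ‖G V z w‖ := norm_pos_iff.2 h1
    positivity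
  set g : ℂ → ℂ := fun z => (-Complex.I * F z) ^ (((2 : ℕ) : ℂ)⁻¹) with hg
  have hre : ∀ z : ℂ, 0 < z.im → 0 < (-Complex.I * F z).re := by
    intro z hz
    have := hFim z hz
    simpa using this
  have hgn : ∀ z : ℂ, 0 < z.im → ‖g z‖ = Real.sqrt ‖F z‖ := by
    intro z hz
    rw [hg]; simp only
    rw [(re_sqrt (hre z hz)).2, norm_mul, norm_neg, Complex.norm_I, one_mul]
  have hgre : ∀ z : ℂ, 0 < z.im → Real.sqrt ‖F z‖ ≤ Real.sqrt 2 * (g z).re := by
    intro z hz
    have := (re_sqrt (hre z hz)).1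
    rw [norm_mul, norm_neg, Complex.norm_I, one_mul] at this
    exact this
  have hFn : ∀ z : ℂ, 0 < z.im → ‖F z‖ ≤ z.im⁻¹ * ‖w‖ ^ 2 := by
    intro z hz
    refine (norm_inner_le_norm _ _).trans ?_
    have h1 := hG.norm_le' hz.ne' w
    rw [abs_of_pos hz] at h1
    have h2 := norm_nonneg w
    nlinarith only [h1, h2]
  have hgd : ∀ z : ℂ, 0 < z.im → DifferentiableAt ℂ g z := by
    intro z hz
    have h1 : DifferentiableAt ℂ (fun z => -Complex.I * F z) z :=
      (hG.hasDerivAt_inner hz.ne' w w).differentiableAt.const_mul _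
    exact h1.cpow_const (Or.inl (hre z hz))
  have hgb : ∀ z : ℂ, ε ≤ z.im → ‖g z‖ ≤ Real.sqrt (ε⁻¹ * ‖w‖ ^ 2) := by
    intro z hz
    have hz0 := hε.trans_le hz
    rw [hgn z hz0]
    apply Real.sqrt_le_sqrt
    refine (hFn z hz0).trans ?_
    gcongr
  obtain ⟨hi, hint⟩ := poisson_line hε hgd hgb
  have hmeas : Measurable fun E : ℝ => ENNReal.ofReal (1 + E ^ 2)⁻¹ := by fun_prop
  have hzc : ∀ E : ℝ, 0 < (zz ε E).im := fun E => by rw [zz_im]; exact hε
  rw [lam, lintegral_withDensity_eq_lintegral_mul_non_measurable _ hmeas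
    (Eventually.of_forall fun E => ENNReal.ofReal_lt_top)]
  have hre_int := hi.re.const_mul (Real.sqrt 2)
  have hnn : 0 ≤ᵐ[volume] fun E : ℝ =>
      Real.sqrt 2 * RCLike.re (g (zz ε E) * (((1 + E ^ 2)⁻¹ : ℝ) : ℂ)) := by
    refine Eventually.of_forall fun E => ?_
    change 0 ≤ Real.sqrt 2 * (g (zz ε E) * (((1 + E ^ 2)⁻¹ : ℝ) : ℂ)).re
    rw [Complex.re_mul_ofReal, ← mul_assoc]
    have h1 := hgre _ (hzc E)
    have h2 := Real.sqrt_nonneg ‖F (zz ε E)‖
    have h3 : 0 ≤ (1 + E ^ 2)⁻¹ := by positivity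
    exact mul_nonneg (h2.trans h1) h3
  calc _ ≤ ∫⁻ E : ℝ, ENNReal.ofReal
        (Real.sqrt 2 * RCLike.re (g (zz ε E) * (((1 + E ^ 2)⁻¹ : ℝ) : ℂ))) := by
        refine lintegral_mono fun E => ?_
        simp only [Pi.mul_apply]
        rw [← ENNReal.ofReal_mul (by positivity)]
        apply ENNReal.ofReal_le_ofReal
        change _ ≤ Real.sqrt 2 * (g (zz ε E) * (((1 + E ^ 2)⁻¹ : ℝ) : ℂ)).re
        rw [Complex.re_mul_ofReal, ← mul_assoc, mul_comm]
        exact mul_le_mul_of_nonneg_right (hgre _ (hzc E)) (by positivity)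
    _ = ENNReal.ofReal (Real.sqrt 2 * (Real.pi * g (zz (1 + ε) 0)).re) := by
        rw [← ofReal_integral_eq_lintegral_ofReal hre_int hnn, integral_const_mul,
          integral_re hi, hint]
        rfl
    _ ≤ _ := by
        apply ENNReal.ofReal_le_ofReal
        have h0 : 0 < (zz (1 + ε) 0).im := by rw [zz_im]; linarith only [hε]
        have h1 : (g (zz (1 + ε) 0)).re ≤ ‖w‖ := by
          refine (Complex.re_le_norm _).trans ?_
          rw [hgn _ h0]
          rw [Real.sqrt_le_left (norm_nonneg _)]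
          refine (hFn _ h0).trans ?_
          rw [zz_im]
          have : (1 + ε)⁻¹ ≤ 1 := inv_le_one_of_one_le₀ (by linarith)
          nlinarith only [sq_nonneg ‖w‖, this]
        rw [Complex.re_ofReal_mul, mul_assoc]
        gcongr

end Pool.Agent.QE
end
end -- Pool.Agent.Helper36_QE.Tight

section -- Pool.Agent.Helper54_QE.Pair

/-!
# Limits along a sequence of energies approaching the real axis
-/

set_option autoImplicit false
set_option linter.unusedSectionVars false

open scoped InnerProductSpace ComplexConjugate Topology ENNReal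
open MeasureTheory Filter

noncomputable section

namespace Pool.Agent.QE

open Pool.Agent.Anderson Pool.Agent.Helper54.Bal

variable {d : ℕ}

/-- boundary values of the Green function along a sequence -/
def GLim (V : Cfg d) (E : ℝ) (e : ℕ → ℝ) (g : Site d → Site d → ℂ) : Prop :=
  ∀ x y, Tendsto (fun k => G V (zz (e k) E) (del y) x) atTop (𝓝 (g x y))

/-- boundary values of `⟪δ_x, G A δ_x⟫` along a sequence -/
def ALim (A : Op d) (V : Cfg d) (E : ℝ) (e : ℕ → ℝ) (h : Site d → ℂ) : Prop :=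
  ∀ x, Tendsto (fun k => G V (zz (e k) E) (A (del x)) x) atTop (𝓝 (h x))

/-- the residual at `x` vanishes asymptotically -/
def Par (A : Op d) (V : Cfg d) (E : ℝ) (e : ℕ → ℝ) (x : Site d) : Prop :=
  Tendsto (fun k => Real.sqrt (e k) * ‖rr A V (zz (e k) E) x‖) atTop (𝓝 0)

/-- the boundary value of the local value of the observable -/
def av (g : Site d → Site d → ℂ) (h : Site d → ℂ) (x : Site d) : ℝ := (h x).im / (g x x).im

section basic

variable {V : Cfg d} {E : ℝ} {e : ℕ → ℝ} (he : ∀ k, 0 < e k)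

include he in
theorem zk_im (k : ℕ) : 0 < (zz (e k) E).im := by rw [zz_im]; exact he k

variable {g : Site d → Site d → ℂ} (hg : GLim V E e g)

include he hg

theorem GLim.symm (x y : Site d) : g x y = g y x := by
  refine tendsto_nhds_unique (hg x y) ?_
  refine (hg y x).congr fun k => ?_
  exact G_symm (zk_im he k).ne' y x

theorem GLim.im_nonneg (x : Site d) : 0 ≤ (g x x).im := by
  refine ge_of_tendsto' ((Complex.continuous_im.tendsto _).comp (hg x x)) fun k => ?_
  exact (im_G_del_pos (zk_im he k) x).le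

theorem GLim.norm_sq (x : Site d) :
    Tendsto (fun k => e k * ‖G V (zz (e k) E) (del x)‖ ^ 2) atTop (𝓝 (g x x).im) := by
  refine ((Complex.continuous_im.tendsto _).comp (hg x x)).congr fun k => ?_
  simp only [Function.comp_apply]
  rw [im_G_del' (zk_im he k).ne', zz_im]

theorem GLim.norm (x : Site d) :
    Tendsto (fun k => Real.sqrt (e k) * ‖G V (zz (e k) E) (del x)‖) atTop
      (𝓝 (Real.sqrt (g x x).im)) := by
  refine ((GLim.norm_sq he hg x).sqrt).congr fun k => ?_
  rw [Real.sqrt_mul (he k).le, Real.sqrt_sq (norm_nonneg _)]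

theorem GLim.gram (x y : Site d) :
    Tendsto (fun k => (e k : ℂ) * ⟪G V (zz (e k) E) (del y), G V (zz (e k) E) (del x)⟫_ℂ) atTop
      (𝓝 ((g y x).im : ℂ)) := by
  have h1 : Tendsto (fun k => ((G V (zz (e k) E) (del x) y).im : ℂ)) atTop
      (𝓝 ((g y x).im : ℂ)) :=
    (Complex.continuous_ofReal.tendsto _).comp ((Complex.continuous_im.tendsto _).comp (hg y x))
  refine h1.congr fun k => ?_
  have := gram_del (V := V) (zk_im he k (E := E)).ne' x y
  rw [zz_im] at this
  exact this.symm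

theorem GLim.eqn (he0 : Tendsto e atTop (𝓝 0)) (x y : Site d) :
    lap (fun w => g w y) x + ((V x : ℂ) - E) * g x y = if x = y then 1 else 0 := by
  have h1 : Tendsto (fun k => lap (G V (zz (e k) E) (del y)) x +
      ((V x : ℂ) - zz (e k) E) * G V (zz (e k) E) (del y) x) atTop
      (𝓝 (lap (fun w => g w y) x + ((V x : ℂ) - E) * g x y)) := by
    refine Tendsto.add ?_ (Tendsto.mul ?_ (hg x y))
    · unfold lap
      exact tendsto_finsetSum _ fun i _ => (hg _ y).add (hg _ y)
    · refine Tendsto.const_sub _ ?_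
      unfold zz
      have h2 : Tendsto (fun k => (e k : ℂ) * Complex.I) atTop (𝓝 ((0 : ℝ) * Complex.I)) :=
        ((Complex.continuous_ofReal.tendsto 0).comp he0).mul_const _
      have h3 := h2.const_add (E : ℂ)
      simpa using h3
  refine tendsto_nhds_unique h1 ?_
  refine tendsto_const_nhds.congr fun k => ?_
  rw [G_eq (zk_im he k).ne', del_apply]

end basic

section obs

variable {V : Cfg d} {E : ℝ} {e : ℕ → ℝ} (he : ∀ k, 0 < e k)
  {A : Op d} (hsa : ∀ f g : L2 d, ⟪A f, g⟫_ℂ = ⟪f, A g⟫_ℂ)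
  (hcm : ∀ z : ℂ, z.im ≠ 0 → ∀ f : L2 d, A (G V z f) = G V z (A f))
  {g : Site d → Site d → ℂ} (hg : GLim V E e g) {h : Site d → ℂ} (hh : ALim A V E e h)

include hg hh in
theorem tendsto_aa {x : Site d} (hx : 0 < (g x x).im) :
    Tendsto (fun k => aa A V (zz (e k) E) x) atTop (𝓝 (av g h x)) := by
  unfold aa av
  exact ((Complex.continuous_im.tendsto _).comp (hh x)).div
    ((Complex.continuous_im.tendsto _).comp (hg x x)) hx.ne'

include he hsa hcm hg hh

/-- two sites with correlated Green function carry the same value -/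
theorem cross {x y : Site d} (px : Par A V E e x) (py : Par A V E e y)
    (hx : 0 < (g x x).im) (hy : 0 < (g y y).im) :
    (av g h x - av g h y) * (g y x).im = 0 := by
  have t1 : Tendsto (fun k => ((aa A V (zz (e k) E) x : ℝ) : ℂ) *
      ((e k : ℂ) * ⟪G V (zz (e k) E) (del y), G V (zz (e k) E) (del x)⟫_ℂ)) atTop
      (𝓝 ((av g h x : ℂ) * ((g y x).im : ℂ))) :=
    ((Complex.continuous_ofReal.tendsto _).comp (tendsto_aa hg hh hx)).mul (GLim.gram he hg x y)
  have t2 : Tendsto (fun k => ((aa A V (zz (e k) E) y : ℝ) : ℂ) *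
      ((e k : ℂ) * ⟪G V (zz (e k) E) (del y), G V (zz (e k) E) (del x)⟫_ℂ)) atTop
      (𝓝 ((av g h y : ℂ) * ((g y x).im : ℂ))) :=
    ((Complex.continuous_ofReal.tendsto _).comp (tendsto_aa hg hh hy)).mul (GLim.gram he hg x y)
  -- the difference tends to zero
  have t3 : Tendsto (fun k => (e k : ℂ) * ⟪rr A V (zz (e k) E) y, G V (zz (e k) E) (del x)⟫_ℂ -
      (e k : ℂ) * ⟪G V (zz (e k) E) (del y), rr A V (zz (e k) E) x⟫_ℂ) atTop (𝓝 0) := by
    have b1 : Tendsto (fun k => (Real.sqrt (e k) * ‖rr A V (zz (e k) E) y‖) *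
        (Real.sqrt (e k) * ‖G V (zz (e k) E) (del x)‖) +
        (Real.sqrt (e k) * ‖G V (zz (e k) E) (del y)‖) *
        (Real.sqrt (e k) * ‖rr A V (zz (e k) E) x‖)) atTop
        (𝓝 (0 * Real.sqrt (g x x).im + Real.sqrt (g y y).im * 0)) :=
      (py.mul (GLim.norm he hg x)).add ((GLim.norm he hg y).mul px)
    rw [zero_mul, mul_zero, add_zero] at b1
    refine squeeze_zero_norm (fun k => ?_) b1
    have hs : e k = Real.sqrt (e k) * Real.sqrt (e k) := (Real.mul_self_sqrt (he k).le).symm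
    refine (norm_sub_le _ _).trans (add_le_add ?_ ?_)
    · rw [norm_mul, Complex.norm_real, Real.norm_of_nonneg (he k).le]
      have := norm_inner_le_norm (𝕜 := ℂ) (rr A V (zz (e k) E) y) (G V (zz (e k) E) (del x))
      calc e k * ‖⟪rr A V (zz (e k) E) y, G V (zz (e k) E) (del x)⟫_ℂ‖ ≤
          e k * (‖rr A V (zz (e k) E) y‖ * ‖G V (zz (e k) E) (del x)‖) :=
            mul_le_mul_of_nonneg_left this (he k).le
        _ = (Real.sqrt (e k) * Real.sqrt (e k)) *
            (‖rr A V (zz (e k) E) y‖ * ‖G V (zz (e k) E) (del x)‖) := by rw [← hs]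
        _ = _ := by ring
    · rw [norm_mul, Complex.norm_real, Real.norm_of_nonneg (he k).le]
      have := norm_inner_le_norm (𝕜 := ℂ) (G V (zz (e k) E) (del y)) (rr A V (zz (e k) E) x)
      calc e k * ‖⟪G V (zz (e k) E) (del y), rr A V (zz (e k) E) x⟫_ℂ‖ ≤
          e k * (‖G V (zz (e k) E) (del y)‖ * ‖rr A V (zz (e k) E) x‖) :=
            mul_le_mul_of_nonneg_left this (he k).le
        _ = (Real.sqrt (e k) * Real.sqrt (e k)) *
            (‖G V (zz (e k) E) (del y)‖ * ‖rr A V (zz (e k) E) x‖) := by rw [← hs]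
        _ = _ := by ring
  have t4 : Tendsto (fun k => (e k : ℂ) * ⟪rr A V (zz (e k) E) y, G V (zz (e k) E) (del x)⟫_ℂ -
      (e k : ℂ) * ⟪G V (zz (e k) E) (del y), rr A V (zz (e k) E) x⟫_ℂ) atTop
      (𝓝 ((av g h x : ℂ) * ((g y x).im : ℂ) - (av g h y : ℂ) * ((g y x).im : ℂ))) := by
    refine (t1.sub t2).congr fun k => ?_
    have e1 : ⟪A (G V (zz (e k) E) (del y)), G V (zz (e k) E) (del x)⟫_ℂ =
        ⟪G V (zz (e k) E) (del y), A (G V (zz (e k) E) (del x))⟫_ℂ := hsa _ _
    rw [A_G_del A V _ y, A_G_del A V _ x, inner_add_left, inner_add_right, inner_smul_left,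
      inner_smul_right, Complex.conj_ofReal] at e1
    linear_combination (-(e k : ℂ)) * e1
  have t5 := tendsto_nhds_unique t4 t3
  rw [← sub_mul] at t5
  have t6 : (((av g h x - av g h y) * (g y x).im : ℝ) : ℂ) = 0 := by
    push_cast; exact t5
  exact_mod_cast t6

end obs

section pair

variable {V : Cfg d} {x₀ : Site d} {s : ℝ} {E : ℝ} {e : ℕ → ℝ} (he : ∀ k, 0 < e k)
  (hs : s ≠ V x₀)
  {g g' : Site d → Site d → ℂ} (hg : GLim V E e g)
  (hg' : GLim (Function.update V x₀ s) E e g')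

include he hg hg'

theorem factor_lim : (1 + ((s : ℂ) - V x₀) * g x₀ x₀) * (1 - ((s : ℂ) - V x₀) * g' x₀ x₀) = 1 := by
  have h1 : Tendsto (fun k => (1 + ((s : ℂ) - V x₀) * G V (zz (e k) E) (del x₀) x₀) *
      (1 - ((s : ℂ) - V x₀) * G (Function.update V x₀ s) (zz (e k) E) (del x₀) x₀)) atTop
      (𝓝 ((1 + ((s : ℂ) - V x₀) * g x₀ x₀) * (1 - ((s : ℂ) - V x₀) * g' x₀ x₀))) :=
    (((hg x₀ x₀).const_mul _).const_add _).mul (((hg' x₀ x₀).const_mul _).const_sub _)
  refine tendsto_nhds_unique h1 ?_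
  refine tendsto_const_nhds.congr fun k => ?_
  exact (factor_mul (zk_im he k).ne').symm

theorem factor_ne : (1 - ((s : ℂ) - V x₀) * g' x₀ x₀) ≠ 0 := by
  intro h
  have := factor_lim he hg hg'
  rw [h, mul_zero] at this
  exact zero_ne_one this

theorem im_upd : (g' x₀ x₀).im = ‖1 - ((s : ℂ) - V x₀) * g' x₀ x₀‖ ^ 2 * (g x₀ x₀).im := by
  have h1 : Tendsto (fun k => ‖1 - ((s : ℂ) - V x₀) *
      G (Function.update V x₀ s) (zz (e k) E) (del x₀) x₀‖ ^ 2 *
      (e k * ‖G V (zz (e k) E) (del x₀)‖ ^ 2)) atTop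
      (𝓝 (‖1 - ((s : ℂ) - V x₀) * g' x₀ x₀‖ ^ 2 * (g x₀ x₀).im)) :=
    ((((hg' x₀ x₀).const_mul _).const_sub _).norm.pow 2).mul (GLim.norm_sq he hg x₀)
  refine tendsto_nhds_unique (GLim.norm_sq he hg' x₀) ?_
  refine h1.congr fun k => ?_
  conv_rhs => rw [G_upd_del' (V := V) (s := s) (zk_im he k).ne', norm_smul, mul_pow]
  ring

/-- positivity of the local density of states is not affected by the potential at the site -/
theorem im_pos_iff : 0 < (g' x₀ x₀).im ↔ 0 < (g x₀ x₀).im := by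
  rw [im_upd he hg hg']
  have h := norm_pos_iff.2 (factor_ne he hg hg')
  constructor
  · intro h1
    exact (pos_iff_pos_of_mul_pos h1).1 (by positivity)
  · intro h1
    positivity

variable {A A' : Op d}
  (hsa : ∀ f g : L2 d, ⟪A f, g⟫_ℂ = ⟪f, A g⟫_ℂ)
  (hcm : ∀ z : ℂ, z.im ≠ 0 → ∀ f : L2 d, A (G V z f) = G V z (A f))
  (hsa' : ∀ f g : L2 d, ⟪A' f, g⟫_ℂ = ⟪f, A' g⟫_ℂ)
  (hcm' : ∀ z : ℂ, z.im ≠ 0 → ∀ f : L2 d,
    A' (G (Function.update V x₀ s) z f) = G (Function.update V x₀ s) z (A' f))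
  (hD : Tendsto (fun k => Real.sqrt (e k) * ‖A' (G V (zz (e k) E) (del x₀)) -
    A (G V (zz (e k) E) (del x₀))‖) atTop (𝓝 0))

include hs hcm hsa' hcm' hD in
/-- asymptotic vanishing of the residual at the resampled site -/
theorem par_of_step
    (hD' : Tendsto (fun k => Real.sqrt (e k) * ‖A' (G V (zz (-e k) E) (del x₀)) -
      A (G V (zz (-e k) E) (del x₀))‖) atTop (𝓝 0)) :
    Par A' (Function.update V x₀ s) E e x₀ := by
  unfold Par
  have ht : 0 < |s - V x₀| := abs_pos.2 (sub_ne_zero.2 hs)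
  rcases (GLim.im_nonneg he hg x₀).eq_or_lt with hm | hm
  · -- vanishing density
    have h1 : Tendsto (fun k => ‖A'‖ * (Real.sqrt (e k) *
        ‖G (Function.update V x₀ s) (zz (e k) E) (del x₀)‖)) atTop
        (𝓝 (‖A'‖ * Real.sqrt (g' x₀ x₀).im)) := (GLim.norm he hg' x₀).const_mul _
    rw [im_upd he hg hg', ← hm, mul_zero, Real.sqrt_zero, mul_zero] at h1
    refine squeeze_zero (fun k => by positivity) (fun k => ?_) h1
    have h2 := norm_rr_le' hsa' hcm' (zk_im he k (E := E)).ne' x₀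
    calc Real.sqrt (e k) * ‖rr A' (Function.update V x₀ s) (zz (e k) E) x₀‖
        ≤ Real.sqrt (e k) * (‖A'‖ * ‖G (Function.update V x₀ s) (zz (e k) E) (del x₀)‖) :=
          mul_le_mul_of_nonneg_left h2 (Real.sqrt_nonneg _)
      _ = _ := by ring
  · have h1 : Tendsto (fun k => (Real.sqrt (e k) * ‖A' (G V (zz (e k) E) (del x₀)) -
        A (G V (zz (e k) E) (del x₀))‖ + Real.sqrt (e k) * ‖A' (G V (zz (-e k) E) (del x₀)) -
        A (G V (zz (-e k) E) (del x₀))‖) /
        (2 * |s - V x₀| * (G V (zz (e k) E) (del x₀) x₀).im)) atTop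
        (𝓝 ((0 + 0) / (2 * |s - V x₀| * (g x₀ x₀).im))) := by
      refine (hD.add hD').div ?_ (by positivity)
      exact ((Complex.continuous_im.tendsto _).comp (hg x₀ x₀)).const_mul _
    rw [add_zero, zero_div] at h1
    refine squeeze_zero (fun k => by positivity) (fun k => ?_) h1
    have hz := zk_im he k (E := E)
    have hp := im_G_del_pos (V := V) hz x₀
    have h2 := key (s := s) hcm hsa' hcm' hz
    rw [conj_zz'] at h2
    rw [le_div_iff₀ (by positivity), ← mul_add]
    calc Real.sqrt (e k) * ‖rr A' (Function.update V x₀ s) (zz (e k) E) x₀‖ *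
        (2 * |s - V x₀| * (G V (zz (e k) E) (del x₀) x₀).im) =
        Real.sqrt (e k) * (2 * |s - V x₀| * (G V (zz (e k) E) (del x₀) x₀).im *
          ‖rr A' (Function.update V x₀ s) (zz (e k) E) x₀‖) := by ring
      _ ≤ _ := mul_le_mul_of_nonneg_left h2 (Real.sqrt_nonneg _)

end pair

end Pool.Agent.QE
end
end -- Pool.Agent.Helper54_QE.Pair

section -- Pool.Agent.Helper54_QE.Pair2

/-!
# Consequences of resampling the potential at one site
-/

set_option autoImplicit false
set_option linter.unusedSectionVars false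

open scoped InnerProductSpace ComplexConjugate Topology ENNReal
open MeasureTheory Filter

noncomputable section

namespace Pool.Agent.QE

open Pool.Agent.Anderson Pool.Agent.Helper54.Bal

variable {d : ℕ}

/-- expansion of the squared norm of a combination of two vectors -/
theorem norm_comb_sq (a b : ℂ) (u v : L2 d) :
    ‖a • u + b • v‖ ^ 2 = ‖a‖ ^ 2 * ‖u‖ ^ 2 + ‖b‖ ^ 2 * ‖v‖ ^ 2 +
      2 * (conj a * b * ⟪u, v⟫_ℂ).re := by
  have h := norm_add_sq (𝕜 := ℂ) (a • u) (b • v)
  rw [norm_smul, norm_smul, mul_pow, mul_pow, inner_smul_left, inner_smul_right,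
    RCLike.re_eq_complex_re] at h
  rw [h]
  have e : conj a * b * ⟪u, v⟫_ℂ = conj a * (b * ⟪u, v⟫_ℂ) := by ring
  rw [e]
  ring

variable {V : Cfg d} {x₀ : Site d} {s : ℝ} {E : ℝ} {e : ℕ → ℝ} (he : ∀ k, 0 < e k)
  (hs : s ≠ V x₀)
  {g g' : Site d → Site d → ℂ} (hg : GLim V E e g)
  (hg' : GLim (Function.update V x₀ s) E e g')

section density

include he hs hg hg'

/-- if the density of states vanishes at `x`, it does not vanish after resampling at a site `x₀`
of positive density connected to `x` by the Green function -/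
theorem im_pos_of_resample {x : Site d} (hx : (g x x).im = 0) (h0 : 0 < (g x₀ x₀).im)
    (hne : g x₀ x ≠ 0) : 0 < (g' x x).im := by
  set t : ℂ := (s : ℂ) - V x₀ with ht
  have ht0 : t ≠ 0 := by
    rw [ht, sub_ne_zero]; exact_mod_cast hs
  have hb := factor_ne he hg hg'
  rw [← ht] at hb
  -- the vector identity
  have hid : ∀ k, G (Function.update V x₀ s) (zz (e k) E) (del x) = G V (zz (e k) E) (del x) -
      (t * G V (zz (e k) E) (del x) x₀ * (1 - t * G (Function.update V x₀ s) (zz (e k) E)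
        (del x₀) x₀)) • G V (zz (e k) E) (del x₀) := by
    intro k
    have h1 := G_upd' (V := V) (zk_im he k (E := E)).ne' x₀ s (del x)
    have h2 := G_upd_del' (V := V) (x₀ := x₀) (s := s) (zk_im he k (E := E)).ne'
    rw [← ht] at h1 h2
    have h3 : (t * G V (zz (e k) E) (del x) x₀) •
        G (Function.update V x₀ s) (zz (e k) E) (del x₀) =
        (t * G V (zz (e k) E) (del x) x₀ * (1 - t * G (Function.update V x₀ s) (zz (e k) E)
        (del x₀) x₀)) • G V (zz (e k) E) (del x₀) := by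
      conv_lhs => rw [h2]
      rw [smul_smul]
    rw [eq_sub_iff_add_eq, ← h3]
    exact h1.symm
  have l1 : Tendsto (fun k => ‖t * G V (zz (e k) E) (del x) x₀ *
      (1 - t * G (Function.update V x₀ s) (zz (e k) E) (del x₀) x₀)‖ *
      (Real.sqrt (e k) * ‖G V (zz (e k) E) (del x₀)‖) -
      Real.sqrt (e k) * ‖G V (zz (e k) E) (del x)‖) atTop
      (𝓝 (‖t * g x₀ x * (1 - t * g' x₀ x₀)‖ * Real.sqrt (g x₀ x₀).im - 0)) := by
    refine Tendsto.sub (Tendsto.mul ?_ (GLim.norm he hg x₀)) ?_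
    · exact ((((hg x₀ x).const_mul t).mul (((hg' x₀ x₀).const_mul t).const_sub 1))).norm
    · have := GLim.norm he hg x
      rwa [hx, Real.sqrt_zero] at this
  have l2 := GLim.norm he hg' x
  have l3 : ‖t * g x₀ x * (1 - t * g' x₀ x₀)‖ * Real.sqrt (g x₀ x₀).im - 0 ≤
      Real.sqrt (g' x x).im := by
    refine le_of_tendsto_of_tendsto' l1 l2 fun k => ?_
    rw [hid k]
    set c : ℂ := t * G V (zz (e k) E) (del x) x₀ * (1 - t * G (Function.update V x₀ s)
      (zz (e k) E) (del x₀) x₀) with hc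
    have h3 : ‖c • G V (zz (e k) E) (del x₀)‖ - ‖G V (zz (e k) E) (del x)‖ ≤
        ‖G V (zz (e k) E) (del x) - c • G V (zz (e k) E) (del x₀)‖ := by
      rw [norm_sub_rev]
      exact norm_sub_norm_le _ _
    rw [norm_smul] at h3
    have := mul_le_mul_of_nonneg_left h3 (Real.sqrt_nonneg (e k))
    calc _ = Real.sqrt (e k) * (‖c‖ * ‖G V (zz (e k) E) (del x₀)‖ -
        ‖G V (zz (e k) E) (del x)‖) := by ring
      _ ≤ _ := this
  rw [sub_zero] at l3
  have h4 : 0 < ‖t * g x₀ x * (1 - t * g' x₀ x₀)‖ * Real.sqrt (g x₀ x₀).im := by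
    have h5 : 0 < ‖t * g x₀ x * (1 - t * g' x₀ x₀)‖ :=
      norm_pos_iff.2 (mul_ne_zero (mul_ne_zero ht0 hne) hb)
    have h6 := Real.sqrt_pos.2 h0
    positivity
  exact Real.sqrt_pos.1 (h4.trans_le l3)

end density

section values

variable {A A' : Op d}
  (hsa : ∀ f g : L2 d, ⟪A f, g⟫_ℂ = ⟪f, A g⟫_ℂ)
  (hcm : ∀ z : ℂ, z.im ≠ 0 → ∀ f : L2 d, A (G V z f) = G V z (A f))
  (hsa' : ∀ f g : L2 d, ⟪A' f, g⟫_ℂ = ⟪f, A' g⟫_ℂ)
  (hcm' : ∀ z : ℂ, z.im ≠ 0 → ∀ f : L2 d,
    A' (G (Function.update V x₀ s) z f) = G (Function.update V x₀ s) z (A' f))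
  {h h' : Site d → ℂ} (hh : ALim A V E e h)
  (hh' : ALim A' (Function.update V x₀ s) E e h')

include he hg hg' hsa hcm hsa' hcm' hh hh' in
/-- the value at the resampled site does not change -/
theorem value_eq (h0 : 0 < (g x₀ x₀).im)
    (hD : Tendsto (fun k => Real.sqrt (e k) * ‖A' (G V (zz (e k) E) (del x₀)) -
      A (G V (zz (e k) E) (del x₀))‖) atTop (𝓝 0)) : av g' h' x₀ = av g h x₀ := by
  have h0' : 0 < (g' x₀ x₀).im := (im_pos_iff he hg hg').2 h0
  have t1 := tendsto_aa hg hh h0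
  have t2 := tendsto_aa hg' hh' h0'
  have t3 : Tendsto (fun k => |aa A' (Function.update V x₀ s) (zz (e k) E) x₀ -
      aa A V (zz (e k) E) x₀| * (Real.sqrt (e k) * ‖G V (zz (e k) E) (del x₀)‖)) atTop
      (𝓝 (|av g' h' x₀ - av g h x₀| * Real.sqrt (g x₀ x₀).im)) :=
    (t2.sub t1).abs.mul (GLim.norm he hg x₀)
  have t4 : Tendsto (fun k => |aa A' (Function.update V x₀ s) (zz (e k) E) x₀ -
      aa A V (zz (e k) E) x₀| * (Real.sqrt (e k) * ‖G V (zz (e k) E) (del x₀)‖)) atTop
      (𝓝 0) := by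
    refine squeeze_zero (fun k => by positivity) (fun k => ?_) hD
    have hz := (zk_im he k (E := E)).ne'
    set z := zz (e k) E
    set u := G V z (del x₀) with hu
    set b : ℂ := 1 - ((s : ℂ) - V x₀) * G (Function.update V x₀ s) z (del x₀) x₀ with hb
    have e1 : G (Function.update V x₀ s) z (del x₀) = b • u := G_upd_del' hz
    have hb0 : b ≠ 0 := by
      intro hb0
      have h2 := factor_mul (V := V) (x₀ := x₀) (s := s) hz
      rw [← hb, hb0, mul_zero] at h2
      exact zero_ne_one h2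
    have e2 := aa_eq hsa' hcm' hz x₀
    rw [e1, map_smul, inner_smul_left, inner_smul_right, norm_smul, mul_pow] at e2
    have e3 : ⟪u, A' u⟫_ℂ =
        (aa A' (Function.update V x₀ s) z x₀ : ℂ) * ((‖u‖ ^ 2 : ℝ) : ℂ) := by
      have hb1 : conj b * b = ((‖b‖ ^ 2 : ℝ) : ℂ) := by
        rw [← Complex.normSq_eq_conj_mul_self, Complex.normSq_eq_norm_sq]
      have hb2 : ((‖b‖ ^ 2 : ℝ) : ℂ) ≠ 0 := by
        rw [← hb1]; exact mul_ne_zero ((map_ne_zero _).2 hb0) hb0
      apply mul_left_cancel₀ hb2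
      rw [← hb1]
      rw [mul_assoc, e2, hb1]
      push_cast
      ring
    have e4 := aa_eq hsa hcm hz x₀
    rw [← hu] at e4
    have e5 : ⟪u, A' u - A u⟫_ℂ = ((aa A' (Function.update V x₀ s) z x₀ - aa A V z x₀ : ℝ) : ℂ) *
        ((‖u‖ ^ 2 : ℝ) : ℂ) := by
      rw [inner_sub_right, e3, e4]; push_cast; ring
    have e6 : |aa A' (Function.update V x₀ s) z x₀ - aa A V z x₀| * ‖u‖ ^ 2 ≤
        ‖u‖ * ‖A' u - A u‖ := by
      have h3 := norm_inner_le_norm (𝕜 := ℂ) u (A' u - A u)
      rw [e5, norm_mul, Complex.norm_real, Complex.norm_real, Real.norm_eq_abs,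
        Real.norm_of_nonneg (by positivity)] at h3
      exact h3
    have hup : 0 < ‖u‖ := norm_G_del_pos hz x₀
    have e7 : |aa A' (Function.update V x₀ s) z x₀ - aa A V z x₀| * ‖u‖ ≤ ‖A' u - A u‖ := by
      have : ‖u‖ * (|aa A' (Function.update V x₀ s) z x₀ - aa A V z x₀| * ‖u‖) ≤
          ‖u‖ * ‖A' u - A u‖ := by
        calc _ = |aa A' (Function.update V x₀ s) z x₀ - aa A V z x₀| * ‖u‖ ^ 2 := by ring
          _ ≤ _ := e6
      exact le_of_mul_le_mul_left this hup
    calc _ = Real.sqrt (e k) *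
        (|aa A' (Function.update V x₀ s) z x₀ - aa A V z x₀| * ‖u‖) := by ring
      _ ≤ _ := mul_le_mul_of_nonneg_left e7 (Real.sqrt_nonneg _)
  have t5 := tendsto_nhds_unique t3 t4
  rcases mul_eq_zero.1 t5 with h1 | h1
  · exact sub_eq_zero.1 (abs_eq_zero.1 h1)
  · exact absurd h1 (Real.sqrt_pos.2 h0).ne'

include he hs hg hg' hsa hcm hsa' hcm' hh hh'

/-- sites with different values are not connected by the Green function -/
theorem green_zero {x : Site d} (h0 : 0 < (g x₀ x₀).im) (hx : 0 < (g x x).im)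
    (hv : av g h x ≠ av g h x₀)
    (hD : Tendsto (fun k => Real.sqrt (e k) * ‖A' (G V (zz (e k) E) (del x₀)) -
      A (G V (zz (e k) E) (del x₀))‖) atTop (𝓝 0))
    (hDx : Tendsto (fun k => Real.sqrt (e k) * ‖A' (G V (zz (e k) E) (del x)) -
      A (G V (zz (e k) E) (del x))‖) atTop (𝓝 0))
    (p0 : Par A V E e x₀) (px : Par A V E e x)
    (p0' : Par A' (Function.update V x₀ s) E e x₀) (px' : Par A' (Function.update V x₀ s) E e x) :
    g x₀ x = 0 := by
  set V' := Function.update V x₀ s with hV'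
  set t : ℂ := (s : ℂ) - V x₀ with ht
  have ht0 : t ≠ 0 := by
    rw [ht, sub_ne_zero]; exact_mod_cast hs
  have hb := factor_ne he hg hg'
  rw [← ht] at hb
  have h0' : 0 < (g' x₀ x₀).im := (im_pos_iff he hg hg').2 h0
  -- the off-diagonal Gram element vanishes
  have hcr : (g x₀ x).im = 0 := by
    have := cross he hsa hcm hg hh px p0 hx h0
    rcases mul_eq_zero.1 this with h1 | h1
    · exact absurd (sub_eq_zero.1 h1) hv
    · exact h1
  have hval := value_eq he hg hg' hsa hcm hsa' hcm' hh hh' h0 hD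
  -- sequences
  set z : ℕ → ℂ := fun k => zz (e k) E with hzdef
  have hz : ∀ k, (z k).im ≠ 0 := fun k => (zk_im he k (E := E)).ne'
  set u : ℕ → L2 d := fun k => G V (z k) (del x) with hu
  set u₀ : ℕ → L2 d := fun k => G V (z k) (del x₀) with hu₀
  set b : ℕ → ℂ := fun k => 1 - t * G V' (z k) (del x₀) x₀ with hbk
  set γ : ℕ → ℂ := fun k => G V (z k) (del x) x₀ with hγ
  set α : ℕ → ℂ := fun k => ((aa A' V' (z k) x - aa A V (z k) x : ℝ) : ℂ) with hα
  set β : ℕ → ℂ := fun k => t * γ k * b k *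
    ((aa A' V' (z k) x₀ - aa A' V' (z k) x : ℝ) : ℂ) with hβ
  have hid0 : ∀ k, G V' (z k) (del x₀) = b k • u₀ k := fun k => G_upd_del' (hz k)
  have hid : ∀ k, G V' (z k) (del x) = u k - (t * γ k * b k) • u₀ k := by
    intro k
    have h1 := G_upd' (V := V) (hz k) x₀ s (del x)
    rw [← ht, ← hV'] at h1
    have h2 : u k = G V' (z k) (del x) + (t * γ k) • G V' (z k) (del x₀) := h1
    rw [h2, hid0, smul_smul]
    abel
  -- the key vector identity
  have hvec : ∀ k, α k • u k + β k • u₀ k = (A' (u k) - A (u k)) - rr A' V' (z k) x -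
      (t * γ k) • rr A' V' (z k) x₀ + rr A V (z k) x := by
    intro k
    have e1 : A' (u k) = A' (G V' (z k) (del x)) + (t * γ k) • A' (G V' (z k) (del x₀)) := by
      rw [← map_smul, ← map_add]
      congr 1
      have h1 := G_upd' (V := V) (hz k) x₀ s (del x)
      rw [← ht, ← hV'] at h1
      exact h1
    have e2 : A (u k) = (aa A V (z k) x : ℂ) • u k + rr A V (z k) x := A_G_del A V (z k) x
    rw [e1, e2, A_G_del A' V' (z k) x, A_G_del A' V' (z k) x₀, hid0, hid]
    simp only [hα, hβ, smul_add, smul_sub, smul_smul, Complex.ofReal_sub, sub_smul, mul_sub]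
    have c1 : t * γ k * ((aa A' V' (z k) x₀ : ℂ) * b k) =
        t * γ k * b k * (aa A' V' (z k) x₀ : ℂ) := by ring
    have c2 : (aa A' V' (z k) x : ℂ) * (t * γ k * b k) =
        t * γ k * b k * (aa A' V' (z k) x : ℂ) := by ring
    rw [c1, c2]
    abel
  -- limits
  have lγ : Tendsto γ atTop (𝓝 (g x₀ x)) := hg x₀ x
  have lb : Tendsto b atTop (𝓝 (1 - t * g' x₀ x₀)) := ((hg' x₀ x₀).const_mul t).const_sub 1
  have lvec : Tendsto (fun k => Real.sqrt (e k) * ‖α k • u k + β k • u₀ k‖) atTop (𝓝 0) := by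
    have b1 : Tendsto (fun k => Real.sqrt (e k) * ‖A' (u k) - A (u k)‖ +
        Real.sqrt (e k) * ‖rr A' V' (z k) x‖ +
        ‖t * γ k‖ * (Real.sqrt (e k) * ‖rr A' V' (z k) x₀‖) +
        Real.sqrt (e k) * ‖rr A V (z k) x‖) atTop
        (𝓝 (0 + 0 + ‖t * g x₀ x‖ * 0 + 0)) :=
      ((hDx.add px').add ((lγ.const_mul t).norm.mul p0')).add px
    rw [mul_zero, add_zero, add_zero, add_zero] at b1
    refine squeeze_zero (fun k => by positivity) (fun k => ?_) b1
    rw [hvec k]
    have h1 := norm_add_le (A' (u k) - A (u k) - rr A' V' (z k) x -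
      (t * γ k) • rr A' V' (z k) x₀) (rr A V (z k) x)
    have h2 := norm_sub_le (A' (u k) - A (u k) - rr A' V' (z k) x)
      ((t * γ k) • rr A' V' (z k) x₀)
    have h3 := norm_sub_le (A' (u k) - A (u k)) (rr A' V' (z k) x)
    rw [norm_smul] at h2
    have h4 : ‖A' (u k) - A (u k) - rr A' V' (z k) x - (t * γ k) • rr A' V' (z k) x₀ +
        rr A V (z k) x‖ ≤ ‖A' (u k) - A (u k)‖ + ‖rr A' V' (z k) x‖ +
        ‖t * γ k‖ * ‖rr A' V' (z k) x₀‖ + ‖rr A V (z k) x‖ := by linarith
    calc _ ≤ Real.sqrt (e k) * (‖A' (u k) - A (u k)‖ + ‖rr A' V' (z k) x‖ +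
        ‖t * γ k‖ * ‖rr A' V' (z k) x₀‖ + ‖rr A V (z k) x‖) :=
          mul_le_mul_of_nonneg_left h4 (Real.sqrt_nonneg _)
      _ = _ := by ring
  -- bounds for the coefficients
  have bα : ∀ k, ‖α k‖ ≤ ‖A'‖ + ‖A‖ := by
    intro k
    rw [hα]
    simp only [Complex.norm_real, Real.norm_eq_abs]
    have h1 := abs_aa_le hsa' hcm' (hz k) x
    have h2 := abs_aa_le hsa hcm (hz k) x
    have h3 := abs_sub (aa A' V' (z k) x) (aa A V (z k) x)
    linarith
  obtain ⟨M, hM⟩ : ∃ M : ℝ, ∀ k, ‖t * γ k * b k‖ ≤ M := by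
    have h1 : Tendsto (fun k => ‖t * γ k * b k‖) atTop (𝓝 ‖t * g x₀ x * (1 - t * g' x₀ x₀)‖) :=
      ((lγ.const_mul t).mul lb).norm
    obtain ⟨M, hM⟩ := h1.bddAbove_range
    exact ⟨M, fun k => hM ⟨k, rfl⟩⟩
  have hM0 : 0 ≤ M := (norm_nonneg _).trans (hM 0)
  have bβ : ∀ k, ‖β k‖ ≤ M * (2 * ‖A'‖) := by
    intro k
    rw [hβ]
    simp only
    rw [norm_mul, Complex.norm_real, Real.norm_eq_abs]
    have h1 := abs_aa_le hsa' hcm' (hz k) x
    have h2 := abs_aa_le hsa' hcm' (hz k) x₀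
    have h3 := abs_sub (aa A' V' (z k) x₀) (aa A' V' (z k) x)
    have h4 : |aa A' V' (z k) x₀ - aa A' V' (z k) x| ≤ 2 * ‖A'‖ := by linarith
    exact mul_le_mul (hM k) h4 (abs_nonneg _) hM0
  -- the squared norm
  have lsq : Tendsto (fun k => ‖α k‖ ^ 2 * (e k * ‖u k‖ ^ 2) +
      ‖β k‖ ^ 2 * (e k * ‖u₀ k‖ ^ 2)) atTop (𝓝 0) := by
    have h1 : Tendsto (fun k => (Real.sqrt (e k) * ‖α k • u k + β k • u₀ k‖) ^ 2 -
        2 * (conj (α k) * β k * ((e k : ℂ) * ⟪u k, u₀ k⟫_ℂ)).re) atTop (𝓝 (0 ^ 2 - 0)) := by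
      refine (lvec.pow 2).sub ?_
      have h2 : Tendsto (fun k => (e k : ℂ) * ⟪u k, u₀ k⟫_ℂ) atTop (𝓝 0) := by
        have h3 := GLim.gram he hg x₀ x
        rw [GLim.symm he hg x x₀, hcr] at h3
        simpa using h3
      have h4 : Tendsto (fun k => 2 * (((‖A'‖ + ‖A‖) * (M * (2 * ‖A'‖))) *
          ‖(e k : ℂ) * ⟪u k, u₀ k⟫_ℂ‖)) atTop
          (𝓝 (2 * (((‖A'‖ + ‖A‖) * (M * (2 * ‖A'‖))) * ‖(0:ℂ)‖))) :=
        (h2.norm.const_mul _).const_mul 2
      rw [norm_zero, mul_zero, mul_zero] at h4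
      refine squeeze_zero_norm (fun k => ?_) h4
      rw [Real.norm_eq_abs, abs_mul, abs_of_pos (by norm_num : (0:ℝ) < 2)]
      refine mul_le_mul_of_nonneg_left ?_ (by norm_num)
      refine (Complex.abs_re_le_norm _).trans ?_
      rw [norm_mul, norm_mul, Complex.norm_conj]
      refine mul_le_mul_of_nonneg_right ?_ (norm_nonneg _)
      exact mul_le_mul (bα k) (bβ k) (norm_nonneg _) (by positivity)
    have h0z : (0 : ℝ) ^ 2 - 0 = 0 := by norm_num
    rw [h0z] at h1
    refine h1.congr fun k => ?_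
    rw [mul_pow, Real.sq_sqrt (he k).le, norm_comb_sq]
    have e1 : (conj (α k) * β k * ((e k : ℂ) * ⟪u k, u₀ k⟫_ℂ)).re =
        e k * (conj (α k) * β k * ⟪u k, u₀ k⟫_ℂ).re := by
      have : conj (α k) * β k * ((e k : ℂ) * ⟪u k, u₀ k⟫_ℂ) =
          (e k : ℂ) * (conj (α k) * β k * ⟪u k, u₀ k⟫_ℂ) := by ring
      rw [this, Complex.re_ofReal_mul]
    rw [e1]
    ring
  -- `α → 0`
  have lα : Tendsto (fun k => ‖α k‖ ^ 2) atTop (𝓝 0) := by
    have h1 : Tendsto (fun k => (‖α k‖ ^ 2 * (e k * ‖u k‖ ^ 2) +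
      ‖β k‖ ^ 2 * (e k * ‖u₀ k‖ ^ 2)) / (e k * ‖u k‖ ^ 2)) atTop (𝓝 (0 / (g x x).im)) :=
      lsq.div (GLim.norm_sq he hg x) hx.ne'
    rw [zero_div] at h1
    refine squeeze_zero (fun k => by positivity) (fun k => ?_) h1
    have hp : 0 < e k * ‖u k‖ ^ 2 := by
      have := norm_G_del_pos (V := V) (hz k) x
      have := he k
      positivity
    have hq : 0 ≤ ‖β k‖ ^ 2 * (e k * ‖u₀ k‖ ^ 2) := by
      have := (he k).le
      positivity
    rw [le_div_iff₀ hp]
    linarith
  have lβ : Tendsto (fun k => ‖β k‖ ^ 2) atTop (𝓝 0) := by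
    have h1 : Tendsto (fun k => (‖α k‖ ^ 2 * (e k * ‖u k‖ ^ 2) +
      ‖β k‖ ^ 2 * (e k * ‖u₀ k‖ ^ 2)) / (e k * ‖u₀ k‖ ^ 2)) atTop (𝓝 (0 / (g x₀ x₀).im)) :=
      lsq.div (GLim.norm_sq he hg x₀) h0.ne'
    rw [zero_div] at h1
    refine squeeze_zero (fun k => by positivity) (fun k => ?_) h1
    have hp : 0 < e k * ‖u₀ k‖ ^ 2 := by
      have := norm_G_del_pos (V := V) (hz k) x₀
      have := he k
      positivity
    have hq : 0 ≤ ‖α k‖ ^ 2 * (e k * ‖u k‖ ^ 2) := by
      have := (he k).le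
      positivity
    rw [le_div_iff₀ hp]
    linarith
  have lα' : Tendsto (fun k => aa A' V' (z k) x - aa A V (z k) x) atTop (𝓝 0) := by
    have h1 := lα.sqrt
    rw [Real.sqrt_zero] at h1
    rw [tendsto_zero_iff_norm_tendsto_zero]
    refine h1.congr fun k => ?_
    rw [Real.sqrt_sq (norm_nonneg _), hα]
    simp only [Complex.norm_real]
  have laa := tendsto_aa hg hh hx
  have laa' : Tendsto (fun k => aa A' V' (z k) x) atTop (𝓝 (av g h x)) := by
    have := lα'.add laa
    rw [zero_add] at this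
    refine this.congr fun k => ?_
    ring
  have laa0' : Tendsto (fun k => aa A' V' (z k) x₀) atTop (𝓝 (av g h x₀)) := by
    rw [← hval]; exact tendsto_aa hg' hh' h0'
  have lβ' : Tendsto β atTop (𝓝 (t * g x₀ x * (1 - t * g' x₀ x₀) *
      ((av g h x₀ - av g h x : ℝ) : ℂ))) :=
    ((lγ.const_mul t).mul lb).mul ((Complex.continuous_ofReal.tendsto _).comp (laa0'.sub laa'))
  have lβ'' : Tendsto β atTop (𝓝 0) := by
    have h1 := lβ.sqrt
    rw [Real.sqrt_zero] at h1
    rw [tendsto_zero_iff_norm_tendsto_zero]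
    refine h1.congr fun k => ?_
    rw [Real.sqrt_sq (norm_nonneg _)]
  have hfin := tendsto_nhds_unique lβ' lβ''
  rcases mul_eq_zero.1 hfin with h1 | h1
  · rcases mul_eq_zero.1 h1 with h2 | h2
    · rcases mul_eq_zero.1 h2 with h3 | h3
      · exact absurd h3 ht0
      · exact h3
    · exact absurd h2 hb
  · exfalso
    apply hv
    have : av g h x₀ - av g h x = 0 := by exact_mod_cast h1
    linarith

end values

end Pool.Agent.QE
end
end -- Pool.Agent.Helper54_QE.Pair2

section -- Pool.Agent.Helper54_QE.Meas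

/-!
# Measurability tools
-/

set_option autoImplicit false
set_option linter.unusedSectionVars false

open scoped InnerProductSpace ComplexConjugate Topology ENNReal
open MeasureTheory Filter

noncomputable section

namespace Pool.Agent.QE

open Pool.Agent.Anderson Pool.Agent.Helper54.Bal

variable {d : ℕ} {Ω : Type*} [MeasurableSpace Ω]

theorem hasSum_del (f : L2 d) : HasSum (fun x => f x • (del x : L2 d)) f := by
  have h := lp.hasSum_single (p := 2) (by norm_num) f
  have e : (fun x => f x • (del x : L2 d)) = fun x => lp.single 2 x (f x) := by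
    funext x
    unfold del
    rw [← lp.single_smul, smul_eq_mul, mul_one]
  rw [e]
  exact h

theorem continuous_coord (x : Site d) : Continuous fun f : L2 d => f x := by
  have : (fun f : L2 d => f x) = fun f => ⟪del x, f⟫_ℂ := by
    funext f; rw [inner_del_left]
  rw [this]
  exact continuous_const.inner continuous_id

theorem measurable_coord {u : Ω → L2 d} (hu : StronglyMeasurable u) (x : Site d) :
    Measurable fun ω => u ω x :=
  ((continuous_coord x).comp_stronglyMeasurable hu).measurable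

/-- application of a measurable family of operators to a measurable family of vectors -/
theorem sm_apply {D : Ω → Op d} (hD : ∀ f, StronglyMeasurable fun ω => D ω f)
    {u : Ω → L2 d} (hu : StronglyMeasurable u) : StronglyMeasurable fun ω => D ω (u ω) := by
  have h1 : ∀ s : Finset (Site d),
      StronglyMeasurable fun ω => ∑ y ∈ s, u ω y • D ω (del y) := by
    intro s
    refine Finset.stronglyMeasurable_fun_sum s fun y _ => ?_
    exact ((continuous_coord y).comp_stronglyMeasurable hu).smul (hD (del y))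
  refine stronglyMeasurable_of_tendsto (u := (atTop : Filter (Finset (Site d)))) h1 ?_
  rw [tendsto_pi_nhds]
  intro ω
  have h2 := (hasSum_del (u ω)).mapL (D ω)
  have h3 : (fun y => D ω (u ω y • del y)) = fun y => u ω y • D ω (del y) := by
    funext y; rw [map_smul]
  rw [h3] at h2
  exact h2

theorem sm_G {ε : ℝ} (hε : ε ≠ 0) {V : Ω → Cfg d} {E : Ω → ℝ} {φ : Ω → L2 d}
    (hV : Measurable V) (hE : Measurable E) (hφ : StronglyMeasurable φ) :
    StronglyMeasurable fun p => G (V p) (zz ε (E p)) (φ p) := by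
  have h0 : StronglyMeasurable fun p => (V p, E p, φ p) :=
    hV.stronglyMeasurable.prodMk (hE.stronglyMeasurable.prodMk hφ)
  have h1 := (continuous_G (d := d) hε).comp_stronglyMeasurable h0
  exact h1

theorem sm_cov {A : Cfg d → Op d} (hA : Cov A) {V : Ω → Cfg d} {φ : Ω → L2 d}
    (hV : Measurable V) (hφ : StronglyMeasurable φ) :
    StronglyMeasurable fun p => A (V p) (φ p) :=
  sm_apply (D := fun p => A (V p)) (fun f => (hA.meas f).comp_measurable hV) hφ

theorem measurable_Fw {w : Cfg d → L2 d} (hw : StronglyMeasurable w) {ε : ℝ} (hε : ε ≠ 0) :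
    Measurable (Fw w ε) := by
  have h1 : StronglyMeasurable fun p : Cfg d × ℝ => w p.1 := hw.comp_measurable measurable_fst
  exact (h1.inner (sm_G hε measurable_fst measurable_snd h1)).measurable

theorem measurable_gw {w : Cfg d → L2 d} (hw : StronglyMeasurable w) {ε : ℝ} (hε : ε ≠ 0) :
    Measurable (gw w ε) := by
  have h1 := measurable_Fw hw hε
  have h2 : Measurable fun p : Cfg d × ℝ => zz ε p.2 :=
    (continuous_zz ε).measurable.comp measurable_snd
  unfold gw
  exact (h1.div (h1.add_const _)).div (h2.add_const _)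

theorem measurable_dq {A : Cfg d → Op d} (hA : Cov A)
    (hu : ∀ x₀ : Site d, Measurable (upd (d := d) x₀)) (x₀ x : Site d) {ε : ℝ} (hε : ε ≠ 0) :
    Measurable (dq A x₀ x ε) := by
  have m1 : Measurable fun ω : (Cfg d × ℝ) × ℝ => ω.1.1 := measurable_fst.comp measurable_fst
  have m2 : Measurable fun ω : (Cfg d × ℝ) × ℝ => ω.1.2 := measurable_snd.comp measurable_fst
  have m3 : Measurable fun ω : (Cfg d × ℝ) × ℝ => Function.update ω.1.1 x₀ ω.2 :=
    measurable_fst.comp (hu x₀)
  have s1 : StronglyMeasurable fun ω : (Cfg d × ℝ) × ℝ => G ω.1.1 (zz ε ω.1.2) (del x) :=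
    sm_G hε m1 m2 stronglyMeasurable_const
  unfold dq
  exact (((sm_cov hA m3 s1).sub (sm_cov hA m1 s1)).norm.measurable).const_mul _

theorem measurable_rr {A : Cfg d → Op d} (hA : Cov A) (x : Site d) {ε : ℝ} (hε : ε ≠ 0) :
    Measurable fun p : Cfg d × ℝ => ‖rr (A p.1) p.1 (zz ε p.2) x‖ := by
  have s1 : StronglyMeasurable fun p : Cfg d × ℝ => G p.1 (zz ε p.2) (del x) :=
    sm_G hε measurable_fst measurable_snd stronglyMeasurable_const
  have s2 : StronglyMeasurable fun p : Cfg d × ℝ => A p.1 (G p.1 (zz ε p.2) (del x)) :=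
    sm_cov hA measurable_fst s1
  have s3 : StronglyMeasurable fun p : Cfg d × ℝ => G p.1 (zz ε p.2) (A p.1 (del x)) :=
    sm_G hε measurable_fst measurable_snd ((hA.meas (del x)).comp_measurable measurable_fst)
  have m1 : Measurable fun p : Cfg d × ℝ => aa (A p.1) p.1 (zz ε p.2) x := by
    unfold aa
    exact (Complex.measurable_im.comp (measurable_coord s3 x)).div
      (Complex.measurable_im.comp (measurable_coord s1 x))
  have m2 : StronglyMeasurable fun p : Cfg d × ℝ => (aa (A p.1) p.1 (zz ε p.2) x : ℂ) :=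
    (Complex.measurable_ofReal.comp m1).stronglyMeasurable
  unfold rr
  exact (s2.sub (m2.smul s1)).norm.measurable

/-! ### the reference measure on energies -/

theorem measurable_dens : Measurable fun E : ℝ => ENNReal.ofReal (1 + E ^ 2)⁻¹ := by
  fun_prop

theorem lam_le : lam ≤ (volume : Measure ℝ) := by
  unfold lam
  calc (volume : Measure ℝ).withDensity (fun E => ENNReal.ofReal (1 + E ^ 2)⁻¹) ≤
      (volume : Measure ℝ).withDensity 1 := by
        refine withDensity_mono (Eventually.of_forall fun E => ?_)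
        simp only [Pi.one_apply]
        rw [← ENNReal.ofReal_one]
        refine ENNReal.ofReal_le_ofReal ?_
        exact inv_le_one_of_one_le₀ (by nlinarith [sq_nonneg E])
    _ = volume := withDensity_one

theorem ac_lam : (volume : Measure ℝ) ≪ lam := by
  unfold lam
  refine withDensity_absolutelyContinuous' measurable_dens.aemeasurable ?_
  refine Eventually.of_forall fun E => ?_
  have : 0 < (1 + E ^ 2)⁻¹ := by positivity
  simpa using this

theorem lam_univ : lam Set.univ = ENNReal.ofReal Real.pi := by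
  unfold lam
  rw [withDensity_apply _ MeasurableSet.univ, Measure.restrict_univ,
    ← ofReal_integral_eq_lintegral_ofReal integrable_inv_one_add_sq
      (Eventually.of_forall fun E => by positivity), integral_univ_inv_one_add_sq]

instance : IsFiniteMeasure lam := ⟨by rw [lam_univ]; exact ENNReal.ofReal_lt_top⟩

end Pool.Agent.QE
end
end -- Pool.Agent.Helper54_QE.Meas

section -- Pool.Agent.Helper54_QE.Bv

/-!
# Boundary values of matrix elements of the resolvent along a sequence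
-/

set_option autoImplicit false
set_option linter.unusedSectionVars false

open scoped InnerProductSpace ComplexConjugate Topology ENNReal
open MeasureTheory Filter

noncomputable section

namespace Pool.Agent.QE

open Pool.Agent.Anderson Pool.Agent.Helper54.Bal

variable {d : ℕ}

theorem Fw_im_nonneg (w : Cfg d → L2 d) {ε : ℝ} (hε : 0 < ε) (p : Cfg d × ℝ) :
    0 ≤ (Fw w ε p).im := by
  unfold Fw
  rw [(isRes_G p.1).im_inner (by rw [zz_im]; exact hε.ne'), zz_im]
  positivity

theorem add_I_ne {F : ℂ} (h : 0 ≤ F.im) : F + Complex.I ≠ 0 := by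
  intro h0
  have := congrArg Complex.im h0
  simp at this
  linarith

theorem tendsto_zz {e : ℕ → ℝ} (he0 : Tendsto e atTop (𝓝 0)) (E : ℝ) :
    Tendsto (fun k => zz (e k) E) atTop (𝓝 (E : ℂ)) := by
  unfold zz
  have h2 : Tendsto (fun k => (e k : ℂ) * Complex.I) atTop (𝓝 ((0 : ℝ) * Complex.I)) :=
    ((Complex.continuous_ofReal.tendsto 0).comp he0).mul_const _
  have h3 := h2.const_add (E : ℂ)
  simpa using h3

theorem lintegral_Fw_le (hT : TightStatement) {μ : Measure ℝ} [IsProbabilityMeasure μ]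
    {w : Cfg d → L2 d} (hw : StronglyMeasurable w) {C : ℝ} (hC : ∀ V, ‖w V‖ ≤ C) {ε : ℝ}
    (hε : 0 < ε) :
    ∫⁻ p, ENNReal.ofReal (Real.sqrt ‖Fw w ε p‖) ∂(KK d μ) ≤
      ENNReal.ofReal (Real.sqrt 2 * Real.pi * C) := by
  have hm : Measurable fun p : Cfg d × ℝ => ENNReal.ofReal (Real.sqrt ‖Fw w ε p‖) :=
    (((measurable_Fw hw hε.ne').norm).sqrt).ennreal_ofReal
  rw [lintegral_prod _ hm.aemeasurable]
  calc _ ≤ ∫⁻ _ : Cfg d, ENNReal.ofReal (Real.sqrt 2 * Real.pi * C) ∂(PP d μ) := by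
        refine lintegral_mono fun V => ?_
        refine (hT d V (w V) ε hε).trans ?_
        refine ENNReal.ofReal_le_ofReal ?_
        have := Real.pi_pos
        gcongr
        exact hC V
    _ = _ := by simp

/-- convergence of the Green function from convergence of its bounded transform -/
theorem bv_limit (hT : TightStatement) {μ : Measure ℝ} [IsProbabilityMeasure μ]
    {w : Cfg d → L2 d} (hw : StronglyMeasurable w) {C : ℝ} (hC : ∀ V, ‖w V‖ ≤ C)
    {e : ℕ → ℝ} (he : ∀ k, 0 < e k) (he0 : Tendsto e atTop (𝓝 0)) {g₀ : Cfg d × ℝ → ℂ}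
    (hg : Measurable g₀)
    (h : ∀ᵐ p ∂(KK d μ), Tendsto (fun k => gw w (e k) p) atTop (𝓝 (g₀ p))) :
    ∃ F₀ : Cfg d × ℝ → ℂ, Measurable F₀ ∧
      ∀ᵐ p ∂(KK d μ), Tendsto (fun k => Fw w (e k) p) atTop (𝓝 (F₀ p)) := by
  set Z₀ : Cfg d × ℝ → ℂ := fun p => g₀ p * ((p.2 : ℂ) + Complex.I) with hZ₀
  have hZm : Measurable Z₀ :=
    hg.mul ((Complex.measurable_ofReal.comp measurable_snd).add_const _)
  refine ⟨fun p => Complex.I * Z₀ p / (1 - Z₀ p),
    (hZm.const_mul _).div (hZm.const_sub _), ?_⟩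
  have hfin : ∀ᵐ p ∂(KK d μ),
      liminf (fun k => ENNReal.ofReal (Real.sqrt ‖Fw w (e k) p‖)) atTop < ∞ := by
    refine ae_lt_top ?_ ?_
    · refine Measurable.liminf fun k => ?_
      exact (((measurable_Fw hw (he k).ne').norm).sqrt).ennreal_ofReal
    · refine ne_top_of_le_ne_top (b := ENNReal.ofReal (Real.sqrt 2 * Real.pi * C))
        ENNReal.ofReal_ne_top ?_
      refine (lintegral_liminf_le fun k =>
        (((measurable_Fw hw (he k).ne').norm).sqrt).ennreal_ofReal).trans ?_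
      refine liminf_le_of_frequently_le' (Frequently.of_forall fun k => ?_)
      exact lintegral_Fw_le hT hw hC (he k)
  filter_upwards [h, hfin] with p hp hfp
  have hF : ∀ k, 0 ≤ (Fw w (e k) p).im := fun k => Fw_im_nonneg w (he k) p
  set Z : ℕ → ℂ := fun k => Fw w (e k) p / (Fw w (e k) p + Complex.I) with hZ
  have hZlim : Tendsto Z atTop (𝓝 (Z₀ p)) := by
    have h1 : Tendsto (fun k => gw w (e k) p * (zz (e k) p.2 + Complex.I)) atTop
        (𝓝 (g₀ p * ((p.2 : ℂ) + Complex.I))) :=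
      hp.mul ((tendsto_zz he0 p.2).add_const _)
    refine h1.congr fun k => ?_
    have hz : zz (e k) p.2 + Complex.I ≠ 0 := add_I_ne (by rw [zz_im]; exact (he k).le)
    unfold gw
    rw [div_mul_cancel₀ _ hz]
  have hFZ : ∀ k, Fw w (e k) p = Complex.I * Z k / (1 - Z k) := by
    intro k
    have h1 := add_I_ne (hF k)
    have h2 : 1 - Z k = Complex.I / (Fw w (e k) p + Complex.I) := by
      rw [hZ]; field_simp; ring
    rw [h2]
    simp only [hZ]
    field_simp
  have hne : Z₀ p ≠ 1 := by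
    intro h1
    rw [h1] at hZlim
    have t1 : Tendsto (fun k => ‖Z k‖) atTop (𝓝 1) := by
      have := hZlim.norm; simpa using this
    have t2 : Tendsto (fun k => ‖1 - Z k‖) atTop (𝓝[>] 0) := by
      refine tendsto_nhdsWithin_iff.2 ⟨?_, ?_⟩
      · have := (hZlim.const_sub 1).norm; simpa using this
      · refine Eventually.of_forall fun k => ?_
        simp only [Set.mem_Ioi]
        refine norm_pos_iff.2 ?_
        have h3 := add_I_ne (hF k)
        have h2 : 1 - Z k = Complex.I / (Fw w (e k) p + Complex.I) := by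
          rw [hZ]; field_simp; ring
        rw [h2]
        exact div_ne_zero Complex.I_ne_zero h3
    have t3 : Tendsto (fun k => ‖Fw w (e k) p‖) atTop atTop := by
      have h4 : Tendsto (fun k => ‖Z k‖ * ‖1 - Z k‖⁻¹) atTop atTop :=
        Tendsto.pos_mul_atTop zero_lt_one t1 (tendsto_inv_nhdsGT_zero.comp t2)
      refine h4.congr fun k => ?_
      have h6 := congrArg norm (hFZ k)
      rw [norm_div, norm_mul, Complex.norm_I, one_mul] at h6
      rw [h6, div_eq_mul_inv]
    have t4 : Tendsto (fun k => ENNReal.ofReal (Real.sqrt ‖Fw w (e k) p‖)) atTop (𝓝 ∞) :=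
      ENNReal.tendsto_ofReal_nhds_top.2 (Real.tendsto_sqrt_atTop.comp t3)
    rw [t4.liminf_eq] at hfp
    exact lt_irrefl _ hfp
  have h5 : Tendsto (fun k => Complex.I * Z k / (1 - Z k)) atTop
      (𝓝 (Complex.I * Z₀ p / (1 - Z₀ p))) :=
    (hZlim.const_mul _).div (hZlim.const_sub 1) (sub_ne_zero.2 (Ne.symm hne))
  refine h5.congr fun k => ?_
  rw [← hFZ k]

/-- polarisation -/
theorem polar (T : Op d) (u v : L2 d) :
    4 * ⟪u, T v⟫_ℂ = ⟪v + u, T (v + u)⟫_ℂ + Complex.I * ⟪v + Complex.I • u, T (v + Complex.I • u)⟫_ℂ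
      - ⟪v - u, T (v - u)⟫_ℂ - Complex.I * ⟪v - Complex.I • u, T (v - Complex.I • u)⟫_ℂ := by
  simp only [map_add, map_sub, map_smul, inner_add_left, inner_add_right, inner_sub_left,
    inner_sub_right, inner_smul_left, inner_smul_right, Complex.conj_I]
  ring_nf
  simp only [Complex.I_sq]
  ring

end Pool.Agent.QE
end
end -- Pool.Agent.Helper54_QE.Bv

section -- Pool.Agent.Helper54_QE.Seqs

/-!
# The common sequence and the almost everywhere limits
-/

set_option autoImplicit false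
set_option linter.unusedSectionVars false

open scoped InnerProductSpace ComplexConjugate Topology ENNReal
open MeasureTheory Filter

noncomputable section

namespace Pool.Agent.QE

open Pool.Agent.Anderson Pool.Agent.Helper54.Bal

variable {d : ℕ}

/-- the fourth roots of unity -/
def cc (k : Fin 4) : ℂ := ![1, Complex.I, -1, -Complex.I] k

theorem norm_cc (k : Fin 4) : ‖cc k‖ = 1 := by
  unfold cc
  fin_cases k <;> simp

theorem polar' (T : Op d) (u v : L2 d) :
    ⟪u, T v⟫_ℂ = (1 / 4) * ∑ k : Fin 4, cc k * ⟪v + cc k • u, T (v + cc k • u)⟫_ℂ := by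
  have h := polar T u v
  have e : ∑ k : Fin 4, cc k * ⟪v + cc k • u, T (v + cc k • u)⟫_ℂ = 4 * ⟪u, T v⟫_ℂ := by
    rw [h, Fin.sum_univ_four]
    simp only [cc, Matrix.cons_val_zero, Matrix.cons_val_one, Matrix.cons_val]
    simp only [one_smul, neg_smul, ← sub_eq_add_neg]
    ring
  rw [e]; ring

section transfer

variable {μ : Measure ℝ} [IsProbabilityMeasure μ]

theorem ae_fst {p : Cfg d × ℝ → Prop} (h : ∀ᵐ q ∂(KK d μ), p q) :
    ∀ᵐ ω ∂((KK d μ).prod μ), p ω.1 :=
  Measure.quasiMeasurePreserving_fst.ae h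

theorem ae_fst' {p : Cfg d × ℝ → Prop} (h : ∀ᵐ ω ∂((KK d μ).prod μ), p ω.1) :
    ∀ᵐ q ∂(KK d μ), p q := by
  filter_upwards [Measure.ae_ae_of_ae_prod h] with q hq
  exact (hq.exists).choose_spec

theorem ae_upd (hMP : MPStatement) (x₀ : Site d) {p : Cfg d × ℝ → Prop}
    (h : ∀ᵐ q ∂(KK d μ), p q) : ∀ᵐ ω ∂((KK d μ).prod μ), p (upd x₀ ω) :=
  (hMP d μ x₀).quasiMeasurePreserving.ae h

theorem ae_upd' (hMP : MPStatement) (x₀ : Site d) {p : Cfg d × ℝ → Prop}
    (hp : MeasurableSet {q | p q}) (h : ∀ᵐ ω ∂((KK d μ).prod μ), p (upd x₀ ω)) :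
    ∀ᵐ q ∂(KK d μ), p q := by
  rw [← (hMP d μ x₀).map_eq]
  exact (ae_map_iff (hMP d μ x₀).measurable.aemeasurable hp).2 h

theorem ae_ne (hna : ∀ a : ℝ, μ {a} = 0) :
    ∀ᵐ ω ∂((KK d μ).prod μ), ∀ x₀ : Site d, ω.2 ≠ ω.1.1 x₀ := by
  rw [ae_all_iff]
  intro x₀
  have hm : MeasurableSet {ω : (Cfg d × ℝ) × ℝ | ω.2 ≠ ω.1.1 x₀} := by
    refine (measurableSet_eq_fun measurable_snd ?_).compl
    exact (measurable_pi_apply x₀).comp (measurable_fst.comp measurable_fst)
  refine (Measure.ae_prod_iff_ae_ae hm).2 (Eventually.of_forall fun q => ?_)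
  rw [ae_iff]
  have e : {a : ℝ | ¬ (q, a).2 ≠ (q, a).1.1 x₀} = {q.1 x₀} := by
    ext a; simp
  rw [e]
  exact hna _

end transfer

variable {ι : Type} (A : ι → Cfg d → Op d)

/-- the vector families whose Green functions are needed -/
def wfam : ((Site d × Site d × Fin 4) ⊕ (ι × Site d × Fin 4)) → Cfg d → L2 d
  | Sum.inl r => fun _ => del r.2.1 + cc r.2.2 • del r.1
  | Sum.inr r => fun V => A r.1 V (del r.2.1) + cc r.2.2 • del r.2.1

variable {A} (hA : ∀ i, Obs (A i))
include hA

theorem sm_wfam (r) : StronglyMeasurable (wfam A r) := by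
  rcases r with r | r
  · exact stronglyMeasurable_const
  · exact ((hA r.1).meas _).add stronglyMeasurable_const

theorem bdd_wfam (r) : ∃ C : ℝ, ∀ V, ‖wfam A r V‖ ≤ C := by
  rcases r with r | r
  · exact ⟨‖(del r.2.1 + cc r.2.2 • del r.1 : L2 d)‖, fun V => le_rfl⟩
  · obtain ⟨C, hC⟩ := (hA r.1).bdd
    refine ⟨C + 1, fun V => ?_⟩
    refine (norm_add_le _ _).trans (add_le_add ?_ ?_)
    · refine ((A r.1 V).le_opNorm _).trans ?_
      rw [norm_del, mul_one]; exact hC V
    · rw [norm_smul, norm_cc, norm_del, one_mul]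

/-- the common sequence -/
theorem exists_seq [Countable ι] (hStep : StepStatement) (hCauchy : CauchyStatement)
    (hTight : TightStatement) (hSeq : SeqStatement) (μ : Measure ℝ) [IsProbabilityMeasure μ] :
    ∃ e : ℕ → ℝ, (∀ k, 0 < e k) ∧ Tendsto e atTop (𝓝 0) ∧
      (∀ r, ∃ F₀ : Cfg d × ℝ → ℂ, Measurable F₀ ∧
        ∀ᵐ p ∂(KK d μ), Tendsto (fun k => Fw (wfam A r) (e k) p) atTop (𝓝 (F₀ p))) ∧
      ∀ i x₀ x, ∀ᵐ ω ∂((KK d μ).prod μ),
        Tendsto (fun k => dq (A i) x₀ x (e k) ω) atTop (𝓝 0) ∧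
        Tendsto (fun k => dq (A i) x₀ x (-e k) ω) atTop (𝓝 0) := by
  have hg : ∀ r : (Site d × Site d × Fin 4) ⊕ (ι × Site d × Fin 4),
      ∃ g₀ : Cfg d × ℝ → ℂ, Measurable g₀ ∧ ∀ δ : ℝ, 0 < δ →
      Tendsto (fun ε => (KK d μ) {p | δ ≤ ‖gw (wfam A r) ε p - g₀ p‖}) (𝓝[>] 0) (𝓝 0) := by
    intro r
    obtain ⟨C, hC⟩ := bdd_wfam hA r
    exact hCauchy d μ (wfam A r) (sm_wfam hA r) C hC
  choose g₀ hg₀m hg₀ using hg
  set q : (((Site d × Site d × Fin 4) ⊕ (ι × Site d × Fin 4)) ⊕ (ι × Site d × Site d × Bool)) →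
      ℝ → (Cfg d × ℝ) × ℝ → ℝ := fun j ε ω =>
    match j with
    | Sum.inl r => ‖gw (wfam A r) ε ω.1 - g₀ r ω.1‖
    | Sum.inr r => dq (A r.1) r.2.1 r.2.2.1 ((if r.2.2.2 then 1 else -1) * ε) ω with hq
  have hconv : ∀ j δ, 0 < δ →
      Tendsto (fun ε => ((KK d μ).prod μ) {ω | δ ≤ |q j ε ω|}) (𝓝[>] 0) (𝓝 0) := by
    intro j δ hδ
    rcases j with r | r
    · refine (hg₀ r δ hδ).congr fun ε => ?_
      have e : {ω : (Cfg d × ℝ) × ℝ | δ ≤ |q (Sum.inl r) ε ω|} =
          {p : Cfg d × ℝ | δ ≤ ‖gw (wfam A r) ε p - g₀ r p‖} ×ˢ (Set.univ : Set ℝ) := by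
        ext ω
        simp only [hq, abs_norm, Set.mem_ofPred_eq, Set.mem_prod, Set.mem_univ, and_true]
      rw [e, Measure.prod_prod, measure_univ, mul_one]
    · have h1 := hStep d μ (A r.1) (hA r.1).toCov r.2.1 r.2.2.1 (if r.2.2.2 then 1 else -1)
        (by split_ifs <;> simp) δ hδ
      refine h1.congr fun ε => ?_
      congr 1
      ext ω
      simp only [hq, Set.mem_ofPred_eq]
      rw [abs_of_nonneg]
      unfold dq
      positivity
  obtain ⟨e, he, he0, hlim⟩ := hSeq _ ((KK d μ).prod μ) _ q hconv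
  refine ⟨e, he, he0, fun r => ?_, fun i x₀ x => ?_⟩
  · obtain ⟨C, hC⟩ := bdd_wfam hA r
    refine bv_limit hTight (sm_wfam hA r) hC he he0 (hg₀m r) ?_
    refine ae_fst' (μ := μ) ?_
    filter_upwards [hlim (Sum.inl r)] with ω hω
    simp only [hq] at hω
    rw [tendsto_iff_norm_sub_tendsto_zero]
    exact hω
  · filter_upwards [hlim (Sum.inr (i, x₀, x, true)), hlim (Sum.inr (i, x₀, x, false))]
      with ω h1 h2
    simp only [hq, if_true, one_mul] at h1
    simp only [hq] at h2
    simp only [Bool.false_eq_true, if_false, neg_mul, one_mul] at h2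
    exact ⟨h1, h2⟩

end Pool.Agent.QE
end
end -- Pool.Agent.Helper54_QE.Seqs

section -- Pool.Agent.Helper54_QE.Lims

/-!
# The almost everywhere limits and the vanishing of the residuals
-/

set_option autoImplicit false
set_option linter.unusedSectionVars false

open scoped InnerProductSpace ComplexConjugate Topology ENNReal
open MeasureTheory Filter

noncomputable section

namespace Pool.Agent.QE

open Pool.Agent.Anderson Pool.Agent.Helper54.Bal

variable {d : ℕ} {ι : Type}

/-- a common sequence together with the limits -/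
structure Dat (A : ι → Cfg d → Op d) (μ : Measure ℝ) [IsProbabilityMeasure μ] (e : ℕ → ℝ)
    (gg : Site d → Site d → Cfg d × ℝ → ℂ) (hh : ι → Site d → Cfg d × ℝ → ℂ) : Prop where
  pos : ∀ k, 0 < e k
  zero : Tendsto e atTop (𝓝 0)
  mg : ∀ x y, Measurable (gg x y)
  mh : ∀ i x, Measurable (hh i x)
  gl : ∀ᵐ p ∂(KK d μ), GLim p.1 p.2 e (fun x y => gg x y p)
  al : ∀ᵐ p ∂(KK d μ), ∀ i, ALim (A i p.1) p.1 p.2 e (fun x => hh i x p)
  dl : ∀ᵐ ω ∂((KK d μ).prod μ), ∀ i x₀ x,
    Tendsto (fun k => dq (A i) x₀ x (e k) ω) atTop (𝓝 0) ∧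
    Tendsto (fun k => dq (A i) x₀ x (-e k) ω) atTop (𝓝 0)

theorem exists_dat [Countable ι] {A : ι → Cfg d → Op d} (hA : ∀ i, Obs (A i))
    (hStep : StepStatement) (hCauchy : CauchyStatement) (hTight : TightStatement)
    (hSeq : SeqStatement) (μ : Measure ℝ) [IsProbabilityMeasure μ] :
    ∃ e gg hh, Dat A μ e gg hh := by
  obtain ⟨e, he, he0, hF, hD⟩ := exists_seq hA hStep hCauchy hTight hSeq μ
  choose F₀ hF₀m hF₀ using hF
  refine ⟨e, fun x y p => (1 / 4) * ∑ k : Fin 4, cc k * F₀ (Sum.inl (x, y, k)) p,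
    fun i x p => (1 / 4) * ∑ k : Fin 4, cc k * F₀ (Sum.inr (i, x, k)) p, ?_⟩
  have hall := ae_all_iff.2 hF₀
  refine ⟨he, he0, fun x y => ?_, fun i x => ?_, ?_, ?_, ?_⟩
  · exact (Finset.measurable_sum _ fun k _ => (hF₀m _).const_mul _).const_mul _
  · exact (Finset.measurable_sum _ fun k _ => (hF₀m _).const_mul _).const_mul _
  · filter_upwards [hall] with p hp
    intro x y
    have h1 : Tendsto (fun n => (1 / 4 : ℂ) * ∑ k : Fin 4,
        cc k * Fw (wfam A (Sum.inl (x, y, k))) (e n) p) atTop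
        (𝓝 ((1 / 4) * ∑ k : Fin 4, cc k * F₀ (Sum.inl (x, y, k)) p)) :=
      (tendsto_finsetSum _ fun k _ => (hp (Sum.inl (x, y, k))).const_mul _).const_mul _
    refine h1.congr fun n => ?_
    have h2 := polar' (G p.1 (zz (e n) p.2)) (del x) (del y)
    rw [inner_del_left] at h2
    rw [h2]
    rfl
  · filter_upwards [hall] with p hp
    intro i x
    have h1 : Tendsto (fun n => (1 / 4 : ℂ) * ∑ k : Fin 4,
        cc k * Fw (wfam A (Sum.inr (i, x, k))) (e n) p) atTop
        (𝓝 ((1 / 4) * ∑ k : Fin 4, cc k * F₀ (Sum.inr (i, x, k)) p)) :=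
      (tendsto_finsetSum _ fun k _ => (hp (Sum.inr (i, x, k))).const_mul _).const_mul _
    refine h1.congr fun n => ?_
    have h2 := polar' (G p.1 (zz (e n) p.2)) (del x) (A i p.1 (del x))
    rw [inner_del_left] at h2
    rw [h2]
    rfl
  · rw [ae_all_iff]; intro i
    rw [ae_all_iff]; intro x₀
    rw [ae_all_iff]; intro x
    exact hD i x₀ x

section dat

variable {A : ι → Cfg d → Op d} (hA : ∀ i, Obs (A i)) {μ : Measure ℝ} [IsProbabilityMeasure μ]
  {e : ℕ → ℝ} {gg : Site d → Site d → Cfg d × ℝ → ℂ} {hh : ι → Site d → Cfg d × ℝ → ℂ}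
  (D : Dat A μ e gg hh)

include hA D

theorem par_ae [Countable ι] (hMP : MPStatement) (hna : ∀ a : ℝ, μ {a} = 0) :
    ∀ᵐ p ∂(KK d μ), ∀ i x, Par (A i p.1) p.1 p.2 e x := by
  rw [ae_all_iff]; intro i
  rw [ae_all_iff]; intro x₀
  refine ae_upd' hMP x₀ ?_ ?_
  · unfold Par
    refine measurableSet_tendsto (𝓝 0) fun k => ?_
    exact (measurable_rr (hA i).toCov x₀ (D.pos k).ne').const_mul _
  · filter_upwards [ae_fst D.gl, ae_upd hMP x₀ D.gl, D.dl, ae_ne hna] with ω h1 h2 h3 h4
    obtain ⟨h5, h6⟩ := h3 i x₀ x₀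
    have hV : (upd x₀ ω).1 = Function.update ω.1.1 x₀ ω.2 := rfl
    have hE : (upd x₀ ω).2 = ω.1.2 := rfl
    rw [hV, hE] at h2 ⊢
    refine par_of_step D.pos (h4 x₀) h1 h2 ((hA i).comm ω.1.1) ((hA i).sa _) ((hA i).comm _)
      ?_ ?_
    · refine h5.congr fun k => ?_
      unfold dq
      rw [abs_of_pos (D.pos k)]
    · refine h6.congr fun k => ?_
      unfold dq
      rw [abs_neg, abs_of_pos (D.pos k)]

/-- a site of zero density is not connected to a site of positive density -/
theorem zero_pos_ae (hMP : MPStatement) (hNull : NullStatement) (hna : ∀ a : ℝ, μ {a} = 0) :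
    ∀ᵐ p ∂(KK d μ), ∀ x y, (gg x x p).im = 0 → 0 < (gg y y p).im → gg y x p = 0 := by
  rw [ae_all_iff]; intro x
  rw [ae_all_iff]; intro y
  have hm1 : MeasurableSet {p : Cfg d × ℝ | (gg x x p).im = 0} :=
    measurableSet_eq_fun (Complex.measurable_im.comp (D.mg x x)) measurable_const
  have hm2 : MeasurableSet {p : Cfg d × ℝ | 0 < (gg y y p).im} :=
    measurableSet_lt measurable_const (Complex.measurable_im.comp (D.mg y y))
  have hm3 : MeasurableSet {p : Cfg d × ℝ | gg y x p ≠ 0} :=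
    (measurableSet_eq_fun (D.mg y x) measurable_const).compl
  set S : Set (Cfg d × ℝ) := {p | (gg x x p).im = 0} ∩ {p | 0 < (gg y y p).im} ∩
    {p | gg y x p ≠ 0} with hS
  have hSm : MeasurableSet S := (hm1.inter hm2).inter hm3
  have h0 : (KK d μ) S = 0 := by
    refine hNull d μ y S hSm ?_
    filter_upwards [ae_fst D.gl, ae_upd hMP y D.gl, ae_ne hna] with ω h1 h2 h4
    rintro ⟨⟨k1, k2⟩, k3⟩ ⟨⟨k4, -⟩, -⟩
    have hV : (upd y ω).1 = Function.update ω.1.1 y ω.2 := rfl
    have hE : (upd y ω).2 = ω.1.2 := rfl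
    rw [hV, hE] at h2
    have := im_pos_of_resample D.pos (h4 y) h1 h2 k1 k2 k3
    exact this.ne' k4
  have h1 : ∀ᵐ p ∂(KK d μ), p ∉ S := measure_eq_zero_iff_ae_notMem.1 h0
  filter_upwards [h1] with p hp k1 k2
  by_contra k3
  exact hp ⟨⟨k1, k2⟩, k3⟩

/-- sites with different values are not connected -/
theorem green_zero_ae [Countable ι] (hMP : MPStatement) (hna : ∀ a : ℝ, μ {a} = 0) :
    ∀ᵐ p ∂(KK d μ), ∀ i x y, 0 < (gg x x p).im → 0 < (gg y y p).im →
      av (fun x y => gg x y p) (fun x => hh i x p) x ≠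
        av (fun x y => gg x y p) (fun x => hh i x p) y → gg y x p = 0 := by
  have hpar := par_ae hA D hMP hna
  refine ae_fst' (μ := μ) ?_
  rw [ae_all_iff]; intro i
  rw [ae_all_iff]; intro x
  rw [ae_all_iff]; intro y
  filter_upwards [ae_fst D.gl, ae_upd hMP y D.gl, ae_fst D.al, ae_upd hMP y D.al, D.dl, ae_ne hna,
    ae_fst hpar, ae_upd hMP y hpar] with ω h1 h2 h3 h4 h5 h6 h7 h8
  intro k1 k2 k3
  have hV : (upd y ω).1 = Function.update ω.1.1 y ω.2 := rfl
  have hE : (upd y ω).2 = ω.1.2 := rfl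
  have h4' := h4 i
  have h8y := h8 i y
  have h8x := h8 i x
  rw [hV, hE] at h2 h4' h8y h8x
  refine green_zero (A := A i ω.1.1) (A' := A i (Function.update ω.1.1 y ω.2)) D.pos (h6 y)
    h1 h2 ((hA i).sa _) ((hA i).comm _) ((hA i).sa _) ((hA i).comm _) (h3 i) h4' k2 k1 k3 ?_ ?_
    (h7 i y) (h7 i x) h8y h8x
  · refine (h5 i y y).1.congr fun k => ?_
    unfold dq
    rw [abs_of_pos (D.pos k)]
  · refine (h5 i y x).1.congr fun k => ?_
    unfold dq
    rw [abs_of_pos (D.pos k)]

/-- positivity at one site forces positivity and equality of the values everywhere -/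
theorem all_pos_ae [Countable ι] (hMP : MPStatement) (hNull : NullStatement)
    (hGraph : GraphStatement) (hna : ∀ a : ℝ, μ {a} = 0) :
    ∀ᵐ p ∂(KK d μ), ∀ z, 0 < (gg z z p).im → ∀ x, 0 < (gg x x p).im ∧
      ∀ i, av (fun x y => gg x y p) (fun x => hh i x p) x =
        av (fun x y => gg x y p) (fun x => hh i x p) z := by
  filter_upwards [D.gl, zero_pos_ae hA D hMP hNull hna, green_zero_ae hA D hMP hna]
    with p h1 h2 h3
  intro z hz
  have hsym : ∀ x y, gg x y p = gg y x p := fun x y => GLim.symm D.pos h1 x y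
  have heqn := fun x y => GLim.eqn D.pos h1 D.zero x y
  have hnn := fun x => GLim.im_nonneg D.pos h1 x
  have hpos : ∀ x, 0 < (gg x x p).im := by
    have hB := hGraph d p.1 p.2 (fun x y => gg x y p) hsym heqn {x | 0 < (gg x x p).im}
      ⟨z, hz⟩ (fun y hy x hx => by
        refine h2 x y ?_ hy
        rcases (hnn x).eq_or_lt with h | h
        · exact h.symm
        · exact absurd h hx)
    intro x
    have : x ∈ {x | 0 < (gg x x p).im} := by rw [hB]; trivial
    exact this
  refine fun x => ⟨hpos x, fun i => ?_⟩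
  have hB := hGraph d p.1 p.2 (fun x y => gg x y p) hsym heqn
    {x | av (fun x y => gg x y p) (fun x => hh i x p) x =
      av (fun x y => gg x y p) (fun x => hh i x p) z} ⟨z, rfl⟩ (fun y hy x hx => by
        refine h3 i x y (hpos x) (hpos y) ?_
        intro h
        exact hx (h.trans hy))
  have : x ∈ {x | av (fun x y => gg x y p) (fun x => hh i x p) x =
      av (fun x y => gg x y p) (fun x => hh i x p) z} := by rw [hB]; trivial
  exact this

end dat

end Pool.Agent.QE
end
end -- Pool.Agent.Helper54_QE.Lims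

section -- Pool.Agent.Helper54_QE.Final

/-!
# Conserved covariant observables are functions of the energy
-/

set_option autoImplicit false
set_option linter.unusedSectionVars false

open scoped InnerProductSpace ComplexConjugate Topology ENNReal
open MeasureTheory Filter

noncomputable section

namespace Pool.Agent.QE

open Pool.Agent.Anderson Pool.Agent.Helper54.Bal

variable {d : ℕ} {ι : Type}

/-- the value of the observable at the origin, cut off -/
def ff (C : ℝ) (gg : Site d → Site d → Cfg d × ℝ → ℂ) (hh : ι → Site d → Cfg d × ℝ → ℂ)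
    (i : ι) (p : Cfg d × ℝ) : ℝ :=
  if 0 < (gg 0 0 p).im then
    max (-C) (min C (av (fun x y => gg x y p) (fun x => hh i x p) 0)) else 0

theorem abs_ff_le {C : ℝ} (hC : 0 ≤ C) (gg : Site d → Site d → Cfg d × ℝ → ℂ)
    (hh : ι → Site d → Cfg d × ℝ → ℂ) (i : ι) (p : Cfg d × ℝ) : |ff C gg hh i p| ≤ C := by
  unfold ff
  split_ifs
  · rw [abs_le]
    exact ⟨le_max_left _ _, max_le (by linarith) (min_le_left _ _)⟩
  · rwa [abs_zero]

/-- reordering of the variables -/
theorem ae_reorder {μ : Measure ℝ} [IsProbabilityMeasure μ] {P : (Cfg d × ℝ) × ℝ → Prop}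
    (h : ∀ᵐ ω ∂((KK d μ).prod μ), P ω) :
    ∀ᵐ E ∂lam, ∀ᵐ q ∂((PP d μ).prod μ), P ((q.1, E), q.2) := by
  have hmp : MeasurePreserving (fun ω : ℝ × (Cfg d × ℝ) => (((ω.2.1, ω.1), ω.2.2) :
      (Cfg d × ℝ) × ℝ)) (lam.prod ((PP d μ).prod μ)) ((KK d μ).prod μ) := by
    have h1 : MeasurePreserving (MeasurableEquiv.prodAssoc.symm : ℝ × (Cfg d × ℝ) ≃ᵐ _)
        (lam.prod ((PP d μ).prod μ)) ((lam.prod (PP d μ)).prod μ) :=
      (measurePreserving_prodAssoc lam (PP d μ) μ).symm
    have h2 : MeasurePreserving (Prod.map Prod.swap id : (ℝ × Cfg d) × ℝ → _)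
        ((lam.prod (PP d μ)).prod μ) ((KK d μ).prod μ) :=
      (Measure.measurePreserving_swap).prod (MeasurePreserving.id μ)
    exact h2.comp h1
  exact Measure.ae_ae_of_ae_prod (hmp.quasiMeasurePreserving.ae h)

section dat

variable {A : ι → Cfg d → Op d} (hA : ∀ i, Obs (A i)) {μ : Measure ℝ} [IsProbabilityMeasure μ]
  {e : ℕ → ℝ} {gg : Site d → Site d → Cfg d × ℝ → ℂ} {hh : ι → Site d → Cfg d × ℝ → ℂ}
  (D : Dat A μ e gg hh)

include D in
theorem measurable_ff (C : ℝ) (i : ι) : Measurable (ff C gg hh i) := by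
  unfold ff
  refine Measurable.ite ?_ ?_ measurable_const
  · exact measurableSet_lt measurable_const (Complex.measurable_im.comp (D.mg 0 0))
  · unfold av
    exact measurable_const.max (measurable_const.min
      ((Complex.measurable_im.comp (D.mh i 0)).div (Complex.measurable_im.comp (D.mg 0 0))))

include hA D

/-- invariance of the value under resampling -/
theorem ff_upd [Countable ι] (hMP : MPStatement) (hNull : NullStatement)
    (hGraph : GraphStatement) (hna : ∀ a : ℝ, μ {a} = 0) (C : ℝ) :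
    ∀ᵐ ω ∂((KK d μ).prod μ), ∀ i y, ff C gg hh i (upd y ω) = ff C gg hh i ω.1 := by
  have hall := all_pos_ae hA D hMP hNull hGraph hna
  rw [ae_all_iff]; intro i
  rw [ae_all_iff]; intro y
  filter_upwards [ae_fst D.gl, ae_upd hMP y D.gl, ae_fst D.al, ae_upd hMP y D.al, D.dl,
    ae_fst hall, ae_upd hMP y hall] with ω h1 h2 h3 h4 h5 h6 h7
  have h2' := h2
  have h4' := h4 i
  have hV : (upd y ω).1 = Function.update ω.1.1 y ω.2 := rfl
  have hE : (upd y ω).2 = ω.1.2 := rfl
  rw [hV, hE] at h2' h4'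
  have hiff : 0 < (gg y y (upd y ω)).im ↔ 0 < (gg y y ω.1).im := im_pos_iff D.pos h1 h2'
  have hiff0 : 0 < (gg 0 0 (upd y ω)).im ↔ 0 < (gg 0 0 ω.1).im := by
    constructor
    · intro k
      exact (h6 y (hiff.1 (h7 0 k y).1) 0).1
    · intro k
      exact (h7 y (hiff.2 (h6 0 k y).1) 0).1
  unfold ff
  by_cases hp : 0 < (gg 0 0 ω.1).im
  · rw [if_pos hp, if_pos (hiff0.2 hp)]
    have hpy : 0 < (gg y y ω.1).im := (h6 0 hp y).1
    have e1 := (h6 y hpy 0).2 i
    have e2 := (h7 y (hiff.2 hpy) 0).2 i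
    have e3 := value_eq (A := A i ω.1.1) (A' := A i (Function.update ω.1.1 y ω.2)) D.pos h1 h2'
      ((hA i).sa _) ((hA i).comm _) ((hA i).sa _) ((hA i).comm _) (h3 i) h4' hpy
      ((h5 i y y).1.congr fun k => by unfold dq; rw [abs_of_pos (D.pos k)])
    rw [e1, e2, e3]
  · rw [if_neg hp, if_neg (fun h => hp (hiff0.1 h))]

/-- the local value of the observable is deterministic -/
theorem ff_const [Countable ι] (hMP : MPStatement) (hNull : NullStatement)
    (hGraph : GraphStatement) (hZero : ZeroStatement) (hna : ∀ a : ℝ, μ {a} = 0) {C : ℝ}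
    (hC : 0 ≤ C) :
    ∀ᵐ V ∂(PP d μ), ∀ᵐ E ∂lam, ∀ i,
      ff C gg hh i (V, E) = ∫ W, ff C gg hh i (W, E) ∂(PP d μ) := by
  have hcount : ∀ i, ∀ᵐ V ∂(PP d μ), ∀ᵐ E ∂lam,
      ff C gg hh i (V, E) = ∫ W, ff C gg hh i (W, E) ∂(PP d μ) := by
    intro i
    have hm := measurable_ff D C i
    have hmc : Measurable fun E : ℝ => ∫ W, ff C gg hh i (W, E) ∂(PP d μ) := by
      have h1 : StronglyMeasurable fun E : ℝ => ∫ W, ff C gg hh i (W, E) ∂(PP d μ) :=
        StronglyMeasurable.integral_prod_left' (f := ff C gg hh i) hm.stronglyMeasurable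
      exact h1.measurable
    have h1 := ae_reorder (ff_upd hA D hMP hNull hGraph hna C)
    have h2 : ∀ᵐ E ∂lam, ∀ᵐ V ∂(PP d μ),
        ff C gg hh i (V, E) = ∫ W, ff C gg hh i (W, E) ∂(PP d μ) := by
      filter_upwards [h1] with E hE
      refine hZero d μ (fun V => ff C gg hh i (V, E)) (hm.comp measurable_prodMk_right) C
        (fun V => abs_ff_le hC _ _ _ _) fun y => ?_
      filter_upwards [hE] with q hq
      exact hq i y
    refine (Measure.ae_ae_comm ?_).2 h2
    exact measurableSet_eq_fun hm (hmc.comp measurable_snd)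
  filter_upwards [ae_all_iff.2 hcount] with V hV
  exact ae_all_iff.2 hV

/-- the residuals at the deterministic value vanish asymptotically -/
theorem mc_ae [Countable ι] (hMP : MPStatement) (hNull : NullStatement)
    (hGraph : GraphStatement) (hna : ∀ a : ℝ, μ {a} = 0) {C : ℝ} (hC : ∀ i V, ‖A i V‖ ≤ C) :
    ∀ᵐ p ∂(KK d μ), ∀ i x, Tendsto (fun k => Real.sqrt (e k) *
      ‖A i p.1 (G p.1 (zz (e k) p.2) (del x)) -
        (ff C gg hh i p : ℂ) • G p.1 (zz (e k) p.2) (del x)‖) atTop (𝓝 0) := by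
  filter_upwards [D.gl, D.al, par_ae hA D hMP hna, all_pos_ae hA D hMP hNull hGraph hna]
    with p h1 h2 h3 h4
  intro i x
  have hn := GLim.norm D.pos h1 x
  rcases (GLim.im_nonneg D.pos h1 x).eq_or_lt with hx | hx
  · rw [← hx, Real.sqrt_zero] at hn
    have h5 : Tendsto (fun k => (‖A i p.1‖ + ‖(ff C gg hh i p : ℂ)‖) *
        (Real.sqrt (e k) * ‖G p.1 (zz (e k) p.2) (del x)‖)) atTop (𝓝 0) := by
      have := hn.const_mul (‖A i p.1‖ + ‖(ff C gg hh i p : ℂ)‖)
      rwa [mul_zero] at this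
    refine squeeze_zero (fun k => by positivity) (fun k => ?_) h5
    have h6 := norm_sub_le (A i p.1 (G p.1 (zz (e k) p.2) (del x)))
      ((ff C gg hh i p : ℂ) • G p.1 (zz (e k) p.2) (del x))
    rw [norm_smul] at h6
    have h7 := (A i p.1).le_opNorm (G p.1 (zz (e k) p.2) (del x))
    calc _ ≤ Real.sqrt (e k) * (‖A i p.1‖ * ‖G p.1 (zz (e k) p.2) (del x)‖ +
          ‖(ff C gg hh i p : ℂ)‖ * ‖G p.1 (zz (e k) p.2) (del x)‖) :=
          mul_le_mul_of_nonneg_left (by linarith) (Real.sqrt_nonneg _)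
      _ = _ := by ring
  · have h0 := (h4 x hx 0).1
    have ev := (h4 x hx 0).2 i
    have hval : ff C gg hh i p = av (fun x y => gg x y p) (fun x => hh i x p) x := by
      unfold ff
      rw [if_pos h0, ev]
      have hlim := tendsto_aa h1 (h2 i) hx
      have hb : |av (fun x y => gg x y p) (fun x => hh i x p) x| ≤ C := by
        refine le_of_tendsto hlim.abs (Eventually.of_forall fun k => ?_)
        exact (abs_aa_le ((hA i).sa _) ((hA i).comm _) (zk_im D.pos k).ne' x).trans (hC i p.1)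
      rw [abs_le] at hb
      rw [min_eq_right hb.2, max_eq_right hb.1]
    have hlim := tendsto_aa h1 (h2 i) hx
    have h5 : Tendsto (fun k => |aa (A i p.1) p.1 (zz (e k) p.2) x - ff C gg hh i p| *
        (Real.sqrt (e k) * ‖G p.1 (zz (e k) p.2) (del x)‖) +
        Real.sqrt (e k) * ‖rr (A i p.1) p.1 (zz (e k) p.2) x‖) atTop
        (𝓝 (|ff C gg hh i p - ff C gg hh i p| * Real.sqrt (gg x x p).im + 0)) := by
      refine (Tendsto.mul ?_ hn).add (h3 i x)
      refine Tendsto.abs (Tendsto.sub_const ?_ _)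
      rw [hval]; exact hlim
    rw [sub_self, abs_zero, zero_mul, add_zero] at h5
    refine squeeze_zero (fun k => by positivity) (fun k => ?_) h5
    have e1 : A i p.1 (G p.1 (zz (e k) p.2) (del x)) -
        (ff C gg hh i p : ℂ) • G p.1 (zz (e k) p.2) (del x) =
        ((aa (A i p.1) p.1 (zz (e k) p.2) x - ff C gg hh i p : ℝ) : ℂ) •
          G p.1 (zz (e k) p.2) (del x) + rr (A i p.1) p.1 (zz (e k) p.2) x := by
      rw [A_G_del, Complex.ofReal_sub, sub_smul]; abel
    rw [e1]
    refine (mul_le_mul_of_nonneg_left (norm_add_le _ _) (Real.sqrt_nonneg _)).trans ?_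
    rw [norm_smul, Complex.norm_real, Real.norm_eq_abs]
    exact le_of_eq (by ring)

end dat

/-- the main theorem for countable families of symmetric observables -/
theorem mc [Countable ι] {A : ι → Cfg d → Op d} (hA : ∀ i, Obs (A i))
    {μ : Measure ℝ} [IsProbabilityMeasure μ] (hna : ∀ a : ℝ, μ {a} = 0)
    {C : ℝ} (hC0 : 0 ≤ C) (hC : ∀ i V, ‖A i V‖ ≤ C)
    (hStep : StepStatement) (hCauchy : CauchyStatement) (hTight : TightStatement)
    (hSeq : SeqStatement) (hMP : MPStatement) (hNull : NullStatement)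
    (hGraph : GraphStatement) (hZero : ZeroStatement) :
    ∃ (e : ℕ → ℝ) (c : ι → ℝ → ℝ) (g₀ : Cfg d × ℝ → ℝ), (∀ k, 0 < e k) ∧
      Tendsto e atTop (𝓝 0) ∧ (∀ i, Measurable (c i)) ∧ (∀ i E, |c i E| ≤ C) ∧
      (Measurable g₀ ∧ ∀ᵐ p ∂(KK d μ), Tendsto (fun k => (G p.1 (zz (e k) p.2) (del 0) 0).im)
        atTop (𝓝 (g₀ p))) ∧
      ∀ᵐ V ∂(PP d μ), ∀ i x, ∀ᵐ E : ℝ, Tendsto (fun k => Real.sqrt (e k) *
        ‖A i V (G V (zz (e k) E) (del x)) - (c i E : ℂ) • G V (zz (e k) E) (del x)‖) atTop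
          (𝓝 0) := by
  obtain ⟨e, gg, hh, D⟩ := exists_dat hA hStep hCauchy hTight hSeq μ
  refine ⟨e, fun i E => ∫ W, ff C gg hh i (W, E) ∂(PP d μ), fun p => (gg 0 0 p).im, D.pos,
    D.zero, fun i => ?_, fun i E => ?_, ⟨Complex.measurable_im.comp (D.mg 0 0), ?_⟩, ?_⟩
  · have h1 : StronglyMeasurable fun E : ℝ => ∫ W, ff C gg hh i (W, E) ∂(PP d μ) :=
      StronglyMeasurable.integral_prod_left' (f := ff C gg hh i)
        (measurable_ff D C i).stronglyMeasurable
    exact h1.measurable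
  · have h1 := norm_integral_le_of_norm_le_const (μ := PP d μ) (C := C)
      (f := fun W => ff C gg hh i (W, E))
      (Eventually.of_forall fun W => abs_ff_le hC0 gg hh i (W, E))
    simpa using h1
  · filter_upwards [D.gl] with p hp
    exact (Complex.continuous_im.tendsto _).comp (hp 0 0)
  · have h1 := Measure.ae_ae_of_ae_prod (mc_ae hA D hMP hNull hGraph hna hC)
    filter_upwards [h1, ff_const hA D hMP hNull hGraph hZero hna hC0] with V h2 h3
    have h4 : ∀ᵐ E : ℝ, ∀ i x, Tendsto (fun k => Real.sqrt (e k) *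
        ‖A i V (G V (zz (e k) E) (del x)) - ((∫ W, ff C gg hh i (W, E) ∂(PP d μ) : ℝ) : ℂ) •
          G V (zz (e k) E) (del x)‖) atTop (𝓝 0) := by
      refine ac_lam.ae_le ?_
      filter_upwards [h2, h3] with E h5 h6
      intro i x
      have := h5 i x
      simp only [h6 i] at this
      exact this
    intro i x
    filter_upwards [h4] with E hE
    exact hE i x

end Pool.Agent.QE
end
end -- Pool.Agent.Helper54_QE.Final

section -- Pool.Agent.Helper68_QE.Resample

/-!
# Modules MP, NULL and ZERO: resampling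
-/

set_option autoImplicit false

open MeasureTheory Filter Topology
open scoped ENNReal

namespace Pool.Agent.QE

open Pool.Agent.Anderson

variable {d : ℕ} (μ : Measure ℝ) [IsProbabilityMeasure μ]

/-- Resampling one coordinate preserves the law. -/
theorem mpres (x₀ : Site d) :
    MeasurePreserving (fun p : Cfg d × ℝ => Function.update p.1 x₀ p.2) ((PP d μ).prod μ)
      (PP d μ) := by
  have hm : Measurable (fun p : Cfg d × ℝ => Function.update p.1 x₀ p.2) := measurable_update'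
  refine ⟨hm, ?_⟩
  apply Measure.eq_infinitePi
  intro s t ht
  rw [Measure.map_apply hm (MeasurableSet.pi s.countable_toSet fun i _ => ht i)]
  by_cases h0 : x₀ ∈ s
  · have e : (fun p : Cfg d × ℝ => Function.update p.1 x₀ p.2) ⁻¹' Set.pi (↑s) t =
        (Set.pi (↑(s.erase x₀)) t) ×ˢ (t x₀) := by
      ext p
      simp only [Set.mem_preimage, Set.mem_pi, Set.mem_prod, Finset.mem_coe, Finset.mem_erase]
      constructor
      · intro h
        refine ⟨fun i hi => ?_, ?_⟩
        · have := h i hi.2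
          rwa [Function.update_of_ne hi.1] at this
        · have := h x₀ h0
          rwa [Function.update_self] at this
      · rintro ⟨h1, h2⟩ i hi
        by_cases hix : i = x₀
        · subst hix; rwa [Function.update_self]
        · rw [Function.update_of_ne hix]; exact h1 i ⟨hix, hi⟩
    rw [e, Measure.prod_prod, Measure.infinitePi_pi _ (fun i _ => ht i),
      Finset.prod_erase_mul s (fun i => μ (t i)) h0]
  · have e : (fun p : Cfg d × ℝ => Function.update p.1 x₀ p.2) ⁻¹' Set.pi (↑s) t =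
        (Set.pi (↑s) t) ×ˢ Set.univ := by
      ext p
      simp only [Set.mem_preimage, Set.mem_pi, Set.mem_prod, Finset.mem_coe, Set.mem_univ, and_true]
      refine forall₂_congr fun i hi => ?_
      have hne : i ≠ x₀ := by rintro rfl; exact h0 hi
      rw [Function.update_of_ne hne]
    rw [e, Measure.prod_prod, Measure.infinitePi_pi _ (fun i _ => ht i), measure_univ, mul_one]

instance : SFinite lam := by
  unfold lam
  infer_instance

/-- Module MP. -/
theorem mp : MPStatement := by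
  intro d μ _ x₀
  have h1 := measurePreserving_prodAssoc (PP d μ) lam μ
  have h2 := (MeasurePreserving.id (PP d μ)).prod
    (Measure.measurePreserving_swap (μ := lam) (ν := μ))
  have h3 := (measurePreserving_prodAssoc (PP d μ) μ lam).symm
  have h4 := (mpres μ x₀).prod (MeasurePreserving.id lam)
  have h5 := h4.comp (h3.comp (h2.comp h1))
  exact h5

/-- Module NULL. -/
theorem null : NullStatement := by
  intro d μ _ y S hS hae
  have hmp := mp d μ y
  have hmeas : MeasurableSet (upd y ⁻¹' S) := hmp.measurable hS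
  set q : Cfg d × ℝ → ℝ≥0∞ := fun p => μ (Prod.mk p ⁻¹' (upd y ⁻¹' S)) with hq
  have hqm : Measurable q := measurable_measure_prodMk_left hmeas
  have hqq : ∀ p v, q (upd y (p, v)) = q p := by
    intro p v
    simp only [hq]
    congr 1
    ext w
    simp [upd]
  have hKS : (KK d μ) S = ∫⁻ p, q p ∂(KK d μ) := by
    rw [← hmp.measure_preimage hS.nullMeasurableSet, Measure.prod_apply hmeas]
  have h0 : ∫⁻ p, S.indicator q p ∂(KK d μ) = 0 := by
    rw [lintegral_eq_zero_iff (hqm.indicator hS)]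
    have h1 := Measure.ae_ae_of_ae_prod hae
    filter_upwards [h1] with p hp
    by_cases hpS : p ∈ S
    · rw [Set.indicator_of_mem hpS]
      have h2 : ∀ᵐ v ∂μ, upd y (p, v) ∉ S := hp.mono fun v hv => hv hpS
      have h3 : μ {v | ¬ upd y (p, v) ∉ S} = 0 := h2
      simp only [hq, Pi.zero_apply]
      refine measure_mono_null ?_ h3
      intro v hv hcon
      exact hcon hv
    · rw [Set.indicator_of_notMem hpS]; rfl
  have h1 : ∫⁻ p, S.indicator q p ∂(KK d μ) = ∫⁻ p, q p * q p ∂(KK d μ) := by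
    rw [← hmp.lintegral_comp (hqm.indicator hS),
      lintegral_prod (fun ω => S.indicator q (upd y ω))
        ((hqm.indicator hS).comp hmp.measurable).aemeasurable]
    refine lintegral_congr fun p => ?_
    have h2 : ∀ v, S.indicator q (upd y (p, v)) =
        (Prod.mk p ⁻¹' (upd y ⁻¹' S)).indicator (fun _ => q p) v := by
      intro v
      by_cases hv : upd y (p, v) ∈ S
      · rw [Set.indicator_of_mem hv, Set.indicator_of_mem (by exact hv), hqq]
      · rw [Set.indicator_of_notMem hv, Set.indicator_of_notMem (by exact hv)]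
    simp only [h2]
    rw [lintegral_indicator (measurable_prodMk_left hmeas), lintegral_const,
      Measure.restrict_apply MeasurableSet.univ, Set.univ_inter]
  rw [h0] at h1
  have h2 := (lintegral_eq_zero_iff (hqm.mul hqm)).1 h1.symm
  rw [hKS, lintegral_eq_zero_iff hqm]
  filter_upwards [h2] with p hp
  simpa using hp

/-- the integral against functions of finitely many coordinates -/
theorem zero_aux (f : Cfg d → ℝ) (hf : Measurable f) (C : ℝ) (hC : ∀ V, |f V| ≤ C)
    (hinv : ∀ y : Site d, ∀ᵐ p ∂((PP d μ).prod μ), f (Function.update p.1 y p.2) = f p.1)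
    (h0 : ∫ V, f V ∂(PP d μ) = 0) (Λ : Finset (Site d)) :
    ∀ (h : Cfg d → ℝ), Measurable h → (∃ K, ∀ V, |h V| ≤ K) →
      (∀ V W : Cfg d, (∀ x ∈ Λ, V x = W x) → h V = h W) →
      ∫ V, f V * h V ∂(PP d μ) = 0 := by
  classical
  induction Λ using Finset.induction_on with
  | empty =>
    intro h _ _ hdep
    have : ∀ V, h V = h 0 := fun V => hdep V 0 (by simp)
    simp only [this]
    rw [integral_mul_const, h0, zero_mul]
  | insert y Λ hy ih =>
    intro h hm ⟨K, hK⟩ hdep
    have hmp := mpres (d := d) μ y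
    have hfh : Measurable fun V => f V * h V := hf.mul hm
    have hb : ∀ V W : Cfg d, |f V * h W| ≤ C * K := by
      intro V W
      rw [abs_mul]
      exact mul_le_mul (hC V) (hK W) (abs_nonneg _) ((abs_nonneg _).trans (hC V))
    have e1 : ∫ V, f V * h V ∂(PP d μ) = ∫ p, f (Function.update p.1 y p.2) *
        h (Function.update p.1 y p.2) ∂((PP d μ).prod μ) := by
      have := integral_map (μ := (PP d μ).prod μ) hmp.measurable.aemeasurable
        (f := fun V => f V * h V) hfh.aestronglyMeasurable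
      rwa [hmp.map_eq] at this
    have e2 : ∫ p, f (Function.update p.1 y p.2) * h (Function.update p.1 y p.2)
        ∂((PP d μ).prod μ) = ∫ p, f p.1 * h (Function.update p.1 y p.2) ∂((PP d μ).prod μ) := by
      refine integral_congr_ae ?_
      filter_upwards [hinv y] with p hp
      rw [hp]
    have hint : Integrable (fun p : Cfg d × ℝ => f p.1 * h (Function.update p.1 y p.2))
        ((PP d μ).prod μ) := by
      refine Integrable.of_bound (C := C * K) ?_ (Eventually.of_forall fun p => hb _ _)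
      exact ((hf.comp measurable_fst).mul (hm.comp hmp.measurable)).aestronglyMeasurable
    have e3 : ∫ p, f p.1 * h (Function.update p.1 y p.2) ∂((PP d μ).prod μ) =
        ∫ V, f V * (∫ v, h (Function.update V y v) ∂μ) ∂(PP d μ) := by
      rw [integral_prod _ hint]
      refine integral_congr_ae (Eventually.of_forall fun V => ?_)
      exact integral_const_mul (f V) (fun v => h (Function.update V y v))
    rw [e1, e2, e3]
    refine ih (fun V => ∫ v, h (Function.update V y v) ∂μ) ?_ ⟨K, ?_⟩ ?_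
    · exact ((hm.comp hmp.measurable).stronglyMeasurable.integral_prod_right').measurable
    · intro V
      have := norm_integral_le_of_norm_le_const (μ := μ) (f := fun v => h (Function.update V y v))
        (C := K) (Eventually.of_forall fun v => hK _)
      simpa using this
    · intro V W hVW
      refine integral_congr_ae (Eventually.of_forall fun v => ?_)
      refine hdep _ _ fun x hx => ?_
      by_cases hxy : x = y
      · subst hxy
        simp
      · rw [Function.update_of_ne hxy, Function.update_of_ne hxy]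
        exact hVW x ((Finset.mem_insert.1 hx).resolve_left hxy)

/-- Module ZERO. -/
theorem zero : ZeroStatement := by
  intro d μ _ f hf C hC hinv
  set c := ∫ W, f W ∂(PP d μ) with hc
  have hfint : Integrable f (PP d μ) :=
    Integrable.of_bound (C := C) hf.aestronglyMeasurable (Eventually.of_forall hC)
  set g : Cfg d → ℝ := fun V => f V - c with hg
  have hgm : Measurable g := hf.sub_const c
  have hgb : ∀ V, |g V| ≤ C + |c| := fun V => (abs_sub _ _).trans (by
    have := hC V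
    gcongr)
  have hgint : Integrable g (PP d μ) := hfint.sub (integrable_const c)
  have hg0 : ∫ V, g V ∂(PP d μ) = 0 := by
    simp only [hg]
    rw [integral_sub hfint (integrable_const c)]
    simp [hc]
  have hginv : ∀ y : Site d, ∀ᵐ p ∂((PP d μ).prod μ), g (Function.update p.1 y p.2) = g p.1 := by
    intro y
    filter_upwards [hinv y] with p hp
    simp only [hg, hp]
  have key : ∀ S : Set (Cfg d), MeasurableSet S → ∫ V in S, g V ∂(PP d μ) = 0 := by
    intro S hS
    induction S, hS using MeasurableSpace.induction_on_inter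
      (generateFrom_measurableCylinders (α := fun _ : Site d => ℝ)).symm
      isPiSystem_measurableCylinders with
    | empty => simp
    | basic t ht =>
      obtain ⟨Λ, B, hB, rfl⟩ := (mem_measurableCylinders _).1 ht
      have hcyl : MeasurableSet (cylinder (α := fun _ : Site d => ℝ) Λ B) := hB.cylinder Λ
      rw [← integral_indicator hcyl]
      have := zero_aux μ g hgm (C + |c|) hgb hginv hg0 Λ ((cylinder Λ B).indicator fun _ => 1)
        (measurable_const.indicator hcyl) ⟨1, fun V => ?_⟩ ?_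
      · rw [← this]
        refine integral_congr_ae (Eventually.of_forall fun V => ?_)
        by_cases hV : V ∈ cylinder Λ B <;> simp [hV]
      · by_cases hV : V ∈ cylinder Λ B <;> simp [hV]
      · intro V W hVW
        have : V ∈ cylinder Λ B ↔ W ∈ cylinder Λ B := by
          rw [mem_cylinder, mem_cylinder]
          have e : Λ.restrict V = Λ.restrict W := by
            funext x
            exact hVW x x.2
          rw [e]
        by_cases hV : V ∈ cylinder Λ B
        · rw [Set.indicator_of_mem hV, Set.indicator_of_mem (this.1 hV)]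
        · rw [Set.indicator_of_notMem hV, Set.indicator_of_notMem (fun h => hV (this.2 h))]
    | compl t ht ih =>
      rw [setIntegral_compl ht hgint, ih, hg0, sub_zero]
    | iUnion F hd hF ih =>
      rw [integral_iUnion hF hd hgint.integrableOn]
      simp [ih]
  have hgz := hgint.ae_eq_zero_of_forall_setIntegral_eq_zero (fun S hS _ => key S hS)
  filter_upwards [hgz] with V hV
  have : f V - c = 0 := hV
  linarith

end Pool.Agent.QE
end -- Pool.Agent.Helper68_QE.Resample

section -- Pool.Agent.Helper68_QE.Seq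

/-!
# Module SEQ: a common sequence
-/

set_option autoImplicit false

open MeasureTheory Filter Topology
open scoped ENNReal

namespace Pool.Agent.QE

theorem seq : SeqStatement := by
  intro α _ κ ι _ q hq
  obtain ⟨f, hf⟩ := exists_injective_nat ι
  have hchoice : ∀ k : ℕ, ∃ ε : ℝ, 0 < ε ∧ ε < 1 / ((k : ℝ) + 1) ∧
      ∀ i, f i ≤ k → κ {ω | 1 / ((k : ℝ) + 1) ≤ |q i ε ω|} ≤ (1 / 2 : ℝ≥0∞) ^ k := by
    intro k
    have hpos : (0 : ℝ) < 1 / ((k : ℝ) + 1) := by positivity
    have hfin : {i | f i ≤ k}.Finite := (Set.finite_le_nat k).preimage hf.injOn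
    have h1 : ∀ᶠ ε in 𝓝[>] (0 : ℝ), ∀ i ∈ {i | f i ≤ k},
        κ {ω | 1 / ((k : ℝ) + 1) ≤ |q i ε ω|} ≤ (1 / 2 : ℝ≥0∞) ^ k := by
      rw [Filter.eventually_all_finite hfin]
      intro i _
      have hp : (0 : ℝ≥0∞) < (1 / 2 : ℝ≥0∞) ^ k := by
        apply ENNReal.pow_pos
        simp
      exact ((hq i _ hpos).eventually (gt_mem_nhds hp)).mono fun ε h => le_of_lt h
    have h2 : ∀ᶠ ε in 𝓝[>] (0 : ℝ), ε < 1 / ((k : ℝ) + 1) :=
      nhdsWithin_le_nhds (gt_mem_nhds hpos)
    obtain ⟨ε, ⟨ha, hb⟩, hc⟩ := ((h1.and h2).and self_mem_nhdsWithin).exists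
    exact ⟨ε, hc, hb, fun i hi => ha i hi⟩
  choose e he0 he1 he2 using hchoice
  refine ⟨e, he0, ?_, ?_⟩
  · exact squeeze_zero (fun k => (he0 k).le) (fun k => (he1 k).le)
      tendsto_one_div_add_atTop_nhds_zero_nat
  · intro i
    have hsum : ∑' k : ℕ, κ {ω | f i ≤ k ∧ 1 / ((k : ℝ) + 1) ≤ |q i (e k) ω|} ≠ ∞ := by
      refine ne_top_of_le_ne_top (b := ∑' k : ℕ, (1 / 2 : ℝ≥0∞) ^ k) ?_
        (ENNReal.tsum_le_tsum fun k => ?_)
      · rw [ENNReal.tsum_geometric]
        simp
      · by_cases h : f i ≤ k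
        · refine (measure_mono ?_).trans (he2 k i h)
          intro ω hω
          exact hω.2
        · have : {ω | f i ≤ k ∧ 1 / ((k : ℝ) + 1) ≤ |q i (e k) ω|} = ∅ := by
            ext ω
            simp [h]
          rw [this, measure_empty]
          exact bot_le
    filter_upwards [ae_eventually_notMem hsum] with ω hω
    rw [Metric.tendsto_atTop']
    intro δ hδ
    rw [eventually_atTop] at hω
    obtain ⟨N, hN⟩ := hω
    obtain ⟨M, hM⟩ := exists_nat_one_div_lt hδ
    refine ⟨max N (max M (f i)), fun k hk => ?_⟩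
    have hk1 : N ≤ k := (le_max_left _ _).trans hk.le
    have hk2 : M ≤ k := ((le_max_left _ _).trans (le_max_right _ _)).trans hk.le
    have hk3 : f i ≤ k := ((le_max_right _ _).trans (le_max_right _ _)).trans hk.le
    have h1 := hN k hk1
    simp only [not_and, not_le] at h1
    have h2 := h1 hk3
    rw [dist_zero_right, Real.norm_eq_abs]
    refine h2.trans_le (le_trans ?_ hM.le)
    have : (M : ℝ) ≤ k := by exact_mod_cast hk2
    apply one_div_le_one_div_of_le
    · positivity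
    · linarith

end Pool.Agent.QE
end -- Pool.Agent.Helper68_QE.Seq

section -- Pool.Agent.Helper94_QE.Cauchy

/-!
# Module CAUCHY: `L²` convergence of the bounded transforms as `ε → 0`
-/

set_option autoImplicit false
set_option linter.unusedSectionVars false

open scoped InnerProductSpace ComplexConjugate Topology ENNReal
open MeasureTheory Filter

noncomputable section

namespace Pool.Agent.QE.Cau

open Pool.Agent.Anderson Pool.Agent.Helper54.Bal

/-! ### shift of the contour in a strip -/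

theorem strip_shift {R : ℂ → ℂ} {c : ℝ}
    (hd : ∀ z : ℂ, z.im ∈ Set.uIcc 0 c → DifferentiableAt ℂ R z)
    (hb : ∀ z : ℂ, z.im ∈ Set.uIcc 0 c → ‖R z‖ ≤ (1 + z.re ^ 2)⁻¹) :
    ∫ E : ℝ, R (zz 0 E) = ∫ E : ℝ, R (zz c E) := by
  have h0m : (0:ℝ) ∈ Set.uIcc 0 c := Set.left_mem_uIcc
  have hcm : c ∈ Set.uIcc 0 c := Set.right_mem_uIcc
  have hcont : ∀ y : ℝ, y ∈ Set.uIcc 0 c → Continuous fun E : ℝ => R (zz y E) := by
    intro y hy
    rw [continuous_iff_continuousAt]
    intro E
    exact ContinuousAt.comp (f := zz y) (g := R)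
      (hd (zz y E) (by simpa using hy)).continuousAt (continuous_zz y).continuousAt
  have hbd : ∀ y : ℝ, y ∈ Set.uIcc 0 c → ∀ E : ℝ, ‖R (zz y E)‖ ≤ (1 + E ^ 2)⁻¹ := by
    intro y hy E
    have := hb (zz y E) (by simpa using hy)
    simpa using this
  have hint : ∀ y : ℝ, y ∈ Set.uIcc 0 c → Integrable fun E : ℝ => R (zz y E) := by
    intro y hy
    exact integrable_inv_one_add_sq.mono' (hcont y hy).aestronglyMeasurable
      (Eventually.of_forall (hbd y hy))
  have hrect : ∀ T : ℝ,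
      (∫ E in (-T)..T, R (zz 0 E)) - (∫ E in (-T)..T, R (zz c E)) =
        Complex.I • (∫ y in (0:ℝ)..c, R (zz y (-T))) -
          Complex.I • (∫ y in (0:ℝ)..c, R (zz y T)) := by
    intro T
    have h := Complex.integral_boundary_rect_eq_zero_of_differentiableOn R
      (zz 0 (-T)) (zz c T) (by
        intro z hz
        refine (hd z ?_).differentiableWithinAt
        have := hz.2
        simpa only [zz_im, Set.mem_preimage] using this)
    simp only [zz_im, zz_re] at h
    have e1 : ∀ y : ℝ, (fun x : ℝ => R ((x : ℂ) + (y : ℂ) * Complex.I)) = fun x => R (zz y x) :=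
      fun y => rfl
    have e2 : ∀ x : ℝ, (fun y : ℝ => R ((x : ℂ) + (y : ℂ) * Complex.I)) = fun y => R (zz y x) :=
      fun x => rfl
    simp only [e1, e2] at h
    have h' := sub_eq_zero.1 h
    rw [← h']
    abel
  have hL : Tendsto (fun T : ℝ => (∫ E in (-T)..T, R (zz 0 E)) -
      (∫ E in (-T)..T, R (zz c E))) atTop
      (𝓝 ((∫ E : ℝ, R (zz 0 E)) - ∫ E : ℝ, R (zz c E))) :=
    (intervalIntegral_tendsto_integral (hint 0 h0m) tendsto_neg_atTop_atBot tendsto_id).sub
      (intervalIntegral_tendsto_integral (hint c hcm) tendsto_neg_atTop_atBot tendsto_id)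
  have hside : ∀ T : ℝ, ∀ s : ℝ, s ^ 2 = T ^ 2 →
      ‖∫ y in (0:ℝ)..c, R (zz y s)‖ ≤ (1 + T ^ 2)⁻¹ * |c - 0| := by
    intro T s hs
    refine intervalIntegral.norm_integral_le_of_norm_le_const ?_
    intro y hy
    have := hbd y (Set.uIoc_subset_uIcc hy) s
    rwa [hs] at this
  have hR : Tendsto (fun T : ℝ => Complex.I • (∫ y in (0:ℝ)..c, R (zz y (-T))) -
      Complex.I • (∫ y in (0:ℝ)..c, R (zz y T))) atTop (𝓝 0) := by
    have h0 : Tendsto (fun T : ℝ => (1 + T ^ 2)⁻¹ * |c - 0| + (1 + T ^ 2)⁻¹ * |c - 0|) atTop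
        (𝓝 0) := by
      have h1 : Tendsto (fun T : ℝ => (1 + T ^ 2)⁻¹) atTop (𝓝 0) :=
        (tendsto_atTop_add_const_left _ _ (tendsto_pow_atTop two_ne_zero)).inv_tendsto_atTop
      have h2 := (h1.mul_const |c - 0|).add (h1.mul_const |c - 0|)
      simpa using h2
    refine squeeze_zero_norm' ?_ h0
    refine Eventually.of_forall fun T => ?_
    refine (norm_sub_le _ _).trans ?_
    rw [norm_smul, norm_smul, Complex.norm_I, one_mul, one_mul]
    exact add_le_add (hside T _ (by ring)) (hside T _ rfl)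
  have := tendsto_nhds_unique (hL.congr hrect) hR
  exact sub_eq_zero.1 this

/-- the midpoint identity for functions bounded by `1 / |z + i|` on the upper half plane -/
theorem midpoint {g : ℂ → ℂ} (hd : ∀ z : ℂ, 0 < z.im → DifferentiableAt ℂ g z)
    (hb : ∀ z : ℂ, 0 < z.im → ‖g z‖ ≤ ‖z + Complex.I‖⁻¹) {a b : ℝ} (ha : 0 < a) (hb' : 0 < b) :
    ∫ E : ℝ, conj (g (zz a E)) * g (zz b E) =
      ∫ E : ℝ, conj (g (zz ((a + b) / 2) E)) * g (zz ((a + b) / 2) E) := by
  set R : ℂ → ℂ := fun z => conj (g (conj z + (a : ℂ) * Complex.I)) *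
    g (z + (b : ℂ) * Complex.I) with hR
  have hstrip : ∀ z : ℂ, z.im ∈ Set.uIcc 0 ((a - b) / 2) → 0 < a - z.im ∧ 0 < b + z.im := by
    intro z hz
    rcases le_total 0 ((a - b) / 2) with h | h
    · rw [Set.uIcc_of_le h] at hz
      constructor
      · have := hz.2; linarith only [ha, hb', this]
      · have := hz.1; linarith only [hb', this]
    · rw [Set.uIcc_of_ge h] at hz
      constructor
      · have := hz.2; linarith
      · have := hz.1; linarith
  have hRd : ∀ z : ℂ, z.im ∈ Set.uIcc 0 ((a - b) / 2) → DifferentiableAt ℂ R z := by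
    intro z hz
    obtain ⟨h1, h2⟩ := hstrip z hz
    refine DifferentiableAt.mul ?_ ?_
    · have h3 : DifferentiableAt ℂ (fun u : ℂ => g (u + (a : ℂ) * Complex.I)) (conj z) := by
        refine DifferentiableAt.comp (g := g) (conj z) (hd _ ?_)
          (differentiableAt_id.add_const _)
        simp
        linarith
      have h4 := h3.conj_conj
      rw [Complex.conj_conj] at h4
      exact h4
    · refine DifferentiableAt.comp (g := g) z (hd _ ?_) (differentiableAt_id.add_const _)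
      simp
      linarith
  have hnorm : ∀ x y : ℝ, 0 < y → ‖g (zz y x)‖ ≤ Real.sqrt ((1 + x ^ 2)⁻¹) := by
    intro x y hy
    refine (hb _ (by simpa using hy)).trans ?_
    rw [Real.sqrt_inv]
    refine inv_anti₀ (Real.sqrt_pos.2 (by positivity)) ?_
    have e : zz y x + Complex.I = zz (y + 1) x := by unfold zz; push_cast; ring
    rw [e]
    refine Real.sqrt_le_iff.2 ⟨norm_nonneg _, ?_⟩
    rw [normSq_zz]
    nlinarith only [hy]
  have hzz : ∀ z : ℂ, ∀ t : ℝ, z + (t : ℂ) * Complex.I = zz (z.im + t) z.re := by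
    intro z t
    apply Complex.ext <;> simp
  have hRb : ∀ z : ℂ, z.im ∈ Set.uIcc 0 ((a - b) / 2) → ‖R z‖ ≤ (1 + z.re ^ 2)⁻¹ := by
    intro z hz
    obtain ⟨h1, h2⟩ := hstrip z hz
    rw [hR]
    simp only
    rw [norm_mul, RCLike.norm_conj, hzz, hzz]
    simp only [Complex.conj_im, Complex.conj_re]
    have e1 := hnorm z.re (-z.im + a) (by linarith)
    have e2 := hnorm z.re (z.im + b) (by linarith)
    calc _ ≤ Real.sqrt ((1 + z.re ^ 2)⁻¹) * Real.sqrt ((1 + z.re ^ 2)⁻¹) := by gcongr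
      _ = _ := Real.mul_self_sqrt (by positivity)
  have key := strip_shift hRd hRb
  have e1 : ∀ E : ℝ, R (zz 0 E) = conj (g (zz a E)) * g (zz b E) := by
    intro E
    rw [hR]
    simp only
    rw [hzz, hzz]
    simp
  have e2 : ∀ E : ℝ, R (zz ((a - b) / 2) E) =
      conj (g (zz ((a + b) / 2) E)) * g (zz ((a + b) / 2) E) := by
    intro E
    rw [hR]
    simp only
    rw [hzz, hzz]
    simp only [Complex.conj_im, Complex.conj_re, zz_im, zz_re]
    have h1 : -((a - b) / 2) + a = (a + b) / 2 := by ring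
    have h2 : (a - b) / 2 + b = (a + b) / 2 := by ring
    rw [h1, h2]
  rw [integral_congr_ae (Eventually.of_forall e1), integral_congr_ae (Eventually.of_forall e2)]
    at key
  exact key

/-! ### midpoint convexity and the Cauchy property -/

theorem antitone_of_midpoint {N : ℝ → ℝ} {M : ℝ} (hM : ∀ a, 0 < a → N a ≤ M)
    (hmid : ∀ a b, 0 < a → 0 < b → 2 * N ((a + b) / 2) ≤ N a + N b) :
    ∀ a b, 0 < a → a ≤ b → N b ≤ N a := by
  intro a b ha hab
  by_contra hcon
  push Not at hcon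
  have hlt : a < b := by
    rcases hab.eq_or_lt with h | h
    · rw [h] at hcon; exact absurd hcon (lt_irrefl _)
    · exact h
  set h := b - a with hh
  have hh0 : 0 < h := by rw [hh]; linarith
  set δ := N b - N a with hδ
  have hδ0 : 0 < δ := by rw [hδ]; linarith
  have hstep : ∀ k : ℕ, δ ≤ N (a + (k + 1) * h) - N (a + k * h) := by
    intro k
    induction k with
    | zero =>
      have e : a + ((0:ℕ) + 1) * h = b := by rw [hh]; push_cast; ring
      have e' : a + ((0:ℕ):ℝ) * h = a := by push_cast; ring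
      rw [e, e']
    | succ k ih =>
      have h1 : 0 < a + k * h := by positivity
      have h2 : 0 < a + (k + 2) * h := by positivity
      have h3 := hmid _ _ h1 h2
      have e : (a + k * h + (a + (k + 2) * h)) / 2 = a + (k + 1) * h := by ring
      rw [e] at h3
      push_cast
      have e2 : a + ((k:ℝ) + 1 + 1) * h = a + (k + 2) * h := by ring
      rw [e2]
      linarith only [ih, h3]
  have hgrow : ∀ k : ℕ, N a + k * δ ≤ N (a + k * h) := by
    intro k
    induction k with
    | zero => simp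
    | succ k ih =>
      have := hstep k
      push_cast
      linarith only [ih, this]
  obtain ⟨k, hk⟩ := exists_nat_gt ((M - N a) / δ)
  rw [div_lt_iff₀ hδ0] at hk
  have h1 := hgrow k
  have h2 := hM (a + k * h) (by positivity)
  linarith

variable {H : Type*} [NormedAddCommGroup H] [InnerProductSpace ℂ H] [CompleteSpace H]

theorem exists_limit {u : ℝ → H} {M : ℝ} (hM : ∀ a, 0 < a → ‖u a‖ ^ 2 ≤ M)
    (hmid : ∀ a b, 0 < a → 0 < b → ⟪u a, u b⟫_ℂ = ⟪u ((a + b) / 2), u ((a + b) / 2)⟫_ℂ) :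
    ∃ x : H, Tendsto u (𝓝[>] 0) (𝓝 x) := by
  set N : ℝ → ℝ := fun a => ‖u a‖ ^ 2 with hN
  have hsub : ∀ a b, 0 < a → 0 < b → ‖u a - u b‖ ^ 2 = N a + N b - 2 * N ((a + b) / 2) := by
    intro a b ha hb
    rw [@norm_sub_sq ℂ, hmid a b ha hb, inner_self_eq_norm_sq_to_K]
    rw [hN]
    simp only
    have : (RCLike.re ((‖u ((a + b) / 2)‖ : ℂ) ^ 2) : ℝ) = ‖u ((a + b) / 2)‖ ^ 2 := by
      rw [← Complex.ofReal_pow]
      exact Complex.ofReal_re _
    have h2 : (RCLike.re (((‖u ((a + b) / 2)‖ : ℝ) : ℂ) ^ 2) : ℝ) = ‖u ((a + b) / 2)‖ ^ 2 := this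
    simp only [Complex.coe_algebraMap]
    rw [h2]
    ring
  have hmid' : ∀ a b, 0 < a → 0 < b → 2 * N ((a + b) / 2) ≤ N a + N b := by
    intro a b ha hb
    have h1 := hsub a b ha hb
    have h2 : 0 ≤ ‖u a - u b‖ ^ 2 := by positivity
    linarith only [h1, h2]
  have hanti := antitone_of_midpoint (N := N) hM hmid'
  -- the supremum
  set L : ℝ := sSup (N '' Set.Ioi 0) with hL
  have hbdd : BddAbove (N '' Set.Ioi 0) := ⟨M, by rintro _ ⟨a, ha, rfl⟩; exact hM a ha⟩
  have hne : (N '' Set.Ioi 0).Nonempty := ⟨N 1, ⟨1, by simp, rfl⟩⟩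
  have hle : ∀ a, 0 < a → N a ≤ L := fun a ha => le_csSup hbdd ⟨a, ha, rfl⟩
  have hnear : ∀ ε, 0 < ε → ∃ r, 0 < r ∧ ∀ a, 0 < a → a < r → L - ε < N a := by
    intro ε hε
    obtain ⟨_, ⟨r, hr, rfl⟩, hr'⟩ := exists_lt_of_lt_csSup hne (show L - ε < L by linarith)
    refine ⟨r, hr, fun a ha har => ?_⟩
    exact lt_of_lt_of_le hr' (hanti a r ha har.le)
  have hC : Cauchy (map u (𝓝[>] (0:ℝ))) := by
    rw [Metric.cauchy_iff]
    refine ⟨inferInstance, fun ε hε => ?_⟩
    obtain ⟨r, hr, hr'⟩ := hnear (ε ^ 2 / 4) (by positivity)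
    refine ⟨u '' (Set.Ioo 0 r), image_mem_map (Ioo_mem_nhdsGT hr), ?_⟩
    rintro _ ⟨a, ha, rfl⟩ _ ⟨b, hb, rfl⟩
    rw [dist_eq_norm]
    have h1 := hsub a b ha.1 hb.1
    have h2 := hle a ha.1
    have h3 := hle b hb.1
    have h4 := hr' ((a + b) / 2) (by have := ha.1; have := hb.1; linarith)
      (by have := ha.2; have := hb.2; linarith)
    have h5 : ‖u a - u b‖ ^ 2 < ε ^ 2 := by nlinarith only [h1, h2, h3, h4]
    exact lt_of_pow_lt_pow_left₀ 2 hε.le h5
  obtain ⟨x, hx⟩ := CompleteSpace.complete hC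
  exact ⟨x, hx⟩

/-! ### the transforms -/

variable {d : ℕ}

/-- `⟪w, G(z) w⟫` as a function of `z` -/
def FF (V : Cfg d) (w : L2 d) (z : ℂ) : ℂ := ⟪w, G V z w⟫_ℂ

/-- the bounded transform as a function of `z` -/
def GG (V : Cfg d) (w : L2 d) (z : ℂ) : ℂ := FF V w z / (FF V w z + Complex.I) / (z + Complex.I)

theorem FF_im (V : Cfg d) (w : L2 d) {z : ℂ} (hz : 0 < z.im) : 0 ≤ (FF V w z).im := by
  unfold FF
  rw [(isRes_G V).im_inner hz.ne']
  positivity

theorem FF_ne (V : Cfg d) (w : L2 d) {z : ℂ} (hz : 0 < z.im) : FF V w z + Complex.I ≠ 0 := by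
  intro h
  have h1 := congrArg Complex.im h
  have h2 := FF_im V w hz
  simp at h1
  linarith

theorem zI_ne {z : ℂ} (hz : 0 < z.im) : z + Complex.I ≠ 0 := by
  intro h
  have h1 := congrArg Complex.im h
  simp at h1
  linarith

theorem GG_diff (V : Cfg d) (w : L2 d) (z : ℂ) (hz : 0 < z.im) :
    DifferentiableAt ℂ (GG V w) z := by
  have hF : DifferentiableAt ℂ (FF V w) z :=
    ((isRes_G V).hasDerivAt_inner hz.ne' w w).differentiableAt
  exact (hF.div (hF.add_const _) (FF_ne V w hz)).div (differentiableAt_id.add_const _) (zI_ne hz)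

theorem GG_norm (V : Cfg d) (w : L2 d) (z : ℂ) (hz : 0 < z.im) :
    ‖GG V w z‖ ≤ ‖z + Complex.I‖⁻¹ := by
  unfold GG
  rw [norm_div, div_eq_mul_inv]
  have h1 : ‖FF V w z / (FF V w z + Complex.I)‖ ≤ 1 := by
    rw [norm_div]
    have h2 : 0 < ‖FF V w z + Complex.I‖ := norm_pos_iff.2 (FF_ne V w hz)
    rw [div_le_one h2]
    have h3 : ‖FF V w z‖ ^ 2 ≤ ‖FF V w z + Complex.I‖ ^ 2 := by
      rw [← Complex.normSq_eq_norm_sq, ← Complex.normSq_eq_norm_sq, Complex.normSq_apply,
        Complex.normSq_apply]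
      have := FF_im V w hz
      simp
      nlinarith only [this]
    exact (pow_le_pow_iff_left₀ (norm_nonneg _) (norm_nonneg _) two_ne_zero).1 h3
  calc _ ≤ 1 * ‖z + Complex.I‖⁻¹ := by gcongr
    _ = _ := one_mul _

variable {μ : Measure ℝ} [IsProbabilityMeasure μ]

/-- the product measure with Lebesgue measure on energies -/
abbrev QQ (d : ℕ) (μ : Measure ℝ) [IsProbabilityMeasure μ] : Measure (Cfg d × ℝ) :=
  (PP d μ).prod volume

theorem lam_le : lam ≤ volume := by
  unfold lam
  refine (withDensity_mono (g := fun _ => 1) (Eventually.of_forall fun E => ?_)).trans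
    (le_of_eq (withDensity_one))
  rw [show (1:ℝ≥0∞) = ENNReal.ofReal 1 by simp]
  refine ENNReal.ofReal_le_ofReal (inv_le_one_of_one_le₀ ?_)
  nlinarith only [sq_nonneg E]

theorem KK_le : KK d μ ≤ QQ d μ := Measure.prod_mono le_rfl lam_le

theorem gw_meas {w : Cfg d → L2 d} (hw : StronglyMeasurable w) {ε : ℝ} (hε : ε ≠ 0) :
    StronglyMeasurable (gw w ε) := by
  have h1 : StronglyMeasurable fun p : Cfg d × ℝ => G p.1 (zz ε p.2) (w p.1) := by
    have h2 := continuous_G (d := d) hε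
    refine h2.comp_stronglyMeasurable (f := fun p : Cfg d × ℝ => (p.1, p.2, w p.1)) ?_
    refine measurable_fst.stronglyMeasurable.prodMk (measurable_snd.stronglyMeasurable.prodMk ?_)
    exact hw.comp_measurable measurable_fst
  have h3 : Measurable (Fw w ε) :=
    ((hw.comp_measurable measurable_fst).inner h1).measurable
  have h4 : Measurable fun p : Cfg d × ℝ => zz ε p.2 :=
    (continuous_zz ε).measurable.comp measurable_snd
  exact ((h3.div (h3.add_const _)).div (h4.add_const _)).stronglyMeasurable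

theorem gw_eq (w : Cfg d → L2 d) (ε : ℝ) (p : Cfg d × ℝ) :
    gw w ε p = GG p.1 (w p.1) (zz ε p.2) := rfl

theorem norm_zz_inv_le {ε : ℝ} (hε : 0 < ε) (E : ℝ) :
    ‖zz ε E + Complex.I‖⁻¹ ^ 2 ≤ (1 + E ^ 2)⁻¹ := by
  have e : zz ε E + Complex.I = zz (ε + 1) E := by unfold zz; push_cast; ring
  rw [e, inv_pow, normSq_zz]
  refine inv_anti₀ (by positivity) ?_
  nlinarith only [hε]

theorem gw_sq_le (w : Cfg d → L2 d) {ε : ℝ} (hε : 0 < ε) (p : Cfg d × ℝ) :
    ‖gw w ε p‖ ^ 2 ≤ (1 + p.2 ^ 2)⁻¹ := by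
  rw [gw_eq]
  have h1 := GG_norm p.1 (w p.1) (zz ε p.2) (by simpa using hε)
  calc ‖GG p.1 (w p.1) (zz ε p.2)‖ ^ 2 ≤ (‖zz ε p.2 + Complex.I‖⁻¹) ^ 2 := by gcongr
    _ ≤ _ := norm_zz_inv_le hε p.2

theorem integrable_bd : Integrable (fun p : Cfg d × ℝ => (1 + p.2 ^ 2)⁻¹) (QQ d μ) :=
  integrable_inv_one_add_sq.comp_snd _

theorem gw_memLp {w : Cfg d → L2 d} (hw : StronglyMeasurable w) {ε : ℝ} (hε : 0 < ε) :
    MemLp (gw w ε) 2 (QQ d μ) := by
  refine (memLp_two_iff_integrable_sq_norm (gw_meas hw hε.ne').aestronglyMeasurable).2 ?_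
  refine integrable_bd.mono' ?_ (Eventually.of_forall fun p => ?_)
  · exact ((gw_meas hw hε.ne').norm.pow 2).aestronglyMeasurable
  · rw [Real.norm_of_nonneg (by positivity)]
    exact gw_sq_le w hε p

/-- the transforms as elements of `L²` -/
def uu (μ : Measure ℝ) [IsProbabilityMeasure μ] {w : Cfg d → L2 d} (hw : StronglyMeasurable w)
    (ε : ℝ) : Lp ℂ 2 (QQ d μ) :=
  if hε : 0 < ε then (gw_memLp hw hε).toLp (gw w ε) else 0

theorem integrable_mul {w : Cfg d → L2 d} (hw : StronglyMeasurable w) {a b : ℝ} (ha : 0 < a)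
    (hb : 0 < b) : Integrable (fun p : Cfg d × ℝ => conj (gw w a p) * gw w b p) (QQ d μ) := by
  refine integrable_bd.mono' ?_ (Eventually.of_forall fun p => ?_)
  · exact ((Complex.continuous_conj.comp_stronglyMeasurable (gw_meas hw ha.ne')).mul
      (gw_meas hw hb.ne')).aestronglyMeasurable
  · rw [norm_mul, RCLike.norm_conj]
    have h1 := gw_sq_le w ha p
    have h2 := gw_sq_le w hb p
    nlinarith only [sq_nonneg (‖gw w a p‖ - ‖gw w b p‖), h1, h2]

theorem uu_inner {w : Cfg d → L2 d} (hw : StronglyMeasurable w) {a b : ℝ} (ha : 0 < a)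
    (hb : 0 < b) : ⟪uu μ hw a, uu μ hw b⟫_ℂ = ∫ V, ∫ E, conj (gw w a (V, E)) * gw w b (V, E)
      ∂(volume : Measure ℝ) ∂(PP d μ) := by
  rw [← integral_prod (fun p : Cfg d × ℝ => conj (gw w a p) * gw w b p)
    (integrable_mul hw ha hb), L2.inner_def]
  unfold uu
  rw [dif_pos ha, dif_pos hb]
  refine integral_congr_ae ?_
  filter_upwards [(gw_memLp (μ := μ) hw ha).coeFn_toLp, (gw_memLp (μ := μ) hw hb).coeFn_toLp]
    with p h1 h2
  rw [h1, h2, RCLike.inner_apply, mul_comm]

theorem uu_mid {w : Cfg d → L2 d} (hw : StronglyMeasurable w) {a b : ℝ} (ha : 0 < a)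
    (hb : 0 < b) : ⟪uu μ hw a, uu μ hw b⟫_ℂ =
      ⟪uu μ hw ((a + b) / 2), uu μ hw ((a + b) / 2)⟫_ℂ := by
  have hab : 0 < (a + b) / 2 := by linarith only [ha, hb]
  rw [uu_inner hw ha hb, uu_inner hw hab hab]
  refine integral_congr_ae (Eventually.of_forall fun V => ?_)
  exact midpoint (g := GG V (w V)) (GG_diff V (w V)) (GG_norm V (w V)) ha hb

theorem uu_bdd {w : Cfg d → L2 d} (hw : StronglyMeasurable w) {a : ℝ} (ha : 0 < a) :
    ‖uu μ hw a‖ ^ 2 ≤ ∫ p : Cfg d × ℝ, (1 + p.2 ^ 2)⁻¹ ∂(QQ d μ) := by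
  have h1 : ‖uu μ hw a‖ ^ 2 = ∫ p : Cfg d × ℝ, ‖gw w a p‖ ^ 2 ∂(QQ d μ) := by
    have h2 : (‖uu μ hw a‖ ^ 2 : ℝ) = RCLike.re ⟪uu μ hw a, uu μ hw a⟫_ℂ := by
      rw [inner_self_eq_norm_sq]
    rw [h2, L2.inner_def]
    have h3 : ∫ p, ⟪(uu μ hw a : Cfg d × ℝ → ℂ) p, (uu μ hw a : Cfg d × ℝ → ℂ) p⟫_ℂ ∂(QQ d μ) =
        ∫ p : Cfg d × ℝ, ((‖gw w a p‖ ^ 2 : ℝ) : ℂ) ∂(QQ d μ) := by
      refine integral_congr_ae ?_
      unfold uu
      rw [dif_pos ha]
      filter_upwards [(gw_memLp (μ := μ) hw ha).coeFn_toLp] with p h4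
      rw [h4, inner_self_eq_norm_sq_to_K]
      push_cast
      rfl
    rw [h3]
    have h5 : ∫ p : Cfg d × ℝ, ((‖gw w a p‖ ^ 2 : ℝ) : ℂ) ∂(QQ d μ) =
        ((∫ p : Cfg d × ℝ, ‖gw w a p‖ ^ 2 ∂(QQ d μ) : ℝ) : ℂ) := integral_ofReal
    rw [h5]
    exact Complex.ofReal_re _
  rw [h1]
  refine integral_mono_of_nonneg (Eventually.of_forall fun p => by positivity) integrable_bd
    (Eventually.of_forall fun p => gw_sq_le w ha p)

end Pool.Agent.QE.Cau

namespace Pool.Agent.QE

open Cau Pool.Agent.Anderson Pool.Agent.Helper54.Bal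

theorem cauchy : CauchyStatement := by
  intro d μ _ w hw C _
  obtain ⟨x, hx⟩ := exists_limit (u := uu μ hw) (fun a ha => uu_bdd hw ha)
    (fun a b ha hb => uu_mid hw ha hb)
  have hm : StronglyMeasurable (x : Cfg d × ℝ → ℂ) := Lp.stronglyMeasurable x
  refine ⟨x, hm.measurable, fun δ hδ => ?_⟩
  have h1 := tendstoInMeasure_of_tendsto_Lp hx
  have h2 := h1 (ENNReal.ofReal δ) (ENNReal.ofReal_pos.2 hδ)
  refine tendsto_of_tendsto_of_tendsto_of_le_of_le' tendsto_const_nhds h2
    (Eventually.of_forall fun _ => bot_le) ?_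
  filter_upwards [self_mem_nhdsWithin] with ε hε
  have hε' : 0 < ε := hε
  have h3 : (uu μ hw ε : Cfg d × ℝ → ℂ) =ᵐ[QQ d μ] gw w ε := by
    unfold uu
    rw [dif_pos hε']
    exact (gw_memLp (μ := μ) hw hε').coeFn_toLp
  refine (KK_le _).trans ?_
  refine measure_mono_ae ?_
  filter_upwards [h3] with p h4 h5
  change ENNReal.ofReal δ ≤ edist _ _
  rw [h4, edist_dist, dist_eq_norm]
  exact ENNReal.ofReal_le_ofReal h5

end Pool.Agent.QE
end
end -- Pool.Agent.Helper94_QE.Cauchy

section -- Pool.Agent.Helper94_QE.Graph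

/-!
# Module GRAPH: connectivity of the Green function
-/

set_option autoImplicit false
set_option linter.unusedSectionVars false

open scoped ComplexConjugate

noncomputable section

namespace Pool.Agent.QE

open Pool.Agent.Anderson

/-- a nonempty set of sites closed under passing to neighbours is everything -/
theorem eq_univ_of_closed {d : ℕ} {B : Set (Site d)} (hB : B.Nonempty)
    (hp : ∀ x ∈ B, ∀ i : Fin d, x + Pi.single i 1 ∈ B)
    (hm : ∀ x ∈ B, ∀ i : Fin d, x - Pi.single i 1 ∈ B) : B = Set.univ := by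
  obtain ⟨y, hy⟩ := hB
  have h1 : ∀ (i : Fin d) (n : ℤ) (x : Site d), x ∈ B → x + Pi.single i n ∈ B := by
    intro i n
    induction n using Int.induction_on with
    | zero => intro x hx; simpa using hx
    | succ n ih =>
      intro x hx
      have h2 := hp _ (ih x hx) i
      rwa [add_assoc, ← Pi.single_add] at h2
    | pred n ih =>
      intro x hx
      have h2 := hm _ (ih x hx) i
      rwa [add_sub_assoc, ← Pi.single_sub] at h2
  have h2 : ∀ (x : Site d) (s : Finset (Fin d)), y + ∑ i ∈ s, Pi.single i (x i) ∈ B := by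
    intro x s
    classical
    induction s using Finset.induction_on with
    | empty => simpa using hy
    | insert i s hi ih =>
      rw [Finset.sum_insert hi]
      have h3 := h1 i (x i) _ ih
      have e : y + (Pi.single i (x i) + ∑ i ∈ s, Pi.single i (x i)) =
          y + ∑ i ∈ s, Pi.single i (x i) + Pi.single i (x i) := by abel
      rw [e]
      exact h3
  ext x
  simp only [Set.mem_univ, iff_true]
  have h3 := h2 (x - y) Finset.univ
  rw [Finset.univ_sum_single] at h3
  simpa using h3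

theorem graph : GraphStatement := by
  intro d V E g hsym hg B hB hBg
  classical
  set b : Site d → ℂ := fun w => if w ∈ B then 1 else 0 with hb
  have key : ∀ x ∉ B, ∀ z ∈ B, (∑ i : Fin d, ((if x + Pi.single i 1 = z then (1:ℕ) else 0) +
      (if x - Pi.single i 1 = z then (1:ℕ) else 0))) = 0 := by
    intro x hx z hz
    have hS : ∀ y : Site d, ∑ i : Fin d, (b (x + Pi.single i 1) * g (x + Pi.single i 1) y +
        b (x - Pi.single i 1) * g (x - Pi.single i 1) y) = 0 := by
      intro y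
      by_cases hy : y ∈ B
      · have h1 := hg x y
        have hxy : x ≠ y := fun h => hx (h ▸ hy)
        rw [if_neg hxy, hsym x y, hBg y hy x hx, mul_zero, add_zero] at h1
        rw [← h1]
        unfold lap
        refine Finset.sum_congr rfl fun i _ => ?_
        have h2 : ∀ w : Site d, b w * g w y = g w y := by
          intro w
          by_cases hw : w ∈ B
          · simp [hb, hw]
          · rw [hsym w y, hBg y hy w hw, mul_zero]
        rw [h2, h2]
      · refine Finset.sum_eq_zero fun i _ => ?_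
        have h2 : ∀ w : Site d, b w * g w y = 0 := by
          intro w
          by_cases hw : w ∈ B
          · rw [hBg w hw y hy, mul_zero]
          · simp [hb, hw]
        rw [h2, h2, add_zero]
    -- apply the equation in the second variable at `z`
    have h3 : ∀ w : Site d, lap (fun y => g w y) z + ((V z : ℂ) - E) * g w z =
        if w = z then 1 else 0 := by
      intro w
      have h4 := hg z w
      have e : (fun y => g w y) = fun y => g y w := by
        funext y; exact hsym w y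
      rw [e, hsym w z, h4]
      by_cases h : w = z
      · rw [if_pos h, if_pos h.symm]
      · rw [if_neg h, if_neg (Ne.symm h)]
    have h4 : ∑ i : Fin d, (b (x + Pi.single i 1) * (lap (fun y => g (x + Pi.single i 1) y) z +
        ((V z : ℂ) - E) * g (x + Pi.single i 1) z) +
        b (x - Pi.single i 1) * (lap (fun y => g (x - Pi.single i 1) y) z +
        ((V z : ℂ) - E) * g (x - Pi.single i 1) z)) = 0 := by
      have e : ∀ i : Fin d, (b (x + Pi.single i 1) * (lap (fun y => g (x + Pi.single i 1) y) z +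
          ((V z : ℂ) - E) * g (x + Pi.single i 1) z) +
          b (x - Pi.single i 1) * (lap (fun y => g (x - Pi.single i 1) y) z +
          ((V z : ℂ) - E) * g (x - Pi.single i 1) z)) =
          (∑ j : Fin d, ((b (x + Pi.single i 1) * g (x + Pi.single i 1) (z + Pi.single j 1) +
            b (x - Pi.single i 1) * g (x - Pi.single i 1) (z + Pi.single j 1)) +
            (b (x + Pi.single i 1) * g (x + Pi.single i 1) (z - Pi.single j 1) +
            b (x - Pi.single i 1) * g (x - Pi.single i 1) (z - Pi.single j 1)))) +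
          ((V z : ℂ) - E) * (b (x + Pi.single i 1) * g (x + Pi.single i 1) z +
            b (x - Pi.single i 1) * g (x - Pi.single i 1) z) := by
        intro i
        unfold lap
        have e2 : ∀ j : Fin d, ((b (x + Pi.single i 1) * g (x + Pi.single i 1)
            (z + Pi.single j 1) +
            b (x - Pi.single i 1) * g (x - Pi.single i 1) (z + Pi.single j 1)) +
            (b (x + Pi.single i 1) * g (x + Pi.single i 1) (z - Pi.single j 1) +
            b (x - Pi.single i 1) * g (x - Pi.single i 1) (z - Pi.single j 1))) =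
            b (x + Pi.single i 1) * (g (x + Pi.single i 1) (z + Pi.single j 1) +
              g (x + Pi.single i 1) (z - Pi.single j 1)) +
            b (x - Pi.single i 1) * (g (x - Pi.single i 1) (z + Pi.single j 1) +
              g (x - Pi.single i 1) (z - Pi.single j 1)) := fun j => by ring
        have e3 : ∑ j : Fin d, (b (x + Pi.single i 1) * (g (x + Pi.single i 1)
            (z + Pi.single j 1) + g (x + Pi.single i 1) (z - Pi.single j 1)) +
            b (x - Pi.single i 1) * (g (x - Pi.single i 1) (z + Pi.single j 1) +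
              g (x - Pi.single i 1) (z - Pi.single j 1))) =
            b (x + Pi.single i 1) * (∑ j : Fin d, (g (x + Pi.single i 1)
              (z + Pi.single j 1) + g (x + Pi.single i 1) (z - Pi.single j 1))) +
            b (x - Pi.single i 1) * (∑ j : Fin d, (g (x - Pi.single i 1) (z + Pi.single j 1) +
              g (x - Pi.single i 1) (z - Pi.single j 1))) := by
          rw [Finset.sum_add_distrib, Finset.mul_sum, Finset.mul_sum]
        rw [Finset.sum_congr rfl fun j _ => e2 j, e3]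
        ring
      rw [Finset.sum_congr rfl fun i _ => e i, Finset.sum_add_distrib, ← Finset.mul_sum, hS z,
        mul_zero, add_zero, Finset.sum_comm]
      refine Finset.sum_eq_zero fun j _ => ?_
      rw [Finset.sum_add_distrib, hS, hS, add_zero]
    have h5 : ∑ i : Fin d, ((if x + Pi.single i 1 = z then (1:ℂ) else 0) +
      (if x - Pi.single i 1 = z then (1:ℂ) else 0)) = 0 := by
      refine Eq.trans (Finset.sum_congr rfl fun i _ => ?_) h4
      rw [h3, h3]
      have e : ∀ w : Site d, b w * (if w = z then (1:ℂ) else 0) = if w = z then (1:ℂ) else 0 := by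
        intro w
        by_cases h : w = z
        · rw [if_pos h, mul_one, h, hb]
          simp [hz]
        · rw [if_neg h, mul_zero]
      rw [e, e]
    exact_mod_cast h5
  refine eq_univ_of_closed hB ?_ ?_
  · intro z hz i
    by_contra hx
    have h := key _ hx z hz
    have h2 := Finset.sum_eq_zero_iff.1 h i (Finset.mem_univ i)
    rw [add_sub_cancel_right, if_pos rfl] at h2
    omega
  · intro z hz i
    by_contra hx
    have h := key _ hx z hz
    have h2 := Finset.sum_eq_zero_iff.1 h i (Finset.mem_univ i)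
    rw [sub_add_cancel, if_pos rfl] at h2
    omega

end Pool.Agent.QE
end
end -- Pool.Agent.Helper94_QE.Graph

section -- Pool.Agent.Helper97_ACE.Seq

/-!
# Boundary values of the Green function along a subsequence of a given sequence
-/

set_option autoImplicit false
set_option linter.unusedSectionVars false

open scoped InnerProductSpace ComplexConjugate Topology ENNReal
open MeasureTheory Filter

noncomputable section

namespace Pool.Agent.ACE

open Pool.Agent.Anderson Pool.Agent.Helper54.Bal Pool.Agent.QE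

variable {d : ℕ}

/-- the trivial observable -/
def A1 (d : ℕ) : Unit → Cfg d → Op d := fun _ _ => 1

theorem obs_A1 (i : Unit) : Obs (A1 d i) where
  meas f := stronglyMeasurable_const
  cov a V f := rfl
  bdd := ⟨1, fun V => ContinuousLinearMap.norm_id_le⟩
  sa V f g := rfl
  comm V z hz f := rfl

/-- the test vectors -/
def wv (r : Site d × Site d × Fin 4) : Cfg d → L2 d :=
  fun _ => del r.2.1 + cc r.2.2 • del r.1

theorem tendsto_floor_inv : Tendsto (fun ε : ℝ => ⌊ε⁻¹⌋₊) (𝓝[>] 0) atTop :=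
  tendsto_nat_floor_atTop.comp tendsto_inv_nhdsGT_zero

theorem exists_sub (μ : Measure ℝ) [IsProbabilityMeasure μ] {η : ℕ → ℝ} (hη : ∀ n, 0 < η n)
    (hη0 : Tendsto η atTop (𝓝 0)) :
    ∃ φ : ℕ → ℕ, Tendsto φ atTop atTop ∧ ∀ r : Site d × Site d × Fin 4,
      ∃ F₀ : Cfg d × ℝ → ℂ, Measurable F₀ ∧
        ∀ᵐ p ∂(KK d μ), Tendsto (fun k => Fw (wv r) (η (φ k)) p) atTop (𝓝 (F₀ p)) := by
  have hg : ∀ r : Site d × Site d × Fin 4,
      ∃ g₀ : Cfg d × ℝ → ℂ, Measurable g₀ ∧ ∀ δ : ℝ, 0 < δ →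
      Tendsto (fun ε => (KK d μ) {p | δ ≤ ‖gw (wv r) ε p - g₀ p‖}) (𝓝[>] 0) (𝓝 0) := by
    intro r
    exact cauchy d μ (wv r) stronglyMeasurable_const ‖(del r.2.1 + cc r.2.2 • del r.1 : L2 d)‖
      fun V => le_rfl
  choose g₀ hg₀m hg₀ using hg
  have hη' : Tendsto η atTop (𝓝[>] 0) :=
    tendsto_nhdsWithin_iff.2 ⟨hη0, Eventually.of_forall hη⟩
  set N : ℝ → ℕ := fun ε => ⌊ε⁻¹⌋₊ with hN
  have hNt : Tendsto (fun ε => η (N ε)) (𝓝[>] 0) (𝓝[>] 0) := hη'.comp tendsto_floor_inv
  obtain ⟨e, he, he0, hlim⟩ := seq (Cfg d × ℝ) (KK d μ) (Site d × Site d × Fin 4)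
    (fun r ε p => ‖gw (wv r) (η (N ε)) p - g₀ r p‖) (fun r δ hδ => by
      simp only [abs_norm]
      exact (hg₀ r δ hδ).comp hNt)
  have he' : Tendsto e atTop (𝓝[>] 0) :=
    tendsto_nhdsWithin_iff.2 ⟨he0, Eventually.of_forall he⟩
  have hφ : Tendsto (fun k => N (e k)) atTop atTop := tendsto_floor_inv.comp he'
  refine ⟨fun k => N (e k), hφ, fun r => ?_⟩
  refine bv_limit tight (w := wv r) stronglyMeasurable_const
    (C := ‖(del r.2.1 + cc r.2.2 • del r.1 : L2 d)‖) (fun V => le_rfl)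
    (e := fun k => η (N (e k))) (fun k => hη _) (hη0.comp hφ) (hg₀m r) ?_
  filter_upwards [hlim r] with p hp
  rw [tendsto_iff_norm_sub_tendsto_zero]
  exact hp

/-- the boundary values of the Green function, with the trivial observable -/
theorem exists_dat1 (μ : Measure ℝ) [IsProbabilityMeasure μ] {η : ℕ → ℝ} (hη : ∀ n, 0 < η n)
    (hη0 : Tendsto η atTop (𝓝 0)) :
    ∃ (φ : ℕ → ℕ) (gg : Site d → Site d → Cfg d × ℝ → ℂ), Tendsto φ atTop atTop ∧
      Dat (A1 d) μ (fun k => η (φ k)) gg (fun _ x => gg x x) := by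
  obtain ⟨φ, hφ, hF⟩ := exists_sub (d := d) μ hη hη0
  choose F₀ hF₀m hF₀ using hF
  have hall := ae_all_iff.2 hF₀
  have hmg : ∀ x y : Site d, Measurable fun p : Cfg d × ℝ =>
      (1 / 4 : ℂ) * ∑ k : Fin 4, cc k * F₀ (x, y, k) p := fun x y =>
    (Finset.measurable_sum _ fun k _ => (hF₀m _).const_mul _).const_mul _
  have hgl : ∀ᵐ p ∂(KK d μ), GLim p.1 p.2 (fun k => η (φ k))
      (fun x y => (1 / 4 : ℂ) * ∑ k : Fin 4, cc k * F₀ (x, y, k) p) := by
    filter_upwards [hall] with p hp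
    intro x y
    have h1 : Tendsto (fun n => (1 / 4 : ℂ) * ∑ k : Fin 4,
        cc k * Fw (wv (x, y, k)) (η (φ n)) p) atTop
        (𝓝 ((1 / 4) * ∑ k : Fin 4, cc k * F₀ (x, y, k) p)) :=
      (tendsto_finsetSum _ fun k _ => (hp (x, y, k)).const_mul _).const_mul _
    refine h1.congr fun n => ?_
    have h2 := polar' (G p.1 (zz (η (φ n)) p.2)) (del x) (del y)
    rw [inner_del_left] at h2
    rw [h2]
    rfl
  refine ⟨φ, fun x y p => (1 / 4) * ∑ k : Fin 4, cc k * F₀ (x, y, k) p, hφ, ?_⟩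
  refine ⟨fun k => hη _, hη0.comp hφ, hmg, fun _ x => hmg x x, hgl, ?_, ?_⟩
  · filter_upwards [hgl] with p hp
    intro i x
    exact hp x x
  · refine Eventually.of_forall fun ω i x₀ x => ?_
    have h0 : ∀ ε : ℝ, dq (A1 d i) x₀ x ε ω = 0 := by
      intro ε
      simp [dq, A1]
    simp only [h0]
    exact ⟨tendsto_const_nhds, tendsto_const_nhds⟩

end Pool.Agent.ACE
end
end -- Pool.Agent.Helper97_ACE.Seq

section -- Pool.Agent.Helper97_ACE.Pos

/-!
# Positivity of the boundary values (zero-one law)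
-/

set_option autoImplicit false
set_option linter.unusedSectionVars false

open scoped InnerProductSpace ComplexConjugate Topology ENNReal
open MeasureTheory Filter

noncomputable section

namespace Pool.Agent.ACE

open Pool.Agent.Anderson Pool.Agent.Helper54.Bal Pool.Agent.QE

variable {d : ℕ}

theorem le_measure_of_frequently {Ω : Type*} [MeasurableSpace Ω] {P : Measure Ω}
    [IsProbabilityMeasure P] {S : ℕ → Set Ω} (hS : ∀ k, MeasurableSet (S k)) {T : Set Ω}
    {p : ℝ≥0∞} (hp : ∀ᶠ k in atTop, p ≤ P (S k))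
    (hT : ∀ᵐ ω ∂P, (∃ᶠ k in atTop, ω ∈ S k) → ω ∈ T) : p ≤ P T := by
  set U : ℕ → Set Ω := fun n => ⋃ k, ⋃ (_ : n ≤ k), S k with hU
  have hUm : ∀ n, MeasurableSet (U n) := fun n =>
    MeasurableSet.iUnion fun k => MeasurableSet.iUnion fun _ => hS k
  have hUa : Antitone U := by
    intro n m hnm ω hω
    simp only [hU, Set.mem_iUnion] at hω ⊢
    obtain ⟨k, hk, h⟩ := hω
    exact ⟨k, hnm.trans hk, h⟩
  have h1 : Tendsto (fun n => P (U n)) atTop (𝓝 (P (⋂ n, U n))) :=
    tendsto_measure_iInter_atTop (fun n => (hUm n).nullMeasurableSet) hUa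
      ⟨0, measure_ne_top _ _⟩
  have h2 : p ≤ P (⋂ n, U n) := by
    refine ge_of_tendsto h1 ?_
    filter_upwards [hp] with n hn
    refine hn.trans (measure_mono fun ω hω => ?_)
    simp only [hU, Set.mem_iUnion]
    exact ⟨n, le_rfl, hω⟩
  refine h2.trans (measure_mono_ae ?_)
  filter_upwards [hT] with ω hω
  intro h
  apply hω
  rw [frequently_atTop]
  intro n
  have h3 := Set.mem_iInter.1 h n
  simp only [hU, Set.mem_iUnion] at h3
  obtain ⟨k, hk, h⟩ := h3
  exact ⟨k, hk, h⟩

theorem swap_ae {μ : Measure ℝ} [IsProbabilityMeasure μ] {Q : Cfg d × ℝ → Prop}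
    (h : ∀ᵐ p ∂(KK d μ), Q p) : ∀ᵐ E ∂lam, ∀ᵐ V ∂(PP d μ), Q (V, E) := by
  have h1 : ∀ᵐ q ∂(lam.prod (PP d μ)), Q q.swap :=
    (Measure.measurePreserving_swap (μ := lam) (ν := PP d μ)).quasiMeasurePreserving.ae h
  exact Measure.ae_ae_of_ae_prod h1

theorem ff_eq (gg : Site d → Site d → Cfg d × ℝ → ℂ) (p : Cfg d × ℝ) :
    ff 1 gg (fun (_ : Unit) x => gg x x) () p = if 0 < (gg 0 0 p).im then 1 else 0 := by
  unfold ff av
  split_ifs with h
  · rw [div_self h.ne']
    norm_num
  · rfl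

/-- the boundary value has positive imaginary part almost surely -/
theorem pos_ae {μ : Measure ℝ} [IsProbabilityMeasure μ] (hna : ∀ a : ℝ, μ {a} = 0)
    {e : ℕ → ℝ} {gg : Site d → Site d → Cfg d × ℝ → ℂ}
    (D : Dat (A1 d) μ e gg (fun _ x => gg x x)) {a b : ℝ}
    (h : ∀ᵐ E ∂((volume : Measure ℝ).restrict (Set.Ioo a b)), ∃ (c : ℝ) (p : ℝ≥0∞), 0 < c ∧
      p ≠ 0 ∧ ∀ᶠ k in atTop, p ≤ PP d μ {V | c ≤ (G V (zz (e k) E) (del 0) 0).im}) :
    ∀ᵐ p ∂(KK d μ), p.2 ∈ Set.Ioo a b → 0 < (gg 0 0 p).im := by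
  have hm : Measurable (ff 1 gg (fun (_ : Unit) x => gg x x) ()) := measurable_ff D 1 ()
  have hmc : Measurable fun E : ℝ =>
      ∫ W, ff 1 gg (fun (_ : Unit) x => gg x x) () (W, E) ∂(PP d μ) := by
    have h1 : StronglyMeasurable fun E : ℝ =>
        ∫ W, ff 1 gg (fun (_ : Unit) x => gg x x) () (W, E) ∂(PP d μ) :=
      StronglyMeasurable.integral_prod_left' (f := ff 1 gg (fun (_ : Unit) x => gg x x) ())
        hm.stronglyMeasurable
    exact h1.measurable
  have h1 : ∀ᵐ p ∂(KK d μ), ff 1 gg (fun (_ : Unit) x => gg x x) () p =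
      ∫ W, ff 1 gg (fun (_ : Unit) x => gg x x) () (W, p.2) ∂(PP d μ) := by
    refine (Measure.ae_prod_iff_ae_ae ?_).2 ?_
    · exact measurableSet_eq_fun hm (hmc.comp measurable_snd)
    · filter_upwards [ff_const obs_A1 D mp null graph zero hna zero_le_one] with V hV
      filter_upwards [hV] with E hE
      exact hE ()
  have h2 : ∀ᵐ E ∂lam, E ∈ Set.Ioo a b →
      0 < ∫ W, ff 1 gg (fun (_ : Unit) x => gg x x) () (W, E) ∂(PP d μ) := by
    have h3 : ∀ᵐ E ∂lam, E ∈ Set.Ioo a b → ∃ (c : ℝ) (p : ℝ≥0∞), 0 < c ∧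
        p ≠ 0 ∧ ∀ᶠ k in atTop, p ≤ PP d μ {V | c ≤ (G V (zz (e k) E) (del 0) 0).im} :=
      (Measure.absolutelyContinuous_of_le lam_le).ae_le
        ((ae_restrict_iff' measurableSet_Ioo).1 h)
    filter_upwards [h3, swap_ae D.gl] with E h4 h5 hE
    obtain ⟨c, p, hc, hp, h6⟩ := h4 hE
    set T : Set (Cfg d) := {V | 0 < (gg 0 0 (V, E)).im} with hT
    have hTm : MeasurableSet T := measurableSet_lt measurable_const
      (Complex.measurable_im.comp ((D.mg 0 0).comp measurable_prodMk_right))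
    have h7 : p ≤ PP d μ T := by
      refine le_measure_of_frequently (S := fun k =>
        {V | c ≤ (G V (zz (e k) E) (del 0) 0).im}) (fun k => ?_) h6 ?_
      · refine measurableSet_le measurable_const ?_
        exact Complex.measurable_im.comp (measurable_coord (sm_G (D.pos k).ne' measurable_id
          measurable_const stronglyMeasurable_const) 0)
      · filter_upwards [h5] with V hV
        intro h8
        have h9 : Tendsto (fun k => (G V (zz (e k) E) (del 0) 0).im) atTop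
            (𝓝 (gg 0 0 (V, E)).im) := (Complex.continuous_im.tendsto _).comp (hV 0 0)
        change 0 < (gg 0 0 (V, E)).im
        refine hc.trans_le ?_
        by_contra h10
        rw [not_le] at h10
        have h11 := h9.eventually_lt_const h10
        obtain ⟨k, hk1, hk2⟩ := (h8.and_eventually h11).exists
        exact absurd hk1 (not_le.2 hk2)
    have h8 : ∀ W : Cfg d, ff 1 gg (fun (_ : Unit) x => gg x x) () (W, E) =
        T.indicator (fun _ => (1 : ℝ)) W := by
      intro W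
      rw [ff_eq]
      rfl
    simp only [h8]
    rw [integral_indicator_const _ hTm, smul_eq_mul, mul_one]
    exact ENNReal.toReal_pos (fun h0 => hp (le_antisymm (h0 ▸ h7) bot_le)) (measure_ne_top _ _)
  have h3 : ∀ᵐ p ∂(KK d μ), p.2 ∈ Set.Ioo a b →
      0 < ∫ W, ff 1 gg (fun (_ : Unit) x => gg x x) () (W, p.2) ∂(PP d μ) :=
    Measure.quasiMeasurePreserving_snd.ae h2
  filter_upwards [h1, h3] with p h4 h5 hp
  have h6 := h5 hp
  rw [← h4, ff_eq] at h6
  by_contra h7
  rw [if_neg h7] at h6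
  exact lt_irrefl _ h6

end Pool.Agent.ACE
end
end -- Pool.Agent.Helper97_ACE.Pos

section -- Pool.Agent.Helper97_ACE.Avg

/-!
# Convergence in `L¹` of the imaginary parts (spectral averaging)
-/

set_option autoImplicit false
set_option linter.unusedSectionVars false

open scoped InnerProductSpace ComplexConjugate Topology ENNReal
open MeasureTheory Filter

noncomputable section

namespace Pool.Agent.ACE

open Pool.Agent.Anderson Pool.Agent.Helper54.Bal Pool.Agent.QE

variable {d : ℕ}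

/-- the resampled Green function is bounded, uniformly in the new value of the potential -/
theorem norm_upd_le {V : Cfg d} {z : ℂ} (hz : 0 < z.im) (s : ℝ) :
    ‖G (Function.update V 0 s) z (del 0) 0‖ ≤
      ‖G V z (del 0) 0‖ ^ 2 / (G V z (del 0) 0).im := by
  have hpos := im_G_del_pos (V := V) hz 0
  have h1 := congrArg (fun f : L2 d => f 0) (G_upd_del (V := V) (x₀ := 0) (s := s) hz.ne')
  simp only [lp.coeFn_smul, Pi.smul_apply, smul_eq_mul] at h1
  set g : ℂ := G V z (del 0) 0 with hg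
  set g' : ℂ := G (Function.update V 0 s) z (del 0) 0 with hg'
  set t : ℝ := s - V 0 with ht
  have h2 : g = (1 + (t : ℂ) * g) * g' := by
    rw [ht]
    push_cast
    exact h1
  rw [le_div_iff₀ hpos]
  have h3 : g.im ≤ ‖g‖ * ‖1 + (t : ℂ) * g‖ := by
    have h4 : (conj g * (1 + (t : ℂ) * g)).im = -g.im := by
      simp [Complex.mul_im]
      ring
    have h5 := Complex.abs_im_le_norm (conj g * (1 + (t : ℂ) * g))
    rw [h4, norm_mul, RCLike.norm_conj, abs_neg, abs_of_pos hpos] at h5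
    exact h5
  have h6 : ‖g‖ = ‖1 + (t : ℂ) * g‖ * ‖g'‖ := by
    conv_lhs => rw [h2]
    rw [norm_mul]
  calc ‖g'‖ * g.im ≤ ‖g'‖ * (‖g‖ * ‖1 + (t : ℂ) * g‖) :=
        mul_le_mul_of_nonneg_left h3 (norm_nonneg _)
    _ = ‖g‖ * (‖1 + (t : ℂ) * g‖ * ‖g'‖) := by ring
    _ = ‖g‖ ^ 2 := by rw [← h6]; ring

/-- the strip of energies -/
def strip (d : ℕ) (a b : ℝ) : Set (Cfg d × ℝ) := {p | p.2 ∈ Set.Ioo a b}

theorem measurableSet_strip (a b : ℝ) : MeasurableSet (strip d a b) :=
  measurable_snd measurableSet_Ioo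

/-- the distance of the imaginary part to the boundary value -/
def Psi (e : ℕ → ℝ) (gg : Site d → Site d → Cfg d × ℝ → ℂ) (k : ℕ) (p : Cfg d × ℝ) : ℝ≥0∞ :=
  ‖(G p.1 (zz (e k) p.2) (del 0) 0).im - (gg 0 0 p).im‖ₑ

section dat

variable {μ : Measure ℝ} [IsProbabilityMeasure μ] {e : ℕ → ℝ}
  {gg : Site d → Site d → Cfg d × ℝ → ℂ} (D : Dat (A1 d) μ e gg (fun _ x => gg x x))

include D

theorem measurable_im (k : ℕ) :
    Measurable fun p : Cfg d × ℝ => (G p.1 (zz (e k) p.2) (del 0) 0).im :=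
  Complex.measurable_im.comp (measurable_coord (sm_G (D.pos k).ne' measurable_fst
    measurable_snd stronglyMeasurable_const) 0)

theorem measurable_Psi (k : ℕ) : Measurable (Psi e gg k) :=
  ((measurable_im D k).sub (Complex.measurable_im.comp (D.mg 0 0))).enorm

theorem avg_bound {C : ℝ} (hC : 0 ≤ C) (hSpa : ∀ (V : Cfg d) (E η : ℝ), 0 < η →
      ∫⁻ s, ENNReal.ofReal (G (Function.update V 0 s) (zz η E) (del 0) 0).im ∂μ ≤
        ENNReal.ofReal C) (a b : ℝ) (k : ℕ) :
    ∀ᵐ p ∂(KK d μ), ∫⁻ s, (strip d a b).indicator (Psi e gg k) (upd 0 (p, s)) ∂μ ≤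
      ENNReal.ofReal (2 * C) := by
  filter_upwards [Measure.ae_ae_of_ae_prod (ae_upd mp 0 D.gl)] with p hp
  have hlim : ∀ᵐ s ∂μ, Tendsto (fun k => (G (Function.update p.1 0 s) (zz (e k) p.2) (del 0) 0).im)
      atTop (𝓝 (gg 0 0 (upd 0 (p, s))).im) := by
    filter_upwards [hp] with s hs
    exact (Complex.continuous_im.tendsto _).comp (hs 0 0)
  have hmeas : ∀ k, Measurable fun s : ℝ =>
      (G (Function.update p.1 0 s) (zz (e k) p.2) (del 0) 0).im := by
    intro k
    have h1 : Measurable fun s : ℝ => upd (0 : Site d) (p, s) :=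
      (mp d μ 0).measurable.comp measurable_prodMk_left
    have h2 := (measurable_im D k).comp h1
    exact h2
  have h1 : ∫⁻ s, ENNReal.ofReal (gg 0 0 (upd 0 (p, s))).im ∂μ ≤ ENNReal.ofReal C := by
    have h2 : ∫⁻ s, ENNReal.ofReal (gg 0 0 (upd 0 (p, s))).im ∂μ =
        ∫⁻ s, liminf (fun k => ENNReal.ofReal
          (G (Function.update p.1 0 s) (zz (e k) p.2) (del 0) 0).im) atTop ∂μ := by
      refine lintegral_congr_ae ?_
      filter_upwards [hlim] with s hs
      exact (((ENNReal.continuous_ofReal.tendsto _).comp hs).liminf_eq).symm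
    rw [h2]
    refine (lintegral_liminf_le fun k => (hmeas k).ennreal_ofReal).trans ?_
    refine liminf_le_of_frequently_le' (Frequently.of_forall fun k => ?_)
    exact hSpa p.1 p.2 (e k) (D.pos k)
  have h2 : ∀ᵐ s ∂μ, (strip d a b).indicator (Psi e gg k) (upd 0 (p, s)) ≤
      ENNReal.ofReal (G (Function.update p.1 0 s) (zz (e k) p.2) (del 0) 0).im +
        ENNReal.ofReal (gg 0 0 (upd 0 (p, s))).im := by
    filter_upwards [hlim] with s hs
    refine (Set.indicator_le_self _ _ _).trans ?_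
    have h3 : ∀ k, 0 ≤ (G (Function.update p.1 0 s) (zz (e k) p.2) (del 0) 0).im := fun k =>
      (im_G_del_pos (zk_im D.pos k) 0).le
    have h4 : 0 ≤ (gg 0 0 (upd 0 (p, s))).im := ge_of_tendsto' hs h3
    have h5 : Psi e gg k (upd 0 (p, s)) =
        ENNReal.ofReal |(G (Function.update p.1 0 s) (zz (e k) p.2) (del 0) 0).im -
          (gg 0 0 (upd 0 (p, s))).im| := Real.enorm_eq_ofReal_abs _
    rw [h5, ← ENNReal.ofReal_add (h3 k) h4]
    refine ENNReal.ofReal_le_ofReal ?_
    rw [abs_le]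
    have := h3 k
    constructor <;> linarith
  calc ∫⁻ s, (strip d a b).indicator (Psi e gg k) (upd 0 (p, s)) ∂μ
      ≤ ∫⁻ s, (ENNReal.ofReal (G (Function.update p.1 0 s) (zz (e k) p.2) (del 0) 0).im +
        ENNReal.ofReal (gg 0 0 (upd 0 (p, s))).im) ∂μ := lintegral_mono_ae h2
    _ = ∫⁻ s, ENNReal.ofReal (G (Function.update p.1 0 s) (zz (e k) p.2) (del 0) 0).im ∂μ +
        ∫⁻ s, ENNReal.ofReal (gg 0 0 (upd 0 (p, s))).im ∂μ :=
        lintegral_add_left (hmeas k).ennreal_ofReal _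
    _ ≤ ENNReal.ofReal C + ENNReal.ofReal C := add_le_add (hSpa p.1 p.2 (e k) (D.pos k)) h1
    _ = ENNReal.ofReal (2 * C) := by rw [← ENNReal.ofReal_add hC hC]; ring_nf

theorem avg_lim {a b : ℝ} (hpos : ∀ᵐ p ∂(KK d μ), p.2 ∈ Set.Ioo a b → 0 < (gg 0 0 p).im) :
    ∀ᵐ p ∂(KK d μ), Tendsto (fun k => ∫⁻ s, (strip d a b).indicator (Psi e gg k)
      (upd 0 (p, s)) ∂μ) atTop (𝓝 0) := by
  filter_upwards [Measure.ae_ae_of_ae_prod (ae_upd mp 0 D.gl), D.gl, hpos] with p hp hgl hpp
  by_cases hE : p.2 ∈ Set.Ioo a b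
  swap
  · have h0 : ∀ k, ∀ s : ℝ, (strip d a b).indicator (Psi e gg k) (upd 0 (p, s)) = 0 := by
      intro k s
      have h1 : upd (0 : Site d) (p, s) ∉ strip d a b := fun h => hE h
      exact Set.indicator_of_notMem h1 _
    simp only [h0, lintegral_zero]
    exact tendsto_const_nhds
  have hpp' := hpp hE
  have hlim : ∀ᵐ s ∂μ, Tendsto (fun k => (G (Function.update p.1 0 s) (zz (e k) p.2) (del 0) 0).im)
      atTop (𝓝 (gg 0 0 (upd 0 (p, s))).im) := by
    filter_upwards [hp] with s hs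
    exact (Complex.continuous_im.tendsto _).comp (hs 0 0)
  -- the uniform bound
  have h1 : Tendsto (fun k => ‖G p.1 (zz (e k) p.2) (del 0) 0‖ ^ 2 /
      (G p.1 (zz (e k) p.2) (del 0) 0).im) atTop (𝓝 (‖gg 0 0 p‖ ^ 2 / (gg 0 0 p).im)) :=
    ((hgl 0 0).norm.pow 2).div ((Complex.continuous_im.tendsto _).comp (hgl 0 0)) hpp'.ne'
  set M : ℝ := ‖gg 0 0 p‖ ^ 2 / (gg 0 0 p).im + 1 with hM
  have h2 : ∀ᶠ k in atTop, ‖G p.1 (zz (e k) p.2) (del 0) 0‖ ^ 2 /
      (G p.1 (zz (e k) p.2) (del 0) 0).im ≤ M :=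
    h1.eventually_le_const (by rw [hM]; linarith)
  have h3 : ∀ᶠ k in atTop, ∀ s : ℝ,
      (G (Function.update p.1 0 s) (zz (e k) p.2) (del 0) 0).im ≤ M := by
    filter_upwards [h2] with k hk
    intro s
    refine ((le_abs_self _).trans (Complex.abs_im_le_norm _)).trans ?_
    exact (norm_upd_le (zk_im D.pos k) s).trans hk
  have hbase : Tendsto (fun k => ∫⁻ s, (strip d a b).indicator (Psi e gg k)
      (upd 0 (p, s)) ∂μ) atTop (𝓝 (∫⁻ _ : ℝ, (0 : ℝ≥0∞) ∂μ)) := by
    refine tendsto_lintegral_filter_of_dominated_convergence (fun _ => ENNReal.ofReal M)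
      (Eventually.of_forall fun k => ?_) ?_ ?_ ?_
    · have h4 : Measurable fun s : ℝ => upd (0 : Site d) (p, s) :=
        (mp d μ 0).measurable.comp measurable_prodMk_left
      have h5 := ((measurable_Psi D k).indicator (measurableSet_strip a b)).comp h4
      exact h5
    · filter_upwards [h3] with k hk
      filter_upwards [hlim] with s hs
      refine (Set.indicator_le_self _ _ _).trans ?_
      have h5 : ∀ k, 0 ≤ (G (Function.update p.1 0 s) (zz (e k) p.2) (del 0) 0).im := fun k =>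
        (im_G_del_pos (zk_im D.pos k) 0).le
      have h6 : 0 ≤ (gg 0 0 (upd 0 (p, s))).im := ge_of_tendsto' hs h5
      have h7 : (gg 0 0 (upd 0 (p, s))).im ≤ M := le_of_tendsto hs (h3.mono fun k hk => hk s)
      have h8 : Psi e gg k (upd 0 (p, s)) =
          ENNReal.ofReal |(G (Function.update p.1 0 s) (zz (e k) p.2) (del 0) 0).im -
            (gg 0 0 (upd 0 (p, s))).im| := Real.enorm_eq_ofReal_abs _
      rw [h8]
      refine ENNReal.ofReal_le_ofReal ?_
      rw [abs_le]
      have := h5 k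
      have := hk s
      constructor <;> linarith
    · rw [lintegral_const]
      exact ENNReal.mul_ne_top ENNReal.ofReal_ne_top (measure_ne_top _ _)
    · filter_upwards [hlim] with s hs
      have h5 : Tendsto (fun k => Psi e gg k (upd 0 (p, s))) atTop (𝓝 0) := by
        have h6 := (hs.sub_const (gg 0 0 (upd 0 (p, s))).im).enorm
        rw [sub_self, enorm_zero] at h6
        exact h6
      refine tendsto_of_tendsto_of_tendsto_of_le_of_le tendsto_const_nhds h5
        (fun _ => bot_le) (fun k => Set.indicator_le_self _ _ _)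
  rw [lintegral_zero] at hbase
  exact hbase

/-- convergence in `L¹` -/
theorem avg {C : ℝ} (hC : 0 ≤ C) (hSpa : ∀ (V : Cfg d) (E η : ℝ), 0 < η →
      ∫⁻ s, ENNReal.ofReal (G (Function.update V 0 s) (zz η E) (del 0) 0).im ∂μ ≤
        ENNReal.ofReal C) {a b : ℝ}
    (hpos : ∀ᵐ p ∂(KK d μ), p.2 ∈ Set.Ioo a b → 0 < (gg 0 0 p).im) :
    Tendsto (fun k => ∫⁻ p in strip d a b, Psi e gg k p ∂(KK d μ)) atTop (𝓝 0) := by
  have hH : ∀ k, Measurable ((strip d a b).indicator (Psi e gg k)) := fun k =>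
    (measurable_Psi D k).indicator (measurableSet_strip a b)
  have h1 : ∀ k, ∫⁻ p in strip d a b, Psi e gg k p ∂(KK d μ) =
      ∫⁻ p, (∫⁻ s, (strip d a b).indicator (Psi e gg k) (upd 0 (p, s)) ∂μ) ∂(KK d μ) := by
    intro k
    rw [← lintegral_indicator (measurableSet_strip a b), ← (mp d μ 0).lintegral_comp (hH k)]
    exact lintegral_prod _ ((hH k).comp (mp d μ 0).measurable).aemeasurable
  simp only [h1]
  have h2 : Tendsto (fun k => ∫⁻ p, (∫⁻ s, (strip d a b).indicator (Psi e gg k)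
      (upd 0 (p, s)) ∂μ) ∂(KK d μ)) atTop (𝓝 (∫⁻ _, (0 : ℝ≥0∞) ∂(KK d μ))) := by
    refine tendsto_lintegral_of_dominated_convergence (fun _ => ENNReal.ofReal (2 * C))
      (fun k => ?_) (fun k => avg_bound D hC hSpa a b k) ?_ (avg_lim D hpos)
    · have h3 := ((hH k).comp (mp d μ 0).measurable)
      exact h3.lintegral_prod_right'
    · rw [lintegral_const]
      exact ENNReal.mul_ne_top ENNReal.ofReal_ne_top (measure_ne_top _ _)
  rw [lintegral_zero] at h2
  exact h2

end dat

end Pool.Agent.ACE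
end
end -- Pool.Agent.Helper97_ACE.Avg

section -- Pool.Agent.Helper54_QE.Alg

/-!
# Algebra of covariant families and the Cayley transform
-/

set_option autoImplicit false
set_option linter.unusedSectionVars false

open scoped InnerProductSpace ComplexConjugate Topology ENNReal
open MeasureTheory Filter

noncomputable section

namespace Pool.Agent.QE

open Pool.Agent.Anderson Pool.Agent.Helper54.Bal

variable {d : ℕ}

/-! ### closure of covariant families -/

theorem shift_add' (a : Site d) (f g : L2 d) : shift a (f + g) = shift a f + shift a g :=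
  map_add _ _ _

theorem Cov.add {A B : Cfg d → Op d} (hA : Cov A) (hB : Cov B) : Cov fun V => A V + B V where
  meas f := (hA.meas f).add (hB.meas f)
  cov a V f := by
    simp only [_root_.add_apply]
    rw [hA.cov, hB.cov, map_add]
  bdd := by
    obtain ⟨C, hC⟩ := hA.bdd
    obtain ⟨D, hD⟩ := hB.bdd
    exact ⟨C + D, fun V => (norm_add_le _ _).trans (add_le_add (hC V) (hD V))⟩

theorem Cov.smul {A : Cfg d → Op d} (hA : Cov A) (c : ℂ) : Cov fun V => c • A V where
  meas f := (hA.meas f).const_smul c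
  cov a V f := by
    simp only [_root_.smul_apply]
    rw [hA.cov, map_smul]
  bdd := by
    obtain ⟨C, hC⟩ := hA.bdd
    refine ⟨‖c‖ * C, fun V => ?_⟩
    rw [norm_smul]
    exact mul_le_mul_of_nonneg_left (hC V) (norm_nonneg _)

theorem Cov.neg {A : Cfg d → Op d} (hA : Cov A) : Cov fun V => -A V := by
  have := hA.smul (-1)
  simpa using this

theorem Cov.sub {A B : Cfg d → Op d} (hA : Cov A) (hB : Cov B) : Cov fun V => A V - B V := by
  have := hA.add hB.neg
  simpa [sub_eq_add_neg] using this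

theorem Cov.one : Cov fun _ : Cfg d => (1 : Op d) where
  meas _ := stronglyMeasurable_const
  cov _ _ _ := rfl
  bdd := ⟨‖(1 : Op d)‖, fun _ => le_rfl⟩

theorem Cov.zero : Cov fun _ : Cfg d => (0 : Op d) where
  meas _ := stronglyMeasurable_const
  cov a V f := by simp
  bdd := ⟨0, fun _ => by simp⟩

theorem Cov.mul {A B : Cfg d → Op d} (hA : Cov A) (hB : Cov B) : Cov fun V => A V * B V where
  meas f := sm_cov hA measurable_id (hB.meas f)
  cov a V f := by
    change A (tau a V) (B (tau a V) (shift a f)) = shift a (A V (B V f))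
    rw [hB.cov, hA.cov]
  bdd := by
    obtain ⟨C, hC⟩ := hA.bdd
    obtain ⟨D, hD⟩ := hB.bdd
    refine ⟨|C| * |D|, fun V => (norm_mul_le _ _).trans ?_⟩
    have h1 := (hC V).trans (le_abs_self C)
    have h2 := (hD V).trans (le_abs_self D)
    exact mul_le_mul h1 h2 (norm_nonneg _) (abs_nonneg _)

theorem Cov.pow {A : Cfg d → Op d} (hA : Cov A) (n : ℕ) : Cov fun V => (A V) ^ n := by
  induction n with
  | zero => simpa using (Cov.one (d := d))
  | succ n ih =>
    have := ih.mul hA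
    simpa [pow_succ] using this

theorem Cov.sum {ι : Type*} (s : Finset ι) {A : ι → Cfg d → Op d} (hA : ∀ i ∈ s, Cov (A i)) :
    Cov fun V => ∑ i ∈ s, A i V := by
  classical
  induction s using Finset.induction_on with
  | empty => simpa using (Cov.zero (d := d))
  | insert a s ha ih =>
    have h1 := (hA a (Finset.mem_insert_self a s)).add
      (ih fun i hi => hA i (Finset.mem_insert_of_mem hi))
    simpa [Finset.sum_insert ha] using h1

theorem shift_inner' (a : Site d) (f g : L2 d) : ⟪shift a f, shift a g⟫_ℂ = ⟪f, g⟫_ℂ :=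
  (shift a).inner_map_map f g

theorem shift_shift_neg (a : Site d) (v : L2 d) : shift a (shift (-a) v) = v := by
  ext x
  rw [shift_apply, shift_apply, add_neg_cancel_right]

theorem Cov.adj {A : Cfg d → Op d} (hA : Cov A) :
    Cov fun V => ContinuousLinearMap.adjoint (A V) where
  meas f := by
    refine Tr.sm_of_coord fun x => ?_
    simp only [Tr.adj_coord]
    exact ((hA.meas (del x)).inner stronglyMeasurable_const).measurable
  cov a V f := by
    refine ext_inner_left ℂ fun v => ?_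
    rw [ContinuousLinearMap.adjoint_inner_right]
    rw [← shift_shift_neg a v]
    rw [hA.cov, shift_inner', shift_inner', ContinuousLinearMap.adjoint_inner_right]
  bdd := by
    obtain ⟨C, hC⟩ := hA.bdd
    refine ⟨C, fun V => ?_⟩
    rw [ContinuousLinearMap.adjoint.norm_map]
    exact hC V

theorem Cov.res {z : ℂ} (hz : z.im ≠ 0) : Cov fun V : Cfg d => G V z where
  meas f := by
    have h1 : StronglyMeasurable fun V : Cfg d => G V (zz z.im ((fun _ => z.re) V)) f :=
      sm_G hz measurable_id measurable_const stronglyMeasurable_const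
    have e : zz z.im z.re = z := by
      apply Complex.ext <;> simp [zz]
    simp only [e] at h1
    exact h1
  cov a V f := Tr.G_cov hz a V f
  bdd := ⟨|z.im|⁻¹, fun V => (isRes_G V).opNorm_le hz⟩

theorem cov_rf (p : RF) : Cov fun V : Cfg d => p.op V := by
  unfold RF.op
  exact Cov.sum _ fun k _ => (Cov.res (p.hw k)).smul _

theorem I_im_ne : (Complex.I).im ≠ 0 := by simp

theorem negI_im_ne : (-Complex.I).im ≠ 0 := by simp

theorem cov_cay : Cov fun V : Cfg d => cay V :=
  Cov.one.sub ((Cov.res negI_im_ne).smul _)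

theorem cov_cayS : Cov fun V : Cfg d => cayS V :=
  Cov.one.add ((Cov.res I_im_ne).smul _)

theorem cov_avg {B : Cfg d → Op d} (hB : Cov B) (N : ℕ) : Cov fun V => avg V N (B V) := by
  unfold avg
  exact (Cov.sum _ fun n _ => ((cov_cayS.pow n).mul hB).mul (cov_cay.pow n)).smul _

/-! ### the Cayley transform -/

theorem cay_apply (V : Cfg d) (f : L2 d) :
    cay V f = f - (2 * Complex.I) • G V (-Complex.I) f := rfl

theorem cayS_apply (V : Cfg d) (f : L2 d) :
    cayS V f = f + (2 * Complex.I) • G V Complex.I f := rfl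

theorem cay_mul_cayS (V : Cfg d) : cay V * cayS V = 1 := by
  have h := (isRes_G V).ident _ _ I_im_ne negI_im_ne
  have hc := (isRes_G V).comm I_im_ne negI_im_ne
  unfold cay cayS
  have e2 : Complex.I - -Complex.I = 2 * Complex.I := by ring
  rw [e2] at h
  generalize G V (-Complex.I) = P at *
  generalize G V Complex.I = Q at *
  generalize 2 * Complex.I = a at *
  have e : (1 - a • P) * (1 + a • Q) = 1 + a • (Q - P) - (a * a) • (P * Q) := by
    simp only [sub_mul, mul_add, one_mul, mul_one, smul_sub, smul_mul_assoc, mul_smul_comm,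
      smul_smul]
    abel
  rw [e, h, hc, smul_smul]
  abel

theorem cayS_mul_cay (V : Cfg d) : cayS V * cay V = 1 := by
  have hc := (isRes_G V).comm I_im_ne negI_im_ne
  have h := cay_mul_cayS V
  rw [← h]
  unfold cay cayS
  generalize G V (-Complex.I) = P at *
  generalize G V Complex.I = Q at *
  generalize 2 * Complex.I = a at *
  simp only [sub_mul, mul_sub, mul_add, add_mul, one_mul, mul_one, smul_mul_assoc, mul_smul_comm,
    hc, smul_add, smul_sub]
  abel

theorem cay_inner (V : Cfg d) (f g : L2 d) : ⟪cay V f, g⟫_ℂ = ⟪f, cayS V g⟫_ℂ := by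
  rw [cay_apply, cayS_apply, inner_sub_left, inner_add_right, inner_smul_left, inner_smul_right,
    (isRes_G V).adj _ negI_im_ne]
  simp only [map_mul, Complex.conj_I, map_ofNat, map_neg, neg_neg]
  ring

theorem cayS_inner (V : Cfg d) (f g : L2 d) : ⟪cayS V f, g⟫_ℂ = ⟪f, cay V g⟫_ℂ := by
  rw [← inner_conj_symm, ← cay_inner, inner_conj_symm]

theorem cayS_cay_apply (V : Cfg d) (f : L2 d) : cayS V (cay V f) = f :=
  congrArg (fun T : Op d => T f) (cayS_mul_cay V)

theorem cay_cayS_apply (V : Cfg d) (f : L2 d) : cay V (cayS V f) = f :=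
  congrArg (fun T : Op d => T f) (cay_mul_cayS V)

theorem norm_cay (V : Cfg d) (f : L2 d) : ‖cay V f‖ = ‖f‖ := by
  have h : ⟪cay V f, cay V f⟫_ℂ = ⟪f, f⟫_ℂ := by rw [cay_inner, cayS_cay_apply]
  rw [inner_self_eq_norm_sq_to_K, inner_self_eq_norm_sq_to_K] at h
  have h2 : ‖cay V f‖ ^ 2 = ‖f‖ ^ 2 := by exact_mod_cast h
  exact (pow_left_inj₀ (norm_nonneg _) (norm_nonneg _) two_ne_zero).1 h2

theorem norm_cayS (V : Cfg d) (f : L2 d) : ‖cayS V f‖ = ‖f‖ := by
  rw [← norm_cay V (cayS V f), cay_cayS_apply]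

theorem adjoint_cay (V : Cfg d) : ContinuousLinearMap.adjoint (cay V) = cayS V := by
  refine ContinuousLinearMap.ext fun f => ext_inner_left ℂ fun v => ?_
  rw [ContinuousLinearMap.adjoint_inner_right, cay_inner]

theorem adjoint_cayS (V : Cfg d) : ContinuousLinearMap.adjoint (cayS V) = cay V := by
  refine ContinuousLinearMap.ext fun f => ext_inner_left ℂ fun v => ?_
  rw [ContinuousLinearMap.adjoint_inner_right, cayS_inner]

theorem norm_cay_pow (V : Cfg d) (n : ℕ) (f : L2 d) : ‖(cay V ^ n) f‖ = ‖f‖ := by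
  induction n generalizing f with
  | zero => simp
  | succ n ih =>
    have e : (cay V ^ (n + 1)) f = (cay V ^ n) (cay V f) := by rw [pow_succ]; rfl
    rw [e, ih, norm_cay]

theorem norm_cayS_pow (V : Cfg d) (n : ℕ) (f : L2 d) : ‖(cayS V ^ n) f‖ = ‖f‖ := by
  induction n generalizing f with
  | zero => simp
  | succ n ih =>
    have e : (cayS V ^ (n + 1)) f = (cayS V ^ n) (cayS V f) := by rw [pow_succ]; rfl
    rw [e, ih, norm_cayS]

theorem cayS_pow_inner (V : Cfg d) (n : ℕ) (f g : L2 d) :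
    ⟪(cayS V ^ n) f, g⟫_ℂ = ⟪f, (cay V ^ n) g⟫_ℂ := by
  induction n generalizing f g with
  | zero => simp
  | succ n ih =>
    have e : (cayS V ^ (n + 1)) f = (cayS V ^ n) (cayS V f) := by rw [pow_succ]; rfl
    have e2 : (cay V ^ (n + 1)) g = cay V ((cay V ^ n) g) := by rw [pow_succ']; rfl
    rw [e, ih, cayS_inner, e2]

theorem norm_avg_le (V : Cfg d) (N : ℕ) {B : Op d} {C : ℝ} (hC : ‖B‖ ≤ C) :
    ‖avg V N B‖ ≤ C := by
  have hC0 : 0 ≤ C := (norm_nonneg _).trans hC
  refine ContinuousLinearMap.opNorm_le_bound _ hC0 fun f => ?_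
  unfold avg
  have e : (((N : ℂ) + 1)⁻¹ • ∑ n ∈ Finset.range (N + 1), cayS V ^ n * B * cay V ^ n) f =
      ((N : ℂ) + 1)⁻¹ • ∑ n ∈ Finset.range (N + 1), (cayS V ^ n) (B ((cay V ^ n) f)) := by
    rw [_root_.smul_apply, _root_.sum_apply]
    rfl
  rw [e, norm_smul, norm_inv]
  have h1 : ‖((N : ℂ) + 1)‖ = (N : ℝ) + 1 := by
    have : ((N : ℂ) + 1) = (((N : ℝ) + 1 : ℝ) : ℂ) := by push_cast; ring
    rw [this, Complex.norm_real, Real.norm_of_nonneg (by positivity)]
  rw [h1]
  have h2 : ‖∑ n ∈ Finset.range (N + 1), (cayS V ^ n) (B ((cay V ^ n) f))‖ ≤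
      ∑ n ∈ Finset.range (N + 1), C * ‖f‖ := by
    refine norm_sum_le_of_le _ fun n _ => ?_
    rw [norm_cayS_pow]
    refine (B.le_opNorm _).trans ?_
    rw [norm_cay_pow]
    exact mul_le_mul_of_nonneg_right hC (norm_nonneg _)
  rw [Finset.sum_const, Finset.card_range, nsmul_eq_mul] at h2
  rw [Nat.cast_add, Nat.cast_one] at h2
  have h3 : (0:ℝ) < (N : ℝ) + 1 := by positivity
  rw [inv_mul_le_iff₀ h3]
  linarith

/-! ### the norm of functions of `H` -/

theorem norm_rf_op_le (p : RF) (V : Cfg d) : ‖p.op V‖ ≤ ∑ k, ‖p.a k‖ * |(p.w k).im|⁻¹ := by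
  unfold RF.op
  refine (norm_sum_le _ _).trans (Finset.sum_le_sum fun k _ => ?_)
  rw [norm_smul]
  exact mul_le_mul_of_nonneg_left ((isRes_G V).opNorm_le (p.hw k)) (norm_nonneg _)

end Pool.Agent.QE
end
end -- Pool.Agent.Helper54_QE.Alg
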