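import Pool.Agent.Helper12_MEB.B018

/-!
# Merged copies (generated) of the modules

* `Pool.Agent.Helper14_QE.SW`
* `Pool.Agent.Helper35_QE.Poisson`
* `Pool.Agent.Helper35_QE.AC`
* `Pool.Agent.Helper14_QE.RFApp`
* `Pool.Agent.Helper14_QE.AC2`
-/

set_option autoImplicit false

section -- Pool.Agent.Helper14_QE.SW

/-!
# Module SW: density of rational functions
-/

set_option autoImplicit false

open scoped InnerProductSpace ComplexConjugate Topology ENNReal
open MeasureTheory Filter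

noncomputable section

namespace Pool.Agent.Helper14.QE

open Pool.Agent.QE

/-- functions of the form `RF.ev` -/
def IsRF (f : ℝ → ℂ) : Prop := ∃ p : RF, ∀ E, p.ev E = f E

theorem isRF_zero : IsRF fun _ => 0 :=
  ⟨⟨0, fun k => k.elim0, fun k => k.elim0, fun k => k.elim0⟩, fun E => by simp [RF.ev]⟩

theorem IsRF.add {f g : ℝ → ℂ} (hf : IsRF f) (hg : IsRF g) : IsRF fun E => f E + g E := by
  obtain ⟨p, hp⟩ := hf
  obtain ⟨q, hq⟩ := hg
  refine ⟨⟨p.n + q.n, Fin.append p.a q.a, Fin.append p.w q.w, ?_⟩, ?_⟩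
  · intro k
    refine Fin.addCases (fun i => ?_) (fun i => ?_) k
    · rw [Fin.append_left]; exact p.hw i
    · rw [Fin.append_right]; exact q.hw i
  · intro E
    show _ = f E + g E
    rw [← hp, ← hq]
    unfold RF.ev
    simp only
    rw [Fin.sum_univ_add]
    congr 1
    · exact Finset.sum_congr rfl fun i _ => by rw [Fin.append_left, Fin.append_left]
    · exact Finset.sum_congr rfl fun i _ => by rw [Fin.append_right, Fin.append_right]

theorem isRF_single (a w : ℂ) (hw : w.im ≠ 0) : IsRF fun E => a / ((E : ℂ) - w) :=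
  ⟨⟨1, fun _ => a, fun _ => w, fun _ => hw⟩, fun E => by simp [RF.ev]⟩

theorem isRF_sum {ι : Type*} (s : Finset ι) (f : ι → ℝ → ℂ) (h : ∀ i ∈ s, IsRF (f i)) :
    IsRF fun E => ∑ i ∈ s, f i E := by
  classical
  induction s using Finset.induction_on with
  | empty => simpa using isRF_zero
  | insert a s ha ih =>
    have h1 := (h a (Finset.mem_insert_self a s)).add
      (ih fun i hi => h i (Finset.mem_insert_of_mem hi))
    refine (congrArg IsRF ?_).mp h1
    funext E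
    rw [Finset.sum_insert ha]

/-- the Poisson kernel (times `π`) -/
def pk (ε s : ℝ) : ℝ := ε / (s ^ 2 + ε ^ 2)

theorem isRF_pk {ε : ℝ} (hε : 0 < ε) (a : ℂ) (t : ℝ) :
    IsRF fun E => a * ((pk ε (t - E) : ℝ) : ℂ) := by
  have h1 := (isRF_single (a / (2 * Complex.I)) ((t : ℂ) + ε * Complex.I) (by simp [hε.ne'])).add
    (isRF_single (-(a / (2 * Complex.I))) ((t : ℂ) - ε * Complex.I) (by simp [hε.ne']))
  refine (congrArg IsRF ?_).mp h1
  funext E
  unfold pk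
  have n1 : (E : ℂ) - ((t : ℂ) + ε * Complex.I) ≠ 0 := by
    intro h
    have := congrArg Complex.im h
    simp at this
    exact hε.ne' this
  have n2 : (E : ℂ) - ((t : ℂ) - ε * Complex.I) ≠ 0 := by
    intro h
    have := congrArg Complex.im h
    simp at this
    exact hε.ne' this
  have e : (((t - E) ^ 2 + ε ^ 2 : ℝ) : ℂ) = ((E : ℂ) - ((t : ℂ) + ε * Complex.I)) *
      ((E : ℂ) - ((t : ℂ) - ε * Complex.I)) := by
    push_cast
    have := Complex.I_sq
    linear_combination ((ε : ℂ) ^ 2) * this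
  have hI : (2 * Complex.I) ≠ 0 := by simp
  rw [Complex.ofReal_div, e]
  have key : ((E : ℂ) - ((t : ℂ) - ε * Complex.I)) - ((E : ℂ) - ((t : ℂ) + ε * Complex.I)) =
      ε * (2 * Complex.I) := by ring
  generalize ((E : ℂ) - ((t : ℂ) - ε * Complex.I)) = Y at *
  generalize ((E : ℂ) - ((t : ℂ) + ε * Complex.I)) = X at *
  calc a / (2 * Complex.I) / X + -(a / (2 * Complex.I)) / Y =
      a / (2 * Complex.I) * ((Y - X) / (X * Y)) := by
        field_simp
        ring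
    _ = a * (ε / (X * Y)) := by
        rw [key]
        field_simp

theorem pk_nonneg {ε : ℝ} (hε : 0 < ε) (s : ℝ) : 0 ≤ pk ε s := by
  unfold pk; positivity

theorem pk_le {ε : ℝ} (hε : 0 < ε) (s : ℝ) : pk ε s ≤ ε⁻¹ := by
  unfold pk
  rw [div_le_iff₀ (by positivity)]
  have : ε⁻¹ * (s ^ 2 + ε ^ 2) = ε⁻¹ * s ^ 2 + ε := by field_simp
  rw [this]
  have : 0 ≤ ε⁻¹ * s ^ 2 := by positivity
  linarith only [this]

theorem pk_lip {ε : ℝ} (hε : 0 < ε) (s u : ℝ) : |pk ε s - pk ε u| ≤ (ε ^ 2)⁻¹ * |s - u| := by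
  unfold pk
  have hA : 0 < s ^ 2 + ε ^ 2 := by positivity
  have hB : 0 < u ^ 2 + ε ^ 2 := by positivity
  have e : ε / (s ^ 2 + ε ^ 2) - ε / (u ^ 2 + ε ^ 2) =
      (ε * (u + s) / ((s ^ 2 + ε ^ 2) * (u ^ 2 + ε ^ 2))) * (u - s) := by
    field_simp
    ring
  rw [e, abs_mul, abs_sub_comm s u]
  apply mul_le_mul_of_nonneg_right _ (abs_nonneg _)
  rw [abs_div, abs_mul, abs_of_pos hε, abs_of_pos (mul_pos hA hB), div_le_iff₀ (mul_pos hA hB)]
  have h1 : |u + s| ≤ |u| + |s| := abs_add_le u s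
  have h2 : ε * |s| ≤ (s ^ 2 + ε ^ 2) / 2 := by
    nlinarith only [sq_nonneg (|s| - ε), sq_abs s]
  have h3 : ε * |u| ≤ (u ^ 2 + ε ^ 2) / 2 := by
    nlinarith only [sq_nonneg (|u| - ε), sq_abs u]
  have h4 : ε ^ 2 ≤ s ^ 2 + ε ^ 2 := by nlinarith only [sq_nonneg s]
  have h5 : ε ^ 2 ≤ u ^ 2 + ε ^ 2 := by nlinarith only [sq_nonneg u]
  have h6 : (s ^ 2 + ε ^ 2) / 2 + (u ^ 2 + ε ^ 2) / 2 ≤
      (ε ^ 2)⁻¹ * ((s ^ 2 + ε ^ 2) * (u ^ 2 + ε ^ 2)) := by
    rw [inv_mul_eq_div, le_div_iff₀ (by positivity)]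
    set A := s ^ 2 + ε ^ 2
    set B := u ^ 2 + ε ^ 2
    nlinarith only
  nlinarith only [hε, h1, h2, h3, h6]

theorem integrable_K34 : Integrable fun s : ℝ => (1 + s ^ 2) ^ (-(3 / 4) : ℝ) := by
  have := integrable_rpow_neg_one_add_norm_sq (E := ℝ) (μ := volume) (r := 3 / 2)
    (by simp; norm_num)
  refine this.congr (Eventually.of_forall fun s => ?_)
  simp only [Real.norm_eq_abs, sq_abs]
  congr 1
  norm_num

/-- the Poisson integral converges uniformly -/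
theorem poisson_unif {h : ℝ → ℂ} (hc : Continuous h) (hs : HasCompactSupport h) {δ : ℝ}
    (hδ : 0 < δ) : ∃ ε : ℝ, 0 < ε ∧ ∀ E : ℝ,
      ‖(Real.pi : ℂ) * h E - ∫ t : ℝ, h t * ((pk ε (t - E) : ℝ) : ℂ)‖ ≤ δ := by
  obtain ⟨H, hH⟩ := hc.bounded_above_of_compact_support hs
  have hH0 : 0 ≤ H := (norm_nonneg _).trans (hH 0)
  have huc := hs.uniformContinuous_of_continuous hc
  rw [Metric.uniformContinuous_iff] at huc
  obtain ⟨η, hη, hη'⟩ := huc (δ / (2 * Real.pi)) (by positivity)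
  set J : ℝ := ∫ s : ℝ, (1 + s ^ 2) ^ (-(3 / 4) : ℝ) with hJ
  have hJ0 : 0 ≤ J := integral_nonneg fun s => by positivity
  -- choose ε
  set ε : ℝ := η * (δ / (2 * (2 * H * J + 1))) ^ 2 with hε
  have hε0 : 0 < ε := by positivity
  refine ⟨ε, hε0, fun E => ?_⟩
  have hr : Real.sqrt (ε / η) = δ / (2 * (2 * H * J + 1)) := by
    have h0 : ε / η = (δ / (2 * (2 * H * J + 1))) ^ 2 := by
      rw [hε, mul_div_assoc, mul_comm, div_mul_cancel₀ _ hη.ne']
    rw [h0]
    exact Real.sqrt_sq (by positivity)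
  -- substitution
  have hsub : ∫ t : ℝ, h t * ((pk ε (t - E) : ℝ) : ℂ) =
      ∫ s : ℝ, h (E + ε * s) * (((1 + s ^ 2)⁻¹ : ℝ) : ℂ) := by
    rw [← integral_add_left_eq_self (fun t => h t * ((pk ε (t - E) : ℝ) : ℂ)) E]
    have h1 := Measure.integral_comp_mul_left
      (fun y => h (E + y) * ((pk ε (E + y - E) : ℝ) : ℂ)) ε
    have h2 : ∫ y, h (E + y) * ((pk ε (E + y - E) : ℝ) : ℂ) =
        (ε : ℂ) * ∫ s, h (E + ε * s) * ((pk ε (E + ε * s - E) : ℝ) : ℂ) := by
      rw [h1, abs_of_pos (inv_pos.2 hε0), Complex.real_smul, ← mul_assoc, ← Complex.ofReal_mul,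
        mul_inv_cancel₀ hε0.ne', Complex.ofReal_one, one_mul]
    rw [h2, ← integral_const_mul]
    congr 1
    funext s
    have h4 : (1 + s ^ 2) ≠ 0 := by positivity
    have h5 : ε * pk ε (E + ε * s - E) = (1 + s ^ 2)⁻¹ := by
      unfold pk
      have h3 : (E + ε * s - E) ^ 2 + ε ^ 2 = ε ^ 2 * (1 + s ^ 2) := by ring
      rw [h3]
      field_simp
    rw [← h5]
    push_cast
    ring
  have hK : Integrable fun s : ℝ => (1 + s ^ 2)⁻¹ := integrable_inv_one_add_sq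
  have hpi : (Real.pi : ℂ) * h E = ∫ s : ℝ, h E * (((1 + s ^ 2)⁻¹ : ℝ) : ℂ) := by
    rw [integral_const_mul, integral_complex_ofReal, integral_univ_inv_one_add_sq]
    ring
  have hi1 : Integrable fun s : ℝ => h E * (((1 + s ^ 2)⁻¹ : ℝ) : ℂ) := hK.ofReal.const_mul _
  have hi2 : Integrable fun s : ℝ => h (E + ε * s) * (((1 + s ^ 2)⁻¹ : ℝ) : ℂ) := by
    refine hK.ofReal.bdd_mul (c := H) ?_ (Eventually.of_forall fun s => hH _)
    exact (hc.comp (by fun_prop)).aestronglyMeasurable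
  rw [hsub, hpi, ← integral_sub hi1 hi2]
  have hb : ∀ s : ℝ, ‖h E * (((1 + s ^ 2)⁻¹ : ℝ) : ℂ) - h (E + ε * s) *
      (((1 + s ^ 2)⁻¹ : ℝ) : ℂ)‖ ≤ δ / (2 * Real.pi) * (1 + s ^ 2)⁻¹ +
        2 * H * Real.sqrt (ε / η) * (1 + s ^ 2) ^ (-(3 / 4) : ℝ) := by
    intro s
    rw [← sub_mul, norm_mul, Complex.norm_real, Real.norm_eq_abs,
      abs_of_nonneg (by positivity : (0:ℝ) ≤ (1 + s ^ 2)⁻¹)]
    have hT : 0 ≤ 2 * H * Real.sqrt (ε / η) * (1 + s ^ 2) ^ (-(3 / 4) : ℝ) := by positivity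
    have hT' : 0 ≤ δ / (2 * Real.pi) * (1 + s ^ 2)⁻¹ := by positivity
    by_cases hc1 : |ε * s| < η
    · have h1 : ‖h E - h (E + ε * s)‖ ≤ δ / (2 * Real.pi) := by
        rw [← dist_eq_norm]
        refine (hη' ?_).le
        rw [dist_eq_norm, Real.norm_eq_abs]
        have : E - (E + ε * s) = -(ε * s) := by ring
        rw [this, abs_neg]
        exact hc1
      have h2 := mul_le_mul_of_nonneg_right h1 (by positivity : (0:ℝ) ≤ (1 + s ^ 2)⁻¹)
      linarith only [hT, h2]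
    · rw [not_lt] at hc1
      have h1 : ‖h E - h (E + ε * s)‖ ≤ 2 * H := by
        refine (norm_sub_le _ _).trans ?_
        linarith only [hH E, hH (E + ε * s)]
      have h2 : 1 ≤ Real.sqrt (ε / η) * (1 + s ^ 2) ^ (1 / 4 : ℝ) := by
        have h3 : 1 ≤ ε / η * |s| := by
          rw [div_mul_eq_mul_div, le_div_iff₀ hη, one_mul]
          rwa [abs_mul, abs_of_pos hε0] at hc1
        have h4 : |s| ≤ (1 + s ^ 2) ^ (1 / 2 : ℝ) := by
          rw [← Real.sqrt_eq_rpow]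
          apply Real.le_sqrt_of_sq_le
          rw [sq_abs]
          linarith only
        have h5 : Real.sqrt ((1 + s ^ 2) ^ (1 / 2 : ℝ)) = (1 + s ^ 2) ^ (1 / 4 : ℝ) := by
          rw [Real.sqrt_eq_rpow, ← Real.rpow_mul (by positivity)]
          norm_num
        rw [← h5, ← Real.sqrt_mul (by positivity)]
        apply Real.le_sqrt_of_sq_le
        rw [one_pow]
        exact h3.trans (mul_le_mul_of_nonneg_left h4 (by positivity))
      have h6 : (1 + s ^ 2)⁻¹ ≤ Real.sqrt (ε / η) * (1 + s ^ 2) ^ (-(3 / 4) : ℝ) := by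
        have h7 : (1 + s ^ 2) ^ (-(3 / 4) : ℝ) = (1 + s ^ 2) ^ (1 / 4 : ℝ) * (1 + s ^ 2)⁻¹ := by
          rw [← Real.rpow_neg_one, ← Real.rpow_add (by positivity)]
          norm_num
        rw [h7, ← mul_assoc]
        exact le_mul_of_one_le_left (by positivity) h2
      calc ‖h E - h (E + ε * s)‖ * (1 + s ^ 2)⁻¹
          ≤ 2 * H * (Real.sqrt (ε / η) * (1 + s ^ 2) ^ (-(3 / 4) : ℝ)) :=
            mul_le_mul h1 h6 (by positivity) (by positivity)
        _ = 2 * H * Real.sqrt (ε / η) * (1 + s ^ 2) ^ (-(3 / 4) : ℝ) := by ring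
        _ ≤ _ := by linarith only [hT']
  have hib : Integrable fun s : ℝ => δ / (2 * Real.pi) * (1 + s ^ 2)⁻¹ +
      2 * H * Real.sqrt (ε / η) * (1 + s ^ 2) ^ (-(3 / 4) : ℝ) :=
    (hK.const_mul _).add (integrable_K34.const_mul _)
  refine (norm_integral_le_of_norm_le hib (Eventually.of_forall hb)).trans ?_
  rw [integral_add (hK.const_mul _) (integrable_K34.const_mul _), integral_const_mul,
    integral_const_mul, integral_univ_inv_one_add_sq, ← hJ, hr]
  have h1 : δ / (2 * Real.pi) * Real.pi = δ / 2 := by field_simp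
  have h2 : 2 * H * (δ / (2 * (2 * H * J + 1))) * J ≤ δ / 2 := by
    have : 2 * H * (δ / (2 * (2 * H * J + 1))) * J = (δ / 2) * (2 * H * J / (2 * H * J + 1)) := by
      field_simp
    rw [this]
    apply mul_le_of_le_one_right (by positivity)
    rw [div_le_one (by positivity)]
    linarith only
  linarith only [h1, h2]

theorem sw : SWStatement := by
  intro h hc hs δ hδ
  obtain ⟨ε, hε, hP⟩ := poisson_unif hc hs (show 0 < δ / 2 by positivity)
  obtain ⟨H, hH⟩ := hc.bounded_above_of_compact_support hs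
  have hH0 : 0 ≤ H := (norm_nonneg _).trans (hH 0)
  have huc := hs.uniformContinuous_of_continuous hc
  rw [Metric.uniformContinuous_iff] at huc
  -- support
  obtain ⟨M, hM0, hM⟩ : ∃ M : ℝ, 0 < M ∧ ∀ t, h t ≠ 0 → |t| < M := by
    obtain ⟨M, hM⟩ := hs.isCompact.isBounded.subset_ball (0 : ℝ)
    refine ⟨max M 1, by positivity, fun t ht => ?_⟩
    have := hM (subset_tsupport h ht)
    rw [Metric.mem_ball, dist_zero_right, Real.norm_eq_abs] at this
    exact this.trans_le (le_max_left _ _)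
  set κ : ℝ := δ / (8 * M) with hκ
  have hκ0 : 0 < κ := by positivity
  obtain ⟨η, hη, hη'⟩ := huc (κ * ε) (by positivity)
  -- number of points
  obtain ⟨N, hN⟩ := exists_nat_gt (max (2 * M / η) (2 * M * H / (κ * ε ^ 2)))
  have hN1 : 2 * M / η < N := (le_max_left _ _).trans_lt hN
  have hN2 : 2 * M * H / (κ * ε ^ 2) < N := (le_max_right _ _).trans_lt hN
  have hNpos : (0 : ℝ) < N := lt_of_le_of_lt (by positivity) hN1
  set ℓ : ℝ := 2 * M / N with hℓ
  have hℓ0 : 0 < ℓ := by positivity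
  have hℓη : ℓ < η := by
    rw [hℓ, div_lt_iff₀ hNpos]
    rw [div_lt_iff₀ hη] at hN1
    linarith only [hN1]
  have hℓH : ℓ * H ≤ κ * ε ^ 2 := by
    rw [div_lt_iff₀ (by positivity)] at hN2
    rw [hℓ, div_mul_eq_mul_div, div_le_iff₀ hNpos]
    linarith only [hN2]
  set T : ℕ → ℝ := fun k => -M + ℓ * k with hT
  have hT0 : T 0 = -M := by simp [hT]
  have hTN : T N = M := by
    simp only [hT, hℓ]
    field_simp
    ring
  -- the rational function
  have hRF : IsRF fun E => ∑ k ∈ Finset.range N,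
      ((Real.pi : ℂ)⁻¹ * ℓ * h (T k)) * ((pk ε (T k - E) : ℝ) : ℂ) :=
    isRF_sum _ _ fun k _ => isRF_pk hε _ _
  obtain ⟨p, hp⟩ := hRF
  refine ⟨p, fun E => ?_⟩
  rw [hp]
  set F : ℝ → ℂ := fun t => h t * ((pk ε (t - E) : ℝ) : ℂ) with hF
  have hpkc : Continuous fun t => pk ε (t - E) := by
    unfold pk
    exact continuous_const.div (by fun_prop) fun t => by positivity
  have hFc : Continuous F := hc.mul (Complex.continuous_ofReal.comp hpkc)
  have hint : ∫ t : ℝ, F t = ∑ k ∈ Finset.range N, ∫ t in (T k)..(T (k + 1)), F t := by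
    rw [intervalIntegral.sum_integral_adjacent_intervals
      (fun k _ => hFc.intervalIntegrable _ _), hT0, hTN,
      intervalIntegral.integral_eq_integral_of_support_subset]
    intro t ht
    have h1 : h t ≠ 0 := by
      intro h0
      apply ht
      simp [hF, h0]
    have := abs_lt.mp (hM t h1)
    exact ⟨this.1, this.2.le⟩
  have hstep : ∀ k : ℕ, T (k + 1) - T k = ℓ := by
    intro k
    simp only [hT]
    push_cast
    ring
  have hcell : ∀ k : ℕ, ‖(∫ t in (T k)..(T (k + 1)), F t) - (ℓ : ℂ) * F (T k)‖ ≤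
      (2 * κ) * ℓ := by
    intro k
    have h1 : (ℓ : ℂ) * F (T k) = ∫ _ in (T k)..(T (k + 1)), F (T k) := by
      rw [intervalIntegral.integral_const, hstep, Complex.real_smul]
    rw [h1, ← intervalIntegral.integral_sub (hFc.intervalIntegrable _ _)
      (continuous_const.intervalIntegrable _ _)]
    have h2 : ∀ t ∈ Set.uIoc (T k) (T (k + 1)), ‖F t - F (T k)‖ ≤ 2 * κ := by
      intro t ht
      have hle : T k ≤ T (k + 1) := by linarith only [hstep k, hℓ0]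
      rw [Set.uIoc_of_le hle] at ht
      have hd : |t - T k| ≤ ℓ := by
        rw [abs_of_nonneg (by linarith only [ht.1])]
        linarith only [ht.2, hstep k]
      have e : F t - F (T k) = (h t - h (T k)) * ((pk ε (t - E) : ℝ) : ℂ) +
          h (T k) * ((pk ε (t - E) - pk ε (T k - E) : ℝ) : ℂ) := by
        simp only [hF]
        push_cast
        ring
      rw [e]
      refine (norm_add_le _ _).trans ?_
      rw [norm_mul, norm_mul, Complex.norm_real, Complex.norm_real, Real.norm_eq_abs,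
        Real.norm_eq_abs, abs_of_nonneg (pk_nonneg hε _)]
      have g1 : ‖h t - h (T k)‖ ≤ κ * ε := by
        rw [← dist_eq_norm]
        refine (hη' ?_).le
        rw [Real.dist_eq]
        exact hd.trans_lt hℓη
      have g2 : ‖h t - h (T k)‖ * pk ε (t - E) ≤ κ := by
        calc _ ≤ κ * ε * ε⁻¹ := mul_le_mul g1 (pk_le hε _) (pk_nonneg hε _) (by positivity)
          _ = κ := by field_simp
      have g3 : |pk ε (t - E) - pk ε (T k - E)| ≤ (ε ^ 2)⁻¹ * ℓ := by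
        refine (pk_lip hε _ _).trans ?_
        apply mul_le_mul_of_nonneg_left _ (by positivity)
        have : t - E - (T k - E) = t - T k := by ring
        rw [this]
        exact hd
      have g4 : ‖h (T k)‖ * |pk ε (t - E) - pk ε (T k - E)| ≤ κ := by
        calc _ ≤ H * ((ε ^ 2)⁻¹ * ℓ) := mul_le_mul (hH _) g3 (abs_nonneg _) hH0
          _ = (ε ^ 2)⁻¹ * (ℓ * H) := by ring
          _ ≤ (ε ^ 2)⁻¹ * (κ * ε ^ 2) := mul_le_mul_of_nonneg_left hℓH (by positivity)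
          _ = κ := by field_simp
      linarith only [g2, g4]
    have h3 := intervalIntegral.norm_integral_le_of_norm_le_const h2
    rwa [hstep, abs_of_pos hℓ0] at h3
  have hsum : ‖(∫ t : ℝ, F t) - ∑ k ∈ Finset.range N, (ℓ : ℂ) * F (T k)‖ ≤ δ / 2 := by
    rw [hint, ← Finset.sum_sub_distrib]
    refine (norm_sum_le _ _).trans ?_
    refine (Finset.sum_le_sum fun k _ => hcell k).trans ?_
    rw [Finset.sum_const, Finset.card_range, nsmul_eq_mul, hκ, hℓ]
    apply le_of_eq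
    field_simp
    ring
  have hPE := hP E
  have hpi : (Real.pi : ℂ) ≠ 0 := by exact_mod_cast Real.pi_ne_zero
  have hfin : h E - ∑ k ∈ Finset.range N,
      ((Real.pi : ℂ)⁻¹ * ℓ * h (T k)) * ((pk ε (T k - E) : ℝ) : ℂ) = (Real.pi : ℂ)⁻¹ *
      (((Real.pi : ℂ) * h E - ∫ t : ℝ, F t) +
        ((∫ t : ℝ, F t) - ∑ k ∈ Finset.range N, (ℓ : ℂ) * F (T k))) := by
    have h1 : ∑ k ∈ Finset.range N,
        ((Real.pi : ℂ)⁻¹ * ℓ * h (T k)) * ((pk ε (T k - E) : ℝ) : ℂ) =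
        (Real.pi : ℂ)⁻¹ * ∑ k ∈ Finset.range N, (ℓ : ℂ) * F (T k) := by
      rw [Finset.mul_sum]
      refine Finset.sum_congr rfl fun k _ => ?_
      simp only [hF]
      ring
    rw [h1]
    field_simp
    ring
  rw [hfin, norm_mul]
  have h5 : ‖(Real.pi : ℂ)⁻¹‖ ≤ 1 := by
    rw [norm_inv, Complex.norm_real, Real.norm_eq_abs, abs_of_pos Real.pi_pos]
    exact inv_le_one_of_one_le₀ (by linarith only [Real.pi_gt_three])
  calc ‖(Real.pi : ℂ)⁻¹‖ * ‖((Real.pi : ℂ) * h E - ∫ t : ℝ, F t) +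
        ((∫ t : ℝ, F t) - ∑ k ∈ Finset.range N, (ℓ : ℂ) * F (T k))‖
      ≤ 1 * (δ / 2 + δ / 2) := by
        apply mul_le_mul h5 ((norm_add_le _ _).trans (add_le_add hPE hsum)) (norm_nonneg _)
          (by norm_num)
    _ = δ := by ring

end Pool.Agent.Helper14.QE
end
end -- Pool.Agent.Helper14_QE.SW

section -- Pool.Agent.Helper35_QE.Poisson

/-!
# Convergence in `L¹` of Poisson integrals
-/

set_option autoImplicit false

open MeasureTheory Filter
open scoped Topology ENNReal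

noncomputable section

namespace Pool.Agent.Helper35.AC

/-- `π` times the Poisson integral of `ρ` -/
def Pr (ρ : ℝ → ℝ) (ε E : ℝ) : ℝ := ∫ t, ρ t * (ε / ((t - E) ^ 2 + ε ^ 2))

theorem Pr_eq (ρ : ℝ → ℝ) {ε : ℝ} (hε : 0 < ε) (E : ℝ) :
    Pr ρ ε E = ∫ s, ρ (E + ε * s) * (1 + s ^ 2)⁻¹ := by
  unfold Pr
  rw [← integral_add_left_eq_self (fun t => ρ t * (ε / ((t - E) ^ 2 + ε ^ 2))) E]
  have h := Measure.integral_comp_mul_left
    (fun y => ρ (E + y) * (ε / ((E + y - E) ^ 2 + ε ^ 2))) ε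
  have h2 : ∫ y, ρ (E + y) * (ε / ((E + y - E) ^ 2 + ε ^ 2)) =
      ε * ∫ s, ρ (E + ε * s) * (ε / ((E + ε * s - E) ^ 2 + ε ^ 2)) := by
    rw [h, abs_of_pos (inv_pos.2 hε), smul_eq_mul, ← mul_assoc, mul_inv_cancel₀ hε.ne', one_mul]
  rw [h2, ← integral_const_mul]
  congr 1
  funext s
  have h3 : (E + ε * s - E) ^ 2 + ε ^ 2 = ε ^ 2 * (1 + s ^ 2) := by ring
  have h4 : (1 + s ^ 2) ≠ 0 := by positivity
  rw [h3]
  field_simp

theorem tendsto_W {ρ : ℝ → ℝ} (hρ : Integrable ρ) :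
    Tendsto (fun t : ℝ => ∫⁻ E, ‖ρ (E + t) - ρ E‖ₑ) (𝓝 0) (𝓝 0) := by
  set f : Lp ℝ 1 (volume : Measure ℝ) := hρ.toL1 ρ with hf
  set g : C(ℝ, C(ℝ, ℝ)) := ContinuousMap.curry ⟨fun p : ℝ × ℝ => p.2 + p.1, by fun_prop⟩ with hg
  have hgt : ∀ t E, g t E = E + t := fun t E => rfl
  have hgm : ∀ t, MeasurePreserving (g t) (volume : Measure ℝ) volume := fun t =>
    measurePreserving_add_right volume t
  have hc : Continuous fun t => Lp.compMeasurePreserving (g t) (hgm t) f :=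
    continuous_const.compMeasurePreservingLp g.continuous hgm (by norm_num)
  have h1 := tendsto_iff_edist_tendsto_0.1 (hc.tendsto 0)
  refine h1.congr fun t => ?_
  rw [Lp.edist_def, eLpNorm_one_eq_lintegral_enorm]
  have ha : ∀ t, (Lp.compMeasurePreserving (g t) (hgm t) f : ℝ → ℝ) =ᵐ[volume]
      fun E => ρ (E + t) := by
    intro t
    refine (Lp.coeFn_compMeasurePreserving f (hgm t)).trans ?_
    exact (hgm t).quasiMeasurePreserving.ae_eq_comp hρ.coeFn_toL1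
  refine lintegral_congr_ae ?_
  filter_upwards [ha t, ha 0] with E h2 h3
  rw [Pi.sub_apply, h2, h3, add_zero]

theorem W_le {ρ : ℝ → ℝ} (hρ : Integrable ρ) (t : ℝ) :
    ∫⁻ E, ‖ρ (E + t) - ρ E‖ₑ ≤ 2 * ∫⁻ E, ‖ρ E‖ₑ := by
  calc ∫⁻ E, ‖ρ (E + t) - ρ E‖ₑ ≤ ∫⁻ E, (‖ρ (E + t)‖ₑ + ‖ρ E‖ₑ) :=
        lintegral_mono fun E => enorm_sub_le
    _ = (∫⁻ E, ‖ρ (E + t)‖ₑ) + ∫⁻ E, ‖ρ E‖ₑ :=
        lintegral_add_right' _ hρ.aestronglyMeasurable.enorm
    _ = 2 * ∫⁻ E, ‖ρ E‖ₑ := by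
        rw [lintegral_add_right_eq_self (fun E => ‖ρ E‖ₑ) t, two_mul]

theorem integrable_K : Integrable fun s : ℝ => (1 + s ^ 2)⁻¹ := integrable_inv_one_add_sq

theorem norm_Pr_sub_le {ρ : ℝ → ℝ} (hρ : Integrable ρ) {ε : ℝ} (hε : 0 < ε) (E : ℝ) :
    ‖Pr ρ ε E - Real.pi * ρ E‖ₑ ≤
      ∫⁻ s, ‖ρ (E + ε * s) - ρ E‖ₑ * ENNReal.ofReal (1 + s ^ 2)⁻¹ := by
  have h1 : Integrable fun s : ℝ => ρ (E + ε * s) := by
    have := (hρ.comp_add_left E).comp_mul_left' hε.ne'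
    exact this
  have h2 : Integrable fun s : ℝ => ρ (E + ε * s) * (1 + s ^ 2)⁻¹ := by
    refine h1.mul_bdd (c := 1) ?_ ?_
    · have : Continuous fun s : ℝ => (1 + s ^ 2)⁻¹ := by
        refine Continuous.inv₀ (by fun_prop) (fun s => by positivity)
      exact this.aestronglyMeasurable
    · refine Eventually.of_forall fun s => ?_
      rw [Real.norm_eq_abs, abs_of_nonneg (by positivity)]
      exact inv_le_one_of_one_le₀ (by nlinarith [sq_nonneg s])
  have h3 : Real.pi * ρ E = ∫ s : ℝ, ρ E * (1 + s ^ 2)⁻¹ := by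
    rw [integral_const_mul, integral_univ_inv_one_add_sq, mul_comm]
  rw [Pr_eq ρ hε, h3, ← integral_sub h2 (integrable_K.const_mul _)]
  refine (enorm_integral_le_lintegral_enorm _).trans (le_of_eq ?_)
  congr 1
  funext s
  rw [← sub_mul, enorm_mul]
  congr 1
  rw [Real.enorm_eq_ofReal (by positivity)]

theorem poisson_L1_meas {ρ : ℝ → ℝ} (hρ : Integrable ρ) (hm : Measurable ρ) :
    Tendsto (fun ε : ℝ => ∫⁻ E, ‖Pr ρ ε E - Real.pi * ρ E‖ₑ) (𝓝[>] 0) (𝓝 0) := by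
  have hmeas : Measurable fun p : ℝ × ℝ × ℝ =>
      ‖ρ (p.2.2 + p.1 * p.2.1) - ρ p.2.2‖ₑ * ENNReal.ofReal (1 + p.2.1 ^ 2)⁻¹ := by
    fun_prop
  have hWm : Measurable fun t : ℝ => ∫⁻ E, ‖ρ (E + t) - ρ E‖ₑ := by
    have : Measurable fun p : ℝ × ℝ => ‖ρ (p.2 + p.1) - ρ p.2‖ₑ := by fun_prop
    exact this.lintegral_prod_right'
  have hlim : Tendsto (fun ε : ℝ => ∫⁻ s : ℝ, (∫⁻ E, ‖ρ (E + ε * s) - ρ E‖ₑ) *
      ENNReal.ofReal (1 + s ^ 2)⁻¹) (𝓝[>] 0) (𝓝 (∫⁻ _ : ℝ, 0)) := by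
    refine tendsto_lintegral_filter_of_dominated_convergence
      (fun s => (2 * ∫⁻ E, ‖ρ E‖ₑ) * ENNReal.ofReal (1 + s ^ 2)⁻¹) ?_ ?_ ?_ ?_
    · refine Eventually.of_forall fun ε => ?_
      exact (hWm.comp (measurable_const.mul measurable_id)).mul (by fun_prop)
    · refine Eventually.of_forall fun ε => Eventually.of_forall fun s => ?_
      exact mul_le_mul' (W_le hρ _) le_rfl
    · rw [lintegral_const_mul _ (by fun_prop)]
      refine ENNReal.mul_ne_top (ENNReal.mul_ne_top (by norm_num) ?_) ?_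
      · exact hρ.2.ne
      · have := integrable_K.2
        rw [hasFiniteIntegral_iff_ofReal (Eventually.of_forall fun s => by positivity)] at this
        exact this.ne
    · refine Eventually.of_forall fun s => ?_
      have h1 : Tendsto (fun ε : ℝ => ε * s) (𝓝[>] 0) (𝓝 0) := by
        have : Tendsto (fun ε : ℝ => ε * s) (𝓝 0) (𝓝 (0 * s)) :=
          (continuous_id.mul continuous_const).tendsto 0
        rw [zero_mul] at this
        exact this.mono_left nhdsWithin_le_nhds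
      have h2 := (tendsto_W hρ).comp h1
      have h3 := ENNReal.Tendsto.mul_const (b := ENNReal.ofReal (1 + s ^ 2)⁻¹) h2
        (Or.inr ENNReal.ofReal_ne_top)
      rw [zero_mul] at h3
      exact h3
  rw [lintegral_zero] at hlim
  refine tendsto_of_tendsto_of_tendsto_of_le_of_le' tendsto_const_nhds hlim
    (Eventually.of_forall fun _ => zero_le) ?_
  filter_upwards [self_mem_nhdsWithin] with ε hε
  calc ∫⁻ E, ‖Pr ρ ε E - Real.pi * ρ E‖ₑ
      ≤ ∫⁻ E, ∫⁻ s, ‖ρ (E + ε * s) - ρ E‖ₑ * ENNReal.ofReal (1 + s ^ 2)⁻¹ :=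
        lintegral_mono fun E => norm_Pr_sub_le hρ hε E
    _ = ∫⁻ s, ∫⁻ E, ‖ρ (E + ε * s) - ρ E‖ₑ * ENNReal.ofReal (1 + s ^ 2)⁻¹ := by
        refine lintegral_lintegral_swap ?_
        have : Measurable fun p : ℝ × ℝ =>
            ‖ρ (p.1 + ε * p.2) - ρ p.1‖ₑ * ENNReal.ofReal (1 + p.2 ^ 2)⁻¹ := by fun_prop
        exact this.aemeasurable
    _ = ∫⁻ s : ℝ, (∫⁻ E, ‖ρ (E + ε * s) - ρ E‖ₑ) * ENNReal.ofReal (1 + s ^ 2)⁻¹ := by
        refine lintegral_congr fun s => ?_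
        rw [lintegral_mul_const]
        fun_prop

theorem poisson_L1 {ρ : ℝ → ℝ} (hρ : Integrable ρ) :
    Tendsto (fun ε : ℝ => ∫⁻ E, ‖Pr ρ ε E - Real.pi * ρ E‖ₑ) (𝓝[>] 0) (𝓝 0) := by
  set σ : ℝ → ℝ := hρ.1.mk ρ with hσ
  have hae : ρ =ᵐ[volume] σ := hρ.1.ae_eq_mk
  have hσi : Integrable σ := hρ.congr hae
  have h := poisson_L1_meas hσi hρ.1.stronglyMeasurable_mk.measurable
  refine h.congr fun ε => ?_
  have hP : ∀ E, Pr σ ε E = Pr ρ ε E := by
    intro E
    unfold Pr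
    refine integral_congr_ae ?_
    filter_upwards [hae] with t ht
    rw [ht]
  refine lintegral_congr_ae ?_
  filter_upwards [hae] with E hE
  rw [hP, hE]

/-- the real version -/
theorem poisson_L1_real {ρ : ℝ → ℝ} (hρ : Integrable ρ) {e : ℕ → ℝ} (he : ∀ k, 0 < e k)
    (he0 : Tendsto e atTop (𝓝 0)) (hq : ∀ k, Integrable (Pr ρ (e k))) :
    Tendsto (fun k => ∫ E, |Pr ρ (e k) E - Real.pi * ρ E|) atTop (𝓝 0) := by
  have h1 : Tendsto e atTop (𝓝[>] 0) :=
    tendsto_nhdsWithin_iff.2 ⟨he0, Eventually.of_forall he⟩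
  have h2 := (poisson_L1 hρ).comp h1
  have h3 := (ENNReal.tendsto_toReal ENNReal.zero_ne_top).comp h2
  rw [ENNReal.toReal_zero] at h3
  refine h3.congr fun k => ?_
  have h4 : AEStronglyMeasurable (fun E => Pr ρ (e k) E - Real.pi * ρ E) volume :=
    (hq k).aestronglyMeasurable.sub (hρ.const_mul _).aestronglyMeasurable
  exact (integral_norm_eq_lintegral_enorm h4).symm

end Pool.Agent.Helper35.AC
end
end -- Pool.Agent.Helper35_QE.Poisson

section -- Pool.Agent.Helper35_QE.AC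

/-!
# Module AC: vectors with absolutely continuous spectral measure
-/

set_option autoImplicit false
set_option linter.unusedSectionVars false

open scoped InnerProductSpace ComplexConjugate Topology ENNReal
open MeasureTheory Filter

noncomputable section

namespace Pool.Agent.Helper35.AC

open Pool.Agent.Anderson Pool.Agent.Helper54.Bal Pool.Agent.QE

/-! ## abstract limit lemmas -/

theorem lim_diff {F G : ℕ → ℝ → ℂ} {h g : ℕ → ℝ → ℝ} {M : ℝ}
    (hF : ∀ k, Integrable (F k)) (hG : ∀ k, Integrable (G k))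
    (hh : ∀ k, Integrable (h k)) (hg : ∀ k, Integrable (g k)) (hM : ∀ k, ∫ E, g k E ≤ M)
    (hh0 : Tendsto (fun k => ∫ E, h k E) atTop (𝓝 0))
    (hle : ∀ k E δ, 0 < δ → ‖F k E - G k E‖ ≤ δ⁻¹ * h k E + δ * g k E) :
    Tendsto (fun k => (∫ E, F k E) - ∫ E, G k E) atTop (𝓝 0) := by
  rw [Metric.tendsto_atTop]
  intro η hη
  set δ : ℝ := η / (2 * (|M| + 1)) with hδ
  have hM0 : 0 < |M| + 1 := by positivity
  have hδ0 : 0 < δ := by positivity
  rw [Metric.tendsto_atTop] at hh0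
  obtain ⟨N, hN⟩ := hh0 (δ * (η / 2)) (by positivity)
  refine ⟨N, fun k hk => ?_⟩
  have h1 := hN k hk
  rw [Real.dist_eq, sub_zero] at h1
  rw [dist_zero_right, ← integral_sub (hF k) (hG k)]
  have h2 : ‖∫ E, F k E - G k E‖ ≤ ∫ E, (δ⁻¹ * h k E + δ * g k E) :=
    norm_integral_le_of_norm_le (((hh k).const_mul _).add ((hg k).const_mul _))
      (Eventually.of_forall fun E => hle k E δ hδ0)
  rw [integral_add ((hh k).const_mul _) ((hg k).const_mul _), integral_const_mul,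
    integral_const_mul] at h2
  have h3 : δ⁻¹ * ∫ E, h k E < η / 2 := by
    rw [inv_mul_lt_iff₀ hδ0]
    exact (le_abs_self _).trans_lt h1
  have h4 : δ * ∫ E, g k E ≤ η / 2 := by
    calc δ * ∫ E, g k E ≤ δ * (|M| + 1) := by
          apply mul_le_mul_of_nonneg_left _ hδ0.le
          linarith only [hM k, le_abs_self M]
      _ = η / 2 := by
          rw [hδ]; field_simp
  linarith only [h2, h3, h4]

theorem lim_mul {q : ℕ → ℝ → ℝ} {p : ℝ → ℝ} (hq : ∀ k, Integrable (q k)) (hp : Integrable p)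
    (hL : Tendsto (fun k => ∫ E, |q k E - p E|) atTop (𝓝 0))
    {m : ℕ → ℝ → ℂ} {m0 : ℝ → ℂ} {B : ℝ} (hm : ∀ k, Measurable (m k)) (hm0 : Measurable m0)
    {r : ℕ → ℝ} (hr : Tendsto r atTop (𝓝 0))
    (hB : ∀ᶠ k in atTop, ∀ E, ‖m k E‖ ≤ B) (hB0 : ∃ B0, ∀ E, ‖m0 E‖ ≤ B0)
    (hmr : ∀ᶠ k in atTop, ∀ E, ‖m k E - m0 E‖ ≤ r k) :
    Tendsto (fun k => ∫ E, m k E * (q k E : ℂ)) atTop (𝓝 (∫ E, m0 E * (p E : ℂ))) := by
  obtain ⟨B0, hB0⟩ := hB0
  rw [tendsto_iff_norm_sub_tendsto_zero]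
  have hlim : Tendsto (fun k => B * (∫ E, |q k E - p E|) + r k * ∫ E, |p E|) atTop (𝓝 0) := by
    have := (hL.const_mul B).add (hr.mul_const (∫ E, |p E|))
    simpa using this
  refine squeeze_zero' (Eventually.of_forall fun k => norm_nonneg _) ?_ hlim
  filter_upwards [hB, hmr] with k hk1 hk2
  have hi1 : Integrable fun E => m k E * (q k E : ℂ) :=
    (hq k).ofReal.bdd_mul (hm k).aestronglyMeasurable (Eventually.of_forall hk1)
  have hi2 : Integrable fun E => m0 E * (p E : ℂ) :=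
    hp.ofReal.bdd_mul hm0.aestronglyMeasurable (Eventually.of_forall hB0)
  rw [← integral_sub hi1 hi2]
  have hd : Integrable fun E => |q k E - p E| := ((hq k).sub hp).abs
  have h2 : ‖∫ E, (m k E * (q k E : ℂ) - m0 E * (p E : ℂ))‖ ≤
      ∫ E, (B * |q k E - p E| + r k * |p E|) := by
    refine norm_integral_le_of_norm_le ((hd.const_mul _).add (hp.abs.const_mul _))
      (Eventually.of_forall fun E => ?_)
    have e : m k E * (q k E : ℂ) - m0 E * (p E : ℂ) =
        m k E * ((q k E - p E : ℝ) : ℂ) + (m k E - m0 E) * (p E : ℂ) := by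
      push_cast; ring
    rw [e]
    refine (norm_add_le _ _).trans ?_
    rw [norm_mul, norm_mul, Complex.norm_real, Complex.norm_real, Real.norm_eq_abs,
      Real.norm_eq_abs]
    exact add_le_add (mul_le_mul_of_nonneg_right (hk1 E) (abs_nonneg _))
      (mul_le_mul_of_nonneg_right (hk2 E) (abs_nonneg _))
  rwa [integral_add (hd.const_mul _) (hp.abs.const_mul _), integral_const_mul,
    integral_const_mul] at h2

/-! ## the resolvent part -/

section res

variable {X : Type*} [NormedAddCommGroup X] [InnerProductSpace ℂ X] [CompleteSpace X]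
  {D : ℂ → X →L[ℂ] X}

/-- `(A - c(E)) (H - E - iε)⁻¹ u` -/
def Ph (D : ℂ → X →L[ℂ] X) (A : X →L[ℂ] X) (c : ℝ → ℂ) (ε E : ℝ) (u : X) : X :=
  A (D (zz ε E) u) - c E • D (zz ε E) u

variable (A : X →L[ℂ] X) {c : ℝ → ℂ} {C : ℝ}

theorem norm_Ph_le (hC : ∀ E, ‖c E‖ ≤ C) (ε E : ℝ) (u : X) :
    ‖Ph D A c ε E u‖ ≤ (‖A‖ + C) * ‖D (zz ε E) u‖ := by
  unfold Ph
  refine (norm_sub_le _ _).trans ?_
  rw [norm_smul, add_mul]
  exact add_le_add (A.le_opNorm _) (mul_le_mul_of_nonneg_right (hC E) (norm_nonneg _))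

theorem Ph_add (ε E : ℝ) (u v : X) :
    Ph D A c ε E (u + v) = Ph D A c ε E u + Ph D A c ε E v := by
  unfold Ph
  rw [map_add, map_add, smul_add]
  abel

theorem Ph_smul (ε E : ℝ) (a : ℂ) (u : X) :
    Ph D A c ε E (a • u) = a • Ph D A c ε E u := by
  unfold Ph
  rw [map_smul, map_smul, smul_sub, smul_comm]

theorem Ph_sum {ι : Type*} (ε E : ℝ) (F : Finset ι) (u : ι → X) :
    Ph D A c ε E (∑ i ∈ F, u i) = ∑ i ∈ F, Ph D A c ε E (u i) := by
  classical
  induction F using Finset.induction_on with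
  | empty => simp [Ph]
  | insert a s ha ih => rw [Finset.sum_insert ha, Finset.sum_insert ha, Ph_add, ih]

theorem Ph_aesm (hD : IsRes D) (hc : Measurable c) {ε : ℝ} (hε : ε ≠ 0) (u : X) :
    AEStronglyMeasurable (fun E => Ph D A c ε E u) volume := by
  unfold Ph
  have h1 := hD.cont_line hε u
  exact ((A.continuous.comp h1).aestronglyMeasurable).sub
    (hc.aestronglyMeasurable.smul h1.aestronglyMeasurable)

theorem tendsto_h (hD : IsRes D) (hc : Measurable c) (hC : ∀ E, ‖c E‖ ≤ C)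
    {e : ℕ → ℝ} (he : ∀ k, 0 < e k) {ψ : X} {p : ℝ → ℝ} (hp : Integrable p)
    (hL : Tendsto (fun k => ∫ E, |e k * ‖D (zz (e k) E) ψ‖ ^ 2 - p E|) atTop (𝓝 0))
    (happ : ∀ η : ℝ, 0 < η → ∃ r : X, ‖r‖ ≤ η ∧ ∀ᵐ E : ℝ,
      Tendsto (fun k => Real.sqrt (e k) * ‖Ph D A c (e k) E (ψ - r)‖) atTop (𝓝 0)) :
    Tendsto (fun k => ∫ E, e k * ‖Ph D A c (e k) E ψ‖ ^ 2) atTop (𝓝 0) := by
  have hC0 : 0 ≤ C := (norm_nonneg _).trans (hC 0)
  set K : ℝ := ‖A‖ + C with hK
  have hK0 : 0 ≤ K := by positivity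
  have hqi : ∀ k u, Integrable fun E => e k * ‖D (zz (e k) E) u‖ ^ 2 := fun k u =>
    (hD.integrable_sq (he k) u).const_mul _
  have hhm : ∀ k u, AEStronglyMeasurable (fun E => e k * ‖Ph D A c (e k) E u‖ ^ 2) volume :=
    fun k u => ((Ph_aesm A hD hc (he k).ne' u).norm.pow 2).const_mul _
  have hhb : ∀ k E u, e k * ‖Ph D A c (e k) E u‖ ^ 2 ≤ K ^ 2 * (e k * ‖D (zz (e k) E) u‖ ^ 2) := by
    intro k E u
    have h1 := norm_Ph_le (D := D) A hC (e k) E u
    have h2 : ‖Ph D A c (e k) E u‖ ^ 2 ≤ (K * ‖D (zz (e k) E) u‖) ^ 2 := by gcongr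
    calc e k * ‖Ph D A c (e k) E u‖ ^ 2 ≤ e k * (K * ‖D (zz (e k) E) u‖) ^ 2 :=
          mul_le_mul_of_nonneg_left h2 (he k).le
      _ = _ := by ring
  have hhi : ∀ k u, Integrable fun E => e k * ‖Ph D A c (e k) E u‖ ^ 2 := by
    intro k u
    refine ((hqi k u).const_mul (K ^ 2)).mono' (hhm k u) (Eventually.of_forall fun E => ?_)
    rw [Real.norm_eq_abs, abs_of_nonneg (mul_nonneg (he k).le (sq_nonneg _))]
    exact hhb k E u
  rw [Metric.tendsto_atTop]
  intro η hη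
  -- choose the remainder
  obtain ⟨r, hr, hae⟩ := happ (Real.sqrt (η / (8 * (K ^ 2 + 1) * Real.pi)))
    (Real.sqrt_pos.2 (by positivity))
  have hr2 : 2 * K ^ 2 * (Real.pi * ‖r‖ ^ 2) ≤ η / 4 := by
    have h1 : ‖r‖ ^ 2 ≤ η / (8 * (K ^ 2 + 1) * Real.pi) := by
      calc ‖r‖ ^ 2 ≤ (Real.sqrt (η / (8 * (K ^ 2 + 1) * Real.pi))) ^ 2 := by gcongr
        _ = _ := Real.sq_sqrt (by positivity)
    calc 2 * K ^ 2 * (Real.pi * ‖r‖ ^ 2)
        ≤ 2 * (K ^ 2 + 1) * (Real.pi * (η / (8 * (K ^ 2 + 1) * Real.pi))) := by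
          gcongr
          linarith only
      _ = η / 4 := by
          have : Real.pi ≠ 0 := Real.pi_ne_zero
          have : K ^ 2 + 1 ≠ 0 := by positivity
          field_simp
          ring
  set a : ℕ → ℝ → ℝ := fun k E => 2 * (Real.sqrt (e k) * ‖Ph D A c (e k) E (ψ - r)‖) ^ 2 with ha
  set c0 : ℝ → ℝ := fun E => K ^ 2 * |p E| with hc0
  have hc0i : Integrable c0 := hp.abs.const_mul _
  have ham : ∀ k, AEStronglyMeasurable (a k) volume := fun k =>
    ((((Ph_aesm A hD hc (he k).ne' (ψ - r)).norm).const_mul (Real.sqrt (e k))).pow 2).const_mul 2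
  have hmin_m : ∀ k, AEStronglyMeasurable (fun E => min (a k E) (c0 E)) volume := fun k =>
    (ham k).inf hc0i.aestronglyMeasurable
  have hmin_b : ∀ k E, ‖min (a k E) (c0 E)‖ ≤ c0 E := by
    intro k E
    have h1 : 0 ≤ a k E := by rw [ha]; positivity
    have h2 : 0 ≤ c0 E := by rw [hc0]; positivity
    rw [Real.norm_eq_abs, abs_of_nonneg (le_min h1 h2)]
    exact min_le_right _ _
  have hmin_i : ∀ k, Integrable fun E => min (a k E) (c0 E) := fun k =>
    hc0i.mono' (hmin_m k) (Eventually.of_forall (hmin_b k))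
  have hlim : Tendsto (fun k => ∫ E, min (a k E) (c0 E)) atTop (𝓝 (∫ _ : ℝ, (0:ℝ))) := by
    refine tendsto_integral_of_dominated_convergence c0 hmin_m hc0i
      (fun k => Eventually.of_forall (hmin_b k)) ?_
    filter_upwards [hae] with E hE
    have h1 : Tendsto (fun k => a k E) atTop (𝓝 0) := by
      have := (hE.pow 2).const_mul 2
      simpa [ha] using this
    have h2 : Tendsto (fun k => min (a k E) (c0 E)) atTop (𝓝 (min 0 (c0 E))) :=
      h1.min tendsto_const_nhds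
    have h3 : 0 ≤ c0 E := by rw [hc0]; positivity
    rwa [min_eq_left h3] at h2
  rw [integral_zero] at hlim
  rw [Metric.tendsto_atTop] at hlim hL
  obtain ⟨N1, hN1⟩ := hlim (η / 4) (by positivity)
  obtain ⟨N2, hN2⟩ := hL (η / (4 * (K ^ 2 + 1))) (by positivity)
  refine ⟨max N1 N2, fun k hk => ?_⟩
  have h1 := hN1 k ((le_max_left _ _).trans hk)
  have h2 := hN2 k ((le_max_right _ _).trans hk)
  rw [Real.dist_eq, sub_zero] at h1 h2
  have hdi : Integrable fun E => |e k * ‖D (zz (e k) E) ψ‖ ^ 2 - p E| := ((hqi k ψ).sub hp).abs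
  have hpt : ∀ E, e k * ‖Ph D A c (e k) E ψ‖ ^ 2 ≤ min (a k E) (c0 E) +
      2 * K ^ 2 * (e k * ‖D (zz (e k) E) r‖ ^ 2) +
      K ^ 2 * |e k * ‖D (zz (e k) E) ψ‖ ^ 2 - p E| := by
    intro E
    have g1 := hhb k E ψ
    have g2 := hhb k E r
    have g3 : e k * ‖Ph D A c (e k) E ψ‖ ^ 2 ≤ a k E + 2 * (e k * ‖Ph D A c (e k) E r‖ ^ 2) := by
      have e1 : Ph D A c (e k) E ψ = Ph D A c (e k) E (ψ - r) + Ph D A c (e k) E r := by
        rw [← Ph_add, sub_add_cancel]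
      have e2 : ‖Ph D A c (e k) E ψ‖ ≤ ‖Ph D A c (e k) E (ψ - r)‖ + ‖Ph D A c (e k) E r‖ := by
        rw [e1]; exact norm_add_le _ _
      have e3 : ‖Ph D A c (e k) E ψ‖ ^ 2 ≤
          2 * ‖Ph D A c (e k) E (ψ - r)‖ ^ 2 + 2 * ‖Ph D A c (e k) E r‖ ^ 2 := by
        have := norm_nonneg (Ph D A c (e k) E ψ)
        nlinarith only [sq_nonneg (‖Ph D A c (e k) E (ψ - r)‖ - ‖Ph D A c (e k) E r‖), e2, this]
      have e4 : a k E = 2 * (e k * ‖Ph D A c (e k) E (ψ - r)‖ ^ 2) := by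
        rw [ha]
        simp only
        rw [mul_pow, Real.sq_sqrt (he k).le]
      rw [e4]
      have := mul_le_mul_of_nonneg_left e3 (he k).le
      linarith only [this]
    have g4 : e k * ‖D (zz (e k) E) ψ‖ ^ 2 ≤ |p E| + |e k * ‖D (zz (e k) E) ψ‖ ^ 2 - p E| := by
      have := le_abs_self (e k * ‖D (zz (e k) E) ψ‖ ^ 2 - p E)
      have := le_abs_self (p E)
      linarith
    have g5 : K ^ 2 * (e k * ‖D (zz (e k) E) ψ‖ ^ 2) ≤
        c0 E + K ^ 2 * |e k * ‖D (zz (e k) E) ψ‖ ^ 2 - p E| := by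
      rw [hc0]
      simp only
      rw [← mul_add]
      exact mul_le_mul_of_nonneg_left g4 (by positivity)
    have g6 : 0 ≤ K ^ 2 * |e k * ‖D (zz (e k) E) ψ‖ ^ 2 - p E| := by positivity
    have g7 : 0 ≤ 2 * K ^ 2 * (e k * ‖D (zz (e k) E) r‖ ^ 2) := by
      have := (he k).le
      positivity
    rcases le_total (a k E) (c0 E) with h | h
    · rw [min_eq_left h]
      linarith only [g2, g3, g6]
    · rw [min_eq_right h]
      linarith only [g1, g5, g7]
  have hint : ∫ E, e k * ‖Ph D A c (e k) E ψ‖ ^ 2 ≤ (∫ E, min (a k E) (c0 E)) +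
      2 * K ^ 2 * (Real.pi * ‖r‖ ^ 2) +
      K ^ 2 * ∫ E, |e k * ‖D (zz (e k) E) ψ‖ ^ 2 - p E| := by
    have h3 := integral_mono (hhi k ψ) (((hmin_i k).add ((hqi k r).const_mul (2 * K ^ 2))).add
      (hdi.const_mul (K ^ 2))) hpt
    have h4 : ∫ E, (min (a k E) (c0 E) + 2 * K ^ 2 * (e k * ‖D (zz (e k) E) r‖ ^ 2) +
      K ^ 2 * |e k * ‖D (zz (e k) E) ψ‖ ^ 2 - p E|) = (∫ E, min (a k E) (c0 E)) +
      2 * K ^ 2 * (∫ E, e k * ‖D (zz (e k) E) r‖ ^ 2) +
      K ^ 2 * ∫ E, |e k * ‖D (zz (e k) E) ψ‖ ^ 2 - p E| := by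
      have i12 : Integrable fun E => min (a k E) (c0 E) +
          2 * K ^ 2 * (e k * ‖D (zz (e k) E) r‖ ^ 2) :=
        (hmin_i k).add ((hqi k r).const_mul (2 * K ^ 2))
      rw [integral_add i12 (hdi.const_mul (K ^ 2)),
        integral_add (hmin_i k) ((hqi k r).const_mul (2 * K ^ 2)),
        integral_const_mul (2 * K ^ 2), integral_const_mul (K ^ 2)]
    have h5 : ∫ E, e k * ‖D (zz (e k) E) r‖ ^ 2 = Real.pi * ‖r‖ ^ 2 := by
      rw [integral_const_mul, hD.integral_sq (he k)]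
      have := (he k).ne'
      field_simp
    rw [← h5, ← h4]
    exact h3
  have h6 : K ^ 2 * ∫ E, |e k * ‖D (zz (e k) E) ψ‖ ^ 2 - p E| ≤ η / 4 := by
    have h7 : ∫ E, |e k * ‖D (zz (e k) E) ψ‖ ^ 2 - p E| ≤ η / (4 * (K ^ 2 + 1)) :=
      (le_abs_self _).trans h2.le
    have h8 : 0 ≤ ∫ E, |e k * ‖D (zz (e k) E) ψ‖ ^ 2 - p E| :=
      integral_nonneg fun E => abs_nonneg _
    calc K ^ 2 * ∫ E, |e k * ‖D (zz (e k) E) ψ‖ ^ 2 - p E|
        ≤ (K ^ 2 + 1) * (η / (4 * (K ^ 2 + 1))) := by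
          gcongr
          linarith only
      _ = η / 4 := by field_simp
  have h9 : ∫ E, min (a k E) (c0 E) < η / 4 := (le_abs_self _).trans_lt h1
  have h10 : 0 ≤ ∫ E, e k * ‖Ph D A c (e k) E ψ‖ ^ 2 :=
    integral_nonneg fun E => mul_nonneg (he k).le (sq_nonneg _)
  rw [Real.dist_eq, sub_zero, abs_of_nonneg h10]
  linarith only [hη, hr2, hint, h6, h9]

/-- the norm identity -/
theorem norm_identity (hD : IsRes D) (hcomm : ∀ z : ℂ, z.im ≠ 0 → ∀ f : X, A (D z f) = D z (A f))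
    (hc : Measurable c) (hC : ∀ E, ‖c E‖ ≤ C)
    {e : ℕ → ℝ} (he : ∀ k, 0 < e k) {ψ : X} {p : ℝ → ℝ} (hp : Integrable p)
    (hL : Tendsto (fun k => ∫ E, |e k * ‖D (zz (e k) E) ψ‖ ^ 2 - p E|) atTop (𝓝 0))
    (hh : Tendsto (fun k => ∫ E, e k * ‖Ph D A c (e k) E ψ‖ ^ 2) atTop (𝓝 0)) :
    ((Real.pi * ‖A ψ‖ ^ 2 : ℝ) : ℂ) = ∫ E, ((‖c E‖ ^ 2 : ℝ) : ℂ) * (p E : ℂ) := by
  have hC0 : 0 ≤ C := (norm_nonneg _).trans (hC 0)
  set K : ℝ := ‖A‖ + C with hK
  have hK0 : 0 ≤ K := by positivity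
  have hqi : ∀ k u, Integrable fun E => e k * ‖D (zz (e k) E) u‖ ^ 2 := fun k u =>
    (hD.integrable_sq (he k) u).const_mul _
  have hqint : ∀ k u, ∫ E, e k * ‖D (zz (e k) E) u‖ ^ 2 = Real.pi * ‖u‖ ^ 2 := by
    intro k u
    rw [integral_const_mul, hD.integral_sq (he k)]
    have := (he k).ne'
    field_simp
  have hPi : ∀ k, Integrable fun E => e k * ‖Ph D A c (e k) E ψ‖ ^ 2 := by
    intro k
    refine ((hqi k ψ).const_mul (K ^ 2)).mono'
      (((Ph_aesm A hD hc (he k).ne' ψ).norm.pow 2).const_mul _) (Eventually.of_forall fun E => ?_)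
    rw [Real.norm_eq_abs, abs_of_nonneg (mul_nonneg (he k).le (sq_nonneg _))]
    have h1 := norm_Ph_le (D := D) A hC (e k) E ψ
    have h2 : ‖Ph D A c (e k) E ψ‖ ^ 2 ≤ (K * ‖D (zz (e k) E) ψ‖) ^ 2 := by gcongr
    calc e k * ‖Ph D A c (e k) E ψ‖ ^ 2 ≤ e k * (K * ‖D (zz (e k) E) ψ‖) ^ 2 :=
          mul_le_mul_of_nonneg_left h2 (he k).le
      _ = _ := by ring
  set F : ℕ → ℝ → ℂ := fun k E => ((e k * ‖A (D (zz (e k) E) ψ)‖ ^ 2 : ℝ) : ℂ) with hF
  set G : ℕ → ℝ → ℂ := fun k E => ((‖c E‖ ^ 2 : ℝ) : ℂ) *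
    ((e k * ‖D (zz (e k) E) ψ‖ ^ 2 : ℝ) : ℂ) with hG
  have hFe : ∀ k, F k = fun E => ((e k * ‖D (zz (e k) E) (A ψ)‖ ^ 2 : ℝ) : ℂ) := by
    intro k
    funext E
    rw [hF]
    simp only
    rw [hcomm _ (by simpa using (he k).ne')]
  have hFi : ∀ k, Integrable (F k) := by
    intro k
    rw [hFe]
    exact (hqi k (A ψ)).ofReal
  have hFint : ∀ k, ∫ E, F k E = ((Real.pi * ‖A ψ‖ ^ 2 : ℝ) : ℂ) := by
    intro k
    rw [hFe]
    simp only
    rw [integral_complex_ofReal, hqint]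
  have hcm : Measurable fun E => ((‖c E‖ ^ 2 : ℝ) : ℂ) :=
    Complex.measurable_ofReal.comp (hc.norm.pow_const 2)
  have hcb : ∀ E, ‖((‖c E‖ ^ 2 : ℝ) : ℂ)‖ ≤ C ^ 2 := by
    intro E
    rw [Complex.norm_real, Real.norm_eq_abs, abs_of_nonneg (sq_nonneg _)]
    have := hC E
    gcongr
  have hGi : ∀ k, Integrable (G k) := fun k =>
    (hqi k ψ).ofReal.bdd_mul hcm.aestronglyMeasurable (Eventually.of_forall hcb)
  have h1 := lim_diff (M := 2 * K ^ 2 * (Real.pi * ‖ψ‖ ^ 2)) hFi hGi hPi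
    (g := fun k E => 2 * K ^ 2 * (e k * ‖D (zz (e k) E) ψ‖ ^ 2))
    (fun k => (hqi k ψ).const_mul _)
    (fun k => by rw [integral_const_mul, hqint]) hh (by
      intro k E δ hδ
      rw [hF, hG]
      simp only
      set u : X := D (zz (e k) E) ψ with hu
      have e1 : ((e k * ‖A u‖ ^ 2 : ℝ) : ℂ) - ((‖c E‖ ^ 2 : ℝ) : ℂ) * ((e k * ‖u‖ ^ 2 : ℝ) : ℂ) =
          ((e k * (‖A u‖ ^ 2 - ‖c E • u‖ ^ 2) : ℝ) : ℂ) := by
        rw [norm_smul]; push_cast; ring
      rw [e1, Complex.norm_real, Real.norm_eq_abs, abs_mul, abs_of_pos (he k)]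
      have e2 : Ph D A c (e k) E ψ = A u - c E • u := rfl
      rw [e2]
      set a := ‖A u‖ with ha'
      set b := ‖c E • u‖ with hb'
      have f1 : |a - b| ≤ ‖A u - c E • u‖ := abs_norm_sub_norm_le _ _
      have f2 : a ≤ K * ‖u‖ := by
        refine (A.le_opNorm u).trans ?_
        exact mul_le_mul_of_nonneg_right (by linarith) (norm_nonneg _)
      have f3 : b ≤ K * ‖u‖ := by
        rw [hb', norm_smul]
        exact mul_le_mul_of_nonneg_right (by linarith [hC E, norm_nonneg A]) (norm_nonneg _)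
      have f4 : 0 ≤ a := norm_nonneg _
      have f5 : 0 ≤ b := norm_nonneg _
      have f6 : |a ^ 2 - b ^ 2| ≤ δ⁻¹ * ‖A u - c E • u‖ ^ 2 + δ * (2 * K ^ 2 * ‖u‖ ^ 2) := by
        have g1 : |a ^ 2 - b ^ 2| = |a - b| * (a + b) := by
          rw [show a ^ 2 - b ^ 2 = (a - b) * (a + b) by ring, abs_mul,
            abs_of_nonneg (by positivity : 0 ≤ a + b)]
        rw [g1]
        set s := ‖A u - c E • u‖ with hs
        have hs0 : 0 ≤ s := norm_nonneg _
        have g2 : |a - b| * (a + b) ≤ s * (2 * (K * ‖u‖)) :=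
          mul_le_mul f1 (by linarith) (by positivity) hs0
        set v := K * ‖u‖ with hv
        have g3 : s * (2 * v) ≤ δ⁻¹ * s ^ 2 + δ * v ^ 2 := by
          have g4 : 0 ≤ δ⁻¹ * (s - δ * v) ^ 2 := by positivity
          have g5 : δ⁻¹ * (s - δ * v) ^ 2 = δ⁻¹ * s ^ 2 - 2 * s * v + δ * v ^ 2 := by
            field_simp
            ring
          linarith only [g4, g5]
        have g6 : v ^ 2 = K ^ 2 * ‖u‖ ^ 2 := by rw [hv]; ring
        have g7 : 0 ≤ δ * (K ^ 2 * ‖u‖ ^ 2) := by positivity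
        rw [g6] at g3
        linarith
      have f7 := mul_le_mul_of_nonneg_left f6 (he k).le
      calc e k * |a ^ 2 - b ^ 2| ≤ _ := f7
        _ = _ := by ring)
  have h2 : Tendsto (fun k => ∫ E, G k E) atTop (𝓝 (∫ E, ((‖c E‖ ^ 2 : ℝ) : ℂ) * (p E : ℂ))) := by
    refine lim_mul (fun k => hqi k ψ) hp hL (m := fun _ E => ((‖c E‖ ^ 2 : ℝ) : ℂ))
      (r := fun _ => 0) (B := C ^ 2) (fun _ => hcm) hcm tendsto_const_nhds
      (Eventually.of_forall fun _ => hcb) ⟨_, hcb⟩ (Eventually.of_forall fun _ E => by simp)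
  have h3 := h1.add h2
  have h4 : (fun k => ((∫ E, F k E) - ∫ E, G k E) + ∫ E, G k E) =
      fun _ => ((Real.pi * ‖A ψ‖ ^ 2 : ℝ) : ℂ) := by
    funext k
    rw [sub_add_cancel, hFint]
  rw [h4, zero_add] at h3
  exact tendsto_nhds_unique tendsto_const_nhds h3

theorem integral_shift_poisson {b : ℝ} (hb : 0 < b) (a : ℝ) :
    Integrable (fun E : ℝ => ((E - a) ^ 2 + b ^ 2)⁻¹) ∧
      ∫ E : ℝ, ((E - a) ^ 2 + b ^ 2)⁻¹ = Real.pi / b := by
  obtain ⟨h1, h2⟩ := integral_poisson hb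
  have e : (fun E : ℝ => ((E - a) ^ 2 + b ^ 2)⁻¹) = fun E => b⁻¹ * (b / ((E - a) ^ 2 + b ^ 2)) := by
    funext E
    have : (E - a) ^ 2 + b ^ 2 ≠ 0 := by positivity
    field_simp
  constructor
  · rw [e]
    exact (h1.comp_sub_right a).const_mul _
  · rw [e, integral_const_mul, integral_sub_right_eq_self (fun E : ℝ => b / (E ^ 2 + b ^ 2)) a, h2]
    field_simp

/-- the inner product identity -/
theorem inner_identity (hD : IsRes D)
    (hcomm : ∀ z : ℂ, z.im ≠ 0 → ∀ f : X, A (D z f) = D z (A f))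
    (hc : Measurable c) (hC : ∀ E, ‖c E‖ ≤ C)
    {e : ℕ → ℝ} (he : ∀ k, 0 < e k) (he0 : Tendsto e atTop (𝓝 0))
    {ψ : X} {p : ℝ → ℝ} (hp : Integrable p)
    (hL : Tendsto (fun k => ∫ E, |e k * ‖D (zz (e k) E) ψ‖ ^ 2 - p E|) atTop (𝓝 0))
    (hh : Tendsto (fun k => ∫ E, e k * ‖Ph D A c (e k) E ψ‖ ^ 2) atTop (𝓝 0))
    {w : ℂ} (hw : w.im ≠ 0) :
    (Real.pi : ℂ) * ⟪D w ψ, A ψ⟫_ℂ = ∫ E : ℝ, (c E / ((E : ℂ) - conj w)) * (p E : ℂ) := by
  have hC0 : 0 ≤ C := (norm_nonneg _).trans (hC 0)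
  set K : ℝ := ‖A‖ + C with hK
  have hK0 : 0 ≤ K := by positivity
  have hqi : ∀ k u, Integrable fun E => e k * ‖D (zz (e k) E) u‖ ^ 2 := fun k u =>
    (hD.integrable_sq (he k) u).const_mul _
  have hqint : ∀ k u, ∫ E, e k * ‖D (zz (e k) E) u‖ ^ 2 = Real.pi * ‖u‖ ^ 2 := by
    intro k u
    rw [integral_const_mul, hD.integral_sq (he k)]
    have := (he k).ne'
    field_simp
  have hPi : ∀ k, Integrable fun E => e k * ‖Ph D A c (e k) E ψ‖ ^ 2 := by
    intro k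
    refine ((hqi k ψ).const_mul (K ^ 2)).mono'
      (((Ph_aesm A hD hc (he k).ne' ψ).norm.pow 2).const_mul _) (Eventually.of_forall fun E => ?_)
    rw [Real.norm_eq_abs, abs_of_nonneg (mul_nonneg (he k).le (sq_nonneg _))]
    have h1 := norm_Ph_le (D := D) A hC (e k) E ψ
    have h2 : ‖Ph D A c (e k) E ψ‖ ^ 2 ≤ (K * ‖D (zz (e k) E) ψ‖) ^ 2 := by gcongr
    calc e k * ‖Ph D A c (e k) E ψ‖ ^ 2 ≤ e k * (K * ‖D (zz (e k) E) ψ‖) ^ 2 :=
          mul_le_mul_of_nonneg_left h2 (he k).le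
      _ = _ := by ring
  have hzk : ∀ k E, (zz (e k) E).im ≠ 0 := fun k E => by simpa using (he k).ne'
  set F : ℕ → ℝ → ℂ := fun k E => (e k : ℂ) *
    ⟪D (zz (e k) E) (D w ψ), A (D (zz (e k) E) ψ)⟫_ℂ with hF
  set G : ℕ → ℝ → ℂ := fun k E => (e k : ℂ) *
    ⟪D (zz (e k) E) (D w ψ), c E • D (zz (e k) E) ψ⟫_ℂ with hG
  have hFe : ∀ k, F k = fun E => (e k : ℂ) * ⟪D (zz (e k) E) (D w ψ), D (zz (e k) E) (A ψ)⟫_ℂ := by
    intro k
    funext E
    rw [hF]
    simp only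
    rw [hcomm _ (hzk k E)]
  have hFi : ∀ k, Integrable (F k) := by
    intro k
    rw [hFe]
    exact (hD.integrable_inner (he k) (D w ψ) (A ψ)).const_mul _
  have hFint : ∀ k, ∫ E, F k E = (Real.pi : ℂ) * ⟪D w ψ, A ψ⟫_ℂ := by
    intro k
    rw [hFe, integral_const_mul, hD.integral_inner (he k)]
    have : (e k : ℂ) ≠ 0 := by exact_mod_cast (he k).ne'
    push_cast
    field_simp
  have hGe : ∀ k, G k = fun E => c E * ((e k : ℂ) *
      ⟪D (zz (e k) E) (D w ψ), D (zz (e k) E) ψ⟫_ℂ) := by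
    intro k
    funext E
    rw [hG]
    simp only
    rw [inner_smul_right]
    ring
  have hGi : ∀ k, Integrable (G k) := by
    intro k
    rw [hGe]
    exact ((hD.integrable_inner (he k) (D w ψ) ψ).const_mul _).bdd_mul hc.aestronglyMeasurable
      (Eventually.of_forall hC)
  have h1 := lim_diff (M := Real.pi * ‖D w ψ‖ ^ 2) hFi hGi hPi
    (g := fun k E => e k * ‖D (zz (e k) E) (D w ψ)‖ ^ 2)
    (fun k => hqi k _) (fun k => by rw [hqint]) hh (by
      intro k E δ hδ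
      rw [hF, hG]
      simp only
      rw [← mul_sub, ← inner_sub_right, norm_mul, Complex.norm_real, Real.norm_eq_abs,
        abs_of_pos (he k)]
      have f1 := norm_inner_le_norm (𝕜 := ℂ) (D (zz (e k) E) (D w ψ))
        (A (D (zz (e k) E) ψ) - c E • D (zz (e k) E) ψ)
      have e2 : Ph D A c (e k) E ψ = A (D (zz (e k) E) ψ) - c E • D (zz (e k) E) ψ := rfl
      rw [← e2] at f1 ⊢
      set s := ‖Ph D A c (e k) E ψ‖ with hs
      set v := ‖D (zz (e k) E) (D w ψ)‖ with hv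
      have g3 : v * s ≤ δ⁻¹ * s ^ 2 + δ * v ^ 2 := by
        have g4 : 0 ≤ δ⁻¹ * (s - δ * v) ^ 2 := by positivity
        have g5 : δ⁻¹ * (s - δ * v) ^ 2 = δ⁻¹ * s ^ 2 - 2 * s * v + δ * v ^ 2 := by
          field_simp
          ring
        have : 0 ≤ v * s := by positivity
        linarith
      have f7 := mul_le_mul_of_nonneg_left (f1.trans g3) (he k).le
      calc _ ≤ _ := f7
        _ = _ := by ring)
  -- the limit of the second sequence
  set y : ℝ := |w.im| with hy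
  have hy0 : 0 < y := abs_pos.2 hw
  have hev : ∀ᶠ k in atTop, e k ≤ y / 2 := by
    have := he0.eventually (Iio_mem_nhds (show (0:ℝ) < y / 2 by positivity))
    filter_upwards [this] with k hk
    exact le_of_lt hk
  have hden : ∀ k, e k ≤ y / 2 → ∀ E, (E - w.re) ^ 2 + (y / 2) ^ 2 ≤ ‖zz (e k) E - w‖ ^ 2 := by
    intro k hk E
    rw [← Complex.normSq_eq_norm_sq, Complex.normSq_apply]
    simp only [Complex.sub_re, zz_re, Complex.sub_im, zz_im]
    have f1 : y / 2 ≤ |e k - w.im| := by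
      have := abs_sub_abs_le_abs_sub w.im (e k)
      rw [abs_of_pos (he k), abs_sub_comm] at this
      linarith only [hk, this]
    have f2 : (y / 2) ^ 2 ≤ (e k - w.im) ^ 2 := by
      rw [← sq_abs (e k - w.im)]
      gcongr
    nlinarith only [f2]
  have hnorm : ∀ k, e k ≤ y / 2 → ∀ E, y / 2 ≤ ‖zz (e k) E - w‖ := by
    intro k hk E
    have f1 := hden k hk E
    have f2 := norm_nonneg (zz (e k) E - w)
    nlinarith only [sq_nonneg (E - w.re), hy0, f1, f2]
  have hne : ∀ k, e k ≤ y / 2 → ∀ E, zz (e k) E - w ≠ 0 := by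
    intro k hk E h0
    have := hnorm k hk E
    rw [h0, norm_zero] at this
    linarith only [hy0, this]
  have hne' : ∀ k, e k ≤ y / 2 → ∀ E, conj (zz (e k) E - w) ≠ 0 := by
    intro k hk E h0
    exact hne k hk E ((map_eq_zero _).1 h0)
  have hne0 : ∀ E : ℝ, (E : ℂ) - conj w ≠ 0 := by
    intro E h0
    apply hw
    have := congrArg Complex.im h0
    simpa using this
  have hnorm0 : ∀ E : ℝ, y ≤ ‖(E : ℂ) - conj w‖ := by
    intro E
    have := Complex.abs_im_le_norm ((E : ℂ) - conj w)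
    simpa using this
  set m : ℕ → ℝ → ℂ := fun k E => c E / conj (zz (e k) E - w) with hm
  set m0 : ℝ → ℂ := fun E => c E / ((E : ℂ) - conj w) with hm0
  set s : ℕ → ℝ → ℂ := fun k E => m k E * ((e k : ℂ) * ⟪D w ψ, D (zz (e k) E) ψ⟫_ℂ) with hs
  have hzzc : ∀ k, Continuous (zz (e k)) := fun k => continuous_zz (e k)
  have hmm : ∀ k, Measurable (m k) := fun k =>
    hc.div ((Complex.continuous_conj.comp ((hzzc k).sub continuous_const)).measurable)
  have hm0m : Measurable m0 :=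
    hc.div ((Complex.continuous_ofReal.sub continuous_const).measurable)
  have hGsplit : ∀ k, e k ≤ y / 2 → ∀ E, G k E =
      m k E * ((e k * ‖D (zz (e k) E) ψ‖ ^ 2 : ℝ) : ℂ) - s k E := by
    intro k hk E
    rw [hGe, hs, hm]
    simp only
    set z := zz (e k) E with hz
    have i1 : D z ψ - D w ψ = (z - w) • D z (D w ψ) := hD.ident_apply (hzk k E) hw ψ
    have i2 : ⟪D z ψ, D z ψ⟫_ℂ - ⟪D w ψ, D z ψ⟫_ℂ = conj (z - w) * ⟪D z (D w ψ), D z ψ⟫_ℂ := by
      rw [← inner_sub_left, i1, inner_smul_left]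
    rw [inner_self_eq_norm_sq_to_K] at i2
    have i3 : ⟪D z (D w ψ), D z ψ⟫_ℂ = (((‖D z ψ‖ : ℝ) : ℂ) ^ 2 - ⟪D w ψ, D z ψ⟫_ℂ) /
        conj (z - w) := by
      rw [eq_div_iff (hne' k hk E), mul_comm, ← i2]; rfl
    rw [i3]
    push_cast
    ring
  -- bounds for `s`
  have hsb : ∀ k, e k ≤ y / 2 → ∀ E, ‖s k E‖ ≤ C * ‖D w ψ‖ * Real.sqrt (e k) *
      (e k * ‖D (zz (e k) E) ψ‖ ^ 2 + ((E - w.re) ^ 2 + (y / 2) ^ 2)⁻¹) := by
    intro k hk E
    rw [hs, hm]
    simp only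
    rw [norm_mul, norm_div, RCLike.norm_conj, norm_mul, Complex.norm_real, Real.norm_eq_abs,
      abs_of_pos (he k)]
    set n := ‖zz (e k) E - w‖ with hn
    have n0 : 0 < n := norm_pos_iff.2 (hne k hk E)
    have f1 := norm_inner_le_norm (𝕜 := ℂ) (D w ψ) (D (zz (e k) E) ψ)
    set v := ‖D (zz (e k) E) ψ‖ with hv
    have v0 : 0 ≤ v := norm_nonneg _
    set r := Real.sqrt (e k) with hr
    have r0 : 0 ≤ r := Real.sqrt_nonneg _
    have hr2 : e k = r * r := (Real.mul_self_sqrt (he k).le).symm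
    have f2 : (n ^ 2)⁻¹ ≤ ((E - w.re) ^ 2 + (y / 2) ^ 2)⁻¹ :=
      inv_anti₀ (by positivity) (hden k hk E)
    have f3 : r * v * n⁻¹ ≤ e k * v ^ 2 + (n ^ 2)⁻¹ := by
      have g1 : 0 ≤ (r * v - n⁻¹) ^ 2 := sq_nonneg _
      have g2 : (r * v - n⁻¹) ^ 2 = e k * v ^ 2 - 2 * (r * v * n⁻¹) + (n ^ 2)⁻¹ := by
        rw [hr2, ← inv_pow]; ring
      have g3 : 0 ≤ r * v * n⁻¹ := by positivity
      linarith only [g1, g2, g3]
    calc ‖c E‖ / n * (e k * ‖⟪D w ψ, D (zz (e k) E) ψ⟫_ℂ‖)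
        ≤ C / n * (e k * (‖D w ψ‖ * v)) := by
          have := hC E
          have := (he k).le
          gcongr
      _ = C * ‖D w ψ‖ * r * (r * v * n⁻¹) := by
          rw [hr2]; field_simp
      _ ≤ C * ‖D w ψ‖ * r * (e k * v ^ 2 + (n ^ 2)⁻¹) := by gcongr
      _ ≤ _ := by gcongr
  obtain ⟨hsp1, hsp2⟩ := integral_shift_poisson (show 0 < y / 2 by positivity) w.re
  have hslim : Tendsto (fun k => ∫ E, s k E) atTop (𝓝 0) := by
    have hb : Tendsto (fun k => C * ‖D w ψ‖ * Real.sqrt (e k) *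
        (Real.pi * ‖ψ‖ ^ 2 + Real.pi / (y / 2))) atTop (𝓝 0) := by
      have h3 : Tendsto (fun k => Real.sqrt (e k)) atTop (𝓝 0) := by
        have := (Real.continuous_sqrt.tendsto 0).comp he0
        rwa [Real.sqrt_zero] at this
      have h4 := (h3.const_mul (C * ‖D w ψ‖)).mul_const (Real.pi * ‖ψ‖ ^ 2 + Real.pi / (y / 2))
      simpa using h4
    refine squeeze_zero_norm' ?_ hb
    filter_upwards [hev] with k hk
    refine (norm_integral_le_of_norm_le (((hqi k ψ).add hsp1).const_mul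
      (C * ‖D w ψ‖ * Real.sqrt (e k))) (Eventually.of_forall fun E => hsb k hk E)).trans ?_
    rw [integral_const_mul]
    have h5 : ∫ E, ((fun E => e k * ‖D (zz (e k) E) ψ‖ ^ 2) +
        (fun E => ((E - w.re) ^ 2 + (y / 2) ^ 2)⁻¹) : ℝ → ℝ) E =
        Real.pi * ‖ψ‖ ^ 2 + Real.pi / (y / 2) := by
      rw [integral_add' (hqi k ψ) hsp1, hqint, hsp2]
    rw [h5]
  have hsi : ∀ k, e k ≤ y / 2 → Integrable (s k) := by
    intro k hk
    refine (((hqi k ψ).add hsp1).const_mul (C * ‖D w ψ‖ * Real.sqrt (e k))).mono' ?_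
      (Eventually.of_forall fun E => hsb k hk E)
    refine (hmm k).aestronglyMeasurable.mul ?_
    exact ((continuous_const.inner (hD.cont_line (he k).ne' ψ)).aestronglyMeasurable).const_mul _
  have hmB : ∀ k, e k ≤ y / 2 → ∀ E, ‖m k E‖ ≤ C / (y / 2) := by
    intro k hk E
    rw [hm]
    simp only
    rw [norm_div, RCLike.norm_conj]
    have := hC E
    have := hnorm k hk E
    gcongr
  have h2 : Tendsto (fun k => ∫ E, m k E * ((e k * ‖D (zz (e k) E) ψ‖ ^ 2 : ℝ) : ℂ)) atTop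
      (𝓝 (∫ E, m0 E * (p E : ℂ))) := by
    refine lim_mul (fun k => hqi k ψ) hp hL (r := fun k => e k * (C * (2 / (y * y))))
      (B := C / (y / 2)) hmm hm0m ?_ ?_ ?_ ?_
    · have := he0.mul_const (C * (2 / (y * y)))
      simpa using this
    · filter_upwards [hev] with k hk
      exact hmB k hk
    · refine ⟨C / y, fun E => ?_⟩
      rw [hm0]
      simp only
      rw [norm_div]
      have := hC E
      have := hnorm0 E
      gcongr
    · filter_upwards [hev] with k hk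
      intro E
      rw [hm, hm0]
      simp only
      have e1 : conj (zz (e k) E - w) = ((E : ℂ) - conj w) - (e k : ℂ) * Complex.I := by
        unfold zz
        simp only [map_sub, map_add, map_mul, Complex.conj_ofReal, Complex.conj_I]
        ring
      have e2 : c E / conj (zz (e k) E - w) - c E / ((E : ℂ) - conj w) =
          c E * ((e k : ℂ) * Complex.I) / (conj (zz (e k) E - w) * ((E : ℂ) - conj w)) := by
        rw [div_sub_div _ _ (hne' k hk E) (hne0 E)]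
        congr 1
        rw [e1]
        ring
      rw [e2, norm_div, norm_mul, norm_mul, norm_mul, RCLike.norm_conj, Complex.norm_I, mul_one,
        Complex.norm_real, Real.norm_eq_abs, abs_of_pos (he k)]
      have f1 := hnorm k hk E
      have f2 := hnorm0 E
      have f3 := hC E
      have f4 := (he k).le
      calc ‖c E‖ * e k / (‖zz (e k) E - w‖ * ‖(E : ℂ) - conj w‖)
          ≤ C * e k / (y / 2 * y) := by gcongr
        _ = _ := by field_simp
  have h3 : Tendsto (fun k => ∫ E, G k E) atTop (𝓝 (∫ E, m0 E * (p E : ℂ))) := by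
    have h4 := h2.sub hslim
    rw [sub_zero] at h4
    refine h4.congr' ?_
    filter_upwards [hev] with k hk
    have hi1 : Integrable fun E => m k E * ((e k * ‖D (zz (e k) E) ψ‖ ^ 2 : ℝ) : ℂ) :=
      (hqi k ψ).ofReal.bdd_mul (hmm k).aestronglyMeasurable (Eventually.of_forall (hmB k hk))
    rw [← integral_sub hi1 (hsi k hk)]
    refine integral_congr_ae (Eventually.of_forall fun E => ?_)
    exact (hGsplit k hk E).symm
  have h5 := h1.add h3
  have h6 : (fun k => ((∫ E, F k E) - ∫ E, G k E) + ∫ E, G k E) =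
      fun _ => (Real.pi : ℂ) * ⟪D w ψ, A ψ⟫_ℂ := by
    funext k
    rw [sub_add_cancel, hFint]
  rw [h6, zero_add] at h5
  exact tendsto_nhds_unique tendsto_const_nhds h5

end res

/-! ## the Anderson model -/

section anderson

variable {d : ℕ}

theorem q_eq {V : Cfg d} {ρ : ℝ → ℝ} {ψ : L2 d} (h : IsACVector V ρ ψ) {ε : ℝ} (hε : 0 < ε)
    (E : ℝ) : ε * ‖G V (zz ε E) ψ‖ ^ 2 = Pr ρ ε E := by
  have hz : (zz ε E).im ≠ 0 := by simpa using hε.ne'
  have h1 := (isRes_G V).im_inner hz ψ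
  rw [zz_im] at h1
  rw [← h1, h.2 _ hz _ (fun x => G_eq hz ψ x)]
  have hne : ∀ t : ℝ, (t : ℂ) - zz ε E ≠ 0 := fun t => real_sub_ne hz t
  have hint : Integrable (fun t : ℝ => (ρ t : ℂ) / ((t : ℂ) - zz ε E)) := by
    have e : (fun t : ℝ => (ρ t : ℂ) / ((t : ℂ) - zz ε E)) =
        fun t : ℝ => (ρ t : ℂ) * ((t : ℂ) - zz ε E)⁻¹ := by
      funext t; rw [div_eq_mul_inv]
    rw [e]
    refine h.1.ofReal.mul_bdd (c := |(zz ε E).im|⁻¹) ?_ ?_
    · have : Continuous fun t : ℝ => ((t : ℂ) - zz ε E)⁻¹ :=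
        Continuous.inv₀ (by fun_prop) hne
      exact this.aestronglyMeasurable
    · exact Eventually.of_forall fun t => norm_inv_le hz t
  have h2 : (∫ t : ℝ, (ρ t : ℂ) / ((t : ℂ) - zz ε E)).im =
      ∫ t : ℝ, ((ρ t : ℂ) / ((t : ℂ) - zz ε E)).im := (integral_im hint).symm
  rw [h2]
  unfold Pr
  congr 1
  funext t
  rw [Complex.div_im, Complex.ofReal_im, Complex.ofReal_re, Complex.normSq_apply]
  simp only [Complex.sub_re, Complex.ofReal_re, zz_re, Complex.sub_im, Complex.ofReal_im, zz_im]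
  have h3 : (t - E) * (t - E) + (0 - ε) * (0 - ε) = (t - E) ^ 2 + ε ^ 2 := by ring
  rw [h3]
  ring

theorem approx {V : Cfg d} {A : Op d} {c : ℝ → ℂ} {e : ℕ → ℝ}
    (hae : ∀ x : Site d, ∀ᵐ E : ℝ, Tendsto (fun k => Real.sqrt (e k) *
      ‖A (G V (zz (e k) E) (del x)) - c E • G V (zz (e k) E) (del x)‖) atTop (𝓝 0))
    (ψ : L2 d) (η : ℝ) (hη : 0 < η) : ∃ r : L2 d, ‖r‖ ≤ η ∧ ∀ᵐ E : ℝ,
      Tendsto (fun k => Real.sqrt (e k) * ‖Ph (G V) A c (e k) E (ψ - r)‖) atTop (𝓝 0) := by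
  have h1 : HasSum (fun x => lp.single 2 x (ψ x)) ψ := lp.hasSum_single (by norm_num) ψ
  have h2 : ∀ x, lp.single 2 x (ψ x) = ψ x • (del x : L2 d) := by
    intro x
    unfold del
    rw [← lp.single_smul, smul_eq_mul, mul_one]
  simp only [h2] at h1
  have h3 := Metric.tendsto_nhds.1 h1 η hη
  obtain ⟨F, hF⟩ := h3.exists
  refine ⟨ψ - ∑ x ∈ F, ψ x • (del x : L2 d), ?_, ?_⟩
  · rw [dist_comm, dist_eq_norm] at hF
    exact hF.le
  · have h4 : ∀ᵐ E : ℝ, ∀ x ∈ F, Tendsto (fun k => Real.sqrt (e k) *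
        ‖A (G V (zz (e k) E) (del x)) - c E • G V (zz (e k) E) (del x)‖) atTop (𝓝 0) :=
      (ae_ball_iff F.countable_toSet).2 fun x _ => hae x
    filter_upwards [h4] with E hE
    rw [sub_sub_cancel]
    have h5 : Tendsto (fun k => ∑ x ∈ F, ‖ψ x‖ * (Real.sqrt (e k) *
        ‖A (G V (zz (e k) E) (del x)) - c E • G V (zz (e k) E) (del x)‖)) atTop (𝓝 0) := by
      have : Tendsto (fun k => ∑ x ∈ F, ‖ψ x‖ * (Real.sqrt (e k) *
        ‖A (G V (zz (e k) E) (del x)) - c E • G V (zz (e k) E) (del x)‖)) atTop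
        (𝓝 (∑ x ∈ F, ‖ψ x‖ * 0)) :=
        tendsto_finsetSum F fun x hx => (hE x hx).const_mul _
      simpa using this
    refine squeeze_zero (fun k => mul_nonneg (Real.sqrt_nonneg _) (norm_nonneg _)) ?_ h5
    intro k
    rw [Ph_sum]
    calc Real.sqrt (e k) * ‖∑ x ∈ F, Ph (G V) A c (e k) E (ψ x • (del x : L2 d))‖
        ≤ Real.sqrt (e k) * ∑ x ∈ F, ‖Ph (G V) A c (e k) E (ψ x • (del x : L2 d))‖ :=
          mul_le_mul_of_nonneg_left (norm_sum_le _ _) (Real.sqrt_nonneg _)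
      _ = ∑ x ∈ F, ‖ψ x‖ * (Real.sqrt (e k) *
          ‖A (G V (zz (e k) E) (del x)) - c E • G V (zz (e k) E) (del x)‖) := by
          rw [Finset.mul_sum]
          refine Finset.sum_congr rfl fun x _ => ?_
          rw [Ph_smul, norm_smul]
          unfold Ph
          ring

theorem ac : ACStatement := by
  intro d V A hcomm c hc C hC e he he0 hae ψ ρ hac
  have hD := isRes_G V
  have hq : ∀ k, Pr ρ (e k) = fun E => e k * ‖G V (zz (e k) E) ψ‖ ^ 2 := by
    intro k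
    funext E
    exact (q_eq hac (he k) E).symm
  have hqi : ∀ k, Integrable (Pr ρ (e k)) := by
    intro k
    rw [hq]
    exact (hD.integrable_sq (he k) ψ).const_mul _
  have hp : Integrable fun E => Real.pi * ρ E := hac.1.const_mul _
  have hL : Tendsto (fun k => ∫ E, |e k * ‖G V (zz (e k) E) ψ‖ ^ 2 - Real.pi * ρ E|) atTop
      (𝓝 0) := by
    have := poisson_L1_real hac.1 he he0 hqi
    simp only [hq] at this
    exact this
  have hh := tendsto_h A hD hc hC he hp hL (fun η hη => approx hae ψ η hη)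
  have hpi : (Real.pi : ℂ) ≠ 0 := by exact_mod_cast Real.pi_ne_zero
  constructor
  · intro z hz u hu
    rw [G_unique hz hu]
    have h1 := inner_identity A hD hcomm hc hC he he0 hp hL hh hz
    have h2 : ∫ E : ℝ, (c E / ((E : ℂ) - conj z)) * ((Real.pi * ρ E : ℝ) : ℂ) =
        (Real.pi : ℂ) * ∫ E : ℝ, c E * (ρ E : ℂ) / ((E : ℂ) - conj z) := by
      rw [← integral_const_mul]
      congr 1
      funext E
      push_cast
      ring
    rw [h2] at h1
    exact mul_left_cancel₀ hpi h1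
  · have h1 := norm_identity A hD hcomm hc hC he hp hL hh
    have h2 : ∫ E, ((‖c E‖ ^ 2 : ℝ) : ℂ) * ((Real.pi * ρ E : ℝ) : ℂ) =
        ((Real.pi * ∫ E, ‖c E‖ ^ 2 * ρ E : ℝ) : ℂ) := by
      rw [← integral_const_mul, ← integral_complex_ofReal]
      congr 1
      funext E
      push_cast
      ring
    rw [h2] at h1
    have h3 : Real.pi * ‖A ψ‖ ^ 2 = Real.pi * ∫ E, ‖c E‖ ^ 2 * ρ E := by exact_mod_cast h1
    exact mul_left_cancel₀ Real.pi_ne_zero h3

end anderson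

end Pool.Agent.Helper35.AC
end
end -- Pool.Agent.Helper35_QE.AC

section -- Pool.Agent.Helper14_QE.RFApp

/-!
# Approximate functional calculus
-/

set_option autoImplicit false

open scoped InnerProductSpace ComplexConjugate Topology ENNReal
open MeasureTheory Filter

noncomputable section

namespace Pool.Agent.Helper14.QE

open Pool.Agent.QE Pool.Agent.Anderson Pool.Agent.Helper54.Bal Pool.Agent.Helper35.AC

variable {d : ℕ}

/-- single pole -/
theorem single_approx (V : Cfg d) {w : ℂ} (hw : w.im ≠ 0) {ε : ℝ} (hε : 0 < ε)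
    (hεw : ε ≤ |w.im| / 2) (E : ℝ) (f : L2 d) :
    ‖G V w (G V (zz ε E) f) - ((E : ℂ) - w)⁻¹ • G V (zz ε E) f‖ ^ 2 ≤
      2 * (2 / |w.im| ^ 2) ^ 2 * (ε ^ 2 * ‖G V (zz ε E) f‖ ^ 2) +
      2 * (|w.im|⁻¹) ^ 2 * (((E - w.re) ^ 2 + (|w.im| / 2) ^ 2)⁻¹ * ‖f‖ ^ 2) := by
  have hD := isRes_G V
  set y := |w.im| with hy
  have hy0 : 0 < y := abs_pos.2 hw
  have hz : (zz ε E).im ≠ 0 := by simpa using hε.ne'
  set z := zz ε E with hzdef
  set g := G V z f with hg
  have hden : (E - w.re) ^ 2 + (y / 2) ^ 2 ≤ ‖z - w‖ ^ 2 := by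
    rw [← Complex.normSq_eq_norm_sq, Complex.normSq_apply]
    simp only [hzdef, Complex.sub_re, zz_re, Complex.sub_im, zz_im]
    have f1 : y / 2 ≤ |ε - w.im| := by
      have := abs_sub_abs_le_abs_sub w.im ε
      rw [abs_of_pos hε, abs_sub_comm] at this
      linarith only [hεw, this]
    have f2 : (y / 2) ^ 2 ≤ (ε - w.im) ^ 2 := by
      rw [← sq_abs (ε - w.im)]
      gcongr
    nlinarith only [f2]
  have hnorm : y / 2 ≤ ‖z - w‖ := by
    have f2 := norm_nonneg (z - w)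
    nlinarith only [sq_nonneg (E - w.re), hε, hεw, hden, f2]
  have hzw0 : 0 < ‖z - w‖ := by linarith only [hε, hεw, hnorm]
  have hzw : z - w ≠ 0 := norm_pos_iff.1 hzw0
  have hEw : y ≤ ‖(E : ℂ) - w‖ := by
    have := Complex.abs_im_le_norm ((E : ℂ) - w)
    simpa using this
  have hEw0 : (E : ℂ) - w ≠ 0 := norm_pos_iff.1 (by linarith only [hε, hεw, hEw])
  have h1 : G V w g = (z - w)⁻¹ • (g - G V w f) := by
    rw [hg, hD.comm_apply hw hz, hD.ident_apply hz hw, smul_smul, inv_mul_cancel₀ hzw, one_smul]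
  have h2 : G V w g - ((E : ℂ) - w)⁻¹ • g =
      ((z - w)⁻¹ - ((E : ℂ) - w)⁻¹) • g - (z - w)⁻¹ • G V w f := by
    rw [h1, smul_sub, sub_smul]
    abel
  have h3 : ‖(z - w)⁻¹ - ((E : ℂ) - w)⁻¹‖ ≤ 2 / y ^ 2 * ε := by
    have e1 : (z - w)⁻¹ - ((E : ℂ) - w)⁻¹ = -(ε * Complex.I) / ((z - w) * ((E : ℂ) - w)) := by
      rw [inv_sub_inv hzw hEw0]
      congr 1
      rw [hzdef]
      unfold zz
      ring
    rw [e1, norm_div, norm_neg, norm_mul, norm_mul, Complex.norm_I, mul_one, Complex.norm_real,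
      Real.norm_eq_abs, abs_of_pos hε]
    calc ε / (‖z - w‖ * ‖(E : ℂ) - w‖) ≤ ε / (y / 2 * y) := by gcongr
      _ = 2 / y ^ 2 * ε := by field_simp
  have h4 : ‖G V w f‖ ≤ y⁻¹ * ‖f‖ := hD.norm_le' hw f
  rw [h2]
  have h5 : ‖((z - w)⁻¹ - ((E : ℂ) - w)⁻¹) • g - (z - w)⁻¹ • G V w f‖ ≤
      (2 / y ^ 2 * ε) * ‖g‖ + ‖z - w‖⁻¹ * (y⁻¹ * ‖f‖) := by
    refine (norm_sub_le _ _).trans ?_
    rw [norm_smul, norm_smul, norm_inv (z - w)]
    gcongr
  have h6 : (‖z - w‖⁻¹) ^ 2 ≤ ((E - w.re) ^ 2 + (y / 2) ^ 2)⁻¹ := by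
    rw [inv_pow]
    exact inv_anti₀ (by positivity) hden
  set a := (2 / y ^ 2 * ε) * ‖g‖ with ha
  set b := ‖z - w‖⁻¹ * (y⁻¹ * ‖f‖) with hb
  have ha0 : 0 ≤ a := by positivity
  have hb0 : 0 ≤ b := by positivity
  calc _ ≤ (a + b) ^ 2 := by gcongr
    _ ≤ 2 * a ^ 2 + 2 * b ^ 2 := by nlinarith only [sq_nonneg (a - b)]
    _ = 2 * (2 / y ^ 2) ^ 2 * (ε ^ 2 * ‖g‖ ^ 2) +
        2 * (y⁻¹) ^ 2 * ((‖z - w‖⁻¹) ^ 2 * ‖f‖ ^ 2) := by rw [ha, hb]; ring
    _ ≤ _ := by gcongr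

/-- all poles -/
theorem rf_approx (V : Cfg d) (p : RF) : ∃ (y0 K : ℝ) (W : ℝ → ℝ), 0 < y0 ∧ 0 ≤ K ∧
    Integrable W ∧ (∀ E, 0 ≤ W E) ∧ ∀ ε, 0 < ε → ε < y0 → ∀ (E : ℝ) (f : L2 d),
      ‖p.op V (G V (zz ε E) f) - p.ev E • G V (zz ε E) f‖ ^ 2 ≤
        K * (ε ^ 2 * ‖G V (zz ε E) f‖ ^ 2 + W E * ‖f‖ ^ 2) := by
  set y : Fin p.n → ℝ := fun i => |(p.w i).im| with hy
  have hy0 : ∀ i, 0 < y i := fun i => abs_pos.2 (p.hw i)
  set S : ℝ := 1 + ∑ i, 2 / y i with hS
  have hsum : ∀ i, 2 / y i ≤ ∑ i, 2 / y i := fun i =>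
    Finset.single_le_sum (f := fun i => 2 / y i) (fun j _ => by have := hy0 j; positivity)
      (Finset.mem_univ i)
  have hS0 : 0 < S := by
    have : 0 ≤ ∑ i, 2 / y i := Finset.sum_nonneg fun j _ => by have := hy0 j; positivity
    linarith only [this]
  set Ki : Fin p.n → ℝ := fun i => 2 * (2 / y i ^ 2) ^ 2 + 2 * ((y i)⁻¹) ^ 2 with hKi
  have hKi0 : ∀ i, 0 ≤ Ki i := fun i => by simp only [hKi]; positivity
  set Wi : Fin p.n → ℝ → ℝ := fun i E => ((E - (p.w i).re) ^ 2 + (y i / 2) ^ 2)⁻¹ with hWi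
  have hWi0 : ∀ i E, 0 ≤ Wi i E := fun i E => by simp only [hWi]; positivity
  refine ⟨S⁻¹, (p.n : ℝ) * ∑ i, ‖p.a i‖ ^ 2 * Ki i, fun E => ∑ i, Wi i E, by positivity,
    ?_, ?_, ?_, ?_⟩
  · exact mul_nonneg (Nat.cast_nonneg _)
      (Finset.sum_nonneg fun i _ => mul_nonneg (sq_nonneg _) (hKi0 i))
  · refine integrable_finsetSum _ fun i _ => ?_
    have h := hy0 i
    exact (integral_shift_poisson (show 0 < y i / 2 by positivity) (p.w i).re).1
  · intro E
    exact Finset.sum_nonneg fun i _ => hWi0 i E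
  · intro ε hε hεS E f
    have hεi : ∀ i, ε ≤ y i / 2 := by
      intro i
      have h := hy0 i
      have h1 : 2 / y i ≤ S := by linarith only [hsum i]
      have h2 : S⁻¹ ≤ (2 / y i)⁻¹ := inv_anti₀ (by positivity) h1
      rw [inv_div] at h2
      linarith only [hεS, h2]
    set g := G V (zz ε E) f with hg
    have e1 : p.op V g - p.ev E • g =
        ∑ i, p.a i • (G V (p.w i) g - ((E : ℂ) - p.w i)⁻¹ • g) := by
      unfold RF.op RF.ev
      rw [ContinuousLinearMap.sum_apply, Finset.sum_smul, ← Finset.sum_sub_distrib]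
      refine Finset.sum_congr rfl fun i _ => ?_
      rw [ContinuousLinearMap.smul_apply, smul_sub, smul_smul, div_eq_mul_inv]
    rw [e1]
    have e2 : ‖∑ i, p.a i • (G V (p.w i) g - ((E : ℂ) - p.w i)⁻¹ • g)‖ ^ 2 ≤
        (p.n : ℝ) * ∑ i, (‖p.a i‖ * ‖G V (p.w i) g - ((E : ℂ) - p.w i)⁻¹ • g‖) ^ 2 := by
      have h1 : ‖∑ i, p.a i • (G V (p.w i) g - ((E : ℂ) - p.w i)⁻¹ • g)‖ ≤
          ∑ i, ‖p.a i‖ * ‖G V (p.w i) g - ((E : ℂ) - p.w i)⁻¹ • g‖ := by
        refine (norm_sum_le _ _).trans (le_of_eq ?_)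
        exact Finset.sum_congr rfl fun i _ => norm_smul _ _
      have h2 := sq_sum_le_card_mul_sum_sq (s := Finset.univ)
        (f := fun i => ‖p.a i‖ * ‖G V (p.w i) g - ((E : ℂ) - p.w i)⁻¹ • g‖)
      rw [Finset.card_univ, Fintype.card_fin] at h2
      calc _ ≤ (∑ i, ‖p.a i‖ * ‖G V (p.w i) g - ((E : ℂ) - p.w i)⁻¹ • g‖) ^ 2 := by gcongr
        _ ≤ _ := h2
    refine e2.trans ?_
    rw [mul_assoc, Finset.sum_mul]
    apply mul_le_mul_of_nonneg_left _ (Nat.cast_nonneg _)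
    refine Finset.sum_le_sum fun i _ => ?_
    rw [mul_pow, mul_assoc]
    apply mul_le_mul_of_nonneg_left _ (sq_nonneg _)
    have h3 := single_approx V (p.hw i) hε (hεi i) E f
    rw [← hg] at h3
    have h4 : Wi i E ≤ ∑ i, Wi i E :=
      Finset.single_le_sum (f := fun i => Wi i E) (fun j _ => hWi0 j E) (Finset.mem_univ i)
    have hf2 : 0 ≤ ‖f‖ ^ 2 := sq_nonneg _
    have h5 : Wi i E * ‖f‖ ^ 2 ≤ (∑ i, Wi i E) * ‖f‖ ^ 2 := mul_le_mul_of_nonneg_right h4 hf2
    have h6 : 0 ≤ ε ^ 2 * ‖g‖ ^ 2 := by positivity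
    have h7 : 0 ≤ Wi i E * ‖f‖ ^ 2 := mul_nonneg (hWi0 i E) hf2
    have c1 : 0 ≤ 2 * (2 / y i ^ 2) ^ 2 := by positivity
    have c2 : 0 ≤ 2 * ((y i)⁻¹) ^ 2 := by positivity
    calc _ ≤ _ := h3
      _ = 2 * (2 / y i ^ 2) ^ 2 * (ε ^ 2 * ‖g‖ ^ 2) + 2 * ((y i)⁻¹) ^ 2 * (Wi i E * ‖f‖ ^ 2) := rfl
      _ ≤ Ki i * (ε ^ 2 * ‖g‖ ^ 2 + (∑ i, Wi i E) * ‖f‖ ^ 2) := by
        simp only [hKi]
        have t1 := mul_nonneg c1 (h7.trans h5)
        have t2 := mul_nonneg c2 h6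
        have t3 := mul_le_mul_of_nonneg_left h5 c2
        linarith only [t1, t2, t3]

theorem rf_bound (p : RF) : ∃ P : ℝ, 0 ≤ P ∧ ∀ E, ‖p.ev E‖ ≤ P := by
  refine ⟨∑ i, ‖p.a i‖ * |(p.w i).im|⁻¹, Finset.sum_nonneg fun i _ => by positivity, fun E => ?_⟩
  unfold RF.ev
  refine (norm_sum_le _ _).trans (Finset.sum_le_sum fun i _ => ?_)
  rw [div_eq_mul_inv, norm_mul]
  exact mul_le_mul_of_nonneg_left (norm_inv_le (p.hw i) E) (norm_nonneg _)

theorem rf_continuous (p : RF) : Continuous p.ev := by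
  unfold RF.ev
  refine continuous_finsetSum _ fun i _ => ?_
  refine continuous_const.div (by fun_prop) fun E => ?_
  exact real_sub_ne (p.hw i) E

theorem op_comm (V : Cfg d) (p : RF) {z : ℂ} (hz : z.im ≠ 0) (f : L2 d) :
    p.op V (G V z f) = G V z (p.op V f) := by
  have hD := isRes_G V
  unfold RF.op
  rw [ContinuousLinearMap.sum_apply, ContinuousLinearMap.sum_apply, map_sum]
  refine Finset.sum_congr rfl fun i _ => ?_
  rw [ContinuousLinearMap.smul_apply, ContinuousLinearMap.smul_apply, map_smul,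
    hD.comm_apply (p.hw i) hz]

end Pool.Agent.Helper14.QE
end
end -- Pool.Agent.Helper14_QE.RFApp

section -- Pool.Agent.Helper14_QE.AC2

/-!
# Module AC2: the energy resolution of a conserved observable
-/

set_option autoImplicit false

open scoped InnerProductSpace ComplexConjugate Topology ENNReal
open MeasureTheory Filter

noncomputable section

namespace Pool.Agent.Helper14.QE

open Pool.Agent.QE Pool.Agent.Anderson Pool.Agent.Helper54.Bal Pool.Agent.Helper35.AC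

variable {d : ℕ}

theorem pk_continuous {ε : ℝ} (hε : 0 < ε) : Continuous (pk ε) := by
  unfold pk
  exact continuous_const.div (by fun_prop) fun t => by positivity

theorem abs_Pr_le {f : ℝ → ℝ} {P : ℝ} (hP : ∀ t, |f t| ≤ P) {ε : ℝ} (hε : 0 < ε) (t : ℝ) :
    |Pr f ε t| ≤ P * Real.pi := by
  rw [Pr_eq f hε t, ← Real.norm_eq_abs]
  have h1 : ∀ s : ℝ, ‖f (t + ε * s) * (1 + s ^ 2)⁻¹‖ ≤ P * (1 + s ^ 2)⁻¹ := by
    intro s
    rw [norm_mul, Real.norm_eq_abs, Real.norm_eq_abs, abs_of_nonneg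
      (by positivity : (0:ℝ) ≤ (1 + s ^ 2)⁻¹)]
    exact mul_le_mul_of_nonneg_right (hP _) (by positivity)
  refine (norm_integral_le_of_norm_le (integrable_K.const_mul P)
    (Eventually.of_forall h1)).trans ?_
  rw [integral_const_mul, integral_univ_inv_one_add_sq]

theorem tendsto_pois {f : ℝ → ℝ} (hf : Continuous f) {P : ℝ} (hP : ∀ t, |f t| ≤ P) {e : ℕ → ℝ}
    (he : ∀ k, 0 < e k) (he0 : Tendsto e atTop (𝓝 0)) (t : ℝ) :
    Tendsto (fun k => Pr f (e k) t) atTop (𝓝 (Real.pi * f t)) := by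
  have h3 : Real.pi * f t = ∫ s : ℝ, f t * (1 + s ^ 2)⁻¹ := by
    rw [integral_const_mul, integral_univ_inv_one_add_sq, mul_comm]
  rw [h3]
  simp only [fun k => Pr_eq f (he k) t]
  refine tendsto_integral_of_dominated_convergence (fun s => P * (1 + s ^ 2)⁻¹) ?_
    (integrable_K.const_mul P) ?_ ?_
  · intro k
    have h1 : Continuous fun s : ℝ => (1 + s ^ 2)⁻¹ :=
      Continuous.inv₀ (by fun_prop) (fun s => by positivity)
    exact ((hf.comp (by fun_prop)).mul h1).aestronglyMeasurable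
  · intro k
    refine Eventually.of_forall fun s => ?_
    rw [norm_mul, Real.norm_eq_abs, Real.norm_eq_abs, abs_of_nonneg
      (by positivity : (0:ℝ) ≤ (1 + s ^ 2)⁻¹)]
    exact mul_le_mul_of_nonneg_right (hP _) (by positivity)
  · refine Eventually.of_forall fun s => ?_
    refine Tendsto.mul_const _ ?_
    have h1 : Tendsto (fun k => t + e k * s) atTop (𝓝 (t + 0 * s)) :=
      (he0.mul_const s).const_add t
    rw [zero_mul, add_zero] at h1
    exact (hf.tendsto t).comp h1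

/-- the density of the absolutely continuous part -/
def dens0 (m : Measure ℝ) (t : ℝ) : ℝ := (m.rnDeriv volume t).toReal

/-- the Poisson integral of the singular part -/
def sPo (m : Measure ℝ) (ε E : ℝ) : ℝ := ∫ t, pk ε (t - E) ∂(m.singularPart volume)

section meas

variable (m : Measure ℝ) [IsFiniteMeasure m]

theorem measurable_dens0 : Measurable (dens0 m) := (Measure.measurable_rnDeriv _ _).ennreal_toReal

theorem dens0_nonneg (t : ℝ) : 0 ≤ dens0 m t := ENNReal.toReal_nonneg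

theorem integrable_dens0 : Integrable (dens0 m) := Measure.integrable_toReal_rnDeriv

theorem integrable_pk (μ : Measure ℝ) [IsFiniteMeasure μ] {ε : ℝ} (hε : 0 < ε) (E : ℝ) :
    Integrable (fun t => pk ε (t - E)) μ := by
  refine Integrable.of_bound (C := ε⁻¹)
    ((pk_continuous hε).comp (by fun_prop : Continuous fun t : ℝ => t - E)).aestronglyMeasurable
    (Eventually.of_forall fun t => ?_)
  rw [Real.norm_eq_abs, abs_of_nonneg (pk_nonneg hε _)]
  exact pk_le hε _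

theorem split {ε : ℝ} (hε : 0 < ε) (E : ℝ) :
    ∫ t, pk ε (t - E) ∂m = sPo m ε E + Pr (dens0 m) ε E := by
  have h1 := Measure.singularPart_add_rnDeriv m (volume : Measure ℝ)
  have hfin : IsFiniteMeasure ((volume : Measure ℝ).withDensity (m.rnDeriv volume)) := inferInstance
  have h2 : ∫ t, pk ε (t - E) ∂m = ∫ t, pk ε (t - E) ∂(m.singularPart volume +
      (volume : Measure ℝ).withDensity (m.rnDeriv volume)) := by rw [h1]
  rw [h2, integral_add_measure (integrable_pk _ hε E) (integrable_pk _ hε E)]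
  congr 1
  rw [integral_withDensity_eq_integral_toReal_smul (Measure.measurable_rnDeriv _ _)
    (Measure.rnDeriv_lt_top _ _)]
  rfl

theorem sPo_nonneg {ε : ℝ} (hε : 0 < ε) (E : ℝ) : 0 ≤ sPo m ε E :=
  integral_nonneg fun t => pk_nonneg hε _

theorem Pr_nonneg {ε : ℝ} (hε : 0 < ε) (E : ℝ) : 0 ≤ Pr (dens0 m) ε E :=
  integral_nonneg fun t => mul_nonneg (dens0_nonneg m t) (by positivity)

theorem measurable_sPo {ε : ℝ} (hε : 0 < ε) : Measurable (sPo m ε) := by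
  have h : Continuous fun q : ℝ × ℝ => pk ε (q.2 - q.1) :=
    (pk_continuous hε).comp (by fun_prop)
  have := h.stronglyMeasurable.integral_prod_right' (ν := m.singularPart volume)
  exact this.measurable

theorem measurable_Pr {ρ : ℝ → ℝ} (hρ : Measurable ρ) (ε : ℝ) : Measurable (Pr ρ ε) := by
  have h : Measurable fun q : ℝ × ℝ => ρ q.2 * (ε / ((q.2 - q.1) ^ 2 + ε ^ 2)) := by fun_prop
  have := h.stronglyMeasurable.integral_prod_right' (ν := (volume : Measure ℝ))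
  exact this.measurable

/-- Tonelli for the singular part -/
theorem sing_tonelli {f : ℝ → ℝ} (hf : Continuous f) (hf0 : ∀ t, 0 ≤ f t) {P : ℝ}
    (hP : ∀ t, |f t| ≤ P) {ε : ℝ} (hε : 0 < ε) :
    ∫⁻ E, ENNReal.ofReal (f E * sPo m ε E) =
      ∫⁻ t, ENNReal.ofReal (Pr f ε t) ∂(m.singularPart volume) := by
  have hpk := pk_continuous hε
  have h1 : ∀ E, ENNReal.ofReal (f E * sPo m ε E) =
      ∫⁻ t, ENNReal.ofReal (f E * pk ε (t - E)) ∂(m.singularPart volume) := by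
    intro E
    unfold sPo
    rw [← integral_const_mul, ofReal_integral_eq_lintegral_ofReal]
    · exact (integrable_pk _ hε E).const_mul _
    · exact Eventually.of_forall fun t => mul_nonneg (hf0 E) (pk_nonneg hε _)
  have h2 : ∀ t, ENNReal.ofReal (Pr f ε t) = ∫⁻ E, ENNReal.ofReal (f E * pk ε (t - E)) := by
    intro t
    have e : Pr f ε t = ∫ E, f E * pk ε (t - E) := by
      unfold Pr pk
      congr 1
      funext E
      rw [show (E - t) ^ 2 = (t - E) ^ 2 by ring]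
    rw [e, ofReal_integral_eq_lintegral_ofReal]
    · have i1 : Integrable fun E => pk ε (t - E) := by
        have := (integral_shift_poisson hε t).1.const_mul ε
        refine this.congr (Eventually.of_forall fun E => ?_)
        simp only [pk]
        rw [show (t - E) ^ 2 = (E - t) ^ 2 by ring, div_eq_mul_inv]
      exact i1.bdd_mul (c := P) hf.aestronglyMeasurable
        (Eventually.of_forall fun E => by rw [Real.norm_eq_abs]; exact hP E)
    · exact Eventually.of_forall fun E => mul_nonneg (hf0 E) (pk_nonneg hε _)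
  simp only [h1, h2]
  refine lintegral_lintegral_swap ?_
  have hc : Continuous (Function.uncurry fun E t : ℝ => f E * pk ε (t - E)) := by
    have h3 : Continuous fun q : ℝ × ℝ => pk ε (q.2 - q.1) := hpk.comp (by fun_prop)
    exact (hf.comp continuous_fst).mul h3
  exact (ENNReal.continuous_ofReal.comp hc).measurable.aemeasurable

theorem sing_tendsto {f : ℝ → ℝ} (hf : Continuous f) (hf0 : ∀ t, 0 ≤ f t) {P : ℝ}
    (hP : ∀ t, |f t| ≤ P) {e : ℕ → ℝ} (he : ∀ k, 0 < e k) (he0 : Tendsto e atTop (𝓝 0)) :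
    Tendsto (fun k => ∫⁻ E, ENNReal.ofReal (f E * sPo m (e k) E)) atTop
      (𝓝 (ENNReal.ofReal Real.pi * ∫⁻ t, ENNReal.ofReal (f t) ∂(m.singularPart volume))) := by
  simp only [fun k => sing_tonelli m hf hf0 hP (he k)]
  have h1 : ENNReal.ofReal Real.pi * ∫⁻ t, ENNReal.ofReal (f t) ∂(m.singularPart volume) =
      ∫⁻ t, ENNReal.ofReal (Real.pi * f t) ∂(m.singularPart volume) := by
    rw [← lintegral_const_mul' _ _ ENNReal.ofReal_ne_top]
    exact lintegral_congr fun t => (ENNReal.ofReal_mul Real.pi_pos.le).symm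
  rw [h1]
  refine tendsto_lintegral_of_dominated_convergence (fun _ => ENNReal.ofReal (P * Real.pi))
    ?_ ?_ ?_ ?_
  · intro k
    exact (measurable_Pr hf.measurable _).ennreal_ofReal
  · intro k
    refine Eventually.of_forall fun t => ENNReal.ofReal_le_ofReal ?_
    exact (le_abs_self _).trans (abs_Pr_le hP (he k) t)
  · rw [lintegral_const]
    exact ENNReal.mul_ne_top ENNReal.ofReal_ne_top (measure_ne_top _ _)
  · refine Eventually.of_forall fun t => ?_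
    exact (ENNReal.continuous_ofReal.tendsto _).comp (tendsto_pois hf hP he he0 t)

end meas

theorem im_G00 {V : Cfg d} {m : Measure ℝ} [IsFiniteMeasure m]
    (hm : ∀ z : ℂ, z.im ≠ 0 → G V z (del 0) 0 = ∫ E : ℝ, 1 / ((E : ℂ) - z) ∂m) {ε : ℝ}
    (hε : 0 < ε) (E : ℝ) : (G V (zz ε E) (del 0) 0).im = ∫ t, pk ε (t - E) ∂m := by
  have hz : (zz ε E).im ≠ 0 := by simpa using hε.ne'
  rw [hm _ hz]
  have hint : Integrable (fun t : ℝ => 1 / ((t : ℂ) - zz ε E)) m := by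
    refine Integrable.of_bound (C := |(zz ε E).im|⁻¹) ?_ (Eventually.of_forall fun t => ?_)
    · have : Continuous fun t : ℝ => 1 / ((t : ℂ) - zz ε E) :=
        continuous_const.div (by fun_prop) fun t => real_sub_ne hz t
      exact this.aestronglyMeasurable
    · rw [one_div]
      exact norm_inv_le hz t
  have h2 : (∫ t : ℝ, 1 / ((t : ℂ) - zz ε E) ∂m).im =
      ∫ t : ℝ, (1 / ((t : ℂ) - zz ε E)).im ∂m := (integral_im hint).symm
  rw [h2]
  congr 1
  funext t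
  rw [one_div, Complex.inv_im, Complex.normSq_apply]
  simp only [Complex.sub_re, Complex.ofReal_re, zz_re, Complex.sub_im, Complex.ofReal_im, zz_im]
  unfold pk
  have h3 : (t - E) * (t - E) + (0 - ε) * (0 - ε) = (t - E) ^ 2 + ε ^ 2 := by ring
  rw [h3]
  ring

end Pool.Agent.Helper14.QE
end
end -- Pool.Agent.Helper14_QE.AC2
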