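import Pool.Agent.Helper12_MEB.B017

/-!
# Merged copies (generated) of the modules

* `Pool.Agent.Helper54_Ballistic.Evol`
* `Pool.Agent.Helper95_Fourier.Plancherel`
* `Pool.Agent.Helper54_Ballistic.Laplace`
* `Pool.Agent.Helper54_Ballistic.PlanchT`
-/

set_option autoImplicit false

section -- Pool.Agent.Helper54_Ballistic.Evol

/-!
# The Schrödinger evolution
-/

set_option autoImplicit false
set_option linter.unusedSectionVars false

open scoped InnerProductSpace ComplexConjugate Topology ENNReal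
open MeasureTheory Filter

noncomputable section

namespace Pool.Agent.Helper54.Bal

open Pool.Agent.Anderson

variable {d : ℕ}

/-- `ψ(t) = e^{-itH} δ₀` for `H = Δ + V`: `ψ` is continuous with values in `ℓ²(ℤ^d)`,
`ψ(0) = δ₀`, and `i ψ' = (Δ + V) ψ` at every site. -/
def IsEvolution (V : Site d → ℝ) (ψ : ℝ → L2 d) : Prop :=
  Continuous ψ ∧ ψ 0 = del 0 ∧
    ∀ t x, HasDerivAt (fun s => ψ s x) (-Complex.I * (lap (ψ t) x + (V x : ℂ) * ψ t x)) t

/-- the coordinate functional -/
def coord (x : Site d) : L2 d →L[ℂ] ℂ := innerSL ℂ (del x)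

theorem coord_apply (x : Site d) (f : L2 d) : coord x f = f x := by
  unfold coord
  rw [innerSL_apply_apply, inner_del_left]

theorem norm_phase (t a : ℝ) : ‖Complex.exp (-Complex.I * t * a)‖ ≤ 1 := by
  rw [Complex.norm_exp]
  simp

/-- multiplication by `exp(-itV)` -/
def U0 (V : Site d → ℝ) (t : ℝ) : L2 d →L[ℂ] L2 d :=
  mulOp (fun x => Complex.exp (-Complex.I * t * V x)) 1 (fun x => norm_phase t (V x))

theorem U0_apply (V : Site d → ℝ) (t : ℝ) (f : L2 d) (x : Site d) :
    U0 V t f x = Complex.exp (-Complex.I * t * V x) * f x := rfl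

theorem U0_inner (V : Site d → ℝ) (t : ℝ) (f g : L2 d) : ⟪U0 V t f, U0 V t g⟫_ℂ = ⟪f, g⟫_ℂ := by
  rw [lp.inner_eq_tsum, lp.inner_eq_tsum]
  apply tsum_congr
  intro x
  rw [RCLike.inner_apply, RCLike.inner_apply, U0_apply, U0_apply, map_mul, ← Complex.exp_conj]
  have : Complex.exp (-Complex.I * t * V x) * Complex.exp (conj (-Complex.I * t * V x)) = 1 := by
    rw [← Complex.exp_add]
    simp
  calc _ = (Complex.exp (-Complex.I * t * V x) * Complex.exp (conj (-Complex.I * t * V x))) *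
      (g x * conj (f x)) := by ring
    _ = _ := by rw [this, one_mul]

theorem U0_norm (V : Site d → ℝ) (t : ℝ) (f : L2 d) : ‖U0 V t f‖ = ‖f‖ := by
  have h := U0_inner V t f f
  rw [inner_self_eq_norm_sq_to_K, inner_self_eq_norm_sq_to_K] at h
  have h2 : ‖U0 V t f‖ ^ 2 = ‖f‖ ^ 2 := by exact_mod_cast h
  have h3 := norm_nonneg (U0 V t f)
  have h4 := norm_nonneg f
  nlinarith only [sq_nonneg (‖U0 V t f‖ - ‖f‖), h2, h3, h4]

theorem U0_U0 (V : Site d → ℝ) (t : ℝ) (f : L2 d) : U0 V t (U0 V (-t) f) = f := by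
  ext x
  rw [U0_apply, U0_apply, ← mul_assoc, ← Complex.exp_add]
  have : -Complex.I * t * V x + -Complex.I * ((-t : ℝ) : ℂ) * V x = 0 := by push_cast; ring
  rw [this, Complex.exp_zero, one_mul]

theorem U0_U0' (V : Site d → ℝ) (t : ℝ) (f : L2 d) : U0 V (-t) (U0 V t f) = f := by
  have := U0_U0 V (-t) f
  rwa [neg_neg] at this

theorem U0_zero (V : Site d → ℝ) (f : L2 d) : U0 V 0 f = f := by
  ext x
  rw [U0_apply]
  simp

theorem continuous_U0 (V : Site d → ℝ) {f : ℝ → L2 d} (hf : Continuous f) {g : ℝ → ℝ}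
    (hg : Continuous g) : Continuous fun t => U0 V (g t) (f t) := by
  rw [continuous_iff_continuousAt]
  intro t0
  rw [ContinuousAt, tendsto_iff_norm_sub_tendsto_zero]
  have key : ∀ t, ‖U0 V (g t) (f t) - U0 V (g t0) (f t0)‖ ≤
      ‖f t - f t0‖ + ‖U0 V (g t) (f t0) - U0 V (g t0) (f t0)‖ := by
    intro t
    have e : U0 V (g t) (f t) - U0 V (g t0) (f t0) =
        U0 V (g t) (f t - f t0) + (U0 V (g t) (f t0) - U0 V (g t0) (f t0)) := by
      rw [map_sub]; abel
    rw [e]
    refine (norm_add_le _ _).trans ?_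
    rw [U0_norm]
  refine squeeze_zero (fun _ => norm_nonneg _) key ?_
  have t1 := tendsto_iff_norm_sub_tendsto_zero.1 (hf.tendsto t0)
  have t2 : Tendsto (fun t => U0 V (g t) (f t0)) (𝓝 t0) (𝓝 (U0 V (g t0) (f t0))) := by
    unfold U0
    apply tendsto_mulOp
    intro x
    have : Continuous fun t => Complex.exp (-Complex.I * (g t : ℂ) * V x) := by fun_prop
    exact this.tendsto t0
  have t3 := tendsto_iff_norm_sub_tendsto_zero.1 t2
  simpa using t1.add t3

section

variable {V : Site d → ℝ} {ψ : ℝ → L2 d}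

/-- interaction picture -/
def cc (V : Site d → ℝ) (ψ : ℝ → L2 d) (t : ℝ) : L2 d := U0 V (-t) (ψ t)

/-- its derivative -/
def bb (V : Site d → ℝ) (ψ : ℝ → L2 d) (t : ℝ) : L2 d :=
  (-Complex.I) • U0 V (-t) (Lap d (ψ t))

theorem continuous_bb (h : Continuous ψ) : Continuous (bb V ψ) := by
  have h1 : Continuous fun t => U0 V (-t) (Lap d (ψ t)) :=
    continuous_U0 V ((Lap d).continuous.comp h) continuous_neg
  have h2 : Continuous fun t => (-Complex.I) • U0 V (-t) (Lap d (ψ t)) := h1.const_smul (-Complex.I)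
  exact h2

theorem cc_coord (h : IsEvolution V ψ) (t : ℝ) (x : Site d) :
    HasDerivAt (fun s => cc V ψ s x) (bb V ψ t x) t := by
  have h1 := h.2.2 t x
  have h2 : HasDerivAt (fun s : ℝ => Complex.exp (-Complex.I * ((-s : ℝ) : ℂ) * V x))
      (Complex.exp (-Complex.I * ((-t : ℝ) : ℂ) * V x) * (Complex.I * V x)) t := by
    have h3 : HasDerivAt (fun s : ℝ => -Complex.I * ((-s : ℝ) : ℂ) * V x) (Complex.I * V x) t := by
      have h4 : HasDerivAt (fun s : ℝ => ((-s : ℝ) : ℂ)) (-1) t := by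
        have h40 := (hasDerivAt_neg t).ofReal_comp
        simpa using h40
      have h5 := (h4.const_mul (-Complex.I)).mul_const (V x : ℂ)
      simpa using h5
    exact h3.cexp
  have h6 := h2.mul h1
  have e : bb V ψ t x = Complex.exp (-Complex.I * ((-t : ℝ) : ℂ) * V x) * (Complex.I * V x) *
      ψ t x + Complex.exp (-Complex.I * ((-t : ℝ) : ℂ) * V x) *
      (-Complex.I * (lap (ψ t) x + (V x : ℂ) * ψ t x)) := by
    unfold bb
    rw [lp.coeFn_smul, Pi.smul_apply, U0_apply, Lap_apply, smul_eq_mul]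
    ring
  rw [e]
  exact h6

theorem cc_eq (h : IsEvolution V ψ) (t : ℝ) :
    cc V ψ t = cc V ψ 0 + ∫ s in (0:ℝ)..t, bb V ψ s := by
  ext x
  have hb := continuous_bb (V := V) h.1
  have e1 : (∫ s in (0:ℝ)..t, bb V ψ s) x = ∫ s in (0:ℝ)..t, bb V ψ s x := by
    rw [← coord_apply x, ← ContinuousLinearMap.intervalIntegral_comp_comm _
      (hb.intervalIntegrable 0 t)]
    simp only [coord_apply]
  have hbx : Continuous fun s => bb V ψ s x := by
    have := (coord x).continuous.comp hb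
    simpa [Function.comp_def, coord_apply] using this
  have e2 : ∫ s in (0:ℝ)..t, bb V ψ s x = cc V ψ t x - cc V ψ 0 x :=
    intervalIntegral.integral_eq_sub_of_hasDerivAt (fun s _ => cc_coord h s x)
      (hbx.intervalIntegrable 0 t)
  rw [lp.coeFn_add, Pi.add_apply, e1, e2]
  ring

theorem hasDerivAt_cc (h : IsEvolution V ψ) (t : ℝ) : HasDerivAt (cc V ψ) (bb V ψ t) t := by
  have hb := continuous_bb (V := V) h.1
  have h1 : HasDerivAt (fun t => ∫ s in (0:ℝ)..t, bb V ψ s) (bb V ψ t) t :=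
    intervalIntegral.integral_hasDerivAt_right (hb.intervalIntegrable 0 t)
      (hb.stronglyMeasurableAtFilter _ _) hb.continuousAt
  have h2 := h1.const_add (cc V ψ 0)
  refine h2.congr_of_eventuallyEq (Eventually.of_forall fun s => ?_)
  exact cc_eq h s

theorem norm_evol (h : IsEvolution V ψ) (t : ℝ) : ‖ψ t‖ = 1 := by
  have hd : ∀ t, HasDerivAt (fun t => ⟪cc V ψ t, cc V ψ t⟫_ℂ) 0 t := by
    intro t
    have h1 := (hasDerivAt_cc h t).inner ℂ (hasDerivAt_cc h t)
    have e : ⟪cc V ψ t, bb V ψ t⟫_ℂ + ⟪bb V ψ t, cc V ψ t⟫_ℂ = 0 := by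
      unfold cc bb
      rw [inner_smul_right, inner_smul_left, U0_inner, U0_inner, inner_Lap]
      simp
    rw [e] at h1
    exact h1
  have hc : ∀ s, ⟪cc V ψ s, cc V ψ s⟫_ℂ = ⟪cc V ψ 0, cc V ψ 0⟫_ℂ := by
    intro s
    exact is_const_of_deriv_eq_zero (fun t => (hd t).differentiableAt) (fun t => (hd t).deriv) s 0
  have h1 := hc t
  unfold cc at h1
  rw [U0_inner, U0_inner, h.2.1, inner_self_eq_norm_sq_to_K, inner_self_eq_norm_sq_to_K,
    norm_del] at h1
  have h2 : ‖ψ t‖ ^ 2 = 1 := by exact_mod_cast (by simpa using h1 : ((‖ψ t‖ : ℂ)) ^ 2 = 1)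
  have h3 := norm_nonneg (ψ t)
  nlinarith only [h2, h3]

/-- truncated coordinate multiplication -/
def XX (n : ℕ) (i : Fin d) : L2 d →L[ℂ] L2 d :=
  mulOp (fun y => ((chi n (y i) : ℝ) : ℂ)) n (fun y => by
    rw [Complex.norm_real]; exact chi_abs_le n _)

theorem XX_apply (n : ℕ) (i : Fin d) (f : L2 d) (x : Site d) :
    XX n i f x = ((chi n (x i) : ℝ) : ℂ) * f x := rfl

theorem XX_symm (n : ℕ) (i : Fin d) (f g : L2 d) : ⟪XX n i f, g⟫_ℂ = ⟪f, XX n i g⟫_ℂ := by
  rw [lp.inner_eq_tsum, lp.inner_eq_tsum]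
  apply tsum_congr
  intro x
  rw [RCLike.inner_apply, RCLike.inner_apply, XX_apply, XX_apply, map_mul, Complex.conj_ofReal]
  ring

theorem XX_U0 (n : ℕ) (i : Fin d) (t : ℝ) (f : L2 d) : XX n i (U0 V t f) = U0 V t (XX n i f) := by
  ext x
  rw [XX_apply, U0_apply, U0_apply, XX_apply]
  ring

/-- the commutator of the truncated coordinate with the Laplacian is bounded by `2` -/
theorem norm_comm_le (n : ℕ) (i : Fin d) (f : L2 d) :
    ‖XX n i (Lap d f) - Lap d (XX n i f)‖ ≤ 2 * ‖f‖ := by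
  have hp : ∀ y : Site d, ‖((chi n (y i) - chi n (y i + 1) : ℝ) : ℂ)‖ ≤ 1 := fun y => by
    rw [Complex.norm_real]
    have := chi_sub_le n (y i) (y i + 1)
    simpa using this
  have hm : ∀ y : Site d, ‖((chi n (y i) - chi n (y i - 1) : ℝ) : ℂ)‖ ≤ 1 := fun y => by
    rw [Complex.norm_real]
    have := chi_sub_le n (y i) (y i - 1)
    simpa using this
  have e : XX n i (Lap d f) - Lap d (XX n i f) =
      mulOp (fun y => ((chi n (y i) - chi n (y i + 1) : ℝ) : ℂ)) 1 hp (shift (Pi.single i 1) f) +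
      mulOp (fun y => ((chi n (y i) - chi n (y i - 1) : ℝ) : ℂ)) 1 hm
        (shift (-Pi.single i 1) f) := by
    ext y
    rw [lp.coeFn_sub, Pi.sub_apply, XX_apply, Lap_apply, Lap_apply, lp.coeFn_add, Pi.add_apply,
      mulOp_apply, mulOp_apply, shift_apply, shift_apply]
    unfold lap
    rw [Finset.mul_sum, ← Finset.sum_sub_distrib]
    have e3 : ∀ j : Fin d, ((chi n (y i) : ℝ) : ℂ) * (f (y + Pi.single j 1) +
        f (y - Pi.single j 1)) - (XX n i f (y + Pi.single j 1) + XX n i f (y - Pi.single j 1)) =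
        if j = i then ((chi n (y i) - chi n (y i + 1) : ℝ) : ℂ) * f (y + Pi.single i 1) +
          ((chi n (y i) - chi n (y i - 1) : ℝ) : ℂ) * f (y + -Pi.single i 1) else 0 := by
      intro j
      rw [XX_apply, XX_apply]
      simp only [Pi.add_apply, Pi.sub_apply]
      by_cases hj : j = i
      · subst hj
        rw [if_pos rfl, Pi.single_eq_same, ← sub_eq_add_neg]
        push_cast
        ring
      · rw [if_neg hj, Pi.single_eq_of_ne (Ne.symm hj)]
        simp
        ring
    rw [Finset.sum_congr rfl (fun j _ => e3 j), Finset.sum_ite_eq' Finset.univ i]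
    simp
  have nb : ∀ (m : Site d → ℂ) (hm : ∀ x, ‖m x‖ ≤ 1) (g : L2 d), ‖mulOp m 1 hm g‖ ≤ ‖g‖ := by
    intro m hm g
    have h0 : ∀ a b : ℝ, 0 ≤ a → 0 ≤ b → a ^ 2 ≤ b ^ 2 → a ≤ b := fun a b ha hb h => by
      nlinarith only [sq_nonneg (a - b), hb, h]
    refine h0 _ _ (norm_nonneg _) (norm_nonneg _) ?_
    rw [L2.norm_sq, L2.norm_sq g]
    refine Summable.tsum_le_tsum (fun x => ?_) (L2.summable_sq _) (L2.summable_sq g)
    rw [mulOp_apply, norm_mul, mul_pow]
    have h1 := hm x
    have h2 : ‖m x‖ ^ 2 ≤ 1 := by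
      have := norm_nonneg (m x)
      nlinarith only [h1, this]
    nlinarith only [sq_nonneg ‖g x‖, h2]
  rw [e]
  refine (norm_add_le _ _).trans ?_
  have h1 := nb _ hp (shift (Pi.single i 1) f)
  have h2 := nb _ hm (shift (-Pi.single i 1) f)
  rw [LinearIsometry.norm_map] at h1 h2
  linarith

/-- the truncated second moment -/
def NX (n : ℕ) (i : Fin d) (ψ : ℝ → L2 d) (t : ℝ) : ℝ := ‖XX n i (ψ t)‖ ^ 2

theorem NX_deriv (h : IsEvolution V ψ) (n : ℕ) (i : Fin d) (t : ℝ) :
    ∃ D : ℝ, HasDerivAt (NX n i ψ) D t ∧ |D| ≤ 4 * Real.sqrt (NX n i ψ t) := by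
  have hc := hasDerivAt_cc h t
  have hX : HasDerivAt (fun s => XX n i (cc V ψ s)) (XX n i (bb V ψ t)) t :=
    ((XX n i).restrictScalars ℝ).hasFDerivAt.comp_hasDerivAt t hc
  have h1 := hX.inner ℂ hX
  have h2 : HasDerivAt (fun s => (⟪XX n i (cc V ψ s), XX n i (cc V ψ s)⟫_ℂ).re)
      (⟪XX n i (cc V ψ t), XX n i (bb V ψ t)⟫_ℂ + ⟪XX n i (bb V ψ t), XX n i (cc V ψ t)⟫_ℂ).re t :=
    (Complex.reCLM.hasFDerivAt.comp_hasDerivAt t h1)
  have e1 : (fun s => (⟪XX n i (cc V ψ s), XX n i (cc V ψ s)⟫_ℂ).re) = NX n i ψ := by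
    funext s
    unfold cc NX
    rw [XX_U0, U0_inner, inner_self_eq_norm_sq_to_K]
    norm_cast
  rw [e1] at h2
  refine ⟨_, h2, ?_⟩
  set K := XX n i (Lap d (ψ t)) - Lap d (XX n i (ψ t)) with hK
  have e2 : ⟪XX n i (cc V ψ t), XX n i (bb V ψ t)⟫_ℂ =
      -Complex.I * ⟪XX n i (ψ t), XX n i (Lap d (ψ t))⟫_ℂ := by
    unfold cc bb
    rw [map_smul, inner_smul_right, XX_U0, XX_U0, U0_inner]
  have e3 : XX n i (Lap d (ψ t)) = K + Lap d (XX n i (ψ t)) := by rw [hK]; abel
  have e4 : (⟪XX n i (bb V ψ t), XX n i (cc V ψ t)⟫_ℂ).re =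
      (⟪XX n i (cc V ψ t), XX n i (bb V ψ t)⟫_ℂ).re := by
    rw [← inner_conj_symm, Complex.conj_re]
  rw [Complex.add_re, e4, e2, e3, inner_add_right, mul_add, Complex.add_re]
  have e5 : (-Complex.I * ⟪XX n i (ψ t), Lap d (XX n i (ψ t))⟫_ℂ).re = 0 := by
    have h5 : conj ⟪XX n i (ψ t), Lap d (XX n i (ψ t))⟫_ℂ =
        ⟪XX n i (ψ t), Lap d (XX n i (ψ t))⟫_ℂ := by
      rw [inner_conj_symm, inner_Lap]
    have h6 := Complex.conj_eq_iff_im.1 h5
    simp [h6]
  rw [e5, add_zero]
  have h7 : |(-Complex.I * ⟪XX n i (ψ t), K⟫_ℂ).re| ≤ ‖XX n i (ψ t)‖ * ‖K‖ := by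
    refine (Complex.abs_re_le_norm _).trans ?_
    rw [norm_mul, norm_neg, Complex.norm_I, one_mul]
    exact norm_inner_le_norm _ _
  have h8 : ‖K‖ ≤ 2 := by
    have := norm_comm_le n i (ψ t)
    rwa [norm_evol h t, mul_one] at this
  have h9 : Real.sqrt (NX n i ψ t) = ‖XX n i (ψ t)‖ := by
    unfold NX
    exact Real.sqrt_sq (norm_nonneg _)
  rw [h9]
  have h10 : |(-Complex.I * ⟪XX n i (ψ t), K⟫_ℂ).re + (-Complex.I * ⟪XX n i (ψ t), K⟫_ℂ).re| ≤
      2 * (‖XX n i (ψ t)‖ * ‖K‖) := by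
    rw [← two_mul, abs_mul, abs_two]
    linarith only [h7]
  have h11 := norm_nonneg (XX n i (ψ t))
  nlinarith only [h8, h10, h11]

/-- the truncated displacement is `2`-Lipschitz in time -/
theorem XX_lipschitz (h : IsEvolution V ψ) (n : ℕ) (i : Fin d) (s t : ℝ) :
    |‖XX n i (ψ t)‖ - ‖XX n i (ψ s)‖| ≤ 2 * |t - s| := by
  have key : ∀ ε : ℝ, 0 < ε →
      |Real.sqrt (NX n i ψ t + ε) - Real.sqrt (NX n i ψ s + ε)| ≤ 2 * |t - s| := by
    intro ε hε
    choose D hD hDb using NX_deriv h n i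
    have hN0 : ∀ r, 0 ≤ NX n i ψ r := fun r => by unfold NX; positivity
    have hd : ∀ r, HasDerivAt (fun r => Real.sqrt (NX n i ψ r + ε))
        (D r / (2 * Real.sqrt (NX n i ψ r + ε))) r := by
      intro r
      exact ((hD r).add_const ε).sqrt (by have := hN0 r; linarith)
    have hb : ∀ r, ‖D r / (2 * Real.sqrt (NX n i ψ r + ε))‖ ≤ 2 := by
      intro r
      have h1 : 0 < Real.sqrt (NX n i ψ r + ε) := Real.sqrt_pos.2 (by have := hN0 r; linarith)
      rw [norm_div, Real.norm_eq_abs, Real.norm_of_nonneg (by positivity), div_le_iff₀ (by positivity)]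
      refine (hDb r).trans ?_
      have h2 : Real.sqrt (NX n i ψ r) ≤ Real.sqrt (NX n i ψ r + ε) :=
        Real.sqrt_le_sqrt (by linarith)
      linarith only [h2]
    have := Convex.norm_image_sub_le_of_norm_hasDerivWithin_le (s := Set.univ) (C := 2)
      (f := fun r => Real.sqrt (NX n i ψ r + ε)) (fun r _ => (hd r).hasDerivWithinAt)
      (fun r _ => hb r) convex_univ (Set.mem_univ s) (Set.mem_univ t)
    simpa [Real.norm_eq_abs] using this
  have hlim : Tendsto (fun ε : ℝ => |Real.sqrt (NX n i ψ t + ε) - Real.sqrt (NX n i ψ s + ε)|)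
      (𝓝[>] 0) (𝓝 |Real.sqrt (NX n i ψ t + 0) - Real.sqrt (NX n i ψ s + 0)|) := by
    have : Continuous fun ε : ℝ => |Real.sqrt (NX n i ψ t + ε) - Real.sqrt (NX n i ψ s + ε)| := by
      fun_prop
    exact (this.tendsto 0).mono_left nhdsWithin_le_nhds
  have h1 := le_of_tendsto hlim (by
    filter_upwards [self_mem_nhdsWithin] with ε hε
    exact key ε hε)
  have h9 : ∀ r, Real.sqrt (NX n i ψ r) = ‖XX n i (ψ r)‖ := by
    intro r
    unfold NX
    exact Real.sqrt_sq (norm_nonneg _)
  rw [add_zero, add_zero, h9, h9] at h1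
  exact h1

end

end Pool.Agent.Helper54.Bal
end
end -- Pool.Agent.Helper54_Ballistic.Evol

section -- Pool.Agent.Helper95_Fourier.Plancherel

/-!
Plancherel for functions in `L¹ ∩ L²` on the line, with the Fourier transform given by the
integral, and duality (multiplication formula).
-/

open MeasureTheory FourierTransform SchwartzMap
open scoped ContDiff

namespace Pool.Agent.Helper95_Fourier

/-- Multiplication formula `∫ f̂ g = ∫ f ĝ` for integrable functions on `ℝ`. -/
theorem integral_fourier_mul_eq {f g : ℝ → ℂ} (hf : Integrable f) (hg : Integrable g) :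
    ∫ x, 𝓕 f x * g x = ∫ x, f x * 𝓕 g x := by
  have := VectorFourier.integral_fourierIntegral_smul_eq_flip (𝕜 := ℝ) (L := innerₗ ℝ)
    (e := Real.fourierChar) (μ := volume) (ν := volume)
    Real.continuous_fourierChar continuous_inner hf hg
  simpa [smul_eq_mul, flip_innerₗ] using! this

/-- For `f ∈ L¹ ∩ L²`, the `L²` Fourier transform is a.e. the integral Fourier transform. -/
theorem fourier_toLp_ae_eq {f : ℝ → ℂ} (h1 : Integrable f) (h2 : MemLp f 2) :
    (𝓕 (h2.toLp f) : Lp ℂ 2 (volume : Measure ℝ)) =ᵐ[volume] 𝓕 f := by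
  set F2 : Lp ℂ 2 (volume : Measure ℝ) := 𝓕 (h2.toLp f) with hF2
  have hcont : Continuous (𝓕 f) :=
    VectorFourier.fourierIntegral_continuous Real.continuous_fourierChar
      (by exact continuous_inner) h1
  apply ae_eq_of_integral_contDiff_smul_eq
  · exact (Lp.memLp F2).locallyIntegrable (by norm_num)
  · exact hcont.locallyIntegrable
  · intro g g_smooth g_cpt
    have hg₁ : HasCompactSupport (Complex.ofRealCLM ∘ g) := g_cpt.comp_left rfl
    have hg₂ : ContDiff ℝ ∞ (Complex.ofRealCLM ∘ g) := Complex.ofRealCLM.contDiff.comp g_smooth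
    set G : 𝓢(ℝ, ℂ) := hg₁.toSchwartzMap hg₂ with hG
    have hGg : ∀ x, G x = (g x : ℂ) := fun x => by simp [hG]
    have e1 : ∫ x, g x • F2 x = (F2 : 𝓢'(ℝ, ℂ)) G := by
      rw [Lp.toTemperedDistribution_apply]
      simp [hGg]
    have e2 : (F2 : 𝓢'(ℝ, ℂ)) G = ∫ x, (𝓕 G) x • f x := by
      rw [hF2, ← Lp.fourier_toTemperedDistribution_eq, TemperedDistribution.fourier_apply,
        Lp.toTemperedDistribution_apply]
      apply integral_congr_ae
      filter_upwards [h2.coeFn_toLp] with x hx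
      rw [hx]
    have e3 : ∫ x, (𝓕 G) x • f x = ∫ x, g x • 𝓕 f x := by
      have := integral_fourier_mul_eq (G.integrable (μ := volume)) h1
      simp only [smul_eq_mul]
      refine Eq.trans (Eq.trans ?_ this) ?_
      · rfl
      · simp [hGg]
    rw [e1, e2, e3]

/-- Plancherel for `L¹ ∩ L²`. -/
theorem eLpNorm_fourier_eq {f : ℝ → ℂ} (h1 : Integrable f) (h2 : MemLp f 2) :
    eLpNorm (𝓕 f) 2 volume = eLpNorm f 2 volume := by
  rw [← eLpNorm_congr_ae (fourier_toLp_ae_eq h1 h2), ← eLpNorm_congr_ae h2.coeFn_toLp]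
  have := Lp.norm_fourier_eq (h2.toLp f)
  rw [Lp.norm_def, Lp.norm_def] at this
  exact (ENNReal.toReal_eq_toReal_iff' (Lp.eLpNorm_ne_top _) (Lp.eLpNorm_ne_top _)).1 this

end Pool.Agent.Helper95_Fourier
end -- Pool.Agent.Helper95_Fourier.Plancherel

section -- Pool.Agent.Helper54_Ballistic.Laplace

/-!
# The Laplace transform of the Schrödinger evolution is the resolvent
-/

set_option autoImplicit false
set_option linter.unusedSectionVars false

open scoped InnerProductSpace ComplexConjugate Topology ENNReal FourierTransform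
open MeasureTheory Filter

noncomputable section

namespace Pool.Agent.Helper54.Bal

open Pool.Agent.Anderson

variable {d : ℕ} {V : Site d → ℝ} {ψ : ℝ → L2 d}

/-- the integrand `e^{izt} ψ(t)` of the Laplace transform -/
def FF (η E : ℝ) (ψ : ℝ → L2 d) (t : ℝ) : L2 d := Complex.exp (Complex.I * zz η E * t) • ψ t

theorem norm_expz (η E t : ℝ) : ‖Complex.exp (Complex.I * zz η E * t)‖ = Real.exp (-η * t) := by
  rw [Complex.norm_exp]
  congr 1
  simp [zz]

theorem continuous_FF (h : IsEvolution V ψ) (η E : ℝ) : Continuous (FF η E ψ) := by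
  unfold FF
  have h1 : Continuous fun t : ℝ => Complex.exp (Complex.I * zz η E * t) := by fun_prop
  exact h1.smul h.1

theorem norm_FF (h : IsEvolution V ψ) (η E t : ℝ) : ‖FF η E ψ t‖ = Real.exp (-η * t) := by
  unfold FF
  rw [norm_smul, norm_evol h, norm_expz, mul_one]

theorem integrable_exp {η : ℝ} (hη : 0 < η) :
    IntegrableOn (fun t : ℝ => Real.exp (-η * t)) (Set.Ioi 0) :=
  integrableOn_exp_mul_Ioi (by linarith) 0

theorem integrable_FF (h : IsEvolution V ψ) {η : ℝ} (hη : 0 < η) (E : ℝ) :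
    IntegrableOn (FF η E ψ) (Set.Ioi 0) := by
  refine (integrable_exp hη).mono' ((continuous_FF h η E).aestronglyMeasurable) ?_
  exact Eventually.of_forall fun t => (norm_FF h η E t).le

theorem FF_apply (η E t : ℝ) (x : Site d) :
    FF η E ψ t x = Complex.exp (Complex.I * zz η E * t) * ψ t x := rfl

theorem integral_FF_apply (h : IsEvolution V ψ) {η : ℝ} (hη : 0 < η) (E : ℝ) (x : Site d) :
    (∫ t in Set.Ioi 0, FF η E ψ t) x = ∫ t in Set.Ioi 0, FF η E ψ t x := by
  rw [← coord_apply x, ← ContinuousLinearMap.integral_comp_comm _ (integrable_FF h hη E)]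
  simp only [coord_apply]

theorem laplace_eq (h : IsEvolution V ψ) {η : ℝ} (hη : 0 < η) (E : ℝ) :
    G V (zz η E) (del 0) = Complex.I • ∫ t in Set.Ioi 0, FF η E ψ t := by
  symm
  have hz : (zz η E).im ≠ 0 := by simpa using hη.ne'
  apply G_unique hz
  intro x
  set L := ∫ t in Set.Ioi 0, FF η E ψ t with hL
  have hi := integrable_FF h hη E
  have hd : ∀ t ∈ Set.Ici (0:ℝ), HasDerivAt (fun s => FF η E ψ s x)
      (Complex.I * (zz η E * FF η E ψ t x) -
        Complex.I * (lap (FF η E ψ t) x + (V x : ℂ) * FF η E ψ t x)) t := by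
    intro t _
    have h1 := h.2.2 t x
    have h2 : HasDerivAt (fun s : ℝ => Complex.exp (Complex.I * zz η E * s))
        (Complex.exp (Complex.I * zz η E * t) * (Complex.I * zz η E)) t := by
      have h4 : HasDerivAt (fun s : ℝ => Complex.I * zz η E * (s : ℂ)) (Complex.I * zz η E) t := by
        have := (hasDerivAt_id t).ofReal_comp.const_mul (Complex.I * zz η E)
        simpa using this
      exact h4.cexp
    have h3 := h2.mul h1
    have e : lap (FF η E ψ t) x = Complex.exp (Complex.I * zz η E * t) * lap (ψ t) x := by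
      rw [← Lap_apply, ← Lap_apply]
      unfold FF
      rw [map_smul, lp.coeFn_smul, Pi.smul_apply, smul_eq_mul]
    have e2 : Complex.I * (zz η E * FF η E ψ t x) -
        Complex.I * (lap (FF η E ψ t) x + (V x : ℂ) * FF η E ψ t x) =
        Complex.exp (Complex.I * zz η E * t) * (Complex.I * zz η E) * ψ t x +
        Complex.exp (Complex.I * zz η E * t) *
          (-Complex.I * (lap (ψ t) x + (V x : ℂ) * ψ t x)) := by
      rw [e, FF_apply]; ring
    rw [e2]
    exact h3
  have hx : IntegrableOn (fun t => FF η E ψ t x) (Set.Ioi 0) := by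
    have h1 := (coord x).integrable_comp hi
    have h2 : (fun t => FF η E ψ t x) = fun t => coord x (FF η E ψ t) := by
      funext t; rw [coord_apply]
    rw [h2]
    exact h1
  have hlx : IntegrableOn (fun t => lap (FF η E ψ t) x) (Set.Ioi 0) := by
    have h1 := (coord x).integrable_comp ((Lap d).integrable_comp hi)
    have h2 : (fun t => lap (FF η E ψ t) x) = fun t => coord x (Lap d (FF η E ψ t)) := by
      funext t; rw [coord_apply, Lap_apply]
    rw [h2]
    exact h1
  have hint : IntegrableOn (fun t => Complex.I * (zz η E * FF η E ψ t x) -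
        Complex.I * (lap (FF η E ψ t) x + (V x : ℂ) * FF η E ψ t x)) (Set.Ioi 0) := by
    apply Integrable.sub
    · exact (hx.const_mul _).const_mul _
    · exact (hlx.add (hx.const_mul _)).const_mul _
  have hlim : Tendsto (fun s => FF η E ψ s x) atTop (𝓝 0) := by
    rw [tendsto_zero_iff_norm_tendsto_zero]
    refine squeeze_zero (fun _ => norm_nonneg _) (g := fun t => Real.exp (-η * t)) ?_ ?_
    · intro t
      rw [← norm_FF h η E t, ← coord_apply x]
      unfold coord
      refine (ContinuousLinearMap.le_opNorm _ _).trans ?_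
      rw [innerSL_apply_norm, norm_del, one_mul]
    · have : Tendsto (fun t : ℝ => -η * t) atTop atBot :=
        tendsto_id.const_mul_atTop_of_neg (by linarith)
      exact Real.tendsto_exp_atBot.comp this
  have key := integral_Ioi_of_hasDerivAt_of_tendsto' hd hint hlim
  have e0 : FF η E ψ 0 x = del 0 x := by
    rw [FF_apply, h.2.1]
    simp
  rw [e0] at key
  have eL : L x = ∫ t in Set.Ioi 0, FF η E ψ t x := integral_FF_apply h hη E x
  have eLap : lap L x = ∫ t in Set.Ioi 0, lap (FF η E ψ t) x := by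
    rw [← Lap_apply, hL, ← ContinuousLinearMap.integral_comp_comm _ hi, ← coord_apply x,
      ← ContinuousLinearMap.integral_comp_comm _ ((Lap d).integrable_comp hi)]
    simp only [coord_apply, Lap_apply]
  have e6 : ∫ t in Set.Ioi 0, (Complex.I * (zz η E * FF η E ψ t x) -
        Complex.I * (lap (FF η E ψ t) x + (V x : ℂ) * FF η E ψ t x)) =
        Complex.I * (zz η E * L x) - Complex.I * (lap L x + (V x : ℂ) * L x) := by
    have i1 : Integrable (fun t => Complex.I * (zz η E * FF η E ψ t x))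
        (volume.restrict (Set.Ioi 0)) := (hx.const_mul _).const_mul _
    have i2 : Integrable (fun t => (V x : ℂ) * FF η E ψ t x)
        (volume.restrict (Set.Ioi 0)) := hx.const_mul _
    have i3 : Integrable (fun t => Complex.I * (lap (FF η E ψ t) x + (V x : ℂ) * FF η E ψ t x))
        (volume.restrict (Set.Ioi 0)) := (hlx.add i2).const_mul _
    rw [integral_sub i1 i3, integral_const_mul, integral_const_mul, integral_const_mul,
      integral_add hlx i2, integral_const_mul, ← eL, ← eLap]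
  rw [e6] at key
  have e5 : lap (⇑(Complex.I • L)) x = Complex.I * lap L x := by
    rw [← Lap_apply, ← Lap_apply, map_smul, lp.coeFn_smul, Pi.smul_apply, smul_eq_mul]
  rw [e5, lp.coeFn_smul, Pi.smul_apply, smul_eq_mul]
  linear_combination (-1 : ℂ) * key

end Pool.Agent.Helper54.Bal
end
end -- Pool.Agent.Helper54_Ballistic.Laplace

section -- Pool.Agent.Helper54_Ballistic.PlanchT

/-!
# Plancherel in time
-/

set_option autoImplicit false
set_option linter.unusedSectionVars false

open scoped InnerProductSpace ComplexConjugate Topology ENNReal FourierTransform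
open MeasureTheory Filter

noncomputable section

namespace Pool.Agent.Helper54.Bal

open Pool.Agent.Anderson

variable {d : ℕ} {V : Site d → ℝ} {ψ : ℝ → L2 d}

theorem lintegral_rescale (f : ℝ → ℝ≥0∞) {a : ℝ} (ha : a ≠ 0) :
    ∫⁻ E, f E = ENNReal.ofReal |a| * ∫⁻ ξ, f (a * ξ) := by
  conv_lhs => rw [← Real.smul_map_volume_mul_left ha]
  rw [lintegral_smul_measure, smul_eq_mul]
  congr 1
  exact (measurableEmbedding_mulLeft₀ ha).lintegral_map f

theorem norm_coord_le (f : L2 d) (x : Site d) : ‖f x‖ ≤ ‖f‖ := by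
  rw [← coord_apply x]
  unfold coord
  refine (ContinuousLinearMap.le_opNorm _ _).trans ?_
  rw [innerSL_apply_norm, norm_del, one_mul]

/-- the damped coordinate of the evolution -/
def ff (η : ℝ) (ψ : ℝ → L2 d) (x : Site d) : ℝ → ℂ :=
  (Set.Ioi (0:ℝ)).indicator fun t => (Real.exp (-η * t) : ℂ) * ψ t x

theorem continuous_coord (h : Continuous ψ) (x : Site d) : Continuous fun t => ψ t x := by
  have h2 : (fun t => ψ t x) = fun t => coord x (ψ t) := by
    funext t; rw [coord_apply]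
  rw [h2]
  exact (coord x).continuous.comp h

theorem norm_ff_le (h : IsEvolution V ψ) {η : ℝ} (x : Site d) (t : ℝ) :
    ‖ff η ψ x t‖ ≤ (Set.Ioi (0:ℝ)).indicator (fun t => Real.exp (-η * t)) t := by
  unfold ff
  rw [norm_indicator_eq_indicator_norm]
  apply Set.indicator_le_indicator
  rw [norm_mul, Complex.norm_real, Real.norm_of_nonneg (Real.exp_pos _).le]
  have := norm_coord_le (ψ t) x
  rw [norm_evol h] at this
  have h2 := Real.exp_pos (-η * t)
  nlinarith

theorem meas_ff (h : IsEvolution V ψ) {η : ℝ} (x : Site d) : AEStronglyMeasurable (ff η ψ x) := by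
  unfold ff
  apply AEStronglyMeasurable.indicator _ measurableSet_Ioi
  apply Continuous.aestronglyMeasurable
  have := continuous_coord h.1 x
  fun_prop

theorem integrable_ff (h : IsEvolution V ψ) {η : ℝ} (hη : 0 < η) (x : Site d) :
    Integrable (ff η ψ x) := by
  refine Integrable.mono' ?_ (meas_ff h x) (Eventually.of_forall (norm_ff_le h x))
  exact (integrable_indicator_iff measurableSet_Ioi).2 (integrable_exp hη)

theorem memLp_ff (h : IsEvolution V ψ) {η : ℝ} (hη : 0 < η) (x : Site d) :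
    MemLp (ff η ψ x) 2 := by
  rw [memLp_two_iff_integrable_sq_norm (meas_ff h x)]
  have h1 : Integrable ((Set.Ioi (0:ℝ)).indicator (fun t => Real.exp (-(2 * η) * t))) :=
    (integrable_indicator_iff measurableSet_Ioi).2 (integrable_exp (by linarith))
  refine Integrable.mono' h1 ((meas_ff h x).norm.pow 2) (Eventually.of_forall fun t => ?_)
  have h2 := norm_ff_le (η := η) h x t
  rw [Real.norm_of_nonneg (by positivity)]
  by_cases ht : t ∈ Set.Ioi (0:ℝ)
  · rw [Set.indicator_of_mem ht] at h2 ⊢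
    have e : Real.exp (-(2 * η) * t) = Real.exp (-η * t) ^ 2 := by
      rw [← Real.exp_nat_mul]; congr 1; push_cast; ring
    rw [e]
    exact pow_le_pow_left₀ (norm_nonneg _) h2 2
  · rw [Set.indicator_of_notMem ht] at h2 ⊢
    have : ‖ff η ψ x t‖ = 0 := le_antisymm h2 (norm_nonneg _)
    rw [this]; simp

theorem fourier_ff (h : IsEvolution V ψ) {η : ℝ} (hη : 0 < η) (x : Site d) (ξ : ℝ) :
    𝓕 (ff η ψ x) ξ = -Complex.I * G V (zz η (-(2 * Real.pi) * ξ)) (del 0) x := by
  rw [Real.fourier_real_eq_integral_exp_smul, laplace_eq h hη, lp.coeFn_smul, Pi.smul_apply,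
    smul_eq_mul, integral_FF_apply h hη]
  have e : (fun v : ℝ => Complex.exp (((-2 * Real.pi * v * ξ : ℝ) : ℂ) * Complex.I) •
      ff η ψ x v) = (Set.Ioi (0:ℝ)).indicator (fun v => FF η (-(2 * Real.pi) * ξ) ψ v x) := by
    funext v
    unfold ff
    by_cases hv : v ∈ Set.Ioi (0:ℝ)
    · rw [Set.indicator_of_mem hv, Set.indicator_of_mem hv, FF_apply, smul_eq_mul, ← mul_assoc,
        Complex.ofReal_exp, ← Complex.exp_add]
      congr 2
      unfold zz
      push_cast
      have := Complex.I_sq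
      linear_combination ((-η : ℂ) * v) * this
    · rw [Set.indicator_of_notMem hv, Set.indicator_of_notMem hv, smul_zero]
  rw [e, integral_indicator measurableSet_Ioi, ← mul_assoc]
  simp

theorem planch_coord (h : IsEvolution V ψ) {η : ℝ} (hη : 0 < η) (x : Site d) :
    ∫⁻ E : ℝ, ENNReal.ofReal (‖G V (zz η E) (del 0) x‖ ^ 2) =
      ENNReal.ofReal (2 * Real.pi) *
        ∫⁻ t in Set.Ioi (0:ℝ), ENNReal.ofReal (Real.exp (-(2 * η) * t) * ‖ψ t x‖ ^ 2) := by
  have h1 := Pool.Agent.Helper95_Fourier.eLpNorm_fourier_eq (integrable_ff h hη x) (memLp_ff h hη x)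
  have e2 : ∀ g : ℝ → ℂ, eLpNorm g 2 volume ^ 2 = ∫⁻ t, ENNReal.ofReal (‖g t‖ ^ 2) := by
    intro g
    rw [eLpNorm_eq_lintegral_rpow_enorm_toReal (by norm_num) (by norm_num), ENNReal.toReal_ofNat,
      ← ENNReal.rpow_natCast, ← ENNReal.rpow_mul]
    norm_num
  have h3 := congrArg (fun a => a ^ 2) h1
  simp only [e2] at h3
  rw [lintegral_rescale _ (a := -(2 * Real.pi)) (by have := Real.pi_pos; linarith)]
  have e4 : |-(2 * Real.pi)| = 2 * Real.pi := by
    rw [abs_neg, abs_of_pos (by have := Real.pi_pos; linarith)]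
  rw [e4]
  congr 1
  have e5 : ∀ ξ, ENNReal.ofReal (‖𝓕 (ff η ψ x) ξ‖ ^ 2) =
      ENNReal.ofReal (‖G V (zz η (-(2 * Real.pi) * ξ)) (del 0) x‖ ^ 2) := by
    intro ξ
    rw [fourier_ff h hη, norm_mul, norm_neg, Complex.norm_I, one_mul]
  simp only [e5] at h3
  rw [h3, ← lintegral_indicator measurableSet_Ioi]
  apply lintegral_congr
  intro t
  unfold ff
  by_cases ht : t ∈ Set.Ioi (0:ℝ)
  · rw [Set.indicator_of_mem ht, Set.indicator_of_mem ht, norm_mul, mul_pow, Complex.norm_real,
      Real.norm_of_nonneg (Real.exp_pos _).le]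
    congr 2
    rw [← Real.exp_nat_mul]; congr 1; push_cast; ring
  · rw [Set.indicator_of_notMem ht, Set.indicator_of_notMem ht]
    simp

end Pool.Agent.Helper54.Bal
end
end -- Pool.Agent.Helper54_Ballistic.PlanchT
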