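import Pool.Agent.Helper12_MEB.B021
import Pool.Agent.Helper12_MEB.B022

/-!
# Merged copies (generated) of the modules

* `Pool.Agent.Helper54_Ballistic.Moment`
* `Pool.Agent.Helper54_Ballistic.Dyson`
-/

set_option autoImplicit false

section -- Pool.Agent.Helper54_Ballistic.Moment

/-!
# The second moment is controlled by the energy integral of `‖X_i G δ₀‖²`
-/

set_option autoImplicit false
set_option linter.unusedSectionVars false

open scoped InnerProductSpace ComplexConjugate Topology ENNReal FourierTransform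
open MeasureTheory Filter

noncomputable section

namespace Pool.Agent.Helper54.Bal

open Pool.Agent.Anderson

variable {d : ℕ} {V : Site d → ℝ} {ψ : ℝ → L2 d}

theorem ofReal_norm_sq (f : L2 d) : ENNReal.ofReal (‖f‖ ^ 2) = ∑' x, ENNReal.ofReal (‖f x‖ ^ 2) := by
  rw [L2.norm_sq, ENNReal.ofReal_tsum_of_nonneg (fun n => by positivity) (L2.summable_sq f)]

/-- second moment of the `i`-th coordinate in the state `f` -/
def mom (i : Fin d) (f : L2 d) : ℝ≥0∞ := ∑' x : Site d, ENNReal.ofReal ((x i : ℝ) ^ 2 * ‖f x‖ ^ 2)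

theorem XX_le_mom (n : ℕ) (i : Fin d) (f : L2 d) : ENNReal.ofReal (‖XX n i f‖ ^ 2) ≤ mom i f := by
  rw [ofReal_norm_sq]
  unfold mom
  refine ENNReal.tsum_le_tsum fun x => ?_
  apply ENNReal.ofReal_le_ofReal
  rw [XX_apply, norm_mul, mul_pow, Complex.norm_real, Real.norm_eq_abs, sq_abs]
  have h1 := chi_sub_le n (x i) 0
  rw [chi_zero, sub_zero] at h1
  have h2 : chi n (x i) ^ 2 ≤ (x i : ℝ) ^ 2 := by
    rw [sq_le_sq]
    simpa using h1
  have h3 : 0 ≤ ‖f x‖ ^ 2 := by positivity
  exact mul_le_mul_of_nonneg_right h2 h3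

theorem mom_le_of_forall {i : Fin d} {f : L2 d} {B : ℝ≥0∞}
    (h : ∀ n, ENNReal.ofReal (‖XX n i f‖ ^ 2) ≤ B) : mom i f ≤ B := by
  unfold mom
  rw [ENNReal.tsum_eq_iSup_sum]
  refine iSup_le fun s => ?_
  have h1 : ∀ᶠ n : ℕ in atTop, ∀ x ∈ s, chi n (x i) = x i :=
    (Finset.eventually_all s).2 fun x _ => chi_eventually (x i)
  obtain ⟨n, hn⟩ := h1.exists
  refine le_trans ?_ (h n)
  rw [ofReal_norm_sq]
  refine le_trans (le_of_eq ?_) (ENNReal.sum_le_tsum s)
  apply Finset.sum_congr rfl
  intro x hx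
  rw [XX_apply, norm_mul, mul_pow, Complex.norm_real, Real.norm_eq_abs, sq_abs, hn x hx]

theorem meas_ofReal_coord (h : Continuous ψ) (x : Site d) :
    Measurable fun t => ENNReal.ofReal (‖ψ t x‖ ^ 2) := by
  have h1 := continuous_coord h x
  exact ENNReal.measurable_ofReal.comp (h1.norm.pow 2).measurable

/-- the energy identity -/
theorem energy_eq (h : IsEvolution V ψ) {η : ℝ} (hη : 0 < η) (i : Fin d) :
    ∫⁻ E : ℝ, ENNReal.ofReal (‖yv i V (zz η E)‖ ^ 2) =
      ENNReal.ofReal (2 * Real.pi) *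
        ∫⁻ t in Set.Ioi (0:ℝ), ENNReal.ofReal (Real.exp (-(2 * η) * t)) * mom i (ψ t) := by
  have hz : ∀ E, (zz η E).im ≠ 0 := fun E => by simpa using hη.ne'
  have e1 : ∀ E : ℝ, ENNReal.ofReal (‖yv i V (zz η E)‖ ^ 2) =
      ∑' x : Site d, ENNReal.ofReal ((x i : ℝ) ^ 2) *
        ENNReal.ofReal (‖G V (zz η E) (del 0) x‖ ^ 2) := by
    intro E
    rw [ofReal_norm_sq]
    apply tsum_congr
    intro x
    rw [yv_apply i (hz E), norm_mul, mul_pow, ← ENNReal.ofReal_mul (by positivity)]
    congr 2
    rw [Complex.norm_intCast, sq_abs]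
  simp_rw [e1]
  have hm : ∀ x : Site d, Measurable fun E : ℝ =>
      ENNReal.ofReal (‖G V (zz η E) (del 0) x‖ ^ 2) := by
    intro x
    have h1 : Continuous fun E : ℝ => G V (zz η E) (del 0) := by
      have h0 : Continuous fun E : ℝ => ((V, E, del 0) : (Site d → ℝ) × ℝ × L2 d) := by fun_prop
      have := (continuous_G (d := d) hη.ne').comp h0
      exact this
    exact meas_ofReal_coord h1 x
  rw [lintegral_tsum (fun x => ((hm x).const_mul _).aemeasurable)]
  have e2 : ∀ x : Site d, ∫⁻ E : ℝ, ENNReal.ofReal ((x i : ℝ) ^ 2) *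
        ENNReal.ofReal (‖G V (zz η E) (del 0) x‖ ^ 2) =
      ENNReal.ofReal (2 * Real.pi) * ∫⁻ t in Set.Ioi (0:ℝ),
        ENNReal.ofReal (Real.exp (-(2 * η) * t)) *
          ENNReal.ofReal ((x i : ℝ) ^ 2 * ‖ψ t x‖ ^ 2) := by
    intro x
    rw [lintegral_const_mul _ (hm x), planch_coord h hη x, ← mul_assoc,
      mul_comm (ENNReal.ofReal ((x i : ℝ) ^ 2)), mul_assoc]
    congr 1
    rw [← lintegral_const_mul' _ _ ENNReal.ofReal_ne_top]
    apply lintegral_congr
    intro t
    rw [← ENNReal.ofReal_mul (by positivity), ← ENNReal.ofReal_mul (Real.exp_pos _).le]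
    congr 1
    ring
  simp_rw [e2]
  rw [ENNReal.tsum_mul_left]
  congr 1
  rw [← lintegral_tsum]
  · apply lintegral_congr
    intro t
    rw [ENNReal.tsum_mul_left]
    rfl
  · intro x
    have m1 : Measurable fun t : ℝ => ENNReal.ofReal (Real.exp (-(2 * η) * t)) :=
      ENNReal.measurable_ofReal.comp (by fun_prop)
    have m2 : Measurable fun t : ℝ => ENNReal.ofReal ((x i : ℝ) ^ 2 * ‖ψ t x‖ ^ 2) := by
      have h1 := continuous_coord h.1 x
      have h2 : Continuous fun t : ℝ => (x i : ℝ) ^ 2 * ‖ψ t x‖ ^ 2 :=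
        continuous_const.mul (h1.norm.pow 2)
      exact ENNReal.measurable_ofReal.comp h2.measurable
    exact (m1.mul m2).aemeasurable

/-- cubic lower bound on the energy integral -/
theorem cubic_le (h : IsEvolution V ψ) {T : ℝ} (hT : 0 < T) (i : Fin d) (n : ℕ) :
    ENNReal.ofReal ((‖XX n i (ψ T)‖ / T) ^ 3) ≤
      ENNReal.ofReal (8 * Real.exp 2 / Real.pi) * (ENNReal.ofReal ((1 / T) ^ 3) *
        ∫⁻ E : ℝ, ENNReal.ofReal (‖yv i V (zz (1 / T) E)‖ ^ 2)) := by
  set m : ℝ → ℝ := fun t => ‖XX n i (ψ t)‖ with hm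
  set a := m T / T with ha
  have hη : 0 < 1 / T := by positivity
  have hpi := Real.pi_pos
  have hm0 : m 0 = 0 := by
    have : XX n i (ψ 0) = 0 := by
      ext x
      rw [XX_apply, h.2.1, del_apply]
      by_cases hx : x = 0
      · subst hx
        simp [chi_zero]
      · simp [hx]
    rw [hm]
    simp only
    rw [this, norm_zero]
  have ha0 : 0 ≤ a := by positivity
  have haT : m T = a * T := by rw [ha]; field_simp
  have ha2 : a ≤ 2 := by
    have h1 := XX_lipschitz h n i 0 T
    change |m T - m 0| ≤ _ at h1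
    rw [hm0, sub_zero, sub_zero, abs_of_pos hT] at h1
    have h2 := le_abs_self (m T)
    rw [ha, div_le_iff₀ hT]
    linarith only [h1, h2]
  have hlow : ∀ t ∈ Set.Ioc (T - a * T / 4) T, Real.exp (-2) * (a * T / 2) ^ 2 ≤
      Real.exp (-(2 * (1 / T)) * t) * m t ^ 2 := by
    intro t ht
    have h1 := XX_lipschitz h n i t T
    change |m T - m t| ≤ _ at h1
    rw [abs_of_nonneg (by linarith only [ht.2] : 0 ≤ T - t)] at h1
    have h2 := (abs_le.1 h1).2
    have h3 : a * T / 2 ≤ m t := by
      have := ht.1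
      linarith only [haT, h2, this]
    have h4 : 0 ≤ a * T / 2 := by positivity
    have h5 : (a * T / 2) ^ 2 ≤ m t ^ 2 := pow_le_pow_left₀ h4 h3 2
    have h6 : Real.exp (-2) ≤ Real.exp (-(2 * (1 / T)) * t) := by
      apply Real.exp_le_exp.2
      have h7 : t / T ≤ 1 := by rw [div_le_one hT]; exact ht.2
      have h8 : -(2 * (1 / T)) * t = -2 * (t / T) := by ring
      rw [h8]
      linarith only [h7]
    have h7 := Real.exp_pos (-2 : ℝ)
    exact mul_le_mul h6 h5 (by positivity) (Real.exp_pos _).le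
  have hsub : Set.Ioc (T - a * T / 4) T ⊆ Set.Ioi (0:ℝ) := by
    intro t ht
    have h1 := ht.1
    have h2 : a * T ≤ 2 * T := by nlinarith only [hT, ha2]
    simp only [Set.mem_Ioi]
    nlinarith only [hT, h1, h2]
  have key : ENNReal.ofReal (Real.exp (-2) * (a * T / 2) ^ 2 * (a * T / 4)) ≤
      ∫⁻ t in Set.Ioi (0:ℝ), ENNReal.ofReal (Real.exp (-(2 * (1 / T)) * t)) * mom i (ψ t) := by
    calc ENNReal.ofReal (Real.exp (-2) * (a * T / 2) ^ 2 * (a * T / 4))
        = ∫⁻ _ in Set.Ioc (T - a * T / 4) T, ENNReal.ofReal (Real.exp (-2) * (a * T / 2) ^ 2) := by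
          rw [setLIntegral_const, Real.volume_Ioc, ENNReal.ofReal_mul (by positivity)]
          congr 2
          ring
      _ ≤ ∫⁻ t in Set.Ioc (T - a * T / 4) T,
          ENNReal.ofReal (Real.exp (-(2 * (1 / T)) * t)) * mom i (ψ t) := by
          apply setLIntegral_mono' measurableSet_Ioc
          intro t ht
          refine (ENNReal.ofReal_le_ofReal (hlow t ht)).trans ?_
          rw [ENNReal.ofReal_mul (Real.exp_pos _).le]
          gcongr
          exact XX_le_mom n i (ψ t)
      _ ≤ _ := lintegral_mono_set hsub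
  rw [energy_eq h hη i, ← mul_assoc, ← mul_assoc, ← ENNReal.ofReal_mul (by positivity),
    ← ENNReal.ofReal_mul (by positivity)]
  calc ENNReal.ofReal ((‖XX n i (ψ T)‖ / T) ^ 3)
      = ENNReal.ofReal (8 * Real.exp 2 / Real.pi * (1 / T) ^ 3 * (2 * Real.pi)) *
        ENNReal.ofReal (Real.exp (-2) * (a * T / 2) ^ 2 * (a * T / 4)) := by
        rw [← ENNReal.ofReal_mul (by positivity)]
        congr 1
        have he : Real.exp 2 * Real.exp (-2) = 1 := by rw [← Real.exp_add]; simp
        have : 8 * Real.exp 2 / Real.pi * (1 / T) ^ 3 * (2 * Real.pi) *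
            (Real.exp (-2) * (a * T / 2) ^ 2 * (a * T / 4)) =
            (Real.exp 2 * Real.exp (-2)) * a ^ 3 := by
          field_simp
          ring
        rw [this, he, one_mul]
    _ ≤ _ := by gcongr

/-- **the second moment at time `T`** -/
theorem mom_le (h : IsEvolution V ψ) {T : ℝ} (hT : 0 < T) {δ : ℝ} (hδ : 0 < δ) (i : Fin d) :
    mom i (ψ T) ≤ ENNReal.ofReal (T ^ 2) * (ENNReal.ofReal (δ ^ 2) +
      ENNReal.ofReal (8 * Real.exp 2 / Real.pi / δ) * (ENNReal.ofReal ((1 / T) ^ 3) *
        ∫⁻ E : ℝ, ENNReal.ofReal (‖yv i V (zz (1 / T) E)‖ ^ 2))) := by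
  apply mom_le_of_forall
  intro n
  have hpi := Real.pi_pos
  set a := ‖XX n i (ψ T)‖ / T with ha
  have ha0 : 0 ≤ a := by positivity
  have h1 : ‖XX n i (ψ T)‖ ^ 2 = T ^ 2 * a ^ 2 := by rw [ha]; field_simp
  have h2 : a ^ 2 ≤ δ ^ 2 + 1 / δ * a ^ 3 := by
    by_cases hc : a ≤ δ
    · have : a ^ 2 ≤ δ ^ 2 := pow_le_pow_left₀ ha0 hc 2
      have h3 : 0 ≤ 1 / δ * a ^ 3 := by positivity
      linarith
    · push Not at hc
      have h3 : a ^ 2 ≤ 1 / δ * a ^ 3 := by
        have h4 : 1 ≤ a / δ := by rw [one_le_div hδ]; exact hc.le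
        have h5 : 1 / δ * a ^ 3 = a ^ 2 * (a / δ) := by ring
        rw [h5]
        nlinarith only [sq_nonneg a, h4]
      have h4 : 0 ≤ δ ^ 2 := by positivity
      linarith
  rw [h1, ENNReal.ofReal_mul (by positivity)]
  gcongr
  refine (ENNReal.ofReal_le_ofReal h2).trans ?_
  rw [ENNReal.ofReal_add (by positivity) (by positivity)]
  gcongr
  rw [ENNReal.ofReal_mul (by positivity)]
  have h3 := cubic_le h hT i n
  have h4 : 8 * Real.exp 2 / Real.pi / δ = 1 / δ * (8 * Real.exp 2 / Real.pi) := by ring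
  rw [h4, ENNReal.ofReal_mul (by positivity), mul_assoc]
  gcongr

end Pool.Agent.Helper54.Bal
end
end -- Pool.Agent.Helper54_Ballistic.Moment

section -- Pool.Agent.Helper54_Ballistic.Dyson

/-!
# Existence, uniqueness and continuity in the potential of the Schrödinger evolution
-/

set_option autoImplicit false
set_option linter.unusedSectionVars false

open scoped InnerProductSpace ComplexConjugate Topology ENNReal
open MeasureTheory Filter

noncomputable section

namespace Pool.Agent.Helper54.Bal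

open Pool.Agent.Anderson

variable {d : ℕ}

theorem continuous_U0_gen {Y : Type*} [TopologicalSpace Y] {W : Y → Site d → ℝ}
    (hW : Continuous W) {g : Y → ℝ} (hg : Continuous g) {f : Y → L2 d} (hf : Continuous f) :
    Continuous fun y => U0 (W y) (g y) (f y) := by
  rw [continuous_iff_continuousAt]
  intro t0
  rw [ContinuousAt, tendsto_iff_norm_sub_tendsto_zero]
  have key : ∀ t, ‖U0 (W t) (g t) (f t) - U0 (W t0) (g t0) (f t0)‖ ≤
      ‖f t - f t0‖ + ‖U0 (W t) (g t) (f t0) - U0 (W t0) (g t0) (f t0)‖ := by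
    intro t
    have e : U0 (W t) (g t) (f t) - U0 (W t0) (g t0) (f t0) =
        U0 (W t) (g t) (f t - f t0) + (U0 (W t) (g t) (f t0) - U0 (W t0) (g t0) (f t0)) := by
      rw [map_sub]; abel
    rw [e]
    refine (norm_add_le _ _).trans ?_
    rw [U0_norm]
  refine squeeze_zero (fun _ => norm_nonneg _) key ?_
  have t1 := tendsto_iff_norm_sub_tendsto_zero.1 (hf.tendsto t0)
  have t2 : Tendsto (fun t => U0 (W t) (g t) (f t0)) (𝓝 t0) (𝓝 (U0 (W t0) (g t0) (f t0))) := by
    unfold U0
    apply tendsto_mulOp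
    intro x
    have hx : Continuous fun t => W t x := (continuous_apply x).comp hW
    have : Continuous fun t => Complex.exp (-Complex.I * (g t : ℂ) * W t x) := by fun_prop
    exact this.tendsto t0
  have t3 := tendsto_iff_norm_sub_tendsto_zero.1 t2
  have t4 := t1.add t3
  rw [add_zero] at t4
  exact t4

/-- the generator in the interaction picture -/
def BB (V : Site d → ℝ) (s : ℝ) (f : L2 d) : L2 d := (-Complex.I) • U0 V (-s) (Lap d (U0 V s f))

theorem norm_BB (V : Site d → ℝ) (s : ℝ) (f : L2 d) : ‖BB V s f‖ ≤ ‖Lap d‖ * ‖f‖ := by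
  unfold BB
  rw [norm_smul, norm_neg, Complex.norm_I, one_mul, U0_norm]
  refine (ContinuousLinearMap.le_opNorm _ _).trans ?_
  rw [U0_norm]

theorem BB_sub (V : Site d → ℝ) (s : ℝ) (f g : L2 d) : BB V s (f - g) = BB V s f - BB V s g := by
  unfold BB
  rw [map_sub, map_sub, map_sub, smul_sub]

theorem continuous_BB {Y : Type*} [TopologicalSpace Y] {W : Y → Site d → ℝ}
    (hW : Continuous W) {g : Y → ℝ} (hg : Continuous g) {f : Y → L2 d} (hf : Continuous f) :
    Continuous fun y => BB (W y) (g y) (f y) := by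
  have h1 : Continuous fun y => Lap d (U0 (W y) (g y) (f y)) :=
    (Lap d).continuous.comp (continuous_U0_gen hW hg hf)
  have h2 : Continuous fun y => U0 (W y) (-(g y)) (Lap d (U0 (W y) (g y) (f y))) :=
    continuous_U0_gen hW hg.neg h1
  have h3 : Continuous fun y =>
    (-Complex.I) • U0 (W y) (-(g y)) (Lap d (U0 (W y) (g y) (f y))) := h2.const_smul (-Complex.I)
  exact h3

/-- the terms of the Dyson series -/
def dy (V : Site d → ℝ) : ℕ → ℝ → L2 d
  | 0, _ => del 0
  | n + 1, t => ∫ s in (0:ℝ)..t, BB V s (dy V n s)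

theorem continuous_dy (V : Site d → ℝ) (n : ℕ) : Continuous (dy V n) := by
  induction n with
  | zero => exact continuous_const
  | succ n ih =>
    have h1 : Continuous fun s => BB V s (dy V n s) :=
      continuous_BB continuous_const continuous_id ih
    exact intervalIntegral.continuous_primitive (fun a b => h1.intervalIntegrable a b) 0

theorem continuous_BBdy (V : Site d → ℝ) (n : ℕ) : Continuous fun s => BB V s (dy V n s) :=
  continuous_BB continuous_const continuous_id (continuous_dy V n)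

theorem hasDerivAt_dy (V : Site d → ℝ) (n : ℕ) (t : ℝ) :
    HasDerivAt (dy V (n + 1)) (BB V t (dy V n t)) t := by
  have h1 := continuous_BBdy V n
  exact intervalIntegral.integral_hasDerivAt_right (h1.intervalIntegrable 0 t)
    (h1.stronglyMeasurableAtFilter _ _) h1.continuousAt

theorem norm_dy (V : Site d → ℝ) (n : ℕ) (t : ℝ) :
    ‖dy V n t‖ ≤ (‖Lap d‖ * |t|) ^ n / n.factorial := by
  induction n generalizing t with
  | zero => simp [dy, norm_del]
  | succ n ih =>
    have h1 := continuous_BBdy V n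
    have hb : ∀ s, ‖BB V s (dy V n s)‖ ≤ ‖Lap d‖ ^ (n + 1) / n.factorial * |s - 0| ^ n := by
      intro s
      refine (norm_BB V s _).trans ?_
      have := mul_le_mul_of_nonneg_left (ih s) (norm_nonneg (Lap d))
      refine this.trans (le_of_eq ?_)
      rw [sub_zero, mul_pow]
      ring
    have h2 : ‖dy V (n + 1) t‖ ≤ ∫ s in Set.uIoc 0 t, ‖BB V s (dy V n s)‖ :=
      intervalIntegral.norm_integral_le_integral_norm_uIoc
    have hi : IntegrableOn (fun s : ℝ => ‖Lap d‖ ^ (n + 1) / n.factorial * |s - 0| ^ n)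
        (Set.uIoc 0 t) := by
      have hc : Continuous fun s : ℝ => ‖Lap d‖ ^ (n + 1) / n.factorial * |s - 0| ^ n := by
        fun_prop
      exact intervalIntegrable_iff.1 (hc.intervalIntegrable 0 t)
    have h3 : ∫ s in Set.uIoc 0 t, ‖BB V s (dy V n s)‖ ≤
        ∫ s in Set.uIoc 0 t, ‖Lap d‖ ^ (n + 1) / n.factorial * |s - 0| ^ n := by
      refine setIntegral_mono ?_ hi fun s => hb s
      exact intervalIntegrable_iff.1 (h1.norm.intervalIntegrable 0 t)
    refine (h2.trans h3).trans (le_of_eq ?_)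
    rw [integral_const_mul, integral_pow_abs_sub_uIoc, sub_zero, Nat.factorial_succ, mul_pow,
      div_mul_div_comm, Nat.cast_mul, Nat.cast_succ, mul_comm (n.factorial : ℝ)]

theorem summable_bd (d : ℕ) (t : ℝ) :
    Summable fun n : ℕ => (‖Lap d‖ * |t|) ^ n / n.factorial :=
  Real.summable_pow_div_factorial _

/-- the sum of the Dyson series -/
def dys (V : Site d → ℝ) (t : ℝ) : L2 d := ∑' n, dy V n t

theorem summable_dy (V : Site d → ℝ) (t : ℝ) : Summable fun n => dy V n t :=
  Summable.of_norm_bounded (summable_bd d t) (norm_dy V · t)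

theorem BB_tsum (V : Site d → ℝ) (t : ℝ) {g : ℕ → L2 d} (hg : Summable g) :
    BB V t (∑' n, g n) = ∑' n, BB V t (g n) := by
  have h1 : HasSum (fun n => U0 V t (g n)) (U0 V t (∑' n, g n)) := (U0 V t).hasSum hg.hasSum
  have h2 : HasSum (fun n => Lap d (U0 V t (g n))) (Lap d (U0 V t (∑' n, g n))) := (Lap d).hasSum h1
  have h3 : HasSum (fun n => U0 V (-t) (Lap d (U0 V t (g n))))
    (U0 V (-t) (Lap d (U0 V t (∑' n, g n)))) := (U0 V (-t)).hasSum h2
  have h4 : HasSum (fun n => BB V t (g n)) (BB V t (∑' n, g n)) := h3.const_smul (-Complex.I)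
  exact h4.tsum_eq.symm

theorem hasDerivAt_dys_tail (V : Site d → ℝ) (t : ℝ) :
    HasDerivAt (fun s => ∑' n, dy V (n + 1) s) (∑' n, BB V t (dy V n t)) t := by
  set R := |t| + 1 with hR
  have hmem : t ∈ Metric.ball (0 : ℝ) R := by
    rw [Metric.mem_ball, Real.dist_eq, sub_zero]
    linarith
  have hs1 : Summable fun n => dy V (n + 1) t :=
    (summable_nat_add_iff (f := fun n => dy V n t) 1).2 (summable_dy V t)
  have hb : ∀ (n : ℕ) (y : ℝ), y ∈ Metric.ball (0 : ℝ) R →
      ‖BB V y (dy V n y)‖ ≤ ‖Lap d‖ * ((‖Lap d‖ * |R|) ^ n / n.factorial) := by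
    intro n y hy
    refine (norm_BB V y _).trans (mul_le_mul_of_nonneg_left ?_ (norm_nonneg _))
    rw [Metric.mem_ball, Real.dist_eq, sub_zero] at hy
    exact (norm_dy V n y).trans (div_le_div_of_nonneg_right (pow_le_pow_left₀ (by positivity)
      (mul_le_mul_of_nonneg_left (hy.le.trans (le_abs_self R)) (norm_nonneg _)) n)
      (by positivity))
  exact hasDerivAt_tsum_of_isPreconnected ((summable_bd d R).mul_left _) Metric.isOpen_ball
    (convex_ball _ _).isPreconnected (fun n y _ => hasDerivAt_dy V n y) hb hmem hs1 hmem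

theorem hasDerivAt_dys (V : Site d → ℝ) (t : ℝ) : HasDerivAt (dys V) (BB V t (dys V t)) t := by
  have hs := summable_dy V
  have e1 : dys V = fun s => dy V 0 s + ∑' n, dy V (n + 1) s := by
    funext s
    unfold dys
    exact (hs s).tsum_eq_zero_add
  have e2 : BB V t (dys V t) = 0 + ∑' n, BB V t (dy V n t) := by
    rw [zero_add]
    exact BB_tsum V t (hs t)
  rw [e2, e1]
  exact (hasDerivAt_const t (del 0)).add (hasDerivAt_dys_tail V t)

/-- the evolution -/
def evol (V : Site d → ℝ) (t : ℝ) : L2 d := U0 V t (dys V t)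

theorem isEvolution_evol (V : Site d → ℝ) : IsEvolution V (evol V) := by
  have hc : Continuous (dys V) :=
    continuous_iff_continuousAt.2 fun t => (hasDerivAt_dys V t).continuousAt
  refine ⟨continuous_U0 V hc continuous_id, ?_, ?_⟩
  · unfold evol
    rw [U0_zero]
    unfold dys
    rw [(summable_dy V 0).tsum_eq_zero_add]
    simp [dy]
  · intro t x
    have h1 : HasDerivAt (fun s => dys V s x) (BB V t (dys V t) x) t := by
      have h0 := ((coord x).restrictScalars ℝ).hasFDerivAt.comp_hasDerivAt t (hasDerivAt_dys V t)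
      have e : (fun s => dys V s x) = fun s => coord x (dys V s) := by
        funext s; rw [coord_apply]
      rw [e, ← coord_apply x]
      exact h0
    have h2 : HasDerivAt (fun s : ℝ => Complex.exp (-Complex.I * (s : ℂ) * V x))
        (Complex.exp (-Complex.I * (t : ℂ) * V x) * (-Complex.I * V x)) t := by
      have h3 : HasDerivAt (fun s : ℝ => -Complex.I * (s : ℂ) * V x) (-Complex.I * V x) t := by
        have h4 := (((hasDerivAt_id t).ofReal_comp).const_mul (-Complex.I)).mul_const (V x : ℂ)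
        simpa using h4
      exact h3.cexp
    have h6 := h2.mul h1
    have e : -Complex.I * (lap (evol V t) x + (V x : ℂ) * evol V t x) =
        Complex.exp (-Complex.I * (t : ℂ) * V x) * (-Complex.I * V x) * dys V t x +
        Complex.exp (-Complex.I * (t : ℂ) * V x) * BB V t (dys V t) x := by
      unfold BB evol
      rw [lp.coeFn_smul, Pi.smul_apply, U0_apply V (-t), Lap_apply, smul_eq_mul, U0_apply V t]
      have hh : Complex.exp (-Complex.I * (t : ℂ) * V x) *
          Complex.exp (-Complex.I * ((-t : ℝ) : ℂ) * V x) = 1 := by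
        rw [← Complex.exp_add]
        have : -Complex.I * t * V x + -Complex.I * ((-t : ℝ) : ℂ) * V x = 0 := by push_cast; ring
        rw [this, Complex.exp_zero]
      linear_combination (Complex.I * lap (U0 V t (dys V t)) x) * hh
    rw [e]
    exact h6

theorem evol_unique {V : Site d → ℝ} {ψ φ : ℝ → L2 d} (hψ : IsEvolution V ψ)
    (hφ : IsEvolution V φ) : φ = ψ := by
  have hd : ∀ {χ : ℝ → L2 d}, IsEvolution V χ → ∀ t,
      HasDerivAt (cc V χ) (BB V t (cc V χ t)) t := by
    intro χ hχ t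
    have h1 := hasDerivAt_cc hχ t
    have e : BB V t (cc V χ t) = bb V χ t := by
      unfold BB cc bb
      rw [U0_U0]
    rw [e]
    exact h1
  have h1 : cc V φ = cc V ψ := by
    refine ODE_solution_unique_univ (v := fun t f => BB V t f) (K := ‖Lap d‖₊)
      (s := fun _ => Set.univ) (t₀ := 0) (fun t => ?_) (fun t => ⟨hd hφ t, Set.mem_univ _⟩)
      (fun t => ⟨hd hψ t, Set.mem_univ _⟩) ?_
    · apply LipschitzWith.lipschitzOnWith
      apply LipschitzWith.of_dist_le_mul
      intro f g
      rw [dist_eq_norm, dist_eq_norm, ← BB_sub]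
      exact norm_BB V t _
    · unfold cc
      rw [hφ.2.1, hψ.2.1]
  funext t
  have h2 := congrFun h1 t
  unfold cc at h2
  have h3 := congrArg (U0 V t) h2
  rwa [U0_U0, U0_U0] at h3

theorem continuous_dy_pot (n : ℕ) (t : ℝ) : Continuous fun V : Site d → ℝ => dy V n t := by
  induction n generalizing t with
  | zero => exact continuous_const
  | succ n ih =>
    have hb : ∀ (V : Site d → ℝ) (s : ℝ), s ∈ Set.uIoc 0 t → ‖BB V s (dy V n s)‖ ≤
        ‖Lap d‖ * ((‖Lap d‖ * |t|) ^ n / n.factorial) := by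
      intro V s hs
      refine (norm_BB V s _).trans ?_
      gcongr
      have hst : |s| ≤ |t| := by
        have := Set.abs_sub_left_of_mem_uIcc (Set.uIoc_subset_uIcc hs)
        simpa using this
      exact (norm_dy V n s).trans (div_le_div_of_nonneg_right (pow_le_pow_left₀ (by positivity)
        (mul_le_mul_of_nonneg_left hst (norm_nonneg _)) n) (by positivity))
    refine intervalIntegral.continuous_of_dominated_interval (μ := volume)
      (F := fun (V : Site d → ℝ) s => BB V s (dy V n s))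
      (bound := fun _ => ‖Lap d‖ * ((‖Lap d‖ * |t|) ^ n / n.factorial))
      (fun V => (continuous_BBdy V n).aestronglyMeasurable)
      (fun V => Eventually.of_forall fun s hs => hb V s hs)
      (intervalIntegrable_const) (Eventually.of_forall fun s _ => ?_)
    exact continuous_BB continuous_id continuous_const (ih s)

theorem continuous_evol_pot (t : ℝ) : Continuous fun V : Site d → ℝ => evol V t := by
  apply continuous_U0_gen continuous_id continuous_const
  unfold dys
  exact continuous_tsum (fun n => continuous_dy_pot n t) (summable_bd d t) fun n V => norm_dy V n t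

end Pool.Agent.Helper54.Bal
end
end -- Pool.Agent.Helper54_Ballistic.Dyson
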