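import Pool.Agent.Helper12_MEB.B017

/-!
# Merged copies (generated) of the modules

* `Pool.Agent.Helper54_Ballistic.Cov`
* `Pool.Agent.Helper54_Ballistic.Erg`
* `Pool.Agent.Helper54_Ballistic.Fib`
-/

set_option autoImplicit false

section -- Pool.Agent.Helper54_Ballistic.Cov

/-!
# Covariant operators: left and right multiplication by the resolvent

A covariant family of operators `A_ω` is represented by the function `f(x, ω) = A_ω(x, 0)`, an
element of `K = L²(count × P)`.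
-/

set_option autoImplicit false
set_option linter.unusedSectionVars false

open scoped InnerProductSpace ComplexConjugate Topology ENNReal
open MeasureTheory Filter

noncomputable section

namespace Pool.Agent.Helper54.Bal

open Pool.Agent.Anderson

variable {d : ℕ}

/-- configurations of the potential -/
abbrev Cfg (d : ℕ) : Type := Site d → ℝ

/-- translation of configurations -/
def tau (a : Site d) (V : Cfg d) : Cfg d := fun y => V (y + a)

theorem tau_tau (a b : Site d) (V : Cfg d) : tau a (tau b V) = tau (a + b) V := by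
  funext y; simp [tau, add_assoc]

theorem tau_zero (V : Cfg d) : tau 0 V = V := by
  funext y; simp [tau]

theorem measurable_tau (a : Site d) : Measurable (tau a) :=
  measurable_pi_iff.2 fun y => measurable_pi_apply (y + a)

theorem measurable_eval : Measurable fun p : Site d × Cfg d => p.2 p.1 :=
  measurable_from_prod_countable_right fun x => measurable_pi_apply x

theorem measurable_tau' : Measurable (Function.uncurry (tau (d := d))) :=
  measurable_from_prod_countable_right fun x => measurable_tau x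

theorem mp_count (e : Site d ≃ Site d) :
    MeasurePreserving e (Measure.count : Measure (Site d)) Measure.count := by
  refine ⟨measurable_of_countable _, ?_⟩
  ext s hs
  rw [Measure.map_apply (measurable_of_countable _) hs,
    Measure.count_apply (measurable_of_countable (e : Site d → Site d) hs),
    Measure.count_apply hs]
  congr 1
  have : e ⁻¹' s = e.symm '' s := by
    rw [Equiv.image_symm_eq_preimage]
  rw [this, e.symm.injective.encard_image]

/-- shift invariance -/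
def ShiftInv (P : Measure (Cfg d)) : Prop := ∀ a, MeasurePreserving (tau a) P P

/-- the reference measure -/
abbrev QQ (P : Measure (Cfg d)) : Measure (Site d × Cfg d) := (Measure.count).prod P

/-- the Hilbert space of covariant operators -/
abbrev K (P : Measure (Cfg d)) : Type := Lp ℂ 2 (QQ P)

variable {P : Measure (Cfg d)} [IsProbabilityMeasure P]

/-- composition with a measure preserving map -/
def cmp (φ : Site d × Cfg d → Site d × Cfg d) (h : MeasurePreserving φ (QQ P) (QQ P)) :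
    K P →ₗᵢ[ℂ] K P := Lp.compMeasurePreservingₗᵢ ℂ φ h

theorem cmp_coe (φ : Site d × Cfg d → Site d × Cfg d) (h : MeasurePreserving φ (QQ P) (QQ P))
    (f : K P) : cmp φ h f =ᵐ[QQ P] f ∘ φ := Lp.coeFn_compMeasurePreserving f h

theorem cmp_cmp (φ ψ χ : Site d × Cfg d → Site d × Cfg d) (h : MeasurePreserving φ (QQ P) (QQ P))
    (h' : MeasurePreserving ψ (QQ P) (QQ P)) (h'' : MeasurePreserving χ (QQ P) (QQ P))
    (e : ψ ∘ φ = χ) (f : K P) : cmp φ h (cmp ψ h' f) = cmp χ h'' f := by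
  subst e
  exact (Lp.compMeasurePreserving_comp_apply f h' h).symm

theorem cmp_id (φ : Site d × Cfg d → Site d × Cfg d) (h : MeasurePreserving φ (QQ P) (QQ P))
    (e : φ = id) (f : K P) : cmp φ h f = f := by
  subst e
  exact Lp.compMeasurePreserving_id_apply f

theorem memLp_mul {m : Site d × Cfg d → ℂ} (hm : Measurable m) {M : ℝ} (hM : ∀ p, ‖m p‖ ≤ M)
    (f : K P) : MemLp (fun p => m p * f p) 2 (QQ P) := by
  refine MemLp.of_le_mul (Lp.memLp f) (hm.aestronglyMeasurable.mul (Lp.aestronglyMeasurable f))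
    (Eventually.of_forall fun p => ?_) (c := M)
  rw [norm_mul]
  have := hM p
  gcongr

/-- multiplication by a bounded function -/
def mulK (m : Site d × Cfg d → ℂ) (hm : Measurable m) (M : ℝ) (hM : ∀ p, ‖m p‖ ≤ M) :
    K P →L[ℂ] K P :=
  LinearMap.mkContinuous
    { toFun := fun f => (memLp_mul hm hM f).toLp _
      map_add' := fun f g => by
        rw [← MemLp.toLp_add]
        apply MemLp.toLp_congr
        filter_upwards [Lp.coeFn_add f g] with p hp
        rw [hp]
        exact mul_add _ _ _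
      map_smul' := fun c f => by
        rw [RingHom.id_apply, ← MemLp.toLp_const_smul]
        apply MemLp.toLp_congr
        filter_upwards [Lp.coeFn_smul c f] with p hp
        rw [hp]
        simp only [Pi.smul_apply, smul_eq_mul]
        ring } M (by
    intro f
    refine Lp.norm_le_mul_norm_of_ae_le_mul ?_
    filter_upwards [MemLp.coeFn_toLp (memLp_mul hm hM f)] with p hp
    change ‖(MemLp.toLp _ (memLp_mul hm hM f)) p‖ ≤ _
    rw [hp, norm_mul]
    have := hM p
    gcongr)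

theorem mulK_coe {m : Site d × Cfg d → ℂ} (hm : Measurable m) {M : ℝ} (hM : ∀ p, ‖m p‖ ≤ M)
    (f : K P) : mulK m hm M hM f =ᵐ[QQ P] fun p => m p * f p :=
  MemLp.coeFn_toLp (memLp_mul hm hM f)

theorem cmp_mulK {m m' : Site d × Cfg d → ℂ} (hm : Measurable m) (hm' : Measurable m')
    {M M' : ℝ} (hM : ∀ p, ‖m p‖ ≤ M) (hM' : ∀ p, ‖m' p‖ ≤ M')
    (φ : Site d × Cfg d → Site d × Cfg d) (h : MeasurePreserving φ (QQ P) (QQ P))
    (e : m ∘ φ = m') (f : K P) :
    cmp φ h (mulK m hm M hM f) = mulK m' hm' M' hM' (cmp φ h f) := by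
  apply Lp.ext
  have h1 := cmp_coe φ h (mulK m hm M hM f)
  have h2 := h.quasiMeasurePreserving.ae_eq_comp (mulK_coe hm hM f)
  have h3 := mulK_coe hm' hM' (cmp φ h f)
  have h4 := cmp_coe φ h f
  filter_upwards [h1, h2, h3, h4] with p e1 e2 e3 e4
  rw [e1, e2, e3, e4, ← e]
  rfl

theorem mulK_mulK_comm {m m' : Site d × Cfg d → ℂ} (hm : Measurable m) (hm' : Measurable m')
    {M M' : ℝ} (hM : ∀ p, ‖m p‖ ≤ M) (hM' : ∀ p, ‖m' p‖ ≤ M') (f : K P) :
    mulK m hm M hM (mulK m' hm' M' hM' f) = mulK m' hm' M' hM' (mulK m hm M hM f) := by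
  apply Lp.ext
  filter_upwards [mulK_coe hm hM (mulK m' hm' M' hM' f), mulK_coe hm' hM' f,
    mulK_coe hm' hM' (mulK m hm M hM f), mulK_coe hm hM f] with p e1 e2 e3 e4
  rw [e1, e2, e3, e4]
  ring

/-! ### the elementary operators -/

/-- `(x, ω) ↦ (x + e, ω)` -/
def sL (e : Site d) (p : Site d × Cfg d) : Site d × Cfg d := (p.1 + e, p.2)

/-- `(x, ω) ↦ (x - e, τ_e ω)` -/
def sR (e : Site d) (p : Site d × Cfg d) : Site d × Cfg d := (p.1 - e, tau e p.2)

/-- `(x, ω) ↦ (-x, τ_x ω)` -/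
def th (p : Site d × Cfg d) : Site d × Cfg d := (-p.1, tau p.1 p.2)

theorem mp_sL (e : Site d) : MeasurePreserving (sL e) (QQ P) (QQ P) :=
  (mp_count (Equiv.addRight e)).prod (MeasurePreserving.id P)

theorem mp_sR (hP : ShiftInv P) (e : Site d) : MeasurePreserving (sR e) (QQ P) (QQ P) :=
  (mp_count (Equiv.subRight e)).prod (hP e)

theorem mp_th (hP : ShiftInv P) : MeasurePreserving (th (d := d)) (QQ P) (QQ P) :=
  (mp_count (Equiv.neg (Site d))).skew_product measurable_tau'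
    (Eventually.of_forall fun a => (hP a).map_eq)

/-- the Laplacian acting from the left -/
def LapK : K P →L[ℂ] K P :=
  ∑ i : Fin d, ((cmp (sL (Pi.single i 1)) (mp_sL _)).toContinuousLinearMap +
    (cmp (sL (-Pi.single i 1)) (mp_sL _)).toContinuousLinearMap)

/-- the Laplacian acting from the right -/
def LapR (hP : ShiftInv P) : K P →L[ℂ] K P :=
  ∑ i : Fin d, ((cmp (sR (Pi.single i 1)) (mp_sR hP _)).toContinuousLinearMap +
    (cmp (sR (-Pi.single i 1)) (mp_sR hP _)).toContinuousLinearMap)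

theorem LapK_apply (f : K P) : LapK f = ∑ i : Fin d, (cmp (sL (Pi.single i 1)) (mp_sL _) f +
    cmp (sL (-Pi.single i 1)) (mp_sL _) f) := by
  unfold LapK
  rw [_root_.sum_apply]
  rfl

theorem LapR_apply (hP : ShiftInv P) (f : K P) :
    LapR hP f = ∑ i : Fin d, (cmp (sR (Pi.single i 1)) (mp_sR hP _) f +
    cmp (sR (-Pi.single i 1)) (mp_sR hP _) f) := by
  unfold LapR
  rw [_root_.sum_apply]
  rfl

theorem norm_inv_le' {z : ℂ} (hz : z.im ≠ 0) (g : Site d × Cfg d → ℝ) (p : Site d × Cfg d) :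
    ‖((g p : ℂ) - z)⁻¹‖ ≤ |z.im|⁻¹ := norm_inv_le hz (g p)

theorem meas_inv (z : ℂ) {g : Site d × Cfg d → ℝ} (hg : Measurable g) :
    Measurable fun p => ((g p : ℂ) - z)⁻¹ :=
  ((Complex.measurable_ofReal.comp hg).sub_const z).inv

/-- multiplication by `1/(g - z)`, for `g` real -/
def DK (g : Site d × Cfg d → ℝ) (hg : Measurable g) (z : ℂ) : K P →L[ℂ] K P :=
  if hz : z.im ≠ 0 then mulK _ (meas_inv z hg) |z.im|⁻¹ (norm_inv_le' hz g) else 0

theorem DK_eq {g : Site d × Cfg d → ℝ} (hg : Measurable g) {z : ℂ} (hz : z.im ≠ 0) (f : K P) :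
    DK g hg z f = mulK _ (meas_inv z hg) |z.im|⁻¹ (norm_inv_le' hz g) f := by
  unfold DK; rw [dif_pos hz]

theorem DK_coe {g : Site d × Cfg d → ℝ} (hg : Measurable g) {z : ℂ} (hz : z.im ≠ 0) (f : K P) :
    DK g hg z f =ᵐ[QQ P] fun p => ((g p : ℂ) - z)⁻¹ * f p := by
  rw [DK_eq hg hz]
  exact mulK_coe _ _ f

theorem isRes_DK (g : Site d × Cfg d → ℝ) (hg : Measurable g) :
    IsRes (X := K P) (DK g hg) where
  ident z w hz hw := by
    ext1 f
    change DK g hg z f - DK g hg w f = (z - w) • DK g hg z (DK g hg w f)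
    apply Lp.ext
    filter_upwards [Lp.coeFn_sub (DK g hg z f) (DK g hg w f), DK_coe hg hz f, DK_coe hg hw f,
      Lp.coeFn_smul (z - w) (DK g hg z (DK g hg w f)), DK_coe hg hz (DK g hg w f)]
      with p e1 e2 e3 e4 e5
    rw [e1, e4, Pi.sub_apply, Pi.smul_apply, e2, e3, e5, e3, smul_eq_mul]
    have h1 := real_sub_ne hz (g p)
    have h2 := real_sub_ne hw (g p)
    field_simp
    ring
  adj z hz f h := by
    rw [L2.inner_def, L2.inner_def]
    apply integral_congr_ae
    filter_upwards [DK_coe hg hz f, DK_coe hg (conj_im_ne hz) h] with p e1 e2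
    rw [e1, e2, RCLike.inner_apply, RCLike.inner_apply, map_mul, map_inv₀, map_sub,
      Complex.conj_ofReal]
    ring
  inj z hz f h := by
    apply Lp.ext
    have h0 : DK g hg z f =ᵐ[QQ P] (0 : K P) := by rw [h]
    filter_upwards [DK_coe hg hz f, h0, Lp.coeFn_zero ℂ 2 (QQ P)] with p e1 e2 e3
    rw [e3]
    rw [e2, e3] at e1
    simpa [real_sub_ne hz (g p)] using e1.symm

/-- the potential seen from `x` -/
def gL (p : Site d × Cfg d) : ℝ := p.2 p.1

/-- the potential at the origin -/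
def gR (p : Site d × Cfg d) : ℝ := p.2 0

theorem meas_gL : Measurable (gL (d := d)) := measurable_eval

theorem meas_gR : Measurable (gR (d := d)) := (measurable_pi_apply 0).comp measurable_snd

theorem cmp_symm_inner {φ ψ : Site d × Cfg d → Site d × Cfg d}
    (h : MeasurePreserving φ (QQ P) (QQ P)) (h' : MeasurePreserving ψ (QQ P) (QQ P))
    (e : φ ∘ ψ = id) (f g : K P) : ⟪cmp φ h f, g⟫_ℂ = ⟪f, cmp ψ h' g⟫_ℂ := by
  rw [← (cmp ψ h').inner_map_map (cmp φ h f) g,
    cmp_cmp ψ φ id h' h (MeasurePreserving.id _) e, cmp_id id _ rfl]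

theorem sL_sL (e : Site d) : sL e ∘ sL (-e) = id := by
  funext p; simp [sL]

theorem sR_sR (e : Site d) : sR e ∘ sR (-e) = id := by
  funext p
  simp only [sR, Function.comp_apply, tau_tau, add_neg_cancel, tau_zero, id_eq]
  ext <;> simp

theorem LapK_symm (f g : K P) : ⟪LapK f, g⟫_ℂ = ⟪f, LapK g⟫_ℂ := by
  rw [LapK_apply, LapK_apply, sum_inner, inner_sum]
  apply Finset.sum_congr rfl
  intro i _
  rw [inner_add_left, inner_add_right, cmp_symm_inner _ (mp_sL _) (sL_sL _),
    cmp_symm_inner (mp_sL (-Pi.single i 1)) (mp_sL (Pi.single i 1)) (by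
      have := sL_sL (-(Pi.single i 1 : Site d))
      rwa [neg_neg] at this)]
  ring

theorem LapR_symm (hP : ShiftInv P) (f g : K P) : ⟪LapR hP f, g⟫_ℂ = ⟪f, LapR hP g⟫_ℂ := by
  rw [LapR_apply, LapR_apply, sum_inner, inner_sum]
  apply Finset.sum_congr rfl
  intro i _
  rw [inner_add_left, inner_add_right, cmp_symm_inner _ (mp_sR hP _) (sR_sR _),
    cmp_symm_inner (mp_sR hP (-Pi.single i 1)) (mp_sR hP (Pi.single i 1)) (by
      have := sR_sR (-(Pi.single i 1 : Site d))
      rwa [neg_neg] at this)]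
  ring

/-- left multiplication by the resolvent -/
def LL (z : ℂ) : K P →L[ℂ] K P := pert (DK gL meas_gL) LapK z

/-- right multiplication by the resolvent -/
def RR (hP : ShiftInv P) (z : ℂ) : K P →L[ℂ] K P := pert (DK gR meas_gR) (LapR hP) z

theorem isRes_LL : IsRes (X := K P) LL := isRes_pert (isRes_DK _ _) LapK_symm

theorem isRes_RR (hP : ShiftInv P) : IsRes (X := K P) (RR hP) :=
  isRes_pert (isRes_DK _ _) (LapR_symm hP)

/-! ### commutation relations -/

theorem cmp_DK {g g' : Site d × Cfg d → ℝ} (hg : Measurable g) (hg' : Measurable g')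
    {φ : Site d × Cfg d → Site d × Cfg d} (h : MeasurePreserving φ (QQ P) (QQ P))
    (e : g ∘ φ = g') {z : ℂ} (hz : z.im ≠ 0) (f : K P) :
    cmp φ h (DK g hg z f) = DK g' hg' z (cmp φ h f) := by
  rw [DK_eq hg hz, DK_eq hg' hz]
  apply cmp_mulK
  funext p
  simp only [Function.comp_apply]
  rw [← e]
  rfl

theorem comm_DR_DL {z w : ℂ} (hz : z.im ≠ 0) (hw : w.im ≠ 0) (f : K P) :
    DK gR meas_gR w (DK gL meas_gL z f) = DK gL meas_gL z (DK gR meas_gR w f) := by
  rw [DK_eq meas_gR hw, DK_eq meas_gL hz, DK_eq meas_gL hz, DK_eq meas_gR hw]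
  exact mulK_mulK_comm _ _ _ _ f

theorem comm_DR_LapK {w : ℂ} (hw : w.im ≠ 0) (f : K P) :
    DK gR meas_gR w (LapK f) = LapK (DK gR meas_gR w f) := by
  rw [LapK_apply, LapK_apply, map_sum]
  apply Finset.sum_congr rfl
  intro i _
  rw [map_add, cmp_DK meas_gR meas_gR (mp_sL _) rfl hw, cmp_DK meas_gR meas_gR (mp_sL _) rfl hw]

theorem comm_LapR_DL (hP : ShiftInv P) {z : ℂ} (hz : z.im ≠ 0) (f : K P) :
    LapR hP (DK gL meas_gL z f) = DK gL meas_gL z (LapR hP f) := by
  rw [LapR_apply, LapR_apply, map_sum]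
  apply Finset.sum_congr rfl
  intro i _
  have e : ∀ a : Site d, gL ∘ sR a = gL := by
    intro a; funext p; simp [gL, sR, tau]
  rw [map_add, cmp_DK meas_gL meas_gL (mp_sR hP _) (e _) hz,
    cmp_DK meas_gL meas_gL (mp_sR hP _) (e _) hz]

theorem comm_cmp_sR_sL (hP : ShiftInv P) (a b : Site d) (f : K P) :
    cmp (sR a) (mp_sR hP a) (cmp (sL b) (mp_sL b) f) =
      cmp (sL b) (mp_sL b) (cmp (sR a) (mp_sR hP a) f) := by
  rw [cmp_cmp (sR a) (sL b) (sL b ∘ sR a) _ _ ((mp_sL b).comp (mp_sR hP a)) rfl,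
    cmp_cmp (sL b) (sR a) (sL b ∘ sR a) _ _ ((mp_sL b).comp (mp_sR hP a)) (by
      funext p; simp [sL, sR]; abel)]

theorem comm_cmp_sR_LapK (hP : ShiftInv P) (a : Site d) (f : K P) :
    cmp (sR a) (mp_sR hP a) (LapK f) = LapK (cmp (sR a) (mp_sR hP a) f) := by
  rw [LapK_apply, LapK_apply, map_sum]
  apply Finset.sum_congr rfl
  intro i _
  rw [map_add, comm_cmp_sR_sL hP, comm_cmp_sR_sL hP]

theorem comm_LapR_LapK (hP : ShiftInv P) (f : K P) :
    LapR hP (LapK f) = LapK (LapR hP f) := by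
  rw [LapR_apply, LapR_apply, map_sum]
  apply Finset.sum_congr rfl
  intro i _
  rw [map_add, comm_cmp_sR_LapK hP, comm_cmp_sR_LapK hP]

theorem comm_LapR_sL (hP : ShiftInv P) (b : Site d) (f : K P) :
    LapR hP (cmp (sL b) (mp_sL b) f) = cmp (sL b) (mp_sL b) (LapR hP f) := by
  rw [LapR_apply, LapR_apply, map_sum]
  apply Finset.sum_congr rfl
  intro i _
  rw [map_add, comm_cmp_sR_sL hP, comm_cmp_sR_sL hP]

theorem comm_DR_LL {z w : ℂ} (hz : z.im ≠ 0) (hw : w.im ≠ 0) (f : K P) :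
    DK gR meas_gR w (LL z f) = LL z (DK gR meas_gR w f) :=
  comm_pert (isRes_DK _ _) LapK_symm hz (comm_DR_DL hz hw) (comm_DR_LapK hw) f

theorem comm_LapR_LL (hP : ShiftInv P) {z : ℂ} (hz : z.im ≠ 0) (f : K P) :
    LapR hP (LL z f) = LL z (LapR hP f) :=
  comm_pert (isRes_DK _ _) LapK_symm hz (comm_LapR_DL hP hz) (comm_LapR_LapK hP) f

/-- left and right multiplications commute -/
theorem comm_LL_RR (hP : ShiftInv P) {z w : ℂ} (hz : z.im ≠ 0) (hw : w.im ≠ 0) (f : K P) :
    LL z (RR hP w f) = RR hP w (LL z f) :=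
  comm_pert (isRes_DK _ _) (LapR_symm hP) hw (fun g => (comm_DR_LL hz hw g).symm)
    (fun g => (comm_LapR_LL hP hz g).symm) f

theorem comm_DL_RR (hP : ShiftInv P) {z w : ℂ} (hz : z.im ≠ 0) (hw : w.im ≠ 0) (f : K P) :
    DK gL meas_gL z (RR hP w f) = RR hP w (DK gL meas_gL z f) :=
  comm_pert (isRes_DK _ _) (LapR_symm hP) hw (fun g => (comm_DR_DL hz hw g).symm)
    (fun g => (comm_LapR_DL hP hz g).symm) f

theorem comm_LapK_RR (hP : ShiftInv P) {w : ℂ} (hw : w.im ≠ 0) (f : K P) :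
    LapK (RR hP w f) = RR hP w (LapK f) :=
  comm_pert (isRes_DK _ _) (LapR_symm hP) hw (fun g => (comm_DR_LapK hw g).symm)
    (fun g => (comm_LapR_LapK hP g).symm) f

theorem comm_sL_RR (hP : ShiftInv P) (b : Site d) {w : ℂ} (hw : w.im ≠ 0) (f : K P) :
    cmp (sL b) (mp_sL b) (RR hP w f) = RR hP w (cmp (sL b) (mp_sL b) f) :=
  comm_pert (B := (cmp (sL b) (mp_sL b)).toContinuousLinearMap)
    (isRes_DK _ _) (LapR_symm hP) hw
    (fun g => cmp_DK meas_gR meas_gR (mp_sL b) rfl hw g)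
    (fun g => (comm_LapR_sL hP b g).symm) f

/-! ### transposition -/

/-- transposition -/
def TT (hP : ShiftInv P) : K P →ₗᵢ[ℂ] K P := cmp th (mp_th hP)

theorem TT_TT (hP : ShiftInv P) (f : K P) : TT hP (TT hP f) = f := by
  unfold TT
  rw [cmp_cmp th th id _ _ (MeasurePreserving.id _) (by
    funext p
    simp only [th, Function.comp_apply, tau_tau, neg_neg, neg_add_cancel, tau_zero, id_eq]),
    cmp_id id _ rfl]

theorem TT_inner (hP : ShiftInv P) (f g : K P) : ⟪TT hP f, g⟫_ℂ = ⟪f, TT hP g⟫_ℂ := by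
  rw [← (TT hP).inner_map_map, TT_TT]

theorem TT_sL (hP : ShiftInv P) (a : Site d) (f : K P) :
    TT hP (cmp (sL a) (mp_sL a) f) = cmp (sR a) (mp_sR hP a) (TT hP f) := by
  unfold TT
  rw [cmp_cmp th (sL a) (sL a ∘ th) _ _ ((mp_sL a).comp (mp_th hP)) rfl,
    cmp_cmp (sR a) th (sL a ∘ th) _ _ ((mp_sL a).comp (mp_th hP)) (by
      funext p
      simp only [sL, sR, th, Function.comp_apply, tau_tau]
      refine Prod.ext ?_ ?_
      · simp only [neg_sub]; abel
      · simp only [sub_add_cancel])]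

theorem TT_LapK (hP : ShiftInv P) (f : K P) : TT hP (LapK f) = LapR hP (TT hP f) := by
  rw [LapK_apply, LapR_apply, map_sum]
  apply Finset.sum_congr rfl
  intro i _
  rw [map_add, TT_sL, TT_sL]

theorem TT_DL (hP : ShiftInv P) {z : ℂ} (hz : z.im ≠ 0) (f : K P) :
    TT hP (DK gL meas_gL z f) = DK gR meas_gR z (TT hP f) := by
  unfold TT
  apply cmp_DK meas_gL meas_gR _ _ hz
  funext p
  simp [gL, gR, th, tau]

theorem TT_LL (hP : ShiftInv P) {z : ℂ} (hz : z.im ≠ 0) (f : K P) :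
    TT hP (LL z f) = RR hP z (TT hP f) := by
  apply pert_unique (isRes_DK _ _) (LapR_symm hP) hz
  rw [← TT_LapK, ← TT_DL hP hz, ← TT_DL hP hz, ← map_add]
  congr 1
  exact pert_apply (isRes_DK _ _) LapK_symm hz f

theorem TT_RR (hP : ShiftInv P) {z : ℂ} (hz : z.im ≠ 0) (f : K P) :
    TT hP (RR hP z f) = LL z (TT hP f) := by
  have h := TT_LL hP hz (TT hP f)
  rw [TT_TT] at h
  rw [← h, TT_TT]

/-! ### complex conjugation -/

theorem star_coe (f : K P) : (star f : K P) =ᵐ[QQ P] fun p => conj (f p) := Lp.coeFn_star f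

theorem star_add' (f g : K P) : (star (f + g) : K P) = star f + star g := by
  apply Lp.ext
  filter_upwards [star_coe (f + g), Lp.coeFn_add f g, Lp.coeFn_add (star f : K P) (star g),
    star_coe f, star_coe g] with p e1 e2 e3 e4 e5
  rw [e1, e2, e3, Pi.add_apply, Pi.add_apply, e4, e5, map_add]

theorem star_neg' (f : K P) : (star (-f) : K P) = -star f := by
  apply Lp.ext
  filter_upwards [star_coe (-f), Lp.coeFn_neg f, Lp.coeFn_neg (star f : K P), star_coe f]
    with p e1 e2 e3 e4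
  rw [e1, e2, e3, Pi.neg_apply, Pi.neg_apply, e4, map_neg]

theorem star_sub' (f g : K P) : (star (f - g) : K P) = star f - star g := by
  rw [sub_eq_add_neg, star_add', star_neg', ← sub_eq_add_neg]

theorem star_smul' (c : ℂ) (f : K P) : (star (c • f) : K P) = conj c • star f := by
  apply Lp.ext
  filter_upwards [star_coe (c • f), Lp.coeFn_smul c f, Lp.coeFn_smul (conj c) (star f : K P),
    star_coe f] with p e1 e2 e3 e4
  rw [e1, e2, e3, Pi.smul_apply, Pi.smul_apply, e4, smul_eq_mul, smul_eq_mul, map_mul]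

theorem star_zero' : (star (0 : K P) : K P) = 0 := by
  have := star_sub' (0 : K P) 0
  simpa using this

theorem star_sum' {ι : Type*} (s : Finset ι) (F : ι → K P) :
    (star (∑ i ∈ s, F i) : K P) = ∑ i ∈ s, star (F i) := by
  classical
  induction s using Finset.induction_on with
  | empty => simp [star_zero']
  | insert a s ha ih => rw [Finset.sum_insert ha, Finset.sum_insert ha, star_add', ih]

theorem star_inner (f g : K P) : ⟪(star f : K P), star g⟫_ℂ = conj ⟪f, g⟫_ℂ := by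
  rw [L2.inner_def, L2.inner_def, ← integral_conj]
  apply integral_congr_ae
  filter_upwards [star_coe f, star_coe g] with p e1 e2
  rw [e1, e2, RCLike.inner_apply, RCLike.inner_apply, map_mul]

theorem star_norm (f : K P) : ‖(star f : K P)‖ = ‖f‖ := by
  have h := star_inner f f
  rw [inner_self_eq_norm_sq_to_K, inner_self_eq_norm_sq_to_K] at h
  have h2 : ‖(star f : K P)‖ ^ 2 = ‖f‖ ^ 2 := by
    simp only [map_pow, Complex.coe_algebraMap, Complex.conj_ofReal] at h
    exact_mod_cast h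
  have h3 := norm_nonneg (star f : K P)
  have h4 := norm_nonneg f
  nlinarith [sq_nonneg (‖(star f : K P)‖ - ‖f‖)]

theorem star_star' (f : K P) : (star (star f) : K P) = f := star_star f

theorem star_cmp {φ : Site d × Cfg d → Site d × Cfg d} (h : MeasurePreserving φ (QQ P) (QQ P))
    (f : K P) : (star (cmp φ h f) : K P) = cmp φ h (star f) := by
  apply Lp.ext
  have h2 := h.quasiMeasurePreserving.ae_eq_comp (star_coe f)
  filter_upwards [star_coe (cmp φ h f), cmp_coe φ h f, cmp_coe φ h (star f), h2]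
    with p e1 e2 e3 e4
  rw [e1, e2, e3, e4]
  rfl

theorem star_DK {g : Site d × Cfg d → ℝ} (hg : Measurable g) {z : ℂ} (hz : z.im ≠ 0) (f : K P) :
    (star (DK g hg z f) : K P) = DK g hg (conj z) (star f) := by
  apply Lp.ext
  filter_upwards [star_coe (DK g hg z f), DK_coe hg hz f, DK_coe hg (conj_im_ne hz) (star f),
    star_coe f] with p e1 e2 e3 e4
  rw [e1, e2, e3, e4, map_mul, map_inv₀, map_sub, Complex.conj_ofReal]

theorem star_LapK (f : K P) : (star (LapK f) : K P) = LapK (star f) := by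
  rw [LapK_apply, LapK_apply, star_sum']
  apply Finset.sum_congr rfl
  intro i _
  rw [star_add', star_cmp, star_cmp]

theorem star_LapR (hP : ShiftInv P) (f : K P) :
    (star (LapR hP f) : K P) = LapR hP (star f) := by
  rw [LapR_apply, LapR_apply, star_sum']
  apply Finset.sum_congr rfl
  intro i _
  rw [star_add', star_cmp, star_cmp]

theorem star_LL {z : ℂ} (hz : z.im ≠ 0) (f : K P) :
    (star (LL z f) : K P) = LL (conj z) (star f) := by
  apply pert_unique (isRes_DK _ _) LapK_symm (conj_im_ne hz)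
  rw [← star_LapK, ← star_DK meas_gL hz, ← star_DK meas_gL hz, ← star_add']
  congr 1
  exact pert_apply (isRes_DK _ _) LapK_symm hz f

theorem star_RR (hP : ShiftInv P) {z : ℂ} (hz : z.im ≠ 0) (f : K P) :
    (star (RR hP z f) : K P) = RR hP (conj z) (star f) := by
  apply pert_unique (isRes_DK _ _) (LapR_symm hP) (conj_im_ne hz)
  rw [← star_LapR, ← star_DK meas_gR hz, ← star_DK meas_gR hz, ← star_add']
  congr 1
  exact pert_apply (isRes_DK _ _) (LapR_symm hP) hz f

/-! ### the identity and the velocity -/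

/-- the indicator of `x = 0` -/
def e0 : K P := indicatorConstLp 2 (s := ({0} : Set (Site d)) ×ˢ (Set.univ : Set (Cfg d)))
  ((measurableSet_singleton 0).prod MeasurableSet.univ) (by
    rw [Measure.prod_prod, Measure.count_singleton, measure_univ, one_mul]
    exact ENNReal.one_ne_top) 1

theorem e0_coe : (e0 : K P) =ᵐ[QQ P] fun p => if p.1 = 0 then 1 else 0 := by
  have h := indicatorConstLp_coeFn (p := 2)
    (s := ({0} : Set (Site d)) ×ˢ (Set.univ : Set (Cfg d)))
    (hs := (measurableSet_singleton 0).prod MeasurableSet.univ) (hμs := (by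
    rw [Measure.prod_prod, Measure.count_singleton, measure_univ, one_mul]
    exact ENNReal.one_ne_top : (QQ P) _ ≠ ∞)) (c := (1:ℂ))
  refine h.trans (Eventually.of_forall fun p => ?_)
  simp only [Set.indicator, Set.mem_prod, Set.mem_singleton_iff, Set.mem_univ, and_true]

theorem cmp_e0 {φ ψ : Site d × Cfg d → Site d × Cfg d} (h : MeasurePreserving φ (QQ P) (QQ P))
    (h' : MeasurePreserving ψ (QQ P) (QQ P)) (e : ∀ p, (φ p).1 = 0 ↔ (ψ p).1 = 0) :
    cmp φ h e0 = cmp ψ h' e0 := by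
  apply Lp.ext
  have h1 := h.quasiMeasurePreserving.ae_eq_comp (e0_coe (P := P))
  have h2 := h'.quasiMeasurePreserving.ae_eq_comp (e0_coe (P := P))
  filter_upwards [cmp_coe φ h e0, h1, cmp_coe ψ h' e0, h2] with p e1 e2 e3 e4
  rw [e1, e2, e3, e4]
  simp only [Function.comp_apply]
  by_cases hp : (φ p).1 = 0
  · rw [if_pos hp, if_pos ((e p).1 hp)]
  · rw [if_neg hp, if_neg fun h => hp ((e p).2 h)]

theorem TT_e0 (hP : ShiftInv P) : TT hP e0 = e0 := by
  unfold TT
  rw [cmp_e0 (mp_th hP) (MeasurePreserving.id _) (by intro p; simp [th]), cmp_id id _ rfl]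

theorem star_e0 : (star (e0 : K P) : K P) = e0 := by
  apply Lp.ext
  filter_upwards [star_coe (e0 : K P), e0_coe (P := P)] with p e1 e2
  rw [e1, e2]
  split_ifs <;> simp

theorem DK_e0 {z : ℂ} (hz : z.im ≠ 0) :
    DK gL meas_gL z (e0 : K P) = DK gR meas_gR z e0 := by
  apply Lp.ext
  filter_upwards [DK_coe meas_gL hz (e0 : K P), DK_coe meas_gR hz (e0 : K P), e0_coe (P := P)]
    with p e1 e2 e3
  rw [e1, e2, e3]
  by_cases hp : p.1 = 0
  · simp [hp, gL, gR]
  · simp [hp]

theorem LapK_e0 (hP : ShiftInv P) : LapK (e0 : K P) = LapR hP e0 := by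
  rw [LapK_apply, LapR_apply]
  apply Finset.sum_congr rfl
  intro i _
  rw [add_comm]
  congr 1
  apply cmp_e0
  intro p
  simp only [sL, sR, sub_neg_eq_add]

theorem RR_e0 (hP : ShiftInv P) {z : ℂ} (hz : z.im ≠ 0) : RR hP z (e0 : K P) = LL z e0 := by
  apply pert_unique (isRes_DK _ _) LapK_symm hz
  rw [comm_LapK_RR hP hz, comm_DL_RR hP hz hz, LapK_e0 hP, ← comm_LapR_DL hP hz, DK_e0 hz]
  have h := pert_apply'' (isRes_DK gR meas_gR) (LapR_symm hP) hz (e0 : K P)
  change RR hP z (LapR hP (DK gR meas_gR z e0)) = _ - RR hP z e0 at h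
  rw [h]
  abel

/-- commutator of the Laplacian with a coordinate, acting from the left -/
def WK (i : Fin d) : K P →L[ℂ] K P :=
  (cmp (sL (Pi.single i 1)) (mp_sL _)).toContinuousLinearMap -
    (cmp (sL (-Pi.single i 1)) (mp_sL _)).toContinuousLinearMap

theorem WK_apply (i : Fin d) (f : K P) :
    WK i f = cmp (sL (Pi.single i 1)) (mp_sL _) f - cmp (sL (-Pi.single i 1)) (mp_sL _) f := rfl

/-- the velocity -/
def ww (i : Fin d) : K P := WK i e0

theorem RR_ww (hP : ShiftInv P) (i : Fin d) {z : ℂ} (hz : z.im ≠ 0) :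
    RR hP z (ww i : K P) = WK i (LL z e0) := by
  unfold ww
  rw [WK_apply, map_sub, ← comm_sL_RR hP _ hz, ← comm_sL_RR hP _ hz, RR_e0 hP hz]
  rfl

theorem TT_ww (hP : ShiftInv P) (i : Fin d) : TT hP (ww i : K P) = -ww i := by
  unfold ww
  rw [WK_apply, map_sub, TT_sL, TT_sL, TT_e0, neg_sub]
  congr 1
  apply cmp_e0
  intro p
  simp only [sL, sR, sub_neg_eq_add]

theorem star_ww (i : Fin d) : (star (ww i : K P) : K P) = ww i := by
  unfold ww
  rw [WK_apply, star_sub', star_cmp, star_cmp, star_e0]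

end Pool.Agent.Helper54.Bal
end
end -- Pool.Agent.Helper54_Ballistic.Cov

section -- Pool.Agent.Helper54_Ballistic.Erg

/-!
# The ergodic decomposition of the velocity
-/

set_option autoImplicit false
set_option linter.unusedSectionVars false

open scoped InnerProductSpace ComplexConjugate Topology ENNReal
open MeasureTheory Filter

noncomputable section

namespace Pool.Agent.Helper54.Bal

open Pool.Agent.Anderson

theorem conj_zz (η E : ℝ) : conj (zz η E) = zz (-η) E := by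
  unfold zz
  simp [map_add, map_mul]

section

variable {X : Type*} [NormedAddCommGroup X] [InnerProductSpace ℂ X] [CompleteSpace X]
variable {D : ℂ → X →L[ℂ] X} (hD : IsRes D)

include hD

theorem IsRes.integrable_sq' {η : ℝ} (hη : η ≠ 0) (f : X) :
    Integrable (fun E : ℝ => ‖D (zz η E) f‖ ^ 2) := by
  rcases lt_or_gt_of_ne hη with h | h
  · have h1 := hD.integrable_sq (neg_pos.2 h) f
    refine h1.congr (Eventually.of_forall fun E => ?_)
    have := hD.norm_conj (z := zz η E) (by simpa using hη) f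
    rw [conj_zz] at this
    simp only [this]
  · exact hD.integrable_sq h f

theorem IsRes.integral_sq' {η : ℝ} (hη : η ≠ 0) (f : X) :
    ∫ E : ℝ, ‖D (zz η E) f‖ ^ 2 = Real.pi / |η| * ‖f‖ ^ 2 := by
  rcases lt_or_gt_of_ne hη with h | h
  · have h1 := hD.integral_sq (neg_pos.2 h) f
    rw [abs_of_neg h, ← h1]
    refine integral_congr_ae (Eventually.of_forall fun E => ?_)
    have := hD.norm_conj (z := zz η E) (by simpa using hη) f
    rw [conj_zz] at this
    simp only [this]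
  · rw [abs_of_pos h]
    exact hD.integral_sq h f

end

variable {d : ℕ} {P : Measure (Cfg d)} [IsProbabilityMeasure P] (hP : ShiftInv P)

theorem cont_LR {η : ℝ} (hη : η ≠ 0) (u : K P) :
    Continuous fun E : ℝ => LL (zz η E) (RR hP (zz η E) u) := by
  rw [continuous_iff_continuousAt]
  intro E
  have h1 : ContinuousAt (LL (P := P)) (zz η E) :=
    isRes_LL.continuousAt (by simpa using hη)
  have h2 : ContinuousAt (RR hP) (zz η E) := (isRes_RR hP).continuousAt (by simpa using hη)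
  have h3 : ContinuousAt (fun z => LL z (RR hP z u)) (zz η E) :=
    h1.clm_apply (h2.clm_apply continuousAt_const)
  exact ContinuousAt.comp (f := zz η) (g := fun z => LL z (RR hP z u)) h3
    (continuous_zz η).continuousAt

/-- one-sided seminorm -/
def nn (η : ℝ) (u : K P) : ℝ := |η| ^ 3 * ∫ E : ℝ, ‖LL (zz η E) (RR hP (zz η E) u)‖ ^ 2

theorem LR_le {η : ℝ} (hη : η ≠ 0) (u : K P) (E : ℝ) :
    ‖LL (zz η E) (RR hP (zz η E) u)‖ ^ 2 ≤ (|η| ^ 2)⁻¹ * ‖RR hP (zz η E) u‖ ^ 2 := by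
  have h := isRes_LL.norm_le' (z := zz η E) (by simpa using hη) (RR hP (zz η E) u)
  rw [zz_im] at h
  calc _ ≤ (|η|⁻¹ * ‖RR hP (zz η E) u‖) ^ 2 := by gcongr
    _ = _ := by rw [mul_pow, inv_pow]

theorem integrable_LR {η : ℝ} (hη : η ≠ 0) (u : K P) :
    Integrable fun E : ℝ => ‖LL (zz η E) (RR hP (zz η E) u)‖ ^ 2 := by
  refine (((isRes_RR hP).integrable_sq' hη u).const_mul (|η| ^ 2)⁻¹).mono'
    ((cont_LR hP hη u).norm.pow 2).aestronglyMeasurable (Eventually.of_forall fun E => ?_)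
  rw [Real.norm_of_nonneg (by positivity)]
  exact LR_le hP hη u E

theorem nn_nonneg (η : ℝ) (u : K P) : 0 ≤ nn hP η u :=
  mul_nonneg (by positivity) (integral_nonneg fun E => by positivity)

theorem nn_le {η : ℝ} (hη : η ≠ 0) (u : K P) : nn hP η u ≤ Real.pi * ‖u‖ ^ 2 := by
  have h1 : ∫ E : ℝ, ‖LL (zz η E) (RR hP (zz η E) u)‖ ^ 2 ≤
      (|η| ^ 2)⁻¹ * (Real.pi / |η| * ‖u‖ ^ 2) := by
    rw [← (isRes_RR hP).integral_sq' hη u, ← integral_const_mul]
    exact integral_mono (integrable_LR hP hη u)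
      (((isRes_RR hP).integrable_sq' hη u).const_mul _) (LR_le hP hη u)
  have h0 : 0 < |η| := abs_pos.2 hη
  unfold nn
  calc _ ≤ |η| ^ 3 * ((|η| ^ 2)⁻¹ * (Real.pi / |η| * ‖u‖ ^ 2)) := by gcongr
    _ = _ := by field_simp

theorem nn_add_le {η : ℝ} (hη : η ≠ 0) (u v : K P) :
    nn hP η (u + v) ≤ 2 * nn hP η u + 2 * nn hP η v := by
  unfold nn
  have h1 : ∫ E : ℝ, ‖LL (zz η E) (RR hP (zz η E) (u + v))‖ ^ 2 ≤
      2 * (∫ E : ℝ, ‖LL (zz η E) (RR hP (zz η E) u)‖ ^ 2) +
      2 * (∫ E : ℝ, ‖LL (zz η E) (RR hP (zz η E) v)‖ ^ 2) := by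
    rw [← integral_const_mul, ← integral_const_mul,
      ← integral_add ((integrable_LR hP hη u).const_mul 2) ((integrable_LR hP hη v).const_mul 2)]
    refine integral_mono (integrable_LR hP hη _)
      (((integrable_LR hP hη u).const_mul 2).add ((integrable_LR hP hη v).const_mul 2)) ?_
    intro E
    simp only [map_add]
    set a := LL (zz η E) (RR hP (zz η E) u)
    set b := LL (zz η E) (RR hP (zz η E) v)
    have := norm_add_le a b
    have h2 : ‖a + b‖ ^ 2 ≤ (‖a‖ + ‖b‖) ^ 2 := by gcongr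
    nlinarith only [sq_nonneg (‖a‖ - ‖b‖), h2]
  calc _ ≤ |η| ^ 3 * (2 * (∫ E : ℝ, ‖LL (zz η E) (RR hP (zz η E) u)‖ ^ 2) +
      2 * (∫ E : ℝ, ‖LL (zz η E) (RR hP (zz η E) v)‖ ^ 2)) := by gcongr
    _ = _ := by ring

theorem nn_smul (η : ℝ) (c : ℂ) (u : K P) : nn hP η (c • u) = ‖c‖ ^ 2 * nn hP η u := by
  unfold nn
  simp only [map_smul, norm_smul, mul_pow]
  rw [integral_const_mul]
  ring

/-- two-sided seminorm -/
def NN (η : ℝ) (u : K P) : ℝ := nn hP η u + nn hP (-η) u

theorem NN_nonneg (η : ℝ) (u : K P) : 0 ≤ NN hP η u :=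
  add_nonneg (nn_nonneg _ _ _) (nn_nonneg _ _ _)

theorem NN_le {η : ℝ} (hη : η ≠ 0) (u : K P) : NN hP η u ≤ 2 * Real.pi * ‖u‖ ^ 2 := by
  have h1 := nn_le hP hη u
  have h2 := nn_le hP (neg_ne_zero.2 hη) u
  unfold NN
  linarith

theorem NN_add_le {η : ℝ} (hη : η ≠ 0) (u v : K P) :
    NN hP η (u + v) ≤ 2 * NN hP η u + 2 * NN hP η v := by
  have h1 := nn_add_le hP hη u v
  have h2 := nn_add_le hP (neg_ne_zero.2 hη) u v
  unfold NN
  linarith

theorem NN_smul (η : ℝ) (c : ℂ) (u : K P) : NN hP η (c • u) = ‖c‖ ^ 2 * NN hP η u := by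
  unfold NN
  rw [nn_smul, nn_smul]
  ring

theorem ev_ne : ∀ᶠ η : ℝ in 𝓝[>] (0:ℝ), η ≠ 0 := by
  filter_upwards [self_mem_nhdsWithin] with η hη
  exact ne_of_gt hη

/-- the elements with vanishing ballistic weight -/
def ZZ : Submodule ℂ (K P) where
  carrier := {u | Tendsto (fun η => NN hP η u) (𝓝[>] 0) (𝓝 0)}
  zero_mem' := by
    have : ∀ η : ℝ, NN hP η (0 : K P) = 0 := by
      intro η
      have := NN_smul hP η 0 (0 : K P)
      simpa using this
    simp only [Set.mem_ofPred_eq, this]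
    exact tendsto_const_nhds
  add_mem' := by
    intro u v hu hv
    simp only [Set.mem_ofPred_eq] at *
    have h : Tendsto (fun η => 2 * NN hP η u + 2 * NN hP η v) (𝓝[>] 0) (𝓝 0) := by
      simpa using (hu.const_mul 2).add (hv.const_mul 2)
    refine squeeze_zero' (Eventually.of_forall fun η => NN_nonneg hP η _) ?_ h
    filter_upwards [ev_ne] with η hη
    exact NN_add_le hP hη u v
  smul_mem' := by
    intro c u hu
    simp only [Set.mem_ofPred_eq] at *
    simp only [NN_smul]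
    simpa using hu.const_mul (‖c‖ ^ 2)

theorem mem_ZZ {u : K P} : u ∈ ZZ hP ↔ Tendsto (fun η => NN hP η u) (𝓝[>] 0) (𝓝 0) := Iff.rfl

theorem isClosed_ZZ : IsClosed (ZZ hP : Set (K P)) := by
  rw [← closure_subset_iff_isClosed]
  intro u hu
  change u ∈ ZZ hP
  rw [mem_ZZ, Metric.tendsto_nhds]
  intro ε hε
  obtain ⟨v, hv, hd⟩ := Metric.mem_closure_iff.1 hu (Real.sqrt (ε / (16 * Real.pi)))
    (Real.sqrt_pos.2 (by positivity))
  have h1 : Tendsto (fun η => NN hP η v) (𝓝[>] 0) (𝓝 0) := hv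
  have h2 : ∀ᶠ η in 𝓝[>] (0:ℝ), NN hP η v < ε / 8 := h1.eventually_lt_const (by positivity)
  filter_upwards [h2, ev_ne] with η h3 hη
  rw [Real.dist_eq, sub_zero, abs_of_nonneg (NN_nonneg hP η u)]
  have h4 : NN hP η u ≤ 2 * NN hP η v + 2 * NN hP η (u - v) := by
    have := NN_add_le hP hη v (u - v)
    rwa [add_sub_cancel] at this
  have h5 := NN_le hP hη (u - v)
  have h6 : ‖u - v‖ ^ 2 < ε / (16 * Real.pi) := by
    rw [dist_eq_norm] at hd
    have := pow_lt_pow_left₀ hd (norm_nonneg _) two_ne_zero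
    rwa [Real.sq_sqrt (by positivity)] at this
  have h7 : 2 * Real.pi * ‖u - v‖ ^ 2 < ε / 8 := by
    have h8 : 2 * Real.pi * ‖u - v‖ ^ 2 < 2 * Real.pi * (ε / (16 * Real.pi)) := by gcongr
    refine h8.trans_le (le_of_eq ?_)
    field_simp
    norm_num
  linarith

/-- key algebraic identity -/
theorem LR_diff {z w : ℂ} (hz : z.im ≠ 0) (hw : w.im ≠ 0) (hzw : z ≠ w) (f : K P) :
    LL z (RR hP z (LL w f - RR hP w f)) = (z - w)⁻¹ • (RR hP w (LL z f) - LL w (RR hP z f)) := by
  have hne : z - w ≠ 0 := sub_ne_zero.2 hzw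
  have h1 : (z - w) • LL z (RR hP z (LL w f)) = RR hP z (LL z f) - RR hP z (LL w f) := by
    rw [comm_LL_RR hP hz hz, ← map_smul, ← isRes_LL.ident_apply hz hw, map_sub]
  have h2 : (z - w) • LL z (RR hP z (RR hP w f)) = LL z (RR hP z f) - LL z (RR hP w f) := by
    rw [← map_smul, ← (isRes_RR hP).ident_apply hz hw, map_sub]
  have h3 : (z - w) • LL z (RR hP z (LL w f - RR hP w f)) =
      RR hP w (LL z f) - LL w (RR hP z f) := by
    rw [map_sub, map_sub, smul_sub, h1, h2, comm_LL_RR hP hz hz, comm_LL_RR hP hz hw,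
      comm_LL_RR hP hw hz]
    abel
  rw [← h3, smul_smul, inv_mul_cancel₀ hne, one_smul]

theorem nn_diff_le {w : ℂ} (hw : w.im ≠ 0) {η : ℝ} (hη : η ≠ 0) (hη2 : |η| ≤ |w.im| / 2)
    (f : K P) :
    nn hP η (LL w f - RR hP w f) ≤ 16 * Real.pi * ‖f‖ ^ 2 / |w.im| ^ 4 * |η| ^ 2 := by
  have hw0 : 0 < |w.im| := abs_pos.2 hw
  have hη0 : 0 < |η| := abs_pos.2 hη
  have hz : ∀ E : ℝ, (zz η E).im ≠ 0 := fun E => by simpa using hη
  have hdist : ∀ E : ℝ, |w.im| / 2 ≤ ‖zz η E - w‖ := by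
    intro E
    have h1 := Complex.abs_im_le_norm (zz η E - w)
    rw [Complex.sub_im, zz_im] at h1
    have h2 := abs_sub_abs_le_abs_sub w.im η
    rw [abs_sub_comm] at h2
    linarith only [hη2, h1, h2]
  have hpt : ∀ E : ℝ, ‖LL (zz η E) (RR hP (zz η E) (LL w f - RR hP w f))‖ ^ 2 ≤
      8 / |w.im| ^ 4 * (‖LL (zz η E) f‖ ^ 2 + ‖RR hP (zz η E) f‖ ^ 2) := by
    intro E
    have hne : zz η E ≠ w := by
      intro h
      have := hdist E
      rw [h, sub_self, norm_zero] at this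
      linarith
    rw [LR_diff hP (hz E) hw hne, norm_smul, norm_inv, mul_pow]
    have h1 : (‖zz η E - w‖⁻¹) ^ 2 ≤ 4 / |w.im| ^ 2 := by
      have : ‖zz η E - w‖⁻¹ ≤ (|w.im| / 2)⁻¹ := inv_anti₀ (by positivity) (hdist E)
      calc _ ≤ ((|w.im| / 2)⁻¹) ^ 2 := by gcongr
        _ = _ := by field_simp; norm_num
    have h2 : ‖RR hP w (LL (zz η E) f) - LL w (RR hP (zz η E) f)‖ ^ 2 ≤
        2 / |w.im| ^ 2 * (‖LL (zz η E) f‖ ^ 2 + ‖RR hP (zz η E) f‖ ^ 2) := by
      have h3 := (isRes_RR hP).norm_le' hw (LL (zz η E) f)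
      have h4 := isRes_LL.norm_le' hw (RR hP (zz η E) f)
      have h5 := norm_sub_le (RR hP w (LL (zz η E) f)) (LL w (RR hP (zz η E) f))
      set a := ‖LL (zz η E) f‖
      set b := ‖RR hP (zz η E) f‖
      have h6 : ‖RR hP w (LL (zz η E) f) - LL w (RR hP (zz η E) f)‖ ≤ |w.im|⁻¹ * (a + b) := by
        linarith
      calc _ ≤ (|w.im|⁻¹ * (a + b)) ^ 2 := by gcongr
        _ = (|w.im| ^ 2)⁻¹ * (a + b) ^ 2 := by rw [mul_pow, inv_pow]
        _ ≤ (|w.im| ^ 2)⁻¹ * (2 * (a ^ 2 + b ^ 2)) := by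
            gcongr
            nlinarith only [sq_nonneg (a - b)]
        _ = _ := by field_simp
    calc _ ≤ 4 / |w.im| ^ 2 * (2 / |w.im| ^ 2 *
          (‖LL (zz η E) f‖ ^ 2 + ‖RR hP (zz η E) f‖ ^ 2)) := by gcongr
      _ = _ := by field_simp; ring
  have hi1 := (isRes_LL (P := P)).integrable_sq' hη f
  have hi2 := (isRes_RR hP).integrable_sq' hη f
  have hint : ∫ E : ℝ, ‖LL (zz η E) (RR hP (zz η E) (LL w f - RR hP w f))‖ ^ 2 ≤
      8 / |w.im| ^ 4 * (Real.pi / |η| * ‖f‖ ^ 2 + Real.pi / |η| * ‖f‖ ^ 2) := by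
    calc _ ≤ ∫ E : ℝ, 8 / |w.im| ^ 4 * (‖LL (zz η E) f‖ ^ 2 + ‖RR hP (zz η E) f‖ ^ 2) :=
          integral_mono (integrable_LR hP hη _) ((hi1.add hi2).const_mul _) hpt
      _ = _ := by
          rw [integral_const_mul, integral_add hi1 hi2, isRes_LL.integral_sq' hη,
            (isRes_RR hP).integral_sq' hη]
  unfold nn
  calc _ ≤ |η| ^ 3 * (8 / |w.im| ^ 4 * (Real.pi / |η| * ‖f‖ ^ 2 + Real.pi / |η| * ‖f‖ ^ 2)) := by
        gcongr
    _ = _ := by field_simp; ring

theorem range_mem_ZZ {w : ℂ} (hw : w.im ≠ 0) (f : K P) : LL w f - RR hP w f ∈ ZZ hP := by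
  rw [mem_ZZ]
  have hw0 : 0 < |w.im| := abs_pos.2 hw
  have h0 : Tendsto (fun η : ℝ => 2 * (16 * Real.pi * ‖f‖ ^ 2 / |w.im| ^ 4 * |η| ^ 2)) (𝓝[>] 0)
      (𝓝 0) := by
    have : Continuous fun η : ℝ => 2 * (16 * Real.pi * ‖f‖ ^ 2 / |w.im| ^ 4 * |η| ^ 2) := by
      fun_prop
    have h := (this.tendsto 0).mono_left (nhdsWithin_le_nhds (s := Set.Ioi 0))
    simpa using h
  refine squeeze_zero' (Eventually.of_forall fun η => NN_nonneg hP η _) ?_ h0
  have hev : ∀ᶠ η : ℝ in 𝓝[>] (0:ℝ), |η| ≤ |w.im| / 2 := by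
    have : ∀ᶠ η : ℝ in 𝓝 (0:ℝ), |η| < |w.im| / 2 := by
      have hc : Tendsto (fun η : ℝ => |η|) (𝓝 0) (𝓝 0) := by
        have := continuous_abs.tendsto (0:ℝ)
        simpa using this
      exact hc.eventually_lt_const (by positivity)
    filter_upwards [this.filter_mono nhdsWithin_le_nhds] with η h
    exact h.le
  filter_upwards [hev, ev_ne] with η h1 hη
  have h2 := nn_diff_le hP hw hη h1 f
  have h3 := nn_diff_le hP hw (neg_ne_zero.2 hη) (by rwa [abs_neg]) f
  rw [abs_neg] at h3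
  unfold NN
  linarith

theorem nn_TT {η : ℝ} (hη : η ≠ 0) (u : K P) : nn hP η (TT hP u) = nn hP η u := by
  have hz : ∀ E : ℝ, (zz η E).im ≠ 0 := fun E => by simpa using hη
  unfold nn
  congr 1
  refine integral_congr_ae (Eventually.of_forall fun E => ?_)
  simp only
  rw [← TT_LL hP (hz E), ← TT_RR hP (hz E), (TT hP).norm_map, comm_LL_RR hP (hz E) (hz E)]

theorem nn_star {η : ℝ} (hη : η ≠ 0) (u : K P) : nn hP η (star u : K P) = nn hP (-η) u := by
  have hz : ∀ E : ℝ, (zz (-η) E).im ≠ 0 := fun E => by simpa using hη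
  unfold nn
  rw [abs_neg]
  congr 1
  refine integral_congr_ae (Eventually.of_forall fun E => ?_)
  simp only
  have e : zz η E = conj (zz (-η) E) := by rw [conj_zz, neg_neg]
  rw [e, ← star_RR hP (hz E), ← star_LL (hz E), star_norm]

theorem TT_mem {u : K P} (hu : u ∈ ZZ hP) : TT hP u ∈ ZZ hP := by
  rw [mem_ZZ] at *
  refine hu.congr' ?_
  filter_upwards [ev_ne] with η hη
  unfold NN
  rw [nn_TT hP hη, nn_TT hP (neg_ne_zero.2 hη)]

theorem star_mem' {u : K P} (hu : u ∈ ZZ hP) : (star u : K P) ∈ ZZ hP := by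
  rw [mem_ZZ] at *
  refine hu.congr' ?_
  filter_upwards [ev_ne] with η hη
  unfold NN
  rw [nn_star hP hη, nn_star hP (neg_ne_zero.2 hη), neg_neg, add_comm]

/-- The ergodic decomposition of the velocity. -/
theorem decomposition (i : Fin d) : ∃ u A : K P, (ww i : K P) = u + A ∧ u ∈ ZZ hP ∧
    (∀ z : ℂ, z.im ≠ 0 → LL z A = RR hP z A) ∧ TT hP A = -A ∧ (star A : K P) = A := by
  have : CompleteSpace (ZZ hP) := (isClosed_ZZ hP).completeSpace_coe
  obtain ⟨u, hu, A, hA, he⟩ := Submodule.exists_add_mem_mem_orthogonal (K := ZZ hP) (ww i : K P)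
  have hAo := (Submodule.mem_orthogonal _ _).1 hA
  refine ⟨u, A, he, hu, ?_, ?_, ?_⟩
  · intro z hz
    have hz' := conj_im_ne hz
    rw [← sub_eq_zero, ← inner_self_eq_zero (𝕜 := ℂ)]
    set g := LL z A - RR hP z A with hg
    have h1 := hAo _ (range_mem_ZZ hP hz' g)
    rw [inner_sub_left, isRes_LL.adj _ hz', (isRes_RR hP).adj _ hz', Complex.conj_conj,
      ← inner_sub_right] at h1
    exact h1
  · have h1 : TT hP A + A ∈ ZZ hP := by
      have h2 : TT hP A + A = -(TT hP u + u) := by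
        have h3 := TT_ww hP i
        rw [he, map_add] at h3
        have : TT hP A = -(u + A) - TT hP u := by rw [← h3]; abel
        rw [this]; abel
      rw [h2]
      exact Submodule.neg_mem _ (Submodule.add_mem _ (TT_mem hP hu) hu)
    have h2 : TT hP A + A ∈ (ZZ hP)ᗮ := by
      refine Submodule.add_mem _ ?_ hA
      rw [Submodule.mem_orthogonal]
      intro v hv
      rw [← TT_inner]
      exact hAo _ (TT_mem hP hv)
    have h3 : TT hP A + A = 0 := by
      rw [← inner_self_eq_zero (𝕜 := ℂ)]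
      exact (Submodule.mem_orthogonal _ _).1 h2 _ h1
    exact eq_neg_of_add_eq_zero_left h3
  · have h1 : (star A : K P) - A ∈ ZZ hP := by
      have h2 : (star A : K P) - A = u - star u := by
        have h3 := star_ww (P := P) i
        rw [he, star_add'] at h3
        have : (star A : K P) = u + A - star u := by rw [← h3]; abel
        rw [this]; abel
      rw [h2]
      exact Submodule.sub_mem _ hu (star_mem' hP hu)
    have h2 : (star A : K P) - A ∈ (ZZ hP)ᗮ := by
      refine Submodule.sub_mem _ ?_ hA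
      rw [Submodule.mem_orthogonal]
      intro v hv
      have h3 := star_inner (star v : K P) A
      rw [star_star'] at h3
      rw [h3, hAo _ (star_mem' hP hv), map_zero]
    have h3 : (star A : K P) - A = 0 := by
      rw [← inner_self_eq_zero (𝕜 := ℂ)]
      exact (Submodule.mem_orthogonal _ _).1 h2 _ h1
    exact sub_eq_zero.1 h3

end Pool.Agent.Helper54.Bal
end
end -- Pool.Agent.Helper54_Ballistic.Erg

section -- Pool.Agent.Helper54_Ballistic.Fib

/-!
# Fibres of covariant operators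
-/

set_option autoImplicit false
set_option linter.unusedSectionVars false

open scoped InnerProductSpace ComplexConjugate Topology ENNReal
open MeasureTheory Filter

noncomputable section

namespace Pool.Agent.Helper54.Bal

open Pool.Agent.Anderson

variable {d : ℕ}

theorem enorm_sq_eq (a : ℂ) : ‖a‖ₑ ^ 2 = ENNReal.ofReal (‖a‖ ^ 2) := by
  rw [← ofReal_norm, ENNReal.ofReal_pow (norm_nonneg a)]

theorem memℓp_iff_enorm (f : Site d → ℂ) : Memℓp f 2 ↔ ∑' x, ‖f x‖ₑ ^ 2 ≠ ∞ := by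
  rw [memℓp_iff]
  have e : ∀ x, ‖f x‖ₑ ^ 2 = ((‖f x‖₊ ^ 2 : NNReal) : ℝ≥0∞) := by
    intro x
    rw [ENNReal.coe_pow]
    rfl
  simp only [e]
  rw [ENNReal.tsum_coe_ne_top_iff_summable, ← NNReal.summable_coe]
  simp

theorem norm_sq_enorm (f : L2 d) : ENNReal.ofReal (‖f‖ ^ 2) = ∑' x, ‖f x‖ₑ ^ 2 := by
  rw [L2.norm_sq, ENNReal.ofReal_tsum_of_nonneg (fun x => by positivity) (L2.summable_sq f)]
  exact tsum_congr fun x => (enorm_sq_eq (f x)).symm

open Classical in
/-- the fibre of a function -/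
def fib (F : Site d × Cfg d → ℂ) (V : Cfg d) : L2 d :=
  if h : Memℓp (fun x => F (x, V)) 2 then ⟨fun x => F (x, V), h⟩ else 0

theorem fib_apply {F : Site d × Cfg d → ℂ} {V : Cfg d} (h : Memℓp (fun x => F (x, V)) 2)
    (x : Site d) : fib F V x = F (x, V) := by
  unfold fib
  rw [dif_pos h]

theorem measurableSet_mem {F : Site d × Cfg d → ℂ} (hF : Measurable F) :
    MeasurableSet {V : Cfg d | Memℓp (fun x => F (x, V)) 2} := by
  have e : {V : Cfg d | Memℓp (fun x => F (x, V)) 2} =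
      {V : Cfg d | ∑' x, ‖F (x, V)‖ₑ ^ 2 = ∞}ᶜ := by
    ext V
    simp [memℓp_iff_enorm]
  rw [e]
  refine MeasurableSet.compl ?_
  refine measurableSet_eq_fun (Measurable.tsum fun x => ?_) measurable_const
  exact ((hF.comp measurable_prodMk_left).enorm).pow_const 2

theorem stronglyMeasurable_fib {F : Site d × Cfg d → ℂ} (hF : Measurable F) :
    StronglyMeasurable fun V => fib F V := by
  classical
  set M : Set (Cfg d) := {V : Cfg d | Memℓp (fun x => F (x, V)) 2} with hM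
  have hMm : MeasurableSet M := measurableSet_mem hF
  set g : Finset (Site d) → Cfg d → L2 d := fun S V =>
    ∑ x ∈ S, (M.indicator (fun V => F (x, V)) V) • del x with hg
  refine stronglyMeasurable_of_tendsto (f := g) atTop (fun S => ?_) ?_
  · refine Finset.stronglyMeasurable_fun_sum S fun x _ => ?_
    refine StronglyMeasurable.smul_const ?_ _
    exact ((hF.comp measurable_prodMk_left).indicator hMm).stronglyMeasurable
  · rw [tendsto_pi_nhds]
    intro V
    by_cases hV : V ∈ M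
    · have h1 : HasSum (fun x => lp.single 2 x ((fib F V) x)) (fib F V) :=
        lp.hasSum_single (by norm_num) (fib F V)
      have h2 : (fun S => g S V) = fun S => ∑ x ∈ S, lp.single 2 x ((fib F V) x) := by
        funext S
        rw [hg]
        refine Finset.sum_congr rfl fun x _ => ?_
        rw [Set.indicator_of_mem hV, fib_apply hV]
        unfold del
        rw [← lp.single_smul, smul_eq_mul, mul_one]
      rw [h2]
      exact h1
    · have hV' : ¬ Memℓp (fun x => F (x, V)) 2 := hV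
      have h1 : fib F V = 0 := dif_neg hV'
      rw [h1]
      have h2 : ∀ S, g S V = 0 := by
        intro S
        rw [hg]
        refine Finset.sum_eq_zero fun x _ => ?_
        rw [Set.indicator_of_notMem hV, zero_smul]
      simp only [h2]
      exact tendsto_const_nhds

variable {P : Measure (Cfg d)} [IsProbabilityMeasure P]

theorem ae_fiber {q : Site d × Cfg d → Prop} (h : ∀ᵐ p ∂(QQ P), q p) :
    ∀ᵐ V ∂P, ∀ x, q (x, V) := by
  have h1 := Measure.ae_ae_of_ae_prod h
  rw [Measure.ae_count_iff] at h1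
  exact ae_all_iff.2 h1

theorem lintegral_QQ {F : Site d × Cfg d → ℝ≥0∞} (hF : Measurable F) :
    ∫⁻ p, F p ∂(QQ P) = ∫⁻ V, ∑' x, F (x, V) ∂P := by
  rw [lintegral_prod_symm _ hF.aemeasurable]
  refine lintegral_congr fun V => ?_
  rw [lintegral_count]

theorem measurable_K (f : K P) : Measurable (f : Site d × Cfg d → ℂ) :=
  (Lp.stronglyMeasurable f).measurable

theorem lintegral_K (f : K P) : ∫⁻ V, ∑' x, ‖f (x, V)‖ₑ ^ 2 ∂P = ENNReal.ofReal (‖f‖ ^ 2) := by
  rw [← lintegral_QQ ((measurable_K f).enorm.pow_const 2)]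
  have h1 : ENNReal.ofReal ‖f‖ = eLpNorm f 2 (QQ P) := by
    rw [Lp.norm_def, ENNReal.ofReal_toReal (Lp.eLpNorm_ne_top f)]
  rw [ENNReal.ofReal_pow (norm_nonneg f), h1,
    eLpNorm_eq_lintegral_rpow_enorm_toReal (by norm_num) (by norm_num)]
  simp only [ENNReal.toReal_ofNat, ENNReal.rpow_ofNat]
  rw [← ENNReal.rpow_natCast, ← ENNReal.rpow_mul]
  norm_num

/-- the fibres of an element of `K` -/
def fibK (f : K P) (V : Cfg d) : L2 d := fib (f : Site d × Cfg d → ℂ) V

theorem stronglyMeasurable_fibK (f : K P) : StronglyMeasurable fun V => fibK f V :=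
  stronglyMeasurable_fib (measurable_K f)

theorem ae_mem (f : K P) : ∀ᵐ V ∂P, Memℓp (fun x => f (x, V)) 2 := by
  have h := lintegral_K f
  have h1 : ∀ᵐ V ∂P, ∑' x, ‖f (x, V)‖ₑ ^ 2 < ∞ := by
    refine ae_lt_top (Measurable.tsum fun x => ?_) (by rw [h]; exact ENNReal.ofReal_ne_top)
    exact (((measurable_K f).comp measurable_prodMk_left).enorm).pow_const 2
  filter_upwards [h1] with V hV
  exact (memℓp_iff_enorm _).2 hV.ne

theorem ae_fibK (f : K P) : ∀ᵐ V ∂P, ∀ x, fibK f V x = f (x, V) := by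
  filter_upwards [ae_mem f] with V hV x
  exact fib_apply hV x

theorem lintegral_fibK (f : K P) :
    ∫⁻ V, ENNReal.ofReal (‖fibK f V‖ ^ 2) ∂P = ENNReal.ofReal (‖f‖ ^ 2) := by
  rw [← lintegral_K f]
  refine lintegral_congr_ae ?_
  filter_upwards [ae_fibK f] with V hV
  rw [norm_sq_enorm]
  exact tsum_congr fun x => by rw [hV x]

theorem fibK_eq_zero {f : K P} (h : ∀ᵐ V ∂P, fibK f V = 0) : f = 0 := by
  have h1 := lintegral_fibK f
  have h2 : ∫⁻ V, ENNReal.ofReal (‖fibK f V‖ ^ 2) ∂P = 0 := by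
    rw [lintegral_congr_ae (g := fun _ => 0) ?_, lintegral_zero]
    filter_upwards [h] with V hV
    rw [hV]; simp
  rw [h2] at h1
  have h3 := ENNReal.ofReal_eq_zero.1 h1.symm
  have h4 : ‖f‖ = 0 := by
    have := norm_nonneg f
    nlinarith
  exact norm_eq_zero.1 h4

theorem fibK_add (f g : K P) : ∀ᵐ V ∂P, fibK (f + g) V = fibK f V + fibK g V := by
  filter_upwards [ae_fibK f, ae_fibK g, ae_fibK (f + g), ae_fiber (Lp.coeFn_add f g)]
    with V e1 e2 e3 e4
  ext x
  rw [lp.coeFn_add, Pi.add_apply, e1, e2, e3, e4]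
  rfl

theorem fibK_sub (f g : K P) : ∀ᵐ V ∂P, fibK (f - g) V = fibK f V - fibK g V := by
  filter_upwards [ae_fibK f, ae_fibK g, ae_fibK (f - g), ae_fiber (Lp.coeFn_sub f g)]
    with V e1 e2 e3 e4
  ext x
  rw [lp.coeFn_sub, Pi.sub_apply, e1, e2, e3, e4]
  rfl

theorem fibK_cmp_sL (a : Site d) (f : K P) :
    ∀ᵐ V ∂P, ∀ x, fibK (cmp (sL a) (mp_sL a) f) V x = fibK f V (x + a) := by
  filter_upwards [ae_fibK f, ae_fibK (cmp (sL a) (mp_sL a) f),
    ae_fiber (cmp_coe (sL a) (mp_sL a) f)] with V e1 e2 e3 x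
  rw [e1, e2, e3]
  rfl

theorem fibK_e0 : ∀ᵐ V ∂P, fibK (e0 : K P) V = del 0 := by
  filter_upwards [ae_fibK (e0 : K P), ae_fiber (e0_coe (P := P))] with V e1 e2
  ext x
  rw [e1, e2, del_apply]

theorem fibK_WK (i : Fin d) (f : K P) : ∀ᵐ V ∂P, fibK (WK i f) V = Wop i (fibK f V) := by
  rw [WK_apply]
  filter_upwards [fibK_sub (cmp (sL (Pi.single i 1)) (mp_sL _) f)
    (cmp (sL (-Pi.single i 1)) (mp_sL _) f), fibK_cmp_sL (Pi.single i 1) f,
    fibK_cmp_sL (-Pi.single i 1) f] with V e1 e2 e3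
  ext x
  rw [e1, lp.coeFn_sub, Pi.sub_apply, e2, e3, Wop_apply, ← sub_eq_add_neg]

theorem fibK_finsum {ι : Type*} (s : Finset ι) (F : ι → K P) :
    ∀ᵐ V ∂P, fibK (∑ i ∈ s, F i) V = ∑ i ∈ s, fibK (F i) V := by
  classical
  induction s using Finset.induction_on with
  | empty =>
    simp only [Finset.sum_empty]
    filter_upwards [ae_fibK (0 : K P), ae_fiber (Lp.coeFn_zero ℂ 2 (QQ P))] with V e1 e2
    ext x
    rw [e1, e2]
    rfl
  | insert a s ha ih =>
    rw [Finset.sum_insert ha]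
    filter_upwards [fibK_add (F a) (∑ i ∈ s, F i), ih] with V e1 e2
    rw [e1, e2, Finset.sum_insert ha]

theorem fibK_LapK (f : K P) : ∀ᵐ V ∂P, ∀ x, fibK (LapK f) V x = lap (fibK f V) x := by
  rw [LapK_apply]
  have h1 := fibK_finsum Finset.univ (fun i : Fin d => cmp (sL (Pi.single i 1)) (mp_sL _) f +
    cmp (sL (-Pi.single i 1)) (mp_sL _) f)
  have h2 : ∀ᵐ V ∂P, ∀ i : Fin d, fibK (cmp (sL (Pi.single i 1)) (mp_sL _) f +
    cmp (sL (-Pi.single i 1)) (mp_sL _) f) V = fibK (cmp (sL (Pi.single i 1)) (mp_sL _) f) V +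
      fibK (cmp (sL (-Pi.single i 1)) (mp_sL _) f) V := ae_all_iff.2 fun i => fibK_add _ _
  have h3 : ∀ᵐ V ∂P, ∀ i : Fin d, ∀ x, fibK (cmp (sL (Pi.single i 1)) (mp_sL _) f) V x =
      fibK f V (x + Pi.single i 1) := ae_all_iff.2 fun i => fibK_cmp_sL _ f
  have h4 : ∀ᵐ V ∂P, ∀ i : Fin d, ∀ x, fibK (cmp (sL (-Pi.single i 1)) (mp_sL _) f) V x =
      fibK f V (x + -Pi.single i 1) := ae_all_iff.2 fun i => fibK_cmp_sL _ f
  filter_upwards [h1, h2, h3, h4] with V e1 e2 e3 e4 x
  rw [e1, lp.coeFn_sum, Finset.sum_apply]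
  unfold lap
  refine Finset.sum_congr rfl fun i _ => ?_
  rw [e2, lp.coeFn_add, Pi.add_apply, e3, e4, ← sub_eq_add_neg]

theorem fibK_DK {z : ℂ} (hz : z.im ≠ 0) (f : K P) :
    ∀ᵐ V ∂P, ∀ x, fibK (DK gL meas_gL z f) V x = ((V x : ℂ) - z)⁻¹ * fibK f V x := by
  filter_upwards [ae_fibK f, ae_fibK (DK gL meas_gL z f), ae_fiber (DK_coe meas_gL hz f)]
    with V e1 e2 e3 x
  rw [e1, e2, e3]
  rfl

/-- the fibres of `LL z f` -/
theorem fibK_LL {z : ℂ} (hz : z.im ≠ 0) (f : K P) :
    ∀ᵐ V ∂P, fibK (LL z f) V = G V z (fibK f V) := by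
  have h := pert_apply (isRes_DK (P := P) gL meas_gL) LapK_symm hz f
  change LL z f + DK gL meas_gL z (LapK (LL z f)) = DK gL meas_gL z f at h
  filter_upwards [fibK_add (LL z f) (DK gL meas_gL z (LapK (LL z f))),
    fibK_DK hz (LapK (LL z f)), fibK_LapK (LL z f), fibK_DK hz f] with V e1 e2 e3 e4
  apply G_unique hz
  intro x
  rw [h] at e1
  have e5 := congrArg (fun g : L2 d => g x) e1
  simp only at e5
  rw [e4, lp.coeFn_add, Pi.add_apply, e2, e3] at e5
  have h1 := real_sub_ne hz (V x)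
  have h2 := congrArg (fun c => ((V x : ℂ) - z) * c) e5
  simp only [mul_add] at h2
  rw [← mul_assoc, ← mul_assoc, mul_inv_cancel₀ h1, one_mul, one_mul] at h2
  rw [h2]
  ring

theorem fibK_star {f : K P} (h : (star f : K P) = f) : ∀ᵐ V ∂P, star (fibK f V) = fibK f V := by
  have h1 : ∀ᵐ p ∂(QQ P), conj (f p) = f p := by
    filter_upwards [star_coe f] with p e
    rw [← e, h]
  filter_upwards [ae_fibK f, ae_fiber h1] with V e1 e2
  ext x
  rw [star_apply, e1, e2]

theorem fibK_zero_of_TT (hP : ShiftInv P) {f : K P} (h : TT hP f = -f) :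
    ∀ᵐ V ∂P, fibK f V 0 = 0 := by
  have h1 := cmp_coe th (mp_th hP) f
  have h2 := Lp.coeFn_neg f
  filter_upwards [ae_fibK f, ae_fiber h1, ae_fiber h2] with V e1 e2 e3
  have e4 := e2 0
  change (TT hP f : Site d × Cfg d → ℂ) (0, V) = _ at e4
  rw [h, e3 0] at e4
  have e5 : (⇑f ∘ th) (0, V) = f (0, V) := by
    simp [th, tau_zero]
  rw [e5] at e4
  rw [e1]
  have : (-⇑f : Site d × Cfg d → ℂ) (0, V) = - f (0, V) := rfl
  rw [this] at e4
  linear_combination (-(1:ℂ)/2) * e4

end Pool.Agent.Helper54.Bal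
end
end -- Pool.Agent.Helper54_Ballistic.Fib
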