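import Pool.Agent.Helper12_MEB.B023
import Pool.Agent.Helper12_MEB.B025

/-!
# Merged copies (generated) of the modules

* `Pool.Agent.Helper54_Ballistic.Law`
-/

set_option autoImplicit false

section -- Pool.Agent.Helper54_Ballistic.Law

/-!
# Independent identically distributed potentials and the final estimate
-/

set_option autoImplicit false
set_option linter.unusedSectionVars false

open scoped InnerProductSpace ComplexConjugate Topology ENNReal
open MeasureTheory Filter ProbabilityTheory

noncomputable section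

namespace Pool.Agent.Helper54.Bal

open Pool.Agent.Anderson

variable {d : ℕ} (μ : Measure ℝ) [IsProbabilityMeasure μ]

/-- the product measure -/
def PP (d : ℕ) (μ : Measure ℝ) [IsProbabilityMeasure μ] : Measure (Cfg d) :=
  Measure.infinitePi fun _ : Site d => μ

instance : IsProbabilityMeasure (PP d μ) := by unfold PP; infer_instance

theorem shiftInv_PP : ShiftInv (PP d μ) := by
  intro a
  refine ⟨measurable_tau a, ?_⟩
  apply Measure.eq_infinitePi
  intro s t ht
  rw [Measure.map_apply (measurable_tau a) (MeasurableSet.pi s.countable_toSet fun i _ => ht i)]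
  classical
  have e : tau a ⁻¹' (Set.pi (s : Set (Site d)) t) =
      Set.pi ((s.map (Equiv.addRight a).toEmbedding : Finset (Site d)) : Set (Site d))
        (fun j => t (j - a)) := by
    ext V
    simp only [Set.mem_preimage, Set.mem_pi, Finset.mem_coe, Finset.mem_map,
      Equiv.coe_toEmbedding, Equiv.coe_addRight]
    constructor
    · rintro h j ⟨i, hi, rfl⟩
      rw [add_sub_cancel_right]
      exact h i hi
    · intro h i hi
      have := h (i + a) ⟨i, hi, rfl⟩
      rwa [add_sub_cancel_right] at this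
  rw [e]
  unfold PP
  rw [Measure.infinitePi_pi _ (fun i _ => ht _), Finset.prod_map]
  apply Finset.prod_congr rfl
  intro i _
  have h1 : (Equiv.addRight a).toEmbedding i - a = i := by
    change i + a - a = i
    exact add_sub_cancel_right i a
  rw [h1]

theorem measurable_upd : Measurable fun p : Cfg d × ℝ => Function.update p.1 (0 : Site d) p.2 := by
  classical
  refine measurable_pi_lambda _ fun y => ?_
  by_cases hy : y = 0
  · subst hy
    simpa using measurable_snd
  · simp only [Function.update_of_ne hy]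
    exact (measurable_pi_apply y).comp measurable_fst

theorem resamp_PP : Resamp (PP d μ) μ := by
  classical
  refine ⟨measurable_upd, ?_⟩
  apply Measure.eq_infinitePi
  intro s t ht
  rw [Measure.map_apply measurable_upd (MeasurableSet.pi s.countable_toSet fun i _ => ht i)]
  have e : (fun p : Cfg d × ℝ => Function.update p.1 (0 : Site d) p.2) ⁻¹'
      (Set.pi (s : Set (Site d)) t) =
      (Set.pi ((s.erase 0 : Finset (Site d)) : Set (Site d)) t) ×ˢ
        (if (0 : Site d) ∈ s then t 0 else Set.univ) := by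
    ext ⟨V, r⟩
    simp only [Set.mem_preimage, Set.mem_pi, Finset.mem_coe, Finset.mem_erase, Set.mem_prod]
    constructor
    · intro h
      refine ⟨fun i hi => ?_, ?_⟩
      · have := h i hi.2
        rwa [Function.update_of_ne hi.1] at this
      · split_ifs with h0
        · have := h 0 h0
          rwa [Function.update_self] at this
        · trivial
    · rintro ⟨h1, h2⟩ i hi
      by_cases hi0 : i = 0
      · subst hi0
        rw [Function.update_self]
        rwa [if_pos hi] at h2
      · rw [Function.update_of_ne hi0]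
        exact h1 i ⟨hi0, hi⟩
  rw [e, Measure.prod_prod]
  unfold PP
  rw [Measure.infinitePi_pi _ (fun i _ => ht i)]
  split_ifs with h0
  · rw [mul_comm, Finset.mul_prod_erase s (fun i => μ (t i)) h0]
  · rw [measure_univ, mul_one, Finset.erase_eq_of_notMem h0]

/-- the second moment `∑_x |x|² |f(x)|²` -/
def secondMoment (f : L2 d) : ℝ≥0∞ :=
  ∑' x : Site d, ENNReal.ofReal ((∑ i, (x i : ℝ) ^ 2) * ‖f x‖ ^ 2)

theorem secondMoment_eq (f : L2 d) : secondMoment f = ∑ i, mom i f := by
  unfold secondMoment mom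
  rw [← Summable.tsum_finsetSum (fun _ _ => ENNReal.summable)]
  apply tsum_congr
  intro x
  rw [Finset.sum_mul, ENNReal.ofReal_sum_of_nonneg (fun i _ => by positivity)]

theorem measurable_sm_evol (t : ℝ) : Measurable fun V : Cfg d => secondMoment (evol V t) := by
  unfold secondMoment
  refine Measurable.tsum fun x => ?_
  have h1 : Continuous fun f : L2 d => f x := by
    have h2 : (fun f : L2 d => f x) = fun f => coord x f := by
      funext f; rw [coord_apply]
    rw [h2]
    exact (coord x).continuous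
  exact ENNReal.measurable_ofReal.comp
    (continuous_const.mul ((h1.comp (continuous_evol_pot t)).norm.pow 2)).measurable

theorem measurable_mom_evol (i : Fin d) (t : ℝ) : Measurable fun V : Cfg d => mom i (evol V t) := by
  unfold mom
  refine Measurable.tsum fun x => ?_
  have h1 : Continuous fun f : L2 d => f x := by
    have h2 : (fun f : L2 d => f x) = fun f => coord x f := by
      funext f; rw [coord_apply]
    rw [h2]
    exact (coord x).continuous
  exact ENNReal.measurable_ofReal.comp
    (continuous_const.mul ((h1.comp (continuous_evol_pot t)).norm.pow 2)).measurable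

theorem lintegral_mom_le {T : ℝ} (hT : 0 < T) {δ : ℝ} (hδ : 0 < δ) (i : Fin d) :
    ∫⁻ V, mom i (evol V T) ∂(PP d μ) ≤ ENNReal.ofReal (T ^ 2) * (ENNReal.ofReal (δ ^ 2) +
      ENNReal.ofReal (8 * Real.exp 2 / Real.pi / δ) * (ENNReal.ofReal ((1 / T) ^ 3) *
        ∫⁻ V, (∫⁻ E : ℝ, ENNReal.ofReal (‖yv i V (zz (1 / T) E)‖ ^ 2)) ∂(PP d μ))) := by
  refine (lintegral_mono fun V => mom_le (isEvolution_evol V) hT hδ i).trans (le_of_eq ?_)
  rw [lintegral_const_mul' _ _ ENNReal.ofReal_ne_top, lintegral_add_left measurable_const,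
    lintegral_const, measure_univ, mul_one, lintegral_const_mul' _ _ ENNReal.ofReal_ne_top,
    lintegral_const_mul' _ _ ENNReal.ofReal_ne_top]

theorem tendsto_mom [NullSingletonClass μ] (i : Fin d) :
    Tendsto (fun T : ℝ => (∫⁻ V, mom i (evol V T) ∂(PP d μ)) / ENNReal.ofReal (T ^ 2))
      atTop (𝓝 0) := by
  set W : ℝ → ℝ≥0∞ := fun η => ENNReal.ofReal (η ^ 3) *
    ∫⁻ V, (∫⁻ E : ℝ, ENNReal.ofReal (‖yv i V (zz η E)‖ ^ 2)) ∂(PP d μ) with hW
  have hw : Tendsto W (𝓝[>] 0) (𝓝 0) := weight_zero (μ := μ) (shiftInv_PP μ) (resamp_PP μ) i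
  have hw2 : Tendsto (fun T : ℝ => W (1 / T)) atTop (𝓝 0) := by
    have h1 : Tendsto (fun T : ℝ => 1 / T) atTop (𝓝[>] 0) := by
      simpa [one_div] using tendsto_inv_atTop_nhdsGT_zero (𝕜 := ℝ)
    exact hw.comp h1
  rw [ENNReal.tendsto_nhds_zero]
  intro ε hε
  obtain ⟨δ, hδ0, hδ⟩ : ∃ δ : ℝ, 0 < δ ∧ ENNReal.ofReal (δ ^ 2) ≤ ε / 2 := by
    have h1 : Tendsto (fun δ : ℝ => ENNReal.ofReal (δ ^ 2)) (𝓝[>] 0) (𝓝 0) := by
      have h2 : Continuous fun δ : ℝ => ENNReal.ofReal (δ ^ 2) :=
        ENNReal.continuous_ofReal.comp (continuous_pow 2)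
      have h3 := (h2.tendsto 0).mono_left (nhdsWithin_le_nhds (s := Set.Ioi (0:ℝ)))
      simpa using h3
    have h4 := (ENNReal.tendsto_nhds_zero.1 h1) (ε / 2) (ENNReal.half_pos hε.ne')
    obtain ⟨δ, h5, h6⟩ := (h4.and self_mem_nhdsWithin).exists
    exact ⟨δ, h6, h5⟩
  have h7 : Tendsto (fun T : ℝ => ENNReal.ofReal (8 * Real.exp 2 / Real.pi / δ) * W (1 / T))
      atTop (𝓝 0) := by
    have := ENNReal.Tendsto.const_mul (a := ENNReal.ofReal (8 * Real.exp 2 / Real.pi / δ)) hw2
      (Or.inr ENNReal.ofReal_ne_top)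
    rwa [mul_zero] at this
  have h8 := (ENNReal.tendsto_nhds_zero.1 h7) (ε / 2) (ENNReal.half_pos hε.ne')
  filter_upwards [h8, eventually_gt_atTop 0] with T h9 hT
  have h10 := lintegral_mom_le μ hT hδ0 i
  have hT2 : ENNReal.ofReal (T ^ 2) ≠ 0 := by
    rw [ne_eq, ENNReal.ofReal_eq_zero, not_le]; positivity
  rw [ENNReal.div_le_iff hT2 ENNReal.ofReal_ne_top, mul_comm]
  refine h10.trans ?_
  gcongr
  refine (add_le_add hδ h9).trans (le_of_eq ?_)
  exact ENNReal.add_halves ε

theorem tendsto_sm [NullSingletonClass μ] :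
    Tendsto (fun T : ℝ => (∫⁻ V, secondMoment (evol V T) ∂(PP d μ)) / ENNReal.ofReal (T ^ 2))
      atTop (𝓝 0) := by
  have h1 : ∀ T : ℝ, (∫⁻ V, secondMoment (evol V T) ∂(PP d μ)) / ENNReal.ofReal (T ^ 2) =
      ∑ i, (∫⁻ V, mom i (evol V T) ∂(PP d μ)) / ENNReal.ofReal (T ^ 2) := by
    intro T
    simp_rw [secondMoment_eq]
    rw [lintegral_finsetSum _ (fun i _ => measurable_mom_evol i T)]
    simp_rw [div_eq_mul_inv]
    rw [Finset.sum_mul]
  simp_rw [h1]
  have h2 := tendsto_finsetSum (Finset.univ : Finset (Fin d)) (fun i _ => tendsto_mom μ i)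
  simpa using h2

end Pool.Agent.Helper54.Bal
end
end -- Pool.Agent.Helper54_Ballistic.Law
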