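import Pool.Agent.Helper12_MEB.B013
import Pool.Agent.Helper48_Loc.Defs

/-!
# Merged copies (generated) of the modules

* `Pool.Agent.Helper48_Loc.Basic`
* `Pool.Agent.Helper48_Loc.Center`
* `Pool.Agent.Helper96_EXP.Lip`
* `Pool.Agent.Helper48_Loc.FinBasis`
* `Pool.Agent.Helper48_Loc.Complete`
* `Pool.Agent.Helper48_Loc.Complete2`
-/

set_option autoImplicit false

section -- Pool.Agent.Helper48_Loc.Basic

/-!
# Expansion of a solution of the eigenvalue equation in a good box
-/

set_option autoImplicit false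

open MeasureTheory ProbabilityTheory

open scoped ENNReal BigOperators

noncomputable section

namespace Pool.Agent.Loc

open Pool.Agent.Anderson

variable {d : ℕ}

theorem lap_add (f g : Site d → ℂ) (x : Site d) :
    lap (fun y => f y + g y) x = lap f x + lap g x := by
  unfold lap
  rw [← Finset.sum_add_distrib]
  apply Finset.sum_congr rfl
  intro i _
  ring

theorem norm_lap_le {f : Site d → ℂ} {x : Site d} {M : ℝ} (h : ∀ y ∈ box x 1, ‖f y‖ ≤ M) :
    ‖lap f x‖ ≤ 2 * d * M := by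
  unfold lap
  calc _ ≤ ∑ i : Fin d, ‖f (x + Pi.single i 1) + f (x - Pi.single i 1)‖ := norm_sum_le _ _
    _ ≤ ∑ _i : Fin d, (M + M) := by
        apply Finset.sum_le_sum
        intro i _
        exact (norm_add_le _ _).trans (add_le_add (h _ (mem_box.2 (sd_add_single_le x i)))
          (h _ (mem_box.2 (sd_sub_single_le x i))))
    _ = 2 * d * M := by simp; ring

theorem lap_indicator (ψ : Site d → ℂ) (W : Finset (Site d)) (u : Site d) :
    lap (fun y => if y ∈ W then ψ y else 0) u = ∑ y ∈ W, (hop u y : ℂ) * ψ y := by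
  rw [lap_eq_sum _ u (box u 1 ∪ W) Finset.subset_union_left]
  rw [← Finset.sum_subset (Finset.subset_union_right (s₁ := box u 1) (s₂ := W))]
  · apply Finset.sum_congr rfl
    intro y hy
    rw [if_pos hy]
  · intro y _ hy
    rw [if_neg hy, mul_zero]

/-- If `ψ` solves the eigenvalue equation in `W`, then in `W` it is given by the resolvent of
`H_W` and the values of `ψ` outside `W`. -/
theorem eig_expand {V : Site d → ℝ} {W : Finset (Site d)} {E : ℝ}
    (hdet : (RM V W E).det ≠ 0) {ψ : Site d → ℂ}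
    (hψ : ∀ x ∈ W, lap ψ x + (V x : ℂ) * ψ x = (E : ℂ) * ψ x) {x : Site d} (hx : x ∈ W) :
    ψ x = ∑ u ∈ W, (gr V W E x u : ℂ) * lap (fun y => if y ∈ W then 0 else ψ y) u := by
  have h1 : ∀ u : W, lap (fun y => if y ∈ W then 0 else ψ y) u =
      ∑ y : W, (RM V W E u y : ℂ) * ψ y := by
    intro u
    have e1 : lap ψ u = lap (fun y => if y ∈ W then ψ y else 0) u +
        lap (fun y => if y ∈ W then 0 else ψ y) u := by
      rw [← lap_add]
      congr 1
      funext y
      by_cases hy : y ∈ W <;> simp [hy]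
    have e2 := hψ u u.2
    rw [e1, lap_indicator] at e2
    have e3 : ∑ y : W, (RM V W E u y : ℂ) * ψ y = (E : ℂ) * ψ u -
        (∑ y ∈ W, (hop (u : Site d) y : ℂ) * ψ y + (V u : ℂ) * ψ u) := by
      rw [← Finset.sum_coe_sort W (fun y => (hop (u : Site d) y : ℂ) * ψ y)]
      simp only [RM, HM, Matrix.sub_apply, Matrix.smul_apply, Matrix.of_apply, smul_eq_mul,
        Matrix.one_apply]
      have e4 : ∀ y : W, ((E * (if u = y then 1 else 0) - (hop (u : Site d) y +
          if u = y then V u else 0) : ℝ) : ℂ) * ψ y =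
          (if u = y then (E : ℂ) * ψ u else 0) - ((hop (u : Site d) y : ℂ) * ψ y +
            (if u = y then (V u : ℂ) * ψ u else 0)) := by
        intro y
        by_cases h : u = y
        · subst h; simp; ring
        · simp [h]
      simp_rw [e4]
      rw [Finset.sum_sub_distrib, Finset.sum_add_distrib]
      simp
    rw [e3, ← e2]
    ring
  have h2 : (RM V W E)⁻¹ * RM V W E = 1 :=
    Matrix.nonsing_inv_mul _ (isUnit_iff_ne_zero.2 hdet)
  rw [← Finset.sum_coe_sort W (fun u => (gr V W E x u : ℂ) *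
    lap (fun y => if y ∈ W then 0 else ψ y) u)]
  simp_rw [h1, Finset.mul_sum]
  rw [Finset.sum_comm]
  have h3 : ∀ y : W, ∑ u : W, (gr V W E x u : ℂ) * ((RM V W E u y : ℂ) * ψ y) =
      (if (⟨x, hx⟩ : W) = y then ψ x else 0) := by
    intro y
    have e1 : ∑ u : W, gr V W E x u * RM V W E u y = if (⟨x, hx⟩ : W) = y then 1 else 0 := by
      have := congrFun (congrFun h2 ⟨x, hx⟩) y
      rw [Matrix.mul_apply, Matrix.one_apply] at this
      rw [← this]
      apply Finset.sum_congr rfl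
      intro u _
      congr 1
      unfold gr
      rw [dif_pos ⟨hx, u.2⟩]
    calc _ = ((∑ u : W, gr V W E x u * RM V W E u y : ℝ) : ℂ) * ψ y := by
          push_cast
          rw [Finset.sum_mul]
          apply Finset.sum_congr rfl
          intro u _
          ring
      _ = _ := by
          rw [e1]
          by_cases h : (⟨x, hx⟩ : W) = y
          · rw [← h]; simp
          · simp [h]
  simp_rw [h3]
  simp

/-- The value at the centre of a good box of a solution of the eigenvalue equation. In finite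
volume `box 0 n` the solution is extended by zero. -/
theorem goodBox_bound {V : Site d → ℝ} {n L : ℕ} {x : Site d} {E μ : ℝ}
    (hg : GoodBox V n L x E μ) (hx : x ∈ box (0 : Site d) n)
    (hne : ∃ u ∈ box x L ∩ box 0 n, sd x u = L) {ψ : Site d → ℂ}
    (hψ : ∀ y ∈ box x L ∩ box 0 n, lap ψ y + (V y : ℂ) * ψ y = (E : ℂ) * ψ y)
    (hψ0 : ∀ y ∈ box x L, y ∉ box (0 : Site d) n → ψ y = 0)
    {M : ℝ} (hM : ∀ y ∈ box x (L + 1), ‖ψ y‖ ≤ M) :
    ‖ψ x‖ ≤ 2 * d * (2 * L + 1) ^ d * Real.exp (-μ * L) * M := by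
  set W := box x L ∩ box (0 : Site d) n with hW
  obtain ⟨u₀, hu₀, hu₀L⟩ := hne
  have hdet := (hg u₀ hu₀ hu₀L).1
  have hxW : x ∈ W := by
    rw [hW, Finset.mem_inter]
    refine ⟨?_, hx⟩
    rw [mem_box, sd_self]
    omega
  have hM0 : 0 ≤ M := (norm_nonneg _).trans (hM x (by rw [mem_box, sd_self]; omega))
  rw [eig_expand hdet hψ hxW]
  have key : ∀ u ∈ W, ‖(gr V W E x u : ℂ) * lap (fun y => if y ∈ W then 0 else ψ y) u‖ ≤
      Real.exp (-μ * L) * (2 * d * M) := by
    intro u hu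
    have huL : sd x u ≤ L := by
      rw [hW, Finset.mem_inter, mem_box] at hu
      exact hu.1
    rcases Nat.lt_or_ge (sd x u) L with h | h
    · have h0 : lap (fun y => if y ∈ W then 0 else ψ y) u = 0 := by
        have hz : ∀ y ∈ box u 1, (if y ∈ W then 0 else ψ y) = 0 := by
          intro y hy
          by_cases hyW : y ∈ W
          · rw [if_pos hyW]
          · rw [if_neg hyW]
            have hyL : y ∈ box x L := by
              rw [mem_box] at *
              have := sd_triangle x u y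
              omega
            apply hψ0 y hyL
            intro hyn
            exact hyW (by rw [hW, Finset.mem_inter]; exact ⟨hyL, hyn⟩)
        unfold lap
        apply Finset.sum_eq_zero
        intro i _
        beta_reduce
        rw [hz _ (mem_box.2 (sd_add_single_le u i)), hz _ (mem_box.2 (sd_sub_single_le u i)),
          add_zero]
      rw [h0, mul_zero, norm_zero]
      positivity
    · have huL' : sd x u = L := le_antisymm huL h
      rw [norm_mul]
      apply mul_le_mul _ _ (norm_nonneg _) (Real.exp_pos _).le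
      · rw [Complex.norm_real]
        exact (hg u hu huL').2.le
      · apply norm_lap_le
        intro y hy
        by_cases hyW : y ∈ W
        · rw [if_pos hyW, norm_zero]; exact hM0
        · rw [if_neg hyW]
          apply hM
          rw [mem_box] at *
          have := sd_triangle x u y
          omega
  calc _ ≤ ∑ u ∈ W, ‖(gr V W E x u : ℂ) * lap (fun y => if y ∈ W then 0 else ψ y) u‖ :=
        norm_sum_le _ _
    _ ≤ ∑ _u ∈ W, Real.exp (-μ * L) * (2 * d * M) := Finset.sum_le_sum key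
    _ = W.card * (Real.exp (-μ * L) * (2 * d * M)) := by
        rw [Finset.sum_const, nsmul_eq_mul]
    _ ≤ ((2 * L + 1) ^ d) * (Real.exp (-μ * L) * (2 * d * M)) := by
        apply mul_le_mul_of_nonneg_right _ (by positivity)
        have h1 : W.card ≤ (box x L).card := Finset.card_le_card Finset.inter_subset_left
        rw [card_box] at h1
        exact_mod_cast h1
    _ = _ := by ring

/-- From a point of the cube `box 0 n` at distance more than `L` from another point of the cube,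
one can go at distance exactly `L` without leaving the cube. -/
theorem exists_sd_eq_of_lt {n L : ℕ} {x y : Site d} (hx : x ∈ box (0 : Site d) n)
    (hy : y ∈ box (0 : Site d) n) (h : L < sd x y) :
    ∃ u ∈ box x L ∩ box (0 : Site d) n, sd x u = L := by
  rcases Nat.eq_zero_or_pos d with hd | hd
  · subst hd
    exfalso
    unfold sd at h
    simp at h
  have hne : NeZero d := ⟨by omega⟩
  obtain ⟨i, hi⟩ := exists_sd_eq x y
  have hx' := sd_le_iff.1 (mem_box.1 hx)
  have hy' := sd_le_iff.1 (mem_box.1 hy)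
  have hxi := abs_le.1 (hx' i)
  have hyi := abs_le.1 (hy' i)
  simp only [Pi.zero_apply] at hxi hyi
  have hL : (L : ℤ) < |x i - y i| := by rw [← hi]; exact_mod_cast h
  have key : ∀ c : ℤ, |c| = L → (-(n : ℤ) ≤ x i + c ∧ x i + c ≤ n) →
      ∃ u ∈ box x L ∩ box (0 : Site d) n, sd x u = L := by
    intro c hc hcn
    obtain ⟨u, hui, huj⟩ : ∃ u : Site d, u i = x i + c ∧ ∀ j, j ≠ i → u j = x j :=
      ⟨Function.update x i (x i + c), by simp, fun j hj => by simp [hj]⟩
    have hsd : sd x u = L := by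
      apply le_antisymm
      · rw [sd_le_iff]
        intro j
        by_cases hj : j = i
        · rw [hj, hui, sub_add_cancel_left, abs_neg, hc]
        · rw [huj j hj, sub_self, abs_zero]
          omega
      · have h1 := sd_le_iff.1 (le_refl (sd x u)) i
        rw [hui, sub_add_cancel_left, abs_neg, hc] at h1
        exact_mod_cast h1
    refine ⟨u, ?_, hsd⟩
    rw [Finset.mem_inter, mem_box, mem_box]
    refine ⟨hsd.le, ?_⟩
    rw [sd_le_iff]
    intro j
    by_cases hj : j = i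
    · rw [hj, hui, Pi.zero_apply, zero_sub, abs_neg, abs_le]
      exact hcn
    · rw [huj j hj]
      exact hx' j
  rcases le_total (x i) (y i) with hxy | hxy
  · rw [abs_of_nonpos (by omega)] at hL
    exact key L (by simp) ⟨by omega, by omega⟩
  · rw [abs_of_nonneg (by omega)] at hL
    exact key (-L) (by simp) ⟨by omega, by omega⟩

end Pool.Agent.Loc
end
end -- Pool.Agent.Helper48_Loc.Basic

section -- Pool.Agent.Helper48_Loc.Center

/-!
# Finite-volume eigenfunctions decay exponentially away from their centres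
-/

set_option autoImplicit false
set_option linter.unusedSectionVars false

open MeasureTheory ProbabilityTheory Function Filter

open scoped ENNReal BigOperators Topology

noncomputable section

namespace Pool.Agent.Loc

open Pool.Agent.Anderson

variable {d : ℕ}

/-- `ψ` is a normalised eigenfunction of the restriction of `Δ + V` to the cube `box 0 n`,
extended by `0`. -/
structure FinEig (V : Site d → ℝ) (n : ℕ) (E : ℝ) (ψ : Site d → ℂ) : Prop where
  supp : ∀ x, x ∉ box (0 : Site d) n → ψ x = 0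
  eq : ∀ x ∈ box (0 : Site d) n, lap ψ x + (V x : ℂ) * ψ x = (E : ℂ) * ψ x
  norm : ∑ x ∈ box (0 : Site d) n, ‖ψ x‖ ^ 2 = 1

theorem FinEig.le_one {V : Site d → ℝ} {n : ℕ} {E : ℝ} {ψ : Site d → ℂ} (h : FinEig V n E ψ)
    (x : Site d) : ‖ψ x‖ ≤ 1 := by
  by_cases hx : x ∈ box (0 : Site d) n
  · have h1 : ‖ψ x‖ ^ 2 ≤ 1 := by
      rw [← h.norm]
      exact Finset.single_le_sum (f := fun x => ‖ψ x‖ ^ 2) (fun y _ => by positivity) hx
    nlinarith only [norm_nonneg (ψ x), h1]
  · rw [h.supp x hx, norm_zero]; exact zero_le_one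

/-- `c` is a centre of `ψ` -/
def IsCenter (n : ℕ) (ψ : Site d → ℂ) (c : Site d) : Prop :=
  c ∈ box (0 : Site d) n ∧ ∀ x, ‖ψ x‖ ≤ ‖ψ c‖

theorem FinEig.exists_center {V : Site d → ℝ} {n : ℕ} {E : ℝ} {ψ : Site d → ℂ}
    (h : FinEig V n E ψ) : ∃ c, IsCenter n ψ c := by
  have hne : (box (0 : Site d) n).Nonempty := ⟨0, by rw [mem_box, sd_self]; omega⟩
  obtain ⟨c, hc, hmax⟩ := Finset.exists_max_image (box (0 : Site d) n) (fun x => ‖ψ x‖) hne
  refine ⟨c, hc, fun x => ?_⟩
  by_cases hx : x ∈ box (0 : Site d) n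
  · exact hmax x hx
  · rw [h.supp x hx, norm_zero]; exact norm_nonneg _

theorem FinEig.center_pos {V : Site d → ℝ} {n : ℕ} {E : ℝ} {ψ : Site d → ℂ}
    (h : FinEig V n E ψ) {c : Site d} (hc : IsCenter n ψ c) : 0 < ‖ψ c‖ := by
  rw [norm_pos_iff]
  intro h0
  have : ∑ x ∈ box (0 : Site d) n, ‖ψ x‖ ^ 2 = 0 := by
    apply Finset.sum_eq_zero
    intro x _
    have := hc.2 x
    rw [h0, norm_zero] at this
    have h1 : ‖ψ x‖ = 0 := le_antisymm this (norm_nonneg _)
    rw [h1]; norm_num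
  rw [h.norm] at this
  exact one_ne_zero this

theorem tendsto_poly_exp (d : ℕ) {μ : ℝ} (hμ : 0 < μ) (a b : ℝ) :
    Tendsto (fun L : ℕ => b * (2 * L + a) ^ d * Real.exp (-μ * L)) atTop (𝓝 0) := by
  have h1 : Tendsto (fun x : ℝ => x ^ d * Real.exp (-μ / 2 * x)) atTop (𝓝 0) := by
    have := Real.tendsto_pow_mul_exp_neg_atTop_nhds_zero d
    have h2 : Tendsto (fun x : ℝ => (μ / 2) * x) atTop atTop :=
      tendsto_id.const_mul_atTop (by positivity)
    have h3 := this.comp h2
    have h4 : Tendsto (fun x : ℝ => (2 / μ) ^ d * (((μ / 2) * x) ^ d * Real.exp (-((μ / 2) * x))))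
        atTop (𝓝 ((2 / μ) ^ d * 0)) := h3.const_mul _
    rw [mul_zero] at h4
    refine h4.congr fun x => ?_
    rw [mul_pow, ← mul_assoc, ← mul_assoc, ← mul_pow]
    have : 2 / μ * (μ / 2) = 1 := by field_simp
    rw [this, one_pow, one_mul]
    congr 2; ring
  have h2 : Tendsto (fun L : ℕ => 2 * (L : ℝ) + a) atTop atTop :=
    tendsto_atTop_add_const_right _ _ (tendsto_natCast_atTop_atTop.const_mul_atTop (by norm_num))
  have h3 := (h1.comp h2).const_mul (b * Real.exp (μ / 2 * a))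
  rw [mul_zero] at h3
  refine h3.congr fun L => ?_
  simp only [Function.comp]
  have : Real.exp (-μ / 2 * (2 * L + a)) = Real.exp (-μ * L) * Real.exp (-(μ / 2 * a)) := by
    rw [← Real.exp_add]; congr 1; ring
  rw [this, Real.exp_neg (μ / 2 * a)]
  field_simp

/-- In the localized regime the finite-volume eigenfunctions decay away from their centres. -/
theorem center_decay {V : Site d → ℝ} {E₀ μ : ℝ} (hμ : 0 < μ) {L₀ : ℕ}
    (h : TwoBox V E₀ μ L₀) :
    ∃ L₁ : ℕ, ∀ (n : ℕ) (E : ℝ) (ψ : Site d → ℂ) (c : Site d), E₀ ≤ |E| → FinEig V n E ψ →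
      IsCenter n ψ c → ∀ L : ℕ, L₁ ≤ L → ∀ x ∈ box (0 : Site d) n, 2 * L < sd c x →
        sd 0 c ≤ L ^ 2 → sd 0 x ≤ L ^ 2 →
        ‖ψ x‖ ≤ 2 * d * (2 * L + 1) ^ d * Real.exp (-μ * L) * ‖ψ c‖ := by
  have h1 := tendsto_poly_exp d hμ 1 (2 * d)
  have h2 : ∀ᶠ L : ℕ in atTop, 2 * (d:ℝ) * (2 * L + 1) ^ d * Real.exp (-μ * L) < 1 :=
    h1.eventually (gt_mem_nhds one_pos)
  obtain ⟨L₂, hL₂⟩ := eventually_atTop.1 h2
  refine ⟨max L₀ L₂, ?_⟩
  intro n E ψ c hE hψ hc L hL x hx hcx hc2 hx2
  have hcpos := hψ.center_pos hc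
  rcases h L (le_of_max_le_left hL) n c (mem_box.2 hc2) x (mem_box.2 hx2) hc.1 hx hcx E hE with
    hg | hg
  · exfalso
    have hne := exists_sd_eq_of_lt (L := L) hc.1 hx (by omega)
    have h3 := goodBox_bound hg hc.1 hne (ψ := ψ)
      (fun y hy => hψ.eq y (Finset.mem_inter.1 hy).2) (fun y _ hy => hψ.supp y hy)
      (M := ‖ψ c‖) (fun y _ => hc.2 y)
    have h4 := hL₂ L (le_of_max_le_right hL)
    nlinarith only [hcpos, h3, h4]
  · have hne := exists_sd_eq_of_lt (L := L) hx hc.1 (by rw [sd_comm]; omega)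
    exact goodBox_bound hg hx hne (ψ := ψ)
      (fun y hy => hψ.eq y (Finset.mem_inter.1 hy).2) (fun y _ hy => hψ.supp y hy)
      (M := ‖ψ c‖) (fun y _ => hc.2 y)

/-- cleaner form -/
theorem center_decay' {V : Site d → ℝ} {E₀ μ : ℝ} (hμ : 0 < μ) {L₀ : ℕ}
    (h : TwoBox V E₀ μ L₀) :
    ∃ (C₁ : ℝ) (R₀ : ℕ), 1 ≤ C₁ ∧ ∀ (n : ℕ) (E : ℝ) (ψ : Site d → ℂ) (c : Site d), E₀ ≤ |E| →
      FinEig V n E ψ → IsCenter n ψ c → ∀ x : Site d, R₀ ≤ sd c x → 16 * sd 0 c ≤ (sd c x) ^ 2 →
        ‖ψ x‖ ≤ C₁ * Real.exp (-(μ / 4) * sd c x) * ‖ψ c‖ := by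
  obtain ⟨L₁, hL₁⟩ := center_decay hμ h
  -- a bound for the polynomial factor
  have h1 := tendsto_poly_exp d (show 0 < μ / 2 by positivity) 1 (2 * d)
  obtain ⟨C₀, hC₀⟩ := h1.bddAbove_range
  have hC₀' : ∀ L : ℕ, 2 * (d:ℝ) * (2 * L + 1) ^ d * Real.exp (-(μ / 2) * L) ≤ C₀ := fun L =>
    hC₀ ⟨L, rfl⟩
  refine ⟨max 1 (C₀ * Real.exp (μ / 2)), 2 * L₁ + 14, le_max_left _ _, ?_⟩
  intro n E ψ c hE hψ hc x hr hr2
  set r := sd c x with hrdef
  by_cases hx : x ∈ box (0 : Site d) n
  swap
  · rw [hψ.supp x hx, norm_zero]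
    positivity
  set L := (r - 1) / 2 with hL
  have hLr : 2 * L < r := by omega
  have hLr' : r ≤ 2 * L + 2 := by omega
  have hL6 : 6 ≤ L := by omega
  have hm : sd 0 c * 4 ≤ (L + 1) ^ 2 := by
    have : r ^ 2 ≤ (2 * L + 2) ^ 2 := Nat.pow_le_pow_left hLr' 2
    nlinarith only [hr2, this]
  have hsx : sd 0 x ≤ sd 0 c + r := sd_triangle 0 c x
  have h3 := hL₁ n E ψ c hE hψ hc L (by omega) x hx hLr (by nlinarith only [hr, hLr', hm]) (by nlinarith only [hr, hr2, hLr, hLr', hsx])
  have hcpos := (hψ.center_pos hc).le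
  refine h3.trans (mul_le_mul_of_nonneg_right ?_ hcpos)
  have h4 := hC₀' L
  have h5 : Real.exp (-μ * L) = Real.exp (-(μ / 2) * L) * Real.exp (-(μ / 2) * L) := by
    rw [← Real.exp_add]; congr 1; ring
  have h6 : Real.exp (-(μ / 2) * L) ≤ Real.exp (μ / 2) * Real.exp (-(μ / 4) * r) := by
    rw [← Real.exp_add]
    apply Real.exp_le_exp.2
    have : (r : ℝ) ≤ 2 * L + 2 := by exact_mod_cast hLr'
    nlinarith only [hμ, this]
  calc 2 * (d:ℝ) * (2 * L + 1) ^ d * Real.exp (-μ * L)
      = (2 * (d:ℝ) * (2 * L + 1) ^ d * Real.exp (-(μ / 2) * L)) * Real.exp (-(μ / 2) * L) := by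
        rw [h5]; ring
    _ ≤ C₀ * (Real.exp (μ / 2) * Real.exp (-(μ / 4) * r)) := by
        apply mul_le_mul h4 h6 (Real.exp_pos _).le
        exact le_trans (by positivity) h4
    _ = (C₀ * Real.exp (μ / 2)) * Real.exp (-(μ / 4) * r) := by ring
    _ ≤ _ := mul_le_mul_of_nonneg_right (le_max_right _ _) (Real.exp_pos _).le

/-- Uniform decay of all the eigenfunctions whose centres are in a given box. -/
theorem uniform_decay {V : Site d → ℝ} {E₀ μ : ℝ} (hμ : 0 < μ) {L₀ : ℕ}
    (h : TwoBox V E₀ μ L₀) (R : ℕ) :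
    ∃ C : ℝ, 0 < C ∧ ∀ (n : ℕ) (E : ℝ) (ψ : Site d → ℂ) (c : Site d), E₀ ≤ |E| →
      FinEig V n E ψ → IsCenter n ψ c → sd 0 c ≤ R → ∀ x : Site d,
        ‖ψ x‖ ≤ C * Real.exp (-(μ / 4) * sd 0 x) := by
  obtain ⟨C₁, R₀, hC₁, hdec⟩ := center_decay' hμ h
  refine ⟨C₁ * Real.exp (μ / 4 * (R₀ + 17 * R + 1)), by positivity, ?_⟩
  intro n E ψ c hE hψ hc hcR x
  have htri : sd 0 x ≤ sd 0 c + sd c x := sd_triangle 0 c x
  have hψc : ‖ψ c‖ ≤ 1 := hψ.le_one c
  by_cases hcase : R₀ ≤ sd c x ∧ 16 * sd 0 c ≤ (sd c x) ^ 2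
  · refine (hdec n E ψ c hE hψ hc x hcase.1 hcase.2).trans ?_
    calc C₁ * Real.exp (-(μ / 4) * sd c x) * ‖ψ c‖ ≤ C₁ * Real.exp (-(μ / 4) * sd c x) * 1 := by
          gcongr
      _ ≤ C₁ * (Real.exp (μ / 4 * (R₀ + 17 * R + 1)) * Real.exp (-(μ / 4) * sd 0 x)) := by
          rw [mul_one]
          gcongr
          rw [← Real.exp_add]
          apply Real.exp_le_exp.2
          have h1 : (sd 0 x : ℝ) ≤ R + sd c x := by
            have : sd 0 x ≤ R + sd c x := by omega
            exact_mod_cast this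
          have h2 : (0:ℝ) ≤ R₀ := by positivity
          have h3 : (0:ℝ) ≤ R := by positivity
          nlinarith only [hμ, h1]
      _ = _ := by ring
  · have hsx : sd 0 x ≤ R₀ + 17 * R + 1 := by
      rw [not_and_or, not_le, not_le] at hcase
      rcases hcase with h1 | h1
      · omega
      · have : sd c x ≤ 16 * sd 0 c := by
          by_contra hcon
          push Not at hcon
          nlinarith only [h1, hcon]
        omega
    have h1 : (sd 0 x : ℝ) ≤ R₀ + 17 * R + 1 := by exact_mod_cast hsx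
    calc ‖ψ x‖ ≤ 1 := hψ.le_one x
      _ ≤ C₁ * (Real.exp (μ / 4 * (R₀ + 17 * R + 1)) * Real.exp (-(μ / 4) * sd 0 x)) := by
          rw [← Real.exp_add]
          have h2 : (1:ℝ) ≤ Real.exp (μ / 4 * (R₀ + 17 * R + 1) + -(μ / 4) * sd 0 x) := by
            apply Real.one_le_exp
            nlinarith only [hμ, h1]
          nlinarith only [hC₁, h2]
      _ = _ := by ring

/-! ### summability of exponentials over the lattice -/

theorem summable_exp_sd {a : ℝ} (ha : 0 < a) (y : Site d) :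
    Summable fun x : Site d => Real.exp (-a * sd x y) := by
  have h1 : Summable fun r : ℕ => (2 * (r:ℝ) + 1) ^ d * Real.exp (-a * r) := by
    have h2 := tendsto_poly_exp d (show 0 < a / 2 by positivity) 1 1
    obtain ⟨C₀, hC₀⟩ := h2.bddAbove_range
    have hC₀' : ∀ L : ℕ, 1 * (2 * (L:ℝ) + 1) ^ d * Real.exp (-(a / 2) * L) ≤ C₀ := fun L =>
      hC₀ ⟨L, rfl⟩
    have h3 : Summable fun r : ℕ => C₀ * Real.exp (-(a / 2) * r) := by
      apply Summable.mul_left
      have h4 := Real.summable_exp_nat_mul_iff (a := -(a / 2)) |>.2 (by linarith only [ha])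
      refine h4.congr fun n => by rw [mul_comm]
    refine Summable.of_nonneg_of_le (fun r => by positivity) (fun r => ?_) h3
    have h5 : Real.exp (-a * r) = Real.exp (-(a / 2) * r) * Real.exp (-(a / 2) * r) := by
      rw [← Real.exp_add]; congr 1; ring
    rw [h5, ← mul_assoc]
    have := hC₀' r
    rw [one_mul] at this
    exact mul_le_mul_of_nonneg_right this (Real.exp_pos _).le
  refine summable_of_sum_le (fun x => (Real.exp_pos _).le)
    (c := ∑' r : ℕ, (2 * (r:ℝ) + 1) ^ d * Real.exp (-a * r)) ?_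
  intro F
  rw [← Finset.sum_fiberwise_of_maps_to (s := F) (t := F.image fun x => sd x y)
    (g := fun x => sd x y) (fun x hx => Finset.mem_image_of_mem _ hx)]
  refine le_trans (Finset.sum_le_sum (g := fun r : ℕ => (2 * (r:ℝ) + 1) ^ d * Real.exp (-a * r))
    fun r _ => ?_) (h1.sum_le_tsum _ fun r _ => by positivity)
  calc ∑ x ∈ F.filter (fun x => sd x y = r), Real.exp (-a * sd x y)
      = ∑ _x ∈ F.filter (fun x => sd x y = r), Real.exp (-a * r) := by
        apply Finset.sum_congr rfl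
        intro x hx
        rw [(Finset.mem_filter.1 hx).2]
    _ = (F.filter (fun x => sd x y = r)).card * Real.exp (-a * r) := by
        rw [Finset.sum_const, nsmul_eq_mul]
    _ ≤ _ := by
        apply mul_le_mul_of_nonneg_right _ (Real.exp_pos _).le
        have h2 : (F.filter (fun x => sd x y = r)).card ≤ (box y r).card := by
          apply Finset.card_le_card
          intro x hx
          rw [mem_box, sd_comm]
          exact (Finset.mem_filter.1 hx).2.le
        rw [card_box] at h2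
        exact_mod_cast h2

end Pool.Agent.Loc
end
end -- Pool.Agent.Helper48_Loc.Center

section -- Pool.Agent.Helper96_EXP.Lip

/-!
# Exponentially decaying solutions: the tuned potential is a Lipschitz function of the energy

`n` is a solution of `(Δ + V - E) n = 0` off the site `0` with `n 0 = 1`, exponentially decaying.
`E - lapR n 0` is the value of the potential at `0` for which `n` is an eigenfunction. For two
energies `E`, `E'` these values differ by `(E - E') ∑ n n'`.
-/

set_option autoImplicit false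
set_option linter.unusedSectionVars false

open MeasureTheory Function

open scoped ENNReal NNReal BigOperators

noncomputable section

namespace Pool.Agent.Helper96.EXP

open Pool.Agent.Anderson Pool.Agent.Loc

variable {d : ℕ}

/-- the lattice Laplacian on real functions -/
def lapR (n : Site d → ℝ) (x : Site d) : ℝ :=
  ∑ i : Fin d, (n (x + Pi.single i 1) + n (x - Pi.single i 1))

/-- `|n x| ≤ C e^{-m|x|}` -/
def Dec (C m : ℝ) (n : Site d → ℝ) : Prop := ∀ x, |n x| ≤ C * Real.exp (-m * sd 0 x)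

/-- an exponentially decaying solution off the site `0`, with value `1` at `0` -/
def Sol (C m : ℝ) (V : Site d → ℝ) (E : ℝ) (n : Site d → ℝ) : Prop :=
  n 0 = 1 ∧ Dec C m n ∧ ∀ x, x ≠ 0 → lapR n x + V x * n x = E * n x

/-- there is an exponentially decaying solution off the site `0`, with value `1` at `0` -/
def GoodE (C m : ℝ) (V : Site d → ℝ) (E : ℝ) : Prop := ∃ n, Sol C m V E n

theorem summable_exp0 {m : ℝ} (hm : 0 < m) :
    Summable fun x : Site d => Real.exp (-m * sd 0 x) := by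
  have h := summable_exp_sd (d := d) hm 0
  exact h.congr fun x => by rw [sd_comm]

theorem Dec.nonneg {C m : ℝ} {n : Site d → ℝ} (h : Dec C m n) : 0 ≤ C := by
  have h1 := (abs_nonneg _).trans (h 0)
  have h2 := Real.exp_pos (-m * sd (0 : Site d) 0)
  by_contra hc
  push Not at hc
  nlinarith

theorem Dec.abs_le {C m : ℝ} {n : Site d → ℝ} (hm : 0 < m) (h : Dec C m n) (x : Site d) :
    |n x| ≤ C := by
  have h0 := h.nonneg
  refine (h x).trans ?_
  have h1 : Real.exp (-m * sd 0 x) ≤ 1 := by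
    rw [Real.exp_le_one_iff]
    have : (0 : ℝ) ≤ sd 0 x := by positivity
    nlinarith
  nlinarith

theorem Dec.summable_mul {C m : ℝ} {n n' : Site d → ℝ} (hm : 0 < m) (h : Dec C m n)
    (h' : Dec C m n') (a : Site d) : Summable fun x => n (x + a) * n' x := by
  have h0 := h.nonneg
  refine Summable.of_norm_bounded (g := fun x => C * (C * Real.exp (-m * sd 0 x)))
    (((summable_exp0 hm).mul_left C).mul_left C) fun x => ?_
  rw [Real.norm_eq_abs, abs_mul]
  exact mul_le_mul (h.abs_le hm _) (h' x) (abs_nonneg _) h0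

theorem tsum_shift {C m : ℝ} {n n' : Site d → ℝ} (a : Site d) :
    ∑' x, n (x + a) * n' x = ∑' x, n x * n' (x - a) := by
  rw [← (Equiv.addRight a).tsum_eq fun x => n x * n' (x - a)]
  apply tsum_congr
  intro x
  simp

theorem summable_lap {C m : ℝ} {n n' : Site d → ℝ} (hm : 0 < m) (h : Dec C m n)
    (h' : Dec C m n') : Summable fun x => lapR n x * n' x := by
  have e : (fun x => lapR n x * n' x) = fun x => ∑ i : Fin d,
      (n (x + Pi.single i 1) * n' x + n (x + -Pi.single i 1) * n' x) := by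
    funext x
    unfold lapR
    rw [Finset.sum_mul]
    exact Finset.sum_congr rfl fun i _ => by rw [add_mul, sub_eq_add_neg]
  rw [e]
  exact summable_sum fun i _ => (h.summable_mul hm h' _).add (h.summable_mul hm h' _)

theorem tsum_lap {C m : ℝ} {n n' : Site d → ℝ} (hm : 0 < m) (h : Dec C m n)
    (h' : Dec C m n') : ∑' x, lapR n x * n' x = ∑' x, n x * lapR n' x := by
  have e : ∀ f g : Site d → ℝ, (fun x => lapR f x * g x) = fun x => ∑ i : Fin d,
      (f (x + Pi.single i 1) * g x + f (x + -Pi.single i 1) * g x) := by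
    intro f g
    funext x
    unfold lapR
    rw [Finset.sum_mul]
    exact Finset.sum_congr rfl fun i _ => by rw [add_mul, sub_eq_add_neg]
  have e2 : (fun x => n x * lapR n' x) = fun x => lapR n' x * n x := by
    funext x; rw [mul_comm]
  rw [e2, e n n', e n' n, Summable.tsum_finsetSum fun i _ =>
      (h.summable_mul hm h' _).add (h.summable_mul hm h' _),
    Summable.tsum_finsetSum fun i _ => (h'.summable_mul hm h _).add (h'.summable_mul hm h _)]
  refine Finset.sum_congr rfl fun i _ => ?_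
  rw [(h.summable_mul hm h' _).tsum_add (h.summable_mul hm h' _),
    (h'.summable_mul hm h _).tsum_add (h'.summable_mul hm h _), add_comm]
  have k : ∀ (f g : Site d → ℝ) (a : Site d),
      ∑' x, f (x + a) * g x = ∑' x, g (x + -a) * f x := by
    intro f g a
    rw [tsum_shift (C := C) (m := m)]
    apply tsum_congr
    intro x
    rw [mul_comm, sub_eq_add_neg]
  rw [k n n' (-Pi.single i 1), k n n' (Pi.single i 1), neg_neg]

/-- the key identity -/
theorem key {C m E E' : ℝ} {V n n' : Site d → ℝ} (hm : 0 < m) (hn : Sol C m V E n)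
    (hn' : Sol C m V E' n') :
    (E - lapR n 0) - (E' - lapR n' 0) = (E - E') * ∑' x, n x * n' x := by
  obtain ⟨h1, h2, h3⟩ := hn
  obtain ⟨h1', h2', h3'⟩ := hn'
  have s1 := summable_lap hm h2 h2'
  have s2 : Summable fun x => n x * lapR n' x := by
    have := summable_lap hm h2' h2
    exact this.congr fun x => mul_comm _ _
  have s3 : Summable fun x => n x * n' x := by
    have := h2.summable_mul hm h2' 0
    exact this.congr fun x => by rw [add_zero]
  have e0 : ∑' x, (lapR n x * n' x - n x * lapR n' x) = 0 := by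
    rw [s1.tsum_sub s2, tsum_lap hm h2 h2', sub_self]
  have e1 : (fun x => lapR n x * n' x - n x * lapR n' x) = fun x =>
      (E - E') * (n x * n' x) + if x = 0 then (lapR n 0 - lapR n' 0 - (E - E')) else 0 := by
    funext x
    by_cases hx : x = 0
    · subst hx
      rw [if_pos rfl, h1, h1']
      ring
    · rw [if_neg hx]
      have a1 := h3 x hx
      have a2 := h3' x hx
      linear_combination n' x * a1 - n x * a2
  have s4 : Summable fun x : Site d =>
      if x = 0 then (lapR n 0 - lapR n' 0 - (E - E')) else 0 :=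
    (hasSum_ite_eq (0 : Site d) (lapR n 0 - lapR n' 0 - (E - E'))).summable
  rw [e1, (s3.mul_left (E - E')).tsum_add s4, tsum_mul_left, tsum_ite_eq] at e0
  linarith

theorem lip {C m E E' : ℝ} {V n n' : Site d → ℝ} (hm : 0 < m) (hn : Sol C m V E n)
    (hn' : Sol C m V E' n') :
    |(E - lapR n 0) - (E' - lapR n' 0)| ≤
      (C * (C * ∑' x : Site d, Real.exp (-m * sd 0 x))) * |E - E'| := by
  rw [key hm hn hn', abs_mul, mul_comm]
  apply mul_le_mul_of_nonneg_right _ (abs_nonneg _)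
  have h0 := hn.2.1.nonneg
  have s : Summable fun x : Site d => C * (C * Real.exp (-m * sd 0 x)) :=
    ((summable_exp0 hm).mul_left C).mul_left C
  have e : ∑' x : Site d, C * (C * Real.exp (-m * sd 0 x)) =
      C * (C * ∑' x : Site d, Real.exp (-m * sd 0 x)) := by
    rw [tsum_mul_left, tsum_mul_left]
  rw [← e, ← Real.norm_eq_abs]
  apply tsum_of_norm_bounded s.hasSum
  intro x
  rw [Real.norm_eq_abs, abs_mul]
  exact mul_le_mul (hn.2.1.abs_le hm _) (hn'.2.1 x) (abs_nonneg _) h0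

theorem null_image {A : Set ℝ} (hA : volume A = 0) (v : ℝ → ℝ) {K : ℝ≥0}
    (hv : LipschitzOnWith K v A) : volume (v '' A) = 0 := by
  have h := hv.hausdorffMeasure_image_le (d := 1) zero_le_one
  rw [hausdorffMeasure_real, hA, mul_zero] at h
  exact le_antisymm h zero_le

/-- The set of values of the potential at `0` for which there is an exponentially decaying
eigenfunction with an energy in a null set of good energies is a null set. -/
theorem null_values {C m : ℝ} {V : Site d → ℝ} (hm : 0 < m) {K : Set ℝ}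
    (hA : volume {E | E ∈ K ∧ GoodE C m V E} = 0) :
    volume {r : ℝ | ∃ E ∈ K, ∃ n, Sol C m V E n ∧ lapR n 0 + r = E} = 0 := by
  classical
  set v : ℝ → ℝ := fun E => if h : GoodE C m V E then E - lapR h.choose 0 else 0 with hv
  have hve : ∀ E n, Sol C m V E n → v E = E - lapR n 0 := by
    intro E n hn
    have h : GoodE C m V E := ⟨n, hn⟩
    have h1 := key hm h.choose_spec hn
    rw [sub_self, zero_mul, sub_eq_zero] at h1
    rw [hv]
    simp only
    rw [dif_pos h, h1]
  set Λ : ℝ := C * (C * ∑' x : Site d, Real.exp (-m * sd 0 x)) with hΛ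
  have hlip : LipschitzOnWith Λ.toNNReal v {E | E ∈ K ∧ GoodE C m V E} := by
    apply LipschitzOnWith.of_dist_le_mul
    rintro E ⟨_, n, hn⟩ E' ⟨_, n', hn'⟩
    rw [hve E n hn, hve E' n' hn', Real.dist_eq, Real.dist_eq]
    refine (lip hm hn hn').trans ?_
    exact mul_le_mul_of_nonneg_right (Real.le_coe_toNNReal _) (abs_nonneg _)
  refine measure_mono_null ?_ (null_image hA v hlip)
  rintro r ⟨E, hE, n, hn, hr⟩
  refine ⟨E, ⟨hE, n, hn⟩, ?_⟩
  rw [hve E n hn]
  linarith

end Pool.Agent.Helper96.EXP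
end
end -- Pool.Agent.Helper96_EXP.Lip

section -- Pool.Agent.Helper48_Loc.FinBasis

/-!
# The spectral theorem in a finite cube
-/

set_option autoImplicit false
set_option linter.unusedSectionVars false

open MeasureTheory ProbabilityTheory Function Filter

open scoped ENNReal BigOperators Topology ComplexConjugate InnerProductSpace

noncomputable section

namespace Pool.Agent.Loc

open Pool.Agent.Anderson

variable {d : ℕ}

/-- the scalar product in the cube `box 0 n` -/
def pr (n : ℕ) (ψ f : Site d → ℂ) : ℂ := ∑ x ∈ box (0 : Site d) n, conj (ψ x) * f x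

/-- complex version of `H_Λ` -/
def HC (V : Site d → ℝ) (Λ : Finset (Site d)) : Matrix Λ Λ ℂ := (HM V Λ).map (fun a => (a : ℂ))

theorem HC_herm (V : Site d → ℝ) (Λ : Finset (Site d)) : (HC V Λ).IsHermitian := by
  unfold Matrix.IsHermitian
  ext x y
  simp only [HC, Matrix.conjTranspose_apply, Matrix.map_apply]
  have : HM V Λ y x = HM V Λ x y := by
    conv_lhs => rw [← HM_symm]
    rfl
  rw [this]
  simp

theorem exists_basis (V : Site d → ℝ) (n : ℕ) :
    ∃ (E : box (0 : Site d) n → ℝ) (ψ : box (0 : Site d) n → Site d → ℂ),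
      (∀ j, FinEig V n (E j) (ψ j)) ∧
      ∀ f : Site d → ℂ, ∑ j, ‖pr n (ψ j) f‖ ^ 2 = ∑ x ∈ box (0 : Site d) n, ‖f x‖ ^ 2 := by
  set Λ := box (0 : Site d) n with hΛ
  set b := (HC_herm V Λ).eigenvectorBasis with hb
  set ev := (HC_herm V Λ).eigenvalues with hev
  obtain ⟨F, hin, hout⟩ : ∃ F : Λ → Site d → ℂ, (∀ j x, ∀ h : x ∈ Λ, F j x = b j ⟨x, h⟩) ∧
      ∀ j x, x ∉ Λ → F j x = 0 :=
    ⟨fun j x => if h : x ∈ Λ then b j ⟨x, h⟩ else 0, fun j x h => by simp [h],
      fun j x h => by simp [h]⟩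
  have hinner : ∀ (j : Λ) (f : Site d → ℂ), ⟪b j, (WithLp.toLp 2 fun x : Λ => f x)⟫_ℂ =
      ∑ x ∈ Λ, conj (F j x) * f x := by
    intro j f
    rw [PiLp.inner_apply, ← Finset.sum_coe_sort Λ (fun x => conj (F j x) * f x)]
    apply Finset.sum_congr rfl
    intro x _
    rw [RCLike.inner_apply, mul_comm, hin j x x.2]
  refine ⟨ev, F, ?_, ?_⟩
  · intro j
    refine ⟨fun x hx => hout j x hx, ?_, ?_⟩
    · intro x hx
      have h1 := congrFun ((HC_herm V Λ).mulVec_eigenvectorBasis j) ⟨x, hx⟩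
      rw [← hb, ← hev] at h1
      rw [lap_eq_sum _ x (box x 1 ∪ Λ) Finset.subset_union_left,
        ← Finset.sum_subset (Finset.subset_union_right (s₁ := box x 1) (s₂ := Λ))]
      · rw [hin j x hx]
        have h2 : (HC V Λ).mulVec (b j) ⟨x, hx⟩ =
            (∑ y ∈ Λ, (hop x y : ℂ) * F j y) + (V x : ℂ) * b j ⟨x, hx⟩ := by
          rw [← Finset.sum_coe_sort Λ (fun y => (hop x y : ℂ) * F j y)]
          simp only [Matrix.mulVec, dotProduct, HC, Matrix.map_apply, HM, Matrix.of_apply]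
          have h3 : ∀ y : Λ, ((hop x (y : Site d) + if (⟨x, hx⟩ : Λ) = y then V x else 0 : ℝ) : ℂ) *
              b j y = (hop x (y : Site d) : ℂ) * F j y +
                (if (⟨x, hx⟩ : Λ) = y then (V x : ℂ) * b j ⟨x, hx⟩ else 0) := by
            intro y
            rw [hin j y y.2]
            by_cases h : (⟨x, hx⟩ : Λ) = y
            · subst h; simp; ring
            · simp [h]
          rw [Finset.sum_congr rfl fun y _ => h3 y, Finset.sum_add_distrib]
          simp
        rw [← h2, h1]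
        simp
      · intro y _ hy
        rw [hout j y hy, mul_zero]
    · have h1 := b.norm_eq_one j
      have h2 : ‖b j‖ ^ 2 = 1 := by rw [h1]; norm_num
      rw [EuclideanSpace.norm_sq_eq] at h2
      rw [← h2, ← Finset.sum_coe_sort Λ (fun x => ‖F j x‖ ^ 2)]
      apply Finset.sum_congr rfl
      intro x _
      rw [hin j x x.2]
  · intro f
    have h1 := b.sum_sq_norm_inner_right (WithLp.toLp 2 fun x : Λ => f x)
    simp_rw [hinner] at h1
    rw [EuclideanSpace.norm_sq_eq] at h1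
    unfold pr
    rw [h1, ← Finset.sum_coe_sort Λ (fun x => ‖f x‖ ^ 2)]

/-- Green's formula in the cube. -/
theorem pr_lap_symm (n : ℕ) {ψ f : Site d → ℂ} (hψ : ∀ x, x ∉ box (0 : Site d) n → ψ x = 0)
    (hf : ∀ x, x ∉ box (0 : Site d) n → f x = 0) :
    pr n ψ (lap f) = pr n (lap ψ) f := by
  unfold pr
  have h1 : ∀ g : Site d → ℂ, (∀ x, x ∉ box (0 : Site d) n → g x = 0) → ∀ x,
      lap g x = ∑ y ∈ box (0 : Site d) n, (hop x y : ℂ) * g y := by
    intro g hg x
    rw [lap_eq_sum _ x (box x 1 ∪ box 0 n) Finset.subset_union_left,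
      ← Finset.sum_subset (Finset.subset_union_right (s₁ := box x 1) (s₂ := box 0 n))]
    intro y _ hy
    rw [hg y hy, mul_zero]
  simp_rw [h1 f hf, h1 ψ hψ, map_sum, Finset.mul_sum, Finset.sum_mul]
  rw [Finset.sum_comm]
  apply Finset.sum_congr rfl
  intro x _
  apply Finset.sum_congr rfl
  intro y _
  rw [map_mul, Complex.conj_ofReal, hop_comm x y]
  ring

/-- `⟨ψ, H f⟩ = E ⟨ψ, f⟩` in finite volume. -/
theorem FinEig.pr_H {V : Site d → ℝ} {n : ℕ} {E : ℝ} {ψ : Site d → ℂ} (h : FinEig V n E ψ)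
    {f : Site d → ℂ} (hf : ∀ x, x ∉ box (0 : Site d) n → f x = 0) :
    pr n ψ (fun x => lap f x + (V x : ℂ) * f x) = (E : ℂ) * pr n ψ f := by
  have h1 : pr n ψ (fun x => lap f x + (V x : ℂ) * f x) =
      pr n ψ (lap f) + pr n ψ (fun x => (V x : ℂ) * f x) := by
    unfold pr
    rw [← Finset.sum_add_distrib]
    apply Finset.sum_congr rfl
    intro x _
    ring
  rw [h1, pr_lap_symm n h.supp hf]
  unfold pr
  rw [← Finset.sum_add_distrib, Finset.mul_sum]
  apply Finset.sum_congr rfl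
  intro x hx
  have h2 : lap ψ x = (E : ℂ) * ψ x - (V x : ℂ) * ψ x := by rw [← h.eq x hx]; ring
  rw [h2, map_sub, map_mul, map_mul, Complex.conj_ofReal, Complex.conj_ofReal]
  ring

theorem FinEig.energy_le {V : Site d → ℝ} {n : ℕ} {E : ℝ} {ψ : Site d → ℂ} (h : FinEig V n E ψ)
    {c : Site d} (hc : IsCenter n ψ c) : |E| ≤ 2 * d + |V c| := by
  have hpos := h.center_pos hc
  have h1 := h.eq c hc.1
  have h2 : ‖(E : ℂ) * ψ c‖ ≤ 2 * d * ‖ψ c‖ + |V c| * ‖ψ c‖ := by
    rw [← h1]
    refine (norm_add_le _ _).trans (add_le_add (norm_lap_le fun y _ => hc.2 y) ?_)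
    rw [norm_mul, Complex.norm_real, Real.norm_eq_abs]
  rw [norm_mul, Complex.norm_real, Real.norm_eq_abs, ← add_mul] at h2
  exact le_of_mul_le_mul_right h2 hpos

end Pool.Agent.Loc
end
end -- Pool.Agent.Helper48_Loc.FinBasis

section -- Pool.Agent.Helper48_Loc.Complete

/-!
# Completeness of the localized eigenfunctions
-/

set_option autoImplicit false
set_option linter.unusedSectionVars false

open MeasureTheory ProbabilityTheory Function Filter

open scoped ENNReal BigOperators Topology ComplexConjugate InnerProductSpace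

noncomputable section

namespace Pool.Agent.Loc

open Pool.Agent.Anderson

variable {d : ℕ}

/-- an orthonormal basis of eigenfunctions in the cube `box 0 n`, with their centres -/
structure FB (V : Site d → ℝ) (n : ℕ) where
  E : box (0 : Site d) n → ℝ
  ψ : box (0 : Site d) n → Site d → ℂ
  c : box (0 : Site d) n → Site d
  fin : ∀ j, FinEig V n (E j) (ψ j)
  pars : ∀ f : Site d → ℂ, ∑ j, ‖pr n (ψ j) f‖ ^ 2 = ∑ x ∈ box (0 : Site d) n, ‖f x‖ ^ 2
  cen : ∀ j, IsCenter n (ψ j) (c j)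

theorem exists_FB (V : Site d → ℝ) (n : ℕ) : Nonempty (FB V n) := by
  obtain ⟨E, ψ, h1, h2⟩ := exists_basis V n
  choose c hc using fun j => (h1 j).exists_center
  exact ⟨⟨E, ψ, c, h1, h2, hc⟩⟩

theorem pr_sub (n : ℕ) (ψ f g : Site d → ℂ) :
    pr n ψ (fun x => f x - g x) = pr n ψ f - pr n ψ g := by
  unfold pr
  rw [← Finset.sum_sub_distrib]
  apply Finset.sum_congr rfl
  intro x _
  ring

theorem FB.bessel {V : Site d → ℝ} {n : ℕ} (b : FB V n) (x : Site d) :
    ∑ j, ‖b.ψ j x‖ ^ 2 ≤ 1 := by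
  by_cases hx : x ∈ box (0 : Site d) n
  · have h1 := b.pars (fun y => if y = x then 1 else 0)
    have h2 : ∀ j, pr n (b.ψ j) (fun y => if y = x then 1 else 0) = conj (b.ψ j x) := by
      intro j
      unfold pr
      simp [hx]
    have h3 : ∑ y ∈ box (0 : Site d) n, ‖(if y = x then 1 else 0 : ℂ)‖ ^ 2 = 1 := by
      rw [Finset.sum_eq_single x]
      · simp
      · intro y _ hy; simp [hy]
      · intro h; exact absurd hx h
    simp_rw [h2, RCLike.norm_conj] at h1
    rw [h1, h3]
  · have : ∀ j, ‖b.ψ j x‖ ^ 2 = 0 := by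
      intro j
      rw [(b.fin j).supp x hx]; simp
    simp_rw [this]
    simp

/-- The eigenfunctions with far away centres have small total weight at a given site,
uniformly in the volume. -/
theorem tail_small {V : Site d → ℝ} {E₀ μ : ℝ} (hμ : 0 < μ) {L₀ : ℕ}
    (h : TwoBox V E₀ μ L₀) (y : Site d) {ε : ℝ} (hε : 0 < ε) :
    ∃ R : ℕ, ∀ R' : ℕ, R ≤ R' → ∀ (n : ℕ) (b : FB V n),
      ∑ j with E₀ ≤ |b.E j| ∧ R' < sd 0 (b.c j), ‖b.ψ j y‖ ^ 2 ≤ ε := by
  obtain ⟨C₁, R₀, hC₁, hdec⟩ := center_decay' hμ h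
  have hs := (summable_exp_sd (show 0 < μ / 2 by positivity) y).mul_left (C₁ ^ 2)
  have hv := (summable_iff_vanishing_norm (E := ℝ)).1 hs ε hε
  obtain ⟨s, hs'⟩ := hv
  -- a radius beyond all of `s`
  obtain ⟨R₁, hR₁⟩ : ∃ R₁ : ℕ, ∀ x ∈ s, sd 0 x ≤ R₁ := ⟨s.sup fun x => sd 0 x, fun x hx =>
    Finset.le_sup (f := fun x => sd 0 x) hx⟩
  refine ⟨R₁ + 2 * sd 0 y + 2 * R₀ + 64, ?_⟩
  intro R' hR' n b
  have hfib := Finset.sum_fiberwise_of_maps_to
    (s := Finset.univ.filter fun j => E₀ ≤ |b.E j| ∧ R' < sd 0 (b.c j))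
    (t := (box (0 : Site d) n).filter fun c => R' < sd 0 c) (g := b.c)
    (fun j hj => by
      rw [Finset.mem_filter] at hj ⊢
      exact ⟨(b.cen j).1, hj.2.2⟩) (fun j => ‖b.ψ j y‖ ^ 2)
  rw [← hfib]
  have hb : ∀ c ∈ (box (0 : Site d) n).filter (fun c => R' < sd 0 c),
      ∑ j ∈ (Finset.univ.filter fun j => E₀ ≤ |b.E j| ∧ R' < sd 0 (b.c j)) with b.c j = c,
        ‖b.ψ j y‖ ^ 2 ≤ C₁ ^ 2 * Real.exp (-(μ / 2) * sd c y) := by
    intro c hc
    rw [Finset.mem_filter] at hc
    calc _ ≤ ∑ j ∈ (Finset.univ.filter fun j => E₀ ≤ |b.E j| ∧ R' < sd 0 (b.c j)) with b.c j = c,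
          C₁ ^ 2 * Real.exp (-(μ / 2) * sd c y) * ‖b.ψ j c‖ ^ 2 := by
          apply Finset.sum_le_sum
          intro j hj
          rw [Finset.mem_filter, Finset.mem_filter] at hj
          obtain ⟨⟨_, hE, hR⟩, rfl⟩ := hj
          have hsd : sd 0 (b.c j) ≤ sd 0 y + sd (b.c j) y := by
            have := sd_triangle 0 y (b.c j)
            rw [sd_comm y] at this
            exact this
          have h1 := hdec n (b.E j) (b.ψ j) (b.c j) hE (b.fin j) (b.cen j) y (by omega)
            (by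
              have h2 : sd 0 (b.c j) ≤ 2 * sd (b.c j) y := by omega
              have h3 : 32 ≤ sd (b.c j) y := by omega
              nlinarith only [hR', hR, hsd])
          have h2 : Real.exp (-(μ / 2) * sd (b.c j) y) =
              Real.exp (-(μ / 4) * sd (b.c j) y) ^ 2 := by
            rw [← Real.exp_nat_mul]; congr 1; push_cast; ring
          rw [h2]
          calc ‖b.ψ j y‖ ^ 2 ≤ (C₁ * Real.exp (-(μ / 4) * sd (b.c j) y) * ‖b.ψ j (b.c j)‖) ^ 2 :=
                pow_le_pow_left₀ (norm_nonneg _) h1 2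
            _ = _ := by ring
      _ ≤ ∑ j, C₁ ^ 2 * Real.exp (-(μ / 2) * sd c y) * ‖b.ψ j c‖ ^ 2 := by
          apply Finset.sum_le_sum_of_subset_of_nonneg (Finset.subset_univ _)
          intro j _ _
          positivity
      _ = C₁ ^ 2 * Real.exp (-(μ / 2) * sd c y) * ∑ j, ‖b.ψ j c‖ ^ 2 := by
          rw [Finset.mul_sum]
      _ ≤ C₁ ^ 2 * Real.exp (-(μ / 2) * sd c y) * 1 :=
          mul_le_mul_of_nonneg_left (b.bessel c) (by positivity)
      _ = _ := mul_one _
  refine (Finset.sum_le_sum hb).trans ?_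
  have hdisj : Disjoint ((box (0 : Site d) n).filter fun c => R' < sd 0 c) s := by
    rw [Finset.disjoint_left]
    intro c hc hcs
    rw [Finset.mem_filter] at hc
    have := hR₁ c hcs
    omega
  have := hs' _ hdisj
  rw [Real.norm_eq_abs] at this
  exact (le_abs_self _).trans this.le

/-- The number of eigenfunctions with centres in a given box is bounded uniformly in the volume. -/
theorem count_bound {V : Site d → ℝ} {E₀ μ : ℝ} (hμ : 0 < μ) {L₀ : ℕ}
    (h : TwoBox V E₀ μ L₀) (R : ℕ) :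
    ∃ N : ℕ, ∀ (n : ℕ) (b : FB V n),
      (Finset.univ.filter fun j => E₀ ≤ |b.E j| ∧ sd 0 (b.c j) ≤ R).card ≤ N := by
  obtain ⟨C, hC, hdec⟩ := uniform_decay hμ h R
  have hs := (summable_exp_sd (show 0 < μ / 2 by positivity) (0 : Site d)).mul_left (C ^ 2)
  obtain ⟨s, hs'⟩ := (summable_iff_vanishing_norm (E := ℝ)).1 hs (1 / 2) (by norm_num)
  refine ⟨2 * s.card, ?_⟩
  intro n b
  set J := Finset.univ.filter fun j => E₀ ≤ |b.E j| ∧ sd 0 (b.c j) ≤ R with hJ
  have h1 : ∀ j ∈ J, 1 / 2 ≤ ∑ x ∈ s, ‖b.ψ j x‖ ^ 2 := by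
    intro j hj
    rw [hJ, Finset.mem_filter] at hj
    have h2 := (b.fin j).norm
    have h3 : ∑ x ∈ box (0 : Site d) n, ‖b.ψ j x‖ ^ 2 ≤
        ∑ x ∈ s, ‖b.ψ j x‖ ^ 2 + ∑ x ∈ box (0 : Site d) n \ s, ‖b.ψ j x‖ ^ 2 := by
      rw [← Finset.sum_union Finset.disjoint_sdiff]
      apply Finset.sum_le_sum_of_subset_of_nonneg
      · intro x hx
        rw [Finset.mem_union, Finset.mem_sdiff]
        by_cases hxs : x ∈ s
        · exact Or.inl hxs
        · exact Or.inr ⟨hx, hxs⟩
      · intro x _ _; positivity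
    have h4 : ∑ x ∈ box (0 : Site d) n \ s, ‖b.ψ j x‖ ^ 2 ≤ 1 / 2 := by
      calc _ ≤ ∑ x ∈ box (0 : Site d) n \ s, C ^ 2 * Real.exp (-(μ / 2) * sd x 0) := by
            apply Finset.sum_le_sum
            intro x _
            have h5 := hdec n (b.E j) (b.ψ j) (b.c j) hj.2.1 (b.fin j) (b.cen j) hj.2.2 x
            have h6 : Real.exp (-(μ / 2) * sd x 0) = Real.exp (-(μ / 4) * sd 0 x) ^ 2 := by
              rw [← Real.exp_nat_mul, sd_comm]; congr 1; push_cast; ring
            rw [h6]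
            calc ‖b.ψ j x‖ ^ 2 ≤ (C * Real.exp (-(μ / 4) * sd 0 x)) ^ 2 :=
                  pow_le_pow_left₀ (norm_nonneg _) h5 2
              _ = _ := by ring
        _ ≤ 1 / 2 := by
            have := hs' _ (Finset.sdiff_disjoint (s := s) (t := box (0 : Site d) n))
            rw [Real.norm_eq_abs] at this
            exact (le_abs_self _).trans this.le
    linarith only [h2, h3, h4]
  have h2 : (J.card : ℝ) * (1 / 2) ≤ s.card := by
    calc (J.card : ℝ) * (1 / 2) = ∑ _j ∈ J, (1 / 2 : ℝ) := by rw [Finset.sum_const, nsmul_eq_mul]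
      _ ≤ ∑ j ∈ J, ∑ x ∈ s, ‖b.ψ j x‖ ^ 2 := Finset.sum_le_sum h1
      _ ≤ ∑ j, ∑ x ∈ s, ‖b.ψ j x‖ ^ 2 := by
          apply Finset.sum_le_sum_of_subset_of_nonneg (Finset.subset_univ _)
          intro j _ _
          positivity
      _ = ∑ x ∈ s, ∑ j, ‖b.ψ j x‖ ^ 2 := Finset.sum_comm
      _ ≤ ∑ _x ∈ s, (1 : ℝ) := Finset.sum_le_sum fun x _ => b.bessel x
      _ = s.card := by simp
  have h3 : (J.card : ℝ) ≤ 2 * s.card := by linarith only [h2]
  exact_mod_cast h3

/-- Compactness: a sequence of finite-volume eigenfunctions with centres in a fixed box which all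
have a scalar product with `u` bounded below gives an eigenfunction in infinite volume which is
not orthogonal to `u`. -/
theorem limit_eigen {V : Site d → ℝ} {E₀ μ : ℝ} (hμ : 0 < μ) {L₀ : ℕ}
    (h : TwoBox V E₀ μ L₀) (R : ℕ) (u : L2 d) {κ : ℝ} (hκ : 0 < κ) {n₀ : ℕ}
    (H : ∀ n, n₀ ≤ n → ∃ (E : ℝ) (ψ : Site d → ℂ) (c : Site d), E₀ ≤ |E| ∧ FinEig V n E ψ ∧
      IsCenter n ψ c ∧ sd 0 c ≤ R ∧ κ ≤ ‖pr n ψ u‖) :
    ∃ (E : ℝ) (ψ : L2 d), E₀ ≤ |E| ∧ IsEigen V E ψ ∧
      (∃ C : ℝ, ∀ x, ‖ψ x‖ ≤ C * Real.exp (-(μ / 4) * sd 0 x)) ∧ ⟪ψ, u⟫_ℂ ≠ 0 := by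
  obtain ⟨C, hC, hdec⟩ := uniform_decay hμ h R
  choose! E ψ c hE hψ hc hcR hκn using H
  -- energies are bounded
  obtain ⟨B, hB⟩ : ∃ B : ℝ, ∀ x ∈ box (0 : Site d) R, |V x| ≤ B := by
    obtain ⟨B, hB⟩ := ((box (0 : Site d) R).finite_toSet.image fun x => |V x|).bddAbove
    exact ⟨B, fun x hx => hB ⟨x, hx, rfl⟩⟩
  have hEb : ∀ n, n₀ ≤ n → |E n| ≤ 2 * d + B := by
    intro n hn
    have := (hψ n hn).energy_le (hc n hn)
    have h2 := hB (c n) (mem_box.2 (hcR n hn))
    linarith only [this, h2]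
  -- extraction
  set K : Set (ℝ × (Site d → ℂ)) := Set.Icc (-(2 * d + B)) (2 * d + B) ×ˢ
    Set.univ.pi fun _ => Metric.closedBall (0 : ℂ) 1 with hK
  have hKc : IsCompact K := isCompact_Icc.prod (isCompact_univ_pi fun _ => isCompact_closedBall _ _)
  have hmem : ∀ n, (E (n₀ + n), ψ (n₀ + n)) ∈ K := by
    intro n
    refine ⟨?_, ?_⟩
    · exact abs_le.1 (hEb _ (by omega))
    · intro x _
      rw [mem_closedBall_zero_iff]
      exact (hψ _ (by omega)).le_one x
  obtain ⟨⟨E', ψ'⟩, _, φ, hφ, hlim⟩ := hKc.tendsto_subseq hmem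
  have hlimE : Tendsto (fun k => E (n₀ + φ k)) atTop (𝓝 E') :=
    (continuous_fst.tendsto _).comp hlim
  have hlimψ : ∀ x, Tendsto (fun k => ψ (n₀ + φ k) x) atTop (𝓝 (ψ' x)) := by
    intro x
    exact ((continuous_apply x).tendsto _).comp ((continuous_snd.tendsto _).comp hlim)
  have hφn : ∀ k, n₀ ≤ n₀ + φ k := fun k => by omega
  have hdecψ : ∀ x, ‖ψ' x‖ ≤ C * Real.exp (-(μ / 4) * sd 0 x) := by
    intro x
    refine le_of_tendsto (hlimψ x).norm (Eventually.of_forall fun k => ?_)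
    exact hdec _ _ _ _ (hE _ (hφn k)) (hψ _ (hφn k)) (hc _ (hφn k)) (hcR _ (hφn k)) x
  have hsum2 : Summable fun x : Site d => (C * Real.exp (-(μ / 4) * sd 0 x)) ^ 2 := by
    have := (summable_exp_sd (show 0 < μ / 2 by positivity) (0 : Site d)).mul_left (C ^ 2)
    refine this.congr fun x => ?_
    have h6 : Real.exp (-(μ / 2) * sd x 0) = Real.exp (-(μ / 4) * sd 0 x) ^ 2 := by
      rw [← Real.exp_nat_mul, sd_comm]; congr 1; push_cast; ring
    rw [h6]; ring
  have hmemψ : Memℓp ψ' 2 := by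
    rw [memℓp_iff]
    refine Summable.of_nonneg_of_le (fun x => by positivity) (fun x => ?_) hsum2
    exact pow_le_pow_left₀ (norm_nonneg _) (hdecψ x) 2
  refine ⟨E', ⟨ψ', hmemψ⟩, ?_, ?_, ⟨C, hdecψ⟩, ?_⟩
  · exact ge_of_tendsto hlimE.abs (Eventually.of_forall fun k => hE _ (hφn k))
  · intro x
    have h1 : Tendsto (fun k => lap (ψ (n₀ + φ k)) x + (V x : ℂ) * ψ (n₀ + φ k) x) atTop
        (𝓝 (lap ψ' x + (V x : ℂ) * ψ' x)) := by
      refine Tendsto.add ?_ ((hlimψ x).const_mul _)
      unfold lap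
      apply tendsto_finsetSum
      intro i _
      exact (hlimψ _).add (hlimψ _)
    have h2 : Tendsto (fun k => (E (n₀ + φ k) : ℂ) * ψ (n₀ + φ k) x) atTop
        (𝓝 ((E' : ℂ) * ψ' x)) :=
      ((Complex.continuous_ofReal.tendsto _).comp hlimE).mul (hlimψ x)
    refine tendsto_nhds_unique (h1.congr' ?_) h2
    filter_upwards [eventually_ge_atTop (sd 0 x)] with k hk
    apply (hψ _ (hφn k)).eq
    rw [mem_box]
    have : k ≤ φ k := hφ.id_le k
    omega
  · have h1 : Tendsto (fun k => ∑' x, conj (ψ (n₀ + φ k) x) * u x) atTop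
        (𝓝 (∑' x, conj (ψ' x) * u x)) := by
      apply tendsto_tsum_of_dominated_convergence
        (bound := fun x => (C * Real.exp (-(μ / 4) * sd 0 x)) * ‖u x‖)
      · have h3 := hsum2.add (L2.summable_sq u)
        refine Summable.of_nonneg_of_le (fun x => by positivity) (fun x => ?_) h3
        nlinarith only [sq_nonneg (C * Real.exp (-(μ / 4) * sd 0 x) - ‖u x‖),
          sq_nonneg (C * Real.exp (-(μ / 4) * sd 0 x)), sq_nonneg ‖u x‖]
      · intro x
        exact ((Complex.continuous_conj.tendsto _).comp (hlimψ x)).mul_const _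
      · filter_upwards with k x
        rw [norm_mul, RCLike.norm_conj]
        gcongr
        exact hdec _ _ _ _ (hE _ (hφn k)) (hψ _ (hφn k)) (hc _ (hφn k)) (hcR _ (hφn k)) x
    have h2 : ∀ k, κ ≤ ‖∑' x, conj (ψ (n₀ + φ k) x) * u x‖ := by
      intro k
      have h3 : ∑' x, conj (ψ (n₀ + φ k) x) * u x = pr (n₀ + φ k) (ψ (n₀ + φ k)) u := by
        unfold pr
        rw [tsum_eq_sum]
        intro x hx
        rw [(hψ _ (hφn k)).supp x hx]
        simp
      rw [h3]
      exact hκn _ (hφn k)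
    have h4 : κ ≤ ‖∑' x, conj (ψ' x) * u x‖ := ge_of_tendsto h1.norm (Eventually.of_forall h2)
    intro h0
    rw [lp.inner_eq_tsum] at h0
    have h5 : ∑' x, conj (ψ' x) * u x = 0 := by
      rw [← h0]
      apply tsum_congr
      intro x
      rw [RCLike.inner_apply, mul_comm]
    rw [h5, norm_zero] at h4
    linarith

end Pool.Agent.Loc
end
end -- Pool.Agent.Helper48_Loc.Complete

section -- Pool.Agent.Helper48_Loc.Complete2

/-!
# Completeness of the localized eigenfunctions: the theorem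
-/

set_option autoImplicit false
set_option linter.unusedSectionVars false

open MeasureTheory ProbabilityTheory Function Filter

open scoped ENNReal BigOperators Topology ComplexConjugate InnerProductSpace

noncomputable section

namespace Pool.Agent.Loc

open Pool.Agent.Anderson

variable {d : ℕ}

/-- truncation of an `ℓ²` function to the cube `box 0 n` -/
def trunc (n : ℕ) (u : L2 d) : L2 d := ∑ x ∈ box (0 : Site d) n, lp.single 2 x (u x)

theorem trunc_apply (n : ℕ) (u : L2 d) (x : Site d) :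
    trunc n u x = if x ∈ box (0 : Site d) n then u x else 0 := by
  unfold trunc
  rw [coe_sum_apply]
  by_cases hx : x ∈ box (0 : Site d) n
  · rw [if_pos hx, Finset.sum_eq_single x]
    · rw [lp.single_apply, Pi.single_eq_same]
    · intro y _ hy
      rw [lp.single_apply, Pi.single_eq_of_ne hy.symm]
    · intro h; exact absurd hx h
  · rw [if_neg hx]
    apply Finset.sum_eq_zero
    intro y hy
    have : x ≠ y := by rintro rfl; exact hx hy
    rw [lp.single_apply, Pi.single_eq_of_ne this]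

theorem tendsto_box : Tendsto (fun n : ℕ => box (0 : Site d) n) atTop atTop := by
  apply tendsto_atTop_finset_of_monotone
  · intro m n hmn
    exact box_mono 0 hmn
  · intro x
    exact ⟨sd 0 x, by rw [mem_box]⟩

theorem tendsto_trunc (u : L2 d) : Tendsto (fun n => trunc n u) atTop (𝓝 u) := by
  have h1 := lp.hasSum_single (p := 2) (by norm_num) u
  exact h1.comp tendsto_box

theorem sum_le_norm_sq (u : L2 d) (s : Finset (Site d)) : ∑ x ∈ s, ‖u x‖ ^ 2 ≤ ‖u‖ ^ 2 := by
  rw [L2.norm_sq]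
  exact (L2.summable_sq u).sum_le_tsum s fun x _ => by positivity

theorem pr_cs (n : ℕ) (ψ f : Site d → ℂ) :
    ‖pr n ψ f‖ ^ 2 ≤ (∑ x ∈ box (0 : Site d) n, ‖ψ x‖ ^ 2) * ∑ x ∈ box (0 : Site d) n, ‖f x‖ ^ 2 := by
  have h1 : ‖pr n ψ f‖ ≤ ∑ x ∈ box (0 : Site d) n, ‖ψ x‖ * ‖f x‖ := by
    unfold pr
    refine (norm_sum_le _ _).trans (Finset.sum_le_sum fun x _ => ?_)
    rw [norm_mul, RCLike.norm_conj]
  calc ‖pr n ψ f‖ ^ 2 ≤ (∑ x ∈ box (0 : Site d) n, ‖ψ x‖ * ‖f x‖) ^ 2 :=
        pow_le_pow_left₀ (norm_nonneg _) h1 2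
    _ ≤ _ := Finset.sum_mul_sq_le_sq_mul_sq _ _ _

/-- **Completeness.** In the localized regime, a vector of the domain of `H` which is orthogonal to
all the exponentially decaying eigenfunctions with energies `|E| ≥ E₀` satisfies
`‖H u‖ ≤ E₀ ‖u‖`. -/
theorem complete_of_twoBox {V : Site d → ℝ} {E₀ μ : ℝ} (hE₀ : 0 ≤ E₀) (hμ : 0 < μ) {L₀ : ℕ}
    (h : TwoBox V E₀ μ L₀) {u w : L2 d} (hw : ∀ x, w x = lap u x + (V x : ℂ) * u x)
    (horth : ∀ (E : ℝ) (ψ : L2 d), E₀ ≤ |E| → IsEigen V E ψ →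
      (∃ C : ℝ, ∀ x, ‖ψ x‖ ≤ C * Real.exp (-(μ / 4) * sd 0 x)) → ⟪ψ, u⟫_ℂ = 0) :
    ‖w‖ ≤ E₀ * ‖u‖ := by
  by_contra hcon
  push Not at hcon
  set η : ℝ := ‖w‖ ^ 2 - E₀ ^ 2 * ‖u‖ ^ 2 with hη
  have hη0 : 0 < η := by
    have h1 : 0 ≤ E₀ * ‖u‖ := by positivity
    have h2 : (E₀ * ‖u‖) ^ 2 < ‖w‖ ^ 2 := pow_lt_pow_left₀ hcon h1 (by norm_num)
    rw [hη]
    nlinarith only [h1, hcon]
  -- truncation of `w`
  have hwr : Tendsto (fun r => ‖w - trunc r w‖ ^ 2) atTop (𝓝 0) := by
    have h1 := ((tendsto_const_nhds (x := w)).sub (tendsto_trunc w)).norm.pow 2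
    simpa using h1
  obtain ⟨r, hr⟩ := (hwr.eventually (gt_mem_nhds (show 0 < η / 64 by positivity))).exists
  -- the error of the finite-volume operator
  set g : ℕ → Site d → ℂ := fun n x => lap (trunc n u) x + (V x : ℂ) * trunc n u x with hg
  set D : ℕ → ℝ := fun n => ‖Lap d (u - trunc n u)‖ ^ 2 with hD
  have hDlim : Tendsto D atTop (𝓝 0) := by
    have h1 := (tendsto_const_nhds (x := u)).sub (tendsto_trunc u)
    rw [sub_self] at h1
    have h2 := (((Lap d).continuous.tendsto 0).comp h1).norm.pow 2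
    simpa [hD] using h2
  have hgw : ∀ n, ∀ x ∈ box (0 : Site d) n, g n x - w x = - Lap d (u - trunc n u) x := by
    intro n x hx
    rw [Lap_apply]
    have h1 : lap ((u - trunc n u : L2 d) : Site d → ℂ) x = lap u x - lap (trunc n u) x := by
      unfold lap
      rw [← Finset.sum_sub_distrib]
      apply Finset.sum_congr rfl
      intro i _
      rw [lp.coeFn_sub, Pi.sub_apply, Pi.sub_apply]
      ring
    rw [h1, hw x, hg]
    simp only [trunc_apply, hx, if_true]
    ring
  have hDn : ∀ n, ∑ x ∈ box (0 : Site d) n, ‖g n x - w x‖ ^ 2 ≤ D n := by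
    intro n
    rw [Finset.sum_congr rfl fun x hx => by rw [hgw n x hx, norm_neg]]
    exact sum_le_norm_sq _ _
  -- constants
  obtain ⟨R, hR⟩ : ∃ R : ℕ, ∀ (n : ℕ) (b : FB V n), ∀ y ∈ box (0 : Site d) r,
      ∑ j with E₀ ≤ |b.E j| ∧ R < sd 0 (b.c j), ‖b.ψ j y‖ ^ 2 ≤
        η / (16 * ((box (0 : Site d) r).card * (‖w‖ ^ 2 + 1))) := by
    have hpos : 0 < η / (16 * ((box (0 : Site d) r).card * (‖w‖ ^ 2 + 1))) := by
      have : 0 < (box (0 : Site d) r).card := by rw [card_box]; positivity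
      positivity
    choose R hR using fun y => tail_small hμ h y hpos
    refine ⟨(box (0 : Site d) r).sup R, fun n b y hy => ?_⟩
    exact hR y _ (Finset.le_sup hy) n b
  obtain ⟨N, hN⟩ := count_bound hμ h R
  -- norms of the finite-volume vectors
  have hlow : ∀ᶠ n in atTop, ‖w‖ ^ 2 - η / 4 ≤ ∑ x ∈ box (0 : Site d) n, ‖g n x‖ ^ 2 := by
    have h1 : Tendsto (fun n => ‖trunc n w‖) atTop (𝓝 ‖w‖) := (tendsto_trunc w).norm
    have h2 : Tendsto (fun n => (‖trunc n w‖ - √(D n)) ^ 2) atTop (𝓝 (‖w‖ ^ 2)) := by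
      have h3 := (h1.sub ((Real.continuous_sqrt.tendsto 0).comp hDlim)).pow 2
      simpa using h3
    have h1' : Tendsto (fun n => ‖trunc n w‖ - √(D n)) atTop (𝓝 ‖w‖) := by
      have h3 := (h1.sub ((Real.continuous_sqrt.tendsto 0).comp hDlim))
      simpa using h3
    have hw0 : 0 < ‖w‖ := lt_of_le_of_lt (by positivity) hcon
    filter_upwards [h2.eventually (lt_mem_nhds (show ‖w‖ ^ 2 - η / 4 < ‖w‖ ^ 2 by linarith only [hη0])),
      h1'.eventually (lt_mem_nhds hw0)] with n hn hn'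
    refine hn.le.trans ?_
    -- Minkowski in the cube
    have h3 : ‖trunc n w‖ ≤ √(D n) + √(∑ x ∈ box (0 : Site d) n, ‖g n x‖ ^ 2) := by
      set G : L2 d := ∑ x ∈ box (0 : Site d) n, lp.single 2 x (g n x) with hG
      have hGa : ∀ x, G x = if x ∈ box (0 : Site d) n then g n x else 0 := by
        intro x
        rw [hG, coe_sum_apply]
        by_cases hx : x ∈ box (0 : Site d) n
        · rw [if_pos hx, Finset.sum_eq_single x]
          · rw [lp.single_apply, Pi.single_eq_same]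
          · intro y _ hy
            rw [lp.single_apply, Pi.single_eq_of_ne hy.symm]
          · intro h; exact absurd hx h
        · rw [if_neg hx]
          apply Finset.sum_eq_zero
          intro y hy
          have : x ≠ y := by rintro rfl; exact hx hy
          rw [lp.single_apply, Pi.single_eq_of_ne this]
      have hGn : ‖G‖ = √(∑ x ∈ box (0 : Site d) n, ‖g n x‖ ^ 2) := by
        rw [← Real.sqrt_sq (norm_nonneg G), L2.norm_sq]
        congr 1
        rw [tsum_eq_sum (s := box (0 : Site d) n)]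
        · apply Finset.sum_congr rfl
          intro x hx
          rw [hGa x, if_pos hx]
        · intro x hx
          rw [hGa x, if_neg hx]; simp
      have hdiff : ‖trunc n w - G‖ ≤ √(D n) := by
        rw [← Real.sqrt_sq (norm_nonneg (trunc n w - G))]
        apply Real.sqrt_le_sqrt
        rw [L2.norm_sq, tsum_eq_sum (s := box (0 : Site d) n)]
        · refine le_trans (le_of_eq ?_) (hDn n)
          apply Finset.sum_congr rfl
          intro x hx
          rw [lp.coeFn_sub, Pi.sub_apply, trunc_apply, if_pos hx, hGa x, if_pos hx, norm_sub_rev]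
        · intro x hx
          rw [lp.coeFn_sub, Pi.sub_apply, trunc_apply, if_neg hx, hGa x, if_neg hx]
          simp
      calc ‖trunc n w‖ = ‖(trunc n w - G) + G‖ := by rw [sub_add_cancel]
        _ ≤ ‖trunc n w - G‖ + ‖G‖ := norm_add_le _ _
        _ ≤ _ := by rw [hGn]; linarith only [hdiff]
    have h4 : (‖trunc n w‖ - √(D n)) ^ 2 ≤ √(∑ x ∈ box (0 : Site d) n, ‖g n x‖ ^ 2) ^ 2 :=
      pow_le_pow_left₀ hn'.le (by linarith only [h3]) 2
    rw [Real.sq_sqrt (Finset.sum_nonneg fun x _ => by positivity)] at h4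
    exact h4
  have hDsmall : ∀ᶠ n in atTop, D n < η / 64 :=
    hDlim.eventually (gt_mem_nhds (by positivity))
  obtain ⟨n₀, hn₀⟩ := eventually_atTop.1 (hlow.and (hDsmall.and (eventually_ge_atTop r)))
  -- a bound for the energies
  obtain ⟨B, hB⟩ : ∃ B : ℝ, ∀ x ∈ box (0 : Site d) R, |V x| ≤ B := by
    obtain ⟨B, hB⟩ := ((box (0 : Site d) R).finite_toSet.image fun x => |V x|).bddAbove
    exact ⟨B, fun x hx => hB ⟨x, hx, rfl⟩⟩
  have hB0 : 0 ≤ B := (abs_nonneg _).trans (hB 0 (by rw [mem_box, sd_self]; omega))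
  set β : ℝ := η / (2 * (N + 1)) with hβ
  have hβ0 : 0 < β := by positivity
  set κ : ℝ := √β / (2 * d + B + 1) with hκ
  have hκ0 : 0 < κ := by positivity
  have main : ∀ n, n₀ ≤ n → ∃ (E : ℝ) (ψ : Site d → ℂ) (c : Site d), E₀ ≤ |E| ∧ FinEig V n E ψ ∧
      IsCenter n ψ c ∧ sd 0 c ≤ R ∧ κ ≤ ‖pr n ψ u‖ := by
    intro n hn
    obtain ⟨hn1, hn2, hn3⟩ := hn₀ n hn
    obtain ⟨b⟩ := exists_FB V n
    have hbE : ∀ j, pr n (b.ψ j) (g n) = (b.E j : ℂ) * pr n (b.ψ j) u := by
      intro j
      have h1 := (b.fin j).pr_H (f := trunc n u) (fun x hx => by rw [trunc_apply, if_neg hx])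
      have h2 : pr n (b.ψ j) (trunc n u) = pr n (b.ψ j) u := by
        unfold pr
        apply Finset.sum_congr rfl
        intro x hx
        rw [trunc_apply, if_pos hx]
      rw [← h2]
      exact h1
    -- splitting of the square sum
    have hP := b.pars (g n)
    have hPu := b.pars u
    have hlowE : ∑ j with ¬ (E₀ ≤ |b.E j|), ‖pr n (b.ψ j) (g n)‖ ^ 2 ≤ E₀ ^ 2 * ‖u‖ ^ 2 := by
      calc _ ≤ ∑ j with ¬ (E₀ ≤ |b.E j|), E₀ ^ 2 * ‖pr n (b.ψ j) u‖ ^ 2 := by
            apply Finset.sum_le_sum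
            intro j hj
            have h1 := (Finset.mem_filter.1 hj).2
            rw [not_le] at h1
            rw [hbE j, norm_mul, Complex.norm_real, Real.norm_eq_abs, mul_pow]
            gcongr
        _ ≤ ∑ j, E₀ ^ 2 * ‖pr n (b.ψ j) u‖ ^ 2 := by
            apply Finset.sum_le_sum_of_subset_of_nonneg (Finset.subset_univ _)
            intro j _ _; positivity
        _ = E₀ ^ 2 * ∑ x ∈ box (0 : Site d) n, ‖u x‖ ^ 2 := by
            rw [← Finset.mul_sum, hPu]
        _ ≤ _ := by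
            gcongr
            exact sum_le_norm_sq _ _
    have hsplit1 := Finset.sum_filter_add_sum_filter_not Finset.univ (fun j => E₀ ≤ |b.E j|)
      (fun j => ‖pr n (b.ψ j) (g n)‖ ^ 2)
    have hhigh : 3 * η / 4 ≤ ∑ j with E₀ ≤ |b.E j|, ‖pr n (b.ψ j) (g n)‖ ^ 2 := by
      rw [hP] at hsplit1
      linarith only [hsplit1, hlowE, hn1]
    -- far centres
    have hfar : ∑ j with E₀ ≤ |b.E j| ∧ R < sd 0 (b.c j), ‖pr n (b.ψ j) (g n)‖ ^ 2 ≤ η / 4 := by
      have h1 : ∀ j, ‖pr n (b.ψ j) (g n)‖ ^ 2 ≤ 2 * ‖pr n (b.ψ j) (trunc r w)‖ ^ 2 +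
          2 * ‖pr n (b.ψ j) (fun x => g n x - trunc r w x)‖ ^ 2 := by
        intro j
        rw [pr_sub]
        have h2 : ‖pr n (b.ψ j) (g n)‖ ≤ ‖pr n (b.ψ j) (trunc r w)‖ +
            ‖pr n (b.ψ j) (g n) - pr n (b.ψ j) (trunc r w)‖ := by
          have := norm_add_le (pr n (b.ψ j) (trunc r w))
            (pr n (b.ψ j) (g n) - pr n (b.ψ j) (trunc r w))
          rwa [add_sub_cancel] at this
        have h3 := pow_le_pow_left₀ (norm_nonneg _) h2 2
        nlinarith only [h3, sq_nonneg (‖pr n (b.ψ j) (trunc r w)‖ -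
          ‖pr n (b.ψ j) (g n) - pr n (b.ψ j) (trunc r w)‖)]
      have h2 : ∑ j, ‖pr n (b.ψ j) (fun x => g n x - trunc r w x)‖ ^ 2 ≤ η / 16 := by
        rw [b.pars]
        have h3 : ∀ x ∈ box (0 : Site d) n, ‖g n x - trunc r w x‖ ^ 2 ≤
            2 * ‖g n x - w x‖ ^ 2 + 2 * ‖(w - trunc r w) x‖ ^ 2 := by
          intro x _
          have h4 : ‖g n x - trunc r w x‖ ≤ ‖g n x - w x‖ + ‖(w - trunc r w) x‖ := by
            rw [lp.coeFn_sub, Pi.sub_apply]
            have := norm_add_le (g n x - w x) (w x - trunc r w x)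
            rwa [sub_add_sub_cancel] at this
          have h5 := pow_le_pow_left₀ (norm_nonneg _) h4 2
          nlinarith only [h5, sq_nonneg (‖g n x - w x‖ - ‖(w - trunc r w) x‖)]
        refine (Finset.sum_le_sum h3).trans ?_
        rw [Finset.sum_add_distrib, ← Finset.mul_sum, ← Finset.mul_sum]
        have h4 := hDn n
        have h5 := sum_le_norm_sq (w - trunc r w) (box (0 : Site d) n)
        linarith only [h5, h4, hn2, hr]
      have h3 : ∑ j with E₀ ≤ |b.E j| ∧ R < sd 0 (b.c j), ‖pr n (b.ψ j) (trunc r w)‖ ^ 2 ≤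
          η / 16 := by
        have h4 : ∀ j, ‖pr n (b.ψ j) (trunc r w)‖ ^ 2 ≤
            (∑ y ∈ box (0 : Site d) r, ‖b.ψ j y‖ ^ 2) * ‖w‖ ^ 2 := by
          intro j
          have h5 : pr n (b.ψ j) (trunc r w) = pr r (b.ψ j) w := by
            unfold pr
            rw [← Finset.sum_subset (box_mono 0 hn3)]
            · apply Finset.sum_congr rfl
              intro x hx
              rw [trunc_apply, if_pos hx]
            · intro x _ hx
              rw [trunc_apply, if_neg hx, mul_zero]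
          rw [h5]
          refine (pr_cs r (b.ψ j) w).trans ?_
          gcongr
          exact sum_le_norm_sq _ _
        have hcard : 0 < ((box (0 : Site d) r).card : ℝ) := by
          rw [card_box]; positivity
        calc _ ≤ ∑ j with E₀ ≤ |b.E j| ∧ R < sd 0 (b.c j),
              (∑ y ∈ box (0 : Site d) r, ‖b.ψ j y‖ ^ 2) * ‖w‖ ^ 2 :=
              Finset.sum_le_sum fun j _ => h4 j
          _ = (∑ y ∈ box (0 : Site d) r, ∑ j with E₀ ≤ |b.E j| ∧ R < sd 0 (b.c j),
              ‖b.ψ j y‖ ^ 2) * ‖w‖ ^ 2 := by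
              rw [← Finset.sum_mul, Finset.sum_comm]
          _ ≤ (∑ _y ∈ box (0 : Site d) r,
              η / (16 * ((box (0 : Site d) r).card * (‖w‖ ^ 2 + 1)))) * ‖w‖ ^ 2 := by
              gcongr with y hy
              exact hR n b y hy
          _ = (η / 16) * (‖w‖ ^ 2 / (‖w‖ ^ 2 + 1)) := by
              rw [Finset.sum_const, nsmul_eq_mul]
              field_simp
          _ ≤ (η / 16) * 1 := by
              gcongr
              rw [div_le_one (by positivity)]
              linarith only []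
          _ = η / 16 := mul_one _
      calc _ ≤ ∑ j with E₀ ≤ |b.E j| ∧ R < sd 0 (b.c j), (2 * ‖pr n (b.ψ j) (trunc r w)‖ ^ 2 +
            2 * ‖pr n (b.ψ j) (fun x => g n x - trunc r w x)‖ ^ 2) :=
            Finset.sum_le_sum fun j _ => h1 j
        _ = 2 * ∑ j with E₀ ≤ |b.E j| ∧ R < sd 0 (b.c j), ‖pr n (b.ψ j) (trunc r w)‖ ^ 2 +
            2 * ∑ j with E₀ ≤ |b.E j| ∧ R < sd 0 (b.c j),
              ‖pr n (b.ψ j) (fun x => g n x - trunc r w x)‖ ^ 2 := by
            rw [Finset.sum_add_distrib, ← Finset.mul_sum, ← Finset.mul_sum]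
        _ ≤ 2 * (η / 16) + 2 * (η / 16) := by
            gcongr
            refine le_trans ?_ h2
            apply Finset.sum_le_sum_of_subset_of_nonneg (Finset.subset_univ _)
            intro j _ _; positivity
        _ = η / 4 := by ring
    -- near centres
    set J := Finset.univ.filter fun j => E₀ ≤ |b.E j| ∧ sd 0 (b.c j) ≤ R with hJ
    have hnear : η / 2 ≤ ∑ j ∈ J, ‖pr n (b.ψ j) (g n)‖ ^ 2 := by
      have h1 := Finset.sum_filter_add_sum_filter_not
        (Finset.univ.filter fun j => E₀ ≤ |b.E j|) (fun j => sd 0 (b.c j) ≤ R)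
        (fun j => ‖pr n (b.ψ j) (g n)‖ ^ 2)
      rw [Finset.filter_filter, Finset.filter_filter] at h1
      simp only [not_le] at h1
      rw [hJ]
      linarith only [h1, hfar, hsplit1, hlowE, hP, hn1]
    obtain ⟨j, hj, hjβ⟩ : ∃ j ∈ J, β ≤ ‖pr n (b.ψ j) (g n)‖ ^ 2 := by
      by_contra hno
      push Not at hno
      have h1 : ∑ j ∈ J, ‖pr n (b.ψ j) (g n)‖ ^ 2 ≤ J.card * β := by
        rw [← nsmul_eq_mul, ← Finset.sum_const]
        exact Finset.sum_le_sum fun j hj => (hno j hj).le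
      have h2 : (J.card : ℝ) ≤ N := by exact_mod_cast hN n b
      have h3 : (N : ℝ) * β < η / 2 := by
        rw [hβ]
        have hN0 : (0:ℝ) ≤ N := by positivity
        have : (N : ℝ) * (η / (2 * (N + 1))) = (η / 2) * (N / (N + 1)) := by field_simp
        rw [this]
        have h4 : (N : ℝ) / (N + 1) < 1 := by
          rw [div_lt_one (by positivity)]; linarith only []
        nlinarith only [h4, hη0]
      have h4 : (J.card : ℝ) * β ≤ N * β := mul_le_mul_of_nonneg_right h2 hβ0.le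
      linarith only [h4, h3, h1, hnear]
    rw [hJ, Finset.mem_filter] at hj
    refine ⟨b.E j, b.ψ j, b.c j, hj.2.1, b.fin j, b.cen j, hj.2.2, ?_⟩
    have hEj := (b.fin j).energy_le (b.cen j)
    have hVc := hB (b.c j) (mem_box.2 hj.2.2)
    have h1 : √β ≤ |b.E j| * ‖pr n (b.ψ j) u‖ := by
      rw [hbE j, norm_mul, Complex.norm_real, Real.norm_eq_abs] at hjβ
      rw [← Real.sqrt_sq (show 0 ≤ |b.E j| * ‖pr n (b.ψ j) u‖ by positivity)]
      exact Real.sqrt_le_sqrt hjβ
    rw [hκ, div_le_iff₀ (by positivity)]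
    calc √β ≤ |b.E j| * ‖pr n (b.ψ j) u‖ := h1
      _ ≤ (2 * d + B + 1) * ‖pr n (b.ψ j) u‖ := by
          gcongr; linarith only [hVc, hEj]
      _ = _ := mul_comm _ _
  obtain ⟨E, ψ, hE, heig, hdec, hne⟩ := limit_eigen hμ h R u hκ0 main
  exact hne (horth E ψ hE heig hdec)

end Pool.Agent.Loc
end
end -- Pool.Agent.Helper48_Loc.Complete2
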