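import Pool.Agent.Helper12_MEB.B012
import Pool.Agent.Helper12_MEB.B026
import Pool.Agent.Helper12_MEB.B027

/-!
# Merged copies (generated) of the modules

* `Pool.Agent.Mob.Defs`
* `Pool.Agent.Mob.Stmts`
-/

set_option autoImplicit false

section -- Pool.Agent.Mob.Defs

/-!
# Metal-insulator transport transition for the Anderson model: definitions
-/

set_option autoImplicit false
set_option linter.unusedSectionVars false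

open MeasureTheory ProbabilityTheory Function

open scoped ENNReal BigOperators InnerProductSpace

noncomputable section

namespace Pool.Agent.Mob

open Pool.Agent.Anderson Pool.Agent.Loc Pool.Agent.Helper54.Bal

variable {d : ℕ}

/-! ### finite volume -/

/-- The matrix elements of `(z - H_Λ)⁻¹` for complex `z`, extended by `0`. -/
def gz (V : Site d → ℝ) (Λ : Finset (Site d)) (z : ℂ) (x y : Site d) : ℂ :=
  if h : x ∈ Λ ∧ y ∈ Λ then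
    (z • (1 : Matrix Λ Λ ℂ) - HC V Λ)⁻¹ ⟨x, h.1⟩ ⟨y, h.2⟩ else 0

/-- no eigenvalue of `H_Λ` at distance at most `r` from `E` -/
def NoEig (V : Site d → ℝ) (Λ : Finset (Site d)) (E r : ℝ) : Prop :=
  ∀ F : ℝ, |F - E| ≤ r → (RM V Λ F).det ≠ 0

/-- A good cell: in the cube of radius `3ℓ` the Green function between a site of the cube of
radius `ℓ` and a site at distance at least `ℓ` is at most `A`. -/
def CellGood (V : Site d → ℝ) (c : Site d) (ℓ : ℕ) (A E : ℝ) : Prop :=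
  (RM V (box c (3 * ℓ)) E).det ≠ 0 ∧ ∀ x ∈ box c ℓ, ∀ y ∈ box c (3 * ℓ), ℓ ≤ sd x y →
    |gr V (box c (3 * ℓ)) E x y| ≤ A

/-- The cube of radius `L` about `x` is good at the energy `E` (with the rate `μ`). -/
def FGood (V : Site d → ℝ) (L : ℕ) (x : Site d) (E μ : ℝ) : Prop :=
  ∀ u, sd x u = L → Good V (box x L) E x u (Real.exp (-μ * L))

/-- Two distant cubes (with centres of size at most `L ^ 2`) are not simultaneously bad at an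
energy of `I`. -/
def TB (V : Site d → ℝ) (I : Set ℝ) (μ : ℝ) (L₀ : ℕ) : Prop :=
  ∀ L : ℕ, L₀ ≤ L → ∀ x ∈ box (0 : Site d) (L ^ 2), ∀ y ∈ box (0 : Site d) (L ^ 2),
    2 * L < sd x y → ∀ E ∈ I, FGood V L x E μ ∨ FGood V L y E μ

/-- Spectral separation of the inner cube and of the shell around it. -/
def Sep (V : Site d → ℝ) (I : Set ℝ) (k₀ : ℕ) : Prop :=
  ∀ k : ℕ, k₀ ≤ k → ∀ E ∈ I, NoEig V (box 0 (5 * k)) E (Real.exp (-√k)) ∨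
    NoEig V (box 0 (8 * k) \ box 0 (5 * k)) E (Real.exp (-√k))

/-! ### fractional moments -/

/-- `|t| ^ (1/8)` -/
def p8 (t : ℝ) : ℝ≥0∞ := ENNReal.ofReal (|t| ^ (1 / 8 : ℝ))

/-- `|G| ^ (1/8)` -/
def pg (Λ : Finset (Site d)) (E : ℝ) (x y : Site d) (V : Site d → ℝ) : ℝ≥0∞ :=
  p8 (gr V Λ E x y)

/-- The initial scale estimate in the bulk, at the energy `E`: only full cubes. -/
def BulkInit (d : ℕ) (ν : Measure ℝ) (L : ℕ) (ε E : ℝ) : Prop :=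
  ∀ x u : Site d, sd x u = L →
    ∫⁻ V, pg (box x L) E x u V ∂(PL ν (box x L)) ≤ ENNReal.ofReal ε

/-- The finite volume criterion at the energy `E` and the scale `L`. -/
def Crit (d : ℕ) (C₀ σ E : ℝ) (L : ℕ) : Prop :=
  ∃ ε : ℝ, 0 ≤ ε ∧ C₀ * (1 + 1 / |σ|) * (2 * L + 5) ^ (6 * d) * ε ≤ Real.exp (-1) ∧
    BulkInit d (gl σ) L ε E

/-- The energies near which the finite volume criterion holds, at some scale. -/
def LocSet (d : ℕ) (C₀ σ : ℝ) : Set ℝ :=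
  {E | ∃ h : ℝ, 0 < h ∧ ∃ L : ℕ, ∀ F ∈ Set.Icc (E - h) (E + h), Crit d C₀ σ F L}

/-- Fixed energy decay in probability, for the energies of `I`, in full cubes. -/
def BulkDecay (d : ℕ) (ν : Measure ℝ) (I : Set ℝ) (C μ : ℝ) : Prop :=
  ∀ (x u : Site d) (R : ℕ) (E : ℝ), E ∈ I → sd x u = R →
    PL ν (box x R) {V | ¬ Good V (box x R) E x u (Real.exp (-μ * R))} ≤
      ENNReal.ofReal (C * Real.exp (-μ * R))

/-! ### infinite volume -/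

/-- `∫_J ∑_{|u - x| ≥ ℓ} |G(x, u; E + iη)|² dE` -/
def spr (V : Site d → ℝ) (x : Site d) (η : ℝ) (J : Set ℝ) (ℓ : ℕ) : ℝ≥0∞ :=
  ∫⁻ E in J, ∑' u : Site d, if ℓ ≤ sd x u then
    ENNReal.ofReal (‖G V (zz η E) (del x) u‖ ^ 2) else 0

/-- `∑_{|x| ≥ R} |G(0, x; E + i/T)|² / T`, integrated over the energies of `J` -/
def spread (V : Site d → ℝ) (T R : ℝ) (J : Set ℝ) : ℝ≥0∞ :=
  ∫⁻ E in J, ∑' x : Site d, if R ≤ (sd 0 x : ℝ) then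
    ENNReal.ofReal (‖G V (zz (1 / T) E) (del 0) x‖ ^ 2 / T) else 0

/-- The time averaged moment `(2/T) ∫₀^∞ e^{-2t/T} ∑_x |x|^p |ψ_t(x)|² dt`. -/
def avgMoment (ψ : ℝ → L2 d) (T p : ℝ) : ℝ≥0∞ :=
  ∫⁻ t in Set.Ioi (0 : ℝ), ∑' x : Site d,
    ENNReal.ofReal (2 / T * Real.exp (-2 * t / T) * ((sd 0 x : ℝ) ^ p * ‖ψ t x‖ ^ 2))

/-! ### basic facts about `p8` and `pg` -/

theorem measurable_p8 : Measurable p8 := by
  unfold p8
  exact ENNReal.measurable_ofReal.comp (measurable_id.abs.pow_const _)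

theorem p8_zero : p8 0 = 0 := by
  unfold p8
  rw [abs_zero, Real.zero_rpow (by norm_num), ENNReal.ofReal_zero]

theorem p8_mul (a b : ℝ) : p8 (a * b) = p8 a * p8 b := by
  unfold p8
  rw [abs_mul, Real.mul_rpow (abs_nonneg _) (abs_nonneg _), ENNReal.ofReal_mul (by positivity)]

theorem p8_mono {a b : ℝ} (h : |a| ≤ |b|) : p8 a ≤ p8 b :=
  ENNReal.ofReal_le_ofReal (Real.rpow_le_rpow (abs_nonneg _) h (by norm_num))

theorem p8_neg (a : ℝ) : p8 (-a) = p8 a := by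
  unfold p8
  rw [abs_neg]

theorem p8_add (a b : ℝ) : p8 (a + b) ≤ p8 a + p8 b := by
  unfold p8
  rw [← ENNReal.ofReal_add (by positivity) (by positivity)]
  apply ENNReal.ofReal_le_ofReal
  calc |a + b| ^ (1 / 8 : ℝ) ≤ (|a| + |b|) ^ (1 / 8 : ℝ) :=
        Real.rpow_le_rpow (abs_nonneg _) (abs_add_le _ _) (by norm_num)
    _ ≤ _ := Real.rpow_add_le_add_rpow (abs_nonneg _) (abs_nonneg _) (by norm_num) (by norm_num)

theorem p8_sum {ι : Type*} (s : Finset ι) (f : ι → ℝ) : p8 (∑ i ∈ s, f i) ≤ ∑ i ∈ s, p8 (f i) := by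
  classical
  induction s using Finset.induction_on with
  | empty => simp [p8_zero]
  | insert a s ha ih =>
    rw [Finset.sum_insert ha, Finset.sum_insert ha]
    exact (p8_add _ _).trans (by gcongr)

theorem measurable_pg (Λ : Finset (Site d)) (E : ℝ) (x y : Site d) : Measurable (pg Λ E x y) :=
  measurable_p8.comp (measurable_gr Λ E x y)

theorem only_pg (Λ : Finset (Site d)) (E : ℝ) (x y : Site d) : Only (pg Λ E x y) Λ := by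
  intro V V' h
  unfold pg
  rw [gr_congr h]

/-- `|t| ^ (1/8) ≤ 1 + |t| ^ (1/2)` -/
theorem p8_le (t : ℝ) : p8 t ≤ 1 + ENNReal.ofReal (√|t|) := by
  unfold p8
  rw [← ENNReal.ofReal_one, ← ENNReal.ofReal_add (by norm_num) (by positivity)]
  apply ENNReal.ofReal_le_ofReal
  rcases le_total |t| 1 with h | h
  · have := Real.rpow_le_one (abs_nonneg t) h (by norm_num : (0:ℝ) ≤ 1 / 8)
    have := Real.sqrt_nonneg |t|
    linarith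
  · have := Real.rpow_le_rpow_of_exponent_le h (by norm_num : (1 / 8 : ℝ) ≤ 1 / 2)
    rw [← Real.sqrt_eq_rpow] at this
    linarith

/-- `|t| ^ (1/4) ≤ 1 + |t| ^ (1/2)` -/
theorem p8_sq_le (t : ℝ) : p8 t ^ 2 ≤ 1 + ENNReal.ofReal (√|t|) := by
  unfold p8
  rw [← ENNReal.ofReal_pow (by positivity), ← ENNReal.ofReal_one,
    ← ENNReal.ofReal_add (by norm_num) (by positivity)]
  apply ENNReal.ofReal_le_ofReal
  rw [← Real.rpow_natCast, ← Real.rpow_mul (abs_nonneg _)]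
  norm_num
  rcases le_total |t| 1 with h | h
  · have := Real.rpow_le_one (abs_nonneg t) h (by norm_num : (0:ℝ) ≤ 1 / 4)
    have := Real.sqrt_nonneg |t|
    linarith
  · have := Real.rpow_le_rpow_of_exponent_le h (by norm_num : (1 / 4 : ℝ) ≤ 1 / 2)
    rw [← Real.sqrt_eq_rpow] at this
    linarith

end Pool.Agent.Mob
end
end -- Pool.Agent.Mob.Defs

section -- Pool.Agent.Mob.Stmts

/-!
# Metal-insulator transport transition: the statements of the modules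

The proofs are in `/team-store/PAPER_T2.md` (the section has the name of the module).
-/

set_option autoImplicit false

open MeasureTheory ProbabilityTheory Function

open scoped ENNReal BigOperators InnerProductSpace

noncomputable section

namespace Pool.Agent.Mob

open Pool.Agent.Anderson Pool.Agent.Loc Pool.Agent.Helper54.Bal

/-! ### A. from time averages to cells -/

/-- GZB: finite volume resolvent, elementary facts. -/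
def GzbStmt : Prop :=
  ∀ (d : ℕ) (V : Site d → ℝ) (Λ : Finset (Site d)) (x y : Site d),
    (∀ E : ℝ, gz V Λ (E : ℂ) x y = (gr V Λ E x y : ℂ)) ∧
    (∀ z : ℂ, z.im ≠ 0 → (z • (1 : Matrix Λ Λ ℂ) - HC V Λ).det ≠ 0 ∧
      ‖gz V Λ z x y‖ ≤ |z.im|⁻¹) ∧
    (∀ E r : ℝ, 0 < r → NoEig V Λ E (2 * r) → ∀ z : ℂ, |z.re - E| ≤ r →
      (z • (1 : Matrix Λ Λ ℂ) - HC V Λ).det ≠ 0 ∧ ‖gz V Λ z x y‖ ≤ r⁻¹ ∧
        DifferentiableAt ℂ (fun z => gz V Λ z x y) z)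

/-- NRM: if `E` is at distance more than `r` from the spectrum of `H_Λ` then
`‖(H_Λ - E) f‖ ≥ r ‖f‖`. -/
def NrmStmt : Prop :=
  ∀ (d : ℕ) (V : Site d → ℝ) (Λ : Finset (Site d)) (E r : ℝ), 0 < r → NoEig V Λ E r →
    ∀ f : Site d → ℂ, (∀ x, x ∉ Λ → f x = 0) →
      r ^ 2 * ∑ x ∈ Λ, ‖f x‖ ^ 2 ≤
        ∑ x ∈ Λ, ‖lap f x + (V x : ℂ) * f x - (E : ℂ) * f x‖ ^ 2

/-- HOL: from the height `η` down to the real axis. -/
def HolStmt : Prop :=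
  ∀ (d : ℕ) (V : Site d → ℝ) (Λ : Finset (Site d)) (x y : Site d) (E r η ε : ℝ), 0 < η →
    8 * η ≤ r → 0 ≤ ε → NoEig V Λ E (2 * r) →
    (∀ F : ℝ, |F - E| ≤ r → ‖gz V Λ (zz η F) x y‖ ≤ ε) →
    |gr V Λ E x y| ≤ max (3 * ε) (3 / r * Real.exp (-r / (4 * η)))

/-- WEG: Wegner estimate, linear in the volume. -/
def WegStmt : Prop :=
  ∀ (d : ℕ) (ν : Measure ℝ) [IsProbabilityMeasure ν] (ρ : ℝ), BddDens ν ρ →
    ∀ (Λ : Finset (Site d)) (E r : ℝ), 0 < r →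
      MeasurableSet {V : Site d → ℝ | NoEig V Λ E r} ∧
      PL ν Λ {V | ¬ NoEig V Λ E r} ≤ ENNReal.ofReal (64 * ρ * Λ.card * r)

/-- FVL: finite volume against infinite volume, at positive height. -/
def FvlStmt : Prop :=
  ∀ (d : ℕ) (V : Site d → ℝ) (Λ : Finset (Site d)) (η E ε : ℝ) (ℓ : ℕ) (x y : Site d), 0 < η →
    0 ≤ ε → x ∈ Λ → y ∈ Λ → (∀ u, u ∉ Λ → ℓ ≤ sd x u) → ℓ ≤ sd x y →
    (∀ u, ℓ ≤ sd x u → ‖G V (zz η E) (del x) u‖ ≤ ε) →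
    ‖gz V Λ (zz η E) x y‖ ≤ ε * (1 + 2 * d * Λ.card / η)

/-- PTW: from an integral over the energies to a single energy. -/
def PtwStmt : Prop :=
  ∀ (d : ℕ) (V : Site d → ℝ) (x u : Site d) (η h E a b : ℝ), 0 < η → 0 < h → a < E →
    E + h < b →
    ENNReal.ofReal (‖G V (zz η E) (del x) u‖ ^ 2) ≤
      ENNReal.ofReal (2 / h) *
        ∫⁻ F in Set.Ioo a b, ENNReal.ofReal (‖G V (zz η F) (del x) u‖ ^ 2) +
      ENNReal.ofReal (2 * h ^ 2 / η ^ 4)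

/-- SHF: measurability and shift invariance. -/
def ShfStmt : Prop :=
  ∀ (d : ℕ) (ν : Measure ℝ) [IsProbabilityMeasure ν] (η : ℝ), η ≠ 0 →
    ∀ (a b : ℝ) (ℓ : ℕ) (x : Site d),
      Measurable (fun V : Site d → ℝ => spr V x η (Set.Ioo a b) ℓ) ∧
      ∫⁻ V, spr V x η (Set.Ioo a b) ℓ ∂(PP d ν) = ∫⁻ V, spr V 0 η (Set.Ioo a b) ℓ ∂(PP d ν)

/-- CEL: a small time averaged spreading makes the cells good with high probability. -/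
def CelStmt : Prop :=
  ∀ d : ℕ, 1 ≤ d → ∀ σ : ℝ, σ ≠ 0 → ∀ δ h : ℝ, 0 < δ → δ ≤ 1 → 0 < h →
    ∃ ℓ₀ : ℕ, ∀ ℓ : ℕ, ℓ₀ ≤ ℓ → ∀ η : ℝ, (ℓ : ℝ) ^ (-((d : ℝ) + 1)) ≤ η →
      η ≤ (ℓ : ℝ) ^ (-((d : ℝ) + δ)) → ∀ a b : ℝ,
      ENNReal.ofReal η * ∫⁻ V, spr V 0 η (Set.Ioo a b) ℓ ∂(PP d (gl σ)) ≤
        ENNReal.ofReal ((ℓ : ℝ) ^ (-(400 * (d : ℝ)))) →
      ∀ E : ℝ, a + h ≤ E → E + h ≤ b → ∀ c : Site d,
        PL (gl σ) (box c (3 * ℓ)) {V | ¬ CellGood V c ℓ ((ℓ : ℝ) ^ (-(120 * (d : ℝ)))) E} ≤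
          ENNReal.ofReal ((ℓ : ℝ) ^ (-(δ / 4)))

/-! ### B. from cells to the finite volume criterion -/

/-- the centres of the cells which cover the sphere of radius `10 i ℓ + 1` about `x` -/
def cells {d : ℕ} (x : Site d) (ℓ i : ℕ) : Finset (Site d) :=
  ((box (0 : Site d) (10 * i + 1)).filter fun k => 10 * i ≤ sd 0 k).image
    fun k j => x j + ℓ * k j

/-- ANA: one good annulus makes the Green function between the centre and the boundary small. -/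
def AnaStmt : Prop :=
  ∀ (d : ℕ) (V : Site d → ℝ) (E A τ : ℝ) (m ℓ i : ℕ) (x u : Site d), 1 ≤ ℓ → 1 ≤ i → i ≤ m →
    0 ≤ A → 0 ≤ τ → sd x u = 10 * (m + 1) * ℓ →
    (RM V (box x (10 * (m + 1) * ℓ)) E).det ≠ 0 → (RM V (box x (10 * i * ℓ)) E).det ≠ 0 →
    (∀ v, |gr V (box x (10 * i * ℓ)) E x v| ≤ τ) →
    (∀ w, |gr V (box x (10 * (m + 1) * ℓ)) E w u| ≤ τ) →
    (∀ c ∈ cells x ℓ i, CellGood V c ℓ A E) →
    |gr V (box x (10 * (m + 1) * ℓ)) E x u| ≤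
      τ ^ 2 * A * (2 * d * (20 * (m + 1) * ℓ + 1) ^ d) ^ 2

/-- ANB: the probability that all the annuli are bad. -/
def AnbStmt : Prop :=
  ∀ (d : ℕ) (ν : Measure ℝ) [IsProbabilityMeasure ν] (E A p : ℝ) (m ℓ : ℕ) (x : Site d),
    1 ≤ ℓ → 0 ≤ p →
    (∀ c : Site d, PL ν (box c (3 * ℓ)) {V | ¬ CellGood V c ℓ A E} ≤ ENNReal.ofReal p) →
    PL ν (box x (10 * (m + 1) * ℓ))
        {V | ∀ i : ℕ, 1 ≤ i → i ≤ m → ∃ c ∈ cells x ℓ i, ¬ CellGood V c ℓ A E} ≤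
      ENNReal.ofReal (((20 * m + 23) ^ d * p) ^ m)

/-- ANN: the initial scale estimate from the cells. -/
def AnnStmt : Prop :=
  ∀ (d : ℕ) (ν : Measure ℝ) [IsProbabilityMeasure ν] (ρ : ℝ), BddDens ν ρ →
    ∀ (m ℓ : ℕ) (A τ p E : ℝ), 1 ≤ m → 1 ≤ ℓ → 0 ≤ A → 0 < τ → 0 ≤ p →
    (∀ c : Site d, PL ν (box c (3 * ℓ)) {V | ¬ CellGood V c ℓ A E} ≤ ENNReal.ofReal p) →
    BulkInit d ν (10 * (m + 1) * ℓ)
      ((τ ^ 2 * A * (2 * d * (20 * (m + 1) * ℓ + 1) ^ d) ^ 2) ^ (1 / 8 : ℝ) +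
        √((1 + 2 * √(6 * ρ)) * ((m + 1) * ((20 * (m + 1) * ℓ + 1) ^ d) ^ 2 * (6 * ρ / τ) +
          ((20 * m + 23) ^ d * p) ^ m))) E

/-- INI: slow spreading near `E₀` implies `E₀ ∈ LocSet`. -/
def IniStmt : Prop :=
  ∀ d : ℕ, 1 ≤ d → ∀ C₀ σ : ℝ, 0 < C₀ → σ ≠ 0 → ∀ δ a b E₀ : ℝ, 0 < δ → δ ≤ 1 → a < E₀ →
    E₀ < b → ∃ T₀ : ℝ, 1 ≤ T₀ ∧ ∀ T : ℝ, T₀ ≤ T →
      ∫⁻ V, spread V T (T ^ (1 / ((d : ℝ) + δ))) (Set.Ioo a b) ∂(PP d (gl σ)) <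
        ENNReal.ofReal (T ^ (-400 : ℝ)) → E₀ ∈ LocSet d C₀ σ

/-! ### C. the criterion in the bulk -/

/-- AFF: reverse Hölder inequality for quotients of affine functions. -/
def AffStmt : Prop :=
  ∃ C : ℝ, 0 < C ∧ ∀ a b c e : ℝ,
    ∫⁻ t, p8 ((a + b * t) / (c + e * t)) ^ 2 ∂γ1 ≤
      ENNReal.ofReal C * (∫⁻ t, p8 ((a + b * t) / (c + e * t)) ∂γ1) ^ 2

/-- DEC: decoupling at two sites. -/
def DecStmt : Prop :=
  ∃ C : ℝ, 0 < C ∧ ∀ (d : ℕ) (σ : ℝ) (Λ₁ Λ₂ : Finset (Site d)) (E : ℝ)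
    (a b c e i j : Site d) (V : Site d → ℝ),
    (∫⋯∫⁻_{i, j}, (fun V => pg Λ₁ E a b V * pg Λ₂ E c e V) ∂(fun _ => gl σ)) V ≤
      ENNReal.ofReal C * ((∫⋯∫⁻_{i, j}, pg Λ₁ E a b ∂(fun _ => gl σ)) V *
        (∫⋯∫⁻_{i, j}, pg Λ₂ E c e ∂(fun _ => gl σ)) V)

/-- exponential decay of the fractional moments in a cube, away from its boundary -/
def BlkAt (d : ℕ) (C₀ σ : ℝ) : Prop :=
  ∀ (E : ℝ) (L : ℕ), Crit d C₀ σ E L → ∀ (R k : ℕ) (c w y : Site d),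
    sd c w + k * (L + 2) ≤ R → y ∈ box c R → k * (L + 2) ≤ sd w y →
      ∫⁻ V, pg (box c R) E w y V ∂(PL (gl σ) (box c R)) ≤
        ENNReal.ofReal (C₀ * (1 + 1 / |σ|) * Real.exp (-k))

/-- GEO: the geometric resolvent identity with both points in the smaller set. -/
def GeoStmt : Prop :=
  ∀ (d : ℕ) (V : Site d → ℝ) (Λ A : Finset (Site d)) (E : ℝ), A ⊆ Λ →
    (RM V Λ E).det ≠ 0 → (RM V A E).det ≠ 0 → ∀ x ∈ A, ∀ y ∈ A,
      gr V Λ E x y = gr V A E x y +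
        ∑ u ∈ A, ∑ u' ∈ Λ \ A, gr V A E x u * hop u u' * gr V Λ E u' y

/-- RET: return from the depleted cube to the full cube. -/
def RetStmt : Prop :=
  ∀ d : ℕ, 1 ≤ d → ∃ C₁ : ℝ, 0 < C₁ ∧ ∀ σ : ℝ, σ ≠ 0 → ∀ (E : ℝ) (L R : ℕ)
    (c w y v' : Site d) (F : ℝ≥0∞), sd c w + (L + 2) ≤ R → y ∈ box c R \ box w (L + 1) →
    v' ∈ box c R \ box w (L + 1) → sd w v' ≤ L + 2 →
    (∀ t ∈ box c R, sd w t ≤ L + 2 →
      ∫⁻ V, pg (box c R) E t y V ∂(PL (gl σ) (box c R)) ≤ F) →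
    ∫⁻ V, pg (box c R \ box w (L + 1)) E v' y V ∂(PL (gl σ) (box c R \ box w (L + 1))) ≤
      ENNReal.ofReal (C₁ * (1 + 1 / |σ|) ^ (1 / 2 : ℝ) * (2 * L + 5) ^ (2 * d)) * F

/-- BLK: the criterion implies exponential decay in the bulk. -/
def BlkStmt : Prop :=
  ∀ d : ℕ, 1 ≤ d → ∃ C₀ : ℝ, 0 < C₀ ∧ ∀ σ : ℝ, σ ≠ 0 → BlkAt d C₀ σ

/-- LRG: large disorder. -/
def LrgStmt : Prop :=
  ∀ d : ℕ, 1 ≤ d → ∀ C₀ : ℝ, 0 < C₀ → ∃ σ₁ : ℝ, 0 < σ₁ ∧ ∀ σ : ℝ, σ₁ ≤ |σ| →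
    ∀ E : ℝ, Crit d C₀ σ E 0

/-- EDG: the edges of the spectrum. -/
def EdgStmt : Prop :=
  ∀ d : ℕ, 3 ≤ d → ∃ C : ℝ, 0 < C ∧ ∀ C₀ σ : ℝ, 0 < C₀ → σ ≠ 0 → ∃ L : ℕ, ∀ E : ℝ,
    2 * d + watson d * σ ^ 2 + C * |σ| ^ (2 + 1 / (24 * d : ℝ)) ≤ |E| → Crit d C₀ σ E L

/-! ### D. localization -/

/-- BDC: decay in probability in full cubes. -/
def BdcStmt : Prop :=
  ∀ (d : ℕ) (C₀ σ : ℝ), 1 ≤ d → 0 < C₀ → σ ≠ 0 → BlkAt d C₀ σ → ∀ (I : Set ℝ) (L : ℕ),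
    (∀ E ∈ I, Crit d C₀ σ E L) → ∃ C μ : ℝ, 0 < μ ∧ BulkDecay d (gl σ) I C μ

/-- TBX: two cubes are not bad at the same energy. -/
def TbxStmt : Prop :=
  ∀ (d : ℕ) (ν : Measure ℝ) [IsProbabilityMeasure ν] (a b C μ : ℝ), 1 ≤ d → 0 < μ →
    BulkDecay d ν (Set.Icc a b) C μ → ∀ᵐ V ∂(PP d ν), ∃ L₀, TB V (Set.Icc a b) μ L₀

/-- SEP: separation of the spectra of the inner cube and of the shell. -/
def SepStmt : Prop :=
  ∀ (d : ℕ) (ν : Measure ℝ) [IsProbabilityMeasure ν] (ρ : ℝ), BddDens ν ρ → ∀ a b : ℝ,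
    ∀ᵐ V ∂(PP d ν), ∃ k₀, Sep V (Set.Icc a b) k₀

/-- DCY: polynomially bounded solutions decay exponentially. -/
def DcyStmt : Prop :=
  ∀ (d : ℕ) (V : Site d → ℝ) (I : Set ℝ) (μ : ℝ) (L₀ : ℕ), 1 ≤ d → 0 < μ → TB V I μ L₀ →
    ∀ E ∈ I, ∀ ψ : Site d → ℂ,
      (∃ (K : ℝ) (k : ℕ), ∀ x, ‖ψ x‖ ≤ K * (1 + (sd 0 x : ℝ)) ^ k) →
      (∀ x, lap ψ x + (V x : ℂ) * ψ x = (E : ℂ) * ψ x) →
      ∃ K : ℝ, ∀ x, ‖ψ x‖ ≤ K * Real.exp (-(μ / 4) * sd 0 x)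

/-- DIC: an eigenvector of the cube of radius `8k` is small either in the inner cube or in the
shell. -/
def DicStmt : Prop :=
  ∀ (d : ℕ) (V : Site d → ℝ) (I : Set ℝ) (μ : ℝ) (L₀ k₀ : ℕ), 1 ≤ d → 0 < μ → TB V I μ L₀ →
    Sep V I k₀ → ∃ k₁ : ℕ, ∀ k : ℕ, k₁ ≤ k → ∀ E ∈ I, ∀ ψ : Site d → ℂ,
      FinEig V (8 * k) E ψ →
      (∀ x ∈ box (0 : Site d) (2 * k), ‖ψ x‖ ≤ Real.exp (-(μ / 2) * k)) ∨
      ∑ x ∈ box (0 : Site d) (8 * k) \ box 0 (5 * k), ‖ψ x‖ ^ 2 ≤ Real.exp (-(μ / 2) * k)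

/-- CEN: decay from the centre, for centres and sites in the bulk. -/
def CenStmt : Prop :=
  ∀ (d : ℕ) (V : Site d → ℝ) (I : Set ℝ) (μ : ℝ) (L₀ : ℕ), 1 ≤ d → 0 < μ → TB V I μ L₀ →
    ∃ (C₁ : ℝ) (R₀ : ℕ), 1 ≤ C₁ ∧ ∀ (n : ℕ) (E : ℝ) (ψ : Site d → ℂ) (c : Site d), E ∈ I →
      FinEig V n E ψ → IsCenter n ψ c → 4 * sd 0 c ≤ 3 * n → ∀ x : Site d,
        4 * sd 0 x ≤ 3 * n → R₀ ≤ sd c x → 100 * sd 0 c ≤ (sd c x) ^ 2 →
        ‖ψ x‖ ≤ C₁ * Real.exp (-(μ / 8) * sd c x) * ‖ψ c‖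

/-- CMP: completeness of the localized eigenfunctions. -/
def CmpStmt : Prop :=
  ∀ (d : ℕ) (V : Site d → ℝ) (c r μ : ℝ) (L₀ k₀ : ℕ), 1 ≤ d → 0 < μ →
    TB V (Set.Icc (c - r) (c + r)) μ L₀ → Sep V (Set.Icc (c - r) (c + r)) k₀ →
    ∀ u w : L2 d, (∀ x, w x = lap u x + (V x : ℂ) * u x) →
      (∀ (E : ℝ) (ψ : L2 d), E ∈ Set.Icc (c - r) (c + r) → IsEigen V E ψ → ⟪ψ, u⟫_ℂ = 0) →
      r * ‖u‖ ≤ ‖w - (c : ℂ) • u‖

/-! ### E. time -/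

/-- TIM: the time averaged moments and the resolvent. -/
def TimStmt : Prop :=
  ∀ (d : ℕ) (V : Site d → ℝ) (ψ : ℝ → L2 d), IsEvolution V ψ → ∀ (T p R : ℝ), 0 < T → 0 ≤ p →
    1 ≤ R → ∀ a b : ℝ,
      ENNReal.ofReal (R ^ p / Real.pi) * spread V T R (Set.Ioo a b) ≤ avgMoment ψ T p

end Pool.Agent.Mob
end
end -- Pool.Agent.Mob.Stmts
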