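import Pool.Agent.Helper12_MEB.B028

/-!
# Merged copies (generated) of the modules

* `Pool.Agent.Mob.Stmts3`
* `Pool.Agent.LE.StmtsH`
* `Pool.Agent.Helper69_Mob.Cth`
* `Pool.Agent.Helper47_Mob.Exp`
* `Pool.Agent.Helper25_LCH.WTQ`
* `Pool.Agent.Helper35_LCH.Null`
* `Pool.Agent.Helper3_LCH.SML`
* `Pool.Agent.Helper45_LCH.WTA`
* `Pool.Agent.Helper60_LCH.FVW`
-/

set_option autoImplicit false

section -- Pool.Agent.Mob.Stmts3

/-!
# Metal-insulator transport transition: dynamical localization in `Loc`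

The proofs are in `/team-store/PAPER_T2.md`, part H (the section has the name of the module).
-/

set_option autoImplicit false

open MeasureTheory ProbabilityTheory Function

open scoped ENNReal BigOperators InnerProductSpace

noncomputable section

namespace Pool.Agent.Mob

open Pool.Agent.Anderson Pool.Agent.Loc Pool.Agent.Helper54.Bal

/-- TBP: two distant cubes, the probability at a given scale. -/
def TbpStmt : Prop :=
  ∀ (d : ℕ) (ν : Measure ℝ) [IsProbabilityMeasure ν] (a b C μ : ℝ),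
    BulkDecay d ν (Set.Icc a b) C μ → ∀ (L : ℕ) (x y : Site d), 2 * L < sd x y →
    PP d ν {V | ∃ E ∈ Set.Icc a b, ¬ FGood V L x E μ ∧ ¬ FGood V L y E μ} ≤
      ENNReal.ofReal (5 * |C| * (2 * L + 1) ^ (3 * d) * Real.exp (-μ * L))

/-- TOT: the total mass. -/
def TotStmt : Prop :=
  ∀ (d : ℕ) (V : Site d → ℝ) (T R : ℝ) (J : Set ℝ), 0 < T →
    spread V T R J ≤ ENNReal.ofReal Real.pi

/-- CTH: Combes-Thomas estimate. -/
def CthStmt : Prop :=
  ∀ (d : ℕ) (V : Site d → ℝ) (η E a : ℝ), 0 < η → 0 ≤ a → 2 * d * (Real.exp a - 1) ≤ η / 2 →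
    ∑' u : Site d, ENNReal.ofReal (Real.exp (2 * a * sd 0 u) *
      ‖G V (zz η E) (del 0) u‖ ^ 2) ≤ ENNReal.ofReal (4 / η ^ 2)

/-- AFV: approximation by a cube. -/
def AfvStmt : Prop :=
  ∀ (d : ℕ) (V : Site d → ℝ) (η E a : ℝ) (n : ℕ) (y : Site d), 0 < η → 0 ≤ a →
    2 * d * (Real.exp a - 1) ≤ η / 2 → y ∈ box (0 : Site d) n →
    ‖G V (zz η E) (del 0) y‖ ≤ ‖gz V (box 0 n) (zz η E) 0 y‖ +
      4 * d / η ^ 2 * Real.exp (-a * n)

/-- EXP: expansion in eigenvectors, in a finite set. -/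
def ExpStmt : Prop :=
  ∀ (d : ℕ) (V : Site d → ℝ) (Λ : Finset (Site d)), ∃ (lam : Λ → ℝ) (φ : Λ → Site d → ℝ),
    (∀ j x, x ∉ Λ → φ j x = 0) ∧ (∀ j, ∑ x ∈ Λ, φ j x ^ 2 = 1) ∧
    (∀ x ∈ Λ, ∑ j, φ j x ^ 2 = 1) ∧
    (∀ j, ∀ x ∈ Λ, lap (fun v => (φ j v : ℂ)) x + (V x : ℂ) * φ j x = (lam j : ℂ) * φ j x) ∧
    (∀ E : ℝ, (RM V Λ E).det = 0 ↔ ∃ j, lam j = E) ∧
    (∀ z : ℂ, (∀ j, z ≠ lam j) → ∀ x y : Site d,
      gz V Λ z x y = ∑ j, ((φ j x * φ j y : ℝ) : ℂ) / (z - lam j))

/-- DLB: the Green function at positive height, between `0` and `y`, if at each energy near `E`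
one of the cubes about `0` and `y` is good. -/
def DlbStmt : Prop :=
  ∀ (d : ℕ) (V : Site d → ℝ) (μ E h η s κ N : ℝ) (L n : ℕ) (y : Site d), 1 ≤ d → 0 < η →
    8 * η ≤ h → 0 < s → 2 * s ≤ h → κ = 2 * d * (2 * L + 1) ^ d * Real.exp (-μ * L) →
    N = (2 * n + 1) ^ d → L < sd 0 y → sd 0 y + L ≤ n →
    (∀ F : ℝ, |F - E| ≤ 2 * h → FGood V L 0 F μ ∨ FGood V L y F μ) →
    ‖gz V (box 0 n) (zz η E) 0 y‖ ≤ N * κ / η + 3 * ((N + 1) ^ 2 * κ / s + 4 * s / h ^ 2) +
      3 / h * Real.exp (-h / (4 * η))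

/-- INS: no spreading faster than any power. -/
def InsStmt : Prop :=
  ∀ (d : ℕ) (ν : Measure ℝ) [IsProbabilityMeasure ν] (a b h C μ : ℝ), 1 ≤ d → 0 < μ → 0 < h →
    BulkDecay d ν (Set.Icc (a - 2 * h) (b + 2 * h)) C μ → ∀ β k : ℝ, 0 < β →
      ∃ T₀ : ℝ, ∀ T : ℝ, T₀ ≤ T →
        ∫⁻ V, spread V T (T ^ β) (Set.Ioo a b) ∂(PP d ν) ≤ ENNReal.ofReal (T ^ (-k))

end Pool.Agent.Mob
end
end -- Pool.Agent.Mob.Stmts3

section -- Pool.Agent.LE.StmtsH

/-!
# The localized region and the zeros of the Lyapunov exponent: statements of the modules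

Deterministic part: for one potential `V`, the Poisson smoothed spectral measures `wt V S η u` of the
vectors `u` of `ℓ²(ℤ^d)`. Probabilistic part: their means. `zz η E = E + i η`, `G V z = (H - z)⁻¹`,
`gz V Λ z = (z - H_Λ)⁻¹` (so `gz` tends to `- G`), `del x = δ_x`, `gl σ` the law of `σ ξ(0)`.

Useful lemmas: `IsRes` (`im_inner`: `Im ⟨f, G f⟩ = Im z ‖G f‖²`, `norm_le`, `adj`, `norm_conj`),
`isRes_G`, `G_eq`, `G_unique`, `continuous_G`, `G_update_del`, `mf`, `im_G_del`, `shiftInv_PP`,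
`resamp_PP`, `integral_poisson`, `inner_del_left`, `coord_apply`, `Lap_apply` (files
`Helper54_Ballistic/{Res,Ell,Int,Law,Evol,Cov,Main}.lean`, `Helper17_Anderson/Ell2.lean`);
`ExpStmt` is proved: `Pool.Agent.Mob.H47.exp_` (`Helper47_Mob/Exp.lean`).
-/

set_option autoImplicit false

open MeasureTheory ProbabilityTheory Function Filter

open scoped ENNReal BigOperators InnerProductSpace Topology

noncomputable section

namespace Pool.Agent.LE.CH

open Pool.Agent.Anderson Pool.Agent.Loc Pool.Agent.Mob Pool.Agent.Helper54.Bal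

variable {d : ℕ}

/-! ### definitions -/

/-- The mass in `S` of the spectral measure of `u`, smoothed at the scale `η`. -/
def wt (V : Site d → ℝ) (S : Set ℝ) (η : ℝ) (u : L2 d) : ℝ≥0∞ :=
  ∫⁻ E in S, ENNReal.ofReal (η / Real.pi * ‖G V (zz η E) u‖ ^ 2)

/-- `u` is orthogonal to the eigenfunctions with energies in `J`. -/
def Orth (V : Site d → ℝ) (J : Set ℝ) (u : L2 d) : Prop :=
  ∀ (E : ℝ) (φ : L2 d), E ∈ J → IsEigen V E φ → ⟪φ, u⟫_ℂ = 0

/-- The eigenfunctions are complete in `[a - r, a + r]`. -/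
def CplJ (V : Site d → ℝ) (a r : ℝ) : Prop :=
  ∀ u w : L2 d, (∀ x, w x = lap u x + (V x : ℂ) * u x) →
    Orth V (Set.Icc (a - r) (a + r)) u → r * ‖u‖ ≤ ‖w - (a : ℂ) • u‖

/-- The eigenfunctions are complete in the set `O` of energies. -/
def Cpl (V : Site d → ℝ) (O : Set ℝ) : Prop :=
  ∀ a r : ℝ, Set.Icc (a - r) (a + r) ⊆ O → CplJ V a r

/-- The solution of `(z - H_Λ) v = u` in the cube `Λ = box 0 n`. -/
def fv (V : Site d → ℝ) (n : ℕ) (z : ℂ) (u : Site d → ℂ) (x : Site d) : ℂ :=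
  ∑ y ∈ box (0 : Site d) n, gz V (box 0 n) z x y * u y

/-- The restriction to the cube. -/
def cut (n : ℕ) (u : Site d → ℂ) (x : Site d) : ℂ := if x ∈ box (0 : Site d) n then u x else 0

/-- The open sets `U k` carry arbitrarily little spectral measure. -/
def Sml (V : Site d → ℝ) (U : ℕ → Set ℝ) : Prop :=
  ∀ (n : ℕ) (ε : ℝ), 0 < ε → ∃ k : ℕ, ∃ᶠ m : ℕ in atTop,
    ∑ x ∈ box (0 : Site d) n, wt V (U k) (1 / ((m : ℝ) + 1)) (del x) < ENNReal.ofReal ε

/-! ### finite volume -/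

/-- FVW: the spectral decomposition of a vector in a cube. Proof: `ExpStmt` with `Λ = box 0 n` gives
real `φ j`, `lam j`, `j ∈ Λ`, orthonormal (`φ` is a square matrix with `gz V Λ z x y =
∑ j, φ j x φ j y / (z - lam j)`; orthonormality of the columns from `∑_j φ j x φ j y = δ_{xy}`: take
`z = i t`, `t → ∞` in the formula for `z gz V Λ z x y`, or use the eigenvector equations and the
resolvent identity; or reprove the decomposition directly from `Matrix.IsHermitian` as in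
`Helper47_Mob/Exp.lean`). `p j = |∑ x ∈ Λ, φ j x u x|²`. For `x ∈ Λ` the sum over neighbours in
`lap (cut n u) x` is the sum over neighbours in the cube, `H_Λ u`, and
`∑_x φ j x (H_Λ u)(x) = lam j ∑_x φ j x u x`. -/
def FvwStmt : Prop :=
  ∀ (d n : ℕ) (V : Site d → ℝ) (u : Site d → ℂ), ∃ p lam : (box (0 : Site d) n) → ℝ,
    (∀ j, 0 ≤ p j) ∧ ∑ j, p j = ∑ x ∈ box (0 : Site d) n, ‖u x‖ ^ 2 ∧
    (∀ z : ℂ, z.im ≠ 0 →
      ∑ x ∈ box (0 : Site d) n, ‖fv V n z u x‖ ^ 2 = ∑ j, p j / ‖z - lam j‖ ^ 2) ∧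
    ∀ a : ℝ, ∑ x ∈ box (0 : Site d) n,
      ‖lap (cut n u) x + (V x : ℂ) * u x - (a : ℂ) * u x‖ ^ 2 = ∑ j, p j * (lam j - a) ^ 2

/-- FVG: strong convergence of the finite volume resolvents. Proof: `g = G V z u`,
`b_n x = ∑ g y` over the neighbours `y ∉ box 0 n` of `x`. By `G_eq`, `(z - H_Λ)(- g) = u - b_n` in
`Λ = box 0 n`, so `fv V n z u + g = fv V n z b_n` in `Λ`; by `FvwStmt`, `‖z - lam j‖ ≥ |z.im|`,
`∑ ‖fv V n z b_n x‖² ≤ |z.im|⁻² ∑_{x ∈ Λ} ‖b_n x‖² ≤ |z.im|⁻² (2 d)² ∑_{y ∉ Λ} ‖g y‖² → 0`. -/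
def FvgStmt : Prop :=
  ∀ (d : ℕ) (V : Site d → ℝ) (z : ℂ) (u : L2 d), z.im ≠ 0 →
    Tendsto (fun n : ℕ => ∑ x ∈ box (0 : Site d) n, ‖fv V n z u x + G V z u x‖ ^ 2) atTop (𝓝 0) ∧
    Tendsto (fun n : ℕ => ∑ x ∈ box (0 : Site d) n, ‖fv V n z u x‖ ^ 2) atTop
      (𝓝 (‖G V z u‖ ^ 2)) ∧
    ∀ x : Site d, Tendsto (fun n : ℕ => fv V n z u x) atTop (𝓝 (-G V z u x))

/-! ### the smoothed spectral measures -/

/-- WTL: the total mass. Proof: `FvwStmt`, `integral_poisson`: in finite volume the integral over all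
`E` is `∑ j, p j ≤ ‖u‖²`; `FvgStmt` and Fatou. (For `u = δ_0` this is `Pool.Agent.Mob.TotStmt`.) -/
def WtlStmt : Prop :=
  ∀ (d : ℕ) (V : Site d → ℝ) (S : Set ℝ) (η : ℝ) (u : L2 d), 0 < η →
    wt V S η u ≤ ENNReal.ofReal (‖u‖ ^ 2)

/-- WTA: `wt` of a sum, of a multiple, and of a combination of the `δ_x`
(`‖∑ u x G δ_x‖² ≤ (∑ ‖u x‖²) (∑ ‖G δ_x‖²)`). -/
def WtaStmt : Prop :=
  ∀ (d : ℕ) (V : Site d → ℝ) (S : Set ℝ) (η : ℝ), 0 < η →
    (∀ u v : L2 d, wt V S η (u + v) ≤ 2 * wt V S η u + 2 * wt V S η v) ∧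
    (∀ (c : ℂ) (u : L2 d), wt V S η (c • u) = ENNReal.ofReal (‖c‖ ^ 2) * wt V S η u) ∧
    ∀ (n : ℕ) (u : L2 d), wt V S η (∑ x ∈ box (0 : Site d) n, u x • del x) ≤
      ENNReal.ofReal (‖u‖ ^ 2) * ∑ x ∈ box (0 : Site d) n, wt V S η (del x)

/-- WTE: eigenfunctions. Proof: `G φ = φ / (E₀ - z)` (`G_unique`). (1) `∫_{|E - E₀| ≥ s} dE /
(E - E₀)² = 2 / s`. (2) `⟪φ, G u⟫ = ⟪G* φ, u⟫ = ⟪φ, u⟫ / (E₀ - z)`, so `‖⟪φ, u⟫‖² / ((E - E₀)² + η²)
≤ ‖φ‖² ‖G u‖²`; integrate over `|E - E₀| < s`: `∫ η / π / (..) = (2 / π) arctan (s / η) ≥ 1 / 2`. -/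
def WteStmt : Prop :=
  ∀ (d : ℕ) (V : Site d → ℝ) (S : Set ℝ) (η s E₀ : ℝ) (φ : L2 d), 0 < η → 0 < s →
    IsEigen V E₀ φ →
    ((∀ E ∈ S, s ≤ |E - E₀|) → wt V S η φ ≤ ENNReal.ofReal (η / s * ‖φ‖ ^ 2)) ∧
    (η ≤ s → Set.Ioo (E₀ - s) (E₀ + s) ⊆ S → ∀ u : L2 d,
      ENNReal.ofReal (‖⟪φ, u⟫_ℂ‖ ^ 2) ≤ ENNReal.ofReal (2 * ‖φ‖ ^ 2) * wt V S η u)

/-- WTC: complete eigenfunctions, an orthogonal vector. Proof: `g = G V z v`, `z = zz η E`. For an
eigenfunction `φ`, `⟪φ, v⟫ = (E₀ - z) ⟪φ, g⟫` (`adj`, `G* φ = φ / (E₀ - conj z)`), so `Orth V J g`.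
`H g = v + z g`, so `r ‖g‖ ≤ ‖v + (z - a) g‖ ≤ ‖v‖ + (|E - a| + η) ‖g‖`, and `η ‖g‖ ≤ ‖v‖`. -/
def WtcStmt : Prop :=
  ∀ (d : ℕ) (V : Site d → ℝ) (a r η E : ℝ) (v : L2 d), 0 < η → CplJ V a r →
    Orth V (Set.Icc (a - r) (a + r)) v → (r - |E - a|) * ‖G V (zz η E) v‖ ≤ 2 * ‖v‖

/-- PTI: a pointwise inequality. Proof: `s = |t - a|`. If `s ≥ r - √η` use `(r - s)(r + s) ≤ 2 r √η`.
Otherwise the integral is `(arctan ((a + r - t) / η) + arctan ((t - a + r) / η)) / π ≥ 1 - √η`
(`arctan y ≥ π / 2 - 1 / y`, `y ≥ 1 / √η`). -/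
def PtiStmt : Prop :=
  ∀ a r η t : ℝ, 0 ≤ r → 0 < η → η ≤ 1 →
    r ^ 2 ≤ (t - a) ^ 2 + (r ^ 2 + 3 * r) * √η +
      r ^ 2 * ∫ E in Set.Icc (a - r) (a + r), η / Real.pi / ((E - t) ^ 2 + η ^ 2)

/-- WTQ: a vector with little mass in `[a - r, a + r]`. Proof: `PtiStmt` with `t = lam j`,
multiplied by `p j` and summed (`FvwStmt`), gives the inequality in finite volume; `n → ∞`:
`∑_{x ∈ Λ} ‖lap (cut n u) x + V x u x - a u x‖² → ‖w - a u‖²` since `lap (cut n u) x = lap u x -` (the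
sum over the neighbours outside), whose `ℓ²` norm tends to `0`; the integral over the compact
interval converges by `FvgStmt` and dominated convergence (`∑ ‖fv‖² ≤ ‖u‖² / η²`). -/
def WtqStmt : Prop :=
  ∀ (d : ℕ) (V : Site d → ℝ) (a r η : ℝ) (u w : L2 d), 0 ≤ r → 0 < η → η ≤ 1 →
    (∀ x, w x = lap u x + (V x : ℂ) * u x) →
    ENNReal.ofReal (r ^ 2 * ‖u‖ ^ 2) ≤
      ENNReal.ofReal (‖w - (a : ℂ) • u‖ ^ 2 + (r ^ 2 + 3 * r) * √η * ‖u‖ ^ 2) +
        ENNReal.ofReal (r ^ 2) * wt V (Set.Icc (a - r) (a + r)) η u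

/-- WTS: the span of eigenfunctions with energies outside of a closed set. Proof: each `φ` with
`E₀ ∉ B` satisfies `s ≤ |E - E₀|` on `B` for some `s > 0` (`WteStmt` (1)); finite combinations by
`WtaStmt`; the closure by `WtaStmt` and `WtlStmt`. -/
def WtsStmt : Prop :=
  ∀ (d : ℕ) (V : Site d → ℝ) (B : Set ℝ) (u : L2 d), IsClosed B →
    u ∈ closure (Submodule.span ℂ {φ : L2 d | ∃ E₀ : ℝ, E₀ ∉ B ∧ IsEigen V E₀ φ} : Set (L2 d)) →
    Tendsto (fun η : ℝ => wt V B η u) (𝓝[>] 0) (𝓝 0)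

/-- LIM: no eigenvalue in `B`, complete eigenfunctions near `B`. Proof: `M` the closure of the span of
the eigenfunctions with energies in `J = [a - r, a + r]` (they are not in `B`, or zero),
`u = m + v`, `m ∈ M`, `v ∈ Mᗮ`. `WtsStmt` for `m`; `WtcStmt` for `v`:
`‖G V (zz η E) v‖ ≤ (4 / r) ‖v‖` for `E ∈ B`, so `wt V B η v ≤ C η`. `WtaStmt`. -/
def LimStmt : Prop :=
  ∀ (d : ℕ) (V : Site d → ℝ) (a r : ℝ) (B : Set ℝ) (u : L2 d), IsClosed B → 0 < r →
    B ⊆ Set.Icc (a - r / 2) (a + r / 2) → CplJ V a r →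
    (∀ E ∈ B, ∀ φ : L2 d, IsEigen V E φ → φ = 0) →
    Tendsto (fun η : ℝ => wt V B η u) (𝓝[>] 0) (𝓝 0)

/-- NUL: no eigenvalue in the intersection of the `U k`. Proof: let `IsEigen V E φ`, `E ∈ U k` for all
`k`, `x` a site, `x ∈ box 0 n`. For `ε > 0` take `k` from `Sml V U`, `s` with `Ioo (E - s) (E + s) ⊆
U k`, and `m` with `1 / (m + 1) ≤ s` and the sum less than `ε`; `WteStmt` (2): `‖φ x‖² ≤ 2 ‖φ‖² ε`. -/
def NulStmt : Prop :=
  ∀ (d : ℕ) (V : Site d → ℝ) (U : ℕ → Set ℝ), (∀ k, IsOpen (U k)) → Sml V U →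
    ∀ E : ℝ, (∀ k, E ∈ U k) → ∀ φ : L2 d, IsEigen V E φ → φ = 0

/-- CPG: completeness outside of a negligible set. Proof: let `J = [a - r, a + r] ⊆ I`, `r > 0`,
`w = H u`, `Orth V J u`, `0 < r' < r`, `J' = [a - r', a + r']`. It is enough that `r' ‖u‖ ≤
‖w - a u‖`. By `WtqStmt` (with `r'`), for all `η ≤ 1`, `r'² ‖u‖² ≤ ‖w - a u‖² + C √η ‖u‖² +
r'² (wt V (J' \ U k) η u + wt V (U k) η u)`.
(1) `J' \ U k` is compact and contained in `O ∩ Ioo (a - r) (a + r)`: each of its points `E₁` has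
`s > 0` with `[E₁ - s, E₁ + s] ⊆ O ∩ J`, so `CplJ V E₁ s`, and `Orth V [E₁ - s, E₁ + s] u`
(`Orth` is monotone), so `‖G V (zz η E) u‖ ≤ (4 / s) ‖u‖` for `|E - E₁| < s / 2` (`WtcStmt`). By
compactness `‖G V (zz η E) u‖ ≤ C_k` on `J' \ U k`, all `η > 0`, and `wt V (J' \ U k) η u ≤ C'_k η`.
(2) `u = u_n + v_n`, `u_n = ∑ x ∈ box 0 n, u x • del x`, `‖v_n‖ → 0`; by `WtaStmt`, `WtlStmt`,
`wt V (U k) η u ≤ 2 ‖u‖² ∑ x ∈ box 0 n, wt V (U k) η (del x) + 2 ‖v_n‖²`.
Given `ε`, choose `n`, then `k` by `Sml V U`, then `η = 1 / (m + 1)` with `m` large. -/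
def CpgStmt : Prop :=
  ∀ (d : ℕ) (V : Site d → ℝ) (U : ℕ → Set ℝ) (O I : Set ℝ), IsOpen O → (∀ k, IsOpen (U k)) →
    Sml V U → (∀ k, I ⊆ O ∪ U k) → Cpl V O → Cpl V I

/-! ### means -/

/-- MEW: measurability. Proof: `continuous_G`; `Measurable.lintegral_prod_right'`. -/
def MewStmt : Prop :=
  ∀ (d : ℕ) (S : Set ℝ) (η : ℝ) (u : L2 d), 0 < η → MeasurableSet S →
    Measurable fun V : Site d → ℝ => wt V S η u

/-- AVU: the upper bound (Wegner). Proof: `η ‖G δ_x‖² = Im (G δ_x) x`. For `x = 0`: with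
`g' = G (update V 0 0) z (del 0) 0`, `h = 1 / g'`, `G V z (del 0) 0 = 1 / (V 0 + h)` (`G_update_del`),
`Im h < 0`, so the mean over `V 0` with density `≤ 1 / (√(2 π) |σ|)` is at most
`π / (√(2 π) |σ|) ≤ π / |σ|` (`resamp_PP`, `integral_poisson`). For general `x`: `G V z (del x)` is the
translate of `G (tau x V) z (del 0)` (`G_unique`), `shiftInv_PP`. Tonelli. -/
def AvuStmt : Prop :=
  ∀ (d : ℕ) (σ η : ℝ) (S : Set ℝ) (x : Site d), σ ≠ 0 → 0 < η → MeasurableSet S →
    ∫⁻ V, wt V S η (del x) ∂(PP d (gl σ)) ≤ ENNReal.ofReal (1 / |σ|) * volume S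

/-- AVF: the lower bound in finite volume. Proof: `Λ = box 0 n`, `z = zz η E`, `g y = gz V Λ z 0 y`.
(1) The equation at `0`: `(z - V 0) g 0 - ∑_{y ∼ 0} g y = 1`. If `|V 0| ≤ M₁`, then either
`|g 0| ≥ 1 / (2 (M₁ + K + 1))` or `|g y| ≥ 1 / (4 d)` for some neighbour `y`. By `VtzStmt`
(`LE/StmtsM.lean`, proved: `Pool.Agent.LE.MN.H28.vtz`, `Helper28_LYM/VTZ.lean`) with `S = {0}`,
`u = y`, `y = 0`: `P(τ |g 0| < |g y|²) ≤ 8 / (|σ| τ)` (`gz` is symmetric). So `P(|g 0| < c₁) ≤ 1 / 2`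
with `c₁ = c₁(d, σ, K) > 0`, all `n ≥ 1`.
(2) `g 0 = 1 / (z - V 0 - m)`, `m` independent of `V 0` (Schur; as a function of `v = V 0`, with the
other values fixed, `1 / g 0 = z - v - m`, from the resolvent identity for the change of `V 0`,
`Im m < 0`). If `|g 0| ≥ c₁` and `|V 0| ≤ M₁` then `|z - m| ≤ M₂ = M₁ + 1 / c₁`; this event for `z - m`
has probability at least `1 / 4`, and is independent of `V 0`. On it, `z - m = a + i b`, `|a| ≤ M₂`,
`0 < b ≤ M₂`, `- Im g 0 = b / ((a - v)² + b²)`, whose mean over `v` is at least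
`ρ_min ∫_{|v - a| ≤ M₂} b / ((a - v)² + b²) dv ≥ ρ_min π / 2`, `ρ_min` the minimum of the density of
`gl σ` on `[-2 M₂, 2 M₂]`. -/
def AvfStmt : Prop :=
  ∀ (d : ℕ) (σ K : ℝ), 1 ≤ d → σ ≠ 0 → ∃ c : ℝ, 0 < c ∧ ∀ (n : ℕ) (η E : ℝ), 1 ≤ n → |E| ≤ K →
    0 < η → η ≤ 1 →
      ENNReal.ofReal c ≤
        ∫⁻ V, ENNReal.ofReal (-(gz V (box (0 : Site d) n) (zz η E) 0 0).im) ∂(PP d (gl σ))

/-- AVL: the lower bound. Proof: `fv V n z (del 0) 0 = gz V (box 0 n) z 0 0`, so by `FvgStmt`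
`- Im gz V (box 0 n) (zz η E) 0 0 → Im (G V (zz η E) (del 0) 0) = η ‖G V (zz η E) (del 0)‖²`; it is
bounded by `1 / η`; dominated convergence in `AvfStmt`; Tonelli. -/
def AvlStmt : Prop :=
  ∀ (d : ℕ) (σ K : ℝ), 1 ≤ d → σ ≠ 0 → ∃ c : ℝ, 0 < c ∧ ∀ (η : ℝ) (S : Set ℝ), 0 < η → η ≤ 1 →
    MeasurableSet S → S ⊆ Set.Icc (-K) K →
      ENNReal.ofReal c * volume S ≤ ∫⁻ V, wt V S η (del (0 : Site d)) ∂(PP d (gl σ))

/-- SML: null sets of energies. Proof: open `U k ⊇ Z`, `volume (U k) ≤ 4⁻ᵏ` (outer regularity). By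
`AvuStmt`, Fatou and `MewStmt`, the mean of `liminf_m ∑ x ∈ box 0 n, wt V (U k) (1 / (m + 1)) (del x)`
is at most `(2 n + 1)^d / |σ| 4⁻ᵏ`, so almost surely it tends to `0` as `k → ∞`, for each `n`. -/
def SmlStmt : Prop :=
  ∀ (d : ℕ) (σ : ℝ) (Z : Set ℝ), σ ≠ 0 → volume Z = 0 →
    ∃ U : ℕ → Set ℝ, (∀ k, IsOpen (U k) ∧ Z ⊆ U k) ∧ ∀ᵐ V ∂(PP d (gl σ)), Sml V U

/-- CNV: an eigenvalue free set of positive measure, near which the eigenfunctions are complete, does
not exist. Proof: otherwise `wt (W ω) B η (del 0) → 0` almost surely (`LimStmt`), it is at most `1`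
(`WtlStmt`, `‖del 0‖ = 1`) and measurable (`MewStmt`), so its mean tends to `0`
(`η = 1 / (m + 1)`), but the mean is at least `c volume B > 0` (`AvlStmt`, `lintegral_map`). -/
def CnvStmt.{u} : Prop :=
  ∀ (d : ℕ) (σ a r : ℝ) (B : Set ℝ), 1 ≤ d → σ ≠ 0 → IsClosed B → 0 < r →
    B ⊆ Set.Icc (a - r / 2) (a + r / 2) → 0 < volume B →
    ∀ (Ω : Type u) [MeasurableSpace Ω] (P : Measure Ω) [IsProbabilityMeasure P]
      (W : Ω → Site d → ℝ), Measurable W → P.map W = PP d (gl σ) →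
      ¬ ∀ᵐ ω ∂P, CplJ (W ω) a r ∧ ∀ E ∈ B, ∀ φ : L2 d, IsEigen (W ω) E φ → φ = 0

end Pool.Agent.LE.CH
end
end -- Pool.Agent.LE.StmtsH

section -- Pool.Agent.Helper69_Mob.Cth

/-!
# Module CTH: the Combes-Thomas estimate
-/

set_option autoImplicit false

open MeasureTheory ProbabilityTheory Function

open scoped ENNReal BigOperators InnerProductSpace

noncomputable section

namespace Pool.Agent.Mob.H69

open Pool.Agent.Anderson Pool.Agent.Loc Pool.Agent.Helper54.Bal Pool.Agent.Mob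

variable {d : ℕ}

theorem norm_mulOp_le (m : Site d → ℂ) (M : ℝ) (hm : ∀ x, ‖m x‖ ≤ M) (f : L2 d) :
    ‖mulOp m M hm f‖ ≤ |M| * ‖f‖ := by
  refine ((mulOp m M hm).le_opNorm f).trans ?_
  apply mul_le_mul_of_nonneg_right _ (norm_nonneg f)
  exact LinearMap.mkContinuous_norm_le _ (abs_nonneg _) _

theorem ct_core (V : Site d → ℝ) {z : ℂ} {η : ℝ} (hη : 0 < η) (hz : z.im = η)
    (w : Site d → ℝ) (M q : ℝ) (hw : ∀ x, 0 < w x) (hM : ∀ x, w x ≤ M) (hq : 0 ≤ q)
    (hr : ∀ x y, sd x y ≤ 1 → |1 - w x / w y| ≤ q) (h2 : 2 * d * q ≤ η / 2) (hw0 : w 0 = 1)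
    (s : Finset (Site d)) :
    ∑ x ∈ s, w x ^ 2 * ‖G V z (del 0) x‖ ^ 2 ≤ 4 / η ^ 2 := by
  have hzi : z.im ≠ 0 := by rw [hz]; exact hη.ne'
  obtain ⟨g, hg⟩ : ∃ g : L2 d, g = G V z (del 0) := ⟨_, rfl⟩
  rw [← hg]
  have hb : ∀ x, ‖((w x : ℝ) : ℂ)‖ ≤ M := fun x => by
    rw [Complex.norm_real, Real.norm_of_nonneg (hw x).le]; exact hM x
  obtain ⟨v, hv⟩ : ∃ v : L2 d, v = mulOp (fun x => ((w x : ℝ) : ℂ)) M hb g := ⟨_, rfl⟩
  have hvx : ∀ x, v x = (w x : ℂ) * g x := fun x => by rw [hv]; exact mulOp_apply _ _ _ _ _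
  have hp : ∀ i : Fin d, ∀ x : Site d,
      ‖((1 - w x / w (x + Pi.single i 1) : ℝ) : ℂ)‖ ≤ q := fun i x => by
    rw [Complex.norm_real]; exact hr _ _ (sd_add_single_le x i)
  have hm : ∀ i : Fin d, ∀ x : Site d,
      ‖((1 - w x / w (x - Pi.single i 1) : ℝ) : ℂ)‖ ≤ q := fun i x => by
    rw [Complex.norm_real]; exact hr _ _ (sd_sub_single_le x i)
  obtain ⟨r, hrdef⟩ : ∃ r : L2 d, r = ∑ i : Fin d,
      (mulOp (fun x => ((1 - w x / w (x + Pi.single i 1) : ℝ) : ℂ)) q (hp i)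
        (shift (Pi.single i 1) v) +
      mulOp (fun x => ((1 - w x / w (x - Pi.single i 1) : ℝ) : ℂ)) q (hm i)
        (shift (-Pi.single i 1) v)) := ⟨_, rfl⟩
  have hrn : ‖r‖ ≤ η / 2 * ‖v‖ := by
    rw [hrdef]
    refine (norm_sum_le _ _).trans ?_
    calc _ ≤ ∑ _i : Fin d, 2 * q * ‖v‖ := by
          apply Finset.sum_le_sum
          intro i _
          refine (norm_add_le _ _).trans ?_
          have e1 := norm_mulOp_le _ q (hp i) (shift (Pi.single i 1) v)
          have e2 := norm_mulOp_le _ q (hm i) (shift (-Pi.single i 1) v)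
          rw [LinearIsometry.norm_map, abs_of_nonneg hq] at e1 e2
          linarith only [hp, hm, e1, e2]
      _ = 2 * d * q * ‖v‖ := by
          rw [Finset.sum_const, Finset.card_univ, Fintype.card_fin, nsmul_eq_mul]; ring
      _ ≤ _ := mul_le_mul_of_nonneg_right h2 (norm_nonneg v)
  have heq : v = G V z (del 0 + r) := by
    apply G_unique hzi
    intro x
    have e1 := G_eq (V := V) hzi (del (0 : Site d)) x
    rw [← hg] at e1
    have e2 : r x = lap v x - (w x : ℂ) * lap g x := by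
      rw [hrdef, coe_sum_apply]
      unfold lap
      rw [Finset.mul_sum, ← Finset.sum_sub_distrib]
      apply Finset.sum_congr rfl
      intro i _
      rw [lp.coeFn_add, Pi.add_apply, mulOp_apply, mulOp_apply, shift_apply, shift_apply,
        ← sub_eq_add_neg, hvx, hvx]
      have n1 : ((w (x + Pi.single i 1) : ℝ) : ℂ) ≠ 0 := by exact_mod_cast (hw _).ne'
      have n2 : ((w (x - Pi.single i 1) : ℝ) : ℂ) ≠ 0 := by exact_mod_cast (hw _).ne'
      push_cast
      field_simp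
      ring
    have e3 : (del (0 : Site d) : L2 d) x = (w x : ℂ) * (del (0 : Site d) : L2 d) x := by
      rw [del_apply]
      by_cases h : x = 0
      · subst h; rw [if_pos rfl, hw0]; simp
      · rw [if_neg h, mul_zero]
    rw [lp.coeFn_add, Pi.add_apply, e2, e3, ← e1, hvx]
    ring
  have hn : ‖v‖ ≤ 2 / η := by
    have e1 := (isRes_G V).norm_le hzi (del 0 + r)
    rw [← heq, hz, abs_of_pos hη] at e1
    have e2 := norm_add_le (del (0 : Site d)) r
    rw [norm_del] at e2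
    rw [le_div_iff₀ hη]
    nlinarith only [hrn, e1, e2]
  calc ∑ x ∈ s, w x ^ 2 * ‖g x‖ ^ 2 = ∑ x ∈ s, ‖v x‖ ^ 2 := by
        apply Finset.sum_congr rfl
        intro x _
        rw [hvx, norm_mul, mul_pow, Complex.norm_real, Real.norm_of_nonneg (hw x).le]
    _ ≤ ∑' x, ‖v x‖ ^ 2 := (L2.summable_sq v).sum_le_tsum s fun x _ => by positivity
    _ = ‖v‖ ^ 2 := (L2.norm_sq v).symm
    _ ≤ (2 / η) ^ 2 := pow_le_pow_left₀ (norm_nonneg v) hn 2
    _ = 4 / η ^ 2 := by ring

theorem abs_one_sub_exp_le (t : ℝ) : |1 - Real.exp t| ≤ Real.exp |t| - 1 := by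
  rcases le_total 0 t with h | h
  · have := Real.one_le_exp h
    rw [abs_of_nonneg h, abs_of_nonpos (by linarith)]
    linarith
  · have h1 : Real.exp t ≤ 1 := Real.exp_le_one_iff.2 h
    have h2 := Real.add_one_le_exp t
    have h3 := Real.add_one_le_exp (-t)
    rw [abs_of_nonpos h, abs_of_nonneg (by linarith)]
    linarith

/-- CTH -/
theorem cth : CthStmt := by
  intro d V η E a hη ha h2
  rw [ENNReal.tsum_eq_iSup_sum]
  apply iSup_le
  intro s
  obtain ⟨m, hm⟩ : ∃ m : ℕ, ∀ u ∈ s, sd 0 u ≤ m :=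
    ⟨s.sup fun u => sd 0 u, fun u hu => Finset.le_sup (f := fun u => sd 0 u) hu⟩
  have hcore := ct_core V hη (zz_im η E) (fun x => Real.exp (a * min (sd 0 x : ℝ) m))
    (Real.exp (a * m)) (Real.exp a - 1) (fun x => Real.exp_pos _)
    (fun x => Real.exp_le_exp.2 (mul_le_mul_of_nonneg_left (min_le_right _ _) ha))
    (by have := Real.one_le_exp ha; linarith only [this])
    (fun x y hxy => by
      rw [← Real.exp_sub, ← mul_sub]
      refine (abs_one_sub_exp_le _).trans ?_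
      have h1 : |a * (min (sd 0 x : ℝ) m - min (sd 0 y : ℝ) m)| ≤ a := by
        rw [abs_mul, abs_of_nonneg ha]
        have h3 : |min (sd 0 x : ℝ) m - min (sd 0 y : ℝ) m| ≤ 1 := by
          have h4 := abs_min_sub_min_le_max (sd 0 x : ℝ) m (sd 0 y : ℝ) m
          rw [sub_self, abs_zero, max_eq_left (abs_nonneg _)] at h4
          refine h4.trans ?_
          have h5 := sd_triangle 0 x y
          have h6 := sd_triangle 0 y x
          rw [sd_comm y x] at h6
          have h7 : (sd 0 x : ℝ) ≤ sd 0 y + 1 := by exact_mod_cast h6.trans (by omega)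
          have h8 : (sd 0 y : ℝ) ≤ sd 0 x + 1 := by exact_mod_cast h5.trans (by omega)
          rw [abs_le]
          constructor <;> linarith
        nlinarith only [ha, h3]
      have := Real.exp_le_exp.2 h1
      linarith only [this])
    h2 (by simp [sd_self]) s
  rw [← ENNReal.ofReal_sum_of_nonneg (fun u _ => by positivity)]
  apply ENNReal.ofReal_le_ofReal
  refine le_trans (le_of_eq ?_) hcore
  apply Finset.sum_congr rfl
  intro u hu
  have h1 : (sd 0 u : ℝ) ≤ m := by exact_mod_cast hm u hu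
  rw [min_eq_left h1, ← Real.exp_nat_mul]
  congr 2
  push_cast
  ring

end Pool.Agent.Mob.H69
end
end -- Pool.Agent.Helper69_Mob.Cth

section -- Pool.Agent.Helper47_Mob.Exp

/-!
# Module EXP: expansion of the finite volume resolvent in eigenvectors
-/

set_option autoImplicit false
set_option linter.unusedSectionVars false

open MeasureTheory ProbabilityTheory Function

open scoped ENNReal BigOperators InnerProductSpace

noncomputable section

namespace Pool.Agent.Mob.H47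

open Pool.Agent.Anderson Pool.Agent.Loc Pool.Agent.Helper54.Bal

variable {d : ℕ}

theorem hm_herm (V : Site d → ℝ) (Λ : Finset (Site d)) : (HM V Λ).IsHermitian := by
  unfold Matrix.IsHermitian
  rw [Matrix.conjTranspose_eq_transpose_of_trivial]
  exact HM_symm V Λ

/-- completeness of an orthonormal basis, in coordinates -/
theorem complete {n : Type*} [Fintype n] [DecidableEq n]
    (b : OrthonormalBasis n ℝ (EuclideanSpace ℝ n)) (x y : n) :
    ∑ j, b j x * b j y = if x = y then 1 else 0 := by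
  have h := b.sum_inner_mul_inner (EuclideanSpace.single x (1 : ℝ))
    (EuclideanSpace.single y (1 : ℝ))
  rw [EuclideanSpace.inner_single_left] at h
  have h2 : ∀ j, ⟪EuclideanSpace.single x (1 : ℝ), b j⟫_ℝ * ⟪b j, EuclideanSpace.single y (1 : ℝ)⟫_ℝ
      = b j x * b j y := by
    intro j
    rw [EuclideanSpace.inner_single_left, EuclideanSpace.inner_single_right]
    simp
  rw [Finset.sum_congr rfl fun j _ => h2 j] at h
  rw [h]
  simp

theorem exp_ : ExpStmt := by
  intro d V Λ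
  classical
  set b := (hm_herm V Λ).eigenvectorBasis with hb
  set ev := (hm_herm V Λ).eigenvalues with hev
  obtain ⟨φ, hin, hout⟩ : ∃ F : Λ → Site d → ℝ, (∀ j x, ∀ h : x ∈ Λ, F j x = b j ⟨x, h⟩) ∧
      ∀ j x, x ∉ Λ → F j x = 0 :=
    ⟨fun j x => if h : x ∈ Λ then b j ⟨x, h⟩ else 0, fun j x h => by simp [h],
      fun j x h => by simp [h]⟩
  have hcomp := complete b
  have heig : ∀ j, ∀ x : Λ, (HM V Λ).mulVec (b j) x = ev j * b j x := by
    intro j x
    have h1 := congrFun ((hm_herm V Λ).mulVec_eigenvectorBasis j) x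
    rw [← hb, ← hev] at h1
    rw [h1]
    simp
  refine ⟨ev, φ, fun j x hx => hout j x hx, ?_, ?_, ?_, ?_, ?_⟩
  · intro j
    have h1 := b.norm_eq_one j
    have h2 : ‖b j‖ ^ 2 = 1 := by rw [h1]; norm_num
    rw [EuclideanSpace.norm_sq_eq] at h2
    rw [← h2, ← Finset.sum_coe_sort Λ (fun x => φ j x ^ 2)]
    apply Finset.sum_congr rfl
    intro x _
    rw [hin j x x.2, Real.norm_eq_abs, sq_abs]
  · intro x hx
    have h1 := hcomp ⟨x, hx⟩ ⟨x, hx⟩
    rw [if_pos rfl] at h1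
    rw [← h1]
    apply Finset.sum_congr rfl
    intro j _
    rw [hin j x hx]
    ring
  · intro j x hx
    have h1 := heig j ⟨x, hx⟩
    rw [lap_eq_sum _ x (box x 1 ∪ Λ) Finset.subset_union_left,
      ← Finset.sum_subset (Finset.subset_union_right (s₁ := box x 1) (s₂ := Λ))]
    · have h2 : (HM V Λ).mulVec (b j) ⟨x, hx⟩ =
          (∑ y ∈ Λ, hop x y * φ j y) + V x * b j ⟨x, hx⟩ := by
        rw [← Finset.sum_coe_sort Λ (fun y => hop x y * φ j y)]
        simp only [Matrix.mulVec, dotProduct, HM, Matrix.of_apply]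
        have h3 : ∀ y : Λ, (hop x (y : Site d) + if (⟨x, hx⟩ : Λ) = y then V x else 0) *
            b j y = hop x (y : Site d) * φ j y +
              (if (⟨x, hx⟩ : Λ) = y then V x * b j ⟨x, hx⟩ else 0) := by
          intro y
          rw [hin j y y.2]
          by_cases h : (⟨x, hx⟩ : Λ) = y
          · subst h; simp; ring
          · simp [h]
        rw [Finset.sum_congr rfl fun y _ => h3 y, Finset.sum_add_distrib]
        simp
      rw [h2] at h1
      rw [hin j x hx]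
      have h4 := congrArg (fun t : ℝ => (t : ℂ)) h1
      push_cast at h4
      exact h4
    · intro y _ hy
      rw [hout j y hy]
      simp
  · intro E
    constructor
    · intro h0
      obtain ⟨v, hv, hv0⟩ := Matrix.exists_mulVec_eq_zero_iff.2 h0
      by_contra hc
      push Not at hc
      apply hv
      have hz : ∀ j, ∑ x, b j x * v x = 0 := by
        intro j
        have h1 : ∑ x, (HM V Λ).mulVec (b j) x * v x = ∑ x, b j x * (HM V Λ).mulVec v x := by
          have h2 : (HM V Λ).mulVec (b j) ⬝ᵥ v = (b j : Λ → ℝ) ⬝ᵥ (HM V Λ).mulVec v := by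
            rw [Matrix.dotProduct_mulVec, ← Matrix.mulVec_transpose, HM_symm]
          exact h2
        have h3 : ∀ x, (HM V Λ).mulVec v x = E * v x := by
          intro x
          have h4 := congrFun hv0 x
          unfold RM at h4
          rw [Matrix.sub_mulVec, Matrix.smul_mulVec, Matrix.one_mulVec] at h4
          simp only [Pi.sub_apply, Pi.smul_apply, smul_eq_mul, Pi.zero_apply] at h4
          linarith
        simp_rw [heig j, h3] at h1
        have h5 : (ev j - E) * ∑ x, b j x * v x = 0 := by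
          rw [Finset.mul_sum]
          have h6 : ∑ x, ev j * b j x * v x - ∑ x, b j x * (E * v x) = 0 := by
            rw [h1, sub_self]
          rw [← Finset.sum_sub_distrib] at h6
          rw [← h6]
          apply Finset.sum_congr rfl
          intro x _
          ring
        rcases mul_eq_zero.1 h5 with h6 | h6
        · exact absurd (by linarith) (hc j)
        · exact h6
      funext y
      have h7 : v y = ∑ x, (∑ j, b j x * b j y) * v x := by
        rw [Finset.sum_congr rfl fun x _ => by rw [hcomp x y]]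
        simp
      rw [h7]
      simp_rw [Finset.sum_mul]
      rw [Finset.sum_comm]
      rw [Pi.zero_apply]
      apply Finset.sum_eq_zero
      intro j _
      have h8 := hz j
      calc ∑ x, b j x * b j y * v x = b j y * ∑ x, b j x * v x := by
            rw [Finset.mul_sum]
            apply Finset.sum_congr rfl
            intro x _
            ring
        _ = 0 := by rw [h8, mul_zero]
    · rintro ⟨j, hj⟩
      apply Matrix.exists_mulVec_eq_zero_iff.1
      refine ⟨fun i => b j i, ?_, ?_⟩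
      · intro h0
        have h3 := b.norm_eq_one j
        have h4 : b j = 0 := by
          ext i
          exact congrFun h0 i
        rw [h4, norm_zero] at h3
        norm_num at h3
      · unfold RM
        rw [Matrix.sub_mulVec, Matrix.smul_mulVec, Matrix.one_mulVec, sub_eq_zero]
        funext i
        have h4 := heig j i
        rw [Pi.smul_apply, smul_eq_mul, ← hj]
        exact h4.symm
  · intro z hz x y
    by_cases hxy : x ∈ Λ ∧ y ∈ Λ
    · unfold gz
      rw [dif_pos hxy]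
      set N : Matrix Λ Λ ℂ := Matrix.of fun u w => ∑ j, ((b j u * b j w : ℝ) : ℂ) / (z - ev j)
        with hN
      have hmul : (z • (1 : Matrix Λ Λ ℂ) - HC V Λ) * N = 1 := by
        ext u w
        rw [Matrix.mul_apply]
        have h1 : ∀ v : Λ, (z • (1 : Matrix Λ Λ ℂ) - HC V Λ) u v * N v w =
            ∑ j, ((z • (1 : Matrix Λ Λ ℂ) - HC V Λ) u v * (b j v : ℂ)) *
              ((b j w : ℂ) / (z - ev j)) := by
          intro v
          rw [hN, Matrix.of_apply, Finset.mul_sum]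
          apply Finset.sum_congr rfl
          intro j _
          push_cast
          ring
        rw [Finset.sum_congr rfl fun v _ => h1 v, Finset.sum_comm]
        have h2 : ∀ j, ∑ v, (z • (1 : Matrix Λ Λ ℂ) - HC V Λ) u v * (b j v : ℂ) *
            ((b j w : ℂ) / (z - ev j)) = ((b j u * b j w : ℝ) : ℂ) := by
          intro j
          rw [← Finset.sum_mul]
          have h3 : ∑ v, (z • (1 : Matrix Λ Λ ℂ) - HC V Λ) u v * (b j v : ℂ) =
              (z - ev j) * (b j u : ℂ) := by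
            have h4 := congrArg (fun t : ℝ => (t : ℂ)) (heig j u)
            simp only [Matrix.mulVec, dotProduct] at h4
            push_cast at h4
            have h5 : ∀ v : Λ, (z • (1 : Matrix Λ Λ ℂ) - HC V Λ) u v * (b j v : ℂ) =
                (if u = v then z * (b j u : ℂ) else 0) - (HM V Λ u v : ℂ) * (b j v : ℂ) := by
              intro v
              rw [Matrix.sub_apply, Matrix.smul_apply, Matrix.one_apply, smul_eq_mul]
              unfold HC
              rw [Matrix.map_apply]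
              by_cases h : u = v
              · subst h; simp; ring
              · simp [h]
            rw [Finset.sum_congr rfl fun v _ => h5 v, Finset.sum_sub_distrib, h4]
            simp
            ring
          rw [h3]
          have h6 : z - (ev j : ℂ) ≠ 0 := sub_ne_zero.2 (hz j)
          push_cast
          field_simp
        rw [Finset.sum_congr rfl fun j _ => h2 j, ← Complex.ofReal_sum, hcomp u w,
          Matrix.one_apply]
        split_ifs <;> simp
      rw [Matrix.inv_eq_right_inv hmul, hN, Matrix.of_apply]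
      apply Finset.sum_congr rfl
      intro j _
      rw [hin j x hxy.1, hin j y hxy.2]
    · unfold gz
      rw [dif_neg hxy]
      symm
      apply Finset.sum_eq_zero
      intro j _
      rw [not_and_or] at hxy
      rcases hxy with h | h
      · rw [hout j x h]
        simp
      · rw [hout j y h]
        simp

end Pool.Agent.Mob.H47
end
end -- Pool.Agent.Helper47_Mob.Exp

section -- Pool.Agent.Helper25_LCH.WTQ

/-!
# Squad LCH, row WTQ: a vector with little mass in `[a - r, a + r]`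
-/

set_option autoImplicit false

open MeasureTheory ProbabilityTheory Function Filter

open scoped ENNReal BigOperators InnerProductSpace Topology

noncomputable section

namespace Pool.Agent.LE.CH.H25

open Pool.Agent.Anderson Pool.Agent.Loc Pool.Agent.Mob Pool.Agent.Helper54.Bal

variable {d : ℕ}

/-- the truncation of `u` to the cube, as a vector -/
def tr (n : ℕ) (u : L2 d) : L2 d := ∑ x ∈ box (0 : Site d) n, lp.single 2 x (u x)

theorem tr_apply (n : ℕ) (u : L2 d) (x : Site d) : tr n u x = cut n u x := by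
  unfold tr cut
  rw [coe_sum_apply]
  have h1 : ∀ y ∈ box (0 : Site d) n, (lp.single 2 y (u y) : L2 d) x =
      if x = y then u y else 0 := by
    intro y _
    rw [lp.single_apply, Pi.single_apply]
  rw [Finset.sum_congr rfl h1, Finset.sum_ite_eq]

theorem tendsto_tr (u : L2 d) : Tendsto (fun n : ℕ => tr n u) atTop (𝓝 u) := by
  have h := lp.hasSum_single (E := fun _ : Site d => ℂ) (p := 2) (by norm_num) u
  exact h.comp tendsto_box

theorem tendsto_sq (u : L2 d) :
    Tendsto (fun n : ℕ => ∑ x ∈ box (0 : Site d) n, ‖u x‖ ^ 2) atTop (𝓝 (‖u‖ ^ 2)) := by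
  rw [L2.norm_sq]
  exact (L2.summable_sq u).hasSum.comp tendsto_box

theorem sum_le (u : L2 d) (n : ℕ) : ∑ x ∈ box (0 : Site d) n, ‖u x‖ ^ 2 ≤ ‖u‖ ^ 2 := by
  rw [L2.norm_sq]
  exact (L2.summable_sq u).sum_le_tsum _ fun x _ => by positivity

/-- the Poisson kernel -/
def ker (η t E : ℝ) : ℝ := η / Real.pi / ((E - t) ^ 2 + η ^ 2)

theorem den_pos {η : ℝ} (hη : 0 < η) (t E : ℝ) : 0 < (E - t) ^ 2 + η ^ 2 := by positivity

theorem continuous_ker {η : ℝ} (hη : 0 < η) (t : ℝ) : Continuous (ker η t) := by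
  unfold ker
  refine Continuous.div continuous_const (by fun_prop) fun E => (den_pos hη t E).ne'

theorem norm_zz_sub (η t E : ℝ) : ‖zz η E - (t : ℂ)‖ ^ 2 = (E - t) ^ 2 + η ^ 2 := by
  have h : zz η E - (t : ℂ) = zz η (E - t) := by
    unfold zz
    push_cast
    ring
  rw [h, normSq_zz]

theorem wtq (fvw : FvwStmt) (fvg : FvgStmt) (pti : PtiStmt) : WtqStmt := by
  intro d V a r η u w hr hη hη1 hw
  set J : Set ℝ := Set.Icc (a - r) (a + r) with hJ
  -- the functions in finite volume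
  let F : ℕ → ℝ → ℝ := fun n E => ∑ x ∈ box (0 : Site d) n, ‖fv V n (zz η E) u x‖ ^ 2
  let A : ℕ → ℝ := fun n => ∑ x ∈ box (0 : Site d) n,
    ‖lap (cut n u) x + (V x : ℂ) * u x - (a : ℂ) * u x‖ ^ 2
  let S : ℕ → ℝ := fun n => ∑ x ∈ box (0 : Site d) n, ‖u x‖ ^ 2
  have hπ : 0 < η / Real.pi := div_pos hη Real.pi_pos
  have him : ∀ E : ℝ, (zz η E).im ≠ 0 := fun E => by simpa using hη.ne'
  have key : ∀ n : ℕ, (∀ E, F n E ≤ ‖u‖ ^ 2 / η ^ 2) ∧ Continuous (F n) ∧
      r ^ 2 * S n ≤ A n + (r ^ 2 + 3 * r) * √η * S n + r ^ 2 * ∫ E in J, η / Real.pi * F n E := by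
    intro n
    obtain ⟨p, lam, hp, hps, hF, hA⟩ := fvw d n V u
    have hF' : ∀ E, F n E = ∑ j, p j / ((E - lam j) ^ 2 + η ^ 2) := by
      intro E
      change ∑ x ∈ box (0 : Site d) n, ‖fv V n (zz η E) u x‖ ^ 2 = _
      rw [hF _ (him E)]
      exact Finset.sum_congr rfl fun j _ => by rw [norm_zz_sub]
    refine ⟨fun E => ?_, ?_, ?_⟩
    · rw [hF', div_eq_mul_inv]
      have h1 : ∀ j ∈ Finset.univ, p j / ((E - lam j) ^ 2 + η ^ 2) ≤ p j * (η ^ 2)⁻¹ := by
        intro j _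
        rw [div_eq_mul_inv]
        refine mul_le_mul_of_nonneg_left ?_ (hp j)
        apply inv_anti₀ (by positivity)
        nlinarith [sq_nonneg (E - lam j)]
      refine (Finset.sum_le_sum h1).trans ?_
      rw [← Finset.sum_mul, hps]
      exact mul_le_mul_of_nonneg_right (sum_le u n) (by positivity)
    · have h1 : F n = fun E => ∑ j, p j / ((E - lam j) ^ 2 + η ^ 2) := funext hF'
      rw [h1]
      refine continuous_finsetSum _ fun j _ => ?_
      exact Continuous.div continuous_const (by fun_prop) fun E => (den_pos hη _ E).ne'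
    · have h1 : ∀ j, r ^ 2 * p j ≤ p j * (lam j - a) ^ 2 + (r ^ 2 + 3 * r) * √η * p j +
          r ^ 2 * (p j * ∫ E in J, ker η (lam j) E) := by
        intro j
        have h2 := mul_le_mul_of_nonneg_left (pti a r η (lam j) hr hη hη1) (hp j)
        calc r ^ 2 * p j = p j * r ^ 2 := mul_comm _ _
          _ ≤ _ := h2
          _ = _ := by
            change _ = p j * (lam j - a) ^ 2 + (r ^ 2 + 3 * r) * √η * p j +
              r ^ 2 * (p j * ∫ E in Set.Icc (a - r) (a + r),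
                η / Real.pi / ((E - lam j) ^ 2 + η ^ 2))
            ring
      have h2 : ∫ E in J, η / Real.pi * F n E = ∑ j, p j * ∫ E in J, ker η (lam j) E := by
        have h3 : ∀ E, η / Real.pi * F n E = ∑ j, p j * ker η (lam j) E := by
          intro E
          rw [hF', Finset.mul_sum]
          refine Finset.sum_congr rfl fun j _ => ?_
          unfold ker
          ring
        simp_rw [h3]
        rw [integral_finsetSum]
        · refine Finset.sum_congr rfl fun j _ => ?_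
          rw [integral_const_mul]
        · intro j _
          exact ((continuous_ker hη (lam j)).const_mul (p j) |>.continuousOn).integrableOn_compact
            isCompact_Icc
      have h3 := Finset.sum_le_sum fun j (_ : j ∈ Finset.univ) => h1 j
      rw [Finset.sum_add_distrib, Finset.sum_add_distrib, ← Finset.mul_sum, ← Finset.mul_sum,
        ← Finset.mul_sum, ← h2, ← hA a, hps] at h3
      exact h3
  -- the limits
  have hS : Tendsto S atTop (𝓝 (‖u‖ ^ 2)) := tendsto_sq u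
  have hAB : ∀ n, A n ≤ ‖Lap d (tr n u) - Lap d u + (w - (a : ℂ) • u)‖ ^ 2 := by
    intro n
    refine le_trans (le_of_eq ?_) (sum_le _ n)
    refine Finset.sum_congr rfl fun x _ => ?_
    congr 2
    have h1 : lap (cut n u) x = Lap d (tr n u) x := by
      rw [Lap_apply]
      congr 1
      funext y
      exact (tr_apply n u y).symm
    rw [h1]
    simp only [lp.coeFn_add, lp.coeFn_sub, lp.coeFn_smul, Pi.add_apply, Pi.sub_apply,
      Pi.smul_apply, smul_eq_mul]
    rw [hw x, Lap_apply u]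
    ring
  have hB : Tendsto (fun n : ℕ => ‖Lap d (tr n u) - Lap d u + (w - (a : ℂ) • u)‖ ^ 2) atTop
      (𝓝 (‖w - (a : ℂ) • u‖ ^ 2)) := by
    have h1 : Tendsto (fun n : ℕ => Lap d (tr n u) - Lap d u + (w - (a : ℂ) • u)) atTop
        (𝓝 (Lap d u - Lap d u + (w - (a : ℂ) • u))) :=
      ((((Lap d).continuous.tendsto u).comp (tendsto_tr u)).sub_const _).add_const _
    rw [sub_self, zero_add] at h1
    exact (h1.norm).pow 2
  have hcG : Continuous fun E : ℝ => ‖G V (zz η E) u‖ ^ 2 := by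
    have h1 := continuous_G (d := d) hη.ne'
    have h2 : Continuous fun E : ℝ => ((V, E, u) : (Site d → ℝ) × ℝ × L2 d) := by fun_prop
    exact ((h1.comp h2).norm).pow 2
  have hI : Tendsto (fun n => ∫ E in J, η / Real.pi * F n E) atTop
      (𝓝 (∫ E in J, η / Real.pi * ‖G V (zz η E) u‖ ^ 2)) := by
    refine tendsto_integral_of_dominated_convergence (fun _ => η / Real.pi * (‖u‖ ^ 2 / η ^ 2))
      ?_ ?_ ?_ ?_
    · intro n
      exact ((key n).2.1.const_mul _).aestronglyMeasurable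
    · exact (continuous_const.continuousOn).integrableOn_compact isCompact_Icc
    · intro n
      refine Filter.Eventually.of_forall fun E => ?_
      have h1 : 0 ≤ F n E := Finset.sum_nonneg fun x _ => by positivity
      rw [Real.norm_eq_abs, abs_of_nonneg (mul_nonneg hπ.le h1)]
      exact mul_le_mul_of_nonneg_left ((key n).1 E) hπ.le
    · refine Filter.Eventually.of_forall fun E => ?_
      exact ((fvg d V (zz η E) u (him E)).2.1).const_mul _
  set I : ℝ := ∫ E in J, η / Real.pi * ‖G V (zz η E) u‖ ^ 2 with hIdef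
  have hlim : r ^ 2 * ‖u‖ ^ 2 ≤ ‖w - (a : ℂ) • u‖ ^ 2 + (r ^ 2 + 3 * r) * √η * ‖u‖ ^ 2 +
      r ^ 2 * I := by
    refine le_of_tendsto_of_tendsto' (hS.const_mul (r ^ 2))
      ((hB.add (hS.const_mul ((r ^ 2 + 3 * r) * √η))).add (hI.const_mul (r ^ 2))) fun n => ?_
    have h1 := (key n).2.2
    have h2 := hAB n
    linarith
  have hwt : wt V J η u = ENNReal.ofReal I := by
    unfold wt
    rw [hIdef, ofReal_integral_eq_lintegral_ofReal]
    · exact ((hcG.const_mul (η / Real.pi)).continuousOn).integrableOn_compact isCompact_Icc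
    · refine Filter.Eventually.of_forall fun E => ?_
      exact mul_nonneg hπ.le (by positivity)
  rw [hwt, ← ENNReal.ofReal_mul (by positivity), ← ENNReal.ofReal_add (by positivity) ?_]
  · exact ENNReal.ofReal_le_ofReal hlim
  · refine mul_nonneg (by positivity) ?_
    exact integral_nonneg fun E => mul_nonneg hπ.le (by positivity)

end Pool.Agent.LE.CH.H25
end
end -- Pool.Agent.Helper25_LCH.WTQ

section -- Pool.Agent.Helper35_LCH.Null

/-!
# No eigenvalue in the intersection of open sets of vanishing spectral measure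
-/

set_option autoImplicit false

open MeasureTheory ProbabilityTheory Function Filter

open scoped ENNReal BigOperators InnerProductSpace Topology

noncomputable section

namespace Pool.Agent.LE.CH.H35

open Pool.Agent.Anderson Pool.Agent.Loc Pool.Agent.Mob Pool.Agent.Helper54.Bal Pool.Agent.LE.CH

theorem exists_box {d : ℕ} (x : Site d) : ∃ n : ℕ, x ∈ box (0 : Site d) n := by
  refine ⟨∑ i, (x i).natAbs, ?_⟩
  rw [mem_box]
  refine Finset.sup_le fun i _ => ?_
  have h1 : (x i).natAbs ≤ ∑ i, (x i).natAbs :=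
    Finset.single_le_sum (f := fun i => (x i).natAbs) (fun j _ => Nat.zero_le _) (Finset.mem_univ i)
  have h2 : ((0 : Site d) i - x i).natAbs = (x i).natAbs := by
    rw [Pi.zero_apply, zero_sub, Int.natAbs_neg]
  rw [h2]
  exact h1

theorem nul (wte : WteStmt) : NulStmt := by
  intro d V U hU hS E hE φ hφ
  have key : ∀ x : Site d, φ x = 0 := by
    intro x
    obtain ⟨n, hn⟩ := exists_box x
    have hb : ∀ ε : ℝ, 0 < ε → ‖φ x‖ ^ 2 ≤ 2 * ‖φ‖ ^ 2 * ε := by
      intro ε hε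
      obtain ⟨k, hk⟩ := hS n ε hε
      obtain ⟨s, hs, hsU⟩ := Metric.isOpen_iff.1 (hU k) E (hE k)
      rw [Real.ball_eq_Ioo] at hsU
      have hev : ∀ᶠ m : ℕ in atTop, 1 / ((m : ℝ) + 1) ≤ s := by
        have h0 := (tendsto_one_div_add_atTop_nhds_zero_nat (𝕜 := ℝ)).eventually (gt_mem_nhds hs)
        exact h0.mono fun m hm => le_of_lt hm
      obtain ⟨m, hm1, hm2⟩ := (hk.and_eventually hev).exists
      have hη : (0 : ℝ) < 1 / ((m : ℝ) + 1) := by positivity
      have h1 := (wte d V (U k) (1 / ((m : ℝ) + 1)) s E φ hη hs hφ).2 hm2 hsU (del x)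
      have h2 : wt V (U k) (1 / ((m : ℝ) + 1)) (del x) ≤ ENNReal.ofReal ε := by
        refine le_trans ?_ (le_of_lt hm1)
        exact Finset.single_le_sum
          (f := fun x => wt V (U k) (1 / ((m : ℝ) + 1)) (del x)) (fun j _ => bot_le) hn
      have h3 : ENNReal.ofReal (‖⟪φ, del x⟫_ℂ‖ ^ 2) ≤ ENNReal.ofReal (2 * ‖φ‖ ^ 2 * ε) := by
        rw [ENNReal.ofReal_mul (by positivity)]
        exact h1.trans (by gcongr)
      rw [inner_del_right, RCLike.norm_conj] at h3
      exact (ENNReal.ofReal_le_ofReal_iff (by positivity)).1 h3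
    have h4 : ‖φ x‖ ^ 2 ≤ 0 := by
      refine le_of_forall_pos_le_add fun δ hδ => ?_
      have h5 := hb (δ / (2 * ‖φ‖ ^ 2 + 1)) (by positivity)
      have h6 : 2 * ‖φ‖ ^ 2 * (δ / (2 * ‖φ‖ ^ 2 + 1)) ≤ δ := by
        rw [← mul_div_assoc, div_le_iff₀ (by positivity)]
        nlinarith [sq_nonneg ‖φ‖]
      linarith
    have h7 : ‖φ x‖ = 0 := by nlinarith [norm_nonneg (φ x), sq_nonneg ‖φ x‖]
    exact norm_eq_zero.1 h7
  ext x
  rw [key x]
  rfl

end Pool.Agent.LE.CH.H35
end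
end -- Pool.Agent.Helper35_LCH.Null

section -- Pool.Agent.Helper3_LCH.SML

/-!
# Squad LCH, row SML: null sets of energies
-/

set_option autoImplicit false

open MeasureTheory ProbabilityTheory Function Filter

open scoped ENNReal BigOperators InnerProductSpace Topology

noncomputable section

namespace Pool.Agent.LE.CH.H3

open Pool.Agent.Anderson Pool.Agent.Loc Pool.Agent.Mob Pool.Agent.Helper54.Bal

theorem sml (hAvu : AvuStmt) (hMew : MewStmt) : SmlStmt := by
  intro d σ Z hσ hZ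
  have hex : ∀ k : ℕ, ∃ U : Set ℝ, Z ⊆ U ∧ IsOpen U ∧ volume U ≤ (1 / 2) ^ k := by
    intro k
    have h1 : volume Z < (1 / 2 : ℝ≥0∞) ^ k := by
      rw [hZ]
      exact ENNReal.pow_pos (by norm_num) k
    obtain ⟨U, hU1, hU2, hU3⟩ := Set.exists_isOpen_lt_of_lt Z _ h1
    exact ⟨U, hU1, hU2, hU3.le⟩
  choose U hZU hUo hUv using hex
  refine ⟨U, fun k => ⟨hUo k, hZU k⟩, ?_⟩
  have hη : ∀ m : ℕ, 0 < 1 / ((m : ℝ) + 1) := fun m => by positivity
  have hn : ∀ n : ℕ, ∀ᵐ V ∂(PP d (gl σ)), ∀ ε : ℝ, 0 < ε → ∃ k : ℕ, ∃ᶠ m : ℕ in atTop,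
      ∑ x ∈ box (0 : Site d) n, wt V (U k) (1 / ((m : ℝ) + 1)) (del x) < ENNReal.ofReal ε := by
    intro n
    obtain ⟨F, hF⟩ : ∃ F : ℕ → ℕ → (Site d → ℝ) → ℝ≥0∞, F = fun (k m : ℕ) V =>
      ∑ x ∈ box (0 : Site d) n, wt V (U k) (1 / ((m : ℝ) + 1)) (del x) := ⟨_, rfl⟩
    have hFm : ∀ k m, Measurable (F k m) := by
      intro k m
      rw [hF]
      exact Finset.measurable_sum _ fun x _ =>
        hMew d (U k) _ (del x) (hη m) (hUo k).measurableSet
    have hFi : ∀ k m, ∫⁻ V, F k m V ∂(PP d (gl σ)) ≤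
        ((box (0 : Site d) n).card * ENNReal.ofReal (1 / |σ|)) * (1 / 2) ^ k := by
      intro k m
      rw [hF]
      simp only []
      rw [lintegral_finset_sum _ fun x _ => hMew d (U k) _ (del x) (hη m) (hUo k).measurableSet]
      calc ∑ x ∈ box (0 : Site d) n,
            ∫⁻ V, wt V (U k) (1 / ((m : ℝ) + 1)) (del x) ∂(PP d (gl σ))
          ≤ ∑ x ∈ box (0 : Site d) n, ENNReal.ofReal (1 / |σ|) * volume (U k) :=
            Finset.sum_le_sum fun x _ => hAvu d σ _ (U k) x hσ (hη m) (hUo k).measurableSet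
        _ = ((box (0 : Site d) n).card * ENNReal.ofReal (1 / |σ|)) * volume (U k) := by
            rw [Finset.sum_const, nsmul_eq_mul, mul_assoc]
        _ ≤ _ := by gcongr; exact hUv k
    obtain ⟨L, hL⟩ : ∃ L : ℕ → (Site d → ℝ) → ℝ≥0∞, L = fun k V =>
      liminf (fun m => F k m V) atTop := ⟨_, rfl⟩
    have hLm : ∀ k, Measurable (L k) := by
      intro k
      rw [hL]
      exact Measurable.liminf fun m => hFm k m
    have hLi : ∀ k, ∫⁻ V, L k V ∂(PP d (gl σ)) ≤
        ((box (0 : Site d) n).card * ENNReal.ofReal (1 / |σ|)) * (1 / 2) ^ k := by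
      intro k
      rw [hL]
      refine (lintegral_liminf_le fun m => hFm k m).trans ?_
      refine liminf_le_of_le ?_ ?_
      · isBoundedDefault
      · intro b hb
        obtain ⟨m, hm⟩ := hb.exists
        exact hm.trans (hFi k m)
    have hsum : ∫⁻ V, ∑' k, L k V ∂(PP d (gl σ)) ≠ ⊤ := by
      rw [lintegral_tsum fun k => (hLm k).aemeasurable]
      refine ne_top_of_le_ne_top ?_ (ENNReal.tsum_le_tsum hLi)
      rw [ENNReal.tsum_mul_left]
      refine ENNReal.mul_ne_top (ENNReal.mul_ne_top (ENNReal.natCast_ne_top _)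
        ENNReal.ofReal_ne_top) ?_
      rw [ENNReal.tsum_geometric]
      refine ENNReal.inv_ne_top.2 ?_
      rw [one_div]
      have : (1 : ℝ≥0∞) - 2⁻¹ = 2⁻¹ := ENNReal.one_sub_inv_two
      rw [this]
      exact ENNReal.inv_ne_zero.2 ENNReal.ofNat_ne_top
    filter_upwards [ae_lt_top (Measurable.tsum hLm) hsum] with V hV
    intro ε hε
    have h1 := ENNReal.tendsto_atTop_zero_of_tsum_ne_top hV.ne
    have h2 : ∀ᶠ k in atTop, L k V < ENNReal.ofReal ε :=
      h1.eventually_lt_const (ENNReal.ofReal_pos.2 hε)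
    obtain ⟨k, hk⟩ := h2.exists
    refine ⟨k, ?_⟩
    rw [hL] at hk
    have h3 := frequently_lt_of_liminf_lt (by isBoundedDefault) hk
    rw [hF] at h3
    exact h3
  filter_upwards [ae_all_iff.2 hn] with V hV
  intro n ε hε
  exact hV n ε hε

end Pool.Agent.LE.CH.H3
end
end -- Pool.Agent.Helper3_LCH.SML

section -- Pool.Agent.Helper45_LCH.WTA

/-!
# Squad LCH, module WTA: the smoothed spectral measures of sums and multiples
-/

set_option autoImplicit false

open MeasureTheory ProbabilityTheory Function Filter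

open scoped ENNReal BigOperators InnerProductSpace Topology

noncomputable section

namespace Pool.Agent.LE.CH.H45

open Pool.Agent.Anderson Pool.Agent.Loc Pool.Agent.Mob Pool.Agent.Helper54.Bal

variable {d : ℕ}

theorem cont_G (d : ℕ) (η : ℝ) (u : L2 d) (hη : η ≠ 0) :
    Continuous fun p : (Site d → ℝ) × ℝ => ‖G p.1 (zz η p.2) u‖ ^ 2 := by
  have h := continuous_G (d := d) hη
  have h2 : Continuous fun p : (Site d → ℝ) × ℝ => ((p.1, p.2, u) : (Site d → ℝ) × ℝ × L2 d) := by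
    fun_prop
  have h3 := (h.comp h2).norm.pow 2
  exact h3

theorem meas_G01 (d : ℕ) (η : ℝ) (hη : η ≠ 0) (u : L2 d) :
    Measurable fun p : (Site d → ℝ) × ℝ => ‖G p.1 (zz η p.2) u‖ ^ 2 :=
  (cont_G d η u hη).measurable

theorem comp_left {A : Type} [MeasurableSpace A] (f : A × ℝ → ℝ) (h : Measurable f) (a : A) :
    Measurable fun E => f (a, E) := h.comp measurable_prodMk_left

theorem meas_G02 (d : ℕ) (V : Site d → ℝ) (η : ℝ) (hη : η ≠ 0) (u : L2 d) :
    Measurable fun E : ℝ => (fun p : (Site d → ℝ) × ℝ => ‖G p.1 (zz η p.2) u‖ ^ 2) (V, E) :=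
  comp_left _ (meas_G01 d η hη u) V

theorem meas_G03 (d : ℕ) (V : Site d → ℝ) (η : ℝ) (hη : η ≠ 0) (u : L2 d) :
    Measurable fun E : ℝ => ‖G V (zz η E) u‖ ^ 2 := by
  have h := meas_G02 d V η hη u
  exact h

theorem meas_G (V : Site d → ℝ) {η : ℝ} (hη : 0 < η) (u : L2 d) :
    Measurable fun E : ℝ => ENNReal.ofReal (η / Real.pi * ‖G V (zz η E) u‖ ^ 2) :=
  ((meas_G03 d V η hη.ne' u).const_mul _).ennreal_ofReal

theorem wta : WtaStmt := by
  intro d V S η hη
  have hc : (0 : ℝ) ≤ η / Real.pi := by positivity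
  refine ⟨fun u v => ?_, fun c u => ?_, fun n u => ?_⟩
  · unfold wt
    rw [← lintegral_const_mul _ (meas_G V hη u), ← lintegral_const_mul _ (meas_G V hη v),
      ← lintegral_add_left ((meas_G V hη u).const_mul _)]
    refine lintegral_mono fun E => ?_
    have h1 : ‖G V (zz η E) (u + v)‖ ^ 2 ≤
        2 * ‖G V (zz η E) u‖ ^ 2 + 2 * ‖G V (zz η E) v‖ ^ 2 := by
      rw [map_add]
      have h2 := norm_add_le (G V (zz η E) u) (G V (zz η E) v)
      have h3 := pow_le_pow_left₀ (norm_nonneg _) h2 2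
      nlinarith [sq_nonneg (‖G V (zz η E) u‖ - ‖G V (zz η E) v‖)]
    have h2 : ∀ x : ℝ, 2 * ENNReal.ofReal x = ENNReal.ofReal (2 * x) := fun x => by
      rw [ENNReal.ofReal_mul (by norm_num)]; simp
    show ENNReal.ofReal _ ≤ 2 * ENNReal.ofReal _ + 2 * ENNReal.ofReal _
    rw [h2, h2, ← ENNReal.ofReal_add (by positivity) (by positivity)]
    apply ENNReal.ofReal_le_ofReal
    calc η / Real.pi * ‖G V (zz η E) (u + v)‖ ^ 2 ≤
        η / Real.pi * (2 * ‖G V (zz η E) u‖ ^ 2 + 2 * ‖G V (zz η E) v‖ ^ 2) :=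
          mul_le_mul_of_nonneg_left h1 hc
      _ = _ := by ring
  · unfold wt
    rw [← lintegral_const_mul' _ _ ENNReal.ofReal_ne_top]
    refine lintegral_congr fun E => ?_
    rw [← ENNReal.ofReal_mul (by positivity), map_smul, norm_smul]
    congr 1
    ring
  · unfold wt
    rw [← lintegral_finsetSum _ fun x _ => meas_G V hη (del x),
      ← lintegral_const_mul' _ _ ENNReal.ofReal_ne_top]
    refine lintegral_mono fun E => ?_
    show ENNReal.ofReal _ ≤ ENNReal.ofReal _ * ∑ x ∈ box (0 : Site d) n, ENNReal.ofReal _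
    rw [← ENNReal.ofReal_sum_of_nonneg fun x _ => mul_nonneg hc (sq_nonneg _),
      ← ENNReal.ofReal_mul (by positivity)]
    apply ENNReal.ofReal_le_ofReal
    set g : Site d → ℝ := fun x => ‖G V (zz η E) (del x)‖ with hg
    have h1 : ‖G V (zz η E) (∑ x ∈ box (0 : Site d) n, u x • del x)‖ ≤
        ∑ x ∈ box (0 : Site d) n, ‖u x‖ * g x := by
      rw [map_sum]
      refine (norm_sum_le _ _).trans (Finset.sum_le_sum fun x _ => ?_)
      rw [map_smul, norm_smul]
    have h2 : (∑ x ∈ box (0 : Site d) n, ‖u x‖ * g x) ^ 2 ≤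
        (∑ x ∈ box (0 : Site d) n, ‖u x‖ ^ 2) * ∑ x ∈ box (0 : Site d) n, g x ^ 2 :=
      Finset.sum_mul_sq_le_sq_mul_sq _ _ _
    have h3 : ∑ x ∈ box (0 : Site d) n, ‖u x‖ ^ 2 ≤ ‖u‖ ^ 2 := by
      rw [L2.norm_sq]
      exact (L2.summable_sq u).sum_le_tsum _ fun x _ => sq_nonneg _
    have h4 : (0 : ℝ) ≤ ∑ x ∈ box (0 : Site d) n, g x ^ 2 :=
      Finset.sum_nonneg fun x _ => sq_nonneg _
    calc η / Real.pi * ‖G V (zz η E) (∑ x ∈ box (0 : Site d) n, u x • del x)‖ ^ 2
        ≤ η / Real.pi * (∑ x ∈ box (0 : Site d) n, ‖u x‖ * g x) ^ 2 :=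
          mul_le_mul_of_nonneg_left (pow_le_pow_left₀ (norm_nonneg _) h1 2) hc
      _ ≤ η / Real.pi * (‖u‖ ^ 2 * ∑ x ∈ box (0 : Site d) n, g x ^ 2) :=
          mul_le_mul_of_nonneg_left (h2.trans (mul_le_mul_of_nonneg_right h3 h4)) hc
      _ = ‖u‖ ^ 2 * ∑ x ∈ box (0 : Site d) n, η / Real.pi * g x ^ 2 := by
          rw [← Finset.mul_sum]
          ring

end Pool.Agent.LE.CH.H45
end
end -- Pool.Agent.Helper45_LCH.WTA

section -- Pool.Agent.Helper60_LCH.FVW

/-!
# Squad LCH, row FVW: the spectral decomposition of a vector in a cube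
-/

set_option autoImplicit false

open MeasureTheory ProbabilityTheory Function Filter

open scoped ENNReal BigOperators InnerProductSpace Topology

noncomputable section

namespace Pool.Agent.LE.CH.H60

open Pool.Agent.Anderson Pool.Agent.Loc Pool.Agent.Mob Pool.Agent.Helper54.Bal

variable {d : ℕ}

/-- Parseval, for a real orthonormal system and a complex vector. -/
theorem parseval {m : Type*} [Fintype m] [DecidableEq m] (F : m → m → ℝ)
    (h : ∀ x y, ∑ j, F j x * F j y = if x = y then 1 else 0) (w : m → ℂ) :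
    ∑ j, ‖∑ x, (F j x : ℂ) * w x‖ ^ 2 = ∑ x, ‖w x‖ ^ 2 := by
  have h1 : ((∑ j, ‖∑ x, (F j x : ℂ) * w x‖ ^ 2 : ℝ) : ℂ) = ((∑ x, ‖w x‖ ^ 2 : ℝ) : ℂ) := by
    push_cast
    have h2 : ∀ j, ((‖∑ x, (F j x : ℂ) * w x‖ : ℝ) : ℂ) ^ 2 =
        ∑ x, ∑ y, ((F j x * F j y : ℝ) : ℂ) * (starRingEnd ℂ (w x) * w y) := by
      intro j
      rw [← Complex.conj_mul', map_sum, Finset.sum_mul_sum]
      apply Finset.sum_congr rfl
      intro x _
      apply Finset.sum_congr rfl
      intro y _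
      rw [map_mul, Complex.conj_ofReal]
      push_cast
      ring
    rw [Finset.sum_congr rfl fun j _ => h2 j, Finset.sum_comm]
    apply Finset.sum_congr rfl
    intro x _
    rw [Finset.sum_comm]
    have h3 : ∀ y, ∑ j, ((F j x * F j y : ℝ) : ℂ) * (starRingEnd ℂ (w x) * w y) =
        if x = y then starRingEnd ℂ (w x) * w y else 0 := by
      intro y
      rw [← Finset.sum_mul, ← Complex.ofReal_sum, h x y]
      split_ifs <;> simp
    rw [Finset.sum_congr rfl fun y _ => h3 y, Finset.sum_ite_eq, if_pos (Finset.mem_univ _),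
      Complex.conj_mul']
  exact_mod_cast h1

theorem ortho {m : Type*} [Fintype m] [DecidableEq m]
    (b : OrthonormalBasis m ℝ (EuclideanSpace ℝ m)) (j k : m) :
    ∑ x, b j x * b k x = if j = k then 1 else 0 := by
  have h := (orthonormal_iff_ite.1 b.orthonormal) j k
  rw [← h, PiLp.inner_apply]
  apply Finset.sum_congr rfl
  intro x _
  simp [mul_comm]

/-- eigenvectors of `H_Λ` -/
theorem basis (V : Site d → ℝ) (Λ : Finset (Site d)) :
    ∃ (lam : Λ → ℝ) (F : Λ → Λ → ℝ),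
      (∀ x y, ∑ j, F j x * F j y = if x = y then 1 else 0) ∧
      (∀ j k, ∑ x, F j x * F k x = if j = k then 1 else 0) ∧
      ∀ j x, ∑ y, HM V Λ x y * F j y = lam j * F j x := by
  classical
  refine ⟨(H47.hm_herm V Λ).eigenvalues, fun j x => (H47.hm_herm V Λ).eigenvectorBasis j x,
    H47.complete _, ortho _, ?_⟩
  intro j x
  have h1 := congrFun ((H47.hm_herm V Λ).mulVec_eigenvectorBasis j) x
  simp only [Matrix.mulVec, dotProduct] at h1
  rw [h1]
  simp

theorem HM_comm (V : Site d → ℝ) (Λ : Finset (Site d)) (x y : Λ) : HM V Λ x y = HM V Λ y x := by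
  have h := congrFun (congrFun (HM_symm V Λ) y) x
  rw [Matrix.transpose_apply] at h
  exact h

/-- the resolvent -/
theorem gz_eq (V : Site d → ℝ) (Λ : Finset (Site d)) (lam : Λ → ℝ) (F : Λ → Λ → ℝ)
    (hrow : ∀ x y, ∑ j, F j x * F j y = if x = y then 1 else 0)
    (heig : ∀ j x, ∑ y, HM V Λ x y * F j y = lam j * F j x)
    (z : ℂ) (hz : ∀ j, z ≠ lam j) (x y : Λ) :
    gz V Λ z x y = ∑ j, ((F j x : ℂ) * (F j y : ℂ)) / (z - lam j) := by
  unfold gz
  rw [dif_pos ⟨x.2, y.2⟩]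
  set N : Matrix Λ Λ ℂ := Matrix.of fun u w => ∑ j, ((F j u : ℂ) * (F j w : ℂ)) / (z - lam j)
    with hN
  have hmul : (z • (1 : Matrix Λ Λ ℂ) - HC V Λ) * N = 1 := by
    ext u w
    rw [Matrix.mul_apply]
    have h1 : ∀ v : Λ, (z • (1 : Matrix Λ Λ ℂ) - HC V Λ) u v * N v w =
        ∑ j, ((z • (1 : Matrix Λ Λ ℂ) - HC V Λ) u v * (F j v : ℂ)) *
          ((F j w : ℂ) / (z - lam j)) := by
      intro v
      rw [hN, Matrix.of_apply, Finset.mul_sum]
      apply Finset.sum_congr rfl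
      intro j _
      ring
    rw [Finset.sum_congr rfl fun v _ => h1 v, Finset.sum_comm]
    have h2 : ∀ j, ∑ v, (z • (1 : Matrix Λ Λ ℂ) - HC V Λ) u v * (F j v : ℂ) *
        ((F j w : ℂ) / (z - lam j)) = ((F j u * F j w : ℝ) : ℂ) := by
      intro j
      rw [← Finset.sum_mul]
      have h3 : ∑ v, (z • (1 : Matrix Λ Λ ℂ) - HC V Λ) u v * (F j v : ℂ) =
          (z - lam j) * (F j u : ℂ) := by
        have h4 := congrArg (fun t : ℝ => (t : ℂ)) (heig j u)
        push_cast at h4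
        have h5 : ∀ v : Λ, (z • (1 : Matrix Λ Λ ℂ) - HC V Λ) u v * (F j v : ℂ) =
            (if u = v then z * (F j u : ℂ) else 0) - (HM V Λ u v : ℂ) * (F j v : ℂ) := by
          intro v
          rw [Matrix.sub_apply, Matrix.smul_apply, Matrix.one_apply, smul_eq_mul]
          unfold HC
          rw [Matrix.map_apply]
          by_cases h : u = v
          · subst h; simp; ring
          · simp [h]
        rw [Finset.sum_congr rfl fun v _ => h5 v, Finset.sum_sub_distrib, h4]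
        simp
        ring
      rw [h3]
      have h6 : z - (lam j : ℂ) ≠ 0 := sub_ne_zero.2 (hz j)
      push_cast
      field_simp
    rw [Finset.sum_congr rfl fun j _ => h2 j, ← Complex.ofReal_sum, hrow u w,
      Matrix.one_apply]
    split_ifs <;> simp
  rw [Matrix.inv_eq_right_inv hmul, hN, Matrix.of_apply]

theorem fvw : FvwStmt := by
  intro d n V u
  set Λ : Finset (Site d) := box (0 : Site d) n with hΛ
  obtain ⟨lam, F, hrow, hcol, heig⟩ := basis V Λ
  set c : Λ → ℂ := fun j => ∑ x : Λ, (F j x : ℂ) * u x with hc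
  refine ⟨fun j => ‖c j‖ ^ 2, lam, fun j => by positivity, ?_, ?_, ?_⟩
  · have h1 := parseval F hrow (fun x : Λ => u x)
    rw [← Finset.sum_coe_sort Λ (fun x => ‖u x‖ ^ 2)]
    exact h1
  · intro z hz
    have hzl : ∀ j, z ≠ lam j := by
      intro j h
      apply hz
      rw [h]
      exact Complex.ofReal_im _
    have h1 : ∀ x : Λ, fv V n z u x = ∑ j, (F j x : ℂ) * (c j / (z - lam j)) := by
      intro x
      unfold fv
      rw [← hΛ, ← Finset.sum_coe_sort Λ (fun y => gz V Λ z x y * u y)]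
      have h2 : ∀ y : Λ, gz V Λ z x y * u y =
          ∑ j, (F j x : ℂ) * ((F j y : ℂ) * u y / (z - lam j)) := by
        intro y
        rw [gz_eq V Λ lam F hrow heig z hzl x y, Finset.sum_mul]
        apply Finset.sum_congr rfl
        intro j _
        ring
      rw [Finset.sum_congr rfl fun y _ => h2 y, Finset.sum_comm]
      apply Finset.sum_congr rfl
      intro j _
      rw [← Finset.mul_sum, ← Finset.sum_div]
    rw [← Finset.sum_coe_sort Λ (fun x => ‖fv V n z u x‖ ^ 2)]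
    rw [Finset.sum_congr rfl fun (x : Λ) _ => by rw [h1 x]]
    have h2 := parseval (fun x j => F j x) hcol (fun j => c j / (z - lam j))
    rw [h2]
    apply Finset.sum_congr rfl
    intro j _
    rw [norm_div, div_pow]
  · intro a
    have h1 : ∀ x : Λ, lap (cut n u) x + (V x : ℂ) * u x = ∑ y : Λ, (HM V Λ x y : ℂ) * u y := by
      intro x
      rw [lap_eq_sum _ (x : Site d) (box (x : Site d) 1 ∪ Λ) Finset.subset_union_left,
        ← Finset.sum_subset (Finset.subset_union_right (s₁ := box (x : Site d) 1) (s₂ := Λ))]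
      · rw [← Finset.sum_coe_sort Λ (fun y => (hop x y : ℂ) * cut n u y)]
        have h3 : ∀ y : Λ, (HM V Λ x y : ℂ) * u y = (hop (x : Site d) y : ℂ) * cut n u y +
            if x = y then (V x : ℂ) * u x else 0 := by
          intro y
          have h4 : cut n u y = u y := by
            unfold cut
            rw [← hΛ, if_pos y.2]
          rw [h4]
          simp only [HM, Matrix.of_apply]
          by_cases h : x = y
          · subst h; simp; ring
          · simp [h]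
        rw [Finset.sum_congr rfl fun y _ => h3 y, Finset.sum_add_distrib]
        simp
      · intro y _ hy
        unfold cut
        rw [← hΛ, if_neg hy, mul_zero]
    rw [← Finset.sum_coe_sort Λ
      (fun x => ‖lap (cut n u) x + (V x : ℂ) * u x - (a : ℂ) * u x‖ ^ 2)]
    have h2 := parseval F hrow (fun x : Λ => lap (cut n u) x + (V x : ℂ) * u x - (a : ℂ) * u x)
    rw [← h2]
    apply Finset.sum_congr rfl
    intro j _
    have h3 : ∑ x : Λ, (F j x : ℂ) * (lap (cut n u) x + (V x : ℂ) * u x - (a : ℂ) * u x) =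
        ((lam j - a : ℝ) : ℂ) * c j := by
      have h4 : ∑ x : Λ, (F j x : ℂ) * (∑ y : Λ, (HM V Λ x y : ℂ) * u y) = (lam j : ℂ) * c j := by
        simp only [Finset.mul_sum]
        rw [Finset.sum_comm]
        simp only [hc, Finset.mul_sum]
        apply Finset.sum_congr rfl
        intro y _
        have h5 := congrArg (fun t : ℝ => (t : ℂ)) (heig j y)
        push_cast at h5
        have h6 : ∀ x : Λ, (F j x : ℂ) * ((HM V Λ x y : ℂ) * u y) =
            ((HM V Λ y x : ℂ) * (F j x : ℂ)) * u y := by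
          intro x
          rw [HM_comm V Λ x y]
          ring
        rw [Finset.sum_congr rfl fun x _ => h6 x, ← Finset.sum_mul, h5]
        ring
      have h5 : ∀ x : Λ, (F j x : ℂ) * (lap (cut n u) x + (V x : ℂ) * u x - (a : ℂ) * u x) =
          (F j x : ℂ) * (∑ y : Λ, (HM V Λ x y : ℂ) * u y) - (a : ℂ) * ((F j x : ℂ) * u x) := by
        intro x
        rw [h1 x]
        ring
      rw [Finset.sum_congr rfl fun x _ => h5 x, Finset.sum_sub_distrib, h4, ← Finset.mul_sum]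
      push_cast
      simp only [hc]
      ring
    rw [h3, norm_mul, mul_pow, Complex.norm_real, Real.norm_eq_abs, sq_abs]
    ring

end Pool.Agent.LE.CH.H60
end
end -- Pool.Agent.Helper60_LCH.FVW
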