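import Pool.Agent.Helper12_MEB.B019
import Pool.Agent.Helper12_MEB.B020
import Pool.Agent.Helper12_MEB.B029

/-!
# Merged copies (generated) of the modules

* `Pool.Agent.Helper25_Mob.Shf`
* `Pool.Agent.LE.StmtsH2`
* `Pool.Agent.AEN.Defs`
* `Pool.Agent.AEN.Stmts`
* `Pool.Agent.Helper97_ACE.Defs`
* `Pool.Agent.Helper62_LE.AVU`
* `Pool.Agent.Helper40_AEN.SPA`
* `Pool.Agent.Helper83_QE.Spec`
* `Pool.Agent.Helper97_ACE.Spec`
* `Pool.Agent.Helper97_ACE.Test`
* `Pool.Agent.Helper97_ACE.Det`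
* `Pool.Agent.Helper97_ACE.Main`
* `Pool.Agent.Helper69_LCH.CN2`
-/

set_option autoImplicit false

section -- Pool.Agent.Helper25_Mob.Shf

/-!
# SHF: measurability and shift invariance of the spreading
-/

set_option autoImplicit false

open MeasureTheory ProbabilityTheory Function

open scoped ENNReal BigOperators InnerProductSpace

noncomputable section

namespace Pool.Agent.Mob.H25

open Pool.Agent.Anderson Pool.Agent.Loc Pool.Agent.Helper54.Bal Pool.Agent.Mob

variable {d : ℕ}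

/-- translation covariance of the resolvent -/
theorem G_tau {V : Cfg d} {z : ℂ} (hz : z.im ≠ 0) (x u : Site d) :
    G (tau x V) z (del 0) u = G V z (del x) (u + x) := by
  have h : shift x (G V z (del x)) = G (tau x V) z (del 0) := by
    apply G_unique hz
    intro y
    have h1 := G_eq (V := V) hz (del x) (y + x)
    have h2 : lap (shift x (G V z (del x))) y = lap (G V z (del x)) (y + x) := by
      unfold lap
      apply Finset.sum_congr rfl
      intro i _
      rw [shift_apply, shift_apply]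
      have e1 : y + Pi.single i 1 + x = y + x + Pi.single i 1 := by abel
      have e2 : y - Pi.single i 1 + x = y + x - Pi.single i 1 := by abel
      rw [e1, e2]
    rw [h2, shift_apply]
    change lap (G V z (del x)) (y + x) + ((V (y + x) : ℂ) - z) * G V z (del x) (y + x) = _
    rw [h1, del_apply, del_apply]
    simp
  rw [← h, shift_apply]

theorem sd_add_self (x u : Site d) : sd x (u + x) = sd 0 u := by
  unfold sd
  congr 1
  funext i
  congr 1
  simp

theorem spr_tau (V : Cfg d) (x : Site d) {η : ℝ} (hη : η ≠ 0) (J : Set ℝ) (ℓ : ℕ) :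
    spr (tau x V) 0 η J ℓ = spr V x η J ℓ := by
  unfold spr
  refine lintegral_congr fun E => ?_
  rw [← (Equiv.addRight x).tsum_eq (fun u : Site d => if ℓ ≤ sd x u then
    ENNReal.ofReal (‖G V (zz η E) (del x) u‖ ^ 2) else 0)]
  refine tsum_congr fun u => ?_
  have hz : (zz η E).im ≠ 0 := by rw [zz_im]; exact hη
  rw [Equiv.coe_addRight, sd_add_self, G_tau hz]

theorem measurable_spr (x : Site d) {η : ℝ} (hη : η ≠ 0) (J : Set ℝ) (ℓ : ℕ) :
    Measurable (fun V : Site d → ℝ => spr V x η J ℓ) := by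
  unfold spr
  have hm : Measurable (fun p : (Site d → ℝ) × ℝ => ∑' u : Site d, if ℓ ≤ sd x u then
      ENNReal.ofReal (‖G p.1 (zz η p.2) (del x) u‖ ^ 2) else 0) := by
    refine Measurable.tsum fun u => ?_
    by_cases h : ℓ ≤ sd x u
    · simp only [h, if_true]
      refine ENNReal.measurable_ofReal.comp ?_
      have h0 : Continuous fun p : Cfg d × ℝ => (p.1, p.2, (del x : L2 d)) := by fun_prop
      have hc : Continuous fun p : Cfg d × ℝ => G p.1 (zz η p.2) (del x) := by
        have h3 := (continuous_G (d := d) hη).comp h0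
        exact h3
      have hc2 : Continuous fun p : (Site d → ℝ) × ℝ => G p.1 (zz η p.2) (del x) u := by
        have h3 : Continuous fun p : (Site d → ℝ) × ℝ =>
            ⟪(del u : L2 d), G p.1 (zz η p.2) (del x)⟫_ℂ := continuous_const.inner hc
        refine h3.congr fun p => ?_
        rw [inner_del_left]
      exact (hc2.norm.pow 2).measurable
    · simp only [h, if_false]
      exact measurable_const
  exact hm.lintegral_prod_right'

theorem shf : ShfStmt := by
  intro d ν _ η hη a b ℓ x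
  refine ⟨measurable_spr x hη _ ℓ, ?_⟩
  have h1 : ∀ V : Site d → ℝ, spr V x η (Set.Ioo a b) ℓ = spr (tau x V) 0 η (Set.Ioo a b) ℓ :=
    fun V => (spr_tau V x hη _ ℓ).symm
  rw [lintegral_congr h1]
  exact (shiftInv_PP ν x).lintegral_comp (measurable_spr 0 hη _ ℓ)

end Pool.Agent.Mob.H25
end
end -- Pool.Agent.Helper25_Mob.Shf

section -- Pool.Agent.LE.StmtsH2

/-!
# The localized region and the zeros of the Lyapunov exponent: the zero-one law
-/

set_option autoImplicit false

open MeasureTheory ProbabilityTheory Function Filter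

open scoped ENNReal BigOperators InnerProductSpace Topology

noncomputable section

namespace Pool.Agent.LE.CH

open Pool.Agent.Anderson Pool.Agent.Loc Pool.Agent.Mob Pool.Agent.Helper54.Bal

/-- ERG: the shifts of `ℤ^d` are ergodic for a product measure. Proof: `P = PP d ν`, `ε > 0`. By
`exists_measure_symmDiff_lt_of_generateFrom_isSetRing` (Mathlib, `MeasuredSets.lean`) with the
measurable cylinders (`generateFrom_measurableCylinders`, `isSetAlgebra_measurableCylinders`) there is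
a measurable `C` which depends only on the coordinates in a finite set `s` with
`P (A ∆ C) < ε`. Take `a` with `s` and `s + a` disjoint (`a = k e_1`, `k` large; `d ≥ 1`). Then
`tau a ⁻¹' C` depends on the coordinates in `s + a`, so `C` and `tau a ⁻¹' C` are independent
(`iIndepFun` of the coordinates, `iIndepFun_infinitePi`, `iIndepFun.indepFun_finset`), and
`P (tau a ⁻¹' C) = P C` (`shiftInv_PP`). As `A = A ∩ tau a ⁻¹' A`, `|P A - (P C)²| ≤ 2 ε` and
`|P A - P C| ≤ ε`, so `|P A - (P A)²| ≤ 4 ε`. -/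
def ErgStmt : Prop :=
  ∀ (d : ℕ) (ν : Measure ℝ) [IsProbabilityMeasure ν] (A : Set (Site d → ℝ)), 1 ≤ d →
    MeasurableSet A → (∀ a : Site d, tau a ⁻¹' A = A) → PP d ν A = 0 ∨ PP d ν A = 1

/-- CN2: the strong form of `CnvStmt` (replaces it). Proof: `P' = PP d (gl σ)`, `η_m = 1 / (m + 1)`,
`f V = limsup_m wt V B η_m (del 0)`, measurable (`MewStmt`), at most `1` (`WtlStmt`).
(1) `∫⁻ f ∂P' ≥ limsup_m ∫⁻ wt V B η_m (del 0) ≥ c volume B > 0` (reverse Fatou,
`limsup_lintegral_le`; `AvlStmt`).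
(2) `wt V B η (del a) = wt (tau a V) B η (del 0)` (`G_tau` in `Helper25_Mob/Shf.lean`: `G (tau a V) z
(del 0)` is the translate of `G V z (del a)`, `G_unique`). The set
`A = {V | ∀ a, f (tau a V) = 0}` is measurable and invariant, so `P' A ∈ {0, 1}` (`ErgStmt`). If
`P' A = 1` then `f = 0` almost surely, which contradicts (1). So `P' A = 0`.
(3) If `CplJ (W ω) a r` and there is no eigenvalue in `B` then `W ω ∈ A` (`LimStmt` for all `del x`).
`P (W ⁻¹' A) = P' A = 0`. -/
def Cn2Stmt.{u} : Prop :=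
  ∀ (d : ℕ) (σ a r : ℝ) (B : Set ℝ), 1 ≤ d → σ ≠ 0 → IsClosed B → 0 < r →
    B ⊆ Set.Icc (a - r / 2) (a + r / 2) → 0 < volume B →
    ∀ (Ω : Type u) [MeasurableSpace Ω] (P : Measure Ω) [IsProbabilityMeasure P]
      (W : Ω → Site d → ℝ), Measurable W → P.map W = PP d (gl σ) →
      ∀ᵐ ω ∂P, ¬ (CplJ (W ω) a r ∧ ∀ E ∈ B, ∀ φ : L2 d, IsEigen (W ω) E φ → φ = 0)

end Pool.Agent.LE.CH
end
end -- Pool.Agent.LE.StmtsH2

section -- Pool.Agent.AEN.Defs

/-!
# Anderson model: the cheap end, definitions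

If for almost every energy `E` of an interval the Green vectors `G (E + i η) δ_0` are unbounded as
`η → 0` with positive probability, then almost surely there is no eigenvalue in the interval.
-/

set_option autoImplicit false

open MeasureTheory ProbabilityTheory Function Filter

open scoped ENNReal BigOperators InnerProductSpace Topology

noncomputable section

namespace Pool.Agent.AEN

open Pool.Agent.Anderson Pool.Agent.Loc Pool.Agent.Helper54.Bal

variable {d : ℕ}

/-- the scale `η_n = 1 / (n + 1)` -/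
def et (n : ℕ) : ℝ := 1 / ((n : ℝ) + 1)

theorem et_pos (n : ℕ) : 0 < et n := by unfold et; positivity

theorem et_le_one (n : ℕ) : et n ≤ 1 := by
  unfold et
  rw [div_le_one (by positivity)]
  have : (0 : ℝ) ≤ n := Nat.cast_nonneg n
  linarith

theorem tendsto_et : Tendsto et atTop (𝓝 0) := tendsto_one_div_add_atTop_nhds_zero_nat

/-- the point `E + i η_n` -/
def zn (E : ℝ) (n : ℕ) : ℂ := zz (et n) E

theorem zn_im (E : ℝ) (n : ℕ) : (zn E n).im = et n := zz_im _ _

theorem zn_im_ne (E : ℝ) (n : ℕ) : (zn E n).im ≠ 0 := by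
  rw [zn_im]; exact (et_pos n).ne'

/-- the vector `G (E + i η_n) δ_x` -/
def Gn (V : Site d → ℝ) (E : ℝ) (n : ℕ) (x : Site d) : L2 d := G V (zn E n) (del x)

/-- the vectors `G (E + i η_n) δ_x` are bounded -/
def Bd (V : Site d → ℝ) (E : ℝ) (x : Site d) : Prop := ∃ C : ℝ, ∀ n : ℕ, ‖Gn V E n x‖ ≤ C

/-- the Green function `G (E + i η_n; x, y)` tends to zero -/
def Lm (V : Site d → ℝ) (E : ℝ) (x y : Site d) : Prop :=
  Tendsto (fun n : ℕ => Gn V E n x y) atTop (𝓝 0)

/-- the ratio `|G_00|² / ‖G δ_0‖²` (it does not depend on `V 0`) -/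
def fr (V : Site d → ℝ) (E : ℝ) (n : ℕ) : ℝ := ‖Gn V E n 0 0‖ ^ 2 / ‖Gn V E n 0‖ ^ 2

/-- the constant of the spectral averaging -/
def cs (σ : ℝ) : ℝ := Real.pi / |σ|

/-- `E[η_n |G_00|²]` -/
def JJ (d : ℕ) (σ E : ℝ) (n : ℕ) : ℝ≥0∞ :=
  ∫⁻ V : Site d → ℝ, ENNReal.ofReal (et n * ‖Gn V E n 0 0‖ ^ 2) ∂(PP d (gl σ))

/-- `∫_(a,b) η_n |G_00|² dE` -/
def II (V : Site d → ℝ) (a b : ℝ) (n : ℕ) : ℝ≥0∞ :=
  ∫⁻ E in Set.Ioo a b, ENNReal.ofReal (et n * ‖Gn V E n 0 0‖ ^ 2)

end Pool.Agent.AEN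
end
end -- Pool.Agent.AEN.Defs

section -- Pool.Agent.AEN.Stmts

/-!
# Anderson model: the cheap end, statements

Useful lemmas: `G_upd`, `G_upd'`, `G_symm`, `im_G_del'`, `norm_G_del_pos`, `G_del_ne`
(`Helper54_QE/Rank.lean`, namespace `Pool.Agent.QE`); `G_eq`, `G_unique`, `isRes_G`, `G_update_del`,
`continuous_G` (`Helper54_Ballistic/Ell.lean`); `IsRes.ident_apply`, `im_inner`, `norm_le'`
(`Res.lean`); `shiftInv_PP`, `resamp_PP`, `measurable_upd` (`Law.lean`); `tau` (`Cov.lean`);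
`inner_del_left`, `shift`, `shift_apply` (`Helper17_Anderson/Ell2.lean`); `G_tau`
(`Helper25_Mob/Shf.lean`).
-/

set_option autoImplicit false

open MeasureTheory ProbabilityTheory Function Filter

open scoped ENNReal BigOperators InnerProductSpace Topology

noncomputable section

namespace Pool.Agent.AEN

open Pool.Agent.Anderson Pool.Agent.Loc Pool.Agent.Helper54.Bal

/-- MON. Proof: `g = G (zz b E) f`, `h = G (zz a E) f`. `h - g = (zz a E - zz b E) • G (zz a E) g`
(`(isRes_G V).ident_apply`), so `h = g - (i (b - a)) • k`, `k = G (zz a E) g`, and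
`‖h‖² = ‖g‖² + 2 (b - a) im ⟪g, k⟫ + (b - a)² ‖k‖²` with `im ⟪g, k⟫ = a ‖k‖²`
(`(isRes_G V).im_inner`). -/
def MonStmt : Prop :=
  ∀ (d : ℕ) (V : Site d → ℝ) (E : ℝ) (f : L2 d) (a b : ℝ), 0 < a → a ≤ b →
    ‖G V (zz b E) f‖ ≤ ‖G V (zz a E) f‖

/-- TWO. Proof: `V' = update V y s`. `G_upd` at `y`: `G V z δ_x = G V' z δ_x +
((s - V y) (G V' z δ_x) y) • G V z δ_y`, so `|s - V y| |(G V' z δ_x) y| ‖G V z δ_y‖ ≤ C`. By MON
(`et` is decreasing) `‖Gn V E n y‖` is monotone in `n`, it is unbounded, so it tends to infinity. -/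
def TwoStmt : Prop :=
  ∀ (d : ℕ) (V : Site d → ℝ) (E : ℝ) (x y : Site d) (s : ℝ), s ≠ V y →
    Bd V E x → Bd (Function.update V y s) E x → ¬ Bd V E y → Lm (Function.update V y s) E x y

/-- MEA. Proof: for fixed `n` the map `V ↦ Gn V E n x` is continuous (`continuous_G`), so is
`V ↦ Gn V E n x y = ⟪del y, Gn V E n x⟫`. `Bd`: the union over `C ∈ ℕ` of the intersection over `n`;
`Lm`: `measurableSet_tendsto`. -/
def MeaStmt : Prop :=
  ∀ (d : ℕ) (E : ℝ) (x y : Site d), MeasurableSet {V : Site d → ℝ | Bd V E x} ∧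
    MeasurableSet {V : Site d → ℝ | Lm V E x y}

/-- TRA. Proof: `G (tau a V) z (del x) = shift a (G V z (del (x + a)))` by `G_unique` and `G_eq`, as
in `G_tau` (there `x = 0`); `shift a` is an isometry. -/
def TraStmt : Prop :=
  ∀ (d : ℕ) (V : Site d → ℝ) (E : ℝ) (a x y : Site d),
    (Bd (tau a V) E x ↔ Bd V E (x + a)) ∧ (Lm (tau a V) E x y ↔ Lm V E (x + a) (y + a))

/-- ASL (uses TWO, MEA, TRA). Proof: countably many `x, y`; by `shiftInv_PP` (`tau y`) and TRA it is
enough to take `y = 0`. The set `N = {V | Bd V E x ∧ ¬ Bd V E 0 ∧ ¬ Lm V E x 0}` is measurable. If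
`update V 0 s ∈ N` and `update V 0 t ∈ N` then `s = t` (TWO for `update V 0 s` and `t`), so
`{s | update V 0 s ∈ N}` has at most one point and measure zero. By `resamp_PP` (the law of
`update V 0 s` is `PP d ν`) `PP d ν N = 0`. -/
def AslStmt : Prop :=
  ∀ (d : ℕ) (ν : Measure ℝ) [IsProbabilityMeasure ν] [NullSingletonClass ν] (E : ℝ),
    ∀ᵐ V ∂(PP d ν), ∀ x y : Site d, Bd V E x → ¬ Bd V E y → Lm V E x y

/-- CON: the lattice is connected. -/
def ConStmt : Prop :=
  ∀ (d : ℕ) (P : Site d → Prop), (∀ (x : Site d) (i : Fin d), P x ↔ P (x + Pi.single i 1)) →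
    ∀ x y : Site d, P x ↔ P y

/-- DET (uses CON). Proof: otherwise (CON) there are neighbours `x'` with `¬ Bd V E x'` and `x₁` with
`Bd V E x₁`. Let `f = ∑ (x ~ x', Bd x) del x` (a finite sum, over `i` and the sign as in `lap`) and
`g n = G V (zn E n) f = ∑ (x ~ x', Bd x) Gn V E n x`. Claim: `g n y → 0` for every `y`. If `¬ Bd y`:
the hypothesis for every `x`. If `Bd y`: `Gn x y = Gn y x` (`G_symm`), and `G_eq` for `del y` at the
point `x' ≠ y` says `∑ (x ~ x') Gn y x = -(V x' - z) Gn y x'`, where `Gn y x' → 0` and `Gn y x → 0`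
for the neighbours with `¬ Bd x`; so `∑ (x ~ x', Bd x) Gn y x → 0`. Now `G_eq` for `f` at the point
`x₁`: `lap (g n) x₁ + (V x₁ - z) g n x₁ = f x₁`, so `f x₁ = 0`, but `f x₁` is a positive integer. -/
def DetStmt : Prop :=
  ∀ (d : ℕ) (V : Site d → ℝ) (E : ℝ), (∀ x y : Site d, Bd V E x → ¬ Bd V E y → Lm V E x y) →
    (∀ x, Bd V E x) ∨ ∀ x, ¬ Bd V E x

/-- ZON (uses ASL, DET, MEA, TRA, `LE.CH.ErgStmt`). Proof: the set `A = {V | ∀ x, Bd V E x}` is
measurable (MEA) and invariant (TRA), so its measure is 0 or 1. It is not 1 by the hypothesis. By ASL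
and DET almost surely `V ∈ A` or `∀ x, ¬ Bd V E x`. (`gl σ` has no atoms for `σ ≠ 0`.) -/
def ZonStmt : Prop :=
  ∀ (d : ℕ) (σ E : ℝ), 1 ≤ d → σ ≠ 0 → PP d (gl σ) {V | ¬ Bd V E 0} ≠ 0 →
    ∀ᵐ V ∂(PP d (gl σ)), ∀ x : Site d, ¬ Bd V E x

/-- SPA: spectral averaging. Proof: `g = G V z (del 0) 0`, `z = zz η E`; `G_upd'` gives
`G (update V 0 s) z (del 0) 0 = g / (1 + (s - V 0) g) = 1 / (s + w)`, `w = 1 / g - V 0`,
`im w = - im g / |g|² < 0`, so the imaginary part is `y / ((s + x)² + y²)`, `y = - im w`,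
`x = re w`, with integral `π` over `s` (`integral_poisson`), and the density of `gl σ` is at most
`1 / (√(2π) |σ|) ≤ 1 / |σ|` (see `bddDens_gl` in `Helper48_Loc/GaussLaw.lean`: `gl σ` is
`gaussianReal 0 σ²`). -/
def SpaStmt : Prop :=
  ∀ (d : ℕ) (σ E η : ℝ) (V : Site d → ℝ), σ ≠ 0 → 0 < η →
    ∫⁻ s, ENNReal.ofReal (G (Function.update V 0 s) (zz η E) (del 0) 0).im ∂(gl σ) ≤
      ENNReal.ofReal (cs σ)

/-- RAT (uses MON). Proof: `V' = update V 0 s`. By `G_update_del` the vectors `G V' z δ_0` and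
`G V z δ_0` are proportional (and not 0), which gives (1). (2) `G_upd` at 0, evaluated at 0:
`g = g' + (s - V 0) g' g` with `g = Gn V 0 0`, `g' = Gn V' 0 0`, so
`|s - V 0| |g| |g'| ≤ |g| + |g'|`; with `|g| = √F ‖Gn V 0‖`, `|g'| = √F ‖Gn V' 0‖` (the same `F = fr`)
this gives `|s - V 0| √F ≤ 1 / ‖Gn V 0‖ + 1 / ‖Gn V' 0‖ → 0` (both norms tend to infinity by MON). -/
def RatStmt : Prop :=
  ∀ (d : ℕ) (V : Site d → ℝ) (E s : ℝ),
    (∀ n, fr (Function.update V 0 s) E n = fr V E n) ∧
    (s ≠ V 0 → ¬ Bd V E 0 → ¬ Bd (Function.update V 0 s) E 0 → Tendsto (fr V E) atTop (𝓝 0))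

/-- DCY (uses SPA, RAT). Proof: `et n ‖Gn 0 0‖² = fr V E n * im (Gn 0 0)` (`im_G_del'`). By
`resamp_PP` and RAT (1), `JJ = ∫⁻ V, ofReal (fr V E n) * (∫⁻ s, ofReal (im ..) ∂ gl σ) ≤
ofReal (cs σ) * ∫⁻ V, ofReal (fr V E n)`, and `fr ≤ 1`. If `¬ Bd V E 0` almost surely, then (by
`resamp_PP`) for almost every `V` for almost every `s` also `¬ Bd (update V 0 s) E 0` and `s ≠ V 0`
(no atoms), so `fr V E n → 0` almost surely and `∫⁻ fr → 0` by dominated convergence. -/
def DcyStmt : Prop :=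
  ∀ (d : ℕ) (σ E : ℝ), σ ≠ 0 → (∀ n, JJ d σ E n ≤ ENNReal.ofReal (cs σ)) ∧
    ((∀ᵐ V ∂(PP d (gl σ)), ¬ Bd V E 0) → Tendsto (JJ d σ E) atTop (𝓝 0))

/-- EIG. Proof: `φ = G V z ((E0 - z) φ)` (`G_unique`), so `⟪φ, G V z δ_0⟫ = conj (φ 0) / (E0 - z)`
(adjoint of the resolvent, or `⟪star φ, ..⟫` and symmetry), hence
`|φ 0| / |E0 - z| ≤ ‖φ‖ ‖G V z δ_0‖`. With `z = E + i η`, `|E - E0| ≤ η`: `|E0 - z|² ≤ 2 η²`, so
`|G_00| ≥ im G_00 = η ‖G δ_0‖² ≥ |φ 0|² / (2 η ‖φ‖²)`, `η |G_00|² ≥ |φ 0|⁴ / (4 η ‖φ‖⁴)` on an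
interval of length `2 η` which is contained in `(a, b)` for small `η`. -/
def EigStmt : Prop :=
  ∀ (d : ℕ) (V : Site d → ℝ) (a b E0 : ℝ) (φ : L2 d), a < E0 → E0 < b → IsEigen V E0 φ → φ ≠ 0 →
    ∀ᶠ n in atTop, ENNReal.ofReal (‖φ 0‖ ^ 4 / (2 * ‖φ‖ ^ 4)) ≤ II V a b n

/-- FTU (uses DCY). Proof: Fatou (`lintegral_liminf_le`, `V ↦ II V a b n` is measurable by
`continuous_G` and `Measurable.lintegral_prod_right'`), Tonelli: `∫⁻ V, II V a b n =
∫⁻ E in Ioo a b, JJ d σ E n → 0` by DCY and dominated convergence. -/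
def FtuStmt : Prop :=
  ∀ (d : ℕ) (σ a b : ℝ), σ ≠ 0 →
    (∀ᵐ E ∂((volume : Measure ℝ).restrict (Set.Ioo a b)), ∀ᵐ V ∂(PP d (gl σ)), ¬ Bd V E 0) →
    ∀ᵐ V ∂(PP d (gl σ)), liminf (fun n => II V a b n) atTop = 0

/-- END (uses ZON, FTU, EIG). Proof: by ZON the hypothesis of FTU holds; by `shiftInv_PP` almost
surely `liminf II (tau x V) a b n = 0` for all `x`. If `φ` is an eigenvector of `V` then `shift x φ`
is one of `tau x V`, and by EIG `(shift x φ) 0 = φ x = 0`. -/
def EndStmt : Prop :=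
  ∀ (d : ℕ) (σ a b : ℝ), 1 ≤ d → σ ≠ 0 →
    (∀ᵐ E ∂((volume : Measure ℝ).restrict (Set.Ioo a b)), PP d (gl σ) {V | ¬ Bd V E 0} ≠ 0) →
    ∀ᵐ V ∂(PP d (gl σ)), ∀ E0 : ℝ, a < E0 → E0 < b → ∀ φ : L2 d, IsEigen V E0 φ → φ = 0

/-- POS (uses MON, MEA). Proof: `im G_00 = η ‖G δ_0‖²` (`im_G_del'`), so by MON the event is
contained in `{V | ∃ n, A ≤ ‖Gn V E n 0‖²}` (take `et n ≤ η`), whose probability is at least `p` for
every `A`; these sets decrease in `A` with intersection `{¬ Bd}` (continuity from above,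
`tendsto_measure_iInter_atTop` or `measure_iInter_eq_iInf`). -/
def PosStmt : Prop :=
  ∀ (d : ℕ) (σ E : ℝ) (p : ℝ≥0∞),
    (∀ A : ℝ, ∃ η : ℝ, 0 < η ∧ p ≤ PP d (gl σ) {V | A * η ≤ (G V (zz η E) (del 0) 0).im}) →
    p ≤ PP d (gl σ) {V | ¬ Bd V E 0}

/-- EN2 (uses END, POS). -/
def En2Stmt : Prop :=
  ∀ (d : ℕ) (σ a b : ℝ), 1 ≤ d → σ ≠ 0 →
    (∀ᵐ E ∂((volume : Measure ℝ).restrict (Set.Ioo a b)), ∃ p : ℝ≥0∞, p ≠ 0 ∧
      ∀ A : ℝ, ∃ η : ℝ, 0 < η ∧ p ≤ PP d (gl σ) {V | A * η ≤ (G V (zz η E) (del 0) 0).im}) →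
    ∀ᵐ V ∂(PP d (gl σ)), ∀ E0 : ℝ, a < E0 → E0 < b → ∀ φ : L2 d, IsEigen V E0 φ → φ = 0

end Pool.Agent.AEN
end
end -- Pool.Agent.AEN.Stmts

section -- Pool.Agent.Helper97_ACE.Defs

/-!
# The absolutely continuous end on `ℤ^d`: definitions and statement

If for every energy `E` of an interval the imaginary part of the Green function
`G_00 (E + i η)` is bounded below, with a probability bounded below, along one sequence `η → 0`, then
almost surely the spectrum of the Anderson Hamiltonian `Δ + V` (Gaussian potential) in the interval is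
purely absolutely continuous and fills the interval.
-/

set_option autoImplicit false

open MeasureTheory ProbabilityTheory Filter

open scoped InnerProductSpace ENNReal Topology

noncomputable section

namespace Pool.Agent.ACE

open Pool.Agent.Anderson Pool.Agent.Loc Pool.Agent.Helper54.Bal

variable {d : ℕ}

/-- `m` is the spectral measure of the vector `u` for `Δ + V` (`G V z` is the resolvent
`(Δ + V - z)⁻¹`); the same as `Pool.Agent.SPX.SpecM`. -/
def RepM (V : Site d → ℝ) (u : L2 d) (m : Measure ℝ) : Prop :=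
  IsFiniteMeasure m ∧ ∀ z : ℂ, z.im ≠ 0 → ⟪u, G V z u⟫_ℂ = ∫ t : ℝ, ((t : ℂ) - z)⁻¹ ∂m

/-- The spectrum of `Δ + V` in `(a, b)` is purely absolutely continuous and fills `(a, b)`: every
vector has a spectral measure; all spectral measures vanish on the Lebesgue null subsets of `(a, b)`,
and the spectral measure of each `δ_x` is equivalent to the Lebesgue measure on `(a, b)`. -/
def ACIn (V : Site d → ℝ) (a b : ℝ) : Prop :=
  (∀ u : L2 d, ∃ m : Measure ℝ, RepM V u m) ∧
  (∀ (u : L2 d) (m : Measure ℝ), RepM V u m → ∀ N ⊆ Set.Ioo a b, volume N = 0 → m N = 0) ∧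
  ∀ (x : Site d) (m : Measure ℝ), RepM V (del x) m → ∀ N ⊆ Set.Ioo a b, m N = 0 → volume N = 0

/-- ACE: the absolutely continuous end. -/
def AceStmt : Prop :=
  ∀ (d : ℕ) (σ a b : ℝ), 1 ≤ d → σ ≠ 0 →
    (∃ η : ℕ → ℝ, (∀ n, 0 < η n) ∧ Tendsto η atTop (𝓝 0) ∧
      ∀ᵐ E ∂((volume : Measure ℝ).restrict (Set.Ioo a b)), ∃ (c : ℝ) (p : ℝ≥0∞), 0 < c ∧ p ≠ 0 ∧
        ∀ᶠ n in atTop, p ≤ PP d (gl σ) {V | c ≤ (G V (zz (η n) E) (del 0) 0).im}) →
    ∀ᵐ V ∂(PP d (gl σ)), ACIn V a b

end Pool.Agent.ACE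
end
end -- Pool.Agent.Helper97_ACE.Defs

section -- Pool.Agent.Helper62_LE.AVU

/-!
# AVU: the mean of the smoothed spectral measure of `δ_x` is at most `|S| / |σ|` (Wegner)
-/

set_option autoImplicit false

open MeasureTheory ProbabilityTheory Function Filter

open scoped ENNReal BigOperators InnerProductSpace Topology

noncomputable section

namespace Pool.Agent.LE.CH.H62

open Pool.Agent.Anderson Pool.Agent.Loc Pool.Agent.Mob Pool.Agent.Helper54.Bal

variable {d : ℕ}

theorem zne {η : ℝ} (hη : 0 < η) (E : ℝ) : (zz η E).im ≠ 0 := by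
  rw [zz_im]; exact hη.ne'

/-- the integrand -/
def FF0 (η : ℝ) (u : L2 d) (V : Site d → ℝ) (E : ℝ) : ℝ≥0∞ :=
  ENNReal.ofReal (η / Real.pi * ‖G V (zz η E) u‖ ^ 2)

theorem meas_FF0 {η : ℝ} (hη : 0 < η) (u : L2 d) :
    Measurable fun p : (Site d → ℝ) × ℝ => FF0 η u p.1 p.2 := by
  unfold FF0
  have h := (sm_G (d := d) (Ω := (Site d → ℝ) × ℝ) hη.ne' measurable_fst measurable_snd
    (stronglyMeasurable_const (b := u))).norm.measurable
  exact ((h.pow_const 2).const_mul _).ennreal_ofReal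

theorem meas_wt {η : ℝ} (hη : 0 < η) (S : Set ℝ) (u : L2 d) :
    Measurable fun V : Site d → ℝ => wt V S η u :=
  (meas_FF0 hη u).lintegral_prod_right' (ν := volume.restrict S)

theorem norm_G_del (V : Site d → ℝ) {z : ℂ} (hz : z.im ≠ 0) (x : Site d) :
    ‖G V z (del x)‖ = ‖G (tau x V) z (del 0)‖ := by
  have h : shift x (G V z (del x)) = G (tau x V) z (del 0) := by
    apply G_unique hz
    intro y
    have h1 := G_eq (V := V) hz (del x) (y + x)
    have h2 : lap (shift x (G V z (del x))) y = lap (G V z (del x)) (y + x) := by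
      unfold lap
      refine Finset.sum_congr rfl fun i _ => ?_
      rw [shift_apply, shift_apply, add_right_comm y (Pi.single i 1) x, sub_add_eq_add_sub]
    have h3 : (del x : L2 d) (y + x) = del (0 : Site d) y := by
      rw [del_apply, del_apply]
      simp
    rw [h2, shift_apply, ← h3, ← h1]
    rfl
  rw [← h, LinearIsometry.norm_map]

theorem wt_del (V : Site d → ℝ) (S : Set ℝ) {η : ℝ} (hη : 0 < η) (x : Site d) :
    wt V S η (del x) = wt (tau x V) S η (del 0) := by
  unfold wt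
  refine lintegral_congr fun E => ?_
  rw [norm_G_del V (zne hη E) x]

/-! ### the law `gl σ` -/

theorem lintegral_gl_le {σ : ℝ} (hσ : σ ≠ 0) {f : ℝ → ℝ≥0∞} (hf : Measurable f) :
    ∫⁻ s, f s ∂(gl σ) ≤ ENNReal.ofReal (1 / |σ|) * ∫⁻ s, f s := by
  have h1 : gl σ = gaussianReal 0 (.mk (σ ^ 2) (sq_nonneg _)) := by
    unfold gl γ1
    rw [gaussianReal_map_const_mul, mul_zero, mul_one]
  have hv : (NNReal.mk (σ ^ 2) (sq_nonneg _)) ≠ 0 := by
    intro h
    have : σ ^ 2 = 0 := congrArg NNReal.toReal h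
    exact hσ (by simpa using this)
  rw [h1, gaussianReal_of_var_ne_zero _ hv,
    lintegral_withDensity_eq_lintegral_mul _ (measurable_gaussianPDF _ _) hf,
    ← lintegral_const_mul _ hf]
  refine lintegral_mono fun x => ?_
  change gaussianPDF 0 (.mk (σ ^ 2) (sq_nonneg _)) x * f x ≤ _
  gcongr
  unfold gaussianPDF
  apply ENNReal.ofReal_le_ofReal
  unfold gaussianPDFReal
  have e1 : Real.exp (-(x - 0) ^ 2 / (2 * ((NNReal.mk (σ ^ 2) (sq_nonneg _) : NNReal) : ℝ))) ≤
      1 := by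
    rw [Real.exp_le_one_iff]
    have : 0 ≤ (x - 0) ^ 2 / (2 * σ ^ 2) := by positivity
    change -(x - 0) ^ 2 / (2 * σ ^ 2) ≤ 0
    rw [neg_div]
    linarith
  have e2 : (√(2 * Real.pi * ((NNReal.mk (σ ^ 2) (sq_nonneg _) : NNReal) : ℝ)))⁻¹ ≤
      1 / |σ| := by
    rw [← one_div]
    apply one_div_le_one_div_of_le (by positivity)
    rw [← Real.sqrt_sq_eq_abs]
    apply Real.sqrt_le_sqrt
    change σ ^ 2 ≤ 2 * Real.pi * σ ^ 2
    have := Real.pi_gt_three
    nlinarith [sq_nonneg σ]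
  calc _ ≤ 1 / |σ| * 1 := mul_le_mul e2 e1 (Real.exp_pos _).le (by positivity)
    _ = _ := mul_one _

theorem lintegral_poisson {b : ℝ} (hb : 0 < b) (a : ℝ) :
    ∫⁻ s : ℝ, ENNReal.ofReal (1 / Real.pi * (b / ((s + a) ^ 2 + b ^ 2))) = 1 := by
  have h0 : ∀ s : ℝ, ENNReal.ofReal (1 / Real.pi * (b / ((s + a) ^ 2 + b ^ 2))) =
      (fun t : ℝ => ENNReal.ofReal (1 / Real.pi * (b / (t ^ 2 + b ^ 2)))) (s + a) := fun _ => rfl
  rw [lintegral_congr h0, lintegral_add_right_eq_self (μ := volume)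
    (fun t : ℝ => ENNReal.ofReal (1 / Real.pi * (b / (t ^ 2 + b ^ 2)))) a,
    ← ofReal_integral_eq_lintegral_ofReal, integral_const_mul, (integral_poisson hb).2]
  · rw [one_div, inv_mul_cancel₀ Real.pi_ne_zero, ENNReal.ofReal_one]
  · exact (integral_poisson hb).1.const_mul _
  · exact ae_of_all _ fun s => by positivity

/-! ### one site -/

/-- the Green function at the origin, as a function of the potential at the origin -/
theorem one_site (V : Site d → ℝ) {η : ℝ} (hη : 0 < η) (E : ℝ) :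
    ∃ a b : ℝ, 0 < b ∧ ∀ s : ℝ, FF0 η (del 0) (Function.update V 0 s) E =
      ENNReal.ofReal (1 / Real.pi * (b / ((s + a) ^ 2 + b ^ 2))) := by
  set V₀ := Function.update V 0 0 with hV₀
  have hz := zne hη E
  set z := zz η E with hzd
  set g : ℂ := G V₀ z (del 0) 0 with hg
  have hgi : 0 < g.im := by
    rw [hg, im_G_del hz, hzd, zz_im]
    have h1 : G V₀ z (del (0 : Site d)) ≠ 0 := by
      intro h
      have h2 := G_eq (V := V₀) hz (del (0 : Site d)) 0
      rw [h, ← Lap_apply, map_zero, del_apply] at h2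
      simp at h2
    have h3 : 0 < ‖G V₀ z (del (0 : Site d))‖ := norm_pos_iff.2 h1
    positivity
  have hg0 : g ≠ 0 := by
    intro h; rw [h] at hgi; simp at hgi
  have hns : 0 < Complex.normSq g := Complex.normSq_pos.2 hg0
  refine ⟨(g⁻¹).re, g.im / Complex.normSq g, by positivity, fun s => ?_⟩
  have hup : Function.update V 0 s = Function.update V₀ 0 s := by
    rw [hV₀, Function.update_idem]
  set gs : ℂ := G (Function.update V₀ 0 s) z (del 0) 0 with hgs
  have h1 : gs = (1 - (s : ℂ) * gs) * g := by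
    have h := congrArg (fun f : L2 d => f 0) (G_update_del (V := V₀) hz s)
    simp only [lp.coeFn_smul, Pi.smul_apply, smul_eq_mul] at h
    have h0 : V₀ 0 = 0 := by rw [hV₀, Function.update_self]
    rw [mf, h0, Complex.ofReal_zero, sub_zero] at h
    exact h
  have h2 : gs * ((s : ℂ) + g⁻¹) = 1 := by
    have h3 : gs * g⁻¹ = 1 - (s : ℂ) * gs := by
      nth_rewrite 1 [h1]
      rw [mul_assoc, mul_inv_cancel₀ hg0, mul_one]
    rw [mul_add, h3]; ring
  have h3 : (s : ℂ) + g⁻¹ ≠ 0 := by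
    intro h; rw [h, mul_zero] at h2; exact zero_ne_one h2
  have h4 : gs = ((s : ℂ) + g⁻¹)⁻¹ := eq_inv_of_mul_eq_one_left h2
  have h5 : gs.im = g.im / Complex.normSq g /
      ((s + (g⁻¹).re) ^ 2 + (g.im / Complex.normSq g) ^ 2) := by
    rw [h4, Complex.inv_im, Complex.add_im, Complex.ofReal_im, zero_add, Complex.inv_im,
      Complex.normSq_apply ((s : ℂ) + g⁻¹), Complex.add_re, Complex.ofReal_re, Complex.add_im,
      Complex.ofReal_im, zero_add, Complex.inv_im]
    congr 1
    · ring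
    · ring
  have h6 : gs.im = η * ‖G (Function.update V₀ 0 s) z (del (0 : Site d))‖ ^ 2 := by
    rw [hgs, im_G_del hz, hzd, zz_im]
  rw [hup, ← h5, h6]
  have h7 : 1 / Real.pi * (η * ‖G (Function.update V₀ 0 s) z (del (0 : Site d))‖ ^ 2) =
      η / Real.pi * ‖G (Function.update V₀ 0 s) z (del (0 : Site d))‖ ^ 2 := by ring
  rw [h7]
  rfl

theorem mean_FF0_le {σ η : ℝ} (hσ : σ ≠ 0) (hη : 0 < η) (E : ℝ) :
    ∫⁻ V, FF0 η (del (0 : Site d)) V E ∂(PP d (gl σ)) ≤ ENNReal.ofReal (1 / |σ|) := by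
  have hp : Measurable fun V : Site d → ℝ => ((V, E) : (Site d → ℝ) × ℝ) :=
    measurable_id.prodMk measurable_const
  have hm : Measurable fun V : Site d → ℝ => FF0 η (del (0 : Site d)) V E :=
    Measurable.comp (f := fun V : Site d → ℝ => ((V, E) : (Site d → ℝ) × ℝ))
      (g := fun p : (Site d → ℝ) × ℝ => FF0 η (del (0 : Site d)) p.1 p.2)
      (meas_FF0 hη (del (0 : Site d))) hp
  have hR : Resamp (PP d (gl σ)) (gl σ) := resamp_PP (gl σ)
  have hc : Measurable fun p : Cfg d × ℝ =>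
      FF0 η (del (0 : Site d)) (Function.update p.1 0 p.2) E :=
    Measurable.comp (f := fun p : Cfg d × ℝ => Function.update p.1 (0 : Site d) p.2)
      (g := fun V : Site d → ℝ => FF0 η (del (0 : Site d)) V E) hm measurable_upd
  have e0 : ∫⁻ V, FF0 η (del (0 : Site d)) V E ∂(PP d (gl σ)) =
      ∫⁻ p : Cfg d × ℝ, FF0 η (del (0 : Site d)) (Function.update p.1 0 p.2) E
        ∂((PP d (gl σ)).prod (gl σ)) :=
    (MeasurePreserving.lintegral_comp hR hm).symm
  rw [e0, lintegral_prod _ hc.aemeasurable]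
  have h1 : ∀ V : Site d → ℝ, ∫⁻ s, FF0 η (del (0 : Site d)) (Function.update V 0 s) E ∂(gl σ) ≤
      ENNReal.ofReal (1 / |σ|) := by
    intro V
    obtain ⟨a, b, hb, h⟩ := one_site V hη E
    rw [lintegral_congr h]
    refine (lintegral_gl_le hσ ?_).trans ?_
    · fun_prop
    · rw [lintegral_poisson hb a, mul_one]
  calc ∫⁻ V, ∫⁻ s, FF0 η (del (0 : Site d)) (Function.update V 0 s) E ∂(gl σ) ∂(PP d (gl σ))
      ≤ ∫⁻ _V, ENNReal.ofReal (1 / |σ|) ∂(PP d (gl σ)) := lintegral_mono h1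
    _ = ENNReal.ofReal (1 / |σ|) := by
      rw [lintegral_const, measure_univ, mul_one]

/-- **AVU**. -/
theorem avu : AvuStmt := by
  intro d σ η S x hσ hη hS
  have e1 : ∫⁻ V, wt V S η (del x) ∂(PP d (gl σ)) =
      ∫⁻ V, wt V S η (del (0 : Site d)) ∂(PP d (gl σ)) := by
    have h := MeasurePreserving.lintegral_comp (shiftInv_PP (d := d) (gl σ) x)
      (meas_wt hη S (del (0 : Site d)))
    rw [← h]
    exact lintegral_congr fun V => wt_del V S hη x
  rw [e1]
  have e2 : ∫⁻ V, wt V S η (del (0 : Site d)) ∂(PP d (gl σ)) =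
      ∫⁻ E in S, ∫⁻ V, FF0 η (del (0 : Site d)) V E ∂(PP d (gl σ)) :=
    lintegral_lintegral_swap (meas_FF0 hη (del (0 : Site d))).aemeasurable
  rw [e2]
  calc ∫⁻ E in S, ∫⁻ V, FF0 η (del (0 : Site d)) V E ∂(PP d (gl σ))
      ≤ ∫⁻ _E in S, ENNReal.ofReal (1 / |σ|) := lintegral_mono fun E => mean_FF0_le hσ hη E
    _ = ENNReal.ofReal (1 / |σ|) * volume S := by
      rw [setLIntegral_const]

end Pool.Agent.LE.CH.H62
end
end -- Pool.Agent.Helper62_LE.AVU

section -- Pool.Agent.Helper40_AEN.SPA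

/-! Row SPA of squad AEN: spectral averaging (helper40). -/

set_option autoImplicit false

open MeasureTheory ProbabilityTheory Function Filter

open scoped ENNReal BigOperators InnerProductSpace Topology

noncomputable section

namespace Pool.Agent.AEN.H40

open Pool.Agent.Anderson Pool.Agent.Loc Pool.Agent.Helper54.Bal
open Pool.Agent.LE.CH.H62 (FF0 one_site lintegral_gl_le lintegral_poisson zne)

theorem spa : SpaStmt := by
  intro d σ E η V hσ hη
  obtain ⟨a, b, hb, h⟩ := one_site V hη E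
  have h1 : ∀ s : ℝ, ENNReal.ofReal (G (Function.update V 0 s) (zz η E) (del 0) 0).im =
      ENNReal.ofReal Real.pi *
        ENNReal.ofReal (1 / Real.pi * (b / ((s + a) ^ 2 + b ^ 2))) := by
    intro s
    rw [← h s, FF0, ← ENNReal.ofReal_mul Real.pi_pos.le, im_G_del (zne hη E), zz_im]
    congr 1
    field_simp
  rw [lintegral_congr h1, lintegral_const_mul _ (by fun_prop)]
  have h2 : ∫⁻ s, ENNReal.ofReal (1 / Real.pi * (b / ((s + a) ^ 2 + b ^ 2))) ∂(gl σ) ≤
      ENNReal.ofReal (1 / |σ|) := by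
    refine (lintegral_gl_le hσ (by fun_prop)).trans ?_
    rw [lintegral_poisson hb a, mul_one]
  calc ENNReal.ofReal Real.pi *
        ∫⁻ s, ENNReal.ofReal (1 / Real.pi * (b / ((s + a) ^ 2 + b ^ 2))) ∂(gl σ)
      ≤ ENNReal.ofReal Real.pi * ENNReal.ofReal (1 / |σ|) := by gcongr
    _ = ENNReal.ofReal (cs σ) := by
        rw [← ENNReal.ofReal_mul Real.pi_pos.le, cs]
        congr 1
        ring

end Pool.Agent.AEN.H40
end
end -- Pool.Agent.Helper40_AEN.SPA

section -- Pool.Agent.Helper83_QE.Spec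

/-!
# Module SPEC: the spectral measure of a delta function
-/

set_option autoImplicit false
set_option linter.unusedSectionVars false

open scoped InnerProductSpace ComplexConjugate Topology ENNReal
open MeasureTheory Filter

noncomputable section

namespace Pool.Agent.QE

open Pool.Agent.Anderson Pool.Agent.Helper54.Bal

variable {d : ℕ}

/-- the composition with the inclusion of the reals -/
def cplx {X : Type*} [TopologicalSpace X] (f : C(X, ℝ)) : C(X, ℂ) :=
  ⟨fun x => (f x : ℂ), Complex.continuous_ofReal.comp f.continuous⟩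

/-- a measure representing the diagonal matrix elements of the continuous functional calculus of a
normal operator -/
theorem exists_measure_cfc {H : Type} [NormedAddCommGroup H] [InnerProductSpace ℂ H]
    [CompleteSpace H] (U : H →L[ℂ] H) (hU : IsStarNormal U) (ψ : H) :
    ∃ m : Measure (spectrum ℂ U), IsFiniteMeasure m ∧
      ∀ f : C(spectrum ℂ U, ℂ), ⟪ψ, cfcHom hU f ψ⟫_ℂ = ∫ x, f x ∂m := by
  have hpos : ∀ f : C(spectrum ℂ U, ℝ), (∀ x, 0 ≤ f x) →
      0 ≤ (⟪ψ, cfcHom hU (cplx f) ψ⟫_ℂ).re := by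
    intro f hf
    let g : C(spectrum ℂ U, ℝ) := ⟨fun x => Real.sqrt (f x), by fun_prop⟩
    have hg : cplx f = star (cplx g) * cplx g := by
      ext x
      simp only [ContinuousMap.mul_apply, ContinuousMap.star_apply]
      change ((f x : ℝ) : ℂ) = conj ((Real.sqrt (f x) : ℝ) : ℂ) * ((Real.sqrt (f x) : ℝ) : ℂ)
      rw [Complex.conj_ofReal, ← Complex.ofReal_mul, Real.mul_self_sqrt (hf x)]
    rw [hg, map_mul, map_star]
    have : ⟪ψ, (star (cfcHom hU (cplx g)) * cfcHom hU (cplx g)) ψ⟫_ℂ =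
        ⟪cfcHom hU (cplx g) ψ, cfcHom hU (cplx g) ψ⟫_ℂ := by
      rw [ContinuousLinearMap.star_eq_adjoint]
      change ⟪ψ, ContinuousLinearMap.adjoint (cfcHom hU (cplx g)) (cfcHom hU (cplx g) ψ)⟫_ℂ = _
      rw [ContinuousLinearMap.adjoint_inner_right]
    rw [this]
    exact inner_self_nonneg (𝕜 := ℂ) (x := cfcHom hU (cplx g) ψ)
  have himag : ∀ f : C(spectrum ℂ U, ℝ), (⟪ψ, cfcHom hU (cplx f) ψ⟫_ℂ).im = 0 := by
    intro f
    have hs : star (cplx f) = cplx f := by
      ext x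
      exact Complex.conj_ofReal _
    have h1 : star (cfcHom hU (cplx f)) = cfcHom hU (cplx f) := by
      rw [← map_star, hs]
    have h2 : conj ⟪ψ, cfcHom hU (cplx f) ψ⟫_ℂ = ⟪ψ, cfcHom hU (cplx f) ψ⟫_ℂ := by
      rw [inner_conj_symm]
      conv_rhs => rw [← h1, ContinuousLinearMap.star_eq_adjoint,
        ContinuousLinearMap.adjoint_inner_right]
    exact Complex.conj_eq_iff_im.1 h2
  let Λ₀ : CompactlySupportedContinuousMap (spectrum ℂ U) ℝ →ₗ[ℝ] ℝ :=
    { toFun := fun f => (⟪ψ, cfcHom hU (cplx f.toContinuousMap) ψ⟫_ℂ).re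
      map_add' := by
        intro f g
        have : cplx (f + g).toContinuousMap = cplx f.toContinuousMap + cplx g.toContinuousMap := by
          ext x
          change (((f + g) x : ℝ) : ℂ) = (f x : ℂ) + (g x : ℂ)
          simp
        rw [this, map_add, _root_.add_apply, inner_add_right, Complex.add_re]
      map_smul' := by
        intro c f
        have : cplx (c • f).toContinuousMap = (c : ℂ) • cplx f.toContinuousMap := by
          ext x
          change (((c • f) x : ℝ) : ℂ) = (c : ℂ) * (f x : ℂ)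
          simp
        rw [this, map_smul, _root_.smul_apply, inner_smul_right, Complex.re_ofReal_mul]
        rfl }
  let Λ : CompactlySupportedContinuousMap (spectrum ℂ U) ℝ →ₚ[ℝ] ℝ :=
    { Λ₀ with
      monotone' := by
        intro f g hfg
        have h1 : 0 ≤ Λ₀ (g - f) := by
          apply hpos
          intro x
          have := hfg x
          change 0 ≤ (g - f) x
          simp only [CompactlySupportedContinuousMap.coe_sub, Pi.sub_apply, sub_nonneg]
          exact this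
        rw [map_sub] at h1
        exact sub_nonneg.1 h1 }
  let m := RealRMK.rieszMeasure Λ
  have hm : IsFiniteMeasure m := by infer_instance
  have hreal : ∀ f : C(spectrum ℂ U, ℝ),
      ⟪ψ, cfcHom hU (cplx f) ψ⟫_ℂ = ((∫ x, f x ∂m : ℝ) : ℂ) := by
    intro f
    let f' : CompactlySupportedContinuousMap (spectrum ℂ U) ℝ :=
      ⟨f, HasCompactSupport.of_compactSpace _⟩
    have h1 : ∫ x, f x ∂m = (⟪ψ, cfcHom hU (cplx f) ψ⟫_ℂ).re :=
      RealRMK.integral_rieszMeasure Λ f'
    rw [h1]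
    apply Complex.ext
    · simp
    · rw [himag f]
      simp
  refine ⟨m, hm, fun f => ?_⟩
  let fr : C(spectrum ℂ U, ℝ) := ⟨fun x => (f x).re, by fun_prop⟩
  let fi : C(spectrum ℂ U, ℝ) := ⟨fun x => (f x).im, by fun_prop⟩
  have hf : f = cplx fr + Complex.I • cplx fi := by
    ext x
    change f x = ((f x).re : ℂ) + Complex.I * ((f x).im : ℂ)
    rw [mul_comm]
    exact (Complex.re_add_im _).symm
  have hint : ∀ g : C(spectrum ℂ U, ℂ), Integrable (fun x => g x) m := by
    intro g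
    exact (BoundedContinuousFunction.mkOfCompact g).integrable m
  have h2 : ∫ x, f x ∂m = ∫ x, cplx fr x ∂m + Complex.I * ∫ x, cplx fi x ∂m := by
    rw [← integral_const_mul, ← integral_add (hint _) ((hint _).const_mul _)]
    refine integral_congr_ae (Eventually.of_forall fun x => ?_)
    change f x = ((f x).re : ℂ) + Complex.I * ((f x).im : ℂ)
    rw [mul_comm]
    exact (Complex.re_add_im _).symm
  have h3 : ∀ g : C(spectrum ℂ U, ℝ), ∫ x, cplx g x ∂m = ((∫ x, g x ∂m : ℝ) : ℂ) := by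
    intro g
    exact integral_ofReal
  rw [h2, h3, h3, ← hreal, ← hreal]
  conv_lhs => rw [hf]
  rw [map_add, map_smul, _root_.add_apply, _root_.smul_apply, inner_add_right, inner_smul_right]

theorem cay_real {u : ℂ} (hu : ‖u‖ = 1) (hu1 : u ≠ 1) :
    Complex.I * (1 + u) / (1 - u) = (((Complex.I * (1 + u) / (1 - u)).re : ℝ) : ℂ) := by
  have h0 : u ≠ 0 := by
    rintro rfl
    simp at hu
  have h1 : (1 : ℂ) - u ≠ 0 := sub_ne_zero.2 (Ne.symm hu1)
  have hc : conj u = u⁻¹ := by
    rw [Complex.inv_def, Complex.normSq_eq_norm_sq, hu]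
    simp
  have h2 : conj (Complex.I * (1 + u) / (1 - u)) = Complex.I * (1 + u) / (1 - u) := by
    rw [map_div₀, map_mul, map_add, map_sub, map_one, hc, Complex.conj_I]
    have h3 : (1 : ℂ) - u⁻¹ ≠ 0 := by
      intro h
      apply hu1
      have : u⁻¹ = 1 := (sub_eq_zero.1 h).symm
      exact inv_eq_one.1 this
    rw [div_eq_div_iff h3 h1]
    field_simp
    ring
  exact (Complex.conj_eq_iff_re.1 h2).symm

theorem spec : SpecStatement := by
  intro d V x
  set U : Op d := cay V with hUdef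
  have hstar : star U = cayS V := by
    rw [ContinuousLinearMap.star_eq_adjoint, adjoint_cay]
  have hUn : IsStarNormal U := by
    constructor
    rw [hstar]
    change cayS V * cay V = cay V * cayS V
    rw [cay_mul_cayS, cayS_mul_cay]
  obtain ⟨m₀, hm₀, hm⟩ := exists_measure_cfc U hUn (del x)
  have hcirc : ∀ u : spectrum ℂ U, ‖(u : ℂ)‖ = 1 := by
    intro u
    have hUu : U ∈ unitary (Op d) := by
      rw [Unitary.mem_iff, hstar]
      exact ⟨cayS_mul_cay V, cay_mul_cayS V⟩
    have := spectrum.subset_circle_of_unitary hUu u.2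
    simpa using this
  let en : spectrum ℂ U → ℝ := fun u => (Complex.I * (1 + (u : ℂ)) / (1 - (u : ℂ))).re
  have hen : Measurable en := by
    have : Measurable fun u : spectrum ℂ U => (u : ℂ) := measurable_subtype_coe
    exact Complex.measurable_re.comp
      (((measurable_const.add this).const_mul _).div (measurable_const.sub this))
  let T : Set (spectrum ℂ U) := {u | (u : ℂ) ≠ 1}
  have hT : MeasurableSet T := by
    have : Measurable fun u : spectrum ℂ U => (u : ℂ) := measurable_subtype_coe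
    exact (this (measurableSet_singleton (1 : ℂ))).compl
  refine ⟨(m₀.restrict T).map en, inferInstance, fun z hz => ?_⟩
  -- the function representing `G V (-i)`
  let g : C(spectrum ℂ U, ℂ) := ⟨fun u => (1 - (u : ℂ)) / (2 * Complex.I), by fun_prop⟩
  have hI : (2 * Complex.I : ℂ) ≠ 0 := by simp
  have hg : cfcHom hUn g = G V (-Complex.I) := by
    have e : g = (2 * Complex.I)⁻¹ •
        (1 - (ContinuousMap.id ℂ).restrict (spectrum ℂ U)) := by
      ext u
      change (1 - (u : ℂ)) / (2 * Complex.I) = (2 * Complex.I)⁻¹ * (1 - (u : ℂ))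
      rw [div_eq_inv_mul]
    rw [e, map_smul, map_sub, map_one, cfcHom_id, hUdef]
    unfold cay
    rw [sub_sub_cancel, smul_smul, inv_mul_cancel₀ hI, one_smul]
  let dd : C(spectrum ℂ U, ℂ) := 1 - (z + Complex.I) • g
  have hdd : ∀ u, dd u ≠ 0 := by
    intro u
    by_cases hu : (u : ℂ) = 1
    · have : dd u = 1 - (z + Complex.I) * ((1 - (u : ℂ)) / (2 * Complex.I)) := rfl
      rw [this, hu]
      simp
    · have h1 : dd u = (1 - (u : ℂ)) / (2 * Complex.I) * ((en u : ℂ) - z) := by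
        have : dd u = 1 - (z + Complex.I) * ((1 - (u : ℂ)) / (2 * Complex.I)) := rfl
        rw [this]
        change _ = (1 - (u : ℂ)) / (2 * Complex.I) *
          ((((Complex.I * (1 + (u : ℂ)) / (1 - (u : ℂ))).re : ℝ) : ℂ) - z)
        rw [← cay_real (hcirc u) hu]
        have h2 : (1 : ℂ) - u ≠ 0 := sub_ne_zero.2 (Ne.symm hu)
        field_simp
        ring
      rw [h1]
      refine mul_ne_zero (div_ne_zero (sub_ne_zero.2 (Ne.symm hu)) hI) (real_sub_ne hz _)
  let r : C(spectrum ℂ U, ℂ) := ⟨fun u => g u / dd u,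
    Continuous.div g.continuous dd.continuous hdd⟩
  have hr : cfcHom hUn r = G V z := by
    have e1 : r * dd = g := by
      ext u
      exact div_mul_cancel₀ _ (hdd u)
    have e2 : cfcHom hUn r * (1 - (z + Complex.I) • G V (-Complex.I)) = G V (-Complex.I) := by
      rw [← hg]
      conv_rhs => rw [← e1]
      rw [map_mul, map_sub, map_one, map_smul]
    have e3 : (z + Complex.I) • (G V (-Complex.I) * G V z) = G V z - G V (-Complex.I) := by
      have h := (isRes_G V).ident (-Complex.I) z negI_im_ne hz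
      have h4 : (z + Complex.I) = -(-Complex.I - z) := by ring
      rw [h4, neg_smul, ← h, neg_sub]
    have e4 : (1 - (z + Complex.I) • G V (-Complex.I)) * (1 + (z + Complex.I) • G V z) = 1 := by
      rw [mul_add, mul_one, sub_mul, one_mul, mul_smul_comm, smul_mul_assoc, e3]
      module
    calc cfcHom hUn r = cfcHom hUn r *
          ((1 - (z + Complex.I) • G V (-Complex.I)) * (1 + (z + Complex.I) • G V z)) := by
          rw [e4, mul_one]
      _ = G V (-Complex.I) * (1 + (z + Complex.I) • G V z) := by rw [← mul_assoc, e2]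
      _ = G V z := by
          rw [mul_add, mul_one, mul_smul_comm, e3]
          abel
  have h1 : G V z (del x) x = ∫ u, r u ∂m₀ := by
    rw [← hm r, hr, inner_del_left]
  have h2 : ∫ E : ℝ, 1 / ((E : ℂ) - z) ∂((m₀.restrict T).map en) =
      ∫ u in T, 1 / ((en u : ℂ) - z) ∂m₀ := by
    rw [integral_map hen.aemeasurable]
    apply Measurable.aestronglyMeasurable
    exact measurable_const.div (Complex.measurable_ofReal.sub measurable_const)
  have h3 : ∫ u in T, 1 / ((en u : ℂ) - z) ∂m₀ = ∫ u in T, r u ∂m₀ := by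
    refine setIntegral_congr_fun hT fun u hu => ?_
    have hu' : (u : ℂ) ≠ 1 := hu
    have h2 : (1 : ℂ) - u ≠ 0 := sub_ne_zero.2 (Ne.symm hu')
    have h4 := hdd u
    have e1 : dd u = (1 - (u : ℂ)) / (2 * Complex.I) * ((en u : ℂ) - z) := by
      have : dd u = 1 - (z + Complex.I) * ((1 - (u : ℂ)) / (2 * Complex.I)) := rfl
      rw [this]
      change _ = (1 - (u : ℂ)) / (2 * Complex.I) *
        ((((Complex.I * (1 + (u : ℂ)) / (1 - (u : ℂ))).re : ℝ) : ℂ) - z)
      rw [← cay_real (hcirc u) hu']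
      field_simp
      ring
    change 1 / ((en u : ℂ) - z) = (1 - (u : ℂ)) / (2 * Complex.I) / dd u
    rw [e1]
    have h5 := real_sub_ne hz (en u)
    field_simp
  have h4 : ∫ u in T, r u ∂m₀ = ∫ u, r u ∂m₀ := by
    refine setIntegral_eq_integral_of_forall_compl_eq_zero fun u hu => ?_
    have hu' : (u : ℂ) = 1 := by
      by_contra h
      exact hu h
    change (1 - (u : ℂ)) / (2 * Complex.I) / dd u = 0
    rw [hu']
    simp
  rw [h1, h2, h3, h4]

end Pool.Agent.QE
end
end -- Pool.Agent.Helper83_QE.Spec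

section -- Pool.Agent.Helper97_ACE.Spec

/-!
# Spectral measures of arbitrary vectors and their testing

`RepM V u m`: the finite measure `m` is the spectral measure of the vector `u` for `Δ + V`.
-/

set_option autoImplicit false
set_option linter.unusedSectionVars false

open scoped InnerProductSpace ComplexConjugate Topology ENNReal
open MeasureTheory Filter

noncomputable section

namespace Pool.Agent.ACE

open Pool.Agent.Anderson Pool.Agent.Helper54.Bal Pool.Agent.Helper14.QE Pool.Agent.Helper35.AC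
open Pool.Agent.QE (Op cay cayS adjoint_cay cay_mul_cayS cayS_mul_cay exists_measure_cfc cay_real
  negI_im_ne)

variable {d : ℕ}

/-- existence of the spectral measure (the proof of `Pool.Agent.QE.spec` for a general vector) -/
theorem exists_repM (V : Site d → ℝ) (ψ : L2 d) : ∃ m : Measure ℝ, RepM V ψ m := by
  set U : Op d := cay V with hUdef
  have hstar : star U = cayS V := by
    rw [ContinuousLinearMap.star_eq_adjoint, adjoint_cay]
  have hUn : IsStarNormal U := by
    constructor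
    rw [hstar]
    change cayS V * cay V = cay V * cayS V
    rw [cay_mul_cayS, cayS_mul_cay]
  obtain ⟨m₀, hm₀, hm⟩ := exists_measure_cfc U hUn ψ
  have hcirc : ∀ u : spectrum ℂ U, ‖(u : ℂ)‖ = 1 := by
    intro u
    have hUu : U ∈ unitary (Op d) := by
      rw [Unitary.mem_iff, hstar]
      exact ⟨cayS_mul_cay V, cay_mul_cayS V⟩
    have := spectrum.subset_circle_of_unitary hUu u.2
    simpa using this
  let en : spectrum ℂ U → ℝ := fun u => (Complex.I * (1 + (u : ℂ)) / (1 - (u : ℂ))).re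
  have hen : Measurable en := by
    have : Measurable fun u : spectrum ℂ U => (u : ℂ) := measurable_subtype_coe
    exact Complex.measurable_re.comp
      (((measurable_const.add this).const_mul _).div (measurable_const.sub this))
  let T : Set (spectrum ℂ U) := {u | (u : ℂ) ≠ 1}
  have hT : MeasurableSet T := by
    have : Measurable fun u : spectrum ℂ U => (u : ℂ) := measurable_subtype_coe
    exact (this (measurableSet_singleton (1 : ℂ))).compl
  refine ⟨(m₀.restrict T).map en, inferInstance, fun z hz => ?_⟩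
  simp only [← one_div]
  -- the function representing `G V (-i)`
  let g : C(spectrum ℂ U, ℂ) := ⟨fun u => (1 - (u : ℂ)) / (2 * Complex.I), by fun_prop⟩
  have hI : (2 * Complex.I : ℂ) ≠ 0 := by simp
  have hg : cfcHom hUn g = G V (-Complex.I) := by
    have e : g = (2 * Complex.I)⁻¹ •
        (1 - (ContinuousMap.id ℂ).restrict (spectrum ℂ U)) := by
      ext u
      change (1 - (u : ℂ)) / (2 * Complex.I) = (2 * Complex.I)⁻¹ * (1 - (u : ℂ))
      rw [div_eq_inv_mul]
    rw [e, map_smul, map_sub, map_one, cfcHom_id, hUdef]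
    unfold cay
    rw [sub_sub_cancel, smul_smul, inv_mul_cancel₀ hI, one_smul]
  let dd : C(spectrum ℂ U, ℂ) := 1 - (z + Complex.I) • g
  have hdd : ∀ u, dd u ≠ 0 := by
    intro u
    by_cases hu : (u : ℂ) = 1
    · have : dd u = 1 - (z + Complex.I) * ((1 - (u : ℂ)) / (2 * Complex.I)) := rfl
      rw [this, hu]
      simp
    · have h1 : dd u = (1 - (u : ℂ)) / (2 * Complex.I) * ((en u : ℂ) - z) := by
        have : dd u = 1 - (z + Complex.I) * ((1 - (u : ℂ)) / (2 * Complex.I)) := rfl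
        rw [this]
        change _ = (1 - (u : ℂ)) / (2 * Complex.I) *
          ((((Complex.I * (1 + (u : ℂ)) / (1 - (u : ℂ))).re : ℝ) : ℂ) - z)
        rw [← cay_real (hcirc u) hu]
        have h2 : (1 : ℂ) - u ≠ 0 := sub_ne_zero.2 (Ne.symm hu)
        field_simp
        ring
      rw [h1]
      refine mul_ne_zero (div_ne_zero (sub_ne_zero.2 (Ne.symm hu)) hI) (real_sub_ne hz _)
  let r : C(spectrum ℂ U, ℂ) := ⟨fun u => g u / dd u,
    Continuous.div g.continuous dd.continuous hdd⟩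
  have hr : cfcHom hUn r = G V z := by
    have e1 : r * dd = g := by
      ext u
      exact div_mul_cancel₀ _ (hdd u)
    have e2 : cfcHom hUn r * (1 - (z + Complex.I) • G V (-Complex.I)) = G V (-Complex.I) := by
      rw [← hg]
      conv_rhs => rw [← e1]
      rw [map_mul, map_sub, map_one, map_smul]
    have e3 : (z + Complex.I) • (G V (-Complex.I) * G V z) = G V z - G V (-Complex.I) := by
      have h := (isRes_G V).ident (-Complex.I) z negI_im_ne hz
      have h4 : (z + Complex.I) = -(-Complex.I - z) := by ring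
      rw [h4, neg_smul, ← h, neg_sub]
    have e4 : (1 - (z + Complex.I) • G V (-Complex.I)) * (1 + (z + Complex.I) • G V z) = 1 := by
      rw [mul_add, mul_one, sub_mul, one_mul, mul_smul_comm, smul_mul_assoc, e3]
      module
    calc cfcHom hUn r = cfcHom hUn r *
          ((1 - (z + Complex.I) • G V (-Complex.I)) * (1 + (z + Complex.I) • G V z)) := by
          rw [e4, mul_one]
      _ = G V (-Complex.I) * (1 + (z + Complex.I) • G V z) := by rw [← mul_assoc, e2]
      _ = G V z := by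
          rw [mul_add, mul_one, mul_smul_comm, e3]
          abel
  have h1 : ⟪ψ, G V z ψ⟫_ℂ = ∫ u, r u ∂m₀ := by
    rw [← hm r, hr]
  have h2 : ∫ E : ℝ, 1 / ((E : ℂ) - z) ∂((m₀.restrict T).map en) =
      ∫ u in T, 1 / ((en u : ℂ) - z) ∂m₀ := by
    rw [integral_map hen.aemeasurable]
    apply Measurable.aestronglyMeasurable
    exact measurable_const.div (Complex.measurable_ofReal.sub measurable_const)
  have h3 : ∫ u in T, 1 / ((en u : ℂ) - z) ∂m₀ = ∫ u in T, r u ∂m₀ := by
    refine setIntegral_congr_fun hT fun u hu => ?_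
    have hu' : (u : ℂ) ≠ 1 := hu
    have h2 : (1 : ℂ) - u ≠ 0 := sub_ne_zero.2 (Ne.symm hu')
    have h4 := hdd u
    have e1 : dd u = (1 - (u : ℂ)) / (2 * Complex.I) * ((en u : ℂ) - z) := by
      have : dd u = 1 - (z + Complex.I) * ((1 - (u : ℂ)) / (2 * Complex.I)) := rfl
      rw [this]
      change _ = (1 - (u : ℂ)) / (2 * Complex.I) *
        ((((Complex.I * (1 + (u : ℂ)) / (1 - (u : ℂ))).re : ℝ) : ℂ) - z)
      rw [← cay_real (hcirc u) hu']
      field_simp
      ring
    change 1 / ((en u : ℂ) - z) = (1 - (u : ℂ)) / (2 * Complex.I) / dd u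
    rw [e1]
    have h5 := real_sub_ne hz (en u)
    field_simp
  have h4 : ∫ u in T, r u ∂m₀ = ∫ u, r u ∂m₀ := by
    refine setIntegral_eq_integral_of_forall_compl_eq_zero fun u hu => ?_
    have hu' : (u : ℂ) = 1 := by
      by_contra h
      exact hu h
    change (1 - (u : ℂ)) / (2 * Complex.I) / dd u = 0
    rw [hu']
    simp
  rw [h1, h2, h3, h4]

/-- the imaginary part of the resolvent is the Poisson integral of the spectral measure -/
theorem im_rep {V : Site d → ℝ} {u : L2 d} {m : Measure ℝ} (h : RepM V u m) {ε : ℝ}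
    (hε : 0 < ε) (E : ℝ) : ε * ‖G V (zz ε E) u‖ ^ 2 = ∫ t, pk ε (t - E) ∂m := by
  have hfin := h.1
  have hz : (zz ε E).im ≠ 0 := by simpa using hε.ne'
  have h0 := (isRes_G V).im_inner hz u
  rw [zz_im] at h0
  rw [← h0, h.2 _ hz]
  simp only [← one_div]
  have hint : Integrable (fun t : ℝ => 1 / ((t : ℂ) - zz ε E)) m := by
    refine Integrable.of_bound (C := |(zz ε E).im|⁻¹) ?_ (Eventually.of_forall fun t => ?_)
    · have : Continuous fun t : ℝ => 1 / ((t : ℂ) - zz ε E) :=
        continuous_const.div (by fun_prop) fun t => real_sub_ne hz t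
      exact this.aestronglyMeasurable
    · rw [one_div]
      exact norm_inv_le hz t
  have h2 : (∫ t : ℝ, 1 / ((t : ℂ) - zz ε E) ∂m).im =
      ∫ t : ℝ, (1 / ((t : ℂ) - zz ε E)).im ∂m := (integral_im hint).symm
  rw [h2]
  refine integral_congr_ae (Eventually.of_forall fun t => ?_)
  change (1 / ((t : ℂ) - zz ε E)).im = pk ε (t - E)
  rw [one_div, Complex.inv_im, Complex.normSq_apply]
  simp only [Complex.sub_re, Complex.ofReal_re, zz_re, Complex.sub_im, Complex.ofReal_im, zz_im]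
  unfold pk
  have h3 : (t - E) * (t - E) + (0 - ε) * (0 - ε) = (t - E) ^ 2 + ε ^ 2 := by ring
  rw [h3]
  ring

/-- Tonelli for the Poisson integral -/
theorem test_tonelli {V : Site d → ℝ} {u : L2 d} {m : Measure ℝ} (h : RepM V u m)
    {f : ℝ → ℝ} (hf : Continuous f) (hf0 : ∀ t, 0 ≤ f t) {P : ℝ} (hP : ∀ t, |f t| ≤ P) {ε : ℝ}
    (hε : 0 < ε) :
    ∫⁻ E, ENNReal.ofReal (f E * (ε * ‖G V (zz ε E) u‖ ^ 2)) =
      ∫⁻ t, ENNReal.ofReal (Pr f ε t) ∂m := by
  have hfin := h.1
  have hpk := pk_continuous hε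
  have h1 : ∀ E, ENNReal.ofReal (f E * (ε * ‖G V (zz ε E) u‖ ^ 2)) =
      ∫⁻ t, ENNReal.ofReal (f E * pk ε (t - E)) ∂m := by
    intro E
    rw [im_rep h hε, ← integral_const_mul, ofReal_integral_eq_lintegral_ofReal]
    · exact (integrable_pk _ hε E).const_mul _
    · exact Eventually.of_forall fun t => mul_nonneg (hf0 E) (pk_nonneg hε _)
  have h2 : ∀ t, ENNReal.ofReal (Pr f ε t) = ∫⁻ E, ENNReal.ofReal (f E * pk ε (t - E)) := by
    intro t
    have e : Pr f ε t = ∫ E, f E * pk ε (t - E) := by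
      unfold Pr pk
      refine integral_congr_ae (Eventually.of_forall fun E => ?_)
      simp only
      rw [show (E - t) ^ 2 = (t - E) ^ 2 by ring]
    rw [e, ofReal_integral_eq_lintegral_ofReal]
    · have i1 : Integrable fun E => pk ε (t - E) := by
        have := (integral_shift_poisson hε t).1.const_mul ε
        refine this.congr (Eventually.of_forall fun E => ?_)
        simp only [pk]
        rw [show (t - E) ^ 2 = (E - t) ^ 2 by ring, div_eq_mul_inv]
      exact i1.bdd_mul (c := P) hf.aestronglyMeasurable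
        (Eventually.of_forall fun E => by rw [Real.norm_eq_abs]; exact hP E)
    · exact Eventually.of_forall fun E => mul_nonneg (hf0 E) (pk_nonneg hε _)
  simp only [h1, h2]
  refine lintegral_lintegral_swap ?_
  have hc : Continuous (Function.uncurry fun E t : ℝ => f E * pk ε (t - E)) := by
    have h3 : Continuous fun q : ℝ × ℝ => pk ε (q.2 - q.1) := hpk.comp (by fun_prop)
    exact (hf.comp continuous_fst).mul h3
  exact (ENNReal.continuous_ofReal.comp hc).measurable.aemeasurable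

/-- the spectral measure is the weak limit of the densities `(η/π) ‖G (E + i η) u‖²` -/
theorem test_lim {V : Site d → ℝ} {u : L2 d} {m : Measure ℝ} (h : RepM V u m)
    {f : ℝ → ℝ} (hf : Continuous f) (hf0 : ∀ t, 0 ≤ f t) {P : ℝ} (hP : ∀ t, |f t| ≤ P)
    {e : ℕ → ℝ} (he : ∀ k, 0 < e k) (he0 : Tendsto e atTop (𝓝 0)) :
    Tendsto (fun k => ∫⁻ E, ENNReal.ofReal (f E * (e k * ‖G V (zz (e k) E) u‖ ^ 2))) atTop
      (𝓝 (ENNReal.ofReal Real.pi * ∫⁻ t, ENNReal.ofReal (f t) ∂m)) := by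
  have hfin := h.1
  simp only [fun k => test_tonelli h hf hf0 hP (he k)]
  have h1 : ENNReal.ofReal Real.pi * ∫⁻ t, ENNReal.ofReal (f t) ∂m =
      ∫⁻ t, ENNReal.ofReal (Real.pi * f t) ∂m := by
    rw [← lintegral_const_mul' _ _ ENNReal.ofReal_ne_top]
    exact lintegral_congr fun t => (ENNReal.ofReal_mul Real.pi_pos.le).symm
  rw [h1]
  refine tendsto_lintegral_of_dominated_convergence (fun _ => ENNReal.ofReal (P * Real.pi))
    ?_ ?_ ?_ ?_
  · intro k
    exact (measurable_Pr hf.measurable _).ennreal_ofReal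
  · intro k
    refine Eventually.of_forall fun t => ENNReal.ofReal_le_ofReal ?_
    exact (le_abs_self _).trans (abs_Pr_le hP (he k) t)
  · rw [lintegral_const]
    exact ENNReal.mul_ne_top ENNReal.ofReal_ne_top (measure_ne_top _ _)
  · refine Eventually.of_forall fun t => ?_
    exact (ENNReal.continuous_ofReal.tendsto _).comp (tendsto_pois hf hP he he0 t)

/-- the total mass of the spectral measure -/
theorem mass_le {V : Site d → ℝ} {u : L2 d} {m : Measure ℝ} (h : RepM V u m) :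
    m Set.univ ≤ ENNReal.ofReal (‖u‖ ^ 2) := by
  have he : ∀ k : ℕ, (0:ℝ) < 1 / ((k : ℝ) + 1) := fun k => by positivity
  have h1 := test_lim h (f := fun _ => 1) continuous_const (fun _ => zero_le_one) (P := 1)
    (fun _ => by simp) he tendsto_one_div_add_atTop_nhds_zero_nat
  have h2 : ∀ k : ℕ, ∫⁻ E, ENNReal.ofReal ((1:ℝ) * (1 / ((k : ℝ) + 1) *
      ‖G V (zz (1 / ((k : ℝ) + 1)) E) u‖ ^ 2)) = ENNReal.ofReal (Real.pi * ‖u‖ ^ 2) := by
    intro k
    rw [← ofReal_integral_eq_lintegral_ofReal]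
    · congr 1
      rw [integral_const_mul, integral_const_mul, (isRes_G V).integral_sq (he k)]
      have : ((k : ℝ) + 1) ≠ 0 := by positivity
      field_simp
    · exact (((isRes_G V).integrable_sq (he k) u).const_mul _).const_mul _
    · exact Eventually.of_forall fun E => by positivity
  simp only [h2] at h1
  have h3 := tendsto_nhds_unique h1 tendsto_const_nhds
  rw [ENNReal.ofReal_one, lintegral_one, ENNReal.ofReal_mul Real.pi_pos.le] at h3
  have h4 : ENNReal.ofReal Real.pi ≠ 0 := by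
    rw [Ne, ENNReal.ofReal_eq_zero, not_le]
    exact Real.pi_pos
  exact ((ENNReal.mul_right_inj h4 ENNReal.ofReal_ne_top).1 h3).le

end Pool.Agent.ACE
end
end -- Pool.Agent.Helper97_ACE.Spec

section -- Pool.Agent.Helper97_ACE.Test

/-!
# Comparison of measures by test functions, algebra of the spectral measures
-/

set_option autoImplicit false
set_option linter.unusedSectionVars false

open scoped InnerProductSpace ComplexConjugate Topology ENNReal
open MeasureTheory Filter

noncomputable section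

namespace Pool.Agent.ACE

open Pool.Agent.Anderson Pool.Agent.Helper54.Bal

variable {d : ℕ}

/-- comparison of two finite measures on an open set by test functions -/
theorem le_of_test {m ν : Measure ℝ} [IsFiniteMeasure m] [IsFiniteMeasure ν] {O : Set ℝ}
    (hO : IsOpen O)
    (h : ∀ f : ℝ → ℝ, Continuous f → (∀ t, 0 ≤ f t) → (∀ t, f t ≤ 1) → (∀ t, t ∉ O → f t = 0) →
      ∫⁻ t, ENNReal.ofReal (f t) ∂m ≤ ∫⁻ t, ENNReal.ofReal (f t) ∂ν)
    {N : Set ℝ} (hN : MeasurableSet N) (hNO : N ⊆ O) : m N ≤ ν N := by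
  refine ENNReal.le_of_forall_pos_le_add fun ε hε _ => ?_
  have hε2 : ((ε : ℝ≥0∞) / 2) ≠ 0 := by
    simp [hε.ne']
  obtain ⟨K, hKN, hK, hmK⟩ := hN.exists_isClosed_lt_add (μ := m) (measure_ne_top _ _) hε2
  obtain ⟨U, hKU, hU, hνU⟩ := K.exists_isOpen_le_add ν hε2
  have hUO : IsOpen (U ∩ O) := hU.inter hO
  obtain ⟨f, hf0, hf1, hf⟩ := exists_continuous_zero_one_of_isClosed (s := (U ∩ O)ᶜ) (t := K)
    hUO.isClosed_compl hK (by
      rw [Set.disjoint_left]
      intro t ht htK
      exact ht ⟨hKU htK, hNO (hKN htK)⟩)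
  have h1 := h f f.continuous (fun t => (hf t).1) (fun t => (hf t).2)
    (fun t ht => hf0 (fun hh => ht hh.2))
  have h2 : m K ≤ ∫⁻ t, ENNReal.ofReal (f t) ∂m := by
    rw [← lintegral_indicator_one hK.measurableSet]
    refine lintegral_mono fun t => ?_
    by_cases ht : t ∈ K
    · rw [Set.indicator_of_mem ht, hf1 ht]
      simp
    · rw [Set.indicator_of_notMem ht]
      exact bot_le
  have h3 : ∫⁻ t, ENNReal.ofReal (f t) ∂ν ≤ ν U := by
    rw [← lintegral_indicator_one hU.measurableSet]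
    refine lintegral_mono fun t => ?_
    by_cases ht : t ∈ U
    · rw [Set.indicator_of_mem ht]
      simpa using (hf t).2
    · have h4 : f t = 0 := hf0 (fun hh => ht hh.1)
      rw [h4]
      simp
  calc m N ≤ m K + (ε : ℝ≥0∞) / 2 := hmK.le
    _ ≤ (ν K + (ε : ℝ≥0∞) / 2) + (ε : ℝ≥0∞) / 2 := by
        gcongr
        exact (h2.trans (h1.trans h3)).trans hνU
    _ = ν K + ε := by rw [add_assoc, ENNReal.add_halves]
    _ ≤ ν N + ε := by
        gcongr

/-- the sequence `1 / (k + 1)` -/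
theorem seq_pos (k : ℕ) : (0:ℝ) < 1 / ((k : ℝ) + 1) := by positivity

theorem rep_add {V : Site d → ℝ} {u v : L2 d} {m n ρ : Measure ℝ} (hu : RepM V u m)
    (hv : RepM V v n) (hw : RepM V (u + v) ρ) {N : Set ℝ} (hN : MeasurableSet N) :
    ρ N ≤ 2 * m N + 2 * n N := by
  have h1 := hu.1
  have h2 := hv.1
  have h3 := hw.1
  have i1 : IsFiniteMeasure ((2 : ℝ≥0∞) • m) := m.smul_finite (by norm_num)
  have i2 : IsFiniteMeasure ((2 : ℝ≥0∞) • n) := n.smul_finite (by norm_num)
  have key : ρ N ≤ ((2 : ℝ≥0∞) • m + (2 : ℝ≥0∞) • n) N := by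
    refine le_of_test (m := ρ) (ν := (2 : ℝ≥0∞) • m + (2 : ℝ≥0∞) • n) isOpen_univ ?_ hN
      (Set.subset_univ _)
    intro f hf hf0 hf1 _
    have hP : ∀ t, |f t| ≤ 1 := fun t => by rw [abs_of_nonneg (hf0 t)]; exact hf1 t
    have t1 := test_lim hu hf hf0 hP seq_pos tendsto_one_div_add_atTop_nhds_zero_nat
    have t2 := test_lim hv hf hf0 hP seq_pos tendsto_one_div_add_atTop_nhds_zero_nat
    have t3 := test_lim hw hf hf0 hP seq_pos tendsto_one_div_add_atTop_nhds_zero_nat
    have hπ : ENNReal.ofReal Real.pi ≠ 0 := by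
      rw [Ne, ENNReal.ofReal_eq_zero, not_le]
      exact Real.pi_pos
    rw [lintegral_add_measure, lintegral_smul_measure, lintegral_smul_measure]
    have h4 : ENNReal.ofReal Real.pi * ∫⁻ t, ENNReal.ofReal (f t) ∂ρ ≤
        2 * (ENNReal.ofReal Real.pi * ∫⁻ t, ENNReal.ofReal (f t) ∂m) +
        2 * (ENNReal.ofReal Real.pi * ∫⁻ t, ENNReal.ofReal (f t) ∂n) := by
      refine le_of_tendsto_of_tendsto' t3 (Tendsto.add
        (ENNReal.Tendsto.const_mul t1 (Or.inr (by norm_num)))
        (ENNReal.Tendsto.const_mul t2 (Or.inr (by norm_num)))) fun k => ?_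
      rw [← lintegral_const_mul' _ _ (by norm_num), ← lintegral_const_mul' _ _ (by norm_num)]
      have hc : ∀ w : L2 d, Measurable fun E : ℝ =>
          ENNReal.ofReal (f E * (1 / ((k : ℝ) + 1) * ‖G V (zz (1 / ((k : ℝ) + 1)) E) w‖ ^ 2)) := by
        intro w
        have h5 := (isRes_G V).cont_line (seq_pos k).ne' w
        exact (hf.mul (continuous_const.mul (h5.norm.pow 2))).measurable.ennreal_ofReal
      rw [← lintegral_add_left ((hc u).const_mul 2)]
      refine lintegral_mono fun E => ?_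
      have e2 : ∀ x : ℝ, (2 : ℝ≥0∞) * ENNReal.ofReal x = ENNReal.ofReal (2 * x) := fun x => by
        rw [ENNReal.ofReal_mul (by norm_num)]
        simp
      have p := (seq_pos k).le
      have q := hf0 E
      rw [e2, e2, ← ENNReal.ofReal_add (by positivity) (by positivity)]
      refine ENNReal.ofReal_le_ofReal ?_
      rw [map_add]
      set x := G V (zz (1 / ((k : ℝ) + 1)) E) u
      set y := G V (zz (1 / ((k : ℝ) + 1)) E) v
      have h6 : ‖x + y‖ ^ 2 ≤ 2 * ‖x‖ ^ 2 + 2 * ‖y‖ ^ 2 := by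
        have h7 := norm_add_le x y
        have h8 := norm_nonneg (x + y)
        nlinarith [sq_nonneg (‖x‖ - ‖y‖)]
      have h9 : 0 ≤ f E * (1 / ((k : ℝ) + 1)) := mul_nonneg q p
      calc f E * (1 / ((k : ℝ) + 1) * ‖x + y‖ ^ 2) =
            (f E * (1 / ((k : ℝ) + 1))) * ‖x + y‖ ^ 2 := by ring
        _ ≤ (f E * (1 / ((k : ℝ) + 1))) * (2 * ‖x‖ ^ 2 + 2 * ‖y‖ ^ 2) :=
            mul_le_mul_of_nonneg_left h6 h9
        _ = _ := by ring
    have h5 : ENNReal.ofReal Real.pi * ∫⁻ t, ENNReal.ofReal (f t) ∂ρ ≤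
        ENNReal.ofReal Real.pi * (2 * ∫⁻ t, ENNReal.ofReal (f t) ∂m +
          2 * ∫⁻ t, ENNReal.ofReal (f t) ∂n) := by
      refine h4.trans (le_of_eq ?_)
      ring
    exact (ENNReal.mul_le_mul_iff_right hπ ENNReal.ofReal_ne_top).1 h5
  simpa using key

theorem rep_smul {V : Site d → ℝ} {u : L2 d} {c : ℂ} {m ρ : Measure ℝ} (hu : RepM V u m)
    (hw : RepM V (c • u) ρ) {N : Set ℝ} (hN : MeasurableSet N) :
    ρ N ≤ ENNReal.ofReal (‖c‖ ^ 2) * m N := by
  have h1 := hu.1
  have h3 := hw.1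
  have i1 : IsFiniteMeasure (ENNReal.ofReal (‖c‖ ^ 2) • m) := m.smul_finite ENNReal.ofReal_ne_top
  have key : ρ N ≤ (ENNReal.ofReal (‖c‖ ^ 2) • m) N := by
    refine le_of_test (m := ρ) (ν := ENNReal.ofReal (‖c‖ ^ 2) • m) isOpen_univ ?_ hN
      (Set.subset_univ _)
    intro f hf hf0 hf1 _
    have hP : ∀ t, |f t| ≤ 1 := fun t => by rw [abs_of_nonneg (hf0 t)]; exact hf1 t
    have t1 := test_lim hu hf hf0 hP seq_pos tendsto_one_div_add_atTop_nhds_zero_nat
    have t3 := test_lim hw hf hf0 hP seq_pos tendsto_one_div_add_atTop_nhds_zero_nat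
    have hπ : ENNReal.ofReal Real.pi ≠ 0 := by
      rw [Ne, ENNReal.ofReal_eq_zero, not_le]
      exact Real.pi_pos
    rw [lintegral_smul_measure, smul_eq_mul]
    have h4 : ENNReal.ofReal Real.pi * ∫⁻ t, ENNReal.ofReal (f t) ∂ρ ≤
        ENNReal.ofReal (‖c‖ ^ 2) * (ENNReal.ofReal Real.pi * ∫⁻ t, ENNReal.ofReal (f t) ∂m) := by
      refine le_of_tendsto_of_tendsto' t3
        (ENNReal.Tendsto.const_mul t1 (Or.inr ENNReal.ofReal_ne_top)) fun k => ?_
      rw [← lintegral_const_mul' _ _ ENNReal.ofReal_ne_top]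
      refine lintegral_mono fun E => ?_
      rw [← ENNReal.ofReal_mul (by positivity)]
      refine ENNReal.ofReal_le_ofReal ?_
      rw [map_smul, norm_smul, mul_pow]
      exact le_of_eq (by ring)
    have h5 : ENNReal.ofReal Real.pi * ∫⁻ t, ENNReal.ofReal (f t) ∂ρ ≤
        ENNReal.ofReal Real.pi * (ENNReal.ofReal (‖c‖ ^ 2) * ∫⁻ t, ENNReal.ofReal (f t) ∂m) := by
      refine h4.trans (le_of_eq ?_)
      ring
    exact (ENNReal.mul_le_mul_iff_right hπ ENNReal.ofReal_ne_top).1 h5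
  simpa using key

/-- If the spectral measures of all `δ_x` vanish on `N`, so do all spectral measures. -/
theorem null_all {V : Site d → ℝ} {N : Set ℝ} (hN : MeasurableSet N)
    (h : ∀ (x : Site d) (m : Measure ℝ), RepM V (del x) m → m N = 0) (u : L2 d) (m : Measure ℝ)
    (hm : RepM V u m) : m N = 0 := by
  classical
  -- finite combinations
  have hfin : ∀ (F : Finset (Site d)) (ρ : Measure ℝ),
      RepM V (∑ x ∈ F, u x • (del x : L2 d)) ρ → ρ N = 0 := by
    intro F
    induction F using Finset.induction_on with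
    | empty =>
      intro ρ hρ
      have h1 := mass_le hρ
      rw [Finset.sum_empty, norm_zero] at h1
      have h2 : ρ Set.univ = 0 := by simpa using h1
      exact measure_mono_null (Set.subset_univ _) h2
    | insert x F hx ih =>
      intro ρ hρ
      rw [Finset.sum_insert hx] at hρ
      obtain ⟨m1, hm1⟩ := exists_repM V (u x • (del x : L2 d))
      obtain ⟨m2, hm2⟩ := exists_repM V (∑ x ∈ F, u x • (del x : L2 d))
      obtain ⟨m3, hm3⟩ := exists_repM V (del x)
      have h1 := rep_add hm1 hm2 hρ hN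
      have h2 := rep_smul hm3 hm1 hN
      rw [h x m3 hm3, mul_zero] at h2
      rw [ih m2 hm2, le_antisymm h2 bot_le, mul_zero, add_zero] at h1
      exact le_antisymm h1 bot_le
  refine le_antisymm ?_ bot_le
  refine ENNReal.le_of_forall_pos_le_add fun ε hε _ => ?_
  rw [zero_add]
  have hs := Pool.Agent.QE.hasSum_del u
  have hε' : 0 < Real.sqrt ((ε : ℝ) / 2) := Real.sqrt_pos.2 (by positivity)
  obtain ⟨F, hF⟩ := (Metric.tendsto_nhds.1 hs _ hε').exists
  set w : L2 d := ∑ x ∈ F, u x • (del x : L2 d) with hw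
  obtain ⟨m1, hm1⟩ := exists_repM V w
  obtain ⟨m2, hm2⟩ := exists_repM V (u - w)
  have hm' : RepM V (w + (u - w)) m := by
    rw [add_sub_cancel]; exact hm
  have h1 := rep_add hm1 hm2 hm' hN
  rw [hfin F m1 hm1, mul_zero, zero_add] at h1
  refine h1.trans ?_
  have h2 : m2 N ≤ ENNReal.ofReal (‖u - w‖ ^ 2) :=
    (measure_mono (Set.subset_univ _)).trans (mass_le hm2)
  have h3 : ‖u - w‖ ^ 2 ≤ (ε : ℝ) / 2 := by
    rw [dist_comm, dist_eq_norm] at hF
    calc ‖u - w‖ ^ 2 ≤ (Real.sqrt ((ε : ℝ) / 2)) ^ 2 := by gcongr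
      _ = (ε : ℝ) / 2 := Real.sq_sqrt (by positivity)
  calc 2 * m2 N ≤ ENNReal.ofReal 2 * ENNReal.ofReal ((ε : ℝ) / 2) := by
        have e2 : (2 : ℝ≥0∞) = ENNReal.ofReal 2 := by simp
        rw [e2]
        gcongr
        exact h2.trans (ENNReal.ofReal_le_ofReal h3)
    _ = ENNReal.ofReal (ε : ℝ) := by
        rw [← ENNReal.ofReal_mul (by norm_num)]
        congr 1
        ring
    _ = ε := ENNReal.ofReal_coe_nnreal

end Pool.Agent.ACE
end
end -- Pool.Agent.Helper97_ACE.Test

section -- Pool.Agent.Helper97_ACE.Det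

/-!
# The spectral measure of `δ_0` in terms of the `L¹` limit of the densities
-/

set_option autoImplicit false
set_option linter.unusedSectionVars false

open scoped InnerProductSpace ComplexConjugate Topology ENNReal
open MeasureTheory Filter

noncomputable section

namespace Pool.Agent.ACE

open Pool.Agent.Anderson Pool.Agent.Helper54.Bal

variable {d : ℕ}

/-- If the imaginary parts of `G_00 (E + i η)` converge in `L¹(a, b)` (along a sequence of `η`) to a
positive function, the spectral measure of `δ_0` is equivalent to the Lebesgue measure on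
`(a, b)`. -/
theorem det {V : Site d → ℝ} {m : Measure ℝ} (hm : RepM V (del 0) m) {e : ℕ → ℝ}
    (he : ∀ k, 0 < e k) (he0 : Tendsto e atTop (𝓝 0)) {a b : ℝ} {γ : ℝ → ℝ}
    (hγm : Measurable γ) (hγ : ∀ᵐ E ∂((volume : Measure ℝ).restrict (Set.Ioo a b)), 0 < γ E)
    (hR : ∀ ε : ℝ≥0∞, 0 < ε → ∃ᶠ k in atTop, ∫⁻ E in Set.Ioo a b,
      ‖(G V (zz (e k) E) (del 0) 0).im - γ E‖ₑ ≤ ε)
    {N : Set ℝ} (hN : N ⊆ Set.Ioo a b) (hNm : MeasurableSet N) :
    (volume N = 0 → m N = 0) ∧ (m N = 0 → volume N = 0) := by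
  have hfm := hm.1
  have him : ∀ k E, (G V (zz (e k) E) (del 0) 0).im = e k * ‖G V (zz (e k) E) (del 0)‖ ^ 2 := by
    intro k E
    rw [im_G_del (by rw [zz_im]; exact (he k).ne'), zz_im]
  have hcont : ∀ k, Continuous fun E : ℝ => e k * ‖G V (zz (e k) E) (del 0)‖ ^ 2 := fun k =>
    continuous_const.mul (((isRes_G V).cont_line (he k).ne' _).norm.pow 2)
  simp only [him] at hR
  set w : ℕ → ℝ → ℝ := fun k E => e k * ‖G V (zz (e k) E) (del 0)‖ ^ 2 with hw
  have hR' : ∀ ε : ℝ≥0∞, 0 < ε → ∃ᶠ k in atTop, ∫⁻ E in Set.Ioo a b, ‖w k E - γ E‖ₑ ≤ ε := hR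
  have hdm : ∀ k, Measurable fun E => ‖w k E - γ E‖ₑ := fun k =>
    ((hcont k).measurable.sub hγm).enorm
  set ν : Measure ℝ := ((volume : Measure ℝ).restrict (Set.Ioo a b)).withDensity
    (fun E => ENNReal.ofReal (γ E)) with hν
  have hγm' : Measurable fun E => ENNReal.ofReal (γ E) := hγm.ennreal_ofReal
  have hmass : ∀ k, ∫⁻ E, ENNReal.ofReal (w k E) = ENNReal.ofReal Real.pi := by
    intro k
    rw [hw, ← ofReal_integral_eq_lintegral_ofReal]
    · congr 1
      rw [integral_const_mul, (isRes_G V).integral_sq (he k), norm_del]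
      have := (he k).ne'
      field_simp
    · exact ((isRes_G V).integrable_sq (he k) _).const_mul _
    · exact Eventually.of_forall fun E => mul_nonneg (he k).le (sq_nonneg _)
  have hfin : IsFiniteMeasure ν := by
    refine ⟨?_⟩
    rw [hν, withDensity_apply _ MeasurableSet.univ, Measure.restrict_univ]
    obtain ⟨k, hk⟩ := (hR' 1 one_pos).exists
    calc ∫⁻ E in Set.Ioo a b, ENNReal.ofReal (γ E)
        ≤ ∫⁻ E in Set.Ioo a b, (ENNReal.ofReal (w k E) + ‖w k E - γ E‖ₑ) := by
          refine lintegral_mono fun E => ?_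
          rw [Real.enorm_eq_ofReal_abs]
          refine le_trans (ENNReal.ofReal_le_ofReal ?_) (ENNReal.ofReal_add_le)
          have := neg_abs_le (w k E - γ E)
          linarith
      _ = (∫⁻ E in Set.Ioo a b, ENNReal.ofReal (w k E)) +
          ∫⁻ E in Set.Ioo a b, ‖w k E - γ E‖ₑ :=
          lintegral_add_left (hcont k).measurable.ennreal_ofReal _
      _ ≤ ENNReal.ofReal Real.pi + 1 := by
          refine add_le_add ?_ hk
          rw [← hmass k]
          exact setLIntegral_le_lintegral _ _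
      _ < ∞ := by
          exact ENNReal.add_lt_top.2 ⟨ENNReal.ofReal_lt_top, ENNReal.one_lt_top⟩
  have hπ : ENNReal.ofReal Real.pi ≠ 0 := by
    rw [Ne, ENNReal.ofReal_eq_zero, not_le]
    exact Real.pi_pos
  have hπm : IsFiniteMeasure (ENNReal.ofReal Real.pi • m) := m.smul_finite ENNReal.ofReal_ne_top
  -- the test integrals
  have hX : ∀ f : ℝ → ℝ, Continuous f → (∀ t, 0 ≤ f t) → (∀ t, f t ≤ 1) →
      (∀ t, t ∉ Set.Ioo a b → f t = 0) →
      Tendsto (fun k => ∫⁻ E in Set.Ioo a b, ENNReal.ofReal (f E * w k E)) atTop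
        (𝓝 (∫⁻ t, ENNReal.ofReal (f t) ∂(ENNReal.ofReal Real.pi • m))) := by
    intro f hf hf0 hf1 hfO
    have hP : ∀ t, |f t| ≤ 1 := fun t => by rw [abs_of_nonneg (hf0 t)]; exact hf1 t
    have t1 := test_lim hm hf hf0 hP he he0
    rw [lintegral_smul_measure, smul_eq_mul]
    refine t1.congr fun k => ?_
    rw [← lintegral_indicator measurableSet_Ioo]
    refine lintegral_congr fun E => ?_
    by_cases hE : E ∈ Set.Ioo a b
    · rw [Set.indicator_of_mem hE]
    · rw [Set.indicator_of_notMem hE, hfO E hE, zero_mul, ENNReal.ofReal_zero]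
  have hνf : ∀ f : ℝ → ℝ, Continuous f → (∀ t, 0 ≤ f t) →
      ∫⁻ t, ENNReal.ofReal (f t) ∂ν = ∫⁻ E in Set.Ioo a b, ENNReal.ofReal (f E * γ E) := by
    intro f hf hf0
    rw [hν, lintegral_withDensity_eq_lintegral_mul _ hγm' hf.measurable.ennreal_ofReal]
    refine lintegral_congr fun E => ?_
    rw [Pi.mul_apply, ENNReal.ofReal_mul (hf0 E), mul_comm]
  have hfm' : ∀ f : ℝ → ℝ, Continuous f → ∀ k, Measurable fun E => ENNReal.ofReal (f E * w k E) :=
    fun f hf k => (hf.mul (hcont k)).measurable.ennreal_ofReal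
  have hup : ∀ f : ℝ → ℝ, Continuous f → (∀ t, 0 ≤ f t) → (∀ t, f t ≤ 1) →
      (∀ t, t ∉ Set.Ioo a b → f t = 0) →
      ∫⁻ t, ENNReal.ofReal (f t) ∂(ENNReal.ofReal Real.pi • m) ≤
        ∫⁻ t, ENNReal.ofReal (f t) ∂ν := by
    intro f hf hf0 hf1 hfO
    refine ENNReal.le_of_forall_pos_le_add fun ε hε _ => ?_
    have h1 : ∃ᶠ k in atTop, ∫⁻ E in Set.Ioo a b, ENNReal.ofReal (f E * w k E) ∈
        Set.Iic (∫⁻ t, ENNReal.ofReal (f t) ∂ν + ε) := by
      refine (hR' ε (by exact_mod_cast hε)).mono fun k hk => ?_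
      rw [Set.mem_Iic, hνf f hf hf0]
      calc ∫⁻ E in Set.Ioo a b, ENNReal.ofReal (f E * w k E)
          ≤ ∫⁻ E in Set.Ioo a b, (ENNReal.ofReal (f E * γ E) + ‖w k E - γ E‖ₑ) := by
            refine lintegral_mono fun E => ?_
            rw [Real.enorm_eq_ofReal_abs]
            refine le_trans (ENNReal.ofReal_le_ofReal ?_) (ENNReal.ofReal_add_le)
            have h2 := le_abs_self (w k E - γ E)
            have h3 := abs_nonneg (w k E - γ E)
            have h4 := hf0 E
            have h5 := hf1 E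
            nlinarith
        _ = (∫⁻ E in Set.Ioo a b, ENNReal.ofReal (f E * γ E)) +
            ∫⁻ E in Set.Ioo a b, ‖w k E - γ E‖ₑ :=
            lintegral_add_left (hf.measurable.mul hγm).ennreal_ofReal _
        _ ≤ _ := by gcongr
    exact isClosed_Iic.mem_of_frequently_of_tendsto h1 (hX f hf hf0 hf1 hfO)
  have hlow : ∀ f : ℝ → ℝ, Continuous f → (∀ t, 0 ≤ f t) → (∀ t, f t ≤ 1) →
      (∀ t, t ∉ Set.Ioo a b → f t = 0) →
      ∫⁻ t, ENNReal.ofReal (f t) ∂ν ≤
        ∫⁻ t, ENNReal.ofReal (f t) ∂(ENNReal.ofReal Real.pi • m) := by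
    intro f hf hf0 hf1 hfO
    refine ENNReal.le_of_forall_pos_le_add fun ε hε _ => ?_
    have h1 : ∃ᶠ k in atTop, (∫⁻ E in Set.Ioo a b, ENNReal.ofReal (f E * w k E)) + ε ∈
        Set.Ici (∫⁻ t, ENNReal.ofReal (f t) ∂ν) := by
      refine (hR' ε (by exact_mod_cast hε)).mono fun k hk => ?_
      rw [Set.mem_Ici, hνf f hf hf0]
      calc ∫⁻ E in Set.Ioo a b, ENNReal.ofReal (f E * γ E)
          ≤ ∫⁻ E in Set.Ioo a b, (ENNReal.ofReal (f E * w k E) + ‖w k E - γ E‖ₑ) := by
            refine lintegral_mono fun E => ?_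
            rw [Real.enorm_eq_ofReal_abs]
            refine le_trans (ENNReal.ofReal_le_ofReal ?_) (ENNReal.ofReal_add_le)
            have h2 := neg_abs_le (w k E - γ E)
            have h3 := abs_nonneg (w k E - γ E)
            have h4 := hf0 E
            have h5 := hf1 E
            nlinarith
        _ = (∫⁻ E in Set.Ioo a b, ENNReal.ofReal (f E * w k E)) +
            ∫⁻ E in Set.Ioo a b, ‖w k E - γ E‖ₑ :=
            lintegral_add_left (hfm' f hf k) _
        _ ≤ _ := by gcongr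
    exact isClosed_Ici.mem_of_frequently_of_tendsto h1
      ((hX f hf hf0 hf1 hfO).add tendsto_const_nhds)
  have h1 : (ENNReal.ofReal Real.pi • m) N ≤ ν N := le_of_test isOpen_Ioo hup hNm hN
  have h2 : ν N ≤ (ENNReal.ofReal Real.pi • m) N := le_of_test isOpen_Ioo hlow hNm hN
  rw [Measure.smul_apply, smul_eq_mul] at h1 h2
  have h3 : ν N = ∫⁻ E in N, ENNReal.ofReal (γ E) := by
    rw [hν, withDensity_apply _ hNm, Measure.restrict_restrict hNm,
      Set.inter_eq_self_of_subset_left hN]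
  constructor
  · intro h0
    have h4 : ν N = 0 := by
      rw [h3, Measure.restrict_eq_zero.2 h0, lintegral_zero_measure]
    rw [h4] at h1
    exact (mul_eq_zero.1 (le_antisymm h1 bot_le)).resolve_left hπ
  · intro h0
    rw [h0, mul_zero] at h2
    have h4 : ∫⁻ E in N, ENNReal.ofReal (γ E) = 0 := h3 ▸ le_antisymm h2 bot_le
    rw [lintegral_eq_zero_iff hγm'] at h4
    have h5 : ∀ᵐ E ∂((volume : Measure ℝ).restrict N), 0 < γ E :=
      ae_mono (Measure.restrict_mono hN le_rfl) hγ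
    have h6 : ∀ᵐ E ∂((volume : Measure ℝ).restrict N), False := by
      filter_upwards [h4, h5] with E h7 h8
      have h9 : ENNReal.ofReal (γ E) = 0 := h7
      rw [ENNReal.ofReal_eq_zero] at h9
      exact absurd h8 (not_lt.2 h9)
    have h7 := eventually_false_iff_eq_bot.1 h6
    exact Measure.restrict_eq_zero.1 (ae_eq_bot.1 h7)

end Pool.Agent.ACE
end
end -- Pool.Agent.Helper97_ACE.Det

section -- Pool.Agent.Helper97_ACE.Main

/-!
# The absolutely continuous end on `ℤ^d`: proof of `AceStmt`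
-/

set_option autoImplicit false
set_option linter.unusedSectionVars false

open scoped InnerProductSpace ComplexConjugate Topology ENNReal
open MeasureTheory Filter

noncomputable section

namespace Pool.Agent.ACE

open Pool.Agent.Anderson Pool.Agent.Loc Pool.Agent.Helper54.Bal
open Pool.Agent.QE (KK lam ac_lam Dat)

variable {d : ℕ}

/-- comparison of the reference measure with the Lebesgue measure on a bounded interval -/
theorem setLIntegral_le_lam {a b : ℝ} {g : ℝ → ℝ≥0∞} (hg : Measurable g) :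
    ∫⁻ E in Set.Ioo a b, g E ≤
      ENNReal.ofReal (1 + (|a| + |b|) ^ 2) * ∫⁻ E in Set.Ioo a b, g E ∂lam := by
  have hm : Measurable fun E : ℝ => ENNReal.ofReal (1 + E ^ 2)⁻¹ := by fun_prop
  have h1 : ∫⁻ E in Set.Ioo a b, g E ∂lam =
      ∫⁻ E in Set.Ioo a b, (ENNReal.ofReal (1 + E ^ 2)⁻¹ * g E) := by
    unfold lam
    exact setLIntegral_withDensity_eq_setLIntegral_mul _ hm hg measurableSet_Ioo
  have hmg : Measurable fun E : ℝ => ENNReal.ofReal (1 + E ^ 2)⁻¹ * g E := hm.mul hg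
  rw [h1, ← lintegral_const_mul _ hmg]
  refine setLIntegral_mono' measurableSet_Ioo fun E hE => ?_
  rw [← mul_assoc, ← ENNReal.ofReal_mul (by positivity)]
  have h2 : |E| ≤ |a| + |b| := by
    rw [abs_le]
    have h3 := neg_abs_le a
    have h4 := le_abs_self b
    have h5 := abs_nonneg a
    have h6 := abs_nonneg b
    constructor
    · linarith [hE.1]
    · linarith [hE.2]
  have h3 : 1 ≤ (1 + (|a| + |b|) ^ 2) * (1 + E ^ 2)⁻¹ := by
    rw [← div_eq_mul_inv, le_div_iff₀ (by positivity), one_mul]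
    have h4 : E ^ 2 ≤ (|a| + |b|) ^ 2 := by
      rw [← sq_abs E]
      gcongr
    linarith
  calc g E = 1 * g E := (one_mul _).symm
    _ ≤ ENNReal.ofReal ((1 + (|a| + |b|) ^ 2) * (1 + E ^ 2)⁻¹) * g E := by
        gcongr
        exact ENNReal.one_le_ofReal.2 h3

/-- the law has no atoms -/
theorem gl_singleton {σ : ℝ} (hσ : σ ≠ 0) (x : ℝ) : gl σ {x} = 0 := by
  obtain ⟨-, h⟩ := bddDens_gl hσ
  have := h x x
  rw [Set.Icc_self, sub_self, mul_zero, ENNReal.ofReal_zero] at this
  exact nonpos_iff_eq_zero.1 this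

theorem good_ae {σ a b : ℝ} (hσ : σ ≠ 0)
    (h : ∃ η : ℕ → ℝ, (∀ n, 0 < η n) ∧ Tendsto η atTop (𝓝 0) ∧
      ∀ᵐ E ∂((volume : Measure ℝ).restrict (Set.Ioo a b)), ∃ (c : ℝ) (p : ℝ≥0∞), 0 < c ∧ p ≠ 0 ∧
        ∀ᶠ n in atTop, p ≤ Pool.Agent.QE.PP d (gl σ)
          {V | c ≤ (G V (zz (η n) E) (del 0) 0).im}) :
    ∀ᵐ V ∂(Pool.Agent.QE.PP d (gl σ)), ∀ m : Measure ℝ, RepM V (del 0) m →
      ∀ N ⊆ Set.Ioo a b, MeasurableSet N → (volume N = 0 → m N = 0) ∧ (m N = 0 → volume N = 0) := by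
  obtain ⟨η, hη, hη0, h⟩ := h
  obtain ⟨φ, gg, hφ, D⟩ := exists_dat1 (d := d) (gl σ) hη hη0
  set e : ℕ → ℝ := fun k => η (φ k) with he
  have hpos := pos_ae (gl_singleton hσ) D (a := a) (b := b) (by
    filter_upwards [h] with E hE
    obtain ⟨c, p, hc, hp, h1⟩ := hE
    exact ⟨c, p, hc, hp, hφ.eventually h1⟩)
  have hC : 0 ≤ Pool.Agent.AEN.cs σ := by
    unfold Pool.Agent.AEN.cs
    positivity
  have havg := avg D hC (fun V E η hη => Pool.Agent.AEN.H40.spa d σ E η V hσ hη) hpos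
  -- the integrals for fixed `V`
  set R : ℕ → (Site d → ℝ) → ℝ≥0∞ := fun k V =>
    ∫⁻ E in Set.Ioo a b, Psi e gg k (V, E) ∂lam with hR
  have hPm : ∀ k, Measurable (Psi e gg k) := fun k => measurable_Psi D k
  have hind : ∀ k V, R k V = ∫⁻ E, (strip d a b).indicator (Psi e gg k) (V, E) ∂lam := by
    intro k V
    rw [hR]
    simp only
    rw [← lintegral_indicator measurableSet_Ioo]
    refine lintegral_congr fun E => ?_
    by_cases hE : E ∈ Set.Ioo a b
    · have h1 : ((V, E) : (Site d → ℝ) × ℝ) ∈ strip d a b := hE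
      rw [Set.indicator_of_mem hE, Set.indicator_of_mem h1]
    · have h1 : ((V, E) : (Site d → ℝ) × ℝ) ∉ strip d a b := hE
      rw [Set.indicator_of_notMem hE, Set.indicator_of_notMem h1]
  have hHm : ∀ k, Measurable ((strip d a b).indicator (Psi e gg k)) := fun k =>
    (hPm k).indicator (measurableSet_strip a b)
  have hRm : ∀ k, Measurable (R k) := by
    intro k
    have h1 : R k = fun V => ∫⁻ E, (strip d a b).indicator (Psi e gg k) (V, E) ∂lam :=
      funext (hind k)
    rw [h1]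
    exact (hHm k).lintegral_prod_right'
  have hRint : ∀ k, ∫⁻ V, R k V ∂(Pool.Agent.QE.PP d (gl σ)) =
      ∫⁻ p in strip d a b, Psi e gg k p ∂(KK d (gl σ)) := by
    intro k
    rw [← lintegral_indicator (measurableSet_strip a b)]
    have h1 := lintegral_prod (μ := Pool.Agent.QE.PP d (gl σ)) (ν := lam) _ (hHm k).aemeasurable
    rw [h1]
    exact lintegral_congr (hind k)
  have hlim : ∀ᵐ V ∂(Pool.Agent.QE.PP d (gl σ)), liminf (fun k => R k V) atTop = 0 := by
    have h1 : ∫⁻ V, liminf (fun k => R k V) atTop ∂(Pool.Agent.QE.PP d (gl σ)) = 0 := by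
      refine le_antisymm ((lintegral_liminf_le hRm).trans ?_) bot_le
      simp only [hRint]
      rw [havg.liminf_eq]
    exact (lintegral_eq_zero_iff (Measurable.liminf hRm)).1 h1
  have hγ : ∀ᵐ V ∂(Pool.Agent.QE.PP d (gl σ)), ∀ᵐ E ∂((volume : Measure ℝ).restrict
      (Set.Ioo a b)), 0 < (gg 0 0 (V, E)).im := by
    filter_upwards [Measure.ae_ae_of_ae_prod hpos] with V hV
    rw [ae_restrict_iff' measurableSet_Ioo]
    exact ac_lam.ae_le hV
  filter_upwards [hlim, hγ] with V h1 h2 m hm N hN hNm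
  refine det hm (e := e) D.pos D.zero (γ := fun E => (gg 0 0 (V, E)).im)
    (Complex.measurable_im.comp ((D.mg 0 0).comp measurable_prodMk_left)) h2 ?_ hN hNm
  intro ε hε
  set K : ℝ≥0∞ := ENNReal.ofReal (1 + (|a| + |b|) ^ 2) with hK
  have hK0 : K ≠ 0 := by
    rw [hK, Ne, ENNReal.ofReal_eq_zero, not_le]
    positivity
  have hεK : 0 < ε / K := ENNReal.div_pos hε.ne' ENNReal.ofReal_ne_top
  have h3 : ∃ᶠ k in atTop, R k V < ε / K :=
    frequently_lt_of_liminf_lt (by isBoundedDefault) (by rw [h1]; exact hεK)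
  refine h3.mono fun k hk => ?_
  have h4 : Measurable fun E => Psi e gg k (V, E) := (hPm k).comp measurable_prodMk_left
  calc ∫⁻ E in Set.Ioo a b, ‖(G V (zz (e k) E) (del 0) 0).im - (gg 0 0 (V, E)).im‖ₑ
      ≤ K * R k V := setLIntegral_le_lam h4
    _ ≤ K * (ε / K) := by gcongr
    _ ≤ ε := ENNReal.mul_div_le

/-- ACE -/
theorem ace : AceStmt := by
  intro d σ a b _ hσ h
  have h1 : ∀ᵐ V ∂(PP d (gl σ)), ∀ m : Measure ℝ, RepM V (del 0) m →
      ∀ N ⊆ Set.Ioo a b, MeasurableSet N →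
        (volume N = 0 → m N = 0) ∧ (m N = 0 → volume N = 0) := good_ae hσ h
  have h2 : ∀ᵐ V ∂(PP d (gl σ)), ∀ x : Site d, ∀ m : Measure ℝ, RepM (tau x V) (del 0) m →
      ∀ N ⊆ Set.Ioo a b, MeasurableSet N →
        (volume N = 0 → m N = 0) ∧ (m N = 0 → volume N = 0) := by
    rw [ae_all_iff]
    intro x
    exact (shiftInv_PP (gl σ) x).quasiMeasurePreserving.ae h1
  filter_upwards [h2] with V hV
  have h3 : ∀ (x : Site d) (m : Measure ℝ), RepM V (del x) m → ∀ N ⊆ Set.Ioo a b,
      MeasurableSet N → (volume N = 0 → m N = 0) ∧ (m N = 0 → volume N = 0) := by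
    intro x m hm
    refine hV x m ⟨hm.1, fun z hz => ?_⟩
    rw [← hm.2 z hz, inner_del_left, inner_del_left, Pool.Agent.Mob.H25.G_tau hz, zero_add]
  refine ⟨exists_repM V, fun u m hm N hN h0 => ?_, fun x m hm N hN h0 => ?_⟩
  · set N' : Set ℝ := toMeasurable volume N ∩ Set.Ioo a b with hN'
    have h4 : N ⊆ N' := fun t ht => ⟨subset_toMeasurable _ _ ht, hN ht⟩
    have h5 : MeasurableSet N' := (measurableSet_toMeasurable _ _).inter measurableSet_Ioo
    have h6 : volume N' = 0 := by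
      refine measure_mono_null Set.inter_subset_left ?_
      rw [measure_toMeasurable, h0]
    exact measure_mono_null h4 (null_all h5 (fun x m' hm' =>
      (h3 x m' hm' N' Set.inter_subset_right h5).1 h6) u m hm)
  · set N' : Set ℝ := toMeasurable m N ∩ Set.Ioo a b with hN'
    have h4 : N ⊆ N' := fun t ht => ⟨subset_toMeasurable _ _ ht, hN ht⟩
    have h5 : MeasurableSet N' := (measurableSet_toMeasurable _ _).inter measurableSet_Ioo
    have h6 : m N' = 0 := by
      refine measure_mono_null Set.inter_subset_left ?_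
      rw [measure_toMeasurable, h0]
    exact measure_mono_null h4 ((h3 x m hm N' Set.inter_subset_right h5).2 h6)

end Pool.Agent.ACE
end
end -- Pool.Agent.Helper97_ACE.Main

section -- Pool.Agent.Helper69_LCH.CN2

/-!
# CN2: almost surely there is no eigenvalue free set of positive measure near which the
eigenfunctions are complete
-/

set_option autoImplicit false

open MeasureTheory ProbabilityTheory Function Filter

open scoped ENNReal BigOperators InnerProductSpace Topology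

noncomputable section

namespace Pool.Agent.LE.CH.H69

open Pool.Agent.Anderson Pool.Agent.Loc Pool.Agent.Mob Pool.Agent.Helper54.Bal
open Pool.Agent.LE.CH

theorem cn2_norm {d : ℕ} {V : Site d → ℝ} {z : ℂ} (hz : z.im ≠ 0) (x : Site d) :
    ‖G (tau x V) z (del 0)‖ = ‖G V z (del x)‖ := by
  have h : G (tau x V) z (del 0) = shift x (G V z (del x)) := by
    ext u
    rw [shift_apply]
    exact Pool.Agent.Mob.H25.G_tau hz x u
  rw [h, LinearIsometry.norm_map]

theorem cn2_wt {d : ℕ} (V : Site d → ℝ) (B : Set ℝ) {η : ℝ} (hη : η ≠ 0) (x : Site d) :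
    wt (tau x V) B η (del 0) = wt V B η (del x) := by
  unfold wt
  refine lintegral_congr fun E => ?_
  have hz : (zz η E).im ≠ 0 := by rw [zz_im]; exact hη
  rw [cn2_norm hz]

/-- the limit function -/
def cn2f (d : ℕ) (B : Set ℝ) (V : Site d → ℝ) : ℝ≥0∞ :=
  limsup (fun m : ℕ => wt V B (1 / ((m : ℝ) + 1)) (del (0 : Site d))) atTop

theorem cn2f_meas (hM : MewStmt) (d : ℕ) {B : Set ℝ} (hB : MeasurableSet B) :
    Measurable (cn2f d B) := by
  have hpos : ∀ n : ℕ, (0 : ℝ) < 1 / ((n : ℝ) + 1) := fun n => by positivity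
  exact Measurable.limsup fun n => hM d B (1 / ((n : ℝ) + 1)) (del (0 : Site d)) (hpos n) hB

/-- the invariant set -/
def cn2A (d : ℕ) (B : Set ℝ) : Set (Site d → ℝ) := {V | ∀ a : Site d, cn2f d B (tau a V) = 0}

theorem cn2A_meas (hM : MewStmt) (d : ℕ) {B : Set ℝ} (hB : MeasurableSet B) :
    MeasurableSet (cn2A d B) := by
  have h : cn2A d B = ⋂ a : Site d, (fun V => cn2f d B (tau a V)) ⁻¹' {0} := by
    ext V
    simp [cn2A]
  rw [h]
  exact MeasurableSet.iInter fun a =>
    ((cn2f_meas hM d hB).comp (measurable_tau a)) (measurableSet_singleton 0)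

theorem cn2A_inv (d : ℕ) (B : Set ℝ) (a : Site d) : tau a ⁻¹' (cn2A d B) = cn2A d B := by
  ext V
  simp only [cn2A, Set.mem_preimage, Set.mem_setOf_eq]
  constructor
  · intro h b
    have h1 := h (b - a)
    rw [tau_tau, sub_add_cancel] at h1
    exact h1
  · intro h b
    rw [tau_tau]
    exact h (b + a)

theorem cn2A_mem (hL : LimStmt) {d : ℕ} {V : Site d → ℝ} {a r : ℝ} {B : Set ℝ} (hB : IsClosed B)
    (hr : 0 < r) (hBr : B ⊆ Set.Icc (a - r / 2) (a + r / 2)) (hC : CplJ V a r)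
    (hE : ∀ E ∈ B, ∀ φ : L2 d, IsEigen V E φ → φ = 0) : V ∈ cn2A d B := by
  have hpos : ∀ n : ℕ, (0 : ℝ) < 1 / ((n : ℝ) + 1) := fun n => by positivity
  intro x
  have h1 := hL d V a r B (del x) hB hr hBr hC hE
  have h2 : Tendsto (fun n : ℕ => 1 / ((n : ℝ) + 1)) atTop (𝓝[>] 0) :=
    tendsto_nhdsWithin_iff.2 ⟨tendsto_one_div_add_atTop_nhds_zero_nat,
      Eventually.of_forall fun n => hpos n⟩
  have h3 : Tendsto (fun n : ℕ => wt V B (1 / ((n : ℝ) + 1)) (del x)) atTop (𝓝 0) := h1.comp h2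
  have h4 : (fun m : ℕ => wt (tau x V) B (1 / ((m : ℝ) + 1)) (del (0 : Site d))) =
      fun n : ℕ => wt V B (1 / ((n : ℝ) + 1)) (del x) := by
    funext n
    exact cn2_wt V B (hpos n).ne' x
  unfold cn2f
  rw [h4]
  exact h3.limsup_eq

theorem cn2.{u} (hL : LimStmt) (hW : WtlStmt) (hM : MewStmt) (hA : AvlStmt) (hE : ErgStmt) :
    Cn2Stmt.{u} := by
  intro d σ a r B hd hσ hB hr hBr hvol Ω _ P _ W hWm hmap
  haveI : IsProbabilityMeasure (gl σ) := inferInstance
  haveI : IsProbabilityMeasure (PP d (gl σ)) := inferInstance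
  obtain ⟨c, hc, hlow⟩ := hA d σ (|a| + r) hd hσ
  have hK : B ⊆ Set.Icc (-(|a| + r)) (|a| + r) := by
    intro E hE
    have h1 := hBr hE
    rw [Set.mem_Icc] at h1 ⊢
    have h2 := neg_abs_le a
    have h3 := le_abs_self a
    constructor <;> linarith [h1.1, h1.2]
  have hpos : ∀ n : ℕ, (0 : ℝ) < 1 / ((n : ℝ) + 1) := fun n => by positivity
  have hle : ∀ n : ℕ, 1 / ((n : ℝ) + 1) ≤ (1 : ℝ) := fun n => by
    rw [div_le_one (by positivity)]
    have : (0 : ℝ) ≤ n := Nat.cast_nonneg n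
    linarith
  set F : ℕ → (Site d → ℝ) → ℝ≥0∞ :=
    fun n V => wt V B (1 / ((n : ℝ) + 1)) (del (0 : Site d)) with hF
  have hFm : ∀ n, Measurable (F n) := fun n =>
    hM d B (1 / ((n : ℝ) + 1)) (del (0 : Site d)) (hpos n) hB.measurableSet
  have hnorm : ‖(del (0 : Site d))‖ = 1 := by
    simp [del]
  have hFb : ∀ n V, F n V ≤ 1 := fun n V => by
    have := hW d V B (1 / ((n : ℝ) + 1)) (del (0 : Site d)) (hpos n)
    rw [hnorm, one_pow, ENNReal.ofReal_one] at this
    exact this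
  have hlb : ∀ n, ENNReal.ofReal c * volume B ≤ ∫⁻ V, F n V ∂(PP d (gl σ)) := fun n =>
    hlow (1 / ((n : ℝ) + 1)) B (hpos n) (hle n) hB.measurableSet hK
  have hp : 0 < ENNReal.ofReal c * volume B :=
    ENNReal.mul_pos (ENNReal.ofReal_pos.2 hc).ne' hvol.ne'
  have hrev : ENNReal.ofReal c * volume B ≤ ∫⁻ V, cn2f d B V ∂(PP d (gl σ)) := by
    have h1 := limsup_lintegral_le (μ := PP d (gl σ)) (f := F) (fun _ => (1 : ℝ≥0∞)) hFm
      (fun n => ae_of_all _ (hFb n)) (by simp)
    refine le_trans ?_ h1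
    refine le_limsup_of_le ?_ ?_
    · exact isBounded_le_of_top
    · intro b hb
      obtain ⟨n, hn⟩ := hb.exists
      exact (hlb n).trans hn
  have hnot1 : PP d (gl σ) (cn2A d B) ≠ 1 := by
    intro h1
    have h2 : ∀ᵐ V ∂(PP d (gl σ)), V ∈ cn2A d B := by
      rw [← prob_compl_eq_zero_iff (cn2A_meas hM d hB.measurableSet)] at h1
      exact h1
    have h3 : ∫⁻ V, cn2f d B V ∂(PP d (gl σ)) = 0 := by
      rw [lintegral_eq_zero_iff (cn2f_meas hM d hB.measurableSet)]
      filter_upwards [h2] with V hV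
      have h4 := hV 0
      rw [tau_zero] at h4
      exact h4
    rw [h3] at hrev
    exact absurd hrev (not_le.2 hp)
  have h0 : PP d (gl σ) (cn2A d B) = 0 := by
    rcases hE d (gl σ) (cn2A d B) hd (cn2A_meas hM d hB.measurableSet) (cn2A_inv d B) with h | h
    · exact h
    · exact absurd h hnot1
  have h5 : P (W ⁻¹' cn2A d B) = 0 := by
    rw [← Measure.map_apply hWm (cn2A_meas hM d hB.measurableSet), hmap]
    exact h0
  have h6 : ∀ᵐ ω ∂P, ω ∉ W ⁻¹' cn2A d B := measure_eq_zero_iff_ae_notMem.1 h5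
  filter_upwards [h6] with ω hω hbad
  exact hω (cn2A_mem hL hB hr hBr hbad.1 hbad.2)

end Pool.Agent.LE.CH.H69
end
end -- Pool.Agent.Helper69_LCH.CN2
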