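import Pool.Agent.Helper12_MEB.B028

/-!
# Merged copies (generated) of the modules

* `Pool.Agent.Helper46_Mob.Cmp1`
* `Pool.Agent.Helper46_Mob.Cmp`
-/

set_option autoImplicit false

section -- Pool.Agent.Helper46_Mob.Cmp1

/-!
# Metal-insulator transport transition, module CMP, part 1: tails, counting, limits
-/

set_option autoImplicit false
set_option linter.unusedSectionVars false

open MeasureTheory ProbabilityTheory Function Filter

open scoped ENNReal BigOperators Topology ComplexConjugate InnerProductSpace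

noncomputable section

namespace Pool.Agent.Mob.H46

open Pool.Agent.Anderson Pool.Agent.Loc Pool.Agent.Helper54.Bal Pool.Agent.Mob

variable {d : ℕ}

/-- decay from the centres -/
def CenC (V : Site d → ℝ) (I : Set ℝ) (μ C₁ : ℝ) (R₀ : ℕ) : Prop :=
  ∀ (n : ℕ) (E : ℝ) (ψ : Site d → ℂ) (c : Site d), E ∈ I →
    FinEig V n E ψ → IsCenter n ψ c → 4 * sd 0 c ≤ 3 * n → ∀ x : Site d,
      4 * sd 0 x ≤ 3 * n → R₀ ≤ sd c x → 100 * sd 0 c ≤ (sd c x) ^ 2 →
      ‖ψ x‖ ≤ C₁ * Real.exp (-(μ / 8) * sd c x) * ‖ψ c‖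

/-- Uniform decay of the eigenfunctions whose centres are in a given box. -/
theorem udecay {V : Site d → ℝ} {I : Set ℝ} {μ C₁ : ℝ} {R₀ : ℕ} (hμ : 0 < μ) (hC₁ : 1 ≤ C₁)
    (hdec : CenC V I μ C₁ R₀) (R : ℕ) :
    ∃ C : ℝ, 0 < C ∧ ∀ (n : ℕ) (E : ℝ) (ψ : Site d → ℂ) (c : Site d), E ∈ I →
      FinEig V n E ψ → IsCenter n ψ c → 4 * sd 0 c ≤ 3 * n → sd 0 c ≤ R → ∀ x : Site d,
        4 * sd 0 x ≤ 3 * n → ‖ψ x‖ ≤ C * Real.exp (-(μ / 8) * sd 0 x) := by
  refine ⟨C₁ * Real.exp (μ / 8 * (R₀ + 101 * R + 1)), by positivity, ?_⟩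
  intro n E ψ c hE hψ hc hcn hcR x hxn
  have htri : sd 0 x ≤ sd 0 c + sd c x := sd_triangle 0 c x
  have hψc : ‖ψ c‖ ≤ 1 := hψ.le_one c
  by_cases hcase : R₀ ≤ sd c x ∧ 100 * sd 0 c ≤ (sd c x) ^ 2
  · refine (hdec n E ψ c hE hψ hc hcn x hxn hcase.1 hcase.2).trans ?_
    calc C₁ * Real.exp (-(μ / 8) * sd c x) * ‖ψ c‖ ≤ C₁ * Real.exp (-(μ / 8) * sd c x) * 1 := by
          gcongr
      _ ≤ C₁ * (Real.exp (μ / 8 * (R₀ + 101 * R + 1)) * Real.exp (-(μ / 8) * sd 0 x)) := by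
          rw [mul_one]
          gcongr
          rw [← Real.exp_add]
          apply Real.exp_le_exp.2
          have h1 : (sd 0 x : ℝ) ≤ R + sd c x := by
            have : sd 0 x ≤ R + sd c x := by omega
            exact_mod_cast this
          have h2 : (0:ℝ) ≤ R₀ := by positivity
          have h3 : (0:ℝ) ≤ R := by positivity
          nlinarith only [hμ, h1]
      _ = _ := by ring
  · have hsx : sd 0 x ≤ R₀ + 101 * R + 1 := by
      rw [not_and_or, not_le, not_le] at hcase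
      rcases hcase with h1 | h1
      · omega
      · have : sd c x ≤ 100 * sd 0 c := by
          by_contra hcon
          push Not at hcon
          nlinarith only [h1, hcon]
        omega
    have h1 : (sd 0 x : ℝ) ≤ R₀ + 101 * R + 1 := by exact_mod_cast hsx
    calc ‖ψ x‖ ≤ 1 := hψ.le_one x
      _ ≤ C₁ * (Real.exp (μ / 8 * (R₀ + 101 * R + 1)) * Real.exp (-(μ / 8) * sd 0 x)) := by
          rw [← Real.exp_add]
          have h2 : (1:ℝ) ≤ Real.exp (μ / 8 * (R₀ + 101 * R + 1) + -(μ / 8) * sd 0 x) := by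
            apply Real.one_le_exp
            nlinarith only [hμ, h1]
          nlinarith only [hC₁, h2]
      _ = _ := by ring

/-- The eigenfunctions with far away centres have small total weight at a given site,
uniformly in the volume. -/
theorem tail {V : Site d → ℝ} {I : Set ℝ} {μ C₁ : ℝ} {R₀ : ℕ} (hμ : 0 < μ)
    (hdec : CenC V I μ C₁ R₀) (y : Site d) {ε : ℝ} (hε : 0 < ε) :
    ∃ R : ℕ, ∀ R' : ℕ, R ≤ R' → ∀ (n : ℕ), 4 * sd 0 y ≤ 3 * n → ∀ (b : FB V n)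
      (J : Finset (box (0 : Site d) n)), (∀ j ∈ J, b.E j ∈ I ∧ 4 * sd 0 (b.c j) ≤ 3 * n ∧
        R' < sd 0 (b.c j)) → ∑ j ∈ J, ‖b.ψ j y‖ ^ 2 ≤ ε := by
  have hs := (summable_exp_sd (show 0 < μ / 4 by positivity) y).mul_left (C₁ ^ 2)
  have hv := (summable_iff_vanishing_norm (E := ℝ)).1 hs ε hε
  obtain ⟨s, hs'⟩ := hv
  -- a radius beyond all of `s`
  obtain ⟨R₁, hR₁⟩ : ∃ R₁ : ℕ, ∀ x ∈ s, sd 0 x ≤ R₁ := ⟨s.sup fun x => sd 0 x, fun x hx =>
    Finset.le_sup (f := fun x => sd 0 x) hx⟩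
  refine ⟨R₁ + 2 * sd 0 y + 2 * R₀ + 400, ?_⟩
  intro R' hR' n hyn b J hJ
  have hfib := Finset.sum_fiberwise_of_maps_to
    (s := J)
    (t := (box (0 : Site d) n).filter fun c => R' < sd 0 c) (g := b.c)
    (fun j hj => by
      rw [Finset.mem_filter]
      exact ⟨(b.cen j).1, (hJ j hj).2.2⟩) (fun j => ‖b.ψ j y‖ ^ 2)
  rw [← hfib]
  have hb : ∀ c ∈ (box (0 : Site d) n).filter (fun c => R' < sd 0 c),
      ∑ j ∈ J with b.c j = c,
        ‖b.ψ j y‖ ^ 2 ≤ C₁ ^ 2 * Real.exp (-(μ / 4) * sd c y) := by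
    intro c hc
    rw [Finset.mem_filter] at hc
    calc _ ≤ ∑ j ∈ J with b.c j = c,
          C₁ ^ 2 * Real.exp (-(μ / 4) * sd c y) * ‖b.ψ j c‖ ^ 2 := by
          apply Finset.sum_le_sum
          intro j hj
          rw [Finset.mem_filter] at hj
          obtain ⟨hj, rfl⟩ := hj
          obtain ⟨hE, hcn, hR⟩ := hJ j hj
          have hsd : sd 0 (b.c j) ≤ sd 0 y + sd (b.c j) y := by
            have := sd_triangle 0 y (b.c j)
            rw [sd_comm y] at this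
            exact this
          have h1 := hdec n (b.E j) (b.ψ j) (b.c j) hE (b.fin j) (b.cen j) hcn y hyn (by omega)
            (by
              have h2 : sd 0 (b.c j) ≤ 2 * sd (b.c j) y := by omega
              have h3 : 200 ≤ sd (b.c j) y := by omega
              nlinarith only [hR', hc, hsd])
          have h2 : Real.exp (-(μ / 4) * sd (b.c j) y) =
              Real.exp (-(μ / 8) * sd (b.c j) y) ^ 2 := by
            rw [← Real.exp_nat_mul]; congr 1; push_cast; ring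
          rw [h2]
          calc ‖b.ψ j y‖ ^ 2 ≤ (C₁ * Real.exp (-(μ / 8) * sd (b.c j) y) * ‖b.ψ j (b.c j)‖) ^ 2 :=
                pow_le_pow_left₀ (norm_nonneg _) h1 2
            _ = _ := by ring
      _ ≤ ∑ j, C₁ ^ 2 * Real.exp (-(μ / 4) * sd c y) * ‖b.ψ j c‖ ^ 2 := by
          apply Finset.sum_le_sum_of_subset_of_nonneg (Finset.subset_univ _)
          intro j _ _
          positivity
      _ = C₁ ^ 2 * Real.exp (-(μ / 4) * sd c y) * ∑ j, ‖b.ψ j c‖ ^ 2 := by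
          rw [Finset.mul_sum]
      _ ≤ C₁ ^ 2 * Real.exp (-(μ / 4) * sd c y) * 1 :=
          mul_le_mul_of_nonneg_left (b.bessel c) (by positivity)
      _ = _ := mul_one _
  refine (Finset.sum_le_sum hb).trans ?_
  have hdisj : Disjoint ((box (0 : Site d) n).filter fun c => R' < sd 0 c) s := by
    rw [Finset.disjoint_left]
    intro c hc hcs
    rw [Finset.mem_filter] at hc
    have := hR₁ c hcs
    omega
  have := hs' _ hdisj
  rw [Real.norm_eq_abs] at this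
  exact (le_abs_self _).trans this.le

/-- The number of eigenfunctions with centres in a given box and small mass near the boundary is
bounded uniformly in the volume. -/
theorem count {V : Site d → ℝ} {I : Set ℝ} {μ C₁ : ℝ} {R₀ : ℕ} (hμ : 0 < μ) (hC₁ : 1 ≤ C₁)
    (hdec : CenC V I μ C₁ R₀) (R : ℕ) :
    ∃ N : ℕ, ∀ (k : ℕ) (b : FB V (8 * k)) (J : Finset (box (0 : Site d) (8 * k))),
      (∀ j ∈ J, b.E j ∈ I ∧ 4 * sd 0 (b.c j) ≤ 3 * (8 * k) ∧
        ∑ x ∈ box (0 : Site d) (8 * k) \ box 0 (5 * k), ‖b.ψ j x‖ ^ 2 ≤ 1 / 4 ∧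
        sd 0 (b.c j) ≤ R) → J.card ≤ N := by
  obtain ⟨C, hC, hud⟩ := udecay hμ hC₁ hdec R
  have hs := (summable_exp_sd (show 0 < μ / 4 by positivity) (0 : Site d)).mul_left (C ^ 2)
  obtain ⟨s, hs'⟩ := (summable_iff_vanishing_norm (E := ℝ)).1 hs (1 / 4) (by norm_num)
  refine ⟨2 * s.card, ?_⟩
  intro k b J hJ
  have h1 : ∀ j ∈ J, 1 / 2 ≤ ∑ x ∈ s, ‖b.ψ j x‖ ^ 2 := by
    intro j hj
    obtain ⟨hE, hcn, hm, hcR⟩ := hJ j hj
    have h2 := (b.fin j).norm
    have h3 : ∑ x ∈ box (0 : Site d) (8 * k), ‖b.ψ j x‖ ^ 2 ≤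
        ∑ x ∈ s, ‖b.ψ j x‖ ^ 2 + (∑ x ∈ box (0 : Site d) (5 * k) \ s, ‖b.ψ j x‖ ^ 2 +
          ∑ x ∈ box (0 : Site d) (8 * k) \ box 0 (5 * k), ‖b.ψ j x‖ ^ 2) := by
      have e1 : ∑ x ∈ s ∪ ((box (0 : Site d) (5 * k) \ s) ∪
          (box (0 : Site d) (8 * k) \ box 0 (5 * k))), ‖b.ψ j x‖ ^ 2 ≤
          ∑ x ∈ s, ‖b.ψ j x‖ ^ 2 + (∑ x ∈ box (0 : Site d) (5 * k) \ s, ‖b.ψ j x‖ ^ 2 +
          ∑ x ∈ box (0 : Site d) (8 * k) \ box 0 (5 * k), ‖b.ψ j x‖ ^ 2) := by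
        have hu : ∀ (A B : Finset (Site d)), ∑ x ∈ A ∪ B, ‖b.ψ j x‖ ^ 2 ≤
            ∑ x ∈ A, ‖b.ψ j x‖ ^ 2 + ∑ x ∈ B, ‖b.ψ j x‖ ^ 2 := by
          intro A B
          rw [← Finset.sum_union_inter]
          have : 0 ≤ ∑ x ∈ A ∩ B, ‖b.ψ j x‖ ^ 2 := Finset.sum_nonneg fun x _ => by positivity
          linarith only [this]
        refine (hu _ _).trans ?_
        gcongr
        exact hu _ _
      refine le_trans ?_ e1
      apply Finset.sum_le_sum_of_subset_of_nonneg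
      · intro x hx
        rw [Finset.mem_union, Finset.mem_union, Finset.mem_sdiff, Finset.mem_sdiff]
        by_cases hxs : x ∈ s
        · exact Or.inl hxs
        · by_cases hx5 : x ∈ box (0 : Site d) (5 * k)
          · exact Or.inr (Or.inl ⟨hx5, hxs⟩)
          · exact Or.inr (Or.inr ⟨hx, hx5⟩)
      · intro x _ _; positivity
    have h4 : ∑ x ∈ box (0 : Site d) (5 * k) \ s, ‖b.ψ j x‖ ^ 2 ≤ 1 / 4 := by
      calc _ ≤ ∑ x ∈ box (0 : Site d) (5 * k) \ s, C ^ 2 * Real.exp (-(μ / 4) * sd x 0) := by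
            apply Finset.sum_le_sum
            intro x hx
            rw [Finset.mem_sdiff, mem_box] at hx
            have h5 := hud (8 * k) (b.E j) (b.ψ j) (b.c j) hE (b.fin j) (b.cen j) hcn hcR x
              (by omega)
            have h6 : Real.exp (-(μ / 4) * sd x 0) = Real.exp (-(μ / 8) * sd 0 x) ^ 2 := by
              rw [← Real.exp_nat_mul, sd_comm]; congr 1; push_cast; ring
            rw [h6]
            calc ‖b.ψ j x‖ ^ 2 ≤ (C * Real.exp (-(μ / 8) * sd 0 x)) ^ 2 :=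
                  pow_le_pow_left₀ (norm_nonneg _) h5 2
              _ = _ := by ring
        _ ≤ 1 / 4 := by
            have := hs' _ (Finset.sdiff_disjoint (s := s) (t := box (0 : Site d) (5 * k)))
            rw [Real.norm_eq_abs] at this
            exact (le_abs_self _).trans this.le
    linarith only [hm, h2, h3, h4]
  have h2 : (J.card : ℝ) * (1 / 2) ≤ s.card := by
    calc (J.card : ℝ) * (1 / 2) = ∑ _j ∈ J, (1 / 2 : ℝ) := by rw [Finset.sum_const, nsmul_eq_mul]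
      _ ≤ ∑ j ∈ J, ∑ x ∈ s, ‖b.ψ j x‖ ^ 2 := Finset.sum_le_sum h1
      _ ≤ ∑ j, ∑ x ∈ s, ‖b.ψ j x‖ ^ 2 := by
          apply Finset.sum_le_sum_of_subset_of_nonneg (Finset.subset_univ _)
          intro j _ _
          positivity
      _ = ∑ x ∈ s, ∑ j, ‖b.ψ j x‖ ^ 2 := Finset.sum_comm
      _ ≤ ∑ _x ∈ s, (1 : ℝ) := Finset.sum_le_sum fun x _ => b.bessel x
      _ = s.card := by simp
  have h3 : (J.card : ℝ) ≤ 2 * s.card := by linarith only [h2]
  exact_mod_cast h3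

/-- Compactness. -/
theorem limit_eig {V : Site d → ℝ} {a a' μ C₁ : ℝ} {R₀ : ℕ} (hμ : 0 < μ) (hC₁ : 1 ≤ C₁)
    (hdec : CenC V (Set.Icc a a') μ C₁ R₀) (R : ℕ) (u : L2 d) {κ : ℝ} (hκ : 0 < κ) {n₀ : ℕ}
    (H : ∀ k, n₀ ≤ k → ∃ (E : ℝ) (ψ : Site d → ℂ) (c : Site d), E ∈ Set.Icc a a' ∧
      FinEig V (8 * k) E ψ ∧ IsCenter (8 * k) ψ c ∧ 4 * sd 0 c ≤ 3 * (8 * k) ∧ sd 0 c ≤ R ∧
      κ ≤ ‖pr (8 * k) ψ u‖) :
    ∃ (E : ℝ) (ψ : L2 d), E ∈ Set.Icc a a' ∧ IsEigen V E ψ ∧ ⟪ψ, u⟫_ℂ ≠ 0 := by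
  obtain ⟨C, hC, hud⟩ := udecay hμ hC₁ hdec R
  choose! E ψ c hE hψ hc hcn hcR hκn using H
  -- extraction
  set K : Set (ℝ × (Site d → ℂ)) := Set.Icc a a' ×ˢ
    Set.univ.pi fun _ => Metric.closedBall (0 : ℂ) 1 with hK
  have hKc : IsCompact K := isCompact_Icc.prod (isCompact_univ_pi fun _ => isCompact_closedBall _ _)
  have hmem : ∀ n, (E (n₀ + n), ψ (n₀ + n)) ∈ K := by
    intro n
    refine ⟨hE _ (by omega), ?_⟩
    intro x _
    rw [mem_closedBall_zero_iff]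
    exact (hψ _ (by omega)).le_one x
  obtain ⟨⟨E', ψ'⟩, hEm, φ, hφ, hlim⟩ := hKc.tendsto_subseq hmem
  have hlimE : Tendsto (fun k => E (n₀ + φ k)) atTop (𝓝 E') :=
    (continuous_fst.tendsto _).comp hlim
  have hlimψ : ∀ x, Tendsto (fun k => ψ (n₀ + φ k) x) atTop (𝓝 (ψ' x)) := by
    intro x
    exact ((continuous_apply x).tendsto _).comp ((continuous_snd.tendsto _).comp hlim)
  have hφn : ∀ k, n₀ ≤ n₀ + φ k := fun k => by omega
  have hφk : ∀ k, k ≤ φ k := fun k => hφ.id_le k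
  have hdecψ : ∀ x, ‖ψ' x‖ ≤ C * Real.exp (-(μ / 8) * sd 0 x) := by
    intro x
    refine le_of_tendsto (hlimψ x).norm ?_
    filter_upwards [eventually_ge_atTop (sd 0 x)] with k hk
    have := hφk k
    exact hud _ _ _ _ (hE _ (hφn k)) (hψ _ (hφn k)) (hc _ (hφn k)) (hcn _ (hφn k))
      (hcR _ (hφn k)) x (by omega)
  have hsum2 : Summable fun x : Site d => (C * Real.exp (-(μ / 8) * sd 0 x)) ^ 2 := by
    have := (summable_exp_sd (show 0 < μ / 4 by positivity) (0 : Site d)).mul_left (C ^ 2)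
    refine this.congr fun x => ?_
    have h6 : Real.exp (-(μ / 4) * sd x 0) = Real.exp (-(μ / 8) * sd 0 x) ^ 2 := by
      rw [← Real.exp_nat_mul, sd_comm]; congr 1; push_cast; ring
    rw [h6]; ring
  have hmemψ : Memℓp ψ' 2 := by
    rw [memℓp_iff]
    refine Summable.of_nonneg_of_le (fun x => by positivity) (fun x => ?_) hsum2
    exact pow_le_pow_left₀ (norm_nonneg _) (hdecψ x) 2
  obtain ⟨Ψ, hΨ⟩ : ∃ Ψ : L2 d, ∀ x, Ψ x = ψ' x := ⟨⟨ψ', hmemψ⟩, fun _ => rfl⟩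
  refine ⟨E', Ψ, hEm.1, ?_, ?_⟩
  · intro x
    have h1 : Tendsto (fun k => lap (ψ (n₀ + φ k)) x + (V x : ℂ) * ψ (n₀ + φ k) x) atTop
        (𝓝 (lap ψ' x + (V x : ℂ) * ψ' x)) := by
      refine Tendsto.add ?_ ((hlimψ x).const_mul _)
      unfold lap
      apply tendsto_finsetSum
      intro i _
      exact (hlimψ _).add (hlimψ _)
    have h2 : Tendsto (fun k => (E (n₀ + φ k) : ℂ) * ψ (n₀ + φ k) x) atTop
        (𝓝 ((E' : ℂ) * ψ' x)) :=
      ((Complex.continuous_ofReal.tendsto _).comp hlimE).mul (hlimψ x)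
    have h3 : (Ψ : Site d → ℂ) = ψ' := funext hΨ
    rw [h3]
    refine tendsto_nhds_unique (h1.congr' ?_) h2
    filter_upwards [eventually_ge_atTop (sd 0 x)] with k hk
    apply (hψ _ (hφn k)).eq
    rw [mem_box]
    have : k ≤ φ k := hφk k
    omega
  · -- partial sums
    have htr : Tendsto (fun m => ‖u - trunc m u‖) atTop (𝓝 0) := by
      have h1 := ((tendsto_const_nhds (x := u)).sub (tendsto_trunc u)).norm
      simpa using h1
    have hpart : ∀ m, κ - ‖u - trunc m u‖ ≤ ‖∑ x ∈ box (0 : Site d) m, conj (ψ' x) * u x‖ := by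
      intro m
      have h1 : Tendsto (fun k => ‖∑ x ∈ box (0 : Site d) m, conj (ψ (n₀ + φ k) x) * u x‖) atTop
          (𝓝 ‖∑ x ∈ box (0 : Site d) m, conj (ψ' x) * u x‖) := by
        refine Tendsto.norm ?_
        apply tendsto_finsetSum
        intro x _
        exact ((Complex.continuous_conj.tendsto _).comp (hlimψ x)).mul_const _
      refine ge_of_tendsto h1 ?_
      filter_upwards [eventually_ge_atTop m] with k hk
      have hk' := hφk k
      have hmn : m ≤ 8 * (n₀ + φ k) := by omega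
      have h2 : pr (8 * (n₀ + φ k)) (ψ (n₀ + φ k)) u =
          ∑ x ∈ box (0 : Site d) m, conj (ψ (n₀ + φ k) x) * u x +
            pr (8 * (n₀ + φ k)) (ψ (n₀ + φ k)) (u - trunc m u : L2 d) := by
        have h3 : ∑ x ∈ box (0 : Site d) m, conj (ψ (n₀ + φ k) x) * u x =
            ∑ x ∈ box (0 : Site d) (8 * (n₀ + φ k)), conj (ψ (n₀ + φ k) x) * trunc m u x := by
          rw [← Finset.sum_subset (box_mono 0 hmn)]
          · apply Finset.sum_congr rfl
            intro x hx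
            rw [trunc_apply, if_pos hx]
          · intro x _ hx
            rw [trunc_apply, if_neg hx, mul_zero]
        rw [h3]
        unfold pr
        rw [← Finset.sum_add_distrib]
        apply Finset.sum_congr rfl
        intro x _
        rw [lp.coeFn_sub, Pi.sub_apply]
        ring
      have h3 : ‖pr (8 * (n₀ + φ k)) (ψ (n₀ + φ k)) (u - trunc m u : L2 d)‖ ≤
          ‖u - trunc m u‖ := by
        have h4 := pr_cs (8 * (n₀ + φ k)) (ψ (n₀ + φ k)) (u - trunc m u : L2 d)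
        rw [(hψ _ (hφn k)).norm, one_mul] at h4
        have h5 := sum_le_norm_sq (u - trunc m u) (box (0 : Site d) (8 * (n₀ + φ k)))
        exact abs_le_of_sq_le_sq' (h4.trans h5) (norm_nonneg _) |>.2
      have h4 := hκn _ (hφn k)
      rw [h2] at h4
      have h5 := norm_add_le (∑ x ∈ box (0 : Site d) m, conj (ψ (n₀ + φ k) x) * u x)
        (pr (8 * (n₀ + φ k)) (ψ (n₀ + φ k)) (u - trunc m u : L2 d))
      linarith only [h3, h4, h5]
    have hsm : Summable fun x : Site d => conj (ψ' x) * u x := by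
      apply Summable.of_norm
      have h3 := hsum2.add (L2.summable_sq u)
      refine Summable.of_nonneg_of_le (fun x => by positivity) (fun x => ?_) h3
      rw [norm_mul, RCLike.norm_conj]
      have h4 := hdecψ x
      nlinarith only [sq_nonneg (C * Real.exp (-(μ / 8) * sd 0 x) - ‖u x‖),
          sq_nonneg (C * Real.exp (-(μ / 8) * sd 0 x)), sq_nonneg ‖u x‖,
          mul_le_mul_of_nonneg_right h4 (norm_nonneg (u x)), norm_nonneg (u x)]
    have hL : Tendsto (fun m => ‖∑ x ∈ box (0 : Site d) m, conj (ψ' x) * u x‖) atTop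
        (𝓝 ‖∑' x, conj (ψ' x) * u x‖) := (hsm.hasSum.comp tendsto_box).norm
    have hR' : Tendsto (fun m => κ - ‖u - trunc m u‖) atTop (𝓝 κ) := by
      simpa using (tendsto_const_nhds (x := κ)).sub htr
    have hfin : κ ≤ ‖∑' x, conj (ψ' x) * u x‖ := le_of_tendsto_of_tendsto' hR' hL hpart
    intro h0
    rw [lp.inner_eq_tsum] at h0
    have h5 : ∑' x, conj (ψ' x) * u x = 0 := by
      rw [← h0]
      apply tsum_congr
      intro x
      rw [RCLike.inner_apply, mul_comm, hΨ x]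
    rw [h5, norm_zero] at hfin
    linarith

end Pool.Agent.Mob.H46
end
end -- Pool.Agent.Helper46_Mob.Cmp1

section -- Pool.Agent.Helper46_Mob.Cmp

/-!
# Metal-insulator transport transition, module CMP: completeness of the localized eigenfunctions
-/

set_option autoImplicit false
set_option linter.unusedSectionVars false

open MeasureTheory ProbabilityTheory Function Filter

open scoped ENNReal BigOperators Topology ComplexConjugate InnerProductSpace

noncomputable section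

namespace Pool.Agent.Mob.H46

open Pool.Agent.Anderson Pool.Agent.Loc Pool.Agent.Helper54.Bal Pool.Agent.Mob

variable {d : ℕ}

/-- The energies outside the window carry only a part of the mass. -/
theorem low {V : Site d → ℝ} {c r : ℝ} (hr : 0 < r) {u w : L2 d}
    (hw : ∀ x, w x = lap u x + (V x : ℂ) * u x) {ε : ℝ} (hε : 0 < ε) :
    ∃ n₀ : ℕ, ∀ n, n₀ ≤ n → ∀ (b : FB V n) (J : Finset (box (0 : Site d) n)),
      (∀ j, j ∉ J → b.E j ∉ Set.Icc (c - r) (c + r)) →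
      r ^ 2 * ‖u‖ ^ 2 - ‖w - (c : ℂ) • u‖ ^ 2 - ε ≤ r ^ 2 * ∑ j ∈ J, ‖pr n (b.ψ j) u‖ ^ 2 := by
  set v : L2 d := w - (c : ℂ) • u with hv
  have hvx : ∀ x, v x = w x - (c : ℂ) * u x := by
    intro x
    rw [hv, lp.coeFn_sub, Pi.sub_apply, lp.coeFn_smul, Pi.smul_apply, smul_eq_mul]
  set g : ℕ → Site d → ℂ := fun n x => (lap (trunc n u) x + (V x : ℂ) * trunc n u x) -
    (c : ℂ) * trunc n u x with hg
  set D : ℕ → ℝ := fun n => ‖Lap d (u - trunc n u)‖ ^ 2 with hD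
  have hDlim : Tendsto D atTop (𝓝 0) := by
    have h1 := (tendsto_const_nhds (x := u)).sub (tendsto_trunc u)
    rw [sub_self] at h1
    have h2 := (((Lap d).continuous.tendsto 0).comp h1).norm.pow 2
    simpa [hD] using h2
  have hgw : ∀ n, ∀ x ∈ box (0 : Site d) n, g n x - v x = - Lap d (u - trunc n u) x := by
    intro n x hx
    rw [Lap_apply]
    have h1 : lap ((u - trunc n u : L2 d) : Site d → ℂ) x = lap u x - lap (trunc n u) x := by
      unfold lap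
      rw [← Finset.sum_sub_distrib]
      apply Finset.sum_congr rfl
      intro i _
      rw [lp.coeFn_sub, Pi.sub_apply, Pi.sub_apply]
      ring
    rw [h1, hvx x, hw x, hg]
    simp only [trunc_apply, hx, if_true]
    ring
  have hDn : ∀ n, ∑ x ∈ box (0 : Site d) n, ‖g n x - v x‖ ^ 2 ≤ D n := by
    intro n
    rw [Finset.sum_congr rfl fun x hx => by rw [hgw n x hx, norm_neg]]
    exact sum_le_norm_sq _ _
  -- the norm of `g`
  set t : ℝ := ε / (4 * (‖v‖ ^ 2 + 1)) with ht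
  have ht0 : 0 < t := by positivity
  have htv : t * ‖v‖ ^ 2 ≤ ε / 4 := by
    rw [ht, div_mul_eq_mul_div, div_le_iff₀ (by positivity)]
    have h0 : ε / 4 * (4 * (‖v‖ ^ 2 + 1)) = ε * ‖v‖ ^ 2 + ε := by ring
    rw [h0]
    linarith only [hε]
  have hgn : ∀ n, ∑ x ∈ box (0 : Site d) n, ‖g n x‖ ^ 2 ≤
      (1 + t) * ‖v‖ ^ 2 + (1 + 1 / t) * D n := by
    intro n
    have h1 : ∀ x ∈ box (0 : Site d) n, ‖g n x‖ ^ 2 ≤
        (1 + t) * ‖v x‖ ^ 2 + (1 + 1 / t) * ‖g n x - v x‖ ^ 2 := by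
      intro x _
      have h2 : ‖g n x‖ ≤ ‖v x‖ + ‖g n x - v x‖ := by
        have := norm_add_le (v x) (g n x - v x)
        rwa [add_sub_cancel] at this
      have h3 := pow_le_pow_left₀ (norm_nonneg _) h2 2
      have h4 : 2 * ‖v x‖ * ‖g n x - v x‖ ≤ t * ‖v x‖ ^ 2 + 1 / t * ‖g n x - v x‖ ^ 2 := by
        have h5 : 0 ≤ (t * ‖v x‖ - ‖g n x - v x‖) ^ 2 / t := by positivity
        have h6 : (t * ‖v x‖ - ‖g n x - v x‖) ^ 2 / t =
            t * ‖v x‖ ^ 2 + 1 / t * ‖g n x - v x‖ ^ 2 - 2 * ‖v x‖ * ‖g n x - v x‖ := by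
          field_simp
          ring
        linarith only [h5, h6]
      linarith only [h3, h4]
    calc _ ≤ ∑ x ∈ box (0 : Site d) n,
          ((1 + t) * ‖v x‖ ^ 2 + (1 + 1 / t) * ‖g n x - v x‖ ^ 2) := Finset.sum_le_sum h1
      _ = (1 + t) * ∑ x ∈ box (0 : Site d) n, ‖v x‖ ^ 2 +
          (1 + 1 / t) * ∑ x ∈ box (0 : Site d) n, ‖g n x - v x‖ ^ 2 := by
          rw [Finset.sum_add_distrib, ← Finset.mul_sum, ← Finset.mul_sum]
      _ ≤ _ := by
          have h2 := sum_le_norm_sq v (box (0 : Site d) n)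
          have h3 := hDn n
          gcongr
  have hlim1 : ∀ᶠ n in atTop, (1 + 1 / t) * D n < ε / 4 := by
    have h1 := hDlim.const_mul (1 + 1 / t)
    rw [mul_zero] at h1
    exact h1.eventually (gt_mem_nhds (by positivity))
  have hlim2 : ∀ᶠ n in atTop, ‖u‖ ^ 2 - ε / (2 * r ^ 2) < ∑ x ∈ box (0 : Site d) n, ‖u x‖ ^ 2 := by
    have h1 : Tendsto (fun n => ∑ x ∈ box (0 : Site d) n, ‖u x‖ ^ 2) atTop (𝓝 (‖u‖ ^ 2)) := by
      rw [L2.norm_sq]
      exact (L2.summable_sq u).hasSum.comp tendsto_box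
    refine h1.eventually (lt_mem_nhds ?_)
    have : 0 < ε / (2 * r ^ 2) := by positivity
    linarith only [this]
  obtain ⟨n₀, hn₀⟩ := eventually_atTop.1 (hlim1.and hlim2)
  refine ⟨n₀, fun n hn b J hJ => ?_⟩
  obtain ⟨hn1, hn2⟩ := hn₀ n hn
  have hbE : ∀ j, pr n (b.ψ j) (g n) = ((b.E j - c : ℝ) : ℂ) * pr n (b.ψ j) u := by
    intro j
    have h1 := (b.fin j).pr_H (f := trunc n u) (fun x hx => by rw [trunc_apply, if_neg hx])
    have h2 : pr n (b.ψ j) (trunc n u) = pr n (b.ψ j) u := by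
      unfold pr
      apply Finset.sum_congr rfl
      intro x hx
      rw [trunc_apply, if_pos hx]
    have h3 : pr n (b.ψ j) (fun x => (c : ℂ) * trunc n u x) = (c : ℂ) * pr n (b.ψ j) u := by
      rw [← h2]
      unfold pr
      rw [Finset.mul_sum]
      apply Finset.sum_congr rfl
      intro x _
      ring
    rw [hg]
    simp only
    rw [pr_sub, h1, h2, h3]
    push_cast
    ring
  have hP := b.pars (g n)
  have hPu := b.pars u
  have hout : r ^ 2 * ∑ j ∈ Finset.univ \ J, ‖pr n (b.ψ j) u‖ ^ 2 ≤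
      ∑ j, ‖pr n (b.ψ j) (g n)‖ ^ 2 := by
    rw [Finset.mul_sum]
    refine le_trans ?_ (Finset.sum_le_sum_of_subset_of_nonneg
      (Finset.subset_univ (Finset.univ \ J)) fun j _ _ => by positivity)
    apply Finset.sum_le_sum
    intro j hj
    have h1 := hJ j (Finset.mem_sdiff.1 hj).2
    rw [hbE j, norm_mul, mul_pow, Complex.norm_real, Real.norm_eq_abs, sq_abs]
    apply mul_le_mul_of_nonneg_right _ (by positivity)
    rw [Set.mem_Icc, not_and_or, not_le, not_le] at h1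
    rcases h1 with h1 | h1
    · nlinarith only [h1, hr]
    · nlinarith only [h1, hr]
  have hsplit : ∑ j ∈ Finset.univ \ J, ‖pr n (b.ψ j) u‖ ^ 2 + ∑ j ∈ J, ‖pr n (b.ψ j) u‖ ^ 2 =
      ∑ j, ‖pr n (b.ψ j) u‖ ^ 2 := Finset.sum_sdiff (Finset.subset_univ J)
  have h1 := hgn n
  have h2 : r ^ 2 * (‖u‖ ^ 2 - ε / (2 * r ^ 2)) ≤
      r ^ 2 * ∑ x ∈ box (0 : Site d) n, ‖u x‖ ^ 2 :=
    mul_le_mul_of_nonneg_left hn2.le (by positivity)
  have h3 : r ^ 2 * (‖u‖ ^ 2 - ε / (2 * r ^ 2)) = r ^ 2 * ‖u‖ ^ 2 - ε / 2 := by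
    field_simp
  rw [← hPu, ← hsplit, mul_add] at h2
  rw [← hP] at h1
  linarith only [h1, h2, h3, hout, htv, hn1, hε]

/-- A family of eigenvectors which is small at the sites of a cube carries a small part of `u`. -/
theorem small_of_sites {V : Site d → ℝ} {n : ℕ} (b : FB V n) (u : L2 d) {m : ℕ} (hmn : m ≤ n)
    (J : Finset (box (0 : Site d) n)) {ε : ℝ}
    (hJ : ∀ y ∈ box (0 : Site d) m, ∑ j ∈ J, ‖b.ψ j y‖ ^ 2 ≤ ε) :
    ∑ j ∈ J, ‖pr n (b.ψ j) u‖ ^ 2 ≤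
      2 * ((box (0 : Site d) m).card * ε * ‖u‖ ^ 2) + 2 * ‖u - trunc m u‖ ^ 2 := by
  have h1 : ∀ j, ‖pr n (b.ψ j) u‖ ^ 2 ≤ 2 * ‖pr n (b.ψ j) (trunc m u)‖ ^ 2 +
      2 * ‖pr n (b.ψ j) (fun x => u x - trunc m u x)‖ ^ 2 := by
    intro j
    rw [pr_sub]
    have h2 : ‖pr n (b.ψ j) u‖ ≤ ‖pr n (b.ψ j) (trunc m u)‖ +
        ‖pr n (b.ψ j) u - pr n (b.ψ j) (trunc m u)‖ := by
      have := norm_add_le (pr n (b.ψ j) (trunc m u))
        (pr n (b.ψ j) u - pr n (b.ψ j) (trunc m u))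
      rwa [add_sub_cancel] at this
    have h3 := pow_le_pow_left₀ (norm_nonneg _) h2 2
    linarith only [h3, sq_nonneg (‖pr n (b.ψ j) (trunc m u)‖ -
      ‖pr n (b.ψ j) u - pr n (b.ψ j) (trunc m u)‖)]
  have h2 : ∑ j ∈ J, ‖pr n (b.ψ j) (fun x => u x - trunc m u x)‖ ^ 2 ≤ ‖u - trunc m u‖ ^ 2 := by
    refine (Finset.sum_le_sum_of_subset_of_nonneg (Finset.subset_univ J)
      fun j _ _ => by positivity).trans ?_
    rw [b.pars]
    exact sum_le_norm_sq (u - trunc m u) (box (0 : Site d) n)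
  have h3 : ∑ j ∈ J, ‖pr n (b.ψ j) (trunc m u)‖ ^ 2 ≤
      (box (0 : Site d) m).card * ε * ‖u‖ ^ 2 := by
    have h4 : ∀ j, ‖pr n (b.ψ j) (trunc m u)‖ ^ 2 ≤
        (∑ y ∈ box (0 : Site d) m, ‖b.ψ j y‖ ^ 2) * ‖u‖ ^ 2 := by
      intro j
      have h5 : pr n (b.ψ j) (trunc m u) = pr m (b.ψ j) u := by
        unfold pr
        rw [← Finset.sum_subset (box_mono 0 hmn)]
        · apply Finset.sum_congr rfl
          intro x hx
          rw [trunc_apply, if_pos hx]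
        · intro x _ hx
          rw [trunc_apply, if_neg hx, mul_zero]
      rw [h5]
      refine (pr_cs m (b.ψ j) u).trans ?_
      gcongr
      exact sum_le_norm_sq _ _
    calc _ ≤ ∑ j ∈ J, (∑ y ∈ box (0 : Site d) m, ‖b.ψ j y‖ ^ 2) * ‖u‖ ^ 2 :=
          Finset.sum_le_sum fun j _ => h4 j
      _ = (∑ y ∈ box (0 : Site d) m, ∑ j ∈ J, ‖b.ψ j y‖ ^ 2) * ‖u‖ ^ 2 := by
          rw [← Finset.sum_mul, Finset.sum_comm]
      _ ≤ (∑ _y ∈ box (0 : Site d) m, ε) * ‖u‖ ^ 2 := by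
          gcongr with y hy
          exact hJ y hy
      _ = _ := by rw [Finset.sum_const, nsmul_eq_mul]
  calc _ ≤ ∑ j ∈ J, (2 * ‖pr n (b.ψ j) (trunc m u)‖ ^ 2 +
        2 * ‖pr n (b.ψ j) (fun x => u x - trunc m u x)‖ ^ 2) :=
        Finset.sum_le_sum fun j _ => h1 j
    _ = 2 * ∑ j ∈ J, ‖pr n (b.ψ j) (trunc m u)‖ ^ 2 +
        2 * ∑ j ∈ J, ‖pr n (b.ψ j) (fun x => u x - trunc m u x)‖ ^ 2 := by
        rw [Finset.sum_add_distrib, ← Finset.mul_sum, ← Finset.mul_sum]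
    _ ≤ _ := by linarith only [h2, h3]

/-- the volume against the exponential decay -/
theorem vol_exp (d : ℕ) {μ : ℝ} (hμ : 0 < μ) {ε : ℝ} (hε : 0 < ε) :
    ∃ n₀ : ℕ, ∀ k : ℕ, n₀ ≤ k →
      (box (0 : Site d) (8 * k)).card * Real.exp (-μ * k) < ε := by
  have h1 := tendsto_poly_exp d hμ (1 / 8) (8 ^ d)
  obtain ⟨n₀, hn₀⟩ := eventually_atTop.1 (h1.eventually (gt_mem_nhds hε))
  refine ⟨n₀, fun k hk => ?_⟩
  refine lt_of_le_of_lt (le_of_eq ?_) (hn₀ k hk)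
  rw [card_box, ← mul_pow]
  push_cast
  congr 2
  ring

/-- Eigenvectors which are small in the inner cube. -/
theorem sites_a (d : ℕ) {μ : ℝ} (hμ : 0 < μ) {ε : ℝ} (hε : 0 < ε) (m : ℕ) :
    ∃ n₀ : ℕ, ∀ k : ℕ, n₀ ≤ k → ∀ (V : Site d → ℝ) (b : FB V (8 * k))
      (J : Finset (box (0 : Site d) (8 * k))),
      (∀ j ∈ J, ∀ x ∈ box (0 : Site d) (2 * k), ‖b.ψ j x‖ ≤ Real.exp (-(μ / 2) * k)) →
      ∀ y ∈ box (0 : Site d) m, ∑ j ∈ J, ‖b.ψ j y‖ ^ 2 ≤ ε := by
  obtain ⟨n₀, hn₀⟩ := vol_exp d hμ hε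
  refine ⟨max n₀ m, fun k hk V b J hJ y hy => ?_⟩
  have hk1 : n₀ ≤ k := (le_max_left _ _).trans hk
  have hk2 : m ≤ k := (le_max_right _ _).trans hk
  refine le_trans ?_ (hn₀ k hk1).le
  have h1 : ∀ j ∈ J, ‖b.ψ j y‖ ^ 2 ≤ Real.exp (-μ * k) := by
    intro j hj
    have h2 := hJ j hj y (box_mono 0 (by omega) hy)
    have h3 : Real.exp (-μ * k) = Real.exp (-(μ / 2) * k) ^ 2 := by
      rw [← Real.exp_nat_mul]; congr 1; push_cast; ring
    rw [h3]
    exact pow_le_pow_left₀ (norm_nonneg _) h2 2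
  calc _ ≤ ∑ _j ∈ J, Real.exp (-μ * k) := Finset.sum_le_sum h1
    _ = J.card * Real.exp (-μ * k) := by rw [Finset.sum_const, nsmul_eq_mul]
    _ ≤ _ := by
        gcongr
        calc J.card ≤ (Finset.univ : Finset (box (0 : Site d) (8 * k))).card :=
              Finset.card_le_univ _
          _ = _ := by rw [Finset.card_univ, Fintype.card_coe]

/-- The centre is in the bulk. -/
theorem bulk_center (d : ℕ) {μ : ℝ} (hμ : 0 < μ) :
    ∃ n₀ : ℕ, ∀ k : ℕ, n₀ ≤ k → ∀ (V : Site d → ℝ) (E : ℝ) (ψ : Site d → ℂ) (c : Site d),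
      FinEig V (8 * k) E ψ → IsCenter (8 * k) ψ c →
      ∑ x ∈ box (0 : Site d) (8 * k) \ box 0 (5 * k), ‖ψ x‖ ^ 2 ≤ Real.exp (-(μ / 2) * k) →
      ∑ x ∈ box (0 : Site d) (8 * k) \ box 0 (5 * k), ‖ψ x‖ ^ 2 ≤ 1 / 4 ∧
        4 * sd 0 c ≤ 3 * (8 * k) := by
  obtain ⟨n₀, hn₀⟩ := vol_exp d (show 0 < μ / 2 by positivity) (show (0:ℝ) < 1 / 4 by norm_num)
  refine ⟨n₀, fun k hk V E ψ c hψ hc hm => ?_⟩
  have h1 := hn₀ k hk
  have hcard : (1:ℝ) ≤ (box (0 : Site d) (8 * k)).card := by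
    rw [card_box]
    have : 1 ≤ (2 * (8 * k) + 1) ^ d := Nat.one_le_pow _ _ (by omega)
    exact_mod_cast this
  have hexp : 0 < Real.exp (-(μ / 2) * k) := Real.exp_pos _
  have h2 : Real.exp (-(μ / 2) * k) < 1 / 4 := by
    nlinarith only [h1, hcard, hexp]
  refine ⟨hm.trans h2.le, ?_⟩
  by_contra hcon
  push Not at hcon
  have hcm : c ∈ box (0 : Site d) (8 * k) \ box 0 (5 * k) := by
    rw [Finset.mem_sdiff, mem_box (n := 5 * k)]
    exact ⟨hc.1, by omega⟩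
  have h3 : ‖ψ c‖ ^ 2 ≤ Real.exp (-(μ / 2) * k) :=
    (Finset.single_le_sum (f := fun x => ‖ψ x‖ ^ 2) (fun y _ => by positivity) hcm).trans hm
  have h4 : ∑ x ∈ box (0 : Site d) (8 * k), ‖ψ x‖ ^ 2 ≤
      ∑ _x ∈ box (0 : Site d) (8 * k), Real.exp (-(μ / 2) * k) := by
    apply Finset.sum_le_sum
    intro x _
    exact (pow_le_pow_left₀ (norm_nonneg _) (hc.2 x) 2).trans h3
  rw [hψ.norm, Finset.sum_const, nsmul_eq_mul] at h4
  linarith only [h1, hexp, h2, h4]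

/-- **CMP.** -/
theorem cmp (hdic : DicStmt) (hcen : CenStmt) : CmpStmt := by
  classical
  intro d V c r μ L₀ k₀ hd hμ hTB hSep u w hw horth
  rcases le_or_gt r 0 with hr | hr
  · exact (mul_nonpos_of_nonpos_of_nonneg hr (norm_nonneg _)).trans (norm_nonneg _)
  by_contra hcon
  push Not at hcon
  obtain ⟨C₁, R₀, hC₁, hdec⟩ := hcen d V _ μ L₀ hd hμ hTB
  replace hdec : CenC V (Set.Icc (c - r) (c + r)) μ C₁ R₀ := hdec
  obtain ⟨k₁, hk₁⟩ := hdic d V _ μ L₀ k₀ hd hμ hTB hSep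
  set η : ℝ := ‖u‖ ^ 2 - ‖w - (c : ℂ) • u‖ ^ 2 / r ^ 2 with hη
  have hη0 : 0 < η := by
    rw [hη, sub_pos, div_lt_iff₀ (by positivity)]
    have := pow_lt_pow_left₀ hcon (norm_nonneg _) (n := 2) (by norm_num)
    linarith only [this]
  obtain ⟨n₁, hn₁⟩ := low (V := V) (c := c) hr hw (show 0 < r ^ 2 * η / 4 by positivity)
  -- truncation
  have htr : Tendsto (fun m => ‖u - trunc m u‖ ^ 2) atTop (𝓝 0) := by
    have h1 := ((tendsto_const_nhds (x := u)).sub (tendsto_trunc u)).norm.pow 2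
    simpa using h1
  obtain ⟨m, hm⟩ := (htr.eventually (gt_mem_nhds (show 0 < η / 32 by positivity))).exists
  have hcard : 0 < ((box (0 : Site d) m).card : ℝ) := by
    rw [card_box]; positivity
  set ε : ℝ := η / (32 * ((box (0 : Site d) m).card * (‖u‖ ^ 2 + 1))) with hε
  have hε0 : 0 < ε := by positivity
  have hεb : 2 * ((box (0 : Site d) m).card * ε * ‖u‖ ^ 2) ≤ η / 16 := by
    have h1 : 2 * ((box (0 : Site d) m).card * ε * ‖u‖ ^ 2) =
        (η / 16) * (‖u‖ ^ 2 / (‖u‖ ^ 2 + 1)) := by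
      rw [hε]
      field_simp
      ring
    rw [h1]
    have h2 : ‖u‖ ^ 2 / (‖u‖ ^ 2 + 1) ≤ 1 := by
      rw [div_le_one (by positivity)]
      linarith only
    nlinarith only [h2, hη0]
  obtain ⟨n₂, hn₂⟩ := sites_a d hμ hε0 m
  obtain ⟨n₃, hn₃⟩ := bulk_center d hμ
  obtain ⟨R, hR⟩ : ∃ R : ℕ, ∀ n, 4 * m ≤ 3 * n → ∀ (b : FB V n)
      (J : Finset (box (0 : Site d) n)), (∀ j ∈ J, b.E j ∈ Set.Icc (c - r) (c + r) ∧
        4 * sd 0 (b.c j) ≤ 3 * n ∧ R < sd 0 (b.c j)) → ∀ y ∈ box (0 : Site d) m,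
        ∑ j ∈ J, ‖b.ψ j y‖ ^ 2 ≤ ε := by
    choose R hR using fun y => tail hμ hdec y hε0
    refine ⟨(box (0 : Site d) m).sup R, fun n hn b J hJ y hy => ?_⟩
    have hy' := mem_box.1 hy
    exact hR y _ (Finset.le_sup hy) n (by omega) b J hJ
  obtain ⟨N, hN⟩ := count hμ hC₁ hdec R
  set β : ℝ := η / (2 * (N + 1)) with hβ
  have hβ0 : 0 < β := by positivity
  have main : ∀ k, n₁ + n₂ + n₃ + k₁ + m ≤ k → ∃ (E : ℝ) (ψ : Site d → ℂ) (a : Site d),
      E ∈ Set.Icc (c - r) (c + r) ∧ FinEig V (8 * k) E ψ ∧ IsCenter (8 * k) ψ a ∧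
      4 * sd 0 a ≤ 3 * (8 * k) ∧ sd 0 a ≤ R ∧ √β ≤ ‖pr (8 * k) ψ u‖ := by
    intro k hk
    obtain ⟨b⟩ := exists_FB V (8 * k)
    set S : Finset (box (0 : Site d) (8 * k)) → ℝ := fun J => ∑ j ∈ J, ‖pr (8 * k) (b.ψ j) u‖ ^ 2
      with hS
    set JI := Finset.univ.filter fun j => b.E j ∈ Set.Icc (c - r) (c + r) with hJI
    obtain ⟨P, hP⟩ : ∃ P : box (0 : Site d) (8 * k) → Prop, ∀ j, P j ↔
        ∀ x ∈ box (0 : Site d) (2 * k), ‖b.ψ j x‖ ≤ Real.exp (-(μ / 2) * k) :=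
      ⟨_, fun _ => Iff.rfl⟩
    set Ja := JI.filter fun j => P j with hJa
    set Jb := JI.filter fun j => ¬ P j with hJb
    set Jf := Jb.filter fun j => R < sd 0 (b.c j) with hJf
    set Jn := Jb.filter fun j => ¬ R < sd 0 (b.c j) with hJn
    have hs1 : S Ja + S Jb = S JI := Finset.sum_filter_add_sum_filter_not _ _ _
    have hs2 : S Jf + S Jn = S Jb := Finset.sum_filter_add_sum_filter_not _ _ _
    have hmemI : ∀ j ∈ JI, b.E j ∈ Set.Icc (c - r) (c + r) := by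
      intro j hj
      rw [hJI, Finset.mem_filter] at hj
      exact hj.2
    have hb : ∀ j ∈ Jb, b.E j ∈ Set.Icc (c - r) (c + r) ∧
        ∑ x ∈ box (0 : Site d) (8 * k) \ box 0 (5 * k), ‖b.ψ j x‖ ^ 2 ≤ 1 / 4 ∧
        4 * sd 0 (b.c j) ≤ 3 * (8 * k) := by
      intro j hj
      rw [hJb, Finset.mem_filter] at hj
      have hE := hmemI j hj.1
      refine ⟨hE, ?_⟩
      rcases hk₁ k (by omega) (b.E j) hE (b.ψ j) (b.fin j) with h1 | h1
      · exact absurd ((hP j).2 h1) hj.2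
      · exact hn₃ k (by omega) V (b.E j) (b.ψ j) (b.c j) (b.fin j) (b.cen j) h1
    have hlow := hn₁ (8 * k) (by omega) b JI (fun j hj hE => hj (by
      rw [hJI, Finset.mem_filter]
      exact ⟨Finset.mem_univ j, hE⟩))
    have hlow' : 3 * η / 4 ≤ S JI := by
      have h1 : r ^ 2 * ‖u‖ ^ 2 - ‖w - (c : ℂ) • u‖ ^ 2 - r ^ 2 * η / 4 =
          r ^ 2 * (3 * η / 4) := by
        rw [hη]
        field_simp
        ring
      rw [h1] at hlow
      exact le_of_mul_le_mul_left hlow (by positivity)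
    have hSa : S Ja ≤ η / 8 := by
      have h1 := small_of_sites b u (show m ≤ 8 * k by omega) Ja
        (hn₂ k (by omega) V b Ja (fun j hj => by
          rw [hJa, Finset.mem_filter] at hj
          exact (hP j).1 hj.2))
      have h2 : S Ja ≤ _ := h1
      linarith only [h2, hεb, hm]
    have hSf : S Jf ≤ η / 8 := by
      have h1 := small_of_sites b u (show m ≤ 8 * k by omega) Jf
        (hR (8 * k) (by omega) b Jf (fun j hj => by
          rw [hJf, Finset.mem_filter] at hj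
          have h3 := hb j hj.1
          exact ⟨h3.1, h3.2.2, hj.2⟩))
      have h2 : S Jf ≤ _ := h1
      linarith only [h2, hεb, hm]
    have hSn : η / 2 ≤ S Jn := by linarith only [hs1, hs2, hlow', hSa, hSf]
    have hNn : (Jn.card : ℝ) ≤ N := by
      have := hN k b Jn (fun j hj => by
        rw [hJn, Finset.mem_filter] at hj
        have h3 := hb j hj.1
        exact ⟨h3.1, h3.2.2, h3.2.1, not_lt.1 hj.2⟩)
      exact_mod_cast this
    obtain ⟨j, hj, hjβ⟩ : ∃ j ∈ Jn, β ≤ ‖pr (8 * k) (b.ψ j) u‖ ^ 2 := by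
      by_contra hno
      push Not at hno
      have h1 : S Jn ≤ Jn.card * β := by
        rw [← nsmul_eq_mul, ← Finset.sum_const]
        exact Finset.sum_le_sum fun j hj => (hno j hj).le
      have h3 : (N : ℝ) * β < η / 2 := by
        rw [hβ]
        have hN0 : (0:ℝ) ≤ N := by positivity
        have : (N : ℝ) * (η / (2 * (N + 1))) = (η / 2) * (N / (N + 1)) := by field_simp
        rw [this]
        have h4 : (N : ℝ) / (N + 1) < 1 := by
          rw [div_lt_one (by positivity)]; linarith only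
        exact mul_lt_of_lt_one_right (half_pos hη0) h4
      have h4 : (Jn.card : ℝ) * β ≤ N * β := mul_le_mul_of_nonneg_right hNn hβ0.le
      linarith only [h1, h3, h4, hSn]
    rw [hJn, Finset.mem_filter] at hj
    have h3 := hb j hj.1
    refine ⟨b.E j, b.ψ j, b.c j, h3.1, b.fin j, b.cen j, h3.2.2, not_lt.1 hj.2, ?_⟩
    rw [← Real.sqrt_sq (norm_nonneg (pr (8 * k) (b.ψ j) u))]
    exact Real.sqrt_le_sqrt hjβ
  obtain ⟨E, ψ, hE, heig, hne⟩ := limit_eig hμ hC₁ hdec R u (Real.sqrt_pos.2 hβ0) main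
  exact hne (horth E ψ hE heig)

end Pool.Agent.Mob.H46
end
end -- Pool.Agent.Helper46_Mob.Cmp
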