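import Pool.Agent.Helper12_MEB.B010
import Pool.Agent.Helper12_MEB.B026
import Pool.Agent.Helper12_MEB.B027

/-!
# Merged copies (generated) of the modules

* `Pool.Agent.Helper75_Mob.Transfer`
* `Pool.Agent.LE.Stmts2`
-/

set_option autoImplicit false

section -- Pool.Agent.Helper75_Mob.Transfer

/-!
# Events which depend on finitely many sites: the infinite product law and the law of a finite set
-/

set_option autoImplicit false
set_option linter.unusedSectionVars false

open MeasureTheory ProbabilityTheory Function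

open scoped ENNReal BigOperators

noncomputable section

namespace Pool.Agent.Mob.H75

open Pool.Agent.Anderson Pool.Agent.Loc Pool.Agent.Helper54.Bal

variable {d : ℕ} {ν : Measure ℝ} [IsProbabilityMeasure ν]

theorem map_restrict_PP (Λ : Finset (Site d)) :
    (PP d ν).map (fun (V : Site d → ℝ) (z : Λ) => V z) = Measure.pi fun _ : Λ => ν := by
  unfold PP
  exact Measure.infinitePi_map_restrict (fun _ : Site d => ν)

theorem measurable_restr (Λ : Finset (Site d)) :
    Measurable (fun (V : Site d → ℝ) (z : Λ) => V z) :=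
  measurable_pi_lambda _ fun _ => measurable_pi_apply _

/-- the configuration in `Λ`, extended by `0` -/
def cut (Λ : Finset (Site d)) (V : Site d → ℝ) : Site d → ℝ :=
  updateFinset (0 : Site d → ℝ) Λ (fun z => V z)

theorem measurable_cut (Λ : Finset (Site d)) : Measurable (cut Λ) :=
  measurable_updateFinset.comp (measurable_restr Λ)

theorem cut_apply {Λ : Finset (Site d)} {x : Site d} (hx : x ∈ Λ) (V : Site d → ℝ) :
    cut Λ V x = V x := by
  unfold cut updateFinset
  rw [dif_pos hx]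

theorem map_cut (Λ : Finset (Site d)) : (PP d ν).map (cut Λ) = PL ν Λ := by
  have h := Measure.map_map (μ := PP d ν) (g := updateFinset (0 : Site d → ℝ) Λ)
    measurable_updateFinset (measurable_restr Λ)
  rw [map_restrict_PP] at h
  exact h.symm

/-- `S` depends only on the sites of `Λ` -/
def Loc (S : Set (Site d → ℝ)) (Λ : Finset (Site d)) : Prop :=
  ∀ V V' : Site d → ℝ, (∀ x ∈ Λ, V x = V' x) → (V ∈ S ↔ V' ∈ S)

theorem mem_cut {S : Set (Site d → ℝ)} {Λ : Finset (Site d)} (h : Loc S Λ) (V : Site d → ℝ) :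
    cut Λ V ∈ S ↔ V ∈ S :=
  h _ _ fun _ hx => cut_apply hx V

theorem PL_eq_PP {Λ : Finset (Site d)} {S : Set (Site d → ℝ)} (hS : MeasurableSet S)
    (h : Loc S Λ) : PL ν Λ S = PP d ν S := by
  rw [← map_cut, Measure.map_apply (measurable_cut Λ) hS]
  congr 1
  ext V
  exact mem_cut h V

theorem PP_le_PL {Λ : Finset (Site d)} {S : Set (Site d → ℝ)} (h : Loc S Λ) :
    PP d ν S ≤ PL ν Λ S := by
  have e : PL ν Λ S = PP d ν (cut Λ ⁻¹' toMeasurable (PL ν Λ) S) := by
    rw [← Measure.map_apply (measurable_cut Λ) (measurableSet_toMeasurable _ _), map_cut,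
      measure_toMeasurable]
  rw [e]
  apply measure_mono
  intro V hV
  exact subset_toMeasurable _ _ ((mem_cut h V).2 hV)

end Pool.Agent.Mob.H75
end
end -- Pool.Agent.Helper75_Mob.Transfer

section -- Pool.Agent.LE.Stmts2

/-!
# No exponentially decaying eigenfunctions outside the localized phase: statements of the modules

The proofs are in `/team-store/PAPER_EXPL.md`.
-/

set_option autoImplicit false

open MeasureTheory ProbabilityTheory Function

open scoped ENNReal BigOperators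

noncomputable section

namespace Pool.Agent.LE

open Pool.Agent.Anderson Pool.Agent.Loc Pool.Agent.Helper54.Bal
  Pool.Agent.Helper96.EXP

/-- all the cubes of radius `L` with a centre in the cube of radius `L` about `a` are good -/
def AllGoodC {d : ℕ} (V : Site d → ℝ) (a : Site d) (L : ℕ) (m E : ℝ) : Prop :=
  ∀ s ∈ box a L, (RM V (box s L) E).det ≠ 0 ∧
    ∀ u, sd s u = L → |gr V (box s L) E s u| ≤ Real.exp (-m * L)

/-- CLO: closedness (projection along a compact set of solutions), hence measurability. -/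
def CloStmt : Prop :=
  ∀ (d : ℕ) (C m : ℝ), IsClosed {p : (Site d → ℝ) × ℝ | GoodE C m p.1 p.2} ∧
    ∀ K : Set ℝ, IsCompact K →
      IsClosed {V : Site d → ℝ | ∃ E ∈ K, ∃ n, Sol C m V E n ∧ lapR n 0 + V 0 = E}

/-- NUL: if at each energy of `K` almost no potential is good at `0`, then almost surely no
decaying eigenfunction with value `1` at `0` has its energy in `K`. -/
def NulStmt : Prop :=
  ∀ (d : ℕ) (ν : Measure ℝ) [IsProbabilityMeasure ν] (ρ : ℝ), BddDens ν ρ →
    ∀ (C m : ℝ) (K : Set ℝ), 0 < m → IsCompact K →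
      (∀ E ∈ K, PP d ν {V | GoodE C m V E} = 0) →
      PP d ν {V | ∃ E ∈ K, ∃ n, Sol C m V E n ∧ lapR n 0 + V 0 = E} = 0

/-- NOE: from the site `0` and fixed constants to all exponentially decaying eigenfunctions. -/
def NoeStmt : Prop :=
  ∀ (d : ℕ) (ν : Measure ℝ) [IsProbabilityMeasure ν] (D : Set ℝ), IsClosed D →
    (∀ (C m : ℝ) (K : Set ℝ), 0 < m → IsCompact K → K ⊆ D →
      PP d ν {V | ∃ E ∈ K, ∃ n, Sol C m V E n ∧ lapR n 0 + V 0 = E} = 0) →
    ∀ᵐ V ∂(PP d ν), ∀ E ∈ D, ∀ ψ : Site d → ℂ,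
      (∀ x, lap ψ x + (V x : ℂ) * ψ x = (E : ℂ) * ψ x) →
      (∃ B m : ℝ, 0 < m ∧ ∀ x, ‖ψ x‖ ≤ B * Real.exp (-m * sd 0 x)) → ∀ x, ψ x = 0

/-- ERG: an event of positive probability occurs, after a translation, in each large cube. -/
def ErgStmt : Prop :=
  ∀ (d : ℕ) (ν : Measure ℝ) [IsProbabilityMeasure ν] (S : Set (Site d → ℝ)), 1 ≤ d →
    MeasurableSet S → PP d ν S ≠ 0 → ∀ ε : ℝ, 0 < ε → ∃ n₀ : ℕ, ∀ n : ℕ, n₀ ≤ n →
      ∀ a : Site d, PP d ν {V | ∀ s ∈ box a n, tau s V ∉ S} ≤ ENNReal.ofReal ε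

/-- RST: the Green function of a large cube decays from the good sites. -/
def RstStmt : Prop :=
  ∀ (d : ℕ) (ν : Measure ℝ) [IsProbabilityMeasure ν] (ρ : ℝ), BddDens ν ρ →
    ∀ C m E : ℝ, 0 < m → ∀ p : ℝ, 0 < p → ∃ L₀ : ℕ, ∀ L : ℕ, L₀ ≤ L →
      PP d ν {V | ∃ s ∈ box (0 : Site d) L, GoodE C m (tau s V) E ∧
        ∃ w ∈ box (0 : Site d) (3 * L), L ≤ 2 * sd s w ∧
          Real.exp (-(m / 8) * L) < |gr V (box 0 (3 * L)) E s w|} ≤ ENNReal.ofReal p

/-- ONE (shared core): the one site inequality in a finite set. -/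
def OneTail (d : ℕ) (ν : Measure ℝ) (E C : ℝ) : Prop :=
  ∀ (Λ : Finset (Site d)) (x u y : Site d) (t : ℝ), x ∈ Λ → u ∈ Λ → y ∈ Λ → 0 ≤ t →
    PL ν Λ {V | Real.exp t * |gr V Λ E x y| < |gr V Λ E x u| * |gr V Λ E u y|} ≤
      ENNReal.ofReal (C * Real.exp (-t / 3))

/-- CHN (shared core): the chaining bound in a cube. -/
def ChnTail (d : ℕ) (ν : Measure ℝ) (E C : ℝ) : Prop :=
  ∀ (R n : ℕ) (c : Site d) (t : ℝ), 1 ≤ n → box c n ⊆ box 0 R → 0 < t →
    PL ν (box 0 R) {V | ∃ s ∈ box c n, |gr V (box 0 R) E c s| < Real.exp (-t)} ≤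
      ENNReal.ofReal (C * (n / t) ^ (4 * d))

/-- CVR: good sites everywhere make all the cubes good. -/
def CvrStmt : Prop :=
  ∀ (d : ℕ) (σ E : ℝ), 1 ≤ d → σ ≠ 0 → (∃ C, OneTail d (gl σ) E C) →
    (∃ C, ChnTail d (gl σ) E C) → ∀ C m : ℝ, 0 < m →
    PP d (gl σ) {V | GoodE C m V E} ≠ 0 → ∀ p : ℝ, 0 < p → ∀ L₀ : ℕ, ∃ L : ℕ, L₀ ≤ L ∧
      PL (gl σ) (box (0 : Site d) (2 * L)) {V | ¬ AllGoodC V 0 L (m / 16) E} ≤ ENNReal.ofReal p

end Pool.Agent.LE
end
end -- Pool.Agent.LE.Stmts2
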