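import Pool.Agent.Helper12_MEB.B028
import Pool.Agent.Helper12_MEB.B033

/-!
# Merged copies (generated) of the modules

* `Pool.Agent.Mob.Stmts2`
* `Pool.Agent.Helper21_Mob.Kst`
* `Pool.Agent.Helper75_Mob.Cel`
* `Pool.Agent.Helper81_Mob.Ce2`
-/

set_option autoImplicit false

section -- Pool.Agent.Mob.Stmts2

/-!
# Metal-insulator transport transition: the modules of the second version (constant 6)

The proofs are in `/team-store/PAPER_T2.md`, part G (the section has the name of the module).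
-/

set_option autoImplicit false

open MeasureTheory ProbabilityTheory Function

open scoped ENNReal BigOperators InnerProductSpace

noncomputable section

namespace Pool.Agent.Mob

open Pool.Agent.Anderson Pool.Agent.Loc Pool.Agent.Helper54.Bal

/-- HL2: from the height `η` down to the real axis, in the square mean. -/
def Hl2Stmt : Prop :=
  ∃ C : ℝ, 0 < C ∧ ∀ (d : ℕ) (V : Site d → ℝ) (Λ : Finset (Site d)) (x y : Site d)
    (E r η : ℝ), 0 < η → 8 * η ≤ r → NoEig V Λ E (2 * r) →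
    ENNReal.ofReal (|gr V Λ E x y| ^ 2) ≤
      ENNReal.ofReal (C / η) * (∫⁻ F in Set.Icc (E - r) (E + r),
        ENNReal.ofReal (‖gz V Λ (zz η F) x y‖ ^ 2)) +
      ENNReal.ofReal (C / r ^ 2 * Real.exp (-r / (2 * η)))

/-- FV2: finite volume against infinite volume, at positive height, in the square mean. -/
def Fv2Stmt : Prop :=
  ∀ (d : ℕ) (V : Site d → ℝ) (Λ : Finset (Site d)) (η E : ℝ) (ℓ : ℕ) (x : Site d), 0 < η →
    x ∈ Λ → (∀ u, u ∉ Λ → ℓ ≤ sd x u) →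
    ∑ y ∈ Λ.filter (fun y => ℓ ≤ sd x y), ENNReal.ofReal (‖gz V Λ (zz η E) x y‖ ^ 2) ≤
      ENNReal.ofReal ((1 + 2 * d / η) ^ 2) * (∑' u : Site d, if ℓ ≤ sd x u then
        ENNReal.ofReal (‖G V (zz η E) (del x) u‖ ^ 2) else 0)

/-- A weakly good cell: the row sums of the Green function, from the cube of radius `ℓ` to the
boundary of the cube of radius `3ℓ`, are at most `γ`. -/
def CellG2 {d : ℕ} (V : Site d → ℝ) (c : Site d) (ℓ : ℕ) (γ E : ℝ) : Prop :=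
  (RM V (box c (3 * ℓ)) E).det ≠ 0 ∧ ∀ x ∈ box c ℓ,
    ∑ y ∈ (box c (3 * ℓ)).filter (fun y => sd c y = 3 * ℓ),
      |gr V (box c (3 * ℓ)) E x y| ≤ γ

/-- CE2: a small time averaged spreading makes the cells weakly good with high probability. -/
def Ce2Stmt : Prop :=
  ∀ d : ℕ, 1 ≤ d → ∀ σ : ℝ, σ ≠ 0 → ∀ δ h : ℝ, 0 < δ → δ ≤ 1 / 10 → 0 < h →
    ∃ ℓ₀ : ℕ, ∀ ℓ : ℕ, ℓ₀ ≤ ℓ → ∀ η : ℝ, (ℓ : ℝ) ^ (-((d : ℝ) + 2 * δ)) ≤ η →
      η ≤ (ℓ : ℝ) ^ (-((d : ℝ) + δ)) → ∀ a b : ℝ,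
      ENNReal.ofReal η * ∫⁻ V, spr V 0 η (Set.Ioo a b) ℓ ∂(PP d (gl σ)) ≤
        ENNReal.ofReal ((ℓ : ℝ) ^ (-(6 * (d : ℝ)))) →
      ∀ E : ℝ, a + h ≤ E → E + h ≤ b → ∀ c : Site d,
        PL (gl σ) (box c (3 * ℓ)) {V | ¬ CellG2 V c ℓ ((ℓ : ℝ) ^ (-(1 / 20 : ℝ))) E} ≤
          ENNReal.ofReal ((ℓ : ℝ) ^ (-(δ / 4)))

/-- KST: from weakly good cells to a good cell at a larger scale. -/
def KstStmt : Prop :=
  ∀ (d : ℕ) (V : Site d → ℝ) (c : Site d) (E γ τ : ℝ) (K ℓ : ℕ), 1 ≤ ℓ → 1 ≤ K → 0 ≤ γ →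
    0 ≤ τ →
    (∀ k ∈ box (0 : Site d) (14 * K), CellG2 V (fun j => c j + ℓ * k j) ℓ γ E) →
    (RM V (box c (3 * (8 * K * ℓ))) E).det ≠ 0 →
    (∀ x y, |gr V (box c (3 * (8 * K * ℓ))) E x y| ≤ τ) →
    CellGood V c (8 * K * ℓ) ((2 * d * γ) ^ K * τ) E

/-- CE3: a small time averaged spreading makes the larger cells good with high probability. -/
def Ce3Stmt : Prop :=
  ∀ d : ℕ, 1 ≤ d → ∃ K : ℕ, 1 ≤ K ∧ ∀ σ : ℝ, σ ≠ 0 → ∀ δ h : ℝ, 0 < δ → δ ≤ 1 / 10 → 0 < h →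
    ∃ ℓ₀ : ℕ, ∀ ℓ : ℕ, ℓ₀ ≤ ℓ → ∀ η : ℝ, (ℓ : ℝ) ^ (-((d : ℝ) + 2 * δ)) ≤ η →
      η ≤ (ℓ : ℝ) ^ (-((d : ℝ) + δ)) → ∀ a b : ℝ,
      ENNReal.ofReal η * ∫⁻ V, spr V 0 η (Set.Ioo a b) ℓ ∂(PP d (gl σ)) ≤
        ENNReal.ofReal ((ℓ : ℝ) ^ (-(6 * (d : ℝ)))) →
      ∀ E : ℝ, a + h ≤ E → E + h ≤ b → ∀ c : Site d,
        PL (gl σ) (box c (3 * (8 * K * ℓ)))
            {V | ¬ CellGood V c (8 * K * ℓ) (((8 * K * ℓ : ℕ) : ℝ) ^ (-(120 * (d : ℝ)))) E} ≤
          ENNReal.ofReal (((8 * K * ℓ : ℕ) : ℝ) ^ (-(δ / 8)))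

/-- IN2: slow spreading near `E₀` implies `E₀ ∈ LocSet`. -/
def In2Stmt : Prop :=
  ∀ d : ℕ, 1 ≤ d → ∀ C₀ σ : ℝ, 0 < C₀ → σ ≠ 0 → ∀ δ a b E₀ : ℝ, 0 < δ → δ ≤ 1 → a < E₀ →
    E₀ < b → ∃ T₀ : ℝ, 1 ≤ T₀ ∧ ∀ T : ℝ, T₀ ≤ T →
      ∫⁻ V, spread V T (T ^ (1 / ((d : ℝ) + δ))) (Set.Ioo a b) ∂(PP d (gl σ)) <
        ENNReal.ofReal (T ^ (-6 : ℝ)) → E₀ ∈ LocSet d C₀ σ

end Pool.Agent.Mob
end
end -- Pool.Agent.Mob.Stmts2

section -- Pool.Agent.Helper21_Mob.Kst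

/-! # Metal-insulator transport transition, module KST: from weakly good cells to a good cell -/

set_option autoImplicit false
set_option linter.unusedSectionVars false

open MeasureTheory ProbabilityTheory Function

open scoped ENNReal BigOperators InnerProductSpace

noncomputable section

namespace Pool.Agent.Mob.H21

open Pool.Agent.Anderson Pool.Agent.Loc Pool.Agent.Helper54.Bal Pool.Agent.Mob

variable {d : ℕ}

/-- the geometric resolvent identity with a row sum -/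
theorem geo_row {V : Site d → ℝ} {Λ A : Finset (Site d)} {E : ℝ} (hA : A ⊆ Λ)
    (h : (RM V Λ E).det ≠ 0) (hA' : (RM V A E).det ≠ 0) {x y : Site d} (hx : x ∈ A)
    (hy : y ∈ Λ \ A) (P : Site d → Prop) [DecidablePred P] {b : ℝ} (hb : 0 ≤ b)
    (hab : ∀ u ∈ A, ∀ u' ∈ Λ \ A, hop u u' ≠ 0 → P u ∧ |gr V Λ E u' y| ≤ b) :
    |gr V Λ E x y| ≤ (∑ u ∈ A.filter P, |gr V A E x u|) * (2 * d * b) := by
  rw [geo1 hA h hA' hx hy]
  have h1 : ∀ u ∈ A, ∀ u' ∈ Λ \ A, |gr V A E x u * hop u u' * gr V Λ E u' y| ≤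
      (if P u then |gr V A E x u| else 0) * (hop u u' * b) := by
    intro u hu u' hu'
    by_cases hh : hop u u' = 0
    · rw [hh]
      simp
    · obtain ⟨h2, h3⟩ := hab u hu u' hu' hh
      rw [abs_mul, abs_mul, abs_of_nonneg (hop_nonneg u u'), if_pos h2]
      have h4 := hop_nonneg u u'
      calc |gr V A E x u| * hop u u' * |gr V Λ E u' y| ≤ |gr V A E x u| * hop u u' * b := by
            gcongr
        _ = |gr V A E x u| * (hop u u' * b) := by ring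
  calc |∑ u ∈ A, ∑ u' ∈ Λ \ A, gr V A E x u * hop u u' * gr V Λ E u' y|
      ≤ ∑ u ∈ A, |∑ u' ∈ Λ \ A, gr V A E x u * hop u u' * gr V Λ E u' y| :=
        Finset.abs_sum_le_sum_abs _ _
    _ ≤ ∑ u ∈ A, ∑ u' ∈ Λ \ A, |gr V A E x u * hop u u' * gr V Λ E u' y| :=
        Finset.sum_le_sum fun u _ => Finset.abs_sum_le_sum_abs _ _
    _ ≤ ∑ u ∈ A, ∑ u' ∈ Λ \ A, (if P u then |gr V A E x u| else 0) * (hop u u' * b) :=
        Finset.sum_le_sum fun u hu => Finset.sum_le_sum fun u' hu' => h1 u hu u' hu'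
    _ = ∑ u ∈ A, (if P u then |gr V A E x u| else 0) * ((∑ u' ∈ Λ \ A, hop u u') * b) := by
        apply Finset.sum_congr rfl
        intro u _
        rw [← Finset.mul_sum, ← Finset.sum_mul]
    _ ≤ ∑ u ∈ A, (if P u then |gr V A E x u| else 0) * (2 * d * b) := by
        apply Finset.sum_le_sum
        intro u _
        apply mul_le_mul_of_nonneg_left
        · exact mul_le_mul_of_nonneg_right (sum_hop_le u _) hb
        · split_ifs
          · exact abs_nonneg _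
          · exact le_refl _
    _ = (∑ u ∈ A.filter P, |gr V A E x u|) * (2 * d * b) := by
        rw [← Finset.sum_mul, Finset.sum_filter]

/-- the cell of a site -/
theorem exists_cell {c v : Site d} {ℓ R : ℕ} (hℓ : 1 ≤ ℓ) (h : sd c v ≤ R * ℓ) :
    ∃ k ∈ box (0 : Site d) R, v ∈ box (fun j => c j + (ℓ : ℤ) * k j) ℓ ∧
      sd c (fun j => c j + (ℓ : ℤ) * k j) ≤ R * ℓ := by
  have hℓ' : (0 : ℤ) < ℓ := by exact_mod_cast hℓ
  have h1 : ∀ j, |c j - v j| ≤ R * ℓ := by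
    intro j
    have := sd_le_iff.1 h j
    exact_mod_cast this
  let k : Site d := fun j => (v j - c j) / (ℓ : ℤ)
  have hk1 : ∀ j, (ℓ : ℤ) * k j ≤ v j - c j := fun j => Int.mul_ediv_self_le hℓ'.ne'
  have hk2 : ∀ j, v j - c j < (ℓ : ℤ) * k j + ℓ := fun j => by
    have := Int.lt_mul_ediv_self_add (x := v j - c j) hℓ'
    exact this
  have hk3 : ∀ j, |k j| ≤ R := by
    intro j
    obtain ⟨h2, h3⟩ := abs_le.1 (h1 j)
    have h4 := hk1 j
    have h5 := hk2 j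
    rw [abs_le]
    constructor
    · by_contra hc
      push Not at hc
      have h6 : k j ≤ -(R : ℤ) - 1 := by omega
      have h7 : (ℓ : ℤ) * k j ≤ ℓ * (-(R : ℤ) - 1) := mul_le_mul_of_nonneg_left h6 hℓ'.le
      nlinarith only [h3, h5, h7]
    · by_contra hc
      push Not at hc
      have h6 : (R : ℤ) + 1 ≤ k j := by omega
      have h7 : (ℓ : ℤ) * (R + 1) ≤ ℓ * k j := mul_le_mul_of_nonneg_left h6 hℓ'.le
      nlinarith only [hℓ, h2, h4, h7]
  refine ⟨k, ?_, ?_, ?_⟩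
  · rw [mem_box, sd_le_iff]
    intro j
    rw [Pi.zero_apply, zero_sub, abs_neg]
    exact hk3 j
  · rw [mem_box, sd_le_iff]
    intro j
    have h4 := hk1 j
    have h5 := hk2 j
    rw [abs_le]
    constructor <;> linarith
  · rw [sd_le_iff]
    intro j
    have h2 : c j - (c j + (ℓ : ℤ) * k j) = -((ℓ : ℤ) * k j) := by ring
    rw [h2, abs_neg, abs_mul, Nat.abs_cast]
    push_cast
    have := mul_le_mul_of_nonneg_left (hk3 j) hℓ'.le
    linarith only [mul_comm (ℓ : ℤ) (R : ℤ), this]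

/-- KST -/
theorem kst : KstStmt := by
  intro d V c E γ τ K ℓ hℓ hK hγ hτ hcell hdet hτi
  refine ⟨hdet, ?_⟩
  obtain ⟨Λ, hΛ⟩ : ∃ Λ, Λ = box c (3 * (8 * K * ℓ)) := ⟨_, rfl⟩
  rw [← hΛ] at hdet hτi ⊢
  have hKℓ : ℓ ≤ K * ℓ := Nat.le_mul_of_pos_left ℓ hK
  have hassoc : 8 * K * ℓ = 8 * (K * ℓ) := by ring
  have hKK : K ≤ K * ℓ := Nat.le_mul_of_pos_right K hℓ
  intro x hx y hy hxy
  -- the iteration
  have key : ∀ j : ℕ, j ≤ K → ∀ x' : Site d, sd c x' ≤ 8 * (K * ℓ) + (K - j) * (4 * ℓ + 1) →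
      8 * (K * ℓ) ≤ sd x' y + (K - j) * (4 * ℓ + 1) →
      |gr V Λ E x' y| ≤ (2 * d * γ) ^ j * τ := by
    intro j
    induction j with
    | zero =>
      intro _ x' _ _
      rw [pow_zero, one_mul]
      exact hτi x' y
    | succ j ih =>
      intro hj x' hx' hxy'
      have hs1 : (K - (j + 1)) * (4 * ℓ + 1) + (4 * ℓ + 1) = (K - j) * (4 * ℓ + 1) := by
        have : K - j = (K - (j + 1)) + 1 := by omega
        rw [this]
        ring
      have hs2 : (K - j) * (4 * ℓ + 1) ≤ 5 * (K * ℓ) := by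
        have h1 : (K - j) * (4 * ℓ + 1) ≤ K * (4 * ℓ + 1) :=
          Nat.mul_le_mul_right _ (Nat.sub_le K j)
        have h2 : K * (4 * ℓ + 1) = 4 * (K * ℓ) + K := by ring
        omega
      obtain ⟨k, hk, hxk, hck⟩ := exists_cell (R := 13 * K) hℓ (c := c) (v := x') (by
        have : 13 * K * ℓ = 13 * (K * ℓ) := by ring
        rw [this]
        omega)
      obtain ⟨g1, g2⟩ := hcell k (box_mono 0 (by omega) hk)
      obtain ⟨c', hc'⟩ : ∃ c' : Site d, c' = fun j => c j + (ℓ : ℤ) * k j := ⟨_, rfl⟩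
      rw [← hc'] at g1 g2 hxk hck
      have h13 : 13 * K * ℓ = 13 * (K * ℓ) := by ring
      rw [h13] at hck
      have hxk' : sd c' x' ≤ ℓ := by rwa [mem_box] at hxk
      have hsub : box c' (3 * ℓ) ⊆ Λ := by
        intro w hw
        rw [hΛ, mem_box]
        rw [mem_box] at hw
        have := sd_triangle c c' w
        omega
      have hyA : y ∈ Λ \ box c' (3 * ℓ) := by
        rw [Finset.mem_sdiff, mem_box]
        refine ⟨hy, fun h => ?_⟩
        have h1 := sd_triangle x' c' y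
        have h2 := sd_comm x' c'
        omega
      have hM : (0 : ℝ) ≤ (2 * d * γ) ^ j * τ := by positivity
      have h3 := geo_row hsub hdet g1 (x := x') (y := y) (by rw [mem_box]; omega) hyA
        (fun u => sd c' u = 3 * ℓ) hM (by
          intro u hu u' hu' hh
          rw [mem_box] at hu
          rw [Finset.mem_sdiff, mem_box] at hu'
          have h4 := sd_of_hop hh
          have h5 := sd_triangle c' u u'
          refine ⟨by omega, ih (by omega) u' ?_ ?_⟩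
          · have h6 := sd_triangle c x' u'
            have h7 := sd_triangle x' c' u'
            have h8 := sd_comm x' c'
            omega
          · have h6 := sd_triangle x' u' y
            have h7 := sd_triangle x' c' u'
            have h8 := sd_comm x' c'
            omega)
      refine h3.trans ?_
      have h4 := g2 x' (by rw [mem_box]; exact hxk')
      calc (∑ u ∈ (box c' (3 * ℓ)).filter (fun u => sd c' u = 3 * ℓ),
            |gr V (box c' (3 * ℓ)) E x' u|) * (2 * d * ((2 * d * γ) ^ j * τ))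
          ≤ γ * (2 * d * ((2 * d * γ) ^ j * τ)) := by
            apply mul_le_mul_of_nonneg_right h4
            positivity
        _ = (2 * d * γ) ^ (j + 1) * τ := by ring
  have h1 := key K le_rfl x (by
    rw [mem_box] at hx
    rw [hassoc] at hx
    omega) (by rw [hassoc] at hxy; omega)
  exact h1

end Pool.Agent.Mob.H21
end
end -- Pool.Agent.Helper21_Mob.Kst

section -- Pool.Agent.Helper75_Mob.Cel

/-!
# CEL: slow spreading makes the cells good with high probability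
-/

set_option autoImplicit false
set_option linter.unusedSectionVars false
set_option linter.unusedVariables false

open MeasureTheory ProbabilityTheory Function Filter Topology

open scoped ENNReal BigOperators

noncomputable section

namespace Pool.Agent.Mob.H75

open Pool.Agent.Anderson Pool.Agent.Loc Pool.Agent.Helper54.Bal

variable {d : ℕ}

theorem cellGood_congr {V V' : Site d → ℝ} {c : Site d} {ℓ : ℕ} {A E : ℝ}
    (h : ∀ x ∈ box c (3 * ℓ), V x = V' x) : CellGood V c ℓ A E ↔ CellGood V' c ℓ A E := by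
  unfold CellGood
  rw [RM_congr h]
  simp only [gr_congr h]

theorem measurable_cellGood (c : Site d) (ℓ : ℕ) (A E : ℝ) :
    MeasurableSet {V : Site d → ℝ | CellGood V c ℓ A E} := by
  have h : {V : Site d → ℝ | CellGood V c ℓ A E} =
      {V | (RM V (box c (3 * ℓ)) E).det ≠ 0} ∩
        ⋂ x ∈ box c ℓ, ⋂ y ∈ box c (3 * ℓ), {V | ℓ ≤ sd x y → |gr V (box c (3 * ℓ)) E x y| ≤ A} := by
    ext V
    simp only [CellGood, Set.mem_ofPred_eq, Set.mem_inter_iff, Set.mem_iInter]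
  rw [h]
  apply MeasurableSet.inter
  · exact (measurableSet_eq_fun (continuous_det _ E).measurable measurable_const).compl
  · apply Finset.measurableSet_biInter
    intro x _
    apply Finset.measurableSet_biInter
    intro y _
    by_cases hxy : ℓ ≤ sd x y
    · simp only [hxy, true_imp_iff]
      exact measurableSet_le (measurable_gr _ E x y).abs measurable_const
    · simp only [hxy, false_imp_iff]
      exact MeasurableSet.univ

theorem noEig_congr {V V' : Site d → ℝ} {Λ : Finset (Site d)} {E r : ℝ}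
    (h : ∀ x ∈ Λ, V x = V' x) : NoEig V Λ E r ↔ NoEig V' Λ E r := by
  unfold NoEig
  simp only [RM_congr h]

/-- the deterministic part -/
theorem cell_det (hHol : HolStmt) (hFvl : FvlStmt) (hPtw : PtwStmt) {V : Site d → ℝ}
    {c : Site d} {ℓ : ℕ} {η r h' q ε A a b E : ℝ} (hη : 0 < η) (hh : 0 < h') (hr : 8 * η ≤ r)
    (hε : 0 ≤ ε) (ha : a ≤ E - r - h') (hb : E + r + 2 * h' ≤ b) (hq : 0 ≤ q)
    (h1 : 2 / h' * q + 12 * h' ^ 2 / η ^ 4 ≤ ε ^ 2)
    (h2 : 3 * (ε * (1 + 2 * d * (box c (3 * ℓ)).card / η)) ≤ A)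
    (h3 : 3 / r * Real.exp (-r / (4 * η)) ≤ A)
    (hspr : ∀ x ∈ box c ℓ, spr V x η (Set.Ioo a b) ℓ ≤ ENNReal.ofReal q)
    (hno : NoEig V (box c (3 * ℓ)) E (2 * r)) : CellGood V c ℓ A E := by
  have hr0 : 0 < r := by linarith only [hη, hr]
  refine ⟨hno E (by rw [sub_self, abs_zero]; positivity), ?_⟩
  intro x hx y hy hxy
  have hx' := mem_box.1 hx
  have hxB : x ∈ box c (3 * ℓ) := mem_box.2 (by omega)
  have hout : ∀ u, u ∉ box c (3 * ℓ) → ℓ ≤ sd x u := by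
    intro u hu
    rw [mem_box] at hu
    have := sd_triangle c x u
    omega
  have hG : ∀ F, |F - E| ≤ r → ∀ u, ℓ ≤ sd x u → ‖G V (zz η F) (del x) u‖ ≤ ε := by
    intro F hF u hu
    have hF' := abs_le.1 hF
    have p := hPtw d V x u η h' F (F - h') (F + 2 * h') hη hh (by linarith only [hh]) (by linarith only [hh])
    have hle : ∫⁻ F' in Set.Ioo (F - h') (F + 2 * h'),
        ENNReal.ofReal (‖G V (zz η F') (del x) u‖ ^ 2) ≤ ENNReal.ofReal q := by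
      refine le_trans ?_ (hspr x hx)
      refine (lintegral_mono_set (Set.Ioo_subset_Ioo (a₁ := F - h') (a₂ := a) (b₁ := F + 2 * h')
        (b₂ := b) (by linarith only [ha, hF']) (by linarith only [hb, hF']))).trans ?_
      unfold spr
      apply lintegral_mono
      intro F'
      have := ENNReal.le_tsum (f := fun u => if ℓ ≤ sd x u then
        ENNReal.ofReal (‖G V (zz η F') (del x) u‖ ^ 2) else 0) u
      beta_reduce at this
      rw [if_pos hu] at this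
      exact this
    have hvol : volume (Set.Ioo (F - h') (F + 2 * h')) = ENNReal.ofReal (3 * h') := by
      rw [Real.volume_Ioo]
      congr 1
      ring
    have p2 : ENNReal.ofReal (‖G V (zz η F) (del x) u‖ ^ 2) ≤ ENNReal.ofReal (ε ^ 2) := by
      refine p.trans ?_
      rw [lintegral_add_right _ measurable_const, lintegral_const, Measure.restrict_apply_univ,
        hvol]
      refine (mul_le_mul' le_rfl (add_le_add hle le_rfl)).trans ?_
      rw [← ENNReal.ofReal_mul (by positivity), ← ENNReal.ofReal_add (by positivity)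
        (by positivity), ← ENNReal.ofReal_mul (by positivity)]
      refine ENNReal.ofReal_le_ofReal (le_trans (le_of_eq ?_) h1)
      field_simp
      ring
    rw [ENNReal.ofReal_le_ofReal_iff (by positivity)] at p2
    exact (pow_le_pow_iff_left₀ (norm_nonneg _) hε (by norm_num)).1 p2
  have hgz : ∀ F : ℝ, |F - E| ≤ r → ‖gz V (box c (3 * ℓ)) (zz η F) x y‖ ≤
      ε * (1 + 2 * d * (box c (3 * ℓ)).card / η) := fun F hF =>
    hFvl d V _ η F ε ℓ x y hη hε hxB hy hout hxy (hG F hF)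
  have := hHol d V (box c (3 * ℓ)) x y E r η _ hη hr (by positivity) hno hgz
  exact this.trans (max_le h2 h3)

/-- the probabilistic part -/
theorem cell_prob (hHol : HolStmt) (hFvl : FvlStmt) (hPtw : PtwStmt) (hWeg : WegStmt)
    (hShf : ShfStmt) {ν : Measure ℝ} [IsProbabilityMeasure ν] {ρ : ℝ} (hν : BddDens ν ρ)
    {c : Site d} {ℓ : ℕ} {η r h' q s ε A a b E : ℝ} (hη : 0 < η) (hh : 0 < h') (hr : 8 * η ≤ r)
    (hε : 0 ≤ ε) (ha : a ≤ E - r - h') (hb : E + r + 2 * h' ≤ b) (hq : 0 < q) (hs : 0 ≤ s)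
    (h1 : 2 / h' * q + 12 * h' ^ 2 / η ^ 4 ≤ ε ^ 2)
    (h2 : 3 * (ε * (1 + 2 * d * (box c (3 * ℓ)).card / η)) ≤ A)
    (h3 : 3 / r * Real.exp (-r / (4 * η)) ≤ A)
    (hspr : ENNReal.ofReal η * ∫⁻ V, spr V 0 η (Set.Ioo a b) ℓ ∂(PP d ν) ≤ ENNReal.ofReal s) :
    PL ν (box c (3 * ℓ)) {V | ¬ CellGood V c ℓ A E} ≤
      ENNReal.ofReal ((2 * ℓ + 1) ^ d * (s / (η * q)) +
        64 * ρ * (box c (3 * ℓ)).card * (2 * r)) := by
  have hr0 : 0 < r := by linarith only [hη, hr]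
  have hρ := hν.1
  have hint : ∫⁻ V, spr V 0 η (Set.Ioo a b) ℓ ∂(PP d ν) ≤ ENNReal.ofReal (s / η) := by
    rw [ENNReal.ofReal_div_of_pos hη, ENNReal.le_div_iff_mul_le
      (Or.inl (by rw [ne_eq, ENNReal.ofReal_eq_zero, not_le]; exact hη))
      (Or.inl ENNReal.ofReal_ne_top), mul_comm]
    exact hspr
  have hloc : Loc {V : Site d → ℝ | ¬ CellGood V c ℓ A E} (box c (3 * ℓ)) := by
    intro V V' hVV
    exact not_congr (cellGood_congr hVV)
  have hms : MeasurableSet {V : Site d → ℝ | ¬ CellGood V c ℓ A E} :=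
    (measurable_cellGood c ℓ A E).compl
  rw [PL_eq_PP hms hloc]
  have hsub : {V : Site d → ℝ | ¬ CellGood V c ℓ A E} ⊆
      (⋃ x ∈ box c ℓ, {V | ENNReal.ofReal q ≤ spr V x η (Set.Ioo a b) ℓ}) ∪
        {V | ¬ NoEig V (box c (3 * ℓ)) E (2 * r)} := by
    intro V hV
    by_contra hcon
    simp only [Set.mem_union, Set.mem_iUnion, Set.mem_ofPred_eq, not_or, not_exists, not_not,
      not_le, exists_prop, not_and] at hcon
    exact hV (cell_det hHol hFvl hPtw hη hh hr hε ha hb hq.le h1 h2 h3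
      (fun x hx => (hcon.1 x hx).le) hcon.2)
  have hq0 : ENNReal.ofReal q ≠ 0 := by
    rw [ne_eq, ENNReal.ofReal_eq_zero, not_le]; exact hq
  have hone : ∀ x : Site d, PP d ν {V | ENNReal.ofReal q ≤ spr V x η (Set.Ioo a b) ℓ} ≤
      ENNReal.ofReal (s / (η * q)) := by
    intro x
    obtain ⟨m1, m2⟩ := hShf d ν η hη.ne' a b ℓ x
    refine (meas_ge_le_lintegral_div m1.aemeasurable hq0 ENNReal.ofReal_ne_top).trans ?_
    rw [m2, ← div_div, ENNReal.ofReal_div_of_pos hq]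
    exact ENNReal.div_le_div_right hint _
  have hw : PP d ν {V | ¬ NoEig V (box c (3 * ℓ)) E (2 * r)} ≤
      ENNReal.ofReal (64 * ρ * (box c (3 * ℓ)).card * (2 * r)) := by
    refine (PP_le_PL (Λ := box c (3 * ℓ)) ?_).trans
      (hWeg d ν ρ hν (box c (3 * ℓ)) E (2 * r) (by positivity)).2
    intro V V' hVV
    exact not_congr (noEig_congr hVV)
  refine (measure_mono hsub).trans ((measure_union_le _ _).trans ?_)
  rw [ENNReal.ofReal_add (by positivity) (by positivity)]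
  refine add_le_add ?_ hw
  refine (measure_biUnion_finset_le _ _).trans ?_
  refine (Finset.sum_le_card_nsmul _ _ _ fun x _ => hone x).trans_eq ?_
  rw [card_box, nsmul_eq_mul, ENNReal.ofReal_mul (by positivity), ← ENNReal.ofReal_natCast]
  congr 2
  push_cast
  ring

/-! ### exponents -/

theorem ev_rpow {e : ℝ} (he : 0 < e) (K : ℝ) : ∀ᶠ ℓ : ℕ in atTop, K ≤ (ℓ : ℝ) ^ e :=
  ((tendsto_rpow_atTop he).comp tendsto_natCast_atTop_atTop).eventually_ge_atTop K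

theorem ev_exp {e : ℝ} (he : 0 < e) (k : ℝ) : ∀ᶠ ℓ : ℕ in atTop,
    3 * ((ℓ : ℝ) ^ k * Real.exp (-(1 / 4) * (ℓ : ℝ) ^ e)) ≤ 1 := by
  have h1 := tendsto_rpow_mul_exp_neg_mul_atTop_nhds_zero (k / e) (1 / 4) (by norm_num)
  have h2 := h1.comp ((tendsto_rpow_atTop he).comp tendsto_natCast_atTop_atTop)
  have h3 := h2.eventually (gt_mem_nhds (show (0 : ℝ) < 1 / 3 by norm_num))
  filter_upwards [h3] with ℓ hℓ
  simp only [Function.comp_apply] at hℓ
  rw [← Real.rpow_mul (Nat.cast_nonneg ℓ), mul_div_cancel₀ _ he.ne'] at hℓ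
  linarith only [hℓ]

section Exponents

variable {N D δ η h K : ℝ}

theorem c1 (hN : 1 ≤ N) (hδ : 0 < δ) (hK : 3 ≤ N ^ (δ / 4)) (hη : η ≤ N ^ (-(D + δ))) :
    8 * η ≤ N ^ (-(D + δ / 2)) := by
  have hN0 : 0 < N := by linarith
  have h1 : N ^ (-(D + δ)) * (N ^ (δ / 4) * N ^ (δ / 4)) = N ^ (-(D + δ / 2)) := by
    rw [← Real.rpow_add hN0, ← Real.rpow_add hN0]
    congr 1
    ring
  rw [← h1]
  have h2 : 0 < N ^ (-(D + δ)) := Real.rpow_pos_of_pos hN0 _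
  have h3 : 8 ≤ N ^ (δ / 4) * N ^ (δ / 4) := by nlinarith only [hK]
  nlinarith only [hη, h2, h3]

theorem neg_le_inv (hN : 1 ≤ N) {e : ℝ} (he : 1 ≤ e) : N ^ (-e) ≤ 1 / N := by
  have hN0 : 0 < N := by linarith
  have h1 := Real.rpow_le_rpow_of_exponent_le hN (show -e ≤ -1 by linarith)
  rw [Real.rpow_neg_one] at h1
  rwa [one_div]

theorem c4 (hN : 14 ≤ N) (hD : 1 ≤ D) (hη : N ^ (-(D + 1)) ≤ η) :
    2 / N ^ (-(124 * D + 6)) * N ^ (-(398 * D - 3)) +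
      12 * (N ^ (-(124 * D + 6))) ^ 2 / η ^ 4 ≤ (N ^ (-(122 * D + 3))) ^ 2 := by
  have hN0 : 0 < N := by linarith
  have hη0 : 0 < η := lt_of_lt_of_le (Real.rpow_pos_of_pos hN0 _) hη
  have e1 : 2 / N ^ (-(124 * D + 6)) * N ^ (-(398 * D - 3)) = 2 * N ^ (-(274 * D - 9)) := by
    rw [Real.rpow_neg hN0.le (124 * D + 6), div_inv_eq_mul, mul_assoc, ← Real.rpow_add hN0]
    congr 2
    ring
  have e2 : (N ^ (-(124 * D + 6))) ^ 2 = N ^ (-(248 * D + 12)) := by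
    rw [← Real.rpow_natCast, ← Real.rpow_mul hN0.le]
    congr 1
    push_cast
    ring
  have e3 : (N ^ (-(D + 1))) ^ 4 = N ^ (-(4 * D + 4)) := by
    rw [← Real.rpow_natCast, ← Real.rpow_mul hN0.le]
    congr 1
    push_cast
    ring
  have e4 : (N ^ (-(122 * D + 3))) ^ 2 = N * N ^ (-(244 * D + 7)) := by
    rw [← Real.rpow_natCast, ← Real.rpow_mul hN0.le]
    nth_rewrite 2 [← Real.rpow_one N]
    rw [← Real.rpow_add hN0]
    congr 1
    push_cast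
    ring
  have e5 : 12 * (N ^ (-(124 * D + 6))) ^ 2 / η ^ 4 ≤ 12 * N ^ (-(244 * D + 7)) := by
    rw [div_le_iff₀ (by positivity), e2]
    have h1 : N ^ (-(4 * D + 4)) ≤ η ^ 4 := by
      rw [← e3]
      exact pow_le_pow_left₀ (Real.rpow_pos_of_pos hN0 _).le hη 4
    have h2 : N ^ (-(248 * D + 12)) ≤ N ^ (-(244 * D + 7)) * N ^ (-(4 * D + 4)) := by
      rw [← Real.rpow_add hN0]
      exact Real.rpow_le_rpow_of_exponent_le (by linarith only [hN]) (by linarith only)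
    have h3 := mul_le_mul_of_nonneg_left h1 (Real.rpow_pos_of_pos hN0 (-(244 * D + 7))).le
    nlinarith only [h2, h3]
  have e6 : N ^ (-(274 * D - 9)) ≤ N ^ (-(244 * D + 7)) :=
    Real.rpow_le_rpow_of_exponent_le (by linarith only [hN]) (by linarith only [hD])
  rw [e1, e4]
  have h4 := Real.rpow_pos_of_pos hN0 (-(244 * D + 7))
  nlinarith only [hN, e5, e6, h4]

theorem inv_le_of_ge (hN : 0 < N) {e : ℝ} (hη : N ^ (-e) ≤ η) : 1 / η ≤ N ^ e := by
  have h0 := Real.rpow_pos_of_pos hN (-e)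
  have h1 := one_div_le_one_div_of_le h0 hη
  rw [Real.rpow_neg hN.le, one_div ((N ^ e)⁻¹), inv_inv] at h1
  exact h1

theorem c5 (hN : 1 ≤ N) (hD : 1 ≤ D) (hη : N ^ (-(D + 1)) ≤ η) {M c₇ : ℝ} (hc : 0 ≤ c₇)
    (hM : M ≤ c₇ * N ^ D) (hM0 : 0 ≤ M) (hK : 3 * (1 + 2 * D * c₇) ≤ N) :
    3 * (N ^ (-(122 * D + 3)) * (1 + 2 * D * M / η)) ≤ N ^ (-(120 * D)) := by
  have hN0 : 0 < N := by linarith
  have hη0 : 0 < η := lt_of_lt_of_le (Real.rpow_pos_of_pos hN0 _) hη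
  have h1 := inv_le_of_ge hN0 hη
  have h2 : M / η ≤ c₇ * N ^ (2 * D + 1) := by
    have : M / η = M * (1 / η) := by ring
    rw [this]
    calc M * (1 / η) ≤ (c₇ * N ^ D) * N ^ (D + 1) :=
          mul_le_mul hM h1 (by positivity) (by positivity)
      _ = c₇ * N ^ (2 * D + 1) := by
          rw [mul_assoc, ← Real.rpow_add hN0]
          congr 2
          ring
  have h3 : 1 ≤ N ^ (2 * D + 1) := Real.one_le_rpow hN (by linarith only [hD])
  have h4 : 1 + 2 * D * M / η ≤ (1 + 2 * D * c₇) * N ^ (2 * D + 1) := by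
    have : 2 * D * M / η = 2 * D * (M / η) := by ring
    rw [this]
    have := mul_le_mul_of_nonneg_left h2 (show 0 ≤ 2 * D by linarith only [hD])
    nlinarith only [h3, this]
  have h5 : N ^ (-(120 * D)) = N ^ (-(122 * D + 3)) * (N * N ^ (2 * D + 2)) := by
    nth_rewrite 3 [← Real.rpow_one N]
    rw [← Real.rpow_add hN0, ← Real.rpow_add hN0]
    congr 1
    ring
  rw [h5]
  have h6 : N ^ (2 * D + 1) ≤ N ^ (2 * D + 2) :=
    Real.rpow_le_rpow_of_exponent_le hN (by linarith only)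
  have h7 : 3 * (1 + 2 * D * M / η) ≤ N * N ^ (2 * D + 2) := by
    calc 3 * (1 + 2 * D * M / η) ≤ 3 * ((1 + 2 * D * c₇) * N ^ (2 * D + 1)) := by linarith only [h4]
      _ = (3 * (1 + 2 * D * c₇)) * N ^ (2 * D + 1) := by ring
      _ ≤ N * N ^ (2 * D + 2) := mul_le_mul hK h6 (by positivity) hN0.le
  have h8 := Real.rpow_pos_of_pos hN0 (-(122 * D + 3))
  nlinarith only [h7, h8]

theorem c6 (hN : 1 ≤ N) (hD : 1 ≤ D) (hδ : 0 < δ) (hδ1 : δ ≤ 1) (hη0 : 0 < η)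
    (hη : η ≤ N ^ (-(D + δ)))
    (hK : 3 * (N ^ (121 * D + 1) * Real.exp (-(1 / 4) * N ^ (δ / 2))) ≤ 1) :
    3 / N ^ (-(D + δ / 2)) * Real.exp (-N ^ (-(D + δ / 2)) / (4 * η)) ≤ N ^ (-(120 * D)) := by
  have hN0 : 0 < N := by linarith only [hN]
  have e1 : 3 / N ^ (-(D + δ / 2)) ≤ 3 * N ^ (D + 1) := by
    rw [Real.rpow_neg hN0.le, div_inv_eq_mul]
    have := Real.rpow_le_rpow_of_exponent_le hN (show D + δ / 2 ≤ D + 1 by linarith only [hδ1])
    linarith only [this]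
  have e2 : Real.exp (-N ^ (-(D + δ / 2)) / (4 * η)) ≤ Real.exp (-(1 / 4) * N ^ (δ / 2)) := by
    apply Real.exp_le_exp.2
    have h1 : N ^ (δ / 2) * η ≤ N ^ (-(D + δ / 2)) := by
      have h2 : N ^ (δ / 2) * N ^ (-(D + δ)) = N ^ (-(D + δ / 2)) := by
        rw [← Real.rpow_add hN0]
        congr 1
        ring
      rw [← h2]
      exact mul_le_mul_of_nonneg_left hη (Real.rpow_pos_of_pos hN0 _).le
    rw [div_le_iff₀ (by positivity)]
    linarith only [h1]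
  have e3 : N ^ (121 * D + 1) = N ^ (D + 1) * N ^ (120 * D) := by
    rw [← Real.rpow_add hN0]
    congr 1
    ring
  have e4 : N ^ (120 * D) * N ^ (-(120 * D)) = 1 := by
    rw [← Real.rpow_add hN0, add_neg_cancel, Real.rpow_zero]
  have hp := Real.rpow_pos_of_pos hN0 (-(120 * D))
  calc 3 / N ^ (-(D + δ / 2)) * Real.exp (-N ^ (-(D + δ / 2)) / (4 * η))
      ≤ 3 * N ^ (D + 1) * Real.exp (-(1 / 4) * N ^ (δ / 2)) := by gcongr
    _ = (3 * (N ^ (D + 1) * Real.exp (-(1 / 4) * N ^ (δ / 2)))) *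
        (N ^ (120 * D) * N ^ (-(120 * D))) := by rw [e4]; ring
    _ = (3 * (N ^ (121 * D + 1) * Real.exp (-(1 / 4) * N ^ (δ / 2)))) * N ^ (-(120 * D)) := by
        rw [e3]; ring
    _ ≤ 1 * N ^ (-(120 * D)) := by gcongr
    _ = _ := one_mul _

theorem c7 (hN : 1 ≤ N) (hD : 1 ≤ D) (hδ : 0 < δ) (hδ1 : δ ≤ 1) (hη : N ^ (-(D + 1)) ≤ η)
    {M₁ M₂ k₁ k₂ ρ : ℝ} (hk₁ : 0 ≤ k₁) (hk₂ : 0 ≤ k₂) (hρ : 0 ≤ ρ) (hM₁ : M₁ ≤ k₁ * N ^ D)
    (hM₂ : M₂ ≤ k₂ * N ^ D) (hM₁0 : 0 ≤ M₁) (hM₂0 : 0 ≤ M₂)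
    (hK₁ : 2 * k₁ ≤ N) (hK₂ : 256 * ρ * k₂ ≤ N ^ (δ / 4)) :
    M₁ * (N ^ (-(400 * D)) / (η * N ^ (-(398 * D - 3)))) + 64 * ρ * M₂ *
      (2 * N ^ (-(D + δ / 2))) ≤ N ^ (-(δ / 4)) := by
  have hN0 : 0 < N := by linarith only [hN]
  have hη0 : 0 < η := lt_of_lt_of_le (Real.rpow_pos_of_pos hN0 _) hη
  have h1 := inv_le_of_ge hN0 hη
  have e1 : N ^ (-(400 * D)) / (η * N ^ (-(398 * D - 3))) ≤ N ^ (-(D + 2)) := by
    have h2 : N ^ (-(400 * D)) / (η * N ^ (-(398 * D - 3))) =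
        (1 / η) * (N ^ (-(400 * D)) * N ^ (398 * D - 3)) := by
      rw [Real.rpow_neg hN0.le (398 * D - 3)]
      field_simp
    rw [h2]
    calc (1 / η) * (N ^ (-(400 * D)) * N ^ (398 * D - 3))
        ≤ N ^ (D + 1) * (N ^ (-(400 * D)) * N ^ (398 * D - 3)) := by gcongr
      _ = N ^ (-(D + 2)) := by
          rw [← Real.rpow_add hN0, ← Real.rpow_add hN0]
          congr 1
          ring
  have e2 : M₁ * (N ^ (-(400 * D)) / (η * N ^ (-(398 * D - 3)))) ≤ 1 / 2 * N ^ (-(δ / 4)) := by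
    calc M₁ * (N ^ (-(400 * D)) / (η * N ^ (-(398 * D - 3))))
        ≤ (k₁ * N ^ D) * N ^ (-(D + 2)) := by gcongr
      _ = k₁ * (N ^ (-1 : ℝ) * N ^ (-1 : ℝ)) := by
          rw [mul_assoc, ← Real.rpow_add hN0, ← Real.rpow_add hN0]
          congr 2
          ring
      _ = (k₁ * N ^ (-1 : ℝ)) * N ^ (-1 : ℝ) := by ring
      _ ≤ 1 / 2 * N ^ (-(δ / 4)) := by
          apply mul_le_mul
          · rw [Real.rpow_neg_one, ← div_eq_mul_inv, div_le_iff₀ hN0]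
            linarith only [hK₁]
          · exact Real.rpow_le_rpow_of_exponent_le hN (by linarith only [hδ1])
          · positivity
          · norm_num
  have e3 : 64 * ρ * M₂ * (2 * N ^ (-(D + δ / 2))) ≤ 1 / 2 * N ^ (-(δ / 4)) := by
    calc 64 * ρ * M₂ * (2 * N ^ (-(D + δ / 2)))
        ≤ 64 * ρ * (k₂ * N ^ D) * (2 * N ^ (-(D + δ / 2))) := by gcongr
      _ = 1 / 2 * ((256 * ρ * k₂) * (N ^ D * N ^ (-(D + δ / 2)))) := by ring
      _ ≤ 1 / 2 * (N ^ (δ / 4) * (N ^ D * N ^ (-(D + δ / 2)))) := by gcongr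
      _ = 1 / 2 * N ^ (-(δ / 4)) := by
          rw [← Real.rpow_add hN0, ← Real.rpow_add hN0]
          congr 2
          ring
  linarith only [e2, e3]

end Exponents

theorem cel (_ : GzbStmt) (hHol : HolStmt) (hWeg : WegStmt) (hFvl : FvlStmt) (hPtw : PtwStmt)
    (hShf : ShfStmt) : CelStmt := by
  intro d hd σ hσ δ h hδ hδ1 hh
  have hρ := bddDens_gl hσ
  have hρ0 := hρ.1
  set ρ : ℝ := 1 / |σ| with hρd
  have hD : (1 : ℝ) ≤ d := by exact_mod_cast hd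
  have ev1 := ev_rpow (show (0 : ℝ) < 1 by norm_num) (max (max 14 (3 / h))
    (max (3 * (1 + 2 * (d : ℝ) * 7 ^ d)) (2 * 3 ^ d)))
  have ev2 := ev_rpow (show (0 : ℝ) < δ / 4 by positivity) (max 3 (256 * ρ * 7 ^ d))
  have ev3 := ev_exp (show (0 : ℝ) < δ / 2 by positivity) (121 * (d : ℝ) + 1)
  obtain ⟨ℓ₀, hℓ₀⟩ := eventually_atTop.1 (ev1.and (ev2.and ev3))
  refine ⟨ℓ₀, ?_⟩
  intro ℓ hℓ η hη1 hη2 a b hspr E hE1 hE2 c
  obtain ⟨k1, k2, k3⟩ := hℓ₀ ℓ hℓ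
  rw [Real.rpow_one] at k1
  set N : ℝ := (ℓ : ℝ) with hN
  obtain ⟨⟨k11, k12⟩, k13, k14⟩ : (14 ≤ N ∧ 3 / h ≤ N) ∧
      3 * (1 + 2 * (d : ℝ) * 7 ^ d) ≤ N ∧ 2 * 3 ^ d ≤ N := by
    simpa only [max_le_iff] using k1
  obtain ⟨k21, k22⟩ : 3 ≤ N ^ (δ / 4) ∧ 256 * ρ * 7 ^ d ≤ N ^ (δ / 4) := by
    simpa only [max_le_iff] using k2
  have hN1 : 1 ≤ N := by linarith only [k11]
  have hN0 : 0 < N := by linarith only [k11]
  have hη0 : 0 < η := lt_of_lt_of_le (Real.rpow_pos_of_pos hN0 _) hη1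
  have hcard : (((box c (3 * ℓ)).card : ℕ) : ℝ) ≤ 7 ^ d * N ^ (d : ℝ) := by
    rw [card_box, Real.rpow_natCast, ← mul_pow]
    push_cast
    apply pow_le_pow_left₀ (by positivity)
    linarith only [k11]
  have hcard2 : (2 * N + 1) ^ d ≤ 3 ^ d * N ^ (d : ℝ) := by
    rw [Real.rpow_natCast, ← mul_pow]
    apply pow_le_pow_left₀ (by positivity)
    linarith only [k11]
  have hr : N ^ (-((d : ℝ) + δ / 2)) ≤ 1 / N := neg_le_inv hN1 (by linarith only [hδ, hD])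
  have hh' : N ^ (-(124 * (d : ℝ) + 6)) ≤ 1 / N := neg_le_inv hN1 (by linarith only [hD])
  have hNh : 3 * (1 / N) ≤ h := by
    rw [div_le_iff₀ hh] at k12
    rw [mul_one_div, div_le_iff₀ hN0]
    linarith only [k12]
  have main := cell_prob hHol hFvl hPtw hWeg hShf hρ (c := c) (ℓ := ℓ) (η := η)
    (r := N ^ (-((d : ℝ) + δ / 2))) (h' := N ^ (-(124 * (d : ℝ) + 6)))
    (q := N ^ (-(398 * (d : ℝ) - 3))) (s := N ^ (-(400 * (d : ℝ))))
    (ε := N ^ (-(122 * (d : ℝ) + 3))) (A := N ^ (-(120 * (d : ℝ)))) (a := a) (b := b) (E := E)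
    hη0 (Real.rpow_pos_of_pos hN0 _) (c1 hN1 hδ k21 hη2) (Real.rpow_pos_of_pos hN0 _).le
    (by linarith only [hh, hE1, hr, hh', hNh]) (by linarith only [hE2, hr, hh', hNh]) (Real.rpow_pos_of_pos hN0 _) (Real.rpow_pos_of_pos hN0 _).le
    (c4 k11 hD hη1) (c5 hN1 hD hη1 (by positivity) hcard (by positivity) k13)
    (c6 hN1 hD hδ hδ1 hη0 hη2 k3) hspr
  refine main.trans (ENNReal.ofReal_le_ofReal ?_)
  exact c7 hN1 hD hδ hδ1 hη1 (by positivity) (by positivity) hρ0.le hcard2 hcard (by positivity)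
    (by positivity) k14 k22

end Pool.Agent.Mob.H75
end
end -- Pool.Agent.Helper75_Mob.Cel

section -- Pool.Agent.Helper81_Mob.Ce2

/-!
# CE2: slow spreading makes the cells weakly good with high probability
-/

set_option autoImplicit false
set_option linter.unusedSectionVars false
set_option linter.unusedVariables false

open MeasureTheory ProbabilityTheory Function Filter Topology

open scoped ENNReal BigOperators

noncomputable section

namespace Pool.Agent.Mob.H81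

open Pool.Agent.Anderson Pool.Agent.Loc Pool.Agent.Helper54.Bal Pool.Agent.Mob.H75

variable {d : ℕ}

theorem cellG2_congr {V V' : Site d → ℝ} {c : Site d} {ℓ : ℕ} {γ E : ℝ}
    (h : ∀ x ∈ box c (3 * ℓ), V x = V' x) : CellG2 V c ℓ γ E ↔ CellG2 V' c ℓ γ E := by
  unfold CellG2
  rw [RM_congr h]
  simp only [gr_congr h]

theorem measurable_cellG2 (c : Site d) (ℓ : ℕ) (γ E : ℝ) :
    MeasurableSet {V : Site d → ℝ | CellG2 V c ℓ γ E} := by
  have h : {V : Site d → ℝ | CellG2 V c ℓ γ E} =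
      {V | (RM V (box c (3 * ℓ)) E).det ≠ 0} ∩
        ⋂ x ∈ box c ℓ, {V | ∑ y ∈ (box c (3 * ℓ)).filter (fun y => sd c y = 3 * ℓ),
          |gr V (box c (3 * ℓ)) E x y| ≤ γ} := by
    ext V
    simp only [CellG2, Set.mem_ofPred_eq, Set.mem_inter_iff, Set.mem_iInter]
  rw [h]
  apply MeasurableSet.inter
  · exact (measurableSet_eq_fun (continuous_det _ E).measurable measurable_const).compl
  · apply Finset.measurableSet_biInter
    intro x _
    exact measurableSet_le (Finset.measurable_sum _ fun y _ => (measurable_gr _ E x y).abs)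
      measurable_const

theorem pow_diff {a b : ℝ} (hb : 0 ≤ b) (hab : b ≤ a) (n : ℕ) :
    a ^ (n + 1) - b ^ (n + 1) ≤ (n + 1) * (a - b) * a ^ n := by
  have ha : 0 ≤ a := hb.trans hab
  induction n with
  | zero => simp
  | succ n ih =>
    have h1 : b ^ (n + 1) ≤ a ^ (n + 1) := pow_le_pow_left₀ hb hab _
    have h2 : a ^ (n + 1 + 1) - b ^ (n + 1 + 1) =
        a * (a ^ (n + 1) - b ^ (n + 1)) + (a - b) * b ^ (n + 1) := by ring
    have h3 := mul_le_mul_of_nonneg_left ih ha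
    have h4 := mul_le_mul_of_nonneg_left h1 (sub_nonneg.2 hab)
    rw [h2]
    push_cast
    have h5 : a * ((n + 1) * (a - b) * a ^ n) + (a - b) * a ^ (n + 1) =
        ((n : ℝ) + 1 + 1) * (a - b) * a ^ (n + 1) := by ring
    linarith only [h3, h4, h5]

/-- the number of the points of a sphere -/
theorem card_sphere (hd : 1 ≤ d) (c : Site d) {ℓ : ℕ} (hℓ : 1 ≤ ℓ) :
    ((((box c (3 * ℓ)).filter (fun y => sd c y = 3 * ℓ)).card : ℕ) : ℝ) ≤
      2 * d * (6 * ℓ + 1) ^ (d - 1) := by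
  have h1 : (box c (3 * ℓ)).filter (fun y => sd c y = 3 * ℓ) =
      box c (3 * ℓ) \ box c (3 * ℓ - 1) := by
    ext y
    simp only [Finset.mem_filter, Finset.mem_sdiff, mem_box]
    omega
  have h2 : box c (3 * ℓ - 1) ⊆ box c (3 * ℓ) := by
    intro y hy
    rw [mem_box] at hy ⊢
    omega
  rw [h1, Finset.card_sdiff_of_subset h2, Nat.cast_sub (Finset.card_le_card h2), card_box, card_box]
  obtain ⟨n, rfl⟩ : ∃ n, d = n + 1 := ⟨d - 1, by omega⟩
  have hℓ' : (1 : ℝ) ≤ ℓ := by exact_mod_cast hℓ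
  have h3 : ((2 * (3 * ℓ - 1) + 1 : ℕ) : ℝ) = 6 * ℓ - 1 := by
    have : 2 * (3 * ℓ - 1) + 1 + 1 = 6 * ℓ := by omega
    have h4 : ((2 * (3 * ℓ - 1) + 1 : ℕ) : ℝ) + 1 = 6 * ℓ := by exact_mod_cast this
    linarith only [h4]
  have h5 : ((2 * (3 * ℓ) + 1 : ℕ) : ℝ) = 6 * ℓ + 1 := by push_cast; ring
  rw [Nat.cast_pow, Nat.cast_pow, h3, h5, Nat.add_sub_cancel]
  have h6 := pow_diff (a := 6 * (ℓ : ℝ) + 1) (b := 6 * ℓ - 1) (by linarith only [hℓ']) (by linarith only) n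
  refine h6.trans (le_of_eq ?_)
  push_cast
  ring

theorem lint_sum {α ι : Type*} [MeasurableSpace α] (μ : Measure α) (s : Finset ι)
    (f : ι → α → ℝ≥0∞) : ∑ i ∈ s, ∫⁻ a, f i a ∂μ ≤ ∫⁻ a, ∑ i ∈ s, f i a ∂μ := by
  classical
  induction s using Finset.induction_on with
  | empty => simp
  | insert i s hi ih =>
    rw [Finset.sum_insert hi]
    simp only [Finset.sum_insert hi]
    exact (add_le_add le_rfl ih).trans (le_lintegral_add _ _)

/-- the deterministic part -/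
theorem cell_det {C : ℝ} (hC : 0 < C)
    (hHl : ∀ (d : ℕ) (V : Site d → ℝ) (Λ : Finset (Site d)) (x y : Site d)
      (E r η : ℝ), 0 < η → 8 * η ≤ r → NoEig V Λ E (2 * r) →
      ENNReal.ofReal (|gr V Λ E x y| ^ 2) ≤
        ENNReal.ofReal (C / η) * (∫⁻ F in Set.Icc (E - r) (E + r),
          ENNReal.ofReal (‖gz V Λ (zz η F) x y‖ ^ 2)) +
        ENNReal.ofReal (C / r ^ 2 * Real.exp (-r / (2 * η))))
    (hFv : Fv2Stmt) {V : Site d → ℝ}
    {c : Site d} {ℓ : ℕ} {η r q γ n a b E : ℝ} (hη : 0 < η) (hr : 8 * η ≤ r)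
    (ha : a < E - r) (hb : E + r < b) (hq : 0 ≤ q) (hγ : 0 ≤ γ)
    (hn : ((((box c (3 * ℓ)).filter (fun y => sd c y = 3 * ℓ)).card : ℕ) : ℝ) ≤ n)
    (h1 : n * (C / η * ((1 + 2 * d / η) ^ 2 * q) +
      n * (C / r ^ 2 * Real.exp (-r / (2 * η)))) ≤ γ ^ 2)
    (hspr : ∀ x ∈ box c ℓ, spr V x η (Set.Ioo a b) ℓ ≤ ENNReal.ofReal q)
    (hno : NoEig V (box c (3 * ℓ)) E (2 * r)) : CellG2 V c ℓ γ E := by
  have hr0 : 0 < r := by linarith only [hη, hr]
  have hn0 : 0 ≤ n := le_trans (by positivity) hn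
  refine ⟨hno E (by rw [sub_self, abs_zero]; positivity), ?_⟩
  intro x hx
  have hx' := mem_box.1 hx
  have hxB : x ∈ box c (3 * ℓ) := mem_box.2 (by omega)
  have hout : ∀ u, u ∉ box c (3 * ℓ) → ℓ ≤ sd x u := by
    intro u hu
    rw [mem_box] at hu
    have := sd_triangle c x u
    omega
  set S := (box c (3 * ℓ)).filter (fun y => sd c y = 3 * ℓ) with hS
  have hsub : S ⊆ (box c (3 * ℓ)).filter (fun y => ℓ ≤ sd x y) := by
    intro y hy
    rw [hS, Finset.mem_filter] at hy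
    rw [Finset.mem_filter]
    refine ⟨hy.1, ?_⟩
    have := sd_triangle c x y
    omega
  have e1 : ∑ y ∈ S, ENNReal.ofReal (|gr V (box c (3 * ℓ)) E x y| ^ 2) ≤
      ENNReal.ofReal (C / η) * (ENNReal.ofReal ((1 + 2 * d / η) ^ 2) * ENNReal.ofReal q) +
        S.card * ENNReal.ofReal (C / r ^ 2 * Real.exp (-r / (2 * η))) := by
    refine (Finset.sum_le_sum fun y _ => hHl d V (box c (3 * ℓ)) x y E r η hη hr hno).trans ?_
    rw [Finset.sum_add_distrib, Finset.sum_const, nsmul_eq_mul, ← Finset.mul_sum]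
    refine add_le_add (mul_le_mul' le_rfl ?_) le_rfl
    refine (lint_sum _ S _).trans ?_
    have e2 : ∫⁻ F in Set.Icc (E - r) (E + r),
        ∑ y ∈ S, ENNReal.ofReal (‖gz V (box c (3 * ℓ)) (zz η F) x y‖ ^ 2) ≤
        ∫⁻ F in Set.Icc (E - r) (E + r), ENNReal.ofReal ((1 + 2 * d / η) ^ 2) *
          (∑' u : Site d, if ℓ ≤ sd x u then
            ENNReal.ofReal (‖G V (zz η F) (del x) u‖ ^ 2) else 0) := by
      apply lintegral_mono
      intro F
      exact (Finset.sum_le_sum_of_subset hsub).trans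
        (hFv d V (box c (3 * ℓ)) η F ℓ x hη hxB hout)
    refine e2.trans ?_
    rw [lintegral_const_mul' _ _ ENNReal.ofReal_ne_top]
    refine mul_le_mul' le_rfl (le_trans ?_ (hspr x hx))
    unfold spr
    exact lintegral_mono_set fun F hF => ⟨lt_of_lt_of_le ha hF.1, lt_of_le_of_lt hF.2 hb⟩
  have e3 : ∑ y ∈ S, |gr V (box c (3 * ℓ)) E x y| ^ 2 ≤
      C / η * ((1 + 2 * d / η) ^ 2 * q) + S.card * (C / r ^ 2 * Real.exp (-r / (2 * η))) := by
    rw [← ENNReal.ofReal_sum_of_nonneg (fun _ _ => by positivity)] at e1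
    rw [← ENNReal.ofReal_mul (by positivity), ← ENNReal.ofReal_mul (by positivity),
      ← ENNReal.ofReal_natCast, ← ENNReal.ofReal_mul (by positivity),
      ← ENNReal.ofReal_add (by positivity) (by positivity)] at e1
    exact (ENNReal.ofReal_le_ofReal_iff (by positivity)).1 e1
  have e4 : (∑ y ∈ S, |gr V (box c (3 * ℓ)) E x y|) ^ 2 ≤
      S.card * ∑ y ∈ S, |gr V (box c (3 * ℓ)) E x y| ^ 2 := sq_sum_le_card_mul_sum_sq
  have e5 : (∑ y ∈ S, |gr V (box c (3 * ℓ)) E x y|) ^ 2 ≤ γ ^ 2 := by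
    refine e4.trans (le_trans ?_ h1)
    have h6 : 0 ≤ ∑ y ∈ S, |gr V (box c (3 * ℓ)) E x y| ^ 2 :=
      Finset.sum_nonneg fun _ _ => by positivity
    refine (mul_le_mul_of_nonneg_right hn h6).trans ?_
    apply mul_le_mul_of_nonneg_left _ hn0
    refine e3.trans ?_
    have h7 : 0 ≤ C / r ^ 2 * Real.exp (-r / (2 * η)) := by positivity
    have := mul_le_mul_of_nonneg_right hn h7
    linarith only [this]
  exact (pow_le_pow_iff_left₀ (Finset.sum_nonneg fun _ _ => abs_nonneg _) hγ (by norm_num)).1 e5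

/-- the probabilistic part -/
theorem cell_prob {C : ℝ} (hC : 0 < C)
    (hHl : ∀ (d : ℕ) (V : Site d → ℝ) (Λ : Finset (Site d)) (x y : Site d)
      (E r η : ℝ), 0 < η → 8 * η ≤ r → NoEig V Λ E (2 * r) →
      ENNReal.ofReal (|gr V Λ E x y| ^ 2) ≤
        ENNReal.ofReal (C / η) * (∫⁻ F in Set.Icc (E - r) (E + r),
          ENNReal.ofReal (‖gz V Λ (zz η F) x y‖ ^ 2)) +
        ENNReal.ofReal (C / r ^ 2 * Real.exp (-r / (2 * η))))
    (hFv : Fv2Stmt) (hWeg : WegStmt)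
    (hShf : ShfStmt) {ν : Measure ℝ} [IsProbabilityMeasure ν] {ρ : ℝ} (hν : BddDens ν ρ)
    {c : Site d} {ℓ : ℕ} {η r q s γ n a b E : ℝ} (hη : 0 < η) (hr : 8 * η ≤ r)
    (ha : a < E - r) (hb : E + r < b) (hq : 0 < q) (hs : 0 ≤ s) (hγ : 0 ≤ γ)
    (hn : ((((box c (3 * ℓ)).filter (fun y => sd c y = 3 * ℓ)).card : ℕ) : ℝ) ≤ n)
    (h1 : n * (C / η * ((1 + 2 * d / η) ^ 2 * q) +
      n * (C / r ^ 2 * Real.exp (-r / (2 * η)))) ≤ γ ^ 2)
    (hspr : ENNReal.ofReal η * ∫⁻ V, spr V 0 η (Set.Ioo a b) ℓ ∂(PP d ν) ≤ ENNReal.ofReal s) :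
    PL ν (box c (3 * ℓ)) {V | ¬ CellG2 V c ℓ γ E} ≤
      ENNReal.ofReal ((2 * ℓ + 1) ^ d * (s / (η * q)) +
        64 * ρ * (box c (3 * ℓ)).card * (2 * r)) := by
  have hr0 : 0 < r := by linarith only [hη, hr]
  have hρ := hν.1
  have hint : ∫⁻ V, spr V 0 η (Set.Ioo a b) ℓ ∂(PP d ν) ≤ ENNReal.ofReal (s / η) := by
    rw [ENNReal.ofReal_div_of_pos hη, ENNReal.le_div_iff_mul_le
      (Or.inl (by rw [ne_eq, ENNReal.ofReal_eq_zero, not_le]; exact hη))
      (Or.inl ENNReal.ofReal_ne_top), mul_comm]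
    exact hspr
  have hloc : Loc {V : Site d → ℝ | ¬ CellG2 V c ℓ γ E} (box c (3 * ℓ)) := by
    intro V V' hVV
    exact not_congr (cellG2_congr hVV)
  have hms : MeasurableSet {V : Site d → ℝ | ¬ CellG2 V c ℓ γ E} :=
    (measurable_cellG2 c ℓ γ E).compl
  rw [PL_eq_PP hms hloc]
  have hsub : {V : Site d → ℝ | ¬ CellG2 V c ℓ γ E} ⊆
      (⋃ x ∈ box c ℓ, {V | ENNReal.ofReal q ≤ spr V x η (Set.Ioo a b) ℓ}) ∪
        {V | ¬ NoEig V (box c (3 * ℓ)) E (2 * r)} := by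
    intro V hV
    by_contra hcon
    simp only [Set.mem_union, Set.mem_iUnion, Set.mem_ofPred_eq, not_or, not_exists, not_not,
      not_le, exists_prop, not_and] at hcon
    exact hV (cell_det hC hHl hFv hη hr ha hb hq.le hγ hn h1
      (fun x hx => (hcon.1 x hx).le) hcon.2)
  have hq0 : ENNReal.ofReal q ≠ 0 := by
    rw [ne_eq, ENNReal.ofReal_eq_zero, not_le]; exact hq
  have hone : ∀ x : Site d, PP d ν {V | ENNReal.ofReal q ≤ spr V x η (Set.Ioo a b) ℓ} ≤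
      ENNReal.ofReal (s / (η * q)) := by
    intro x
    obtain ⟨m1, m2⟩ := hShf d ν η hη.ne' a b ℓ x
    refine (meas_ge_le_lintegral_div m1.aemeasurable hq0 ENNReal.ofReal_ne_top).trans ?_
    rw [m2, ← div_div, ENNReal.ofReal_div_of_pos hq]
    exact ENNReal.div_le_div_right hint _
  have hw : PP d ν {V | ¬ NoEig V (box c (3 * ℓ)) E (2 * r)} ≤
      ENNReal.ofReal (64 * ρ * (box c (3 * ℓ)).card * (2 * r)) := by
    refine (PP_le_PL (Λ := box c (3 * ℓ)) ?_).trans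
      (hWeg d ν ρ hν (box c (3 * ℓ)) E (2 * r) (by positivity)).2
    intro V V' hVV
    exact not_congr (noEig_congr hVV)
  refine (measure_mono hsub).trans ((measure_union_le _ _).trans ?_)
  rw [ENNReal.ofReal_add (by positivity) (by positivity)]
  refine add_le_add ?_ hw
  refine (measure_biUnion_finset_le _ _).trans ?_
  refine (Finset.sum_le_card_nsmul _ _ _ fun x _ => hone x).trans_eq ?_
  rw [card_box, nsmul_eq_mul, ENNReal.ofReal_mul (by positivity), ← ENNReal.ofReal_natCast]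
  congr 2
  push_cast
  ring

section Exponents

variable {N D δ η K : ℝ}

/-- the first term -/
theorem t1 (hN : 1 ≤ N) (hD : 1 ≤ D) (hδ : 0 < δ) (hδ1 : δ ≤ 1 / 10) (hη0 : 0 < η) (hη1' : η ≤ 1)
    (hη : N ^ (-(D + 2 * δ)) ≤ η) {C k n : ℝ} (hC : 0 < C) (hk : 0 ≤ k)
    (hn : n ≤ k * N ^ (D - 1)) (hn0 : 0 ≤ n)
    (hK : 2 * (C * k * (1 + 2 * D) ^ 2) ≤ N ^ (1 / 20 : ℝ)) :
    n * (C / η * ((1 + 2 * D / η) ^ 2 * (N ^ (-(6 * D)) * N ^ (D + δ / 2) / η))) ≤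
      1 / 2 * N ^ (-(1 / 10 : ℝ)) := by
  have hN0 : 0 < N := by linarith only [hN, hδ, hδ1]
  have h1 : 1 / η ≤ N ^ (D + 2 * δ) := inv_le_of_ge hN0 hη
  have h2 : 1 + 2 * D / η ≤ (1 + 2 * D) * (1 / η) := by
    have h3 : 1 ≤ 1 / η := by rw [le_div_iff₀ hη0]; linarith only [hη1']
    have h4 : 2 * D / η = 2 * D * (1 / η) := by ring
    rw [h4]
    nlinarith only [h3]
  have h3 : (1 + 2 * D / η) ^ 2 ≤ ((1 + 2 * D) * (1 / η)) ^ 2 :=
    pow_le_pow_left₀ (by positivity) h2 2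
  have hq : 0 ≤ N ^ (-(6 * D)) * N ^ (D + δ / 2) := by positivity
  have h4 : C / η * ((1 + 2 * D / η) ^ 2 * (N ^ (-(6 * D)) * N ^ (D + δ / 2) / η)) ≤
      C * (1 + 2 * D) ^ 2 * (N ^ (-(6 * D)) * N ^ (D + δ / 2)) * (1 / η) ^ 4 := by
    have h5 : C / η * ((1 + 2 * D / η) ^ 2 * (N ^ (-(6 * D)) * N ^ (D + δ / 2) / η)) ≤
        C / η * (((1 + 2 * D) * (1 / η)) ^ 2 * (N ^ (-(6 * D)) * N ^ (D + δ / 2) / η)) := by
      gcongr
    refine h5.trans (le_of_eq ?_)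
    field_simp
  have h6 : (1 / η) ^ 4 ≤ N ^ (4 * (D + 2 * δ)) := by
    have h7 := pow_le_pow_left₀ (by positivity) h1 4
    refine h7.trans (le_of_eq ?_)
    rw [← Real.rpow_natCast, ← Real.rpow_mul hN0.le]
    congr 1
    push_cast
    ring
  calc n * (C / η * ((1 + 2 * D / η) ^ 2 * (N ^ (-(6 * D)) * N ^ (D + δ / 2) / η)))
      ≤ (k * N ^ (D - 1)) * (C * (1 + 2 * D) ^ 2 * (N ^ (-(6 * D)) * N ^ (D + δ / 2)) *
          N ^ (4 * (D + 2 * δ))) := by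
        apply mul_le_mul hn _ (by positivity) (by positivity)
        exact h4.trans (mul_le_mul_of_nonneg_left h6 (by positivity))
    _ = (C * k * (1 + 2 * D) ^ 2) * (N ^ (D - 1) * (N ^ (-(6 * D)) * N ^ (D + δ / 2) *
          N ^ (4 * (D + 2 * δ)))) := by ring
    _ = (C * k * (1 + 2 * D) ^ 2) * N ^ (-1 + 17 / 2 * δ) := by
        rw [← Real.rpow_add hN0, ← Real.rpow_add hN0, ← Real.rpow_add hN0]
        congr 2
        ring
    _ ≤ (C * k * (1 + 2 * D) ^ 2) * N ^ (-(3 / 20) : ℝ) := by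
        apply mul_le_mul_of_nonneg_left _ (by positivity)
        exact Real.rpow_le_rpow_of_exponent_le hN (by linarith only [hδ1])
    _ ≤ (1 / 2 * N ^ (1 / 20 : ℝ)) * N ^ (-(3 / 20) : ℝ) := by
        apply mul_le_mul_of_nonneg_right (by linarith only [hK]) (by positivity)
    _ = 1 / 2 * N ^ (-(1 / 10 : ℝ)) := by
        rw [mul_assoc, ← Real.rpow_add hN0]
        congr 2
        norm_num

/-- the second term -/
theorem t2 (hN : 1 ≤ N) (hD : 1 ≤ D) (hδ : 0 < δ) (hδ1 : δ ≤ 1 / 10) (hη0 : 0 < η)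
    (hη : η ≤ N ^ (-(D + δ))) {C k n : ℝ} (hC : 0 < C) (hk : 0 ≤ k)
    (hn : n ≤ k * N ^ (D - 1)) (hn0 : 0 ≤ n) (hK1 : C * k ^ 2 ≤ N)
    (hK : 3 * (N ^ (4 * D + 4) * Real.exp (-(1 / 4) * N ^ (δ / 2))) ≤ 1) :
    n * (n * (C / (N ^ (-(D + δ / 2))) ^ 2 * Real.exp (-N ^ (-(D + δ / 2)) / (2 * η)))) ≤
      1 / 2 * N ^ (-(1 / 10 : ℝ)) := by
  have hN0 : 0 < N := by linarith only [hN, hδ, hδ1]
  have e2 : Real.exp (-N ^ (-(D + δ / 2)) / (2 * η)) ≤ Real.exp (-(1 / 4) * N ^ (δ / 2)) := by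
    apply Real.exp_le_exp.2
    have h1 : N ^ (δ / 2) * η ≤ N ^ (-(D + δ / 2)) := by
      have h2 : N ^ (δ / 2) * N ^ (-(D + δ)) = N ^ (-(D + δ / 2)) := by
        rw [← Real.rpow_add hN0]
        congr 1
        ring
      rw [← h2]
      exact mul_le_mul_of_nonneg_left hη (Real.rpow_pos_of_pos hN0 _).le
    rw [div_le_iff₀ (by positivity)]
    have h3 : 0 ≤ N ^ (δ / 2) * η := by positivity
    linarith only [h1, h3]
  have e3 : C / (N ^ (-(D + δ / 2))) ^ 2 ≤ C * N ^ (2 * D + 1) := by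
    have h1 : ((N ^ (-(D + δ / 2))) ^ 2)⁻¹ = N ^ (2 * D + δ) := by
      rw [← Real.rpow_natCast, ← Real.rpow_mul hN0.le, ← Real.rpow_neg hN0.le]
      congr 1
      push_cast
      ring
    rw [div_eq_mul_inv, h1]
    exact mul_le_mul_of_nonneg_left
      (Real.rpow_le_rpow_of_exponent_le hN (by linarith only [hδ, hδ1])) hC.le
  have hn2 : n ≤ k * N ^ D :=
    hn.trans (mul_le_mul_of_nonneg_left (Real.rpow_le_rpow_of_exponent_le hN (by linarith only [hδ, hδ1])) hk)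
  calc n * (n * (C / (N ^ (-(D + δ / 2))) ^ 2 * Real.exp (-N ^ (-(D + δ / 2)) / (2 * η))))
      ≤ (k * N ^ D) * ((k * N ^ D) * ((C * N ^ (2 * D + 1)) *
          Real.exp (-(1 / 4) * N ^ (δ / 2)))) := by
        gcongr
    _ = (C * k ^ 2) * ((N ^ D * N ^ D * N ^ (2 * D + 1)) *
          Real.exp (-(1 / 4) * N ^ (δ / 2))) := by ring
    _ = (C * k ^ 2) * (N ^ (4 * D + 1) * Real.exp (-(1 / 4) * N ^ (δ / 2))) := by
        rw [← Real.rpow_add hN0, ← Real.rpow_add hN0]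
        congr 3
        ring
    _ ≤ N * (N ^ (4 * D + 1) * Real.exp (-(1 / 4) * N ^ (δ / 2))) := by gcongr
    _ = (N ^ (4 * D + 4) * Real.exp (-(1 / 4) * N ^ (δ / 2))) * N ^ (-2 : ℝ) := by
        have h1 : N * N ^ (4 * D + 1) = N ^ (4 * D + 4) * N ^ (-2 : ℝ) := by
          nth_rewrite 1 [← Real.rpow_one N]
          rw [← Real.rpow_add hN0, ← Real.rpow_add hN0]
          congr 1
          ring
        rw [← mul_assoc, h1]
        ring
    _ ≤ 1 / 2 * N ^ (-(1 / 10 : ℝ)) := by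
        apply mul_le_mul (by linarith only [hδ, hδ1, hK]) _ (by positivity) (by norm_num)
        exact Real.rpow_le_rpow_of_exponent_le hN (by norm_num)

/-- the probability -/
theorem t3 (hN : 1 ≤ N) (hδ : 0 < δ) (hη0 : 0 < η)
    {M₁ M₂ k₁ k₂ ρ : ℝ} (hk₁ : 0 ≤ k₁) (hk₂ : 0 ≤ k₂) (hρ : 0 ≤ ρ) (hM₁ : M₁ ≤ k₁ * N ^ D)
    (hM₂ : M₂ ≤ k₂ * N ^ D) (hK : k₁ + 128 * ρ * k₂ ≤ N ^ (δ / 4)) :
    M₁ * (N ^ (-(6 * D)) / (η * (N ^ (-(6 * D)) * N ^ (D + δ / 2) / η))) + 64 * ρ * M₂ *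
      (2 * N ^ (-(D + δ / 2))) ≤ N ^ (-(δ / 4)) := by
  have hN0 : 0 < N := by linarith only [hN]
  have e1 : N ^ (-(6 * D)) / (η * (N ^ (-(6 * D)) * N ^ (D + δ / 2) / η)) =
      N ^ (-(D + δ / 2)) := by
    rw [Real.rpow_neg hN0.le (D + δ / 2)]
    have h1 : N ^ (-(6 * D)) ≠ 0 := (Real.rpow_pos_of_pos hN0 _).ne'
    have h2 : N ^ (D + δ / 2) ≠ 0 := (Real.rpow_pos_of_pos hN0 _).ne'
    field_simp
  rw [e1]
  have hp := Real.rpow_pos_of_pos hN0 (-(D + δ / 2))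
  calc M₁ * N ^ (-(D + δ / 2)) + 64 * ρ * M₂ * (2 * N ^ (-(D + δ / 2)))
      ≤ (k₁ * N ^ D) * N ^ (-(D + δ / 2)) + 64 * ρ * (k₂ * N ^ D) *
          (2 * N ^ (-(D + δ / 2))) := by gcongr
    _ = (k₁ + 128 * ρ * k₂) * (N ^ D * N ^ (-(D + δ / 2))) := by ring
    _ = (k₁ + 128 * ρ * k₂) * N ^ (-(δ / 2)) := by
        rw [← Real.rpow_add hN0]
        congr 2
        ring
    _ ≤ N ^ (δ / 4) * N ^ (-(δ / 2)) := by gcongr
    _ = N ^ (-(δ / 4)) := by
        rw [← Real.rpow_add hN0]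
        congr 1
        ring

end Exponents

theorem ce2 (hHl2 : Hl2Stmt) (hFv2 : Fv2Stmt) (hWeg : WegStmt) (hShf : ShfStmt) : Ce2Stmt := by
  obtain ⟨C, hC, hHl⟩ := hHl2
  intro d hd σ hσ δ h hδ hδ1 hh
  have hρ := bddDens_gl hσ
  have hρ0 := hρ.1
  set ρ : ℝ := 1 / |σ| with hρd
  have hD : (1 : ℝ) ≤ d := by exact_mod_cast hd
  obtain ⟨k, hk⟩ : ∃ k : ℝ, k = 2 * d * 7 ^ d := ⟨_, rfl⟩
  have hk0 : 0 ≤ k := by rw [hk]; positivity
  have ev1 := ev_rpow (show (0 : ℝ) < 1 by norm_num) (max (max 14 (3 / h)) (C * k ^ 2))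
  have ev2 := ev_rpow (show (0 : ℝ) < δ / 4 by positivity) (max 3 (3 ^ d + 128 * ρ * 7 ^ d))
  have ev3 := ev_exp (show (0 : ℝ) < δ / 2 by positivity) (4 * (d : ℝ) + 4)
  have ev4 := ev_rpow (show (0 : ℝ) < 1 / 20 by norm_num) (2 * (C * k * (1 + 2 * (d : ℝ)) ^ 2))
  obtain ⟨ℓ₀, hℓ₀⟩ := eventually_atTop.1 (ev1.and (ev2.and (ev3.and ev4)))
  refine ⟨ℓ₀, ?_⟩
  intro ℓ hℓ η hη1 hη2 a b hspr E hE1 hE2 c
  obtain ⟨k1, k2, k3, k4⟩ := hℓ₀ ℓ hℓ
  rw [Real.rpow_one] at k1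
  set N : ℝ := (ℓ : ℝ) with hN
  obtain ⟨⟨k11, k12⟩, k13⟩ : (14 ≤ N ∧ 3 / h ≤ N) ∧ C * k ^ 2 ≤ N := by
    simpa only [max_le_iff] using k1
  obtain ⟨k21, k22⟩ : 3 ≤ N ^ (δ / 4) ∧ 3 ^ d + 128 * ρ * 7 ^ d ≤ N ^ (δ / 4) := by
    simpa only [max_le_iff] using k2
  have hN1 : 1 ≤ N := by linarith only [hδ, hδ1, k11]
  have hN0 : 0 < N := by linarith only [hδ, hδ1, k11]
  have hℓ1 : 1 ≤ ℓ := by
    rw [hN] at hN0
    have : 0 < ℓ := by exact_mod_cast hN0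
    omega
  have hη0 : 0 < η := lt_of_lt_of_le (Real.rpow_pos_of_pos hN0 _) hη1
  have hη1' : η ≤ 1 := hη2.trans (Real.rpow_le_one_of_one_le_of_nonpos hN1 (by linarith only [hδ, hδ1, hD]))
  have hcard : (((box c (3 * ℓ)).card : ℕ) : ℝ) ≤ 7 ^ d * N ^ (d : ℝ) := by
    rw [card_box, Real.rpow_natCast, ← mul_pow]
    push_cast
    apply pow_le_pow_left₀ (by positivity)
    linarith only [hδ, hδ1, k11]
  have hcard2 : (2 * N + 1) ^ d ≤ 3 ^ d * N ^ (d : ℝ) := by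
    rw [Real.rpow_natCast, ← mul_pow]
    apply pow_le_pow_left₀ (by positivity)
    linarith only [hδ, hδ1, k11]
  have hcard3 : ((((box c (3 * ℓ)).filter (fun y => sd c y = 3 * ℓ)).card : ℕ) : ℝ) ≤
      k * N ^ ((d : ℝ) - 1) := by
    refine (card_sphere hd c hℓ1).trans ?_
    have h1 : N ^ ((d : ℝ) - 1) = N ^ (d - 1) := by
      rw [← Real.rpow_natCast, Nat.cast_sub hd, Nat.cast_one]
    rw [h1, hk, ← hN]
    have h2 : (6 * N + 1) ^ (d - 1) ≤ 7 ^ d * N ^ (d - 1) := by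
      calc (6 * N + 1) ^ (d - 1) ≤ (7 * N) ^ (d - 1) :=
            pow_le_pow_left₀ (by positivity) (by linarith only [hδ, hδ1, k11]) _
        _ = 7 ^ (d - 1) * N ^ (d - 1) := mul_pow _ _ _
        _ ≤ 7 ^ d * N ^ (d - 1) := by
            apply mul_le_mul_of_nonneg_right _ (by positivity)
            exact pow_le_pow_right₀ (by norm_num) (by omega)
    have h3 := mul_le_mul_of_nonneg_left h2 (show (0 : ℝ) ≤ 2 * d by positivity)
    linarith only [h3]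
  have hn0 : 0 ≤ k * N ^ ((d : ℝ) - 1) := by positivity
  have hr : N ^ (-((d : ℝ) + δ / 2)) ≤ 1 / N := neg_le_inv hN1 (by linarith only [hδ, hD])
  have hNh : 3 * (1 / N) ≤ h := by
    rw [div_le_iff₀ hh] at k12
    rw [mul_one_div, div_le_iff₀ hN0]
    linarith only [k12]
  have hN1' : 0 < 1 / N := by positivity
  have hT1 := t1 hN1 hD hδ hδ1 hη0 hη1' hη1 hC hk0 (le_refl (k * N ^ ((d : ℝ) - 1))) hn0 k4
  have hT2 := t2 hN1 hD hδ hδ1 hη0 hη2 hC hk0 (le_refl (k * N ^ ((d : ℝ) - 1))) hn0 k13 k3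
  have hγ2 : (N ^ (-(1 / 20 : ℝ))) ^ 2 = N ^ (-(1 / 10 : ℝ)) := by
    rw [← Real.rpow_natCast, ← Real.rpow_mul hN0.le]
    congr 1
    norm_num
  have main := cell_prob hC hHl hFv2 hWeg hShf hρ (c := c) (ℓ := ℓ) (η := η)
    (r := N ^ (-((d : ℝ) + δ / 2)))
    (q := N ^ (-(6 * (d : ℝ))) * N ^ ((d : ℝ) + δ / 2) / η) (s := N ^ (-(6 * (d : ℝ))))
    (γ := N ^ (-(1 / 20 : ℝ))) (n := k * N ^ ((d : ℝ) - 1)) (a := a) (b := b) (E := E)
    hη0 (c1 hN1 hδ k21 hη2) (by linarith only [hE1, hr, hNh, hN1']) (by linarith only [hE2, hr, hNh, hN1']) (by positivity) (by positivity)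
    (by positivity) hcard3 (by rw [hγ2, mul_add]; linarith only [hT1, hT2]) hspr
  refine main.trans (ENNReal.ofReal_le_ofReal ?_)
  exact t3 hN1 hδ hη0 (by positivity) (by positivity) hρ0.le hcard2 hcard k22

end Pool.Agent.Mob.H81
end
end -- Pool.Agent.Helper81_Mob.Ce2
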