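import Pool.Agent.Helper12_MEB.B006
import Pool.Agent.Helper12_MEB.B028
import Pool.Agent.Helper12_MEB.B033

/-!
# Merged copies (generated) of the modules

* `Pool.Agent.LE.Stmts3`
* `Pool.Agent.LE.StmtsA`
* `Pool.Agent.LE.StmtsG`
* `Pool.Agent.LE.StmtsR`
* `Pool.Agent.LE.StmtsC`
* `Pool.Agent.LE.StmtsW`
* `Pool.Agent.LE.StmtsX`
-/

set_option autoImplicit false

section -- Pool.Agent.LE.Stmts3

/-!
# Multiscale induction with deterministic cubes: from a small constant probability to `LocSet`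

Goodness of a cube is `AllGoodC` of `LE/Stmts2`. The proofs are in `/team-store/PAPER_MSA.md`.
-/

set_option autoImplicit false

open MeasureTheory ProbabilityTheory Function

open scoped ENNReal BigOperators

noncomputable section

namespace Pool.Agent.LE

open Pool.Agent.Anderson Pool.Agent.Loc Pool.Agent.Mob Pool.Agent.Helper54.Bal

/-- the site `v` is good; `AllGoodC V a L m E` says that all the sites of `box a L` are good -/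
def SG {d : ℕ} (V : Site d → ℝ) (L : ℕ) (m E : ℝ) (v : Site d) : Prop :=
  (RM V (box v L) E).det ≠ 0 ∧ ∀ u, sd v u = L → |gr V (box v L) E v u| ≤ Real.exp (-m * L)

/-- MSD: the deterministic step. -/
def MsdStmt : Prop :=
  ∀ (d : ℕ) (V : Site d → ℝ) (E m T q : ℝ) (L : ℕ) (s u : Site d), 1 ≤ L → 0 ≤ T → q ≤ 1 →
    (∀ r : ℕ, r ≤ 52 * L →
      (RM V (box s r) E).det ≠ 0 ∧ ∀ x y, |gr V (box s r) E x y| ≤ T) →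
    (∀ v ∈ box s (50 * L), ∀ v' ∈ box s (50 * L), ¬ SG V L m E v → ¬ SG V L m E v' →
      sd v v' ≤ 6 * L) →
    T * (2 * d * (105 * L) ^ d) * (2 * d * (3 * L) ^ d * Real.exp (-m * L)) ≤ q →
    sd s u = 52 * L → |gr V (box s (52 * L)) E s u| ≤ q ^ 13 * T

/-- MSP: the probability step. -/
def MspStmt : Prop :=
  ∀ (d : ℕ) (ν : Measure ℝ) [IsProbabilityMeasure ν] (ρ : ℝ), BddDens ν ρ →
    ∀ (E m p : ℝ) (L : ℕ), 1 ≤ L → 0 < m → 0 ≤ p →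
      (2 * d) ^ 2 * (105 * L) ^ (2 * d) * Real.exp (-(m * L) / 4) ≤ 1 →
      PP d ν {V | ¬ AllGoodC V 0 L m E} ≤ ENNReal.ofReal p →
      PP d ν {V | ¬ AllGoodC V 0 (52 * L) (m / 13) E} ≤
        ENNReal.ofReal (209 ^ (2 * d) * p ^ 2 +
          6 * ρ * (105 * L) ^ (3 * d + 1) * Real.exp (-(m * L) / 4))

/-- MSN: the numbers. -/
def MsnStmt : Prop :=
  ∀ (d : ℕ) (ρ m : ℝ), 0 < ρ → 0 < m → ∃ L₀ : ℕ, ∀ L : ℕ, L₀ ≤ L → 1 ≤ L ∧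
    (∀ k : ℕ, (2 * d) ^ 2 * (105 * (52 ^ k * L)) ^ (2 * d) * Real.exp (-(4 ^ k * (m * L)) / 4) ≤ 1 ∧
      6 * ρ * (105 * (52 ^ k * L)) ^ (3 * d + 1) * Real.exp (-(4 ^ k * (m * L)) / 4) ≤
        1 / (4 * 209 ^ (2 * d)) * (1 / 2) ^ (2 ^ (k + 1))) ∧
    ∀ A : ℕ, ∃ k : ℕ, A ≤ 52 ^ k * L ∧
      (1 / 2 : ℝ) ^ (2 ^ k) ≤ ((52 ^ k * L : ℕ) : ℝ) ^ (-(A : ℝ)) ∧
      Real.exp (-(4 ^ k * (m * L))) ≤ ((52 ^ k * L : ℕ) : ℝ) ^ (-(A : ℝ))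

/-- MSA: a small constant probability of failure implies localization. -/
def MsaStmt : Prop :=
  ∀ (d : ℕ) (C₀ σ E m : ℝ), 0 < C₀ → σ ≠ 0 → 0 < m → ∃ p : ℝ, 0 < p ∧ ∃ L₀ : ℕ,
    ∀ L : ℕ, L₀ ≤ L →
      PL (gl σ) (box (0 : Site d) (2 * L)) {V | ¬ AllGoodC V 0 L m E} ≤ ENNReal.ofReal p →
      E ∈ LocSet d C₀ σ

end Pool.Agent.LE
end
end -- Pool.Agent.LE.Stmts3

section -- Pool.Agent.LE.StmtsA

/-!
# Zero-one law for the exponential decay of the Green function, at every energy: statements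

Theorem A of `/team-store/PAPER_POS.md`, in finite volume, at real energies. The infinite volume is
replaced by a large cube, and stationarity by averages over base points.
-/

set_option autoImplicit false

open MeasureTheory ProbabilityTheory Function

open scoped ENNReal BigOperators

noncomputable section

namespace Pool.Agent.LE

open Pool.Agent.Anderson Pool.Agent.Loc Pool.Agent.Mob Pool.Agent.Helper54.Bal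

/-! ### P. pure probability -/

/-- `ℓ y` -/
def sm {d : ℕ} (ℓ : ℕ) (y : Site d) : Site d := fun j => ℓ * y j

/-- Almost subadditive random functions of two sites of `box 0 N`, with second moments. -/
structure FamN (d N : ℕ) {Ω : Type} [MeasurableSpace Ω] (P : Measure Ω) (C : ℝ)
    (D : Ω → Site d → Site d → ℝ) : Prop where
  meas : ∀ x y, Measurable fun ω => D ω x y
  symm : ∀ ω x y, D ω x y = D ω y x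
  int : ∀ x ∈ box (0 : Site d) N, ∀ y ∈ box (0 : Site d) N, Integrable (fun ω => D ω x y ^ 2) P
  sq : ∀ x ∈ box (0 : Site d) N, ∀ y ∈ box (0 : Site d) N,
    ∫ ω, D ω x y ^ 2 ∂P ≤ C * ((sd x y : ℝ) + 1) ^ 2
  neg : ∀ x ∈ box (0 : Site d) N, ∀ y ∈ box (0 : Site d) N, ∫ ω, (max 0 (-D ω x y)) ^ 2 ∂P ≤ C
  tri : ∀ x ∈ box (0 : Site d) N, ∀ u ∈ box (0 : Site d) N, ∀ y ∈ box (0 : Site d) N,
    ∫ ω, (max 0 (D ω x y - D ω x u - D ω u y)) ^ 2 ∂P ≤ C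

/-- the average over the cube of radius `R` -/
def Av {d : ℕ} (R : ℕ) (f : Site d → ℝ) : ℝ :=
  (∑ a ∈ box (0 : Site d) R, f a) / (2 * R + 1) ^ d

/-- AVS: averages over large cubes are almost shift invariant. -/
def AvsStmt : Prop :=
  ∀ (d b₀ : ℕ) (B ε : ℝ), 0 < ε → ∃ R₀ : ℕ, ∀ R : ℕ, R₀ ≤ R → ∀ (f : Site d → ℝ) (b : Site d),
    sd 0 b ≤ b₀ → (∀ a ∈ box (0 : Site d) (R + b₀), |f a| ≤ B) →
      |Av R (fun a => f (a + b)) - Av R f| ≤ ε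

/-- PHO: the pigeonhole of scales. -/
def PhoStmt : Prop :=
  ∀ (B ε : ℝ) (N q : ℕ), 0 < B → 0 < ε → ∃ J : ℕ, ∀ (ι : Type) (F : Finset ι), F.card ≤ N →
    ∀ (h s v : ι → ℕ → ℝ) (e : ℕ → ℝ),
    (∀ i ∈ F, ∀ j, h i (j + 1) ≤ h i j + e j) → (∀ i ∈ F, ∀ j, |h i j| ≤ B) →
    (∀ i ∈ F, ∀ j, s i (j + 1) ≤ s i j - v i j / 4 + e j) → (∀ i ∈ F, ∀ j, |s i j| ≤ B) →
    (∀ i ∈ F, ∀ j, 0 ≤ v i j) → (∀ j, 0 ≤ e j) → (∀ n, ∑ j ∈ Finset.range n, e j ≤ B) →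
      ∃ j ≤ J, ∀ i ∈ F, h i j - h i (j + q) ≤ ε ∧ v i j ≤ ε

/-- the average of `D(a, a + ℓ y) / ℓ` -/
def hA {d : ℕ} {Ω : Type} [MeasurableSpace Ω] (P : Measure Ω) (D : Ω → Site d → Site d → ℝ)
    (R : ℕ) (y : Site d) (ℓ : ℕ) : ℝ :=
  Av R fun a => ∫ ω, D ω a (a + sm ℓ y) / ℓ ∂P

/-- the average of `(D(a, a + ℓ y) / ℓ)²` -/
def sA {d : ℕ} {Ω : Type} [MeasurableSpace Ω] (P : Measure Ω) (D : Ω → Site d → Site d → ℝ)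
    (R : ℕ) (y : Site d) (ℓ : ℕ) : ℝ :=
  Av R fun a => ∫ ω, (D ω a (a + sm ℓ y) / ℓ) ^ 2 ∂P

/-- the average of `(D(a, a + ℓ y) / ℓ - D(a + ℓ y, a + 2 ℓ y) / ℓ)²` -/
def vA {d : ℕ} {Ω : Type} [MeasurableSpace Ω] (P : Measure Ω) (D : Ω → Site d → Site d → ℝ)
    (R : ℕ) (y : Site d) (ℓ : ℕ) : ℝ :=
  Av R fun a => ∫ ω, (D ω a (a + sm ℓ y) / ℓ - D ω (a + sm ℓ y) (a + sm (2 * ℓ) y) / ℓ) ^ 2 ∂P

/-- DBL: the mean and the second moment when the distance is doubled. -/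
def DblStmt : Prop :=
  ∀ (d K : ℕ) (C : ℝ), 0 < C → 1 ≤ K → ∃ M : ℝ, 0 < M ∧ ∀ ℓ : ℕ, 1 ≤ ℓ → ∃ R₀ : ℕ, ∀ R N : ℕ,
    R₀ ≤ R → R + 4 * K * ℓ ≤ N → ∀ (Ω : Type) [MeasurableSpace Ω] (P : Measure Ω)
    [IsProbabilityMeasure P] (D : Ω → Site d → Site d → ℝ), FamN d N P C D →
    ∀ y : Site d, sd 0 y ≤ K →
      |hA P D R y ℓ| ≤ M ∧ |sA P D R y ℓ| ≤ M ∧ 0 ≤ vA P D R y ℓ ∧
      hA P D R y (2 * ℓ) ≤ hA P D R y ℓ + M / ℓ ∧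
      sA P D R y (2 * ℓ) ≤ sA P D R y ℓ - vA P D R y ℓ / 4 + M / ℓ

/-- BLO: at a good scale `ℓ`, the distances `ℓ` and `nℓ`. -/
def BloStmt : Prop :=
  ∀ (d K : ℕ) (C : ℝ), 0 < C → 1 ≤ K → ∃ M : ℝ, 0 < M ∧ ∀ ℓ n : ℕ, 1 ≤ ℓ → 1 ≤ n →
    ∃ R₀ : ℕ, ∀ R N : ℕ, R₀ ≤ R → R + 4 * K * (n * ℓ) ≤ N → ∀ (Ω : Type) [MeasurableSpace Ω]
    (P : Measure Ω) [IsProbabilityMeasure P] (D : Ω → Site d → Site d → ℝ), FamN d N P C D →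
    ∀ (y : Site d) (ε : ℝ), sd 0 y ≤ K → 0 ≤ ε → hA P D R y ℓ - hA P D R y (n * ℓ) ≤ ε →
      vA P D R y ℓ ≤ ε ^ 2 →
      Av R (fun a => ∫ ω, |D ω a (a + sm ℓ y) / ℓ - D ω a (a + sm (n * ℓ) y) / (n * ℓ)| ∂P) ≤
        ε + n * ε + M / ℓ

/-- SHI: shifts at the distance `nℓ`. -/
def ShiStmt : Prop :=
  ∀ (d K : ℕ) (C : ℝ), 0 < C → 1 ≤ K → ∃ M : ℝ, 0 < M ∧ ∀ (N ℓ n : ℕ), 1 ≤ ℓ → 1 ≤ n →
    ∀ (Ω : Type) [MeasurableSpace Ω] (P : Measure Ω) [IsProbabilityMeasure P]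
    (D : Ω → Site d → Site d → ℝ), FamN d N P C D → ∀ a y k : Site d, sd 0 y ≤ K → sd 0 k ≤ K →
      box a (4 * K * (n * ℓ)) ⊆ box 0 N →
        ∫ ω, |D ω a (a + sm (n * ℓ) y) / (n * ℓ) -
          D ω (a + sm ℓ k) (a + sm ℓ k + sm (n * ℓ) y) / (n * ℓ)| ∂P ≤ M / n

/-- PIG: at one of finitely many scales, and at one base point, near invariance under shifts. -/
def PigStmt : Prop :=
  ∀ (d K W : ℕ) (C ε : ℝ), 0 < C → 0 < ε → 1 ≤ K → ∃ J l : ℕ, 1 ≤ l ∧ ∀ ℓ₀ : ℕ, l ≤ ℓ₀ →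
    ∃ N₀ : ℕ, ∀ N : ℕ, N₀ ≤ N → ∀ (Ω : Type) [MeasurableSpace Ω] (P : Measure Ω)
    [IsProbabilityMeasure P] (D : Ω → Site d → Site d → ℝ), FamN d N P C D →
    ∃ j ≤ J, ∃ a : Site d, box a (W * (2 ^ j * ℓ₀)) ⊆ box 0 N ∧ ∀ y k : Site d, sd 0 y ≤ K →
      sd 0 k ≤ K →
        ∫ ω, |D ω a (a + sm (2 ^ j * ℓ₀) y) -
          D ω (a + sm (2 ^ j * ℓ₀) k) (a + sm (2 ^ j * ℓ₀) k + sm (2 ^ j * ℓ₀) y)| ∂P ≤
            ε * (2 ^ j * ℓ₀ : ℕ)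

/-! ### F. finite volume -/

/-- `-log |G_Λ(x, y; E)|` -/
def DL {d : ℕ} (Λ : Finset (Site d)) (E : ℝ) (V : Site d → ℝ) (x y : Site d) : ℝ :=
  -Real.log |gr V Λ E x y|

/-- FMN: `-log |G|` in a cube has the properties of `FamN`, with a constant which does not depend
on the cube. -/
def FmnStmt : Prop :=
  ∀ (d : ℕ) (σ E : ℝ), 1 ≤ d → σ ≠ 0 → ∃ C : ℝ, 0 < C ∧ ∀ N : ℕ,
    FamN d N (PP d (gl σ)) C (DL (box 0 N) E) ∧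
    (∀ x ∈ box (0 : Site d) N, ∀ y ∈ box (0 : Site d) N,
      PP d (gl σ) {V | gr V (box 0 N) E x y = 0} = 0)

/-- FVD: comparison of a cube with a larger set (deterministic). -/
def FvdStmt : Prop :=
  ∀ (d : ℕ) (V : Site d → ℝ) (Λ : Finset (Site d)) (s : Site d) (L : ℕ) (E T a : ℝ), 0 ≤ T →
    0 ≤ a → box s (L + 1) ⊆ Λ → (RM V Λ E).det ≠ 0 → (RM V (box s L) E).det ≠ 0 →
    (∀ x y, |gr V (box s L) E x y| ≤ T) →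
    (∀ x ∈ box s (L + 1), ∀ y ∈ box s (L + 1), |gr V Λ E x y| ≤ T) →
    ((∀ u, sd s u = L → |gr V (box s L) E s u| ≤ a) → ∀ u, (sd s u = L ∨ sd s u = L + 1) →
      |gr V Λ E s u| ≤ (1 + 2 * d * (2 * L + 1) ^ d * T) * a) ∧
    ((∀ u, (sd s u = L ∨ sd s u = L + 1) → |gr V Λ E s u| ≤ a) → ∀ u, sd s u = L →
      |gr V (box s L) E s u| ≤ (1 + 2 * d * (2 * L + 1) ^ d * T) * a)

/-- The good event at the scale `ℓ`, `L = Qℓ`, about the base point `a`, in the cube `box 0 N`. -/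
def GoodEv {d : ℕ} (V : Site d → ℝ) (N Q ℓ : ℕ) (a : Site d) (E κ₃ : ℝ) : Prop :=
  (RM V (box 0 N) E).det ≠ 0 ∧
  (∀ x ∈ box a (12 * (Q * ℓ)), ∀ y ∈ box a (12 * (Q * ℓ)), gr V (box 0 N) E x y ≠ 0 ∧
    |gr V (box 0 N) E x y| ≤ Real.exp (κ₃ * (Q * ℓ))) ∧
  (∀ x ∈ box a (12 * (Q * ℓ)), ∀ u ∈ box a (12 * (Q * ℓ)), ∀ y ∈ box a (12 * (Q * ℓ)),
    DL (box 0 N) E V x y ≤ DL (box 0 N) E V x u + DL (box 0 N) E V u y + κ₃ * (Q * ℓ)) ∧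
  (∀ k ∈ box (0 : Site d) (10 * Q), ∀ y ∈ box (a + sm ℓ k) (3 * ℓ),
    DL (box 0 N) E V (a + sm ℓ k) y ≤ κ₃ * (Q * ℓ)) ∧
  (∀ k ∈ box (0 : Site d) (8 * Q), ∀ y ∈ box (0 : Site d) Q,
    |DL (box 0 N) E V a (a + sm ℓ y) -
      DL (box 0 N) E V (a + sm ℓ k) (a + sm ℓ k + sm ℓ y)| ≤ κ₃ * (Q * ℓ)) ∧
  (∀ s ∈ box a (8 * (Q * ℓ)), (RM V (box s (Q * ℓ)) E).det ≠ 0 ∧
    ∀ x y, |gr V (box s (Q * ℓ)) E x y| ≤ Real.exp (κ₃ * (Q * ℓ)))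

/-- GEV: the good event has probability near one, at one of finitely many scales and at one base
point. -/
def GevStmt : Prop :=
  ∀ (d : ℕ) (σ E κ₃ p : ℝ), 1 ≤ d → σ ≠ 0 → 0 < κ₃ → 0 < p → ∃ Q : ℕ, 1 ≤ Q ∧ ∀ l : ℕ,
    ∃ (ℓ N : ℕ) (a : Site d), l ≤ ℓ ∧ 1 ≤ ℓ ∧ box a (12 * (Q * ℓ)) ⊆ box 0 N ∧
      PP d (gl σ) {V | ¬ GoodEv V N Q ℓ a E κ₃} ≤ ENNReal.ofReal p

/-- DET: on the good event the decay about `a` implies the decay about all sites near `a`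
(deterministic). -/
def DetStmt : Prop :=
  ∀ (d : ℕ) (κ κ₃ : ℝ), 1 ≤ d → 0 < κ → 0 < κ₃ → 20 * κ₃ ≤ κ → ∃ L₀ : ℕ,
    ∀ (V : Site d → ℝ) (N Q ℓ : ℕ) (a : Site d) (E : ℝ), 1 ≤ Q → 1 ≤ ℓ → L₀ ≤ Q * ℓ →
      box a (12 * (Q * ℓ)) ⊆ box 0 N → GoodEv V N Q ℓ a E κ₃ → SG V (Q * ℓ) κ E a →
        ∀ s ∈ box a (7 * (Q * ℓ)), SG V (Q * ℓ) (κ / 2) E s

/-- CON: if there is decay with some fixed positive probability at all large scales, there is decay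
with probability near one, simultaneously about all sites of a cube, at arbitrarily large
scales. -/
def ConStmt : Prop :=
  ∀ (d : ℕ) (σ E κ δ p : ℝ), 1 ≤ d → σ ≠ 0 → 0 < κ → 0 < δ → 0 < p →
    (∃ L₁ : ℕ, ∀ L : ℕ, L₁ ≤ L → ENNReal.ofReal δ ≤ PP d (gl σ) {V | SG V L κ E 0}) →
    ∀ L₂ : ℕ, ∃ L : ℕ, L₂ ≤ L ∧
      PL (gl σ) (box (0 : Site d) (2 * L)) {V | ¬ AllGoodC V 0 L (κ / 2) E} ≤
        ENNReal.ofReal p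

/-! ### the zero-one law -/

/-- ZER: outside `LocSet` there is no decay with a fixed positive probability at all large
scales. -/
def ZerStmt : Prop :=
  ∀ (d : ℕ) (C₀ σ E κ δ : ℝ), 1 ≤ d → 0 < C₀ → σ ≠ 0 → E ∉ LocSet d C₀ σ → 0 < κ → 0 < δ →
    ∀ L₁ : ℕ, ∃ L : ℕ, L₁ ≤ L ∧ PP d (gl σ) {V | SG V L κ E 0} < ENNReal.ofReal δ

/-- CNV: in `LocSet` there is decay with probability near one. -/
def CnvStmt : Prop :=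
  ∀ (d : ℕ) (C₀ σ E : ℝ), 1 ≤ d → 0 < C₀ → σ ≠ 0 → BlkAt d C₀ σ → E ∈ LocSet d C₀ σ →
    ∃ (κ c : ℝ) (L₀ : ℕ), 0 < κ ∧ 0 < c ∧ ∀ L : ℕ, L₀ ≤ L →
      PP d (gl σ) {V | ¬ SG V L κ E 0} ≤ ENNReal.ofReal (Real.exp (-c * L))

end Pool.Agent.LE
end
end -- Pool.Agent.LE.StmtsA

section -- Pool.Agent.LE.StmtsG

/-!
# The Lyapunov exponent exists at every energy and is positive exactly in the localized phase

Statements of the modules; the proofs are in `/team-store/PAPER_GAM.md`.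
-/

set_option autoImplicit false

open MeasureTheory ProbabilityTheory Function Filter

open scoped ENNReal BigOperators Topology

noncomputable section

namespace Pool.Agent.LE

open Pool.Agent.Anderson Pool.Agent.Loc Pool.Agent.Mob Pool.Agent.Helper54.Bal

/-! ### P. pure probability -/

/-- the L² norm with the average over the base points in `box 0 R` -/
def nA {d : ℕ} {Ω : Type} [MeasurableSpace Ω] (P : Measure Ω) (R : ℕ) (f : Site d → Ω → ℝ) : ℝ :=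
  Real.sqrt (Av R fun a => ∫ ω, f a ω ^ 2 ∂P)

/-- `D(a, a + ℓ y) / ℓ` -/
def XX {d : ℕ} {Ω : Type} (D : Ω → Site d → Site d → ℝ) (y : Site d) (ℓ : ℕ) :
    Site d → Ω → ℝ :=
  fun a ω => D ω a (a + sm ℓ y) / ℓ

/-- admissible families: `f a` is measurable and square integrable for all `a` in `box 0 R` -/
def Adm {d : ℕ} {Ω : Type} [MeasurableSpace Ω] (P : Measure Ω) (R : ℕ) (f : Site d → Ω → ℝ) :
    Prop :=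
  ∀ a ∈ box (0 : Site d) R, Measurable (f a) ∧ Integrable (fun ω => f a ω ^ 2) P

/-- NRM: the norm. -/
def NrmStmt : Prop :=
  ∀ (d : ℕ) (Ω : Type) [MeasurableSpace Ω] (P : Measure Ω) [IsProbabilityMeasure P] (R : ℕ),
    (∀ f g : Site d → Ω → ℝ, Adm P R f → Adm P R g →
      Adm P R (fun a ω => f a ω + g a ω) ∧
      nA P R (fun a ω => f a ω + g a ω) ≤ nA P R f + nA P R g ∧
      nA P R (fun a ω => f a ω - g a ω) ^ 2 = 2 * nA P R f ^ 2 + 2 * nA P R g ^ 2 -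
        4 * nA P R (fun a ω => (f a ω + g a ω) / 2) ^ 2) ∧
    (∀ f g : Site d → Ω → ℝ, Adm P R g → (∀ a ∈ box (0 : Site d) R, ∀ ω, |f a ω| ≤ |g a ω|) →
      nA P R f ≤ nA P R g) ∧
    (∀ (f : Site d → Ω → ℝ) (c : ℝ), nA P R (fun a ω => c * f a ω) = |c| * nA P R f) ∧
    (∀ (n : ℕ) (f : ℕ → Site d → Ω → ℝ) (B : ℝ), (∀ i < n, Adm P R (f i)) →
      (∀ i < n, nA P R (f i) ≤ B) →
      Adm P R (fun a ω => ∑ i ∈ Finset.range n, f i a ω) ∧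
      nA P R (fun a ω => ∑ i ∈ Finset.range n, f i a ω) ≤ n * B) ∧
    (∀ (f : Site d → Ω → ℝ) (B : ℝ), 0 ≤ B →
      (∀ a ∈ box (0 : Site d) R, ∫ ω, f a ω ^ 2 ∂P ≤ B ^ 2) → nA P R f ≤ B) ∧
    (∀ f : Site d → Ω → ℝ, Adm P R f → Av R (fun a => ∫ ω, |f a ω| ∂P) ≤ nA P R f)

/-- SUBX: subadditivity of the norm. -/
def SubXStmt : Prop :=
  ∀ (d K : ℕ) (C : ℝ), 0 < C → 1 ≤ K → ∃ M : ℝ, 0 < M ∧ ∀ (ℓ ℓ' : ℕ), 1 ≤ ℓ → 1 ≤ ℓ' →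
    ∃ R₀ : ℕ, ∀ R N : ℕ, R₀ ≤ R → R + 4 * K * (ℓ + ℓ') ≤ N → ∀ (Ω : Type) [MeasurableSpace Ω]
    (P : Measure Ω) [IsProbabilityMeasure P] (D : Ω → Site d → Site d → ℝ), FamN d N P C D →
    ∀ y : Site d, sd 0 y ≤ K → nA P R (XX D y ℓ) ≤ M ∧
      (ℓ + ℓ') * nA P R (XX D y (ℓ + ℓ')) ≤
        ℓ * nA P R (XX D y ℓ) + ℓ' * nA P R (XX D y ℓ') + M

/-- KEYX: the lower bound for the mean of two scales. -/
def KeyXStmt : Prop :=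
  ∀ (d K : ℕ) (C : ℝ), 0 < C → 1 ≤ K → ∃ M : ℝ, 0 < M ∧ ∀ (ℓ ℓ' : ℕ) (e : ℝ), 1 ≤ ℓ → 1 ≤ ℓ' →
    0 < e → ∃ R₀ : ℕ, ∀ R N : ℕ, R₀ ≤ R → R + 4 * K * (ℓ * ℓ') ≤ N →
    ∀ (Ω : Type) [MeasurableSpace Ω] (P : Measure Ω) [IsProbabilityMeasure P]
    (D : Ω → Site d → Site d → ℝ), FamN d N P C D → ∀ y : Site d, sd 0 y ≤ K →
      nA P R (XX D y (ℓ * ℓ')) ≤
        nA P R (fun a ω => (XX D y ℓ a ω + XX D y ℓ' a ω) / 2) + M * (1 / ℓ + 1 / ℓ') + e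

/-- CAU: the sequence `D(a, a + ℓ y) / ℓ` is a Cauchy sequence in L², in the limit of large
cubes. -/
def CauStmt : Prop :=
  ∀ (d K : ℕ) (C : ℝ), 0 < C → 1 ≤ K → ∀ (Ω : Type) [MeasurableSpace Ω] (P : Measure Ω)
    [IsProbabilityMeasure P] (D : ℕ → Ω → Site d → Site d → ℝ), (∀ N, FamN d N P C (D N)) →
    ∀ ε : ℝ, 0 < ε → ∃ l : ℕ, 1 ≤ l ∧ ∀ ℓ ℓ' : ℕ, l ≤ ℓ → l ≤ ℓ' →
      ∀ᶠ N in (hyperfilter ℕ : Filter ℕ), ∀ y : Site d, sd 0 y ≤ K →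
        nA P (N / 2) (fun a ω => XX (D N) y ℓ a ω - XX (D N) y ℓ' a ω) ≤ ε

/-- PIG3: at any two large scales and at one common base point, near invariance under shifts, and
near equality of the two scales. -/
def Pig3Stmt : Prop :=
  ∀ (d K W : ℕ) (C ε : ℝ), 0 < C → 0 < ε → 1 ≤ K → ∀ (Ω : Type) [MeasurableSpace Ω]
    (P : Measure Ω) [IsProbabilityMeasure P] (D : ℕ → Ω → Site d → Site d → ℝ),
    (∀ N, FamN d N P C (D N)) → ∃ l : ℕ, 1 ≤ l ∧ ∀ ℓ ℓ' : ℕ, l ≤ ℓ → l ≤ ℓ' →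
      ∃ (N : ℕ) (a : Site d), box a (W * ℓ) ⊆ box 0 N ∧ box a (W * ℓ') ⊆ box 0 N ∧
        ∀ y k : Site d, sd 0 y ≤ K → sd 0 k ≤ K →
          ∫ ω, |D N ω a (a + sm ℓ y) - D N ω (a + sm ℓ k) (a + sm ℓ k + sm ℓ y)| ∂P ≤
            ε * (ℓ : ℕ) ∧
          ∫ ω, |D N ω a (a + sm ℓ' y) - D N ω (a + sm ℓ' k) (a + sm ℓ' k + sm ℓ' y)| ∂P ≤
            ε * (ℓ' : ℕ) ∧
          ∫ ω, |D N ω a (a + sm ℓ y) / ℓ - D N ω a (a + sm ℓ' y) / ℓ'| ∂P ≤ ε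

/-! ### the good events -/

/-- The good event at the scale `ℓ` about the base point `a`, in the cube `box 0 N`; as `GoodEv`,
but the last part is about the cubes of radius `Qℓ + r` for all `r < Q`. -/
def GoodG {d : ℕ} (V : Site d → ℝ) (N Q ℓ : ℕ) (a : Site d) (E κ₃ : ℝ) : Prop :=
  (RM V (box 0 N) E).det ≠ 0 ∧
  (∀ x ∈ box a (12 * (Q * ℓ)), ∀ y ∈ box a (12 * (Q * ℓ)), gr V (box 0 N) E x y ≠ 0 ∧
    |gr V (box 0 N) E x y| ≤ Real.exp (κ₃ * (Q * ℓ))) ∧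
  (∀ x ∈ box a (12 * (Q * ℓ)), ∀ u ∈ box a (12 * (Q * ℓ)), ∀ y ∈ box a (12 * (Q * ℓ)),
    DL (box 0 N) E V x y ≤ DL (box 0 N) E V x u + DL (box 0 N) E V u y + κ₃ * (Q * ℓ)) ∧
  (∀ k ∈ box (0 : Site d) (10 * Q), ∀ y ∈ box (a + sm ℓ k) (3 * ℓ),
    DL (box 0 N) E V (a + sm ℓ k) y ≤ κ₃ * (Q * ℓ)) ∧
  (∀ k ∈ box (0 : Site d) (8 * Q), ∀ y ∈ box (0 : Site d) Q,
    |DL (box 0 N) E V a (a + sm ℓ y) -
      DL (box 0 N) E V (a + sm ℓ k) (a + sm ℓ k + sm ℓ y)| ≤ κ₃ * (Q * ℓ)) ∧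
  (∀ r < Q, ∀ s ∈ box a (8 * (Q * ℓ)), (RM V (box s (Q * ℓ + r)) E).det ≠ 0 ∧
    ∀ x y, |gr V (box s (Q * ℓ + r)) E x y| ≤ Real.exp (κ₃ * (Q * ℓ)))

/-- the two scales `ℓ`, `ℓ'` are nearly equal -/
def CrossG {d : ℕ} (V : Site d → ℝ) (N Q ℓ ℓ' : ℕ) (a : Site d) (E κ₃ : ℝ) : Prop :=
  ∀ y ∈ box (0 : Site d) Q, |DL (box 0 N) E V a (a + sm ℓ y) / ℓ -
    DL (box 0 N) E V a (a + sm ℓ' y) / ℓ'| ≤ κ₃ * Q

/-- GEVG: at any two large scales the good events have probability near one, at one base point. -/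
def GevGStmt : Prop :=
  ∀ (d : ℕ) (σ E κ₃ p : ℝ), 1 ≤ d → σ ≠ 0 → 0 < κ₃ → 0 < p → ∃ Q : ℕ, 1 ≤ Q ∧ ∃ l : ℕ, 1 ≤ l ∧
    ∀ ℓ ℓ' : ℕ, l ≤ ℓ → l ≤ ℓ' → ∃ (N : ℕ) (a : Site d), box a (12 * (Q * ℓ)) ⊆ box 0 N ∧
      box a (12 * (Q * ℓ')) ⊆ box 0 N ∧
      PP d (gl σ) {V | ¬ (GoodG V N Q ℓ a E κ₃ ∧ GoodG V N Q ℓ' a E κ₃ ∧
        CrossG V N Q ℓ ℓ' a E κ₃)} ≤ ENNReal.ofReal p

/-- DETG: on the good event the decay about `a + ℓ k` implies the decay about all sites near `a`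
(deterministic). -/
def DetGStmt : Prop :=
  ∀ (d : ℕ) (κ₃ : ℝ), 1 ≤ d → 0 < κ₃ → ∃ L₀ : ℕ, ∀ (κ : ℝ) (V : Site d → ℝ) (N Q ℓ L : ℕ)
    (a : Site d) (E : ℝ), 1 ≤ Q → Q ≤ ℓ → L₀ ≤ L → Q * ℓ ≤ L → L < Q * (ℓ + 1) →
    box a (12 * (Q * ℓ)) ⊆ box 0 N → GoodG V N Q ℓ a E κ₃ →
      ∀ k ∈ box (0 : Site d) (8 * Q), SG V L κ E (a + sm ℓ k) →
        ∀ s ∈ box a (7 * (Q * ℓ)), SG V L (κ - 12 * κ₃) E s

/-- DETX: on the good events at two scales the decay at one scale implies the decay at the other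
scale (deterministic). -/
def DetXStmt : Prop :=
  ∀ (d : ℕ) (κ₃ : ℝ), 1 ≤ d → 0 < κ₃ → ∃ L₀ : ℕ, ∀ (κ : ℝ) (V : Site d → ℝ)
    (N Q ℓ ℓ' L L' : ℕ) (a : Site d) (E : ℝ), 1 ≤ Q → Q ≤ ℓ → Q ≤ ℓ' →
    |κ| + 12 * κ₃ ≤ κ₃ * ℓ → |κ| + 12 * κ₃ ≤ κ₃ * ℓ' → L₀ ≤ L → L₀ ≤ L' → Q * ℓ ≤ L →
    L < Q * (ℓ + 1) → Q * ℓ' ≤ L' → L' < Q * (ℓ' + 1) → box a (12 * (Q * ℓ)) ⊆ box 0 N →
    box a (12 * (Q * ℓ')) ⊆ box 0 N → GoodG V N Q ℓ a E κ₃ → GoodG V N Q ℓ' a E κ₃ →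
    CrossG V N Q ℓ ℓ' a E κ₃ → SG V L κ E a → SG V L' (κ - 12 * κ₃) E a

/-- ZOO: decay at the rate `κ` with a fixed positive probability at arbitrarily large scales implies
decay at each smaller rate with probability near one at all large scales. -/
def ZooStmt : Prop :=
  ∀ (d : ℕ) (σ E κ κ' δ p : ℝ), 1 ≤ d → σ ≠ 0 → κ' < κ → 0 < δ → 0 < p →
    (∀ L₁ : ℕ, ∃ L : ℕ, L₁ ≤ L ∧ ENNReal.ofReal δ ≤ PP d (gl σ) {V | SG V L κ E 0}) →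
    ∃ L₀ : ℕ, ∀ L : ℕ, L₀ ≤ L → PP d (gl σ) {V | ¬ SG V L κ' E 0} ≤ ENNReal.ofReal p

/-- LOCG: decay with a fixed positive probability at arbitrarily large scales implies
localization. -/
def LocGStmt : Prop :=
  ∀ (d : ℕ) (C₀ σ E κ δ : ℝ), 1 ≤ d → 0 < C₀ → σ ≠ 0 → 0 < κ → 0 < δ →
    (∀ L₁ : ℕ, ∃ L : ℕ, L₁ ≤ L ∧ ENNReal.ofReal δ ≤ PP d (gl σ) {V | SG V L κ E 0}) →
    E ∈ LocSet d C₀ σ

/-- LYA: the Lyapunov exponent exists at every energy. -/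
def LyaStmt : Prop :=
  ∀ (d : ℕ) (σ E : ℝ), 1 ≤ d → σ ≠ 0 → ∃ γ : ℝ, 0 ≤ γ ∧ ∀ ε : ℝ, 0 < ε →
    Tendsto (fun L : ℕ => PP d (gl σ) {V | SG V L (γ + ε) E 0}) atTop (𝓝 0) ∧
    Tendsto (fun L : ℕ => PP d (gl σ) {V | ¬ SG V L (γ - ε) E 0}) atTop (𝓝 0)

end Pool.Agent.LE
end
end -- Pool.Agent.LE.StmtsG

section -- Pool.Agent.LE.StmtsR

/-!
# Eigenfunctions decay exactly at the rate of the Lyapunov exponent: statements of the modules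

The proofs are in `/team-store/PAPER_EXR.md`.
-/

set_option autoImplicit false

open MeasureTheory ProbabilityTheory Function Filter

open scoped ENNReal BigOperators Topology

noncomputable section

namespace Pool.Agent.LE

open Pool.Agent.Anderson Pool.Agent.Loc Pool.Agent.Mob Pool.Agent.Helper54.Bal
  Pool.Agent.Helper96.EXP

/-- `g` is the Lyapunov exponent at the energy `E` -/
def LyaAt (d : ℕ) (σ E g : ℝ) : Prop :=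
  0 ≤ g ∧ ∀ ε : ℝ, 0 < ε →
    Tendsto (fun L : ℕ => PP d (gl σ) {V | SG V L (g + ε) E 0}) atTop (𝓝 0) ∧
    Tendsto (fun L : ℕ => PP d (gl σ) {V | ¬ SG V L (g - ε) E 0}) atTop (𝓝 0)

/-! ### the sharp multiscale induction at one energy -/

/-- SMD: the sharp deterministic step. -/
def SmdStmt : Prop :=
  ∀ (d : ℕ) (V : Site d → ℝ) (E m T q : ℝ) (L M N n : ℕ) (s u : Site d), 1 ≤ L → 1 ≤ N →
    0 ≤ T → q ≤ 1 → 2 * d * (3 * L) ^ d * Real.exp (-m * L) ≤ q →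
    T * (2 * d * (33 * N * L) ^ d) * q ≤ 1 / 2 →
    ((RM V (box s M) E).det ≠ 0 ∧ ∀ x y, |gr V (box s M) E x y| ≤ T) →
    (∀ v ∈ box s M, ∀ r : ℕ, r ≤ 16 * N * L →
      (RM V (box v r) E).det ≠ 0 ∧ ∀ x y, |gr V (box v r) E x y| ≤ T) →
    (∀ F : Finset (Site d), (∀ v ∈ F, v ∈ box s M ∧ ¬ SG V L m E v) →
      (∀ v ∈ F, ∀ v' ∈ F, v ≠ v' → 6 * L < sd v v') → F.card ≤ N) →
    n * (L + 1) + 45 * N ^ 2 * L ≤ M → sd s u = M → |gr V (box s M) E s u| ≤ q ^ n * T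

/-- SMP: the probability step. -/
def SmpStmt : Prop :=
  ∀ (d : ℕ) (ν : Measure ℝ) [IsProbabilityMeasure ν] (ρ : ℝ), BddDens ν ρ →
    ∀ (E m m' p T q : ℝ) (L M N n : ℕ), 1 ≤ L → 1 ≤ N → 0 ≤ p → 0 < T → q ≤ 1 →
      2 * d * (3 * L) ^ d * Real.exp (-m * L) ≤ q → T * (2 * d * (33 * N * L) ^ d) * q ≤ 1 / 2 →
      n * (L + 1) + 45 * N ^ 2 * L ≤ M → q ^ n * T ≤ Real.exp (-m' * M) →
      PP d ν {V | ¬ AllGoodC V 0 L m E} ≤ ENNReal.ofReal p →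
      PP d ν {V | ¬ AllGoodC V 0 M m' E} ≤
        ENNReal.ofReal (((7 * (M / L : ℝ)) ^ d * p) ^ (N + 1) +
          12 * ρ * (5 * M) ^ (3 * d + 1) / T)

/-- the numbers of one step: from the scale `L`, the rate `m` and the probability `p` to the scale
`M`, the rate `m'` and the probability `p'` -/
def StepN (d : ℕ) (ρ : ℝ) (L : ℕ) (m p : ℝ) (M : ℕ) (m' p' : ℝ) : Prop :=
  ∃ (N n : ℕ) (T q : ℝ), 1 ≤ N ∧ 0 < T ∧ q ≤ 1 ∧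
    2 * d * (3 * L) ^ d * Real.exp (-m * L) ≤ q ∧ T * (2 * d * (33 * N * L) ^ d) * q ≤ 1 / 2 ∧
    n * (L + 1) + 45 * N ^ 2 * L ≤ M ∧ q ^ n * T ≤ Real.exp (-m' * M) ∧
    ((7 * (M / L : ℝ)) ^ d * p) ^ (N + 1) + 12 * ρ * (5 * M) ^ (3 * d + 1) / T ≤ p'

/-- SMN: the numbers of the induction. -/
def SmnStmt : Prop :=
  ∀ (d : ℕ) (ρ m ε A : ℝ), 1 ≤ d → 0 < ρ → 0 < ε → ε < m → ∃ p₀ : ℝ, 0 < p₀ ∧ ∃ L₀ : ℕ,
    ∀ L : ℕ, L₀ ≤ L → ∃ (ℓ : ℕ → ℕ) (μ p : ℕ → ℝ), ℓ 0 = L ∧ μ 0 = m ∧ p 0 = p₀ ∧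
      (∀ k, 1 ≤ ℓ k ∧ 0 ≤ p k ∧
        StepN d ρ (ℓ k) (μ k) (p k) (ℓ (k + 1)) (μ (k + 1)) (p (k + 1))) ∧
      ∃ L₁ : ℕ, ∀ M : ℕ, L₁ ≤ M → ∃ k,
        StepN d ρ (ℓ k) (μ k) (p k) M (m - ε) ((M : ℝ) ^ (-A))

/-- SMA: improvement of the probability, with an arbitrarily small loss in the rate. -/
def SmaStmt : Prop :=
  ∀ (d : ℕ) (σ E m ε A : ℝ), 1 ≤ d → σ ≠ 0 → 0 < ε → ε < m →
    Tendsto (fun L : ℕ => PP d (gl σ) {V | ¬ AllGoodC V 0 L m E}) atTop (𝓝 0) →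
    ∃ L₀ : ℕ, ∀ L : ℕ, L₀ ≤ L →
      PP d (gl σ) {V | ¬ AllGoodC V 0 L (m - ε) E} ≤ ENNReal.ofReal ((L : ℝ) ^ (-A))

/-- ALG: all the sites of a cube are good with rates close to the Lyapunov exponent. -/
def AlgStmt : Prop :=
  ∀ (d : ℕ) (σ E g ε : ℝ), 1 ≤ d → σ ≠ 0 → LyaAt d σ E g → 0 < ε →
    Tendsto (fun L : ℕ => PP d (gl σ) {V | ¬ AllGoodC V 0 L (g - ε) E}) atTop (𝓝 0)

/-! ### one energy -/

/-- RSX: a decaying solution off the site `0` gives decay of the Green function at the same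
rate. -/
def RsxStmt : Prop :=
  ∀ (d : ℕ) (σ E C m ε : ℝ), 1 ≤ d → σ ≠ 0 → 0 < m → 0 < ε →
    PP d (gl σ) {V | GoodE C m V E} ≠ 0 → ∃ δ : ℝ, 0 < δ ∧ ∃ L₀ : ℕ, ∀ L : ℕ, L₀ ≤ L →
      ENNReal.ofReal δ ≤ PP d (gl σ) {V | SG V L (m - ε) E 0}

/-- FEX: decay of the Green function gives decay of the solutions off the site `0` at the same
rate. -/
def FexStmt : Prop :=
  ∀ (d : ℕ) (ν : Measure ℝ) [IsProbabilityMeasure ν] (E g c C m : ℝ), 0 < m → c < g →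
    (∃ L₀ : ℕ, ∀ L : ℕ, L₀ ≤ L → PP d ν {V | ¬ SG V L g E 0} ≤
      ENNReal.ofReal ((L : ℝ) ^ (-((d : ℝ) + 2)))) →
    ∀ᵐ V ∂(PP d ν), ∀ n, Sol C m V E n → ∃ B : ℝ, Dec B c n

/-! ### from fixed energies to eigenvalues -/

/-- GEN: exceptional pairs (potential, energy) which have probability zero at almost every energy
do not occur at eigenvalues. -/
def GenStmt : Prop :=
  ∀ (d : ℕ) (ν : Measure ℝ) [IsProbabilityMeasure ν] (ρ : ℝ), BddDens ν ρ →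
    ∀ (C m : ℝ) (K : Set ℝ) (B : Set ((Site d → ℝ) × ℝ)), 0 < m → IsCompact K →
      MeasurableSet B →
      (∀ (V : Site d → ℝ) (r E : ℝ), (V, E) ∈ B ↔ (Function.update V 0 r, E) ∈ B) →
      (∀ᵐ E ∂((volume : Measure ℝ).restrict K), PP d ν {V | GoodE C m V E ∧ (V, E) ∈ B} = 0) →
      PP d ν {V | ∃ E ∈ K, (V, E) ∈ B ∧ ∃ n, Sol C m V E n ∧ lapR n 0 + V 0 = E} = 0

/-- SIM: eigenvalues of decaying eigenfunctions are simple. -/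
def SimStmt : Prop :=
  ∀ (d : ℕ) (ν : Measure ℝ) [IsProbabilityMeasure ν] (ρ : ℝ), BddDens ν ρ →
    ∀ (C m : ℝ), 0 < m → ∀ᵐ V ∂(PP d ν), ∀ (E : ℝ) (n : Site d → ℝ), Sol C m V E n →
      lapR n 0 + V 0 = E → ∀ w : Site d → ℝ,
      (∃ B m' : ℝ, 0 < m' ∧ ∀ x, |w x| ≤ B * Real.exp (-m' * sd 0 x)) →
      (∀ x, lapR w x + V x * w x = E * w x) → w 0 = 0 → ∀ x, w x = 0

/-- MES: measurability of the Lyapunov exponent. -/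
def MesStmt : Prop :=
  ∀ (d : ℕ) (σ : ℝ) (γ : ℝ → ℝ), 1 ≤ d → σ ≠ 0 → (∀ E, LyaAt d σ E (γ E)) →
    ∀ c : ℝ, MeasurableSet {E : ℝ | γ E < c}

/-- EXI: no decay faster than the Lyapunov exponent, normalized at `0`. -/
def ExiStmt : Prop :=
  ∀ (d : ℕ) (σ : ℝ) (γ : ℝ → ℝ), 1 ≤ d → σ ≠ 0 → (∀ E, LyaAt d σ E (γ E)) →
    ∀ (C c : ℝ) (K : Set ℝ), 0 < c → IsCompact K →
      PP d (gl σ) {V | ∃ E ∈ K, γ E < c ∧ ∃ n, Sol C c V E n ∧ lapR n 0 + V 0 = E} = 0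

/-- EXJ: decay at least at the rate of the Lyapunov exponent, normalized at `0`. -/
def ExjStmt : Prop :=
  ∀ (d : ℕ) (σ : ℝ) (γ : ℝ → ℝ), 1 ≤ d → σ ≠ 0 → (∀ E, LyaAt d σ E (γ E)) →
    ∀ (C m c : ℝ) (K : Set ℝ), 0 < m → 0 < c → IsCompact K →
      ∀ᵐ V ∂(PP d (gl σ)), ∀ E ∈ K, c < γ E → ∀ n, Sol C m V E n → lapR n 0 + V 0 = E →
        ∃ B : ℝ, Dec B c n

/-- NXI: from the site `0` and fixed constants to all eigenfunctions, upper bound for the rate. -/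
def NxiStmt : Prop :=
  ∀ (d : ℕ) (σ : ℝ) (γ : ℝ → ℝ), (∀ E, 0 ≤ γ E) →
    (∀ (C c : ℝ) (K : Set ℝ), 0 < c → IsCompact K →
      PP d (gl σ) {V | ∃ E ∈ K, γ E < c ∧ ∃ n, Sol C c V E n ∧ lapR n 0 + V 0 = E} = 0) →
    ∀ᵐ V ∂(PP d (gl σ)), ∀ (E : ℝ) (ψ : Site d → ℂ),
      (∀ x, lap ψ x + (V x : ℂ) * ψ x = (E : ℂ) * ψ x) → ∀ B m : ℝ, γ E < m →
      (∀ x, ‖ψ x‖ ≤ B * Real.exp (-m * sd 0 x)) → ∀ x, ψ x = 0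

/-- NXJ: from the site `0` and fixed constants to all eigenfunctions, lower bound for the rate. -/
def NxjStmt : Prop :=
  ∀ (d : ℕ) (σ : ℝ) (γ : ℝ → ℝ), (∀ E, 0 ≤ γ E) →
    (∀ (C m c : ℝ) (K : Set ℝ), 0 < m → 0 < c → IsCompact K →
      ∀ᵐ V ∂(PP d (gl σ)), ∀ E ∈ K, c < γ E → ∀ n, Sol C m V E n → lapR n 0 + V 0 = E →
        ∃ B : ℝ, Dec B c n) →
    ∀ᵐ V ∂(PP d (gl σ)), ∀ (E : ℝ) (ψ : Site d → ℂ),
      (∀ x, lap ψ x + (V x : ℂ) * ψ x = (E : ℂ) * ψ x) →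
      (∃ B m : ℝ, 0 < m ∧ ∀ x, ‖ψ x‖ ≤ B * Real.exp (-m * sd 0 x)) → ∀ c : ℝ, c < γ E →
      ∃ B : ℝ, ∀ x, ‖ψ x‖ ≤ B * Real.exp (-c * sd 0 x)

end Pool.Agent.LE
end
end -- Pool.Agent.LE.StmtsR

section -- Pool.Agent.LE.StmtsC

/-!
# The Lyapunov exponent is continuous; the localization length diverges at the mobility edge

Statements of the modules; the proofs are in `/team-store/PAPER_CON.md`.
-/

set_option autoImplicit false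

open MeasureTheory ProbabilityTheory Function Filter

open scoped ENNReal BigOperators Topology

noncomputable section

namespace Pool.Agent.LE

open Pool.Agent.Anderson Pool.Agent.Loc Pool.Agent.Mob Pool.Agent.Helper54.Bal
  Pool.Agent.Helper96.EXP

/-- the parameters range over a compact set -/
def Par (B σ E : ℝ) : Prop := |E| ≤ B ∧ |σ| ≤ B ∧ 1 ≤ B * |σ|

/-- the maximum of `D(c, s)` over the cube of radius `n` about `c` -/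
def mx {d : ℕ} (V : Site d → ℝ) (N : ℕ) (E : ℝ) (c : Site d) (n : ℕ) : ℝ≥0∞ :=
  (box c n).sup fun s => ENNReal.ofReal (DL (box 0 N) E V c s)

/-! ### U. uniform constants -/

/-- UFM: FMN with a constant which is uniform in the parameters. -/
def UfmStmt : Prop :=
  ∀ (d : ℕ) (B : ℝ), 1 ≤ d → 0 < B → ∃ C : ℝ, 0 < C ∧ ∀ σ E : ℝ, Par B σ E → ∀ N : ℕ,
    FamN d N (PP d (gl σ)) C (DL (box 0 N) E) ∧
    (∀ x ∈ box (0 : Site d) N, ∀ y ∈ box (0 : Site d) N,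
      PP d (gl σ) {V | gr V (box 0 N) E x y = 0} = 0)

/-- UCH: chaining, with the moment of any order `q ≥ 4 d`, uniformly in the parameters. -/
def UchStmt : Prop :=
  ∀ (d q : ℕ) (B : ℝ), 1 ≤ d → 4 * d ≤ q → 0 < B → ∃ C : ℝ, 0 < C ∧ ∀ σ E : ℝ, Par B σ E →
    ∀ (N n : ℕ) (c : Site d), 1 ≤ n → box c n ⊆ box 0 N →
      ∫⁻ V, (mx V N E c n) ^ q ∂(PP d (gl σ)) ≤ ENNReal.ofReal ((C * n) ^ q)

/-! ### G. the good event -/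

/-- The good event at the scale `ℓ` about the base point `a`, in the cube `box 0 N`: as `GoodEv`,
with all cubes of radius at most `Qℓ` in the last part. -/
def GoodU {d : ℕ} (V : Site d → ℝ) (N Q ℓ : ℕ) (a : Site d) (E η : ℝ) : Prop :=
  (RM V (box 0 N) E).det ≠ 0 ∧
  (∀ x ∈ box a (12 * (Q * ℓ)), ∀ y ∈ box a (12 * (Q * ℓ)), gr V (box 0 N) E x y ≠ 0 ∧
    |gr V (box 0 N) E x y| ≤ Real.exp (η * (Q * ℓ))) ∧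
  (∀ x ∈ box a (12 * (Q * ℓ)), ∀ u ∈ box a (12 * (Q * ℓ)), ∀ y ∈ box a (12 * (Q * ℓ)),
    DL (box 0 N) E V x y ≤ DL (box 0 N) E V x u + DL (box 0 N) E V u y + η * (Q * ℓ)) ∧
  (∀ k ∈ box (0 : Site d) (10 * Q), ∀ y ∈ box (a + sm ℓ k) (3 * ℓ),
    DL (box 0 N) E V (a + sm ℓ k) y ≤ η * (Q * ℓ)) ∧
  (∀ k ∈ box (0 : Site d) (8 * Q), ∀ y ∈ box (0 : Site d) Q,
    |DL (box 0 N) E V a (a + sm ℓ y) -
      DL (box 0 N) E V (a + sm ℓ k) (a + sm ℓ k + sm ℓ y)| ≤ η * (Q * ℓ)) ∧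
  (∀ r ≤ Q * ℓ, ∀ s ∈ box a (8 * (Q * ℓ)), (RM V (box s r) E).det ≠ 0 ∧
    ∀ x y, |gr V (box s r) E x y| ≤ Real.exp (η * (Q * ℓ)))

/-- GVU: at one of the scales `2 ^ j ℓ₀`, `j ≤ J`, and at one base point, the good event has
probability near one; `Q₀`, `J`, `l` do not depend on the parameters `σ`, `E`. -/
def GvuStmt : Prop :=
  ∀ (d : ℕ) (B η θ : ℝ), 1 ≤ d → 0 < B → 0 < η → 0 < θ → ∃ Q₀ : ℕ, 1 ≤ Q₀ ∧ ∀ Q : ℕ, Q₀ ≤ Q →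
    ∃ J l : ℕ, 1 ≤ l ∧ ∀ ℓ₀ : ℕ, l ≤ ℓ₀ → ∀ σ E : ℝ, Par B σ E →
      ∃ j ≤ J, ∃ (N : ℕ) (a : Site d), box a (12 * (Q * (2 ^ j * ℓ₀))) ⊆ box 0 N ∧
        PP d (gl σ) {V | ¬ GoodU V N Q (2 ^ j * ℓ₀) a E η} ≤
          ENNReal.ofReal (θ / (Q : ℝ) ^ (2 * d))

/-- DTU: on the good event the decay about `a + ℓ k` implies the decay about all sites near `a`,
for the cubes of radius `L₁ = Q₁ ℓ`, `Q = K Q₁` (deterministic). -/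
def DtuStmt : Prop :=
  ∀ (d : ℕ) (η : ℝ) (K : ℕ), 1 ≤ d → 0 < η → 1 ≤ K → ∃ L₀ : ℕ, ∀ (κ : ℝ) (V : Site d → ℝ)
    (N Q₁ ℓ : ℕ) (a : Site d) (E : ℝ), 1 ≤ Q₁ → 1 ≤ ℓ → L₀ ≤ Q₁ * ℓ →
    box a (12 * (K * Q₁ * ℓ)) ⊆ box 0 N → GoodU V N (K * Q₁) ℓ a E η →
      ∀ k ∈ box (0 : Site d) (8 * (K * Q₁)), SG V (Q₁ * ℓ) κ E (a + sm ℓ k) →
        ∀ s ∈ box a (7 * (K * Q₁ * ℓ)), SG V (Q₁ * ℓ) (κ - 12 * η * K) E s

/-- ZOS: zero-one law at a good scale. -/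
def ZosStmt : Prop :=
  ∀ (d : ℕ) (η : ℝ) (K : ℕ), 1 ≤ d → 0 < η → 1 ≤ K → ∃ L₀ : ℕ, ∀ (σ E κ p : ℝ) (N Q₁ ℓ : ℕ)
    (a : Site d), σ ≠ 0 → 0 ≤ p → 1 ≤ Q₁ → 1 ≤ ℓ → L₀ ≤ Q₁ * ℓ →
    box a (12 * (K * Q₁ * ℓ)) ⊆ box 0 N →
    PP d (gl σ) {V | ¬ GoodU V N (K * Q₁) ℓ a E η} ≤ ENNReal.ofReal p →
      PP d (gl σ) {V | SG V (Q₁ * ℓ) κ E 0} *
        PP d (gl σ) {V | ¬ SG V (Q₁ * ℓ) (κ - 12 * η * K) E 0} ≤ ENNReal.ofReal p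

/-- INS: on the good event the decay about `a` gives a lower bound for `D` near `a`
(deterministic). -/
def InsStmt2 : Prop :=
  ∀ (d : ℕ) (η κ : ℝ) (K : ℕ), 1 ≤ d → 0 < η → 0 < κ → 1 ≤ K → 48 * η * K ≤ κ → ∃ L₀ : ℕ,
    ∀ (V : Site d → ℝ) (N Q₁ ℓ : ℕ) (a : Site d) (E : ℝ), 1 ≤ Q₁ → 1 ≤ ℓ → L₀ ≤ Q₁ * ℓ →
    box a (12 * (K * Q₁ * ℓ)) ⊆ box 0 N → GoodU V N (K * Q₁) ℓ a E η →
    SG V (Q₁ * ℓ) κ E a → ∀ x ∈ box a (2 * (Q₁ * ℓ)), ∀ y ∈ box a (2 * (Q₁ * ℓ)),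
      Q₁ * ℓ + 1 ≤ sd x y → κ / 2 * (Q₁ * ℓ) ≤ DL (box 0 N) E V x y

/-! ### U2. in the insulating phase the rate does not increase -/

/-- UPA: decay in the cubes of radius `K L₁` (deterministic). -/
def UpaStmt : Prop :=
  ∀ (d : ℕ) (η κ' : ℝ) (K : ℕ), 1 ≤ d → 0 < η → 0 < κ' → 8 ≤ K → 24 * η * K ≤ κ' → ∃ L₀ : ℕ,
    ∀ (V : Site d → ℝ) (N Q₁ ℓ : ℕ) (a : Site d) (E : ℝ), 1 ≤ Q₁ → 1 ≤ ℓ → L₀ ≤ Q₁ * ℓ →
    box a (12 * (K * Q₁ * ℓ)) ⊆ box 0 N → GoodU V N (K * Q₁) ℓ a E η →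
    SG V (Q₁ * ℓ) κ' E a → ∀ b ∈ box a (5 * (K * Q₁ * ℓ)), SG V (K * Q₁ * ℓ) (κ' / 4) E b

/-- LOX: locality (deterministic). -/
def LoxStmt : Prop :=
  ∀ (d : ℕ) (η κ' κ₀ : ℝ) (K : ℕ), 1 ≤ d → 0 < η → 0 < κ' → 0 < κ₀ → 8 ≤ K →
    24 * η * K ≤ κ' → 16 * (κ₀ + 2) ≤ κ' * K → ∃ L₀ : ℕ,
    ∀ (V : Site d → ℝ) (N L : ℕ) (b x : Site d) (E : ℝ), L₀ ≤ L → box b (K * L + 1) ⊆ box 0 N →
    (RM V (box 0 N) E).det ≠ 0 → SG V (K * L) (κ' / 4) E b → x ∈ box b L →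
    (∀ z, sd b z = K * L + 1 → |gr V (box 0 N) E z x| ≤ Real.exp (η * (K * L))) →
      |gr V (box 0 N) E b x - gr V (box b (K * L)) E b x| ≤ Real.exp (-(κ₀ + 1) * L) / 2

/-- UPD: one direction in which the cost is at most `κ₀` with probability near one. -/
def UpdStmt : Prop :=
  ∀ (d : ℕ) (η κ' κ₀ : ℝ) (K : ℕ), 1 ≤ d → 0 < η → 0 < κ' → 0 < κ₀ → 8 ≤ K →
    24 * η * K ≤ κ' → 16 * η * K ≤ 1 → 16 * (κ₀ + 2) ≤ κ' * K → ∃ L₀ : ℕ,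
    ∀ (σ E p : ℝ) (N Q₁ ℓ : ℕ) (a : Site d), σ ≠ 0 → 0 ≤ p → p ≤ 1 / 8 → 1 ≤ Q₁ → 1 ≤ ℓ →
    L₀ ≤ Q₁ * ℓ → box a (12 * (K * Q₁ * ℓ)) ⊆ box 0 N →
    PP d (gl σ) {V | ¬ GoodU V N (K * Q₁) ℓ a E η} ≤ ENNReal.ofReal p →
    PP d (gl σ) {V | ¬ SG V (Q₁ * ℓ) κ' E 0} ≤ ENNReal.ofReal p →
    PP d (gl σ) {V | SG V (Q₁ * ℓ) κ₀ E 0} ≤ ENNReal.ofReal (1 / 4) →
      (∀ b : Site d, PP d (gl σ) {V | ¬ SG V (K * Q₁ * ℓ) (κ' / 4) E b} ≤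
        ENNReal.ofReal (2 * p)) ∧
      ∃ y : Site d, sd 0 y = Q₁ ∧ ∀ b : Site d, PP d (gl σ) {V |
        |gr V (box b (K * Q₁ * ℓ)) E b (b + sm ℓ y)| <
          Real.exp (-(κ₀ + 7 * η * K) * (Q₁ * ℓ))} ≤
        ENNReal.ofReal (4 * (2 * Q₁ + 1) ^ d * p)

/-- UPM: the mean of `D(0, m ℓ y)`. -/
def UpmStmt : Prop :=
  ∀ (d : ℕ) (B κ' κ₀ ε : ℝ) (K : ℕ), 1 ≤ d → 0 < B → 0 < κ' → 0 < κ₀ → 0 < ε → 8 ≤ K →
    16 * (κ₀ + 2) ≤ κ' * K → ∃ η₀ θ : ℝ, 0 < η₀ ∧ 0 < θ ∧ ∀ η : ℝ, 0 < η → η ≤ η₀ →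
    ∃ L₀ : ℕ, ∀ (σ E : ℝ) (Q₁ ℓ : ℕ) (y : Site d), Par B σ E → 1 ≤ Q₁ → 1 ≤ ℓ →
    L₀ ≤ Q₁ * ℓ → sd 0 y = Q₁ →
    (∀ b : Site d, PP d (gl σ) {V | ¬ SG V (K * Q₁ * ℓ) (κ' / 4) E b} ≤ ENNReal.ofReal θ) →
    (∀ b : Site d, PP d (gl σ) {V | |gr V (box b (K * Q₁ * ℓ)) E b (b + sm ℓ y)| <
      Real.exp (-(κ₀ + 7 * η * K) * (Q₁ * ℓ))} ≤ ENNReal.ofReal θ) →
    ∀ m N : ℕ, 1 ≤ m → (m + K + 2) * (Q₁ * ℓ) ≤ N →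
      ∫ V, DL (box 0 N) E V 0 (sm (m * ℓ) y) ∂(PP d (gl σ)) ≤ m * ((κ₀ + ε) * (Q₁ * ℓ))

/-- UPE: upper bound for the Lyapunov exponent. -/
def UpeStmt : Prop :=
  ∀ (d : ℕ) (σ E g c : ℝ) (M₀ Q₁ ℓ : ℕ) (y : Site d), 1 ≤ d → σ ≠ 0 → LyaAt d σ E g →
    1 ≤ Q₁ → 1 ≤ ℓ → sd 0 y = Q₁ →
    (∀ m N : ℕ, 1 ≤ m → (m + M₀) * (Q₁ * ℓ) ≤ N →
      ∫ V, DL (box 0 N) E V 0 (sm (m * ℓ) y) ∂(PP d (gl σ)) ≤ m * (c * (Q₁ * ℓ))) → g ≤ c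

/-- UPB: in the insulating phase the Lyapunov exponent is at most the rate at a good scale. -/
def UpbStmt : Prop :=
  ∀ (d : ℕ) (B κ' κ₀ ε : ℝ), 1 ≤ d → 0 < B → 0 < κ' → 0 < κ₀ → 0 < ε → ∃ K : ℕ, 1 ≤ K ∧
    ∃ η₀ θ : ℝ, 0 < η₀ ∧ 0 < θ ∧ θ ≤ 1 ∧ ∀ η : ℝ, 0 < η → η ≤ η₀ → ∃ L₀ : ℕ,
    ∀ (σ E g : ℝ) (N Q₁ ℓ : ℕ) (a : Site d), Par B σ E → LyaAt d σ E g → 1 ≤ Q₁ → 1 ≤ ℓ →
    L₀ ≤ Q₁ * ℓ → box a (12 * (K * Q₁ * ℓ)) ⊆ box 0 N →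
    PP d (gl σ) {V | ¬ GoodU V N (K * Q₁) ℓ a E η} ≤ ENNReal.ofReal (θ / (Q₁ : ℝ) ^ d) →
    PP d (gl σ) {V | ¬ SG V (Q₁ * ℓ) κ' E 0} ≤ ENNReal.ofReal (θ / (Q₁ : ℝ) ^ d) →
    PP d (gl σ) {V | SG V (Q₁ * ℓ) κ₀ E 0} ≤ ENNReal.ofReal (1 / 4) → g ≤ κ₀ + ε

/-! ### B. the Besicovitch step -/

/-- DMI: the discrete Poincare-Miranda theorem. -/
def DmiStmt : Prop :=
  ∀ (d n : ℕ) (F : Site d → Fin d → ℝ) (t h : ℝ) (v : Fin d → ℝ), 1 ≤ n →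
    (∀ k ∈ box (0 : Site d) n, ∀ i, k i = -(n : ℤ) → F k i ≤ t) →
    (∀ k ∈ box (0 : Site d) n, ∀ i, k i = (n : ℤ) → h ≤ F k i) →
    (∀ i, t ≤ v i ∧ v i ≤ h) →
      ∃ k ∈ box (0 : Site d) n, ∀ i, ∃ k' ∈ box (0 : Site d) n, sd k k' ≤ 1 ∧
        |v i - F k i| ≤ |F k' i - F k i|

/-- CNT: the counting lemma (deterministic). -/
def CntStmt : Prop :=
  ∀ (d : ℕ) (D : Site d → Site d → ℝ) (a : Site d) (s n M m q : ℕ) (t h cs : ℝ)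
    (c : Site d → ℝ) (G : Finset (Site d)), 1 ≤ d → 1 ≤ s → 1 ≤ n → 1 ≤ M → d ≤ q → 1 ≤ cs →
    0 ≤ t → 8 * t ≤ s → 8 * cs * s * m ≤ h →
    (∀ x y, D x y = D y x) →
    (∀ x ∈ box a (s * (n + 4 * M + 3)), ∀ u ∈ box a (s * (n + 4 * M + 3)),
      ∀ y ∈ box a (s * (n + 4 * M + 3)), D x y ≤ D x u + D u y + t) →
    (∀ k ∈ box (0 : Site d) n, D (a + sm s k) (a + sm s k) ≤ t) →
    (∀ k ∈ box (0 : Site d) n, ∀ k' ∈ box (0 : Site d) n, ∀ i, k i = -(n : ℤ) →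
      k' i = (n : ℤ) → h ≤ D (a + sm s k) (a + sm s k')) →
    (∀ k, 0 ≤ c k) →
    (∀ k ∈ box (0 : Site d) (n + 4 * M + 3), ∀ x ∈ box (a + sm s k) s,
      D (a + sm s k) x ≤ c k * s) →
    (∀ k ∈ G, ∀ j : ℕ, 1 ≤ j → j ≤ M → ∃ v : Site d,
      (sd (a + sm s k) v = 4 * j * s ∨ sd (a + sm s k) v = 4 * j * s + 1) ∧
        D (a + sm s k) v ≤ s) →
      (m : ℝ) ^ d ≤ ((box (0 : Site d) n) \ G).card +
        2 * (2 * (n + 4 * M + 3) + 1) ^ d / M +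
        (2 ^ d + 2 * (8 * M + 9) ^ d / M) * ∑ k ∈ box (0 : Site d) (n + 4 * M + 3), (c k / cs) ^ q

/-- CDU: a cube without decay conducts up to every radius (deterministic). -/
def CduStmt : Prop :=
  ∀ (d : ℕ) (V : Site d → ℝ) (N L r : ℕ) (b : Site d) (E κ T : ℝ), 1 ≤ d → 1 ≤ T → r ≤ L →
    box b (L + 1) ⊆ box 0 N → (RM V (box 0 N) E).det ≠ 0 →
    (∀ x ∈ box b (L + 1), ∀ y ∈ box b (L + 1), |gr V (box 0 N) E x y| ≤ T) →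
    (∀ r' ≤ L, (RM V (box b r') E).det ≠ 0 ∧ ∀ x y, |gr V (box b r') E x y| ≤ T) →
    ¬ SG V L κ E b → ∃ v : Site d, (sd b v = r ∨ sd b v = r + 1) ∧
      Real.exp (-κ * L) ≤ (1 + 2 * d * (2 * L + 1) ^ d * T) ^ 2 * |gr V (box 0 N) E b v|

/-- the regularity event, in the cube of radius `W` about `a` -/
def RegE {d : ℕ} (V : Site d → ℝ) (N W L : ℕ) (a : Site d) (E t : ℝ) : Prop :=
  (RM V (box 0 N) E).det ≠ 0 ∧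
  (∀ x ∈ box a W, ∀ y ∈ box a W, gr V (box 0 N) E x y ≠ 0 ∧
    |gr V (box 0 N) E x y| ≤ Real.exp t) ∧
  (∀ x ∈ box a W, ∀ u ∈ box a W, ∀ y ∈ box a W,
    DL (box 0 N) E V x y ≤ DL (box 0 N) E V x u + DL (box 0 N) E V u y + t) ∧
  (∀ x ∈ box a W, DL (box 0 N) E V x x ≤ t) ∧
  (∀ r ≤ L, ∀ b ∈ box a W, (RM V (box b r) E).det ≠ 0 ∧
    ∀ x y, |gr V (box b r) E x y| ≤ Real.exp t)

/-- REG: regularity has probability near one. -/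
def RegStmt : Prop :=
  ∀ (d R : ℕ) (B τ p : ℝ), 1 ≤ d → 0 < B → 0 < τ → 0 < p → ∃ L₀ : ℕ, ∀ (σ E : ℝ) (N W L : ℕ)
    (a : Site d), Par B σ E → L₀ ≤ L → W ≤ R * L → box a (W + 1) ⊆ box 0 N →
      PP d (gl σ) {V | ¬ RegE V N W L a E (τ * L)} ≤ ENNReal.ofReal p

/-- BEN: the numbers of the Besicovitch step. -/
def BenStmt : Prop :=
  ∀ (d : ℕ) (C κ : ℝ), 1 ≤ d → 0 < C → 0 < κ → κ ≤ 1 → ∃ (cs : ℝ) (M : ℕ) (p : ℝ), 1 ≤ cs ∧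
    1 ≤ M ∧ 0 < p ∧ p ≤ 1 ∧ 16 * cs / κ ≤ M ∧
    4 * p * 3 ^ d + 2 * 5 ^ d / M +
      (2 ^ d + 2 * (8 * M + 9) ^ d / M) * (4 * 5 ^ d * (C / cs) ^ (d ^ 2 + 4 * d)) <
      (κ / (16 * cs)) ^ d

/-- BES: a cube in which all small cubes conduct is not insulating. -/
def BesStmt : Prop :=
  ∀ (d : ℕ) (B κ : ℝ), 1 ≤ d → 0 < B → 0 < κ → κ ≤ 1 → ∃ κ' p : ℝ, 0 < κ' ∧ 0 < p ∧ p ≤ 1 ∧
    ∀ R : ℕ, 1 ≤ R → ∃ L₀ : ℕ, ∀ (σ E : ℝ) (N L L' : ℕ) (a : Site d), Par B σ E → L₀ ≤ L' →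
      L' ≤ L → L ≤ R * L' → box a (4 * L) ⊆ box 0 N →
      PP d (gl σ) {V | SG V L' κ' E 0} ≤ ENNReal.ofReal p →
      PP d (gl σ) {V | ¬ ∀ x ∈ box a (2 * L), ∀ y ∈ box a (2 * L), L + 1 ≤ sd x y →
        κ * L ≤ DL (box 0 N) E V x y} ≤ ENNReal.ofReal (1 / 4) → False

/-! ### C. continuity -/

/-- TVC: the probabilities at one scale are continuous in the parameters. -/
def TvcStmt : Prop :=
  ∀ (d L : ℕ) (κ κ' p p' : ℝ) (q₀ : ℝ × ℝ), 1 ≤ L → 0 ≤ p → p < p' → q₀.1 ≠ 0 →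
    (κ < κ' → PP d (gl q₀.1) {V | SG V L κ q₀.2 0} ≤ ENNReal.ofReal p →
      ∀ᶠ q : ℝ × ℝ in 𝓝 q₀, PP d (gl q.1) {V | SG V L κ' q.2 0} ≤ ENNReal.ofReal p') ∧
    (κ' < κ → PP d (gl q₀.1) {V | ¬ SG V L κ q₀.2 0} ≤ ENNReal.ofReal p →
      ∀ᶠ q : ℝ × ℝ in 𝓝 q₀, PP d (gl q.1) {V | ¬ SG V L κ' q.2 0} ≤ ENNReal.ofReal p')

/-- USA: upper semicontinuity in the localized phase. -/
def UsaStmt : Prop :=
  ∀ (d : ℕ) (γ : ℝ → ℝ → ℝ), 1 ≤ d → (∀ σ : ℝ, σ ≠ 0 → ∀ E, LyaAt d σ E (γ σ E)) →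
    ∀ q₀ : ℝ × ℝ, q₀.1 ≠ 0 → 0 < γ q₀.1 q₀.2 →
      UpperSemicontinuousAt (fun q : ℝ × ℝ => γ q.1 q.2) q₀

/-- USO: upper semicontinuity where `γ = 0`. -/
def UsoStmt : Prop :=
  ∀ (d : ℕ) (γ : ℝ → ℝ → ℝ), 1 ≤ d → (∀ σ : ℝ, σ ≠ 0 → ∀ E, LyaAt d σ E (γ σ E)) →
    ∀ q₀ : ℝ × ℝ, q₀.1 ≠ 0 → γ q₀.1 q₀.2 = 0 →
      UpperSemicontinuousAt (fun q : ℝ × ℝ => γ q.1 q.2) q₀

/-- CON: the Lyapunov exponent is a continuous function of the coupling constant and the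
energy. -/
def ConStmt2 : Prop :=
  ∀ (d : ℕ) (γ : ℝ → ℝ → ℝ), 1 ≤ d → (∀ σ : ℝ, σ ≠ 0 → ∀ E, LyaAt d σ E (γ σ E)) →
    ∀ q₀ : ℝ × ℝ, q₀.1 ≠ 0 → ContinuousAt (fun q : ℝ × ℝ => γ q.1 q.2) q₀

end Pool.Agent.LE
end
end -- Pool.Agent.LE.StmtsC

section -- Pool.Agent.LE.StmtsW

/-!
# The Lyapunov exponent at weak disorder: `γ(σ, E) ≤ C |σ| ^ (1 / (d (d + 4)))` for `|E| ≤ 2 d`

Statements of the modules, with proofs. `G` is the Green function of the cube `box 0 N`.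

MAIN IDEA. Fix `σ` and `E`, `|E| ≤ 2 d`, and suppose `κ < γ(σ, E)`. Then large cubes insulate:
`D(x, y) = - log |G(x, y)| ≥ κ L / 2` for `|x - y| ≥ L + 1` (INF). On the other hand the cubes of
radius `|σ| ^ (-c)` conduct, deterministically if `|V|` is small there (CDD). Let
`F_i(x) = - log max_{z ∈ face i} |G(z, x)|`. Because the maximizer does not depend on `V_u` in
`G(z, u) = g_z / (V_u - α)`, one has `|F_i(x) - F_i(y)| ≤ D(x, y) + t` outside an event of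
probability `16 / |σ| e^{-t}` for each pair `x`, `y`, whatever the size of the face (VTR, TRF). The
Besicovitch counting (CNT2) for the map `F`, on the mesh of width `s`, `s` fixed and `L → ∞`, gives
a contradiction (CRT).
-/

set_option autoImplicit false

open MeasureTheory ProbabilityTheory Function Filter

open scoped ENNReal BigOperators Topology

noncomputable section

namespace Pool.Agent.LE

open Pool.Agent.Anderson Pool.Agent.Loc Pool.Agent.Mob Pool.Agent.Helper54.Bal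
  Pool.Agent.Helper96.EXP

/-- `max_{z ∈ S} |G(z, x)|` -/
def gmax {d : ℕ} (V : Site d → ℝ) (Λ : Finset (Site d)) (E : ℝ) (S : Finset (Site d))
    (x : Site d) : ℝ :=
  ((S.sup fun z => ‖gr V Λ E z x‖₊ : NNReal) : ℝ)

/-- `- log max_{z ∈ S} |G(z, x)|` -/
def FD {d : ℕ} (V : Site d → ℝ) (Λ : Finset (Site d)) (E : ℝ) (S : Finset (Site d))
    (x : Site d) : ℝ :=
  -Real.log (gmax V Λ E S x)

/-- the oscillation of `FD` in the cube of radius `s` about `c` -/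
def osc {d : ℕ} (V : Site d → ℝ) (N : ℕ) (E : ℝ) (S : Finset (Site d)) (c : Site d) (s : ℕ) :
    ℝ≥0∞ :=
  (box c s).sup fun x => ENNReal.ofReal |FD V (box 0 N) E S x - FD V (box 0 N) E S c|

/-- CDD: deterministic conduction. Proof: let `ψ` be `G_Λ(b, ·)` cut off outside `box b r`; then
`(Δ + V - E) ψ = ± δ_b + f` with `f` on the two layers `r`, `r + 1`, `|f|_1 ≤ 2 d (2r+3)^d max`.
For every finitely supported `ψ` in the cube of radius `r` and every real `E` one has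
`|ψ|_2 ≤ 4 (r+1)^2 |(Δ - E) ψ|_2` (with `g = (Δ - E) ψ`, `ψ± = ψ(· ± e_1)`:
`|ψ+ - ψ-|^2 / 2 = - ⟨ψ+, g⟩ - ∑ x_1 (ψ+ - ψ-) g` and `|ψ| ≤ (r+1) |ψ+ - ψ-|`).
Hence `|ψ|_2 ≤ 2 (2r+3)^2 (1 + |f|)`. Test with the plane wave `u(x) = ∏ cos (k (x_i - b_i))`,
`2 d cos k = E`: `1 ≤ |f|_1 + v |ψ|_1 ≤ |f|_1 + (1 + |f|_1) / 32`. -/
def CddStmt : Prop :=
  ∀ (d : ℕ) (E v : ℝ) (V : Site d → ℝ) (Λ : Finset (Site d)) (b : Site d) (r : ℕ), 1 ≤ d →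
    |E| ≤ 2 * d → 0 ≤ v → (64 * v) ^ 2 * (2 * r + 3 : ℝ) ^ (d + 4) ≤ 1 →
    (∀ x ∈ box b r, |V x| ≤ v) → box b (r + 1) ⊆ Λ → (RM V Λ E).det ≠ 0 →
      ∃ y : Site d, (sd b y = r ∨ sd b y = r + 1) ∧
        1 ≤ 16 * d * (2 * r + 3 : ℝ) ^ d * |gr V Λ E b y|

/-- CPR: the probability of conduction. Proof: `CddStmt` for `r = 4 j s` on the event
`|V| ≤ v` on `box c (4 M s)`; `P(|σ ξ| > v) ≤ 2 e^{1/2} e^{-v/|σ|} ≤ 4 e^{-v/|σ|}` (exponential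
Chebyshev, `E e^ξ = e^{1/2}`); `det ≠ 0` almost surely; `D ≤ log (16 d (8 M s + 3)^d) ≤ s / 2`. -/
def CprStmt : Prop :=
  ∀ (d s M N : ℕ) (σ E v : ℝ) (c : Site d), 1 ≤ d → σ ≠ 0 → |E| ≤ 2 * d → 0 ≤ v →
    (64 * v) ^ 2 * (8 * (M * s) + 3 : ℝ) ^ (d + 4) ≤ 1 →
    Real.log (16 * d * (8 * (M * s) + 3 : ℝ) ^ d) ≤ s / 2 → box c (4 * (M * s) + 2) ⊆ box 0 N →
      PP d (gl σ) {V | ¬ ∀ j : ℕ, 1 ≤ j → j ≤ M → ∃ y : Site d,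
        (sd c y = 4 * j * s ∨ sd c y = 4 * j * s + 1) ∧ DL (box 0 N) E V c y ≤ s / 2} ≤
          ENNReal.ofReal ((8 * (M * s) + 3 : ℝ) ^ d * (4 * Real.exp (-(v / |σ|))))

/-- VTR: the one site inequality for the maximum over `S`. Proof: as `Pool.Agent.LY.one` (the same
integral over `V_u`, all other potentials fixed), for the `z ∈ S` which maximizes `|K z u|`; this
`z` does not depend on `V_u`, because `G(z, u)` depends on `V_u` by a factor which does not depend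
on `z`. No union over `z`. -/
def VtrStmt : Prop :=
  ∀ (d : ℕ) (σ E τ : ℝ) (Λ S : Finset (Site d)) (u y : Site d), σ ≠ 0 → 0 < τ →
    PP d (gl σ) {V | τ * gmax V Λ E S y < gmax V Λ E S u * |gr V Λ E u y|} ≤
      ENNReal.ofReal (8 / |σ| / τ)

/-- TRF: triangle inequality for `FD`. Proof: `VtrStmt` for `(x, y)` and `(y, x)`, `τ = e^t`, the
symmetry of `gr`, and `gr ≠ 0` almost surely (`UfmStmt`, second part). -/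
def TrfStmt : Prop :=
  ∀ (d N : ℕ) (σ E t : ℝ) (S : Finset (Site d)) (x y : Site d), 1 ≤ d → σ ≠ 0 → S.Nonempty →
    S ⊆ box 0 N → x ∈ box (0 : Site d) N → y ∈ box (0 : Site d) N →
    PP d (gl σ) {V | ¬ |FD V (box 0 N) E S x - FD V (box 0 N) E S y| ≤
      DL (box 0 N) E V x y + t} ≤ ENNReal.ofReal (16 / |σ| * Real.exp (-t))

/-- CST: the moments of the positive part of `D`, with a power of `1 / |σ|` which does not depend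
on the order `q` of the moment. Proof: as `Pool.Agent.LE.H26U.ufm`, `p = q`:
`path_in` (`Pool.Agent.LE.H54`) gives `‖D^+(x, y)‖_q ≤ (l1 x y + 1) (C1 + C2)` with
`C1 = ((4 q)^q Clow)^(1/q)`, `C2 = ((2 q)^q (1 + 8 / |σ|))^(1/q)` (`ratioC`), and
`Clow d (gl σ) (1 / |σ|) M ≤ K |σ|^(-A)` (see `Pool.Agent.LE.H26U.CC_le`), so
`C1 + C2 ≤ 6 q (K |σ|^(-A))^(1/q)`. -/
def CstStmt : Prop :=
  ∀ d : ℕ, 1 ≤ d → ∃ A : ℝ, 1 ≤ A ∧ ∀ q : ℕ, 1 ≤ q → ∃ C : ℝ, 0 < C ∧ ∀ (σ E : ℝ) (N : ℕ)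
    (x y : Site d), σ ≠ 0 → |σ| ≤ 1 → |E| ≤ 2 * d → x ∈ box (0 : Site d) N →
    y ∈ box (0 : Site d) N →
      ∫⁻ V, (ENNReal.ofReal (DL (box 0 N) E V x y)) ^ q ∂(PP d (gl σ)) ≤
        ENNReal.ofReal (C * |σ| ^ (-A) * ((sd x y : ℝ) + 1) ^ q)

/-- OSC: the moments of the oscillation. Proof: for `x ∈ box c s`, with
`T = max 0 (|F(x) - F(c)| - D(c, x))`, `|F(x) - F(c)|^q ≤ 2^q (D^+(c, x)^q + T^q)`;
`P(T > t) ≤ 16 / |σ| e^{-t}` (`TrfStmt`), so `E T^q ≤ 16 q! / |σ|`; `CstStmt` for `D^+`; sum over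
the `(2 s + 1)^d` points `x`. (`q = 0` is trivial.) -/
def OscStmt : Prop :=
  ∀ d : ℕ, 1 ≤ d → ∃ A : ℝ, 1 ≤ A ∧ ∀ q : ℕ, ∃ C : ℝ, 0 < C ∧ ∀ (σ E : ℝ) (N s : ℕ)
    (S : Finset (Site d)) (c : Site d), σ ≠ 0 → |σ| ≤ 1 → |E| ≤ 2 * d → 1 ≤ s → S.Nonempty →
    S ⊆ box 0 N → box c s ⊆ box 0 N →
      ∫⁻ V, (osc V N E S c s) ^ q ∂(PP d (gl σ)) ≤
        ENNReal.ofReal (C * |σ| ^ (-A) * (s : ℝ) ^ (q + d + 1))

/-- CNT2: the counting lemma for a map `F` (deterministic). Proof: second half of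
`Pool.Agent.LE.H96C.cnt` (with `f := F`, targets `t + w κ_i`, `κ_i = 1, …, m`, `w = 8 cs s`). -/
def Cnt2Stmt : Prop :=
  ∀ (d : ℕ) (F : Site d → Fin d → ℝ) (a : Site d) (s n M m q : ℕ) (t h cs : ℝ)
    (c : Site d → ℝ) (G : Finset (Site d)), 1 ≤ d → 1 ≤ s → 1 ≤ n → 1 ≤ M → d ≤ q → 1 ≤ cs →
    t + 8 * cs * s * m ≤ h →
    (∀ k ∈ box (0 : Site d) n, ∀ i, k i = -(n : ℤ) → F (a + sm s k) i ≤ t) →
    (∀ k ∈ box (0 : Site d) n, ∀ i, k i = (n : ℤ) → h ≤ F (a + sm s k) i) →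
    (∀ k, 0 ≤ c k) →
    (∀ k ∈ box (0 : Site d) (n + 4 * M + 3), ∀ x ∈ box (a + sm s k) s, ∀ i,
      |F x i - F (a + sm s k) i| ≤ c k * s) →
    (∀ k ∈ G, ∀ j : ℕ, 1 ≤ j → j ≤ M → ∃ v : Site d,
      (sd (a + sm s k) v = 4 * j * s ∨ sd (a + sm s k) v = 4 * j * s + 1) ∧
        ∀ i, |F v i - F (a + sm s k) i| ≤ s) →
      (m : ℝ) ^ d ≤ ((box (0 : Site d) n) \ G).card +
        2 * (2 * (n + 4 * M + 3) + 1) ^ d / M +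
        (2 ^ d + 2 * (8 * M + 9) ^ d / M) * ∑ k ∈ box (0 : Site d) (n + 4 * M + 3), (c k / cs) ^ q

/-- INF: large cubes insulate at a rate below the Lyapunov exponent. Proof: `GvuStmt` with
`B = |E| + |σ| + 1 / |σ|`, `η = κ / 48`, `θ = 1 / 8`, `Q = Q₀`, `ℓ₀` large; `LyaAt` gives
`P(¬ SG V (Q ℓ) κ E a) ≤ 1 / 8` for large `ℓ` (`κ < g`, stationarity); `InsStmt2` with `K = 1`,
`Q₁ = Q`, `L = Q ℓ`. -/
def InfStmt : Prop :=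
  ∀ (d : ℕ) (σ E g κ : ℝ), 1 ≤ d → σ ≠ 0 → LyaAt d σ E g → 0 < κ → κ < g → ∀ L₀ : ℕ,
    ∃ (L N : ℕ) (a : Site d), L₀ ≤ L ∧ box a (4 * L) ⊆ box 0 N ∧
      PP d (gl σ) {V | ¬ ∀ x ∈ box a (2 * L), ∀ y ∈ box a (2 * L), L + 1 ≤ sd x y →
        κ / 2 * L ≤ DL (box 0 N) E V x y} ≤ ENNReal.ofReal (1 / 4)

/-- CRT: the criterion. If the cubes of radius `4 M s` conduct, a large cube does not insulate at
the rate `κ`. Proof: `n = ⌊L / s⌋`, `S_i` = the mesh points of the face `k_i = - n`,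
`F x i = FD V (box 0 N) E S_i x`, `c k = max_i osc / s`; `RegStmt` (`R = 4`, `τ = κ / 4`) for the
face `k_i = -n`, insulation for the face `k_i = n`, `TrfStmt` and the hypothesis `hcond` for the
good sites, Markov, `Cnt2Stmt`, `L → ∞`. -/
def CrtStmt : Prop :=
  ∀ (d s M q : ℕ) (σ E κ cs p y : ℝ), 1 ≤ d → σ ≠ 0 → 1 ≤ s → 1 ≤ M → d ≤ q → 1 ≤ cs → 0 < κ →
    0 < p → 0 < y →
    4 * (p + d * (8 * (M * s) + 5) ^ d * (16 / |σ| * Real.exp (-(s / 2 : ℝ)))) * 3 ^ d +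
      2 * 3 ^ d / M + (2 ^ d + 2 * (8 * M + 9) ^ d / M) * (4 * 3 ^ d * (d * y)) <
        (κ / (17 * cs)) ^ d →
    (∀ (N : ℕ) (S : Finset (Site d)) (c : Site d), S.Nonempty → S ⊆ box 0 N → box c s ⊆ box 0 N →
      ∫⁻ V, (osc V N E S c s) ^ q ∂(PP d (gl σ)) ≤ ENNReal.ofReal (y * (cs * s) ^ q)) →
    (∀ (N : ℕ) (c : Site d), box c (4 * (M * s) + 2) ⊆ box 0 N →
      PP d (gl σ) {V | ¬ ∀ j : ℕ, 1 ≤ j → j ≤ M → ∃ y : Site d,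
        (sd c y = 4 * j * s ∨ sd c y = 4 * j * s + 1) ∧ DL (box 0 N) E V c y ≤ s / 2} ≤
          ENNReal.ofReal p) →
      ∃ L₀ : ℕ, ∀ (L N : ℕ) (a : Site d), L₀ ≤ L → box a (4 * L) ⊆ box 0 N →
        PP d (gl σ) {V | ¬ ∀ x ∈ box a (2 * L), ∀ y ∈ box a (2 * L), L + 1 ≤ sd x y →
          κ * L ≤ DL (box 0 N) E V x y} ≤ ENNReal.ofReal (1 / 4) → False

/-- NUM: the numbers. Proof: `Λ = 1 / |σ|`, `c₁ = 5 / (4 (d + 4))`, `c₂ = 1 / (4 d (d + 4))`,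
`M = ⌊Λ ^ c₁⌋`, `s = ⌈K₀ Λ ^ c₂⌉`, `cs = Λ ^ c₂`, `v` with equality, `q` with
`c₂ q ≥ A + c₂ (d + 1) + d c₁ + 1`, `c₁ / d - c₂ = 1 / (d (d + 4))`. All terms on the left are at
most `K Λ ^ (- c₁)`. -/
def NumStmt : Prop :=
  ∀ (d : ℕ) (A : ℝ), 1 ≤ d → 1 ≤ A → ∃ q : ℕ, d ≤ q ∧ ∀ C' : ℝ, 0 < C' → ∃ C : ℝ, 1 ≤ C ∧
    ∀ σ κ : ℝ, σ ≠ 0 → |σ| ≤ 1 → C * |σ| ^ (1 / ((d : ℝ) * (d + 4))) ≤ κ →
      ∃ (s M : ℕ) (cs v : ℝ), 1 ≤ s ∧ 1 ≤ M ∧ 1 ≤ cs ∧ 0 ≤ v ∧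
        (64 * v) ^ 2 * (8 * (M * s) + 3 : ℝ) ^ (d + 4) ≤ 1 ∧
        Real.log (16 * d * (8 * (M * s) + 3 : ℝ) ^ d) ≤ s / 2 ∧
        4 * ((8 * (M * s) + 3 : ℝ) ^ d * (4 * Real.exp (-(v / |σ|))) +
            d * (8 * (M * s) + 5) ^ d * (16 / |σ| * Real.exp (-(s / 2 : ℝ)))) * 3 ^ d +
          2 * 3 ^ d / M + (2 ^ d + 2 * (8 * M + 9) ^ d / M) *
            (4 * 3 ^ d * (d * (C' * |σ| ^ (-A) * (s : ℝ) ^ (q + d + 1) / (cs * s) ^ q))) <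
            (κ / (17 * cs)) ^ d

/-- WKD: the Lyapunov exponent at weak disorder. Proof: `CrtStmt`, `OscStmt`, `CprStmt`, `NumStmt`
and `InfStmt`. -/
def WkdStmt : Prop :=
  ∀ d : ℕ, 1 ≤ d → ∃ C : ℝ, 0 < C ∧ ∀ σ E g : ℝ, σ ≠ 0 → |σ| ≤ 1 → |E| ≤ 2 * d →
    LyaAt d σ E g → g ≤ C * |σ| ^ (1 / ((d : ℝ) * (d + 4)))

end Pool.Agent.LE
end
end -- Pool.Agent.LE.StmtsW

section -- Pool.Agent.LE.StmtsX

/-!
# Exponentially large localization length near the band edge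

Statements of the modules, with proofs. In dimensions `d ≥ 5`, at weak disorder, there is an energy
`Es`, `|Es - 2 d| ≤ C σ²`, with `γ(σ, E) ≤ C (|E - Es| + e^{-c/σ²})^c` for `|E - Es| ≤ |σ|`: the
localization length `1 / γ` is at least `e^{c'/σ²}` at `Es`. The conduction up to the scale `t ^ c`
comes from the flat landscape function of the band edge (`Pool.Agent.BED`); the criterion `CrtStmt`
does the rest.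
-/

set_option autoImplicit false

open MeasureTheory ProbabilityTheory Function Filter

open scoped ENNReal BigOperators Topology

noncomputable section

namespace Pool.Agent.LE

open Pool.Agent.Anderson Pool.Agent.Loc Pool.Agent.Mob Pool.Agent.Helper54.Bal
  Pool.Agent.Helper96.EXP Pool.Agent.BED

/-- OSC for `|E| ≤ B`. -/
def OscBStmt : Prop :=
  ∀ (d : ℕ) (B : ℝ), 1 ≤ d → 0 < B → ∃ A : ℝ, 1 ≤ A ∧ ∀ q : ℕ, ∃ C : ℝ, 0 < C ∧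
    ∀ (σ E : ℝ) (N s : ℕ) (S : Finset (Site d)) (c : Site d), σ ≠ 0 → |σ| ≤ 1 → |E| ≤ B →
    1 ≤ s → S.Nonempty → S ⊆ box 0 N → box c s ⊆ box 0 N →
      ∫⁻ V, (osc V N E S c s) ^ q ∂(PP d (gl σ)) ≤
        ENNReal.ofReal (C * |σ| ^ (-A) * (s : ℝ) ^ (q + d + 1))

/-- CDF: conduction from a flat landscape function (deterministic). Proof: let
`g = gr V Λ E b ·` (`(E - V - Δ) g = δ_b` on `Λ`) and `φ` = `g` cut off outside `box b r`, seen on the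
torus. Then `AM z U φ = δ_0 + f'`, `f' = f + (z - E) φ`, `f` on the two layers `r`, `r + 1`,
`|f|_1 ≤ 2 d (2r+3)^d max_{layers} |g|`. So `φ = GM δ_0 + GM f'`. `GM ≥ 0` (`HeatStmt`: `TM ≥ 0`),
`GM x y ≤ C1` (positive definite). First `|φ|_∞ ≤ C1 (1 + |f|_1 + lam (2r+1)^d |φ|_∞)`, so
`|φ|_∞ ≤ 2 C1 (1 + |f|_1)` and `|(z - E) φ|_1 ≤ (1 + |f|_1) / 8`. Now sum `φ = GM δ_0 + GM f'` over
the points outside the box of radius `r`, where `φ = 0`: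
`∑_out GM x 0 ≥ DD 0 - (2r+1)^d C1 ≥ 0.98 μ - μ / 4`, and `|∑_out GM f'| ≤ 1.02 μ |f'|_1`
(row sums `DD`). So `|f'|_1 ≥ 0.7`, `|f|_1 ≥ 1 / 2`. -/
def CdfStmt : Prop :=
  ∀ (d M : ℕ) [NeZero M] (z μ E C1 lam : ℝ) (V : Site d → ℝ) (Λ : Finset (Site d)) (b : Site d)
    (r : ℕ), 1 ≤ d → 2 * r + 5 ≤ M → z ≤ 2 * d + 1 → 0 < μ → 0 < C1 →
    Flat z μ (fun x : Tor d M => V (b + rep x)) →
    (∀ x, GM z (fun x : Tor d M => V (b + rep x)) x x ≤ C1) → |E - z| ≤ lam →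
    16 * C1 * lam * (2 * r + 1 : ℝ) ^ d ≤ 1 → 4 * C1 * (2 * r + 1 : ℝ) ^ d ≤ μ →
    box b (r + 1) ⊆ Λ → (RM V Λ E).det ≠ 0 →
      ∃ y : Site d, (sd b y = r ∨ sd b y = r + 1) ∧
        1 ≤ 16 * d * (2 * r + 3 : ℝ) ^ d * |gr V Λ E b y|

/-- CPF: the probability of conduction near the band edge. Proof: `FlatStmt` (with
`σ' = |σ|`) gives `z`, `μ`, `10 t ≤ μ ≤ 12 t`; `LawStmt` (law of the potential on the torus, with the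
shift by `c`: the coordinates of `PP d (gl σ)` are independent with the law `gl σ`); `SumStmt`
(`a = 0.98 μ`) gives `GM x x ≤ C`; then `CdfStmt` for `r = 4 j s`, as in `CprStmt`. -/
def CpfStmt : Prop :=
  ∀ d : ℕ, 3 ≤ d → ∃ c0 C0 C1 : ℝ, 0 < c0 ∧ 0 < C0 ∧ 1 ≤ C1 ∧
    ∀ (M' : ℕ) (σ t p : ℝ), σ ≠ 0 → |σ| ≤ 1 → 3 ≤ M' → 1 ≤ t → t ≤ M' →
    p = C0 * (1 + Real.log t) * (M' : ℝ) ^ d * Real.exp (-c0 / (σ ^ 2 * growth d t)) →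
    p ≤ 1 / 2 → ∃ z : ℝ, |z - 2 * d| ≤ C0 * (σ ^ 2 + 1 / t + Real.sqrt p) ∧
      ∀ (s M N : ℕ) (E lam : ℝ) (c : Site d), |E - z| ≤ lam →
        C1 * lam * (8 * (M * s) + 3 : ℝ) ^ d ≤ 1 → C1 * (8 * (M * s) + 3 : ℝ) ^ d ≤ t →
        8 * (M * s) + 5 ≤ M' → Real.log (16 * d * (8 * (M * s) + 3 : ℝ) ^ d) ≤ s / 2 →
        box c (4 * (M * s) + 2) ⊆ box 0 N →
          PP d (gl σ) {V | ¬ ∀ j : ℕ, 1 ≤ j → j ≤ M → ∃ y : Site d,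
            (sd c y = 4 * j * s ∨ sd c y = 4 * j * s + 1) ∧ DL (box 0 N) E V c y ≤ s / 2} ≤
              ENNReal.ofReal p

/-- NUX: the numbers. Proof: `c₂ = 1 / (16 d²)`, `c₁ = 1 / (4 d)`, `c = c₁ / d - c₂`,
`M = ⌊X ^ c₁⌋`, `s = ⌈K₀ X ^ c₂⌉`, `cs = X ^ c₂`, `q` with `c₂ q ≥ A + c₂ (d + 1) + d c₁ + 1`;
`1 / |σ| ≤ 2 X`. All terms on the left are at most `K' X ^ (- c₁)`. -/
def NuxStmt : Prop :=
  ∀ (d : ℕ) (A K : ℝ), 1 ≤ d → 1 ≤ A → 1 ≤ K → ∃ (q : ℕ) (c : ℝ), d ≤ q ∧ 0 < c ∧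
    ∀ C' : ℝ, 0 < C' → ∃ C : ℝ, 1 ≤ C ∧
      ∀ σ κ X p : ℝ, σ ≠ 0 → |σ| ≤ 1 → C ≤ X → 1 / |σ| ≤ 2 * X → 0 < p → p ≤ 1 / X →
      C * X ^ (-c) ≤ κ →
      ∃ (s M : ℕ) (cs : ℝ), 1 ≤ s ∧ 1 ≤ M ∧ 1 ≤ cs ∧
        K * (8 * (M * s) + 3 : ℝ) ^ d ≤ X ∧ (8 * (M * s) + 3 : ℝ) ≤ X ∧
        Real.log (16 * d * (8 * (M * s) + 3 : ℝ) ^ d) ≤ s / 2 ∧
        4 * (p + d * (8 * (M * s) + 5) ^ d * (16 / |σ| * Real.exp (-(s / 2 : ℝ)))) * 3 ^ d +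
          2 * 3 ^ d / M + (2 ^ d + 2 * (8 * M + 9) ^ d / M) *
            (4 * 3 ^ d * (d * (C' * |σ| ^ (-A) * (s : ℝ) ^ (q + d + 1) / (cs * s) ^ q))) <
            (κ / (17 * cs)) ^ d

/-- WBE: the Lyapunov exponent near the band edge. Proof: `CrtStmt`, `OscBStmt` (`B = 2 d + 2`),
`CpfStmt`, `NuxStmt` (`X = 1 / (|E - Es| + 1 / t)`), `InfStmt`. -/
def WbeStmt : Prop :=
  ∀ d : ℕ, 3 ≤ d → ∃ c C : ℝ, 0 < c ∧ 0 < C ∧ ∀ σ t : ℝ, σ ≠ 0 → |σ| ≤ c → 1 / |σ| ≤ t →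
    σ ^ 2 * growth d t * Real.log t ≤ c → ∃ Es : ℝ, |Es - 2 * d| ≤ C * (σ ^ 2 + 1 / t) ∧
      ∀ E g : ℝ, |E - Es| ≤ |σ| → LyaAt d σ E g → g ≤ C * (|E - Es| + 1 / t) ^ c

end Pool.Agent.LE
end
end -- Pool.Agent.LE.StmtsX
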