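import Pool.Agent.Helper12_MEB.B035

/-!
# Merged copies (generated) of the modules

* `Pool.Agent.LE.StmtsY`
* `Pool.Agent.LE.StmtsZ`
* `Pool.Agent.LE.DefsC`
* `Pool.Agent.Helper3_LSH.CTS`
* `Pool.Agent.Helper72_LSH.MTR`
-/

set_option autoImplicit false

section -- Pool.Agent.LE.StmtsY

/-!
# The effective band edge: localization above, exponentially large localization length below

Statements of the modules, with proofs. For `d ≥ 3`, weak disorder, `t ≥ 1 / |σ|` with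
`σ² growth(d, t) log t ≤ c` (`t = e^{c/σ²}` for `d ≥ 5`), there is `Es`, `|Es - 2 d| ≤ C (σ² + 1/t)`:

* `γ(σ, E) ≥ c √(min (E - Es) 1)` for `E ≥ Es + 1 / t`;
* `γ(σ, E) ≤ C (|E - Es| + 1 / t)^c` for `|E - Es| ≤ |σ|`.
-/

set_option autoImplicit false

open MeasureTheory ProbabilityTheory Function Filter

open scoped ENNReal BigOperators Topology NNReal

noncomputable section

namespace Pool.Agent.LE

open Pool.Agent.Anderson Pool.Agent.Loc Pool.Agent.Mob Pool.Agent.Helper54.Bal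
  Pool.Agent.Helper96.EXP Pool.Agent.BED

/-- SGE: above the edge all the sites are good. Proof: on the event
`Flat z μ (fun x => V (rep x))` all eigenvalues of `H` in the boxes `box s L`, `s ∈ box 0 L`, are
`< z` (`EdgeStmt`, `r = 2 L`, `4 r + 3 ≤ M'`), so `E - H ≥ δ` there and `det ≠ 0`; the Combes-Thomas
bound (`Pool.Agent.Helper48_Loc.CT`, or: conjugation of `E - H` by `e^{κ |x - s|}`,
`κ = √δ / (2 d)`, keeps `≥ δ - 2 d (cosh κ - 1) ≥ δ / 2`) gives `|gr s u| ≤ (2/δ) e^{-κ L}`. -/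
def SgeStmt : Prop :=
  ∀ (d M' L : ℕ) [NeZero M'] (v : ℝ≥0) (σ z μ E δ p : ℝ), 1 ≤ d → σ ≠ 0 → (v : ℝ) = σ ^ 2 →
    0 < μ → z ≤ 2 * d + 1 → gau d M' v {V | ¬ Flat z μ V} ≤ ENNReal.ofReal p →
    0 < δ → δ ≤ 1 → z + δ ≤ E → 1 ≤ L → 8 * L + 3 ≤ M' →
    8 * d * Real.log (8 / δ) ≤ Real.sqrt δ * L →
      PP d (gl σ) {V | ¬ AllGoodC V 0 L (Real.sqrt δ / (8 * d)) E} ≤ ENNReal.ofReal p

/-- SMX: the multiscale induction with explicit constants. Proof: `SmpStmt` with `ρ = 1 / |σ|` and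
the steps `Pool.Agent.LE.H15.stepN_of`: `N_k = N_0 2 ^ k`, `ℓ_{k+1} = N_k ^ 3 ℓ_k`,
`p_k = c N_k ^ (-6 d)`, `c = 56 ^ (-2 d)`, `p₀ = p_0`; the loss in the rate at the step `k` is
`C log (ℓ_k) / ℓ_k + m (48 / N_k + 1 / ℓ_k)`, in total at most `m / 2`; the conditions at the step
`k` are `m ℓ_k / 8 ≥ C (1 + log (1 / |σ|) + log ℓ_k + log N_k)`. For a general scale `M`, one step
from `ℓ_k`, `ℓ_{k+1} ≤ M ≤ ℓ_{k+2}`. -/
def SmxStmt : Prop :=
  ∀ d : ℕ, 1 ≤ d → ∃ A p₀ : ℝ, 1 ≤ A ∧ 0 < p₀ ∧ ∀ (σ E m : ℝ) (L : ℕ), σ ≠ 0 → |σ| ≤ 1 →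
    0 < m → m ≤ 1 → 1 ≤ L → A * (1 + Real.log (L / (|σ| * m))) ≤ m * L →
    PP d (gl σ) {V | ¬ AllGoodC V 0 L m E} ≤ ENNReal.ofReal p₀ →
      Tendsto (fun M : ℕ => PP d (gl σ) {V | ¬ AllGoodC V 0 M (m / 2) E}) atTop (𝓝 0)

/-- FPX: the flat landscape function gives both the conduction and the edge. Proof: `CpfStmt` with
its proof (`Pool.Agent.LE.H54W.cpf_core`): the same `z`. -/
def FpxStmt : Prop :=
  ∀ d : ℕ, 3 ≤ d → ∃ c0 C0 C1 : ℝ, 0 < c0 ∧ 0 < C0 ∧ 1 ≤ C1 ∧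
    ∀ (M' : ℕ) (v : ℝ≥0) (σ t p : ℝ), σ ≠ 0 → |σ| ≤ 1 → (v : ℝ) = σ ^ 2 → 3 ≤ M' → 1 ≤ t →
    t ≤ M' → p = C0 * (1 + Real.log t) * (M' : ℝ) ^ d * Real.exp (-c0 / (σ ^ 2 * growth d t)) →
    p ≤ 1 / 2 → ∃ z μ : ℝ, |z - 2 * d| ≤ C0 * (σ ^ 2 + 1 / t + Real.sqrt p) ∧ z ≤ 2 * d + 1 ∧
      0 < μ ∧ (∀ h : NeZero M', gau d M' v {V | ¬ Flat z μ V} ≤ ENNReal.ofReal p) ∧
      ∀ (s M N : ℕ) (E lam : ℝ) (c : Site d), |E - z| ≤ lam →
        C1 * lam * (8 * (M * s) + 3 : ℝ) ^ d ≤ 1 → C1 * (8 * (M * s) + 3 : ℝ) ^ d ≤ t →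
        8 * (M * s) + 5 ≤ M' → Real.log (16 * d * (8 * (M * s) + 3 : ℝ) ^ d) ≤ s / 2 →
        box c (4 * (M * s) + 2) ⊆ box 0 N →
          PP d (gl σ) {V | ¬ ∀ j : ℕ, 1 ≤ j → j ≤ M → ∃ y : Site d,
            (sd c y = 4 * j * s ∨ sd c y = 4 * j * s + 1) ∧ DL (box 0 N) E V c y ≤ s / 2} ≤
              ENNReal.ofReal p

/-- QME: the effective band edge. Proof: `wbeZ` for the upper bound; for the lower bound `SgeStmt`,
`SmxStmt` with `L = ⌊t / 8⌋`, `δ = min (E - z) 1 ≥ 1 / t`, `m = √δ / (8 d)`. -/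
def QmeStmt : Prop :=
  ∀ d : ℕ, 3 ≤ d → ∃ c C : ℝ, 0 < c ∧ 0 < C ∧ ∀ σ t : ℝ, σ ≠ 0 → |σ| ≤ c → 1 / |σ| ≤ t →
    σ ^ 2 * growth d t * Real.log t ≤ c → ∃ Es : ℝ, |Es - 2 * d| ≤ C * (σ ^ 2 + 1 / t) ∧
      (∀ E g : ℝ, Es + 1 / t ≤ E → LyaAt d σ E g → c * Real.sqrt (min (E - Es) 1) ≤ g) ∧
      ∀ E g : ℝ, |E - Es| ≤ |σ| → LyaAt d σ E g → g ≤ C * (|E - Es| + 1 / t) ^ c

end Pool.Agent.LE
end
end -- Pool.Agent.LE.StmtsY

section -- Pool.Agent.LE.StmtsZ

/-!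
# Exact asymptotics of the Lyapunov exponent above the effective band edge

Statements of the modules, with proofs. For `d ≥ 3` and every `ε > 0` there is `c > 0` such that for
weak disorder and `t` with `σ² growth(d, t) log t ≤ c` (`t = e^{c/σ²}` for `d ≥ 5`) there is `Es` with

  `(1 - ε) √(E - Es) ≤ γ(σ, E) ≤ (1 + ε) √(E - Es)` for `Es + 1 / t ≤ E ≤ Es + c`.

The lower bound is the Combes-Thomas bound with the sharp constant and the multiscale induction with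
a small loss. The upper bound: `u = G_B(b, ·)` is a positive supersolution in a cube `B` of radius
`R ~ t / 10` and `w`, the flat landscape function, solves `(z - V - Δ) w = 1`. For `h = log (u / w)`
the log Caccioppoli inequality with the sharp constant (SLC) says that the mean of `(h(x + e_i) -
h(x))²` over a cube of side `≥ C_ε / √(E - z)` is at most `(1 + C ε) (E - z)`. By Cauchy-Schwarz the
means of `h` over such cubes change by at most `(1 + C ε) √(E - z) n` over the distance `n`. So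
`G_B(b, b + n e_i) ≥ exp (-(1 + C ε) √(E - z) n - C_ε log (1 / (E - z)))`.
-/

set_option autoImplicit false

open MeasureTheory ProbabilityTheory Function Filter

open scoped ENNReal BigOperators Topology NNReal

noncomputable section

namespace Pool.Agent.LE

open Pool.Agent.Anderson Pool.Agent.Loc Pool.Agent.Mob Pool.Agent.Helper54.Bal
  Pool.Agent.Helper96.EXP Pool.Agent.BED

/-! ### A. Deterministic: the logarithm of a positive supersolution -/

/-- the energy of `h` in the cube of radius `s` about `p` -/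
def eg {d : ℕ} (h : Site d → ℝ) (p : Site d) (s : ℕ) : ℝ :=
  ∑ x ∈ box p s, ∑ i : Fin d,
    if x + Pi.single i 1 ∈ box p s then (h (x + Pi.single i 1) - h x) ^ 2 else 0

/-- the mean of `h` over the cube of radius `s` about `p` -/
def av {d : ℕ} (h : Site d → ℝ) (p : Site d) (s : ℕ) : ℝ :=
  (∑ x ∈ box p s, h x) / (2 * (s : ℝ) + 1) ^ d

/-- `h` is the logarithm of a positive supersolution, on the cube of radius `R` about `b`, for the
conductances `ω(x) ω(y)`, `|ω - 1| ≤ ε`, and a killing rate at most `k` -/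
def LS {d : ℕ} (ω h : Site d → ℝ) (ε k : ℝ) (b : Site d) (R : ℕ) : Prop :=
  (∀ x ∈ box b (R + 1), |ω x - 1| ≤ ε) ∧
  ∀ x ∈ box b R, ω x * ∑ i : Fin d,
    (ω (x + Pi.single i 1) * (Real.exp (h (x + Pi.single i 1) - h x) - 1) +
      ω (x - Pi.single i 1) * (Real.exp (h (x - Pi.single i 1) - h x) - 1)) ≤ k

/-- ELE: elementary inequalities. First: let `A ≤ B`, `δ = B - A`, `r = e^s`; then
`A² (r - 1) + B² (1/r - 1) = A² (r + 1/r - 2) + (2 A δ + δ²) (1/r - 1)`; for `r ≤ 1` the second term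
is `≥ 0`; for `r > 1` it is `≥ - 2 A δ (1 - 1/r) - δ² ≥ - A² (1 - 1/r)² / 2 - 3 δ²` and
`(1 - 1/r)² ≤ (r - 1)²/r = r + 1/r - 2`; finally `r + 1/r - 2 ≥ s²`. The case `A > B` follows with
`s → -s`. Second: `m = min A B`; `A (e^s - 1) + B (e^{-s} - 1) = m (2 cosh s - 2) + (A - m) (e^s - 1)
+ (B - m) (e^{-s} - 1)` and `e^x - 1 ≥ - |x|`. -/
def EleStmt : Prop :=
  (∀ A B s : ℝ, 0 ≤ A → 0 ≤ B → 1 / 2 * (min A B) ^ 2 * s ^ 2 - 3 * (A - B) ^ 2 ≤
    A ^ 2 * (Real.exp s - 1) + B ^ 2 * (Real.exp (-s) - 1)) ∧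
  ∀ A B s : ℝ, 0 ≤ A → 0 ≤ B → min A B * s ^ 2 - |A - B| * |s| ≤
    A * (Real.exp s - 1) + B * (Real.exp (-s) - 1)

/-- LCI: log Caccioppoli inequality. Proof: `φ(x) = min 1 (2 - |x - p|_∞ / s)`, `0` outside
`box p (2 s)`. Multiply the inequality in `LS` at `x` by `φ(x)²` and sum over `x ∈ box p (2 s)`. The
edge `{x, x + e_i}` contributes `ω(x) ω(x + e_i) (φ(x)² (e^s - 1) + φ(x + e_i)² (e^{-s} - 1))`,
`s = h(x + e_i) - h(x)` (also when one end is not in `box p (2 s)`: there `φ = 0` at both ends), which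
is at least `0.81 / 2 min(φ)² s² - 3.63 (φ(x) - φ(x + e_i))²` (`EleStmt`). `|φ(x) - φ(x + e_i)| ≤
1 / s` and there are at most `d (4 s + 1)^d` edges with `φ(x) ≠ φ(x + e_i)`, and
`(4 s + 1)^d ≤ 2^d (2 s + 1)^d`. -/
def LciStmt : Prop :=
  ∀ (d : ℕ) (ω h : Site d → ℝ) (ε k : ℝ) (p : Site d) (s : ℕ), 1 ≤ d → 0 ≤ ε → ε ≤ 1 / 10 →
    0 ≤ k → 1 ≤ s → LS ω h ε k p (2 * s) →
      eg h p s ≤ 10 * d * 2 ^ d * (1 / (s : ℝ) ^ 2 + k) * (2 * (s : ℝ) + 1) ^ d

/-- PCR: the Poincare inequality on cubes. Proof: `∑_x (f x - av)² = 1/(2 n^d) ∑_{x,y} (f x - f y)²`,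
`n = 2 s + 1`. Change the coordinates of `x` into those of `y` one at a time: `v_i = (y_1, …, y_i,
x_{i+1}, …, x_d)`; `(f x - f y)² ≤ d ∑_i (f v_i - f v_{i-1})²`, and, with `n - 1` edges on a line,
`(f v_i - f v_{i-1})² ≤ n ∑_{edges of the line} (∇f)²`. For fixed `i` each line is used by
`n^{d-1} n²` pairs `(x, y)`: the total is at most `1/(2 n^d) d n^{d-1} n² n eg = d n² eg / 2`.
(Another way: induction on `d` / the inequality of Efron and Stein.) -/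
def PcrStmt : Prop :=
  ∀ (d : ℕ) (f : Site d → ℝ) (p : Site d) (s : ℕ), 1 ≤ d →
    ∑ x ∈ box p s, (f x - av f p s) ^ 2 ≤ d * (2 * (s : ℝ) + 1) ^ 2 * eg f p s

/-- SLC: log Caccioppoli inequality with the sharp constant. Proof: `r = ⌈ε s⌉`, `φ = 1` on
`box p (s + 1)`, `φ = 0` outside `box p (s + 1 + r)`, linear in `|x - p|_∞` between. Multiply the
inequality in `LS` by `φ(x)` (not squared) and sum. By the second part of `EleStmt`, with
`δ = |φ(x) - φ(x + e_i)| ≤ 1 / r`, `a = ω(x) ω(x + e_i) ∈ [(1 - ε)², (1 + ε)²]`,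
`(1 - ε)² ∑_{x ∈ box p s} (h(x + e_i) - h(x))² ≤ k ∑ φ + 1.21 ∑_{edges} δ |∇h|`. Here
`∑ φ ≤ (2 (s + 1 + r) + 1)^d ≤ (1 + 2 ε)^d (2 s + 1)^d` (`s ≥ 1/ε²`), and the edges with `δ ≠ 0` are
in `box p (2 s)`, so the last sum is at most `(1/r) (d (4 s + 1)^d)^{1/2} (eg h p (2 s))^{1/2} ≤
(1/(ε s)) C √k (2 s + 1)^d ≤ C ε k (2 s + 1)^d` (`LciStmt` for `2 s`; `1/s² ≤ k`; `1/s ≤ ε² √k`). -/
def SlcStmt : Prop :=
  ∀ d : ℕ, 1 ≤ d → ∃ C : ℝ, 1 ≤ C ∧ ∀ (ω h : Site d → ℝ) (ε k : ℝ) (p : Site d) (s : ℕ)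
    (i : Fin d), 0 < ε → ε ≤ 1 / 10 → 0 < k → k ≤ 1 → 1 / ε ^ 2 ≤ Real.sqrt k * s →
    LS ω h ε k p (4 * s) →
      ∑ x ∈ box p s, (h (x + Pi.single i 1) - h x) ^ 2 ≤
        (1 + C * ε) * k * (2 * (s : ℝ) + 1) ^ d

/-- LCP: the value at the centre and the mean. Proof: for `1 ≤ r ≤ s` and `r' = ⌊r / 2⌋`,
`(av h p r' - av h p r)² ≤ (2 r' + 1)^{-d} ∑_{box p r} (h - av h p r)² ≤ C (2 r + 1)² (1/r² + k)
≤ C' (1 + k r²)` (`PcrStmt`, `LciStmt` for `r`; `2 r + 1 ≤ 3 (2 r' + 1)`). Halve `s` until `r' = 0`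
(at most `2 + 2 log s` steps, `av h p 0 = h p`), the sum of the radii is at most `2 s`. -/
def LcpStmt : Prop :=
  ∀ d : ℕ, 1 ≤ d → ∃ C : ℝ, 1 ≤ C ∧ ∀ (ω h : Site d → ℝ) (ε k : ℝ) (p : Site d) (s : ℕ),
    0 ≤ ε → ε ≤ 1 / 10 → 0 ≤ k → 1 ≤ s → LS ω h ε k p (4 * s) →
      |h p - av h p s| ≤ C * (1 + Real.log s + Real.sqrt k * s)

/-- LCS: the logarithm of a positive supersolution decreases at most at the rate `√k`. Proof:
`s = ⌈1 / (ε² √k)⌉`, `4 s ≤ R` for `C₂ ≥ 8 / ε²`. `box (p + e_i) s = e_i + box p s`, so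
`av h (p + e_i) s - av h p s` is the mean of `h(x + e_i) - h(x)` over `box p s`, in absolute value at
most `√((1 + C ε) k) ≤ (1 + C ε) √k` (Cauchy-Schwarz, `SlcStmt`). Sum over the `n` steps, and use
`LcpStmt` at both ends: `log s ≤ log (2 / (ε² √k))`, `√k s ≤ 2 / ε²`. -/
def LcsStmt : Prop :=
  ∀ d : ℕ, 1 ≤ d → ∃ C₁ : ℝ, 1 ≤ C₁ ∧ ∀ ε : ℝ, 0 < ε → ε ≤ 1 / 10 → ∃ C₂ : ℝ, 1 ≤ C₂ ∧
    ∀ (ω h : Site d → ℝ) (k : ℝ) (b : Site d) (n R : ℕ) (i : Fin d), 0 < k → k ≤ 1 →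
    C₂ / Real.sqrt k ≤ R → LS ω h ε k b (n + R) →
      |h (b + Pi.single i (n : ℤ)) - h b| ≤
        (1 + C₁ * ε) * Real.sqrt k * n + C₂ * (1 + Real.log (1 / k))

/-! ### B. Above the edge -/

/-- the landscape function is within the factors `1 ± ε` of `μ` -/
def FlatE {d M : ℕ} [NeZero M] (ε z μ : ℝ) (V : Tor d M → ℝ) : Prop :=
  (∀ x, -1 ≤ V x) ∧ (AM z V).PosDef ∧ ∀ x, |DD z V x - μ| ≤ ε * μ

/-- FLE: flatness with the precision `ε`, and conduction at the same energy. Proof: in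
`Pool.Agent.BED.flat` the stage `hS` has a Lipschitz extension `F` of `DD z · 0` with the constant
`m (C + √(C growth))`, `m ≤ 2 μ`; once more Gaussian concentration, now with the precision `ε μ / 4`,
around `μ' = ∫ F`, at all sites (`CovStmt`): probability at most
`2 M^d exp (-c ε² / (σ² growth))`; `|μ' - μ| ≤ μ / 20`. `FlatE ε z μ'` implies `Flat z μ'`. The
conduction is `Pool.Agent.LE.H54W.cpf_core` (`cdf : CdfStmt` is `Pool.Agent.LE.H59W.cdf`). -/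
def FleStmt : Prop :=
  ∀ (d : ℕ) (ε : ℝ), 3 ≤ d → 0 < ε → ε ≤ 1 / 50 → ∃ c0 C0 C1 : ℝ, 0 < c0 ∧ 0 < C0 ∧ 1 ≤ C1 ∧
    ∀ (M' : ℕ) (v : ℝ≥0) (σ t p : ℝ), σ ≠ 0 → |σ| ≤ 1 → (v : ℝ) = σ ^ 2 → 3 ≤ M' → 1 ≤ t →
    t ≤ M' → p = C0 * (1 + Real.log t) * (M' : ℝ) ^ d * Real.exp (-c0 / (σ ^ 2 * growth d t)) →
    p ≤ 1 / 2 → ∃ z μ : ℝ, |z - 2 * d| ≤ C0 * (σ ^ 2 + 1 / t + Real.sqrt p) ∧ z ≤ 2 * d + 1 ∧
      9 * t ≤ μ ∧
      (∀ h : NeZero M', gau d M' v {V | ¬ FlatE ε z μ V} ≤ ENNReal.ofReal p) ∧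
      ∀ (s M N : ℕ) (E lam : ℝ) (c : Site d), |E - z| ≤ lam →
        C1 * lam * (8 * (M * s) + 3 : ℝ) ^ d ≤ 1 → C1 * (8 * (M * s) + 3 : ℝ) ^ d ≤ t →
        8 * (M * s) + 5 ≤ M' → Real.log (16 * d * (8 * (M * s) + 3 : ℝ) ^ d) ≤ s / 2 →
        box c (4 * (M * s) + 2) ⊆ box 0 N →
          PP d (gl σ) {V | ¬ ∀ j : ℕ, 1 ≤ j → j ≤ M → ∃ y : Site d,
            (sd c y = 4 * j * s ∨ sd c y = 4 * j * s + 1) ∧ DL (box 0 N) E V c y ≤ s / 2} ≤
              ENNReal.ofReal p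

/-- CDE: lower bound for the Green function of a cube above the edge (deterministic). Proof:
`B = box b (n + R)`, `E = z + lam`, `u = gr W B E b ·`. `E - H_B ≥ lam` (`H28W.qform_flat` shifted by
`b`), so the matrix is positive definite with nonpositive entries off the diagonal, `u ≥ 0`
(`Pool.Agent.BED`, `Helper54_BED/LA.lean`), and `u > 0` on `B` (`u(x) = 0` would imply `u = 0` at all
the neighbours of `x` in `B`, hence at `b`; but `(E - W b) u(b) ≥ 1`, `E - W b ≤ 2 d + 3`). Let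
`ω(x) = DD z (…) (x - b) / μ` (the landscape function seen on `ℤ^d`), `(z - W) ω - Δ ω = 1 / μ` on
`box b (n + R)`, and `h = log (u / ω)`. On `box b (n + R - 1)` one has `(E - W) u - Δ u ≥ 0`, i.e.
`∑_y ω(y) e^{h(y) - h(x)} ≤ (E - W(x)) ω(x) = lam ω(x) + 1 / μ + ∑_y ω(y)`: so
`LS ω h ε k b (n + R - 1)` with `k = (1 + 4 ε) lam` (`1 / μ ≤ ε lam`). `LcsStmt` (with `R - 1`) gives
`h(b + n e_i) ≥ h(b) - …`, and `u = ω e^h`, `√k ≤ (1 + 2 ε) √lam`. -/
def CdeStmt : Prop :=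
  ∀ d : ℕ, 1 ≤ d → ∃ C₁ : ℝ, 1 ≤ C₁ ∧ ∀ ε : ℝ, 0 < ε → ε ≤ 1 / 50 → ∃ C₂ : ℝ, 1 ≤ C₂ ∧
    ∀ (M : ℕ) [NeZero M] (z μ lam : ℝ) (W : Site d → ℝ) (b : Site d) (n R : ℕ) (i : Fin d),
    z ≤ 2 * d + 1 → 0 < lam → lam ≤ 1 / 2 → 0 < μ → 1 ≤ ε * lam * μ → 2 * (n + R) + 5 ≤ M →
    FlatE ε z μ (fun x : Tor d M => W (b + rep x)) → C₂ / Real.sqrt lam ≤ R →
      Real.exp (-((1 + C₁ * ε) * Real.sqrt lam * n + C₂ * (1 + Real.log (1 / lam)))) ≤
        gr W (box b (n + R)) (z + lam) b (b + Pi.single i (n : ℤ))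

/-- CTS: the Combes-Thomas bound with the sharp constant, in the sup distance. Proof: let
`|x_i - y_i| = sd x y`. Conjugate `E - H_Λ` by `e^{± κ x_i}`: the quadratic form changes by
`- 2 (cosh κ - 1) ∑_x f(x) f(x + e_i)` (both sites in `Λ`), at most `2 (cosh κ - 1) ∑ f²` in absolute
value, so the conjugated matrix `M` has `⟨f, M f⟩ ≥ g |f|²`, `|M⁻¹| ≤ 1 / g`, and
`|(E - H_Λ)⁻¹(x, y)| e^{κ |x_i - y_i|} ≤ 1 / g` for the right choice of the sign. (As
`H3Y.combes_thomas_cosh`.) -/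
def CtsStmt : Prop :=
  ∀ (d : ℕ) (V : Site d → ℝ) (Λ : Finset (Site d)) (E δ κ g : ℝ), 1 ≤ d → 0 < g → 0 ≤ κ →
    2 * (Real.cosh κ - 1) + g ≤ δ →
    (∀ u : Site d → ℝ, δ * ∑ y ∈ Λ, u y ^ 2 ≤ qform V Λ E u) →
      (RM V Λ E).det ≠ 0 ∧ ∀ x y, |gr V Λ E x y| ≤ 1 / g * Real.exp (-κ * sd x y)

/-- SGX: above the edge all the sites are good, with the sharp rate. Proof: as `H28W.sge`, with
`CtsStmt`, `κ = (1 - ε) √δ`, `g = ε δ`: `2 (cosh κ - 1) ≤ κ² (1 + κ² / 6) ≤ δ (1 - 2 ε + ε²)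
(1 + ε / 6) ≤ δ (1 - ε)`. -/
def SgxStmt : Prop :=
  ∀ (d M' L : ℕ) [NeZero M'] (v : ℝ≥0) (σ z μ E δ ε p : ℝ), 1 ≤ d → σ ≠ 0 → (v : ℝ) = σ ^ 2 →
    0 < μ → z ≤ 2 * d + 1 → gau d M' v {V | ¬ Flat z μ V} ≤ ENNReal.ofReal p →
    0 < ε → ε ≤ 1 / 2 → 0 < δ → δ ≤ ε → z + δ ≤ E → 1 ≤ L → 8 * L + 3 ≤ M' →
    Real.log (2 / (ε * δ)) ≤ ε * Real.sqrt δ * L →
      PP d (gl σ) {V | ¬ AllGoodC V 0 L ((1 - 2 * ε) * Real.sqrt δ) E} ≤ ENNReal.ofReal p

/-- SMS: the multiscale induction with a small loss in the rate. Proof: as `H15X.smx`, with the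
parameter `ε` of `H15X.smn_core` equal to `ε m` and `N0 ≥ 400 / ε`. -/
def SmsStmt : Prop :=
  ∀ (d : ℕ) (ε : ℝ), 1 ≤ d → 0 < ε → ε < 1 → ∃ A p₀ : ℝ, 1 ≤ A ∧ 0 < p₀ ∧
    ∀ (σ E m : ℝ) (L : ℕ), σ ≠ 0 → |σ| ≤ 1 →
    0 < m → m ≤ 1 → 1 ≤ L → A * (1 + Real.log (L / (|σ| * m))) ≤ m * L →
    PP d (gl σ) {V | ¬ AllGoodC V 0 L m E} ≤ ENNReal.ofReal p₀ →
      Tendsto (fun M : ℕ => PP d (gl σ) {V | ¬ AllGoodC V 0 M ((1 - ε) * m) E}) atTop (𝓝 0)

/-! ### C. The upper bound -/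

/-- MTR: triangle inequality for the means. Proof: `Pool.Agent.LE.VtrStmt` (`H54W.vtr`) with
`S = {x}` gives `P(D(x, y) > D(x, u) + D(u, y) + T) ≤ 8 / |σ| e^{-T}` (`gr ≠ 0` almost surely,
`UfmStmt` or `FmnStmt`, second part), so `E (D(x, y) - D(x, u) - D(u, y))^+ ≤ 1 + log⁺ (8 / |σ|)`.
The integrability of `D` is in `FamN` (`FmnStmt`). -/
def MtrStmt : Prop :=
  ∀ (d N : ℕ) (σ E : ℝ) (x u y : Site d), 1 ≤ d → σ ≠ 0 → |σ| ≤ 1 → x ∈ box (0 : Site d) N →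
    u ∈ box (0 : Site d) N → y ∈ box (0 : Site d) N →
    Integrable (fun V => DL (box 0 N) E V x y) (PP d (gl σ)) ∧
    ∫ V, DL (box 0 N) E V x y ∂(PP d (gl σ)) ≤ ∫ V, DL (box 0 N) E V x u ∂(PP d (gl σ)) +
      ∫ V, DL (box 0 N) E V u y ∂(PP d (gl σ)) + (10 + Real.log (1 / |σ|))

/-- CDP: conduction in a large cube, with probability. Proof: `Λ = box 0 N`, `B = box b (n + R)`,
`x = b + n e_i`; `FlatE` on the torus around `b` has probability `≥ 1 - p` (`H73.lawT`, as in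
`H28W.sge`). On it `G_Λ(b, x) = G_B(b, x) + ∑ G_B(b, u) G_Λ(y, x)` over `u ∈ B`, `y ∉ B`, `y ~ u`
(resolvent identity; `sd b u = n + R`); `|G_B(b, u)| ≤ (2 / lam) e^{-√lam (n + R) / 2}` (`CtsStmt`,
`κ = √lam / 2`, `g = lam / 2`); `|G_Λ(y, x)| ≤ e^{√lam R / 8}` for all `y`, outside an event of
probability at most `K (2 (n + R) + 3)^d / |σ| e^{-√lam R / 8} ≤ e^{-√lam R / 16}` (Wegner for one
matrix element); `G_B(b, x) ≥ exp (-(1 + C₁ ε) √lam n - …)` (`CdeStmt`), `n ≤ R / 8`,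
`1 + C₁ ε ≤ 2`: the sum is at most half of `G_B(b, x)` if `C₂` in the last condition is large. -/
def CdpStmt : Prop :=
  ∀ d : ℕ, 1 ≤ d → ∃ C₁ : ℝ, 1 ≤ C₁ ∧ ∀ ε : ℝ, 0 < ε → ε ≤ 1 / 50 → C₁ * ε ≤ 1 →
    ∃ C₂ : ℝ, 1 ≤ C₂ ∧
    ∀ (M' n R N : ℕ) (v : ℝ≥0) (σ z μ lam p : ℝ) (b : Site d) (i : Fin d), σ ≠ 0 → |σ| ≤ 1 →
    (v : ℝ) = σ ^ 2 → z ≤ 2 * d + 1 → 0 < lam → lam ≤ 1 / 2 → 0 < μ → 1 ≤ ε * lam * μ →
    (∀ h : NeZero M', gau d M' v {V | ¬ FlatE ε z μ V} ≤ ENNReal.ofReal p) →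
    2 * (n + R) + 5 ≤ M' → 8 * n ≤ R → box b (n + R + 1) ⊆ box 0 N →
    C₂ * (1 + Real.log (1 / lam) + Real.log (1 / |σ|) + Real.log R) ≤ Real.sqrt lam * R →
      PP d (gl σ) {V | ¬ DL (box 0 N) (z + lam) V b (b + Pi.single i (n : ℤ)) ≤
        (1 + C₁ * ε) * Real.sqrt lam * n + C₂ * (1 + Real.log (1 / lam))} ≤
          ENNReal.ofReal (p + Real.exp (-(Real.sqrt lam * R / 16)))

/-- UPX: from conduction with probability to the Lyapunov exponent. Proof: `cstB` (`H28W.cstB`,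
second moment of `D⁺`, `|E| ≤ 2 d + 2`): on the bad event `E (D⁺ 1_bad) ≤ (C |σ|^{-A} (n + 1)²)^{1/2}
P(bad)^{1/2} ≤ 1` by the hypothesis on `q`, so the mean of `D(b, b + n e_i)` is at most `a n + 1` for
all `b` with `box b (n + R + 1) ⊆ box 0 N`; `MtrStmt` along `0, n e_i, 2 n e_i, …, m n e_i` gives
`E D(0, m n e_i) ≤ m (a n + 11 + log (1 / |σ|)) ≤ m (a (1 + ε) n)`; `UpeStmt` with `Q₁ = 1`, `ℓ = n`,
`y = e_i`, `M₀ = 2 R + 3`. -/
def UpxStmt : Prop :=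
  ∀ d : ℕ, 1 ≤ d → ∃ A C : ℝ, 1 ≤ A ∧ 1 ≤ C ∧
    ∀ (n R : ℕ) (σ E g a ε q : ℝ) (i : Fin d), σ ≠ 0 → |σ| ≤ 1 → |E| ≤ 2 * d + 2 → 1 ≤ n →
    0 < ε → 0 < a → 0 ≤ q → C * |σ| ^ (-A) * (n : ℝ) ^ 2 * q ≤ 1 →
    12 + Real.log (1 / |σ|) ≤ ε * a * n →
    (∀ (N : ℕ) (b : Site d), box b (n + R + 1) ⊆ box 0 N →
      PP d (gl σ) {V | ¬ DL (box 0 N) E V b (b + Pi.single i (n : ℤ)) ≤ a * n} ≤
        ENNReal.ofReal q) →
    LyaAt d σ E g → g ≤ (1 + ε) * a

/-- QMS: exact asymptotics above the effective band edge. Proof: as `H93W.qme`, with `FleStmt` at the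
scale `T = K t`; `n = ⌊T / 20⌋`, `R = 8 n`, `L = ⌊T / 10⌋`. -/
def QmsStmt : Prop :=
  ∀ (d : ℕ) (ε : ℝ), 3 ≤ d → 0 < ε → ε < 1 → ∃ c C : ℝ, 0 < c ∧ 0 < C ∧
    ∀ σ t : ℝ, σ ≠ 0 → |σ| ≤ c → 1 / |σ| ≤ t → σ ^ 2 * growth d t * Real.log t ≤ c →
    ∃ Es : ℝ, |Es - 2 * d| ≤ C * (σ ^ 2 + 1 / t) ∧
      (∀ E g : ℝ, Es + 1 / t ≤ E → LyaAt d σ E g → c * Real.sqrt (min (E - Es) 1) ≤ g) ∧
      (∀ E g : ℝ, Es + 1 / t ≤ E → E ≤ Es + c → LyaAt d σ E g →
        (1 - ε) * Real.sqrt (E - Es) ≤ g ∧ g ≤ (1 + ε) * Real.sqrt (E - Es)) ∧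
      ∀ E g : ℝ, |E - Es| ≤ |σ| → LyaAt d σ E g → g ≤ C * (|E - Es| + 1 / t) ^ c

end Pool.Agent.LE
end
end -- Pool.Agent.LE.StmtsZ

section -- Pool.Agent.LE.DefsC

/-!
# Clusters: the sites which are reached by a few cheap links

`rch V Λ E s b ρ j` is the set of the sites of `box b ρ` which are reached from `b` by at most `j`
links `x → y` with `|G_Λ(x, y; E)| ≥ e^{-s}`.
-/

set_option autoImplicit false

open MeasureTheory ProbabilityTheory

open scoped ENNReal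

noncomputable section

namespace Pool.Agent.LE.CL

open Pool.Agent.Anderson Pool.Agent.Loc Pool.Agent.Mob Pool.Agent.Helper54.Bal
  Pool.Agent.Helper96.EXP

/-- the sites of `box b ρ` reached from `b` by at most `j` links of the price at most `s` -/
def rch {d : ℕ} (V : Site d → ℝ) (Λ : Finset (Site d)) (E s : ℝ) (b : Site d) (ρ : ℕ) :
    ℕ → Finset (Site d)
  | 0 => {b}
  | j + 1 => by
      classical
      exact rch V Λ E s b ρ j ∪
        (box b ρ).filter fun y => ∃ x ∈ rch V Λ E s b ρ j, Real.exp (-s) ≤ |gr V Λ E x y|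

/-- the sites of `B` reached from some point of `C` by one link of the price at most `s` -/
def clu {d : ℕ} (V : Site d → ℝ) (Λ : Finset (Site d)) (E s : ℝ) (C B : Finset (Site d)) :
    Finset (Site d) := by
  classical
  exact C ∪ B.filter fun y => ∃ x ∈ C, Real.exp (-s) ≤ |gr V Λ E x y|

/-- the sum over the neighbours -/
def nb {d : ℕ} (u : Site d → ℝ) (x : Site d) : ℝ :=
  ∑ i : Fin d, (u (x + Pi.single i 1) + u (x - Pi.single i 1))

/-- CRG: the criterion (helper93, `StmtsP.lean`): from the size of the clusters to the Lyapunov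
exponent. -/
def CrgStmt : Prop :=
  ∀ d : ℕ, 1 ≤ d → ∃ C : ℝ, 1 ≤ C ∧ ∀ (σ E s q g : ℝ) (J n ρ : ℕ), 0 < |σ| → |σ| ≤ 1 / 2 →
    |E| ≤ 2 * d + 2 → 1 ≤ s → 1 ≤ J → 1 ≤ n → 1 ≤ ρ → LyaAt d σ E g → 0 ≤ q → q * n ≤ 1 →
    (∀ (N : ℕ) (b : Site d), box b ρ ⊆ box 0 N →
      PP d (gl σ) {V | ¬ n ≤ (rch V (box 0 N) E s b ρ J).card} ≤ ENNReal.ofReal q) →
      g ≤ C * J * (s + Real.log (1 / |σ|) + Real.log ρ) * (n : ℝ) ^ (-(1 / (d : ℝ)))

variable {d : ℕ} {V : Site d → ℝ} {Λ : Finset (Site d)} {E s : ℝ} {b : Site d} {ρ : ℕ}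

theorem mem_clu {C B : Finset (Site d)} {y : Site d} :
    y ∈ clu V Λ E s C B ↔ y ∈ C ∨ (y ∈ B ∧ ∃ x ∈ C, Real.exp (-s) ≤ |gr V Λ E x y|) := by
  classical
  simp [clu]

theorem rch_succ (j : ℕ) : rch V Λ E s b ρ (j + 1) = clu V Λ E s (rch V Λ E s b ρ j) (box b ρ) := by
  classical
  ext y
  rw [mem_clu]
  simp [rch]

theorem rch_zero : rch V Λ E s b ρ 0 = {b} := rfl

theorem rch_subset_succ (j : ℕ) : rch V Λ E s b ρ j ⊆ rch V Λ E s b ρ (j + 1) := by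
  intro y hy
  rw [rch_succ, mem_clu]
  exact Or.inl hy

theorem rch_mono {j k : ℕ} (h : j ≤ k) : rch V Λ E s b ρ j ⊆ rch V Λ E s b ρ k := by
  induction k, h using Nat.le_induction with
  | base => exact fun _ h => h
  | succ n _ ih => exact fun y hy => rch_subset_succ n (ih hy)

theorem rch_subset_box (j : ℕ) : rch V Λ E s b ρ j ⊆ box b ρ := by
  induction j with
  | zero =>
    intro y hy
    rw [rch_zero, Finset.mem_singleton] at hy
    rw [hy, mem_box, sd_self]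
    exact Nat.zero_le _
  | succ n ih =>
    intro y hy
    rw [rch_succ, mem_clu] at hy
    rcases hy with hy | hy
    · exact ih hy
    · exact hy.1

theorem clu_mono {C C₂ B B₂ : Finset (Site d)} (hC : C ⊆ C₂) (hB : B ⊆ B₂) :
    clu V Λ E s C B ⊆ clu V Λ E s C₂ B₂ := by
  intro y hy
  rw [mem_clu] at hy ⊢
  rcases hy with hy | ⟨hy, x, hx, hxy⟩
  · exact Or.inl (hC hy)
  · exact Or.inr ⟨hB hy, x, hC hx, hxy⟩

theorem rch_mono_rad {ρ' : ℕ} (h : ρ ≤ ρ') (j : ℕ) : rch V Λ E s b ρ j ⊆ rch V Λ E s b ρ' j := by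
  induction j with
  | zero => exact fun _ h => h
  | succ n ih =>
    rw [rch_succ, rch_succ]
    exact clu_mono ih (box_mono b h)

theorem mem_rch_self (j : ℕ) : b ∈ rch V Λ E s b ρ j :=
  rch_mono (Nat.zero_le j) (by rw [rch_zero, Finset.mem_singleton])

end Pool.Agent.LE.CL
end
end -- Pool.Agent.LE.DefsC

section -- Pool.Agent.Helper3_LSH.CTS

/-!
# LSH, row CTS: the Combes-Thomas bound with the sharp constant, in the sup distance
-/

set_option autoImplicit false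
set_option linter.unusedSectionVars false

open MeasureTheory ProbabilityTheory Function

open scoped ENNReal BigOperators

noncomputable section

namespace Pool.Agent.LE.H3Z

open Pool.Agent.Anderson Pool.Agent.Loc Pool.Agent.LE

variable {d : ℕ}

/-- the hopping in the direction `i` -/
def h1 (i : Fin d) (y z : Site d) : ℝ :=
  (if z = y + Pi.single i 1 then 1 else 0) + (if z = y - Pi.single i 1 then 1 else 0)

theorem hop_eq (y z : Site d) : hop y z = ∑ i, h1 i y z := rfl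

theorem h1_nonneg (i : Fin d) (y z : Site d) : 0 ≤ h1 i y z := by
  unfold h1
  positivity

theorem h1_comm (i : Fin d) (y z : Site d) : h1 i y z = h1 i z y := by
  unfold h1
  have e1 : (z = y + Pi.single i 1) ↔ (y = z - Pi.single i 1) := by
    constructor
    · rintro rfl; simp
    · rintro rfl; simp
  have e2 : (z = y - Pi.single i 1) ↔ (y = z + Pi.single i 1) := by
    constructor
    · rintro rfl; simp
    · rintro rfl; simp
  simp only [e1, e2]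
  ring

theorem sum_h1_le (i : Fin d) (y : Site d) (Λ : Finset (Site d)) : ∑ z ∈ Λ, h1 i y z ≤ 2 := by
  unfold h1
  rw [Finset.sum_add_distrib, Finset.sum_ite_eq', Finset.sum_ite_eq']
  split_ifs <;> norm_num

/-- Schur's test for kernels dominated by the hopping in one direction -/
theorem schur1 (i : Fin d) (Λ : Finset (Site d)) (u : Site d → ℝ) {k : Site d → Site d → ℝ} {c : ℝ}
    (hc : 0 ≤ c) (hk : ∀ y z, |k y z| ≤ c * h1 i y z) :
    |∑ y ∈ Λ, ∑ z ∈ Λ, u y * k y z * u z| ≤ c * 2 * ∑ y ∈ Λ, u y ^ 2 := by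
  have h0 : ∀ y z, |u y * k y z * u z| ≤ c / 2 * (h1 i y z * u y ^ 2) +
      c / 2 * (h1 i y z * u z ^ 2) := by
    intro y z
    rw [abs_mul, abs_mul]
    have h2 := hk y z
    have h3 := h1_nonneg i y z
    have h4 : |u y| * |u z| ≤ (u y ^ 2 + u z ^ 2) / 2 := by
      have := two_mul_le_add_sq |u y| |u z|
      rw [sq_abs, sq_abs] at this
      linarith only [this]
    calc |u y| * |k y z| * |u z| = |k y z| * (|u y| * |u z|) := by ring
      _ ≤ (c * h1 i y z) * ((u y ^ 2 + u z ^ 2) / 2) := by gcongr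
      _ = _ := by ring
  calc |∑ y ∈ Λ, ∑ z ∈ Λ, u y * k y z * u z|
      ≤ ∑ y ∈ Λ, ∑ z ∈ Λ, |u y * k y z * u z| :=
        (Finset.abs_sum_le_sum_abs _ _).trans (Finset.sum_le_sum fun y _ =>
          Finset.abs_sum_le_sum_abs _ _)
    _ ≤ ∑ y ∈ Λ, ∑ z ∈ Λ, (c / 2 * (h1 i y z * u y ^ 2) + c / 2 * (h1 i y z * u z ^ 2)) :=
        Finset.sum_le_sum fun y _ => Finset.sum_le_sum fun z _ => h0 y z
    _ = c / 2 * ∑ y ∈ Λ, (∑ z ∈ Λ, h1 i y z) * u y ^ 2 +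
        c / 2 * ∑ z ∈ Λ, (∑ y ∈ Λ, h1 i z y) * u z ^ 2 := by
        simp_rw [Finset.sum_add_distrib]
        congr 1
        · simp_rw [Finset.sum_mul, Finset.mul_sum]
        · rw [Finset.sum_comm]
          simp_rw [Finset.sum_mul, Finset.mul_sum]
          apply Finset.sum_congr rfl
          intro z _
          apply Finset.sum_congr rfl
          intro y _
          rw [h1_comm i y z]
    _ ≤ c / 2 * ∑ y ∈ Λ, 2 * u y ^ 2 + c / 2 * ∑ z ∈ Λ, 2 * u z ^ 2 := by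
        have h5 : ∑ y ∈ Λ, (∑ z ∈ Λ, h1 i y z) * u y ^ 2 ≤ ∑ y ∈ Λ, 2 * u y ^ 2 :=
          Finset.sum_le_sum fun y _ => mul_le_mul_of_nonneg_right (sum_h1_le i y Λ) (sq_nonneg _)
        gcongr
    _ = _ := by
        rw [← Finset.mul_sum]
        ring

/-- the weighted hopping -/
theorem cosh_hop (i : Fin d) (κ : ℝ) (z z' : Site d) :
    (Real.cosh (κ * ((z i : ℝ) - z' i)) - 1) * hop z z' = (Real.cosh κ - 1) * h1 i z z' := by
  rw [hop_eq, Finset.mul_sum, Finset.sum_eq_single i]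
  · unfold h1
    by_cases e1 : z' = z + Pi.single i 1
    · have e2 : (z i : ℝ) - z' i = -1 := by
        rw [e1]
        simp
      rw [e2, mul_neg, mul_one, Real.cosh_neg]
    · by_cases e3 : z' = z - Pi.single i 1
      · have e2 : (z i : ℝ) - z' i = 1 := by
          rw [e3]
          simp
        rw [e2, mul_one]
      · rw [if_neg e1, if_neg e3]
        simp
  · intro j _ hj
    unfold h1
    by_cases e1 : z' = z + Pi.single j 1
    · have e2 : (z i : ℝ) - z' i = 0 := by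
        rw [e1]
        simp [Ne.symm hj]
      rw [e2, mul_zero, Real.cosh_zero, sub_self, zero_mul]
    · by_cases e3 : z' = z - Pi.single j 1
      · have e2 : (z i : ℝ) - z' i = 0 := by
          rw [e3]
          simp [Ne.symm hj]
        rw [e2, mul_zero, Real.cosh_zero, sub_self, zero_mul]
      · rw [if_neg e1, if_neg e3]
        simp
  · intro h
    exact absurd (Finset.mem_univ i) h

theorem cts : CtsStmt := by
  intro d V Λ E δ κ g hd hg hκ hδ hform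
  have hδ0 : 0 < δ := by
    have := Real.one_le_cosh κ
    linarith only [hg, hδ, this]
  have hLB : LB V Λ E 1 δ := fun u => by rw [one_mul]; exact hform u
  have hdet := Pool.Agent.LE.H3Y.det_ne hδ0 hLB
  refine ⟨hdet, fun x y => ?_⟩
  by_cases hxy : x ∈ Λ ∧ y ∈ Λ
  swap
  · unfold gr
    rw [dif_neg hxy, abs_zero]
    positivity
  obtain ⟨hx, hy⟩ := hxy
  obtain ⟨i, hi⟩ : ∃ i : Fin d, sd x y = (x i - y i).natAbs := by
    have hne : (Finset.univ : Finset (Fin d)).Nonempty := ⟨⟨0, hd⟩, Finset.mem_univ _⟩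
    obtain ⟨i, -, hi⟩ := Finset.exists_mem_eq_sup Finset.univ hne (fun i => (x i - y i).natAbs)
    exact ⟨i, hi⟩
  obtain ⟨τ, hτ, hτy⟩ : ∃ τ : ℝ, |τ| = κ ∧ τ * ((y i : ℝ) - x i) = κ * sd x y := by
    rw [hi]
    have e : (((x i - y i).natAbs : ℕ) : ℝ) = |(x i : ℝ) - y i| := by
      rw [Nat.cast_natAbs]
      push_cast
      rfl
    rw [e]
    rcases le_total (x i : ℝ) (y i : ℝ) with h | h
    · refine ⟨κ, abs_of_nonneg hκ, ?_⟩
      rw [abs_of_nonpos (by linarith only [h])]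
      ring
    · refine ⟨-κ, by rw [abs_neg, abs_of_nonneg hκ], ?_⟩
      rw [abs_of_nonneg (by linarith only [h])]
      ring
  have hcτ : Real.cosh τ = Real.cosh κ := by
    rw [← hτ, Real.cosh_abs]
  -- the weighted vector
  set w : Site d → ℝ := fun z => Real.exp (τ * ((z i : ℝ) - x i)) with hw
  have hw0 : ∀ z, 0 < w z := fun z => Real.exp_pos _
  set ψ : Site d → ℝ := fun z => w z * gr V Λ E x z with hψ
  have hwx : w x = 1 := by simp [hw]
  have heq : ∀ z ∈ Λ, ∑ z' ∈ Λ, gr V Λ E x z' * rm V E z' z = if x = z then 1 else 0 :=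
    fun z hz => gr_mul_rm hdet hx hz
  have hrm : ∀ z z', rm V E z z' = rm V E z' z := by
    intro z z'
    unfold rm
    rw [hop_comm]
    by_cases hzz : z = z'
    · subst hzz; simp
    · rw [if_neg hzz, if_neg (Ne.symm hzz)]
  -- the conjugated form
  have k1 : ∑ z ∈ Λ, ∑ z' ∈ Λ, ψ z * (w z / w z' * rm V E z z') * ψ z' = ψ x := by
    have h2 : ∀ z ∈ Λ, ∑ z' ∈ Λ, ψ z * (w z / w z' * rm V E z z') * ψ z' =
        if x = z then ψ z * w z else 0 := by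
      intro z hz
      have h3 : ∀ z', ψ z * (w z / w z' * rm V E z z') * ψ z' =
          ψ z * w z * (gr V Λ E x z' * rm V E z' z) := by
        intro z'
        have := (hw0 z').ne'
        rw [hrm z z']
        simp only [hψ]
        field_simp
      simp_rw [h3]
      rw [← Finset.mul_sum, heq z hz]
      split_ifs <;> ring
    rw [Finset.sum_congr rfl h2, Finset.sum_ite_eq, if_pos hx, hwx, mul_one]
  have k2 : ∑ z ∈ Λ, ∑ z' ∈ Λ, ψ z * (w z / w z' * rm V E z z') * ψ z' =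
      qform V Λ E ψ + ∑ z ∈ Λ, ∑ z' ∈ Λ, ψ z * ((w z / w z' - 1) * rm V E z z') * ψ z' := by
    unfold qform
    rw [← Finset.sum_add_distrib]
    apply Finset.sum_congr rfl
    intro z _
    rw [← Finset.sum_add_distrib]
    apply Finset.sum_congr rfl
    intro z' _
    ring
  have hcosh : 0 ≤ Real.cosh κ - 1 := by
    have := Real.one_le_cosh κ
    linarith only [this]
  have hsym : ∑ z ∈ Λ, ∑ z' ∈ Λ, ψ z * ((w z / w z' - 1) * rm V E z z') * ψ z' =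
      ∑ z ∈ Λ, ∑ z' ∈ Λ, ψ z * (((w z / w z' + w z' / w z) / 2 - 1) * rm V E z z') * ψ z' := by
    have e1 : ∑ z ∈ Λ, ∑ z' ∈ Λ, ψ z * ((w z / w z' - 1) * rm V E z z') * ψ z' =
        ∑ z ∈ Λ, ∑ z' ∈ Λ, ψ z * ((w z' / w z - 1) * rm V E z z') * ψ z' := by
      rw [Finset.sum_comm]
      refine Finset.sum_congr rfl fun z _ => Finset.sum_congr rfl fun z' _ => ?_
      rw [hrm z' z]
      ring
    have e2 : ∑ z ∈ Λ, ∑ z' ∈ Λ, ψ z * (((w z / w z' + w z' / w z) / 2 - 1) * rm V E z z') * ψ z' =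
        (∑ z ∈ Λ, ∑ z' ∈ Λ, ψ z * ((w z / w z' - 1) * rm V E z z') * ψ z' +
          ∑ z ∈ Λ, ∑ z' ∈ Λ, ψ z * ((w z' / w z - 1) * rm V E z z') * ψ z') / 2 := by
      rw [← Finset.sum_add_distrib, Finset.sum_div]
      refine Finset.sum_congr rfl fun z _ => ?_
      rw [← Finset.sum_add_distrib, Finset.sum_div]
      refine Finset.sum_congr rfl fun z' _ => ?_
      ring
    rw [e2, ← e1]
    ring
  have k3 : |∑ z ∈ Λ, ∑ z' ∈ Λ, ψ z * ((w z / w z' - 1) * rm V E z z') * ψ z'| ≤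
      (Real.cosh κ - 1) * 2 * ∑ z ∈ Λ, ψ z ^ 2 := by
    rw [hsym]
    apply schur1 i Λ ψ hcosh
    intro z z'
    by_cases hzz : z = z'
    · subst hzz
      rw [div_self (hw0 z).ne']
      norm_num
      exact mul_nonneg hcosh (h1_nonneg _ _ _)
    · have e1 : rm V E z z' = - hop z z' := by
        unfold rm
        rw [if_neg hzz]; ring
      have e2 : ∀ a b : Site d, w a / w b = Real.exp (τ * ((a i : ℝ) - b i)) := by
        intro a b
        simp only [hw]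
        rw [← Real.exp_sub]
        congr 1
        ring
      have e3 : (w z / w z' + w z' / w z) / 2 = Real.cosh (τ * ((z i : ℝ) - z' i)) := by
        rw [e2 z z', e2 z' z, Real.cosh_eq]
        congr 3
        ring
      have e5 := Real.one_le_cosh (τ * ((z i : ℝ) - z' i))
      rw [e1, abs_mul, abs_neg, abs_of_nonneg (hop_nonneg z z'), e3,
        abs_of_nonneg (by linarith only [e5]), cosh_hop, hcτ]
  have h4 := hform ψ
  set S := ∑ z ∈ Λ, ψ z ^ 2 with hS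
  have hS0 : 0 ≤ S := Finset.sum_nonneg fun z _ => sq_nonneg _
  rw [k2] at k1
  generalize (∑ z ∈ Λ, ∑ z' ∈ Λ, ψ z * ((w z / w z' - 1) * rm V E z z') * ψ z') = T at k1 k3
  have h5 : qform V Λ E ψ = ψ x - T := by linarith only [k1]
  have h6 : qform V Λ E ψ ≤ |ψ x| + (Real.cosh κ - 1) * 2 * S := by
    calc qform V Λ E ψ ≤ |qform V Λ E ψ| := le_abs_self _
      _ ≤ |ψ x| + |T| := by
          rw [h5]; exact abs_sub _ _
      _ ≤ |ψ x| + (Real.cosh κ - 1) * 2 * S := by linarith only [k3]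
  have h7 : g * S ≤ |ψ x| := by
    have h8 : (2 * (Real.cosh κ - 1) + g) * S ≤ δ * S := mul_le_mul_of_nonneg_right hδ hS0
    nlinarith only [h4, h6, h8]
  have hle : ∀ z ∈ Λ, ψ z ^ 2 ≤ S := fun z hz =>
    Finset.single_le_sum (f := fun z => ψ z ^ 2) (fun z _ => sq_nonneg _) hz
  have h8 : |ψ x| ≤ √S := Real.abs_le_sqrt (hle x hx)
  have h9 : √S ≤ 1 / g := by
    rcases eq_or_lt_of_le (Real.sqrt_nonneg S) with h0 | h0
    · rw [← h0]; positivity
    · have h10 : g * (√S * √S) ≤ √S := by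
        rw [Real.mul_self_sqrt hS0]; linarith only [h7, h8]
      rw [le_div_iff₀ hg]
      have h11 : (g * √S) * √S ≤ 1 * √S := by linarith only [h10]
      have := le_of_mul_le_mul_right h11 h0
      linarith only [this]
  have h10 : |ψ y| ≤ 1 / g := (Real.abs_le_sqrt (hle y hy)).trans h9
  simp only [hψ, hw, abs_mul, abs_of_pos (Real.exp_pos _)] at h10
  rw [hτy] at h10
  calc |gr V Λ E x y| = Real.exp (κ * sd x y) * |gr V Λ E x y| * Real.exp (-κ * sd x y) := by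
        rw [mul_comm (Real.exp _), mul_assoc, ← Real.exp_add]
        simp
    _ ≤ 1 / g * Real.exp (-κ * sd x y) := by gcongr

end Pool.Agent.LE.H3Z
end
end -- Pool.Agent.Helper3_LSH.CTS

section -- Pool.Agent.Helper72_LSH.MTR

/-!
# MTR: triangle inequality for the means
-/

set_option autoImplicit false

open MeasureTheory ProbabilityTheory Function Filter

open scoped ENNReal BigOperators Topology NNReal

noncomputable section

namespace Pool.Agent.LE.H72Z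

open Pool.Agent.Anderson Pool.Agent.Loc Pool.Agent.Mob Pool.Agent.Helper54.Bal
  Pool.Agent.Helper96.EXP

theorem gmax_single {d : ℕ} (V : Site d → ℝ) (Λ : Finset (Site d)) (E : ℝ) (x y : Site d) :
    gmax V Λ E {x} y = |gr V Λ E x y| := by
  unfold gmax
  rw [Finset.sup_singleton, coe_nnnorm, Real.norm_eq_abs]

/-- exponential tails give a bound of the mean -/
theorem mean_tail {Ω : Type} [MeasurableSpace Ω] (P : Measure Ω) [IsProbabilityMeasure P]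
    {f : Ω → ℝ} (hm : Measurable f) (hf : Integrable f P) {a : ℝ}
    (h : ∀ t : ℝ, 0 < t → P {ω | t + a < f ω} ≤ ENNReal.ofReal (Real.exp (-t))) :
    ∫ ω, f ω ∂P ≤ a + 1 := by
  have hg : Measurable fun ω => max 0 (f ω - a) := measurable_const.max (hm.sub_const a)
  have hgi : Integrable (fun ω => max 0 (f ω - a)) P := by
    have h1 : Integrable (fun ω => f ω - a) P := hf.sub (integrable_const a)
    have h2 := h1.pos_part
    refine h2.congr (Filter.Eventually.of_forall fun ω => ?_)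
    exact max_comm _ _
  have h1 : ∫⁻ ω, ENNReal.ofReal (max 0 (f ω - a)) ∂P ≤ ENNReal.ofReal 1 := by
    have hnn : 0 ≤ᵐ[P] fun ω => max 0 (f ω - a) :=
      Filter.Eventually.of_forall fun ω => le_max_left _ _
    rw [lintegral_eq_lintegral_meas_lt P hnn hg.aemeasurable]
    calc ∫⁻ t in Set.Ioi (0 : ℝ), P {ω | t < max 0 (f ω - a)}
        ≤ ∫⁻ t in Set.Ioi (0 : ℝ), ENNReal.ofReal (Real.exp (-t)) := by
          refine setLIntegral_mono_ae (by fun_prop) (Filter.Eventually.of_forall fun t ht => ?_)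
          have ht0 : (0 : ℝ) < t := ht
          refine le_trans (measure_mono fun ω hω => ?_) (h t ht0)
          rw [Set.mem_ofPred_eq] at hω ⊢
          rcases lt_max_iff.1 hω with h3 | h3
          · linarith
          · linarith
      _ = ENNReal.ofReal (∫ t in Set.Ioi (0 : ℝ), Real.exp (-t)) := by
          rw [ofReal_integral_eq_lintegral_ofReal]
          · exact integrableOn_exp_neg_Ioi 0
          · exact Filter.Eventually.of_forall fun t => (Real.exp_pos _).le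
      _ = ENNReal.ofReal 1 := by rw [integral_exp_neg_Ioi_zero]
  have h2 : ∫ ω, max 0 (f ω - a) ∂P ≤ 1 := by
    have hnn : 0 ≤ᵐ[P] fun ω => max 0 (f ω - a) :=
      Filter.Eventually.of_forall fun ω => le_max_left _ _
    rw [integral_eq_lintegral_of_nonneg_ae hnn hg.aestronglyMeasurable]
    have h3 := ENNReal.toReal_mono ENNReal.ofReal_ne_top h1
    rwa [ENNReal.toReal_ofReal zero_le_one] at h3
  calc ∫ ω, f ω ∂P ≤ ∫ ω, (a + max 0 (f ω - a)) ∂P := by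
        refine integral_mono hf ((integrable_const a).add hgi) fun ω => ?_
        have := le_max_right 0 (f ω - a)
        simp only
        linarith
    _ = a + ∫ ω, max 0 (f ω - a) ∂P := by
        rw [integral_add (integrable_const a) hgi, integral_const, probReal_univ, one_smul]
    _ ≤ a + 1 := by linarith

/-- MTR -/
theorem mtr (hv : VtrStmt) (hF : FmnStmt) : MtrStmt := by
  intro d N σ E x u y hd hσ hσ1 hx hu hy
  obtain ⟨C, hC, hCN⟩ := hF d σ E hd hσ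
  obtain ⟨hfam, hz⟩ := hCN N
  have hs0 : 0 < |σ| := abs_pos.2 hσ
  have hint : ∀ a ∈ box (0 : Site d) N, ∀ b ∈ box (0 : Site d) N,
      Integrable (fun V => DL (box 0 N) E V a b) (PP d (gl σ)) := by
    intro a ha b hb
    have h1 : MemLp (fun V => DL (box 0 N) E V a b) 2 (PP d (gl σ)) :=
      (memLp_two_iff_integrable_sq (hfam.meas a b).aestronglyMeasurable).2 (hfam.int a ha b hb)
    exact h1.integrable one_le_two
  refine ⟨hint x hx y hy, ?_⟩
  set f : (Site d → ℝ) → ℝ := fun V =>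
    DL (box 0 N) E V x y - DL (box 0 N) E V x u - DL (box 0 N) E V u y with hf
  have hfm : Measurable f := ((hfam.meas x y).sub (hfam.meas x u)).sub (hfam.meas u y)
  have hfi : Integrable f (PP d (gl σ)) :=
    ((hint x hx y hy).sub (hint x hx u hu)).sub (hint u hu y hy)
  have hK : 0 < 8 / |σ| := by positivity
  have key : ∫ V, f V ∂(PP d (gl σ)) ≤ Real.log (8 / |σ|) + 1 := by
    refine mean_tail (PP d (gl σ)) hfm hfi fun t ht => ?_
    have e1 := hv d σ E (Real.exp (t + Real.log (8 / |σ|))) (box 0 N) {x} u y hσ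
      (Real.exp_pos _)
    simp only [gmax_single] at e1
    have hincl : {V : Site d → ℝ | t + Real.log (8 / |σ|) < f V} ⊆
        (({V | gr V (box 0 N) E x y = 0} ∪ {V | gr V (box 0 N) E x u = 0}) ∪
          {V | gr V (box 0 N) E u y = 0}) ∪
        {V | Real.exp (t + Real.log (8 / |σ|)) * |gr V (box 0 N) E x y| <
          |gr V (box 0 N) E x u| * |gr V (box 0 N) E u y|} := by
      intro V hV
      rw [Set.mem_ofPred_eq] at hV
      by_cases h1 : gr V (box 0 N) E x y = 0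
      · exact Or.inl (Or.inl (Or.inl h1))
      by_cases h2 : gr V (box 0 N) E x u = 0
      · exact Or.inl (Or.inl (Or.inr h2))
      by_cases h3 : gr V (box 0 N) E u y = 0
      · exact Or.inl (Or.inr h3)
      refine Or.inr ?_
      rw [Set.mem_ofPred_eq]
      have p1 : 0 < |gr V (box 0 N) E x y| := abs_pos.2 h1
      have p2 : 0 < |gr V (box 0 N) E x u| := abs_pos.2 h2
      have p3 : 0 < |gr V (box 0 N) E u y| := abs_pos.2 h3
      rw [← Real.log_lt_log_iff (mul_pos (Real.exp_pos _) p1) (mul_pos p2 p3),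
        Real.log_mul (Real.exp_pos _).ne' p1.ne', Real.log_mul p2.ne' p3.ne', Real.log_exp]
      simp only [hf, DL] at hV
      linarith
    refine (measure_mono hincl).trans ((measure_union_le _ _).trans ?_)
    have z0 : PP d (gl σ) (({V | gr V (box 0 N) E x y = 0} ∪ {V | gr V (box 0 N) E x u = 0}) ∪
          {V | gr V (box 0 N) E u y = 0}) = 0 :=
      measure_union_null (measure_union_null (hz x hx y hy) (hz x hx u hu)) (hz u hu y hy)
    rw [z0, zero_add]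
    refine e1.trans (ENNReal.ofReal_le_ofReal (le_of_eq ?_))
    rw [Real.exp_add, Real.exp_log hK, Real.exp_neg]
    field_simp
  have hsub : ∫ V, f V ∂(PP d (gl σ)) = ∫ V, DL (box 0 N) E V x y ∂(PP d (gl σ)) -
      ∫ V, DL (box 0 N) E V x u ∂(PP d (gl σ)) - ∫ V, DL (box 0 N) E V u y ∂(PP d (gl σ)) := by
    have q1 : Integrable (fun V => DL (box 0 N) E V x y - DL (box 0 N) E V x u) (PP d (gl σ)) :=
      (hint x hx y hy).sub (hint x hx u hu)
    simp only [hf]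
    rw [integral_sub q1 (hint u hu y hy), integral_sub (hint x hx y hy) (hint x hx u hu)]
  have hlog : Real.log (8 / |σ|) ≤ 7 + Real.log (1 / |σ|) := by
    have h8 : Real.log 8 ≤ 7 := by
      have := Real.log_le_sub_one_of_pos (show (0 : ℝ) < 8 by norm_num)
      linarith
    rw [Real.log_div (by norm_num) hs0.ne', Real.log_div one_ne_zero hs0.ne', Real.log_one]
    linarith
  rw [hsub] at key
  linarith

end Pool.Agent.LE.H72Z
end
end -- Pool.Agent.Helper72_LSH.MTR
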