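import Pool.Agent.Helper12_MEB.B007
import Pool.Agent.Helper12_MEB.B036

/-!
# Merged copies (generated) of the modules

* `Pool.Agent.Helper93_LEW.WBE`
* `Pool.Agent.Helper93_LEW.QME`
* `Pool.Agent.Helper93_LSH.QMS`
-/

set_option autoImplicit false

section -- Pool.Agent.Helper93_LEW.WBE

/-!
# WBE: the Lyapunov exponent near the band edge
-/

set_option autoImplicit false

open MeasureTheory ProbabilityTheory Function Filter

open scoped ENNReal BigOperators Topology

noncomputable section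

namespace Pool.Agent.LE.H93W

open Pool.Agent.Anderson Pool.Agent.Loc Pool.Agent.Mob Pool.Agent.Helper54.Bal Pool.Agent.BED

/-- the failure probability is at most `t ^ (-2)` -/
theorem p_le {d : ℕ} {c0 C0 c σ t : ℝ} {M' : ℕ} (hd : 3 ≤ d) (hc0 : 0 < c0) (hC0 : 0 < C0)
    (hc : 0 < c) (hσ : σ ≠ 0) (ht : 11 ≤ t) (hcc : c * (d + 5) ≤ c0)
    (hM' : (M' : ℝ) ≤ 3 * t) (hu : σ ^ 2 * growth d t * Real.log t ≤ c)
    (htC : C0 * 3 ^ d ≤ t ^ 2) :
    C0 * (1 + Real.log t) * (M' : ℝ) ^ d * Real.exp (-c0 / (σ ^ 2 * growth d t)) ≤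
      1 / t ^ 2 := by
  have ht0 : 0 < t := by linarith only [ht]
  have hgr := one_le_growth d (by linarith only [ht] : (1 : ℝ) ≤ t)
  have hσ2 : 0 < σ ^ 2 := by positivity
  have hu0 : 0 < σ ^ 2 * growth d t := by positivity
  have hlog : 0 ≤ Real.log t := Real.log_nonneg (by linarith only [ht])
  have h1 : (d + 5 : ℝ) * Real.log t ≤ c0 / (σ ^ 2 * growth d t) := by
    rw [le_div_iff₀ hu0]
    calc (d + 5 : ℝ) * Real.log t * (σ ^ 2 * growth d t) =
          (σ ^ 2 * growth d t * Real.log t) * (d + 5) := by ring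
      _ ≤ c * (d + 5) := mul_le_mul_of_nonneg_right hu (by positivity)
      _ ≤ c0 := hcc
  have h2 : Real.exp (-c0 / (σ ^ 2 * growth d t)) ≤ 1 / t ^ (d + 5) := by
    have h3 : Real.exp (-c0 / (σ ^ 2 * growth d t)) ≤
        Real.exp (-((d + 5 : ℝ) * Real.log t)) := by
      apply Real.exp_le_exp.2
      rw [neg_div]
      linarith only [h1]
    refine h3.trans (le_of_eq ?_)
    rw [Real.exp_neg, one_div]
    congr 1
    have : (d + 5 : ℝ) * Real.log t = ((d + 5 : ℕ) : ℝ) * Real.log t := by push_cast; ring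
    rw [this, Real.exp_nat_mul, Real.exp_log ht0]
  have h3 : 1 + Real.log t ≤ t := by
    have := Real.log_le_sub_one_of_pos ht0
    linarith only [this]
  have h4 : (M' : ℝ) ^ d ≤ 3 ^ d * t ^ d := by
    rw [← mul_pow]
    exact pow_le_pow_left₀ (Nat.cast_nonneg _) hM' d
  calc C0 * (1 + Real.log t) * (M' : ℝ) ^ d * Real.exp (-c0 / (σ ^ 2 * growth d t))
      ≤ C0 * t * (3 ^ d * t ^ d) * (1 / t ^ (d + 5)) := by gcongr
    _ = (C0 * 3 ^ d) / t ^ 4 := by
        field_simp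
        ring
    _ ≤ t ^ 2 / t ^ 4 := by gcongr
    _ = _ := by
        field_simp

/-- the core: `z` is any energy at which the cubes conduct -/
theorem wbeZ (crt : CrtStmt) (osc : OscBStmt) (nux : NuxStmt) (inf : InfStmt) {d : ℕ}
    (hd : 1 ≤ d) {C1 : ℝ} (hC1 : 1 ≤ C1) :
    ∃ c C : ℝ, 0 < c ∧ c ≤ 1 / 4 ∧ 0 < C ∧ ∀ (M' : ℕ) (σ t p z : ℝ), σ ≠ 0 → |σ| ≤ c →
      1 / |σ| ≤ t → t + 2 ≤ M' → 0 < p → p ≤ 1 / t → |z| ≤ 2 * d + 1 →
      (∀ (s M N : ℕ) (E lam : ℝ) (c : Site d), |E - z| ≤ lam →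
        C1 * lam * (8 * (M * s) + 3 : ℝ) ^ d ≤ 1 → C1 * (8 * (M * s) + 3 : ℝ) ^ d ≤ t →
        8 * (M * s) + 5 ≤ M' → Real.log (16 * d * (8 * (M * s) + 3 : ℝ) ^ d) ≤ s / 2 →
        box c (4 * (M * s) + 2) ⊆ box 0 N →
          PP d (gl σ) {V | ¬ ∀ j : ℕ, 1 ≤ j → j ≤ M → ∃ y : Site d,
            (sd c y = 4 * j * s ∨ sd c y = 4 * j * s + 1) ∧ DL (box 0 N) E V c y ≤ s / 2} ≤
              ENNReal.ofReal p) →
      ∀ E g : ℝ, |E - z| ≤ |σ| → LyaAt d σ E g → g ≤ C * (|E - z| + 1 / t) ^ c := by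
  have hdR : (0 : ℝ) < d := by exact_mod_cast (by omega : 0 < d)
  obtain ⟨A, hA, hosc⟩ := osc d (2 * d + 2) hd (by positivity)
  obtain ⟨q, cN, hdq, hcN, hN⟩ := nux d A C1 hd hA hC1
  obtain ⟨C', hC', hosc'⟩ := hosc q
  obtain ⟨CN, hCN, hNN⟩ := hN C' hC'
  obtain ⟨c, hcdef⟩ : ∃ c : ℝ, c = min cN (1 / (4 * CN)) := ⟨_, rfl⟩
  have hc : 0 < c := by rw [hcdef]; positivity
  have hc1 : c ≤ cN := by rw [hcdef]; exact min_le_left _ _
  have hc3 : 4 * CN * c ≤ 1 := by
    have : c ≤ 1 / (4 * CN) := by rw [hcdef]; exact min_le_right _ _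
    rw [le_div_iff₀ (by positivity)] at this
    linarith only [this]
  have hc6 : c ≤ 1 / 4 := by
    have : 1 * c ≤ CN * c := mul_le_mul_of_nonneg_right hCN hc.le
    linarith only [hc3, this]
  refine ⟨c, 2 * CN, hc, hc6, by positivity, ?_⟩
  intro M' σ t p z hσ hσc hσt hM' hp0 hpt hz hcond E g hE hg
  have hσ0 : 0 < |σ| := abs_pos.2 hσ
  have hσ1 : |σ| ≤ 1 := by linarith only [hc, hc6, hσc]
  have ht0 : 0 < t := lt_of_lt_of_le (by positivity) hσt
  have h1t : 1 / t ≤ |σ| := by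
    rw [div_le_iff₀ ht0]
    rw [div_le_iff₀ hσ0] at hσt
    linarith only [hσt]
  obtain ⟨lam, hlam⟩ : ∃ lam : ℝ, lam = |E - z| + 1 / t := ⟨_, rfl⟩
  rw [← hlam]
  have h1t0 : 0 < 1 / t := by positivity
  have hEz := abs_nonneg (E - z)
  have hlam0 : 0 < lam := by rw [hlam]; linarith only [hp0, hpt, hEz]
  have hlam2 : lam ≤ 2 * |σ| := by rw [hlam]; linarith only [hE, h1t]
  have hlamt : 1 / t ≤ lam := by rw [hlam]; linarith only [hEz]
  have hlam1 : lam ≤ 1 := by linarith only [hc, hc6, hσc, hE, h1t, hlam]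
  have hzE : |E| ≤ 2 * d + 2 := by
    have h3 : |E| ≤ |E - z| + |z| := by
      have := abs_add_le (E - z) z
      rwa [sub_add_cancel] at this
    linarith only [hc, hc6, hσc, hz, hE, h3]
  obtain ⟨X, hX⟩ : ∃ X : ℝ, X = 1 / lam := ⟨_, rfl⟩
  have hX0 : 0 < X := by rw [hX]; positivity
  have hXl : 1 / X = lam := by rw [hX, one_div_one_div]
  have hXC : CN ≤ X := by
    rw [hX, le_div_iff₀ hlam0]
    have : CN * lam ≤ CN * (2 * c) := mul_le_mul_of_nonneg_left (by linarith only [hσc, hE, h1t, hlam]) (by linarith only [hCN, hc, hc6])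
    linarith only [hc, hc3, hc6, this]
  have hXσ : 1 / |σ| ≤ 2 * X := by
    rw [hX, div_le_iff₀ hσ0]
    have : 2 * (1 / lam) * |σ| = 2 * |σ| / lam := by ring
    rw [this, le_div_iff₀ hlam0, one_mul]
    exact hlam2
  have hXt : X ≤ t := by
    rw [hX, div_le_iff₀ hlam0]
    rw [div_le_iff₀ ht0] at hlamt
    linarith only [hlamt]
  by_contra hcon
  push Not at hcon
  obtain ⟨κ, hκ⟩ : ∃ κ : ℝ, κ = CN * X ^ (-cN) := ⟨_, rfl⟩
  have hXp : X ^ (-cN) = lam ^ cN := by
    rw [← hXl, one_div, Real.inv_rpow hX0.le, Real.rpow_neg hX0.le]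
  have hκ0 : 0 < κ := by
    rw [hκ]
    have : 0 < X ^ (-cN) := Real.rpow_pos_of_pos hX0 _
    positivity
  have hκg : 2 * κ < g := by
    refine lt_of_le_of_lt ?_ hcon
    rw [hκ, hXp]
    have h1 : lam ^ cN ≤ lam ^ c := Real.rpow_le_rpow_of_exponent_ge hlam0 hlam1 hc1
    have h3 : CN * lam ^ cN ≤ CN * lam ^ c := mul_le_mul_of_nonneg_left h1 (by linarith only [hCN, hc, hc6])
    linarith only [h3]
  obtain ⟨s, M, cs, hs, hM, hcs, hr1, hr2, hr3, hr4⟩ := hNN σ κ X p hσ hσ1 hXC hXσ hp0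
    (by rw [hXl]; exact hpt.trans hlamt) (by rw [hκ])
  have hs0 : (0 : ℝ) < s := by exact_mod_cast (by omega : 0 < s)
  have hcs0 : 0 < cs := by linarith only [hc, hc6, hcs]
  have hy0 : 0 < C' * |σ| ^ (-A) * (s : ℝ) ^ (q + d + 1) / (cs * s) ^ q := by
    have : 0 < |σ| ^ (-A) := Real.rpow_pos_of_pos hσ0 _
    positivity
  obtain ⟨L₀, hL₀⟩ := crt d s M q σ E κ cs p
    (C' * |σ| ^ (-A) * (s : ℝ) ^ (q + d + 1) / (cs * s) ^ q) hd hσ hs hM hdq hcs hκ0
    hp0 hy0 hr4
    (fun N S c hS hSN hc => by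
      refine (hosc' σ E N s S c hσ hσ1 hzE hs hS hSN hc).trans (ENNReal.ofReal_le_ofReal ?_)
      rw [div_mul_cancel₀ _ (by positivity)])
    (fun N c hc => by
      refine hcond s M N E lam c (by rw [hlam]; linarith only [hp0, hpt]) ?_ (hr1.trans hXt) ?_ hr3 hc
      · have h1 : C1 * lam * (8 * (M * s) + 3 : ℝ) ^ d =
            lam * (C1 * (8 * (M * s) + 3 : ℝ) ^ d) := by ring
        rw [h1]
        calc lam * (C1 * (8 * (M * s) + 3 : ℝ) ^ d) ≤ lam * X :=
              mul_le_mul_of_nonneg_left hr1 hlam0.le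
          _ = 1 := by rw [hX]; field_simp
      · have h1 : ((8 * (M * s) + 5 : ℕ) : ℝ) ≤ (M' : ℕ) := by
          push_cast
          linarith only [hM', hXt, hr2]
        exact_mod_cast h1)
  obtain ⟨L, N, a, hL, hbox, hP⟩ := inf d σ E g (2 * κ) hd hσ hg (by linarith only [hκ0]) hκg L₀
  refine hL₀ L N a hL hbox ?_
  have e : 2 * κ / 2 = κ := by ring
  rw [e] at hP
  exact hP

theorem wbe (crt : CrtStmt) (osc : OscBStmt) (cpf : CpfStmt) (nux : NuxStmt) (inf : InfStmt) :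
    WbeStmt := by
  intro d hd3
  have hd : 1 ≤ d := by omega
  have hdR : (0 : ℝ) < d := by exact_mod_cast (by omega : 0 < d)
  obtain ⟨c0, C0, C1, hc0, hC0, hC1, hcpf⟩ := cpf d hd3
  obtain ⟨cN, CN, hcN, hcN4, hCN, hcore⟩ := wbeZ crt osc nux inf hd hC1
  obtain ⟨c, hcdef⟩ : ∃ c : ℝ, c = min (min cN (c0 / (d + 5)))
    (min (1 / (C0 * 3 ^ d + 12)) (1 / (4 * C0 + 1))) := ⟨_, rfl⟩
  have hc : 0 < c := by rw [hcdef]; positivity
  have hc1 : c ≤ cN := by
    rw [hcdef]; exact (min_le_left _ _).trans (min_le_left _ _)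
  have hc2 : c * (d + 5) ≤ c0 := by
    have : c ≤ c0 / (d + 5) := by
      rw [hcdef]; exact (min_le_left _ _).trans (min_le_right _ _)
    rwa [le_div_iff₀ (by positivity)] at this
  have hc4 : (C0 * 3 ^ d + 12) * c ≤ 1 := by
    have : c ≤ 1 / (C0 * 3 ^ d + 12) := by
      rw [hcdef]; exact (min_le_right _ _).trans (min_le_left _ _)
    rw [le_div_iff₀ (by positivity)] at this
    linarith only [this]
  have hc5 : (4 * C0 + 1) * c ≤ 1 := by
    have : c ≤ 1 / (4 * C0 + 1) := by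
      rw [hcdef]; exact (min_le_right _ _).trans (min_le_right _ _)
    rw [le_div_iff₀ (by positivity)] at this
    linarith only [this]
  have hc6 : c ≤ 1 / 4 := hc1.trans hcN4
  refine ⟨c, 2 * C0 + CN, hc, by positivity, ?_⟩
  intro σ t hσ hσc hσt hu
  have hσ0 : 0 < |σ| := abs_pos.2 hσ
  have hσ1 : |σ| ≤ 1 := by linarith only [hcN, hcN4, hc1, hσc]
  have ht1c : 1 / c ≤ t := (one_div_le_one_div_of_le hσ0 hσc).trans hσt
  have hct : 1 ≤ c * t := by
    rw [div_le_iff₀ hc] at ht1c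
    linarith only [ht1c]
  have ht0 : 0 < t := lt_of_lt_of_le (by positivity) hσt
  have htb : C0 * 3 ^ d + 12 ≤ t := by
    have h1 : (C0 * 3 ^ d + 12) * (c * t) ≤ 1 * t := by
      rw [← mul_assoc]
      exact mul_le_mul_of_nonneg_right hc4 ht0.le
    have h2 : (C0 * 3 ^ d + 12) * 1 ≤ (C0 * 3 ^ d + 12) * (c * t) :=
      mul_le_mul_of_nonneg_left hct (by positivity)
    linarith only [h1, h2]
  have hC3 : 0 < C0 * 3 ^ d := by positivity
  have ht12 : 12 ≤ t := by linarith only [htb, hC3]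
  have htt : t * 12 ≤ t * t := mul_le_mul_of_nonneg_left ht12 ht0.le
  obtain ⟨M', hM'⟩ : ∃ M' : ℕ, M' = ⌈t⌉₊ + 10 := ⟨_, rfl⟩
  have hM1 : t + 2 ≤ M' := by
    rw [hM']
    push_cast
    have := Nat.le_ceil t
    linarith only [hcN, hcN4, this]
  have hM2 : (M' : ℝ) ≤ 3 * t := by
    rw [hM']
    push_cast
    have := Nat.ceil_lt_add_one ht0.le
    linarith only [hcN, hcN4, htb, hC3, this]
  obtain ⟨p, hp⟩ : ∃ p : ℝ, p = C0 * (1 + Real.log t) * (M' : ℝ) ^ d *
    Real.exp (-c0 / (σ ^ 2 * growth d t)) := ⟨_, rfl⟩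
  have hM0 : (0 : ℝ) < M' := by linarith only [hcN, hcN4, htb, hC3, hM1]
  have hlog : 0 ≤ Real.log t := Real.log_nonneg (by linarith only [hcN, hcN4, htb, hC3])
  have hp0 : 0 < p := by rw [hp]; positivity
  have hpt : p ≤ 1 / t ^ 2 := by
    rw [hp]
    refine p_le hd3 hc0 hC0 hc hσ (by linarith only [hcN, hcN4, htb, hC3]) hc2 hM2 hu ?_
    rw [pow_two]
    linarith only [hcN, hcN4, htb, hC3, htt]
  have hpt1 : p ≤ 1 / t := by
    refine hpt.trans (one_div_le_one_div_of_le ht0 ?_)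
    rw [pow_two]
    linarith only [hcN, hcN4, htb, hC3, htt]
  have hp2 : p ≤ 1 / 2 := hpt1.trans (one_div_le_one_div_of_le (by norm_num) (by linarith only [hcN, hcN4, htb, hC3]))
  have hsq : Real.sqrt p ≤ 1 / t := by
    rw [Real.sqrt_le_left (by positivity)]
    refine hpt.trans (le_of_eq ?_)
    rw [div_pow, one_pow]
  have hM3 : 3 ≤ M' := by omega
  obtain ⟨z, hz, hcond⟩ := hcpf M' σ t p hσ hσ1 hM3 (by linarith only [hcN, hcN4, htb, hC3]) (by linarith only [hcN, hcN4, hM1]) hp hp2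
  have h1t : 1 / t ≤ |σ| := by
    rw [div_le_iff₀ ht0]
    rw [div_le_iff₀ hσ0] at hσt
    linarith only [hσt]
  have hσsq : σ ^ 2 ≤ |σ| := by
    rw [← sq_abs, pow_two]
    have := mul_le_mul_of_nonneg_left hσ1 hσ0.le
    linarith only [this]
  have hσsq0 := sq_nonneg σ
  have h1t0 : 0 < 1 / t := by positivity
  have hz2 : |z - 2 * d| ≤ 2 * C0 * (σ ^ 2 + 1 / t) := by
    refine hz.trans ?_
    have h1 : σ ^ 2 + 1 / t + Real.sqrt p ≤ 2 * (σ ^ 2 + 1 / t) := by linarith only [hsq, hσsq0]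
    have := mul_le_mul_of_nonneg_left h1 hC0.le
    linarith only [this]
  have hz1 : |z| ≤ 2 * d + 1 := by
    have h1 : |z - 2 * d| ≤ 1 := by
      refine hz2.trans ?_
      have h3 : σ ^ 2 + 1 / t ≤ 2 * c := by linarith only [hσc, h1t, hσsq]
      calc 2 * C0 * (σ ^ 2 + 1 / t) ≤ 2 * C0 * (2 * c) :=
            mul_le_mul_of_nonneg_left h3 (by positivity)
        _ ≤ 1 := by linarith only [hc, hc5]
    have h2 := abs_add_le (z - 2 * d) (2 * d)
    rw [sub_add_cancel, abs_of_nonneg (by positivity : (0 : ℝ) ≤ 2 * d)] at h2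
    linarith only [h1, h2]
  refine ⟨z, ?_, ?_⟩
  · refine hz2.trans ?_
    have h0 : 0 ≤ σ ^ 2 + 1 / t := by positivity
    exact mul_le_mul_of_nonneg_right (by linarith only [hCN]) h0
  intro E g hE hg
  refine (hcore M' σ t p z hσ (hσc.trans hc1) hσt hM1 hp0 hpt1 hz1 hcond E g hE hg).trans ?_
  have hb0 : 0 < |E - z| + 1 / t := by
    have := abs_nonneg (E - z)
    linarith only [hp0, hpt1, this]
  have hb1 : |E - z| + 1 / t ≤ 1 := by linarith only [hcN, hcN4, hc1, hσc, h1t, hE]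
  have h1 : (|E - z| + 1 / t) ^ cN ≤ (|E - z| + 1 / t) ^ c :=
    Real.rpow_le_rpow_of_exponent_ge hb0 hb1 hc1
  have h2 : 0 ≤ (|E - z| + 1 / t) ^ c := Real.rpow_nonneg hb0.le _
  calc CN * (|E - z| + 1 / t) ^ cN ≤ CN * (|E - z| + 1 / t) ^ c :=
        mul_le_mul_of_nonneg_left h1 hCN.le
    _ ≤ (2 * C0 + CN) * (|E - z| + 1 / t) ^ c :=
        mul_le_mul_of_nonneg_right (by linarith only [hC0]) h2

end Pool.Agent.LE.H93W
end
end -- Pool.Agent.Helper93_LEW.WBE

section -- Pool.Agent.Helper93_LEW.QME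

/-!
# QME: the effective band edge
-/

set_option autoImplicit false

open MeasureTheory ProbabilityTheory Function Filter

open scoped ENNReal BigOperators Topology NNReal

noncomputable section

namespace Pool.Agent.LE.H93W

open Pool.Agent.Anderson Pool.Agent.Loc Pool.Agent.Mob Pool.Agent.Helper54.Bal Pool.Agent.BED

/-- decay with a probability tending to one bounds the Lyapunov exponent from below -/
theorem le_of_allGood {d : ℕ} {σ E g m : ℝ} (hg : LyaAt d σ E g)
    (h : Tendsto (fun M : ℕ => PP d (gl σ) {V | ¬ AllGoodC V 0 M m E}) atTop (𝓝 0)) :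
    m ≤ g := by
  by_contra hcon
  push Not at hcon
  have h3 := (hg.2 (m - g) (by linarith only [hcon])).1
  have e2 : g + (m - g) = m := by ring
  rw [e2] at h3
  have h4 : Tendsto (fun M : ℕ => PP d (gl σ) {V | ¬ SG V M m E 0}) atTop (𝓝 0) := by
    refine tendsto_of_tendsto_of_tendsto_of_le_of_le tendsto_const_nhds h
      (fun M => zero_le) (fun M => measure_mono ?_)
    intro V hV hg
    exact hV (hg 0 (by rw [mem_box, sd_self]; exact Nat.zero_le _))
  have h5 := h3.add h4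
  rw [add_zero] at h5
  have h6 : (1 : ℝ≥0∞) ≤ 0 := by
    refine ge_of_tendsto' h5 fun M => ?_
    rw [← measure_univ (μ := PP d (gl σ))]
    refine (measure_mono ?_).trans (measure_union_le _ _)
    intro V _
    by_cases hV : SG V M m E 0
    · exact Or.inl hV
    · exact Or.inr hV
  exact absurd h6 (by norm_num)

/-- `K (1 + log t) ≤ √t` for large `t` -/
theorem log_le_sqrt (K : ℝ) : ∃ T₀ : ℝ, 1 ≤ T₀ ∧ ∀ t : ℝ, T₀ ≤ t →
    K * (1 + Real.log t) ≤ Real.sqrt t := by
  have h1 : Tendsto (fun x : ℝ => x / (1 + 2 * Real.log x)) atTop atTop := by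
    have h2 : Tendsto (fun x : ℝ => (1 + 2 * Real.log x) / x) atTop (𝓝 0) := by
      have h3 : Tendsto (fun x : ℝ => Real.log x / x) atTop (𝓝 0) := by
        have := Real.tendsto_pow_log_div_mul_add_atTop 1 0 1 one_ne_zero
        simpa using this
      have h4 : Tendsto (fun x : ℝ => 1 / x) atTop (𝓝 0) := by
        simpa using tendsto_inv_atTop_zero (𝕜 := ℝ)
      have h5 := h4.add (h3.const_mul 2)
      rw [mul_zero, add_zero] at h5
      refine h5.congr fun x => ?_
      ring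
    have h6 : Tendsto (fun x : ℝ => (1 + 2 * Real.log x) / x) atTop (𝓝[>] 0) := by
      refine tendsto_nhdsWithin_iff.2 ⟨h2, ?_⟩
      filter_upwards [eventually_ge_atTop (1 : ℝ)] with x hx
      have := Real.log_nonneg hx
      have : 0 < x := by linarith only [hx]
      exact div_pos (by linarith) this
    have h7 := h6.inv_tendsto_nhdsGT_zero
    refine h7.congr fun x => ?_
    simp only [Pi.inv_apply, inv_div]
  obtain ⟨X, hX⟩ := eventually_atTop.1 (h1.eventually_ge_atTop K)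
  refine ⟨max 1 (max X 1 ^ 2), le_max_left _ _, fun t ht => ?_⟩
  have ht1 : 1 ≤ t := (le_max_left _ _).trans ht
  have ht0 : 0 ≤ t := by linarith only [ht1]
  have h2 : max X 1 ≤ Real.sqrt t :=
    Real.le_sqrt_of_sq_le ((le_max_right _ _).trans ht)
  have h3 := hX (Real.sqrt t) ((le_max_left _ _).trans h2)
  have h4 : Real.log (Real.sqrt t) = Real.log t / 2 := Real.log_sqrt ht0
  have h5 : 0 ≤ Real.log t := Real.log_nonneg ht1
  rw [h4, le_div_iff₀ (by linarith only [h5])] at h3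
  have e : 1 + 2 * (Real.log t / 2) = 1 + Real.log t := by ring
  rwa [e] at h3

theorem qme (crt : CrtStmt) (osc : OscBStmt) (nux : NuxStmt) (inf : InfStmt) (sge : SgeStmt)
    (smx : SmxStmt) (fpx : FpxStmt) : QmeStmt := by
  intro d hd3
  have hd : 1 ≤ d := by omega
  have hdR : (1 : ℝ) ≤ d := by exact_mod_cast hd
  obtain ⟨c0, C0, C1, hc0, hC0, hC1, hcpf⟩ := fpx d hd3
  obtain ⟨cN, CN, hcN, hcN4, hCN, hcore⟩ := wbeZ crt osc nux inf hd hC1
  obtain ⟨A, p₀, hA, hp₀, hsmx⟩ := smx d hd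
  obtain ⟨T₀, hT₀, hlogT⟩ := log_le_sqrt (128 * d * (A * (1 + Real.log (8 * d) + 3) +
    (1 + Real.log 8) + 3))
  obtain ⟨c, hcdef⟩ : ∃ c : ℝ, c = min (min (min cN (c0 / (d + 5))) (min (1 / (16 * d)) p₀))
    (min (min (1 / (C0 * 3 ^ d + 16)) (1 / (4 * C0 + 1))) (1 / T₀)) := ⟨_, rfl⟩
  have hT₀0 : 0 < T₀ := by linarith only [hT₀]
  have hc : 0 < c := by rw [hcdef]; positivity
  have hc1 : c ≤ cN := by
    rw [hcdef]; exact (min_le_left _ _).trans ((min_le_left _ _).trans (min_le_left _ _))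
  have hc2 : c * (d + 5) ≤ c0 := by
    have : c ≤ c0 / (d + 5) := by
      rw [hcdef]; exact (min_le_left _ _).trans ((min_le_left _ _).trans (min_le_right _ _))
    rwa [le_div_iff₀ (by positivity)] at this
  have hc16 : c ≤ 1 / (16 * d) := by
    rw [hcdef]; exact (min_le_left _ _).trans ((min_le_right _ _).trans (min_le_left _ _))
  have hcp : c ≤ p₀ := by
    rw [hcdef]; exact (min_le_left _ _).trans ((min_le_right _ _).trans (min_le_right _ _))
  have hc4 : (C0 * 3 ^ d + 16) * c ≤ 1 := by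
    have : c ≤ 1 / (C0 * 3 ^ d + 16) := by
      rw [hcdef]; exact (min_le_right _ _).trans ((min_le_left _ _).trans (min_le_left _ _))
    rw [le_div_iff₀ (by positivity)] at this
    linarith only [this]
  have hc5 : (4 * C0 + 1) * c ≤ 1 := by
    have : c ≤ 1 / (4 * C0 + 1) := by
      rw [hcdef]; exact (min_le_right _ _).trans ((min_le_left _ _).trans (min_le_right _ _))
    rw [le_div_iff₀ (by positivity)] at this
    linarith only [this]
  have hc7 : T₀ * c ≤ 1 := by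
    have : c ≤ 1 / T₀ := by
      rw [hcdef]; exact (min_le_right _ _).trans (min_le_right _ _)
    rw [le_div_iff₀ (by positivity)] at this
    linarith only [this]
  have hc6 : c ≤ 1 / 4 := hc1.trans hcN4
  refine ⟨c, 2 * C0 + CN, hc, by positivity, ?_⟩
  intro σ t hσ hσc hσt hu
  have hσ0 : 0 < |σ| := abs_pos.2 hσ
  have hσ1 : |σ| ≤ 1 := by linarith only [hσc, hc1, hcN4]
  have ht1c : 1 / c ≤ t := (one_div_le_one_div_of_le hσ0 hσc).trans hσt
  have hct : 1 ≤ c * t := by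
    rw [div_le_iff₀ hc] at ht1c
    linarith only [ht1c]
  have ht0 : 0 < t := lt_of_lt_of_le (by positivity) hσt
  have hbig : ∀ B : ℝ, 0 ≤ B → B * c ≤ 1 → B ≤ t := by
    intro B hB hBc
    have h1 : (B * c) * t ≤ 1 * t := mul_le_mul_of_nonneg_right hBc ht0.le
    have h2 : B * 1 ≤ B * (c * t) := mul_le_mul_of_nonneg_left hct hB
    linarith only [h2, h1]
  have htb : C0 * 3 ^ d + 16 ≤ t := hbig _ (by positivity) hc4
  have htT : T₀ ≤ t := hbig _ (by positivity) hc7
  have hC3 : 0 < C0 * 3 ^ d := by positivity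
  have ht16 : 16 ≤ t := by linarith only [hC3, htb]
  have htt : t * 16 ≤ t * t := mul_le_mul_of_nonneg_left ht16 ht0.le
  obtain ⟨M', hM'⟩ : ∃ M' : ℕ, M' = ⌈t⌉₊ + 10 := ⟨_, rfl⟩
  have hM1 : t + 2 ≤ M' := by
    rw [hM']
    push_cast
    have := Nat.le_ceil t
    linarith only [this]
  have hM2 : (M' : ℝ) ≤ 3 * t := by
    rw [hM']
    push_cast
    have := Nat.ceil_lt_add_one ht0.le
    linarith only [this, hC3, htb]
  obtain ⟨p, hp⟩ : ∃ p : ℝ, p = C0 * (1 + Real.log t) * (M' : ℝ) ^ d *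
    Real.exp (-c0 / (σ ^ 2 * growth d t)) := ⟨_, rfl⟩
  have hM0 : (0 : ℝ) < M' := by linarith only [hM1, ht0]
  have hlog : 0 ≤ Real.log t := Real.log_nonneg (by linarith only [htT, hT₀])
  have hp0 : 0 < p := by rw [hp]; positivity
  have hpt : p ≤ 1 / t ^ 2 := by
    rw [hp]
    refine p_le hd3 hc0 hC0 hc hσ (by linarith only [hC3, htb]) hc2 hM2 hu ?_
    rw [pow_two]
    linarith only [htt, htb, ht0]
  have hpt1 : p ≤ 1 / t := by
    refine hpt.trans (one_div_le_one_div_of_le ht0 ?_)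
    rw [pow_two]
    linarith only [htt, ht0]
  have hp2 : p ≤ 1 / 2 := hpt1.trans (one_div_le_one_div_of_le (by norm_num) (by linarith only [hC3, htb]))
  have hsq : Real.sqrt p ≤ 1 / t := by
    rw [Real.sqrt_le_left (by positivity)]
    refine hpt.trans (le_of_eq ?_)
    rw [div_pow, one_pow]
  have hM3 : 3 ≤ M' := by omega
  have h1tc : 1 / t ≤ c := by
    rw [div_le_iff₀ ht0]
    linarith only [hct]
  obtain ⟨v, hv⟩ : ∃ v : ℝ≥0, (v : ℝ) = σ ^ 2 := ⟨⟨σ ^ 2, sq_nonneg σ⟩, rfl⟩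
  obtain ⟨z, μ, hz, hz3, hμ, hflat, hcond⟩ := hcpf M' v σ t p hσ hσ1 hv hM3 (by linarith only [htT, hT₀])
    (by linarith only [hM1]) hp hp2
  have h1t : 1 / t ≤ |σ| := by
    rw [div_le_iff₀ ht0]
    rw [div_le_iff₀ hσ0] at hσt
    linarith only [hσt]
  have hσsq : σ ^ 2 ≤ |σ| := by
    rw [← sq_abs, pow_two]
    have := mul_le_mul_of_nonneg_left hσ1 hσ0.le
    linarith only [this]
  have hσsq0 := sq_nonneg σ
  have h1t0 : 0 < 1 / t := by positivity
  have hz2 : |z - 2 * d| ≤ 2 * C0 * (σ ^ 2 + 1 / t) := by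
    refine hz.trans ?_
    have h1 : σ ^ 2 + 1 / t + Real.sqrt p ≤ 2 * (σ ^ 2 + 1 / t) := by linarith only [hv, hsq]
    have := mul_le_mul_of_nonneg_left h1 hC0.le
    linarith only [this]
  have hz1 : |z| ≤ 2 * d + 1 := by
    have h1 : |z - 2 * d| ≤ 1 := by
      refine hz2.trans ?_
      have h3 : σ ^ 2 + 1 / t ≤ 2 * c := by linarith only [hσsq, h1tc, hσc]
      calc 2 * C0 * (σ ^ 2 + 1 / t) ≤ 2 * C0 * (2 * c) :=
            mul_le_mul_of_nonneg_left h3 (by positivity)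
        _ ≤ 1 := by linarith only [hc5, hc]
    have h2 := abs_add_le (z - 2 * d) (2 * d)
    rw [sub_add_cancel, abs_of_nonneg (by positivity : (0 : ℝ) ≤ 2 * d)] at h2
    linarith only [h2, h1]
  refine ⟨z, ?_, ?_, ?_⟩
  · refine hz2.trans ?_
    have h0 : 0 ≤ σ ^ 2 + 1 / t := by positivity
    exact mul_le_mul_of_nonneg_right (by linarith only [hCN]) h0
  · -- localization above the edge
    intro E g hE hg
    haveI : NeZero M' := ⟨by omega⟩
    obtain ⟨δ, hδ⟩ : ∃ δ : ℝ, δ = min (E - z) 1 := ⟨_, rfl⟩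
    have hδt : 1 / t ≤ δ := by
      rw [hδ]
      refine le_min (by linarith only [hE]) ?_
      rw [div_le_iff₀ ht0]
      linarith only [htT, hT₀]
    have hδ0 : 0 < δ := by linarith only [hδt, hpt1, hp0]
    have hδ1 : δ ≤ 1 := by rw [hδ]; exact min_le_right _ _
    have hδE : z + δ ≤ E := by
      have : δ ≤ E - z := by rw [hδ]; exact min_le_left _ _
      linarith only [this]
    obtain ⟨L, hL⟩ : ∃ L : ℕ, L = ⌊t / 8⌋₊ := ⟨_, rfl⟩
    have hL8 : (L : ℝ) ≤ t / 8 := by rw [hL]; exact Nat.floor_le (by positivity)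
    have hL16 : t / 16 ≤ L := by
      have : t / 8 < L + 1 := by rw [hL]; exact Nat.lt_floor_add_one _
      linarith only [this, hC3, htb]
    have hL1 : 1 ≤ L := by
      have h1 : (0 : ℝ) < L := by linarith only [hL16, ht0]
      have h2 : 0 < L := by exact_mod_cast h1
      exact h2
    have hL1R : (1 : ℝ) ≤ L := by exact_mod_cast hL1
    have hLM : 8 * L + 3 ≤ M' := by
      have h1 : ((8 * L : ℕ) : ℝ) ≤ (⌈t⌉₊ : ℕ) := by
        push_cast
        have := Nat.le_ceil t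
        linarith only [this, hL8]
      have h2 : 8 * L ≤ ⌈t⌉₊ := by exact_mod_cast h1
      omega
    have hst0 : 0 < Real.sqrt t := Real.sqrt_pos.2 ht0
    have hst : Real.sqrt t * Real.sqrt t = t := Real.mul_self_sqrt ht0.le
    have hsδ : 1 / Real.sqrt t ≤ Real.sqrt δ := by
      have h1 := Real.sqrt_le_sqrt hδt
      rwa [Real.sqrt_div zero_le_one, Real.sqrt_one] at h1
    have hsδ0 : 0 < Real.sqrt δ := Real.sqrt_pos.2 hδ0
    have hsδ1 : Real.sqrt δ ≤ 1 := by
      rw [← Real.sqrt_one]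
      exact Real.sqrt_le_sqrt hδ1
    have hsδL : Real.sqrt t / 16 ≤ Real.sqrt δ * L := by
      calc Real.sqrt t / 16 = (t / Real.sqrt t) / 16 := by rw [Real.div_sqrt]
        _ = 1 / Real.sqrt t * (t / 16) := by ring
        _ ≤ Real.sqrt δ * L := mul_le_mul hsδ hL16 (by positivity) hsδ0.le
    have hlogK := hlogT t htT
    have hlog8 : 0 ≤ Real.log 8 := Real.log_nonneg (by norm_num)
    have hlog8d : 0 ≤ Real.log (8 * d) := Real.log_nonneg (by linarith only [hdR])
    have hlt : 0 ≤ 1 + Real.log t := by linarith only [hlog]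
    have hX1 : 0 ≤ A * (1 + Real.log (8 * d) + 3) := by positivity
    have hX2 : (1 + Real.log 8) + 3 ≥ 0 := by positivity
    have hsplit : 128 * d * (A * (1 + Real.log (8 * d) + 3)) * (1 + Real.log t) ≤ Real.sqrt t ∧
        128 * d * ((1 + Real.log 8) + 3) * (1 + Real.log t) ≤ Real.sqrt t := by
      constructor
      · refine le_trans ?_ hlogK
        refine mul_le_mul_of_nonneg_right ?_ hlt
        refine mul_le_mul_of_nonneg_left ?_ (by positivity)
        linarith only [hlog8]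
      · refine le_trans ?_ hlogK
        refine mul_le_mul_of_nonneg_right ?_ hlt
        refine mul_le_mul_of_nonneg_left ?_ (by positivity)
        linarith only [hX1]
    have hcondA : 8 * d * Real.log (8 / δ) ≤ Real.sqrt δ * L := by
      refine le_trans ?_ hsδL
      have h1 : Real.log (8 / δ) ≤ (1 + Real.log 8 + 3) * (1 + Real.log t) := by
        have h2 : 8 / δ ≤ 8 * t := by
          rw [div_le_iff₀ hδ0]
          rw [div_le_iff₀ ht0] at hδt
          linarith only [hδt]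
        have h3 : Real.log (8 / δ) ≤ Real.log 8 + Real.log t := by
          rw [← Real.log_mul (by norm_num) ht0.ne']
          exact Real.log_le_log (by positivity) h2
        have h4 : 0 ≤ Real.log 8 * Real.log t := by positivity
        linarith only [h4, h3, hlog]
      have h5 : 8 * d * Real.log (8 / δ) ≤
          8 * d * ((1 + Real.log 8 + 3) * (1 + Real.log t)) :=
        mul_le_mul_of_nonneg_left h1 (by positivity)
      linarith only [h5, hsplit.2]
    obtain ⟨m, hm⟩ : ∃ m : ℝ, m = Real.sqrt δ / (8 * d) := ⟨_, rfl⟩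
    have hm0 : 0 < m := by rw [hm]; positivity
    have hm1 : m ≤ 1 := by
      rw [hm, div_le_one (by positivity)]
      linarith only [hsδ1, hdR]
    have hcondB : A * (1 + Real.log (L / (|σ| * m))) ≤ m * L := by
      have h1 : (L : ℝ) / (|σ| * m) ≤ 8 * d * t ^ 3 := by
        rw [div_le_iff₀ (by positivity)]
        have h2 : 1 ≤ |σ| * t := by
          rw [div_le_iff₀ hσ0] at hσt
          linarith only [hσt]
        have h3 : 1 ≤ 8 * d * m * t := by
          have h4 : 8 * d * m = Real.sqrt δ := by rw [hm]; field_simp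
          rw [h4]
          have h5 : 1 ≤ Real.sqrt t := by
            rw [← Real.sqrt_one]
            exact Real.sqrt_le_sqrt (by linarith only [htT, hT₀])
          calc (1 : ℝ) ≤ Real.sqrt t := h5
            _ = 1 / Real.sqrt t * t := by
                rw [div_mul_eq_mul_div, one_mul, eq_div_iff hst0.ne']
                exact hst
            _ ≤ Real.sqrt δ * t := mul_le_mul_of_nonneg_right hsδ ht0.le
        calc (L : ℝ) ≤ t := by linarith only [hL8]
          _ = 1 * 1 * t := by ring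
          _ ≤ (|σ| * t) * (8 * d * m * t) * t := by
              refine mul_le_mul_of_nonneg_right ?_ ht0.le
              exact mul_le_mul h2 h3 zero_le_one (by positivity)
          _ = 8 * d * t ^ 3 * (|σ| * m) := by ring
      have h2 : Real.log (L / (|σ| * m)) ≤ Real.log (8 * d) + 3 * Real.log t := by
        have h3 : Real.log (8 * d * t ^ 3) = Real.log (8 * d) + 3 * Real.log t := by
          rw [Real.log_mul (by positivity) (by positivity), Real.log_pow]
          norm_num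
        rw [← h3]
        exact Real.log_le_log (by positivity) h1
      have h3 : 1 + Real.log (L / (|σ| * m)) ≤ (1 + Real.log (8 * d) + 3) * (1 + Real.log t) := by
        have h4 : 0 ≤ Real.log (8 * d) * Real.log t := by positivity
        linarith only [h4, h2, hlog]
      have h4 : Real.sqrt t / (128 * d) ≤ m * L := by
        have h5 : m * L = (Real.sqrt δ * L) / (8 * d) := by rw [hm]; ring
        rw [h5]
        have h6 : Real.sqrt t / (128 * d) = (Real.sqrt t / 16) / (8 * d) := by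
          rw [div_div]
          congr 1
          ring
        rw [h6]
        exact div_le_div_of_nonneg_right hsδL (by positivity)
      refine le_trans ?_ h4
      rw [le_div_iff₀ (by positivity)]
      have h5 : A * (1 + Real.log (L / (|σ| * m))) ≤
          A * ((1 + Real.log (8 * d) + 3) * (1 + Real.log t)) :=
        mul_le_mul_of_nonneg_left h3 (by linarith only [hA])
      have h6 : A * (1 + Real.log (L / (|σ| * m))) * (128 * d) ≤
          A * ((1 + Real.log (8 * d) + 3) * (1 + Real.log t)) * (128 * d) :=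
        mul_le_mul_of_nonneg_right h5 (by positivity)
      linarith only [h6, hsplit.1]
    have hS := sge d M' L v σ z μ E δ p hd hσ hv hμ hz3 (hflat inferInstance) hδ0 hδ1 hδE hL1
      hLM hcondA
    rw [← hm] at hS
    have hpp : p ≤ p₀ := hpt1.trans (h1tc.trans hcp)
    have hlim := hsmx σ E m L hσ hσ1 hm0 hm1 hL1 hcondB
      (hS.trans (ENNReal.ofReal_le_ofReal hpp))
    have hfin := le_of_allGood hg hlim
    refine le_trans ?_ hfin
    rw [← hδ, hm]
    have h1 : c * Real.sqrt δ ≤ 1 / (16 * d) * Real.sqrt δ :=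
      mul_le_mul_of_nonneg_right hc16 hsδ0.le
    refine h1.trans (le_of_eq ?_)
    field_simp
    norm_num
  · intro E g hE hg
    refine (hcore M' σ t p z hσ (hσc.trans hc1) hσt hM1 hp0 hpt1 hz1 hcond E g hE hg).trans ?_
    have hb0 : 0 < |E - z| + 1 / t := by
      have := abs_nonneg (E - z)
      linarith only [this, hpt1, hp0]
    have hb1 : |E - z| + 1 / t ≤ 1 := by linarith only [hE, h1tc, hσc, hc1, hcN4]
    have h1 : (|E - z| + 1 / t) ^ cN ≤ (|E - z| + 1 / t) ^ c :=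
      Real.rpow_le_rpow_of_exponent_ge hb0 hb1 hc1
    have h2 : 0 ≤ (|E - z| + 1 / t) ^ c := Real.rpow_nonneg hb0.le _
    calc CN * (|E - z| + 1 / t) ^ cN ≤ CN * (|E - z| + 1 / t) ^ c :=
          mul_le_mul_of_nonneg_left h1 hCN.le
      _ ≤ (2 * C0 + CN) * (|E - z| + 1 / t) ^ c :=
          mul_le_mul_of_nonneg_right (by linarith only [hC0]) h2

end Pool.Agent.LE.H93W
end
end -- Pool.Agent.Helper93_LEW.QME

section -- Pool.Agent.Helper93_LSH.QMS

/-!
# QMS: exact asymptotics above the effective band edge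
-/

set_option autoImplicit false

open MeasureTheory ProbabilityTheory Function Filter

open scoped ENNReal BigOperators Topology NNReal

noncomputable section

namespace Pool.Agent.LE.H93Z

open Pool.Agent.Anderson Pool.Agent.Loc Pool.Agent.Mob Pool.Agent.Helper54.Bal Pool.Agent.BED
  Pool.Agent.LE.H93W

theorem p_pow {d N : ℕ} {c0 C0 c σ T : ℝ} {M' : ℕ} (hc0 : 0 < c0) (hC0 : 0 < C0)
    (hσ : σ ≠ 0) (hT : 1 ≤ T) (hcc : c * (d + N + 3) ≤ c0)
    (hM' : (M' : ℝ) ≤ 3 * T) (hu : σ ^ 2 * growth d T * Real.log T ≤ c)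
    (hTC : C0 * 3 ^ d ≤ T) :
    C0 * (1 + Real.log T) * (M' : ℝ) ^ d * Real.exp (-c0 / (σ ^ 2 * growth d T)) ≤
      1 / T ^ (N + 1) := by
  have ht0 : 0 < T := by linarith only [hT]
  have hgr := one_le_growth d hT
  have hσ2 : 0 < σ ^ 2 := by positivity
  have hu0 : 0 < σ ^ 2 * growth d T := by positivity
  have hlog : 0 ≤ Real.log T := Real.log_nonneg hT
  have h1 : (d + N + 3 : ℝ) * Real.log T ≤ c0 / (σ ^ 2 * growth d T) := by
    rw [le_div_iff₀ hu0]
    calc (d + N + 3 : ℝ) * Real.log T * (σ ^ 2 * growth d T) =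
          (σ ^ 2 * growth d T * Real.log T) * (d + N + 3) := by ring
      _ ≤ c * (d + N + 3) := mul_le_mul_of_nonneg_right hu (by positivity)
      _ ≤ c0 := hcc
  have h2 : Real.exp (-c0 / (σ ^ 2 * growth d T)) ≤ 1 / T ^ (d + N + 3) := by
    have h3 : Real.exp (-c0 / (σ ^ 2 * growth d T)) ≤
        Real.exp (-((d + N + 3 : ℝ) * Real.log T)) := by
      apply Real.exp_le_exp.2
      rw [neg_div]
      linarith only [h1]
    refine h3.trans (le_of_eq ?_)
    rw [Real.exp_neg, one_div]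
    congr 1
    have : (d + N + 3 : ℝ) * Real.log T = ((d + N + 3 : ℕ) : ℝ) * Real.log T := by push_cast; ring
    rw [this, Real.exp_nat_mul, Real.exp_log ht0]
  have h3 : 1 + Real.log T ≤ T := by
    have := Real.log_le_sub_one_of_pos ht0
    linarith only [this]
  have h4 : (M' : ℝ) ^ d ≤ 3 ^ d * T ^ d := by
    rw [← mul_pow]
    exact pow_le_pow_left₀ (Nat.cast_nonneg _) hM' d
  calc C0 * (1 + Real.log T) * (M' : ℝ) ^ d * Real.exp (-c0 / (σ ^ 2 * growth d T))
      ≤ C0 * T * (3 ^ d * T ^ d) * (1 / T ^ (d + N + 3)) := by gcongr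
    _ = (C0 * 3 ^ d) / T ^ (N + 2) := by
        field_simp
        ring
    _ ≤ T / T ^ (N + 2) := by gcongr
    _ = _ := by
        rw [div_eq_div_iff (by positivity) (by positivity)]
        ring

theorem growth_mul (d : ℕ) {K t : ℝ} (hK : 1 ≤ K) (ht : 1 ≤ t) :
    growth d (K * t) ≤ K * growth d t := by
  unfold growth
  have h0 : 0 ≤ Real.log t := Real.log_nonneg ht
  split_ifs
  · rw [Real.sqrt_mul (by linarith only [hK])]
    refine mul_le_mul_of_nonneg_right ?_ (Real.sqrt_nonneg _)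
    rw [Real.sqrt_le_left (by linarith only [hK])]
    nlinarith only [hK]
  · rw [Real.log_mul (by linarith only [hK]) (by linarith only [ht])]
    have h1 := Real.log_le_sub_one_of_pos (by linarith only [hK] : 0 < K)
    nlinarith only [h1, h0, hK]
  · linarith only [hK]

/-- the scale `T = t / e` -/
theorem scale_T {d : ℕ} {e c σ t : ℝ} (he0 : 0 < e) (he1 : e ≤ 1) (ht : 1 / e ≤ t)
    (hu : σ ^ 2 * growth d t * Real.log t ≤ c) (hσ : σ ≠ 0) :
    σ ^ 2 * growth d (1 / e * t) * Real.log (1 / e * t) ≤ 2 * (1 / e) * c := by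
  have hK : 1 ≤ 1 / e := by rw [le_div_iff₀ he0]; linarith only [he1]
  have ht1 : 1 ≤ t := hK.trans ht
  have ht0 : 0 < t := by linarith only [hK, ht]
  have h1 := growth_mul d hK ht1
  have h2 : Real.log (1 / e * t) ≤ 2 * Real.log t := by
    rw [Real.log_mul (by positivity) (by positivity)]
    have := Real.log_le_log (by positivity) ht
    linarith only [this]
  have h3 : 0 ≤ Real.log (1 / e * t) := Real.log_nonneg (by nlinarith only [hK, ht])
  have hgr := one_le_growth d ht1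
  have hl := Real.log_nonneg ht1
  calc σ ^ 2 * growth d (1 / e * t) * Real.log (1 / e * t)
      ≤ σ ^ 2 * (1 / e * growth d t) * (2 * Real.log t) := by gcongr
    _ = 2 * (1 / e) * (σ ^ 2 * growth d t * Real.log t) := by ring
    _ ≤ _ := mul_le_mul_of_nonneg_left hu (by positivity)

/-- the lower bound -/
theorem lowZ (sgx : SgxStmt) {d : ℕ} (hd : 1 ≤ d) {e A p₀ : ℝ} (he0 : 0 < e) (he50 : e ≤ 1 / 50)
    (hA : 1 ≤ A)
    (hsms : ∀ (σ E m : ℝ) (L : ℕ), σ ≠ 0 → |σ| ≤ 1 →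
      0 < m → m ≤ 1 → 1 ≤ L → A * (1 + Real.log (L / (|σ| * m))) ≤ m * L →
      PP d (gl σ) {V | ¬ AllGoodC V 0 L m E} ≤ ENNReal.ofReal p₀ →
      Tendsto (fun M : ℕ => PP d (gl σ) {V | ¬ AllGoodC V 0 M ((1 - e) * m) E}) atTop (𝓝 0))
    {M' : ℕ} [NeZero M'] {v : ℝ≥0} {σ z μ t p : ℝ} (hσ : σ ≠ 0) (hσ1 : |σ| ≤ 1)
    (hv : (v : ℝ) = σ ^ 2)
    (hμ : 0 < μ) (hz : z ≤ 2 * d + 1) (hflat : gau d M' v {V | ¬ Flat z μ V} ≤ ENNReal.ofReal p)
    (hpp : p ≤ p₀) (hσt : 1 / |σ| ≤ t) (ht16 : 16 ≤ t) (hte : 1 / t ≤ e)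
    (hM : 1 / e * t + 3 ≤ M')
    (h1 : 16 * (Real.log (2 / e) + Real.log t) ≤ Real.sqrt t)
    (h2 : A * (1 + Real.log (2 / e) + 3 * Real.log t) ≤ Real.sqrt t)
    {E g : ℝ} (hE : z + 1 / t ≤ E) (hg : LyaAt d σ E g) :
    (1 - e) * ((1 - 2 * e) * Real.sqrt (min (E - z) e)) ≤ g := by
  have hσ0 : 0 < |σ| := abs_pos.2 hσ
  have ht0 : 0 < t := by linarith only [ht16]
  obtain ⟨δ, hδ⟩ : ∃ δ : ℝ, δ = min (E - z) e := ⟨_, rfl⟩
  rw [← hδ]
  have hδt : 1 / t ≤ δ := by
    rw [hδ]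
    exact le_min (by linarith only [hE]) hte
  have h1t0 : 0 < 1 / t := by positivity
  have hδ0 : 0 < δ := by linarith only [h1t0, hδt]
  have hδe : δ ≤ e := by rw [hδ]; exact min_le_right _ _
  have hδE : z + δ ≤ E := by
    have : δ ≤ E - z := by rw [hδ]; exact min_le_left _ _
    linarith only [this]
  obtain ⟨T, hT⟩ : ∃ T : ℝ, T = 1 / e * t := ⟨_, rfl⟩
  rw [← hT] at hM
  have hTe : e * T = t := by rw [hT]; field_simp
  have hT50 : 50 * t ≤ T := by
    have h3 : (50 : ℝ) ≤ 1 / e := by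
      rw [le_div_iff₀ he0]; linarith only [he50]
    rw [hT]
    exact mul_le_mul_of_nonneg_right h3 ht0.le
  have hT0 : 0 < T := by linarith only [hT50, ht16]
  obtain ⟨L, hL⟩ : ∃ L : ℕ, L = ⌊T / 8⌋₊ := ⟨_, rfl⟩
  have hL8 : (L : ℝ) ≤ T / 8 := by rw [hL]; exact Nat.floor_le (by positivity)
  have hL16 : T / 16 ≤ L := by
    have : T / 8 < L + 1 := by rw [hL]; exact Nat.lt_floor_add_one _
    linarith only [this, hT50, ht16]
  have hL1 : 1 ≤ L := by
    have h3 : (0 : ℝ) < L := by linarith only [hL16, hT50, ht16]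
    have h4 : 0 < L := by exact_mod_cast h3
    exact h4
  have hL1R : (1 : ℝ) ≤ L := by exact_mod_cast hL1
  have hLM : 8 * L + 3 ≤ M' := by
    have h3 : ((8 * L + 3 : ℕ) : ℝ) ≤ (M' : ℝ) := by
      push_cast
      linarith only [hL8, hM]
    exact_mod_cast h3
  have hst0 : 0 < Real.sqrt t := Real.sqrt_pos.2 ht0
  have hst : Real.sqrt t * Real.sqrt t = t := Real.mul_self_sqrt ht0.le
  have hst1 : 1 ≤ Real.sqrt t := by
    rw [← Real.sqrt_one]
    exact Real.sqrt_le_sqrt (by linarith only [ht16])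
  have hsδ : 1 / Real.sqrt t ≤ Real.sqrt δ := by
    have h3 := Real.sqrt_le_sqrt hδt
    rwa [Real.sqrt_div zero_le_one, Real.sqrt_one] at h3
  have hsδ0 : 0 < Real.sqrt δ := Real.sqrt_pos.2 hδ0
  have hsδ1 : Real.sqrt δ ≤ 1 := by
    rw [← Real.sqrt_one]
    exact Real.sqrt_le_sqrt (by linarith only [hδe, he50])
  have hsδL : Real.sqrt t / (16 * e) ≤ Real.sqrt δ * L := by
    calc Real.sqrt t / (16 * e) = (t / Real.sqrt t) / (16 * e) := by rw [Real.div_sqrt]
      _ = 1 / Real.sqrt t * (T / 16) := by rw [hT]; ring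
      _ ≤ Real.sqrt δ * L := mul_le_mul hsδ hL16 (by positivity) hsδ0.le
  have hlt : 0 ≤ Real.log t := Real.log_nonneg (by linarith only [ht16])
  have h1δ : 1 / δ ≤ t := by
    rw [div_le_iff₀ hδ0]
    rw [div_le_iff₀ ht0] at hδt
    linarith only [hδt]
  have hcondA : Real.log (2 / (e * δ)) ≤ e * Real.sqrt δ * L := by
    have h3 : Real.log (2 / (e * δ)) ≤ Real.log (2 / e) + Real.log t := by
      rw [← Real.log_mul (by positivity) ht0.ne']
      refine Real.log_le_log (by positivity) ?_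
      calc 2 / (e * δ) = 2 / e * (1 / δ) := by field_simp
        _ ≤ 2 / e * t := mul_le_mul_of_nonneg_left h1δ (by positivity)
    have h4 : Real.sqrt t / 16 ≤ e * Real.sqrt δ * L := by
      calc Real.sqrt t / 16 = e * (Real.sqrt t / (16 * e)) := by field_simp
        _ ≤ e * (Real.sqrt δ * L) := mul_le_mul_of_nonneg_left hsδL he0.le
        _ = _ := by ring
    linarith only [h4, h3, h1]
  have hS := sgx d M' L v σ z μ E δ e p hd hσ hv hμ hz hflat he0 (by linarith only [he50]) hδ0 hδe hδE hL1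
    hLM hcondA
  obtain ⟨m, hm⟩ : ∃ m : ℝ, m = (1 - 2 * e) * Real.sqrt δ := ⟨_, rfl⟩
  rw [← hm] at hS ⊢
  have hm0 : 0 < m := by
    rw [hm]
    have : 0 < 1 - 2 * e := by linarith only [he50]
    positivity
  have hmh : Real.sqrt δ / 2 ≤ m := by
    rw [hm]
    have : 1 / 2 ≤ 1 - 2 * e := by linarith only [he50]
    calc Real.sqrt δ / 2 = 1 / 2 * Real.sqrt δ := by ring
      _ ≤ _ := mul_le_mul_of_nonneg_right this hsδ0.le
  have hm1 : m ≤ 1 := by
    rw [hm]
    calc (1 - 2 * e) * Real.sqrt δ ≤ 1 * 1 :=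
          mul_le_mul (by linarith only [he0]) hsδ1 hsδ0.le zero_le_one
      _ = 1 := one_mul 1
  have hcondB : A * (1 + Real.log (L / (|σ| * m))) ≤ m * L := by
    have h3 : (L : ℝ) / (|σ| * m) ≤ 2 / e * t ^ 3 := by
      rw [div_le_iff₀ (by positivity)]
      have h4 : 1 ≤ |σ| * t := by
        rw [div_le_iff₀ hσ0] at hσt
        linarith only [hσt]
      have h5 : 1 ≤ 2 * m * t := by
        calc (1 : ℝ) ≤ Real.sqrt t := hst1
          _ = 1 / Real.sqrt t * t := by
              rw [div_mul_eq_mul_div, one_mul, eq_div_iff hst0.ne']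
              exact hst
          _ ≤ Real.sqrt δ * t := mul_le_mul_of_nonneg_right hsδ ht0.le
          _ ≤ 2 * m * t := mul_le_mul_of_nonneg_right (by linarith only [hmh]) ht0.le
      calc (L : ℝ) ≤ T := by linarith only [hL8]
        _ = 1 * 1 * (1 / e * t) := by rw [hT]; ring
        _ ≤ (|σ| * t) * (2 * m * t) * (1 / e * t) := by
            refine mul_le_mul_of_nonneg_right ?_ (by positivity)
            exact mul_le_mul h4 h5 zero_le_one (by positivity)
        _ = 2 / e * t ^ 3 * (|σ| * m) := by ring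
    have h4 : Real.log (L / (|σ| * m)) ≤ Real.log (2 / e) + 3 * Real.log t := by
      have h5 : Real.log (2 / e * t ^ 3) = Real.log (2 / e) + 3 * Real.log t := by
        rw [Real.log_mul (by positivity) (by positivity), Real.log_pow]
        norm_num
      rw [← h5]
      exact Real.log_le_log (by positivity) h3
    have h5 : Real.sqrt t ≤ m * L := by
      have h6 : Real.sqrt t / (32 * e) ≤ m * L := by
        calc Real.sqrt t / (32 * e) = (Real.sqrt t / (16 * e)) / 2 := by field_simp; norm_num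
          _ ≤ (Real.sqrt δ * L) / 2 := by linarith only [hsδL]
          _ = (Real.sqrt δ / 2) * L := by ring
          _ ≤ m * L := mul_le_mul_of_nonneg_right hmh (by linarith only [])
      refine le_trans ?_ h6
      rw [le_div_iff₀ (by positivity)]
      have : 32 * e ≤ 1 := by linarith only [he50]
      calc Real.sqrt t * (32 * e) ≤ Real.sqrt t * 1 :=
            mul_le_mul_of_nonneg_left this hst0.le
        _ = Real.sqrt t := mul_one _
    refine le_trans ?_ (h2.trans h5)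
    exact mul_le_mul_of_nonneg_left (by linarith only [h4]) (by linarith only [hA])
  have hlim := hsms σ E m L hσ hσ1 hm0 hm1 hL1 hcondB
    (hS.trans (ENNReal.ofReal_le_ofReal hpp))
  exact le_of_allGood hg hlim

/-- the upper bound -/
theorem upZ {d : ℕ} (hd : 1 ≤ d) {e CP C2 A2 CU : ℝ} {N : ℕ} (he0 : 0 < e) (he50 : e ≤ 1 / 50)
    (hCP : 1 ≤ CP) (hC2 : 1 ≤ C2) (hA2N : A2 ≤ N) (hA2 : 0 ≤ A2) (hCU : 1 ≤ CU)
    (hcdp : ∀ (M' n R N : ℕ) (v : ℝ≥0) (σ z μ lam p : ℝ) (b : Site d) (i : Fin d), σ ≠ 0 →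
      |σ| ≤ 1 → (v : ℝ) = σ ^ 2 → z ≤ 2 * d + 1 → 0 < lam → lam ≤ 1 / 2 → 0 < μ →
      1 ≤ e * lam * μ →
      (∀ _ : NeZero M', gau d M' v {V | ¬ FlatE e z μ V} ≤ ENNReal.ofReal p) →
      2 * (n + R) + 5 ≤ M' → 8 * n ≤ R → box b (n + R + 1) ⊆ box 0 N →
      C2 * (1 + Real.log (1 / lam) + Real.log (1 / |σ|) + Real.log R) ≤ Real.sqrt lam * R →
        PP d (gl σ) {V | ¬ DL (box 0 N) (z + lam) V b (b + Pi.single i (n : ℤ)) ≤
          (1 + CP * e) * Real.sqrt lam * n + C2 * (1 + Real.log (1 / lam))} ≤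
            ENNReal.ofReal (p + Real.exp (-(Real.sqrt lam * R / 16))))
    (hupx : ∀ (n R : ℕ) (σ E g a ε q : ℝ) (i : Fin d), σ ≠ 0 → |σ| ≤ 1 → |E| ≤ 2 * d + 2 →
      1 ≤ n → 0 < ε → 0 < a → 0 ≤ q → CU * |σ| ^ (-A2) * (n : ℝ) ^ 2 * q ≤ 1 →
      12 + Real.log (1 / |σ|) ≤ ε * a * n →
      (∀ (N : ℕ) (b : Site d), box b (n + R + 1) ⊆ box 0 N →
        PP d (gl σ) {V | ¬ DL (box 0 N) E V b (b + Pi.single i (n : ℤ)) ≤ a * n} ≤
          ENNReal.ofReal q) →
      LyaAt d σ E g → g ≤ (1 + ε) * a)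
    {M' : ℕ} {v : ℝ≥0} {σ z μ t p : ℝ} (hσ : σ ≠ 0) (hσ1 : |σ| ≤ 1)
    (hv : (v : ℝ) = σ ^ 2) (hz : z ≤ 2 * d + 1) (hzl : |z| ≤ 2 * d + 1)
    (hμ : 9 * (1 / e * t) ≤ μ)
    (hflat : ∀ _ : NeZero M', gau d M' v {V | ¬ FlatE e z μ V} ≤ ENNReal.ofReal p)
    (hσt : 1 / |σ| ≤ t) (ht16 : 16 ≤ t) (hM : 1 / e * t + 3 ≤ M') (hp0 : 0 ≤ p)
    (hp : p ≤ 1 / (1 / e * t) ^ (N + 5)) (htU : 2 * CU ≤ t)
    (h3 : C2 * (4 + Real.log (1 / e) + 3 * Real.log t) ≤ Real.sqrt t)
    (h4 : 2 * (N + 5 : ℝ) * (Real.log (1 / e) + Real.log t) ≤ Real.sqrt t)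
    (h5 : 40 * (12 + Real.log t) ≤ Real.sqrt t)
    (h6 : 40 * (C2 * (1 + Real.log t)) ≤ Real.sqrt t)
    {E g : ℝ} (hE : z + 1 / t ≤ E) (hE2 : E ≤ z + 1 / 2) (hg : LyaAt d σ E g) :
    g ≤ (1 + e) * ((1 + (CP + 1) * e) * Real.sqrt (E - z)) := by
  have hσ0 : 0 < |σ| := abs_pos.2 hσ
  have ht0 : 0 < t := by linarith only [ht16]
  have h1t0 : 0 < 1 / t := by positivity
  obtain ⟨lam, hlam⟩ : ∃ lam : ℝ, lam = E - z := ⟨_, rfl⟩
  rw [← hlam]
  have hlt : 1 / t ≤ lam := by rw [hlam]; linarith only [hE]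
  have hlam0 : 0 < lam := by linarith only [hlam, h1t0, hE]
  have hlam2 : lam ≤ 1 / 2 := by rw [hlam]; linarith only [hE2]
  have hEl : E = z + lam := by rw [hlam]; ring
  obtain ⟨T, hT⟩ : ∃ T : ℝ, T = 1 / e * t := ⟨_, rfl⟩
  rw [← hT] at hM hμ hp
  have hT50 : 50 * t ≤ T := by
    have h7 : (50 : ℝ) ≤ 1 / e := by
      rw [le_div_iff₀ he0]; linarith only [he50]
    rw [hT]
    exact mul_le_mul_of_nonneg_right h7 ht0.le
  have hT0 : 0 < T := by linarith only [hT50, ht16]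
  have hTe : e * T = t := by rw [hT]; field_simp
  obtain ⟨n, hn⟩ : ∃ n : ℕ, n = ⌊T / 20⌋₊ := ⟨_, rfl⟩
  have hn20 : (n : ℝ) ≤ T / 20 := by rw [hn]; exact Nat.floor_le (by positivity)
  have hn40 : T / 40 ≤ n := by
    have : T / 20 < n + 1 := by rw [hn]; exact Nat.lt_floor_add_one _
    linarith only [this, hT50, ht16]
  have hn1R : (1 : ℝ) ≤ n := by linarith only [hn40, hT50, ht16]
  have hn1 : 1 ≤ n := by exact_mod_cast hn1R
  have hst0 : 0 < Real.sqrt t := Real.sqrt_pos.2 ht0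
  have hst : Real.sqrt t * Real.sqrt t = t := Real.mul_self_sqrt ht0.le
  have hsl0 : 0 < Real.sqrt lam := Real.sqrt_pos.2 hlam0
  have hsl : 1 / Real.sqrt t ≤ Real.sqrt lam := by
    have h7 := Real.sqrt_le_sqrt hlt
    rwa [Real.sqrt_div zero_le_one, Real.sqrt_one] at h7
  have hsln : Real.sqrt t / (40 * e) ≤ Real.sqrt lam * n := by
    calc Real.sqrt t / (40 * e) = (t / Real.sqrt t) / (40 * e) := by rw [Real.div_sqrt]
      _ = 1 / Real.sqrt t * (T / 40) := by rw [hT]; ring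
      _ ≤ Real.sqrt lam * n := mul_le_mul hsl hn40 (by positivity) hsl0.le
  have hesln : Real.sqrt t / 40 ≤ e * (Real.sqrt lam * n) := by
    calc Real.sqrt t / 40 = e * (Real.sqrt t / (40 * e)) := by field_simp
      _ ≤ e * (Real.sqrt lam * n) := mul_le_mul_of_nonneg_left hsln he0.le
  have hsR : 10 * Real.sqrt t ≤ Real.sqrt lam * (8 * n : ℕ) := by
    have h7 : 10 * Real.sqrt t ≤ 8 * (Real.sqrt t / (40 * e)) := by
      have h8 : 8 * (Real.sqrt t / (40 * e)) = Real.sqrt t * (1 / (5 * e)) := by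
        field_simp; norm_num
      rw [h8]
      have h9 : (10 : ℝ) ≤ 1 / (5 * e) := by
        rw [le_div_iff₀ (by positivity)]; linarith only [he50]
      calc 10 * Real.sqrt t = Real.sqrt t * 10 := by ring
        _ ≤ _ := mul_le_mul_of_nonneg_left h9 hst0.le
    push_cast
    calc 10 * Real.sqrt t ≤ 8 * (Real.sqrt lam * n) := by linarith only [h7, hsln]
      _ = _ := by ring
  have hlogt : 0 ≤ Real.log t := Real.log_nonneg (by linarith only [ht16])
  have hloge : 0 ≤ Real.log (1 / e) := Real.log_nonneg (by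
    rw [le_div_iff₀ he0]; linarith only [he50])
  have hl1 : Real.log (1 / lam) ≤ Real.log t := by
    refine Real.log_le_log (by positivity) ?_
    rw [div_le_iff₀ hlam0]
    rw [div_le_iff₀ ht0] at hlt
    linarith only [hlt]
  have hl2 : Real.log (1 / |σ|) ≤ Real.log t := Real.log_le_log (by positivity) hσt
  have hl3 : Real.log ((8 * n : ℕ) : ℝ) ≤ Real.log (1 / e) + Real.log t := by
    rw [← Real.log_mul (by positivity) ht0.ne', ← hT]
    refine Real.log_le_log (by positivity) ?_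
    push_cast
    linarith only [hn20]
  have hbig : 1 ≤ e * lam * μ := by
    have h7 : 1 ≤ lam * t := by
      rw [div_le_iff₀ ht0] at hlt
      linarith only [hlt]
    calc (1 : ℝ) ≤ lam * t := h7
      _ = e * lam * T := by rw [← hTe]; ring
      _ ≤ e * lam * μ := mul_le_mul_of_nonneg_left (by linarith only [hT50, hμ, ht16]) (by positivity)
  have hμ0 : 0 < μ := by linarith only [hT50, hμ, ht16]
  have hMn : 2 * (n + 8 * n) + 5 ≤ M' := by
    have h7 : ((2 * (n + 8 * n) + 5 : ℕ) : ℝ) ≤ (M' : ℝ) := by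
      push_cast
      linarith only [hn20, hT50, hM, ht16]
    exact_mod_cast h7
  obtain ⟨q, hq⟩ : ∃ q : ℝ, q = p + Real.exp (-(Real.sqrt lam * (8 * n : ℕ) / 16)) := ⟨_, rfl⟩
  have hq0 : 0 ≤ q := by rw [hq]; positivity
  obtain ⟨a, ha⟩ : ∃ a : ℝ, a = (1 + (CP + 1) * e) * Real.sqrt lam := ⟨_, rfl⟩
  have ha0 : 0 < a := by rw [ha]; positivity
  have hasl : Real.sqrt lam ≤ a := by
    rw [ha]
    calc Real.sqrt lam = 1 * Real.sqrt lam := (one_mul _).symm
      _ ≤ _ := mul_le_mul_of_nonneg_right (by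
        have : 0 ≤ (CP + 1) * e := by positivity
        linarith only [this]) hsl0.le
  have hcondR : ∀ (N : ℕ) (b : Site d), box b (n + 8 * n + 1) ⊆ box 0 N → ∀ i : Fin d,
      PP d (gl σ) {V | ¬ DL (box 0 N) E V b (b + Pi.single i (n : ℤ)) ≤ a * n} ≤
        ENNReal.ofReal q := by
    intro N b hb i
    have h7 := hcdp M' n (8 * n) N v σ z μ lam p b i hσ hσ1 hv hz hlam0 hlam2 hμ0 hbig hflat hMn
      (le_refl _) hb (by
        have h8 : C2 * (1 + Real.log (1 / lam) + Real.log (1 / |σ|) + Real.log ((8 * n : ℕ) : ℝ)) ≤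
            C2 * (4 + Real.log (1 / e) + 3 * Real.log t) :=
          mul_le_mul_of_nonneg_left (by linarith only [hl3, hl2, hl1]) (by linarith only [hC2])
        linarith only [h8, hsR, hst0, h3])
    rw [← hEl, ← hq] at h7
    refine (measure_mono ?_).trans h7
    intro V hV hcon
    apply hV
    refine hcon.trans ?_
    have h8 : C2 * (1 + Real.log (1 / lam)) ≤ e * (Real.sqrt lam * n) := by
      have h9 : C2 * (1 + Real.log (1 / lam)) ≤ C2 * (1 + Real.log t) :=
        mul_le_mul_of_nonneg_left (by linarith only [hl1]) (by linarith only [hC2])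
      linarith only [h9, hesln, h6]
    rw [ha]
    calc (1 + CP * e) * Real.sqrt lam * n + C2 * (1 + Real.log (1 / lam))
        ≤ (1 + CP * e) * Real.sqrt lam * n + e * (Real.sqrt lam * n) := by linarith only [h8]
      _ = (1 + (CP + 1) * e) * Real.sqrt lam * n := by ring
  rw [← ha]
  have hi0 : Fin d := ⟨0, by omega⟩
  refine hupx n (8 * n) σ E g a e q hi0 hσ hσ1 ?_ hn1 he0 ha0 hq0 ?_ ?_
    (fun N b hb => hcondR N b hb hi0) hg
  · rw [hEl]
    refine (abs_add_le _ _).trans ?_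
    rw [abs_of_pos hlam0]
    linarith only [hlam, hE2, hzl]
  · -- the numbers
    have hT1 : 1 ≤ T := by linarith only [hT50, ht16]
    have e1 : |σ| ^ (-A2) ≤ T ^ N := by
      have h7 : |σ| ^ (-A2) = (1 / |σ|) ^ A2 := by
        rw [Real.rpow_neg hσ0.le, one_div, Real.inv_rpow hσ0.le]
      rw [h7, ← Real.rpow_natCast T N]
      calc (1 / |σ|) ^ A2 ≤ T ^ A2 :=
            Real.rpow_le_rpow (by positivity) (by linarith only [hT50, ht16, hσt]) hA2
        _ ≤ T ^ (N : ℝ) := Real.rpow_le_rpow_of_exponent_le hT1 hA2N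
    have e2 : (n : ℝ) ^ 2 ≤ T ^ 2 := pow_le_pow_left₀ (by linarith only []) (by linarith only [hn20]) 2
    have e3 : Real.exp (-(Real.sqrt lam * (8 * n : ℕ) / 16)) ≤ 1 / T ^ (N + 5) := by
      have h7 : Real.log (T ^ (N + 5)) ≤ Real.sqrt lam * (8 * n : ℕ) / 16 := by
        rw [Real.log_pow, hT, Real.log_mul (by positivity) ht0.ne']
        push_cast at hsR ⊢
        have : 0 ≤ (N + 5 : ℝ) * (Real.log (1 / e) + Real.log t) := by positivity
        linarith only [hsR, hst0, h4]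
      rw [Real.exp_neg, one_div]
      apply inv_anti₀ (by positivity)
      rw [← Real.log_le_iff_le_exp (by positivity)]
      exact h7
    have e4 : q ≤ 2 / T ^ (N + 5) := by
      rw [hq]
      calc p + Real.exp (-(Real.sqrt lam * (8 * n : ℕ) / 16)) ≤ 1 / T ^ (N + 5) + 1 / T ^ (N + 5) :=
            add_le_add hp e3
        _ = 2 / T ^ (N + 5) := by ring
    calc CU * |σ| ^ (-A2) * (n : ℝ) ^ 2 * q ≤ CU * T ^ N * T ^ 2 * (2 / T ^ (N + 5)) := by
          have : 0 ≤ |σ| ^ (-A2) := Real.rpow_nonneg hσ0.le _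
          gcongr
      _ = (2 * CU) / T ^ 3 := by
          rw [← mul_div_assoc, div_eq_div_iff (by positivity) (by positivity)]
          ring
      _ ≤ T / T ^ 3 := by
          have : 2 * CU ≤ T := by linarith only [hT50, htU, hCU]
          gcongr
      _ = 1 / T ^ 2 := by
          rw [div_eq_div_iff (by positivity) (by positivity)]
          ring
      _ ≤ 1 := by
          rw [div_le_one (by positivity)]
          exact one_le_pow₀ hT1
  · have h7 : Real.sqrt t / 40 ≤ e * a * n := by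
      calc Real.sqrt t / 40 ≤ e * (Real.sqrt lam * n) := hesln
        _ ≤ e * (a * n) := by
            refine mul_le_mul_of_nonneg_left ?_ he0.le
            exact mul_le_mul_of_nonneg_right hasl (by linarith only [])
        _ = _ := by ring
    linarith only [h7, hl2, h5]

theorem aux1 {x y : ℝ} (hx : 0 ≤ x) (hy : 0 ≤ y) : x + y ≤ (x + 1) * (1 + y) := by
  nlinarith only [mul_nonneg hx hy]

theorem aux2 {x y : ℝ} (hx : 0 ≤ x) (hy : 0 ≤ y) : 4 + x + 3 * y ≤ (4 + x) * (1 + y) := by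
  nlinarith only [hy, mul_nonneg hx hy]

theorem aux3 {e : ℝ} (he0 : 0 < e) (he50 : e ≤ 1 / 50) : 1 / 2 ≤ (1 - e) * (1 - 2 * e) := by
  nlinarith only [he50]

theorem aux4 {e ε : ℝ} (he0 : 0 < e) (he4 : 4 * e ≤ ε) : 1 - ε ≤ (1 - e) * (1 - 2 * e) := by
  nlinarith only [he4, he0, mul_pos he0 he0]

theorem aux5 {e CP ε : ℝ} (he0 : 0 < e) (he50 : e ≤ 1 / 50) (heCP : CP * e ≤ 1)
    (heC : e * (CP + 4) ≤ ε) : (1 + e) * (1 + (CP + 1) * e) ≤ 1 + ε := by
  have h2 : (CP + 1) * e ≤ 2 := by linarith only [heCP, he50]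
  have h3 : e * ((CP + 1) * e) ≤ e * 2 := mul_le_mul_of_nonneg_left h2 he0.le
  linarith only [h3, heC]

theorem aux6 {e x : ℝ} (he0 : 0 < e) (he1 : e ≤ 1) (hx0 : 0 < x) :
    e * Real.sqrt (min x 1) ≤ Real.sqrt (min x e) := by
  have hx1 : 0 < min x 1 := lt_min hx0 one_pos
  have h1 : e * min x 1 ≤ min x e := by
    refine le_min ?_ ?_
    · have h2 : e * min x 1 ≤ 1 * min x 1 := mul_le_mul_of_nonneg_right he1 hx1.le
      rw [one_mul] at h2
      exact h2.trans (min_le_left _ _)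
    · have h2 : e * min x 1 ≤ e * 1 := mul_le_mul_of_nonneg_left (min_le_right _ _) he0.le
      linarith only [h2]
  refine le_trans ?_ (Real.sqrt_le_sqrt h1)
  rw [Real.sqrt_mul he0.le]
  refine mul_le_mul_of_nonneg_right ?_ (Real.sqrt_nonneg _)
  exact Real.le_sqrt_of_sq_le (by nlinarith only [he1, he0])

theorem qms (crt : CrtStmt) (osc : OscBStmt) (nux : NuxStmt) (inf : InfStmt) (fle : FleStmt)
    (sgx : SgxStmt) (sms : SmsStmt) (cdp : CdpStmt) (upx : UpxStmt) : QmsStmt := by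
  intro d ε hd3 hε hε1
  have hd : 1 ≤ d := by omega
  have hdR : (1 : ℝ) ≤ d := by exact_mod_cast hd
  obtain ⟨CP, hCP, hcdp'⟩ := cdp d hd
  obtain ⟨e, hedef⟩ : ∃ e : ℝ, e = min (min (ε / 4) (ε / (CP + 4))) (min (1 / 50) (1 / CP)) :=
    ⟨_, rfl⟩
  have he0 : 0 < e := by rw [hedef]; positivity
  have he4 : 4 * e ≤ ε := by
    have : e ≤ ε / 4 := by rw [hedef]; exact (min_le_left _ _).trans (min_le_left _ _)
    linarith only [this]
  have heC : e * (CP + 4) ≤ ε := by
    have : e ≤ ε / (CP + 4) := by rw [hedef]; exact (min_le_left _ _).trans (min_le_right _ _)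
    rwa [le_div_iff₀ (by positivity)] at this
  have he50 : e ≤ 1 / 50 := by
    rw [hedef]; exact (min_le_right _ _).trans (min_le_left _ _)
  have heCP : CP * e ≤ 1 := by
    have : e ≤ 1 / CP := by rw [hedef]; exact (min_le_right _ _).trans (min_le_right _ _)
    rw [le_div_iff₀ (by positivity)] at this
    linarith only [heC, he0, hε1]
  obtain ⟨c0, C0, C1, hc0, hC0, hC1, hfle⟩ := fle d e hd3 he0 he50
  obtain ⟨cN, CN, hcN, hcN4, hCN, hcore⟩ := wbeZ crt osc nux inf hd hC1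
  obtain ⟨A, p₀, hA, hp₀, hsms⟩ := sms d e hd he0 (by linarith only [he4, hε1])
  obtain ⟨C2, hC2, hcdp⟩ := hcdp' e he0 he50 heCP
  obtain ⟨A2, CU, hA2, hCU, hupx⟩ := upx d hd
  obtain ⟨N, hN⟩ := exists_nat_ge A2
  have hloge : 0 ≤ Real.log (1 / e) := Real.log_nonneg (by
    rw [le_div_iff₀ he0]; linarith only [he4, hε1])
  have hlog2e : 0 ≤ Real.log (2 / e) := Real.log_nonneg (by
    rw [le_div_iff₀ he0]; linarith only [he4, hε1])
  obtain ⟨b1, hb1⟩ : ∃ x : ℝ, x = 16 * (Real.log (2 / e) + 1) := ⟨_, rfl⟩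
  obtain ⟨b2, hb2⟩ : ∃ x : ℝ, x = A * (4 + Real.log (2 / e)) := ⟨_, rfl⟩
  obtain ⟨b3, hb3⟩ : ∃ x : ℝ, x = C2 * (4 + Real.log (1 / e)) := ⟨_, rfl⟩
  obtain ⟨b4, hb4⟩ : ∃ x : ℝ, x = 2 * (N + 5 : ℝ) * (Real.log (1 / e) + 1) := ⟨_, rfl⟩
  have hb10 : 0 ≤ b1 := by rw [hb1]; positivity
  have hb20 : 0 ≤ b2 := by rw [hb2]; positivity
  have hb30 : 0 ≤ b3 := by rw [hb3]; positivity
  have hb40 : 0 ≤ b4 := by rw [hb4]; positivity
  obtain ⟨T₀, hT₀, hlogT⟩ := log_le_sqrt (b1 + b2 + b3 + b4 + 480 + 40 * C2)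
  have hT₀0 : 0 < T₀ := by linarith only [hT₀]
  obtain ⟨c, hcdef⟩ : ∃ c : ℝ, c = min (min (min cN (c0 * e / (2 * (d + N + 7))))
    (min (e / 2) p₀)) (min (min (1 / (C0 * 3 ^ d + 50)) (1 / (4 * C0 + 1)))
      (min (1 / T₀) (1 / (2 * CU)))) := ⟨_, rfl⟩
  have hc : 0 < c := by rw [hcdef]; positivity
  have hc1 : c ≤ cN := by
    rw [hcdef]; exact (min_le_left _ _).trans ((min_le_left _ _).trans (min_le_left _ _))
  have hc2 : 2 * (1 / e) * c * (d + N + 7) ≤ c0 := by
    have : c ≤ c0 * e / (2 * (d + N + 7)) := by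
      rw [hcdef]; exact (min_le_left _ _).trans ((min_le_left _ _).trans (min_le_right _ _))
    rw [le_div_iff₀ (by positivity)] at this
    calc 2 * (1 / e) * c * (d + N + 7) = 1 / e * (c * (2 * (d + N + 7))) := by ring
      _ ≤ 1 / e * (c0 * e) := mul_le_mul_of_nonneg_left this (by positivity)
      _ = c0 := by field_simp
  have hce2 : c ≤ e / 2 := by
    rw [hcdef]; exact (min_le_left _ _).trans ((min_le_right _ _).trans (min_le_left _ _))
  have hcp : c ≤ p₀ := by
    rw [hcdef]; exact (min_le_left _ _).trans ((min_le_right _ _).trans (min_le_right _ _))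
  have hc4 : (C0 * 3 ^ d + 50) * c ≤ 1 := by
    have : c ≤ 1 / (C0 * 3 ^ d + 50) := by
      rw [hcdef]; exact (min_le_right _ _).trans ((min_le_left _ _).trans (min_le_left _ _))
    rw [le_div_iff₀ (by positivity)] at this
    linarith only [this]
  have hc5 : (4 * C0 + 1) * c ≤ 1 := by
    have : c ≤ 1 / (4 * C0 + 1) := by
      rw [hcdef]; exact (min_le_right _ _).trans ((min_le_left _ _).trans (min_le_right _ _))
    rw [le_div_iff₀ (by positivity)] at this
    linarith only [this]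
  have hc7 : T₀ * c ≤ 1 := by
    have : c ≤ 1 / T₀ := by
      rw [hcdef]; exact (min_le_right _ _).trans ((min_le_right _ _).trans (min_le_left _ _))
    rw [le_div_iff₀ (by positivity)] at this
    linarith only [this]
  have hc8 : 2 * CU * c ≤ 1 := by
    have : c ≤ 1 / (2 * CU) := by
      rw [hcdef]; exact (min_le_right _ _).trans ((min_le_right _ _).trans (min_le_right _ _))
    rw [le_div_iff₀ (by positivity)] at this
    linarith only [this]
  have hce : c ≤ e := by linarith only [hce2, he0]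
  refine ⟨c, 2 * C0 + CN, hc, by positivity, ?_⟩
  intro σ t hσ hσc hσt hu
  have hσ0 : 0 < |σ| := abs_pos.2 hσ
  have hσ1 : |σ| ≤ 1 := by linarith only [hσc, hc1, hcN4]
  have ht1c : 1 / c ≤ t := (one_div_le_one_div_of_le hσ0 hσc).trans hσt
  have hct : 1 ≤ c * t := by
    rw [div_le_iff₀ hc] at ht1c
    linarith only [ht1c]
  have ht0 : 0 < t := lt_of_lt_of_le (by positivity) hσt
  have hbig : ∀ B : ℝ, 0 ≤ B → B * c ≤ 1 → B ≤ t := by
    intro B hB hBc
    have h1 : (B * c) * t ≤ 1 * t := mul_le_mul_of_nonneg_right hBc ht0.le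
    have h2 : B * 1 ≤ B * (c * t) := mul_le_mul_of_nonneg_left hct hB
    linarith only [h2, h1]
  have htb : C0 * 3 ^ d + 50 ≤ t := hbig _ (by positivity) hc4
  have htT : T₀ ≤ t := hbig _ (by positivity) hc7
  have htU : 2 * CU ≤ t := hbig _ (by positivity) hc8
  have hC3 : 0 < C0 * 3 ^ d := by positivity
  have ht50 : 50 ≤ t := by linarith only [hC3, htb]
  have hte : 1 / e ≤ t := by
    refine hbig _ (by positivity) ?_
    rw [div_mul_eq_mul_div, one_mul, div_le_one he0]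
    exact hce
  have h1tc : 1 / t ≤ c := by
    rw [div_le_iff₀ ht0]
    linarith only [hct]
  have h1te : 1 / t ≤ e := h1tc.trans hce
  have hlogt : 0 ≤ Real.log t := Real.log_nonneg (by linarith only [htT, hT₀])
  have hlt1 : 1 ≤ 1 + Real.log t := by linarith only [hlogt]
  have hbig2 := hlogT t htT
  have hsq0 := Real.sqrt_nonneg t
  have hb : ∀ b : ℝ, b ≤ b1 + b2 + b3 + b4 + 480 + 40 * C2 → b * (1 + Real.log t) ≤ Real.sqrt t :=
    fun b hb => (mul_le_mul_of_nonneg_right hb (by linarith only [hlogt])).trans hbig2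
  have hC20 : 0 ≤ 40 * C2 := by linarith only [hC2]
  have r1 : 16 * (Real.log (2 / e) + Real.log t) ≤ Real.sqrt t := by
    refine le_trans ?_ (hb b1 (by linarith only [hb20, hb30, hb40, hC20]))
    rw [hb1, mul_assoc]
    exact mul_le_mul_of_nonneg_left (aux1 hlog2e hlogt) (by norm_num)
  have r2 : A * (1 + Real.log (2 / e) + 3 * Real.log t) ≤ Real.sqrt t := by
    refine le_trans ?_ (hb b2 (by linarith only [hb10, hb30, hb40, hC20]))
    rw [hb2, mul_assoc]
    refine mul_le_mul_of_nonneg_left ?_ (by linarith only [hA])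
    have := aux2 hlog2e hlogt
    linarith only [this]
  have r3 : C2 * (4 + Real.log (1 / e) + 3 * Real.log t) ≤ Real.sqrt t := by
    refine le_trans ?_ (hb b3 (by linarith only [hb10, hb20, hb40, hC20]))
    rw [hb3, mul_assoc]
    exact mul_le_mul_of_nonneg_left (aux2 hloge hlogt) (by linarith only [hC2])
  have r4 : 2 * (N + 5 : ℝ) * (Real.log (1 / e) + Real.log t) ≤ Real.sqrt t := by
    refine le_trans ?_ (hb b4 (by linarith only [hb10, hb20, hb30, hC20]))
    rw [hb4, mul_assoc (2 * (N + 5 : ℝ))]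
    exact mul_le_mul_of_nonneg_left (aux1 hloge hlogt) (by positivity)
  have r5 : 40 * (12 + Real.log t) ≤ Real.sqrt t := by
    refine le_trans ?_ (hb 480 (by linarith only [hb10, hb20, hb30, hb40, hC20]))
    linarith only [hlogt]
  have r6 : 40 * (C2 * (1 + Real.log t)) ≤ Real.sqrt t := by
    refine le_trans (le_of_eq ?_) (hb (40 * C2) (by linarith only [hb10, hb20, hb30, hb40]))
    ring
  obtain ⟨T, hT⟩ : ∃ T : ℝ, T = 1 / e * t := ⟨_, rfl⟩
  have hT50 : 50 * t ≤ T := by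
    have h7 : (50 : ℝ) ≤ 1 / e := by
      rw [le_div_iff₀ he0]; linarith only [he50]
    rw [hT]
    exact mul_le_mul_of_nonneg_right h7 ht0.le
  have hT0 : 0 < T := by linarith only [hT50, ht0]
  have huT : σ ^ 2 * growth d T * Real.log T ≤ 2 * (1 / e) * c := by
    rw [hT]
    exact scale_T he0 (by linarith only [he4, hε1]) hte hu hσ
  obtain ⟨M', hM'⟩ : ∃ M' : ℕ, M' = ⌈T⌉₊ + 10 := ⟨_, rfl⟩
  have hM1 : T + 10 ≤ M' := by
    rw [hM']
    push_cast
    have := Nat.le_ceil T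
    linarith only [this]
  have hM2 : (M' : ℝ) ≤ 3 * T := by
    rw [hM']
    push_cast
    have := Nat.ceil_lt_add_one hT0.le
    linarith only [this, hT50, htT, hT₀]
  obtain ⟨p, hp⟩ : ∃ p : ℝ, p = C0 * (1 + Real.log T) * (M' : ℝ) ^ d *
    Real.exp (-c0 / (σ ^ 2 * growth d T)) := ⟨_, rfl⟩
  have hM0 : (0 : ℝ) < M' := by linarith only [hM1, hT50, ht0]
  have hlogTT : 0 ≤ Real.log T := Real.log_nonneg (by linarith only [hT50, htT, hT₀])
  have hp0 : 0 < p := by rw [hp]; positivity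
  have hpN : p ≤ 1 / T ^ (N + 5) := by
    rw [hp]
    refine p_pow (N := N + 4) hc0 hC0 hσ (by linarith only [hT50, htT, hT₀]) ?_ hM2 huT (by linarith only [hT50, htb, ht0])
    refine le_trans (le_of_eq ?_) hc2
    push_cast
    ring
  have hT1 : 1 ≤ T := by linarith only [hT50, htT, hT₀]
  have hpow : ∀ m : ℕ, m ≤ N + 5 → p ≤ 1 / T ^ m := fun m hm => by
    refine hpN.trans (one_div_le_one_div_of_le (by positivity) ?_)
    exact pow_le_pow_right₀ hT1 hm
  have hpt1 : p ≤ 1 / T := by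
    have := hpow 1 (by omega)
    rwa [pow_one] at this
  have hp2 : p ≤ 1 / 2 := hpt1.trans (one_div_le_one_div_of_le (by norm_num) (by linarith only [hT50, htT, hT₀]))
  have h1Tt : 1 / T ≤ 1 / t := one_div_le_one_div_of_le ht0 (by linarith only [hT50, ht0])
  have hsq : Real.sqrt p ≤ 1 / t := by
    refine le_trans ?_ h1Tt
    rw [Real.sqrt_le_left (by positivity)]
    refine (hpow 2 (by omega)).trans (le_of_eq ?_)
    rw [div_pow, one_pow]
  have hM3 : 3 ≤ M' := by omega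
  obtain ⟨v, hv⟩ : ∃ v : ℝ≥0, (v : ℝ) = σ ^ 2 := ⟨⟨σ ^ 2, sq_nonneg σ⟩, rfl⟩
  obtain ⟨z, μ, hz, hz3, hμ, hflat, hcond⟩ := hfle M' v σ T p hσ hσ1 hv hM3 (by linarith only [hT50, htT, hT₀])
    (by linarith only [hM1]) hp hp2
  have hσsq : σ ^ 2 ≤ |σ| := by
    rw [← sq_abs, pow_two]
    have := mul_le_mul_of_nonneg_left hσ1 hσ0.le
    linarith only [this]
  have hσsq0 := sq_nonneg σ
  have h1t0 : 0 < 1 / t := by positivity
  have hz2 : |z - 2 * d| ≤ 2 * C0 * (σ ^ 2 + 1 / t) := by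
    refine hz.trans ?_
    have h1 : σ ^ 2 + 1 / T + Real.sqrt p ≤ 2 * (σ ^ 2 + 1 / t) := by linarith only [hv, hsq, h1Tt]
    have := mul_le_mul_of_nonneg_left h1 hC0.le
    linarith only [this]
  have hz1 : |z| ≤ 2 * d + 1 := by
    have h1 : |z - 2 * d| ≤ 1 := by
      refine hz2.trans ?_
      have h3 : σ ^ 2 + 1 / t ≤ 2 * c := by linarith only [hσsq, h1tc, hσc]
      calc 2 * C0 * (σ ^ 2 + 1 / t) ≤ 2 * C0 * (2 * c) :=
            mul_le_mul_of_nonneg_left h3 (by positivity)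
        _ ≤ 1 := by linarith only [hc5, hc]
    have h2 := abs_add_le (z - 2 * d) (2 * d)
    rw [sub_add_cancel, abs_of_nonneg (by positivity : (0 : ℝ) ≤ 2 * d)] at h2
    linarith only [h2, h1]
  have hμT : 9 * (1 / e * t) ≤ μ := by rw [← hT]; exact hμ
  have hμ0 : 0 < μ := by linarith only [hμ, hT0]
  have hMT : 1 / e * t + 3 ≤ M' := by rw [← hT]; linarith only [hM1]
  have ht16 : 16 ≤ t := by linarith only [ht50]
  have hpT : p ≤ 1 / (1 / e * t) ^ (N + 5) := by rw [← hT]; exact hpN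
  have hpp0 : p ≤ p₀ := hpt1.trans (h1Tt.trans (h1tc.trans hcp))
  have hA20 : 0 ≤ A2 := by linarith only [hA2]
  have hc12 : c ≤ 1 / 2 := by linarith only [hce2, he50]
  have hne : NeZero M' := ⟨by omega⟩
  have hflatF : gau d M' v {V | ¬ Flat z μ V} ≤ ENNReal.ofReal p := by
    refine (measure_mono ?_).trans (hflat hne)
    intro V hV hcon
    refine hV ⟨hcon.1, hcon.2.1, fun x => (hcon.2.2 x).trans ?_⟩
    have := mul_le_mul_of_nonneg_right he50 hμ0.le
    linarith only [this]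
  have hlow : ∀ E g : ℝ, z + 1 / t ≤ E → LyaAt d σ E g →
      (1 - e) * ((1 - 2 * e) * Real.sqrt (min (E - z) e)) ≤ g := fun E g hE hg =>
    lowZ sgx hd he0 he50 hA hsms hσ hσ1 hv hμ0 hz3 hflatF hpp0
      hσt ht16 h1te hMT r1 r2 hE hg
  refine ⟨z, ?_, ?_, ?_, ?_⟩
  · refine hz2.trans ?_
    have h0 : 0 ≤ σ ^ 2 + 1 / t := by positivity
    exact mul_le_mul_of_nonneg_right (by linarith only [hCN]) h0
  · intro E g hE hg
    refine le_trans ?_ (hlow E g hE hg)
    have hx0 : 0 < E - z := by linarith only [hE, h1t0]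
    have h2 := aux6 he0 (by linarith only [he50]) hx0
    have h3 := aux3 he0 he50
    have h4 := Real.sqrt_nonneg (min (E - z) 1)
    calc c * Real.sqrt (min (E - z) 1) ≤ e / 2 * Real.sqrt (min (E - z) 1) :=
          mul_le_mul_of_nonneg_right hce2 h4
      _ = 1 / 2 * (e * Real.sqrt (min (E - z) 1)) := by ring
      _ ≤ (1 - e) * (1 - 2 * e) * Real.sqrt (min (E - z) e) :=
          mul_le_mul h3 h2 (by positivity) (by linarith only [h3])
      _ = _ := by ring
  · intro E g hE hE2 hg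
    have hlam : 0 < E - z := by linarith only [hE, h1t0]
    have hs := Real.sqrt_nonneg (E - z)
    constructor
    · refine le_trans ?_ (hlow E g hE hg)
      rw [min_eq_left (by linarith only [hE2, hce]), ← mul_assoc]
      exact mul_le_mul_of_nonneg_right (aux4 he0 he4) hs
    · have hE3 : E ≤ z + 1 / 2 := by linarith only [hE2, hc12]
      have h0 := upZ hd he0 he50 hCP hC2 hN hA20 hCU hcdp hupx hσ hσ1 hv hz3 hz1 hμT
        hflat hσt ht16 hMT hp0.le hpT htU r3 r4 r5 r6 hE hE3 hg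
      refine h0.trans ?_
      rw [← mul_assoc]
      exact mul_le_mul_of_nonneg_right (aux5 he0 he50 heCP heC) hs
  · intro E g hE hg
    have hσT : 1 / |σ| ≤ T := by linarith only [hσt, hT50, ht50]
    have hMT2 : T + 2 ≤ M' := by linarith only [hM1]
    have h0 := hcore M' σ T p z hσ (hσc.trans hc1) hσT hMT2 hp0 hpt1 hz1 hcond E g hE hg
    refine h0.trans ?_
    have h1t : 1 / t ≤ |σ| := by
      rw [div_le_iff₀ ht0]
      rw [div_le_iff₀ hσ0] at hσt
      linarith only [hσt]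
    have h1T0 : 0 < 1 / T := by positivity
    have hEz := abs_nonneg (E - z)
    have hb0 : 0 < |E - z| + 1 / T := by linarith only [hEz, h1T0]
    have hb1 : |E - z| + 1 / T ≤ 1 := by linarith only [hE, h1Tt, h1t, hσc, hc12]
    have h1 : (|E - z| + 1 / T) ^ cN ≤ (|E - z| + 1 / T) ^ c :=
      Real.rpow_le_rpow_of_exponent_ge hb0 hb1 hc1
    have h3 : (|E - z| + 1 / T) ^ c ≤ (|E - z| + 1 / t) ^ c :=
      Real.rpow_le_rpow hb0.le (by linarith only [h1Tt]) hc.le
    have h2 : 0 ≤ (|E - z| + 1 / t) ^ c :=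
      Real.rpow_nonneg (by linarith only [hEz, h1t0]) _
    calc CN * (|E - z| + 1 / T) ^ cN ≤ CN * (|E - z| + 1 / t) ^ c :=
          mul_le_mul_of_nonneg_left (h1.trans h3) hCN.le
      _ ≤ (2 * C0 + CN) * (|E - z| + 1 / t) ^ c :=
          mul_le_mul_of_nonneg_right (by linarith only [hC0]) h2

end Pool.Agent.LE.H93Z
end
end -- Pool.Agent.Helper93_LSH.QMS
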