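import Pool.Agent.Helper12_MEB.B035

/-!
# Merged copies (generated) of the modules

* `Pool.Agent.Helper98_Mob.Ann`
* `Pool.Agent.Helper42_LE.Tol`
* `Pool.Agent.Helper6_Mob.Sep`
* `Pool.Agent.Helper3_LE.ConA`
* `Pool.Agent.Helper3_LE.ZooG`
-/

set_option autoImplicit false

section -- Pool.Agent.Helper98_Mob.Ann

/-!
# ANN: the initial scale estimate from the cells
-/

set_option autoImplicit false
set_option linter.unusedSectionVars false

open MeasureTheory ProbabilityTheory Function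

open scoped ENNReal BigOperators

noncomputable section

namespace Pool.Agent.Mob.H98

open Pool.Agent.Anderson Pool.Agent.Loc

variable {d : ℕ} {ν : Measure ℝ} [IsProbabilityMeasure ν] {ρ : ℝ}

theorem PL_weak_sub (hν : BddDens ν ρ) {A Λ : Finset (Site d)} (hA : A ⊆ Λ) (E : ℝ)
    (x y : Site d) {τ : ℝ} (hτ : 0 < τ) :
    PL ν Λ {V | τ < |gr V A E x y|} ≤ ENNReal.ofReal (6 * ρ / τ) := by
  have hS : MeasurableSet {V : Site d → ℝ | τ < |gr V A E x y|} :=
    measurableSet_lt measurable_const (measurable_gr A E x y).abs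
  have h1 := PL_weak hν A E x y hτ
  rw [PL_apply _ hS] at h1 ⊢
  rw [marg_subset (measurable_one.indicator hS) _ hA]
  · exact h1
  · exact only_indicator fun V V' hVV => by
      rw [Set.mem_ofPred_eq, Set.mem_ofPred_eq, gr_congr hVV]

/-- Cauchy-Schwarz for `pg` on an event. -/
theorem pg_event (hν : BddDens ν ρ) (Λ : Finset (Site d)) (E : ℝ) (x y : Site d)
    (B : Set (Site d → ℝ)) (hB : MeasurableSet B) {R : ℝ} (hR : 0 ≤ R)
    (h : PL ν Λ B ≤ ENNReal.ofReal R) :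
    ∫⁻ V in B, pg Λ E x y V ∂(PL ν Λ) ≤ ENNReal.ofReal (√((1 + 2 * √(6 * ρ)) * R)) := by
  have hm : Measurable (pg Λ E x y) := measurable_pg Λ E x y
  have h1 : ∫⁻ V, pg Λ E x y V ^ (2 : ℝ) ∂(PL ν Λ) ≤ ENNReal.ofReal (1 + 2 * √(6 * ρ)) := by
    have h2 : ∀ V, pg Λ E x y V ^ (2 : ℝ) ≤ 1 + ENNReal.ofReal (√|gr V Λ E x y|) := by
      intro V
      have := p8_sq_le (gr V Λ E x y)
      have e : pg Λ E x y V ^ (2 : ℝ) = p8 (gr V Λ E x y) ^ 2 := by
        rw [← ENNReal.rpow_natCast]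
        norm_num [pg]
      rw [e]
      exact this
    calc _ ≤ ∫⁻ V, (1 + ENNReal.ofReal (√|gr V Λ E x y|)) ∂(PL ν Λ) := lintegral_mono h2
      _ = 1 + ∫⁻ V, ENNReal.ofReal (√|gr V Λ E x y|) ∂(PL ν Λ) := by
        rw [lintegral_add_left measurable_const, lintegral_const, measure_univ, mul_one]
      _ ≤ 1 + ENNReal.ofReal (2 * √(6 * ρ)) := by
        gcongr
        exact PL_sqrt hν Λ E x y
      _ = ENNReal.ofReal (1 + 2 * √(6 * ρ)) := by
        rw [← ENNReal.ofReal_one, ← ENNReal.ofReal_add (by norm_num) (by positivity)]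
  have h3 := ENNReal.lintegral_mul_le_Lp_mul_Lq (PL ν Λ) Real.HolderConjugate.two_two
    (f := pg Λ E x y) (g := B.indicator (1 : (Site d → ℝ) → ℝ≥0∞)) hm.aemeasurable
    (measurable_one.indicator hB).aemeasurable
  have h4 : ∫⁻ V, (pg Λ E x y * B.indicator (1 : (Site d → ℝ) → ℝ≥0∞)) V ∂(PL ν Λ) =
      ∫⁻ V in B, pg Λ E x y V ∂(PL ν Λ) := by
    rw [← lintegral_indicator hB]
    apply lintegral_congr
    intro V
    by_cases hV : V ∈ B
    · simp [hV]
    · simp [hV]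
  have h5 : ∫⁻ V, (B.indicator (1 : (Site d → ℝ) → ℝ≥0∞)) V ^ (2 : ℝ) ∂(PL ν Λ) = PL ν Λ B := by
    rw [← lintegral_indicator_one hB]
    apply lintegral_congr
    intro V
    by_cases hV : V ∈ B
    · simp [hV]
    · simp [hV]
  rw [h4, h5] at h3
  refine h3.trans ?_
  rw [Real.sqrt_eq_rpow, ← ENNReal.ofReal_rpow_of_nonneg (by positivity) (by norm_num),
    ENNReal.ofReal_mul (by positivity), ENNReal.mul_rpow_of_nonneg _ _ (by norm_num)]
  gcongr

theorem ann (hana : AnaStmt) (hanb : AnbStmt) : AnnStmt := by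
  intro d ν _ ρ hν m ℓ A τ p E hm hℓ hA hτ hp hcell x u hxu
  have hρ := hν.1
  set L : ℕ := 10 * (m + 1) * ℓ with hL
  set Λ := box x L with hΛ
  set t₀ : ℝ := τ ^ 2 * A * (2 * d * (20 * (m + 1) * ℓ + 1) ^ d) ^ 2 with ht₀
  set R : ℝ := (m + 1) * ((20 * (m + 1) * ℓ + 1) ^ d) ^ 2 * (6 * ρ / τ) +
    ((20 * m + 23) ^ d * p) ^ m with hR
  have hsub : ∀ i : ℕ, i ≤ m → box x (10 * i * ℓ) ⊆ Λ := by
    intro i hi
    apply box_mono
    rw [hL]
    gcongr
    omega
  set N0 : Set (Site d → ℝ) := {V | (RM V Λ E).det = 0} with hN0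
  set N1 : Set (Site d → ℝ) :=
    ⋃ i ∈ Finset.Icc 1 m, {V | (RM V (box x (10 * i * ℓ)) E).det = 0} with hN1
  set W1 : Set (Site d → ℝ) := ⋃ i ∈ Finset.Icc 1 m, ⋃ v ∈ Λ,
    {V | τ < |gr V (box x (10 * i * ℓ)) E x v|} with hW1
  set W2 : Set (Site d → ℝ) := ⋃ w ∈ Λ, {V | τ < |gr V Λ E w u|} with hW2
  set B3 : Set (Site d → ℝ) :=
    {V | ∀ i : ℕ, 1 ≤ i → i ≤ m → ∃ c ∈ cells x ℓ i, ¬ CellGood V c ℓ A E} with hB3
  have e0 : PL ν Λ N0 = 0 := PL_det hν Λ Λ le_rfl E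
  have e1 : PL ν Λ N1 = 0 := by
    refine le_antisymm ((measure_biUnion_finset_le _ _).trans ?_) zero_le
    apply le_of_eq
    apply Finset.sum_eq_zero
    intro i hi
    exact PL_det hν _ _ (hsub i (Finset.mem_Icc.1 hi).2) E
  have hcard : (Λ.card : ℝ) = (20 * (m + 1) * ℓ + 1) ^ d := by
    rw [hΛ, card_box, hL]
    push_cast
    ring
  have hc1 : (1 : ℝ) ≤ (20 * (m + 1) * ℓ + 1) ^ d := by
    apply one_le_pow₀
    have : (0 : ℝ) ≤ 20 * (m + 1) * ℓ := by positivity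
    linarith only [this]
  have e2 : PL ν Λ W1 ≤ ENNReal.ofReal (m * Λ.card * (6 * ρ / τ)) := by
    refine (measure_biUnion_finset_le _ _).trans ?_
    have : ∀ i ∈ Finset.Icc 1 m, PL ν Λ (⋃ v ∈ Λ, {V | τ < |gr V (box x (10 * i * ℓ)) E x v|}) ≤
        ENNReal.ofReal (Λ.card * (6 * ρ / τ)) := by
      intro i hi
      refine (measure_biUnion_finset_le _ _).trans ?_
      refine (Finset.sum_le_sum fun v _ =>
        PL_weak_sub hν (hsub i (Finset.mem_Icc.1 hi).2) E x v hτ).trans ?_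
      rw [Finset.sum_const, nsmul_eq_mul, ENNReal.ofReal_mul (by positivity),
        ENNReal.ofReal_natCast]
    refine (Finset.sum_le_sum this).trans ?_
    rw [Finset.sum_const, nsmul_eq_mul, Nat.card_Icc, mul_assoc (m : ℝ),
      ENNReal.ofReal_mul (p := (m : ℝ)) (by positivity), ENNReal.ofReal_natCast]
    simp
  have e3 : PL ν Λ W2 ≤ ENNReal.ofReal (Λ.card * (6 * ρ / τ)) := by
    refine (measure_biUnion_finset_le _ _).trans ?_
    refine (Finset.sum_le_sum fun w _ => PL_weak hν Λ E w u hτ).trans ?_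
    rw [Finset.sum_const, nsmul_eq_mul, ENNReal.ofReal_mul (by positivity),
      ENNReal.ofReal_natCast]
  have e4 : PL ν Λ B3 ≤ ENNReal.ofReal (((20 * m + 23) ^ d * p) ^ m) :=
    hanb d ν E A p m ℓ x hℓ hp hcell
  have hbad : PL ν Λ (N0 ∪ N1 ∪ W1 ∪ W2 ∪ B3) ≤ ENNReal.ofReal R := by
    calc _ ≤ PL ν Λ (N0 ∪ N1 ∪ W1 ∪ W2) + PL ν Λ B3 := measure_union_le _ _
      _ ≤ PL ν Λ (N0 ∪ N1 ∪ W1) + PL ν Λ W2 + PL ν Λ B3 := by
        gcongr
        exact measure_union_le _ _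
      _ ≤ PL ν Λ (N0 ∪ N1) + PL ν Λ W1 + PL ν Λ W2 + PL ν Λ B3 := by
        gcongr
        exact measure_union_le _ _
      _ ≤ 0 + ENNReal.ofReal (m * Λ.card * (6 * ρ / τ)) + ENNReal.ofReal (Λ.card * (6 * ρ / τ)) +
          ENNReal.ofReal (((20 * m + 23) ^ d * p) ^ m) := by
        gcongr
        refine (measure_union_le _ _).trans ?_
        rw [e0, e1, add_zero]
      _ ≤ ENNReal.ofReal R := by
        rw [zero_add, ← ENNReal.ofReal_add (by positivity) (by positivity),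
          ← ENNReal.ofReal_add (by positivity) (by positivity)]
        apply ENNReal.ofReal_le_ofReal
        rw [hR, hcard]
        gcongr
        have h6 : (0 : ℝ) ≤ 6 * ρ / τ := by positivity
        have h7 : ((20 * (m + 1) * ℓ + 1) ^ d : ℝ) ≤ ((20 * (m + 1) * ℓ + 1) ^ d) ^ 2 := by
          rw [pow_two]
          nlinarith only [hcard, hc1]
        have h8 : (m : ℝ) * (20 * (m + 1) * ℓ + 1) ^ d * (6 * ρ / τ) +
            (20 * (m + 1) * ℓ + 1) ^ d * (6 * ρ / τ) =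
            (m + 1) * (20 * (m + 1) * ℓ + 1) ^ d * (6 * ρ / τ) := by ring
        rw [h8]
        gcongr
  set B : Set (Site d → ℝ) := toMeasurable (PL ν Λ) (N0 ∪ N1 ∪ W1 ∪ W2 ∪ B3) with hB
  have hBm : MeasurableSet B := measurableSet_toMeasurable _ _
  have hBR : PL ν Λ B ≤ ENNReal.ofReal R := by
    rw [hB, measure_toMeasurable]
    exact hbad
  have hgood : ∀ V ∈ Bᶜ, pg Λ E x u V ≤ ENNReal.ofReal (t₀ ^ (1 / 8 : ℝ)) := by
    intro V hV
    have hV' : V ∉ N0 ∪ N1 ∪ W1 ∪ W2 ∪ B3 := fun h => hV (subset_toMeasurable _ _ h)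
    simp only [Set.mem_union, not_or] at hV'
    obtain ⟨⟨⟨⟨v0, v1⟩, v2⟩, v3⟩, v4⟩ := hV'
    rw [hB3, Set.mem_ofPred_eq] at v4
    push Not at v4
    obtain ⟨i, hi1, him, hi⟩ := v4
    have hi' : i ∈ Finset.Icc 1 m := Finset.mem_Icc.2 ⟨hi1, him⟩
    have w1 : (RM V (box x (10 * i * ℓ)) E).det ≠ 0 := by
      intro h
      exact v1 (Set.mem_biUnion hi' h)
    have w2 : ∀ v, |gr V (box x (10 * i * ℓ)) E x v| ≤ τ := by
      intro v
      by_contra hc
      rw [not_le] at hc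
      have hne : gr V (box x (10 * i * ℓ)) E x v ≠ 0 := by
        intro h0
        rw [h0, abs_zero] at hc
        linarith only [hτ, hc]
      have hv := (gr_ne_zero hne).2.1
      exact v2 (Set.mem_biUnion hi' (Set.mem_biUnion (hsub i him hv) hc))
    have w3 : ∀ w, |gr V Λ E w u| ≤ τ := by
      intro w
      by_contra hc
      rw [not_le] at hc
      have hne : gr V Λ E w u ≠ 0 := by
        intro h0
        rw [h0, abs_zero] at hc
        linarith only [hτ, hc]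
      have hw := (gr_ne_zero hne).1
      exact v3 (Set.mem_biUnion hw hc)
    have key := hana d V E A τ m ℓ i x u hℓ hi1 him hA hτ.le hxu v0 w1 w2 w3 hi
    unfold pg p8
    exact ENNReal.ofReal_le_ofReal (Real.rpow_le_rpow (abs_nonneg _) key (by norm_num))
  have hR0 : 0 ≤ R := by
    rw [hR]; positivity
  calc ∫⁻ V, pg Λ E x u V ∂(PL ν Λ)
      = ∫⁻ V in B, pg Λ E x u V ∂(PL ν Λ) + ∫⁻ V in Bᶜ, pg Λ E x u V ∂(PL ν Λ) :=
        (lintegral_add_compl _ hBm).symm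
    _ ≤ ENNReal.ofReal (√((1 + 2 * √(6 * ρ)) * R)) + ENNReal.ofReal (t₀ ^ (1 / 8 : ℝ)) := by
        gcongr
        · exact pg_event hν Λ E x u B hBm hR0 hBR
        · calc ∫⁻ V in Bᶜ, pg Λ E x u V ∂(PL ν Λ)
              ≤ ∫⁻ V in Bᶜ, ENNReal.ofReal (t₀ ^ (1 / 8 : ℝ)) ∂(PL ν Λ) :=
                setLIntegral_mono measurable_const hgood
            _ = ENNReal.ofReal (t₀ ^ (1 / 8 : ℝ)) * PL ν Λ Bᶜ := by rw [setLIntegral_const]
            _ ≤ ENNReal.ofReal (t₀ ^ (1 / 8 : ℝ)) * 1 := by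
                gcongr
                exact prob_le_one
            _ = _ := mul_one _
    _ = ENNReal.ofReal (t₀ ^ (1 / 8 : ℝ) + √((1 + 2 * √(6 * ρ)) * R)) := by
        rw [← ENNReal.ofReal_add (by positivity) (by positivity), add_comm]

end Pool.Agent.Mob.H98
end
end -- Pool.Agent.Helper98_Mob.Ann

section -- Pool.Agent.Helper42_LE.Tol

/-!
# TOL: polynomially small Green functions, at a suitable scale, imply localization
-/

set_option autoImplicit false
set_option linter.unusedSectionVars false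

open MeasureTheory ProbabilityTheory Function

open scoped ENNReal BigOperators

noncomputable section

namespace Pool.Agent.LE.H42

open Pool.Agent.Anderson Pool.Agent.Loc Pool.Agent.Mob Pool.Agent.Helper54.Bal
  Pool.Agent.Mob.H75

variable {d : ℕ}

/-! ### translations -/

theorem hop_add (x y a : Site d) : hop (x + a) (y + a) = hop x y := by
  unfold hop
  refine Finset.sum_congr rfl fun i _ => ?_
  have h1 : (y + a = x + a + Pi.single i 1) ↔ (y = x + Pi.single i 1) := by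
    rw [add_right_comm, add_left_inj]
  have h2 : (y + a = x + a - Pi.single i 1) ↔ (y = x - Pi.single i 1) := by
    rw [add_sub_right_comm, add_left_inj]
  simp only [h1, h2]

/-- the translation of a finite set -/
def trEquiv (a : Site d) {Λ Λ' : Finset (Site d)} (h : ∀ z, z ∈ Λ' ↔ z + a ∈ Λ) : Λ' ≃ Λ where
  toFun z := ⟨z + a, (h z).1 z.2⟩
  invFun z := ⟨z - a, (h _).2 (by rw [sub_add_cancel]; exact z.2)⟩
  left_inv z := by simp
  right_inv z := by simp

theorem RM_tau (V : Site d → ℝ) (a : Site d) {Λ Λ' : Finset (Site d)}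
    (h : ∀ z, z ∈ Λ' ↔ z + a ∈ Λ) (E : ℝ) :
    RM (tau a V) Λ' E = (RM V Λ E).submatrix (trEquiv a h) (trEquiv a h) := by
  ext x y
  simp only [RM, HM, Matrix.sub_apply, Matrix.smul_apply, Matrix.of_apply,
    Matrix.submatrix_apply, Matrix.one_apply, (trEquiv a h).injective.eq_iff]
  have e1 : ((trEquiv a h x : Λ) : Site d) = x + a := rfl
  have e2 : ((trEquiv a h y : Λ) : Site d) = y + a := rfl
  rw [e1, e2, hop_add]
  rfl

theorem det_tau (V : Site d → ℝ) (a : Site d) {Λ Λ' : Finset (Site d)}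
    (h : ∀ z, z ∈ Λ' ↔ z + a ∈ Λ) (E : ℝ) : (RM (tau a V) Λ' E).det = (RM V Λ E).det := by
  rw [RM_tau V a h, Matrix.det_submatrix_equiv_self]

theorem gr_tau (V : Site d → ℝ) (a : Site d) {Λ Λ' : Finset (Site d)}
    (h : ∀ z, z ∈ Λ' ↔ z + a ∈ Λ) (E : ℝ) (x y : Site d) :
    gr (tau a V) Λ' E x y = gr V Λ E (x + a) (y + a) := by
  unfold gr
  by_cases hxy : x ∈ Λ' ∧ y ∈ Λ'
  · have hxy' : x + a ∈ Λ ∧ y + a ∈ Λ := ⟨(h x).1 hxy.1, (h y).1 hxy.2⟩
    rw [dif_pos hxy, dif_pos hxy', RM_tau V a h, Matrix.inv_submatrix_equiv]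
    rfl
  · rw [dif_neg hxy, dif_neg]
    rw [h x, h y] at hxy
    exact hxy

theorem mem_box_add (c a : Site d) (L : ℕ) (z : Site d) : z ∈ box c L ↔ z + a ∈ box (c + a) L := by
  rw [mem_box, mem_box, sd_le_iff, sd_le_iff]
  refine forall_congr' fun i => ?_
  rw [Pi.add_apply, Pi.add_apply, add_sub_add_right_eq_sub]

theorem sd_add (x y a : Site d) : sd (x + a) (y + a) = sd x y := by
  unfold sd
  simp only [Pi.add_apply, add_sub_add_right_eq_sub]

theorem lintegral_PL_PP {ν : Measure ℝ} [IsProbabilityMeasure ν] (Λ : Finset (Site d))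
    {f : (Site d → ℝ) → ℝ≥0∞} (hf : Measurable f) (ho : Only f Λ) :
    ∫⁻ V, f V ∂(PL ν Λ) = ∫⁻ V, f V ∂(PP d ν) := by
  rw [← map_cut, lintegral_map hf (measurable_cut Λ)]
  refine lintegral_congr fun V => ho _ _ fun z hz => cut_apply hz V

theorem lintegral_pg_shift {ν : Measure ℝ} [IsProbabilityMeasure ν] (a : Site d)
    {Λ Λ' : Finset (Site d)} (h : ∀ z, z ∈ Λ' ↔ z + a ∈ Λ) (E : ℝ) (x y : Site d) :
    ∫⁻ V, pg Λ E (x + a) (y + a) V ∂(PL ν Λ) = ∫⁻ V, pg Λ' E x y V ∂(PL ν Λ') := by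
  rw [lintegral_PL_PP Λ (measurable_pg _ _ _ _) (only_pg _ _ _ _),
    lintegral_PL_PP Λ' (measurable_pg _ _ _ _) (only_pg _ _ _ _),
    ← (shiftInv_PP ν a).lintegral_comp (measurable_pg Λ' E x y)]
  refine lintegral_congr fun V => ?_
  unfold pg
  rw [gr_tau V a h]

theorem bulkInit_of_center {ν : Measure ℝ} [IsProbabilityMeasure ν] {L : ℕ} {ε E : ℝ}
    (h : ∀ u : Site d, sd 0 u = L →
      ∫⁻ V, pg (box 0 L) E 0 u V ∂(PL ν (box (0 : Site d) L)) ≤ ENNReal.ofReal ε) :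
    BulkInit d ν L ε E := by
  intro x u hu
  have h1 : ∀ z : Site d, z ∈ box 0 L ↔ z + x ∈ box x L := by
    intro z
    have := mem_box_add 0 x L z
    rwa [zero_add] at this
  have h2 := lintegral_pg_shift (ν := ν) x h1 E 0 (u - x)
  rw [zero_add, sub_add_cancel] at h2
  rw [h2]
  apply h
  have h3 := sd_add 0 (u - x) x
  rw [zero_add, sub_add_cancel] at h3
  rw [← h3, hu]

/-! ### the fixed energy -/

variable {ν : Measure ℝ} [IsProbabilityMeasure ν] {ρ : ℝ}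

theorem pg_tail (hν : BddDens ν ρ) (Λ : Finset (Site d)) (E : ℝ) (x y : Site d)
    (S : Set (Site d → ℝ)) {t R : ℝ} (ht : 0 ≤ t) (hR : 0 ≤ R)
    (hS : PL ν Λ S ≤ ENNReal.ofReal R) (h : ∀ V, V ∉ S → |gr V Λ E x y| ≤ t) :
    ∫⁻ V, pg Λ E x y V ∂(PL ν Λ) ≤
      ENNReal.ofReal (t ^ (1 / 8 : ℝ) + √((1 + 2 * √(6 * ρ)) * R)) := by
  have hρ := hν.1
  set B : Set (Site d → ℝ) := toMeasurable (PL ν Λ) S with hB
  have hBm : MeasurableSet B := measurableSet_toMeasurable _ _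
  have hBR : PL ν Λ B ≤ ENNReal.ofReal R := by
    rw [hB, measure_toMeasurable]
    exact hS
  have hgood : ∀ V ∈ Bᶜ, pg Λ E x y V ≤ ENNReal.ofReal (t ^ (1 / 8 : ℝ)) := by
    intro V hV
    have key := h V fun hc => hV (subset_toMeasurable _ _ hc)
    unfold pg p8
    exact ENNReal.ofReal_le_ofReal (Real.rpow_le_rpow (abs_nonneg _) key (by norm_num))
  calc ∫⁻ V, pg Λ E x y V ∂(PL ν Λ)
      = ∫⁻ V in B, pg Λ E x y V ∂(PL ν Λ) + ∫⁻ V in Bᶜ, pg Λ E x y V ∂(PL ν Λ) :=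
        (lintegral_add_compl _ hBm).symm
    _ ≤ ENNReal.ofReal (√((1 + 2 * √(6 * ρ)) * R)) + ENNReal.ofReal (t ^ (1 / 8 : ℝ)) := by
        gcongr
        · exact H98.pg_event hν Λ E x y B hBm hR hBR
        · calc ∫⁻ V in Bᶜ, pg Λ E x y V ∂(PL ν Λ)
              ≤ ∫⁻ V in Bᶜ, ENNReal.ofReal (t ^ (1 / 8 : ℝ)) ∂(PL ν Λ) :=
                setLIntegral_mono measurable_const hgood
            _ = ENNReal.ofReal (t ^ (1 / 8 : ℝ)) * PL ν Λ Bᶜ := by rw [setLIntegral_const]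
            _ ≤ ENNReal.ofReal (t ^ (1 / 8 : ℝ)) * 1 := by
                gcongr
                exact prob_le_one
            _ = _ := mul_one _
    _ = ENNReal.ofReal (t ^ (1 / 8 : ℝ) + √((1 + 2 * √(6 * ρ)) * R)) := by
        rw [← ENNReal.ofReal_add (by positivity) (by positivity), add_comm]

/-! ### the nearby energies -/

theorem gr_resolvent (V : Site d → ℝ) (Λ : Finset (Site d)) (E F : ℝ)
    (hE : (RM V Λ E).det ≠ 0) (hF : (RM V Λ F).det ≠ 0) (x y : Site d) :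
    gr V Λ F x y = gr V Λ E x y + ∑ z ∈ Λ, (E - F) * (gr V Λ F x z * gr V Λ E z y) := by
  by_cases hxy : x ∈ Λ ∧ y ∈ Λ
  · have h1 : (RM V Λ F)⁻¹ = (RM V Λ E)⁻¹ + (E - F) • ((RM V Λ F)⁻¹ * (RM V Λ E)⁻¹) := by
      have hE' : IsUnit (RM V Λ E).det := isUnit_iff_ne_zero.2 hE
      have hF' : IsUnit (RM V Λ F).det := isUnit_iff_ne_zero.2 hF
      have e : (E - F) • (1 : Matrix Λ Λ ℝ) = RM V Λ E - RM V Λ F := by
        unfold RM
        rw [sub_smul]
        abel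
      have e2 : (E - F) • ((RM V Λ F)⁻¹ * (RM V Λ E)⁻¹) =
          (RM V Λ F)⁻¹ * ((E - F) • (1 : Matrix Λ Λ ℝ)) * (RM V Λ E)⁻¹ := by
        rw [Matrix.mul_smul, Matrix.mul_one, Matrix.smul_mul]
      rw [e2, e, Matrix.mul_sub, Matrix.sub_mul, Matrix.nonsing_inv_mul _ hF', Matrix.one_mul,
        Matrix.mul_assoc, Matrix.mul_nonsing_inv _ hE', Matrix.mul_one]
      abel
    have h2 := congrFun (congrFun h1 ⟨x, hxy.1⟩) ⟨y, hxy.2⟩
    rw [Matrix.add_apply, Matrix.smul_apply, Matrix.mul_apply] at h2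
    unfold gr
    rw [dif_pos hxy, dif_pos hxy, h2]
    congr 1
    rw [smul_eq_mul, Finset.mul_sum, ← Finset.sum_coe_sort Λ]
    refine Finset.sum_congr rfl fun z _ => ?_
    rw [dif_pos ⟨hxy.1, z.2⟩, dif_pos ⟨z.2, hxy.2⟩]
  · have h0 : ∀ G : ℝ, gr V Λ G x y = 0 := fun G => by unfold gr; rw [dif_neg hxy]
    rw [h0, h0, zero_add]
    symm
    apply Finset.sum_eq_zero
    intro z _
    by_cases hx : x ∈ Λ
    · have hy : y ∉ Λ := fun hy => hxy ⟨hx, hy⟩
      have : gr V Λ E z y = 0 := by unfold gr; rw [dif_neg fun h => hy h.2]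
      rw [this]; ring
    · have : gr V Λ F x z = 0 := by unfold gr; rw [dif_neg fun h => hx h.1]
      rw [this]; ring

theorem pg_sq (hν : BddDens ν ρ) (Λ : Finset (Site d)) (E : ℝ) (x y : Site d) :
    ∫⁻ V, pg Λ E x y V ^ (2 : ℝ) ∂(PL ν Λ) ≤ ENNReal.ofReal (1 + 2 * √(6 * ρ)) := by
  have h2 : ∀ V, pg Λ E x y V ^ (2 : ℝ) ≤ 1 + ENNReal.ofReal (√|gr V Λ E x y|) := by
    intro V
    have := p8_sq_le (gr V Λ E x y)
    have e : pg Λ E x y V ^ (2 : ℝ) = p8 (gr V Λ E x y) ^ 2 := by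
      rw [← ENNReal.rpow_natCast]
      norm_num [pg]
    rw [e]
    exact this
  calc _ ≤ ∫⁻ V, (1 + ENNReal.ofReal (√|gr V Λ E x y|)) ∂(PL ν Λ) := lintegral_mono h2
    _ = 1 + ∫⁻ V, ENNReal.ofReal (√|gr V Λ E x y|) ∂(PL ν Λ) := by
      rw [lintegral_add_left measurable_const, lintegral_const, measure_univ, mul_one]
    _ ≤ 1 + ENNReal.ofReal (2 * √(6 * ρ)) := by
      gcongr
      exact PL_sqrt hν Λ E x y
    _ = ENNReal.ofReal (1 + 2 * √(6 * ρ)) := by
      rw [← ENNReal.ofReal_one, ← ENNReal.ofReal_add (by norm_num) (by positivity)]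

theorem pg_prod (hν : BddDens ν ρ) (Λ : Finset (Site d)) (E F : ℝ) (x y z w : Site d) :
    ∫⁻ V, pg Λ F x z V * pg Λ E w y V ∂(PL ν Λ) ≤ ENNReal.ofReal (1 + 2 * √(6 * ρ)) := by
  have h3 := ENNReal.lintegral_mul_le_Lp_mul_Lq (PL ν Λ) Real.HolderConjugate.two_two
    (f := pg Λ F x z) (g := pg Λ E w y) (measurable_pg Λ F x z).aemeasurable
    (measurable_pg Λ E w y).aemeasurable
  refine h3.trans ?_
  calc _ ≤ ENNReal.ofReal (1 + 2 * √(6 * ρ)) ^ (1 / 2 : ℝ) *
        ENNReal.ofReal (1 + 2 * √(6 * ρ)) ^ (1 / 2 : ℝ) := by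
        gcongr
        · exact pg_sq hν Λ F x z
        · exact pg_sq hν Λ E w y
    _ = _ := by
        rw [← ENNReal.rpow_add_of_nonneg _ _ (by norm_num) (by norm_num)]
        norm_num

theorem pg_near (hν : BddDens ν ρ) (Λ : Finset (Site d)) (E F : ℝ) (x y : Site d) :
    ∫⁻ V, pg Λ F x y V ∂(PL ν Λ) ≤ ∫⁻ V, pg Λ E x y V ∂(PL ν Λ) +
      p8 (E - F) * (Λ.card * ENNReal.ofReal (1 + 2 * √(6 * ρ))) := by
  have e0 := PL_det hν Λ Λ le_rfl E
  have e1 := PL_det hν Λ Λ le_rfl F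
  have hae : ∀ᵐ V ∂(PL ν Λ), pg Λ F x y V ≤ pg Λ E x y V +
      p8 (E - F) * ∑ z ∈ Λ, pg Λ F x z V * pg Λ E z y V := by
    have a0 : ∀ᵐ V ∂(PL ν Λ), (RM V Λ E).det ≠ 0 := by
      rw [ae_iff]
      simpa using e0
    have a1 : ∀ᵐ V ∂(PL ν Λ), (RM V Λ F).det ≠ 0 := by
      rw [ae_iff]
      simpa using e1
    filter_upwards [a0, a1] with V h0 h1
    unfold pg
    rw [gr_resolvent V Λ E F h0 h1 x y]
    refine (p8_add _ _).trans ?_
    gcongr
    refine (p8_sum _ _).trans ?_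
    rw [Finset.mul_sum]
    refine Finset.sum_le_sum fun z _ => ?_
    rw [p8_mul, p8_mul]
  refine (lintegral_mono_ae hae).trans ?_
  rw [lintegral_add_left (measurable_pg _ _ _ _), lintegral_const_mul,
    lintegral_finsetSum]
  · gcongr
    refine (Finset.sum_le_sum fun z _ => pg_prod hν Λ E F x y z z).trans ?_
    rw [Finset.sum_const, nsmul_eq_mul]
  · intro z _
    exact (measurable_pg _ _ _ _).mul (measurable_pg _ _ _ _)
  · exact Finset.measurable_sum _ fun z _ => (measurable_pg _ _ _ _).mul (measurable_pg _ _ _ _)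

/-! ### TOL -/

theorem tol (d : ℕ) (C₀ σ E : ℝ) (hC : 0 < C₀) (hσ : σ ≠ 0)
    (h : ∀ A : ℕ, ∃ L : ℕ, A ≤ L ∧ PL (gl σ) (box (0 : Site d) L)
      {V | ¬ ((RM V (box 0 L) E).det ≠ 0 ∧
        ∀ u, sd 0 u = L → |gr V (box 0 L) E 0 u| ≤ (L : ℝ) ^ (-(A : ℝ)))} ≤
        ENNReal.ofReal ((L : ℝ) ^ (-(A : ℝ)))) :
    E ∈ LocSet d C₀ σ := by
  have hν := bddDens_gl hσ
  set ρ : ℝ := 1 / |σ| with hρ
  set K : ℝ := C₀ * (1 + 1 / |σ|) with hK
  set c : ℝ := 1 + 2 * √(6 * ρ) with hc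
  have hσ' : 0 < |σ| := abs_pos.2 hσ
  have hK0 : 0 < K := by positivity
  have hc0 : 0 < c := by positivity
  -- the exponent
  obtain ⟨A, hA1⟩ := exists_nat_ge
    (max (8 * (6 * d + 1) : ℝ) (2 * Real.exp 1 * K * 7 ^ (6 * d) * (1 + √c)))
  have hA2 := (le_max_left _ _).trans hA1
  have hA3 := (le_max_right _ _).trans hA1
  have hA0 : (1 : ℝ) ≤ A := by
    have : (0 : ℝ) ≤ 48 * d := by positivity
    linarith only [hA2]
  obtain ⟨L, hAL, hL⟩ := h A
  have hAL' : (A : ℝ) ≤ L := by exact_mod_cast hAL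
  have hL1 : (1 : ℝ) ≤ L := hA0.trans hAL'
  have hL0 : (0 : ℝ) < L := by linarith only [hA2, hAL']
  set Λ : Finset (Site d) := box 0 L with hΛ
  set ε₀ : ℝ := ((L : ℝ) ^ (-(A : ℝ))) ^ (1 / 8 : ℝ) + √(c * (L : ℝ) ^ (-(A : ℝ))) with hε₀
  have hε₀0 : 0 ≤ ε₀ := by positivity
  have hinit : ∀ u : Site d, sd 0 u = L → ∫⁻ V, pg Λ E 0 u V ∂(PL (gl σ) Λ) ≤
      ENNReal.ofReal ε₀ := by
    intro u hu
    refine pg_tail hν Λ E 0 u _ (by positivity) (by positivity) hL ?_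
    intro V hV
    rw [Set.mem_ofPred_eq, not_not] at hV
    exact hV.2 u hu
  -- the numerical condition at the energy `E`
  have hnum : K * (2 * L + 5) ^ (6 * d) * ε₀ ≤ Real.exp (-1) / 2 := by
    have e1 : ((L : ℝ) ^ (-(A : ℝ))) ^ (1 / 8 : ℝ) = (L : ℝ) ^ (-(A : ℝ) / 8) := by
      rw [← Real.rpow_mul hL0.le]
      congr 1
      ring
    have e2 : √((L : ℝ) ^ (-(A : ℝ))) ≤ (L : ℝ) ^ (-(A : ℝ) / 8) := by
      rw [Real.sqrt_eq_rpow, ← Real.rpow_mul hL0.le]
      apply Real.rpow_le_rpow_of_exponent_le hL1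
      linarith only [hA2]
    have e3 : ε₀ ≤ (1 + √c) * (L : ℝ) ^ (-(A : ℝ) / 8) := by
      rw [hε₀, e1, Real.sqrt_mul hc0.le, add_mul, one_mul]
      gcongr
    have e4 : (2 * (L : ℝ) + 5) ^ (6 * d) ≤ 7 ^ (6 * d) * (L : ℝ) ^ (6 * d) := by
      rw [← mul_pow]
      gcongr
      linarith only [hA2, hAL']
    have e5 : (L : ℝ) ^ (6 * d) * (L : ℝ) ^ (-(A : ℝ) / 8) ≤ 1 / A := by
      rw [← Real.rpow_natCast, ← Real.rpow_add hL0]
      calc (L : ℝ) ^ (((6 * d : ℕ) : ℝ) + -(A : ℝ) / 8) ≤ (L : ℝ) ^ (-1 : ℝ) := by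
            apply Real.rpow_le_rpow_of_exponent_le hL1
            push_cast
            linarith only [hA2]
        _ = 1 / L := by rw [Real.rpow_neg_one, one_div]
        _ ≤ 1 / A := one_div_le_one_div_of_le (by linarith only [hA2]) hAL'
    calc K * (2 * L + 5) ^ (6 * d) * ε₀
        ≤ K * (7 ^ (6 * d) * (L : ℝ) ^ (6 * d)) * ((1 + √c) * (L : ℝ) ^ (-(A : ℝ) / 8)) := by
          gcongr
      _ = K * 7 ^ (6 * d) * (1 + √c) * ((L : ℝ) ^ (6 * d) * (L : ℝ) ^ (-(A : ℝ) / 8)) := by ring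
      _ ≤ K * 7 ^ (6 * d) * (1 + √c) * (1 / A) := by gcongr
      _ ≤ Real.exp (-1) / 2 := by
          rw [mul_one_div, div_le_iff₀ (by linarith only [hA2]), Real.exp_neg]
          have h1 := Real.exp_pos 1
          rw [show (Real.exp 1)⁻¹ / 2 * (A : ℝ) = A / (2 * Real.exp 1) by field_simp,
            le_div_iff₀ (by positivity)]
          linarith only [hA3]
  -- the interval
  set M : ℝ := K * (2 * L + 5) ^ (6 * d) * (Λ.card * c) with hM
  have hcard : (0 : ℝ) < Λ.card := by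
    rw [hΛ, card_box]
    positivity
  have hM0 : 0 < M := by positivity
  set s : ℝ := Real.exp (-1) / (2 * M) with hs
  have hs0 : 0 < s := by positivity
  refine ⟨s ^ 8, by positivity, L, ?_⟩
  intro F hF
  refine ⟨ε₀ + s * (Λ.card * c), by positivity, ?_, ?_⟩
  · have : K * (2 * L + 5) ^ (6 * d) * (ε₀ + s * (Λ.card * c)) =
        K * (2 * L + 5) ^ (6 * d) * ε₀ + M * s := by rw [hM]; ring
    rw [this]
    have h2 : M * s = Real.exp (-1) / 2 := by
      rw [hs]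
      field_simp
    linarith only [hnum, h2]
  · apply bulkInit_of_center
    intro u hu
    refine (pg_near hν Λ E F 0 u).trans ?_
    rw [ENNReal.ofReal_add hε₀0 (by positivity)]
    refine add_le_add (hinit u hu) ?_
    rw [ENNReal.ofReal_mul hs0.le, ENNReal.ofReal_mul (Nat.cast_nonneg _), ENNReal.ofReal_natCast]
    gcongr
    unfold p8
    apply ENNReal.ofReal_le_ofReal
    have h3 : |E - F| ≤ s ^ 8 := by
      rw [abs_le]
      constructor <;> linarith only [hF.1, hF.2]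
    calc |E - F| ^ (1 / 8 : ℝ) ≤ (s ^ 8) ^ (1 / 8 : ℝ) :=
          Real.rpow_le_rpow (abs_nonneg _) h3 (by norm_num)
      _ = s := by
          rw [← Real.rpow_natCast, ← Real.rpow_mul hs0.le]
          norm_num

end Pool.Agent.LE.H42
end
end -- Pool.Agent.Helper42_LE.Tol

section -- Pool.Agent.Helper6_Mob.Sep

/-!
# Squad T2, module SEP: separation of the spectra of the inner cube and of the shell
-/

set_option autoImplicit false
set_option linter.unusedSectionVars false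

open MeasureTheory ProbabilityTheory Function

open scoped ENNReal BigOperators Nat

noncomputable section

namespace Pool.Agent.Mob.H6

open Pool.Agent.Anderson Pool.Agent.Loc Pool.Agent.Helper54.Bal

variable {d : ℕ}

theorem noEig_congr {V V' : Site d → ℝ} {Λ : Finset (Site d)} (h : ∀ x ∈ Λ, V x = V' x)
    (E r : ℝ) : NoEig V Λ E r ↔ NoEig V' Λ E r := by
  unfold NoEig
  simp only [RM_congr h]

theorem iIndep_PP (ν : Measure ℝ) [IsProbabilityMeasure ν] :
    iIndepFun (fun (z : Site d) (V : Site d → ℝ) => V z) (PP d ν) := by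
  unfold PP
  exact iIndepFun_infinitePi (P := fun _ : Site d => ν) (X := fun _ t => t)
    (fun _ => measurable_id)

/-- The law of `V` on `Λ` under the infinite product. -/
theorem PP_eq_PL (ν : Measure ℝ) [IsProbabilityMeasure ν] {Λ : Finset (Site d)}
    {S : Set (Site d → ℝ)} (hS : MeasurableSet S)
    (h : ∀ W W' : Site d → ℝ, (∀ x ∈ Λ, W x = W' x) → (W ∈ S ↔ W' ∈ S)) :
    PP d ν S = PL ν Λ S := by
  have h1 := transfer (V := fun (z : Site d) (V : Site d → ℝ) => V z) (P := PP d ν) (ν := ν)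
    (fun z => measurable_pi_apply z)
    (fun z => (measurePreserving_eval_infinitePi (fun _ : Site d => ν) z).map_eq)
    (iIndep_PP ν) hS h
  exact h1

/-- Events which depend on disjoint sets are independent. -/
theorem PP_inter (ν : Measure ℝ) [IsProbabilityMeasure ν] {A B : Finset (Site d)}
    (hAB : Disjoint A B) {S T : Set (Site d → ℝ)} (hS : MeasurableSet S) (hT : MeasurableSet T)
    (hSA : ∀ W W' : Site d → ℝ, (∀ x ∈ A, W x = W' x) → (W ∈ S ↔ W' ∈ S))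
    (hTB : ∀ W W' : Site d → ℝ, (∀ x ∈ B, W x = W' x) → (W ∈ T ↔ W' ∈ T)) :
    PP d ν (S ∩ T) = PP d ν S * PP d ν T := by
  have h1 := (iIndep_PP (d := d) ν).indepFun_finset A B hAB (fun z => measurable_pi_apply z)
  have hu : ∀ Λ : Finset (Site d), Measurable (updateFinset (0 : Site d → ℝ) Λ) :=
    fun Λ => measurable_updateFinset
  have hpre : ∀ (Λ : Finset (Site d)) (U : Set (Site d → ℝ)),
      (∀ W W' : Site d → ℝ, (∀ x ∈ Λ, W x = W' x) → (W ∈ U ↔ W' ∈ U)) →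
      (fun (V : Site d → ℝ) (z : Λ) => V z) ⁻¹' (updateFinset (0 : Site d → ℝ) Λ ⁻¹' U) = U := by
    intro Λ U hU
    ext V
    rw [Set.mem_preimage, Set.mem_preimage]
    apply hU
    intro x hx
    simp [updateFinset, hx]
  have h2 := h1.measure_inter_preimage_eq_mul _ _ (hu A hS) (hu B hT)
  rw [hpre A S hSA, hpre B T hTB] at h2
  exact h2

/-- the bad event at the scale `k` -/
def badS (d : ℕ) (a b : ℝ) (k : ℕ) : Set (Site d → ℝ) :=
  {V | ∃ E ∈ Set.Icc a b, ¬ NoEig V (box 0 (5 * k)) E (Real.exp (-√k)) ∧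
    ¬ NoEig V (box 0 (8 * k) \ box 0 (5 * k)) E (Real.exp (-√k))}

theorem noEig_near {V : Site d → ℝ} {Λ : Finset (Site d)} {E E' e : ℝ} (h : ¬ NoEig V Λ E e)
    (hE : |E - E'| ≤ e) : ¬ NoEig V Λ E' (2 * e) := by
  intro h'
  apply h
  intro F hF
  apply h' F
  calc |F - E'| = |(F - E) + (E - E')| := by ring_nf
    _ ≤ |F - E| + |E - E'| := abs_add_le _ _
    _ ≤ 2 * e := by linarith

theorem prob_badS (hweg : WegStmt) {ν : Measure ℝ} [IsProbabilityMeasure ν] {ρ : ℝ}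
    (hν : BddDens ν ρ) (a b : ℝ) (k : ℕ) :
    PP d ν (badS d a b k) ≤ ENNReal.ofReal
      ((|b - a| + 1) * (128 * ρ) ^ 2 * ((16 * k + 1) ^ (2 * d) * Real.exp (-√k))) := by
  have hρ := hν.1
  obtain ⟨e, he⟩ : ∃ e, e = Real.exp (-√k) := ⟨_, rfl⟩
  have he0 : 0 < e := by rw [he]; exact Real.exp_pos _
  have he1 : e ≤ 1 := by
    rw [he, Real.exp_le_one_iff]
    have := Real.sqrt_nonneg (k : ℝ)
    linarith
  obtain ⟨A, hA⟩ : ∃ A : Finset (Site d), A = box 0 (5 * k) := ⟨_, rfl⟩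
  obtain ⟨B, hB⟩ : ∃ B : Finset (Site d), B = box 0 (8 * k) \ box 0 (5 * k) := ⟨_, rfl⟩
  have hAB : Disjoint A B := by rw [hA, hB]; exact Finset.disjoint_sdiff
  have hAc : A ⊆ box 0 (8 * k) := by rw [hA]; exact box_mono 0 (by omega)
  have hBc : B ⊆ box 0 (8 * k) := by rw [hB]; exact Finset.sdiff_subset
  have hcard : (((box (0 : Site d) (8 * k)).card : ℕ) : ℝ) = (16 * k + 1) ^ d := by
    rw [card_box]
    push_cast
    ring
  have hm : ∀ (Λ : Finset (Site d)) (E : ℝ),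
      MeasurableSet {V : Site d → ℝ | ¬ NoEig V Λ E (2 * e)} := fun Λ E =>
    (hweg d ν ρ hν Λ E (2 * e) (by positivity)).1.compl
  have hp : ∀ (Λ : Finset (Site d)) (E : ℝ), Λ ⊆ box 0 (8 * k) →
      PP d ν {V : Site d → ℝ | ¬ NoEig V Λ E (2 * e)} ≤
        ENNReal.ofReal (128 * ρ * (16 * k + 1) ^ d * e) := by
    intro Λ E hΛ
    rw [PP_eq_PL ν (hm Λ E) (fun W W' hW => not_congr (noEig_congr hW E (2 * e)))]
    refine ((hweg d ν ρ hν Λ E (2 * e) (by positivity)).2).trans (ENNReal.ofReal_le_ofReal ?_)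
    have h1 : (Λ.card : ℝ) ≤ (16 * k + 1) ^ d := by
      rw [← hcard]
      exact_mod_cast Finset.card_le_card hΛ
    calc 64 * ρ * Λ.card * (2 * e) = 128 * ρ * e * Λ.card := by ring
      _ ≤ 128 * ρ * e * (16 * k + 1) ^ d := by gcongr
      _ = _ := by ring
  have hsub : badS d a b k ⊆ ⋃ j ∈ Finset.range (⌊|b - a| / e⌋₊ + 1),
      ({V : Site d → ℝ | ¬ NoEig V A (a + j * e) (2 * e)} ∩
        {V : Site d → ℝ | ¬ NoEig V B (a + j * e) (2 * e)}) := by
    rintro V ⟨E, hE, h1, h2⟩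
    rw [← hA, ← he] at h1
    rw [← hB, ← he] at h2
    have hab : a ≤ b := hE.1.trans hE.2
    have h3 : 0 ≤ (E - a) / e := div_nonneg (by linarith [hE.1]) he0.le
    have h4 : |E - (a + ⌊(E - a) / e⌋₊ * e)| ≤ e := by
      have h5 := Nat.floor_le h3
      have h6 := Nat.lt_floor_add_one ((E - a) / e)
      rw [le_div_iff₀ he0] at h5
      rw [div_lt_iff₀ he0] at h6
      rw [abs_le]
      constructor <;> nlinarith
    simp only [Set.mem_iUnion, exists_prop]
    refine ⟨⌊(E - a) / e⌋₊, ?_, noEig_near h1 h4, noEig_near h2 h4⟩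
    rw [Finset.mem_range, Nat.lt_succ_iff]
    apply Nat.floor_le_floor
    rw [abs_of_nonneg (by linarith)]
    gcongr
    exact hE.2
  have hK : 0 ≤ 128 * ρ * (16 * k + 1) ^ d * e := by positivity
  calc PP d ν (badS d a b k) ≤ _ := measure_mono hsub
    _ ≤ ∑ j ∈ Finset.range (⌊|b - a| / e⌋₊ + 1),
        PP d ν ({V : Site d → ℝ | ¬ NoEig V A (a + j * e) (2 * e)} ∩
          {V : Site d → ℝ | ¬ NoEig V B (a + j * e) (2 * e)}) := measure_biUnion_finset_le _ _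
    _ ≤ ∑ _j ∈ Finset.range (⌊|b - a| / e⌋₊ + 1),
        ENNReal.ofReal ((128 * ρ * (16 * k + 1) ^ d * e) ^ 2) := by
      refine Finset.sum_le_sum fun j _ => ?_
      rw [PP_inter ν hAB (hm A _) (hm B _) (fun W W' hW => not_congr (noEig_congr hW _ _))
        (fun W W' hW => not_congr (noEig_congr hW _ _)), sq, ENNReal.ofReal_mul hK]
      exact mul_le_mul' (hp A _ hAc) (hp B _ hBc)
    _ = ENNReal.ofReal ((⌊|b - a| / e⌋₊ + 1) * (128 * ρ * (16 * k + 1) ^ d * e) ^ 2) := by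
      rw [Finset.sum_const, Finset.card_range, nsmul_eq_mul, ENNReal.ofReal_mul (by positivity)]
      congr 1
      rw [← Nat.cast_succ, ENNReal.ofReal_natCast]
    _ ≤ _ := by
      apply ENNReal.ofReal_le_ofReal
      have h1 : ((⌊|b - a| / e⌋₊ : ℕ) : ℝ) ≤ |b - a| / e := Nat.floor_le (by positivity)
      have h2 : ((⌊|b - a| / e⌋₊ : ℕ) + 1 : ℝ) * e ≤ |b - a| + 1 := by
        calc ((⌊|b - a| / e⌋₊ : ℕ) + 1 : ℝ) * e ≤ (|b - a| / e + 1) * e := by gcongr
          _ = |b - a| + e := by field_simp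
          _ ≤ _ := by linarith
      rw [← he]
      calc ((⌊|b - a| / e⌋₊ : ℕ) + 1 : ℝ) * (128 * ρ * (16 * k + 1) ^ d * e) ^ 2
          = (((⌊|b - a| / e⌋₊ : ℕ) + 1 : ℝ) * e) * ((128 * ρ) ^ 2 *
            ((16 * k + 1) ^ (2 * d) * e)) := by ring
        _ ≤ (|b - a| + 1) * ((128 * ρ) ^ 2 * ((16 * k + 1) ^ (2 * d) * e)) := by gcongr
        _ = _ := by ring

theorem summable_sep (d : ℕ) (c : ℝ) : Summable fun k : ℕ =>
    c * (((16 * k + 1 : ℝ)) ^ (2 * d) * Real.exp (-√k)) := by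
  apply Summable.mul_left
  rw [← summable_nat_add_iff 1]
  have h0 : Summable fun k : ℕ => (17 : ℝ) ^ (2 * d) * (4 * d + 4)! *
      (1 / ((k + 1 : ℕ) : ℝ) ^ 2) := by
    apply Summable.mul_left
    exact (summable_nat_add_iff 1).2 (Real.summable_one_div_nat_pow.2 (by norm_num))
  refine Summable.of_nonneg_of_le (fun k => by positivity) (fun k => ?_) h0
  have hk : (1 : ℝ) ≤ ((k + 1 : ℕ) : ℝ) := by
    push_cast
    linarith [Nat.cast_nonneg (α := ℝ) k]
  obtain ⟨t, ht⟩ : ∃ t : ℝ, t = ((k + 1 : ℕ) : ℝ) := ⟨_, rfl⟩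
  rw [← ht] at hk ⊢
  have ht0 : 0 < t := by linarith
  have h1 := Real.pow_div_factorial_le_exp _ (Real.sqrt_nonneg t) (4 * d + 4)
  have h2 : √t ^ (4 * d + 4) = t ^ (2 * d + 2) := by
    rw [show 4 * d + 4 = 2 * (2 * d + 2) by ring, pow_mul, Real.sq_sqrt ht0.le]
  rw [h2] at h1
  have h3 : Real.exp (-√t) ≤ (4 * d + 4)! / t ^ (2 * d + 2) := by
    rw [Real.exp_neg, inv_le_comm₀ (Real.exp_pos _) (by positivity), inv_div]
    exact h1
  have h4 : (16 * t + 1) ^ (2 * d) ≤ (17 * t) ^ (2 * d) := by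
    apply pow_le_pow_left₀ (by positivity)
    linarith
  calc (16 * t + 1) ^ (2 * d) * Real.exp (-√t)
      ≤ (17 * t) ^ (2 * d) * ((4 * d + 4)! / t ^ (2 * d + 2)) := by gcongr
    _ = 17 ^ (2 * d) * (4 * d + 4)! * (1 / t ^ 2) := by
      rw [mul_pow, pow_add]
      field_simp

/-- SEP -/
theorem sep (hweg : WegStmt) : SepStmt := by
  intro d ν _ ρ hν a b
  have hρ := hν.1
  have hfin : (∑' k, PP d ν (badS d a b k)) ≠ ∞ := by
    refine ne_top_of_le_ne_top ?_ (ENNReal.tsum_le_tsum fun k => prob_badS hweg hν a b k)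
    rw [← ENNReal.ofReal_tsum_of_nonneg (fun k => by positivity) (summable_sep d _)]
    exact ENNReal.ofReal_ne_top
  filter_upwards [ae_eventually_notMem hfin] with V hV
  obtain ⟨k₀, hk₀⟩ := Filter.eventually_atTop.1 hV
  refine ⟨k₀, fun k hk E hE => ?_⟩
  by_contra hcon
  push Not at hcon
  exact hk₀ k hk ⟨E, hE, hcon.1, hcon.2⟩

end Pool.Agent.Mob.H6
end
end -- Pool.Agent.Helper6_Mob.Sep

section -- Pool.Agent.Helper3_LE.ConA

/-!
# CON: decay with a fixed positive probability at all large scales implies decay with probability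
near one, simultaneously about all the sites of a cube, at arbitrarily large scales
-/

set_option autoImplicit false
set_option linter.unusedSectionVars false

open MeasureTheory ProbabilityTheory Function

open scoped ENNReal BigOperators

noncomputable section

namespace Pool.Agent.LE.H3A

open Pool.Agent.Anderson Pool.Agent.Loc Pool.Agent.Mob Pool.Agent.Helper54.Bal
  Pool.Agent.Mob.H75

variable {d : ℕ}

theorem sg_congr {V V' : Site d → ℝ} {L : ℕ} {v : Site d} (h : ∀ x ∈ box v L, V x = V' x)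
    (m E : ℝ) : SG V L m E v ↔ SG V' L m E v := by
  unfold SG
  simp only [RM_congr h, gr_congr h]

theorem sg_tau (V : Site d → ℝ) (a v : Site d) (L : ℕ) (m E : ℝ) :
    SG (tau a V) L m E v ↔ SG V L m E (v + a) := by
  have h := H42.mem_box_add v a L
  unfold SG
  rw [H42.det_tau V a h]
  constructor
  · rintro ⟨h1, h2⟩
    refine ⟨h1, fun u hu => ?_⟩
    have h3 := h2 (u - a) (by rw [← hu, ← H42.sd_add v (u - a) a, sub_add_cancel])
    rwa [H42.gr_tau V a h, sub_add_cancel] at h3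
  · rintro ⟨h1, h2⟩
    refine ⟨h1, fun u hu => ?_⟩
    rw [H42.gr_tau V a h]
    exact h2 (u + a) (by rw [H42.sd_add, hu])

theorem measurableSet_sg (L : ℕ) (m E : ℝ) (v : Site d) :
    MeasurableSet {V : Site d → ℝ | SG V L m E v} := by
  have e : {V : Site d → ℝ | SG V L m E v} = {V | (RM V (box v L) E).det ≠ 0} ∩
      ⋂ u, {V : Site d → ℝ | sd v u = L → |gr V (box v L) E v u| ≤ Real.exp (-m * L)} := by
    ext V
    simp [SG]
  rw [e]
  refine MeasurableSet.inter ?_ (MeasurableSet.iInter fun u => ?_)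
  · exact ((continuous_det _ E).measurable (measurableSet_singleton 0)).compl
  · by_cases hu : sd v u = L
    · have e2 : {V : Site d → ℝ | sd v u = L → |gr V (box v L) E v u| ≤ Real.exp (-m * L)} =
          {V : Site d → ℝ | |gr V (box v L) E v u| ≤ Real.exp (-m * L)} := by
        ext V
        exact ⟨fun h => h hu, fun h _ => h⟩
      rw [e2]
      exact measurableSet_le (measurable_gr _ _ _ _).abs measurable_const
    · have e2 : {V : Site d → ℝ | sd v u = L → |gr V (box v L) E v u| ≤ Real.exp (-m * L)} =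
          Set.univ := by
        ext V
        exact ⟨fun _ => trivial, fun _ h => absurd h hu⟩
      rw [e2]
      exact MeasurableSet.univ

theorem allGoodC_iff (V : Site d → ℝ) (a : Site d) (L : ℕ) (m E : ℝ) :
    AllGoodC V a L m E ↔ ∀ s ∈ box a L, SG V L m E s := Iff.rfl

theorem measurableSet_allGoodC (L : ℕ) (m E : ℝ) (a : Site d) :
    MeasurableSet {V : Site d → ℝ | AllGoodC V a L m E} := by
  have e : {V : Site d → ℝ | AllGoodC V a L m E} =
      ⋂ s ∈ box a L, {V : Site d → ℝ | SG V L m E s} := by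
    ext V
    simp [allGoodC_iff]
  rw [e]
  exact Finset.measurableSet_biInter _ fun s _ => measurableSet_sg L m E s

theorem allGoodC_congr {V V' : Site d → ℝ} {a : Site d} {L : ℕ}
    (h : ∀ x ∈ box a (2 * L), V x = V' x) (m E : ℝ) :
    AllGoodC V a L m E ↔ AllGoodC V' a L m E := by
  rw [allGoodC_iff, allGoodC_iff]
  refine forall₂_congr fun s hs => sg_congr (fun x hx => h x ?_) m E
  rw [mem_box] at *
  have := sd_triangle a s x
  omega

theorem allGoodC_tau (V : Site d → ℝ) (b : Site d) (L : ℕ) (m E : ℝ) :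
    AllGoodC (tau b V) 0 L m E ↔ AllGoodC V b L m E := by
  rw [allGoodC_iff, allGoodC_iff]
  constructor
  · intro h s hs
    have h1 := (sg_tau V b (s - b) L m E).1 (h (s - b) (by
      rw [H42.mem_box_add 0 b L, zero_add, sub_add_cancel]
      exact hs))
    rwa [sub_add_cancel] at h1
  · intro h s hs
    rw [sg_tau]
    apply h
    have := (H42.mem_box_add 0 b L s).1 hs
    rwa [zero_add] at this

/-- CON -/
theorem con (gev : GevStmt) (det : DetStmt) : ConStmt := by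
  intro d σ E κ δ p hd hσ hκ hδ hp hex L₂
  obtain ⟨L₁, hL₁⟩ := hex
  obtain ⟨Q, hQ, hgev⟩ := gev d σ E (κ / 20) (p * δ) hd hσ (by positivity) (by positivity)
  obtain ⟨L₀, hdet⟩ := det d κ (κ / 20) hd hκ (by positivity) (by linarith)
  obtain ⟨ℓ, N, a, hl, hℓ, hN, hP⟩ := hgev (L₀ + L₁ + L₂)
  obtain ⟨L, hL⟩ : ∃ L, L = Q * ℓ := ⟨_, rfl⟩
  have hLℓ : ℓ ≤ L := by
    rw [hL]
    exact Nat.le_mul_of_pos_left _ hQ
  have hL0 : L₀ ≤ L := by omega
  have hL1 : L₁ ≤ L := by omega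
  have hL2 : L₂ ≤ L := by omega
  have hL3 : 1 ≤ L := by omega
  refine ⟨L, hL2, ?_⟩
  -- the second base point
  obtain ⟨i₀, _⟩ : ∃ i : Fin d, i = ⟨0, hd⟩ := ⟨_, rfl⟩
  obtain ⟨b, hb⟩ : ∃ b : Site d, b = a + (Pi.single i₀ (5 * (L : ℤ)) : Site d) := ⟨_, rfl⟩
  have hab1 : sd a b ≤ 5 * L := by
    rw [sd_le_iff]
    intro i
    rw [hb]
    by_cases hi : i = i₀
    · subst hi
      simp [abs_mul]
    · simp [hi]
  have hab2 : ¬ sd a b ≤ 3 * L := by
    intro h
    have h1 := sd_le_iff.1 h i₀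
    rw [hb] at h1
    simp [abs_mul] at h1
    omega
  -- the two events
  obtain ⟨S, hS⟩ : ∃ S : Set (Site d → ℝ), S = {V | SG V L κ E a} := ⟨_, rfl⟩
  obtain ⟨T, hT⟩ : ∃ T : Set (Site d → ℝ), T = {V | ¬ AllGoodC V b L (κ / 2) E} := ⟨_, rfl⟩
  have hSm : MeasurableSet S := by
    rw [hS]
    exact measurableSet_sg L κ E a
  have hTm : MeasurableSet T := by
    rw [hT]
    exact (measurableSet_allGoodC L (κ / 2) E b).compl
  have hdisj : Disjoint (box a L) (box b (2 * L)) := by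
    rw [Finset.disjoint_left]
    intro z hz1 hz2
    rw [mem_box] at hz1 hz2
    apply hab2
    have := sd_triangle a z b
    rw [sd_comm z b] at this
    omega
  have hind : PP d (gl σ) (S ∩ T) = PP d (gl σ) S * PP d (gl σ) T := by
    refine H6.PP_inter (gl σ) hdisj hSm hTm ?_ ?_
    · intro W W' h
      rw [hS]
      exact sg_congr h κ E
    · intro W W' h
      rw [hT]
      exact not_congr (allGoodC_congr h (κ / 2) E)
  have hsub : S ∩ T ⊆ {V | ¬ GoodEv V N Q ℓ a E (κ / 20)} := by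
    rintro V ⟨h1, h2⟩ hgood
    rw [hS] at h1
    rw [hT] at h2
    apply h2
    rw [allGoodC_iff]
    intro s hs
    have h3 := hdet V N Q ℓ a E hQ hℓ (by rw [← hL]; exact hL0) hN hgood
      (by rw [← hL]; exact h1) s (by
        rw [← hL, mem_box]
        rw [mem_box] at hs
        have := sd_triangle a b s
        omega)
    rw [← hL] at h3
    exact h3
  have hPS : ENNReal.ofReal δ ≤ PP d (gl σ) S := by
    refine (hL₁ L hL1).trans (le_of_eq ?_)
    rw [← (shiftInv_PP (gl σ) a).measure_preimage (measurableSet_sg L κ E 0).nullMeasurableSet]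
    congr 1
    rw [hS]
    ext V
    have := sg_tau V a 0 L κ E
    rw [zero_add] at this
    exact this
  have hPT : PP d (gl σ) T ≤ ENNReal.ofReal p := by
    have h1 : ENNReal.ofReal δ * PP d (gl σ) T ≤ ENNReal.ofReal δ * ENNReal.ofReal p := by
      calc ENNReal.ofReal δ * PP d (gl σ) T ≤ PP d (gl σ) S * PP d (gl σ) T := by gcongr
        _ = PP d (gl σ) (S ∩ T) := hind.symm
        _ ≤ _ := measure_mono hsub
        _ ≤ ENNReal.ofReal (p * δ) := hP
        _ = _ := by rw [mul_comm p δ, ENNReal.ofReal_mul hδ.le]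
    have h2 : ENNReal.ofReal δ ≠ 0 := by
      rw [ne_eq, ENNReal.ofReal_eq_zero, not_le]
      exact hδ
    exact (ENNReal.mul_le_mul_iff_right h2 ENNReal.ofReal_ne_top).1 h1
  have hm0 : MeasurableSet {V : Site d → ℝ | ¬ AllGoodC V 0 L (κ / 2) E} :=
    (measurableSet_allGoodC L (κ / 2) E 0).compl
  rw [PL_eq_PP hm0 (fun W W' h => not_congr (allGoodC_congr h (κ / 2) E))]
  refine le_trans (le_of_eq ?_) hPT
  rw [← (shiftInv_PP (gl σ) b).measure_preimage hm0.nullMeasurableSet]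
  congr 1
  rw [hT]
  ext V
  exact not_congr (allGoodC_tau V b L (κ / 2) E)

end Pool.Agent.LE.H3A
end
end -- Pool.Agent.Helper3_LE.ConA

section -- Pool.Agent.Helper3_LE.ZooG

/-!
# ZOO: zero-one law and monotonicity in the scale
-/

set_option autoImplicit false
set_option linter.unusedSectionVars false

open MeasureTheory ProbabilityTheory Function

open scoped ENNReal BigOperators

noncomputable section

namespace Pool.Agent.LE.H3G

open Pool.Agent.Anderson Pool.Agent.Loc Pool.Agent.Mob Pool.Agent.Helper54.Bal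
  Pool.Agent.Mob.H75 Pool.Agent.LE.H3A

variable {d : ℕ}

theorem measurableSet_nsg (L : ℕ) (m E : ℝ) (v : Site d) :
    MeasurableSet {V : Site d → ℝ | ¬ SG V L m E v} := (measurableSet_sg L m E v).compl

theorem prob_sg (σ : ℝ) (L : ℕ) (m E : ℝ) (a : Site d) :
    PP d (gl σ) {V | SG V L m E a} = PP d (gl σ) {V | SG V L m E 0} := by
  rw [← (shiftInv_PP (gl σ) a).measure_preimage (measurableSet_sg L m E 0).nullMeasurableSet]
  refine congrArg (fun s => PP d (gl σ) s) (Set.ext fun V => ?_)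
  have := sg_tau V a 0 L m E
  rw [zero_add] at this
  exact this.symm

theorem prob_nsg (σ : ℝ) (L : ℕ) (m E : ℝ) (a : Site d) :
    PP d (gl σ) {V | ¬ SG V L m E a} = PP d (gl σ) {V | ¬ SG V L m E 0} := by
  rw [← (shiftInv_PP (gl σ) a).measure_preimage (measurableSet_nsg L m E 0).nullMeasurableSet]
  refine congrArg (fun s => PP d (gl σ) s) (Set.ext fun V => ?_)
  have := sg_tau V a 0 L m E
  rw [zero_add] at this
  exact not_congr this.symm

/-- ZOO -/
theorem zoo (gev : GevGStmt) (det : DetGStmt) (detx : DetXStmt) : ZooStmt := by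
  intro d σ E κ κ' δ p hd hσ hκ hδ hp hex
  obtain ⟨k3, hk3⟩ : ∃ k3 : ℝ, k3 = (κ - κ') / 24 := ⟨_, rfl⟩
  have hk0 : 0 < k3 := by
    rw [hk3]
    linarith only [hκ]
  obtain ⟨Q, hQ, l, hl1, hgev⟩ := gev d σ E k3 (p * δ) hd hσ hk0 (by positivity)
  obtain ⟨L₀, hdet⟩ := det d k3 hd hk0
  obtain ⟨L₁, hdetx⟩ := detx d k3 hd hk0
  obtain ⟨T, hT⟩ := exists_nat_ge ((|κ - 12 * k3| + 12 * k3) / k3)
  rw [div_le_iff₀ hk0] at hT
  refine ⟨Q * (l + Q + T + 1) + L₀ + L₁, fun L hL => ?_⟩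
  obtain ⟨L', hLL', hpL'⟩ := hex L
  -- the scales
  obtain ⟨ℓ, hℓ⟩ : ∃ ℓ, ℓ = L / Q := ⟨_, rfl⟩
  obtain ⟨ℓ', hℓ'⟩ : ∃ ℓ', ℓ' = L' / Q := ⟨_, rfl⟩
  have hQ0 : 0 < Q := hQ
  have a1 : Q * ℓ ≤ L := by
    rw [hℓ]
    exact Nat.mul_div_le L Q
  have a2 : L < Q * (ℓ + 1) := by
    rw [hℓ]
    exact Nat.lt_mul_div_succ L hQ0
  have a3 : Q * ℓ' ≤ L' := by
    rw [hℓ']
    exact Nat.mul_div_le L' Q
  have a4 : L' < Q * (ℓ' + 1) := by
    rw [hℓ']
    exact Nat.lt_mul_div_succ L' hQ0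
  have b1 : l + Q + T + 1 ≤ ℓ := by
    rw [hℓ, Nat.le_div_iff_mul_le hQ0]
    rw [mul_comm]
    omega
  have b2 : ℓ ≤ ℓ' := by
    rw [hℓ, hℓ']
    exact Nat.div_le_div_right hLL'
  have c1 : |κ - 12 * k3| + 12 * k3 ≤ k3 * ℓ := by
    have h1 : (T : ℝ) ≤ ℓ := by exact_mod_cast (by omega : T ≤ ℓ)
    nlinarith only [hκ, hk3, hT, h1]
  have c2 : |κ - 12 * k3| + 12 * k3 ≤ k3 * ℓ' := by
    have h1 : (T : ℝ) ≤ ℓ' := by exact_mod_cast (by omega : T ≤ ℓ')
    nlinarith only [hκ, hk3, hT, h1]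
  obtain ⟨N, a, hN', hN, hP⟩ := hgev ℓ' ℓ (by omega) (by omega)
  -- the second base point
  obtain ⟨i₀, _⟩ : ∃ i : Fin d, i = ⟨0, hd⟩ := ⟨_, rfl⟩
  obtain ⟨k, hk⟩ : ∃ k : Site d, k = (Pi.single i₀ (5 * (Q : ℤ)) : Site d) := ⟨_, rfl⟩
  have hk8 : k ∈ box (0 : Site d) (8 * Q) := by
    rw [mem_box, sd_le_iff]
    intro i
    rw [hk]
    by_cases hi : i = i₀
    · subst hi
      simp [abs_mul]
      omega
    · simp [hi]
  obtain ⟨b, hb⟩ : ∃ b : Site d, b = a + sm ℓ' k := ⟨_, rfl⟩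
  have hab : ¬ sd a b ≤ L + L' := by
    intro h
    have h1 := sd_le_iff.1 h i₀
    rw [hb, hk] at h1
    simp only [sm, Pi.add_apply, Pi.single_eq_same, sub_add_cancel_left, abs_neg, abs_mul,
      Nat.abs_cast, Nat.abs_ofNat] at h1
    have h2 : ℓ' * (5 * Q) ≤ L + L' := by exact_mod_cast h1
    have h3 : Q ≤ Q * ℓ' := Nat.le_mul_of_pos_right _ (by omega)
    have h4 : Q * (ℓ' + 1) = Q * ℓ' + Q := by ring
    have h5 : ℓ' * (5 * Q) = 5 * (Q * ℓ') := by ring
    have h6 : 0 < Q * ℓ' := Nat.mul_pos hQ0 (by omega)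
    omega
  -- the two events
  obtain ⟨S, hS⟩ : ∃ S : Set (Site d → ℝ), S = {V | SG V L' κ E b} := ⟨_, rfl⟩
  obtain ⟨R, hR⟩ : ∃ R : Set (Site d → ℝ), R = {V | ¬ SG V L κ' E a} := ⟨_, rfl⟩
  have hSm : MeasurableSet S := by
    rw [hS]
    exact measurableSet_sg L' κ E b
  have hRm : MeasurableSet R := by
    rw [hR]
    exact measurableSet_nsg L κ' E a
  have hdisj : Disjoint (box b L') (box a L) := by
    rw [Finset.disjoint_left]
    intro z hz1 hz2
    rw [mem_box] at hz1 hz2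
    apply hab
    have := sd_triangle a z b
    rw [sd_comm z b] at this
    omega
  have hind : PP d (gl σ) (S ∩ R) = PP d (gl σ) S * PP d (gl σ) R := by
    refine H6.PP_inter (gl σ) hdisj hSm hRm ?_ ?_
    · intro W W' h
      rw [hS]
      exact sg_congr h κ E
    · intro W W' h
      rw [hR]
      exact not_congr (sg_congr h κ' E)
  have hsub : S ∩ R ⊆ {V | ¬ (GoodG V N Q ℓ' a E k3 ∧ GoodG V N Q ℓ a E k3 ∧
      CrossG V N Q ℓ' ℓ a E k3)} := by
    rintro V ⟨h1, h2⟩ ⟨g1, g2, g3⟩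
    rw [hS] at h1
    rw [hR] at h2
    apply h2
    have h1' : SG V L' κ E (a + sm ℓ' k) := by
      rw [← hb]
      exact h1
    have h3 := hdet κ V N Q ℓ' L' a E hQ (by omega) (by omega) a3 a4 hN' g1 k hk8 h1' a (by
      rw [mem_box, sd_self]
      exact Nat.zero_le _)
    have h4 := hdetx (κ - 12 * k3) V N Q ℓ' ℓ L' L a E hQ (by omega) (by omega) c2 c1 (by omega)
      (by omega) a3 a4 a1 a2 hN' hN g1 g2 g3 h3
    have h5 : κ - 12 * k3 - 12 * k3 = κ' := by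
      rw [hk3]
      ring
    rw [h5] at h4
    exact h4
  have hPS : ENNReal.ofReal δ ≤ PP d (gl σ) S := by
    rw [hS, prob_sg]
    exact hpL'
  have hPR : PP d (gl σ) R ≤ ENNReal.ofReal p := by
    have h1 : ENNReal.ofReal δ * PP d (gl σ) R ≤ ENNReal.ofReal δ * ENNReal.ofReal p := by
      calc ENNReal.ofReal δ * PP d (gl σ) R ≤ PP d (gl σ) S * PP d (gl σ) R := by gcongr
        _ = PP d (gl σ) (S ∩ R) := hind.symm
        _ ≤ _ := measure_mono hsub
        _ ≤ ENNReal.ofReal (p * δ) := hP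
        _ = _ := by rw [mul_comm p δ, ENNReal.ofReal_mul hδ.le]
    have h2 : ENNReal.ofReal δ ≠ 0 := by
      rw [ne_eq, ENNReal.ofReal_eq_zero, not_le]
      exact hδ
    exact (ENNReal.mul_le_mul_iff_right h2 ENNReal.ofReal_ne_top).1 h1
  rw [hR, prob_nsg] at hPR
  exact hPR

end Pool.Agent.LE.H3G
end
end -- Pool.Agent.Helper3_LE.ZooG
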