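import Pool.Agent.Helper12_MEB.B030
import Pool.Agent.Helper12_MEB.B039

/-!
# Merged copies (generated) of the modules

* `Pool.Agent.Helper26_LE.Erg`
* `Pool.Agent.Helper77_LCH.ERG`
* `Pool.Agent.Helper16_AEN.EN2`
* `Pool.Agent.Helper20_AEN.DCY`
* `Pool.Agent.Helper20_AEN.END`
* `Pool.Agent.Helper31_AEN.ZON`
* `Pool.Agent.Helper32_AEN.FTU`
* `Pool.Agent.Helper41_AEN.EIG`
* `Pool.Agent.Helper44_AEN.DET`
* `Pool.Agent.Helper52_AEN.ASL`
* `Pool.Agent.Helper62_AEN.TWO`
* `Pool.Agent.Helper6_AEN.MON`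
* `Pool.Agent.Helper72_AEN.Conn`
* `Pool.Agent.Helper77_AEN.MEA`
* `Pool.Agent.Helper80_AEN.TRA`
* `Pool.Agent.Helper81_AEN.POS`
* `Pool.Agent.Helper92_AEN.RAT`
* `Pool.Agent.Helper76_AEN.All`
-/

set_option autoImplicit false

section -- Pool.Agent.Helper26_LE.Erg

/-!
# An event of positive probability occurs, after a translation, in each large cube
-/

set_option autoImplicit false
set_option linter.unusedSectionVars false

open MeasureTheory ProbabilityTheory Function

open scoped ENNReal BigOperators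

noncomputable section

namespace Pool.Agent.LE.H26

open Pool.Agent.Anderson Pool.Agent.Loc Pool.Agent.Helper54.Bal

variable {d : ℕ}

/-- the sites on an axis -/
def sj (i₀ : Fin d) (a : Site d) (r j : ℕ) : Site d :=
  fun i => a i + if i = i₀ then (j : ℤ) * (2 * r + 1) else 0

theorem sd_sj (i₀ : Fin d) (a : Site d) (r j : ℕ) : sd a (sj i₀ a r j) ≤ j * (2 * r + 1) := by
  rw [sd_le_iff]
  intro i
  unfold sj
  split_ifs
  · have : a i - (a i + (j : ℤ) * (2 * r + 1)) = -((j * (2 * r + 1) : ℕ) : ℤ) := by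
      push_cast
      ring
    rw [this, abs_neg, Nat.abs_cast]
  · simp

theorem disj (i₀ : Fin d) (a : Site d) (r : ℕ) {j k : ℕ} (h : j < k) :
    Disjoint (box (sj i₀ a r j) r) (box (sj i₀ a r k) r) := by
  rw [Finset.disjoint_left]
  intro x hx hy
  rw [mem_box, sd_le_iff] at hx hy
  have h1 := hx i₀
  have h2 := hy i₀
  unfold sj at h1 h2
  rw [if_pos rfl] at h1 h2
  have h3 : (j : ℤ) + 1 ≤ k := by exact_mod_cast h
  have h4 : ((j : ℤ) + 1) * (2 * r + 1) ≤ (k : ℤ) * (2 * r + 1) := by
    apply mul_le_mul_of_nonneg_right h3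
    positivity
  have h5 : ((j : ℤ) + 1) * (2 * r + 1) = (j : ℤ) * (2 * r + 1) + (2 * r + 1) := by ring
  rw [h5] at h4
  rw [abs_le] at h1 h2
  have h6 := h1.1
  have h7 := h2.2
  linarith only [h1, h2, h4]

/-- the event after a translation depends on the translated cube -/
theorem tau_loc {T : Set (Site d → ℝ)} {r : ℕ}
    (hT : ∀ W W' : Site d → ℝ, (∀ x ∈ box (0 : Site d) r, W x = W' x) → (W ∈ T ↔ W' ∈ T))
    (s : Site d) (W W' : Site d → ℝ) (h : ∀ x ∈ box s r, W x = W' x) :
    (tau s W ∈ T ↔ tau s W' ∈ T) := by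
  apply hT
  intro x hx
  apply h
  rw [mem_box, sd_le_iff] at hx ⊢
  intro i
  have h1 := hx i
  have h2 : s i - (x + s) i = (0 : Site d) i - x i := by
    rw [Pi.add_apply, Pi.zero_apply]
    ring
  rwa [h2]

theorem meas_inter {ν : Measure ℝ} [IsProbabilityMeasure ν] {T : Set (Site d → ℝ)} {r : ℕ}
    (hm : MeasurableSet T)
    (hT : ∀ W W' : Site d → ℝ, (∀ x ∈ box (0 : Site d) r, W x = W' x) → (W ∈ T ↔ W' ∈ T))
    (i₀ : Fin d) (a : Site d) (k : ℕ) :
    PP d ν {V | ∀ j < k, tau (sj i₀ a r j) V ∈ T} = (PP d ν T) ^ k := by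
  classical
  induction k with
  | zero =>
    have : {V : Site d → ℝ | ∀ j < 0, tau (sj i₀ a r j) V ∈ T} = Set.univ := by
      ext V
      simp
    rw [this, pow_zero, measure_univ]
  | succ k ih =>
    have e : {V : Site d → ℝ | ∀ j < k + 1, tau (sj i₀ a r j) V ∈ T} =
        {V | ∀ j < k, tau (sj i₀ a r j) V ∈ T} ∩ {V | tau (sj i₀ a r k) V ∈ T} := by
      ext V
      simp only [Set.mem_ofPred_eq, Set.mem_inter_iff]
      constructor
      · intro h
        exact ⟨fun j hj => h j (by omega), h k (by omega)⟩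
      · rintro ⟨h1, h2⟩ j hj
        rcases Nat.lt_succ_iff_lt_or_eq.1 hj with h | rfl
        · exact h1 j h
        · exact h2
    rw [e, Pool.Agent.Mob.H6.PP_inter ν
      (A := (Finset.range k).biUnion fun j => box (sj i₀ a r j) r) (B := box (sj i₀ a r k) r),
      ih, pow_succ]
    · congr 1
      exact (shiftInv_PP ν (sj i₀ a r k)).measure_preimage hm.nullMeasurableSet
    · rw [Finset.disjoint_biUnion_left]
      intro j hj
      exact disj i₀ a r (Finset.mem_range.1 hj)
    · have : {V : Site d → ℝ | ∀ j < k, tau (sj i₀ a r j) V ∈ T} =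
          ⋂ j ∈ Finset.range k, (tau (sj i₀ a r j)) ⁻¹' T := by
        ext V
        simp
      rw [this]
      exact Finset.measurableSet_biInter _ fun j _ => (measurable_tau _) hm
    · exact (measurable_tau _) hm
    · intro W W' h
      simp only [Set.mem_ofPred_eq]
      refine forall_congr' fun j => forall_congr' fun hj => ?_
      apply tau_loc hT
      intro x hx
      apply h
      rw [Finset.mem_biUnion]
      exact ⟨j, Finset.mem_range.2 hj, hx⟩
    · intro W W' h
      exact tau_loc hT _ _ _ h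

theorem exists_box (I : Finset (Site d)) : ∃ r : ℕ, I ⊆ box (0 : Site d) r := by
  refine ⟨I.sup fun x => sd 0 x, fun x hx => ?_⟩
  rw [mem_box]
  exact Finset.le_sup (f := fun x => sd 0 x) hx

theorem erg : ErgStmt := by
  classical
  intro d ν _ S hd hS hpos ε hε
  set P := PP d ν with hP
  have hth : 0 < P.real S := ENNReal.toReal_pos hpos (measure_ne_top _ _)
  have hth1 : P.real S ≤ 1 := measureReal_le_one
  set th : ℝ := P.real S with hthdef
  obtain ⟨N, hN⟩ := exists_pow_lt_of_lt_one (by positivity : (0:ℝ) < ε / 2)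
    (by linarith only [hth] : 1 - th / 2 < 1)
  set η : ℝ := min (ε / (2 * (N + 1))) (th / 2) with hη
  have hη0 : 0 < η := lt_min (by positivity) (by positivity)
  obtain ⟨T, hTC, hTS⟩ := exists_measure_symmDiff_lt_of_generateFrom_isSetRing (μ := P)
    (C := measurableCylinders fun _ : Site d => ℝ) isSetRing_measurableCylinders
    ⟨{Set.univ}, Set.countable_singleton _, by
      rw [Set.singleton_subset_iff]
      exact univ_mem_measurableCylinders _, by simp⟩
    generateFrom_measurableCylinders.symm hS (ENNReal.ofReal_pos.2 hη0)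
  obtain ⟨I, A, hA, rfl⟩ := (mem_measurableCylinders _).1 hTC
  obtain ⟨r, hr⟩ := exists_box I
  set T : Set (Site d → ℝ) := cylinder I A with hTdef
  have hTm : MeasurableSet T := MeasurableSet.of_mem_measurableCylinders hTC
  have hTloc : ∀ W W' : Site d → ℝ, (∀ x ∈ box (0 : Site d) r, W x = W' x) →
      (W ∈ T ↔ W' ∈ T) := by
    intro W W' h
    rw [hTdef, mem_cylinder, mem_cylinder]
    have : I.restrict W = I.restrict W' := by
      funext x
      exact h x (hr x.2)
    rw [this]
  have hTcloc : ∀ W W' : Site d → ℝ, (∀ x ∈ box (0 : Site d) r, W x = W' x) →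
      (W ∈ Tᶜ ↔ W' ∈ Tᶜ) := by
    intro W W' h
    rw [Set.mem_compl_iff, Set.mem_compl_iff, hTloc W W' h]
  have h1 : P (T \ S) ≤ ENNReal.ofReal (ε / (2 * (N + 1))) := by
    calc P (T \ S) ≤ P (symmDiff T S) := measure_mono (by
          rw [Set.symmDiff_def]
          exact Set.subset_union_left)
      _ ≤ ENNReal.ofReal η := hTS.le
      _ ≤ _ := ENNReal.ofReal_le_ofReal (min_le_left _ _)
  have h2 : P Tᶜ ≤ ENNReal.ofReal (1 - th / 2) := by
    have h3 : P (S \ T) ≤ ENNReal.ofReal (th / 2) := by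
      calc P (S \ T) ≤ P (symmDiff T S) := measure_mono (by
            rw [Set.symmDiff_def]
            exact Set.subset_union_right)
        _ ≤ ENNReal.ofReal η := hTS.le
        _ ≤ _ := ENNReal.ofReal_le_ofReal (min_le_right _ _)
    have h4 : P Tᶜ ≤ P Sᶜ + P (S \ T) := by
      calc P Tᶜ ≤ P (Sᶜ ∪ (S \ T)) := measure_mono fun V hV => by
            by_cases hs : V ∈ S
            · exact Or.inr ⟨hs, hV⟩
            · exact Or.inl hs
        _ ≤ _ := measure_union_le _ _
    have h5 : P Sᶜ = ENNReal.ofReal (1 - th) := by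
      rw [prob_compl_eq_one_sub hS, ENNReal.ofReal_sub _ hth.le, ENNReal.ofReal_one, hthdef,
        ofReal_measureReal]
    calc P Tᶜ ≤ ENNReal.ofReal (1 - th) + ENNReal.ofReal (th / 2) := by
          rw [← h5]
          exact h4.trans (by gcongr)
      _ = _ := by
          rw [← ENNReal.ofReal_add (by linarith only [hth1]) (by linarith only [hth])]
          congr 1
          ring
  refine ⟨N * (2 * r + 1), fun n hn a => ?_⟩
  have hsub : {V : Site d → ℝ | ∀ s ∈ box a n, tau s V ∉ S} ⊆
      {V | ∀ j < N, tau (sj ⟨0, hd⟩ a r j) V ∈ Tᶜ} ∪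
        ⋃ j ∈ Finset.range N, (tau (sj ⟨0, hd⟩ a r j)) ⁻¹' (T \ S) := by
    intro V hV
    by_cases hc : ∀ j < N, tau (sj ⟨0, hd⟩ a r j) V ∈ Tᶜ
    · exact Or.inl hc
    · right
      push Not at hc
      obtain ⟨j, hj, hjT⟩ := hc
      simp only [Set.mem_iUnion, Finset.mem_range]
      refine ⟨j, hj, ?_, ?_⟩
      · simpa using hjT
      · apply hV
        rw [mem_box]
        calc sd a (sj ⟨0, hd⟩ a r j) ≤ j * (2 * r + 1) := sd_sj _ _ _ _
          _ ≤ N * (2 * r + 1) := by gcongr
          _ ≤ n := hn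
  calc P {V : Site d → ℝ | ∀ s ∈ box a n, tau s V ∉ S}
      ≤ P {V | ∀ j < N, tau (sj ⟨0, hd⟩ a r j) V ∈ Tᶜ} +
        P (⋃ j ∈ Finset.range N, (tau (sj ⟨0, hd⟩ a r j)) ⁻¹' (T \ S)) :=
        (measure_mono hsub).trans (measure_union_le _ _)
    _ ≤ (P Tᶜ) ^ N + ∑ j ∈ Finset.range N, P ((tau (sj ⟨0, hd⟩ a r j)) ⁻¹' (T \ S)) := by
        gcongr
        · exact (meas_inter hTm.compl hTcloc _ _ _).le
        · exact measure_biUnion_finset_le _ _
    _ = (P Tᶜ) ^ N + N * P (T \ S) := by
        congr 1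
        rw [Finset.sum_congr rfl fun j _ => (shiftInv_PP ν (sj ⟨0, hd⟩ a r j)).measure_preimage
          (hTm.diff hS).nullMeasurableSet]
        rw [Finset.sum_const, Finset.card_range, nsmul_eq_mul]
    _ ≤ (ENNReal.ofReal (1 - th / 2)) ^ N + N * ENNReal.ofReal (ε / (2 * (N + 1))) := by
        gcongr
    _ ≤ ENNReal.ofReal (ε / 2) + ENNReal.ofReal (ε / 2) := by
        gcongr
        · rw [← ENNReal.ofReal_pow (by linarith only [hth1])]
          exact ENNReal.ofReal_le_ofReal hN.le
        · rw [← ENNReal.ofReal_natCast, ← ENNReal.ofReal_mul (by positivity)]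
          apply ENNReal.ofReal_le_ofReal
          rw [mul_div_assoc', div_le_div_iff₀ (by positivity) (by positivity)]
          nlinarith only [hε]
    _ = ENNReal.ofReal ε := by
        rw [← ENNReal.ofReal_add (by positivity) (by positivity)]
        congr 1
        ring

end Pool.Agent.LE.H26
end
end -- Pool.Agent.Helper26_LE.Erg

section -- Pool.Agent.Helper77_LCH.ERG

/-!
# The shifts are ergodic for a product measure

If `P A ≠ 0` then, by `Pool.Agent.LE.H26.erg`, the event that `tau s V ∉ A` for all sites `s` of a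
large cube has a small probability. For an invariant `A` this event is the complement of `A`.
-/

set_option autoImplicit false

open MeasureTheory ProbabilityTheory Function Filter

open scoped ENNReal

noncomputable section

namespace Pool.Agent.LE.CH.H77

open Pool.Agent.Anderson Pool.Agent.Loc Pool.Agent.Mob Pool.Agent.Helper54.Bal

theorem erg : ErgStmt := by
  intro d ν _ A hd hA hinv
  by_cases h0 : PP d ν A = 0
  · exact Or.inl h0
  · right
    have hc : PP d ν Aᶜ = 0 := by
      by_contra hne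
      have hpos : 0 < (PP d ν Aᶜ).toReal := ENNReal.toReal_pos hne (measure_ne_top _ _)
      obtain ⟨n₀, hn⟩ := Pool.Agent.LE.H26.erg d ν A hd hA h0 ((PP d ν Aᶜ).toReal / 2)
        (half_pos hpos)
      have h1 := hn n₀ le_rfl 0
      have h2 : Aᶜ ⊆ {V : Site d → ℝ | ∀ s ∈ box (0 : Site d) n₀, tau s V ∉ A} := by
        intro V hV s _ hs
        apply hV
        rw [← hinv s]
        exact hs
      have h3 : PP d ν Aᶜ ≤ ENNReal.ofReal ((PP d ν Aᶜ).toReal / 2) := (measure_mono h2).trans h1
      have h4 := ENNReal.toReal_mono ENNReal.ofReal_ne_top h3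
      rw [ENNReal.toReal_ofReal (half_pos hpos).le] at h4
      linarith
    exact (prob_compl_eq_zero_iff hA).1 hc

end Pool.Agent.LE.CH.H77
end
end -- Pool.Agent.Helper77_LCH.ERG

section -- Pool.Agent.Helper16_AEN.EN2

/-!
# Anderson model, the cheap end: row EN2
-/

set_option autoImplicit false

open MeasureTheory ProbabilityTheory Function Filter

open scoped ENNReal BigOperators InnerProductSpace Topology

noncomputable section

namespace Pool.Agent.AEN.H16

open Pool.Agent.Anderson Pool.Agent.Loc Pool.Agent.Helper54.Bal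

theorem en2 (hend : EndStmt) (pos : PosStmt) : En2Stmt := by
  intro d σ a b hd hσ h
  apply hend d σ a b hd hσ
  filter_upwards [h] with E hE
  obtain ⟨p, hp, hA⟩ := hE
  have h1 := pos d σ E p hA
  intro h0
  rw [h0] at h1
  exact hp (le_antisymm h1 zero_le)

end Pool.Agent.AEN.H16
end
end -- Pool.Agent.Helper16_AEN.EN2

section -- Pool.Agent.Helper20_AEN.DCY

/-!
# Anderson model, the cheap end, row DCY
-/

set_option autoImplicit false

open MeasureTheory ProbabilityTheory Function Filter

open scoped ENNReal BigOperators InnerProductSpace Topology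

noncomputable section

namespace Pool.Agent.AEN.H20

open Pool.Agent.Anderson Pool.Agent.Loc Pool.Agent.Helper54.Bal Pool.Agent.AEN

theorem cont_Gn (d : ℕ) (E : ℝ) (n : ℕ) (x : Site d) :
    Continuous fun V : Site d → ℝ => Gn V E n x := by
  have h0 : Continuous fun V : Site d → ℝ => (V, E, (del x : L2 d)) :=
    continuous_id.prodMk continuous_const
  have h := (continuous_G (d := d) (η := et n) (et_pos n).ne').comp h0
  unfold Gn zn
  exact h

theorem cont_Gny (d : ℕ) (E : ℝ) (n : ℕ) (x y : Site d) :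
    Continuous fun V : Site d → ℝ => Gn V E n x y := by
  have h : (fun V : Site d → ℝ => Gn V E n x y) =
      fun V : Site d → ℝ => ⟪(del y : L2 d), Gn V E n x⟫_ℂ := by
    funext V
    rw [inner_del_left]
  rw [h]
  exact continuous_const.inner (cont_Gn d E n x)

theorem Gn_pos {d : ℕ} (V : Site d → ℝ) (E : ℝ) (n : ℕ) : 0 < ‖Gn V E n 0‖ :=
  Pool.Agent.QE.norm_G_del_pos (zn_im_ne E n) 0

theorem fr_nonneg {d : ℕ} (V : Site d → ℝ) (E : ℝ) (n : ℕ) : 0 ≤ fr V E n := by
  unfold fr
  positivity

theorem fr_le_one {d : ℕ} (V : Site d → ℝ) (E : ℝ) (n : ℕ) : fr V E n ≤ 1 := by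
  unfold fr
  have hp := Gn_pos V E n
  rw [div_le_one (by positivity)]
  have h1 : ‖Gn V E n 0 0‖ ≤ ‖Gn V E n 0‖ := by
    have h2 : Gn V E n 0 0 = ⟪(del 0 : L2 d), Gn V E n 0⟫_ℂ := by rw [inner_del_left]
    rw [h2]
    refine (norm_inner_le_norm _ _).trans (le_of_eq ?_)
    rw [norm_del, one_mul]
  exact pow_le_pow_left₀ (norm_nonneg _) h1 2

theorem meas_fr (d : ℕ) (E : ℝ) (n : ℕ) : Measurable fun V : Site d → ℝ => fr V E n := by
  unfold fr
  exact ((cont_Gny d E n 0 0).norm.pow 2).measurable.div ((cont_Gn d E n 0).norm.pow 2).measurable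

theorem integrand_eq {d : ℕ} (V : Site d → ℝ) (E : ℝ) (n : ℕ) :
    et n * ‖Gn V E n 0 0‖ ^ 2 = fr V E n * (G V (zz (et n) E) (del 0) 0).im := by
  have h := Pool.Agent.QE.im_G_del' (V := V) (zn_im_ne E n) (0 : Site d)
  rw [zn_im] at h
  have hp := Gn_pos V E n
  have h1 : (G V (zz (et n) E) (del 0) 0).im = et n * ‖Gn V E n 0‖ ^ 2 := h
  rw [h1]
  unfold fr
  field_simp

theorem null_gl {σ : ℝ} (hσ : σ ≠ 0) (a : ℝ) : gl σ {a} = 0 := by
  have h := (bddDens_gl hσ).2 a a
  rw [Set.Icc_self, sub_self, mul_zero, ENNReal.ofReal_zero] at h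
  exact le_antisymm h zero_le

theorem JJ_le (hS : SpaStmt) (hR : RatStmt) {d : ℕ} {σ : ℝ} (E : ℝ) (hσ : σ ≠ 0) (n : ℕ) :
    JJ d σ E n ≤ (∫⁻ V : Site d → ℝ, ENNReal.ofReal (fr V E n) ∂(PP d (gl σ))) *
      ENNReal.ofReal (cs σ) := by
  have hm : Measurable fun V : Site d → ℝ => ENNReal.ofReal (et n * ‖Gn V E n 0 0‖ ^ 2) :=
    ENNReal.measurable_ofReal.comp
      (continuous_const.mul ((cont_Gny d E n 0 0).norm.pow 2)).measurable
  have h1 : JJ d σ E n = ∫⁻ V : Site d → ℝ, (∫⁻ s : ℝ, ENNReal.ofReal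
      (et n * ‖Gn (Function.update V 0 s) E n 0 0‖ ^ 2) ∂(gl σ)) ∂(PP d (gl σ)) := by
    unfold JJ
    have h2 := (resamp_PP (d := d) (gl σ)).lintegral_comp hm
    rw [← h2]
    exact lintegral_prod _ (hm.comp measurable_upd).aemeasurable
  have hf : Measurable fun V : Site d → ℝ => ENNReal.ofReal (fr V E n) :=
    ENNReal.measurable_ofReal.comp (meas_fr d E n)
  rw [h1, ← lintegral_mul_const _ hf]
  apply lintegral_mono
  intro V
  have h3 : ∀ s : ℝ, ENNReal.ofReal (et n * ‖Gn (Function.update V 0 s) E n 0 0‖ ^ 2) =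
      ENNReal.ofReal (fr V E n) *
        ENNReal.ofReal (G (Function.update V 0 s) (zz (et n) E) (del 0) 0).im := by
    intro s
    rw [integrand_eq, (hR d V E s).1 n, ENNReal.ofReal_mul (fr_nonneg V E n)]
  simp_rw [h3]
  rw [lintegral_const_mul' _ _ ENNReal.ofReal_ne_top]
  exact mul_le_mul_right (hS d σ E (et n) V hσ (et_pos n)) _

theorem dcy (hS : SpaStmt) (hR : RatStmt) : DcyStmt := by
  intro d σ E hσ
  constructor
  · intro n
    refine (JJ_le hS hR E hσ n).trans ?_
    have h1 : ∫⁻ V : Site d → ℝ, ENNReal.ofReal (fr V E n) ∂(PP d (gl σ)) ≤ 1 := by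
      calc ∫⁻ V : Site d → ℝ, ENNReal.ofReal (fr V E n) ∂(PP d (gl σ))
          ≤ ∫⁻ _V : Site d → ℝ, 1 ∂(PP d (gl σ)) := by
            apply lintegral_mono
            intro V
            exact ENNReal.ofReal_le_one.2 (fr_le_one V E n)
        _ = 1 := by rw [lintegral_const, measure_univ, mul_one]
    calc (∫⁻ V : Site d → ℝ, ENNReal.ofReal (fr V E n) ∂(PP d (gl σ))) * ENNReal.ofReal (cs σ)
        ≤ 1 * ENNReal.ofReal (cs σ) := by gcongr
      _ = ENNReal.ofReal (cs σ) := one_mul _
  · intro h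
    have h1 : ∀ᵐ p ∂((PP d (gl σ)).prod (gl σ)), ¬ Bd (Function.update p.1 0 p.2) E 0 :=
      (resamp_PP (d := d) (gl σ)).quasiMeasurePreserving.ae h
    have h2 : ∀ᵐ V ∂(PP d (gl σ)), ∀ᵐ s ∂(gl σ), ¬ Bd (Function.update V 0 s) E 0 :=
      Measure.ae_ae_of_ae_prod h1
    have h3 : ∀ᵐ V ∂(PP d (gl σ)), Tendsto (fun n => ENNReal.ofReal (fr V E n)) atTop
        (𝓝 0) := by
      filter_upwards [h, h2] with V hV hV2
      have h4 : ∀ᵐ s ∂(gl σ), s ≠ V 0 := by
        rw [ae_iff]
        have h5 : {a : ℝ | ¬ a ≠ V 0} = {V 0} := by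
          ext a
          simp
        rw [h5]
        exact null_gl hσ _
      obtain ⟨s, hs1, hs2⟩ := (hV2.and h4).exists
      have h6 := (hR d V E s).2 hs2 hV hs1
      have h7 := ENNReal.tendsto_ofReal h6
      rwa [ENNReal.ofReal_zero] at h7
    have h8 : Tendsto (fun n => ∫⁻ V : Site d → ℝ, ENNReal.ofReal (fr V E n) ∂(PP d (gl σ)))
        atTop (𝓝 (∫⁻ _V : Site d → ℝ, 0 ∂(PP d (gl σ)))) := by
      apply tendsto_lintegral_of_dominated_convergence (fun _ => (1 : ℝ≥0∞))
      · intro n
        exact ENNReal.measurable_ofReal.comp (meas_fr d E n)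
      · intro n
        exact Eventually.of_forall fun V => ENNReal.ofReal_le_one.2 (fr_le_one V E n)
      · rw [lintegral_const, measure_univ, mul_one]
        exact ENNReal.one_ne_top
      · exact h3
    rw [lintegral_zero] at h8
    have h9 : Tendsto (fun n => (∫⁻ V : Site d → ℝ, ENNReal.ofReal (fr V E n) ∂(PP d (gl σ))) *
        ENNReal.ofReal (cs σ)) atTop (𝓝 0) := by
      have := ENNReal.Tendsto.mul_const (b := ENNReal.ofReal (cs σ)) h8
        (Or.inr ENNReal.ofReal_ne_top)
      rwa [zero_mul] at this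
    exact tendsto_of_tendsto_of_tendsto_of_le_of_le tendsto_const_nhds h9
      (fun n => zero_le) (fun n => JJ_le hS hR E hσ n)

end Pool.Agent.AEN.H20
end
end -- Pool.Agent.Helper20_AEN.DCY

section -- Pool.Agent.Helper20_AEN.END

/-!
# Anderson model, the cheap end, row END
-/

set_option autoImplicit false

open MeasureTheory ProbabilityTheory Function Filter

open scoped ENNReal BigOperators InnerProductSpace Topology

noncomputable section

namespace Pool.Agent.AEN.H20

open Pool.Agent.Anderson Pool.Agent.Loc Pool.Agent.Helper54.Bal Pool.Agent.AEN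

theorem eig_shift {d : ℕ} {V : Site d → ℝ} {E0 : ℝ} {φ : L2 d} (h : IsEigen V E0 φ)
    (x : Site d) : IsEigen (tau x V) E0 (shift x φ) := by
  intro y
  have h1 := h (y + x)
  have h2 : lap (shift x φ) y = lap φ (y + x) := by
    unfold lap
    apply Finset.sum_congr rfl
    intro i _
    rw [shift_apply, shift_apply]
    have e1 : y + Pi.single i 1 + x = y + x + Pi.single i 1 := by abel
    have e2 : y - Pi.single i 1 + x = y + x - Pi.single i 1 := by abel
    rw [e1, e2]
  rw [h2, shift_apply]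
  exact h1

theorem end_ (hZ : ZonStmt) (hF : FtuStmt) (hE : EigStmt) : EndStmt := by
  intro d σ a b hd hσ h
  have h1 : ∀ᵐ E ∂((volume : Measure ℝ).restrict (Set.Ioo a b)),
      ∀ᵐ V ∂(PP d (gl σ)), ¬ Bd V E 0 := by
    filter_upwards [h] with E hE'
    filter_upwards [hZ d σ E hd hσ hE'] with V hV
    exact hV 0
  have h2 := hF d σ a b hσ h1
  have h3 : ∀ᵐ V ∂(PP d (gl σ)), ∀ x : Site d,
      liminf (fun n => II (tau x V) a b n) atTop = 0 := by
    rw [ae_all_iff]
    intro x
    exact (shiftInv_PP (gl σ) x).quasiMeasurePreserving.ae h2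
  filter_upwards [h3] with V hV E0 h4 h5 φ hφ
  have h6 : ∀ x, φ x = 0 := by
    intro x
    by_contra hne
    have hx : shift x φ 0 = φ x := by
      rw [shift_apply, zero_add]
    have hφ0 : shift x φ ≠ 0 := by
      intro h0
      apply hne
      rw [← hx, h0]
      rfl
    have hE1 := hE d (tau x V) a b E0 (shift x φ) h4 h5 (eig_shift hφ x) hφ0
    have h7 : ENNReal.ofReal (‖shift x φ 0‖ ^ 4 / (2 * ‖shift x φ‖ ^ 4)) ≤
        liminf (fun n => II (tau x V) a b n) atTop :=
      le_liminf_of_le (by isBoundedDefault) hE1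
    rw [hV x] at h7
    have h8 : 0 < ‖shift x φ 0‖ ^ 4 / (2 * ‖shift x φ‖ ^ 4) := by
      have h9 : 0 < ‖shift x φ 0‖ := by
        rw [hx]
        exact norm_pos_iff.2 hne
      have h10 : 0 < ‖shift x φ‖ := norm_pos_iff.2 hφ0
      positivity
    exact absurd h7 (not_le.2 (ENNReal.ofReal_pos.2 h8))
  ext x
  rw [h6 x]
  rfl

end Pool.Agent.AEN.H20
end
end -- Pool.Agent.Helper20_AEN.END

section -- Pool.Agent.Helper31_AEN.ZON

/-!
# Anderson model, the cheap end: row ZON (zero-one law for bounded Green vectors)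
-/

set_option autoImplicit false

open MeasureTheory ProbabilityTheory Function Filter

open scoped ENNReal BigOperators InnerProductSpace Topology

noncomputable section

namespace Pool.Agent.AEN.H31

open Pool.Agent.Anderson Pool.Agent.Loc Pool.Agent.Helper54.Bal Pool.Agent.AEN

theorem nsc_gl {σ : ℝ} (hσ : σ ≠ 0) : NullSingletonClass (gl σ) where
  measure_singleton x := by
    obtain ⟨-, h⟩ := bddDens_gl hσ
    have := h x x
    rw [Set.Icc_self, sub_self, mul_zero, ENNReal.ofReal_zero] at this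
    exact nonpos_iff_eq_zero.1 this

theorem zon (hASL : AslStmt) (hDET : DetStmt) (hMEA : MeaStmt) (hTRA : TraStmt)
    (hERG : LE.CH.ErgStmt) : ZonStmt := by
  intro d σ E hd hσ h
  have := nsc_gl hσ
  set A : Set (Site d → ℝ) := {V | ∀ x, Bd V E x} with hA
  have hAm : MeasurableSet A := by
    rw [hA, Set.setOf_forall]
    exact MeasurableSet.iInter fun x => (hMEA d E x 0).1
  have hinv : ∀ a : Site d, tau a ⁻¹' A = A := by
    intro a
    ext V
    simp only [hA, Set.mem_preimage, Set.mem_setOf_eq]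
    constructor
    · intro hV x
      have := (hTRA d V E a (x - a) 0).1.1 (hV (x - a))
      rwa [sub_add_cancel] at this
    · intro hV x
      exact (hTRA d V E a x 0).1.2 (hV (x + a))
  have h0 : PP d (gl σ) A = 0 := by
    rcases hERG d (gl σ) A hd hAm hinv with h1 | h1
    · exact h1
    · exfalso
      apply h
      have h2 : PP d (gl σ) Aᶜ = 0 := (prob_compl_eq_zero_iff hAm).2 h1
      refine measure_mono_null (fun V hV => ?_) h2
      intro hVA
      exact hV (hVA 0)
  have h1 : ∀ᵐ V ∂(PP d (gl σ)), V ∉ A := measure_eq_zero_iff_ae_notMem.1 h0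
  filter_upwards [h1, hASL d (gl σ) E] with V hV hV2
  rcases hDET d V E hV2 with h3 | h3
  · exact absurd h3 hV
  · exact h3

end Pool.Agent.AEN.H31
end
end -- Pool.Agent.Helper31_AEN.ZON

section -- Pool.Agent.Helper32_AEN.FTU

/-!
# Anderson model, the cheap end, row FTU (helper32): Fatou and Tonelli
-/

set_option autoImplicit false

open MeasureTheory ProbabilityTheory Function Filter

open scoped ENNReal BigOperators InnerProductSpace Topology

noncomputable section

namespace Pool.Agent.AEN.H32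

open Pool.Agent.Anderson Pool.Agent.Loc Pool.Agent.Helper54.Bal

/-- joint continuity of `(V, E) ↦ G (E + i η_n; 0, 0)` -/
theorem cont_J (d : ℕ) (n : ℕ) :
    Continuous fun p : (Site d → ℝ) × ℝ => Gn p.1 p.2 n 0 0 := by
  have h0 : Continuous fun p : (Site d → ℝ) × ℝ =>
      ((p.1, p.2, (del 0 : L2 d)) : (Site d → ℝ) × ℝ × L2 d) := by
    fun_prop
  have h := (continuous_G (d := d) (η := et n) (et_pos n).ne').comp h0
  have h2 : (fun p : (Site d → ℝ) × ℝ => Gn p.1 p.2 n 0 0) =
      fun p : (Site d → ℝ) × ℝ => ⟪(del 0 : L2 d), G p.1 (zz (et n) p.2) (del 0)⟫_ℂ := by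
    funext p
    rw [inner_del_left]
    rfl
  rw [h2]
  exact continuous_const.inner h

theorem meas_J (d : ℕ) (n : ℕ) :
    Measurable fun p : (Site d → ℝ) × ℝ => ENNReal.ofReal (et n * ‖Gn p.1 p.2 n 0 0‖ ^ 2) :=
  (((cont_J d n).norm.pow 2).measurable.const_mul (et n)).ennreal_ofReal

theorem meas_II (d : ℕ) (a b : ℝ) (n : ℕ) : Measurable fun V : Site d → ℝ => II V a b n :=
  Measurable.lintegral_prod_right' (ν := (volume : Measure ℝ).restrict (Set.Ioo a b)) (meas_J d n)

theorem meas_JJ (d : ℕ) (σ : ℝ) (n : ℕ) : Measurable fun E : ℝ => JJ d σ E n :=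
  Measurable.lintegral_prod_left' (μ := PP d (gl σ)) (meas_J d n)

/-- Tonelli -/
theorem ton (d : ℕ) (σ a b : ℝ) (n : ℕ) :
    ∫⁻ V, II V a b n ∂(PP d (gl σ)) = ∫⁻ E in Set.Ioo a b, JJ d σ E n := by
  unfold II JJ
  exact lintegral_lintegral_swap (meas_J d n).aemeasurable

/-- FTU -/
theorem ftu (dcy : DcyStmt) : FtuStmt := by
  intro d σ a b hσ hE
  -- the integrals tend to zero
  have h1 : Tendsto (fun n => ∫⁻ E in Set.Ioo a b, JJ d σ E n) atTop (𝓝 0) := by
    have h2 := tendsto_lintegral_of_dominated_convergence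
      (μ := (volume : Measure ℝ).restrict (Set.Ioo a b)) (F := fun n E => JJ d σ E n)
      (f := fun _ => 0) (fun _ => ENNReal.ofReal (cs σ)) (meas_JJ d σ)
      (fun n => Filter.Eventually.of_forall fun E => (dcy d σ E hσ).1 n)
      (by
        rw [lintegral_const, Measure.restrict_apply_univ, Real.volume_Ioo]
        exact ENNReal.mul_ne_top ENNReal.ofReal_ne_top ENNReal.ofReal_ne_top)
      (by
        filter_upwards [hE] with E h
        exact (dcy d σ E hσ).2 h)
    rw [lintegral_zero] at h2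
    exact h2
  -- Fatou
  have h3 : ∫⁻ V, liminf (fun n => II V a b n) atTop ∂(PP d (gl σ)) ≤ 0 := by
    refine (lintegral_liminf_le (meas_II d a b)).trans ?_
    have h4 : (fun n => ∫⁻ V, II V a b n ∂(PP d (gl σ))) =
        fun n => ∫⁻ E in Set.Ioo a b, JJ d σ E n := funext fun n => ton d σ a b n
    rw [h4, h1.liminf_eq]
  have h5 := (lintegral_eq_zero_iff (Measurable.liminf fun n => meas_II d a b n)).1
    (le_antisymm h3 zero_le)
  filter_upwards [h5] with V hV
  exact hV

end Pool.Agent.AEN.H32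
end
end -- Pool.Agent.Helper32_AEN.FTU

section -- Pool.Agent.Helper41_AEN.EIG

/-!
# Anderson model, the cheap end: row EIG
-/

set_option autoImplicit false

open MeasureTheory ProbabilityTheory Function Filter

open scoped ENNReal BigOperators InnerProductSpace Topology ComplexConjugate

noncomputable section

namespace Pool.Agent.AEN.H41

open Pool.Agent.Anderson Pool.Agent.Loc Pool.Agent.Helper54.Bal Pool.Agent.QE

variable {d : ℕ}

theorem phi_le {V : Site d → ℝ} {E0 : ℝ} {φ : L2 d} (hφ : IsEigen V E0 φ) {z : ℂ}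
    (hz : z.im ≠ 0) : ‖φ 0‖ ≤ ‖(E0 : ℂ) - z‖ * (‖φ‖ * ‖G V z (del 0)‖) := by
  have hz' := conj_im_ne hz
  have h1 : φ = G V (conj z) (((E0 : ℂ) - conj z) • φ) := by
    apply G_unique hz'
    intro x
    rw [lp.coeFn_smul, Pi.smul_apply, smul_eq_mul]
    have := hφ x
    linear_combination this
  rw [map_smul] at h1
  have h2 : ⟪φ, del (0 : Site d)⟫_ℂ = ((E0 : ℂ) - z) * ⟪φ, G V z (del 0)⟫_ℂ := by
    conv_lhs => rw [h1]
    rw [inner_smul_left, map_sub, Complex.conj_conj, Complex.conj_ofReal,
      (isRes_G V).adj _ hz', Complex.conj_conj]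
  rw [inner_del_right] at h2
  have h3 := congrArg norm h2
  rw [norm_mul, RCLike.norm_conj] at h3
  rw [h3]
  gcongr
  exact norm_inner_le_norm _ _

theorem key {V : Site d → ℝ} {E0 : ℝ} {φ : L2 d} (hφ : IsEigen V E0 φ) (h0 : φ ≠ 0) {η E : ℝ}
    (hη : 0 < η) (hE : |E - E0| ≤ η) :
    ‖φ 0‖ ^ 4 / (4 * η * ‖φ‖ ^ 4) ≤ η * ‖G V (zz η E) (del 0) 0‖ ^ 2 := by
  have hz : (zz η E).im ≠ 0 := by rw [zz_im]; exact hη.ne'
  have hN : 0 < ‖φ‖ := norm_pos_iff.2 h0
  have h1 := phi_le hφ hz
  have h2 : ‖(E0 : ℂ) - zz η E‖ ^ 2 ≤ 2 * η ^ 2 := by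
    rw [← Complex.normSq_eq_norm_sq, Complex.normSq_apply]
    simp only [Complex.sub_re, Complex.sub_im, Complex.ofReal_re, Complex.ofReal_im, zz_re, zz_im]
    have h3 : (E0 - E) ^ 2 ≤ η ^ 2 := by
      rw [← sq_abs (E0 - E), abs_sub_comm]
      exact pow_le_pow_left₀ (abs_nonneg _) hE 2
    nlinarith
  have h4 : ‖φ 0‖ ^ 2 ≤ 2 * η ^ 2 * (‖φ‖ ^ 2 * ‖G V (zz η E) (del 0)‖ ^ 2) := by
    calc ‖φ 0‖ ^ 2 ≤ (‖(E0 : ℂ) - zz η E‖ * (‖φ‖ * ‖G V (zz η E) (del 0)‖)) ^ 2 :=
          pow_le_pow_left₀ (norm_nonneg _) h1 2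
      _ = ‖(E0 : ℂ) - zz η E‖ ^ 2 * (‖φ‖ ^ 2 * ‖G V (zz η E) (del 0)‖ ^ 2) := by ring
      _ ≤ _ := by gcongr
  have h5 : η * ‖G V (zz η E) (del 0)‖ ^ 2 ≤ ‖G V (zz η E) (del 0) 0‖ := by
    have h6 := im_G_del' (V := V) hz 0
    rw [zz_im] at h6
    rw [← h6]
    exact (le_abs_self _).trans (Complex.abs_im_le_norm _)
  have h7 : ‖φ 0‖ ^ 2 / (2 * η * ‖φ‖ ^ 2) ≤ ‖G V (zz η E) (del 0) 0‖ := by
    refine le_trans ?_ h5
    rw [div_le_iff₀ (by positivity)]
    calc ‖φ 0‖ ^ 2 ≤ 2 * η ^ 2 * (‖φ‖ ^ 2 * ‖G V (zz η E) (del 0)‖ ^ 2) := h4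
      _ = _ := by ring
  calc ‖φ 0‖ ^ 4 / (4 * η * ‖φ‖ ^ 4) = η * (‖φ 0‖ ^ 2 / (2 * η * ‖φ‖ ^ 2)) ^ 2 := by
        field_simp
        ring
    _ ≤ _ := by gcongr

theorem eig : EigStmt := by
  intro d V a b E0 φ ha hb hφ h0
  have hN : 0 < ‖φ‖ := norm_pos_iff.2 h0
  have h1 : ∀ᶠ n in atTop, et n < min (E0 - a) (b - E0) :=
    tendsto_et.eventually_lt_const (lt_min (by linarith) (by linarith))
  filter_upwards [h1] with n hn
  have hη := et_pos n
  have h2 := lt_min_iff.1 hn
  have hsub : Set.Ioo (E0 - et n) (E0 + et n) ⊆ Set.Ioo a b := by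
    intro E hE
    exact ⟨by linarith [hE.1, h2.1], by linarith [hE.2, h2.2]⟩
  calc ENNReal.ofReal (‖φ 0‖ ^ 4 / (2 * ‖φ‖ ^ 4))
      = ENNReal.ofReal (‖φ 0‖ ^ 4 / (4 * et n * ‖φ‖ ^ 4)) *
        volume (Set.Ioo (E0 - et n) (E0 + et n)) := by
        rw [Real.volume_Ioo, ← ENNReal.ofReal_mul (by positivity)]
        congr 1
        field_simp
        ring
    _ = ∫⁻ _ in Set.Ioo (E0 - et n) (E0 + et n),
        ENNReal.ofReal (‖φ 0‖ ^ 4 / (4 * et n * ‖φ‖ ^ 4)) := (setLIntegral_const _ _).symm
    _ ≤ ∫⁻ E in Set.Ioo (E0 - et n) (E0 + et n),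
        ENNReal.ofReal (et n * ‖Gn V E n 0 0‖ ^ 2) := by
        refine setLIntegral_mono' measurableSet_Ioo fun E hE => ENNReal.ofReal_le_ofReal ?_
        exact key hφ h0 hη (abs_le.2 ⟨by linarith [hE.1], by linarith [hE.2]⟩)
    _ ≤ II V a b n := lintegral_mono_set hsub

end Pool.Agent.AEN.H41
end
end -- Pool.Agent.Helper41_AEN.EIG

section -- Pool.Agent.Helper44_AEN.DET

/-! Squad AEN (MP_1906c1_mp), row DET (helper44). -/

set_option autoImplicit false

open MeasureTheory ProbabilityTheory Function Filter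

open scoped ENNReal BigOperators InnerProductSpace Topology

noncomputable section

namespace Pool.Agent.AEN.H44

open Pool.Agent.Anderson Pool.Agent.Loc Pool.Agent.Helper54.Bal

variable {d : ℕ}

theorem tendsto_zn (E a : ℝ) :
    Tendsto (fun n : ℕ => (a : ℂ) - zn E n) atTop (𝓝 ((a : ℂ) - E)) := by
  have h1 : Tendsto (fun n : ℕ => ((et n : ℝ) : ℂ)) atTop (𝓝 ((0 : ℝ) : ℂ)) :=
    (Complex.continuous_ofReal.tendsto 0).comp tendsto_et
  have h2 : Tendsto (fun n : ℕ => (a : ℂ) - ((E : ℂ) + ((et n : ℝ) : ℂ) * Complex.I)) atTop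
      (𝓝 ((a : ℂ) - ((E : ℂ) + ((0 : ℝ) : ℂ) * Complex.I))) :=
    tendsto_const_nhds.sub (tendsto_const_nhds.add (h1.mul_const _))
  rw [Complex.ofReal_zero, zero_mul, add_zero] at h2
  refine h2.congr fun n => ?_
  rfl

theorem det (hc : ConStmt) : DetStmt := by
  intro d V E H
  classical
  by_contra hcon
  push Not at hcon
  obtain ⟨⟨a, ha⟩, ⟨b, hb⟩⟩ := hcon
  have h1 : ∃ (x' x₁ : Site d) (i : Fin d), ¬ Bd V E x' ∧ Bd V E x₁ ∧
      (x₁ = x' + Pi.single i 1 ∨ x₁ = x' - Pi.single i 1) := by
    by_contra hno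
    apply ha
    refine (hc d (Bd V E) (fun x i => ⟨fun hx => ?_, fun hx => ?_⟩) a b).2 hb
    · by_contra hn
      exact hno ⟨x + Pi.single i 1, x, i, hn, hx, Or.inr (by abel)⟩
    · by_contra hn
      exact hno ⟨x, x + Pi.single i 1, i, hn, hx, Or.inl rfl⟩
  obtain ⟨x', x₁, i₀, hx', hx₁, hxx⟩ := h1
  obtain ⟨f, hf⟩ : ∃ f : L2 d, f = ∑ i : Fin d,
      ((if Bd V E (x' + Pi.single i 1) then del (x' + Pi.single i 1) else 0) +
        (if Bd V E (x' - Pi.single i 1) then del (x' - Pi.single i 1) else 0)) := ⟨_, rfl⟩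
  have hg : ∀ n y, G V (zn E n) f y = ∑ i : Fin d,
      ((if Bd V E (x' + Pi.single i 1) then Gn V E n (x' + Pi.single i 1) y else 0) +
        (if Bd V E (x' - Pi.single i 1) then Gn V E n (x' - Pi.single i 1) y else 0)) := by
    intro n y
    rw [hf, map_sum, lp.coeFn_sum, Finset.sum_apply]
    refine Finset.sum_congr rfl fun i _ => ?_
    rw [map_add, lp.coeFn_add, Pi.add_apply]
    congr 1
    · split_ifs
      · rfl
      · rw [map_zero]
        rfl
    · split_ifs
      · rfl
      · rw [map_zero]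
        rfl
  have hfx : f x₁ = ∑ i : Fin d,
      ((if Bd V E (x' + Pi.single i 1) ∧ x₁ = x' + Pi.single i 1 then (1 : ℂ) else 0) +
        (if Bd V E (x' - Pi.single i 1) ∧ x₁ = x' - Pi.single i 1 then (1 : ℂ) else 0)) := by
    rw [hf, lp.coeFn_sum, Finset.sum_apply]
    refine Finset.sum_congr rfl fun i _ => ?_
    rw [lp.coeFn_add, Pi.add_apply]
    congr 1
    · by_cases h : Bd V E (x' + Pi.single i 1)
      · simp only [h, true_and, if_true]
        rw [del_apply]
      · simp only [h, false_and, if_false]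
        rfl
    · by_cases h : Bd V E (x' - Pi.single i 1)
      · simp only [h, true_and, if_true]
        rw [del_apply]
      · simp only [h, false_and, if_false]
        rfl
  -- the claim
  have hcl : ∀ y, Tendsto (fun n : ℕ => G V (zn E n) f y) atTop (𝓝 0) := by
    intro y
    by_cases hy : Bd V E y
    · have hyx : x' ≠ y := fun h => hx' (h ▸ hy)
      have e1 : ∀ n, G V (zn E n) f y = -(((V x' : ℂ) - zn E n) * Gn V E n y x') -
          ∑ i : Fin d,
            ((if Bd V E (x' + Pi.single i 1) then 0 else Gn V E n y (x' + Pi.single i 1)) +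
            (if Bd V E (x' - Pi.single i 1) then 0 else Gn V E n y (x' - Pi.single i 1))) := by
        intro n
        have h2 := G_eq (V := V) (zn_im_ne E n) (del y) x'
        rw [del_apply, if_neg hyx] at h2
        change lap (Gn V E n y) x' + ((V x' : ℂ) - zn E n) * Gn V E n y x' = 0 at h2
        rw [hg n y, eq_sub_iff_add_eq, ← Finset.sum_add_distrib]
        have h3 : lap (Gn V E n y) x' = -(((V x' : ℂ) - zn E n) * Gn V E n y x') := by
          linear_combination h2
        rw [← h3]
        unfold lap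
        refine Finset.sum_congr rfl fun i _ => ?_
        have hs : ∀ x : Site d, Gn V E n x y = Gn V E n y x := fun x =>
          QE.G_symm (zn_im_ne E n) y x
        rw [hs, hs]
        split_ifs <;> ring
      have t1 : Tendsto (fun n : ℕ => -(((V x' : ℂ) - zn E n) * Gn V E n y x')) atTop (𝓝 0) := by
        have := ((tendsto_zn E (V x')).mul (H y x' hy hx')).neg
        rwa [mul_zero, neg_zero] at this
      have t2 : Tendsto (fun n : ℕ => ∑ i : Fin d,
            ((if Bd V E (x' + Pi.single i 1) then 0 else Gn V E n y (x' + Pi.single i 1)) +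
            (if Bd V E (x' - Pi.single i 1) then 0 else Gn V E n y (x' - Pi.single i 1))))
            atTop (𝓝 (∑ i : Fin d, (0 + 0))) := by
        refine tendsto_finsetSum _ fun i _ => Tendsto.add ?_ ?_
        · by_cases h : Bd V E (x' + Pi.single i 1)
          · simp only [if_pos h]
            exact tendsto_const_nhds
          · simp only [if_neg h]
            exact H y _ hy h
        · by_cases h : Bd V E (x' - Pi.single i 1)
          · simp only [if_pos h]
            exact tendsto_const_nhds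
          · simp only [if_neg h]
            exact H y _ hy h
      have t3 := t1.sub t2
      simp only [add_zero, Finset.sum_const_zero, sub_zero] at t3
      exact t3.congr fun n => (e1 n).symm
    · have t2 : Tendsto (fun n : ℕ => ∑ i : Fin d,
            ((if Bd V E (x' + Pi.single i 1) then Gn V E n (x' + Pi.single i 1) y else 0) +
            (if Bd V E (x' - Pi.single i 1) then Gn V E n (x' - Pi.single i 1) y else 0)))
            atTop (𝓝 (∑ i : Fin d, (0 + 0))) := by
        refine tendsto_finsetSum _ fun i _ => Tendsto.add ?_ ?_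
        · by_cases h : Bd V E (x' + Pi.single i 1)
          · simp only [if_pos h]
            exact H _ y h hy
          · simp only [if_neg h]
            exact tendsto_const_nhds
        · by_cases h : Bd V E (x' - Pi.single i 1)
          · simp only [if_pos h]
            exact H _ y h hy
          · simp only [if_neg h]
            exact tendsto_const_nhds
      simp only [add_zero, Finset.sum_const_zero] at t2
      exact t2.congr fun n => (hg n y).symm
  -- the equation at x₁
  have h4 : Tendsto (fun n : ℕ => lap (G V (zn E n) f) x₁ + ((V x₁ : ℂ) - zn E n) *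
      G V (zn E n) f x₁) atTop (𝓝 0) := by
    have t1 : Tendsto (fun n : ℕ => lap (G V (zn E n) f) x₁) atTop
        (𝓝 (∑ i : Fin d, (0 + 0))) := by
      unfold lap
      exact tendsto_finsetSum _ fun i _ => (hcl _).add (hcl _)
    have t2 := t1.add ((tendsto_zn E (V x₁)).mul (hcl x₁))
    simpa using t2
  have h5 : f x₁ = 0 := by
    refine tendsto_nhds_unique ?_ h4
    refine tendsto_const_nhds.congr fun n => ?_
    exact (G_eq (V := V) (zn_im_ne E n) f x₁).symm
  have h6 : (0 : ℝ) < (f x₁).re := by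
    rw [hfx, Complex.re_sum]
    refine Finset.sum_pos' (fun i _ => ?_) ⟨i₀, Finset.mem_univ _, ?_⟩
    · rw [Complex.add_re]
      refine add_nonneg ?_ ?_ <;> split_ifs <;> simp
    · rw [Complex.add_re]
      rcases hxx with h | h
      · refine add_pos_of_pos_of_nonneg ?_ ?_
        · rw [if_pos ⟨h ▸ hx₁, h⟩]
          simp
        · split_ifs <;> simp
      · refine add_pos_of_nonneg_of_pos ?_ ?_
        · split_ifs <;> simp
        · rw [if_pos ⟨h ▸ hx₁, h⟩]
          simp
  rw [h5] at h6
  simp at h6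

end Pool.Agent.AEN.H44
end
end -- Pool.Agent.Helper44_AEN.DET

section -- Pool.Agent.Helper52_AEN.ASL

/-!
# Squad AEN, row ASL: almost surely `Bd x` and `¬ Bd y` imply `Lm x y`
-/

set_option autoImplicit false

open MeasureTheory ProbabilityTheory Function Filter

open scoped ENNReal BigOperators InnerProductSpace Topology

noncomputable section

namespace Pool.Agent.AEN.H52

open Pool.Agent.Anderson Pool.Agent.Loc Pool.Agent.Helper54.Bal Pool.Agent.AEN

theorem asl0 (hTwo : TwoStmt) (hMea : MeaStmt) (d : ℕ) (ν : Measure ℝ) [IsProbabilityMeasure ν]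
    [NullSingletonClass ν] (E : ℝ) (x : Site d) :
    ∀ᵐ V ∂(PP d ν), Bd V E x → ¬ Bd V E 0 → Lm V E x 0 := by
  classical
  set N : Set (Site d → ℝ) := {V | Bd V E x} ∩ ({V | Bd V E 0}ᶜ ∩ {V | Lm V E x 0}ᶜ) with hN
  have hNm : MeasurableSet N :=
    (hMea d E x 0).1.inter ((hMea d E 0 0).1.compl.inter (hMea d E x 0).2.compl)
  have h0 : PP d ν N = 0 := by
    have hr := (resamp_PP (d := d) ν).map_eq
    rw [← hr, Measure.map_apply measurable_upd hNm,
      Measure.prod_apply (measurable_upd hNm)]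
    rw [lintegral_eq_zero_iff (measurable_measure_prodMk_left (measurable_upd hNm))]
    refine Eventually.of_forall fun V => ?_
    refine Set.Subsingleton.measure_zero ?_ ν
    intro s hs t ht
    have hs' : Function.update V 0 s ∈ N := hs
    have ht' : Function.update V 0 t ∈ N := ht
    by_contra hst
    have h1 := hTwo d (Function.update V 0 s) E x 0 t (by
      rw [Function.update_self]
      exact fun h => hst h.symm) hs'.1 (by
      rw [Function.update_idem]
      exact ht'.1) hs'.2.1
    rw [Function.update_idem] at h1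
    exact ht'.2.2 h1
  have h2 : ∀ᵐ V ∂(PP d ν), V ∉ N := measure_eq_zero_iff_ae_notMem.1 h0
  filter_upwards [h2] with V hV hx hy
  by_contra hl
  exact hV ⟨hx, hy, hl⟩

theorem asl (hTwo : TwoStmt) (hMea : MeaStmt) (hTra : TraStmt) : AslStmt := by
  intro d ν _ _ E
  rw [ae_all_iff]
  intro x
  rw [ae_all_iff]
  intro y
  have h := (shiftInv_PP (d := d) ν y).quasiMeasurePreserving.ae (asl0 hTwo hMea d ν E (x - y))
  filter_upwards [h] with V hV hx hy
  have h1 := (hTra d V E y (x - y) 0).1
  have h2 := (hTra d V E y 0 0).1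
  have h3 := (hTra d V E y (x - y) 0).2
  rw [sub_add_cancel] at h1 h3
  rw [zero_add] at h2 h3
  exact h3.1 (hV (h1.2 hx) (fun hb => hy (h2.1 hb)))

end Pool.Agent.AEN.H52
end
end -- Pool.Agent.Helper52_AEN.ASL

section -- Pool.Agent.Helper62_AEN.TWO

/-!
# Squad AEN, row TWO: two values of the potential at one site
-/

set_option autoImplicit false

open MeasureTheory ProbabilityTheory Function Filter

open scoped ENNReal BigOperators InnerProductSpace Topology

namespace Pool.Agent.AEN.H62

open Pool.Agent.Anderson Pool.Agent.Loc Pool.Agent.Helper54.Bal Pool.Agent.AEN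

theorem et_anti {m n : ℕ} (h : m ≤ n) : et n ≤ et m := by
  unfold et
  apply one_div_le_one_div_of_le (by positivity)
  have : (m : ℝ) ≤ n := by exact_mod_cast h
  linarith

/-- the norms tend to infinity -/
theorem tendsto_norm (hmon : MonStmt) {d : ℕ} {V : Site d → ℝ} {E : ℝ} {y : Site d}
    (h : ¬ Bd V E y) : Tendsto (fun n => ‖Gn V E n y‖) atTop atTop := by
  apply tendsto_atTop_atTop_of_monotone
  · intro m n hmn
    exact hmon d V E (del y) (et n) (et m) (et_pos n) (et_anti hmn)
  · intro C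
    by_contra hne
    push Not at hne
    exact h ⟨C, fun n => (hne n).le⟩

theorem two (hmon : MonStmt) : TwoStmt := by
  rintro d V E x y s hs ⟨C1, h1⟩ ⟨C2, h2⟩ hy
  have ht := tendsto_norm hmon hy
  have hs' : 0 < |s - V y| := abs_pos.2 (sub_ne_zero.2 hs)
  have key : ∀ n, |s - V y| * ‖Gn (Function.update V y s) E n x y‖ * ‖Gn V E n y‖ ≤ C1 + C2 := by
    intro n
    have h := Pool.Agent.QE.G_upd (V := V) (zn_im_ne E n) y s (del x)
    have h3 : (((s : ℂ) - V y) * Gn (Function.update V y s) E n x y) • Gn V E n y =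
        Gn V E n x - Gn (Function.update V y s) E n x := by
      unfold Gn
      rw [h]
      abel
    have h4 : ‖(((s : ℂ) - V y) * Gn (Function.update V y s) E n x y) • Gn V E n y‖ =
        |s - V y| * ‖Gn (Function.update V y s) E n x y‖ * ‖Gn V E n y‖ := by
      rw [norm_smul, norm_mul, ← Complex.ofReal_sub, Complex.norm_real, Real.norm_eq_abs]
    rw [← h4, h3]
    exact (norm_sub_le _ _).trans (add_le_add (h1 n) (h2 n))
  have hlim : Tendsto (fun n => (C1 + C2) / |s - V y| / ‖Gn V E n y‖) atTop (𝓝 0) :=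
    ht.const_div_atTop _
  refine squeeze_zero_norm' ?_ hlim
  filter_upwards [ht.eventually_gt_atTop 0] with n hn
  rw [le_div_iff₀ hn, le_div_iff₀ hs']
  have := key n
  nlinarith [this]

end Pool.Agent.AEN.H62
end -- Pool.Agent.Helper62_AEN.TWO

section -- Pool.Agent.Helper6_AEN.MON

/-!
# AEN, row MON (helper6)
-/

set_option autoImplicit false

open MeasureTheory ProbabilityTheory Function Filter

open scoped ENNReal BigOperators InnerProductSpace Topology

noncomputable section

namespace Pool.Agent.AEN.H6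

open Pool.Agent.Anderson Pool.Agent.Loc Pool.Agent.Helper54.Bal

theorem mon : MonStmt := by
  intro d V E f a b ha hab
  have hb : 0 < b := lt_of_lt_of_le ha hab
  have hza : (zz a E).im ≠ 0 := by rw [zz_im]; exact ha.ne'
  have hzb : (zz b E).im ≠ 0 := by rw [zz_im]; exact hb.ne'
  set g := G V (zz b E) f with hg
  set k := G V (zz a E) g with hk
  have h1 : G V (zz a E) f = g + (zz a E - zz b E) • k := by
    have h := (isRes_G V).ident_apply hza hzb f
    rw [hk, hg, ← h]
    abel
  have h2 : (⟪g, k⟫_ℂ).im = a * ‖k‖ ^ 2 := by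
    have h := (isRes_G V).im_inner hza g
    rw [zz_im] at h
    exact h
  have hz : zz a E - zz b E = -((b - a : ℝ) : ℂ) * Complex.I := by
    unfold zz
    push_cast
    ring
  have h3 : ‖G V (zz a E) f‖ ^ 2 = ‖g‖ ^ 2 + 2 * RCLike.re ⟪g, (zz a E - zz b E) • k⟫_ℂ +
      ‖(zz a E - zz b E) • k‖ ^ 2 := by
    rw [h1]
    exact norm_add_sq (𝕜 := ℂ) g _
  have h4 : RCLike.re ⟪g, (zz a E - zz b E) • k⟫_ℂ = (b - a) * (a * ‖k‖ ^ 2) := by
    rw [inner_smul_right, hz, ← h2]
    simp
    ring
  have h5 : 0 ≤ (b - a) * (a * ‖k‖ ^ 2) :=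
    mul_nonneg (sub_nonneg.2 hab) (mul_nonneg ha.le (sq_nonneg _))
  have h6 : ‖g‖ ^ 2 ≤ ‖G V (zz a E) f‖ ^ 2 := by
    rw [h3, h4]
    have := sq_nonneg ‖(zz a E - zz b E) • k‖
    linarith
  exact le_of_sq_le_sq h6 (norm_nonneg _)

end Pool.Agent.AEN.H6
end
end -- Pool.Agent.Helper6_AEN.MON

section -- Pool.Agent.Helper72_AEN.Conn

/-!
# Anderson model, the cheap end: row CON

The lattice is connected.
-/

set_option autoImplicit false

namespace Pool.Agent.AEN.H72

open Pool.Agent.Anderson

private theorem step (d : ℕ) (P : Site d → Prop)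
    (h : ∀ (x : Site d) (i : Fin d), P x ↔ P (x + Pi.single i 1)) (i : Fin d) (n : ℤ) :
    ∀ x : Site d, P x ↔ P (x + Pi.single i n) := by
  induction n using Int.induction_on with
  | zero => intro x; simp
  | succ k ih =>
    intro x
    have h1 := h (x + Pi.single i (k : ℤ)) i
    rw [add_assoc, ← Pi.single_add] at h1
    exact (ih x).trans h1
  | pred k ih =>
    intro x
    have h1 := h (x + Pi.single i (-(k : ℤ) - 1)) i
    rw [add_assoc, ← Pi.single_add, sub_add_cancel] at h1
    exact (ih x).trans h1.symm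

theorem con : ConStmt := by
  intro d P h x y
  have key : ∀ (s : Finset (Fin d)) (x : Site d),
      P x ↔ P (x + ∑ i ∈ s, Pi.single i ((y - x) i)) := by
    intro s x
    have gen : ∀ (v : Site d), P x ↔ P (x + ∑ i ∈ s, Pi.single i (v i)) := by
      intro v
      induction s using Finset.induction_on with
      | empty => simp
      | insert i s his ih =>
        rw [Finset.sum_insert his]
        have h1 := step d P h i (v i) (x + ∑ j ∈ s, Pi.single j (v j))
        rw [add_assoc] at h1
        have h2 : (∑ j ∈ s, (Pi.single j (v j) : Site d)) + Pi.single i (v i)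
            = Pi.single i (v i) + ∑ j ∈ s, (Pi.single j (v j) : Site d) := add_comm _ _
        rw [h2] at h1
        exact ih.trans h1
    exact gen _
  have := key Finset.univ x
  rw [Finset.univ_sum_single] at this
  simpa using this

end Pool.Agent.AEN.H72
end -- Pool.Agent.Helper72_AEN.Conn

section -- Pool.Agent.Helper77_AEN.MEA

/-!
# Anderson model, the cheap end, row MEA (helper77): measurability
-/

set_option autoImplicit false

open MeasureTheory ProbabilityTheory Function Filter

open scoped ENNReal BigOperators InnerProductSpace Topology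

noncomputable section

namespace Pool.Agent.AEN.H77

open Pool.Agent.Anderson Pool.Agent.Loc Pool.Agent.Helper54.Bal

theorem cont_Gn (d : ℕ) (E : ℝ) (n : ℕ) (x : Site d) :
    Continuous fun V : Site d → ℝ => Gn V E n x := by
  have h0 : Continuous fun V : Site d → ℝ => (V, E, (del x : L2 d)) :=
    continuous_id.prodMk continuous_const
  have h := (continuous_G (d := d) (η := et n) (et_pos n).ne').comp h0
  unfold Gn zn
  exact h

theorem cont_Gny (d : ℕ) (E : ℝ) (n : ℕ) (x y : Site d) :
    Continuous fun V : Site d → ℝ => Gn V E n x y := by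
  have h : (fun V : Site d → ℝ => Gn V E n x y) =
      fun V : Site d → ℝ => ⟪(del y : L2 d), Gn V E n x⟫_ℂ := by
    funext V
    rw [inner_del_left]
  rw [h]
  exact continuous_const.inner (cont_Gn d E n x)

/-- MEA -/
theorem mea : MeaStmt := by
  intro d E x y
  constructor
  · have h : {V : Site d → ℝ | Bd V E x} =
        ⋃ C : ℕ, ⋂ n : ℕ, {V : Site d → ℝ | ‖Gn V E n x‖ ≤ (C : ℝ)} := by
      ext V
      rw [Set.mem_iUnion]
      constructor
      · rintro ⟨C, hC⟩
        obtain ⟨N, hN⟩ := exists_nat_ge C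
        exact ⟨N, Set.mem_iInter.2 fun n => (hC n).trans hN⟩
      · rintro ⟨C, hC⟩
        exact ⟨C, fun n => Set.mem_iInter.1 hC n⟩
    rw [h]
    refine MeasurableSet.iUnion fun C => MeasurableSet.iInter fun n => ?_
    exact measurableSet_le (cont_Gn d E n x).norm.measurable measurable_const
  · exact measurableSet_tendsto (𝓝 (0 : ℂ)) fun n => (cont_Gny d E n x y).measurable

end Pool.Agent.AEN.H77
end
end -- Pool.Agent.Helper77_AEN.MEA

section -- Pool.Agent.Helper80_AEN.TRA

/-!
# TRA: translation covariance of the Green vectors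
-/

set_option autoImplicit false

open MeasureTheory ProbabilityTheory Function Filter

open scoped ENNReal BigOperators InnerProductSpace Topology

noncomputable section

namespace Pool.Agent.AEN.H80

open Pool.Agent.Anderson Pool.Agent.Loc Pool.Agent.Helper54.Bal Pool.Agent.AEN

variable {d : ℕ}

theorem shift_G {V : Cfg d} {z : ℂ} (hz : z.im ≠ 0) (a x : Site d) :
    shift a (G V z (del (x + a))) = G (tau a V) z (del x) := by
  apply G_unique hz
  intro y
  have h1 := G_eq (V := V) hz (del (x + a)) (y + a)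
  have h2 : lap (shift a (G V z (del (x + a)))) y = lap (G V z (del (x + a))) (y + a) := by
    unfold lap
    apply Finset.sum_congr rfl
    intro i _
    rw [shift_apply, shift_apply]
    have e1 : y + Pi.single i 1 + a = y + a + Pi.single i 1 := by abel
    have e2 : y - Pi.single i 1 + a = y + a - Pi.single i 1 := by abel
    rw [e1, e2]
  rw [h2, shift_apply]
  change lap (G V z (del (x + a))) (y + a) + ((V (y + a) : ℂ) - z) *
    G V z (del (x + a)) (y + a) = _
  rw [h1, del_apply, del_apply]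
  simp

theorem tra : TraStmt := by
  intro d V E a x y
  have h : ∀ n : ℕ, Gn (tau a V) E n x = shift a (Gn V E n (x + a)) := fun n =>
    (shift_G (zn_im_ne E n) a x).symm
  constructor
  · unfold Bd
    simp only [h, LinearIsometry.norm_map]
  · unfold Lm
    simp only [h, shift_apply]

end Pool.Agent.AEN.H80
end
end -- Pool.Agent.Helper80_AEN.TRA

section -- Pool.Agent.Helper81_AEN.POS

/-!
# Anderson model, the cheap end, row POS (helper81)
-/

set_option autoImplicit false

open MeasureTheory ProbabilityTheory Function Filter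

open scoped ENNReal BigOperators InnerProductSpace Topology

noncomputable section

namespace Pool.Agent.AEN.H81

open Pool.Agent.Anderson Pool.Agent.Loc Pool.Agent.Helper54.Bal
open Pool.Agent.QE (im_G_del')

theorem cont_Gn (d : ℕ) (E : ℝ) (n : ℕ) (x : Site d) :
    Continuous fun V : Site d → ℝ => Gn V E n x := by
  have h0 : Continuous fun V : Site d → ℝ => (V, E, (del x : L2 d)) :=
    continuous_id.prodMk continuous_const
  have h := (continuous_G (d := d) (η := et n) (et_pos n).ne').comp h0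
  unfold Gn zn
  exact h

/-- row POS -/
theorem pos (hMon : MonStmt) : PosStmt := by
  intro d σ E p h
  let S : ℕ → Set (Site d → ℝ) := fun m => {V | ∃ n : ℕ, (m : ℝ) ≤ ‖Gn V E n 0‖ ^ 2}
  have hS : ∀ m, MeasurableSet (S m) := by
    intro m
    have e : S m = ⋃ n : ℕ, {V : Site d → ℝ | (m : ℝ) ≤ ‖Gn V E n 0‖ ^ 2} := by
      ext V
      rw [Set.mem_iUnion]
      rfl
    rw [e]
    exact MeasurableSet.iUnion fun n =>
      measurableSet_le measurable_const ((cont_Gn d E n 0).norm.pow 2).measurable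
  have hanti : Antitone S := by
    rintro a b hab V ⟨n, hn⟩
    exact ⟨n, (Nat.cast_le.2 hab).trans hn⟩
  have hp : ∀ m, p ≤ PP d (gl σ) (S m) := by
    intro m
    obtain ⟨η, hη, h1⟩ := h m
    refine h1.trans (measure_mono ?_)
    intro V hV
    have hz : (zz η E).im ≠ 0 := by
      rw [zz_im]
      exact hη.ne'
    obtain ⟨n, hn⟩ : ∃ n : ℕ, et n < η := by
      have h2 := (tendsto_order.1 tendsto_et).2 η hη
      exact h2.exists
    have h3 : (m : ℝ) * η ≤ η * ‖G V (zz η E) (del 0)‖ ^ 2 := by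
      have h4 : (m : ℝ) * η ≤ (G V (zz η E) (del 0) 0).im := hV
      rw [im_G_del' hz, zz_im] at h4
      exact h4
    have h5 : (m : ℝ) ≤ ‖G V (zz η E) (del 0)‖ ^ 2 := by
      rw [mul_comm] at h3
      exact le_of_mul_le_mul_left h3 hη
    refine ⟨n, h5.trans ?_⟩
    exact pow_le_pow_left₀ (norm_nonneg _) (hMon d V E (del 0) (et n) η (et_pos n) hn.le) 2
  have hI : (⋂ m, S m) ⊆ {V | ¬ Bd V E 0} := by
    rintro V hV ⟨C, hC⟩
    obtain ⟨m, hm⟩ := exists_nat_gt (C ^ 2)
    obtain ⟨n, hn⟩ := Set.mem_iInter.1 hV m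
    have h1 := pow_le_pow_left₀ (norm_nonneg _) (hC n) 2
    linarith
  refine le_trans ?_ (measure_mono hI)
  rw [hanti.measure_iInter (fun m => (hS m).nullMeasurableSet) ⟨0, measure_ne_top _ _⟩]
  exact le_iInf hp

end Pool.Agent.AEN.H81
end
end -- Pool.Agent.Helper81_AEN.POS

section -- Pool.Agent.Helper92_AEN.RAT

/-!
# Anderson model, the cheap end: row RAT
-/

set_option autoImplicit false

open MeasureTheory ProbabilityTheory Function Filter

open scoped ENNReal BigOperators InnerProductSpace Topology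

noncomputable section

namespace Pool.Agent.AEN.H92

open Pool.Agent.Anderson Pool.Agent.Loc Pool.Agent.Helper54.Bal Pool.Agent.QE

theorem et_anti {m n : ℕ} (h : m ≤ n) : et n ≤ et m := by
  unfold et
  have h1 : (m : ℝ) ≤ n := by exact_mod_cast h
  exact one_div_le_one_div_of_le (by positivity) (by linarith only [h1])

theorem nrm_tendsto (mon : MonStmt) {d : ℕ} {V : Site d → ℝ} {E : ℝ} {x : Site d}
    (h : ¬ Bd V E x) : Tendsto (fun n => ‖Gn V E n x‖) atTop atTop := by
  refine tendsto_atTop_atTop_of_monotone ?_ ?_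
  · intro m n hmn
    exact mon d V E (del x) (et n) (et m) (et_pos n) (et_anti hmn)
  · intro C
    by_contra hc
    push Not at hc
    exact h ⟨C, fun n => (hc n).le⟩

theorem prop_upd {d : ℕ} (V : Site d → ℝ) (E s : ℝ) (n : ℕ) :
    ∃ c : ℂ, c ≠ 0 ∧ Gn (Function.update V 0 s) E n 0 = c • Gn V E n 0 := by
  have h := G_update_del (V := V) (zn_im_ne E n) s
  refine ⟨_, ?_, h⟩
  intro hc
  rw [hc, zero_smul] at h
  exact G_del_ne (zn_im_ne E n) 0 h

theorem nrm_pos {d : ℕ} (V : Site d → ℝ) (E : ℝ) (n : ℕ) (x : Site d) : 0 < ‖Gn V E n x‖ :=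
  norm_G_del_pos (zn_im_ne E n) x

theorem rat_ratio {d : ℕ} (V : Site d → ℝ) (E s : ℝ) (n : ℕ) :
    ‖Gn (Function.update V 0 s) E n 0 0‖ / ‖Gn (Function.update V 0 s) E n 0‖ =
      ‖Gn V E n 0 0‖ / ‖Gn V E n 0‖ := by
  obtain ⟨c, hc, he⟩ := prop_upd V E s n
  have h1 : Gn (Function.update V 0 s) E n 0 0 = c * Gn V E n 0 0 := by
    rw [he]
    rfl
  rw [h1, he, norm_mul, norm_smul]
  exact mul_div_mul_left _ _ (norm_pos_iff.mpr hc).ne'

theorem rat (mon : MonStmt) : RatStmt := by
  intro d V E s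
  have hfr : ∀ (U : Site d → ℝ) (n : ℕ), fr U E n = (‖Gn U E n 0 0‖ / ‖Gn U E n 0‖) ^ 2 := by
    intro U n
    unfold fr
    rw [div_pow]
  refine ⟨fun n => ?_, fun hs hV hV' => ?_⟩
  · rw [hfr, hfr, rat_ratio]
  · have hN := nrm_tendsto mon hV
    have hN' := nrm_tendsto mon hV'
    have h0 : 0 < |s - V 0| := abs_pos.mpr (sub_ne_zero.mpr hs)
    have hb : ∀ n, ‖Gn V E n 0 0‖ / ‖Gn V E n 0‖ ≤
        (‖Gn V E n 0‖⁻¹ + ‖Gn (Function.update V 0 s) E n 0‖⁻¹) / |s - V 0| := by
      intro n
      set N := ‖Gn V E n 0‖ with hNd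
      set N' := ‖Gn (Function.update V 0 s) E n 0‖ with hNd'
      have hNp : 0 < N := nrm_pos V E n 0
      have hNp' : 0 < N' := nrm_pos _ E n 0
      set r := ‖Gn V E n 0 0‖ / N with hr
      have hr0 : 0 ≤ r := div_nonneg (norm_nonneg _) hNp.le
      have hg : ‖Gn V E n 0 0‖ = r * N := by rw [hr, div_mul_cancel₀ _ hNp.ne']
      have hg' : ‖Gn (Function.update V 0 s) E n 0 0‖ = r * N' := by
        rw [hr, hNd, ← rat_ratio V E s n, div_mul_cancel₀ _ hNp'.ne']
      have hG := G_upd (V := V) (zn_im_ne E n) 0 s (del 0)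
      have hG2 : Gn V E n 0 0 = Gn (Function.update V 0 s) E n 0 0 +
          (((s : ℂ) - V 0) * Gn (Function.update V 0 s) E n 0 0) * Gn V E n 0 0 := by
        have h1 := congrArg (fun f : L2 d => f 0) hG
        exact h1
      have hG3 : (((s - V 0 : ℝ) : ℂ) * Gn (Function.update V 0 s) E n 0 0) * Gn V E n 0 0 =
          Gn V E n 0 0 - Gn (Function.update V 0 s) E n 0 0 := by
        rw [eq_sub_iff_add_eq, add_comm, Complex.ofReal_sub]
        exact hG2.symm
      have hG4 : |s - V 0| * (r * N') * (r * N) ≤ r * N + r * N' := by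
        rw [← hg, ← hg']
        have h2 := congrArg norm hG3
        rw [norm_mul, norm_mul, Complex.norm_real, Real.norm_eq_abs] at h2
        rw [h2]
        exact norm_sub_le _ _
      rw [le_div_iff₀ h0]
      rcases hr0.eq_or_lt with h5 | h5
      · rw [← h5, zero_mul]
        positivity
      · have h6 : |s - V 0| * r * (N * N') ≤ N + N' := by
          have h7 : r * (|s - V 0| * r * (N * N')) ≤ r * (N + N') := by nlinarith only [hG4]
          exact le_of_mul_le_mul_left h7 h5
        have h8 : N⁻¹ + N'⁻¹ = (N + N') / (N * N') := by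
          field_simp
          ring
        rw [h8, le_div_iff₀ (mul_pos hNp hNp')]
        linarith only [h6]
    have ht : Tendsto (fun n => (‖Gn V E n 0‖⁻¹ + ‖Gn (Function.update V 0 s) E n 0‖⁻¹) /
        |s - V 0|) atTop (𝓝 0) := by
      have h1 := (hN.inv_tendsto_atTop.add hN'.inv_tendsto_atTop).div_const |s - V 0|
      rw [add_zero, zero_div] at h1
      exact h1
    have hr : Tendsto (fun n => ‖Gn V E n 0 0‖ / ‖Gn V E n 0‖) atTop (𝓝 0) :=
      squeeze_zero (fun n => div_nonneg (norm_nonneg _) (norm_nonneg _)) hb ht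
    have h9 := hr.pow 2
    rw [zero_pow two_ne_zero] at h9
    exact h9.congr fun n => (hfr V n).symm

end Pool.Agent.AEN.H92
end
end -- Pool.Agent.Helper92_AEN.RAT

section -- Pool.Agent.Helper76_AEN.All

/-!
# The cheap end: all rows together

If for almost every energy of an interval the Green vectors are unbounded with positive probability,
there is almost surely no eigenvalue in the interval.
-/

namespace Pool.Agent.AEN.H76

theorem aslT : AslStmt := H52.asl (H62.two H6.mon) H77.mea H80.tra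

theorem detT : DetStmt := H44.det H72.con

theorem zonT : ZonStmt := H31.zon aslT detT H77.mea H80.tra Pool.Agent.LE.CH.H77.erg

theorem dcyT : DcyStmt := H20.dcy H40.spa (H92.rat H6.mon)

theorem ftuT : FtuStmt := H32.ftu dcyT

theorem endT : EndStmt := H20.end_ zonT ftuT H41.eig

theorem posT : PosStmt := H81.pos H6.mon

/-- the form which is used: `im G_00 (E + i η) ≥ A η` for some `η`, with probability at least `p` -/
theorem en2T : En2Stmt := H16.en2 endT posT

end Pool.Agent.AEN.H76
end -- Pool.Agent.Helper76_AEN.All
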