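import Pool.Agent.Helper12_MEB.B031
import Pool.Agent.Helper12_MEB.B039

/-!
# Merged copies (generated) of the modules

* `Pool.Agent.Helper77_LE.Clo`
* `Pool.Agent.Helper85_LE.NulRow`
* `Pool.Agent.Helper85_LE.Gen`
* `Pool.Agent.Helper3_LE.SimR`
* `Pool.Agent.Helper59_LE.Rst`
* `Pool.Agent.Helper59_LE.Rsx`
* `Pool.Agent.Helper77_LE.Fex`
* `Pool.Agent.Helper96_LE.Exj`
-/

set_option autoImplicit false

section -- Pool.Agent.Helper77_LE.Clo

/-!
Row CLO: closedness by projection along a compact set.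
-/

set_option autoImplicit false

open MeasureTheory ProbabilityTheory Function

open scoped ENNReal BigOperators

noncomputable section

namespace Pool.Agent.LE.H77

open Pool.Agent.Anderson Pool.Agent.Loc Pool.Agent.Helper54.Bal
  Pool.Agent.Helper96.EXP Pool.Agent.LE

/-- the compact set of the functions with the given decay -/
def K0 (d : ℕ) (C m : ℝ) : Set (Site d → ℝ) :=
  Set.pi Set.univ fun x => Set.Icc (-(C * Real.exp (-m * sd 0 x))) (C * Real.exp (-m * sd 0 x))

theorem mem_K0 {d : ℕ} {C m : ℝ} {n : Site d → ℝ} : n ∈ K0 d C m ↔ Dec C m n := by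
  unfold K0 Dec
  rw [Set.mem_univ_pi]
  exact forall_congr' fun x => by rw [Set.mem_Icc, abs_le]

theorem isCompact_K0 (d : ℕ) (C m : ℝ) : IsCompact (K0 d C m) :=
  isCompact_univ_pi fun _ => isCompact_Icc

theorem continuous_lapR {d : ℕ} (x : Site d) : Continuous fun n : Site d → ℝ => lapR n x := by
  unfold lapR
  exact continuous_finsetSum _ fun i _ => (continuous_apply _).add (continuous_apply _)

theorem closed_sol {d : ℕ} {T : Type} [TopologicalSpace T] {V n : T → Site d → ℝ} {E : T → ℝ}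
    (hV : Continuous V) (hn : Continuous n) (hE : Continuous E) :
    IsClosed {t | n t 0 = 1 ∧ ∀ x, x ≠ 0 → lapR (n t) x + V t x * n t x = E t * n t x} := by
  have e : {t | n t 0 = 1 ∧ ∀ x, x ≠ 0 → lapR (n t) x + V t x * n t x = E t * n t x} =
      {t | n t 0 = 1} ∩ ⋂ x : Site d, ⋂ (_ : x ≠ 0),
        {t | lapR (n t) x + V t x * n t x = E t * n t x} := by
    ext t
    simp only [Set.mem_setOf_eq, Set.mem_inter_iff, Set.mem_iInter]
  rw [e]
  have hc : ∀ x, Continuous fun t => n t x := fun x => (continuous_apply x).comp hn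
  have hc' : ∀ x, Continuous fun t => V t x := fun x => (continuous_apply x).comp hV
  refine (isClosed_eq (hc 0) continuous_const).inter ?_
  refine isClosed_iInter fun x => isClosed_iInter fun _ => ?_
  exact isClosed_eq (((continuous_lapR x).comp hn).add ((hc' x).mul (hc x))) (hE.mul (hc x))

theorem clo : CloStmt := by
  intro d C m
  have : CompactSpace (K0 d C m) := isCompact_iff_compactSpace.1 (isCompact_K0 d C m)
  constructor
  · have h1 : IsClosed {t : ((Site d → ℝ) × ℝ) × K0 d C m | (t.2 : Site d → ℝ) 0 = 1 ∧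
        ∀ x, x ≠ 0 → lapR (t.2 : Site d → ℝ) x + t.1.1 x * (t.2 : Site d → ℝ) x =
          t.1.2 * (t.2 : Site d → ℝ) x} :=
      closed_sol (V := fun t : ((Site d → ℝ) × ℝ) × K0 d C m => t.1.1)
        (n := fun t => (t.2 : Site d → ℝ)) (E := fun t => t.1.2)
        (continuous_fst.comp continuous_fst) (continuous_subtype_val.comp continuous_snd)
        (continuous_snd.comp continuous_fst)
    have h2 := isClosedMap_fst_of_compactSpace (X := (Site d → ℝ) × ℝ) (Y := K0 d C m) _ h1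
    have e : {p : (Site d → ℝ) × ℝ | GoodE C m p.1 p.2} =
        Prod.fst '' {t : ((Site d → ℝ) × ℝ) × K0 d C m | (t.2 : Site d → ℝ) 0 = 1 ∧
        ∀ x, x ≠ 0 → lapR (t.2 : Site d → ℝ) x + t.1.1 x * (t.2 : Site d → ℝ) x =
          t.1.2 * (t.2 : Site d → ℝ) x} := by
      ext p
      constructor
      · rintro ⟨n, hn0, hn1, hn2⟩
        exact ⟨(p, ⟨n, mem_K0.2 hn1⟩), ⟨hn0, hn2⟩, rfl⟩
      · rintro ⟨⟨q, n⟩, ⟨hn0, hn2⟩, rfl⟩
        exact ⟨n, hn0, mem_K0.1 n.2, hn2⟩
    rw [e]
    exact h2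
  · intro K hK
    have : CompactSpace K := isCompact_iff_compactSpace.1 hK
    have h1 : IsClosed {t : (Site d → ℝ) × (K × K0 d C m) |
        ((t.2.2 : Site d → ℝ) 0 = 1 ∧
        ∀ x, x ≠ 0 → lapR (t.2.2 : Site d → ℝ) x + t.1 x * (t.2.2 : Site d → ℝ) x =
          (t.2.1 : ℝ) * (t.2.2 : Site d → ℝ) x) ∧
        lapR (t.2.2 : Site d → ℝ) 0 + t.1 0 = (t.2.1 : ℝ)} := by
      refine (closed_sol (V := fun t : (Site d → ℝ) × (K × K0 d C m) => t.1)
        (n := fun t => (t.2.2 : Site d → ℝ)) (E := fun t => (t.2.1 : ℝ)) continuous_fst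
        (continuous_subtype_val.comp (continuous_snd.comp continuous_snd))
        (continuous_subtype_val.comp (continuous_fst.comp continuous_snd))).inter ?_
      refine isClosed_eq (Continuous.add ?_ ?_)
        (continuous_subtype_val.comp (continuous_fst.comp continuous_snd))
      · exact (continuous_lapR 0).comp
          (continuous_subtype_val.comp (continuous_snd.comp continuous_snd))
      · exact (continuous_apply 0).comp continuous_fst
    have h2 := isClosedMap_fst_of_compactSpace (X := Site d → ℝ) (Y := K × K0 d C m) _ h1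
    have e : {V : Site d → ℝ | ∃ E ∈ K, ∃ n, Sol C m V E n ∧ lapR n 0 + V 0 = E} =
        Prod.fst '' {t : (Site d → ℝ) × (K × K0 d C m) |
        ((t.2.2 : Site d → ℝ) 0 = 1 ∧
        ∀ x, x ≠ 0 → lapR (t.2.2 : Site d → ℝ) x + t.1 x * (t.2.2 : Site d → ℝ) x =
          (t.2.1 : ℝ) * (t.2.2 : Site d → ℝ) x) ∧
        lapR (t.2.2 : Site d → ℝ) 0 + t.1 0 = (t.2.1 : ℝ)} := by
      ext V
      constructor
      · rintro ⟨E, hE, n, ⟨hn0, hn1, hn2⟩, h3⟩
        exact ⟨(V, (⟨E, hE⟩, ⟨n, mem_K0.2 hn1⟩)), ⟨⟨hn0, hn2⟩, h3⟩, rfl⟩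
      · rintro ⟨⟨W, E, n⟩, ⟨⟨hn0, hn2⟩, h3⟩, rfl⟩
        exact ⟨E, E.2, n, ⟨hn0, mem_K0.1 n.2, hn2⟩, h3⟩
    rw [e]
    exact h2

end Pool.Agent.LE.H77
end
end -- Pool.Agent.Helper77_LE.Clo

section -- Pool.Agent.Helper85_LE.NulRow

/-!
# Row NUL: no decaying eigenfunction with value one at the origin and energy in a null set
-/

set_option autoImplicit false
set_option linter.unusedSectionVars false

open MeasureTheory ProbabilityTheory Function

open scoped ENNReal NNReal BigOperators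

noncomputable section

namespace Pool.Agent.LE.H85

open Pool.Agent.Anderson Pool.Agent.Loc Pool.Agent.Helper54.Bal
  Pool.Agent.Helper96.EXP

/-- a measure with bounded density is absolutely continuous -/
theorem abs_cont {ν : Measure ℝ} [IsProbabilityMeasure ν] {ρ : ℝ} (h : BddDens ν ρ) :
    ν ≪ volume := by
  obtain ⟨hρ, hI⟩ := h
  have hρ0 : ENNReal.ofReal ρ ≠ 0 := by
    rw [Ne, ENNReal.ofReal_eq_zero, not_le]; exact hρ
  have hle : (ENNReal.ofReal ρ)⁻¹ • ν ≤ (volume : Measure ℝ) := by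
    rw [← hausdorffMeasure_real]
    refine Measure.le_hausdorffMeasure 1 _ 1 one_pos fun s hs => ?_
    rw [ENNReal.rpow_one, Measure.smul_apply, smul_eq_mul]
    rcases s.eq_empty_or_nonempty with rfl | hne
    · simp
    have hb : Bornology.IsBounded s := by
      rw [Metric.isBounded_iff_ediam_ne_top]
      exact ne_top_of_le_ne_top ENNReal.one_ne_top hs
    have h1 : s ⊆ Set.Icc (sInf s) (sSup s) := fun x hx =>
      ⟨csInf_le hb.bddBelow hx, le_csSup hb.bddAbove hx⟩
    rw [Real.ediam_eq hb]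
    calc (ENNReal.ofReal ρ)⁻¹ * ν s ≤ (ENNReal.ofReal ρ)⁻¹ * ENNReal.ofReal (ρ * (sSup s - sInf s)) :=
          mul_le_mul_right ((measure_mono h1).trans (hI _ _)) _
      _ = ENNReal.ofReal (sSup s - sInf s) := by
          rw [ENNReal.ofReal_mul hρ.le, ← mul_assoc, ENNReal.inv_mul_cancel hρ0 ENNReal.ofReal_ne_top,
            one_mul]
  intro S hS
  have h1 := hle S
  rw [hS, Measure.smul_apply, smul_eq_mul] at h1
  have h2 := le_antisymm h1 zero_le
  rcases mul_eq_zero.1 h2 with h3 | h3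
  · exact absurd h3 (ENNReal.inv_ne_zero.2 ENNReal.ofReal_ne_top)
  · exact h3

theorem sol_update {d : ℕ} {C m : ℝ} {V : Site d → ℝ} {r E : ℝ} {n : Site d → ℝ} :
    Sol C m (Function.update V 0 r) E n ↔ Sol C m V E n := by
  unfold Sol
  constructor
  · rintro ⟨h1, h2, h3⟩
    refine ⟨h1, h2, fun x hx => ?_⟩
    have := h3 x hx
    rwa [Function.update_of_ne hx] at this
  · rintro ⟨h1, h2, h3⟩
    refine ⟨h1, h2, fun x hx => ?_⟩
    rw [Function.update_of_ne hx]
    exact h3 x hx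

theorem nul (clo : CloStmt) : NulStmt := by
  intro d ν _ ρ hν C m K hm hK h
  obtain ⟨c1, c2⟩ := clo d C m
  set B : Set (Site d → ℝ) := {V | ∃ E ∈ K, ∃ n, Sol C m V E n ∧ lapR n 0 + V 0 = E} with hB
  have hBm : MeasurableSet B := (c2 K hK).measurableSet
  have hG : MeasurableSet {p : (Site d → ℝ) × ℝ | GoodE C m p.1 p.2} := c1.measurableSet
  -- Fubini for the good energies
  have hF : ∀ᵐ V ∂(PP d ν), volume {E | E ∈ K ∧ GoodE C m V E} = 0 := by
    have h0 : ((volume.restrict K).prod (PP d ν))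
        (Prod.swap ⁻¹' {p : (Site d → ℝ) × ℝ | GoodE C m p.1 p.2}) = 0 := by
      rw [Measure.measure_prod_null (measurable_swap hG)]
      exact ae_restrict_of_forall_mem hK.measurableSet fun E hE => h E hE
    have h1 : ((PP d ν).prod (volume.restrict K))
        {p : (Site d → ℝ) × ℝ | GoodE C m p.1 p.2} = 0 := by
      rw [← Measure.prod_swap, Measure.map_apply measurable_swap hG]
      exact h0
    have h2 := Measure.measure_ae_null_of_prod_null h1
    filter_upwards [h2] with V hV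
    have h3 : (volume.restrict K) {E | GoodE C m V E} = 0 := hV
    have h4 : MeasurableSet {E | GoodE C m V E} := measurable_prodMk_left hG
    rw [Measure.restrict_apply h4] at h3
    refine le_antisymm ((measure_mono ?_).trans_eq h3) zero_le
    rintro E ⟨hE, hE2⟩
    exact ⟨hE2, hE⟩
  have hmp := resamp_PP (d := d) ν
  have e1 : PP d ν B = (PP d ν).prod ν
      ((fun p : (Site d → ℝ) × ℝ => Function.update p.1 0 p.2) ⁻¹' B) := by
    rw [hmp.measure_preimage hBm.nullMeasurableSet]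
  rw [e1, Measure.measure_prod_null (measurable_upd hBm)]
  filter_upwards [hF] with V hV
  have h1 := null_values hm hV
  have h2 := abs_cont hν h1
  refine le_antisymm ((measure_mono ?_).trans_eq h2) zero_le
  intro r hr
  obtain ⟨E, hE, n, hn, hE2⟩ := hr
  refine ⟨E, hE, n, sol_update.1 hn, ?_⟩
  have hE3 : lapR n 0 + Function.update V (0 : Site d) r 0 = E := hE2
  rwa [Function.update_self] at hE3

end Pool.Agent.LE.H85
end
end -- Pool.Agent.Helper85_LE.NulRow

section -- Pool.Agent.Helper85_LE.Gen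

/-!
# Row GEN: exceptional pairs (potential, energy) do not occur at eigenvalues
-/

set_option autoImplicit false
set_option linter.unusedSectionVars false
set_option linter.style.haveILetI false

open MeasureTheory ProbabilityTheory Function TopologicalSpace

open scoped ENNReal NNReal BigOperators

noncomputable section

namespace Pool.Agent.LE.H85

open Pool.Agent.Anderson Pool.Agent.Loc Pool.Agent.Helper54.Bal
  Pool.Agent.Helper96.EXP Pool.Agent.LE

/-- a measure with bounded density is at most a multiple of the Lebesgue measure -/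
theorem le_vol {ν : Measure ℝ} [IsProbabilityMeasure ν] {ρ : ℝ} (h : BddDens ν ρ) (S : Set ℝ) :
    ν S ≤ ENNReal.ofReal ρ * volume S := by
  obtain ⟨hρ, hI⟩ := h
  have hρ0 : ENNReal.ofReal ρ ≠ 0 := by
    rw [Ne, ENNReal.ofReal_eq_zero, not_le]; exact hρ
  have hle : (ENNReal.ofReal ρ)⁻¹ • ν ≤ (volume : Measure ℝ) := by
    rw [← hausdorffMeasure_real]
    refine Measure.le_hausdorffMeasure 1 _ 1 one_pos fun s hs => ?_
    rw [ENNReal.rpow_one, Measure.smul_apply, smul_eq_mul]
    rcases s.eq_empty_or_nonempty with rfl | hne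
    · simp
    have hb : Bornology.IsBounded s := by
      rw [Metric.isBounded_iff_ediam_ne_top]
      exact ne_top_of_le_ne_top ENNReal.one_ne_top hs
    have h1 : s ⊆ Set.Icc (sInf s) (sSup s) := fun x hx =>
      ⟨csInf_le hb.bddBelow hx, le_csSup hb.bddAbove hx⟩
    rw [Real.ediam_eq hb]
    calc (ENNReal.ofReal ρ)⁻¹ * ν s ≤ (ENNReal.ofReal ρ)⁻¹ * ENNReal.ofReal (ρ * (sSup s - sInf s)) :=
          mul_le_mul_right ((measure_mono h1).trans (hI _ _)) _
      _ = ENNReal.ofReal (sSup s - sInf s) := by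
          rw [ENNReal.ofReal_mul hρ.le, ← mul_assoc, ENNReal.inv_mul_cancel hρ0 ENNReal.ofReal_ne_top,
            one_mul]
  have h1 := hle S
  rw [Measure.smul_apply, smul_eq_mul] at h1
  calc ν S = ENNReal.ofReal ρ * ((ENNReal.ofReal ρ)⁻¹ * ν S) := by
        rw [← mul_assoc, ENNReal.mul_inv_cancel hρ0 ENNReal.ofReal_ne_top, one_mul]
    _ ≤ _ := mul_le_mul_right h1 _

theorem image_le {A : Set ℝ} (v : ℝ → ℝ) {K : ℝ≥0} (hv : LipschitzOnWith K v A) :
    volume (v '' A) ≤ K * volume A := by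
  have h := hv.hausdorffMeasure_image_le (d := 1) zero_le_one
  rw [hausdorffMeasure_real, ENNReal.rpow_one] at h
  exact h

/-- the values of the potential at `0` for which there is a decaying eigenfunction with an energy
in a set `K` -/
theorem values_le {d : ℕ} {C m : ℝ} {V : Site d → ℝ} (hm : 0 < m) (K : Set ℝ) :
    volume {r : ℝ | ∃ E ∈ K, ∃ n, Sol C m V E n ∧ lapR n 0 + r = E} ≤
      (C * (C * ∑' x : Site d, Real.exp (-m * sd 0 x))).toNNReal * volume K := by
  classical
  set v : ℝ → ℝ := fun E => if h : GoodE C m V E then E - lapR h.choose 0 else 0 with hv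
  have hve : ∀ E n, Sol C m V E n → v E = E - lapR n 0 := by
    intro E n hn
    have h : GoodE C m V E := ⟨n, hn⟩
    have h1 := key hm h.choose_spec hn
    rw [sub_self, zero_mul, sub_eq_zero] at h1
    rw [hv]
    simp only
    rw [dif_pos h, h1]
  set Λ : ℝ := C * (C * ∑' x : Site d, Real.exp (-m * sd 0 x)) with hΛ
  have hlip : LipschitzOnWith Λ.toNNReal v {E | E ∈ K ∧ GoodE C m V E} := by
    apply LipschitzOnWith.of_dist_le_mul
    rintro E ⟨_, n, hn⟩ E' ⟨_, n', hn'⟩
    rw [hve E n hn, hve E' n' hn', Real.dist_eq, Real.dist_eq]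
    refine (lip hm hn hn').trans ?_
    exact mul_le_mul_of_nonneg_right (Real.le_coe_toNNReal _) (abs_nonneg _)
  refine (measure_mono ?_).trans ((image_le v hlip).trans
    (mul_le_mul_right (measure_mono fun E hE => hE.1) _))
  rintro r ⟨E, hE, n, hn, hr⟩
  refine ⟨E, ⟨hE, n, hn⟩, ?_⟩
  rw [hve E n hn]
  linarith

/-- projection along a compact set -/
theorem closed_with {d : ℕ} (C m : ℝ) {K : Set ℝ} (hK : IsCompact K)
    {F : Set ((Site d → ℝ) × ℝ)} (hF : IsClosed F) :
    IsClosed {V : Site d → ℝ | ∃ E ∈ K, (V, E) ∈ F ∧ ∃ n, Sol C m V E n ∧ lapR n 0 + V 0 = E} := by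
  have : CompactSpace (H77.K0 d C m) := isCompact_iff_compactSpace.1 (H77.isCompact_K0 d C m)
  have : CompactSpace K := isCompact_iff_compactSpace.1 hK
  have h1 : IsClosed {t : (Site d → ℝ) × (K × H77.K0 d C m) |
      (((t.2.2 : Site d → ℝ) 0 = 1 ∧
      ∀ x, x ≠ 0 → lapR (t.2.2 : Site d → ℝ) x + t.1 x * (t.2.2 : Site d → ℝ) x =
        (t.2.1 : ℝ) * (t.2.2 : Site d → ℝ) x) ∧
      lapR (t.2.2 : Site d → ℝ) 0 + t.1 0 = (t.2.1 : ℝ)) ∧ (t.1, (t.2.1 : ℝ)) ∈ F} := by
    refine ((H77.closed_sol (V := fun t : (Site d → ℝ) × (K × H77.K0 d C m) => t.1)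
      (n := fun t => (t.2.2 : Site d → ℝ)) (E := fun t => (t.2.1 : ℝ)) continuous_fst
      (continuous_subtype_val.comp (continuous_snd.comp continuous_snd))
      (continuous_subtype_val.comp (continuous_fst.comp continuous_snd))).inter ?_).inter ?_
    · refine isClosed_eq (Continuous.add ?_ ?_)
        (continuous_subtype_val.comp (continuous_fst.comp continuous_snd))
      · exact (H77.continuous_lapR 0).comp
          (continuous_subtype_val.comp (continuous_snd.comp continuous_snd))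
      · exact (continuous_apply 0).comp continuous_fst
    · exact hF.preimage (continuous_fst.prodMk
        (continuous_subtype_val.comp (continuous_fst.comp continuous_snd)))
  have h2 := isClosedMap_fst_of_compactSpace (X := Site d → ℝ) (Y := K × H77.K0 d C m) _ h1
  have e : {V : Site d → ℝ | ∃ E ∈ K, (V, E) ∈ F ∧ ∃ n, Sol C m V E n ∧ lapR n 0 + V 0 = E} =
      Prod.fst '' {t : (Site d → ℝ) × (K × H77.K0 d C m) |
      (((t.2.2 : Site d → ℝ) 0 = 1 ∧
      ∀ x, x ≠ 0 → lapR (t.2.2 : Site d → ℝ) x + t.1 x * (t.2.2 : Site d → ℝ) x =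
        (t.2.1 : ℝ) * (t.2.2 : Site d → ℝ) x) ∧
      lapR (t.2.2 : Site d → ℝ) 0 + t.1 0 = (t.2.1 : ℝ)) ∧ (t.1, (t.2.1 : ℝ)) ∈ F} := by
    ext V
    constructor
    · rintro ⟨E, hE, hVE, n, ⟨hn0, hn1, hn2⟩, h3⟩
      exact ⟨(V, (⟨E, hE⟩, ⟨n, H77.mem_K0.2 hn1⟩)), ⟨⟨⟨hn0, hn2⟩, h3⟩, hVE⟩, rfl⟩
    · rintro ⟨⟨W, E, n⟩, ⟨⟨⟨hn0, hn2⟩, h3⟩, h4⟩, rfl⟩
      exact ⟨E, E.2, h4, n, ⟨hn0, H77.mem_K0.1 n.2, hn2⟩, h3⟩
  rw [e]
  exact h2

theorem meas_with {d : ℕ} (C m : ℝ) {K : Set ℝ} (hK : IsCompact K)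
    {O : Set ((Site d → ℝ) × ℝ)} (hO : IsOpen O) :
    MeasurableSet {V : Site d → ℝ | ∃ E ∈ K, (V, E) ∈ O ∧
      ∃ n, Sol C m V E n ∧ lapR n 0 + V 0 = E} := by
  letI A : PseudoMetricSpace ((Site d → ℝ) × ℝ) := pseudoMetrizableSpacePseudoMetric _
  obtain ⟨F, hF, -, hU, -⟩ := hO.exists_iUnion_isClosed
  have e : {V : Site d → ℝ | ∃ E ∈ K, (V, E) ∈ O ∧ ∃ n, Sol C m V E n ∧ lapR n 0 + V 0 = E} =
      ⋃ k, {V : Site d → ℝ | ∃ E ∈ K, (V, E) ∈ F k ∧
        ∃ n, Sol C m V E n ∧ lapR n 0 + V 0 = E} := by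
    ext V
    simp only [Set.mem_ofPred_eq, Set.mem_iUnion]
    constructor
    · rintro ⟨E, hE, hVE, n, hn⟩
      rw [← hU, Set.mem_iUnion] at hVE
      obtain ⟨k, hk⟩ := hVE
      exact ⟨k, E, hE, hk, n, hn⟩
    · rintro ⟨k, E, hE, hk, n, hn⟩
      refine ⟨E, hE, ?_, n, hn⟩
      rw [← hU]
      exact Set.mem_iUnion.2 ⟨k, hk⟩
  rw [e]
  exact MeasurableSet.iUnion fun k => (closed_with C m hK (hF k)).measurableSet

/-- the potential with value `0` at the origin -/
def zer {d : ℕ} (p : (Site d → ℝ) × ℝ) : (Site d → ℝ) × ℝ := (Function.update p.1 0 0, p.2)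

theorem continuous_zer {d : ℕ} : Continuous (zer (d := d)) := by
  unfold zer
  exact (continuous_fst.update 0 continuous_const).prodMk continuous_snd

theorem zer_update {d : ℕ} (V : Site d → ℝ) (r E : ℝ) :
    zer (Function.update V 0 r, E) = zer (V, E) := by
  unfold zer
  simp

theorem gen : GenStmt := by
  intro d ν _ ρ hν C m K B hm hK hB hB0 h
  obtain ⟨c1, -⟩ := H77.clo d C m
  have hG : MeasurableSet {p : (Site d → ℝ) × ℝ | GoodE C m p.1 p.2} := c1.measurableSet
  set μ : Measure ((Site d → ℝ) × ℝ) := (PP d ν).prod ((volume : Measure ℝ).restrict K) with hμ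
  haveI : IsFiniteMeasure ((volume : Measure ℝ).restrict K) := ⟨by
    rw [Measure.restrict_apply MeasurableSet.univ, Set.univ_inter]
    exact hK.measure_lt_top⟩
  set S : Set ((Site d → ℝ) × ℝ) := {p | GoodE C m p.1 p.2 ∧ p ∈ B ∧ p.2 ∈ K} with hS
  have hSm : MeasurableSet S :=
    hG.inter (hB.inter (measurable_snd hK.measurableSet))
  have hS0 : μ S = 0 := by
    have h0 : (((volume : Measure ℝ).restrict K).prod (PP d ν)) (Prod.swap ⁻¹' S) = 0 := by
      rw [Measure.measure_prod_null (measurable_swap hSm)]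
      filter_upwards [h] with E hE
      refine le_antisymm ((measure_mono ?_).trans_eq hE) zero_le
      rintro V ⟨h1, h2, -⟩
      exact ⟨h1, h2⟩
    rw [hμ, ← Measure.prod_swap, Measure.map_apply measurable_swap hSm]
    exact h0
  have hpre : zer ⁻¹' S = S := by
    ext ⟨V, E⟩
    constructor
    · rintro ⟨⟨n, hn⟩, h2, h3⟩
      exact ⟨⟨n, sol_update.1 hn⟩, (hB0 V 0 E).2 h2, h3⟩
    · rintro ⟨⟨n, hn⟩, h2, h3⟩
      exact ⟨⟨n, sol_update.2 hn⟩, (hB0 V 0 E).1 h2, h3⟩
  have hzm : Measurable (zer (d := d)) := continuous_zer.measurable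
  have hS1 : (μ.map zer) S = 0 := by
    rw [Measure.map_apply hzm hSm, hpre]
    exact hS0
  set Λ : ℝ≥0 := (C * (C * ∑' x : Site d, Real.exp (-m * sd 0 x))).toNNReal with hΛ
  -- the bound for every open set
  have key2 : ∀ O : Set ((Site d → ℝ) × ℝ), IsOpen O → S ⊆ O →
      PP d ν {V | ∃ E ∈ K, (V, E) ∈ B ∧ ∃ n, Sol C m V E n ∧ lapR n 0 + V 0 = E} ≤
        ENNReal.ofReal ρ * (Λ * (μ.map zer) O) := by
    intro O hO hSO
    set O' : Set ((Site d → ℝ) × ℝ) := zer ⁻¹' O with hO'
    have hO'o : IsOpen O' := hO.preimage continuous_zer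
    set Y : Set (Site d → ℝ) := {V | ∃ E ∈ K, (V, E) ∈ O' ∧
      ∃ n, Sol C m V E n ∧ lapR n 0 + V 0 = E} with hY
    have hYm : MeasurableSet Y := meas_with C m hK hO'o
    have hsub : {V | ∃ E ∈ K, (V, E) ∈ B ∧ ∃ n, Sol C m V E n ∧ lapR n 0 + V 0 = E} ⊆ Y := by
      rintro V ⟨E, hE, hVE, n, hn, h2⟩
      refine ⟨E, hE, ?_, n, hn, h2⟩
      have h3 : (V, E) ∈ S := ⟨⟨n, hn⟩, hVE, hE⟩
      rw [← hpre] at h3
      exact hSO h3
    refine (measure_mono hsub).trans ?_
    have hmp := resamp_PP (d := d) ν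
    have e1 : PP d ν Y = (PP d ν).prod ν
        ((fun p : (Site d → ℝ) × ℝ => Function.update p.1 0 p.2) ⁻¹' Y) := by
      rw [hmp.measure_preimage hYm.nullMeasurableSet]
    rw [e1, Measure.prod_apply (measurable_upd hYm)]
    have e2 : (μ.map zer) O = ∫⁻ V, ((volume : Measure ℝ).restrict K)
        (Prod.mk V ⁻¹' O') ∂(PP d ν) := by
      rw [Measure.map_apply hzm hO.measurableSet, hμ, Measure.prod_apply hO'o.measurableSet]
    rw [e2, ← lintegral_const_mul', ← lintegral_const_mul']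
    · refine lintegral_mono fun V => ?_
      have h4 : (Prod.mk V ⁻¹' ((fun p : (Site d → ℝ) × ℝ => Function.update p.1 0 p.2) ⁻¹' Y)) ⊆
          {r : ℝ | ∃ E ∈ {E | E ∈ K ∧ (V, E) ∈ O'}, ∃ n, Sol C m V E n ∧ lapR n 0 + r = E} := by
        rintro r ⟨E, hE, hVE, n, hn, h5⟩
        refine ⟨E, ⟨hE, ?_⟩, n, sol_update.1 hn, ?_⟩
        · have h6 : zer (Function.update V 0 r, E) ∈ O := hVE
          rw [zer_update] at h6
          exact h6
        · have h6 : lapR n 0 + Function.update V (0 : Site d) r 0 = E := h5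
          rwa [Function.update_self] at h6
      refine (measure_mono h4).trans ((le_vol hν _).trans ?_)
      refine mul_le_mul_right ((values_le hm _).trans (mul_le_mul_right ?_ _)) _
      have h7 : MeasurableSet (Prod.mk V ⁻¹' O') := measurable_prodMk_left hO'o.measurableSet
      rw [Measure.restrict_apply h7]
      exact measure_mono fun E hE => ⟨hE.2, hE.1⟩
    · exact ENNReal.ofReal_ne_top
    · exact ENNReal.coe_ne_top
  -- conclusion
  refine le_antisymm (ENNReal.le_of_forall_pos_le_add fun ε hε _ => ?_) zero_le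
  rw [zero_add]
  have hc : ENNReal.ofReal ρ * Λ ≠ ⊤ := ENNReal.mul_ne_top ENNReal.ofReal_ne_top ENNReal.coe_ne_top
  have hδ : (0 : ℝ≥0∞) < ε / (ENNReal.ofReal ρ * Λ + 1) :=
    ENNReal.div_pos (by exact_mod_cast hε.ne') (ENNReal.add_ne_top.2 ⟨hc, ENNReal.one_ne_top⟩)
  haveI : IsFiniteMeasure (μ.map zer) := by
    have : IsFiniteMeasure μ := by rw [hμ]; infer_instance
    exact Measure.isFiniteMeasure_map μ zer
  obtain ⟨O, hSO, hO, hlt⟩ := S.exists_isOpen_lt_of_lt (μ := μ.map zer) _ (hS1.trans_lt hδ)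
  refine (key2 O hO hSO).trans ?_
  rw [← mul_assoc]
  calc ENNReal.ofReal ρ * Λ * (μ.map zer) O
      ≤ (ENNReal.ofReal ρ * Λ + 1) * (ε / (ENNReal.ofReal ρ * Λ + 1)) :=
        mul_le_mul' le_self_add hlt.le
    _ ≤ ε := ENNReal.mul_div_le

end Pool.Agent.LE.H85
end
end -- Pool.Agent.Helper85_LE.Gen

section -- Pool.Agent.Helper3_LE.SimR

/-!
# SIM: eigenvalues of decaying eigenfunctions are simple
-/

set_option autoImplicit false
set_option linter.unusedSectionVars false

open MeasureTheory ProbabilityTheory Function Filter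

open scoped ENNReal NNReal BigOperators Topology

noncomputable section

namespace Pool.Agent.LE.H3R

open Pool.Agent.Anderson Pool.Agent.Loc Pool.Agent.Mob Pool.Agent.Helper54.Bal
  Pool.Agent.Helper96.EXP

/-- the potentials and energies with an eigenfunction which vanishes at `0`, has value `1` at `s`
and decays away from `s` -/
def BBs (d : ℕ) (s : Site d) (C m : ℝ) : Set ((Site d → ℝ) × ℝ) :=
  {p | ∃ w : Site d → ℝ, w 0 = 0 ∧ w s = 1 ∧ (∀ x, |w x| ≤ C * Real.exp (-m * sd s x)) ∧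
    ∀ x, lapR w x + p.1 x * w x = p.2 * w x}

/-- the compact set of the functions with the given decay away from `s` -/
def Ks (d : ℕ) (s : Site d) (C m : ℝ) : Set (Site d → ℝ) :=
  Set.pi Set.univ fun x => Set.Icc (-(C * Real.exp (-m * sd s x))) (C * Real.exp (-m * sd s x))

theorem mem_Ks {d : ℕ} {s : Site d} {C m : ℝ} {n : Site d → ℝ} :
    n ∈ Ks d s C m ↔ ∀ x, |n x| ≤ C * Real.exp (-m * sd s x) := by
  unfold Ks
  rw [Set.mem_univ_pi]
  exact forall_congr' fun x => by rw [Set.mem_Icc, abs_le]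

theorem isCompact_Ks (d : ℕ) (s : Site d) (C m : ℝ) : IsCompact (Ks d s C m) :=
  isCompact_univ_pi fun _ => isCompact_Icc

theorem isClosed_BBs (d : ℕ) (s : Site d) (C m : ℝ) : IsClosed (BBs d s C m) := by
  have : CompactSpace (Ks d s C m) := isCompact_iff_compactSpace.1 (isCompact_Ks d s C m)
  have h1 : IsClosed {t : ((Site d → ℝ) × ℝ) × Ks d s C m | (t.2 : Site d → ℝ) 0 = 0 ∧
      (t.2 : Site d → ℝ) s = 1 ∧ ∀ x, lapR (t.2 : Site d → ℝ) x + t.1.1 x * (t.2 : Site d → ℝ) x =
          t.1.2 * (t.2 : Site d → ℝ) x} := by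
    have hn : Continuous fun t : ((Site d → ℝ) × ℝ) × Ks d s C m => (t.2 : Site d → ℝ) :=
      continuous_subtype_val.comp continuous_snd
    have hc : ∀ x, Continuous fun t : ((Site d → ℝ) × ℝ) × Ks d s C m =>
        (t.2 : Site d → ℝ) x := fun x => (continuous_apply x).comp hn
    have hV : ∀ x, Continuous fun t : ((Site d → ℝ) × ℝ) × Ks d s C m => t.1.1 x :=
      fun x => (continuous_apply x).comp (continuous_fst.comp continuous_fst)
    have hE : Continuous fun t : ((Site d → ℝ) × ℝ) × Ks d s C m => t.1.2 :=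
      continuous_snd.comp continuous_fst
    have e : {t : ((Site d → ℝ) × ℝ) × Ks d s C m | (t.2 : Site d → ℝ) 0 = 0 ∧
        (t.2 : Site d → ℝ) s = 1 ∧ ∀ x, lapR (t.2 : Site d → ℝ) x +
          t.1.1 x * (t.2 : Site d → ℝ) x = t.1.2 * (t.2 : Site d → ℝ) x} =
        {t | (t.2 : Site d → ℝ) 0 = 0} ∩ ({t | (t.2 : Site d → ℝ) s = 1} ∩ ⋂ x : Site d,
          {t | lapR (t.2 : Site d → ℝ) x + t.1.1 x * (t.2 : Site d → ℝ) x =
            t.1.2 * (t.2 : Site d → ℝ) x}) := by
      ext t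
      simp only [Set.mem_ofPred_eq, Set.mem_inter_iff, Set.mem_iInter]
    rw [e]
    refine (isClosed_eq (hc 0) continuous_const).inter
      ((isClosed_eq (hc s) continuous_const).inter (isClosed_iInter fun x => ?_))
    exact isClosed_eq (((H77.continuous_lapR x).comp hn).add ((hV x).mul (hc x)))
      (hE.mul (hc x))
  have h2 := isClosedMap_fst_of_compactSpace (X := (Site d → ℝ) × ℝ) (Y := Ks d s C m) _ h1
  have e : BBs d s C m = Prod.fst '' {t : ((Site d → ℝ) × ℝ) × Ks d s C m |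
      (t.2 : Site d → ℝ) 0 = 0 ∧ (t.2 : Site d → ℝ) s = 1 ∧
        ∀ x, lapR (t.2 : Site d → ℝ) x + t.1.1 x * (t.2 : Site d → ℝ) x =
          t.1.2 * (t.2 : Site d → ℝ) x} := by
    ext p
    constructor
    · rintro ⟨w, h0, hs, hd, heq⟩
      exact ⟨(p, ⟨w, mem_Ks.2 hd⟩), ⟨h0, hs, heq⟩, rfl⟩
    · rintro ⟨⟨q, w⟩, ⟨h0, hs, heq⟩, rfl⟩
      exact ⟨w, h0, hs, mem_Ks.1 w.2, heq⟩
  rw [e]
  exact h2

theorem BBs_update {d : ℕ} {s : Site d} {C m : ℝ} (V : Site d → ℝ) (r E : ℝ) :
    (V, E) ∈ BBs d s C m ↔ (Function.update V 0 r, E) ∈ BBs d s C m := by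
  have key : ∀ (W W' : Site d → ℝ), (∀ x, x ≠ 0 → W x = W' x) → (W, E) ∈ BBs d s C m →
      (W', E) ∈ BBs d s C m := by
    rintro W W' h ⟨w, h0, hs, hd, heq⟩
    refine ⟨w, h0, hs, hd, fun x => ?_⟩
    have h1 := heq x
    by_cases hx : x = 0
    · subst hx
      simp only [h0, mul_zero] at h1 ⊢
      exact h1
    · have h2 := h x hx
      simp only at h1 ⊢
      rw [← h2]
      exact h1
  constructor
  · exact key V _ fun x hx => (Function.update_of_ne hx _ _).symm
  · exact key _ V fun x hx => Function.update_of_ne hx _ _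

/-- at a fixed energy there is no decaying eigenfunction with value `1` at `0` -/
theorem null_one {d : ℕ} (ν : Measure ℝ) [IsProbabilityMeasure ν] {ρ : ℝ} (hν : BddDens ν ρ)
    {C m : ℝ} (hm : 0 < m) (E : ℝ) :
    PP d ν {V | ∃ E' ∈ ({E} : Set ℝ), ∃ n, Sol C m V E' n ∧ lapR n 0 + V 0 = E'} = 0 := by
  have hBm : MeasurableSet {V : Site d → ℝ | ∃ E' ∈ ({E} : Set ℝ), ∃ n, Sol C m V E' n ∧
      lapR n 0 + V 0 = E'} := ((H77.clo d C m).2 {E} isCompact_singleton).measurableSet
  have hmp := resamp_PP (d := d) ν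
  rw [← hmp.measure_preimage hBm.nullMeasurableSet, Measure.measure_prod_null (measurable_upd hBm)]
  refine Eventually.of_forall fun V => ?_
  have h1 := H85.values_le (d := d) (C := C) (V := V) hm {E}
  rw [Real.volume_singleton, mul_zero] at h1
  have h2 := H85.abs_cont hν (le_antisymm h1 zero_le)
  refine le_antisymm ((measure_mono ?_).trans_eq h2) zero_le
  rintro r ⟨E', hE', n, hn, hE2⟩
  refine ⟨E', hE', n, H85.sol_update.1 hn, ?_⟩
  have hE3 : lapR n 0 + Function.update V (0 : Site d) r 0 = E' := hE2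
  rwa [Function.update_self] at hE3

theorem null_BBs {d : ℕ} (ν : Measure ℝ) [IsProbabilityMeasure ν] {ρ : ℝ} (hν : BddDens ν ρ)
    (s : Site d) {C m : ℝ} (hm : 0 < m) (E : ℝ) :
    PP d ν {V | (V, E) ∈ BBs d s C m} = 0 := by
  have hBm : MeasurableSet {V : Site d → ℝ | ∃ E' ∈ ({E} : Set ℝ), ∃ n, Sol C m V E' n ∧
      lapR n 0 + V 0 = E'} := ((H77.clo d C m).2 {E} isCompact_singleton).measurableSet
  have h0 := null_one (d := d) ν hν (C := C) hm E
  rw [← (shiftInv_PP ν s).measure_preimage hBm.nullMeasurableSet] at h0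
  refine le_antisymm ((measure_mono ?_).trans_eq h0) zero_le
  rintro V ⟨w, -, hs, hd, heq⟩
  have hlap : ∀ x, lapR (fun y => w (y + s)) x = lapR w (x + s) := by
    intro x
    unfold lapR
    refine Finset.sum_congr rfl fun i _ => ?_
    simp only
    rw [show x + Pi.single i 1 + s = x + s + Pi.single i 1 by abel,
      show x - Pi.single i 1 + s = x + s - Pi.single i 1 by abel]
  have h1 : ∀ x, lapR (fun y => w (y + s)) x + tau s V x * w (x + s) = E * w (x + s) := by
    intro x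
    rw [hlap]
    exact heq (x + s)
  refine ⟨E, rfl, fun y => w (y + s), ⟨?_, fun x => ?_, fun x _ => h1 x⟩, ?_⟩
  · simp only [zero_add]
    exact hs
  · have h2 := hd (x + s)
    have h3 : sd s (x + s) = sd 0 x := by
      have := H42.sd_add (0 : Site d) x s
      rwa [zero_add] at this
    rw [h3] at h2
    exact h2
  · have h2 := h1 0
    rw [zero_add, hs, mul_one, mul_one] at h2
    exact h2

/-- SIM -/
theorem sim (gen : GenStmt) : SimStmt := by
  intro d ν _ ρ hν C m hm
  have h1 : ∀ (s : Site d) (k j i : ℕ), PP d ν {V | ∃ E ∈ Set.Icc (-(i : ℝ)) i,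
      (V, E) ∈ BBs d s k (1 / ((j : ℝ) + 1)) ∧ ∃ n, Sol C m V E n ∧ lapR n 0 + V 0 = E} = 0 := by
    intro s k j i
    refine gen d ν ρ hν C m _ _ hm isCompact_Icc (isClosed_BBs d s k _).measurableSet
      (fun V r E => BBs_update V r E) (Eventually.of_forall fun E => ?_)
    refine le_antisymm ((measure_mono ?_).trans_eq
      (null_BBs ν hν s (C := k) (m := 1 / ((j : ℝ) + 1)) (by positivity) E)) zero_le
    exact fun V hV => hV.2
  have h2 : ∀ᵐ V ∂(PP d ν), ∀ (s : Site d) (k j i : ℕ), ¬ ∃ E ∈ Set.Icc (-(i : ℝ)) i,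
      (V, E) ∈ BBs d s k (1 / ((j : ℝ) + 1)) ∧ ∃ n, Sol C m V E n ∧ lapR n 0 + V 0 = E := by
    rw [ae_all_iff]
    intro s
    rw [ae_all_iff]
    intro k
    rw [ae_all_iff]
    intro j
    rw [ae_all_iff]
    intro i
    rw [ae_iff]
    simp only [not_not]
    exact h1 s k j i
  filter_upwards [h2] with V hV
  rintro E n hn hE w ⟨B, m', hm', hw⟩ heq hw0 s
  by_contra hs
  have hs0 : 0 < |w s| := abs_pos.2 hs
  obtain ⟨i, hi⟩ := exists_nat_ge |E|
  obtain ⟨j, hj⟩ := exists_nat_one_div_lt hm'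
  obtain ⟨k, hk⟩ := exists_nat_ge (B / |w s| * Real.exp (1 / ((j : ℝ) + 1) * sd s 0))
  have hB : 0 < B := by
    have h3 := hs0.trans_le (hw s)
    by_contra h4
    push Not at h4
    have h5 := Real.exp_pos (-m' * sd (0 : Site d) s)
    nlinarith only [h3, h4, h5]
  refine hV s k j i ⟨E, abs_le.1 hi, ⟨fun x => w x / w s, ?_, div_self hs, fun x => ?_,
    fun x => ?_⟩, n, hn, hE⟩
  · simp only [hw0, zero_div]
  · have h3 : |w x / w s| = |w x| / |w s| := abs_div _ _
    have h4 : (sd s x : ℝ) ≤ sd s 0 + sd 0 x := by exact_mod_cast sd_triangle s 0 x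
    have h5 : Real.exp (-m' * sd 0 x) ≤ Real.exp (1 / ((j : ℝ) + 1) * sd s 0) *
        Real.exp (-(1 / ((j : ℝ) + 1)) * sd s x) := by
      rw [← Real.exp_add]
      apply Real.exp_le_exp.2
      have h6 : (0 : ℝ) ≤ sd 0 x := by positivity
      have h7 : (0 : ℝ) < 1 / ((j : ℝ) + 1) := by positivity
      have h8 : -m' * sd 0 x ≤ -(1 / ((j : ℝ) + 1)) * sd 0 x := by nlinarith only [hj]
      have h9 : 1 / ((j : ℝ) + 1) * sd s x ≤ 1 / ((j : ℝ) + 1) * (sd s 0 + sd 0 x) :=
        mul_le_mul_of_nonneg_left h4 h7.le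
      linarith only [h8, h9]
    simp only
    rw [h3]
    calc |w x| / |w s| ≤ B * Real.exp (-m' * sd 0 x) / |w s| := by
          gcongr
          exact hw x
      _ = B / |w s| * Real.exp (-m' * sd 0 x) := by ring
      _ ≤ B / |w s| * (Real.exp (1 / ((j : ℝ) + 1) * sd s 0) *
          Real.exp (-(1 / ((j : ℝ) + 1)) * sd s x)) := by gcongr
      _ = B / |w s| * Real.exp (1 / ((j : ℝ) + 1) * sd s 0) *
          Real.exp (-(1 / ((j : ℝ) + 1)) * sd s x) := by ring
      _ ≤ k * Real.exp (-(1 / ((j : ℝ) + 1)) * sd s x) := by gcongr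
  · have h3 : lapR (fun x => w x / w s) x = lapR w x / w s := by
      unfold lapR
      rw [Finset.sum_div]
      exact Finset.sum_congr rfl fun i _ => by ring
    have h4 := heq x
    simp only
    rw [h3]
    have h5 : lapR w x = E * w x - V x * w x := by linarith only [h4]
    rw [h5]
    ring

end Pool.Agent.LE.H3R
end
end -- Pool.Agent.Helper3_LE.SimR

section -- Pool.Agent.Helper59_LE.Rst

/-!
# RST: the Green function of a large cube decays from the good sites
-/

set_option autoImplicit false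

open MeasureTheory ProbabilityTheory Function Filter

open scoped ENNReal BigOperators Topology

noncomputable section

namespace Pool.Agent.LE.H59

open Pool.Agent.Anderson Pool.Agent.Loc Pool.Agent.Helper54.Bal Pool.Agent.Helper96.EXP

variable {d : ℕ}

/-! ### the deterministic part -/

theorem RM_mulVec (V : Site d → ℝ) (Λ : Finset (Site d)) (E : ℝ) (f : Site d → ℝ) (x : Λ) :
    (RM V Λ E).mulVec (fun z : Λ => f z) x =
      E * f x - V x * f x - ∑ y ∈ Λ, hop (x : Site d) y * f y := by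
  have h1 : ∑ z : Λ, (HM V Λ) x z * f z = ∑ y ∈ Λ, hop (x : Site d) y * f y + V x * f x := by
    have e : ∀ z : Λ, (HM V Λ) x z * f z =
        hop (x : Site d) z * f z + if x = z then V x * f x else 0 := by
      intro z
      simp only [HM, Matrix.of_apply]
      by_cases h : x = z
      · subst h
        rw [if_pos rfl, if_pos rfl]
        ring
      · rw [if_neg h, if_neg h]
        ring
    simp_rw [e]
    rw [Finset.sum_add_distrib, Finset.sum_ite_eq, if_pos (Finset.mem_univ _)]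
    congr 1
    exact Finset.sum_coe_sort Λ fun y => hop (x : Site d) y * f y
  have h2 : (RM V Λ E).mulVec (fun z : Λ => f z) x =
      E * f x - ∑ z : Λ, (HM V Λ) x z * f z := by
    unfold RM
    rw [Matrix.sub_mulVec, Matrix.smul_mulVec, Matrix.one_mulVec]
    rfl
  rw [h2, h1]
  ring

theorem repr {V : Site d → ℝ} {Λ : Finset (Site d)} {E : ℝ} (hdet : (RM V Λ E).det ≠ 0)
    (f : Site d → ℝ) {w : Site d} (hw : w ∈ Λ) :
    f w = ∑ x ∈ Λ, gr V Λ E w x * (E * f x - V x * f x - ∑ y ∈ Λ, hop x y * f y) := by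
  have h1 : (RM V Λ E)⁻¹.mulVec ((RM V Λ E).mulVec (fun z : Λ => f z)) = fun z : Λ => f z := by
    rw [Matrix.mulVec_mulVec, Matrix.nonsing_inv_mul _ (isUnit_iff_ne_zero.2 hdet),
      Matrix.one_mulVec]
  have h2 := congrFun h1 ⟨w, hw⟩
  have h3 : (RM V Λ E)⁻¹.mulVec ((RM V Λ E).mulVec (fun z : Λ => f z)) ⟨w, hw⟩ =
      ∑ x ∈ Λ, gr V Λ E w x * (E * f x - V x * f x - ∑ y ∈ Λ, hop x y * f y) := by
    rw [← Finset.sum_coe_sort Λ
      fun x => gr V Λ E w x * (E * f x - V x * f x - ∑ y ∈ Λ, hop x y * f y)]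
    unfold Matrix.mulVec dotProduct
    apply Finset.sum_congr rfl
    intro z _
    have e1 : gr V Λ E w z = (RM V Λ E)⁻¹ ⟨w, hw⟩ z := by
      unfold gr
      rw [dif_pos ⟨hw, z.2⟩]
    rw [e1]
    congr 1
    exact RM_mulVec V Λ E f z
  rw [← h3, h2]

theorem sd_sub (s y : Site d) : sd 0 (y - s) = sd s y := by
  unfold sd
  congr 1
  funext i
  rw [Pi.zero_apply, Pi.sub_apply]
  congr 1
  ring

theorem bound {C m E T : ℝ} {V n : Site d → ℝ} {L : ℕ} {s w : Site d} (hm : 0 < m)
    (hs : s ∈ box (0 : Site d) L) (hn : Sol C m (tau s V) E n)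
    (hdet : (RM V (box (0 : Site d) (3 * L)) E).det ≠ 0)
    (hT : ∀ x y, |gr V (box (0 : Site d) (3 * L)) E x y| ≤ T)
    (hw : w ∈ box (0 : Site d) (3 * L)) :
    |E - lapR n 0 - V s| * |gr V (box (0 : Site d) (3 * L)) E s w| ≤
      C * Real.exp (-m * sd s w) +
        (6 * L + 1) ^ d * (T * (2 * d * (C * Real.exp (-m * (2 * L))))) := by
  classical
  obtain ⟨hn0, hdec, hsol⟩ := hn
  have hC := hdec.nonneg
  set B := box (0 : Site d) (3 * L) with hB
  have hT0 : 0 ≤ T := (abs_nonneg _).trans (hT 0 0)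
  set f : Site d → ℝ := fun x => n (x - s) with hf
  have hsB : s ∈ B := box_mono 0 (by omega) hs
  set κ := E - lapR n 0 - V s with hκ
  set β : Site d → ℝ := fun x => ∑ y ∈ (box x 1 ∪ B) \ B, hop x y * f y with hβ
  have hlap : ∀ x, lapR n (x - s) = ∑ y ∈ B, hop x y * f y + β x := by
    intro x
    have h1 := sum_hop x (box x 1 ∪ B) Finset.subset_union_left f
    simp only [smul_eq_mul] at h1
    have h2 : lapR n (x - s) = ∑ i : Fin d, (f (x + Pi.single i 1) + f (x - Pi.single i 1)) := by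
      unfold lapR
      apply Finset.sum_congr rfl
      intro i _
      rw [hf]
      simp only
      congr 2 <;> abel
    rw [h2, ← h1, hβ, add_comm]
    simp only
    rw [Finset.sum_sdiff Finset.subset_union_right]
  have hr : ∀ x, E * f x - V x * f x - ∑ y ∈ B, hop x y * f y =
      (if x = s then κ else 0) + β x := by
    intro x
    have h1 := hlap x
    by_cases hx : x = s
    · subst hx
      rw [if_pos rfl]
      have h2 : f x = 1 := by
        rw [hf]
        simp only [sub_self]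
        exact hn0
      rw [sub_self] at h1
      rw [h2, hκ]
      linarith only [h1]
    · rw [if_neg hx]
      have h2 := hsol (x - s) (sub_ne_zero.2 hx)
      have h3 : tau s V (x - s) = V x := by
        unfold tau
        rw [sub_add_cancel]
      rw [h3] at h2
      have h4 : n (x - s) = f x := rfl
      rw [h4] at h2
      linarith only [h1, h2]
  have hβb : ∀ x, |β x| ≤ 2 * d * (C * Real.exp (-m * (2 * L))) := by
    intro x
    have h1 : ∀ y ∈ (box x 1 ∪ B) \ B, |hop x y * f y| ≤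
        hop x y * (C * Real.exp (-m * (2 * L))) := by
      intro y hy
      rw [Finset.mem_sdiff] at hy
      rw [abs_mul, abs_of_nonneg (hop_nonneg x y)]
      apply mul_le_mul_of_nonneg_left _ (hop_nonneg x y)
      have h2 := hdec (y - s)
      refine h2.trans ?_
      apply mul_le_mul_of_nonneg_left _ hC
      rw [Real.exp_le_exp, sd_sub]
      have h3 : 2 * L ≤ sd s y := by
        have h4 := hy.2
        rw [hB, mem_box] at h4
        have h5 := sd_triangle (0 : Site d) s y
        have h6 := mem_box.1 hs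
        omega
      have h3' : (2 * L : ℝ) ≤ sd s y := by exact_mod_cast h3
      nlinarith only [hm, h3']
    calc |β x| ≤ ∑ y ∈ (box x 1 ∪ B) \ B, |hop x y * f y| := Finset.abs_sum_le_sum_abs _ _
      _ ≤ ∑ y ∈ (box x 1 ∪ B) \ B, hop x y * (C * Real.exp (-m * (2 * L))) :=
        Finset.sum_le_sum h1
      _ = (∑ y ∈ (box x 1 ∪ B) \ B, hop x y) * (C * Real.exp (-m * (2 * L))) := by
        rw [Finset.sum_mul]
      _ ≤ 2 * d * (C * Real.exp (-m * (2 * L))) :=
        mul_le_mul_of_nonneg_right (sum_hop_le x _) (by positivity)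
  have hrep := repr hdet f hw
  simp_rw [hr, mul_add] at hrep
  rw [Finset.sum_add_distrib] at hrep
  have h5 : ∑ x ∈ B, gr V B E w x * (if x = s then κ else 0) = gr V B E w s * κ := by
    rw [Finset.sum_eq_single s]
    · rw [if_pos rfl]
    · intro b _ hb
      rw [if_neg hb, mul_zero]
    · intro h
      exact absurd hsB h
  rw [h5] at hrep
  have h6 : κ * gr V B E s w = f w - ∑ x ∈ B, gr V B E w x * β x := by
    rw [gr_symm V B E s w]
    linarith only [hrep]
  rw [← abs_mul, h6]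
  have h7 : |f w| ≤ C * Real.exp (-m * sd s w) := by
    have := hdec (w - s)
    rw [sd_sub] at this
    exact this
  have h8 : |∑ x ∈ B, gr V B E w x * β x| ≤
      (6 * L + 1) ^ d * (T * (2 * d * (C * Real.exp (-m * (2 * L))))) := by
    calc |∑ x ∈ B, gr V B E w x * β x| ≤ ∑ x ∈ B, |gr V B E w x * β x| :=
        Finset.abs_sum_le_sum_abs _ _
      _ ≤ ∑ _x ∈ B, T * (2 * d * (C * Real.exp (-m * (2 * L)))) := by
        apply Finset.sum_le_sum
        intro x _
        rw [abs_mul]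
        exact mul_le_mul (hT w x) (hβb x) (abs_nonneg _) hT0
      _ = (6 * L + 1) ^ d * (T * (2 * d * (C * Real.exp (-m * (2 * L))))) := by
        rw [Finset.sum_const, nsmul_eq_mul, hB, card_box]
        congr 1
        push_cast
        ring
  calc |f w - ∑ x ∈ B, gr V B E w x * β x| ≤ |f w| + |∑ x ∈ B, gr V B E w x * β x| :=
      abs_sub _ _
    _ ≤ _ := add_le_add h7 h8

/-! ### the probability that the tuned value is close to the potential -/

theorem sol_update {C m E r : ℝ} {V n : Site d → ℝ} :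
    Sol C m (update V 0 r) E n ↔ Sol C m V E n := by
  unfold Sol
  constructor
  · rintro ⟨h1, h2, h3⟩
    refine ⟨h1, h2, fun x hx => ?_⟩
    have := h3 x hx
    rwa [update_of_ne hx] at this
  · rintro ⟨h1, h2, h3⟩
    refine ⟨h1, h2, fun x hx => ?_⟩
    rw [update_of_ne hx]
    exact h3 x hx

/-- potentials near a potential with an eigenfunction -/
def Near (C m E τ : ℝ) : Set (Site d → ℝ) :=
  {W | ∃ r ∈ Set.Icc (-τ) τ, ∃ n, Sol C m W E n ∧ lapR n 0 + (W 0 + r) = E}

theorem closed_Near (hclo : CloStmt) (C m E τ : ℝ) :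
    IsClosed (Near (d := d) C m E τ) := by
  have hZ := (hclo d C m).2 {E} isCompact_singleton
  set Z : Set (Site d → ℝ) := {V | ∃ E' ∈ ({E} : Set ℝ), ∃ n, Sol C m V E' n ∧
    lapR n 0 + V 0 = E'} with hZdef
  have hK : CompactSpace (Set.Icc (-τ) τ) := isCompact_iff_compactSpace.1 isCompact_Icc
  have h1 : IsClosed {p : (Site d → ℝ) × Set.Icc (-τ) τ |
      update p.1 0 (p.1 0 + (p.2 : ℝ)) ∈ Z} := by
    apply hZ.preimage
    apply Continuous.update continuous_fst
    exact ((continuous_apply (0 : Site d)).comp continuous_fst).add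
      (continuous_subtype_val.comp continuous_snd)
  have h2 := isClosedMap_fst_of_compactSpace (X := Site d → ℝ) (Y := Set.Icc (-τ) τ) _ h1
  have h3 : Near (d := d) C m E τ = Prod.fst '' {p : (Site d → ℝ) × Set.Icc (-τ) τ |
      update p.1 0 (p.1 0 + (p.2 : ℝ)) ∈ Z} := by
    ext W
    constructor
    · rintro ⟨r, hr, n, hn, he⟩
      refine ⟨(W, ⟨r, hr⟩), ?_, rfl⟩
      refine ⟨E, rfl, n, sol_update.2 hn, ?_⟩
      rw [update_self]
      exact he
    · rintro ⟨⟨W', r⟩, ⟨E', hE', n, hn, he⟩, rfl⟩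
      have hE'' : E' = E := hE'
      subst hE''
      refine ⟨r, r.2, n, sol_update.1 hn, ?_⟩
      rw [update_self] at he
      exact he
  rw [h3]
  exact h2

theorem prob_Near (hclo : CloStmt) {ν : Measure ℝ} [IsProbabilityMeasure ν] {ρ : ℝ}
    (hν : BddDens ν ρ) {C m E τ : ℝ} (hm : 0 < m) :
    PP d ν (Near C m E τ) ≤ ENNReal.ofReal (ρ * (2 * τ)) := by
  have hmeas : MeasurableSet (Near (d := d) C m E τ) := (closed_Near hclo C m E τ).measurableSet
  have hres := resamp_PP (d := d) (μ := ν)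
  rw [← hres.measure_preimage hmeas.nullMeasurableSet,
    Measure.prod_apply (hres.measurable hmeas)]
  calc ∫⁻ V, ν (Prod.mk V ⁻¹' ((fun p : Cfg d × ℝ => update p.1 0 p.2) ⁻¹'
        Near C m E τ)) ∂(PP d ν)
      ≤ ∫⁻ _V, ENNReal.ofReal (ρ * (2 * τ)) ∂(PP d ν) := by
        apply lintegral_mono
        intro V
        by_cases hV : GoodE C m V E
        · obtain ⟨n, hn⟩ := hV
          have hsub : Prod.mk V ⁻¹' ((fun p : Cfg d × ℝ => update p.1 0 p.2) ⁻¹'
              Near C m E τ) ⊆ Set.Icc (E - lapR n 0 - τ) (E - lapR n 0 + τ) := by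
            rintro t ⟨r, hr, n', hn', he⟩
            change lapR n' 0 + (update V 0 t 0 + r) = E at he
            rw [update_self] at he
            have h1 := key hm hn (sol_update.1 hn')
            rw [sub_self, zero_mul, sub_eq_zero] at h1
            rw [Set.mem_Icc] at hr ⊢
            constructor <;> linarith [hr.1, hr.2]
          refine (measure_mono hsub).trans ((hν.2 _ _).trans (le_of_eq ?_))
          congr 1
          ring
        · have hsub : Prod.mk V ⁻¹' ((fun p : Cfg d × ℝ => update p.1 0 p.2) ⁻¹'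
              Near C m E τ) ⊆ ∅ := by
            rintro t ⟨r, hr, n', hn', he⟩
            exact hV ⟨n', sol_update.1 hn'⟩
          refine (measure_mono hsub).trans ?_
          rw [measure_empty]
          exact zero_le
    _ = ENNReal.ofReal (ρ * (2 * τ)) := by
      rw [lintegral_const, measure_univ, mul_one]

theorem prob_tau_Near (hclo : CloStmt) {ν : Measure ℝ} [IsProbabilityMeasure ν] {ρ : ℝ}
    (hν : BddDens ν ρ) {C m E τ : ℝ} (hm : 0 < m) (s : Site d) :
    PP d ν {V | tau s V ∈ Near C m E τ} ≤ ENNReal.ofReal (ρ * (2 * τ)) := by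
  have hmeas : MeasurableSet (Near (d := d) C m E τ) := (closed_Near hclo C m E τ).measurableSet
  have h1 := (shiftInv_PP (d := d) (μ := ν) s).measure_preimage hmeas.nullMeasurableSet
  have h2 : {V : Site d → ℝ | tau s V ∈ Near C m E τ} = tau s ⁻¹' Near C m E τ := rfl
  rw [h2, h1]
  exact prob_Near hclo hν hm

/-! ### the theorem -/

theorem threshold {m : ℝ} (hm : 0 < m) (D q : ℝ) (hq : 0 < q) :
    ∃ L₀ : ℕ, ∀ L : ℕ, L₀ ≤ L → D * Real.exp (-(m / 16) * L) ≤ q := by
  have h1 : Tendsto (fun L : ℕ => D * Real.exp (-(m / 16) * L)) atTop (𝓝 (D * 0)) := by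
    apply Tendsto.const_mul
    have h2 : Tendsto (fun L : ℕ => (m / 16) * (L : ℝ)) atTop atTop :=
      tendsto_natCast_atTop_atTop.const_mul_atTop (by positivity)
    have h3 := Real.tendsto_exp_neg_atTop_nhds_zero.comp h2
    refine h3.congr fun L => ?_
    simp only [Function.comp_apply]
    congr 1
    ring
  rw [mul_zero] at h1
  obtain ⟨L₀, h⟩ := (h1.eventually_le_const hq).exists_forall_of_atTop
  exact ⟨L₀, h⟩

theorem rst (hclo : CloStmt) : RstStmt := by
  intro d ν _ ρ hν C m E hm p hp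
  classical
  have hρ := hν.1
  obtain ⟨B', hB'0, hB'⟩ := exists_pow_exp_bound (2 * d) (c := m / 16) (by positivity)
  set Q : ℝ := 6 ^ (2 * d) * B' with hQ
  have hQ0 : 0 ≤ Q := by positivity
  have hpow : ∀ L : ℕ, (6 * (L : ℝ) + 1) ^ (2 * d) * Real.exp (-(m / 16) * L) ≤ Q := by
    intro L
    have h1 : (6 * (L : ℝ) + 1) ^ (2 * d) ≤ 6 ^ (2 * d) * ((L : ℝ) + 1) ^ (2 * d) := by
      rw [← mul_pow]
      apply pow_le_pow_left₀ (by positivity)
      linarith only
    calc (6 * (L : ℝ) + 1) ^ (2 * d) * Real.exp (-(m / 16) * L)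
        ≤ 6 ^ (2 * d) * ((L : ℝ) + 1) ^ (2 * d) * Real.exp (-(m / 16) * L) :=
          mul_le_mul_of_nonneg_right h1 (Real.exp_pos _).le
      _ = 6 ^ (2 * d) * (((L : ℝ) + 1) ^ (2 * d) * Real.exp (-(m / 16) * L)) := by ring
      _ ≤ Q := mul_le_mul_of_nonneg_left (hB' L) (by positivity)
  obtain ⟨L₁, hL₁⟩ := threshold hm (8 * ρ * Q) p hp
  obtain ⟨L₂, hL₂⟩ := threshold hm ((|C| + 2 * d * |C|) * Q) 1 one_pos
  refine ⟨max L₁ L₂, fun L hL => ?_⟩
  have hL1 := hL₁ L ((le_max_left _ _).trans hL)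
  have hL2 := hL₂ L ((le_max_right _ _).trans hL)
  set B := box (0 : Site d) (3 * L) with hB
  set T : ℝ := Real.exp ((m / 8) * L) with hT
  set τ : ℝ := Real.exp (-(m / 8) * L) with hτ
  have hTpos : 0 < T := Real.exp_pos _
  have hτpos : 0 < τ := Real.exp_pos _
  have hTτ : T * τ = 1 := by
    rw [hT, hτ, ← Real.exp_add]
    rw [show (m / 8) * (L : ℝ) + -(m / 8) * L = 0 by ring, Real.exp_zero]
  -- the inclusion
  have hsub : {V : Site d → ℝ | ∃ s ∈ box (0 : Site d) L, GoodE C m (tau s V) E ∧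
      ∃ w ∈ B, L ≤ 2 * sd s w ∧ Real.exp (-(m / 8) * L) < |gr V B E s w|} ⊆
      ({V | (RM V B E).det = 0} ∪ ⋃ x ∈ B, ⋃ y ∈ B, {V | T < |gr V B E x y|}) ∪
        ⋃ s ∈ box (0 : Site d) L, {V | tau s V ∈ Near C m E τ} := by
    rintro V ⟨s, hs, ⟨n, hn⟩, w, hw, hsw, hlt⟩
    by_contra hV
    simp only [Set.mem_union, Set.mem_iUnion, Set.mem_ofPred_eq, not_or, not_exists] at hV
    obtain ⟨⟨hdet, hgT⟩, hnear⟩ := hV
    have hgT' : ∀ x y, |gr V B E x y| ≤ T := by
      intro x y
      by_cases hxy : x ∈ B ∧ y ∈ B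
      · exact not_lt.1 (hgT x hxy.1 y hxy.2)
      · unfold gr
        rw [dif_neg hxy, abs_zero]
        exact hTpos.le
    have hC : 0 ≤ C := hn.2.1.nonneg
    have hκ : τ < |E - lapR n 0 - V s| := by
      by_contra hk
      rw [not_lt] at hk
      apply hnear s hs
      refine ⟨E - lapR n 0 - V s, abs_le.1 hk, n, hn, ?_⟩
      unfold tau
      rw [zero_add]
      ring
    have hb := bound hm hs hn hdet hgT' hw
    have h1 : τ * |gr V B E s w| ≤ |E - lapR n 0 - V s| * |gr V B E s w| :=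
      mul_le_mul_of_nonneg_right hκ.le (abs_nonneg _)
    have h2 : τ * τ < τ * |gr V B E s w| := mul_lt_mul_of_pos_left hlt hτpos
    have h3 : Real.exp (-m * sd s w) ≤ τ * τ * Real.exp (-(m / 8) * L) := by
      rw [hτ, ← Real.exp_add, ← Real.exp_add, Real.exp_le_exp]
      have : (L : ℝ) ≤ 2 * sd s w := by exact_mod_cast hsw
      nlinarith only [hm, this]
    have h4 : T * Real.exp (-m * (2 * L)) ≤ τ * τ * Real.exp (-(m / 8) * L) := by
      rw [hT, hτ, ← Real.exp_add, ← Real.exp_add, ← Real.exp_add, Real.exp_le_exp]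
      have : (0 : ℝ) ≤ L := Nat.cast_nonneg L
      nlinarith only [hm]
    have h5 : C * Real.exp (-m * sd s w) +
        (6 * L + 1) ^ d * (T * (2 * d * (C * Real.exp (-m * (2 * L))))) ≤ τ * τ := by
      have hpos : (1 : ℝ) ≤ (6 * (L : ℝ) + 1) ^ d := by
        apply one_le_pow₀
        have : (0 : ℝ) ≤ L := Nat.cast_nonneg L
        linarith only
      have h6 : (6 * (L : ℝ) + 1) ^ d ≤ (6 * (L : ℝ) + 1) ^ (2 * d) := by
        apply pow_le_pow_right₀
        · have : (0 : ℝ) ≤ L := Nat.cast_nonneg L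
          linarith only
        · omega
      have h7 : Real.exp (-(m / 8) * L) =
          Real.exp (-(m / 16) * L) * Real.exp (-(m / 16) * L) := by
        rw [← Real.exp_add]
        congr 1
        ring
      have h8 : (6 * (L : ℝ) + 1) ^ d * Real.exp (-(m / 8) * L) ≤
          Q * Real.exp (-(m / 16) * L) := by
        rw [h7, ← mul_assoc]
        apply mul_le_mul_of_nonneg_right _ (Real.exp_pos _).le
        exact (mul_le_mul_of_nonneg_right h6 (Real.exp_pos _).le).trans (hpow L)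
      calc C * Real.exp (-m * sd s w) +
          (6 * L + 1) ^ d * (T * (2 * d * (C * Real.exp (-m * (2 * L)))))
          = C * Real.exp (-m * sd s w) +
          2 * d * C * ((6 * L + 1) ^ d * (T * Real.exp (-m * (2 * L)))) := by ring
        _ ≤ C * (τ * τ * Real.exp (-(m / 8) * L)) +
          2 * d * C * ((6 * L + 1) ^ d * (τ * τ * Real.exp (-(m / 8) * L))) := by
          apply add_le_add
          · exact mul_le_mul_of_nonneg_left h3 hC
          · apply mul_le_mul_of_nonneg_left _ (by positivity)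
            exact mul_le_mul_of_nonneg_left h4 (by positivity)
        _ ≤ C * ((6 * L + 1) ^ d * (τ * τ * Real.exp (-(m / 8) * L))) +
          2 * d * C * ((6 * L + 1) ^ d * (τ * τ * Real.exp (-(m / 8) * L))) := by
          apply add_le_add _ le_rfl
          apply mul_le_mul_of_nonneg_left _ hC
          exact le_mul_of_one_le_left (by positivity) hpos
        _ = (τ * τ) * ((C + 2 * d * C) * ((6 * (L : ℝ) + 1) ^ d * Real.exp (-(m / 8) * L))) := by
          ring
        _ ≤ (τ * τ) * ((C + 2 * d * C) * (Q * Real.exp (-(m / 16) * L))) := by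
          apply mul_le_mul_of_nonneg_left _ (by positivity)
          exact mul_le_mul_of_nonneg_left h8 (by positivity)
        _ ≤ (τ * τ) * 1 := by
          apply mul_le_mul_of_nonneg_left _ (by positivity)
          rw [abs_of_nonneg hC] at hL2
          linarith only [hL2]
        _ = τ * τ := mul_one _
    linarith only [hb, h1, h2, h5]
  refine (measure_mono hsub).trans ?_
  -- the three probabilities
  have hN1 : PP d ν {V | (RM V B E).det = 0} = 0 := by
    have h1 : Pool.Agent.Mob.H75.Loc {V : Site d → ℝ | (RM V B E).det = 0} B := by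
      intro V V' h
      rw [Set.mem_ofPred_eq, Set.mem_ofPred_eq, RM_congr h]
    exact le_antisymm ((Pool.Agent.Mob.H75.PP_le_PL h1).trans (PL_det hν B B le_rfl E).le) zero_le
  have hN2 : ∀ x y, PP d ν {V | T < |gr V B E x y|} ≤ ENNReal.ofReal (6 * ρ / T) := by
    intro x y
    have h1 : Pool.Agent.Mob.H75.Loc {V : Site d → ℝ | T < |gr V B E x y|} B := by
      intro V V' h
      rw [Set.mem_ofPred_eq, Set.mem_ofPred_eq, gr_congr h]
    exact (Pool.Agent.Mob.H75.PP_le_PL h1).trans (PL_weak hν B E x y hTpos)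
  have hN3 : ∀ s, PP d ν {V | tau s V ∈ Near C m E τ} ≤ ENNReal.ofReal (ρ * (2 * τ)) :=
    fun s => prob_tau_Near hclo hν hm s
  have hcB : (B.card : ℝ) = (6 * L + 1) ^ d := by
    rw [hB, card_box]
    push_cast
    congr 1
    ring
  have hcL : ((box (0 : Site d) L).card : ℝ) = (2 * L + 1) ^ d := by
    rw [card_box]
    push_cast
    rfl
  have hU2 : PP d ν (⋃ x ∈ B, ⋃ y ∈ B, {V | T < |gr V B E x y|}) ≤
      ENNReal.ofReal ((6 * L + 1) ^ (2 * d) * (6 * ρ / T)) := by
    calc PP d ν (⋃ x ∈ B, ⋃ y ∈ B, {V | T < |gr V B E x y|})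
        ≤ ∑ x ∈ B, ∑ y ∈ B, PP d ν {V | T < |gr V B E x y|} := by
          refine (measure_biUnion_finset_le _ _).trans ?_
          exact Finset.sum_le_sum fun x _ => measure_biUnion_finset_le _ _
      _ ≤ ∑ _x ∈ B, ∑ _y ∈ B, ENNReal.ofReal (6 * ρ / T) :=
          Finset.sum_le_sum fun x _ => Finset.sum_le_sum fun y _ => hN2 x y
      _ = ENNReal.ofReal ((6 * L + 1) ^ (2 * d) * (6 * ρ / T)) := by
          rw [Finset.sum_const, Finset.sum_const, nsmul_eq_mul, nsmul_eq_mul,
            ← ENNReal.ofReal_natCast, ← ENNReal.ofReal_mul (Nat.cast_nonneg _),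
            ← ENNReal.ofReal_mul (Nat.cast_nonneg _), hcB]
          congr 1
          ring
  have hU3 : PP d ν (⋃ s ∈ box (0 : Site d) L, {V | tau s V ∈ Near C m E τ}) ≤
      ENNReal.ofReal ((2 * L + 1) ^ d * (ρ * (2 * τ))) := by
    calc PP d ν (⋃ s ∈ box (0 : Site d) L, {V | tau s V ∈ Near C m E τ})
        ≤ ∑ s ∈ box (0 : Site d) L, PP d ν {V | tau s V ∈ Near C m E τ} :=
          measure_biUnion_finset_le _ _
      _ ≤ ∑ _s ∈ box (0 : Site d) L, ENNReal.ofReal (ρ * (2 * τ)) :=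
          Finset.sum_le_sum fun s _ => hN3 s
      _ = ENNReal.ofReal ((2 * L + 1) ^ d * (ρ * (2 * τ))) := by
          rw [Finset.sum_const, nsmul_eq_mul, ← ENNReal.ofReal_natCast,
            ← ENNReal.ofReal_mul (Nat.cast_nonneg _), hcL]
  refine (measure_union_le _ _).trans ?_
  refine (add_le_add (measure_union_le _ _) le_rfl).trans ?_
  rw [hN1, zero_add]
  refine (add_le_add hU2 hU3).trans ?_
  rw [← ENNReal.ofReal_add (by positivity) (by positivity)]
  apply ENNReal.ofReal_le_ofReal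
  have hTi : 6 * ρ / T = 6 * ρ * τ := by
    rw [div_eq_iff hTpos.ne', mul_assoc, mul_comm τ T, hTτ, mul_one]
  have hLnn : (0 : ℝ) ≤ L := Nat.cast_nonneg L
  have h2d : (2 * (L : ℝ) + 1) ^ d ≤ (6 * (L : ℝ) + 1) ^ (2 * d) := by
    calc (2 * (L : ℝ) + 1) ^ d ≤ (6 * (L : ℝ) + 1) ^ d := by
          apply pow_le_pow_left₀ (by positivity)
          linarith only
      _ ≤ (6 * (L : ℝ) + 1) ^ (2 * d) := by
          apply pow_le_pow_right₀
          · linarith only
          · omega
  have h7 : τ = Real.exp (-(m / 16) * L) * Real.exp (-(m / 16) * L) := by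
    rw [hτ, ← Real.exp_add]
    congr 1
    ring
  calc (6 * (L : ℝ) + 1) ^ (2 * d) * (6 * ρ / T) + (2 * (L : ℝ) + 1) ^ d * (ρ * (2 * τ))
      ≤ (6 * (L : ℝ) + 1) ^ (2 * d) * (6 * ρ * τ) +
        (6 * (L : ℝ) + 1) ^ (2 * d) * (ρ * (2 * τ)) := by
        rw [hTi]
        apply add_le_add le_rfl
        exact mul_le_mul_of_nonneg_right h2d (by positivity)
    _ = 8 * ρ * (((6 * (L : ℝ) + 1) ^ (2 * d) * Real.exp (-(m / 16) * L)) *
        Real.exp (-(m / 16) * L)) := by
        rw [h7]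
        ring
    _ ≤ 8 * ρ * (Q * Real.exp (-(m / 16) * L)) := by
        apply mul_le_mul_of_nonneg_left _ (by positivity)
        exact mul_le_mul_of_nonneg_right (hpow L) (Real.exp_pos _).le
    _ = 8 * ρ * Q * Real.exp (-(m / 16) * L) := by ring
    _ ≤ p := hL1

end Pool.Agent.LE.H59
end
end -- Pool.Agent.Helper59_LE.Rst

section -- Pool.Agent.Helper59_LE.Rsx

/-!
# RSX: a decaying solution off the site `0` gives decay of the Green function at the same rate
-/

set_option autoImplicit false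

open MeasureTheory ProbabilityTheory Function Filter

open scoped ENNReal BigOperators Topology

noncomputable section

namespace Pool.Agent.LE.H59R

open Pool.Agent.Anderson Pool.Agent.Loc Pool.Agent.Mob Pool.Agent.Helper54.Bal
  Pool.Agent.Helper96.EXP Pool.Agent.LE.H59

variable {d : ℕ}

theorem bound {C m E T : ℝ} {V n : Site d → ℝ} {L : ℕ} {w : Site d} (hm : 0 < m)
    (hn : Sol C m V E n)
    (hdet : (RM V (box (0 : Site d) L) E).det ≠ 0)
    (hT : ∀ x y, |gr V (box (0 : Site d) L) E x y| ≤ T)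
    (hw : w ∈ box (0 : Site d) L) :
    |E - lapR n 0 - V 0| * |gr V (box (0 : Site d) L) E 0 w| ≤
      C * Real.exp (-m * sd 0 w) +
        (2 * L + 1) ^ d * (T * (2 * d * (C * Real.exp (-m * L)))) := by
  classical
  obtain ⟨hn0, hdec, hsol⟩ := hn
  have hC := hdec.nonneg
  set B := box (0 : Site d) L with hB
  have hT0 : 0 ≤ T := (abs_nonneg _).trans (hT 0 0)
  have hsB : (0 : Site d) ∈ B := mem_box.2 (by rw [sd_self]; exact Nat.zero_le _)
  set κ := E - lapR n 0 - V 0 with hκ
  set β : Site d → ℝ := fun x => ∑ y ∈ (box x 1 ∪ B) \ B, hop x y * n y with hβ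
  have hlap : ∀ x, lapR n x = ∑ y ∈ B, hop x y * n y + β x := by
    intro x
    have h1 := sum_hop x (box x 1 ∪ B) Finset.subset_union_left n
    simp only [smul_eq_mul] at h1
    have h2 : lapR n x = ∑ i : Fin d, (n (x + Pi.single i 1) + n (x - Pi.single i 1)) := rfl
    rw [h2, ← h1, hβ, add_comm]
    simp only
    rw [Finset.sum_sdiff Finset.subset_union_right]
  have hr : ∀ x, E * n x - V x * n x - ∑ y ∈ B, hop x y * n y =
      (if x = 0 then κ else 0) + β x := by
    intro x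
    have h1 := hlap x
    by_cases hx : x = 0
    · subst hx
      rw [if_pos rfl]
      rw [hn0, hκ]
      linarith only [h1]
    · rw [if_neg hx]
      have h2 := hsol x hx
      linarith
  have hβb : ∀ x, |β x| ≤ 2 * d * (C * Real.exp (-m * L)) := by
    intro x
    have h1 : ∀ y ∈ (box x 1 ∪ B) \ B, |hop x y * n y| ≤
        hop x y * (C * Real.exp (-m * L)) := by
      intro y hy
      rw [Finset.mem_sdiff] at hy
      rw [abs_mul, abs_of_nonneg (hop_nonneg x y)]
      apply mul_le_mul_of_nonneg_left _ (hop_nonneg x y)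
      have h2 := hdec y
      refine h2.trans ?_
      apply mul_le_mul_of_nonneg_left _ hC
      rw [Real.exp_le_exp]
      have h3 : L ≤ sd 0 y := by
        have h4 := hy.2
        rw [hB, mem_box] at h4
        omega
      have h3' : (L : ℝ) ≤ sd 0 y := by exact_mod_cast h3
      nlinarith only [hm, h3']
    calc |β x| ≤ ∑ y ∈ (box x 1 ∪ B) \ B, |hop x y * n y| := Finset.abs_sum_le_sum_abs _ _
      _ ≤ ∑ y ∈ (box x 1 ∪ B) \ B, hop x y * (C * Real.exp (-m * L)) :=
        Finset.sum_le_sum h1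
      _ = (∑ y ∈ (box x 1 ∪ B) \ B, hop x y) * (C * Real.exp (-m * L)) := by
        rw [Finset.sum_mul]
      _ ≤ 2 * d * (C * Real.exp (-m * L)) :=
        mul_le_mul_of_nonneg_right (sum_hop_le x _) (by positivity)
  have hrep := repr hdet n hw
  simp_rw [hr, mul_add] at hrep
  rw [Finset.sum_add_distrib] at hrep
  have h5 : ∑ x ∈ B, gr V B E w x * (if x = 0 then κ else 0) = gr V B E w 0 * κ := by
    rw [Finset.sum_eq_single 0]
    · rw [if_pos rfl]
    · intro b _ hb
      rw [if_neg hb, mul_zero]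
    · intro h
      exact absurd hsB h
  rw [h5] at hrep
  have h6 : κ * gr V B E 0 w = n w - ∑ x ∈ B, gr V B E w x * β x := by
    rw [gr_symm V B E 0 w]
    linarith only [hrep]
  rw [← abs_mul, h6]
  have h7 : |n w| ≤ C * Real.exp (-m * sd 0 w) := hdec w
  have h8 : |∑ x ∈ B, gr V B E w x * β x| ≤
      (2 * L + 1) ^ d * (T * (2 * d * (C * Real.exp (-m * L)))) := by
    calc |∑ x ∈ B, gr V B E w x * β x| ≤ ∑ x ∈ B, |gr V B E w x * β x| :=
        Finset.abs_sum_le_sum_abs _ _
      _ ≤ ∑ _x ∈ B, T * (2 * d * (C * Real.exp (-m * L))) := by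
        apply Finset.sum_le_sum
        intro x _
        rw [abs_mul]
        exact mul_le_mul (hT w x) (hβb x) (abs_nonneg _) hT0
      _ = (2 * L + 1) ^ d * (T * (2 * d * (C * Real.exp (-m * L)))) := by
        rw [Finset.sum_const, nsmul_eq_mul, hB, card_box]
        push_cast
        rfl
  calc |n w - ∑ x ∈ B, gr V B E w x * β x| ≤ |n w| + |∑ x ∈ B, gr V B E w x * β x| :=
      abs_sub _ _
    _ ≤ _ := add_le_add h7 h8

theorem threshold {c : ℝ} (hc : 0 < c) (D q : ℝ) (hq : 0 < q) :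
    ∃ L₀ : ℕ, ∀ L : ℕ, L₀ ≤ L → D * Real.exp (-c * L) ≤ q := by
  obtain ⟨L₀, h⟩ := H59.threshold (m := 16 * c) (by positivity) D q hq
  refine ⟨L₀, fun L hL => ?_⟩
  have := h L hL
  rwa [show 16 * c / 16 = c by ring] at this

/-- the exceptional event -/
theorem rsx_prob (hclo : CloStmt) {ν : Measure ℝ} [IsProbabilityMeasure ν] {ρ : ℝ}
    (hν : BddDens ν ρ) {C m E ε : ℝ} (hm : 0 < m) (hε : 0 < ε) {p : ℝ} (hp : 0 < p) :
    ∃ L₀ : ℕ, ∀ L : ℕ, L₀ ≤ L →
      PP d ν {V | GoodE C m V E ∧ ¬ SG V L (m - ε) E 0} ≤ ENNReal.ofReal p := by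
  classical
  have hρ := hν.1
  -- a = ε / 16
  obtain ⟨B', hB'0, hB'⟩ := exists_pow_exp_bound (2 * d) (c := ε / 16) (by positivity)
  set Q : ℝ := 2 ^ (2 * d) * B' with hQ
  have hQ0 : 0 ≤ Q := by positivity
  have hpow : ∀ L : ℕ, (2 * (L : ℝ) + 1) ^ (2 * d) * Real.exp (-(ε / 16) * L) ≤ Q := by
    intro L
    have h1 : (2 * (L : ℝ) + 1) ^ (2 * d) ≤ 2 ^ (2 * d) * ((L : ℝ) + 1) ^ (2 * d) := by
      rw [← mul_pow]
      apply pow_le_pow_left₀ (by positivity)
      linarith
    calc (2 * (L : ℝ) + 1) ^ (2 * d) * Real.exp (-(ε / 16) * L)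
        ≤ 2 ^ (2 * d) * ((L : ℝ) + 1) ^ (2 * d) * Real.exp (-(ε / 16) * L) :=
          mul_le_mul_of_nonneg_right h1 (Real.exp_pos _).le
      _ = 2 ^ (2 * d) * (((L : ℝ) + 1) ^ (2 * d) * Real.exp (-(ε / 16) * L)) := by ring
      _ ≤ Q := mul_le_mul_of_nonneg_left (hB' L) (by positivity)
  obtain ⟨L₁, hL₁⟩ := threshold (c := ε / 16) (by positivity) (8 * ρ * Q) p hp
  obtain ⟨L₂, hL₂⟩ := threshold (c := ε / 16) (by positivity) ((|C| + 2 * d * |C|) * Q) 1 one_pos
  refine ⟨max L₁ L₂, fun L hL => ?_⟩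
  have hL1 := hL₁ L ((le_max_left _ _).trans hL)
  have hL2 := hL₂ L ((le_max_right _ _).trans hL)
  set B := box (0 : Site d) L with hB
  set T : ℝ := Real.exp ((ε / 4) * L) with hT
  set τ : ℝ := Real.exp (-(ε / 4) * L) with hτ
  have hTpos : 0 < T := Real.exp_pos _
  have hτpos : 0 < τ := Real.exp_pos _
  have hLnn : (0 : ℝ) ≤ L := Nat.cast_nonneg L
  have hTτ : T * τ = 1 := by
    rw [hT, hτ, ← Real.exp_add]
    rw [show (ε / 4) * (L : ℝ) + -(ε / 4) * L = 0 by ring, Real.exp_zero]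
  -- the inclusion
  have hsub : {V : Site d → ℝ | GoodE C m V E ∧ ¬ SG V L (m - ε) E 0} ⊆
      ({V | (RM V B E).det = 0} ∪ ⋃ x ∈ B, ⋃ y ∈ B, {V | T < |gr V B E x y|}) ∪
        Near C m E τ := by
    rintro V ⟨⟨n, hn⟩, hns⟩
    by_contra hV
    simp only [Set.mem_union, Set.mem_iUnion, Set.mem_ofPred_eq, not_or, not_exists] at hV
    obtain ⟨⟨hdet, hgT⟩, hnear⟩ := hV
    apply hns
    refine ⟨hdet, fun w hsw => ?_⟩
    have hw : w ∈ B := mem_box.2 hsw.le
    have hgT' : ∀ x y, |gr V B E x y| ≤ T := by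
      intro x y
      by_cases hxy : x ∈ B ∧ y ∈ B
      · exact not_lt.1 (hgT x hxy.1 y hxy.2)
      · unfold gr
        rw [dif_neg hxy, abs_zero]
        exact hTpos.le
    have hC : 0 ≤ C := hn.2.1.nonneg
    have hκ : τ < |E - lapR n 0 - V 0| := by
      by_contra hk
      rw [not_lt] at hk
      apply hnear
      refine ⟨E - lapR n 0 - V 0, abs_le.1 hk, n, hn, ?_⟩
      ring
    have hb := bound hm hn hdet hgT' hw
    rw [hsw] at hb
    have h1 : τ * |gr V B E 0 w| ≤ |E - lapR n 0 - V 0| * |gr V B E 0 w| :=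
      mul_le_mul_of_nonneg_right hκ.le (abs_nonneg _)
    -- the two terms against `τ * exp (-(m - ε) L)`
    set G : ℝ := Real.exp (-(m - ε) * L) with hG
    have hGpos : 0 < G := Real.exp_pos _
    have h3 : Real.exp (-m * L) ≤ τ * G * Real.exp (-(ε / 8) * L) := by
      rw [hτ, hG, ← Real.exp_add, ← Real.exp_add, Real.exp_le_exp]
      nlinarith only [hε]
    have h4 : T * Real.exp (-m * L) ≤ τ * G * Real.exp (-(ε / 8) * L) := by
      rw [hT, hτ, hG, ← Real.exp_add, ← Real.exp_add, ← Real.exp_add, Real.exp_le_exp]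
      nlinarith only [hε]
    have h5 : C * Real.exp (-m * L) +
        (2 * L + 1) ^ d * (T * (2 * d * (C * Real.exp (-m * L)))) ≤ τ * G := by
      have hpos : (1 : ℝ) ≤ (2 * (L : ℝ) + 1) ^ d := by
        apply one_le_pow₀
        linarith only
      have h6 : (2 * (L : ℝ) + 1) ^ d ≤ (2 * (L : ℝ) + 1) ^ (2 * d) := by
        apply pow_le_pow_right₀
        · linarith only
        · omega
      have h7 : Real.exp (-(ε / 8) * L) =
          Real.exp (-(ε / 16) * L) * Real.exp (-(ε / 16) * L) := by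
        rw [← Real.exp_add]
        congr 1
        ring
      have h8 : (2 * (L : ℝ) + 1) ^ d * Real.exp (-(ε / 8) * L) ≤
          Q * Real.exp (-(ε / 16) * L) := by
        rw [h7, ← mul_assoc]
        apply mul_le_mul_of_nonneg_right _ (Real.exp_pos _).le
        exact (mul_le_mul_of_nonneg_right h6 (Real.exp_pos _).le).trans (hpow L)
      calc C * Real.exp (-m * L) +
          (2 * L + 1) ^ d * (T * (2 * d * (C * Real.exp (-m * L))))
          = C * Real.exp (-m * L) +
          2 * d * C * ((2 * L + 1) ^ d * (T * Real.exp (-m * L))) := by ring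
        _ ≤ C * (τ * G * Real.exp (-(ε / 8) * L)) +
          2 * d * C * ((2 * L + 1) ^ d * (τ * G * Real.exp (-(ε / 8) * L))) := by
          apply add_le_add
          · exact mul_le_mul_of_nonneg_left h3 hC
          · apply mul_le_mul_of_nonneg_left _ (by positivity)
            exact mul_le_mul_of_nonneg_left h4 (by positivity)
        _ ≤ C * ((2 * L + 1) ^ d * (τ * G * Real.exp (-(ε / 8) * L))) +
          2 * d * C * ((2 * L + 1) ^ d * (τ * G * Real.exp (-(ε / 8) * L))) := by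
          apply add_le_add _ le_rfl
          apply mul_le_mul_of_nonneg_left _ hC
          exact le_mul_of_one_le_left (by positivity) hpos
        _ = (τ * G) * ((C + 2 * d * C) * ((2 * (L : ℝ) + 1) ^ d * Real.exp (-(ε / 8) * L))) := by
          ring
        _ ≤ (τ * G) * ((C + 2 * d * C) * (Q * Real.exp (-(ε / 16) * L))) := by
          apply mul_le_mul_of_nonneg_left _ (by positivity)
          exact mul_le_mul_of_nonneg_left h8 (by positivity)
        _ ≤ (τ * G) * 1 := by
          apply mul_le_mul_of_nonneg_left _ (by positivity)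
          rw [abs_of_nonneg hC] at hL2
          linarith only [hL2]
        _ = τ * G := mul_one _
    have h9 : τ * |gr V B E 0 w| ≤ τ * G := h1.trans (hb.trans h5)
    exact le_of_mul_le_mul_left h9 hτpos
  refine (measure_mono hsub).trans ?_
  -- the three probabilities
  have hN1 : PP d ν {V | (RM V B E).det = 0} = 0 := by
    have h1 : Pool.Agent.Mob.H75.Loc {V : Site d → ℝ | (RM V B E).det = 0} B := by
      intro V V' h
      rw [Set.mem_ofPred_eq, Set.mem_ofPred_eq, RM_congr h]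
    exact le_antisymm ((Pool.Agent.Mob.H75.PP_le_PL h1).trans (PL_det hν B B le_rfl E).le) zero_le
  have hN2 : ∀ x y, PP d ν {V | T < |gr V B E x y|} ≤ ENNReal.ofReal (6 * ρ / T) := by
    intro x y
    have h1 : Pool.Agent.Mob.H75.Loc {V : Site d → ℝ | T < |gr V B E x y|} B := by
      intro V V' h
      rw [Set.mem_ofPred_eq, Set.mem_ofPred_eq, gr_congr h]
    exact (Pool.Agent.Mob.H75.PP_le_PL h1).trans (PL_weak hν B E x y hTpos)
  have hN3 : PP d ν (Near C m E τ) ≤ ENNReal.ofReal (ρ * (2 * τ)) := prob_Near hclo hν hm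
  have hcB : (B.card : ℝ) = (2 * L + 1) ^ d := by
    rw [hB, card_box]
    push_cast
    rfl
  have hU2 : PP d ν (⋃ x ∈ B, ⋃ y ∈ B, {V | T < |gr V B E x y|}) ≤
      ENNReal.ofReal ((2 * L + 1) ^ (2 * d) * (6 * ρ / T)) := by
    calc PP d ν (⋃ x ∈ B, ⋃ y ∈ B, {V | T < |gr V B E x y|})
        ≤ ∑ x ∈ B, ∑ y ∈ B, PP d ν {V | T < |gr V B E x y|} := by
          refine (measure_biUnion_finset_le _ _).trans ?_
          exact Finset.sum_le_sum fun x _ => measure_biUnion_finset_le _ _
      _ ≤ ∑ _x ∈ B, ∑ _y ∈ B, ENNReal.ofReal (6 * ρ / T) :=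
          Finset.sum_le_sum fun x _ => Finset.sum_le_sum fun y _ => hN2 x y
      _ = ENNReal.ofReal ((2 * L + 1) ^ (2 * d) * (6 * ρ / T)) := by
          rw [Finset.sum_const, Finset.sum_const, nsmul_eq_mul, nsmul_eq_mul,
            ← ENNReal.ofReal_natCast, ← ENNReal.ofReal_mul (Nat.cast_nonneg _),
            ← ENNReal.ofReal_mul (Nat.cast_nonneg _), hcB]
          congr 1
          ring
  refine (measure_union_le _ _).trans ?_
  refine (add_le_add (measure_union_le _ _) le_rfl).trans ?_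
  rw [hN1, zero_add]
  refine (add_le_add hU2 hN3).trans ?_
  rw [← ENNReal.ofReal_add (by positivity) (by positivity)]
  apply ENNReal.ofReal_le_ofReal
  have hTi : 6 * ρ / T = 6 * ρ * τ := by
    rw [div_eq_iff hTpos.ne', mul_assoc, mul_comm τ T, hTτ, mul_one]
  have h2d : (1 : ℝ) ≤ (2 * (L : ℝ) + 1) ^ (2 * d) := by
    apply one_le_pow₀
    linarith only
  have h7 : τ ≤ Real.exp (-(ε / 16) * L) * Real.exp (-(ε / 16) * L) := by
    rw [hτ, ← Real.exp_add, Real.exp_le_exp]
    nlinarith only [hε]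
  calc (2 * (L : ℝ) + 1) ^ (2 * d) * (6 * ρ / T) + ρ * (2 * τ)
      ≤ (2 * (L : ℝ) + 1) ^ (2 * d) * (6 * ρ * τ) +
        (2 * (L : ℝ) + 1) ^ (2 * d) * (ρ * (2 * τ)) := by
        rw [hTi]
        apply add_le_add le_rfl
        exact le_mul_of_one_le_left (by positivity) h2d
    _ = 8 * ρ * (2 * (L : ℝ) + 1) ^ (2 * d) * τ := by ring
    _ ≤ 8 * ρ * (2 * (L : ℝ) + 1) ^ (2 * d) *
        (Real.exp (-(ε / 16) * L) * Real.exp (-(ε / 16) * L)) :=
        mul_le_mul_of_nonneg_left h7 (by positivity)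
    _ = 8 * ρ * (((2 * (L : ℝ) + 1) ^ (2 * d) * Real.exp (-(ε / 16) * L)) *
        Real.exp (-(ε / 16) * L)) := by ring
    _ ≤ 8 * ρ * (Q * Real.exp (-(ε / 16) * L)) := by
        apply mul_le_mul_of_nonneg_left _ (by positivity)
        exact mul_le_mul_of_nonneg_right (hpow L) (Real.exp_pos _).le
    _ = 8 * ρ * Q * Real.exp (-(ε / 16) * L) := by ring
    _ ≤ p := hL1

theorem rsx_of (hclo : CloStmt) : RsxStmt := by
  intro d σ E C m ε _ hσ hm hε hne
  set P := PP d (gl σ) {V | GoodE C m V E} with hP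
  have hPtop : P ≠ ⊤ := measure_ne_top _ _
  set δ : ℝ := P.toReal / 2 with hδ
  have hPpos : 0 < P.toReal := ENNReal.toReal_pos hne hPtop
  have hδpos : 0 < δ := by positivity
  obtain ⟨L₀, hL₀⟩ := rsx_prob (d := d) hclo (bddDens_gl hσ) (C := C) (m := m) (E := E) hm hε
    hδpos
  refine ⟨δ, hδpos, L₀, fun L hL => ?_⟩
  have h1 := hL₀ L hL
  have h2 : P ≤ PP d (gl σ) {V | SG V L (m - ε) E 0} +
      PP d (gl σ) {V | GoodE C m V E ∧ ¬ SG V L (m - ε) E 0} := by
    rw [hP]
    refine (measure_mono ?_).trans (measure_union_le _ _)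
    intro V hV
    by_cases h : SG V L (m - ε) E 0
    · exact Or.inl h
    · exact Or.inr ⟨hV, h⟩
  have h3 : P = ENNReal.ofReal δ + ENNReal.ofReal δ := by
    rw [← ENNReal.ofReal_add hδpos.le hδpos.le, hδ, add_halves, ENNReal.ofReal_toReal hPtop]
  have h4 : ENNReal.ofReal δ + ENNReal.ofReal δ ≤ PP d (gl σ) {V | SG V L (m - ε) E 0} +
      ENNReal.ofReal δ := by
    rw [← h3]
    exact h2.trans (add_le_add le_rfl h1)
  exact (ENNReal.add_le_add_iff_right ENNReal.ofReal_ne_top).1 h4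

theorem rsx : RsxStmt := rsx_of Pool.Agent.LE.H77.clo

end Pool.Agent.LE.H59R
end
end -- Pool.Agent.Helper59_LE.Rsx

section -- Pool.Agent.Helper77_LE.Fex

/-!
# FEX: decay of the Green function gives decay of the solutions off the site `0` at the same rate
-/

set_option autoImplicit false

open MeasureTheory ProbabilityTheory Function Filter

open scoped ENNReal BigOperators Topology

noncomputable section

namespace Pool.Agent.LE.H77F

open Pool.Agent.Anderson Pool.Agent.Loc Pool.Agent.Mob Pool.Agent.Helper54.Bal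
  Pool.Agent.Helper96.EXP

variable {d : ℕ}

/-- the value at the centre of a good cube which does not contain `0` -/
theorem value {C m E g : ℝ} {V n : Site d → ℝ} {L : ℕ} {y : Site d} (hm : 0 < m)
    (hn : Sol C m V E n) (hg : SG V L g E y) (h0 : L < sd 0 y) :
    |n y| ≤ (2 * L + 1) ^ d * (Real.exp (-g * L) * (2 * d * C)) := by
  classical
  obtain ⟨hn0, hdec, hsol⟩ := hn
  have hC := hdec.nonneg
  obtain ⟨hdet, hgr⟩ := hg
  set B := box y L with hB
  have hyB : y ∈ B := by rw [hB, mem_box, sd_self]; exact Nat.zero_le _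
  have hB0 : ∀ x ∈ B, x ≠ 0 := by
    intro x hx h
    rw [h, hB, mem_box, sd_comm] at hx
    omega
  set β : Site d → ℝ := fun x => ∑ z ∈ (box x 1 ∪ B) \ B, hop x z * n z with hβ
  have hr : ∀ x ∈ B, E * n x - V x * n x - ∑ z ∈ B, hop x z * n z = β x := by
    intro x hx
    have h1 := sum_hop x (box x 1 ∪ B) Finset.subset_union_left n
    simp only [smul_eq_mul] at h1
    have h2 : lapR n x = ∑ z ∈ B, hop x z * n z + β x := by
      unfold lapR
      rw [← h1, hβ, add_comm]
      simp only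
      rw [Finset.sum_sdiff Finset.subset_union_right]
    have h3 := hsol x (hB0 x hx)
    linarith only [h2, h3]
  have hβb : ∀ x, |β x| ≤ 2 * d * C := by
    intro x
    have h1 : ∀ z ∈ (box x 1 ∪ B) \ B, |hop x z * n z| ≤ hop x z * C := by
      intro z _
      rw [abs_mul, abs_of_nonneg (hop_nonneg x z)]
      exact mul_le_mul_of_nonneg_left (hdec.abs_le hm z) (hop_nonneg x z)
    calc |β x| ≤ ∑ z ∈ (box x 1 ∪ B) \ B, |hop x z * n z| := Finset.abs_sum_le_sum_abs _ _
      _ ≤ ∑ z ∈ (box x 1 ∪ B) \ B, hop x z * C := Finset.sum_le_sum h1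
      _ = (∑ z ∈ (box x 1 ∪ B) \ B, hop x z) * C := by rw [Finset.sum_mul]
      _ ≤ 2 * d * C := mul_le_mul_of_nonneg_right (sum_hop_le x _) hC
  have hβ0 : ∀ x ∈ B, sd y x ≠ L → β x = 0 := by
    intro x hx hne
    have hlt : sd y x < L := lt_of_le_of_ne (mem_box.1 hx) hne
    refine Finset.sum_eq_zero fun z hz => ?_
    rw [Finset.mem_sdiff] at hz
    have h1 : hop x z = 0 := by
      by_contra h
      have h2 := sd_of_hop h
      apply hz.2
      rw [hB, mem_box]
      have := sd_triangle y x z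
      omega
    rw [h1, zero_mul]
  have hrep := H59.repr hdet n hyB
  rw [Finset.sum_congr rfl fun x hx => by rw [hr x hx]] at hrep
  rw [hrep]
  calc |∑ x ∈ B, gr V B E y x * β x| ≤ ∑ x ∈ B, |gr V B E y x * β x| :=
      Finset.abs_sum_le_sum_abs _ _
    _ ≤ ∑ _x ∈ B, Real.exp (-g * L) * (2 * d * C) := by
      refine Finset.sum_le_sum fun x hx => ?_
      by_cases h : sd y x = L
      · rw [abs_mul]
        exact mul_le_mul (hgr x h) (hβb x) (abs_nonneg _) (Real.exp_pos _).le
      · rw [hβ0 x hx h, mul_zero, abs_zero]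
        positivity
    _ = (2 * L + 1) ^ d * (Real.exp (-g * L) * (2 * d * C)) := by
      rw [Finset.sum_const, nsmul_eq_mul, hB, card_box]
      congr 1
      push_cast
      ring

/-- the probability that some cube about a site at distance `L + 1` is bad -/
theorem prob_bad {ν : Measure ℝ} [IsProbabilityMeasure ν] {E g : ℝ} {L : ℕ} (hL : 1 ≤ L)
    (h : PP d ν {V | ¬ SG V L g E 0} ≤ ENNReal.ofReal ((L : ℝ) ^ (-((d : ℝ) + 2)))) :
    PP d ν {V | ∃ y : Site d, sd 0 y = L + 1 ∧ ¬ SG V L g E y} ≤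
      ENNReal.ofReal (5 ^ d * (1 / (L : ℝ) ^ 2)) := by
  have hset : {V : Site d → ℝ | ∃ y : Site d, sd 0 y = L + 1 ∧ ¬ SG V L g E y} ⊆
      ⋃ y ∈ box (0 : Site d) (L + 1), {V | ¬ SG V L g E y} := by
    rintro V ⟨y, hy, hb⟩
    rw [Set.mem_iUnion₂]
    exact ⟨y, mem_box.2 hy.le, hb⟩
  have hone : ∀ y : Site d, PP d ν {V | ¬ SG V L g E y} =
      PP d ν {V | ¬ SG V L g E 0} := by
    intro y
    have h1 := (shiftInv_PP (d := d) (μ := ν) y).measure_preimage
      (s := {V | ¬ SG V L g E 0}) (H3A.measurableSet_sg L g E 0).compl.nullMeasurableSet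
    rw [← h1]
    refine congrArg (fun s => PP d ν s) (Set.ext fun V => ?_)
    rw [Set.mem_preimage, Set.mem_ofPred_eq, Set.mem_ofPred_eq, H3A.sg_tau, zero_add]
  have hL' : (1 : ℝ) ≤ L := by exact_mod_cast hL
  have hL0 : (0 : ℝ) < L := by linarith only [hL']
  have hpow : (L : ℝ) ^ (-((d : ℝ) + 2)) = 1 / (L : ℝ) ^ (d + 2) := by
    rw [Real.rpow_neg hL0.le, one_div]
    congr 1
    rw [← Real.rpow_natCast]
    push_cast
    rfl
  calc PP d ν {V | ∃ y : Site d, sd 0 y = L + 1 ∧ ¬ SG V L g E y} ≤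
        PP d ν (⋃ y ∈ box (0 : Site d) (L + 1), {V | ¬ SG V L g E y}) := measure_mono hset
    _ ≤ ∑ y ∈ box (0 : Site d) (L + 1), PP d ν {V | ¬ SG V L g E y} :=
      measure_biUnion_finset_le _ _
    _ = (box (0 : Site d) (L + 1)).card • PP d ν {V | ¬ SG V L g E 0} := by
      rw [Finset.sum_congr rfl fun y _ => hone y, Finset.sum_const]
    _ ≤ (box (0 : Site d) (L + 1)).card • ENNReal.ofReal (1 / (L : ℝ) ^ (d + 2)) := by
      rw [← hpow]
      exact nsmul_le_nsmul_right h _
    _ = ENNReal.ofReal (((box (0 : Site d) (L + 1)).card : ℝ) * (1 / (L : ℝ) ^ (d + 2))) := by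
      rw [ENNReal.ofReal_mul (Nat.cast_nonneg _), ENNReal.ofReal_natCast, nsmul_eq_mul]
    _ ≤ ENNReal.ofReal (5 ^ d * (1 / (L : ℝ) ^ 2)) := by
      refine ENNReal.ofReal_le_ofReal ?_
      rw [card_box, pow_add]
      push_cast
      have h5 : (2 * ((L : ℝ) + 1) + 1) ^ d ≤ (5 * (L : ℝ)) ^ d :=
        pow_le_pow_left₀ (by positivity) (by linarith only [hL']) d
      have h6 : 1 / ((L : ℝ) ^ d * (L : ℝ) ^ 2) = (1 / (L : ℝ) ^ d) * (1 / (L : ℝ) ^ 2) := by
        rw [one_div_mul_one_div]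
      rw [h6, ← mul_assoc]
      refine mul_le_mul_of_nonneg_right ?_ (by positivity)
      calc (2 * ((L : ℝ) + 1) + 1) ^ d * (1 / (L : ℝ) ^ d) ≤
          (5 * (L : ℝ)) ^ d * (1 / (L : ℝ) ^ d) := mul_le_mul_of_nonneg_right h5 (by positivity)
        _ = 5 ^ d := by
          rw [mul_pow]
          field_simp

theorem fex : FexStmt := by
  intro d ν _ E g c C m hm hcg hex
  obtain ⟨L₀, hL₀⟩ := hex
  set s : ℕ → Set (Site d → ℝ) := fun L =>
    if L₀ + 1 ≤ L then {V | ∃ y : Site d, sd 0 y = L + 1 ∧ ¬ SG V L g E y} else ∅ with hs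
  have hsum : (∑' L, PP d ν (s L)) ≠ ∞ := by
    have h1 : Summable fun L : ℕ => (5 : ℝ) ^ d * (1 / (L : ℝ) ^ 2) :=
      (Real.summable_one_div_nat_pow.2 one_lt_two).mul_left _
    refine ne_top_of_le_ne_top h1.tsum_ofReal_ne_top (ENNReal.tsum_le_tsum fun L => ?_)
    simp only [hs]
    split_ifs with h
    · exact prob_bad (by omega) (hL₀ L (by omega))
    · rw [measure_empty]
      exact zero_le
  filter_upwards [ae_eventually_notMem hsum] with V hV n hn
  obtain ⟨r₁, hr₁⟩ := eventually_atTop.1 hV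
  have hC := hn.2.1.nonneg
  obtain ⟨r₂, hr₂⟩ := eventually_atTop.1
    (((tendsto_poly_exp d (sub_pos.2 hcg) 1 (2 * d)).eventually
      (eventually_lt_nhds (show (0 : ℝ) < 1 by norm_num))).mono fun _ h => h.le)
  set R := max (max r₁ r₂) (L₀ + 1) + 1 with hR
  refine ⟨C * Real.exp (|c| * (R + 1)), fun y => ?_⟩
  have hca : c ≤ |c| := le_abs_self c
  have hca' : -|c| ≤ c := neg_abs_le c
  by_cases hy : sd 0 y ≤ R
  · refine (hn.2.1.abs_le hm y).trans ?_
    rw [mul_assoc, ← Real.exp_add]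
    have h1 : (sd 0 y : ℝ) ≤ R := by exact_mod_cast hy
    have h2 : 0 ≤ |c| * (R + 1) + -c * sd 0 y := by
      have h3 : c * (sd 0 y : ℝ) ≤ |c| * R := by
        calc c * (sd 0 y : ℝ) ≤ |c| * sd 0 y := mul_le_mul_of_nonneg_right hca (Nat.cast_nonneg _)
          _ ≤ |c| * R := mul_le_mul_of_nonneg_left h1 (abs_nonneg c)
      have h4 := abs_nonneg c
      nlinarith only [hca, hca', h3]
    calc C = C * 1 := (mul_one C).symm
      _ ≤ C * Real.exp (|c| * (R + 1) + -c * sd 0 y) :=
        mul_le_mul_of_nonneg_left (Real.one_le_exp h2) hC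
  · push Not at hy
    obtain ⟨L, hL⟩ : ∃ L, sd 0 y = L + 1 := ⟨sd 0 y - 1, by omega⟩
    have hLR : R ≤ L := by omega
    have hg : SG V L g E y := by
      by_contra hcon
      refine hr₁ L (by omega) ?_
      simp only [hs]
      rw [if_pos (by omega)]
      exact ⟨y, hL, hcon⟩
    refine (value hm hn hg (by omega)).trans ?_
    have h1 := hr₂ L (by omega)
    have h2 : Real.exp (-g * L) = Real.exp (-(g - c) * L) * Real.exp (-c * L) := by
      rw [← Real.exp_add]
      congr 1
      ring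
    rw [h2, hL]
    calc (2 * (L : ℝ) + 1) ^ d * (Real.exp (-(g - c) * L) * Real.exp (-c * L) * (2 * d * C)) =
        (2 * d * (2 * (L : ℝ) + 1) ^ d * Real.exp (-(g - c) * L)) * (C * Real.exp (-c * L)) := by
          ring
      _ ≤ 1 * (C * Real.exp (-c * L)) :=
        mul_le_mul_of_nonneg_right h1 (mul_nonneg hC (Real.exp_pos _).le)
      _ ≤ C * Real.exp (|c| * (R + 1)) * Real.exp (-c * ((L + 1 : ℕ) : ℝ)) := by
        rw [one_mul, mul_assoc, ← Real.exp_add]
        refine mul_le_mul_of_nonneg_left (Real.exp_le_exp.2 ?_) hC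
        push_cast
        have h3 : 0 ≤ |c| * R := by positivity
        nlinarith only [hca, h3]

end Pool.Agent.LE.H77F
end
end -- Pool.Agent.Helper77_LE.Fex

section -- Pool.Agent.Helper96_LE.Exj

/-!
# EXJ: decay at least at the rate of the Lyapunov exponent, normalized at `0`
-/

set_option autoImplicit false

open MeasureTheory ProbabilityTheory Function Filter

open scoped ENNReal BigOperators Topology

noncomputable section

namespace Pool.Agent.LE.H96

open Pool.Agent.Anderson Pool.Agent.Loc Pool.Agent.Mob Pool.Agent.Helper54.Bal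
  Pool.Agent.Helper96.EXP

variable {d : ℕ}

theorem dec_mono {C C' m m' : ℝ} {n : Site d → ℝ} (hC : C ≤ C') (hm : m' ≤ m) (h : Dec C m n) :
    Dec C' m' n := by
  intro x
  have h0 := h.nonneg
  refine (h x).trans ?_
  have h1 : Real.exp (-m * sd 0 x) ≤ Real.exp (-m' * sd 0 x) := by
    apply Real.exp_le_exp.2
    have : (0 : ℝ) ≤ sd 0 x := by positivity
    nlinarith only [hm]
  have h2 := Real.exp_pos (-m' * sd (0 : Site d) x)
  calc C * Real.exp (-m * sd 0 x) ≤ C * Real.exp (-m' * sd 0 x) :=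
        mul_le_mul_of_nonneg_left h1 h0
    _ ≤ C' * Real.exp (-m' * sd 0 x) := mul_le_mul_of_nonneg_right hC h2.le

theorem sol_mono {C C' m m' E : ℝ} {V n : Site d → ℝ} (hC : C ≤ C') (hm : m' ≤ m)
    (h : Sol C m V E n) : Sol C' m' V E n :=
  ⟨h.1, dec_mono hC hm h.2.1, h.2.2⟩

theorem lapR_sub (n n' : Site d → ℝ) (x : Site d) :
    lapR (fun z => n z - n' z) x = lapR n x - lapR n' x := by
  unfold lapR
  rw [← Finset.sum_sub_distrib]
  exact Finset.sum_congr rfl fun i _ => by ring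

/-- two decaying eigenfunctions with value `1` at `0` and the same energy -/
theorem uniq {C m C' m' E : ℝ} {V n n' : Site d → ℝ} (hm : 0 < m) (hm' : 0 < m')
    (hn : Sol C m V E n) (hn' : Sol C' m' V E n')
    (hsim : ∀ w : Site d → ℝ,
      (∃ B m' : ℝ, 0 < m' ∧ ∀ x, |w x| ≤ B * Real.exp (-m' * sd 0 x)) →
      (∀ x, lapR w x + V x * w x = E * w x) → w 0 = 0 → ∀ x, w x = 0) : n = n' := by
  have h1 : Sol (max C C') (min m m') V E n := sol_mono (le_max_left _ _) (min_le_left _ _) hn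
  have h2 : Sol (max C C') (min m m') V E n' := sol_mono (le_max_right _ _) (min_le_right _ _) hn'
  have hmm : 0 < min m m' := lt_min hm hm'
  have hk := key hmm h1 h2
  have e0 : lapR n 0 = lapR n' 0 := by
    have : (E - E) = 0 := sub_self E
    rw [this, zero_mul] at hk
    linarith only [hk]
  have hw := hsim (fun x => n x - n' x) ⟨max C C' + max C C', min m m', hmm, fun x => ?_⟩
    (fun x => ?_) (by rw [h1.1, h2.1, sub_self])
  · funext x
    have := hw x
    linarith only [this]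
  · have a1 := h1.2.1 x
    have a2 := h2.2.1 x
    calc |n x - n' x| ≤ |n x| + |n' x| := abs_sub _ _
      _ ≤ _ := by linarith
  · rw [lapR_sub]
    by_cases hx : x = 0
    · subst hx
      rw [h1.1, h2.1, e0]
      ring
    · have a1 := h1.2.2 x hx
      have a2 := h2.2.2 x hx
      linear_combination a1 - a2

theorem meas_gt {γ : ℝ → ℝ} (h : ∀ c : ℝ, MeasurableSet {E : ℝ | γ E < c}) (c : ℝ) :
    MeasurableSet {E : ℝ | c < γ E} := by
  have e : {E : ℝ | c < γ E} = (⋂ k : ℕ, {E : ℝ | γ E < c + 1 / ((k : ℝ) + 1)})ᶜ := by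
    ext E
    simp only [Set.mem_ofPred_eq, Set.mem_compl_iff, Set.mem_iInter, not_forall, not_lt]
    constructor
    · intro hE
      obtain ⟨k, hk⟩ := exists_nat_one_div_lt (sub_pos.2 hE)
      exact ⟨k, by linarith only [hk]⟩
    · rintro ⟨k, hk⟩
      have : (0 : ℝ) < 1 / ((k : ℝ) + 1) := by positivity
      linarith
  rw [e]
  exact (MeasurableSet.iInter fun k => h _).compl

theorem exj (gen : GenStmt) (sim : SimStmt) (fex : FexStmt) (sma : SmaStmt) (alg : AlgStmt)
    (mes : MesStmt) (clo : CloStmt) : ExjStmt := by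
  intro d σ γ hd hσ hγ C m c K hm hc hK
  have hν := bddDens_gl hσ
  set B : Set ((Site d → ℝ) × ℝ) := {p | c < γ p.2 ∧ ∀ b : ℕ, ¬ GoodE (b : ℝ) c p.1 p.2} with hB
  have hBm : MeasurableSet B := by
    have e : B = (Prod.snd ⁻¹' {E : ℝ | c < γ E}) ∩
        ⋂ b : ℕ, {p : (Site d → ℝ) × ℝ | GoodE (b : ℝ) c p.1 p.2}ᶜ := by
      ext p
      simp only [hB, Set.mem_ofPred_eq, Set.mem_inter_iff, Set.mem_preimage, Set.mem_iInter,
        Set.mem_compl_iff]
    rw [e]
    refine (measurable_snd (meas_gt (mes d σ γ hd hσ hγ) c)).inter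
      (MeasurableSet.iInter fun b => ?_)
    exact (clo d (b : ℝ) c).1.measurableSet.compl
  have hinv : ∀ (V : Site d → ℝ) (r E : ℝ), (V, E) ∈ B ↔ (Function.update V 0 r, E) ∈ B := by
    intro V r E
    simp only [hB, Set.mem_ofPred_eq, GoodE, H85.sol_update]
  -- one energy
  have hone : ∀ E : ℝ, c < γ E → PP d (gl σ) {V | GoodE C m V E ∧ (V, E) ∈ B} = 0 := by
    intro E hE
    set ε := (γ E - c) / 4 with hε
    have hε0 : 0 < ε := by rw [hε]; linarith only [hE]
    have h1 := alg d σ E (γ E) ε hd hσ (hγ E) hε0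
    obtain ⟨L₀, hL₀⟩ := sma d σ E (γ E - ε) ε ((d : ℝ) + 2) hd hσ hε0 (by rw [hε]; linarith only [hc, hE]) h1
    have hsub : ∀ L : ℕ, {V : Site d → ℝ | ¬ SG V L (γ E - ε - ε) E 0} ⊆
        {V | ¬ AllGoodC V 0 L (γ E - ε - ε) E} := by
      intro L V hV hcon
      exact hV (hcon 0 (by rw [mem_box, sd_self]; exact Nat.zero_le _))
    have h2 := fex d (gl σ) E (γ E - ε - ε) c C m hm (by rw [hε]; linarith only [hE]) ⟨L₀, fun L hL =>
      (measure_mono (hsub L)).trans (hL₀ L hL)⟩
    rw [ae_iff] at h2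
    refine measure_mono_null ?_ h2
    rintro V ⟨⟨n, hn⟩, -, hb⟩
    simp only [Set.mem_ofPred_eq, not_forall]
    refine ⟨n, hn, ?_⟩
    rintro ⟨B', hB'⟩
    obtain ⟨b, hbb⟩ := exists_nat_ge B'
    exact hb b ⟨n, hn.1, dec_mono hbb le_rfl hB', hn.2.2⟩
  have hgen := gen d (gl σ) (1 / |σ|) hν C m K B hm hK hBm hinv
    (Filter.Eventually.of_forall fun E => by
      by_cases hE : c < γ E
      · exact hone E hE
      · have e : {V : Site d → ℝ | GoodE C m V E ∧ (V, E) ∈ B} = ∅ := by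
          ext V
          simp only [hB, Set.mem_ofPred_eq, Set.mem_empty_iff_false, iff_false]
          exact fun h => hE h.2.1
        rw [e]
        exact measure_empty)
  have hsim := sim d (gl σ) (1 / |σ|) hν C m hm
  have hgen' : ∀ᵐ V ∂(PP d (gl σ)), ¬ ∃ E ∈ K, (V, E) ∈ B ∧
      ∃ n, Sol C m V E n ∧ lapR n 0 + V 0 = E := by
    rw [ae_iff]
    simpa only [not_not] using hgen
  filter_upwards [hgen', hsim] with V h1 h2 E hE hcE n hn he
  have h3 : ∃ b : ℕ, GoodE (b : ℝ) c V E := by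
    by_contra hcon
    push Not at hcon
    exact h1 ⟨E, hE, ⟨hcE, hcon⟩, n, hn, he⟩
  obtain ⟨b, n', hn'⟩ := h3
  have h4 := uniq hm hc hn hn' (h2 E n hn he)
  rw [h4]
  exact ⟨b, hn'.2.1⟩

/-- EXI: no decay faster than the Lyapunov exponent, normalized at `0`. -/
theorem exi (gen : GenStmt) (rsx : RsxStmt) (mes : MesStmt) : ExiStmt := by
  intro d σ γ hd hσ hγ C c K hc hK
  have hν := bddDens_gl hσ
  have h1 := gen d (gl σ) (1 / |σ|) hν C c K {p | γ p.2 < c} hc hK
    (measurable_snd (mes d σ γ hd hσ hγ c)) (fun V r E => Iff.rfl)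
    (Filter.Eventually.of_forall fun E => ?_)
  · exact h1
  · by_cases hE : γ E < c
    · have h2 : PP d (gl σ) {V | GoodE C c V E} = 0 := by
        by_contra hcon
        set ε := (c - γ E) / 2 with hε
        have hε0 : 0 < ε := by rw [hε]; linarith only [hE]
        obtain ⟨δ, hδ, L₀, hL₀⟩ := rsx d σ E C c ε hd hσ hc hε0 hcon
        have h3 := ((hγ E).2 ε hε0).1
        have h4 : ENNReal.ofReal δ ≤ 0 := by
          refine ge_of_tendsto h3 ?_
          filter_upwards [Filter.eventually_ge_atTop L₀] with L hL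
          have h5 := hL₀ L hL
          have e : c - ε = γ E + ε := by rw [hε]; ring
          rwa [e] at h5
        rw [nonpos_iff_eq_zero, ENNReal.ofReal_eq_zero] at h4
        linarith only [hδ, h4]
      exact measure_mono_null (fun V h => h.1) h2
    · have e : {V : Site d → ℝ | GoodE C c V E ∧ (V, E) ∈ {p : (Site d → ℝ) × ℝ | γ p.2 < c}} =
          ∅ := by
        ext V
        simp only [Set.mem_ofPred_eq, Set.mem_empty_iff_false, iff_false]
        exact fun h => hE h.2
      rw [e]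
      exact measure_empty

end Pool.Agent.LE.H96
end
end -- Pool.Agent.Helper96_LE.Exj
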