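import Pool.Agent.Helper12_MEB.B034
import Pool.Agent.Helper12_MEB.B039

/-!
# Merged copies (generated) of the modules

* `Pool.Agent.Helper29_Mob.Ce3`
-/

set_option autoImplicit false

section -- Pool.Agent.Helper29_Mob.Ce3

/-!
# Metal-insulator transport transition, module CE3: good cells at the larger scale
-/

set_option autoImplicit false
set_option linter.unusedSectionVars false

open MeasureTheory ProbabilityTheory Function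

open scoped ENNReal BigOperators InnerProductSpace

noncomputable section

namespace Pool.Agent.Mob.H29

open Pool.Agent.Anderson Pool.Agent.Loc Pool.Agent.Helper54.Bal Pool.Agent.Mob

variable {d : ℕ}

theorem cellG2_congr {V V' : Site d → ℝ} {c : Site d} {ℓ : ℕ} {γ E : ℝ}
    (h : ∀ x ∈ box c (3 * ℓ), V x = V' x) : CellG2 V c ℓ γ E ↔ CellG2 V' c ℓ γ E := by
  unfold CellG2
  rw [RM_congr h]
  simp only [gr_congr h]

theorem measurable_cellG2 (c : Site d) (ℓ : ℕ) (γ E : ℝ) :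
    MeasurableSet {V : Site d → ℝ | CellG2 V c ℓ γ E} := by
  have h : {V : Site d → ℝ | CellG2 V c ℓ γ E} =
      {V | (RM V (box c (3 * ℓ)) E).det ≠ 0} ∩
        ⋂ x ∈ box c ℓ, {V | ∑ y ∈ (box c (3 * ℓ)).filter (fun y => sd c y = 3 * ℓ),
          |gr V (box c (3 * ℓ)) E x y| ≤ γ} := by
    ext V
    simp only [CellG2, Set.mem_ofPred_eq, Set.mem_inter_iff, Set.mem_iInter]
  rw [h]
  apply MeasurableSet.inter
  · exact (measurableSet_eq_fun (continuous_det _ E).measurable measurable_const).compl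
  · apply Finset.measurableSet_biInter
    intro x _
    refine measurableSet_le ?_ measurable_const
    exact Finset.measurable_sum _ fun y _ => (measurable_gr _ E x y).abs

/-- the probability that a cell is bad does not depend on the cube -/
theorem PL_cellG2 {ν : Measure ℝ} [IsProbabilityMeasure ν] {c : Site d} {ℓ : ℕ} {γ E p : ℝ}
    {Λ : Finset (Site d)} (hΛ : box c (3 * ℓ) ⊆ Λ)
    (h : PL ν (box c (3 * ℓ)) {V | ¬ CellG2 V c ℓ γ E} ≤ ENNReal.ofReal p) :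
    PL ν Λ {V | ¬ CellG2 V c ℓ γ E} ≤ ENNReal.ofReal p := by
  have hS : MeasurableSet {V : Site d → ℝ | ¬ CellG2 V c ℓ γ E} :=
    (measurable_cellG2 c ℓ γ E).compl
  rw [PL_apply _ hS] at h ⊢
  rw [marg_subset (measurable_one.indicator hS) _ hΛ]
  · exact h
  · exact only_indicator fun V V' hVV => by
      rw [Set.mem_ofPred_eq, Set.mem_ofPred_eq, cellG2_congr hVV]

theorem cellGood_mono {V : Site d → ℝ} {c : Site d} {ℓ : ℕ} {A A' E : ℝ} (h : A ≤ A')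
    (hg : CellGood V c ℓ A E) : CellGood V c ℓ A' E :=
  ⟨hg.1, fun x hx y hy hxy => (hg.2 x hx y hy hxy).trans h⟩

/-- the first numerical estimate -/
theorem num1 (d K : ℕ) (hK : K = 20 * (122 * d + 3)) (ℓ : ℕ) (hℓ : 1 ≤ ℓ)
    (hB : (2 * d) ^ K * (8 * K) ^ (122 * d + 1) ≤ ℓ) :
    (2 * (d : ℝ) * (ℓ : ℝ) ^ (-(1 / 20 : ℝ))) ^ K * ((8 * K * ℓ : ℕ) : ℝ) ^ (2 * d + 1) ≤
      ((8 * K * ℓ : ℕ) : ℝ) ^ (-(120 * (d : ℝ))) := by
  have hK1 : 1 ≤ K := by omega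
  have hL : (1 : ℝ) ≤ ℓ := by exact_mod_cast hℓ
  have hL0 : (0 : ℝ) < ℓ := by linarith only [hL]
  have hc : (0 : ℝ) < 8 * K := by
    have : (1 : ℝ) ≤ K := by exact_mod_cast hK1
    linarith only [this]
  have e1 : ((ℓ : ℝ) ^ (-(1 / 20 : ℝ))) ^ K = ((ℓ : ℝ) ^ (122 * d + 3))⁻¹ := by
    rw [← Real.rpow_natCast ((ℓ : ℝ) ^ (-(1 / 20 : ℝ))) K, ← Real.rpow_mul hL0.le,
      ← Real.rpow_natCast (ℓ : ℝ) (122 * d + 3), ← Real.rpow_neg hL0.le]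
    congr 1
    rw [hK]
    push_cast
    ring
  have e2 : ((8 * K * ℓ : ℕ) : ℝ) = 8 * K * ℓ := by push_cast; ring
  have hX0 : (0 : ℝ) < 8 * K * ℓ := mul_pos hc hL0
  have e3 : (8 * (K : ℝ) * ℓ) ^ (-(120 * (d : ℝ))) = ((8 * (K : ℝ) * ℓ) ^ (120 * d))⁻¹ := by
    rw [Real.rpow_neg hX0.le]
    congr 1
    rw [← Real.rpow_natCast]
    congr 1
    push_cast
    ring
  rw [mul_pow, e1, e2, e3]
  rw [← one_div ((8 * (K : ℝ) * ℓ) ^ (120 * d)), le_div_iff₀ (by positivity)]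
  have h1 : (2 * (d : ℝ)) ^ K * (8 * K) ^ (122 * d + 1) ≤ (ℓ : ℝ) := by exact_mod_cast hB
  have h2 : (2 * (d : ℝ)) ^ K * (8 * K) ^ (122 * d + 1) ≤ (ℓ : ℝ) ^ 2 := by
    refine h1.trans ?_
    rw [pow_two]
    nlinarith only [hL]
  have h3 : (2 * (d : ℝ)) ^ K * ((ℓ : ℝ) ^ (122 * d + 3))⁻¹ * (8 * K * ℓ) ^ (2 * d + 1) *
      (8 * K * ℓ) ^ (120 * d) = ((2 * (d : ℝ)) ^ K * (8 * K) ^ (122 * d + 1)) / (ℓ : ℝ) ^ 2 := by
    have h4 : (8 * (K : ℝ) * ℓ) ^ (2 * d + 1) * (8 * K * ℓ) ^ (120 * d) =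
        (8 * K) ^ (122 * d + 1) * (ℓ : ℝ) ^ (122 * d + 1) := by
      rw [← pow_add, mul_pow]
      congr 2 <;> omega
    have h5 : (ℓ : ℝ) ^ (122 * d + 3) = (ℓ : ℝ) ^ (122 * d + 1) * (ℓ : ℝ) ^ 2 := by
      rw [← pow_add]
    rw [mul_assoc, mul_assoc, h4, h5]
    field_simp
  rw [h3, div_le_one (by positivity)]
  exact h2

/-- the second numerical estimate -/
theorem num2 (d K : ℕ) (hK : 1 ≤ K) (ρ δ : ℝ) (hρ : 0 ≤ ρ) (hδ : 0 < δ) (hδ' : δ ≤ 1 / 10)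
    (ℓ : ℕ) (hℓ : 1 ≤ ℓ)
    (hC : (28 * (K : ℝ) + 1) ^ d * (8 * K) + 7 ^ (2 * d) * (6 * ρ) ≤ (ℓ : ℝ) ^ (δ / 8)) :
    (28 * (K : ℝ) + 1) ^ d * (ℓ : ℝ) ^ (-(δ / 4)) +
      (6 * ((8 * K * ℓ : ℕ) : ℝ) + 1) ^ (2 * d) * (6 * ρ / ((8 * K * ℓ : ℕ) : ℝ) ^ (2 * d + 1)) ≤
      ((8 * K * ℓ : ℕ) : ℝ) ^ (-(δ / 8)) := by
  have hL : (1 : ℝ) ≤ ℓ := by exact_mod_cast hℓ
  have hL0 : (0 : ℝ) < ℓ := by linarith only [hδ, hδ', hL]
  have hKr : (1 : ℝ) ≤ K := by exact_mod_cast hK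
  have hc1 : (1 : ℝ) ≤ 8 * K := by linarith only [hδ, hδ', hKr]
  have hc0 : (0 : ℝ) < 8 * K := by linarith only [hδ, hδ', hKr]
  have e2 : ((8 * K * ℓ : ℕ) : ℝ) = 8 * K * ℓ := by push_cast; ring
  rw [e2]
  set X : ℝ := 8 * K * ℓ with hX
  have hXL : (ℓ : ℝ) ≤ X := by
    rw [hX]
    nlinarith only [hδ, hδ', hL, hKr]
  have hX1 : 1 ≤ X := hL.trans hXL
  have hX0 : 0 < X := by linarith only [hδ, hδ', hL, hXL]
  -- first term
  have t1 : (ℓ : ℝ) ^ (-(δ / 4)) ≤ (8 * K) * X ^ (-(δ / 4)) := by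
    have h1 : X ^ (-(δ / 4)) = (8 * (K : ℝ)) ^ (-(δ / 4)) * (ℓ : ℝ) ^ (-(δ / 4)) := by
      rw [hX, Real.mul_rpow hc0.le hL0.le]
    have h2 : 1 ≤ (8 * (K : ℝ)) * (8 * (K : ℝ)) ^ (-(δ / 4)) := by
      have h3 : (8 * (K : ℝ)) * (8 * (K : ℝ)) ^ (-(δ / 4)) = (8 * (K : ℝ)) ^ (1 + -(δ / 4)) := by
        rw [Real.rpow_add hc0, Real.rpow_one]
      rw [h3]
      exact Real.one_le_rpow hc1 (by linarith only [hδ, hδ'])
    have h4 : 0 ≤ (ℓ : ℝ) ^ (-(δ / 4)) := by positivity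
    calc (ℓ : ℝ) ^ (-(δ / 4)) = 1 * (ℓ : ℝ) ^ (-(δ / 4)) := (one_mul _).symm
      _ ≤ ((8 * (K : ℝ)) * (8 * (K : ℝ)) ^ (-(δ / 4))) * (ℓ : ℝ) ^ (-(δ / 4)) :=
        mul_le_mul_of_nonneg_right h2 h4
      _ = (8 * K) * X ^ (-(δ / 4)) := by rw [h1]; ring
  -- second term
  have t2 : (6 * X + 1) ^ (2 * d) * (6 * ρ / X ^ (2 * d + 1)) ≤
      7 ^ (2 * d) * (6 * ρ) * X ^ (-(δ / 4)) := by
    have h1 : (6 * X + 1) ^ (2 * d) ≤ (7 * X) ^ (2 * d) :=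
      pow_le_pow_left₀ (by linarith only [hδ, hδ', hL, hXL]) (by linarith only [hL, hXL]) _
    have h2 : 0 ≤ 6 * ρ / X ^ (2 * d + 1) := by positivity
    have h3 : (7 * X) ^ (2 * d) * (6 * ρ / X ^ (2 * d + 1)) = 7 ^ (2 * d) * (6 * ρ) * X⁻¹ := by
      rw [mul_pow, pow_succ]
      field_simp
    have h4 : X⁻¹ ≤ X ^ (-(δ / 4)) := by
      rw [← Real.rpow_neg_one]
      exact Real.rpow_le_rpow_of_exponent_le hX1 (by linarith only [hδ, hδ'])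
    calc (6 * X + 1) ^ (2 * d) * (6 * ρ / X ^ (2 * d + 1))
        ≤ (7 * X) ^ (2 * d) * (6 * ρ / X ^ (2 * d + 1)) := mul_le_mul_of_nonneg_right h1 h2
      _ = 7 ^ (2 * d) * (6 * ρ) * X⁻¹ := h3
      _ ≤ 7 ^ (2 * d) * (6 * ρ) * X ^ (-(δ / 4)) := mul_le_mul_of_nonneg_left h4 (by positivity)
  set C : ℝ := (28 * (K : ℝ) + 1) ^ d * (8 * K) + 7 ^ (2 * d) * (6 * ρ) with hCdef
  have t3 : C ≤ X ^ (δ / 8) := hC.trans (Real.rpow_le_rpow hL0.le hXL (by linarith only [hδ]))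
  have t4 : X ^ (-(δ / 4)) = X ^ (-(δ / 8)) * X ^ (-(δ / 8)) := by
    rw [← Real.rpow_add hX0]
    congr 1
    ring
  have t5 : X ^ (δ / 8) * X ^ (-(δ / 8)) = 1 := by
    rw [← Real.rpow_add hX0, add_neg_cancel, Real.rpow_zero]
  have t6 : 0 ≤ X ^ (-(δ / 8)) := by positivity
  calc (28 * (K : ℝ) + 1) ^ d * (ℓ : ℝ) ^ (-(δ / 4)) +
        (6 * X + 1) ^ (2 * d) * (6 * ρ / X ^ (2 * d + 1))
      ≤ (28 * (K : ℝ) + 1) ^ d * ((8 * K) * X ^ (-(δ / 4))) +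
        7 ^ (2 * d) * (6 * ρ) * X ^ (-(δ / 4)) :=
        add_le_add (mul_le_mul_of_nonneg_left t1 (by positivity)) t2
    _ = C * X ^ (-(δ / 8)) * X ^ (-(δ / 8)) := by rw [t4, hCdef]; ring
    _ ≤ X ^ (δ / 8) * X ^ (-(δ / 8)) * X ^ (-(δ / 8)) := by
        refine mul_le_mul_of_nonneg_right (mul_le_mul_of_nonneg_right t3 t6) t6
    _ = X ^ (-(δ / 8)) := by rw [t5, one_mul]

/-- CE3: a small time averaged spreading makes the larger cells good with high probability. -/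
theorem ce3 (h2 : Ce2Stmt) (hKst : KstStmt) : Ce3Stmt := by
  intro d hd
  obtain ⟨K, hKdef⟩ : ∃ K : ℕ, K = 20 * (122 * d + 3) := ⟨_, rfl⟩
  have hK1 : 1 ≤ K := by omega
  refine ⟨K, hK1, ?_⟩
  intro σ hσ δ h hδ hδ' hh
  obtain ⟨ℓ₁, hℓ₁⟩ := h2 d hd σ hσ δ h hδ hδ' hh
  obtain ⟨ρ, hρdef⟩ : ∃ ρ : ℝ, ρ = 1 / |σ| := ⟨_, rfl⟩
  have hν : BddDens (gl σ) ρ := by rw [hρdef]; exact bddDens_gl hσ
  have hρ : 0 ≤ ρ := hν.1.le
  have hev : ∀ᶠ ℓ : ℕ in Filter.atTop,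
      (28 * (K : ℝ) + 1) ^ d * (8 * K) + 7 ^ (2 * d) * (6 * ρ) ≤ (ℓ : ℝ) ^ (δ / 8) := by
    have ht : Filter.Tendsto (fun ℓ : ℕ => (ℓ : ℝ) ^ (δ / 8)) Filter.atTop Filter.atTop :=
      (tendsto_rpow_atTop (by linarith only [hδ])).comp tendsto_natCast_atTop_atTop
    exact ht.eventually_ge_atTop _
  obtain ⟨ℓ₂, hℓ₂⟩ := Filter.eventually_atTop.1 hev
  refine ⟨max (max ℓ₁ ℓ₂) (max 1 ((2 * d) ^ K * (8 * K) ^ (122 * d + 1))), ?_⟩
  intro ℓ hℓ η hη1 hη2 a b hspr E hE1 hE2 c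
  have l1 : ℓ₁ ≤ ℓ := (le_max_left _ _).trans ((le_max_left _ _).trans hℓ)
  have l2 : ℓ₂ ≤ ℓ := (le_max_right _ _).trans ((le_max_left _ _).trans hℓ)
  have l3 : 1 ≤ ℓ := (le_max_left _ _).trans ((le_max_right _ _).trans hℓ)
  have l4 : (2 * d) ^ K * (8 * K) ^ (122 * d + 1) ≤ ℓ :=
    (le_max_right _ _).trans ((le_max_right _ _).trans hℓ)
  have hcell := hℓ₁ ℓ l1 η hη1 hη2 a b hspr E hE1 hE2
  set γ : ℝ := (ℓ : ℝ) ^ (-(1 / 20 : ℝ)) with hγ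
  have hγ0 : 0 ≤ γ := by rw [hγ]; positivity
  obtain ⟨ℓ', hℓ'⟩ : ∃ ℓ' : ℕ, ℓ' = 8 * K * ℓ := ⟨_, rfl⟩
  have n1 := num1 d K hKdef ℓ l3 l4
  have n2 := num2 d K hK1 ρ δ hρ hδ hδ' ℓ l3 (hℓ₂ ℓ l2)
  rw [← hγ, ← hℓ'] at n1
  rw [← hℓ'] at n2 ⊢
  set τ : ℝ := ((ℓ' : ℕ) : ℝ) ^ (2 * d + 1) with hτ
  have hℓ'1 : 1 ≤ ℓ' := by
    rw [hℓ']
    exact Nat.mul_pos (by omega) l3
  have hτ0 : 0 < τ := by
    rw [hτ]
    have : (0 : ℝ) < ℓ' := by exact_mod_cast hℓ'1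
    positivity
  set Λ := box c (3 * ℓ') with hΛ
  -- the cells are in the cube
  have hsub : ∀ k ∈ box (0 : Site d) (14 * K), box (fun j => c j + ℓ * k j) (3 * ℓ) ⊆ Λ := by
    intro k hk u hu
    rw [mem_box] at hk hu
    rw [hΛ, mem_box]
    have h3 : sd c (fun j => c j + ℓ * k j) ≤ 14 * K * ℓ := by
      rw [sd_le_iff]
      intro j
      have h4 := sd_le_iff.1 hk j
      rw [Pi.zero_apply, zero_sub, abs_neg] at h4
      have h5 : c j - (c j + (ℓ : ℤ) * k j) = -((ℓ : ℤ) * k j) := by ring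
      rw [h5, abs_neg, abs_mul, Nat.abs_cast]
      push_cast at h4 ⊢
      have h6 : (0 : ℤ) ≤ ℓ := Int.natCast_nonneg ℓ
      nlinarith only [h4]
    have h4 := sd_triangle c (fun j => c j + ℓ * k j) u
    have h5 : 14 * K * ℓ + 3 * ℓ ≤ 3 * ℓ' := by
      rw [hℓ']
      have : 1 * ℓ ≤ K * ℓ := Nat.mul_le_mul_right ℓ hK1
      nlinarith only [l3, this]
    omega
  set N0 : Set (Site d → ℝ) := {V | (RM V Λ E).det = 0} with hN0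
  set B1 : Set (Site d → ℝ) :=
    ⋃ k ∈ box (0 : Site d) (14 * K), {V | ¬ CellG2 V (fun j => c j + ℓ * k j) ℓ γ E} with hB1
  set W : Set (Site d → ℝ) := ⋃ x ∈ Λ, ⋃ y ∈ Λ, {V | τ < |gr V Λ E x y|} with hW
  have e0 : PL (gl σ) Λ N0 = 0 := PL_det hν Λ Λ le_rfl E
  have e1 : PL (gl σ) Λ B1 ≤ ENNReal.ofReal ((28 * (K : ℝ) + 1) ^ d * (ℓ : ℝ) ^ (-(δ / 4))) := by
    refine (measure_biUnion_finset_le _ _).trans ?_
    refine (Finset.sum_le_sum fun k hk => PL_cellG2 (hsub k hk) (hcell _)).trans ?_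
    rw [Finset.sum_const, nsmul_eq_mul, card_box, ENNReal.ofReal_mul (by positivity)]
    gcongr
    rw [← ENNReal.ofReal_natCast]
    apply ENNReal.ofReal_le_ofReal
    push_cast
    apply le_of_eq
    ring
  have e2 : PL (gl σ) Λ W ≤ ENNReal.ofReal ((6 * (ℓ' : ℝ) + 1) ^ (2 * d) * (6 * ρ / τ)) := by
    refine (measure_biUnion_finset_le _ _).trans ?_
    have h3 : ∀ x ∈ Λ, PL (gl σ) Λ (⋃ y ∈ Λ, {V | τ < |gr V Λ E x y|}) ≤
        ENNReal.ofReal (Λ.card * (6 * ρ / τ)) := by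
      intro x _
      refine (measure_biUnion_finset_le _ _).trans ?_
      refine (Finset.sum_le_sum fun y _ => PL_weak hν Λ E x y hτ0).trans ?_
      rw [Finset.sum_const, nsmul_eq_mul, ENNReal.ofReal_mul (by positivity),
        ENNReal.ofReal_natCast]
    refine (Finset.sum_le_sum h3).trans ?_
    rw [Finset.sum_const, nsmul_eq_mul, ← ENNReal.ofReal_natCast,
      ← ENNReal.ofReal_mul (by positivity)]
    apply ENNReal.ofReal_le_ofReal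
    rw [hΛ, card_box]
    push_cast
    apply le_of_eq
    ring
  have hbad : {V | ¬ CellGood V c ℓ' ((ℓ' : ℝ) ^ (-(120 * (d : ℝ)))) E} ⊆ N0 ∪ B1 ∪ W := by
    intro V hV
    by_contra hcon
    rw [Set.mem_union, Set.mem_union, not_or, not_or] at hcon
    obtain ⟨⟨g1, g2⟩, g3⟩ := hcon
    apply hV
    rw [hB1] at g2
    rw [hW] at g3
    simp only [Set.mem_iUnion, not_exists, Set.mem_ofPred_eq, not_not, not_lt] at g2 g3
    have h3 := hKst d V c E γ τ K ℓ l3 hK1 hγ0 hτ0.le g2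
    rw [← hℓ'] at h3
    refine cellGood_mono n1 (h3 g1 fun x y => ?_)
    by_cases hxy : x ∈ Λ ∧ y ∈ Λ
    · exact g3 x hxy.1 y hxy.2
    · have h4 : gr V Λ E x y = 0 := by
        unfold gr
        rw [dif_neg hxy]
      show |gr V Λ E x y| ≤ τ
      rw [h4, abs_zero]
      exact hτ0.le
  calc PL (gl σ) Λ {V | ¬ CellGood V c ℓ' ((ℓ' : ℝ) ^ (-(120 * (d : ℝ)))) E}
      ≤ PL (gl σ) Λ (N0 ∪ B1 ∪ W) := measure_mono hbad
    _ ≤ PL (gl σ) Λ (N0 ∪ B1) + PL (gl σ) Λ W := measure_union_le _ _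
    _ ≤ (PL (gl σ) Λ N0 + PL (gl σ) Λ B1) + PL (gl σ) Λ W := by
        gcongr
        exact measure_union_le _ _
    _ ≤ (0 + ENNReal.ofReal ((28 * (K : ℝ) + 1) ^ d * (ℓ : ℝ) ^ (-(δ / 4)))) +
        ENNReal.ofReal ((6 * (ℓ' : ℝ) + 1) ^ (2 * d) * (6 * ρ / τ)) := by
        rw [e0]
        gcongr
    _ ≤ ENNReal.ofReal ((ℓ' : ℝ) ^ (-(δ / 8))) := by
        rw [zero_add, ← ENNReal.ofReal_add (by positivity) (by positivity)]
        exact ENNReal.ofReal_le_ofReal n2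

end Pool.Agent.Mob.H29
end
end -- Pool.Agent.Helper29_Mob.Ce3
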