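import Pool.Agent.Helper12_MEB.B035

/-!
# Merged copies (generated) of the modules

* `Pool.Agent.Helper73_CrossIndex.Defs`
* `Pool.Agent.Helper73_CrossIndex.Chains`
* `Pool.Agent.Helper73_CrossIndex.Subdiv`
* `Pool.Agent.Helper73_CrossIndex.Dold`
* `Pool.Agent.Common_Brouwer.Brouwer`
* `Pool.Agent.Common_Brouwer.Schauder`
* `Pool.Agent.Helper53_TrInd.Miranda`
* `Pool.Agent.Helper24_LCN.DMI`
-/

set_option autoImplicit false

section -- Pool.Agent.Helper73_CrossIndex.Defs

/-!
# Definitions for the problem on mapping index versus cross-index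

`G` is a group (finite in all applications).
-/

universe u

namespace Pool.Agent.Helper73_CrossIndex

/-- A finite `G`-simplicial complex: a finite vertex set `V`, an abstract simplicial complex `K`
with vertex set `V` (the faces are non-empty finite sets of vertices, closed under passing to
non-empty subsets, and every vertex is a face) and an action of `G` on `V` that maps faces to
faces. -/
structure GComplex (G : Type u) [Group G] where
  /-- the vertex set -/
  V : Type u
  /-- the vertex set is finite -/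
  [fintypeV : Fintype V]
  /-- the action of `G` on the vertices -/
  [mulActionV : MulAction G V]
  /-- the simplicial complex -/
  K : AbstractSimplicialComplex V
  /-- `G` acts by simplicial automorphisms -/
  smul_mem : ∀ (g : G) {s : Finset V}, s ∈ K.faces →
    s.map (MulAction.toPerm g).toEmbedding ∈ K.faces

attribute [instance] GComplex.fintypeV GComplex.mulActionV

variable {G : Type u} [Group G]

/-- The geometric realisation of a finite `G`-simplicial complex: all systems of barycentric
coordinates `V → ℝ` (non-negative, with sum `1`) whose support is contained in a face. -/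
@[ext]
structure GComplex.Realization (X : GComplex G) : Type u where
  /-- the barycentric coordinates -/
  coord : X.V → ℝ
  nonneg : ∀ v, 0 ≤ coord v
  sum_eq_one : ∑ v, coord v = 1
  support_subset : ∃ s ∈ X.K.faces, ∀ v, coord v ≠ 0 → v ∈ s

/-- The topology of the realisation: the subspace topology of `V → ℝ`. -/
instance (X : GComplex G) : TopologicalSpace X.Realization :=
  TopologicalSpace.induced GComplex.Realization.coord inferInstance

/-- The induced action of `G` on the realisation: `(g • x)` has coordinate `x (g⁻¹ • v)` at `v`. -/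
instance (X : GComplex G) : MulAction G X.Realization where
  smul g x :=
    { coord := fun v => x.coord (g⁻¹ • v)
      nonneg := fun v => x.nonneg _
      sum_eq_one := (Equiv.sum_comp (MulAction.toPerm (g⁻¹ : G)) x.coord).trans x.sum_eq_one
      support_subset := by
        obtain ⟨s, hs, hx⟩ := x.support_subset
        refine ⟨_, X.smul_mem g hs, fun v hv => ?_⟩
        rw [Finset.mem_map]
        exact ⟨g⁻¹ • v, hx _ hv, by simp⟩ }
  one_smul x := GComplex.Realization.ext (funext fun v => by
    change x.coord ((1 : G)⁻¹ • v) = x.coord v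
    simp)
  mul_smul g h x := GComplex.Realization.ext (funext fun v => by
    change x.coord ((g * h)⁻¹ • v) = x.coord (h⁻¹ • g⁻¹ • v)
    simp [mul_smul])

/-- A `G`-simplicial complex is free if the action on its geometric realisation is free. -/
def GComplex.IsFree (X : GComplex G) : Prop :=
  ∀ (g : G) (x : X.Realization), g • x = x → g = 1

/-- The face poset of a `G`-simplicial complex. -/
@[ext]
structure GComplex.FacePoset (X : GComplex G) : Type u where
  /-- the face -/
  face : Finset X.V
  mem : face ∈ X.K.faces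

/-- The faces are ordered by inclusion. -/
instance (X : GComplex G) : PartialOrder X.FacePoset :=
  PartialOrder.lift GComplex.FacePoset.face fun _ _ h => GComplex.FacePoset.ext h

/-- The induced action of `G` on the faces. -/
instance (X : GComplex G) : MulAction G X.FacePoset where
  smul g s := ⟨s.face.map (MulAction.toPerm g).toEmbedding, X.smul_mem g s.mem⟩
  one_smul s := GComplex.FacePoset.ext (by
    change s.face.map (MulAction.toPerm (1 : G)).toEmbedding = s.face
    ext v; simp)
  mul_smul g h s := GComplex.FacePoset.ext (by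
    change s.face.map (MulAction.toPerm (g * h)).toEmbedding =
      (s.face.map (MulAction.toPerm h).toEmbedding).map (MulAction.toPerm g).toEmbedding
    ext v; simp [mul_smul])

/-- The set `G × {0, …, k}`, the vertex set of `E_k G`. -/
@[ext]
structure EVertex (G : Type u) (k : ℕ) : Type u where
  /-- the group element -/
  elt : G
  /-- the number of the join factor -/
  lev : Fin (k + 1)

/-- `EVertex G k` is `G × {0, …, k}`. -/
def EVertex.equiv (G : Type u) (k : ℕ) : EVertex G k ≃ G × Fin (k + 1) where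
  toFun v := (v.elt, v.lev)
  invFun p := ⟨p.1, p.2⟩
  left_inv _ := rfl
  right_inv _ := rfl

instance [Fintype G] (k : ℕ) : Fintype (EVertex G k) :=
  Fintype.ofEquiv _ (EVertex.equiv G k).symm

/-- `G` acts on `G × {0, …, k}` by left multiplication on the first factor. -/
instance (k : ℕ) : MulAction G (EVertex G k) where
  smul g v := ⟨g * v.elt, v.lev⟩
  one_smul v := EVertex.ext (one_mul v.elt) rfl
  mul_smul g h v := EVertex.ext (mul_assoc g h v.elt) rfl

/-- The `(k+1)`-fold join `E_k G = G * ⋯ * G` of the discrete set `G` as a `G`-simplicial complex: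
the vertices are the pairs `(g, i)` with `0 ≤ i ≤ k`, and a non-empty set of vertices is a face iff
it contains at most one vertex `(g, i)` for each `i`. -/
def E (G : Type u) [Group G] [Fintype G] (k : ℕ) : GComplex G where
  V := EVertex G k
  K :=
    { faces := {s | s.Nonempty ∧ ∀ v ∈ s, ∀ w ∈ s, v.lev = w.lev → v = w}
      isRelLowerSet_faces := fun s hs => ⟨hs.1, fun t hts ht =>
        ⟨ht, fun v hv w hw => hs.2 v (hts hv) w (hts hw)⟩⟩
      singleton_mem := fun v => ⟨Finset.singleton_nonempty v, fun a ha b hb _ => by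
        rw [Finset.mem_singleton] at ha hb; rw [ha, hb]⟩ }
  smul_mem := by
    rintro g s ⟨hs, h⟩
    refine ⟨by simpa using hs, fun v hv w hw hvw => ?_⟩
    rw [Finset.mem_map] at hv hw
    obtain ⟨v', hv', rfl⟩ := hv
    obtain ⟨w', hw', rfl⟩ := hw
    rw [h v' hv' w' hw' hvw]

/-- The underlying set `G × {0, …, k}` of the poset `Q_k G`. -/
@[ext]
structure Q (G : Type u) (k : ℕ) : Type u where
  /-- the group element -/
  elt : G
  /-- the level -/
  lev : Fin (k + 1)

/-- The order of `Q_k G`: `(g, i) < (h, j)` iff `i < j`. -/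
instance (k : ℕ) : PartialOrder (Q G k) where
  le a b := a = b ∨ a.lev < b.lev
  le_refl a := Or.inl rfl
  le_trans a b c hab hbc := by
    rcases hab with rfl | hab
    · exact hbc
    · rcases hbc with rfl | hbc
      · exact Or.inr hab
      · exact Or.inr (lt_trans hab hbc)
  le_antisymm a b hab hba := by
    rcases hab with rfl | hab
    · rfl
    · rcases hba with h | hba
      · exact h.symm
      · exact absurd hab (lt_asymm hba)

/-- The action of `G` on `Q_k G`: `g • (h, i) = (g h, i)`. -/
instance (k : ℕ) : MulAction G (Q G k) where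
  smul g v := ⟨g * v.elt, v.lev⟩
  one_smul v := Q.ext (one_mul v.elt) rfl
  mul_smul g h v := Q.ext (mul_assoc g h v.elt) rfl

/-- `m` is the mapping index of the `G`-space `X`: the least `k` for which there is a continuous
`G`-equivariant map from `X` to (the realisation of) `E_k G`. -/
def IsMappingIndex (G : Type u) [Group G] [Fintype G] (X : Type u) [TopologicalSpace X]
    [MulAction G X] (m : ℕ) : Prop :=
  IsLeast {k : ℕ | ∃ f : X → (E G k).Realization,
    Continuous f ∧ ∀ (g : G) (x : X), f (g • x) = g • f x} m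

/-- `n` is the cross-index of the `G`-poset `P`: the least `k` for which there is an
order-preserving `G`-equivariant map from `P` to `Q_k G`. -/
def IsCrossIndex (G : Type u) [Group G] (P : Type u) [PartialOrder P] [MulAction G P]
    (n : ℕ) : Prop :=
  IsLeast {k : ℕ | ∃ f : P → Q G k, Monotone f ∧ ∀ (g : G) (p : P), f (g • p) = g • f p} n

end Pool.Agent.Helper73_CrossIndex
end -- Pool.Agent.Helper73_CrossIndex.Defs

section -- Pool.Agent.Helper73_CrossIndex.Chains

/-!
# Chain level part of the Borsuk–Ulam–Dold theorem for joins of a finite group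
-/

universe u v

namespace Pool.Agent.Helper73_CrossIndex

open Finsupp (single mapDomain)

/-! ## Ordered (augmented) chains -/

/-- Ordered chains on a type of points: integral combinations of lists. -/
abbrev Ch (P : Type v) : Type v := List P →₀ ℤ

section Ordered

variable {P : Type v} {R : Type v}

/-- Put the point `a` in front. -/
noncomputable def consL (a : P) : Ch P →ₗ[ℤ] Ch P := Finsupp.lmapDomain ℤ ℤ (fun l => a :: l)

@[simp] lemma consL_single (a : P) (l : List P) (c : ℤ) :
    consL a (single l c) = single (a :: l) c := by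
  simp [consL, Finsupp.lmapDomain_apply, Finsupp.mapDomain_single]

/-- boundary of a list -/
noncomputable def dl : List P → Ch P
  | [] => 0
  | a :: l => single l 1 - consL a (dl l)

/-- boundary operator -/
noncomputable def dd : Ch P →ₗ[ℤ] Ch P := Finsupp.linearCombination ℤ dl

@[simp] lemma dd_single (l : List P) (c : ℤ) : dd (single l c) = c • dl l := by
  simp [dd, Finsupp.linearCombination_single]

lemma dd_consL (a : P) (c : Ch P) : dd (consL a c) = c - consL a (dd c) := by
  induction c using Finsupp.induction_linear with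
  | zero => simp
  | add f g hf hg => simp only [map_add, hf, hg]; abel
  | single l c =>
    simp only [consL_single, dd_single, dl, map_smul, smul_sub]
    congr 1
    simp

lemma dd_dl (l : List P) : dd (dl l) = 0 := by
  induction l with
  | nil => simp [dl]
  | cons a l ih =>
    rw [dl, map_sub, dd_consL, ih, map_zero, dd_single, one_smul, sub_zero, sub_self]

/-- functoriality -/
noncomputable def chMap (f : P → R) : Ch P →ₗ[ℤ] Ch R := Finsupp.lmapDomain ℤ ℤ (List.map f)

@[simp] lemma chMap_single (f : P → R) (l : List P) (c : ℤ) :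
    chMap f (single l c) = single (l.map f) c := by
  simp [chMap, Finsupp.lmapDomain_apply, Finsupp.mapDomain_single]

lemma chMap_consL (f : P → R) (a : P) (c : Ch P) :
    chMap f (consL a c) = consL (f a) (chMap f c) := by
  induction c using Finsupp.induction_linear with
  | zero => simp
  | add c₁ c₂ h₁ h₂ => simp only [map_add, h₁, h₂]
  | single l c => simp

lemma dl_map (f : P → R) (l : List P) : dl (l.map f) = chMap f (dl l) := by
  induction l with
  | nil => simp [dl]
  | cons a l ih => simp [dl, ih, chMap_consL]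

lemma dd_chMap (f : P → R) (c : Ch P) : dd (chMap f c) = chMap f (dd c) := by
  induction c using Finsupp.induction_linear with
  | zero => simp
  | add c₁ c₂ h₁ h₂ => simp only [map_add, h₁, h₂]
  | single l c => simp [dl_map]

/-- All lists in the support of a chain satisfy `p`. -/
def AllL {A : Type v} (p : A → Prop) (c : A →₀ ℤ) : Prop := ∀ l ∈ c.support, p l

lemma AllL.zero {A : Type v} (p : A → Prop) : AllL p (0 : A →₀ ℤ) := by
  intro l hl; simp at hl

lemma AllL.single {A : Type v} {p : A → Prop} {l : A} (h : p l) (c : ℤ) :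
    AllL p (Finsupp.single l c) := by
  intro l' hl'
  have := Finsupp.support_single_subset hl'
  rw [Finset.mem_singleton] at this
  rw [this]; exact h

lemma AllL.add {A : Type v} {p : A → Prop} {c d : A →₀ ℤ} (hc : AllL p c) (hd : AllL p d) :
    AllL p (c + d) := by
  classical
  intro l hl
  rcases Finset.mem_union.mp (Finsupp.support_add hl) with h | h
  · exact hc l h
  · exact hd l h

lemma AllL.neg {A : Type v} {p : A → Prop} {c : A →₀ ℤ} (hc : AllL p c) : AllL p (-c) := by
  intro l hl
  rw [Finsupp.support_neg] at hl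
  exact hc l hl

lemma AllL.sub {A : Type v} {p : A → Prop} {c d : A →₀ ℤ} (hc : AllL p c) (hd : AllL p d) :
    AllL p (c - d) := by
  rw [sub_eq_add_neg]; exact hc.add hd.neg

lemma AllL.smul {A : Type v} {p : A → Prop} {c : A →₀ ℤ} (hc : AllL p c) (z : ℤ) :
    AllL p (z • c) := by
  intro l hl
  exact hc l (Finsupp.support_smul hl)

lemma AllL.mono {A : Type v} {p q : A → Prop} {c : A →₀ ℤ} (hc : AllL p c)
    (h : ∀ l, p l → q l) : AllL q c := fun l hl => h l (hc l hl)

lemma AllL.linearCombination {A : Type v} {B : Type v} {p : A → Prop} {q : B → Prop} {c : A →₀ ℤ}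
    (hc : AllL p c) {f : A → (B →₀ ℤ)} (h : ∀ l, p l → AllL q (f l)) :
    AllL q (Finsupp.linearCombination ℤ f c) := by
  classical
  rw [Finsupp.linearCombination_apply, Finsupp.sum]
  have : ∀ s : Finset A, (∀ l ∈ s, p l) → AllL q (∑ a ∈ s, c a • f a) := by
    intro s
    induction s using Finset.induction_on with
    | empty => intro _; simpa using AllL.zero q
    | insert a s ha ih =>
      intro hs
      rw [Finset.sum_insert ha]
      exact ((h a (hs a (Finset.mem_insert_self a s))).smul _).add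
        (ih fun l hl => hs l (Finset.mem_insert_of_mem hl))
  exact this _ hc

lemma AllL.mapDomain {A : Type v} {B : Type v} {p : A → Prop} {q : B → Prop} {c : A →₀ ℤ}
    (hc : AllL p c) {f : A → B} (h : ∀ l, p l → q (f l)) :
    AllL q (Finsupp.mapDomain f c) := by
  classical
  intro l hl
  have := Finsupp.mapDomain_support hl
  rw [Finset.mem_image] at this
  obtain ⟨a, ha, rfl⟩ := this
  exact h a (hc a ha)

/-- Two linear maps agreeing on all `single l 1` with `p l` agree on chains supported on `p`. -/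
lemma AllL.eq_of {A : Type v} {M : Type*} [AddCommGroup M] {p : A → Prop} {c : A →₀ ℤ}
    (hc : AllL p c) {f g : (A →₀ ℤ) →ₗ[ℤ] M}
    (h : ∀ l, p l → f (Finsupp.single l 1) = g (Finsupp.single l 1)) : f c = g c := by
  have hcc : c = ∑ a ∈ c.support, c a • Finsupp.single a (1 : ℤ) := by
    conv_lhs => rw [← Finsupp.sum_single c]
    rw [Finsupp.sum]
    refine Finset.sum_congr rfl fun a _ => ?_
    rw [Finsupp.smul_single, smul_eq_mul, mul_one]
  rw [hcc, map_sum, map_sum]
  refine Finset.sum_congr rfl fun a ha => ?_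
  rw [map_smul, map_smul, h a (hc a ha)]

lemma dl_all (l : List P) : AllL (fun l' => l'.length + 1 = l.length ∧ ∀ x ∈ l', x ∈ l) (dl l) := by
  induction l with
  | nil => simpa [dl] using AllL.zero _
  | cons a l ih =>
    rw [dl]
    refine AllL.sub (AllL.single ⟨by simp, fun x hx => List.mem_cons_of_mem a hx⟩ 1) ?_
    refine AllL.mapDomain ih fun l' hl' => ⟨by simp [hl'.1], fun x hx => ?_⟩
    rcases List.mem_cons.mp hx with rfl | hx
    · exact List.mem_cons_self
    · exact List.mem_cons_of_mem a (hl'.2 x hx)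

end Ordered

/-! ## The augmented simplicial chain complex of the join of `n` copies of `G` -/

/-- Faces (including the empty one) of the join of `n` copies of `G`. -/
inductive Fc (G : Type u) : ℕ → Type u
  | nil : Fc G 0
  | cons {n : ℕ} : Option G → Fc G n → Fc G (n + 1)

/-- splitting off the first entry -/
def Fc.consEquiv (G : Type u) (n : ℕ) : Option G × Fc G n ≃ Fc G (n + 1) where
  toFun p := Fc.cons p.1 p.2
  invFun
    | Fc.cons a t => (a, t)
  left_inv _ := rfl
  right_inv
    | Fc.cons _ _ => rfl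

/-- the only face with no entries -/
def Fc.nilEquiv (G : Type u) : PUnit.{u + 1} ≃ Fc G 0 where
  toFun _ := Fc.nil
  invFun _ := PUnit.unit
  left_inv _ := rfl
  right_inv
    | Fc.nil => rfl

instance Fc.fintype (G : Type u) [Fintype G] : (n : ℕ) → Fintype (Fc G n)
  | 0 => Fintype.ofEquiv _ (Fc.nilEquiv G)
  | n + 1 =>
    haveI := Fc.fintype G n
    Fintype.ofEquiv _ (Fc.consEquiv G n)

section Simplicial

variable {G : Type u}

/-- prepend an entry -/
noncomputable def pc {n : ℕ} (a : Option G) : (Fc G n →₀ ℤ) →ₗ[ℤ] (Fc G (n + 1) →₀ ℤ) :=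
  Finsupp.lmapDomain ℤ ℤ (fun t => (.cons a t : Fc G (n + 1)))

@[simp] lemma pc_single {n : ℕ} (a : Option G) (t : Fc G n) (c : ℤ) :
    pc a (single t c) = single (.cons a t : Fc G (n + 1)) c := by
  simp only [pc, Finsupp.lmapDomain_apply]
  exact Finsupp.mapDomain_single

/-- the empty face -/
def emp (G : Type u) : (n : ℕ) → Fc G n
  | 0 => .nil
  | n + 1 => .cons none (emp G n)

/-- boundary of a face -/
noncomputable def bd : (n : ℕ) → Fc G n → (Fc G n →₀ ℤ)
  | 0, _ => 0
  | n + 1, (.cons none t) => pc none (bd n t)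
  | n + 1, (.cons (some g) t) => single (.cons none t : Fc G (n + 1)) 1 - pc (some g) (bd n t)

/-- boundary operator -/
noncomputable def bdL (n : ℕ) : (Fc G n →₀ ℤ) →ₗ[ℤ] (Fc G n →₀ ℤ) :=
  Finsupp.linearCombination ℤ (bd n)

@[simp] lemma bdL_single {n : ℕ} (t : Fc G n) (c : ℤ) : bdL n (single t c) = c • bd n t := by
  simp [bdL, Finsupp.linearCombination_single]

lemma bdL_pc_none {n : ℕ} (c : Fc G n →₀ ℤ) :
    bdL (n + 1) (pc none c) = pc none (bdL n c) := by
  induction c using Finsupp.induction_linear with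
  | zero => simp
  | add c₁ c₂ h₁ h₂ => simp only [map_add, h₁, h₂]
  | single t c => simp [bd]

lemma bdL_pc_some {n : ℕ} (g : G) (c : Fc G n →₀ ℤ) :
    bdL (n + 1) (pc (some g) c) = pc none c - pc (some g) (bdL n c) := by
  induction c using Finsupp.induction_linear with
  | zero => simp
  | add c₁ c₂ h₁ h₂ => simp only [map_add, h₁, h₂]; abel
  | single t c => simp [bd, smul_sub]

/-- left multiplication by the vertex `(i, g)` on faces -/
noncomputable def wd : (n : ℕ) → ℕ → G → Fc G n → (Fc G n →₀ ℤ)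
  | 0, _, _, _ => 0
  | n + 1, 0, g, (.cons none t) => single (.cons (some g) t : Fc G (n + 1)) 1
  | n + 1, 0, _, (.cons (some _) _) => 0
  | n + 1, i + 1, g, (.cons none t) => pc none (wd n i g t)
  | n + 1, i + 1, g, (.cons (some h) t) => - pc (some h) (wd n i g t)

/-- left multiplication by the vertex `(i, g)` -/
noncomputable def wdL (n : ℕ) (i : ℕ) (g : G) : (Fc G n →₀ ℤ) →ₗ[ℤ] (Fc G n →₀ ℤ) :=
  Finsupp.linearCombination ℤ (wd n i g)

@[simp] lemma wdL_single {n : ℕ} (i : ℕ) (g : G) (t : Fc G n) (c : ℤ) :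
    wdL n i g (single t c) = c • wd n i g t := by
  simp [wdL, Finsupp.linearCombination_single]

lemma wdL_zero_pc_none {n : ℕ} (g : G) (c : Fc G n →₀ ℤ) :
    wdL (n + 1) 0 g (pc none c) = pc (some g) c := by
  induction c using Finsupp.induction_linear with
  | zero => simp
  | add c₁ c₂ h₁ h₂ => simp only [map_add, h₁, h₂]
  | single t c => simp [wd]

lemma wdL_zero_pc_some {n : ℕ} (g h : G) (c : Fc G n →₀ ℤ) :
    wdL (n + 1) 0 g (pc (some h) c) = 0 := by
  induction c using Finsupp.induction_linear with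
  | zero => simp
  | add c₁ c₂ h₁ h₂ => simp only [map_add, h₁, h₂, add_zero]
  | single t c => simp [wd]

lemma wdL_succ_pc_none {n : ℕ} (i : ℕ) (g : G) (c : Fc G n →₀ ℤ) :
    wdL (n + 1) (i + 1) g (pc none c) = pc none (wdL n i g c) := by
  induction c using Finsupp.induction_linear with
  | zero => simp
  | add c₁ c₂ h₁ h₂ => simp only [map_add, h₁, h₂]
  | single t c => simp [wd]

lemma wdL_succ_pc_some {n : ℕ} (i : ℕ) (g h : G) (c : Fc G n →₀ ℤ) :
    wdL (n + 1) (i + 1) g (pc (some h) c) = - pc (some h) (wdL n i g c) := by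
  induction c using Finsupp.induction_linear with
  | zero => simp
  | add c₁ c₂ h₁ h₂ => simp only [map_add, h₁, h₂]; abel
  | single t c => simp [wd]

/-- the entry of a face at place `i` -/
def ent : (n : ℕ) → ℕ → Fc G n → Option G
  | 0, _, _ => none
  | _ + 1, 0, .cons a _ => a
  | n + 1, i + 1, .cons _ t => ent n i t

/-- The key identity: `∂ (v ∧ σ) + v ∧ ∂ σ = σ` if the entry of `σ` at the place of `v` is
compatible with `v`. -/
lemma bd_wd : (n : ℕ) → (i : ℕ) → (g : G) → (σ : Fc G n) → i < n →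
    (∀ h, ent n i σ = some h → h = g) →
    bdL n (wd n i g σ) + wdL n i g (bd n σ) = single σ 1
  | 0, _, _, _, hi, _ => absurd hi (Nat.not_lt_zero _)
  | n + 1, 0, g, (.cons none t), _, _ => by
    simp [wd, bd, wdL_zero_pc_none]
  | n + 1, 0, g, (.cons (some h) t), _, hc => by
    have : h = g := hc h rfl
    subst this
    simp only [wd, bd, map_zero, map_sub, wdL_zero_pc_some, zero_add, sub_zero]
    rw [wdL_single]
    simp [wd]
  | n + 1, i + 1, g, (.cons none t), hi, hc => by
    have ih := bd_wd n i g t (Nat.lt_of_succ_lt_succ hi) hc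
    simp only [wd, bd, bdL_pc_none, wdL_succ_pc_none]
    rw [← map_add, ih, pc_single]
  | n + 1, i + 1, g, (.cons (some h) t), hi, hc => by
    have ih := bd_wd n i g t (Nat.lt_of_succ_lt_succ hi) hc
    simp only [wd, bd, map_neg, map_sub, bdL_pc_some, wdL_succ_pc_some]
    rw [wdL_single]
    simp only [wd, one_smul]
    rw [← pc_single, ← ih, map_add]
    abel

lemma ent_wd : (n : ℕ) → (i : ℕ) → (g : G) → (σ : Fc G n) →
    AllL (fun σ' => ∀ j h, ent n j σ' = some h → ent n j σ = some h ∨ (j = i ∧ h = g)) (wd n i g σ)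
  | 0, _, _, _ => by
    simp only [wd]
    exact AllL.zero _
  | n + 1, 0, g, (.cons none t) => by
    rw [wd]
    refine AllL.single ?_ 1
    intro j h hj
    cases j with
    | zero =>
      right
      refine ⟨rfl, ?_⟩
      simp only [ent, Option.some.injEq] at hj
      exact hj.symm
    | succ j => left; exact hj
  | n + 1, 0, g, (.cons (some h) t) => AllL.zero _
  | n + 1, i + 1, g, (.cons none t) => by
    rw [wd]
    refine AllL.mapDomain (ent_wd n i g t) fun σ' h' j h hj => ?_
    cases j with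
    | zero => simp [ent] at hj
    | succ j =>
      rcases h' j h hj with h1 | ⟨h1, h2⟩
      · exact Or.inl h1
      · exact Or.inr ⟨by rw [h1], h2⟩
  | n + 1, i + 1, g, (.cons (some k) t) => by
    rw [wd]
    refine AllL.neg (AllL.mapDomain (ent_wd n i g t) fun σ' h' j h hj => ?_)
    cases j with
    | zero => left; exact hj
    | succ j =>
      rcases h' j h hj with h1 | ⟨h1, h2⟩
      · exact Or.inl h1
      · exact Or.inr ⟨by rw [h1], h2⟩

/-- alternation: a list of vertices gives a signed face or zero -/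
noncomputable def alt (n : ℕ) : List (ℕ × G) → (Fc G n →₀ ℤ)
  | [] => single (emp G n) 1
  | v :: l => wdL n v.1 v.2 (alt n l)

/-- alternation as a linear map -/
noncomputable def altL (n : ℕ) : Ch (ℕ × G) →ₗ[ℤ] (Fc G n →₀ ℤ) :=
  Finsupp.linearCombination ℤ (alt n)

@[simp] lemma altL_single {n : ℕ} (l : List (ℕ × G)) (c : ℤ) :
    altL n (single l c) = c • alt n l := by
  simp [altL, Finsupp.linearCombination_single]

lemma altL_consL {n : ℕ} (v : ℕ × G) (c : Ch (ℕ × G)) :
    altL n (consL v c) = wdL n v.1 v.2 (altL n c) := by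
  induction c using Finsupp.induction_linear with
  | zero => simp
  | add c₁ c₂ h₁ h₂ => simp only [map_add, h₁, h₂]
  | single l c => simp [alt]

lemma ent_emp : (n : ℕ) → (j : ℕ) → ent n j (emp G n) = none
  | 0, _ => by simp [ent]
  | _ + 1, 0 => rfl
  | n + 1, j + 1 => ent_emp n j

lemma ent_alt (n : ℕ) (l : List (ℕ × G)) :
    AllL (fun σ => ∀ j h, ent n j σ = some h → (j, h) ∈ l) (alt n l) := by
  induction l with
  | nil =>
    refine AllL.single ?_ 1
    intro j h hj
    rw [ent_emp] at hj
    simp at hj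
  | cons v l ih =>
    rw [alt]
    refine AllL.linearCombination ih fun σ hσ => (ent_wd n v.1 v.2 σ).mono fun σ' h' j h hj => ?_
    rcases h' j h hj with h1 | ⟨h1, h2⟩
    · exact List.mem_cons_of_mem _ (hσ j h h1)
    · have : (j, h) = v := Prod.ext h1 h2
      rw [this]; exact List.mem_cons_self

/-- compatible lists of vertices -/
def Compat (n : ℕ) (l : List (ℕ × G)) : Prop :=
  (∀ v ∈ l, v.1 < n) ∧ ∀ v ∈ l, ∀ w ∈ l, v.1 = w.1 → v.2 = w.2

lemma bdL_alt {n : ℕ} (l : List (ℕ × G)) (hl : Compat n l) :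
    bdL n (alt n l) = altL n (dl l) := by
  induction l with
  | nil =>
    simp only [alt, dl, map_zero, bdL_single, one_smul]
    have : ∀ n : ℕ, bd n (emp G n) = 0 := by
      intro n
      induction n with
      | zero => rfl
      | succ n ih => rw [emp, bd, ih, map_zero]
    exact this n
  | cons v l ih =>
    have ih' := ih ⟨fun w hw => hl.1 w (List.mem_cons_of_mem _ hw),
      fun w hw w' hw' => hl.2 w (List.mem_cons_of_mem _ hw) w' (List.mem_cons_of_mem _ hw')⟩
    have key : (bdL n ∘ₗ wdL n v.1 v.2 + wdL n v.1 v.2 ∘ₗ bdL n) (alt n l) =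
        (LinearMap.id : (Fc G n →₀ ℤ) →ₗ[ℤ] (Fc G n →₀ ℤ)) (alt n l) := by
      refine AllL.eq_of (ent_alt n l) fun σ hσ => ?_
      simp only [LinearMap.add_apply, LinearMap.comp_apply, wdL_single, bdL_single, one_smul,
        LinearMap.id_apply]
      refine bd_wd n v.1 v.2 σ (hl.1 v List.mem_cons_self) fun h hh => ?_
      have := hσ _ _ hh
      exact hl.2 (v.1, h) (List.mem_cons_of_mem _ this) v List.mem_cons_self rfl
    simp only [LinearMap.add_apply, LinearMap.comp_apply, LinearMap.id_apply] at key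
    rw [alt, dl, map_sub, altL_consL, altL_single, one_smul, ← ih']
    exact eq_sub_of_add_eq key

lemma bdL_altL {n : ℕ} {c : Ch (ℕ × G)} (hc : AllL (Compat n) c) :
    bdL n (altL n c) = altL n (dd c) := by
  have := AllL.eq_of hc (f := bdL n ∘ₗ altL n) (g := altL n ∘ₗ dd) fun l hl => by
    simp only [LinearMap.comp_apply, altL_single, one_smul, dd_single]
    exact bdL_alt l hl
  simpa using this

/-- the list of the vertices of a face -/
def verts {P : Type v} : (n : ℕ) → (ℕ → G → P) → Fc G n → List P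
  | 0, _, _ => []
  | n + 1, p, (.cons none t) => verts n (fun i => p (i + 1)) t
  | n + 1, p, (.cons (some g) t) => p 0 g :: verts n (fun i => p (i + 1)) t

/-- faces to ordered chains -/
noncomputable def vertL {P : Type v} (n : ℕ) (p : ℕ → G → P) : (Fc G n →₀ ℤ) →ₗ[ℤ] Ch P :=
  Finsupp.linearCombination ℤ (fun σ => single (verts n p σ) 1)

@[simp] lemma vertL_single {P : Type v} {n : ℕ} (p : ℕ → G → P) (σ : Fc G n) (c : ℤ) :
    vertL n p (single σ c) = single (verts n p σ) c := by
  simp [vertL, Finsupp.linearCombination_single]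

lemma vertL_pc_none {P : Type v} {n : ℕ} (p : ℕ → G → P) (c : Fc G n →₀ ℤ) :
    vertL (n + 1) p (pc none c) = vertL n (fun i => p (i + 1)) c := by
  induction c using Finsupp.induction_linear with
  | zero => simp
  | add c₁ c₂ h₁ h₂ => simp only [map_add, h₁, h₂]
  | single t c => simp [verts]

lemma vertL_pc_some {P : Type v} {n : ℕ} (p : ℕ → G → P) (g : G) (c : Fc G n →₀ ℤ) :
    vertL (n + 1) p (pc (some g) c) = consL (p 0 g) (vertL n (fun i => p (i + 1)) c) := by
  induction c using Finsupp.induction_linear with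
  | zero => simp
  | add c₁ c₂ h₁ h₂ => simp only [map_add, h₁, h₂]
  | single t c => simp [verts]

lemma dl_verts {P : Type v} : (n : ℕ) → (p : ℕ → G → P) → (σ : Fc G n) →
    dl (verts n p σ) = vertL n p (bd n σ)
  | 0, p, σ => by simp [verts, bd, dl]
  | n + 1, p, (.cons none t) => by
    rw [verts, bd, vertL_pc_none]
    exact dl_verts n _ t
  | n + 1, p, (.cons (some g) t) => by
    rw [verts, bd, dl, dl_verts n _ t, map_sub, vertL_pc_some, vertL_single, verts]

lemma dd_vertL {P : Type v} {n : ℕ} (p : ℕ → G → P) (c : Fc G n →₀ ℤ) :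
    dd (vertL n p c) = vertL n p (bdL n c) := by
  induction c using Finsupp.induction_linear with
  | zero => simp
  | add c₁ c₂ h₁ h₂ => simp only [map_add, h₁, h₂]
  | single t c => simp [dl_verts]

/-! ### Signs and traces -/

/-- parity sign of a face -/
def eps : (n : ℕ) → Fc G n → ℤ
  | 0, _ => 1
  | n + 1, (.cons none t) => eps n t
  | n + 1, (.cons (some _) t) => - eps n t

/-- sign operator -/
noncomputable def epL (n : ℕ) : (Fc G n →₀ ℤ) →ₗ[ℤ] (Fc G n →₀ ℤ) :=
  Finsupp.linearCombination ℤ (fun σ => single σ (eps n σ))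

@[simp] lemma epL_single {n : ℕ} (t : Fc G n) (c : ℤ) :
    epL n (single t c) = single t (c * eps n t) := by
  simp [epL, Finsupp.linearCombination_single]

lemma epL_pc_none {n : ℕ} (c : Fc G n →₀ ℤ) :
    epL (n + 1) (pc none c) = pc none (epL n c) := by
  induction c using Finsupp.induction_linear with
  | zero => simp
  | add c₁ c₂ h₁ h₂ => simp only [map_add, h₁, h₂]
  | single t c => simp only [pc_single, epL_single, eps]

lemma epL_pc_some {n : ℕ} (g : G) (c : Fc G n →₀ ℤ) :
    epL (n + 1) (pc (some g) c) = - pc (some g) (epL n c) := by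
  induction c using Finsupp.induction_linear with
  | zero => simp
  | add c₁ c₂ h₁ h₂ => simp only [map_add, h₁, h₂]; abel
  | single t c => simp only [pc_single, epL_single, eps, mul_neg, Finsupp.single_neg]

lemma epL_bd : (n : ℕ) → (σ : Fc G n) → epL n (bd n σ) = - (eps n σ • bd n σ)
  | 0, _ => by simp [bd]
  | n + 1, (.cons none t) => by
    rw [bd, epL_pc_none, epL_bd n t, eps, map_neg, map_smul]
  | n + 1, (.cons (some g) t) => by
    rw [bd, map_sub, epL_pc_some, epL_bd n t, eps, map_neg, map_smul, epL_single, eps, smul_sub,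
      neg_smul, neg_smul, Finsupp.smul_single, smul_eq_mul, mul_one, one_mul]
    abel

lemma epL_bdL {n : ℕ} (c : Fc G n →₀ ℤ) : epL n (bdL n c) = - bdL n (epL n c) := by
  induction c using Finsupp.induction_linear with
  | zero => simp
  | add c₁ c₂ h₁ h₂ => simp only [map_add, h₁, h₂]; abel
  | single t c =>
    rw [bdL_single, map_smul, epL_bd, epL_single, bdL_single, smul_neg, smul_smul]

/-- trace -/
noncomputable def trc {ι : Type u} [Fintype ι] (M : (ι →₀ ℤ) →ₗ[ℤ] (ι →₀ ℤ)) : ℤ :=
  ∑ i, M (single i 1) i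

lemma apply_eq_sum {ι κ : Type u} [Fintype ι] (A : (ι →₀ ℤ) →ₗ[ℤ] (κ →₀ ℤ)) (c : ι →₀ ℤ)
    (k : κ) : A c k = ∑ i, c i * A (single i 1) k := by
  have hc : c = ∑ i, c i • Finsupp.single i (1 : ℤ) := by
    ext j
    rw [Finsupp.finsetSum_apply, Finset.sum_eq_single j]
    · simp
    · intro i _ hij
      simp [Finsupp.single_eq_of_ne (Ne.symm hij)]
    · intro h; exact absurd (Finset.mem_univ j) h
  conv_lhs => rw [hc]
  rw [map_sum, Finsupp.finsetSum_apply]
  refine Finset.sum_congr rfl fun i _ => ?_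
  rw [map_smul, Finsupp.smul_apply, smul_eq_mul]

lemma trc_comm {ι κ : Type u} [Fintype ι] [Fintype κ] (A : (ι →₀ ℤ) →ₗ[ℤ] (κ →₀ ℤ))
    (B : (κ →₀ ℤ) →ₗ[ℤ] (ι →₀ ℤ)) : trc (A ∘ₗ B) = trc (B ∘ₗ A) := by
  simp only [trc, LinearMap.comp_apply]
  calc ∑ k, A (B (single k 1)) k = ∑ k, ∑ i, B (single k 1) i * A (single i 1) k := by
        refine Finset.sum_congr rfl fun k _ => apply_eq_sum A _ k
    _ = ∑ i, ∑ k, B (single k 1) i * A (single i 1) k := Finset.sum_comm
    _ = ∑ i, B (A (single i 1)) i := by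
        refine Finset.sum_congr rfl fun i _ => ?_
        rw [apply_eq_sum B _ i]
        refine Finset.sum_congr rfl fun k _ => mul_comm _ _

lemma trc_add {ι : Type u} [Fintype ι] (A B : (ι →₀ ℤ) →ₗ[ℤ] (ι →₀ ℤ)) :
    trc (A + B) = trc A + trc B := by
  simp [trc, Finset.sum_add_distrib]

lemma strc_eq_zero [Fintype G] {n : ℕ} (h : (Fc G n →₀ ℤ) →ₗ[ℤ] (Fc G n →₀ ℤ)) :
    trc (epL n ∘ₗ (bdL n ∘ₗ h + h ∘ₗ bdL n)) = 0 := by
  rw [LinearMap.comp_add, trc_add]
  have h1 : trc (epL n ∘ₗ h ∘ₗ bdL n) = trc ((bdL n ∘ₗ epL n) ∘ₗ h) := by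
    rw [← LinearMap.comp_assoc, trc_comm, LinearMap.comp_assoc]
  rw [h1, ← trc_add, ← LinearMap.comp_assoc, ← LinearMap.add_comp]
  have h2 : epL n ∘ₗ bdL n + bdL n ∘ₗ epL n = (0 : (Fc G n →₀ ℤ) →ₗ[ℤ] (Fc G n →₀ ℤ)) := by
    refine LinearMap.ext fun c => ?_
    simp only [LinearMap.add_apply, LinearMap.comp_apply, epL_bdL, LinearMap.zero_apply]
    abel
  rw [h2, LinearMap.zero_comp]
  simp [trc]

/-! ### The group action -/

/-- left translation of faces -/
def sm [Group G] : (n : ℕ) → G → Fc G n → Fc G n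
  | 0, _, t => t
  | n + 1, g, .cons a t => .cons (a.map (g * ·)) (sm n g t)

lemma sm_inv_sm [Group G] : (n : ℕ) → (g : G) → (t : Fc G n) → sm n g⁻¹ (sm n g t) = t
  | 0, _, _ => by simp only [sm]
  | n + 1, g, (.cons none t) => by
    simp only [sm, Option.map_none, sm_inv_sm n g t]
  | n + 1, g, (.cons (some h) t) => by
    simp only [sm, Option.map_some, sm_inv_sm n g t, inv_mul_cancel_left]

/-- translation as an equivalence -/
def smE [Group G] (n : ℕ) (g : G) : Fc G n ≃ Fc G n where
  toFun := sm n g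
  invFun := sm n g⁻¹
  left_inv := sm_inv_sm n g
  right_inv t := by
    have := sm_inv_sm n g⁻¹ t
    rwa [inv_inv] at this

lemma sum_invariant [Group G] [Fintype G] : (n : ℕ) → (f : Fc G n → ℤ) →
    (∀ g t, f (sm n g t) = f t) → (Fintype.card G : ℤ) ∣ ∑ t, f t - f (emp G n)
  | 0, f, _ => by
    have : ∑ t : Fc G 0, f t = f (emp G 0) := by
      rw [← Equiv.sum_comp (Fc.nilEquiv G)]
      simp only [Finset.univ_unique, Finset.sum_singleton]
      rfl
    rw [this, sub_self]
    exact dvd_zero _
  | n + 1, f, hf => by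
    have h1 : ∑ t : Fc G (n + 1), f t = ∑ a : Option G, ∑ t : Fc G n, f (.cons a t) := by
      rw [← Equiv.sum_comp (Fc.consEquiv G n)]
      exact Fintype.sum_prod_type _
    rw [h1, Fintype.sum_option]
    have h2 : ∀ g : G, ∑ t : Fc G n, f (.cons (some g) t) = ∑ t : Fc G n, f (.cons (some 1) t) := by
      intro g
      rw [← Equiv.sum_comp (smE n g)]
      refine Finset.sum_congr rfl fun t _ => ?_
      have := hf g (.cons (some 1) t)
      simp only [sm, Option.map_some, mul_one] at this
      exact this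
    rw [Finset.sum_congr rfl fun g _ => h2 g, Finset.sum_const, Finset.card_univ]
    have h3 := sum_invariant n (fun t => f (.cons none t)) (fun g t => by
      have := hf g (.cons none t)
      simpa only [sm, Option.map_none] using this)
    rw [add_sub_right_comm]
    refine dvd_add h3 ?_
    rw [nsmul_eq_mul]
    exact dvd_mul_right _ _

lemma eps_sm [Group G] : (n : ℕ) → (g : G) → (t : Fc G n) → eps n (sm n g t) = eps n t
  | 0, _, _ => by simp only [sm]
  | n + 1, g, (.cons none t) => by simp only [sm, Option.map_none, eps, eps_sm n g t]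
  | n + 1, g, (.cons (some h) t) => by simp only [sm, Option.map_some, eps, eps_sm n g t]

lemma eps_emp (n : ℕ) : eps n (emp G n) = 1 := by
  induction n with
  | zero => rfl
  | succ n ih => rw [emp, eps, ih]

/-- **Algebraic Borsuk–Ulam–Dold theorem.** There is no equivariant augmentation preserving chain
map from the augmented chain complex of the join of `n + 1` copies of `G` to that of the join of
`n` copies. -/
theorem no_chain_map [Group G] [Fintype G] [Nontrivial G] (n : ℕ)
    (Φ : (Fc G (n + 1) →₀ ℤ) →ₗ[ℤ] (Fc G n →₀ ℤ))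
    (h1 : ∀ σ, bdL n (Φ (single σ 1)) = Φ (bd (n + 1) σ))
    (h2 : ∀ (g : G) σ, Φ (single (sm (n + 1) g σ) 1) = mapDomain (sm n g) (Φ (single σ 1)))
    (h3 : Φ (single (emp G (n + 1)) 1) = single (emp G n) 1) : False := by
  -- the cone homotopy
  have h1' : ∀ c, bdL n (Φ c) = Φ (bdL (n + 1) c) := by
    intro c
    induction c using Finsupp.induction_linear with
    | zero => simp
    | add c₁ c₂ h₁ h₂ => simp only [map_add, h₁, h₂]
    | single t c =>
      have : (single t c : Fc G (n + 1) →₀ ℤ) = c • single t 1 := by simp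
      rw [this, map_smul, map_smul, h1, map_smul, map_smul, bdL_single, one_smul]
  set ψ : (Fc G n →₀ ℤ) →ₗ[ℤ] (Fc G n →₀ ℤ) := Φ ∘ₗ pc none with hψ
  set H : (Fc G n →₀ ℤ) →ₗ[ℤ] (Fc G n →₀ ℤ) := Φ ∘ₗ pc (some 1) with hH
  have key : ψ = bdL n ∘ₗ H + H ∘ₗ bdL n := by
    refine LinearMap.ext fun c => ?_
    simp only [hψ, hH, LinearMap.add_apply, LinearMap.comp_apply]
    rw [h1', bdL_pc_some, map_sub]
    abel
  have hz := strc_eq_zero (G := G) H
  rw [← key] at hz
  have hinv : ∀ (g : G) (t : Fc G n),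
      (fun t => eps n t * ψ (single t 1) t) (sm n g t) = (fun t => eps n t * ψ (single t 1) t) t := by
    intro g t
    simp only [hψ, LinearMap.comp_apply, pc_single]
    have := h2 g (.cons none t)
    simp only [sm, Option.map_none] at this
    rw [this, eps_sm]
    congr 1
    exact Finsupp.mapDomain_apply (smE n g).injective _ t
  have hdvd := sum_invariant n (fun t => eps n t * ψ (single t 1) t) hinv
  have hsum : ∑ t, (fun t => eps n t * ψ (single t 1) t) t = 0 := by
    rw [← hz]
    simp only [trc, LinearMap.comp_apply]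
    refine Finset.sum_congr rfl fun t _ => ?_
    have : ∀ c : Fc G n →₀ ℤ, (epL n c) t = eps n t * c t := by
      intro c
      classical
      induction c using Finsupp.induction_linear with
      | zero => simp
      | add c₁ c₂ h₁ h₂ => simp only [map_add, Finsupp.add_apply, h₁, h₂, mul_add]
      | single s c =>
        rw [epL_single]
        by_cases hs : s = t
        · subst hs; simp [mul_comm]
        · simp [Finsupp.single_eq_of_ne (Ne.symm hs)]
    rw [this]
  rw [hsum] at hdvd
  have hemp : (fun t => eps n t * ψ (single t 1) t) (emp G n) = 1 := by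
    simp only [hψ, LinearMap.comp_apply, pc_single]
    have : ((.cons none (emp G n)) : Fc G (n + 1)) = emp G (n + 1) := rfl
    rw [this, h3, eps_emp]
    simp
  beta_reduce at hemp
  rw [hemp, zero_sub, dvd_neg] at hdvd
  have hcard : Fintype.card G = 1 := by
    have := Int.natAbs_dvd_natAbs.mpr hdvd
    simpa using this
  exact absurd hcard (Fintype.one_lt_card (α := G)).ne'

end Simplicial

end Pool.Agent.Helper73_CrossIndex
end -- Pool.Agent.Helper73_CrossIndex.Chains

section -- Pool.Agent.Helper73_CrossIndex.Subdiv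

/-!
# Barycentric subdivision of ordered affine chains
-/

universe u v

namespace Pool.Agent.Helper73_CrossIndex

open Finsupp (single mapDomain)

section Bary

variable {E : Type v} [AddCommGroup E] [Module ℝ E]

/-- barycenter of a list of points -/
noncomputable def bary (l : List E) : E := ((l.length : ℝ))⁻¹ • l.sum

lemma bary_map (A : E →ₗ[ℝ] E) (l : List E) : bary (l.map A) = A (bary l) := by
  simp only [bary, List.length_map, map_smul]
  congr 1
  induction l with
  | nil => simp
  | cons a l ih => simp [ih]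

lemma bary_mem {C : Set E} (hC : Convex ℝ C) : (l : List E) → l ≠ [] → (∀ x ∈ l, x ∈ C) →
    bary l ∈ C
  | [], h, _ => absurd rfl h
  | [a], _, h => by
    have := h a (by simp)
    simpa [bary] using this
  | a :: b :: l, _, h => by
    have ih := bary_mem hC (b :: l) (by simp) (fun x hx => h x (List.mem_cons_of_mem _ hx))
    have ha := h a (by simp)
    set m : ℕ := (b :: l).length with hm
    have hmpos : (0 : ℝ) < m := by
      rw [hm]; simp only [List.length_cons]; positivity
    have key : bary (a :: b :: l) = (1 / ((m : ℝ) + 1)) • a + ((m : ℝ) / (m + 1)) • bary (b :: l) := by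
      have e1 : (a :: b :: l).length = m + 1 := rfl
      rw [bary, e1, List.sum_cons]
      rw [bary, ← hm, smul_smul]
      have e2 : (m : ℝ) / (m + 1) * (m : ℝ)⁻¹ = ((m : ℝ) + 1)⁻¹ := by
        field_simp
      rw [e2]
      push_cast
      rw [smul_add, one_div]
    rw [key]
    refine hC ha ih (by positivity) (by positivity) ?_
    field_simp
    ring

/-- subdivision of a list of length at most `k` (fuel `k`) -/
noncomputable def sdN : ℕ → List E → Ch E
  | 0, l => single l 1
  | k + 1, l => consL (bary l) (Finsupp.linearCombination ℤ (sdN k) (dl l))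

/-- barycentric subdivision of a list -/
noncomputable def sdl (l : List E) : Ch E := sdN l.length l

/-- barycentric subdivision -/
noncomputable def sdL : Ch E →ₗ[ℤ] Ch E := Finsupp.linearCombination ℤ sdl

@[simp] lemma sdL_single (l : List E) (c : ℤ) : sdL (single l c) = c • sdl l := by
  simp [sdL, Finsupp.linearCombination_single]

lemma sdl_nil : sdl ([] : List E) = single [] 1 := rfl

lemma sdl_eq {l : List E} (hl : l ≠ []) : sdl l = consL (bary l) (sdL (dl l)) := by
  obtain ⟨k, hk⟩ : ∃ k, l.length = k + 1 := by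
    cases l with
    | nil => exact absurd rfl hl
    | cons a l => exact ⟨l.length, rfl⟩
  rw [sdl, hk, sdN]
  congr 1
  refine AllL.eq_of (dl_all l) fun l' hl' => ?_
  rw [sdL_single, one_smul, Finsupp.linearCombination_single, one_smul, sdl]
  have : l'.length = k := by omega
  rw [this]

lemma dd_sdl : (k : ℕ) → (l : List E) → l.length = k → dd (sdl l) = sdL (dl l)
  | 0, l, h => by
    have : l = [] := List.length_eq_zero_iff.mp h
    subst this
    simp [sdl_nil, dl]
  | k + 1, l, h => by
    have hne : l ≠ [] := by rintro rfl; simp at h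
    rw [sdl_eq hne, dd_consL]
    have h2 : dd (sdL (dl l)) = sdL (dd (dl l)) := by
      have := AllL.eq_of (dl_all l) (f := dd ∘ₗ sdL) (g := sdL ∘ₗ dd) fun l' hl' => by
        simp only [LinearMap.comp_apply, sdL_single, one_smul, dd_single]
        exact dd_sdl k l' (by omega)
      simpa using this
    rw [h2, dd_dl, map_zero, map_zero, sub_zero]

lemma dd_sdL (c : Ch E) : dd (sdL c) = sdL (dd c) := by
  induction c using Finsupp.induction_linear with
  | zero => simp
  | add c₁ c₂ h₁ h₂ => simp only [map_add, h₁, h₂]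
  | single l c => simp [dd_sdl _ l rfl]

lemma sdl_map (A : E →ₗ[ℝ] E) : (k : ℕ) → (l : List E) → l.length = k →
    sdl (l.map A) = chMap A (sdl l)
  | 0, l, h => by
    have : l = [] := List.length_eq_zero_iff.mp h
    subst this
    simp [sdl_nil]
  | k + 1, l, h => by
    have hne : l ≠ [] := by rintro rfl; simp at h
    have hne' : l.map A ≠ [] := by simpa using hne
    rw [sdl_eq hne', sdl_eq hne, chMap_consL, bary_map, dl_map]
    congr 1
    have := AllL.eq_of (dl_all l) (f := sdL ∘ₗ chMap A) (g := chMap A ∘ₗ sdL) fun l' hl' => by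
      simp only [LinearMap.comp_apply, chMap_single, sdL_single, one_smul]
      exact sdl_map A k l' (by omega)
    simpa using this

lemma sdL_chMap (A : E →ₗ[ℝ] E) (c : Ch E) : sdL (chMap A c) = chMap A (sdL c) := by
  induction c using Finsupp.induction_linear with
  | zero => simp
  | add c₁ c₂ h₁ h₂ => simp only [map_add, h₁, h₂]
  | single l c => simp [sdl_map A _ l rfl]

/-- iterated subdivision -/
noncomputable def sdI : ℕ → (Ch E →ₗ[ℤ] Ch E)
  | 0 => LinearMap.id
  | r + 1 => sdL ∘ₗ sdI r

lemma dd_sdI (r : ℕ) (c : Ch E) : dd (sdI r c) = sdI r (dd c) := by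
  induction r with
  | zero => rfl
  | succ r ih => simp only [sdI, LinearMap.comp_apply, dd_sdL, ih]

lemma sdI_chMap (r : ℕ) (A : E →ₗ[ℝ] E) (c : Ch E) : sdI r (chMap A c) = chMap A (sdI r c) := by
  induction r with
  | zero => rfl
  | succ r ih => simp only [sdI, LinearMap.comp_apply, ih, sdL_chMap]

lemma sdI_nil (r : ℕ) (c : ℤ) : sdI r (single ([] : List E) c) = single [] c := by
  induction r with
  | zero => rfl
  | succ r ih => simp [sdI, LinearMap.comp_apply, ih, sdl_nil]

end Bary

section Small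

variable {E : Type v} [NormedAddCommGroup E] [NormedSpace ℝ E]

omit [NormedSpace ℝ E] in
lemma sum_norm_le (D : ℝ) (x : E) (l : List E) (h : ∀ y ∈ l, dist y x ≤ D) :
    ‖(l.map (fun y => y - x)).sum‖ ≤ l.length * D := by
  induction l with
  | nil => simp
  | cons a l ih =>
    rw [List.map_cons, List.sum_cons, List.length_cons]
    have h1 := ih fun y hy => h y (List.mem_cons_of_mem _ hy)
    have h2 := h a List.mem_cons_self
    rw [dist_eq_norm] at h2
    calc _ ≤ ‖a - x‖ + ‖(l.map (fun y => y - x)).sum‖ := norm_add_le _ _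
      _ ≤ D + l.length * D := add_le_add h2 h1
      _ = _ := by push_cast; ring

lemma sum_sub (x : E) (l : List E) :
    (l.map (fun y => y - x)).sum = l.sum - (l.length : ℝ) • x := by
  induction l with
  | nil => simp
  | cons a l ih =>
    rw [List.map_cons, List.sum_cons, List.sum_cons, List.length_cons, ih]
    push_cast
    rw [add_smul, one_smul]
    abel

lemma dist_bary_le {D : ℝ} {l : List E} (hD : ∀ x ∈ l, ∀ y ∈ l, dist x y ≤ D)
    {k : ℕ} (hk : l.length = k + 1) {x : E} (hx : x ∈ l) :
    dist x (bary l) ≤ k / (k + 1) * D := by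
  obtain ⟨l₁, l₂, rfl⟩ := List.append_of_mem hx
  have hlen : l₁.length + l₂.length = k := by
    simp only [List.length_append, List.length_cons] at hk; omega
  have e : bary (l₁ ++ x :: l₂) - x = ((k : ℝ) + 1)⁻¹ • ((l₁ ++ x :: l₂).map (fun y => y - x)).sum := by
    rw [sum_sub, bary, hk, smul_sub, smul_smul]
    push_cast
    rw [inv_mul_cancel₀ (by positivity), one_smul]
  have e2 : ((l₁ ++ x :: l₂).map (fun y => y - x)).sum =
      ((l₁ ++ l₂).map (fun y => y - x)).sum := by
    simp [List.sum_append]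
  rw [dist_comm, dist_eq_norm, e, e2, norm_smul, Real.norm_of_nonneg (by positivity)]
  have h3 := sum_norm_le D x (l₁ ++ l₂) (fun y hy => by
    refine hD y ?_ x hx
    rcases List.mem_append.mp hy with h | h
    · exact List.mem_append_left _ h
    · exact List.mem_append_right _ (List.mem_cons_of_mem _ h))
  rw [List.length_append, hlen] at h3
  calc _ ≤ ((k : ℝ) + 1)⁻¹ * (k * D) := mul_le_mul_of_nonneg_left h3 (by positivity)
    _ = _ := by rw [div_eq_mul_inv]; ring

lemma frac_mono {k N : ℕ} (h : k ≤ N) : (k : ℝ) / (k + 1) ≤ N / (N + 1) := by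
  rw [div_le_div_iff₀ (by positivity) (by positivity)]
  have : (k : ℝ) ≤ N := by exact_mod_cast h
  nlinarith

lemma small_sdl {N : ℕ} {D : ℝ} (hD : 0 ≤ D) : (k : ℕ) → (l : List E) → l.length = k →
    k ≤ N + 1 → (∀ x ∈ l, ∀ y ∈ l, dist x y ≤ D) →
    AllL (fun l' => l'.length ≤ k ∧ (∀ x ∈ l', ∀ y ∈ l', dist x y ≤ N / (N + 1) * D) ∧
      ∀ x ∈ l', x ∈ convexHull ℝ {y | y ∈ l}) (sdl l)
  | 0, l, h, _, _ => by
    have : l = [] := List.length_eq_zero_iff.mp h
    subst this
    rw [sdl_nil]
    exact AllL.single (by simp) 1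
  | k + 1, l, h, hkN, hsm => by
    have hne : l ≠ [] := by rintro rfl; simp at h
    have hθ : (0 : ℝ) ≤ N / (N + 1) * D := by positivity
    rw [sdl_eq hne]
    have h1 : AllL (fun l' => l'.length ≤ k ∧ (∀ x ∈ l', ∀ y ∈ l', dist x y ≤ N / (N + 1) * D) ∧
      ∀ x ∈ l', x ∈ convexHull ℝ {y | y ∈ l}) (sdL (dl l)) := by
      refine AllL.linearCombination (dl_all l) fun l' hl' => ?_
      refine (small_sdl (N := N) hD k l' (by omega) (by omega)
        (fun x hx y hy => hsm x (hl'.2 x hx) y (hl'.2 y hy))).mono fun l'' h'' => ?_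
      refine ⟨h''.1, h''.2.1, fun x hx => ?_⟩
      exact convexHull_mono (fun y hy => hl'.2 y hy) (h''.2.2 x hx)
    refine AllL.mapDomain h1 fun l' hl' => ⟨Nat.succ_le_succ hl'.1, ?_, ?_⟩
    · have hb : ∀ y ∈ l', dist y (bary l) ≤ N / (N + 1) * D := by
        intro y hy
        have hy' := hl'.2.2 y hy
        have : convexHull ℝ {y | y ∈ l} ⊆ Metric.closedBall (bary l) (k / (k + 1) * D) := by
          refine convexHull_min (fun z hz => ?_) (convex_closedBall _ _)
          exact dist_bary_le hsm h hz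
        refine (this hy').trans ?_
        exact mul_le_mul_of_nonneg_right (frac_mono (by omega)) hD
      intro x hx y hy
      rcases List.mem_cons.mp hx with rfl | hx
      · rcases List.mem_cons.mp hy with rfl | hy
        · rw [dist_self]; exact hθ
        · rw [dist_comm]; exact hb y hy
      · rcases List.mem_cons.mp hy with rfl | hy
        · exact hb x hx
        · exact hl'.2.1 x hx y hy
    · intro x hx
      rcases List.mem_cons.mp hx with rfl | hx
      · exact bary_mem (convex_convexHull ℝ _) l hne fun x hx => subset_convexHull ℝ _ hx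
      · exact hl'.2.2 x hx

/-- small lists in a convex set -/
def SmallIn (N : ℕ) (D : ℝ) (C : Set E) (l : List E) : Prop :=
  l.length ≤ N + 1 ∧ (∀ x ∈ l, ∀ y ∈ l, dist x y ≤ D) ∧ ∀ x ∈ l, x ∈ C

lemma small_sdI {N : ℕ} {D : ℝ} (hD : 0 ≤ D) {C : Set E} (hC : Convex ℝ C) (r : ℕ)
    {l : List E} (hl : SmallIn N D C l) :
    AllL (SmallIn N ((N / (N + 1)) ^ r * D) C) (sdI r (single l 1)) := by
  induction r with
  | zero =>
    refine AllL.single ?_ 1
    simpa using hl
  | succ r ih =>
    rw [sdI, LinearMap.comp_apply]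
    refine AllL.linearCombination ih fun l' hl' => ?_
    refine (small_sdl (N := N) (by positivity) _ l' rfl hl'.1 hl'.2.1).mono fun l'' h'' => ?_
    refine ⟨h''.1.trans hl'.1, fun x hx y hy => ?_, fun x hx => ?_⟩
    · refine (h''.2.1 x hx y hy).trans (le_of_eq ?_)
      rw [pow_succ]; ring
    · exact convexHull_min (fun y hy => hl'.2.2 y hy) hC (h''.2.2 x hx)

end Small

end Pool.Agent.Helper73_CrossIndex
end -- Pool.Agent.Helper73_CrossIndex.Subdiv

section -- Pool.Agent.Helper73_CrossIndex.Dold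

/-!
# The Borsuk–Ulam–Dold theorem for `E_n G`
-/

universe u v

namespace Pool.Agent.Helper73_CrossIndex

open Finsupp (single mapDomain)

/-! ## Equivariance of the chain level constructions -/

section Equivariance

variable {G : Type u} [Group G]

lemma wd_sm : (n : ℕ) → (i : ℕ) → (g h : G) → (σ : Fc G n) →
    wd n i (g * h) (sm n g σ) = mapDomain (sm n g) (wd n i h σ)
  | 0, _, _, _, _ => by simp [wd]
  | n + 1, 0, g, h, .cons none t => by
    simp only [sm, Option.map_none, wd, Finsupp.mapDomain_single, Option.map_some]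
  | n + 1, 0, g, h, .cons (some k) t => by
    simp only [sm, Option.map_some, wd, Finsupp.mapDomain_zero]
  | n + 1, i + 1, g, h, .cons none t => by
    simp only [sm, Option.map_none, wd, wd_sm n i g h t]
    simp only [pc, Finsupp.lmapDomain_apply, ← Finsupp.mapDomain_comp]
    rfl
  | n + 1, i + 1, g, h, .cons (some k) t => by
    simp only [sm, Option.map_some, wd, wd_sm n i g h t]
    rw [← Finsupp.lmapDomain_apply (R := ℤ) (M := ℤ) (f := sm (n + 1) g), map_neg]
    simp only [pc, Finsupp.lmapDomain_apply, ← Finsupp.mapDomain_comp]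
    rfl

lemma wdL_mapDomain (n i : ℕ) (g h : G) (c : Fc G n →₀ ℤ) :
    wdL n i (g * h) (mapDomain (sm n g) c) = mapDomain (sm n g) (wdL n i h c) := by
  induction c using Finsupp.induction_linear with
  | zero => simp
  | add c₁ c₂ h₁ h₂ => simp only [Finsupp.mapDomain_add, map_add, h₁, h₂]
  | single t c =>
    simp only [Finsupp.mapDomain_single, wdL_single, wd_sm]
    rw [Finsupp.mapDomain_smul]

lemma sm_emp (g : G) : (n : ℕ) → sm n g (emp G n) = emp G n
  | 0 => rfl
  | n + 1 => by simp only [emp, sm, Option.map_none, sm_emp g n]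

lemma alt_map (n : ℕ) (g : G) (l : List (ℕ × G)) :
    alt n (l.map fun v => (v.1, g * v.2)) = mapDomain (sm n g) (alt n l) := by
  induction l with
  | nil => simp only [List.map_nil, alt, Finsupp.mapDomain_single, sm_emp]
  | cons v l ih => simp only [List.map_cons, alt, ih, wdL_mapDomain]

lemma altL_chMap (n : ℕ) (g : G) (c : Ch (ℕ × G)) :
    altL n (chMap (fun v => (v.1, g * v.2)) c) = mapDomain (sm n g) (altL n c) := by
  induction c using Finsupp.induction_linear with
  | zero => simp
  | add c₁ c₂ h₁ h₂ => simp only [Finsupp.mapDomain_add, map_add, h₁, h₂]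
  | single l c =>
    simp only [chMap_single, altL_single, alt_map, Finsupp.mapDomain_smul]

lemma verts_sm {P : Type v} (A : P → P) : (n : ℕ) → (p : ℕ → G → P) → (g : G) →
    (∀ i h, i < n → p i (g * h) = A (p i h)) → (σ : Fc G n) →
    verts n p (sm n g σ) = (verts n p σ).map A
  | 0, _, _, _, _ => by simp [verts]
  | n + 1, p, g, hp, .cons none t => by
    simp only [sm, Option.map_none, verts]
    exact verts_sm A n _ g (fun i h hi => hp (i + 1) h (Nat.succ_lt_succ hi)) t
  | n + 1, p, g, hp, .cons (some k) t => by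
    simp only [sm, Option.map_some, verts, List.map_cons]
    rw [verts_sm A n _ g (fun i h hi => hp (i + 1) h (Nat.succ_lt_succ hi)) t,
      hp 0 k (Nat.succ_pos n)]

omit [Group G] in
lemma mem_verts {P : Type v} : (n : ℕ) → (p : ℕ → G → P) → (σ : Fc G n) → (x : P) →
    x ∈ verts n p σ → ∃ i g, i < n ∧ ent n i σ = some g ∧ x = p i g
  | 0, _, _, _, h => by simp [verts] at h
  | n + 1, p, .cons none t, x, h => by
    simp only [verts] at h
    obtain ⟨i, g, hi, h1, h2⟩ := mem_verts n _ t x h
    exact ⟨i + 1, g, Nat.succ_lt_succ hi, h1, h2⟩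
  | n + 1, p, .cons (some k) t, x, h => by
    simp only [verts, List.mem_cons] at h
    rcases h with h | h
    · exact ⟨0, k, Nat.succ_pos n, rfl, h⟩
    · obtain ⟨i, g, hi, h1, h2⟩ := mem_verts n _ t x h
      exact ⟨i + 1, g, Nat.succ_lt_succ hi, h1, h2⟩

omit [Group G] in
lemma length_verts {P : Type v} : (n : ℕ) → (p : ℕ → G → P) → (σ : Fc G n) →
    (verts n p σ).length ≤ n
  | 0, _, _ => by simp [verts]
  | n + 1, p, .cons none t => by
    simp only [verts]
    exact (length_verts n _ t).trans (Nat.le_succ n)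
  | n + 1, p, .cons (some k) t => by
    simp only [verts, List.length_cons]
    exact Nat.succ_le_succ (length_verts n _ t)

omit [Group G] in
lemma verts_emp {P : Type v} : (n : ℕ) → (p : ℕ → G → P) → verts n p (emp G n) = []
  | 0, _ => by simp [verts]
  | n + 1, p => by
    simp only [emp, verts]
    exact verts_emp n _

end Equivariance

/-! ## Realisations -/

section Realization

variable {G : Type u} [Group G]

/-- the underlying set of the realisation -/
def RSet (X : GComplex G) : Set (X.V → ℝ) :=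
  {x | (∀ v, 0 ≤ x v) ∧ ∑ v, x v = 1 ∧ ∃ s ∈ X.K.faces, ∀ v, x v ≠ 0 → v ∈ s}

/-- a point of the realisation from its coordinates -/
def mkR (X : GComplex G) (x : RSet X) : X.Realization := ⟨x.1, x.2.1, x.2.2.1, x.2.2.2⟩

lemma coord_mem {X : GComplex G} (x : X.Realization) : x.coord ∈ RSet X :=
  ⟨x.nonneg, x.sum_eq_one, x.support_subset⟩

lemma continuous_mkR (X : GComplex G) : Continuous (mkR X) :=
  continuous_induced_rng.mpr continuous_subtype_val

lemma continuous_coord (X : GComplex G) :
    Continuous (GComplex.Realization.coord : X.Realization → _) :=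
  continuous_induced_dom

lemma isCompact_RSet (X : GComplex G) : IsCompact (RSet X) := by
  have hclosed : IsClosed (RSet X) := by
    have : RSet X = ⋃ s ∈ X.K.faces,
        ({x | (∀ v, 0 ≤ x v) ∧ ∑ v, x v = 1 ∧ ∀ v, v ∉ s → x v = 0} : Set (X.V → ℝ)) := by
      ext x
      simp only [RSet, Set.mem_ofPred_eq, Set.mem_iUnion, exists_prop]
      constructor
      · rintro ⟨h1, h2, s, hs, h3⟩
        refine ⟨s, hs, h1, h2, fun v hv => ?_⟩
        by_contra h
        exact hv (h3 v h)
      · rintro ⟨s, hs, h1, h2, h3⟩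
        refine ⟨h1, h2, s, hs, fun v hv => ?_⟩
        by_contra h
        exact hv (h3 v h)
    rw [this]
    refine Set.Finite.isClosed_biUnion (Set.toFinite _) fun s _ => ?_
    refine IsClosed.inter ?_ (IsClosed.inter ?_ ?_)
    · have : {x : X.V → ℝ | ∀ v, 0 ≤ x v} = ⋂ v, {x | 0 ≤ x v} := by ext; simp
      change IsClosed {x : X.V → ℝ | ∀ v, 0 ≤ x v}
      rw [this]
      exact isClosed_iInter fun v => isClosed_le continuous_const (continuous_apply v)
    · change IsClosed {x : X.V → ℝ | ∑ v, x v = 1}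
      exact isClosed_eq (continuous_finsetSum _ fun v _ => continuous_apply v) continuous_const
    · change IsClosed {x : X.V → ℝ | ∀ v, v ∉ s → x v = 0}
      have : {x : X.V → ℝ | ∀ v, v ∉ s → x v = 0} = ⋂ v, ⋂ (_ : v ∉ s), {x | x v = 0} := by
        ext; simp
      rw [this]
      exact isClosed_iInter fun v => isClosed_iInter fun _ =>
        isClosed_eq (continuous_apply v) continuous_const
  refine IsCompact.of_isClosed_subset (isCompact_Icc (a := (0 : X.V → ℝ)) (b := 1)) hclosed ?_
  rintro x ⟨h1, h2, -⟩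
  refine ⟨fun v => h1 v, fun v => ?_⟩
  rw [Pi.one_apply, ← h2]
  exact Finset.single_le_sum (fun w _ => h1 w) (Finset.mem_univ v)

lemma smul_coord (X : GComplex G) (g : G) (x : X.Realization) (v : X.V) :
    (g • x).coord v = x.coord (g⁻¹ • v) := rfl

variable [Fintype G]

lemma label_exists (n : ℕ) (z : (E G n).Realization) :
    ∃ i : ℕ, ∃ h : i < n + 1, ∃ g : G, 1 / ((n : ℝ) + 1) ≤ z.coord (⟨g, ⟨i, h⟩⟩ : EVertex G n) := by
  classical
  by_contra hcon
  push Not at hcon
  obtain ⟨x, h1, h2, s, hs, h3⟩ := z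
  simp only at hcon
  have hlt : ∀ v : EVertex G n, x v < 1 / ((n : ℝ) + 1) := fun v => hcon v.2.1 v.2.2 v.1
  have hcard : s.card ≤ n + 1 := by
    have := Finset.card_le_card_of_injOn (s := s) (t := (Finset.univ : Finset (Fin (n + 1))))
      (fun v : EVertex G n => v.lev) (fun v _ => Finset.mem_univ _)
      (fun v hv w hw hvw => hs.2 v hv w hw hvw)
    simpa using this
  have hsum : ∑ v ∈ s, x v = 1 := by
    rw [← h2]
    refine Finset.sum_subset (Finset.subset_univ s) fun v _ hv => ?_
    by_contra h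
    exact hv (h3 v h)
  have hlt2 : ∑ v ∈ s, x v < ∑ v ∈ s, 1 / ((n : ℝ) + 1) :=
    Finset.sum_lt_sum_of_nonempty hs.1 fun v _ => hlt v
  rw [hsum, Finset.sum_const, nsmul_eq_mul] at hlt2
  have : (s.card : ℝ) * (1 / ((n : ℝ) + 1)) ≤ 1 := by
    rw [mul_one_div, div_le_one (by positivity)]
    exact_mod_cast hcard
  linarith

/-- the place of the label -/
noncomputable def idx (n : ℕ) (z : (E G n).Realization) : ℕ :=
  sInf {i : ℕ | ∃ h : i < n + 1, ∃ g : G,
    1 / ((n : ℝ) + 1) ≤ z.coord (⟨g, ⟨i, h⟩⟩ : EVertex G n)}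

lemma idx_spec (n : ℕ) (z : (E G n).Realization) :
    ∃ h : idx n z < n + 1, ∃ g : G,
      1 / ((n : ℝ) + 1) ≤ z.coord (⟨g, ⟨idx n z, h⟩⟩ : EVertex G n) :=
  Nat.sInf_mem (s := {i : ℕ | ∃ h : i < n + 1, ∃ g : G,
    1 / ((n : ℝ) + 1) ≤ z.coord (⟨g, ⟨i, h⟩⟩ : EVertex G n)}) (label_exists n z)

/-- the group element of the label -/
noncomputable def grp (n : ℕ) (z : (E G n).Realization) : G :=
  Classical.choose (idx_spec n z).choose_spec

lemma grp_spec (n : ℕ) (z : (E G n).Realization) (h : idx n z < n + 1) :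
    1 / ((n : ℝ) + 1) ≤ z.coord (⟨grp n z, ⟨idx n z, h⟩⟩ : EVertex G n) :=
  Classical.choose_spec (idx_spec n z).choose_spec

lemma grp_unique {n : ℕ} (z : (E G n).Realization) {i : Fin (n + 1)} {g h : G}
    (hg : z.coord (⟨g, i⟩ : EVertex G n) ≠ 0) (hh : z.coord (⟨h, i⟩ : EVertex G n) ≠ 0) :
    g = h := by
  obtain ⟨x, h1, h2, s, hs, h3⟩ := z
  have := hs.2 _ (h3 _ hg) _ (h3 _ hh) rfl
  exact congrArg EVertex.elt this

lemma smul_coord_E (n : ℕ) (g : G) (z : (E G n).Realization) (h : G) (i : Fin (n + 1)) :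
    (g • z).coord (⟨g * h, i⟩ : EVertex G n) = z.coord (⟨h, i⟩ : EVertex G n) := by
  change z.coord (g⁻¹ • (⟨g * h, i⟩ : EVertex G n)) = _
  congr 1
  exact EVertex.ext (inv_mul_cancel_left g h) rfl

lemma idx_smul (n : ℕ) (g : G) (z : (E G n).Realization) : idx n (g • z) = idx n z := by
  unfold idx
  congr 1
  ext i
  constructor
  · rintro ⟨h, k, hk⟩
    refine ⟨h, g⁻¹ * k, ?_⟩
    rwa [← smul_coord_E n g z, mul_inv_cancel_left]
  · rintro ⟨h, k, hk⟩
    refine ⟨h, g * k, ?_⟩
    rwa [smul_coord_E n g z]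

lemma grp_smul (n : ℕ) (g : G) (z : (E G n).Realization) : grp n (g • z) = g * grp n z := by
  obtain ⟨h, -⟩ := idx_spec n z
  have hpos : (0 : ℝ) < 1 / ((n : ℝ) + 1) := by positivity
  have h1 := grp_spec n (g • z) (by rw [idx_smul]; exact h)
  have h2 := grp_spec n z h
  refine grp_unique (g • z) (i := ⟨idx n z, h⟩) ?_ ?_
  · have : (⟨idx n (g • z), by rw [idx_smul]; exact h⟩ : Fin (n + 1)) = ⟨idx n z, h⟩ :=
      Fin.ext (idx_smul n g z)
    rw [← this]
    exact (hpos.trans_le h1).ne'
  · rw [smul_coord_E]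
    exact (hpos.trans_le h2).ne'

end Realization

/-! ## The theorem -/

section Main

variable {G : Type u}

/-- points of `ℝ^V` for the vertices of `E_n G` -/
noncomputable def pt (n : ℕ) (i : ℕ) (g : G) : EVertex G n → ℝ := by
  classical
  exact if h : i < n + 1 then Pi.single (⟨g, ⟨i, h⟩⟩ : EVertex G n) 1 else 0

variable [Fintype G]

/-- The closed face of `σ`. -/
def CFace (n : ℕ) (σ : Fc G (n + 1)) : Set (EVertex G n → ℝ) :=
  {x | (∀ v, 0 ≤ x v) ∧ ∑ v, x v = 1 ∧ ∀ v, x v ≠ 0 → ent (n + 1) v.lev σ = some v.elt}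

lemma convex_CFace (n : ℕ) (σ : Fc G (n + 1)) : Convex ℝ (CFace n σ) := by
  rintro x ⟨hx1, hx2, hx3⟩ y ⟨hy1, hy2, hy3⟩ a b ha hb hab
  refine ⟨fun v => ?_, ?_, fun v hv => ?_⟩
  · simp only [Pi.add_apply, Pi.smul_apply, smul_eq_mul]
    exact add_nonneg (mul_nonneg ha (hx1 v)) (mul_nonneg hb (hy1 v))
  · simp only [Pi.add_apply, Pi.smul_apply, smul_eq_mul]
    rw [Finset.sum_add_distrib, ← Finset.mul_sum, ← Finset.mul_sum, hx2, hy2, mul_one, mul_one, hab]
  · by_contra h
    apply hv
    have h1 : x v = 0 := by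
      by_contra h'
      exact h (hx3 v h')
    have h2 : y v = 0 := by
      by_contra h'
      exact h (hy3 v h')
    simp [h1, h2]

lemma CFace_subset [Group G] (n : ℕ) (σ : Fc G (n + 1)) : CFace n σ ⊆ RSet (E G n) := by
  classical
  rintro x ⟨h1, h2, h3⟩
  set s : Finset (EVertex G n) :=
    Finset.univ.filter (fun v : EVertex G n => ent (n + 1) v.lev σ = some v.elt) with hs
  have hmem : ∀ v : EVertex G n, v ∈ s ↔ ent (n + 1) v.lev σ = some v.elt := by
    intro v; simp [hs]
  refine ⟨h1, h2, s, ⟨?_, ?_⟩, ?_⟩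
  · by_contra hemp
    have : ∑ v, x v = 0 := by
      refine Finset.sum_eq_zero fun v _ => ?_
      by_contra h
      exact hemp ⟨v, (hmem v).mpr (h3 v h)⟩
    rw [h2] at this
    exact one_ne_zero this
  · intro v hv w hw hvw
    have hv' := (hmem v).mp hv
    have hw' := (hmem w).mp hw
    rw [hvw] at hv'
    rw [hv'] at hw'
    exact EVertex.ext (Option.some.inj hw') hvw
  · intro v hv
    exact (hmem v).mpr (h3 v hv)

lemma pt_mem (n : ℕ) (σ : Fc G (n + 1)) {i : ℕ} {g : G} (hi : i < n + 1)
    (h : ent (n + 1) i σ = some g) : pt n i g ∈ CFace n σ := by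
  classical
  have e : pt n i g = Pi.single (⟨g, ⟨i, hi⟩⟩ : EVertex G n) 1 := by
    rw [pt, dif_pos hi]
  rw [e]
  refine ⟨fun v => ?_, ?_, fun v hv => ?_⟩
  · by_cases hv : v = ⟨g, ⟨i, hi⟩⟩
    · subst hv; simp
    · rw [Pi.single_eq_of_ne hv]
  · rw [Finset.sum_eq_single (⟨g, ⟨i, hi⟩⟩ : EVertex G n)]
    · exact Pi.single_eq_same _ _
    · intro v _ hv
      exact Pi.single_eq_of_ne hv _
    · intro hv; exact absurd (Finset.mem_univ _) hv
  · have : v = ⟨g, ⟨i, hi⟩⟩ := by
      by_contra hne
      exact hv (Pi.single_eq_of_ne hne 1)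
    subst this
    exact h

lemma CFace_dist {n : ℕ} {σ : Fc G (n + 1)} {x y : EVertex G n → ℝ} (hx : x ∈ CFace n σ)
    (hy : y ∈ CFace n σ) : dist x y ≤ 1 := by
  have hb : ∀ z ∈ CFace n σ, ∀ v, 0 ≤ z v ∧ z v ≤ 1 := by
    rintro z ⟨h1, h2, -⟩ v
    refine ⟨h1 v, ?_⟩
    rw [← h2]
    exact Finset.single_le_sum (fun w _ => h1 w) (Finset.mem_univ v)
  rw [dist_pi_le_iff zero_le_one]
  intro v
  rw [Real.dist_eq, abs_le]
  have := hb x hx v
  have := hb y hy v
  constructor <;> linarith

/-- the action as a linear map -/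
noncomputable def actL [Group G] (n : ℕ) (g : G) : (EVertex G n → ℝ) →ₗ[ℝ] (EVertex G n → ℝ) where
  toFun x v := x (g⁻¹ • v)
  map_add' _ _ := rfl
  map_smul' _ _ := rfl

omit [Fintype G] in
lemma actL_pt [Group G] (n : ℕ) (g h : G) (i : ℕ) : pt n i (g * h) = actL n g (pt n i h) := by
  classical
  unfold pt
  by_cases hi : i < n + 1
  · rw [dif_pos hi, dif_pos hi]
    funext v
    change _ = (Pi.single (⟨h, ⟨i, hi⟩⟩ : EVertex G n) (1 : ℝ) : EVertex G n → ℝ) (g⁻¹ • v)
    by_cases hv : v = ⟨g * h, ⟨i, hi⟩⟩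
    · subst hv
      have : (g⁻¹ • (⟨g * h, ⟨i, hi⟩⟩ : EVertex G n)) = ⟨h, ⟨i, hi⟩⟩ :=
        EVertex.ext (inv_mul_cancel_left g h) rfl
      rw [this, Pi.single_eq_same, Pi.single_eq_same]
    · rw [Pi.single_eq_of_ne hv, Pi.single_eq_of_ne]
      intro hcon
      apply hv
      rw [← smul_inv_smul g v, hcon]
      rfl
  · rw [dif_neg hi, dif_neg hi]
    rfl

variable [Group G]

lemma actL_mem {n : ℕ} (g : G) {x : EVertex G n → ℝ} (hx : x ∈ RSet (E G n)) :
    actL n g x ∈ RSet (E G n) :=
  coord_mem (g • (mkR (E G n) ⟨x, hx⟩))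

/-- **Borsuk–Ulam–Dold theorem** for the joins `E_n G`. -/
theorem no_equivariant_map [Nontrivial G] (n : ℕ)
    (f : (E G (n + 1)).Realization → (E G n).Realization) (hf : Continuous f)
    (hg : ∀ (g : G) x, f (g • x) = g • f x) : False := by
  classical
  have hpos : (0 : ℝ) < 1 / ((n : ℝ) + 1) := by positivity
  -- uniform continuity
  obtain ⟨δ, hδ, hunif⟩ : ∃ δ > 0, ∀ x y : RSet (E G (n + 1)),
      dist x.1 y.1 < δ →
        dist (f (mkR _ x)).coord (f (mkR _ y)).coord < 1 / ((n : ℝ) + 1) := by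
    have : CompactSpace (RSet (E G (n + 1))) :=
      isCompact_iff_compactSpace.mp (isCompact_RSet _)
    have hc : Continuous (fun x : RSet (E G (n + 1)) => (f (mkR _ x)).coord) :=
      (continuous_coord _).comp (hf.comp (continuous_mkR _))
    have hu := CompactSpace.uniformContinuous_of_continuous hc
    rw [Metric.uniformContinuous_iff] at hu
    obtain ⟨δ, hδ, h⟩ := hu _ hpos
    exact ⟨δ, hδ, fun x y hxy => h hxy⟩
  -- number of subdivisions
  obtain ⟨r, hr⟩ : ∃ r : ℕ, (((n + 1 : ℕ) : ℝ) / ((n + 1 : ℕ) + 1)) ^ r < δ := by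
    refine exists_pow_lt_of_lt_one hδ ?_
    rw [div_lt_one (by positivity)]
    linarith
  -- labels
  set L : (EVertex G (n + 1) → ℝ) → ℕ × G := fun x =>
    if hx : x ∈ RSet (E G (n + 1)) then (idx n (f (mkR _ ⟨x, hx⟩)), grp n (f (mkR _ ⟨x, hx⟩)))
    else (0, 1) with hL
  have hLx : ∀ (x : EVertex G (n + 1) → ℝ) (hx : x ∈ RSet (E G (n + 1))),
      L x = (idx n (f (mkR _ ⟨x, hx⟩)), grp n (f (mkR _ ⟨x, hx⟩))) := by
    intro x hx
    simp only [hL]
    rw [dif_pos hx]
  -- small lists have compatible labels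
  have hsmall : ∀ σ : Fc G (n + 2), AllL (SmallIn (n + 1)
      ((((n + 1 : ℕ) : ℝ) / ((n + 1 : ℕ) + 1)) ^ r * 1) (CFace (n + 1) σ))
      (sdI r (single (verts (n + 2) (pt (n + 1)) σ) 1)) := by
    intro σ
    refine small_sdI zero_le_one (convex_CFace _ _) r ⟨length_verts _ _ _, ?_, ?_⟩
    · intro x hx y hy
      obtain ⟨i, g, hi, h1, rfl⟩ := mem_verts _ _ _ _ hx
      obtain ⟨j, h, hj, h2, rfl⟩ := mem_verts _ _ _ _ hy
      exact CFace_dist (pt_mem _ σ hi h1) (pt_mem _ σ hj h2)
    · intro x hx
      obtain ⟨i, g, hi, h1, rfl⟩ := mem_verts _ _ _ _ hx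
      exact pt_mem _ σ hi h1
  have hcompat : ∀ σ : Fc G (n + 2), AllL (Compat (n + 1))
      (chMap L (sdI r (single (verts (n + 2) (pt (n + 1)) σ) 1))) := by
    intro σ
    refine AllL.mapDomain (hsmall σ) ?_
    rintro l ⟨-, h2, h3⟩
    have h3' : ∀ x ∈ l, x ∈ RSet (E G (n + 1)) := fun x hx => CFace_subset _ _ (h3 x hx)
    constructor
    · intro v hv
      obtain ⟨x, hx, rfl⟩ := List.mem_map.mp hv
      rw [hLx x (h3' x hx)]
      exact (idx_spec n _).choose
    · intro v hv w hw hvw
      obtain ⟨x, hx, rfl⟩ := List.mem_map.mp hv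
      obtain ⟨y, hy, rfl⟩ := List.mem_map.mp hw
      rw [hLx x (h3' x hx), hLx y (h3' y hy)] at hvw ⊢
      simp only at hvw ⊢
      have hd := hunif ⟨x, h3' x hx⟩ ⟨y, h3' y hy⟩ (lt_of_le_of_lt (h2 x hx y hy) (by
        rw [mul_one]; exact hr))
      obtain ⟨hi, -⟩ := idx_spec n (f (mkR _ ⟨x, h3' x hx⟩))
      have e1 := grp_spec n (f (mkR _ ⟨x, h3' x hx⟩)) hi
      have e2 := grp_spec n (f (mkR _ ⟨y, h3' y hy⟩)) (by rw [← hvw]; exact hi)
      have e3 : (⟨idx n (f (mkR _ ⟨y, h3' y hy⟩)), by rw [← hvw]; exact hi⟩ : Fin (n + 1)) =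
        ⟨idx n (f (mkR _ ⟨x, h3' x hx⟩)), hi⟩ := Fin.ext hvw.symm
      rw [e3] at e2
      have e4 := lt_of_le_of_lt (dist_le_pi_dist (f (mkR _ ⟨x, h3' x hx⟩)).coord
        (f (mkR _ ⟨y, h3' y hy⟩)).coord
        (⟨grp n (f (mkR _ ⟨x, h3' x hx⟩)), ⟨idx n (f (mkR _ ⟨x, h3' x hx⟩)), hi⟩⟩ :
          EVertex G n)) hd
      rw [Real.dist_eq, abs_lt] at e4
      refine grp_unique (f (mkR _ ⟨y, h3' y hy⟩))
        (i := ⟨idx n (f (mkR _ ⟨x, h3' x hx⟩)), hi⟩) ?_ ?_
      · refine ne_of_gt ?_
        linarith [e4.2]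
      · exact (hpos.trans_le e2).ne'
  -- the chain map
  set Φ : (Fc G (n + 2) →₀ ℤ) →ₗ[ℤ] (Fc G (n + 1) →₀ ℤ) :=
    altL (n + 1) ∘ₗ chMap L ∘ₗ sdI r ∘ₗ vertL (n + 2) (pt (n + 1)) with hΦ
  have hΦs : ∀ σ, Φ (single σ 1) =
      altL (n + 1) (chMap L (sdI r (single (verts (n + 2) (pt (n + 1)) σ) 1))) := by
    intro σ
    simp only [hΦ, LinearMap.comp_apply, vertL_single]
  refine no_chain_map (n + 1) Φ ?_ ?_ ?_
  · intro σ
    rw [hΦs, bdL_altL (hcompat σ), dd_chMap, dd_sdI, dd_single, one_smul, dl_verts]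
    simp only [hΦ, LinearMap.comp_apply]
  · intro g σ
    rw [hΦs, hΦs, verts_sm (actL (n + 1) g) (n + 2) (pt (n + 1)) g
      (fun i h _ => actL_pt (n + 1) g h i) σ, ← chMap_single, sdI_chMap, ← altL_chMap]
    congr 1
    have := AllL.eq_of (hsmall σ) (f := chMap L ∘ₗ chMap (actL (n + 1) g))
      (g := chMap (fun v => (v.1, g * v.2)) ∘ₗ chMap L) fun l hl => by
        simp only [LinearMap.comp_apply, chMap_single, List.map_map]
        congr 1
        refine List.map_congr_left fun x hx => ?_
        have hx' : x ∈ RSet (E G (n + 1)) := CFace_subset _ _ (hl.2.2 x hx)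
        simp only [Function.comp_apply]
        rw [hLx x hx', hLx _ (actL_mem g hx')]
        have e : mkR (E G (n + 1)) ⟨actL (n + 1) g x, actL_mem g hx'⟩ =
          g • mkR (E G (n + 1)) ⟨x, hx'⟩ := rfl
        rw [e, hg, idx_smul, grp_smul]
    simpa using this
  · rw [hΦs, verts_emp, sdI_nil, chMap_single, List.map_nil, altL_single, one_smul]
    rfl

end Main

end Pool.Agent.Helper73_CrossIndex
end -- Pool.Agent.Helper73_CrossIndex.Dold

section -- Pool.Agent.Common_Brouwer.Brouwer

/-!
# Brouwer fixed point theorem, from the Borsuk–Ulam–Dold theorem for joins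
-/

namespace Pool.Agent.Common_Brouwer

open Pool.Agent.Helper73_CrossIndex

/-- The `ℓ¹` norm of a finite real vector. -/
noncomputable def l1 {ι : Type*} [Fintype ι] (x : ι → ℝ) : ℝ := ∑ i, |x i|

lemma l1_nonneg {ι : Type*} [Fintype ι] (x : ι → ℝ) : 0 ≤ l1 x :=
  Finset.sum_nonneg fun _ _ => abs_nonneg _

lemma l1_neg {ι : Type*} [Fintype ι] (x : ι → ℝ) : l1 (-x) = l1 x := by
  simp [l1]

lemma l1_pos {ι : Type*} [Fintype ι] {x : ι → ℝ} (h : x ≠ 0) : 0 < l1 x := by
  obtain ⟨i, hi⟩ := Function.ne_iff.1 h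
  exact Finset.sum_pos' (fun j _ => abs_nonneg _) ⟨i, Finset.mem_univ _, abs_pos.2 hi⟩

lemma continuous_l1 {ι : Type*} [Fintype ι] : Continuous (l1 : (ι → ℝ) → ℝ) := by
  unfold l1
  fun_prop

lemma l1_smul {ι : Type*} [Fintype ι] (c : ℝ) (x : ι → ℝ) : l1 (c • x) = |c| * l1 x := by
  simp [l1, abs_mul, Finset.mul_sum]

lemma l1_add_le {ι : Type*} [Fintype ι] (x y : ι → ℝ) : l1 (x + y) ≤ l1 x + l1 y := by
  simp only [l1, ← Finset.sum_add_distrib]
  exact Finset.sum_le_sum fun i _ => abs_add_le _ _

section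

/-- Signed coordinates of a point of the realisation. -/
noncomputable def sx {n : ℕ} (z : (E ℤˣ n).Realization) (i : Fin (n + 1)) : ℝ :=
  z.coord (⟨1, i⟩ : EVertex ℤˣ n) - z.coord (⟨-1, i⟩ : EVertex ℤˣ n)

lemma continuous_sx {n : ℕ} : Continuous (sx (n := n)) := by
  refine continuous_pi fun i => ?_
  unfold sx
  have h := continuous_coord (E ℤˣ n)
  exact ((continuous_apply (⟨1, i⟩ : EVertex ℤˣ n)).comp h).sub
    ((continuous_apply (⟨-1, i⟩ : EVertex ℤˣ n)).comp h)

lemma sum_EVertex {n : ℕ} (f : EVertex ℤˣ n → ℝ) :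
    ∑ v, f v = ∑ i, (f ⟨1, i⟩ + f ⟨-1, i⟩) := by
  rw [← Equiv.sum_comp (EVertex.equiv ℤˣ n).symm f, Fintype.sum_prod_type_right]
  refine Finset.sum_congr rfl fun i _ => ?_
  have : (Finset.univ : Finset ℤˣ) = {1, -1} := by decide
  rw [this, Finset.sum_pair (by decide)]
  rfl

lemma l1_sx {n : ℕ} (z : (E ℤˣ n).Realization) : l1 (sx z) = 1 := by
  have h2 := (sum_EVertex (fun v : EVertex ℤˣ n => z.coord v)).symm.trans z.sum_eq_one
  rw [← h2]
  unfold l1 sx
  refine Finset.sum_congr rfl fun i _ => ?_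
  obtain ⟨s, hs, hx⟩ := z.support_subset
  have hp := z.nonneg (⟨1, i⟩ : EVertex ℤˣ n)
  have hq := z.nonneg (⟨-1, i⟩ : EVertex ℤˣ n)
  by_cases ha : z.coord (⟨1, i⟩ : EVertex ℤˣ n) = 0
  · rw [ha, zero_sub, abs_neg, abs_of_nonneg hq, zero_add]
  · by_cases hb : z.coord (⟨-1, i⟩ : EVertex ℤˣ n) = 0
    · rw [hb, sub_zero, abs_of_nonneg hp, add_zero]
    · exfalso
      have h3 : (⟨1, i⟩ : EVertex ℤˣ n) = ⟨-1, i⟩ := hs.2 _ (hx _ ha) _ (hx _ hb) rfl
      have h4 : (1 : ℤˣ) = -1 := congrArg EVertex.elt h3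
      exact absurd h4 (by decide)

/-- Encoding of a non-zero vector as a point of the realisation. -/
noncomputable def enc {n : ℕ} (y : Fin (n + 1) → ℝ) (hy : y ≠ 0) : (E ℤˣ n).Realization where
  coord := fun v : EVertex ℤˣ n => max 0 (((v.elt : ℤ) : ℝ) * y v.lev) / l1 y
  nonneg := fun v : EVertex ℤˣ n => div_nonneg (le_max_left _ _) (l1_nonneg y)
  sum_eq_one := by
    have hpos := l1_pos hy
    change ∑ v : EVertex ℤˣ n, max 0 (((v.elt : ℤ) : ℝ) * y v.lev) / l1 y = 1
    rw [← Finset.sum_div, div_eq_one_iff_eq hpos.ne',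
      sum_EVertex (fun v : EVertex ℤˣ n => max 0 (((v.elt : ℤ) : ℝ) * y v.lev))]
    unfold l1
    refine Finset.sum_congr rfl fun i _ => ?_
    rcases le_total 0 (y i) with h | h
    · simp [h, abs_of_nonneg h]
    · simp [h, abs_of_nonpos h]
  support_subset := by
    classical
    have hpos := l1_pos hy
    obtain ⟨i, hi⟩ := Function.ne_iff.1 hy
    refine ⟨(Finset.univ.filter (fun v : EVertex ℤˣ n =>
      0 < ((v.elt : ℤ) : ℝ) * y v.lev) : Finset (EVertex ℤˣ n)), ⟨?_, ?_⟩, ?_⟩
    · rcases lt_or_gt_of_ne hi with h | h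
      · refine ⟨(⟨-1, i⟩ : EVertex ℤˣ n), Finset.mem_filter.2 ⟨Finset.mem_univ _, ?_⟩⟩
        simpa using h
      · refine ⟨(⟨1, i⟩ : EVertex ℤˣ n), Finset.mem_filter.2 ⟨Finset.mem_univ _, ?_⟩⟩
        simpa using h
    · rintro v hv w hw hvw
      have hv' : 0 < ((v.elt : ℤ) : ℝ) * y v.lev := (Finset.mem_filter.1 hv).2
      have hw' : 0 < ((w.elt : ℤ) : ℝ) * y w.lev := (Finset.mem_filter.1 hw).2
      refine EVertex.ext ?_ hvw
      rw [← hvw] at hw'
      rcases Int.units_eq_one_or v.elt with h1 | h1 <;>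
        rcases Int.units_eq_one_or w.elt with h2 | h2
      · rw [h1, h2]
      · rw [h1] at hv'; rw [h2] at hw'
        simp at hv' hw'
        linarith only [hv', hw']
      · rw [h1] at hv'; rw [h2] at hw'
        simp at hv' hw'
        linarith only [hv', hw']
      · rw [h1, h2]
    · intro v hv
      refine Finset.mem_filter.2 ⟨Finset.mem_univ _, ?_⟩
      by_contra hcon
      apply hv
      rw [max_eq_left (not_lt.1 hcon), zero_div]

lemma enc_neg {n : ℕ} (y : Fin (n + 1) → ℝ) (hy : y ≠ 0) (hy' : -y ≠ 0) :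
    enc (-y) hy' = (-1 : ℤˣ) • enc y hy := by
  refine GComplex.Realization.ext (funext fun v => ?_)
  change max 0 (((v.elt : ℤ) : ℝ) * (-y) v.lev) / l1 (-y) =
    max 0 (((((-1 : ℤˣ)⁻¹ * v.elt : ℤˣ) : ℤ) : ℝ) * y v.lev) / l1 y
  rw [l1_neg]
  simp

lemma enc_congr {n : ℕ} {y y' : Fin (n + 1) → ℝ} (h : y = y') (hy : y ≠ 0) (hy' : y' ≠ 0) :
    enc y hy = enc y' hy' := by
  subst h; rfl

lemma sx_neg {n : ℕ} (z : (E ℤˣ n).Realization) : sx ((-1 : ℤˣ) • z) = - sx z := by
  funext i
  change z.coord (⟨(-1 : ℤˣ)⁻¹ * 1, i⟩ : EVertex ℤˣ n) -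
    z.coord (⟨(-1 : ℤˣ)⁻¹ * -1, i⟩ : EVertex ℤˣ n) =
    -(z.coord (⟨1, i⟩ : EVertex ℤˣ n) - z.coord (⟨-1, i⟩ : EVertex ℤˣ n))
  simp

/-- Borsuk–Ulam in the form: a nowhere vanishing continuous vector field on the `ℓ¹` ball cannot
be odd on the boundary. -/
theorem no_odd (n : ℕ) (h : (Fin (n + 1) → ℝ) → (Fin (n + 1) → ℝ))
    (hc : ContinuousOn h {x | l1 x ≤ 1}) (h0 : ∀ x, l1 x ≤ 1 → h x ≠ 0)
    (hodd : ∀ x, l1 x = 1 → h (-x) = - h x) : False := by
  classical
  set x' : (E ℤˣ (n + 1)).Realization → (Fin (n + 1) → ℝ) :=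
    fun z i => sx z (Fin.castSucc i) with hx'
  set t : (E ℤˣ (n + 1)).Realization → ℝ := fun z => sx z (Fin.last (n + 1)) with ht
  have hx'c : Continuous x' := continuous_pi fun i => (continuous_apply _).comp continuous_sx
  have htc : Continuous t := (continuous_apply (Fin.last (n + 1))).comp continuous_sx
  have hsum : ∀ z, l1 (x' z) + |t z| = 1 := by
    intro z
    rw [← l1_sx z]
    unfold l1
    rw [Fin.sum_univ_castSucc (n := n + 1)]
  have hle : ∀ z, l1 (x' z) ≤ 1 := fun z => by
    have := hsum z; have := abs_nonneg (t z); linarith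
  have hle' : ∀ z, l1 (-(x' z)) ≤ 1 := fun z => by rw [l1_neg]; exact hle z
  set y : (E ℤˣ (n + 1)).Realization → (Fin (n + 1) → ℝ) :=
    fun z => if 0 ≤ t z then h (x' z) else - h (-(x' z)) with hy
  have hyc : Continuous y := by
    refine Continuous.if_le ?_ ?_ continuous_const htc ?_
    · exact hc.comp_continuous hx'c hle
    · exact (hc.comp_continuous hx'c.neg hle').neg
    · intro z hz
      rw [hodd (x' z), neg_neg]
      have := hsum z
      rw [← hz, abs_zero, add_zero] at this
      exact this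
  have hy0 : ∀ z, y z ≠ 0 := by
    intro z
    simp only [hy]
    split_ifs
    · exact h0 _ (hle z)
    · exact neg_ne_zero.2 (h0 _ (hle' z))
  have hxneg : ∀ z, x' ((-1 : ℤˣ) • z) = - x' z := by
    intro z; funext i
    simp only [hx', sx_neg, Pi.neg_apply]
  have htneg : ∀ z, t ((-1 : ℤˣ) • z) = - t z := by
    intro z
    simp only [ht, sx_neg, Pi.neg_apply]
  have hyneg : ∀ z, y ((-1 : ℤˣ) • z) = - y z := by
    intro z
    simp only [hy, hxneg, htneg, neg_neg]
    rcases lt_trichotomy (t z) 0 with hz | hz | hz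
    · rw [if_pos (by linarith), if_neg (by linarith), neg_neg]
    · rw [if_pos (by linarith), if_pos (by linarith), hodd]
      have := hsum z
      rw [hz, abs_zero, add_zero] at this
      exact this
    · rw [if_neg (by linarith), if_pos hz.le]
  have hnt : Nontrivial ℤˣ := ⟨1, -1, by decide⟩
  refine no_equivariant_map (G := ℤˣ) n (fun z => enc (y z) (hy0 z)) ?_ ?_
  · rw [continuous_induced_rng]
    change Continuous fun z => fun v : EVertex ℤˣ n =>
      max 0 (((v.elt : ℤ) : ℝ) * y z v.lev) / l1 (y z)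
    refine continuous_pi fun v => ?_
    refine Continuous.div ?_ (continuous_l1.comp hyc) fun z => (l1_pos (hy0 z)).ne'
    exact continuous_const.max (continuous_const.mul ((continuous_apply _).comp hyc))
  · intro g z
    rcases Int.units_eq_one_or g with rfl | rfl
    · rw [one_smul, one_smul]
    · have h3 : -y z ≠ 0 := neg_ne_zero.2 (hy0 z)
      rw [← enc_neg (y z) (hy0 z) h3]
      exact enc_congr (hyneg z) _ _

/-- Brouwer fixed point theorem for the `ℓ¹` ball. -/
theorem brouwer_l1 (n : ℕ) (f : (Fin (n + 1) → ℝ) → (Fin (n + 1) → ℝ))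
    (hc : ContinuousOn f {x | l1 x ≤ 1}) (hm : ∀ x, l1 x ≤ 1 → l1 (f x) ≤ 1) :
    ∃ x, l1 x ≤ 1 ∧ f x = x := by
  by_contra hcon
  push Not at hcon
  -- retraction onto the ball
  set r : (Fin (n + 1) → ℝ) → (Fin (n + 1) → ℝ) := fun x => (max 1 (l1 x))⁻¹ • x with hr
  have hmax : ∀ x : Fin (n + 1) → ℝ, 0 < max 1 (l1 x) := fun x => lt_max_of_lt_left one_pos
  have hrc : Continuous r := by
    have h1 : Continuous fun x : Fin (n + 1) → ℝ => (max 1 (l1 x))⁻¹ :=
      Continuous.inv₀ (continuous_const.max continuous_l1) fun x => (hmax x).ne'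
    exact h1.smul continuous_id
  have hrl : ∀ x, l1 (r x) ≤ 1 := by
    intro x
    simp only [hr]
    rw [l1_smul, abs_of_pos (inv_pos.2 (hmax x)), inv_mul_le_iff₀ (hmax x), mul_one]
    exact le_max_right _ _
  set v : (Fin (n + 1) → ℝ) → (Fin (n + 1) → ℝ) :=
    fun x => (2 : ℝ) • x - (min 1 (2 - 2 * l1 x)) • f (r ((2 : ℝ) • x)) with hv
  refine no_odd n v ?_ ?_ ?_
  · apply Continuous.continuousOn
    have h1 : Continuous fun x : Fin (n + 1) → ℝ => (2 : ℝ) • x := continuous_const_smul 2
    have h2 : Continuous fun x : Fin (n + 1) → ℝ => min 1 (2 - 2 * l1 x) :=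
      continuous_const.min (continuous_const.sub (continuous_const.mul continuous_l1))
    have h3 : Continuous fun x : Fin (n + 1) → ℝ => f (r ((2 : ℝ) • x)) :=
      hc.comp_continuous (hrc.comp h1) fun x => hrl _
    exact h1.sub (h2.smul h3)
  · intro x hx h0
    have h1 : (2 : ℝ) • x = (min 1 (2 - 2 * l1 x)) • f (r ((2 : ℝ) • x)) := sub_eq_zero.1 h0
    have h2 : l1 ((2 : ℝ) • x) = 2 * l1 x := by rw [l1_smul]; norm_num
    have h3 : 0 ≤ min 1 (2 - 2 * l1 x) := le_min zero_le_one (by linarith only [hx])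
    have h4 : l1 ((2 : ℝ) • x) ≤ min 1 (2 - 2 * l1 x) := by
      conv_lhs => rw [h1]
      rw [l1_smul, abs_of_nonneg h3]
      calc min 1 (2 - 2 * l1 x) * l1 (f (r ((2 : ℝ) • x))) ≤ min 1 (2 - 2 * l1 x) * 1 :=
            mul_le_mul_of_nonneg_left (hm _ (hrl _)) h3
        _ = _ := mul_one _
    rw [h2] at h4
    have h5 : l1 x ≤ 1 / 2 := by
      have := h4.trans (min_le_left _ _); linarith only [this]
    have h6 : min 1 (2 - 2 * l1 x) = 1 := min_eq_left (by linarith only [h5])
    rw [h6, one_smul] at h1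
    have h7 : r ((2 : ℝ) • x) = (2 : ℝ) • x := by
      simp only [hr]
      rw [h2, max_eq_left (by linarith), inv_one, one_smul]
    rw [h7] at h1
    exact hcon ((2 : ℝ) • x) (by rw [h2]; linarith only [h5]) h1.symm
  · intro x hx
    simp only [hv, l1_neg, hx]
    norm_num

/-- **Brouwer fixed point theorem** for the standard simplex. -/
theorem brouwer_stdSimplex {ι : Type*} [Fintype ι] [Nonempty ι] (f : (ι → ℝ) → (ι → ℝ))
    (hc : ContinuousOn f (stdSimplex ℝ ι)) (hm : Set.MapsTo f (stdSimplex ℝ ι) (stdSimplex ℝ ι)) :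
    ∃ x ∈ stdSimplex ℝ ι, f x = x := by
  classical
  obtain ⟨n, hn⟩ : ∃ n : ℕ, Fintype.card ι = n + 1 :=
    ⟨Fintype.card ι - 1, (Nat.succ_pred_eq_of_pos Fintype.card_pos).symm⟩
  let e : ι ≃ Fin (n + 1) := Fintype.equivFinOfCardEq hn
  -- retraction of the ball onto the simplex, in `ι`-coordinates
  set r : (Fin (n + 1) → ℝ) → (ι → ℝ) :=
    fun x i => |x (e i)| + (1 - l1 x) / (n + 1) with hr
  have hrc : Continuous r := by
    refine continuous_pi fun i => ?_
    refine ((continuous_apply _).abs).add ?_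
    exact (continuous_const.sub continuous_l1).div_const _
  have hrs : ∀ x, l1 x ≤ 1 → r x ∈ stdSimplex ℝ ι := by
    intro x hx
    refine ⟨fun i => add_nonneg (abs_nonneg _) (div_nonneg (by linarith only [hx]) (by positivity)), ?_⟩
    simp only [hr]
    rw [Finset.sum_add_distrib, Finset.sum_const, Finset.card_univ, hn,
      Equiv.sum_comp e (fun j => |x j|), nsmul_eq_mul]
    have : ((n + 1 : ℕ) : ℝ) * ((1 - l1 x) / (n + 1)) = 1 - l1 x := by
      push_cast
      field_simp
    rw [this]
    change l1 x + (1 - l1 x) = 1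
    ring
  have hl : ∀ y ∈ stdSimplex ℝ ι, l1 (fun j => y (e.symm j)) = 1 := by
    intro y hy
    unfold l1
    rw [Equiv.sum_comp e.symm (fun i => |y i|), ← hy.2]
    exact Finset.sum_congr rfl fun i _ => abs_of_nonneg (hy.1 i)
  obtain ⟨x, hx, hfx⟩ := brouwer_l1 n (fun x j => f (r x) (e.symm j)) (by
    refine continuousOn_pi.2 fun j => ?_
    exact (continuous_apply _).comp_continuousOn (hc.comp hrc.continuousOn fun x hx => hrs x hx))
    (fun x hx => (hl _ (hm (hrs x hx))).le)
  have h1 : f (r x) ∈ stdSimplex ℝ ι := hm (hrs x hx)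
  have h2 : l1 x = 1 := by
    rw [← hfx]; exact hl _ h1
  have h3 : ∀ i, x (e i) = f (r x) i := by
    intro i
    have := congrFun hfx (e i)
    simp only [Equiv.symm_apply_apply] at this
    exact this.symm
  have h4 : r x = f (r x) := by
    funext i
    change |x (e i)| + (1 - l1 x) / (n + 1) = f (r x) i
    rw [h2, sub_self, zero_div, add_zero, h3 i, abs_of_nonneg (h1.1 i)]
  exact ⟨r x, hrs x hx, h4.symm⟩

end

end Pool.Agent.Common_Brouwer
end -- Pool.Agent.Common_Brouwer.Brouwer

section -- Pool.Agent.Common_Brouwer.Schauder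

/-!
# Schauder fixed point theorem for compact convex sets of a normed space
-/

namespace Pool.Agent.Common_Brouwer

open Set Metric

/-- **Schauder fixed point theorem** (compact convex sets of a real normed space); in finite
dimension this is the Brouwer fixed point theorem for compact convex sets. -/
theorem schauder {E : Type*} [NormedAddCommGroup E] [NormedSpace ℝ E] {K : Set E}
    (hK : IsCompact K) (hconv : Convex ℝ K) (hne : K.Nonempty) {f : E → E}
    (hf : ContinuousOn f K) (hm : MapsTo f K K) : ∃ x ∈ K, f x = x := by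
  classical
  -- approximate fixed points
  have happ : ∀ ε : ℝ, 0 < ε → ∃ x ∈ K, dist (f x) x ≤ ε := by
    intro ε hε
    obtain ⟨t, htK, hcov⟩ := hK.elim_nhds_subcover (fun x => ball x ε)
      (fun x _ => ball_mem_nhds x hε)
    have htne : t.Nonempty := by
      obtain ⟨x, hx⟩ := hne
      obtain ⟨p, hp, -⟩ := mem_iUnion₂.1 (hcov hx)
      exact ⟨p, hp⟩
    have hnt : Nonempty t := htne.to_subtype
    set κ : E → t → ℝ := fun z p => max 0 (ε - dist z p) with hκ
    have hκc : Continuous κ := by
      refine continuous_pi fun p => ?_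
      exact continuous_const.max (continuous_const.sub (continuous_id.dist continuous_const))
    have hκ0 : ∀ z p, 0 ≤ κ z p := fun z p => le_max_left _ _
    have hS : ∀ z ∈ K, 0 < ∑ p, κ z p := by
      intro z hz
      obtain ⟨p, hp, hzp⟩ := mem_iUnion₂.1 (hcov hz)
      refine Finset.sum_pos' (fun q _ => hκ0 z q) ⟨⟨p, hp⟩, Finset.mem_univ _, ?_⟩
      exact lt_max_of_lt_right (sub_pos.2 hzp)
    set L : (t → ℝ) → E := fun x => ∑ p, x p • (p : E) with hL
    have hLc : Continuous L := by
      refine continuous_finsetSum _ fun p _ => ?_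
      exact (continuous_apply p).smul continuous_const
    have hLK : ∀ x ∈ stdSimplex ℝ t, L x ∈ K := fun x hx =>
      hconv.sum_mem (fun p _ => hx.1 p) hx.2 (fun p _ => htK p p.2)
    obtain ⟨x, hx, hfx⟩ := brouwer_stdSimplex
      (fun x p => κ (f (L x)) p / ∑ q, κ (f (L x)) q) (by
        have h1 : ContinuousOn (fun x => f (L x)) (stdSimplex ℝ t) :=
          hf.comp hLc.continuousOn hLK
        have h2 : ContinuousOn (fun x => κ (f (L x))) (stdSimplex ℝ t) :=
          hκc.comp_continuousOn h1
        refine continuousOn_pi.2 fun p => ?_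
        refine ContinuousOn.div ((continuous_apply p).comp_continuousOn h2) ?_ ?_
        · exact continuousOn_finsetSum _ fun q _ => (continuous_apply q).comp_continuousOn h2
        · intro x hx
          exact (hS _ (hm (hLK x hx))).ne')
      (by
        intro x hx
        have hpos := hS _ (hm (hLK x hx))
        refine ⟨fun p => div_nonneg (hκ0 _ _) hpos.le, ?_⟩
        rw [← Finset.sum_div, div_self hpos.ne'])
    refine ⟨L x, hLK x hx, ?_⟩
    set z := f (L x) with hz
    have hpos := hS z (hm (hLK x hx))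
    have hxe : ∀ p, x p = κ z p / ∑ q, κ z q := fun p => (congrFun hfx p).symm
    have h1 : z - L x = ∑ p, x p • (z - (p : E)) := by
      simp only [hL, smul_sub, Finset.sum_sub_distrib, ← Finset.sum_smul, hx.2, one_smul]
    rw [dist_eq_norm, h1]
    calc ‖∑ p, x p • (z - (p : E))‖ ≤ ∑ p, ‖x p • (z - (p : E))‖ := norm_sum_le _ _
      _ ≤ ∑ p, x p * ε := by
        refine Finset.sum_le_sum fun p _ => ?_
        rw [norm_smul, Real.norm_of_nonneg (hx.1 p)]
        by_cases h0 : κ z p = 0
        · rw [hxe p, h0, zero_div, zero_mul, zero_mul]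
        · have h2 : 0 < κ z p := lt_of_le_of_ne (hκ0 z p) (Ne.symm h0)
          have h3 : dist z p < ε := by
            by_contra hcon
            push Not at hcon
            apply h0
            simp only [hκ]
            exact max_eq_left (by linarith)
          rw [dist_eq_norm] at h3
          exact mul_le_mul_of_nonneg_left h3.le (hx.1 p)
      _ = ε := by rw [← Finset.sum_mul, hx.2, one_mul]
  -- limit
  have hcont : ContinuousOn (fun x => dist (f x) x) K :=
    continuous_dist.comp_continuousOn (hf.prodMk continuousOn_id)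
  obtain ⟨x, hx, hmin⟩ := hK.exists_isMinOn hne hcont
  refine ⟨x, hx, ?_⟩
  by_contra hcon
  have hpos : 0 < dist (f x) x := dist_pos.2 hcon
  obtain ⟨y, hy, hle⟩ := happ (dist (f x) x / 2) (by linarith)
  have := isMinOn_iff.1 hmin y hy
  linarith

end Pool.Agent.Common_Brouwer
end -- Pool.Agent.Common_Brouwer.Schauder

section -- Pool.Agent.Helper53_TrInd.Miranda

/-!
# The Poincaré–Miranda theorem
-/

namespace Pool.Agent.Helper53_TrInd

open Set Topology

/-- Poincaré–Miranda: continuous functions `f i` on the cube with `f i ≤ 0` on the face `x i = 0`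
and `f i ≥ 0` on the face `x i = 1` have a common zero. -/
theorem miranda {ι : Type*} [Fintype ι] (f : ι → Icc (0 : ι → ℝ) 1 → ℝ)
    (hf : ∀ i, Continuous (f i)) (h0 : ∀ i x, x.1 i = 0 → f i x ≤ 0)
    (h1 : ∀ i x, x.1 i = 1 → 0 ≤ f i x) : ∃ x, ∀ i, f i x = 0 := by
  classical
  let g : (ι → ℝ) → (ι → ℝ) := fun x =>
    if h : x ∈ Icc (0 : ι → ℝ) 1 then fun i => max 0 (min 1 (x i - f i ⟨x, h⟩)) else 0
  have hg : ∀ x (h : x ∈ Icc (0 : ι → ℝ) 1),
      g x = fun i => max 0 (min 1 (x i - f i ⟨x, h⟩)) := fun x h => dif_pos h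
  have hgc : ContinuousOn g (Icc (0 : ι → ℝ) 1) := by
    rw [continuousOn_iff_continuous_domRestrict]
    have : (Icc (0 : ι → ℝ) 1).domRestrict g =
        fun x : Icc (0 : ι → ℝ) 1 => fun i => max 0 (min 1 (x.1 i - f i x)) := by
      funext x
      exact hg x.1 x.2
    rw [this]
    refine continuous_pi fun i => ?_
    have h3 : Continuous fun x : Icc (0 : ι → ℝ) 1 => x.1 i :=
      (continuous_apply i).comp continuous_subtype_val
    exact continuous_const.max (continuous_const.min (h3.sub (hf i)))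
  obtain ⟨x, hx, hfx⟩ := Pool.Agent.Common_Brouwer.schauder (K := Icc (0 : ι → ℝ) 1)
    isCompact_Icc (convex_Icc 0 1) ⟨0, by simp⟩ hgc (by
      intro x hx
      rw [hg x hx]
      exact ⟨fun i => le_max_left _ _, fun i => max_le zero_le_one (min_le_left _ _)⟩)
  refine ⟨⟨x, hx⟩, fun i => ?_⟩
  have h2 : max 0 (min 1 (x i - f i ⟨x, hx⟩)) = x i := by
    have := congrFun hfx i
    rw [hg x hx] at this
    exact this
  have hx0 : 0 ≤ x i := hx.1 i
  have hx1 : x i ≤ 1 := hx.2 i
  rcases lt_trichotomy (f i ⟨x, hx⟩) 0 with h | h | h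
  · exfalso
    have h3 : x i = 1 := by
      by_contra hne
      have h4 : x i < 1 := lt_of_le_of_ne hx1 hne
      have h5 : x i < min 1 (x i - f i ⟨x, hx⟩) := lt_min h4 (by linarith)
      have h6 := le_max_right 0 (min 1 (x i - f i ⟨x, hx⟩))
      linarith
    have := h1 i ⟨x, hx⟩ h3
    linarith
  · exact h
  · exfalso
    have h3 : x i = 0 := by
      by_contra hne
      have h4 : 0 < x i := lt_of_le_of_ne hx0 (Ne.symm hne)
      have h5 : max 0 (min 1 (x i - f i ⟨x, hx⟩)) < x i :=
        max_lt h4 ((min_le_right _ _).trans_lt (by linarith))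
      linarith
    have := h0 i ⟨x, hx⟩ h3
    linarith

end Pool.Agent.Helper53_TrInd
end -- Pool.Agent.Helper53_TrInd.Miranda

section -- Pool.Agent.Helper24_LCN.DMI

/-!
# Row DMI of table lcn (helper24): the discrete Poincare-Miranda theorem
-/

set_option autoImplicit false

open MeasureTheory ProbabilityTheory Function Filter

open scoped ENNReal BigOperators Topology

noncomputable section

namespace Pool.Agent.LE.H24

open Pool.Agent.Anderson Pool.Agent.Loc Pool.Agent.Mob Pool.Agent.LE

theorem mem_box0 {d n : ℕ} {k : Site d} :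
    k ∈ box (0 : Site d) n ↔ ∀ i, -(n : ℤ) ≤ k i ∧ k i ≤ n := by
  unfold box
  rw [Finset.mem_Icc, Pi.le_def, Pi.le_def]
  constructor
  · rintro ⟨h1, h2⟩ i
    have := h1 i
    have := h2 i
    simp only [Pi.zero_apply, zero_sub, zero_add] at *
    exact ⟨by assumption, by assumption⟩
  · intro h
    constructor
    · intro i
      have := (h i).1
      simpa using this
    · intro i
      have := (h i).2
      simpa using this

theorem dmi : DmiStmt := by
  intro d n F t h v hn hlo hhi hv
  classical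
  have hn0 : (0 : ℝ) < n := by exact_mod_cast hn
  obtain ⟨Y, hY⟩ : ∃ Y : Set.Icc (0 : Fin d → ℝ) 1 → Fin d → ℝ,
      Y = fun (x : Set.Icc (0 : Fin d → ℝ) 1) (i : Fin d) => 2 * (n : ℝ) * x.1 i - n := ⟨_, rfl⟩
  obtain ⟨w, hw⟩ : ∃ w : Site d → Set.Icc (0 : Fin d → ℝ) 1 → ℝ,
      w = fun k x => ∏ i, max 0 (1 - |Y x i - (k i : ℝ)|) := ⟨_, rfl⟩
  have hw0 : ∀ k x, 0 ≤ w k x := by
    intro k x
    rw [hw]
    exact Finset.prod_nonneg fun i _ => le_max_left _ _
  have hYc : ∀ i, Continuous fun x => Y x i := by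
    intro i
    rw [hY]
    exact (continuous_const.mul ((continuous_apply i).comp continuous_subtype_val)).sub
      continuous_const
  have hwc : ∀ k, Continuous (w k) := by
    intro k
    rw [hw]
    exact continuous_finsetProd _ fun i _ =>
      continuous_const.max (continuous_const.sub ((hYc i).sub continuous_const).abs)
  have hwne : ∀ k x, w k x ≠ 0 → ∀ i, |Y x i - (k i : ℝ)| < 1 := by
    intro k x hk i
    rw [hw] at hk
    have h1 := Finset.prod_ne_zero_iff.1 hk i (Finset.mem_univ i)
    by_contra hc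
    apply h1
    exact max_eq_left (by linarith only [not_lt.1 hc])
  obtain ⟨x, hx⟩ := Pool.Agent.Helper53_TrInd.miranda
    (fun i x => ∑ k ∈ box (0 : Site d) n, w k x * (F k i - v i))
    (fun i => continuous_finsetSum _ fun k _ => (hwc k).mul continuous_const)
    (by
      intro i x hxi
      apply Finset.sum_nonpos
      intro k hk
      by_cases hk0 : w k x = 0
      · rw [hk0, zero_mul]
      · have h1 := hwne k x hk0 i
        have h2 : Y x i = -(n : ℝ) := by rw [hY]; simp only [hxi]; ring
        rw [h2] at h1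
        have h3 : k i = -(n : ℤ) := by
          have h4 := (mem_box0.1 hk i).1
          have h5 : ((k i : ℤ) : ℝ) < -(n : ℝ) + 1 := by
            have := (abs_lt.1 h1).1
            linarith only [this]
          have h6 : k i < -(n : ℤ) + 1 := by exact_mod_cast h5
          omega
        have h7 := hlo k hk i h3
        have h8 := (hv i).1
        exact mul_nonpos_of_nonneg_of_nonpos (hw0 k x) (by linarith only [h7, h8]))
    (by
      intro i x hxi
      apply Finset.sum_nonneg
      intro k hk
      by_cases hk0 : w k x = 0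
      · rw [hk0, zero_mul]
      · have h1 := hwne k x hk0 i
        have h2 : Y x i = (n : ℝ) := by rw [hY]; simp only [hxi]; ring
        rw [h2] at h1
        have h3 : k i = (n : ℤ) := by
          have h4 := (mem_box0.1 hk i).2
          have h5 : (n : ℝ) - 1 < ((k i : ℤ) : ℝ) := by
            have := (abs_lt.1 h1).2
            linarith
          have h6 : (n : ℤ) - 1 < k i := by exact_mod_cast h5
          omega
        have h7 := hhi k hk i h3
        have h8 := (hv i).2
        exact mul_nonneg (hw0 k x) (by linarith only [h7, h8]))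
  -- a point of the mesh with positive weight
  obtain ⟨k, hk⟩ : ∃ k : Site d, k = fun i => ⌊Y x i⌋ := ⟨_, rfl⟩
  have hx0 : ∀ i, 0 ≤ x.1 i ∧ x.1 i ≤ 1 := fun i => ⟨x.2.1 i, x.2.2 i⟩
  have hkb : k ∈ box (0 : Site d) n := by
    rw [mem_box0]
    intro i
    rw [hk]
    constructor
    · rw [Int.le_floor, hY]
      push_cast
      have := (hx0 i).1
      nlinarith only [this]
    · have h1 : Y x i ≤ n := by
        rw [hY]
        have := (hx0 i).2
        simp only
        nlinarith only [this]
      have h2 : ((⌊Y x i⌋ : ℤ) : ℝ) ≤ n := le_trans (Int.floor_le _) h1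
      exact_mod_cast h2
  have hkw : 0 < w k x := by
    rw [hw]
    apply Finset.prod_pos
    intro i _
    apply lt_of_lt_of_le _ (le_max_right _ _)
    have h1 := Int.floor_le (Y x i)
    have h2 := Int.lt_floor_add_one (Y x i)
    have h3 : |Y x i - ((k i : ℤ) : ℝ)| < 1 := by
      rw [hk, abs_lt]
      constructor <;> simp only <;> linarith
    linarith
  have hsd : ∀ k' : Site d, w k' x ≠ 0 → sd k k' ≤ 1 := by
    intro k' hk'
    unfold sd
    apply Finset.sup_le
    intro i _
    have h1 := hwne k x hkw.ne' i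
    have h2 := hwne k' x hk' i
    have h3 : |((k i : ℤ) : ℝ) - ((k' i : ℤ) : ℝ)| < 2 := by
      rw [abs_lt] at *
      constructor <;> linarith
    have h4 : |k i - k' i| < 2 := by
      have : ((|k i - k' i| : ℤ) : ℝ) < 2 := by
        push_cast
        exact h3
      exact_mod_cast this
    have h5 : ((k i - k' i).natAbs : ℤ) < 2 := by
      rw [Int.natCast_natAbs]
      exact h4
    omega
  refine ⟨k, hkb, fun i => ?_⟩
  have hxi := hx i
  rcases lt_trichotomy (F k i - v i) 0 with hlt | heq | hgt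
  · -- some point with positive weight has a value at least `v i`
    by_cases hex : ∃ k' ∈ box (0 : Site d) n, w k' x ≠ 0 ∧ 0 ≤ F k' i - v i
    · obtain ⟨k', hk', hw', hv'⟩ := hex
      refine ⟨k', hk', hsd k' hw', ?_⟩
      rw [abs_of_nonneg (by linarith only [hlt]), abs_of_nonneg (by linarith)]
      linarith
    · exfalso
      have h1 : ∑ k' ∈ box (0 : Site d) n, w k' x * (F k' i - v i) < 0 := by
        apply Finset.sum_neg'
        · intro k' hk'
          by_cases h0 : w k' x = 0
          · rw [h0, zero_mul]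
          · have : ¬ 0 ≤ F k' i - v i := fun h' => hex ⟨k', hk', h0, h'⟩
            exact mul_nonpos_of_nonneg_of_nonpos (hw0 k' x) (by linarith only [this])
        · exact ⟨k, hkb, mul_neg_of_pos_of_neg hkw hlt⟩
      exact absurd hxi h1.ne
  · refine ⟨k, hkb, hsd k hkw.ne', ?_⟩
    rw [show v i - F k i = 0 by linarith only [heq], abs_zero]
    exact abs_nonneg _
  · by_cases hex : ∃ k' ∈ box (0 : Site d) n, w k' x ≠ 0 ∧ F k' i - v i ≤ 0
    · obtain ⟨k', hk', hw', hv'⟩ := hex
      refine ⟨k', hk', hsd k' hw', ?_⟩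
      rw [abs_of_nonpos (by linarith only [hgt]), abs_of_nonpos (by linarith)]
      linarith
    · exfalso
      have h1 : 0 < ∑ k' ∈ box (0 : Site d) n, w k' x * (F k' i - v i) := by
        apply Finset.sum_pos'
        · intro k' hk'
          by_cases h0 : w k' x = 0
          · rw [h0, zero_mul]
          · have : ¬ F k' i - v i ≤ 0 := fun h' => hex ⟨k', hk', h0, h'⟩
            exact mul_nonneg (hw0 k' x) (by linarith only [this])
        · exact ⟨k, hkb, mul_pos hkw hgt⟩
      exact absurd hxi h1.ne'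

end Pool.Agent.LE.H24
end
end -- Pool.Agent.Helper24_LCN.DMI
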