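import Pool.Agent.Helper12_MEB.B035

/-!
# Merged copies (generated) of the modules

* `Pool.Agent.Helper26_LE.Pig`
* `Pool.Agent.Helper59_LE.Blo`
* `Pool.Agent.Helper59_LE.Dbl`
* `Pool.Agent.Helper59_LE.Pig3`
-/

set_option autoImplicit false

section -- Pool.Agent.Helper26_LE.Pig

/-!
# The pigeonhole: near invariance under shifts at one scale and at one base point
-/

set_option autoImplicit false
set_option linter.unusedSectionVars false

open MeasureTheory ProbabilityTheory Function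

open scoped ENNReal BigOperators

noncomputable section

namespace Pool.Agent.LE.H26A

open Pool.Agent.Anderson Pool.Agent.Loc Pool.Agent.Mob Pool.Agent.Helper54.Bal

variable {d : ℕ}

theorem sd_add' (a b : Site d) : sd a (a + b) = sd 0 b := by
  apply le_antisymm
  · rw [sd_le_iff]
    intro i
    have h := (sd_le_iff.1 (le_refl (sd 0 b))) i
    have e : a i - (a + b) i = (0 : Site d) i - b i := by
      rw [Pi.add_apply, Pi.zero_apply]
      ring
    rwa [e]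
  · rw [sd_le_iff]
    intro i
    have h := (sd_le_iff.1 (le_refl (sd a (a + b)))) i
    have e : (0 : Site d) i - b i = a i - (a + b) i := by
      rw [Pi.add_apply, Pi.zero_apply]
      ring
    rwa [e]

theorem sd_sm (l : ℕ) (y : Site d) : sd 0 (sm l y) ≤ l * sd 0 y := by
  rw [sd_le_iff]
  intro i
  have h := (sd_le_iff.1 (le_refl (sd 0 y))) i
  have e : (0 : Site d) i - sm l y i = l * ((0 : Site d) i - y i) := by
    unfold sm
    rw [Pi.zero_apply]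
    ring
  rw [e, abs_mul, Nat.abs_cast]
  push_cast
  exact mul_le_mul_of_nonneg_left h (by positivity)

theorem mem_add {a b : Site d} {R m N : ℕ} (ha : a ∈ box (0 : Site d) R) (hb : sd 0 b ≤ m)
    (h : R + m ≤ N) : a + b ∈ box (0 : Site d) N := by
  rw [mem_box] at ha ⊢
  calc sd 0 (a + b) ≤ sd 0 a + sd a (a + b) := sd_triangle _ _ _
    _ ≤ R + m := by
        rw [sd_add']
        exact add_le_add ha hb
    _ ≤ N := h

/-! ### averages -/

theorem Av_add (R : ℕ) (f g : Site d → ℝ) : Av R (fun a => f a + g a) = Av R f + Av R g := by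
  unfold Av
  rw [Finset.sum_add_distrib, add_div]

theorem Av_sum {ι : Type} (s : Finset ι) (R : ℕ) (f : ι → Site d → ℝ) :
    Av R (fun a => ∑ i ∈ s, f i a) = ∑ i ∈ s, Av R (f i) := by
  unfold Av
  rw [Finset.sum_comm, Finset.sum_div]

theorem Av_mono {R : ℕ} {f g : Site d → ℝ} (h : ∀ a ∈ box (0 : Site d) R, f a ≤ g a) :
    Av R f ≤ Av R g := by
  unfold Av
  exact div_le_div_of_nonneg_right (Finset.sum_le_sum h) (by positivity)

theorem Av_const (R : ℕ) (c : ℝ) : Av R (fun _ : Site d => c) = c := by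
  unfold Av
  rw [Finset.sum_const, card_box, nsmul_eq_mul]
  push_cast
  field_simp

theorem exists_le_Av (R : ℕ) (f : Site d → ℝ) : ∃ a ∈ box (0 : Site d) R, f a ≤ Av R f := by
  by_contra hcon
  push Not at hcon
  have hne : (box (0 : Site d) R).Nonempty := ⟨0, by rw [mem_box, sd_self]; exact Nat.zero_le _⟩
  have h1 : ∑ a ∈ box (0 : Site d) R, Av R f < ∑ a ∈ box (0 : Site d) R, f a :=
    Finset.sum_lt_sum_of_nonempty hne hcon
  rw [Finset.sum_const, card_box, nsmul_eq_mul] at h1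
  have h2 : (((2 * R + 1) ^ d : ℕ) : ℝ) * Av R f = ∑ a ∈ box (0 : Site d) R, f a := by
    unfold Av
    push_cast
    field_simp
  rw [h2] at h1
  exact lt_irrefl _ h1

/-! ### integrals -/

section

variable {N : ℕ} {Ω : Type} [MeasurableSpace Ω] {P : Measure Ω} [IsProbabilityMeasure P] {C : ℝ}
  {D : Ω → Site d → Site d → ℝ} (h : FamN d N P C D)

include h

theorem integrable_D {x y : Site d} (hx : x ∈ box (0 : Site d) N) (hy : y ∈ box (0 : Site d) N) :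
    Integrable (fun ω => D ω x y) P :=
  ((memLp_two_iff_integrable_sq (h.meas x y).aestronglyMeasurable).2
    (h.int x hx y hy)).integrable one_le_two

theorem abs_le' {x y : Site d} (hx : x ∈ box (0 : Site d) N) (hy : y ∈ box (0 : Site d) N) :
    ∫ ω, |D ω x y| ∂P ≤ 1 + C * ((sd x y : ℝ) + 1) ^ 2 := by
  calc ∫ ω, |D ω x y| ∂P ≤ ∫ ω, (1 + D ω x y ^ 2) ∂P := by
        refine integral_mono (integrable_D h hx hy).abs
          ((integrable_const _).add (h.int x hx y hy)) fun ω => ?_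
        simp only
        have h1 : |D ω x y| ^ 2 = D ω x y ^ 2 := sq_abs _
        nlinarith [sq_nonneg (|D ω x y| - 1), abs_nonneg (D ω x y)]
    _ = 1 + ∫ ω, D ω x y ^ 2 ∂P := by
        rw [integral_add (integrable_const _) (h.int x hx y hy)]
        simp
    _ ≤ _ := by
        have := h.sq x hx y hy
        linarith

end

theorem pig (hPho : PhoStmt) (hDbl : DblStmt) (hBlo : BloStmt) (hShi : ShiStmt)
    (hAvs : AvsStmt) : PigStmt := by
  classical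
  intro d K W C ε hC hε hK
  obtain ⟨M₁, hM₁, HD⟩ := hDbl d K C hC hK
  obtain ⟨M₂, hM₂, HB⟩ := hBlo d K C hC hK
  obtain ⟨M₃, hM₃, HS⟩ := hShi d K C hC hK
  set F : Finset (Site d) := box (0 : Site d) K with hF
  set c : ℝ := (F.card : ℝ) ^ 2 with hc
  have hFne : F.Nonempty := ⟨0, by rw [hF, mem_box, sd_self]; exact Nat.zero_le _⟩
  have hFc : 0 < (F.card : ℝ) := by exact_mod_cast Finset.card_pos.2 hFne
  have hc0 : 0 < c := by positivity
  set η : ℝ := ε / (4 * c) with hη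
  have hη0 : 0 < η := by positivity
  -- the number of scales in a block
  obtain ⟨q, hq1, hqn⟩ : ∃ q : ℕ, 1 ≤ q ∧ M₃ / (2 ^ q : ℕ) ≤ η := by
    obtain ⟨q, hq⟩ := pow_unbounded_of_one_lt (M₃ / η) (by norm_num : (1:ℝ) < 2)
    refine ⟨q + 1, by omega, ?_⟩
    have h2 : M₃ / η < (2 : ℝ) ^ (q + 1) :=
      hq.trans_le (pow_le_pow_right₀ (by norm_num) (Nat.le_succ q))
    push_cast
    rw [div_le_iff₀ (by positivity)]
    rw [div_lt_iff₀ hη0] at h2
    linarith only [h2]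
  set n : ℕ := 2 ^ q with hn
  have hn1 : 1 ≤ n := Nat.one_le_two_pow
  set ε₁ : ℝ := η / (2 * (1 + n)) with hε₁
  have hε₁0 : 0 < ε₁ := by positivity
  set ε₂ : ℝ := min ε₁ (ε₁ ^ 2) with hε₂
  have hε₂0 : 0 < ε₂ := lt_min hε₁0 (by positivity)
  obtain ⟨J, HJ⟩ := hPho (2 * M₁) ε₂ F.card q (by positivity) hε₂0
  refine ⟨J, ⌈2 * M₂ / η⌉₊ + 1, by omega, fun ℓ₀ hℓ₀ => ?_⟩
  have hℓ₀1 : 1 ≤ ℓ₀ := by omega
  have hsc : ∀ j : ℕ, 1 ≤ 2 ^ j * ℓ₀ := fun j => Nat.one_le_iff_ne_zero.2 (by positivity)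
  have hℓM : ∀ j : ℕ, 2 * (M₂ / (2 ^ j * ℓ₀ : ℕ)) ≤ η := by
    intro j
    have h1 : 2 * M₂ / η ≤ (ℓ₀ : ℝ) := by
      calc 2 * M₂ / η ≤ (⌈2 * M₂ / η⌉₊ : ℝ) := Nat.le_ceil _
        _ ≤ ℓ₀ := by exact_mod_cast (by omega : ⌈2 * M₂ / η⌉₊ ≤ ℓ₀)
    have h2 : (ℓ₀ : ℝ) ≤ (2 ^ j * ℓ₀ : ℕ) := by
      exact_mod_cast Nat.le_mul_of_pos_left _ (by positivity)
    have h3 : (0:ℝ) < (2 ^ j * ℓ₀ : ℕ) := by exact_mod_cast hsc j
    rw [div_le_iff₀ hη0] at h1
    rw [← mul_div_assoc, div_le_iff₀ h3]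
    nlinarith only [hη0, h1, h2]
  -- the sizes of the cubes
  choose RD hRD using fun j : ℕ => HD (2 ^ j * ℓ₀) (hsc j)
  choose RB hRB using fun j : ℕ => HB (2 ^ j * ℓ₀) n (hsc j) hn1
  set S : ℕ := 2 ^ (J + q) * ℓ₀ with hS
  have hjS : ∀ j ≤ J + q, 2 ^ j * ℓ₀ ≤ S := fun j hj =>
    Nat.mul_le_mul_right _ (Nat.pow_le_pow_right (by norm_num) hj)
  set Bd : ℝ := 2 * (1 + C * ((K * (n * S) : ℕ) + 1) ^ 2) with hBd
  obtain ⟨RA, hRA⟩ := hAvs d (K * S) Bd η hη0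
  set R : ℕ := (Finset.range (J + q + 1)).sup RD + (Finset.range (J + q + 1)).sup RB + RA with hR
  have hRRD : ∀ j ≤ J + q, RD j ≤ R := by
    intro j hj
    have := Finset.le_sup (f := RD) (Finset.mem_range.2 (by omega : j < J + q + 1))
    omega
  have hRRB : ∀ j ≤ J + q, RB j ≤ R := by
    intro j hj
    have := Finset.le_sup (f := RB) (Finset.mem_range.2 (by omega : j < J + q + 1))
    omega
  refine ⟨R + 8 * K * (n * S) + W * S, ?_⟩
  intro N hN Ω _ P _ D hD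
  have hnS : S ≤ n * S := Nat.le_mul_of_pos_left _ (by omega)
  have hKS : K * S ≤ K * (n * S) := Nat.mul_le_mul_left _ hnS
  -- the sequences
  set h' : Site d → ℕ → ℝ := fun y j => hA P D R y (2 ^ (min j (J + q)) * ℓ₀) with hh'
  set s' : Site d → ℕ → ℝ := fun y j => sA P D R y (2 ^ (min j (J + q)) * ℓ₀) with hs'
  set v' : Site d → ℕ → ℝ := fun y j => if j < J + q then vA P D R y (2 ^ j * ℓ₀) else 0 with hv'
  set e' : ℕ → ℝ := fun j => M₁ / (2 ^ j * ℓ₀ : ℕ) with he'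
  have hDj : ∀ j ≤ J + q, ∀ y ∈ F, |hA P D R y (2 ^ j * ℓ₀)| ≤ M₁ ∧
      |sA P D R y (2 ^ j * ℓ₀)| ≤ M₁ ∧ 0 ≤ vA P D R y (2 ^ j * ℓ₀) ∧
      hA P D R y (2 * (2 ^ j * ℓ₀)) ≤ hA P D R y (2 ^ j * ℓ₀) + M₁ / (2 ^ j * ℓ₀ : ℕ) ∧
      sA P D R y (2 * (2 ^ j * ℓ₀)) ≤ sA P D R y (2 ^ j * ℓ₀) - vA P D R y (2 ^ j * ℓ₀) / 4 +
        M₁ / (2 ^ j * ℓ₀ : ℕ) := by
    intro j hj y hy
    refine hRD j R N (hRRD j hj) ?_ Ω P D hD y (by rwa [hF, mem_box] at hy)
    have h1 := hjS j hj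
    have h2 : 4 * K * (2 ^ j * ℓ₀) ≤ 4 * K * (n * S) :=
      Nat.mul_le_mul_left _ (h1.trans hnS)
    have h3 : 8 * K * (n * S) = 4 * K * (n * S) + 4 * K * (n * S) := by ring
    omega
  have hsucc : ∀ j, 2 ^ (j + 1) * ℓ₀ = 2 * (2 ^ j * ℓ₀) := fun j => by ring
  obtain ⟨j, hjJ, Hj⟩ := HJ (Site d) F le_rfl h' s' v' e'
    (by
      intro y hy j
      simp only [hh', he']
      rcases lt_or_ge j (J + q) with hj | hj
      · rw [min_eq_left (by omega : j + 1 ≤ J + q), min_eq_left hj.le, hsucc]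
        exact (hDj j hj.le y hy).2.2.2.1
      · rw [min_eq_right (by omega : J + q ≤ j + 1), min_eq_right hj]
        have : 0 ≤ M₁ / ((2 ^ j * ℓ₀ : ℕ) : ℝ) := by positivity
        linarith only [this])
    (by
      intro y hy j
      have := (hDj (min j (J + q)) (min_le_right _ _) y hy).1
      simp only [hh']
      linarith only [hM₁, this])
    (by
      intro y hy j
      simp only [hs', he', hv']
      rcases lt_or_ge j (J + q) with hj | hj
      · rw [min_eq_left (by omega : j + 1 ≤ J + q), min_eq_left hj.le, hsucc, if_pos hj]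
        exact (hDj j hj.le y hy).2.2.2.2
      · rw [min_eq_right (by omega : J + q ≤ j + 1), min_eq_right hj, if_neg (by omega)]
        have : 0 ≤ M₁ / ((2 ^ j * ℓ₀ : ℕ) : ℝ) := by positivity
        linarith only [this])
    (by
      intro y hy j
      have := (hDj (min j (J + q)) (min_le_right _ _) y hy).2.1
      simp only [hs']
      linarith only [hM₁, this])
    (by
      intro y hy j
      simp only [hv']
      split_ifs with hj
      · exact (hDj j hj.le y hy).2.2.1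
      · exact le_rfl)
    (by
      intro j
      simp only [he']
      positivity)
    (by
      intro m
      simp only [he']
      have h1 : ∀ j ∈ Finset.range m, M₁ / ((2 ^ j * ℓ₀ : ℕ) : ℝ) ≤ M₁ * (1 / 2) ^ j := by
        intro j _
        have hℓ : (1:ℝ) ≤ ℓ₀ := by exact_mod_cast hℓ₀1
        have h2 : ((1:ℝ) / 2) ^ j = 1 / 2 ^ j := by rw [div_pow, one_pow]
        push_cast
        rw [h2, mul_one_div]
        apply div_le_div_of_nonneg_left hM₁.le (by positivity)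
        nlinarith only [pow_pos (by norm_num : (0:ℝ) < 2) j, hℓ]
      calc ∑ j ∈ Finset.range m, M₁ / ((2 ^ j * ℓ₀ : ℕ) : ℝ)
          ≤ ∑ j ∈ Finset.range m, M₁ * (1 / 2) ^ j := Finset.sum_le_sum h1
        _ = M₁ * ∑ j ∈ Finset.range m, ((1:ℝ) / 2) ^ j := by rw [Finset.mul_sum]
        _ ≤ M₁ * 2 := by
            gcongr
            rw [geom_sum_eq (by norm_num)]
            have h3 : (0:ℝ) < (1 / 2) ^ m := by positivity
            rw [div_le_iff_of_neg (by norm_num)]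
            linarith only [h3]
        _ = 2 * M₁ := by ring)
  set ℓ : ℕ := 2 ^ j * ℓ₀ with hℓ
  have hℓ1 : 1 ≤ ℓ := hsc j
  have hℓS : ℓ ≤ S := hjS j (by omega)
  have hℓpos : (0:ℝ) < ℓ := by exact_mod_cast hℓ1
  have hnℓ : 2 ^ (j + q) * ℓ₀ = n * ℓ := by
    rw [hn, hℓ, pow_add]
    ring
  have hHB : ∀ y ∈ F, Av R (fun a => ∫ ω, |D ω a (a + sm ℓ y) / ℓ -
      D ω a (a + sm (n * ℓ) y) / (n * ℓ)| ∂P) ≤ ε₁ + n * ε₁ + M₂ / ℓ := by
    intro y hy
    have h1 := Hj y hy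
    refine hRB j R N (hRRB j (by omega)) ?_ Ω P D hD y ε₁ (by rwa [hF, mem_box] at hy) hε₁0.le
      ?_ ?_
    · have h2 : 4 * K * (n * (2 ^ j * ℓ₀)) ≤ 4 * K * (n * S) :=
        Nat.mul_le_mul_left _ (Nat.mul_le_mul_left _ hℓS)
      have h3 : 8 * K * (n * S) = 4 * K * (n * S) + 4 * K * (n * S) := by ring
      omega
    · have h2 := h1.1
      simp only [hh'] at h2
      rw [min_eq_left (by omega : j ≤ J + q), min_eq_left (by omega : j + q ≤ J + q), hnℓ] at h2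
      exact h2.trans (min_le_left _ _)
    · have h2 := h1.2
      simp only [hv'] at h2
      rw [if_pos (by omega : j < J + q)] at h2
      exact h2.trans (min_le_right _ _)
  -- sites
  have hNn : R + K * S + K * (n * S) ≤ N := by
    have h3 : 8 * K * (n * S) = 8 * (K * (n * S)) := by ring
    omega
  have hsml : ∀ y : Site d, sd 0 y ≤ K → sd 0 (sm ℓ y) ≤ K * S := by
    intro y hy
    calc sd 0 (sm ℓ y) ≤ ℓ * sd 0 y := sd_sm _ _
      _ ≤ S * K := Nat.mul_le_mul hℓS hy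
      _ = K * S := Nat.mul_comm _ _
  have hsmn : ∀ y : Site d, sd 0 y ≤ K → sd 0 (sm (n * ℓ) y) ≤ K * (n * S) := by
    intro y hy
    calc sd 0 (sm (n * ℓ) y) ≤ (n * ℓ) * sd 0 y := sd_sm _ _
      _ ≤ (n * S) * K := Nat.mul_le_mul (Nat.mul_le_mul_left _ hℓS) hy
      _ = K * (n * S) := Nat.mul_comm _ _
  have m1 : ∀ a ∈ box (0 : Site d) (R + K * S), a ∈ box (0 : Site d) N := by
    intro a ha
    exact box_mono _ (by omega) ha
  have m2 : ∀ a ∈ box (0 : Site d) (R + K * S), ∀ y : Site d, sd 0 y ≤ K →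
      a + sm ℓ y ∈ box (0 : Site d) N := fun a ha y hy =>
    mem_add ha (hsml y hy) (by omega)
  have m3 : ∀ a ∈ box (0 : Site d) (R + K * S), ∀ y : Site d, sd 0 y ≤ K →
      a + sm (n * ℓ) y ∈ box (0 : Site d) N := fun a ha y hy =>
    mem_add ha (hsmn y hy) hNn
  have m4 : ∀ a ∈ box (0 : Site d) R, ∀ k : Site d, sd 0 k ≤ K →
      a + sm ℓ k ∈ box (0 : Site d) (R + K * S) := fun a ha k hk =>
    mem_add ha (hsml k hk) le_rfl
  have m0 : ∀ a ∈ box (0 : Site d) R, a ∈ box (0 : Site d) (R + K * S) := fun a ha =>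
    box_mono _ (by omega) ha
  have hn0 : (0:ℝ) < n := by exact_mod_cast hn1
  have hn1' : (1:ℝ) ≤ n := by exact_mod_cast hn1
  have hℓ1' : (1:ℝ) ≤ ℓ := by exact_mod_cast hℓ1
  set f : Site d → Site d → ℝ := fun y a => ∫ ω, |D ω a (a + sm ℓ y) / ℓ -
      D ω a (a + sm (n * ℓ) y) / (n * ℓ)| ∂P with hf
  set T : Site d → Site d → Site d → ℝ := fun y k a => ∫ ω, |D ω a (a + sm ℓ y) / ℓ -
      D ω (a + sm ℓ k) (a + sm ℓ k + sm ℓ y) / ℓ| ∂P with hT
  have hI : ∀ {x y : Site d} (c : ℝ), x ∈ box (0 : Site d) N → y ∈ box (0 : Site d) N →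
      Integrable (fun ω => D ω x y / c) P := fun c hx hy => (integrable_D hD hx hy).div_const c
  have hfB : ∀ y ∈ F, ∀ a ∈ box (0 : Site d) (R + K * S), |f y a| ≤ Bd := by
    intro y hy a ha
    rw [hF, mem_box] at hy
    have i1 := hI (ℓ : ℝ) (m1 a ha) (m2 a ha y hy)
    have i2 := hI ((n : ℝ) * ℓ) (m1 a ha) (m3 a ha y hy)
    have b1 := abs_le' hD (m1 a ha) (m2 a ha y hy)
    have b2 := abs_le' hD (m1 a ha) (m3 a ha y hy)
    rw [sd_add'] at b1 b2
    have c1 : (sd 0 (sm ℓ y) : ℝ) ≤ (K * (n * S) : ℕ) := by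
      exact_mod_cast (hsml y hy).trans hKS
    have c2 : (sd 0 (sm (n * ℓ) y) : ℝ) ≤ (K * (n * S) : ℕ) := by
      exact_mod_cast hsmn y hy
    have e1 : ∫ ω, |D ω a (a + sm ℓ y)| ∂P ≤ 1 + C * ((K * (n * S) : ℕ) + 1) ^ 2 :=
      b1.trans (by gcongr)
    have e2 : ∫ ω, |D ω a (a + sm (n * ℓ) y)| ∂P ≤ 1 + C * ((K * (n * S) : ℕ) + 1) ^ 2 :=
      b2.trans (by gcongr)
    have i1' := (integrable_D hD (m1 a ha) (m2 a ha y hy)).abs
    have i2' := (integrable_D hD (m1 a ha) (m3 a ha y hy)).abs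
    have h0 : 0 ≤ f y a := integral_nonneg fun ω => abs_nonneg _
    rw [abs_of_nonneg h0]
    calc f y a ≤ ∫ ω, (|D ω a (a + sm ℓ y)| + |D ω a (a + sm (n * ℓ) y)|) ∂P := by
          refine integral_mono (i1.sub i2).abs (i1'.add i2') fun ω => ?_
          simp only
          refine (abs_sub _ _).trans (add_le_add ?_ ?_)
          · rw [abs_div, abs_of_pos hℓpos]
            exact div_le_self (abs_nonneg _) hℓ1'
          · rw [abs_div, abs_of_pos (by positivity : (0:ℝ) < n * ℓ)]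
            exact div_le_self (abs_nonneg _) (by nlinarith only [hn1', hℓ1'])
      _ = ∫ ω, |D ω a (a + sm ℓ y)| ∂P + ∫ ω, |D ω a (a + sm (n * ℓ) y)| ∂P :=
          integral_add i1' i2'
      _ ≤ Bd := by
          rw [hBd]
          linarith only [e1, e2]
  have hTle : ∀ y ∈ F, ∀ k ∈ F, ∀ a ∈ box (0 : Site d) R,
      T y k a ≤ f y a + η + f y (a + sm ℓ k) := by
    intro y hy k hk a ha
    rw [hF, mem_box] at hy hk
    have ha' := m0 a ha
    have hb' := m4 a ha k hk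
    have i1 := hI (ℓ : ℝ) (m1 a ha') (m2 a ha' y hy)
    have i2 := hI ((n : ℝ) * ℓ) (m1 a ha') (m3 a ha' y hy)
    have i3 := hI (ℓ : ℝ) (m1 _ hb') (m2 _ hb' y hy)
    have i4 := hI ((n : ℝ) * ℓ) (m1 _ hb') (m3 _ hb' y hy)
    have hs : ∫ ω, |D ω a (a + sm (n * ℓ) y) / (n * ℓ) -
        D ω (a + sm ℓ k) (a + sm ℓ k + sm (n * ℓ) y) / (n * ℓ)| ∂P ≤ η := by
      refine (HS N ℓ n hℓ1 hn1 Ω P D hD a y k hy hk ?_).trans hqn
      intro x hx
      rw [mem_box] at hx ha ⊢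
      have h1 : 4 * K * (n * ℓ) ≤ 4 * K * (n * S) :=
        Nat.mul_le_mul_left _ (Nat.mul_le_mul_left _ hℓS)
      have h2 : 8 * K * (n * S) = 4 * K * (n * S) + 4 * K * (n * S) := by ring
      have h3 := sd_triangle 0 a x
      omega
    have j1 : Integrable (fun ω => |D ω a (a + sm ℓ y) / ℓ -
        D ω a (a + sm (n * ℓ) y) / (n * ℓ)|) P := (i1.sub i2).abs
    have j2 : Integrable (fun ω => |D ω a (a + sm (n * ℓ) y) / (n * ℓ) -
        D ω (a + sm ℓ k) (a + sm ℓ k + sm (n * ℓ) y) / (n * ℓ)|) P := (i2.sub i4).abs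
    have j3 : Integrable (fun ω => |D ω (a + sm ℓ k) (a + sm ℓ k + sm ℓ y) / ℓ -
        D ω (a + sm ℓ k) (a + sm ℓ k + sm (n * ℓ) y) / (n * ℓ)|) P := (i3.sub i4).abs
    have j12 : Integrable (fun ω => |D ω a (a + sm ℓ y) / ℓ -
        D ω a (a + sm (n * ℓ) y) / (n * ℓ)| + |D ω a (a + sm (n * ℓ) y) / (n * ℓ) -
        D ω (a + sm ℓ k) (a + sm ℓ k + sm (n * ℓ) y) / (n * ℓ)|) P := j1.add j2
    calc T y k a ≤ ∫ ω, (|D ω a (a + sm ℓ y) / ℓ - D ω a (a + sm (n * ℓ) y) / (n * ℓ)| +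
          |D ω a (a + sm (n * ℓ) y) / (n * ℓ) -
            D ω (a + sm ℓ k) (a + sm ℓ k + sm (n * ℓ) y) / (n * ℓ)| +
          |D ω (a + sm ℓ k) (a + sm ℓ k + sm ℓ y) / ℓ -
            D ω (a + sm ℓ k) (a + sm ℓ k + sm (n * ℓ) y) / (n * ℓ)|) ∂P := by
          refine integral_mono (i1.sub i3).abs (j12.add j3) fun ω => ?_
          simp only
          have t1 := abs_sub_le (D ω a (a + sm ℓ y) / ℓ) (D ω a (a + sm (n * ℓ) y) / (n * ℓ))
            (D ω (a + sm ℓ k) (a + sm ℓ k + sm ℓ y) / ℓ)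
          have t2 := abs_sub_le (D ω a (a + sm (n * ℓ) y) / (n * ℓ))
            (D ω (a + sm ℓ k) (a + sm ℓ k + sm (n * ℓ) y) / (n * ℓ))
            (D ω (a + sm ℓ k) (a + sm ℓ k + sm ℓ y) / ℓ)
          have t3 := abs_sub_comm (D ω (a + sm ℓ k) (a + sm ℓ k + sm (n * ℓ) y) / (n * ℓ))
            (D ω (a + sm ℓ k) (a + sm ℓ k + sm ℓ y) / ℓ)
          linarith only [t1, t2, t3]
      _ = f y a + ∫ ω, |D ω a (a + sm (n * ℓ) y) / (n * ℓ) -
            D ω (a + sm ℓ k) (a + sm ℓ k + sm (n * ℓ) y) / (n * ℓ)| ∂P + f y (a + sm ℓ k) := by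
          rw [integral_add j12 j3, integral_add j1 j2]
      _ ≤ _ := by linarith only [hs]
  have hAvT : ∀ y ∈ F, ∀ k ∈ F, Av R (T y k) ≤ 4 * η := by
    intro y hy k hk
    have h1 : Av R (T y k) ≤ Av R (fun a => f y a + η + f y (a + sm ℓ k)) :=
      Av_mono (hTle y hy k hk)
    rw [Av_add, Av_add, Av_const] at h1
    have h2 := hRA R (by omega) (f y) (sm ℓ k) (hsml k (by rwa [hF, mem_box] at hk)) (hfB y hy)
    have h3 := (abs_le.1 h2).2
    have h4 := hHB y hy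
    have h5 : Av R (f y) ≤ ε₁ + n * ε₁ + M₂ / ℓ := h4
    have h6 := hℓM j
    have h7 : 2 * (ε₁ + n * ε₁) = η := by
      rw [hε₁]
      field_simp
    have h8 : 2 * (M₂ / (ℓ : ℝ)) ≤ η := h6
    linarith only [h1, h3, h4, h6, h7]
  obtain ⟨a, haR, ha⟩ := exists_le_Av R (fun a => ∑ y ∈ F, ∑ k ∈ F, T y k a)
  have hsum : Av R (fun a => ∑ y ∈ F, ∑ k ∈ F, T y k a) ≤ ε := by
    rw [Av_sum]
    calc ∑ y ∈ F, Av R (fun a => ∑ k ∈ F, T y k a) = ∑ y ∈ F, ∑ k ∈ F, Av R (T y k) := by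
          refine Finset.sum_congr rfl fun y _ => ?_
          rw [Av_sum]
      _ ≤ ∑ y ∈ F, ∑ k ∈ F, 4 * η := Finset.sum_le_sum fun y hy =>
          Finset.sum_le_sum fun k hk => hAvT y hy k hk
      _ = ε := by
          rw [Finset.sum_const, Finset.sum_const, nsmul_eq_mul, nsmul_eq_mul, hη, hc]
          field_simp
  refine ⟨j, hjJ, a, ?_, ?_⟩
  · intro x hx
    rw [mem_box] at hx haR ⊢
    have h1 : W * (2 ^ j * ℓ₀) ≤ W * S := Nat.mul_le_mul_left _ hℓS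
    have h3 := sd_triangle 0 a x
    omega
  · intro y k hy hk
    have hT0 : ∀ y' k' : Site d, 0 ≤ T y' k' a := fun y' k' => integral_nonneg fun ω => abs_nonneg _
    have h1 : T y k a ≤ ∑ y ∈ F, ∑ k ∈ F, T y k a := by
      have h2 : T y k a ≤ ∑ k ∈ F, T y k a :=
        Finset.single_le_sum (f := fun k => T y k a) (fun k' _ => hT0 y k')
          (by rw [hF, mem_box]; exact hk)
      exact h2.trans (Finset.single_le_sum (f := fun y => ∑ k ∈ F, T y k a)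
        (fun y' _ => Finset.sum_nonneg fun k' _ => hT0 y' k') (by rw [hF, mem_box]; exact hy))
    have h2 : T y k a ≤ ε := h1.trans (ha.trans hsum)
    have h3 : T y k a = (∫ ω, |D ω a (a + sm ℓ y) -
        D ω (a + sm ℓ k) (a + sm ℓ k + sm ℓ y)| ∂P) / ℓ := by
      simp only [hT]
      rw [← integral_div]
      refine integral_congr_ae (Filter.Eventually.of_forall fun ω => ?_)
      simp only
      rw [← sub_div, abs_div, abs_of_pos hℓpos]
    rw [h3, div_le_iff₀ hℓpos] at h2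
    exact h2

end Pool.Agent.LE.H26A
end
end -- Pool.Agent.Helper26_LE.Pig

section -- Pool.Agent.Helper59_LE.Blo

/-!
# BLO: at a good scale, the distances `ℓ` and `nℓ`
-/

set_option autoImplicit false
set_option linter.unusedSectionVars false

open MeasureTheory ProbabilityTheory Function Filter

open scoped ENNReal BigOperators

noncomputable section

namespace Pool.Agent.LE.H59A

open Pool.Agent.Anderson Pool.Agent.Loc Pool.Agent.Helper54.Bal

variable {d : ℕ}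

section
variable {Ω : Type} [MeasurableSpace Ω] {P : Measure Ω} [IsProbabilityMeasure P]

theorem sq_int_abs {f : Ω → ℝ} (hf : MemLp f 2 P) :
    (∫ ω, |f ω| ∂P) ^ 2 ≤ ∫ ω, f ω ^ 2 ∂P := by
  have i1 : Integrable f P := hf.integrable one_le_two
  have i2 : Integrable (fun ω => f ω ^ 2) P := (memLp_two_iff_integrable_sq hf.1).1 hf
  obtain ⟨m, hm⟩ : ∃ m, m = ∫ ω, |f ω| ∂P := ⟨_, rfl⟩
  rw [← hm]
  have h1 : 0 ≤ ∫ ω, (|f ω| - m) ^ 2 ∂P := integral_nonneg fun ω => sq_nonneg _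
  have h2 : ∀ ω, (|f ω| - m) ^ 2 = f ω ^ 2 - 2 * m * |f ω| + m ^ 2 := by
    intro ω
    rw [sub_sq, sq_abs]
    ring
  simp_rw [h2] at h1
  have j1 : Integrable (fun ω => 2 * m * |f ω|) P := i1.abs.const_mul _
  have j2 : Integrable (fun ω => f ω ^ 2 - 2 * m * |f ω|) P := i2.sub j1
  rw [integral_add j2 (integrable_const _), integral_sub i2 j1, integral_const_mul,
    integral_const, ← hm, probReal_univ, one_smul] at h1
  nlinarith only [h1]

theorem int_abs_le {f : Ω → ℝ} (hf : MemLp f 2 P) {c : ℝ} (hc : ∫ ω, f ω ^ 2 ∂P ≤ c ^ 2)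
    (hc0 : 0 ≤ c) : ∫ ω, |f ω| ∂P ≤ c :=
  (abs_le_of_sq_le_sq ((sq_int_abs hf).trans hc) hc0).trans' (le_abs_self _)

variable {N : ℕ} {C : ℝ} {D : Ω → Site d → Site d → ℝ}

theorem mem2 (h : FamN d N P C D) {x y : Site d} (hx : x ∈ box (0 : Site d) N)
    (hy : y ∈ box (0 : Site d) N) : MemLp (fun ω => D ω x y) 2 P :=
  (memLp_two_iff_integrable_sq (h.meas x y).aestronglyMeasurable).2 (h.int x hx y hy)

theorem abs_D (h : FamN d N P C D) (hC : 0 ≤ C) {x y : Site d} (hx : x ∈ box (0 : Site d) N)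
    (hy : y ∈ box (0 : Site d) N) : ∫ ω, |D ω x y| ∂P ≤ √C * (sd x y + 1) := by
  apply int_abs_le (mem2 h hx hy)
  · rw [mul_pow, Real.sq_sqrt hC]
    exact h.sq x hx y hy
  · positivity

theorem mem2_tri (h : FamN d N P C D) {x u y : Site d} (hx : x ∈ box (0 : Site d) N)
    (hu : u ∈ box (0 : Site d) N) (hy : y ∈ box (0 : Site d) N) :
    MemLp (fun ω => max 0 (D ω x y - D ω x u - D ω u y)) 2 P := by
  have h1 : MemLp (fun ω => D ω x y - D ω x u - D ω u y) 2 P :=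
    ((mem2 h hx hy).sub (mem2 h hx hu)).sub (mem2 h hu hy)
  refine h1.mono ?_ ?_
  · exact (measurable_const.max
      (((h.meas x y).sub (h.meas x u)).sub (h.meas u y))).aestronglyMeasurable
  · refine Filter.Eventually.of_forall fun ω => ?_
    rw [Real.norm_eq_abs, Real.norm_eq_abs, abs_of_nonneg (le_max_left _ _)]
    exact max_le (abs_nonneg _) (le_abs_self _)

theorem tri_le (h : FamN d N P C D) (hC : 0 ≤ C) {x u y : Site d}
    (hx : x ∈ box (0 : Site d) N) (hu : u ∈ box (0 : Site d) N) (hy : y ∈ box (0 : Site d) N) :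
    ∫ ω, max 0 (D ω x y - D ω x u - D ω u y) ∂P ≤ √C := by
  have h1 := int_abs_le (mem2_tri h hx hu hy) (c := √C)
    (by rw [Real.sq_sqrt hC]; exact h.tri x hx u hu y hy) (Real.sqrt_nonneg _)
  refine le_trans (le_of_eq ?_) h1
  apply integral_congr_ae
  refine Filter.Eventually.of_forall fun ω => ?_
  simp only
  rw [abs_of_nonneg (le_max_left _ _)]

end

/-! ### averages -/

theorem card_pos_real (d R : ℕ) : (0 : ℝ) < (2 * R + 1) ^ d := by positivity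

theorem av_mono {R : ℕ} {f g : Site d → ℝ} (h : ∀ a ∈ box (0 : Site d) R, f a ≤ g a) :
    Av R f ≤ Av R g :=
  div_le_div_of_nonneg_right (Finset.sum_le_sum h) (card_pos_real d R).le

theorem av_add (R : ℕ) (f g : Site d → ℝ) :
    Av R (fun a => f a + g a) = Av R f + Av R g := by
  unfold Av
  rw [Finset.sum_add_distrib, add_div]

theorem av_sub (R : ℕ) (f g : Site d → ℝ) :
    Av R (fun a => f a - g a) = Av R f - Av R g := by
  unfold Av
  rw [Finset.sum_sub_distrib, sub_div]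

theorem av_const (R : ℕ) (c : ℝ) : Av R (fun _ : Site d => c) = c := by
  unfold Av
  rw [Finset.sum_const, card_box, nsmul_eq_mul]
  push_cast
  rw [mul_div_cancel_left₀ _ (card_pos_real d R).ne']

theorem av_div (R : ℕ) (f : Site d → ℝ) (c : ℝ) :
    Av R (fun a => f a / c) = Av R f / c := by
  unfold Av
  rw [← Finset.sum_div, div_right_comm]

theorem av_sum {ι : Type*} (R : ℕ) (s : Finset ι) (f : ι → Site d → ℝ) :
    Av R (fun a => ∑ i ∈ s, f i a) = ∑ i ∈ s, Av R (f i) := by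
  unfold Av
  rw [Finset.sum_comm, Finset.sum_div]

theorem av_sq (R : ℕ) (f : Site d → ℝ) : Av R f ^ 2 ≤ Av R fun a => f a ^ 2 := by
  unfold Av
  have h1 := sq_sum_le_card_mul_sum_sq (s := box (0 : Site d) R) (f := f)
  rw [card_box] at h1
  push_cast at h1
  have h2 := card_pos_real d R
  rw [div_pow, div_le_div_iff₀ (by positivity) h2]
  calc (∑ a ∈ box (0 : Site d) R, f a) ^ 2 * (2 * (R : ℝ) + 1) ^ d
      ≤ ((2 * (R : ℝ) + 1) ^ d * ∑ a ∈ box (0 : Site d) R, f a ^ 2) * (2 * (R : ℝ) + 1) ^ d :=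
        mul_le_mul_of_nonneg_right h1 h2.le
    _ = (∑ a ∈ box (0 : Site d) R, f a ^ 2) * ((2 * (R : ℝ) + 1) ^ d) ^ 2 := by ring

/-! ### the points -/

theorem sm_zero (y : Site d) : sm 0 y = 0 := by
  funext j
  simp [sm]

theorem sm_add (k l : ℕ) (y : Site d) : sm (k + l) y = sm k y + sm l y := by
  funext j
  simp only [sm, Pi.add_apply]
  push_cast
  ring

theorem sd_sm {ℓ K : ℕ} {y : Site d} (hy : sd 0 y ≤ K) : sd 0 (sm ℓ y) ≤ K * ℓ := by
  rw [sd_le_iff] at hy ⊢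
  intro i
  have h1 := hy i
  rw [Pi.zero_apply, zero_sub, abs_neg] at h1 ⊢
  unfold sm
  rw [abs_mul, Nat.abs_cast]
  push_cast
  rw [mul_comm]
  exact mul_le_mul_of_nonneg_right h1 (by positivity)

theorem sd_add_right (a b : Site d) : sd a (a + b) = sd 0 b := by
  unfold sd
  congr 1
  funext i
  rw [Pi.add_apply, Pi.zero_apply]
  congr 1
  ring

/-- the pointwise inequality -/
theorem point {n : ℕ} (hn : 1 ≤ n) {ℓ : ℝ} (hℓ : 0 < ℓ) (δ : ℕ → ℝ) (η ρ : ℕ → ℝ)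
    (h1 : η 1 = δ 0) (hρ : ∀ i, 0 ≤ ρ i) (hstep : ∀ i, η (i + 1) ≤ η i + δ i + ρ i) :
    |δ 0 / ℓ - η n / (n * ℓ)| ≤
      ((∑ i ∈ Finset.range n, δ i / ℓ) / n - η n / (n * ℓ) +
        2 * ((∑ i ∈ Finset.range n, ρ i) / (n * ℓ))) +
      ∑ i ∈ Finset.range n, |δ i / ℓ - δ (i + 1) / ℓ| := by
  have hn' : (0 : ℝ) < n := by exact_mod_cast hn
  have h2 : ∀ m : ℕ, 1 ≤ m → η m ≤ ∑ i ∈ Finset.range m, δ i + ∑ i ∈ Finset.range m, ρ i := by
    intro m hm
    induction m, hm using Nat.le_induction with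
    | base =>
      rw [Finset.sum_range_one, Finset.sum_range_one, h1]
      linarith only [hρ 0]
    | succ m hm ih =>
      rw [Finset.sum_range_succ, Finset.sum_range_succ]
      linarith only [hstep m, ih]
  have h3 := h2 n hn
  obtain ⟨A, hA⟩ : ∃ A, A = (∑ i ∈ Finset.range n, δ i / ℓ) / n := ⟨_, rfl⟩
  obtain ⟨X, hX⟩ : ∃ X, X = η n / (n * ℓ) := ⟨_, rfl⟩
  obtain ⟨S, hS⟩ : ∃ S, S = (∑ i ∈ Finset.range n, ρ i) / (n * ℓ) := ⟨_, rfl⟩
  obtain ⟨Z, hZ⟩ : ∃ Z, Z = ∑ i ∈ Finset.range n, |δ i / ℓ - δ (i + 1) / ℓ| := ⟨_, rfl⟩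
  have hS0 : 0 ≤ S := by
    rw [hS]
    exact div_nonneg (Finset.sum_nonneg fun i _ => hρ i) (by positivity)
  have hAe : A = (∑ i ∈ Finset.range n, δ i) / (n * ℓ) := by
    rw [hA, ← Finset.sum_div, div_div, mul_comm ℓ]
  have h4 : X ≤ A + S := by
    rw [hX, hAe, hS, ← add_div]
    exact div_le_div_of_nonneg_right h3 (by positivity)
  have h5 : ∀ i, i < n → |δ 0 / ℓ - δ i / ℓ| ≤ Z := by
    intro i hi
    have h6 : ∀ j, |δ 0 / ℓ - δ j / ℓ| ≤ ∑ i ∈ Finset.range j, |δ i / ℓ - δ (i + 1) / ℓ| := by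
      intro j
      induction j with
      | zero => simp
      | succ j ih =>
        rw [Finset.sum_range_succ]
        calc |δ 0 / ℓ - δ (j + 1) / ℓ| =
            |(δ 0 / ℓ - δ j / ℓ) + (δ j / ℓ - δ (j + 1) / ℓ)| := by ring_nf
          _ ≤ |δ 0 / ℓ - δ j / ℓ| + |δ j / ℓ - δ (j + 1) / ℓ| := abs_add_le _ _
          _ ≤ _ := add_le_add ih le_rfl
    refine (h6 i).trans ?_
    rw [hZ]
    exact Finset.sum_le_sum_of_subset_of_nonneg
      (Finset.range_subset_range.2 hi.le) fun _ _ _ => abs_nonneg _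
  have h7 : |δ 0 / ℓ - A| ≤ Z := by
    have e : δ 0 / ℓ - A = (∑ i ∈ Finset.range n, (δ 0 / ℓ - δ i / ℓ)) / n := by
      rw [Finset.sum_sub_distrib, Finset.sum_const, Finset.card_range, nsmul_eq_mul, sub_div,
        mul_div_cancel_left₀ _ hn'.ne', hA]
    rw [e, abs_div, abs_of_pos hn', div_le_iff₀ hn']
    calc |∑ i ∈ Finset.range n, (δ 0 / ℓ - δ i / ℓ)|
        ≤ ∑ i ∈ Finset.range n, |δ 0 / ℓ - δ i / ℓ| := Finset.abs_sum_le_sum_abs _ _
      _ ≤ ∑ _i ∈ Finset.range n, Z :=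
          Finset.sum_le_sum fun i hi => h5 i (Finset.mem_range.1 hi)
      _ = Z * n := by rw [Finset.sum_const, Finset.card_range, nsmul_eq_mul, mul_comm]
  rw [← hA, ← hX, ← hS, ← hZ]
  have h8 : |A - X| ≤ A - X + 2 * S := by
    rw [abs_le]
    constructor <;> linarith
  calc |δ 0 / ℓ - X| = |(δ 0 / ℓ - A) + (A - X)| := by ring_nf
    _ ≤ |δ 0 / ℓ - A| + |A - X| := abs_add_le _ _
    _ ≤ Z + (A - X + 2 * S) := add_le_add h7 h8
    _ = _ := by ring

theorem blo (havs : AvsStmt) : BloStmt := by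
  intro d K C hC hK
  refine ⟨1 + 2 * √C, by positivity, fun ℓ n hℓ hn => ?_⟩
  have hℓr : (1 : ℝ) ≤ ℓ := by exact_mod_cast hℓ
  have hnr : (1 : ℝ) ≤ n := by exact_mod_cast hn
  have hKr : (1 : ℝ) ≤ K := by exact_mod_cast hK
  have hℓ0 : (0 : ℝ) < ℓ := by linarith only [hℓr]
  have hn0 : (0 : ℝ) < n := by linarith only [hnr]
  obtain ⟨B, hB⟩ : ∃ B : ℝ, B = 2 * (√C * (K + 1)) := ⟨_, rfl⟩
  obtain ⟨δ, hδ⟩ : ∃ δ : ℝ, δ = 1 / ((n + 1) * ℓ) := ⟨_, rfl⟩
  have hδ0 : 0 < δ := by rw [hδ]; positivity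
  obtain ⟨R₀, hR₀⟩ := havs d (K * (n * ℓ)) B δ hδ0
  refine ⟨R₀, fun R N hR hN Ω _ P _ D hD y ε hy hε hh hv => ?_⟩
  have hnat1 : K * ℓ ≤ K * (n * ℓ) :=
    Nat.mul_le_mul_left _ (Nat.le_mul_of_pos_left _ hn)
  have h4K : 4 * K * (n * ℓ) = 4 * (K * (n * ℓ)) := by ring
  -- the functions
  obtain ⟨f, hf⟩ : ∃ f : Site d → ℝ, f = fun a => ∫ ω, D ω a (a + sm ℓ y) / ℓ ∂P := ⟨_, rfl⟩
  obtain ⟨g, hg⟩ : ∃ g : Site d → ℝ, g = fun a => ∫ ω, |D ω a (a + sm ℓ y) / ℓ -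
    D ω (a + sm ℓ y) (a + sm (2 * ℓ) y) / ℓ| ∂P := ⟨_, rfl⟩
  have hs1 := sd_sm (ℓ := ℓ) hy
  have hs2 := sd_sm (ℓ := 2 * ℓ) hy
  have hs2' : K * (2 * ℓ) = 2 * (K * ℓ) := by ring
  -- membership
  have hin0 : ∀ a b : Site d, sd 0 a ≤ R + K * (n * ℓ) → sd 0 b ≤ 2 * (K * (n * ℓ)) →
      a + b ∈ box (0 : Site d) N := by
    intro a b ha hb
    rw [mem_box]
    have h1 := sd_triangle 0 a (a + b)
    rw [sd_add_right] at h1
    omega
  have hin00 : ∀ a : Site d, sd 0 a ≤ R + K * (n * ℓ) → a ∈ box (0 : Site d) N := by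
    intro a ha
    rw [mem_box]
    omega
  have hDl : ∀ a b : Site d, a ∈ box (0 : Site d) N → a + b ∈ box (0 : Site d) N →
      sd 0 b ≤ K * ℓ → ∫ ω, |D ω a (a + b) / ℓ| ∂P ≤ √C * (K + 1) := by
    intro a b ha hab hb
    have h1 := abs_D hD hC.le ha hab
    have h2 : ∀ ω, |D ω a (a + b) / ℓ| = |D ω a (a + b)| / ℓ := by
      intro ω
      rw [abs_div, abs_of_pos hℓ0]
    simp_rw [h2]
    rw [integral_div, div_le_iff₀ hℓ0]
    refine h1.trans ?_
    rw [mul_assoc]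
    apply mul_le_mul_of_nonneg_left _ (Real.sqrt_nonneg _)
    rw [sd_add_right]
    have h3 : (sd 0 b : ℝ) ≤ K * ℓ := by exact_mod_cast hb
    nlinarith only [hℓr, h3]
  have memD : ∀ a b : Site d, a ∈ box (0 : Site d) N → b ∈ box (0 : Site d) N →
      MemLp (fun ω => D ω a b / ℓ) 2 P := by
    intro a b ha hb
    have h1 := (mem2 hD ha hb).const_mul (1 / (ℓ : ℝ))
    refine (memLp_congr_ae (Filter.Eventually.of_forall fun ω => ?_)).1 h1
    ring
  have hsplit : ∀ a : Site d, a + sm (2 * ℓ) y = (a + sm ℓ y) + sm ℓ y := by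
    intro a
    rw [two_mul, sm_add, add_assoc]
  have hfb : ∀ a ∈ box (0 : Site d) (R + K * (n * ℓ)), |f a| ≤ B := by
    intro a ha
    rw [mem_box] at ha
    have h1 := hDl a (sm ℓ y) (hin00 a ha) (hin0 a _ ha (by omega)) hs1
    rw [hf, hB]
    refine (abs_integral_le_integral_abs).trans (h1.trans ?_)
    have : 0 ≤ √C * ((K : ℝ) + 1) := by positivity
    linarith only [this]
  have hgb : ∀ a ∈ box (0 : Site d) (R + K * (n * ℓ)), |g a| ≤ B := by
    intro a ha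
    rw [mem_box] at ha
    have e1 : a + sm ℓ y ∈ box (0 : Site d) N := hin0 a _ ha (by omega)
    have e2 : a + sm (2 * ℓ) y ∈ box (0 : Site d) N := hin0 a _ ha (by omega)
    have h1 := hDl a (sm ℓ y) (hin00 a ha) e1 hs1
    have h2 := hDl (a + sm ℓ y) (sm ℓ y) e1 (by rw [← hsplit]; exact e2) hs1
    rw [← hsplit] at h2
    have i1 := (memD a (a + sm ℓ y) (hin00 a ha) e1).integrable one_le_two
    have i2 := (memD (a + sm ℓ y) (a + sm (2 * ℓ) y) e1 e2).integrable one_le_two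
    have h3 : ∫ ω, |D ω a (a + sm ℓ y) / ℓ - D ω (a + sm ℓ y) (a + sm (2 * ℓ) y) / ℓ| ∂P ≤
        ∫ ω, (|D ω a (a + sm ℓ y) / ℓ| + |D ω (a + sm ℓ y) (a + sm (2 * ℓ) y) / ℓ|) ∂P := by
      apply integral_mono (i1.sub i2).abs (i1.abs.add i2.abs)
      intro ω
      exact abs_sub _ _
    rw [integral_add i1.abs i2.abs] at h3
    rw [hg, hB]
    rw [abs_of_nonneg (integral_nonneg fun ω => abs_nonneg _)]
    linarith only [h1, h2, h3]
  have hsh : ∀ i, i < n → sd 0 (sm (i * ℓ) y) ≤ K * (n * ℓ) := by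
    intro i hi
    refine (sd_sm hy).trans ?_
    exact Nat.mul_le_mul_left _ (Nat.mul_le_mul_right _ hi.le)
  have hAf : ∀ i, i < n → Av R (fun a => f (a + sm (i * ℓ) y)) ≤ Av R f + δ := by
    intro i hi
    have := (abs_le.1 (hR₀ R hR f (sm (i * ℓ) y) (hsh i hi) hfb)).2
    linarith only [this]
  have hAg : ∀ i, i < n → Av R (fun a => g (a + sm (i * ℓ) y)) ≤ Av R g + δ := by
    intro i hi
    have := (abs_le.1 (hR₀ R hR g (sm (i * ℓ) y) (hsh i hi) hgb)).2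
    linarith only [this]
  -- the average of g
  have hge : Av R g ≤ ε := by
    have h1 : Av R g ^ 2 ≤ ε ^ 2 := by
      refine (av_sq R g).trans (le_trans ?_ hv)
      unfold vA
      apply av_mono
      intro a ha
      rw [mem_box] at ha
      have ha' : sd 0 a ≤ R + K * (n * ℓ) := by omega
      have e1 : a + sm ℓ y ∈ box (0 : Site d) N := hin0 a _ ha' (by omega)
      have e2 : a + sm (2 * ℓ) y ∈ box (0 : Site d) N := hin0 a _ ha' (by omega)
      rw [hg]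
      exact sq_int_abs ((memD a (a + sm ℓ y) (hin00 a ha') e1).sub
        (memD (a + sm ℓ y) (a + sm (2 * ℓ) y) e1 e2))
    exact (abs_le_of_sq_le_sq h1 hε).trans' (le_abs_self _)
  -- the pointwise bound, integrated
  have hpt : ∀ a ∈ box (0 : Site d) R,
      ∫ ω, |D ω a (a + sm ℓ y) / ℓ - D ω a (a + sm (n * ℓ) y) / (n * ℓ)| ∂P ≤
      (∑ i ∈ Finset.range n, f (a + sm (i * ℓ) y)) / n -
        ∫ ω, D ω a (a + sm (n * ℓ) y) / (n * ℓ : ℕ) ∂P + 2 * (√C / ℓ) +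
        ∑ i ∈ Finset.range n, g (a + sm (i * ℓ) y) := by
    intro a ha
    rw [mem_box] at ha
    obtain ⟨p, hp⟩ : ∃ p : ℕ → Site d, p = fun i => a + sm (i * ℓ) y := ⟨_, rfl⟩
    have hp1 : ∀ i, p (i + 1) = p i + sm ℓ y := by
      intro i
      rw [hp]
      simp only
      rw [add_mul, one_mul, sm_add, add_assoc]
    have hp0 : p 0 = a := by
      rw [hp]
      simp only
      rw [zero_mul, sm_zero, add_zero]
    have hpin : ∀ i, i ≤ n + 2 → p i ∈ box (0 : Site d) N := by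
      intro i hi
      rw [hp, mem_box]
      simp only
      have h1 := sd_triangle 0 a (a + sm (i * ℓ) y)
      rw [sd_add_right] at h1
      have h2 := sd_sm (ℓ := i * ℓ) hy
      have h3 : K * (i * ℓ) ≤ K * ((n + 2) * ℓ) :=
        Nat.mul_le_mul_left _ (Nat.mul_le_mul_right _ hi)
      have h4 : K * ((n + 2) * ℓ) = K * (n * ℓ) + 2 * (K * ℓ) := by ring
      omega
    have hpin' : ∀ i, i ≤ n + 1 → p i + sm ℓ y ∈ box (0 : Site d) N := by
      intro i hi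
      rw [← hp1]
      exact hpin (i + 1) (by omega)
    have hpa : a ∈ box (0 : Site d) N := by
      have := hpin 0 (by omega)
      rwa [hp0] at this
    have hpoint : ∀ ω, |D ω a (a + sm ℓ y) / ℓ - D ω a (a + sm (n * ℓ) y) / (n * ℓ)| ≤
        ((∑ i ∈ Finset.range n, D ω (p i) (p i + sm ℓ y) / ℓ) / n -
          D ω a (p n) / (n * ℓ) +
          2 * ((∑ i ∈ Finset.range n, max 0 (D ω a (p i + sm ℓ y) - D ω a (p i) -
            D ω (p i) (p i + sm ℓ y))) / (n * ℓ))) +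
        ∑ i ∈ Finset.range n, |D ω (p i) (p i + sm ℓ y) / ℓ -
          D ω (p i + sm ℓ y) (p i + sm (2 * ℓ) y) / ℓ| := by
      intro ω
      have h1 := point hn hℓ0 (fun i => D ω (p i) (p i + sm ℓ y)) (fun i => D ω a (p i))
        (fun i => max 0 (D ω a (p i + sm ℓ y) - D ω a (p i) - D ω (p i) (p i + sm ℓ y)))
        (by rw [hp1 0, hp0]) (fun i => le_max_left _ _) (by
          intro i
          rw [hp1]
          have := le_max_right 0 (D ω a (p i + sm ℓ y) - D ω a (p i) -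
            D ω (p i) (p i + sm ℓ y))
          linarith only [this])
      rw [hp0] at h1
      have e1 : p n = a + sm (n * ℓ) y := by rw [hp]
      have e2 : ∀ i, D ω (p (i + 1)) (p (i + 1) + sm ℓ y) =
          D ω (p i + sm ℓ y) (p i + sm (2 * ℓ) y) := by
        intro i
        rw [hp1, hsplit]
      simp_rw [e2] at h1
      rw [← e1]
      exact h1
    -- integrability
    have I1 : ∀ i ∈ Finset.range n, Integrable (fun ω => D ω (p i) (p i + sm ℓ y) / ℓ) P := by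
      intro i hi
      have hi' := Finset.mem_range.1 hi
      exact (memD _ _ (hpin i (by omega)) (hpin' i (by omega))).integrable one_le_two
    have I2 : Integrable (fun ω => D ω a (p n) / (n * ℓ)) P :=
      ((mem2 hD hpa (hpin n (by omega))).integrable one_le_two).div_const _
    have I3 : ∀ i ∈ Finset.range n, Integrable (fun ω => max 0 (D ω a (p i + sm ℓ y) -
        D ω a (p i) - D ω (p i) (p i + sm ℓ y))) P := by
      intro i hi
      have hi' := Finset.mem_range.1 hi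
      exact (mem2_tri hD hpa (hpin i (by omega)) (hpin' i (by omega))).integrable one_le_two
    have I4 : ∀ i ∈ Finset.range n, Integrable (fun ω => |D ω (p i) (p i + sm ℓ y) / ℓ -
        D ω (p i + sm ℓ y) (p i + sm (2 * ℓ) y) / ℓ|) P := by
      intro i hi
      have hi' := Finset.mem_range.1 hi
      have h1 : p i + sm (2 * ℓ) y ∈ box (0 : Site d) N := by
        rw [hsplit, ← hp1]
        exact hpin' (i + 1) (by omega)
      exact (((memD _ _ (hpin i (by omega)) (hpin' i (by omega))).integrable one_le_two).sub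
        ((memD _ _ (hpin' i (by omega)) h1).integrable one_le_two)).abs
    have J1 : Integrable (fun ω => (∑ i ∈ Finset.range n, D ω (p i) (p i + sm ℓ y) / ℓ) / n) P :=
      (integrable_finsetSum _ I1).div_const _
    have J3 : Integrable (fun ω => 2 * ((∑ i ∈ Finset.range n, max 0 (D ω a (p i + sm ℓ y) -
        D ω a (p i) - D ω (p i) (p i + sm ℓ y))) / (n * ℓ))) P :=
      ((integrable_finsetSum _ I3).div_const _).const_mul _
    have J4 : Integrable (fun ω => ∑ i ∈ Finset.range n, |D ω (p i) (p i + sm ℓ y) / ℓ -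
        D ω (p i + sm ℓ y) (p i + sm (2 * ℓ) y) / ℓ|) P := integrable_finsetSum _ I4
    have J12 : Integrable (fun ω => (∑ i ∈ Finset.range n, D ω (p i) (p i + sm ℓ y) / ℓ) / n -
        D ω a (p n) / (n * ℓ)) P := J1.sub I2
    have J123 : Integrable (fun ω => (∑ i ∈ Finset.range n, D ω (p i) (p i + sm ℓ y) / ℓ) / n -
        D ω a (p n) / (n * ℓ) + 2 * ((∑ i ∈ Finset.range n, max 0 (D ω a (p i + sm ℓ y) -
        D ω a (p i) - D ω (p i) (p i + sm ℓ y))) / (n * ℓ))) P := J12.add J3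
    have e1 : p n = a + sm (n * ℓ) y := by rw [hp]
    have K0 : Integrable (fun ω => |D ω a (a + sm ℓ y) / ℓ -
        D ω a (a + sm (n * ℓ) y) / (n * ℓ)|) P := by
      rw [← e1]
      have h1 : a + sm ℓ y ∈ box (0 : Site d) N := by
        have := hpin' 0 (by omega)
        rwa [hp0] at this
      exact (((memD _ _ hpa h1).integrable one_le_two).sub I2).abs
    refine (integral_mono K0 (J123.add J4) hpoint).trans ?_
    simp only [Pi.add_apply]
    have hsum3 : ∑ i ∈ Finset.range n, ∫ ω, max 0 (D ω a (p i + sm ℓ y) - D ω a (p i) -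
        D ω (p i) (p i + sm ℓ y)) ∂P ≤ n * √C := by
      calc ∑ i ∈ Finset.range n, ∫ ω, max 0 (D ω a (p i + sm ℓ y) - D ω a (p i) -
          D ω (p i) (p i + sm ℓ y)) ∂P ≤ ∑ _i ∈ Finset.range n, √C := by
            apply Finset.sum_le_sum
            intro i hi
            have hi' := Finset.mem_range.1 hi
            exact tri_le hD hC.le hpa (hpin i (by omega)) (hpin' i (by omega))
        _ = n * √C := by rw [Finset.sum_const, Finset.card_range, nsmul_eq_mul]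
    have E1 : ∫ ω, (∑ i ∈ Finset.range n, D ω (p i) (p i + sm ℓ y) / ℓ) / n ∂P =
        (∑ i ∈ Finset.range n, ∫ ω, D ω (p i) (p i + sm ℓ y) / ℓ ∂P) / n := by
      rw [integral_div, integral_finsetSum _ I1]
    have E3 : ∫ ω, 2 * ((∑ i ∈ Finset.range n, max 0 (D ω a (p i + sm ℓ y) -
        D ω a (p i) - D ω (p i) (p i + sm ℓ y))) / (n * ℓ)) ∂P =
        2 * ((∑ i ∈ Finset.range n, ∫ ω, max 0 (D ω a (p i + sm ℓ y) -
        D ω a (p i) - D ω (p i) (p i + sm ℓ y)) ∂P) / (n * ℓ)) := by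
      rw [integral_const_mul, integral_div, integral_finsetSum _ I3]
    rw [integral_add J123 J4, integral_add J12 J3, integral_sub J1 I2, E1, E3,
      integral_finsetSum _ I4]
    have F1 : ∑ i ∈ Finset.range n, ∫ ω, D ω (p i) (p i + sm ℓ y) / ℓ ∂P =
        ∑ i ∈ Finset.range n, f (a + sm (i * ℓ) y) := by
      rw [hp, hf]
    have F4 : ∑ i ∈ Finset.range n, ∫ ω, |D ω (p i) (p i + sm ℓ y) / ℓ -
        D ω (p i + sm ℓ y) (p i + sm (2 * ℓ) y) / ℓ| ∂P =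
        ∑ i ∈ Finset.range n, g (a + sm (i * ℓ) y) := by
      rw [hp, hg]
    rw [F1, F4, e1]
    have F3 : (∑ i ∈ Finset.range n, ∫ ω, max 0 (D ω a (p i + sm ℓ y) - D ω a (p i) -
        D ω (p i) (p i + sm ℓ y)) ∂P) / (n * ℓ) ≤ √C / ℓ := by
      rw [div_le_div_iff₀ (by positivity) hℓ0]
      calc _ ≤ n * √C * ℓ := mul_le_mul_of_nonneg_right hsum3 hℓ0.le
        _ = √C * (n * ℓ) := by ring
    push_cast
    linarith only [F3]
  -- average
  refine (av_mono hpt).trans ?_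
  rw [av_add, av_add, av_sub, av_div, av_sum, av_sum, av_const]
  have G1 : (∑ i ∈ Finset.range n, Av R fun a => f (a + sm (i * ℓ) y)) / n ≤ Av R f + δ := by
    rw [div_le_iff₀ hn0]
    calc ∑ i ∈ Finset.range n, Av R (fun a => f (a + sm (i * ℓ) y))
        ≤ ∑ _i ∈ Finset.range n, (Av R f + δ) :=
          Finset.sum_le_sum fun i hi => hAf i (Finset.mem_range.1 hi)
      _ = (Av R f + δ) * n := by
          rw [Finset.sum_const, Finset.card_range, nsmul_eq_mul, mul_comm]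
  have G2 : ∑ i ∈ Finset.range n, Av R (fun a => g (a + sm (i * ℓ) y)) ≤ n * (ε + δ) := by
    calc ∑ i ∈ Finset.range n, Av R (fun a => g (a + sm (i * ℓ) y))
        ≤ ∑ _i ∈ Finset.range n, (ε + δ) :=
          Finset.sum_le_sum fun i hi => (hAg i (Finset.mem_range.1 hi)).trans (by linarith only [hge])
      _ = n * (ε + δ) := by rw [Finset.sum_const, Finset.card_range, nsmul_eq_mul]
  have G3 : Av R f = hA P D R y ℓ := by rw [hf]; rfl
  have G4 : (Av R fun a => ∫ ω, D ω a (a + sm (n * ℓ) y) / (n * ℓ : ℕ) ∂P) =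
      hA P D R y (n * ℓ) := rfl
  have G5 : (n + 1) * δ = 1 / ℓ := by
    rw [hδ]
    field_simp
  rw [G4]
  rw [G3] at G1
  have G6 : (1 + 2 * √C) / ℓ = 1 / ℓ + 2 * (√C / ℓ) := by ring
  rw [G6]
  linarith only [hh, G1, G2, G5]

end Pool.Agent.LE.H59A
end
end -- Pool.Agent.Helper59_LE.Blo

section -- Pool.Agent.Helper59_LE.Dbl

/-!
# DBL: the mean and the second moment when the distance is doubled
-/

set_option autoImplicit false
set_option linter.unusedSectionVars false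

open MeasureTheory ProbabilityTheory Function Filter

open scoped ENNReal BigOperators

noncomputable section

namespace Pool.Agent.LE.H59A

open Pool.Agent.Anderson Pool.Agent.Loc Pool.Agent.Helper54.Bal

variable {d : ℕ}

theorem av_half (R : ℕ) (f : Site d → ℝ) (c : ℝ) :
    Av R (fun a => c * f a) = c * Av R f := by
  unfold Av
  rw [← Finset.mul_sum, mul_div_assoc]

/-- the pointwise inequality for the second moment -/
theorem point2 {Z Y0 Y1 r ℓ : ℝ} (hℓ : 1 ≤ ℓ) (_ : 0 ≤ r) (h : Z ≤ (Y0 + Y1) / 2 + r) :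
    Z ^ 2 ≤ max 0 (-Z) ^ 2 + ((Y0 ^ 2 + Y1 ^ 2) / 2 - (Y0 - Y1) ^ 2 / 4) +
      (Y0 ^ 2 + Y1 ^ 2) / 2 / ℓ + 2 * (ℓ * r ^ 2) := by
  have hℓ0 : 0 < ℓ := by linarith only [hℓ]
  obtain ⟨m, hm⟩ : ∃ m, m = (Y0 + Y1) / 2 := ⟨_, rfl⟩
  have hm2 : (Y0 ^ 2 + Y1 ^ 2) / 2 - (Y0 - Y1) ^ 2 / 4 = m ^ 2 := by rw [hm]; ring
  have hm3 : m ^ 2 / ℓ ≤ (Y0 ^ 2 + Y1 ^ 2) / 2 / ℓ := by
    apply div_le_div_of_nonneg_right _ hℓ0.le
    nlinarith only [sq_nonneg (Y0 - Y1), hm2]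
  rw [← hm] at h
  have h1 : 2 * |m| * r ≤ m ^ 2 / ℓ + ℓ * r ^ 2 := by
    have h2 : 0 ≤ (|m| - ℓ * r) ^ 2 / ℓ := by positivity
    have h3 : (|m| - ℓ * r) ^ 2 / ℓ = m ^ 2 / ℓ - 2 * |m| * r + ℓ * r ^ 2 := by
      rw [← sq_abs m]
      field_simp
      ring
    linarith only [h2, h3]
  have h4 : r ^ 2 ≤ ℓ * r ^ 2 := le_mul_of_one_le_left (sq_nonneg r) hℓ
  have h5 : 0 ≤ m ^ 2 := sq_nonneg m
  have h6 : 0 ≤ m ^ 2 / ℓ := by positivity
  rw [hm2]
  rcases le_total 0 Z with hZ | hZ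
  · have h7 : Z ^ 2 ≤ (|m| + r) ^ 2 := by
      apply pow_le_pow_left₀ hZ
      linarith only [le_abs_self m, h]
    have h8 : (|m| + r) ^ 2 = m ^ 2 + 2 * |m| * r + r ^ 2 := by
      rw [← sq_abs m]
      ring
    have h9 : 0 ≤ max 0 (-Z) ^ 2 := sq_nonneg _
    linarith only [hm3, h1, h4, h7, h8, h9]
  · have h7 : max 0 (-Z) = -Z := max_eq_right (by linarith only [hZ])
    rw [h7]
    have h8 : 0 ≤ ℓ * r ^ 2 := by positivity
    nlinarith only [hm3, h4, h6]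

theorem dbl (havs : AvsStmt) : DblStmt := by
  intro d K C hC hK
  have hKr : (1 : ℝ) ≤ K := by exact_mod_cast hK
  obtain ⟨c, hc⟩ : ∃ c : ℝ, c = √C * (K + 1) := ⟨_, rfl⟩
  have hc0 : 0 ≤ c := by rw [hc]; positivity
  have hc2 : c ^ 2 = C * (K + 1) ^ 2 := by
    rw [hc, mul_pow, Real.sq_sqrt hC.le]
  have hsC : 0 ≤ √C := Real.sqrt_nonneg C
  refine ⟨1 + √C + c + c ^ 2 + C, by positivity, fun ℓ hℓ => ?_⟩
  have hℓr : (1 : ℝ) ≤ ℓ := by exact_mod_cast hℓ
  have hℓ0 : (0 : ℝ) < ℓ := by linarith only [hℓr]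
  obtain ⟨δ, hδ⟩ : ∃ δ : ℝ, δ = 1 / ℓ := ⟨_, rfl⟩
  have hδ0 : 0 < δ := by rw [hδ]; positivity
  obtain ⟨R₀, hR₀⟩ := havs d (K * ℓ) (c + c ^ 2) δ hδ0
  refine ⟨R₀, fun R N hR hN Ω _ P _ D hD y hy => ?_⟩
  have h4K : 4 * K * ℓ = 4 * (K * ℓ) := by ring
  -- the functions
  obtain ⟨f, hf⟩ : ∃ f : Site d → ℝ, f = fun a => ∫ ω, D ω a (a + sm ℓ y) / ℓ ∂P := ⟨_, rfl⟩
  obtain ⟨g, hg⟩ : ∃ g : Site d → ℝ, g = fun a => ∫ ω, (D ω a (a + sm ℓ y) / ℓ) ^ 2 ∂P :=
    ⟨_, rfl⟩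
  have hs1 := sd_sm (ℓ := ℓ) hy
  have hs2 := sd_sm (ℓ := 2 * ℓ) hy
  have hs2' : K * (2 * ℓ) = 2 * (K * ℓ) := by ring
  have hin0 : ∀ a b : Site d, sd 0 a ≤ R + K * ℓ → sd 0 b ≤ 2 * (K * ℓ) →
      a + b ∈ box (0 : Site d) N := by
    intro a b ha hb
    rw [mem_box]
    have h1 := sd_triangle 0 a (a + b)
    rw [sd_add_right] at h1
    omega
  have hin00 : ∀ a : Site d, sd 0 a ≤ R + K * ℓ → a ∈ box (0 : Site d) N := by
    intro a ha
    rw [mem_box]
    omega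
  have memD : ∀ a b : Site d, a ∈ box (0 : Site d) N → b ∈ box (0 : Site d) N →
      MemLp (fun ω => D ω a b / ℓ) 2 P := by
    intro a b ha hb
    have h1 := (mem2 hD ha hb).const_mul (1 / (ℓ : ℝ))
    refine (memLp_congr_ae (Filter.Eventually.of_forall fun ω => ?_)).1 h1
    ring
  have hsplit : ∀ a : Site d, a + sm (2 * ℓ) y = (a + sm ℓ y) + sm ℓ y := by
    intro a
    rw [two_mul, sm_add, add_assoc]
  -- the second moment at one point
  have hD2 : ∀ a b : Site d, a ∈ box (0 : Site d) N → a + b ∈ box (0 : Site d) N →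
      sd 0 b ≤ K * ℓ → ∫ ω, (D ω a (a + b) / ℓ) ^ 2 ∂P ≤ c ^ 2 := by
    intro a b ha hab hb
    have h1 := hD.sq a ha (a + b) hab
    simp_rw [div_pow]
    rw [integral_div, div_le_iff₀ (by positivity), hc2]
    refine h1.trans ?_
    rw [mul_assoc]
    apply mul_le_mul_of_nonneg_left _ hC.le
    rw [sd_add_right, ← mul_pow]
    apply pow_le_pow_left₀ (by positivity)
    have h3 : (sd 0 b : ℝ) ≤ K * ℓ := by exact_mod_cast hb
    nlinarith only [hℓr, h3]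
  have hfa : ∀ a : Site d, sd 0 a ≤ R + K * ℓ → |f a| ≤ c := by
    intro a ha
    have e1 : a + sm ℓ y ∈ box (0 : Site d) N := hin0 a _ ha (by omega)
    have h1 := int_abs_le (memD a (a + sm ℓ y) (hin00 a ha) e1) (c := c)
      (hD2 a (sm ℓ y) (hin00 a ha) e1 hs1) hc0
    rw [hf]
    exact (abs_integral_le_integral_abs).trans h1
  have hga : ∀ a : Site d, sd 0 a ≤ R + K * ℓ → 0 ≤ g a ∧ g a ≤ c ^ 2 := by
    intro a ha
    have e1 : a + sm ℓ y ∈ box (0 : Site d) N := hin0 a _ ha (by omega)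
    rw [hg]
    exact ⟨integral_nonneg fun ω => sq_nonneg _, hD2 a (sm ℓ y) (hin00 a ha) e1 hs1⟩
  have hfb : ∀ a ∈ box (0 : Site d) (R + K * ℓ), |f a| ≤ c + c ^ 2 := by
    intro a ha
    have := hfa a (mem_box.1 ha)
    nlinarith only [sq_nonneg c, this]
  have hgb : ∀ a ∈ box (0 : Site d) (R + K * ℓ), |g a| ≤ c + c ^ 2 := by
    intro a ha
    have := hga a (mem_box.1 ha)
    rw [abs_of_nonneg this.1]
    linarith only [hc0, this]
  have hAf : Av R (fun a => f (a + sm ℓ y)) ≤ Av R f + δ := by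
    have := (abs_le.1 (hR₀ R hR f (sm ℓ y) hs1 hfb)).2
    linarith only [this]
  have hAg : Av R (fun a => g (a + sm ℓ y)) ≤ Av R g + δ := by
    have := (abs_le.1 (hR₀ R hR g (sm ℓ y) hs1 hgb)).2
    linarith only [this]
  have hF : hA P D R y ℓ = Av R f := by rw [hf]; rfl
  have hG : sA P D R y ℓ = Av R g := by rw [hg]; rfl
  have hR' : ∀ a ∈ box (0 : Site d) R, sd 0 a ≤ R + K * ℓ := by
    intro a ha
    rw [mem_box] at ha
    omega
  refine ⟨?_, ?_, ?_, ?_, ?_⟩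
  · -- the mean is bounded
    have h1 : |Av R f| ≤ c := by
      rw [abs_le]
      constructor
      · rw [← av_const (d := d) R (-c)]
        exact av_mono fun a ha => (abs_le.1 (hfa a (hR' a ha))).1
      · rw [← av_const (d := d) R c]
        exact av_mono fun a ha => (abs_le.1 (hfa a (hR' a ha))).2
    rw [hF]
    nlinarith only [sq_nonneg c, hC, hsC, h1]
  · have h1 : |Av R g| ≤ c ^ 2 := by
      rw [abs_le]
      constructor
      · refine le_trans (neg_nonpos.2 (sq_nonneg c)) ?_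
        rw [← av_const (d := d) R 0]
        exact av_mono fun a ha => (hga a (hR' a ha)).1
      · rw [← av_const (d := d) R (c ^ 2)]
        exact av_mono fun a ha => (hga a (hR' a ha)).2
    rw [hG]
    linarith only [hC, hc0, hsC, h1]
  · unfold vA
    rw [← av_const (d := d) R 0]
    exact av_mono fun a _ => integral_nonneg fun ω => sq_nonneg _
  · -- the mean at the double distance
    have h1 : ∀ a ∈ box (0 : Site d) R, ∫ ω, D ω a (a + sm (2 * ℓ) y) / (2 * ℓ : ℕ) ∂P ≤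
        (1 / 2) * f a + (1 / 2) * f (a + sm ℓ y) + √C / (2 * ℓ) := by
      intro a ha
      have ha' := hR' a ha
      have m0 := hin00 a ha'
      have m1 : a + sm ℓ y ∈ box (0 : Site d) N := hin0 a _ ha' (by omega)
      have m2 : a + sm (2 * ℓ) y ∈ box (0 : Site d) N := hin0 a _ ha' (by omega)
      have i0 := (memD a (a + sm ℓ y) m0 m1).integrable one_le_two
      have i1 := (memD (a + sm ℓ y) (a + sm (2 * ℓ) y) m1 m2).integrable one_le_two
      have i2 : Integrable (fun ω => D ω a (a + sm (2 * ℓ) y) / (2 * ℓ : ℕ)) P :=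
        ((mem2 hD m0 m2).integrable one_le_two).div_const _
      have i3 : Integrable (fun ω => max 0 (D ω a (a + sm (2 * ℓ) y) - D ω a (a + sm ℓ y) -
        D ω (a + sm ℓ y) (a + sm (2 * ℓ) y)) / (2 * ℓ)) P :=
        ((mem2_tri hD m0 m1 m2).integrable one_le_two).div_const _
      have j0 : Integrable (fun ω => (1 / 2) * (D ω a (a + sm ℓ y) / ℓ)) P := i0.const_mul _
      have j1 : Integrable (fun ω => (1 / 2) * (D ω (a + sm ℓ y) (a + sm (2 * ℓ) y) / ℓ)) P :=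
        i1.const_mul _
      have j01 : Integrable (fun ω => (1 / 2) * (D ω a (a + sm ℓ y) / ℓ) +
        (1 / 2) * (D ω (a + sm ℓ y) (a + sm (2 * ℓ) y) / ℓ)) P := j0.add j1
      have hp : ∀ ω, D ω a (a + sm (2 * ℓ) y) / (2 * ℓ : ℕ) ≤
          (1 / 2) * (D ω a (a + sm ℓ y) / ℓ) +
          (1 / 2) * (D ω (a + sm ℓ y) (a + sm (2 * ℓ) y) / ℓ) +
          max 0 (D ω a (a + sm (2 * ℓ) y) - D ω a (a + sm ℓ y) -
            D ω (a + sm ℓ y) (a + sm (2 * ℓ) y)) / (2 * ℓ) := by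
        intro ω
        have h2 := le_max_right 0 (D ω a (a + sm (2 * ℓ) y) - D ω a (a + sm ℓ y) -
            D ω (a + sm ℓ y) (a + sm (2 * ℓ) y))
        have e : (1 / 2) * (D ω a (a + sm ℓ y) / ℓ) +
          (1 / 2) * (D ω (a + sm ℓ y) (a + sm (2 * ℓ) y) / ℓ) +
          max 0 (D ω a (a + sm (2 * ℓ) y) - D ω a (a + sm ℓ y) -
            D ω (a + sm ℓ y) (a + sm (2 * ℓ) y)) / (2 * ℓ) =
          (D ω a (a + sm ℓ y) + D ω (a + sm ℓ y) (a + sm (2 * ℓ) y) +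
          max 0 (D ω a (a + sm (2 * ℓ) y) - D ω a (a + sm ℓ y) -
            D ω (a + sm ℓ y) (a + sm (2 * ℓ) y))) / (2 * ℓ) := by
          field_simp
        rw [e]
        push_cast
        apply div_le_div_of_nonneg_right _ (by positivity)
        linarith only [h2]
      refine (integral_mono i2 (j01.add i3) hp).trans ?_
      simp only [Pi.add_apply]
      rw [integral_add j01 i3, integral_add j0 j1, integral_const_mul, integral_const_mul,
        integral_div (2 * (ℓ : ℝ))]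
      have h3 := tri_le hD hC.le m0 m1 m2
      have h4 : (∫ ω, max 0 (D ω a (a + sm (2 * ℓ) y) - D ω a (a + sm ℓ y) -
            D ω (a + sm ℓ y) (a + sm (2 * ℓ) y)) ∂P) / (2 * ℓ) ≤ √C / (2 * ℓ) :=
        div_le_div_of_nonneg_right h3 (by positivity)
      have h5 : f a = ∫ ω, D ω a (a + sm ℓ y) / ℓ ∂P := by rw [hf]
      have h6 : f (a + sm ℓ y) =
          ∫ ω, D ω (a + sm ℓ y) (a + sm (2 * ℓ) y) / ℓ ∂P := by rw [hf, hsplit]
      rw [← h5, ← h6]
      linarith only [h4]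
    have h2 := av_mono h1
    rw [av_add, av_add, av_half, av_half, av_const] at h2
    have h3 : hA P D R y (2 * ℓ) =
        Av R fun a => ∫ ω, D ω a (a + sm (2 * ℓ) y) / (2 * ℓ : ℕ) ∂P := rfl
    rw [h3, hF]
    have h4 : √C / (2 * ℓ) = (1 / 2) * (√C / ℓ) := by field_simp
    have h5 : (1 + √C + c + c ^ 2 + C) / ℓ = δ + √C / ℓ + c / ℓ + c ^ 2 / ℓ + C / ℓ := by
      rw [hδ]
      ring
    have h6 : 0 ≤ √C / ℓ := by positivity
    have h7 : 0 ≤ c / ℓ := by positivity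
    have h8 : 0 ≤ c ^ 2 / ℓ := by positivity
    have h9 : 0 ≤ C / ℓ := by positivity
    rw [h5]
    linarith only [hδ0, hAf, h2, h4, h6, h7, h8, h9]
  · -- the second moment at the double distance
    have h1 : ∀ a ∈ box (0 : Site d) R, ∫ ω, (D ω a (a + sm (2 * ℓ) y) / (2 * ℓ : ℕ)) ^ 2 ∂P ≤
        (1 / 2) * g a + (1 / 2) * g (a + sm ℓ y) -
        (1 / 4) * ∫ ω, (D ω a (a + sm ℓ y) / ℓ -
          D ω (a + sm ℓ y) (a + sm (2 * ℓ) y) / ℓ) ^ 2 ∂P + (c ^ 2 / ℓ + C / ℓ) := by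
      intro a ha
      have ha' := hR' a ha
      have m0 := hin00 a ha'
      have m1 : a + sm ℓ y ∈ box (0 : Site d) N := hin0 a _ ha' (by omega)
      have m2 : a + sm (2 * ℓ) y ∈ box (0 : Site d) N := hin0 a _ ha' (by omega)
      have l0 := memD a (a + sm ℓ y) m0 m1
      have l1 := memD (a + sm ℓ y) (a + sm (2 * ℓ) y) m1 m2
      have l01 : MemLp (fun ω => D ω a (a + sm ℓ y) / ℓ -
        D ω (a + sm ℓ y) (a + sm (2 * ℓ) y) / ℓ) 2 P := l0.sub l1
      have i0 : Integrable (fun ω => (D ω a (a + sm ℓ y) / ℓ) ^ 2) P :=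
        (memLp_two_iff_integrable_sq l0.1).1 l0
      have i1 : Integrable (fun ω => (D ω (a + sm ℓ y) (a + sm (2 * ℓ) y) / ℓ) ^ 2) P :=
        (memLp_two_iff_integrable_sq l1.1).1 l1
      have i01 : Integrable (fun ω => (D ω a (a + sm ℓ y) / ℓ -
        D ω (a + sm ℓ y) (a + sm (2 * ℓ) y) / ℓ) ^ 2) P :=
        (memLp_two_iff_integrable_sq l01.1).1 l01
      have l2 := mem2_tri hD m0 m1 m2
      have i2 : Integrable (fun ω => (max 0 (D ω a (a + sm (2 * ℓ) y) - D ω a (a + sm ℓ y) -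
        D ω (a + sm ℓ y) (a + sm (2 * ℓ) y))) ^ 2) P :=
        (memLp_two_iff_integrable_sq l2.1).1 l2
      have l3 := mem2 hD m0 m2
      have i3 : Integrable (fun ω => D ω a (a + sm (2 * ℓ) y) ^ 2) P :=
        (memLp_two_iff_integrable_sq l3.1).1 l3
      have l4 : MemLp (fun ω => max 0 (-D ω a (a + sm (2 * ℓ) y))) 2 P := by
        refine l3.mono ?_ ?_
        · exact (measurable_const.max (hD.meas _ _).neg).aestronglyMeasurable
        · refine Filter.Eventually.of_forall fun ω => ?_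
          rw [Real.norm_eq_abs, Real.norm_eq_abs, abs_of_nonneg (le_max_left _ _)]
          exact max_le (abs_nonneg _) (neg_le_abs _)
      have i4 : Integrable (fun ω => (max 0 (-D ω a (a + sm (2 * ℓ) y))) ^ 2) P :=
        (memLp_two_iff_integrable_sq l4.1).1 l4
      have hp : ∀ ω, (D ω a (a + sm (2 * ℓ) y) / (2 * ℓ : ℕ)) ^ 2 ≤
          1 / (4 * ℓ ^ 2) * (max 0 (-D ω a (a + sm (2 * ℓ) y))) ^ 2 +
          (1 / 2 + 1 / (2 * ℓ)) * (D ω a (a + sm ℓ y) / ℓ) ^ 2 +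
          (1 / 2 + 1 / (2 * ℓ)) * (D ω (a + sm ℓ y) (a + sm (2 * ℓ) y) / ℓ) ^ 2 +
          (-1 / 4) * (D ω a (a + sm ℓ y) / ℓ -
            D ω (a + sm ℓ y) (a + sm (2 * ℓ) y) / ℓ) ^ 2 +
          1 / (2 * ℓ) * (max 0 (D ω a (a + sm (2 * ℓ) y) - D ω a (a + sm ℓ y) -
            D ω (a + sm ℓ y) (a + sm (2 * ℓ) y))) ^ 2 := by
        intro ω
        obtain ⟨z, hz⟩ : ∃ z, z = D ω a (a + sm (2 * ℓ) y) := ⟨_, rfl⟩
        obtain ⟨y0, hy0⟩ : ∃ y0, y0 = D ω a (a + sm ℓ y) := ⟨_, rfl⟩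
        obtain ⟨y1, hy1⟩ : ∃ y1, y1 = D ω (a + sm ℓ y) (a + sm (2 * ℓ) y) := ⟨_, rfl⟩
        rw [← hz, ← hy0, ← hy1]
        have h2 := le_max_right 0 (z - y0 - y1)
        have h3 := point2 (Z := z / (2 * ℓ)) (Y0 := y0 / ℓ) (Y1 := y1 / ℓ)
          (r := max 0 (z - y0 - y1) / (2 * ℓ)) (ℓ := (ℓ : ℝ)) hℓr
          (div_nonneg (le_max_left _ _) (by positivity)) (by
            have e : (y0 / ℓ + y1 / ℓ) / 2 + max 0 (z - y0 - y1) / (2 * ℓ) =
              (y0 + y1 + max 0 (z - y0 - y1)) / (2 * ℓ) := by field_simp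
            rw [e]
            apply div_le_div_of_nonneg_right _ (by positivity)
            linarith only [h2])
        have h4 : max 0 (-(z / (2 * ℓ))) = max 0 (-z) / (2 * ℓ) := by
          rw [← neg_div, ← max_div_div_right (by positivity : (0 : ℝ) ≤ 2 * ℓ), zero_div]
        rw [h4] at h3
        push_cast
        refine h3.trans (le_of_eq ?_)
        field_simp
        ring
      have k4 : Integrable (fun ω => 1 / (4 * (ℓ : ℝ) ^ 2) *
        (max 0 (-D ω a (a + sm (2 * ℓ) y))) ^ 2) P := i4.const_mul _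
      have k0 : Integrable (fun ω => (1 / 2 + 1 / (2 * (ℓ : ℝ))) *
        (D ω a (a + sm ℓ y) / ℓ) ^ 2) P := i0.const_mul _
      have k1 : Integrable (fun ω => (1 / 2 + 1 / (2 * (ℓ : ℝ))) *
        (D ω (a + sm ℓ y) (a + sm (2 * ℓ) y) / ℓ) ^ 2) P := i1.const_mul _
      have k01 : Integrable (fun ω => (-1 / 4) * (D ω a (a + sm ℓ y) / ℓ -
            D ω (a + sm ℓ y) (a + sm (2 * ℓ) y) / ℓ) ^ 2) P := i01.const_mul _
      have k2 : Integrable (fun ω => 1 / (2 * (ℓ : ℝ)) *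
        (max 0 (D ω a (a + sm (2 * ℓ) y) - D ω a (a + sm ℓ y) -
            D ω (a + sm ℓ y) (a + sm (2 * ℓ) y))) ^ 2) P := i2.const_mul _
      have i5 : Integrable (fun ω => (D ω a (a + sm (2 * ℓ) y) / (2 * ℓ : ℕ)) ^ 2) P := by
        simp_rw [div_pow]
        exact i3.div_const _
      have s1 : Integrable (fun ω => 1 / (4 * (ℓ : ℝ) ^ 2) *
          (max 0 (-D ω a (a + sm (2 * ℓ) y))) ^ 2 +
          (1 / 2 + 1 / (2 * (ℓ : ℝ))) * (D ω a (a + sm ℓ y) / ℓ) ^ 2) P := k4.add k0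
      have s2 : Integrable (fun ω => 1 / (4 * (ℓ : ℝ) ^ 2) *
          (max 0 (-D ω a (a + sm (2 * ℓ) y))) ^ 2 +
          (1 / 2 + 1 / (2 * (ℓ : ℝ))) * (D ω a (a + sm ℓ y) / ℓ) ^ 2 +
          (1 / 2 + 1 / (2 * (ℓ : ℝ))) *
            (D ω (a + sm ℓ y) (a + sm (2 * ℓ) y) / ℓ) ^ 2) P := s1.add k1
      have s3 : Integrable (fun ω => 1 / (4 * (ℓ : ℝ) ^ 2) *
          (max 0 (-D ω a (a + sm (2 * ℓ) y))) ^ 2 +
          (1 / 2 + 1 / (2 * (ℓ : ℝ))) * (D ω a (a + sm ℓ y) / ℓ) ^ 2 +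
          (1 / 2 + 1 / (2 * (ℓ : ℝ))) *
            (D ω (a + sm ℓ y) (a + sm (2 * ℓ) y) / ℓ) ^ 2 +
          (-1 / 4) * (D ω a (a + sm ℓ y) / ℓ -
            D ω (a + sm ℓ y) (a + sm (2 * ℓ) y) / ℓ) ^ 2) P := s2.add k01
      refine (integral_mono i5 (s3.add k2) hp).trans ?_
      simp only [Pi.add_apply]
      rw [integral_add s3 k2, integral_add s2 k01, integral_add s1 k1, integral_add k4 k0,
        integral_const_mul, integral_const_mul, integral_const_mul, integral_const_mul,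
        integral_const_mul]
      have h5 : g a = ∫ ω, (D ω a (a + sm ℓ y) / ℓ) ^ 2 ∂P := by rw [hg]
      have h6 : g (a + sm ℓ y) =
          ∫ ω, (D ω (a + sm ℓ y) (a + sm (2 * ℓ) y) / ℓ) ^ 2 ∂P := by rw [hg, hsplit]
      rw [← h5, ← h6]
      have h7 := hD.neg a m0 (a + sm (2 * ℓ) y) m2
      have h8 := hD.tri a m0 (a + sm ℓ y) m1 (a + sm (2 * ℓ) y) m2
      have g1 := (hga a ha').2
      have g2 : g (a + sm ℓ y) ≤ c ^ 2 := by
        rw [h6]
        have := hD2 (a + sm ℓ y) (sm ℓ y) m1 (by rw [← hsplit]; exact m2) hs1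
        rwa [← hsplit] at this
      have q1 : 1 / (4 * (ℓ : ℝ) ^ 2) * ∫ ω, (max 0 (-D ω a (a + sm (2 * ℓ) y))) ^ 2 ∂P ≤
          (1 / 2) * (C / ℓ) := by
        calc _ ≤ 1 / (4 * (ℓ : ℝ) ^ 2) * C := mul_le_mul_of_nonneg_left h7 (by positivity)
          _ ≤ (1 / 2) * (C / ℓ) := by
            rw [one_div_mul_eq_div, div_le_iff₀ (by positivity)]
            have : (1 / 2) * (C / (ℓ : ℝ)) * (4 * (ℓ : ℝ) ^ 2) = 2 * C * ℓ := by
              field_simp
              ring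
            rw [this]
            nlinarith only [hC, hℓr]
      have q2 : 1 / (2 * (ℓ : ℝ)) * ∫ ω, (max 0 (D ω a (a + sm (2 * ℓ) y) -
          D ω a (a + sm ℓ y) - D ω (a + sm ℓ y) (a + sm (2 * ℓ) y))) ^ 2 ∂P ≤
          (1 / 2) * (C / ℓ) := by
        calc _ ≤ 1 / (2 * (ℓ : ℝ)) * C := mul_le_mul_of_nonneg_left h8 (by positivity)
          _ = (1 / 2) * (C / ℓ) := by
            field_simp
      have q3 : 1 / (2 * (ℓ : ℝ)) * g a ≤ (1 / 2) * (c ^ 2 / ℓ) := by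
        calc _ ≤ 1 / (2 * (ℓ : ℝ)) * c ^ 2 := mul_le_mul_of_nonneg_left g1 (by positivity)
          _ = (1 / 2) * (c ^ 2 / ℓ) := by field_simp
      have q4 : 1 / (2 * (ℓ : ℝ)) * g (a + sm ℓ y) ≤ (1 / 2) * (c ^ 2 / ℓ) := by
        calc _ ≤ 1 / (2 * (ℓ : ℝ)) * c ^ 2 := mul_le_mul_of_nonneg_left g2 (by positivity)
          _ = (1 / 2) * (c ^ 2 / ℓ) := by field_simp
      have q5 : (1 / 2 + 1 / (2 * (ℓ : ℝ))) * g a = (1 / 2) * g a + 1 / (2 * (ℓ : ℝ)) * g a := by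
        ring
      have q6 : (1 / 2 + 1 / (2 * (ℓ : ℝ))) * g (a + sm ℓ y) =
          (1 / 2) * g (a + sm ℓ y) + 1 / (2 * (ℓ : ℝ)) * g (a + sm ℓ y) := by
        ring
      rw [q5, q6]
      linarith only [q1, q2, q3, q4]
    have h2 := av_mono h1
    rw [av_add, av_sub, av_add, av_half, av_half, av_half, av_const] at h2
    have h3 : sA P D R y (2 * ℓ) =
        Av R fun a => ∫ ω, (D ω a (a + sm (2 * ℓ) y) / (2 * ℓ : ℕ)) ^ 2 ∂P := rfl
    have h4 : vA P D R y ℓ = Av R fun a => ∫ ω, (D ω a (a + sm ℓ y) / ℓ -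
          D ω (a + sm ℓ y) (a + sm (2 * ℓ) y) / ℓ) ^ 2 ∂P := rfl
    rw [h3, hG]
    rw [← h4] at h2
    have h5 : (1 + √C + c + c ^ 2 + C) / ℓ = δ + √C / ℓ + c / ℓ + c ^ 2 / ℓ + C / ℓ := by
      rw [hδ]
      ring
    have h6 : 0 ≤ √C / ℓ := by positivity
    have h7 : 0 ≤ c / ℓ := by positivity
    rw [h5]
    linarith only [hδ0, hAg, h2, h6, h7]

end Pool.Agent.LE.H59A
end
end -- Pool.Agent.Helper59_LE.Dbl

section -- Pool.Agent.Helper59_LE.Pig3

/-!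
# PIG3: near invariance under shifts at two scales and at one base point
-/

set_option autoImplicit false
set_option linter.unusedSectionVars false

open MeasureTheory ProbabilityTheory Function Filter

open scoped ENNReal BigOperators

noncomputable section

namespace Pool.Agent.LE.H59A

open Pool.Agent.Anderson Pool.Agent.Loc Pool.Agent.Mob Pool.Agent.Helper54.Bal
open Pool.Agent.LE.H26A (mem_add integrable_D abs_le' exists_le_Av)

variable {d : ℕ}

section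
variable {Ω : Type} [MeasurableSpace Ω] {P : Measure Ω} [IsProbabilityMeasure P]
  {N : ℕ} {C : ℝ} {D : Ω → Site d → Site d → ℝ}

/-- one scale: the average of the change under a shift -/
theorem avT {K n ℓ R : ℕ} {η Bd : ℝ} (hℓ1 : 1 ≤ ℓ) (hn1 : 1 ≤ n) (hC : 0 ≤ C)
    (hN : R + 8 * (K * (n * ℓ)) ≤ N) (hD : FamN d N P C D)
    (hBd : Bd = 2 * (1 + C * ((K * (n * ℓ) : ℕ) + 1) ^ 2))
    (HS : ∀ a y k : Site d, sd 0 y ≤ K → sd 0 k ≤ K →
      box a (4 * K * (n * ℓ)) ⊆ box 0 N →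
        ∫ ω, |D ω a (a + sm (n * ℓ) y) / (n * ℓ) -
          D ω (a + sm ℓ k) (a + sm ℓ k + sm (n * ℓ) y) / (n * ℓ)| ∂P ≤ η)
    (HA : ∀ (f : Site d → ℝ) (b : Site d), sd 0 b ≤ K * ℓ →
      (∀ a ∈ box (0 : Site d) (R + K * ℓ), |f a| ≤ Bd) →
      |Av R (fun a => f (a + b)) - Av R f| ≤ η)
    {y k : Site d} (hy : sd 0 y ≤ K) (hk : sd 0 k ≤ K)
    (hf : Av R (fun a => ∫ ω, |D ω a (a + sm ℓ y) / ℓ -
      D ω a (a + sm (n * ℓ) y) / (n * ℓ)| ∂P) ≤ η) :
    Av R (fun a => ∫ ω, |D ω a (a + sm ℓ y) / ℓ -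
      D ω (a + sm ℓ k) (a + sm ℓ k + sm ℓ y) / ℓ| ∂P) ≤ 4 * η := by
  have hℓpos : (0 : ℝ) < ℓ := by exact_mod_cast hℓ1
  have hnS : ℓ ≤ n * ℓ := Nat.le_mul_of_pos_left _ (by omega)
  have hKS : K * ℓ ≤ K * (n * ℓ) := Nat.mul_le_mul_left _ hnS
  have hNn : R + K * ℓ + K * (n * ℓ) ≤ N := by omega
  have hsml : ∀ y : Site d, sd 0 y ≤ K → sd 0 (sm ℓ y) ≤ K * ℓ := fun y hy => sd_sm hy
  have hsmn : ∀ y : Site d, sd 0 y ≤ K → sd 0 (sm (n * ℓ) y) ≤ K * (n * ℓ) :=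
    fun y hy => sd_sm hy
  have m1 : ∀ a ∈ box (0 : Site d) (R + K * ℓ), a ∈ box (0 : Site d) N := by
    intro a ha
    exact box_mono _ (by omega) ha
  have m2 : ∀ a ∈ box (0 : Site d) (R + K * ℓ), ∀ y : Site d, sd 0 y ≤ K →
      a + sm ℓ y ∈ box (0 : Site d) N := fun a ha y hy =>
    mem_add ha (hsml y hy) (by omega)
  have m3 : ∀ a ∈ box (0 : Site d) (R + K * ℓ), ∀ y : Site d, sd 0 y ≤ K →
      a + sm (n * ℓ) y ∈ box (0 : Site d) N := fun a ha y hy =>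
    mem_add ha (hsmn y hy) hNn
  have m4 : ∀ a ∈ box (0 : Site d) R, ∀ k : Site d, sd 0 k ≤ K →
      a + sm ℓ k ∈ box (0 : Site d) (R + K * ℓ) := fun a ha k hk =>
    mem_add ha (hsml k hk) le_rfl
  have m0 : ∀ a ∈ box (0 : Site d) R, a ∈ box (0 : Site d) (R + K * ℓ) := fun a ha =>
    box_mono _ (by omega) ha
  have hn0 : (0:ℝ) < n := by exact_mod_cast hn1
  have hn1' : (1:ℝ) ≤ n := by exact_mod_cast hn1
  have hℓ1' : (1:ℝ) ≤ ℓ := by exact_mod_cast hℓ1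
  set f : Site d → ℝ := fun a => ∫ ω, |D ω a (a + sm ℓ y) / ℓ -
      D ω a (a + sm (n * ℓ) y) / (n * ℓ)| ∂P with hfdef
  set T : Site d → ℝ := fun a => ∫ ω, |D ω a (a + sm ℓ y) / ℓ -
      D ω (a + sm ℓ k) (a + sm ℓ k + sm ℓ y) / ℓ| ∂P with hT
  have hI : ∀ {x y : Site d} (c : ℝ), x ∈ box (0 : Site d) N → y ∈ box (0 : Site d) N →
      Integrable (fun ω => D ω x y / c) P := fun c hx hy => (integrable_D hD hx hy).div_const c
  have hfB : ∀ a ∈ box (0 : Site d) (R + K * ℓ), |f a| ≤ Bd := by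
    intro a ha
    have i1 := hI (ℓ : ℝ) (m1 a ha) (m2 a ha y hy)
    have i2 := hI ((n : ℝ) * ℓ) (m1 a ha) (m3 a ha y hy)
    have b1 := abs_le' hD (m1 a ha) (m2 a ha y hy)
    have b2 := abs_le' hD (m1 a ha) (m3 a ha y hy)
    rw [sd_add_right] at b1 b2
    have c1 : (sd 0 (sm ℓ y) : ℝ) ≤ (K * (n * ℓ) : ℕ) := by
      exact_mod_cast (hsml y hy).trans hKS
    have c2 : (sd 0 (sm (n * ℓ) y) : ℝ) ≤ (K * (n * ℓ) : ℕ) := by
      exact_mod_cast hsmn y hy
    have e1 : ∫ ω, |D ω a (a + sm ℓ y)| ∂P ≤ 1 + C * ((K * (n * ℓ) : ℕ) + 1) ^ 2 :=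
      b1.trans (by gcongr)
    have e2 : ∫ ω, |D ω a (a + sm (n * ℓ) y)| ∂P ≤ 1 + C * ((K * (n * ℓ) : ℕ) + 1) ^ 2 :=
      b2.trans (by gcongr)
    have i1' := (integrable_D hD (m1 a ha) (m2 a ha y hy)).abs
    have i2' := (integrable_D hD (m1 a ha) (m3 a ha y hy)).abs
    have h0 : 0 ≤ f a := integral_nonneg fun ω => abs_nonneg _
    rw [abs_of_nonneg h0]
    calc f a ≤ ∫ ω, (|D ω a (a + sm ℓ y)| + |D ω a (a + sm (n * ℓ) y)|) ∂P := by
          refine integral_mono (i1.sub i2).abs (i1'.add i2') fun ω => ?_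
          simp only
          refine (abs_sub _ _).trans (add_le_add ?_ ?_)
          · rw [abs_div, abs_of_pos hℓpos]
            exact div_le_self (abs_nonneg _) hℓ1'
          · rw [abs_div, abs_of_pos (by positivity : (0:ℝ) < n * ℓ)]
            exact div_le_self (abs_nonneg _) (by nlinarith only [hn1', hℓ1'])
      _ = ∫ ω, |D ω a (a + sm ℓ y)| ∂P + ∫ ω, |D ω a (a + sm (n * ℓ) y)| ∂P :=
          integral_add i1' i2'
      _ ≤ Bd := by
          rw [hBd]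
          linarith only [e1, e2]
  have hTle : ∀ a ∈ box (0 : Site d) R, T a ≤ f a + η + f (a + sm ℓ k) := by
    intro a ha
    have ha' := m0 a ha
    have hb' := m4 a ha k hk
    have i1 := hI (ℓ : ℝ) (m1 a ha') (m2 a ha' y hy)
    have i2 := hI ((n : ℝ) * ℓ) (m1 a ha') (m3 a ha' y hy)
    have i3 := hI (ℓ : ℝ) (m1 _ hb') (m2 _ hb' y hy)
    have i4 := hI ((n : ℝ) * ℓ) (m1 _ hb') (m3 _ hb' y hy)
    have hs : ∫ ω, |D ω a (a + sm (n * ℓ) y) / (n * ℓ) -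
        D ω (a + sm ℓ k) (a + sm ℓ k + sm (n * ℓ) y) / (n * ℓ)| ∂P ≤ η := by
      refine HS a y k hy hk ?_
      intro x hx
      rw [mem_box] at hx ha ⊢
      have h2 : 4 * K * (n * ℓ) = 4 * (K * (n * ℓ)) := by ring
      have h3 := sd_triangle 0 a x
      omega
    have j1 : Integrable (fun ω => |D ω a (a + sm ℓ y) / ℓ -
        D ω a (a + sm (n * ℓ) y) / (n * ℓ)|) P := (i1.sub i2).abs
    have j2 : Integrable (fun ω => |D ω a (a + sm (n * ℓ) y) / (n * ℓ) -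
        D ω (a + sm ℓ k) (a + sm ℓ k + sm (n * ℓ) y) / (n * ℓ)|) P := (i2.sub i4).abs
    have j3 : Integrable (fun ω => |D ω (a + sm ℓ k) (a + sm ℓ k + sm ℓ y) / ℓ -
        D ω (a + sm ℓ k) (a + sm ℓ k + sm (n * ℓ) y) / (n * ℓ)|) P := (i3.sub i4).abs
    have j12 : Integrable (fun ω => |D ω a (a + sm ℓ y) / ℓ -
        D ω a (a + sm (n * ℓ) y) / (n * ℓ)| + |D ω a (a + sm (n * ℓ) y) / (n * ℓ) -
        D ω (a + sm ℓ k) (a + sm ℓ k + sm (n * ℓ) y) / (n * ℓ)|) P := j1.add j2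
    calc T a ≤ ∫ ω, (|D ω a (a + sm ℓ y) / ℓ - D ω a (a + sm (n * ℓ) y) / (n * ℓ)| +
          |D ω a (a + sm (n * ℓ) y) / (n * ℓ) -
            D ω (a + sm ℓ k) (a + sm ℓ k + sm (n * ℓ) y) / (n * ℓ)| +
          |D ω (a + sm ℓ k) (a + sm ℓ k + sm ℓ y) / ℓ -
            D ω (a + sm ℓ k) (a + sm ℓ k + sm (n * ℓ) y) / (n * ℓ)|) ∂P := by
          refine integral_mono (i1.sub i3).abs (j12.add j3) fun ω => ?_
          simp only
          have t1 := abs_sub_le (D ω a (a + sm ℓ y) / ℓ) (D ω a (a + sm (n * ℓ) y) / (n * ℓ))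
            (D ω (a + sm ℓ k) (a + sm ℓ k + sm ℓ y) / ℓ)
          have t2 := abs_sub_le (D ω a (a + sm (n * ℓ) y) / (n * ℓ))
            (D ω (a + sm ℓ k) (a + sm ℓ k + sm (n * ℓ) y) / (n * ℓ))
            (D ω (a + sm ℓ k) (a + sm ℓ k + sm ℓ y) / ℓ)
          have t3 := abs_sub_comm (D ω (a + sm ℓ k) (a + sm ℓ k + sm (n * ℓ) y) / (n * ℓ))
            (D ω (a + sm ℓ k) (a + sm ℓ k + sm ℓ y) / ℓ)
          linarith only [t1, t2, t3]
      _ = f a + ∫ ω, |D ω a (a + sm (n * ℓ) y) / (n * ℓ) -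
            D ω (a + sm ℓ k) (a + sm ℓ k + sm (n * ℓ) y) / (n * ℓ)| ∂P + f (a + sm ℓ k) := by
          rw [integral_add j12 j3, integral_add j1 j2]
      _ ≤ _ := by linarith only [hs]
  have h1 : Av R T ≤ Av R (fun a => f a + η + f (a + sm ℓ k)) := av_mono hTle
  rw [av_add, av_add, av_const] at h1
  have h2 := HA f (sm ℓ k) (hsml k hk) hfB
  have h3 := (abs_le.1 h2).2
  linarith only [hf, h1, h3]

/-- the average of the L¹ norms is at most the norm -/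
theorem av_abs_le {R : ℕ} {f : Site d → Ω → ℝ}
    (hf : ∀ a ∈ box (0 : Site d) R, MemLp (f a) 2 P) :
    Av R (fun a => ∫ ω, |f a ω| ∂P) ≤ nA P R f := by
  unfold nA
  apply Real.le_sqrt_of_sq_le
  refine (av_sq R _).trans ?_
  exact av_mono fun a ha => sq_int_abs (hf a ha)

end

theorem pig3 (hCau : CauStmt) (hShi : ShiStmt) (hAvs : AvsStmt) : Pig3Stmt := by
  classical
  intro d K W C ε hC hε hK Ω _ P _ D hD
  obtain ⟨M₃, hM₃, HS⟩ := hShi d K C hC hK
  set F : Finset (Site d) := box (0 : Site d) K with hF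
  set c : ℝ := (F.card : ℝ) ^ 2 with hc
  have hFne : F.Nonempty := ⟨0, by rw [hF, mem_box, sd_self]; exact Nat.zero_le _⟩
  have hFc : (1 : ℝ) ≤ F.card := by exact_mod_cast Finset.card_pos.2 hFne
  have hc0 : 0 < c := by positivity
  have hFcc : (F.card : ℝ) ≤ c := by rw [hc]; nlinarith only [hFc]
  set η : ℝ := ε / (9 * c) with hη
  have hη0 : 0 < η := by positivity
  obtain ⟨n, hn1, hqn⟩ : ∃ n : ℕ, 1 ≤ n ∧ M₃ / n ≤ η := by
    obtain ⟨n, hn⟩ := exists_nat_ge (M₃ / η)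
    refine ⟨n + 1, by omega, ?_⟩
    push_cast
    rw [div_le_iff₀ (by positivity)]
    rw [div_le_iff₀ hη0] at hn
    nlinarith only [hη0, hn]
  obtain ⟨l, hl1, hl⟩ := hCau d K C hC hK Ω P D hD η hη0
  refine ⟨l, hl1, fun ℓ ℓ' hℓ hℓ' => ?_⟩
  have hℓ1 : 1 ≤ ℓ := hl1.trans hℓ
  have hℓ1' : 1 ≤ ℓ' := hl1.trans hℓ'
  have hnl : l ≤ n * ℓ := hℓ.trans (Nat.le_mul_of_pos_left _ hn1)
  have hnl' : l ≤ n * ℓ' := hℓ'.trans (Nat.le_mul_of_pos_left _ hn1)
  obtain ⟨Bd, hBd⟩ : ∃ Bd : ℝ, Bd = 2 * (1 + C * ((K * (n * ℓ) : ℕ) + 1) ^ 2) := ⟨_, rfl⟩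
  obtain ⟨Bd', hBd'⟩ : ∃ Bd : ℝ, Bd = 2 * (1 + C * ((K * (n * ℓ') : ℕ) + 1) ^ 2) := ⟨_, rfl⟩
  obtain ⟨R₁, hR₁⟩ := hAvs d (K * ℓ) Bd η hη0
  obtain ⟨R₂, hR₂⟩ := hAvs d (K * ℓ') Bd' η hη0
  -- the choice of the size
  set N₀ : ℕ := 2 * (R₁ + R₂ + 8 * (K * (n * ℓ)) + 8 * (K * (n * ℓ')) + W * ℓ + W * ℓ') + 2
    with hN₀
  have hbig : ∀ᶠ N in (hyperfilter ℕ : Filter ℕ), N₀ ≤ N :=
    (eventually_ge_atTop N₀).filter_mono Nat.hyperfilter_le_atTop
  obtain ⟨N, ⟨⟨hNN, e1⟩, e2⟩, e3⟩ := (((hbig.and (hl ℓ (n * ℓ) hℓ hnl)).and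
    (hl ℓ' (n * ℓ') hℓ' hnl')).and (hl ℓ ℓ' hℓ hℓ')).exists
  set R : ℕ := N / 2 with hR
  have hRN : R₁ + R₂ + 8 * (K * (n * ℓ)) + 8 * (K * (n * ℓ')) + W * ℓ + W * ℓ' ≤ R := by omega
  have hRN2 : 2 * R ≤ N := by omega
  have hDN := hD N
  have hKn : K * ℓ ≤ K * (n * ℓ) := Nat.mul_le_mul_left _ (Nat.le_mul_of_pos_left _ hn1)
  have hKn' : K * ℓ' ≤ K * (n * ℓ') := Nat.mul_le_mul_left _ (Nat.le_mul_of_pos_left _ hn1)
  have memX : ∀ (m : ℕ) (y : Site d), sd 0 y ≤ K → K * m ≤ R → ∀ a ∈ box (0 : Site d) R,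
      MemLp (fun ω => XX (D N) y m a ω) 2 P := by
    intro m y hy hm a ha
    have h1 : a + sm m y ∈ box (0 : Site d) N := mem_add ha (sd_sm hy) (by omega)
    have h2 : a ∈ box (0 : Site d) N := box_mono _ (by omega) ha
    have h3 := (mem2 hDN h2 h1).const_mul (1 / (m : ℝ))
    refine (memLp_congr_ae (Filter.Eventually.of_forall fun ω => ?_)).1 h3
    unfold XX
    ring
  have avX : ∀ (m m' : ℕ) (y : Site d), sd 0 y ≤ K → K * m ≤ R → K * m' ≤ R →
      nA P R (fun a ω => XX (D N) y m a ω - XX (D N) y m' a ω) ≤ η →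
      Av R (fun a => ∫ ω, |XX (D N) y m a ω - XX (D N) y m' a ω| ∂P) ≤ η := by
    intro m m' y hy hm hm' h
    exact (av_abs_le fun a ha => (memX m y hy hm a ha).sub (memX m' y hy hm' a ha)).trans h
  have A1 : ∀ y ∈ F, ∀ k ∈ F, Av R (fun a => ∫ ω, |D N ω a (a + sm ℓ y) / ℓ -
      D N ω (a + sm ℓ k) (a + sm ℓ k + sm ℓ y) / ℓ| ∂P) ≤ 4 * η := by
    intro y hy k hk
    rw [hF, mem_box] at hy hk
    refine avT hℓ1 hn1 hC.le (by omega) hDN hBd
      (fun a y k hy hk hsub => (HS N ℓ n hℓ1 hn1 Ω P (D N) hDN a y k hy hk hsub).trans hqn)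
      (fun f b hb hfb => hR₁ R (by omega) f b hb hfb) hy hk ?_
    have h1 := avX ℓ (n * ℓ) y hy (by omega) (by omega) (e1 y hy)
    unfold XX at h1
    push_cast at h1
    exact h1
  have A2 : ∀ y ∈ F, ∀ k ∈ F, Av R (fun a => ∫ ω, |D N ω a (a + sm ℓ' y) / ℓ' -
      D N ω (a + sm ℓ' k) (a + sm ℓ' k + sm ℓ' y) / ℓ'| ∂P) ≤ 4 * η := by
    intro y hy k hk
    rw [hF, mem_box] at hy hk
    refine avT hℓ1' hn1 hC.le (by omega) hDN hBd'
      (fun a y k hy hk hsub => (HS N ℓ' n hℓ1' hn1 Ω P (D N) hDN a y k hy hk hsub).trans hqn)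
      (fun f b hb hfb => hR₂ R (by omega) f b hb hfb) hy hk ?_
    have h1 := avX ℓ' (n * ℓ') y hy (by omega) (by omega) (e2 y hy)
    unfold XX at h1
    push_cast at h1
    exact h1
  have A3 : ∀ y ∈ F, Av R (fun a => ∫ ω, |D N ω a (a + sm ℓ y) / ℓ -
      D N ω a (a + sm ℓ' y) / ℓ'| ∂P) ≤ η := by
    intro y hy
    rw [hF, mem_box] at hy
    exact avX ℓ ℓ' y hy (by omega) (by omega) (e3 y hy)
  -- the sum
  set T : Site d → Site d → Site d → ℝ := fun y k a => ∫ ω, |D N ω a (a + sm ℓ y) / ℓ -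
      D N ω (a + sm ℓ k) (a + sm ℓ k + sm ℓ y) / ℓ| ∂P with hT
  set T' : Site d → Site d → Site d → ℝ := fun y k a => ∫ ω, |D N ω a (a + sm ℓ' y) / ℓ' -
      D N ω (a + sm ℓ' k) (a + sm ℓ' k + sm ℓ' y) / ℓ'| ∂P with hT'
  set G : Site d → Site d → ℝ := fun y a => ∫ ω, |D N ω a (a + sm ℓ y) / ℓ -
      D N ω a (a + sm ℓ' y) / ℓ'| ∂P with hG
  obtain ⟨a, haR, ha⟩ := exists_le_Av R (fun a => (∑ y ∈ F, ∑ k ∈ F, T y k a +
    ∑ y ∈ F, ∑ k ∈ F, T' y k a) + ∑ y ∈ F, G y a)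
  have hsum : Av R (fun a => (∑ y ∈ F, ∑ k ∈ F, T y k a +
      ∑ y ∈ F, ∑ k ∈ F, T' y k a) + ∑ y ∈ F, G y a) ≤ ε := by
    rw [av_add, av_add, av_sum, av_sum, av_sum]
    have s1 : ∑ y ∈ F, Av R (fun a => ∑ k ∈ F, T y k a) ≤ c * (4 * η) := by
      calc ∑ y ∈ F, Av R (fun a => ∑ k ∈ F, T y k a) = ∑ y ∈ F, ∑ k ∈ F, Av R (T y k) :=
            Finset.sum_congr rfl fun y _ => av_sum R F (T y)
        _ ≤ ∑ _y ∈ F, ∑ _k ∈ F, 4 * η := Finset.sum_le_sum fun y hy =>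
            Finset.sum_le_sum fun k hk => A1 y hy k hk
        _ = c * (4 * η) := by
            rw [Finset.sum_const, Finset.sum_const, nsmul_eq_mul, nsmul_eq_mul, hc]
            ring
    have s2 : ∑ y ∈ F, Av R (fun a => ∑ k ∈ F, T' y k a) ≤ c * (4 * η) := by
      calc ∑ y ∈ F, Av R (fun a => ∑ k ∈ F, T' y k a) = ∑ y ∈ F, ∑ k ∈ F, Av R (T' y k) :=
            Finset.sum_congr rfl fun y _ => av_sum R F (T' y)
        _ ≤ ∑ _y ∈ F, ∑ _k ∈ F, 4 * η := Finset.sum_le_sum fun y hy =>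
            Finset.sum_le_sum fun k hk => A2 y hy k hk
        _ = c * (4 * η) := by
            rw [Finset.sum_const, Finset.sum_const, nsmul_eq_mul, nsmul_eq_mul, hc]
            ring
    have s3 : ∑ y ∈ F, Av R (G y) ≤ c * η := by
      calc ∑ y ∈ F, Av R (G y) ≤ ∑ _y ∈ F, η := Finset.sum_le_sum fun y hy => A3 y hy
        _ = F.card * η := by rw [Finset.sum_const, nsmul_eq_mul]
        _ ≤ c * η := mul_le_mul_of_nonneg_right hFcc hη0.le
    have s4 : c * (4 * η) + c * (4 * η) + c * η = ε := by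
      rw [hη]
      field_simp
      ring
    linarith only [s1, s2, s3, s4]
  have hT0 : ∀ y' k' : Site d, 0 ≤ T y' k' a := fun y' k' => integral_nonneg fun ω => abs_nonneg _
  have hT0' : ∀ y' k' : Site d, 0 ≤ T' y' k' a := fun y' k' =>
    integral_nonneg fun ω => abs_nonneg _
  have hG0 : ∀ y' : Site d, 0 ≤ G y' a := fun y' => integral_nonneg fun ω => abs_nonneg _
  have hs1 : 0 ≤ ∑ y ∈ F, ∑ k ∈ F, T y k a :=
    Finset.sum_nonneg fun y _ => Finset.sum_nonneg fun k _ => hT0 y k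
  have hs2 : 0 ≤ ∑ y ∈ F, ∑ k ∈ F, T' y k a :=
    Finset.sum_nonneg fun y _ => Finset.sum_nonneg fun k _ => hT0' y k
  have hs3 : 0 ≤ ∑ y ∈ F, G y a := Finset.sum_nonneg fun y _ => hG0 y
  have hall := ha.trans hsum
  have key : ∀ (m : ℕ) (X : Site d → Site d → Site d → ℝ), 1 ≤ m →
      (X = fun y k a => ∫ ω, |D N ω a (a + sm m y) / m -
        D N ω (a + sm m k) (a + sm m k + sm m y) / m| ∂P) → (∀ y' k' : Site d, 0 ≤ X y' k' a) →
      ∑ y ∈ F, ∑ k ∈ F, X y k a ≤ ε → ∀ y k : Site d, sd 0 y ≤ K → sd 0 k ≤ K →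
      ∫ ω, |D N ω a (a + sm m y) - D N ω (a + sm m k) (a + sm m k + sm m y)| ∂P ≤
        ε * (m : ℕ) := by
    intro m X hm hX hX0 hXs y k hy hk
    have hmpos : (0 : ℝ) < m := by exact_mod_cast hm
    have h1 : X y k a ≤ ∑ y ∈ F, ∑ k ∈ F, X y k a := by
      have h2 : X y k a ≤ ∑ k ∈ F, X y k a :=
        Finset.single_le_sum (f := fun k => X y k a) (fun k' _ => hX0 y k')
          (by rw [hF, mem_box]; exact hk)
      exact h2.trans (Finset.single_le_sum (f := fun y => ∑ k ∈ F, X y k a)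
        (fun y' _ => Finset.sum_nonneg fun k' _ => hX0 y' k') (by rw [hF, mem_box]; exact hy))
    have h2 : X y k a ≤ ε := h1.trans hXs
    have h3 : X y k a = (∫ ω, |D N ω a (a + sm m y) -
        D N ω (a + sm m k) (a + sm m k + sm m y)| ∂P) / m := by
      rw [hX]
      rw [← integral_div]
      refine integral_congr_ae (Filter.Eventually.of_forall fun ω => ?_)
      simp only
      rw [← sub_div, abs_div, abs_of_pos hmpos]
    rw [h3, div_le_iff₀ hmpos] at h2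
    exact h2
  refine ⟨N, a, ?_, ?_, fun y k hy hk => ⟨key ℓ T hℓ1 hT hT0 (by linarith only [ha, hsum, hs2, hs3]) y k hy hk,
    key ℓ' T' hℓ1' hT' hT0' (by linarith only [ha, hsum, hs1, hs3]) y k hy hk, ?_⟩⟩
  · intro x hx
    rw [mem_box] at hx haR ⊢
    have h3 := sd_triangle 0 a x
    omega
  · intro x hx
    rw [mem_box] at hx haR ⊢
    have h3 := sd_triangle 0 a x
    omega
  · have h1 : G y a ≤ ∑ y ∈ F, G y a :=
      Finset.single_le_sum (f := fun y => G y a) (fun y' _ => hG0 y')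
        (by rw [hF, mem_box]; exact hy)
    have h2 : G y a ≤ ε := by linarith only [ha, hsum, hs1, hs2, h1]
    exact h2

end Pool.Agent.LE.H59A
end
end -- Pool.Agent.Helper59_LE.Pig3
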