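import Pool.Agent.Helper12_MEB.B035

/-!
# Merged copies (generated) of the modules

* `Pool.Agent.Helper58_Mob.Geo`
* `Pool.Agent.Helper96_EXP.CvrDet`
* `Pool.Agent.Helper96_EXP.Cvr`
* `Pool.Agent.Helper59_LE.Gev1`
* `Pool.Agent.Helper59_LE.Gev2`
* `Pool.Agent.Helper59_LE.Gev3`
-/

set_option autoImplicit false

section -- Pool.Agent.Helper58_Mob.Geo

/-! GEO: geometric resolvent identity, both points in the smaller set. -/

set_option autoImplicit false

open scoped BigOperators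

noncomputable section

namespace Pool.Agent.Mob.H58

open Pool.Agent.Anderson Pool.Agent.Loc

/-- GEO -/
theorem geo : GeoStmt := by
  intro d V Λ A E hA h hA' x hx y hy
  have hyL : y ∈ Λ := hA hy
  have e1 : ∀ u ∈ A, ∑ z ∈ A, rm V E u z * gr V Λ E z y =
      (if u = y then 1 else 0) + ∑ u' ∈ Λ \ A, hop u u' * gr V Λ E u' y := by
    intro u hu
    have h1 := rm_mul_gr h (hA hu) hyL
    rw [← Finset.sum_sdiff hA] at h1
    have h2 : ∑ z ∈ Λ \ A, rm V E u z * gr V Λ E z y =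
        - ∑ u' ∈ Λ \ A, hop u u' * gr V Λ E u' y := by
      rw [← Finset.sum_neg_distrib]
      apply Finset.sum_congr rfl
      intro z hz
      have huz : u ≠ z := by
        rintro rfl
        exact (Finset.mem_sdiff.1 hz).2 hu
      unfold rm
      rw [if_neg huz]
      ring
    rw [h2] at h1
    linarith
  have e2 : ∑ u ∈ A, gr V A E x u * ∑ z ∈ A, rm V E u z * gr V Λ E z y = gr V Λ E x y := by
    simp_rw [Finset.mul_sum]
    rw [Finset.sum_comm]
    have : ∀ z ∈ A, ∑ u ∈ A, gr V A E x u * (rm V E u z * gr V Λ E z y) =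
        (if x = z then 1 else 0) * gr V Λ E z y := by
      intro z hz
      rw [← gr_mul_rm hA' hx hz, Finset.sum_mul]
      apply Finset.sum_congr rfl
      intro u _
      ring
    rw [Finset.sum_congr rfl this]
    simp [hx]
  rw [← e2]
  have e3 : ∀ u ∈ A, gr V A E x u * ∑ z ∈ A, rm V E u z * gr V Λ E z y =
      (if u = y then gr V A E x u else 0) +
        ∑ u' ∈ Λ \ A, gr V A E x u * hop u u' * gr V Λ E u' y := by
    intro u hu
    rw [e1 u hu, mul_add, Finset.mul_sum]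
    congr 1
    · split_ifs <;> simp
    · apply Finset.sum_congr rfl
      intro z _
      ring
  rw [Finset.sum_congr rfl e3, Finset.sum_add_distrib]
  congr 1
  rw [Finset.sum_ite_eq']
  simp [hy]

end Pool.Agent.Mob.H58
end
end -- Pool.Agent.Helper58_Mob.Geo

section -- Pool.Agent.Helper96_EXP.CvrDet

/-!
# CVR, deterministic part: from good cells to good cubes
-/

set_option autoImplicit false
set_option linter.unusedSectionVars false

open MeasureTheory ProbabilityTheory Function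

open scoped ENNReal BigOperators

noncomputable section

namespace Pool.Agent.LE.H96

open Pool.Agent.Anderson Pool.Agent.Loc Pool.Agent.Helper54.Bal
  Pool.Agent.Helper96.EXP

variable {d : ℕ}

/-- the integer point `n k` -/
def pt (n : ℕ) (k : Site d) : Site d := fun i => (n : ℤ) * k i

theorem cover_one {n M : ℕ} (hM : 1 ≤ M) {a : ℤ} (ha : |a| ≤ ((M * n : ℕ) : ℤ)) :
    ∃ k : ℤ, |k| ≤ ((M - 1 : ℕ) : ℤ) ∧ |n * k - a| ≤ n := by
  obtain ⟨M', rfl⟩ : ∃ M', M = M' + 1 := ⟨M - 1, by omega⟩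
  simp only [Nat.add_sub_cancel]
  rcases Nat.eq_zero_or_pos n with hn | hn
  · subst hn
    simp only [mul_zero, Nat.cast_zero, abs_nonpos_iff] at ha
    subst ha
    exact ⟨0, by simp, by simp⟩
  have hn' : (0 : ℤ) < n := by exact_mod_cast hn
  have main : ∀ b : ℤ, 0 ≤ b → b ≤ (((M' + 1) * n : ℕ) : ℤ) →
      ∃ k : ℤ, |k| ≤ (M' : ℤ) ∧ |n * k - b| ≤ n := by
    intro b hb0 hb
    rcases le_or_gt (b / n) M' with h | h
    · refine ⟨b / n, ?_, ?_⟩
      · rw [abs_of_nonneg (Int.ediv_nonneg hb0 hn'.le)]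
        exact h
      · have h1 := Int.emod_add_mul_ediv b n
        have h2 := Int.emod_nonneg b hn'.ne'
        have h3 := Int.emod_lt_of_pos b hn'
        rw [abs_le]
        constructor <;> linarith
    · refine ⟨M', by simp, ?_⟩
      have h1 := Int.emod_add_mul_ediv b n
      have h2 := Int.emod_nonneg b hn'.ne'
      have h4 : (n : ℤ) * (M' + 1) ≤ n * (b / n) := by
        apply mul_le_mul_of_nonneg_left _ hn'.le
        omega
      push_cast at hb
      rw [abs_le]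
      constructor <;> nlinarith
  rcases le_total 0 a with h | h
  · rw [abs_of_nonneg h] at ha
    exact main a h ha
  · rw [abs_of_nonpos h] at ha
    obtain ⟨k, hk1, hk2⟩ := main (-a) (by linarith) ha
    refine ⟨-k, by rwa [abs_neg], ?_⟩
    have : (n : ℤ) * -k - a = -(n * k - -a) := by ring
    rw [this, abs_neg]
    exact hk2

/-- the cubes of radius `n` with centres `n k` cover -/
theorem cover {n M : ℕ} (hM : 1 ≤ M) {a : Site d} (ha : a ∈ box (0 : Site d) (M * n)) :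
    ∃ k ∈ box (0 : Site d) (M - 1), sd (pt n k) a ≤ n := by
  rw [mem_box, sd_le_iff] at ha
  have h : ∀ i, ∃ k : ℤ, |k| ≤ ((M - 1 : ℕ) : ℤ) ∧ |n * k - a i| ≤ n := by
    intro i
    apply cover_one hM
    have := ha i
    simpa using this
  choose k hk1 hk2 using h
  refine ⟨k, ?_, ?_⟩
  · rw [mem_box, sd_le_iff]
    intro i
    simpa using hk1 i
  · rw [sd_le_iff]
    intro i
    exact hk2 i

theorem pt_box {n M : ℕ} {k : Site d} (hk : k ∈ box (0 : Site d) (M - 1)) {s : Site d}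
    (hs : sd (pt n k) s ≤ n) (hM : 1 ≤ M) : sd 0 s ≤ M * n := by
  rw [mem_box] at hk
  have h1 : sd 0 (pt n k) ≤ n * (M - 1) := by
    rw [sd_le_iff] at hk ⊢
    intro i
    have := hk i
    simp only [Pi.zero_apply, zero_sub, abs_neg, pt] at this ⊢
    rw [abs_mul, Nat.abs_cast]
    push_cast
    exact mul_le_mul_of_nonneg_left this (by positivity)
  have h2 := sd_triangle 0 (pt n k) s
  have h3 : n * (M - 1) + n = M * n := by
    obtain ⟨M', rfl⟩ : ∃ M', M = M' + 1 := ⟨M - 1, by omega⟩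
    simp only [Nat.add_sub_cancel]
    ring
  omega

/-- the transfer from a good site to all the sites of its cell -/
theorem transfer_site {V : Site d → ℝ} {E κ μ : ℝ} {L : ℕ} {B : Finset (Site d)}
    {c s a w : Site d}
    (hone : ∀ x ∈ B, ∀ u ∈ B, ∀ y ∈ B,
      |gr V B E x u| * |gr V B E u y| ≤ Real.exp (κ * L) * |gr V B E x y|)
    (hc : c ∈ B) (hs : s ∈ B) (ha : a ∈ B) (hw : w ∈ B)
    (h1 : Real.exp (-(κ * L)) ≤ |gr V B E c s|) (h2 : Real.exp (-(κ * L)) ≤ |gr V B E c a|)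
    (h3 : |gr V B E s w| ≤ Real.exp (-μ * L)) :
    |gr V B E a w| ≤ Real.exp (-(μ - 4 * κ) * L) := by
  have e1 := hone s hs c hc a ha
  have e2 := hone s hs a ha w hw
  rw [gr_symm V B E s c] at e1
  have p0 := Real.exp_pos (κ * L)
  have p1 := Real.exp_pos (-(κ * L))
  have q1 : Real.exp (-(3 * (κ * L))) ≤ |gr V B E s a| := by
    have h4 : Real.exp (-(κ * L)) * Real.exp (-(κ * L)) ≤ |gr V B E c s| * |gr V B E c a| :=
      mul_le_mul h1 h2 p1.le (abs_nonneg _)
    have h5 := h4.trans e1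
    have h6 : Real.exp (-(3 * (κ * L))) =
        Real.exp (-(κ * L)) * (Real.exp (-(κ * L)) * Real.exp (-(κ * L))) := by
      rw [← Real.exp_add, ← Real.exp_add]; congr 1; ring
    rw [h6]
    calc Real.exp (-(κ * L)) * (Real.exp (-(κ * L)) * Real.exp (-(κ * L)))
        ≤ Real.exp (-(κ * L)) * (Real.exp (κ * L) * |gr V B E s a|) :=
          mul_le_mul_of_nonneg_left h5 p1.le
      _ = |gr V B E s a| := by
          rw [← mul_assoc, ← Real.exp_add]
          simp
  have h7 : Real.exp (-(3 * (κ * L))) * |gr V B E a w| ≤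
      Real.exp (κ * L) * Real.exp (-μ * L) :=
    (mul_le_mul_of_nonneg_right q1 (abs_nonneg _)).trans
      (e2.trans (mul_le_mul_of_nonneg_left h3 p0.le))
  have h8 : |gr V B E a w| = Real.exp (3 * (κ * L)) * (Real.exp (-(3 * (κ * L))) *
      |gr V B E a w|) := by
    rw [← mul_assoc, ← Real.exp_add]
    simp
  rw [h8]
  refine (mul_le_mul_of_nonneg_left h7 (Real.exp_pos _).le).trans (le_of_eq ?_)
  rw [← Real.exp_add, ← Real.exp_add]
  congr 1
  ring

/-- from the large cube to a cube of radius `L` about `a` -/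
theorem to_cube {V : Site d → ℝ} {E κ τ : ℝ} {L : ℕ} {a u : Site d} (hτ : 0 ≤ τ)
    (hsub : box a (L + 1) ⊆ box 0 (3 * L))
    (hB : (RM V (box 0 (3 * L)) E).det ≠ 0) (hA : (RM V (box a L) E).det ≠ 0)
    (hT : ∀ b, |gr V (box a L) E b u| ≤ Real.exp (κ * L)) (hu : sd a u = L)
    (hG : ∀ w ∈ box (0 : Site d) (3 * L), L ≤ sd a w → sd a w ≤ L + 1 →
      |gr V (box 0 (3 * L)) E a w| ≤ τ) :
    |gr V (box a L) E a u| ≤ τ * (1 + 2 * d * (2 * L + 1) ^ d * Real.exp (κ * L)) := by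
  set B := box (0 : Site d) (3 * L) with hBdef
  set A := box a L with hAdef
  have hAB : A ⊆ B := (box_mono a (Nat.le_succ L)).trans hsub
  have huA : u ∈ A := mem_box.2 hu.le
  have haA : a ∈ A := mem_box.2 (by rw [sd_self]; omega)
  have h := Pool.Agent.Mob.H58.geo d V B A E hAB hB hA u huA a haA
  have h1 : gr V A E a u = gr V B E a u -
      ∑ b ∈ A, ∑ b' ∈ B \ A, gr V A E u b * hop b b' * gr V B E b' a := by
    rw [gr_symm V A E a u, gr_symm V B E a u, h]
    ring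
  have h2 : |gr V B E a u| ≤ τ := hG u (hAB huA) hu.ge (by omega)
  have h3 : ∀ b ∈ A, ∑ b' ∈ B \ A, |gr V A E u b * hop b b' * gr V B E b' a| ≤
      2 * d * (Real.exp (κ * L) * τ) := by
    intro b hb
    calc ∑ b' ∈ B \ A, |gr V A E u b * hop b b' * gr V B E b' a|
        ≤ ∑ b' ∈ B \ A, hop b b' * (Real.exp (κ * L) * τ) := by
          apply Finset.sum_le_sum
          intro b' hb'
          rw [abs_mul, abs_mul, abs_of_nonneg (hop_nonneg b b')]
          rcases eq_or_ne (hop b b') 0 with h0 | h0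
          · rw [h0]; simp
          · have h4 : sd b b' ≤ 1 := sd_of_hop h0
            have h5 := mem_box.1 hb
            have h6 : ¬ sd a b' ≤ L := fun hc => (Finset.mem_sdiff.1 hb').2 (mem_box.2 hc)
            have h7 := sd_triangle a b b'
            have h8 : |gr V B E b' a| ≤ τ := by
              rw [gr_symm]
              exact hG b' (Finset.mem_sdiff.1 hb').1 (by omega) (by omega)
            have h9 : |gr V A E u b| ≤ Real.exp (κ * L) := by
              rw [gr_symm]; exact hT b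
            calc |gr V A E u b| * hop b b' * |gr V B E b' a|
                = hop b b' * (|gr V A E u b| * |gr V B E b' a|) := by ring
              _ ≤ hop b b' * (Real.exp (κ * L) * τ) := by
                  apply mul_le_mul_of_nonneg_left _ (hop_nonneg b b')
                  exact mul_le_mul h9 h8 (abs_nonneg _) (Real.exp_pos _).le
      _ = (∑ b' ∈ B \ A, hop b b') * (Real.exp (κ * L) * τ) := by rw [Finset.sum_mul]
      _ ≤ 2 * d * (Real.exp (κ * L) * τ) :=
          mul_le_mul_of_nonneg_right (sum_hop_le b _) (by positivity)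
  have h4 : |∑ b ∈ A, ∑ b' ∈ B \ A, gr V A E u b * hop b b' * gr V B E b' a| ≤
      (2 * L + 1) ^ d * (2 * d * (Real.exp (κ * L) * τ)) := by
    refine (Finset.abs_sum_le_sum_abs _ _).trans ?_
    calc ∑ b ∈ A, |∑ b' ∈ B \ A, gr V A E u b * hop b b' * gr V B E b' a|
        ≤ ∑ _b ∈ A, 2 * d * (Real.exp (κ * L) * τ) :=
          Finset.sum_le_sum fun b hb => (Finset.abs_sum_le_sum_abs _ _).trans (h3 b hb)
      _ = _ := by
          rw [Finset.sum_const, hAdef, card_box, nsmul_eq_mul]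
          push_cast
          rfl
  rw [h1]
  refine (abs_sub _ _).trans ?_
  nlinarith

/-- all the cubes are good -/
theorem allGood {V : Site d → ℝ} {E κ μ : ℝ} {L n M : ℕ} (hL : L = M * n) (hM : 4 ≤ M)
    (hn : 1 ≤ n)
    (hB : (RM V (box 0 (3 * L)) E).det ≠ 0)
    (hA : ∀ a ∈ box (0 : Site d) L, (RM V (box a L) E).det ≠ 0)
    (hT : ∀ a ∈ box (0 : Site d) L, ∀ b u, |gr V (box a L) E b u| ≤ Real.exp (κ * L))
    (hone : ∀ x ∈ box (0 : Site d) (3 * L), ∀ u ∈ box (0 : Site d) (3 * L),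
      ∀ y ∈ box (0 : Site d) (3 * L), |gr V (box 0 (3 * L)) E x u| *
        |gr V (box 0 (3 * L)) E u y| ≤ Real.exp (κ * L) * |gr V (box 0 (3 * L)) E x y|)
    (hchn : ∀ k ∈ box (0 : Site d) (M - 1), ∀ a ∈ box (pt n k) n,
      Real.exp (-(κ * L)) ≤ |gr V (box 0 (3 * L)) E (pt n k) a|)
    (hgood : ∀ k ∈ box (0 : Site d) (M - 1), ∃ s ∈ box (pt n k) n,
      ∀ w ∈ box (0 : Site d) (3 * L), L ≤ 2 * sd s w →
        |gr V (box 0 (3 * L)) E s w| ≤ Real.exp (-μ * L))
    (hnum : Real.exp (-(μ - 4 * κ) * L) *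
      (1 + 2 * d * (2 * L + 1) ^ d * Real.exp (κ * L)) ≤ Real.exp (-(μ / 2) * L)) :
    AllGoodC V 0 L (μ / 2) E := by
  have hM1 : 1 ≤ M := by omega
  have hL1 : 4 ≤ L := by
    rw [hL]
    calc 4 = 4 * 1 := by norm_num
      _ ≤ M * n := Nat.mul_le_mul hM hn
  have h4n : 4 * n ≤ L := by
    rw [hL]; exact Nat.mul_le_mul_right n hM
  intro a ha
  refine ⟨hA a ha, fun u hu => ?_⟩
  have ha' := mem_box.1 ha
  have hsub : box a (L + 1) ⊆ box 0 (3 * L) := by
    intro w hw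
    rw [mem_box] at hw ⊢
    have := sd_triangle 0 a w
    omega
  refine (to_cube (τ := Real.exp (-(μ - 4 * κ) * L)) (Real.exp_pos _).le hsub hB (hA a ha)
    (fun b => hT a ha b u) hu ?_).trans hnum
  intro w hw h1 h2
  obtain ⟨k, hk, hak⟩ := cover hM1 (hL ▸ ha)
  obtain ⟨s, hs, hsw⟩ := hgood k hk
  have hcB : pt n k ∈ box (0 : Site d) (3 * L) := by
    rw [mem_box]
    have := pt_box hk (s := pt n k) (n := n) (by rw [sd_self]; omega) hM1
    rw [← hL] at this
    omega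
  have hs' := mem_box.1 hs
  have hsB : s ∈ box (0 : Site d) (3 * L) := by
    rw [mem_box]
    have := pt_box hk hs' hM1
    rw [← hL] at this
    omega
  have haB : a ∈ box (0 : Site d) (3 * L) := by
    rw [mem_box]; omega
  apply transfer_site hone hcB hsB haB hw (hchn k hk s hs) (hchn k hk a (mem_box.2 hak))
  apply hsw w hw
  have t1 := sd_triangle a s w
  have t2 := sd_triangle a (pt n k) s
  rw [sd_comm a (pt n k)] at t2
  omega

end Pool.Agent.LE.H96
end
end -- Pool.Agent.Helper96_EXP.CvrDet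

section -- Pool.Agent.Helper96_EXP.Cvr

/-!
# CVR: probabilities
-/

set_option autoImplicit false
set_option linter.unusedSectionVars false

open MeasureTheory ProbabilityTheory Function Filter

open scoped ENNReal BigOperators Topology

noncomputable section

namespace Pool.Agent.LE.H96

open Pool.Agent.Anderson Pool.Agent.Loc Pool.Agent.Helper54.Bal
  Pool.Agent.Helper96.EXP

variable {d : ℕ}

theorem union_le {Ω ι : Type*} [MeasurableSpace Ω] (P : Measure Ω) (F : Finset ι)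
    (A : ι → Set Ω) {q r : ℝ} (hA : ∀ i ∈ F, P (A i) ≤ ENNReal.ofReal q)
    (hr : F.card * q ≤ r) : P (⋃ i ∈ F, A i) ≤ ENNReal.ofReal r := by
  refine (measure_biUnion_finset_le F A).trans ((Finset.sum_le_sum hA).trans ?_)
  rw [Finset.sum_const, nsmul_eq_mul, ← ENNReal.ofReal_natCast,
    ← ENNReal.ofReal_mul (by positivity)]
  exact ENNReal.ofReal_le_ofReal hr

/-- the numbers -/
theorem exists_M (hd : 1 ≤ d) {κ q C : ℝ} (hκ : 0 < κ) (hq : 0 < q) (hC : 0 ≤ C) :
    ∃ M : ℕ, 4 ≤ M ∧ (2 * (M : ℝ)) ^ d * (C * (1 / (κ * M)) ^ (4 * d)) ≤ q := by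
  set x : ℝ := min 1 (q / (C + 1)) with hx
  have hx0 : 0 < x := lt_min one_pos (by positivity)
  obtain ⟨M, hM⟩ := exists_nat_ge (max 4 (2 / (κ ^ 4 * x)))
  have h4 : (4 : ℝ) ≤ M := (le_max_left _ _).trans hM
  have hM4 : 4 ≤ M := by exact_mod_cast h4
  have hM0 : (0 : ℝ) < M := by linarith only [h4]
  refine ⟨M, hM4, ?_⟩
  have h1 : 2 / (κ ^ 4 * x) ≤ M := (le_max_right _ _).trans hM
  have h2 : 2 ≤ M * (κ ^ 4 * x) := by rwa [div_le_iff₀ (by positivity)] at h1
  have h3 : 2 * (M : ℝ) * (1 / (κ * M)) ^ 4 ≤ x := by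
    rw [div_pow, one_pow, mul_pow, mul_one_div, div_le_iff₀ (by positivity)]
    have h5 : (1 : ℝ) ≤ M := by linarith only [h4]
    have h6 : M * (κ ^ 4 * x) * M ≤ x * (κ ^ 4 * M ^ 4) := by
      have h7 : x * (κ ^ 4 * M ^ 4) - M * (κ ^ 4 * x) * M = x * κ ^ 4 * M ^ 2 * (M ^ 2 - 1) := by
        ring
      have h8 : 0 ≤ x * κ ^ 4 * (M : ℝ) ^ 2 * (M ^ 2 - 1) := by
        have : (0 : ℝ) ≤ (M : ℝ) ^ 2 - 1 := by nlinarith only [h4]
        positivity
      linarith only [h8]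
    nlinarith only [h2, h6]
  have e : (2 * (M : ℝ)) ^ d * (C * (1 / (κ * M)) ^ (4 * d)) =
      C * (2 * (M : ℝ) * (1 / (κ * M)) ^ 4) ^ d := by
    rw [mul_pow (2 * (M : ℝ)), ← pow_mul]
    ring
  rw [e]
  have h9 : (2 * (M : ℝ) * (1 / (κ * M)) ^ 4) ^ d ≤ x := by
    refine (pow_le_pow_left₀ (by positivity) h3 d).trans ?_
    calc x ^ d ≤ x ^ 1 := pow_le_pow_of_le_one hx0.le (min_le_left _ _) hd
      _ = x := pow_one x
  calc C * _ ≤ C * x := mul_le_mul_of_nonneg_left h9 hC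
    _ ≤ C * (q / (C + 1)) := mul_le_mul_of_nonneg_left (min_le_right _ _) hC
    _ ≤ q := by
        rw [mul_div_assoc', div_le_iff₀ (by positivity)]
        nlinarith only [hq]

theorem poly_small (e : ℕ) {μ : ℝ} (hμ : 0 < μ) (a b : ℝ) {q : ℝ} (hq : 0 < q) :
    ∀ᶠ L : ℕ in atTop, b * (2 * (L : ℝ) + a) ^ e * Real.exp (-μ * L) ≤ q :=
  ((tendsto_poly_exp e hμ a b).eventually (eventually_lt_nhds hq)).mono fun _ h => h.le

theorem num_ev (d : ℕ) {μ κ : ℝ} (hκ : 0 < κ) (hμκ : μ = 16 * κ) :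
    ∀ᶠ L : ℕ in atTop, Real.exp (-(μ - 4 * κ) * L) *
      (1 + 2 * d * (2 * L + 1) ^ d * Real.exp (κ * L)) ≤ Real.exp (-(μ / 2) * L) := by
  have h1 := poly_small 0 (μ := 4 * κ) (by positivity) 1 1 (q := 1 / 2) (by norm_num)
  have h2 := poly_small d (μ := 3 * κ) (by positivity) 1 (2 * d) (q := 1 / 2) (by norm_num)
  filter_upwards [h1, h2] with L h1 h2
  rw [pow_zero, mul_one, one_mul] at h1
  have e1 : Real.exp (-(μ - 4 * κ) * L) =
      Real.exp (-(μ / 2) * L) * Real.exp (-(4 * κ) * L) := by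
    rw [← Real.exp_add]; congr 1; rw [hμκ]; ring
  have e2 : Real.exp (-(4 * κ) * L) * Real.exp (κ * L) = Real.exp (-(3 * κ) * L) := by
    rw [← Real.exp_add]; congr 1; ring
  rw [e1]
  have e3 : Real.exp (-(μ / 2) * L) * Real.exp (-(4 * κ) * L) *
      (1 + 2 * d * (2 * L + 1) ^ d * Real.exp (κ * L)) =
      Real.exp (-(μ / 2) * L) * (Real.exp (-(4 * κ) * L) +
        2 * d * (2 * L + 1) ^ d * Real.exp (-(3 * κ) * L)) := by
    rw [← e2]; ring
  rw [e3]
  have h3 : Real.exp (-(4 * κ) * L) + 2 * d * (2 * L + 1) ^ d * Real.exp (-(3 * κ) * L) ≤ 1 := by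
    have h2' : 2 * (d : ℝ) * (2 * L + 1) ^ d * Real.exp (-(3 * κ) * L) ≤ 1 / 2 := h2
    linarith only [h1, h2]
  calc _ ≤ Real.exp (-(μ / 2) * L) * 1 := mul_le_mul_of_nonneg_left h3 (Real.exp_pos _).le
    _ = _ := mul_one _

theorem measurableSet_allGood (L : ℕ) (m E : ℝ) :
    MeasurableSet {V : Site d → ℝ | AllGoodC V 0 L m E} := by
  have e : {V : Site d → ℝ | AllGoodC V 0 L m E} = ⋂ s ∈ box (0 : Site d) L,
      ({V | (RM V (box s L) E).det ≠ 0} ∩ ⋂ u ∈ box s L, {V | sd s u = L →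
        |gr V (box s L) E s u| ≤ Real.exp (-m * L)}) := by
    ext V
    simp only [AllGoodC, Set.mem_ofPred_eq, Set.mem_iInter, Set.mem_inter_iff]
    constructor
    · intro h s hs
      exact ⟨(h s hs).1, fun u _ hu => (h s hs).2 u hu⟩
    · intro h s hs
      exact ⟨(h s hs).1, fun u hu => (h s hs).2 u (mem_box.2 hu.le) hu⟩
  rw [e]
  refine Finset.measurableSet_biInter _ fun s _ => MeasurableSet.inter ?_ ?_
  · exact ((isClosed_singleton.preimage (continuous_det (box s L) E)).measurableSet).compl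
  · refine Finset.measurableSet_biInter _ fun u _ => ?_
    by_cases hu : sd s u = L
    · have : {V : Site d → ℝ | sd s u = L → |gr V (box s L) E s u| ≤ Real.exp (-m * L)} =
          {V | |gr V (box s L) E s u| ≤ Real.exp (-m * L)} := by
        ext V; simp [hu]
      rw [this]
      exact measurableSet_le (measurable_gr _ _ _ _).abs measurable_const
    · have : {V : Site d → ℝ | sd s u = L → |gr V (box s L) E s u| ≤ Real.exp (-m * L)} =
          Set.univ := by
        ext V; simp [hu]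
      rw [this]
      exact MeasurableSet.univ

theorem allGood_congr (L : ℕ) (m E : ℝ) {V V' : Site d → ℝ}
    (h : ∀ x ∈ box (0 : Site d) (2 * L), V x = V' x) :
    AllGoodC V 0 L m E ↔ AllGoodC V' 0 L m E := by
  have key : ∀ s ∈ box (0 : Site d) L, ∀ x ∈ box s L, V x = V' x := by
    intro s hs x hx
    apply h
    rw [mem_box] at *
    have := sd_triangle 0 s x
    omega
  unfold AllGoodC
  constructor
  · intro g s hs
    rw [← RM_congr (key s hs)]
    refine ⟨(g s hs).1, fun u hu => ?_⟩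
    rw [← gr_congr (key s hs)]
    exact (g s hs).2 u hu
  · intro g s hs
    rw [RM_congr (key s hs)]
    refine ⟨(g s hs).1, fun u hu => ?_⟩
    rw [gr_congr (key s hs)]
    exact (g s hs).2 u hu

theorem cvr (hErg : ErgStmt) (hRst : RstStmt) (hClo : CloStmt) : CvrStmt := by
  rintro d σ E hd hσ ⟨C₁, hone⟩ ⟨C₂, hchn⟩ C m hm hS p hp L₀
  set S : Set (Site d → ℝ) := {V | GoodE C m V E} with hSdef
  have hSm : MeasurableSet S := by
    have h1 := (hClo d C m).1
    have h2 : Continuous fun V : Site d → ℝ => (V, E) := by fun_prop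
    exact (h1.preimage h2).measurableSet
  set ρ : ℝ := 1 / |σ| with hρ
  have hdens : BddDens (gl σ) ρ := bddDens_gl hσ
  have hρ0 : 0 < ρ := by rw [hρ]; positivity
  set κ : ℝ := m / 128 with hκ
  have hκ0 : 0 < κ := by rw [hκ]; positivity
  set μ : ℝ := m / 8 with hμ
  have hμκ : μ = 16 * κ := by rw [hμ, hκ]; ring
  obtain ⟨M, hM4, hM⟩ := exists_M hd hκ0 (show 0 < p / 8 by positivity) (abs_nonneg C₂)
  have hM0 : (0 : ℝ) < M := by
    have : (4 : ℝ) ≤ M := by exact_mod_cast hM4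
    linarith only [this]
  obtain ⟨n₀, hn₀⟩ := hErg d (gl σ) S hd hSm hS (p / (8 * (2 * M) ^ d)) (by positivity)
  obtain ⟨L₁, hL₁⟩ := hRst d (gl σ) ρ hdens C m E hm (p / 8) (by positivity)
  have ev1 := num_ev d hκ0 hμκ
  have ev2 := poly_small (3 * d) (μ := κ / 3) (by positivity) (1 / 3) (3 ^ (3 * d) * |C₁|)
    (show 0 < p / 8 by positivity)
  have ev3 := poly_small (3 * d) (μ := κ) hκ0 1 (6 * ρ) (show 0 < p / 8 by positivity)
  obtain ⟨L₂, hL₂⟩ := eventually_atTop.1 (ev1.and (ev2.and ev3))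
  set n : ℕ := max 1 (max n₀ (max L₀ (max L₁ L₂))) with hn
  have hn1 : 1 ≤ n := le_max_left _ _
  have hnn₀ : n₀ ≤ n := (le_max_left _ _).trans (le_max_right _ _)
  have hnL₀ : L₀ ≤ n := (le_max_left _ _).trans ((le_max_right _ _).trans (le_max_right _ _))
  have hnL₁ : L₁ ≤ n := (le_max_left _ _).trans
    ((le_max_right _ _).trans ((le_max_right _ _).trans (le_max_right _ _)))
  have hnL₂ : L₂ ≤ n := (le_max_right _ _).trans
    ((le_max_right _ _).trans ((le_max_right _ _).trans (le_max_right _ _)))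
  have hnM : n ≤ M * n := Nat.le_mul_of_pos_left n (by omega)
  refine ⟨M * n, hnL₀.trans hnM, ?_⟩
  set L : ℕ := M * n with hL
  obtain ⟨num, ev2, ev3⟩ := hL₂ L (hnL₂.trans hnM)
  have hLr : (L : ℝ) = M * n := by rw [hL]; push_cast; ring
  have hn0 : (0 : ℝ) < n := by exact_mod_cast hn1
  have hL0 : (0 : ℝ) < L := by rw [hLr]; positivity
  set B : Finset (Site d) := box 0 (3 * L) with hB
  have hcardM : ((box (0 : Site d) (M - 1)).card : ℝ) ≤ (2 * M) ^ d := by
    rw [card_box]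
    push_cast
    apply pow_le_pow_left₀ (by positivity)
    have : ((M - 1 : ℕ) : ℝ) = M - 1 := by
      rw [Nat.cast_sub (by omega)]; simp
    rw [this]
    linarith only
  -- the bad events
  set E1 : Set (Site d → ℝ) := ⋃ k ∈ box (0 : Site d) (M - 1),
    {V | ∀ s ∈ box (pt n k) n, tau s V ∉ S} with hE1
  set E2 : Set (Site d → ℝ) := {V | ∃ s ∈ box (0 : Site d) L, GoodE C m (tau s V) E ∧
        ∃ w ∈ box (0 : Site d) (3 * L), L ≤ 2 * sd s w ∧
          Real.exp (-(m / 8) * L) < |gr V (box 0 (3 * L)) E s w|} with hE2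
  set E3 : Set (Site d → ℝ) := ⋃ k ∈ box (0 : Site d) (M - 1),
    {V | ∃ s ∈ box (pt n k) n, |gr V (box 0 (3 * L)) E (pt n k) s| < Real.exp (-(κ * L))}
    with hE3
  set E4 : Set (Site d → ℝ) := ⋃ q ∈ B ×ˢ (B ×ˢ B),
    {V | Real.exp (κ * L) * |gr V B E q.1 q.2.2| < |gr V B E q.1 q.2.1| * |gr V B E q.2.1 q.2.2|}
    with hE4
  set F5 : Finset (Site d × (Site d × Site d)) :=
    (box (0 : Site d) L).biUnion fun a => {a} ×ˢ ((box a L) ×ˢ (box a L)) with hF5
  set E5 : Set (Site d → ℝ) := ⋃ q ∈ F5,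
    {V | Real.exp (κ * L) < |gr V (box q.1 L) E q.2.1 q.2.2|} with hE5
  set E6 : Set (Site d → ℝ) := {V | (RM V B E).det = 0} ∪ ⋃ a ∈ box (0 : Site d) L,
    {V | (RM V (box a L) E).det = 0} with hE6
  have p1 : PP d (gl σ) E1 ≤ ENNReal.ofReal (p / 8) := by
    apply union_le _ _ _ (fun k _ => hn₀ n hnn₀ (pt n k))
    calc ((box (0 : Site d) (M - 1)).card : ℝ) * (p / (8 * (2 * M) ^ d))
        ≤ (2 * M) ^ d * (p / (8 * (2 * M) ^ d)) :=
          mul_le_mul_of_nonneg_right hcardM (by positivity)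
      _ = p / 8 := by field_simp
  have p2 : PP d (gl σ) E2 ≤ ENNReal.ofReal (p / 8) := hL₁ L (hnL₁.trans hnM)
  have p3 : PP d (gl σ) E3 ≤ ENNReal.ofReal (p / 8) := by
    apply union_le _ _ _ (q := |C₂| * (1 / (κ * M)) ^ (4 * d)) _
      ((mul_le_mul_of_nonneg_right hcardM (by positivity)).trans hM)
    intro k hk
    have hsub : box (pt n k) n ⊆ box 0 (3 * L) := by
      intro s hs
      rw [mem_box] at hs ⊢
      have := pt_box hk hs (by omega)
      rw [← hL] at this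
      omega
    refine (Pool.Agent.Mob.H75.PP_le_PL (Λ := box 0 (3 * L)) ?_).trans
      ((hchn (3 * L) n (pt n k) (κ * L) hn1 hsub (by positivity)).trans ?_)
    · intro V V' hVV
      simp only [Set.mem_ofPred_eq]
      simp only [gr_congr hVV]
    · apply ENNReal.ofReal_le_ofReal
      have e : (n : ℝ) / (κ * L) = 1 / (κ * M) := by
        rw [hLr]; field_simp
      rw [e]
      exact mul_le_mul_of_nonneg_right (le_abs_self _) (by positivity)
  have p4 : PP d (gl σ) E4 ≤ ENNReal.ofReal (p / 8) := by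
    apply union_le _ _ _ (q := |C₁| * Real.exp (-(κ * L) / 3)) _ _
    · rintro ⟨x, u, y⟩ hq
      simp only [Finset.mem_product] at hq
      refine (Pool.Agent.Mob.H75.PP_le_PL (Λ := B) ?_).trans
        ((hone B x u y (κ * L) hq.1 hq.2.1 hq.2.2 (by positivity)).trans ?_)
      · intro V V' hVV
        simp only [Set.mem_ofPred_eq]
        simp only [gr_congr hVV]
      · apply ENNReal.ofReal_le_ofReal
        exact mul_le_mul_of_nonneg_right (le_abs_self _) (Real.exp_pos _).le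
    · rw [Finset.card_product, Finset.card_product, hB, card_box]
      refine le_trans (le_of_eq ?_) ev2
      have e1 : (3 : ℝ) ^ (3 * d) * (2 * (L : ℝ) + 1 / 3) ^ (3 * d) = (6 * L + 1) ^ (3 * d) := by
        rw [← mul_pow]; congr 1; ring
      have e2 : Real.exp (-(κ * L) / 3) = Real.exp (-(κ / 3) * L) := by
        congr 1; ring
      rw [e2]
      push_cast
      have e3 : (2 * (3 * (L : ℝ)) + 1) ^ d * ((2 * (3 * L) + 1) ^ d * (2 * (3 * L) + 1) ^ d) =
          (6 * L + 1) ^ (3 * d) := by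
        rw [← pow_add, ← pow_add]
        have : d + (d + d) = 3 * d := by ring
        rw [this]
        congr 1
        ring
      rw [e3, ← e1]
      ring
  have hF5card : (F5.card : ℝ) ≤ (2 * L + 1) ^ (3 * d) := by
    have h1 : F5.card ≤ ∑ a ∈ box (0 : Site d) L, ((2 * L + 1) ^ d * (2 * L + 1) ^ d) := by
      refine Finset.card_biUnion_le.trans (Finset.sum_le_sum fun a _ => ?_)
      rw [Finset.card_product, Finset.card_product, Finset.card_singleton, one_mul, card_box]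
    rw [Finset.sum_const, card_box, smul_eq_mul] at h1
    have h2 : (2 * L + 1) ^ d * ((2 * L + 1) ^ d * (2 * L + 1) ^ d) = (2 * L + 1) ^ (3 * d) := by
      rw [← pow_add, ← pow_add]
      congr 1
      ring
    rw [h2] at h1
    exact_mod_cast h1
  have p5 : PP d (gl σ) E5 ≤ ENNReal.ofReal (p / 8) := by
    apply union_le _ _ _ (q := 6 * ρ / Real.exp (κ * L)) _ _
    · rintro ⟨a, b, u⟩ _
      refine (Pool.Agent.Mob.H75.PP_le_PL (Λ := box a L) ?_).trans
        (PL_weak hdens (box a L) E b u (Real.exp_pos _))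
      intro V V' hVV
      simp only [Set.mem_ofPred_eq]
      rw [gr_congr hVV]
    · calc (F5.card : ℝ) * (6 * ρ / Real.exp (κ * L))
          ≤ (2 * L + 1) ^ (3 * d) * (6 * ρ / Real.exp (κ * L)) :=
            mul_le_mul_of_nonneg_right hF5card (by positivity)
        _ = 6 * ρ * (2 * (L : ℝ) + 1) ^ (3 * d) * Real.exp (-κ * L) := by
            have : Real.exp (-κ * L) = (Real.exp (κ * L))⁻¹ := by
              rw [← Real.exp_neg]; congr 1; ring
            rw [this]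
            field_simp
        _ ≤ _ := ev3
  have det0 : ∀ Λ : Finset (Site d), PP d (gl σ) {V | (RM V Λ E).det = 0} = 0 := by
    intro Λ
    have h1 := Pool.Agent.Mob.H75.PP_le_PL (ν := gl σ) (Λ := Λ)
      (S := {V : Site d → ℝ | (RM V Λ E).det = 0}) (by
        intro V V' hVV
        simp only [Set.mem_ofPred_eq]
        rw [RM_congr hVV])
    rw [PL_det hdens Λ Λ le_rfl E] at h1
    exact le_antisymm h1 zero_le
  have p6 : PP d (gl σ) E6 = 0 := by
    rw [hE6, measure_union_null_iff]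
    refine ⟨det0 B, ?_⟩
    apply le_antisymm _ zero_le
    refine (measure_biUnion_finset_le _ _).trans ?_
    rw [Finset.sum_congr rfl fun a _ => det0 (box a L), Finset.sum_const_zero]
  -- the inclusion
  have hincl : {V : Site d → ℝ | ¬ AllGoodC V 0 L (m / 16) E} ⊆
      E1 ∪ E2 ∪ (E3 ∪ E4) ∪ (E5 ∪ E6) := by
    intro V hV
    by_contra hcon
    simp only [Set.mem_union, not_or] at hcon
    obtain ⟨⟨⟨c1, c2⟩, c3, c4⟩, c5, c6⟩ := hcon
    apply hV
    have e : m / 16 = μ / 2 := by rw [hμ]; ring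
    rw [e]
    have c6a : (RM V B E).det ≠ 0 := fun h => c6 (Or.inl h)
    have c6b : ∀ a ∈ box (0 : Site d) L, (RM V (box a L) E).det ≠ 0 := by
      intro a ha h
      apply c6
      right
      simp only [Set.mem_iUnion, Set.mem_ofPred_eq, exists_prop]
      exact ⟨a, ha, h⟩
    apply allGood (κ := κ) hL hM4 hn1 c6a c6b _ _ _ _ num
    · intro a ha b u
      by_contra hcon
      push Not at hcon
      by_cases hbu : b ∈ box a L ∧ u ∈ box a L
      · apply c5
        rw [hE5]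
        simp only [Set.mem_iUnion, Set.mem_ofPred_eq, exists_prop]
        refine ⟨(a, b, u), ?_, hcon⟩
        rw [hF5, Finset.mem_biUnion]
        exact ⟨a, ha, by
          simp only [Finset.mem_product, Finset.mem_singleton, true_and]
          exact hbu⟩
      · unfold gr at hcon
        rw [dif_neg hbu, abs_zero] at hcon
        exact absurd hcon (not_lt.2 (Real.exp_pos _).le)
    · intro x hx u hu y hy
      by_contra hcon
      push Not at hcon
      apply c4
      rw [hE4]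
      simp only [Set.mem_iUnion, Set.mem_ofPred_eq, exists_prop]
      exact ⟨(x, u, y), by
        simp only [Finset.mem_product]
        exact ⟨hx, hu, hy⟩, hcon⟩
    · intro k hk a ha
      by_contra hcon
      push Not at hcon
      apply c3
      rw [hE3]
      simp only [Set.mem_iUnion, Set.mem_ofPred_eq, exists_prop]
      exact ⟨k, hk, a, ha, hcon⟩
    · intro k hk
      have c1' : ¬ ∀ s ∈ box (pt n k) n, tau s V ∉ S := by
        intro h
        apply c1
        rw [hE1]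
        simp only [Set.mem_iUnion, Set.mem_ofPred_eq, exists_prop]
        exact ⟨k, hk, h⟩
      push Not at c1'
      obtain ⟨s, hs, hsS⟩ := c1'
      refine ⟨s, hs, fun w hw hsw => ?_⟩
      by_contra hcon
      push Not at hcon
      apply c2
      refine ⟨s, ?_, hsS, w, hw, hsw, hcon⟩
      rw [mem_box]
      exact pt_box hk (mem_box.1 hs) (by omega)
  have hfin : PL (gl σ) (box (0 : Site d) (2 * L)) {V | ¬ AllGoodC V 0 L (m / 16) E} =
      PP d (gl σ) {V | ¬ AllGoodC V 0 L (m / 16) E} := by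
    apply Pool.Agent.Mob.H75.PL_eq_PP (measurableSet_allGood L (m / 16) E).compl
    intro V V' hVV
    exact not_congr (allGood_congr L (m / 16) E hVV)
  rw [hfin]
  refine (measure_mono hincl).trans ?_
  have hp8 : (0 : ℝ) ≤ p / 8 := by positivity
  calc PP d (gl σ) (E1 ∪ E2 ∪ (E3 ∪ E4) ∪ (E5 ∪ E6))
      ≤ (PP d (gl σ) E1 + PP d (gl σ) E2 + (PP d (gl σ) E3 + PP d (gl σ) E4)) +
          (PP d (gl σ) E5 + PP d (gl σ) E6) := by
        refine (measure_union_le _ _).trans (add_le_add ?_ (measure_union_le _ _))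
        refine (measure_union_le _ _).trans (add_le_add (measure_union_le _ _)
          (measure_union_le _ _))
    _ ≤ (ENNReal.ofReal (p / 8) + ENNReal.ofReal (p / 8) +
          (ENNReal.ofReal (p / 8) + ENNReal.ofReal (p / 8))) +
          (ENNReal.ofReal (p / 8) + 0) := by
        rw [p6]
        gcongr
    _ ≤ ENNReal.ofReal p := by
        rw [add_zero, ← ENNReal.ofReal_add hp8 hp8, ← ENNReal.ofReal_add (by positivity)
          (by positivity), ← ENNReal.ofReal_add (by positivity) (by positivity)]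
        apply ENNReal.ofReal_le_ofReal
        linarith only [hp]

end Pool.Agent.LE.H96
end
end -- Pool.Agent.Helper96_EXP.Cvr

section -- Pool.Agent.Helper59_LE.Gev1

/-!
# GEV, first part: the parts of the good event which hold for every choice of `Q`
-/

set_option autoImplicit false

open MeasureTheory ProbabilityTheory Function Filter

open scoped ENNReal BigOperators

noncomputable section

namespace Pool.Agent.LE.H59

open Pool.Agent.Anderson Pool.Agent.Loc Pool.Agent.Helper54.Bal Pool.Agent.LE.H96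

variable {d : ℕ}

/-- the parts 1, 2, 3 and 6 of `GoodEv` -/
def GoodA (V : Site d → ℝ) (N Q ℓ : ℕ) (a : Site d) (E κ₃ : ℝ) : Prop :=
  (RM V (box 0 N) E).det ≠ 0 ∧
  (∀ x ∈ box a (12 * (Q * ℓ)), ∀ y ∈ box a (12 * (Q * ℓ)), gr V (box 0 N) E x y ≠ 0 ∧
    |gr V (box 0 N) E x y| ≤ Real.exp (κ₃ * (Q * ℓ))) ∧
  (∀ x ∈ box a (12 * (Q * ℓ)), ∀ u ∈ box a (12 * (Q * ℓ)), ∀ y ∈ box a (12 * (Q * ℓ)),
    DL (box 0 N) E V x y ≤ DL (box 0 N) E V x u + DL (box 0 N) E V u y + κ₃ * (Q * ℓ)) ∧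
  (∀ s ∈ box a (8 * (Q * ℓ)), (RM V (box s (Q * ℓ)) E).det ≠ 0 ∧
    ∀ x y, |gr V (box s (Q * ℓ)) E x y| ≤ Real.exp (κ₃ * (Q * ℓ)))

theorem dl_le {Λ : Finset (Site d)} {E t : ℝ} {V : Site d → ℝ} {x u y : Site d}
    (h1 : gr V Λ E x y ≠ 0) (h2 : gr V Λ E x u ≠ 0) (h3 : gr V Λ E u y ≠ 0)
    (h : |gr V Λ E x u| * |gr V Λ E u y| ≤ Real.exp t * |gr V Λ E x y|) :
    DL Λ E V x y ≤ DL Λ E V x u + DL Λ E V u y + t := by
  have p1 := abs_pos.2 h1
  have p2 := abs_pos.2 h2
  have p3 := abs_pos.2 h3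
  have h4 := Real.log_le_log (mul_pos p2 p3) h
  rw [Real.log_mul p2.ne' p3.ne', Real.log_mul (Real.exp_pos _).ne' p1.ne', Real.log_exp] at h4
  unfold DL
  linarith

theorem gev1 (hfmn : FmnStmt) (σ E κ₃ p : ℝ) (Q : ℕ) (hd : 1 ≤ d) (hσ : σ ≠ 0) (hκ : 0 < κ₃)
    (hp : 0 < p) (hQ : 1 ≤ Q) (hone : ∃ C, OneTail d (gl σ) E C) :
    ∃ l₀ : ℕ, ∀ ℓ : ℕ, l₀ ≤ ℓ → ∀ (N : ℕ) (a : Site d), box a (12 * (Q * ℓ)) ⊆ box 0 N →
      PP d (gl σ) {V | ¬ GoodA V N Q ℓ a E κ₃} ≤ ENNReal.ofReal p := by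
  classical
  obtain ⟨C, hC⟩ := hone
  have hν := bddDens_gl hσ
  set ρ : ℝ := 1 / |σ| with hρd
  have hρ := hν.1
  have hρ0 : 0 ≤ ρ := by positivity
  obtain ⟨_, _, hF⟩ := hfmn d σ E hd hσ
  set K : ℝ := 6 * ρ + |C| with hK
  have hK0 : 0 ≤ K := by positivity
  have hsmall := poly_small (3 * d) (μ := κ₃ / 3) (by positivity) 1 (12 ^ (3 * d) * K)
    (q := p / 3) (by positivity)
  obtain ⟨L₀, hL₀⟩ := eventually_atTop.1 hsmall
  refine ⟨L₀, fun ℓ hℓ N a ha => ?_⟩
  obtain ⟨L, hL⟩ : ∃ L : ℕ, L = Q * ℓ := ⟨_, rfl⟩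
  have hLr : (Q : ℝ) * ℓ = (L : ℝ) := by rw [hL]; push_cast; ring
  have hLL : L₀ ≤ L := by
    rw [hL]
    exact hℓ.trans (Nat.le_mul_of_pos_left _ hQ)
  have hnum := hL₀ L hLL
  have hLnn : (0 : ℝ) ≤ L := Nat.cast_nonneg L
  have hnum' : (24 * (L : ℝ) + 1) ^ (3 * d) * (K * Real.exp (-(κ₃ / 3) * L)) ≤ p / 3 := by
    refine le_trans ?_ hnum
    have h1 : (24 * (L : ℝ) + 1) ^ (3 * d) ≤ 12 ^ (3 * d) * (2 * (L : ℝ) + 1) ^ (3 * d) := by
      rw [← mul_pow]
      apply pow_le_pow_left₀ (by positivity)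
      linarith only
    calc (24 * (L : ℝ) + 1) ^ (3 * d) * (K * Real.exp (-(κ₃ / 3) * L))
        ≤ 12 ^ (3 * d) * (2 * (L : ℝ) + 1) ^ (3 * d) * (K * Real.exp (-(κ₃ / 3) * L)) :=
          mul_le_mul_of_nonneg_right h1 (by positivity)
      _ = 12 ^ (3 * d) * K * (2 * (L : ℝ) + 1) ^ (3 * d) * Real.exp (-(κ₃ / 3) * L) := by ring
  unfold GoodA
  rw [← hL, hLr]
  set A := box a (12 * L) with hA
  rw [← hL] at ha
  set T : ℝ := Real.exp (κ₃ * L) with hT
  have hTpos : 0 < T := Real.exp_pos _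
  have hTe : 6 * ρ / T ≤ K * Real.exp (-(κ₃ / 3) * L) := by
    rw [div_eq_mul_inv, hT, ← Real.exp_neg]
    apply mul_le_mul
    · rw [hK]
      linarith only [abs_nonneg C]
    · rw [Real.exp_le_exp]
      have : 0 ≤ κ₃ * L := by positivity
      linarith only [this]
    · positivity
    · positivity
  have hCe : C * Real.exp (-(κ₃ * L) / 3) ≤ K * Real.exp (-(κ₃ / 3) * L) := by
    rw [show -(κ₃ * (L : ℝ)) / 3 = -(κ₃ / 3) * L by ring]
    apply mul_le_mul_of_nonneg_right _ (Real.exp_pos _).le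
    rw [hK]
    linarith only [le_abs_self C, hρ]
  have hcA : (A.card : ℝ) = (24 * L + 1) ^ d := by
    rw [hA, card_box]
    push_cast
    congr 1
    ring
  have hone' : (1 : ℝ) ≤ 24 * L + 1 := by linarith only
  set q : ℝ := K * Real.exp (-(κ₃ / 3) * L) with hq
  have hq0 : 0 ≤ q := by positivity
  set M0 : Set (Site d → ℝ) := {V | (RM V (box 0 N) E).det = 0} with hM0
  set M1 : Set (Site d → ℝ) := ⋃ z ∈ A ×ˢ A, {V | gr V (box 0 N) E z.1 z.2 = 0} with hM1
  set M2 : Set (Site d → ℝ) := ⋃ z ∈ A ×ˢ A, {V | T < |gr V (box 0 N) E z.1 z.2|} with hM2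
  set M3 : Set (Site d → ℝ) := ⋃ z ∈ A ×ˢ (A ×ˢ A),
    {V | Real.exp (κ₃ * L) * |gr V (box 0 N) E z.1 z.2.2| <
      |gr V (box 0 N) E z.1 z.2.1| * |gr V (box 0 N) E z.2.1 z.2.2|} with hM3
  set M4 : Set (Site d → ℝ) := ⋃ s ∈ box a (8 * L), {V | (RM V (box s L) E).det = 0} with hM4
  set M5 : Set (Site d → ℝ) := ⋃ s ∈ box a (8 * L), ⋃ z ∈ box s L ×ˢ box s L,
    {V | T < |gr V (box s L) E z.1 z.2|} with hM5
  have hnull : ∀ Λ : Finset (Site d), PP d (gl σ) {V | (RM V Λ E).det = 0} = 0 := by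
    intro Λ
    have h1 : Pool.Agent.Mob.H75.Loc {V : Site d → ℝ | (RM V Λ E).det = 0} Λ := by
      intro V V' h
      rw [Set.mem_ofPred_eq, Set.mem_ofPred_eq, RM_congr h]
    exact le_antisymm ((Pool.Agent.Mob.H75.PP_le_PL h1).trans (PL_det hν _ _ le_rfl E).le) zero_le
  have hweak : ∀ (Λ : Finset (Site d)) (x y : Site d),
      PP d (gl σ) {V | T < |gr V Λ E x y|} ≤ ENNReal.ofReal q := by
    intro Λ x y
    have h1 : Pool.Agent.Mob.H75.Loc {V : Site d → ℝ | T < |gr V Λ E x y|} Λ := by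
      intro V V' h
      rw [Set.mem_ofPred_eq, Set.mem_ofPred_eq, gr_congr h]
    exact ((Pool.Agent.Mob.H75.PP_le_PL h1).trans (PL_weak hν _ E x y hTpos)).trans
      (ENNReal.ofReal_le_ofReal hTe)
  have p0 : PP d (gl σ) M0 = 0 := hnull _
  have p1 : PP d (gl σ) M1 = 0 := by
    refine le_antisymm ((measure_biUnion_finset_le _ _).trans
      (le_of_eq (Finset.sum_eq_zero fun z hz => ?_))) zero_le
    have hz' := Finset.mem_product.1 hz
    exact (hF N).2 z.1 (ha hz'.1) z.2 (ha hz'.2)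
  have p4 : PP d (gl σ) M4 = 0 := by
    exact le_antisymm ((measure_biUnion_finset_le _ _).trans
      (le_of_eq (Finset.sum_eq_zero fun s _ => hnull _))) zero_le
  have hpow : ∀ k : ℕ, k ≤ 3 → (24 * (L : ℝ) + 1) ^ (k * d) ≤ (24 * (L : ℝ) + 1) ^ (3 * d) := by
    intro k hk
    exact pow_le_pow_right₀ hone' (Nat.mul_le_mul_right d hk)
  have p2 : PP d (gl σ) M2 ≤ ENNReal.ofReal (p / 3) := by
    apply union_le (q := q)
    · intro z _
      exact hweak _ _ _
    · refine le_trans ?_ hnum'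
      apply mul_le_mul_of_nonneg_right _ hq0
      rw [Finset.card_product]
      push_cast
      rw [hcA, ← pow_add, show d + d = 2 * d by ring]
      exact hpow 2 (by norm_num)
  have p3 : PP d (gl σ) M3 ≤ ENNReal.ofReal (p / 3) := by
    apply union_le (q := q)
    · intro z hz
      rw [Finset.mem_product, Finset.mem_product] at hz
      have h1 : Pool.Agent.Mob.H75.Loc {V : Site d → ℝ |
          Real.exp (κ₃ * L) * |gr V (box 0 N) E z.1 z.2.2| <
            |gr V (box 0 N) E z.1 z.2.1| * |gr V (box 0 N) E z.2.1 z.2.2|} (box 0 N) := by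
        intro V V' h
        rw [Set.mem_ofPred_eq, Set.mem_ofPred_eq, gr_congr h, gr_congr h, gr_congr h]
      refine (Pool.Agent.Mob.H75.PP_le_PL h1).trans ?_
      refine (hC (box 0 N) z.1 z.2.1 z.2.2 (κ₃ * L) (ha hz.1) (ha hz.2.1) (ha hz.2.2)
        (by positivity)).trans ?_
      exact ENNReal.ofReal_le_ofReal hCe
    · refine le_trans ?_ hnum'
      apply mul_le_mul_of_nonneg_right _ hq0
      rw [Finset.card_product, Finset.card_product]
      push_cast
      rw [hcA, ← pow_add, ← pow_add, show d + (d + d) = 3 * d by ring]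
  have p5 : PP d (gl σ) M5 ≤ ENNReal.ofReal (p / 3) := by
    apply union_le (q := (24 * L + 1) ^ (2 * d) * q)
    · intro s _
      apply union_le (q := q)
      · intro z _
        exact hweak _ _ _
      · apply mul_le_mul_of_nonneg_right _ hq0
        rw [Finset.card_product, card_box]
        push_cast
        rw [← pow_add, show d + d = 2 * d by ring]
        apply pow_le_pow_left₀ (by positivity)
        linarith only
    · refine le_trans ?_ hnum'
      rw [← mul_assoc]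
      apply mul_le_mul_of_nonneg_right _ hq0
      rw [card_box]
      push_cast
      calc (2 * (8 * (L : ℝ)) + 1) ^ d * (24 * (L : ℝ) + 1) ^ (2 * d)
          ≤ (24 * (L : ℝ) + 1) ^ d * (24 * (L : ℝ) + 1) ^ (2 * d) := by
            apply mul_le_mul_of_nonneg_right _ (by positivity)
            apply pow_le_pow_left₀ (by positivity)
            linarith only
        _ = (24 * (L : ℝ) + 1) ^ (3 * d) := by
            rw [← pow_add, show d + 2 * d = 3 * d by ring]
  have hincl : {V : Site d → ℝ | ¬ ((RM V (box 0 N) E).det ≠ 0 ∧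
      (∀ x ∈ A, ∀ y ∈ A, gr V (box 0 N) E x y ≠ 0 ∧ |gr V (box 0 N) E x y| ≤ T) ∧
      (∀ x ∈ A, ∀ u ∈ A, ∀ y ∈ A,
        DL (box 0 N) E V x y ≤ DL (box 0 N) E V x u + DL (box 0 N) E V u y + κ₃ * L) ∧
      (∀ s ∈ box a (8 * L), (RM V (box s L) E).det ≠ 0 ∧
        ∀ x y, |gr V (box s L) E x y| ≤ T))} ⊆ (M0 ∪ M1 ∪ M4) ∪ (M2 ∪ (M3 ∪ M5)) := by
    intro V hV
    by_contra hcon
    simp only [Set.mem_union, not_or] at hcon
    obtain ⟨⟨⟨c0, c1⟩, c4⟩, c2, c3, c5⟩ := hcon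
    apply hV
    have hg0 : ∀ x ∈ A, ∀ y ∈ A, gr V (box 0 N) E x y ≠ 0 := by
      intro x hx y hy h0
      apply c1
      rw [hM1]
      simp only [Set.mem_iUnion, exists_prop]
      exact ⟨(x, y), Finset.mem_product.2 ⟨hx, hy⟩, h0⟩
    refine ⟨c0, fun x hx y hy => ⟨hg0 x hx y hy, ?_⟩, ?_, ?_⟩
    · by_contra h0
      rw [not_le] at h0
      apply c2
      rw [hM2]
      simp only [Set.mem_iUnion, exists_prop]
      exact ⟨(x, y), Finset.mem_product.2 ⟨hx, hy⟩, h0⟩
    · intro x hx u hu y hy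
      apply dl_le (hg0 x hx y hy) (hg0 x hx u hu) (hg0 u hu y hy)
      by_contra h0
      rw [not_le] at h0
      apply c3
      rw [hM3]
      simp only [Set.mem_iUnion, exists_prop]
      exact ⟨(x, (u, y)), Finset.mem_product.2 ⟨hx, Finset.mem_product.2 ⟨hu, hy⟩⟩, h0⟩
    · intro s hs
      refine ⟨fun h0 => ?_, fun x y => ?_⟩
      · apply c4
        rw [hM4]
        simp only [Set.mem_iUnion, exists_prop]
        exact ⟨s, hs, h0⟩
      · by_cases hxy : x ∈ box s L ∧ y ∈ box s L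
        · by_contra h0
          rw [not_le] at h0
          apply c5
          rw [hM5]
          simp only [Set.mem_iUnion, exists_prop]
          exact ⟨s, hs, (x, y), Finset.mem_product.2 hxy, h0⟩
        · unfold gr
          rw [dif_neg hxy, abs_zero]
          exact hTpos.le
  refine (measure_mono hincl).trans ?_
  refine (measure_union_le _ _).trans ?_
  have hz : PP d (gl σ) (M0 ∪ M1 ∪ M4) = 0 := measure_union_null (measure_union_null p0 p1) p4
  rw [hz, zero_add]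
  refine (measure_union_le _ _).trans ?_
  refine (add_le_add p2 ((measure_union_le _ _).trans (add_le_add p3 p5))).trans ?_
  rw [← ENNReal.ofReal_add (by positivity) (by positivity),
    ← ENNReal.ofReal_add (by positivity) (by positivity)]
  apply ENNReal.ofReal_le_ofReal
  linarith only

end Pool.Agent.LE.H59
end
end -- Pool.Agent.Helper59_LE.Gev1

section -- Pool.Agent.Helper59_LE.Gev2

/-!
# GEV, second part: chaining and the choice of `Q`
-/

set_option autoImplicit false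

open MeasureTheory ProbabilityTheory Function Filter

open scoped ENNReal BigOperators

noncomputable section

namespace Pool.Agent.LE.H59

open Pool.Agent.Anderson Pool.Agent.Loc Pool.Agent.Helper54.Bal Pool.Agent.LE.H96

variable {d : ℕ}

/-- the part 4 of `GoodEv` -/
def GoodB (V : Site d → ℝ) (N Q ℓ : ℕ) (a : Site d) (E κ₃ : ℝ) : Prop :=
  ∀ k ∈ box (0 : Site d) (10 * Q), ∀ y ∈ box (a + sm ℓ k) (3 * ℓ),
    DL (box 0 N) E V (a + sm ℓ k) y ≤ κ₃ * (Q * ℓ)

theorem sd_sm_le {Q ℓ : ℕ} {a k : Site d} (hk : k ∈ box (0 : Site d) Q) :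
    sd a (a + sm ℓ k) ≤ Q * ℓ := by
  rw [mem_box, sd_le_iff] at hk
  rw [sd_le_iff]
  intro i
  have h1 := hk i
  rw [Pi.zero_apply, zero_sub, abs_neg] at h1
  unfold sm
  rw [Pi.add_apply, sub_add_cancel_left, abs_neg, abs_mul, Nat.abs_cast]
  push_cast
  rw [mul_comm]
  exact mul_le_mul_of_nonneg_right h1 (by positivity)

theorem gev2 (σ E κ₃ p : ℝ) (hd : 1 ≤ d) (hκ : 0 < κ₃) (hp : 0 < p)
    (hchn : ∃ C, ChnTail d (gl σ) E C) :
    ∃ Q : ℕ, 4 ≤ Q ∧ ∀ ℓ : ℕ, 1 ≤ ℓ → ∀ (N : ℕ) (a : Site d),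
      box a (12 * (Q * ℓ)) ⊆ box 0 N →
        PP d (gl σ) {V | ¬ GoodB V N Q ℓ a E κ₃} ≤ ENNReal.ofReal p := by
  classical
  obtain ⟨C, hC⟩ := hchn
  obtain ⟨Q, hQ4, hQ⟩ := exists_M (d := d) hd (κ := κ₃ / 3) (q := p) (C := |C| * 11 ^ d)
    (by positivity) hp (by positivity)
  refine ⟨Q, hQ4, fun ℓ hℓ N a ha => ?_⟩
  have hQr : (4 : ℝ) ≤ Q := by exact_mod_cast hQ4
  have hℓr : (1 : ℝ) ≤ ℓ := by exact_mod_cast hℓ
  set t : ℝ := κ₃ * (Q * ℓ) with ht
  have ht0 : 0 < t := by positivity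
  set M : Set (Site d → ℝ) := ⋃ k ∈ box (0 : Site d) (10 * Q),
    {V | ∃ y ∈ box (a + sm ℓ k) (3 * ℓ),
      |gr V (box 0 N) E (a + sm ℓ k) y| < Real.exp (-t)} with hM
  have hsub : ∀ k ∈ box (0 : Site d) (10 * Q), box (a + sm ℓ k) (3 * ℓ) ⊆ box 0 N := by
    intro k hk y hy
    apply ha
    rw [mem_box] at hy ⊢
    have h1 := sd_sm_le (ℓ := ℓ) (a := a) hk
    have h2 := sd_triangle a (a + sm ℓ k) y
    have h3 : 10 * Q * ℓ + 3 * ℓ ≤ 12 * (Q * ℓ) := by nlinarith only [hQ4, hℓ]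
    omega
  have hincl : {V : Site d → ℝ | ¬ GoodB V N Q ℓ a E κ₃} ⊆ M := by
    intro V hV
    by_contra hcon
    apply hV
    intro k hk y hy
    by_contra h0
    rw [not_le] at h0
    apply hcon
    rw [hM]
    simp only [Set.mem_iUnion, exists_prop]
    refine ⟨k, hk, y, hy, ?_⟩
    unfold DL at h0
    by_cases hg : gr V (box 0 N) E (a + sm ℓ k) y = 0
    · rw [hg, abs_zero]
      exact Real.exp_pos _
    · rw [← Real.log_lt_iff_lt_exp (abs_pos.2 hg)]
      linarith only [h0]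
  refine (measure_mono hincl).trans ?_
  apply union_le (q := C * ((3 * ℓ : ℕ) / t) ^ (4 * d))
  · intro k hk
    have h1 : Pool.Agent.Mob.H75.Loc {V : Site d → ℝ | ∃ y ∈ box (a + sm ℓ k) (3 * ℓ),
        |gr V (box 0 N) E (a + sm ℓ k) y| < Real.exp (-t)} (box 0 N) := by
      intro V V' h
      rw [Set.mem_ofPred_eq, Set.mem_ofPred_eq]
      simp only [gr_congr h]
    refine (Pool.Agent.Mob.H75.PP_le_PL h1).trans ?_
    exact hC N (3 * ℓ) (a + sm ℓ k) t (by omega) (hsub k hk) ht0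
  · have e1 : ((3 * ℓ : ℕ) : ℝ) / t = 1 / (κ₃ / 3 * Q) := by
      rw [ht]
      push_cast
      field_simp
    rw [e1, card_box]
    have e2 : (((2 * (10 * Q) + 1) ^ d : ℕ) : ℝ) ≤ 11 ^ d * (2 * (Q : ℝ)) ^ d := by
      push_cast
      rw [← mul_pow]
      apply pow_le_pow_left₀ (by positivity)
      linarith only [hQr]
    calc (((2 * (10 * Q) + 1) ^ d : ℕ) : ℝ) * (C * (1 / (κ₃ / 3 * Q)) ^ (4 * d))
        ≤ (((2 * (10 * Q) + 1) ^ d : ℕ) : ℝ) * (|C| * (1 / (κ₃ / 3 * Q)) ^ (4 * d)) := by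
          apply mul_le_mul_of_nonneg_left _ (by positivity)
          exact mul_le_mul_of_nonneg_right (le_abs_self C) (by positivity)
      _ ≤ (11 ^ d * (2 * (Q : ℝ)) ^ d) * (|C| * (1 / (κ₃ / 3 * Q)) ^ (4 * d)) :=
          mul_le_mul_of_nonneg_right e2 (by positivity)
      _ = (2 * (Q : ℝ)) ^ d * (|C| * 11 ^ d * (1 / (κ₃ / 3 * Q)) ^ (4 * d)) := by ring
      _ ≤ p := hQ

end Pool.Agent.LE.H59
end
end -- Pool.Agent.Helper59_LE.Gev2

section -- Pool.Agent.Helper59_LE.Gev3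

/-!
# GEV, third part: near invariance (pigeonhole and Markov) and the good event
-/

set_option autoImplicit false

open MeasureTheory ProbabilityTheory Function Filter

open scoped ENNReal BigOperators

noncomputable section

namespace Pool.Agent.LE.H59

open Pool.Agent.Anderson Pool.Agent.Loc Pool.Agent.Helper54.Bal Pool.Agent.LE.H96

variable {d : ℕ}

theorem markov {Ω : Type} [MeasurableSpace Ω] (P : Measure Ω) [IsProbabilityMeasure P]
    {f : Ω → ℝ} (h0 : ∀ ω, 0 ≤ f ω) (hi : Integrable f P) {t I : ℝ} (ht : 0 < t)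
    (hI : ∫ ω, f ω ∂P ≤ I) : P {ω | t < f ω} ≤ ENNReal.ofReal (I / t) := by
  have h1 := mul_meas_ge_le_integral_of_nonneg (Filter.Eventually.of_forall h0) hi t
  have h2 : P {ω | t < f ω} ≤ P {ω | t ≤ f ω} := measure_mono fun ω (h : t < f ω) => h.le
  refine h2.trans ?_
  rw [← ofReal_measureReal (measure_ne_top P _)]
  apply ENNReal.ofReal_le_ofReal
  rw [le_div_iff₀ ht, mul_comm]
  exact h1.trans hI

theorem FamN.integrable {N : ℕ} {Ω : Type} [MeasurableSpace Ω] {P : Measure Ω}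
    [IsProbabilityMeasure P] {C : ℝ} {D : Ω → Site d → Site d → ℝ} (h : FamN d N P C D)
    {x y : Site d} (hx : x ∈ box (0 : Site d) N) (hy : y ∈ box (0 : Site d) N) :
    Integrable (fun ω => D ω x y) P := by
  have h1 := (memLp_two_iff_integrable_sq (h.meas x y).aestronglyMeasurable).2 (h.int x hx y hy)
  exact h1.integrable one_le_two

/-- the part 5 of `GoodEv` -/
def GoodD (V : Site d → ℝ) (N Q ℓ : ℕ) (a : Site d) (E κ₃ : ℝ) : Prop :=
  ∀ k ∈ box (0 : Site d) (8 * Q), ∀ y ∈ box (0 : Site d) Q,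
    |DL (box 0 N) E V a (a + sm ℓ y) -
      DL (box 0 N) E V (a + sm ℓ k) (a + sm ℓ k + sm ℓ y)| ≤ κ₃ * (Q * ℓ)

theorem gev3 {σ E κ₃ C ε p : ℝ} {N Q ℓ : ℕ} {a : Site d} (hκ : 0 < κ₃) (hQ : 1 ≤ Q)
    (hℓ : 1 ≤ ℓ) (hF : FamN d N (PP d (gl σ)) C (DL (box 0 N) E))
    (ha : box a (12 * (Q * ℓ)) ⊆ box 0 N)
    (h : ∀ y k : Site d, sd 0 y ≤ 8 * Q → sd 0 k ≤ 8 * Q →
      ∫ V, |DL (box 0 N) E V a (a + sm ℓ y) -
        DL (box 0 N) E V (a + sm ℓ k) (a + sm ℓ k + sm ℓ y)| ∂(PP d (gl σ)) ≤ ε * (ℓ : ℕ))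
    (hp : (16 * (Q : ℝ) + 1) ^ d * (2 * (Q : ℝ) + 1) ^ d * (ε / (κ₃ * Q)) ≤ p) :
    PP d (gl σ) {V | ¬ GoodD V N Q ℓ a E κ₃} ≤ ENNReal.ofReal p := by
  classical
  have hQr : (1 : ℝ) ≤ Q := by exact_mod_cast hQ
  have hℓr : (1 : ℝ) ≤ ℓ := by exact_mod_cast hℓ
  set M : Set (Site d → ℝ) := ⋃ z ∈ box (0 : Site d) (8 * Q) ×ˢ box (0 : Site d) Q,
    {V | κ₃ * (Q * ℓ) < |DL (box 0 N) E V a (a + sm ℓ z.2) -
        DL (box 0 N) E V (a + sm ℓ z.1) (a + sm ℓ z.1 + sm ℓ z.2)|} with hM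
  have hincl : {V : Site d → ℝ | ¬ GoodD V N Q ℓ a E κ₃} ⊆ M := by
    intro V hV
    by_contra hcon
    apply hV
    intro k hk y hy
    by_contra h0
    rw [not_le] at h0
    apply hcon
    rw [hM]
    simp only [Set.mem_iUnion, exists_prop]
    exact ⟨(k, y), Finset.mem_product.2 ⟨hk, hy⟩, h0⟩
  have hin : ∀ x : Site d, sd a x ≤ 9 * (Q * ℓ) → x ∈ box (0 : Site d) N := by
    intro x hx
    apply ha
    rw [mem_box]
    omega
  refine (measure_mono hincl).trans ?_
  apply union_le (q := ε / (κ₃ * Q))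
  · intro z hz
    rw [Finset.mem_product] at hz
    have h1 := sd_sm_le (ℓ := ℓ) (a := a) hz.1
    have h2 := sd_sm_le (ℓ := ℓ) (a := a) hz.2
    have h3 := sd_sm_le (ℓ := ℓ) (a := a + sm ℓ z.1) hz.2
    have h4 := sd_triangle a (a + sm ℓ z.1) (a + sm ℓ z.1 + sm ℓ z.2)
    have h5 : 8 * Q * ℓ = 8 * (Q * ℓ) := by ring
    have i1 := FamN.integrable hF (x := a) (y := a + sm ℓ z.2)
      (hin _ (by rw [sd_self]; omega)) (hin _ (by omega))
    have i2 := FamN.integrable hF (x := a + sm ℓ z.1) (y := a + sm ℓ z.1 + sm ℓ z.2)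
      (hin _ (by omega)) (hin _ (by omega))
    have hz1 : sd 0 z.1 ≤ 8 * Q := mem_box.1 hz.1
    have hz2 : sd 0 z.2 ≤ 8 * Q := (mem_box.1 hz.2).trans (by omega)
    have h6 := markov (PP d (gl σ)) (fun V => abs_nonneg _) (i1.sub i2).abs
      (t := κ₃ * (Q * ℓ)) (by positivity) (h z.2 z.1 hz2 hz1)
    refine h6.trans (le_of_eq ?_)
    congr 1
    field_simp
  · refine le_trans (le_of_eq ?_) hp
    rw [Finset.card_product, card_box, card_box]
    push_cast
    congr 3
    ring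

theorem gev (hpig : PigStmt) (hfmn : FmnStmt)
    (hone : ∀ (d : ℕ) (σ E : ℝ), 1 ≤ d → σ ≠ 0 → ∃ C, OneTail d (gl σ) E C)
    (hchn : ∀ (d : ℕ) (σ E : ℝ), 1 ≤ d → σ ≠ 0 → ∃ C, ChnTail d (gl σ) E C) : GevStmt := by
  intro d σ E κ₃ p hd hσ hκ hp
  obtain ⟨Q, hQ4, hB⟩ := gev2 (d := d) σ E κ₃ (p / 3) hd hκ (by positivity) (hchn d σ E hd hσ)
  have hQ1 : 1 ≤ Q := by omega
  have hQr : (4 : ℝ) ≤ Q := by exact_mod_cast hQ4
  obtain ⟨l₁, hA⟩ := gev1 (d := d) hfmn σ E κ₃ (p / 3) Q hd hσ hκ (by positivity) hQ1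
    (hone d σ E hd hσ)
  obtain ⟨C, hC, hF⟩ := hfmn d σ E hd hσ
  set W : ℝ := (16 * (Q : ℝ) + 1) ^ d * (2 * (Q : ℝ) + 1) ^ d with hW
  have hW0 : 0 < W := by positivity
  set ε : ℝ := p / 3 * (κ₃ * Q) / W with hε
  have hε0 : 0 < ε := by positivity
  obtain ⟨J, l₂, hl₂, hP⟩ := hpig d (8 * Q) (12 * Q) C ε hC hε0 (by omega)
  refine ⟨Q, hQ1, fun l => ?_⟩
  obtain ⟨N, hN⟩ := hP (max l (max l₁ l₂)) (by omega)
  obtain ⟨j, _, a, ha, hE⟩ := hN N le_rfl (Site d → ℝ) (PP d (gl σ)) (DL (box 0 N) E) (hF N).1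
  set ℓ : ℕ := 2 ^ j * max l (max l₁ l₂) with hℓ
  have hge : max l (max l₁ l₂) ≤ ℓ := Nat.le_mul_of_pos_left _ (by positivity)
  have ha' : box a (12 * (Q * ℓ)) ⊆ box 0 N := by
    rw [← mul_assoc]
    exact ha
  refine ⟨ℓ, N, a, by omega, by omega, ha', ?_⟩
  have p1 := hA ℓ (by omega) N a ha'
  have p2 := hB ℓ (by omega) N a ha'
  have p3 : PP d (gl σ) {V | ¬ GoodD V N Q ℓ a E κ₃} ≤ ENNReal.ofReal (p / 3) := by
    apply gev3 hκ hQ1 (by omega) (hF N).1 ha' hE
    rw [← hW, hε]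
    apply le_of_eq
    field_simp
  have hincl : {V : Site d → ℝ | ¬ GoodEv V N Q ℓ a E κ₃} ⊆
      {V | ¬ GoodA V N Q ℓ a E κ₃} ∪ ({V | ¬ GoodB V N Q ℓ a E κ₃} ∪
        {V | ¬ GoodD V N Q ℓ a E κ₃}) := by
    intro V hV
    by_contra hcon
    simp only [Set.mem_union, Set.mem_ofPred_eq, not_or, not_not] at hcon
    obtain ⟨⟨a1, a2, a3, a6⟩, a4, a5⟩ := hcon
    exact hV ⟨a1, a2, a3, a4, a5, a6⟩
  refine (measure_mono hincl).trans ?_
  refine (measure_union_le _ _).trans ?_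
  refine (add_le_add p1 ((measure_union_le _ _).trans (add_le_add p2 p3))).trans ?_
  rw [← ENNReal.ofReal_add (by positivity) (by positivity),
    ← ENNReal.ofReal_add (by positivity) (by positivity)]
  apply ENNReal.ofReal_le_ofReal
  linarith

end Pool.Agent.LE.H59
end
end -- Pool.Agent.Helper59_LE.Gev3
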