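import Pool.Agent.Helper12_MEB.B039
import Pool.Agent.Helper12_MEB.B045

/-!
# Merged copies (generated) of the modules

* `Pool.Agent.Helper46_LE.Fvd`
* `Pool.Agent.Helper83_LE.DetA`
* `Pool.Agent.Helper59_LE.Detx`
* `Pool.Agent.Helper17_LEC.UPD`
* `Pool.Agent.Helper96_LEC.Cnt`
* `Pool.Agent.Helper96_LEC.Dtu`
* `Pool.Agent.Helper96_LEW.CNT2`
-/

set_option autoImplicit false

section -- Pool.Agent.Helper46_LE.Fvd

/-! # FVD: comparison of a cube with a larger set (deterministic) -/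

set_option autoImplicit false
set_option linter.unusedSectionVars false

open scoped BigOperators

noncomputable section

namespace Pool.Agent.LE.H46

open Pool.Agent.Anderson Pool.Agent.Loc Pool.Agent.Mob Pool.Agent.LE

variable {d : ℕ}

/-- the sum over the pairs of neighbours on both sides of the boundary of `A` -/
theorem sum_bd {A B : Finset (Site d)} (f g : Site d → ℝ) {c : ℝ} (hc : 0 ≤ c)
    (h : ∀ u ∈ A, ∀ u' ∈ B, hop u u' ≠ 0 → |f u| * |g u'| ≤ c) :
    |∑ u ∈ A, ∑ u' ∈ B, f u * hop u u' * g u'| ≤ 2 * d * A.card * c := by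
  have h1 : ∀ u ∈ A, ∀ u' ∈ B, |f u * hop u u' * g u'| ≤ hop u u' * c := by
    intro u hu u' hu'
    by_cases hh : hop u u' = 0
    · rw [hh]
      simp
    · have h2 := h u hu u' hu' hh
      have h3 := hop_nonneg u u'
      rw [abs_mul, abs_mul, abs_of_nonneg h3]
      calc |f u| * hop u u' * |g u'| = hop u u' * (|f u| * |g u'|) := by ring
        _ ≤ hop u u' * c := mul_le_mul_of_nonneg_left h2 h3
  calc |∑ u ∈ A, ∑ u' ∈ B, f u * hop u u' * g u'|
      ≤ ∑ u ∈ A, |∑ u' ∈ B, f u * hop u u' * g u'| := Finset.abs_sum_le_sum_abs _ _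
    _ ≤ ∑ u ∈ A, ∑ u' ∈ B, |f u * hop u u' * g u'| :=
        Finset.sum_le_sum fun u _ => Finset.abs_sum_le_sum_abs _ _
    _ ≤ ∑ u ∈ A, ∑ u' ∈ B, hop u u' * c :=
        Finset.sum_le_sum fun u hu => Finset.sum_le_sum fun u' hu' => h1 u hu u' hu'
    _ = ∑ u ∈ A, (∑ u' ∈ B, hop u u') * c := by
        apply Finset.sum_congr rfl
        intro u _
        rw [Finset.sum_mul]
    _ ≤ ∑ _u ∈ A, (2 * d : ℝ) * c :=
        Finset.sum_le_sum fun u _ => mul_le_mul_of_nonneg_right (sum_hop_le u B) hc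
    _ = 2 * d * A.card * c := by
        rw [Finset.sum_const, nsmul_eq_mul]
        ring

/-- FVD -/
theorem fvd : FvdStmt := by
  intro d V Λ s L E T a hT ha hΛ hdΛ hdA hTA hTΛ
  obtain ⟨A, hA⟩ : ∃ A, A = box s L := ⟨_, rfl⟩
  rw [← hA] at hdA hTA ⊢
  have hAΛ : A ⊆ Λ := by
    rw [hA]
    exact (box_mono s (by omega)).trans hΛ
  have hcard : (A.card : ℝ) = (2 * L + 1) ^ d := by
    rw [hA, card_box]
    push_cast
    ring
  have hsA : s ∈ A := by
    rw [hA, mem_box, sd_self]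
    omega
  have hmA : ∀ u, u ∈ A ↔ sd s u ≤ L := fun u => by rw [hA, mem_box]
  -- the pairs
  have hpair : ∀ u ∈ A, ∀ u' ∈ Λ \ A, hop u u' ≠ 0 → sd s u = L ∧ sd s u' = L + 1 := by
    intro u hu u' hu' hh
    rw [hmA] at hu
    rw [Finset.mem_sdiff, hmA] at hu'
    have h1 := sd_of_hop hh
    have h2 := sd_triangle s u u'
    have h3 := hu'.2
    constructor <;> omega
  have hmem : ∀ u, (sd s u = L ∨ sd s u = L + 1) → u ∈ box s (L + 1) := by
    intro u hu
    rw [mem_box]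
    omega
  have haT : 0 ≤ a * T := mul_nonneg ha hT
  have hbd : 2 * (d : ℝ) * A.card * (a * T) = 2 * d * (2 * L + 1) ^ d * T * a := by
    rw [hcard]
    ring
  have hfin : ∀ z : ℝ, z ≤ a + 2 * (d : ℝ) * A.card * (a * T) →
      z ≤ (1 + 2 * d * (2 * L + 1) ^ d * T) * a := by
    intro z hz
    rw [hbd] at hz
    linarith
  constructor
  · intro h u hu
    have hsum : |∑ b ∈ A, ∑ b' ∈ Λ \ A, gr V A E s b * hop b b' * gr V Λ E b' u| ≤
        2 * d * A.card * (a * T) := by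
      apply sum_bd (fun b => gr V A E s b) (fun b' => gr V Λ E b' u) haT
      intro b hb b' hb' hh
      obtain ⟨h1, h2⟩ := hpair b hb b' hb' hh
      exact mul_le_mul (h b h1) (hTΛ b' (hmem b' (Or.inr h2)) u (hmem u hu)) (abs_nonneg _) ha
    apply hfin
    by_cases huA : u ∈ A
    · have huL : sd s u = L := by
        have := (hmA u).1 huA
        omega
      rw [Pool.Agent.Mob.H58.geo d V Λ A E hAΛ hdΛ hdA s hsA u huA]
      exact (abs_add_le _ _).trans (add_le_add (h u huL) hsum)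
    · have huΛ : u ∈ Λ \ A := Finset.mem_sdiff.2 ⟨hΛ (hmem u hu), huA⟩
      rw [geo1 hAΛ hdΛ hdA hsA huΛ]
      linarith
  · intro h u hu
    have huA : u ∈ A := (hmA u).2 hu.le
    have hsum : |∑ b ∈ A, ∑ b' ∈ Λ \ A, gr V A E u b * hop b b' * gr V Λ E b' s| ≤
        2 * d * A.card * (a * T) := by
      apply sum_bd (fun b => gr V A E u b) (fun b' => gr V Λ E b' s) haT
      intro b hb b' hb' hh
      obtain ⟨h1, h2⟩ := hpair b hb b' hb' hh
      have h3 := h b' (Or.inr h2)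
      rw [gr_symm] at h3
      calc |gr V A E u b| * |gr V Λ E b' s| ≤ T * a :=
            mul_le_mul (hTA u b) h3 (abs_nonneg _) hT
        _ = a * T := by ring
    apply hfin
    have h4 := Pool.Agent.Mob.H58.geo d V Λ A E hAΛ hdΛ hdA u huA s hsA
    have h5 : gr V A E s u = gr V Λ E s u -
        ∑ b ∈ A, ∑ b' ∈ Λ \ A, gr V A E u b * hop b b' * gr V Λ E b' s := by
      rw [gr_symm V A E s u, gr_symm V Λ E s u, h4]
      ring
    rw [h5]
    exact (abs_sub _ _).trans (add_le_add (h u (Or.inl hu)) hsum)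

end Pool.Agent.LE.H46
end
end -- Pool.Agent.Helper46_LE.Fvd

section -- Pool.Agent.Helper83_LE.DetA

/-!
# DET: on the good event the decay about one site implies the decay about all sites near it
-/

set_option autoImplicit false

open MeasureTheory ProbabilityTheory Function

open scoped ENNReal BigOperators

noncomputable section

namespace Pool.Agent.LE.H83A

open Pool.Agent.Anderson Pool.Agent.Loc Pool.Agent.Mob Pool.Agent.Helper54.Bal Pool.Agent.LE

theorem big (d : ℕ) (c : ℝ) (hc : 0 < c) : ∃ L₀ : ℕ, 1 ≤ L₀ ∧ ∀ L : ℕ, L₀ ≤ L →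
    1 + 2 * d * (2 * L + 1) ^ d * Real.exp (c * L) ≤ Real.exp (2 * c * L) := by
  set A : ℝ := (1 + 2 * d) * 3 ^ d * (d + 1).factorial / c ^ (d + 1) with hA
  refine ⟨max 1 ⌈A⌉₊, le_max_left _ _, fun L hL => ?_⟩
  have h1 : 1 ≤ L := le_trans (le_max_left _ _) hL
  have h1R : (1 : ℝ) ≤ L := by exact_mod_cast h1
  have h2 : A ≤ L := le_trans (Nat.le_ceil A) (by exact_mod_cast le_trans (le_max_right _ _) hL)
  have hf : (0 : ℝ) < (d + 1).factorial := by exact_mod_cast Nat.factorial_pos _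
  have h3 : (c * L) ^ (d + 1) / (d + 1).factorial ≤ Real.exp (c * L) :=
    Real.pow_div_factorial_le_exp (c * L) (by positivity) (d + 1)
  have h4 : (1 + 2 * d) * 3 ^ d * (L : ℝ) ^ d ≤ (c * L) ^ (d + 1) / (d + 1).factorial := by
    rw [le_div_iff₀ hf, mul_pow, pow_succ (L : ℝ)]
    have h5 : (1 + 2 * (d : ℝ)) * 3 ^ d * (d + 1).factorial ≤ L * c ^ (d + 1) :=
      (div_le_iff₀ (pow_pos hc (d + 1))).1 h2
    calc (1 + 2 * (d : ℝ)) * 3 ^ d * (L : ℝ) ^ d * (d + 1).factorial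
        = ((1 + 2 * (d : ℝ)) * 3 ^ d * (d + 1).factorial) * (L : ℝ) ^ d := by ring
      _ ≤ (L * c ^ (d + 1)) * (L : ℝ) ^ d := mul_le_mul_of_nonneg_right h5 (by positivity)
      _ = _ := by ring
  have h6 : 1 + 2 * (d : ℝ) * (2 * L + 1) ^ d ≤ Real.exp (c * L) := by
    calc 1 + 2 * (d : ℝ) * (2 * L + 1) ^ d ≤ (1 + 2 * d) * (2 * L + 1) ^ d := by
          have : (1 : ℝ) ≤ (2 * L + 1) ^ d := one_le_pow₀ (by linarith only [h1R])
          nlinarith only [this]
      _ ≤ (1 + 2 * d) * (3 * L) ^ d := by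
          apply mul_le_mul_of_nonneg_left _ (by positivity)
          exact pow_le_pow_left₀ (by positivity) (by linarith only [h1R]) d
      _ = (1 + 2 * d) * 3 ^ d * (L : ℝ) ^ d := by rw [mul_pow]; ring
      _ ≤ _ := h4.trans h3
  have h7 : 1 ≤ Real.exp (c * L) := Real.one_le_exp (by positivity)
  calc 1 + 2 * (d : ℝ) * (2 * L + 1) ^ d * Real.exp (c * L)
      ≤ (1 + 2 * (d : ℝ) * (2 * L + 1) ^ d) * Real.exp (c * L) := by nlinarith only [h7]
    _ ≤ Real.exp (c * L) * Real.exp (c * L) := mul_le_mul_of_nonneg_right h6 (by positivity)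
    _ = _ := by
        rw [← Real.exp_add]
        congr 1
        ring

variable {d : ℕ}

/-- coordinatewise division -/
theorem exK {ℓ : ℕ} (hℓ : 1 ≤ ℓ) (M : ℕ) (a s : Site d) (hs : sd a s ≤ M * ℓ) :
    ∃ k : Site d, sd 0 k ≤ M ∧ sd (a + sm ℓ k) s ≤ ℓ := by
  have hl : (0 : ℤ) < ℓ := by exact_mod_cast hℓ
  refine ⟨fun i => (s i - a i) / ℓ, ?_, ?_⟩
  · rw [sd_le_iff]
    intro i
    have h := sd_le_iff.1 hs i
    push_cast at h
    obtain ⟨h1, h2⟩ := abs_le.1 h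
    simp only [Pi.zero_apply]
    have e1 : (s i - a i) / (ℓ : ℤ) ≤ M := Int.ediv_le_of_le_mul hl (by linarith only [h1])
    have e2 : -(M : ℤ) ≤ (s i - a i) / (ℓ : ℤ) := by
      rw [Int.le_ediv_iff_mul_le hl]
      linarith only [h2]
    rw [abs_le]
    constructor <;> linarith
  · rw [sd_le_iff]
    intro i
    have e1 := Int.mul_ediv_add_emod (s i - a i) (ℓ : ℤ)
    have e2 := Int.emod_nonneg (s i - a i) hl.ne'
    have e3 := Int.emod_lt_of_pos (s i - a i) hl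
    simp only [Pi.add_apply, sm]
    rw [abs_le]
    constructor <;> linarith

/-- the nearest site of the coarse sphere -/
theorem exY [NeZero d] {ℓ Q : ℕ} (hℓ : 1 ≤ ℓ) (g u : Site d)
    (h1 : Q * ℓ ≤ sd g u + ℓ) (h2 : sd g u ≤ Q * ℓ + 1 + ℓ) :
    ∃ y : Site d, sd 0 y = Q ∧ sd (g + sm ℓ y) u ≤ 2 * ℓ := by
  have hl : (0 : ℤ) < ℓ := by exact_mod_cast hℓ
  have hl1 : (1 : ℤ) ≤ ℓ := by exact_mod_cast hℓ
  have hQ0 : (0 : ℤ) ≤ Q := by positivity
  obtain ⟨i₀, hi₀⟩ := exists_sd_eq g u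
  have h1' : (Q : ℤ) * ℓ ≤ sd g u + ℓ := by exact_mod_cast h1
  have h2' : (sd g u : ℤ) ≤ Q * ℓ + 1 + ℓ := by exact_mod_cast h2
  refine ⟨fun i => if i = i₀ then (if g i₀ ≤ u i₀ then (Q : ℤ) else -Q) else
    max (-(Q : ℤ)) (min Q ((u i - g i) / ℓ)), ?_, ?_⟩
  · apply le_antisymm
    · rw [sd_le_iff]
      intro i
      simp only [Pi.zero_apply]
      split_ifs
      · simp
      · simp
      · rw [abs_le]
        have e1 : -(Q : ℤ) ≤ max (-(Q : ℤ)) (min Q ((u i - g i) / ℓ)) := le_max_left _ _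
        have e2 : max (-(Q : ℤ)) (min Q ((u i - g i) / ℓ)) ≤ Q :=
          max_le (by linarith only) (min_le_left _ _)
        constructor <;> linarith
    · have key : ∀ yy : Site d, |yy i₀| = Q → Q ≤ sd 0 yy := by
        intro yy hyy
        have h3 := sd_le_iff.1 (le_refl (sd (0 : Site d) yy)) i₀
        simp only [Pi.zero_apply, zero_sub, abs_neg] at h3
        rw [hyy] at h3
        exact_mod_cast h3
      apply key
      simp only [if_true]
      split_ifs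
      · exact Nat.abs_cast Q
      · rw [abs_neg]
        exact Nat.abs_cast Q
  · rw [sd_le_iff]
    intro i
    simp only [Pi.add_apply, sm]
    have h4 := sd_le_iff.1 (le_refl (sd g u)) i
    obtain ⟨h5, h6⟩ := abs_le.1 h4
    push_cast
    by_cases hi : i = i₀
    · subst hi
      rw [if_pos rfl]
      by_cases hgu : g i ≤ u i
      · rw [if_pos hgu]
        rw [abs_of_nonpos (by linarith only [hgu] : g i - u i ≤ 0)] at hi₀
        rw [abs_le]
        constructor <;> linarith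
      · rw [if_neg hgu]
        rw [abs_of_pos (by linarith only [not_le.1 hgu] : 0 < g i - u i)] at hi₀
        rw [abs_le]
        constructor <;> linarith
    · rw [if_neg hi]
      have e1 := Int.mul_ediv_add_emod (u i - g i) (ℓ : ℤ)
      have e2 := Int.emod_nonneg (u i - g i) hl.ne'
      have e3 := Int.emod_lt_of_pos (u i - g i) hl
      set q : ℤ := (u i - g i) / ℓ with hq
      rcases lt_or_ge (Q : ℤ) q with c1 | c1
      · rw [min_eq_left c1.le, max_eq_right (by linarith only)]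
        have e4 : (ℓ : ℤ) * (Q + 1) ≤ ℓ * q := mul_le_mul_of_nonneg_left (by linarith only [c1]) hl.le
        rw [abs_le]
        constructor <;> nlinarith
      · rw [min_eq_right c1]
        rcases lt_or_ge q (-(Q : ℤ)) with c2 | c2
        · rw [max_eq_left c2.le]
          have e4 : (ℓ : ℤ) * q ≤ ℓ * (-Q - 1) := mul_le_mul_of_nonneg_left (by linarith only [c2]) hl.le
          rw [abs_le]
          constructor <;> nlinarith
        · rw [max_eq_right c2]
          rw [abs_le]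
          constructor <;> linarith

theorem sd_sm (ℓ : ℕ) (a y : Site d) : sd a (a + sm ℓ y) ≤ ℓ * sd 0 y := by
  rw [sd_le_iff]
  intro i
  have h := sd_le_iff.1 (le_refl (sd 0 y)) i
  simp only [Pi.zero_apply, zero_sub, abs_neg] at h
  simp only [Pi.add_apply, sm]
  push_cast
  calc |a i - (a i + ℓ * y i)| = ℓ * |y i| := by
        rw [show a i - (a i + ℓ * y i) = -(ℓ * y i) by ring, abs_neg, abs_mul, Nat.abs_cast]
    _ ≤ _ := mul_le_mul_of_nonneg_left h (by positivity)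

theorem sd_sm_eq [NeZero d] (ℓ : ℕ) (a y : Site d) : sd a (a + sm ℓ y) = ℓ * sd 0 y := by
  apply le_antisymm (sd_sm ℓ a y)
  obtain ⟨i, hi⟩ := exists_sd_eq (0 : Site d) y
  have h := sd_le_iff.1 (le_refl (sd a (a + sm ℓ y))) i
  simp only [Pi.zero_apply, zero_sub, abs_neg] at hi
  simp only [Pi.add_apply, sm] at h
  rw [show a i - (a i + ℓ * y i) = -(ℓ * y i) by ring, abs_neg, abs_mul, Nat.abs_cast, ← hi] at h
  exact_mod_cast h

theorem sm_add (ℓ : ℕ) (x y : Site d) : sm ℓ (x + y) = sm ℓ x + sm ℓ y := by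
  funext i
  simp only [sm, Pi.add_apply]
  ring

theorem sd_zero_add (x y : Site d) : sd 0 (x + y) ≤ sd 0 x + sd 0 y := by
  rw [sd_le_iff]
  intro i
  have h1 := sd_le_iff.1 (le_refl (sd 0 x)) i
  have h2 := sd_le_iff.1 (le_refl (sd 0 y)) i
  simp only [Pi.zero_apply, zero_sub, abs_neg] at h1 h2
  simp only [Pi.zero_apply, zero_sub, abs_neg, Pi.add_apply]
  push_cast
  exact (abs_add_le _ _).trans (add_le_add h1 h2)

theorem DL_comm (Λ : Finset (Site d)) (E : ℝ) (V : Site d → ℝ) (x y : Site d) :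
    DL Λ E V x y = DL Λ E V y x := by
  unfold DL
  rw [gr_symm]

theorem det (fvd : FvdStmt) : DetStmt := by
  intro d κ κ₃ hd hκ hκ₃ h20
  have : NeZero d := ⟨by omega⟩
  obtain ⟨L₀, hL₀, hbig⟩ := big d κ₃ hκ₃
  refine ⟨L₀, ?_⟩
  intro V N Q ℓ a E hQ hℓ hL hsub hG hSG s hs
  obtain ⟨g1, g2, g3, g4, g5, g6⟩ := hG
  have hLn : 1 ≤ Q * ℓ := le_trans hL₀ hL
  have hlL : ℓ ≤ Q * ℓ := Nat.le_mul_of_pos_left ℓ hQ
  have hbig' := hbig (Q * ℓ) hL
  have hcast : ((Q * ℓ : ℕ) : ℝ) = (Q : ℝ) * ℓ := by push_cast; rfl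
  rw [← hcast] at g2 g3 g4 g5 g6
  set L : ℕ := Q * ℓ with hLdef
  have hT : (0 : ℝ) ≤ Real.exp (κ₃ * L) := (Real.exp_pos _).le
  have hLR : (1 : ℝ) ≤ L := by exact_mod_cast hLn
  -- the two comparisons
  have sub12 : ∀ t : Site d, sd a t ≤ 8 * L → box t (L + 1) ⊆ box a (12 * L) := by
    intro t ht x hx
    rw [mem_box] at hx ⊢
    have := sd_triangle a t x
    omega
  have FV : ∀ t : Site d, sd a t ≤ 8 * L → ∀ A : ℝ, 0 ≤ A →
      ((∀ u, sd t u = L → |gr V (box t L) E t u| ≤ A) → ∀ u, (sd t u = L ∨ sd t u = L + 1) →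
        |gr V (box 0 N) E t u| ≤ Real.exp (2 * κ₃ * L) * A) ∧
      ((∀ u, (sd t u = L ∨ sd t u = L + 1) → |gr V (box 0 N) E t u| ≤ A) → ∀ u, sd t u = L →
        |gr V (box t L) E t u| ≤ Real.exp (2 * κ₃ * L) * A) := by
    intro t ht A hA
    have h8 := g6 t (mem_box.2 ht)
    have := fvd d V (box 0 N) t L E (Real.exp (κ₃ * L)) A hT hA
      ((sub12 t ht).trans hsub) g1 h8.1 h8.2
      (fun x hx y hy => (g2 x (sub12 t ht hx) y (sub12 t ht hy)).2)
    refine ⟨fun h u hu => (this.1 h u hu).trans (mul_le_mul_of_nonneg_right hbig' hA),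
      fun h u hu => (this.2 h u hu).trans (mul_le_mul_of_nonneg_right hbig' hA)⟩
  -- decay about `a` in the large cube
  have A1 : ∀ u, (sd a u = L ∨ sd a u = L + 1) → (κ - 2 * κ₃) * L ≤ DL (box 0 N) E V a u := by
    intro u hu
    have h0 : sd a a ≤ 8 * L := by rw [sd_self]; omega
    have h1 := (FV a h0 (Real.exp (-κ * L)) (Real.exp_pos _).le).1 hSG.2 u hu
    have hne := (g2 a (by rw [mem_box, sd_self]; omega) u (by rw [mem_box]; omega)).1
    rw [← Real.exp_add] at h1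
    unfold DL
    have h2 := Real.log_le_log (abs_pos.2 hne) h1
    rw [Real.log_exp] at h2
    nlinarith only [h2]
  have A2 : ∀ k : Site d, sd 0 k ≤ 8 * Q → ∀ y : Site d, sd 0 y = Q →
      (κ - 3 * κ₃) * L ≤ DL (box 0 N) E V (a + sm ℓ k) (a + sm ℓ k + sm ℓ y) := by
    intro k hk y hy
    have h1 := A1 (a + sm ℓ y) (Or.inl (by rw [sd_sm_eq, hy, hLdef, Nat.mul_comm]))
    have h2 := g5 k (mem_box.2 hk) y (mem_box.2 hy.le)
    have h3 := (abs_le.1 h2).2
    nlinarith only [h1, h3]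
  -- decay about `s` in the large cube
  have hs' : sd a s ≤ 7 * L := mem_box.1 hs
  have A3 : ∀ u, (sd s u = L ∨ sd s u = L + 1) →
      |gr V (box 0 N) E s u| ≤ Real.exp (-(κ - 7 * κ₃) * L) := by
    intro u hu
    obtain ⟨k, hk, hks⟩ := exK hℓ (7 * Q) a s (by rw [Nat.mul_assoc]; exact hs')
    have t1 := sd_triangle (a + sm ℓ k) s u
    have t2 := sd_triangle s (a + sm ℓ k) u
    rw [sd_comm s (a + sm ℓ k)] at t2
    obtain ⟨y, hy, hyu⟩ := exY (Q := Q) hℓ (a + sm ℓ k) u (by omega) (by omega)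
    have hky : a + sm ℓ k + sm ℓ y = a + sm ℓ (k + y) := by rw [sm_add, add_assoc]
    have q1 : sd 0 (k + y) ≤ 8 * Q := by
      have := sd_zero_add k y
      omega
    have q2 : sd a (a + sm ℓ k) ≤ 7 * L := by
      calc sd a (a + sm ℓ k) ≤ ℓ * sd 0 k := sd_sm ℓ a k
        _ ≤ ℓ * (7 * Q) := Nat.mul_le_mul_left ℓ hk
        _ = 7 * L := by rw [hLdef]; ring
    have q3 : sd a (a + sm ℓ (k + y)) ≤ 8 * L := by
      calc sd a (a + sm ℓ (k + y)) ≤ ℓ * sd 0 (k + y) := sd_sm ℓ a (k + y)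
        _ ≤ ℓ * (8 * Q) := Nat.mul_le_mul_left ℓ q1
        _ = 8 * L := by rw [hLdef]; ring
    have q4 : sd a u ≤ 9 * L := by
      have := sd_triangle a s u
      omega
    have b1 : a + sm ℓ k ∈ box a (12 * L) := mem_box.2 (by omega)
    have b2 : a + sm ℓ (k + y) ∈ box a (12 * L) := mem_box.2 (by omega)
    have b3 : s ∈ box a (12 * L) := mem_box.2 (by omega)
    have b4 : u ∈ box a (12 * L) := mem_box.2 (by omega)
    have r1 := A2 k (by omega) y hy
    rw [hky] at r1 hyu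
    have r2 := g3 (a + sm ℓ k) b1 s b3 (a + sm ℓ (k + y)) b2
    have r3 := g3 s b3 u b4 (a + sm ℓ (k + y)) b2
    have r4 := g4 k (mem_box.2 (by omega)) s (mem_box.2 (by omega))
    have r5 := g4 (k + y) (mem_box.2 (by omega)) u (mem_box.2 (by omega))
    rw [DL_comm] at r5
    have r6 : (κ - 7 * κ₃) * L ≤ DL (box 0 N) E V s u := by nlinarith only [r1, r2, r3, r4, r5]
    have hne := (g2 s b3 u b4).1
    unfold DL at r6
    rw [← Real.exp_log (abs_pos.2 hne)]
    exact Real.exp_le_exp.2 (by linarith only [r6])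
  have hs8 : sd a s ≤ 8 * L := by omega
  refine ⟨(g6 s (mem_box.2 hs8)).1, fun u hu => ?_⟩
  refine ((FV s hs8 _ (Real.exp_pos _).le).2 A3 u hu).trans ?_
  rw [← Real.exp_add]
  refine Real.exp_le_exp.2 ?_
  nlinarith only [hκ, h20]

end Pool.Agent.LE.H83A
end
end -- Pool.Agent.Helper83_LE.DetA

section -- Pool.Agent.Helper59_LE.Detx

/-!
# DETG and DETX: the deterministic steps on the good events
-/

set_option autoImplicit false

open MeasureTheory ProbabilityTheory Function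

open scoped ENNReal BigOperators

noncomputable section

namespace Pool.Agent.LE.H59

open Pool.Agent.Anderson Pool.Agent.Loc Pool.Agent.Mob Pool.Agent.Helper54.Bal
open Pool.Agent.LE.H83A (big exK sd_sm sd_sm_eq sm_add sd_zero_add DL_comm)

variable {d : ℕ}

/-- the nearest site of the coarse sphere (helper83's `exY` with a weaker hypothesis) -/
theorem exY2 [NeZero d] {ℓ Q : ℕ} (hℓ : 1 ≤ ℓ) (g u : Site d)
    (h1 : Q * ℓ ≤ sd g u + ℓ) (h2 : sd g u ≤ Q * ℓ + 2 * ℓ) :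
    ∃ y : Site d, sd 0 y = Q ∧ sd (g + sm ℓ y) u ≤ 2 * ℓ := by
  have hl : (0 : ℤ) < ℓ := by exact_mod_cast hℓ
  have hl1 : (1 : ℤ) ≤ ℓ := by exact_mod_cast hℓ
  have hQ0 : (0 : ℤ) ≤ Q := by positivity
  obtain ⟨i₀, hi₀⟩ := exists_sd_eq g u
  have h1' : (Q : ℤ) * ℓ ≤ sd g u + ℓ := by exact_mod_cast h1
  have h2' : (sd g u : ℤ) ≤ Q * ℓ + 2 * ℓ := by exact_mod_cast h2
  refine ⟨fun i => if i = i₀ then (if g i₀ ≤ u i₀ then (Q : ℤ) else -Q) else
    max (-(Q : ℤ)) (min Q ((u i - g i) / ℓ)), ?_, ?_⟩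
  · apply le_antisymm
    · rw [sd_le_iff]
      intro i
      simp only [Pi.zero_apply]
      split_ifs
      · simp
      · simp
      · rw [abs_le]
        have e1 : -(Q : ℤ) ≤ max (-(Q : ℤ)) (min Q ((u i - g i) / ℓ)) := le_max_left _ _
        have e2 : max (-(Q : ℤ)) (min Q ((u i - g i) / ℓ)) ≤ Q :=
          max_le (by linarith only) (min_le_left _ _)
        constructor <;> linarith
    · have key : ∀ yy : Site d, |yy i₀| = Q → Q ≤ sd 0 yy := by
        intro yy hyy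
        have h3 := sd_le_iff.1 (le_refl (sd (0 : Site d) yy)) i₀
        simp only [Pi.zero_apply, zero_sub, abs_neg] at h3
        rw [hyy] at h3
        exact_mod_cast h3
      apply key
      simp only [if_true]
      split_ifs
      · exact Nat.abs_cast Q
      · rw [abs_neg]
        exact Nat.abs_cast Q
  · rw [sd_le_iff]
    intro i
    simp only [Pi.add_apply, sm]
    have h4 := sd_le_iff.1 (le_refl (sd g u)) i
    obtain ⟨h5, h6⟩ := abs_le.1 h4
    push_cast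
    by_cases hi : i = i₀
    · subst hi
      rw [if_pos rfl]
      by_cases hgu : g i ≤ u i
      · rw [if_pos hgu]
        rw [abs_of_nonpos (by linarith only [hgu] : g i - u i ≤ 0)] at hi₀
        rw [abs_le]
        constructor <;> linarith
      · rw [if_neg hgu]
        rw [abs_of_pos (by linarith only [not_le.1 hgu] : 0 < g i - u i)] at hi₀
        rw [abs_le]
        constructor <;> linarith
    · rw [if_neg hi]
      have e1 := Int.mul_ediv_add_emod (u i - g i) (ℓ : ℤ)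
      have e2 := Int.emod_nonneg (u i - g i) hl.ne'
      have e3 := Int.emod_lt_of_pos (u i - g i) hl
      set q : ℤ := (u i - g i) / ℓ with hq
      rcases lt_or_ge (Q : ℤ) q with c1 | c1
      · rw [min_eq_left c1.le, max_eq_right (by linarith only)]
        have e4 : (ℓ : ℤ) * (Q + 1) ≤ ℓ * q := mul_le_mul_of_nonneg_left (by linarith only [c1]) hl.le
        rw [abs_le]
        constructor <;> nlinarith
      · rw [min_eq_right c1]
        rcases lt_or_ge q (-(Q : ℤ)) with c2 | c2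
        · rw [max_eq_left c2.le]
          have e4 : (ℓ : ℤ) * q ≤ ℓ * (-Q - 1) := mul_le_mul_of_nonneg_left (by linarith only [c2]) hl.le
          rw [abs_le]
          constructor <;> nlinarith
        · rw [max_eq_right c2]
          rw [abs_le]
          constructor <;> linarith

/-- a site of the sphere of radius `L` near a site of the coarse sphere -/
theorem exU [NeZero d] {ℓ Q L : ℕ} (hL : Q * ℓ ≤ L) (b y : Site d) (hy : sd 0 y = Q) :
    ∃ u : Site d, sd b u = L ∧ sd (b + sm ℓ y) u ≤ L - Q * ℓ := by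
  obtain ⟨i₀, hi₀⟩ := exists_sd_eq (0 : Site d) y
  obtain ⟨r, hr⟩ : ∃ r : ℕ, L = Q * ℓ + r := ⟨L - Q * ℓ, by omega⟩
  simp only [Pi.zero_apply, zero_sub, abs_neg] at hi₀
  rw [hy] at hi₀
  -- the sign
  obtain ⟨s, hs, hsy⟩ : ∃ s : ℤ, |s| = 1 ∧ |(ℓ : ℤ) * y i₀ + s * r| = ℓ * |y i₀| + r := by
    rcases le_total 0 (y i₀) with h | h
    · refine ⟨1, by simp, ?_⟩
      rw [abs_of_nonneg h, one_mul, abs_of_nonneg]
      positivity
    · refine ⟨-1, by simp, ?_⟩
      rw [abs_of_nonpos h, abs_of_nonpos]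
      · ring
      · have : (ℓ : ℤ) * y i₀ ≤ 0 := mul_nonpos_of_nonneg_of_nonpos (by positivity) h
        have h2 : (0 : ℤ) ≤ r := by positivity
        linarith only [this]
  have hyb : ∀ i, |y i| ≤ Q := by
    intro i
    have h := sd_le_iff.1 hy.le i
    simpa using h
  refine ⟨b + sm ℓ y + Pi.single i₀ (s * r), ?_, ?_⟩
  · apply le_antisymm
    · rw [sd_le_iff]
      intro i
      simp only [Pi.add_apply, sm]
      by_cases hi : i = i₀
      · subst hi
        rw [Pi.single_eq_same]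
        rw [show b i - (b i + ℓ * y i + s * r) = -(ℓ * y i + s * r) by ring, abs_neg, hsy, hr]
        push_cast
        rw [← hi₀]
        apply le_of_eq
        ring
      · rw [Pi.single_eq_of_ne hi, add_zero]
        rw [show b i - (b i + ℓ * y i) = -(ℓ * y i) by ring, abs_neg, abs_mul, Nat.abs_cast, hr]
        push_cast
        have := mul_le_mul_of_nonneg_left (hyb i) (by positivity : (0 : ℤ) ≤ ℓ)
        have h2 : (0 : ℤ) ≤ r := by positivity
        linarith only [this]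
    · have h := sd_le_iff.1 (le_refl (sd b (b + sm ℓ y + Pi.single i₀ (s * r)))) i₀
      simp only [Pi.add_apply, sm, Pi.single_eq_same] at h
      rw [show b i₀ - (b i₀ + ℓ * y i₀ + s * r) = -(ℓ * y i₀ + s * r) by ring, abs_neg, hsy,
        ← hi₀] at h
      have h2 : ((L : ℕ) : ℤ) ≤ (sd b (b + sm ℓ y + Pi.single i₀ (s * r)) : ℤ) := by
        rw [hr]
        push_cast
        linarith only [h]
      exact_mod_cast h2
  · rw [sd_le_iff]
    intro i
    have e : L - Q * ℓ = r := by omega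
    rw [e]
    simp only [Pi.add_apply]
    by_cases hi : i = i₀
    · subst hi
      rw [Pi.single_eq_same, sub_add_cancel_left, abs_neg, abs_mul, hs, one_mul, Nat.abs_cast]
    · rw [Pi.single_eq_of_ne hi, add_zero, sub_self, abs_zero]
      positivity

/-- the two comparisons on the good event -/
theorem cmp (fvd : FvdStmt) {κ₃ : ℝ} (hκ₃ : 0 < κ₃) {L₀ : ℕ}
    (hbig : ∀ L : ℕ, L₀ ≤ L →
      1 + 2 * d * (2 * L + 1) ^ d * Real.exp (κ₃ * L) ≤ Real.exp (2 * κ₃ * L))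
    {V : Site d → ℝ} {N Q ℓ L : ℕ} {a : Site d} {E : ℝ} (hQ : 1 ≤ Q) (hQℓ : Q ≤ ℓ)
    (hL₀ : L₀ ≤ L) (hL : Q * ℓ ≤ L) (hL' : L < Q * (ℓ + 1)) (hsub : box a (12 * (Q * ℓ)) ⊆ box 0 N)
    (hG : GoodG V N Q ℓ a E κ₃) {t : Site d} (ht : sd a t ≤ 8 * (Q * ℓ)) :
    (RM V (box t L) E).det ≠ 0 ∧
    (∀ κ : ℝ, (∀ u, sd t u = L → |gr V (box t L) E t u| ≤ Real.exp (-κ * L)) →
      ∀ u, (sd t u = L ∨ sd t u = L + 1) → (κ - 2 * κ₃) * L ≤ DL (box 0 N) E V t u) ∧
    (∀ κ : ℝ, (∀ u, (sd t u = L ∨ sd t u = L + 1) → κ * L ≤ DL (box 0 N) E V t u) →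
      ∀ u, sd t u = L → |gr V (box t L) E t u| ≤ Real.exp (-(κ - 2 * κ₃) * L)) := by
  obtain ⟨g1, g2, g3, g4, g5, g6⟩ := hG
  have hmul : Q * (ℓ + 1) = Q * ℓ + Q := by ring
  have hQQ : Q ≤ Q * ℓ := Nat.le_mul_of_pos_right _ (by omega)
  have hbig' := hbig L hL₀
  have hT : (0 : ℝ) ≤ Real.exp (κ₃ * (Q * ℓ)) := (Real.exp_pos _).le
  have hTL : Real.exp (κ₃ * (Q * ℓ)) ≤ Real.exp (κ₃ * L) := by
    rw [Real.exp_le_exp]
    apply mul_le_mul_of_nonneg_left _ hκ₃.le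
    exact_mod_cast hL
  have hfac : 1 + 2 * d * (2 * (L : ℝ) + 1) ^ d * Real.exp (κ₃ * (Q * ℓ)) ≤
      Real.exp (2 * κ₃ * L) := by
    refine le_trans ?_ hbig'
    have : 2 * d * (2 * (L : ℝ) + 1) ^ d * Real.exp (κ₃ * (Q * ℓ)) ≤
        2 * d * (2 * (L : ℝ) + 1) ^ d * Real.exp (κ₃ * L) :=
      mul_le_mul_of_nonneg_left hTL (by positivity)
    linarith only [this]
  have sub12 : box t (L + 1) ⊆ box a (12 * (Q * ℓ)) := by
    intro x hx
    rw [mem_box] at hx ⊢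
    have := sd_triangle a t x
    omega
  obtain ⟨r, hr⟩ : ∃ r : ℕ, L = Q * ℓ + r := ⟨L - Q * ℓ, by omega⟩
  have h8 := g6 r (by omega) t (mem_box.2 ht)
  rw [← hr] at h8
  have hf := fun A : ℝ => fun hA : 0 ≤ A => fvd d V (box 0 N) t L E (Real.exp (κ₃ * (Q * ℓ))) A
    hT hA (sub12.trans hsub) g1 h8.1 h8.2 (fun x hx y hy => (g2 x (sub12 hx) y (sub12 hy)).2)
  have htin : t ∈ box a (12 * (Q * ℓ)) := by
    rw [mem_box]
    omega
  refine ⟨h8.1, fun κ h u hu => ?_, fun κ h u hu => ?_⟩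
  · have h1 := ((hf (Real.exp (-κ * L)) (Real.exp_pos _).le).1 h u hu).trans
      (mul_le_mul_of_nonneg_right hfac (Real.exp_pos _).le)
    have hu' : u ∈ box a (12 * (Q * ℓ)) := by
      apply sub12
      rw [mem_box]
      omega
    have hne := (g2 t htin u hu').1
    rw [← Real.exp_add] at h1
    unfold DL
    have h2 := Real.log_le_log (abs_pos.2 hne) h1
    rw [Real.log_exp] at h2
    linarith only [h2]
  · have h0 : ∀ u, (sd t u = L ∨ sd t u = L + 1) →
        |gr V (box 0 N) E t u| ≤ Real.exp (-κ * L) := by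
      intro u hu
      have hu' : u ∈ box a (12 * (Q * ℓ)) := by
        apply sub12
        rw [mem_box]
        omega
      have hne := (g2 t htin u hu').1
      have h1 := h u hu
      unfold DL at h1
      rw [← Real.exp_log (abs_pos.2 hne)]
      exact Real.exp_le_exp.2 (by linarith only [h1])
    refine ((hf (Real.exp (-κ * L)) (Real.exp_pos _).le).2 h0 u hu).trans ?_
    refine (mul_le_mul_of_nonneg_right hfac (Real.exp_pos _).le).trans ?_
    rw [← Real.exp_add]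
    exact Real.exp_le_exp.2 (by linarith only)

/-- decay about `b = a + ℓ k` in the large cube, on the coarse sphere -/
theorem coarse [NeZero d] {κ κ₃ : ℝ} (hκ₃ : 0 < κ₃)
    {V : Site d → ℝ} {N Q ℓ L : ℕ} {a : Site d} {E : ℝ} (hQ : 1 ≤ Q) (hQℓ : Q ≤ ℓ)
    (hL : Q * ℓ ≤ L) (hL' : L < Q * (ℓ + 1))
    (hG : GoodG V N Q ℓ a E κ₃) {k : Site d} (hk : sd 0 k ≤ 8 * Q)
    (h : ∀ u, (sd (a + sm ℓ k) u = L ∨ sd (a + sm ℓ k) u = L + 1) →
      κ * L ≤ DL (box 0 N) E V (a + sm ℓ k) u) (y : Site d) (hy : sd 0 y = Q) :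
    (κ - 2 * κ₃) * L ≤ DL (box 0 N) E V (a + sm ℓ k) (a + sm ℓ k + sm ℓ y) := by
  obtain ⟨g1, g2, g3, g4, g5, g6⟩ := hG
  have hmul : Q * (ℓ + 1) = Q * ℓ + Q := by ring
  have hQQ : Q ≤ Q * ℓ := Nat.le_mul_of_pos_right _ (by omega)
  have hLR : (Q : ℝ) * ℓ ≤ L := by exact_mod_cast hL
  obtain ⟨u, hu, hu'⟩ := exU (ℓ := ℓ) hL (a + sm ℓ k) y hy
  have h1 := h u (Or.inl hu)
  have hky : a + sm ℓ k + sm ℓ y = a + sm ℓ (k + y) := by rw [sm_add, add_assoc]
  have q1 : sd 0 (k + y) ≤ 9 * Q := by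
    have := sd_zero_add k y
    omega
  have q2 : sd a (a + sm ℓ k) ≤ 8 * (Q * ℓ) := by
    calc sd a (a + sm ℓ k) ≤ ℓ * sd 0 k := sd_sm ℓ a k
      _ ≤ ℓ * (8 * Q) := Nat.mul_le_mul_left ℓ hk
      _ = 8 * (Q * ℓ) := by ring
  have q3 : sd a (a + sm ℓ (k + y)) ≤ 9 * (Q * ℓ) := by
    calc sd a (a + sm ℓ (k + y)) ≤ ℓ * sd 0 (k + y) := sd_sm ℓ a (k + y)
      _ ≤ ℓ * (9 * Q) := Nat.mul_le_mul_left ℓ q1
      _ = 9 * (Q * ℓ) := by ring
  have q4 : sd a u ≤ 10 * (Q * ℓ) := by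
    have := sd_triangle a (a + sm ℓ k) u
    omega
  have b1 : a + sm ℓ k ∈ box a (12 * (Q * ℓ)) := mem_box.2 (by omega)
  have b2 : a + sm ℓ (k + y) ∈ box a (12 * (Q * ℓ)) := mem_box.2 (by omega)
  have b4 : u ∈ box a (12 * (Q * ℓ)) := mem_box.2 (by omega)
  rw [hky] at hu' ⊢
  have r2 := g3 (a + sm ℓ k) b1 (a + sm ℓ (k + y)) b2 u b4
  have r5 := g4 (k + y) (mem_box.2 (by omega)) u (mem_box.2 (by omega))
  nlinarith only [hκ₃, hLR, h1, r2, r5]

/-- decay about `s`, from the coarse spheres -/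
theorem fine [NeZero d] {κ κ₃ : ℝ} (hκ₃ : 0 < κ₃)
    {V : Site d → ℝ} {N Q ℓ L : ℕ} {a : Site d} {E : ℝ} (hQ : 1 ≤ Q) (hQℓ : Q ≤ ℓ)
    (hL : Q * ℓ ≤ L) (hL' : L < Q * (ℓ + 1))
    (hG : GoodG V N Q ℓ a E κ₃)
    (h : ∀ k : Site d, sd 0 k ≤ 8 * Q → ∀ y : Site d, sd 0 y = Q →
      κ * L ≤ DL (box 0 N) E V (a + sm ℓ k) (a + sm ℓ k + sm ℓ y))
    {s : Site d} (hs : sd a s ≤ 7 * (Q * ℓ)) :
    ∀ u, (sd s u = L ∨ sd s u = L + 1) → (κ - 4 * κ₃) * L ≤ DL (box 0 N) E V s u := by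
  obtain ⟨g1, g2, g3, g4, g5, g6⟩ := hG
  have hℓ : 1 ≤ ℓ := by omega
  have hmul : Q * (ℓ + 1) = Q * ℓ + Q := by ring
  have hQQ : Q ≤ Q * ℓ := Nat.le_mul_of_pos_right _ (by omega)
  have hℓQ : ℓ ≤ Q * ℓ := Nat.le_mul_of_pos_left _ (by omega)
  have hLR : (Q : ℝ) * ℓ ≤ L := by exact_mod_cast hL
  intro u hu
  obtain ⟨k, hk, hks⟩ := exK hℓ (7 * Q) a s (by rw [Nat.mul_assoc]; exact hs)
  have t1 := sd_triangle (a + sm ℓ k) s u
  have t2 := sd_triangle s (a + sm ℓ k) u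
  rw [sd_comm s (a + sm ℓ k)] at t2
  obtain ⟨y, hy, hyu⟩ := exY2 (Q := Q) hℓ (a + sm ℓ k) u (by omega) (by omega)
  have hky : a + sm ℓ k + sm ℓ y = a + sm ℓ (k + y) := by rw [sm_add, add_assoc]
  have q1 : sd 0 (k + y) ≤ 8 * Q := by
    have := sd_zero_add k y
    omega
  have q2 : sd a (a + sm ℓ k) ≤ 7 * (Q * ℓ) := by
    calc sd a (a + sm ℓ k) ≤ ℓ * sd 0 k := sd_sm ℓ a k
      _ ≤ ℓ * (7 * Q) := Nat.mul_le_mul_left ℓ hk
      _ = 7 * (Q * ℓ) := by ring
  have q3 : sd a (a + sm ℓ (k + y)) ≤ 8 * (Q * ℓ) := by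
    calc sd a (a + sm ℓ (k + y)) ≤ ℓ * sd 0 (k + y) := sd_sm ℓ a (k + y)
      _ ≤ ℓ * (8 * Q) := Nat.mul_le_mul_left ℓ q1
      _ = 8 * (Q * ℓ) := by ring
  have q4 : sd a u ≤ 10 * (Q * ℓ) := by
    have := sd_triangle a s u
    omega
  have b1 : a + sm ℓ k ∈ box a (12 * (Q * ℓ)) := mem_box.2 (by omega)
  have b2 : a + sm ℓ (k + y) ∈ box a (12 * (Q * ℓ)) := mem_box.2 (by omega)
  have b3 : s ∈ box a (12 * (Q * ℓ)) := mem_box.2 (by omega)
  have b4 : u ∈ box a (12 * (Q * ℓ)) := mem_box.2 (by omega)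
  have r1 := h k (by omega) y hy
  rw [hky] at r1 hyu
  have r2 := g3 (a + sm ℓ k) b1 s b3 (a + sm ℓ (k + y)) b2
  have r3 := g3 s b3 u b4 (a + sm ℓ (k + y)) b2
  have r4 := g4 k (mem_box.2 (by omega)) s (mem_box.2 (by omega))
  have r5 := g4 (k + y) (mem_box.2 (by omega)) u (mem_box.2 (by omega))
  rw [DL_comm] at r5
  nlinarith only [hκ₃, hLR, r1, r2, r3, r4, r5]

theorem detG (fvd : FvdStmt) : DetGStmt := by
  intro d κ₃ hd hκ₃
  have : NeZero d := ⟨by omega⟩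
  obtain ⟨L₀, _, hbig⟩ := big d κ₃ hκ₃
  refine ⟨L₀, fun κ V N Q ℓ L a E hQ hQℓ hL₀ hL hL' hsub hG k hk hSG s hs => ?_⟩
  rw [mem_box] at hk hs
  have hLR : (Q : ℝ) * ℓ ≤ L := by exact_mod_cast hL
  have q2 : sd a (a + sm ℓ k) ≤ 8 * (Q * ℓ) := by
    calc sd a (a + sm ℓ k) ≤ ℓ * sd 0 k := sd_sm ℓ a k
      _ ≤ ℓ * (8 * Q) := Nat.mul_le_mul_left ℓ hk
      _ = 8 * (Q * ℓ) := by ring
  have c1 := (cmp fvd hκ₃ hbig hQ hQℓ hL₀ hL hL' hsub hG q2).2.1 κ hSG.2
  have c2 := coarse hκ₃ hQ hQℓ hL hL' hG hk c1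
  have c3 : ∀ k' : Site d, sd 0 k' ≤ 8 * Q → ∀ y : Site d, sd 0 y = Q →
      (κ - 6 * κ₃) * L ≤ DL (box 0 N) E V (a + sm ℓ k') (a + sm ℓ k' + sm ℓ y) := by
    intro k' hk' y hy
    have h1 := c2 y hy
    have h2 := hG.2.2.2.2.1 k (mem_box.2 hk) y (mem_box.2 hy.le)
    have h3 := hG.2.2.2.2.1 k' (mem_box.2 hk') y (mem_box.2 hy.le)
    have h4 := (abs_le.1 h2).1
    have h5 := (abs_le.1 h3).2
    nlinarith only [hκ₃, hLR, h1, h4, h5]
  have c4 := fine hκ₃ hQ hQℓ hL hL' hG c3 hs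
  have hs8 : sd a s ≤ 8 * (Q * ℓ) := by omega
  obtain ⟨e1, _, e3⟩ := cmp fvd hκ₃ hbig hQ hQℓ hL₀ hL hL' hsub hG hs8
  refine ⟨e1, fun u hu => (e3 _ c4 u hu).trans ?_⟩
  rw [Real.exp_le_exp]
  apply le_of_eq
  ring

theorem detX (fvd : FvdStmt) : DetXStmt := by
  intro d κ₃ hd hκ₃
  have : NeZero d := ⟨by omega⟩
  obtain ⟨L₀, _, hbig⟩ := big d κ₃ hκ₃
  refine ⟨L₀, fun κ V N Q ℓ ℓ' L L' a E hQ hQℓ hQℓ' hκ hκ' hL₀ hL₀' hL hL1 hL' hL1' hsub hsub'
    hG hG' hX hSG => ?_⟩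
  have hLR : (Q : ℝ) * ℓ ≤ L := by exact_mod_cast hL
  have hLR' : (Q : ℝ) * ℓ' ≤ L' := by exact_mod_cast hL'
  have hL1R : (L : ℝ) ≤ Q * (ℓ + 1) := by exact_mod_cast hL1.le
  have hL1R' : (L' : ℝ) ≤ Q * (ℓ' + 1) := by exact_mod_cast hL1'.le
  have hQR : (1 : ℝ) ≤ Q := by exact_mod_cast hQ
  have hℓR : (1 : ℝ) ≤ ℓ := by exact_mod_cast hQ.trans hQℓ
  have hℓR' : (1 : ℝ) ≤ ℓ' := by exact_mod_cast hQ.trans hQℓ'
  have ha0 : a + sm ℓ (0 : Site d) = a := by
    funext i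
    simp [sm]
  have h0 : sd a a ≤ 8 * (Q * ℓ) := by rw [sd_self]; omega
  have h0' : sd a a ≤ 8 * (Q * ℓ') := by rw [sd_self]; omega
  have c1 := (cmp fvd hκ₃ hbig hQ hQℓ hL₀ hL hL1 hsub hG h0).2.1 κ hSG.2
  have c2 := coarse (k := 0) hκ₃ hQ hQℓ hL hL1 hG (by rw [sd_self]; omega)
    (by rw [ha0]; exact c1)
  rw [ha0] at c2
  -- the other scale, on the coarse sphere about `a`
  have c3 : ∀ y : Site d, sd 0 y = Q → (κ - 7 * κ₃) * L' ≤ DL (box 0 N) E V a (a + sm ℓ' y) := by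
    intro y hy
    have h1 := c2 y hy
    have h2 := (abs_le.1 (hX y (mem_box.2 hy.le))).2
    obtain ⟨X, hXd⟩ : ∃ X, X = DL (box 0 N) E V a (a + sm ℓ y) := ⟨_, rfl⟩
    obtain ⟨Y, hYd⟩ : ∃ Y, Y = DL (box 0 N) E V a (a + sm ℓ' y) := ⟨_, rfl⟩
    rw [← hXd] at h1 h2
    rw [← hYd] at h2 ⊢
    have hℓ0 : (0 : ℝ) < ℓ := by linarith only [hℓR]
    have hℓ0' : (0 : ℝ) < ℓ' := by linarith only [hℓR']
    -- (κ - 4κ₃) L ≥ (κ - 5κ₃) Q ℓ
    have k1 := abs_le.1 (le_refl |κ|)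
    have m1 : (κ - 5 * κ₃) * (Q * ℓ) ≤ (κ - 4 * κ₃) * L := by
      rcases le_total 0 (κ - 4 * κ₃) with hc | hc
      · have : (κ - 4 * κ₃) * (Q * ℓ) ≤ (κ - 4 * κ₃) * L := mul_le_mul_of_nonneg_left hLR hc
        have h3 : 0 ≤ κ₃ * (Q * ℓ) := by positivity
        linarith only [this, h3]
      · have h3 : (κ - 4 * κ₃) * (Q * (ℓ + 1)) ≤ (κ - 4 * κ₃) * L :=
          mul_le_mul_of_nonpos_left hL1R hc
        have h4 : -(κ - 4 * κ₃) ≤ κ₃ * ℓ := by linarith only [hκ₃, hκ, k1]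
        have h5 : -(κ - 4 * κ₃) * Q ≤ κ₃ * ℓ * Q := mul_le_mul_of_nonneg_right h4 (by linarith only [hQR])
        have h6 : (κ - 4 * κ₃) * (Q * (ℓ + 1)) = (κ - 4 * κ₃) * (Q * ℓ) + (κ - 4 * κ₃) * Q := by
          ring
        linarith only [h3, h5]
    have m2 : (κ - 5 * κ₃) * Q ≤ X / ℓ := by
      rw [le_div_iff₀ hℓ0]
      calc (κ - 5 * κ₃) * Q * ℓ = (κ - 5 * κ₃) * (Q * ℓ) := by ring
        _ ≤ (κ - 4 * κ₃) * L := m1
        _ = (κ - 2 * κ₃ - 2 * κ₃) * L := by ring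
        _ ≤ X := h1
    have m3 : (κ - 6 * κ₃) * Q ≤ Y / ℓ' := by linarith only [h2, m2]
    rw [le_div_iff₀ hℓ0'] at m3
    refine le_trans ?_ m3
    rcases le_total 0 (κ - 6 * κ₃) with hc | hc
    · have h3 : (κ - 6 * κ₃) * L' ≤ (κ - 6 * κ₃) * (Q * (ℓ' + 1)) :=
        mul_le_mul_of_nonneg_left hL1R' hc
      have h4 : κ - 6 * κ₃ ≤ κ₃ * ℓ' := by linarith only [hκ₃, hκ', k1]
      have h5 : (κ - 6 * κ₃) * Q ≤ κ₃ * ℓ' * Q := mul_le_mul_of_nonneg_right h4 (by linarith only [hQR])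
      have h6 : κ₃ * (Q * ℓ') ≤ κ₃ * L' := mul_le_mul_of_nonneg_left hLR' hκ₃.le
      have h7 : (κ - 6 * κ₃) * (Q * (ℓ' + 1)) = (κ - 6 * κ₃) * Q * ℓ' + (κ - 6 * κ₃) * Q := by
        ring
      linarith only [h3, h5, h6]
    · have h3 : (κ - 6 * κ₃) * L' ≤ (κ - 6 * κ₃) * (Q * ℓ') :=
        mul_le_mul_of_nonpos_left hLR' hc
      have h6 : 0 ≤ κ₃ * L' := by positivity
      linarith only [h3, h6]
  -- all sites at the other scale: only the base point is needed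
  have c4 : ∀ u, (sd a u = L' ∨ sd a u = L' + 1) →
      (κ - 9 * κ₃) * L' ≤ DL (box 0 N) E V a u := by
    obtain ⟨g1, g2, g3, g4, g5, g6⟩ := hG'
    have hmul : Q * (ℓ' + 1) = Q * ℓ' + Q := by ring
    have hQQ : Q ≤ Q * ℓ' := Nat.le_mul_of_pos_right _ (by omega)
    intro u hu
    obtain ⟨y, hy, hyu⟩ := exY2 (Q := Q) (ℓ := ℓ') (by omega) a u (by omega) (by omega)
    have r1 := c3 y hy
    have q3 : sd a (a + sm ℓ' y) ≤ 8 * (Q * ℓ') := by
      calc sd a (a + sm ℓ' y) ≤ ℓ' * sd 0 y := sd_sm ℓ' a y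
        _ = Q * ℓ' := by rw [hy]; ring
        _ ≤ 8 * (Q * ℓ') := by omega
    have b1 : a ∈ box a (12 * (Q * ℓ')) := mem_box.2 (by rw [sd_self]; omega)
    have b2 : a + sm ℓ' y ∈ box a (12 * (Q * ℓ')) := mem_box.2 (by omega)
    have b4 : u ∈ box a (12 * (Q * ℓ')) := mem_box.2 (by omega)
    have r3 := g3 a b1 u b4 (a + sm ℓ' y) b2
    have r5 := g4 y (mem_box.2 (by omega)) u (mem_box.2 (by omega))
    rw [DL_comm] at r5
    nlinarith only [hκ₃, hLR', r1, r3, r5]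
  obtain ⟨e1, _, e3⟩ := cmp fvd hκ₃ hbig hQ hQℓ' hL₀' hL' hL1' hsub' hG' h0'
  refine ⟨e1, fun u hu => (e3 _ c4 u hu).trans ?_⟩
  rw [Real.exp_le_exp]
  have : 0 ≤ κ₃ * L' := by positivity
  linarith only [this]

end Pool.Agent.LE.H59
end
end -- Pool.Agent.Helper59_LE.Detx

section -- Pool.Agent.Helper17_LEC.UPD

/-!
# UPD: one direction in which the cost is at most `κ₀` with probability near one
-/

set_option autoImplicit false
set_option linter.unusedSectionVars false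

open MeasureTheory ProbabilityTheory Function

open scoped ENNReal BigOperators

noncomputable section

namespace Pool.Agent.LE.H17C

open Pool.Agent.Anderson Pool.Agent.Loc Pool.Agent.Mob Pool.Agent.Helper54.Bal
  Pool.Agent.Mob.H75 Pool.Agent.LE
open Pool.Agent.LE.H83A (big sd_sm sd_sm_eq sm_add sd_zero_add DL_comm)

variable {d : ℕ}

theorem gr_of_DL {V : Site d → ℝ} {Λ : Finset (Site d)} {E c : ℝ} {x y : Site d}
    (h : gr V Λ E x y ≠ 0) (h1 : DL Λ E V x y ≤ c) : Real.exp (-c) ≤ |gr V Λ E x y| := by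
  unfold DL at h1
  rw [← Real.exp_log (abs_pos.2 h)]
  exact Real.exp_le_exp.2 (by linarith)

theorem DL_of_gr {V : Site d → ℝ} {Λ : Finset (Site d)} {E c : ℝ} {x y : Site d}
    (h1 : Real.exp (-c) ≤ |gr V Λ E x y|) : DL Λ E V x y ≤ c := by
  unfold DL
  have h2 := Real.log_le_log (Real.exp_pos _) h1
  rw [Real.log_exp] at h2
  linarith

/-- locality near the base point -/
def LocAt (V : Site d → ℝ) (N L₁ L₂ : ℕ) (κ₀ E : ℝ) (a : Site d) : Prop :=
  ∀ b x : Site d, sd a b ≤ 3 * L₂ → sd b x ≤ L₁ →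
    |gr V (box 0 N) E b x - gr V (box b L₂) E b x| ≤ Real.exp (-(κ₀ + 1) * L₁) / 2

/-- the first step -/
theorem step1 [NeZero d] {η κ' κ₀ : ℝ} {K N Q₁ ℓ L₀ : ℕ} {V : Site d → ℝ} {a : Site d} {E : ℝ}
    (hη : 0 < η) (hK : 8 ≤ K) (h16 : 16 * η * K ≤ 1)
    (hbig : ∀ L : ℕ, L₀ ≤ L →
      1 + 2 * d * (2 * L + 1) ^ d * Real.exp (η * L) ≤ Real.exp (2 * η * L))
    (hQ : 1 ≤ Q₁) (hℓ : 1 ≤ ℓ) (hL₀ : L₀ ≤ Q₁ * ℓ)
    (hsub : box a (12 * (K * Q₁ * ℓ)) ⊆ box 0 N) (hG : GoodU V N (K * Q₁) ℓ a E η)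
    (hS : SG V (Q₁ * ℓ) κ' E a) (hloc : LocAt V N (Q₁ * ℓ) (K * Q₁ * ℓ) κ₀ E a)
    (hn : ¬ SG V (Q₁ * ℓ) κ₀ E a) :
    ∃ y : Site d, sd 0 y = Q₁ ∧ Real.exp (-(κ₀ * (Q₁ * ℓ) + 4 * (η * (K * Q₁ * ℓ)))) / 2 ≤
      |gr V (box a (K * Q₁ * ℓ)) E a (a + sm ℓ y)| := by
  obtain ⟨g1, g2, g3, g4, g5, g6⟩ := hG
  push_cast at g2 g3 g4 g5 g6
  have hL1 : 1 ≤ Q₁ * ℓ := Nat.mul_pos hQ hℓ
  have hL2 : 8 * (Q₁ * ℓ) ≤ K * Q₁ * ℓ := by
    rw [mul_assoc K]
    exact Nat.mul_le_mul_right _ hK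
  obtain ⟨L1, hL1d⟩ : ∃ L1 : ℕ, L1 = Q₁ * ℓ := ⟨_, rfl⟩
  obtain ⟨L2, hL2d⟩ : ∃ L2 : ℕ, L2 = K * Q₁ * ℓ := ⟨_, rfl⟩
  have hL1r : (L1 : ℝ) = Q₁ * ℓ := by rw [hL1d]; push_cast; ring
  have hL2r : (L2 : ℝ) = K * Q₁ * ℓ := by rw [hL2d]; push_cast; ring
  have hKL : (L2 : ℝ) = K * L1 := by rw [hL2r, hL1r]; ring
  rw [← hL1d] at hL1 hL2 hL₀ hS hloc hn
  rw [← hL2d] at hL2 hsub hloc ⊢
  rw [← hL1r, ← hL2r]
  rw [← hL2r, ← hL2d] at g2 g3
  rw [← hL2r] at g4 g5 g6
  rw [← hL2d] at g6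
  have hL1R : (1 : ℝ) ≤ L1 := by exact_mod_cast hL1
  have haa : ∀ {n : ℕ}, a ∈ box a n := fun {n} => mem_box.2 (by rw [sd_self]; omega)
  -- a site with a large Green function in the small cube
  have hn' : ∃ u, sd a u = L1 ∧ Real.exp (-κ₀ * L1) < |gr V (box a L1) E a u| := by
    by_contra hcon
    apply hn
    refine ⟨hS.1, fun u hu => ?_⟩
    by_contra h1
    exact hcon ⟨u, hu, not_le.1 h1⟩
  obtain ⟨u, hu, hgu⟩ := hn'
  have hT : (0 : ℝ) ≤ Real.exp (η * L2) := (Real.exp_pos _).le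
  have hsub2 : box a (L1 + 1) ⊆ box a (12 * L2) := box_mono a (by omega)
  have hf := (Pool.Agent.LE.H46.fvd d V (box 0 N) a L1 E (Real.exp (η * L2))
    (Real.exp (-(κ₀ * L1 + 2 * (η * L2)))) hT (Real.exp_pos _).le (hsub2.trans hsub) g1 hS.1
    (g6 L1 (by omega) a haa).2 (fun x hx y hy => (g2 x (hsub2 hx) y (hsub2 hy)).2)).2
  have hfac : 1 + 2 * d * (2 * (L1 : ℝ) + 1) ^ d * Real.exp (η * L2) ≤
      Real.exp (2 * (η * L2)) := by
    have h1 := hbig L2 (by omega)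
    have h2 : (2 * (L1 : ℝ) + 1) ^ d ≤ (2 * (L2 : ℝ) + 1) ^ d := by
      apply pow_le_pow_left₀ (by positivity)
      have h3 : (L1 : ℝ) ≤ L2 := by exact_mod_cast (by omega : L1 ≤ L2)
      linarith only [h3]
    have h3 : 2 * (d : ℝ) * (2 * (L1 : ℝ) + 1) ^ d * Real.exp (η * L2) ≤
        2 * d * (2 * (L2 : ℝ) + 1) ^ d * Real.exp (η * L2) := by gcongr
    have h4 : 2 * (η * (L2 : ℝ)) = 2 * η * L2 := by ring
    rw [h4]
    linarith only [h1, h3]
  obtain ⟨u', hu', hgu'⟩ : ∃ u', (sd a u' = L1 ∨ sd a u' = L1 + 1) ∧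
      Real.exp (-(κ₀ * L1 + 2 * (η * L2))) < |gr V (box 0 N) E a u'| := by
    by_contra hcon
    have h1 := hf (fun u' hu' => by
      by_contra h2
      exact hcon ⟨u', hu', not_le.1 h2⟩) u hu
    have h2 : (1 + 2 * d * (2 * (L1 : ℝ) + 1) ^ d * Real.exp (η * L2)) *
        Real.exp (-(κ₀ * L1 + 2 * (η * L2))) ≤ Real.exp (-κ₀ * L1) := by
      refine (mul_le_mul_of_nonneg_right hfac (Real.exp_pos _).le).trans (le_of_eq ?_)
      rw [← Real.exp_add]
      congr 1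
      ring
    linarith only [hgu, h1, h2]
  have hD1 := DL_of_gr hgu'.le
  have hlL : ℓ ≤ Q₁ * ℓ := Nat.le_mul_of_pos_left ℓ hQ
  obtain ⟨y, hy, hyu⟩ := H59.exY2 (Q := Q₁) hℓ a u' (by rw [← hL1d]; omega)
    (by rw [← hL1d]; omega)
  have hay : sd a (a + sm ℓ y) ≤ L1 := by
    have h1 := sd_sm ℓ a y
    rw [hy] at h1
    rw [hL1d, mul_comm Q₁]
    exact h1
  have hu12 : u' ∈ box a (12 * L2) := mem_box.2 (by omega)
  have hy12 : a + sm ℓ y ∈ box a (12 * L2) := mem_box.2 (by omega)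
  have hQK : Q₁ ≤ K * Q₁ := Nat.le_mul_of_pos_left Q₁ (by omega)
  have hD2 := g4 y (mem_box.2 (by omega)) u' (mem_box.2 (by omega))
  have hD3 := g3 a haa u' hu12 (a + sm ℓ y) hy12
  rw [DL_comm (box 0 N) E V u' (a + sm ℓ y)] at hD3
  have hD4 : DL (box 0 N) E V a (a + sm ℓ y) ≤ κ₀ * L1 + 4 * (η * L2) := by linarith only [hD1, hD2, hD3]
  have hgN := gr_of_DL (g2 a haa (a + sm ℓ y) hy12).1 hD4
  refine ⟨y, hy, ?_⟩
  have hl := hloc a (a + sm ℓ y) (by rw [sd_self]; omega) hay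
  have h1 : Real.exp (-(κ₀ + 1) * L1) ≤ Real.exp (-(κ₀ * L1 + 4 * (η * L2))) := by
    apply Real.exp_le_exp.2
    rw [hKL]
    have : 16 * η * K * L1 ≤ 1 * L1 := mul_le_mul_of_nonneg_right h16 (by linarith only [hL1R])
    linarith only [this, (Nat.cast_nonneg L1 : (0 : ℝ) ≤ L1)]
  have h2 := abs_sub_abs_le_abs_sub (gr V (box 0 N) E a (a + sm ℓ y))
    (gr V (box a L2) E a (a + sm ℓ y))
  linarith only [hgN, hl, h1, h2]

/-- the second step -/
theorem step2 [NeZero d] {η κ₀ : ℝ} {K N Q₁ ℓ : ℕ} {V : Site d → ℝ} {a : Site d} {E : ℝ}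
    (hη : 0 < η) (hK : 8 ≤ K) (h16 : 16 * η * K ≤ 1)
    (hQ : 1 ≤ Q₁) (hℓ : 1 ≤ ℓ) (hL₀ : 1 ≤ η * (Q₁ * ℓ))
    (hG : GoodU V N (K * Q₁) ℓ a E η)
    (hloc : LocAt V N (Q₁ * ℓ) (K * Q₁ * ℓ) κ₀ E a) {y k : Site d} (hy : sd 0 y = Q₁)
    (hk : sd 0 k ≤ 2 * (K * Q₁) + 1)
    (hA : Real.exp (-(κ₀ * (Q₁ * ℓ) + 4 * (η * (K * Q₁ * ℓ)))) / 2 ≤
      |gr V (box a (K * Q₁ * ℓ)) E a (a + sm ℓ y)|) :
    Real.exp (-(κ₀ * (Q₁ * ℓ) + 7 * (η * (K * Q₁ * ℓ)))) ≤
      |gr V (box (a + sm ℓ k) (K * Q₁ * ℓ)) E (a + sm ℓ k) (a + sm ℓ k + sm ℓ y)| := by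
  obtain ⟨g1, g2, g3, g4, g5, g6⟩ := hG
  push_cast at g2 g3 g4 g5 g6
  have hL1 : 1 ≤ Q₁ * ℓ := Nat.mul_pos hQ hℓ
  have hL2 : 8 * (Q₁ * ℓ) ≤ K * Q₁ * ℓ := by
    rw [mul_assoc K]
    exact Nat.mul_le_mul_right _ hK
  have hQK : Q₁ ≤ K * Q₁ := Nat.le_mul_of_pos_left Q₁ (by omega)
  have hlL : ℓ ≤ Q₁ * ℓ := Nat.le_mul_of_pos_left ℓ hQ
  have hak0 : sd a (a + sm ℓ k) ≤ 2 * (K * Q₁ * ℓ) + ℓ := by
    calc sd a (a + sm ℓ k) ≤ ℓ * sd 0 k := sd_sm ℓ a k
      _ ≤ ℓ * (2 * (K * Q₁) + 1) := Nat.mul_le_mul_left ℓ hk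
      _ = _ := by ring
  obtain ⟨L1, hL1d⟩ : ∃ L1 : ℕ, L1 = Q₁ * ℓ := ⟨_, rfl⟩
  obtain ⟨L2, hL2d⟩ : ∃ L2 : ℕ, L2 = K * Q₁ * ℓ := ⟨_, rfl⟩
  have hL1r : (L1 : ℝ) = Q₁ * ℓ := by rw [hL1d]; push_cast; ring
  have hL2r : (L2 : ℝ) = K * Q₁ * ℓ := by rw [hL2d]; push_cast; ring
  have hKL : (L2 : ℝ) = K * L1 := by rw [hL2r, hL1r]; ring
  rw [← hL1r] at hL₀
  rw [← hL1d] at hL1 hL2 hloc hlL
  rw [← hL2d] at hL2 hloc hA ⊢ hak0
  rw [← hL1r, ← hL2r] at hA ⊢
  rw [← hL2r, ← hL2d] at g2 g3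
  rw [← hL2r] at g4 g5 g6
  have hL1R : (1 : ℝ) ≤ L1 := by exact_mod_cast hL1
  have haa : ∀ {n : ℕ}, a ∈ box a n := fun {n} => mem_box.2 (by rw [sd_self]; omega)
  have h16' : 16 * (η * L2) ≤ L1 := by
    rw [hKL]
    have : 16 * η * K * L1 ≤ 1 * L1 := mul_le_mul_of_nonneg_right h16 (Nat.cast_nonneg L1)
    linarith only [this]
  have h8 : 8 ≤ η * L2 := by
    rw [hKL]
    have hK' : (8 : ℝ) ≤ K := by exact_mod_cast hK
    have := mul_le_mul hK' hL₀ zero_le_one (Nat.cast_nonneg K)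
    linarith only [this]
  have hL1big : (128 : ℝ) ≤ L1 := by linarith only [h16', h8]
  have hsm : ∀ b : Site d, sd b (b + sm ℓ y) ≤ L1 := by
    intro b
    have h1 := sd_sm ℓ b y
    rw [hy] at h1
    rw [hL1d, mul_comm Q₁]
    exact h1
  have e4 : Real.exp (-(η * L2)) ≤ 1 / 4 := by
    have h1 : Real.exp (-(η * (L2 : ℝ))) ≤ Real.exp (-3) := Real.exp_le_exp.2 (by linarith only [h8])
    have h2 : (4 : ℝ) ≤ Real.exp 3 := by
      have := Real.add_one_le_exp (3 : ℝ)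
      linarith only [this]
    have h3 : Real.exp (-3) * Real.exp 3 = 1 := by rw [← Real.exp_add]; simp
    have h5 := mul_le_mul_of_nonneg_left h2 (Real.exp_pos (-3 : ℝ)).le
    linarith only [h1, h3, h5]
  -- at `a`
  have hl := hloc a (a + sm ℓ y) (by rw [sd_self]; omega) (hsm a)
  have hy12 : a + sm ℓ y ∈ box a (12 * L2) := mem_box.2 (by have := hsm a; omega)
  have hX : Real.exp (-(κ₀ + 1) * L1) ≤ Real.exp (-(κ₀ * L1 + 4 * (η * L2))) * (1 / 4) := by
    calc Real.exp (-(κ₀ + 1) * L1) ≤ Real.exp (-(κ₀ * L1 + 4 * (η * L2)) + -(η * L2)) :=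
          Real.exp_le_exp.2 (by linarith only [h16', h8])
      _ = Real.exp (-(κ₀ * L1 + 4 * (η * L2))) * Real.exp (-(η * L2)) := Real.exp_add _ _
      _ ≤ _ := mul_le_mul_of_nonneg_left e4 (Real.exp_pos _).le
  have hgN : Real.exp (-(κ₀ * L1 + 5 * (η * L2))) ≤ |gr V (box 0 N) E a (a + sm ℓ y)| := by
    have h2 := abs_sub_abs_le_abs_sub (gr V (box a L2) E a (a + sm ℓ y))
      (gr V (box 0 N) E a (a + sm ℓ y))
    rw [abs_sub_comm] at hl
    have h3 : Real.exp (-(κ₀ * L1 + 5 * (η * L2))) ≤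
        Real.exp (-(κ₀ * L1 + 4 * (η * L2))) * (1 / 4) := by
      calc Real.exp (-(κ₀ * L1 + 5 * (η * L2))) =
          Real.exp (-(κ₀ * L1 + 4 * (η * L2))) * Real.exp (-(η * L2)) := by
            rw [← Real.exp_add]
            congr 1
            ring
        _ ≤ _ := mul_le_mul_of_nonneg_left e4 (Real.exp_pos _).le
    have h4 := Real.exp_pos (-(κ₀ * (L1 : ℝ) + 4 * (η * L2)))
    linarith only [hA, hl, hX, h2, h3, h4]
  have hD1 := DL_of_gr hgN
  have hD2 := g5 k (mem_box.2 (by omega)) y (mem_box.2 (by omega))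
  have hD3 : DL (box 0 N) E V (a + sm ℓ k) (a + sm ℓ k + sm ℓ y) ≤
      κ₀ * L1 + 6 * (η * L2) := by
    have := (abs_le.1 hD2).1
    linarith only [hD1, this]
  have hsk := hsm (a + sm ℓ k)
  have htri := sd_triangle a (a + sm ℓ k) (a + sm ℓ k + sm ℓ y)
  have hb12 : a + sm ℓ k ∈ box a (12 * L2) := mem_box.2 (by omega)
  have hby12 : a + sm ℓ k + sm ℓ y ∈ box a (12 * L2) := mem_box.2 (by omega)
  have hgN2 := gr_of_DL (g2 _ hb12 _ hby12).1 hD3
  have hl2 := hloc (a + sm ℓ k) (a + sm ℓ k + sm ℓ y) (by omega) hsk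
  have h2 := abs_sub_abs_le_abs_sub (gr V (box 0 N) E (a + sm ℓ k) (a + sm ℓ k + sm ℓ y))
    (gr V (box (a + sm ℓ k) L2) E (a + sm ℓ k) (a + sm ℓ k + sm ℓ y))
  have hX6 : Real.exp (-(κ₀ + 1) * L1) ≤ Real.exp (-(κ₀ * L1 + 6 * (η * L2))) :=
    Real.exp_le_exp.2 (by linarith only [h16', h8])
  have h7 : Real.exp (-(κ₀ * L1 + 7 * (η * L2))) ≤
      Real.exp (-(κ₀ * L1 + 6 * (η * L2))) * (1 / 4) := by
    calc Real.exp (-(κ₀ * L1 + 7 * (η * L2))) =
        Real.exp (-(κ₀ * L1 + 6 * (η * L2))) * Real.exp (-(η * L2)) := by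
          rw [← Real.exp_add]
          congr 1
          ring
      _ ≤ _ := mul_le_mul_of_nonneg_left e4 (Real.exp_pos _).le
  have h6 := Real.exp_pos (-(κ₀ * L1 + 6 * (η * L2)))
  linarith only [hgN2, hl2, h2, hX6, h7, h6]

/-! ### probability -/

theorem measurable_lt (Λ : Finset (Site d)) (E c : ℝ) (x y : Site d) :
    MeasurableSet {V : Site d → ℝ | |gr V Λ E x y| < c} :=
  measurableSet_lt (measurable_gr _ _ _ _).abs measurable_const

theorem measurable_ge (Λ : Finset (Site d)) (E c : ℝ) (x y : Site d) :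
    MeasurableSet {V : Site d → ℝ | c ≤ |gr V Λ E x y|} :=
  measurableSet_le measurable_const (measurable_gr _ _ _ _).abs

theorem shift_lt (ν : Measure ℝ) [IsProbabilityMeasure ν] (b w : Site d) (L : ℕ) (E c : ℝ) :
    PP d ν {V : Site d → ℝ | |gr V (box b L) E b (b + w)| < c} =
      PP d ν {V : Site d → ℝ | |gr V (box 0 L) E 0 w| < c} := by
  rw [← (shiftInv_PP ν b).measure_preimage (measurable_lt (box 0 L) E c 0 w).nullMeasurableSet]
  refine congrArg (fun s => PP d ν s) (Set.ext fun V => ?_)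
  have h := H42.gr_tau V b (Λ := box b L) (Λ' := box 0 L) (fun z => by
    have := H42.mem_box_add 0 b L z
    rwa [zero_add] at this) E 0 w
  rw [Set.mem_preimage, Set.mem_ofPred_eq, Set.mem_ofPred_eq, h, zero_add, add_comm w b]

theorem shift_sg (ν : Measure ℝ) [IsProbabilityMeasure ν] (b : Site d) (L : ℕ) (m E : ℝ) :
    PP d ν {V : Site d → ℝ | SG V L m E b} = PP d ν {V : Site d → ℝ | SG V L m E 0} := by
  rw [← (shiftInv_PP ν b).measure_preimage (H3A.measurableSet_sg L m E 0).nullMeasurableSet]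
  refine congrArg (fun s => PP d ν s) (Set.ext fun V => ?_)
  have := H3A.sg_tau V b 0 L m E
  rw [zero_add] at this
  rw [Set.mem_preimage, Set.mem_ofPred_eq, Set.mem_ofPred_eq, this]

theorem shift_nsg (ν : Measure ℝ) [IsProbabilityMeasure ν] (b : Site d) (L : ℕ) (m E : ℝ) :
    PP d ν {V : Site d → ℝ | ¬ SG V L m E b} = PP d ν {V : Site d → ℝ | ¬ SG V L m E 0} := by
  have hm : MeasurableSet {V : Site d → ℝ | ¬ SG V L m E 0} := (H3A.measurableSet_sg L m E 0).compl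
  rw [← (shiftInv_PP ν b).measure_preimage hm.nullMeasurableSet]
  refine congrArg (fun s => PP d ν s) (Set.ext fun V => ?_)
  have := H3A.sg_tau V b 0 L m E
  rw [zero_add] at this
  rw [Set.mem_preimage, Set.mem_ofPred_eq, Set.mem_ofPred_eq, this]

theorem real_of_le {ν : Measure ℝ} [IsProbabilityMeasure ν] {S : Set (Site d → ℝ)} {p : ℝ}
    (hp : 0 ≤ p) (h : PP d ν S ≤ ENNReal.ofReal p) : (PP d ν).real S ≤ p := by
  unfold Measure.real
  exact ENNReal.toReal_le_of_le_ofReal hp h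

/-- UPD -/
theorem upd (upa : UpaStmt) (lox : LoxStmt) : UpdStmt := by
  intro d η κ' κ₀ K hd hη hκ' hκ₀ hK h24 h16 hKκ
  have : NeZero d := ⟨by omega⟩
  obtain ⟨L₁, hupa⟩ := upa d η κ' K hd hη hκ' hK h24
  obtain ⟨L₂, hlox⟩ := lox d η κ' κ₀ K hd hη hκ' hκ₀ hK h24 hKκ
  obtain ⟨L₃, _, hbig⟩ := big d η hη
  refine ⟨L₁ + L₂ + L₃ + ⌈1 / η⌉₊, ?_⟩
  intro σ E p N Q₁ ℓ a hσ hp hp8 hQ hℓ hL hsub H1 H2 H3
  have hL1 : 1 ≤ Q₁ * ℓ := Nat.mul_pos hQ hℓ
  have hL2 : 8 * (Q₁ * ℓ) ≤ K * Q₁ * ℓ := by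
    rw [mul_assoc K]
    exact Nat.mul_le_mul_right _ hK
  have hηL : 1 ≤ η * (Q₁ * ℓ) := by
    have h1 : (⌈1 / η⌉₊ : ℝ) ≤ Q₁ * ℓ := by
      exact_mod_cast (by omega : ⌈1 / η⌉₊ ≤ Q₁ * ℓ)
    have h2 := (Nat.le_ceil (1 / η)).trans h1
    rw [div_le_iff₀ hη] at h2
    linarith only [h2]
  have e : K * (Q₁ * ℓ) = K * Q₁ * ℓ := (mul_assoc K Q₁ ℓ).symm
  have hloc : ∀ V : Site d → ℝ, GoodU V N (K * Q₁) ℓ a E η → SG V (Q₁ * ℓ) κ' E a →
      LocAt V N (Q₁ * ℓ) (K * Q₁ * ℓ) κ₀ E a := by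
    intro V hG hS b x hb hx
    have h1 := hlox V N (Q₁ * ℓ) b x E (by omega) (by
      rw [e]
      refine Finset.Subset.trans (fun z hz => ?_) hsub
      rw [mem_box] at hz ⊢
      have := sd_triangle a b z
      omega) hG.1 (by
      rw [e]
      exact hupa V N Q₁ ℓ a E hQ hℓ (by omega) hsub hG hS b (mem_box.2 (by omega)))
      (mem_box.2 hx) (by
      intro z hz
      have hz' : z ∈ box a (12 * (K * Q₁ * ℓ)) := by
        rw [mem_box]
        have := sd_triangle a b z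
        rw [hz, e] at this
        omega
      have hx' : x ∈ box a (12 * (K * Q₁ * ℓ)) := by
        rw [mem_box]
        have := sd_triangle a b x
        omega
      refine (hG.2.1 z hz' x hx').2.trans (le_of_eq ?_)
      push_cast
      congr 1
      ring)
    rw [e] at h1
    exact h1
  -- the good set
  obtain ⟨P, hP⟩ : ∃ P : Measure (Site d → ℝ), P = PP d (gl σ) := ⟨_, rfl⟩
  have hPprob : IsProbabilityMeasure P := by
    rw [hP]
    infer_instance
  have hGA : P {V : Site d → ℝ | ¬ (GoodU V N (K * Q₁) ℓ a E η ∧ SG V (Q₁ * ℓ) κ' E a)} ≤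
      ENNReal.ofReal (2 * p) := by
    calc P {V : Site d → ℝ | ¬ (GoodU V N (K * Q₁) ℓ a E η ∧ SG V (Q₁ * ℓ) κ' E a)} ≤
        P ({V | ¬ GoodU V N (K * Q₁) ℓ a E η} ∪ {V | ¬ SG V (Q₁ * ℓ) κ' E a}) := by
          apply measure_mono
          intro V hV
          by_cases h1 : GoodU V N (K * Q₁) ℓ a E η
          · exact Or.inr fun h2 => hV ⟨h1, h2⟩
          · exact Or.inl h1
      _ ≤ _ := measure_union_le _ _
      _ ≤ ENNReal.ofReal p + ENNReal.ofReal p := by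
          apply add_le_add
          · rw [hP]
            exact H1
          · rw [hP, shift_nsg]
            exact H2
      _ = ENNReal.ofReal (2 * p) := by
          rw [← ENNReal.ofReal_add hp hp]
          congr 1
          ring
  constructor
  · intro b
    rw [shift_nsg (gl σ) b, ← shift_nsg (gl σ) a, ← hP]
    refine (measure_mono ?_).trans hGA
    intro V hV hV'
    exact hV (hupa V N Q₁ ℓ a E hQ hℓ (by omega) hsub hV'.1 hV'.2 a
      (mem_box.2 (by rw [sd_self]; omega)))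
  -- pigeonhole
  obtain ⟨c, hc⟩ : ∃ c : ℝ, c = Real.exp (-(κ₀ * (Q₁ * ℓ) + 4 * (η * (K * Q₁ * ℓ)))) / 2 :=
    ⟨_, rfl⟩
  obtain ⟨F, hF⟩ : ∃ F : Finset (Site d), F = (box (0 : Site d) Q₁).filter
    (fun y => sd 0 y = Q₁) := ⟨_, rfl⟩
  have hcov : (Set.univ : Set (Site d → ℝ)) ⊆
      ({V : Site d → ℝ | ¬ (GoodU V N (K * Q₁) ℓ a E η ∧ SG V (Q₁ * ℓ) κ' E a)} ∪
        {V | SG V (Q₁ * ℓ) κ₀ E a}) ∪
        ⋃ y ∈ F, {V | c ≤ |gr V (box a (K * Q₁ * ℓ)) E a (a + sm ℓ y)|} := by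
    intro V _
    by_cases h1 : GoodU V N (K * Q₁) ℓ a E η ∧ SG V (Q₁ * ℓ) κ' E a
    · by_cases h2 : SG V (Q₁ * ℓ) κ₀ E a
      · exact Or.inl (Or.inr h2)
      · right
        obtain ⟨y, hy, hyg⟩ := step1 (L₀ := L₃) hη hK h16 hbig hQ hℓ (by omega) hsub h1.1 h1.2
          (hloc V h1.1 h1.2) h2
        rw [Set.mem_iUnion₂]
        refine ⟨y, ?_, ?_⟩
        · rw [hF, Finset.mem_filter, mem_box]
          exact ⟨hy.le, hy⟩
        · rw [Set.mem_ofPred_eq, hc]
          exact hyg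
    · exact Or.inl (Or.inl h1)
  have hsum : 1 / 2 ≤ ∑ y ∈ F,
      P.real {V | c ≤ |gr V (box a (K * Q₁ * ℓ)) E a (a + sm ℓ y)|} := by
    have h1 : (1 : ℝ) ≤ P.real ({V : Site d → ℝ | ¬ (GoodU V N (K * Q₁) ℓ a E η ∧
        SG V (Q₁ * ℓ) κ' E a)} ∪ {V | SG V (Q₁ * ℓ) κ₀ E a}) +
        P.real (⋃ y ∈ F, {V | c ≤ |gr V (box a (K * Q₁ * ℓ)) E a (a + sm ℓ y)|}) := by
      calc (1 : ℝ) = P.real Set.univ := by simp
        _ ≤ _ := measureReal_mono hcov
        _ ≤ _ := measureReal_union_le _ _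
    have h2 := measureReal_union_le (μ := P) {V : Site d → ℝ | ¬ (GoodU V N (K * Q₁) ℓ a E η ∧
        SG V (Q₁ * ℓ) κ' E a)} {V | SG V (Q₁ * ℓ) κ₀ E a}
    have h3 := measureReal_biUnion_finset_le (μ := P) F
      (fun y => {V : Site d → ℝ | c ≤ |gr V (box a (K * Q₁ * ℓ)) E a (a + sm ℓ y)|})
    have h4 : P.real {V : Site d → ℝ | ¬ (GoodU V N (K * Q₁) ℓ a E η ∧
        SG V (Q₁ * ℓ) κ' E a)} ≤ 2 * p := by
      rw [hP] at hGA ⊢
      exact real_of_le (by linarith only [hp]) hGA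
    have h5 : P.real {V : Site d → ℝ | SG V (Q₁ * ℓ) κ₀ E a} ≤ 1 / 4 := by
      rw [hP]
      apply real_of_le (by norm_num)
      rw [shift_sg]
      exact H3
    linarith only [hp8, h1, h2, h3, h4, h5]
  have hFne : F.Nonempty := by
    rw [Finset.nonempty_iff_ne_empty]
    intro h
    rw [h, Finset.sum_empty] at hsum
    norm_num at hsum
  have hcard : (F.card : ℝ) ≤ (2 * Q₁ + 1) ^ d := by
    have h1 : F.card ≤ (box (0 : Site d) Q₁).card := by
      rw [hF]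
      exact Finset.card_filter_le _ _
    rw [card_box] at h1
    exact_mod_cast h1
  have hFc : (0 : ℝ) < F.card := by exact_mod_cast Finset.card_pos.2 hFne
  obtain ⟨y, hyF, hyP⟩ := Finset.exists_le_of_sum_le hFne (f := fun _ => 1 / (2 * (F.card : ℝ)))
    (g := fun y => P.real {V | c ≤ |gr V (box a (K * Q₁ * ℓ)) E a (a + sm ℓ y)|}) (by
      rw [Finset.sum_const, nsmul_eq_mul]
      refine le_trans (le_of_eq ?_) hsum
      field_simp)
  have hy : sd 0 y = Q₁ := by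
    rw [hF, Finset.mem_filter] at hyF
    exact hyF.2
  refine ⟨y, hy, fun b => ?_⟩
  -- the second base point
  obtain ⟨i₀, _⟩ : ∃ i : Fin d, i = ⟨0, hd⟩ := ⟨_, rfl⟩
  obtain ⟨k, hk⟩ : ∃ k : Site d, k = (Pi.single i₀ (2 * (K * Q₁) + 1 : ℤ) : Site d) := ⟨_, rfl⟩
  have hk1 : sd 0 k ≤ 2 * (K * Q₁) + 1 := by
    rw [sd_le_iff]
    intro i
    rw [hk]
    push_cast
    by_cases hi : i = i₀
    · subst hi
      rw [Pi.single_eq_same, Pi.zero_apply, zero_sub, abs_neg, abs_of_nonneg (by positivity)]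
    · rw [Pi.single_eq_of_ne hi]
      simp only [Pi.zero_apply, sub_zero, abs_zero]
      positivity
  have hk2 : 2 * (K * Q₁) + 1 ≤ sd 0 k := by
    have h := sd_le_iff.1 (le_refl (sd (0 : Site d) k)) i₀
    rw [hk, Pi.single_eq_same, Pi.zero_apply, zero_sub, abs_neg, abs_of_nonneg (by positivity),
      ← hk] at h
    exact_mod_cast h
  have hab : 2 * (K * Q₁ * ℓ) < sd a (a + sm ℓ k) := by
    rw [sd_sm_eq]
    calc 2 * (K * Q₁ * ℓ) < ℓ * (2 * (K * Q₁) + 1) := by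
          have : ℓ * (2 * (K * Q₁) + 1) = 2 * (K * Q₁ * ℓ) + ℓ := by ring
          omega
      _ ≤ _ := Nat.mul_le_mul_left ℓ hk2
  have hdisj : Disjoint (box a (K * Q₁ * ℓ)) (box (a + sm ℓ k) (K * Q₁ * ℓ)) := by
    rw [Finset.disjoint_left]
    intro z hz1 hz2
    rw [mem_box] at hz1 hz2
    have := sd_triangle a z (a + sm ℓ k)
    rw [sd_comm z (a + sm ℓ k)] at this
    omega
  obtain ⟨B, hB⟩ : ∃ B : Set (Site d → ℝ), B = {V : Site d → ℝ |
    |gr V (box (a + sm ℓ k) (K * Q₁ * ℓ)) E (a + sm ℓ k) (a + sm ℓ k + sm ℓ y)| <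
      Real.exp (-(κ₀ + 7 * η * K) * (Q₁ * ℓ))} := ⟨_, rfl⟩
  obtain ⟨A, hA⟩ : ∃ A : Set (Site d → ℝ), A = {V : Site d → ℝ |
    c ≤ |gr V (box a (K * Q₁ * ℓ)) E a (a + sm ℓ y)|} := ⟨_, rfl⟩
  have hind : P (A ∩ B) = P A * P B := by
    rw [hP]
    refine H6.PP_inter (gl σ) hdisj ?_ ?_ ?_ ?_
    · rw [hA]
      exact measurable_ge _ _ _ _ _
    · rw [hB]
      exact measurable_lt _ _ _ _ _
    · intro W W' h
      rw [hA, Set.mem_ofPred_eq, Set.mem_ofPred_eq, gr_congr h]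
    · intro W W' h
      rw [hB, Set.mem_ofPred_eq, Set.mem_ofPred_eq, gr_congr h]
  have hABsub : A ∩ B ⊆ {V : Site d → ℝ | ¬ (GoodU V N (K * Q₁) ℓ a E η ∧
      SG V (Q₁ * ℓ) κ' E a)} := by
    rintro V ⟨hVA, hVB⟩ hgood
    rw [hA, Set.mem_ofPred_eq, hc] at hVA
    rw [hB, Set.mem_ofPred_eq] at hVB
    have h1 := step2 hη hK h16 hQ hℓ hηL hgood.1 (hloc V hgood.1 hgood.2) hy hk1 hVA
    have h2 : -(κ₀ + 7 * η * K) * ((Q₁ : ℝ) * ℓ) =
        -(κ₀ * (Q₁ * ℓ) + 7 * (η * (K * Q₁ * ℓ))) := by ring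
    rw [h2] at hVB
    exact absurd hVB (not_lt.2 h1)
  have hreal : P.real A * P.real B ≤ 2 * p := by
    have h1 : P.real (A ∩ B) ≤ 2 * p := by
      have h2 := (measure_mono hABsub).trans hGA
      rw [hP] at h2 ⊢
      exact real_of_le (by linarith only [hp]) h2
    have h3 : P.real (A ∩ B) = P.real A * P.real B := by
      unfold Measure.real
      rw [hind, ENNReal.toReal_mul]
    rwa [h3] at h1
  have hn : (0 : ℝ) < (2 * Q₁ + 1) ^ d := by positivity
  have hA1 : 1 / (2 * (2 * (Q₁ : ℝ) + 1) ^ d) ≤ P.real A := by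
    rw [hA]
    refine le_trans ?_ hyP
    exact one_div_le_one_div_of_le (by positivity) (by linarith only [hcard])
  have hB1 : P.real B ≤ 4 * (2 * (Q₁ : ℝ) + 1) ^ d * p := by
    have h1 : 1 / (2 * (2 * (Q₁ : ℝ) + 1) ^ d) * P.real B ≤ 2 * p :=
      (mul_le_mul_of_nonneg_right hA1 measureReal_nonneg).trans hreal
    rw [one_div, inv_mul_le_iff₀ (by positivity)] at h1
    linarith only [h1]
  have hB2 : P B ≤ ENNReal.ofReal (4 * (2 * (Q₁ : ℝ) + 1) ^ d * p) := by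
    rw [← ofReal_measureReal (μ := P) (s := B)]
    exact ENNReal.ofReal_le_ofReal hB1
  rw [shift_lt (gl σ) b, ← shift_lt (gl σ) (a + sm ℓ k), ← hP, ← hB]
  exact hB2

end Pool.Agent.LE.H17C
end
end -- Pool.Agent.Helper17_LEC.UPD

section -- Pool.Agent.Helper96_LEC.Cnt

/-!
# CNT: the counting lemma of the Besicovitch step
-/

set_option autoImplicit false

open Finset

noncomputable section

namespace Pool.Agent.LE.H96C

open Pool.Agent.Anderson Pool.Agent.Loc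

variable {d : ℕ}

theorem sd_pt (a k k' : Site d) (s : ℕ) :
    sd (a + sm s k) (a + sm s k') = s * sd k k' := by
  apply le_antisymm
  · rw [sd_le_iff]
    intro i
    have h : |k i - k' i| ≤ (sd k k' : ℕ) := sd_le_iff.1 le_rfl i
    have e : (a + sm s k) i - (a + sm s k') i = (s : ℤ) * (k i - k' i) := by
      simp only [Pi.add_apply, sm]
      ring
    rw [e, abs_mul, Nat.abs_cast]
    push_cast
    exact mul_le_mul_of_nonneg_left h (by positivity)
  · rcases Nat.eq_zero_or_pos s with h0 | hs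
    · subst h0
      simp
    · rw [mul_comm, ← Nat.le_div_iff_mul_le hs, sd_le_iff]
      intro i
      have h : |(a + sm s k) i - (a + sm s k') i| ≤ (sd (a + sm s k) (a + sm s k') : ℕ) :=
        sd_le_iff.1 le_rfl i
      have e : (a + sm s k) i - (a + sm s k') i = (s : ℤ) * (k i - k' i) := by
        simp only [Pi.add_apply, sm]
        ring
      rw [e, abs_mul, Nat.abs_cast] at h
      push_cast
      rw [Int.le_ediv_iff_mul_le (by exact_mod_cast hs)]
      linarith only [mul_comm (s : ℤ) |k i - k' i|, h]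

theorem sd_a_pt (a k : Site d) (s : ℕ) : sd a (a + sm s k) = s * sd 0 k := by
  have h := sd_pt a 0 k s
  have e : a + sm s (0 : Site d) = a := by
    funext i
    simp [sm]
  rwa [e] at h

/-- the mesh point near `v` -/
def near (a : Site d) (s : ℕ) (v : Site d) : Site d := fun i => (v i - a i) / (s : ℤ)

theorem sd_near (a v : Site d) {s : ℕ} (hs : 1 ≤ s) : sd (a + sm s (near a s v)) v ≤ s := by
  rw [sd_le_iff]
  intro i
  have hs' : (0 : ℤ) < s := by exact_mod_cast hs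
  have h1 := Int.emod_nonneg (v i - a i) hs'.ne'
  have h2 := Int.emod_lt_of_pos (v i - a i) hs'
  have h3 := Int.emod_add_mul_ediv (v i - a i) (s : ℤ)
  simp only [Pi.add_apply, sm, near]
  rw [abs_le]
  constructor <;> linarith

/-- integers in an interval -/
theorem card_int (S : Finset ℕ) (w A r : ℝ) (hw : 0 < w)
    (h : ∀ x ∈ S, |w * x - A| ≤ r) (hr : 0 ≤ r) : (S.card : ℝ) ≤ 2 * r / w + 1 := by
  rcases S.eq_empty_or_nonempty with h0 | h0
  · subst h0
    simp only [card_empty, Nat.cast_zero]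
    positivity
  · have h1 := h _ (S.min'_mem h0)
    have h2 := h _ (S.max'_mem h0)
    have h3 : S ⊆ Finset.Icc (S.min' h0) (S.max' h0) := by
      intro x hx
      rw [Finset.mem_Icc]
      exact ⟨S.min'_le x hx, S.le_max' x hx⟩
    have h4 := card_le_card h3
    rw [Nat.card_Icc] at h4
    have h5 : S.min' h0 ≤ S.max' h0 := S.min'_le _ (S.max'_mem h0)
    have h6 : (S.card : ℝ) ≤ (S.max' h0 : ℝ) - S.min' h0 + 1 := by
      have : S.card + S.min' h0 ≤ S.max' h0 + 1 := by omega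
      have : (S.card : ℝ) + S.min' h0 ≤ S.max' h0 + 1 := by exact_mod_cast this
      linarith only [h0, this]
    have h7 : w * ((S.max' h0 : ℝ) - S.min' h0) ≤ 2 * r := by
      rw [abs_le] at h1 h2
      nlinarith only [h1.1, h2.2]
    have h8 : ((S.max' h0 : ℝ) - S.min' h0) ≤ 2 * r / w := by
      rw [le_div_iff₀ hw]
      linarith only [h0, h7]
    linarith only [h0, h6, h8]

/-- the target values -/
theorem fiber_card {m : ℕ} (F : Fin d → ℝ) (w r : ℝ) (hw : 0 < w) (hr : 0 ≤ r)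
    (S : Finset (Fin d → ℕ)) (hS : ∀ κ ∈ S, (∀ i, κ i ∈ Finset.Icc 1 m) ∧
      ∀ i, |w * (κ i : ℝ) - F i| ≤ r) : (S.card : ℝ) ≤ (2 * r / w + 1) ^ d := by
  classical
  have h1 : S ⊆ Fintype.piFinset fun i =>
      (Finset.Icc 1 m).filter fun x : ℕ => |w * (x : ℝ) - F i| ≤ r := by
    intro κ hκ
    rw [Fintype.mem_piFinset]
    intro i
    rw [Finset.mem_filter]
    exact ⟨(hS κ hκ).1 i, (hS κ hκ).2 i⟩
  have h2 := card_le_card h1
  rw [Fintype.card_piFinset] at h2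
  calc (S.card : ℝ) ≤ ((∏ i : Fin d, ((Finset.Icc 1 m).filter fun x : ℕ =>
        |w * (x : ℝ) - F i| ≤ r).card : ℕ) : ℝ) := by exact_mod_cast h2
    _ = ∏ i : Fin d, (((Finset.Icc 1 m).filter fun x : ℕ =>
        |w * (x : ℝ) - F i| ≤ r).card : ℝ) := by push_cast; rfl
    _ ≤ ∏ _i : Fin d, (2 * r / w + 1) := by
        refine Finset.prod_le_prod (fun i _ => by positivity) fun i _ => ?_
        exact card_int _ w (F i) r hw (fun x hx => (Finset.mem_filter.1 hx).2) hr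
    _ = (2 * r / w + 1) ^ d := by simp

/-- the face distance -/
theorem exists_face (D : Site d → Site d → ℝ) (a : Site d) (s n W : ℕ) (t h : ℝ)
    (hn : n ≤ W)
    (hsym : ∀ x y, D x y = D y x)
    (htri : ∀ x ∈ box a (s * W), ∀ u ∈ box a (s * W), ∀ y ∈ box a (s * W),
      D x y ≤ D x u + D u y + t)
    (hdiag : ∀ k ∈ box (0 : Site d) n, D (a + sm s k) (a + sm s k) ≤ t)
    (hface : ∀ k ∈ box (0 : Site d) n, ∀ k' ∈ box (0 : Site d) n, ∀ i, k i = -(n : ℤ) →
      k' i = (n : ℤ) → h ≤ D (a + sm s k) (a + sm s k')) :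
    ∃ f : Site d → Fin d → ℝ,
      (∀ x ∈ box a (s * W), ∀ y ∈ box a (s * W), ∀ i, |f x i - f y i| ≤ D x y + t) ∧
      (∀ k ∈ box (0 : Site d) n, ∀ i, k i = -(n : ℤ) → f (a + sm s k) i ≤ t) ∧
      (∀ k ∈ box (0 : Site d) n, ∀ i, k i = (n : ℤ) → h ≤ f (a + sm s k) i) := by
  classical
  have hne : ∀ i : Fin d, ((box (0 : Site d) n).filter fun k => k i = -(n : ℤ)).Nonempty := by
    intro i
    refine ⟨fun _ => -(n : ℤ), ?_⟩
    rw [Finset.mem_filter, mem_box, sd_le_iff]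
    refine ⟨fun j => ?_, rfl⟩
    simp
  have hbig : ∀ k ∈ box (0 : Site d) n, a + sm s k ∈ box a (s * W) := by
    intro k hk
    rw [mem_box, sd_a_pt]
    exact Nat.mul_le_mul_left s ((mem_box.1 hk).trans hn)
  refine ⟨fun x i => ((box (0 : Site d) n).filter fun k => k i = -(n : ℤ)).inf' (hne i)
    fun k => D (a + sm s k) x, ?_, ?_, ?_⟩
  · have key : ∀ x ∈ box a (s * W), ∀ y ∈ box a (s * W), ∀ i,
        ((box (0 : Site d) n).filter fun k => k i = -(n : ℤ)).inf' (hne i)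
          (fun k => D (a + sm s k) x) ≤
        ((box (0 : Site d) n).filter fun k => k i = -(n : ℤ)).inf' (hne i)
          (fun k => D (a + sm s k) y) + (D x y + t) := by
      intro x hx y hy i
      obtain ⟨k, hk, e⟩ := Finset.exists_mem_eq_inf' (hne i) (fun k => D (a + sm s k) y)
      rw [e]
      refine (Finset.inf'_le _ hk).trans ?_
      have h1 := htri _ (hbig k (Finset.mem_filter.1 hk).1) y hy x hx
      rw [hsym y x] at h1
      linarith
    intro x hx y hy i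
    have h1 := key x hx y hy i
    have h2 := key y hy x hx i
    rw [hsym y x] at h2
    rw [abs_le]
    constructor <;> linarith
  · intro k hk i hi
    refine (Finset.inf'_le _ (Finset.mem_filter.2 ⟨hk, hi⟩)).trans ?_
    exact hdiag k hk
  · intro k hk i hi
    refine Finset.le_inf' _ _ fun k' hk' => ?_
    rw [Finset.mem_filter] at hk'
    exact hface k' hk'.1 k hk i hk'.2 hi

/-- CNT -/
theorem cnt (hDmi : DmiStmt) : CntStmt := by
  classical
  intro d D a s n M m q t h cs c G hd hs hn hM hdq hcs ht hts hmh hsym htri hdiag hface hc0 hc hG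
  obtain ⟨W, hW⟩ : ∃ W, W = n + 4 * M + 3 := ⟨_, rfl⟩
  rw [← hW] at htri hc ⊢
  have hsR : (1 : ℝ) ≤ s := by exact_mod_cast hs
  obtain ⟨f, hf1, hf2, hf3⟩ := exists_face D a s n W t h (by omega) hsym htri hdiag hface
  have hbigW : ∀ k ∈ box (0 : Site d) W, a + sm s k ∈ box a (s * W) := by
    intro k hk
    rw [mem_box, sd_a_pt]
    exact Nat.mul_le_mul_left s (mem_box.1 hk)
  have hnW : ∀ k ∈ box (0 : Site d) n, k ∈ box (0 : Site d) W := by
    intro k hk
    rw [mem_box] at hk ⊢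
    omega
  obtain ⟨w, hwdef⟩ : ∃ w : ℝ, w = 8 * cs * s := ⟨_, rfl⟩
  have hcs0 : 0 < cs := by linarith only [hcs]
  have hw : 0 < w := by rw [hwdef]; positivity
  have hcss : (s : ℝ) ≤ cs * s := by nlinarith only [hcs]
  have hw2 : 2 * (cs * s) + s + 3 * t < w / 2 := by
    rw [hwdef]
    nlinarith only [hts, hsR, hcss]
  obtain ⟨T, hT⟩ : ∃ T : Finset (Fin d → ℕ), T = Fintype.piFinset fun _ => Finset.Icc 1 m :=
    ⟨_, rfl⟩
  have hcardT : T.card = m ^ d := by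
    rw [hT, Fintype.card_piFinset]
    simp
  have hTm : ∀ κ ∈ T, ∀ i, κ i ∈ Finset.Icc 1 m := by
    intro κ hκ
    rw [hT, Fintype.mem_piFinset] at hκ
    exact hκ
  -- the mesh points of the targets
  have hk : ∀ κ ∈ T, ∃ k ∈ box (0 : Site d) n,
      ∀ i, |w * (κ i : ℝ) - f (a + sm s k) i| ≤ c k * s + t := by
    intro κ hκ
    have hκ' := hTm κ hκ
    obtain ⟨k, hk, hk2⟩ := hDmi d n (fun k i => f (a + sm s k) i) t h
      (fun i => w * (κ i : ℝ)) hn hf2 hf3 (fun i => by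
        have h1 := Finset.mem_Icc.1 (hκ' i)
        have h2 : (1 : ℝ) ≤ κ i := by exact_mod_cast h1.1
        have h3 : (κ i : ℝ) ≤ m := by exact_mod_cast h1.2
        constructor
        · have : w ≤ w * κ i := by nlinarith only [hw, h2]
          nlinarith only [hts, hsR, hwdef, hcss, this]
        · have : w * κ i ≤ w * m := mul_le_mul_of_nonneg_left h3 hw.le
          rw [hwdef] at this ⊢
          linarith only [hmh, this])
    refine ⟨k, hk, fun i => ?_⟩
    obtain ⟨k', hk', h1, h2⟩ := hk2 i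
    refine h2.trans ?_
    have h3 := hf1 _ (hbigW k' (hnW k' hk')) _ (hbigW k (hnW k hk)) i
    have h4 := hc k (hnW k hk) (a + sm s k') (by
      rw [mem_box, sd_pt]
      calc s * sd k k' ≤ s * 1 := Nat.mul_le_mul_left s h1
        _ = s := mul_one s)
    rw [hsym] at h3
    linarith only [h3, h4]
  choose! kk hkk1 hkk2 using hk
  have huniq : ∀ (κ κ' : Fin d → ℕ) (F : Fin d → ℝ), (∀ i, |w * (κ i : ℝ) - F i| < w / 2) →
      (∀ i, |w * (κ' i : ℝ) - F i| < w / 2) → κ = κ' := by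
    intro κ κ' F h1 h2
    funext i
    have h3 := abs_lt.1 (h1 i)
    have h4 := abs_lt.1 (h2 i)
    have h5 : w * ((κ i : ℝ) - κ' i) < w * 1 := by linarith only [h3.2, h4.1]
    have h6 : w * ((κ' i : ℝ) - κ i) < w * 1 := by linarith only [h3.1, h4.2]
    have h7 : (κ i : ℝ) < κ' i + 1 := by linarith only [lt_of_mul_lt_mul_left h5 hw.le]
    have h8 : (κ' i : ℝ) < κ i + 1 := by linarith only [lt_of_mul_lt_mul_left h6 hw.le]
    have h9 : κ i < κ' i + 1 := by exact_mod_cast h7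
    have h10 : κ' i < κ i + 1 := by exact_mod_cast h8
    omega
  -- small c: the mesh point determines the target
  have hinj : ∀ κ ∈ T, ∀ κ' ∈ T, c (kk κ) ≤ cs → c (kk κ') ≤ cs → kk κ = kk κ' → κ = κ' := by
    intro κ hκ κ' hκ' h1 h2 h3
    refine huniq κ κ' (fun i => f (a + sm s (kk κ)) i) (fun i => ?_) (fun i => ?_)
    · have h4 := hkk2 κ hκ i
      have h5 : c (kk κ) * s ≤ cs * s := mul_le_mul_of_nonneg_right h1 (by positivity)
      nlinarith only [hts, hsR, hwdef, hcss, h4, h5]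
    · have h4 := hkk2 κ' hκ' i
      rw [← h3] at h4 h2
      have h5 : c (kk κ) * s ≤ cs * s := mul_le_mul_of_nonneg_right h1 (by positivity)
      nlinarith only [hts, hsR, hwdef, hcss, h4, h5]
  -- the partners
  have hpart : ∀ k ∈ G ∩ box (0 : Site d) n, ∀ j ∈ Finset.Icc 1 M, ∃ u : Site d,
      u ∈ box (0 : Site d) W ∧ k ∈ box u (4 * M + 4) ∧
      D (a + sm s k) (a + sm s u) ≤ s + c u * s + t ∧
      4 * j * s ≤ sd (a + sm s k) (a + sm s u) + s ∧
      sd (a + sm s k) (a + sm s u) ≤ 4 * j * s + 1 + s := by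
    intro k hk j hj
    obtain ⟨hkG, hkn⟩ := Finset.mem_inter.1 hk
    obtain ⟨hj1, hj2⟩ := Finset.mem_Icc.1 hj
    obtain ⟨v, hv1, hv2⟩ := hG k hkG j hj1 hj2
    have h1 := sd_near a v hs
    have h2 := sd_triangle (a + sm s k) v (a + sm s (near a s v))
    have h3 := sd_triangle (a + sm s k) (a + sm s (near a s v)) v
    rw [sd_comm v] at h2
    have h4 : sd (a + sm s k) (a + sm s (near a s v)) ≤ 4 * j * s + 1 + s := by omega
    have h5 : 4 * j * s ≤ sd (a + sm s k) (a + sm s (near a s v)) + s := by omega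
    have h6 : sd k (near a s v) ≤ 4 * M + 3 := by
      rw [sd_pt] at h4
      have h7 : 4 * j * s ≤ 4 * M * s := Nat.mul_le_mul_right s (Nat.mul_le_mul_left 4 hj2)
      have h8 : s * sd k (near a s v) < s * (4 * M + 3) + 1 := by
        have : s * (4 * M + 3) = 4 * M * s + 3 * s := by ring
        omega
      exact Nat.le_of_mul_le_mul_left (Nat.lt_succ_iff.1 h8) hs
    have h7 : near a s v ∈ box (0 : Site d) W := by
      rw [mem_box] at hkn ⊢
      have := sd_triangle 0 k (near a s v)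
      omega
    have hvb : v ∈ box a (s * W) := by
      rw [mem_box] at hkn ⊢
      have h8 := sd_triangle a (a + sm s k) v
      rw [sd_a_pt] at h8
      have h9 : s * sd 0 k ≤ s * n := Nat.mul_le_mul_left s hkn
      have h10 : 4 * j * s ≤ 4 * M * s := Nat.mul_le_mul_right s (Nat.mul_le_mul_left 4 hj2)
      have h11 : s * W = s * n + 4 * M * s + 3 * s := by rw [hW]; ring
      omega
    refine ⟨near a s v, h7, ?_, ?_, h5, h4⟩
    · rw [mem_box, sd_comm]
      omega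
    · have h8 := htri _ (hbigW k (hnW k hkn)) v hvb _ (hbigW _ h7)
      have h9 := hc _ h7 v (by rw [mem_box]; exact h1)
      rw [hsym v] at h8
      linarith only [hv2, h8, h9]
  choose! u hu1 hu2 hu3 hu4 hu5 using hpart
  have hdist : ∀ k ∈ G ∩ box (0 : Site d) n, ∀ j ∈ Finset.Icc 1 M, ∀ j' ∈ Finset.Icc 1 M,
      u k j = u k j' → j = j' := by
    have key : ∀ k ∈ G ∩ box (0 : Site d) n, ∀ j ∈ Finset.Icc 1 M, ∀ j' ∈ Finset.Icc 1 M,
        u k j = u k j' → ¬ j < j' := by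
      intro k hk j hj j' hj' he hlt
      have h1 := hu5 k hk j hj
      have h2 := hu4 k hk j' hj'
      rw [← he] at h2
      have h3 : 4 * (j + 1) * s ≤ 4 * j' * s :=
        Nat.mul_le_mul_right s (Nat.mul_le_mul_left 4 hlt)
      have h4 : 4 * (j + 1) * s = 4 * j * s + 4 * s := by ring
      omega
    intro k hk j hj j' hj' he
    rcases lt_trichotomy j j' with h1 | h1 | h1
    · exact absurd h1 (key k hk j hj j' hj' he)
    · exact h1
    · exact absurd h1 (key k hk j' hj' j hj he.symm)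
  -- the four classes
  obtain ⟨Ta, hTa⟩ : ∃ Ta, Ta = T.filter fun κ => cs < c (kk κ) := ⟨_, rfl⟩
  obtain ⟨Tb, hTb⟩ : ∃ Tb, Tb = T.filter fun κ => c (kk κ) ≤ cs ∧ kk κ ∉ G := ⟨_, rfl⟩
  obtain ⟨Tc, hTc⟩ : ∃ Tc, Tc = T.filter fun κ => (c (kk κ) ≤ cs ∧ kk κ ∈ G) ∧
    M ≤ 2 * ((Finset.Icc 1 M).filter fun j => c (u (kk κ) j) ≤ cs).card := ⟨_, rfl⟩
  obtain ⟨Te, hTe⟩ : ∃ Te, Te = T.filter fun κ => (c (kk κ) ≤ cs ∧ kk κ ∈ G) ∧
    M ≤ 2 * ((Finset.Icc 1 M).filter fun j => cs < c (u (kk κ) j)).card := ⟨_, rfl⟩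
  have hsub : T ⊆ Ta ∪ (Tb ∪ (Tc ∪ Te)) := by
    intro κ hκ
    simp only [hTa, hTb, hTc, hTe, Finset.mem_union, Finset.mem_filter]
    by_cases h1 : cs < c (kk κ)
    · exact Or.inl ⟨hκ, h1⟩
    · rw [not_lt] at h1
      by_cases h2 : kk κ ∈ G
      · have h3 : ((Finset.Icc 1 M).filter fun j => c (u (kk κ) j) ≤ cs).card +
            ((Finset.Icc 1 M).filter fun j => ¬ c (u (kk κ) j) ≤ cs).card = M := by
          rw [Finset.card_filter_add_card_filter_not]
          simp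
        have h4 : ((Finset.Icc 1 M).filter fun j => ¬ c (u (kk κ) j) ≤ cs) =
            ((Finset.Icc 1 M).filter fun j => cs < c (u (kk κ) j)) := by
          refine Finset.filter_congr fun j _ => ?_
          rw [not_le]
        rw [h4] at h3
        rcases le_total M (2 * ((Finset.Icc 1 M).filter fun j => c (u (kk κ) j) ≤ cs).card)
          with h5 | h5
        · exact Or.inr (Or.inr (Or.inl ⟨hκ, ⟨h1, h2⟩, h5⟩))
        · exact Or.inr (Or.inr (Or.inr ⟨hκ, ⟨h1, h2⟩, by omega⟩))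
      · exact Or.inr (Or.inl ⟨hκ, h1, h2⟩)
  have hcard : (m : ℝ) ^ d ≤ Ta.card + (Tb.card + (Tc.card + Te.card)) := by
    have h1 := (card_le_card hsub).trans ((card_union_le _ _).trans
      (Nat.add_le_add_left ((card_union_le _ _).trans
        (Nat.add_le_add_left (card_union_le _ _) _)) _))
    rw [hcardT] at h1
    exact_mod_cast h1
  -- numbers
  have hx : ∀ k, 0 ≤ c k / cs := fun k => div_nonneg (hc0 k) hcs0.le
  have hSn : ∑ k ∈ (box (0 : Site d) n).filter (fun k => cs < c k), (c k / cs) ^ q ≤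
      ∑ k ∈ box (0 : Site d) W, (c k / cs) ^ q := by
    refine Finset.sum_le_sum_of_subset_of_nonneg ?_ fun k _ _ => pow_nonneg (hx k) q
    intro k hk
    exact hnW k (Finset.mem_filter.1 hk).1
  have hSW : (((box (0 : Site d) W).filter fun k => cs < c k).card : ℝ) ≤
      ∑ k ∈ box (0 : Site d) W, (c k / cs) ^ q := by
    calc (((box (0 : Site d) W).filter fun k => cs < c k).card : ℝ)
        = ∑ k ∈ (box (0 : Site d) W).filter (fun k => cs < c k), (1 : ℝ) := by simp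
      _ ≤ ∑ k ∈ (box (0 : Site d) W).filter (fun k => cs < c k), (c k / cs) ^ q := by
          refine Finset.sum_le_sum fun k hk => one_le_pow₀ ?_
          rw [one_le_div hcs0]
          exact (Finset.mem_filter.1 hk).2.le
      _ ≤ _ := Finset.sum_le_sum_of_subset_of_nonneg (Finset.filter_subset _ _)
          fun k _ _ => pow_nonneg (hx k) q
  -- (a)
  have hA : (Ta.card : ℝ) ≤ 2 ^ d * ∑ k ∈ box (0 : Site d) W, (c k / cs) ^ q := by
    have hmap : ∀ κ ∈ Ta, kk κ ∈ (box (0 : Site d) n).filter fun k => cs < c k := by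
      intro κ hκ
      rw [hTa, Finset.mem_filter] at hκ
      exact Finset.mem_filter.2 ⟨hkk1 κ hκ.1, hκ.2⟩
    rw [Finset.card_eq_sum_card_fiberwise hmap]
    push_cast
    calc ∑ k ∈ (box (0 : Site d) n).filter (fun k => cs < c k),
          ((Ta.filter fun κ => kk κ = k).card : ℝ)
        ≤ ∑ k ∈ (box (0 : Site d) n).filter (fun k => cs < c k), 2 ^ d * (c k / cs) ^ q := by
          refine Finset.sum_le_sum fun k hk => ?_
          have hck : cs < c k := (Finset.mem_filter.1 hk).2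
          have h0 : 0 ≤ c k * s + t := by
            have := hc0 k
            positivity
          have h1 := fiber_card (m := m) (fun i => f (a + sm s k) i) w (c k * s + t) hw h0
            (Ta.filter fun κ => kk κ = k) (by
              intro κ hκ
              rw [Finset.mem_filter, hTa, Finset.mem_filter] at hκ
              refine ⟨hTm κ hκ.1.1, fun i => ?_⟩
              have h2 := hkk2 κ hκ.1.1 i
              rw [hκ.2] at h2
              exact h2)
          have h2 : 2 * (c k * s + t) / w + 1 ≤ 2 * (c k / cs) := by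
            have h3 : 1 ≤ c k / cs := by
              rw [one_le_div hcs0]
              exact hck.le
            have h4 : 2 * (c k * s + t) / w ≤ (c k / cs) / 4 + 1 / 32 := by
              rw [div_le_iff₀ hw, hwdef]
              have h5 : ((c k / cs) / 4 + 1 / 32) * (8 * cs * s) = 2 * (c k * s) + cs * s / 4 := by
                field_simp
                ring
              rw [h5]
              nlinarith only [hts, hcss]
            linarith only [h3, h4]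
          have h3 : (2 * (c k / cs)) ^ d ≤ 2 ^ d * (c k / cs) ^ q := by
            rw [mul_pow]
            refine mul_le_mul_of_nonneg_left ?_ (by positivity)
            refine pow_le_pow_right₀ ?_ hdq
            rw [one_le_div hcs0]
            exact hck.le
          exact h1.trans ((pow_le_pow_left₀ (by positivity) h2 d).trans h3)
      _ = 2 ^ d * ∑ k ∈ (box (0 : Site d) n).filter (fun k => cs < c k), (c k / cs) ^ q := by
          rw [Finset.mul_sum]
      _ ≤ _ := mul_le_mul_of_nonneg_left hSn (by positivity)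
  -- (b)
  have hB : (Tb.card : ℝ) ≤ ((box (0 : Site d) n) \ G).card := by
    have : Tb.card ≤ ((box (0 : Site d) n) \ G).card := by
      refine Finset.card_le_card_of_injOn kk (fun κ hκ => ?_) (fun κ hκ κ' hκ' he => ?_)
      · rw [hTb, Finset.mem_coe, Finset.mem_filter] at hκ
        rw [Finset.mem_coe, Finset.mem_sdiff]
        exact ⟨hkk1 κ hκ.1, hκ.2.2⟩
      · rw [hTb, Finset.mem_coe, Finset.mem_filter] at hκ hκ'
        exact hinj κ hκ.1 κ' hκ'.1 hκ.2.1 hκ'.2.1 he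
    exact_mod_cast this
  -- (c1)
  have hC : (Tc.card : ℝ) * M ≤ 2 * (2 * W + 1) ^ d := by
    have h1 : Tc.card * M ≤ 2 * (Tc.sigma fun κ =>
        (Finset.Icc 1 M).filter fun j => c (u (kk κ) j) ≤ cs).card := by
      rw [Finset.card_sigma, Finset.mul_sum, Finset.card_eq_sum_ones, Finset.sum_mul]
      refine Finset.sum_le_sum fun κ hκ => ?_
      rw [one_mul]
      rw [hTc, Finset.mem_filter] at hκ
      exact hκ.2.2
    have h2 : (Tc.sigma fun κ =>
        (Finset.Icc 1 M).filter fun j => c (u (kk κ) j) ≤ cs).card ≤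
        (box (0 : Site d) W).card := by
      refine Finset.card_le_card_of_injOn (fun p => u (kk p.1) p.2) (fun p hp => ?_)
        (fun p hp p' hp' he => ?_)
      · rw [Finset.mem_coe, Finset.mem_sigma, hTc, Finset.mem_filter, Finset.mem_filter] at hp
        rw [Finset.mem_coe]
        exact hu1 _ (Finset.mem_inter.2 ⟨hp.1.2.1.2, hkk1 _ hp.1.1⟩) _ hp.2.1
      · rw [Finset.mem_coe, Finset.mem_sigma, hTc, Finset.mem_filter, Finset.mem_filter] at hp hp'
        have hp1 := Finset.mem_inter.2 ⟨hp.1.2.1.2, hkk1 _ hp.1.1⟩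
        have hp1' := Finset.mem_inter.2 ⟨hp'.1.2.1.2, hkk1 _ hp'.1.1⟩
        have hclose : ∀ (κ : Fin d → ℕ) (j : ℕ), κ ∈ T → c (kk κ) ≤ cs →
            kk κ ∈ G ∩ box (0 : Site d) n → j ∈ Finset.Icc 1 M → c (u (kk κ) j) ≤ cs →
            ∀ i, |w * (κ i : ℝ) - f (a + sm s (u (kk κ) j)) i| < w / 2 := by
          intro κ j hκ h3 h4 h5 h6 i
          have h7 := hkk2 κ hκ i
          have h8 := hf1 _ (hbigW _ (hnW _ (hkk1 κ hκ))) _ (hbigW _ (hu1 _ h4 _ h5)) i
          have h9 := hu3 _ h4 _ h5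
          have h10 : c (kk κ) * s ≤ cs * s := mul_le_mul_of_nonneg_right h3 (by positivity)
          have h11 : c (u (kk κ) j) * s ≤ cs * s := mul_le_mul_of_nonneg_right h6 (by positivity)
          have h12 := abs_sub_le (w * (κ i : ℝ)) (f (a + sm s (kk κ)) i)
            (f (a + sm s (u (kk κ) j)) i)
          linarith only [hts, hsR, hwdef, hcss, h7, h8, h9, h10, h11, h12]
        have he' : u (kk p.1) p.2 = u (kk p'.1) p'.2 := he
        have e1 : p.1 = p'.1 := by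
          refine huniq p.1 p'.1 (fun i => f (a + sm s (u (kk p.1) p.2)) i)
            (hclose p.1 p.2 hp.1.1 hp.1.2.1.1 hp1 hp.2.1 hp.2.2) ?_
          intro i
          have h13 := hclose p'.1 p'.2 hp'.1.1 hp'.1.2.1.1 hp1' hp'.2.1 hp'.2.2 i
          rw [← he'] at h13
          exact h13
        rw [← e1] at he'
        have e2 : p.2 = p'.2 := hdist _ hp1 _ hp.2.1 _ hp'.2.1 he'
        exact Sigma.ext e1 (heq_of_eq e2)
    rw [card_box] at h2
    have h3 : Tc.card * M ≤ 2 * (2 * W + 1) ^ d := by omega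
    exact_mod_cast h3
  -- (c2)
  have hE : (Te.card : ℝ) * M ≤ 2 * ((∑ k ∈ box (0 : Site d) W, (c k / cs) ^ q) *
      (8 * M + 9) ^ d) := by
    have h1 : Te.card * M ≤ 2 * (Te.sigma fun κ =>
        (Finset.Icc 1 M).filter fun j => cs < c (u (kk κ) j)).card := by
      rw [Finset.card_sigma, Finset.mul_sum, Finset.card_eq_sum_ones, Finset.sum_mul]
      refine Finset.sum_le_sum fun κ hκ => ?_
      rw [one_mul]
      rw [hTe, Finset.mem_filter] at hκ
      exact hκ.2.2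
    have h2 : (Te.sigma fun κ =>
        (Finset.Icc 1 M).filter fun j => cs < c (u (kk κ) j)).card ≤
        (((box (0 : Site d) W).filter fun k => cs < c k).sigma
          fun k => box k (4 * M + 4)).card := by
      refine Finset.card_le_card_of_injOn
        (fun p => (⟨u (kk p.1) p.2, kk p.1⟩ : (_ : Site d) × Site d)) (fun p hp => ?_)
        (fun p hp p' hp' he => ?_)
      · rw [Finset.mem_coe, Finset.mem_sigma, hTe, Finset.mem_filter, Finset.mem_filter] at hp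
        have hp1 := Finset.mem_inter.2 ⟨hp.1.2.1.2, hkk1 _ hp.1.1⟩
        rw [Finset.mem_coe, Finset.mem_sigma, Finset.mem_filter]
        exact ⟨⟨hu1 _ hp1 _ hp.2.1, hp.2.2⟩, hu2 _ hp1 _ hp.2.1⟩
      · rw [Finset.mem_coe, Finset.mem_sigma, hTe, Finset.mem_filter, Finset.mem_filter] at hp hp'
        have hp1 := Finset.mem_inter.2 ⟨hp.1.2.1.2, hkk1 _ hp.1.1⟩
        simp only [Sigma.mk.injEq, heq_eq_eq] at he
        obtain ⟨he1, he2⟩ := he
        have e1 : p.1 = p'.1 := hinj _ hp.1.1 _ hp'.1.1 hp.1.2.1.1 hp'.1.2.1.1 he2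
        rw [← he2] at he1
        have e2 : p.2 = p'.2 := hdist _ hp1 _ hp.2.1 _ hp'.2.1 he1
        exact Sigma.ext e1 (heq_of_eq e2)
    have h3 : (((box (0 : Site d) W).filter fun k => cs < c k).sigma
          fun k => box k (4 * M + 4)).card =
        ((box (0 : Site d) W).filter fun k => cs < c k).card * (8 * M + 9) ^ d := by
      rw [Finset.card_sigma, Finset.sum_congr rfl fun k _ => card_box k (4 * M + 4),
        Finset.sum_const, smul_eq_mul]
      have : 2 * (4 * M + 4) + 1 = 8 * M + 9 := by ring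
      rw [this]
    rw [h3] at h2
    have h4 : Te.card * M ≤ 2 * (((box (0 : Site d) W).filter fun k => cs < c k).card *
        (8 * M + 9) ^ d) := by omega
    have h5 : (Te.card : ℝ) * M ≤ 2 * ((((box (0 : Site d) W).filter fun k => cs < c k).card : ℝ) *
        (8 * M + 9) ^ d) := by exact_mod_cast h4
    refine h5.trans ?_
    exact mul_le_mul_of_nonneg_left (mul_le_mul_of_nonneg_right hSW (by positivity)) (by norm_num)
  -- end
  have hM0 : (0 : ℝ) < M := by exact_mod_cast hM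
  have hC' : (Tc.card : ℝ) ≤ 2 * (2 * W + 1) ^ d / M := by
    rw [le_div_iff₀ hM0]
    exact hC
  have hE' : (Te.card : ℝ) ≤ 2 * (8 * M + 9) ^ d / M *
      ∑ k ∈ box (0 : Site d) W, (c k / cs) ^ q := by
    have : (Te.card : ℝ) ≤ 2 * ((∑ k ∈ box (0 : Site d) W, (c k / cs) ^ q) *
      (8 * M + 9) ^ d) / M := by
      rw [le_div_iff₀ hM0]
      exact hE
    refine this.trans (le_of_eq ?_)
    ring
  have hWc : ((W : ℕ) : ℝ) = n + 4 * M + 3 := by
    rw [hW]
    push_cast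
    ring
  rw [hWc] at hC'
  calc (m : ℝ) ^ d ≤ Ta.card + (Tb.card + (Tc.card + Te.card)) := hcard
    _ ≤ 2 ^ d * ∑ k ∈ box (0 : Site d) W, (c k / cs) ^ q +
        (((box (0 : Site d) n) \ G).card + (2 * (2 * (n + 4 * M + 3) + 1) ^ d / M +
        2 * (8 * M + 9) ^ d / M * ∑ k ∈ box (0 : Site d) W, (c k / cs) ^ q)) := by
        gcongr
    _ = _ := by ring

end Pool.Agent.LE.H96C
end
end -- Pool.Agent.Helper96_LEC.Cnt

section -- Pool.Agent.Helper96_LEC.Dtu

/-!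
# DTU: on the good event the decay about one site implies the decay about all sites near it
-/

set_option autoImplicit false

open MeasureTheory ProbabilityTheory Function

open scoped ENNReal BigOperators

noncomputable section

namespace Pool.Agent.LE.H96C

open Pool.Agent.Anderson Pool.Agent.Loc Pool.Agent.Mob Pool.Agent.Helper54.Bal
open Pool.Agent.LE.H83A (big exK sd_sm sd_sm_eq sm_add sd_zero_add DL_comm)
open Pool.Agent.LE.H59 (exY2)

variable {d : ℕ}

/-- the two comparisons on the good event, `c = η K`, `L = Q₁ ℓ` -/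
theorem cmpU (fvd : FvdStmt) {η : ℝ} {K : ℕ} (hη : 0 < η) (hK : 1 ≤ K) {L₀ : ℕ}
    (hbig : ∀ L : ℕ, L₀ ≤ L →
      1 + 2 * d * (2 * L + 1) ^ d * Real.exp (η * K * L) ≤ Real.exp (2 * (η * K) * L))
    {V : Site d → ℝ} {N Q₁ ℓ : ℕ} {a : Site d} {E : ℝ} (hQ : 1 ≤ Q₁) (hℓ : 1 ≤ ℓ)
    (hL₀ : L₀ ≤ Q₁ * ℓ) (hsub : box a (12 * (K * Q₁ * ℓ)) ⊆ box 0 N)
    (hG : GoodU V N (K * Q₁) ℓ a E η) {t : Site d} (ht : sd a t ≤ 8 * (K * Q₁ * ℓ)) :
    (RM V (box t (Q₁ * ℓ)) E).det ≠ 0 ∧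
    (∀ κ : ℝ, (∀ u, sd t u = Q₁ * ℓ →
        |gr V (box t (Q₁ * ℓ)) E t u| ≤ Real.exp (-κ * (Q₁ * ℓ : ℕ))) →
      ∀ u, (sd t u = Q₁ * ℓ ∨ sd t u = Q₁ * ℓ + 1) →
        (κ - 2 * (η * K)) * (Q₁ * ℓ : ℕ) ≤ DL (box 0 N) E V t u) ∧
    (∀ κ : ℝ, (∀ u, (sd t u = Q₁ * ℓ ∨ sd t u = Q₁ * ℓ + 1) →
        κ * (Q₁ * ℓ : ℕ) ≤ DL (box 0 N) E V t u) →
      ∀ u, sd t u = Q₁ * ℓ →
        |gr V (box t (Q₁ * ℓ)) E t u| ≤ Real.exp (-(κ - 2 * (η * K)) * (Q₁ * ℓ : ℕ))) := by
  obtain ⟨g1, g2, g3, g4, g5, g6⟩ := hG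
  obtain ⟨L, hLdef⟩ : ∃ L, L = Q₁ * ℓ := ⟨_, rfl⟩
  have hQL : K * Q₁ * ℓ = K * L := by rw [hLdef, Nat.mul_assoc]
  have hQLR : η * (((K * Q₁ : ℕ) : ℝ) * ℓ) = η * K * L := by
    rw [hLdef]
    push_cast
    ring
  rw [hQLR] at g2 g3 g4 g5 g6
  rw [hQL] at g2 g3 g6 hsub ht
  rw [← hLdef] at hL₀ ⊢
  have hL1 : 1 ≤ L := by rw [hLdef]; exact Nat.mul_pos hQ hℓ
  have hKL : L ≤ K * L := Nat.le_mul_of_pos_left _ (by omega)
  have hbig' := hbig L hL₀
  have hT : (0 : ℝ) ≤ Real.exp (η * K * L) := (Real.exp_pos _).le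
  have sub12 : box t (L + 1) ⊆ box a (12 * (K * L)) := by
    intro x hx
    rw [mem_box] at hx ⊢
    have := sd_triangle a t x
    omega
  have h8 := g6 L hKL t (mem_box.2 ht)
  have hf := fun A : ℝ => fun hA : 0 ≤ A => fvd d V (box 0 N) t L E (Real.exp (η * K * L)) A
    hT hA (sub12.trans hsub) g1 h8.1 h8.2 (fun x hx y hy => (g2 x (sub12 hx) y (sub12 hy)).2)
  have htin : t ∈ box a (12 * (K * L)) := by
    rw [mem_box]
    omega
  refine ⟨h8.1, fun κ h u hu => ?_, fun κ h u hu => ?_⟩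
  · have h1 := ((hf (Real.exp (-κ * L)) (Real.exp_pos _).le).1 h u hu).trans
      (mul_le_mul_of_nonneg_right hbig' (Real.exp_pos _).le)
    have hu' : u ∈ box a (12 * (K * L)) := by
      apply sub12
      rw [mem_box]
      omega
    have hne := (g2 t htin u hu').1
    rw [← Real.exp_add] at h1
    unfold DL
    have h2 := Real.log_le_log (abs_pos.2 hne) h1
    rw [Real.log_exp] at h2
    linarith only [h2]
  · have h0 : ∀ u, (sd t u = L ∨ sd t u = L + 1) →
        |gr V (box 0 N) E t u| ≤ Real.exp (-κ * L) := by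
      intro u hu
      have hu' : u ∈ box a (12 * (K * L)) := by
        apply sub12
        rw [mem_box]
        omega
      have hne := (g2 t htin u hu').1
      have h1 := h u hu
      unfold DL at h1
      rw [← Real.exp_log (abs_pos.2 hne)]
      exact Real.exp_le_exp.2 (by linarith only [h1])
    refine ((hf (Real.exp (-κ * L)) (Real.exp_pos _).le).2 h0 u hu).trans ?_
    refine (mul_le_mul_of_nonneg_right hbig' (Real.exp_pos _).le).trans ?_
    rw [← Real.exp_add]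
    exact Real.exp_le_exp.2 (by linarith only)

/-- DTU -/
theorem dtu (fvd : FvdStmt) : DtuStmt := by
  intro d η K hd hη hK
  have : NeZero d := ⟨by omega⟩
  have hc : 0 < η * K := mul_pos hη (by exact_mod_cast hK)
  obtain ⟨L₀, _, hbig⟩ := big d (η * K) hc
  refine ⟨L₀, fun κ V N Q₁ ℓ a E hQ hℓ hL₀ hsub hG k hk hSG s hs => ?_⟩
  rw [mem_box] at hk hs
  have hcmp := fun {t : Site d} (ht : sd a t ≤ 8 * (K * Q₁ * ℓ)) =>
    cmpU fvd hη hK hbig hQ hℓ hL₀ hsub hG (t := t) ht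
  obtain ⟨g1, g2, g3, g4, g5, g6⟩ := hG
  obtain ⟨L, hLdef⟩ : ∃ L, L = Q₁ * ℓ := ⟨_, rfl⟩
  have hQL : K * Q₁ * ℓ = K * L := by rw [hLdef, Nat.mul_assoc]
  have hQLR : η * (((K * Q₁ : ℕ) : ℝ) * ℓ) = η * K * L := by
    rw [hLdef]
    push_cast
    ring
  have hL1 : 1 ≤ L := by rw [hLdef]; exact Nat.mul_pos hQ hℓ
  have hKL : L ≤ K * L := Nat.le_mul_of_pos_left _ (by omega)
  have hℓL : ℓ ≤ L := by rw [hLdef]; exact Nat.le_mul_of_pos_left _ (by omega)
  have hQK : Q₁ ≤ K * Q₁ := Nat.le_mul_of_pos_left _ (by omega)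
  rw [hQLR] at g2 g3 g4 g5 g6
  rw [hQL] at g2 g3 g6 hsub hs
  rw [← hLdef] at hSG ⊢
  have q2 : sd a (a + sm ℓ k) ≤ 8 * (K * Q₁ * ℓ) := by
    calc sd a (a + sm ℓ k) ≤ ℓ * sd 0 k := sd_sm ℓ a k
      _ ≤ ℓ * (8 * (K * Q₁)) := Nat.mul_le_mul_left ℓ hk
      _ = 8 * (K * Q₁ * ℓ) := by ring
  have c1 := (hcmp q2).2.1 κ (by rw [← hLdef]; exact hSG.2)
  rw [← hLdef] at c1
  -- the coarse sphere about `a + ℓ k`
  have c2 : ∀ y : Site d, sd 0 y = Q₁ →
      (κ - 2 * (η * K)) * L ≤ DL (box 0 N) E V (a + sm ℓ k) (a + sm ℓ k + sm ℓ y) := by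
    intro y hy
    refine c1 _ (Or.inl ?_)
    rw [sd_a_pt, hy, hLdef]
    ring
  have c3 : ∀ k' : Site d, sd 0 k' ≤ 8 * (K * Q₁) → ∀ y : Site d, sd 0 y = Q₁ →
      (κ - 4 * (η * K)) * L ≤ DL (box 0 N) E V (a + sm ℓ k') (a + sm ℓ k' + sm ℓ y) := by
    intro k' hk' y hy
    have h1 := c2 y hy
    have hyb : y ∈ box (0 : Site d) (K * Q₁) := mem_box.2 (by omega)
    have h2 := g5 k (mem_box.2 hk) y hyb
    have h3 := g5 k' (mem_box.2 hk') y hyb
    have h4 := (abs_le.1 h2).1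
    have h5 := (abs_le.1 h3).2
    nlinarith only [h1, h4, h5]
  have c4 : ∀ u, (sd s u = L ∨ sd s u = L + 1) →
      (κ - 8 * (η * K)) * L ≤ DL (box 0 N) E V s u := by
    intro u hu
    obtain ⟨k', hk', hks⟩ := exK hℓ (7 * (K * Q₁)) a s (by
      rw [Nat.mul_assoc, hQL]
      exact hs)
    have t1 := sd_triangle (a + sm ℓ k') s u
    have t2 := sd_triangle s (a + sm ℓ k') u
    rw [sd_comm s (a + sm ℓ k')] at t2
    obtain ⟨y, hy, hyu⟩ := exY2 (Q := Q₁) hℓ (a + sm ℓ k') u (by omega) (by omega)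
    have hky : a + sm ℓ k' + sm ℓ y = a + sm ℓ (k' + y) := by rw [sm_add, add_assoc]
    have q1 : sd 0 (k' + y) ≤ 8 * (K * Q₁) := by
      have := sd_zero_add k' y
      omega
    have q2' : sd a (a + sm ℓ k') ≤ 7 * (K * L) := by
      calc sd a (a + sm ℓ k') ≤ ℓ * sd 0 k' := sd_sm ℓ a k'
        _ ≤ ℓ * (7 * (K * Q₁)) := Nat.mul_le_mul_left ℓ hk'
        _ = 7 * (K * L) := by rw [hLdef]; ring
    have q3 : sd a (a + sm ℓ (k' + y)) ≤ 8 * (K * L) := by
      calc sd a (a + sm ℓ (k' + y)) ≤ ℓ * sd 0 (k' + y) := sd_sm ℓ a (k' + y)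
        _ ≤ ℓ * (8 * (K * Q₁)) := Nat.mul_le_mul_left ℓ q1
        _ = 8 * (K * L) := by rw [hLdef]; ring
    have q4 : sd a u ≤ 10 * (K * L) := by
      have := sd_triangle a s u
      omega
    have b1 : a + sm ℓ k' ∈ box a (12 * (K * L)) := mem_box.2 (by omega)
    have b2 : a + sm ℓ (k' + y) ∈ box a (12 * (K * L)) := mem_box.2 (by omega)
    have b3 : s ∈ box a (12 * (K * L)) := mem_box.2 (by omega)
    have b4 : u ∈ box a (12 * (K * L)) := mem_box.2 (by omega)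
    have r1 := c3 k' (by omega) y hy
    rw [hky] at r1 hyu
    have r2 := g3 (a + sm ℓ k') b1 s b3 (a + sm ℓ (k' + y)) b2
    have r3 := g3 s b3 u b4 (a + sm ℓ (k' + y)) b2
    have r4 := g4 k' (mem_box.2 (by omega)) s (mem_box.2 (by omega))
    have r5 := g4 (k' + y) (mem_box.2 (by omega)) u (mem_box.2 (by omega))
    rw [DL_comm] at r5
    linarith only [r1, r2, r3, r4, r5]
  have hs8 : sd a s ≤ 8 * (K * Q₁ * ℓ) := by
    rw [hQL]
    omega
  obtain ⟨e1, _, e3⟩ := hcmp hs8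
  rw [← hLdef] at e1 e3
  refine ⟨e1, fun u hu => (e3 _ c4 u hu).trans ?_⟩
  rw [Real.exp_le_exp]
  have : 0 ≤ η * K * L := by positivity
  linarith only [this]

end Pool.Agent.LE.H96C
end
end -- Pool.Agent.Helper96_LEC.Dtu

section -- Pool.Agent.Helper96_LEW.CNT2

/-!
# CNT2: the counting lemma for a map
-/

set_option autoImplicit false

open Finset

noncomputable section

namespace Pool.Agent.LE.H96W

open Pool.Agent.Anderson Pool.Agent.Loc Pool.Agent.LE.H96C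

/-- CNT2 -/
theorem cnt2 (hDmi : DmiStmt) : Cnt2Stmt := by
  classical
  intro d F a s n M m q t h cs c G hd hs hn hM hdq hcs hmh hF2 hF3 hc0 hc hG
  obtain ⟨W, hW⟩ : ∃ W, W = n + 4 * M + 3 := ⟨_, rfl⟩
  rw [← hW] at hc ⊢
  have hsR : (1 : ℝ) ≤ s := by exact_mod_cast hs
  obtain ⟨f, hfdef⟩ : ∃ f : Site d → Fin d → ℝ, ∀ x i, f x i = F x i - t :=
    ⟨fun x i => F x i - t, fun _ _ => rfl⟩
  have hff : ∀ x y i, f x i - f y i = F x i - F y i := by
    intro x y i
    rw [hfdef, hfdef]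
    ring
  have hf2 : ∀ k ∈ box (0 : Site d) n, ∀ i, k i = -(n : ℤ) → f (a + sm s k) i ≤ 0 := by
    intro k hk i hi
    have := hF2 k hk i hi
    rw [hfdef]
    linarith only [this]
  have hf3 : ∀ k ∈ box (0 : Site d) n, ∀ i, k i = (n : ℤ) → h - t ≤ f (a + sm s k) i := by
    intro k hk i hi
    have := hF3 k hk i hi
    rw [hfdef]
    linarith only [this]
  have hnW : ∀ k ∈ box (0 : Site d) n, k ∈ box (0 : Site d) W := by
    intro k hk
    rw [mem_box] at hk ⊢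
    omega
  obtain ⟨w, hwdef⟩ : ∃ w : ℝ, w = 8 * cs * s := ⟨_, rfl⟩
  have hcs0 : 0 < cs := by linarith only [hcs]
  have hw : 0 < w := by rw [hwdef]; positivity
  have hcss : (s : ℝ) ≤ cs * s := by nlinarith only [hcs]
  have hw2 : 2 * (cs * s) + s < w / 2 := by
    rw [hwdef]
    nlinarith only [hsR, hcss]
  obtain ⟨T, hT⟩ : ∃ T : Finset (Fin d → ℕ), T = Fintype.piFinset fun _ => Finset.Icc 1 m :=
    ⟨_, rfl⟩
  have hcardT : T.card = m ^ d := by
    rw [hT, Fintype.card_piFinset]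
    simp
  have hTm : ∀ κ ∈ T, ∀ i, κ i ∈ Finset.Icc 1 m := by
    intro κ hκ
    rw [hT, Fintype.mem_piFinset] at hκ
    exact hκ
  -- the mesh points of the targets
  have hk : ∀ κ ∈ T, ∃ k ∈ box (0 : Site d) n,
      ∀ i, |w * (κ i : ℝ) - f (a + sm s k) i| ≤ c k * s := by
    intro κ hκ
    have hκ' := hTm κ hκ
    obtain ⟨k, hk, hk2⟩ := hDmi d n (fun k i => f (a + sm s k) i) 0 (h - t)
      (fun i => w * (κ i : ℝ)) hn hf2 hf3 (fun i => by
        have h1 := Finset.mem_Icc.1 (hκ' i)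
        have h3 : (κ i : ℝ) ≤ m := by exact_mod_cast h1.2
        constructor
        · positivity
        · have : w * κ i ≤ w * m := mul_le_mul_of_nonneg_left h3 hw.le
          rw [hwdef] at this ⊢
          linarith only [hmh, this])
    refine ⟨k, hk, fun i => ?_⟩
    obtain ⟨k', hk', h1, h2⟩ := hk2 i
    refine h2.trans ?_
    have h4 := hc k (hnW k hk) (a + sm s k') (by
      rw [mem_box, sd_pt]
      calc s * sd k k' ≤ s * 1 := Nat.mul_le_mul_left s h1
        _ = s := mul_one s) i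
    rw [hff]
    exact h4
  choose! kk hkk1 hkk2 using hk
  have huniq : ∀ (κ κ' : Fin d → ℕ) (F : Fin d → ℝ), (∀ i, |w * (κ i : ℝ) - F i| < w / 2) →
      (∀ i, |w * (κ' i : ℝ) - F i| < w / 2) → κ = κ' := by
    intro κ κ' F h1 h2
    funext i
    have h3 := abs_lt.1 (h1 i)
    have h4 := abs_lt.1 (h2 i)
    have h5 : w * ((κ i : ℝ) - κ' i) < w * 1 := by linarith only [h3.2, h4.1]
    have h6 : w * ((κ' i : ℝ) - κ i) < w * 1 := by linarith only [h3.1, h4.2]
    have h7 : (κ i : ℝ) < κ' i + 1 := by linarith only [lt_of_mul_lt_mul_left h5 hw.le]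
    have h8 : (κ' i : ℝ) < κ i + 1 := by linarith only [lt_of_mul_lt_mul_left h6 hw.le]
    have h9 : κ i < κ' i + 1 := by exact_mod_cast h7
    have h10 : κ' i < κ i + 1 := by exact_mod_cast h8
    omega
  -- small c: the mesh point determines the target
  have hinj : ∀ κ ∈ T, ∀ κ' ∈ T, c (kk κ) ≤ cs → c (kk κ') ≤ cs → kk κ = kk κ' → κ = κ' := by
    intro κ hκ κ' hκ' h1 h2 h3
    refine huniq κ κ' (fun i => f (a + sm s (kk κ)) i) (fun i => ?_) (fun i => ?_)
    · have h4 := hkk2 κ hκ i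
      have h5 : c (kk κ) * s ≤ cs * s := mul_le_mul_of_nonneg_right h1 (by positivity)
      nlinarith only [hsR, hwdef, hcss, h4, h5]
    · have h4 := hkk2 κ' hκ' i
      rw [← h3] at h4 h2
      have h5 : c (kk κ) * s ≤ cs * s := mul_le_mul_of_nonneg_right h1 (by positivity)
      nlinarith only [hsR, hwdef, hcss, h4, h5]
  -- the partners
  have hpart : ∀ k ∈ G ∩ box (0 : Site d) n, ∀ j ∈ Finset.Icc 1 M, ∃ u : Site d,
      u ∈ box (0 : Site d) W ∧ k ∈ box u (4 * M + 4) ∧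
      (∀ i, |f (a + sm s k) i - f (a + sm s u) i| ≤ s + c u * s) ∧
      4 * j * s ≤ sd (a + sm s k) (a + sm s u) + s ∧
      sd (a + sm s k) (a + sm s u) ≤ 4 * j * s + 1 + s := by
    intro k hk j hj
    obtain ⟨hkG, hkn⟩ := Finset.mem_inter.1 hk
    obtain ⟨hj1, hj2⟩ := Finset.mem_Icc.1 hj
    obtain ⟨v, hv1, hv2⟩ := hG k hkG j hj1 hj2
    have h1 := sd_near a v hs
    have h2 := sd_triangle (a + sm s k) v (a + sm s (near a s v))
    have h3 := sd_triangle (a + sm s k) (a + sm s (near a s v)) v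
    rw [sd_comm v] at h2
    have h4 : sd (a + sm s k) (a + sm s (near a s v)) ≤ 4 * j * s + 1 + s := by omega
    have h5 : 4 * j * s ≤ sd (a + sm s k) (a + sm s (near a s v)) + s := by omega
    have h6 : sd k (near a s v) ≤ 4 * M + 3 := by
      rw [sd_pt] at h4
      have h7 : 4 * j * s ≤ 4 * M * s := Nat.mul_le_mul_right s (Nat.mul_le_mul_left 4 hj2)
      have h8 : s * sd k (near a s v) < s * (4 * M + 3) + 1 := by
        have : s * (4 * M + 3) = 4 * M * s + 3 * s := by ring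
        omega
      exact Nat.le_of_mul_le_mul_left (Nat.lt_succ_iff.1 h8) hs
    have h7 : near a s v ∈ box (0 : Site d) W := by
      rw [mem_box] at hkn ⊢
      have := sd_triangle 0 k (near a s v)
      omega
    refine ⟨near a s v, h7, ?_, fun i => ?_, h5, h4⟩
    · rw [mem_box, sd_comm]
      omega
    · have h8 := hv2 i
      have h9 := hc _ h7 v (by rw [mem_box]; exact h1) i
      rw [hff]
      have h10 : F (a + sm s k) i - F (a + sm s (near a s v)) i =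
        -(F v i - F (a + sm s k) i) + (F v i - F (a + sm s (near a s v)) i) := by ring
      rw [h10]
      refine (abs_add_le _ _).trans ?_
      rw [abs_neg]
      exact add_le_add h8 h9
  choose! u hu1 hu2 hu3 hu4 hu5 using hpart
  have hdist : ∀ k ∈ G ∩ box (0 : Site d) n, ∀ j ∈ Finset.Icc 1 M, ∀ j' ∈ Finset.Icc 1 M,
      u k j = u k j' → j = j' := by
    have key : ∀ k ∈ G ∩ box (0 : Site d) n, ∀ j ∈ Finset.Icc 1 M, ∀ j' ∈ Finset.Icc 1 M,
        u k j = u k j' → ¬ j < j' := by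
      intro k hk j hj j' hj' he hlt
      have h1 := hu5 k hk j hj
      have h2 := hu4 k hk j' hj'
      rw [← he] at h2
      have h3 : 4 * (j + 1) * s ≤ 4 * j' * s :=
        Nat.mul_le_mul_right s (Nat.mul_le_mul_left 4 hlt)
      have h4 : 4 * (j + 1) * s = 4 * j * s + 4 * s := by ring
      omega
    intro k hk j hj j' hj' he
    rcases lt_trichotomy j j' with h1 | h1 | h1
    · exact absurd h1 (key k hk j hj j' hj' he)
    · exact h1
    · exact absurd h1 (key k hk j' hj' j hj he.symm)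
  -- the four classes
  obtain ⟨Ta, hTa⟩ : ∃ Ta, Ta = T.filter fun κ => cs < c (kk κ) := ⟨_, rfl⟩
  obtain ⟨Tb, hTb⟩ : ∃ Tb, Tb = T.filter fun κ => c (kk κ) ≤ cs ∧ kk κ ∉ G := ⟨_, rfl⟩
  obtain ⟨Tc, hTc⟩ : ∃ Tc, Tc = T.filter fun κ => (c (kk κ) ≤ cs ∧ kk κ ∈ G) ∧
    M ≤ 2 * ((Finset.Icc 1 M).filter fun j => c (u (kk κ) j) ≤ cs).card := ⟨_, rfl⟩
  obtain ⟨Te, hTe⟩ : ∃ Te, Te = T.filter fun κ => (c (kk κ) ≤ cs ∧ kk κ ∈ G) ∧
    M ≤ 2 * ((Finset.Icc 1 M).filter fun j => cs < c (u (kk κ) j)).card := ⟨_, rfl⟩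
  have hsub : T ⊆ Ta ∪ (Tb ∪ (Tc ∪ Te)) := by
    intro κ hκ
    simp only [hTa, hTb, hTc, hTe, Finset.mem_union, Finset.mem_filter]
    by_cases h1 : cs < c (kk κ)
    · exact Or.inl ⟨hκ, h1⟩
    · rw [not_lt] at h1
      by_cases h2 : kk κ ∈ G
      · have h3 : ((Finset.Icc 1 M).filter fun j => c (u (kk κ) j) ≤ cs).card +
            ((Finset.Icc 1 M).filter fun j => ¬ c (u (kk κ) j) ≤ cs).card = M := by
          rw [Finset.card_filter_add_card_filter_not]
          simp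
        have h4 : ((Finset.Icc 1 M).filter fun j => ¬ c (u (kk κ) j) ≤ cs) =
            ((Finset.Icc 1 M).filter fun j => cs < c (u (kk κ) j)) := by
          refine Finset.filter_congr fun j _ => ?_
          rw [not_le]
        rw [h4] at h3
        rcases le_total M (2 * ((Finset.Icc 1 M).filter fun j => c (u (kk κ) j) ≤ cs).card)
          with h5 | h5
        · exact Or.inr (Or.inr (Or.inl ⟨hκ, ⟨h1, h2⟩, h5⟩))
        · exact Or.inr (Or.inr (Or.inr ⟨hκ, ⟨h1, h2⟩, by omega⟩))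
      · exact Or.inr (Or.inl ⟨hκ, h1, h2⟩)
  have hcard : (m : ℝ) ^ d ≤ Ta.card + (Tb.card + (Tc.card + Te.card)) := by
    have h1 := (card_le_card hsub).trans ((card_union_le _ _).trans
      (Nat.add_le_add_left ((card_union_le _ _).trans
        (Nat.add_le_add_left (card_union_le _ _) _)) _))
    rw [hcardT] at h1
    exact_mod_cast h1
  -- numbers
  have hx : ∀ k, 0 ≤ c k / cs := fun k => div_nonneg (hc0 k) hcs0.le
  have hSn : ∑ k ∈ (box (0 : Site d) n).filter (fun k => cs < c k), (c k / cs) ^ q ≤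
      ∑ k ∈ box (0 : Site d) W, (c k / cs) ^ q := by
    refine Finset.sum_le_sum_of_subset_of_nonneg ?_ fun k _ _ => pow_nonneg (hx k) q
    intro k hk
    exact hnW k (Finset.mem_filter.1 hk).1
  have hSW : (((box (0 : Site d) W).filter fun k => cs < c k).card : ℝ) ≤
      ∑ k ∈ box (0 : Site d) W, (c k / cs) ^ q := by
    calc (((box (0 : Site d) W).filter fun k => cs < c k).card : ℝ)
        = ∑ k ∈ (box (0 : Site d) W).filter (fun k => cs < c k), (1 : ℝ) := by simp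
      _ ≤ ∑ k ∈ (box (0 : Site d) W).filter (fun k => cs < c k), (c k / cs) ^ q := by
          refine Finset.sum_le_sum fun k hk => one_le_pow₀ ?_
          rw [one_le_div hcs0]
          exact (Finset.mem_filter.1 hk).2.le
      _ ≤ _ := Finset.sum_le_sum_of_subset_of_nonneg (Finset.filter_subset _ _)
          fun k _ _ => pow_nonneg (hx k) q
  -- (a)
  have hA : (Ta.card : ℝ) ≤ 2 ^ d * ∑ k ∈ box (0 : Site d) W, (c k / cs) ^ q := by
    have hmap : ∀ κ ∈ Ta, kk κ ∈ (box (0 : Site d) n).filter fun k => cs < c k := by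
      intro κ hκ
      rw [hTa, Finset.mem_filter] at hκ
      exact Finset.mem_filter.2 ⟨hkk1 κ hκ.1, hκ.2⟩
    rw [Finset.card_eq_sum_card_fiberwise hmap]
    push_cast
    calc ∑ k ∈ (box (0 : Site d) n).filter (fun k => cs < c k),
          ((Ta.filter fun κ => kk κ = k).card : ℝ)
        ≤ ∑ k ∈ (box (0 : Site d) n).filter (fun k => cs < c k), 2 ^ d * (c k / cs) ^ q := by
          refine Finset.sum_le_sum fun k hk => ?_
          have hck : cs < c k := (Finset.mem_filter.1 hk).2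
          have h0 : 0 ≤ c k * s := by
            have := hc0 k
            positivity
          have h1 := fiber_card (m := m) (fun i => f (a + sm s k) i) w (c k * s) hw h0
            (Ta.filter fun κ => kk κ = k) (by
              intro κ hκ
              rw [Finset.mem_filter, hTa, Finset.mem_filter] at hκ
              refine ⟨hTm κ hκ.1.1, fun i => ?_⟩
              have h2 := hkk2 κ hκ.1.1 i
              rw [hκ.2] at h2
              exact h2)
          have h2 : 2 * (c k * s) / w + 1 ≤ 2 * (c k / cs) := by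
            have h3 : 1 ≤ c k / cs := by
              rw [one_le_div hcs0]
              exact hck.le
            have h4 : 2 * (c k * s) / w ≤ (c k / cs) / 4 := by
              rw [div_le_iff₀ hw, hwdef]
              have h5 : ((c k / cs) / 4) * (8 * cs * s) = 2 * (c k * s) := by
                field_simp
                ring
              rw [h5]
            linarith only [h3, h4]
          have h3 : (2 * (c k / cs)) ^ d ≤ 2 ^ d * (c k / cs) ^ q := by
            rw [mul_pow]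
            refine mul_le_mul_of_nonneg_left ?_ (by positivity)
            refine pow_le_pow_right₀ ?_ hdq
            rw [one_le_div hcs0]
            exact hck.le
          exact h1.trans ((pow_le_pow_left₀ (by positivity) h2 d).trans h3)
      _ = 2 ^ d * ∑ k ∈ (box (0 : Site d) n).filter (fun k => cs < c k), (c k / cs) ^ q := by
          rw [Finset.mul_sum]
      _ ≤ _ := mul_le_mul_of_nonneg_left hSn (by positivity)
  -- (b)
  have hB : (Tb.card : ℝ) ≤ ((box (0 : Site d) n) \ G).card := by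
    have : Tb.card ≤ ((box (0 : Site d) n) \ G).card := by
      refine Finset.card_le_card_of_injOn kk (fun κ hκ => ?_) (fun κ hκ κ' hκ' he => ?_)
      · rw [hTb, Finset.mem_coe, Finset.mem_filter] at hκ
        rw [Finset.mem_coe, Finset.mem_sdiff]
        exact ⟨hkk1 κ hκ.1, hκ.2.2⟩
      · rw [hTb, Finset.mem_coe, Finset.mem_filter] at hκ hκ'
        exact hinj κ hκ.1 κ' hκ'.1 hκ.2.1 hκ'.2.1 he
    exact_mod_cast this
  -- (c1)
  have hC : (Tc.card : ℝ) * M ≤ 2 * (2 * W + 1) ^ d := by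
    have h1 : Tc.card * M ≤ 2 * (Tc.sigma fun κ =>
        (Finset.Icc 1 M).filter fun j => c (u (kk κ) j) ≤ cs).card := by
      rw [Finset.card_sigma, Finset.mul_sum, Finset.card_eq_sum_ones, Finset.sum_mul]
      refine Finset.sum_le_sum fun κ hκ => ?_
      rw [one_mul]
      rw [hTc, Finset.mem_filter] at hκ
      exact hκ.2.2
    have h2 : (Tc.sigma fun κ =>
        (Finset.Icc 1 M).filter fun j => c (u (kk κ) j) ≤ cs).card ≤
        (box (0 : Site d) W).card := by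
      refine Finset.card_le_card_of_injOn (fun p => u (kk p.1) p.2) (fun p hp => ?_)
        (fun p hp p' hp' he => ?_)
      · rw [Finset.mem_coe, Finset.mem_sigma, hTc, Finset.mem_filter, Finset.mem_filter] at hp
        rw [Finset.mem_coe]
        exact hu1 _ (Finset.mem_inter.2 ⟨hp.1.2.1.2, hkk1 _ hp.1.1⟩) _ hp.2.1
      · rw [Finset.mem_coe, Finset.mem_sigma, hTc, Finset.mem_filter, Finset.mem_filter] at hp hp'
        have hp1 := Finset.mem_inter.2 ⟨hp.1.2.1.2, hkk1 _ hp.1.1⟩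
        have hp1' := Finset.mem_inter.2 ⟨hp'.1.2.1.2, hkk1 _ hp'.1.1⟩
        have hclose : ∀ (κ : Fin d → ℕ) (j : ℕ), κ ∈ T → c (kk κ) ≤ cs →
            kk κ ∈ G ∩ box (0 : Site d) n → j ∈ Finset.Icc 1 M → c (u (kk κ) j) ≤ cs →
            ∀ i, |w * (κ i : ℝ) - f (a + sm s (u (kk κ) j)) i| < w / 2 := by
          intro κ j hκ h3 h4 h5 h6 i
          have h7 := hkk2 κ hκ i
          have h9 := hu3 _ h4 _ h5 i
          have h10 : c (kk κ) * s ≤ cs * s := mul_le_mul_of_nonneg_right h3 (by positivity)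
          have h11 : c (u (kk κ) j) * s ≤ cs * s := mul_le_mul_of_nonneg_right h6 (by positivity)
          have h12 := abs_sub_le (w * (κ i : ℝ)) (f (a + sm s (kk κ)) i)
            (f (a + sm s (u (kk κ) j)) i)
          linarith only [hsR, hwdef, hcss, h7, h9, h10, h11, h12]
        have he' : u (kk p.1) p.2 = u (kk p'.1) p'.2 := he
        have e1 : p.1 = p'.1 := by
          refine huniq p.1 p'.1 (fun i => f (a + sm s (u (kk p.1) p.2)) i)
            (hclose p.1 p.2 hp.1.1 hp.1.2.1.1 hp1 hp.2.1 hp.2.2) ?_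
          intro i
          have h13 := hclose p'.1 p'.2 hp'.1.1 hp'.1.2.1.1 hp1' hp'.2.1 hp'.2.2 i
          rw [← he'] at h13
          exact h13
        rw [← e1] at he'
        have e2 : p.2 = p'.2 := hdist _ hp1 _ hp.2.1 _ hp'.2.1 he'
        exact Sigma.ext e1 (heq_of_eq e2)
    rw [card_box] at h2
    have h3 : Tc.card * M ≤ 2 * (2 * W + 1) ^ d := by omega
    exact_mod_cast h3
  -- (c2)
  have hE : (Te.card : ℝ) * M ≤ 2 * ((∑ k ∈ box (0 : Site d) W, (c k / cs) ^ q) *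
      (8 * M + 9) ^ d) := by
    have h1 : Te.card * M ≤ 2 * (Te.sigma fun κ =>
        (Finset.Icc 1 M).filter fun j => cs < c (u (kk κ) j)).card := by
      rw [Finset.card_sigma, Finset.mul_sum, Finset.card_eq_sum_ones, Finset.sum_mul]
      refine Finset.sum_le_sum fun κ hκ => ?_
      rw [one_mul]
      rw [hTe, Finset.mem_filter] at hκ
      exact hκ.2.2
    have h2 : (Te.sigma fun κ =>
        (Finset.Icc 1 M).filter fun j => cs < c (u (kk κ) j)).card ≤
        (((box (0 : Site d) W).filter fun k => cs < c k).sigma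
          fun k => box k (4 * M + 4)).card := by
      refine Finset.card_le_card_of_injOn
        (fun p => (⟨u (kk p.1) p.2, kk p.1⟩ : (_ : Site d) × Site d)) (fun p hp => ?_)
        (fun p hp p' hp' he => ?_)
      · rw [Finset.mem_coe, Finset.mem_sigma, hTe, Finset.mem_filter, Finset.mem_filter] at hp
        have hp1 := Finset.mem_inter.2 ⟨hp.1.2.1.2, hkk1 _ hp.1.1⟩
        rw [Finset.mem_coe, Finset.mem_sigma, Finset.mem_filter]
        exact ⟨⟨hu1 _ hp1 _ hp.2.1, hp.2.2⟩, hu2 _ hp1 _ hp.2.1⟩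
      · rw [Finset.mem_coe, Finset.mem_sigma, hTe, Finset.mem_filter, Finset.mem_filter] at hp hp'
        have hp1 := Finset.mem_inter.2 ⟨hp.1.2.1.2, hkk1 _ hp.1.1⟩
        simp only [Sigma.mk.injEq, heq_eq_eq] at he
        obtain ⟨he1, he2⟩ := he
        have e1 : p.1 = p'.1 := hinj _ hp.1.1 _ hp'.1.1 hp.1.2.1.1 hp'.1.2.1.1 he2
        rw [← he2] at he1
        have e2 : p.2 = p'.2 := hdist _ hp1 _ hp.2.1 _ hp'.2.1 he1
        exact Sigma.ext e1 (heq_of_eq e2)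
    have h3 : (((box (0 : Site d) W).filter fun k => cs < c k).sigma
          fun k => box k (4 * M + 4)).card =
        ((box (0 : Site d) W).filter fun k => cs < c k).card * (8 * M + 9) ^ d := by
      rw [Finset.card_sigma, Finset.sum_congr rfl fun k _ => card_box k (4 * M + 4),
        Finset.sum_const, smul_eq_mul]
      have : 2 * (4 * M + 4) + 1 = 8 * M + 9 := by ring
      rw [this]
    rw [h3] at h2
    have h4 : Te.card * M ≤ 2 * (((box (0 : Site d) W).filter fun k => cs < c k).card *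
        (8 * M + 9) ^ d) := by omega
    have h5 : (Te.card : ℝ) * M ≤ 2 * ((((box (0 : Site d) W).filter fun k => cs < c k).card : ℝ) *
        (8 * M + 9) ^ d) := by exact_mod_cast h4
    refine h5.trans ?_
    exact mul_le_mul_of_nonneg_left (mul_le_mul_of_nonneg_right hSW (by positivity)) (by norm_num)
  -- end
  have hM0 : (0 : ℝ) < M := by exact_mod_cast hM
  have hC' : (Tc.card : ℝ) ≤ 2 * (2 * W + 1) ^ d / M := by
    rw [le_div_iff₀ hM0]
    exact hC
  have hE' : (Te.card : ℝ) ≤ 2 * (8 * M + 9) ^ d / M *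
      ∑ k ∈ box (0 : Site d) W, (c k / cs) ^ q := by
    have : (Te.card : ℝ) ≤ 2 * ((∑ k ∈ box (0 : Site d) W, (c k / cs) ^ q) *
      (8 * M + 9) ^ d) / M := by
      rw [le_div_iff₀ hM0]
      exact hE
    refine this.trans (le_of_eq ?_)
    ring
  have hWc : ((W : ℕ) : ℝ) = n + 4 * M + 3 := by
    rw [hW]
    push_cast
    ring
  rw [hWc] at hC'
  calc (m : ℝ) ^ d ≤ Ta.card + (Tb.card + (Tc.card + Te.card)) := hcard
    _ ≤ 2 ^ d * ∑ k ∈ box (0 : Site d) W, (c k / cs) ^ q +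
        (((box (0 : Site d) n) \ G).card + (2 * (2 * (n + 4 * M + 3) + 1) ^ d / M +
        2 * (8 * M + 9) ^ d / M * ∑ k ∈ box (0 : Site d) W, (c k / cs) ^ q)) := by
        gcongr
    _ = _ := by ring

end Pool.Agent.LE.H96W
end
end -- Pool.Agent.Helper96_LEW.CNT2
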