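import Pool.Agent.Helper12_MEB.B014
import Pool.Agent.Helper12_MEB.B035

/-!
# Merged copies (generated) of the modules

* `Pool.Agent.Helper15_LEW.NUM`
* `Pool.Agent.Helper42_LEW.NUX`
* `Pool.Agent.Helper42_LEF.UNC`
* `Pool.Agent.Helper42_LEF.CDD`
* `Pool.Agent.Helper59_LEW.Cdf`
-/

set_option autoImplicit false

section -- Pool.Agent.Helper15_LEW.NUM

/-!
# Row NUM of the weak disorder bound: the numbers
-/

set_option autoImplicit false

open Real Filter Topology

namespace Pool.Agent.LE.H15W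

/-- Exponentials are smaller than powers. -/
theorem exp_le_rpow (a c p : ℝ) (ha : 0 < a) (hc : 0 < c) :
    ∃ K : ℝ, 0 < K ∧ ∀ L : ℝ, 1 ≤ L → exp (-(a * L ^ c)) ≤ K * L ^ (-p) := by
  obtain ⟨m, hm⟩ := exists_nat_ge (p / c)
  have hm' : p ≤ c * m := by
    rw [div_le_iff₀ hc] at hm
    linarith
  refine ⟨m.factorial / a ^ m, by positivity, fun L hL => ?_⟩
  have hL0 : 0 < L := by linarith
  have hy : 0 < a * L ^ c := by positivity
  have h1 : (a * L ^ c) ^ m / m.factorial ≤ exp (a * L ^ c) :=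
    Real.pow_div_factorial_le_exp _ hy.le m
  have hf : (0 : ℝ) < m.factorial := by exact_mod_cast m.factorial_pos
  have h2 : exp (-(a * L ^ c)) ≤ m.factorial / (a * L ^ c) ^ m := by
    rw [exp_neg, inv_le_comm₀ (exp_pos _) (by positivity), inv_div]
    exact h1
  refine h2.trans ?_
  rw [mul_pow, ← rpow_natCast (L ^ c) m, ← rpow_mul hL0.le]
  have h3 : m.factorial / (a ^ m * L ^ (c * m)) = m.factorial / a ^ m * L ^ (-(c * m)) := by
    rw [rpow_neg hL0.le]
    field_simp
  rw [h3]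
  refine mul_le_mul_of_nonneg_left ?_ (by positivity)
  exact rpow_le_rpow_of_exponent_le hL (by linarith only [hm'])

/-- The constant `K₀`. -/
theorem exists_K0 (a b c : ℝ) (hb : 0 ≤ b) : ∃ K : ℝ, 1 ≤ K ∧ a + b * log (22 * K) + c ≤ K / 2 := by
  have h1 : Tendsto (fun x : ℝ => log x / x) atTop (𝓝 0) := by
    have := Real.isLittleO_log_id_atTop.tendsto_div_nhds_zero
    exact this
  have h2 : ∀ᶠ x : ℝ in atTop, log x / x < 1 / (88 * (b + 1)) :=
    h1.eventually_lt_const (by positivity)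
  have h3 : ∀ᶠ x : ℝ in atTop, 22 ≤ x := eventually_ge_atTop 22
  have h4 : ∀ᶠ x : ℝ in atTop, 88 * (a + c) ≤ x := eventually_ge_atTop _
  obtain ⟨x, hx2, hx3, hx4⟩ := (h2.and (h3.and h4)).exists
  have hx0 : 0 < x := by linarith only [hx3]
  refine ⟨x / 22, by linarith, ?_⟩
  have h5 : (22 : ℝ) * (x / 22) = x := by ring
  rw [h5]
  rw [div_lt_iff₀ hx0] at hx2
  have h6 : b * log x ≤ x / 88 := by
    have h7 : b * (1 / (88 * (b + 1)) * x) ≤ x / 88 := by
      have : b * (1 / (88 * (b + 1)) * x) = (b / (b + 1)) * (x / 88) := by field_simp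
      rw [this]
      have h8 : b / (b + 1) ≤ 1 := by
        rw [div_le_one (by linarith only [hb])]
        linarith only
      have h9 : 0 ≤ x / 88 := by positivity
      exact mul_le_of_le_one_left h9 h8
    exact (mul_le_mul_of_nonneg_left hx2.le hb).trans h7
  linarith only [hx4, h6]

theorem num : NumStmt := by
  intro d A hd hA
  have hd1 : (1 : ℝ) ≤ d := by exact_mod_cast hd
  have hd0 : (0 : ℝ) < d := by linarith only [hd1]
  set c₁ : ℝ := 5 / (4 * (d + 4)) with hc₁
  set c₂ : ℝ := 1 / (4 * d * (d + 4)) with hc₂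
  have hc1 : 0 < c₁ := by positivity
  have hc2 : 0 < c₂ := by positivity
  have hcd : d * (1 / ((d : ℝ) * (d + 4)) + c₂) = c₁ := by
    rw [hc₁, hc₂]
    field_simp
    ring
  have hc34 : (c₁ + c₂) * (d + 4) ≤ 3 / 2 := by
    have h1 : (c₁ + c₂) * (d + 4) = 5 / 4 + 1 / (4 * d) := by
      rw [hc₁, hc₂]
      field_simp
    have h2 : 1 / (4 * (d : ℝ)) ≤ 1 / 4 := by
      apply one_div_le_one_div_of_le <;> linarith
    rw [h1]
    linarith only [h2]
  obtain ⟨q₁, hq₁⟩ := exists_nat_ge ((A + d * c₁ + c₂ * (d + 1) + c₁) / c₂)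
  refine ⟨max d q₁, le_max_left _ _, ?_⟩
  set q := max d q₁ with hq
  have hqq : A + d * c₁ + c₂ * (d + 1) + c₁ ≤ c₂ * q := by
    have h1 : (q₁ : ℝ) ≤ q := by exact_mod_cast le_max_right _ _
    have h2 : (A + d * c₁ + c₂ * (d + 1) + c₁) / c₂ ≤ q := hq₁.trans h1
    rw [div_le_iff₀ hc2] at h2
    linarith only [h2]
  intro C' hC'
  obtain ⟨K₀, hK₀, hK₀'⟩ := exists_K0 (log (16 * d)) d (d * (c₁ + c₂) / c₂) hd0.le
  have hK0 : 0 < K₀ := by linarith only [hK₀]
  set a : ℝ := (22 * K₀) ^ (d + 4) with ha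
  have ha0 : 0 < a := by positivity
  obtain ⟨K₁, hK₁, hexp₁⟩ := exp_le_rpow (1 / (64 * √a)) (1 / 4) (d * (c₁ + c₂) + c₁)
    (by positivity) (by norm_num)
  obtain ⟨K₂, hK₂, hexp₂⟩ := exp_le_rpow (K₀ / 2) c₂ (d * (c₁ + c₂) + 1 + c₁)
    (by positivity) hc2
  set T₁ : ℝ := 16 * 3 ^ d * (22 * K₀) ^ d * K₁ with hT₁
  set T₂ : ℝ := 64 * d * 3 ^ d * (26 * K₀) ^ d * K₂ with hT₂
  set T₃ : ℝ := 4 * 3 ^ d with hT₃
  set T₄ : ℝ := (2 ^ d + 2 * 17 ^ d) * (4 * 3 ^ d * (d * (C' * (2 * K₀) ^ (d + 1)))) with hT₄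
  have hT₁0 : 0 < T₁ := by positivity
  have hT₂0 : 0 < T₂ := by positivity
  have hT₃0 : 0 < T₃ := by positivity
  have hT₄0 : 0 < T₄ := by positivity
  set K : ℝ := T₁ + T₂ + T₃ + T₄ with hK
  have hKpos : 0 < K := by positivity
  refine ⟨17 * (K + 1), by linarith only [hT₁0, hT₂0, hT₃0, hT₄0], ?_⟩
  intro σ κ hσ hσ1 hκ
  have hσ0 : 0 < |σ| := abs_pos.mpr hσ
  set L : ℝ := |σ|⁻¹ with hL
  have hL0 : 0 < L := by positivity
  have hL1 : 1 ≤ L := by
    rw [hL, one_le_inv₀ hσ0]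
    exact hσ1
  have hσL : ∀ e : ℝ, |σ| ^ e = L ^ (-e) := by
    intro e
    rw [hL, inv_rpow hσ0.le, rpow_neg hσ0.le, inv_inv]
  have hLc1 : 1 ≤ L ^ c₁ := one_le_rpow hL1 hc1.le
  have hLc2 : 1 ≤ L ^ c₂ := one_le_rpow hL1 hc2.le
  set M : ℕ := ⌊L ^ c₁⌋₊ with hM
  set s : ℕ := ⌈K₀ * L ^ c₂⌉₊ with hs
  have hM1 : 1 ≤ M := by
    rw [hM, Nat.one_le_floor_iff]
    exact hLc1
  have hM1' : (1 : ℝ) ≤ M := by exact_mod_cast hM1
  have hMle : (M : ℝ) ≤ L ^ c₁ := Nat.floor_le (by positivity)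
  have hMge : L ^ c₁ / 2 ≤ M := by
    have h1 : L ^ c₁ < M + 1 := Nat.lt_floor_add_one _
    linarith only [h1, hM1']
  have hsge : K₀ * L ^ c₂ ≤ s := Nat.le_ceil _
  have hKL1 : 1 ≤ K₀ * L ^ c₂ := one_le_mul_of_one_le_of_one_le hK₀ hLc2
  have hs1' : (1 : ℝ) ≤ s := hKL1.trans hsge
  have hs1 : 1 ≤ s := by exact_mod_cast hs1'
  have hsle : (s : ℝ) ≤ 2 * K₀ * L ^ c₂ := by
    have h1 : (s : ℝ) < K₀ * L ^ c₂ + 1 := Nat.ceil_lt_add_one (by positivity)
    linarith only [h1, hKL1]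
  have hMs1 : (1 : ℝ) ≤ M * s := one_le_mul_of_one_le_of_one_le hM1' hs1'
  have hMs : (M : ℝ) * s ≤ 2 * K₀ * L ^ (c₁ + c₂) := by
    rw [rpow_add hL0]
    calc (M : ℝ) * s ≤ L ^ c₁ * (2 * K₀ * L ^ c₂) :=
          mul_le_mul hMle hsle (by positivity) (by positivity)
      _ = 2 * K₀ * (L ^ c₁ * L ^ c₂) := by ring
  set X : ℝ := 8 * (M * s) + 3 with hX
  have hX1 : 1 ≤ X := by rw [hX]; linarith only [hMs1]
  have hX0 : 0 < X := by linarith only [hX1]
  have hXle : X ≤ 22 * K₀ * L ^ (c₁ + c₂) := by rw [hX]; linarith only [hMs, hMs1]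
  have hX5 : 8 * ((M : ℝ) * s) + 5 ≤ 26 * K₀ * L ^ (c₁ + c₂) := by
    linarith only [hMs, hMs1]
  have hpowd : ∀ k : ℕ, (L ^ (c₁ + c₂)) ^ k = L ^ ((c₁ + c₂) * k) := by
    intro k
    rw [← rpow_natCast, ← rpow_mul hL0.le]
  -- the number v
  have hXa : X ^ (d + 4) ≤ a * L ^ (3 / 2 : ℝ) := by
    calc X ^ (d + 4) ≤ (22 * K₀ * L ^ (c₁ + c₂)) ^ (d + 4) :=
          pow_le_pow_left₀ hX0.le hXle _
      _ = a * L ^ ((c₁ + c₂) * ((d + 4 : ℕ) : ℝ)) := by rw [mul_pow, hpowd]
      _ ≤ a * L ^ (3 / 2 : ℝ) := by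
          refine mul_le_mul_of_nonneg_left ?_ ha0.le
          refine rpow_le_rpow_of_exponent_le hL1 ?_
          push_cast
          exact hc34
  have hsq : √(X ^ (d + 4)) ≤ √a * L ^ (3 / 4 : ℝ) := by
    have h1 : √(a * L ^ (3 / 2 : ℝ)) = √a * L ^ (3 / 4 : ℝ) := by
      rw [Real.sqrt_mul ha0.le, Real.sqrt_eq_rpow (L ^ (3 / 2 : ℝ)), ← rpow_mul hL0.le]
      norm_num
    rw [← h1]
    exact Real.sqrt_le_sqrt hXa
  have hsqpos : 0 < √(X ^ (d + 4)) := Real.sqrt_pos.mpr (by positivity)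
  set v : ℝ := 1 / (64 * √(X ^ (d + 4))) with hv
  have hv0 : 0 < v := by positivity
  have hvσ : 1 / (64 * √a) * L ^ (1 / 4 : ℝ) ≤ v / |σ| := by
    have h1 : v / |σ| = L / (64 * √(X ^ (d + 4))) := by
      rw [hv, hL]
      field_simp
    rw [h1]
    have h2 : L / (64 * (√a * L ^ (3 / 4 : ℝ))) ≤ L / (64 * √(X ^ (d + 4))) := by
      apply div_le_div_of_nonneg_left hL0.le (by positivity)
      linarith only [hsq]
    refine le_trans (le_of_eq ?_) h2
    have h3 : L = L ^ (1 / 4 : ℝ) * L ^ (3 / 4 : ℝ) := by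
      rw [← rpow_add hL0]
      norm_num
    have h4 : L / (64 * (√a * L ^ (3 / 4 : ℝ))) =
        (L ^ (1 / 4 : ℝ) * L ^ (3 / 4 : ℝ)) / (64 * (√a * L ^ (3 / 4 : ℝ))) := by
      rw [← h3]
    rw [h4]
    have h5 : 0 < L ^ (3 / 4 : ℝ) := by positivity
    have h6 : 0 < √a := Real.sqrt_pos.mpr ha0
    field_simp
  refine ⟨s, M, L ^ c₂, v, hs1, hM1, hLc2, hv0.le, ?_, ?_, ?_⟩
  · -- (64 v)² X^(d+4) ≤ 1
    have h1 : (64 * v) ^ 2 * X ^ (d + 4) = 1 := by
      have h2 : √(X ^ (d + 4)) ^ 2 = X ^ (d + 4) := Real.sq_sqrt (by positivity)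
      have h3 : 64 * v = 1 / √(X ^ (d + 4)) := by
        rw [hv]
        field_simp
      rw [h3, div_pow, h2, one_pow]
      field_simp
    exact h1.le
  · -- the logarithm
    have h1 : log (16 * d * X ^ d) = log (16 * d) + d * log X := by
      rw [log_mul (by positivity) (by positivity), log_pow]
    have h2 : log X ≤ log (22 * K₀) + (c₁ + c₂) * log L := by
      calc log X ≤ log (22 * K₀ * L ^ (c₁ + c₂)) := log_le_log hX0 hXle
        _ = log (22 * K₀) + (c₁ + c₂) * log L := by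
            rw [log_mul (by positivity) (by positivity), log_rpow hL0]
    have h3 : log L ≤ L ^ c₂ / c₂ := by
      have h4 : log (L ^ c₂) ≤ L ^ c₂ := by
        have := Real.log_le_sub_one_of_pos (show 0 < L ^ c₂ by positivity)
        linarith only [this]
      rw [log_rpow hL0] at h4
      rw [le_div_iff₀ hc2]
      linarith only [h4]
    have h5 : (d : ℝ) * log X ≤ d * log (22 * K₀) + d * (c₁ + c₂) / c₂ * L ^ c₂ := by
      have h6 : (c₁ + c₂) * log L ≤ (c₁ + c₂) * (L ^ c₂ / c₂) :=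
        mul_le_mul_of_nonneg_left h3 (by positivity)
      have h7 : (d : ℝ) * log X ≤ d * (log (22 * K₀) + (c₁ + c₂) * (L ^ c₂ / c₂)) :=
        mul_le_mul_of_nonneg_left (by linarith only [h2, h6]) hd0.le
      refine h7.trans (le_of_eq ?_)
      ring
    have h8 : 0 ≤ log (16 * (d : ℝ)) := log_nonneg (by linarith only [hd1])
    have h9 : 0 ≤ (d : ℝ) * log (22 * K₀) :=
      mul_nonneg hd0.le (log_nonneg (by linarith only [hK₀]))
    have h10 : log (16 * (d : ℝ)) + d * log (22 * K₀) ≤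
        (log (16 * (d : ℝ)) + d * log (22 * K₀)) * L ^ c₂ :=
      le_mul_of_one_le_right (add_nonneg h8 h9) hLc2
    have h11 : (log (16 * (d : ℝ)) + d * log (22 * K₀) + d * (c₁ + c₂) / c₂) * L ^ c₂ ≤
        K₀ / 2 * L ^ c₂ := mul_le_mul_of_nonneg_right hK₀' (by positivity)
    rw [h1]
    have h12 : (log (16 * (d : ℝ)) + d * log (22 * K₀) + d * (c₁ + c₂) / c₂) * L ^ c₂ =
        (log (16 * (d : ℝ)) + d * log (22 * K₀)) * L ^ c₂ + d * (c₁ + c₂) / c₂ * L ^ c₂ := by
      ring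
    have h13 := mul_le_mul_of_nonneg_right hsge (by norm_num : (0 : ℝ) ≤ 1 / 2)
    linarith only [h5, h10, h11, h12, h13]
  · -- the main inequality
    have hLn : 0 < L ^ (-c₁) := by positivity
    have hexpv : exp (-(v / |σ|)) ≤ K₁ * L ^ (-(d * (c₁ + c₂) + c₁)) := by
      exact le_trans (exp_le_exp.mpr (neg_le_neg hvσ)) (hexp₁ L hL1)
    have hexps : exp (-(s / 2 : ℝ)) ≤ K₂ * L ^ (-(d * (c₁ + c₂) + 1 + c₁)) := by
      refine le_trans (exp_le_exp.mpr ?_) (hexp₂ L hL1)
      linarith only [hsge]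
    have hXd : X ^ d ≤ (22 * K₀) ^ d * L ^ ((c₁ + c₂) * d) := by
      calc X ^ d ≤ (22 * K₀ * L ^ (c₁ + c₂)) ^ d := pow_le_pow_left₀ hX0.le hXle _
        _ = _ := by rw [mul_pow, hpowd]
    have hX5d : (8 * ((M : ℝ) * s) + 5) ^ d ≤ (26 * K₀) ^ d * L ^ ((c₁ + c₂) * d) := by
      calc (8 * ((M : ℝ) * s) + 5) ^ d ≤ (26 * K₀ * L ^ (c₁ + c₂)) ^ d :=
            pow_le_pow_left₀ (by positivity) hX5 _
        _ = _ := by rw [mul_pow, hpowd]
    have e1 : L ^ ((c₁ + c₂) * d) * L ^ (-(d * (c₁ + c₂) + c₁)) = L ^ (-c₁) := by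
      rw [← rpow_add hL0]
      ring_nf
    have e2 : L ^ ((c₁ + c₂) * d) * L * L ^ (-(d * (c₁ + c₂) + 1 + c₁)) = L ^ (-c₁) := by
      have h1 : L ^ ((c₁ + c₂) * d) * L = L ^ ((c₁ + c₂) * d + 1) := by
        rw [rpow_add hL0, rpow_one]
      rw [h1, ← rpow_add hL0]
      ring_nf
    have b1 : X ^ d * exp (-(v / |σ|)) ≤ (22 * K₀) ^ d * K₁ * L ^ (-c₁) := by
      calc X ^ d * exp (-(v / |σ|)) ≤ ((22 * K₀) ^ d * L ^ ((c₁ + c₂) * d)) *
            (K₁ * L ^ (-(d * (c₁ + c₂) + c₁))) :=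
            mul_le_mul hXd hexpv (exp_pos _).le (by positivity)
        _ = (22 * K₀) ^ d * K₁ * (L ^ ((c₁ + c₂) * d) * L ^ (-(d * (c₁ + c₂) + c₁))) := by ring
        _ = _ := by rw [e1]
    have b2 : (8 * ((M : ℝ) * s) + 5) ^ d * (L * exp (-(s / 2 : ℝ))) ≤
        (26 * K₀) ^ d * K₂ * L ^ (-c₁) := by
      calc (8 * ((M : ℝ) * s) + 5) ^ d * (L * exp (-(s / 2 : ℝ))) ≤
            ((26 * K₀) ^ d * L ^ ((c₁ + c₂) * d)) *
              (L * (K₂ * L ^ (-(d * (c₁ + c₂) + 1 + c₁)))) :=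
            mul_le_mul hX5d (mul_le_mul_of_nonneg_left hexps hL0.le)
              (mul_nonneg hL0.le (exp_pos _).le) (by positivity)
        _ = (26 * K₀) ^ d * K₂ *
            (L ^ ((c₁ + c₂) * d) * L * L ^ (-(d * (c₁ + c₂) + 1 + c₁))) := by ring
        _ = _ := by rw [e2]
    have h16 : 16 / |σ| = 16 * L := by rw [hL]; ring
    have t12 : 4 * (X ^ d * (4 * exp (-(v / |σ|))) +
        d * (8 * ((M : ℝ) * s) + 5) ^ d * (16 / |σ| * exp (-(s / 2 : ℝ)))) * 3 ^ d ≤
          (T₁ + T₂) * L ^ (-c₁) := by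
      have h3 : (0 : ℝ) < 3 ^ d := by positivity
      have h1 : 4 * (X ^ d * (4 * exp (-(v / |σ|))) +
          d * (8 * ((M : ℝ) * s) + 5) ^ d * (16 / |σ| * exp (-(s / 2 : ℝ)))) * 3 ^ d =
            16 * 3 ^ d * (X ^ d * exp (-(v / |σ|))) +
            64 * d * 3 ^ d * ((8 * ((M : ℝ) * s) + 5) ^ d * (L * exp (-(s / 2 : ℝ)))) := by
        rw [h16]
        ring
      have h4 : (T₁ + T₂) * L ^ (-c₁) = 16 * 3 ^ d * ((22 * K₀) ^ d * K₁ * L ^ (-c₁)) +
          64 * d * 3 ^ d * ((26 * K₀) ^ d * K₂ * L ^ (-c₁)) := by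
        rw [hT₁, hT₂]
        ring
      rw [h1, h4]
      exact add_le_add (mul_le_mul_of_nonneg_left b1 (by positivity))
        (mul_le_mul_of_nonneg_left b2 (by positivity))
    have t3 : 2 * 3 ^ d / (M : ℝ) ≤ T₃ * L ^ (-c₁) := by
      rw [div_le_iff₀ (by linarith only [hM1']), hT₃, rpow_neg hL0.le]
      have h1 : 0 < L ^ c₁ := by positivity
      have h2 : 4 * 3 ^ d * (L ^ c₁)⁻¹ * (L ^ c₁ / 2) = 2 * 3 ^ d := by
        field_simp
        norm_num
      calc (2 : ℝ) * 3 ^ d = 4 * 3 ^ d * (L ^ c₁)⁻¹ * (L ^ c₁ / 2) := h2.symm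
        _ ≤ 4 * 3 ^ d * (L ^ c₁)⁻¹ * M := mul_le_mul_of_nonneg_left hMge (by positivity)
    have t4 : (2 ^ d + 2 * (8 * (M : ℝ) + 9) ^ d / M) *
        (4 * 3 ^ d * (d * (C' * |σ| ^ (-A) * (s : ℝ) ^ (q + d + 1) / (L ^ c₂ * s) ^ q))) ≤
          T₄ * L ^ (-c₁) := by
      have h1 : (8 * (M : ℝ) + 9) ^ d / M ≤ 17 ^ d * L ^ (c₁ * d) := by
        have h2 : (8 * (M : ℝ) + 9) ^ d / M ≤ (8 * (M : ℝ) + 9) ^ d :=
          div_le_self (by positivity) hM1'
        refine h2.trans ?_
        calc (8 * (M : ℝ) + 9) ^ d ≤ (17 * L ^ c₁) ^ d :=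
              pow_le_pow_left₀ (by positivity) (by linarith only [hMle, hLc1]) _
          _ = 17 ^ d * L ^ (c₁ * d) := by
              rw [mul_pow, ← rpow_natCast (L ^ c₁) d, ← rpow_mul hL0.le]
      have h1L : (1 : ℝ) ≤ L ^ (c₁ * d) := one_le_rpow hL1 (by positivity)
      have h5 : 2 ^ d + 2 * (8 * (M : ℝ) + 9) ^ d / M ≤ (2 ^ d + 2 * 17 ^ d) * L ^ (c₁ * d) := by
        have h6 : (2 : ℝ) ^ d ≤ 2 ^ d * L ^ (c₁ * d) := le_mul_of_one_le_right (by positivity) h1L
        have h7 : 2 * (8 * (M : ℝ) + 9) ^ d / M = 2 * ((8 * (M : ℝ) + 9) ^ d / M) := by ring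
        rw [h7]
        have h8 : (2 ^ d + 2 * 17 ^ d) * L ^ (c₁ * d) =
            2 ^ d * L ^ (c₁ * d) + 2 * (17 ^ d * L ^ (c₁ * d)) := by ring
        linarith only [h1, h6, h8]
      have hs0 : (0 : ℝ) < s := by linarith only [hs1']
      have h9 : (s : ℝ) ^ (q + d + 1) / (L ^ c₂ * s) ^ q = (s : ℝ) ^ (d + 1) * L ^ (-(c₂ * q)) := by
        rw [mul_pow, ← rpow_natCast (L ^ c₂) q, ← rpow_mul hL0.le, rpow_neg hL0.le, add_assoc,
          pow_add]
        have : 0 < L ^ (c₂ * (q : ℝ)) := by positivity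
        field_simp
      have h10 : (s : ℝ) ^ (d + 1) ≤ (2 * K₀) ^ (d + 1) * L ^ (c₂ * (d + 1)) := by
        calc (s : ℝ) ^ (d + 1) ≤ (2 * K₀ * L ^ c₂) ^ (d + 1) := pow_le_pow_left₀ hs0.le hsle _
          _ = (2 * K₀) ^ (d + 1) * L ^ (c₂ * (d + 1)) := by
              rw [mul_pow, ← rpow_natCast (L ^ c₂) (d + 1), ← rpow_mul hL0.le]
              push_cast
              rfl
      have h11 : C' * |σ| ^ (-A) * (s : ℝ) ^ (q + d + 1) / (L ^ c₂ * s) ^ q =
          C' * L ^ A * ((s : ℝ) ^ (d + 1) * L ^ (-(c₂ * q))) := by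
        rw [hσL, neg_neg, mul_div_assoc, h9]
      rw [h11]
      have h12 : C' * L ^ A * ((s : ℝ) ^ (d + 1) * L ^ (-(c₂ * q))) ≤
          C' * (2 * K₀) ^ (d + 1) * L ^ (A + c₂ * (d + 1) - c₂ * q) := by
        have h13 : L ^ (A + c₂ * (d + 1) - c₂ * q) =
            L ^ A * L ^ (c₂ * ((d : ℝ) + 1)) * L ^ (-(c₂ * (q : ℝ))) := by
          rw [← rpow_add hL0, ← rpow_add hL0]
          ring_nf
        rw [h13]
        calc C' * L ^ A * ((s : ℝ) ^ (d + 1) * L ^ (-(c₂ * q))) ≤
              C' * L ^ A * (((2 * K₀) ^ (d + 1) * L ^ (c₂ * (d + 1))) * L ^ (-(c₂ * q))) :=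
              mul_le_mul_of_nonneg_left (mul_le_mul_of_nonneg_right h10 (by positivity))
                (by positivity)
          _ = _ := by ring
      have h14 : L ^ (c₁ * d) * L ^ (A + c₂ * (d + 1) - c₂ * q) ≤ L ^ (-c₁) := by
        rw [← rpow_add hL0]
        refine rpow_le_rpow_of_exponent_le hL1 ?_
        linarith only [hqq]
      calc (2 ^ d + 2 * (8 * (M : ℝ) + 9) ^ d / M) *
            (4 * 3 ^ d * (d * (C' * L ^ A * ((s : ℝ) ^ (d + 1) * L ^ (-(c₂ * q)))))) ≤
            ((2 ^ d + 2 * 17 ^ d) * L ^ (c₁ * d)) *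
            (4 * 3 ^ d * (d * (C' * (2 * K₀) ^ (d + 1) * L ^ (A + c₂ * (d + 1) - c₂ * q)))) := by
            refine mul_le_mul h5 ?_ (by positivity) (by positivity)
            exact mul_le_mul_of_nonneg_left (mul_le_mul_of_nonneg_left h12 (by positivity))
              (by positivity)
        _ = T₄ * (L ^ (c₁ * d) * L ^ (A + c₂ * (d + 1) - c₂ * q)) := by
            rw [hT₄]
            ring
        _ ≤ T₄ * L ^ (-c₁) := mul_le_mul_of_nonneg_left h14 hT₄0.le
    have hrhs : K * L ^ (-c₁) < (κ / (17 * L ^ c₂)) ^ d := by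
      have h1 : (K + 1) * (L ^ (-(1 / ((d : ℝ) * (d + 4)))) * L ^ (-c₂)) ≤ κ / (17 * L ^ c₂) := by
        rw [le_div_iff₀ (by positivity)]
        rw [hσL] at hκ
        have h2 : L ^ (-c₂) * L ^ c₂ = 1 := by
          rw [← rpow_add hL0]
          simp
        calc (K + 1) * (L ^ (-(1 / ((d : ℝ) * (d + 4)))) * L ^ (-c₂)) * (17 * L ^ c₂) =
              17 * (K + 1) * L ^ (-(1 / ((d : ℝ) * (d + 4)))) * (L ^ (-c₂) * L ^ c₂) := by ring
          _ ≤ κ := by rw [h2, mul_one]; exact hκ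
      have h3 : ((K + 1) * (L ^ (-(1 / ((d : ℝ) * (d + 4)))) * L ^ (-c₂))) ^ d =
          (K + 1) ^ d * L ^ (-c₁) := by
        rw [← rpow_add hL0, mul_pow]
        congr 1
        rw [← rpow_natCast, ← rpow_mul hL0.le]
        congr 1
        rw [← hcd]
        ring
      have h4 : K + 1 ≤ (K + 1) ^ d := le_self_pow₀ (by linarith only [hKpos]) (by omega)
      calc K * L ^ (-c₁) < (K + 1) * L ^ (-c₁) :=
            mul_lt_mul_of_pos_right (by linarith only []) hLn
        _ ≤ (K + 1) ^ d * L ^ (-c₁) := mul_le_mul_of_nonneg_right h4 hLn.le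
        _ = ((K + 1) * (L ^ (-(1 / ((d : ℝ) * (d + 4)))) * L ^ (-c₂))) ^ d := h3.symm
        _ ≤ (κ / (17 * L ^ c₂)) ^ d := pow_le_pow_left₀ (by positivity) h1 _
    refine lt_of_le_of_lt ?_ hrhs
    have hsum : K * L ^ (-c₁) = (T₁ + T₂) * L ^ (-c₁) + T₃ * L ^ (-c₁) + T₄ * L ^ (-c₁) := by
      rw [hK]
      ring
    rw [hsum]
    exact add_le_add (add_le_add t12 t3) t4

end Pool.Agent.LE.H15W
end -- Pool.Agent.Helper15_LEW.NUM

section -- Pool.Agent.Helper42_LEW.NUX

/-!
# Row NUX: the numbers of the band edge bound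
-/

set_option autoImplicit false

open Real Filter Topology

namespace Pool.Agent.LE.H42W

open Pool.Agent.LE.H15W

theorem nux : NuxStmt := by
  intro d A K hd hA hK
  have hd1 : (1 : ℝ) ≤ d := by exact_mod_cast hd
  have hd0 : (0 : ℝ) < d := by linarith only [hd1]
  set c₁ : ℝ := 1 / (4 * d) with hc₁
  set c₂ : ℝ := 1 / (16 * d ^ 2) with hc₂
  set c : ℝ := 3 / (16 * d ^ 2) with hc
  have hc1 : 0 < c₁ := by positivity
  have hc2 : 0 < c₂ := by positivity
  have hc0 : 0 < c := by positivity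
  have hcd : d * (c + c₂) = c₁ := by
    rw [hc₁, hc₂, hc]
    field_simp
    ring
  have hc11 : c₁ ≤ 1 := by
    rw [hc₁, div_le_one (by positivity)]
    linarith only [hd1]
  have hc12 : (c₁ + c₂) * d ≤ 1 / 2 := by
    have h1 : (c₁ + c₂) * d = 1 / 4 + 1 / (16 * d) := by
      rw [hc₁, hc₂]
      field_simp
    have h2 : 1 / (16 * (d : ℝ)) ≤ 1 / 16 := by
      apply one_div_le_one_div_of_le <;> linarith only [hd1]
    rw [h1]
    linarith only [h2]
  obtain ⟨q₁, hq₁⟩ := exists_nat_ge ((A + d * c₁ + c₂ * (d + 1) + c₁) / c₂)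
  refine ⟨max d q₁, c, le_max_left _ _, hc0, ?_⟩
  set q := max d q₁ with hq
  have hqq : A + d * c₁ + c₂ * (d + 1) + c₁ ≤ c₂ * q := by
    have h1 : (q₁ : ℝ) ≤ q := by exact_mod_cast le_max_right _ _
    have h2 : (A + d * c₁ + c₂ * (d + 1) + c₁) / c₂ ≤ q := hq₁.trans h1
    rw [div_le_iff₀ hc2] at h2
    linarith only [h2]
  intro C' hC'
  obtain ⟨K₀, hK₀, hK₀'⟩ := exists_K0 (log (16 * d)) d (d * (c₁ + c₂) / c₂) hd0.le
  have hK0 : 0 < K₀ := by linarith only [hK₀]
  obtain ⟨K₂, hK₂, hexp₂⟩ := exp_le_rpow (K₀ / 2) c₂ (d * (c₁ + c₂) + 1 + c₁)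
    (by positivity) hc2
  set T₁ : ℝ := 4 * 3 ^ d with hT₁
  set T₂ : ℝ := 128 * d * 3 ^ d * (26 * K₀) ^ d * K₂ with hT₂
  set T₃ : ℝ := 4 * 3 ^ d with hT₃
  set T₄ : ℝ := (2 ^ d + 2 * 17 ^ d) * (4 * 3 ^ d * (d * (C' * 2 ^ A * (2 * K₀) ^ (d + 1))))
    with hT₄
  have hT₁0 : 0 < T₁ := by positivity
  have hT₂0 : 0 < T₂ := by positivity
  have hT₃0 : 0 < T₃ := by positivity
  have hT₄0 : 0 < T₄ := by positivity
  set K' : ℝ := T₁ + T₂ + T₃ + T₄ with hK'
  have hKpos : 0 < K' := by positivity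
  set b : ℝ := K * (22 * K₀) ^ d with hb
  have hb0 : 0 < b := by positivity
  have hb2 : 0 ≤ b ^ 2 := sq_nonneg b
  refine ⟨17 * (K' + 1) + b ^ 2, by linarith only [hb2, hT₄0, hT₂0, hT₁0], ?_⟩
  intro σ κ L p hσ hσ1 hCL hσL hp hpL hκ
  have hσ0 : 0 < |σ| := abs_pos.mpr hσ
  have hL1 : 1 ≤ L := by linarith only [hCL, hb2, hT₄0, hT₂0, hT₁0]
  have hL0 : 0 < L := by linarith only [hCL, hb2, hT₄0, hT₂0, hT₁0]
  have hκ' : 17 * (K' + 1) * L ^ (-c) ≤ κ := by
    refine le_trans ?_ hκ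
    apply mul_le_mul_of_nonneg_right _ (by positivity)
    linarith only [hb2]
  have hLc1 : 1 ≤ L ^ c₁ := one_le_rpow hL1 hc1.le
  have hLc2 : 1 ≤ L ^ c₂ := one_le_rpow hL1 hc2.le
  set M : ℕ := ⌊L ^ c₁⌋₊ with hM
  set s : ℕ := ⌈K₀ * L ^ c₂⌉₊ with hs
  have hM1 : 1 ≤ M := by
    rw [hM, Nat.one_le_floor_iff]
    exact hLc1
  have hM1' : (1 : ℝ) ≤ M := by exact_mod_cast hM1
  have hMle : (M : ℝ) ≤ L ^ c₁ := Nat.floor_le (by positivity)
  have hMge : L ^ c₁ / 2 ≤ M := by
    have h1 : L ^ c₁ < M + 1 := Nat.lt_floor_add_one _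
    linarith only [h1, hM1']
  have hsge : K₀ * L ^ c₂ ≤ s := Nat.le_ceil _
  have hKL2 : 1 ≤ K₀ * L ^ c₂ := one_le_mul_of_one_le_of_one_le hK₀ hLc2
  have hs1' : (1 : ℝ) ≤ s := by linarith only [hKL2, hsge]
  have hs1 : 1 ≤ s := by exact_mod_cast hs1'
  have hsle : (s : ℝ) ≤ 2 * K₀ * L ^ c₂ := by
    have h1 : (s : ℝ) < K₀ * L ^ c₂ + 1 := Nat.ceil_lt_add_one (by positivity)
    linarith only [h1, hKL2]
  have hMs1 : (1 : ℝ) ≤ M * s := one_le_mul_of_one_le_of_one_le hM1' hs1'
  have hMs : (M : ℝ) * s ≤ 2 * K₀ * L ^ (c₁ + c₂) := by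
    rw [rpow_add hL0]
    calc (M : ℝ) * s ≤ L ^ c₁ * (2 * K₀ * L ^ c₂) :=
          mul_le_mul hMle hsle (by positivity) (by positivity)
      _ = 2 * K₀ * (L ^ c₁ * L ^ c₂) := by ring
  set X : ℝ := 8 * (M * s) + 3 with hX
  have hX1 : 1 ≤ X := by rw [hX]; linarith only [hMs1]
  have hX0 : 0 < X := by linarith only [hMs1]
  have hLcc : 1 ≤ L ^ (c₁ + c₂) := one_le_rpow hL1 (by positivity)
  have hKL : 1 ≤ K₀ * L ^ (c₁ + c₂) := one_le_mul_of_one_le_of_one_le hK₀ hLcc
  have hXle : X ≤ 22 * K₀ * L ^ (c₁ + c₂) := by rw [hX]; linarith only [hMs, hMs1]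
  have hX5 : 8 * ((M : ℝ) * s) + 5 ≤ 26 * K₀ * L ^ (c₁ + c₂) := by linarith only [hMs, hMs1]
  have hpowd : ∀ k : ℕ, (L ^ (c₁ + c₂)) ^ k = L ^ ((c₁ + c₂) * k) := by
    intro k
    rw [← rpow_natCast, ← rpow_mul hL0.le]
  have hXd : X ^ d ≤ (22 * K₀) ^ d * L ^ ((c₁ + c₂) * d) := by
    calc X ^ d ≤ (22 * K₀ * L ^ (c₁ + c₂)) ^ d := pow_le_pow_left₀ hX0.le hXle _
      _ = _ := by rw [mul_pow, hpowd]
  have hKX : K * X ^ d ≤ L := by
    have h1 : b ≤ L ^ (1 / 2 : ℝ) := by
      have h2 : b ^ 2 ≤ L := by linarith only [hCL, hT₄0, hT₂0, hT₁0]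
      have h3 : (b ^ 2) ^ (1 / 2 : ℝ) = b := by
        rw [← Real.sqrt_eq_rpow, Real.sqrt_sq hb0.le]
      calc b = (b ^ 2) ^ (1 / 2 : ℝ) := h3.symm
        _ ≤ _ := rpow_le_rpow (by positivity) h2 (by norm_num)
    have h4 : L ^ ((c₁ + c₂) * d) ≤ L ^ (1 / 2 : ℝ) := rpow_le_rpow_of_exponent_le hL1 hc12
    calc K * X ^ d ≤ K * ((22 * K₀) ^ d * L ^ ((c₁ + c₂) * d)) :=
          mul_le_mul_of_nonneg_left hXd (by linarith only [hK])
      _ = b * L ^ ((c₁ + c₂) * d) := by rw [hb]; ring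
      _ ≤ L ^ (1 / 2 : ℝ) * L ^ (1 / 2 : ℝ) := mul_le_mul h1 h4 (by positivity) (by positivity)
      _ = L := by rw [← rpow_add hL0]; norm_num
  have hXL : X ≤ L := by
    have h1 : X ≤ X ^ d := le_self_pow₀ hX1 (by omega)
    have h2 : X ^ d ≤ K * X ^ d := le_mul_of_one_le_left (by positivity) hK
    linarith only [h2, h1, hKX]
  refine ⟨s, M, L ^ c₂, hs1, hM1, hLc2, hKX, hXL, ?_, ?_⟩
  · -- the logarithm
    have h1 : log (16 * d * X ^ d) = log (16 * d) + d * log X := by
      rw [log_mul (by positivity) (by positivity), log_pow]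
    have h2 : log X ≤ log (22 * K₀) + (c₁ + c₂) * log L := by
      calc log X ≤ log (22 * K₀ * L ^ (c₁ + c₂)) := log_le_log hX0 hXle
        _ = log (22 * K₀) + (c₁ + c₂) * log L := by
            rw [log_mul (by positivity) (by positivity), log_rpow hL0]
    have h3 : log L ≤ L ^ c₂ / c₂ := by
      have h4 : log (L ^ c₂) ≤ L ^ c₂ := by
        have := Real.log_le_sub_one_of_pos (show 0 < L ^ c₂ by positivity)
        linarith only [this]
      rw [log_rpow hL0] at h4
      rw [le_div_iff₀ hc2]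
      linarith only [h4]
    have h5 : (d : ℝ) * log X ≤ d * log (22 * K₀) + d * (c₁ + c₂) / c₂ * L ^ c₂ := by
      have h6 : (c₁ + c₂) * log L ≤ (c₁ + c₂) * (L ^ c₂ / c₂) :=
        mul_le_mul_of_nonneg_left h3 (by positivity)
      have h7 : (d : ℝ) * log X ≤ d * (log (22 * K₀) + (c₁ + c₂) * (L ^ c₂ / c₂)) :=
        mul_le_mul_of_nonneg_left (by linarith only [h6, h2]) hd0.le
      refine h7.trans (le_of_eq ?_)
      ring
    have h8 : 0 ≤ log (16 * (d : ℝ)) := log_nonneg (by linarith only [hd1])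
    have h9 : 0 ≤ (d : ℝ) * log (22 * K₀) := mul_nonneg hd0.le (log_nonneg (by linarith only [hK₀]))
    have h10 : log (16 * (d : ℝ)) + d * log (22 * K₀) ≤
        (log (16 * (d : ℝ)) + d * log (22 * K₀)) * L ^ c₂ :=
      le_mul_of_one_le_right (by linarith only [h9, h8]) hLc2
    have h11 : (log (16 * (d : ℝ)) + d * log (22 * K₀) + d * (c₁ + c₂) / c₂) * L ^ c₂ ≤
        K₀ / 2 * L ^ c₂ := mul_le_mul_of_nonneg_right hK₀' (by positivity)
    rw [h1]
    have h12 : (log (16 * (d : ℝ)) + d * log (22 * K₀) + d * (c₁ + c₂) / c₂) * L ^ c₂ =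
        (log (16 * (d : ℝ)) + d * log (22 * K₀)) * L ^ c₂ + d * (c₁ + c₂) / c₂ * L ^ c₂ := by
      ring
    linarith only [h11, h10, h5, hsge]
  · -- the main inequality
    have hLn : 0 < L ^ (-c₁) := by positivity
    have hexps : exp (-(s / 2 : ℝ)) ≤ K₂ * L ^ (-(d * (c₁ + c₂) + 1 + c₁)) := by
      refine le_trans (exp_le_exp.mpr ?_) (hexp₂ L hL1)
      linarith only [hsge]
    have hX5d : (8 * ((M : ℝ) * s) + 5) ^ d ≤ (26 * K₀) ^ d * L ^ ((c₁ + c₂) * d) := by
      calc (8 * ((M : ℝ) * s) + 5) ^ d ≤ (26 * K₀ * L ^ (c₁ + c₂)) ^ d :=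
            pow_le_pow_left₀ (by positivity) hX5 _
        _ = _ := by rw [mul_pow, hpowd]
    have e2 : L ^ ((c₁ + c₂) * d) * L * L ^ (-(d * (c₁ + c₂) + 1 + c₁)) = L ^ (-c₁) := by
      have h1 : L ^ ((c₁ + c₂) * d) * L = L ^ ((c₁ + c₂) * d + 1) := by
        rw [rpow_add hL0, rpow_one]
      rw [h1, ← rpow_add hL0]
      ring_nf
    have b2 : (8 * ((M : ℝ) * s) + 5) ^ d * (L * exp (-(s / 2 : ℝ))) ≤
        (26 * K₀) ^ d * K₂ * L ^ (-c₁) := by
      calc (8 * ((M : ℝ) * s) + 5) ^ d * (L * exp (-(s / 2 : ℝ))) ≤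
            ((26 * K₀) ^ d * L ^ ((c₁ + c₂) * d)) *
              (L * (K₂ * L ^ (-(d * (c₁ + c₂) + 1 + c₁)))) :=
            mul_le_mul hX5d (mul_le_mul_of_nonneg_left hexps hL0.le)
              (mul_nonneg hL0.le (exp_pos _).le) (by positivity)
        _ = (26 * K₀) ^ d * K₂ *
            (L ^ ((c₁ + c₂) * d) * L * L ^ (-(d * (c₁ + c₂) + 1 + c₁))) := by ring
        _ = _ := by rw [e2]
    have h16 : 16 / |σ| ≤ 32 * L := by
      have h1 : 16 / |σ| = 16 * (1 / |σ|) := by ring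
      rw [h1]
      linarith only [hσL]
    have t12 : 4 * (p + d * (8 * ((M : ℝ) * s) + 5) ^ d *
        (16 / |σ| * exp (-(s / 2 : ℝ)))) * 3 ^ d ≤ (T₁ + T₂) * L ^ (-c₁) := by
      have h3 : (0 : ℝ) < 3 ^ d := by positivity
      have h5 : p ≤ L ^ (-c₁) := by
        refine hpL.trans ?_
        rw [one_div, ← rpow_neg_one]
        exact rpow_le_rpow_of_exponent_le hL1 (by linarith only [hc11])
      have h6 : d * (8 * ((M : ℝ) * s) + 5) ^ d * (16 / |σ| * exp (-(s / 2 : ℝ))) ≤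
          32 * d * ((8 * ((M : ℝ) * s) + 5) ^ d * (L * exp (-(s / 2 : ℝ)))) := by
        have h7 : 16 / |σ| * exp (-(s / 2 : ℝ)) ≤ 32 * L * exp (-(s / 2 : ℝ)) :=
          mul_le_mul_of_nonneg_right h16 (exp_pos _).le
        calc d * (8 * ((M : ℝ) * s) + 5) ^ d * (16 / |σ| * exp (-(s / 2 : ℝ)))
            ≤ d * (8 * ((M : ℝ) * s) + 5) ^ d * (32 * L * exp (-(s / 2 : ℝ))) :=
              mul_le_mul_of_nonneg_left h7 (by positivity)
          _ = _ := by ring
      have h8 : 32 * d * ((8 * ((M : ℝ) * s) + 5) ^ d * (L * exp (-(s / 2 : ℝ)))) ≤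
          32 * d * ((26 * K₀) ^ d * K₂ * L ^ (-c₁)) := mul_le_mul_of_nonneg_left b2 (by positivity)
      have h4 : (T₁ + T₂) * L ^ (-c₁) = 4 * (L ^ (-c₁) +
          32 * d * ((26 * K₀) ^ d * K₂ * L ^ (-c₁))) * 3 ^ d := by
        rw [hT₁, hT₂]
        ring
      rw [h4]
      apply mul_le_mul_of_nonneg_right _ h3.le
      linarith only [h8, h6, h5]
    have t3 : 2 * 3 ^ d / (M : ℝ) ≤ T₃ * L ^ (-c₁) := by
      rw [div_le_iff₀ (by linarith only [hM1']), hT₃, rpow_neg hL0.le]
      have h1 : 0 < L ^ c₁ := by positivity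
      have h2 : 4 * 3 ^ d * (L ^ c₁)⁻¹ * (L ^ c₁ / 2) = 2 * 3 ^ d := by
        field_simp
        norm_num
      calc (2 : ℝ) * 3 ^ d = 4 * 3 ^ d * (L ^ c₁)⁻¹ * (L ^ c₁ / 2) := h2.symm
        _ ≤ 4 * 3 ^ d * (L ^ c₁)⁻¹ * M := mul_le_mul_of_nonneg_left hMge (by positivity)
    have t4 : (2 ^ d + 2 * (8 * (M : ℝ) + 9) ^ d / M) *
        (4 * 3 ^ d * (d * (C' * |σ| ^ (-A) * (s : ℝ) ^ (q + d + 1) / (L ^ c₂ * s) ^ q))) ≤
          T₄ * L ^ (-c₁) := by
      have h1 : (8 * (M : ℝ) + 9) ^ d / M ≤ 17 ^ d * L ^ (c₁ * d) := by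
        have h2 : (8 * (M : ℝ) + 9) ^ d / M ≤ (8 * (M : ℝ) + 9) ^ d :=
          div_le_self (by positivity) hM1'
        refine h2.trans ?_
        calc (8 * (M : ℝ) + 9) ^ d ≤ (17 * L ^ c₁) ^ d :=
              pow_le_pow_left₀ (by positivity) (by linarith only [hMle, hLc1]) _
          _ = 17 ^ d * L ^ (c₁ * d) := by
              rw [mul_pow, ← rpow_natCast (L ^ c₁) d, ← rpow_mul hL0.le]
      have h1L : (1 : ℝ) ≤ L ^ (c₁ * d) := one_le_rpow hL1 (by positivity)
      have h5 : 2 ^ d + 2 * (8 * (M : ℝ) + 9) ^ d / M ≤ (2 ^ d + 2 * 17 ^ d) * L ^ (c₁ * d) := by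
        have h6 : (2 : ℝ) ^ d ≤ 2 ^ d * L ^ (c₁ * d) := le_mul_of_one_le_right (by positivity) h1L
        have h7 : 2 * (8 * (M : ℝ) + 9) ^ d / M = 2 * ((8 * (M : ℝ) + 9) ^ d / M) := by ring
        rw [h7]
        have h8 : (2 ^ d + 2 * 17 ^ d) * L ^ (c₁ * d) =
            2 ^ d * L ^ (c₁ * d) + 2 * (17 ^ d * L ^ (c₁ * d)) := by ring
        linarith only [h6, h1]
      have hs0 : (0 : ℝ) < s := by linarith only [hKL2, hsge]
      have h9 : (s : ℝ) ^ (q + d + 1) / (L ^ c₂ * s) ^ q = (s : ℝ) ^ (d + 1) * L ^ (-(c₂ * q)) := by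
        rw [mul_pow, ← rpow_natCast (L ^ c₂) q, ← rpow_mul hL0.le, rpow_neg hL0.le, add_assoc,
          pow_add]
        have : 0 < L ^ (c₂ * (q : ℝ)) := by positivity
        field_simp
      have h10 : (s : ℝ) ^ (d + 1) ≤ (2 * K₀) ^ (d + 1) * L ^ (c₂ * (d + 1)) := by
        calc (s : ℝ) ^ (d + 1) ≤ (2 * K₀ * L ^ c₂) ^ (d + 1) := pow_le_pow_left₀ hs0.le hsle _
          _ = (2 * K₀) ^ (d + 1) * L ^ (c₂ * (d + 1)) := by
              rw [mul_pow, ← rpow_natCast (L ^ c₂) (d + 1), ← rpow_mul hL0.le]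
              push_cast
              rfl
      have hσA : |σ| ^ (-A) ≤ 2 ^ A * L ^ A := by
        have h20 : |σ| ^ (-A) = (1 / |σ|) ^ A := by
          rw [one_div, inv_rpow hσ0.le, rpow_neg hσ0.le]
        rw [h20, ← mul_rpow (by norm_num) hL0.le]
        exact rpow_le_rpow (by positivity) hσL (by linarith only [hA])
      have h11 : C' * |σ| ^ (-A) * (s : ℝ) ^ (q + d + 1) / (L ^ c₂ * s) ^ q ≤
          C' * 2 ^ A * L ^ A * ((s : ℝ) ^ (d + 1) * L ^ (-(c₂ * q))) := by
        rw [mul_div_assoc, h9]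
        apply mul_le_mul_of_nonneg_right _ (by positivity)
        calc C' * |σ| ^ (-A) ≤ C' * (2 ^ A * L ^ A) := mul_le_mul_of_nonneg_left hσA hC'.le
          _ = _ := by ring
      have h12 : C' * 2 ^ A * L ^ A * ((s : ℝ) ^ (d + 1) * L ^ (-(c₂ * q))) ≤
          C' * 2 ^ A * (2 * K₀) ^ (d + 1) * L ^ (A + c₂ * (d + 1) - c₂ * q) := by
        have h13 : L ^ (A + c₂ * (d + 1) - c₂ * q) =
            L ^ A * L ^ (c₂ * ((d : ℝ) + 1)) * L ^ (-(c₂ * (q : ℝ))) := by
          rw [← rpow_add hL0, ← rpow_add hL0]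
          ring_nf
        rw [h13]
        calc C' * 2 ^ A * L ^ A * ((s : ℝ) ^ (d + 1) * L ^ (-(c₂ * q))) ≤
              C' * 2 ^ A * L ^ A * (((2 * K₀) ^ (d + 1) * L ^ (c₂ * (d + 1))) *
                L ^ (-(c₂ * q))) :=
              mul_le_mul_of_nonneg_left (mul_le_mul_of_nonneg_right h10 (by positivity))
                (by positivity)
          _ = _ := by ring
      have h14 : L ^ (c₁ * d) * L ^ (A + c₂ * (d + 1) - c₂ * q) ≤ L ^ (-c₁) := by
        rw [← rpow_add hL0]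
        refine rpow_le_rpow_of_exponent_le hL1 ?_
        linarith only [hqq]
      calc (2 ^ d + 2 * (8 * (M : ℝ) + 9) ^ d / M) *
            (4 * 3 ^ d * (d * (C' * |σ| ^ (-A) * (s : ℝ) ^ (q + d + 1) / (L ^ c₂ * s) ^ q))) ≤
            ((2 ^ d + 2 * 17 ^ d) * L ^ (c₁ * d)) *
            (4 * 3 ^ d * (d * (C' * 2 ^ A * (2 * K₀) ^ (d + 1) *
              L ^ (A + c₂ * (d + 1) - c₂ * q)))) := by
            refine mul_le_mul h5 ?_ (by positivity) (by positivity)
            exact mul_le_mul_of_nonneg_left (mul_le_mul_of_nonneg_left (h11.trans h12)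
              (by positivity)) (by positivity)
        _ = T₄ * (L ^ (c₁ * d) * L ^ (A + c₂ * (d + 1) - c₂ * q)) := by
            rw [hT₄]
            ring
        _ ≤ T₄ * L ^ (-c₁) := mul_le_mul_of_nonneg_left h14 hT₄0.le
    have hrhs : K' * L ^ (-c₁) < (κ / (17 * L ^ c₂)) ^ d := by
      have h1 : (K' + 1) * (L ^ (-c) * L ^ (-c₂)) ≤ κ / (17 * L ^ c₂) := by
        rw [le_div_iff₀ (by positivity)]
        have h2 : L ^ (-c₂) * L ^ c₂ = 1 := by
          rw [← rpow_add hL0]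
          simp
        calc (K' + 1) * (L ^ (-c) * L ^ (-c₂)) * (17 * L ^ c₂) =
              17 * (K' + 1) * L ^ (-c) * (L ^ (-c₂) * L ^ c₂) := by ring
          _ ≤ κ := by rw [h2, mul_one]; exact hκ'
      have h3 : ((K' + 1) * (L ^ (-c) * L ^ (-c₂))) ^ d = (K' + 1) ^ d * L ^ (-c₁) := by
        rw [← rpow_add hL0, mul_pow]
        congr 1
        rw [← rpow_natCast, ← rpow_mul hL0.le]
        congr 1
        rw [← hcd]
        ring
      have h4 : K' + 1 ≤ (K' + 1) ^ d := le_self_pow₀ (by linarith only [hT₄0, hT₂0, hT₁0]) (by omega)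
      calc K' * L ^ (-c₁) < (K' + 1) * L ^ (-c₁) := mul_lt_mul_of_pos_right (by linarith only []) hLn
        _ ≤ (K' + 1) ^ d * L ^ (-c₁) := mul_le_mul_of_nonneg_right h4 hLn.le
        _ = ((K' + 1) * (L ^ (-c) * L ^ (-c₂))) ^ d := h3.symm
        _ ≤ (κ / (17 * L ^ c₂)) ^ d := pow_le_pow_left₀ (by positivity) h1 _
    refine lt_of_le_of_lt ?_ hrhs
    have hsum : K' * L ^ (-c₁) = (T₁ + T₂) * L ^ (-c₁) + T₃ * L ^ (-c₁) + T₄ * L ^ (-c₁) := by
      rw [hK']
      ring
    rw [hsum]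
    exact add_le_add (add_le_add t12 t3) t4

end Pool.Agent.LE.H42W
end -- Pool.Agent.Helper42_LEW.NUX

section -- Pool.Agent.Helper42_LEF.UNC

/-!
# An uncertainty principle for the lattice Laplacian

A function supported in a cube of radius `r` satisfies `‖ψ‖ ≤ 4 (r + 1)² ‖(E - Δ) ψ‖` for every
real `E` (a virial identity).
-/

set_option autoImplicit false
set_option linter.unusedSectionVars false

open scoped BigOperators

noncomputable section

namespace Pool.Agent.LE.H42F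

open Pool.Agent.Anderson Pool.Agent.Loc

variable {d : ℕ}

/-- the lattice Laplacian on real functions -/
def Lp (ψ : Site d → ℝ) (x : Site d) : ℝ :=
  ∑ i : Fin d, (ψ (x + Pi.single i 1) + ψ (x - Pi.single i 1))

theorem shift {b : Site d} {r : ℕ} {F : Site d → ℝ} (hF : ∀ x, r < sd b x → F x = 0)
    {t : Site d} (ht : sd 0 t ≤ 3) :
    ∑ x ∈ box b (r + 3), F (x + t) = ∑ x ∈ box b (r + 3), F x := by
  have h1 : ∑ᶠ x, F x = ∑ x ∈ box b (r + 3), F x := by
    refine finsum_eq_sum_of_support_subset _ fun x hx => ?_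
    rw [Function.mem_support] at hx
    rw [Finset.mem_coe, mem_box]
    by_contra h
    exact hx (hF x (by omega))
  have h2 : ∑ᶠ x, F (x + t) = ∑ x ∈ box b (r + 3), F (x + t) := by
    refine finsum_eq_sum_of_support_subset _ fun x hx => ?_
    rw [Function.mem_support] at hx
    rw [Finset.mem_coe, mem_box]
    by_contra h
    apply hx
    apply hF
    have h3 := sd_triangle b (x + t) x
    have h4 : sd (x + t) x = sd 0 t := by
      unfold sd
      congr 1
      funext i
      simp only [Pi.add_apply, Pi.zero_apply]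
      rw [← Int.natAbs_neg]
      congr 1
      ring
    omega
  rw [← h1, ← h2]
  exact finsum_comp_equiv (Equiv.addRight t) (f := F)

theorem sd_single (i : Fin d) {c : ℤ} (hc : |c| ≤ 1) : sd (0 : Site d) (Pi.single i c) ≤ 1 := by
  rw [sd_le_iff]
  intro j
  by_cases h : j = i
  · subst h; simpa using hc
  · simp [h]

theorem unc (i₀ : Fin d) {ψ : Site d → ℝ} {b : Site d} {r : ℕ}
    (hψ : ∀ x, r < sd b x → ψ x = 0) (E : ℝ) :
    ∑ x ∈ box b (r + 3), ψ x ^ 2 ≤
      16 * ((r : ℝ) + 1) ^ 4 * ∑ x ∈ box b (r + 3), (E * ψ x - Lp ψ x) ^ 2 := by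
  set B := box b (r + 3) with hB
  set e : Site d := Pi.single i₀ 1 with he
  have hs : ∀ j : Fin d, sd (0 : Site d) (Pi.single j 1) ≤ 3 := fun j =>
    (sd_single j (by norm_num)).trans (by norm_num)
  have hs' : ∀ j : Fin d, sd (0 : Site d) (-Pi.single j 1) ≤ 3 := fun j => by
    rw [← Pi.single_neg]
    exact (sd_single j (by norm_num)).trans (by norm_num)
  set w : Site d → ℝ := fun x => ((x i₀ - b i₀ : ℤ) : ℝ) with hw
  have hwe : ∀ x, w (x + e) = w x + 1 := by
    intro x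
    simp only [hw, he, Pi.add_apply, Pi.single_eq_same]
    push_cast
    ring
  have hwe' : ∀ x, w (x + -e) = w x - 1 := by
    intro x
    simp only [hw, he, Pi.add_apply, Pi.neg_apply, Pi.single_eq_same]
    push_cast
    ring
  have hwj : ∀ x (j : Fin d), j ≠ i₀ → w (x + Pi.single j 1) = w x := by
    intro x j hj
    simp only [hw, Pi.add_apply, Pi.single_eq_of_ne (Ne.symm hj), add_zero]
  have hwj' : ∀ x (j : Fin d), j ≠ i₀ → w (x + -Pi.single j 1) = w x := by
    intro x j hj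
    simp only [hw, Pi.add_apply, Pi.neg_apply, Pi.single_eq_of_ne (Ne.symm hj), neg_zero, add_zero]
  set a : Site d → ℝ := fun x => ψ (x + e) with ha
  set c : Site d → ℝ := fun x => ψ (x + -e) with hc
  set P : Site d → ℝ := fun x => ∑ j ∈ Finset.univ.erase i₀,
    (ψ (x + Pi.single j 1) + ψ (x + -Pi.single j 1)) with hP
  have hL : ∀ x, Lp ψ x = a x + c x + P x := by
    intro x
    unfold Lp
    rw [← Finset.add_sum_erase _ _ (Finset.mem_univ i₀)]
    simp only [ha, hc, hP, sub_eq_add_neg, he]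
  -- the identities
  have I1 : ∑ x ∈ B, (w x + 1) * ψ x * a x = ∑ x ∈ B, w x * c x * ψ x := by
    rw [← shift (b := b) (r := r) (F := fun x => w x * c x * ψ x)
      (fun x hx => by rw [hψ x hx, mul_zero]) (hs i₀)]
    refine Finset.sum_congr rfl fun x _ => ?_
    simp only [hc, ha]
    rw [← he, hwe]
    have : x + e + -e = x := by abel
    rw [this]
  have I2 : ∑ x ∈ B, w x * a x ^ 2 = ∑ x ∈ B, (w x - 1) * ψ x ^ 2 := by
    rw [← shift (b := b) (r := r) (F := fun x => (w x - 1) * ψ x ^ 2)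
      (fun x hx => by rw [hψ x hx]; ring) (hs i₀)]
    refine Finset.sum_congr rfl fun x _ => ?_
    simp only [ha]
    rw [← he, hwe]
    ring
  have I3 : ∑ x ∈ B, w x * c x ^ 2 = ∑ x ∈ B, (w x + 1) * ψ x ^ 2 := by
    rw [← shift (b := b) (r := r) (F := fun x => (w x + 1) * ψ x ^ 2)
      (fun x hx => by rw [hψ x hx]; ring) (hs' i₀)]
    refine Finset.sum_congr rfl fun x _ => ?_
    simp only [hc]
    rw [← he, hwe']
    ring
  have I4 : ∑ x ∈ B, a x ^ 2 = ∑ x ∈ B, ψ x ^ 2 :=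
    shift (b := b) (r := r) (F := fun x => ψ x ^ 2) (fun x hx => by rw [hψ x hx]; ring) (hs i₀)
  have I5 : ∑ x ∈ B, c x ^ 2 = ∑ x ∈ B, ψ x ^ 2 :=
    shift (b := b) (r := r) (F := fun x => ψ x ^ 2) (fun x hx => by rw [hψ x hx]; ring) (hs' i₀)
  have I6 : ∑ x ∈ B, w x * c x * P x = ∑ x ∈ B, (w x + 1) * a x * P x := by
    simp only [hP, Finset.mul_sum]
    rw [Finset.sum_comm, Finset.sum_comm (s := B)]
    refine Finset.sum_congr rfl fun j hj => ?_
    have hj' := Finset.ne_of_mem_erase hj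
    have A1 : ∑ x ∈ B, w x * c x * ψ (x + Pi.single j 1) =
        ∑ x ∈ B, (w x + 1) * a x * ψ (x + -Pi.single j 1) := by
      have g1 := shift (b := b) (r := r) (F := fun x => (w x + 1) * ψ x *
        ψ (x + e + Pi.single j 1)) (fun x hx => by rw [hψ x hx]; ring) (hs' i₀)
      have g2 := shift (b := b) (r := r) (F := fun x => (w x + 1) * ψ x *
        ψ (x + e + Pi.single j 1)) (fun x hx => by rw [hψ x hx]; ring) (hs' j)
      rw [← he] at g1
      rw [← g1] at g2
      refine (Eq.trans ?_ g2.symm).trans ?_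
      · refine Finset.sum_congr rfl fun x _ => ?_
        simp only [hc]
        rw [hwe']
        have : x + -e + e + Pi.single j 1 = x + Pi.single j 1 := by abel
        rw [this]
        ring
      · refine Finset.sum_congr rfl fun x _ => ?_
        simp only [ha]
        rw [hwj' x j hj']
        have : x + -Pi.single j 1 + e + Pi.single j 1 = x + e := by abel
        rw [this]
        ring
    have A2 : ∑ x ∈ B, w x * c x * ψ (x + -Pi.single j 1) =
        ∑ x ∈ B, (w x + 1) * a x * ψ (x + Pi.single j 1) := by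
      have g1 := shift (b := b) (r := r) (F := fun x => (w x + 1) * ψ x *
        ψ (x + e + -Pi.single j 1)) (fun x hx => by rw [hψ x hx]; ring) (hs' i₀)
      have g2 := shift (b := b) (r := r) (F := fun x => (w x + 1) * ψ x *
        ψ (x + e + -Pi.single j 1)) (fun x hx => by rw [hψ x hx]; ring) (hs j)
      rw [← he] at g1
      rw [← g1] at g2
      refine (Eq.trans ?_ g2.symm).trans ?_
      · refine Finset.sum_congr rfl fun x _ => ?_
        simp only [hc]
        rw [hwe']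
        have : x + -e + e + -Pi.single j 1 = x + -Pi.single j 1 := by abel
        rw [this]
        ring
      · refine Finset.sum_congr rfl fun x _ => ?_
        simp only [ha]
        rw [hwj x j hj']
        have : x + Pi.single j 1 + e + -Pi.single j 1 = x + e := by abel
        rw [this]
        ring
    simp only [mul_add, Finset.sum_add_distrib]
    rw [A1, A2]
    ring
  -- the virial identity
  set f : Site d → ℝ := fun x => E * ψ x - Lp ψ x with hf
  have key : ∑ x ∈ B, (w x * (a x - c x)) * f x + ∑ x ∈ B, a x * f x =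
      (∑ x ∈ B, (a x - c x) ^ 2) / 2 := by
    have e1 : ∑ x ∈ B, (w x * (a x - c x)) * f x + ∑ x ∈ B, a x * f x =
        E * (∑ x ∈ B, (w x + 1) * ψ x * a x - ∑ x ∈ B, w x * c x * ψ x) -
        (∑ x ∈ B, w x * a x ^ 2 - ∑ x ∈ B, w x * c x ^ 2) +
        (∑ x ∈ B, w x * c x * P x - ∑ x ∈ B, (w x + 1) * a x * P x) -
        ∑ x ∈ B, a x ^ 2 - ∑ x ∈ B, a x * c x := by
      simp only [Finset.mul_sum, ← Finset.sum_add_distrib, ← Finset.sum_sub_distrib]
      refine Finset.sum_congr rfl fun x _ => ?_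
      simp only [hf]
      rw [hL]
      ring
    have e2 : ∑ x ∈ B, (a x - c x) ^ 2 =
        ∑ x ∈ B, a x ^ 2 + ∑ x ∈ B, c x ^ 2 - 2 * ∑ x ∈ B, a x * c x := by
      simp only [Finset.mul_sum, ← Finset.sum_add_distrib, ← Finset.sum_sub_distrib]
      refine Finset.sum_congr rfl fun x _ => ?_
      ring
    have e3 : ∑ x ∈ B, (w x + 1) * ψ x ^ 2 - ∑ x ∈ B, (w x - 1) * ψ x ^ 2 =
        2 * ∑ x ∈ B, ψ x ^ 2 := by
      simp only [Finset.mul_sum, ← Finset.sum_sub_distrib]
      refine Finset.sum_congr rfl fun x _ => ?_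
      ring
    rw [e1, e2, I1, I2, I3, I4, I5, I6]
    linarith only [e3]
  -- weights
  have hwD : ∀ x, (w x * (a x - c x)) ^ 2 ≤ ((r : ℝ) + 1) ^ 2 * (a x - c x) ^ 2 := by
    intro x
    by_cases h : a x - c x = 0
    · rw [h]; simp
    have h1 : |w x| ≤ (r : ℝ) + 1 := by
      by_contra hcon
      push Not at hcon
      apply h
      have hbig : (r : ℤ) + 1 < |x i₀ - b i₀| := by
        have : (((r : ℤ) + 1 : ℤ) : ℝ) < ((|x i₀ - b i₀| : ℤ) : ℝ) := by
          push_cast
          simpa [hw] using hcon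
        exact_mod_cast this
      have h2 : a x = 0 := by
        apply hψ
        by_contra hle
        push Not at hle
        have := sd_le_iff.1 hle i₀
        simp only [he, Pi.add_apply, Pi.single_eq_same] at this
        rw [abs_le] at this
        rw [lt_abs] at hbig
        omega
      have h3 : c x = 0 := by
        apply hψ
        by_contra hle
        push Not at hle
        have := sd_le_iff.1 hle i₀
        simp only [he, Pi.add_apply, Pi.neg_apply, Pi.single_eq_same] at this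
        rw [abs_le] at this
        rw [lt_abs] at hbig
        omega
      rw [h2, h3, sub_zero]
    rw [mul_pow]
    apply mul_le_mul_of_nonneg_right _ (sq_nonneg _)
    rw [← sq_abs (w x)]
    exact pow_le_pow_left₀ (abs_nonneg _) h1 2
  set X := ∑ x ∈ B, ψ x ^ 2 with hX
  set Y := ∑ x ∈ B, (a x - c x) ^ 2 with hY
  set Z := ∑ x ∈ B, f x ^ 2 with hZ
  have hX0 : 0 ≤ X := Finset.sum_nonneg fun x _ => sq_nonneg _
  have hY0 : 0 ≤ Y := Finset.sum_nonneg fun x _ => sq_nonneg _
  have hZ0 : 0 ≤ Z := Finset.sum_nonneg fun x _ => sq_nonneg _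
  set R : ℝ := (r : ℝ) + 1 with hR
  have hR0 : 0 < R := by positivity
  have hWD : ∑ x ∈ B, (w x * (a x - c x)) ^ 2 ≤ R ^ 2 * Y := by
    rw [hY, Finset.mul_sum]
    exact Finset.sum_le_sum fun x _ => hwD x
  -- Poincare
  have hPo : X ≤ R ^ 2 * Y := by
    have p1 : ∑ x ∈ B, (w x * (a x - c x)) * (a x + c x) = -(2 * X) := by
      have e1 : ∑ x ∈ B, (w x * (a x - c x)) * (a x + c x) =
          ∑ x ∈ B, w x * a x ^ 2 - ∑ x ∈ B, w x * c x ^ 2 := by
        rw [← Finset.sum_sub_distrib]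
        refine Finset.sum_congr rfl fun x _ => ?_
        ring
      rw [e1, I2, I3, hX, Finset.mul_sum, ← Finset.sum_sub_distrib, ← Finset.sum_neg_distrib]
      refine Finset.sum_congr rfl fun x _ => ?_
      ring
    have p2 := Finset.sum_mul_sq_le_sq_mul_sq B (fun x => w x * (a x - c x)) (fun x => a x + c x)
    rw [p1] at p2
    have p3 : ∑ x ∈ B, (a x + c x) ^ 2 ≤ 4 * X := by
      have e1 : 4 * X = 2 * (∑ x ∈ B, a x ^ 2 + ∑ x ∈ B, c x ^ 2) := by
        rw [I4, I5]; ring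
      rw [e1, ← Finset.sum_add_distrib, Finset.mul_sum]
      refine Finset.sum_le_sum fun x _ => ?_
      nlinarith only [sq_nonneg (a x - c x)]
    have p4 : (2 * X) ^ 2 ≤ R ^ 2 * Y * (4 * X) := by
      have e1 : (-(2 * X)) ^ 2 = (2 * X) ^ 2 := by ring
      rw [e1] at p2
      refine p2.trans ?_
      exact mul_le_mul hWD p3 (Finset.sum_nonneg fun x _ => sq_nonneg _) (by positivity)
    by_contra hcon
    push Not at hcon
    have hXpos : 0 < X := lt_of_le_of_lt (by positivity) hcon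
    nlinarith only [p4, hcon, hXpos]
  have hYZ : Y ≤ 16 * R ^ 2 * Z := by
    have q1 := Finset.sum_mul_sq_le_sq_mul_sq B (fun x => w x * (a x - c x)) f
    have q2 := Finset.sum_mul_sq_le_sq_mul_sq B a f
    rw [I4] at q2
    set s := ∑ x ∈ B, (w x * (a x - c x)) * f x with hs1
    set t := ∑ x ∈ B, a x * f x with ht1
    have q3 : s ^ 2 ≤ R ^ 2 * Y * Z := q1.trans (mul_le_mul_of_nonneg_right hWD hZ0)
    have q4 : t ^ 2 ≤ R ^ 2 * Y * Z := q2.trans (mul_le_mul_of_nonneg_right hPo hZ0)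
    have q5 : (Y / 2) ^ 2 ≤ 4 * (R ^ 2 * Y * Z) := by
      rw [← key]
      nlinarith only [sq_nonneg (s - t), q3, q4]
    by_contra hcon
    push Not at hcon
    have hYpos : 0 < Y := lt_of_le_of_lt (by positivity) hcon
    nlinarith only [q5, hcon, hYpos]
  calc X ≤ R ^ 2 * Y := hPo
    _ ≤ R ^ 2 * (16 * R ^ 2 * Z) := mul_le_mul_of_nonneg_left hYZ (by positivity)
    _ = 16 * R ^ 4 * Z := by ring

end Pool.Agent.LE.H42F
end
end -- Pool.Agent.Helper42_LEF.UNC

section -- Pool.Agent.Helper42_LEF.CDD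

/-!
# Deterministic conduction at weak disorder
-/

set_option autoImplicit false
set_option linter.unusedSectionVars false

open scoped BigOperators

noncomputable section

namespace Pool.Agent.LE.H42F

open Pool.Agent.Anderson Pool.Agent.Loc

variable {d : ℕ}

/-- the equation for the Green function -/
theorem gr_real {V : Site d → ℝ} {Λ : Finset (Site d)} {E : ℝ} (hdet : (RM V Λ E).det ≠ 0)
    {b x : Site d} (hb : b ∈ Λ) (hx : x ∈ Λ) (hx1 : box x 1 ⊆ Λ) :
    E * gr V Λ E b x - Lp (fun y => gr V Λ E b y) x - V x * gr V Λ E b x =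
      if b = x then 1 else 0 := by
  have h := gr_mul_rm hdet hb hx
  have h2 := sum_hop x Λ hx1 (fun y => gr V Λ E b y)
  unfold Lp
  rw [← h, ← h2]
  unfold rm
  have h3 : ∀ y ∈ Λ, gr V Λ E b y * ((if y = x then E - V y else 0) - hop y x) =
      (if y = x then gr V Λ E b x * (E - V x) else 0) - hop x y • gr V Λ E b y := by
    intro y _
    rw [hop_comm y x, smul_eq_mul]
    split_ifs with h4
    · rw [h4]; ring
    · ring
  rw [Finset.sum_congr rfl h3, Finset.sum_sub_distrib, Finset.sum_ite_eq', if_pos hx]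
  ring

/-- a plane wave -/
def pw (k : ℝ) (b : Site d) (x : Site d) : ℝ := ∏ i, Real.cos (k * ((x i : ℝ) - b i))

theorem pw_self (k : ℝ) (b : Site d) : pw k b b = 1 := by
  unfold pw
  simp

theorem pw_le (k : ℝ) (b x : Site d) : |pw k b x| ≤ 1 := by
  unfold pw
  rw [Finset.abs_prod]
  exact Finset.prod_le_one (fun i _ => abs_nonneg _) fun i _ => Real.abs_cos_le_one _

theorem pw_step (k : ℝ) (b x : Site d) (i : Fin d) :
    pw k b (x + Pi.single i 1) + pw k b (x - Pi.single i 1) = 2 * Real.cos k * pw k b x := by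
  unfold pw
  rw [← Finset.mul_prod_erase _ _ (Finset.mem_univ i),
    ← Finset.mul_prod_erase _ _ (Finset.mem_univ i),
    ← Finset.mul_prod_erase (Finset.univ) (fun i => Real.cos (k * ((x i : ℝ) - b i)))
      (Finset.mem_univ i)]
  have h1 : ∀ c : ℤ, ∏ j ∈ Finset.univ.erase i,
      Real.cos (k * (((x + Pi.single i c : Site d) j : ℝ) - b j)) =
      ∏ j ∈ Finset.univ.erase i, Real.cos (k * ((x j : ℝ) - b j)) := by
    intro c
    refine Finset.prod_congr rfl fun j hj => ?_
    rw [Pi.add_apply, Pi.single_eq_of_ne (Finset.ne_of_mem_erase hj), add_zero]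
  have h2 : x - Pi.single i 1 = x + Pi.single i (-1) := by
    rw [sub_eq_add_neg, ← Pi.single_neg]
  rw [h2, h1, h1]
  simp only [Pi.add_apply, Pi.single_eq_same]
  push_cast
  have e1 : k * ((x i : ℝ) + 1 - b i) = k * ((x i : ℝ) - b i) + k := by ring
  have e2 : k * ((x i : ℝ) + -1 - b i) = k * ((x i : ℝ) - b i) - k := by ring
  rw [e1, e2, Real.cos_add, Real.cos_sub]
  ring

theorem pw_lap (k : ℝ) (b x : Site d) : Lp (pw k b) x = 2 * d * Real.cos k * pw k b x := by
  unfold Lp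
  rw [Finset.sum_congr rfl fun i _ => pw_step k b x i, Finset.sum_const, Finset.card_univ,
    Fintype.card_fin, nsmul_eq_mul]
  ring

/-- summation by parts -/
theorem parts {b : Site d} {r : ℕ} {ψ : Site d → ℝ} (hψ : ∀ x, r < sd b x → ψ x = 0)
    (u : Site d → ℝ) :
    ∑ x ∈ box b (r + 3), u x * Lp ψ x = ∑ x ∈ box b (r + 3), Lp u x * ψ x := by
  unfold Lp
  simp only [Finset.mul_sum, Finset.sum_mul]
  rw [Finset.sum_comm, Finset.sum_comm (s := box b (r + 3))]
  refine Finset.sum_congr rfl fun i _ => ?_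
  have hs : sd (0 : Site d) (Pi.single i 1) ≤ 3 :=
    (sd_single i (by norm_num)).trans (by norm_num)
  have hs' : sd (0 : Site d) (-Pi.single i 1) ≤ 3 := by
    rw [← Pi.single_neg]
    exact (sd_single i (by norm_num)).trans (by norm_num)
  have g1 := shift (b := b) (r := r) (F := fun x => u (x - Pi.single i 1) * ψ x)
    (fun x hx => by rw [hψ x hx, mul_zero]) hs
  have g2 := shift (b := b) (r := r) (F := fun x => u (x + Pi.single i 1) * ψ x)
    (fun x hx => by rw [hψ x hx, mul_zero]) hs'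
  simp only [add_sub_cancel_right, neg_add_cancel_right] at g1 g2
  simp only [mul_add, add_mul, Finset.sum_add_distrib]
  simp only [sub_eq_add_neg] at g1 g2 ⊢
  rw [g1, g2]
  ring

theorem sq_one_add {a b A : ℝ} (h : a ^ 2 ≤ A) :
    (1 + a + b) ^ 2 ≤ 3 * (1 + A + b ^ 2) := by
  nlinarith only [sq_nonneg (1 - a), sq_nonneg (1 - b), sq_nonneg (a - b), h]

theorem sq_zero_add {a b A : ℝ} (h : a ^ 2 ≤ A) :
    (0 + a + b) ^ 2 ≤ 3 * (0 + A + b ^ 2) := by
  nlinarith only [sq_nonneg (a - b), sq_nonneg a, sq_nonneg b, h]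

theorem cdd : CddStmt := by
  intro d E v V Λ b r hd hE hv hvr hV hΛ hdet
  by_contra hcon
  push Not at hcon
  have hd0 : (0 : ℝ) < d := by exact_mod_cast hd
  have hd1 : (1 : ℝ) ≤ d := by exact_mod_cast hd
  set n : ℝ := 2 * (r : ℝ) + 3 with hn
  have hn1 : 1 ≤ n := by
    have : (0 : ℝ) ≤ r := Nat.cast_nonneg r
    rw [hn]; linarith only
  have hn0 : 0 < n := by linarith
  have hnd : 1 ≤ n ^ d := one_le_pow₀ hn1
  have hnd0 : 0 < n ^ d := by positivity
  set μ : ℝ := 1 / (16 * d * n ^ d) with hμ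
  have hμ0 : 0 < μ := by positivity
  have hg : ∀ y : Site d, (sd b y = r ∨ sd b y = r + 1) → |gr V Λ E b y| ≤ μ := by
    intro y hy
    have := hcon y hy
    rw [hμ, le_div_iff₀ (by positivity)]
    linarith only [this]
  have hbΛ : b ∈ Λ := hΛ (by rw [mem_box, sd_self]; exact Nat.zero_le _)
  set g : Site d → ℝ := fun y => gr V Λ E b y with hgdef
  set ψ : Site d → ℝ := fun x => if sd b x ≤ r then g x else 0 with hψdef
  have hψ : ∀ x, r < sd b x → ψ x = 0 := by
    intro x hx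
    simp only [hψdef]
    rw [if_neg (by omega)]
  set f : Site d → ℝ := fun x => E * ψ x - Lp ψ x with hf
  set e : Site d → ℝ := fun x => f x - (if b = x then 1 else 0) - V x * ψ x with he
  have hn1' : ∀ x : Site d, ∀ i : Fin d, sd x (x + Pi.single i 1) ≤ 1 ∧
      sd x (x - Pi.single i 1) ≤ 1 := fun x i => ⟨sd_add_single_le x i, sd_sub_single_le x i⟩
  have hsum : ∀ (F : Site d → ℝ) (x : Site d), (∀ y, sd x y ≤ 1 → |F y| ≤ μ) →
      |Lp F x| ≤ 2 * d * μ := by
    intro F x hF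
    unfold Lp
    calc |∑ i : Fin d, (F (x + Pi.single i 1) + F (x - Pi.single i 1))|
        ≤ ∑ i : Fin d, |F (x + Pi.single i 1) + F (x - Pi.single i 1)| :=
          Finset.abs_sum_le_sum_abs _ _
      _ ≤ ∑ _i : Fin d, 2 * μ := by
          refine Finset.sum_le_sum fun i _ => ?_
          have h1 := hF _ (hn1' x i).1
          have h2 := hF _ (hn1' x i).2
          have h3 := abs_add_le (F (x + Pi.single i 1)) (F (x - Pi.single i 1))
          linarith only [h1, h2, h3]
      _ = 2 * d * μ := by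
          rw [Finset.sum_const, Finset.card_univ, Fintype.card_fin, nsmul_eq_mul]
          ring
  have hLsub : ∀ (F F' : Site d → ℝ) (x : Site d), Lp (fun y => F y - F' y) x =
      Lp F x - Lp F' x := by
    intro F F' x
    unfold Lp
    rw [← Finset.sum_sub_distrib]
    refine Finset.sum_congr rfl fun i _ => ?_
    ring
  have hebd : ∀ x, |e x| ≤ 2 * d * μ := by
    intro x
    by_cases hx : sd b x ≤ r
    · have hx1 : box x 1 ⊆ Λ := by
        intro y hy
        apply hΛ
        rw [mem_box] at hy ⊢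
        have := sd_triangle b x y
        omega
      have hxΛ : x ∈ Λ := hx1 (by rw [mem_box, sd_self]; exact Nat.zero_le _)
      have h1 := gr_real hdet hbΛ hxΛ hx1
      have h2 : ψ x = g x := by simp only [hψdef]; rw [if_pos hx]
      have h3 : e x = Lp (fun y => g y - ψ y) x := by
        rw [hLsub]
        simp only [he, hf]
        rw [h2]
        simp only [hgdef] at h1 ⊢
        linarith only [h1]
      rw [h3]
      apply hsum
      intro y hy
      by_cases hyr : sd b y ≤ r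
      · have : ψ y = g y := by simp only [hψdef]; rw [if_pos hyr]
        rw [this, sub_self, abs_zero]
        exact hμ0.le
      · have h4 := hψ y (by omega)
        rw [h4, sub_zero]
        apply hg
        right
        have := sd_triangle b x y
        omega
    · push Not at hx
      have h2 := hψ x hx
      have h3 : b ≠ x := by
        rintro rfl
        rw [sd_self] at hx
        omega
      have h4 : e x = - Lp ψ x := by
        simp only [he, hf]
        rw [h2, if_neg h3]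
        ring
      rw [h4, abs_neg]
      apply hsum
      intro y hy
      by_cases hyr : sd b y ≤ r
      · have h5 : ψ y = g y := by simp only [hψdef]; rw [if_pos hyr]
        rw [h5]
        apply hg
        left
        have h6 := sd_triangle b y x
        rw [sd_comm y x] at h6
        omega
      · rw [hψ y (by omega), abs_zero]
        exact hμ0.le
  have he0 : ∀ x, r + 1 < sd b x → e x = 0 := by
    intro x hx
    have h2 := hψ x (by omega)
    have h3 : b ≠ x := by
      rintro rfl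
      rw [sd_self] at hx
      omega
    have h5 : Lp ψ x = 0 := by
      unfold Lp
      refine Finset.sum_eq_zero fun i _ => ?_
      have a1 := sd_triangle b (x + Pi.single i 1) x
      have a2 := sd_triangle b (x - Pi.single i 1) x
      have a3 := (hn1' x i).1
      have a4 := (hn1' x i).2
      rw [sd_comm] at a3 a4
      rw [hψ _ (by omega), hψ _ (by omega), add_zero]
    simp only [he, hf]
    rw [h2, if_neg h3, h5]
    ring
  set B := box b (r + 3) with hB
  have hB1 : box b (r + 1) ⊆ B := box_mono b (by omega)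
  have hbB : b ∈ B := by rw [mem_box, sd_self]; exact Nat.zero_le _
  -- sums of e
  have hcard : ((box b (r + 1)).card : ℝ) = n ^ d := by
    rw [card_box]
    push_cast
    rw [hn]
    ring
  have hcard' : ((box b r).card : ℝ) ≤ n ^ d := by
    rw [card_box]
    push_cast
    rw [hn]
    gcongr
    norm_num
  have hdμ : 2 * d * μ * n ^ d = 1 / 8 := by
    rw [hμ]
    field_simp
    norm_num
  have hdμ' : 2 * d * μ ≤ 1 / 8 := by
    rw [← hdμ]
    have : 0 ≤ 2 * d * μ := by positivity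
    exact le_mul_of_one_le_right this hnd
  have hesum : ∑ x ∈ B, |e x| ≤ 1 / 8 := by
    have h1 : ∑ x ∈ B, |e x| = ∑ x ∈ box b (r + 1), |e x| := by
      symm
      refine Finset.sum_subset hB1 fun x _ hx => ?_
      rw [mem_box] at hx
      rw [he0 x (by omega), abs_zero]
    rw [h1, ← hdμ]
    calc ∑ x ∈ box b (r + 1), |e x| ≤ ∑ _x ∈ box b (r + 1), 2 * d * μ :=
          Finset.sum_le_sum fun x _ => hebd x
      _ = 2 * d * μ * n ^ d := by
          rw [Finset.sum_const, nsmul_eq_mul, hcard]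
          ring
  have hesq : ∑ x ∈ B, e x ^ 2 ≤ 1 / 64 := by
    calc ∑ x ∈ B, e x ^ 2 ≤ ∑ x ∈ B, (1 / 8) * |e x| := by
          refine Finset.sum_le_sum fun x _ => ?_
          have h1 := hebd x
          rw [← sq_abs, sq]
          exact mul_le_mul_of_nonneg_right (h1.trans hdμ') (abs_nonneg _)
      _ = (1 / 8) * ∑ x ∈ B, |e x| := by rw [Finset.mul_sum]
      _ ≤ 1 / 64 := by linarith only [hesum]
  -- the square sum
  set X := ∑ x ∈ B, ψ x ^ 2 with hX
  have hX0 : 0 ≤ X := Finset.sum_nonneg fun x _ => sq_nonneg _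
  have hVψ : ∀ x, |V x * ψ x| ≤ v * |ψ x| := by
    intro x
    rw [abs_mul]
    by_cases hx : sd b x ≤ r
    · exact mul_le_mul_of_nonneg_right (hV x (mem_box.2 hx)) (abs_nonneg _)
    · rw [hψ x (by omega)]; simp
  have hZ : ∑ x ∈ B, f x ^ 2 ≤ 3 * (1 + v ^ 2 * X + 1 / 64) := by
    have h1 : ∀ x ∈ B, f x ^ 2 ≤ 3 * ((if b = x then 1 else 0) + v ^ 2 * ψ x ^ 2 + e x ^ 2) := by
      intro x _
      have h2 : f x = (if b = x then 1 else 0) + V x * ψ x + e x := by
        simp only [he]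
        ring
      have h3 : (V x * ψ x) ^ 2 ≤ v ^ 2 * ψ x ^ 2 := by
        have := hVψ x
        rw [← sq_abs (V x * ψ x), ← sq_abs (ψ x), ← mul_pow]
        exact pow_le_pow_left₀ (abs_nonneg _) this 2
      rw [h2]
      split_ifs
      · exact sq_one_add h3
      · exact sq_zero_add h3
    refine (Finset.sum_le_sum h1).trans ?_
    rw [← Finset.mul_sum, Finset.sum_add_distrib, Finset.sum_add_distrib, Finset.sum_ite_eq,
      if_pos hbB, ← Finset.mul_sum]
    linarith only [hesq]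
  have hunc := unc (⟨0, by omega⟩ : Fin d) hψ E
  have hr4 : 16 * ((r : ℝ) + 1) ^ 4 ≤ n ^ 4 := by
    have h1 : 16 * ((r : ℝ) + 1) ^ 4 = (2 * (r : ℝ) + 2) ^ 4 := by ring
    rw [h1, hn]
    gcongr
    norm_num
  have hXle : X ≤ n ^ 4 * (3 * (1 + v ^ 2 * X + 1 / 64)) := by
    refine hunc.trans ?_
    refine mul_le_mul hr4 hZ (Finset.sum_nonneg fun x _ => sq_nonneg _) (by positivity)
  have hvn : 4096 * v ^ 2 * n ^ 4 * n ^ d ≤ 1 := by
    have h1 : (64 * v) ^ 2 * n ^ (d + 4) = 4096 * v ^ 2 * n ^ 4 * n ^ d := by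
      rw [pow_add]; ring
    rw [← h1]
    exact hvr
  have hvn4 : 4096 * v ^ 2 * n ^ 4 ≤ 1 := by
    have : 0 ≤ 4096 * v ^ 2 * n ^ 4 := by positivity
    exact (le_mul_of_one_le_right this hnd).trans hvn
  have hX4 : X ≤ 4 * n ^ 4 := by
    have h1 : v ^ 2 * n ^ 4 * X ≤ X / 4096 := by
      have : 4096 * v ^ 2 * n ^ 4 * X ≤ 1 * X := mul_le_mul_of_nonneg_right hvn4 hX0
      linarith only [this]
    have h2 : 0 < n ^ 4 := by positivity
    have h3 : n ^ 4 * (3 * (1 + v ^ 2 * X + 1 / 64)) =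
        3 * n ^ 4 + 3 * (v ^ 2 * n ^ 4 * X) + 3 / 64 * n ^ 4 := by ring
    rw [h3] at hXle
    linarith only [hXle, h1, h2]
  -- the sum of |ψ|
  have hS1 : (∑ x ∈ B, |ψ x|) ^ 2 ≤ n ^ d * X := by
    have h1 : ∑ x ∈ B, |ψ x| = ∑ x ∈ box b r, |ψ x| := by
      symm
      refine Finset.sum_subset (box_mono b (by omega)) fun x _ hx => ?_
      rw [mem_box] at hx
      rw [hψ x (by omega), abs_zero]
    rw [h1]
    have h2 := sq_sum_le_card_mul_sum_sq (s := box b r) (f := fun x => |ψ x|)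
    refine h2.trans ?_
    refine mul_le_mul hcard' ?_ (Finset.sum_nonneg fun x _ => sq_nonneg _) hnd0.le
    simp only [sq_abs]
    exact Finset.sum_le_sum_of_subset_of_nonneg (box_mono b (by omega))
      fun x _ _ => sq_nonneg _
  set S := ∑ x ∈ B, |ψ x| with hS
  have hS0 : 0 ≤ S := Finset.sum_nonneg fun x _ => abs_nonneg _
  have hvS : v * S ≤ 1 / 32 := by
    have h1 : (v * S) ^ 2 ≤ (1 / 32) ^ 2 := by
      rw [mul_pow]
      have h2 : v ^ 2 * S ^ 2 ≤ v ^ 2 * (n ^ d * (4 * n ^ 4)) := by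
        apply mul_le_mul_of_nonneg_left _ (sq_nonneg v)
        exact hS1.trans (mul_le_mul_of_nonneg_left hX4 hnd0.le)
      have h3 : v ^ 2 * (n ^ d * (4 * n ^ 4)) = 4096 * v ^ 2 * n ^ 4 * n ^ d / 1024 := by ring
      rw [h3] at h2
      have h4 : 4096 * v ^ 2 * n ^ 4 * n ^ d / 1024 ≤ 1 / 1024 :=
        div_le_div_of_nonneg_right hvn (by norm_num)
      exact (h2.trans h4).trans (by norm_num)
    exact (pow_le_pow_iff_left₀ (mul_nonneg hv hS0) (by norm_num) two_ne_zero).1 h1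
  -- the plane wave
  set k := Real.arccos (E / (2 * d)) with hk
  have hck : 2 * d * Real.cos k = E := by
    have h1 : |E / (2 * d)| ≤ 1 := by
      rw [abs_div, abs_of_pos (by positivity : (0 : ℝ) < 2 * d), div_le_one (by positivity)]
      exact hE
    rw [hk, Real.cos_arccos (abs_le.1 h1).1 (abs_le.1 h1).2]
    field_simp
  have hpair : ∑ x ∈ B, pw k b x * f x = 0 := by
    have h1 : ∑ x ∈ B, pw k b x * f x =
        ∑ x ∈ B, E * (pw k b x * ψ x) - ∑ x ∈ B, pw k b x * Lp ψ x := by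
      rw [← Finset.sum_sub_distrib]
      refine Finset.sum_congr rfl fun x _ => ?_
      simp only [hf]
      ring
    rw [h1, parts hψ, ← Finset.sum_sub_distrib]
    refine Finset.sum_eq_zero fun x _ => ?_
    rw [pw_lap, hck]
    ring
  have hfin : (1 : ℝ) ≤ v * S + 1 / 8 := by
    have h1 : ∑ x ∈ B, pw k b x * f x = 1 + ∑ x ∈ B, pw k b x * (V x * ψ x + e x) := by
      have h2 : ∀ x ∈ B, pw k b x * f x = (if b = x then 1 else 0) +
          pw k b x * (V x * ψ x + e x) := by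
        intro x _
        have h3 : f x = (if b = x then 1 else 0) + V x * ψ x + e x := by
          simp only [he]
          ring
        rw [h3]
        split_ifs with h4
        · rw [← h4, pw_self]; ring
        · ring
      rw [Finset.sum_congr rfl h2, Finset.sum_add_distrib, Finset.sum_ite_eq, if_pos hbB]
    rw [hpair] at h1
    have h2 : |∑ x ∈ B, pw k b x * (V x * ψ x + e x)| ≤ v * S + 1 / 8 := by
      calc |∑ x ∈ B, pw k b x * (V x * ψ x + e x)|
          ≤ ∑ x ∈ B, |pw k b x * (V x * ψ x + e x)| := Finset.abs_sum_le_sum_abs _ _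
        _ ≤ ∑ x ∈ B, (v * |ψ x| + |e x|) := by
            refine Finset.sum_le_sum fun x _ => ?_
            rw [abs_mul]
            have h3 := pw_le k b x
            have h4 := abs_add_le (V x * ψ x) (e x)
            have h5 := hVψ x
            have h6 := abs_nonneg (V x * ψ x + e x)
            have h7 := mul_le_mul_of_nonneg_right h3 h6
            rw [one_mul] at h7
            exact h7.trans (h4.trans (add_le_add h5 le_rfl))
        _ = v * S + ∑ x ∈ B, |e x| := by
            rw [Finset.sum_add_distrib, ← Finset.mul_sum]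
        _ ≤ _ := by linarith only [hesum]
    have h3 := (abs_le.1 h2).1
    linarith only [hvS, h1, h3]
  linarith only [hvS, hfin]

end Pool.Agent.LE.H42F
end
end -- Pool.Agent.Helper42_LEF.CDD

section -- Pool.Agent.Helper59_LEW.Cdf

/-!
# Deterministic conduction from a flat landscape function
-/

set_option autoImplicit false
set_option linter.unusedSectionVars false

open scoped BigOperators

noncomputable section

namespace Pool.Agent.LE.H59W

open Matrix Pool.Agent.Anderson Pool.Agent.Loc Pool.Agent.BED Pool.Agent.LE.H42F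

variable {d : ℕ}

/-- the Green function, cut off outside a cube, solves the equation up to an error on two layers -/
theorem cut {E m : ℝ} {V : Site d → ℝ} {Λ : Finset (Site d)} {b : Site d} {r : ℕ}
    (hm : 0 ≤ m) (hΛ : box b (r + 1) ⊆ Λ) (hdet : (RM V Λ E).det ≠ 0)
    (hg : ∀ y : Site d, (sd b y = r ∨ sd b y = r + 1) → |gr V Λ E b y| ≤ m) :
    ∃ ψ e : Site d → ℝ, (∀ x, r < sd b x → ψ x = 0) ∧ (∀ x, |e x| ≤ 2 * d * m) ∧
      (∀ x, r + 1 < sd b x → e x = 0) ∧
      ∀ x, (E - V x) * ψ x - Lp ψ x = (if b = x then 1 else 0) + e x := by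
  have hbΛ : b ∈ Λ := hΛ (by rw [mem_box, sd_self]; exact Nat.zero_le _)
  set g : Site d → ℝ := fun y => gr V Λ E b y with hgdef
  set ψ : Site d → ℝ := fun x => if sd b x ≤ r then g x else 0 with hψdef
  have hψ : ∀ x, r < sd b x → ψ x = 0 := by
    intro x hx
    simp only [hψdef]
    rw [if_neg (by omega)]
  set e : Site d → ℝ := fun x => (E - V x) * ψ x - Lp ψ x - (if b = x then 1 else 0) with he
  have hn1' : ∀ x : Site d, ∀ i : Fin d, sd x (x + Pi.single i 1) ≤ 1 ∧
      sd x (x - Pi.single i 1) ≤ 1 := fun x i => ⟨sd_add_single_le x i, sd_sub_single_le x i⟩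
  have hsum : ∀ (F : Site d → ℝ) (x : Site d), (∀ y, sd x y ≤ 1 → |F y| ≤ m) →
      |Lp F x| ≤ 2 * d * m := by
    intro F x hF
    unfold Lp
    calc |∑ i : Fin d, (F (x + Pi.single i 1) + F (x - Pi.single i 1))|
        ≤ ∑ i : Fin d, |F (x + Pi.single i 1) + F (x - Pi.single i 1)| :=
          Finset.abs_sum_le_sum_abs _ _
      _ ≤ ∑ _i : Fin d, 2 * m := by
          refine Finset.sum_le_sum fun i _ => ?_
          have h1 := hF _ (hn1' x i).1
          have h2 := hF _ (hn1' x i).2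
          have h3 := abs_add_le (F (x + Pi.single i 1)) (F (x - Pi.single i 1))
          linarith only [h1, h2, h3]
      _ = 2 * d * m := by
          rw [Finset.sum_const, Finset.card_univ, Fintype.card_fin, nsmul_eq_mul]
          ring
  have hLsub : ∀ (F F' : Site d → ℝ) (x : Site d), Lp (fun y => F y - F' y) x =
      Lp F x - Lp F' x := by
    intro F F' x
    unfold Lp
    rw [← Finset.sum_sub_distrib]
    refine Finset.sum_congr rfl fun i _ => ?_
    ring
  refine ⟨ψ, e, hψ, ?_, ?_, ?_⟩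
  · intro x
    by_cases hx : sd b x ≤ r
    · have hx1 : box x 1 ⊆ Λ := by
        intro y hy
        apply hΛ
        rw [mem_box] at hy ⊢
        have := sd_triangle b x y
        omega
      have hxΛ : x ∈ Λ := hx1 (by rw [mem_box, sd_self]; exact Nat.zero_le _)
      have h1 := gr_real hdet hbΛ hxΛ hx1
      have h2 : ψ x = g x := by simp only [hψdef]; rw [if_pos hx]
      have h3 : e x = Lp (fun y => g y - ψ y) x := by
        rw [hLsub]
        simp only [he]
        rw [h2]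
        simp only [hgdef] at h1 ⊢
        linarith only [h1]
      rw [h3]
      apply hsum
      intro y hy
      by_cases hyr : sd b y ≤ r
      · have : ψ y = g y := by simp only [hψdef]; rw [if_pos hyr]
        rw [this, sub_self, abs_zero]
        exact hm
      · have h4 := hψ y (by omega)
        rw [h4, sub_zero]
        apply hg
        right
        have := sd_triangle b x y
        omega
    · push Not at hx
      have h2 := hψ x hx
      have h3 : b ≠ x := by
        rintro rfl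
        rw [sd_self] at hx
        omega
      have h4 : e x = - Lp ψ x := by
        simp only [he]
        rw [h2, if_neg h3]
        ring
      rw [h4, abs_neg]
      apply hsum
      intro y hy
      by_cases hyr : sd b y ≤ r
      · have h5 : ψ y = g y := by simp only [hψdef]; rw [if_pos hyr]
        rw [h5]
        apply hg
        left
        have h6 := sd_triangle b y x
        rw [sd_comm y x] at h6
        omega
      · rw [hψ y (by omega), abs_zero]
        exact hm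
  · intro x hx
    have h2 := hψ x (by omega)
    have h3 : b ≠ x := by
      rintro rfl
      rw [sd_self] at hx
      omega
    have h5 : Lp ψ x = 0 := by
      unfold Lp
      refine Finset.sum_eq_zero fun i _ => ?_
      have a1 := sd_triangle b (x + Pi.single i 1) x
      have a2 := sd_triangle b (x - Pi.single i 1) x
      have a3 := (hn1' x i).1
      have a4 := (hn1' x i).2
      rw [sd_comm] at a3 a4
      rw [hψ _ (by omega), hψ _ (by omega), add_zero]
    simp only [he]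
    rw [h2, if_neg h3, h5]
    ring
  · intro x
    simp only [he]
    ring

theorem sd_rep {M : ℕ} (b : Site d) (y : Tor d M) (k : ℕ) :
    sd b (b + rep y) ≤ k ↔ ∀ i, |rep y i| ≤ k := by
  rw [sd_le_iff]
  have h : ∀ i, |b i - (b + rep y) i| = |rep y i| := by
    intro i
    rw [Pi.add_apply, show b i - (b i + rep y i) = - rep y i by ring, abs_neg]
  simp only [h]

/-- the equation on the torus -/
theorem torus_eq {M : ℕ} [NeZero M] {E z : ℝ} {V ψ e : Site d → ℝ} {b : Site d} {r : ℕ}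
    (hM : 2 * r + 5 ≤ M) (hψ : ∀ x, r < sd b x → ψ x = 0) (he0 : ∀ x, r + 1 < sd b x → e x = 0)
    (heq : ∀ x, (E - V x) * ψ x - Lp ψ x = (if b = x then 1 else 0) + e x) (x : Tor d M) :
    (AM z (fun x : Tor d M => V (b + rep x)) *ᵥ fun x => ψ (b + rep x)) x =
      (if x = 0 then 1 else 0) + ((z - E) * ψ (b + rep x) + e (b + rep x)) := by
  rw [AM_mulVec]
  have hM' : (2 * (r : ℤ) + 5) ≤ M := by exact_mod_cast hM
  have hz : (b = b + rep x) ↔ x = 0 := by
    constructor
    · intro h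
      have h1 : rep x = 0 := by
        have h2 := congrArg (fun t => t - b) h
        simp only [sub_self, add_sub_cancel_left] at h2
        exact h2.symm
      funext i
      have := congrFun h1 i
      exact (ZMod.valMinAbs_eq_zero _).1 this
    · rintro rfl
      funext i
      simp [rep]
  by_cases hx : sd b (b + rep x) ≤ r + 1
  · have hb : ∀ i, 2 * (|rep x i| + 1) < (M : ℤ) := by
      intro i
      have h1 := (sd_rep b x (r + 1)).1 hx i
      push_cast at h1
      linarith only [hM, h1]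
    simp only [H73.rep_add_ev x hb, H73.rep_sub_ev x hb]
    have h := heq (b + rep x)
    unfold Lp at h
    have e1 : ∀ i : Fin d, ψ (b + (rep x + Pi.single i 1)) = ψ (b + rep x + Pi.single i 1) :=
      fun i => by rw [add_assoc]
    have e2 : ∀ i : Fin d, ψ (b + (rep x - Pi.single i 1)) = ψ (b + rep x - Pi.single i 1) :=
      fun i => by rw [add_sub_assoc]
    simp only [e1, e2]
    have e3 : (if b = b + rep x then (1 : ℝ) else 0) = if x = 0 then 1 else 0 := by
      simp only [hz]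
    rw [e3] at h
    linarith only [h]
  · push Not at hx
    have h0 : ψ (b + rep x) = 0 := hψ _ (by omega)
    have h1 : e (b + rep x) = 0 := he0 _ hx
    have h2 : x ≠ 0 := by
      rintro rfl
      rw [← hz.2 rfl, sd_self] at hx
      omega
    have h3 : ∀ i : Fin d, ψ (b + rep (x + ev i)) = 0 := by
      intro i
      apply hψ
      by_contra hc
      push Not at hc
      have hb : ∀ j, 2 * (|rep (x + ev i) j| + 1) < (M : ℤ) := by
        intro j
        have h4 := (sd_rep b (x + ev i) r).1 hc j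
        linarith only [hM, h4]
      have h5 := H73.rep_sub_ev (x + ev i) hb i
      rw [add_sub_cancel_right] at h5
      have h6 := sd_triangle b (b + rep (x + ev i)) (b + rep x)
      have h7 := sd_sub_single_le (b + rep (x + ev i)) i
      rw [h5] at h6 hx
      rw [← add_sub_assoc] at h6 hx
      omega
    have h3' : ∀ i : Fin d, ψ (b + rep (x - ev i)) = 0 := by
      intro i
      apply hψ
      by_contra hc
      push Not at hc
      have hb : ∀ j, 2 * (|rep (x - ev i) j| + 1) < (M : ℤ) := by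
        intro j
        have h4 := (sd_rep b (x - ev i) r).1 hc j
        linarith only [hM, h4]
      have h5 := H73.rep_add_ev (x - ev i) hb i
      rw [sub_add_cancel] at h5
      have h6 := sd_triangle b (b + rep (x - ev i)) (b + rep x)
      have h7 := sd_add_single_le (b + rep (x - ev i)) i
      rw [h5] at h6 hx
      rw [← add_assoc] at h6 hx
      omega
    rw [h0, h1, if_neg h2, Finset.sum_eq_zero fun i _ => by rw [h3, h3', add_zero]]
    ring

theorem GM_le_of_diag {M : ℕ} [NeZero M] {z C1 : ℝ} {V : Tor d M → ℝ} (hA : (AM z V).PosDef)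
    (hC : ∀ x, GM z V x x ≤ C1) (x y : Tor d M) : GM z V x y ≤ C1 := by
  by_cases hxy : x = y
  · rw [hxy]; exact hC y
  have h := nonneg_of_posDef hA.inv (fun w => (if w = x then (1 : ℝ) else 0) -
    (if w = y then 1 else 0))
  change 0 ≤ ∑ w, _ * (GM z V *ᵥ _) w at h
  have e1 : ∀ w, (GM z V *ᵥ fun w => (if w = x then (1 : ℝ) else 0) -
      (if w = y then 1 else 0)) w = GM z V w x - GM z V w y := by
    intro w
    simp only [Matrix.mulVec, dotProduct, mul_sub, Finset.sum_sub_distrib, mul_ite, mul_one,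
      mul_zero, Finset.sum_ite_eq', Finset.mem_univ, if_true]
  simp only [e1] at h
  simp only [sub_mul, Finset.sum_sub_distrib, ite_mul, one_mul, zero_mul, Finset.sum_ite_eq',
    Finset.mem_univ, if_true] at h
  have h1 := GM_symm hA x y
  have h2 := hC x
  have h3 := hC y
  linarith

theorem cdf : CdfStmt := by
  intro d M _ z μ E C1 lam V Λ b r hd hM hz hμ hC1 hflat hdiag hEz hlam hCμ hΛ hdet
  by_contra hcon
  push Not at hcon
  have hd0 : (0 : ℝ) < d := by exact_mod_cast hd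
  set n : ℝ := 2 * (r : ℝ) + 3 with hn
  have hr0 : (0 : ℝ) ≤ r := Nat.cast_nonneg r
  have hn0 : 0 < n := by rw [hn]; linarith only
  have hnd0 : 0 < n ^ d := by positivity
  set m : ℝ := 1 / (16 * d * n ^ d) with hm
  have hm0 : 0 < m := by positivity
  have hg : ∀ y : Site d, (sd b y = r ∨ sd b y = r + 1) → |gr V Λ E b y| ≤ m := by
    intro y hy
    have := hcon y hy
    rw [hm, le_div_iff₀ (by positivity)]
    linarith only [this]
  obtain ⟨ψ, e, hψ, hebd, he0, heq⟩ := cut hm0.le hΛ hdet hg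
  obtain ⟨-, hA, hD⟩ := hflat
  set U : Tor d M → ℝ := fun x : Tor d M => V (b + rep x) with hU
  set φ : Tor d M → ℝ := fun x => ψ (b + rep x) with hφ
  set f : Tor d M → ℝ := fun x => e (b + rep x) with hf
  set f' : Tor d M → ℝ := fun x => (z - E) * φ x + f x with hf'
  set k : ℝ := (2 * (r : ℝ) + 1) ^ d with hk
  have hk0 : 0 < k := by positivity
  have hinj : Function.Injective (fun x : Tor d M => b + rep x) := fun x y h =>
    H73.rep_inj (add_left_cancel h)
  -- the inside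
  set In : Finset (Tor d M) := Finset.univ.filter fun x => sd b (b + rep x) ≤ r with hIn
  have hIncard : (In.card : ℝ) ≤ k := by
    have h1 : In.card ≤ (box b r).card := by
      refine Finset.card_le_card_of_injOn (fun x => b + rep x) ?_ fun x _ y _ h => hinj h
      intro x hx
      rw [hIn, Finset.coe_filter] at hx
      rw [Finset.mem_coe, mem_box]
      exact hx.2
    rw [card_box] at h1
    rw [hk]
    exact_mod_cast h1
  have hφ0 : ∀ x, x ∉ In → φ x = 0 := by
    intro x hx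
    apply hψ
    by_contra hc
    apply hx
    rw [hIn, Finset.mem_filter]
    exact ⟨Finset.mem_univ _, by omega⟩
  -- the error
  have hcard : ((box b (r + 1)).card : ℝ) = n ^ d := by
    rw [card_box]
    push_cast
    rw [hn]
    ring
  have hF : ∑ x, |f x| ≤ 1 / 8 := by
    have h1 : ∑ x, |f x| = ∑ y ∈ Finset.univ.image (fun x : Tor d M => b + rep x), |e y| := by
      rw [Finset.sum_image fun x _ y _ h => hinj h]
    have h2 : ∑ y ∈ Finset.univ.image (fun x : Tor d M => b + rep x), |e y| ≤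
        ∑ y ∈ Finset.univ.image (fun x : Tor d M => b + rep x) ∪ box b (r + 1), |e y| :=
      Finset.sum_le_sum_of_subset_of_nonneg Finset.subset_union_left fun _ _ _ => abs_nonneg _
    have h3 : ∑ y ∈ Finset.univ.image (fun x : Tor d M => b + rep x) ∪ box b (r + 1), |e y| =
        ∑ y ∈ box b (r + 1), |e y| := by
      symm
      refine Finset.sum_subset Finset.subset_union_right fun y _ hy => ?_
      rw [mem_box] at hy
      rw [he0 y (by omega), abs_zero]
    rw [h1]
    refine h2.trans ?_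
    rw [h3]
    calc ∑ x ∈ box b (r + 1), |e x| ≤ ∑ _x ∈ box b (r + 1), 2 * d * m :=
          Finset.sum_le_sum fun x _ => hebd x
      _ = 2 * d * m * n ^ d := by
          rw [Finset.sum_const, nsmul_eq_mul, hcard]
          ring
      _ = 1 / 8 := by
          rw [hm]
          field_simp
          norm_num
  -- the representation
  have hrep : ∀ x, φ x = GM z U x 0 + ∑ y, GM z U x y * f' y := by
    intro x
    have h1 : AM z U *ᵥ φ = fun x => (if x = 0 then 1 else 0) + f' x := by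
      funext y
      exact torus_eq hM hψ he0 heq y
    have h2 := inv_mulVec hA φ
    rw [h1] at h2
    have h3 := congrFun h2 x
    rw [← h3]
    change (GM z U *ᵥ _) x = _
    simp only [Matrix.mulVec, dotProduct, mul_add, Finset.sum_add_distrib, mul_ite, mul_one,
      mul_zero, Finset.sum_ite_eq', Finset.mem_univ, if_true]
  have hG0 := GM_nonneg hA
  have hG1 := GM_le_of_diag hA hdiag
  -- the sup norm
  obtain ⟨x₀, -, hx₀⟩ := Finset.exists_max_image (Finset.univ : Finset (Tor d M))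
    (fun x => |φ x|) Finset.univ_nonempty
  set P : ℝ := |φ x₀| with hP
  have hP0 : 0 ≤ P := abs_nonneg _
  have hlam0 : 0 ≤ lam := (abs_nonneg _).trans hEz
  have hφ1 : ∑ x, |φ x| ≤ k * P := by
    have h1 : ∑ x, |φ x| = ∑ x ∈ In, |φ x| := by
      symm
      refine Finset.sum_subset (Finset.subset_univ _) fun x _ hx => ?_
      rw [hφ0 x hx, abs_zero]
    rw [h1]
    calc ∑ x ∈ In, |φ x| ≤ ∑ _x ∈ In, P := Finset.sum_le_sum fun x _ => hx₀ x (Finset.mem_univ _)
      _ = In.card * P := by rw [Finset.sum_const, nsmul_eq_mul]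
      _ ≤ k * P := mul_le_mul_of_nonneg_right hIncard hP0
  have hf'1 : ∑ x, |f' x| ≤ lam * (k * P) + 1 / 8 := by
    calc ∑ x, |f' x| ≤ ∑ x, (lam * |φ x| + |f x|) := by
          refine Finset.sum_le_sum fun x _ => ?_
          have h1 := abs_add_le ((z - E) * φ x) (f x)
          rw [abs_mul] at h1
          have h2 : |z - E| * |φ x| ≤ lam * |φ x| := by
            rw [abs_sub_comm]
            exact mul_le_mul_of_nonneg_right hEz (abs_nonneg _)
          linarith only [h1, h2]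
      _ = lam * ∑ x, |φ x| + ∑ x, |f x| := by rw [Finset.sum_add_distrib, Finset.mul_sum]
      _ ≤ _ := add_le_add (mul_le_mul_of_nonneg_left hφ1 hlam0) hF
  set S : ℝ := ∑ x, |f' x| with hS
  have hS0 : 0 ≤ S := Finset.sum_nonneg fun x _ => abs_nonneg _
  have hPle : P ≤ C1 + C1 * S := by
    rw [hP, hrep x₀]
    refine (abs_add_le _ _).trans (add_le_add ?_ ?_)
    · rw [abs_of_nonneg (hG0 _ _)]; exact hG1 _ _
    · refine (Finset.abs_sum_le_sum_abs _ _).trans ?_
      rw [hS, Finset.mul_sum]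
      refine Finset.sum_le_sum fun y _ => ?_
      rw [abs_mul, abs_of_nonneg (hG0 _ _)]
      exact mul_le_mul_of_nonneg_right (hG1 _ _) (abs_nonneg _)
  have hCl : 16 * (C1 * (lam * k)) ≤ 1 := by
    have : 16 * (C1 * (lam * k)) = 16 * C1 * lam * k := by ring
    rw [this]
    exact hlam
  have hlk : 0 ≤ lam * k := by positivity
  have hSle : S ≤ 1 / 4 := by
    have h1 : lam * (k * P) ≤ lam * k * (C1 + C1 * S) := by
      have : lam * (k * P) = lam * k * P := by ring
      rw [this]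
      exact mul_le_mul_of_nonneg_left hPle hlk
    have h2 : lam * k * (C1 + C1 * S) = C1 * (lam * k) * (1 + S) := by ring
    have h3 : C1 * (lam * k) * (1 + S) ≤ 1 / 16 * (1 + S) :=
      mul_le_mul_of_nonneg_right (by linarith only [hlam]) (by linarith only [hS0])
    linarith only [hf'1, h1, h3]
  -- the sum over the outside
  have hout : ∑ x ∈ Finset.univ \ In, φ x = 0 :=
    Finset.sum_eq_zero fun x hx => hφ0 x (Finset.mem_sdiff.1 hx).2
  have h1 : ∑ x ∈ Finset.univ \ In, φ x = ∑ x ∈ Finset.univ \ In, GM z U x 0 +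
      ∑ y, (∑ x ∈ Finset.univ \ In, GM z U x y) * f' y := by
    rw [Finset.sum_congr rfl fun x _ => hrep x, Finset.sum_add_distrib, Finset.sum_comm]
    simp only [Finset.sum_mul]
  have hcol : ∀ y, ∑ x, GM z U x y = DD z U y := by
    intro y
    unfold DD
    exact Finset.sum_congr rfl fun x _ => GM_symm hA x y
  have h2 : 98 / 100 * μ - k * C1 ≤ ∑ x ∈ Finset.univ \ In, GM z U x 0 := by
    have h3 := Finset.sum_sdiff (Finset.subset_univ In) (f := fun x => GM z U x 0)
    have h4 : ∑ x ∈ In, GM z U x 0 ≤ k * C1 := by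
      calc ∑ x ∈ In, GM z U x 0 ≤ ∑ _x ∈ In, C1 := Finset.sum_le_sum fun x _ => hG1 x 0
        _ = In.card * C1 := by rw [Finset.sum_const, nsmul_eq_mul]
        _ ≤ k * C1 := mul_le_mul_of_nonneg_right hIncard hC1.le
    have h5 := hcol 0
    have h6 := (abs_le.1 (hD 0)).1
    linarith
  have h3 : |∑ y, (∑ x ∈ Finset.univ \ In, GM z U x y) * f' y| ≤ 102 / 100 * μ * S := by
    refine (Finset.abs_sum_le_sum_abs _ _).trans ?_
    rw [hS, Finset.mul_sum]
    refine Finset.sum_le_sum fun y _ => ?_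
    have h4 : ∑ x ∈ Finset.univ \ In, GM z U x y ≤ DD z U y := by
      rw [← hcol y]
      exact Finset.sum_le_sum_of_subset_of_nonneg (Finset.subset_univ _) fun x _ _ => hG0 x y
    have h5 := (abs_le.1 (hD y)).2
    rw [abs_mul, abs_of_nonneg (Finset.sum_nonneg fun x _ => hG0 x y)]
    exact mul_le_mul_of_nonneg_right (by linarith) (abs_nonneg _)
  rw [hout] at h1
  have h4 := (abs_le.1 h3).1
  have h5 : 102 / 100 * μ * S ≤ 102 / 100 * μ * (1 / 4) :=
    mul_le_mul_of_nonneg_left hSle (by positivity)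
  have h6 : 4 * (k * C1) ≤ μ := by
    have : 4 * (k * C1) = 4 * C1 * k := by ring
    rw [this]
    exact hCμ
  linarith

end Pool.Agent.LE.H59W
end
end -- Pool.Agent.Helper59_LEW.Cdf
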