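import Pool.Agent.Helper12_MEB.B035

/-!
# Merged copies (generated) of the modules

* `Pool.Agent.Helper15_LE.SMN`
* `Pool.Agent.Helper15_LEC.BEN`
* `Pool.Agent.Helper96_LE.KeyX`
-/

set_option autoImplicit false

section -- Pool.Agent.Helper15_LE.SMN

/-!
# Row SMN: the numbers of the sharp multiscale induction
-/

set_option autoImplicit false

open scoped BigOperators

noncomputable section

namespace Pool.Agent.LE.H15

open Pool.Agent.LE

theorem smn_poly (C c : ℝ) (P : ℕ) (hC : 0 ≤ C) (hc : 0 < c) :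
    ∃ X : ℝ, ∀ x : ℝ, X ≤ x → C * x ^ P ≤ Real.exp (c * x) := by
  have h := (isLittleO_pow_exp_pos_mul_atTop (k := P) hc).def (c := (C + 1)⁻¹) (by positivity)
  obtain ⟨X, hX⟩ := Filter.eventually_atTop.1 h
  refine ⟨max X 0, fun x hx => ?_⟩
  have h0 : 0 ≤ x := (le_max_right _ _).trans hx
  have h1 := hX x ((le_max_left _ _).trans hx)
  rw [Real.norm_of_nonneg (by positivity), Real.norm_of_nonneg (Real.exp_pos _).le] at h1
  have h2 : (0 : ℝ) < C + 1 := by linarith only [hC]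
  have h3 : (C + 1) * x ^ P ≤ Real.exp (c * x) := by
    calc (C + 1) * x ^ P ≤ (C + 1) * ((C + 1)⁻¹ * Real.exp (c * x)) :=
          mul_le_mul_of_nonneg_left h1 h2.le
      _ = Real.exp (c * x) := by field_simp
  have h4 : 0 ≤ x ^ P := pow_nonneg h0 P
  linarith only [h3, h4]

theorem smn_sqrt (C c : ℝ) (P : ℕ) (hC : 0 ≤ C) (hc : 0 < c) :
    ∃ X : ℝ, ∀ x : ℝ, X ≤ x → C * x ^ P ≤ Real.exp (c * Real.sqrt x) := by
  obtain ⟨X, hX⟩ := smn_poly C c (2 * P) hC hc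
  refine ⟨max 0 (max X 0 ^ 2), fun x hx => ?_⟩
  have h0 : 0 ≤ x := (le_max_left _ _).trans hx
  have h1 : X ≤ Real.sqrt x :=
    (le_max_left _ _).trans (Real.le_sqrt_of_sq_le ((le_max_right _ _).trans hx))
  have h2 := hX _ h1
  rwa [pow_mul, Real.sq_sqrt h0] at h2

/-- one step -/
theorem stepN_of {d : ℕ} {ρ m μ μ' p p' δ : ℝ} {L N M : ℕ} (hL : 1 ≤ L) (hN : 45 ≤ N)
    (hδ0 : 0 < δ) (hδμ : δ ≤ μ) (hμm : μ ≤ m) (hM : N ^ 3 * L ≤ M)
    (h1 : 2 * d * (3 * (L : ℝ)) ^ d ≤ Real.exp (δ * L))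
    (h2 : 8 * (d : ℝ) ^ 2 * (33 * N * (L : ℝ)) ^ d * (3 * (L : ℝ)) ^ d ≤ Real.exp (3 * μ * L / 4))
    (h3 : δ + m * (48 / N + 1 / L) ≤ μ - μ')
    (h4 : ((7 * (M / L : ℝ)) ^ d * p) ^ (N + 1) ≤ p' / 2)
    (h5 : 24 * ρ * (5 * (M : ℝ)) ^ (3 * d + 1) ≤ Real.exp (μ * L / 4) * p') :
    StepN d ρ L μ p M μ' p' := by
  have hLr : (1 : ℝ) ≤ L := by exact_mod_cast hL
  have hNr : (45 : ℝ) ≤ N := by exact_mod_cast hN
  have hMr : (N : ℝ) ^ 3 * L ≤ M := by exact_mod_cast hM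
  have hL0 : (0 : ℝ) < L := by linarith only [hLr]
  have hN0 : (0 : ℝ) < N := by linarith only [hNr]
  have hμ0 : 0 < μ := lt_of_lt_of_le hδ0 hδμ
  have hM0 : (0 : ℝ) < M := lt_of_lt_of_le (by positivity) hMr
  have h45 : 45 * N ^ 2 * L ≤ M := by
    refine le_trans ?_ hM
    calc 45 * N ^ 2 * L ≤ N * N ^ 2 * L := by gcongr
      _ = N ^ 3 * L := by ring
  set q : ℝ := 2 * d * (3 * (L : ℝ)) ^ d * Real.exp (-μ * L) with hq
  have hq0 : 0 ≤ q := by positivity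
  have hqe : q ≤ Real.exp (-((μ - δ) * L)) := by
    calc q ≤ Real.exp (δ * L) * Real.exp (-μ * L) := by
          rw [hq]; gcongr
      _ = Real.exp (-((μ - δ) * L)) := by rw [← Real.exp_add]; congr 1; ring
  have hq1 : q ≤ 1 :=
    hqe.trans (Real.exp_le_one_iff.2 (neg_nonpos.2 (mul_nonneg (sub_nonneg.2 hδμ) hL0.le)))
  set n : ℕ := (M - 45 * N ^ 2 * L) / (L + 1) with hn
  have hn1 : n * (L + 1) + 45 * N ^ 2 * L ≤ M := by
    have := Nat.div_mul_le_self (M - 45 * N ^ 2 * L) (L + 1)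
    rw [← hn] at this
    omega
  have hn2 : M < (n + 1) * (L + 1) + 45 * N ^ 2 * L := by
    have h6 := Nat.lt_mul_div_succ (M - 45 * N ^ 2 * L) (Nat.succ_pos L)
    have h7 : (n + 1) * (L + 1) = (L + 1) * ((M - 45 * N ^ 2 * L) / (L + 1) + 1) := by
      rw [hn]; ring
    rw [h7]
    have h8 : L.succ = L + 1 := rfl
    rw [h8] at h6
    omega
  refine ⟨N, n, Real.exp (μ * L / 4), q, by omega, Real.exp_pos _, hq1, le_refl _, ?_, hn1, ?_, ?_⟩
  · have e1 : Real.exp (μ * L / 4) * (2 * d * (33 * N * (L : ℝ)) ^ d) * q =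
        (8 * (d : ℝ) ^ 2 * (33 * N * (L : ℝ)) ^ d * (3 * (L : ℝ)) ^ d) *
          Real.exp (-(3 * μ * L / 4)) / 2 := by
      have e2 : Real.exp (-(3 * μ * L / 4)) = Real.exp (μ * L / 4) * Real.exp (-μ * L) := by
        rw [← Real.exp_add]; congr 1; ring
      rw [e2, hq]; ring
    rw [e1]
    have e3 : (8 * (d : ℝ) ^ 2 * (33 * N * (L : ℝ)) ^ d * (3 * (L : ℝ)) ^ d) *
          Real.exp (-(3 * μ * L / 4)) ≤ 1 := by
      calc _ ≤ Real.exp (3 * μ * L / 4) * Real.exp (-(3 * μ * L / 4)) := by gcongr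
        _ = 1 := by rw [← Real.exp_add, add_neg_cancel, Real.exp_zero]
    linarith only [e3]
  · have e1 : q ^ n * Real.exp (μ * L / 4) ≤ Real.exp (-((μ - δ) * L)) ^ n * Real.exp (μ * L / 4) := by
      gcongr
    refine e1.trans ?_
    rw [← Real.exp_nat_mul, ← Real.exp_add]
    apply Real.exp_le_exp.2
    have hn1r : (n : ℝ) * (L + 1) + 45 * N ^ 2 * L ≤ M := by exact_mod_cast hn1
    have hn2r : (M : ℝ) < (n + 1) * (L + 1) + 45 * N ^ 2 * L := by exact_mod_cast hn2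
    have hNN : (N : ℝ) ^ 2 * L ≤ M / N := by
      rw [le_div_iff₀ hN0]
      have hh : (N : ℝ) ^ 2 * L * N = (N : ℝ) ^ 3 * L := by ring
      rw [hh]
      exact hMr
    have hN2 : (1 : ℝ) ≤ N ^ 2 := one_le_pow₀ (by linarith only [hNr])
    have hLN : (L : ℝ) ≤ N ^ 2 * L := le_mul_of_one_le_left hL0.le hN2
    have hnL : (n : ℝ) ≤ M / L := by
      rw [le_div_iff₀ hL0]
      have h9 : (0 : ℝ) ≤ 45 * N ^ 2 * L := by positivity
      have h10 : (0 : ℝ) ≤ n := Nat.cast_nonneg n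
      linarith only [hn1r, h9, h10]
    have hnLL : (M : ℝ) - 47 * (M / N) - M / L ≤ n * L := by
      have h11 : (n : ℝ) * L = n * (L + 1) - n := by ring
      rw [h11]
      linarith only [hn2r, hNN, hLN, hLr, hnL]
    have h12 : (μ - δ) * ((M : ℝ) - 47 * (M / N) - M / L) ≤ (μ - δ) * (n * L) :=
      mul_le_mul_of_nonneg_left hnLL (by linarith only [hδμ])
    have h13 : (M : ℝ) * (δ + m * (48 / N + 1 / L)) ≤ M * (μ - μ') :=
      mul_le_mul_of_nonneg_left h3 hM0.le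
    have h14 : (M : ℝ) * (δ + m * (48 / N + 1 / L)) = M * δ + m * (48 * (M / N) + M / L) := by
      ring
    have h15 : μ * (48 * ((M : ℝ) / N) + M / L) ≤ m * (48 * (M / N) + M / L) :=
      mul_le_mul_of_nonneg_right hμm (by positivity)
    have h16 : 0 ≤ δ * (47 * ((M : ℝ) / N) + M / L) := by positivity
    have h17 : μ * (L / 4) ≤ μ * (M / N) := by
      apply mul_le_mul_of_nonneg_left _ hμ0.le
      linarith only [hLN, hNN, hL0]
    linarith only [h12, h13, h14, h15, h16, h17]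
  · have e1 : 12 * ρ * (5 * (M : ℝ)) ^ (3 * d + 1) / Real.exp (μ * L / 4) ≤ p' / 2 := by
      rw [div_le_iff₀ (Real.exp_pos _)]
      linarith only [h5]
    linarith only [e1, h4]

/-- the scales -/
def scl (N0 L k : ℕ) : ℕ := L * ∏ i ∈ Finset.range k, (2 ^ i * N0) ^ 3

theorem scl_succ (N0 L k : ℕ) : scl N0 L (k + 1) = (2 ^ k * N0) ^ 3 * scl N0 L k := by
  unfold scl
  rw [Finset.prod_range_succ]
  ring

theorem scl_le (N0 L : ℕ) (h : 8 ≤ N0) : ∀ k, 8 ^ k * L ≤ scl N0 L k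
  | 0 => by simp [scl]
  | k + 1 => by
    rw [scl_succ]
    have h1 : 8 ≤ (2 ^ k * N0) ^ 3 := by
      have h2 : 8 ≤ 2 ^ k * N0 := h.trans (Nat.le_mul_of_pos_left _ (by positivity))
      exact h2.trans (Nat.le_self_pow (by norm_num) _)
    calc 8 ^ (k + 1) * L = 8 * (8 ^ k * L) := by ring
      _ ≤ (2 ^ k * N0) ^ 3 * scl N0 L k := Nat.mul_le_mul h1 (scl_le N0 L h k)

theorem scl_exp (N0 L : ℕ) : ∀ k, (scl N0 L k : ℝ) ≤ Real.exp ((L + 3 * (1 + N0)) * 3 ^ k)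
  | 0 => by
    simp only [scl, Finset.range_zero, Finset.prod_empty, mul_one, pow_zero]
    have h1 := Real.add_one_le_exp ((L : ℝ) + 3 * (1 + N0))
    have h2 : (0 : ℝ) ≤ N0 := Nat.cast_nonneg _
    linarith only [h1]
  | k + 1 => by
    rw [scl_succ]
    push_cast
    have h1 : ((2 : ℝ) ^ k * N0) ^ 3 ≤ Real.exp (3 * (1 + N0) * 3 ^ k) := by
      have h2 : (2 : ℝ) ^ k ≤ Real.exp (3 ^ k) := by
        have h3 := Real.add_one_le_exp ((3 : ℝ) ^ k)
        have h4 : (2 : ℝ) ^ k ≤ 3 ^ k := pow_le_pow_left₀ (by norm_num) (by norm_num) k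
        linarith
      have h5 : (N0 : ℝ) ≤ Real.exp (N0 * 3 ^ k) := by
        have h6 := Real.add_one_le_exp ((N0 : ℝ) * 3 ^ k)
        have h7 : (N0 : ℝ) ≤ N0 * 3 ^ k :=
          le_mul_of_one_le_right (Nat.cast_nonneg _) (one_le_pow₀ (by norm_num))
        linarith
      calc ((2 : ℝ) ^ k * N0) ^ 3 ≤ (Real.exp (3 ^ k) * Real.exp (N0 * 3 ^ k)) ^ 3 := by
            gcongr
        _ = Real.exp (3 * (1 + N0) * 3 ^ k) := by
            rw [← Real.exp_add, ← Real.exp_nat_mul]; congr 1; push_cast; ring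
    calc ((2 : ℝ) ^ k * N0) ^ 3 * scl N0 L k
        ≤ Real.exp (3 * (1 + N0) * 3 ^ k) * Real.exp ((L + 3 * (1 + N0)) * 3 ^ k) :=
          mul_le_mul h1 (scl_exp N0 L k) (Nat.cast_nonneg _) (Real.exp_pos _).le
      _ = Real.exp (((L : ℝ) + 6 * (1 + N0)) * 3 ^ k) := by
          rw [← Real.exp_add]; congr 1; ring
      _ ≤ Real.exp (((L : ℝ) + 3 * (1 + N0)) * 3 ^ (k + 1)) := by
          apply Real.exp_le_exp.2
          have h8 : (0 : ℝ) < 3 ^ k := by positivity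
          have h9 : (0 : ℝ) ≤ L := Nat.cast_nonneg _
          have h10 : (0 : ℝ) ≤ N0 := Nat.cast_nonneg _
          rw [pow_succ]
          linarith only [mul_nonneg h8.le h9, mul_nonneg h8.le h10, h8]

theorem x0_ok (d N0 : ℕ) (k : ℕ) : (56 * ((2 : ℝ) ^ k * N0) ^ 6) ^ d ≤
    Real.exp (4 ^ k * (2 * d * (56 * (N0 : ℝ) ^ 6 + 3)) / 2) := by
  have h1 : (4 : ℝ) ^ k ≤ Real.exp (4 ^ k) := by
    have := Real.add_one_le_exp ((4 : ℝ) ^ k)
    linarith
  have h2 : 56 * (N0 : ℝ) ^ 6 ≤ Real.exp (56 * (N0 : ℝ) ^ 6 * 4 ^ k) := by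
    have h6 := Real.add_one_le_exp (56 * (N0 : ℝ) ^ 6 * 4 ^ k)
    have h7 : 56 * (N0 : ℝ) ^ 6 ≤ 56 * (N0 : ℝ) ^ 6 * 4 ^ k :=
      le_mul_of_one_le_right (by positivity) (one_le_pow₀ (by norm_num))
    linarith
  have h3 : 56 * ((2 : ℝ) ^ k * N0) ^ 6 ≤ Real.exp ((56 * (N0 : ℝ) ^ 6 + 3) * 4 ^ k) := by
    calc 56 * ((2 : ℝ) ^ k * N0) ^ 6 = (56 * (N0 : ℝ) ^ 6) * (4 ^ k) ^ 3 := by
          rw [mul_pow, ← pow_mul, ← pow_mul, mul_comm k 6, mul_comm k 3, pow_mul, pow_mul (4 : ℝ)]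
          norm_num
          ring
      _ ≤ Real.exp (56 * (N0 : ℝ) ^ 6 * 4 ^ k) * Real.exp (4 ^ k) ^ 3 := by
          gcongr
      _ = Real.exp ((56 * (N0 : ℝ) ^ 6 + 3) * 4 ^ k) := by
          rw [← Real.exp_nat_mul, ← Real.exp_add]; congr 1; push_cast; ring
  calc (56 * ((2 : ℝ) ^ k * N0) ^ 6) ^ d ≤ Real.exp ((56 * (N0 : ℝ) ^ 6 + 3) * 4 ^ k) ^ d := by
        gcongr
    _ = _ := by rw [← Real.exp_nat_mul]; congr 1; ring

theorem scl_mono (N0 L : ℕ) (h : 8 ≤ N0) : Monotone (scl N0 L) := by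
  refine monotone_nat_of_le_succ fun k => ?_
  rw [scl_succ]
  exact Nat.le_mul_of_pos_left _ (by positivity)

theorem scl_find (N0 L k0 M : ℕ) (h : 8 ≤ N0) (hL : 1 ≤ L) (hM : scl N0 L (k0 + 1) ≤ M) :
    ∃ k, k0 ≤ k ∧ scl N0 L (k + 1) ≤ M ∧ M < scl N0 L (k + 2) := by
  have hex : ∃ j, M < scl N0 L j := ⟨M, by
    have h1 := scl_le N0 L h M
    have h2 : M < 8 ^ M := Nat.lt_pow_self (by norm_num)
    exact h2.trans_le ((Nat.le_mul_of_pos_right _ hL).trans h1)⟩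
  classical
  set j := Nat.find hex with hj
  have h1 : M < scl N0 L j := Nat.find_spec hex
  have h2 : k0 + 2 ≤ j := by
    by_contra hcon
    have h3 : scl N0 L j ≤ scl N0 L (k0 + 1) := scl_mono N0 L h (by omega)
    omega
  refine ⟨j - 2, by omega, ?_, ?_⟩
  · have h4 : ¬ M < scl N0 L (j - 2 + 1) := Nat.find_min hex (by omega)
    omega
  · rwa [show j - 2 + 2 = j by omega]

theorem smn_exp_half {y : ℝ} (hy : 1 ≤ y) : Real.exp (-y) ≤ 1 / 2 := by
  have e9 : Real.exp (-y) ≤ Real.exp (-1) := Real.exp_le_exp.2 (by linarith only [hy])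
  have e10 : Real.exp (-1) ≤ 1 / 2 := by
    rw [Real.exp_neg, ← one_div, one_div_le_one_div (Real.exp_pos _) (by norm_num)]
    have := Real.add_one_le_exp (1 : ℝ)
    linarith only [this]
  exact e9.trans e10

/-- the probabilities, exact scales -/
theorem smn_p1 {d N0 k : ℕ} {x0 : ℝ} (hN0r : (48 : ℝ) ≤ N0) (hN : 45 ≤ 2 ^ k * N0) (hx2 : 2 ≤ x0)
    (hx0k : (56 * ((2 : ℝ) ^ k * N0) ^ 6) ^ d ≤ Real.exp (4 ^ k * x0 / 2)) :
    ((7 * ((2 : ℝ) ^ k * N0) ^ 3) ^ d * Real.exp (-(4 ^ k * x0))) ^ (2 ^ k * N0 + 1) ≤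
      Real.exp (-(4 ^ (k + 1) * x0)) / 2 := by
  have e2 : (7 * ((2 : ℝ) ^ k * N0) ^ 3) ^ d ≤ Real.exp (4 ^ k * x0 / 2) := by
    refine le_trans ?_ hx0k
    have e3 : (1 : ℝ) ≤ 2 ^ k * N0 := by
      have : (1 : ℝ) ≤ 2 ^ k := one_le_pow₀ (by norm_num)
      nlinarith only [this, hN0r]
    have e4 : ((2 : ℝ) ^ k * N0) ^ 3 ≤ (2 ^ k * N0) ^ 6 := pow_le_pow_right₀ e3 (by norm_num)
    have e5 : (0 : ℝ) ≤ (2 ^ k * N0) ^ 3 := by positivity
    gcongr ?_ ^ d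
    linarith only [e4, e5]
  have e6 : (7 * ((2 : ℝ) ^ k * N0) ^ 3) ^ d * Real.exp (-(4 ^ k * x0)) ≤
      Real.exp (-(4 ^ k * x0 / 2)) := by
    calc _ ≤ Real.exp (4 ^ k * x0 / 2) * Real.exp (-(4 ^ k * x0)) :=
          mul_le_mul_of_nonneg_right e2 (Real.exp_pos _).le
      _ = Real.exp (-(4 ^ k * x0 / 2)) := by rw [← Real.exp_add]; congr 1; ring
  have e7 : Real.exp (-(4 ^ k * x0 / 2)) ≤ 1 / 2 := by
    apply smn_exp_half
    have : (1 : ℝ) ≤ 4 ^ k := one_le_pow₀ (by norm_num)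
    nlinarith only [this, hx2]
  have e11 : Real.exp (-(4 ^ (k + 1) * x0)) = Real.exp (-(4 ^ k * x0 / 2)) ^ 8 := by
    rw [← Real.exp_nat_mul]; congr 1; push_cast; ring
  rw [e11]
  have e0 : (0 : ℝ) ≤ (7 * ((2 : ℝ) ^ k * N0) ^ 3) ^ d * Real.exp (-(4 ^ k * x0)) := by positivity
  set y : ℝ := Real.exp (-(4 ^ k * x0 / 2)) with hy
  have hy0 : 0 ≤ y := (Real.exp_pos _).le
  calc ((7 * ((2 : ℝ) ^ k * N0) ^ 3) ^ d * Real.exp (-(4 ^ k * x0))) ^ (2 ^ k * N0 + 1)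
      ≤ y ^ (2 ^ k * N0 + 1) := pow_le_pow_left₀ e0 e6 _
    _ ≤ y ^ 9 := pow_le_pow_of_le_one hy0 (by linarith only [e7]) (by omega)
    _ = y ^ 8 * y := pow_succ _ _
    _ ≤ y ^ 8 * (1 / 2) := mul_le_mul_of_nonneg_left e7 (pow_nonneg hy0 8)
    _ = y ^ 8 / 2 := by ring

/-- the error terms, exact scales -/
theorem smn_p2 {d N0 k L : ℕ} {ρ m x μk x0 : ℝ} (hρ : 0 < ρ) (hm : 0 < m) (hx1 : 1 ≤ x)
    (hx2' : (2 : ℝ) ^ k ≤ x) (hx4 : (4 : ℝ) ^ k * L ≤ x) (hLa : 64 * x0 ≤ m * L)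
    (hμ2 : m / 2 ≤ μk)
    (hX3 : 24 * ρ * (5 * (N0 : ℝ) ^ 3) ^ (3 * d + 1) * x ^ (4 * (3 * d + 1)) ≤
      Real.exp (m / 16 * x)) :
    24 * ρ * (5 * (((2 : ℝ) ^ k * N0) ^ 3 * x)) ^ (3 * d + 1) ≤
      Real.exp (μk * x / 4) * Real.exp (-(4 ^ (k + 1) * x0)) := by
  have hx0 : 0 < x := by linarith only [hx1]
  calc 24 * ρ * (5 * (((2 : ℝ) ^ k * N0) ^ 3 * x)) ^ (3 * d + 1)
      ≤ 24 * ρ * (5 * ((x * N0) ^ 3 * x)) ^ (3 * d + 1) := by gcongr
    _ = 24 * ρ * (5 * (N0 : ℝ) ^ 3) ^ (3 * d + 1) * x ^ (4 * (3 * d + 1)) := by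
        have e1 : 5 * ((x * N0) ^ 3 * x) = (5 * (N0 : ℝ) ^ 3) * x ^ 4 := by ring
        rw [e1, mul_pow (5 * (N0 : ℝ) ^ 3), ← pow_mul]
        ring
    _ ≤ Real.exp (m / 16 * x) := hX3
    _ ≤ Real.exp (μk * x / 4) * Real.exp (-(4 ^ (k + 1) * x0)) := by
        rw [← Real.exp_add]
        apply Real.exp_le_exp.2
        have e3 : (64 * x0) * 4 ^ k ≤ (m * L) * 4 ^ k :=
          mul_le_mul_of_nonneg_right hLa (by positivity)
        have e4 : m * (4 ^ k * L) ≤ m * x := mul_le_mul_of_nonneg_left hx4 hm.le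
        rw [pow_succ]
        have e5 : m / 2 * x ≤ μk * x := mul_le_mul_of_nonneg_right hμ2 hx0.le
        linarith only [e3, e4, e5]

/-- the probabilities, general scales -/
theorem smn_p3 {d N0 k : ℕ} {x0 x M : ℝ} (hN : 45 ≤ 2 ^ k * N0) (hx2 : 2 ≤ x0)
    (hx0k : (56 * ((2 : ℝ) ^ k * N0) ^ 6) ^ d ≤ Real.exp (4 ^ k * x0 / 2)) (hM0 : 0 < M)
    (hx : 0 < x) (hMu : M ≤ 8 * ((2 : ℝ) ^ k * N0) ^ 6 * x) :
    ((7 * (M / x)) ^ d * Real.exp (-(4 ^ k * x0))) ^ (2 ^ k * N0 + 1) ≤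
      Real.exp (-(4 ^ k * x0)) := by
  have e0 : M / x ≤ 8 * ((2 : ℝ) ^ k * N0) ^ 6 := by
    rw [div_le_iff₀ hx]
    exact hMu
  have e00 : 0 ≤ M / x := (div_pos hM0 hx).le
  have e6 : (7 * (M / x)) ^ d * Real.exp (-(4 ^ k * x0)) ≤ Real.exp (-(4 ^ k * x0 / 2)) := by
    calc _ ≤ (7 * (8 * ((2 : ℝ) ^ k * N0) ^ 6)) ^ d * Real.exp (-(4 ^ k * x0)) := by
          gcongr
      _ = (56 * ((2 : ℝ) ^ k * N0) ^ 6) ^ d * Real.exp (-(4 ^ k * x0)) := by
          rw [← mul_assoc]; norm_num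
      _ ≤ Real.exp (4 ^ k * x0 / 2) * Real.exp (-(4 ^ k * x0)) :=
          mul_le_mul_of_nonneg_right hx0k (Real.exp_pos _).le
      _ = Real.exp (-(4 ^ k * x0 / 2)) := by rw [← Real.exp_add]; congr 1; ring
  have e8 : Real.exp (-(4 ^ k * x0 / 2)) ≤ 1 := Real.exp_le_one_iff.2 (by
    have : 0 ≤ 4 ^ k * x0 := mul_nonneg (by positivity) (by linarith only [hx2])
    linarith only [this])
  calc _ ≤ Real.exp (-(4 ^ k * x0 / 2)) ^ (2 ^ k * N0 + 1) := by
        gcongr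
    _ ≤ Real.exp (-(4 ^ k * x0 / 2)) ^ 2 :=
        pow_le_pow_of_le_one (Real.exp_pos _).le e8 (by omega)
    _ = Real.exp (-(4 ^ k * x0)) := by
        rw [← Real.exp_nat_mul]; congr 1; push_cast; ring

/-- the probabilities against the power of the scale -/
theorem smn_p4 {A' k k0 : ℕ} {x0 K M : ℝ} (hx2 : 2 ≤ x0) (hK : 0 ≤ K) (hM0 : 0 < M)
    (hMe : M ≤ Real.exp (K * 3 ^ (k + 2))) (hk0 : 14 * A' * K ≤ k0) (hkr : (k0 : ℝ) ≤ k) :
    Real.exp (-(4 ^ k * x0)) ≤ (M ^ A')⁻¹ / 2 := by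
  have e10 : 2 * M ^ A' ≤ Real.exp (4 ^ k * x0) := by
    have g1 : M ^ A' ≤ Real.exp (9 * A' * K * 3 ^ k) := by
      calc M ^ A' ≤ Real.exp (K * 3 ^ (k + 2)) ^ A' := pow_le_pow_left₀ hM0.le hMe _
        _ = Real.exp (9 * A' * K * 3 ^ k) := by
          rw [← Real.exp_nat_mul, pow_add]; congr 1; ring
    have g2 : (2 : ℝ) ≤ Real.exp 1 := by
      have := Real.add_one_le_exp (1 : ℝ)
      linarith only [this]
    have g3 : 1 + 9 * A' * K * 3 ^ k ≤ 4 ^ k * x0 := by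
      have b1 := one_add_mul_le_pow (a := (1 / 3 : ℝ)) (by norm_num) k
      have b2 : (4 : ℝ) ^ k = 3 ^ k * (1 + 1 / 3) ^ k := by
        rw [← mul_pow]; norm_num
      have b3 : 14 * A' * K ≤ k := hk0.trans hkr
      have b4 : (1 : ℝ) ≤ 3 ^ k := one_le_pow₀ (by norm_num)
      have b5 : (3 : ℝ) ^ k * (1 + k * (1 / 3)) ≤ 4 ^ k := by
        rw [b2]
        exact mul_le_mul_of_nonneg_left b1 (by positivity)
      have b6 : (4 : ℝ) ^ k * 2 ≤ 4 ^ k * x0 := mul_le_mul_of_nonneg_left hx2 (by positivity)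
      have b7 : (3 : ℝ) ^ k * (14 * A' * K) ≤ 3 ^ k * k :=
        mul_le_mul_of_nonneg_left b3 (by positivity)
      have b8 : (0 : ℝ) ≤ 3 ^ k * (A' * K) := by positivity
      linarith only [b4, b5, b6, b7, b8]
    calc 2 * M ^ A' ≤ Real.exp 1 * Real.exp (9 * A' * K * 3 ^ k) :=
          mul_le_mul g2 g1 (pow_nonneg hM0.le _) (Real.exp_pos _).le
      _ = Real.exp (1 + 9 * A' * K * 3 ^ k) := by rw [← Real.exp_add]
      _ ≤ Real.exp (4 ^ k * x0) := Real.exp_le_exp.2 g3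
  have hMA : 0 < M ^ A' := pow_pos hM0 _
  rw [Real.exp_neg, ← one_div, ← one_div, div_div]
  apply one_div_le_one_div_of_le (by positivity)
  linarith only [e10]

/-- the error terms, general scales -/
theorem smn_p5 {d N0 A' : ℕ} {ρ m x μk M : ℝ} (hρ : 0 < ρ) (hx1 : 1 ≤ x) (hM0 : 0 < M)
    (hMx : M ≤ 8 * (N0 : ℝ) ^ 6 * x ^ 7) (hμ2 : m / 2 ≤ μk)
    (hX5 : 24 * ρ * (40 * (N0 : ℝ) ^ 6) ^ (3 * d + 1) *
      (8 * (N0 : ℝ) ^ 6) ^ A' * x ^ (7 * (3 * d + 1) + 7 * A') ≤ Real.exp (m / 8 * x)) :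
    24 * ρ * (5 * M) ^ (3 * d + 1) ≤ Real.exp (μk * x / 4) * (M ^ A')⁻¹ := by
  have hx0 : 0 < x := by linarith only [hx1]
  have hMA : 0 < M ^ A' := pow_pos hM0 _
  rw [← div_eq_mul_inv, le_div_iff₀ hMA]
  calc 24 * ρ * (5 * M) ^ (3 * d + 1) * M ^ A'
      ≤ 24 * ρ * (5 * (8 * (N0 : ℝ) ^ 6 * x ^ 7)) ^ (3 * d + 1) *
        (8 * (N0 : ℝ) ^ 6 * x ^ 7) ^ A' := by gcongr
    _ = 24 * ρ * (40 * (N0 : ℝ) ^ 6) ^ (3 * d + 1) *
        (8 * (N0 : ℝ) ^ 6) ^ A' * x ^ (7 * (3 * d + 1) + 7 * A') := by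
        have g1 : 5 * (8 * (N0 : ℝ) ^ 6 * x ^ 7) = (40 * (N0 : ℝ) ^ 6) * x ^ 7 := by ring
        rw [g1, mul_pow (40 * (N0 : ℝ) ^ 6), mul_pow (8 * (N0 : ℝ) ^ 6), ← pow_mul,
          ← pow_mul, pow_add x]
        ring
    _ ≤ Real.exp (m / 8 * x) := hX5
    _ ≤ Real.exp (μk * x / 4) := by
        apply Real.exp_le_exp.2
        have := mul_le_mul_of_nonneg_right hμ2 hx0.le
        linarith only [this]

theorem smn_const (d : ℕ) (ρ m ε A : ℝ) (hd : 1 ≤ d) (hρ : 0 < ρ) (hε : 0 < ε) (hεm : ε < m) :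
    ∃ N0 : ℕ, 48 ≤ N0 ∧ 400 * m / ε ≤ N0 := by
  obtain ⟨n, hn⟩ := exists_nat_ge (400 * m / ε)
  exact ⟨max 48 n, le_max_left _ _, hn.trans (by exact_mod_cast le_max_right _ _)⟩

/-- SMN -/
theorem smn : SmnStmt := by
  intro d ρ m ε A hd hρ hε hεm
  obtain ⟨N0, hN48, hN0⟩ := smn_const d ρ m ε A hd hρ hε hεm
  have hm : 0 < m := hε.trans hεm
  have hd1 : (1 : ℝ) ≤ d := by exact_mod_cast hd
  have hN0r : (48 : ℝ) ≤ N0 := by exact_mod_cast hN48
  set x0 : ℝ := 2 * d * (56 * (N0 : ℝ) ^ 6 + 3) with hx0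
  have hx2 : 2 ≤ x0 := by
    have h1 : (0 : ℝ) ≤ 56 * (N0 : ℝ) ^ 6 := by positivity
    rw [hx0]; nlinarith only [h1, hd1]
  have hx0k := x0_ok d N0
  rw [← hx0] at hx0k
  obtain ⟨X1, hX1⟩ := smn_sqrt (2 * d * 3 ^ d) (ε / 16) d (by positivity) (by positivity)
  obtain ⟨X2, hX2⟩ := smn_poly (8 * (d : ℝ) ^ 2 * (33 * N0) ^ d * 3 ^ d) (3 * m / 8) (3 * d)
    (by positivity) (by positivity)
  obtain ⟨X3, hX3⟩ := smn_poly (24 * ρ * (5 * (N0 : ℝ) ^ 3) ^ (3 * d + 1)) (m / 16)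
    (4 * (3 * d + 1)) (by positivity) (by positivity)
  obtain ⟨A', hA'⟩ := exists_nat_ge A
  obtain ⟨X5, hX5⟩ := smn_poly (24 * ρ * (40 * (N0 : ℝ) ^ 6) ^ (3 * d + 1) *
    (8 * (N0 : ℝ) ^ 6) ^ A') (m / 8) (7 * (3 * d + 1) + 7 * A') (by positivity) (by positivity)
  obtain ⟨L₀, hL₀⟩ := exists_nat_ge (max (max X1 X2) (max X3 (max (64 * x0 / m) (16 * m / ε))))
  have a1 : X1 ≤ L₀ := ((le_max_left _ _).trans (le_max_left _ _)).trans hL₀
  have a2 : X2 ≤ L₀ := ((le_max_right _ _).trans (le_max_left _ _)).trans hL₀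
  have a3 : X3 ≤ L₀ := ((le_max_left _ _).trans (le_max_right _ _)).trans hL₀
  have a4 : 64 * x0 / m ≤ L₀ :=
    (((le_max_left _ _).trans (le_max_right _ _)).trans (le_max_right _ _)).trans hL₀
  have a5 : 16 * m / ε ≤ L₀ :=
    (((le_max_right _ _).trans (le_max_right _ _)).trans (le_max_right _ _)).trans hL₀
  refine ⟨Real.exp (-x0), Real.exp_pos _, L₀, fun L hL => ?_⟩
  have hLr : (L₀ : ℝ) ≤ L := by exact_mod_cast hL
  have hLa : 64 * x0 ≤ m * L := by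
    have := a4.trans hLr
    rw [div_le_iff₀ hm] at this
    linarith only [this]
  have hLb : 16 * m ≤ ε * L := by
    have := a5.trans hLr
    rw [div_le_iff₀ hε] at this
    linarith only [this]
  have hL1r : (1 : ℝ) ≤ L := by
    by_contra hcon
    push Not at hcon
    nlinarith only [hcon, hLb, hε, hεm]
  have hL1 : 1 ≤ L := by exact_mod_cast hL1r
  -- the facts of the scale `k`
  have f8 : ∀ k, (8 : ℝ) ^ k * L ≤ scl N0 L k := fun k => by
    exact_mod_cast scl_le N0 L (by omega) k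
  have fL : ∀ k, (L : ℝ) ≤ scl N0 L k := fun k =>
    (le_mul_of_one_le_left (by linarith only [hL1r]) (one_le_pow₀ (by norm_num))).trans (f8 k)
  have f4 : ∀ k, (4 : ℝ) ^ k * L ≤ scl N0 L k := fun k =>
    (mul_le_mul_of_nonneg_right (pow_le_pow_left₀ (by norm_num) (by norm_num) k)
      (by linarith only [hL1r])).trans (f8 k)
  have f4' : ∀ k, (4 : ℝ) ^ k ≤ scl N0 L k := fun k =>
    (le_mul_of_one_le_right (by positivity) hL1r).trans (f4 k)
  have f2 : ∀ k, (2 : ℝ) ^ k ≤ Real.sqrt (scl N0 L k) := fun k => by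
    apply Real.le_sqrt_of_sq_le
    calc ((2 : ℝ) ^ k) ^ 2 = 4 ^ k := by rw [← pow_mul, mul_comm, pow_mul]; norm_num
      _ ≤ scl N0 L k := f4' k
  have f2' : ∀ k, (2 : ℝ) ^ k ≤ scl N0 L k := fun k =>
    (pow_le_pow_left₀ (by norm_num) (by norm_num) k).trans (f4' k)
  set μ : ℕ → ℝ := fun k => m - ε / 2 + ε / 2 * (1 / 2) ^ k with hμ
  have hμm : ∀ k, μ k ≤ m := fun k => by
    have : ((1 : ℝ) / 2) ^ k ≤ 1 := pow_le_one₀ (by norm_num) (by norm_num)
    simp only [hμ]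
    nlinarith only [this, hε]
  have hμ2 : ∀ k, m / 2 ≤ μ k := fun k => by
    have : 0 ≤ ((1 : ℝ) / 2) ^ k := by positivity
    simp only [hμ]
    nlinarith only [this, hε, hεm]
  have hN45 : ∀ k, 45 ≤ 2 ^ k * N0 := fun k =>
    (by omega : 45 ≤ N0).trans (Nat.le_mul_of_pos_left _ (by positivity))
  have key : ∀ (k M : ℕ) (μ' p' : ℝ), (2 ^ k * N0) ^ 3 * scl N0 L k ≤ M →
      μ' ≤ μ (k + 1) →
      ((7 * ((M : ℝ) / (scl N0 L k : ℕ))) ^ d * Real.exp (-(4 ^ k * x0))) ^ (2 ^ k * N0 + 1) ≤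
        p' / 2 →
      24 * ρ * (5 * (M : ℝ)) ^ (3 * d + 1) ≤ Real.exp (μ k * (scl N0 L k : ℕ) / 4) * p' →
      StepN d ρ (scl N0 L k) (μ k) (Real.exp (-(4 ^ k * x0))) M μ' p' := by
    intro k M μ' p' hM hμ' h4 h5
    have hx := f2 k
    have hxL := fL k
    have hx4 := f4 k
    have hx8 := f8 k
    have hx2' := f2' k
    have hx1 : (1 : ℝ) ≤ scl N0 L k := hL1r.trans hxL
    have hxn : 1 ≤ scl N0 L k := by exact_mod_cast hx1
    set x : ℝ := (scl N0 L k : ℝ) with hxdef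
    have h2k : (0 : ℝ) < 2 ^ k := by positivity
    have hδx : ε / 16 * Real.sqrt x ≤ ε / 16 / 2 ^ k * x := by
      have h6 : Real.sqrt x * 2 ^ k ≤ x := by
        calc Real.sqrt x * 2 ^ k ≤ Real.sqrt x * Real.sqrt x := by gcongr
          _ = x := Real.mul_self_sqrt (by linarith only [hx1])
      have h7 : Real.sqrt x ≤ x / 2 ^ k := by rwa [le_div_iff₀ h2k]
      calc ε / 16 * Real.sqrt x ≤ ε / 16 * (x / 2 ^ k) := by gcongr
        _ = ε / 16 / 2 ^ k * x := by ring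
    have hh : ((1 : ℝ) / 2) ^ k = 1 / 2 ^ k := by rw [one_div_pow]
    refine stepN_of (δ := ε / 16 / 2 ^ k) (m := m) hxn (hN45 k) (by positivity) ?_
      (hμm k) hM ?_ ?_ ?_ h4 h5
    · have h8 : ε / 16 / 2 ^ k ≤ ε / 16 := div_le_self (by positivity) (one_le_pow₀ (by norm_num))
      have := hμ2 k
      linarith only [h8, this, hεm, hm]
    · calc 2 * (d : ℝ) * (3 * x) ^ d = 2 * d * 3 ^ d * x ^ d := by rw [mul_pow]; ring
        _ ≤ Real.exp (ε / 16 * Real.sqrt x) := hX1 x ((a1.trans hLr).trans hxL)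
        _ ≤ Real.exp (ε / 16 / 2 ^ k * x) := Real.exp_le_exp.2 hδx
    · push_cast
      calc 8 * (d : ℝ) ^ 2 * (33 * (2 ^ k * N0) * x) ^ d * (3 * x) ^ d
          ≤ 8 * (d : ℝ) ^ 2 * (33 * (x * N0) * x) ^ d * (3 * x) ^ d := by gcongr
        _ = 8 * (d : ℝ) ^ 2 * (33 * N0) ^ d * 3 ^ d * x ^ (3 * d) := by
            have h9 : 33 * (x * N0) * x = (33 * N0) * x ^ 2 := by ring
            rw [h9, mul_pow (33 * (N0 : ℝ)), mul_pow (3 : ℝ), ← pow_mul,
              show 3 * d = 2 * d + d by ring, pow_add]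
            ring
        _ ≤ Real.exp (3 * m / 8 * x) := hX2 x ((a2.trans hLr).trans hxL)
        _ ≤ Real.exp (3 * μ k * x / 4) := by
            apply Real.exp_le_exp.2
            have := hμ2 k
            nlinarith only [this, hx1]
    · have h10 : μ k - μ (k + 1) = ε / 4 / 2 ^ k := by
        simp only [hμ]
        rw [pow_succ, hh]
        ring
      have h11 : m * (48 / ((2 ^ k * N0 : ℕ) : ℝ)) ≤ ε * 48 / 400 / 2 ^ k := by
        push_cast
        have h12 : 400 * m ≤ N0 * ε := by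
          rwa [div_le_iff₀ hε] at hN0
        have h13 : m * (48 / (2 ^ k * (N0 : ℝ))) = (m / N0) * 48 / 2 ^ k := by
          field_simp
        rw [h13]
        have h14 : m / (N0 : ℝ) ≤ ε / 400 := by
          rw [div_le_div_iff₀ (by linarith only [hN0r]) (by norm_num)]
          linarith only [h12]
        have h15 : (m / (N0 : ℝ)) * 48 ≤ ε * 48 / 400 := by linarith only [h14]
        exact div_le_div_of_nonneg_right h15 h2k.le
      have h16 : m * (1 / x) ≤ ε / 16 / 2 ^ k := by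
        have h17 : (2 : ℝ) ^ k * L ≤ x :=
          (mul_le_mul_of_nonneg_right (pow_le_pow_left₀ (by norm_num) (by norm_num) k)
            (by linarith only [hL1r])).trans hx8
        rw [mul_one_div, div_le_div_iff₀ (by linarith only [hx1]) h2k]
        have h18 : m * 2 ^ k ≤ ε / 16 * L * 2 ^ k := by
          apply mul_le_mul_of_nonneg_right _ h2k.le
          linarith only [hLb]
        have h19 : ε / 16 * (2 ^ k * L) ≤ ε / 16 * x := by gcongr
        linarith only [h18, h19]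
      have h20 : ε / 16 / 2 ^ k + (ε * 48 / 400 / 2 ^ k + ε / 16 / 2 ^ k) ≤ ε / 4 / 2 ^ k := by
        have h21 : ε / 16 / 2 ^ k + (ε * 48 / 400 / 2 ^ k + ε / 16 / 2 ^ k) =
            (ε / 16 + (ε * 48 / 400 + ε / 16)) / 2 ^ k := by ring
        rw [h21]
        apply div_le_div_of_nonneg_right _ h2k.le
        linarith only [hε]
      rw [mul_add]
      rw [hxdef] at h16
      linarith only [h10, h11, h16, h20, hμ']
  refine ⟨scl N0 L, μ, fun k => Real.exp (-(4 ^ k * x0)), by simp [scl], ?_, ?_, ?_, ?_⟩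
  · simp only [hμ, pow_zero]; ring
  · simp only [pow_zero, one_mul]
  · intro k
    have hx1 : (1 : ℝ) ≤ scl N0 L k := hL1r.trans (fL k)
    have hx0' : (0 : ℝ) < scl N0 L k := by linarith only [hx1]
    refine ⟨by exact_mod_cast hx1, (Real.exp_pos _).le, ?_⟩
    refine key k (scl N0 L (k + 1)) (μ (k + 1)) (Real.exp (-(4 ^ (k + 1) * x0)))
      (by rw [scl_succ]) le_rfl ?_ ?_
    · have e1 : ((scl N0 L (k + 1) : ℕ) : ℝ) / (scl N0 L k : ℕ) = (2 ^ k * N0) ^ 3 := by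
        rw [scl_succ]; push_cast; field_simp
      rw [e1]
      exact smn_p1 hN0r (hN45 k) hx2 (hx0k k)
    · have hx4 := f4 k
      have hx2' := f2' k
      rw [scl_succ]
      push_cast
      exact smn_p2 hρ hm hx1 hx2' hx4 hLa (hμ2 k) (hX3 _ ((a3.trans hLr).trans (fL k)))
  · set K : ℝ := (L : ℝ) + 3 * (1 + N0) with hK
    obtain ⟨k0, hk0⟩ := exists_nat_ge (max X5 (14 * A' * K))
    refine ⟨scl N0 L (k0 + 1), fun M hM => ?_⟩
    obtain ⟨k, hk, hM1, hM2⟩ := scl_find N0 L k0 M (by omega) hL1 hM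
    have hkr : (k0 : ℝ) ≤ k := by exact_mod_cast hk
    have hx1 : (1 : ℝ) ≤ scl N0 L k := hL1r.trans (fL k)
    have hx0' : (0 : ℝ) < scl N0 L k := by linarith only [hx1]
    have hM1r : (1 : ℝ) ≤ M :=
      (hL1r.trans (fL (k + 1))).trans (by exact_mod_cast hM1)
    have hM0 : (0 : ℝ) < M := by linarith only [hM1r]
    -- the upper bound for `M`
    have hMu : (M : ℝ) ≤ 8 * ((2 : ℝ) ^ k * N0) ^ 6 * scl N0 L k := by
      have e1 : (M : ℝ) ≤ scl N0 L (k + 2) := by exact_mod_cast hM2.le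
      refine e1.trans (le_of_eq ?_)
      rw [show k + 2 = (k + 1) + 1 by ring, scl_succ, scl_succ]
      push_cast
      rw [pow_succ]
      ring
    have hMx : (M : ℝ) ≤ 8 * (N0 : ℝ) ^ 6 * (scl N0 L k : ℝ) ^ 7 := by
      refine hMu.trans ?_
      have hx2' := f2' k
      set x : ℝ := (scl N0 L k : ℝ) with hxdef
      calc 8 * ((2 : ℝ) ^ k * N0) ^ 6 * x ≤ 8 * (x * N0) ^ 6 * x := by gcongr
        _ = 8 * (N0 : ℝ) ^ 6 * x ^ 7 := by ring
    have hMe : (M : ℝ) ≤ Real.exp (K * 3 ^ (k + 2)) := by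
      have e1 : (M : ℝ) ≤ scl N0 L (k + 2) := by exact_mod_cast hM2.le
      exact e1.trans (scl_exp N0 L (k + 2))
    have hA1 : ((M : ℝ) ^ A')⁻¹ ≤ (M : ℝ) ^ (-A) := by
      rw [← Real.rpow_natCast, ← Real.rpow_neg hM0.le]
      exact Real.rpow_le_rpow_of_exponent_le hM1r (by linarith only [hA'])
    have hX5' : X5 ≤ scl N0 L k := by
      have e1 : X5 ≤ k := ((le_max_left _ _).trans hk0).trans hkr
      have e2 : (k : ℝ) ≤ 2 ^ k := by
        have : k < 2 ^ k := Nat.lt_two_pow_self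
        exact_mod_cast this.le
      exact (e1.trans e2).trans (f2' k)
    refine ⟨k, key k M (m - ε) _ ?_ ?_ ?_ ?_⟩
    · rw [← scl_succ]; exact hM1
    · have : 0 ≤ ((1 : ℝ) / 2) ^ (k + 1) := by positivity
      simp only [hμ]
      nlinarith only [this, hε]
    · refine (smn_p3 (hN45 k) hx2 (hx0k k) hM0 hx0' hMu).trans ?_
      have hK0 : 0 ≤ K := by rw [hK]; positivity
      refine (smn_p4 hx2 hK0 hM0 hMe ((le_max_right _ _).trans hk0) hkr).trans ?_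
      linarith only [hA1]
    · exact (smn_p5 hρ hx1 hM0 hMx (hμ2 k) (hX5 _ hX5')).trans
        (mul_le_mul_of_nonneg_left hA1 (Real.exp_pos _).le)

end Pool.Agent.LE.H15
end
end -- Pool.Agent.Helper15_LE.SMN

section -- Pool.Agent.Helper15_LEC.BEN

/-!
# Row BEN: the numbers of the Besicovitch step
-/

set_option autoImplicit false

noncomputable section

namespace Pool.Agent.LE.H15C

open Pool.Agent.LE

/-- BEN -/
theorem ben : BenStmt := by
  intro d C κ hd hC hκ hκ1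
  obtain ⟨e, rfl⟩ : ∃ e, d = e + 1 := ⟨d - 1, by omega⟩
  set K1 : ℝ := (2 ^ (e + 1) + 2 * 17 ^ (e + 1) * (17 * 5 ^ (e + 1)) ^ e) *
    (4 * 5 ^ (e + 1) * C ^ ((e + 1) ^ 2 + 4 * (e + 1))) with hK1
  have hK1pos : 0 < K1 := by positivity
  set K : ℝ := 2 * K1 * (16 / κ) ^ ((e + 1) ^ 2) with hK
  have hKpos : 0 < K := by positivity
  set cs : ℝ := K + 1 with hcs
  have hcs1 : 1 ≤ cs := by linarith only [hKpos]
  have hcs0 : 0 < cs := by linarith only [hKpos]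
  set A : ℝ := (κ / (16 * cs)) ^ (e + 1) with hA
  have hA0 : 0 < A := by positivity
  have hx1 : κ / (16 * cs) ≤ 1 := by
    rw [div_le_one (by positivity)]
    linarith only [hκ1, hKpos]
  have hA1 : A ≤ 1 := pow_le_one₀ (by positivity) hx1
  have hAx : A ≤ κ / (16 * cs) := by
    rw [hA]
    exact pow_le_of_le_one (by positivity) hx1 (by omega)
  have h5 : (1 : ℝ) ≤ 5 ^ (e + 1) := one_le_pow₀ (by norm_num)
  set M : ℕ := ⌈16 * 5 ^ (e + 1) / A⌉₊ with hM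
  have hM1 : 16 * 5 ^ (e + 1) / A ≤ (M : ℝ) := Nat.le_ceil _
  have hM2 : (M : ℝ) < 16 * 5 ^ (e + 1) / A + 1 := Nat.ceil_lt_add_one (by positivity)
  have hMA1 : 16 * 5 ^ (e + 1) ≤ (M : ℝ) * A := by rwa [div_le_iff₀ hA0] at hM1
  have hMA2 : (M : ℝ) * A ≤ 17 * 5 ^ (e + 1) := by
    have h1 : (M : ℝ) * A ≤ (16 * 5 ^ (e + 1) / A + 1) * A :=
      mul_le_mul_of_nonneg_right hM2.le hA0.le
    have h2 : (16 * 5 ^ (e + 1) / A + 1) * A = 16 * 5 ^ (e + 1) + A := by field_simp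
    linarith only [hA1, h5, h1, h2]
  have hMr : (1 : ℝ) ≤ M := by
    have h1 : (M : ℝ) * A ≤ M := by nlinarith only [Nat.cast_nonneg (α := ℝ) M, hA1]
    linarith only [h5, hMA1, h1]
  have hM0 : (0 : ℝ) < M := by linarith only [hMr]
  have hM1' : 1 ≤ M := by exact_mod_cast hMr
  refine ⟨cs, M, A / (32 * 3 ^ (e + 1)), hcs1, hM1', by positivity, ?_, ?_, ?_⟩
  · rw [div_le_one (by positivity)]
    have : (1 : ℝ) ≤ 3 ^ (e + 1) := one_le_pow₀ (by norm_num)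
    linarith only [hA1, this]
  · have h1 : 16 * cs / κ = 1 / (κ / (16 * cs)) := by rw [one_div_div]
    rw [h1]
    have h2 : 1 / (κ / (16 * cs)) ≤ 1 / A := one_div_le_one_div_of_le hA0 hAx
    have h3 : 1 / A ≤ M := by
      rw [div_le_iff₀ hA0]
      linarith only [h5, hMA1]
    exact h2.trans h3
  · have t1 : 4 * (A / (32 * 3 ^ (e + 1))) * 3 ^ (e + 1) = A / 8 := by
      have : (3 : ℝ) ^ (e + 1) ≠ 0 := by positivity
      field_simp
      norm_num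
    have t2 : 2 * 5 ^ (e + 1) / (M : ℝ) ≤ A / 8 := by
      rw [div_le_div_iff₀ hM0 (by norm_num)]
      linarith only [hMA1]
    -- the third term
    have u1 : (8 * (M : ℝ) + 9) ^ (e + 1) / M ≤ 17 ^ (e + 1) * (M : ℝ) ^ e := by
      rw [div_le_iff₀ hM0]
      calc (8 * (M : ℝ) + 9) ^ (e + 1) ≤ (17 * M) ^ (e + 1) := by
            gcongr
            linarith only [hMr]
        _ = 17 ^ (e + 1) * (M : ℝ) ^ e * M := by rw [mul_pow, pow_succ (M : ℝ)]; ring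
    have u2 : (M : ℝ) ^ e * A ^ e ≤ (17 * 5 ^ (e + 1)) ^ e := by
      rw [← mul_pow]
      gcongr
    have u3 : A ^ e ≤ 1 := pow_le_one₀ hA0.le hA1
    have hAe : 0 < A ^ e := by positivity
    set Q : ℝ := 4 * 5 ^ (e + 1) * (C / cs) ^ ((e + 1) ^ 2 + 4 * (e + 1)) with hQ
    have hQ0 : 0 ≤ Q := by positivity
    have u4 : (2 ^ (e + 1) + 2 * (8 * (M : ℝ) + 9) ^ (e + 1) / M) * Q * A ^ e ≤
        (2 ^ (e + 1) + 2 * 17 ^ (e + 1) * (17 * 5 ^ (e + 1)) ^ e) * Q := by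
      have v1 : (2 ^ (e + 1) + 2 * (8 * (M : ℝ) + 9) ^ (e + 1) / M) * A ^ e ≤
          2 ^ (e + 1) + 2 * 17 ^ (e + 1) * (17 * 5 ^ (e + 1)) ^ e := by
        have v2 : 2 * (8 * (M : ℝ) + 9) ^ (e + 1) / M * A ^ e ≤
            2 * 17 ^ (e + 1) * ((M : ℝ) ^ e * A ^ e) := by
          calc 2 * (8 * (M : ℝ) + 9) ^ (e + 1) / M * A ^ e
              = 2 * ((8 * (M : ℝ) + 9) ^ (e + 1) / M) * A ^ e := by ring
            _ ≤ 2 * (17 ^ (e + 1) * (M : ℝ) ^ e) * A ^ e := by gcongr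
            _ = 2 * 17 ^ (e + 1) * ((M : ℝ) ^ e * A ^ e) := by ring
        have v3 : 2 * 17 ^ (e + 1) * ((M : ℝ) ^ e * A ^ e) ≤
            2 * 17 ^ (e + 1) * (17 * 5 ^ (e + 1)) ^ e := by gcongr
        have v4 : (2 : ℝ) ^ (e + 1) * A ^ e ≤ 2 ^ (e + 1) := by
          have : (0 : ℝ) < 2 ^ (e + 1) := by positivity
          nlinarith only [u3, this]
        rw [add_mul]
        linarith only [v2, v3, v4]
      calc (2 ^ (e + 1) + 2 * (8 * (M : ℝ) + 9) ^ (e + 1) / M) * Q * A ^ e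
          = ((2 ^ (e + 1) + 2 * (8 * (M : ℝ) + 9) ^ (e + 1) / M) * A ^ e) * Q := by ring
        _ ≤ _ := mul_le_mul_of_nonneg_right v1 hQ0
    have u5 : (2 ^ (e + 1) + 2 * 17 ^ (e + 1) * (17 * 5 ^ (e + 1)) ^ e) * Q =
        K1 / cs ^ ((e + 1) ^ 2 + 4 * (e + 1)) := by
      rw [hQ, hK1, div_pow]
      ring
    have u6 : 2 * K1 < A ^ (e + 1) * cs ^ ((e + 1) ^ 2 + 4 * (e + 1)) := by
      have w1 : A ^ (e + 1) * cs ^ ((e + 1) ^ 2 + 4 * (e + 1)) =
          (κ / 16) ^ ((e + 1) ^ 2) * cs ^ (4 * (e + 1)) := by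
        rw [hA, ← pow_mul, show (e + 1) * (e + 1) = (e + 1) ^ 2 by ring, pow_add cs,
          show κ / (16 * cs) = κ / 16 / cs by rw [div_div], div_pow (κ / 16) cs]
        field_simp
      have w2 : cs ≤ cs ^ (4 * (e + 1)) := le_self_pow₀ hcs1 (by omega)
      have w3 : (0 : ℝ) < (κ / 16) ^ ((e + 1) ^ 2) := by positivity
      have w4 : (κ / 16) ^ ((e + 1) ^ 2) * K = 2 * K1 := by
        rw [hK]
        have w5 : (κ / 16) ^ ((e + 1) ^ 2) * (16 / κ) ^ ((e + 1) ^ 2) = 1 := by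
          rw [← mul_pow]
          have : κ / 16 * (16 / κ) = 1 := by field_simp
          rw [this, one_pow]
        calc (κ / 16) ^ ((e + 1) ^ 2) * (2 * K1 * (16 / κ) ^ ((e + 1) ^ 2))
            = 2 * K1 * ((κ / 16) ^ ((e + 1) ^ 2) * (16 / κ) ^ ((e + 1) ^ 2)) := by ring
          _ = 2 * K1 := by rw [w5, mul_one]
      rw [w1, ← w4]
      apply mul_lt_mul_of_pos_left _ w3
      linarith only [w2]
    have u7 : K1 / cs ^ ((e + 1) ^ 2 + 4 * (e + 1)) < A ^ e * (A / 2) := by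
      rw [div_lt_iff₀ (by positivity)]
      have : A ^ e * (A / 2) * cs ^ ((e + 1) ^ 2 + 4 * (e + 1)) =
          (A ^ (e + 1) * cs ^ ((e + 1) ^ 2 + 4 * (e + 1))) / 2 := by rw [pow_succ A]; ring
      rw [this]
      linarith only [u6]
    have t3 : (2 ^ (e + 1) + 2 * (8 * (M : ℝ) + 9) ^ (e + 1) / M) * Q < A / 2 := by
      have x1 : (2 ^ (e + 1) + 2 * (8 * (M : ℝ) + 9) ^ (e + 1) / M) * Q * A ^ e <
          A / 2 * A ^ e := by
        calc _ ≤ _ := u4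
          _ = _ := u5
          _ < _ := u7
          _ = _ := by ring
      exact lt_of_mul_lt_mul_right x1 hAe.le
    rw [t1]
    linarith only [hA0, t2, t3]

end Pool.Agent.LE.H15C
end
end -- Pool.Agent.Helper15_LEC.BEN

section -- Pool.Agent.Helper96_LE.KeyX

/-!
# KEYX: the lower bound for the mean of two scales
-/

set_option autoImplicit false
set_option linter.unusedSectionVars false

open MeasureTheory ProbabilityTheory Function Filter

open scoped ENNReal BigOperators Topology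

noncomputable section

namespace Pool.Agent.LE.H96

open Pool.Agent.Anderson Pool.Agent.Loc Pool.Agent.Mob Pool.Agent.Helper54.Bal

variable {d : ℕ}

/-! ### sites -/

theorem sd_add0 (a b : Site d) : sd a (a + b) = sd 0 b := by
  apply le_antisymm
  · rw [sd_le_iff]
    intro i
    have h := (sd_le_iff.1 (le_refl (sd 0 b))) i
    have e : a i - (a + b) i = (0 : Site d) i - b i := by
      rw [Pi.add_apply, Pi.zero_apply]
      ring
    rwa [e]
  · rw [sd_le_iff]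
    intro i
    have h := (sd_le_iff.1 (le_refl (sd a (a + b)))) i
    have e : (0 : Site d) i - b i = a i - (a + b) i := by
      rw [Pi.add_apply, Pi.zero_apply]
      ring
    rwa [e]

theorem sd_sm0 (l : ℕ) (y : Site d) : sd 0 (sm l y) ≤ l * sd 0 y := by
  rw [sd_le_iff]
  intro i
  have h := (sd_le_iff.1 (le_refl (sd 0 y))) i
  have e : (0 : Site d) i - sm l y i = l * ((0 : Site d) i - y i) := by
    unfold sm
    rw [Pi.zero_apply]
    ring
  rw [e, abs_mul, Nat.abs_cast]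
  push_cast
  exact mul_le_mul_of_nonneg_left h (by positivity)

theorem sm_add (m n : ℕ) (y : Site d) : sm (m + n) y = sm m y + sm n y := by
  funext j
  simp only [sm, Pi.add_apply]
  push_cast
  ring

theorem sm_zero (y : Site d) : sm 0 y = 0 := by
  funext j
  simp only [sm, Pi.zero_apply]
  push_cast
  ring

theorem mem_shift {a : Site d} {R N m K : ℕ} {y : Site d} (ha : a ∈ box (0 : Site d) R)
    (hy : sd 0 y ≤ K) (h : R + m * K ≤ N) : a + sm m y ∈ box (0 : Site d) N := by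
  rw [mem_box] at ha ⊢
  calc sd 0 (a + sm m y) ≤ sd 0 a + sd a (a + sm m y) := sd_triangle _ _ _
    _ ≤ R + m * K := by
        rw [sd_add0]
        exact add_le_add ha ((sd_sm0 m y).trans (Nat.mul_le_mul_left _ hy))
    _ ≤ N := h

/-! ### sums -/

theorem sum_blocks (f : ℕ → ℝ) (ℓ n : ℕ) :
    ∑ j ∈ Finset.range ℓ, ∑ i ∈ Finset.range n, f (j + i * ℓ) =
      ∑ r ∈ Finset.range (ℓ * n), f r := by
  rw [Finset.sum_comm]
  induction n with
  | zero => simp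
  | succ n ih =>
    rw [Finset.sum_range_succ, ih, Nat.mul_succ, Finset.sum_range_add]
    congr 1
    refine Finset.sum_congr rfl fun j _ => ?_
    congr 1
    ring

/-- the path inequality -/
theorem path_le (D : Site d → Site d → ℝ) (p : ℕ → Site d) (n : ℕ) :
    D (p 0) (p (n + 1)) ≤ ∑ i ∈ Finset.range (n + 1), D (p i) (p (i + 1)) +
      ∑ i ∈ Finset.range n, max 0 (D (p 0) (p (i + 2)) - D (p 0) (p (i + 1)) -
        D (p (i + 1)) (p (i + 2))) := by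
  induction n with
  | zero => simp
  | succ n ih =>
    have h := le_max_right 0 (D (p 0) (p (n + 2)) - D (p 0) (p (n + 1)) -
      D (p (n + 1)) (p (n + 2)))
    have e1 := Finset.sum_range_succ (fun i => D (p i) (p (i + 1))) (n + 1)
    have e2 := Finset.sum_range_succ (fun i => max 0 (D (p 0) (p (i + 2)) -
      D (p 0) (p (i + 1)) - D (p (i + 1)) (p (i + 2)))) n
    rw [e1, e2]
    have e3 : n + 1 + 1 = n + 2 := rfl
    rw [e3]
    linarith only [ih, h]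

/-! ### norms -/

section

variable {N : ℕ} {Ω : Type} [MeasurableSpace Ω] {P : Measure Ω} [IsProbabilityMeasure P] {C : ℝ}
  {D : Ω → Site d → Site d → ℝ}

theorem memD (h : FamN d N P C D) {x y : Site d} (hx : x ∈ box (0 : Site d) N)
    (hy : y ∈ box (0 : Site d) N) : MemLp (fun ω => D ω x y) 2 P :=
  (memLp_two_iff_integrable_sq (h.meas x y).aestronglyMeasurable).2 (h.int x hx y hy)

theorem admD (hN : NrmStmt) (h : FamN d N P C D) (hC : 0 < C) {R m : ℕ} {p q : Site d → Site d}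
    (hp : ∀ a ∈ box (0 : Site d) R, p a ∈ box (0 : Site d) N)
    (hq : ∀ a ∈ box (0 : Site d) R, q a ∈ box (0 : Site d) N)
    (hm : ∀ a ∈ box (0 : Site d) R, sd (p a) (q a) ≤ m) :
    Adm P R (fun a ω => D ω (p a) (q a)) ∧
      nA P R (fun a ω => D ω (p a) (q a)) ≤ Real.sqrt C * (m + 1) := by
  refine ⟨fun a ha => ⟨h.meas _ _, h.int _ (hp a ha) _ (hq a ha)⟩, ?_⟩
  refine (hN d Ω P R).2.2.2.2.1 _ _ (by positivity) fun a ha => ?_
  refine (h.sq _ (hp a ha) _ (hq a ha)).trans ?_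
  rw [mul_pow, Real.sq_sqrt hC.le]
  have h1 : (sd (p a) (q a) : ℝ) ≤ m := by exact_mod_cast hm a ha
  gcongr

theorem admT (hN : NrmStmt) (h : FamN d N P C D) (hC : 0 < C) {R : ℕ}
    {p q r : Site d → Site d} (hp : ∀ a ∈ box (0 : Site d) R, p a ∈ box (0 : Site d) N)
    (hq : ∀ a ∈ box (0 : Site d) R, q a ∈ box (0 : Site d) N)
    (hr : ∀ a ∈ box (0 : Site d) R, r a ∈ box (0 : Site d) N) :
    Adm P R (fun a ω => max 0 (D ω (p a) (r a) - D ω (p a) (q a) - D ω (q a) (r a))) ∧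
      nA P R (fun a ω => max 0 (D ω (p a) (r a) - D ω (p a) (q a) - D ω (q a) (r a))) ≤
        Real.sqrt C := by
  constructor
  · intro a ha
    have hmeas : Measurable fun ω =>
        max 0 (D ω (p a) (r a) - D ω (p a) (q a) - D ω (q a) (r a)) :=
      measurable_const.max (((h.meas _ _).sub (h.meas _ _)).sub (h.meas _ _))
    refine ⟨hmeas, ?_⟩
    have h1 := ((memD h (hp a ha) (hr a ha)).sub (memD h (hp a ha) (hq a ha))).sub
      (memD h (hq a ha) (hr a ha))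
    have h2 : MemLp (fun ω => max 0 (D ω (p a) (r a) - D ω (p a) (q a) - D ω (q a) (r a))) 2 P := by
      refine h1.mono hmeas.aestronglyMeasurable (Filter.Eventually.of_forall fun ω => ?_)
      rw [Real.norm_eq_abs, Real.norm_eq_abs, abs_of_nonneg (le_max_left _ _)]
      exact max_le (abs_nonneg _) (le_abs_self _)
    exact (memLp_two_iff_integrable_sq hmeas.aestronglyMeasurable).1 h2
  · refine (hN d Ω P R).2.2.2.2.1 _ _ (by positivity) fun a ha => ?_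
    rw [Real.sq_sqrt hC.le]
    exact h.tri _ (hp a ha) _ (hq a ha) _ (hr a ha)

theorem admN (hN : NrmStmt) (h : FamN d N P C D) (hC : 0 < C) {R : ℕ}
    {p q : Site d → Site d} (hp : ∀ a ∈ box (0 : Site d) R, p a ∈ box (0 : Site d) N)
    (hq : ∀ a ∈ box (0 : Site d) R, q a ∈ box (0 : Site d) N) :
    Adm P R (fun a ω => max 0 (-D ω (p a) (q a))) ∧
      nA P R (fun a ω => max 0 (-D ω (p a) (q a))) ≤ Real.sqrt C := by
  constructor
  · intro a ha
    have hmeas : Measurable fun ω => max 0 (-D ω (p a) (q a)) :=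
      measurable_const.max (h.meas _ _).neg
    refine ⟨hmeas, ?_⟩
    have h2 : MemLp (fun ω => max 0 (-D ω (p a) (q a))) 2 P := by
      refine (memD h (hp a ha) (hq a ha)).mono hmeas.aestronglyMeasurable
        (Filter.Eventually.of_forall fun ω => ?_)
      rw [Real.norm_eq_abs, Real.norm_eq_abs, abs_of_nonneg (le_max_left _ _)]
      exact max_le (abs_nonneg _) (neg_le_abs _)
    exact (memLp_two_iff_integrable_sq hmeas.aestronglyMeasurable).1 h2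
  · refine (hN d Ω P R).2.2.2.2.1 _ _ (by positivity) fun a ha => ?_
    rw [Real.sq_sqrt hC.le]
    exact h.neg _ (hp a ha) _ (hq a ha)

theorem admMul {R : ℕ} {f : Site d → Ω → ℝ} (c : ℝ) (hf : Adm P R f) :
    Adm P R (fun a ω => c * f a ω) := by
  intro a ha
  obtain ⟨h1, h2⟩ := hf a ha
  refine ⟨h1.const_mul c, ?_⟩
  have e : (fun ω => (c * f a ω) ^ 2) = fun ω => c ^ 2 * f a ω ^ 2 := by
    funext ω
    ring
  rw [e]
  exact h2.const_mul _

theorem admAbs {R : ℕ} {f : Site d → Ω → ℝ} (hf : Adm P R f) :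
    Adm P R (fun a ω => |f a ω|) := by
  intro a ha
  obtain ⟨h1, h2⟩ := hf a ha
  refine ⟨h1.abs, ?_⟩
  simp only [sq_abs]
  exact h2

theorem nA_abs {R : ℕ} (f : Site d → Ω → ℝ) : nA P R (fun a ω => |f a ω|) = nA P R f := by
  unfold nA
  simp only [sq_abs]

theorem nA_nonneg {R : ℕ} (f : Site d → Ω → ℝ) : 0 ≤ nA P R f := Real.sqrt_nonneg _

/-- the path from `a` over `a + j y`, `a + j y + ℓ y`, ..., `a + j y + ℓ' ℓ y` to `a + ℓ' ℓ y` -/
def pth (y : Site d) (ℓ ℓ' j : ℕ) (a : Site d) (i : ℕ) : Site d :=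
  if i = 0 then a else if i ≤ ℓ' + 1 then a + sm (j + (i - 1) * ℓ) y else a + sm (ℓ * ℓ') y

theorem half (hN : NrmStmt) (h : FamN d N P C D) (hC : 0 < C) {R K ℓ ℓ' : ℕ} (hℓ : 1 ≤ ℓ)
    (hℓ' : 1 ≤ ℓ') (hR : R + 4 * K * (ℓ * ℓ') ≤ N) {y : Site d} (hy : sd 0 y ≤ K) :
    ∃ err : Site d → Ω → ℝ, Adm P R err ∧
      nA P R err ≤ Real.sqrt C * (2 * K + 3) * (1 / ℓ + 1 / ℓ') ∧
      ∀ a ∈ box (0 : Site d) R, ∀ ω, XX D y (ℓ * ℓ') a ω ≤
        1 / (ℓ * ℓ' : ℝ) * ∑ r ∈ Finset.range (ℓ * ℓ'), XX D y ℓ (a + sm r y) ω + err a ω := by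
  have hℓr : (0 : ℝ) < ℓ := by exact_mod_cast hℓ
  have hℓr' : (0 : ℝ) < ℓ' := by exact_mod_cast hℓ'
  have hℓ1 : (1 : ℝ) ≤ ℓ := by exact_mod_cast hℓ
  have hℓ1' : (1 : ℝ) ≤ ℓ' := by exact_mod_cast hℓ'
  have hLL : ℓ ≤ ℓ * ℓ' := Nat.le_mul_of_pos_right _ hℓ'
  have hLL' : ℓ' ≤ ℓ * ℓ' := Nat.le_mul_of_pos_left _ hℓ
  -- all sites of the paths
  have hmem : ∀ m : ℕ, m ≤ 2 * (ℓ * ℓ') → ∀ a ∈ box (0 : Site d) R,
      a + sm m y ∈ box (0 : Site d) N := by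
    intro m hm a ha
    refine mem_shift ha hy ?_
    have h1 : m * K ≤ 2 * (ℓ * ℓ') * K := Nat.mul_le_mul_right _ hm
    have h2 : 2 * (ℓ * ℓ') * K ≤ 4 * K * (ℓ * ℓ') := by nlinarith only [Nat.zero_le (K * (ℓ * ℓ'))]
    omega
  have hpth : ∀ j < ℓ, ∀ i : ℕ, ∀ a ∈ box (0 : Site d) R,
      pth y ℓ ℓ' j a i ∈ box (0 : Site d) N := by
    intro j hj i a ha
    unfold pth
    split_ifs with h1 h2
    · have := hmem 0 (Nat.zero_le _) a ha
      rwa [sm_zero, add_zero] at this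
    · apply hmem _ _ a ha
      have h3 : (i - 1) * ℓ ≤ ℓ' * ℓ := Nat.mul_le_mul_right _ (by omega)
      rw [Nat.mul_comm ℓ' ℓ] at h3
      omega
    · exact hmem _ (by omega) a ha
  -- the terms
  set T : ℕ → ℕ → Site d → Ω → ℝ := fun j i a ω =>
    max 0 (D ω (pth y ℓ ℓ' j a 0) (pth y ℓ ℓ' j a (i + 2)) -
      D ω (pth y ℓ ℓ' j a 0) (pth y ℓ ℓ' j a (i + 1)) -
      D ω (pth y ℓ ℓ' j a (i + 1)) (pth y ℓ ℓ' j a (i + 2))) with hT
  set G : ℕ → Site d → Ω → ℝ := fun j a ω => D ω a (a + sm j y) +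
    (D ω (a + sm (j + ℓ * ℓ') y) (a + sm (ℓ * ℓ') y) +
      ∑ i ∈ Finset.range (ℓ' + 1), T j i a ω) with hG
  have hGadm : ∀ j < ℓ, Adm P R (G j) ∧
      nA P R (G j) ≤ Real.sqrt C * (j * K + 1 : ℕ) + (Real.sqrt C * (j * K + 1 : ℕ) +
        (ℓ' + 1 : ℕ) * Real.sqrt C) := by
    intro j hj
    have hid : ∀ a ∈ box (0 : Site d) R, a ∈ box (0 : Site d) N := by
      intro a ha
      have := hmem 0 (Nat.zero_le _) a ha
      rwa [sm_zero, add_zero] at this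
    have g1 := admD hN h hC (R := R) (m := j * K) (p := fun a => a) (q := fun a => a + sm j y)
      hid (fun a ha => hmem j (by omega) a ha)
      (fun a _ => by rw [sd_add0]; exact (sd_sm0 j y).trans (Nat.mul_le_mul_left _ hy))
    have g2 := admD hN h hC (R := R) (m := j * K) (p := fun a => a + sm (j + ℓ * ℓ') y)
      (q := fun a => a + sm (ℓ * ℓ') y)
      (fun a ha => hmem _ (by omega) a ha) (fun a ha => hmem _ (by omega) a ha)
      (fun a _ => by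
        have e : a + sm (j + ℓ * ℓ') y = a + sm (ℓ * ℓ') y + sm j y := by
          rw [Nat.add_comm j, sm_add, add_assoc]
        rw [e, sd_comm, sd_add0]
        exact (sd_sm0 j y).trans (Nat.mul_le_mul_left _ hy))
    have g3 := (hN d Ω P R).2.2.2.1 (ℓ' + 1) (T j) (Real.sqrt C)
      (fun i _ => (admT hN h hC (hpth j hj 0) (hpth j hj (i + 1)) (hpth j hj (i + 2))).1)
      (fun i _ => (admT hN h hC (hpth j hj 0) (hpth j hj (i + 1)) (hpth j hj (i + 2))).2)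
    have g4 := (hN d Ω P R).1 _ _ g2.1 g3.1
    have g5 := (hN d Ω P R).1 _ _ g1.1 g4.1
    refine ⟨g5.1, g5.2.1.trans (add_le_add ?_ (g4.2.1.trans (add_le_add ?_ ?_)))⟩
    · refine g1.2.trans (le_of_eq ?_)
      push_cast
      ring
    · refine g2.2.trans (le_of_eq ?_)
      push_cast
      ring
    · exact g3.2
  set B : ℝ := Real.sqrt C * (ℓ * K + 1) + (Real.sqrt C * (ℓ * K + 1) +
    (ℓ' + 1) * Real.sqrt C) with hB
  have hGB : ∀ j < ℓ, nA P R (G j) ≤ B := by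
    intro j hj
    refine (hGadm j hj).2.trans ?_
    have h1 : ((j * K + 1 : ℕ) : ℝ) ≤ ℓ * K + 1 := by
      push_cast
      have : (j : ℝ) ≤ ℓ := by exact_mod_cast hj.le
      gcongr
    rw [hB]
    push_cast at h1 ⊢
    gcongr
  have hsum := (hN d Ω P R).2.2.2.1 ℓ G B (fun j hj => (hGadm j hj).1) hGB
  refine ⟨fun a ω => 1 / (ℓ * (ℓ * ℓ') : ℝ) * ∑ j ∈ Finset.range ℓ, G j a ω,
    admMul _ hsum.1, ?_, ?_⟩
  · rw [(hN d Ω P R).2.2.1, abs_of_nonneg (by positivity)]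
    calc 1 / (ℓ * (ℓ * ℓ') : ℝ) * nA P R (fun a ω => ∑ j ∈ Finset.range ℓ, G j a ω)
        ≤ 1 / (ℓ * (ℓ * ℓ') : ℝ) * (ℓ * B) := by
          apply mul_le_mul_of_nonneg_left hsum.2 (by positivity)
      _ = Real.sqrt C * (2 * K / ℓ' + 1 / ℓ + 3 / (ℓ * ℓ')) := by
          rw [hB]
          field_simp
          ring
      _ ≤ Real.sqrt C * ((2 * K + 3) * (1 / ℓ + 1 / ℓ')) := by
          apply mul_le_mul_of_nonneg_left _ (Real.sqrt_nonneg _)
          have e1 : (3 : ℝ) / (ℓ * ℓ') ≤ 3 / ℓ' := by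
            apply div_le_div_of_nonneg_left (by norm_num) hℓr'
            nlinarith only [hℓ1]
          have e2 : (0 : ℝ) ≤ K := Nat.cast_nonneg K
          have e3 : (0 : ℝ) < 1 / ℓ := by positivity
          have e4 : (2 * K + 3) * (1 / (ℓ : ℝ) + 1 / ℓ') =
              2 * K / ℓ' + 3 / ℓ' + (2 * K + 3) * (1 / ℓ) := by
            field_simp
            ring
          rw [e4]
          nlinarith only [e1, e3]
      _ = _ := by ring
  · intro a ha ω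
    -- the path inequality for each `j`
    have hj : ∀ j ∈ Finset.range ℓ, D ω a (a + sm (ℓ * ℓ') y) ≤
        ∑ i ∈ Finset.range ℓ', ℓ * XX D y ℓ (a + sm (j + i * ℓ) y) ω + G j a ω := by
      intro j hj
      have h1 := path_le (D ω) (pth y ℓ ℓ' j a) (ℓ' + 1)
      have e0 : pth y ℓ ℓ' j a 0 = a := by simp [pth]
      have e1 : pth y ℓ ℓ' j a (ℓ' + 1 + 1) = a + sm (ℓ * ℓ') y := by
        unfold pth
        rw [if_neg (by omega), if_neg (by omega)]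
      have e2 : ∀ i : ℕ, i ≤ ℓ' → pth y ℓ ℓ' j a (i + 1) = a + sm (j + i * ℓ) y := by
        intro i hi
        unfold pth
        rw [if_neg (by omega), if_pos (by omega)]
        rfl
      rw [Finset.sum_range_succ, Finset.sum_range_succ'] at h1
      rw [e1, e0] at h1
      have e3 : ∑ i ∈ Finset.range ℓ', D ω (pth y ℓ ℓ' j a (i + 1)) (pth y ℓ ℓ' j a (i + 1 + 1)) =
          ∑ i ∈ Finset.range ℓ', ℓ * XX D y ℓ (a + sm (j + i * ℓ) y) ω := by
        refine Finset.sum_congr rfl fun i hi => ?_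
        rw [Finset.mem_range] at hi
        rw [e2 i hi.le, e2 (i + 1) (by omega)]
        unfold XX
        rw [mul_div_cancel₀ _ hℓr.ne']
        congr 1
        rw [add_assoc, ← sm_add]
        congr 2
        ring
      have e4 : pth y ℓ ℓ' j a (0 + 1) = a + sm j y := by
        rw [e2 0 (Nat.zero_le _)]
        simp
      have e5 : pth y ℓ ℓ' j a (ℓ' + 1) = a + sm (j + ℓ * ℓ') y := by
        rw [e2 ℓ' le_rfl, Nat.mul_comm ℓ' ℓ]
      rw [e3, e4, e5] at h1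
      simp only [hG, hT, e0]
      linarith only [h1]
    have h2 : (ℓ : ℝ) * D ω a (a + sm (ℓ * ℓ') y) ≤
        ℓ * ∑ r ∈ Finset.range (ℓ * ℓ'), XX D y ℓ (a + sm r y) ω +
          ∑ j ∈ Finset.range ℓ, G j a ω := by
      have h3 := Finset.sum_le_sum hj
      rw [Finset.sum_const, Finset.card_range, nsmul_eq_mul, Finset.sum_add_distrib,
        sum_blocks (fun r => ℓ * XX D y ℓ (a + sm r y) ω), ← Finset.mul_sum] at h3
      exact h3
    unfold XX at h2 ⊢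
    have h4 : (0 : ℝ) < ℓ * (ℓ * ℓ') := by positivity
    have h5 := div_le_div_of_nonneg_right h2 h4.le
    have e6 : (ℓ : ℝ) * D ω a (a + sm (ℓ * ℓ') y) / (ℓ * (ℓ * ℓ')) =
        D ω a (a + sm (ℓ * ℓ') y) / ((ℓ * ℓ' : ℕ) : ℝ) := by
      push_cast
      field_simp
    rw [e6] at h5
    refine h5.trans (le_of_eq ?_)
    rw [add_div]
    congr 1
    · field_simp
    · field_simp

/-- the norm of a shift -/
theorem shift_le (hN : NrmStmt) {R : ℕ} {f : Site d → Ω → ℝ} {b : Site d} {e : ℝ} (he : 0 ≤ e)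
    (h : |Av R (fun a => ∫ ω, f (a + b) ω ^ 2 ∂P) - Av R (fun a => ∫ ω, f a ω ^ 2 ∂P)| ≤ e ^ 2) :
    nA P R (fun a ω => f (a + b) ω) ≤ nA P R f + e := by
  unfold nA
  have h1 := (abs_le.1 h).2
  apply Real.sqrt_le_iff.2
  have h0 : 0 ≤ Av R (fun a => ∫ ω, f a ω ^ 2 ∂P) := by
    unfold Av
    exact div_nonneg (Finset.sum_nonneg fun a _ => integral_nonneg fun ω => sq_nonneg _)
      (by positivity)
  refine ⟨by positivity, ?_⟩
  have h2 := Real.sq_sqrt h0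
  have h3 := Real.sqrt_nonneg (Av R (fun a => ∫ ω, f a ω ^ 2 ∂P))
  nlinarith only [he, h1, h2, h3]

end

theorem keyX (hN : NrmStmt) (hA : AvsStmt) : KeyXStmt := by
  intro d K C hC hK
  have hC' : 0 < Real.sqrt C := Real.sqrt_pos.2 hC
  refine ⟨Real.sqrt C * (2 * K + 3) + Real.sqrt C, by positivity, ?_⟩
  intro ℓ ℓ' e hℓ hℓ' he
  have hℓr : (0 : ℝ) < ℓ := by exact_mod_cast hℓ
  have hℓr' : (0 : ℝ) < ℓ' := by exact_mod_cast hℓ'
  have hℓ1 : (1 : ℝ) ≤ ℓ := by exact_mod_cast hℓ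
  have hℓ1' : (1 : ℝ) ≤ ℓ' := by exact_mod_cast hℓ'
  have hLL : ℓ ≤ ℓ * ℓ' := Nat.le_mul_of_pos_right _ hℓ'
  have hLL' : ℓ' ≤ ℓ * ℓ' := Nat.le_mul_of_pos_left _ hℓ
  have hLr : (0 : ℝ) < ((ℓ * ℓ' : ℕ) : ℝ) := by
    push_cast
    positivity
  obtain ⟨R₀, hR₀⟩ := hA d (K * (ℓ * ℓ')) (C * (K + 1) ^ 2) (e ^ 2) (by positivity)
  refine ⟨R₀, ?_⟩
  intro R N hR hRN Ω _ P _ D hD y hy
  -- the two halves
  obtain ⟨e1, ha1, hb1, hc1⟩ := half (P := P) hN hD hC hℓ hℓ' hRN hy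
  obtain ⟨e2, ha2, hb2, hc2⟩ := half (P := P) hN hD hC hℓ' hℓ
    (by rwa [Nat.mul_comm ℓ' ℓ]) hy
  set Z : Site d → Ω → ℝ := fun a ω => (XX D y ℓ a ω + XX D y ℓ' a ω) / 2 with hZ
  have hKm : ∀ m : ℕ, m ≤ 2 * (ℓ * ℓ') → m * K ≤ 4 * K * (ℓ * ℓ') := by
    intro m hm
    have h1 : m * K ≤ 2 * (ℓ * ℓ') * K := Nat.mul_le_mul_right _ hm
    nlinarith only [Nat.zero_le (K * (ℓ * ℓ')), h1]
  -- integrability of `Z`
  have hZ1 : ∀ b ∈ box (0 : Site d) (R + K * (ℓ * ℓ')), Measurable (Z b) ∧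
      Integrable (fun ω => Z b ω ^ 2) P ∧ ∫ ω, Z b ω ^ 2 ∂P ≤ C * (K + 1) ^ 2 := by
    intro b hb
    have m0 : b ∈ box (0 : Site d) N := by
      have h1 := mem_shift (m := 0) (N := N) hb hy (by
        have := hKm (ℓ * ℓ') (by omega)
        have h2 : ℓ * ℓ' * K = K * (ℓ * ℓ') := Nat.mul_comm _ _
        omega)
      rwa [sm_zero, add_zero] at h1
    have mm : ∀ m : ℕ, m ≤ ℓ * ℓ' → b + sm m y ∈ box (0 : Site d) N := by
      intro m hm
      apply mem_shift hb hy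
      have h1 : m * K ≤ ℓ * ℓ' * K := Nat.mul_le_mul_right _ hm
      have h2 : ℓ * ℓ' * K = K * (ℓ * ℓ') := Nat.mul_comm _ _
      have h3 : 4 * K * (ℓ * ℓ') = 4 * (K * (ℓ * ℓ')) := by ring
      omega
    have i1 := hD.int b m0 _ (mm ℓ hLL)
    have i2 := hD.int b m0 _ (mm ℓ' hLL')
    have l1 : MemLp (fun ω => XX D y ℓ b ω) 2 P := by
      have := (memD hD m0 (mm ℓ hLL)).const_mul ((ℓ : ℝ)⁻¹)
      refine this.congr_norm ?_ ?_
      · exact ((hD.meas _ _).div_const _).aestronglyMeasurable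
      · refine Filter.Eventually.of_forall fun ω => ?_
        simp only [XX]
        rw [div_eq_inv_mul]
    have l2 : MemLp (fun ω => XX D y ℓ' b ω) 2 P := by
      have := (memD hD m0 (mm ℓ' hLL')).const_mul ((ℓ' : ℝ)⁻¹)
      refine this.congr_norm ?_ ?_
      · exact ((hD.meas _ _).div_const _).aestronglyMeasurable
      · refine Filter.Eventually.of_forall fun ω => ?_
        simp only [XX]
        rw [div_eq_inv_mul]
    have hmeas : Measurable (Z b) :=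
      (((hD.meas _ _).div_const _).add ((hD.meas _ _).div_const _)).div_const _
    have hZL : MemLp (Z b) 2 P := by
      have := (l1.add l2).const_mul ((2 : ℝ)⁻¹)
      refine this.congr_norm hmeas.aestronglyMeasurable ?_
      refine Filter.Eventually.of_forall fun ω => ?_
      simp only [hZ, Pi.add_apply]
      rw [div_eq_inv_mul]
    have hZi := (memLp_two_iff_integrable_sq hmeas.aestronglyMeasurable).1 hZL
    refine ⟨hmeas, hZi, ?_⟩
    have hq : ∀ m : ℕ, 1 ≤ m → m ≤ ℓ * ℓ' → ∫ ω, XX D y m b ω ^ 2 ∂P ≤ C * (K + 1) ^ 2 := by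
      intro m hm hmL
      have hmr : (1 : ℝ) ≤ m := by exact_mod_cast hm
      have e1 : (fun ω => XX D y m b ω ^ 2) =
          fun ω => (1 / (m : ℝ) ^ 2) * D ω b (b + sm m y) ^ 2 := by
        funext ω
        simp only [XX]
        rw [div_pow]
        ring
      rw [e1, integral_const_mul]
      have h1 := hD.sq b m0 _ (mm m hmL)
      have h2 : ((sd b (b + sm m y) : ℕ) : ℝ) ≤ m * K := by
        rw [sd_add0]
        exact_mod_cast (sd_sm0 m y).trans (Nat.mul_le_mul_left _ hy)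
      calc (1 / (m : ℝ) ^ 2) * ∫ ω, D ω b (b + sm m y) ^ 2 ∂P
          ≤ (1 / (m : ℝ) ^ 2) * (C * ((sd b (b + sm m y) : ℝ) + 1) ^ 2) := by gcongr
        _ ≤ (1 / (m : ℝ) ^ 2) * (C * (m * K + m) ^ 2) := by gcongr
        _ = C * (K + 1) ^ 2 := by
          field_simp
    have q1 := hq ℓ hℓ hLL
    have q2 := hq ℓ' hℓ' hLL'
    have j1 := (memLp_two_iff_integrable_sq l1.1).1 l1
    have j2 := (memLp_two_iff_integrable_sq l2.1).1 l2
    calc ∫ ω, Z b ω ^ 2 ∂P ≤ ∫ ω, (XX D y ℓ b ω ^ 2 / 2 + XX D y ℓ' b ω ^ 2 / 2) ∂P := by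
          refine integral_mono hZi ((j1.div_const 2).add (j2.div_const 2)) fun ω => ?_
          simp only [hZ]
          nlinarith only [sq_nonneg (XX D y ℓ b ω - XX D y ℓ' b ω)]
      _ = (∫ ω, XX D y ℓ b ω ^ 2 ∂P) / 2 + (∫ ω, XX D y ℓ' b ω ^ 2 ∂P) / 2 := by
          rw [integral_add (j1.div_const 2) (j2.div_const 2), integral_div, integral_div]
      _ ≤ C * (K + 1) ^ 2 := by linarith only [q1, q2]
  -- the average of `Z`
  have hsh : ∀ r < ℓ * ℓ', Adm P R (fun a ω => Z (a + sm r y) ω) ∧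
      nA P R (fun a ω => Z (a + sm r y) ω) ≤ nA P R Z + e := by
    intro r hr
    have hrK : sd 0 (sm r y) ≤ K * (ℓ * ℓ') := by
      refine (sd_sm0 r y).trans ?_
      rw [Nat.mul_comm K]
      exact Nat.mul_le_mul hr.le hy
    have hin : ∀ a ∈ box (0 : Site d) R, a + sm r y ∈ box (0 : Site d) (R + K * (ℓ * ℓ')) := by
      intro a ha
      rw [mem_box] at ha ⊢
      refine (sd_triangle 0 a _).trans ?_
      rw [sd_add0]
      omega
    refine ⟨fun a ha => ⟨(hZ1 _ (hin a ha)).1, (hZ1 _ (hin a ha)).2.1⟩, ?_⟩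
    apply shift_le hN he.le
    refine hR₀ R hR (fun a => ∫ ω, Z a ω ^ 2 ∂P) (sm r y) hrK ?_
    intro a ha
    rw [abs_of_nonneg (integral_nonneg fun ω => sq_nonneg _)]
    exact (hZ1 a ha).2.2
  have hF := (hN d Ω P R).2.2.2.1 (ℓ * ℓ') (fun r a ω => Z (a + sm r y) ω) (nA P R Z + e)
    (fun r hr => (hsh r hr).1) (fun r hr => (hsh r hr).2)
  -- the four functions
  set F : Site d → Ω → ℝ := fun a ω =>
    1 / ((ℓ * ℓ' : ℕ) : ℝ) * ∑ r ∈ Finset.range (ℓ * ℓ'), Z (a + sm r y) ω with hFdef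
  have hFa : Adm P R F := admMul _ hF.1
  have hFn : nA P R F ≤ nA P R Z + e := by
    rw [hFdef, (hN d Ω P R).2.2.1, abs_of_nonneg (by positivity)]
    calc 1 / ((ℓ * ℓ' : ℕ) : ℝ) * nA P R (fun a ω => ∑ r ∈ Finset.range (ℓ * ℓ'), Z (a + sm r y) ω)
        ≤ 1 / ((ℓ * ℓ' : ℕ) : ℝ) * (((ℓ * ℓ' : ℕ) : ℝ) * (nA P R Z + e)) := by
          apply mul_le_mul_of_nonneg_left hF.2 (by positivity)
      _ = nA P R Z + e := by
          rw [← mul_assoc, one_div_mul_cancel hLr.ne', one_mul]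
  set H1 : Site d → Ω → ℝ := fun a ω => 1 / 2 * e1 a ω with hH1
  set H2 : Site d → Ω → ℝ := fun a ω => 1 / 2 * e2 a ω with hH2
  set H3 : Site d → Ω → ℝ := fun a ω =>
    1 / ((ℓ * ℓ' : ℕ) : ℝ) * max 0 (-D ω a (a + sm (ℓ * ℓ') y)) with hH3
  have hmem : ∀ m : ℕ, m ≤ ℓ * ℓ' → ∀ a ∈ box (0 : Site d) R,
      a + sm m y ∈ box (0 : Site d) N := by
    intro m hm a ha
    apply mem_shift ha hy
    have := hKm m (by omega)
    omega
  have hmem0 : ∀ a ∈ box (0 : Site d) R, a ∈ box (0 : Site d) N := by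
    intro a ha
    have := hmem 0 (Nat.zero_le _) a ha
    rwa [sm_zero, add_zero] at this
  have h3 := admN (P := P) hN hD hC (R := R) (p := fun a => a)
    (q := fun a => a + sm (ℓ * ℓ') y) hmem0 (hmem _ le_rfl)
  have hH1a : Adm P R H1 := admMul _ ha1
  have hH2a : Adm P R H2 := admMul _ ha2
  have hH3a : Adm P R H3 := admMul _ h3.1
  have hH1n : nA P R H1 ≤ 1 / 2 * (Real.sqrt C * (2 * K + 3) * (1 / ℓ + 1 / ℓ')) := by
    rw [hH1, (hN d Ω P R).2.2.1, abs_of_nonneg (by norm_num)]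
    exact mul_le_mul_of_nonneg_left hb1 (by norm_num)
  have hH2n : nA P R H2 ≤ 1 / 2 * (Real.sqrt C * (2 * K + 3) * (1 / ℓ' + 1 / ℓ)) := by
    rw [hH2, (hN d Ω P R).2.2.1, abs_of_nonneg (by norm_num)]
    exact mul_le_mul_of_nonneg_left hb2 (by norm_num)
  have hH3n : nA P R H3 ≤ Real.sqrt C * (1 / ℓ + 1 / ℓ') := by
    rw [hH3, (hN d Ω P R).2.2.1, abs_of_nonneg (by positivity)]
    calc 1 / ((ℓ * ℓ' : ℕ) : ℝ) * nA P R (fun a ω => max 0 (-D ω a (a + sm (ℓ * ℓ') y)))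
        ≤ 1 / ((ℓ * ℓ' : ℕ) : ℝ) * Real.sqrt C :=
          mul_le_mul_of_nonneg_left h3.2 (by positivity)
      _ ≤ (1 / ℓ + 1 / ℓ') * Real.sqrt C := by
          apply mul_le_mul_of_nonneg_right _ hC'.le
          have h4 : 1 / ((ℓ * ℓ' : ℕ) : ℝ) ≤ 1 / ℓ := by
            push_cast
            apply one_div_le_one_div_of_le hℓr
            nlinarith only [hℓ1']
          have h5 : (0 : ℝ) < 1 / ℓ' := by positivity
          linarith only [h4, h5]
      _ = _ := by ring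
  have s1 := (hN d Ω P R).1 _ _ (admAbs hH2a) (admAbs hH3a)
  have s2 := (hN d Ω P R).1 _ _ (admAbs hH1a) s1.1
  have s3 := (hN d Ω P R).1 _ _ (admAbs hFa) s2.1
  have hpt : ∀ a ∈ box (0 : Site d) R, ∀ ω, |XX D y (ℓ * ℓ') a ω| ≤
      |(|F a ω| + (|H1 a ω| + (|H2 a ω| + |H3 a ω|)))| := by
    intro a ha ω
    have hnn : 0 ≤ |F a ω| + (|H1 a ω| + (|H2 a ω| + |H3 a ω|)) := by positivity
    rw [abs_of_nonneg hnn]
    have u1 := hc1 a ha ω
    have u2 := hc2 a ha ω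
    have hFe : F a ω = 1 / 2 * (1 / (ℓ * ℓ' : ℝ) *
        ∑ r ∈ Finset.range (ℓ * ℓ'), XX D y ℓ (a + sm r y) ω) + 1 / 2 * (1 / (ℓ' * ℓ : ℝ) *
        ∑ r ∈ Finset.range (ℓ' * ℓ), XX D y ℓ' (a + sm r y) ω) := by
      rw [hFdef, Nat.mul_comm ℓ' ℓ]
      simp only [hZ]
      rw [← Finset.sum_div, Finset.sum_add_distrib]
      push_cast
      ring
    have u3 : XX D y (ℓ * ℓ') a ω ≤ F a ω + H1 a ω + H2 a ω := by
      rw [hFe]
      simp only [hH1, hH2]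
      have e3 : XX D y (ℓ' * ℓ) a ω = XX D y (ℓ * ℓ') a ω := by rw [Nat.mul_comm]
      rw [e3] at u2
      linarith only [u1, u2]
    have u4 : -XX D y (ℓ * ℓ') a ω ≤ H3 a ω := by
      simp only [XX, hH3]
      rw [← neg_div, div_eq_mul_one_div, mul_comm]
      exact mul_le_mul_of_nonneg_left (le_max_right _ _) (by positivity)
    have v1 := le_abs_self (F a ω)
    have v2 := le_abs_self (H1 a ω)
    have v3 := le_abs_self (H2 a ω)
    have v4 := le_abs_self (H3 a ω)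
    have w1 := abs_nonneg (F a ω)
    have w2 := abs_nonneg (H1 a ω)
    have w3 := abs_nonneg (H2 a ω)
    have w4 := abs_nonneg (H3 a ω)
    apply abs_le.2
    constructor <;> linarith
  have hfin := (hN d Ω P R).2.1 _ _ s3.1 hpt
  have t1 := s3.2.1
  have t2 := s2.2.1
  have t3 := s1.2.1
  rw [nA_abs] at t1 t2 t3
  rw [nA_abs] at t3
  have hfin2 : nA P R (XX D y (ℓ * ℓ')) ≤ nA P R F + (nA P R H1 + (nA P R H2 + nA P R H3)) := by
    linarith only [hfin, t1, t2, t3]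
  calc nA P R (XX D y (ℓ * ℓ')) ≤ nA P R F + (nA P R H1 + (nA P R H2 + nA P R H3)) := hfin2
    _ ≤ (nA P R Z + e) + (1 / 2 * (Real.sqrt C * (2 * K + 3) * (1 / ℓ + 1 / ℓ')) +
        (1 / 2 * (Real.sqrt C * (2 * K + 3) * (1 / ℓ' + 1 / ℓ)) +
          Real.sqrt C * (1 / ℓ + 1 / ℓ'))) := by
        linarith only [hFn, hH1n, hH2n, hH3n]
    _ = _ := by ring

end Pool.Agent.LE.H96
end
end -- Pool.Agent.Helper96_LE.KeyX
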