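import Pool.Agent.Helper12_MEB.B029
import Pool.Agent.Helper12_MEB.B033

/-!
# Merged copies (generated) of the modules

* `Pool.Agent.Helper32_Mob.Lrg`
* `Pool.Agent.Helper32_Mob.Ptw`
* `Pool.Agent.Helper33_Mob.Blk`
* `Pool.Agent.Helper64_Mob.Ret`
* `Pool.Agent.Helper75_Mob.Tbx`
* `Pool.Agent.Helper85_Mob.Aff`
* `Pool.Agent.Helper94_Mob.Ana`
* `Pool.Agent.Helper94_Mob.Anb`
* `Pool.Agent.Helper98_Mob.Dic`
* `Pool.Agent.Helper47_Mob.Tbp`
-/

set_option autoImplicit false

section -- Pool.Agent.Helper32_Mob.Lrg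

/-!
# Squad T2: module LRG
-/

set_option autoImplicit false

open MeasureTheory ProbabilityTheory Function Filter Topology

open scoped ENNReal BigOperators

noncomputable section

namespace Pool.Agent.Mob.H32

open Pool.Agent.Anderson Pool.Agent.Loc Pool.Agent.Mob

variable {d : ℕ}

/-- `|g| ^ (1/8) ≤ t ^ (1/8) + t ^ (-3/8) √|g|` -/
theorem p8_le_sqrt (g : ℝ) {t : ℝ} (ht : 0 < t) :
    p8 g ≤ ENNReal.ofReal (t ^ (1 / 8 : ℝ)) +
      ENNReal.ofReal (t ^ (-(3 / 8) : ℝ)) * ENNReal.ofReal (√|g|) := by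
  unfold p8
  rw [← ENNReal.ofReal_mul (by positivity), ← ENNReal.ofReal_add (by positivity) (by positivity)]
  apply ENNReal.ofReal_le_ofReal
  rcases le_total |g| t with h | h
  · have h1 := Real.rpow_le_rpow (abs_nonneg g) h (by norm_num : (0 : ℝ) ≤ 1 / 8)
    have h2 : 0 ≤ t ^ (-(3 / 8) : ℝ) * √|g| := by positivity
    linarith
  · have hg : 0 < |g| := ht.trans_le h
    have h1 : |g| ^ (1 / 8 : ℝ) = |g| ^ (-(3 / 8) : ℝ) * √|g| := by
      rw [Real.sqrt_eq_rpow, ← Real.rpow_add hg]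
      norm_num
    have h2 : |g| ^ (-(3 / 8) : ℝ) ≤ t ^ (-(3 / 8) : ℝ) :=
      Real.rpow_le_rpow_of_nonpos ht h (by norm_num)
    have h3 : |g| ^ (-(3 / 8) : ℝ) * √|g| ≤ t ^ (-(3 / 8) : ℝ) * √|g| :=
      mul_le_mul_of_nonneg_right h2 (Real.sqrt_nonneg _)
    have h4 : 0 ≤ t ^ (1 / 8 : ℝ) := by positivity
    linarith

/-- the a priori bound for the fractional moment -/
theorem lintegral_pg_le {σ : ℝ} (hσ : σ ≠ 0) (Λ : Finset (Site d)) (E : ℝ) (x y : Site d) :
    ∫⁻ V, pg Λ E x y V ∂(PL (gl σ) Λ) ≤ ENNReal.ofReal (3 * (6 / |σ|) ^ (1 / 8 : ℝ)) := by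
  have hσ' : 0 < |σ| := abs_pos.2 hσ
  have ht : 0 < 6 / |σ| := by positivity
  have h1 : ∫⁻ V, pg Λ E x y V ∂(PL (gl σ) Λ) ≤
      ∫⁻ V, (ENNReal.ofReal ((6 / |σ|) ^ (1 / 8 : ℝ)) +
        ENNReal.ofReal ((6 / |σ|) ^ (-(3 / 8) : ℝ)) * ENNReal.ofReal (√|gr V Λ E x y|))
          ∂(PL (gl σ) Λ) := lintegral_mono fun V => p8_le_sqrt _ ht
  refine h1.trans ?_
  have hm : Measurable fun V : Site d → ℝ => ENNReal.ofReal (√|gr V Λ E x y|) :=
    (measurable_gr Λ E x y).abs.sqrt.ennreal_ofReal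
  rw [lintegral_add_left measurable_const, lintegral_const, measure_univ, mul_one,
    lintegral_const_mul _ hm]
  have h2 := PL_sqrt (bddDens_gl hσ) Λ E x y
  have h3 : ENNReal.ofReal ((6 / |σ|) ^ (-(3 / 8) : ℝ)) *
      ∫⁻ V, ENNReal.ofReal (√|gr V Λ E x y|) ∂(PL (gl σ) Λ) ≤
      ENNReal.ofReal ((6 / |σ|) ^ (-(3 / 8) : ℝ)) * ENNReal.ofReal (2 * √(6 * (1 / |σ|))) :=
    mul_le_mul_right h2 _
  refine (add_le_add_right h3 _).trans ?_
  rw [← ENNReal.ofReal_mul (by positivity), ← ENNReal.ofReal_add (by positivity) (by positivity)]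
  apply ENNReal.ofReal_le_ofReal
  have h4 : (6 / |σ|) ^ (-(3 / 8) : ℝ) * (2 * √(6 * (1 / |σ|))) = 2 * (6 / |σ|) ^ (1 / 8 : ℝ) := by
    have h5 : 6 * (1 / |σ|) = 6 / |σ| := by ring
    rw [h5, Real.sqrt_eq_rpow, mul_left_comm, ← Real.rpow_add ht]
    norm_num
  rw [h4]
  apply le_of_eq
  ring

/-- LRG -/
theorem lrg : LrgStmt := by
  intro d hd C₀ hC
  have hlim : Tendsto (fun s : ℝ => C₀ * (1 + 1 / s) * (2 * ((0 : ℕ) : ℝ) + 5) ^ (6 * d) *
      (3 * (6 / s) ^ (1 / 8 : ℝ))) atTop (𝓝 0) := by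
    have h1 : Tendsto (fun s : ℝ => (6 / s) ^ (1 / 8 : ℝ)) atTop (𝓝 0) := by
      have h2 : Tendsto (fun s : ℝ => 6 / s) atTop (𝓝 0) := tendsto_const_nhds.div_atTop tendsto_id
      have h3 := h2.rpow_const (p := (1 / 8 : ℝ)) (Or.inr (by norm_num))
      rwa [Real.zero_rpow (by norm_num)] at h3
    have h2 : Tendsto (fun s : ℝ => C₀ * (1 + 1 / s) * (2 * ((0 : ℕ) : ℝ) + 5) ^ (6 * d)) atTop
        (𝓝 (C₀ * (1 + 0) * (2 * ((0 : ℕ) : ℝ) + 5) ^ (6 * d))) := by
      refine Tendsto.mul_const _ (Tendsto.const_mul _ (Tendsto.const_add _ ?_))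
      exact tendsto_const_nhds.div_atTop tendsto_id
    have h3 := h2.mul (h1.const_mul 3)
    rwa [mul_zero, mul_zero] at h3
  have hev := (hlim.eventually (ge_mem_nhds (Real.exp_pos (-1)))).and (eventually_gt_atTop 0)
  obtain ⟨σ₁, hσ₁⟩ := eventually_atTop.1 hev
  have hpos := (hσ₁ σ₁ le_rfl).2
  refine ⟨σ₁, hpos, ?_⟩
  intro σ hσ E
  have hσ0 : σ ≠ 0 := by
    intro h
    rw [h, abs_zero] at hσ
    linarith
  refine ⟨3 * (6 / |σ|) ^ (1 / 8 : ℝ), by positivity, (hσ₁ |σ| hσ).1, ?_⟩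
  intro x u _
  exact lintegral_pg_le hσ0 _ E x u

end Pool.Agent.Mob.H32
end
end -- Pool.Agent.Helper32_Mob.Lrg

section -- Pool.Agent.Helper32_Mob.Ptw

/-!
# Squad T2: module PTW
-/

set_option autoImplicit false

open MeasureTheory ProbabilityTheory Function

open scoped ENNReal BigOperators

noncomputable section

namespace Pool.Agent.Mob.H32

open Pool.Agent.Anderson Pool.Agent.Loc Pool.Agent.Helper54.Bal Pool.Agent.Mob

variable {d : ℕ}

theorem coord_sub_le (V : Site d → ℝ) (x u : Site d) {η : ℝ} (hη : 0 < η) (E F : ℝ) :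
    ‖G V (zz η E) (del x) u‖ ≤ ‖G V (zz η F) (del x) u‖ + |F - E| / η ^ 2 := by
  have hz : ∀ E : ℝ, (zz η E).im = η := fun E => by simp [zz]
  have h1 : ‖G V (zz η E) - G V (zz η F)‖ ≤ ‖zz η E - zz η F‖ * (|(zz η E).im|⁻¹ *
      |(zz η F).im|⁻¹) := (isRes_G V).sub_norm_le (by rw [hz]; exact hη.ne') (by
      rw [hz]; exact hη.ne')
  have h2 : ‖zz η E - zz η F‖ = |F - E| := by
    have : zz η E - zz η F = ((E - F : ℝ) : ℂ) := by
      unfold zz
      push_cast
      ring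
    rw [this, Complex.norm_real, Real.norm_eq_abs, abs_sub_comm]
  rw [h2, hz, hz, abs_of_pos hη] at h1
  have h3 : ‖(G V (zz η E) - G V (zz η F)) (del x) u‖ ≤ |F - E| / η ^ 2 := by
    refine (norm_coord_le _ _).trans ?_
    refine (ContinuousLinearMap.le_opNorm _ _).trans ?_
    rw [norm_del, mul_one]
    refine h1.trans (le_of_eq ?_)
    field_simp
  have h4 : G V (zz η E) (del x) u = G V (zz η F) (del x) u +
      (G V (zz η E) - G V (zz η F)) (del x) u := by
    have : (G V (zz η E) - G V (zz η F)) (del x) u = G V (zz η E) (del x) u -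
        G V (zz η F) (del x) u := rfl
    rw [this]
    ring
  rw [h4]
  exact (norm_add_le _ _).trans (add_le_add_right h3 _)

/-- PTW, the error term outside of the integral -/
theorem ptw_strong (V : Site d → ℝ) (x u : Site d) (η h E a b : ℝ) (hη : 0 < η) (hh : 0 < h)
    (ha : a < E) (hb : E + h < b) :
    ENNReal.ofReal (‖G V (zz η E) (del x) u‖ ^ 2) ≤
      ENNReal.ofReal (2 / h) *
        (∫⁻ F in Set.Ioo a b, ENNReal.ofReal (‖G V (zz η F) (del x) u‖ ^ 2)) +
      ENNReal.ofReal (2 * h ^ 2 / η ^ 4) := by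
  set A : ℝ≥0∞ := ENNReal.ofReal (‖G V (zz η E) (del x) u‖ ^ 2) with hA
  set B : ℝ → ℝ≥0∞ := fun F => ENNReal.ofReal (‖G V (zz η F) (del x) u‖ ^ 2) with hB
  have h1 : ∀ F ∈ Set.Icc E (E + h), A ≤ ENNReal.ofReal 2 * B F +
      ENNReal.ofReal (2 * h ^ 2 / η ^ 4) := by
    intro F hF
    rw [hA, hB, ← ENNReal.ofReal_mul (by norm_num),
      ← ENNReal.ofReal_add (by positivity) (by positivity)]
    apply ENNReal.ofReal_le_ofReal
    have h2 := coord_sub_le V x u hη E F
    have h3 : |F - E| ≤ h := by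
      rw [abs_of_nonneg (by linarith only [hF.1])]
      linarith only [hF.2]
    have h4 : |F - E| / η ^ 2 ≤ h / η ^ 2 := by gcongr
    have h5 : ‖G V (zz η E) (del x) u‖ ≤ ‖G V (zz η F) (del x) u‖ + h / η ^ 2 := by linarith only [h2, h4]
    have h6 := norm_nonneg (G V (zz η E) (del x) u)
    have h7 : ‖G V (zz η E) (del x) u‖ ^ 2 ≤ (‖G V (zz η F) (del x) u‖ + h / η ^ 2) ^ 2 := by
      gcongr
    have h8 : 2 * h ^ 2 / η ^ 4 = 2 * (h / η ^ 2) ^ 2 := by
      rw [div_pow, ← pow_mul]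
      ring
    rw [h8]
    nlinarith only [sq_nonneg (‖G V (zz η F) (del x) u‖ - h / η ^ 2), h7]
  have hsub : Set.Icc E (E + h) ⊆ Set.Ioo a b := fun F hF =>
    ⟨ha.trans_le hF.1, hF.2.trans_lt hb⟩
  have h2 : A * ENNReal.ofReal h ≤ ENNReal.ofReal 2 * (∫⁻ F in Set.Ioo a b, B F) +
      ENNReal.ofReal (2 * h ^ 2 / η ^ 4) * ENNReal.ofReal h := by
    have hvol : volume (Set.Icc E (E + h)) = ENNReal.ofReal h := by
      rw [Real.volume_Icc]
      congr 1
      ring
    calc A * ENNReal.ofReal h = ∫⁻ _F in Set.Icc E (E + h), A := by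
          rw [setLIntegral_const, hvol]
      _ ≤ ∫⁻ F in Set.Icc E (E + h), (ENNReal.ofReal 2 * B F +
            ENNReal.ofReal (2 * h ^ 2 / η ^ 4)) := by
          apply lintegral_mono_ae
          filter_upwards [ae_restrict_mem measurableSet_Icc] with F hF
          exact h1 F hF
      _ = ENNReal.ofReal 2 * (∫⁻ F in Set.Icc E (E + h), B F) +
            ENNReal.ofReal (2 * h ^ 2 / η ^ 4) * ENNReal.ofReal h := by
          rw [lintegral_add_right _ measurable_const, lintegral_const_mul' _ _ ENNReal.ofReal_ne_top,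
            setLIntegral_const, hvol]
      _ ≤ _ := by
          gcongr
  have h3 : ENNReal.ofReal (1 / h) * ENNReal.ofReal h = 1 := by
    rw [← ENNReal.ofReal_mul (by positivity), one_div_mul_cancel hh.ne', ENNReal.ofReal_one]
  calc A = ENNReal.ofReal (1 / h) * (A * ENNReal.ofReal h) := by
        rw [mul_left_comm, h3, mul_one]
    _ ≤ ENNReal.ofReal (1 / h) * (ENNReal.ofReal 2 * (∫⁻ F in Set.Ioo a b, B F) +
          ENNReal.ofReal (2 * h ^ 2 / η ^ 4) * ENNReal.ofReal h) := by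
        gcongr
    _ = _ := by
        rw [mul_add, ← mul_assoc, mul_left_comm (ENNReal.ofReal (1 / h))
          (ENNReal.ofReal (2 * h ^ 2 / η ^ 4)), h3, mul_one, ← ENNReal.ofReal_mul (by positivity)]
        congr 3
        ring

/-- PTW -/
theorem ptw : PtwStmt := by
  intro d V x u η h E a b hη hh ha hb
  refine (ptw_strong V x u η h E a b hη hh ha hb).trans ?_
  rw [lintegral_add_right _ measurable_const, setLIntegral_const, Real.volume_Ioo, mul_add]
  apply add_le_add_right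
  rw [mul_left_comm, ← ENNReal.ofReal_mul (by positivity)]
  have h1 : (1 : ℝ≥0∞) ≤ ENNReal.ofReal (2 / h * (b - a)) := by
    rw [← ENNReal.ofReal_one]
    apply ENNReal.ofReal_le_ofReal
    rw [div_mul_eq_mul_div, le_div_iff₀ hh]
    linarith only [hh, ha, hb]
  calc ENNReal.ofReal (2 * h ^ 2 / η ^ 4) = ENNReal.ofReal (2 * h ^ 2 / η ^ 4) * 1 :=
        (mul_one _).symm
    _ ≤ _ := by gcongr

end Pool.Agent.Mob.H32
end
end -- Pool.Agent.Helper32_Mob.Ptw

section -- Pool.Agent.Helper33_Mob.Blk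

/-!
# The finite volume criterion implies exponential decay in the bulk
-/

set_option autoImplicit false
set_option linter.unusedSectionVars false

open MeasureTheory ProbabilityTheory Function

open scoped ENNReal BigOperators

noncomputable section

namespace Pool.Agent.Mob.H33

open Pool.Agent.Anderson Pool.Agent.Loc Pool.Agent.Mob

variable {d : ℕ} {ν : Measure ℝ} [IsProbabilityMeasure ν] {ρ : ℝ}

theorem marg_p8 (hν : BddDens ν ρ) (V : Site d → ℝ) (Λ : Finset (Site d)) (E : ℝ)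
    (x y : Site d) :
    (∫⋯∫⁻_{x, y}, pg Λ E x y ∂(fun _ => ν)) V ≤ ENNReal.ofReal (1 + 2 * √(6 * ρ)) := by
  have hm : Measurable fun V : Site d → ℝ => ENNReal.ofReal (√|gr V Λ E x y|) :=
    measurable_qg Λ E x y
  have h1 : pg Λ E x y ≤ fun V : Site d → ℝ => 1 + ENNReal.ofReal (√|gr V Λ E x y|) := by
    intro V
    exact p8_le _
  refine (lmarginal_mono h1 V).trans ?_
  rw [marg_add measurable_const, marg_free (f := fun _ => 1) (fun _ _ _ => rfl),
    ENNReal.ofReal_add (by norm_num) (by positivity), ENNReal.ofReal_one]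
  gcongr
  exact marg_sqrt hν V Λ E x y

theorem PL_p8 (hν : BddDens ν ρ) (Λ : Finset (Site d)) (E : ℝ) (x y : Site d) :
    ∫⁻ V, pg Λ E x y V ∂(PL ν Λ) ≤ ENNReal.ofReal (1 + 2 * √(6 * ρ)) := by
  have h1 : ∀ V, pg Λ E x y V ≤ 1 + ENNReal.ofReal (√|gr V Λ E x y|) := fun V => p8_le _
  refine (lintegral_mono h1).trans ?_
  rw [lintegral_add_left measurable_const, lintegral_const, measure_univ, mul_one,
    ENNReal.ofReal_add (by norm_num) (by positivity), ENNReal.ofReal_one]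
  gcongr
  exact PL_sqrt hν Λ E x y

theorem p8_hop_mul (hd : 1 ≤ d) (a b a' b' : Site d) :
    p8 (hop a b) * p8 (hop a' b') ≤ ENNReal.ofReal (2 * d) := by
  unfold p8
  rw [← ENNReal.ofReal_mul (by positivity)]
  apply ENNReal.ofReal_le_ofReal
  rw [abs_of_nonneg (hop_nonneg a b), abs_of_nonneg (hop_nonneg a' b')]
  have h1 : (hop a b) ^ (1 / 8 : ℝ) ≤ (2 * d : ℝ) ^ (1 / 8 : ℝ) :=
    Real.rpow_le_rpow (hop_nonneg _ _) (hop_le a b) (by norm_num)
  have h2 : (hop a' b') ^ (1 / 8 : ℝ) ≤ (2 * d : ℝ) ^ (1 / 8 : ℝ) :=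
    Real.rpow_le_rpow (hop_nonneg _ _) (hop_le a' b') (by norm_num)
  have hd' : (1 : ℝ) ≤ 2 * d := by
    have : (1 : ℝ) ≤ d := by exact_mod_cast hd
    linarith only [this]
  have h0 : (0 : ℝ) < 2 * d := by linarith only [hd']
  calc _ ≤ (2 * d : ℝ) ^ (1 / 8 : ℝ) * (2 * d : ℝ) ^ (1 / 8 : ℝ) :=
        mul_le_mul h1 h2 (Real.rpow_nonneg (hop_nonneg _ _) _) (by positivity)
    _ = (2 * d : ℝ) ^ (1 / 4 : ℝ) := by
        rw [← Real.rpow_add h0]
        norm_num
    _ ≤ (2 * d : ℝ) ^ (1 : ℝ) := Real.rpow_le_rpow_of_exponent_le hd' (by norm_num)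
    _ = 2 * d := Real.rpow_one _

/-- The pointwise inequality behind the criterion. -/
theorem pg_step (hd : 1 ≤ d) {V : Site d → ℝ} {Λ : Finset (Site d)} {E : ℝ} {L : ℕ} {x y : Site d}
    (hx : x ∈ Λ) (hy : y ∈ Λ) (hxy : L + 2 ≤ sd x y)
    (h1 : (RM V (Λ ∩ box x L) E).det ≠ 0) (h2 : (RM V (Λ \ (Λ ∩ box x (L + 1))) E).det ≠ 0) :
    pg Λ E x y V ≤ ENNReal.ofReal (2 * d) *
      ∑ u ∈ (Λ ∩ box x L).filter (fun u => sd x u = L),
        ∑ u' ∈ (Λ ∩ box x (L + 1)) \ (Λ ∩ box x L),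
          ∑ v ∈ (Λ ∩ box x (L + 1)) \ (Λ ∩ box x L),
            ∑ v' ∈ (Λ \ (Λ ∩ box x (L + 1))) ∩ box x (L + 2),
              pg (Λ ∩ box x L) E x u V * pg (Λ \ (Λ ∩ box x (L + 1))) E v' y V *
                pg Λ E u' v V := by
  by_cases hdet : (RM V Λ E).det = 0
  · have : gr V Λ E x y = 0 := by
      by_contra hne
      exact (gr_ne_zero hne).2.2 hdet
    unfold pg
    rw [this, p8_zero]
    exact zero_le
  set W := Λ ∩ box x L with hW
  set W' := Λ ∩ box x (L + 1) with hW'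
  have hWW' : W ⊆ W' := Finset.inter_subset_inter_left (box_mono x (by omega))
  have hxW : x ∈ W := by
    rw [hW, Finset.mem_inter, mem_box, sd_self]; exact ⟨hx, by omega⟩
  have hyW' : y ∈ Λ \ W' := by
    rw [Finset.mem_sdiff, hW', Finset.mem_inter, mem_box]
    exact ⟨hy, fun h => by omega⟩
  have hyW : y ∈ Λ \ W := by
    rw [Finset.mem_sdiff] at *
    exact ⟨hy, fun h => hyW'.2 (hWW' h)⟩
  have g1 : gr V Λ E x y = ∑ u ∈ W.filter (fun u => sd x u = L), ∑ u' ∈ W' \ W,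
      gr V W E x u * hop u u' * gr V Λ E u' y := by
    rw [geo1 Finset.inter_subset_left hdet h1 hxW hyW, ← hW]
    have hz : ∀ u ∈ W, ∀ u' ∈ Λ \ W, hop u u' ≠ 0 → sd x u = L ∧ u' ∈ W' \ W := by
      intro u hu u' hu' hne
      have h3 := sd_of_hop hne
      rw [hW, Finset.mem_inter, mem_box] at hu
      rw [Finset.mem_sdiff, hW, Finset.mem_inter, mem_box] at hu'
      have h4 := sd_triangle x u u'
      have h5 : ¬ sd x u' ≤ L := fun h => hu'.2 ⟨hu'.1, h⟩
      refine ⟨by omega, ?_⟩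
      rw [Finset.mem_sdiff, hW', hW, Finset.mem_inter, mem_box, Finset.mem_inter, mem_box]
      exact ⟨⟨hu'.1, by omega⟩, fun h => h5 h.2⟩
    have s1 : ∀ u ∈ W, ∑ u' ∈ Λ \ W, gr V W E x u * hop u u' * gr V Λ E u' y =
        if sd x u = L then ∑ u' ∈ W' \ W, gr V W E x u * hop u u' * gr V Λ E u' y else 0 := by
      intro u hu
      by_cases hL : sd x u = L
      · rw [if_pos hL]
        symm
        apply Finset.sum_subset
        · exact Finset.sdiff_subset_sdiff Finset.inter_subset_left le_rfl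
        · intro u' hu' hu''
          have : hop u u' = 0 := by
            by_contra hne
            exact hu'' (hz u hu u' hu' hne).2
          rw [this]; ring
      · rw [if_neg hL]
        apply Finset.sum_eq_zero
        intro u' hu'
        have : hop u u' = 0 := by
          by_contra hne
          exact hL (hz u hu u' hu' hne).1
        rw [this]; ring
    rw [Finset.sum_congr rfl s1, Finset.sum_filter]
  have g2 : ∀ u' ∈ W' \ W, gr V Λ E u' y = ∑ v ∈ W' \ W, ∑ v' ∈ (Λ \ W') ∩ box x (L + 2),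
      gr V Λ E u' v * hop v v' * gr V (Λ \ W') E v' y := by
    intro u' hu'
    rw [geo2 Finset.inter_subset_left hdet h2 (Finset.mem_sdiff.1 hu').1 hyW', ← hW']
    have hz : ∀ v ∈ W', ∀ v' ∈ Λ \ W', hop v v' ≠ 0 → v ∈ W' \ W ∧ v' ∈ box x (L + 2) := by
      intro v hv v' hv' hne
      have h3 := sd_of_hop hne
      have hv0 := hv
      rw [hW', Finset.mem_inter, mem_box] at hv
      rw [Finset.mem_sdiff, hW', Finset.mem_inter, mem_box] at hv'
      have h4 := sd_triangle x v v'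
      have h5 : ¬ sd x v' ≤ L + 1 := fun h => hv'.2 ⟨hv'.1, h⟩
      refine ⟨?_, by rw [mem_box]; omega⟩
      rw [Finset.mem_sdiff]
      refine ⟨hv0, fun h => ?_⟩
      rw [hW, Finset.mem_inter, mem_box] at h
      omega
    have s1 : ∀ v ∈ W', ∑ v' ∈ Λ \ W', gr V Λ E u' v * hop v v' * gr V (Λ \ W') E v' y =
        ∑ v' ∈ (Λ \ W') ∩ box x (L + 2), gr V Λ E u' v * hop v v' * gr V (Λ \ W') E v' y := by
      intro v hv
      symm
      apply Finset.sum_subset Finset.inter_subset_left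
      intro v' hv' hv''
      have : hop v v' = 0 := by
        by_contra hne
        exact hv'' (Finset.mem_inter.2 ⟨hv', (hz v hv v' hv' hne).2⟩)
      rw [this]; ring
    rw [Finset.sum_congr rfl s1]
    symm
    apply Finset.sum_subset Finset.sdiff_subset
    intro v hv hv''
    apply Finset.sum_eq_zero
    intro v' hv'
    have : hop v v' = 0 := by
      by_contra hne
      exact hv'' (hz v hv v' (Finset.mem_inter.1 hv').1 hne).1
    rw [this]; ring
  have g3 : gr V Λ E x y = ∑ u ∈ W.filter (fun u => sd x u = L), ∑ u' ∈ W' \ W,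
      ∑ v ∈ W' \ W, ∑ v' ∈ (Λ \ W') ∩ box x (L + 2),
        gr V W E x u * hop u u' * (gr V Λ E u' v * hop v v' * gr V (Λ \ W') E v' y) := by
    rw [g1]
    apply Finset.sum_congr rfl
    intro u _
    apply Finset.sum_congr rfl
    intro u' hu'
    rw [g2 u' hu', Finset.mul_sum]
    apply Finset.sum_congr rfl
    intro v _
    rw [Finset.mul_sum]
  unfold pg
  rw [g3, Finset.mul_sum]
  refine (p8_sum _ _).trans (Finset.sum_le_sum fun u _ => ?_)
  rw [Finset.mul_sum]
  refine (p8_sum _ _).trans (Finset.sum_le_sum fun u' _ => ?_)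
  rw [Finset.mul_sum]
  refine (p8_sum _ _).trans (Finset.sum_le_sum fun v _ => ?_)
  rw [Finset.mul_sum]
  refine (p8_sum _ _).trans (Finset.sum_le_sum fun v' _ => ?_)
  rw [p8_mul, p8_mul, p8_mul, p8_mul]
  calc _ = (p8 (hop u u') * p8 (hop v v')) *
        (p8 (gr V W E x u) * p8 (gr V (Λ \ W') E v' y) * p8 (gr V Λ E u' v)) := by ring
    _ ≤ _ := by
        gcongr
        exact p8_hop_mul hd _ _ _ _

theorem term_bound' (hν : BddDens ν ρ) {Λ A B : Finset (Site d)} (hA : A ⊆ Λ) (hB : B ⊆ Λ)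
    (hAB : Disjoint A B) (E : ℝ) (x u v' y : Site d) {u' v : Site d}
    (hu' : u' ∈ Λ) (hu'A : u' ∉ A) (hu'B : u' ∉ B) (hv : v ∈ Λ) (hvA : v ∉ A) (hvB : v ∉ B) :
    ∫⁻ V, pg A E x u V * pg B E v' y V * pg Λ E u' v V ∂(PL ν Λ) ≤
      (∫⁻ V, pg A E x u V ∂(PL ν A)) * (∫⁻ V, pg B E v' y V ∂(PL ν B)) *
        ENNReal.ofReal (1 + 2 * √(6 * ρ)) := by
  set S : Finset (Site d) := {u', v} with hS
  have hSΛ : S ⊆ Λ := by
    intro z hz
    simp only [hS, Finset.mem_insert, Finset.mem_singleton] at hz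
    rcases hz with rfl | rfl <;> assumption
  have hAS : Disjoint A S := by
    rw [Finset.disjoint_right]
    intro z hz
    simp only [hS, Finset.mem_insert, Finset.mem_singleton] at hz
    rcases hz with rfl | rfl <;> assumption
  have hBS : Disjoint B S := by
    rw [Finset.disjoint_right]
    intro z hz
    simp only [hS, Finset.mem_insert, Finset.mem_singleton] at hz
    rcases hz with rfl | rfl <;> assumption
  have mA := measurable_pg A E x u
  have mB := measurable_pg B E v' y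
  have mC := measurable_pg Λ E u' v
  have mAB : Measurable fun V => pg A E x u V * pg B E v' y V := mA.mul mB
  have mABC : Measurable fun V => pg A E x u V * pg B E v' y V * pg Λ E u' v V := mAB.mul mC
  rw [lintegral_PL _ mABC, lintegral_PL _ mA, lintegral_PL _ mB]
  have e0 : (∫⋯∫⁻_Λ, (fun V => pg A E x u V * pg B E v' y V * pg Λ E u' v V) ∂(fun _ => ν)) 0 =
      (∫⋯∫⁻_(Λ \ S), (∫⋯∫⁻_S, (fun V => pg A E x u V * pg B E v' y V * pg Λ E u' v V)
        ∂(fun _ => ν)) ∂(fun _ => ν)) 0 := by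
    rw [← lmarginal_union _ _ mABC Finset.sdiff_disjoint, Finset.sdiff_union_of_subset hSΛ]
  rw [e0]
  have hfree : Free (fun V => pg A E x u V * pg B E v' y V) S := by
    intro V V' h
    have h1 := (only_pg A E x u).free hAS V V' h
    have h2 := (only_pg B E v' y).free hBS V V' h
    beta_reduce
    rw [h1, h2]
  have e1 : (∫⋯∫⁻_S, (fun V => pg A E x u V * pg B E v' y V * pg Λ E u' v V) ∂(fun _ => ν)) =
      fun V => (pg A E x u V * pg B E v' y V) * (∫⋯∫⁻_S, pg Λ E u' v ∂(fun _ => ν)) V :=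
    marg_mul_left hfree mC
  rw [e1]
  have e2 : (fun V => (pg A E x u V * pg B E v' y V) * (∫⋯∫⁻_S, pg Λ E u' v ∂(fun _ => ν)) V) ≤
      fun V => ENNReal.ofReal (1 + 2 * √(6 * ρ)) * (pg A E x u V * pg B E v' y V) := by
    intro V
    beta_reduce
    rw [mul_comm (ENNReal.ofReal (1 + 2 * √(6 * ρ)))]
    gcongr
    exact marg_p8 hν V Λ E u' v
  refine (lmarginal_mono e2 0).trans ?_
  rw [marg_const_mul _ mAB, marg_mul mA mB (only_pg A E x u) (only_pg B E v' y) hAB]
  · rw [mul_comm]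
  · intro z hz
    rw [Finset.mem_sdiff]
    rcases Finset.mem_union.1 hz with h | h
    · exact ⟨hA h, Finset.disjoint_left.1 hAS h⟩
    · exact ⟨hB h, Finset.disjoint_left.1 hBS h⟩

/-- One step of the criterion, in a set `Λ` which contains the cube of radius `L + 1`. -/
theorem bulk_step (hd : 1 ≤ d) (hν : BddDens ν ρ) {L : ℕ} {ε E : ℝ} (hinit : BulkInit d ν L ε E)
    {Λ : Finset (Site d)} {x y : Site d} (hbox : box x (L + 1) ⊆ Λ) (hy : y ∈ Λ)
    (hxy : L + 2 ≤ sd x y)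
    {F : ℝ≥0∞} (hF : ∀ v' ∈ Λ \ box x (L + 1), sd x v' ≤ L + 2 →
      ∫⁻ V, pg (Λ \ box x (L + 1)) E v' y V ∂(PL ν (Λ \ box x (L + 1))) ≤ F) :
    ∫⁻ V, pg Λ E x y V ∂(PL ν Λ) ≤ ENNReal.ofReal (2 * d) * (((2 * L + 5) ^ d) ^ 4 : ℕ) *
      (ENNReal.ofReal ε * F * ENNReal.ofReal (1 + 2 * √(6 * ρ))) := by
  have hx : x ∈ Λ := hbox (by rw [mem_box, sd_self]; omega)
  have hboxL : box x L ⊆ Λ := (box_mono x (by omega)).trans hbox
  have eW : Λ ∩ box x L = box x L := Finset.inter_eq_right.2 hboxL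
  have eW' : Λ ∩ box x (L + 1) = box x (L + 1) := Finset.inter_eq_right.2 hbox
  set W := box x L with hW
  set W' := box x (L + 1) with hW'
  have hWW' : W ⊆ W' := box_mono x (by omega)
  have hyW' : y ∈ Λ \ W' := by
    rw [Finset.mem_sdiff, hW', mem_box]
    exact ⟨hy, fun h => by omega⟩
  have n1 := PL_det hν W Λ hboxL E
  have n2 := PL_det hν (Λ \ W') Λ Finset.sdiff_subset E
  have hae : ∀ᵐ V ∂(PL ν Λ), pg Λ E x y V ≤ ENNReal.ofReal (2 * d) *
      ∑ u ∈ W.filter (fun u => sd x u = L), ∑ u' ∈ W' \ W, ∑ v ∈ W' \ W,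
        ∑ v' ∈ (Λ \ W') ∩ box x (L + 2),
          pg W E x u V * pg (Λ \ W') E v' y V * pg Λ E u' v V := by
    have n1' : ∀ᵐ V ∂(PL ν Λ), (RM V W E).det ≠ 0 := by
      rw [ae_iff]; simpa using n1
    have n2' : ∀ᵐ V ∂(PL ν Λ), (RM V (Λ \ W') E).det ≠ 0 := by
      rw [ae_iff]; simpa using n2
    filter_upwards [n1', n2'] with V h1 h2
    have h3 := pg_step hd (V := V) (E := E) (L := L) hx hy hxy
    rw [eW, eW'] at h3
    exact h3 h1 h2
  have mt : ∀ u u' v v' : Site d, Measurable fun V =>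
      pg W E x u V * pg (Λ \ W') E v' y V * pg Λ E u' v V := fun u u' v v' =>
    ((measurable_pg _ _ _ _).mul (measurable_pg _ _ _ _)).mul (measurable_pg _ _ _ _)
  refine (lintegral_mono_ae hae).trans ?_
  rw [lintegral_const_mul _ (Finset.measurable_sum _ fun u _ => Finset.measurable_sum _ fun u' _ =>
    Finset.measurable_sum _ fun v _ => Finset.measurable_sum _ fun v' _ => mt u u' v v'),
    mul_assoc]
  gcongr
  rw [lintegral_finsetSum _ fun u _ => Finset.measurable_sum _ fun u' _ =>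
    Finset.measurable_sum _ fun v _ => Finset.measurable_sum _ fun v' _ => mt u u' v v']
  set Cst := ENNReal.ofReal ε * F * ENNReal.ofReal (1 + 2 * √(6 * ρ)) with hCst
  have hcard1 : (W.filter (fun u => sd x u = L)).card ≤ (2 * L + 5) ^ d := by
    have h1 : (W.filter (fun u => sd x u = L)).card ≤ (box x (L + 2)).card := by
      apply Finset.card_le_card
      exact (Finset.filter_subset _ _).trans (box_mono x (by omega))
    rw [card_box] at h1
    exact h1
  have hcard2 : (W' \ W).card ≤ (2 * L + 5) ^ d := by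
    have h1 : (W' \ W).card ≤ (box x (L + 2)).card := by
      apply Finset.card_le_card
      exact (Finset.sdiff_subset).trans (box_mono x (by omega))
    rw [card_box] at h1
    exact h1
  have hcard3 : ((Λ \ W') ∩ box x (L + 2)).card ≤ (2 * L + 5) ^ d := by
    have h1 : ((Λ \ W') ∩ box x (L + 2)).card ≤ (box x (L + 2)).card :=
      Finset.card_le_card Finset.inter_subset_right
    rw [card_box] at h1
    exact h1
  have hb : ∀ u ∈ W.filter (fun u => sd x u = L), ∀ u' ∈ W' \ W, ∀ v ∈ W' \ W,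
      ∀ v' ∈ (Λ \ W') ∩ box x (L + 2),
      ∫⁻ V, pg W E x u V * pg (Λ \ W') E v' y V * pg Λ E u' v V ∂(PL ν Λ) ≤ Cst := by
    intro u hu u' hu' v hv v' hv'
    rw [Finset.mem_filter] at hu
    rw [Finset.mem_sdiff] at hu' hv
    rw [Finset.mem_inter, mem_box] at hv'
    have hdisj : Disjoint W (Λ \ W') := by
      rw [Finset.disjoint_left]
      intro z hz hz'
      exact (Finset.mem_sdiff.1 hz').2 (hWW' hz)
    refine (term_bound' hν (Λ := Λ) (A := W) (B := Λ \ W') hboxL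
      Finset.sdiff_subset hdisj E x u v' y
      (hbox hu'.1) hu'.2 (fun h => (Finset.mem_sdiff.1 h).2 hu'.1)
      (hbox hv.1) hv.2 (fun h => (Finset.mem_sdiff.1 h).2 hv.1)).trans ?_
    rw [hCst]
    gcongr
    · exact hinit x u hu.2
    · exact hF v' hv'.1 hv'.2
  calc _ ≤ ∑ _u ∈ W.filter (fun u => sd x u = L), (((2 * L + 5) ^ d) ^ 3 : ℕ) * Cst := by
        apply Finset.sum_le_sum
        intro u hu
        rw [lintegral_finsetSum _ fun u' _ =>
          Finset.measurable_sum _ fun v _ => Finset.measurable_sum _ fun v' _ => mt u u' v v']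
        calc _ ≤ ∑ _u' ∈ W' \ W, (((2 * L + 5) ^ d) ^ 2 : ℕ) * Cst := by
              apply Finset.sum_le_sum
              intro u' hu'
              rw [lintegral_finsetSum _ fun v _ => Finset.measurable_sum _ fun v' _ => mt u u' v v']
              calc _ ≤ ∑ _v ∈ W' \ W, (((2 * L + 5) ^ d) : ℕ) * Cst := by
                    apply Finset.sum_le_sum
                    intro v hv
                    rw [lintegral_finsetSum _ fun v' _ => mt u u' v v']
                    refine (Finset.sum_le_sum fun v' hv' => hb u hu u' hu' v hv v' hv').trans ?_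
                    rw [Finset.sum_const, nsmul_eq_mul]
                    gcongr
                _ ≤ _ := by
                    rw [Finset.sum_const, nsmul_eq_mul, ← mul_assoc]
                    gcongr
                    rw [pow_two]
                    push_cast
                    gcongr
                    exact_mod_cast hcard2
          _ ≤ _ := by
              rw [Finset.sum_const, nsmul_eq_mul, ← mul_assoc]
              gcongr
              rw [show ((2 * L + 5) ^ d) ^ 3 = (2 * L + 5) ^ d * ((2 * L + 5) ^ d) ^ 2 by ring]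
              push_cast
              gcongr
              exact_mod_cast hcard2
    _ ≤ _ := by
        rw [Finset.sum_const, nsmul_eq_mul, ← mul_assoc]
        gcongr
        rw [show ((2 * L + 5) ^ d) ^ 4 = (2 * L + 5) ^ d * ((2 * L + 5) ^ d) ^ 3 by ring]
        push_cast
        gcongr
        exact_mod_cast hcard1

/-- BLK: the criterion implies exponential decay in the bulk. -/
theorem blk (ret : RetStmt) : BlkStmt := by
  intro d hd
  obtain ⟨C₁, hC₁, hret⟩ := ret d hd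
  refine ⟨12 * d * C₁ + 6, by positivity, ?_⟩
  intro σ hσ E L hcrit
  obtain ⟨ε, hε, hcr, hinit⟩ := hcrit
  have hν := bddDens_gl hσ
  set s : ℝ := 1 + 1 / |σ| with hs
  have hσ' : 0 < |σ| := abs_pos.2 hσ
  have hs1 : 1 ≤ s := by
    rw [hs]
    have : 0 < 1 / |σ| := by positivity
    linarith only [this]
  have hs0 : 0 ≤ s := by linarith
  set CA : ℝ := 1 + 2 * √(6 * (1 / |σ|)) with hCA
  have hsq1 : 1 ≤ √s := Real.one_le_sqrt.2 hs1
  have hsqs : √s ≤ s := by
    rw [Real.sqrt_le_left hs0]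
    nlinarith only [hs1]
  have hCA6 : CA ≤ 6 * √s := by
    have h1 : √(6 * (1 / |σ|)) ≤ √(6 * s) := by
      apply Real.sqrt_le_sqrt
      rw [hs]; linarith only
    have h2 : √(6 * s) = √6 * √s := Real.sqrt_mul (by norm_num) _
    have h3 : √(6:ℝ) ≤ 5 / 2 := by
      rw [Real.sqrt_le_left (by norm_num)]
      norm_num
    rw [hCA]
    nlinarith only [Real.sqrt_nonneg s, hsq1, h1, h2, h3]
  have hCA0 : 0 ≤ CA := by rw [hCA]; positivity
  have hpow : s ^ (1 / 2 : ℝ) = √s := (Real.sqrt_eq_rpow s).symm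
  have key : ∀ (R k : ℕ) (c w y : Site d), sd c w + k * (L + 2) ≤ R → y ∈ box c R →
      k * (L + 2) ≤ sd w y →
      ∫⁻ V, pg (box c R) E w y V ∂(PL (gl σ) (box c R)) ≤ ENNReal.ofReal (CA * Real.exp (-k)) := by
    intro R k
    induction k with
    | zero =>
      intro c w y _ _ _
      refine (PL_p8 hν (box c R) E w y).trans (ENNReal.ofReal_le_ofReal ?_)
      simp [hCA]
    | succ k ih =>
      intro c w y hcw hy hwy
      rw [add_mul, one_mul] at hcw hwy
      have hbox : box w (L + 1) ⊆ box c R := by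
        intro z hz
        rw [mem_box] at hz ⊢
        have := sd_triangle c w z
        omega
      have hwy' : L + 2 ≤ sd w y := by omega
      have hyd : y ∈ box c R \ box w (L + 1) := by
        rw [Finset.mem_sdiff, mem_box (x := w)]
        exact ⟨hy, fun h => by omega⟩
      have hF : ∀ v' ∈ box c R \ box w (L + 1), sd w v' ≤ L + 2 →
          ∫⁻ V, pg (box c R \ box w (L + 1)) E v' y V ∂(PL (gl σ) (box c R \ box w (L + 1))) ≤
            ENNReal.ofReal (C₁ * (1 + 1 / |σ|) ^ (1 / 2 : ℝ) * (2 * L + 5) ^ (2 * d)) *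
              ENNReal.ofReal (CA * Real.exp (-k)) := by
        intro v' hv' hwv'
        apply hret σ hσ E L R c w y v' _ (by omega) hyd hv' hwv'
        intro t ht hwt
        apply ih c t y _ hy
        · have := sd_triangle w t y
          omega
        · have := sd_triangle c w t
          omega
      have h1 := bulk_step hd hν hinit hbox hy hwy' hF
      refine h1.trans ?_
      rw [← hs, hpow, ← hCA, ← ENNReal.ofReal_natCast, ← ENNReal.ofReal_mul (by positivity),
        ← ENNReal.ofReal_mul (by positivity), ← ENNReal.ofReal_mul hε,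
        ← ENNReal.ofReal_mul (by positivity), ← ENNReal.ofReal_mul (by positivity)]
      apply ENNReal.ofReal_le_ofReal
      push_cast
      have e1 : Real.exp (-((k:ℝ) + 1)) = Real.exp (-k) * Real.exp (-1) := by
        rw [← Real.exp_add]; congr 1; ring
      rw [e1]
      have h2 : 12 * d * C₁ * s * (2 * L + 5) ^ (6 * d) * ε ≤ Real.exp (-1) := by
        refine le_trans ?_ hcr
        have : (12 * d * C₁ : ℝ) ≤ 12 * d * C₁ + 6 := by linarith only
        gcongr
      have h3 : 2 * (d:ℝ) * ((2 * L + 5) ^ d) ^ 4 *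
          (ε * (C₁ * √s * (2 * L + 5) ^ (2 * d) * (CA * Real.exp (-k))) * CA) =
          (2 * d * C₁ * (√s * CA) * (2 * L + 5) ^ (6 * d) * ε) * (CA * Real.exp (-k)) := by
        have e2 : ((2 * (L:ℝ) + 5) ^ d) ^ 4 = (2 * L + 5) ^ (4 * d) := by
          rw [← pow_mul, mul_comm d 4]
        have e3 : (2 * (L:ℝ) + 5) ^ (6 * d) = (2 * L + 5) ^ (4 * d) * (2 * L + 5) ^ (2 * d) := by
          rw [← pow_add]; congr 1; ring
        rw [e2, e3]; ring
      rw [h3]
      have h4 : √s * CA ≤ 6 * s := by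
        calc √s * CA ≤ √s * (6 * √s) := mul_le_mul_of_nonneg_left hCA6 (Real.sqrt_nonneg _)
          _ = 6 * (√s * √s) := by ring
          _ = 6 * s := by rw [Real.mul_self_sqrt hs0]
      have h5 : 2 * d * C₁ * (√s * CA) * (2 * L + 5) ^ (6 * d) * ε ≤ Real.exp (-1) := by
        refine le_trans ?_ h2
        have e4 : 12 * d * C₁ * s * (2 * (L:ℝ) + 5) ^ (6 * d) * ε =
            2 * d * C₁ * (6 * s) * (2 * L + 5) ^ (6 * d) * ε := by ring
        rw [e4]
        gcongr
      calc _ ≤ Real.exp (-1) * (CA * Real.exp (-k)) :=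
            mul_le_mul_of_nonneg_right h5 (by positivity)
        _ = _ := by ring
  intro R k c w y h1 h2 h3
  refine (key R k c w y h1 h2 h3).trans (ENNReal.ofReal_le_ofReal ?_)
  apply mul_le_mul_of_nonneg_right _ (Real.exp_pos _).le
  have h6 : CA ≤ 6 * s := hCA6.trans (by linarith only [hsqs])
  have h7 : (0:ℝ) ≤ 12 * d * C₁ * s := by positivity
  linarith only [hsqs, hCA6, h7]

end Pool.Agent.Mob.H33
end
end -- Pool.Agent.Helper33_Mob.Blk

section -- Pool.Agent.Helper64_Mob.Ret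

/-!
Module RET of squad T2: return from the depleted cube to the full cube.
-/

set_option autoImplicit false
set_option linter.unusedSectionVars false

open MeasureTheory ProbabilityTheory Function

open scoped ENNReal BigOperators InnerProductSpace

noncomputable section

namespace Pool.Agent.Mob.H64

open Pool.Agent.Anderson Pool.Agent.Loc Pool.Agent.Helper54.Bal

section gen

variable {d : ℕ} {ν : Measure ℝ} [IsProbabilityMeasure ν] {ρ : ℝ}

theorem marg_pg (hν : BddDens ν ρ) (V : Site d → ℝ) (Λ : Finset (Site d)) (E : ℝ)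
    (x y : Site d) :
    (∫⋯∫⁻_{x, y}, pg Λ E x y ∂(fun _ => ν)) V ≤ 1 + ENNReal.ofReal (2 * √(6 * ρ)) := by
  have h1 : (∫⋯∫⁻_{x, y}, pg Λ E x y ∂(fun _ => ν)) V ≤
      (∫⋯∫⁻_{x, y}, (fun V => (fun _ => (1 : ℝ≥0∞)) V + (fun V => ENNReal.ofReal
        (√|gr V Λ E x y|)) V) ∂(fun _ => ν)) V :=
    lmarginal_mono (fun V => p8_le _) V
  refine h1.trans ?_
  have h2 := marg_add (ν := ν) (s := ({x, y} : Finset (Site d)))
    (f := fun _ : Site d → ℝ => (1 : ℝ≥0∞))
    (g := fun V => ENNReal.ofReal (√|gr V Λ E x y|)) measurable_const V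
  rw [h2]
  have h3 : (∫⋯∫⁻_{x, y}, (fun _ : Site d → ℝ => (1 : ℝ≥0∞)) ∂(fun _ => ν)) =
      fun _ => (1 : ℝ≥0∞) := marg_free fun _ _ _ => rfl
  rw [h3]
  gcongr
  exact marg_sqrt hν V Λ E x y

end gen

/-- the expectation of a product, by decoupling at the two sites of the first factor -/
theorem term {C : ℝ} (hC : ∀ (d : ℕ) (σ : ℝ) (Λ₁ Λ₂ : Finset (Site d)) (E : ℝ)
    (a b c e i j : Site d) (V : Site d → ℝ),
    (∫⋯∫⁻_{i, j}, (fun V => pg Λ₁ E a b V * pg Λ₂ E c e V) ∂(fun _ => gl σ)) V ≤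
      ENNReal.ofReal C * ((∫⋯∫⁻_{i, j}, pg Λ₁ E a b ∂(fun _ => gl σ)) V *
        (∫⋯∫⁻_{i, j}, pg Λ₂ E c e ∂(fun _ => gl σ)) V))
    {d : ℕ} {σ : ℝ} (hσ : σ ≠ 0) (Ω Ω' : Finset (Site d)) (E : ℝ) (a b t y : Site d)
    (ha : a ∈ Ω) (hb : b ∈ Ω) :
    ∫⁻ V, pg Ω' E a b V * pg Ω E t y V ∂(PL (gl σ) Ω) ≤
      ENNReal.ofReal C * (1 + ENNReal.ofReal (2 * √(6 * (1 / |σ|)))) *
        ∫⁻ V, pg Ω E t y V ∂(PL (gl σ) Ω) := by
  set S : Finset (Site d) := {a, b} with hS
  have hSΛ : S ⊆ Ω := by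
    intro z hz
    simp only [hS, Finset.mem_insert, Finset.mem_singleton] at hz
    rcases hz with rfl | rfl <;> assumption
  have mA := measurable_pg Ω' E a b
  have mB := measurable_pg Ω E t y
  have mAB : Measurable fun V => pg Ω' E a b V * pg Ω E t y V := mA.mul mB
  have hun : ∀ f : (Site d → ℝ) → ℝ≥0∞, Measurable f →
      (∫⋯∫⁻_Ω, f ∂(fun _ => gl σ)) 0 =
        (∫⋯∫⁻_(Ω \ S), (∫⋯∫⁻_S, f ∂(fun _ => gl σ)) ∂(fun _ => gl σ)) 0 := by
    intro f hf
    rw [← lmarginal_union _ _ hf Finset.sdiff_disjoint, Finset.sdiff_union_of_subset hSΛ]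
  rw [lintegral_PL _ mAB, lintegral_PL _ mB, hun _ mAB, hun _ mB]
  have e2 : (∫⋯∫⁻_S, (fun V => pg Ω' E a b V * pg Ω E t y V) ∂(fun _ => gl σ)) ≤
      fun V => (ENNReal.ofReal C * (1 + ENNReal.ofReal (2 * √(6 * (1 / |σ|))))) *
        (∫⋯∫⁻_S, pg Ω E t y ∂(fun _ => gl σ)) V := by
    intro V
    refine (hC d σ Ω' Ω E a b t y a b V).trans ?_
    beta_reduce
    rw [mul_assoc]
    gcongr
    exact marg_pg (bddDens_gl hσ) V Ω' E a b
  refine (lmarginal_mono e2 0).trans ?_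
  rw [marg_const_mul _ (mB.lmarginal _)]

theorem pg_step {d : ℕ} {V : Site d → ℝ} {Ω Ω' : Finset (Site d)} {E : ℝ} (hG : GeoStmt)
    (hsub : Ω' ⊆ Ω) (h1 : (RM V Ω E).det ≠ 0) (h2 : (RM V Ω' E).det ≠ 0)
    {v' y : Site d} (hv : v' ∈ Ω') (hy : y ∈ Ω') :
    pg Ω' E v' y V ≤ pg Ω E v' y V +
      ∑ u ∈ Ω', ∑ t ∈ Ω \ Ω', p8 (hop u t) * (pg Ω' E v' u V * pg Ω E t y V) := by
  have h3 := hG d V Ω Ω' E hsub h1 h2 v' hv y hy
  have h4 : gr V Ω' E v' y = gr V Ω E v' y + ∑ u ∈ Ω', ∑ t ∈ Ω \ Ω',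
      -(gr V Ω' E v' u * hop u t * gr V Ω E t y) := by
    rw [h3]
    simp only [Finset.sum_neg_distrib]
    ring
  unfold pg
  rw [h4]
  refine (p8_add _ _).trans ?_
  gcongr
  refine (p8_sum _ _).trans (Finset.sum_le_sum fun u _ => ?_)
  refine (p8_sum _ _).trans (Finset.sum_le_sum fun t _ => ?_)
  rw [p8_neg, p8_mul, p8_mul]
  refine le_of_eq ?_
  ring

theorem p8_hop_le {d : ℕ} (u t : Site d) (hd : 1 ≤ d) : p8 (hop u t) ≤ ENNReal.ofReal (2 * d) := by
  unfold p8
  apply ENNReal.ofReal_le_ofReal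
  have h0 : 0 ≤ hop u t := hop_nonneg u t
  have h1 : hop u t ≤ 2 * d := hop_le u t
  have h2 : (1 : ℝ) ≤ 2 * d := by
    have : (1 : ℝ) ≤ d := by exact_mod_cast hd
    linarith only [this]
  rw [abs_of_nonneg h0]
  calc hop u t ^ (1 / 8 : ℝ) ≤ (2 * d : ℝ) ^ (1 / 8 : ℝ) :=
        Real.rpow_le_rpow h0 h1 (by norm_num)
    _ ≤ (2 * d : ℝ) ^ (1 : ℝ) := Real.rpow_le_rpow_of_exponent_le h2 (by norm_num)
    _ = 2 * d := Real.rpow_one _

theorem ret (hD : DecStmt) (hG : GeoStmt) : RetStmt := by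
  obtain ⟨C, hC0, hC⟩ := hD
  intro d hd
  refine ⟨1 + 2 * d * (C * 6), by positivity, ?_⟩
  intro σ hσ E L R c w y v' F _ hy hv hsd hF
  set Ω := box c R with hΩ
  set Ω' := Ω \ box w (L + 1) with hΩ'
  have hsub : Ω' ⊆ Ω := Finset.sdiff_subset
  have hν := bddDens_gl hσ
  have n1 := PL_det hν Ω Ω le_rfl E
  have n2 := PL_det hν Ω' Ω hsub E
  have hPL : ∫⁻ V, pg Ω' E v' y V ∂(PL (gl σ) Ω') = ∫⁻ V, pg Ω' E v' y V ∂(PL (gl σ) Ω) := by
    rw [lintegral_PL _ (measurable_pg _ _ _ _), lintegral_PL _ (measurable_pg _ _ _ _),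
      marg_subset (measurable_pg _ _ _ _) (only_pg Ω' E v' y) hsub]
  rw [hPL]
  have hae : ∀ᵐ V ∂(PL (gl σ) Ω), pg Ω' E v' y V ≤ pg Ω E v' y V +
      ∑ u ∈ Ω', ∑ t ∈ Ω \ Ω', p8 (hop u t) * (pg Ω' E v' u V * pg Ω E t y V) := by
    have n1' : ∀ᵐ V ∂(PL (gl σ) Ω), (RM V Ω E).det ≠ 0 := by
      rw [ae_iff]; simpa using n1
    have n2' : ∀ᵐ V ∂(PL (gl σ) Ω), (RM V Ω' E).det ≠ 0 := by
      rw [ae_iff]; simpa using n2
    filter_upwards [n1', n2'] with V h1 h2
    exact pg_step hG hsub h1 h2 hv hy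
  refine (lintegral_mono_ae hae).trans ?_
  have mt : ∀ u t : Site d, Measurable fun V : Site d → ℝ =>
      p8 (hop u t) * (pg Ω' E v' u V * pg Ω E t y V) := fun u t =>
    ((measurable_pg _ _ _ _).mul (measurable_pg _ _ _ _)).const_mul _
  rw [lintegral_add_left (measurable_pg _ _ _ _)]
  rw [lintegral_finsetSum _ fun u _ => Finset.measurable_sum _ fun t _ => mt u t]
  have hvΩ : v' ∈ Ω := hsub hv
  set CA : ℝ≥0∞ := 1 + ENNReal.ofReal (2 * √(6 * (1 / |σ|))) with hCA
  set K : ℝ≥0∞ := ENNReal.ofReal (2 * d) * (ENNReal.ofReal C * CA * F) with hK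
  have hterm : ∀ u ∈ Ω', ∀ t ∈ Ω \ Ω', ∫⁻ V, p8 (hop u t) * (pg Ω' E v' u V * pg Ω E t y V)
      ∂(PL (gl σ) Ω) ≤ if u ∈ box w (L + 2) ∧ t ∈ box w (L + 1) then K else 0 := by
    intro u hu t ht
    have mm : Measurable fun V : Site d → ℝ => pg Ω' E v' u V * pg Ω E t y V :=
      (measurable_pg _ _ _ _).mul (measurable_pg _ _ _ _)
    rw [lintegral_const_mul _ mm]
    have htB : t ∈ box w (L + 1) := by
      rw [Finset.mem_sdiff, hΩ', Finset.mem_sdiff, not_and_not_right] at ht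
      exact ht.2 ht.1
    by_cases hz : hop u t = 0
    · rw [hz, p8_zero, zero_mul]
      exact zero_le
    · have h1 := sd_of_hop hz
      have h2 := mem_box.1 htB
      have h3 := sd_triangle w t u
      rw [sd_comm t u] at h3
      have huB : u ∈ box w (L + 2) := by
        rw [mem_box]
        omega
      rw [if_pos ⟨huB, htB⟩, hK]
      refine mul_le_mul' (p8_hop_le u t hd) ?_
      refine (term hC hσ Ω Ω' E v' u t y hvΩ (hsub hu)).trans ?_
      gcongr
      exact hF t (Finset.mem_sdiff.1 ht).1 (by omega)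
  have hsum : ∑ u ∈ Ω', ∫⁻ V, ∑ t ∈ Ω \ Ω', p8 (hop u t) * (pg Ω' E v' u V * pg Ω E t y V)
      ∂(PL (gl σ) Ω) ≤ (((2 * L + 5) ^ d) ^ 2 : ℕ) * K := by
    calc _ ≤ ∑ u ∈ Ω', ∑ t ∈ Ω \ Ω', (if u ∈ box w (L + 2) ∧ t ∈ box w (L + 1) then K else 0) := by
          refine Finset.sum_le_sum fun u hu => ?_
          rw [lintegral_finsetSum _ fun t _ => mt u t]
          exact Finset.sum_le_sum fun t ht => hterm u hu t ht
      _ ≤ ∑ u ∈ Ω' ∩ box w (L + 2), ∑ t ∈ (Ω \ Ω') ∩ box w (L + 1), K := by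
          rw [← Finset.sum_filter_add_sum_filter_not Ω' (fun u => u ∈ box w (L + 2))]
          have h0 : ∑ u ∈ Ω' with ¬ u ∈ box w (L + 2), ∑ t ∈ Ω \ Ω',
              (if u ∈ box w (L + 2) ∧ t ∈ box w (L + 1) then K else 0) = 0 := by
            refine Finset.sum_eq_zero fun u hu => Finset.sum_eq_zero fun t _ => ?_
            rw [if_neg]
            exact fun h => (Finset.mem_filter.1 hu).2 h.1
          rw [h0, add_zero, Finset.filter_mem_eq_inter]
          refine Finset.sum_le_sum fun u _ => ?_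
          rw [← Finset.sum_filter_add_sum_filter_not (Ω \ Ω') (fun t => t ∈ box w (L + 1))]
          have h1 : ∑ t ∈ Ω \ Ω' with ¬ t ∈ box w (L + 1),
              (if u ∈ box w (L + 2) ∧ t ∈ box w (L + 1) then K else 0) = 0 := by
            refine Finset.sum_eq_zero fun t ht => ?_
            rw [if_neg]
            exact fun h => (Finset.mem_filter.1 ht).2 h.2
          rw [h1, add_zero, Finset.filter_mem_eq_inter]
          refine Finset.sum_le_sum fun t _ => ?_
          split_ifs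
          · exact le_rfl
          · exact zero_le
      _ = (((Ω' ∩ box w (L + 2)).card * ((Ω \ Ω') ∩ box w (L + 1)).card : ℕ) : ℝ≥0∞) * K := by
          rw [Finset.sum_const, Finset.sum_const, nsmul_eq_mul, nsmul_eq_mul, ← mul_assoc]
          push_cast
          rfl
      _ ≤ (((2 * L + 5) ^ d) ^ 2 : ℕ) * K := by
          have c1 : (Ω' ∩ box w (L + 2)).card ≤ (2 * L + 5) ^ d := by
            have := Finset.card_le_card (Finset.inter_subset_right : Ω' ∩ box w (L + 2) ⊆ _)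
            rw [card_box] at this
            exact this
          have c2 : ((Ω \ Ω') ∩ box w (L + 1)).card ≤ (2 * L + 5) ^ d := by
            have := Finset.card_le_card (Finset.inter_subset_right.trans
              (box_mono w (by omega : L + 1 ≤ L + 2)) : (Ω \ Ω') ∩ box w (L + 1) ⊆ _)
            rw [card_box] at this
            exact this
          have c3 := Nat.mul_le_mul c1 c2
          rw [← pow_two] at c3
          gcongr
  have hσ' : 0 < |σ| := abs_pos.2 hσ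
  have hCAle : CA ≤ ENNReal.ofReal (6 * (1 + 1 / |σ|) ^ (1 / 2 : ℝ)) := by
    rw [hCA, ← ENNReal.ofReal_one, ← ENNReal.ofReal_add (by norm_num) (by positivity)]
    apply ENNReal.ofReal_le_ofReal
    rw [← Real.sqrt_eq_rpow]
    have h1 : 1 ≤ √(1 + 1 / |σ|) := by
      rw [Real.one_le_sqrt]
      have : 0 < 1 / |σ| := by positivity
      linarith only [this]
    have h2 : √(6 * (1 / |σ|)) ≤ (5 / 2) * √(1 + 1 / |σ|) := by
      rw [Real.sqrt_mul (by norm_num)]
      have h3 : √6 ≤ 5 / 2 := by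
        rw [Real.sqrt_le_left (by norm_num)]
        norm_num
      exact mul_le_mul h3 (Real.sqrt_le_sqrt (by linarith only)) (Real.sqrt_nonneg _) (by norm_num)
    linarith only [h1, h2]
  have hfirst : ∫⁻ V, pg Ω E v' y V ∂(PL (gl σ) Ω) ≤ F := hF v' hvΩ hsd
  refine (add_le_add hfirst hsum).trans ?_
  have hKle : K ≤ ENNReal.ofReal (2 * d * (C * (6 * (1 + 1 / |σ|) ^ (1 / 2 : ℝ)))) * F := by
    calc K = ENNReal.ofReal (2 * d) * (ENNReal.ofReal C * CA * F) := hK
      _ ≤ ENNReal.ofReal (2 * d) * (ENNReal.ofReal C *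
          ENNReal.ofReal (6 * (1 + 1 / |σ|) ^ (1 / 2 : ℝ)) * F) := by gcongr
      _ = _ := by
          rw [ENNReal.ofReal_mul (p := 2 * (d : ℝ)) (by positivity), ENNReal.ofReal_mul (p := C) hC0.le]
          ring
  set X : ℝ := (1 + 1 / |σ|) ^ (1 / 2 : ℝ) with hX
  have hX1 : 1 ≤ X := by
    rw [hX]
    refine Real.one_le_rpow ?_ (by norm_num)
    have : 0 < 1 / |σ| := by positivity
    linarith only [this]
  set M : ℝ := (2 * L + 5) ^ (2 * d) with hM
  have hM1 : 1 ≤ M := by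
    rw [hM]
    refine one_le_pow₀ ?_
    have : (0 : ℝ) ≤ L := Nat.cast_nonneg L
    linarith only
  have hcast : ((((2 * L + 5) ^ d) ^ 2 : ℕ) : ℝ≥0∞) = ENNReal.ofReal M := by
    rw [hM, ← ENNReal.ofReal_natCast]
    congr 1
    push_cast
    rw [← pow_mul, mul_comm d 2]
  calc F + (((2 * L + 5) ^ d) ^ 2 : ℕ) * K
      ≤ F + ENNReal.ofReal M * (ENNReal.ofReal (2 * d * (C * (6 * X))) * F) := by
        rw [hcast]
        gcongr
    _ = ENNReal.ofReal 1 * F + ENNReal.ofReal (M * (2 * d * (C * (6 * X)))) * F := by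
        rw [ENNReal.ofReal_one, one_mul, ← mul_assoc, ← ENNReal.ofReal_mul (by positivity)]
    _ = ENNReal.ofReal (1 + M * (2 * d * (C * (6 * X)))) * F := by
        rw [← add_mul, ← ENNReal.ofReal_add (by norm_num) (by positivity)]
    _ ≤ ENNReal.ofReal ((1 + 2 * d * (C * 6)) * X * M) * F := by
        gcongr
        have h1 : 1 ≤ X * M := one_le_mul_of_one_le_of_one_le hX1 hM1
        nlinarith only [h1]

end Pool.Agent.Mob.H64
end
end -- Pool.Agent.Helper64_Mob.Ret

section -- Pool.Agent.Helper75_Mob.Tbx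

/-!
# TBX: two distant cubes are not simultaneously bad
-/

set_option autoImplicit false
set_option linter.unusedSectionVars false

open MeasureTheory ProbabilityTheory Function

open scoped ENNReal BigOperators

noncomputable section

namespace Pool.Agent.Mob.H75

open Pool.Agent.Anderson Pool.Agent.Loc Pool.Agent.Helper54.Bal

variable {d : ℕ}

section Abstract

variable {α β : Type*} [TopologicalSpace α] [MeasurableSpace α] [BorelSpace α]
  [SecondCountableTopology α] [TopologicalSpace β] [MeasurableSpace β] [BorelSpace β]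
  [SecondCountableTopology β]

theorem exists_root_Icc {q₁ q₂ : ℝ → ℝ} (h₁ : Continuous q₁) (h₂ : Continuous q₂) {a b E : ℝ}
    (hE : E ∈ Set.Icc a b) (hq₁ : 0 ≤ q₁ E) (hq₂ : 0 ≤ q₂ E) :
    0 ≤ q₁ a ∨ (∃ F ∈ Set.Icc a b, q₁ F = 0 ∧ 0 ≤ q₂ F) ∨
      (∃ F ∈ Set.Icc a b, q₂ F = 0 ∧ 0 ≤ q₁ F) := by
  have hab : a ≤ b := hE.1.trans hE.2
  have hc : Continuous (fun F : ℝ => min F b) := continuous_id.min continuous_const
  have key := exists_root (q₁ := fun F => q₁ (min F b)) (q₂ := fun F => q₂ (min F b))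
    (h₁.comp hc) (h₂.comp hc) hE.1 (by rw [min_eq_left hE.2]; exact hq₁)
    (by rw [min_eq_left hE.2]; exact hq₂)
  rcases key with h | ⟨F, f1, f2, f3⟩ | ⟨F, f1, f2, f3⟩
  · left
    rwa [min_eq_left hab] at h
  · exact Or.inr (Or.inl ⟨min F b, ⟨le_min f1 hab, min_le_right _ _⟩, f2, f3⟩)
  · exact Or.inr (Or.inr ⟨min F b, ⟨le_min f1 hab, min_le_right _ _⟩, f2, f3⟩)

theorem measurableSet_exists_I {g₁ : α → ℝ → ℝ} {g₂ : β → ℝ → ℝ}
    (h₁ : Continuous (fun p : α × ℝ => g₁ p.1 p.2))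
    (h₂ : Continuous (fun p : β × ℝ => g₂ p.1 p.2)) {I : Set ℝ} (hI : IsClosed I) :
    MeasurableSet {p : α × β | ∃ E ∈ I, 0 ≤ g₁ p.1 E ∧ 0 ≤ g₂ p.2 E} := by
  have e₁ : Continuous (fun p : (α × β) × ℝ => g₁ p.1.1 p.2) :=
    h₁.comp ((continuous_fst.comp continuous_fst).prodMk continuous_snd)
  have e₂ : Continuous (fun p : (α × β) × ℝ => g₂ p.1.2 p.2) :=
    h₂.comp ((continuous_snd.comp continuous_fst).prodMk continuous_snd)
  have := measurableSet_exists (α := α) (β := β) hI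
    (F := {p | 0 ≤ g₁ p.1.1 p.2} ∩ {p | 0 ≤ g₂ p.1.2 p.2})
    ((isClosed_le continuous_const e₁).inter (isClosed_le continuous_const e₂))
  exact this

/-- the probability that the second function is `≥ 0` at a root of the first one -/
theorem prob_root_I {μ₁ : Measure α} {μ₂ : Measure β} [IsProbabilityMeasure μ₁] [SFinite μ₂]
    {q₁ : α → ℝ → ℝ} {q₂ : β → ℝ → ℝ} {I : Set ℝ} {N : ℕ} {K : ℝ≥0∞}
    (hN : ∀ a, ∃ s : Finset ℝ, s.card ≤ N ∧ ∀ E, q₁ a E = 0 → E ∈ s)
    (hK : ∀ E ∈ I, μ₂ {b | 0 ≤ q₂ b E} ≤ K)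
    (hB : MeasurableSet {p : α × β | ∃ E ∈ I, q₁ p.1 E = 0 ∧ 0 ≤ q₂ p.2 E}) :
    (μ₁.prod μ₂) {p | ∃ E ∈ I, q₁ p.1 E = 0 ∧ 0 ≤ q₂ p.2 E} ≤ N * K := by
  classical
  rw [Measure.prod_apply hB]
  calc ∫⁻ a, μ₂ (Prod.mk a ⁻¹' {p : α × β | ∃ E ∈ I, q₁ p.1 E = 0 ∧ 0 ≤ q₂ p.2 E}) ∂μ₁
      ≤ ∫⁻ _a, (N : ℝ≥0∞) * K ∂μ₁ := by
        apply lintegral_mono
        intro a
        obtain ⟨s, hs1, hs2⟩ := hN a
        have hsub : Prod.mk a ⁻¹' {p : α × β | ∃ E ∈ I, q₁ p.1 E = 0 ∧ 0 ≤ q₂ p.2 E} ⊆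
            ⋃ E ∈ s.filter (fun E => E ∈ I), {b | 0 ≤ q₂ b E} := by
          intro b hb
          obtain ⟨E, e1, e2, e3⟩ := hb
          simp only [Set.mem_iUnion]
          exact ⟨E, Finset.mem_filter.2 ⟨hs2 E e2, e1⟩, e3⟩
        calc μ₂ (Prod.mk a ⁻¹' {p : α × β | ∃ E ∈ I, q₁ p.1 E = 0 ∧ 0 ≤ q₂ p.2 E})
            ≤ μ₂ (⋃ E ∈ s.filter (fun E => E ∈ I), {b | 0 ≤ q₂ b E}) := measure_mono hsub
          _ ≤ ∑ E ∈ s.filter (fun E => E ∈ I), μ₂ {b | 0 ≤ q₂ b E} :=
              measure_biUnion_finset_le _ _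
          _ ≤ ∑ _E ∈ s.filter (fun E => E ∈ I), K :=
              Finset.sum_le_sum fun E hE => hK E (Finset.mem_filter.1 hE).2
          _ = ((s.filter (fun E => E ∈ I)).card : ℝ≥0∞) * K := by
              rw [Finset.sum_const, nsmul_eq_mul]
          _ ≤ (N : ℝ≥0∞) * K := by
              gcongr
              exact (Finset.card_filter_le _ _).trans hs1
    _ = (N : ℝ≥0∞) * K := by rw [lintegral_const, measure_univ, mul_one]

/-- the same with the factors exchanged -/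
theorem prob_root_I' {μ₁ : Measure α} {μ₂ : Measure β} [IsProbabilityMeasure μ₂] [SFinite μ₁]
    {q₁ : α → ℝ → ℝ} {q₂ : β → ℝ → ℝ} {I : Set ℝ} {N : ℕ} {K : ℝ≥0∞}
    (hN : ∀ b, ∃ s : Finset ℝ, s.card ≤ N ∧ ∀ E, q₂ b E = 0 → E ∈ s)
    (hK : ∀ E ∈ I, μ₁ {a | 0 ≤ q₁ a E} ≤ K)
    (hB : MeasurableSet {p : α × β | ∃ E ∈ I, q₂ p.2 E = 0 ∧ 0 ≤ q₁ p.1 E}) :
    (μ₁.prod μ₂) {p | ∃ E ∈ I, q₂ p.2 E = 0 ∧ 0 ≤ q₁ p.1 E} ≤ N * K := by
  have h := prob_root_I (μ₁ := μ₂) (μ₂ := μ₁) (q₁ := q₂) (q₂ := q₁) (I := I) hN hK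
    (hB.preimage measurable_swap)
  rw [← Measure.prod_swap, Measure.map_apply measurable_swap hB]
  exact h

/-- the probability that both functions are `≥ 0` at some common point -/
theorem prob_both_I {μ₁ : Measure α} {μ₂ : Measure β} [IsProbabilityMeasure μ₁]
    [IsProbabilityMeasure μ₂] {q₁ : α → ℝ → ℝ} {q₂ : β → ℝ → ℝ}
    (hq₁ : Continuous (fun p : α × ℝ => q₁ p.1 p.2))
    (hq₂ : Continuous (fun p : β × ℝ => q₂ p.1 p.2))
    {a b : ℝ} (hab : a ≤ b) {N₁ N₂ : ℕ} {K : ℝ≥0∞}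
    (hN₁ : ∀ x, ∃ s : Finset ℝ, s.card ≤ N₁ ∧ ∀ E, q₁ x E = 0 → E ∈ s)
    (hN₂ : ∀ y, ∃ s : Finset ℝ, s.card ≤ N₂ ∧ ∀ E, q₂ y E = 0 → E ∈ s)
    (hK₁ : ∀ E ∈ Set.Icc a b, μ₁ {x | 0 ≤ q₁ x E} ≤ K)
    (hK₂ : ∀ E ∈ Set.Icc a b, μ₂ {y | 0 ≤ q₂ y E} ≤ K) :
    (μ₁.prod μ₂) {p | ∃ E ∈ Set.Icc a b, 0 ≤ q₁ p.1 E ∧ 0 ≤ q₂ p.2 E} ≤
      ((1 + N₁ + N₂ : ℕ) : ℝ≥0∞) * K := by
  have hI : IsClosed (Set.Icc a b) := isClosed_Icc
  have g₁ : Continuous (fun p : (α × β) × ℝ => q₁ p.1.1 p.2) :=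
    hq₁.comp ((continuous_fst.comp continuous_fst).prodMk continuous_snd)
  have g₂ : Continuous (fun p : (α × β) × ℝ => q₂ p.1.2 p.2) :=
    hq₂.comp ((continuous_snd.comp continuous_fst).prodMk continuous_snd)
  have hB₁ : MeasurableSet {p : α × β | ∃ E ∈ Set.Icc a b, q₁ p.1 E = 0 ∧ 0 ≤ q₂ p.2 E} := by
    have := measurableSet_exists (α := α) (β := β) hI
      (F := {p | q₁ p.1.1 p.2 = 0} ∩ {p | 0 ≤ q₂ p.1.2 p.2})
      ((isClosed_eq g₁ continuous_const).inter (isClosed_le continuous_const g₂))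
    exact this
  have hB₂ : MeasurableSet {p : α × β | ∃ E ∈ Set.Icc a b, q₂ p.2 E = 0 ∧ 0 ≤ q₁ p.1 E} := by
    have := measurableSet_exists (α := α) (β := β) hI
      (F := {p | q₂ p.1.2 p.2 = 0} ∩ {p | 0 ≤ q₁ p.1.1 p.2})
      ((isClosed_eq g₂ continuous_const).inter (isClosed_le continuous_const g₁))
    exact this
  have hsub : {p : α × β | ∃ E ∈ Set.Icc a b, 0 ≤ q₁ p.1 E ∧ 0 ≤ q₂ p.2 E} ⊆
      ({x | 0 ≤ q₁ x a} ×ˢ Set.univ) ∪
      ({p | ∃ E ∈ Set.Icc a b, q₁ p.1 E = 0 ∧ 0 ≤ q₂ p.2 E} ∪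
       {p | ∃ E ∈ Set.Icc a b, q₂ p.2 E = 0 ∧ 0 ≤ q₁ p.1 E}) := by
    rintro ⟨x, y⟩ ⟨E, e1, e2, e3⟩
    have c₁ : Continuous (q₁ x) := hq₁.comp (Continuous.prodMk continuous_const continuous_id)
    have c₂ : Continuous (q₂ y) := hq₂.comp (Continuous.prodMk continuous_const continuous_id)
    rcases exists_root_Icc c₁ c₂ e1 e2 e3 with h | h | h
    · exact Or.inl ⟨h, trivial⟩
    · exact Or.inr (Or.inl h)
    · exact Or.inr (Or.inr h)
  have k1 : (μ₁.prod μ₂) ({x | 0 ≤ q₁ x a} ×ˢ Set.univ) ≤ K := by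
    rw [Measure.prod_prod, measure_univ, mul_one]
    exact hK₁ a ⟨le_rfl, hab⟩
  have k3 := prob_root_I (μ₁ := μ₁) (μ₂ := μ₂) hN₁ hK₂ hB₁
  have k4 := prob_root_I' (μ₁ := μ₁) (μ₂ := μ₂) hN₂ hK₁ hB₂
  calc (μ₁.prod μ₂) {p | ∃ E ∈ Set.Icc a b, 0 ≤ q₁ p.1 E ∧ 0 ≤ q₂ p.2 E}
      ≤ _ := measure_mono hsub
    _ ≤ K + (N₁ * K + N₂ * K) := by
        refine (measure_union_le _ _).trans (add_le_add k1 ?_)
        exact (measure_union_le _ _).trans (add_le_add k3 k4)
    _ = ((1 + N₁ + N₂ : ℕ) : ℝ≥0∞) * K := by push_cast; ring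

end Abstract

/-! ### probability -/

variable {ν : Measure ℝ} [IsProbabilityMeasure ν]

theorem prob_pair_I {Λ₁ Λ₂ : Finset (Site d)}
    (hdis : Disjoint Λ₁ Λ₂) {x u y v : Site d} (hx : x ∈ Λ₁) (hu : u ∈ Λ₁) (hy : y ∈ Λ₂)
    (hv : v ∈ Λ₂) {t a b : ℝ} (ht : 0 < t) (hab : a ≤ b) {K : ℝ≥0∞}
    (hK₁ : ∀ E ∈ Set.Icc a b, PP d ν {V | ¬ Good V Λ₁ E x u t} ≤ K)
    (hK₂ : ∀ E ∈ Set.Icc a b, PP d ν {V | ¬ Good V Λ₂ E y v t} ≤ K) :
    PP d ν {V | ∃ E ∈ Set.Icc a b, ¬ Good V Λ₁ E x u t ∧ ¬ Good V Λ₂ E y v t} ≤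
      ((1 + 2 * Λ₁.card + 2 * Λ₂.card : ℕ) : ℝ≥0∞) * K := by
  have hfm := measurable_restr (d := d) Λ₁
  have hgm := measurable_restr (d := d) Λ₂
  have hind : iIndepFun (fun (z : Site d) (V : Site d → ℝ) => V z) (PP d ν) := by
    unfold PP
    exact iIndepFun_infinitePi (X := fun _ r => r) (fun _ => measurable_id)
  have hfg := hind.indepFun_finset Λ₁ Λ₂ hdis (fun z => measurable_pi_apply z)
  have hmap := (indepFun_iff_map_prod_eq_prod_map_map hfm.aemeasurable hgm.aemeasurable).1 hfg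
  have i₁ : IsProbabilityMeasure ((PP d ν).map (fun (V : Site d → ℝ) (z : Λ₁) => V z)) :=
    Measure.isProbabilityMeasure_map hfm.aemeasurable
  have i₂ : IsProbabilityMeasure ((PP d ν).map (fun (V : Site d → ℝ) (z : Λ₂) => V z)) :=
    Measure.isProbabilityMeasure_map hgm.aemeasurable
  have k₁ : ∀ E ∈ Set.Icc a b,
      ((PP d ν).map (fun (V : Site d → ℝ) (z : Λ₁) => V z))
        {c | 0 ≤ qf Λ₁ ⟨x, hx⟩ ⟨u, hu⟩ t c E} ≤ K := by
    intro E hE
    rw [Measure.map_apply hfm (isClosed_qf _ _ t E).measurableSet]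
    refine (measure_mono ?_).trans (hK₁ E hE)
    intro V hV hg
    exact absurd ((good_iff hx hu ht).1 hg) (not_lt.2 hV)
  have k₂ : ∀ E ∈ Set.Icc a b,
      ((PP d ν).map (fun (V : Site d → ℝ) (z : Λ₂) => V z))
        {c | 0 ≤ qf Λ₂ ⟨y, hy⟩ ⟨v, hv⟩ t c E} ≤ K := by
    intro E hE
    rw [Measure.map_apply hgm (isClosed_qf _ _ t E).measurableSet]
    refine (measure_mono ?_).trans (hK₂ E hE)
    intro V hV hg
    exact absurd ((good_iff hy hv ht).1 hg) (not_lt.2 hV)
  have hmain := prob_both_I (q₁ := qf Λ₁ ⟨x, hx⟩ ⟨u, hu⟩ t) (q₂ := qf Λ₂ ⟨y, hy⟩ ⟨v, hv⟩ t)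
    (continuous_qf _ _ t) (continuous_qf _ _ t) hab
    (exists_roots ⟨x, hx⟩ ⟨u, hu⟩ ht.ne') (exists_roots ⟨y, hy⟩ ⟨v, hv⟩ ht.ne') k₁ k₂
  have hms := measurableSet_exists_I (continuous_qf (Λ := Λ₁) ⟨x, hx⟩ ⟨u, hu⟩ t)
    (continuous_qf (Λ := Λ₂) ⟨y, hy⟩ ⟨v, hv⟩ t) (isClosed_Icc (a := a) (b := b))
  rw [← hmap, Measure.map_apply (hfm.prodMk hgm) hms] at hmain
  refine (measure_mono ?_).trans hmain
  rintro V ⟨E, e1, e2, e3⟩
  refine ⟨E, e1, ?_, ?_⟩
  · by_contra hc
    exact e2 ((good_iff hx hu ht).2 (not_le.1 hc))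
  · by_contra hc
    exact e3 ((good_iff hy hv ht).2 (not_le.1 hc))

/-- the bad event at scale `L` -/
def badI (d : ℕ) (I : Set ℝ) (μ : ℝ) (L : ℕ) : Set (Site d → ℝ) :=
  {V | ∃ x ∈ box (0 : Site d) (L ^ 2), ∃ y ∈ box (0 : Site d) (L ^ 2),
    2 * L < sd x y ∧ ∃ E ∈ I, ¬ FGood V L x E μ ∧ ¬ FGood V L y E μ}

theorem good_congr {V V' : Site d → ℝ} {Λ : Finset (Site d)} (h : ∀ x ∈ Λ, V x = V' x)
    (E : ℝ) (x y : Site d) (t : ℝ) : Good V Λ E x y t ↔ Good V' Λ E x y t := by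
  unfold Good
  rw [gr_congr h, RM_congr h]

theorem prob_badI {a b C μ : ℝ} (hab : a ≤ b) (h : BulkDecay d ν (Set.Icc a b) C μ) (L : ℕ) :
    PP d ν (badI d (Set.Icc a b) μ L) ≤ ENNReal.ofReal
      (5 * 2 ^ (5 * d) * |C| * ((L + 1 : ℕ) ^ (7 * d) * Real.exp (-μ * L))) := by
  classical
  set K : ℝ≥0∞ := ENNReal.ofReal (C * Real.exp (-μ * L)) with hK
  set A : Site d → Site d → Site d → Site d → Set (Site d → ℝ) := fun x y u v =>
    {V | (2 * L < sd x y ∧ sd x u = L ∧ sd y v = L) ∧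
      ∃ E ∈ Set.Icc a b, ¬ Good V (box x L) E x u (Real.exp (-μ * L)) ∧
        ¬ Good V (box y L) E y v (Real.exp (-μ * L))} with hA
  have hsub : badI d (Set.Icc a b) μ L ⊆
      ⋃ x ∈ box (0 : Site d) (L ^ 2), ⋃ y ∈ box (0 : Site d) (L ^ 2),
        ⋃ u ∈ box x L, ⋃ v ∈ box y L, A x y u v := by
    rintro V ⟨x, hx, y, hy, hxy, E, hE, hb1, hb2⟩
    unfold FGood at hb1 hb2
    push Not at hb1 hb2
    obtain ⟨u, hu', hu''⟩ := hb1
    obtain ⟨v, hv', hv''⟩ := hb2
    simp only [Set.mem_iUnion, exists_prop]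
    exact ⟨x, hx, y, hy, u, mem_box.2 hu'.le, v, mem_box.2 hv'.le, ⟨hxy, hu', hv'⟩, E, hE, hu'',
      hv''⟩
  have hloc : ∀ (x u : Site d) (E : ℝ), sd x u = L → E ∈ Set.Icc a b →
      PP d ν {V | ¬ Good V (box x L) E x u (Real.exp (-μ * L))} ≤ K := by
    intro x u E hu hE
    refine (PP_le_PL (Λ := box x L) ?_).trans (h x u L E hE hu)
    intro V V' hVV
    exact not_congr (good_congr hVV E x u _)
  have hAb : ∀ x y u v, PP d ν (A x y u v) ≤ ((1 + 4 * (2 * L + 1) ^ d : ℕ) : ℝ≥0∞) * K := by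
    intro x y u v
    by_cases hc : (2 * L < sd x y ∧ sd x u = L ∧ sd y v = L)
    · obtain ⟨hxy, hu', hv'⟩ := hc
      have hx1 : x ∈ box x L := mem_box.2 (by rw [sd_self]; omega)
      have hy1 : y ∈ box y L := mem_box.2 (by rw [sd_self]; omega)
      have hdis : Disjoint (box x L) (box y L) := by
        rw [Finset.disjoint_left]
        intro z hz1 hz2
        have z1 := mem_box.1 hz1
        have z2 := mem_box.1 hz2
        have z3 := sd_triangle x z y
        rw [sd_comm z y] at z3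
        omega
      have := prob_pair_I hdis hx1 (mem_box.2 hu'.le) hy1 (mem_box.2 hv'.le)
        (Real.exp_pos (-μ * L)) hab (fun E hE => hloc x u E hu' hE)
        (fun E hE => hloc y v E hv' hE)
      refine (measure_mono ?_).trans (this.trans ?_)
      · intro V hV
        exact hV.2
      · rw [card_box, card_box]
        refine mul_le_mul' (Nat.cast_le.2 ?_) le_rfl
        omega
    · have : A x y u v = ∅ := by
        ext V
        simp only [hA, Set.mem_ofPred_eq, Set.mem_empty_iff_false, iff_false]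
        intro h'
        exact hc h'.1
      rw [this, measure_empty]
      exact bot_le
  have e1 : PP d ν (badI d (Set.Icc a b) μ L) ≤ (((2 * L ^ 2 + 1) ^ d : ℕ) : ℝ≥0∞) *
      (((2 * L ^ 2 + 1) ^ d : ℕ) * (((2 * L + 1) ^ d : ℕ) * (((2 * L + 1) ^ d : ℕ) *
        (((1 + 4 * (2 * L + 1) ^ d : ℕ) : ℝ≥0∞) * K)))) := by
    refine (measure_mono hsub).trans ?_
    refine (measure_biUnion_finset_le _ _).trans ?_
    refine (Finset.sum_le_card_nsmul _ _ _ fun x _ => ?_).trans_eq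
      (by rw [card_box, nsmul_eq_mul])
    refine (measure_biUnion_finset_le _ _).trans ?_
    refine (Finset.sum_le_card_nsmul _ _ _ fun y _ => ?_).trans_eq
      (by rw [card_box, nsmul_eq_mul])
    refine (measure_biUnion_finset_le _ _).trans ?_
    refine (Finset.sum_le_card_nsmul _ _ _ fun u _ => ?_).trans_eq
      (by rw [card_box, nsmul_eq_mul])
    refine (measure_biUnion_finset_le _ _).trans ?_
    exact (Finset.sum_le_card_nsmul _ _ _ fun v _ => hAb x y u v).trans_eq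
      (by rw [card_box, nsmul_eq_mul])
  refine e1.trans ?_
  have hK' : K ≤ ENNReal.ofReal (|C| * Real.exp (-μ * L)) := by
    apply ENNReal.ofReal_le_ofReal
    exact mul_le_mul_of_nonneg_right (le_abs_self C) (Real.exp_pos _).le
  have e2 : (((2 * L ^ 2 + 1) ^ d : ℕ) : ℝ≥0∞) *
      (((2 * L ^ 2 + 1) ^ d : ℕ) * (((2 * L + 1) ^ d : ℕ) * (((2 * L + 1) ^ d : ℕ) *
        (((1 + 4 * (2 * L + 1) ^ d : ℕ) : ℝ≥0∞) * K)))) ≤
      ((5 * 2 ^ (5 * d) * (L + 1) ^ (7 * d) : ℕ) : ℝ≥0∞) *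
        ENNReal.ofReal (|C| * Real.exp (-μ * L)) := by
    have hnat : (2 * L ^ 2 + 1) ^ d * ((2 * L ^ 2 + 1) ^ d *
        ((2 * L + 1) ^ d * ((2 * L + 1) ^ d * (1 + 4 * (2 * L + 1) ^ d)))) ≤
        5 * 2 ^ (5 * d) * (L + 1) ^ (7 * d) := by
      have n2 : (2 * L ^ 2 + 1) ^ d ≤ 2 ^ d * (L + 1) ^ (2 * d) := by
        have h1 : 2 * L ^ 2 + 1 ≤ 2 * (L + 1) ^ 2 := by
          have : (L + 1) ^ 2 = L ^ 2 + 2 * L + 1 := by ring
          omega
        rw [pow_mul, ← mul_pow]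
        exact Nat.pow_le_pow_left h1 d
      have n3 : (2 * L + 1) ^ d ≤ 2 ^ d * (L + 1) ^ d := by
        rw [← mul_pow]
        exact Nat.pow_le_pow_left (by omega) d
      have n4 : 1 + 4 * (2 * L + 1) ^ d ≤ 5 * (2 ^ d * (L + 1) ^ d) := by
        have : 1 ≤ (2 * L + 1) ^ d := Nat.one_le_pow _ _ (by omega)
        omega
      calc _ ≤ (2 ^ d * (L + 1) ^ (2 * d)) * ((2 ^ d * (L + 1) ^ (2 * d)) *
          ((2 ^ d * (L + 1) ^ d) * ((2 ^ d * (L + 1) ^ d) * (5 * (2 ^ d * (L + 1) ^ d))))) := by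
            gcongr
        _ = _ := by ring
    calc _ = (((2 * L ^ 2 + 1) ^ d * ((2 * L ^ 2 + 1) ^ d *
        ((2 * L + 1) ^ d * ((2 * L + 1) ^ d * (1 + 4 * (2 * L + 1) ^ d)))) : ℕ) : ℝ≥0∞) * K := by
          push_cast; ring
      _ ≤ _ := by gcongr
  refine e2.trans (le_of_eq ?_)
  rw [← ENNReal.ofReal_natCast, ← ENNReal.ofReal_mul (by positivity)]
  congr 1
  push_cast
  ring

theorem tbx : TbxStmt := by
  intro d ν _ a b C μ _ hμ h
  rcases lt_or_ge b a with hab | hab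
  · refine Filter.Eventually.of_forall fun V => ⟨0, ?_⟩
    intro L _ x _ y _ _ E hE
    exact absurd (hE.1.trans hE.2) (not_le.2 hab)
  have hsum : Summable (fun L : ℕ =>
      5 * 2 ^ (5 * d) * |C| * ((L + 1 : ℕ) ^ (7 * d) * Real.exp (-μ * L))) := by
    apply Summable.mul_left
    have h1 := (summable_nat_add_iff 1).2 (Real.summable_pow_mul_exp_neg_nat_mul (7 * d) hμ)
    have h2 := h1.mul_left (Real.exp μ)
    refine h2.congr fun L => ?_
    have : Real.exp (-μ * L) = Real.exp μ * Real.exp (-μ * ((L + 1 : ℕ) : ℝ)) := by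
      rw [← Real.exp_add]
      congr 1
      push_cast
      ring
    rw [this]
    ring
  have hfin : (∑' L, PP d ν (badI d (Set.Icc a b) μ L)) ≠ ∞ := by
    refine ne_top_of_le_ne_top ?_ (ENNReal.tsum_le_tsum fun L => prob_badI hab h L)
    rw [← ENNReal.ofReal_tsum_of_nonneg (fun L => by positivity) hsum]
    exact ENNReal.ofReal_ne_top
  filter_upwards [ae_eventually_notMem hfin] with V hV
  obtain ⟨L₀, hL₀⟩ := Filter.eventually_atTop.1 hV
  refine ⟨L₀, ?_⟩
  intro L hL x hx y hy hxy E hE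
  have hnot := hL₀ L hL
  by_contra hcon
  push Not at hcon
  exact hnot ⟨x, hx, y, hy, hxy, E, hE, hcon.1, hcon.2⟩

end Pool.Agent.Mob.H75
end
end -- Pool.Agent.Helper75_Mob.Tbx

section -- Pool.Agent.Helper85_Mob.Aff

/-!
# AFF: reverse Hölder inequality for quotients of affine functions
-/

set_option autoImplicit false
set_option linter.unusedSectionVars false

open MeasureTheory ProbabilityTheory Function

open scoped ENNReal BigOperators

noncomputable section

namespace Pool.Agent.Mob.H85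

open Pool.Agent.Anderson Pool.Agent.Loc Pool.Agent.Helper54.Bal Pool.Agent.Mob

theorem gl_one : gl 1 = γ1 := by
  unfold gl
  simp

theorem bdd1 : BddDens γ1 1 := by
  have h := bddDens_gl (σ := 1) one_ne_zero
  rw [gl_one] at h
  simpa using h

/-- the small ball estimate for a normalised affine function -/
theorem ball {a b s : ℝ} (hab : |a| + |b| = 1) (hs : 0 < s) :
    γ1 {t | |a + b * t| ≤ s} ≤ ENNReal.ofReal (8 * s) := by
  by_cases h8 : 1 / 8 ≤ s
  · refine prob_le_one.trans ?_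
    rw [← ENNReal.ofReal_one]
    apply ENNReal.ofReal_le_ofReal
    linarith only [h8]
  push Not at h8
  by_cases hb0 : b = 0
  · have h1 : |a| = 1 := by rw [hb0, abs_zero, add_zero] at hab; exact hab
    have h2 : {t : ℝ | |a + b * t| ≤ s} = ∅ := by
      ext t
      simp only [Set.mem_ofPred_eq, Set.mem_empty_iff_false, iff_false, not_le]
      rw [hb0, zero_mul, add_zero, h1]
      linarith only [hs, h8]
    rw [h2, measure_empty]
    exact zero_le
  have hb : 0 < |b| := abs_pos.2 hb0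
  have hsub : {t : ℝ | |a + b * t| ≤ s} ⊆ Set.Icc (-(a / b) - s / |b|) (-(a / b) + s / |b|) := by
    intro t ht
    rw [Set.mem_ofPred_eq] at ht
    have h1 : a + b * t = b * (t + a / b) := by field_simp; ring
    rw [h1, abs_mul] at ht
    have h2 : |t + a / b| ≤ s / |b| := by
      rw [le_div_iff₀ hb, mul_comm]
      exact ht
    have h3 := abs_le.1 h2
    constructor <;> linarith only [h3]
  by_cases hb4 : 1 / 4 ≤ |b|
  · refine (measure_mono hsub).trans ((bdd1.2 _ _).trans ?_)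
    apply ENNReal.ofReal_le_ofReal
    have h1 : s / |b| ≤ 4 * s := by
      rw [div_le_iff₀ hb]
      nlinarith only [hs, hb4]
    linarith only [h1]
  push Not at hb4
  have hm : MeasurableSet {t : ℝ | |a + b * t| ≤ s} := by
    apply measurableSet_le
    · fun_prop
    · exact measurable_const
  rw [gaussianReal_apply _ one_ne_zero]
  have hpt : ∀ t ∈ {t : ℝ | |a + b * t| ≤ s}, gaussianPDF 0 1 t ≤
      ENNReal.ofReal (128 * b ^ 2 / 25) := by
    intro t ht
    rw [Set.mem_ofPred_eq] at ht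
    have h1 : 5 / 8 ≤ |b * t| := by
      have h2 : |a| ≤ |a + b * t| + |b * t| := by
        have h3 := abs_sub (a + b * t) (b * t)
        have h4 : a + b * t - b * t = a := by ring
        rw [h4] at h3
        exact h3
      linarith only [hab, h8, hb4, ht, h2]
    have ht2 : 25 / 64 ≤ b ^ 2 * t ^ 2 := by
      have h2 : (5 / 8 : ℝ) ^ 2 ≤ |b * t| ^ 2 := by
        apply pow_le_pow_left₀ (by norm_num) h1
      rw [sq_abs, mul_pow] at h2
      linarith only [h2]
    unfold gaussianPDF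
    apply ENNReal.ofReal_le_ofReal
    unfold gaussianPDFReal
    have e1 : Real.exp (-(t - 0) ^ 2 / (2 * ((1 : NNReal) : ℝ))) ≤ 128 * b ^ 2 / 25 := by
      have e3 : -(t - 0) ^ 2 / (2 * ((1 : NNReal) : ℝ)) = -(t ^ 2 / 2) := by
        rw [sub_zero, NNReal.coe_one, mul_one, neg_div]
      rw [e3, Real.exp_neg]
      have e4 : t ^ 2 / 2 ≤ Real.exp (t ^ 2 / 2) := by
        have := Real.add_one_le_exp (t ^ 2 / 2)
        linarith only [hs, h8, this]
      have ht0 : 0 < t ^ 2 := by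
        by_contra hcon
        have : t ^ 2 = 0 := le_antisymm (not_lt.1 hcon) (sq_nonneg t)
        rw [this, mul_zero] at ht2
        norm_num at ht2
      have e5 : (Real.exp (t ^ 2 / 2))⁻¹ ≤ (t ^ 2 / 2)⁻¹ :=
        inv_anti₀ (by positivity) e4
      refine e5.trans ?_
      rw [inv_le_iff_one_le_mul₀ (by positivity)]
      nlinarith only [ht2]
    have e2 : (√(2 * Real.pi * ((1 : NNReal) : ℝ)))⁻¹ ≤ 1 := by
      apply inv_le_one_of_one_le₀
      rw [Real.one_le_sqrt, NNReal.coe_one]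
      have := Real.pi_gt_three
      linarith only [hs, h8, this]
    calc _ ≤ 1 * (128 * b ^ 2 / 25) := mul_le_mul e2 e1 (Real.exp_pos _).le zero_le_one
      _ = _ := one_mul _
  calc ∫⁻ t in {t : ℝ | |a + b * t| ≤ s}, gaussianPDF 0 1 t
      ≤ ∫⁻ _t in {t : ℝ | |a + b * t| ≤ s}, ENNReal.ofReal (128 * b ^ 2 / 25) :=
        setLIntegral_mono measurable_const hpt
    _ ≤ ENNReal.ofReal (128 * b ^ 2 / 25) * ENNReal.ofReal (2 * s / |b|) := by
        rw [setLIntegral_const]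
        apply mul_le_mul_right
        refine (measure_mono hsub).trans ?_
        rw [Real.volume_Icc]
        apply ENNReal.ofReal_le_ofReal
        apply le_of_eq
        ring
    _ ≤ _ := by
        rw [← ENNReal.ofReal_mul (by positivity)]
        apply ENNReal.ofReal_le_ofReal
        have h1 : 128 * b ^ 2 / 25 * (2 * s / |b|) = 256 / 25 * |b| * s := by
          rw [← sq_abs b]
          field_simp
          ring
        rw [h1]
        nlinarith only [hs, h8, hb4]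

theorem p8_pow4 (t : ℝ) : (p8 t ^ 2) ^ 2 = ENNReal.ofReal (√|t|) := by
  unfold p8
  rw [← pow_mul, ← ENNReal.ofReal_pow (by positivity)]
  congr 1
  rw [← Real.rpow_natCast, ← Real.rpow_mul (abs_nonneg _), Real.sqrt_eq_rpow]
  norm_num

theorem mul_le_sq_add_sq (x y : ℝ≥0∞) : x * y ≤ x ^ 2 + y ^ 2 := by
  rcases le_total x y with h | h
  · calc x * y ≤ y * y := mul_le_mul_left h y
      _ = y ^ 2 := (sq y).symm
      _ ≤ _ := le_add_self
  · calc x * y ≤ x * x := mul_le_mul_right h x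
      _ = x ^ 2 := (sq x).symm
      _ ≤ _ := le_self_add

/-- first moment -/
def M0 : ℝ := ∫ t, (1 + |t|) ^ 1 ∂γ1

theorem int_sqrtP {a b : ℝ} (hab : |a| + |b| = 1) :
    ∫⁻ t, ENNReal.ofReal (√|a + b * t|) ∂γ1 ≤ ENNReal.ofReal M0 := by
  unfold M0
  rw [ofReal_integral_eq_lintegral_ofReal (integrable_poly_gauss 1)
    (Filter.Eventually.of_forall fun t => by positivity)]
  apply lintegral_mono
  intro t
  apply ENNReal.ofReal_le_ofReal
  have h1 : |a + b * t| ≤ 1 + |t| := by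
    have h2 := abs_add_le a (b * t)
    rw [abs_mul] at h2
    have ha : |a| ≤ 1 := by have := abs_nonneg b; linarith
    have hb : |b| ≤ 1 := by have := abs_nonneg a; linarith
    have := abs_nonneg t
    nlinarith only [h2, ha, hb, this]
  rw [pow_one]
  have h3 : 1 ≤ 1 + |t| := by have := abs_nonneg t; linarith
  calc √|a + b * t| ≤ √(1 + |t|) := Real.sqrt_le_sqrt h1
    _ ≤ √((1 + |t|) ^ 2) := by
        apply Real.sqrt_le_sqrt
        nlinarith
    _ = 1 + |t| := Real.sqrt_sq (by positivity)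

theorem int_sqrtQ {a b : ℝ} (hab : |a| + |b| = 1) :
    ∫⁻ t, ENNReal.ofReal (√|(a + b * t)⁻¹|) ∂γ1 ≤ ENNReal.ofReal 9 := by
  have hm : Measurable fun t : ℝ => (a + b * t)⁻¹ := by fun_prop
  have h := weak_sqrt (m := γ1) hm (B := Set.univ) (c := 8) (by norm_num) ?_ (a := 1) one_pos
  · rw [Measure.restrict_univ, measure_univ, mul_one,
      ← ENNReal.ofReal_add (by norm_num) (by norm_num)] at h
    refine h.trans (ENNReal.ofReal_le_ofReal ?_)
    norm_num
  · intro τ hτ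
    have h1 := ball hab (s := 1 / τ) (by positivity)
    have h2 : (8 : ℝ) / τ = 8 * (1 / τ) := by ring
    rw [h2]
    refine (measure_mono ?_).trans h1
    intro t ht
    rw [Set.mem_ofPred_eq, abs_inv] at ht
    rw [Set.mem_ofPred_eq]
    have hpos : 0 < |a + b * t| := by
      by_contra hcon
      have h0 : |a + b * t| = 0 := le_antisymm (not_lt.1 hcon) (abs_nonneg _)
      rw [h0, inv_zero] at ht
      linarith
    rw [lt_inv_comm₀ hτ hpos] at ht
    rw [one_div]
    exact ht.le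

theorem M0_nonneg : 0 ≤ M0 := by
  unfold M0
  apply integral_nonneg
  intro t
  positivity

theorem upper {a b c e : ℝ} (hab : |a| + |b| = 1) (hce : |c| + |e| = 1) :
    ∫⁻ t, p8 ((a + b * t) / (c + e * t)) ^ 2 ∂γ1 ≤ ENNReal.ofReal (M0 + 9) := by
  have h1 : ∀ t : ℝ, p8 ((a + b * t) / (c + e * t)) ^ 2 ≤
      ENNReal.ofReal (√|a + b * t|) + ENNReal.ofReal (√|(c + e * t)⁻¹|) := by
    intro t
    rw [div_eq_mul_inv, p8_mul, mul_pow, ← p8_pow4, ← p8_pow4]
    exact mul_le_sq_add_sq _ _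
  refine (lintegral_mono h1).trans ?_
  rw [lintegral_add_left (by fun_prop), ENNReal.ofReal_add M0_nonneg (by norm_num)]
  exact add_le_add (int_sqrtP hab) (int_sqrtQ hce)

theorem lower {a b c e : ℝ} (hab : |a| + |b| = 1) (hce : |c| + |e| = 1) :
    p8 (1 / 160) * ENNReal.ofReal (1 / 2) ≤ ∫⁻ t, p8 ((a + b * t) / (c + e * t)) ∂γ1 := by
  set S : Set ℝ := {t | 1 / 32 < |a + b * t|} ∩ ({t | |t| ≤ 4} ∩ {t | 1 / 64 < |c + e * t|}) with hS
  have m1 : MeasurableSet {t : ℝ | 1 / 32 < |a + b * t|} :=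
    measurableSet_lt measurable_const (by fun_prop)
  have m2 : MeasurableSet {t : ℝ | |t| ≤ 4} := measurableSet_le (by fun_prop) measurable_const
  have m3 : MeasurableSet {t : ℝ | 1 / 64 < |c + e * t|} :=
    measurableSet_lt measurable_const (by fun_prop)
  have mS : MeasurableSet S := m1.inter (m2.inter m3)
  have hcompl : γ1 Sᶜ ≤ ENNReal.ofReal (1 / 2) := by
    have hsub : Sᶜ ⊆ {t : ℝ | |a + b * t| ≤ 1 / 32} ∪
        ({t : ℝ | 4 < |t|} ∪ {t : ℝ | |c + e * t| ≤ 1 / 64}) := by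
      intro t ht
      rw [hS, Set.compl_inter, Set.compl_inter] at ht
      rcases ht with h | h | h
      · left
        rw [Set.mem_compl_iff, Set.mem_ofPred_eq, not_lt] at h
        exact h
      · right; left
        rw [Set.mem_compl_iff, Set.mem_ofPred_eq, not_le] at h
        exact h
      · right; right
        rw [Set.mem_compl_iff, Set.mem_ofPred_eq, not_lt] at h
        exact h
    have b1 := ball hab (s := 1 / 32) (by norm_num)
    have b2 := gauss_tail (t := 4) (by norm_num)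
    have b3 := ball hce (s := 1 / 64) (by norm_num)
    have hexp : 2 * Real.exp (-4 ^ 2 / 2) ≤ 1 / 8 := by
      have h1 : (-4 ^ 2 / 2 : ℝ) = -8 := by norm_num
      rw [h1, Real.exp_neg]
      have h2 := Real.quadratic_le_exp_of_nonneg (x := 8) (by norm_num)
      have h3 : (Real.exp 8)⁻¹ ≤ (41 : ℝ)⁻¹ := by
        apply inv_anti₀ (by norm_num)
        linarith only [h2]
      have h4 : (41 : ℝ)⁻¹ ≤ 1 / 16 := by norm_num
      linarith
    calc γ1 Sᶜ ≤ _ := measure_mono hsub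
      _ ≤ γ1 {t : ℝ | |a + b * t| ≤ 1 / 32} + (γ1 {t : ℝ | 4 < |t|} +
          γ1 {t : ℝ | |c + e * t| ≤ 1 / 64}) :=
          (measure_union_le _ _).trans (add_le_add le_rfl (measure_union_le _ _))
      _ ≤ ENNReal.ofReal (8 * (1 / 32)) + (ENNReal.ofReal (1 / 8) +
          ENNReal.ofReal (8 * (1 / 64))) :=
          add_le_add b1 (add_le_add (b2.trans (ENNReal.ofReal_le_ofReal hexp)) b3)
      _ = _ := by
          rw [← ENNReal.ofReal_add (by norm_num) (by norm_num),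
            ← ENNReal.ofReal_add (by norm_num) (by norm_num)]
          norm_num
  have hSge : ENNReal.ofReal (1 / 2) ≤ γ1 S := by
    have h1 : (1 : ℝ≥0∞) = γ1 S + γ1 Sᶜ := by
      rw [measure_add_measure_compl mS, measure_univ]
    have h2 : (1 : ℝ≥0∞) ≤ γ1 S + ENNReal.ofReal (1 / 2) := by
      rw [h1]
      exact add_le_add le_rfl hcompl
    have h3 : (1 : ℝ≥0∞) = ENNReal.ofReal (1 / 2) + ENNReal.ofReal (1 / 2) := by
      rw [← ENNReal.ofReal_add (by norm_num) (by norm_num), ← ENNReal.ofReal_one]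
      congr 1
      norm_num
    rw [h3] at h2
    exact (ENNReal.add_le_add_iff_right ENNReal.ofReal_ne_top).1 h2
  have hpt : ∀ t ∈ S, p8 (1 / 160) ≤ p8 ((a + b * t) / (c + e * t)) := by
    intro t ht
    obtain ⟨h1, h2, h3⟩ := ht
    rw [Set.mem_ofPred_eq] at h1 h2 h3
    apply p8_mono
    rw [abs_div (a + b * t)]
    have h4 : |c + e * t| ≤ 5 := by
      have h5 := abs_add_le c (e * t)
      rw [abs_mul] at h5
      have hc : |c| ≤ 1 := by have := abs_nonneg e; linarith only [hce, this]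
      have he : |e| ≤ 1 := by have := abs_nonneg c; linarith only [hce, this]
      have := abs_nonneg t
      have := abs_nonneg e
      nlinarith only [hce, h2, h5, hc, he]
    have h5 : 0 < |c + e * t| := by linarith only [h3]
    rw [abs_of_pos (by norm_num : (0 : ℝ) < 1 / 160), le_div_iff₀ h5]
    linarith only [h1, h4]
  calc p8 (1 / 160) * ENNReal.ofReal (1 / 2) ≤ p8 (1 / 160) * γ1 S := mul_le_mul_right hSge _
    _ = ∫⁻ _t in S, p8 (1 / 160) ∂γ1 := by rw [setLIntegral_const]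
    _ ≤ ∫⁻ t in S, p8 ((a + b * t) / (c + e * t)) ∂γ1 :=
        setLIntegral_mono' mS hpt
    _ ≤ _ := setLIntegral_le_lintegral _ _

theorem aff_norm : ∃ C : ℝ, 0 < C ∧ ∀ a b c e : ℝ, |a| + |b| = 1 → |c| + |e| = 1 →
    ∫⁻ t, p8 ((a + b * t) / (c + e * t)) ^ 2 ∂γ1 ≤
      ENNReal.ofReal C * (∫⁻ t, p8 ((a + b * t) / (c + e * t)) ∂γ1) ^ 2 := by
  set κ : ℝ := (|(1 / 160 : ℝ)| ^ (1 / 8 : ℝ)) * (1 / 2) with hκ
  have hκ0 : 0 < κ := by
    rw [hκ]
    have : (0 : ℝ) < |(1 / 160 : ℝ)| := by norm_num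
    positivity
  have hM := M0_nonneg
  refine ⟨(M0 + 9) / κ ^ 2, by positivity, fun a b c e hab hce => ?_⟩
  have hlow := lower hab hce
  have h1 : p8 (1 / 160) * ENNReal.ofReal (1 / 2) = ENNReal.ofReal κ := by
    rw [hκ]
    unfold p8
    rw [← ENNReal.ofReal_mul (by positivity)]
  rw [h1] at hlow
  calc _ ≤ ENNReal.ofReal (M0 + 9) := upper hab hce
    _ = ENNReal.ofReal ((M0 + 9) / κ ^ 2) * (ENNReal.ofReal κ) ^ 2 := by
        rw [← ENNReal.ofReal_pow hκ0.le, ← ENNReal.ofReal_mul (by positivity)]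
        congr 1
        field_simp
    _ ≤ _ := by
        apply mul_le_mul_right
        exact pow_le_pow_left₀ (zero_le) hlow 2

theorem aff : AffStmt := by
  obtain ⟨C, hC, h⟩ := aff_norm
  refine ⟨C, hC, fun a b c e => ?_⟩
  by_cases hab : |a| + |b| = 0
  · have ha : a = 0 := by
      have := abs_nonneg a; have := abs_nonneg b
      exact abs_eq_zero.1 (by linarith)
    have hb : b = 0 := by
      have := abs_nonneg a; have := abs_nonneg b
      exact abs_eq_zero.1 (by linarith)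
    subst ha hb
    simp [p8_zero]
  by_cases hce : |c| + |e| = 0
  · have hc : c = 0 := by
      have := abs_nonneg c; have := abs_nonneg e
      exact abs_eq_zero.1 (by linarith)
    have he : e = 0 := by
      have := abs_nonneg c; have := abs_nonneg e
      exact abs_eq_zero.1 (by linarith)
    subst hc he
    simp [p8_zero]
  set N : ℝ := |a| + |b| with hN
  set K : ℝ := |c| + |e| with hK
  have hN0 : 0 < N := lt_of_le_of_ne (by positivity) (Ne.symm hab)
  have hK0 : 0 < K := lt_of_le_of_ne (by positivity) (Ne.symm hce)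
  have h1 : |a / N| + |b / N| = 1 := by
    rw [abs_div, abs_div, abs_of_pos hN0, ← add_div, ← hN, div_self hN0.ne']
  have h2 : |c / K| + |e / K| = 1 := by
    rw [abs_div, abs_div, abs_of_pos hK0, ← add_div, ← hK, div_self hK0.ne']
  have h3 := h _ _ _ _ h1 h2
  have h4 : ∀ t : ℝ, p8 ((a + b * t) / (c + e * t)) =
      p8 (N / K) * p8 ((a / N + b / N * t) / (c / K + e / K * t)) := by
    intro t
    rw [← p8_mul]
    congr 1
    have e1 : a / N + b / N * t = (a + b * t) / N := by ring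
    have e2 : c / K + e / K * t = (c + e * t) / K := by ring
    rw [e1, e2]
    by_cases h0 : c + e * t = 0
    · rw [h0]; simp
    · field_simp
  have hm : Measurable fun t : ℝ => p8 ((a / N + b / N * t) / (c / K + e / K * t)) :=
    measurable_p8.comp (by fun_prop)
  simp_rw [h4, mul_pow]
  rw [lintegral_const_mul _ (hm.pow_const 2), lintegral_const_mul _ hm, mul_pow]
  calc _ ≤ p8 (N / K) ^ 2 * _ := mul_le_mul_right h3 _
    _ = _ := by ring

end Pool.Agent.Mob.H85
end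
end -- Pool.Agent.Helper85_Mob.Aff

section -- Pool.Agent.Helper94_Mob.Ana

/-! # Metal-insulator transport transition, module ANA: one good annulus -/

set_option autoImplicit false
set_option linter.unusedSectionVars false

open MeasureTheory ProbabilityTheory Function

open scoped ENNReal BigOperators InnerProductSpace

noncomputable section

namespace Pool.Agent.Mob.H94

open Pool.Agent.Anderson Pool.Agent.Loc Pool.Agent.Helper54.Bal Pool.Agent.Mob

variable {d : ℕ}

/-- the geometric resolvent identity with uniform bounds -/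
theorem geo_bound {V : Site d → ℝ} {Λ A : Finset (Site d)} {E : ℝ} (hA : A ⊆ Λ)
    (h : (RM V Λ E).det ≠ 0) (hA' : (RM V A E).det ≠ 0) {x y : Site d} (hx : x ∈ A)
    (hy : y ∈ Λ \ A) {a b : ℝ} (ha : 0 ≤ a) (hb : 0 ≤ b)
    (hab : ∀ u ∈ A, ∀ u' ∈ Λ \ A, hop u u' ≠ 0 → |gr V A E x u| ≤ a ∧ |gr V Λ E u' y| ≤ b) :
    |gr V Λ E x y| ≤ a * b * (2 * d * Λ.card) := by
  rw [geo1 hA h hA' hx hy]
  have h1 : ∀ u ∈ A, ∀ u' ∈ Λ \ A, |gr V A E x u * hop u u' * gr V Λ E u' y| ≤
      a * b * hop u u' := by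
    intro u hu u' hu'
    by_cases hh : hop u u' = 0
    · rw [hh]
      simp
    · obtain ⟨h2, h3⟩ := hab u hu u' hu' hh
      rw [abs_mul, abs_mul, abs_of_nonneg (hop_nonneg u u')]
      have h4 := hop_nonneg u u'
      calc |gr V A E x u| * hop u u' * |gr V Λ E u' y| ≤ a * hop u u' * b := by gcongr
        _ = a * b * hop u u' := by ring
  calc |∑ u ∈ A, ∑ u' ∈ Λ \ A, gr V A E x u * hop u u' * gr V Λ E u' y|
      ≤ ∑ u ∈ A, |∑ u' ∈ Λ \ A, gr V A E x u * hop u u' * gr V Λ E u' y| :=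
        Finset.abs_sum_le_sum_abs _ _
    _ ≤ ∑ u ∈ A, ∑ u' ∈ Λ \ A, |gr V A E x u * hop u u' * gr V Λ E u' y| :=
        Finset.sum_le_sum fun u _ => Finset.abs_sum_le_sum_abs _ _
    _ ≤ ∑ u ∈ A, ∑ u' ∈ Λ \ A, a * b * hop u u' :=
        Finset.sum_le_sum fun u hu => Finset.sum_le_sum fun u' hu' => h1 u hu u' hu'
    _ = ∑ u ∈ A, a * b * ∑ u' ∈ Λ \ A, hop u u' := by
        apply Finset.sum_congr rfl
        intro u _
        rw [Finset.mul_sum]
    _ ≤ ∑ _u ∈ A, a * b * (2 * d) := by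
        apply Finset.sum_le_sum
        intro u _
        exact mul_le_mul_of_nonneg_left (sum_hop_le u _) (mul_nonneg ha hb)
    _ = a * b * (2 * d * A.card) := by
        rw [Finset.sum_const, nsmul_eq_mul]
        ring
    _ ≤ _ := by
        have h5 : (A.card : ℝ) ≤ Λ.card := by exact_mod_cast Finset.card_le_card hA
        have h6 : (0 : ℝ) ≤ 2 * d := by positivity
        exact mul_le_mul_of_nonneg_left (mul_le_mul_of_nonneg_left h5 h6) (mul_nonneg ha hb)

/-- the cell of a site on the sphere -/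
theorem exists_cell {x v : Site d} {ℓ i : ℕ} (hℓ : 1 ≤ ℓ) (h : sd x v = 10 * i * ℓ + 1) :
    ∃ c ∈ cells x ℓ i, v ∈ box c ℓ := by
  have hℓ' : (0 : ℤ) < ℓ := by exact_mod_cast hℓ
  have h1 : ∀ j, |x j - v j| ≤ 10 * i * ℓ + 1 := by
    intro j
    have := sd_le_iff.1 (le_refl (sd x v)) j
    rw [h] at this
    exact_mod_cast this
  -- the coordinates of the cell
  let k : Site d := fun j => (v j - x j) / (ℓ : ℤ)
  have hk1 : ∀ j, (ℓ : ℤ) * k j ≤ v j - x j := fun j => Int.mul_ediv_self_le hℓ'.ne'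
  have hk2 : ∀ j, v j - x j < (ℓ : ℤ) * k j + ℓ := fun j => by
    have := Int.lt_mul_ediv_self_add (x := v j - x j) hℓ'
    exact this
  refine ⟨fun j => x j + ℓ * k j, ?_, ?_⟩
  · unfold cells
    rw [Finset.mem_image]
    refine ⟨k, ?_, rfl⟩
    rw [Finset.mem_filter, mem_box]
    constructor
    · rw [sd_le_iff]
      intro j
      rw [Pi.zero_apply, zero_sub, abs_neg, abs_le]
      obtain ⟨h2, h3⟩ := abs_le.1 (h1 j)
      have h4 := hk1 j
      have h5 := hk2 j
      push_cast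
      constructor
      · by_contra hc
        push Not at hc
        have h6 : k j ≤ -(10 * i + 1) - 1 := by omega
        have h7 : (ℓ : ℤ) * k j ≤ ℓ * (-(10 * i + 1) - 1) := mul_le_mul_of_nonneg_left h6 hℓ'.le
        nlinarith only [hℓ, h3, h5, h7]
      · by_contra hc
        push Not at hc
        have h6 : 10 * (i : ℤ) + 2 ≤ k j := by omega
        have h7 : (ℓ : ℤ) * (10 * i + 2) ≤ ℓ * k j := mul_le_mul_of_nonneg_left h6 hℓ'.le
        nlinarith only [hℓ, h2, h4, h7]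
    · -- a coordinate where the distance is attained
      by_contra hc
      push Not at hc
      have h2 : ∀ j, |k j| ≤ 10 * (i : ℤ) - 1 := by
        intro j
        have h3 : sd 0 k ≤ 10 * i - 1 := by omega
        have h4 := sd_le_iff.1 h3 j
        rw [Pi.zero_apply, zero_sub, abs_neg] at h4
        have h5 : ((10 * i - 1 : ℕ) : ℤ) = 10 * (i : ℤ) - 1 := by omega
        rw [h5] at h4
        exact h4
      have h3 : sd x v ≤ 10 * i * ℓ := by
        rw [sd_le_iff]
        intro j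
        obtain ⟨h4, h5⟩ := abs_le.1 (h2 j)
        have h6 := hk1 j
        have h7 := hk2 j
        have h8 : (ℓ : ℤ) * (-(10 * (i : ℤ) - 1)) ≤ ℓ * k j := mul_le_mul_of_nonneg_left h4 hℓ'.le
        have h9 : (ℓ : ℤ) * k j ≤ ℓ * (10 * (i : ℤ) - 1) := mul_le_mul_of_nonneg_left h5 hℓ'.le
        rw [abs_le]
        push_cast
        constructor <;> nlinarith
      omega
  · rw [mem_box, sd_le_iff]
    intro j
    have h4 := hk1 j
    have h5 := hk2 j
    rw [abs_le]
    constructor <;> linarith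

/-- the centres of the cells are not far -/
theorem sd_cell {x c : Site d} {ℓ i : ℕ} (hc : c ∈ cells x ℓ i) :
    sd x c ≤ ℓ * (10 * i + 1) := by
  unfold cells at hc
  rw [Finset.mem_image] at hc
  obtain ⟨k, hk, rfl⟩ := hc
  rw [Finset.mem_filter, mem_box, sd_le_iff] at hk
  rw [sd_le_iff]
  intro j
  have h1 := hk.1 j
  rw [Pi.zero_apply, zero_sub, abs_neg] at h1
  have h2 : x j - (x j + (ℓ : ℤ) * k j) = -((ℓ : ℤ) * k j) := by ring
  rw [h2, abs_neg, abs_mul, Nat.abs_cast]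
  push_cast at h1 ⊢
  exact mul_le_mul_of_nonneg_left h1 (by positivity)

/-- ANA -/
theorem ana : AnaStmt := by
  intro d V E A τ m ℓ i x u hℓ hi him hA hτ hxu hdet hdeti hτi hτL hcell
  obtain ⟨L, hL⟩ : ∃ L, L = 10 * (m + 1) * ℓ := ⟨_, rfl⟩
  rw [← hL] at hxu hdet hτL ⊢
  have hiL : 10 * i * ℓ + 4 * ℓ < L := by
    rw [hL]
    have h1 : 10 * i * ℓ ≤ 10 * m * ℓ := by
      have := Nat.mul_le_mul_right ℓ (Nat.mul_le_mul_left 10 him)
      exact this
    have h2 : 10 * (m + 1) * ℓ = 10 * m * ℓ + 10 * ℓ := by ring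
    rw [h2]
    omega
  have hcard : ((box x L).card : ℝ) = (20 * (m + 1) * ℓ + 1) ^ d := by
    rw [card_box, hL]
    push_cast
    congr 1
    ring
  have hnn : (0 : ℝ) ≤ 2 * d * (box x L).card := by positivity
  have hsub : box x (10 * i * ℓ) ⊆ box x L := box_mono x (by omega)
  have hxA : x ∈ box x (10 * i * ℓ) := by
    rw [mem_box, sd_self]
    omega
  have huA : u ∈ box x L \ box x (10 * i * ℓ) := by
    rw [Finset.mem_sdiff, mem_box, mem_box]
    omega
  have key : |gr V (box x L) E x u| ≤ τ * (A * τ * (2 * d * (box x L).card)) *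
      (2 * d * (box x L).card) := by
    apply geo_bound hsub hdet hdeti hxA huA hτ (mul_nonneg (mul_nonneg hA hτ) hnn)
    intro v hv v' hv' hh
    refine ⟨hτi v, ?_⟩
    rw [mem_box] at hv
    rw [Finset.mem_sdiff, mem_box, mem_box] at hv'
    have h1 := sd_of_hop hh
    have h2 := sd_triangle x v v'
    have h3 : sd x v' = 10 * i * ℓ + 1 := by omega
    obtain ⟨c, hc, hvc⟩ := exists_cell hℓ h3
    obtain ⟨g1, g2⟩ := hcell c hc
    rw [mem_box] at hvc
    have h4 := sd_cell hc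
    have h5 : ℓ * (10 * i + 1) = 10 * i * ℓ + ℓ := by ring
    have hBsub : box c (3 * ℓ) ⊆ box x L := by
      intro w hw
      rw [mem_box] at hw ⊢
      have := sd_triangle x c w
      omega
    apply geo_bound hBsub hdet g1
    · rw [mem_box]
      omega
    · rw [Finset.mem_sdiff, mem_box, mem_box]
      refine ⟨by omega, fun h => ?_⟩
      have := sd_triangle x c u
      omega
    · exact hA
    · exact hτ
    · intro w hw w' hw' hhw
      refine ⟨?_, hτL w'⟩
      rw [Finset.mem_sdiff, mem_box, mem_box] at hw'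
      have h6 := sd_of_hop hhw
      have h7 := sd_triangle c w w'
      have h8 := sd_triangle c v' w
      apply g2 v' (by rw [mem_box]; exact hvc) w hw
      omega
  refine key.trans (le_of_eq ?_)
  rw [hcard]
  ring

end Pool.Agent.Mob.H94
end
end -- Pool.Agent.Helper94_Mob.Ana

section -- Pool.Agent.Helper94_Mob.Anb

/-! # Metal-insulator transport transition, module ANB: independence of the annuli -/

set_option autoImplicit false
set_option linter.unusedSectionVars false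

open MeasureTheory ProbabilityTheory Function

open scoped ENNReal BigOperators InnerProductSpace

noncomputable section

namespace Pool.Agent.Mob.H94

open Pool.Agent.Anderson Pool.Agent.Loc Pool.Agent.Helper54.Bal Pool.Agent.Mob

variable {d : ℕ}

theorem cellGood_congr {V V' : Site d → ℝ} {c : Site d} {ℓ : ℕ} {A E : ℝ}
    (h : ∀ x ∈ box c (3 * ℓ), V x = V' x) : CellGood V c ℓ A E ↔ CellGood V' c ℓ A E := by
  unfold CellGood
  rw [RM_congr h]
  simp only [gr_congr h]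

theorem measurable_cellGood (c : Site d) (ℓ : ℕ) (A E : ℝ) :
    MeasurableSet {V : Site d → ℝ | CellGood V c ℓ A E} := by
  have h : {V : Site d → ℝ | CellGood V c ℓ A E} =
      {V | (RM V (box c (3 * ℓ)) E).det ≠ 0} ∩
        ⋂ x ∈ box c ℓ, ⋂ y ∈ box c (3 * ℓ), {V | ℓ ≤ sd x y → |gr V (box c (3 * ℓ)) E x y| ≤ A} := by
    ext V
    simp only [CellGood, Set.mem_ofPred_eq, Set.mem_inter_iff, Set.mem_iInter]
  rw [h]
  apply MeasurableSet.inter
  · exact (measurableSet_eq_fun (continuous_det _ E).measurable measurable_const).compl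
  · apply Finset.measurableSet_biInter
    intro x _
    apply Finset.measurableSet_biInter
    intro y _
    by_cases hxy : ℓ ≤ sd x y
    · simp only [hxy, true_imp_iff]
      exact measurableSet_le (measurable_gr _ E x y).abs measurable_const
    · simp only [hxy, false_imp_iff]
      exact MeasurableSet.univ

/-- the annulus is bad -/
def badA (x : Site d) (ℓ i : ℕ) (A E : ℝ) : Set (Site d → ℝ) :=
  {V | ∃ c ∈ cells x ℓ i, ¬ CellGood V c ℓ A E}

theorem measurable_badA (x : Site d) (ℓ i : ℕ) (A E : ℝ) : MeasurableSet (badA x ℓ i A E) := by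
  have h : badA x ℓ i A E = ⋃ c ∈ cells x ℓ i, {V : Site d → ℝ | CellGood V c ℓ A E}ᶜ := by
    ext V
    simp only [badA, Set.mem_ofPred_eq, Set.mem_iUnion, Set.mem_compl_iff, exists_prop]
  rw [h]
  apply Finset.measurableSet_biUnion
  intro c _
  exact (measurable_cellGood c ℓ A E).compl

/-- the shell which contains the cells -/
def shell (x : Site d) (ℓ i : ℕ) : Finset (Site d) :=
  box x (10 * i * ℓ + 4 * ℓ) \ box x (10 * i * ℓ - 3 * ℓ - 1)

theorem le_sd_cell {x c : Site d} {ℓ i : ℕ} (hℓ : 1 ≤ ℓ) (hi : 1 ≤ i) (hc : c ∈ cells x ℓ i) :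
    10 * i * ℓ ≤ sd x c := by
  unfold cells at hc
  rw [Finset.mem_image] at hc
  obtain ⟨k, hk, rfl⟩ := hc
  rw [Finset.mem_filter] at hk
  have hd : NeZero d := by
    constructor
    rintro rfl
    have h1 : sd (0 : Site 0) k = 0 := by
      unfold sd
      simp
    rw [h1] at hk
    omega
  obtain ⟨j, hj⟩ := exists_sd_eq (0 : Site d) k
  rw [Pi.zero_apply, zero_sub, abs_neg] at hj
  have h1 := sd_le_iff.1 (le_refl (sd x (fun j => x j + (ℓ : ℤ) * k j))) j
  have h2 : x j - (x j + (ℓ : ℤ) * k j) = -((ℓ : ℤ) * k j) := by ring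
  rw [h2, abs_neg, abs_mul, Nat.abs_cast, ← hj] at h1
  have h3 : ℓ * sd 0 k ≤ sd x (fun j => x j + (ℓ : ℤ) * k j) := by exact_mod_cast h1
  calc 10 * i * ℓ = ℓ * (10 * i) := by ring
    _ ≤ ℓ * sd 0 k := Nat.mul_le_mul_left _ hk.2
    _ ≤ _ := h3

theorem cell_sub_shell {x c : Site d} {ℓ i : ℕ} (hℓ : 1 ≤ ℓ) (hi : 1 ≤ i)
    (hc : c ∈ cells x ℓ i) : box c (3 * ℓ) ⊆ shell x ℓ i := by
  intro v hv
  have h1 := le_sd_cell hℓ hi hc
  have h2 := sd_cell hc
  have h3 : ℓ * (10 * i + 1) = 10 * i * ℓ + ℓ := by ring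
  rw [mem_box] at hv
  have h4 := sd_triangle x c v
  have h5 := sd_triangle x v c
  rw [sd_comm v c] at h5
  have h6 : 10 * ℓ ≤ 10 * i * ℓ := Nat.mul_le_mul_right ℓ (by omega)
  unfold shell
  rw [Finset.mem_sdiff, mem_box, mem_box]
  omega

theorem only_badA {x : Site d} {ℓ i : ℕ} (hℓ : 1 ≤ ℓ) (hi : 1 ≤ i) (A E : ℝ) :
    Only ((badA x ℓ i A E).indicator 1) (shell x ℓ i) := by
  apply only_indicator
  intro V V' h
  unfold badA
  simp only [Set.mem_ofPred_eq]
  apply exists_congr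
  intro c
  apply and_congr_right
  intro hc
  rw [cellGood_congr (fun y hy => h y (cell_sub_shell hℓ hi hc hy))]

theorem card_cells (x : Site d) (ℓ i : ℕ) : (cells x ℓ i).card ≤ (20 * i + 3) ^ d := by
  unfold cells
  refine (Finset.card_image_le).trans ((Finset.card_filter_le _ _).trans (le_of_eq ?_))
  rw [card_box]
  congr 1
  ring

section prob
variable {ν : Measure ℝ} [IsProbabilityMeasure ν]

theorem marg_badA {x : Site d} {ℓ i : ℕ} (hℓ : 1 ≤ ℓ) (hi : 1 ≤ i) {A E p : ℝ} (hp : 0 ≤ p)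
    (h : ∀ c : Site d, PL ν (box c (3 * ℓ)) {V | ¬ CellGood V c ℓ A E} ≤ ENNReal.ofReal p) :
    (∫⋯∫⁻_(shell x ℓ i), (badA x ℓ i A E).indicator 1 ∂(fun _ => ν)) 0 ≤
      ENNReal.ofReal ((20 * i + 3) ^ d * p) := by
  have hm : ∀ c : Site d, MeasurableSet {V : Site d → ℝ | ¬ CellGood V c ℓ A E} :=
    fun c => (measurable_cellGood c ℓ A E).compl
  have h1 : (badA x ℓ i A E).indicator (1 : (Site d → ℝ) → ℝ≥0∞) ≤
      fun V => ∑ c ∈ cells x ℓ i, ({V | ¬ CellGood V c ℓ A E} : Set (Site d → ℝ)).indicator 1 V := by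
    intro V
    by_cases hV : V ∈ badA x ℓ i A E
    · rw [Set.indicator_of_mem hV]
      obtain ⟨c, hc, hcV⟩ := hV
      have h2 : ({V | ¬ CellGood V c ℓ A E} : Set (Site d → ℝ)).indicator
          (1 : (Site d → ℝ) → ℝ≥0∞) V = 1 := by
        rw [Set.indicator_of_mem]
        · rfl
        · exact hcV
      rw [Pi.one_apply, ← h2]
      exact Finset.single_le_sum (f := fun c => ({V | ¬ CellGood V c ℓ A E} :
        Set (Site d → ℝ)).indicator (1 : (Site d → ℝ) → ℝ≥0∞) V) (fun _ _ => zero_le) hc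
    · rw [Set.indicator_of_notMem hV]
      exact zero_le
  refine (lmarginal_mono h1 0).trans ?_
  rw [marg_sum _ (fun c _ => measurable_one.indicator (hm c))]
  have h3 : ∀ c ∈ cells x ℓ i, (∫⋯∫⁻_(shell x ℓ i), ({V | ¬ CellGood V c ℓ A E} :
      Set (Site d → ℝ)).indicator 1 ∂(fun _ => ν)) 0 ≤ ENNReal.ofReal p := by
    intro c hc
    rw [marg_subset (measurable_one.indicator (hm c)) _ (cell_sub_shell hℓ hi hc),
      ← PL_apply _ (hm c)]
    · exact h c
    · apply only_indicator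
      intro V V' hVV
      simp only [Set.mem_ofPred_eq]
      rw [cellGood_congr hVV]
  refine (Finset.sum_le_sum h3).trans ?_
  rw [Finset.sum_const, nsmul_eq_mul, ENNReal.ofReal_mul (by positivity)]
  gcongr
  rw [← ENNReal.ofReal_natCast]
  apply ENNReal.ofReal_le_ofReal
  exact_mod_cast card_cells x ℓ i

/-- all annuli up to `j` are bad -/
def prodA (x : Site d) (ℓ j : ℕ) (A E : ℝ) (V : Site d → ℝ) : ℝ≥0∞ :=
  ∏ i ∈ Finset.Icc 1 j, (badA x ℓ i A E).indicator 1 V

theorem prodA_succ (x : Site d) (ℓ j : ℕ) (A E : ℝ) (V : Site d → ℝ) :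
    prodA x ℓ (j + 1) A E V = prodA x ℓ j A E V * (badA x ℓ (j + 1) A E).indicator 1 V := by
  unfold prodA
  rw [Finset.prod_Icc_succ_top (by omega)]

theorem measurable_prodA (x : Site d) (ℓ j : ℕ) (A E : ℝ) : Measurable (prodA x ℓ j A E) := by
  unfold prodA
  apply Finset.measurable_fun_prod
  intro i _
  exact measurable_one.indicator (measurable_badA x ℓ i A E)

theorem only_prodA {x : Site d} {ℓ : ℕ} (hℓ : 1 ≤ ℓ) (j : ℕ) (A E : ℝ) :
    Only (prodA x ℓ j A E) (box x (10 * j * ℓ + 4 * ℓ)) := by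
  intro V V' h
  unfold prodA
  apply Finset.prod_congr rfl
  intro i hi
  rw [Finset.mem_Icc] at hi
  apply only_badA hℓ hi.1 A E
  intro y hy
  apply h
  unfold shell at hy
  rw [Finset.mem_sdiff, mem_box] at hy
  rw [mem_box]
  have h1 : 10 * i * ℓ ≤ 10 * j * ℓ := Nat.mul_le_mul_right ℓ (by omega)
  omega

theorem marg_prodA {x : Site d} {ℓ m : ℕ} (hℓ : 1 ≤ ℓ) {A E p : ℝ} (hp : 0 ≤ p)
    (h : ∀ c : Site d, PL ν (box c (3 * ℓ)) {V | ¬ CellGood V c ℓ A E} ≤ ENNReal.ofReal p)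
    (j : ℕ) (hj : j ≤ m) :
    (∫⋯∫⁻_(box x (10 * j * ℓ + 4 * ℓ)), prodA x ℓ j A E ∂(fun _ => ν)) 0 ≤
      ENNReal.ofReal ((20 * m + 23) ^ d * p) ^ j := by
  induction j with
  | zero =>
    rw [pow_zero]
    apply marg_le_const
    intro V
    unfold prodA
    simp
  | succ j ih =>
    have e1 : prodA x ℓ (j + 1) A E = fun V => prodA x ℓ j A E V *
        (badA x ℓ (j + 1) A E).indicator 1 V := by
      funext V
      exact prodA_succ x ℓ j A E V
    have h1 : 10 * (j + 1) * ℓ = 10 * j * ℓ + 10 * ℓ := by ring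
    rw [e1, marg_mul (measurable_prodA x ℓ j A E)
      (measurable_one.indicator (measurable_badA x ℓ (j + 1) A E)) (only_prodA hℓ j A E)
      (only_badA hℓ (by omega) A E), pow_succ]
    · refine mul_le_mul' (ih (by omega)) ((marg_badA hℓ (by omega) hp h).trans ?_)
      apply ENNReal.ofReal_le_ofReal
      apply mul_le_mul_of_nonneg_right _ hp
      apply pow_le_pow_left₀ (by positivity)
      have : ((j + 1 : ℕ) : ℝ) ≤ m := by exact_mod_cast hj
      linarith
    · rw [Finset.disjoint_left]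
      intro v hv hv'
      unfold shell at hv'
      rw [mem_box] at hv
      rw [Finset.mem_sdiff, mem_box, mem_box] at hv'
      omega
    · intro v hv
      rw [Finset.mem_union] at hv
      rw [mem_box]
      rcases hv with hv | hv
      · rw [mem_box] at hv
        omega
      · unfold shell at hv
        rw [Finset.mem_sdiff, mem_box] at hv
        exact hv.1

end prob

/-- ANB -/
theorem anb : AnbStmt := by
  intro d ν _ E A p m ℓ x hℓ hp h
  have hset : {V : Site d → ℝ | ∀ i : ℕ, 1 ≤ i → i ≤ m → ∃ c ∈ cells x ℓ i,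
      ¬ CellGood V c ℓ A E} = ⋂ i ∈ Finset.Icc 1 m, badA x ℓ i A E := by
    ext V
    simp only [Set.mem_ofPred_eq, Set.mem_iInter, Finset.mem_Icc, badA, and_imp]
  have hmeas : MeasurableSet (⋂ i ∈ Finset.Icc 1 m, badA x ℓ i A E) := by
    apply Finset.measurableSet_biInter
    intro i _
    exact measurable_badA x ℓ i A E
  have hind : (⋂ i ∈ Finset.Icc 1 m, badA x ℓ i A E).indicator (1 : (Site d → ℝ) → ℝ≥0∞) =
      prodA x ℓ m A E := by
    funext V
    unfold prodA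
    by_cases hV : V ∈ ⋂ i ∈ Finset.Icc 1 m, badA x ℓ i A E
    · rw [Set.indicator_of_mem hV]
      symm
      apply Finset.prod_eq_one
      intro i hi
      rw [Set.indicator_of_mem]
      · rfl
      · exact Set.mem_iInter₂.1 hV i hi
    · rw [Set.indicator_of_notMem hV]
      symm
      rw [Set.mem_iInter₂] at hV
      push Not at hV
      obtain ⟨i, hi, hVi⟩ := hV
      exact Finset.prod_eq_zero hi (Set.indicator_of_notMem hVi _)
  have hsub : box x (10 * m * ℓ + 4 * ℓ) ⊆ box x (10 * (m + 1) * ℓ) := by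
    apply box_mono
    have h1 : 10 * (m + 1) * ℓ = 10 * m * ℓ + 10 * ℓ := by ring
    omega
  rw [hset, PL_apply _ hmeas, hind, marg_subset (measurable_prodA x ℓ m A E)
    (only_prodA hℓ m A E) hsub, ENNReal.ofReal_pow (by positivity)]
  exact marg_prodA hℓ hp h m le_rfl

end Pool.Agent.Mob.H94
end
end -- Pool.Agent.Helper94_Mob.Anb

section -- Pool.Agent.Helper98_Mob.Dic

/-!
# DIC: eigenvectors of a cube are small in the inner cube or in the shell
-/

set_option autoImplicit false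
set_option linter.unusedSectionVars false

open MeasureTheory ProbabilityTheory Function Filter

open scoped ENNReal BigOperators Topology

noncomputable section

namespace Pool.Agent.Mob.H98

open Pool.Agent.Anderson Pool.Agent.Loc

variable {d : ℕ}

theorem exists_sd (hd : 1 ≤ d) (x : Site d) (L : ℕ) : ∃ u, sd x u = L := by
  have i : Fin d := ⟨0, hd⟩
  refine ⟨Function.update x i (x i + L), ?_⟩
  apply le_antisymm
  · rw [sd_le_iff]
    intro j
    by_cases hj : j = i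
    · subst hj
      simp
    · rw [Function.update_of_ne hj, sub_self, abs_zero]
      omega
  · have h1 := sd_le_iff.1 (le_refl (sd x (Function.update x i (x i + L)))) i
    rw [Function.update_self, sub_add_cancel_left, abs_neg, abs_of_nonneg (by omega)] at h1
    exact_mod_cast h1

theorem fgood_bound (hd : 1 ≤ d) {V : Site d → ℝ} {L : ℕ} {x : Site d} {E μ : ℝ}
    (hg : FGood V L x E μ) {ψ : Site d → ℂ}
    (hψ : ∀ y ∈ box x L, lap ψ y + (V y : ℂ) * ψ y = (E : ℂ) * ψ y)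
    {M : ℝ} (hM : ∀ y ∈ box x (L + 1), ‖ψ y‖ ≤ M) :
    ‖ψ x‖ ≤ 2 * d * (2 * L + 1) ^ d * Real.exp (-μ * L) * M := by
  set n : ℕ := sd 0 x + L with hn
  have hsub : box x L ∩ box (0 : Site d) n = box x L := by
    rw [Finset.inter_eq_left]
    intro y hy
    rw [mem_box] at *
    have := sd_triangle 0 x y
    omega
  obtain ⟨u, hu⟩ := exists_sd hd x L
  apply goodBox_bound (n := n) (L := L) (x := x) (E := E) (μ := μ) (V := V)
  · intro u hu1 hu2
    rw [hsub]
    exact hg u hu2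
  · rw [mem_box]
    omega
  · refine ⟨u, ?_, hu⟩
    rw [hsub, mem_box]
    exact hu.le
  · rw [hsub]
    exact hψ
  · intro y hy hy'
    exfalso
    apply hy'
    rw [← hsub] at hy
    exact (Finset.mem_inter.1 hy).2
  · exact hM

/-- the eigenvector is small on a set without eigenvalues near `E` if it is small around it -/
theorem small_of_noEig (hnrm : NrmStmt) {V : Site d → ℝ} {A : Finset (Site d)} {E r ε : ℝ}
    (hr : 0 < r) (hE : NoEig V A E r) (hε : 0 ≤ ε) {ψ : Site d → ℂ}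
    (hψ : ∀ x ∈ A, lap ψ x + (V x : ℂ) * ψ x = (E : ℂ) * ψ x)
    (hs : ∀ x ∈ A, ∀ y ∈ box x 1, y ∉ A → ‖ψ y‖ ≤ ε) :
    r ^ 2 * ∑ x ∈ A, ‖ψ x‖ ^ 2 ≤ A.card * (2 * d * ε) ^ 2 := by
  have h1 := hnrm d V A E r hr hE (fun y => if y ∈ A then ψ y else 0)
    (fun x hx => by rw [if_neg hx])
  have h2 : ∑ x ∈ A, ‖(fun y => if y ∈ A then ψ y else 0) x‖ ^ 2 = ∑ x ∈ A, ‖ψ x‖ ^ 2 := by
    apply Finset.sum_congr rfl
    intro x hx
    beta_reduce
    rw [if_pos hx]
  rw [h2] at h1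
  refine h1.trans ?_
  rw [← nsmul_eq_mul]
  apply Finset.sum_le_card_nsmul
  intro x hx
  have h3 : lap ψ x = lap (fun y => if y ∈ A then ψ y else 0) x +
      lap (fun y => if y ∈ A then 0 else ψ y) x := by
    rw [← lap_add]
    congr 1
    funext y
    by_cases hy : y ∈ A <;> simp [hy]
  have h4 := hψ x hx
  have h5 : lap (fun y => if y ∈ A then ψ y else 0) x +
      (V x : ℂ) * (if x ∈ A then ψ x else 0) - (E : ℂ) * (if x ∈ A then ψ x else 0) =
      - lap (fun y => if y ∈ A then 0 else ψ y) x := by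
    rw [if_pos hx, ← h4, h3]
    ring
  rw [h5, norm_neg]
  have h6 : ‖lap (fun y => if y ∈ A then 0 else ψ y) x‖ ≤ 2 * d * ε := by
    apply norm_lap_le
    intro y hy
    by_cases hyA : y ∈ A
    · rw [if_pos hyA, norm_zero]
      exact hε
    · rw [if_neg hyA]
      exact hs x hx y hy hyA
  gcongr

theorem dic (hnrm : NrmStmt) : DicStmt := by
  intro d V I μ L₀ k₀ hd hμ hTB hSep
  -- asymptotics
  have t1 := tendsto_poly_exp d (show 0 < μ / 4 by positivity) (1 / 8) (8 ^ d * Real.exp (4 / μ))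
  have t2 := tendsto_poly_exp d (show 0 < μ / 4 by positivity) 1 (2 * d * (2 * d))
  have t3 := tendsto_poly_exp d (show 0 < μ / 2 by positivity) 1 (2 * d)
  have e1 := t1.eventually (gt_mem_nhds one_pos)
  have e2 := t2.eventually (gt_mem_nhds one_pos)
  have e3 := t3.eventually (gt_mem_nhds one_pos)
  obtain ⟨K, hK⟩ := eventually_atTop.1 (e1.and (e2.and e3))
  refine ⟨max (max L₀ k₀) (max K 6), ?_⟩
  intro k hk E hE ψ hψ
  have hkL : L₀ ≤ k := le_trans (le_trans (le_max_left _ _) (le_max_left _ _)) hk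
  have hkk : k₀ ≤ k := le_trans (le_trans (le_max_right _ _) (le_max_left _ _)) hk
  have hkK : K ≤ k := le_trans (le_trans (le_max_left _ _) (le_max_right _ _)) hk
  have hk6 : 6 ≤ k := le_trans (le_trans (le_max_right _ _) (le_max_right _ _)) hk
  obtain ⟨a1, a2, a3⟩ := hK k hkK
  set ε : ℝ := 2 * d * (2 * k + 1) ^ d * Real.exp (-μ * k) with hεdef
  have hε0 : 0 ≤ ε := by rw [hεdef]; positivity
  have hεs : ε ≤ Real.exp (-(μ / 2) * k) := by
    have : ε = 2 * d * (2 * k + 1) ^ d * Real.exp (-(μ / 2) * k) * Real.exp (-(μ / 2) * k) := by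
      rw [hεdef, mul_assoc _ (Real.exp (-(μ / 2) * k)), ← Real.exp_add]
      congr 2
      ring
    rw [this]
    have h0 := (Real.exp_pos (-(μ / 2) * k)).le
    nlinarith only [a3, h0]
  have hsq : (6 : ℕ) * k ≤ k ^ 2 := by nlinarith only [hk6]
  have hfar : ∀ x : Site d, sd 0 x + k ≤ 8 * k → FGood V k x E μ → ‖ψ x‖ ≤ ε := by
    intro x hx hg
    have := fgood_bound hd hg (ψ := ψ) (M := 1) ?_ (fun y _ => hψ.le_one y)
    · rw [mul_one] at this
      exact this
    · intro y hy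
      apply hψ.eq
      rw [mem_box] at *
      have := sd_triangle 0 x y
      omega
  by_cases hall : ∀ x ∈ box (0 : Site d) (2 * k), FGood V k x E μ
  · left
    intro x hx
    refine (hfar x ?_ (hall x hx)).trans hεs
    rw [mem_box] at hx
    omega
  push Not at hall
  obtain ⟨x₀, hx₀, hbad⟩ := hall
  rw [mem_box] at hx₀
  have hmid : ∀ y : Site d, 4 * k < sd 0 y → sd 0 y ≤ 6 * k → ‖ψ y‖ ≤ ε := by
    intro y h1 h2
    apply hfar y (by omega)
    have h3 := sd_triangle 0 x₀ y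
    rcases hTB k hkL x₀ (mem_box.2 (by omega)) y (mem_box.2 (by omega)) (by omega) E hE with h | h
    · exact absurd h hbad
    · exact h
  set r : ℝ := Real.exp (-√k) with hrdef
  have hr : 0 < r := Real.exp_pos _
  -- the numerical inequality
  have hnum : (16 * (k : ℝ) + 1) ^ d * (2 * d * ε) ^ 2 ≤ r ^ 2 * Real.exp (-μ * k) := by
    have hsqrt : 2 * √k ≤ μ / 4 * k + 4 / μ := by
      have h1 : (√k) ^ 2 = k := Real.sq_sqrt (by positivity)
      have h2 : 0 ≤ (μ / 4) * (√k - 4 / μ) ^ 2 := by positivity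
      have h3 : (μ / 4) * (√k - 4 / μ) ^ 2 = μ / 4 * (√k) ^ 2 - 2 * √k + 4 / μ := by
        field_simp
        ring
      rw [h3, h1] at h2
      linarith only [h2]
    have hr2 : 1 ≤ r ^ 2 * (Real.exp (4 / μ) * Real.exp (μ / 4 * k)) := by
      rw [hrdef, ← Real.exp_nat_mul, ← Real.exp_add, ← Real.exp_add]
      apply Real.one_le_exp
      push_cast
      linarith only [hsqrt]
    have h16 : (16 * (k : ℝ) + 1) ^ d = 8 ^ d * (2 * k + 1 / 8) ^ d := by
      rw [← mul_pow]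
      congr 1
      ring
    have hA : (16 * (k : ℝ) + 1) ^ d * Real.exp (4 / μ) * Real.exp (-(μ / 4) * k) ≤ 1 := by
      rw [h16]
      calc _ = 8 ^ d * Real.exp (4 / μ) * (2 * k + 1 / 8) ^ d * Real.exp (-(μ / 4) * k) := by ring
        _ ≤ 1 := a1.le
    have hB : 2 * d * (2 * d) * (2 * (k : ℝ) + 1) ^ d * Real.exp (-(μ / 4) * k) ≤ 1 := a2.le
    have hB0 : 0 ≤ 2 * d * (2 * d) * (2 * (k : ℝ) + 1) ^ d * Real.exp (-(μ / 4) * k) := by
      positivity
    set X := 2 * d * (2 * d) * (2 * (k : ℝ) + 1) ^ d * Real.exp (-(μ / 4) * k) with hX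
    set Y := (16 * (k : ℝ) + 1) ^ d * Real.exp (4 / μ) * Real.exp (-(μ / 4) * k) with hY
    have hY0 : 0 ≤ Y := by rw [hY]; positivity
    have e4 : (2 * d * ε) = X * Real.exp (-(3 * μ / 4) * k) := by
      rw [hX, hεdef, mul_assoc _ (Real.exp (-(μ / 4) * k)), ← Real.exp_add]
      have : -(μ / 4) * (k : ℝ) + -(3 * μ / 4) * k = -μ * k := by ring
      rw [this]
      ring
    have e5 : (16 * (k : ℝ) + 1) ^ d * (2 * d * ε) ^ 2 * (Real.exp (4 / μ) * Real.exp (μ / 4 * k)) =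
        Y * X ^ 2 * Real.exp (-μ * k) := by
      rw [e4, hY, mul_pow, ← Real.exp_nat_mul]
      have h1 : Real.exp (((2 : ℕ) : ℝ) * (-(3 * μ / 4) * k)) * Real.exp (μ / 4 * k) =
          Real.exp (-(μ / 4) * k) * Real.exp (-μ * k) := by
        rw [← Real.exp_add, ← Real.exp_add]
        congr 1
        push_cast
        ring
      calc _ = (16 * (k : ℝ) + 1) ^ d * X ^ 2 * Real.exp (4 / μ) *
            (Real.exp (((2 : ℕ) : ℝ) * (-(3 * μ / 4) * k)) * Real.exp (μ / 4 * k)) := by ring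
        _ = _ := by rw [h1]; ring
    have hXY : Y * X ^ 2 ≤ 1 := by
      have : X ^ 2 ≤ 1 := pow_le_one₀ hB0 hB
      calc Y * X ^ 2 ≤ 1 * 1 := mul_le_mul hA this (by positivity) zero_le_one
        _ = 1 := one_mul 1
    have hpos : 0 < Real.exp (4 / μ) * Real.exp (μ / 4 * k) := by positivity
    have h7 : (16 * (k : ℝ) + 1) ^ d * (2 * d * ε) ^ 2 *
        (Real.exp (4 / μ) * Real.exp (μ / 4 * k)) ≤
        r ^ 2 * Real.exp (-μ * k) * (Real.exp (4 / μ) * Real.exp (μ / 4 * k)) := by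
      rw [e5]
      have h8 := (Real.exp_pos (-μ * k)).le
      calc Y * X ^ 2 * Real.exp (-μ * k) ≤ 1 * Real.exp (-μ * k) := by gcongr
        _ ≤ (r ^ 2 * (Real.exp (4 / μ) * Real.exp (μ / 4 * k))) * Real.exp (-μ * k) := by gcongr
        _ = _ := by ring
    exact le_of_mul_le_mul_right h7 hpos
  have hexp2 : Real.exp (-μ * k) ≤ Real.exp (-(μ / 2) * k) := by
    apply Real.exp_le_exp.2
    have : (0 : ℝ) ≤ k := by positivity
    nlinarith only [hμ]
  rcases hSep k hkk E hE with h | h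
  · left
    have hs := small_of_noEig hnrm hr h hε0 (ψ := ψ) ?_ ?_
    · intro x hx
      have hxA : x ∈ box (0 : Site d) (5 * k) := box_mono 0 (by omega) hx
      have h1 : ‖ψ x‖ ^ 2 ≤ ∑ x ∈ box (0 : Site d) (5 * k), ‖ψ x‖ ^ 2 :=
        Finset.single_le_sum (f := fun x => ‖ψ x‖ ^ 2) (fun y _ => by positivity) hxA
      have h2 : ((box (0 : Site d) (5 * k)).card : ℝ) ≤ (16 * (k : ℝ) + 1) ^ d := by
        rw [card_box]
        push_cast
        have : (0 : ℝ) ≤ k := by positivity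
        exact pow_le_pow_left₀ (by positivity) (by linarith only) d
      have h3 : r ^ 2 * ‖ψ x‖ ^ 2 ≤ r ^ 2 * Real.exp (-μ * k) :=
        calc r ^ 2 * ‖ψ x‖ ^ 2 ≤ r ^ 2 * ∑ x ∈ box (0 : Site d) (5 * k), ‖ψ x‖ ^ 2 := by gcongr
          _ ≤ _ := hs
          _ ≤ (16 * (k : ℝ) + 1) ^ d * (2 * d * ε) ^ 2 := by gcongr
          _ ≤ _ := hnum
      have h4 : ‖ψ x‖ ^ 2 ≤ Real.exp (-(μ / 2) * k) ^ 2 := by
        have h5 := le_of_mul_le_mul_left h3 (by positivity)
        rw [← Real.exp_nat_mul]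
        have h6 : ((2 : ℕ) : ℝ) * (-(μ / 2) * k) = -μ * k := by push_cast; ring
        rw [h6]
        exact h5
      exact abs_le_of_sq_le_sq' h4 (Real.exp_pos _).le |>.2
    · intro x hx
      exact hψ.eq x (box_mono 0 (by omega) hx)
    · intro x hx y hy hyA
      rw [mem_box] at hx hy hyA
      have h1 := sd_triangle 0 x y
      exact hmid y (by omega) (by omega)
  · right
    have hs := small_of_noEig hnrm hr h hε0 (ψ := ψ) ?_ ?_
    · have h2 : ((box (0 : Site d) (8 * k) \ box 0 (5 * k)).card : ℝ) ≤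
          (16 * (k : ℝ) + 1) ^ d := by
        have h1 : (box (0 : Site d) (8 * k) \ box 0 (5 * k)).card ≤ (box (0 : Site d) (8 * k)).card :=
          Finset.card_le_card Finset.sdiff_subset
        rw [card_box] at h1
        calc ((box (0 : Site d) (8 * k) \ box 0 (5 * k)).card : ℝ)
            ≤ (((2 * (8 * k) + 1) ^ d : ℕ) : ℝ) := by exact_mod_cast h1
          _ = _ := by push_cast; ring
      have h3 := le_of_mul_le_mul_left (hs.trans ((mul_le_mul_of_nonneg_right h2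
        (by positivity)).trans hnum)) (by positivity)
      exact h3.trans hexp2
    · intro x hx
      exact hψ.eq x (Finset.mem_sdiff.1 hx).1
    · intro x hx y hy hyA
      rw [Finset.mem_sdiff, mem_box, mem_box, not_le] at hx
      rw [mem_box] at hy
      have h1 := sd_triangle 0 y x
      rw [sd_comm y x] at h1
      by_cases hy8 : y ∈ box (0 : Site d) (8 * k)
      · have hy5 : y ∈ box (0 : Site d) (5 * k) := by
          by_contra hc
          exact hyA (Finset.mem_sdiff.2 ⟨hy8, hc⟩)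
        rw [mem_box] at hy5
        exact hmid y (by omega) (by omega)
      · rw [hψ.supp y hy8, norm_zero]
        exact hε0

end Pool.Agent.Mob.H98
end
end -- Pool.Agent.Helper98_Mob.Dic

section -- Pool.Agent.Helper47_Mob.Tbp

/-!
# Module TBP: two distant cubes, the probability at a given scale
-/

set_option autoImplicit false
set_option linter.unusedSectionVars false

open MeasureTheory ProbabilityTheory Function

open scoped ENNReal BigOperators

noncomputable section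

namespace Pool.Agent.Mob.H47

open Pool.Agent.Anderson Pool.Agent.Loc Pool.Agent.Helper54.Bal Pool.Agent.Mob.H75

theorem tbp : TbpStmt := by
  intro d ν _ a b C μ h L x y hxy
  classical
  rcases lt_or_ge b a with hab | hab
  · have h0 : {V : Site d → ℝ | ∃ E ∈ Set.Icc a b, ¬ FGood V L x E μ ∧ ¬ FGood V L y E μ} = ∅ := by
      ext V
      simp only [Set.mem_ofPred_eq, Set.mem_empty_iff_false, iff_false]
      rintro ⟨E, hE, -⟩
      exact absurd (hE.1.trans hE.2) (not_le.2 hab)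
    rw [h0, measure_empty]
    exact bot_le
  set K : ℝ≥0∞ := ENNReal.ofReal (C * Real.exp (-μ * L)) with hK
  have hsub : {V : Site d → ℝ | ∃ E ∈ Set.Icc a b, ¬ FGood V L x E μ ∧ ¬ FGood V L y E μ} ⊆
      ⋃ u ∈ box x L, ⋃ v ∈ box y L, {V | (sd x u = L ∧ sd y v = L) ∧
        ∃ E ∈ Set.Icc a b, ¬ Good V (box x L) E x u (Real.exp (-μ * L)) ∧
          ¬ Good V (box y L) E y v (Real.exp (-μ * L))} := by
    rintro V ⟨E, hE, hb1, hb2⟩
    unfold FGood at hb1 hb2
    push Not at hb1 hb2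
    obtain ⟨u, hu', hu''⟩ := hb1
    obtain ⟨v, hv', hv''⟩ := hb2
    simp only [Set.mem_iUnion, exists_prop]
    exact ⟨u, mem_box.2 hu'.le, v, mem_box.2 hv'.le, ⟨hu', hv'⟩, E, hE, hu'', hv''⟩
  have hloc : ∀ (x u : Site d) (E : ℝ), sd x u = L → E ∈ Set.Icc a b →
      PP d ν {V | ¬ Good V (box x L) E x u (Real.exp (-μ * L))} ≤ K := by
    intro x u E hu hE
    refine (PP_le_PL (Λ := box x L) ?_).trans (h x u L E hE hu)
    intro V V' hVV
    exact not_congr (H75.good_congr hVV E x u _)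
  have hx1 : x ∈ box x L := mem_box.2 (by rw [sd_self]; omega)
  have hy1 : y ∈ box y L := mem_box.2 (by rw [sd_self]; omega)
  have hdis : Disjoint (box x L) (box y L) := by
    rw [Finset.disjoint_left]
    intro z hz1 hz2
    have z1 := mem_box.1 hz1
    have z2 := mem_box.1 hz2
    have z3 := sd_triangle x z y
    rw [sd_comm z y] at z3
    omega
  have hAb : ∀ u v, PP d ν {V | (sd x u = L ∧ sd y v = L) ∧
        ∃ E ∈ Set.Icc a b, ¬ Good V (box x L) E x u (Real.exp (-μ * L)) ∧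
          ¬ Good V (box y L) E y v (Real.exp (-μ * L))} ≤
      ((1 + 4 * (2 * L + 1) ^ d : ℕ) : ℝ≥0∞) * K := by
    intro u v
    by_cases hc : (sd x u = L ∧ sd y v = L)
    · obtain ⟨hu', hv'⟩ := hc
      have := prob_pair_I hdis hx1 (mem_box.2 hu'.le) hy1 (mem_box.2 hv'.le)
        (Real.exp_pos (-μ * L)) hab (fun E hE => hloc x u E hu' hE)
        (fun E hE => hloc y v E hv' hE)
      refine (measure_mono ?_).trans (this.trans ?_)
      · intro V hV
        exact hV.2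
      · rw [card_box, card_box]
        refine mul_le_mul' (Nat.cast_le.2 ?_) le_rfl
        omega
    · have : {V : Site d → ℝ | (sd x u = L ∧ sd y v = L) ∧
          ∃ E ∈ Set.Icc a b, ¬ Good V (box x L) E x u (Real.exp (-μ * L)) ∧
            ¬ Good V (box y L) E y v (Real.exp (-μ * L))} = ∅ := by
        ext V
        simp only [Set.mem_ofPred_eq, Set.mem_empty_iff_false, iff_false]
        intro h'
        exact hc h'.1
      rw [this, measure_empty]
      exact bot_le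
  have e1 : PP d ν {V : Site d → ℝ | ∃ E ∈ Set.Icc a b, ¬ FGood V L x E μ ∧ ¬ FGood V L y E μ} ≤
      (((2 * L + 1) ^ d : ℕ) : ℝ≥0∞) * (((2 * L + 1) ^ d : ℕ) *
        (((1 + 4 * (2 * L + 1) ^ d : ℕ) : ℝ≥0∞) * K)) := by
    refine (measure_mono hsub).trans ?_
    refine (measure_biUnion_finset_le _ _).trans ?_
    refine (Finset.sum_le_card_nsmul _ _ _ fun u _ => ?_).trans_eq
      (by rw [card_box, nsmul_eq_mul])
    refine (measure_biUnion_finset_le _ _).trans ?_
    exact (Finset.sum_le_card_nsmul _ _ _ fun v _ => hAb u v).trans_eq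
      (by rw [card_box, nsmul_eq_mul])
  refine e1.trans ?_
  have hK' : K ≤ ENNReal.ofReal (|C| * Real.exp (-μ * L)) := by
    apply ENNReal.ofReal_le_ofReal
    exact mul_le_mul_of_nonneg_right (le_abs_self C) (Real.exp_pos _).le
  have hnat : (2 * L + 1) ^ d * ((2 * L + 1) ^ d * (1 + 4 * (2 * L + 1) ^ d)) ≤
      5 * (2 * L + 1) ^ (3 * d) := by
    have n4 : 1 + 4 * (2 * L + 1) ^ d ≤ 5 * (2 * L + 1) ^ d := by
      have : 1 ≤ (2 * L + 1) ^ d := Nat.one_le_pow _ _ (by omega)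
      omega
    calc (2 * L + 1) ^ d * ((2 * L + 1) ^ d * (1 + 4 * (2 * L + 1) ^ d))
        ≤ (2 * L + 1) ^ d * ((2 * L + 1) ^ d * (5 * (2 * L + 1) ^ d)) := by gcongr
      _ = _ := by ring
  have e2 : (((2 * L + 1) ^ d : ℕ) : ℝ≥0∞) * (((2 * L + 1) ^ d : ℕ) *
        (((1 + 4 * (2 * L + 1) ^ d : ℕ) : ℝ≥0∞) * K)) ≤
      ((5 * (2 * L + 1) ^ (3 * d) : ℕ) : ℝ≥0∞) *
        ENNReal.ofReal (|C| * Real.exp (-μ * L)) := by
    calc (((2 * L + 1) ^ d : ℕ) : ℝ≥0∞) * (((2 * L + 1) ^ d : ℕ) *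
        (((1 + 4 * (2 * L + 1) ^ d : ℕ) : ℝ≥0∞) * K))
        = (((2 * L + 1) ^ d * ((2 * L + 1) ^ d * (1 + 4 * (2 * L + 1) ^ d)) : ℕ) : ℝ≥0∞) * K := by
          push_cast; ring
      _ ≤ _ := by gcongr
  refine e2.trans (le_of_eq ?_)
  rw [← ENNReal.ofReal_natCast, ← ENNReal.ofReal_mul (by positivity)]
  congr 1
  push_cast
  ring

end Pool.Agent.Mob.H47
end
end -- Pool.Agent.Helper47_Mob.Tbp
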