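import Pool.Agent.Helper12_MEB.B011
import Pool.Agent.Helper12_MEB.B028
import Pool.Agent.Helper12_MEB.B033

/-!
# Merged copies (generated) of the modules

* `Pool.Agent.Helper11_Mob.Gzb`
* `Pool.Agent.Helper54_LY.Box`
* `Pool.Agent.Helper54_LY.Low`
* `Pool.Agent.Helper54_LY.Fin`
* `Pool.Agent.Helper54_LY.Chn`
* `Pool.Agent.Helper54_LY.Chn2`
-/

set_option autoImplicit false

section -- Pool.Agent.Helper11_Mob.Gzb

/-!
# Module GZB: elementary facts on the finite volume resolvent
-/

set_option autoImplicit false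
set_option linter.unusedSectionVars false

open MeasureTheory ProbabilityTheory Function

open scoped ENNReal BigOperators InnerProductSpace

noncomputable section

namespace Pool.Agent.Mob.H11

open Pool.Agent.Anderson Pool.Agent.Loc Pool.Agent.Helper54.Bal

section generic

variable {n : Type*} [Fintype n] [DecidableEq n]

/-- a hermitian matrix minus `z`, at distance `δ` from the spectrum -/
theorem norm_ge (A : Matrix n n ℂ) (hA : A.IsHermitian) (z : ℂ) (δ : ℝ) (hδ : 0 ≤ δ)
    (h : ∀ j, δ ≤ ‖z - (hA.eigenvalues j : ℂ)‖) (w : EuclideanSpace ℂ n) :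
    δ * ‖w‖ ≤ ‖z • w - Matrix.toEuclideanLin A w‖ := by
  set T := Matrix.toEuclideanLin A with hT
  have hsym : T.IsSymmetric := Matrix.isHermitian_iff_isSymmetric.1 hA
  set b := hA.eigenvectorBasis with hb
  have hTb : ∀ j, T (b j) = (hA.eigenvalues j : ℂ) • b j := by
    intro j
    have h1 := hA.mulVec_eigenvectorBasis j
    rw [hT, Matrix.toEuclideanLin_apply, hb]
    ext i
    have h2 := congrFun h1 i
    simp only [PiLp.smul_apply, smul_eq_mul]
    rw [h2]
    simp
  have hin : ∀ j, ⟪b j, z • w - T w⟫_ℂ = (z - (hA.eigenvalues j : ℂ)) * ⟪b j, w⟫_ℂ := by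
    intro j
    rw [inner_sub_right, inner_smul_right, ← hsym (b j) w, hTb, inner_smul_left,
      Complex.conj_ofReal]
    ring
  have h1 := b.sum_sq_norm_inner_right (z • w - T w)
  have h2 := b.sum_sq_norm_inner_right w
  have h3 : δ ^ 2 * ‖w‖ ^ 2 ≤ ‖z • w - T w‖ ^ 2 := by
    rw [← h1, ← h2, Finset.mul_sum]
    apply Finset.sum_le_sum
    intro j _
    rw [hin, norm_mul, mul_pow]
    exact mul_le_mul_of_nonneg_right (pow_le_pow_left₀ hδ (h j) 2) (by positivity)
  rw [← mul_pow] at h3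
  exact (pow_le_pow_iff_left₀ (by positivity) (norm_nonneg _) (by norm_num)).1 h3

theorem lin_eq (A : Matrix n n ℂ) (z : ℂ) (w : n → ℂ) :
    z • (WithLp.toLp 2 w : EuclideanSpace ℂ n) - Matrix.toEuclideanLin A (WithLp.toLp 2 w) =
      WithLp.toLp 2 ((z • (1 : Matrix n n ℂ) - A).mulVec w) := by
  rw [Matrix.toEuclideanLin_apply, Matrix.sub_mulVec, Matrix.smul_mulVec, Matrix.one_mulVec]
  rfl

theorem det_ne (A : Matrix n n ℂ) (hA : A.IsHermitian) (z : ℂ) (δ : ℝ) (hδ : 0 < δ)
    (h : ∀ j, δ ≤ ‖z - (hA.eigenvalues j : ℂ)‖) : (z • (1 : Matrix n n ℂ) - A).det ≠ 0 := by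
  intro h0
  obtain ⟨v, hv, hv0⟩ := Matrix.exists_mulVec_eq_zero_iff.2 h0
  have h1 := norm_ge A hA z δ hδ.le h (WithLp.toLp 2 v)
  rw [lin_eq, hv0] at h1
  have h2 : ‖(WithLp.toLp 2 (0 : n → ℂ) : EuclideanSpace ℂ n)‖ = 0 := by
    rw [norm_eq_zero]
    rfl
  rw [h2] at h1
  have h3 : 0 < ‖(WithLp.toLp 2 v : EuclideanSpace ℂ n)‖ := by
    rw [norm_pos_iff]
    intro h4
    apply hv
    have := congrArg WithLp.ofLp h4
    simpa using this
  have h5 : 0 < δ * ‖(WithLp.toLp 2 v : EuclideanSpace ℂ n)‖ := by positivity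
  linarith

theorem inv_le (A : Matrix n n ℂ) (hA : A.IsHermitian) (z : ℂ) (δ : ℝ) (hδ : 0 < δ)
    (h : ∀ j, δ ≤ ‖z - (hA.eigenvalues j : ℂ)‖) (i j : n) :
    ‖(z • (1 : Matrix n n ℂ) - A)⁻¹ i j‖ ≤ δ⁻¹ := by
  have hdet := det_ne A hA z δ hδ h
  set M := z • (1 : Matrix n n ℂ) - A with hM
  set w : n → ℂ := M⁻¹.mulVec (Pi.single j 1) with hw
  have hwi : ∀ i, w i = M⁻¹ i j := by
    intro i
    rw [hw, Matrix.mulVec_single_one]
    rfl
  have h1 := norm_ge A hA z δ hδ.le h (WithLp.toLp 2 w)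
  rw [lin_eq, ← hM, hw, Matrix.mulVec_mulVec, Matrix.mul_nonsing_inv _ (isUnit_iff_ne_zero.2 hdet),
    Matrix.one_mulVec, ← hw] at h1
  have h2 : ‖(WithLp.toLp 2 (Pi.single j (1 : ℂ)) : EuclideanSpace ℂ n)‖ = 1 := by
    have := EuclideanSpace.norm_single j (1 : ℂ)
    rw [norm_one] at this
    rw [← this]
    rfl
  rw [h2] at h1
  have h3 : ‖w i‖ ≤ ‖(WithLp.toLp 2 w : EuclideanSpace ℂ n)‖ :=
    PiLp.norm_apply_le (WithLp.toLp 2 w : EuclideanSpace ℂ n) i
  rw [hwi i] at h3
  have h4 : δ * ‖M⁻¹ i j‖ ≤ 1 := (mul_le_mul_of_nonneg_left h3 hδ.le).trans h1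
  have h5 : ‖M⁻¹ i j‖ ≤ 1 / δ := by
    rw [le_div_iff₀ hδ, mul_comm]
    exact h4
  rwa [one_div] at h5

theorem diff_det {f : ℂ → Matrix n n ℂ} {z : ℂ}
    (hf : ∀ i j, DifferentiableAt ℂ (fun w => f w i j) z) :
    DifferentiableAt ℂ (fun w => (f w).det) z := by
  simp only [Matrix.det_apply]
  apply DifferentiableAt.fun_sum
  intro σ _
  apply DifferentiableAt.fun_const_smul
  apply DifferentiableAt.fun_finsetProd
  intro i _
  exact hf _ _

end generic

variable {d : ℕ}

theorem map_RM (V : Site d → ℝ) (Λ : Finset (Site d)) (E : ℝ) :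
    (RM V Λ E).map (Complex.ofRealHom) = (E : ℂ) • (1 : Matrix Λ Λ ℂ) - HC V Λ := by
  ext x y
  simp only [RM, HC, Matrix.map_apply, Matrix.sub_apply, Matrix.smul_apply, smul_eq_mul,
    Complex.ofRealHom_eq_coe, Complex.ofReal_sub, Complex.ofReal_mul]
  congr 2
  rw [Matrix.one_apply, Matrix.one_apply]
  split_ifs <;> simp

theorem det_map_RM (V : Site d → ℝ) (Λ : Finset (Site d)) (E : ℝ) :
    ((E : ℂ) • (1 : Matrix Λ Λ ℂ) - HC V Λ).det = ((RM V Λ E).det : ℂ) := by
  rw [← map_RM]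
  have := RingHom.map_det Complex.ofRealHom (RM V Λ E)
  rw [RingHom.mapMatrix_apply] at this
  exact this.symm

theorem gz_real (V : Site d → ℝ) (Λ : Finset (Site d)) (x y : Site d) (E : ℝ) :
    gz V Λ (E : ℂ) x y = (gr V Λ E x y : ℂ) := by
  unfold gz gr
  by_cases h : x ∈ Λ ∧ y ∈ Λ
  · rw [dif_pos h, dif_pos h, Matrix.inv_def, Matrix.inv_def, det_map_RM]
    simp only [Matrix.smul_apply, smul_eq_mul, Ring.inverse_eq_inv', Complex.ofReal_mul,
      Complex.ofReal_inv]
    congr 1
    rw [← map_RM]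
    have := RingHom.map_adjugate Complex.ofRealHom (RM V Λ E)
    rw [RingHom.mapMatrix_apply, RingHom.mapMatrix_apply] at this
    rw [← this]
    rfl
  · rw [dif_neg h, dif_neg h]
    simp

theorem eig_far {V : Site d → ℝ} {Λ : Finset (Site d)} {E r : ℝ} (h : NoEig V Λ E r) (j : Λ) :
    r < |(HC_herm V Λ).eigenvalues j - E| := by
  by_contra hc
  push Not at hc
  apply h _ hc
  have h1 : (((HC_herm V Λ).eigenvalues j : ℝ) : ℂ) • (1 : Matrix Λ Λ ℂ) - HC V Λ =
      (((HC_herm V Λ).eigenvalues j : ℝ) : ℂ) • (1 : Matrix Λ Λ ℂ) - HC V Λ := rfl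
  have h2 : ((((HC_herm V Λ).eigenvalues j : ℝ) : ℂ) • (1 : Matrix Λ Λ ℂ) - HC V Λ).det = 0 := by
    apply Matrix.exists_mulVec_eq_zero_iff.1
    refine ⟨fun i => (HC_herm V Λ).eigenvectorBasis j i, ?_, ?_⟩
    · intro h0
      have h3 := (HC_herm V Λ).eigenvectorBasis.norm_eq_one j
      have h4 : (HC_herm V Λ).eigenvectorBasis j = 0 := by
        ext i
        exact congrFun h0 i
      rw [h4, norm_zero] at h3
      norm_num at h3
    · have h3 := (HC_herm V Λ).mulVec_eigenvectorBasis j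
      rw [Matrix.sub_mulVec, Matrix.smul_mulVec, Matrix.one_mulVec, sub_eq_zero]
      ext i
      have h4 := congrFun h3 i
      rw [h4]
      simp
  rw [det_map_RM] at h2
  exact_mod_cast h2

theorem gzb : GzbStmt := by
  intro d V Λ x y
  refine ⟨gz_real V Λ x y, ?_, ?_⟩
  · intro z hz
    have hpos : 0 < |z.im| := abs_pos.2 hz
    have h : ∀ j, |z.im| ≤ ‖z - ((HC_herm V Λ).eigenvalues j : ℂ)‖ := by
      intro j
      have := Complex.abs_im_le_norm (z - ((HC_herm V Λ).eigenvalues j : ℂ))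
      simpa using this
    refine ⟨det_ne _ (HC_herm V Λ) z _ hpos h, ?_⟩
    unfold gz
    split_ifs with hxy
    · exact inv_le _ (HC_herm V Λ) z _ hpos h _ _
    · rw [norm_zero]
      positivity
  · intro E r hr hE z hz
    have h : ∀ j, r ≤ ‖z - ((HC_herm V Λ).eigenvalues j : ℂ)‖ := by
      intro j
      have h1 := Complex.abs_re_le_norm (z - ((HC_herm V Λ).eigenvalues j : ℂ))
      have h2 := eig_far hE j
      have h3 : (z - ((HC_herm V Λ).eigenvalues j : ℂ)).re =
          z.re - (HC_herm V Λ).eigenvalues j := by simp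
      rw [h3] at h1
      refine le_trans ?_ h1
      have h4 : |(HC_herm V Λ).eigenvalues j - E| ≤
          |z.re - (HC_herm V Λ).eigenvalues j| + |z.re - E| := by
        have := abs_sub_le ((HC_herm V Λ).eigenvalues j) z.re E
        rwa [abs_sub_comm ((HC_herm V Λ).eigenvalues j) z.re] at this
      linarith
    have hdet := det_ne _ (HC_herm V Λ) z r hr h
    refine ⟨hdet, ?_, ?_⟩
    · unfold gz
      split_ifs with hxy
      · exact inv_le _ (HC_herm V Λ) z _ hr h _ _
      · rw [norm_zero]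
        positivity
    · unfold gz
      by_cases hxy : x ∈ Λ ∧ y ∈ Λ
      · simp only [dif_pos hxy, Matrix.inv_def, Matrix.smul_apply, smul_eq_mul,
          Ring.inverse_eq_inv', Matrix.adjugate_apply]
        have hent : ∀ i j : Λ, DifferentiableAt ℂ
            (fun w : ℂ => (w • (1 : Matrix Λ Λ ℂ) - HC V Λ) i j) z := by
          intro i j
          simp only [Matrix.sub_apply, Matrix.smul_apply, smul_eq_mul]
          fun_prop
        have hd := diff_det hent
        refine DifferentiableAt.fun_mul (hd.fun_inv hdet) ?_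
        · apply diff_det
          intro i j
          simp only [Matrix.updateRow_apply]
          split_ifs
          · exact differentiableAt_const _
          · exact hent i j
      · simp only [dif_neg hxy]
        exact differentiableAt_const _

end Pool.Agent.Mob.H11
end
end -- Pool.Agent.Helper11_Mob.Gzb

section -- Pool.Agent.Helper54_LY.Box

/-!
# The kernels in a finite set
-/

set_option autoImplicit false
set_option linter.unusedSectionVars false

open scoped InnerProductSpace ComplexConjugate Topology ENNReal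
open MeasureTheory Filter

noncomputable section

namespace Pool.Agent.LY

open Pool.Agent.Anderson Pool.Agent.Loc Pool.Agent.Mob Pool.Agent.Helper54.Bal

variable {d : ℕ}

/-- the hopping matrix of the finite set `Λ` -/
def hopM (Λ : Finset (Site d)) : Matrix Λ Λ ℂ := Matrix.of fun x y => (hop (x : Site d) y : ℂ)

/-- the hopping operator of the finite set `Λ` -/
def hopL (Λ : Finset (Site d)) : (Λ → ℂ) →ₗ[ℂ] (Λ → ℂ) := (hopM Λ).mulVecLin

theorem hopL_apply (Λ : Finset (Site d)) (f : Λ → ℂ) (x : Λ) :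
    hopL Λ f x = ∑ t : Λ, (hop (x : Site d) t : ℂ) * f t := rfl

/-- `(H_Λ - z)⁻¹` on the finite set `Λ` -/
def KB (Λ : Finset (Site d)) (z : ℂ) (V : Site d → ℝ) : Kern Λ :=
  fun x y => -(z • (1 : Matrix Λ Λ ℂ) - HC V Λ)⁻¹ x y

theorem det_ne_KB (Λ : Finset (Site d)) {z : ℂ} (hz : z.im ≠ 0) (V : Site d → ℝ) :
    (z • (1 : Matrix Λ Λ ℂ) - HC V Λ).det ≠ 0 :=
  ((H11.gzb d V Λ 0 0).2.1 z hz).1

theorem KB_eq_gz (Λ : Finset (Site d)) (z : ℂ) (V : Site d → ℝ) (x y : Λ) :
    KB Λ z V x y = -gz V Λ z x y := by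
  unfold KB gz
  rw [dif_pos ⟨x.2, y.2⟩]

theorem R_apply (Λ : Finset (Site d)) (z : ℂ) (V : Site d → ℝ) (x t : Λ) :
    (z • (1 : Matrix Λ Λ ℂ) - HC V Λ) x t =
      -((hop (x : Site d) t : ℂ) + (if x = t then (V x : ℂ) - z else 0)) := by
  simp only [HC, HM, Matrix.sub_apply, Matrix.smul_apply, smul_eq_mul, Matrix.map_apply,
    Matrix.of_apply, Matrix.one_apply]
  split_ifs with h
  · push_cast; ring
  · push_cast; ring

theorem KB_eqn (Λ : Finset (Site d)) {z : ℂ} (hz : z.im ≠ 0) (V : Site d → ℝ) (x y : Λ) :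
    hopL Λ (fun t => KB Λ z V t y) x + ((V x : ℂ) - z) * KB Λ z V x y = if x = y then 1 else 0 := by
  have h1 := Matrix.mul_nonsing_inv (z • (1 : Matrix Λ Λ ℂ) - HC V Λ)
    (isUnit_iff_ne_zero.2 (det_ne_KB Λ hz V))
  have h2 := congrFun (congrFun h1 x) y
  rw [Matrix.mul_apply, Matrix.one_apply] at h2
  rw [← h2, hopL_apply]
  simp only [R_apply]
  have e : ((V x : ℂ) - z) * KB Λ z V x y = ∑ t : Λ, (if x = t then (V x : ℂ) - z else 0) *
      KB Λ z V t y := by
    rw [Finset.sum_eq_single x]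
    · rw [if_pos rfl]
    · intro t _ ht
      rw [if_neg (Ne.symm ht), zero_mul]
    · intro h
      exact absurd (Finset.mem_univ x) h
  rw [e, ← Finset.sum_add_distrib]
  refine Finset.sum_congr rfl fun t _ => ?_
  unfold KB
  ring

theorem KB_symm (Λ : Finset (Site d)) (z : ℂ) (V : Site d → ℝ) (x y : Λ) :
    KB Λ z V x y = KB Λ z V y x := by
  have h : (z • (1 : Matrix Λ Λ ℂ) - HC V Λ).transpose = z • (1 : Matrix Λ Λ ℂ) - HC V Λ := by
    ext a b
    rw [Matrix.transpose_apply, R_apply, R_apply, hop_comm]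
    by_cases hab : a = b
    · subst hab
      rfl
    · rw [if_neg hab, if_neg (Ne.symm hab)]
  unfold KB
  have h2 : ((z • (1 : Matrix Λ Λ ℂ) - HC V Λ)⁻¹).transpose = (z • (1 : Matrix Λ Λ ℂ) - HC V Λ)⁻¹ := by
    rw [Matrix.transpose_nonsing_inv, h]
  have h3 := congrFun (congrFun h2 y) x
  rw [Matrix.transpose_apply] at h3
  rw [h3]

theorem app_lin {ι : Type*} [DecidableEq ι] (L : (ι → ℂ) →ₗ[ℂ] (ι → ℂ)) {W : ι → ℂ} {K : Kern ι}
    (he : ∀ x y, L (fun t => K t y) x + W x * K x y = if x = y then 1 else 0) (f : ι →₀ ℂ)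
    (x : ι) : L (app K f) x + W x * app K f x = f x := by
  have e1 : app K f = ∑ y ∈ f.support, f y • fun t => K t y := by
    funext t
    unfold app
    rw [Finsupp.sum, Finset.sum_apply]
    refine Finset.sum_congr rfl fun y _ => ?_
    rw [Pi.smul_apply, smul_eq_mul, mul_comm]
  have e2 : L (app K f) x = ∑ y ∈ f.support, f y * L (fun t => K t y) x := by
    rw [e1, map_sum, Finset.sum_apply]
    refine Finset.sum_congr rfl fun y _ => ?_
    rw [map_smul, Pi.smul_apply, smul_eq_mul]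
  have e3 : W x * app K f x = ∑ y ∈ f.support, f y * (W x * K x y) := by
    unfold app
    rw [Finsupp.sum, Finset.mul_sum]
    refine Finset.sum_congr rfl fun y _ => ?_
    ring
  rw [e2, e3, ← Finset.sum_add_distrib]
  have e4 : ∀ y ∈ f.support, f y * L (fun t => K t y) x + f y * (W x * K x y) =
      if x = y then f y else 0 := by
    intro y _
    rw [← mul_add, he]
    split_ifs <;> simp
  rw [Finset.sum_congr rfl e4, Finset.sum_ite_eq]
  split_ifs with h
  · rfl
  · exact (Finsupp.notMem_support_iff.1 h).symm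

theorem ker_KB (Λ : Finset (Site d)) {z : ℂ} (hz : 0 < z.im) (V : Site d → ℝ) :
    Ker (hopL Λ) (fun i : Λ => (V i : ℂ) - z) (KB Λ z V) where
  symm := KB_symm Λ z V
  eqn := KB_eqn Λ hz.ne' V
  neg x := by simp [hz]
  pos f T := by
    set g := app (KB Λ z V) f with hg
    have hf : ∀ x, hopL Λ g x + ((V x : ℂ) - z) * g x = f x := fun x =>
      app_lin (hopL Λ) (KB_eqn Λ hz.ne' V) f x
    have h1 : form (KB Λ z V) f = ∑ x : Λ, conj (f x) * g x := by
      unfold form Finsupp.sum
      apply Finset.sum_subset (Finset.subset_univ _)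
      intro x _ hx
      have h0 : f x = 0 := Finsupp.notMem_support_iff.1 hx
      simp only [h0, map_zero, zero_mul]
    have h2 : form (KB Λ z V) f = (∑ x : Λ, conj (hopL Λ g x) * g x) +
        ∑ x : Λ, conj ((V x : ℂ) - z) * (conj (g x) * g x) := by
      rw [h1, ← Finset.sum_add_distrib]
      refine Finset.sum_congr rfl fun x _ => ?_
      rw [← hf x, map_add, map_mul]
      ring
    have h3 : (∑ x : Λ, conj (hopL Λ g x) * g x).im = 0 := by
      have h4 : conj (∑ x : Λ, conj (hopL Λ g x) * g x) = ∑ x : Λ, conj (hopL Λ g x) * g x := by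
        rw [map_sum]
        have e1 : ∀ x : Λ, conj (conj (hopL Λ g x) * g x) =
            ∑ t : Λ, (hop (x : Site d) t : ℂ) * (g t * conj (g x)) := by
          intro x
          rw [map_mul, Complex.conj_conj, hopL_apply, Finset.sum_mul]
          refine Finset.sum_congr rfl fun t _ => ?_
          ring
        have e2 : ∀ x : Λ, conj (hopL Λ g x) * g x =
            ∑ t : Λ, (hop (x : Site d) t : ℂ) * (g x * conj (g t)) := by
          intro x
          rw [hopL_apply, map_sum, Finset.sum_mul]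
          refine Finset.sum_congr rfl fun t _ => ?_
          rw [map_mul, Complex.conj_ofReal]
          ring
        calc ∑ x : Λ, conj (conj (hopL Λ g x) * g x) =
              ∑ x : Λ, ∑ t : Λ, (hop (x : Site d) t : ℂ) * (g t * conj (g x)) :=
              Finset.sum_congr rfl fun x _ => e1 x
          _ = ∑ t : Λ, ∑ x : Λ, (hop (x : Site d) t : ℂ) * (g t * conj (g x)) :=
              Finset.sum_comm
          _ = ∑ x : Λ, ∑ t : Λ, (hop (x : Site d) t : ℂ) * (g x * conj (g t)) := by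
              refine Finset.sum_congr rfl fun x _ => ?_
              refine Finset.sum_congr rfl fun t _ => ?_
              rw [hop_comm]
          _ = _ := (Finset.sum_congr rfl fun x _ => e2 x).symm
      exact Complex.conj_eq_iff_im.1 h4
    have h5 : (∑ x : Λ, conj ((V x : ℂ) - z) * (conj (g x) * g x)).im =
        ∑ x : Λ, z.im * ‖g x‖ ^ 2 := by
      rw [Complex.im_sum]
      refine Finset.sum_congr rfl fun x _ => ?_
      rw [Complex.conj_mul', ← Complex.ofReal_pow, Complex.im_mul_ofReal, Complex.conj_im]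
      simp
    rw [h2, Complex.add_im, h3, zero_add, h5]
    calc ∑ u ∈ T, (-((V u : ℂ) - z).im) * ‖g u‖ ^ 2 = ∑ u ∈ T, z.im * ‖g u‖ ^ 2 := by
          refine Finset.sum_congr rfl fun u _ => ?_
          simp
      _ ≤ _ := by
          apply Finset.sum_le_sum_of_subset_of_nonneg (Finset.subset_univ _)
          intro x _ _
          positivity

theorem KB_update (Λ : Finset (Site d)) {z : ℂ} (hz : 0 < z.im) (V : Site d → ℝ) (i : Λ) (v : ℝ) :
    KB Λ z (Function.update V i v) = upk i ((v : ℂ) - V i) (KB Λ z V) := by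
  have h := ((ker_KB Λ hz V).upd (w := (v : ℂ) - V i) (by simp) i).eqn
  set K' := upk i ((v : ℂ) - V i) (KB Λ z V) with hK'
  have h1 : (z • (1 : Matrix Λ Λ ℂ) - HC (Function.update V i v) Λ) *
      (Matrix.of fun x y => -K' x y) = 1 := by
    ext x y
    rw [Matrix.mul_apply, Matrix.one_apply, ← h x y, hopL_apply]
    simp only [R_apply, Matrix.of_apply]
    have e : (Function.update (fun i : Λ => (V i : ℂ) - z) i ((V i : ℂ) - z + ((v : ℂ) - V i))) x *
        K' x y = ∑ t : Λ, (if x = t then ((Function.update V i v x : ℝ) : ℂ) - z else 0) *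
        K' t y := by
      rw [Finset.sum_eq_single x]
      · rw [if_pos rfl]
        congr 1
        by_cases hx : x = i
        · subst hx
          rw [Function.update_self, Function.update_self]
          ring
        · rw [Function.update_of_ne hx,
            Function.update_of_ne (fun e => hx (Subtype.ext e))]
      · intro t _ ht
        rw [if_neg (Ne.symm ht), zero_mul]
      · intro h
        exact absurd (Finset.mem_univ x) h
    rw [e, ← Finset.sum_add_distrib]
    refine Finset.sum_congr rfl fun t _ => ?_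
    ring
  have h2 := Matrix.inv_eq_right_inv h1
  funext x y
  unfold KB
  rw [h2, Matrix.of_apply, neg_neg]

theorem measurable_KB (Λ : Finset (Site d)) (z : ℂ) (x y : Λ) :
    Measurable fun V => KB Λ z V x y := by
  unfold KB
  have hc : Continuous fun V : Site d → ℝ => z • (1 : Matrix Λ Λ ℂ) - HC V Λ := by
    refine continuous_matrix fun a b => ?_
    simp only [R_apply]
    refine Continuous.neg (continuous_const.add ?_)
    split_ifs
    · exact (Complex.continuous_ofReal.comp (continuous_apply _)).sub continuous_const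
    · exact continuous_const
  simp only [Matrix.inv_def, Matrix.smul_apply, smul_eq_mul, Ring.inverse_eq_inv']
  refine Measurable.neg (Measurable.mul ?_ ?_)
  · exact (hc.matrix_det.measurable).inv
  · exact (hc.matrix_adjugate.matrix_elem x y).measurable

theorem fam_KB (Λ : Finset (Site d)) {z : ℂ} (hz : 0 < z.im) :
    Fam (hopL Λ) (fun i : Λ => (i : Site d)) z (KB Λ z) where
  ker V := ker_KB Λ hz V
  upd V i v := KB_update Λ hz V i v
  inj := Subtype.val_injective
  meas := measurable_KB Λ z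

/-- convergence to the real energy -/
theorem tendsto_KB {Λ : Finset (Site d)} {E : ℝ} {V : Site d → ℝ} (h : (RM V Λ E).det ≠ 0)
    {e : ℕ → ℝ} (he : Tendsto e atTop (𝓝 0)) (x y : Λ) :
    Tendsto (fun k => KB Λ (zz (e k) E) V x y) atTop (𝓝 (-(gr V Λ E x y : ℂ))) := by
  have h1 : Tendsto (fun k => zz (e k) E) atTop (𝓝 (E : ℂ)) := by
    unfold zz
    have h2 : Tendsto (fun k => (e k : ℂ) * Complex.I) atTop (𝓝 ((0 : ℝ) * Complex.I)) :=
      ((Complex.continuous_ofReal.tendsto 0).comp he).mul_const _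
    have h3 := h2.const_add (E : ℂ)
    simpa using h3
  have h4 : KB Λ (E : ℂ) V x y = -(gr V Λ E x y : ℂ) := by
    rw [KB_eq_gz, H11.gz_real]
  rw [← h4]
  have hc : Continuous fun z : ℂ => z • (1 : Matrix Λ Λ ℂ) - HC V Λ := by fun_prop
  have hca : ContinuousAt (fun z : ℂ => KB Λ z V x y) (E : ℂ) := by
    unfold KB
    simp only [Matrix.inv_def, Matrix.smul_apply, smul_eq_mul, Ring.inverse_eq_inv']
    refine ContinuousAt.neg (ContinuousAt.mul ?_ ?_)
    · apply ContinuousAt.inv₀ hc.matrix_det.continuousAt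
      rw [H11.det_map_RM]
      exact_mod_cast h
    · exact (hc.matrix_adjugate.matrix_elem x y).continuousAt
  exact hca.tendsto.comp h1

end Pool.Agent.LY
end
end -- Pool.Agent.Helper54_LY.Box

section -- Pool.Agent.Helper54_LY.Low

/-!
# The negative moments of the Green function at neighbouring sites, and the one site inequality
-/

set_option autoImplicit false
set_option linter.unusedSectionVars false

open scoped InnerProductSpace ComplexConjugate Topology ENNReal
open MeasureTheory Filter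

noncomputable section

namespace Pool.Agent.LY

open Pool.Agent.Anderson Pool.Agent.Loc Pool.Agent.Mob Pool.Agent.Helper54.Bal

variable {d : ℕ}

theorem one_le_hop {x y : Site d} (h : hop x y ≠ 0) : 1 ≤ hop x y := by
  unfold hop at h ⊢
  by_contra hc
  push Not at hc
  apply h
  apply Finset.sum_eq_zero
  intro i hi
  by_contra hne
  have h1 : (1 : ℝ) ≤ (if y = x + Pi.single i 1 then (1 : ℝ) else 0) +
      (if y = x - Pi.single i 1 then (1 : ℝ) else 0) := by
    split_ifs at hne ⊢ with h2 h3 h3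
    · norm_num
    · norm_num
    · norm_num
    · simp at hne
  have h2 := Finset.single_le_sum (f := fun i => (if y = x + Pi.single i 1 then (1 : ℝ) else 0) +
    (if y = x - Pi.single i 1 then (1 : ℝ) else 0)) (fun j _ => by positivity) hi
  exact absurd (h1.trans h2) (not_le.2 hc)

section det

variable {Λ : Finset (Site d)} {W : Λ → ℂ} {K : Kern Λ} (h : Ker (hopL Λ) W K) {M : ℝ}
include h

theorem hop_sum_le (s : Λ) {b : ℝ} (hb : 0 ≤ b) {y : Λ} (hK : ∀ t : Λ, hop (s : Site d) t ≠ 0 → ‖K t y‖ ≤ b) :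
    ‖hopL Λ (fun t => K t y) s‖ ≤ 2 * d * b := by
  rw [hopL_apply]
  calc ‖∑ t : Λ, (hop (s : Site d) t : ℂ) * K t y‖ ≤ ∑ t : Λ, hop (s : Site d) t * b := by
        refine norm_sum_le_of_le _ fun t _ => ?_
        rw [norm_mul, Complex.norm_real, Real.norm_of_nonneg (hop_nonneg _ _)]
        by_cases h0 : hop (s : Site d) t = 0
        · rw [h0]; simp
        · exact mul_le_mul_of_nonneg_left (hK t h0) (hop_nonneg _ _)
    _ = (∑ t ∈ Λ, hop (s : Site d) t) * b := by
        rw [← Finset.sum_mul, Finset.sum_coe_sort Λ (fun t => hop (s : Site d) t)]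
    _ ≤ _ := mul_le_mul_of_nonneg_right (sum_hop_le _ _) hb

/-- lower bound if the potential is `- i M` near `x` -/
theorem lower (hM : 32 * (d : ℝ) ^ 2 + 4 ≤ M) {x y : Λ}
    (hxy : x = y ∨ hop (x : Site d) y ≠ 0)
    (hW : ∀ t : Λ, sd (x : Site d) t ≤ 2 → (W t).im ≤ -M ∧ ‖W t‖ ≤ 2 * M) :
    1 / (16 * M ^ 2) ≤ ‖K x y‖ := by
  have hM0 : 0 < M := by
    have : 0 ≤ 32 * (d : ℝ) ^ 2 := by positivity
    linarith only [hM, this]
  have hM1 : 1 ≤ M := by
    have : 0 ≤ 32 * (d : ℝ) ^ 2 := by positivity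
    linarith only [hM, this]
  have hd0 : (0 : ℝ) ≤ d := Nat.cast_nonneg d
  have h2d : 2 * (d : ℝ) / M ≤ 1 / 2 := by
    rw [div_le_iff₀ hM0]
    nlinarith only [sq_nonneg ((d : ℝ) - 1), hM]
  have hxy1 : sd (x : Site d) y ≤ 1 := by
    rcases hxy with rfl | h1
    · rw [sd_self]; norm_num
    · exact sd_of_hop h1
  have hnW : ∀ t : Λ, sd (x : Site d) t ≤ 2 → M ≤ ‖W t‖ := by
    intro t ht
    have h1 := (hW t ht).1
    have h2 := Complex.abs_im_le_norm (W t)
    have h3 : M ≤ |(W t).im| := by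
      rw [abs_of_nonpos (by linarith only [hM0, h1])]
      linarith only [h1]
    linarith only [h2, h3]
  -- upper bounds
  have hyy : ‖K y y‖ ≤ 1 / M := by
    have h1 := h.col y {y}
    rw [Finset.sum_singleton] at h1
    have h2 := (hW y (hxy1.trans (by norm_num))).1
    have h3 : (K y y).im ≤ ‖K y y‖ := (le_abs_self _).trans (Complex.abs_im_le_norm _)
    have h4 : M * ‖K y y‖ ^ 2 ≤ ‖K y y‖ := by
      have : M * ‖K y y‖ ^ 2 ≤ -(W y).im * ‖K y y‖ ^ 2 :=
        mul_le_mul_of_nonneg_right (by linarith only [h2]) (by positivity)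
      linarith only [h1, h3, this]
    have h5 : 0 < ‖K y y‖ := norm_pos_iff.2 (h.ne_zero y)
    rw [le_div_iff₀ hM0]
    have h6 : M * ‖K y y‖ * ‖K y y‖ ≤ 1 * ‖K y y‖ := by nlinarith only [h4]
    have := le_of_mul_le_mul_right h6 h5
    linarith only [this]
  have hup : ∀ t : Λ, sd (x : Site d) t ≤ 2 → ‖K t y‖ ≤ 1 / M := by
    intro t ht
    have h1 := h.col y {t}
    rw [Finset.sum_singleton] at h1
    have h2 := (hW t ht).1
    have h3 : (K y y).im ≤ ‖K y y‖ := (le_abs_self _).trans (Complex.abs_im_le_norm _)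
    have h4 : M * ‖K t y‖ ^ 2 ≤ 1 / M := by
      have : M * ‖K t y‖ ^ 2 ≤ -(W t).im * ‖K t y‖ ^ 2 :=
        mul_le_mul_of_nonneg_right (by linarith only [h2]) (by positivity)
      linarith only [hyy, h1, h3, this]
    have h5 : ‖K t y‖ ^ 2 ≤ (1 / M) ^ 2 := by
      rw [div_pow, one_pow, le_div_iff₀ (by positivity)]
      rw [le_div_iff₀ hM0] at h4
      nlinarith only [h4]
    exact (pow_le_pow_iff_left₀ (norm_nonneg _) (by positivity) two_ne_zero).1 h5
  have hnb : ∀ s : Λ, sd (x : Site d) s ≤ 1 → ‖hopL Λ (fun t => K t y) s‖ ≤ 2 * d / M := by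
    intro s hs
    have h1 := hop_sum_le h s (b := 1 / M) (by positivity) (y := y) (fun t ht => by
      apply hup
      have h2 := sd_of_hop ht
      have h3 := sd_triangle (x : Site d) s t
      omega)
    calc _ ≤ 2 * d * (1 / M) := h1
      _ = _ := by ring
  -- the diagonal element
  have hdiag : 1 / (4 * M) ≤ ‖K y y‖ := by
    have h1 := h.eqn y y
    rw [if_pos rfl] at h1
    have h2 := hnb y hxy1
    have h3 : W y * K y y = 1 - hopL Λ (fun t => K t y) y := by linear_combination h1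
    have h4 : 1 / 2 ≤ ‖W y * K y y‖ := by
      rw [h3]
      have h5 := norm_sub_norm_le (1 : ℂ) (hopL Λ (fun t => K t y) y)
      rw [norm_one] at h5
      linarith only [h2d, h2, h5]
    rw [norm_mul] at h4
    have h6 := (hW y (hxy1.trans (by norm_num))).2
    have h7 : 1 / 2 ≤ 2 * M * ‖K y y‖ := h4.trans (mul_le_mul_of_nonneg_right h6 (norm_nonneg _))
    rw [div_le_iff₀ (by positivity)]
    nlinarith only [h7]
  have hfin : 1 / (16 * M ^ 2) ≤ 1 / (4 * M) := by
    apply one_div_le_one_div_of_le (by positivity)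
    nlinarith only [hM]
  rcases hxy with rfl | hne
  · exact hfin.trans hdiag
  · by_cases hxye : x = y
    · subst hxye
      exact hfin.trans hdiag
    have hoff : ∀ s : Λ, hop (x : Site d) s ≠ 0 → s ≠ y → ‖K s y‖ ≤ 2 * d / M ^ 2 := by
      intro s hs hsy
      have h1 := h.eqn s y
      rw [if_neg hsy] at h1
      have h2 := hnb s (sd_of_hop hs)
      have h3 : ‖W s * K s y‖ ≤ 2 * d / M := by
        have : W s * K s y = -hopL Λ (fun t => K t y) s := by linear_combination h1
        rw [this, norm_neg]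
        exact h2
      rw [norm_mul] at h3
      have h4 := hnW s ((sd_of_hop hs).trans (by norm_num))
      have h5 : M * ‖K s y‖ ≤ 2 * d / M :=
        (mul_le_mul_of_nonneg_right h4 (norm_nonneg _)).trans h3
      rw [le_div_iff₀ (by positivity)]
      rw [le_div_iff₀ hM0] at h5
      nlinarith only [h5]
    have h1 := h.eqn x y
    rw [if_neg hxye, hopL_apply] at h1
    rw [← Finset.add_sum_erase _ _ (Finset.mem_univ y)] at h1
    set S : ℂ := ∑ t ∈ Finset.univ.erase y, (hop (x : Site d) t : ℂ) * K t y with hS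
    have hSle : ‖S‖ ≤ 2 * d * (2 * d / M ^ 2) := by
      calc ‖S‖ ≤ ∑ t ∈ (Finset.univ : Finset Λ).erase y, hop (x : Site d) t * (2 * d / M ^ 2) := by
            refine norm_sum_le_of_le _ fun t ht => ?_
            rw [norm_mul, Complex.norm_real, Real.norm_of_nonneg (hop_nonneg _ _)]
            by_cases h0 : hop (x : Site d) t = 0
            · rw [h0]; simp
            · exact mul_le_mul_of_nonneg_left (hoff t h0 (Finset.ne_of_mem_erase ht))
                (hop_nonneg _ _)
        _ ≤ ∑ t : Λ, hop (x : Site d) t * (2 * d / M ^ 2) := by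
            apply Finset.sum_le_sum_of_subset_of_nonneg (Finset.erase_subset _ _)
            intro t _ _
            have := hop_nonneg (x : Site d) t
            positivity
        _ = (∑ t ∈ Λ, hop (x : Site d) t) * (2 * d / M ^ 2) := by
            rw [← Finset.sum_mul, Finset.sum_coe_sort Λ (fun t => hop (x : Site d) t)]
        _ ≤ _ := mul_le_mul_of_nonneg_right (sum_hop_le _ _) (by positivity)
    have h2 : W x * K x y = -((hop (x : Site d) y : ℂ) * K y y) - S := by linear_combination h1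
    have h3 : 1 / (8 * M) ≤ ‖W x * K x y‖ := by
      rw [h2]
      have h4 := norm_sub_norm_le (-((hop (x : Site d) y : ℂ) * K y y)) S
      rw [norm_neg, norm_mul, Complex.norm_real, Real.norm_of_nonneg (hop_nonneg _ _)] at h4
      have h5 : 1 / (4 * M) ≤ hop (x : Site d) y * ‖K y y‖ := by
        have := one_le_hop hne
        nlinarith only [norm_nonneg (K y y), hdiag, this]
      have h6 : 2 * (d : ℝ) * (2 * d / M ^ 2) ≤ 1 / (8 * M) := by
        rw [mul_div_assoc', div_le_div_iff₀ (by positivity) (by positivity)]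
        nlinarith only [hM]
      have h7 : 1 / (4 * M) = 1 / (8 * M) + 1 / (8 * M) := by
        field_simp
        norm_num
      linarith only [hSle, h4, h5, h6, h7]
    rw [norm_mul] at h3
    have h8 := (hW x (by rw [sd_self]; norm_num)).2
    have h9 : 1 / (8 * M) ≤ 2 * M * ‖K x y‖ := h3.trans
      (mul_le_mul_of_nonneg_right h8 (norm_nonneg _))
    rw [div_le_iff₀ (by positivity)] at h9 ⊢
    nlinarith only [h9]

end det

/-- the constant -/
def Clow (d : ℕ) (ν : Measure ℝ) (ρ M : ℝ) : ℝ≥0∞ :=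
  (CC ν ρ M) ^ (5 ^ d) * (ENNReal.ofReal (1 / (16 * M ^ 2))) ^ (-(1 / 4) : ℝ)

theorem one_le_CC {ν : Measure ℝ} {ρ M : ℝ} (hM : 1 ≤ M) : 1 ≤ CC ν ρ M := by
  unfold CC
  have h1 : (1 : ℝ≥0∞) ≤ ENNReal.ofReal M := by
    rw [← ENNReal.ofReal_one]
    exact ENNReal.ofReal_le_ofReal hM
  have h2 : (1 : ℝ≥0∞) ≤ 2 + mom1 ν + ENNReal.ofReal (1 + 2 * ρ) := by
    calc (1 : ℝ≥0∞) ≤ 2 := by norm_num
      _ ≤ 2 + (mom1 ν + ENNReal.ofReal (1 + 2 * ρ)) := le_self_add
      _ = _ := by rw [add_assoc]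
  calc (1 : ℝ≥0∞) = 1 * 1 := (one_mul 1).symm
    _ ≤ _ := mul_le_mul' h1 h2

section prob

variable {ν : Measure ℝ} [IsProbabilityMeasure ν] {ρ : ℝ}

/-- complex energy, all other potentials fixed -/
theorem low_marg (hν : BddDens ν ρ) {M : ℝ} (hM : 32 * (d : ℝ) ^ 2 + 4 ≤ M) (Λ : Finset (Site d))
    {z : ℂ} (hz : 0 < z.im) (hzM : ‖z‖ ≤ M) {x y : Λ}
    (hxy : x = y ∨ hop (x : Site d) y ≠ 0) :
    ∃ S ⊆ Λ, ∀ V, (∫⋯∫⁻_S, (fun V => (en (KB Λ z V x y)) ^ (-(1 / 4) : ℝ)) ∂(fun _ => ν)) V ≤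
      Clow d ν ρ M := by
  classical
  have hM1 : 1 ≤ M := by
    have : 0 ≤ 32 * (d : ℝ) ^ 2 := by positivity
    linarith only [hM, this]
  set B : Finset Λ := Finset.univ.filter fun t => sd (x : Site d) t ≤ 2 with hB
  refine ⟨B.image fun i : Λ => (i : Site d), ?_, fun V => ?_⟩
  · intro s hs
    obtain ⟨i, _, rfl⟩ := Finset.mem_image.1 hs
    exact i.2
  have hcard : B.card ≤ 5 ^ d := by
    have h1 : (B.image fun i : Λ => (i : Site d)).card = B.card :=
      Finset.card_image_of_injective _ Subtype.val_injective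
    have h2 : (B.image fun i : Λ => (i : Site d)) ⊆ box (x : Site d) 2 := by
      intro s hs
      obtain ⟨i, hi, rfl⟩ := Finset.mem_image.1 hs
      rw [mem_box]
      exact (Finset.mem_filter.1 hi).2
    have h3 := Finset.card_le_card h2
    rw [h1, card_box] at h3
    exact h3
  have h := (fam_KB Λ hz).neg_many hν hM1 (x := x) (y := y)
    (b := (ENNReal.ofReal (1 / (16 * M ^ 2))) ^ (-(1 / 4) : ℝ)) (B := B) ?_ V
  · refine h.trans ?_
    unfold Clow
    gcongr
    exact one_le_CC hM1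
  · intro l hl hlB V
    have hk := (fam_KB Λ hz).ker_KL (M := M) (by linarith only [hM1]) hl V
    have hlow := lower hk hM hxy (fun t ht => by
      have htl : t ∈ l := (hlB t).2 (Finset.mem_filter.2 ⟨Finset.mem_univ _, ht⟩)
      simp only [if_pos htl]
      constructor
      · simp only [Complex.sub_im, Complex.neg_im, Complex.mul_im, Complex.ofReal_re,
          Complex.I_im, Complex.ofReal_im, Complex.I_re]
        linarith only [hz]
      · refine (norm_sub_le _ _).trans ?_
        rw [norm_neg, norm_mul, Complex.norm_I, Complex.norm_real,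
          Real.norm_of_nonneg (by linarith)]
        linarith only [hzM])
    rw [ENNReal.rpow_neg, ENNReal.rpow_neg]
    apply ENNReal.inv_le_inv.2
    apply ENNReal.rpow_le_rpow _ (by norm_num)
    exact ENNReal.ofReal_le_ofReal hlow

/-- LOW: the negative moment of the Green function at neighbouring sites (or at the same site) of
a finite set. -/
theorem low (hν : BddDens ν ρ) {M : ℝ} (hM : 32 * (d : ℝ) ^ 2 + 4 ≤ M) (Λ : Finset (Site d))
    {E : ℝ} (hE : |E| + 1 ≤ M) {x y : Site d} (hx : x ∈ Λ) (hy : y ∈ Λ)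
    (hxy : x = y ∨ hop x y ≠ 0) :
    ∫⁻ V, (ENNReal.ofReal |gr V Λ E x y|) ^ (-(1 / 4) : ℝ) ∂(PL ν Λ) ≤ Clow d ν ρ M := by
  set e : ℕ → ℝ := fun k => 1 / ((k : ℝ) + 1) with he
  have he0 : Tendsto e atTop (𝓝 0) := tendsto_one_div_add_atTop_nhds_zero_nat
  have hep : ∀ k, 0 < e k := fun k => by rw [he]; positivity
  have he1 : ∀ k, e k ≤ 1 := fun k => by
    rw [he]
    simp only
    rw [div_le_one (by positivity)]
    have : (0 : ℝ) ≤ k := Nat.cast_nonneg k
    linarith
  set x' : Λ := ⟨x, hx⟩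
  set y' : Λ := ⟨y, hy⟩
  have hxy' : x' = y' ∨ hop (x' : Site d) y' ≠ 0 := by
    rcases hxy with rfl | h
    · left; rfl
    · right; exact h
  have hm : ∀ k, Measurable fun V => (en (KB Λ (zz (e k) E) V x' y')) ^ (-(1 / 4) : ℝ) := fun k =>
    ((measurable_KB Λ _ x' y').norm.ennreal_ofReal).pow_const _
  have hae : ∀ᵐ V ∂(PL ν Λ), (RM V Λ E).det ≠ 0 := by
    rw [ae_iff]
    have : {V : Site d → ℝ | ¬ (RM V Λ E).det ≠ 0} = {V | (RM V Λ E).det = 0} := by
      ext; simp
    rw [this]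
    exact PL_det hν Λ Λ le_rfl E
  calc ∫⁻ V, (ENNReal.ofReal |gr V Λ E x y|) ^ (-(1 / 4) : ℝ) ∂(PL ν Λ)
      = ∫⁻ V, liminf (fun k => (en (KB Λ (zz (e k) E) V x' y')) ^ (-(1 / 4) : ℝ)) atTop
          ∂(PL ν Λ) := by
        refine lintegral_congr_ae ?_
        filter_upwards [hae] with V hV
        have h1 := tendsto_KB hV he0 x' y'
        have h2 : Tendsto (fun k => en (KB Λ (zz (e k) E) V x' y')) atTop
            (𝓝 (en (-(gr V Λ E x y : ℂ)))) :=
          ENNReal.tendsto_ofReal h1.norm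
        have h3 := (ENNReal.continuous_rpow_const (y := -(1 / 4))).tendsto _ |>.comp h2
        have h4 : en (-(gr V Λ E x y : ℂ)) = ENNReal.ofReal |gr V Λ E x y| := by
          unfold en
          rw [norm_neg, Complex.norm_real, Real.norm_eq_abs]
        rw [h4] at h3
        exact h3.liminf_eq.symm
    _ ≤ liminf (fun k => ∫⁻ V, (en (KB Λ (zz (e k) E) V x' y')) ^ (-(1 / 4) : ℝ) ∂(PL ν Λ))
          atTop := lintegral_liminf_le hm
    _ ≤ Clow d ν ρ M := by
        refine liminf_le_of_frequently_le' (Frequently.of_forall fun k => ?_)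
        have hz : 0 < (zz (e k) E).im := by rw [zz_im]; exact hep k
        have hzM : ‖zz (e k) E‖ ≤ M := by
          unfold zz
          refine (norm_add_le _ _).trans ?_
          rw [norm_mul, Complex.norm_I, mul_one, Complex.norm_real, Complex.norm_real,
            Real.norm_eq_abs, Real.norm_of_nonneg (hep k).le]
          have := he1 k
          linarith only [hE, this]
        obtain ⟨S, hS, hb⟩ := low_marg hν hM Λ hz hzM hxy'
        exact PL_le_of_marg hS (hm k) hb

/-- complex energy, all other potentials fixed -/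
theorem one_marg (hν : BddDens ν ρ) (Λ : Finset (Site d)) {z : ℂ} (hz : 0 < z.im) (u x y : Λ)
    {τ : ℝ} (hτ : 0 < τ) (V : Site d → ℝ) :
    (∫⋯∫⁻_{(u : Site d)}, ({V | τ * ‖KB Λ z V x y‖ < ‖KB Λ z V x u‖ * ‖KB Λ z V u y‖}.indicator
      1) ∂(fun _ => ν)) V ≤ ENNReal.ofReal (8 * ρ / τ) := by
  have hρ := hν.1
  have hf := fam_KB Λ hz
  have hmS : MeasurableSet {V | τ * ‖KB Λ z V x y‖ < ‖KB Λ z V x u‖ * ‖KB Λ z V u y‖} :=
    measurableSet_lt ((measurable_KB Λ z x y).norm.const_mul _)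
      ((measurable_KB Λ z x u).norm.mul (measurable_KB Λ z u y).norm)
  rw [lmarginal_singleton]
  set V' := Function.update V (u : Site d) 0 with hV'
  have hk := hf.ker V'
  have hupd : ∀ v : ℝ, KB Λ z (Function.update V (u : Site d) v) = upk u (v : ℂ) (KB Λ z V') := by
    intro v
    have e := hf.upd V' u v
    rw [hV', Function.update_idem, Function.update_self, Complex.ofReal_zero, sub_zero] at e
    exact e
  set K := KB Λ z V' with hK
  set a : ℂ := -K x y / (K u u * K x y - K x u * K u y) with ha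
  set a' : ℂ := -1 / K u u with ha'
  have hsub : {v : ℝ | τ * ‖upk u (v : ℂ) K x y‖ < ‖upk u (v : ℂ) K x u‖ * ‖upk u (v : ℂ) K u y‖} ⊆
      Set.Icc (a.re - 2 / τ) (a.re + 2 / τ) ∪ Set.Icc (a'.re - 2 / τ) (a'.re + 2 / τ) ∪
        {v : ℝ | upk u (v : ℂ) K x y = 0 ∧ upk u (v : ℂ) K x u ≠ 0 ∧ upk u (v : ℂ) K u y ≠ 0} := by
    intro v hv
    simp only [Set.mem_ofPred_eq] at hv
    by_cases hN : upk u (v : ℂ) K x y = 0
    · right
      rw [hN, norm_zero, mul_zero] at hv
      refine ⟨hN, fun h0 => ?_, fun h0 => ?_⟩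
      · rw [h0, norm_zero, zero_mul] at hv
        exact lt_irrefl _ hv
      · rw [h0, norm_zero, mul_zero] at hv
        exact lt_irrefl _ hv
    left
    have h1 := hk.ratio_le u x y v hN
    rw [← ha, ← ha'] at h1
    have hNp : 0 < ‖upk u (v : ℂ) K x y‖ := norm_pos_iff.2 hN
    have h2 : τ < ‖(v : ℂ) - a‖⁻¹ + ‖(v : ℂ) - a'‖⁻¹ := by
      refine lt_of_lt_of_le ?_ h1
      rw [lt_div_iff₀ hNp]
      exact hv
    have key : ∀ b : ℂ, τ / 2 < ‖(v : ℂ) - b‖⁻¹ → v ∈ Set.Icc (b.re - 2 / τ) (b.re + 2 / τ) := by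
      intro b hb
      have h3 : 0 < ‖(v : ℂ) - b‖ := by
        by_contra hcon
        have h4 : ‖(v : ℂ) - b‖ = 0 := le_antisymm (not_lt.1 hcon) (norm_nonneg _)
        rw [h4, inv_zero] at hb
        linarith only [hτ, hb]
      have h5 : ‖(v : ℂ) - b‖ < 2 / τ := by
        rw [lt_div_iff₀ hτ]
        have h6 : τ / 2 * ‖(v : ℂ) - b‖ < 1 := by
          rw [← one_div, lt_div_iff₀ h3] at hb
          exact hb
        nlinarith only [h6]
      have h7 : |v - b.re| ≤ ‖(v : ℂ) - b‖ := by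
        have := Complex.abs_re_le_norm ((v : ℂ) - b)
        simpa using this
      have h8 := abs_le.1 (h7.trans h5.le)
      constructor <;> linarith only [h8]
    by_cases h9 : τ / 2 < ‖(v : ℂ) - a‖⁻¹
    · left; exact key a h9
    · right
      apply key a'
      push Not at h9
      linarith only [h2, h9]
  have hnull : ν {v : ℝ | upk u (v : ℂ) K x y = 0 ∧ upk u (v : ℂ) K x u ≠ 0 ∧
      upk u (v : ℂ) K u y ≠ 0} = 0 := by
    have hsub2 : {v : ℝ | upk u (v : ℂ) K x y = 0 ∧ upk u (v : ℂ) K x u ≠ 0 ∧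
        upk u (v : ℂ) K u y ≠ 0} ⊆ {a.re} := by
      rintro v ⟨h1, h2, h3⟩
      have hD := hk.den_ne (w := (v : ℂ)) (by simp) u
      rw [upk_eq hD] at h1 h2 h3
      set q := K u u * K x y - K x u * K u y with hq
      have h4 : K x y + v * q = 0 := by
        rcases div_eq_zero_iff.1 h1 with h | h
        · exact h
        · exact absurd h hD
      have h5 : K x u ≠ 0 := by
        intro h0
        apply h2
        rw [h0]; simp
      have h6 : K u y ≠ 0 := by
        intro h0
        apply h3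
        rw [h0]; simp
      have hq0 : q ≠ 0 := by
        intro h0
        rw [h0, mul_zero, add_zero] at h4
        rw [hq, h4, mul_zero, zero_sub, neg_eq_zero] at h0
        rcases mul_eq_zero.1 h0 with h | h
        · exact h5 h
        · exact h6 h
      have h7 : (v : ℂ) = a := by
        rw [ha]
        field_simp
        linear_combination h4
      rw [Set.mem_singleton_iff, ← h7, Complex.ofReal_re]
    exact le_antisymm ((measure_mono hsub2).trans (null_singleton hν _).le) zero_le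
  calc ∫⁻ v, ({V | τ * ‖KB Λ z V x y‖ < ‖KB Λ z V x u‖ * ‖KB Λ z V u y‖}.indicator 1 :
        (Site d → ℝ) → ℝ≥0∞) (Function.update V (u : Site d) v) ∂ν
      = ν {v : ℝ | τ * ‖upk u (v : ℂ) K x y‖ < ‖upk u (v : ℂ) K x u‖ * ‖upk u (v : ℂ) K u y‖} := by
        have hms : MeasurableSet {v : ℝ | τ * ‖upk u (v : ℂ) K x y‖ <
            ‖upk u (v : ℂ) K x u‖ * ‖upk u (v : ℂ) K u y‖} := by
          have hmu : Measurable fun v : ℝ => Function.update V (u : Site d) v :=
            measurable_update V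
          have := hmu hmS
          refine (MeasurableSet.congr this ?_)
          ext v
          simp only [Set.mem_preimage, Set.mem_ofPred_eq, hupd]
        rw [← lintegral_indicator_one hms]
        refine lintegral_congr fun v => ?_
        by_cases hv : τ * ‖upk u (v : ℂ) K x y‖ < ‖upk u (v : ℂ) K x u‖ * ‖upk u (v : ℂ) K u y‖
        · rw [Set.indicator_of_mem (by simpa only [Set.mem_ofPred_eq, hupd] using hv),
            Set.indicator_of_mem (by simpa only [Set.mem_ofPred_eq] using hv)]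
          rfl
        · rw [Set.indicator_of_notMem (by simpa only [Set.mem_ofPred_eq, hupd] using hv),
            Set.indicator_of_notMem (by simpa only [Set.mem_ofPred_eq] using hv)]
    _ ≤ ν (Set.Icc (a.re - 2 / τ) (a.re + 2 / τ)) + ν (Set.Icc (a'.re - 2 / τ) (a'.re + 2 / τ)) +
        0 := by
        refine (measure_mono hsub).trans ((measure_union_le _ _).trans ?_)
        rw [hnull]
        gcongr
        exact measure_union_le _ _
    _ ≤ ENNReal.ofReal (ρ * (4 / τ)) + ENNReal.ofReal (ρ * (4 / τ)) + 0 := by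
        gcongr
        · refine (hν.2 _ _).trans (le_of_eq ?_)
          congr 2; ring
        · refine (hν.2 _ _).trans (le_of_eq ?_)
          congr 2; ring
    _ = _ := by
        rw [add_zero, ← ENNReal.ofReal_add (by positivity) (by positivity)]
        congr 1
        ring

/-- ONE: the one site inequality in a finite set. -/
theorem one (hν : BddDens ν ρ) (Λ : Finset (Site d)) (E : ℝ) (u x y : Site d) {τ : ℝ}
    (hτ : 0 < τ) :
    PL ν Λ {V | τ * |gr V Λ E x y| < |gr V Λ E x u| * |gr V Λ E u y|} ≤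
      ENNReal.ofReal (8 * ρ / τ) := by
  by_cases hmem : x ∈ Λ ∧ y ∈ Λ ∧ u ∈ Λ
  swap
  · have : {V : Site d → ℝ | τ * |gr V Λ E x y| < |gr V Λ E x u| * |gr V Λ E u y|} = ∅ := by
      ext V
      simp only [Set.mem_ofPred_eq, Set.mem_empty_iff_false, iff_false, not_lt]
      have h0 : |gr V Λ E x u| * |gr V Λ E u y| = 0 := by
        by_cases hx : x ∈ Λ
        · by_cases hy : y ∈ Λ
          · have hu : u ∉ Λ := fun hu => hmem ⟨hx, hy, hu⟩
            have : gr V Λ E x u = 0 := by
              unfold gr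
              rw [dif_neg (fun h => hu h.2)]
            rw [this]; simp
          · have : gr V Λ E u y = 0 := by
              unfold gr
              rw [dif_neg (fun h => hy h.2)]
            rw [this]; simp
        · have : gr V Λ E x u = 0 := by
            unfold gr
            rw [dif_neg (fun h => hx h.1)]
          rw [this]; simp
      rw [h0]
      positivity
    rw [this, measure_empty]
    exact zero_le
  obtain ⟨hx, hy, hu⟩ := hmem
  set x' : Λ := ⟨x, hx⟩
  set y' : Λ := ⟨y, hy⟩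
  set u' : Λ := ⟨u, hu⟩
  set e : ℕ → ℝ := fun k => 1 / ((k : ℝ) + 1) with he
  have he0 : Tendsto e atTop (𝓝 0) := tendsto_one_div_add_atTop_nhds_zero_nat
  have hep : ∀ k, 0 < e k := fun k => by rw [he]; positivity
  set S : Set (Site d → ℝ) := {V | τ * |gr V Λ E x y| < |gr V Λ E x u| * |gr V Λ E u y|} with hS
  set T : ℕ → Set (Site d → ℝ) := fun k => {V | τ * ‖KB Λ (zz (e k) E) V x' y'‖ <
    ‖KB Λ (zz (e k) E) V x' u'‖ * ‖KB Λ (zz (e k) E) V u' y'‖} with hT
  have hmS : MeasurableSet S :=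
    measurableSet_lt ((measurable_gr Λ E x y).abs.const_mul _)
      ((measurable_gr Λ E x u).abs.mul (measurable_gr Λ E u y).abs)
  have hmT : ∀ k, MeasurableSet (T k) := fun k =>
    measurableSet_lt ((measurable_KB Λ _ x' y').norm.const_mul _)
      ((measurable_KB Λ _ x' u').norm.mul (measurable_KB Λ _ u' y').norm)
  have hae : ∀ᵐ V ∂(PL ν Λ), (RM V Λ E).det ≠ 0 := by
    rw [ae_iff]
    have : {V : Site d → ℝ | ¬ (RM V Λ E).det ≠ 0} = {V | (RM V Λ E).det = 0} := by
      ext; simp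
    rw [this]
    exact PL_det hν Λ Λ le_rfl E
  rw [← lintegral_indicator_one hmS]
  calc ∫⁻ V, S.indicator 1 V ∂(PL ν Λ)
      ≤ ∫⁻ V, liminf (fun k => (T k).indicator 1 V) atTop ∂(PL ν Λ) := by
        refine lintegral_mono_ae ?_
        filter_upwards [hae] with V hV
        by_cases hVS : V ∈ S
        · have h1 := (tendsto_KB hV he0 x' y').norm
          have h2 := (tendsto_KB hV he0 x' u').norm
          have h3 := (tendsto_KB hV he0 u' y').norm
          have hn : ∀ r : ℝ, ‖(-(r : ℂ))‖ = |r| := fun r => by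
            rw [norm_neg, Complex.norm_real, Real.norm_eq_abs]
          rw [hn] at h1 h2 h3
          have h4 : ∀ᶠ k in atTop, V ∈ T k := (h1.const_mul τ).eventually_lt (h2.mul h3) hVS
          rw [Set.indicator_of_mem hVS]
          refine le_liminf_of_le (by isBoundedDefault) ?_
          filter_upwards [h4] with k hk
          rw [Set.indicator_of_mem hk]
        · rw [Set.indicator_of_notMem hVS]
          exact zero_le
    _ ≤ liminf (fun k => ∫⁻ V, (T k).indicator 1 V ∂(PL ν Λ)) atTop :=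
        lintegral_liminf_le fun k => measurable_one.indicator (hmT k)
    _ ≤ _ := by
        refine liminf_le_of_frequently_le' (Frequently.of_forall fun k => ?_)
        have hz : 0 < (zz (e k) E).im := by rw [zz_im]; exact hep k
        refine PL_le_of_marg (S := {u}) (by simpa using hu) (measurable_one.indicator (hmT k)) ?_
        intro V
        exact one_marg hν Λ hz u' x' y' hτ V

end prob

end Pool.Agent.LY
end
end -- Pool.Agent.Helper54_LY.Low

section -- Pool.Agent.Helper54_LY.Fin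

/-!
# Gaussian potentials: the constants are finite, and the one site inequality in the form OneTail
-/

set_option autoImplicit false
set_option linter.unusedSectionVars false

open scoped InnerProductSpace ComplexConjugate Topology ENNReal
open MeasureTheory Filter ProbabilityTheory

noncomputable section

namespace Pool.Agent.LY

open Pool.Agent.Anderson Pool.Agent.Loc Pool.Agent.Mob Pool.Agent.Helper54.Bal

variable {d : ℕ}

theorem mom1_gl (σ : ℝ) : mom1 (gl σ) ≠ ∞ := by
  unfold mom1 gl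
  rw [lintegral_map (by fun_prop) (by fun_prop)]
  have h1 : Integrable (fun t : ℝ => σ * t) γ1 := by
    have h2 : MemLp (id : ℝ → ℝ) 1 γ1 := memLp_id_gaussianReal 1
    exact (memLp_one_iff_integrable.1 h2).const_mul σ
  have h3 := h1.abs.lintegral_lt_top
  exact h3.ne

theorem CC_gl (σ ρ M : ℝ) : CC (gl σ) ρ M ≠ ∞ := by
  unfold CC
  refine ENNReal.mul_ne_top ENNReal.ofReal_ne_top ?_
  refine ENNReal.add_ne_top.2 ⟨ENNReal.add_ne_top.2 ⟨by norm_num, mom1_gl σ⟩,
    ENNReal.ofReal_ne_top⟩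

theorem Clow_gl (σ ρ : ℝ) {M : ℝ} (hM : M ≠ 0) : Clow d (gl σ) ρ M ≠ ∞ := by
  unfold Clow
  refine ENNReal.mul_ne_top (ENNReal.pow_ne_top (CC_gl σ ρ M)) ?_
  refine ENNReal.rpow_ne_top_of_ne_zero ?_ ENNReal.ofReal_ne_top
  rw [Ne, ENNReal.ofReal_eq_zero, not_le]
  positivity

/-- the negative moment with a real constant -/
theorem low_gl {σ : ℝ} (hσ : σ ≠ 0) (E : ℝ) : ∃ C : ℝ, 0 < C ∧ ∀ (Λ : Finset (Site d))
    (x y : Site d), x ∈ Λ → y ∈ Λ → (x = y ∨ hop x y ≠ 0) →
    ∫⁻ V, (ENNReal.ofReal |gr V Λ E x y|) ^ (-(1 / 4) : ℝ) ∂(PL (gl σ) Λ) ≤ ENNReal.ofReal C := by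
  set M : ℝ := 32 * (d : ℝ) ^ 2 + 4 + |E| with hM
  have hM0 : 0 < M := by positivity
  refine ⟨(Clow d (gl σ) (1 / |σ|) M).toReal + 1, by positivity, ?_⟩
  intro Λ x y hx hy hxy
  refine (low (bddDens_gl hσ) (M := M) ?_ Λ ?_ hx hy hxy).trans ?_
  · rw [hM]; have := abs_nonneg E; linarith
  · rw [hM]
    have : 0 ≤ 32 * (d : ℝ) ^ 2 := by positivity
    linarith
  · rw [← ENNReal.ofReal_toReal (Clow_gl (d := d) σ (1 / |σ|) hM0.ne')]
    apply ENNReal.ofReal_le_ofReal
    rw [ENNReal.toReal_ofReal ENNReal.toReal_nonneg]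
    linarith

/-- OneTail -/
theorem oneTail {σ : ℝ} (hσ : σ ≠ 0) (E : ℝ) : Pool.Agent.LE.OneTail d (gl σ) E (8 / |σ|) := by
  intro Λ x u y t _ _ _ ht
  have h := one (bddDens_gl hσ) Λ E u x y (τ := Real.exp t) (Real.exp_pos t)
  refine h.trans (ENNReal.ofReal_le_ofReal ?_)
  have h1 : 8 * (1 / |σ|) / Real.exp t = 8 / |σ| * Real.exp (-t) := by
    rw [Real.exp_neg]
    ring
  rw [h1]
  have h2 : Real.exp (-t) ≤ Real.exp (-t / 3) := Real.exp_le_exp.2 (by linarith)
  have h3 : 0 ≤ 8 / |σ| := by positivity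
  exact mul_le_mul_of_nonneg_left h2 h3

end Pool.Agent.LY
end
end -- Pool.Agent.Helper54_LY.Fin

section -- Pool.Agent.Helper54_LY.Chn

/-!
# The chaining bound: from a site to all sites of a cube
-/

set_option autoImplicit false
set_option linter.unusedSectionVars false

open scoped InnerProductSpace ComplexConjugate Topology ENNReal
open MeasureTheory Filter ProbabilityTheory

noncomputable section

namespace Pool.Agent.LY

open Pool.Agent.Anderson Pool.Agent.Loc Pool.Agent.Mob Pool.Agent.Helper54.Bal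

variable {d : ℕ}

/-- the positive part of `- log |g|` -/
def Dp (g : ℝ) : ℝ≥0∞ := if g = 0 then ∞ else ENNReal.ofReal (-Real.log |g|)

/-- the positive part of `log (|a| |b| / |c|)` -/
def Rp (a b c : ℝ) : ℝ≥0∞ :=
  if c = 0 then (if a * b = 0 then 0 else ∞) else ENNReal.ofReal (Real.log (|a| * |b| / |c|))

theorem Dp_le (a b c : ℝ) : Dp c ≤ Dp a + Dp b + Rp a b c := by
  unfold Dp Rp
  by_cases ha : a = 0
  · rw [if_pos ha]; simp
  by_cases hb : b = 0
  · rw [if_pos hb]; simp
  by_cases hc : c = 0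
  · rw [if_pos hc, if_pos hc, if_neg (mul_ne_zero ha hb)]; simp
  rw [if_neg ha, if_neg hb, if_neg hc, if_neg hc]
  have ha' : |a| ≠ 0 := abs_ne_zero.2 ha
  have hb' : |b| ≠ 0 := abs_ne_zero.2 hb
  have hc' : |c| ≠ 0 := abs_ne_zero.2 hc
  have e : -Real.log |c| = -Real.log |a| + -Real.log |b| + Real.log (|a| * |b| / |c|) := by
    rw [Real.log_div (mul_ne_zero ha' hb') hc', Real.log_mul ha' hb']
    ring
  rw [e]
  refine ENNReal.ofReal_add_le.trans ?_
  gcongr
  exact ENNReal.ofReal_add_le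

theorem measurable_Dp : Measurable Dp := by
  unfold Dp
  refine Measurable.ite (measurableSet_singleton 0) measurable_const ?_
  fun_prop

theorem measurable_Rp {α : Type*} [MeasurableSpace α] {a b c : α → ℝ} (ha : Measurable a)
    (hb : Measurable b) (hc : Measurable c) : Measurable fun x => Rp (a x) (b x) (c x) := by
  unfold Rp
  refine Measurable.ite (hc (measurableSet_singleton 0)) ?_ ?_
  · exact Measurable.ite ((ha.mul hb) (measurableSet_singleton 0)) measurable_const
      measurable_const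
  · fun_prop

theorem Dp_rpow_le {p : ℝ} (hp : 0 < p) (g : ℝ) :
    (Dp g) ^ p ≤ ENNReal.ofReal ((4 * p) ^ p) * (ENNReal.ofReal |g|) ^ (-(1 / 4) : ℝ) := by
  unfold Dp
  by_cases hg : g = 0
  · rw [if_pos hg, hg, abs_zero, ENNReal.ofReal_zero, ENNReal.zero_rpow_of_neg (by norm_num),
      ENNReal.mul_top]
    · exact le_top
    · rw [Ne, ENNReal.ofReal_eq_zero, not_le]
      positivity
  rw [if_neg hg]
  have hg' : 0 < |g| := abs_pos.2 hg
  rw [ENNReal.ofReal_rpow_of_pos hg', ← ENNReal.ofReal_mul (by positivity)]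
  have h1 : -Real.log |g| ≤ 4 * p * |g| ^ (-(1 / (4 * p))) := by
    have h2 := Real.log_le_rpow_div (x := |g|⁻¹) (by positivity) (ε := 1 / (4 * p))
      (by positivity)
    rw [Real.log_inv, Real.inv_rpow hg'.le] at h2
    rw [Real.rpow_neg hg'.le]
    have e : (|g| ^ (1 / (4 * p)))⁻¹ / (1 / (4 * p)) = 4 * p * (|g| ^ (1 / (4 * p)))⁻¹ := by
      field_simp
    rw [e] at h2
    exact h2
  have h3 : ENNReal.ofReal (-Real.log |g|) ≤ ENNReal.ofReal (4 * p * |g| ^ (-(1 / (4 * p)))) :=
    ENNReal.ofReal_le_ofReal h1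
  have h4 := ENNReal.rpow_le_rpow h3 hp.le
  refine h4.trans (le_of_eq ?_)
  rw [ENNReal.ofReal_rpow_of_pos (by positivity), Real.mul_rpow (by positivity) (by positivity),
    ← Real.rpow_mul hg'.le]
  congr 3
  field_simp

theorem Rp_rpow_le {p : ℝ} (hp : 0 < p) {a b c : ℝ} (h : c ≠ 0) :
    (Rp a b c) ^ p ≤ ENNReal.ofReal ((2 * p) ^ p) * ENNReal.ofReal (√(|a| * |b| / |c|)) := by
  unfold Rp
  rw [if_neg h, ← ENNReal.ofReal_mul (by positivity)]
  have hc' : 0 < |c| := abs_pos.2 h
  set r := |a| * |b| / |c| with hr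
  have hr0 : 0 ≤ r := by positivity
  have h1 : Real.log r ≤ 2 * p * r ^ (1 / (2 * p)) := by
    have h2 := Real.log_le_rpow_div hr0 (ε := 1 / (2 * p)) (by positivity)
    have e : r ^ (1 / (2 * p)) / (1 / (2 * p)) = 2 * p * r ^ (1 / (2 * p)) := by
      field_simp
    rw [e] at h2
    exact h2
  have h4 := ENNReal.rpow_le_rpow (ENNReal.ofReal_le_ofReal h1) hp.le
  refine h4.trans (le_of_eq ?_)
  rw [ENNReal.ofReal_rpow_of_nonneg (by positivity) hp.le, Real.mul_rpow (by positivity)
    (by positivity), ← Real.rpow_mul hr0, Real.sqrt_eq_rpow]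
  congr 3
  field_simp

section norms

variable {α : Type*} [MeasurableSpace α] (μ : Measure α) (p : ℝ)

/-- the `L^p` norm -/
def Nn (f : α → ℝ≥0∞) : ℝ≥0∞ := (∫⁻ x, f x ^ p ∂μ) ^ (1 / p)

variable {μ p}

theorem Nn_mono (hp : 0 < p) {f g : α → ℝ≥0∞} (h : ∀ x, f x ≤ g x) : Nn μ p f ≤ Nn μ p g := by
  unfold Nn
  refine ENNReal.rpow_le_rpow (lintegral_mono fun x => ?_) (by positivity)
  exact ENNReal.rpow_le_rpow (h x) hp.le

theorem Nn_add (hp : 1 ≤ p) {f g : α → ℝ≥0∞} (hf : Measurable f) (hg : Measurable g) :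
    Nn μ p (fun x => f x + g x) ≤ Nn μ p f + Nn μ p g :=
  ENNReal.lintegral_Lp_add_le hf.aemeasurable hg.aemeasurable hp

theorem Nn_le (hp : 0 < p) {f : α → ℝ≥0∞} {C : ℝ≥0∞} (h : ∫⁻ x, f x ^ p ∂μ ≤ C) :
    Nn μ p f ≤ C ^ (1 / p) :=
  ENNReal.rpow_le_rpow h (by positivity)

theorem Nn_rpow (hp : 0 < p) (f : α → ℝ≥0∞) : (Nn μ p f) ^ p = ∫⁻ x, f x ^ p ∂μ := by
  unfold Nn
  rw [← ENNReal.rpow_mul, one_div, inv_mul_cancel₀ hp.ne', ENNReal.rpow_one]

theorem Nn_sup (hp : 0 < p) {ι : Type*} (S : Finset ι) {f : ι → α → ℝ≥0∞}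
    (hf : ∀ i ∈ S, Measurable (f i)) {C : ℝ≥0∞} (h : ∀ i ∈ S, Nn μ p (f i) ≤ C) :
    Nn μ p (fun x => S.sup fun i => f i x) ≤ (S.card : ℝ≥0∞) ^ (1 / p) * C := by
  have h1 : ∫⁻ x, (S.sup fun i => f i x) ^ p ∂μ ≤ (S.card : ℝ≥0∞) * C ^ p := by
    calc ∫⁻ x, (S.sup fun i => f i x) ^ p ∂μ ≤ ∫⁻ x, ∑ i ∈ S, (f i x) ^ p ∂μ := by
          refine lintegral_mono fun x => ?_
          rcases S.eq_empty_or_nonempty with rfl | hS
          · simp [ENNReal.zero_rpow_of_pos hp]
          · obtain ⟨i, hi, e⟩ := Finset.exists_mem_eq_sup S hS (fun i => f i x)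
            simp only [e]
            exact Finset.single_le_sum (f := fun i => (f i x) ^ p) (fun _ _ => zero_le) hi
      _ = ∑ i ∈ S, ∫⁻ x, (f i x) ^ p ∂μ :=
          lintegral_finsetSum _ fun i hi => (hf i hi).pow_const _
      _ ≤ ∑ _i ∈ S, C ^ p := by
          refine Finset.sum_le_sum fun i hi => ?_
          rw [← Nn_rpow hp]
          exact ENNReal.rpow_le_rpow (h i hi) hp.le
      _ = _ := by rw [Finset.sum_const, nsmul_eq_mul]
  refine (Nn_le hp h1).trans (le_of_eq ?_)
  rw [ENNReal.mul_rpow_of_nonneg _ _ (by positivity), ← ENNReal.rpow_mul, mul_one_div_cancel hp.ne',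
    ENNReal.rpow_one]

end norms

end Pool.Agent.LY
end
end -- Pool.Agent.Helper54_LY.Chn

section -- Pool.Agent.Helper54_LY.Chn2

/-!
# The chaining bound: from a site to all sites of a cube (end)
-/

set_option autoImplicit false
set_option linter.unusedSectionVars false

open scoped InnerProductSpace ComplexConjugate Topology ENNReal
open MeasureTheory Filter ProbabilityTheory

noncomputable section

namespace Pool.Agent.LY

open Pool.Agent.Anderson Pool.Agent.Loc Pool.Agent.Mob Pool.Agent.Helper54.Bal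

variable {d : ℕ}

theorem near {σ : ℝ} (hσ : σ ≠ 0) (E : ℝ) {p : ℝ} (hp : 0 < p) : ∃ C : ℝ, 0 ≤ C ∧
    ∀ (Λ : Finset (Site d)) (x y : Site d), x ∈ Λ → y ∈ Λ → (x = y ∨ hop x y ≠ 0) →
    Nn (PL (gl σ) Λ) p (fun V => Dp (gr V Λ E x y)) ≤ ENNReal.ofReal C := by
  obtain ⟨C, hC, h⟩ := low_gl (d := d) hσ E
  refine ⟨((4 * p) ^ p * C) ^ (1 / p), by positivity, ?_⟩
  intro Λ x y hx hy hxy
  rw [← ENNReal.ofReal_rpow_of_nonneg (by positivity) (by positivity)]
  apply Nn_le hp
  calc ∫⁻ V, (Dp (gr V Λ E x y)) ^ p ∂(PL (gl σ) Λ)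
      ≤ ∫⁻ V, ENNReal.ofReal ((4 * p) ^ p) * (ENNReal.ofReal |gr V Λ E x y|) ^ (-(1 / 4) : ℝ)
          ∂(PL (gl σ) Λ) := lintegral_mono fun V => Dp_rpow_le hp _
    _ = ENNReal.ofReal ((4 * p) ^ p) * ∫⁻ V, (ENNReal.ofReal |gr V Λ E x y|) ^ (-(1 / 4) : ℝ)
          ∂(PL (gl σ) Λ) := lintegral_const_mul' _ _ ENNReal.ofReal_ne_top
    _ ≤ ENNReal.ofReal ((4 * p) ^ p) * ENNReal.ofReal C := by
        gcongr
        exact h Λ x y hx hy hxy
    _ = _ := by rw [← ENNReal.ofReal_mul (by positivity)]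

theorem ratio {σ : ℝ} (hσ : σ ≠ 0) (E : ℝ) {p : ℝ} (hp : 0 < p) : ∃ C : ℝ, 0 ≤ C ∧
    ∀ (Λ : Finset (Site d)) (x u y : Site d),
    Nn (PL (gl σ) Λ) p (fun V => Rp (gr V Λ E x u) (gr V Λ E u y) (gr V Λ E x y)) ≤
      ENNReal.ofReal C := by
  set ρ : ℝ := 1 / |σ| with hρdef
  have hν := bddDens_gl hσ
  have hρ : 0 < ρ := hν.1
  refine ⟨((2 * p) ^ p * (1 + 8 * ρ)) ^ (1 / p), by positivity, ?_⟩
  intro Λ x u y
  rw [← ENNReal.ofReal_rpow_of_nonneg (by positivity) (by positivity)]
  apply Nn_le hp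
  have hone : ∀ τ : ℝ, 0 < τ → PL (gl σ) Λ {V | τ * |gr V Λ E x y| < |gr V Λ E x u| *
      |gr V Λ E u y|} ≤ ENNReal.ofReal (8 * ρ / τ) := fun τ hτ => one hν Λ E u x y hτ
  have hnull : PL (gl σ) Λ {V | gr V Λ E x y = 0 ∧ gr V Λ E x u * gr V Λ E u y ≠ 0} = 0 := by
    have h1 : ∀ k : ℕ, PL (gl σ) Λ {V | gr V Λ E x y = 0 ∧ gr V Λ E x u * gr V Λ E u y ≠ 0} ≤
        ENNReal.ofReal (8 * ρ / ((k : ℝ) + 1)) := by
      intro k
      refine (measure_mono ?_).trans (hone ((k : ℝ) + 1) (by positivity))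
      rintro V ⟨h2, h3⟩
      rw [Set.mem_ofPred_eq, h2, abs_zero, mul_zero, ← abs_mul]
      exact abs_pos.2 h3
    have h2 : Tendsto (fun k : ℕ => ENNReal.ofReal (8 * ρ / ((k : ℝ) + 1))) atTop
        (𝓝 (ENNReal.ofReal 0)) := by
      apply ENNReal.tendsto_ofReal
      have := (tendsto_one_div_add_atTop_nhds_zero_nat (𝕜 := ℝ)).const_mul (8 * ρ)
      rw [mul_zero] at this
      refine this.congr fun k => ?_
      ring
    rw [ENNReal.ofReal_zero] at h2
    exact le_antisymm (ge_of_tendsto' h2 h1) zero_le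
  set f : (Site d → ℝ) → ℝ := fun V => |gr V Λ E x u| * |gr V Λ E u y| / |gr V Λ E x y| with hf
  have hfm : Measurable f := by
    have h1 := measurable_gr Λ E x u
    have h2 := measurable_gr Λ E u y
    have h3 := measurable_gr Λ E x y
    exact ((h1.abs.mul h2.abs)).div h3.abs
  have hweak : ∀ τ : ℝ, 0 < τ → PL (gl σ) Λ {V | τ < |f V|} ≤ ENNReal.ofReal (8 * ρ / τ) := by
    intro τ hτ
    refine (measure_mono ?_).trans (hone τ hτ)
    intro V hV
    have h0 : 0 ≤ f V := by rw [hf]; positivity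
    rw [Set.mem_ofPred_eq, abs_of_nonneg h0] at hV
    rw [Set.mem_ofPred_eq]
    have hne : |gr V Λ E x y| ≠ 0 := by
      intro h1
      rw [hf] at hV
      simp only [h1, div_zero] at hV
      linarith
    have hpos : 0 < |gr V Λ E x y| := lt_of_le_of_ne (abs_nonneg _) (Ne.symm hne)
    exact (lt_div_iff₀ hpos).1 hV
  have hint := weak_sqrt hfm (B := Set.univ) (c := 8 * ρ) (by positivity) hweak (a := 1) one_pos
  rw [Measure.restrict_univ, measure_univ, mul_one, div_one,
    ← ENNReal.ofReal_add (by norm_num) (by positivity)] at hint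
  have hae : ∀ᵐ V ∂(PL (gl σ) Λ), (Rp (gr V Λ E x u) (gr V Λ E u y) (gr V Λ E x y)) ^ p ≤
      ENNReal.ofReal ((2 * p) ^ p) * ENNReal.ofReal (√|f V|) := by
    have h1 : ∀ᵐ V ∂(PL (gl σ) Λ), ¬ (gr V Λ E x y = 0 ∧ gr V Λ E x u * gr V Λ E u y ≠ 0) := by
      rw [ae_iff]
      simpa only [not_not] using hnull
    filter_upwards [h1] with V hV
    have h0 : 0 ≤ f V := by rw [hf]; positivity
    rw [abs_of_nonneg h0]
    by_cases hc : gr V Λ E x y = 0
    · have h2 : gr V Λ E x u * gr V Λ E u y = 0 := by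
        by_contra h3
        exact hV ⟨hc, h3⟩
      unfold Rp
      rw [if_pos hc, if_pos h2, ENNReal.zero_rpow_of_pos hp]
      exact zero_le
    · exact Rp_rpow_le hp hc
  calc _ ≤ ∫⁻ V, ENNReal.ofReal ((2 * p) ^ p) * ENNReal.ofReal (√|f V|) ∂(PL (gl σ) Λ) :=
        lintegral_mono_ae hae
    _ = ENNReal.ofReal ((2 * p) ^ p) * ∫⁻ V, ENNReal.ofReal (√|f V|) ∂(PL (gl σ) Λ) :=
        lintegral_const_mul' _ _ ENNReal.ofReal_ne_top
    _ ≤ ENNReal.ofReal ((2 * p) ^ p) * ENNReal.ofReal (1 + 8 * ρ) := by gcongr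
    _ = _ := by rw [← ENNReal.ofReal_mul (by positivity)]

/-- the `ℓ¹` distance -/
def l1 (c s : Site d) : ℕ := ∑ i, (s i - c i).natAbs

theorem l1_le (c s : Site d) {n : ℕ} (h : sd c s ≤ n) : l1 c s ≤ d * n := by
  unfold l1
  have h1 := sd_le_iff.1 h
  calc ∑ i, (s i - c i).natAbs ≤ ∑ _i : Fin d, n := by
        refine Finset.sum_le_sum fun i _ => ?_
        have := h1 i
        rw [abs_sub_comm, Int.abs_eq_natAbs] at this
        exact_mod_cast this
    _ = _ := by simp

theorem hop_step (s : Site d) (i : Fin d) {a : ℤ} (ha : a = 1 ∨ a = -1) :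
    hop (s + Pi.single i a) s ≠ 0 := by
  have h : 0 < hop (s + Pi.single i a) s := by
    unfold hop
    apply Finset.sum_pos' (fun j _ => by positivity)
    refine ⟨i, Finset.mem_univ _, ?_⟩
    rcases ha with rfl | rfl
    · have : s = s + Pi.single i 1 - Pi.single i 1 := by abel
      rw [if_pos this]
      positivity
    · have : s = s + Pi.single i (-1) + Pi.single i 1 := by
        rw [add_assoc, ← Pi.single_add]
        simp
      rw [if_pos this]
      positivity
  exact h.ne'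

/-- a neighbour closer to `c` -/
theorem closer {c s : Site d} (h : s ≠ c) : ∃ s' : Site d, l1 c s' + 1 = l1 c s ∧
    sd c s' ≤ sd c s ∧ hop s' s ≠ 0 := by
  obtain ⟨i, hi⟩ := Function.ne_iff.1 h
  obtain ⟨a, ha, hab, hab2⟩ : ∃ a : ℤ, (a = 1 ∨ a = -1) ∧
      (s i + a - c i).natAbs + 1 = (s i - c i).natAbs ∧ |c i - (s i + a)| ≤ |c i - s i| := by
    rcases lt_or_gt_of_ne hi with h1 | h1
    · refine ⟨1, Or.inl rfl, by omega, ?_⟩
      rw [abs_of_nonneg (by omega), abs_of_nonneg (by omega)]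
      omega
    · refine ⟨-1, Or.inr rfl, by omega, ?_⟩
      rw [abs_of_nonpos (by omega), abs_of_nonpos (by omega)]
      omega
  refine ⟨s + Pi.single i a, ?_, ?_, hop_step s i ha⟩
  · unfold l1
    rw [← Finset.add_sum_erase _ _ (Finset.mem_univ i), ← Finset.add_sum_erase _ _
      (Finset.mem_univ i)]
    have h2 : ∑ j ∈ Finset.univ.erase i, ((s + Pi.single i a : Site d) j - c j).natAbs =
        ∑ j ∈ Finset.univ.erase i, (s j - c j).natAbs := by
      refine Finset.sum_congr rfl fun j hj => ?_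
      rw [Pi.add_apply, Pi.single_eq_of_ne (Finset.ne_of_mem_erase hj), add_zero]
    rw [h2, Pi.add_apply, Pi.single_eq_same]
    omega
  · rw [sd_le_iff]
    intro j
    have h3 := sd_le_iff.1 (le_refl (sd c s)) j
    by_cases hj : j = i
    · subst hj
      rw [Pi.add_apply, Pi.single_eq_same]
      exact hab2.trans h3
    · rw [Pi.add_apply, Pi.single_eq_of_ne hj, add_zero]
      exact h3

section main

variable {σ E C1 C2 p : ℝ} {Λ : Finset (Site d)}

theorem path (hp : 1 ≤ p) (hC1 : 0 ≤ C1) (hC2 : 0 ≤ C2)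
    (h1 : ∀ x y : Site d, x ∈ Λ → y ∈ Λ → (x = y ∨ hop x y ≠ 0) →
      Nn (PL (gl σ) Λ) p (fun V => Dp (gr V Λ E x y)) ≤ ENNReal.ofReal C1)
    (h2 : ∀ x u y : Site d, Nn (PL (gl σ) Λ) p
      (fun V => Rp (gr V Λ E x u) (gr V Λ E u y) (gr V Λ E x y)) ≤ ENNReal.ofReal C2)
    {n : ℕ} {c : Site d} (hc : box c n ⊆ Λ) (m : ℕ) :
    ∀ s : Site d, l1 c s = m → sd c s ≤ n →
      Nn (PL (gl σ) Λ) p (fun V => Dp (gr V Λ E c s)) ≤ ENNReal.ofReal ((m + 1) * (C1 + C2)) := by
  induction m with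
  | zero =>
    intro s hs hn
    have hsc : s = c := by
      by_contra hne
      obtain ⟨s', hs', -⟩ := closer hne
      omega
    subst hsc
    have hmem : s ∈ Λ := hc (mem_box.2 (by rw [sd_self]; exact Nat.zero_le _))
    refine (h1 s s hmem hmem (Or.inl rfl)).trans (ENNReal.ofReal_le_ofReal ?_)
    push_cast
    linarith
  | succ m ih =>
    intro s hs hn
    have hne : s ≠ c := by
      rintro rfl
      unfold l1 at hs
      simp at hs
    obtain ⟨s', hs', hsd, hhop⟩ := closer hne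
    have hm := ih s' (by omega) (hsd.trans hn)
    have hcm : c ∈ Λ := hc (mem_box.2 (by rw [sd_self]; exact Nat.zero_le _))
    have hsm : s ∈ Λ := hc (mem_box.2 hn)
    have hsm' : s' ∈ Λ := hc (mem_box.2 (hsd.trans hn))
    have mD : ∀ x y, Measurable fun V : Site d → ℝ => Dp (gr V Λ E x y) := fun x y =>
      measurable_Dp.comp (measurable_gr Λ E x y)
    have mR : Measurable fun V : Site d → ℝ =>
        Rp (gr V Λ E c s') (gr V Λ E s' s) (gr V Λ E c s) :=
      measurable_Rp (measurable_gr Λ E _ _) (measurable_gr Λ E _ _) (measurable_gr Λ E _ _)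
    calc Nn (PL (gl σ) Λ) p (fun V => Dp (gr V Λ E c s))
        ≤ Nn (PL (gl σ) Λ) p (fun V => (Dp (gr V Λ E c s') + Dp (gr V Λ E s' s)) +
            Rp (gr V Λ E c s') (gr V Λ E s' s) (gr V Λ E c s)) :=
          Nn_mono (by linarith) fun V => Dp_le _ _ _
      _ ≤ (Nn (PL (gl σ) Λ) p (fun V => Dp (gr V Λ E c s')) +
            Nn (PL (gl σ) Λ) p (fun V => Dp (gr V Λ E s' s))) +
            Nn (PL (gl σ) Λ) p (fun V => Rp (gr V Λ E c s') (gr V Λ E s' s) (gr V Λ E c s)) :=
          (Nn_add hp ((mD _ _).add (mD _ _)) mR).trans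
            (add_le_add (Nn_add hp (mD _ _) (mD _ _)) le_rfl)
      _ ≤ (ENNReal.ofReal ((m + 1) * (C1 + C2)) + ENNReal.ofReal C1) + ENNReal.ofReal C2 := by
          gcongr
          · exact h1 s' s hsm' hsm (Or.inr hhop)
          · exact h2 c s' s
      _ = _ := by
          rw [← ENNReal.ofReal_add (by positivity) hC1, ← ENNReal.ofReal_add (by positivity) hC2]
          congr 1
          push_cast
          ring

/-- the centres of the covering of a cube -/
def Wc (c : Site d) (r : ℕ) : Finset (Site d) := (box (0 : Site d) 1).image fun e j => c j + r * e j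

theorem card_Wc (c : Site d) (r : ℕ) : (Wc c r).card ≤ 3 ^ d := by
  refine Finset.card_image_le.trans ?_
  rw [card_box]

theorem sd_Wc {c w : Site d} {r : ℕ} (hw : w ∈ Wc c r) : sd c w ≤ r := by
  obtain ⟨e, he, rfl⟩ := Finset.mem_image.1 hw
  rw [mem_box, sd_le_iff] at he
  rw [sd_le_iff]
  intro i
  have h1 := he i
  rw [Pi.zero_apply, zero_sub, abs_neg] at h1
  have h2 : c i - (c i + r * e i) = -(r * e i) := by ring
  rw [h2, abs_neg, abs_mul, Nat.abs_cast]
  calc (r : ℤ) * |e i| ≤ r * (1 : ℕ) := mul_le_mul_of_nonneg_left h1 (Nat.cast_nonneg r)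
    _ = r := by simp

theorem exists_Wc {c s : Site d} {n r r' : ℕ} (hs : sd c s ≤ n) (hr : r + r' = n) (hrr : r' ≤ r) :
    ∃ w ∈ Wc c r', sd w s ≤ r := by
  rw [sd_le_iff] at hs
  refine ⟨fun j => c j + r' * (if s j - c j > r' then 1 else if s j - c j < -r' then -1 else 0),
    ?_, ?_⟩
  · refine Finset.mem_image.2 ⟨fun j => if s j - c j > r' then 1 else if s j - c j < -r' then -1
      else 0, ?_, rfl⟩
    rw [mem_box, sd_le_iff]
    intro i
    rw [Pi.zero_apply]
    split_ifs <;> simp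
  · rw [sd_le_iff]
    intro i
    have h1 := abs_le.1 (hs i)
    have h2 : (r : ℤ) + r' = n := by exact_mod_cast hr
    have h3 : (r' : ℤ) ≤ r := by exact_mod_cast hrr
    rw [abs_le]
    split_ifs with h4 h5 <;> constructor <;> linarith

end main

end Pool.Agent.LY
end
end -- Pool.Agent.Helper54_LY.Chn2
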