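import Pool.Agent.Helper12_MEB.B019
import Pool.Agent.Helper12_MEB.B029
import Pool.Agent.Helper12_MEB.B050

/-!
# Merged copies (generated) of the modules

* `Pool.Agent.Helper69_Mob.Ins`
* `Pool.Agent.Helper54_LE.APG1`
* `Pool.Agent.Helper54_LE.APG2`
* `Pool.Agent.Helper65_LCH.CPG`
-/

set_option autoImplicit false

section -- Pool.Agent.Helper69_Mob.Ins

/-!
# Module INS: no spreading faster than any power (assembly of part H)
-/

set_option autoImplicit false

open MeasureTheory ProbabilityTheory Function Filter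

open scoped ENNReal BigOperators InnerProductSpace

noncomputable section

namespace Pool.Agent.Mob.H69

open Pool.Agent.Anderson Pool.Agent.Loc Pool.Agent.Helper54.Bal Pool.Agent.Mob

/-! ### quantities smaller than every power -/

/-- smaller than every power of `T` -/
def Sm (f : ℝ → ℝ) : Prop := ∀ k : ℝ, ∀ᶠ T in atTop, f T ≤ T ^ (-k)

theorem Sm.mono {f g : ℝ → ℝ} (hg : Sm g) (h : ∀ᶠ T in atTop, f T ≤ g T) : Sm f := by
  intro k
  filter_upwards [h, hg k] with T h1 h2
  exact h1.trans h2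

theorem rp {T : ℝ} (hT : 0 < T) (k m : ℝ) : T ^ (-k) = T ^ m * T ^ (-(k + m)) := by
  rw [← Real.rpow_add hT]
  congr 1
  ring

theorem Sm.add {f g : ℝ → ℝ} (hf : Sm f) (hg : Sm g) : Sm (fun T => f T + g T) := by
  intro k
  filter_upwards [hf (k + 1), hg (k + 1), eventually_ge_atTop (2 : ℝ)] with T h1 h2 h3
  have hT : 0 < T := by linarith only [h3]
  have h4 := rp hT k 1
  rw [Real.rpow_one] at h4
  have h5 : 0 < T ^ (-(k + 1)) := Real.rpow_pos_of_pos hT _
  rw [h4]
  nlinarith only [h1, h2, h3, h5]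

/-- multiplication by a constant times a power -/
theorem Sm.cpow {f : ℝ → ℝ} (hf : Sm f) (K : ℝ) (hK : 0 ≤ K) (m : ℕ) :
    Sm (fun T => K * T ^ m * f T) := by
  intro k
  filter_upwards [hf (k + 1 + m), eventually_ge_atTop (K + 1)] with T h1 h3
  have hT : 0 < T := by linarith
  have h4 := rp hT k (1 + m)
  rw [Real.rpow_add hT, Real.rpow_one, Real.rpow_natCast, ← add_assoc] at h4
  have h5 : 0 < T ^ (-(k + 1 + m)) := Real.rpow_pos_of_pos hT _
  calc K * T ^ m * f T ≤ K * T ^ m * T ^ (-(k + 1 + m)) :=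
        mul_le_mul_of_nonneg_left h1 (by positivity)
    _ ≤ T * T ^ m * T ^ (-(k + 1 + m)) := by
        apply mul_le_mul_of_nonneg_right _ h5.le
        apply mul_le_mul_of_nonneg_right _ (by positivity)
        linarith
    _ = T ^ (-k) := h4.symm

theorem Sm.mul {f g : ℝ → ℝ} (hf : Sm f) (hg : Sm g) (hf0 : ∀ᶠ T in atTop, 0 ≤ f T) :
    Sm (fun T => f T * g T) := by
  intro k
  filter_upwards [hf k, hg 0, hf0, eventually_gt_atTop (0 : ℝ)] with T h1 h2 h3 hT
  rw [neg_zero, Real.rpow_zero] at h2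
  calc f T * g T ≤ f T * 1 := mul_le_mul_of_nonneg_left h2 h3
    _ ≤ _ := by rwa [mul_one]

theorem Sm.sqrt {f : ℝ → ℝ} (hf : Sm f) : Sm (fun T => √(f T)) := by
  intro k
  filter_upwards [hf (2 * k), eventually_gt_atTop (0 : ℝ)] with T h1 hT
  apply Real.sqrt_le_iff.2
  refine ⟨(Real.rpow_pos_of_pos hT _).le, h1.trans (le_of_eq ?_)⟩
  rw [← Real.rpow_natCast, ← Real.rpow_mul hT.le]
  congr 1
  push_cast
  ring

theorem sm_exp (c β : ℝ) (hc : 0 < c) (hβ : 0 < β) : Sm (fun T => Real.exp (-c * T ^ β)) := by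
  intro k
  have h1 := (tendsto_rpow_mul_exp_neg_mul_atTop_nhds_zero (k / β) c hc).comp
    (tendsto_rpow_atTop hβ)
  have h2 := h1.eventually (gt_mem_nhds (show (0 : ℝ) < 1 by norm_num))
  filter_upwards [h2, eventually_gt_atTop (0 : ℝ)] with T h3 hT
  simp only [comp_apply] at h3
  rw [← Real.rpow_mul hT.le, mul_div_cancel₀ _ hβ.ne'] at h3
  rw [Real.rpow_neg hT.le, inv_eq_one_div, le_div_iff₀ (Real.rpow_pos_of_pos hT _)]
  linarith

/-! ### the deterministic estimate -/

theorem cast_box (n d : ℕ) : (((2 * n + 1) ^ d : ℕ) : ℝ≥0∞) =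
    ENNReal.ofReal ((2 * (n : ℝ) + 1) ^ d) := by
  rw [← ENNReal.ofReal_natCast]
  congr 1
  push_cast
  ring

theorem det_bound (hafv : AfvStmt) (hcth : CthStmt) (hdlb : DlbStmt) {d : ℕ} (V : Site d → ℝ)
    (μ h E η ac κ N q T R : ℝ) (L n : ℕ) (hd : 1 ≤ d) (hT : 0 < T) (hη : 0 < η) (h8 : 8 * η ≤ h)
    (hac : 0 ≤ ac) (hct : 2 * d * (Real.exp ac - 1) ≤ η / 2)
    (hκ : κ = 2 * d * (2 * L + 1) ^ d * Real.exp (-μ * L)) (hκh : 2 * √κ ≤ h)
    (hN : N = (2 * n + 1) ^ d) (hLR : 2 * (L : ℝ) < R) (hLn : 2 * L ≤ n)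
    (hgood : ∀ y ∈ box (0 : Site d) n, 2 * L < sd 0 y → ∀ F : ℝ, |F - E| ≤ 2 * h →
      FGood V L 0 F μ ∨ FGood V L y F μ)
    (hq : q = N * κ / η + 3 * ((N + 1) ^ 2 * κ / √κ + 4 * √κ / h ^ 2) +
      3 / h * Real.exp (-h / (4 * η)) + 4 * d / η ^ 2 * Real.exp (-ac * n)) :
    ∑' x : Site d, (if R ≤ (sd 0 x : ℝ) then
      ENNReal.ofReal (‖G V (zz η E) (del 0) x‖ ^ 2 / T) else 0) ≤
      ENNReal.ofReal ((N * q ^ 2 + 4 / η ^ 2 * Real.exp (-ac * n)) / T) := by
  have hh : 0 < h := by linarith only [hη, h8]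
  have hd0 : (0 : ℝ) < d := by exact_mod_cast hd
  have hκ0 : 0 < κ := by
    rw [hκ]
    positivity
  have hN0 : 0 ≤ N := by
    rw [hN]
    positivity
  have hq0 : 0 ≤ q := by
    rw [hq]
    positivity
  have hpt : ∀ y ∈ box (0 : Site d) n, R ≤ (sd 0 y : ℝ) → 2 * sd 0 y ≤ n →
      ‖G V (zz η E) (del 0) y‖ ≤ q := by
    intro y hy hR hyn
    have h1 : 2 * L < sd 0 y := by
      have : (2 * (L : ℝ)) < sd 0 y := lt_of_lt_of_le hLR hR
      exact_mod_cast this
    have h2 := hafv d V η E ac n y hη hac hct hy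
    have h3 := hdlb d V μ E h η (√κ) κ N L n y hd hη h8 (Real.sqrt_pos.2 hκ0) hκh hκ hN
      (by omega) (by omega) (hgood y hy h1)
    rw [hq]
    linarith only [h2, h3]
  have hsplit : ∀ x : Site d, (if R ≤ (sd 0 x : ℝ) then
      ENNReal.ofReal (‖G V (zz η E) (del 0) x‖ ^ 2 / T) else 0) ≤
      (if x ∈ box (0 : Site d) n then ENNReal.ofReal (q ^ 2 / T) else 0) +
      ENNReal.ofReal (Real.exp (-ac * n) / T) *
        ENNReal.ofReal (Real.exp (2 * ac * sd 0 x) * ‖G V (zz η E) (del 0) x‖ ^ 2) := by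
    intro x
    by_cases hR : R ≤ (sd 0 x : ℝ)
    · rw [if_pos hR]
      by_cases hx : 2 * sd 0 x ≤ n
      · have hxb : x ∈ box (0 : Site d) n := mem_box.2 (by omega)
        rw [if_pos hxb]
        refine le_trans ?_ le_self_add
        apply ENNReal.ofReal_le_ofReal
        have := hpt x hxb hR hx
        have h0 := norm_nonneg (G V (zz η E) (del 0) x)
        gcongr
      · refine le_trans ?_ le_add_self
        rw [← ENNReal.ofReal_mul (by positivity)]
        apply ENNReal.ofReal_le_ofReal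
        have h1 : (n : ℝ) ≤ 2 * sd 0 x := by exact_mod_cast (not_le.1 hx).le
        have h2 : 1 ≤ Real.exp (-ac * n) * Real.exp (2 * ac * sd 0 x) := by
          rw [← Real.exp_add]
          apply Real.one_le_exp
          nlinarith only [hac, h1]
        have h3 : 0 ≤ ‖G V (zz η E) (del 0) x‖ ^ 2 / T := by positivity
        calc ‖G V (zz η E) (del 0) x‖ ^ 2 / T = 1 * (‖G V (zz η E) (del 0) x‖ ^ 2 / T) :=
              (one_mul _).symm
          _ ≤ (Real.exp (-ac * n) * Real.exp (2 * ac * sd 0 x)) *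
              (‖G V (zz η E) (del 0) x‖ ^ 2 / T) := mul_le_mul_of_nonneg_right h2 h3
          _ = _ := by ring
    · rw [if_neg hR]
      exact zero_le
  refine (ENNReal.tsum_le_tsum hsplit).trans ?_
  rw [ENNReal.tsum_add, ENNReal.tsum_mul_left]
  have e1 : ∑' x : Site d, (if x ∈ box (0 : Site d) n then ENNReal.ofReal (q ^ 2 / T) else 0) =
      ENNReal.ofReal (N * (q ^ 2 / T)) := by
    rw [tsum_eq_sum (s := box (0 : Site d) n) (fun x hx => if_neg hx),
      Finset.sum_congr rfl (fun x hx => if_pos hx), Finset.sum_const, card_box, nsmul_eq_mul,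
      ENNReal.ofReal_mul hN0, hN, cast_box]
  rw [e1]
  have e2 := hcth d V η E ac hη hac hct
  calc ENNReal.ofReal (N * (q ^ 2 / T)) + ENNReal.ofReal (Real.exp (-ac * n) / T) *
        ∑' x : Site d, ENNReal.ofReal (Real.exp (2 * ac * sd 0 x) *
          ‖G V (zz η E) (del 0) x‖ ^ 2) ≤
      ENNReal.ofReal (N * (q ^ 2 / T)) + ENNReal.ofReal (Real.exp (-ac * n) / T) *
        ENNReal.ofReal (4 / η ^ 2) := by gcongr
    _ = _ := by
        rw [← ENNReal.ofReal_mul (by positivity), ← ENNReal.ofReal_add (by positivity)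
          (by positivity)]
        congr 1
        ring

/-! ### the probabilistic estimate -/

theorem prob_bound (htbp : TbpStmt) {d : ℕ} (ν : Measure ℝ) [IsProbabilityMeasure ν]
    (a b C μ : ℝ) (hB : BulkDecay d ν (Set.Icc a b) C μ) (L n : ℕ) :
    PP d ν {V | ¬ ∀ y ∈ box (0 : Site d) n, 2 * L < sd 0 y → ∀ F ∈ Set.Icc a b,
      FGood V L 0 F μ ∨ FGood V L y F μ} ≤
      ENNReal.ofReal ((2 * n + 1) ^ d * (5 * |C| * (2 * L + 1) ^ (3 * d) *
        Real.exp (-μ * L))) := by
  have h1 : {V : Site d → ℝ | ¬ ∀ y ∈ box (0 : Site d) n, 2 * L < sd 0 y → ∀ F ∈ Set.Icc a b,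
      FGood V L 0 F μ ∨ FGood V L y F μ} ⊆ ⋃ y ∈ (box (0 : Site d) n).filter
        (fun y => 2 * L < sd 0 y), {V | ∃ F ∈ Set.Icc a b, ¬ FGood V L 0 F μ ∧
          ¬ FGood V L y F μ} := by
    intro V hV
    have hV' : ¬ ∀ y ∈ box (0 : Site d) n, 2 * L < sd 0 y → ∀ F ∈ Set.Icc a b,
      FGood V L 0 F μ ∨ FGood V L y F μ := hV
    push Not at hV'
    obtain ⟨y, hy, hyL, F, hF, h2, h3⟩ := hV'
    rw [Set.mem_iUnion₂]
    exact ⟨y, Finset.mem_filter.2 ⟨hy, hyL⟩, F, hF, h2, h3⟩
  refine (measure_mono h1).trans ((measure_biUnion_finset_le _ _).trans ?_)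
  calc ∑ y ∈ (box (0 : Site d) n).filter (fun y => 2 * L < sd 0 y),
        PP d ν {V | ∃ F ∈ Set.Icc a b, ¬ FGood V L 0 F μ ∧ ¬ FGood V L y F μ} ≤
      ∑ _y ∈ (box (0 : Site d) n).filter (fun y => 2 * L < sd 0 y),
        ENNReal.ofReal (5 * |C| * (2 * L + 1) ^ (3 * d) * Real.exp (-μ * L)) := by
        apply Finset.sum_le_sum
        intro y hy
        exact htbp d ν a b C μ hB L 0 y (Finset.mem_filter.1 hy).2
    _ ≤ ∑ _y ∈ box (0 : Site d) n,
        ENNReal.ofReal (5 * |C| * (2 * L + 1) ^ (3 * d) * Real.exp (-μ * L)) :=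
        Finset.sum_le_sum_of_subset (Finset.filter_subset _ _)
    _ = _ := by
        rw [Finset.sum_const, card_box, nsmul_eq_mul, cast_box, ← ENNReal.ofReal_mul
          (by positivity)]

theorem ins_T (htbp : TbpStmt) (htot : TotStmt) (hcth : CthStmt) (hafv : AfvStmt)
    (hdlb : DlbStmt) {d : ℕ} (ν : Measure ℝ) [IsProbabilityMeasure ν] (a b h C μ : ℝ)
    (hd : 1 ≤ d) (hB : BulkDecay d ν (Set.Icc (a - 2 * h) (b + 2 * h)) C μ)
    (ac κ N q T R : ℝ) (L n : ℕ) (hT : 0 < T) (h8 : 8 * (1 / T) ≤ h)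
    (hac : 0 ≤ ac) (hct : 2 * d * (Real.exp ac - 1) ≤ 1 / T / 2)
    (hκ : κ = 2 * d * (2 * L + 1) ^ d * Real.exp (-μ * L)) (hκh : 2 * √κ ≤ h)
    (hN : N = (2 * n + 1) ^ d) (hLR : 2 * (L : ℝ) < R) (hLn : 2 * L ≤ n)
    (hq : q = N * κ / (1 / T) + 3 * ((N + 1) ^ 2 * κ / √κ + 4 * √κ / h ^ 2) +
      3 / h * Real.exp (-h / (4 * (1 / T))) + 4 * d / (1 / T) ^ 2 * Real.exp (-ac * n)) :
    ∫⁻ V, spread V T R (Set.Ioo a b) ∂(PP d ν) ≤
      ENNReal.ofReal (Real.pi * (N * (5 * |C| * (2 * L + 1) ^ (3 * d) * Real.exp (-μ * L))) +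
        max (b - a) 0 * ((N * q ^ 2 + 4 / (1 / T) ^ 2 * Real.exp (-ac * n)) / T)) := by
  have hη : 0 < 1 / T := by positivity
  obtain ⟨W, hW⟩ : ∃ W, W = (N * q ^ 2 + 4 / (1 / T) ^ 2 * Real.exp (-ac * n)) / T := ⟨_, rfl⟩
  have hN0 : 0 ≤ N := by
    rw [hN]
    positivity
  have hW0 : 0 ≤ W := by
    rw [hW]
    positivity
  obtain ⟨A, hA⟩ : ∃ A : Set (Site d → ℝ), A = {V | ¬ ∀ y ∈ box (0 : Site d) n,
      2 * L < sd 0 y → ∀ F ∈ Set.Icc (a - 2 * h) (b + 2 * h),
        FGood V L 0 F μ ∨ FGood V L y F μ} := ⟨_, rfl⟩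
  have hPA := prob_bound htbp ν _ _ C μ hB L n
  rw [← hA, ← hN] at hPA
  have hpt : ∀ V : Site d → ℝ, spread V T R (Set.Ioo a b) ≤
      (toMeasurable (PP d ν) A).indicator (fun _ => ENNReal.ofReal Real.pi) V +
        ENNReal.ofReal (max (b - a) 0 * W) := by
    intro V
    by_cases hV : V ∈ toMeasurable (PP d ν) A
    · rw [Set.indicator_of_mem hV]
      exact (htot d V T R _ hT).trans le_self_add
    · rw [Set.indicator_of_notMem hV, zero_add]
      have hV2 : V ∉ A := fun h' => hV (subset_toMeasurable _ _ h')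
      rw [hA] at hV2
      have hgood : ∀ y ∈ box (0 : Site d) n, 2 * L < sd 0 y →
          ∀ F ∈ Set.Icc (a - 2 * h) (b + 2 * h), FGood V L 0 F μ ∨ FGood V L y F μ :=
        not_not.1 hV2
      unfold spread
      calc _ ≤ ∫⁻ _E in Set.Ioo a b, ENNReal.ofReal W := by
            apply setLIntegral_mono' measurableSet_Ioo
            intro E hE
            rw [hW]
            apply det_bound hafv hcth hdlb V μ h E (1 / T) ac κ N q T R L n hd hT hη h8 hac hct
              hκ hκh hN hLR hLn _ hq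
            intro y hy hyL F hF
            apply hgood y hy hyL F
            rw [abs_le] at hF
            exact ⟨by linarith only [hE.1, hF.1], by linarith only [hE.2, hF.2]⟩
        _ = ENNReal.ofReal W * ENNReal.ofReal (b - a) := by
            rw [setLIntegral_const, Real.volume_Ioo]
        _ ≤ ENNReal.ofReal W * ENNReal.ofReal (max (b - a) 0) := by
            gcongr
            exact le_max_left _ _
        _ = _ := by
            rw [← ENNReal.ofReal_mul hW0, mul_comm]
  calc ∫⁻ V, spread V T R (Set.Ioo a b) ∂(PP d ν) ≤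
      ∫⁻ V, ((toMeasurable (PP d ν) A).indicator (fun _ => ENNReal.ofReal Real.pi) V +
        ENNReal.ofReal (max (b - a) 0 * W)) ∂(PP d ν) := lintegral_mono hpt
    _ = ENNReal.ofReal Real.pi * PP d ν A + ENNReal.ofReal (max (b - a) 0 * W) := by
        rw [lintegral_add_right _ measurable_const,
          lintegral_indicator_const (measurableSet_toMeasurable _ _), measure_toMeasurable,
          lintegral_const, measure_univ, mul_one]
    _ ≤ ENNReal.ofReal Real.pi * ENNReal.ofReal (N * (5 * |C| * (2 * L + 1) ^ (3 * d) *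
          Real.exp (-μ * L))) + ENNReal.ofReal (max (b - a) 0 * W) := by
        gcongr
    _ = _ := by
        rw [← ENNReal.ofReal_mul Real.pi_pos.le, ← ENNReal.ofReal_add
          (by have := Real.pi_pos; positivity)
          (mul_nonneg (le_max_right _ _) hW0), hW]

/-! ### the choice of the parameters -/

theorem ins (htbp : TbpStmt) (htot : TotStmt) (hcth : CthStmt) (hafv : AfvStmt)
    (hdlb : DlbStmt) : InsStmt := by
  intro d ν _ a b h C μ hd hμ hh hB β₀ k hβ₀
  obtain ⟨β, hβdef⟩ : ∃ β, β = min β₀ 1 := ⟨_, rfl⟩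
  have hβ : 0 < β := by
    rw [hβdef]
    exact lt_min hβ₀ one_pos
  have hβ1 : β ≤ 1 := by
    rw [hβdef]
    exact min_le_right _ _
  have hββ : β ≤ β₀ := by
    rw [hβdef]
    exact min_le_left _ _
  have hd0 : (0 : ℝ) < d := by exact_mod_cast hd
  -- the parameters
  let n : ℝ → ℕ := fun T => ⌈T ^ 2⌉₊
  let L : ℝ → ℕ := fun T => ⌊T ^ β / 8⌋₊
  let ac : ℝ → ℝ := fun T => 1 / (8 * d * T)
  let κ : ℝ → ℝ := fun T => 2 * d * (2 * L T + 1) ^ d * Real.exp (-μ * L T)
  let N : ℝ → ℝ := fun T => (2 * n T + 1) ^ d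
  let q : ℝ → ℝ := fun T => N T * κ T / (1 / T) +
      3 * ((N T + 1) ^ 2 * κ T / √(κ T) + 4 * √(κ T) / h ^ 2) +
      3 / h * Real.exp (-h / (4 * (1 / T))) + 4 * d / (1 / T) ^ 2 * Real.exp (-ac T * n T)
  -- elementary inequalities
  have hX1 : ∀ T : ℝ, 1 ≤ T → T ^ β ≤ T := fun T hT => by
    have := Real.rpow_le_rpow_of_exponent_le hT hβ1
    rwa [Real.rpow_one] at this
  have hL1 : ∀ T : ℝ, 0 ≤ T → (L T : ℝ) ≤ T ^ β / 8 := fun T hT =>
    Nat.floor_le (by have := Real.rpow_nonneg hT β; positivity)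
  have hL2 : ∀ T : ℝ, T ^ β / 8 - 1 ≤ (L T : ℝ) := fun T => (Nat.sub_one_lt_floor _).le
  have hL3 : ∀ T : ℝ, 2 ≤ T → (2 * L T + 1 : ℝ) ≤ T := fun T hT => by
    have h1 := hL1 T (by linarith only [hT])
    have h2 := hX1 T (by linarith only [hT])
    linarith only [hT, h1, h2]
  have hn1 : ∀ T : ℝ, T ^ 2 ≤ n T := fun T => Nat.le_ceil _
  have hn2 : ∀ T : ℝ, 1 ≤ T → (2 * n T + 1 : ℝ) ≤ 5 * T ^ 2 := fun T hT => by
    have h1 : (n T : ℝ) < T ^ 2 + 1 := Nat.ceil_lt_add_one (by positivity)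
    nlinarith only [hT, h1]
  have hN1 : ∀ T : ℝ, 1 ≤ T → N T ≤ 5 ^ d * T ^ (2 * d) := fun T hT => by
    have := pow_le_pow_left₀ (by positivity) (hn2 T hT) d
    rwa [mul_pow, ← pow_mul] at this
  have hN0 : ∀ T : ℝ, 0 ≤ N T := fun T => by positivity
  have hκ0 : ∀ T : ℝ, 0 < κ T := fun T => by positivity
  have hexpL : ∀ T : ℝ, Real.exp (-μ * L T) ≤ Real.exp μ * Real.exp (-(μ / 8) * T ^ β) := by
    intro T
    rw [← Real.exp_add]
    apply Real.exp_le_exp.2
    have := hL2 T
    nlinarith only [hμ, this]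
  have hexpn : ∀ T : ℝ, 0 < T → Real.exp (-ac T * n T) ≤ Real.exp (-(1 / (8 * d)) * T ^ (1 : ℝ)) := by
    intro T hT
    apply Real.exp_le_exp.2
    rw [Real.rpow_one]
    have h1 : 1 / (8 * d * T) * T ^ 2 ≤ ac T * n T :=
      mul_le_mul_of_nonneg_left (hn1 T) (by positivity)
    have h2 : 1 / (8 * d * T) * T ^ 2 = 1 / (8 * d) * T := by
      field_simp
    linarith only [h1, h2]
  -- small quantities
  have hsX : Sm (fun T => Real.exp (-(μ / 8) * T ^ β)) := sm_exp _ _ (by positivity) hβ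
  have hsκ : Sm κ := by
    apply (hsX.cpow (2 * d * Real.exp μ) (by positivity) d).mono
    filter_upwards [eventually_ge_atTop (2 : ℝ)] with T hT
    have h1 := pow_le_pow_left₀ (by positivity) (hL3 T hT) d
    have h2 := hexpL T
    calc κ T ≤ 2 * d * T ^ d * (Real.exp μ * Real.exp (-(μ / 8) * T ^ β)) := by
          show 2 * (d : ℝ) * (2 * L T + 1) ^ d * Real.exp (-μ * L T) ≤ _
          gcongr
      _ = _ := by ring
  have hsr : Sm (fun T => √(κ T)) := hsκ.sqrt
  have hsn : Sm (fun T => Real.exp (-ac T * n T)) := by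
    apply (sm_exp (1 / (8 * d)) 1 (by positivity) one_pos).mono
    filter_upwards [eventually_gt_atTop (0 : ℝ)] with T hT
    exact hexpn T hT
  have hsh : Sm (fun T => Real.exp (-h / (4 * (1 / T)))) := by
    apply (sm_exp (h / 4) 1 (by positivity) one_pos).mono
    filter_upwards [eventually_gt_atTop (0 : ℝ)] with T hT
    apply Real.exp_le_exp.2
    rw [Real.rpow_one]
    apply le_of_eq
    field_simp
  have hsq : Sm q := by
    have t1 := hsκ.cpow (5 ^ d) (by positivity) (2 * d + 1)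
    have t2 := hsr.cpow (12 * (5 ^ d) ^ 2) (by positivity) (4 * d)
    have t3 := hsr.cpow (12 / h ^ 2) (by positivity) 0
    have t4 := hsh.cpow (3 / h) (by positivity) 0
    have t5 := hsn.cpow (4 * d) (by positivity) 2
    apply ((((t1.add t2).add t3).add t4).add t5).mono
    filter_upwards [eventually_ge_atTop (2 : ℝ)] with T hT
    have hT0 : 0 < T := by linarith only [hT]
    have hNT := hN1 T (by linarith)
    have hk := (hκ0 T).le
    have hr0 : 0 < √(κ T) := Real.sqrt_pos.2 (hκ0 T)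
    have e1 : N T * κ T / (1 / T) ≤ 5 ^ d * T ^ (2 * d + 1) * κ T := by
      calc N T * κ T / (1 / T) = N T * (T * κ T) := by field_simp
        _ ≤ (5 ^ d * T ^ (2 * d)) * (T * κ T) := by gcongr
        _ = _ := by ring
    have e2 : 3 * ((N T + 1) ^ 2 * κ T / √(κ T)) ≤ 12 * (5 ^ d) ^ 2 * T ^ (4 * d) * √(κ T) := by
      have h1 : (N T + 1) ^ 2 * κ T / √(κ T) = (N T + 1) ^ 2 * √(κ T) := by
        rw [mul_div_assoc, Real.div_sqrt]
      have h2 : N T + 1 ≤ 2 * (5 ^ d * T ^ (2 * d)) := by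
        have h3 : (1 : ℝ) ≤ 5 ^ d * T ^ (2 * d) := by
          have h4 : (1 : ℝ) ≤ 5 ^ d := one_le_pow₀ (by norm_num)
          have h5 : (1 : ℝ) ≤ T ^ (2 * d) := one_le_pow₀ (by linarith only [hT])
          nlinarith only [h4, h5]
        linarith only [hNT, h3]
      have h3 : (N T + 1) ^ 2 ≤ (2 * (5 ^ d * T ^ (2 * d))) ^ 2 :=
        pow_le_pow_left₀ (by have := hN0 T; positivity) h2 2
      rw [h1]
      calc 3 * ((N T + 1) ^ 2 * √(κ T)) ≤ 3 * ((2 * (5 ^ d * T ^ (2 * d))) ^ 2 * √(κ T)) := by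
            gcongr
        _ = 12 * (5 ^ d) ^ 2 * T ^ (4 * d) * √(κ T) := by ring
    have e3 : 3 * (4 * √(κ T) / h ^ 2) = 12 / h ^ 2 * T ^ 0 * √(κ T) := by ring
    have e4 : 3 / h * Real.exp (-h / (4 * (1 / T))) =
      3 / h * T ^ 0 * Real.exp (-h / (4 * (1 / T))) := by ring
    have e5 : 4 * d / (1 / T) ^ 2 * Real.exp (-ac T * n T) =
        4 * d * T ^ 2 * Real.exp (-ac T * n T) := by field_simp
    show N T * κ T / (1 / T) + 3 * ((N T + 1) ^ 2 * κ T / √(κ T) + 4 * √(κ T) / h ^ 2) +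
      3 / h * Real.exp (-h / (4 * (1 / T))) + 4 * d / (1 / T) ^ 2 * Real.exp (-ac T * n T) ≤ _
    rw [mul_add]
    linarith only [e1, e2, e3, e5]
  have hq0 : ∀ T : ℝ, 0 < T → 0 ≤ q T := fun T hT => by
    have := hκ0 T
    have := hN0 T
    positivity
  have hsU : Sm (fun T => Real.pi * (N T * (5 * |C| * (2 * L T + 1) ^ (3 * d) *
      Real.exp (-μ * L T))) + max (b - a) 0 * ((N T * q T ^ 2 + 4 / (1 / T) ^ 2 *
        Real.exp (-ac T * n T)) / T)) := by
    have t1 := hsX.cpow (Real.pi * 5 ^ d * 5 * |C| * Real.exp μ)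
      (by have := Real.pi_pos; positivity) (5 * d)
    have t2 := (hsq.mul hsq (by
      filter_upwards [eventually_gt_atTop (0 : ℝ)] with T hT
      exact hq0 T hT)).cpow (max (b - a) 0 * 5 ^ d) (by positivity) (2 * d)
    have t3 := hsn.cpow (max (b - a) 0 * 4) (by positivity) 2
    apply ((t1.add t2).add t3).mono
    filter_upwards [eventually_ge_atTop (2 : ℝ)] with T hT
    have hT0 : 0 < T := by linarith
    have hNT := hN1 T (by linarith)
    have hqT := hq0 T hT0
    have hNT0 := hN0 T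
    have hpi := Real.pi_pos
    have hmx : 0 ≤ max (b - a) 0 := le_max_right _ _
    have e1 : Real.pi * (N T * (5 * |C| * (2 * L T + 1) ^ (3 * d) * Real.exp (-μ * L T))) ≤
        Real.pi * 5 ^ d * 5 * |C| * Real.exp μ * T ^ (5 * d) *
          Real.exp (-(μ / 8) * T ^ β) := by
      have h1 := pow_le_pow_left₀ (by positivity) (hL3 T hT) (3 * d)
      have h2 := hexpL T
      calc _ ≤ Real.pi * ((5 ^ d * T ^ (2 * d)) * (5 * |C| * T ^ (3 * d) *
            (Real.exp μ * Real.exp (-(μ / 8) * T ^ β)))) := by gcongr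
        _ = _ := by ring
    have e2 : (N T * q T ^ 2 + 4 / (1 / T) ^ 2 * Real.exp (-ac T * n T)) / T ≤
        5 ^ d * T ^ (2 * d) * (q T * q T) + 4 * T ^ 2 * Real.exp (-ac T * n T) := by
      have h1 : 0 ≤ N T * q T ^ 2 + 4 / (1 / T) ^ 2 * Real.exp (-ac T * n T) := by positivity
      refine (div_le_self h1 (by linarith only [hT])).trans ?_
      have h2 : 4 / (1 / T) ^ 2 * Real.exp (-ac T * n T) = 4 * T ^ 2 * Real.exp (-ac T * n T) := by
        field_simp
      rw [h2, pow_two (q T)]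
      gcongr
    have e3 := mul_le_mul_of_nonneg_left e2 hmx
    calc _ ≤ _ := add_le_add e1 e3
      _ = _ := by ring
  -- conclusion
  obtain ⟨T₀, hT₀⟩ := eventually_atTop.1 ((hsU k).and ((hsκ 2).and
    ((eventually_ge_atTop (2 : ℝ)).and (eventually_ge_atTop (8 / h)))))
  refine ⟨T₀, fun T hT => ?_⟩
  obtain ⟨hU, hκ2, hT2, hTh⟩ := hT₀ T hT
  have hT0 : 0 < T := by linarith only [hT2]
  have hTβ : 0 < T ^ β := Real.rpow_pos_of_pos hT0 _
  have h8 : 8 * (1 / T) ≤ h := by
    rw [mul_one_div, div_le_iff₀ hT0]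
    rw [div_le_iff₀ hh] at hTh
    linarith only [hTh]
  have hac0 : 0 ≤ ac T := by
    show 0 ≤ 1 / (8 * (d : ℝ) * T)
    positivity
  have hct : 2 * d * (Real.exp (ac T) - 1) ≤ 1 / T / 2 := by
    have h1 : ac T ≤ 1 := by
      show 1 / (8 * (d : ℝ) * T) ≤ 1
      rw [div_le_one (by positivity)]
      have : (1 : ℝ) ≤ d := by exact_mod_cast hd
      nlinarith only [hd0, hT2, this]
    have h2 := Real.abs_exp_sub_one_le (x := ac T) (by rw [abs_of_nonneg hac0]; exact h1)
    rw [abs_of_nonneg hac0] at h2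
    have h3 := (le_abs_self _).trans h2
    calc 2 * d * (Real.exp (ac T) - 1) ≤ 2 * d * (2 * ac T) := by gcongr
      _ = 1 / T / 2 := by
          show 2 * (d : ℝ) * (2 * (1 / (8 * d * T))) = _
          field_simp
          norm_num
  have hκh : 2 * √(κ T) ≤ h := by
    have h1 : √(κ T) ≤ 1 / T := by
      apply Real.sqrt_le_iff.2
      refine ⟨by positivity, hκ2.trans (le_of_eq ?_)⟩
      rw [Real.rpow_neg hT0.le, Real.rpow_two]
      field_simp
    linarith only [show 0 < 1 / T by positivity, hh, h8, h1]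
  have hLR : 2 * (L T : ℝ) < T ^ β := by
    have := hL1 T hT0.le
    linarith only [hTβ, this]
  have hLn : 2 * L T ≤ n T := by
    have h1 := hL1 T hT0.le
    have h2 := hX1 T (by linarith only [hT2])
    have h3 := hn1 T
    have : (2 * (L T : ℝ)) ≤ n T := by nlinarith only [hT2, h1, h2, h3]
    exact_mod_cast this
  have hmain := ins_T htbp htot hcth hafv hdlb ν a b h C μ hd hB (ac T) (κ T) (N T) (q T) T
    (T ^ β) (L T) (n T) hT0 h8 hac0 hct rfl hκh rfl hLR hLn rfl
  refine le_trans (lintegral_mono fun V => ?_) (hmain.trans (ENNReal.ofReal_le_ofReal hU))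
  unfold spread
  apply lintegral_mono
  intro E
  apply ENNReal.tsum_le_tsum
  intro x
  by_cases hx : T ^ β₀ ≤ (sd 0 x : ℝ)
  · have h1 : T ^ β ≤ T ^ β₀ := Real.rpow_le_rpow_of_exponent_le (by linarith only [hT2]) hββ
    rw [if_pos hx, if_pos (h1.trans hx)]
  · rw [if_neg hx]
    exact zero_le

end Pool.Agent.Mob.H69
end
end -- Pool.Agent.Helper69_Mob.Ins

section -- Pool.Agent.Helper54_LE.APG1

/-!
# The kernel of the lattice at a complex energy
-/

set_option autoImplicit false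
set_option linter.unusedSectionVars false

open scoped InnerProductSpace ComplexConjugate Topology ENNReal
open MeasureTheory Filter

noncomputable section

namespace Pool.Agent.LE.H54

open Pool.Agent.Anderson Pool.Agent.Loc Pool.Agent.Helper54.Bal Pool.Agent.LY

variable {d : ℕ}

/-! ### averaging over finitely many sites -/

section marg

variable {ν : Measure ℝ} [IsProbabilityMeasure ν]

theorem lint_marg (S : Finset (Site d)) {f : Cfg d → ℝ≥0∞} (hf : Measurable f) :
    ∫⁻ V, f V ∂(PP d ν) = ∫⁻ V, (∫⋯∫⁻_S, f ∂(fun _ => ν)) V ∂(PP d ν) := by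
  classical
  induction S using Finset.induction_on with
  | empty => rw [lmarginal_empty]
  | insert u S hu ih =>
    rw [ih]
    have hg : Measurable fun V => (∫⋯∫⁻_S, f ∂(fun _ => ν)) V := hf.lmarginal _
    have hmp : MeasurePreserving (fun p : Cfg d × ℝ => Function.update p.1 u p.2)
      ((PP d ν).prod ν) (PP d ν) := Pool.Agent.QE.mpres (d := d) ν u
    calc ∫⁻ V, (∫⋯∫⁻_S, f ∂(fun _ => ν)) V ∂(PP d ν)
        = ∫⁻ p, (∫⋯∫⁻_S, f ∂(fun _ => ν)) (Function.update p.1 u p.2) ∂((PP d ν).prod ν) := by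
          rw [← lintegral_map hg hmp.measurable, hmp.map_eq]
      _ = ∫⁻ V, ∫⁻ v, (∫⋯∫⁻_S, f ∂(fun _ => ν)) (Function.update V u v) ∂ν ∂(PP d ν) :=
          lintegral_prod _ (hg.comp hmp.measurable).aemeasurable
      _ = _ := by
          refine lintegral_congr fun V => ?_
          rw [lmarginal_insert _ hf hu]

theorem PP_le_of_marg (S : Finset (Site d)) {f : Cfg d → ℝ≥0∞} (hf : Measurable f) {c : ℝ≥0∞}
    (h : ∀ V, (∫⋯∫⁻_S, f ∂(fun _ => ν)) V ≤ c) : ∫⁻ V, f V ∂(PP d ν) ≤ c := by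
  rw [lint_marg S hf]
  calc ∫⁻ V, (∫⋯∫⁻_S, f ∂(fun _ => ν)) V ∂(PP d ν) ≤ ∫⁻ _V, c ∂(PP d ν) :=
        lintegral_mono fun V => h V
    _ = c := by rw [lintegral_const, measure_univ, mul_one]

end marg

/-! ### the kernel -/

/-- the hopping operator on all functions -/
def lapLin (d : ℕ) : (Site d → ℂ) →ₗ[ℂ] (Site d → ℂ) where
  toFun f := lap f
  map_add' f g := by
    funext x
    simp only [lap, Pi.add_apply]
    rw [← Finset.sum_add_distrib]
    refine Finset.sum_congr rfl fun i _ => ?_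
    ring
  map_smul' c f := by
    funext x
    simp only [lap, Pi.smul_apply, smul_eq_mul, RingHom.id_apply]
    rw [Finset.mul_sum]
    refine Finset.sum_congr rfl fun i _ => ?_
    ring

/-- the kernel of the resolvent -/
def KI (z : ℂ) (V : Cfg d) : Kern (Site d) := fun x y => G V z (del y) x

theorem app_KI {z : ℂ} (V : Cfg d) (f : Site d →₀ ℂ) (x : Site d) :
    app (KI z V) f x = G V z (∑ y ∈ f.support, f y • (del y : L2 d)) x := by
  unfold app KI
  rw [map_sum, lp.coeFn_sum, Finset.sum_apply, Finsupp.sum]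
  refine Finset.sum_congr rfl fun y _ => ?_
  rw [map_smul, lp.coeFn_smul, Pi.smul_apply, smul_eq_mul, mul_comm]

theorem ker_KI {z : ℂ} (hz : 0 < z.im) (V : Cfg d) :
    Ker (lapLin d) (fun i => (V i : ℂ) - z) (KI z V) where
  symm x y := Pool.Agent.QE.G_symm hz.ne' x y
  eqn x y := by
    have h := G_eq (V := V) hz.ne' (del y) x
    rw [del_apply] at h
    exact h
  neg x := by simp [hz]
  pos f T := by
    set F : L2 d := ∑ y ∈ f.support, f y • (del y : L2 d) with hF
    have h1 : form (KI z V) f = ⟪F, G V z F⟫_ℂ := by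
      unfold form
      rw [hF, sum_inner, Finsupp.sum]
      refine Finset.sum_congr rfl fun x _ => ?_
      rw [app_KI, ← hF, inner_smul_left, inner_del_left]
    rw [h1, (isRes_G V).im_inner hz.ne']
    have h2 := lp.sum_rpow_le_norm_rpow (p := 2) (by norm_num) (G V z F) T
    have e2 : ((2 : ℝ≥0∞).toReal) = (2 : ℝ) := by norm_num
    rw [e2] at h2
    calc ∑ u ∈ T, (-((V u : ℂ) - z).im) * ‖app (KI z V) f u‖ ^ 2
        = z.im * ∑ u ∈ T, ‖G V z F u‖ ^ (2 : ℝ) := by
          rw [Finset.mul_sum]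
          refine Finset.sum_congr rfl fun u _ => ?_
          rw [app_KI, ← hF, Real.rpow_two]
          simp
      _ ≤ z.im * ‖G V z F‖ ^ (2 : ℝ) := mul_le_mul_of_nonneg_left h2 hz.le
      _ = _ := by rw [Real.rpow_two]

theorem KI_update {z : ℂ} (hz : 0 < z.im) (V : Cfg d) (i : Site d) (v : ℝ) :
    KI z (Function.update V i v) = upk i ((v : ℂ) - V i) (KI z V) := by
  funext x y
  set w : ℂ := (v : ℂ) - V i with hw
  set V' := Function.update V i v with hV'
  have hD := (ker_KI hz V).den_ne (w := w) (by simp [hw]) i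
  have key : ∀ x, KI z V x y = KI z V' x y + w * KI z V' i y * KI z V x i := by
    intro x
    have h := Pool.Agent.QE.G_upd (V := V) hz.ne' i v (del y)
    have h1 := congrArg (fun g : L2 d => g x) h
    simp only [lp.coeFn_add, Pi.add_apply, lp.coeFn_smul, Pi.smul_apply, smul_eq_mul] at h1
    exact h1
  have h1 : KI z V' i y = KI z V i y / (1 + w * KI z V i i) := by
    rw [eq_div_iff hD]
    linear_combination -(key i)
  have h2 := key x
  unfold upk
  rw [h1] at h2
  field_simp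
  field_simp at h2
  linear_combination -h2

theorem measurable_KI {z : ℂ} (hz : z.im ≠ 0) (x y : Site d) :
    Measurable fun V : Cfg d => KI z V x y := by
  have h := (Pool.Agent.QE.Cov.res (d := d) hz).meas (del y)
  have h2 : StronglyMeasurable fun V : Cfg d => ⟪(del x : L2 d), G V z (del y)⟫_ℂ :=
    stronglyMeasurable_const.inner h
  simp only [inner_del_left] at h2
  exact h2.measurable

theorem fam_KI {z : ℂ} (hz : 0 < z.im) :
    Fam (lapLin d) (fun i : Site d => i) z (KI z) where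
  ker V := ker_KI hz V
  upd V i v := KI_update hz V i v
  inj := fun _ _ h => h
  meas := measurable_KI hz.ne'

end Pool.Agent.LE.H54
end
end -- Pool.Agent.Helper54_LE.APG1

section -- Pool.Agent.Helper54_LE.APG2

/-!
# A priori bounds for the resolvent of the lattice
-/

set_option autoImplicit false
set_option linter.unusedSectionVars false

open scoped InnerProductSpace ComplexConjugate Topology ENNReal
open MeasureTheory Filter

noncomputable section

namespace Pool.Agent.LE.H54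

open Pool.Agent.Anderson Pool.Agent.Loc Pool.Agent.Mob Pool.Agent.Helper54.Bal Pool.Agent.LY

variable {d : ℕ}

theorem lapLin_apply (f : Site d → ℂ) (x : Site d) :
    lapLin d f x = ∑ t ∈ box x 1, (hop x t : ℂ) * f t :=
  lap_eq_sum f x (box x 1) le_rfl

section det

variable {W : Site d → ℂ} {K : Kern (Site d)} (h : Ker (lapLin d) W K) {M : ℝ}
include h

theorem hop_sum_leI s {b : ℝ} (hb : 0 ≤ b) {y : Site d}
    (hK : ∀ t : Site d, hop s t ≠ 0 → ‖K t y‖ ≤ b) :
    ‖lapLin d (fun t => K t y) s‖ ≤ 2 * d * b := by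
  rw [lapLin_apply]
  calc ‖∑ t ∈ box s 1, (hop s t : ℂ) * K t y‖ ≤ ∑ t ∈ box s 1, hop s t * b := by
        refine norm_sum_le_of_le _ fun t _ => ?_
        rw [norm_mul, Complex.norm_real, Real.norm_of_nonneg (hop_nonneg _ _)]
        by_cases h0 : hop s t = 0
        · rw [h0]; simp
        · exact mul_le_mul_of_nonneg_left (hK t h0) (hop_nonneg _ _)
    _ = (∑ t ∈ box s 1, hop s t) * b := by rw [← Finset.sum_mul]
    _ ≤ _ := mul_le_mul_of_nonneg_right (sum_hop_le _ _) hb

/-- lower bound if the potential is `- i M` near `x` -/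
theorem lowerI (hM : 32 * (d : ℝ) ^ 2 + 4 ≤ M) {x y : Site d}
    (hxy : x = y ∨ hop x y ≠ 0)
    (hW : ∀ t : Site d, sd x t ≤ 2 → (W t).im ≤ -M ∧ ‖W t‖ ≤ 2 * M) :
    1 / (16 * M ^ 2) ≤ ‖K x y‖ := by
  have hM0 : 0 < M := by
    have : 0 ≤ 32 * (d : ℝ) ^ 2 := by positivity
    linarith
  have hM1 : 1 ≤ M := by
    have : 0 ≤ 32 * (d : ℝ) ^ 2 := by positivity
    linarith only [hM, this]
  have hd0 : (0 : ℝ) ≤ d := Nat.cast_nonneg d
  have h2d : 2 * (d : ℝ) / M ≤ 1 / 2 := by
    rw [div_le_iff₀ hM0]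
    nlinarith only [sq_nonneg ((d : ℝ) - 1), hM]
  have hxy1 : sd x y ≤ 1 := by
    rcases hxy with rfl | h1
    · rw [sd_self]; norm_num
    · exact sd_of_hop h1
  have hnW : ∀ t : Site d, sd x t ≤ 2 → M ≤ ‖W t‖ := by
    intro t ht
    have h1 := (hW t ht).1
    have h2 := Complex.abs_im_le_norm (W t)
    have h3 : M ≤ |(W t).im| := by
      rw [abs_of_nonpos (by linarith only [hM0, h1])]
      linarith only [h1]
    linarith only [h2, h3]
  -- upper bounds
  have hyy : ‖K y y‖ ≤ 1 / M := by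
    have h1 := h.col y {y}
    rw [Finset.sum_singleton] at h1
    have h2 := (hW y (hxy1.trans (by norm_num))).1
    have h3 : (K y y).im ≤ ‖K y y‖ := (le_abs_self _).trans (Complex.abs_im_le_norm _)
    have h4 : M * ‖K y y‖ ^ 2 ≤ ‖K y y‖ := by
      have : M * ‖K y y‖ ^ 2 ≤ -(W y).im * ‖K y y‖ ^ 2 :=
        mul_le_mul_of_nonneg_right (by linarith only [h2]) (by positivity)
      linarith only [h1, h3, this]
    have h5 : 0 < ‖K y y‖ := norm_pos_iff.2 (h.ne_zero y)
    rw [le_div_iff₀ hM0]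
    have h6 : M * ‖K y y‖ * ‖K y y‖ ≤ 1 * ‖K y y‖ := by nlinarith only [h4]
    have := le_of_mul_le_mul_right h6 h5
    linarith
  have hup : ∀ t : Site d, sd x t ≤ 2 → ‖K t y‖ ≤ 1 / M := by
    intro t ht
    have h1 := h.col y {t}
    rw [Finset.sum_singleton] at h1
    have h2 := (hW t ht).1
    have h3 : (K y y).im ≤ ‖K y y‖ := (le_abs_self _).trans (Complex.abs_im_le_norm _)
    have h4 : M * ‖K t y‖ ^ 2 ≤ 1 / M := by
      have : M * ‖K t y‖ ^ 2 ≤ -(W t).im * ‖K t y‖ ^ 2 :=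
        mul_le_mul_of_nonneg_right (by linarith only [h2]) (by positivity)
      linarith only [hyy, h1, h3, this]
    have h5 : ‖K t y‖ ^ 2 ≤ (1 / M) ^ 2 := by
      rw [div_pow, one_pow, le_div_iff₀ (by positivity)]
      rw [le_div_iff₀ hM0] at h4
      nlinarith only [h4]
    exact (pow_le_pow_iff_left₀ (norm_nonneg _) (by positivity) two_ne_zero).1 h5
  have hnb : ∀ s : Site d, sd x s ≤ 1 → ‖lapLin d (fun t => K t y) s‖ ≤ 2 * d / M := by
    intro s hs
    have h1 := hop_sum_leI h s (b := 1 / M) (by positivity) (y := y) (fun t ht => by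
      apply hup
      have h2 := sd_of_hop ht
      have h3 := sd_triangle x s t
      omega)
    calc _ ≤ 2 * d * (1 / M) := h1
      _ = _ := by ring
  -- the diagonal element
  have hdiag : 1 / (4 * M) ≤ ‖K y y‖ := by
    have h1 := h.eqn y y
    rw [if_pos rfl] at h1
    have h2 := hnb y hxy1
    have h3 : W y * K y y = 1 - lapLin d (fun t => K t y) y := by linear_combination h1
    have h4 : 1 / 2 ≤ ‖W y * K y y‖ := by
      rw [h3]
      have h5 := norm_sub_norm_le (1 : ℂ) (lapLin d (fun t => K t y) y)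
      rw [norm_one] at h5
      linarith only [h2d, h2, h5]
    rw [norm_mul] at h4
    have h6 := (hW y (hxy1.trans (by norm_num))).2
    have h7 : 1 / 2 ≤ 2 * M * ‖K y y‖ := h4.trans (mul_le_mul_of_nonneg_right h6 (norm_nonneg _))
    rw [div_le_iff₀ (by positivity)]
    nlinarith only [h7]
  have hfin : 1 / (16 * M ^ 2) ≤ 1 / (4 * M) := by
    apply one_div_le_one_div_of_le (by positivity)
    nlinarith only [hM]
  rcases hxy with rfl | hne
  · exact hfin.trans hdiag
  · by_cases hxye : x = y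
    · subst hxye
      exact hfin.trans hdiag
    have hoff : ∀ s : Site d, hop x s ≠ 0 → s ≠ y → ‖K s y‖ ≤ 2 * d / M ^ 2 := by
      intro s hs hsy
      have h1 := h.eqn s y
      rw [if_neg hsy] at h1
      have h2 := hnb s (sd_of_hop hs)
      have h3 : ‖W s * K s y‖ ≤ 2 * d / M := by
        have : W s * K s y = -lapLin d (fun t => K t y) s := by linear_combination h1
        rw [this, norm_neg]
        exact h2
      rw [norm_mul] at h3
      have h4 := hnW s ((sd_of_hop hs).trans (by norm_num))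
      have h5 : M * ‖K s y‖ ≤ 2 * d / M :=
        (mul_le_mul_of_nonneg_right h4 (norm_nonneg _)).trans h3
      rw [le_div_iff₀ (by positivity)]
      rw [le_div_iff₀ hM0] at h5
      nlinarith only [h5]
    have h1 := h.eqn x y
    rw [if_neg hxye, lapLin_apply] at h1
    have hyb : y ∈ box x 1 := mem_box.2 hxy1
    rw [← Finset.add_sum_erase _ _ hyb] at h1
    set S : ℂ := ∑ t ∈ (box x 1).erase y, (hop x t : ℂ) * K t y with hS
    have hSle : ‖S‖ ≤ 2 * d * (2 * d / M ^ 2) := by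
      calc ‖S‖ ≤ ∑ t ∈ (box x 1).erase y, hop x t * (2 * d / M ^ 2) := by
            refine norm_sum_le_of_le _ fun t ht => ?_
            rw [norm_mul, Complex.norm_real, Real.norm_of_nonneg (hop_nonneg _ _)]
            by_cases h0 : hop x t = 0
            · rw [h0]; simp
            · exact mul_le_mul_of_nonneg_left (hoff t h0 (Finset.ne_of_mem_erase ht))
                (hop_nonneg _ _)
        _ ≤ ∑ t ∈ box x 1, hop x t * (2 * d / M ^ 2) := by
            apply Finset.sum_le_sum_of_subset_of_nonneg (Finset.erase_subset _ _)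
            intro t _ _
            have := hop_nonneg x t
            positivity
        _ = (∑ t ∈ box x 1, hop x t) * (2 * d / M ^ 2) := by rw [← Finset.sum_mul]
        _ ≤ _ := mul_le_mul_of_nonneg_right (sum_hop_le _ _) (by positivity)
    have h2 : W x * K x y = -((hop x y : ℂ) * K y y) - S := by linear_combination h1
    have h3 : 1 / (8 * M) ≤ ‖W x * K x y‖ := by
      rw [h2]
      have h4 := norm_sub_norm_le (-((hop x y : ℂ) * K y y)) S
      rw [norm_neg, norm_mul, Complex.norm_real, Real.norm_of_nonneg (hop_nonneg _ _)] at h4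
      have h5 : 1 / (4 * M) ≤ hop x y * ‖K y y‖ := by
        have := one_le_hop hne
        nlinarith only [norm_nonneg (K y y), hdiag, this]
      have h6 : 2 * (d : ℝ) * (2 * d / M ^ 2) ≤ 1 / (8 * M) := by
        rw [mul_div_assoc', div_le_div_iff₀ (by positivity) (by positivity)]
        nlinarith only [hM]
      have h7 : 1 / (4 * M) = 1 / (8 * M) + 1 / (8 * M) := by
        field_simp
        norm_num
      linarith only [hSle, h4, h5, h6, h7]
    rw [norm_mul] at h3
    have h8 := (hW x (by rw [sd_self]; norm_num)).2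
    have h9 : 1 / (8 * M) ≤ 2 * M * ‖K x y‖ := h3.trans
      (mul_le_mul_of_nonneg_right h8 (norm_nonneg _))
    rw [div_le_iff₀ (by positivity)] at h9 ⊢
    nlinarith only [h9]

end det


section prob

variable {ν : Measure ℝ} [IsProbabilityMeasure ν] {ρ : ℝ}

/-- complex energy, all other potentials fixed -/
theorem low_margI (hν : BddDens ν ρ) {M : ℝ} (hM : 32 * (d : ℝ) ^ 2 + 4 ≤ M)
    {z : ℂ} (hz : 0 < z.im) (hzM : ‖z‖ ≤ M) {x y : Site d}
    (hxy : x = y ∨ hop x y ≠ 0) (V : Cfg d) :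
    (∫⋯∫⁻_(box x 2), (fun V => (en (KI z V x y)) ^ (-(1 / 4) : ℝ)) ∂(fun _ => ν)) V ≤
      Clow d ν ρ M := by
  classical
  have hM1 : 1 ≤ M := by
    have : 0 ≤ 32 * (d : ℝ) ^ 2 := by positivity
    linarith only [hM, this]
  have h := (fam_KI (d := d) hz).neg_many hν hM1 (x := x) (y := y)
    (b := (ENNReal.ofReal (1 / (16 * M ^ 2))) ^ (-(1 / 4) : ℝ)) (B := box x 2) ?_ V
  · rw [Finset.image_id', card_box] at h
    exact h
  · intro l hl hlB V
    have hk := (fam_KI (d := d) hz).ker_KL (M := M) (by linarith) hl V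
    have hlow := lowerI hk hM hxy (fun t ht => by
      have htl : t ∈ l := (hlB t).2 (mem_box.2 ht)
      simp only [if_pos htl]
      constructor
      · simp only [Complex.sub_im, Complex.neg_im, Complex.mul_im, Complex.ofReal_re,
          Complex.I_im, Complex.ofReal_im, Complex.I_re]
        linarith
      · refine (norm_sub_le _ _).trans ?_
        rw [norm_neg, norm_mul, Complex.norm_I, Complex.norm_real,
          Real.norm_of_nonneg (by linarith)]
        linarith)
    rw [ENNReal.rpow_neg, ENNReal.rpow_neg]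
    apply ENNReal.inv_le_inv.2
    apply ENNReal.rpow_le_rpow _ (by norm_num)
    exact ENNReal.ofReal_le_ofReal hlow

theorem lowI (hν : BddDens ν ρ) {M : ℝ} (hM : 32 * (d : ℝ) ^ 2 + 4 ≤ M)
    {z : ℂ} (hz : 0 < z.im) (hzM : ‖z‖ ≤ M) {x y : Site d} (hxy : x = y ∨ hop x y ≠ 0) :
    ∫⁻ V, (en (KI z V x y)) ^ (-(1 / 4) : ℝ) ∂(PP d ν) ≤ Clow d ν ρ M :=
  PP_le_of_marg (box x 2) (((measurable_KI hz.ne' x y).norm.ennreal_ofReal).pow_const _)
    (low_margI hν hM hz hzM hxy)

/-- complex energy, all other potentials fixed -/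
theorem one_margI (hν : BddDens ν ρ) {z : ℂ} (hz : 0 < z.im) (u x y : Site d)
    {τ : ℝ} (hτ : 0 < τ) (V : Site d → ℝ) :
    (∫⋯∫⁻_{u}, ({V | τ * ‖KI z V x y‖ < ‖KI z V x u‖ * ‖KI z V u y‖}.indicator
      1) ∂(fun _ => ν)) V ≤ ENNReal.ofReal (8 * ρ / τ) := by
  have hρ := hν.1
  have hf := fam_KI (d := d) hz
  have hmS : MeasurableSet {V | τ * ‖KI z V x y‖ < ‖KI z V x u‖ * ‖KI z V u y‖} :=
    measurableSet_lt ((measurable_KI hz.ne' x y).norm.const_mul _)
      ((measurable_KI hz.ne' x u).norm.mul (measurable_KI hz.ne' u y).norm)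
  rw [lmarginal_singleton]
  set V' := Function.update V u 0 with hV'
  have hk := hf.ker V'
  have hupd : ∀ v : ℝ, KI z (Function.update V u v) = upk u (v : ℂ) (KI z V') := by
    intro v
    have e := hf.upd V' u v
    rw [hV', Function.update_idem, Function.update_self, Complex.ofReal_zero, sub_zero] at e
    exact e
  set K := KI z V' with hK
  set a : ℂ := -K x y / (K u u * K x y - K x u * K u y) with ha
  set a' : ℂ := -1 / K u u with ha'
  have hsub : {v : ℝ | τ * ‖upk u (v : ℂ) K x y‖ < ‖upk u (v : ℂ) K x u‖ * ‖upk u (v : ℂ) K u y‖} ⊆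
      Set.Icc (a.re - 2 / τ) (a.re + 2 / τ) ∪ Set.Icc (a'.re - 2 / τ) (a'.re + 2 / τ) ∪
        {v : ℝ | upk u (v : ℂ) K x y = 0 ∧ upk u (v : ℂ) K x u ≠ 0 ∧ upk u (v : ℂ) K u y ≠ 0} := by
    intro v hv
    simp only [Set.mem_ofPred_eq] at hv
    by_cases hN : upk u (v : ℂ) K x y = 0
    · right
      rw [hN, norm_zero, mul_zero] at hv
      refine ⟨hN, fun h0 => ?_, fun h0 => ?_⟩
      · rw [h0, norm_zero, zero_mul] at hv
        exact lt_irrefl _ hv
      · rw [h0, norm_zero, mul_zero] at hv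
        exact lt_irrefl _ hv
    left
    have h1 := hk.ratio_le u x y v hN
    rw [← ha, ← ha'] at h1
    have hNp : 0 < ‖upk u (v : ℂ) K x y‖ := norm_pos_iff.2 hN
    have h2 : τ < ‖(v : ℂ) - a‖⁻¹ + ‖(v : ℂ) - a'‖⁻¹ := by
      refine lt_of_lt_of_le ?_ h1
      rw [lt_div_iff₀ hNp]
      exact hv
    have key : ∀ b : ℂ, τ / 2 < ‖(v : ℂ) - b‖⁻¹ → v ∈ Set.Icc (b.re - 2 / τ) (b.re + 2 / τ) := by
      intro b hb
      have h3 : 0 < ‖(v : ℂ) - b‖ := by
        by_contra hcon
        have h4 : ‖(v : ℂ) - b‖ = 0 := le_antisymm (not_lt.1 hcon) (norm_nonneg _)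
        rw [h4, inv_zero] at hb
        linarith only [hτ, hb]
      have h5 : ‖(v : ℂ) - b‖ < 2 / τ := by
        rw [lt_div_iff₀ hτ]
        have h6 : τ / 2 * ‖(v : ℂ) - b‖ < 1 := by
          rw [← one_div, lt_div_iff₀ h3] at hb
          exact hb
        nlinarith only [h6]
      have h7 : |v - b.re| ≤ ‖(v : ℂ) - b‖ := by
        have := Complex.abs_re_le_norm ((v : ℂ) - b)
        simpa using this
      have h8 := abs_le.1 (h7.trans h5.le)
      constructor <;> linarith only [h8]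
    by_cases h9 : τ / 2 < ‖(v : ℂ) - a‖⁻¹
    · left; exact key a h9
    · right
      apply key a'
      push Not at h9
      linarith only [h2, h9]
  have hnull : ν {v : ℝ | upk u (v : ℂ) K x y = 0 ∧ upk u (v : ℂ) K x u ≠ 0 ∧
      upk u (v : ℂ) K u y ≠ 0} = 0 := by
    have hsub2 : {v : ℝ | upk u (v : ℂ) K x y = 0 ∧ upk u (v : ℂ) K x u ≠ 0 ∧
        upk u (v : ℂ) K u y ≠ 0} ⊆ {a.re} := by
      rintro v ⟨h1, h2, h3⟩
      have hD := hk.den_ne (w := (v : ℂ)) (by simp) u
      rw [upk_eq hD] at h1 h2 h3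
      set q := K u u * K x y - K x u * K u y with hq
      have h4 : K x y + v * q = 0 := by
        rcases div_eq_zero_iff.1 h1 with h | h
        · exact h
        · exact absurd h hD
      have h5 : K x u ≠ 0 := by
        intro h0
        apply h2
        rw [h0]; simp
      have h6 : K u y ≠ 0 := by
        intro h0
        apply h3
        rw [h0]; simp
      have hq0 : q ≠ 0 := by
        intro h0
        rw [h0, mul_zero, add_zero] at h4
        rw [hq, h4, mul_zero, zero_sub, neg_eq_zero] at h0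
        rcases mul_eq_zero.1 h0 with h | h
        · exact h5 h
        · exact h6 h
      have h7 : (v : ℂ) = a := by
        rw [ha]
        field_simp
        linear_combination h4
      rw [Set.mem_singleton_iff, ← h7, Complex.ofReal_re]
    exact le_antisymm ((measure_mono hsub2).trans (null_singleton hν _).le) zero_le
  calc ∫⁻ v, ({V | τ * ‖KI z V x y‖ < ‖KI z V x u‖ * ‖KI z V u y‖}.indicator 1 :
        (Site d → ℝ) → ℝ≥0∞) (Function.update V u v) ∂ν
      = ν {v : ℝ | τ * ‖upk u (v : ℂ) K x y‖ < ‖upk u (v : ℂ) K x u‖ * ‖upk u (v : ℂ) K u y‖} := by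
        have hms : MeasurableSet {v : ℝ | τ * ‖upk u (v : ℂ) K x y‖ <
            ‖upk u (v : ℂ) K x u‖ * ‖upk u (v : ℂ) K u y‖} := by
          have hmu : Measurable fun v : ℝ => Function.update V u v :=
            measurable_update V
          have := hmu hmS
          refine (MeasurableSet.congr this ?_)
          ext v
          simp only [Set.mem_preimage, Set.mem_ofPred_eq, hupd]
        rw [← lintegral_indicator_one hms]
        refine lintegral_congr fun v => ?_
        by_cases hv : τ * ‖upk u (v : ℂ) K x y‖ < ‖upk u (v : ℂ) K x u‖ * ‖upk u (v : ℂ) K u y‖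
        · rw [Set.indicator_of_mem (by simpa only [Set.mem_ofPred_eq, hupd] using hv),
            Set.indicator_of_mem (by simpa only [Set.mem_ofPred_eq] using hv)]
          rfl
        · rw [Set.indicator_of_notMem (by simpa only [Set.mem_ofPred_eq, hupd] using hv),
            Set.indicator_of_notMem (by simpa only [Set.mem_ofPred_eq] using hv)]
    _ ≤ ν (Set.Icc (a.re - 2 / τ) (a.re + 2 / τ)) + ν (Set.Icc (a'.re - 2 / τ) (a'.re + 2 / τ)) +
        0 := by
        refine (measure_mono hsub).trans ((measure_union_le _ _).trans ?_)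
        rw [hnull]
        gcongr
        exact measure_union_le _ _
    _ ≤ ENNReal.ofReal (ρ * (4 / τ)) + ENNReal.ofReal (ρ * (4 / τ)) + 0 := by
        gcongr
        · refine (hν.2 _ _).trans (le_of_eq ?_)
          congr 2; ring
        · refine (hν.2 _ _).trans (le_of_eq ?_)
          congr 2; ring
    _ = _ := by
        rw [add_zero, ← ENNReal.ofReal_add (by positivity) (by positivity)]
        congr 1
        ring


theorem oneI (hν : BddDens ν ρ) {z : ℂ} (hz : 0 < z.im) (u x y : Site d) {τ : ℝ} (hτ : 0 < τ) :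
    PP d ν {V | τ * ‖KI z V x y‖ < ‖KI z V x u‖ * ‖KI z V u y‖} ≤ ENNReal.ofReal (8 * ρ / τ) := by
  have hm : MeasurableSet {V : Cfg d | τ * ‖KI z V x y‖ < ‖KI z V x u‖ * ‖KI z V u y‖} :=
    measurableSet_lt ((measurable_KI hz.ne' x y).norm.const_mul _)
      ((measurable_KI hz.ne' x u).norm.mul (measurable_KI hz.ne' u y).norm)
  rw [← lintegral_indicator_one hm]
  exact PP_le_of_marg {u} (measurable_one.indicator hm) (one_margI hν hz u x y hτ)

/-- the diagonal elements -/
theorem diagI (hν : BddDens ν ρ) {z : ℂ} (hz : 0 < z.im) (x : Site d) {τ : ℝ} (hτ : 0 < τ) :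
    PP d ν {V | τ < ‖KI z V x x‖} ≤ ENNReal.ofReal (2 * ρ / τ) := by
  have hρ := hν.1
  have hm : MeasurableSet {V : Cfg d | τ < ‖KI z V x x‖} :=
    measurableSet_lt measurable_const (measurable_KI hz.ne' x x).norm
  rw [← lintegral_indicator_one hm]
  refine PP_le_of_marg {x} (measurable_one.indicator hm) fun V => ?_
  have hf := fam_KI (d := d) hz
  rw [lmarginal_singleton]
  set V' := Function.update V x 0 with hV'
  have hk := hf.ker V'
  have hupd : ∀ v : ℝ, KI z (Function.update V x v) = upk x (v : ℂ) (KI z V') := by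
    intro v
    have e := hf.upd V' x v
    rw [hV', Function.update_idem, Function.update_self, Complex.ofReal_zero, sub_zero] at e
    exact e
  set K := KI z V' with hK
  set a : ℂ := -1 / K x x with ha
  have hne := hk.ne_zero x
  have hsub : {v : ℝ | τ < ‖upk x (v : ℂ) K x x‖} ⊆ Set.Icc (a.re - 1 / τ) (a.re + 1 / τ) := by
    intro v hv
    rw [Set.mem_ofPred_eq] at hv
    have hD := hk.den_ne (w := (v : ℂ)) (by simp) x
    rw [upk_eq hD] at hv
    have e1 : (K x x + v * (K x x * K x x - K x x * K x x)) / (1 + v * K x x) =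
        ((v : ℂ) - a)⁻¹ := by
      have e2 : (v : ℂ) - a = (1 + v * K x x) / K x x := by
        rw [ha]
        field_simp
        ring
      rw [e2, inv_div]
      congr 1
      ring
    rw [e1, norm_inv] at hv
    have h3 : 0 < ‖(v : ℂ) - a‖ := by
      by_contra hcon
      have h4 : ‖(v : ℂ) - a‖ = 0 := le_antisymm (not_lt.1 hcon) (norm_nonneg _)
      rw [h4, inv_zero] at hv
      linarith only [hτ, hv]
    have h5 : ‖(v : ℂ) - a‖ < 1 / τ := by
      rw [lt_div_iff₀ hτ]
      rw [← one_div, lt_div_iff₀ h3] at hv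
      linarith
    have h7 : |v - a.re| ≤ ‖(v : ℂ) - a‖ := by
      have := Complex.abs_re_le_norm ((v : ℂ) - a)
      simpa using this
    have h8 := abs_le.1 (h7.trans h5.le)
    constructor <;> linarith only [h8]
  have hms : MeasurableSet {v : ℝ | τ < ‖upk x (v : ℂ) K x x‖} := by
    have hmu : Measurable fun v : ℝ => Function.update V x v := measurable_update V
    have := hmu hm
    refine (MeasurableSet.congr this ?_)
    ext v
    simp only [Set.mem_preimage, Set.mem_ofPred_eq, hupd]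
  calc ∫⁻ v, ({V : Cfg d | τ < ‖KI z V x x‖}.indicator 1 : Cfg d → ℝ≥0∞)
        (Function.update V x v) ∂ν
      = ν {v : ℝ | τ < ‖upk x (v : ℂ) K x x‖} := by
        rw [← lintegral_indicator_one hms]
        refine lintegral_congr fun v => ?_
        by_cases hv : τ < ‖upk x (v : ℂ) K x x‖
        · rw [Set.indicator_of_mem (by simpa only [Set.mem_ofPred_eq, hupd] using hv),
            Set.indicator_of_mem (by simpa only [Set.mem_ofPred_eq] using hv)]
          rfl
        · rw [Set.indicator_of_notMem (by simpa only [Set.mem_ofPred_eq, hupd] using hv),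
            Set.indicator_of_notMem (by simpa only [Set.mem_ofPred_eq] using hv)]
    _ ≤ ν (Set.Icc (a.re - 1 / τ) (a.re + 1 / τ)) := measure_mono hsub
    _ ≤ ENNReal.ofReal (ρ * ((a.re + 1 / τ) - (a.re - 1 / τ))) := hν.2 _ _
    _ = _ := by
        congr 1
        field_simp
        ring

theorem upI (hν : BddDens ν ρ) {z : ℂ} (hz : 0 < z.im) (x y : Site d) {τ : ℝ} (hτ : 0 < τ) :
    PP d ν {V | τ < ‖KI z V x y‖} ≤ ENNReal.ofReal (10 * ρ / τ) := by
  have hρ := hν.1
  have hsub : {V : Cfg d | τ < ‖KI z V x y‖} ⊆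
      {V | τ * ‖KI z V x x‖ < ‖KI z V x y‖ * ‖KI z V y x‖} ∪ {V | τ < ‖KI z V x x‖} := by
    intro V hV
    rw [Set.mem_ofPred_eq] at hV
    by_cases h : τ < ‖KI z V x x‖
    · exact Or.inr h
    · left
      rw [Set.mem_ofPred_eq, (ker_KI hz V).symm y x]
      push Not at h
      nlinarith only [hτ, hV, h]
  refine (measure_mono hsub).trans ((measure_union_le _ _).trans ?_)
  calc _ ≤ ENNReal.ofReal (8 * ρ / τ) + ENNReal.ofReal (2 * ρ / τ) :=
        add_le_add (oneI hν hz y x x hτ) (diagI hν hz x hτ)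
    _ = _ := by
        rw [← ENNReal.ofReal_add (by positivity) (by positivity)]
        congr 1
        ring

end prob

end Pool.Agent.LE.H54
end
end -- Pool.Agent.Helper54_LE.APG2

section -- Pool.Agent.Helper65_LCH.CPG

/-!
# CPG: completeness outside of a negligible set
-/

set_option autoImplicit false

open MeasureTheory ProbabilityTheory Function Filter

open scoped ENNReal BigOperators InnerProductSpace Topology

noncomputable section

namespace Pool.Agent.LE.H65C

open Pool.Agent.Anderson Pool.Agent.Loc Pool.Agent.Mob Pool.Agent.Helper54.Bal Pool.Agent.LE.CH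

variable {d : ℕ}

theorem box_mono' {n m : ℕ} (h : n ≤ m) : box (0 : Site d) n ⊆ box (0 : Site d) m := by
  intro y hy
  rw [mem_box] at hy ⊢
  exact hy.trans h

theorem exists_box (s : Finset (Site d)) : ∃ n : ℕ, s ⊆ box (0 : Site d) n := by
  classical
  induction s using Finset.induction_on with
  | empty => exact ⟨0, Finset.empty_subset _⟩
  | insert x s _ ih =>
    obtain ⟨n, hn⟩ := ih
    refine ⟨max n (sd 0 x), ?_⟩
    intro y hy
    rcases Finset.mem_insert.1 hy with rfl | hy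
    · rw [mem_box]
      exact le_max_right _ _
    · exact box_mono' (le_max_left _ _) (hn hy)

theorem tail (u : L2 d) {δ : ℝ} (hδ : 0 < δ) :
    ∃ n : ℕ, ‖u - ∑ x ∈ box (0 : Site d) n, u x • del x‖ ≤ δ := by
  classical
  have h1 : HasSum (fun x : Site d => u x • del x) u := by
    have h2 : HasSum (fun x => lp.single 2 x (u x)) u := lp.hasSum_single (by norm_num) u
    have h3 : (fun x : Site d => u x • del x) = fun x => lp.single 2 x (u x) := by
      funext x
      unfold del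
      rw [← lp.single_smul, smul_eq_mul, mul_one]
    rw [h3]
    exact h2
  have h2 := (Metric.tendsto_nhds.1 h1 δ hδ)
  obtain ⟨s, hs⟩ := Filter.eventually_atTop.1 h2
  obtain ⟨n, hn⟩ := exists_box s
  refine ⟨n, ?_⟩
  have h3 := hs _ hn
  rw [dist_eq_norm, norm_sub_rev] at h3
  exact h3.le

/-- boundedness on a compact set -/
theorem bdd_compact (wtc : WtcStmt) {V : Site d → ℝ} {u : L2 d} {O J K : Set ℝ}
    (hO : Cpl V O) (hu : Orth V J u) (hK : IsCompact K)
    (hloc : ∀ x ∈ K, ∃ s : ℝ, 0 < s ∧ Set.Icc (x - s) (x + s) ⊆ O ∧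
      Set.Icc (x - s) (x + s) ⊆ J) :
    ∃ C : ℝ, 0 ≤ C ∧ ∀ η : ℝ, 0 < η → ∀ E ∈ K, ‖G V (zz η E) u‖ ≤ C := by
  refine hK.induction_on (p := fun S => ∃ C : ℝ, 0 ≤ C ∧ ∀ η : ℝ, 0 < η →
    ∀ E ∈ S, ‖G V (zz η E) u‖ ≤ C) ?_ ?_ ?_ ?_
  · exact ⟨0, le_rfl, fun _ _ E hE => absurd hE (Set.notMem_empty E)⟩
  · rintro s t hst ⟨C, hC, h⟩
    exact ⟨C, hC, fun η hη E hE => h η hη E (hst hE)⟩
  · rintro s t ⟨C, hC, h⟩ ⟨C', hC', h'⟩
    refine ⟨max C C', hC.trans (le_max_left _ _), fun η hη E hE => ?_⟩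
    rcases hE with hE | hE
    · exact (h η hη E hE).trans (le_max_left _ _)
    · exact (h' η hη E hE).trans (le_max_right _ _)
  · intro x hx
    obtain ⟨s, hs, h1, h2⟩ := hloc x hx
    have hor : Orth V (Set.Icc (x - s) (x + s)) u := fun E φ hE hφ => hu E φ (h2 hE) hφ
    refine ⟨Set.Ioo (x - s / 2) (x + s / 2), ?_, 4 * ‖u‖ / s, by positivity, ?_⟩
    · exact mem_nhdsWithin_of_mem_nhds (Ioo_mem_nhds (by linarith only [hs]) (by linarith only [hs]))
    · intro η hη E hE
      have h3 := wtc d V x s η E u hη (hO x s h1) hor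
      have h4 : |E - x| < s / 2 := by
        rw [abs_lt]
        constructor <;> linarith [hE.1, hE.2]
      have h5 : s / 2 * ‖G V (zz η E) u‖ ≤ 2 * ‖u‖ :=
        (mul_le_mul_of_nonneg_right (by linarith) (norm_nonneg _)).trans h3
      rw [le_div_iff₀ hs]
      linarith only [h5]

/-- the compact part carries mass `O(η)` -/
theorem wt_compact (wtc : WtcStmt) {V : Site d → ℝ} {u : L2 d} {O J K : Set ℝ} {a r : ℝ}
    (hO : Cpl V O) (hu : Orth V J u) (hK : IsCompact K) (hKr : K ⊆ Set.Icc (a - r) (a + r))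
    (hloc : ∀ x ∈ K, ∃ s : ℝ, 0 < s ∧ Set.Icc (x - s) (x + s) ⊆ O ∧
      Set.Icc (x - s) (x + s) ⊆ J) (hr : 0 ≤ r) :
    ∃ C : ℝ, 0 ≤ C ∧ ∀ η : ℝ, 0 < η → wt V K η u ≤ ENNReal.ofReal (C * η) := by
  obtain ⟨C, hC, hb⟩ := bdd_compact wtc hO hu hK hloc
  refine ⟨C ^ 2 / Real.pi * (2 * r), by positivity, fun η hη => ?_⟩
  unfold wt
  calc ∫⁻ E in K, ENNReal.ofReal (η / Real.pi * ‖G V (zz η E) u‖ ^ 2)
      ≤ ∫⁻ _E in K, ENNReal.ofReal (η / Real.pi * C ^ 2) := by
        refine setLIntegral_mono' hK.measurableSet fun E hE => ENNReal.ofReal_le_ofReal ?_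
        exact mul_le_mul_of_nonneg_left
          (pow_le_pow_left₀ (norm_nonneg _) (hb η hη E hE) 2) (by positivity)
    _ = ENNReal.ofReal (η / Real.pi * C ^ 2) * volume K := by rw [setLIntegral_const]
    _ ≤ ENNReal.ofReal (η / Real.pi * C ^ 2) * ENNReal.ofReal (2 * r) := by
        refine mul_le_mul_right ?_ _
        refine (measure_mono hKr).trans ?_
        rw [Real.volume_Icc]
        exact ENNReal.ofReal_le_ofReal (by linarith)
    _ = ENNReal.ofReal (C ^ 2 / Real.pi * (2 * r) * η) := by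
        rw [← ENNReal.ofReal_mul (by positivity)]
        congr 1
        ring

theorem cpg (wta : WtaStmt) (wtl : WtlStmt) (wtc : WtcStmt) (wtq : WtqStmt) : CpgStmt := by
  intro d V U O I hO hU hS hI hC a r har u w hw hOr
  by_cases hr : r ≤ 0
  · exact (mul_nonpos_of_nonpos_of_nonneg hr (norm_nonneg _)).trans (norm_nonneg _)
  push Not at hr
  have hN := norm_nonneg (w - (a : ℂ) • u)
  have key : ∀ r' : ℝ, 0 < r' → r' < r → r' * ‖u‖ ≤ ‖w - (a : ℂ) • u‖ := by
    intro r' hr' hrr'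
    refine (pow_le_pow_iff_left₀ (by positivity) hN two_ne_zero).1 ?_
    refine le_of_forall_pos_le_add fun ε hε => ?_
    obtain ⟨δ, hδ⟩ : ∃ δ : ℝ, δ = min 1 (ε / (8 * r' ^ 2)) := ⟨_, rfl⟩
    have hδ0 : 0 < δ := by rw [hδ]; exact lt_min one_pos (by positivity)
    have hδ1 : δ ≤ 1 := by rw [hδ]; exact min_le_left _ _
    have hδ2 : r' ^ 2 * (2 * δ ^ 2) ≤ ε / 4 := by
      have h1 : δ ≤ ε / (8 * r' ^ 2) := by rw [hδ]; exact min_le_right _ _
      have h2 : δ * (8 * r' ^ 2) ≤ ε := (le_div_iff₀ (by positivity)).1 h1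
      have h3 : δ ^ 2 ≤ δ := by nlinarith only [hδ0, hδ1]
      have h4 : r' ^ 2 * δ ^ 2 ≤ r' ^ 2 * δ := mul_le_mul_of_nonneg_left h3 (by positivity)
      nlinarith only [h2, h4]
    obtain ⟨n, hn⟩ := tail u hδ0
    obtain ⟨e, he⟩ : ∃ e : ℝ, e = ε / (8 * r' ^ 2 * (‖u‖ ^ 2 + 1)) := ⟨_, rfl⟩
    have he0 : 0 < e := by rw [he]; positivity
    have he1 : r' ^ 2 * (2 * ‖u‖ ^ 2 * e) ≤ ε / 4 := by
      have h1 : e * (8 * r' ^ 2 * (‖u‖ ^ 2 + 1)) = ε := by
        rw [he]; field_simp
      have h2 : 0 ≤ e * r' ^ 2 := by positivity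
      nlinarith only [h1, h2]
    obtain ⟨k, hk⟩ := hS n e he0
    obtain ⟨J, hJ⟩ : ∃ J : Set ℝ, J = Set.Icc (a - r') (a + r') := ⟨_, rfl⟩
    have hJI : J ⊆ Set.Icc (a - r) (a + r) := by
      rw [hJ]
      exact Set.Icc_subset_Icc (by linarith only [hrr']) (by linarith only [hrr'])
    have hKc : IsCompact (J \ U k) := by
      rw [hJ]
      exact isCompact_Icc.diff (hU k)
    obtain ⟨C', hC'0, hC'⟩ := wt_compact (a := a) (r := r) wtc hC hOr hKc
      (Set.sdiff_subset.trans hJI) (by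
        intro x hx
        have hxI : x ∈ I := har (hJI hx.1)
        have hxO : x ∈ O := by
          rcases hI k hxI with h | h
          · exact h
          · exact absurd h hx.2
        obtain ⟨s, hs, hsO⟩ := Metric.isOpen_iff.1 hO x hxO
        have hxJ : a - r' ≤ x ∧ x ≤ a + r' := by
          have := hx.1
          rw [hJ] at this
          exact this
        refine ⟨min (s / 2) (r - r'), lt_min (by linarith only [hs]) (by linarith only [hrr']), ?_, ?_⟩
        · intro y hy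
          apply hsO
          have h1 := min_le_left (s / 2) (r - r')
          rw [Metric.mem_ball, Real.dist_eq, abs_lt]
          constructor <;> linarith only [hy.1, hy.2, hs, h1]
        · intro y hy
          have h1 := min_le_right (s / 2) (r - r')
          constructor <;> linarith only [hy.1, hy.2, hxJ.1, hxJ.2, h1]) hr.le
    -- small `η`
    have ht1 : Tendsto (fun η : ℝ => (r' ^ 2 + 3 * r') * √η * ‖u‖ ^ 2) (𝓝 0) (𝓝 0) := by
      have h1 : Continuous fun η : ℝ => (r' ^ 2 + 3 * r') * √η * ‖u‖ ^ 2 := by fun_prop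
      refine h1.tendsto' _ _ ?_
      rw [Real.sqrt_zero, mul_zero, zero_mul]
    have ht2 : Tendsto (fun η : ℝ => r' ^ 2 * (C' * η)) (𝓝 0) (𝓝 0) := by
      have h1 : Continuous fun η : ℝ => r' ^ 2 * (C' * η) := by fun_prop
      refine h1.tendsto' _ _ ?_
      rw [mul_zero, mul_zero]
    have htm : Tendsto (fun m : ℕ => 1 / ((m : ℝ) + 1)) atTop (𝓝 0) :=
      tendsto_one_div_add_atTop_nhds_zero_nat
    have hev1 := (ht1.comp htm).eventually (ge_mem_nhds (show (0 : ℝ) < ε / 4 by positivity))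
    have hev2 := (ht2.comp htm).eventually (ge_mem_nhds (show (0 : ℝ) < ε / 4 by positivity))
    obtain ⟨m, hm0, hm1, hm2⟩ := (hk.and_eventually (hev1.and hev2)).exists
    obtain ⟨η, hη⟩ : ∃ η : ℝ, η = 1 / ((m : ℝ) + 1) := ⟨_, rfl⟩
    have hη0 : 0 < η := by rw [hη]; positivity
    have hη1 : η ≤ 1 := by
      rw [hη]
      exact (div_le_one (by positivity)).2 (by linarith only [Nat.cast_nonneg (α := ℝ) m])
    rw [← hη] at hm0
    have hm1' : (r' ^ 2 + 3 * r') * √η * ‖u‖ ^ 2 ≤ ε / 4 := by rw [hη]; exact hm1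
    have hm2' : r' ^ 2 * (C' * η) ≤ ε / 4 := by rw [hη]; exact hm2
    -- the splitting of the vector
    obtain ⟨un, hun⟩ : ∃ un : L2 d, un = ∑ x ∈ box (0 : Site d) n, u x • del x := ⟨_, rfl⟩
    obtain ⟨vn, hvn⟩ : ∃ vn : L2 d, vn = u - un := ⟨_, rfl⟩
    have hsplit : u = un + vn := by rw [hvn]; abel
    have hvnn : ‖vn‖ ≤ δ := by rw [hvn, hun]; exact hn
    have hU1 : wt V (U k) η u ≤ 2 * wt V (U k) η un + 2 * wt V (U k) η vn := by
      have h := (wta d V (U k) η hη0).1 un vn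
      rwa [← hsplit] at h
    have hU2 : wt V (U k) η un ≤ ENNReal.ofReal (‖u‖ ^ 2) * ENNReal.ofReal e := by
      rw [hun]
      exact ((wta d V (U k) η hη0).2.2 n u).trans (mul_le_mul_right hm0.le _)
    have hU3 : wt V (U k) η vn ≤ ENNReal.ofReal (δ ^ 2) :=
      (wtl d V (U k) η vn hη0).trans (ENNReal.ofReal_le_ofReal
        (pow_le_pow_left₀ (norm_nonneg _) hvnn 2))
    have hU4 : wt V (U k) η u ≤ ENNReal.ofReal (2 * ‖u‖ ^ 2 * e + 2 * δ ^ 2) := by
      refine hU1.trans ?_
      have e1 : ENNReal.ofReal (2 * ‖u‖ ^ 2 * e + 2 * δ ^ 2) =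
          2 * (ENNReal.ofReal (‖u‖ ^ 2) * ENNReal.ofReal e) + 2 * ENNReal.ofReal (δ ^ 2) := by
        rw [ENNReal.ofReal_add (by positivity) (by positivity), mul_assoc,
          ENNReal.ofReal_mul (by norm_num : (0 : ℝ) ≤ 2),
          ENNReal.ofReal_mul (by norm_num : (0 : ℝ) ≤ 2),
          ENNReal.ofReal_mul (by positivity)]
        norm_num
      rw [e1]
      gcongr
    have hW : wt V J η u ≤ ENNReal.ofReal (C' * η + (2 * ‖u‖ ^ 2 * e + 2 * δ ^ 2)) := by
      have h1 : wt V J η u ≤ wt V (J \ U k) η u + wt V (U k) η u := by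
        unfold wt
        refine (lintegral_mono_set (show J ⊆ (J \ U k) ∪ U k from ?_)).trans
          (lintegral_union_le _ _ _)
        intro y hy
        by_cases h : y ∈ U k
        · exact Or.inr h
        · exact Or.inl ⟨hy, h⟩
      refine h1.trans ?_
      rw [ENNReal.ofReal_add (by positivity) (by positivity)]
      exact add_le_add (hC' η hη0) hU4
    have hmain := wtq d V a r' η u w hr'.le hη0 hη1 hw
    rw [← hJ] at hmain
    have hfin : ENNReal.ofReal (r' ^ 2 * ‖u‖ ^ 2) ≤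
        ENNReal.ofReal ((‖w - (a : ℂ) • u‖ ^ 2 + (r' ^ 2 + 3 * r') * √η * ‖u‖ ^ 2) +
          r' ^ 2 * (C' * η + (2 * ‖u‖ ^ 2 * e + 2 * δ ^ 2))) := by
      refine hmain.trans ?_
      have e4 : ENNReal.ofReal ((‖w - (a : ℂ) • u‖ ^ 2 + (r' ^ 2 + 3 * r') * √η * ‖u‖ ^ 2) +
          r' ^ 2 * (C' * η + (2 * ‖u‖ ^ 2 * e + 2 * δ ^ 2))) =
          ENNReal.ofReal (‖w - (a : ℂ) • u‖ ^ 2 + (r' ^ 2 + 3 * r') * √η * ‖u‖ ^ 2) +
          ENNReal.ofReal (r' ^ 2) *
            ENNReal.ofReal (C' * η + (2 * ‖u‖ ^ 2 * e + 2 * δ ^ 2)) := by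
        rw [← ENNReal.ofReal_mul (show (0 : ℝ) ≤ r' ^ 2 by positivity)]
        exact ENNReal.ofReal_add (by positivity) (by positivity)
      rw [e4]
      exact add_le_add le_rfl (mul_le_mul_right hW _)
    have hreal := (ENNReal.ofReal_le_ofReal_iff (by positivity)).1 hfin
    have e2 : (r' * ‖u‖) ^ 2 = r' ^ 2 * ‖u‖ ^ 2 := by ring
    rw [e2]
    have e3 : r' ^ 2 * (C' * η + (2 * ‖u‖ ^ 2 * e + 2 * δ ^ 2)) =
        r' ^ 2 * (C' * η) + r' ^ 2 * (2 * ‖u‖ ^ 2 * e) + r' ^ 2 * (2 * δ ^ 2) := by ring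
    rw [e3] at hreal
    linarith only [hδ2, he1, hm1', hm2', hreal]
  have htend : Tendsto (fun r' : ℝ => r' * ‖u‖) (𝓝[<] r) (𝓝 (r * ‖u‖)) :=
    ((continuous_id.mul continuous_const).tendsto' r (r * ‖u‖) rfl).mono_left
      nhdsWithin_le_nhds
  refine le_of_tendsto htend ?_
  filter_upwards [Ioo_mem_nhdsLT hr] with r' hr'
  exact key r' hr'.1 hr'.2

end Pool.Agent.LE.H65C
end
end -- Pool.Agent.Helper65_LCH.CPG
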