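import Pool.Agent.Helper12_MEB.B029
import Pool.Agent.Helper12_MEB.B034
import Pool.Agent.Helper12_MEB.B050

/-!
# Merged copies (generated) of the modules

* `Pool.Agent.Helper42_Mob.Fin`
* `Pool.Agent.Helper5_Mob.Num`
* `Pool.Agent.Helper5_Mob.Ini`
* `Pool.Agent.Helper17_Mob.In2`
* `Pool.Agent.Helper31_Mob.Weg`
* `Pool.Agent.Helper65_Mob.Fvl`
* `Pool.Agent.Helper42_Mob.Fin2`
* `Pool.Agent.Helper65_Mob.Fv2`
* `Pool.Agent.Helper42_Mob.Fin3`
* `Pool.Agent.Helper76_Mob.Afv`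
* `Pool.Agent.Helper56_LCH.FVG`
* `Pool.Agent.Helper81_LCH.AVL`
-/

set_option autoImplicit false

section -- Pool.Agent.Helper42_Mob.Fin

/-!
# Metal-insulator transport transition: assembly
-/

set_option autoImplicit false
set_option linter.unusedSectionVars false

open MeasureTheory ProbabilityTheory Function

open scoped ENNReal BigOperators ComplexInnerProductSpace

noncomputable section

namespace Pool.Agent.Mob.H42

open Pool.Agent.Anderson Pool.Agent.Loc Pool.Agent.Helper54.Bal Pool.Agent.Mob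

variable {d : ℕ}

theorem isOpen_LocSet (d : ℕ) (C₀ σ : ℝ) : IsOpen (LocSet d C₀ σ) := by
  rw [Metric.isOpen_iff]
  rintro E ⟨h, hh, L, hL⟩
  refine ⟨h / 2, by positivity, ?_⟩
  intro F hF
  rw [Metric.mem_ball, Real.dist_eq, abs_lt] at hF
  refine ⟨h / 2, by positivity, L, fun F' hF' => hL F' ?_⟩
  rw [Set.mem_Icc] at hF' ⊢
  constructor <;> linarith only [hF'.1, hF'.2, hF.1, hF.2]

/-! ### monotonicity of `TB` and `Sep` -/

theorem good_mono {V : Site d → ℝ} {Λ : Finset (Site d)} {E : ℝ} {x y : Site d} {s t : ℝ}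
    (h : Good V Λ E x y s) (hst : s ≤ t) : Good V Λ E x y t := ⟨h.1, h.2.trans_le hst⟩

theorem fgood_mono {V : Site d → ℝ} {L : ℕ} {x : Site d} {E μ μ' : ℝ} (h : FGood V L x E μ)
    (hμ : μ' ≤ μ) : FGood V L x E μ' := by
  intro u hu
  refine good_mono (h u hu) (Real.exp_le_exp.2 ?_)
  have : (0:ℝ) ≤ L := by positivity
  nlinarith only [hμ]

theorem tb_mono {V : Site d → ℝ} {I J : Set ℝ} {μ μ' : ℝ} {L₀ L₁ : ℕ} (h : TB V I μ L₀)
    (hJ : J ⊆ I) (hμ : μ' ≤ μ) (hL : L₀ ≤ L₁) : TB V J μ' L₁ := by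
  intro L hL' x hx y hy hxy E hE
  rcases h L (hL.trans hL') x hx y hy hxy E (hJ hE) with h | h
  · exact Or.inl (fgood_mono h hμ)
  · exact Or.inr (fgood_mono h hμ)

theorem tb_iUnion {V : Site d → ℝ} {ι : Type*} (s : Finset ι) {I : ι → Set ℝ} {μ : ι → ℝ}
    {μ' : ℝ} (hμ : ∀ i ∈ s, μ' ≤ μ i) (h : ∀ i ∈ s, ∃ L₀, TB V (I i) (μ i) L₀) :
    ∃ L₀, TB V (⋃ i ∈ s, I i) μ' L₀ := by
  classical
  choose! L₀ hL₀ using h
  refine ⟨s.sup L₀, ?_⟩
  intro L hL x hx y hy hxy E hE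
  simp only [Set.mem_iUnion, exists_prop] at hE
  obtain ⟨i, hi, hEi⟩ := hE
  exact tb_mono (hL₀ i hi) le_rfl (hμ i hi) (Finset.le_sup hi) L hL x hx y hy hxy E hEi

theorem sep_mono {V : Site d → ℝ} {I J : Set ℝ} {k₀ : ℕ} (h : Sep V I k₀) (hJ : J ⊆ I) :
    Sep V J k₀ := fun k hk E hE => h k hk E (hJ hE)

/-! ### countably many intervals -/

/-- the criterion holds at one scale in the interval -/
def GI (d : ℕ) (C₀ σ : ℝ) (p : ℚ × ℚ) : Prop :=
  ∃ L : ℕ, ∀ F ∈ Set.Icc (p.1 : ℝ) (p.2 : ℝ), Crit d C₀ σ F L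

theorem cover {C₀ σ : ℝ} {K : Set ℝ} (hK : IsCompact K) (hsub : K ⊆ LocSet d C₀ σ) :
    ∃ s : Finset (ℚ × ℚ), (∀ p ∈ s, GI d C₀ σ p) ∧
      K ⊆ ⋃ p ∈ s, Set.Icc (p.1 : ℝ) (p.2 : ℝ) := by
  classical
  have hex : ∀ E ∈ K, ∃ p : ℚ × ℚ, GI d C₀ σ p ∧ E ∈ Set.Ioo (p.1 : ℝ) (p.2 : ℝ) := by
    intro E hE
    obtain ⟨h, hh, L, hL⟩ := hsub hE
    obtain ⟨q₁, h1, h2⟩ := exists_rat_btwn (show E - h < E by linarith)
    obtain ⟨q₂, h3, h4⟩ := exists_rat_btwn (show E < E + h by linarith)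
    refine ⟨(q₁, q₂), ⟨L, fun F hF => hL F ?_⟩, h2, h3⟩
    rw [Set.mem_Icc] at hF ⊢
    simp only at hF
    constructor <;> linarith [hF.1, hF.2]
  choose! p hp1 hp2 using hex
  obtain ⟨t, ht, hcov⟩ := hK.elim_nhds_subcover (fun E => Set.Ioo ((p E).1 : ℝ) ((p E).2 : ℝ))
    (fun E hE => isOpen_Ioo.mem_nhds (hp2 E hE))
  refine ⟨t.image p, ?_, ?_⟩
  · intro q hq
    obtain ⟨E, hE, rfl⟩ := Finset.mem_image.1 hq
    exact hp1 E (ht E hE)
  · intro E hE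
    have := hcov hE
    simp only [Set.mem_iUnion, exists_prop] at this ⊢
    obtain ⟨F, hF, hEF⟩ := this
    exact ⟨p F, Finset.mem_image.2 ⟨F, hF, rfl⟩, Set.Ioo_subset_Icc_self hEF⟩

/-- the rates -/
theorem exists_rate (hBdc : BdcStmt) (hTbx : TbxStmt) (hd : 1 ≤ d) {C₀ σ : ℝ} (hC₀ : 0 < C₀)
    (hσ : σ ≠ 0) (hB : BlkAt d C₀ σ) :
    ∃ μ : ℚ × ℚ → ℝ, (∀ p, 0 < μ p) ∧ ∀ p, GI d C₀ σ p →
      ∀ᵐ V ∂(PP d (gl σ)), ∃ L₀, TB V (Set.Icc (p.1 : ℝ) (p.2 : ℝ)) (μ p) L₀ := by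
  have h : ∀ p : ℚ × ℚ, ∃ μ : ℝ, 0 < μ ∧ (GI d C₀ σ p →
      ∀ᵐ V ∂(PP d (gl σ)), ∃ L₀, TB V (Set.Icc (p.1 : ℝ) (p.2 : ℝ)) μ L₀) := by
    intro p
    by_cases hp : GI d C₀ σ p
    · obtain ⟨L, hL⟩ := hp
      obtain ⟨C, μ, hμ, hdec⟩ := hBdc d C₀ σ hd hC₀ hσ hB _ L hL
      exact ⟨μ, hμ, fun _ => hTbx d (gl σ) _ _ C μ hd hμ hdec⟩
    · exact ⟨1, one_pos, fun h => absurd h hp⟩
  choose μ h1 h2 using h
  exact ⟨μ, h1, h2⟩

/-- localization on compact sets -/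
theorem loc_compact (hDcy : DcyStmt) (hd : 1 ≤ d) {C₀ σ : ℝ} {μ : ℚ × ℚ → ℝ}
    (hμ : ∀ p, 0 < μ p) (hTB : ∀ p, GI d C₀ σ p →
      ∀ᵐ V ∂(PP d (gl σ)), ∃ L₀, TB V (Set.Icc (p.1 : ℝ) (p.2 : ℝ)) (μ p) L₀)
    {K : Set ℝ} (hK : IsCompact K) (hsub : K ⊆ LocSet d C₀ σ) :
    ∃ m : ℝ, 0 < m ∧ ∀ᵐ V ∂(PP d (gl σ)), ∀ E ∈ K, ∀ ψ : Site d → ℂ,
      (∃ (K : ℝ) (k : ℕ), ∀ x, ‖ψ x‖ ≤ K * (1 + (sd 0 x : ℝ)) ^ k) →
      (∀ x, lap ψ x + (V x : ℂ) * ψ x = (E : ℂ) * ψ x) →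
      ∃ K : ℝ, ∀ x, ‖ψ x‖ ≤ K * Real.exp (-m * sd 0 x) := by
  classical
  obtain ⟨s, hs, hcov⟩ := cover hK hsub
  obtain ⟨μ', hμ', hle⟩ : ∃ μ' : ℝ, 0 < μ' ∧ ∀ p ∈ s, μ' ≤ μ p := by
    rcases s.eq_empty_or_nonempty with h | h
    · subst h; exact ⟨1, one_pos, fun p hp => absurd hp (Finset.notMem_empty p)⟩
    · obtain ⟨q, hq, hmin⟩ := s.exists_min_image μ h
      exact ⟨μ q, hμ q, hmin⟩
  refine ⟨μ' / 4, by positivity, ?_⟩
  have hall : ∀ᵐ V ∂(PP d (gl σ)), ∀ p ∈ s,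
      ∃ L₀, TB V (Set.Icc (p.1 : ℝ) (p.2 : ℝ)) (μ p) L₀ := by
    exact (ae_ball_iff s.countable_toSet).2 fun p hp => hTB p (hs p hp)
  filter_upwards [hall] with V hV E hE ψ hpoly hψ
  obtain ⟨L₀, hL₀⟩ := tb_iUnion s hle hV
  exact hDcy d V _ μ' L₀ hd hμ' hL₀ E (hcov hE) ψ hpoly hψ

/-- completeness, simultaneously for all compact intervals -/
theorem loc_complete (hSep : SepStmt) (hCmp : CmpStmt) (hd : 1 ≤ d) {C₀ σ : ℝ} (hσ : σ ≠ 0)
    {μ : ℚ × ℚ → ℝ} (hμ : ∀ p, 0 < μ p) (hTB : ∀ p, GI d C₀ σ p →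
      ∀ᵐ V ∂(PP d (gl σ)), ∃ L₀, TB V (Set.Icc (p.1 : ℝ) (p.2 : ℝ)) (μ p) L₀) :
    ∀ᵐ V ∂(PP d (gl σ)), ∀ c r : ℝ, Set.Icc (c - r) (c + r) ⊆ LocSet d C₀ σ →
      ∀ u w : L2 d, (∀ x, w x = lap u x + (V x : ℂ) * u x) →
        (∀ (E : ℝ) (ψ : L2 d), E ∈ Set.Icc (c - r) (c + r) → IsEigen V E ψ → ⟪ψ, u⟫ = 0) →
        r * ‖u‖ ≤ ‖w - (c : ℂ) • u‖ := by
  classical
  have hall : ∀ᵐ V ∂(PP d (gl σ)), ∀ p : ℚ × ℚ, GI d C₀ σ p →
      ∃ L₀, TB V (Set.Icc (p.1 : ℝ) (p.2 : ℝ)) (μ p) L₀ := by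
    rw [ae_all_iff]
    intro p
    by_cases hp : GI d C₀ σ p
    · filter_upwards [hTB p hp] with V hV _
      exact hV
    · exact Filter.Eventually.of_forall fun V h => absurd h hp
  have hsep : ∀ᵐ V ∂(PP d (gl σ)), ∀ N : ℕ, ∃ k₀, Sep V (Set.Icc (-(N : ℝ)) N) k₀ := by
    rw [ae_all_iff]
    intro N
    exact hSep d (gl σ) (1 / |σ|) (bddDens_gl hσ) _ _
  filter_upwards [hall, hsep] with V hV hS c r hsub u w hw horth
  obtain ⟨s, hs, hcov⟩ := cover isCompact_Icc hsub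
  obtain ⟨μ', hμ', hle⟩ : ∃ μ' : ℝ, 0 < μ' ∧ ∀ p ∈ s, μ' ≤ μ p := by
    rcases s.eq_empty_or_nonempty with h | h
    · subst h; exact ⟨1, one_pos, fun p hp => absurd hp (Finset.notMem_empty p)⟩
    · obtain ⟨q, hq, hmin⟩ := s.exists_min_image μ h
      exact ⟨μ q, hμ q, hmin⟩
  obtain ⟨L₀, hL₀⟩ := tb_iUnion s hle fun p hp => hV p (hs p hp)
  obtain ⟨N, hN⟩ := exists_nat_ge (|c| + |r|)
  obtain ⟨k₀, hk₀⟩ := hS N
  have hI : Set.Icc (c - r) (c + r) ⊆ Set.Icc (-(N : ℝ)) N := by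
    intro E hE
    rw [Set.mem_Icc] at hE ⊢
    have h1 := neg_abs_le c
    have h2 := le_abs_self c
    have h3 := neg_abs_le r
    have h4 := le_abs_self r
    constructor <;> linarith [hE.1, hE.2]
  exact hCmp d V c r μ' L₀ k₀ hd hμ' (tb_mono hL₀ hcov le_rfl le_rfl) (sep_mono hk₀ hI) u w hw horth

/-! ### transfer to an arbitrary probability space -/

section Space

universe u

variable {Ω : Type u} [MeasurableSpace Ω] {P : Measure Ω} [IsProbabilityMeasure P]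
  {ξ : Site d → Ω → ℝ}

theorem map_eq_PP (hm : ∀ y, Measurable (ξ y)) (hlaw : ∀ y, P.map (ξ y) = gaussianReal 0 1)
    (hind : iIndepFun ξ P) (σ : ℝ) :
    P.map (fun ω y => σ * ξ y ω) = PP d (gl σ) := by
  have hσm : Measurable fun r : ℝ => σ * r := measurable_const_mul σ
  have h1 : iIndepFun (fun x ω => σ * ξ x ω) P := hind.comp (fun _ r => σ * r) fun _ => hσm
  have h2 := h1.map_fun_eq_infinitePi_map fun x => (hm x).const_mul σ
  have h3 : ∀ x : Site d, P.map (fun ω => σ * ξ x ω) = gl σ := by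
    intro x
    unfold gl γ1
    rw [← hlaw x, Measure.map_map hσm (hm x)]
    rfl
  simp only [h3] at h2
  exact h2

theorem measurable_W (hm : ∀ y, Measurable (ξ y)) (σ : ℝ) :
    Measurable (fun ω (y : Site d) => σ * ξ y ω) :=
  measurable_pi_lambda _ fun x => (hm x).const_mul σ

theorem ae_transfer (hm : ∀ y, Measurable (ξ y)) (hlaw : ∀ y, P.map (ξ y) = gaussianReal 0 1)
    (hind : iIndepFun ξ P) (σ : ℝ) {p : (Site d → ℝ) → Prop} (h : ∀ᵐ V ∂(PP d (gl σ)), p V) :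
    ∀ᵐ ω ∂P, p (fun y => σ * ξ y ω) := by
  rw [← map_eq_PP hm hlaw hind σ] at h
  exact ae_of_ae_map (measurable_W hm σ).aemeasurable h

theorem lintegral_transfer (hm : ∀ y, Measurable (ξ y))
    (hlaw : ∀ y, P.map (ξ y) = gaussianReal 0 1) (hind : iIndepFun ξ P) (σ : ℝ)
    (f : (Site d → ℝ) → ℝ≥0∞) :
    ∫⁻ V, f V ∂(PP d (gl σ)) ≤ ∫⁻ ω, f (fun y => σ * ξ y ω) ∂P := by
  rw [← map_eq_PP hm hlaw hind σ]
  exact lintegral_map_le _ _

end Space

/-! ### the real scale -/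

/-- the statement of the theorem -/
def MainStmt.{u} : Prop :=
  ∀ d : ℕ, 1 ≤ d → ∃ σ₁ C : ℝ, 0 < σ₁ ∧ 0 < C ∧ ∀ σ : ℝ, σ ≠ 0 →
    ∃ Loc : Set ℝ, IsOpen Loc ∧ (σ₁ ≤ |σ| → Loc = Set.univ) ∧
      (3 ≤ d → ∀ E : ℝ,
        2 * d + watson d * σ ^ 2 + C * |σ| ^ (2 + 1 / (24 * d : ℝ)) < |E| → E ∈ Loc) ∧
      ∀ (Ω : Type u) [MeasurableSpace Ω] (P : Measure Ω) [IsProbabilityMeasure P]
        (ξ : Site d → Ω → ℝ), (∀ y, Measurable (ξ y)) →
        (∀ y, P.map (ξ y) = gaussianReal 0 1) → iIndepFun ξ P →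
        (∀ K : Set ℝ, IsCompact K → K ⊆ Loc → ∃ m : ℝ, 0 < m ∧ ∀ᵐ ω ∂P, ∀ E ∈ K,
          ∀ ψ : Site d → ℂ,
            (∃ (B : ℝ) (k : ℕ), ∀ x, ‖ψ x‖ ≤ B * (1 + (sd 0 x : ℝ)) ^ k) →
            (∀ x, lap ψ x + ((σ * ξ x ω : ℝ) : ℂ) * ψ x = (E : ℂ) * ψ x) →
            ∃ B : ℝ, ∀ x, ‖ψ x‖ ≤ B * Real.exp (-m * sd 0 x)) ∧
        (∀ᵐ ω ∂P, ∀ c r : ℝ, Set.Icc (c - r) (c + r) ⊆ Loc → ∀ u w : L2 d,
          (∀ x, w x = lap u x + ((σ * ξ x ω : ℝ) : ℂ) * u x) →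
          (∀ (E : ℝ) (ψ : L2 d), E ∈ Set.Icc (c - r) (c + r) →
            IsEigen (fun x => σ * ξ x ω) E ψ → ⟪ψ, u⟫ = 0) →
          r * ‖u‖ ≤ ‖w - (c : ℂ) • u‖) ∧
        (∀ a b δ : ℝ, ¬ Set.Ioo a b ⊆ Loc → 0 < δ → δ ≤ 1 → ∃ T₀ : ℝ, ∀ T : ℝ, T₀ ≤ T →
          ENNReal.ofReal (T ^ (-400 : ℝ)) ≤
            ∫⁻ ω, spread (fun x => σ * ξ x ω) T (T ^ (1 / ((d : ℝ) + δ))) (Set.Ioo a b) ∂P) ∧
        (Loc ≠ Set.univ → ∀ ψ : Ω → ℝ → L2 d,
          (∀ ω, IsEvolution (fun x => σ * ξ x ω) (ψ ω)) → ∀ δ p : ℝ, 0 < δ → δ ≤ 1 → 0 ≤ p →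
          ∃ T₀ : ℝ, ∀ T : ℝ, T₀ ≤ T →
            ENNReal.ofReal (T ^ (p / ((d : ℝ) + δ) - 401)) ≤ ∫⁻ ω, avgMoment (ψ ω) T p ∂P)

theorem main (hIni : IniStmt) (hBlk : BlkStmt) (hLrg : LrgStmt) (hEdg : EdgStmt)
    (hBdc : BdcStmt) (hTbx : TbxStmt) (hSep : SepStmt) (hDcy : DcyStmt) (hCmp : CmpStmt)
    (hTim : TimStmt) : MainStmt := by
  intro d hd
  obtain ⟨C₀, hC₀, hB⟩ := hBlk d hd
  obtain ⟨σ₁, hσ₁, hL⟩ := hLrg d hd C₀ hC₀
  obtain ⟨C, hC, hE⟩ : ∃ C : ℝ, 0 < C ∧ (3 ≤ d → ∀ C₀ σ : ℝ, 0 < C₀ → σ ≠ 0 →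
      ∃ L : ℕ, ∀ E : ℝ,
      2 * d + watson d * σ ^ 2 + C * |σ| ^ (2 + 1 / (24 * d : ℝ)) ≤ |E| → Crit d C₀ σ E L) := by
    by_cases h3 : 3 ≤ d
    · obtain ⟨C, hC, h⟩ := hEdg d h3
      exact ⟨C, hC, fun _ => h⟩
    · exact ⟨1, one_pos, fun h => absurd h h3⟩
  refine ⟨σ₁, C, hσ₁, hC, fun σ hσ => ⟨LocSet d C₀ σ, isOpen_LocSet d C₀ σ, ?_, ?_, ?_⟩⟩
  · intro h
    ext E
    simp only [Set.mem_univ, iff_true]
    exact ⟨1, one_pos, 0, fun F _ => hL σ h F⟩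
  · intro h3 E hEE
    obtain ⟨L, hLE⟩ := hE h3 C₀ σ hC₀ hσ
    set e := 2 * d + watson d * σ ^ 2 + C * |σ| ^ (2 + 1 / (24 * d : ℝ)) with he
    refine ⟨|E| - e, by linarith only [hEE], L, fun F hF => hLE F ?_⟩
    rw [Set.mem_Icc] at hF
    have h1 : |E| - |F| ≤ |E - F| := abs_sub_abs_le_abs_sub E F
    have h2 : |E - F| ≤ |E| - e := by
      rw [abs_le]
      constructor <;> linarith only [hF.1, hF.2]
    linarith only [h1, h2]
  intro Ω _ P _ ξ hm hlaw hind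
  obtain ⟨μ, hμ, hTB⟩ := exists_rate hBdc hTbx hd hC₀ hσ (hB σ hσ)
  have hmetal : ∀ a b δ : ℝ, ¬ Set.Ioo a b ⊆ LocSet d C₀ σ → 0 < δ → δ ≤ 1 →
      ∃ T₀ : ℝ, 1 ≤ T₀ ∧ ∀ T : ℝ, T₀ ≤ T → ENNReal.ofReal (T ^ (-400 : ℝ)) ≤
        ∫⁻ ω, spread (fun x => σ * ξ x ω) T (T ^ (1 / ((d : ℝ) + δ))) (Set.Ioo a b) ∂P := by
    intro a b δ hab hδ hδ1
    obtain ⟨E₀, hE₀, hE₀'⟩ := Set.not_subset.1 hab
    obtain ⟨T₀, hT₀, h⟩ := hIni d hd C₀ σ hC₀ hσ δ a b E₀ hδ hδ1 hE₀.1 hE₀.2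
    refine ⟨T₀, hT₀, fun T hT => ?_⟩
    by_contra hcon
    rw [not_le] at hcon
    apply hE₀'
    exact h T hT (lt_of_le_of_lt (lintegral_transfer hm hlaw hind σ
      (fun V => spread V T (T ^ (1 / ((d : ℝ) + δ))) (Set.Ioo a b))) hcon)
  refine ⟨?_, ?_, ?_, ?_⟩
  · intro K hK hKL
    obtain ⟨m, hm0, h⟩ := loc_compact hDcy hd hμ hTB hK hKL
    exact ⟨m, hm0, ae_transfer hm hlaw hind σ h⟩
  · exact ae_transfer hm hlaw hind σ (loc_complete hSep hCmp hd hσ hμ hTB)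
  · intro a b δ hab hδ hδ1
    obtain ⟨T₀, _, h⟩ := hmetal a b δ hab hδ hδ1
    exact ⟨T₀, h⟩
  · intro hne ψ hψ δ p hδ hδ1 hp
    obtain ⟨E₀, hE₀⟩ : ∃ E₀, E₀ ∉ LocSet d C₀ σ := by
      by_contra hcon
      push Not at hcon
      exact hne (Set.eq_univ_of_forall hcon)
    obtain ⟨T₀, hT₀, h⟩ := hmetal (E₀ - 1) (E₀ + 1) δ
      (fun hsub => hE₀ (hsub ⟨by linarith only, by linarith⟩)) hδ hδ1
    refine ⟨max T₀ Real.pi, fun T hT => ?_⟩
    have hT1 : T₀ ≤ T := (le_max_left _ _).trans hT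
    have hT2 : Real.pi ≤ T := (le_max_right _ _).trans hT
    have hTpos : 0 < T := by linarith
    have hT1' : 1 ≤ T := hT₀.trans hT1
    set R := T ^ (1 / ((d : ℝ) + δ)) with hR
    have hdδ : 0 < (d : ℝ) + δ := by positivity
    have hR1 : 1 ≤ R := Real.one_le_rpow hT1' (by positivity)
    have h1 : ENNReal.ofReal (T ^ (p / ((d : ℝ) + δ) - 401)) ≤
        ENNReal.ofReal (R ^ p / Real.pi) * ENNReal.ofReal (T ^ (-400 : ℝ)) := by
      rw [← ENNReal.ofReal_mul (by positivity)]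
      apply ENNReal.ofReal_le_ofReal
      have e1 : R ^ p = T ^ (p / ((d : ℝ) + δ)) := by
        rw [hR, ← Real.rpow_mul hTpos.le]
        congr 1
        ring
      have e2 : T ^ (p / ((d : ℝ) + δ) - 401) =
          T ^ (p / ((d : ℝ) + δ)) * T ^ (-400 : ℝ) / T := by
        rw [← Real.rpow_add hTpos]
        nth_rewrite 3 [← Real.rpow_one T]
        rw [← Real.rpow_sub hTpos]
        congr 1
        ring
      rw [e1, e2, div_mul_eq_mul_div]
      exact div_le_div_of_nonneg_left (by positivity) Real.pi_pos hT2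
    refine h1.trans ?_
    calc ENNReal.ofReal (R ^ p / Real.pi) * ENNReal.ofReal (T ^ (-400 : ℝ))
        ≤ ENNReal.ofReal (R ^ p / Real.pi) *
          ∫⁻ ω, spread (fun x => σ * ξ x ω) T R (Set.Ioo (E₀ - 1) (E₀ + 1)) ∂P := by
          gcongr
          exact h T hT1
      _ = ∫⁻ ω, ENNReal.ofReal (R ^ p / Real.pi) *
          spread (fun x => σ * ξ x ω) T R (Set.Ioo (E₀ - 1) (E₀ + 1)) ∂P :=
          (lintegral_const_mul' _ _ ENNReal.ofReal_ne_top).symm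
      _ ≤ _ := lintegral_mono fun ω => hTim d _ (ψ ω) (hψ ω) T p R hTpos hp hR1 _ _

end Pool.Agent.Mob.H42
end
end -- Pool.Agent.Helper42_Mob.Fin

section -- Pool.Agent.Helper5_Mob.Num

/-!
# Module INI of the squad T2: the numerical part
-/

set_option autoImplicit false

namespace Pool.Agent.Mob.H5

theorem term1 (d M : ℝ) (n m : ℕ) (hn : 1 ≤ n) (hd : 0 ≤ d) (hM : 1 ≤ M) {x B : ℝ} (hx : 1 ≤ x)
    (hB0 : 0 ≤ B) (hB : B ≤ M ^ n * x ^ n) :
    ((x ^ (14 * n + 3)) ^ 2 * (x ^ (120 * n))⁻¹ * (2 * d * B) ^ 2) ^ (1 / 8 : ℝ) ≤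
      (2 * d * M ^ n + 1) / x ^ (6 * n + 1) := by
  have hx0 : 0 < x := by linarith only [hx]
  set k : ℝ := 2 * d * M ^ n + 1 with hk
  have hk1 : 1 ≤ k := by
    rw [hk]
    have : 0 ≤ 2 * d * M ^ n := by positivity
    linarith only [this]
  have h1 : (2 * d * B) ^ 2 ≤ k ^ 8 * x ^ (2 * n) := by
    have h2 : 2 * d * B ≤ k * x ^ n := by
      calc 2 * d * B ≤ 2 * d * (M ^ n * x ^ n) := mul_le_mul_of_nonneg_left hB (by positivity)
        _ = (2 * d * M ^ n) * x ^ n := by ring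
        _ ≤ k * x ^ n := mul_le_mul_of_nonneg_right (by rw [hk]; linarith only) (by positivity)
    calc (2 * d * B) ^ 2 ≤ (k * x ^ n) ^ 2 := pow_le_pow_left₀ (by positivity) h2 2
      _ = k ^ 2 * x ^ (2 * n) := by rw [mul_pow, ← pow_mul, mul_comm n 2]
      _ ≤ k ^ 8 * x ^ (2 * n) :=
          mul_le_mul_of_nonneg_right (pow_le_pow_right₀ hk1 (by norm_num)) (by positivity)
  have h3 : (x ^ (14 * n + 3)) ^ 2 * (x ^ (120 * n))⁻¹ * (2 * d * B) ^ 2 ≤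
      (k / x ^ (6 * n + 1)) ^ 8 := by
    calc (x ^ (14 * n + 3)) ^ 2 * (x ^ (120 * n))⁻¹ * (2 * d * B) ^ 2 ≤
          (x ^ (14 * n + 3)) ^ 2 * (x ^ (120 * n))⁻¹ * (k ^ 8 * x ^ (2 * n)) :=
          mul_le_mul_of_nonneg_left h1 (by positivity)
      _ ≤ (k / x ^ (6 * n + 1)) ^ 8 := by
          rw [div_pow, le_div_iff₀ (by positivity)]
          have h4 : (x ^ (14 * n + 3)) ^ 2 * x ^ (2 * n) * (x ^ (6 * n + 1)) ^ 8 ≤ x ^ (120 * n) := by
            rw [← pow_mul, ← pow_mul, ← pow_add, ← pow_add]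
            exact pow_le_pow_right₀ hx (by omega)
          have h5 : (x ^ (14 * n + 3)) ^ 2 * (x ^ (120 * n))⁻¹ * (k ^ 8 * x ^ (2 * n)) *
              (x ^ (6 * n + 1)) ^ 8 = k ^ 8 * (((x ^ (14 * n + 3)) ^ 2 * x ^ (2 * n) *
                (x ^ (6 * n + 1)) ^ 8) * (x ^ (120 * n))⁻¹) := by ring
          rw [h5]
          have h6 : ((x ^ (14 * n + 3)) ^ 2 * x ^ (2 * n) * (x ^ (6 * n + 1)) ^ 8) *
              (x ^ (120 * n))⁻¹ ≤ 1 := by
            rw [← div_eq_mul_inv, div_le_one (by positivity)]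
            exact h4
          have h7 : 0 ≤ k ^ 8 := by positivity
          nlinarith only [h6, h7]
  calc ((x ^ (14 * n + 3)) ^ 2 * (x ^ (120 * n))⁻¹ * (2 * d * B) ^ 2) ^ (1 / 8 : ℝ) ≤
        ((k / x ^ (6 * n + 1)) ^ 8) ^ (1 / 8 : ℝ) :=
        Real.rpow_le_rpow (by positivity) h3 (by norm_num)
    _ = k / x ^ (6 * n + 1) := by
        have h8 : (1 / 8 : ℝ) = ((8 : ℕ) : ℝ)⁻¹ := by norm_num
        rw [h8, Real.pow_rpow_inv_natCast (by positivity) (by norm_num)]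

theorem term2 (M c ρ θ : ℝ) (n m : ℕ) (hc : 0 ≤ c) (hρ : 0 ≤ ρ) (hM : 1 ≤ M)
    (hm : 12 * (n : ℝ) + 2 ≤ θ * m) {x B : ℝ} (hx : 1 ≤ x)
    (hB0 : 0 ≤ B) (hB : B ≤ M ^ n * x ^ n) :
    √((1 + 2 * √(6 * ρ)) * ((m + 1) * B ^ 2 * (6 * ρ / x ^ (14 * n + 3)) +
      (c * x ^ (-θ)) ^ m)) ≤
      √((1 + 2 * √(6 * ρ)) * ((m + 1) * (M ^ n) ^ 2 * (6 * ρ) + c ^ m)) / x ^ (6 * n + 1) := by
  have hx0 : 0 < x := by linarith
  have h1 : (m + 1) * B ^ 2 * (6 * ρ / x ^ (14 * n + 3)) ≤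
      ((m + 1) * (M ^ n) ^ 2 * (6 * ρ)) / (x ^ (6 * n + 1)) ^ 2 := by
    rw [le_div_iff₀ (by positivity)]
    have h2 : B ^ 2 ≤ (M ^ n) ^ 2 * x ^ (2 * n) := by
      calc B ^ 2 ≤ (M ^ n * x ^ n) ^ 2 := pow_le_pow_left₀ hB0 hB 2
        _ = _ := by rw [mul_pow, ← pow_mul x, mul_comm n 2]
    have h3 : x ^ (2 * n) * (x ^ (6 * n + 1)) ^ 2 ≤ x ^ (14 * n + 3) := by
      rw [← pow_mul, ← pow_add]
      exact pow_le_pow_right₀ hx (by omega)
    have h4 : (m + 1 : ℝ) * B ^ 2 * (6 * ρ / x ^ (14 * n + 3)) * (x ^ (6 * n + 1)) ^ 2 =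
        ((m + 1 : ℝ) * (6 * ρ)) * (B ^ 2 * (x ^ (6 * n + 1)) ^ 2 / x ^ (14 * n + 3)) := by
      ring
    have h5 : B ^ 2 * (x ^ (6 * n + 1)) ^ 2 / x ^ (14 * n + 3) ≤ (M ^ n) ^ 2 := by
      rw [div_le_iff₀ (by positivity)]
      calc B ^ 2 * (x ^ (6 * n + 1)) ^ 2 ≤ (M ^ n) ^ 2 * x ^ (2 * n) * (x ^ (6 * n + 1)) ^ 2 :=
            mul_le_mul_of_nonneg_right h2 (by positivity)
        _ = (M ^ n) ^ 2 * (x ^ (2 * n) * (x ^ (6 * n + 1)) ^ 2) := by ring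
        _ ≤ _ := mul_le_mul_of_nonneg_left h3 (by positivity)
    rw [h4]
    calc ((m + 1 : ℝ) * (6 * ρ)) * (B ^ 2 * (x ^ (6 * n + 1)) ^ 2 / x ^ (14 * n + 3)) ≤
          ((m + 1 : ℝ) * (6 * ρ)) * (M ^ n) ^ 2 := mul_le_mul_of_nonneg_left h5 (by positivity)
      _ = _ := by ring
  have h2 : (c * x ^ (-θ)) ^ m ≤ c ^ m / (x ^ (6 * n + 1)) ^ 2 := by
    rw [mul_pow, div_eq_mul_inv]
    refine mul_le_mul_of_nonneg_left ?_ (by positivity)
    have h3 : (x ^ (-θ)) ^ m = x ^ (-(θ * m)) := by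
      rw [← Real.rpow_natCast, ← Real.rpow_mul hx0.le]
      congr 1
      ring
    have h4 : ((x ^ (6 * n + 1)) ^ 2)⁻¹ = x ^ (-(12 * (n : ℝ) + 2)) := by
      rw [← pow_mul, Real.rpow_neg hx0.le, ← Real.rpow_natCast]
      congr 2
      push_cast
      ring
    rw [h3, h4]
    exact Real.rpow_le_rpow_of_exponent_le hx (by linarith only [hm])
  have h3 : (1 + 2 * √(6 * ρ)) * ((m + 1) * B ^ 2 * (6 * ρ / x ^ (14 * n + 3)) +
      (c * x ^ (-θ)) ^ m) ≤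
      ((1 + 2 * √(6 * ρ)) * ((m + 1) * (M ^ n) ^ 2 * (6 * ρ) + c ^ m)) / (x ^ (6 * n + 1)) ^ 2 := by
    rw [mul_div_assoc (1 + 2 * √(6 * ρ)), add_div]
    exact mul_le_mul_of_nonneg_left (add_le_add h1 h2) (by positivity)
  refine (Real.sqrt_le_sqrt h3).trans (le_of_eq ?_)
  rw [Real.sqrt_div (by positivity), Real.sqrt_sq (by positivity)]

/-- the numerical part of INI. -/
theorem num (n : ℕ) (hn : 1 ≤ n) (C₀ s θ : ℝ) (hC : 0 < C₀) (hs : 0 < s) (hθ : 0 < θ) :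
    ∃ m ℓ₁ : ℕ, 1 ≤ m ∧ 1 ≤ ℓ₁ ∧ ∀ ℓ : ℕ, ℓ₁ ≤ ℓ →
      C₀ * (1 + 1 / s) * (2 * ((10 * (m + 1) * ℓ : ℕ) : ℝ) + 5) ^ (6 * n) *
        ((((ℓ : ℝ) ^ (14 * n + 3)) ^ 2 * (ℓ : ℝ) ^ (-(120 * (n : ℝ))) *
            (2 * n * (20 * (m + 1) * ℓ + 1) ^ n) ^ 2) ^ (1 / 8 : ℝ) +
          √((1 + 2 * √(6 * (1 / s))) * ((m + 1) * ((20 * (m + 1) * ℓ + 1) ^ n) ^ 2 *
            (6 * (1 / s) / (ℓ : ℝ) ^ (14 * n + 3)) +
            ((20 * m + 23) ^ n * (ℓ : ℝ) ^ (-θ)) ^ m))) ≤ Real.exp (-1) := by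
  obtain ⟨m, hm⟩ : ∃ m : ℕ, m = ⌈(12 * (n : ℝ) + 2) / θ⌉₊ + 1 := ⟨_, rfl⟩
  have hmθ : 12 * (n : ℝ) + 2 ≤ θ * m := by
    have h1 : (12 * (n : ℝ) + 2) / θ ≤ m := by
      rw [hm]
      push_cast
      have := Nat.le_ceil ((12 * (n : ℝ) + 2) / θ)
      linarith only [this]
    rw [div_le_iff₀ hθ] at h1
    linarith only [h1]
  obtain ⟨M, hM⟩ : ∃ M : ℝ, M = 20 * ((m : ℝ) + 1) + 5 := ⟨_, rfl⟩
  have hM1 : 1 ≤ M := by
    rw [hM]
    have : (0 : ℝ) ≤ m := by positivity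
    linarith only
  obtain ⟨K1, hK1⟩ : ∃ K1 : ℝ, K1 = 2 * (n : ℝ) * M ^ n + 1 := ⟨_, rfl⟩
  obtain ⟨K2, hK2⟩ : ∃ K2 : ℝ, K2 = √((1 + 2 * √(6 * (1 / s))) *
    ((m + 1) * (M ^ n) ^ 2 * (6 * (1 / s)) + ((20 * m + 23) ^ n) ^ m)) := ⟨_, rfl⟩
  have hK10 : 0 ≤ K1 := by rw [hK1]; positivity
  have hK20 : 0 ≤ K2 := by rw [hK2]; positivity
  obtain ⟨K, hK⟩ : ∃ K : ℝ, K = C₀ * (1 + 1 / s) * M ^ (6 * n) * (K1 + K2) := ⟨_, rfl⟩
  have hK0 : 0 ≤ K := by rw [hK]; positivity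
  refine ⟨m, ⌈K * Real.exp 1⌉₊ + 1, by omega, by omega, fun ℓ hℓ => ?_⟩
  have hx1 : (1 : ℝ) ≤ ℓ := by
    have : 1 ≤ ℓ := by omega
    exact_mod_cast this
  have hxK : K * Real.exp 1 ≤ ℓ := by
    have h1 := Nat.le_ceil (K * Real.exp 1)
    have h2 : ((⌈K * Real.exp 1⌉₊ : ℕ) : ℝ) ≤ ℓ := by
      have : ⌈K * Real.exp 1⌉₊ ≤ ℓ := by omega
      exact_mod_cast this
    linarith only [h1, h2]
  set x : ℝ := (ℓ : ℝ) with hx
  have hx0 : 0 < x := by linarith only [hx1]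
  have hB : (20 * ((m : ℝ) + 1) * x + 1) ^ n ≤ M ^ n * x ^ n := by
    rw [← mul_pow]
    refine pow_le_pow_left₀ (by positivity) ?_ n
    rw [hM, add_mul]
    linarith only [hx1]
  have hL : (2 * ((10 * (m + 1) * ℓ : ℕ) : ℝ) + 5) ^ (6 * n) ≤ M ^ (6 * n) * x ^ (6 * n) := by
    rw [← mul_pow]
    refine pow_le_pow_left₀ (by positivity) ?_ _
    push_cast
    rw [hM, add_mul, ← hx]
    linarith only [hx1]
  have hA : x ^ (-(120 * (n : ℝ))) = (x ^ (120 * n))⁻¹ := by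
    rw [Real.rpow_neg hx0.le, ← Real.rpow_natCast]
    push_cast
    rfl
  rw [hA]
  have t1 := term1 (n : ℝ) M n m hn (by positivity) hM1 hx1
    (B := (20 * ((m : ℝ) + 1) * x + 1) ^ n) (by positivity) hB
  have t2 := term2 M ((20 * (m : ℝ) + 23) ^ n) (1 / s) θ n m (by positivity) (by positivity) hM1 hmθ
    hx1 (B := (20 * ((m : ℝ) + 1) * x + 1) ^ n) (by positivity) hB
  rw [← hK1] at t1
  rw [← hK2] at t2
  have t3 := add_le_add t1 t2
  rw [← add_div] at t3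
  have h0 : 0 ≤ C₀ * (1 + 1 / s) := by positivity
  calc _ ≤ C₀ * (1 + 1 / s) * (M ^ (6 * n) * x ^ (6 * n)) * ((K1 + K2) / x ^ (6 * n + 1)) := by
        refine mul_le_mul (mul_le_mul_of_nonneg_left hL h0) t3 (by positivity) (by positivity)
    _ = K / x := by
        rw [hK, pow_succ]
        field_simp
    _ ≤ Real.exp (-1) := by
        rw [div_le_iff₀ hx0, Real.exp_neg, inv_mul_eq_div, le_div_iff₀ (Real.exp_pos 1)]
        exact hxK

/-- the choice of the scale. -/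
theorem scale (n : ℕ) (hn : 1 ≤ n) (δ : ℝ) (hδ : 0 < δ) (hδ1 : δ ≤ 1) (N : ℕ) :
    ∃ T₀ : ℝ, 1 ≤ T₀ ∧ ∀ T : ℝ, T₀ ≤ T → ∃ ℓ : ℕ, N ≤ ℓ ∧ 1 ≤ ℓ ∧
      (∀ j : ℕ, T ^ (1 / ((n : ℝ) + δ)) ≤ j ↔ ℓ ≤ j) ∧
      (ℓ : ℝ) ^ (-((n : ℝ) + 1)) ≤ 1 / T ∧ 1 / T ≤ (ℓ : ℝ) ^ (-((n : ℝ) + δ / 2)) ∧
      T ^ (-400 : ℝ) ≤ (ℓ : ℝ) ^ (-(400 * (n : ℝ))) := by
  have hn1 : (1 : ℝ) ≤ n := by exact_mod_cast hn
  have hnδ : 0 < (n : ℝ) + δ := by linarith only [hδ, hn1]
  obtain ⟨Y, hY⟩ : ∃ Y : ℝ, Y = max (N : ℝ) (max 1 ((2 : ℝ) ^ ((2 * (n : ℝ) + δ) / δ))) := ⟨_, rfl⟩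
  have hY1 : 1 ≤ Y := by rw [hY]; exact (le_max_left _ _).trans (le_max_right _ _)
  have hYN : (N : ℝ) ≤ Y := by rw [hY]; exact le_max_left _ _
  have hY2 : (2 : ℝ) ^ ((2 * (n : ℝ) + δ) / δ) ≤ Y := by
    rw [hY]; exact (le_max_right _ _).trans (le_max_right _ _)
  refine ⟨Y ^ ((n : ℝ) + δ), Real.one_le_rpow hY1 hnδ.le, fun T hT => ?_⟩
  have hT1 : 1 ≤ T := (Real.one_le_rpow hY1 hnδ.le).trans hT
  have hT0 : 0 < T := by linarith only [hT1]
  obtain ⟨R, hR⟩ : ∃ R : ℝ, R = T ^ (1 / ((n : ℝ) + δ)) := ⟨_, rfl⟩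
  have hRT : R ^ ((n : ℝ) + δ) = T := by
    rw [hR, ← Real.rpow_mul hT0.le, one_div_mul_cancel hnδ.ne', Real.rpow_one]
  have hYR : Y ≤ R := by
    have h1 := Real.rpow_le_rpow (by positivity) hT (by positivity : 0 ≤ 1 / ((n : ℝ) + δ))
    rw [← Real.rpow_mul (by linarith only [hY1]), mul_one_div_cancel hnδ.ne', Real.rpow_one, ← hR] at h1
    exact h1
  have hR1 : 1 ≤ R := hY1.trans hYR
  have hR0 : 0 < R := by linarith only [hY1, hYR]
  have hle : R ≤ (⌈R⌉₊ : ℝ) := Nat.le_ceil R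
  have hlt : (⌈R⌉₊ : ℝ) ≤ 2 * R := by
    have := Nat.ceil_lt_add_one hR0.le
    linarith only [hY1, hYR, this]
  have hℓ0 : (0 : ℝ) < (⌈R⌉₊ : ℝ) := by linarith only [hY1, hYR, hle]
  have hℓ1 : (1 : ℝ) ≤ (⌈R⌉₊ : ℝ) := by linarith only [hY1, hYR, hle]
  -- the main inequality
  have key : (⌈R⌉₊ : ℝ) ^ ((n : ℝ) + δ / 2) ≤ T := by
    have h1 : (2 : ℝ) ^ ((n : ℝ) + δ / 2) ≤ R ^ (δ / 2) := by
      have h2 := Real.rpow_le_rpow (by positivity) (hY2.trans hYR) (by positivity : 0 ≤ δ / 2)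
      rw [← Real.rpow_mul (by norm_num)] at h2
      refine le_trans (le_of_eq ?_) h2
      congr 1
      field_simp
    calc (⌈R⌉₊ : ℝ) ^ ((n : ℝ) + δ / 2) ≤ (2 * R) ^ ((n : ℝ) + δ / 2) :=
          Real.rpow_le_rpow hℓ0.le hlt (by positivity)
      _ = (2 : ℝ) ^ ((n : ℝ) + δ / 2) * R ^ ((n : ℝ) + δ / 2) :=
          Real.mul_rpow (by norm_num) hR0.le
      _ ≤ R ^ (δ / 2) * R ^ ((n : ℝ) + δ / 2) := mul_le_mul_of_nonneg_right h1 (by positivity)
      _ = R ^ ((n : ℝ) + δ) := by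
          rw [← Real.rpow_add hR0]
          congr 1
          ring
      _ = T := hRT
  refine ⟨⌈R⌉₊, ?_, ?_, ?_, ?_, ?_, ?_⟩
  · have : (N : ℝ) ≤ (⌈R⌉₊ : ℝ) := hYN.trans (hYR.trans hle)
    exact_mod_cast this
  · exact_mod_cast hℓ1
  · intro j
    rw [← hR]
    exact Nat.ceil_le.symm
  · rw [Real.rpow_neg hℓ0.le, ← one_div]
    refine one_div_le_one_div_of_le hT0 ?_
    calc T = R ^ ((n : ℝ) + δ) := hRT.symm
      _ ≤ (⌈R⌉₊ : ℝ) ^ ((n : ℝ) + δ) := Real.rpow_le_rpow hR0.le hle hnδ.le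
      _ ≤ (⌈R⌉₊ : ℝ) ^ ((n : ℝ) + 1) := Real.rpow_le_rpow_of_exponent_le hℓ1 (by linarith only [hδ1])
  · rw [Real.rpow_neg hℓ0.le, ← one_div]
    exact one_div_le_one_div_of_le (by positivity) key
  · rw [Real.rpow_neg hT0.le, Real.rpow_neg hℓ0.le]
    refine inv_anti₀ (by positivity) ?_
    have h1 : (⌈R⌉₊ : ℝ) ^ (n : ℝ) ≤ T :=
      (Real.rpow_le_rpow_of_exponent_le hℓ1 (by linarith only [hδ])).trans key
    calc (⌈R⌉₊ : ℝ) ^ (400 * (n : ℝ)) = ((⌈R⌉₊ : ℝ) ^ (n : ℝ)) ^ (400 : ℝ) := by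
          rw [← Real.rpow_mul hℓ0.le]
          congr 1
          ring
      _ ≤ T ^ (400 : ℝ) := Real.rpow_le_rpow (by positivity) h1 (by norm_num)

end Pool.Agent.Mob.H5
end -- Pool.Agent.Helper5_Mob.Num

section -- Pool.Agent.Helper5_Mob.Ini

/-!
# Module INI of the squad T2
-/

set_option autoImplicit false

open MeasureTheory ProbabilityTheory Function

open scoped ENNReal BigOperators InnerProductSpace

noncomputable section

namespace Pool.Agent.Mob.H5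

open Pool.Agent.Mob Pool.Agent.Anderson Pool.Agent.Loc Pool.Agent.Helper54.Bal

variable {d : ℕ}

theorem spread_eq (V : Site d → ℝ) (T R : ℝ) (J : Set ℝ) (ℓ : ℕ)
    (h : ∀ j : ℕ, R ≤ j ↔ ℓ ≤ j) :
    spread V T R J = ENNReal.ofReal (1 / T) * spr V 0 (1 / T) J ℓ := by
  unfold spread spr
  rw [← lintegral_const_mul' _ _ ENNReal.ofReal_ne_top]
  refine lintegral_congr fun E => ?_
  rw [← ENNReal.tsum_mul_left]
  refine tsum_congr fun u => ?_
  by_cases hu : ℓ ≤ sd 0 u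
  · rw [if_pos hu, if_pos ((h _).2 hu), ← ENNReal.ofReal_mul' (by positivity)]
    congr 1
    ring
  · rw [if_neg hu, if_neg (fun h' => hu ((h _).1 h')), mul_zero]

/-- INI. -/
theorem ini (hcel : CelStmt) (hann : AnnStmt) : IniStmt := by
  intro d hd C₀ σ hC hσ δ a b E₀ hδ hδ1 ha hb
  obtain ⟨h, hh⟩ : ∃ h : ℝ, h = min (E₀ - a) (b - E₀) / 2 := ⟨_, rfl⟩
  have h0 : 0 < h := by
    rw [hh]
    have : 0 < min (E₀ - a) (b - E₀) := lt_min (by linarith only [ha]) (by linarith only [hb])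
    linarith only [this]
  have ha2 : a + 2 * h ≤ E₀ := by
    rw [hh]
    have := min_le_left (E₀ - a) (b - E₀)
    linarith only [this]
  have hb2 : E₀ + 2 * h ≤ b := by
    rw [hh]
    have := min_le_right (E₀ - a) (b - E₀)
    linarith only [this]
  have hσ' : 0 < |σ| := abs_pos.2 hσ
  obtain ⟨ℓ₀, hℓ₀⟩ := hcel d hd σ hσ (δ / 2) h (by linarith only [hδ]) (by linarith only [hδ1]) h0
  obtain ⟨m, ℓ₁, hm, hℓ₁, hnum⟩ := num d hd C₀ |σ| (δ / 2 / 4) hC hσ' (by linarith only [hδ])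
  obtain ⟨T₀, hT₀, hT⟩ := scale d hd δ hδ hδ1 (max ℓ₀ ℓ₁)
  refine ⟨T₀, hT₀, fun T hTT hint => ?_⟩
  obtain ⟨ℓ, hNℓ, hℓ1, hiff, hη1, hη2, hη3⟩ := hT T hTT
  have hspr : ENNReal.ofReal (1 / T) * ∫⁻ V, spr V 0 (1 / T) (Set.Ioo a b) ℓ ∂(PP d (gl σ)) ≤
      ENNReal.ofReal ((ℓ : ℝ) ^ (-(400 * (d : ℝ)))) := by
    rw [← lintegral_const_mul' _ _ ENNReal.ofReal_ne_top]
    have e : ∀ V : Site d → ℝ, ENNReal.ofReal (1 / T) * spr V 0 (1 / T) (Set.Ioo a b) ℓ =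
        spread V T (T ^ (1 / ((d : ℝ) + δ))) (Set.Ioo a b) :=
      fun V => (spread_eq V T _ _ ℓ hiff).symm
    rw [lintegral_congr e]
    exact hint.le.trans (ENNReal.ofReal_le_ofReal hη3)
  have hcell := hℓ₀ ℓ ((le_max_left _ _).trans hNℓ) (1 / T) hη1 hη2 a b hspr
  refine ⟨h, h0, 10 * (m + 1) * ℓ, fun F hF => ?_⟩
  have hbd := bddDens_gl hσ
  have hx0 : (0 : ℝ) < ℓ := by exact_mod_cast hℓ1
  have hbi := hann d (gl σ) (1 / |σ|) hbd m ℓ ((ℓ : ℝ) ^ (-(120 * (d : ℝ))))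
    ((ℓ : ℝ) ^ (14 * d + 3)) ((ℓ : ℝ) ^ (-(δ / 2 / 4))) F hm hℓ1 (by positivity) (by positivity)
    (by positivity) (fun c => hcell F (by linarith only [hF.1, ha2]) (by linarith only [hF.2, hb2]) c)
  refine ⟨_, ?_, ?_, hbi⟩
  · positivity
  · exact hnum ℓ ((le_max_right _ _).trans hNℓ)

end Pool.Agent.Mob.H5
end
end -- Pool.Agent.Helper5_Mob.Ini

section -- Pool.Agent.Helper17_Mob.In2

/-!
# Module IN2 of the squad T2
-/

set_option autoImplicit false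

open MeasureTheory ProbabilityTheory Function

open scoped ENNReal BigOperators InnerProductSpace

noncomputable section

namespace Pool.Agent.Mob.H17

open Pool.Agent.Mob Pool.Agent.Anderson Pool.Agent.Loc Pool.Agent.Helper54.Bal

variable {d : ℕ}

theorem spread_anti (V : Site d → ℝ) (T : ℝ) {R R' : ℝ} (h : R ≤ R') (J : Set ℝ) :
    spread V T R' J ≤ spread V T R J := by
  unfold spread
  refine lintegral_mono fun E => ENNReal.tsum_le_tsum fun u => ?_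
  by_cases hu : R' ≤ (sd 0 u : ℝ)
  · rw [if_pos hu, if_pos (h.trans hu)]
  · rw [if_neg hu]
    exact zero_le

/-- IN2. -/
theorem in2 (hce : Ce3Stmt) (hann : AnnStmt) : In2Stmt := by
  intro d hd C₀ σ hC hσ δ a b E₀ hδ hδ1 ha hb
  obtain ⟨h, hh⟩ : ∃ h : ℝ, h = min (E₀ - a) (b - E₀) / 2 := ⟨_, rfl⟩
  have h0 : 0 < h := by
    rw [hh]
    have : 0 < min (E₀ - a) (b - E₀) := lt_min (by linarith only [ha]) (by linarith only [hb])
    linarith only [this]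
  have ha2 : a + 2 * h ≤ E₀ := by
    rw [hh]
    have := min_le_left (E₀ - a) (b - E₀)
    linarith only [this]
  have hb2 : E₀ + 2 * h ≤ b := by
    rw [hh]
    have := min_le_right (E₀ - a) (b - E₀)
    linarith only [this]
  have hσ' : 0 < |σ| := abs_pos.2 hσ
  have hd1 : (1 : ℝ) ≤ d := by exact_mod_cast hd
  obtain ⟨δ₁, hδ₁⟩ : ∃ δ₁ : ℝ, δ₁ = min δ (1 / 10) := ⟨_, rfl⟩
  have d0 : 0 < δ₁ := by rw [hδ₁]; exact lt_min hδ (by norm_num)
  have d1 : δ₁ ≤ 1 / 10 := by rw [hδ₁]; exact min_le_right _ _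
  have d2 : δ₁ ≤ δ := by rw [hδ₁]; exact min_le_left _ _
  obtain ⟨K, hK, hce⟩ := hce d hd
  obtain ⟨ℓ₀, hℓ₀⟩ := hce σ hσ (δ₁ / 2) h (by linarith only [d0]) (by linarith only [d0, d1]) h0
  obtain ⟨m, ℓ₁, hm, hℓ₁, hnum⟩ := H5.num d hd C₀ |σ| (δ₁ / 2 / 8) hC hσ' (by linarith only [d0])
  obtain ⟨T₀, hT₀, hT⟩ := H5.scale d hd δ₁ d0 (by linarith only [d0, d1]) (max ℓ₀ ℓ₁)
  refine ⟨T₀, hT₀, fun T hTT hint => ?_⟩
  have hT1 : 1 ≤ T := hT₀.trans hTT
  have hT0 : 0 < T := by linarith only [d0, d1, hT₀, hTT]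
  obtain ⟨ℓ, hNℓ, hℓ1, hiff, -, hη2, -⟩ := hT T hTT
  have hx0 : (0 : ℝ) < ℓ := by exact_mod_cast hℓ1
  have hx1 : (1 : ℝ) ≤ ℓ := by exact_mod_cast hℓ1
  -- the lower bound of `1 / T`
  have hη1 : (ℓ : ℝ) ^ (-((d : ℝ) + 2 * (δ₁ / 2))) ≤ 1 / T := by
    have e1 := (hiff ℓ).mpr le_rfl
    have e2 : T ≤ (ℓ : ℝ) ^ ((d : ℝ) + δ₁) := by
      have e3 := Real.rpow_le_rpow (by positivity) e1 (by linarith only [hd1, d0, d1] : 0 ≤ (d : ℝ) + δ₁)
      rwa [← Real.rpow_mul hT0.le, one_div_mul_cancel (by linarith only [hd1, d0, d1]), Real.rpow_one] at e3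
    have e4 : (d : ℝ) + 2 * (δ₁ / 2) = d + δ₁ := by ring
    rw [e4, Real.rpow_neg hx0.le, ← one_div]
    exact one_div_le_one_div_of_le hT0 e2
  have hη3 : T ^ (-6 : ℝ) ≤ (ℓ : ℝ) ^ (-(6 * (d : ℝ))) := by
    have e1 : 1 / T ≤ (ℓ : ℝ) ^ (-(d : ℝ)) :=
      hη2.trans (Real.rpow_le_rpow_of_exponent_le hx1 (by linarith only [d0]))
    have e2 := Real.rpow_le_rpow (by positivity) e1 (by norm_num : (0 : ℝ) ≤ 6)
    rw [← Real.rpow_mul hx0.le, one_div, Real.inv_rpow hT0.le, ← Real.rpow_neg hT0.le] at e2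
    refine e2.trans (le_of_eq ?_)
    congr 1
    ring
  have hR : T ^ (1 / ((d : ℝ) + δ)) ≤ T ^ (1 / ((d : ℝ) + δ₁)) := by
    refine Real.rpow_le_rpow_of_exponent_le hT1 ?_
    exact one_div_le_one_div_of_le (by linarith only [hd1, d0, d1]) (by linarith only [d2])
  have hspr : ENNReal.ofReal (1 / T) * ∫⁻ V, spr V 0 (1 / T) (Set.Ioo a b) ℓ ∂(PP d (gl σ)) ≤
      ENNReal.ofReal ((ℓ : ℝ) ^ (-(6 * (d : ℝ)))) := by
    rw [← lintegral_const_mul' _ _ ENNReal.ofReal_ne_top]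
    have e : ∀ V : Site d → ℝ, ENNReal.ofReal (1 / T) * spr V 0 (1 / T) (Set.Ioo a b) ℓ =
        spread V T (T ^ (1 / ((d : ℝ) + δ₁))) (Set.Ioo a b) :=
      fun V => (H5.spread_eq V T _ _ ℓ hiff).symm
    rw [lintegral_congr e]
    refine (lintegral_mono fun V => spread_anti V T hR _).trans ?_
    exact hint.le.trans (ENNReal.ofReal_le_ofReal hη3)
  have hcell := hℓ₀ ℓ ((le_max_left _ _).trans hNℓ) (1 / T) hη1 hη2 a b hspr
  obtain ⟨ℓ', hℓ'⟩ : ∃ ℓ' : ℕ, ℓ' = 8 * K * ℓ := ⟨_, rfl⟩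
  rw [← hℓ'] at hcell
  have hle : ℓ ≤ ℓ' := by
    rw [hℓ']
    exact Nat.le_mul_of_pos_left _ (by omega)
  have hℓ'1 : 1 ≤ ℓ' := hℓ1.trans hle
  have hy0 : (0 : ℝ) < ℓ' := by exact_mod_cast hℓ'1
  refine ⟨h, h0, 10 * (m + 1) * ℓ', fun F hF => ?_⟩
  have hbd := bddDens_gl hσ
  have hbi := hann d (gl σ) (1 / |σ|) hbd m ℓ' ((ℓ' : ℝ) ^ (-(120 * (d : ℝ))))
    ((ℓ' : ℝ) ^ (14 * d + 3)) ((ℓ' : ℝ) ^ (-(δ₁ / 2 / 8))) F hm hℓ'1 (by positivity) (by positivity)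
    (by positivity) (fun c => hcell F (by linarith only [hF.1, ha2]) (by linarith only [hF.2, hb2]) c)
  refine ⟨_, ?_, ?_, hbi⟩
  · positivity
  · exact hnum ℓ' (((le_max_right _ _).trans hNℓ).trans hle)

end Pool.Agent.Mob.H17
end
end -- Pool.Agent.Helper17_Mob.In2

section -- Pool.Agent.Helper31_Mob.Weg

/-!
# WEG: Wegner estimate, linear in the volume
-/

set_option autoImplicit false
set_option linter.unusedSectionVars false

open MeasureTheory ProbabilityTheory Function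

open scoped ENNReal BigOperators InnerProductSpace

noncomputable section

namespace Pool.Agent.Mob.H31

open Pool.Agent.Anderson Pool.Agent.Loc Pool.Agent.Helper54.Bal Pool.Agent.Mob

variable {d : ℕ}

/-! ### the scalar integral -/

theorem lorentz {ν : Measure ℝ} [IsProbabilityMeasure ν] {ρ : ℝ} (hν : BddDens ν ρ) (a b : ℝ)
    (hb : 0 < b) :
    ∫⁻ v, ENNReal.ofReal (b / ((v - a) ^ 2 + b ^ 2)) ∂ν ≤ ENNReal.ofReal (4 * ρ) := by
  have hρ := hν.1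
  have hpos : ∀ v : ℝ, 0 < (v - a) ^ 2 + b ^ 2 := fun v => by positivity
  have hmeas : Measurable fun v : ℝ => b / ((v - a) ^ 2 + b ^ 2) := by fun_prop
  rw [lintegral_eq_lintegral_meas_lt ν
    (Filter.Eventually.of_forall fun v => (div_pos hb (hpos v)).le) hmeas.aemeasurable]
  have h1 : ∀ t ∈ Set.Ioi (0 : ℝ), ν {v | t < b / ((v - a) ^ 2 + b ^ 2)} ≤
      (Set.Ioc 0 (1 / b)).indicator
        (fun t => ENNReal.ofReal (2 * ρ * √b * t ^ (-(1 / 2) : ℝ))) t := by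
    intro t ht
    have ht0 : (0 : ℝ) < t := ht
    have hsub : ∀ v, t < b / ((v - a) ^ 2 + b ^ 2) → (v - a) ^ 2 + b ^ 2 < b / t := by
      intro v hv
      rw [lt_div_iff₀ (hpos v)] at hv
      rw [lt_div_iff₀ ht0]
      linarith only [hv]
    by_cases htb : t ≤ 1 / b
    · have hmem : t ∈ Set.Ioc (0 : ℝ) (1 / b) := ⟨ht0, htb⟩
      rw [Set.indicator_of_mem hmem]
      have hs : {v | t < b / ((v - a) ^ 2 + b ^ 2)} ⊆ Set.Icc (a - √(b / t)) (a + √(b / t)) := by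
        intro v hv
        have h2 := hsub v hv
        have h3 : (v - a) ^ 2 ≤ b / t := by nlinarith only [sq_nonneg b, h2]
        have h4 : |v - a| ≤ √(b / t) := by
          rw [← Real.sqrt_sq_eq_abs]
          exact Real.sqrt_le_sqrt h3
        have h5 := abs_le.1 h4
        constructor <;> linarith only [h5.1, h5.2]
      refine (measure_mono hs).trans ((hν.2 _ _).trans (le_of_eq ?_))
      congr 1
      have h6 : √(b / t) = √b * t ^ (-(1 / 2) : ℝ) := by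
        rw [Real.sqrt_div hb.le, Real.rpow_neg ht0.le, ← Real.sqrt_eq_rpow]
        rfl
      rw [h6]
      ring
    · have hs : {v | t < b / ((v - a) ^ 2 + b ^ 2)} = ∅ := by
        ext v
        simp only [Set.mem_ofPred_eq, Set.mem_empty_iff_false, iff_false]
        intro hv
        have h2 := hsub v hv
        push Not at htb
        have h3 : b / t < b ^ 2 := by
          rw [div_lt_iff₀ ht0]
          rw [div_lt_iff₀ hb] at htb
          nlinarith only [hb, htb]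
        nlinarith only [sq_nonneg (v - a), h2, h3]
      rw [hs, measure_empty]
      exact zero_le
  have hmg : Measurable (fun t : ℝ => (Set.Ioc 0 (1 / b)).indicator
        (fun t => ENNReal.ofReal (2 * ρ * √b * t ^ (-(1 / 2) : ℝ))) t) := by
    apply Measurable.indicator _ measurableSet_Ioc
    fun_prop
  refine (setLIntegral_mono hmg h1).trans ?_
  rw [lintegral_indicator measurableSet_Ioc, Measure.restrict_restrict measurableSet_Ioc]
  have hinter : Set.Ioc (0 : ℝ) (1 / b) ∩ Set.Ioi 0 = Set.Ioc 0 (1 / b) := by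
    ext t
    simp only [Set.mem_inter_iff, Set.mem_Ioc, Set.mem_Ioi]
    tauto
  rw [hinter]
  have hint : IntegrableOn (fun t : ℝ => 2 * ρ * √b * t ^ (-(1 / 2) : ℝ)) (Set.Ioc 0 (1 / b)) := by
    apply Integrable.const_mul
    have h2 := (intervalIntegral.intervalIntegrable_rpow' (a := 0) (b := 1 / b)
      (r := (-(1 / 2) : ℝ)) (by norm_num)).1
    exact h2
  rw [← ofReal_integral_eq_lintegral_ofReal hint]
  · apply ENNReal.ofReal_le_ofReal
    rw [← intervalIntegral.integral_of_le (by positivity), intervalIntegral.integral_const_mul,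
      integral_rpow (Or.inl (by norm_num))]
    have e1 : (-(1 / 2) + 1 : ℝ) = 1 / 2 := by norm_num
    rw [e1, Real.zero_rpow (by norm_num), sub_zero, ← Real.sqrt_eq_rpow]
    have e2 : √b * √(1 / b) = 1 := by
      rw [← Real.sqrt_mul hb.le, mul_one_div_cancel hb.ne', Real.sqrt_one]
    apply le_of_eq
    calc 2 * ρ * √b * (√(1 / b) / (1 / 2)) = 4 * ρ * (√b * √(1 / b)) := by ring
      _ = 4 * ρ := by rw [e2, mul_one]
  · filter_upwards [ae_restrict_mem measurableSet_Ioc] with t ht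
    have := ht.1
    positivity

/-! ### linear algebra -/

section lin

variable {n : Type} [Fintype n] [DecidableEq n]

/-- imaginary part of the diagonal of the resolvent of a Hermitian matrix -/
theorem im_diag {A H : Matrix n n ℂ} (hH : H.IsHermitian) (z : ℂ) (hA : A = z • 1 - H)
    (hdet : A.det ≠ 0) (x : n) :
    (A⁻¹ x x).im = -z.im * ∑ y, ‖A⁻¹ x y‖ ^ 2 := by
  have hu : IsUnit A.det := isUnit_iff_ne_zero.2 hdet
  have h1 : A⁻¹ * A = 1 := Matrix.nonsing_inv_mul _ hu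
  have h2 : A.conjTranspose = star z • 1 - H := by
    rw [hA, Matrix.conjTranspose_sub, Matrix.conjTranspose_smul, Matrix.conjTranspose_one, hH.eq]
  have h3 : A.conjTranspose * (A⁻¹).conjTranspose = 1 := by
    rw [← Matrix.conjTranspose_mul, h1, Matrix.conjTranspose_one]
  have h4 : A⁻¹ - (A⁻¹).conjTranspose = (star z - z) • (A⁻¹ * (A⁻¹).conjTranspose) := by
    have h5 : A.conjTranspose - A = (star z - z) • (1 : Matrix n n ℂ) := by
      rw [h2, hA, sub_smul]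
      abel
    calc A⁻¹ - (A⁻¹).conjTranspose
        = A⁻¹ * (A.conjTranspose * (A⁻¹).conjTranspose) - A⁻¹ * A * (A⁻¹).conjTranspose := by
          rw [h3, h1, mul_one, one_mul]
      _ = A⁻¹ * (A.conjTranspose - A) * (A⁻¹).conjTranspose := by
          rw [mul_sub, sub_mul, ← mul_assoc]
      _ = _ := by
          rw [h5, Matrix.mul_smul, mul_one, Matrix.smul_mul]
  have h6 := congrFun (congrFun h4 x) x
  rw [Matrix.sub_apply, Matrix.conjTranspose_apply, Matrix.smul_apply, Matrix.mul_apply,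
    smul_eq_mul] at h6
  have h7 : ∑ y, A⁻¹ x y * (A⁻¹).conjTranspose y x = ((∑ y, ‖A⁻¹ x y‖ ^ 2 : ℝ) : ℂ) := by
    push_cast
    apply Finset.sum_congr rfl
    intro y _
    rw [Matrix.conjTranspose_apply]
    exact Complex.mul_conj' _
  rw [h7] at h6
  have h8 := congrArg Complex.im h6
  simp only [Complex.sub_im, Complex.mul_im, Complex.ofReal_im, Complex.ofReal_re, mul_zero,
    zero_add, Complex.star_def, Complex.conj_im] at h8
  linarith only [h8]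

/-- an eigenvector makes the resolvent large -/
theorem hs_large {A H : Matrix n n ℂ} (z : ℂ) (hA : A = z • 1 - H) (hdet : A.det ≠ 0)
    (F : ℂ) (u : n → ℂ) (hu : u ≠ 0) (hHu : H.mulVec u = F • u) :
    1 ≤ ‖z - F‖ ^ 2 * ∑ x, ∑ y, ‖A⁻¹ x y‖ ^ 2 := by
  have hun : IsUnit A.det := isUnit_iff_ne_zero.2 hdet
  have h1 : A⁻¹ * A = 1 := Matrix.nonsing_inv_mul _ hun
  have h2 : A.mulVec u = (z - F) • u := by
    rw [hA, Matrix.sub_mulVec, Matrix.smul_mulVec, Matrix.one_mulVec, hHu, sub_smul]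
  have h3 : u = (z - F) • (A⁻¹).mulVec u := by
    rw [← Matrix.mulVec_smul, ← h2, Matrix.mulVec_mulVec, h1, Matrix.one_mulVec]
  have hU : 0 < ∑ y, ‖u y‖ ^ 2 := by
    obtain ⟨y, hy⟩ := Function.ne_iff.1 hu
    have h4 : 0 < ‖u y‖ ^ 2 := by
      have : 0 < ‖u y‖ := norm_pos_iff.2 hy
      positivity
    exact lt_of_lt_of_le h4
      (Finset.single_le_sum (f := fun y => ‖u y‖ ^ 2) (fun _ _ => by positivity)
        (Finset.mem_univ y))
  have h5 : ∀ x, ‖u x‖ ^ 2 ≤ ‖z - F‖ ^ 2 * ((∑ y, ‖A⁻¹ x y‖ ^ 2) * ∑ y, ‖u y‖ ^ 2) := by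
    intro x
    have h6 : u x = (z - F) * ∑ y, A⁻¹ x y * u y := by
      conv_lhs => rw [h3]
      rfl
    have h7 : ‖∑ y, A⁻¹ x y * u y‖ ≤ ∑ y, ‖A⁻¹ x y‖ * ‖u y‖ := by
      refine (norm_sum_le _ _).trans (le_of_eq ?_)
      apply Finset.sum_congr rfl
      intro y _
      rw [norm_mul]
    have h8 : (∑ y, ‖A⁻¹ x y‖ * ‖u y‖) ^ 2 ≤ (∑ y, ‖A⁻¹ x y‖ ^ 2) * ∑ y, ‖u y‖ ^ 2 :=
      Finset.sum_mul_sq_le_sq_mul_sq _ _ _
    calc ‖u x‖ ^ 2 = ‖z - F‖ ^ 2 * ‖∑ y, A⁻¹ x y * u y‖ ^ 2 := by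
          conv_lhs => rw [h6, norm_mul, mul_pow]
      _ ≤ ‖z - F‖ ^ 2 * (∑ y, ‖A⁻¹ x y‖ * ‖u y‖) ^ 2 := by gcongr
      _ ≤ _ := by gcongr
  have h9 := Finset.sum_le_sum fun x (_ : x ∈ Finset.univ) => h5 x
  rw [← Finset.mul_sum, ← Finset.sum_mul, ← mul_assoc] at h9
  by_contra hcon
  push Not at hcon
  have := mul_lt_mul_of_pos_right hcon hU
  linarith only [h9, this]

end lin

/-! ### the finite volume resolvent -/

theorem gz_eq {V : Site d → ℝ} {Λ : Finset (Site d)} {z : ℂ} {x y : Site d} (hx : x ∈ Λ)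
    (hy : y ∈ Λ) : gz V Λ z x y = (z • (1 : Matrix Λ Λ ℂ) - HC V Λ)⁻¹ ⟨x, hx⟩ ⟨y, hy⟩ := by
  unfold gz
  rw [dif_pos ⟨hx, hy⟩]

theorem continuous_HC (Λ : Finset (Site d)) (z : ℂ) :
    Continuous fun V : Site d → ℝ => (z • (1 : Matrix Λ Λ ℂ) - HC V Λ) := by
  apply continuous_matrix
  intro x y
  simp only [HC, HM, Matrix.sub_apply, Matrix.smul_apply, Matrix.map_apply, Matrix.of_apply,
    smul_eq_mul]
  by_cases h : x = y
  · simp only [h, if_true]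
    fun_prop
  · simp only [h, if_false]
    fun_prop

theorem measurable_gz (Λ : Finset (Site d)) (z : ℂ) (x y : Site d) :
    Measurable fun V : Site d → ℝ => gz V Λ z x y := by
  by_cases h : x ∈ Λ ∧ y ∈ Λ
  · have h1 : ∀ V : Site d → ℝ, gz V Λ z x y = ((z • (1 : Matrix Λ Λ ℂ) - HC V Λ).det)⁻¹ *
        (z • (1 : Matrix Λ Λ ℂ) - HC V Λ).adjugate ⟨x, h.1⟩ ⟨y, h.2⟩ := by
      intro V
      rw [gz_eq h.1 h.2, Matrix.inv_def, Matrix.smul_apply, Ring.inverse_eq_inv', smul_eq_mul]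
    simp_rw [h1]
    apply Measurable.mul
    · exact (continuous_HC Λ z).matrix_det.measurable.inv
    · exact ((continuous_HC Λ z).matrix_adjugate.matrix_elem _ _).measurable
  · have : (fun V : Site d → ℝ => gz V Λ z x y) = fun _ => 0 := by
      funext V
      unfold gz
      rw [dif_neg h]
    rw [this]
    exact measurable_const

/-- the dependence on the value of the potential at `x` -/
theorem gz_rank_one {V : Site d → ℝ} {Λ : Finset (Site d)} {z : ℂ} {x : Site d} (hx : x ∈ Λ)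
    (hdet : ∀ V : Site d → ℝ, (z • (1 : Matrix Λ Λ ℂ) - HC V Λ).det ≠ 0) (v : ℝ) :
    gz (update V x v) Λ z x x - gz (update V x 0) Λ z x x =
      gz (update V x v) Λ z x x * v * gz (update V x 0) Λ z x x := by
  set A := z • (1 : Matrix Λ Λ ℂ) - HC (update V x v) Λ with hA
  set B := z • (1 : Matrix Λ Λ ℂ) - HC (update V x 0) Λ with hB
  have e1 : A⁻¹ * A = 1 := Matrix.nonsing_inv_mul _ (isUnit_iff_ne_zero.2 (hdet _))
  have e2 : B * B⁻¹ = 1 := Matrix.mul_nonsing_inv _ (isUnit_iff_ne_zero.2 (hdet _))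
  have e3 : B - A = Matrix.diagonal fun a : Λ => if (a : Site d) = x then (v : ℂ) else 0 := by
    ext a b
    simp only [hA, hB, HC, HM, Matrix.sub_apply, Matrix.smul_apply, Matrix.map_apply,
      Matrix.of_apply, Matrix.diagonal_apply]
    by_cases hab : a = b
    · subst hab
      by_cases hax : (a : Site d) = x
      · simp [hax]
      · simp [hax]
    · simp [hab]
  have e4 : A⁻¹ - B⁻¹ = A⁻¹ * (Matrix.diagonal fun a : Λ => if (a : Site d) = x then (v : ℂ)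
      else 0) * B⁻¹ := by
    rw [← e3, mul_sub, sub_mul, e1, one_mul, mul_assoc, e2, mul_one]
  have e5 := congrFun (congrFun e4 ⟨x, hx⟩) ⟨x, hx⟩
  rw [Matrix.sub_apply, Matrix.mul_apply] at e5
  rw [gz_eq hx hx, gz_eq hx hx, ← hA, ← hB, e5, Finset.sum_eq_single (⟨x, hx⟩ : Λ)]
  · rw [Matrix.mul_diagonal, if_pos rfl]
  · intro b _ hb
    have hbx : (b : Site d) ≠ x := fun h => hb (Subtype.ext h)
    rw [Matrix.mul_diagonal, if_neg hbx, mul_zero, zero_mul]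
  · intro h
    exact absurd (Finset.mem_univ _) h

theorem gz_im_neg {V : Site d → ℝ} {Λ : Finset (Site d)} {z : ℂ} (hz : 0 < z.im) {x : Site d}
    (hx : x ∈ Λ) (hdet : (z • (1 : Matrix Λ Λ ℂ) - HC V Λ).det ≠ 0) :
    (gz V Λ z x x).im < 0 := by
  rw [gz_eq hx hx, im_diag (HC_herm V Λ) z rfl hdet]
  set A := z • (1 : Matrix Λ Λ ℂ) - HC V Λ with hA
  have e1 : A⁻¹ * A = 1 := Matrix.nonsing_inv_mul _ (isUnit_iff_ne_zero.2 hdet)
  have hpos : 0 < ∑ y, ‖A⁻¹ ⟨x, hx⟩ y‖ ^ 2 := by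
    by_contra hcon
    have h0 : ∑ y, ‖A⁻¹ ⟨x, hx⟩ y‖ ^ 2 = 0 :=
      le_antisymm (not_lt.1 hcon) (Finset.sum_nonneg fun _ _ => by positivity)
    have h1 : ∀ y, A⁻¹ ⟨x, hx⟩ y = 0 := by
      intro y
      have := (Finset.sum_eq_zero_iff_of_nonneg (fun _ _ => by positivity)).1 h0 y
        (Finset.mem_univ y)
      exact norm_eq_zero.1 (pow_eq_zero_iff (two_ne_zero) |>.1 this)
    have h2 := congrFun (congrFun e1 ⟨x, hx⟩) ⟨x, hx⟩
    rw [Matrix.mul_apply, Matrix.one_apply_eq] at h2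
    rw [Finset.sum_eq_zero (fun y _ => by rw [h1 y, zero_mul])] at h2
    exact zero_ne_one h2
  have : 0 < z.im * ∑ y, ‖A⁻¹ ⟨x, hx⟩ y‖ ^ 2 := mul_pos hz hpos
  linarith only [hx, this]

theorem marg_gz {ν : Measure ℝ} [IsProbabilityMeasure ν] {ρ : ℝ} (hν : BddDens ν ρ)
    {Λ : Finset (Site d)} {z : ℂ} (hz : 0 < z.im) {x : Site d} (hx : x ∈ Λ)
    (hdet : ∀ V : Site d → ℝ, (z • (1 : Matrix Λ Λ ℂ) - HC V Λ).det ≠ 0) (V : Site d → ℝ) :
    (∫⋯∫⁻_{x}, (fun V => ENNReal.ofReal (-(gz V Λ z x x).im)) ∂(fun _ => ν)) V ≤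
      ENNReal.ofReal (4 * ρ) := by
  rw [lmarginal_singleton]
  set g := gz (update V x 0) Λ z x x with hg
  have hgi : g.im < 0 := gz_im_neg hz hx (hdet _)
  have hg0 : g ≠ 0 := by
    intro h
    rw [h, Complex.zero_im] at hgi
    exact lt_irrefl _ hgi
  have hb : 0 < (g⁻¹).im := by
    rw [Complex.inv_im]
    exact div_pos (by linarith) (Complex.normSq_pos.2 hg0)
  have key : ∀ v : ℝ, -(gz (update V x v) Λ z x x).im =
      (g⁻¹).im / ((v - (g⁻¹).re) ^ 2 + (g⁻¹).im ^ 2) := by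
    intro v
    have h1 := gz_rank_one (V := V) hx hdet v
    rw [← hg] at h1
    set t := gz (update V x v) Λ z x x with ht
    have h2 : t * (g⁻¹ - v) = 1 := by
      have h3 : t * (1 - v * g) = g := by linear_combination h1
      have h4 : t * (g⁻¹ - v) = t * (1 - v * g) * g⁻¹ := by
        field_simp
      rw [h4, h3, mul_inv_cancel₀ hg0]
    have h5 : t = (g⁻¹ - v)⁻¹ := eq_inv_of_mul_eq_one_left h2
    rw [h5, Complex.inv_im, Complex.normSq_apply]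
    simp only [Complex.sub_im, Complex.sub_re, Complex.ofReal_im, Complex.ofReal_re, sub_zero]
    rw [neg_div, neg_neg]
    congr 1
    ring
  simp_rw [key]
  exact lorentz hν _ _ hb

/-- the failure of `NoEig` is seen by the trace of the resolvent -/
theorem trace_large {V : Site d → ℝ} {Λ : Finset (Site d)} {E r : ℝ} (hr : 0 < r)
    (hdet : ((E + r * Complex.I : ℂ) • (1 : Matrix Λ Λ ℂ) - HC V Λ).det ≠ 0)
    (h : ¬ NoEig V Λ E r) :
    1 ≤ 2 * r * ∑ x ∈ Λ, -(gz V Λ (E + r * Complex.I) x x).im := by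
  unfold NoEig at h
  push Not at h
  obtain ⟨F, hF, hF0⟩ := h
  obtain ⟨u, hu, hu0⟩ := Matrix.exists_mulVec_eq_zero_iff.2 hF0
  set z : ℂ := E + r * Complex.I with hz
  have hzim : z.im = r := by simp [hz]
  have hzre : z.re = E := by simp [hz]
  set uc : Λ → ℂ := fun i => (u i : ℂ) with huc
  have huc0 : uc ≠ 0 := by
    intro h
    apply hu
    funext i
    have := congrFun h i
    simpa [huc] using this
  have hH : (HC V Λ).mulVec uc = (F : ℂ) • uc := by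
    funext i
    have h1 := congrFun hu0 i
    simp only [RM, Matrix.sub_mulVec, Matrix.smul_mulVec, Matrix.one_mulVec, Pi.sub_apply,
      Pi.smul_apply, smul_eq_mul, Pi.zero_apply] at h1
    have h2 : (HM V Λ).mulVec u i = F * u i := by linarith
    simp only [Matrix.mulVec, dotProduct, HC, Matrix.map_apply, huc, Pi.smul_apply, smul_eq_mul]
    simp only [Matrix.mulVec, dotProduct] at h2
    rw [← Complex.ofReal_mul, ← h2]
    push_cast
    rfl
  have h1 := hs_large z rfl hdet F uc huc0 hH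
  have h2 : ∑ x ∈ Λ, -(gz V Λ z x x).im =
      r * ∑ x : Λ, ∑ y : Λ, ‖(z • (1 : Matrix Λ Λ ℂ) - HC V Λ)⁻¹ x y‖ ^ 2 := by
    rw [← Finset.sum_coe_sort Λ, Finset.mul_sum]
    apply Finset.sum_congr rfl
    intro x _
    rw [gz_eq x.2 x.2, im_diag (HC_herm V Λ) z rfl hdet, hzim]
    ring
  have h3 : ‖z - F‖ ^ 2 ≤ 2 * r ^ 2 := by
    rw [← Complex.normSq_eq_norm_sq, Complex.normSq_apply]
    simp only [Complex.sub_re, Complex.sub_im, Complex.ofReal_re, Complex.ofReal_im, hzim, hzre]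
    have h4 := abs_le.1 hF
    nlinarith only [h4.1, h4.2]
  rw [h2]
  have h5 : 0 ≤ ∑ x : Λ, ∑ y : Λ, ‖(z • (1 : Matrix Λ Λ ℂ) - HC V Λ)⁻¹ x y‖ ^ 2 :=
    Finset.sum_nonneg fun _ _ => Finset.sum_nonneg fun _ _ => by positivity
  calc (1 : ℝ) ≤ _ := h1
    _ ≤ 2 * r ^ 2 * ∑ x : Λ, ∑ y : Λ, ‖(z • (1 : Matrix Λ Λ ℂ) - HC V Λ)⁻¹ x y‖ ^ 2 :=
        mul_le_mul_of_nonneg_right h3 h5
    _ = _ := by ring

theorem measurableSet_noEig (Λ : Finset (Site d)) (E r : ℝ) :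
    MeasurableSet {V : Site d → ℝ | NoEig V Λ E r} := by
  have h : {V : Site d → ℝ | NoEig V Λ E r}ᶜ = Prod.fst ''
      {q : (Site d → ℝ) × (Set.Icc (E - r) (E + r)) | (RM q.1 Λ (q.2 : ℝ)).det = 0} := by
    ext V
    simp only [Set.mem_compl_iff, Set.mem_ofPred_eq, Set.mem_image, NoEig]
    push Not
    constructor
    · rintro ⟨F, hF, hF0⟩
      have := abs_le.1 hF
      exact ⟨(V, ⟨F, by linarith [this.1], by linarith [this.2]⟩), hF0, rfl⟩
    · rintro ⟨q, hq, rfl⟩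
      refine ⟨q.2, ?_, hq⟩
      rw [abs_le]
      constructor <;> linarith [q.2.2.1, q.2.2.2]
  rw [← MeasurableSet.compl_iff, h]
  refine IsClosed.measurableSet (isClosedMap_fst_of_compactSpace _ ?_)
  have hc : Continuous fun q : (Site d → ℝ) × (Set.Icc (E - r) (E + r)) =>
      (RM q.1 Λ (q.2 : ℝ)).det := by
    apply Continuous.matrix_det
    apply continuous_matrix
    intro x y
    simp only [RM, HM, Matrix.sub_apply, Matrix.smul_apply, Matrix.of_apply, smul_eq_mul]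
    by_cases h : x = y
    · simp only [h, if_true]
      fun_prop
    · simp only [h, if_false]
      fun_prop
  exact isClosed_singleton.preimage hc

theorem weg (hG : GzbStmt) : WegStmt := by
  intro d ν _ ρ hν Λ E r hr
  have hρ := hν.1
  refine ⟨measurableSet_noEig Λ E r, ?_⟩
  set z : ℂ := E + r * Complex.I with hz
  have hzim : z.im = r := by simp [hz]
  have hdet : ∀ V : Site d → ℝ, (z • (1 : Matrix Λ Λ ℂ) - HC V Λ).det ≠ 0 := fun V =>
    ((hG d V Λ 0 0).2.1 z (by rw [hzim]; exact hr.ne')).1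
  have hS : MeasurableSet {V : Site d → ℝ | ¬ NoEig V Λ E r} := (measurableSet_noEig Λ E r).compl
  have hm : ∀ x, Measurable fun V : Site d → ℝ => ENNReal.ofReal (-(gz V Λ z x x).im) := fun x =>
    ENNReal.measurable_ofReal.comp (Complex.measurable_im.comp (measurable_gz Λ z x x)).neg
  calc PL ν Λ {V | ¬ NoEig V Λ E r}
      = ∫⁻ V, {V : Site d → ℝ | ¬ NoEig V Λ E r}.indicator 1 V ∂(PL ν Λ) :=
        (lintegral_indicator_one hS).symm
    _ ≤ ∫⁻ V, ENNReal.ofReal (2 * r) *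
          ∑ x ∈ Λ, ENNReal.ofReal (-(gz V Λ z x x).im) ∂(PL ν Λ) := by
        apply lintegral_mono
        intro V
        by_cases hV : V ∈ {V : Site d → ℝ | ¬ NoEig V Λ E r}
        · rw [Set.indicator_of_mem hV]
          have h1 := trace_large hr (hdet V) hV
          show (1 : ℝ≥0∞) ≤ ENNReal.ofReal (2 * r) *
            ∑ x ∈ Λ, ENNReal.ofReal (-(gz V Λ z x x).im)
          rw [← ENNReal.ofReal_sum_of_nonneg (fun x hx =>
            (neg_pos.2 (gz_im_neg (by rw [hzim]; exact hr) hx (hdet V))).le),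
            ← ENNReal.ofReal_mul (by positivity)]
          exact ENNReal.one_le_ofReal.2 h1
        · rw [Set.indicator_of_notMem hV]
          exact zero_le
    _ = ENNReal.ofReal (2 * r) *
          ∑ x ∈ Λ, ∫⁻ V, ENNReal.ofReal (-(gz V Λ z x x).im) ∂(PL ν Λ) := by
        rw [lintegral_const_mul _ (Finset.measurable_sum _ fun x _ => hm x),
          lintegral_finset_sum _ fun x _ => hm x]
    _ ≤ ENNReal.ofReal (2 * r) * ∑ x ∈ Λ, ENNReal.ofReal (4 * ρ) := by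
        gcongr with x hx
        exact PL_le_of_marg (S := {x}) (by simpa using hx) (hm x)
          (fun V => marg_gz hν (by rw [hzim]; exact hr) hx hdet V)
    _ = ENNReal.ofReal (2 * r * (Λ.card * (4 * ρ))) := by
        rw [Finset.sum_const, nsmul_eq_mul, ← ENNReal.ofReal_natCast,
          ← ENNReal.ofReal_mul (by positivity), ← ENNReal.ofReal_mul (by positivity)]
    _ ≤ ENNReal.ofReal (64 * ρ * Λ.card * r) := by
        apply ENNReal.ofReal_le_ofReal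
        have : 0 ≤ ρ * Λ.card * r := by positivity
        nlinarith only [this]

end Pool.Agent.Mob.H31
end
end -- Pool.Agent.Helper31_Mob.Weg

section -- Pool.Agent.Helper65_Mob.Fvl

/-!
# Module FVL: finite volume against infinite volume, at positive height
-/

set_option autoImplicit false

open MeasureTheory ProbabilityTheory Function

noncomputable section

namespace Pool.Agent.Mob.H65

open Pool.Agent.Anderson Pool.Agent.Loc Pool.Agent.Helper54.Bal Pool.Agent.Mob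

variable {d : ℕ}

theorem gz_symm (V : Site d → ℝ) (Λ : Finset (Site d)) (z : ℂ) (x y : Site d) :
    gz V Λ z x y = gz V Λ z y x := by
  unfold gz
  by_cases h : x ∈ Λ ∧ y ∈ Λ
  · rw [dif_pos h, dif_pos h.symm]
    have h1 : (z • (1 : Matrix Λ Λ ℂ) - HC V Λ).transpose = z • (1 : Matrix Λ Λ ℂ) - HC V Λ := by
      rw [Matrix.transpose_sub, Matrix.transpose_smul, Matrix.transpose_one]
      congr 1
      unfold HC
      rw [← Matrix.transpose_map, HM_symm]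
    have h2 := Matrix.transpose_nonsing_inv (z • (1 : Matrix Λ Λ ℂ) - HC V Λ)
    rw [h1] at h2
    conv_rhs => rw [← h2]
    rfl
  · rw [dif_neg h, dif_neg fun h' => h h'.symm]

/-- the finite volume operator on a function -/
theorem mul_fun (V : Site d → ℝ) (Λ : Finset (Site d)) (z : ℂ) (φ : Site d → ℂ) (u : Λ) :
    (z • (1 : Matrix Λ Λ ℂ) - HC V Λ).mulVec (fun v : Λ => φ v) u =
      z * φ u - (V u : ℂ) * φ u - lap (fun v => if v ∈ Λ then φ v else 0) u := by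
  rw [lap_indicator, Matrix.sub_mulVec, Pi.sub_apply, Matrix.smul_mulVec, Matrix.one_mulVec,
    Pi.smul_apply, smul_eq_mul, ← Finset.sum_coe_sort Λ (fun y => (hop (u : Site d) y : ℂ) * φ y)]
  have h2 : (HC V Λ).mulVec (fun v : Λ => φ v) u =
      (∑ v : Λ, (hop (u : Site d) v : ℂ) * φ v) + (V u : ℂ) * φ u := by
    simp only [Matrix.mulVec, dotProduct, HC, Matrix.map_apply, HM, Matrix.of_apply]
    have h3 : ∀ v : Λ, ((hop (u : Site d) (v : Site d) + if u = v then V u else 0 : ℝ) : ℂ) *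
        φ v = (hop (u : Site d) (v : Site d) : ℂ) * φ v +
          (if u = v then (V u : ℂ) * φ u else 0) := by
      intro v
      by_cases h : u = v
      · subst h; simp; ring
      · simp [h]
    rw [Finset.sum_congr rfl fun v _ => h3 v, Finset.sum_add_distrib]
    simp
  rw [h2]
  ring

theorem fvl (hgzb : GzbStmt) : FvlStmt := by
  intro d V Λ η E ε ℓ x y hη hε hx hy hout hxy hG
  obtain ⟨z, hzz⟩ : ∃ z, z = zz η E := ⟨_, rfl⟩
  rw [← hzz] at hG ⊢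
  have him : z.im = η := by
    rw [hzz]
    unfold zz
    simp
  have hz : z.im ≠ 0 := by
    rw [him]
    exact hη.ne'
  obtain ⟨φ, hφ⟩ : ∃ φ : Site d → ℂ, φ = G V z (del x) := ⟨_, rfl⟩
  have hG' : ∀ u, ℓ ≤ sd x u → ‖φ u‖ ≤ ε := by
    intro u hu
    rw [hφ]
    exact hG u hu
  have hdet := ((hgzb d V Λ x y).2.1 z hz).1
  have hbd : ∀ v, ‖gz V Λ z y v‖ ≤ η⁻¹ := by
    intro v
    have := ((hgzb d V Λ y v).2.1 z hz).2
    rwa [him, abs_of_pos hη] at this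
  obtain ⟨b, hb⟩ : ∃ b : Site d → ℂ, b = lap (fun v => if v ∈ Λ then 0 else φ v) := ⟨_, rfl⟩
  have hb2 : ∀ v, ‖b v‖ ≤ 2 * d * ε := by
    intro v
    rw [hb]
    apply norm_lap_le
    intro u _
    by_cases hu : u ∈ Λ
    · rw [if_pos hu, norm_zero]
      exact hε
    · rw [if_neg hu]
      exact hG' u (hout u hu)
  have hdel : ∀ u, (del x : L2 d) u = if u = x then 1 else 0 := by
    intro u
    exact del_apply x u
  have h1 : (z • (1 : Matrix Λ Λ ℂ) - HC V Λ).mulVec (fun v : Λ => φ v) =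
      fun u : Λ => -(if (u : Site d) = x then 1 else 0) + b u := by
    funext u
    rw [mul_fun]
    have h2 := G_eq (V := V) hz (del x) u
    rw [hdel, ← hφ] at h2
    have h3 : lap φ u = lap (fun v => if v ∈ Λ then φ v else 0) u + b u := by
      rw [hb, ← lap_add]
      congr 1
      funext v
      by_cases hv : v ∈ Λ
      · rw [if_pos hv, if_pos hv, add_zero]
      · rw [if_neg hv, if_neg hv, zero_add]
    rw [h3] at h2
    linear_combination -h2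
  have h2 : (fun v : Λ => φ v) = (z • (1 : Matrix Λ Λ ℂ) - HC V Λ)⁻¹.mulVec
      (fun u : Λ => -(if (u : Site d) = x then 1 else 0) + b u) := by
    rw [← h1, Matrix.mulVec_mulVec, Matrix.nonsing_inv_mul _ (isUnit_iff_ne_zero.2 hdet),
      Matrix.one_mulVec]
  have h3 := congrFun h2 ⟨y, hy⟩
  have h4 : φ y = -gz V Λ z y x + ∑ v : Λ, gz V Λ z y v * b v := by
    rw [h3]
    simp only [Matrix.mulVec, dotProduct, mul_add, Finset.sum_add_distrib]
    congr 1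
    · rw [Finset.sum_eq_single (⟨x, hx⟩ : Λ)]
      · rw [if_pos rfl]
        unfold gz
        rw [dif_pos ⟨hy, hx⟩]
        ring
      · intro v _ hv
        rw [if_neg]
        · ring
        · intro h
          exact hv (Subtype.ext h)
      · intro h
        exact absurd (Finset.mem_univ _) h
    · apply Finset.sum_congr rfl
      intro v _
      unfold gz
      rw [dif_pos ⟨hy, v.2⟩]
  have h5 : gz V Λ z x y = -φ y + ∑ v : Λ, gz V Λ z y v * b v := by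
    rw [gz_symm, h4]
    ring
  rw [h5]
  calc ‖-φ y + ∑ v : Λ, gz V Λ z y v * b v‖ ≤ ‖-φ y‖ + ‖∑ v : Λ, gz V Λ z y v * b v‖ :=
        norm_add_le _ _
    _ ≤ ε + ∑ _v : Λ, η⁻¹ * (2 * d * ε) := by
        apply add_le_add
        · rw [norm_neg]
          exact hG' y hxy
        · refine (norm_sum_le _ _).trans (Finset.sum_le_sum fun v _ => ?_)
          rw [norm_mul]
          exact mul_le_mul (hbd v) (hb2 v) (norm_nonneg _) (by positivity)
    _ = ε * (1 + 2 * d * Λ.card / η) := by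
        rw [Finset.sum_const, Finset.card_univ, Fintype.card_coe, nsmul_eq_mul]
        field_simp

end Pool.Agent.Mob.H65
end
end -- Pool.Agent.Helper65_Mob.Fvl

section -- Pool.Agent.Helper42_Mob.Fin2

/-!
# Metal-insulator transport transition: assembly of the second version (constant 6)
-/

set_option autoImplicit false
set_option linter.unusedSectionVars false

open MeasureTheory ProbabilityTheory Function

open scoped ENNReal BigOperators ComplexInnerProductSpace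

noncomputable section

namespace Pool.Agent.Mob.H42

open Pool.Agent.Anderson Pool.Agent.Loc Pool.Agent.Helper54.Bal Pool.Agent.Mob

/-- the statement of the theorem -/
def MainStmt2.{u} : Prop :=
  ∀ d : ℕ, 1 ≤ d → ∃ σ₁ C : ℝ, 0 < σ₁ ∧ 0 < C ∧ ∀ σ : ℝ, σ ≠ 0 →
    ∃ Loc : Set ℝ, IsOpen Loc ∧ (σ₁ ≤ |σ| → Loc = Set.univ) ∧
      (3 ≤ d → ∀ E : ℝ,
        2 * d + watson d * σ ^ 2 + C * |σ| ^ (2 + 1 / (24 * d : ℝ)) < |E| → E ∈ Loc) ∧
      ∀ (Ω : Type u) [MeasurableSpace Ω] (P : Measure Ω) [IsProbabilityMeasure P]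
        (ξ : Site d → Ω → ℝ), (∀ y, Measurable (ξ y)) →
        (∀ y, P.map (ξ y) = gaussianReal 0 1) → iIndepFun ξ P →
        (∀ K : Set ℝ, IsCompact K → K ⊆ Loc → ∃ m : ℝ, 0 < m ∧ ∀ᵐ ω ∂P, ∀ E ∈ K,
          ∀ ψ : Site d → ℂ,
            (∃ (B : ℝ) (k : ℕ), ∀ x, ‖ψ x‖ ≤ B * (1 + (sd 0 x : ℝ)) ^ k) →
            (∀ x, lap ψ x + ((σ * ξ x ω : ℝ) : ℂ) * ψ x = (E : ℂ) * ψ x) →
            ∃ B : ℝ, ∀ x, ‖ψ x‖ ≤ B * Real.exp (-m * sd 0 x)) ∧
        (∀ᵐ ω ∂P, ∀ c r : ℝ, Set.Icc (c - r) (c + r) ⊆ Loc → ∀ u w : L2 d,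
          (∀ x, w x = lap u x + ((σ * ξ x ω : ℝ) : ℂ) * u x) →
          (∀ (E : ℝ) (ψ : L2 d), E ∈ Set.Icc (c - r) (c + r) →
            IsEigen (fun x => σ * ξ x ω) E ψ → ⟪ψ, u⟫ = 0) →
          r * ‖u‖ ≤ ‖w - (c : ℂ) • u‖) ∧
        (∀ a b δ : ℝ, ¬ Set.Ioo a b ⊆ Loc → 0 < δ → δ ≤ 1 → ∃ T₀ : ℝ, ∀ T : ℝ, T₀ ≤ T →
          ENNReal.ofReal (T ^ (-6 : ℝ)) ≤
            ∫⁻ ω, spread (fun x => σ * ξ x ω) T (T ^ (1 / ((d : ℝ) + δ))) (Set.Ioo a b) ∂P) ∧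
        (Loc ≠ Set.univ → ∀ δ p : ℝ, 0 < δ → δ ≤ 1 → 0 < p → ∃ T₀ : ℝ, ∀ T : ℝ, T₀ ≤ T →
          ∀ ψ : Ω → ℝ → L2 d, (∀ ω, IsEvolution (fun x => σ * ξ x ω) (ψ ω)) →
            ENNReal.ofReal (T ^ (p / ((d : ℝ) + δ) - 6)) ≤ ∫⁻ ω, avgMoment (ψ ω) T p ∂P)

theorem main2 (hIni : In2Stmt) (hBlk : BlkStmt) (hLrg : LrgStmt) (hEdg : EdgStmt)
    (hBdc : BdcStmt) (hTbx : TbxStmt) (hSep : SepStmt) (hDcy : DcyStmt) (hCmp : CmpStmt)
    (hTim : TimStmt) : MainStmt2 := by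
  intro d hd
  obtain ⟨C₀, hC₀, hB⟩ := hBlk d hd
  obtain ⟨σ₁, hσ₁, hL⟩ := hLrg d hd C₀ hC₀
  obtain ⟨C, hC, hE⟩ : ∃ C : ℝ, 0 < C ∧ (3 ≤ d → ∀ C₀ σ : ℝ, 0 < C₀ → σ ≠ 0 →
      ∃ L : ℕ, ∀ E : ℝ,
      2 * d + watson d * σ ^ 2 + C * |σ| ^ (2 + 1 / (24 * d : ℝ)) ≤ |E| → Crit d C₀ σ E L) := by
    by_cases h3 : 3 ≤ d
    · obtain ⟨C, hC, h⟩ := hEdg d h3
      exact ⟨C, hC, fun _ => h⟩
    · exact ⟨1, one_pos, fun h => absurd h h3⟩
  refine ⟨σ₁, C, hσ₁, hC, fun σ hσ => ⟨LocSet d C₀ σ, isOpen_LocSet d C₀ σ, ?_, ?_, ?_⟩⟩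
  · intro h
    ext E
    simp only [Set.mem_univ, iff_true]
    exact ⟨1, one_pos, 0, fun F _ => hL σ h F⟩
  · intro h3 E hEE
    obtain ⟨L, hLE⟩ := hE h3 C₀ σ hC₀ hσ
    set e := 2 * d + watson d * σ ^ 2 + C * |σ| ^ (2 + 1 / (24 * d : ℝ)) with he
    refine ⟨|E| - e, by linarith only [hEE], L, fun F hF => hLE F ?_⟩
    rw [Set.mem_Icc] at hF
    have h1 : |E| - |F| ≤ |E - F| := abs_sub_abs_le_abs_sub E F
    have h2 : |E - F| ≤ |E| - e := by
      rw [abs_le]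
      constructor <;> linarith only [hF.1, hF.2]
    linarith only [h1, h2]
  intro Ω _ P _ ξ hm hlaw hind
  obtain ⟨μ, hμ, hTB⟩ := exists_rate hBdc hTbx hd hC₀ hσ (hB σ hσ)
  have hmetal : ∀ a b δ : ℝ, ¬ Set.Ioo a b ⊆ LocSet d C₀ σ → 0 < δ → δ ≤ 1 →
      ∃ T₀ : ℝ, 1 ≤ T₀ ∧ ∀ T : ℝ, T₀ ≤ T → ENNReal.ofReal (T ^ (-6 : ℝ)) ≤
        ∫⁻ ω, spread (fun x => σ * ξ x ω) T (T ^ (1 / ((d : ℝ) + δ))) (Set.Ioo a b) ∂P := by
    intro a b δ hab hδ hδ1
    obtain ⟨E₀, hE₀, hE₀'⟩ := Set.not_subset.1 hab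
    obtain ⟨T₀, hT₀, h⟩ := hIni d hd C₀ σ hC₀ hσ δ a b E₀ hδ hδ1 hE₀.1 hE₀.2
    refine ⟨T₀, hT₀, fun T hT => ?_⟩
    by_contra hcon
    rw [not_le] at hcon
    apply hE₀'
    exact h T hT (lt_of_le_of_lt (lintegral_transfer hm hlaw hind σ
      (fun V => spread V T (T ^ (1 / ((d : ℝ) + δ))) (Set.Ioo a b))) hcon)
  refine ⟨?_, ?_, ?_, ?_⟩
  · intro K hK hKL
    obtain ⟨m, hm0, h⟩ := loc_compact hDcy hd hμ hTB hK hKL
    exact ⟨m, hm0, ae_transfer hm hlaw hind σ h⟩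
  · exact ae_transfer hm hlaw hind σ (loc_complete hSep hCmp hd hσ hμ hTB)
  · intro a b δ hab hδ hδ1
    obtain ⟨T₀, _, h⟩ := hmetal a b δ hab hδ hδ1
    exact ⟨T₀, h⟩
  · intro hne δ p hδ hδ1 hp
    obtain ⟨E₀, hE₀⟩ : ∃ E₀, E₀ ∉ LocSet d C₀ σ := by
      by_contra hcon
      push Not at hcon
      exact hne (Set.eq_univ_of_forall hcon)
    obtain ⟨T₀, hT₀, h⟩ := hmetal (E₀ - 1) (E₀ + 1) (δ / 2)
      (fun hsub => hE₀ (hsub ⟨by linarith only, by linarith⟩)) (by linarith only [hδ]) (by linarith only [hδ1])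
    have hd0 : (0 : ℝ) < d := by exact_mod_cast hd
    have hgap : 0 < p / ((d : ℝ) + δ / 2) - p / ((d : ℝ) + δ) := by
      rw [sub_pos]
      exact div_lt_div_of_pos_left hp (by positivity) (by linarith only [hδ])
    obtain ⟨T₁, hT₁⟩ := Filter.eventually_atTop.1
      ((tendsto_rpow_atTop hgap).eventually_ge_atTop Real.pi)
    refine ⟨max T₀ T₁, fun T hT ψ hψ => ?_⟩
    have hT1 : T₀ ≤ T := (le_max_left _ _).trans hT
    have hT2 := hT₁ T ((le_max_right _ _).trans hT)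
    have hT1' : 1 ≤ T := hT₀.trans hT1
    have hTpos : 0 < T := by linarith only [hT₀, hT1]
    set R := T ^ (1 / ((d : ℝ) + δ / 2)) with hR
    have hdδ : 0 < (d : ℝ) + δ / 2 := by positivity
    have hR1 : 1 ≤ R := Real.one_le_rpow hT1' (by positivity)
    have h1 : ENNReal.ofReal (T ^ (p / ((d : ℝ) + δ) - 6)) ≤
        ENNReal.ofReal (R ^ p / Real.pi) * ENNReal.ofReal (T ^ (-6 : ℝ)) := by
      rw [← ENNReal.ofReal_mul (by positivity)]
      apply ENNReal.ofReal_le_ofReal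
      have e1 : R ^ p = T ^ (p / ((d : ℝ) + δ / 2)) := by
        rw [hR, ← Real.rpow_mul hTpos.le]
        congr 1
        ring
      have e2 : T ^ (p / ((d : ℝ) + δ) - 6) = T ^ (p / ((d : ℝ) + δ)) * T ^ (-6 : ℝ) := by
        rw [← Real.rpow_add hTpos]
        congr 1
      rw [e1, e2]
      refine mul_le_mul_of_nonneg_right ?_ (by positivity)
      rw [le_div_iff₀ Real.pi_pos]
      calc T ^ (p / ((d : ℝ) + δ)) * Real.pi ≤ T ^ (p / ((d : ℝ) + δ)) *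
            T ^ (p / ((d : ℝ) + δ / 2) - p / ((d : ℝ) + δ)) :=
            mul_le_mul_of_nonneg_left hT2 (by positivity)
        _ = T ^ (p / ((d : ℝ) + δ / 2)) := by
            rw [← Real.rpow_add hTpos]
            congr 1
            ring
    refine h1.trans ?_
    calc ENNReal.ofReal (R ^ p / Real.pi) * ENNReal.ofReal (T ^ (-6 : ℝ))
        ≤ ENNReal.ofReal (R ^ p / Real.pi) *
          ∫⁻ ω, spread (fun x => σ * ξ x ω) T R (Set.Ioo (E₀ - 1) (E₀ + 1)) ∂P := by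
          gcongr
          exact h T hT1
      _ = ∫⁻ ω, ENNReal.ofReal (R ^ p / Real.pi) *
          spread (fun x => σ * ξ x ω) T R (Set.Ioo (E₀ - 1) (E₀ + 1)) ∂P :=
          (lintegral_const_mul' _ _ ENNReal.ofReal_ne_top).symm
      _ ≤ _ := lintegral_mono fun ω => hTim d _ (ψ ω) (hψ ω) T p R hTpos hp.le hR1 _ _

end Pool.Agent.Mob.H42
end
end -- Pool.Agent.Helper42_Mob.Fin2

section -- Pool.Agent.Helper65_Mob.Fv2

/-!
# Module FV2: finite volume against infinite volume, at positive height, in the square mean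
-/

set_option autoImplicit false

open MeasureTheory ProbabilityTheory Function

open scoped ENNReal BigOperators InnerProductSpace

noncomputable section

namespace Pool.Agent.Mob.H65

open Pool.Agent.Anderson Pool.Agent.Loc Pool.Agent.Helper54.Bal Pool.Agent.Mob

variable {d : ℕ}

theorem norm_Lap_le (f : L2 d) : ‖Lap d f‖ ≤ 2 * d * ‖f‖ := by
  unfold Lap
  rw [ContinuousLinearMap.sum_apply]
  refine (norm_sum_le _ _).trans ?_
  calc ∑ i : Fin d, ‖((shift (Pi.single i 1)).toContinuousLinearMap +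
        (shift (-Pi.single i 1)).toContinuousLinearMap) f‖ ≤ ∑ _i : Fin d, 2 * ‖f‖ := by
        apply Finset.sum_le_sum
        intro i _
        rw [ContinuousLinearMap.add_apply]
        refine (norm_add_le _ _).trans ?_
        rw [LinearIsometry.coe_toContinuousLinearMap, LinearIsometry.coe_toContinuousLinearMap,
          LinearIsometry.norm_map, LinearIsometry.norm_map]
        linarith
    _ = 2 * d * ‖f‖ := by
        rw [Finset.sum_const, Finset.card_univ, Fintype.card_fin, nsmul_eq_mul]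
        ring

theorem sum_le_norm (Λ : Finset (Site d)) (f : L2 d) : ∑ v : Λ, ‖f v‖ ^ 2 ≤ ‖f‖ ^ 2 := by
  rw [L2.norm_sq, Finset.sum_coe_sort Λ (fun v => ‖f v‖ ^ 2)]
  exact (L2.summable_sq f).sum_le_tsum Λ fun v _ => by positivity

/-- the expansion of the finite volume resolvent -/
theorem gz_expand (hgzb : GzbStmt) (V : Site d → ℝ) (Λ : Finset (Site d)) (z : ℂ)
    (hz : z.im ≠ 0) (x y : Site d) (hx : x ∈ Λ) (hy : y ∈ Λ) (φ : L2 d)
    (hφ : φ = G V z (del x)) (b : Site d → ℂ)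
    (hb : b = lap (fun v => if v ∈ Λ then 0 else φ v)) :
    gz V Λ z x y = -φ y +
      (z • (1 : Matrix Λ Λ ℂ) - HC V Λ)⁻¹.mulVec (fun v : Λ => b v) ⟨y, hy⟩ := by
  have hdet := ((hgzb d V Λ x y).2.1 z hz).1
  have h1 : (z • (1 : Matrix Λ Λ ℂ) - HC V Λ).mulVec (fun v : Λ => φ v) =
      fun u : Λ => -(if (u : Site d) = x then 1 else 0) + b u := by
    funext u
    rw [mul_fun]
    have h2 := G_eq (V := V) hz (del x) u
    rw [del_apply, ← hφ] at h2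
    have h3 : lap φ u = lap (fun v => if v ∈ Λ then φ v else 0) u + b u := by
      rw [hb, ← lap_add]
      congr 1
      funext v
      by_cases hv : v ∈ Λ
      · rw [if_pos hv, if_pos hv, add_zero]
      · rw [if_neg hv, if_neg hv, zero_add]
    rw [h3] at h2
    linear_combination -h2
  have h2 : (fun v : Λ => φ v) = (z • (1 : Matrix Λ Λ ℂ) - HC V Λ)⁻¹.mulVec
      (fun u : Λ => -(if (u : Site d) = x then 1 else 0) + b u) := by
    rw [← h1, Matrix.mulVec_mulVec, Matrix.nonsing_inv_mul _ (isUnit_iff_ne_zero.2 hdet),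
      Matrix.one_mulVec]
  have h3 := congrFun h2 ⟨y, hy⟩
  have h4 : φ y = -gz V Λ z y x +
      (z • (1 : Matrix Λ Λ ℂ) - HC V Λ)⁻¹.mulVec (fun v : Λ => b v) ⟨y, hy⟩ := by
    rw [h3]
    simp only [Matrix.mulVec, dotProduct, mul_add, Finset.sum_add_distrib]
    congr 1
    rw [Finset.sum_eq_single (⟨x, hx⟩ : Λ)]
    · rw [if_pos rfl]
      unfold gz
      rw [dif_pos ⟨hy, hx⟩]
      ring
    · intro v _ hv
      rw [if_neg]
      · ring
      · intro h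
        exact hv (Subtype.ext h)
    · intro h
      exact absurd (Finset.mem_univ _) h
  rw [gz_symm, h4]
  ring

theorem fv2 (hgzb : GzbStmt) : Fv2Stmt := by
  intro d V Λ η E ℓ x hη hx hout
  obtain ⟨z, hzz⟩ : ∃ z, z = zz η E := ⟨_, rfl⟩
  rw [← hzz]
  have him : z.im = η := by
    rw [hzz]
    unfold zz
    simp
  have hz : z.im ≠ 0 := by
    rw [him]
    exact hη.ne'
  obtain ⟨φ, hφ⟩ : ∃ φ : L2 d, φ = G V z (del x) := ⟨_, rfl⟩
  rw [← hφ]
  -- the tail of the infinite volume Green function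
  obtain ⟨s, hs⟩ : ∃ s : Site d → ℝ, s = fun u => if ℓ ≤ sd x u then ‖φ u‖ ^ 2 else 0 := ⟨_, rfl⟩
  have hs0 : ∀ u, 0 ≤ s u := by
    intro u
    rw [hs]
    simp only
    split_ifs
    · positivity
    · exact le_rfl
  have hsum : Summable s := by
    refine Summable.of_nonneg_of_le hs0 (fun u => ?_) (L2.summable_sq φ)
    rw [hs]
    simp only
    split_ifs
    · exact le_rfl
    · positivity
  obtain ⟨S, hS⟩ : ∃ S : ℝ, S = ∑' u, s u := ⟨_, rfl⟩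
  have hS0 : 0 ≤ S := by
    rw [hS]
    exact tsum_nonneg hs0
  have hR : (∑' u : Site d, if ℓ ≤ sd x u then ENNReal.ofReal (‖φ u‖ ^ 2) else 0) =
      ENNReal.ofReal S := by
    rw [hS, ENNReal.ofReal_tsum_of_nonneg hs0 hsum]
    apply tsum_congr
    intro u
    rw [hs]
    simp only
    split_ifs
    · rfl
    · rw [ENNReal.ofReal_zero]
  -- the part of the Green function outside
  have hmem : Memℓp (fun u : Site d => if u ∈ Λ then (0 : ℂ) else φ u) 2 := by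
    rw [memℓp_iff]
    refine Summable.of_nonneg_of_le (fun u => by positivity) (fun u => ?_) (L2.summable_sq φ)
    split_ifs
    · rw [norm_zero, zero_pow two_ne_zero]
      exact sq_nonneg _
    · exact le_rfl
  obtain ⟨ψ, hψ⟩ : ∃ ψ : L2 d, ψ = ⟨_, hmem⟩ := ⟨_, rfl⟩
  have hψa : ∀ u, ψ u = if u ∈ Λ then (0 : ℂ) else φ u := by
    intro u
    rw [hψ]
  have hψ2 : ‖ψ‖ ^ 2 ≤ S := by
    rw [L2.norm_sq, hS]
    refine Summable.tsum_le_tsum (fun u => ?_) (L2.summable_sq ψ) hsum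
    rw [hψa, hs]
    simp only
    by_cases hu : u ∈ Λ
    · rw [if_pos hu, norm_zero, zero_pow two_ne_zero]
      split_ifs
      · exact sq_nonneg _
      · exact le_rfl
    · rw [if_neg hu, if_pos (hout u hu)]
  obtain ⟨b, hb⟩ : ∃ b : Site d → ℂ, b = lap (fun v => if v ∈ Λ then 0 else φ v) := ⟨_, rfl⟩
  have hbL : ∀ v, b v = Lap d ψ v := by
    intro v
    rw [Lap_apply, hb]
    congr 1
    funext u
    exact (hψa u).symm
  -- the Euclidean vectors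
  obtain ⟨w, hw⟩ : ∃ w : Λ → ℂ, w = (z • (1 : Matrix Λ Λ ℂ) - HC V Λ)⁻¹.mulVec
    (fun v : Λ => b v) := ⟨_, rfl⟩
  have hdet := ((hgzb d V Λ x x).2.1 z hz).1
  have hexp : ∀ y : Λ, gz V Λ z x y = -φ y + w y := by
    intro y
    rw [hw]
    exact gz_expand hgzb V Λ z hz x y hx y.2 φ hφ b hb
  have hnb : ‖(WithLp.toLp 2 (fun v : Λ => b v) : EuclideanSpace ℂ Λ)‖ ≤ 2 * d * √S := by
    rw [EuclideanSpace.norm_eq]
    have h1 : ∑ v : Λ, ‖b v‖ ^ 2 ≤ (2 * d * √S) ^ 2 := by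
      calc ∑ v : Λ, ‖b v‖ ^ 2 = ∑ v : Λ, ‖Lap d ψ v‖ ^ 2 :=
            Finset.sum_congr rfl fun v _ => by rw [hbL]
        _ ≤ ‖Lap d ψ‖ ^ 2 := sum_le_norm Λ _
        _ ≤ (2 * d * ‖ψ‖) ^ 2 := pow_le_pow_left₀ (norm_nonneg _) (norm_Lap_le ψ) 2
        _ = (2 * d) ^ 2 * ‖ψ‖ ^ 2 := by ring
        _ ≤ (2 * d) ^ 2 * S := by gcongr
        _ = (2 * d * √S) ^ 2 := by rw [mul_pow _ (√S), Real.sq_sqrt hS0]
    exact Real.sqrt_le_iff.2 ⟨by positivity, h1⟩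
  have hnw : η * ‖(WithLp.toLp 2 w : EuclideanSpace ℂ Λ)‖ ≤ 2 * d * √S := by
    have h : ∀ j, η ≤ ‖z - ((HC_herm V Λ).eigenvalues j : ℂ)‖ := by
      intro j
      have := Complex.abs_im_le_norm (z - ((HC_herm V Λ).eigenvalues j : ℂ))
      rw [Complex.sub_im, Complex.ofReal_im, sub_zero, him, abs_of_pos hη] at this
      exact this
    have h1 := H11.norm_ge (HC V Λ) (HC_herm V Λ) z η hη.le h (WithLp.toLp 2 w)
    rw [H11.lin_eq, hw, Matrix.mulVec_mulVec, Matrix.mul_nonsing_inv _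
      (isUnit_iff_ne_zero.2 hdet), Matrix.one_mulVec, ← hw] at h1
    exact h1.trans hnb
  obtain ⟨F, hF⟩ : ∃ F : EuclideanSpace ℂ Λ, F = WithLp.toLp 2
    (fun y : Λ => if ℓ ≤ sd x y then -φ y else 0) := ⟨_, rfl⟩
  obtain ⟨W, hW⟩ : ∃ W : EuclideanSpace ℂ Λ, W = WithLp.toLp 2
    (fun y : Λ => if ℓ ≤ sd x y then w y else 0) := ⟨_, rfl⟩
  have hFn : ‖F‖ ≤ √S := by
    rw [EuclideanSpace.norm_eq]
    apply Real.sqrt_le_sqrt
    calc ∑ y : Λ, ‖F y‖ ^ 2 = ∑ y : Λ, s y := by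
          apply Finset.sum_congr rfl
          intro y _
          rw [hF, hs]
          simp only
          split_ifs
          · rw [norm_neg]
          · simp
      _ = ∑ y ∈ Λ, s y := Finset.sum_coe_sort Λ s
      _ ≤ S := by
          rw [hS]
          exact hsum.sum_le_tsum Λ fun v _ => hs0 v
  have hWn : ‖W‖ ≤ ‖(WithLp.toLp 2 w : EuclideanSpace ℂ Λ)‖ := by
    rw [EuclideanSpace.norm_eq, EuclideanSpace.norm_eq]
    apply Real.sqrt_le_sqrt
    apply Finset.sum_le_sum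
    intro y _
    rw [hW]
    simp only
    split_ifs
    · exact le_rfl
    · rw [norm_zero, zero_pow two_ne_zero]
      exact sq_nonneg _
  have hFW : ‖F + W‖ ≤ (1 + 2 * d / η) * √S := by
    have h1 : ‖W‖ ≤ 2 * d * √S / η := by
      rw [le_div_iff₀ hη, mul_comm]
      exact (mul_le_mul_of_nonneg_left hWn hη.le).trans hnw
    calc ‖F + W‖ ≤ ‖F‖ + ‖W‖ := norm_add_le _ _
      _ ≤ √S + 2 * d * √S / η := add_le_add hFn h1
      _ = (1 + 2 * d / η) * √S := by ring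
  have hmain : ∑ y ∈ Λ.filter (fun y => ℓ ≤ sd x y), ‖gz V Λ z x y‖ ^ 2 ≤
      (1 + 2 * d / η) ^ 2 * S := by
    calc ∑ y ∈ Λ.filter (fun y => ℓ ≤ sd x y), ‖gz V Λ z x y‖ ^ 2
        = ∑ y ∈ Λ, if ℓ ≤ sd x y then ‖gz V Λ z x y‖ ^ 2 else 0 := Finset.sum_filter _ _
      _ = ∑ y : Λ, if ℓ ≤ sd x y then ‖gz V Λ z x y‖ ^ 2 else 0 :=
          (Finset.sum_coe_sort Λ (fun y => if ℓ ≤ sd x y then ‖gz V Λ z x y‖ ^ 2 else 0)).symm
      _ = ∑ y : Λ, ‖(F + W) y‖ ^ 2 := by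
          apply Finset.sum_congr rfl
          intro y _
          rw [PiLp.add_apply, hF, hW]
          simp only
          split_ifs
          · rw [hexp y]
          · simp
      _ = ‖F + W‖ ^ 2 := (EuclideanSpace.norm_sq_eq _).symm
      _ ≤ ((1 + 2 * d / η) * √S) ^ 2 := pow_le_pow_left₀ (norm_nonneg _) hFW 2
      _ = (1 + 2 * d / η) ^ 2 * S := by rw [mul_pow, Real.sq_sqrt hS0]
  rw [hR, ← ENNReal.ofReal_sum_of_nonneg fun y _ => by positivity,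
    ← ENNReal.ofReal_mul (by positivity)]
  exact ENNReal.ofReal_le_ofReal hmain

end Pool.Agent.Mob.H65
end
end -- Pool.Agent.Helper65_Mob.Fv2

section -- Pool.Agent.Helper42_Mob.Fin3

/-!
# Metal-insulator transport transition: assembly with dynamical localization
-/

set_option autoImplicit false
set_option linter.unusedSectionVars false

open MeasureTheory ProbabilityTheory Function

open scoped ENNReal BigOperators ComplexInnerProductSpace

noncomputable section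

namespace Pool.Agent.Mob.H42

open Pool.Agent.Anderson Pool.Agent.Loc Pool.Agent.Helper54.Bal Pool.Agent.Mob

variable {d : ℕ}

/-- fixed energy decay, uniformly on compact sets -/
theorem bulk_compact (hBdc : BdcStmt) (hd : 1 ≤ d) {C₀ σ : ℝ} (hC₀ : 0 < C₀)
    (hσ : σ ≠ 0) (hB : BlkAt d C₀ σ) {K : Set ℝ} (hK : IsCompact K) (hsub : K ⊆ LocSet d C₀ σ) :
    ∃ C μ : ℝ, 0 < μ ∧ BulkDecay d (gl σ) K C μ := by
  classical
  obtain ⟨s, hs, hcov⟩ := cover hK hsub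
  have h : ∀ p ∈ s, ∃ C μ : ℝ, 0 < μ ∧
      BulkDecay d (gl σ) (Set.Icc (p.1 : ℝ) (p.2 : ℝ)) C μ := by
    intro p hp
    obtain ⟨L, hL⟩ := hs p hp
    exact hBdc d C₀ σ hd hC₀ hσ hB _ L hL
  choose! C μ h1 h2 using h
  obtain ⟨μ', hμ', hle⟩ : ∃ μ' : ℝ, 0 < μ' ∧ ∀ p ∈ s, μ' ≤ μ p := by
    rcases s.eq_empty_or_nonempty with h | h
    · subst h; exact ⟨1, one_pos, fun p hp => absurd hp (Finset.notMem_empty p)⟩
    · obtain ⟨q, hq, hmin⟩ := s.exists_min_image μ h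
      exact ⟨μ q, h1 q hq, hmin⟩
  refine ⟨∑ p ∈ s, |C p|, μ', hμ', ?_⟩
  intro x u R E hE hR
  have hE' := hcov hE
  simp only [Set.mem_iUnion, exists_prop] at hE'
  obtain ⟨p, hp, hEp⟩ := hE'
  have hRn : (0 : ℝ) ≤ R := by positivity
  have hexp : Real.exp (-μ p * R) ≤ Real.exp (-μ' * R) := by
    apply Real.exp_le_exp.2
    have := hle p hp
    nlinarith only [this]
  refine (measure_mono ?_).trans ((h2 p hp x u R E hEp hR).trans ?_)
  · intro V hV hg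
    exact hV (good_mono hg hexp)
  · apply ENNReal.ofReal_le_ofReal
    have h3 : C p ≤ ∑ p ∈ s, |C p| :=
      (le_abs_self _).trans (Finset.single_le_sum (f := fun p => |C p|)
        (fun _ _ => abs_nonneg _) hp)
    have h4 : 0 ≤ ∑ p ∈ s, |C p| := Finset.sum_nonneg fun _ _ => abs_nonneg _
    exact mul_le_mul h3 hexp (Real.exp_pos _).le h4

theorem measurable_spread (hShf : ShfStmt) (ν : Measure ℝ) [IsProbabilityMeasure ν] {T : ℝ}
    (hT : 0 < T) (R a b : ℝ) :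
    Measurable fun V : Site d → ℝ => spread V T R (Set.Ioo a b) := by
  have e : (fun V : Site d → ℝ => spread V T R (Set.Ioo a b)) =
      fun V => ENNReal.ofReal (1 / T) * spr V 0 (1 / T) (Set.Ioo a b) ⌈R⌉₊ := by
    funext V
    exact H5.spread_eq V T R _ ⌈R⌉₊ fun j => Nat.ceil_le.symm
  rw [e]
  exact ((hShf d ν (1 / T) (by positivity) a b ⌈R⌉₊ 0).1).const_mul _

theorem spread_lower_T {V : Site d → ℝ} {T R : ℝ} {a b : ℝ} (hab : b ≤ a) :
    spread V T R (Set.Ioo a b) = 0 := by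
  unfold spread
  rw [Set.Ioo_eq_empty (not_lt.2 hab)]
  simp

/-- dynamical localization on compact intervals -/
theorem ins_compact (hBdc : BdcStmt) (hIns : InsStmt) (hd : 1 ≤ d) {C₀ σ : ℝ} (hC₀ : 0 < C₀)
    (hσ : σ ≠ 0) (hB : BlkAt d C₀ σ) {a b : ℝ} (hsub : Set.Icc a b ⊆ LocSet d C₀ σ)
    {β : ℝ} (hβ : 0 < β) (k : ℝ) : ∃ T₀ : ℝ, ∀ T : ℝ, T₀ ≤ T →
      ∫⁻ V, spread V T (T ^ β) (Set.Ioo a b) ∂(PP d (gl σ)) ≤ ENNReal.ofReal (T ^ (-k)) := by
  rcases lt_or_ge a b with hab | hab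
  swap
  · refine ⟨0, fun T _ => ?_⟩
    simp only [spread_lower_T hab, lintegral_zero]
    exact bot_le
  obtain ⟨t, ht, htsub⟩ := isCompact_Icc.exists_cthickening_subset_open (isOpen_LocSet d C₀ σ) hsub
  have hsub2 : Set.Icc (a - 2 * (t / 2)) (b + 2 * (t / 2)) ⊆ LocSet d C₀ σ := by
    refine subset_trans ?_ htsub
    intro E hE
    apply Metric.mem_cthickening_of_dist_le E (max a (min E b)) t
    · exact ⟨le_max_left _ _, max_le hab.le (min_le_right _ _)⟩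
    · rw [Real.dist_eq]
      have h1 := hE.1
      have h2 := hE.2
      rcases le_total E a with h3 | h3
      · rw [min_eq_left (h3.trans hab.le), max_eq_left h3, abs_le]
        constructor <;> linarith
      · rcases le_total E b with h4 | h4
        · rw [min_eq_left h4, max_eq_right h3, sub_self, abs_zero]
          exact ht.le
        · rw [min_eq_right h4, max_eq_right hab.le, abs_le]
          constructor <;> linarith
  obtain ⟨C, μ, hμ, hdec⟩ := bulk_compact hBdc hd hC₀ hσ hB isCompact_Icc hsub2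
  exact hIns d (gl σ) a b (t / 2) C μ hd hμ (by positivity) hdec β k hβ

/-- the statement of the theorem -/
def MainStmt3.{u} : Prop :=
  ∀ d : ℕ, 1 ≤ d → ∃ σ₁ C : ℝ, 0 < σ₁ ∧ 0 < C ∧ ∀ σ : ℝ, σ ≠ 0 →
    ∃ Loc : Set ℝ, IsOpen Loc ∧ (σ₁ ≤ |σ| → Loc = Set.univ) ∧
      (3 ≤ d → ∀ E : ℝ,
        2 * d + watson d * σ ^ 2 + C * |σ| ^ (2 + 1 / (24 * d : ℝ)) < |E| → E ∈ Loc) ∧
      ∀ (Ω : Type u) [MeasurableSpace Ω] (P : Measure Ω) [IsProbabilityMeasure P]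
        (ξ : Site d → Ω → ℝ), (∀ y, Measurable (ξ y)) →
        (∀ y, P.map (ξ y) = gaussianReal 0 1) → iIndepFun ξ P →
        (∀ K : Set ℝ, IsCompact K → K ⊆ Loc → ∃ m : ℝ, 0 < m ∧ ∀ᵐ ω ∂P, ∀ E ∈ K,
          ∀ ψ : Site d → ℂ,
            (∃ (B : ℝ) (k : ℕ), ∀ x, ‖ψ x‖ ≤ B * (1 + (sd 0 x : ℝ)) ^ k) →
            (∀ x, lap ψ x + ((σ * ξ x ω : ℝ) : ℂ) * ψ x = (E : ℂ) * ψ x) →
            ∃ B : ℝ, ∀ x, ‖ψ x‖ ≤ B * Real.exp (-m * sd 0 x)) ∧
        (∀ᵐ ω ∂P, ∀ c r : ℝ, Set.Icc (c - r) (c + r) ⊆ Loc → ∀ u w : L2 d,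
          (∀ x, w x = lap u x + ((σ * ξ x ω : ℝ) : ℂ) * u x) →
          (∀ (E : ℝ) (ψ : L2 d), E ∈ Set.Icc (c - r) (c + r) →
            IsEigen (fun x => σ * ξ x ω) E ψ → ⟪ψ, u⟫ = 0) →
          r * ‖u‖ ≤ ‖w - (c : ℂ) • u‖) ∧
        (∀ a b β k : ℝ, Set.Icc a b ⊆ Loc → 0 < β → ∃ T₀ : ℝ, ∀ T : ℝ, T₀ ≤ T →
          ∫⁻ ω, spread (fun x => σ * ξ x ω) T (T ^ β) (Set.Ioo a b) ∂P ≤
            ENNReal.ofReal (T ^ (-k))) ∧
        (∀ a b δ : ℝ, ¬ Set.Ioo a b ⊆ Loc → 0 < δ → δ ≤ 1 → ∃ T₀ : ℝ, ∀ T : ℝ, T₀ ≤ T →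
          ENNReal.ofReal (T ^ (-6 : ℝ)) ≤
            ∫⁻ ω, spread (fun x => σ * ξ x ω) T (T ^ (1 / ((d : ℝ) + δ))) (Set.Ioo a b) ∂P) ∧
        (Loc ≠ Set.univ → ∀ δ p : ℝ, 0 < δ → δ ≤ 1 → 0 < p → ∃ T₀ : ℝ, ∀ T : ℝ, T₀ ≤ T →
          ∀ ψ : Ω → ℝ → L2 d, (∀ ω, IsEvolution (fun x => σ * ξ x ω) (ψ ω)) →
            ENNReal.ofReal (T ^ (p / ((d : ℝ) + δ) - 6)) ≤ ∫⁻ ω, avgMoment (ψ ω) T p ∂P)

theorem main3 (hIni : In2Stmt) (hBlk : BlkStmt) (hLrg : LrgStmt) (hEdg : EdgStmt)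
    (hBdc : BdcStmt) (hTbx : TbxStmt) (hSep : SepStmt) (hDcy : DcyStmt) (hCmp : CmpStmt)
    (hTim : TimStmt) (hShf : ShfStmt) (hIns : InsStmt) : MainStmt3 := by
  intro d hd
  obtain ⟨C₀, hC₀, hB⟩ := hBlk d hd
  obtain ⟨σ₁, hσ₁, hL⟩ := hLrg d hd C₀ hC₀
  obtain ⟨C, hC, hE⟩ : ∃ C : ℝ, 0 < C ∧ (3 ≤ d → ∀ C₀ σ : ℝ, 0 < C₀ → σ ≠ 0 →
      ∃ L : ℕ, ∀ E : ℝ,
      2 * d + watson d * σ ^ 2 + C * |σ| ^ (2 + 1 / (24 * d : ℝ)) ≤ |E| → Crit d C₀ σ E L) := by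
    by_cases h3 : 3 ≤ d
    · obtain ⟨C, hC, h⟩ := hEdg d h3
      exact ⟨C, hC, fun _ => h⟩
    · exact ⟨1, one_pos, fun h => absurd h h3⟩
  refine ⟨σ₁, C, hσ₁, hC, fun σ hσ => ⟨LocSet d C₀ σ, isOpen_LocSet d C₀ σ, ?_, ?_, ?_⟩⟩
  · intro h
    ext E
    simp only [Set.mem_univ, iff_true]
    exact ⟨1, one_pos, 0, fun F _ => hL σ h F⟩
  · intro h3 E hEE
    obtain ⟨L, hLE⟩ := hE h3 C₀ σ hC₀ hσ
    set e := 2 * d + watson d * σ ^ 2 + C * |σ| ^ (2 + 1 / (24 * d : ℝ)) with he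
    refine ⟨|E| - e, by linarith only [hEE], L, fun F hF => hLE F ?_⟩
    rw [Set.mem_Icc] at hF
    have h1 : |E| - |F| ≤ |E - F| := abs_sub_abs_le_abs_sub E F
    have h2 : |E - F| ≤ |E| - e := by
      rw [abs_le]
      constructor <;> linarith only [hF.1, hF.2]
    linarith only [h1, h2]
  intro Ω _ P _ ξ hm hlaw hind
  obtain ⟨μ, hμ, hTB⟩ := exists_rate hBdc hTbx hd hC₀ hσ (hB σ hσ)
  have hmetal : ∀ a b δ : ℝ, ¬ Set.Ioo a b ⊆ LocSet d C₀ σ → 0 < δ → δ ≤ 1 →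
      ∃ T₀ : ℝ, 1 ≤ T₀ ∧ ∀ T : ℝ, T₀ ≤ T → ENNReal.ofReal (T ^ (-6 : ℝ)) ≤
        ∫⁻ ω, spread (fun x => σ * ξ x ω) T (T ^ (1 / ((d : ℝ) + δ))) (Set.Ioo a b) ∂P := by
    intro a b δ hab hδ hδ1
    obtain ⟨E₀, hE₀, hE₀'⟩ := Set.not_subset.1 hab
    obtain ⟨T₀, hT₀, h⟩ := hIni d hd C₀ σ hC₀ hσ δ a b E₀ hδ hδ1 hE₀.1 hE₀.2
    refine ⟨T₀, hT₀, fun T hT => ?_⟩
    by_contra hcon
    rw [not_le] at hcon
    apply hE₀'
    exact h T hT (lt_of_le_of_lt (lintegral_transfer hm hlaw hind σ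
      (fun V => spread V T (T ^ (1 / ((d : ℝ) + δ))) (Set.Ioo a b))) hcon)
  refine ⟨?_, ?_, ?_, ?_, ?_⟩
  · intro K hK hKL
    obtain ⟨m, hm0, h⟩ := loc_compact hDcy hd hμ hTB hK hKL
    exact ⟨m, hm0, ae_transfer hm hlaw hind σ h⟩
  · exact ae_transfer hm hlaw hind σ (loc_complete hSep hCmp hd hσ hμ hTB)
  · intro a b β k hsub hβ
    obtain ⟨T₀, h⟩ := ins_compact hBdc hIns hd hC₀ hσ (hB σ hσ) hsub hβ k
    refine ⟨max T₀ 1, fun T hT => ?_⟩
    have hT0 : 0 < T := lt_of_lt_of_le one_pos ((le_max_right _ _).trans hT)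
    refine le_trans (le_of_eq ?_) (h T ((le_max_left _ _).trans hT))
    rw [← map_eq_PP hm hlaw hind σ]
    exact (lintegral_map (measurable_spread hShf (gl σ) hT0 (T ^ β) a b)
      (measurable_W hm σ)).symm
  · intro a b δ hab hδ hδ1
    obtain ⟨T₀, _, h⟩ := hmetal a b δ hab hδ hδ1
    exact ⟨T₀, h⟩
  · intro hne δ p hδ hδ1 hp
    obtain ⟨E₀, hE₀⟩ : ∃ E₀, E₀ ∉ LocSet d C₀ σ := by
      by_contra hcon
      push Not at hcon
      exact hne (Set.eq_univ_of_forall hcon)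
    obtain ⟨T₀, hT₀, h⟩ := hmetal (E₀ - 1) (E₀ + 1) (δ / 2)
      (fun hsub => hE₀ (hsub ⟨by linarith only, by linarith⟩)) (by linarith only [hδ]) (by linarith only [hδ1])
    have hd0 : (0 : ℝ) < d := by exact_mod_cast hd
    have hgap : 0 < p / ((d : ℝ) + δ / 2) - p / ((d : ℝ) + δ) := by
      rw [sub_pos]
      exact div_lt_div_of_pos_left hp (by positivity) (by linarith only [hδ])
    obtain ⟨T₁, hT₁⟩ := Filter.eventually_atTop.1
      ((tendsto_rpow_atTop hgap).eventually_ge_atTop Real.pi)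
    refine ⟨max T₀ T₁, fun T hT ψ hψ => ?_⟩
    have hT1 : T₀ ≤ T := (le_max_left _ _).trans hT
    have hT2 := hT₁ T ((le_max_right _ _).trans hT)
    have hT1' : 1 ≤ T := hT₀.trans hT1
    have hTpos : 0 < T := by linarith only [hT₀, hT1]
    set R := T ^ (1 / ((d : ℝ) + δ / 2)) with hR
    have hdδ : 0 < (d : ℝ) + δ / 2 := by positivity
    have hR1 : 1 ≤ R := Real.one_le_rpow hT1' (by positivity)
    have h1 : ENNReal.ofReal (T ^ (p / ((d : ℝ) + δ) - 6)) ≤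
        ENNReal.ofReal (R ^ p / Real.pi) * ENNReal.ofReal (T ^ (-6 : ℝ)) := by
      rw [← ENNReal.ofReal_mul (by positivity)]
      apply ENNReal.ofReal_le_ofReal
      have e1 : R ^ p = T ^ (p / ((d : ℝ) + δ / 2)) := by
        rw [hR, ← Real.rpow_mul hTpos.le]
        congr 1
        ring
      have e2 : T ^ (p / ((d : ℝ) + δ) - 6) = T ^ (p / ((d : ℝ) + δ)) * T ^ (-6 : ℝ) := by
        rw [← Real.rpow_add hTpos]
        congr 1
      rw [e1, e2]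
      refine mul_le_mul_of_nonneg_right ?_ (by positivity)
      rw [le_div_iff₀ Real.pi_pos]
      calc T ^ (p / ((d : ℝ) + δ)) * Real.pi ≤ T ^ (p / ((d : ℝ) + δ)) *
            T ^ (p / ((d : ℝ) + δ / 2) - p / ((d : ℝ) + δ)) :=
            mul_le_mul_of_nonneg_left hT2 (by positivity)
        _ = T ^ (p / ((d : ℝ) + δ / 2)) := by
            rw [← Real.rpow_add hTpos]
            congr 1
            ring
    refine h1.trans ?_
    calc ENNReal.ofReal (R ^ p / Real.pi) * ENNReal.ofReal (T ^ (-6 : ℝ))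
        ≤ ENNReal.ofReal (R ^ p / Real.pi) *
          ∫⁻ ω, spread (fun x => σ * ξ x ω) T R (Set.Ioo (E₀ - 1) (E₀ + 1)) ∂P := by
          gcongr
          exact h T hT1
      _ = ∫⁻ ω, ENNReal.ofReal (R ^ p / Real.pi) *
          spread (fun x => σ * ξ x ω) T R (Set.Ioo (E₀ - 1) (E₀ + 1)) ∂P :=
          (lintegral_const_mul' _ _ ENNReal.ofReal_ne_top).symm
      _ ≤ _ := lintegral_mono fun ω => hTim d _ (ψ ω) (hψ ω) T p R hTpos hp.le hR1 _ _

end Pool.Agent.Mob.H42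
end
end -- Pool.Agent.Helper42_Mob.Fin3

section -- Pool.Agent.Helper76_Mob.Afv

/-!
# Module AFV: approximation of the infinite volume Green function by a cube
-/

set_option autoImplicit false

open MeasureTheory ProbabilityTheory Function

open scoped ENNReal BigOperators InnerProductSpace

noncomputable section

namespace Pool.Agent.Mob.H76

open Pool.Agent.Anderson Pool.Agent.Loc Pool.Agent.Helper54.Bal Pool.Agent.Mob

theorem afv (hcth : CthStmt) (hgzb : GzbStmt) : AfvStmt := by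
  intro d V η E a n y hη ha hea hy
  have hC := hcth d V η E a hη ha hea
  obtain ⟨Λ, hΛ⟩ : ∃ Λ, Λ = box (0 : Site d) n := ⟨_, rfl⟩
  have hx : (0 : Site d) ∈ Λ := by
    rw [hΛ, mem_box]
    simp [sd_self]
  have hout : ∀ u, u ∉ Λ → n ≤ sd (0 : Site d) u := by
    intro u hu
    rw [hΛ, mem_box] at hu
    omega
  rw [← hΛ] at hy ⊢
  obtain ⟨z, hzz⟩ : ∃ z, z = zz η E := ⟨_, rfl⟩
  rw [← hzz] at hC ⊢
  have him : z.im = η := by
    rw [hzz]
    unfold zz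
    simp
  have hz : z.im ≠ 0 := by
    rw [him]
    exact hη.ne'
  obtain ⟨φ, hφ⟩ : ∃ φ : L2 d, φ = G V z (del 0) := ⟨_, rfl⟩
  rw [← hφ] at hC ⊢
  -- the tail of the infinite volume Green function
  obtain ⟨s, hs⟩ : ∃ s : Site d → ℝ, s = fun u => if u ∈ Λ then 0 else ‖φ u‖ ^ 2 := ⟨_, rfl⟩
  have hs0 : ∀ u, 0 ≤ s u := by
    intro u
    rw [hs]
    simp only
    split_ifs
    · exact le_rfl
    · positivity
  have hsum : Summable s := by
    refine Summable.of_nonneg_of_le hs0 (fun u => ?_) (L2.summable_sq φ)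
    rw [hs]
    simp only
    split_ifs
    · positivity
    · exact le_rfl
  obtain ⟨S, hS⟩ : ∃ S : ℝ, S = ∑' u, s u := ⟨_, rfl⟩
  have hS0 : 0 ≤ S := by
    rw [hS]
    exact tsum_nonneg hs0
  obtain ⟨q, hq⟩ : ∃ q : ℝ, q = 2 / η * Real.exp (-a * n) := ⟨_, rfl⟩
  have hq0 : 0 ≤ q := by
    rw [hq]
    positivity
  have hSq : S ≤ q ^ 2 := by
    have h1 : ENNReal.ofReal S ≤ ENNReal.ofReal (q ^ 2) := by
      rw [hS, ENNReal.ofReal_tsum_of_nonneg hs0 hsum]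
      calc ∑' u, ENNReal.ofReal (s u) ≤ ∑' u : Site d, ENNReal.ofReal (Real.exp (-(2 * a * n))) *
            ENNReal.ofReal (Real.exp (2 * a * sd 0 u) * ‖φ u‖ ^ 2) := by
            refine ENNReal.tsum_le_tsum fun u => ?_
            rw [← ENNReal.ofReal_mul (by positivity)]
            apply ENNReal.ofReal_le_ofReal
            rw [hs]
            simp only
            split_ifs with hu
            · positivity
            · rw [← mul_assoc, ← Real.exp_add]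
              have h2 : (n : ℝ) ≤ sd (0 : Site d) u := by exact_mod_cast hout u hu
              have h3 : 1 ≤ Real.exp (-(2 * a * n) + 2 * a * sd (0 : Site d) u) := by
                apply Real.one_le_exp
                nlinarith only [ha, h2]
              exact le_mul_of_one_le_left (sq_nonneg _) h3
        _ = ENNReal.ofReal (Real.exp (-(2 * a * n))) *
            ∑' u : Site d, ENNReal.ofReal (Real.exp (2 * a * sd 0 u) * ‖φ u‖ ^ 2) :=
            ENNReal.tsum_mul_left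
        _ ≤ ENNReal.ofReal (Real.exp (-(2 * a * n))) * ENNReal.ofReal (4 / η ^ 2) := by
            gcongr
        _ = ENNReal.ofReal (q ^ 2) := by
            rw [← ENNReal.ofReal_mul (by positivity)]
            congr 1
            rw [hq, mul_pow, ← Real.exp_nat_mul]
            rw [show ((2 : ℕ) : ℝ) * (-a * n) = -(2 * a * n) by push_cast; ring]
            ring
    exact (ENNReal.ofReal_le_ofReal_iff (by positivity)).1 h1
  -- the part of the Green function outside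
  have hmem : Memℓp (fun u : Site d => if u ∈ Λ then (0 : ℂ) else φ u) 2 := by
    rw [memℓp_iff]
    refine Summable.of_nonneg_of_le (fun u => by positivity) (fun u => ?_) (L2.summable_sq φ)
    split_ifs
    · rw [norm_zero, zero_pow two_ne_zero]
      exact sq_nonneg _
    · exact le_rfl
  obtain ⟨ψ, hψ⟩ : ∃ ψ : L2 d, ψ = ⟨_, hmem⟩ := ⟨_, rfl⟩
  have hψa : ∀ u, ψ u = if u ∈ Λ then (0 : ℂ) else φ u := by
    intro u
    rw [hψ]
  have hψ2 : ‖ψ‖ ^ 2 ≤ S := by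
    rw [L2.norm_sq, hS]
    refine Summable.tsum_le_tsum (fun u => ?_) (L2.summable_sq ψ) hsum
    rw [hψa, hs]
    simp only
    by_cases hu : u ∈ Λ
    · rw [if_pos hu, if_pos hu, norm_zero, zero_pow two_ne_zero]
    · rw [if_neg hu, if_neg hu]
  obtain ⟨b, hb⟩ : ∃ b : Site d → ℂ, b = lap (fun v => if v ∈ Λ then 0 else φ v) := ⟨_, rfl⟩
  have hbL : ∀ v, b v = Lap d ψ v := by
    intro v
    rw [Lap_apply, hb]
    congr 1
    funext u
    exact (hψa u).symm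
  have hψq : ‖ψ‖ ≤ q := by
    have := hψ2.trans hSq
    exact (pow_le_pow_iff_left₀ (norm_nonneg _) hq0 (by norm_num)).1 this
  -- the Euclidean vectors
  obtain ⟨w, hw⟩ : ∃ w : Λ → ℂ, w = (z • (1 : Matrix Λ Λ ℂ) - HC V Λ)⁻¹.mulVec
    (fun v : Λ => b v) := ⟨_, rfl⟩
  have hdet := ((hgzb d V Λ 0 0).2.1 z hz).1
  have hexp : gz V Λ z 0 y = -φ y + w ⟨y, hy⟩ := by
    rw [hw]
    exact H65.gz_expand hgzb V Λ z hz 0 y hx hy φ hφ b hb
  have hnb : ‖(WithLp.toLp 2 (fun v : Λ => b v) : EuclideanSpace ℂ Λ)‖ ≤ 2 * d * q := by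
    rw [EuclideanSpace.norm_eq]
    have h1 : ∑ v : Λ, ‖b v‖ ^ 2 ≤ (2 * d * q) ^ 2 := by
      calc ∑ v : Λ, ‖b v‖ ^ 2 = ∑ v : Λ, ‖Lap d ψ v‖ ^ 2 :=
            Finset.sum_congr rfl fun v _ => by rw [hbL]
        _ ≤ ‖Lap d ψ‖ ^ 2 := H65.sum_le_norm Λ _
        _ ≤ (2 * d * ‖ψ‖) ^ 2 := pow_le_pow_left₀ (norm_nonneg _) (H65.norm_Lap_le ψ) 2
        _ ≤ (2 * d * q) ^ 2 := by gcongr
    exact Real.sqrt_le_iff.2 ⟨by positivity, h1⟩
  have hnw : η * ‖(WithLp.toLp 2 w : EuclideanSpace ℂ Λ)‖ ≤ 2 * d * q := by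
    have h : ∀ j, η ≤ ‖z - ((HC_herm V Λ).eigenvalues j : ℂ)‖ := by
      intro j
      have := Complex.abs_im_le_norm (z - ((HC_herm V Λ).eigenvalues j : ℂ))
      rw [Complex.sub_im, Complex.ofReal_im, sub_zero, him, abs_of_pos hη] at this
      exact this
    have h1 := H11.norm_ge (HC V Λ) (HC_herm V Λ) z η hη.le h (WithLp.toLp 2 w)
    rw [H11.lin_eq, hw, Matrix.mulVec_mulVec, Matrix.mul_nonsing_inv _
      (isUnit_iff_ne_zero.2 hdet), Matrix.one_mulVec, ← hw] at h1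
    exact h1.trans hnb
  have hwy : ‖w ⟨y, hy⟩‖ ≤ 2 * d * q / η := by
    have h3 : ‖w ⟨y, hy⟩‖ ≤ ‖(WithLp.toLp 2 w : EuclideanSpace ℂ Λ)‖ :=
      PiLp.norm_apply_le (WithLp.toLp 2 w : EuclideanSpace ℂ Λ) ⟨y, hy⟩
    rw [le_div_iff₀ hη, mul_comm]
    exact (mul_le_mul_of_nonneg_left h3 hη.le).trans hnw
  have hφy : φ y = -gz V Λ z 0 y + w ⟨y, hy⟩ := by
    rw [hexp]
    ring
  calc ‖φ y‖ = ‖-gz V Λ z 0 y + w ⟨y, hy⟩‖ := by rw [← hφy]
    _ ≤ ‖-gz V Λ z 0 y‖ + ‖w ⟨y, hy⟩‖ := norm_add_le _ _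
    _ ≤ ‖gz V Λ z 0 y‖ + 2 * d * q / η := by
        rw [norm_neg]
        gcongr
    _ = ‖gz V Λ z 0 y‖ + 4 * d / η ^ 2 * Real.exp (-a * n) := by
        rw [hq]
        field_simp
        ring

end Pool.Agent.Mob.H76
end
end -- Pool.Agent.Helper76_Mob.Afv

section -- Pool.Agent.Helper56_LCH.FVG

/-!
# Module FVG: strong convergence of the finite volume resolvents
-/

set_option autoImplicit false

open MeasureTheory ProbabilityTheory Function Filter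

open scoped ENNReal BigOperators InnerProductSpace Topology

noncomputable section

namespace Pool.Agent.LE.CH.H56

open Pool.Agent.Anderson Pool.Agent.Loc Pool.Agent.Mob Pool.Agent.Helper54.Bal Pool.Agent.LE.CH

variable {d : ℕ}

/-- the restriction to a finite set as a vector -/
def vec (Λ : Finset (Site d)) (f : Site d → ℂ) : L2 d := ∑ x ∈ Λ, lp.single 2 x (f x)

theorem vec_apply (Λ : Finset (Site d)) (f : Site d → ℂ) (x : Site d) :
    vec Λ f x = if x ∈ Λ then f x else 0 := by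
  unfold vec
  rw [coe_sum_apply]
  have h1 : ∀ y ∈ Λ, (lp.single 2 y (f y) : L2 d) x = if y = x then f x else 0 := by
    intro y _
    rw [lp.single_apply, Pi.single_apply]
    by_cases h : x = y
    · subst h
      simp
    · simp [h, Ne.symm h]
  rw [Finset.sum_congr rfl h1, Finset.sum_ite_eq']

theorem norm_vec_sq (Λ : Finset (Site d)) (f : Site d → ℂ) :
    ‖vec Λ f‖ ^ 2 = ∑ x ∈ Λ, ‖f x‖ ^ 2 := by
  rw [L2.norm_sq, tsum_eq_sum (s := Λ)]
  · apply Finset.sum_congr rfl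
    intro x hx
    rw [vec_apply, if_pos hx]
  · intro x hx
    rw [vec_apply, if_neg hx, norm_zero]
    norm_num

theorem tendsto_box : Tendsto (fun n : ℕ => box (0 : Site d) n) atTop atTop := by
  apply Filter.tendsto_atTop_finset_of_monotone
  · intro m n h
    exact box_mono 0 h
  · intro x
    refine ⟨sd 0 x, ?_⟩
    rw [mem_box]

theorem tendsto_vec (f : L2 d) : Tendsto (fun n : ℕ => vec (box (0 : Site d) n) f) atTop (𝓝 f) := by
  have h := lp.hasSum_single (p := 2) (by norm_num) f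
  exact h.comp tendsto_box

theorem sum_le_norm (Λ : Finset (Site d)) (f : L2 d) : ∑ x ∈ Λ, ‖f x‖ ^ 2 ≤ ‖f‖ ^ 2 := by
  rw [L2.norm_sq]
  exact (L2.summable_sq f).sum_le_tsum Λ (fun x _ => by positivity)

/-- the finite volume equation -/
theorem fv_add (V : Site d → ℝ) {z : ℂ} (hz : z.im ≠ 0) (u : L2 d) (n : ℕ) {y : Site d}
    (hy : y ∈ box (0 : Site d) n) :
    fv V n z u y + G V z u y =
      fv V n z (Lap d (G V z u - vec (box (0 : Site d) n) (G V z u))) y := by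
  obtain ⟨Λ, hΛ⟩ : ∃ Λ, Λ = box (0 : Site d) n := ⟨_, rfl⟩
  rw [← hΛ] at hy ⊢
  obtain ⟨φ, hφ⟩ : ∃ φ : L2 d, φ = G V z u := ⟨_, rfl⟩
  rw [← hφ]
  obtain ⟨b, hb⟩ : ∃ b : L2 d, b = Lap d (φ - vec Λ φ) := ⟨_, rfl⟩
  rw [← hb]
  have hdet := ((H11.gzb d V Λ y y).2.1 z hz).1
  have h1 : (z • (1 : Matrix Λ Λ ℂ) - HC V Λ).mulVec (fun v : Λ => φ v) =
      fun x : Λ => -(u x) + b x := by
    funext x
    rw [Mob.H65.mul_fun]
    have h2 := G_eq (V := V) hz u x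
    rw [← hφ] at h2
    have h3 : lap φ x = lap (fun v => if v ∈ Λ then φ v else 0) x + b x := by
      have h4 : b = Lap d φ - Lap d (vec Λ φ) := by
        rw [hb, map_sub]
      have h5 : b x = lap φ x - lap (vec Λ φ) x := by
        rw [h4]
        change (Lap d φ) x - (Lap d (vec Λ φ)) x = _
        rw [Lap_apply, Lap_apply]
      have h6 : (fun v => if v ∈ Λ then φ v else 0) = (vec Λ φ : Site d → ℂ) := by
        funext v
        rw [vec_apply]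
      rw [h5, h6]
      ring
    rw [h3] at h2
    linear_combination -h2
  have h2 : (fun v : Λ => φ v) = (z • (1 : Matrix Λ Λ ℂ) - HC V Λ)⁻¹.mulVec
      (fun x : Λ => -(u x) + b x) := by
    rw [← h1, Matrix.mulVec_mulVec, Matrix.nonsing_inv_mul _ (isUnit_iff_ne_zero.2 hdet),
      Matrix.one_mulVec]
  have h3 := congrFun h2 ⟨y, hy⟩
  have hfv : ∀ w : Site d → ℂ, fv V n z w y = ∑ v : Λ, gz V Λ z y v * w v := by
    intro w
    unfold fv
    rw [← hΛ, ← Finset.sum_coe_sort Λ (fun v => gz V Λ z y v * w v)]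
  have h4 : φ y = -fv V n z u y + fv V n z b y := by
    rw [hfv, hfv, h3]
    simp only [Matrix.mulVec, dotProduct, mul_add, Finset.sum_add_distrib]
    congr 1
    · rw [← Finset.sum_neg_distrib]
      apply Finset.sum_congr rfl
      intro v _
      unfold gz
      rw [dif_pos ⟨hy, v.2⟩]
      ring
    · apply Finset.sum_congr rfl
      intro v _
      unfold gz
      rw [dif_pos ⟨hy, v.2⟩]
  rw [h4]
  ring

/-- the bound for the finite volume resolvent -/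
theorem fv_bound (fvw : FvwStmt) (V : Site d → ℝ) {z : ℂ} (hz : z.im ≠ 0) (w : Site d → ℂ)
    (n : ℕ) : ∑ x ∈ box (0 : Site d) n, ‖fv V n z w x‖ ^ 2 ≤
      (|z.im| ^ 2)⁻¹ * ∑ x ∈ box (0 : Site d) n, ‖w x‖ ^ 2 := by
  obtain ⟨p, lam, hp, hsum, hz1, -⟩ := fvw d n V w
  rw [hz1 z hz, ← hsum, Finset.mul_sum]
  apply Finset.sum_le_sum
  intro j _
  have h1 : |z.im| ≤ ‖z - lam j‖ := by
    have h2 := Complex.abs_im_le_norm (z - lam j)
    rw [Complex.sub_im, Complex.ofReal_im, sub_zero] at h2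
    exact h2
  have h3 : 0 < |z.im| := abs_pos.2 hz
  have h4 : |z.im| ^ 2 ≤ ‖z - lam j‖ ^ 2 := by gcongr
  rw [div_eq_inv_mul]
  exact mul_le_mul_of_nonneg_right (inv_anti₀ (by positivity) h4) (hp j)

/-- FVG -/
theorem fvg (fvw : FvwStmt) : FvgStmt := by
  intro d V z u hz
  obtain ⟨φ, hφ⟩ : ∃ φ : L2 d, φ = G V z u := ⟨_, rfl⟩
  have h3 : 0 < |z.im| := abs_pos.2 hz
  have hr : Tendsto (fun n : ℕ => φ - vec (box (0 : Site d) n) φ) atTop (𝓝 0) := by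
    have h1 := (tendsto_const_nhds (x := φ)).sub (tendsto_vec φ)
    rwa [sub_self] at h1
  have h0 : Tendsto (fun n : ℕ => (|z.im| ^ 2)⁻¹ *
      ‖Lap d (φ - vec (box (0 : Site d) n) φ)‖ ^ 2) atTop (𝓝 0) := by
    have h1 := ((Lap d).continuous.tendsto 0).comp hr
    rw [map_zero] at h1
    have h2 := (h1.norm.pow 2).const_mul ((|z.im| ^ 2)⁻¹)
    rw [norm_zero, zero_pow two_ne_zero, mul_zero] at h2
    exact h2
  have hA : Tendsto (fun n : ℕ => ∑ x ∈ box (0 : Site d) n, ‖fv V n z u x + φ x‖ ^ 2)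
      atTop (𝓝 0) := by
    refine squeeze_zero (fun n => Finset.sum_nonneg fun x _ => by positivity) (fun n => ?_) h0
    have e1 : ∑ x ∈ box (0 : Site d) n, ‖fv V n z u x + φ x‖ ^ 2 =
        ∑ x ∈ box (0 : Site d) n,
          ‖fv V n z (Lap d (φ - vec (box (0 : Site d) n) φ)) x‖ ^ 2 := by
      apply Finset.sum_congr rfl
      intro x hx
      rw [hφ, fv_add V hz u n hx]
    rw [e1]
    refine (fv_bound fvw V hz _ n).trans ?_
    exact mul_le_mul_of_nonneg_left (sum_le_norm _ _) (by positivity)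
  -- the vector of the finite volume solution
  have hw : Tendsto (fun n : ℕ => vec (box (0 : Site d) n) (fv V n z u)) atTop (𝓝 (-φ)) := by
    have e1 : ∀ n : ℕ, vec (box (0 : Site d) n) (fv V n z u) =
        vec (box (0 : Site d) n) (fun x => fv V n z u x + φ x) -
          vec (box (0 : Site d) n) φ := by
      intro n
      unfold vec
      rw [← Finset.sum_sub_distrib]
      apply Finset.sum_congr rfl
      intro x _
      rw [← lp.single_sub]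
      congr 1
      ring
    have e2 : Tendsto (fun n : ℕ => vec (box (0 : Site d) n) (fun x => fv V n z u x + φ x))
        atTop (𝓝 0) := by
      rw [tendsto_zero_iff_norm_tendsto_zero]
      have h5 : Tendsto (fun n : ℕ => √(∑ x ∈ box (0 : Site d) n, ‖fv V n z u x + φ x‖ ^ 2))
          atTop (𝓝 (√0)) := hA.sqrt
      rw [Real.sqrt_zero] at h5
      refine h5.congr fun n => ?_
      rw [← norm_vec_sq, Real.sqrt_sq (norm_nonneg _)]
    have e3 := e2.sub (tendsto_vec φ)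
    rw [zero_sub] at e3
    exact e3.congr fun n => (e1 n).symm
  rw [← hφ]
  refine ⟨hA, ?_, ?_⟩
  · have h5 := (hw.norm).pow 2
    rw [norm_neg] at h5
    refine h5.congr fun n => ?_
    rw [norm_vec_sq]
  · intro x
    have h5 := ((coord x).continuous.tendsto (-φ)).comp hw
    have h6 : (coord x) (-φ) = - φ x := by
      rw [map_neg, coord_apply]
    rw [h6] at h5
    refine h5.congr' ?_
    filter_upwards [eventually_ge_atTop (sd 0 x)] with n hn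
    change (coord x) (vec (box (0 : Site d) n) (fv V n z u)) = fv V n z u x
    rw [coord_apply, vec_apply, if_pos]
    rw [mem_box]
    exact hn

end Pool.Agent.LE.CH.H56
end
end -- Pool.Agent.Helper56_LCH.FVG

section -- Pool.Agent.Helper81_LCH.AVL

/-!
# Squad LCH, row AVL: the lower bound of the mean
-/

set_option autoImplicit false

open MeasureTheory ProbabilityTheory Function Filter

open scoped ENNReal BigOperators InnerProductSpace Topology ComplexConjugate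

noncomputable section

namespace Pool.Agent.LE.CH.H81

open Pool.Agent.Anderson Pool.Agent.Loc Pool.Agent.Mob Pool.Agent.Helper54.Bal

variable {d : ℕ}

theorem fv_del (V : Site d → ℝ) (n : ℕ) (z : ℂ) :
    fv V n z (del (0 : Site d)) 0 = gz V (box (0 : Site d) n) z 0 0 := by
  classical
  unfold fv
  rw [Finset.sum_eq_single (0 : Site d)]
  · rw [del_apply, if_pos rfl, mul_one]
  · intro y _ hy
    rw [del_apply, if_neg hy, mul_zero]
  · intro h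
    unfold gz
    rw [dif_neg (fun h' => h h'.1), zero_mul]

theorem avl (hAVF : AvfStmt) (hFVG : FvgStmt) : AvlStmt := by
  intro d σ K hd hσ
  obtain ⟨c, hc, h⟩ := hAVF d σ K hd hσ
  have hpi := Real.pi_pos
  -- the bound at one energy
  have key : ∀ η E : ℝ, |E| ≤ K → 0 < η → η ≤ 1 → ENNReal.ofReal c ≤
      ∫⁻ V, ENNReal.ofReal (η * ‖G V (zz η E) (del (0 : Site d))‖ ^ 2) ∂(PP d (gl σ)) := by
    intro η E hE hη hη1
    have hz : (zz η E).im ≠ 0 := by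
      rw [zz_im]
      exact hη.ne'
    have hlim : Tendsto (fun n : ℕ => ∫⁻ V, ENNReal.ofReal
        (-(gz V (box (0 : Site d) n) (zz η E) 0 0).im) ∂(PP d (gl σ))) atTop
        (𝓝 (∫⁻ V, ENNReal.ofReal (η * ‖G V (zz η E) (del (0 : Site d))‖ ^ 2) ∂(PP d (gl σ)))) := by
      refine tendsto_lintegral_of_dominated_convergence (fun _ => ENNReal.ofReal η⁻¹) ?_ ?_ ?_ ?_
      · intro n
        exact ENNReal.measurable_ofReal.comp
          (Complex.measurable_im.comp (Mob.H31.measurable_gz _ _ 0 0)).neg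
      · intro n
        refine Eventually.of_forall fun V => ENNReal.ofReal_le_ofReal ?_
        have h1 := ((Mob.H11.gzb d V (box (0 : Site d) n) 0 0).2.1 (zz η E) hz).2
        rw [zz_im, abs_of_pos hη] at h1
        have h2 := Complex.abs_im_le_norm (gz V (box (0 : Site d) n) (zz η E) 0 0)
        exact (neg_le_abs _).trans (h2.trans h1)
      · rw [lintegral_const, measure_univ, mul_one]
        exact ENNReal.ofReal_ne_top
      · refine Eventually.of_forall fun V => ?_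
        have h1 := (hFVG d V (zz η E) (del 0) hz).2.2 0
        have h2 : Tendsto (fun n : ℕ => ENNReal.ofReal
            (-(gz V (box (0 : Site d) n) (zz η E) 0 0).im)) atTop
            (𝓝 (ENNReal.ofReal (-(-G V (zz η E) (del (0 : Site d)) 0).im))) := by
          refine ENNReal.tendsto_ofReal ?_
          refine Tendsto.neg ?_
          refine (Complex.continuous_im.tendsto _).comp ?_
          refine h1.congr fun n => ?_
          exact fv_del V n _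
        have h3 : -(-G V (zz η E) (del (0 : Site d)) 0).im =
            η * ‖G V (zz η E) (del (0 : Site d))‖ ^ 2 := by
          have h4 := im_G_del (V := V) hz
          rw [zz_im] at h4
          rw [Complex.neg_im, neg_neg, h4]
        rw [h3] at h2
        exact h2
    refine ge_of_tendsto hlim ?_
    filter_upwards [eventually_ge_atTop 1] with n hn
    exact h n η E hn hE hη hη1
  refine ⟨c / Real.pi, by positivity, fun η S hη hη1 hS hSK => ?_⟩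
  have hcont : Continuous fun p : (Site d → ℝ) × ℝ => G p.1 (zz η p.2) (del (0 : Site d)) := by
    have h0 : Continuous fun p : (Site d → ℝ) × ℝ => (p.1, p.2, (del 0 : L2 d)) := by fun_prop
    have h6 := (continuous_G (d := d) hη.ne').comp h0
    exact h6
  have hmeas : Measurable fun p : (Site d → ℝ) × ℝ =>
      ENNReal.ofReal (η / Real.pi * ‖G p.1 (zz η p.2) (del (0 : Site d))‖ ^ 2) :=
    (((hcont.norm.measurable).pow_const 2).const_mul _).ennreal_ofReal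
  unfold wt
  rw [lintegral_lintegral_swap hmeas.aemeasurable]
  have h1 : ∀ E ∈ S, ENNReal.ofReal (c / Real.pi) ≤ ∫⁻ V, ENNReal.ofReal
      (η / Real.pi * ‖G V (zz η E) (del (0 : Site d))‖ ^ 2) ∂(PP d (gl σ)) := by
    intro E hE
    have hEK : |E| ≤ K := abs_le.2 (hSK hE)
    have h2 := key η E hEK hη hη1
    have h3 : ∀ V : Site d → ℝ, ENNReal.ofReal
        (η / Real.pi * ‖G V (zz η E) (del (0 : Site d))‖ ^ 2) =
        ENNReal.ofReal (1 / Real.pi) *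
          ENNReal.ofReal (η * ‖G V (zz η E) (del (0 : Site d))‖ ^ 2) := by
      intro V
      rw [← ENNReal.ofReal_mul (by positivity)]
      congr 1
      ring
    have hm : Measurable fun V : Site d → ℝ =>
        ENNReal.ofReal (η * ‖G V (zz η E) (del (0 : Site d))‖ ^ 2) := by
      have h0 : Continuous fun V : Site d → ℝ => G V (zz η E) (del (0 : Site d)) := by
        have h5 : Continuous fun V : Site d → ℝ => (V, E) := by fun_prop
        have h6 := hcont.comp h5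
        exact h6
      exact (((h0.norm.measurable).pow_const 2).const_mul _).ennreal_ofReal
    rw [lintegral_congr h3, lintegral_const_mul _ hm,
      show c / Real.pi = 1 / Real.pi * c by ring, ENNReal.ofReal_mul (by positivity)]
    gcongr
  calc ENNReal.ofReal (c / Real.pi) * volume S
      = ∫⁻ _ in S, ENNReal.ofReal (c / Real.pi) := by
        rw [setLIntegral_const]
    _ ≤ _ := setLIntegral_mono' hS h1

end Pool.Agent.LE.CH.H81
end
end -- Pool.Agent.Helper81_LCH.AVL
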