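import Pool.Agent.Helper12_MEB.B035
import Pool.Agent.Helper12_MEB.B050

/-!
# Merged copies (generated) of the modules

* `Pool.Agent.Helper54_LY.Chn3`
* `Pool.Agent.Helper54_LE.FMN`
* `Pool.Agent.Helper54_LEW.CPR`
-/

set_option autoImplicit false

section -- Pool.Agent.Helper54_LY.Chn3

/-!
# The chaining bound: the recursion
-/

set_option autoImplicit false
set_option linter.unusedSectionVars false

open scoped InnerProductSpace ComplexConjugate Topology ENNReal
open MeasureTheory Filter ProbabilityTheory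

noncomputable section

namespace Pool.Agent.LY

open Pool.Agent.Anderson Pool.Agent.Loc Pool.Agent.Mob Pool.Agent.Helper54.Bal

variable {d : ℕ}

/-- the maximum of `- log |G|` in a cube -/
def Sx (Λ : Finset (Site d)) (E : ℝ) (c : Site d) (n : ℕ) (V : Site d → ℝ) : ℝ≥0∞ :=
  (box c n).sup fun s => Dp (gr V Λ E c s)

theorem measurable_fsup {α ι : Type*} [MeasurableSpace α] (S : Finset ι) {f : ι → α → ℝ≥0∞}
    (hf : ∀ i, Measurable (f i)) : Measurable fun x => S.sup fun i => f i x := by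
  classical
  induction S using Finset.induction_on with
  | empty => simp only [Finset.sup_empty]; exact measurable_const
  | insert a s ha ih =>
    simp only [Finset.sup_insert]
    exact (hf a).sup ih

theorem measurable_Sx (Λ : Finset (Site d)) (E : ℝ) (c : Site d) (n : ℕ) :
    Measurable (Sx Λ E c n) :=
  measurable_fsup _ fun s => measurable_Dp.comp (measurable_gr Λ E c s)

theorem three_le : (3 : ℝ) ^ (1 / 4 : ℝ) ≤ 4 / 3 := by
  have h : (3 : ℝ) ≤ (4 / 3) ^ (4 : ℕ) := by norm_num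
  calc (3 : ℝ) ^ (1 / 4 : ℝ) ≤ ((4 / 3 : ℝ) ^ (4 : ℕ)) ^ (1 / 4 : ℝ) :=
        Real.rpow_le_rpow (by norm_num) h (by norm_num)
    _ = 4 / 3 := by
        rw [← Real.rpow_natCast, ← Real.rpow_mul (by norm_num)]
        norm_num

theorem card_pow_le (hd : 1 ≤ d) {N a : ℕ} (h : N ≤ a ^ d) :
    ((N : ℕ) : ℝ≥0∞) ^ (1 / ((4 * d : ℕ) : ℝ)) ≤ ENNReal.ofReal ((a : ℝ) ^ (1 / 4 : ℝ)) := by
  have hd0 : (0 : ℝ) < d := by exact_mod_cast hd
  calc ((N : ℕ) : ℝ≥0∞) ^ (1 / ((4 * d : ℕ) : ℝ)) ≤ (((a ^ d : ℕ) : ℕ) : ℝ≥0∞) ^ (1 / ((4 * d : ℕ) : ℝ)) := by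
        apply ENNReal.rpow_le_rpow _ (by positivity)
        exact_mod_cast h
    _ = _ := by
        have h1 : (((a ^ d : ℕ) : ℕ) : ℝ≥0∞) = ENNReal.ofReal ((a : ℝ) ^ d) := by
          rw [← ENNReal.ofReal_natCast]
          push_cast
          rfl
        rw [h1, ENNReal.ofReal_rpow_of_nonneg (by positivity) (by positivity), ← Real.rpow_natCast,
          ← Real.rpow_mul (by positivity)]
        congr 2
        push_cast
        field_simp

section main

variable {σ E C1 C2 : ℝ} {Λ : Finset (Site d)}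

theorem recursion (hd : 1 ≤ d) (hC1 : 0 ≤ C1) (hC2 : 0 ≤ C2)
    (h1 : ∀ x y : Site d, x ∈ Λ → y ∈ Λ → (x = y ∨ hop x y ≠ 0) →
      Nn (PL (gl σ) Λ) ((4 * d : ℕ) : ℝ) (fun V => Dp (gr V Λ E x y)) ≤ ENNReal.ofReal C1)
    (h2 : ∀ x u y : Site d, Nn (PL (gl σ) Λ) ((4 * d : ℕ) : ℝ)
      (fun V => Rp (gr V Λ E x u) (gr V Λ E u y) (gr V Λ E x y)) ≤ ENNReal.ofReal C2)
    (n : ℕ) : 1 ≤ n → ∀ c : Site d, box c n ⊆ Λ →
      Nn (PL (gl σ) Λ) ((4 * d : ℕ) : ℝ) (Sx Λ E c n) ≤
        ENNReal.ofReal ((12 * d * (C1 + C2) + 81 * C2) * n) := by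
  have hd1 : (1 : ℝ) ≤ d := by exact_mod_cast hd
  have hp1 : (1 : ℝ) ≤ ((4 * d : ℕ) : ℝ) := by
    push_cast; linarith only [hd1]
  have hp0 : (0 : ℝ) < ((4 * d : ℕ) : ℝ) := by linarith only [hp1]
  have mD : ∀ x y, Measurable fun V : Site d → ℝ => Dp (gr V Λ E x y) := fun x y =>
    measurable_Dp.comp (measurable_gr Λ E x y)
  have mR : ∀ x u y, Measurable fun V : Site d → ℝ =>
      Rp (gr V Λ E x u) (gr V Λ E u y) (gr V Λ E x y) := fun x u y =>
    measurable_Rp (measurable_gr Λ E _ _) (measurable_gr Λ E _ _) (measurable_gr Λ E _ _)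
  have hpath : ∀ (n : ℕ) (c : Site d), box c n ⊆ Λ → ∀ s, sd c s ≤ n →
      Nn (PL (gl σ) Λ) ((4 * d : ℕ) : ℝ) (fun V => Dp (gr V Λ E c s)) ≤
        ENNReal.ofReal ((d * n + 1) * (C1 + C2)) := by
    intro n c hc s hs
    refine (path hp1 hC1 hC2 h1 h2 hc (l1 c s) s rfl hs).trans (ENNReal.ofReal_le_ofReal ?_)
    have h3 : (l1 c s : ℝ) ≤ d * n := by exact_mod_cast l1_le c s hs
    have h4 : 0 ≤ C1 + C2 := by linarith only [hC1, hC2]
    nlinarith only [hC1, hC2, h3]
  have h34 : ENNReal.ofReal (((3 : ℕ) : ℝ) ^ (1 / 4 : ℝ)) ≤ ENNReal.ofReal (4 / 3) :=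
    ENNReal.ofReal_le_ofReal (by push_cast; exact three_le)
  induction n using Nat.strong_induction_on with
  | _ n ih =>
    intro hn c hc
    rcases Nat.lt_or_ge n 2 with hn2 | hn2
    · have hn1 : n = 1 := by omega
      subst hn1
      have h3 := Nn_sup (μ := PL (gl σ) Λ) hp0 (box c 1) (f := fun s V => Dp (gr V Λ E c s))
        (fun s _ => mD c s) (C := ENNReal.ofReal ((d * (1 : ℕ) + 1) * (C1 + C2)))
        (fun s hs => hpath 1 c hc s (mem_box.1 hs))
      refine h3.trans ?_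
      have h4 : (((box c 1).card : ℕ) : ℝ≥0∞) ^ (1 / ((4 * d : ℕ) : ℝ)) ≤
          ENNReal.ofReal (4 / 3) :=
        (card_pow_le hd (a := 3) (by rw [card_box])).trans h34
      refine (mul_le_mul' h4 le_rfl).trans ?_
      rw [← ENNReal.ofReal_mul (by norm_num)]
      apply ENNReal.ofReal_le_ofReal
      push_cast
      have h5 : 0 ≤ C1 + C2 := by linarith only [hC1, hC2]
      nlinarith only [mul_nonneg (sub_nonneg.2 hd1) h5, hC1, hC2]
    · set r' := n / 2 with hr'
      set r := n - r' with hr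
      have hrr : r + r' = n := by omega
      have hle : r' ≤ r := by omega
      have hrn : r < n := by omega
      have hr1 : 1 ≤ r := by omega
      have h23 : 3 * r ≤ 2 * n := by omega
      have hcm : ∀ w ∈ Wc c r', box w r ⊆ Λ := by
        intro w hw s hs
        apply hc
        rw [mem_box] at hs ⊢
        have := sd_triangle c w s
        have := sd_Wc hw
        omega
      have hcr' : box c r' ⊆ Λ := (box_mono c (by omega)).trans hc
      -- the pointwise inequality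
      have hpt : ∀ V, Sx Λ E c n V ≤ ((Wc c r').sup (fun w => Dp (gr V Λ E c w)) +
          (Wc c r').sup (fun w => Sx Λ E w r V)) +
          ((Wc c r') ×ˢ (box c n)).sup (fun q => Rp (gr V Λ E c q.1) (gr V Λ E q.1 q.2)
            (gr V Λ E c q.2)) := by
        intro V
        unfold Sx
        apply Finset.sup_le
        intro s hs
        obtain ⟨w, hw, hws⟩ := exists_Wc (mem_box.1 hs) hrr hle
        refine (Dp_le (gr V Λ E c w) (gr V Λ E w s) _).trans ?_
        refine add_le_add (add_le_add ?_ ?_) ?_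
        · exact Finset.le_sup (f := fun w => Dp (gr V Λ E c w)) hw
        · refine le_trans ?_ (Finset.le_sup (f := fun w => (box w r).sup fun s =>
            Dp (gr V Λ E w s)) hw)
          exact Finset.le_sup (f := fun s => Dp (gr V Λ E w s)) (mem_box.2 hws)
        · exact Finset.le_sup (f := fun q : Site d × Site d => Rp (gr V Λ E c q.1)
            (gr V Λ E q.1 q.2) (gr V Λ E c q.2)) (Finset.mk_mem_product hw hs)
      have m1 : Measurable fun V => (Wc c r').sup (fun w => Dp (gr V Λ E c w)) :=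
        measurable_fsup _ fun w => mD c w
      have m2 : Measurable fun V => (Wc c r').sup (fun w => Sx Λ E w r V) :=
        measurable_fsup _ fun w => measurable_Sx Λ E w r
      have m3 : Measurable fun V => ((Wc c r') ×ˢ (box c n)).sup (fun q => Rp (gr V Λ E c q.1)
          (gr V Λ E q.1 q.2) (gr V Λ E c q.2)) :=
        measurable_fsup _ fun q => mR c q.1 q.2
      have hW : (((Wc c r').card : ℕ) : ℝ≥0∞) ^ (1 / ((4 * d : ℕ) : ℝ)) ≤
          ENNReal.ofReal (4 / 3) :=
        (card_pow_le hd (a := 3) (card_Wc c r')).trans h34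
      have n1 : Nn (PL (gl σ) Λ) ((4 * d : ℕ) : ℝ)
          (fun V => (Wc c r').sup (fun w => Dp (gr V Λ E c w))) ≤
          ENNReal.ofReal (4 / 3 * ((d * r' + 1) * (C1 + C2))) := by
        refine (Nn_sup hp0 (Wc c r') (f := fun w V => Dp (gr V Λ E c w)) (fun w _ => mD c w)
          (C := ENNReal.ofReal ((d * r' + 1) * (C1 + C2)))
          (fun w hw => hpath r' c hcr' w (sd_Wc hw))).trans ?_
        rw [ENNReal.ofReal_mul (p := 4 / 3) (by norm_num)]
        exact mul_le_mul' hW le_rfl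
      have n2 : Nn (PL (gl σ) Λ) ((4 * d : ℕ) : ℝ)
          (fun V => (Wc c r').sup (fun w => Sx Λ E w r V)) ≤
          ENNReal.ofReal (4 / 3 * ((12 * d * (C1 + C2) + 81 * C2) * r)) := by
        refine (Nn_sup hp0 (Wc c r') (f := fun w V => Sx Λ E w r V)
          (fun w _ => measurable_Sx Λ E w r)
          (C := ENNReal.ofReal ((12 * d * (C1 + C2) + 81 * C2) * r))
          (fun w hw => ih r hrn hr1 w (hcm w hw))).trans ?_
        rw [ENNReal.ofReal_mul (p := 4 / 3) (by norm_num)]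
        exact mul_le_mul' hW le_rfl
      have n3 : Nn (PL (gl σ) Λ) ((4 * d : ℕ) : ℝ)
          (fun V => ((Wc c r') ×ˢ (box c n)).sup (fun q => Rp (gr V Λ E c q.1)
          (gr V Λ E q.1 q.2) (gr V Λ E c q.2))) ≤ ENNReal.ofReal (9 * n * C2) := by
        refine (Nn_sup hp0 ((Wc c r') ×ˢ (box c n)) (f := fun q V => Rp (gr V Λ E c q.1)
          (gr V Λ E q.1 q.2) (gr V Λ E c q.2)) (fun q _ => mR c q.1 q.2)
          (C := ENNReal.ofReal C2) (fun q _ => h2 c q.1 q.2)).trans ?_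
        have hcard : ((Wc c r') ×ˢ (box c n)).card ≤ (3 * (2 * n + 1)) ^ d := by
          rw [Finset.card_product, card_box, mul_pow]
          exact Nat.mul_le_mul_right _ (card_Wc c r')
        have h5 := card_pow_le hd hcard
        have h6 : ((3 * (2 * n + 1) : ℕ) : ℝ) ^ (1 / 4 : ℝ) ≤ 9 * n := by
          have h7 : (1 : ℝ) ≤ ((3 * (2 * n + 1) : ℕ) : ℝ) := by
            push_cast
            have : (0 : ℝ) ≤ n := Nat.cast_nonneg n
            linarith only
          have hn1 : (1 : ℝ) ≤ n := by exact_mod_cast hn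
          calc ((3 * (2 * n + 1) : ℕ) : ℝ) ^ (1 / 4 : ℝ) ≤ ((3 * (2 * n + 1) : ℕ) : ℝ) ^ (1 : ℝ) :=
                Real.rpow_le_rpow_of_exponent_le h7 (by norm_num)
            _ = 3 * (2 * n + 1) := by rw [Real.rpow_one]; push_cast; ring
            _ ≤ _ := by linarith only [hn1]
        rw [ENNReal.ofReal_mul (by positivity)]
        refine mul_le_mul' (h5.trans (ENNReal.ofReal_le_ofReal h6)) le_rfl
      have hC12 : 0 ≤ C1 + C2 := by linarith only [hC1, hC2]
      calc Nn (PL (gl σ) Λ) ((4 * d : ℕ) : ℝ) (Sx Λ E c n)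
          ≤ Nn (PL (gl σ) Λ) ((4 * d : ℕ) : ℝ) (fun V =>
              ((Wc c r').sup (fun w => Dp (gr V Λ E c w)) +
              (Wc c r').sup (fun w => Sx Λ E w r V)) +
              ((Wc c r') ×ˢ (box c n)).sup (fun q => Rp (gr V Λ E c q.1) (gr V Λ E q.1 q.2)
              (gr V Λ E c q.2))) := Nn_mono hp0 hpt
        _ ≤ (ENNReal.ofReal (4 / 3 * ((d * r' + 1) * (C1 + C2))) +
              ENNReal.ofReal (4 / 3 * ((12 * d * (C1 + C2) + 81 * C2) * r))) +
              ENNReal.ofReal (9 * n * C2) := by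
            refine (Nn_add hp1 (m1.add m2) m3).trans ?_
            refine add_le_add ((Nn_add hp1 m1 m2).trans (add_le_add n1 n2)) n3
        _ ≤ _ := by
            rw [← ENNReal.ofReal_add (by positivity) (by positivity),
              ← ENNReal.ofReal_add (by positivity) (by positivity)]
            apply ENNReal.ofReal_le_ofReal
            have e1 : (3 : ℝ) * r ≤ 2 * n := by exact_mod_cast h23
            have e2 : (2 : ℝ) * r' ≤ n := by
              have : 2 * r' ≤ n := by omega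
              exact_mod_cast this
            have e3 : (2 : ℝ) ≤ n := by exact_mod_cast hn2
            have e4 : (d : ℝ) * r' + 1 ≤ d * n := by nlinarith only [hd1, e2, e3]
            have e5 : 4 / 3 * (((d : ℝ) * r' + 1) * (C1 + C2)) ≤ 4 / 3 * (d * n * (C1 + C2)) := by
              gcongr
            have e6 : 4 / 3 * ((12 * d * (C1 + C2) + 81 * C2) * r) ≤
                8 / 9 * ((12 * d * (C1 + C2) + 81 * C2) * n) := by
              have e7 : 0 ≤ 12 * d * (C1 + C2) + 81 * C2 := by positivity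
              nlinarith only [e1, e7]
            linarith

end main

/-- CHN: the chaining bound -/
theorem chn {σ : ℝ} (hσ : σ ≠ 0) (E : ℝ) : ∃ C, Pool.Agent.LE.ChnTail d (gl σ) E C := by
  rcases Nat.eq_zero_or_pos d with hd | hd
  · subst hd
    refine ⟨1, fun R n c t _ _ _ => ?_⟩
    simp only [Nat.mul_zero, pow_zero, mul_one, ENNReal.ofReal_one]
    exact prob_le_one
  have hd1 : (1 : ℝ) ≤ d := by exact_mod_cast hd
  have hp0 : (0 : ℝ) < ((4 * d : ℕ) : ℝ) := by
    push_cast; linarith only [hd1]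
  obtain ⟨C1, hC1, h1⟩ := near (d := d) hσ E hp0
  obtain ⟨C2, hC2, h2⟩ := ratio (d := d) hσ E hp0
  set A : ℝ := 12 * d * (C1 + C2) + 81 * C2 with hA
  have hA0 : 0 ≤ A := by positivity
  refine ⟨A ^ (4 * d), fun R n c t hn hc ht => ?_⟩
  set Λ := box (0 : Site d) R with hΛ
  have hrec := recursion (σ := σ) (E := E) hd hC1 hC2 (fun x y hx hy hxy => h1 Λ x y hx hy hxy)
    (fun x u y => h2 Λ x u y) n hn c hc
  rw [← hA] at hrec
  have hint : ∫⁻ V, (Sx Λ E c n V) ^ ((4 * d : ℕ) : ℝ) ∂(PL (gl σ) Λ) ≤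
      (ENNReal.ofReal (A * n)) ^ ((4 * d : ℕ) : ℝ) := by
    rw [← Nn_rpow hp0]
    exact ENNReal.rpow_le_rpow hrec hp0.le
  have hsub : {V : Site d → ℝ | ∃ s ∈ box c n, |gr V Λ E c s| < Real.exp (-t)} ⊆
      {V | (ENNReal.ofReal t) ^ ((4 * d : ℕ) : ℝ) ≤ (Sx Λ E c n V) ^ ((4 * d : ℕ) : ℝ)} := by
    rintro V ⟨s, hs, hlt⟩
    rw [Set.mem_ofPred_eq]
    apply ENNReal.rpow_le_rpow _ hp0.le
    refine le_trans ?_ (Finset.le_sup (f := fun s => Dp (gr V Λ E c s)) hs)
    unfold Dp
    split_ifs with h0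
    · exact le_top
    · apply ENNReal.ofReal_le_ofReal
      have h3 : 0 < |gr V Λ E c s| := abs_pos.2 h0
      have h4 := Real.log_lt_log h3 hlt
      rw [Real.log_exp] at h4
      linarith only [h4]
  have ht0 : (ENNReal.ofReal t) ^ ((4 * d : ℕ) : ℝ) ≠ 0 := by
    rw [ENNReal.ofReal_rpow_of_pos ht, Ne, ENNReal.ofReal_eq_zero, not_le]
    positivity
  have htt : (ENNReal.ofReal t) ^ ((4 * d : ℕ) : ℝ) ≠ ∞ := by
    rw [ENNReal.ofReal_rpow_of_pos ht]
    exact ENNReal.ofReal_ne_top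
  calc PL (gl σ) Λ {V | ∃ s ∈ box c n, |gr V Λ E c s| < Real.exp (-t)}
      ≤ PL (gl σ) Λ {V | (ENNReal.ofReal t) ^ ((4 * d : ℕ) : ℝ) ≤
          (Sx Λ E c n V) ^ ((4 * d : ℕ) : ℝ)} := measure_mono hsub
    _ ≤ (∫⁻ V, (Sx Λ E c n V) ^ ((4 * d : ℕ) : ℝ) ∂(PL (gl σ) Λ)) /
          (ENNReal.ofReal t) ^ ((4 * d : ℕ) : ℝ) :=
        meas_ge_le_lintegral_div ((measurable_Sx Λ E c n).pow_const _).aemeasurable ht0 htt
    _ ≤ (ENNReal.ofReal (A * n)) ^ ((4 * d : ℕ) : ℝ) /
          (ENNReal.ofReal t) ^ ((4 * d : ℕ) : ℝ) := by gcongr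
    _ = _ := by
        rw [ENNReal.ofReal_rpow_of_nonneg (by positivity) hp0.le, ENNReal.ofReal_rpow_of_pos ht,
          ← ENNReal.ofReal_div_of_pos (by positivity), Real.rpow_natCast, Real.rpow_natCast,
          div_pow, mul_pow]
        congr 1
        ring

end Pool.Agent.LY
end
end -- Pool.Agent.Helper54_LY.Chn3

section -- Pool.Agent.Helper54_LE.FMN

/-!
# `- log |G|` in a cube: the moments (FMN)
-/

set_option autoImplicit false
set_option linter.unusedSectionVars false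

open scoped Topology ENNReal
open MeasureTheory Filter ProbabilityTheory

noncomputable section

namespace Pool.Agent.LE.H54

open Pool.Agent.Anderson Pool.Agent.Loc Pool.Agent.Mob Pool.Agent.Helper54.Bal Pool.Agent.LY

variable {d : ℕ}

/-- a neighbour closer to `c`, in the cube -/
theorem closer_in {c s : Site d} {N : ℕ} (hc : c ∈ box (0 : Site d) N)
    (hs : s ∈ box (0 : Site d) N) (h : s ≠ c) :
    ∃ s' ∈ box (0 : Site d) N, l1 c s' + 1 = l1 c s ∧ hop s' s ≠ 0 := by
  obtain ⟨i, hi⟩ := Function.ne_iff.1 h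
  have hci := sd_le_iff.1 (mem_box.1 hc) i
  have hsi := sd_le_iff.1 (mem_box.1 hs) i
  rw [Pi.zero_apply, zero_sub, abs_neg, abs_le] at hci hsi
  obtain ⟨a, ha, hab, hab2⟩ : ∃ a : ℤ, (a = 1 ∨ a = -1) ∧
      (s i + a - c i).natAbs + 1 = (s i - c i).natAbs ∧ |s i + a| ≤ (N : ℤ) := by
    rcases lt_or_gt_of_ne hi with h1 | h1
    · refine ⟨1, Or.inl rfl, by omega, ?_⟩
      rw [abs_le]
      constructor <;> omega
    · refine ⟨-1, Or.inr rfl, by omega, ?_⟩
      rw [abs_le]
      constructor <;> omega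
  refine ⟨s + Pi.single i a, ?_, ?_, hop_step s i ha⟩
  · rw [mem_box, sd_le_iff]
    intro j
    have h3 := sd_le_iff.1 (mem_box.1 hs) j
    rw [Pi.zero_apply, zero_sub, abs_neg] at h3 ⊢
    by_cases hj : j = i
    · subst hj
      rw [Pi.add_apply, Pi.single_eq_same]
      exact hab2
    · rw [Pi.add_apply, Pi.single_eq_of_ne hj, add_zero]
      exact h3
  · unfold l1
    rw [← Finset.add_sum_erase _ _ (Finset.mem_univ i), ← Finset.add_sum_erase _ _
      (Finset.mem_univ i)]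
    have h2 : ∑ j ∈ Finset.univ.erase i, ((s + Pi.single i a : Site d) j - c j).natAbs =
        ∑ j ∈ Finset.univ.erase i, (s j - c j).natAbs := by
      refine Finset.sum_congr rfl fun j hj => ?_
      rw [Pi.add_apply, Pi.single_eq_of_ne (Finset.ne_of_mem_erase hj), add_zero]
    rw [h2, Pi.add_apply, Pi.single_eq_same]
    omega

theorem path_in {σ E C1 C2 p : ℝ} {N : ℕ} (hp : 1 ≤ p) (hC1 : 0 ≤ C1) (hC2 : 0 ≤ C2)
    (h1 : ∀ x y : Site d, x ∈ box (0 : Site d) N → y ∈ box (0 : Site d) N →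
      (x = y ∨ hop x y ≠ 0) →
      Nn (PL (gl σ) (box (0 : Site d) N)) p (fun V => Dp (gr V (box (0 : Site d) N) E x y)) ≤
        ENNReal.ofReal C1)
    (h2 : ∀ x u y : Site d, Nn (PL (gl σ) (box (0 : Site d) N)) p
      (fun V => Rp (gr V (box (0 : Site d) N) E x u) (gr V (box (0 : Site d) N) E u y)
        (gr V (box (0 : Site d) N) E x y)) ≤ ENNReal.ofReal C2)
    {c : Site d} (hc : c ∈ box (0 : Site d) N) (m : ℕ) :
    ∀ s : Site d, l1 c s = m → s ∈ box (0 : Site d) N →
      Nn (PL (gl σ) (box (0 : Site d) N)) p (fun V => Dp (gr V (box (0 : Site d) N) E c s)) ≤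
        ENNReal.ofReal ((m + 1) * (C1 + C2)) := by
  set Λ := box (0 : Site d) N with hΛ
  induction m with
  | zero =>
    intro s hs hn
    have hsc : s = c := by
      by_contra hne
      obtain ⟨s', -, hs', -⟩ := closer_in hc hn hne
      omega
    subst hsc
    refine (h1 s s hc hc (Or.inl rfl)).trans (ENNReal.ofReal_le_ofReal ?_)
    push_cast
    linarith only [hC2]
  | succ m ih =>
    intro s hs hn
    have hne : s ≠ c := by
      rintro rfl
      unfold l1 at hs
      simp at hs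
    obtain ⟨s', hsm', hs', hhop⟩ := closer_in hc hn hne
    have hm := ih s' (by omega) hsm'
    have mD : ∀ x y, Measurable fun V : Site d → ℝ => Dp (gr V Λ E x y) := fun x y =>
      measurable_Dp.comp (measurable_gr Λ E x y)
    have mR : Measurable fun V : Site d → ℝ =>
        Rp (gr V Λ E c s') (gr V Λ E s' s) (gr V Λ E c s) :=
      measurable_Rp (measurable_gr Λ E _ _) (measurable_gr Λ E _ _) (measurable_gr Λ E _ _)
    calc Nn (PL (gl σ) Λ) p (fun V => Dp (gr V Λ E c s))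
        ≤ Nn (PL (gl σ) Λ) p (fun V => (Dp (gr V Λ E c s') + Dp (gr V Λ E s' s)) +
            Rp (gr V Λ E c s') (gr V Λ E s' s) (gr V Λ E c s)) :=
          Nn_mono (by linarith only [hp]) fun V => Dp_le _ _ _
      _ ≤ (Nn (PL (gl σ) Λ) p (fun V => Dp (gr V Λ E c s')) +
            Nn (PL (gl σ) Λ) p (fun V => Dp (gr V Λ E s' s))) +
            Nn (PL (gl σ) Λ) p (fun V => Rp (gr V Λ E c s') (gr V Λ E s' s) (gr V Λ E c s)) :=
          (Nn_add hp ((mD _ _).add (mD _ _)) mR).trans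
            (add_le_add (Nn_add hp (mD _ _) (mD _ _)) le_rfl)
      _ ≤ (ENNReal.ofReal ((m + 1) * (C1 + C2)) + ENNReal.ofReal C1) + ENNReal.ofReal C2 := by
          gcongr
          · exact h1 s' s hsm' hn (Or.inr hhop)
          · exact h2 c s' s
      _ = _ := by
          rw [← ENNReal.ofReal_add (by positivity) hC1, ← ENNReal.ofReal_add (by positivity) hC2]
          congr 1
          push_cast
          ring

/-- the integral of a function of the Green functions of `Λ` -/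
theorem lint_PP {ν : Measure ℝ} [IsProbabilityMeasure ν] (Λ : Finset (Site d))
    {G : (Site d → ℝ) → ℝ≥0∞} (hG : Measurable G) (hl : ∀ V V' : Site d → ℝ,
      (∀ x ∈ Λ, V x = V' x) → G V = G V') :
    ∫⁻ V, G V ∂(PP d ν) = ∫⁻ V, G V ∂(PL ν Λ) := by
  rw [← H75.map_cut, lintegral_map hG (H75.measurable_cut Λ)]
  refine lintegral_congr fun V => ?_
  exact (hl _ _ fun x hx => H75.cut_apply hx V).symm

/-- the positive part of `log |g|` -/
def Up (g : ℝ) : ℝ≥0∞ := ENNReal.ofReal (Real.log |g|)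

theorem measurable_Up : Measurable Up := by
  unfold Up
  fun_prop

theorem Up_sq_le (g : ℝ) : (Up g) ^ (2 : ℝ) ≤ ENNReal.ofReal 16 * ENNReal.ofReal (√|g|) := by
  unfold Up
  rcases eq_or_ne g 0 with rfl | hg
  · simp
  have hg' : 0 < |g| := abs_pos.2 hg
  have h1 : Real.log |g| ≤ 4 * |g| ^ (1 / 4 : ℝ) := by
    have h2 := Real.log_le_rpow_div hg'.le (ε := 1 / 4) (by norm_num)
    linarith only [h2]
  have h3 := ENNReal.rpow_le_rpow (ENNReal.ofReal_le_ofReal h1) (z := 2) (by norm_num)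
  refine h3.trans (le_of_eq ?_)
  rw [ENNReal.ofReal_rpow_of_pos (by positivity), ← ENNReal.ofReal_mul (by norm_num)]
  congr 1
  rw [Real.mul_rpow (by norm_num) (by positivity), ← Real.rpow_mul hg'.le, Real.sqrt_eq_rpow]
  norm_num

theorem ofReal_sq_le (g : ℝ) : ENNReal.ofReal ((-Real.log |g|) ^ 2) ≤
    (Dp g) ^ (2 : ℝ) + (Up g) ^ (2 : ℝ) := by
  rcases eq_or_ne g 0 with rfl | hg
  · simp [Dp]
  unfold Dp Up
  rw [if_neg hg]
  rcases le_total 0 (-Real.log |g|) with h | h
  · refine le_trans (le_of_eq ?_) le_self_add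
    rw [ENNReal.ofReal_rpow_of_nonneg h (by norm_num), Real.rpow_two]
  · refine le_trans (le_of_eq ?_) le_add_self
    rw [ENNReal.ofReal_rpow_of_nonneg (by linarith) (by norm_num), Real.rpow_two, neg_sq]

/-- from `lintegral` to `integral` -/
theorem int_le {Ω : Type*} [MeasurableSpace Ω] {P : Measure Ω} {f : Ω → ℝ} (hf : Measurable f)
    (h0 : ∀ ω, 0 ≤ f ω) {c : ℝ} (hc : 0 ≤ c) (h : ∫⁻ ω, ENNReal.ofReal (f ω) ∂P ≤ ENNReal.ofReal c) :
    Integrable f P ∧ ∫ ω, f ω ∂P ≤ c := by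
  constructor
  · refine ⟨hf.aestronglyMeasurable, ?_⟩
    rw [hasFiniteIntegral_iff_ofReal (Filter.Eventually.of_forall h0)]
    exact h.trans_lt ENNReal.ofReal_lt_top
  · rw [integral_eq_lintegral_of_nonneg_ae (Filter.Eventually.of_forall h0)
      hf.aestronglyMeasurable]
    exact ENNReal.toReal_le_of_le_ofReal hc h

theorem fmn : FmnStmt := by
  intro d σ E hd hσ
  obtain ⟨C1, hC1, h1⟩ := near (d := d) hσ E (p := 2) (by norm_num)
  obtain ⟨C2, hC2, h2⟩ := ratio (d := d) hσ E (p := 2) (by norm_num)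
  have hν := bddDens_gl hσ
  set ρ : ℝ := 1 / |σ| with hρdef
  have hρ : 0 < ρ := hν.1
  set C3 : ℝ := 16 * (2 * √(6 * ρ)) with hC3def
  have hC3 : 0 ≤ C3 := by positivity
  have hd1 : (1 : ℝ) ≤ d := by exact_mod_cast hd
  set A : ℝ := (d * (C1 + C2)) ^ 2 with hA
  have hA0 : 0 ≤ A := sq_nonneg _
  refine ⟨A + C3 + C2 ^ 2 + 1, by positivity, ?_⟩
  intro N
  set Λ := box (0 : Site d) N with hΛ
  have mg : ∀ x y, Measurable fun V : Site d → ℝ => gr V Λ E x y := fun x y =>
    measurable_gr Λ E x y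
  have mD : ∀ x y, Measurable fun V : Site d → ℝ => Dp (gr V Λ E x y) := fun x y =>
    measurable_Dp.comp (mg x y)
  have mU : ∀ x y, Measurable fun V : Site d → ℝ => Up (gr V Λ E x y) := fun x y =>
    measurable_Up.comp (mg x y)
  have mDL : ∀ x y, Measurable fun V : Site d → ℝ => DL Λ E V x y := fun x y => by
    unfold DL
    exact (Real.measurable_log.comp (mg x y).abs).neg
  -- the three moments
  have hDp : ∀ x ∈ Λ, ∀ y ∈ Λ, ∫⁻ V, (Dp (gr V Λ E x y)) ^ (2 : ℝ) ∂(PP d (gl σ)) ≤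
      ENNReal.ofReal (A * ((sd x y : ℝ) + 1) ^ 2) := by
    intro x hx y hy
    rw [lint_PP Λ ((mD x y).pow_const _) (fun V V' hV => by rw [gr_congr hV])]
    rw [← Nn_rpow (by norm_num)]
    have hp := path_in (σ := σ) (E := E) (p := 2) (N := N) (by norm_num) hC1 hC2
      (fun x y hx hy hxy => h1 Λ x y hx hy hxy) (fun x u y => h2 Λ x u y) hx (l1 x y) y rfl hy
    refine (ENNReal.rpow_le_rpow hp (by norm_num)).trans ?_
    rw [ENNReal.ofReal_rpow_of_nonneg (by positivity) (by norm_num), Real.rpow_two]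
    apply ENNReal.ofReal_le_ofReal
    have h3 : (l1 x y : ℝ) ≤ d * sd x y := by exact_mod_cast l1_le x y le_rfl
    have h4 : 0 ≤ C1 + C2 := by linarith only [hC1, hC2]
    have h5 : ((l1 x y : ℝ) + 1) ≤ d * ((sd x y : ℝ) + 1) := by linarith only [hd1, h3]
    rw [hA, ← mul_pow]
    apply pow_le_pow_left₀ (by positivity)
    calc ((l1 x y : ℝ) + 1) * (C1 + C2) ≤ d * ((sd x y : ℝ) + 1) * (C1 + C2) :=
          mul_le_mul_of_nonneg_right h5 h4
      _ = _ := by ring
  have hUp : ∀ x y, ∫⁻ V, (Up (gr V Λ E x y)) ^ (2 : ℝ) ∂(PP d (gl σ)) ≤ ENNReal.ofReal C3 := by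
    intro x y
    rw [lint_PP Λ ((mU x y).pow_const _) (fun V V' hV => by rw [gr_congr hV])]
    calc ∫⁻ V, (Up (gr V Λ E x y)) ^ (2 : ℝ) ∂(PL (gl σ) Λ)
        ≤ ∫⁻ V, ENNReal.ofReal 16 * ENNReal.ofReal (√|gr V Λ E x y|) ∂(PL (gl σ) Λ) :=
          lintegral_mono fun V => Up_sq_le _
      _ = ENNReal.ofReal 16 * ∫⁻ V, ENNReal.ofReal (√|gr V Λ E x y|) ∂(PL (gl σ) Λ) :=
          lintegral_const_mul' _ _ ENNReal.ofReal_ne_top
      _ ≤ ENNReal.ofReal 16 * ENNReal.ofReal (2 * √(6 * ρ)) := by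
          gcongr
          exact PL_sqrt hν Λ E x y
      _ = _ := by rw [← ENNReal.ofReal_mul (by norm_num)]
  have hRp : ∀ x u y, ∫⁻ V, (Rp (gr V Λ E x u) (gr V Λ E u y) (gr V Λ E x y)) ^ (2 : ℝ)
      ∂(PP d (gl σ)) ≤ ENNReal.ofReal (C2 ^ 2) := by
    intro x u y
    rw [lint_PP Λ ((measurable_Rp (mg x u) (mg u y) (mg x y)).pow_const _)
      (fun V V' hV => by rw [gr_congr hV, gr_congr hV, gr_congr hV])]
    rw [← Nn_rpow (by norm_num)]
    refine (ENNReal.rpow_le_rpow (h2 Λ x u y) (by norm_num)).trans ?_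
    rw [ENNReal.ofReal_rpow_of_nonneg (by positivity) (by norm_num), Real.rpow_two]
  have hne : ∀ x ∈ Λ, ∀ y ∈ Λ, ∀ᵐ V ∂(PP d (gl σ)), gr V Λ E x y ≠ 0 := by
    intro x hx y hy
    have h := ae_lt_top ((mD x y).pow_const 2)
      (ne_top_of_le_ne_top ENNReal.ofReal_ne_top (hDp x hx y hy))
    filter_upwards [h] with V hV h0
    rw [h0] at hV
    simp [Dp] at hV
  refine ⟨⟨mDL, ?_, ?_, ?_, ?_, ?_⟩, ?_⟩
  · intro V x y
    unfold DL
    rw [gr_symm]
  · intro x hx y hy
    have h := int_le (P := PP d (gl σ)) ((mDL x y).pow_const 2) (fun V => sq_nonneg _)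
      (c := A * ((sd x y : ℝ) + 1) ^ 2 + C3) (by positivity) ?_
    · exact h.1
    · calc ∫⁻ V, ENNReal.ofReal (DL Λ E V x y ^ 2) ∂(PP d (gl σ))
          ≤ ∫⁻ V, ((Dp (gr V Λ E x y)) ^ (2 : ℝ) + (Up (gr V Λ E x y)) ^ (2 : ℝ))
            ∂(PP d (gl σ)) := lintegral_mono fun V => ofReal_sq_le _
        _ = ∫⁻ V, (Dp (gr V Λ E x y)) ^ (2 : ℝ) ∂(PP d (gl σ)) +
            ∫⁻ V, (Up (gr V Λ E x y)) ^ (2 : ℝ) ∂(PP d (gl σ)) :=
            lintegral_add_left ((mD x y).pow_const _) _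
        _ ≤ ENNReal.ofReal (A * ((sd x y : ℝ) + 1) ^ 2) + ENNReal.ofReal C3 :=
            add_le_add (hDp x hx y hy) (hUp x y)
        _ = _ := by rw [← ENNReal.ofReal_add (by positivity) hC3]
  · intro x hx y hy
    have h := int_le (P := PP d (gl σ)) ((mDL x y).pow_const 2) (fun V => sq_nonneg _)
      (c := A * ((sd x y : ℝ) + 1) ^ 2 + C3) (by positivity) ?_
    · refine h.2.trans ?_
      have h3 : (1 : ℝ) ≤ ((sd x y : ℝ) + 1) ^ 2 := by
        have : (0 : ℝ) ≤ sd x y := Nat.cast_nonneg _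
        nlinarith
      nlinarith only [mul_le_mul_of_nonneg_left h3 hC3, mul_nonneg (sq_nonneg C2) (zero_le_one.trans h3)]
    · calc ∫⁻ V, ENNReal.ofReal (DL Λ E V x y ^ 2) ∂(PP d (gl σ))
          ≤ ∫⁻ V, ((Dp (gr V Λ E x y)) ^ (2 : ℝ) + (Up (gr V Λ E x y)) ^ (2 : ℝ))
            ∂(PP d (gl σ)) := lintegral_mono fun V => ofReal_sq_le _
        _ = ∫⁻ V, (Dp (gr V Λ E x y)) ^ (2 : ℝ) ∂(PP d (gl σ)) +
            ∫⁻ V, (Up (gr V Λ E x y)) ^ (2 : ℝ) ∂(PP d (gl σ)) :=
            lintegral_add_left ((mD x y).pow_const _) _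
        _ ≤ ENNReal.ofReal (A * ((sd x y : ℝ) + 1) ^ 2) + ENNReal.ofReal C3 :=
            add_le_add (hDp x hx y hy) (hUp x y)
        _ = _ := by rw [← ENNReal.ofReal_add (by positivity) hC3]
  · intro x hx y hy
    have h := int_le (P := PP d (gl σ)) ((measurable_const.max (mDL x y).neg).pow_const 2)
      (f := fun V => (max 0 (-DL Λ E V x y)) ^ 2) (fun V => sq_nonneg _)
      (c := C3) hC3 ?_
    · refine h.2.trans ?_
      have := sq_nonneg C2
      linarith only [hA0, this]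
    · refine le_trans (lintegral_mono fun V => ?_) (hUp x y)
      unfold DL Up
      rw [neg_neg]
      rcases le_total 0 (Real.log |gr V Λ E x y|) with h0 | h0
      · rw [max_eq_right h0, ENNReal.ofReal_rpow_of_nonneg h0 (by norm_num), Real.rpow_two]
      · rw [max_eq_left h0]
        simp
  · intro x hx u hu y hy
    have h := int_le (P := PP d (gl σ))
      ((measurable_const.max (((mDL x y).sub (mDL x u)).sub (mDL u y))).pow_const 2)
      (f := fun V => (max 0 (DL Λ E V x y - DL Λ E V x u - DL Λ E V u y)) ^ 2)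
      (fun V => sq_nonneg _) (c := C2 ^ 2) (sq_nonneg _) ?_
    · refine h.2.trans ?_
      linarith only [hC3, hA0]
    · refine le_trans (lintegral_mono_ae ?_) (hRp x u y)
      filter_upwards [hne x hx u hu, hne u hu y hy, hne x hx y hy] with V ha hb hc
      have ha' : |gr V Λ E x u| ≠ 0 := abs_ne_zero.2 ha
      have hb' : |gr V Λ E u y| ≠ 0 := abs_ne_zero.2 hb
      have hc' : |gr V Λ E x y| ≠ 0 := abs_ne_zero.2 hc
      unfold DL Rp
      rw [if_neg hc]
      have e : -Real.log |gr V Λ E x y| - -Real.log |gr V Λ E x u| - -Real.log |gr V Λ E u y| =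
          Real.log (|gr V Λ E x u| * |gr V Λ E u y| / |gr V Λ E x y|) := by
        rw [Real.log_div (mul_ne_zero ha' hb') hc', Real.log_mul ha' hb']
        ring
      rw [e]
      set L := Real.log (|gr V Λ E x u| * |gr V Λ E u y| / |gr V Λ E x y|)
      rcases le_total 0 L with h0 | h0
      · rw [max_eq_right h0, ENNReal.ofReal_rpow_of_nonneg h0 (by norm_num), Real.rpow_two]
      · rw [max_eq_left h0]
        simp
  · intro x hx y hy
    have h := hne x hx y hy
    rw [ae_iff] at h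
    simpa using h

end Pool.Agent.LE.H54
end
end -- Pool.Agent.Helper54_LE.FMN

section -- Pool.Agent.Helper54_LEW.CPR

/-!
# CPR: the probability of conduction
-/

set_option autoImplicit false
set_option linter.unusedSectionVars false

open scoped Topology ENNReal
open MeasureTheory Filter ProbabilityTheory

noncomputable section

namespace Pool.Agent.LE.H54W

open Pool.Agent.Anderson Pool.Agent.Loc Pool.Agent.Mob Pool.Agent.Helper54.Bal Pool.Agent.LY
  Pool.Agent.LE.H54

variable {d : ℕ}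

/-- the tail of the standard normal law -/
theorem gauss_tail (w : ℝ) :
    (gaussianReal 0 1) {t : ℝ | w < |t|} ≤ ENNReal.ofReal (4 * Real.exp (-w)) := by
  have hm : ∀ t : ℝ, mgf id (gaussianReal 0 1) t = Real.exp (t ^ 2 / 2) := by
    intro t
    rw [mgf_id_gaussianReal]
    simp
  have h1 : (gaussianReal 0 1).real {t : ℝ | w ≤ id t} ≤ 2 * Real.exp (-w) := by
    have h2 := measure_ge_le_exp_mul_mgf (X := id) (μ := gaussianReal 0 1) w (zero_le_one' ℝ)
      (by simpa using integrable_exp_mul_gaussianReal (μ := 0) (v := 1) 1)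
    rw [hm] at h2
    refine h2.trans ?_
    have h3 : Real.exp (1 ^ 2 / 2 : ℝ) ≤ 2 := by
      have h4 : Real.exp (1 / 2 : ℝ) ^ 2 ≤ 2 ^ 2 := by
        rw [← Real.exp_nat_mul]
        have := Real.exp_one_lt_d9
        norm_num
        linarith only [this]
      have h5 := abs_le_of_sq_le_sq' h4 (by norm_num)
      norm_num
      simpa using h5.2
    have h6 : 0 < Real.exp (-w) := Real.exp_pos _
    calc Real.exp (-1 * w) * Real.exp (1 ^ 2 / 2) ≤ Real.exp (-1 * w) * 2 :=
          mul_le_mul_of_nonneg_left h3 (Real.exp_pos _).le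
      _ = 2 * Real.exp (-w) := by rw [neg_one_mul]; ring
  have h1' : (gaussianReal 0 1).real {t : ℝ | id t ≤ -w} ≤ 2 * Real.exp (-w) := by
    have h2 := measure_le_le_exp_mul_mgf (X := id) (μ := gaussianReal 0 1) (-w)
      (t := -1) (by norm_num)
      (by simpa using integrable_exp_mul_gaussianReal (μ := 0) (v := 1) (-1))
    rw [hm] at h2
    refine h2.trans ?_
    have h3 : Real.exp ((-1) ^ 2 / 2 : ℝ) ≤ 2 := by
      have h4 : Real.exp (1 / 2 : ℝ) ^ 2 ≤ 2 ^ 2 := by
        rw [← Real.exp_nat_mul]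
        have := Real.exp_one_lt_d9
        norm_num
        linarith only [this]
      have h5 := abs_le_of_sq_le_sq' h4 (by norm_num)
      norm_num
      simpa using h5.2
    calc Real.exp (-(-1) * -w) * Real.exp ((-1) ^ 2 / 2) ≤ Real.exp (-(-1) * -w) * 2 :=
          mul_le_mul_of_nonneg_left h3 (Real.exp_pos _).le
      _ = 2 * Real.exp (-w) := by rw [neg_neg, one_mul]; ring
  have hsub : {t : ℝ | w < |t|} ⊆ {t : ℝ | w ≤ id t} ∪ {t : ℝ | id t ≤ -w} := by
    intro t ht
    rw [Set.mem_ofPred_eq, lt_abs] at ht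
    rcases ht with h | h
    · exact Or.inl h.le
    · right
      rw [Set.mem_ofPred_eq, id]
      linarith
  refine (measure_mono hsub).trans ((measure_union_le _ _).trans ?_)
  rw [← ofReal_measureReal, ← ofReal_measureReal, ← ENNReal.ofReal_add measureReal_nonneg
    measureReal_nonneg]
  apply ENNReal.ofReal_le_ofReal
  linarith

/-- one site -/
theorem site_tail {σ : ℝ} (hσ : σ ≠ 0) (v : ℝ) (x : Site d) :
    PP d (gl σ) {V | v < |V x|} ≤ ENNReal.ofReal (4 * Real.exp (-(v / |σ|))) := by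
  have hs : 0 < |σ| := abs_pos.2 hσ
  have hmeas : MeasurableSet {t : ℝ | v < |t|} := measurableSet_lt measurable_const
    measurable_id.abs
  have h1 : PP d (gl σ) {V | v < |V x|} = gl σ {t : ℝ | v < |t|} := by
    have h2 : MeasurePreserving (fun V : Site d → ℝ => V x) (PP d (gl σ)) (gl σ) := by
      unfold PP
      exact measurePreserving_eval_infinitePi (fun _ : Site d => gl σ) x
    rw [← h2.measure_preimage hmeas.nullMeasurableSet]
    rfl
  rw [h1]
  unfold gl
  rw [Measure.map_apply (by fun_prop) hmeas]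
  have h3 : (fun t : ℝ => σ * t) ⁻¹' {t : ℝ | v < |t|} = {t : ℝ | v / |σ| < |t|} := by
    ext t
    simp only [Set.mem_preimage, Set.mem_ofPred_eq, abs_mul]
    rw [div_lt_iff₀ hs, mul_comm]
  rw [h3]
  exact gauss_tail _

theorem cpr (cdd : CddStmt) : CprStmt := by
  classical
  intro d s M N σ E v c hd hσ hE hv hsm hlog hbox
  have hν := bddDens_gl hσ
  set r : ℕ := 4 * (M * s) with hr
  set A : Set (Site d → ℝ) := {V | (RM V (box 0 N) E).det = 0} with hA
  set B : Set (Site d → ℝ) := ⋃ x ∈ box c r, {V | v < |V x|} with hB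
  have hsub : {V : Site d → ℝ | ¬ ∀ j : ℕ, 1 ≤ j → j ≤ M → ∃ y : Site d,
      (sd c y = 4 * j * s ∨ sd c y = 4 * j * s + 1) ∧ DL (box 0 N) E V c y ≤ s / 2} ⊆ A ∪ B := by
    intro V hV
    by_contra hcon
    rw [Set.mem_union, not_or] at hcon
    obtain ⟨h1, h2⟩ := hcon
    apply hV
    intro j hj hjM
    have hjr : 4 * j * s ≤ r := by
      rw [hr]
      calc 4 * j * s = 4 * (j * s) := by ring
        _ ≤ 4 * (M * s) := Nat.mul_le_mul_left _ (Nat.mul_le_mul_right _ hjM)
    have hVx : ∀ x ∈ box c r, |V x| ≤ v := by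
      intro x hx
      by_contra hc
      apply h2
      rw [hB]
      simp only [Set.mem_iUnion, exists_prop]
      exact ⟨x, hx, not_le.1 hc⟩
    have hjr' : (2 * ((4 * j * s : ℕ) : ℝ) + 3) ≤ 8 * (M * s) + 3 := by
      have : ((4 * j * s : ℕ) : ℝ) ≤ (r : ℝ) := by exact_mod_cast hjr
      have e : (r : ℝ) = 4 * (M * s) := by rw [hr]; push_cast; ring
      linarith only [this, e]
    have hpos : (1 : ℝ) ≤ 2 * ((4 * j * s : ℕ) : ℝ) + 3 := by
      have : (0 : ℝ) ≤ ((4 * j * s : ℕ) : ℝ) := Nat.cast_nonneg _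
      linarith only
    obtain ⟨y, hy, hy2⟩ := cdd d E v V (box 0 N) c (4 * j * s) hd hE hv
      (le_trans (mul_le_mul_of_nonneg_left (pow_le_pow_left₀ (by linarith only) hjr' _)
        (by positivity)) hsm)
      (fun x hx => hVx x (box_mono c hjr hx)) ((box_mono c (by omega)).trans hbox) h1
    refine ⟨y, hy, ?_⟩
    have hd0 : (1 : ℝ) ≤ d := by exact_mod_cast hd
    have h3 : (1 : ℝ) ≤ (16 * d * (8 * (M * s) + 3 : ℝ) ^ d) * |gr V (box 0 N) E c y| := by
      refine hy2.trans (mul_le_mul_of_nonneg_right ?_ (abs_nonneg _))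
      exact mul_le_mul_of_nonneg_left (pow_le_pow_left₀ (by linarith only) hjr' _) (by positivity)
    have hK : (0 : ℝ) < 16 * d * (8 * (M * s) + 3 : ℝ) ^ d := by positivity
    have hg : 0 < |gr V (box 0 N) E c y| := by
      by_contra hc
      have h0 : |gr V (box 0 N) E c y| = 0 := le_antisymm (not_lt.1 hc) (abs_nonneg _)
      rw [h0, mul_zero] at h3
      linarith only [h3]
    have h4 := Real.log_le_log one_pos h3
    rw [Real.log_one, Real.log_mul hK.ne' hg.ne'] at h4
    unfold DL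
    linarith only [hlog, h4]
  have p1 : PP d (gl σ) A = 0 := by
    have h1 : Pool.Agent.Mob.H75.Loc A (box 0 N) := by
      intro V V' h
      rw [hA, Set.mem_ofPred_eq, Set.mem_ofPred_eq, RM_congr h]
    exact le_antisymm ((Pool.Agent.Mob.H75.PP_le_PL h1).trans (PL_det hν _ _ le_rfl E).le) zero_le
  have p2 : PP d (gl σ) B ≤ ((box c r).card : ℝ≥0∞) *
      ENNReal.ofReal (4 * Real.exp (-(v / |σ|))) := by
    refine (measure_biUnion_finset_le _ _).trans ?_
    refine (Finset.sum_le_sum fun x _ => site_tail hσ v x).trans (le_of_eq ?_)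
    rw [Finset.sum_const, nsmul_eq_mul]
  refine (measure_mono hsub).trans ((measure_union_le _ _).trans ?_)
  rw [p1, zero_add]
  refine p2.trans ?_
  rw [card_box, ← ENNReal.ofReal_natCast, ← ENNReal.ofReal_mul (by positivity)]
  apply ENNReal.ofReal_le_ofReal
  apply mul_le_mul_of_nonneg_right _ (by positivity)
  push_cast
  apply pow_le_pow_left₀ (by positivity)
  have e : (r : ℝ) = 4 * (M * s) := by rw [hr]; push_cast; ring
  rw [e]
  linarith only

end Pool.Agent.LE.H54W
end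
end -- Pool.Agent.Helper54_LEW.CPR
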