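import Pool.Agent.Helper12_MEB.B053

/-!
# Merged copies (generated) of the modules

* `Pool.Agent.Helper54_LEW.VTR`
-/

set_option autoImplicit false

section -- Pool.Agent.Helper54_LEW.VTR

/-!
# VTR: the one site inequality for the maximum over a set
-/

set_option autoImplicit false
set_option linter.unusedSectionVars false

open scoped Topology ENNReal
open MeasureTheory Filter ProbabilityTheory

noncomputable section

namespace Pool.Agent.LE.H54W

open Pool.Agent.Anderson Pool.Agent.Loc Pool.Agent.Mob Pool.Agent.Helper54.Bal Pool.Agent.LY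
  Pool.Agent.LE.H54

variable {d : ℕ}

/-- the event at complex energies -/
def Ev (Λ : Finset (Site d)) (z : ℂ) (S : Finset Λ) (u y : Λ) (τ : ℝ) : Set (Site d → ℝ) :=
  {V | ∃ w ∈ S, ∀ x ∈ S, τ * ‖KB Λ z V x y‖ < ‖KB Λ z V w u‖ * ‖KB Λ z V u y‖}

theorem meas_Ev (Λ : Finset (Site d)) (z : ℂ) (S : Finset Λ) (u y : Λ) (τ : ℝ) :
    MeasurableSet (Ev Λ z S u y τ) := by
  have h : Ev Λ z S u y τ = ⋃ w ∈ S, ⋂ x ∈ S,
      {V | τ * ‖KB Λ z V x y‖ < ‖KB Λ z V w u‖ * ‖KB Λ z V u y‖} := by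
    ext V
    simp only [Ev, Set.mem_ofPred_eq, Set.mem_iUnion, Set.mem_iInter, exists_prop]
  rw [h]
  refine Finset.measurableSet_biUnion _ fun w _ => Finset.measurableSet_biInter _ fun x _ => ?_
  exact measurableSet_lt ((measurable_KB Λ z x y).norm.const_mul _)
    ((measurable_KB Λ z w u).norm.mul (measurable_KB Λ z u y).norm)

section prob

variable {ν : Measure ℝ} [IsProbabilityMeasure ν] {ρ : ℝ}

theorem ev_marg (hν : BddDens ν ρ) (Λ : Finset (Site d)) {z : ℂ} (hz : 0 < z.im) (S : Finset Λ)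
    (u y : Λ) {τ : ℝ} (hτ : 0 < τ) (V : Site d → ℝ) :
    (∫⋯∫⁻_{(u : Site d)}, ((Ev Λ z S u y τ).indicator 1) ∂(fun _ => ν)) V ≤
      ENNReal.ofReal (8 * ρ / τ) := by
  classical
  rcases S.eq_empty_or_nonempty with rfl | hne
  · have h : Ev Λ z ∅ u y τ = ∅ := by
      ext V
      simp [Ev]
    rw [h, lmarginal_singleton]
    simp
  have hf := fam_KB Λ hz
  set V' := Function.update V (u : Site d) 0 with hV'
  have hk := hf.ker V'
  have hupd : ∀ v : ℝ, KB Λ z (Function.update V (u : Site d) v) = upk u (v : ℂ) (KB Λ z V') := by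
    intro v
    have e := hf.upd V' u v
    rw [hV', Function.update_idem, Function.update_self, Complex.ofReal_zero, sub_zero] at e
    exact e
  set K := KB Λ z V' with hK
  obtain ⟨w₀, hw₀, hmax⟩ := S.exists_max_image (fun w => ‖K w u‖) hne
  refine le_trans ?_ (one_marg hν Λ hz u w₀ y hτ V)
  rw [lmarginal_singleton, lmarginal_singleton]
  refine lintegral_mono fun v => ?_
  by_cases hv : Function.update V (u : Site d) v ∈ Ev Λ z S u y τ
  · obtain ⟨w, hw, hx⟩ := hv
    have h1 := hx w₀ hw₀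
    rw [hupd] at h1
    have h2 : ‖upk u (v : ℂ) K w u‖ ≤ ‖upk u (v : ℂ) K w₀ u‖ := by
      have hD := hk.den_ne (w := (v : ℂ)) (by simp) u
      have e : ∀ x : Λ, upk u (v : ℂ) K x u = K x u / (1 + v * K u u) := by
        intro x
        unfold upk
        field_simp
        ring
      rw [e, e, norm_div, norm_div]
      exact div_le_div_of_nonneg_right (hmax w hw) (norm_nonneg _)
    have h3 : τ * ‖upk u (v : ℂ) K w₀ y‖ < ‖upk u (v : ℂ) K w₀ u‖ * ‖upk u (v : ℂ) K u y‖ :=
      h1.trans_le (mul_le_mul_of_nonneg_right h2 (norm_nonneg _))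
    have h4 : Function.update V (u : Site d) v ∈
        {V | τ * ‖KB Λ z V w₀ y‖ < ‖KB Λ z V w₀ u‖ * ‖KB Λ z V u y‖} := by
      rw [Set.mem_ofPred_eq, hupd]
      exact h3
    rw [Set.indicator_of_mem h4]
    exact Set.indicator_le_self' (fun _ _ => zero_le) _
  · rw [Set.indicator_of_notMem hv]
    exact zero_le

theorem vec (hν : BddDens ν ρ) (Λ : Finset (Site d)) (E : ℝ) (S : Finset Λ) (u y : Λ) {τ : ℝ}
    (hτ : 0 < τ) :
    PL ν Λ {V | ∃ w ∈ S, ∀ x ∈ S, τ * |gr V Λ E x y| < |gr V Λ E w u| * |gr V Λ E u y|} ≤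
      ENNReal.ofReal (8 * ρ / τ) := by
  classical
  set e : ℕ → ℝ := fun k => 1 / ((k : ℝ) + 1) with he
  have he0 : Tendsto e atTop (𝓝 0) := tendsto_one_div_add_atTop_nhds_zero_nat
  have hep : ∀ k, 0 < e k := fun k => by rw [he]; positivity
  set A : Set (Site d → ℝ) := {V | ∃ w ∈ S, ∀ x ∈ S, τ * |gr V Λ E x y| <
    |gr V Λ E w u| * |gr V Λ E u y|} with hA
  set T : ℕ → Set (Site d → ℝ) := fun k => Ev Λ (zz (e k) E) S u y τ with hT
  have hmA : MeasurableSet A := by
    have h : A = ⋃ w ∈ S, ⋂ x ∈ S,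
        {V | τ * |gr V Λ E x y| < |gr V Λ E w u| * |gr V Λ E u y|} := by
      ext V
      simp only [hA, Set.mem_ofPred_eq, Set.mem_iUnion, Set.mem_iInter, exists_prop]
    rw [h]
    refine Finset.measurableSet_biUnion _ fun w _ => Finset.measurableSet_biInter _ fun x _ => ?_
    exact measurableSet_lt ((measurable_gr Λ E x y).abs.const_mul _)
      ((measurable_gr Λ E w u).abs.mul (measurable_gr Λ E u y).abs)
  have hmT : ∀ k, MeasurableSet (T k) := fun k => meas_Ev _ _ _ _ _ _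
  have hae : ∀ᵐ V ∂(PL ν Λ), (RM V Λ E).det ≠ 0 := by
    rw [ae_iff]
    have : {V : Site d → ℝ | ¬ (RM V Λ E).det ≠ 0} = {V | (RM V Λ E).det = 0} := by
      ext; simp
    rw [this]
    exact PL_det hν Λ Λ le_rfl E
  rw [← lintegral_indicator_one hmA]
  calc ∫⁻ V, A.indicator 1 V ∂(PL ν Λ)
      ≤ ∫⁻ V, liminf (fun k => (T k).indicator 1 V) atTop ∂(PL ν Λ) := by
        refine lintegral_mono_ae ?_
        filter_upwards [hae] with V hV
        by_cases hVS : V ∈ A
        · have hn : ∀ r : ℝ, ‖(-(r : ℂ))‖ = |r| := fun r => by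
            rw [norm_neg, Complex.norm_real, Real.norm_eq_abs]
          obtain ⟨w, hw, hx⟩ := hVS
          have h4 : ∀ᶠ k in atTop, V ∈ T k := by
            have h5 : ∀ x ∈ S, ∀ᶠ k in atTop, τ * ‖KB Λ (zz (e k) E) V x y‖ <
                ‖KB Λ (zz (e k) E) V w u‖ * ‖KB Λ (zz (e k) E) V u y‖ := by
              intro x hxS
              have h1 := (tendsto_KB hV he0 x y).norm
              have h2 := (tendsto_KB hV he0 w u).norm
              have h3 := (tendsto_KB hV he0 u y).norm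
              rw [hn] at h1 h2 h3
              exact (h1.const_mul τ).eventually_lt (h2.mul h3) (hx x hxS)
            have h6 := (Finset.eventually_all S).2 h5
            filter_upwards [h6] with k hk
            exact ⟨w, hw, hk⟩
          rw [Set.indicator_of_mem (show V ∈ A from ⟨w, hw, hx⟩)]
          refine le_liminf_of_le (by isBoundedDefault) ?_
          filter_upwards [h4] with k hk
          rw [Set.indicator_of_mem hk]
        · rw [Set.indicator_of_notMem hVS]
          exact zero_le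
    _ ≤ liminf (fun k => ∫⁻ V, (T k).indicator 1 V ∂(PL ν Λ)) atTop :=
        lintegral_liminf_le fun k => measurable_one.indicator (hmT k)
    _ ≤ _ := by
        refine liminf_le_of_frequently_le' (Frequently.of_forall fun k => ?_)
        have hz : 0 < (zz (e k) E).im := by rw [zz_im]; exact hep k
        refine PL_le_of_marg (S := {(u : Site d)}) (by simp)
          (measurable_one.indicator (hmT k)) ?_
        intro V
        exact ev_marg hν Λ hz S u y hτ V

end prob

theorem gmax_nonneg (V : Site d → ℝ) (Λ : Finset (Site d)) (E : ℝ) (S : Finset (Site d))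
    (x : Site d) : 0 ≤ gmax V Λ E S x := NNReal.coe_nonneg _

theorem le_gmax (V : Site d → ℝ) (Λ : Finset (Site d)) (E : ℝ) {S : Finset (Site d)} {z : Site d}
    (hz : z ∈ S) (x : Site d) : |gr V Λ E z x| ≤ gmax V Λ E S x := by
  have h : ‖gr V Λ E z x‖₊ ≤ S.sup fun z => ‖gr V Λ E z x‖₊ :=
    Finset.le_sup (f := fun z => ‖gr V Λ E z x‖₊) hz
  have h2 : (‖gr V Λ E z x‖₊ : ℝ) ≤ ((S.sup fun z => ‖gr V Λ E z x‖₊ : NNReal) : ℝ) := by
    exact_mod_cast h
  exact h2

theorem exists_gmax (V : Site d → ℝ) (Λ : Finset (Site d)) (E : ℝ) {S : Finset (Site d)}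
    {x : Site d} (h : 0 < gmax V Λ E S x) : ∃ z ∈ S, gmax V Λ E S x = |gr V Λ E z x| := by
  have hne : S.Nonempty := by
    rw [Finset.nonempty_iff_ne_empty]
    rintro rfl
    simp [gmax] at h
  obtain ⟨z, hz, hz2⟩ := S.exists_max_image (fun z => ‖gr V Λ E z x‖₊) hne
  refine ⟨z, hz, le_antisymm ?_ (le_gmax V Λ E hz x)⟩
  have h1 : (S.sup fun z => ‖gr V Λ E z x‖₊) ≤ ‖gr V Λ E z x‖₊ := Finset.sup_le hz2
  have h2 : ((S.sup fun z => ‖gr V Λ E z x‖₊ : NNReal) : ℝ) ≤ (‖gr V Λ E z x‖₊ : ℝ) := by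
    exact_mod_cast h1
  exact h2

/-- VTR -/
theorem vtr : VtrStmt := by
  classical
  intro d σ E τ Λ S u y hσ hτ
  have hν := bddDens_gl hσ
  by_cases hmem : u ∈ Λ ∧ y ∈ Λ
  swap
  · have : {V : Site d → ℝ | τ * gmax V Λ E S y < gmax V Λ E S u * |gr V Λ E u y|} = ∅ := by
      ext V
      simp only [Set.mem_ofPred_eq, Set.mem_empty_iff_false, iff_false, not_lt]
      have h0 : gr V Λ E u y = 0 := by
        unfold gr
        rw [dif_neg hmem]
      rw [h0, abs_zero, mul_zero]
      exact mul_nonneg hτ.le (gmax_nonneg _ _ _ _ _)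
    rw [this, measure_empty]
    exact zero_le
  obtain ⟨hu, hy⟩ := hmem
  set S' : Finset Λ := Finset.univ.filter fun z : Λ => (z : Site d) ∈ S with hS'
  set A : Set (Site d → ℝ) := {V | ∃ w ∈ S', ∀ x ∈ S', τ * |gr V Λ E x y| <
    |gr V Λ E w u| * |gr V Λ E u y|} with hA
  have hsub : {V : Site d → ℝ | τ * gmax V Λ E S y < gmax V Λ E S u * |gr V Λ E u y|} ⊆ A := by
    intro V hV
    rw [Set.mem_ofPred_eq] at hV
    have hpos : 0 < gmax V Λ E S u := by
      by_contra hcon
      have h1 : gmax V Λ E S u = 0 := le_antisymm (not_lt.1 hcon) (gmax_nonneg _ _ _ _ _)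
      rw [h1, zero_mul] at hV
      exact absurd hV (not_lt.2 (mul_nonneg hτ.le (gmax_nonneg _ _ _ _ _)))
    obtain ⟨w, hw, hw2⟩ := exists_gmax V Λ E hpos
    have hwΛ : w ∈ Λ := by
      by_contra hcon
      have h0 : gr V Λ E w u = 0 := by
        unfold gr
        rw [dif_neg fun h => hcon h.1]
      rw [h0, abs_zero] at hw2
      linarith
    refine ⟨⟨w, hwΛ⟩, by simp [hS', hw], fun x hx => ?_⟩
    have hxS : (x : Site d) ∈ S := (Finset.mem_filter.1 hx).2
    calc τ * |gr V Λ E x y| ≤ τ * gmax V Λ E S y :=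
          mul_le_mul_of_nonneg_left (le_gmax V Λ E hxS y) hτ.le
      _ < gmax V Λ E S u * |gr V Λ E u y| := hV
      _ = _ := by rw [hw2]
  have hloc : Pool.Agent.Mob.H75.Loc A Λ := by
    intro V V' h
    simp only [hA, Set.mem_ofPred_eq, gr_congr h]
  refine (measure_mono hsub).trans ((Pool.Agent.Mob.H75.PP_le_PL hloc).trans ?_)
  refine (vec hν Λ E S' ⟨u, hu⟩ ⟨y, hy⟩ hτ).trans (le_of_eq ?_)
  congr 1
  ring

end Pool.Agent.LE.H54W
end
end -- Pool.Agent.Helper54_LEW.VTR
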