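import Pool.Agent.Helper12_MEB.B014
import Pool.Agent.Helper12_MEB.B036
import Pool.Agent.Helper12_MEB.B053

/-!
# Merged copies (generated) of the modules

* `Pool.Agent.Helper54_LEW.CPF`
* `Pool.Agent.Helper28_LEW.SGE`
* `Pool.Agent.Helper60_LSH.SGX`
-/

set_option autoImplicit false

section -- Pool.Agent.Helper54_LEW.CPF

/-!
# CPF: the probability of conduction near the band edge
-/

set_option autoImplicit false
set_option linter.unusedSectionVars false

open scoped Topology ENNReal NNReal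
open MeasureTheory Filter ProbabilityTheory

noncomputable section

namespace Pool.Agent.LE.H54W

open Pool.Agent.Anderson Pool.Agent.Loc Pool.Agent.Mob Pool.Agent.Helper54.Bal Pool.Agent.LY
  Pool.Agent.LE.H54 Pool.Agent.BED

variable {d : ℕ}

/-- the potential about `c`, divided by `σ` -/
def xi (σ : ℝ) (c : Site d) (y : Site d) (V : Site d → ℝ) : ℝ := V (c + y) / σ

theorem measurable_xi (σ : ℝ) (c y : Site d) : Measurable (xi σ c y) := by
  have h : Measurable fun V : Site d → ℝ => V (c + y) := measurable_pi_apply (c + y)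
  exact h.div_const σ

theorem map_xi {σ : ℝ} (hσ : σ ≠ 0) (c y : Site d) :
    (PP d (gl σ)).map (xi σ c y) = gaussianReal 0 1 := by
  have h2 : MeasurePreserving (fun V : Site d → ℝ => V (c + y)) (PP d (gl σ)) (gl σ) := by
    unfold PP
    exact measurePreserving_eval_infinitePi (fun _ : Site d => gl σ) (c + y)
  have h3 : xi σ c y = (fun t : ℝ => t / σ) ∘ fun V : Site d → ℝ => V (c + y) := rfl
  rw [h3, ← Measure.map_map (by fun_prop) h2.measurable, h2.map_eq]
  unfold gl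
  rw [Measure.map_map (by fun_prop) (by fun_prop)]
  have h4 : ((fun t : ℝ => t / σ) ∘ fun t : ℝ => σ * t) = id := by
    funext t
    simp only [Function.comp, id]
    field_simp
  rw [h4, Measure.map_id]

theorem indep_xi {σ : ℝ} (c : Site d) : iIndepFun (xi σ c) (PP d (gl σ)) := by
  have h1 : iIndepFun (fun (x : Site d) (V : Site d → ℝ) => V x) (PP d (gl σ)) := by
    unfold PP
    exact iIndepFun_infinitePi (X := fun _ r => r) (fun _ => measurable_id)
  have h2 := h1.precomp (g := fun y : Site d => c + y) (add_right_injective c)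
  exact h2.comp (fun _ t => t / σ) (fun _ => by fun_prop)

/-- the conduction estimate for a given energy `z` with a flat landscape function -/
theorem cpf_core (cdf : CdfStmt) (hd : 3 ≤ d) {Cs : ℝ} (hCs : 1 ≤ Cs)
    (hsum : ∀ (M : ℕ) [NeZero M] (z t a : ℝ) (V : Tor d M → ℝ), 3 ≤ M → 1 ≤ t → t ≤ M →
      z ≤ 2 * d + 1 → (∀ x, -1 ≤ V x) → (AM z V).PosDef → 1 / 2 ≤ a → a ≤ 15 * t →
      (∀ x, a ≤ DD z V x) → (∀ x, DD z V x ≤ 3 / 2 * a) →
      ∀ x, ∑ y, (GM z V x y) ^ 2 ≤ Cs * growth d t ∧ GM z V x x ≤ Cs)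
    {M' : ℕ} [NeZero M'] {σ t p z μ : ℝ} {v : ℝ≥0} (hσ : σ ≠ 0) (hM' : 3 ≤ M') (ht : 1 ≤ t)
    (htM : t ≤ M') (hv : (v : ℝ) = σ ^ 2) (hμ1 : 10 * t ≤ μ) (hμ2 : μ ≤ 12 * t)
    (hz : z ≤ 2 * d + 1) (hprob : gau d M' v {V | ¬ Flat z μ V} ≤ ENNReal.ofReal p)
    (s M N : ℕ) (E lam : ℝ) (c : Site d) (hE : |E - z| ≤ lam)
    (h1 : 16 * Cs * lam * (8 * (M * s) + 3 : ℝ) ^ d ≤ 1)
    (h2 : 16 * Cs * (8 * (M * s) + 3 : ℝ) ^ d ≤ t) (h3 : 8 * (M * s) + 5 ≤ M')
    (hlog : Real.log (16 * d * (8 * (M * s) + 3 : ℝ) ^ d) ≤ s / 2)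
    (hbox : box c (4 * (M * s) + 2) ⊆ box 0 N) :
    PP d (gl σ) {V | ¬ ∀ j : ℕ, 1 ≤ j → j ≤ M → ∃ y : Site d,
      (sd c y = 4 * j * s ∨ sd c y = 4 * j * s + 1) ∧ DL (box 0 N) E V c y ≤ s / 2} ≤
        ENNReal.ofReal p := by
  classical
  have hlam : 0 ≤ lam := (abs_nonneg _).trans hE
  have hμ0 : 0 < μ := by linarith only [ht, hμ1]
  have hν := bddDens_gl hσ
  set f : (Site d → ℝ) → (Tor d M' → ℝ) := fun V x => V (c + rep x) with hf
  set A : Set (Site d → ℝ) := {V | (RM V (box 0 N) E).det = 0} with hA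
  set B : Set (Site d → ℝ) := f ⁻¹' {U | ¬ Flat z μ U} with hB
  have pB : PP d (gl σ) B ≤ ENNReal.ofReal p := by
    have hfm : Measurable f := measurable_pi_lambda _ fun x => measurable_pi_apply _
    refine (Measure.le_map_apply hfm.aemeasurable _).trans ?_
    have h4 := H73.lawT d M' (Site d → ℝ) (PP d (gl σ)) (xi σ c) (measurable_xi σ c)
      (map_xi hσ c) (indep_xi c) σ v hv
    have h5 : (fun (V : Site d → ℝ) (x : Tor d M') => σ * xi σ c (rep x) V) = f := by
      funext V x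
      simp only [xi, hf]
      field_simp
    rw [h5] at h4
    rw [h4]
    exact hprob
  have pA : PP d (gl σ) A = 0 := by
    have h1 : Pool.Agent.Mob.H75.Loc A (box 0 N) := by
      intro V V' h
      rw [hA, Set.mem_ofPred_eq, Set.mem_ofPred_eq, RM_congr h]
    exact le_antisymm ((Pool.Agent.Mob.H75.PP_le_PL h1).trans (PL_det hν _ _ le_rfl E).le) zero_le
  have hsub : {V : Site d → ℝ | ¬ ∀ j : ℕ, 1 ≤ j → j ≤ M → ∃ y : Site d,
      (sd c y = 4 * j * s ∨ sd c y = 4 * j * s + 1) ∧ DL (box 0 N) E V c y ≤ s / 2} ⊆ A ∪ B := by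
    intro V hV
    by_contra hcon
    rw [Set.mem_union, not_or] at hcon
    obtain ⟨g1, g2⟩ := hcon
    rw [hB, Set.mem_preimage, Set.mem_ofPred_eq, not_not] at g2
    apply hV
    intro j hj hjM
    have hjr : 4 * j * s ≤ 4 * (M * s) := by
      calc 4 * j * s = 4 * (j * s) := by ring
        _ ≤ 4 * (M * s) := Nat.mul_le_mul_left _ (Nat.mul_le_mul_right _ hjM)
    have hr0 : (0 : ℝ) ≤ ((4 * j * s : ℕ) : ℝ) := Nat.cast_nonneg _
    have hjr' : (2 * ((4 * j * s : ℕ) : ℝ) + 3) ≤ 8 * (M * s) + 3 := by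
      have : ((4 * j * s : ℕ) : ℝ) ≤ ((4 * (M * s) : ℕ) : ℝ) := by exact_mod_cast hjr
      push_cast at this ⊢
      linarith only [this]
    have hjr1 : (2 * ((4 * j * s : ℕ) : ℝ) + 1) ^ d ≤ (8 * (M * s) + 3 : ℝ) ^ d :=
      pow_le_pow_left₀ (by linarith only) (by linarith only [hjr']) d
    have hCs0 : 0 < Cs := by linarith only [hCs]
    have hdiag : ∀ x, GM z (fun x : Tor d M' => V (c + rep x)) x x ≤ Cs := by
      intro x
      refine (hsum M' z t (49 / 50 * μ) (fun x : Tor d M' => V (c + rep x)) hM' ht htM hz g2.1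
        g2.2.1 (by linarith only [ht, hμ1]) (by linarith only [ht, hμ2]) (fun x => ?_) (fun x => ?_) x).2
      · have := (abs_le.1 (g2.2.2 x)).1
        linarith
      · have := (abs_le.1 (g2.2.2 x)).2
        linarith
    obtain ⟨y, hy, hy2⟩ := cdf d M' z μ E Cs lam V (box 0 N) c (4 * j * s) (by omega)
      (by omega) hz hμ0 hCs0 g2 hdiag hE
      (by
        refine le_trans ?_ h1
        exact mul_le_mul_of_nonneg_left hjr1 (by positivity))
      (by
        have h5 : 4 * Cs * (2 * ((4 * j * s : ℕ) : ℝ) + 1) ^ d ≤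
            16 * Cs * (8 * (M * s) + 3 : ℝ) ^ d :=
          mul_le_mul (by linarith only [hCs]) hjr1 (by positivity) (by positivity)
        linarith only [ht, hμ1, h2, h5])
      ((box_mono c (by omega)).trans hbox) g1
    refine ⟨y, hy, ?_⟩
    have hd0 : (1 : ℝ) ≤ d := by exact_mod_cast (by omega : 1 ≤ d)
    have h4 : (1 : ℝ) ≤ (16 * d * (8 * (M * s) + 3 : ℝ) ^ d) * |gr V (box 0 N) E c y| := by
      refine hy2.trans (mul_le_mul_of_nonneg_right ?_ (abs_nonneg _))
      exact mul_le_mul_of_nonneg_left (pow_le_pow_left₀ (by linarith only) hjr' _) (by positivity)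
    have hK : (0 : ℝ) < 16 * d * (8 * (M * s) + 3 : ℝ) ^ d := by positivity
    have hg : 0 < |gr V (box 0 N) E c y| := by
      by_contra hc
      have h0 : |gr V (box 0 N) E c y| = 0 := le_antisymm (not_lt.1 hc) (abs_nonneg _)
      rw [h0, mul_zero] at h4
      linarith only [h4]
    have h6 := Real.log_le_log one_pos h4
    rw [Real.log_one, Real.log_mul hK.ne' hg.ne'] at h6
    unfold DL
    linarith only [hlog, h6]
  refine (measure_mono hsub).trans ((measure_union_le _ _).trans ?_)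
  rw [pA, zero_add]
  exact pB

theorem cpf (cdf : CdfStmt) : CpfStmt := by
  classical
  intro d hd
  obtain ⟨c0, C0, hc0, hC0, hflat⟩ := flatAll d hd
  obtain ⟨Cs, hCs, hsum⟩ := sumAll d hd
  refine ⟨c0, C0, 16 * Cs, hc0, hC0, by linarith only [hCs], ?_⟩
  intro M' σ t p hσ hσ1 hM' ht htM hp hp2
  have hs : 0 < |σ| := abs_pos.2 hσ
  have : NeZero M' := ⟨by omega⟩
  set σ' : ℝ≥0 := ⟨|σ|, hs.le⟩ with hσ'
  have hσ'r : (σ' : ℝ) = |σ| := rfl
  have hσ'0 : 0 < σ' := by
    rw [← NNReal.coe_pos, hσ'r]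
    exact hs
  have hσ'1 : σ' ≤ 1 := by
    rw [← NNReal.coe_le_coe, hσ'r]
    simpa using hσ1
  obtain ⟨z, μ, hμ1, hμ2, hz, hz2, hprob⟩ := hflat M' t σ' p hM' ht htM hσ'0 hσ'1
    (by rw [hσ'r, sq_abs]; exact hp) hp2
  rw [hσ'r, sq_abs] at hz2
  refine ⟨z, hz2, ?_⟩
  intro s M N E lam c hE h1 h2 h3 hlog hbox
  exact cpf_core cdf hd hCs hsum hσ hM' ht htM (by push_cast; rw [hσ'r, sq_abs]) hμ1 hμ2 hz
    hprob s M N E lam c hE h1 h2 h3 hlog hbox

end Pool.Agent.LE.H54W
end
end -- Pool.Agent.Helper54_LEW.CPF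

section -- Pool.Agent.Helper28_LEW.SGE

/-! SGE: above the edge all the sites are good. -/

set_option autoImplicit false
set_option linter.unusedSectionVars false

open scoped Topology ENNReal NNReal
open MeasureTheory Filter ProbabilityTheory

noncomputable section

namespace Pool.Agent.LE.H28W

open Matrix Pool.Agent.Anderson Pool.Agent.Loc Pool.Agent.Mob Pool.Agent.Helper54.Bal Pool.Agent.BED
  Pool.Agent.LE

variable {d M : ℕ}

theorem qform_flat [NeZero M] {z μ : ℝ} {W : Site d → ℝ} (Λ : Finset (Site d))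
    (hΛ : ∀ y ∈ Λ, ∀ i, 2 * (|y i| + 1) < (M : ℤ))
    (hF : Flat z μ (fun x : Tor d M => W (rep x))) (u : Site d → ℝ) : 0 ≤ qform W Λ z u := by
  classical
  set F : Site d → ℝ := fun y => if y ∈ Λ then u y else 0 with hFdef
  have hF0 : ∀ y, y ∉ Λ → F y = 0 := fun y hy => by rw [hFdef]; simp only [if_neg hy]
  have hF1 : ∀ y ∈ Λ, F y = u y := fun y hy => by rw [hFdef]; simp only [if_pos hy]
  have hq := H73.quad_torus (M := M) z W Λ hΛ F hF0
  have h1 : ∑ y ∈ Λ, F y * ((z - W y) * F y - ∑ w ∈ Λ, hop y w * F w) = qform W Λ z u := by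
    rw [qform_eq]
    unfold hf
    rw [Finset.mul_sum, ← Finset.sum_sub_distrib, ← Finset.sum_sub_distrib]
    refine Finset.sum_congr rfl fun y hy => ?_
    rw [hF1 y hy]
    have h2 : ∑ w ∈ Λ, hop y w * F w = ∑ w ∈ Λ, hop y w * u w :=
      Finset.sum_congr rfl fun w hw => by rw [hF1 w hw]
    rw [h2]
    have h3 : ∑ w ∈ Λ, u y * hop y w * u w = u y * ∑ w ∈ Λ, hop y w * u w := by
      rw [Finset.mul_sum]
      exact Finset.sum_congr rfl fun w _ => by ring
    rw [h3]
    ring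
  rw [← h1, ← hq]
  by_cases hne : (fun x : Tor d M => F (rep x)) = 0
  · refine le_of_eq ?_
    symm
    refine Finset.sum_eq_zero fun x _ => ?_
    have := congrFun hne x
    simp only [Pi.zero_apply] at this
    rw [this, zero_mul]
  · exact (pos_of_posDef hF.2.1 hne).le

theorem det_of_form {V : Site d → ℝ} {Λ : Finset (Site d)} {E g : ℝ} (hg : 0 < g)
    (h : ∀ u : Site d → ℝ, g * ∑ y ∈ Λ, u y ^ 2 ≤ qform V Λ E u) : (RM V Λ E).det ≠ 0 := by
  intro hd
  obtain ⟨v, hv, hv0⟩ := Matrix.exists_mulVec_eq_zero_iff.2 hd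
  apply hv
  set u : Site d → ℝ := fun z => if hz : z ∈ Λ then v ⟨z, hz⟩ else 0 with hu
  have huv : (fun z : Λ => u z) = v := by
    funext z
    simp [hu]
  have h1 := h u
  rw [qform_eq_dot, huv, hv0, dotProduct_zero] at h1
  have h2 : ∑ z ∈ Λ, u z ^ 2 ≤ 0 := by
    by_contra hcon
    push Not at hcon
    have := mul_pos hg hcon
    linarith
  have h3 : ∑ z ∈ Λ, u z ^ 2 = 0 := le_antisymm h2 (Finset.sum_nonneg fun z _ => sq_nonneg _)
  rw [Finset.sum_eq_zero_iff_of_nonneg fun z _ => sq_nonneg _] at h3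
  funext z
  have h4 := h3 z z.2
  rw [← huv]
  exact pow_eq_zero_iff (two_ne_zero) |>.1 h4

theorem sge : SgeStmt := by
  intro d M' L _ v σ z μ E δ p hd hσ hv hμ hz hprob hδ hδ1 hE hL hM hlog
  classical
  set f : (Site d → ℝ) → (Tor d M' → ℝ) := fun V x => V (0 + rep x) with hf
  set B : Set (Site d → ℝ) := f ⁻¹' {U | ¬ Flat z μ U} with hB
  have pB : PP d (gl σ) B ≤ ENNReal.ofReal p := by
    have hfm : Measurable f := measurable_pi_lambda _ fun x => measurable_pi_apply _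
    refine (Measure.le_map_apply hfm.aemeasurable _).trans ?_
    have h4 := H73.lawT d M' (Site d → ℝ) (PP d (gl σ)) (H54W.xi σ 0) (H54W.measurable_xi σ 0)
      (H54W.map_xi hσ 0) (H54W.indep_xi 0) σ v hv
    have h5 : (fun (V : Site d → ℝ) (x : Tor d M') => σ * H54W.xi σ 0 (rep x) V) = f := by
      funext V x
      simp only [H54W.xi, hf]
      field_simp
    rw [h5] at h4
    rw [h4]
    exact hprob
  refine (measure_mono ?_).trans pB
  intro V hV
  by_contra hcon
  rw [hB, Set.mem_preimage, Set.mem_ofPred_eq, not_not] at hcon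
  apply hV
  have hflat : Flat z μ (fun x : Tor d M' => V (rep x)) := by
    have e : f V = fun x : Tor d M' => V (rep x) := by
      funext x
      simp only [hf, zero_add]
    rw [← e]
    exact hcon
  have hd0 : (1 : ℝ) ≤ d := by exact_mod_cast hd
  have hsδ : 0 < Real.sqrt δ := Real.sqrt_pos.2 hδ
  have hsδ2 : Real.sqrt δ ^ 2 = δ := Real.sq_sqrt hδ.le
  have hsδ1 : Real.sqrt δ ≤ 1 := by
    rw [Real.sqrt_le_one]
    exact hδ1
  intro s hs
  rw [mem_box] at hs
  have hs' := sd_le_iff.1 hs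
  have hΛ : ∀ y ∈ box s L, ∀ i, 2 * (|y i| + 1) < (M' : ℤ) := by
    intro y hy i
    rw [mem_box] at hy
    have h1 := sd_le_iff.1 hy i
    have h2 := hs' i
    have h3 : |y i| ≤ |s i - y i| + |s i| := by
      calc |y i| = |s i - (s i - y i)| := by ring_nf
        _ ≤ |s i| + |s i - y i| := abs_sub _ _
        _ = _ := by ring
    have h4 : |s i| ≤ L := by
      have : |(0 : Site d) i - s i| = |s i| := by
        rw [Pi.zero_apply, zero_sub, abs_neg]
      rw [← this]
      exact h2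
    have h5 : (8 * (L : ℤ) + 3) ≤ M' := by exact_mod_cast hM
    linarith only [hL, hM, h1, h3, h4]
  have hform : ∀ u : Site d → ℝ, δ * ∑ y ∈ box s L, u y ^ 2 ≤ qform V (box s L) E u := by
    intro u
    have h1 := qform_flat (box s L) hΛ hflat u
    rw [qform_eq] at h1 ⊢
    have h2 : (z + δ) * ∑ y ∈ box s L, u y ^ 2 ≤ E * ∑ y ∈ box s L, u y ^ 2 :=
      mul_le_mul_of_nonneg_right hE (Finset.sum_nonneg fun y _ => sq_nonneg _)
    linarith only [h1, h2]
  have h1 := det_of_form hδ hform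
  have hLB : LB V (box s L) E 1 δ := by
    intro u
    rw [one_mul]
    exact hform u
  have h2 := fun x y => H3Y.combes_thomas_sqrt hd hδ hδ1 abs_one hLB x y
  refine ⟨h1, fun u hu => (h2 s u).trans ?_⟩
  rw [hu]
  have hL0 : (0 : ℝ) < L := by exact_mod_cast hL
  -- (2/δ) exp(-√δ L/(2d)) ≤ exp(-√δ L/(8d))
  have h3 : Real.log (8 / δ) ≤ Real.sqrt δ / (8 * d) * L := by
    rw [div_mul_eq_mul_div, le_div_iff₀ (by positivity)]
    linarith only [hlog]
  have h4 : 8 / δ ≤ Real.exp (Real.sqrt δ / (8 * d) * L) := by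
    rw [← Real.log_le_iff_le_exp (by positivity)]
    exact h3
  have h5 : 2 / δ ≤ 8 / δ := by
    apply div_le_div_of_nonneg_right (by norm_num) hδ.le
  calc 2 / δ * Real.exp (-(Real.sqrt δ / (2 * d)) * L)
      ≤ Real.exp (Real.sqrt δ / (8 * d) * L) * Real.exp (-(Real.sqrt δ / (2 * d)) * L) := by
        gcongr
        exact h5.trans h4
    _ = Real.exp (Real.sqrt δ / (8 * d) * L + -(Real.sqrt δ / (2 * d)) * L) := by
        rw [Real.exp_add]
    _ ≤ Real.exp (-(Real.sqrt δ / (8 * d)) * L) := by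
        apply Real.exp_le_exp.2
        have h6 : Real.sqrt δ / (2 * d) = 4 * (Real.sqrt δ / (8 * d)) := by
          field_simp
          ring
        rw [h6]
        have h7 : 0 ≤ Real.sqrt δ / (8 * d) * L := by positivity
        linarith only [h7]

end Pool.Agent.LE.H28W
end
end -- Pool.Agent.Helper28_LEW.SGE

section -- Pool.Agent.Helper60_LSH.SGX

/-! SGX: above the edge all the sites are good, with the sharp rate. -/

set_option autoImplicit false
set_option linter.unusedSectionVars false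

open scoped Topology ENNReal NNReal
open MeasureTheory Filter ProbabilityTheory

noncomputable section

namespace Pool.Agent.LE.H60Z

open Matrix Pool.Agent.Anderson Pool.Agent.Loc Pool.Agent.Mob Pool.Agent.Helper54.Bal Pool.Agent.BED
  Pool.Agent.LE

theorem cosh_bound {κ : ℝ} (h0 : κ ^ 2 ≤ 1) : 2 * (Real.cosh κ - 1) ≤ κ ^ 2 * (1 + κ ^ 2 / 2) := by
  have h1 := Real.cosh_le_exp_half_sq κ
  have h2 : |κ ^ 2 / 2| ≤ 1 := by
    rw [abs_of_nonneg (by positivity)]
    linarith only [h0]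
  have h3 := Real.abs_exp_sub_one_sub_id_le h2
  have h4 := (abs_le.1 h3).2
  nlinarith only [sq_nonneg κ, h1, h4]

theorem sgx (cts : CtsStmt) : SgxStmt := by
  intro d M' L _ v σ z μ E δ ε p hd hσ hv hμ hz hprob hε hε2 hδ hδε hE hL hM hlog
  classical
  set f : (Site d → ℝ) → (Tor d M' → ℝ) := fun V x => V (0 + rep x) with hf
  set B : Set (Site d → ℝ) := f ⁻¹' {U | ¬ Flat z μ U} with hB
  have pB : PP d (gl σ) B ≤ ENNReal.ofReal p := by
    have hfm : Measurable f := measurable_pi_lambda _ fun x => measurable_pi_apply _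
    refine (Measure.le_map_apply hfm.aemeasurable _).trans ?_
    have h4 := H73.lawT d M' (Site d → ℝ) (PP d (gl σ)) (H54W.xi σ 0) (H54W.measurable_xi σ 0)
      (H54W.map_xi hσ 0) (H54W.indep_xi 0) σ v hv
    have h5 : (fun (V : Site d → ℝ) (x : Tor d M') => σ * H54W.xi σ 0 (rep x) V) = f := by
      funext V x
      simp only [H54W.xi, hf]
      field_simp
    rw [h5] at h4
    rw [h4]
    exact hprob
  refine (measure_mono ?_).trans pB
  intro V hV
  by_contra hcon
  rw [hB, Set.mem_preimage, Set.mem_ofPred_eq, not_not] at hcon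
  apply hV
  have hflat : Flat z μ (fun x : Tor d M' => V (rep x)) := by
    have e : f V = fun x : Tor d M' => V (rep x) := by
      funext x
      simp only [hf, zero_add]
    rw [← e]
    exact hcon
  have hsδ : 0 < Real.sqrt δ := Real.sqrt_pos.2 hδ
  have hsδ2 : Real.sqrt δ ^ 2 = δ := Real.sq_sqrt hδ.le
  intro s hs
  rw [mem_box] at hs
  have hs' := sd_le_iff.1 hs
  have hΛ : ∀ y ∈ box s L, ∀ i, 2 * (|y i| + 1) < (M' : ℤ) := by
    intro y hy i
    rw [mem_box] at hy
    have h1 := sd_le_iff.1 hy i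
    have h2 := hs' i
    have h3 : |y i| ≤ |s i - y i| + |s i| := by
      calc |y i| = |s i - (s i - y i)| := by ring_nf
        _ ≤ |s i| + |s i - y i| := abs_sub _ _
        _ = _ := by ring
    have h4 : |s i| ≤ L := by
      have : |(0 : Site d) i - s i| = |s i| := by
        rw [Pi.zero_apply, zero_sub, abs_neg]
      rw [← this]
      exact h2
    have h5 : (8 * (L : ℤ) + 3) ≤ M' := by exact_mod_cast hM
    linarith only [hL, hM, h1, h3, h4]
  have hform : ∀ u : Site d → ℝ, δ * ∑ y ∈ box s L, u y ^ 2 ≤ qform V (box s L) E u := by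
    intro u
    have h1 := H28W.qform_flat (box s L) hΛ hflat u
    rw [qform_eq] at h1 ⊢
    have h2 : (z + δ) * ∑ y ∈ box s L, u y ^ 2 ≤ E * ∑ y ∈ box s L, u y ^ 2 :=
      mul_le_mul_of_nonneg_right hE (Finset.sum_nonneg fun y _ => sq_nonneg _)
    linarith only [h1, h2]
  set κ : ℝ := (1 - ε) * Real.sqrt δ with hκ
  have hκ0 : 0 ≤ κ := mul_nonneg (by linarith only [hε, hε2]) hsδ.le
  have hκ2 : κ ^ 2 = (1 - ε) ^ 2 * δ := by
    rw [hκ, mul_pow, hsδ2]
  have hκle : κ ^ 2 ≤ ε := by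
    rw [hκ2]
    have h1 : (1 - ε) ^ 2 ≤ 1 := by nlinarith only [hε, hε2]
    have h2 : (1 - ε) ^ 2 * δ ≤ 1 * δ := mul_le_mul_of_nonneg_right h1 hδ.le
    linarith only [hδε, h2]
  have hcond : 2 * (Real.cosh κ - 1) + ε * δ ≤ δ := by
    have h1 := cosh_bound (κ := κ) (by linarith only [hε, hε2, hκle])
    have h2 : κ ^ 2 * (1 + κ ^ 2 / 2) ≤ (1 - ε) ^ 2 * δ * (1 + ε / 2) := by
      rw [← hκ2]
      apply mul_le_mul_of_nonneg_left _ (sq_nonneg _)
      linarith only [hκle]
    have h3 : (1 - ε) ^ 2 * δ * (1 + ε / 2) ≤ (1 - ε) * δ := by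
      have h4 : (1 - ε) ^ 2 * (1 + ε / 2) ≤ 1 - ε := by nlinarith only [sq_nonneg ε, hε, hε2]
      calc (1 - ε) ^ 2 * δ * (1 + ε / 2) = (1 - ε) ^ 2 * (1 + ε / 2) * δ := by ring
        _ ≤ _ := mul_le_mul_of_nonneg_right h4 hδ.le
    linarith only [h1, h2, h3]
  obtain ⟨h1, h2⟩ := cts d V (box s L) E δ κ (ε * δ) hd (by positivity) hκ0 hcond hform
  refine ⟨h1, fun u hu => (h2 s u).trans ?_⟩
  rw [hu]
  have h4 : 2 / (ε * δ) ≤ Real.exp (ε * Real.sqrt δ * L) := by
    rw [← Real.log_le_iff_le_exp (by positivity)]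
    exact hlog
  have h5 : 1 / (ε * δ) ≤ 2 / (ε * δ) :=
    div_le_div_of_nonneg_right (by norm_num) (by positivity)
  calc 1 / (ε * δ) * Real.exp (-κ * L)
      ≤ Real.exp (ε * Real.sqrt δ * L) * Real.exp (-κ * L) := by
        apply mul_le_mul_of_nonneg_right (h5.trans h4) (Real.exp_pos _).le
    _ = Real.exp (-((1 - 2 * ε) * Real.sqrt δ) * L) := by
        rw [← Real.exp_add]
        congr 1
        rw [hκ]
        ring

end Pool.Agent.LE.H60Z
end
end -- Pool.Agent.Helper60_LSH.SGX
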