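import Pool.Agent.Helper12_MEB.B039
import Pool.Agent.Helper12_MEB.B055

/-!
# Merged copies (generated) of the modules

* `Pool.Agent.Helper60_LSH.CDE`
* `Pool.Agent.LE.StmtsQ`
-/

set_option autoImplicit false

section -- Pool.Agent.Helper60_LSH.CDE

/-! CDE: lower bound for the Green function of a cube above the edge. -/

set_option autoImplicit false
set_option linter.unusedSectionVars false

open scoped Topology ENNReal NNReal
open MeasureTheory Filter ProbabilityTheory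

noncomputable section

namespace Pool.Agent.LE.H60Z

open Matrix Pool.Agent.Anderson Pool.Agent.Loc Pool.Agent.Mob Pool.Agent.Helper54.Bal Pool.Agent.BED
  Pool.Agent.LE

namespace Cde

variable {d M : ℕ}

/-- the class of a site in the torus -/
def cst (d M : ℕ) (y : Site d) : Tor d M := fun i => ((y i : ℤ) : ZMod M)

theorem cst_add (y : Site d) (i : Fin d) : cst d M (y + Pi.single i 1) = cst d M y + ev i := by
  funext j
  unfold cst ev
  rw [Pi.add_apply, Pi.add_apply]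
  by_cases h : j = i
  · subst h
    simp
  · rw [Pi.single_eq_of_ne h, Pi.single_eq_of_ne h]
    simp

theorem cst_sub (y : Site d) (i : Fin d) : cst d M (y - Pi.single i 1) = cst d M y - ev i := by
  funext j
  unfold cst ev
  rw [Pi.sub_apply, Pi.sub_apply]
  by_cases h : j = i
  · subst h
    simp
  · rw [Pi.single_eq_of_ne h, Pi.single_eq_of_ne h]
    simp

theorem rm_diag (W : Site d → ℝ) (Λ : Finset (Site d)) (E : ℝ) :
    RM W Λ E = Matrix.diagonal (fun x : Λ => E - W x) - Matrix.of (fun x y : Λ => hop (x : Site d) (y : Site d)) := by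
  ext x y
  rw [RM_apply, Matrix.sub_apply, Matrix.of_apply, rm]
  by_cases h : x = y
  · subst h
    simp
  · have h' : (x : Site d) ≠ y := fun h' => h (Subtype.ext h')
    rw [Matrix.diagonal_apply_ne _ h, if_neg h']

theorem posDef_of_form {W : Site d → ℝ} {Λ : Finset (Site d)} {E g : ℝ} (hg : 0 < g)
    (h : ∀ u : Site d → ℝ, g * ∑ y ∈ Λ, u y ^ 2 ≤ qform W Λ E u) : (RM W Λ E).PosDef := by
  classical
  refine posDef_of_real (fun x y => ?_) fun f hf => ?_
  · have h1 := congrFun (congrFun (RM_symm W Λ E) y) x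
    rw [Matrix.transpose_apply] at h1
    exact h1
  · set u : Site d → ℝ := fun z => if hz : z ∈ Λ then f ⟨z, hz⟩ else 0 with hu
    have huv : (fun z : Λ => u z) = f := by
      funext z
      simp [hu]
    have h1 := h u
    rw [qform_eq_dot, huv] at h1
    have h2 : 0 < ∑ y ∈ Λ, u y ^ 2 := by
      obtain ⟨x, hx⟩ := Function.ne_iff.1 hf
      refine Finset.sum_pos' (fun y _ => sq_nonneg _) ⟨x, x.2, ?_⟩
      have h3 : u x = f x := congrFun huv x
      rw [h3]
      have : f x ≠ 0 := hx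
      positivity
    have h4 := mul_pos hg h2
    exact h4.trans_le h1

/-- the facts about the Green function used below -/
theorem green {W : Site d → ℝ} {m : ℕ} {E g : ℝ} (hg : 0 < g)
    (h : ∀ u : Site d → ℝ, g * ∑ y ∈ box (0 : Site d) m, u y ^ 2 ≤ qform W (box 0 m) E u) :
    (∀ x, 0 ≤ gr W (box 0 m) E 0 x) ∧
    (∀ x ∈ box (0 : Site d) m, (E - W x) * gr W (box 0 m) E 0 x - ∑ i : Fin d,
      (gr W (box 0 m) E 0 (x + Pi.single i 1) + gr W (box 0 m) E 0 (x - Pi.single i 1)) =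
        if x = 0 then 1 else 0) := by
  classical
  set Λ := box (0 : Site d) m with hΛ
  have h0Λ : (0 : Site d) ∈ Λ := by
    rw [hΛ, mem_box, sd_self]
    exact Nat.zero_le _
  have hdet : (RM W Λ E).det ≠ 0 := H28W.det_of_form hg h
  have hout : ∀ y, y ∉ Λ → gr W Λ E 0 y = 0 := by
    intro y hy
    unfold gr
    rw [dif_neg fun hh => hy hh.2]
  have heq : ∀ x ∈ Λ, (E - W x) * gr W Λ E 0 x - ∑ i : Fin d,
      (gr W Λ E 0 (x + Pi.single i 1) + gr W Λ E 0 (x - Pi.single i 1)) =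
        if x = 0 then 1 else 0 := by
    intro x hx
    have h1 := rm_mul_gr hdet hx h0Λ
    rw [H73.sum_nb Λ (fun y => gr W Λ E 0 y) hout x, ← h1]
    have h2 : ∀ y ∈ Λ, rm W E x y * gr W Λ E y 0 =
        (if x = y then (E - W x) * gr W Λ E 0 y else 0) - hop x y * gr W Λ E 0 y := by
      intro y _
      rw [gr_symm W Λ E y 0, rm, sub_mul]
      congr 1
      split_ifs <;> ring
    rw [Finset.sum_congr rfl h2, Finset.sum_sub_distrib, Finset.sum_ite_eq, if_pos hx]
  refine ⟨?_, heq⟩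
  intro x
  by_cases hx : x ∈ Λ
  · have hP := posDef_of_form hg h
    rw [rm_diag] at hP
    have h3 := nonneg_of_mulVec (W := Matrix.of (fun x y : Λ => hop (x : Site d) (y : Site d)))
      (fun x y => hop_nonneg _ _) (v := fun x : Λ => gr W Λ E 0 x) hP ?_
    · exact h3 ⟨x, hx⟩
    · intro y
      rw [diag_sub_mulVec]
      have h4 := heq y y.2
      rw [H73.sum_nb Λ (fun y => gr W Λ E 0 y) hout y, ← Finset.sum_coe_sort Λ] at h4
      simp only [Matrix.of_apply]
      rw [h4]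
      split_ifs <;> norm_num
  · rw [hout x hx]

theorem green_pos {W : Site d → ℝ} {m : ℕ} {E g : ℝ} (hg : 0 < g)
    (h : ∀ u : Site d → ℝ, g * ∑ y ∈ box (0 : Site d) m, u y ^ 2 ≤ qform W (box 0 m) E u) :
    ∀ x ∈ box (0 : Site d) m, 0 < gr W (box 0 m) E 0 x := by
  obtain ⟨hnn, heq⟩ := green hg h
  have key : ∀ N : ℕ, ∀ x ∈ box (0 : Site d) m, ∑ i, (x i).natAbs = N →
      0 < gr W (box 0 m) E 0 x := by
    intro N
    induction N with
    | zero =>
      intro x hx hN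
      have hx0 : x = 0 := by
        funext i
        have h1 := (Finset.sum_eq_zero_iff.1 hN) i (Finset.mem_univ i)
        exact Int.natAbs_eq_zero.1 h1
      subst hx0
      refine lt_of_le_of_ne (hnn 0) fun hz => ?_
      have h1 := heq 0 hx
      rw [← hz, if_pos rfl] at h1
      have h2 : 0 ≤ ∑ i : Fin d, (gr W (box 0 m) E 0 ((0 : Site d) + Pi.single i 1) +
          gr W (box 0 m) E 0 ((0 : Site d) - Pi.single i 1)) :=
        Finset.sum_nonneg fun i _ => add_nonneg (hnn _) (hnn _)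
      linarith only [h1, h2]
    | succ N ih =>
      intro x hx hN
      have hex : ∃ i, x i ≠ 0 := by
        by_contra hcon
        push Not at hcon
        have : ∑ i, (x i).natAbs = 0 := Finset.sum_eq_zero fun i _ => by rw [hcon i]; rfl
        omega
      obtain ⟨i, hi⟩ := hex
      refine lt_of_le_of_ne (hnn x) fun hz => ?_
      have h1 := heq x hx
      rw [← hz, mul_zero] at h1
      have h3 : ∀ i : Fin d, 0 ≤ gr W (box 0 m) E 0 (x + Pi.single i 1) +
          gr W (box 0 m) E 0 (x - Pi.single i 1) := fun i => add_nonneg (hnn _) (hnn _)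
      have h4 : 0 < gr W (box 0 m) E 0 (x + Pi.single i 1) +
          gr W (box 0 m) E 0 (x - Pi.single i 1) := by
        have hxb : ∀ j, |x j| ≤ m := by
          intro j
          have h5 := sd_le_iff.1 (mem_box.1 hx) j
          rw [Pi.zero_apply, zero_sub, abs_neg] at h5
          exact h5
        rcases lt_or_gt_of_ne hi with hneg | hpos
        · have h5 : 0 < gr W (box 0 m) E 0 (x + Pi.single i 1) := by
            apply ih
            · rw [mem_box, sd_le_iff]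
              intro j
              rw [Pi.zero_apply, zero_sub, abs_neg, Pi.add_apply]
              by_cases hj : j = i
              · subst hj
                rw [Pi.single_eq_same]
                have h6 := hxb j
                rw [abs_le] at h6 ⊢
                omega
              · rw [Pi.single_eq_of_ne hj, add_zero]
                exact hxb j
            · have h6 : ∑ j, ((x + Pi.single i 1 : Site d) j).natAbs + 1 = ∑ j, (x j).natAbs := by
                rw [← Finset.add_sum_erase _ _ (Finset.mem_univ i),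
                  ← Finset.add_sum_erase _ _ (Finset.mem_univ i)]
                have h7 : ∑ j ∈ Finset.univ.erase i, ((x + Pi.single i 1 : Site d) j).natAbs =
                    ∑ j ∈ Finset.univ.erase i, (x j).natAbs := by
                  refine Finset.sum_congr rfl fun j hj => ?_
                  rw [Pi.add_apply, Pi.single_eq_of_ne (Finset.ne_of_mem_erase hj), add_zero]
                rw [h7, Pi.add_apply, Pi.single_eq_same]
                omega
              omega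
          exact add_pos_of_pos_of_nonneg h5 (hnn _)
        · have h5 : 0 < gr W (box 0 m) E 0 (x - Pi.single i 1) := by
            apply ih
            · rw [mem_box, sd_le_iff]
              intro j
              rw [Pi.zero_apply, zero_sub, abs_neg, Pi.sub_apply]
              by_cases hj : j = i
              · subst hj
                rw [Pi.single_eq_same]
                have h6 := hxb j
                rw [abs_le] at h6 ⊢
                omega
              · rw [Pi.single_eq_of_ne hj, sub_zero]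
                exact hxb j
            · have h6 : ∑ j, ((x - Pi.single i 1 : Site d) j).natAbs + 1 = ∑ j, (x j).natAbs := by
                rw [← Finset.add_sum_erase _ _ (Finset.mem_univ i),
                  ← Finset.add_sum_erase _ _ (Finset.mem_univ i)]
                have h7 : ∑ j ∈ Finset.univ.erase i, ((x - Pi.single i 1 : Site d) j).natAbs =
                    ∑ j ∈ Finset.univ.erase i, (x j).natAbs := by
                  refine Finset.sum_congr rfl fun j hj => ?_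
                  rw [Pi.sub_apply, Pi.single_eq_of_ne (Finset.ne_of_mem_erase hj), sub_zero]
                rw [h7, Pi.sub_apply, Pi.single_eq_same]
                omega
              omega
          exact add_pos_of_nonneg_of_pos (hnn _) h5
      have h5 : 0 < ∑ i : Fin d, (gr W (box 0 m) E 0 (x + Pi.single i 1) +
          gr W (box 0 m) E 0 (x - Pi.single i 1)) :=
        Finset.sum_pos' (fun i _ => h3 i) ⟨i, Finset.mem_univ i, h4⟩
      have h6 : (0 : ℝ) ≤ if x = 0 then 1 else 0 := by split_ifs <;> norm_num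
      linarith only [h1, h5, h6]
  exact fun x hx => key _ x hx rfl

/-- the landscape function seen on the lattice -/
theorem landscape [NeZero M] {ε z μ : ℝ} {W : Site d → ℝ} (hμ : 0 < μ)
    (hF : FlatE ε z μ (fun x : Tor d M => W (rep x))) :
    ∃ ω : Site d → ℝ, (∀ y, |ω y - 1| ≤ ε) ∧ ∀ y : Site d, (∀ i, 2 * |y i| < M) →
      (z - W y) * ω y - ∑ i : Fin d, (ω (y + Pi.single i 1) + ω (y - Pi.single i 1)) = 1 / μ := by
  refine ⟨fun y => DD z (fun x : Tor d M => W (rep x)) (cst d M y) / μ, fun y => ?_, fun y hy => ?_⟩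
  · have h1 := hF.2.2 (cst d M y)
    have h2 : DD z (fun x : Tor d M => W (rep x)) (cst d M y) / μ - 1 =
        (DD z (fun x : Tor d M => W (rep x)) (cst d M y) - μ) / μ := by
      field_simp
    simp only
    rw [h2, abs_div, abs_of_pos hμ, div_le_iff₀ hμ]
    exact h1
  · have h1 := congrFun (AM_DD hF.2.1) (cst d M y)
    rw [AM_mulVec] at h1
    simp only [cst_add, cst_sub]
    have h2 : rep (cst d M y) = y := H73.rep_coe y hy
    rw [h2] at h1
    have h3 : ∑ i : Fin d, (DD z (fun x : Tor d M => W (rep x)) (cst d M y + ev i) / μ +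
        DD z (fun x : Tor d M => W (rep x)) (cst d M y - ev i) / μ) =
        (∑ i : Fin d, (DD z (fun x : Tor d M => W (rep x)) (cst d M y + ev i) +
          DD z (fun x : Tor d M => W (rep x)) (cst d M y - ev i))) / μ := by
      rw [Finset.sum_div]
      refine Finset.sum_congr rfl fun i _ => ?_
      rw [add_div]
    rw [h3, ← mul_div_assoc, ← sub_div, h1]
    rfl

/-- the case `b = 0` -/
theorem core (lcs : LcsStmt) : ∀ d : ℕ, 1 ≤ d → ∃ C₁ : ℝ, 1 ≤ C₁ ∧ ∀ ε : ℝ, 0 < ε → ε ≤ 1 / 50 →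
    ∃ C₂ : ℝ, 1 ≤ C₂ ∧
    ∀ (M : ℕ) [NeZero M] (z μ lam : ℝ) (W : Site d → ℝ) (n R : ℕ) (i : Fin d),
    z ≤ 2 * d + 1 → 0 < lam → lam ≤ 1 / 2 → 0 < μ → 1 ≤ ε * lam * μ → 2 * (n + R) + 5 ≤ M →
    FlatE ε z μ (fun x : Tor d M => W (rep x)) → C₂ / Real.sqrt lam ≤ R →
      Real.exp (-((1 + C₁ * ε) * Real.sqrt lam * n + C₂ * (1 + Real.log (1 / lam)))) ≤
        gr W (box 0 (n + R)) (z + lam) 0 (Pi.single i (n : ℤ)) := by
  intro d hd
  obtain ⟨C₁, hC₁, H⟩ := lcs d hd
  refine ⟨5 * C₁, by linarith only [hC₁], fun ε hε hε2 => ?_⟩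
  obtain ⟨C₂, hC₂, H⟩ := H ε hε (by linarith only [hε, hε2])
  have hd0 : (1 : ℝ) ≤ d := by exact_mod_cast hd
  have hlogd : 0 ≤ Real.log (4 * d + 6) := Real.log_nonneg (by linarith only [hε, hε2, hd0])
  refine ⟨C₂ + 1 + Real.log (4 * d + 6), by linarith only [hε, hε2, hC₂, hlogd], ?_⟩
  intro M _ z μ lam W n R i hz hlam hlam2 hμ hμ2 hM hF hR
  classical
  have hsl : 0 < Real.sqrt lam := Real.sqrt_pos.2 hlam
  have hsl2 : Real.sqrt lam ^ 2 = lam := Real.sq_sqrt hlam.le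
  have hsl1 : Real.sqrt lam ≤ 1 := by
    rw [Real.sqrt_le_one]
    linarith only [hε, hε2, hlam2]
  -- R ≥ 1
  rw [div_le_iff₀ hsl] at hR
  have hR1 : 1 ≤ R := by
    rcases Nat.eq_zero_or_pos R with h | h
    · rw [h] at hR
      norm_num at hR
      linarith only [hε, hε2, hC₂, hlogd, hR]
    · exact h
  have hMz : (2 * ((n : ℤ) + R) + 5) ≤ M := by exact_mod_cast hM
  have hbox : ∀ y ∈ box (0 : Site d) (n + R), ∀ i, 2 * (|y i| + 1) < (M : ℤ) := by
    intro y hy j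
    have h1 := sd_le_iff.1 (mem_box.1 hy) j
    rw [Pi.zero_apply, zero_sub, abs_neg] at h1
    push_cast at h1
    linarith only [hM, h1]
  have hFlat : Flat z μ (fun x : Tor d M => W (rep x)) := by
    refine ⟨hF.1, hF.2.1, fun x => (hF.2.2 x).trans ?_⟩
    have : ε * μ ≤ 1 / 50 * μ := mul_le_mul_of_nonneg_right hε2 hμ.le
    linarith only [this]
  have hform : ∀ u : Site d → ℝ, lam * ∑ y ∈ box (0 : Site d) (n + R), u y ^ 2 ≤
      qform W (box 0 (n + R)) (z + lam) u := by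
    intro u
    have h1 := H28W.qform_flat (box 0 (n + R)) hbox hFlat u
    rw [qform_eq] at h1 ⊢
    rw [add_mul]
    linarith only [h1]
  obtain ⟨hnn, heq⟩ := green hlam hform
  have hpos := green_pos hlam hform
  obtain ⟨ω, hω, hωeq⟩ := landscape (M := M) hμ hF
  have hω0 : ∀ y, 0 < ω y := by
    intro y
    have h1 := (abs_le.1 (hω y)).1
    linarith only [hε, hε2, h1]
  have hω1 : ∀ y, ω y ≤ 1 + ε := by
    intro y
    have h1 := (abs_le.1 (hω y)).2
    linarith only [h1]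
  set u : Site d → ℝ := fun y => gr W (box 0 (n + R)) (z + lam) 0 y with hu
  set h : Site d → ℝ := fun y => Real.log (u y / ω y) with hh
  set k : ℝ := (1 + 4 * ε) * lam with hk
  have hk0 : 0 < k := by positivity
  have hk1 : k ≤ 1 := by
    rw [hk]
    nlinarith only [hε, hε2, hlam2]
  have hklam : lam ≤ k := by
    rw [hk]
    nlinarith only [hε, hlam]
  have hsk : Real.sqrt lam ≤ Real.sqrt k := Real.sqrt_le_sqrt hklam
  have hμi : 1 / μ ≤ ε * lam := by
    rw [div_le_iff₀ hμ]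
    exact hμ2
  have hLS : LS ω h ε k 0 (n + (R - 1)) := by
    refine ⟨fun x _ => hω x, fun x hx => ?_⟩
    have hxb : ∀ j, |x j| ≤ (n : ℤ) + R - 1 := by
      intro j
      have h5 := sd_le_iff.1 (mem_box.1 hx) j
      rw [Pi.zero_apply, zero_sub, abs_neg] at h5
      have h6 : ((n + (R - 1) : ℕ) : ℤ) = (n : ℤ) + R - 1 := by
        rw [Nat.cast_add, Nat.cast_sub hR1]
        push_cast
        ring
      rw [h6] at h5
      exact h5
    have hxB : x ∈ box (0 : Site d) (n + R) := by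
      rw [mem_box, sd_le_iff]
      intro j
      have := hxb j
      rw [Pi.zero_apply, zero_sub, abs_neg]
      push_cast
      linarith only [this]
    have hxadd : ∀ j : Fin d, x + Pi.single j 1 ∈ box (0 : Site d) (n + R) := by
      intro j
      rw [mem_box, sd_le_iff]
      intro l
      have h7 := hxb l
      rw [Pi.zero_apply, zero_sub, abs_neg, Pi.add_apply]
      push_cast
      by_cases hl : l = j
      · subst hl
        rw [Pi.single_eq_same]
        rw [abs_le] at h7 ⊢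
        omega
      · rw [Pi.single_eq_of_ne hl, add_zero]
        linarith only [h7]
    have hxsub : ∀ j : Fin d, x - Pi.single j 1 ∈ box (0 : Site d) (n + R) := by
      intro j
      rw [mem_box, sd_le_iff]
      intro l
      have h7 := hxb l
      rw [Pi.zero_apply, zero_sub, abs_neg, Pi.sub_apply]
      push_cast
      by_cases hl : l = j
      · subst hl
        rw [Pi.single_eq_same]
        rw [abs_le] at h7 ⊢
        omega
      · rw [Pi.single_eq_of_ne hl, sub_zero]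
        linarith only [h7]
    have hux : 0 < u x := hpos x hxB
    have hωx := hω0 x
    have hexp : ∀ y ∈ box (0 : Site d) (n + R),
        ω y * (Real.exp (h y - h x) - 1) = ω x / u x * u y - ω y := by
      intro y hy
      have huy : 0 < u y := hpos y hy
      have hωy := hω0 y
      rw [Real.exp_sub, hh]
      simp only
      rw [Real.exp_log (div_pos huy hωy), Real.exp_log (div_pos hux hωx)]
      field_simp
    have h1 : ∑ j : Fin d, (ω (x + Pi.single j 1) * (Real.exp (h (x + Pi.single j 1) - h x) - 1) +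
        ω (x - Pi.single j 1) * (Real.exp (h (x - Pi.single j 1) - h x) - 1)) =
        ω x / u x * ∑ j : Fin d, (u (x + Pi.single j 1) + u (x - Pi.single j 1)) -
          ∑ j : Fin d, (ω (x + Pi.single j 1) + ω (x - Pi.single j 1)) := by
      rw [Finset.mul_sum, ← Finset.sum_sub_distrib]
      refine Finset.sum_congr rfl fun j _ => ?_
      rw [hexp _ (hxadd j), hexp _ (hxsub j)]
      ring
    rw [h1]
    have h2 := heq x hxB
    have h3 := hωeq x (fun j => by
      have := hbox x hxB j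
      linarith only [this])
    have h4 : ∑ j : Fin d, (u (x + Pi.single j 1) + u (x - Pi.single j 1)) ≤
        (z + lam - W x) * u x := by
      have h6 : (0 : ℝ) ≤ if x = 0 then 1 else 0 := by split_ifs <;> norm_num
      rw [← h2] at h6
      linarith only [h6]
    have h5 : ω x / u x * ∑ j : Fin d, (u (x + Pi.single j 1) + u (x - Pi.single j 1)) ≤
        (z + lam - W x) * ω x := by
      calc ω x / u x * ∑ j : Fin d, (u (x + Pi.single j 1) + u (x - Pi.single j 1))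
          ≤ ω x / u x * ((z + lam - W x) * u x) :=
            mul_le_mul_of_nonneg_left h4 (div_pos hωx hux).le
        _ = _ := by field_simp
    have h6 : ω x / u x * ∑ j : Fin d, (u (x + Pi.single j 1) + u (x - Pi.single j 1)) -
          ∑ j : Fin d, (ω (x + Pi.single j 1) + ω (x - Pi.single j 1)) ≤
        lam * ω x + 1 / μ := by
      have e : (z + lam - W x) * ω x = (z - W x) * ω x + lam * ω x := by ring
      rw [e] at h5
      linarith only [h3, h5]
    have h7 : lam * ω x + 1 / μ ≤ lam * (1 + ε) + ε * lam :=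
      add_le_add (mul_le_mul_of_nonneg_left (hω1 x) hlam.le) hμi
    calc ω x * (ω x / u x * ∑ j : Fin d, (u (x + Pi.single j 1) + u (x - Pi.single j 1)) -
          ∑ j : Fin d, (ω (x + Pi.single j 1) + ω (x - Pi.single j 1)))
        ≤ ω x * (lam * (1 + ε) + ε * lam) := mul_le_mul_of_nonneg_left (h6.trans h7) hωx.le
      _ ≤ (1 + ε) * (lam * (1 + ε) + ε * lam) :=
          mul_le_mul_of_nonneg_right (hω1 x) (by positivity)
      _ = lam * (1 + 3 * ε + 2 * ε ^ 2) := by ring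
      _ ≤ lam * (1 + 4 * ε) := by
          apply mul_le_mul_of_nonneg_left _ hlam.le
          nlinarith only [hε, hε2]
      _ = k := by rw [hk]; ring
  have hRk : C₂ / Real.sqrt k ≤ ((R - 1 : ℕ) : ℝ) := by
    rw [Nat.cast_sub hR1, Nat.cast_one]
    have h1 : C₂ / Real.sqrt k ≤ C₂ / Real.sqrt lam :=
      div_le_div_of_nonneg_left (by linarith only [hε, hε2, hC₂]) hsl hsk
    refine h1.trans ?_
    rw [div_le_iff₀ hsl]
    have h2 : (R - 1 : ℝ) * Real.sqrt lam = R * Real.sqrt lam - Real.sqrt lam := by ring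
    rw [h2]
    linarith only [hlogd, hR, hsl1]
  have hmain := H ω h k 0 n (R - 1) i hk0 hk1 hRk hLS
  rw [zero_add] at hmain
  -- the endpoint
  set y : Site d := Pi.single i (n : ℤ) with hy
  have hyB : y ∈ box (0 : Site d) (n + R) := by
    rw [mem_box, sd_le_iff]
    intro j
    rw [Pi.zero_apply, zero_sub, abs_neg, hy]
    push_cast
    by_cases hj : j = i
    · subst hj
      rw [Pi.single_eq_same, abs_of_nonneg (by positivity)]
      linarith only [Int.natCast_nonneg R, hR1]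
    · rw [Pi.single_eq_of_ne hj, abs_zero]
      positivity
  have h0B : (0 : Site d) ∈ box (0 : Site d) (n + R) := by
    rw [mem_box, sd_self]
    exact Nat.zero_le _
  have huy : 0 < u y := hpos y hyB
  have hu0 : 0 < u 0 := hpos 0 h0B
  have hW0 : -1 ≤ W 0 := by
    have h1 := hF.1 (cst d M 0)
    have h2 : rep (cst d M (0 : Site d)) = 0 := H73.rep_coe (0 : Site d) (fun j => by
      rw [Pi.zero_apply, abs_zero, mul_zero]
      have : (0 : ℤ) ≤ n := Int.natCast_nonneg n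
      have : (0 : ℤ) ≤ R := Int.natCast_nonneg R
      linarith only [hM, hR1])
    change -1 ≤ W (rep (cst d M 0)) at h1
    rw [h2] at h1
    exact h1
  have hu0' : 1 / (2 * d + 3) ≤ u 0 := by
    have h1 := heq 0 h0B
    rw [if_pos rfl] at h1
    have h2 : 0 ≤ ∑ j : Fin d, (gr W (box 0 (n + R)) (z + lam) 0 ((0 : Site d) + Pi.single j 1) +
        gr W (box 0 (n + R)) (z + lam) 0 ((0 : Site d) - Pi.single j 1)) :=
      Finset.sum_nonneg fun j _ => add_nonneg (hnn _) (hnn _)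
    have h3 : 1 ≤ (z + lam - W 0) * u 0 := by
      rw [hu]
      simp only
      linarith only [h1, h2]
    have h4 : (z + lam - W 0) * u 0 ≤ (2 * d + 3) * u 0 :=
      mul_le_mul_of_nonneg_right (by linarith only [hε, hε2, hz, hlam2, hW0]) hu0.le
    rw [div_le_iff₀ (by positivity)]
    linarith only [h1, h2, h4]
  have hhy : u y = ω y * Real.exp (h y) := by
    rw [hh]
    simp only
    rw [Real.exp_log (div_pos huy (hω0 y))]
    have := (hω0 y).ne'
    field_simp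
  have hh0 : u 0 = ω 0 * Real.exp (h 0) := by
    rw [hh]
    simp only
    rw [Real.exp_log (div_pos hu0 (hω0 0))]
    have := (hω0 0).ne'
    field_simp
  have hskle : Real.sqrt k ≤ (1 + 2 * ε) * Real.sqrt lam := by
    apply Real.sqrt_le_iff.2
    refine ⟨by positivity, ?_⟩
    rw [mul_pow, hsl2, hk]
    apply mul_le_mul_of_nonneg_right _ hlam.le
    nlinarith only [hε]
  have hlogk : Real.log (1 / k) ≤ Real.log (1 / lam) := by
    apply Real.log_le_log (by positivity)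
    exact one_div_le_one_div_of_le hlam hklam
  have hloglam : 0 ≤ Real.log (1 / lam) := by
    apply Real.log_nonneg
    rw [le_div_iff₀ hlam]
    linarith only [hε, hε2, hlam2]
  have hb1 : (1 + C₁ * ε) * Real.sqrt k * n ≤ (1 + 5 * C₁ * ε) * Real.sqrt lam * n := by
    apply mul_le_mul_of_nonneg_right _ (Nat.cast_nonneg n)
    calc (1 + C₁ * ε) * Real.sqrt k ≤ (1 + C₁ * ε) * ((1 + 2 * ε) * Real.sqrt lam) :=
          mul_le_mul_of_nonneg_left hskle (by positivity)
      _ = ((1 + C₁ * ε) * (1 + 2 * ε)) * Real.sqrt lam := by ring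
      _ ≤ (1 + 5 * C₁ * ε) * Real.sqrt lam := by
          apply mul_le_mul_of_nonneg_right _ hsl.le
          have h8 : 0 ≤ C₁ * ε := by positivity
          have h9 : ε ≤ C₁ * ε := by nlinarith only [hC₁, hε]
          have h10 : C₁ * ε * ε ≤ C₁ * ε * 1 := mul_le_mul_of_nonneg_left (by linarith only [hε, hε2]) h8
          nlinarith only [h9, h10]
  have hb2 : C₂ * (1 + Real.log (1 / k)) + Real.log (4 * d + 6) ≤
      (C₂ + 1 + Real.log (4 * d + 6)) * (1 + Real.log (1 / lam)) := by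
    have h8 : C₂ * (1 + Real.log (1 / k)) ≤ C₂ * (1 + Real.log (1 / lam)) :=
      mul_le_mul_of_nonneg_left (by linarith only [hlogk]) (by linarith only [hε, hε2, hC₂])
    have h9 : 0 ≤ Real.log (4 * d + 6) * Real.log (1 / lam) := mul_nonneg hlogd hloglam
    have h10 : (C₂ + 1 + Real.log (4 * d + 6)) * (1 + Real.log (1 / lam)) =
        C₂ * (1 + Real.log (1 / lam)) + Real.log (4 * d + 6) + (1 + Real.log (1 / lam)) +
          Real.log (4 * d + 6) * Real.log (1 / lam) := by ring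
    rw [h10]
    linarith only [hε, hε2, hloglam, h8, h9]
  have hhy0 : h 0 - ((1 + C₁ * ε) * Real.sqrt k * n + C₂ * (1 + Real.log (1 / k))) ≤ h y := by
    have h8 := (abs_le.1 hmain).1
    linarith only [h8]
  have hstart : Real.exp (-Real.log (4 * d + 6)) ≤ ω y * Real.exp (h 0) := by
    rw [Real.exp_neg, Real.exp_log (by positivity)]
    have h8 : 1 / (2 * d + 3) ≤ ω 0 * Real.exp (h 0) := by
      rw [← hh0]
      exact hu0'
    have h9 : ω 0 ≤ 2 * ω y := by
      have h10 := hω1 0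
      have h11 := (abs_le.1 (hω y)).1
      linarith only [hε, hε2, h10, h11]
    have h10 : ω 0 * Real.exp (h 0) ≤ 2 * ω y * Real.exp (h 0) :=
      mul_le_mul_of_nonneg_right h9 (Real.exp_pos _).le
    have h11 : ((4 : ℝ) * d + 6)⁻¹ = 1 / (2 * d + 3) / 2 := by
      rw [div_div, one_div]
      congr 1
      ring
    rw [h11]
    linarith only [hu0', hh0, h10]
  change _ ≤ u y
  rw [hhy]
  calc Real.exp (-((1 + 5 * C₁ * ε) * Real.sqrt lam * n +
        (C₂ + 1 + Real.log (4 * d + 6)) * (1 + Real.log (1 / lam))))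
      ≤ Real.exp (-Real.log (4 * d + 6) +
          -((1 + C₁ * ε) * Real.sqrt k * n + C₂ * (1 + Real.log (1 / k)))) := by
        apply Real.exp_le_exp.2
        linarith only [hb1, hb2]
    _ = Real.exp (-Real.log (4 * d + 6)) *
          Real.exp (-((1 + C₁ * ε) * Real.sqrt k * n + C₂ * (1 + Real.log (1 / k)))) :=
        Real.exp_add _ _
    _ ≤ ω y * Real.exp (h 0) *
          Real.exp (-((1 + C₁ * ε) * Real.sqrt k * n + C₂ * (1 + Real.log (1 / k)))) :=
        mul_le_mul_of_nonneg_right hstart (Real.exp_pos _).le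
    _ = ω y * Real.exp (h 0 - ((1 + C₁ * ε) * Real.sqrt k * n + C₂ * (1 + Real.log (1 / k)))) := by
        rw [mul_assoc, ← Real.exp_add, ← sub_eq_add_neg]
    _ ≤ ω y * Real.exp (h y) :=
        mul_le_mul_of_nonneg_left (Real.exp_le_exp.2 hhy0) (hω0 y).le

end Cde

theorem cde (lcs : LcsStmt) : CdeStmt := by
  intro d hd
  obtain ⟨C₁, hC₁, H⟩ := Cde.core lcs d hd
  refine ⟨C₁, hC₁, fun ε hε hε2 => ?_⟩
  obtain ⟨C₂, hC₂, H⟩ := H ε hε hε2
  refine ⟨C₂, hC₂, ?_⟩
  intro M _ z μ lam W b n R i hz hlam hlam2 hμ hμ2 hM hF hR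
  have hF' : FlatE ε z μ (fun x : Tor d M => (fun y => W (y + b)) (rep x)) := by
    have e : (fun x : Tor d M => (fun y => W (y + b)) (rep x)) = fun x : Tor d M => W (b + rep x) := by
      funext x
      simp only
      rw [add_comm]
    rw [e]
    exact hF
  have h1 := H M z μ lam (fun y => W (y + b)) n R i hz hlam hlam2 hμ hμ2 hM hF' hR
  have h2 : ∀ y : Site d, y ∈ box (0 : Site d) (n + R) ↔ y + b ∈ box b (n + R) := by
    intro y
    rw [mem_box, mem_box, sd_le_iff, sd_le_iff]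
    refine forall_congr' fun j => ?_
    rw [Pi.add_apply, Pi.zero_apply]
    have e : b j - (y j + b j) = 0 - y j := by ring
    rw [e]
  have h3 := H42.gr_tau W b h2 (z + lam) 0 (Pi.single i (n : ℤ))
  rw [zero_add, add_comm (Pi.single i (n : ℤ)) b] at h3
  rw [← h3]
  exact h1

end Pool.Agent.LE.H60Z
end
end -- Pool.Agent.Helper60_LSH.CDE

section -- Pool.Agent.LE.StmtsQ

/-!
# Clusters near the effective band edge: pointwise bound for the Lyapunov exponent

Statements of the modules, with proofs. For an energy `E` near the effective band edge `z`,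
`lam = |E - z| + 1 / t`, with high probability the sites of `box b ρ` which are reached from `b` by
at most `J = C log t` links of the price at most `s = C log t` are at least `c lam^{-d/2}` many.
With the criterion `CrgStmt` this gives `γ(E) ≤ C (|E - z| + 1 / t)^{1/2} log² t`.

IDEA. Let `C ⊆ C'`, `|C'| ≤ 2 |C|`, be such that `G(x, y)` is tiny for `x ∈ C`, `y ∉ C'` (volume
pigeonhole). Then `ψ = χ G (ω 1_C)` (`ω` the flat landscape function, `(z - H) ω = 1 / μ`, `χ` an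
exponential weight) lives in `C'`, and `(E - H) ψ = ω 1_C + W ψ + (tiny)`. If `|C'|` is small, the
Faber-Krahn inequality for `z - H` on `C'` gives `|ψ|² ≤ C ℓ⁴ |C|`, `ℓ² ≪ 1 / lam`, and the test of
the equation with `ω` gives `|C| ≤ (lam + k) ∑ |ψ| + … < |C|`, a contradiction.
-/

set_option autoImplicit false

open MeasureTheory ProbabilityTheory Function Filter

open scoped ENNReal BigOperators Topology NNReal

noncomputable section

namespace Pool.Agent.LE.CL

open Pool.Agent.Anderson Pool.Agent.Loc Pool.Agent.Mob Pool.Agent.Helper54.Bal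
  Pool.Agent.Helper96.EXP Pool.Agent.BED

/-- the energy of `φ` in `T` -/
def gd {d : ℕ} (φ : Site d → ℝ) (T : Finset (Site d)) : ℝ :=
  ∑ x ∈ T, ∑ i : Fin d, (φ (x + Pi.single i 1) - φ x) ^ 2

/-- a cluster near the edge: `C ⊆ C'`, `ψ` lives in `box b r`, essentially in `C'`, and solves
`(E - H) ψ = ω 1_C + W ψ + e`; `ω` is the flat landscape function and `χ` the weight -/
structure EC {d : ℕ} (V ω χ ψ e : Site d → ℝ) (C C' : Finset (Site d)) (b : Site d) (r : ℕ)
    (z E lam κ k : ℝ) : Prop where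
  hω : ∀ x, |ω x - 1| ≤ 1 / 50
  hk : 0 ≤ k ∧ k ≤ lam
  hωe : ∀ x ∈ box b r, (z - V x) * ω x - nb ω x = k
  hκ : 0 ≤ κ ∧ κ ≤ 1
  hχ : ∀ x, 0 < χ x
  hχn : ∀ (x : Site d) (i : Fin d), χ (x + Pi.single i 1) ≤ Real.exp κ * χ x ∧
    χ x ≤ Real.exp κ * χ (x + Pi.single i 1)
  hC : C.Nonempty ∧ C ⊆ C' ∧ C' ⊆ box b r ∧ C'.card ≤ 2 * C.card
  hψ : ∀ x, x ∉ box b r → ψ x = 0
  hψC : ∑ x ∈ box b r \ C', |ψ x| ≤ 1 / 100
  he : ∑ x ∈ box b (r + 1), |e x| ≤ 1 / 100
  hE : |E - z| ≤ lam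
  heq : ∀ y ∈ box b (r + 1), (E - V y) * ψ y - nb ψ y =
    (if y ∈ C then ω y else 0) +
      ∑ i : Fin d, ((χ y / χ (y + Pi.single i 1) - 1) * ψ (y + Pi.single i 1) +
        (χ y / χ (y - Pi.single i 1) - 1) * ψ (y - Pi.single i 1)) + e y

/-- SBP: summation by parts. Proof: `∑_x F x (x - e_i) = ∑_x F (x + e_i) x` (shift by `e_i`), and all
the terms which are not zero are in the index sets. -/
def SbpStmt : Prop :=
  ∀ (d : ℕ) (F : Site d → Site d → ℝ) (b : Site d) (r : ℕ),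
    (∀ x, x ∉ box b r → ∀ y, F x y = 0) →
      (∑ x ∈ box b r, ∑ i : Fin d, (F x (x + Pi.single i 1) + F x (x - Pi.single i 1)) =
        ∑ x ∈ box b (r + 1), ∑ i : Fin d, (F x (x + Pi.single i 1) + F (x + Pi.single i 1) x)) ∧
      ∑ y ∈ box b (r + 1), ∑ i : Fin d, (F (y + Pi.single i 1) y + F (y - Pi.single i 1) y) =
        ∑ x ∈ box b (r + 1), ∑ i : Fin d, (F x (x + Pi.single i 1) + F (x + Pi.single i 1) x)

/-- FKI: the Faber-Krahn inequality with an error. Proof: `ℓ = 2 m + 1`; the cubes `box (ℓ p) m`,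
`p ∈ ℤ^d`, are disjoint and cover `ℤ^d`. For such a cube `Q`: `∑_Q φ² = ∑_Q (φ - av)² + |Q| av²`,
`∑_Q (φ - av)² ≤ d ℓ² eg_Q` (`PcrStmt`, proved:
`Pool.Agent.LE.H19Z.pcr`), and
`|Q| av² = (∑_Q φ)² / |Q| ≤ 2 |C' ∩ Q| / |Q| ∑_Q φ² + 2 (∑_{Q \ C'} |φ|)² ≤ (1/2) ∑_Q φ² + …`. So
`∑_Q φ² ≤ 2 d ℓ² eg_Q + 4 (∑_{Q \ C'} |φ|)²`; sum over the cubes. -/
def FkiStmt : Prop :=
  ∀ (d : ℕ) (φ : Site d → ℝ) (b : Site d) (r m : ℕ) (C' : Finset (Site d)), 1 ≤ d →
    (∀ x, x ∉ box b r → φ x = 0) → 4 * C'.card ≤ (2 * m + 1) ^ d →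
      ∑ x ∈ box b r, φ x ^ 2 ≤
        2 * d * (2 * (m : ℝ) + 1) ^ 2 * gd φ (box b (r + 1)) +
          4 * (∑ x ∈ box b r \ C', |φ x|) ^ 2

/-- ENI: the energy identity (ground state representation). Proof: `ψ = ω φ`;
`(z - V) ψ - nb ψ = φ (k + nb ω) - nb (ω φ) = k φ + ∑_{y ~ x} ω(y) (φ(x) - φ(y))` on `box b r`.
Multiply by `ω φ` and sum: `SbpStmt` with `F x y = ω x ω y φ x (φ x - φ y)`. -/
def EniStmt : Prop :=
  ∀ (d : ℕ) (V ω φ : Site d → ℝ) (b : Site d) (r : ℕ) (z k : ℝ),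
    (∀ x, x ∉ box b r → φ x = 0) → (∀ x ∈ box b r, (z - V x) * ω x - nb ω x = k) →
      ∑ x ∈ box b r, ω x * φ x * ((z - V x) * (ω x * φ x) - nb (fun y => ω y * φ y) x) =
        ∑ x ∈ box b (r + 1), ∑ i : Fin d,
          ω x * ω (x + Pi.single i 1) * (φ (x + Pi.single i 1) - φ x) ^ 2 +
        k * ∑ x ∈ box b r, ω x * φ x ^ 2

/-- ENB: the energy bound. Proof: `φ = ψ / ω`, `ℓ = 2 m + 1`, `N = |C|`, `Ψ² = ∑ ψ²`,
`D = gd φ (box b (r + 1))`. `EniStmt`: `0.96 D ≤ ∑ ψ ((z - V) ψ - nb ψ) ≤ lam Ψ² + 1.02 √N Ψ + W +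
0.01 Ψ` (equation `heq`, Cauchy-Schwarz). By `SbpStmt` with `F y x = ψ y (χ y / χ x - 1) ψ x` the
term `W` is `∑_{x, i} ψ x ψ (x + e_i) (ρ + 1/ρ - 2)`, `ρ = χ (x + e_i) / χ x ∈ [e^{-κ}, e^κ]`, so
`|W| ≤ (2 cosh κ - 2) d Ψ² ≤ 1.1 d κ² Ψ²`. `FkiStmt`: `Ψ² ≤ 1.05 ∑ φ² ≤ 2.1 d ℓ² D + 0.0011`. So
`Ψ² ≤ 2.2 d ℓ² ((lam + 1.1 d κ²) Ψ² + 1.03 √N Ψ) + 0.0011`, the first term is at most `Ψ² / 2`:
`Ψ ≤ 5 d ℓ² √N`, and `D ≤ 12 d ℓ² N`. -/
def EnbStmt : Prop :=
  ∀ (d : ℕ) (V ω χ ψ e : Site d → ℝ) (C C' : Finset (Site d)) (b : Site d) (r m : ℕ)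
    (z E lam κ k : ℝ), 1 ≤ d → EC V ω χ ψ e C C' b r z E lam κ k →
    4 * C'.card ≤ (2 * m + 1) ^ d → 5 * d * (2 * (m : ℝ) + 1) ^ 2 * (lam + 2 * d * κ ^ 2) ≤ 1 →
      ∑ x ∈ box b r, ψ x ^ 2 ≤ 25 * d ^ 2 * (2 * (m : ℝ) + 1) ^ 4 * C.card ∧
      gd (fun x => ψ x / ω x) (box b (r + 1)) ≤ 12 * d * (2 * (m : ℝ) + 1) ^ 2 * C.card

/-- ECL: a cluster near the edge is large. Proof: suppose `4 |C'| < ℓ^d`, `ℓ = 2 m + 1`. Multiply
`(z - V) ψ - nb ψ` by `ω` and sum over `box b (r + 1)`: by symmetry (`SbpStmt` twice, `F x y = ψ x ω y`)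
the result is `k ∑ ψ`. By `heq` it is also `(z - E) ∑ ω ψ + ∑_C ω² + W + ∑ ω e`, so
`0.96 N ≤ (k + 1.02 lam) ∑ |ψ| + |W| + 0.0102`. `∑ |ψ| ≤ √(2 N) Ψ + 0.01 ≤ 8 d ℓ² N` (`EnbStmt`).
`W = ∑_y ω y ∑_{x ~ y} (χ y / χ x - 1) ω x φ x` (`φ = ψ / ω`) is, by `SbpStmt` with
`F x y = a (χ y / χ x - 1) φ x`, `a = ω x ω y`, the sum over `x, i` (`y = x + e_i`) of
`a ((χ y / χ x - 1) (φ x - φ y) + (χ y / χ x + χ x / χ y - 2) φ y)`, at most
`1.05 (2 κ ∑ |φ x - φ y| + 1.1 κ² d ∑ |φ|)`. The edges which meet `C'` are at most `2 d |C'| ≤ 4 d N`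
many: `∑ |φ x - φ y| ≤ √(4 d N) √D + 0.03 d ≤ 7 d ℓ N + 0.03 d`. So `|W| ≤ 15 d κ ℓ N +
10 d² κ² ℓ² N`, and `0.96 N ≤ (0.2 + 0.3 + 0.004 + 0.0102) N`, a contradiction. -/
def EclStmt : Prop :=
  ∀ (d : ℕ) (V ω χ ψ e : Site d → ℝ) (C C' : Finset (Site d)) (b : Site d) (r m : ℕ)
    (z E lam κ k : ℝ), 1 ≤ d → EC V ω χ ψ e C C' b r z E lam κ k →
    lam * (2 * (m : ℝ) + 1) ^ 2 ≤ 1 / (100 * d) → κ * (2 * (m : ℝ) + 1) ≤ 1 / (50 * d) →
      (2 * m + 1) ^ d ≤ 4 * C'.card

/-- CUT: the equation for the weighted Green function. Proof: `φ₀ y = ∑_{x ∈ C} gr y x ω x`,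
`(E - V y) φ₀ y - nb φ₀ y = if y ∈ C then ω y else 0` for `y ∈ Λ` (as in
`Pool.Agent.LE.H60Z.Cde.green`; `φ₀ = 0` outside `Λ`), `χ y = exp (-κ (sd b y - r₀ : ℕ))`,
`ψ y = χ y φ₀ y` on `box b r`, `0` outside, `r = r₀ + R₁`. For `y ∈ box b r` the equation holds with
`e y = χ y ∑_{x ~ y, x ∉ box b r} φ₀ x` (zero if `sd b y < r`), for `sd b y = r + 1` with
`e y = - χ y ∑_{x ~ y, x ∈ box b r} φ₀ x`. So `|e y| ≤ 2.04 d e^{-κ R₁} |C| G`, and
`|ψ y| ≤ 1.02 |C| e^{-s}` for `y ∈ box b r`, `y ∉ C' = clu V Λ E s C (box b r)`. -/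
def CutStmt : Prop :=
  ∀ (d : ℕ) (V ω : Site d → ℝ) (Λ C : Finset (Site d)) (b : Site d) (r₀ R₁ : ℕ)
    (z E lam κ k s G : ℝ), 1 ≤ d → (∀ x, |ω x - 1| ≤ 1 / 50) → 0 ≤ k → k ≤ lam →
    (∀ x ∈ box b (r₀ + R₁), (z - V x) * ω x - nb ω x = k) → 0 ≤ κ → κ ≤ 1 → |E - z| ≤ lam →
    C.Nonempty → C ⊆ box b r₀ → box b (r₀ + R₁ + 1) ⊆ Λ → (RM V Λ E).det ≠ 0 → 1 ≤ G →
    (∀ x ∈ box b (r₀ + R₁ + 1), ∀ y ∈ box b (r₀ + R₁ + 1), |gr V Λ E x y| ≤ G) →
    (clu V Λ E s C (box b (r₀ + R₁))).card ≤ 2 * C.card →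
    200 * (2 * ((r₀ + R₁ : ℕ) : ℝ) + 1) ^ (2 * d) ≤ Real.exp s →
    300 * d * (2 * ((r₀ + R₁ : ℕ) : ℝ) + 3) ^ (2 * d) * G ≤ Real.exp (κ * R₁) →
      ∃ χ ψ e : Site d → ℝ,
        EC V ω χ ψ e C (clu V Λ E s C (box b (r₀ + R₁))) b (r₀ + R₁) z E lam κ k

/-- EDC: the cluster of `b` is large (deterministic). Proof: `ρ = J R₁`, `S_0 = {b}`,
`S_{j+1} = clu V Λ E s S_j (box b ((j + 1) R₁)) ⊆ rch V Λ E s b ρ (j + 1)`. There is `j < J` with
`|S_{j+1}| ≤ 2 |S_j|`, otherwise `2^J ≤ |S_J| ≤ (2 ρ + 1)^d`. `Pool.Agent.LE.H60Z.Cde.landscape` for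
`y ↦ V (b + y)` gives `ω`. `CutStmt` with `r₀ = j R₁`, `κ = 1 / (50 d (2 m + 1))`, `k = 1 / μ`, and
`EclStmt`. -/
def EdcStmt : Prop :=
  ∀ (d M' J R₁ m : ℕ) [NeZero M'] (V : Site d → ℝ) (Λ : Finset (Site d)) (E s z μ lam G : ℝ)
    (b : Site d), 1 ≤ d → 0 < μ → 1 ≤ lam * μ → |E - z| ≤ lam →
    lam * (2 * (m : ℝ) + 1) ^ 2 ≤ 1 / (100 * d) → 1 ≤ G → 1 ≤ J → 1 ≤ R₁ →
    2 * (J * R₁ + 2) ≤ M' → FlatE (1 / 50) z μ (fun x : Tor d M' => V (b + rep x)) →
    box b (J * R₁ + 1) ⊆ Λ → (RM V Λ E).det ≠ 0 →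
    (∀ x ∈ box b (J * R₁ + 1), ∀ y ∈ box b (J * R₁ + 1), |gr V Λ E x y| ≤ G) →
    (2 * (J * R₁) + 1) ^ d < 2 ^ J → 200 * (2 * ((J * R₁ : ℕ) : ℝ) + 1) ^ (2 * d) ≤ Real.exp s →
    300 * d * (2 * ((J * R₁ : ℕ) : ℝ) + 3) ^ (2 * d) * G ≤
      Real.exp (R₁ / (50 * d * (2 * (m : ℝ) + 1))) →
      (2 * m + 1) ^ d ≤ 4 * (rch V Λ E s b (J * R₁) J).card

/-- EDP: the cluster of `b` is large with high probability. Proof: the three bad events of `EdcStmt`:
not flat (law of `x ↦ V (b + rep x)` as in `Pool.Agent.LE.H54W.cpf_core`: probability `≤ p`), the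
determinant (null), some `|gr x y| > G` (`P(|gr x y| > τ) ≤ 10 / (|σ| τ)`, see
`Pool.Agent.LE.MN.H61.lpr`, union over the pairs). -/
def EdpStmt : Prop :=
  ∀ (d M' J R₁ m N : ℕ) (v : ℝ≥0) (σ E s z μ lam G p : ℝ) (b : Site d), 1 ≤ d → σ ≠ 0 →
    (v : ℝ) = σ ^ 2 → 0 < μ → 1 ≤ lam * μ → |E - z| ≤ lam →
    lam * (2 * (m : ℝ) + 1) ^ 2 ≤ 1 / (100 * d) → 1 ≤ G → 1 ≤ J → 1 ≤ R₁ →
    2 * (J * R₁ + 2) ≤ M' → 0 ≤ p →
    (∀ h : NeZero M', gau d M' v {V | ¬ FlatE (1 / 50) z μ V} ≤ ENNReal.ofReal p) →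
    box b (J * R₁ + 1) ⊆ box 0 N →
    (2 * (J * R₁) + 1) ^ d < 2 ^ J → 200 * (2 * ((J * R₁ : ℕ) : ℝ) + 1) ^ (2 * d) ≤ Real.exp s →
    300 * d * (2 * ((J * R₁ : ℕ) : ℝ) + 3) ^ (2 * d) * G ≤
      Real.exp (R₁ / (50 * d * (2 * (m : ℝ) + 1))) →
      PP d (gl σ) {V | ¬ (2 * m + 1) ^ d ≤ 4 * (rch V (box 0 N) E s b (J * R₁) J).card} ≤
        ENNReal.ofReal (p + 10 * (2 * ((J * R₁ : ℕ) : ℝ) + 3) ^ (2 * d) / (|σ| * G))

/-- PEN: the Lyapunov exponent near the edge. Proof: `w = log t`, `lam = |E - z| + 1 / t`, `m` the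
largest integer with `lam (2 m + 1)² ≤ 1 / (100 d)`, so `2 m + 1 ≥ 1 / (30 √(d lam))` for small `c`;
`J = ⌈2 d w⌉ + 1`, `s = (2 d + 1) w`, `G = t^{3 d + 4}`, `R₁ = ⌈50 d (5 d + 6) w (2 m + 1)⌉`; then
`2 J R₁ + 5 ≤ C w² √t ≤ t ≤ M'` for `t ≥ C`, so all the hypotheses of `EdpStmt` hold, and the
probability is at most `q = t^{-C} + 10 t^{2 d + 1 - 3 d - 4} ≤ t^{-d}`. `CrgStmt` with
`n = ⌈(2 m + 1)^d / 4⌉ ≤ t^d`, `ρ = J R₁ + 1` (`rch` is increasing in `ρ`:
`rch_mono_rad`). -/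
def PenStmt : Prop :=
  ∀ d : ℕ, 1 ≤ d → ∃ c C : ℝ, 0 < c ∧ 1 ≤ C ∧
    ∀ (M' : ℕ) (v : ℝ≥0) (σ t z μ p E g : ℝ), σ ≠ 0 → |σ| ≤ 1 / 2 → (v : ℝ) = σ ^ 2 →
    0 ≤ z → z ≤ 2 * d + 1 → 1 / |σ| ≤ t → C ≤ t → 9 * t ≤ μ → t ≤ M' →
    (∀ h : NeZero M', gau d M' v {V | ¬ FlatE (1 / 50) z μ V} ≤ ENNReal.ofReal p) →
    p ≤ t ^ (-C) → LyaAt d σ E g → |E - z| ≤ c →
      g ≤ C * Real.sqrt (|E - z| + 1 / t) * Real.log t ^ 2

end Pool.Agent.LE.CL
end
end -- Pool.Agent.LE.StmtsQ
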