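import Pool.Agent.Helper12_MEB.B056

/-!
# Merged copies (generated) of the modules

* `Pool.Agent.Helper54_LSC.ECL`
* `Pool.Agent.Helper70_LSC.EDC`
-/

set_option autoImplicit false

section -- Pool.Agent.Helper54_LSC.ECL

/-!
# ECL: a cluster near the edge is large
-/

set_option autoImplicit false

open MeasureTheory ProbabilityTheory Function Filter

open scoped ENNReal BigOperators Topology NNReal

noncomputable section

namespace Pool.Agent.LE.CL.H54

open Pool.Agent.Anderson Pool.Agent.Loc Pool.Agent.Mob Pool.Agent.Helper54.Bal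
  Pool.Agent.Helper96.EXP Pool.Agent.BED

variable {d : ℕ}

/-- the two error factors of the weight -/
theorem ratio_facts {κ ρ : ℝ} (hκ0 : 0 ≤ κ) (hκ1 : κ ≤ 1 / 50) (h1 : ρ ≤ Real.exp κ)
    (h2 : 1 ≤ Real.exp κ * ρ) : |ρ - 1| ≤ 2 * κ ∧ |ρ + 1 / ρ - 2| ≤ 8 * κ ^ 2 := by
  have he : Real.exp κ ≤ 1 + 2 * κ := by
    have h3 := Real.exp_bound' hκ0 (by linarith only [hκ1] : κ ≤ 1) (n := 1) (by norm_num)
    simp at h3
    linarith only [h3]
  have hρ1 : 1 - κ ≤ ρ := by
    have h4 := Real.add_one_le_exp (-κ)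
    have h5 : Real.exp κ * Real.exp (-κ) = 1 := by rw [← Real.exp_add, add_neg_cancel, Real.exp_zero]
    have h6 : Real.exp (-κ) ≤ ρ := by
      have h7 : 0 < Real.exp κ := Real.exp_pos _
      by_contra hcon
      push Not at hcon
      have h8 := mul_lt_mul_of_pos_left hcon h7
      linarith only [h8, h5, h2]
    linarith only [h4, h6]
  have hρ0 : 1 / 2 ≤ ρ := by linarith only [hρ1, hκ1]
  have ha : |ρ - 1| ≤ 2 * κ := by
    rw [abs_le]
    constructor <;> linarith
  refine ⟨ha, ?_⟩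
  have h5 : ρ + 1 / ρ - 2 = (ρ - 1) ^ 2 / ρ := by
    field_simp
    ring
  rw [h5, abs_of_nonneg (by positivity), div_le_iff₀ (by linarith only [hκ1, hρ1])]
  have h6 : (ρ - 1) ^ 2 ≤ (2 * κ) ^ 2 := sq_le_sq' (abs_le.1 ha).1 (abs_le.1 ha).2
  have h7 := mul_le_mul_of_nonneg_left hρ0 (sq_nonneg κ)
  linarith only [h6, h7]

/-- the edges which meet `C'` -/
theorem sum_grad (S' S C' : Finset (Site d)) (φ : Site d → ℝ) {N D δ : ℝ}
    (hS : ∀ x, x ∉ S → φ x = 0) (hN : (C'.card : ℝ) ≤ 2 * N) (hN0 : 0 ≤ N)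
    (hD : gd φ S' ≤ D) (hδ : ∑ x ∈ S \ C', |φ x| ≤ δ) :
    ∑ x ∈ S', ∑ i : Fin d, |φ (x + Pi.single i 1) - φ x| ≤
      Real.sqrt (4 * d * N * D) + 2 * d * δ := by
  classical
  set A : Finset (Site d × Fin d) := (S' ×ˢ Finset.univ).filter
    fun p => p.1 ∈ C' ∨ p.1 + Pi.single p.2 1 ∈ C' with hA
  set g : Site d × Fin d → ℝ := fun p => |φ (p.1 + Pi.single p.2 1) - φ p.1| with hg
  have hcard : (A.card : ℝ) ≤ 4 * d * N := by
    have h1 : A ⊆ (C' ×ˢ Finset.univ) ∪
        (C' ×ˢ (Finset.univ : Finset (Fin d))).image fun p => (p.1 - Pi.single p.2 1, p.2) := by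
      intro p hp
      rw [hA, Finset.mem_filter] at hp
      rw [Finset.mem_union]
      rcases hp.2 with h | h
      · left
        exact Finset.mem_product.2 ⟨h, Finset.mem_univ _⟩
      · right
        refine Finset.mem_image.2 ⟨(p.1 + Pi.single p.2 1, p.2),
          Finset.mem_product.2 ⟨h, Finset.mem_univ _⟩, ?_⟩
        simp
    have h2 : A.card ≤ C'.card * d + C'.card * d := by
      refine (Finset.card_le_card h1).trans ((Finset.card_union_le _ _).trans ?_)
      refine add_le_add ?_ (Finset.card_image_le.trans ?_)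
      · rw [Finset.card_product, Finset.card_univ, Fintype.card_fin]
      · rw [Finset.card_product, Finset.card_univ, Fintype.card_fin]
    have h3 : (A.card : ℝ) ≤ C'.card * d + C'.card * d := by exact_mod_cast h2
    have h4 : (C'.card : ℝ) * d ≤ 2 * N * d := by gcongr
    linarith only [h3, h4]
  have h0 : ∑ x ∈ S', ∑ i : Fin d, |φ (x + Pi.single i 1) - φ x| =
      ∑ p ∈ S' ×ˢ (Finset.univ : Finset (Fin d)), g p := by
    rw [Finset.sum_product]
  have h1 : ∑ p ∈ S' ×ˢ (Finset.univ : Finset (Fin d)), g p = ∑ p ∈ A, g p +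
      ∑ p ∈ (S' ×ˢ (Finset.univ : Finset (Fin d))).filter
        (fun p => ¬ (p.1 ∈ C' ∨ p.1 + Pi.single p.2 1 ∈ C')), g p := by
    rw [hA, Finset.sum_filter_add_sum_filter_not]
  have hA1 : ∑ p ∈ A, g p ≤ Real.sqrt (4 * d * N * D) := by
    apply Real.le_sqrt_of_sq_le
    refine (sq_sum_le_card_mul_sum_sq (s := A) (f := g)).trans ?_
    have h2 : ∑ p ∈ A, g p ^ 2 ≤ D := by
      refine le_trans ?_ hD
      have h9 : gd φ S' = ∑ p ∈ S' ×ˢ (Finset.univ : Finset (Fin d)),
          (φ (p.1 + Pi.single p.2 1) - φ p.1) ^ 2 := by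
        rw [Finset.sum_product]
        rfl
      rw [h9]
      refine (Finset.sum_le_sum fun p _ => (sq_abs _).le).trans ?_
      refine Finset.sum_le_sum_of_subset_of_nonneg (Finset.filter_subset _ _) fun p _ _ => ?_
      positivity
    have h3 : 0 ≤ ∑ p ∈ A, g p ^ 2 := Finset.sum_nonneg fun p _ => sq_nonneg _
    exact mul_le_mul hcard h2 h3 (by positivity)
  have hB : ∑ p ∈ (S' ×ˢ (Finset.univ : Finset (Fin d))).filter
      (fun p => ¬ (p.1 ∈ C' ∨ p.1 + Pi.single p.2 1 ∈ C')), g p ≤ 2 * d * δ := by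
    have hδ1 : ∀ i : Fin d, ∀ T : Finset (Site d), (∀ x ∈ T, x ∉ C') →
        ∑ x ∈ T, |φ x| ≤ δ := by
      intro _ T hT
      refine le_trans ?_ hδ
      have h2 : ∑ x ∈ T, |φ x| = ∑ x ∈ T.filter (fun x => x ∈ S), |φ x| := by
        rw [Finset.sum_filter]
        refine Finset.sum_congr rfl fun x _ => ?_
        by_cases hx : x ∈ S
        · rw [if_pos hx]
        · rw [if_neg hx, hS x hx, abs_zero]
      rw [h2]
      refine Finset.sum_le_sum_of_subset_of_nonneg ?_ fun x _ _ => abs_nonneg _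
      intro x hx
      rw [Finset.mem_filter] at hx
      exact Finset.mem_sdiff.2 ⟨hx.2, hT x hx.1⟩
    have h3 : ∑ p ∈ (S' ×ˢ (Finset.univ : Finset (Fin d))).filter
        (fun p => ¬ (p.1 ∈ C' ∨ p.1 + Pi.single p.2 1 ∈ C')), g p =
        ∑ i : Fin d, ∑ x ∈ S'.filter (fun x => ¬ (x ∈ C' ∨ x + Pi.single i 1 ∈ C')),
          |φ (x + Pi.single i 1) - φ x| := by
      rw [Finset.sum_filter, Finset.sum_product_right]
      refine Finset.sum_congr rfl fun i _ => ?_
      rw [Finset.sum_filter]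
    rw [h3]
    have h4 : ∀ i : Fin d, ∑ x ∈ S'.filter (fun x => ¬ (x ∈ C' ∨ x + Pi.single i 1 ∈ C')),
        |φ (x + Pi.single i 1) - φ x| ≤ 2 * δ := by
      intro i
      set T := S'.filter (fun x => ¬ (x ∈ C' ∨ x + Pi.single i 1 ∈ C')) with hT
      have h5 : ∑ x ∈ T, |φ (x + Pi.single i 1) - φ x| ≤
          ∑ x ∈ T, (|φ (x + Pi.single i 1)| + |φ x|) := Finset.sum_le_sum fun x _ => abs_sub _ _
      rw [Finset.sum_add_distrib] at h5
      have h6 : ∑ x ∈ T, |φ x| ≤ δ := hδ1 i T fun x hx => by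
        rw [hT, Finset.mem_filter] at hx
        exact fun h => hx.2 (Or.inl h)
      have h7 : ∑ x ∈ T, |φ (x + Pi.single i 1)| ≤ δ := by
        have h8 := hδ1 i (T.image fun x => x + Pi.single i 1) fun x hx => by
          rw [Finset.mem_image] at hx
          obtain ⟨y, hy, rfl⟩ := hx
          rw [hT, Finset.mem_filter] at hy
          exact fun h => hy.2 (Or.inr h)
        rwa [Finset.sum_image (fun x _ y _ h => add_right_cancel h)] at h8
      linarith only [h5, h6, h7]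
    refine (Finset.sum_le_sum fun i _ => h4 i).trans (le_of_eq ?_)
    rw [Finset.sum_const, Finset.card_univ, Fintype.card_fin, nsmul_eq_mul]
    ring
  rw [h0, h1]
  linarith only [hA1, hB]

theorem ecl (sbp : SbpStmt) (enb : EnbStmt) : EclStmt := by
  classical
  intro d V ω χ ψ e C C' b r m z E lam κ k hd h hlam hκm
  by_contra hcon
  push Not at hcon
  have hd1 : (1 : ℝ) ≤ d := by exact_mod_cast hd
  have hd0 : (0 : ℝ) < d := by linarith only [hd1]
  set ℓ : ℝ := 2 * (m : ℝ) + 1 with hℓ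
  have hℓ1 : 1 ≤ ℓ := by
    have : (0 : ℝ) ≤ m := Nat.cast_nonneg m
    linarith only [this, hℓ]
  have hlam0 : 0 ≤ lam := (abs_nonneg _).trans h.hE
  have hκ0 := h.hκ.1
  set N : ℝ := (C.card : ℝ) with hN
  have hN1 : 1 ≤ N := by
    rw [hN]
    exact_mod_cast Finset.card_pos.2 h.hC.1
  have hC'N : (C'.card : ℝ) ≤ 2 * N := by
    rw [hN]
    exact_mod_cast h.hC.2.2.2
  have hlam' : lam * ℓ ^ 2 * d ≤ 1 / 100 := by
    rw [le_div_iff₀ (by positivity)] at hlam
    linarith only [hlam]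
  have hκ' : κ * ℓ * d ≤ 1 / 50 := by
    rw [le_div_iff₀ (by positivity)] at hκm
    linarith only [hκm]
  have hκ'' : (κ * ℓ * d) ^ 2 ≤ (1 / 50) ^ 2 := by
    apply pow_le_pow_left₀ _ hκ'
    positivity
  have hκs : κ ≤ 1 / 50 := by
    have h1 : κ * (1 * 1) ≤ κ * (ℓ * d) := mul_le_mul_of_nonneg_left
      (mul_le_mul hℓ1 hd1 zero_le_one (by linarith only [hℓ1])) hκ0
    linarith only [h1, hκ']
  obtain ⟨hψ2, hgd⟩ := enb d V ω χ ψ e C C' b r m z E lam κ k hd h hcon.le (by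
    rw [← hℓ]
    linarith only [hlam', hκ''])
  rw [← hℓ, ← hN] at hψ2 hgd
  set S := box b r with hS
  set S' := box b (r + 1) with hS'
  have hSS' : S ⊆ S' := box_mono b (by omega)
  have hω1 : ∀ x, 49 / 50 ≤ ω x := fun x => by
    have := (abs_le.1 (h.hω x)).1
    linarith only [this]
  have hω2 : ∀ x, ω x ≤ 51 / 50 := fun x => by
    have := (abs_le.1 (h.hω x)).2
    linarith only [this]
  have hω0 : ∀ x, 0 < ω x := fun x => by
    have := hω1 x
    linarith only [this]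
  set φ : Site d → ℝ := fun x => ψ x / ω x with hφ
  have hψφ : ∀ x, ψ x = ω x * φ x := fun x => by
    rw [hφ]
    have := (hω0 x).ne'
    field_simp
  have hφS : ∀ x, x ∉ S → φ x = 0 := fun x hx => by
    rw [hφ]
    simp only
    rw [h.hψ x hx, zero_div]
  have hφψ : ∀ x, |φ x| ≤ 50 / 49 * |ψ x| := fun x => by
    rw [hψφ x, abs_mul, abs_of_pos (hω0 x)]
    have h1 := hω1 x
    have h2 := abs_nonneg (φ x)
    have h3 := mul_le_mul_of_nonneg_right h1 h2
    linarith only [h3]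
  have hdℓN : 1 ≤ d * ℓ ^ 2 * N := by
    have h1 : (1 : ℝ) ≤ ℓ ^ 2 := one_le_pow₀ hℓ1
    calc (1 : ℝ) = 1 * 1 * 1 := by norm_num
      _ ≤ d * ℓ ^ 2 * N := mul_le_mul (mul_le_mul hd1 h1 zero_le_one (by linarith only [hd1])) hN1
          zero_le_one (mul_nonneg hd0.le (by linarith only [h1]))
  -- the sum of `|ψ|`
  have hsumC : ∑ x ∈ C', |ψ x| ≤ 71 / 10 * (d * ℓ ^ 2 * N) := by
    refine le_of_sq_le_sq ?_ (by linarith only [hdℓN])
    refine (sq_sum_le_card_mul_sum_sq (s := C') (f := fun x => |ψ x|)).trans ?_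
    have h1 : ∑ x ∈ C', |ψ x| ^ 2 ≤ 25 * d ^ 2 * ℓ ^ 4 * N := by
      refine le_trans ?_ hψ2
      simp only [sq_abs]
      exact Finset.sum_le_sum_of_subset_of_nonneg h.hC.2.2.1 fun x _ _ => sq_nonneg _
    have h2 : 0 ≤ ∑ x ∈ C', |ψ x| ^ 2 := Finset.sum_nonneg fun x _ => sq_nonneg _
    refine (mul_le_mul hC'N h1 h2 (by linarith only [hN1])).trans ?_
    have h3 : 0 ≤ (d * ℓ ^ 2 * N) ^ 2 := sq_nonneg _
    calc 2 * N * (25 * d ^ 2 * ℓ ^ 4 * N) = 50 * (d * ℓ ^ 2 * N) ^ 2 := by ring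
      _ ≤ (71 / 10 * (d * ℓ ^ 2 * N)) ^ 2 := by linarith only [h3]
  have hsum : ∑ x ∈ S, |ψ x| ≤ 8 * (d * ℓ ^ 2 * N) := by
    have h1 := Finset.sum_sdiff (f := fun x => |ψ x|) h.hC.2.2.1
    have h2 := h.hψC
    linarith only [h1, h2, hsumC, hdℓN]
  have hsumφ : ∑ x ∈ S, |φ x| ≤ 82 / 10 * (d * ℓ ^ 2 * N) := by
    have h1 : ∑ x ∈ S, |φ x| ≤ ∑ x ∈ S, 50 / 49 * |ψ x| := Finset.sum_le_sum fun x _ => hφψ x
    rw [← Finset.mul_sum] at h1
    linarith only [h1, hsum, hdℓN]
  have hsumφC : ∑ x ∈ S \ C', |φ x| ≤ 3 / 200 := by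
    have h1 : ∑ x ∈ S \ C', |φ x| ≤ ∑ x ∈ S \ C', 50 / 49 * |ψ x| :=
      Finset.sum_le_sum fun x _ => hφψ x
    rw [← Finset.mul_sum] at h1
    have h2 := h.hψC
    linarith only [h1, h2]
  -- the gradient
  have hgrad := sum_grad S' S C' φ hφS hC'N (by linarith only [hN1]) hgd hsumφC
  have hsqrt : Real.sqrt (4 * d * N * (12 * d * ℓ ^ 2 * N)) ≤ 7 * (d * ℓ * N) := by
    have h4 : 0 ≤ d * ℓ * N := mul_nonneg (mul_nonneg hd0.le (by linarith only [hℓ1]))
      (by linarith only [hN1])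
    rw [Real.sqrt_le_left (by linarith only [h4])]
    have h3 : 0 ≤ (d * ℓ * N) ^ 2 := sq_nonneg _
    linarith only [h3]
  -- the weight term
  set W : Site d → ℝ := fun y => ∑ i : Fin d, ((χ y / χ (y + Pi.single i 1) - 1) *
    ψ (y + Pi.single i 1) + (χ y / χ (y - Pi.single i 1) - 1) * ψ (y - Pi.single i 1)) with hW
  have hWsum : |∑ y ∈ S', ω y * W y| ≤ 10404 / 10000 * (2 * κ * (7 * (d * ℓ * N) + 3 / 100 * d) +
      8 * κ ^ 2 * (82 / 10 * (d ^ 2 * ℓ ^ 2 * N))) := by
    have h1 := (sbp d (fun x y => ω y * (χ y / χ x - 1) * ψ x) b r (fun x hx y => by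
      rw [h.hψ x hx, mul_zero])).2
    have h2 : ∑ y ∈ S', ω y * W y = ∑ y ∈ box b (r + 1), ∑ i : Fin d,
        (ω y * (χ y / χ (y + Pi.single i 1) - 1) * ψ (y + Pi.single i 1) +
          ω y * (χ y / χ (y - Pi.single i 1) - 1) * ψ (y - Pi.single i 1)) := by
      refine Finset.sum_congr rfl fun y _ => ?_
      rw [hW, Finset.mul_sum]
      refine Finset.sum_congr rfl fun i _ => ?_
      ring
    rw [h2, h1]
    have h3 : ∀ x (i : Fin d), |ω (x + Pi.single i 1) * (χ (x + Pi.single i 1) / χ x - 1) * ψ x +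
        ω x * (χ x / χ (x + Pi.single i 1) - 1) * ψ (x + Pi.single i 1)| ≤
          10404 / 10000 * (2 * κ * |φ (x + Pi.single i 1) - φ x| +
            8 * κ ^ 2 * |φ (x + Pi.single i 1)|) := by
      intro x i
      set y := x + Pi.single i 1 with hy
      have hχx := h.hχ x
      have hχy := h.hχ y
      obtain ⟨hr1, hr2⟩ := h.hχn x i
      rw [← hy] at hr1 hr2
      obtain ⟨hq1, hq2⟩ := ratio_facts (ρ := χ y / χ x) hκ0 hκs
        (by rwa [div_le_iff₀ hχx]) (by
          rw [← mul_div_assoc, le_div_iff₀ hχx]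
          linarith only [hr1, hr2])
      have h4 : ω y * (χ y / χ x - 1) * ψ x + ω x * (χ x / χ y - 1) * ψ y =
          ω x * ω y * ((χ y / χ x - 1) * (φ x - φ y) +
            (χ y / χ x + 1 / (χ y / χ x) - 2) * φ y) := by
        rw [hψφ x, hψφ y, one_div_div]
        ring
      rw [h4, abs_mul, abs_of_pos (mul_pos (hω0 x) (hω0 y))]
      have h5 : ω x * ω y ≤ 10404 / 10000 := by
        have := mul_le_mul (hω2 x) (hω2 y) (hω0 y).le (by norm_num)
        linarith only [this]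
      refine mul_le_mul h5 ?_ (abs_nonneg _) (by norm_num)
      refine (abs_add_le _ _).trans ?_
      rw [abs_mul, abs_mul, abs_sub_comm (φ x)]
      exact add_le_add (mul_le_mul_of_nonneg_right hq1 (abs_nonneg _))
        (mul_le_mul_of_nonneg_right hq2 (abs_nonneg _))
    have h6 : ∑ x ∈ S', ∑ i : Fin d, |φ (x + Pi.single i 1)| ≤
        82 / 10 * (d ^ 2 * ℓ ^ 2 * N) := by
      rw [Finset.sum_comm]
      have h7 : ∀ i : Fin d, ∑ x ∈ S', |φ (x + Pi.single i 1)| ≤ ∑ x ∈ S, |φ x| := by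
        intro i
        have h8 : ∑ x ∈ S', |φ (x + Pi.single i 1)| =
            ∑ y ∈ S'.image (fun x => x + Pi.single i 1), |φ y| := by
          rw [Finset.sum_image (fun x _ y _ h => add_right_cancel h)]
        rw [h8]
        have h9 : ∑ y ∈ S'.image (fun x => x + Pi.single i 1), |φ y| =
            ∑ y ∈ (S'.image (fun x => x + Pi.single i 1)).filter (fun y => y ∈ S), |φ y| := by
          rw [Finset.sum_filter]
          refine Finset.sum_congr rfl fun y _ => ?_
          by_cases hy : y ∈ S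
          · rw [if_pos hy]
          · rw [if_neg hy, hφS y hy, abs_zero]
        rw [h9]
        refine Finset.sum_le_sum_of_subset_of_nonneg ?_ fun x _ _ => abs_nonneg _
        intro y hy
        exact (Finset.mem_filter.1 hy).2
      refine (Finset.sum_le_sum fun i _ => (h7 i).trans hsumφ).trans (le_of_eq ?_)
      rw [Finset.sum_const, Finset.card_univ, Fintype.card_fin, nsmul_eq_mul]
      ring
    have h7 : |∑ x ∈ S', ∑ i : Fin d, (ω (x + Pi.single i 1) *
        (χ (x + Pi.single i 1) / χ x - 1) * ψ x +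
        ω x * (χ x / χ (x + Pi.single i 1) - 1) * ψ (x + Pi.single i 1))| ≤
          ∑ x ∈ S', ∑ i : Fin d, 10404 / 10000 * (2 * κ * |φ (x + Pi.single i 1) - φ x| +
            8 * κ ^ 2 * |φ (x + Pi.single i 1)|) := by
      refine (Finset.abs_sum_le_sum_abs _ _).trans (Finset.sum_le_sum fun x _ => ?_)
      exact (Finset.abs_sum_le_sum_abs _ _).trans (Finset.sum_le_sum fun i _ => h3 x i)
    refine h7.trans ?_
    have h8 : ∑ x ∈ S', ∑ i : Fin d, 10404 / 10000 * (2 * κ * |φ (x + Pi.single i 1) - φ x| +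
        8 * κ ^ 2 * |φ (x + Pi.single i 1)|) = 10404 / 10000 *
          (2 * κ * ∑ x ∈ S', ∑ i : Fin d, |φ (x + Pi.single i 1) - φ x| +
            8 * κ ^ 2 * ∑ x ∈ S', ∑ i : Fin d, |φ (x + Pi.single i 1)|) := by
      simp only [Finset.mul_sum, ← Finset.sum_add_distrib]
    rw [h8]
    have h9 : ∑ x ∈ S', ∑ i : Fin d, |φ (x + Pi.single i 1) - φ x| ≤
        7 * (d * ℓ * N) + 3 / 100 * d := by linarith only [hgrad, hsqrt]
    refine mul_le_mul_of_nonneg_left (add_le_add (mul_le_mul_of_nonneg_left h9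
      (by linarith only [hκ0])) (mul_le_mul_of_nonneg_left h6 ?_)) (by norm_num)
    exact mul_nonneg (by norm_num) (sq_nonneg κ)
  -- the test
  have htest : k * ∑ x ∈ S, ψ x = (z - E) * ∑ y ∈ S', ω y * ψ y + ∑ y ∈ C, ω y ^ 2 +
      ∑ y ∈ S', ω y * W y + ∑ y ∈ S', ω y * e y := by
    have hCS' : C ⊆ S' := (h.hC.2.1.trans h.hC.2.2.1).trans hSS'
    have h1 : ∑ y ∈ S', ω y * ((E - V y) * ψ y - nb ψ y) = ∑ y ∈ C, ω y ^ 2 +
        ∑ y ∈ S', ω y * W y + ∑ y ∈ S', ω y * e y := by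
      have h2 : ∑ y ∈ C, ω y ^ 2 = ∑ y ∈ S', ω y * (if y ∈ C then ω y else 0) := by
        rw [← Finset.sum_subset hCS' (f := fun y => ω y * (if y ∈ C then ω y else 0))]
        · refine Finset.sum_congr rfl fun y hy => ?_
          rw [if_pos hy]
          ring
        · intro y _ hy
          rw [if_neg hy, mul_zero]
      rw [h2, ← Finset.sum_add_distrib, ← Finset.sum_add_distrib]
      refine Finset.sum_congr rfl fun y hy => ?_
      rw [h.heq y hy, hW]
      ring
    have h3 : ∑ y ∈ S', ω y * ((z - V y) * ψ y - nb ψ y) = k * ∑ x ∈ S, ψ x := by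
      have h4 : ∑ y ∈ S', ω y * nb ψ y = ∑ x ∈ S, ψ x * nb ω x := by
        obtain ⟨h5, h6⟩ := sbp d (fun x y => ψ x * ω y) b r (fun x hx y => by
          rw [h.hψ x hx, zero_mul])
        have h7 : ∑ y ∈ S', ω y * nb ψ y = ∑ y ∈ box b (r + 1), ∑ i : Fin d,
            (ψ (y + Pi.single i 1) * ω y + ψ (y - Pi.single i 1) * ω y) := by
          refine Finset.sum_congr rfl fun y _ => ?_
          unfold nb
          rw [Finset.mul_sum]
          refine Finset.sum_congr rfl fun i _ => ?_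
          ring
        have h8 : ∑ x ∈ S, ψ x * nb ω x = ∑ x ∈ box b r, ∑ i : Fin d,
            (ψ x * ω (x + Pi.single i 1) + ψ x * ω (x - Pi.single i 1)) := by
          refine Finset.sum_congr rfl fun y _ => ?_
          unfold nb
          rw [Finset.mul_sum]
          refine Finset.sum_congr rfl fun i _ => ?_
          ring
        rw [h7, h8, h6, h5]
      have h5 : ∑ y ∈ S', ω y * ((z - V y) * ψ y) = ∑ x ∈ S, ψ x * ((z - V x) * ω x) := by
        rw [← Finset.sum_subset hSS' (f := fun y => ω y * ((z - V y) * ψ y))]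
        · refine Finset.sum_congr rfl fun y _ => ?_
          ring
        · intro y _ hy
          rw [h.hψ y hy, mul_zero, mul_zero]
      simp only [mul_sub (ω _), Finset.sum_sub_distrib]
      rw [h4, h5, ← Finset.sum_sub_distrib, Finset.mul_sum]
      refine Finset.sum_congr rfl fun x hx => ?_
      rw [← mul_sub, h.hωe x hx]
      ring
    have h10 : ∑ y ∈ S', ω y * ((z - V y) * ψ y - nb ψ y) =
        (z - E) * ∑ y ∈ S', ω y * ψ y + ∑ y ∈ S', ω y * ((E - V y) * ψ y - nb ψ y) := by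
      rw [Finset.mul_sum, ← Finset.sum_add_distrib]
      refine Finset.sum_congr rfl fun y _ => ?_
      ring
    rw [← h3, h10, h1]
    ring
  -- the bounds
  have hb1 : 9604 / 10000 * N ≤ ∑ y ∈ C, ω y ^ 2 := by
    have h1 : ∑ _y ∈ C, (9604 / 10000 : ℝ) ≤ ∑ y ∈ C, ω y ^ 2 := by
      refine Finset.sum_le_sum fun y _ => ?_
      have := pow_le_pow_left₀ (by norm_num) (hω1 y) 2
      linarith only [this]
    rw [Finset.sum_const, nsmul_eq_mul] at h1
    linarith only [h1, hN]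
  have hb2 : |k * ∑ x ∈ S, ψ x| ≤ lam * (8 * (d * ℓ ^ 2 * N)) := by
    rw [abs_mul, abs_of_nonneg h.hk.1]
    exact mul_le_mul h.hk.2 ((Finset.abs_sum_le_sum_abs _ _).trans hsum) (abs_nonneg _) hlam0
  have hb3 : |(z - E) * ∑ y ∈ S', ω y * ψ y| ≤ lam * (51 / 50 * (8 * (d * ℓ ^ 2 * N))) := by
    rw [abs_mul]
    refine mul_le_mul (by rw [abs_sub_comm]; exact h.hE) ?_ (abs_nonneg _) hlam0
    refine (Finset.abs_sum_le_sum_abs _ _).trans ?_
    have h1 : ∑ y ∈ S', |ω y * ψ y| ≤ ∑ y ∈ S', 51 / 50 * |ψ y| := by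
      refine Finset.sum_le_sum fun y _ => ?_
      rw [abs_mul, abs_of_pos (hω0 y)]
      exact mul_le_mul_of_nonneg_right (hω2 y) (abs_nonneg _)
    rw [← Finset.mul_sum] at h1
    have h2 : ∑ y ∈ S', |ψ y| = ∑ y ∈ S, |ψ y| := by
      rw [← Finset.sum_subset hSS' (f := fun y => |ψ y|)]
      intro y _ hy
      rw [h.hψ y hy, abs_zero]
    rw [h2] at h1
    linarith only [h1, hsum]
  have hb4 : |∑ y ∈ S', ω y * e y| ≤ 51 / 50 * (1 / 100) := by
    refine (Finset.abs_sum_le_sum_abs _ _).trans ?_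
    have h1 : ∑ y ∈ S', |ω y * e y| ≤ ∑ y ∈ S', 51 / 50 * |e y| := by
      refine Finset.sum_le_sum fun y _ => ?_
      rw [abs_mul, abs_of_pos (hω0 y)]
      exact mul_le_mul_of_nonneg_right (hω2 y) (abs_nonneg _)
    rw [← Finset.mul_sum] at h1
    have h2 := h.he
    linarith only [h1, h2]
  have hmain : 9604 / 10000 * N ≤ lam * (8 * (d * ℓ ^ 2 * N)) +
      lam * (51 / 50 * (8 * (d * ℓ ^ 2 * N))) +
      10404 / 10000 * (2 * κ * (7 * (d * ℓ * N) + 3 / 100 * d) +
        8 * κ ^ 2 * (82 / 10 * (d ^ 2 * ℓ ^ 2 * N))) + 51 / 50 * (1 / 100) := by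
    have h1 := abs_le.1 hb2
    have h2 := abs_le.1 hb3
    have h3 := abs_le.1 hb4
    have h4 := abs_le.1 hWsum
    linarith only [htest, hb1, h1.2, h2.1, h3.1, h4.1]
  have e1 : lam * (8 * (d * ℓ ^ 2 * N)) = 8 * (lam * ℓ ^ 2 * d) * N := by ring
  have e2 : lam * (51 / 50 * (8 * (d * ℓ ^ 2 * N))) = 408 / 50 * (lam * ℓ ^ 2 * d) * N := by ring
  have e3 : 2 * κ * (7 * (d * ℓ * N) + 3 / 100 * d) = 14 * (κ * ℓ * d) * N + 6 / 100 * (κ * d) := by
    ring
  have e4 : 8 * κ ^ 2 * (82 / 10 * (d ^ 2 * ℓ ^ 2 * N)) = 656 / 10 * (κ * ℓ * d) ^ 2 * N := by ring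
  rw [e1, e2, e3, e4] at hmain
  have hN0 : 0 ≤ N := by linarith only [hN1]
  have f1 := mul_le_mul_of_nonneg_right hlam' hN0
  have f3 := mul_le_mul_of_nonneg_right hκ' hN0
  have f4 := mul_le_mul_of_nonneg_right hκ'' hN0
  have f5 : κ * d ≤ 1 / 50 := by
    refine le_trans ?_ hκ'
    calc κ * d = κ * 1 * d := by ring
      _ ≤ κ * ℓ * d := mul_le_mul_of_nonneg_right (mul_le_mul_of_nonneg_left hℓ1 hκ0) hd0.le
  linarith only [hmain, f1, f3, f4, f5, hN1]

end Pool.Agent.LE.CL.H54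
end
end -- Pool.Agent.Helper54_LSC.ECL

section -- Pool.Agent.Helper70_LSC.EDC

/-! LSC, row EDC: the cluster of a site near the edge is large (deterministic). -/

set_option autoImplicit false

open scoped BigOperators

noncomputable section

namespace Pool.Agent.LE.CL.H70

open Pool.Agent.Anderson Pool.Agent.Loc Pool.Agent.Mob Pool.Agent.Helper54.Bal
  Pool.Agent.Helper96.EXP Pool.Agent.BED Pool.Agent.LE.CL

variable {d : ℕ}

/-- the sequence of clusters -/
def Sq (V : Site d → ℝ) (Λ : Finset (Site d)) (E s : ℝ) (b : Site d) (R : ℕ) :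
    ℕ → Finset (Site d)
  | 0 => {b}
  | j + 1 => clu V Λ E s (Sq V Λ E s b R j) (box b (j * R + R))

variable {V : Site d → ℝ} {Λ : Finset (Site d)} {E s : ℝ} {b : Site d} {R : ℕ}

theorem Sq_sub (j : ℕ) : Sq V Λ E s b R j ⊆ Sq V Λ E s b R (j + 1) := by
  intro y hy
  show y ∈ clu V Λ E s (Sq V Λ E s b R j) (box b (j * R + R))
  rw [mem_clu]
  exact Or.inl hy

theorem Sq_box (j : ℕ) : Sq V Λ E s b R j ⊆ box b (j * R) := by
  induction j with
  | zero =>
    intro y hy
    have h1 : y = b := Finset.mem_singleton.mp hy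
    rw [h1, mem_box, sd_self]
    exact Nat.zero_le _
  | succ j ih =>
    intro y hy
    have h1 : y ∈ clu V Λ E s (Sq V Λ E s b R j) (box b (j * R + R)) := hy
    have h2 : (j + 1) * R = j * R + R := by ring
    rw [h2]
    rw [mem_clu] at h1
    rcases h1 with h1 | h1
    · exact box_mono b (Nat.le_add_right _ _) (ih h1)
    · exact h1.1

theorem Sq_mem (j : ℕ) : b ∈ Sq V Λ E s b R j := by
  induction j with
  | zero => exact Finset.mem_singleton_self b
  | succ j ih => exact Sq_sub j ih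

theorem Sq_rch {J : ℕ} (j : ℕ) (hj : j ≤ J) :
    Sq V Λ E s b R j ⊆ rch V Λ E s b (J * R) j := by
  induction j with
  | zero => rw [rch_zero]; exact fun _ h => h
  | succ j ih =>
    rw [rch_succ]
    refine clu_mono (ih (by omega)) (box_mono b ?_)
    calc j * R + R = (j + 1) * R := by ring
      _ ≤ J * R := Nat.mul_le_mul_right R hj

/-- row EDC -/
theorem edc (hCut : CutStmt) (hEcl : EclStmt) : EdcStmt := by
  intro d M' J R₁ m _ V Λ E s z μ lam G b hd hμ hlm hE hlam hG hJ hR hM hF hΛ hdet hgr h2J hs hexp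
  obtain ⟨ω', hω', heq'⟩ := Pool.Agent.LE.H60Z.Cde.landscape (W := fun y => V (b + y)) hμ hF
  have hlam0 : 0 < lam := by
    by_contra h
    have := mul_nonpos_of_nonpos_of_nonneg (not_lt.mp h) hμ.le
    linarith only [hlm, this]
  have heq : ∀ x ∈ box b (J * R₁),
      (z - V x) * (fun x => ω' (x - b)) x - nb (fun x => ω' (x - b)) x = 1 / μ := by
    intro x hx
    have h1 : ∀ i, 2 * |(x - b) i| < (M' : ℤ) := by
      intro i
      have h3 : sd b x ≤ J * R₁ := mem_box.mp hx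
      have h4 : (b i - x i).natAbs ≤ sd b x :=
        Finset.le_sup (f := fun i => (b i - x i).natAbs) (Finset.mem_univ i)
      have h5 : |(x - b) i| = ((b i - x i).natAbs : ℤ) := by
        rw [Pi.sub_apply, Int.natCast_natAbs, abs_sub_comm]
      rw [h5]
      have h6 : (b i - x i).natAbs ≤ J * R₁ := h4.trans h3
      have h7 : 2 * (b i - x i).natAbs < M' := by omega
      exact_mod_cast h7
    have h2 := heq' (x - b) h1
    have h3 : b + (x - b) = x := by abel
    simp only [h3] at h2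
    show (z - V x) * ω' (x - b) - nb (fun x => ω' (x - b)) x = 1 / μ
    rw [← h2]
    congr 1
    unfold nb
    refine Finset.sum_congr rfl fun i _ => ?_
    have h4 : x + Pi.single i 1 - b = x - b + Pi.single i 1 := by abel
    have h5 : x - Pi.single i 1 - b = x - b - Pi.single i 1 := by abel
    simp only [h4, h5]
  -- pigeonhole
  have hpig : ∃ j, j < J ∧ (Sq V Λ E s b R₁ (j + 1)).card ≤ 2 * (Sq V Λ E s b R₁ j).card := by
    by_contra hcon
    push Not at hcon
    have h1 : ∀ j, j ≤ J → 2 ^ j ≤ (Sq V Λ E s b R₁ j).card := by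
      intro j
      induction j with
      | zero =>
        intro _
        have : (Sq V Λ E s b R₁ 0).card = 1 := Finset.card_singleton b
        rw [this]
        norm_num
      | succ j ih =>
        intro hj
        have h2 := ih (by omega)
        have h3 := hcon j (by omega)
        rw [pow_succ]
        omega
    have h2 := h1 J le_rfl
    have h3 := Finset.card_le_card (Sq_box (V := V) (Λ := Λ) (E := E) (s := s) (b := b) (R := R₁) J)
    rw [card_box] at h3
    omega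
  obtain ⟨j, hjJ, hj⟩ := hpig
  have hle : j * R₁ + R₁ ≤ J * R₁ := by
    calc j * R₁ + R₁ = (j + 1) * R₁ := by ring
      _ ≤ J * R₁ := Nat.mul_le_mul_right R₁ hjJ
  have hle' : ((j * R₁ + R₁ : ℕ) : ℝ) ≤ ((J * R₁ : ℕ) : ℝ) := by exact_mod_cast hle
  have h0 : (0 : ℝ) ≤ ((j * R₁ + R₁ : ℕ) : ℝ) := Nat.cast_nonneg _
  have hd' : (1 : ℝ) ≤ d := by exact_mod_cast hd
  have hm0 : (0 : ℝ) ≤ (m : ℝ) := Nat.cast_nonneg m
  have hden : (1 : ℝ) ≤ 50 * d * (2 * (m : ℝ) + 1) := by nlinarith only [hd']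
  have hden0 : (0 : ℝ) < 50 * d * (2 * (m : ℝ) + 1) := by linarith only [hden]
  obtain ⟨χ, ψ, e, hEC⟩ := hCut d V (fun x => ω' (x - b)) Λ (Sq V Λ E s b R₁ j) b (j * R₁) R₁
    z E lam (1 / (50 * d * (2 * (m : ℝ) + 1))) (1 / μ) s G hd (fun x => hω' _)
    (by positivity) (by rw [div_le_iff₀ hμ]; exact hlm)
    (fun x hx => heq x (box_mono b hle hx)) (by positivity)
    (by rw [div_le_one hden0]; exact hden) hE ⟨b, Sq_mem j⟩ (Sq_box j)
    (fun x hx => hΛ (box_mono b (by omega) hx)) hdet hG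
    (fun x hx y hy => hgr x (box_mono b (by omega) hx) y (box_mono b (by omega) hy)) hj
    (by
      refine le_trans (mul_le_mul_of_nonneg_left (pow_le_pow_left₀ (by positivity) ?_ _)
        (by norm_num)) hs
      linarith only [hle'])
    (by
      have h3 : (2 * ((j * R₁ + R₁ : ℕ) : ℝ) + 3) ^ (2 * d) ≤
          (2 * ((J * R₁ : ℕ) : ℝ) + 3) ^ (2 * d) :=
        pow_le_pow_left₀ (by positivity) (by linarith only [hle']) _
      have h4 : 300 * d * (2 * ((j * R₁ + R₁ : ℕ) : ℝ) + 3) ^ (2 * d) * G ≤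
          300 * d * (2 * ((J * R₁ : ℕ) : ℝ) + 3) ^ (2 * d) * G := by
        refine mul_le_mul_of_nonneg_right (mul_le_mul_of_nonneg_left h3 (by positivity))
          (by linarith only [hG])
      refine h4.trans (hexp.trans (le_of_eq ?_))
      congr 1
      rw [div_mul_eq_mul_div, one_mul])
  have h5 := hEcl d V _ χ ψ e (Sq V Λ E s b R₁ j) _ b (j * R₁ + R₁) m z E lam
    (1 / (50 * d * (2 * (m : ℝ) + 1))) (1 / μ) hd hEC hlam
    (by
      have h6 : (0 : ℝ) < 2 * (m : ℝ) + 1 := by linarith only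
      rw [div_mul_eq_mul_div, one_mul, div_le_div_iff₀ hden0 (by linarith only [hd'])]
      linarith only)
  refine h5.trans (Nat.mul_le_mul_left 4 (Finset.card_le_card ?_))
  exact (Sq_rch (J := J) (j + 1) hjJ).trans (rch_mono hjJ)

end Pool.Agent.LE.CL.H70
end
end -- Pool.Agent.Helper70_LSC.EDC
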