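import Pool.Agent.Helper12_MEB.B056

/-!
# Merged copies (generated) of the modules

* `Pool.Agent.Helper19_LSH.PCR`
* `Pool.Agent.Helper18_LSC.FKI`
* `Pool.Agent.Helper45_LSC.CUT`
* `Pool.Agent.Helper45_LSC.PEN`
* `Pool.Agent.Helper70_LSC.ENB`
* `Pool.Agent.Helper77_LSC.ENI`
* `Pool.Agent.Helper82_LSC.SBP`
* `Pool.Agent.Helper56_LSH.LCI`
-/

set_option autoImplicit false

section -- Pool.Agent.Helper19_LSH.PCR

/-!
# PCR: the Poincare inequality on cubes of `ℤ^d`
-/

set_option autoImplicit false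

open scoped BigOperators

noncomputable section

namespace Pool.Agent.LE.H19Z

open Pool.Agent.LE Pool.Agent.Anderson Pool.Agent.Loc

theorem mem_bx {d : ℕ} (p x : Site d) (s : ℕ) :
    x ∈ box p s ↔ ∀ i, p i - s ≤ x i ∧ x i ≤ p i + s := by
  unfold box
  rw [Finset.mem_Icc, Pi.le_def, Pi.le_def]
  constructor
  · intro h i
    exact ⟨h.1 i, h.2 i⟩
  · intro h
    exact ⟨fun i => (h i).1, fun i => (h i).2⟩

theorem card_bx {d : ℕ} (p : Site d) (s : ℕ) :
    ((box p s).card : ℝ) = (2 * (s : ℝ) + 1) ^ d := by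
  unfold box
  rw [Pi.card_Icc]
  have h : ∀ i : Fin d, (Finset.Icc (p i - (s : ℤ)) (p i + s)).card = 2 * s + 1 := by
    intro i
    rw [Int.card_Icc]
    omega
  rw [Finset.prod_congr rfl fun i _ => h i, Finset.prod_const, Finset.card_univ, Fintype.card_fin]
  push_cast
  rfl

/-- the line energy bound -/
theorem line_bound (g : ℤ → ℝ) (a : ℤ) (n : ℕ) (b c : ℤ) (hb : a ≤ b) (hb' : b ≤ a + n)
    (hc : a ≤ c) (hc' : c ≤ a + n) :
    (g b - g c) ^ 2 ≤ n * ∑ k ∈ Finset.Ico a (a + n), (g (k + 1) - g k) ^ 2 := by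
  wlog hbc : c ≤ b generalizing b c with H
  · have := H c b hc hc' hb hb' (by omega)
    rw [← neg_sub (g b) (g c), neg_sq] at this
    exact this
  obtain ⟨m, rfl⟩ := Int.le.dest hbc
  have htel : g (c + m) - g c = ∑ k ∈ Finset.range m, (g (c + k + 1) - g (c + k)) := by
    have := Finset.sum_range_sub (fun k : ℕ => g (c + k)) m
    rw [Nat.cast_zero, add_zero] at this
    rw [← this]
    refine Finset.sum_congr rfl fun k _ => ?_
    rw [Nat.cast_add, Nat.cast_one, ← add_assoc]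
  rw [htel]
  have h1 := sq_sum_le_card_mul_sum_sq (s := Finset.range m)
    (f := fun k : ℕ => g (c + k + 1) - g (c + k))
  rw [Finset.card_range] at h1
  refine h1.trans ?_
  have hmn : (m : ℝ) ≤ n := by
    have : (m : ℤ) ≤ n := by omega
    exact_mod_cast this
  have h2 : ∑ k ∈ Finset.range m, (g (c + k + 1) - g (c + k)) ^ 2 ≤
      ∑ k ∈ Finset.Ico a (a + n), (g (k + 1) - g k) ^ 2 := by
    have h3 : ∑ k ∈ Finset.range m, (g (c + k + 1) - g (c + k)) ^ 2 =
        ∑ k ∈ (Finset.range m).image (fun k : ℕ => c + (k : ℤ)), (g (k + 1) - g k) ^ 2 := by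
      rw [Finset.sum_image]
      intro x _ y _ hxy
      simpa using hxy
    rw [h3]
    refine Finset.sum_le_sum_of_subset_of_nonneg ?_ fun _ _ _ => sq_nonneg _
    intro k hk
    rw [Finset.mem_image] at hk
    obtain ⟨j, hj, rfl⟩ := hk
    rw [Finset.mem_range] at hj
    rw [Finset.mem_Ico]
    constructor
    · omega
    · omega
  have h4 : 0 ≤ ∑ k ∈ Finset.range m, (g (c + k + 1) - g (c + k)) ^ 2 :=
    Finset.sum_nonneg fun _ _ => sq_nonneg _
  exact mul_le_mul hmn h2 h4 (Nat.cast_nonneg n)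

/-- exchange of one coordinate -/
theorem swap_one {d : ℕ} (p : Site d) (s : ℕ) (i : Fin d) (G : Site d → ℤ → ℝ) :
    ∑ x ∈ box p s, ∑ c ∈ Finset.Icc (p i - (s : ℤ)) (p i + s), G (Function.update x i c) (x i) =
      ∑ x ∈ box p s, ∑ c ∈ Finset.Icc (p i - (s : ℤ)) (p i + s), G x c := by
  rw [← Finset.sum_product', ← Finset.sum_product']
  refine Finset.sum_nbij' (fun z => (Function.update z.1 i z.2, z.1 i))
    (fun z => (Function.update z.1 i z.2, z.1 i)) ?_ ?_ ?_ ?_ ?_
  · rintro ⟨x, c⟩ h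
    rw [Finset.mem_product, mem_bx, Finset.mem_Icc] at h
    rw [Finset.mem_product, mem_bx, Finset.mem_Icc]
    refine ⟨fun j => ?_, h.1 i⟩
    by_cases hj : j = i
    · subst hj
      simpa using h.2
    · simpa [Function.update_of_ne hj] using h.1 j
  · rintro ⟨x, c⟩ h
    rw [Finset.mem_product, mem_bx, Finset.mem_Icc] at h
    rw [Finset.mem_product, mem_bx, Finset.mem_Icc]
    refine ⟨fun j => ?_, h.1 i⟩
    by_cases hj : j = i
    · subst hj
      simpa using h.2
    · simpa [Function.update_of_ne hj] using h.1 j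
  · rintro ⟨x, c⟩ _
    simp
  · rintro ⟨x, c⟩ _
    simp
  · rintro ⟨x, c⟩ _
    simp

/-- exchange of the coordinates before `k` -/
def mix {d : ℕ} (k : ℕ) (x y : Site d) : Site d := fun j => if (j : ℕ) < k then y j else x j

theorem swap_mix {d : ℕ} (p : Site d) (s k : ℕ) (G : Site d → Site d → ℝ) :
    ∑ x ∈ box p s, ∑ y ∈ box p s, G (mix k x y) (mix k y x) =
      ∑ x ∈ box p s, ∑ y ∈ box p s, G x y := by
  rw [← Finset.sum_product', ← Finset.sum_product']
  have hm : ∀ z : Site d × Site d, z ∈ box p s ×ˢ box p s →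
      (mix k z.1 z.2, mix k z.2 z.1) ∈ box p s ×ˢ box p s := by
    rintro ⟨x, y⟩ h
    rw [Finset.mem_product, mem_bx, mem_bx] at h
    rw [Finset.mem_product, mem_bx, mem_bx]
    refine ⟨fun j => ?_, fun j => ?_⟩
    · by_cases hj : (j : ℕ) < k
      · simpa [mix, hj] using h.2 j
      · simpa [mix, hj] using h.1 j
    · by_cases hj : (j : ℕ) < k
      · simpa [mix, hj] using h.1 j
      · simpa [mix, hj] using h.2 j
  have hi : ∀ z : Site d × Site d, (mix k (mix k z.1 z.2) (mix k z.2 z.1),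
      mix k (mix k z.2 z.1) (mix k z.1 z.2)) = z := by
    rintro ⟨x, y⟩
    refine Prod.ext (funext fun j => ?_) (funext fun j => ?_)
    · by_cases hj : (j : ℕ) < k
      · simp [mix, hj]
      · simp [mix, hj]
    · by_cases hj : (j : ℕ) < k
      · simp [mix, hj]
      · simp [mix, hj]
  refine Finset.sum_nbij' (fun z => (mix k z.1 z.2, mix k z.2 z.1))
    (fun z => (mix k z.1 z.2, mix k z.2 z.1)) hm hm (fun z _ => hi z) (fun z _ => hi z) ?_
  intro z _
  rfl

/-- the energy in the direction `i` -/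
def egi {d : ℕ} (h : Site d → ℝ) (p : Site d) (s : ℕ) (i : Fin d) : ℝ :=
  ∑ x ∈ box p s, if x + Pi.single i 1 ∈ box p s then (h (x + Pi.single i 1) - h x) ^ 2 else 0

theorem eg_eq {d : ℕ} (h : Site d → ℝ) (p : Site d) (s : ℕ) :
    eg h p s = ∑ i, egi h p s i := by
  unfold eg egi
  rw [Finset.sum_comm]

theorem line_sum {d : ℕ} (f : Site d → ℝ) (p : Site d) (s : ℕ) (i : Fin d) :
    ∑ x ∈ box p s, ∑ c ∈ Finset.Ico (p i - (s : ℤ)) (p i + s),
      (f (Function.update x i (c + 1)) - f (Function.update x i c)) ^ 2 =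
      (2 * (s : ℝ) + 1) * egi f p s i := by
  have h1 := swap_one p s i (fun x _ =>
    if x + Pi.single i 1 ∈ box p s then (f (x + Pi.single i 1) - f x) ^ 2 else 0)
  have h2 : ∑ x ∈ box p s, ∑ c ∈ Finset.Icc (p i - (s : ℤ)) (p i + s),
      (if x + Pi.single i 1 ∈ box p s then (f (x + Pi.single i 1) - f x) ^ 2 else 0) =
      (2 * (s : ℝ) + 1) * egi f p s i := by
    unfold egi
    rw [Finset.mul_sum]
    refine Finset.sum_congr rfl fun x _ => ?_
    rw [Finset.sum_const, Int.card_Icc, nsmul_eq_mul]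
    have : ((p i + (s : ℤ) + 1 - (p i - s)).toNat : ℝ) = 2 * (s : ℝ) + 1 := by
      have h3 : (p i + (s : ℤ) + 1 - (p i - s)).toNat = 2 * s + 1 := by omega
      rw [h3]
      push_cast
      ring
    rw [this]
  rw [← h2, ← h1]
  refine Finset.sum_congr rfl fun x hx => ?_
  rw [mem_bx] at hx
  have hsub : Finset.Ico (p i - (s : ℤ)) (p i + s) ⊆ Finset.Icc (p i - (s : ℤ)) (p i + s) :=
    Finset.Ico_subset_Icc_self
  rw [← Finset.sum_subset hsub]
  · refine Finset.sum_congr rfl fun c hc => ?_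
    rw [Finset.mem_Ico] at hc
    have he : Function.update x i c + Pi.single i 1 = Function.update x i (c + 1) := by
      funext j
      by_cases hj : j = i
      · subst hj
        simp
      · simp [Function.update_of_ne hj, Pi.single_eq_of_ne hj]
    have hm : Function.update x i c + Pi.single i 1 ∈ box p s := by
      rw [he, mem_bx]
      intro j
      by_cases hj : j = i
      · subst hj
        rw [Function.update_self]
        constructor
        · omega
        · omega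
      · rw [Function.update_of_ne hj]
        exact hx j
    rw [if_pos hm, he]
  · intro c hc hc'
    rw [Finset.mem_Icc] at hc
    rw [Finset.mem_Ico] at hc'
    have hceq : c = p i + s := by omega
    have hm : ¬ (Function.update x i c + Pi.single i 1 ∈ box p s) := by
      rw [mem_bx]
      intro h
      have := (h i).2
      simp only [Pi.add_apply, Function.update_self, Pi.single_eq_same] at this
      omega
    rw [if_neg hm]

theorem pcr : PcrStmt := by
  intro d f p s hd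
  set n : ℝ := 2 * (s : ℝ) + 1 with hn
  have hn0 : 0 < n := by positivity
  have hN : (0 : ℝ) < n ^ d := by positivity
  have hcard := card_bx p s
  rw [← hn] at hcard
  -- variance by pairs
  have h1 : ∀ x, (f x - av f p s) ^ 2 ≤ (1 / n ^ d) * ∑ y ∈ box p s, (f y - f x) ^ 2 := by
    intro x
    have e1 : f x - av f p s = -((∑ y ∈ box p s, (f y - f x)) / n ^ d) := by
      rw [Finset.sum_sub_distrib, Finset.sum_const, nsmul_eq_mul, hcard]
      unfold av
      field_simp
      ring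
    have e2 := sq_sum_le_card_mul_sum_sq (s := box p s) (f := fun y => f y - f x)
    rw [hcard] at e2
    rw [e1, neg_sq, div_pow, div_le_iff₀ (by positivity)]
    refine e2.trans (le_of_eq ?_)
    field_simp
  have h2 : ∑ x ∈ box p s, (f x - av f p s) ^ 2 ≤
      (1 / n ^ d) * ∑ x ∈ box p s, ∑ y ∈ box p s, (f y - f x) ^ 2 := by
    rw [Finset.mul_sum]
    exact Finset.sum_le_sum fun x _ => h1 x
  -- telescoping
  have h3 : ∀ x y, (f y - f x) ^ 2 ≤ d * ∑ i : Fin d,
      (f (mix (i + 1) x y) - f (mix i x y)) ^ 2 := by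
    intro x y
    have e1 : f y - f x = ∑ i ∈ Finset.range d, (f (mix (i + 1) x y) - f (mix i x y)) := by
      rw [Finset.sum_range_sub (fun i => f (mix i x y)) d]
      have a1 : mix d x y = y := by
        funext j
        simp [mix, j.isLt]
      have a2 : mix 0 x y = x := by
        funext j
        simp [mix]
      rw [a1, a2]
    rw [e1]
    have e2 := sq_sum_le_card_mul_sum_sq (s := Finset.range d)
      (f := fun i => f (mix (i + 1) x y) - f (mix i x y))
    rw [Finset.card_range, Finset.sum_range (fun i => (f (mix (i + 1) x y) - f (mix i x y)) ^ 2)]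
      at e2
    exact e2
  have h4 : ∀ i : Fin d, ∑ x ∈ box p s, ∑ y ∈ box p s,
      (f (mix (i + 1) x y) - f (mix i x y)) ^ 2 ≤ n ^ 2 * n ^ d * egi f p s i := by
    intro i
    have e1 : ∀ x y : Site d, mix ((i : ℕ) + 1) x y =
        Function.update (mix i x y) i ((mix i y x) i) := by
      intro x y
      funext j
      by_cases hj : j = i
      · subst hj
        simp [mix]
      · rw [Function.update_of_ne hj]
        have hj' : (j : ℕ) ≠ i := fun h => hj (Fin.ext h)
        by_cases hlt : (j : ℕ) < i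
        · have : (j : ℕ) < i + 1 := by omega
          simp [mix, hlt, this]
        · have : ¬ ((j : ℕ) < i + 1) := by omega
          simp [mix, hlt, this]
    have e2 := swap_mix p s i (fun x y => (f (Function.update x i (y i)) - f x) ^ 2)
    have e3 : ∑ x ∈ box p s, ∑ y ∈ box p s, (f (mix (i + 1) x y) - f (mix i x y)) ^ 2 =
        ∑ x ∈ box p s, ∑ y ∈ box p s, (f (Function.update x i (y i)) - f x) ^ 2 := by
      rw [← e2]
      refine Finset.sum_congr rfl fun x _ => Finset.sum_congr rfl fun y _ => ?_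
      rw [e1]
    rw [e3]
    have e4 : ∀ x ∈ box p s, ∀ y ∈ box p s, (f (Function.update x i (y i)) - f x) ^ 2 ≤
        n * ∑ c ∈ Finset.Ico (p i - (s : ℤ)) (p i + s),
          (f (Function.update x i (c + 1)) - f (Function.update x i c)) ^ 2 := by
      intro x hx y hy
      rw [mem_bx] at hx hy
      have b := line_bound (fun c => f (Function.update x i c)) (p i - s) (2 * s) (y i) (x i)
        (hy i).1 (by have := (hy i).2; push_cast; omega) (hx i).1
        (by have := (hx i).2; push_cast; omega)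
      simp only [Function.update_eq_self] at b
      have hI : p i - (s : ℤ) + ((2 * s : ℕ) : ℤ) = p i + s := by push_cast; ring
      rw [hI] at b
      refine b.trans ?_
      refine mul_le_mul_of_nonneg_right ?_ (Finset.sum_nonneg fun _ _ => sq_nonneg _)
      rw [hn]
      push_cast
      linarith
    calc ∑ x ∈ box p s, ∑ y ∈ box p s, (f (Function.update x i (y i)) - f x) ^ 2
        ≤ ∑ x ∈ box p s, ∑ _y ∈ box p s, n * ∑ c ∈ Finset.Ico (p i - (s : ℤ)) (p i + s),
          (f (Function.update x i (c + 1)) - f (Function.update x i c)) ^ 2 :=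
          Finset.sum_le_sum fun x hx => Finset.sum_le_sum fun y hy => e4 x hx y hy
      _ = n ^ d * (n * ∑ x ∈ box p s, ∑ c ∈ Finset.Ico (p i - (s : ℤ)) (p i + s),
          (f (Function.update x i (c + 1)) - f (Function.update x i c)) ^ 2) := by
          rw [Finset.mul_sum, Finset.mul_sum]
          refine Finset.sum_congr rfl fun x _ => ?_
          rw [Finset.sum_const, nsmul_eq_mul, hcard]
      _ = n ^ 2 * n ^ d * egi f p s i := by
          rw [line_sum, ← hn]
          ring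
  have h5 : ∑ x ∈ box p s, ∑ y ∈ box p s, (f y - f x) ^ 2 ≤ d * (n ^ 2 * n ^ d * eg f p s) := by
    calc ∑ x ∈ box p s, ∑ y ∈ box p s, (f y - f x) ^ 2
        ≤ ∑ x ∈ box p s, ∑ y ∈ box p s, (d * ∑ i : Fin d,
          (f (mix (i + 1) x y) - f (mix i x y)) ^ 2) :=
          Finset.sum_le_sum fun x _ => Finset.sum_le_sum fun y _ => h3 x y
      _ = d * ∑ i : Fin d, ∑ x ∈ box p s, ∑ y ∈ box p s,
          (f (mix (i + 1) x y) - f (mix i x y)) ^ 2 := by
          simp only [← Finset.mul_sum]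
          congr 1
          rw [Finset.sum_comm]
          have : ∀ x, ∑ y ∈ box p s, ∑ i : Fin d, (f (mix (i + 1) x y) - f (mix i x y)) ^ 2 =
              ∑ i : Fin d, ∑ y ∈ box p s, (f (mix (i + 1) x y) - f (mix i x y)) ^ 2 :=
            fun x => Finset.sum_comm
          rw [Finset.sum_comm]
          rw [Finset.sum_congr rfl fun x _ => this x, Finset.sum_comm]
      _ ≤ d * (n ^ 2 * n ^ d * eg f p s) := by
          refine mul_le_mul_of_nonneg_left ?_ (Nat.cast_nonneg d)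
          rw [eg_eq, Finset.mul_sum]
          exact Finset.sum_le_sum fun i _ => h4 i
  refine h2.trans ?_
  calc (1 / n ^ d) * ∑ x ∈ box p s, ∑ y ∈ box p s, (f y - f x) ^ 2
      ≤ (1 / n ^ d) * (d * (n ^ 2 * n ^ d * eg f p s)) :=
        mul_le_mul_of_nonneg_left h5 (by positivity)
    _ = d * n ^ 2 * eg f p s := by
        field_simp

end Pool.Agent.LE.H19Z
end
end -- Pool.Agent.Helper19_LSH.PCR

section -- Pool.Agent.Helper18_LSC.FKI

/-!
# FKI: the Faber-Krahn inequality with an error (squad LSC, MP_1906c1_mp)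
-/

set_option autoImplicit false

open scoped BigOperators

noncomputable section

namespace Pool.Agent.LE.CL.H18

open Pool.Agent.Anderson Pool.Agent.Loc Pool.Agent.LE Pool.Agent.LE.H19Z Pool.Agent.LE.CL

theorem sum_le_of_zero {ι : Type} [DecidableEq ι] {s t : Finset ι} {F : ι → ℝ}
    (h0 : ∀ x, 0 ≤ F x) (h : ∀ x ∈ s, x ∉ t → F x = 0) : ∑ x ∈ s, F x ≤ ∑ x ∈ t, F x := by
  have h1 : ∑ x ∈ s with x ∈ t, F x = ∑ x ∈ s, F x := by
    refine Finset.sum_filter_of_ne ?_
    intro x hx hne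
    by_contra hxt
    exact hne (h x hx hxt)
  rw [← h1]
  refine Finset.sum_le_sum_of_subset_of_nonneg ?_ fun x _ _ => h0 x
  intro x hx
  exact (Finset.mem_filter.1 hx).2

/-- the inequality in one cube -/
theorem cell {d : ℕ} (φ : Site d → ℝ) (c : Site d) (m : ℕ) (C' : Finset (Site d)) (hd : 1 ≤ d)
    (hC : 4 * C'.card ≤ (2 * m + 1) ^ d) :
    ∑ x ∈ box c m, φ x ^ 2 ≤ 2 * d * (2 * (m : ℝ) + 1) ^ 2 * eg φ c m +
      4 * (∑ x ∈ box c m \ C', |φ x|) ^ 2 := by
  classical
  obtain ⟨N, hN⟩ : ∃ N : ℝ, N = (2 * (m : ℝ) + 1) ^ d := ⟨_, rfl⟩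
  have hN1 : 1 ≤ N := by
    rw [hN]
    refine one_le_pow₀ ?_
    have : (0 : ℝ) ≤ m := Nat.cast_nonneg m
    linarith only
  have hN0 : 0 < N := by linarith only [hN1]
  have hcard := card_bx c m
  rw [← hN] at hcard
  have hC' : 4 * (C'.card : ℝ) ≤ N := by
    rw [hN]
    exact_mod_cast hC
  obtain ⟨S, hS⟩ : ∃ S : ℝ, S = ∑ x ∈ box c m, φ x := ⟨_, rfl⟩
  obtain ⟨A, hA⟩ : ∃ A : ℝ, A = av φ c m := ⟨_, rfl⟩
  have hSA : S = N * A := by
    rw [hA, av, ← hS, ← hN]
    field_simp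
  have hp := pcr d φ c m hd
  rw [← hA] at hp
  have hvar : ∑ x ∈ box c m, (φ x - A) ^ 2 = ∑ x ∈ box c m, φ x ^ 2 - N * A ^ 2 := by
    have e1 : ∀ x ∈ box c m, (φ x - A) ^ 2 = φ x ^ 2 - 2 * A * φ x + A ^ 2 := fun x _ => by ring
    rw [Finset.sum_congr rfl e1, Finset.sum_add_distrib, Finset.sum_sub_distrib,
      ← Finset.mul_sum, ← hS, Finset.sum_const, nsmul_eq_mul, hcard, hSA]
    ring
  obtain ⟨S₁, hS₁⟩ : ∃ S₁ : ℝ, S₁ = ∑ x ∈ box c m ∩ C', φ x := ⟨_, rfl⟩
  obtain ⟨S₂, hS₂⟩ : ∃ S₂ : ℝ, S₂ = ∑ x ∈ box c m \ C', φ x := ⟨_, rfl⟩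
  obtain ⟨B, hB⟩ : ∃ B : ℝ, B = ∑ x ∈ box c m \ C', |φ x| := ⟨_, rfl⟩
  obtain ⟨X, hX⟩ : ∃ X : ℝ, X = ∑ x ∈ box c m, φ x ^ 2 := ⟨_, rfl⟩
  have hX0 : 0 ≤ X := by
    rw [hX]
    exact Finset.sum_nonneg fun _ _ => sq_nonneg _
  have hsplit : S = S₁ + S₂ := by
    rw [hS, hS₁, hS₂, Finset.sum_inter_add_sum_sdiff]
  have h2 : S₂ ^ 2 ≤ B ^ 2 := by
    have h3 : |S₂| ≤ B := by
      rw [hS₂, hB]
      exact Finset.abs_sum_le_sum_abs _ _
    rw [← sq_abs S₂]
    exact pow_le_pow_left₀ (abs_nonneg _) h3 2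
  have h1 : S₁ ^ 2 ≤ N / 4 * X := by
    have e1 := sq_sum_le_card_mul_sum_sq (s := box c m ∩ C') (f := φ)
    rw [← hS₁] at e1
    have e2 : ((box c m ∩ C').card : ℝ) ≤ C'.card := by
      exact_mod_cast Finset.card_le_card Finset.inter_subset_right
    have e3 : ∑ x ∈ box c m ∩ C', φ x ^ 2 ≤ X := by
      rw [hX]
      exact Finset.sum_le_sum_of_subset_of_nonneg Finset.inter_subset_left
        fun _ _ _ => sq_nonneg _
    have e4 : ((box c m ∩ C').card : ℝ) ≤ N / 4 := by linarith only [hC', e2]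
    refine e1.trans ?_
    exact mul_le_mul e4 e3 (Finset.sum_nonneg fun _ _ => sq_nonneg _) (by positivity)
  have hNA : N * (N * A ^ 2) ≤ 2 * (N / 4 * X) + 2 * B ^ 2 := by
    have e1 : N * (N * A ^ 2) = S ^ 2 := by rw [hSA]; ring
    rw [e1, hsplit]
    nlinarith only [sq_nonneg (S₁ - S₂), h2, h1]
  have hNA2 : N * A ^ 2 ≤ 1 / 2 * X + 2 * B ^ 2 := by
    by_contra hcon
    rw [not_le] at hcon
    have e1 : N * (1 / 2 * X + 2 * B ^ 2) < N * (N * A ^ 2) := mul_lt_mul_of_pos_left hcon hN0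
    have e2 : 2 * B ^ 2 ≤ N * (2 * B ^ 2) := le_mul_of_one_le_left (by positivity) hN1
    nlinarith only [hNA, e1, e2]
  rw [← hX] at hvar
  rw [hvar] at hp
  rw [← hX, ← hB]
  linarith only [hp, hNA2]

/-- the index of the cube which contains `x` -/
def cix {d : ℕ} (m : ℕ) (x : Site d) : Site d := fun i => (x i + m) / (2 * m + 1)

/-- the centre of a cube -/
def cen {d : ℕ} (m : ℕ) (p : Site d) : Site d := fun i => (2 * m + 1) * p i

theorem mem_cen {d : ℕ} (m : ℕ) (p x : Site d) : x ∈ box (cen m p) m ↔ cix m x = p := by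
  rw [mem_bx]
  have hpos : (0 : ℤ) < 2 * (m : ℤ) + 1 := by positivity
  constructor
  · intro h
    funext i
    have h1 := (h i).1
    have h2 := (h i).2
    unfold cen at h1 h2
    unfold cix
    have e : x i + m = (x i + m - (2 * m + 1) * p i) + (2 * m + 1) * p i := by ring
    rw [e, Int.add_mul_ediv_left _ _ hpos.ne', Int.ediv_eq_zero_of_lt]
    · ring
    · linarith
    · linarith
  · intro h i
    have h1 : (x i + m) / (2 * m + 1) = p i := by
      rw [← h]
      rfl
    have h2 := Int.emod_add_mul_ediv (x i + m) (2 * m + 1)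
    have h3 := Int.emod_nonneg (x i + m) hpos.ne'
    have h4 := Int.emod_lt_of_pos (x i + m) hpos
    rw [h1] at h2
    unfold cen
    constructor
    · linarith
    · linarith

theorem fki : FkiStmt := by
  intro d φ b r m C' hd hφ hC
  classical
  obtain ⟨P, hP⟩ : ∃ P : Finset (Site d), P = (box b r).image (cix m) := ⟨_, rfl⟩
  have hdis : (P : Set (Site d)).PairwiseDisjoint fun p => box (cen m p) m := by
    intro p _ q _ hpq
    rw [Function.onFun, Finset.disjoint_left]
    intro x hx hx'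
    rw [mem_cen] at hx hx'
    exact hpq (hx.symm.trans hx')
  have hdis' : (P : Set (Site d)).PairwiseDisjoint fun p => box (cen m p) m \ C' := by
    intro p hp q hq hpq
    exact Finset.disjoint_of_subset_left Finset.sdiff_subset
      (Finset.disjoint_of_subset_right Finset.sdiff_subset (hdis hp hq hpq))
  -- the squares
  have h1 : ∑ x ∈ box b r, φ x ^ 2 ≤ ∑ p ∈ P, ∑ x ∈ box (cen m p) m, φ x ^ 2 := by
    rw [← Finset.sum_biUnion hdis]
    refine Finset.sum_le_sum_of_subset_of_nonneg ?_ fun _ _ _ => sq_nonneg _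
    intro x hx
    rw [Finset.mem_biUnion]
    refine ⟨cix m x, ?_, (mem_cen m _ x).2 rfl⟩
    rw [hP]
    exact Finset.mem_image_of_mem _ hx
  -- the energy
  have h2 : ∑ p ∈ P, eg φ (cen m p) m ≤ gd φ (box b (r + 1)) := by
    have e1 : ∀ p ∈ P, eg φ (cen m p) m ≤
        ∑ x ∈ box (cen m p) m, ∑ i : Fin d, (φ (x + Pi.single i 1) - φ x) ^ 2 := by
      intro p _
      unfold eg
      refine Finset.sum_le_sum fun x _ => Finset.sum_le_sum fun i _ => ?_
      split_ifs
      · exact le_rfl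
      · exact sq_nonneg _
    refine (Finset.sum_le_sum e1).trans ?_
    rw [← Finset.sum_biUnion hdis]
    unfold gd
    refine sum_le_of_zero (fun x => Finset.sum_nonneg fun _ _ => sq_nonneg _) ?_
    intro x _ hx
    refine Finset.sum_eq_zero fun i _ => ?_
    have a1 : x ∉ box b r := by
      intro h
      apply hx
      rw [mem_bx] at h ⊢
      intro j
      have := h j
      push_cast
      constructor
      · linarith only [this.1]
      · linarith only [this.2]
    have a2 : x + Pi.single i 1 ∉ box b r := by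
      intro h
      apply hx
      rw [mem_bx] at h ⊢
      intro j
      have h3 := h j
      have h4 : (0 : ℤ) ≤ (Pi.single i (1 : ℤ) : Fin d → ℤ) j ∧
          (Pi.single i (1 : ℤ) : Fin d → ℤ) j ≤ 1 := by
        by_cases hj : j = i
        · subst hj
          rw [Pi.single_eq_same]
          exact ⟨zero_le_one, le_rfl⟩
        · rw [Pi.single_eq_of_ne hj]
          exact ⟨le_rfl, zero_le_one⟩
      rw [Pi.add_apply] at h3
      push_cast
      constructor
      · linarith only [h3.1, h4.1, h4.2]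
      · linarith only [h3.2, h4.1, h4.2]
    rw [hφ _ a1, hφ _ a2]
    norm_num
  -- the error
  obtain ⟨f, hf⟩ : ∃ f : Site d → ℝ, f = fun p => ∑ x ∈ box (cen m p) m \ C', |φ x| := ⟨_, rfl⟩
  have hf0 : ∀ p, 0 ≤ f p := by
    intro p
    rw [hf]
    exact Finset.sum_nonneg fun _ _ => abs_nonneg _
  have h3 : ∑ p ∈ P, f p ≤ ∑ x ∈ box b r \ C', |φ x| := by
    rw [hf, ← Finset.sum_biUnion hdis']
    refine sum_le_of_zero (fun x => abs_nonneg _) ?_
    intro x hx hx'
    rw [Finset.mem_biUnion] at hx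
    obtain ⟨p, _, hxp⟩ := hx
    rw [Finset.mem_sdiff] at hxp hx'
    have : x ∉ box b r := fun h => hx' ⟨h, hxp.2⟩
    rw [hφ x this, abs_zero]
  have h4 : ∑ p ∈ P, f p ^ 2 ≤ (∑ x ∈ box b r \ C', |φ x|) ^ 2 := by
    have e1 : ∑ p ∈ P, f p ^ 2 ≤ (∑ p ∈ P, f p) ^ 2 := by
      rw [sq (∑ p ∈ P, f p), Finset.sum_mul]
      refine Finset.sum_le_sum fun p hp => ?_
      rw [sq]
      exact mul_le_mul_of_nonneg_left (Finset.single_le_sum (fun q _ => hf0 q) hp) (hf0 p)
    exact e1.trans (pow_le_pow_left₀ (Finset.sum_nonneg fun p _ => hf0 p) h3 2)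
  have h5 : ∑ p ∈ P, ∑ x ∈ box (cen m p) m, φ x ^ 2 ≤
      2 * d * (2 * (m : ℝ) + 1) ^ 2 * ∑ p ∈ P, eg φ (cen m p) m + 4 * ∑ p ∈ P, f p ^ 2 := by
    rw [Finset.mul_sum, Finset.mul_sum, ← Finset.sum_add_distrib]
    refine Finset.sum_le_sum fun p _ => ?_
    rw [hf]
    exact cell φ (cen m p) m C' hd hC
  have h6 : 0 ≤ 2 * (d : ℝ) * (2 * (m : ℝ) + 1) ^ 2 := by positivity
  have h7 := mul_le_mul_of_nonneg_left h2 h6
  linarith only [h1, h4, h5, h7]

end Pool.Agent.LE.CL.H18
end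
end -- Pool.Agent.Helper18_LSC.FKI

section -- Pool.Agent.Helper45_LSC.CUT

/-!
# CUT: the equation for the weighted, truncated Green function
-/

set_option autoImplicit false

open MeasureTheory ProbabilityTheory Function Filter

open scoped ENNReal BigOperators Topology NNReal

noncomputable section

namespace Pool.Agent.LE.CL.H45

open Pool.Agent.Anderson Pool.Agent.Loc Pool.Agent.Mob Pool.Agent.Helper54.Bal
  Pool.Agent.Helper96.EXP Pool.Agent.BED

variable {d : ℕ}

/-- the Green function applied to `ω 1_C` -/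
def phi (V ω : Site d → ℝ) (Λ C : Finset (Site d)) (E : ℝ) (y : Site d) : ℝ :=
  ∑ x ∈ C, gr V Λ E y x * ω x

/-- the weight -/
def wt (b : Site d) (r₀ : ℕ) (κ : ℝ) (y : Site d) : ℝ :=
  Real.exp (-(κ * ((sd b y - r₀ : ℕ) : ℝ)))

theorem phi_eq {V ω : Site d → ℝ} {Λ C : Finset (Site d)} {E : ℝ} (hC : C ⊆ Λ)
    (hdet : (RM V Λ E).det ≠ 0) {y : Site d} (hy : y ∈ Λ) :
    (E - V y) * phi V ω Λ C E y - nb (phi V ω Λ C E) y = if y ∈ C then ω y else 0 := by
  classical
  have hout : ∀ w, w ∉ Λ → phi V ω Λ C E w = 0 := by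
    intro w hw
    unfold phi
    refine Finset.sum_eq_zero fun x _ => ?_
    have : gr V Λ E w x = 0 := by
      unfold gr
      rw [dif_neg fun hh => hw hh.1]
    rw [this, zero_mul]
  unfold nb
  rw [H73.sum_nb Λ (phi V ω Λ C E) hout y]
  have h1 : ∀ x ∈ C, (E - V y) * (gr V Λ E y x * ω x) -
      ∑ w ∈ Λ, hop y w * (gr V Λ E w x * ω x) = if y = x then ω x else 0 := by
    intro x hx
    have h2 := rm_mul_gr hdet hy (hC hx)
    have h3 : ∀ w ∈ Λ, rm V E y w * gr V Λ E w x =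
        (if y = w then (E - V y) * gr V Λ E w x else 0) - hop y w * gr V Λ E w x := by
      intro w _
      rw [rm, sub_mul]
      congr 1
      split_ifs <;> ring
    rw [Finset.sum_congr rfl h3, Finset.sum_sub_distrib, Finset.sum_ite_eq, if_pos hy] at h2
    have h4 : ∑ w ∈ Λ, hop y w * (gr V Λ E w x * ω x) =
        (∑ w ∈ Λ, hop y w * gr V Λ E w x) * ω x := by
      rw [Finset.sum_mul]
      refine Finset.sum_congr rfl fun w _ => by ring
    rw [h4, ← mul_assoc, ← sub_mul, h2]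
    split_ifs <;> ring
  have h5 : ∑ w ∈ Λ, hop y w * phi V ω Λ C E w =
      ∑ x ∈ C, ∑ w ∈ Λ, hop y w * (gr V Λ E w x * ω x) := by
    rw [Finset.sum_comm]
    refine Finset.sum_congr rfl fun w _ => ?_
    unfold phi
    rw [Finset.mul_sum]
  rw [h5]
  unfold phi
  rw [Finset.mul_sum, ← Finset.sum_sub_distrib, Finset.sum_congr rfl h1, Finset.sum_ite_eq]

theorem phi_le {V ω : Site d → ℝ} {Λ C : Finset (Site d)} {E T : ℝ} {y : Site d}
    (hω : ∀ x, |ω x - 1| ≤ 1 / 50) (hT : ∀ x ∈ C, |gr V Λ E y x| ≤ T) :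
    |phi V ω Λ C E y| ≤ C.card * (T * (51 / 50)) := by
  unfold phi
  refine (Finset.abs_sum_le_sum_abs _ _).trans ?_
  refine (Finset.sum_le_card_nsmul C _ (T * (51 / 50)) fun x hx => ?_).trans (le_of_eq ?_)
  · rw [abs_mul]
    have h1 := abs_le.1 (hω x)
    have h2 : |ω x| ≤ 51 / 50 := abs_le.2 ⟨by linarith only [h1.1], by linarith only [h1.2]⟩
    exact mul_le_mul (hT x hx) h2 (abs_nonneg _) ((abs_nonneg _).trans (hT x hx))
  · rw [nsmul_eq_mul]

theorem sd_nb (b x y : Site d) (h : sd x y ≤ 1) : sd b y ≤ sd b x + 1 := by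
  have := sd_triangle b x y
  omega

theorem wt_pos (b : Site d) (r₀ : ℕ) (κ : ℝ) (y : Site d) : 0 < wt b r₀ κ y := Real.exp_pos _

theorem wt_nb {b : Site d} {r₀ : ℕ} {κ : ℝ} (hκ : 0 ≤ κ) {x y : Site d} (h : sd y x ≤ 1) :
    wt b r₀ κ x ≤ Real.exp κ * wt b r₀ κ y := by
  unfold wt
  rw [← Real.exp_add]
  apply Real.exp_le_exp.2
  have h1 := sd_nb b x y (by rw [sd_comm]; exact h)
  have h2 : (sd b y - r₀ : ℕ) ≤ (sd b x - r₀ : ℕ) + 1 := by omega
  have h3 : (((sd b y - r₀ : ℕ)) : ℝ) ≤ ((sd b x - r₀ : ℕ) : ℝ) + 1 := by exact_mod_cast h2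
  nlinarith only [mul_le_mul_of_nonneg_left h3 hκ]

/-- one term of the error -/
theorem term_le {V ω : Site d → ℝ} {Λ C : Finset (Site d)} {E G κ : ℝ} {b : Site d}
    {r₀ R₁ : ℕ} (hω : ∀ x, |ω x - 1| ≤ 1 / 50) (hκ : 0 ≤ κ) (hCb : C ⊆ box b r₀)
    (hG : ∀ x ∈ box b (r₀ + R₁ + 1), ∀ y ∈ box b (r₀ + R₁ + 1), |gr V Λ E x y| ≤ G) {y x : Site d}
    (hy : r₀ + R₁ ≤ sd b y) (hx : x ∈ box b (r₀ + R₁ + 1)) :
    |wt b r₀ κ y * phi V ω Λ C E x| ≤
      Real.exp (-(κ * R₁)) * (C.card * (G * (51 / 50))) := by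
  rw [abs_mul, abs_of_pos (wt_pos _ _ _ _)]
  have h1 : wt b r₀ κ y ≤ Real.exp (-(κ * R₁)) := by
    unfold wt
    apply Real.exp_le_exp.2
    have h2 : (R₁ : ℝ) ≤ ((sd b y - r₀ : ℕ) : ℝ) := by
      have : R₁ ≤ sd b y - r₀ := by omega
      exact_mod_cast this
    nlinarith only [mul_le_mul_of_nonneg_left h2 hκ]
  have h3 : |phi V ω Λ C E x| ≤ C.card * (G * (51 / 50)) :=
    phi_le hω fun z hz => hG x hx z (box_mono b (by omega) (hCb hz))
  exact mul_le_mul h1 h3 (abs_nonneg _) (Real.exp_pos _).le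

theorem cut : CutStmt := by
  intro d V ω Λ C b r₀ R₁ z E lam κ k s G hd hω hk0 hk hωe hκ0 hκ1 hE hCne hCb hΛ hdet hG1 hG
    hcard hs hR
  classical
  set r : ℕ := r₀ + R₁ with hr
  have hbb : box b r ⊆ box b (r + 1) := box_mono b (by omega)
  have hCr : C ⊆ box b r := hCb.trans (box_mono b (by omega))
  have hCΛ : C ⊆ Λ := (hCr.trans hbb).trans hΛ
  set φ : Site d → ℝ := phi V ω Λ C E with hφ
  set χ : Site d → ℝ := wt b r₀ κ with hχ
  set ψ : Site d → ℝ := fun y => if y ∈ box b r then χ y * φ y else 0 with hψ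
  set e : Site d → ℝ := fun y => (E - V y) * ψ y - nb ψ y - (if y ∈ C then ω y else 0) -
      ∑ i : Fin d, ((χ y / χ (y + Pi.single i 1) - 1) * ψ (y + Pi.single i 1) +
        (χ y / χ (y - Pi.single i 1) - 1) * ψ (y - Pi.single i 1)) with he
  have hχ0 : ∀ y, 0 < χ y := fun y => wt_pos _ _ _ _
  have hcC : (C.card : ℝ) ≤ (2 * (r : ℝ) + 3) ^ d := by
    have h1 : C.card ≤ (2 * r₀ + 1) ^ d := by
      rw [← card_box b r₀]
      exact Finset.card_le_card hCb
    have h2 : (2 * r₀ + 1) ^ d ≤ (2 * r + 3) ^ d := Nat.pow_le_pow_left (by omega) d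
    exact_mod_cast h1.trans h2
  have hcC2 : (C.card : ℝ) ≤ (2 * (r : ℝ) + 1) ^ d := by
    have h1 : C.card ≤ (2 * r + 1) ^ d := by
      rw [← card_box b r]
      exact Finset.card_le_card hCr
    exact_mod_cast h1
  refine ⟨χ, ψ, e, ⟨hω, ⟨hk0, hk⟩, hωe, ⟨hκ0, hκ1⟩, hχ0, ?_, ⟨hCne, ?_, ?_, hcard⟩, ?_, ?_, ?_,
    hE, ?_⟩⟩
  · intro x i
    refine ⟨wt_nb hκ0 (sd_add_single_le x i), wt_nb hκ0 ?_⟩
    rw [sd_comm]
    exact sd_add_single_le x i
  · intro y hy
    rw [mem_clu]
    exact Or.inl hy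
  · intro y hy
    rw [mem_clu] at hy
    rcases hy with hy | hy
    · exact hCr hy
    · exact hy.1
  · intro x hx
    rw [hψ]
    simp only
    rw [if_neg hx]
  · -- the mass outside the cluster
    have h1 : ∀ x ∈ box b r \ clu V Λ E s C (box b r), |ψ x| ≤
        (2 * (r : ℝ) + 1) ^ d * (Real.exp (-s) * (51 / 50)) := by
      intro x hx
      rw [Finset.mem_sdiff, mem_clu] at hx
      have hx1 := hx.1
      have hx2 := hx.2
      push Not at hx2
      have h2 : |φ x| ≤ C.card * (Real.exp (-s) * (51 / 50)) := by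
        refine phi_le hω fun w hw => ?_
        rw [gr_symm]
        exact (hx2.2 hx1 w hw).le
      have h3 : χ x ≤ 1 := by
        rw [hχ, wt, Real.exp_le_one_iff]
        have : 0 ≤ κ * ((sd b x - r₀ : ℕ) : ℝ) := by positivity
        linarith only [this]
      rw [hψ]
      simp only
      rw [if_pos hx1, abs_mul, abs_of_pos (hχ0 x)]
      calc χ x * |φ x| ≤ 1 * |φ x| := mul_le_mul_of_nonneg_right h3 (abs_nonneg _)
        _ = |φ x| := one_mul _
        _ ≤ C.card * (Real.exp (-s) * (51 / 50)) := h2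
        _ ≤ _ := mul_le_mul_of_nonneg_right hcC2 (by positivity)
    refine (Finset.sum_le_card_nsmul _ _ _ h1).trans ?_
    rw [nsmul_eq_mul]
    have h4 : ((box b r \ clu V Λ E s C (box b r)).card : ℝ) ≤ (2 * (r : ℝ) + 1) ^ d := by
      have h5 : (box b r \ clu V Λ E s C (box b r)).card ≤ (2 * r + 1) ^ d := by
        rw [← card_box b r]
        exact Finset.card_le_card Finset.sdiff_subset
      exact_mod_cast h5
    have h6 : 200 * ((2 * (r : ℝ) + 1) ^ d * (2 * (r : ℝ) + 1) ^ d) * Real.exp (-s) ≤ 1 := by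
      rw [Real.exp_neg, ← div_eq_mul_inv, div_le_one (Real.exp_pos _)]
      refine le_trans (le_of_eq ?_) hs
      ring
    calc _ ≤ (2 * (r : ℝ) + 1) ^ d * ((2 * (r : ℝ) + 1) ^ d * (Real.exp (-s) * (51 / 50))) :=
          mul_le_mul_of_nonneg_right h4 (by positivity)
      _ = (200 * ((2 * (r : ℝ) + 1) ^ d * (2 * (r : ℝ) + 1) ^ d) * Real.exp (-s)) *
          (51 / 10000) := by ring
      _ ≤ 1 * (51 / 10000) := mul_le_mul_of_nonneg_right h6 (by norm_num)
      _ ≤ 1 / 100 := by norm_num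
  · -- the error
    set T : ℝ := Real.exp (-(κ * R₁)) * (C.card * (G * (51 / 50))) with hT
    have hT0 : 0 ≤ T := by
      rw [hT]
      positivity
    have h1 : ∀ y ∈ box b (r + 1), |e y| ≤ 2 * d * T := by
      intro y hy
      by_cases hyr : y ∈ box b r
      · -- inside
        have h2 : e y = ∑ i : Fin d, ((χ y * φ (y + Pi.single i 1) -
            (χ y / χ (y + Pi.single i 1)) * ψ (y + Pi.single i 1)) +
            (χ y * φ (y - Pi.single i 1) -
            (χ y / χ (y - Pi.single i 1)) * ψ (y - Pi.single i 1))) := by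
          have h3 := phi_eq (ω := ω) hCΛ hdet (hΛ hy)
          rw [← hφ] at h3
          have h4 : χ y * (if y ∈ C then ω y else 0) = if y ∈ C then ω y else 0 := by
            by_cases hyC : y ∈ C
            · have h5 : χ y = 1 := by
                have h6 := mem_box.1 (hCb hyC)
                rw [hχ, wt]
                have h7 : (sd b y - r₀ : ℕ) = 0 := by omega
                rw [h7]
                simp
              rw [h5, one_mul]
            · rw [if_neg hyC, mul_zero]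
          have h5 : (E - V y) * ψ y = χ y * nb φ y + if y ∈ C then ω y else 0 := by
            rw [← h4, ← h3, hψ]
            simp only
            rw [if_pos hyr]
            ring
          rw [he]
          simp only
          rw [h5]
          unfold nb
          rw [Finset.mul_sum]
          have h6 : ∀ A B C' D : ℝ, A + B - C' - B - D = A - C' - D := fun A B C' D => by ring
          rw [h6, ← Finset.sum_sub_distrib, ← Finset.sum_sub_distrib]
          refine Finset.sum_congr rfl fun i _ => ?_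
          ring
        have h7 : ∀ x : Site d, sd y x ≤ 1 → |χ y * φ x - (χ y / χ x) * ψ x| ≤ T := by
          intro x hx
          by_cases hxr : x ∈ box b r
          · have h8 : χ y * φ x - (χ y / χ x) * ψ x = 0 := by
              rw [hψ]
              simp only
              rw [if_pos hxr]
              have := (hχ0 x).ne'
              field_simp
              ring
            rw [h8, abs_zero]
            exact hT0
          · have h8 : ψ x = 0 := by
              rw [hψ]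
              simp only
              rw [if_neg hxr]
            rw [h8, mul_zero, sub_zero]
            have h9 := mem_box.1 hyr
            have h10 : ¬ sd b x ≤ r := fun h => hxr (mem_box.2 h)
            have h11 := sd_nb b y x hx
            exact term_le hω hκ0 hCb hG (by omega) (mem_box.2 (by omega))
        rw [h2]
        refine (Finset.abs_sum_le_sum_abs _ _).trans ?_
        refine (Finset.sum_le_card_nsmul _ _ (T + T) fun i _ => ?_).trans (le_of_eq ?_)
        · refine (abs_add_le _ _).trans (add_le_add ?_ ?_)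
          · exact h7 _ (sd_add_single_le y i)
          · exact h7 _ (sd_sub_single_le y i)
        · rw [Finset.card_univ, Fintype.card_fin, nsmul_eq_mul]
          ring
      · -- outside
        have hψy : ψ y = 0 := by
          rw [hψ]
          simp only
          rw [if_neg hyr]
        have hyC : y ∉ C := fun h => hyr (hCr h)
        have h2 : e y = ∑ i : Fin d, (-((χ y / χ (y + Pi.single i 1)) * ψ (y + Pi.single i 1)) +
            -((χ y / χ (y - Pi.single i 1)) * ψ (y - Pi.single i 1))) := by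
          rw [he]
          simp only
          rw [hψy, if_neg hyC]
          unfold nb
          have h6 : ∀ C' D : ℝ, (E - V y) * 0 - C' - 0 - D = -(C' + D) := fun C' D => by ring
          rw [h6, ← Finset.sum_add_distrib, ← Finset.sum_neg_distrib]
          refine Finset.sum_congr rfl fun i _ => ?_
          ring
        have h7 : ∀ x : Site d, sd y x ≤ 1 → |-((χ y / χ x) * ψ x)| ≤ T := by
          intro x hx
          by_cases hxr : x ∈ box b r
          · have h8 : (χ y / χ x) * ψ x = χ y * φ x := by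
              rw [hψ]
              simp only
              rw [if_pos hxr]
              have := (hχ0 x).ne'
              field_simp
            rw [abs_neg, h8]
            have h10 : ¬ sd b y ≤ r := fun h => hyr (mem_box.2 h)
            exact term_le hω hκ0 hCb hG (by omega) (hbb hxr)
          · have h8 : ψ x = 0 := by
              rw [hψ]
              simp only
              rw [if_neg hxr]
            rw [h8, mul_zero, neg_zero, abs_zero]
            exact hT0
        rw [h2]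
        refine (Finset.abs_sum_le_sum_abs _ _).trans ?_
        refine (Finset.sum_le_card_nsmul _ _ (T + T) fun i _ => ?_).trans (le_of_eq ?_)
        · refine (abs_add_le _ _).trans (add_le_add ?_ ?_)
          · exact h7 _ (sd_add_single_le y i)
          · exact h7 _ (sd_sub_single_le y i)
        · rw [Finset.card_univ, Fintype.card_fin, nsmul_eq_mul]
          ring
    refine (Finset.sum_le_card_nsmul _ _ _ h1).trans ?_
    rw [nsmul_eq_mul, card_box]
    have h3 : (((2 * (r + 1) + 1) ^ d : ℕ) : ℝ) = (2 * (r : ℝ) + 3) ^ d := by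
      push_cast
      congr 1
      ring
    rw [h3]
    have h4 : 300 * d * ((2 * (r : ℝ) + 3) ^ d * (2 * (r : ℝ) + 3) ^ d) * G *
        Real.exp (-(κ * R₁)) ≤ 1 := by
      rw [Real.exp_neg, ← div_eq_mul_inv, div_le_one (Real.exp_pos _)]
      refine le_trans (le_of_eq ?_) hR
      ring
    have hG0 : 0 ≤ G := by linarith only [hG1]
    calc (2 * (r : ℝ) + 3) ^ d * (2 * d * T) ≤ (2 * (r : ℝ) + 3) ^ d * (2 * d *
          (Real.exp (-(κ * R₁)) * ((2 * (r : ℝ) + 3) ^ d * (G * (51 / 50))))) := by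
          rw [hT]
          gcongr
      _ = (300 * d * ((2 * (r : ℝ) + 3) ^ d * (2 * (r : ℝ) + 3) ^ d) * G *
          Real.exp (-(κ * R₁))) * (102 / 15000) := by ring
      _ ≤ 1 * (102 / 15000) := mul_le_mul_of_nonneg_right h4 (by norm_num)
      _ ≤ 1 / 100 := by norm_num
  · intro y hy
    rw [he]
    simp only
    ring

end Pool.Agent.LE.CL.H45
end
end -- Pool.Agent.Helper45_LSC.CUT

section -- Pool.Agent.Helper45_LSC.PEN

/-!
# PEN: the Lyapunov exponent near the edge, numbers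
-/

set_option autoImplicit false

open MeasureTheory ProbabilityTheory Function Filter

open scoped ENNReal BigOperators Topology NNReal

noncomputable section

namespace Pool.Agent.LE.CL.H45

open Pool.Agent.Anderson Pool.Agent.Loc Pool.Agent.Mob Pool.Agent.Helper54.Bal
  Pool.Agent.Helper96.EXP Pool.Agent.BED

/-- the side of the cubes -/
theorem exists_m {D lam : ℝ} (hD : 1 ≤ D) (hl : 0 < lam) (hl2 : lam ≤ 1 / (100 * D)) :
    ∃ m : ℕ, lam * (2 * (m : ℝ) + 1) ^ 2 ≤ 1 / (100 * D) ∧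
      1 ≤ 30 * D * (Real.sqrt lam * (2 * (m : ℝ) + 1)) ∧
      Real.sqrt lam * (2 * (m : ℝ) + 1) ≤ 1 := by
  have hD0 : 0 < D := by linarith only [hD]
  have hs : 0 < Real.sqrt lam := Real.sqrt_pos.2 hl
  have hss : Real.sqrt lam ^ 2 = lam := Real.sq_sqrt hl.le
  set Q : ℕ → Prop := fun m => lam * (2 * (m : ℝ) + 1) ^ 2 ≤ 1 / (100 * D) with hQ
  have hbd : ∃ m : ℕ, ¬ Q m := by
    obtain ⟨m, hm⟩ := exists_nat_gt (1 / lam)
    refine ⟨m, fun h => ?_⟩
    have h1 : 1 / (100 * D) ≤ 1 := by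
      rw [div_le_one (mul_pos (by norm_num) hD0)]
      linarith only [hD]
    have h2 : lam * (2 * (m : ℝ) + 1) ^ 2 ≤ 1 := le_trans h h1
    have h3 : 1 < (m : ℝ) * lam := by
      rwa [div_lt_iff₀ hl] at hm
    have h4 : (0 : ℝ) ≤ m := Nat.cast_nonneg m
    linarith only [h2, h3, hl, mul_nonneg hl.le (mul_nonneg h4 h4), mul_nonneg hl.le h4]
  classical
  have h0 : Q 0 := by
    rw [hQ]
    simp only [Nat.cast_zero, mul_zero, zero_add, one_pow, mul_one]
    exact hl2
  set k := Nat.find hbd with hk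
  have hk1 : ¬ Q k := Nat.find_spec hbd
  have hk0 : k ≠ 0 := by
    intro h
    rw [h] at hk1
    exact hk1 h0
  obtain ⟨m, hm⟩ := Nat.exists_eq_succ_of_ne_zero hk0
  have hQm : Q m := by
    by_contra h
    have := Nat.find_min' hbd h
    omega
  have hk2 : 1 / (100 * D) < lam * (2 * ((m : ℝ) + 1) + 1) ^ 2 := by
    have h1 : ¬ Q (m + 1) := by
      rw [← Nat.succ_eq_add_one, ← hm]
      exact hk1
    rw [hQ] at h1
    simp only [Nat.cast_add, Nat.cast_one, not_le] at h1
    exact h1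
  have hm0 : (0 : ℝ) ≤ m := Nat.cast_nonneg m
  refine ⟨m, hQm, ?_, ?_⟩
  · obtain ⟨y, hy⟩ : ∃ y : ℝ, y = Real.sqrt lam * (2 * (m : ℝ) + 1) := ⟨_, rfl⟩
    rw [← hy]
    have hy0 : 0 < y := by
      rw [hy]
      exact mul_pos hs (by linarith only [hm0])
    have h1 : lam * (2 * ((m : ℝ) + 1) + 1) ^ 2 ≤ 9 * y ^ 2 := by
      have h2 : 9 * y ^ 2 = lam * (3 * (2 * (m : ℝ) + 1)) ^ 2 := by
        rw [hy, mul_pow, hss]
        ring
      rw [h2]
      apply mul_le_mul_of_nonneg_left _ hl.le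
      apply pow_le_pow_left₀ (by linarith only [hm0])
      linarith only [hm0]
    have h3 : 1 / (100 * D) < 9 * y ^ 2 := lt_of_lt_of_le hk2 h1
    rw [div_lt_iff₀ (mul_pos (by norm_num) hD0)] at h3
    by_contra hcon
    push Not at hcon
    have h4 : 0 < 30 * D * y := mul_pos (mul_pos (by norm_num) hD0) hy0
    have h5 : (30 * D * y) * (30 * D * y) < 1 * 1 := mul_lt_mul'' hcon hcon h4.le h4.le
    have h6 : D * 1 ≤ D * D := mul_le_mul_of_nonneg_left hD hD0.le
    have h7 := mul_le_mul_of_nonneg_right h6 (sq_nonneg y)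
    linarith only [h3, h5, h7]
  · have h1 : (Real.sqrt lam * (2 * (m : ℝ) + 1)) ^ 2 ≤ 1 := by
      rw [mul_pow, hss]
      refine le_trans hQm ?_
      rw [div_le_one (mul_pos (by norm_num) hD0)]
      linarith only [hD]
    by_contra hc
    push Not at hc
    have h2 := mul_lt_mul'' hc hc zero_le_one zero_le_one
    linarith only [h1, h2]

/-- `K log² t ≤ √t` for large `t` -/
theorem log_sq_le {K t : ℝ} (hK : 1 ≤ K) (ht : (64 * K) ^ 4 ≤ t) :
    K * Real.log t ^ 2 ≤ Real.sqrt t := by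
  have hK0 : 0 < K := by linarith only [hK]
  have ht1 : 1 ≤ t := by
    refine le_trans ?_ ht
    have : (1 : ℝ) ≤ 64 * K := by linarith only [hK]
    exact one_le_pow₀ this
  have ht0 : 0 < t := by linarith only [ht1]
  obtain ⟨y, hy⟩ : ∃ y : ℝ, y = t ^ (1 / 8 : ℝ) := ⟨_, rfl⟩
  have hy0 : 0 < y := by
    rw [hy]
    exact Real.rpow_pos_of_pos ht0 _
  have hy8 : y ^ 8 = t := by
    rw [hy, ← Real.rpow_natCast, ← Real.rpow_mul ht0.le]
    norm_num
  have hlog : Real.log t ≤ 8 * y := by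
    have := Real.log_le_rpow_div ht0.le (show (0 : ℝ) < 1 / 8 by norm_num)
    rw [← hy] at this
    linarith only [this]
  have hlog0 : 0 ≤ Real.log t := Real.log_nonneg ht1
  have hsq : Real.sqrt t = y ^ 4 := by
    rw [← hy8]
    have : y ^ 8 = (y ^ 4) ^ 2 := by ring
    rw [this, Real.sqrt_sq (pow_nonneg hy0.le 4)]
  have h1 : 64 * K ≤ y ^ 2 := by
    by_contra hcon
    push Not at hcon
    have h2 : (y ^ 2) ^ 4 < (64 * K) ^ 4 :=
      pow_lt_pow_left₀ hcon (sq_nonneg y) (by norm_num)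
    have h3 : (y ^ 2) ^ 4 = t := by rw [← hy8]; ring
    rw [h3] at h2
    linarith only [h2, ht]
  rw [hsq]
  have h2 : Real.log t ^ 2 ≤ 64 * y ^ 2 := by
    have h5 := pow_le_pow_left₀ hlog0 hlog 2
    linarith only [h5]
  calc K * Real.log t ^ 2 ≤ K * (64 * y ^ 2) := mul_le_mul_of_nonneg_left h2 hK0.le
    _ = (64 * K) * y ^ 2 := by ring
    _ ≤ y ^ 2 * y ^ 2 := mul_le_mul_of_nonneg_right h1 (sq_nonneg y)
    _ = y ^ 4 := by ring

/-- first condition -/
theorem cond1 {D w X t : ℝ} {d J : ℕ} (hDd : D = d) (hd0 : 0 < D) (hw1 : 1 ≤ w)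
    (hexpw : Real.exp w = t) (hX0 : 0 ≤ X) (hbig : 2 * X + 5 ≤ t)
    (hJge : 2 * D * w + 1 ≤ (J : ℝ)) : ((2 * X + 1) ^ d : ℝ) < 2 ^ J := by
  have h1 : (2 * X + 1) ^ d ≤ t ^ d :=
    pow_le_pow_left₀ (by linarith only [hX0]) (by linarith only [hbig]) d
  have h2 : t ^ d < (2 : ℝ) ^ J := by
    have h3 : t ^ d = Real.exp (d * w) := by rw [Real.exp_nat_mul, hexpw]
    have h4 : (2 : ℝ) ^ J = Real.exp (J * Real.log 2) := by
      rw [Real.exp_nat_mul, Real.exp_log (by norm_num)]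
    rw [h3, h4, ← hDd]
    apply Real.exp_lt_exp.2
    have h5 := Real.log_two_gt_d9
    have h6 : (2 * D * w + 1) * Real.log 2 ≤ J * Real.log 2 :=
      mul_le_mul_of_nonneg_right hJge (by linarith only [h5])
    have h7 : 0 < D * w := mul_pos hd0 (by linarith only [hw1])
    have h8 : (D * w) * (1 / 2) ≤ (D * w) * Real.log 2 :=
      mul_le_mul_of_nonneg_left (by linarith only [h5]) h7.le
    linarith only [h6, h8, h5]
  exact lt_of_le_of_lt h1 h2

/-- third condition -/
theorem cond3 {D w X t A S R : ℝ} {d : ℕ} (hDd : D = d) (hd0 : 0 < D)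
    (hexpw : Real.exp w = t) (hX0 : 0 ≤ X) (hbig : 2 * X + 5 ≤ t) (hA : A = 50 * D * (5 * D + 6))
    (hS1 : 1 ≤ S) (hR : A * w * S ≤ R) (ht300 : 300 * D ≤ t) (ht200 : 200 ≤ t) :
    300 * D * (2 * X + 3) ^ (2 * d) * t ^ (3 * d + 4) ≤ Real.exp (R / (50 * D * S)) := by
  have ht0 : 0 < t := by linarith only [ht200]
  have h1 : (2 * X + 3) ^ (2 * d) ≤ t ^ (2 * d) :=
    pow_le_pow_left₀ (by linarith only [hX0]) (by linarith only [hbig]) _
  have h2 : Real.exp (((5 * d + 6 : ℕ) : ℝ) * w) ≤ Real.exp (R / (50 * D * S)) := by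
    apply Real.exp_le_exp.2
    rw [le_div_iff₀ (mul_pos (mul_pos (by norm_num) hd0) (by linarith only [hS1]))]
    refine le_trans (le_of_eq ?_) hR
    rw [hA]
    push_cast
    rw [← hDd]
    ring
  refine le_trans ?_ h2
  rw [Real.exp_nat_mul, hexpw]
  have h3 : t ^ (5 * d + 6) = t * t * (t ^ (2 * d) * t ^ (3 * d + 4)) := by ring
  have h4 : 0 < t ^ (3 * d + 4) := pow_pos ht0 _
  have h5 : 300 * D ≤ t * t := by
    calc 300 * D ≤ t := ht300
      _ = t * 1 := (mul_one _).symm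
      _ ≤ t * t := mul_le_mul_of_nonneg_left (by linarith only [ht200]) ht0.le
  rw [h3]
  calc 300 * D * (2 * X + 3) ^ (2 * d) * t ^ (3 * d + 4) ≤
        (t * t) * t ^ (2 * d) * t ^ (3 * d + 4) := by
        apply mul_le_mul_of_nonneg_right _ h4.le
        exact mul_le_mul h5 h1 (pow_nonneg (by linarith only [hX0]) _)
          (mul_nonneg ht0.le ht0.le)
    _ = _ := by ring

/-- the second part of the probability -/
theorem q2le {X t σ : ℝ} {d : ℕ} (hX0 : 0 ≤ X) (hbig : 2 * X + 5 ≤ t) (ht200 : 200 ≤ t)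
    (hσ0 : 0 < σ) (hσt : 1 / σ ≤ t) :
    10 * (2 * X + 3) ^ (2 * d) / (σ * t ^ (3 * d + 4)) * t ^ d ≤ 1 / 2 := by
  have ht0 : 0 < t := by linarith only [ht200]
  have htd : 0 < t ^ d := pow_pos ht0 d
  have h1 : (2 * X + 3) ^ (2 * d) ≤ t ^ (2 * d) :=
    pow_le_pow_left₀ (by linarith only [hX0]) (by linarith only [hbig]) _
  have h2 : 1 ≤ t * σ := by
    rw [div_le_iff₀ hσ0] at hσt
    exact hσt
  rw [div_mul_eq_mul_div, div_le_iff₀ (mul_pos hσ0 (pow_pos ht0 _))]
  have h4 : 1 / 2 * (σ * t ^ (3 * d + 4)) =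
      (t * σ) * (1 / 2 * t ^ 3) * (t ^ (2 * d) * t ^ d) := by
    ring
  rw [h4]
  have h5 : 10 * 1 ≤ (t * σ) * (1 / 2 * t ^ 3) := by
    have h6 : 10 ≤ 1 / 2 * t ^ 3 := by
      have : (200 : ℝ) ^ 3 ≤ t ^ 3 := pow_le_pow_left₀ (by norm_num) ht200 3
      norm_num at this
      linarith only [this]
    calc (10 : ℝ) * 1 = 1 * 10 := by norm_num
      _ ≤ _ := mul_le_mul h2 h6 (by norm_num) (by linarith only [h2])
  calc 10 * (2 * X + 3) ^ (2 * d) * t ^ d ≤ 10 * t ^ (2 * d) * t ^ d := by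
        apply mul_le_mul_of_nonneg_right _ htd.le
        linarith only [h1]
    _ = 10 * 1 * (t ^ (2 * d) * t ^ d) := by ring
    _ ≤ _ := mul_le_mul_of_nonneg_right h5 (mul_nonneg (pow_nonneg ht0.le _) htd.le)

/-- the number of points -/
theorem nle {S : ℝ} {d a n : ℕ} (hd : 1 ≤ d) (hS1 : 1 ≤ S) (haS : (a : ℝ) = S ^ d)
    (han : a ≤ 4 * n) {y : ℝ} (hm2 : 1 ≤ 30 * d * (y * S)) :
    (n : ℝ) ^ (-(1 / (d : ℝ))) ≤ 120 * d * y := by
  have hd1 : (1 : ℝ) ≤ d := by exact_mod_cast hd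
  have hd0 : (0 : ℝ) < d := by linarith only [hd1]
  have hS0 : 0 < S := by linarith only [hS1]
  have h3 : S ^ d / 4 ≤ (n : ℝ) := by
    have : (a : ℝ) ≤ 4 * n := by exact_mod_cast han
    rw [haS] at this
    linarith only [this]
  have h4 : (0 : ℝ) < S ^ d / 4 := div_pos (pow_pos hS0 d) (by norm_num)
  have h5 : (n : ℝ) ^ (-(1 / (d : ℝ))) ≤ (S ^ d / 4) ^ (-(1 / (d : ℝ))) := by
    apply Real.rpow_le_rpow_of_nonpos h4 h3
    have : 0 < 1 / (d : ℝ) := one_div_pos.2 hd0
    linarith only [this]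
  refine h5.trans ?_
  rw [Real.rpow_neg h4.le, Real.div_rpow (pow_nonneg hS0.le d) (by norm_num), inv_div]
  have h6 : (S ^ d) ^ (1 / (d : ℝ)) = S := by
    rw [one_div, Real.pow_rpow_inv_natCast hS0.le (Nat.one_le_iff_ne_zero.1 hd)]
  have h7 : (4 : ℝ) ^ (1 / (d : ℝ)) ≤ 4 := by
    calc (4 : ℝ) ^ (1 / (d : ℝ)) ≤ (4 : ℝ) ^ (1 : ℝ) := by
          apply Real.rpow_le_rpow_of_exponent_le (by norm_num)
          rw [div_le_one hd0]
          exact hd1
      _ = 4 := Real.rpow_one 4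
  rw [h6, div_le_iff₀ hS0]
  linarith only [h7, hm2]

theorem pen (edp : EdpStmt) (crg : CrgStmt) : PenStmt := by
  intro d hd
  obtain ⟨C₀, hC₀, crg⟩ := crg d hd
  have hC₀0 : 0 < C₀ := by linarith only [hC₀]
  have hd1 : (1 : ℝ) ≤ d := by exact_mod_cast hd
  have hd0 : (0 : ℝ) < d := by linarith only [hd1]
  obtain ⟨A, hA⟩ : ∃ A : ℝ, A = 50 * d * (5 * d + 6) := ⟨_, rfl⟩
  have hA0 : 1 ≤ A := by
    have hdd : (0 : ℝ) ≤ (d : ℝ) * d := mul_nonneg hd0.le hd0.le
    rw [hA]
    linarith only [hdd, hd1]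
  obtain ⟨K, hK⟩ : ∃ K : ℝ, K = 2 * (2 * d + 2) * (A + 1) + 5 := ⟨_, rfl⟩
  have hK1 : 1 ≤ K := by
    have : 0 ≤ 2 * (2 * (d : ℝ) + 2) * (A + 1) :=
      mul_nonneg (by linarith only [hd0]) (by linarith only [hA0])
    rw [hK]
    linarith only [this]
  obtain ⟨C₁, hC₁⟩ : ∃ C₁ : ℝ, C₁ = C₀ * ((2 * d + 2) * (2 * d + 3) * (120 * d)) := ⟨_, rfl⟩
  have hK4 : 0 ≤ (64 * K) ^ 4 := pow_nonneg (by linarith only [hK1]) 4
  obtain ⟨C, hC⟩ : ∃ C : ℝ, C = C₁ + (64 * K) ^ 4 + 300 * d + 200 := ⟨_, rfl⟩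
  have hC₁0 : 0 ≤ C₁ := by
    rw [hC₁]
    exact mul_nonneg hC₀0.le (by positivity)
  refine ⟨1 / (200 * d), C, by positivity, by rw [hC]; linarith only [hC₁0, hK4, hd0], ?_⟩
  intro M' v σ t z μ p E g hσ hσ2 hv hz0 hz hσt hCt hμ hM hflat hp hLya hE
  have ht200 : 200 ≤ t := by linarith only [hCt, hC, hC₁0, hK4, hd0]
  have ht300 : 300 * d ≤ t := by linarith only [hCt, hC, hC₁0, hK4]
  have htK : (64 * K) ^ 4 ≤ t := by linarith only [hCt, hC, hC₁0, hd0]
  have ht0 : 0 < t := by linarith only [ht200]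
  have hσ0 : 0 < |σ| := abs_pos.2 hσ
  obtain ⟨w, hw⟩ : ∃ w : ℝ, w = Real.log t := ⟨_, rfl⟩
  rw [← hw]
  have hw1 : 1 ≤ w := by
    rw [hw, Real.le_log_iff_exp_le ht0]
    have := Real.exp_one_lt_d9
    linarith only [this, ht200]
  have hw0 : 0 ≤ w := by linarith only [hw1]
  have hexpw : Real.exp w = t := by rw [hw, Real.exp_log ht0]
  obtain ⟨lam, hlam⟩ : ∃ lam : ℝ, lam = |E - z| + 1 / t := ⟨_, rfl⟩
  rw [← hlam]
  have hlam0 : 0 < lam := by
    rw [hlam]
    exact add_pos_of_nonneg_of_pos (abs_nonneg _) (one_div_pos.2 ht0)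
  have hlamt : 1 / t ≤ lam := by
    rw [hlam]
    linarith only [abs_nonneg (E - z)]
  have hlam2 : lam ≤ 1 / (100 * d) := by
    have h1 : 1 / t ≤ 1 / (200 * d) :=
      one_div_le_one_div_of_le (mul_pos (by norm_num) hd0) (by linarith only [ht300, hd0])
    have h2 : 1 / (100 * (d : ℝ)) = 1 / (200 * d) + 1 / (200 * d) := by
      field_simp
      norm_num
    rw [hlam, h2]
    linarith only [h1, hE]
  obtain ⟨m, hm1, hm2, hm3⟩ := exists_m hd1 hlam0 hlam2
  obtain ⟨S, hS⟩ : ∃ S : ℝ, S = 2 * (m : ℝ) + 1 := ⟨_, rfl⟩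
  rw [← hS] at hm2 hm3
  have hS1 : 1 ≤ S := by
    rw [hS]
    have : (0 : ℝ) ≤ m := Nat.cast_nonneg m
    linarith only [this]
  have hsl : 0 < Real.sqrt lam := Real.sqrt_pos.2 hlam0
  have hlt : 1 ≤ lam * t := by
    rw [div_le_iff₀ ht0] at hlamt
    exact hlamt
  -- S ≤ √t
  have hSt : S ≤ Real.sqrt t := by
    have h1 : 1 ≤ Real.sqrt lam * Real.sqrt t := by
      rw [← Real.sqrt_mul hlam0.le]
      calc (1 : ℝ) = Real.sqrt 1 := Real.sqrt_one.symm
        _ ≤ _ := Real.sqrt_le_sqrt hlt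
    have h3 : Real.sqrt lam * S ≤ Real.sqrt lam * Real.sqrt t := hm3.trans h1
    exact le_of_mul_le_mul_left h3 hsl
  have hst1 : 1 ≤ Real.sqrt t := hS1.trans hSt
  have hstt : Real.sqrt t * Real.sqrt t = t := Real.mul_self_sqrt ht0.le
  have hstt2 : Real.sqrt t ≤ t := by
    calc Real.sqrt t = Real.sqrt t * 1 := (mul_one _).symm
      _ ≤ Real.sqrt t * Real.sqrt t := mul_le_mul_of_nonneg_left hst1 (Real.sqrt_nonneg t)
      _ = t := hstt
  obtain ⟨J, hJ⟩ : ∃ J : ℕ, J = ⌈2 * d * w⌉₊ + 1 := ⟨_, rfl⟩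
  obtain ⟨R₁, hR₁⟩ : ∃ R₁ : ℕ, R₁ = ⌈A * w * S⌉₊ := ⟨_, rfl⟩
  have hJ1 : (1 : ℕ) ≤ J := by rw [hJ]; exact Nat.le_add_left 1 _
  have hJle : (J : ℝ) ≤ (2 * d + 2) * w := by
    have h1 := (Nat.ceil_lt_add_one (mul_nonneg (mul_nonneg zero_le_two hd0.le) hw0)).le
    rw [hJ]
    push_cast
    linarith only [h1, hw1]
  have hJge : 2 * d * w + 1 ≤ (J : ℝ) := by
    have h1 := Nat.le_ceil (2 * (d : ℝ) * w)
    rw [hJ]
    push_cast
    linarith only [h1]
  have hR₁ge : A * w * S ≤ (R₁ : ℝ) := by rw [hR₁]; exact Nat.le_ceil _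
  have hwS : 1 ≤ w * S := one_le_mul_of_one_le_of_one_le hw1 hS1
  have hR₁le : (R₁ : ℝ) ≤ (A + 1) * (w * S) := by
    have h1 := (Nat.ceil_lt_add_one (mul_nonneg (mul_nonneg (by linarith only [hA0]) hw0)
      (by linarith only [hS1]) : 0 ≤ A * w * S)).le
    rw [← hR₁] at h1
    have h2 : (A + 1) * (w * S) = A * w * S + w * S := by ring
    rw [h2]
    linarith only [h1, hwS]
  have hR₁1 : 1 ≤ R₁ := by
    have h1 : (1 : ℝ) ≤ R₁ := by
      have : 1 ≤ A * (w * S) := one_le_mul_of_one_le_of_one_le hA0 hwS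
      have h2 : A * (w * S) = A * w * S := by ring
      linarith only [this, h2, hR₁ge]
    exact_mod_cast h1
  -- the size of the cube
  obtain ⟨X, hX⟩ : ∃ X : ℝ, X = ((J * R₁ : ℕ) : ℝ) := ⟨_, rfl⟩
  have hbig : 2 * X + 5 ≤ t := by
    have h1 : (J : ℝ) * R₁ ≤ ((2 * d + 2) * w) * ((A + 1) * (w * Real.sqrt t)) := by
      apply mul_le_mul hJle _ (Nat.cast_nonneg _) (mul_nonneg (by linarith only [hd0]) hw0)
      refine hR₁le.trans ?_
      apply mul_le_mul_of_nonneg_left _ (by linarith only [hA0])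
      exact mul_le_mul_of_nonneg_left hSt hw0
    have h2 : 5 ≤ 5 * (w ^ 2 * Real.sqrt t) := by
      have : 1 ≤ w ^ 2 * Real.sqrt t :=
        one_le_mul_of_one_le_of_one_le (one_le_pow₀ hw1) hst1
      linarith only [this]
    have h3 : K * w ^ 2 ≤ Real.sqrt t := by
      rw [hw]
      exact log_sq_le hK1 htK
    rw [hX]
    push_cast
    calc 2 * ((J : ℝ) * R₁) + 5 ≤ 2 * (((2 * d + 2) * w) * ((A + 1) * (w * Real.sqrt t))) +
          5 * (w ^ 2 * Real.sqrt t) := by linarith only [h1, h2]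
      _ = (K * w ^ 2) * Real.sqrt t := by rw [hK]; ring
      _ ≤ Real.sqrt t * Real.sqrt t := mul_le_mul_of_nonneg_right h3 (Real.sqrt_nonneg t)
      _ = t := hstt
  have hX0 : 0 ≤ X := by rw [hX]; exact Nat.cast_nonneg _
  have hM2 : 2 * (J * R₁ + 2) ≤ M' := by
    have h1 : (2 * (X + 2) : ℝ) ≤ M' := by linarith only [hbig, hM]
    rw [hX] at h1
    exact_mod_cast h1
  obtain ⟨G, hG⟩ : ∃ G : ℝ, G = t ^ (3 * d + 4) := ⟨_, rfl⟩
  have hG1 : 1 ≤ G := by rw [hG]; exact one_le_pow₀ (by linarith only [ht200])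
  have hG0 : 0 < G := by linarith only [hG1]
  obtain ⟨s, hs⟩ : ∃ s : ℝ, s = (2 * d + 1) * w := ⟨_, rfl⟩
  have hexps : Real.exp s = t ^ (2 * d + 1) := by
    rw [hs, ← hexpw, ← Real.exp_nat_mul]
    push_cast
    rfl
  have hcond1 : (2 * (J * R₁) + 1) ^ d < 2 ^ J := by
    have h8 := cond1 rfl hd0 hw1 hexpw hX0 hbig hJge
    rw [hX] at h8
    exact_mod_cast h8
  have hcond2 : 200 * (2 * ((J * R₁ : ℕ) : ℝ) + 1) ^ (2 * d) ≤ Real.exp s := by
    rw [hexps, pow_succ, ← hX]
    have h1 : (2 * X + 1) ^ (2 * d) ≤ t ^ (2 * d) :=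
      pow_le_pow_left₀ (by linarith only [hX0]) (by linarith only [hbig]) _
    calc 200 * (2 * X + 1) ^ (2 * d) ≤ t * t ^ (2 * d) :=
          mul_le_mul ht200 h1 (pow_nonneg (by linarith only [hX0]) _) ht0.le
      _ = _ := mul_comm _ _
  have hcond3 : 300 * d * (2 * ((J * R₁ : ℕ) : ℝ) + 3) ^ (2 * d) * G ≤
      Real.exp (R₁ / (50 * d * (2 * (m : ℝ) + 1))) := by
    rw [← hS, ← hX, hG]
    exact cond3 rfl hd0 hexpw hX0 hbig hA hS1 hR₁ge ht300 ht200
  -- the probability
  obtain ⟨p', hp'⟩ : ∃ p' : ℝ, p' = max p 0 := ⟨_, rfl⟩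
  have hp'0 : 0 ≤ p' := by rw [hp']; exact le_max_right _ _
  obtain ⟨q₂, hq₂⟩ : ∃ q₂ : ℝ, q₂ = 10 * (2 * X + 3) ^ (2 * d) / (|σ| * G) := ⟨_, rfl⟩
  have hq₂0 : 0 ≤ q₂ := by
    rw [hq₂]
    exact div_nonneg (mul_nonneg (by norm_num) (pow_nonneg (by linarith only [hX0]) _))
      (mul_nonneg hσ0.le hG0.le)
  have hq0 : 0 ≤ p' + q₂ := add_nonneg hp'0 hq₂0
  have htd : 0 < t ^ d := pow_pos ht0 d
  have hp'le : p' * t ^ d ≤ 1 / 2 := by
    have h1 : p' ≤ t ^ (-C) := by rw [hp']; exact max_le hp (Real.rpow_nonneg ht0.le _)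
    have h2 : t ^ (-C) ≤ t ^ (-((d + 1 : ℕ) : ℝ)) := by
      apply Real.rpow_le_rpow_of_exponent_le (by linarith only [ht200])
      push_cast
      rw [hC]
      linarith only [hC₁0, hK4, hd0]
    rw [Real.rpow_neg ht0.le ((d + 1 : ℕ) : ℝ), Real.rpow_natCast] at h2
    have h3 : p' * t ^ d ≤ (t ^ (d + 1))⁻¹ * t ^ d :=
      mul_le_mul_of_nonneg_right (h1.trans h2) htd.le
    refine h3.trans ?_
    rw [pow_succ, mul_inv, mul_right_comm, inv_mul_cancel₀ htd.ne', one_mul, ← one_div]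
    exact one_div_le_one_div_of_le (by norm_num) (by linarith only [ht200])
  have hq2 : q₂ * t ^ d ≤ 1 / 2 := by
    rw [hq₂, hG]
    exact q2le hX0 hbig ht200 hσ0 hσt
  obtain ⟨a, ha⟩ : ∃ a : ℕ, a = (2 * m + 1) ^ d := ⟨_, rfl⟩
  have ha1 : 1 ≤ a := by rw [ha]; exact Nat.one_le_pow _ _ (Nat.succ_pos _)
  obtain ⟨n, hn⟩ : ∃ n : ℕ, n = (a + 3) / 4 := ⟨_, rfl⟩
  have hn3 : 1 ≤ n ∧ n ≤ a ∧ a ≤ 4 * n := by
    clear hC₁0 hK4
    omega
  obtain ⟨hn1, hna, han⟩ := hn3
  have haS : (a : ℝ) = S ^ d := by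
    rw [ha, hS]
    push_cast
    rfl
  have hnt : (n : ℝ) ≤ t ^ d := by
    have h1 : (n : ℝ) ≤ a := by exact_mod_cast hna
    refine h1.trans ?_
    rw [haS]
    exact pow_le_pow_left₀ (by linarith only [hS1]) (hSt.trans hstt2) d
  have hqn : (p' + q₂) * n ≤ 1 := by
    refine (mul_le_mul_of_nonneg_left hnt hq0).trans ?_
    rw [add_mul]
    linarith only [hp'le, hq2]
  have hE2 : |E| ≤ 2 * d + 2 := by
    have h1 : |E| ≤ |E - z| + |z| := by
      have := abs_add_le (E - z) z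
      rwa [sub_add_cancel] at this
    rw [abs_of_nonneg hz0] at h1
    have h2 : 1 / (200 * (d : ℝ)) ≤ 1 := by
      rw [div_le_one (mul_pos (by norm_num) hd0)]
      linarith only [hd1]
    linarith only [h1, hz, hE, h2]
  have hs1 : 1 ≤ s := by
    rw [hs]
    exact one_le_mul_of_one_le_of_one_le (by linarith only [hd0]) hw1
  have key := crg σ E s (p' + q₂) g J n (J * R₁ + 1) hσ0 hσ2 hE2 hs1 hJ1 hn1
    (Nat.le_add_left 1 _) hLya hq0 hqn ?_
  · refine key.trans ?_
    -- numbers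
    obtain ⟨u, hu⟩ : ∃ u : ℝ, u = Real.log (1 / |σ|) := ⟨_, rfl⟩
    obtain ⟨r, hr⟩ : ∃ r : ℝ, r = Real.log ((J * R₁ + 1 : ℕ) : ℝ) := ⟨_, rfl⟩
    have hlσ : u ≤ w := by rw [hu, hw]; exact Real.log_le_log (one_div_pos.2 hσ0) hσt
    have hlρ : r ≤ w := by
      rw [hr, hw]
      apply Real.log_le_log
      · exact_mod_cast Nat.succ_pos _
      · rw [Nat.cast_add, Nat.cast_one, ← hX]
        linarith only [hbig, hX0]
    have hlρ0 : 0 ≤ r := by rw [hr]; exact Real.log_natCast_nonneg _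
    have hlσ0 : 0 ≤ u := by
      rw [hu]
      apply Real.log_nonneg
      rw [le_div_iff₀ hσ0]
      linarith only [hσ2]
    rw [← hu, ← hr]
    have h1 : s + u + r ≤ (2 * d + 3) * w := by
      rw [hs]
      linarith only [hlσ, hlρ]
    have h2 : (n : ℝ) ^ (-(1 / (d : ℝ))) ≤ 120 * d * Real.sqrt lam :=
      nle hd hS1 haS han hm2
    have hdw : 0 ≤ (2 * (d : ℝ) + 2) * w := mul_nonneg (by linarith only [hd0]) hw0
    have h8 : C₀ * J * (s + u + r) ≤ C₀ * ((2 * d + 2) * w) * ((2 * d + 3) * w) := by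
      apply mul_le_mul _ h1 (by linarith only [hs1, hlσ0, hlρ0]) (mul_nonneg hC₀0.le hdw)
      exact mul_le_mul_of_nonneg_left hJle hC₀0.le
    calc C₀ * J * (s + u + r) * (n : ℝ) ^ (-(1 / (d : ℝ))) ≤
          C₀ * ((2 * d + 2) * w) * ((2 * d + 3) * w) * (120 * d * Real.sqrt lam) := by
          apply mul_le_mul h8 h2 (Real.rpow_nonneg (Nat.cast_nonneg _) _)
          exact mul_nonneg (mul_nonneg hC₀0.le hdw) (mul_nonneg (by linarith only [hd0]) hw0)
      _ = C₁ * (Real.sqrt lam * w ^ 2) := by rw [hC₁]; ring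
      _ ≤ C * (Real.sqrt lam * w ^ 2) := by
          apply mul_le_mul_of_nonneg_right _ (mul_nonneg hsl.le (sq_nonneg w))
          rw [hC]
          linarith only [hK4, hd0]
      _ = _ := by ring
  · intro N b hb
    have h1 := edp d M' J R₁ m N v σ E s z μ lam G p' b hd hσ hv (by linarith only [hμ, ht0])
      ?_ ?_ hm1 hG1 hJ1 hR₁1 hM2 hp'0 ?_ hb hcond1 hcond2 hcond3
    · rw [hq₂, hX]
      refine (measure_mono ?_).trans h1
      intro V hV
      simp only [Set.mem_setOf_eq] at hV ⊢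
      intro h2
      apply hV
      have h3 : (rch V (box 0 N) E s b (J * R₁) J).card ≤
          (rch V (box 0 N) E s b (J * R₁ + 1) J).card :=
        Finset.card_le_card (rch_mono_rad (Nat.le_succ _) J)
      rw [← ha] at h2
      omega
    · calc (1 : ℝ) ≤ lam * t := hlt
        _ ≤ lam * μ := mul_le_mul_of_nonneg_left (by linarith only [hμ, ht0]) hlam0.le
    · rw [hlam]
      have : 0 < 1 / t := one_div_pos.2 ht0
      linarith only [this]
    · intro h
      exact (hflat h).trans (ENNReal.ofReal_le_ofReal (by rw [hp']; exact le_max_left _ _))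

end Pool.Agent.LE.CL.H45
end
end -- Pool.Agent.Helper45_LSC.PEN

section -- Pool.Agent.Helper70_LSC.ENB

/-! LSC, row ENB: the energy bound for a cluster function near the edge. -/

set_option autoImplicit false

open scoped BigOperators

noncomputable section

namespace Pool.Agent.LE.CL.H70

open Pool.Agent.Anderson Pool.Agent.Loc Pool.Agent.Mob Pool.Agent.Helper54.Bal
  Pool.Agent.Helper96.EXP Pool.Agent.BED Pool.Agent.LE.CL

variable {d : ℕ}

/-- a sum over a larger set of a function which vanishes outside the smaller one -/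
theorem sum_sq_big {f : Site d → ℝ} {b : Site d} {r : ℕ} (hf : ∀ x, x ∉ box b r → f x = 0) :
    ∑ x ∈ box b (r + 1), f x ^ 2 = ∑ x ∈ box b r, f x ^ 2 := by
  symm
  refine Finset.sum_subset (box_mono b (Nat.le_succ r)) fun x _ hx => ?_
  rw [hf x hx]
  norm_num

/-- the shifted sum -/
theorem sum_sq_shift {f : Site d → ℝ} {b : Site d} {r : ℕ} (hf : ∀ x, x ∉ box b r → f x = 0)
    (a : Site d) (T : Finset (Site d)) :
    ∑ x ∈ T, f (x + a) ^ 2 ≤ ∑ x ∈ box b r, f x ^ 2 := by
  classical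
  have h1 : ∑ x ∈ T, f (x + a) ^ 2 = ∑ y ∈ T.map (addRightEmbedding a), f y ^ 2 := by
    rw [Finset.sum_map]
    rfl
  rw [h1]
  have h2 : ∑ y ∈ T.map (addRightEmbedding a), f y ^ 2 =
      ∑ y ∈ (T.map (addRightEmbedding a)).filter (fun y => y ∈ box b r), f y ^ 2 := by
    rw [Finset.sum_filter]
    refine Finset.sum_congr rfl fun y _ => ?_
    split_ifs with h
    · rfl
    · rw [hf y h]
      norm_num
  rw [h2]
  refine Finset.sum_le_sum_of_subset_of_nonneg ?_ fun _ _ _ => sq_nonneg _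
  intro y hy
  exact (Finset.mem_filter.mp hy).2

/-- `ρ + 1/ρ - 2 ≤ 1.11 κ²` -/
theorem ratio_bound {κ ρ : ℝ} (hκ0 : 0 ≤ κ) (hκ1 : κ ≤ 1) (h1 : ρ ≤ Real.exp κ)
    (h2 : 1 ≤ Real.exp κ * ρ) (hρ : 0 < ρ) :
    0 ≤ ρ + 1 / ρ - 2 ∧ ρ + 1 / ρ - 2 ≤ 1.11 * κ ^ 2 := by
  have hE := Real.exp_pos κ
  constructor
  · have h3 : ρ + 1 / ρ - 2 = (ρ - 1) ^ 2 / ρ := by
      field_simp
      ring
    rw [h3]
    positivity
  · -- convexity: ρ + 1/ρ ≤ e^κ + e^-κ
    have h3 : ρ + 1 / ρ ≤ Real.exp κ + Real.exp (-κ) := by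
      rw [Real.exp_neg]
      have h4 : (Real.exp κ + (Real.exp κ)⁻¹) - (ρ + 1 / ρ) =
          (Real.exp κ - ρ) * (Real.exp κ * ρ - 1) / (Real.exp κ * ρ) := by
        field_simp
        ring
      have h5 : 0 ≤ (Real.exp κ - ρ) * (Real.exp κ * ρ - 1) / (Real.exp κ * ρ) :=
        div_nonneg (mul_nonneg (by linarith) (by linarith)) (by positivity)
      linarith only [h4, h5]
    have h6 : Real.exp κ + Real.exp (-κ) ≤ 2 + 1.11 * κ ^ 2 := by
      have h7 := Real.exp_bound' hκ0 hκ1 (n := 4) (by norm_num)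
      have h8 : |Real.exp (-κ) - ∑ m ∈ Finset.range 4, (-κ) ^ m / m.factorial| ≤
          |(-κ)| ^ 4 * (((4 : ℕ).succ : ℝ) / ((4 : ℕ).factorial * (4 : ℕ))) :=
        Real.exp_bound (by rw [abs_neg, abs_of_nonneg hκ0]; exact hκ1) (by norm_num)
      have h9 := (abs_le.mp h8).2
      rw [abs_neg, abs_of_nonneg hκ0] at h9
      simp only [Finset.sum_range_succ, Finset.sum_range_zero, Nat.factorial] at h7 h9
      norm_num at h7 h9
      have h10 : κ ^ 4 ≤ κ ^ 2 := pow_le_pow_of_le_one hκ0 hκ1 (by norm_num)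
      nlinarith only [h7, h9, h10]
    linarith

/-- the numbers -/
theorem enb_num {a D P S β : ℝ} (hP0 : 0 ≤ P) (hS1 : 1 ≤ S) (ha1 : 1 ≤ a) (hβ0 : 0 ≤ β)
    (haβ : a * β ≤ 1 / 5) (hmain : 0.96 * D ≤ β * P ^ 2 + 1.03 * (S * P))
    (hP2D : P ^ 2 ≤ 2.0808 * a * D + 0.00045) : P ≤ 5 * a * S ∧ D ≤ 12 * (a * S ^ 2) := by
  have haS : 1 ≤ a * S := by
    have h := mul_le_mul ha1 hS1 zero_le_one (by linarith only [ha1])
    linarith only [h]
  have hP5 : P ≤ 5 * a * S := by
    by_contra hcon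
    push Not at hcon
    have h1 : 5 < P := by linarith only [haS, hcon]
    have h2 : 0.96 * P ^ 2 ≤ 2.0808 * (a * β * P ^ 2 + 1.03 * (a * S * P)) + 0.00045 := by
      have h3 : a * (0.96 * D) ≤ a * (β * P ^ 2 + 1.03 * (S * P)) :=
        mul_le_mul_of_nonneg_left hmain (by linarith only [ha1])
      have h5 : a * (β * P ^ 2 + 1.03 * (S * P)) = a * β * P ^ 2 + 1.03 * (a * S * P) := by ring
      rw [h5] at h3
      linarith only [hP2D, h3]
    have h3 : a * β * P ^ 2 ≤ 1 / 5 * P ^ 2 := mul_le_mul_of_nonneg_right haβ (sq_nonneg _)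
    have h4 : a * S * P ≤ P / 5 * P := by
      refine mul_le_mul_of_nonneg_right ?_ hP0
      linarith only [hcon]
    have h6 : P / 5 * P = P ^ 2 / 5 := by ring
    rw [h6] at h4
    have h7 : 5 * 5 ≤ P * P := mul_le_mul h1.le h1.le (by norm_num) hP0
    have h8 : P ^ 2 = P * P := sq P
    rw [h8] at h2 h3 h4
    linarith only [h2, h3, h4, h7]
  refine ⟨hP5, ?_⟩
  have h1 : β * P ^ 2 ≤ 5 * (a * S ^ 2) := by
    have h2 : β * P ^ 2 ≤ β * (5 * a * S) ^ 2 :=
      mul_le_mul_of_nonneg_left (pow_le_pow_left₀ hP0 hP5 2) hβ0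
    have h3 : β * (5 * a * S) ^ 2 = 25 * ((a * β) * (a * S ^ 2)) := by ring
    have h4 : (a * β) * (a * S ^ 2) ≤ 1 / 5 * (a * S ^ 2) :=
      mul_le_mul_of_nonneg_right haβ (by positivity)
    linarith only [h2, h4]
  have h2 : S * P ≤ 5 * (a * S ^ 2) := by
    have h3 : S * P ≤ S * (5 * a * S) := mul_le_mul_of_nonneg_left hP5 (by linarith only [hS1])
    have h4 : S * (5 * a * S) = 5 * (a * S ^ 2) := by ring
    linarith only [h3]
  have : 0 ≤ a * S ^ 2 := by positivity
  linarith only [hmain, h1, h2, this]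

/-- row ENB -/
theorem enb (hS : SbpStmt) (hF : FkiStmt) (hN : EniStmt) : EnbStmt := by
  intro d V ω χ ψ e C C' b r m z E lam κ k hd hEC hC4 hcond
  have hd' : (1 : ℝ) ≤ d := by exact_mod_cast hd
  have hω1 : ∀ x, 0.98 ≤ ω x ∧ ω x ≤ 1.02 := by
    intro x
    have := abs_le.mp (hEC.hω x)
    constructor
    · linarith only [this.1]
    · linarith only [this.2]
  have hω0 : ∀ x, 0 < ω x := fun x => by have := (hω1 x).1; linarith only [this]
  -- the function φ
  obtain ⟨φ, hφ⟩ : ∃ φ : Site d → ℝ, φ = fun x => ψ x / ω x := ⟨_, rfl⟩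
  have hψφ : ∀ x, ψ x = ω x * φ x := fun x => by
    rw [hφ]
    have := (hω0 x).ne'
    field_simp
  have hφ0 : ∀ x, x ∉ box b r → φ x = 0 := fun x hx => by
    rw [hφ]
    show ψ x / ω x = 0
    rw [hEC.hψ x hx, zero_div]
  have hχ := hEC.hχ
  obtain ⟨hκ0, hκ1⟩ := hEC.hκ
  obtain ⟨hk0, hklam⟩ := hEC.hk
  obtain ⟨hCne, hCC', hC'b, hCcard⟩ := hEC.hC
  have hCb : C ⊆ box b r := hCC'.trans hC'b
  have hlam0 : 0 ≤ lam := hk0.trans hklam
  -- notation
  obtain ⟨P2, hP2⟩ : ∃ P2 : ℝ, P2 = ∑ x ∈ box b r, ψ x ^ 2 := ⟨_, rfl⟩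
  obtain ⟨D, hD⟩ : ∃ D : ℝ, D = gd φ (box b (r + 1)) := ⟨_, rfl⟩
  obtain ⟨P, hP⟩ : ∃ P : ℝ, P = Real.sqrt P2 := ⟨_, rfl⟩
  obtain ⟨S, hSd⟩ : ∃ S : ℝ, S = Real.sqrt C.card := ⟨_, rfl⟩
  have hP20 : 0 ≤ P2 := by rw [hP2]; exact Finset.sum_nonneg fun _ _ => sq_nonneg _
  have hP0 : 0 ≤ P := by rw [hP]; exact Real.sqrt_nonneg _
  have hPP : P ^ 2 = P2 := by rw [hP]; exact Real.sq_sqrt hP20
  have hS0 : 0 ≤ S := by rw [hSd]; exact Real.sqrt_nonneg _
  have hSS : S ^ 2 = C.card := by rw [hSd]; exact Real.sq_sqrt (Nat.cast_nonneg _)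
  have hS1 : 1 ≤ S := by
    rw [hSd]
    rw [Real.one_le_sqrt]
    have : 1 ≤ C.card := Finset.card_pos.mpr hCne
    exact_mod_cast this
  have hD0 : 0 ≤ D := by
    rw [hD]
    exact Finset.sum_nonneg fun _ _ => Finset.sum_nonneg fun _ _ => sq_nonneg _
  have hψle : ∀ x, |ψ x| ≤ P := by
    intro x
    by_cases hx : x ∈ box b r
    · rw [hP]
      apply Real.abs_le_sqrt
      rw [hP2]
      exact Finset.single_le_sum (f := fun x => ψ x ^ 2) (fun _ _ => sq_nonneg _) hx
    · rw [hEC.hψ x hx, abs_zero]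
      exact hP0
  -- the identity
  have hI := hN d V ω φ b r z k hφ0 hEC.hωe
  have hLHS : ∑ x ∈ box b r, ω x * φ x * ((z - V x) * (ω x * φ x) - nb (fun y => ω y * φ y) x) =
      (z - E) * P2 + ∑ x ∈ box b r, (if x ∈ C then ω x * ψ x else 0) +
      ∑ x ∈ box b r, ∑ i : Fin d, (ψ x * (χ x / χ (x + Pi.single i 1) - 1) * ψ (x + Pi.single i 1) +
        ψ x * (χ x / χ (x - Pi.single i 1) - 1) * ψ (x - Pi.single i 1)) +
      ∑ x ∈ box b r, ψ x * e x := by
    have h1 : (fun y => ω y * φ y) = ψ := by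
      funext y
      rw [hψφ y]
    rw [h1, hP2, Finset.mul_sum, ← Finset.sum_add_distrib, ← Finset.sum_add_distrib,
      ← Finset.sum_add_distrib]
    refine Finset.sum_congr rfl fun x hx => ?_
    have h2 := hEC.heq x (box_mono b (Nat.le_succ r) hx)
    have h3 : (z - V x) * ψ x - nb ψ x = (z - E) * ψ x + ((E - V x) * ψ x - nb ψ x) := by ring
    rw [← hψφ x, h3, h2]
    have h4 : ∑ i : Fin d, (ψ x * (χ x / χ (x + Pi.single i 1) - 1) * ψ (x + Pi.single i 1) +
        ψ x * (χ x / χ (x - Pi.single i 1) - 1) * ψ (x - Pi.single i 1)) =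
        ψ x * ∑ i : Fin d, ((χ x / χ (x + Pi.single i 1) - 1) * ψ (x + Pi.single i 1) +
          (χ x / χ (x - Pi.single i 1) - 1) * ψ (x - Pi.single i 1)) := by
      rw [Finset.mul_sum]
      refine Finset.sum_congr rfl fun i _ => ?_
      ring
    rw [h4]
    split_ifs
    · ring
    · ring
  -- bounds of the terms
  have hT1 : (z - E) * P2 ≤ lam * P2 := by
    refine mul_le_mul_of_nonneg_right ?_ hP20
    have := (abs_le.mp hEC.hE).1
    linarith only [this]
  have hT2 : ∑ x ∈ box b r, (if x ∈ C then ω x * ψ x else 0) ≤ 1.02 * (S * P) := by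
    have h1 : ∑ x ∈ box b r, (if x ∈ C then ω x * ψ x else 0) = ∑ x ∈ C, ω x * ψ x := by
      rw [← Finset.sum_filter]
      congr 1
      ext x
      rw [Finset.mem_filter]
      exact ⟨fun h => h.2, fun h => ⟨hCb h, h⟩⟩
    rw [h1]
    have h2 : ∑ x ∈ C, ω x * ψ x ≤ 1.02 * ∑ x ∈ C, |ψ x| := by
      rw [Finset.mul_sum]
      refine Finset.sum_le_sum fun x _ => ?_
      calc ω x * ψ x ≤ ω x * |ψ x| := mul_le_mul_of_nonneg_left (le_abs_self _) (hω0 x).le
        _ ≤ 1.02 * |ψ x| := mul_le_mul_of_nonneg_right (hω1 x).2 (abs_nonneg _)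
    have h3 : (∑ x ∈ C, |ψ x|) ^ 2 ≤ (S * P) ^ 2 := by
      calc (∑ x ∈ C, |ψ x|) ^ 2 ≤ C.card * ∑ x ∈ C, |ψ x| ^ 2 := sq_sum_le_card_mul_sum_sq
        _ ≤ C.card * P2 := by
            refine mul_le_mul_of_nonneg_left ?_ (Nat.cast_nonneg _)
            rw [hP2]
            simp only [sq_abs]
            exact Finset.sum_le_sum_of_subset_of_nonneg hCb fun _ _ _ => sq_nonneg _
        _ = (S * P) ^ 2 := by rw [mul_pow, hSS, hPP]
    have h4 : ∑ x ∈ C, |ψ x| ≤ S * P :=
      abs_le_of_sq_le_sq' h3 (mul_nonneg hS0 hP0) |>.2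
    linarith only [h2, h4]
  have hT4 : ∑ x ∈ box b r, ψ x * e x ≤ 0.01 * P := by
    calc ∑ x ∈ box b r, ψ x * e x ≤ ∑ x ∈ box b r, P * |e x| := by
          refine Finset.sum_le_sum fun x _ => ?_
          calc ψ x * e x ≤ |ψ x * e x| := le_abs_self _
            _ = |ψ x| * |e x| := abs_mul _ _
            _ ≤ P * |e x| := mul_le_mul_of_nonneg_right (hψle x) (abs_nonneg _)
      _ = P * ∑ x ∈ box b r, |e x| := by rw [Finset.mul_sum]
      _ ≤ P * ∑ x ∈ box b (r + 1), |e x| := by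
          refine mul_le_mul_of_nonneg_left ?_ hP0
          exact Finset.sum_le_sum_of_subset_of_nonneg (box_mono b (Nat.le_succ r))
            fun _ _ _ => abs_nonneg _
      _ ≤ P * (1 / 100) := mul_le_mul_of_nonneg_left hEC.he hP0
      _ = 0.01 * P := by ring
  have hT3 : ∑ x ∈ box b r, ∑ i : Fin d,
      (ψ x * (χ x / χ (x + Pi.single i 1) - 1) * ψ (x + Pi.single i 1) +
        ψ x * (χ x / χ (x - Pi.single i 1) - 1) * ψ (x - Pi.single i 1)) ≤
      1.11 * d * κ ^ 2 * P2 := by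
    have h1 := (hS d (fun x y => ψ x * (χ x / χ y - 1) * ψ y) b r
      (fun x hx y => by rw [hEC.hψ x hx]; ring)).1
    rw [h1]
    have h2 : ∀ x (i : Fin d), ψ x * (χ x / χ (x + Pi.single i 1) - 1) * ψ (x + Pi.single i 1) +
        ψ (x + Pi.single i 1) * (χ (x + Pi.single i 1) / χ x - 1) * ψ x ≤
        1.11 * κ ^ 2 * ((ψ x ^ 2 + ψ (x + Pi.single i 1) ^ 2) / 2) := by
      intro x i
      have hx := hχ x
      have hy := hχ (x + Pi.single i 1)
      obtain ⟨n1, n2⟩ := hEC.hχn x i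
      obtain ⟨q, hq⟩ : ∃ q : ℝ, q = χ (x + Pi.single i 1) / χ x := ⟨_, rfl⟩
      have hq0 : 0 < q := by rw [hq]; positivity
      have hq1 : q ≤ Real.exp κ := by
        rw [hq, div_le_iff₀ hx]
        exact n1
      have hq2 : 1 ≤ Real.exp κ * q := by
        rw [hq, ← mul_div_assoc, le_div_iff₀ hx, one_mul]
        exact n2
      obtain ⟨g1, g2⟩ := ratio_bound hκ0 hκ1 hq1 hq2 hq0
      have hinv : χ x / χ (x + Pi.single i 1) = 1 / q := by
        rw [hq, one_div_div]
      have h3 : ψ x * (χ x / χ (x + Pi.single i 1) - 1) * ψ (x + Pi.single i 1) +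
          ψ (x + Pi.single i 1) * (χ (x + Pi.single i 1) / χ x - 1) * ψ x =
          (q + 1 / q - 2) * (ψ x * ψ (x + Pi.single i 1)) := by
        rw [hinv, ← hq]
        ring
      rw [h3]
      have h4 : ψ x * ψ (x + Pi.single i 1) ≤ (ψ x ^ 2 + ψ (x + Pi.single i 1) ^ 2) / 2 := by
        linarith only [sq_nonneg (ψ x - ψ (x + Pi.single i 1))]
      have h5 : 0 ≤ (ψ x ^ 2 + ψ (x + Pi.single i 1) ^ 2) / 2 := by positivity
      calc (q + 1 / q - 2) * (ψ x * ψ (x + Pi.single i 1))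
          ≤ (q + 1 / q - 2) * ((ψ x ^ 2 + ψ (x + Pi.single i 1) ^ 2) / 2) :=
            mul_le_mul_of_nonneg_left h4 g1
        _ ≤ 1.11 * κ ^ 2 * ((ψ x ^ 2 + ψ (x + Pi.single i 1) ^ 2) / 2) :=
            mul_le_mul_of_nonneg_right g2 h5
    calc ∑ x ∈ box b (r + 1), ∑ i : Fin d,
        (ψ x * (χ x / χ (x + Pi.single i 1) - 1) * ψ (x + Pi.single i 1) +
          ψ (x + Pi.single i 1) * (χ (x + Pi.single i 1) / χ x - 1) * ψ x)
        ≤ ∑ x ∈ box b (r + 1), ∑ i : Fin d,
          1.11 * κ ^ 2 * ((ψ x ^ 2 + ψ (x + Pi.single i 1) ^ 2) / 2) :=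
          Finset.sum_le_sum fun x _ => Finset.sum_le_sum fun i _ => h2 x i
      _ = ∑ i : Fin d, 1.11 * κ ^ 2 * ((∑ x ∈ box b (r + 1), ψ x ^ 2 +
            ∑ x ∈ box b (r + 1), ψ (x + Pi.single i 1) ^ 2) / 2) := by
          rw [Finset.sum_comm]
          refine Finset.sum_congr rfl fun i _ => ?_
          rw [← Finset.mul_sum, ← Finset.sum_div, Finset.sum_add_distrib]
      _ ≤ ∑ _i : Fin d, 1.11 * κ ^ 2 * P2 := by
          refine Finset.sum_le_sum fun i _ => mul_le_mul_of_nonneg_left ?_ (by positivity)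
          have h6 := sum_sq_big hEC.hψ
          have h7 := sum_sq_shift hEC.hψ (Pi.single i 1) (box b (r + 1))
          rw [← hP2] at h6 h7
          rw [h6]
          linarith only [h7]
      _ = 1.11 * d * κ ^ 2 * P2 := by
          rw [Finset.sum_const, Finset.card_univ, Fintype.card_fin, nsmul_eq_mul]
          ring
  -- the right side
  have hR : 0.96 * D ≤ ∑ x ∈ box b (r + 1), ∑ i : Fin d,
      ω x * ω (x + Pi.single i 1) * (φ (x + Pi.single i 1) - φ x) ^ 2 := by
    rw [hD]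
    unfold gd
    rw [Finset.mul_sum]
    refine Finset.sum_le_sum fun x _ => ?_
    rw [Finset.mul_sum]
    refine Finset.sum_le_sum fun i _ => mul_le_mul_of_nonneg_right ?_ (sq_nonneg _)
    have h1 := (hω1 x).1
    have h2 := (hω1 (x + Pi.single i 1)).1
    have h3 := mul_le_mul h1 h2 (by norm_num) (hω0 x).le
    linarith only [h3]
  have hR2 : 0 ≤ k * ∑ x ∈ box b r, ω x * φ x ^ 2 :=
    mul_nonneg hk0 (Finset.sum_nonneg fun x _ => mul_nonneg (hω0 x).le (sq_nonneg _))
  have hmain : 0.96 * D ≤ (lam + 1.11 * d * κ ^ 2) * P ^ 2 + 1.03 * (S * P) := by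
    have h1 : 0.96 * D ≤ lam * P2 + 1.02 * (S * P) + 1.11 * d * κ ^ 2 * P2 + 0.01 * P := by
      linarith only [hI, hLHS, hR, hR2, hT1, hT2, hT3, hT4]
    have h2 : P ≤ S * P := le_mul_of_one_le_left hP0 hS1
    rw [hPP]
    have h3 : (lam + 1.11 * d * κ ^ 2) * P2 = lam * P2 + 1.11 * d * κ ^ 2 * P2 := by ring
    rw [h3]
    linarith only [h1, h2]
  -- Faber-Krahn
  have hFK := hF d φ b r m C' hd hφ0 hC4
  rw [← hD] at hFK
  have hφψ : ∀ x, |φ x| ≤ |ψ x| / 0.98 := by
    intro x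
    rw [hψφ x, abs_mul, abs_of_pos (hω0 x), le_div_iff₀ (by norm_num)]
    have h := mul_le_mul_of_nonneg_right (hω1 x).1 (abs_nonneg (φ x))
    linarith only [h]
  have hsmall : (∑ x ∈ box b r \ C', |φ x|) ^ 2 ≤ (0.0103) ^ 2 := by
    refine pow_le_pow_left₀ (Finset.sum_nonneg fun _ _ => abs_nonneg _) ?_ 2
    calc ∑ x ∈ box b r \ C', |φ x| ≤ ∑ x ∈ box b r \ C', |ψ x| / 0.98 :=
          Finset.sum_le_sum fun x _ => hφψ x
      _ = (∑ x ∈ box b r \ C', |ψ x|) / 0.98 := by rw [Finset.sum_div]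
      _ ≤ (1 / 100) / 0.98 := by
          refine div_le_div_of_nonneg_right hEC.hψC (by norm_num)
      _ ≤ 0.0103 := by norm_num
  have hP2φ : P2 ≤ 1.0404 * ∑ x ∈ box b r, φ x ^ 2 := by
    rw [hP2, Finset.mul_sum]
    refine Finset.sum_le_sum fun x _ => ?_
    rw [hψφ x, mul_pow]
    refine mul_le_mul_of_nonneg_right ?_ (sq_nonneg _)
    have h1 := pow_le_pow_left₀ (hω0 x).le (hω1 x).2 2
    linarith only [h1]
  obtain ⟨a, ha⟩ : ∃ a : ℝ, a = d * (2 * (m : ℝ) + 1) ^ 2 := ⟨_, rfl⟩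
  have hm0 : (0 : ℝ) ≤ (m : ℝ) := Nat.cast_nonneg m
  have ha1 : 1 ≤ a := by
    rw [ha]
    have h1 : (1 : ℝ) ≤ (2 * (m : ℝ) + 1) ^ 2 := one_le_pow₀ (by linarith only [hm0])
    have h2 := mul_le_mul hd' h1 zero_le_one (by linarith only [hd'])
    linarith only [h2]
  have hP2D : P ^ 2 ≤ 2.0808 * a * D + 0.00045 := by
    rw [hPP]
    have h1 : 2 * d * (2 * (m : ℝ) + 1) ^ 2 * D = 2 * a * D := by rw [ha]; ring
    rw [h1] at hFK
    have h2 : 1.0404 * ∑ x ∈ box b r, φ x ^ 2 ≤
        1.0404 * (2 * a * D + 4 * (∑ x ∈ box b r \ C', |φ x|) ^ 2) :=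
      mul_le_mul_of_nonneg_left hFK (by norm_num)
    have h3 : (0.0103 : ℝ) ^ 2 ≤ 0.000107 := by norm_num
    linarith only [h2, h3, hP2φ, hsmall]
  obtain ⟨β, hβ⟩ : ∃ β : ℝ, β = lam + 1.11 * d * κ ^ 2 := ⟨_, rfl⟩
  rw [← hβ] at hmain
  have hβ0 : 0 ≤ β := by rw [hβ]; positivity
  have haβ : a * β ≤ 1 / 5 := by
    have h1 : 5 * d * (2 * (m : ℝ) + 1) ^ 2 * (lam + 2 * d * κ ^ 2) =
        5 * (a * (lam + 2 * d * κ ^ 2)) := by rw [ha]; ring
    rw [h1] at hcond
    have h2 : β ≤ lam + 2 * d * κ ^ 2 := by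
      rw [hβ]
      have h5 : 0 ≤ (d : ℝ) * κ ^ 2 := mul_nonneg (by linarith only [hd']) (sq_nonneg κ)
      linarith only [h5]
    have h3 : a * β ≤ a * (lam + 2 * d * κ ^ 2) :=
      mul_le_mul_of_nonneg_left h2 (by linarith only [ha1])
    linarith only [h3, hcond]
  obtain ⟨hP5, hD12⟩ := enb_num hP0 hS1 ha1 hβ0 haβ hmain hP2D
  constructor
  · rw [← hP2, ← hPP]
    have h1 : P ^ 2 ≤ (5 * a * S) ^ 2 := pow_le_pow_left₀ hP0 hP5 2
    have h2 : (5 * a * S) ^ 2 = 25 * d ^ 2 * (2 * (m : ℝ) + 1) ^ 4 * C.card := by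
      rw [← hSS, ha]
      ring
    rw [h2] at h1
    exact h1
  · have hgd : gd (fun x => ψ x / ω x) (box b (r + 1)) = D := by rw [hD, hφ]
    rw [hgd]
    rw [hSS, ha] at hD12
    linarith only [hD12]

end Pool.Agent.LE.CL.H70
end
end -- Pool.Agent.Helper70_LSC.ENB

section -- Pool.Agent.Helper77_LSC.ENI

/-!
Row ENI of the squad LSC: the energy identity (ground state representation).
-/

set_option autoImplicit false

noncomputable section

namespace Pool.Agent.LE.CL.H77

open Pool.Agent.Anderson Pool.Agent.Loc Pool.Agent.Mob Pool.Agent.Helper54.Bal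
  Pool.Agent.Helper96.EXP Pool.Agent.BED

theorem eni (hS : SbpStmt) : EniStmt := by
  intro d V ω φ b r z k hφ hω
  have h1 := (hS d (fun x y => ω x * ω y * φ x * (φ x - φ y)) b r (fun x hx y => by
    show ω x * ω y * φ x * (φ x - φ y) = 0
    rw [hφ x hx]
    ring)).1
  have h2 : ∀ x ∈ box b r,
      ω x * φ x * ((z - V x) * (ω x * φ x) - nb (fun y => ω y * φ y) x) =
        ∑ i : Fin d, (ω x * ω (x + Pi.single i 1) * φ x * (φ x - φ (x + Pi.single i 1)) +
          ω x * ω (x - Pi.single i 1) * φ x * (φ x - φ (x - Pi.single i 1))) +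
        k * (ω x * φ x ^ 2) := by
    intro x hx
    have e0 : (z - V x) * (ω x * φ x) = φ x * (k + nb ω x) := by
      rw [← hω x hx]
      ring
    rw [e0]
    have e1 : φ x * nb ω x - nb (fun y => ω y * φ y) x =
        ∑ i : Fin d, (ω (x + Pi.single i 1) * (φ x - φ (x + Pi.single i 1)) +
          ω (x - Pi.single i 1) * (φ x - φ (x - Pi.single i 1))) := by
      unfold nb
      rw [Finset.mul_sum, ← Finset.sum_sub_distrib]
      refine Finset.sum_congr rfl fun i _ => ?_
      ring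
    have e2 : φ x * (k + nb ω x) - nb (fun y => ω y * φ y) x = k * φ x +
        ∑ i : Fin d, (ω (x + Pi.single i 1) * (φ x - φ (x + Pi.single i 1)) +
          ω (x - Pi.single i 1) * (φ x - φ (x - Pi.single i 1))) := by
      rw [← e1]
      ring
    rw [e2, mul_add, Finset.mul_sum]
    have e3 : ∑ i : Fin d, ω x * φ x * (ω (x + Pi.single i 1) * (φ x - φ (x + Pi.single i 1)) +
          ω (x - Pi.single i 1) * (φ x - φ (x - Pi.single i 1))) =
        ∑ i : Fin d, (ω x * ω (x + Pi.single i 1) * φ x * (φ x - φ (x + Pi.single i 1)) +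
          ω x * ω (x - Pi.single i 1) * φ x * (φ x - φ (x - Pi.single i 1))) :=
      Finset.sum_congr rfl fun i _ => by ring
    rw [e3]
    ring
  rw [Finset.sum_congr rfl h2, Finset.sum_add_distrib, h1, ← Finset.mul_sum]
  congr 1
  refine Finset.sum_congr rfl fun x _ => Finset.sum_congr rfl fun i _ => ?_
  ring

end Pool.Agent.LE.CL.H77
end
end -- Pool.Agent.Helper77_LSC.ENI

section -- Pool.Agent.Helper82_LSC.SBP

/-!
# SBP: summation by parts on the lattice
-/

set_option autoImplicit false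

open MeasureTheory ProbabilityTheory Function Filter

open scoped ENNReal BigOperators Topology NNReal

noncomputable section

namespace Pool.Agent.LE.CL.H82

open Pool.Agent.Anderson Pool.Agent.Loc Pool.Agent.Mob Pool.Agent.Helper54.Bal
  Pool.Agent.Helper96.EXP Pool.Agent.BED Pool.Agent.LE.CL

variable {d : ℕ}

theorem mem_box_succ {b x v : Site d} {r : ℕ} (hv : ∀ i, |v i| ≤ 1) (hx : x ∈ box b r) :
    x - v ∈ box b (r + 1) := by
  rw [mem_box, sd_le_iff] at *
  intro i
  have h1 := hx i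
  have h2 := hv i
  have h3 : b i - (x - v) i = (b i - x i) + v i := by
    simp only [Pi.sub_apply]
    ring
  rw [h3]
  push_cast
  exact (abs_add_le _ _).trans (add_le_add h1 h2)

theorem single_abs (i : Fin d) (c : ℤ) (hc : |c| ≤ 1) : ∀ j, |(Pi.single i c : Site d) j| ≤ 1 := by
  intro j
  by_cases h : j = i
  · subst h
    simpa using hc
  · simp [Pi.single_apply, h]

/-- the sum of the shift of a function with support in `box b r` -/
theorem sum_shift (G : Site d → ℝ) (b v : Site d) (r : ℕ) (hv : ∀ i, |v i| ≤ 1)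
    (hG : ∀ x, x ∉ box b r → G x = 0) :
    ∑ x ∈ box b (r + 1), G (x + v) = ∑ x ∈ box b r, G x := by
  refine Finset.sum_bij_ne_zero (fun a _ _ => a + v) ?_ ?_ ?_ ?_
  · intro a _ h
    by_contra hc
    exact h (hG _ hc)
  · intro a _ _ a' _ _ h
    exact add_right_cancel h
  · intro x hx hne
    refine ⟨x - v, mem_box_succ hv hx, ?_, ?_⟩
    · simpa using hne
    · simp
  · intro a _ _
    rfl

theorem sbp : SbpStmt := by
  intro d F b r hF
  have e1 : ∀ i : Fin d, ∀ j, |(Pi.single i (1 : ℤ) : Site d) j| ≤ 1 := fun i =>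
    single_abs i 1 (by norm_num)
  have e2 : ∀ i : Fin d, ∀ j, |(-(Pi.single i (1 : ℤ)) : Site d) j| ≤ 1 := by
    intro i j
    rw [Pi.neg_apply, abs_neg]
    exact e1 i j
  -- the two basic identities, in the direction `i`
  have A : ∀ i : Fin d, ∑ x ∈ box b (r + 1), F x (x + Pi.single i 1) =
      ∑ x ∈ box b r, F x (x + Pi.single i 1) := by
    intro i
    refine (Finset.sum_subset (box_mono b (Nat.le_succ r)) ?_).symm
    intro x _ hx
    exact hF x hx _
  have B : ∀ i : Fin d, ∑ x ∈ box b (r + 1), F (x + Pi.single i 1) x =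
      ∑ x ∈ box b r, F x (x - Pi.single i 1) := by
    intro i
    have h := sum_shift (fun x => F x (x - Pi.single i 1)) b (Pi.single i 1) r (e1 i)
      (fun x hx => hF x hx _)
    rw [← h]
    refine Finset.sum_congr rfl fun x _ => ?_
    simp
  have C : ∀ i : Fin d, ∑ y ∈ box b (r + 1), F (y - Pi.single i 1) y =
      ∑ x ∈ box b r, F x (x + Pi.single i 1) := by
    intro i
    have h := sum_shift (fun x => F x (x + Pi.single i 1)) b (-(Pi.single i 1)) r (e2 i)
      (fun x hx => hF x hx _)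
    rw [← h]
    refine Finset.sum_congr rfl fun x _ => ?_
    simp [sub_eq_add_neg]
  constructor
  · rw [Finset.sum_comm, Finset.sum_comm (s := box b (r + 1))]
    refine Finset.sum_congr rfl fun i _ => ?_
    rw [Finset.sum_add_distrib, Finset.sum_add_distrib, A i, B i]
  · rw [Finset.sum_comm, Finset.sum_comm (s := box b (r + 1))]
    refine Finset.sum_congr rfl fun i _ => ?_
    rw [Finset.sum_add_distrib, Finset.sum_add_distrib, A i, C i, add_comm]

end Pool.Agent.LE.CL.H82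
end
end -- Pool.Agent.Helper82_LSC.SBP

section -- Pool.Agent.Helper56_LSH.LCI

set_option autoImplicit false

open MeasureTheory ProbabilityTheory Function Filter

open scoped ENNReal BigOperators Topology NNReal

noncomputable section

namespace Pool.Agent.LE.H56Z

open Pool.Agent.LE Pool.Agent.Anderson Pool.Agent.Loc

variable {d : ℕ}

theorem sd_single (x : Site d) (i : Fin d) : sd x (x + Pi.single i 1) ≤ 1 := by
  unfold sd
  apply Finset.sup_le
  intro j _
  by_cases h : j = i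
  · subst h
    simp
  · simp [h]

/-- the cutoff -/
def phi (p : Site d) (s : ℕ) (x : Site d) : ℝ := max 0 (min 1 (2 - (sd p x : ℝ) / s))

theorem phi_nonneg (p : Site d) (s : ℕ) (x : Site d) : 0 ≤ phi p s x := le_max_left _ _

theorem phi_le_one (p : Site d) (s : ℕ) (x : Site d) : phi p s x ≤ 1 :=
  max_le zero_le_one (min_le_left _ _)

theorem phi_one {p : Site d} {s : ℕ} (hs : 1 ≤ s) {x : Site d} (h : x ∈ box p s) :
    phi p s x = 1 := by
  rw [mem_box] at h
  have hs' : (0 : ℝ) < s := by exact_mod_cast hs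
  have h1 : (sd p x : ℝ) / s ≤ 1 := by
    rw [div_le_one hs']
    exact_mod_cast h
  unfold phi
  rw [min_eq_left (by linarith only [h1]), max_eq_right zero_le_one]

theorem phi_zero {p : Site d} {s : ℕ} (hs : 1 ≤ s) {x : Site d} (h : 2 * s ≤ sd p x) :
    phi p s x = 0 := by
  have hs' : (0 : ℝ) < s := by exact_mod_cast hs
  have h1 : 2 ≤ (sd p x : ℝ) / s := by
    rw [le_div_iff₀ hs']
    exact_mod_cast h
  unfold phi
  exact max_eq_left ((min_le_right _ _).trans (by linarith only [h1]))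

theorem phi_lip {p : Site d} {s : ℕ} (hs : 1 ≤ s) (x : Site d) (i : Fin d) :
    |phi p s x - phi p s (x + Pi.single i 1)| ≤ 1 / s := by
  have hs' : (0 : ℝ) < s := by exact_mod_cast hs
  have h1 : (sd p x : ℝ) ≤ sd p (x + Pi.single i 1) + 1 := by
    have := sd_triangle p (x + Pi.single i 1) x
    have h2 := sd_single x i
    rw [sd_comm] at h2
    have : sd p x ≤ sd p (x + Pi.single i 1) + 1 := by omega
    exact_mod_cast this
  have h2 : (sd p (x + Pi.single i 1) : ℝ) ≤ sd p x + 1 := by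
    have := sd_triangle p x (x + Pi.single i 1)
    have h2 := sd_single x i
    have : sd p (x + Pi.single i 1) ≤ sd p x + 1 := by omega
    exact_mod_cast this
  unfold phi
  rw [max_comm 0, max_comm 0]
  refine (abs_max_sub_max_le_abs _ _ _).trans ?_
  refine (abs_min_sub_min_le_max _ _ _ _).trans ?_
  apply max_le
  · simp
  · have e : (2 - (sd p x : ℝ) / s) - (2 - (sd p (x + Pi.single i 1) : ℝ) / s) =
        ((sd p (x + Pi.single i 1) : ℝ) - sd p x) / s := by ring
    rw [e, abs_div, abs_of_pos hs']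
    apply div_le_div_of_nonneg_right _ hs'.le
    rw [abs_le]
    constructor <;> linarith

theorem shift_sum (G : Site d → ℝ) (p : Site d) (r : ℕ) (i : Fin d)
    (hG : ∀ x, x ∉ box p r → G x = 0) :
    ∑ x ∈ box p r, G x = ∑ x ∈ box p (r + 1), G (x + Pi.single i 1) := by
  have h1 : ∑ x ∈ box p (r + 1), G (x + Pi.single i 1) =
      ∑ x ∈ (box p (r + 1)).filter (fun x => x + Pi.single i 1 ∈ box p r),
        G (x + Pi.single i 1) := by
    rw [Finset.sum_filter_of_ne]
    intro x _ hx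
    by_contra hn
    exact hx (hG _ hn)
  rw [h1]
  refine Finset.sum_nbij' (fun x => x - Pi.single i 1) (fun x => x + Pi.single i 1) ?_ ?_ ?_ ?_ ?_
  · intro x hx
    rw [Finset.mem_filter]
    have hx' : x - Pi.single i 1 + Pi.single i 1 = x := sub_add_cancel _ _
    refine ⟨?_, ?_⟩
    · rw [mem_box] at hx ⊢
      have h2 := sd_single (x - Pi.single i 1) i
      rw [hx', sd_comm] at h2
      have h3 := sd_triangle p x (x - Pi.single i 1)
      omega
    · rw [hx']
      exact hx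
  · intro x hx
    exact (Finset.mem_filter.1 hx).2
  · intro x _
    exact sub_add_cancel _ _
  · intro x _
    exact add_sub_cancel_right _ _
  · intro x _
    beta_reduce
    rw [sub_add_cancel]

theorem lci (ele : EleStmt) : LciStmt := by
  intro d ω h ε k p s hd hε0 hε hk hs hLS
  obtain ⟨hω, hL⟩ := hLS
  have hs' : (0 : ℝ) < s := by exact_mod_cast hs
  set B := box p (2 * s) with hB
  set B' := box p (2 * s + 1) with hB'
  have hBB' : B ⊆ B' := box_mono p (by omega)
  have hφ0 : ∀ x, x ∉ B → phi p s x = 0 := by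
    intro x hx
    rw [hB, mem_box, not_le] at hx
    exact phi_zero hs hx.le
  -- bounds for `ω`
  have hω1 : ∀ x ∈ B', 9 / 10 ≤ ω x ∧ ω x ≤ 11 / 10 := by
    intro x hx
    have := abs_le.1 (hω x hx)
    constructor <;> linarith only [hε, this]
  -- the sum
  let F : Fin d → Site d → ℝ := fun i x => phi p s x ^ 2 * (ω x * (ω (x + Pi.single i 1) *
    (Real.exp (h (x + Pi.single i 1) - h x) - 1)))
  let G : Fin d → Site d → ℝ := fun i x => phi p s x ^ 2 * (ω x * (ω (x - Pi.single i 1) *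
    (Real.exp (h (x - Pi.single i 1) - h x) - 1)))
  have hF0 : ∀ i x, x ∉ B → F i x = 0 := by
    intro i x hx
    simp only [F, hφ0 x hx]
    ring
  have hG0 : ∀ i x, x ∉ B → G i x = 0 := by
    intro i x hx
    simp only [G, hφ0 x hx]
    ring
  have hsum : ∑ x ∈ B, ∑ i, (F i x + G i x) ≤ k * B.card := by
    calc ∑ x ∈ B, ∑ i, (F i x + G i x) ≤ ∑ x ∈ B, k := by
          apply Finset.sum_le_sum
          intro x hx
          have h1 := hL x hx
          have h2 : ∑ i, (F i x + G i x) = phi p s x ^ 2 * (ω x * ∑ i : Fin d,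
              (ω (x + Pi.single i 1) * (Real.exp (h (x + Pi.single i 1) - h x) - 1) +
                ω (x - Pi.single i 1) * (Real.exp (h (x - Pi.single i 1) - h x) - 1))) := by
            rw [Finset.mul_sum, Finset.mul_sum]
            apply Finset.sum_congr rfl
            intro i _
            simp only [F, G]
            ring
          rw [h2]
          have h3 : phi p s x ^ 2 ≤ 1 := pow_le_one₀ (phi_nonneg p s x) (phi_le_one p s x)
          calc phi p s x ^ 2 * _ ≤ phi p s x ^ 2 * k :=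
                mul_le_mul_of_nonneg_left h1 (sq_nonneg _)
            _ ≤ 1 * k := mul_le_mul_of_nonneg_right h3 hk
            _ = k := one_mul k
      _ = k * B.card := by rw [Finset.sum_const, nsmul_eq_mul, mul_comm]
  have hsum2 : ∑ x ∈ B, ∑ i, (F i x + G i x) =
      ∑ x ∈ B', ∑ i, (F i x + G i (x + Pi.single i 1)) := by
    rw [Finset.sum_comm, Finset.sum_comm (s := B')]
    apply Finset.sum_congr rfl
    intro i _
    rw [Finset.sum_add_distrib, Finset.sum_add_distrib]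
    congr 1
    · exact Finset.sum_subset hBB' (fun x _ hx => hF0 i x hx)
    · exact shift_sum (G i) p (2 * s) i (hG0 i)
  -- the lower bound of an edge
  have hedge : ∀ x ∈ B', ∀ i : Fin d,
      81 / 200 * (if x ∈ box p s then
        (if x + Pi.single i 1 ∈ box p s then (h (x + Pi.single i 1) - h x) ^ 2 else 0) else 0) -
        363 / 100 * (if x ∈ B then 1 / (s : ℝ) ^ 2 else 0) ≤
      F i x + G i (x + Pi.single i 1) := by
    intro x hx i
    have hGx : G i (x + Pi.single i 1) = phi p s (x + Pi.single i 1) ^ 2 *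
        (ω (x + Pi.single i 1) * (ω x * (Real.exp (-(h (x + Pi.single i 1) - h x)) - 1))) := by
      simp only [G]
      rw [add_sub_cancel_right, neg_sub]
    rw [hGx]
    simp only [F]
    set a := h (x + Pi.single i 1) - h x with ha
    set u := phi p s x with hu
    set w := phi p s (x + Pi.single i 1) with hw
    by_cases hx2 : x + Pi.single i 1 ∈ B'
    · obtain ⟨o1, o2⟩ := hω1 x hx
      obtain ⟨o3, o4⟩ := hω1 _ hx2
      have hb := ele.1 u w a (phi_nonneg _ _ _) (phi_nonneg _ _ _)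
      have ha1 : 81 / 100 ≤ ω x * ω (x + Pi.single i 1) := by nlinarith only [o1, o3]
      have ha2 : ω x * ω (x + Pi.single i 1) ≤ 121 / 100 := by nlinarith only [o1, o2, o4]
      have hmin : (if x ∈ box p s then (if x + Pi.single i 1 ∈ box p s then a ^ 2 else 0)
          else 0) ≤ (min u w) ^ 2 * a ^ 2 := by
        split_ifs with c1 c2
        · rw [hu, hw, phi_one hs c1, phi_one hs c2]
          simp
        · positivity
        · positivity
      have hdiff : (u - w) ^ 2 ≤ (if x ∈ B then 1 / (s : ℝ) ^ 2 else 0) := by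
        split_ifs with c
        · have h1 := phi_lip (p := p) hs x i
          rw [← hu, ← hw] at h1
          have h2 : (u - w) ^ 2 ≤ (1 / (s : ℝ)) ^ 2 := sq_le_sq' (by
            have := abs_le.1 h1
            linarith only [this]) (abs_le.1 h1).2
          rwa [one_div_pow] at h2
        · have h1 : u = 0 := hφ0 x c
          have h2 : w = 0 := by
            apply phi_zero hs
            rw [hB, mem_box, not_le] at c
            have h3 := sd_triangle p (x + Pi.single i 1) x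
            have h4 := sd_single x i
            rw [sd_comm] at h4
            omega
          rw [h1, h2]
          simp
      set m2 := (if x ∈ box p s then (if x + Pi.single i 1 ∈ box p s then a ^ 2 else 0)
          else (0 : ℝ)) with hm2
      set D := (if x ∈ B then 1 / (s : ℝ) ^ 2 else 0) with hD
      set M := (min u w) ^ 2 * a ^ 2 with hM
      have hM0 : 0 ≤ M := by positivity
      have hD0 : 0 ≤ (u - w) ^ 2 := sq_nonneg _
      set o := ω x * ω (x + Pi.single i 1) with ho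
      have e : u ^ 2 * (ω x * (ω (x + Pi.single i 1) * (Real.exp a - 1))) +
          w ^ 2 * (ω (x + Pi.single i 1) * (ω x * (Real.exp (-a) - 1))) =
          o * (u ^ 2 * (Real.exp a - 1) + w ^ 2 * (Real.exp (-a) - 1)) := by
        rw [ho]
        ring
      rw [e]
      have h1 : o * (1 / 2 * M - 3 * (u - w) ^ 2) ≤
          o * (u ^ 2 * (Real.exp a - 1) + w ^ 2 * (Real.exp (-a) - 1)) := by
        apply mul_le_mul_of_nonneg_left _ (by linarith only [ha1])
        have : 1 / 2 * M = 1 / 2 * (min u w) ^ 2 * a ^ 2 := by rw [hM]; ring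
        rw [this]
        exact hb
      nlinarith only [mul_le_mul_of_nonneg_right ha1 hM0, mul_le_mul_of_nonneg_right ha2 hD0, hdiff, hmin, h1]
    · have h3 : 2 * s + 1 ≤ sd p x := by
        rw [hB', mem_box, not_le] at hx2
        have h3 := sd_triangle p x (x + Pi.single i 1)
        have h4 := sd_single x i
        omega
      have h4 : x ∉ B := by
        rw [hB, mem_box]
        omega
      have h5 : x ∉ box p s := by
        rw [mem_box]
        omega
      have h6 : w = 0 := by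
        apply phi_zero hs
        rw [hB', mem_box, not_le] at hx2
        omega
      have h7 : u = 0 := hφ0 x h4
      rw [if_neg h4, if_neg h5, h6, h7]
      simp
  -- sum up
  have h1 : ∑ x ∈ B', ∑ i : Fin d, (81 / 200 * (if x ∈ box p s then
        (if x + Pi.single i 1 ∈ box p s then (h (x + Pi.single i 1) - h x) ^ 2 else 0) else 0) -
        363 / 100 * (if x ∈ B then 1 / (s : ℝ) ^ 2 else 0)) ≤ k * B.card := by
    refine le_trans ?_ hsum
    rw [hsum2]
    exact Finset.sum_le_sum fun x hx => Finset.sum_le_sum fun i _ => hedge x hx i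
  have h2 : ∑ x ∈ B', ∑ i : Fin d, (81 / 200 * (if x ∈ box p s then
        (if x + Pi.single i 1 ∈ box p s then (h (x + Pi.single i 1) - h x) ^ 2 else 0) else 0) -
        363 / 100 * (if x ∈ B then 1 / (s : ℝ) ^ 2 else 0)) =
      81 / 200 * eg h p s - 363 / 100 * (d * (1 / (s : ℝ) ^ 2) * B.card) := by
    simp only [Finset.sum_sub_distrib, ← Finset.mul_sum]
    congr 2
    · unfold eg
      have hsub : box p s ⊆ B' := box_mono p (by omega)
      rw [← Finset.sum_subset hsub]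
      · apply Finset.sum_congr rfl
        intro x hx
        apply Finset.sum_congr rfl
        intro i _
        rw [if_pos hx]
      · intro x _ hx
        apply Finset.sum_eq_zero
        intro i _
        rw [if_neg hx]
    · rw [← Finset.sum_subset hBB']
      · rw [Finset.sum_congr rfl (g := fun _ => (d : ℝ) * (1 / (s : ℝ) ^ 2))]
        · rw [Finset.sum_const, nsmul_eq_mul, mul_comm]
        · intro x hx
          rw [if_pos hx, Finset.sum_const, Finset.card_univ, Fintype.card_fin, nsmul_eq_mul]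
      · intro x _ hx
        apply Finset.sum_eq_zero
        intro i _
        rw [if_neg hx]
  rw [h2] at h1
  have hcard : (B.card : ℝ) ≤ 2 ^ d * (2 * (s : ℝ) + 1) ^ d := by
    rw [hB, card_box, ← mul_pow]
    push_cast
    apply pow_le_pow_left₀ (by positivity)
    linarith only
  have hd' : (1 : ℝ) ≤ d := by exact_mod_cast hd
  set q := 1 / (s : ℝ) ^ 2 with hq
  have hq0 : 0 ≤ q := by positivity
  set N := (2 : ℝ) ^ d * (2 * (s : ℝ) + 1) ^ d with hN
  have hB0 : (0 : ℝ) ≤ B.card := by positivity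
  have hgoal : 10 * (d : ℝ) * 2 ^ d * (q + k) * (2 * (s : ℝ) + 1) ^ d =
      10 * d * (q + k) * N := by
    rw [hN]
    ring
  rw [hgoal]
  have e1 : (d : ℝ) * q * B.card ≤ d * q * N := mul_le_mul_of_nonneg_left hcard (by positivity)
  have e2 : k * (B.card : ℝ) ≤ k * N := mul_le_mul_of_nonneg_left hcard hk
  have e3 : k * N ≤ d * (k * N) := by
    have : 0 ≤ k * N := mul_nonneg hk (by positivity)
    nlinarith only [hd', this]
  have e4 : 0 ≤ (d : ℝ) * q * N := by positivity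
  nlinarith only [hk, h1, e1, e2, e3, e4]

end Pool.Agent.LE.H56Z
end
end -- Pool.Agent.Helper56_LSH.LCI
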