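import Pool.Agent.Helper12_MEB.B045
import Pool.Agent.Helper12_MEB.B053

/-!
# Merged copies (generated) of the modules

* `Pool.Agent.Helper42_LE.Msd`
* `Pool.Agent.Helper39_LEC.CDU`
* `Pool.Agent.Helper42_LE.One`
* `Pool.Agent.Helper42_LE.OneT`
* `Pool.Agent.Helper76_LEC.Reg`
* `Pool.Agent.Helper76_LEC.Upa`
* `Pool.Agent.Helper77_LCN.Ins`
* `Pool.Agent.Helper85_LE.Lox`
* `Pool.Agent.Helper59_LE.Smd`
-/

set_option autoImplicit false

section -- Pool.Agent.Helper42_LE.Msd

/-!
# MSD: the deterministic step of the multiscale induction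
-/

set_option autoImplicit false
set_option linter.unusedSectionVars false

open MeasureTheory ProbabilityTheory Function

open scoped ENNReal BigOperators

noncomputable section

namespace Pool.Agent.LE.H42

open Pool.Agent.Anderson Pool.Agent.Loc Pool.Agent.Mob

variable {d : ℕ}

/-- the geometric resolvent identity, as an inequality -/
theorem geo_bound {V : Site d → ℝ} {Λ A : Finset (Site d)} {E α β : ℝ} (hA : A ⊆ Λ)
    (h : (RM V Λ E).det ≠ 0) (hA' : (RM V A E).det ≠ 0) {x y : Site d} (hx : x ∈ A)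
    (hy : y ∈ Λ \ A) (hα : 0 ≤ α) (hβ : 0 ≤ β)
    (hb : ∀ b ∈ A, ∀ b' ∈ Λ \ A, hop b b' ≠ 0 → |gr V A E x b| ≤ α ∧ |gr V Λ E b' y| ≤ β) :
    |gr V Λ E x y| ≤ α * (2 * d * A.card) * β := by
  rw [geo1 hA h hA' hx hy]
  refine (Finset.abs_sum_le_sum_abs _ _).trans ?_
  have h1 : ∀ b ∈ A, |∑ u' ∈ Λ \ A, gr V A E x b * hop b u' * gr V Λ E u' y| ≤
      α * (2 * d) * β := by
    intro b hbA
    refine (Finset.abs_sum_le_sum_abs _ _).trans ?_
    have h2 : ∀ u' ∈ Λ \ A, |gr V A E x b * hop b u' * gr V Λ E u' y| ≤ hop b u' * (α * β) := by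
      intro u' hu'
      by_cases hne : hop b u' = 0
      · rw [hne, mul_zero, zero_mul, zero_mul, abs_zero]
      · obtain ⟨h3, h4⟩ := hb b hbA u' hu' hne
        rw [abs_mul, abs_mul, abs_of_nonneg (hop_nonneg b u')]
        have := hop_nonneg b u'
        calc |gr V A E x b| * hop b u' * |gr V Λ E u' y| ≤ α * hop b u' * β := by gcongr
          _ = _ := by ring
    refine (Finset.sum_le_sum h2).trans ?_
    rw [← Finset.sum_mul]
    calc (∑ u' ∈ Λ \ A, hop b u') * (α * β) ≤ 2 * d * (α * β) := by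
          gcongr
          exact sum_hop_le b _
      _ = _ := by ring
  refine (Finset.sum_le_sum h1).trans (le_of_eq ?_)
  rw [Finset.sum_const, nsmul_eq_mul]
  ring

theorem msd : MsdStmt := by
  classical
  intro d V E m T q L s u hL hT hq hreg hbad hq2 hu
  set Λ : Finset (Site d) := box s (52 * L) with hΛ
  have hL' : (1 : ℝ) ≤ L := by exact_mod_cast hL
  have hdetΛ : (RM V Λ E).det ≠ 0 := (hreg (52 * L) le_rfl).1
  have hq0 : 0 ≤ q := le_trans (by positivity) hq2
  set bad : ℕ → Prop := fun i => ∃ b, sd s b = 3 * i * L + 1 ∧ ¬ SG V L m E b with hbaddef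
  set g : ℕ → ℕ := fun i => ((Finset.Icc i 16).filter fun j => ¬ bad j).card with hg
  -- one good shell
  have step : ∀ i : ℕ, i ≤ 16 → ¬ bad i → ∀ w : ℝ, 0 ≤ w →
      (∀ v ∈ box s (3 * (i + 1) * L), |gr V Λ E v u| ≤ w) →
      ∀ v ∈ box s (3 * i * L), |gr V Λ E v u| ≤ q * w := by
    intro i hi hgood w hw hW v hv
    have hiL : 3 * i * L ≤ 48 * L := Nat.mul_le_mul_right L (by omega)
    have hA : box s (3 * i * L) ⊆ Λ := box_mono s (by omega)
    have huA : u ∈ Λ \ box s (3 * i * L) := by
      rw [Finset.mem_sdiff, hΛ, mem_box, mem_box, hu]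
      exact ⟨le_rfl, by omega⟩
    have hcard : ((box s (3 * i * L)).card : ℝ) ≤ (105 * L) ^ d := by
      rw [card_box]
      push_cast
      have h1 : (3 * i * L : ℝ) ≤ 48 * L := by exact_mod_cast hiL
      gcongr
      linarith
    have hcard2 : ∀ b : Site d, ((box b L).card : ℝ) ≤ (3 * L) ^ d := by
      intro b
      rw [card_box]
      push_cast
      gcongr
      linarith
    have key := geo_bound (α := T) (β := Real.exp (-m * L) * (2 * d * (3 * L) ^ d) * w) hA hdetΛ
      (hreg (3 * i * L) (by omega)).1 hv huA hT (by positivity) (by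
        intro b hb b' hb' hne
        refine ⟨(hreg (3 * i * L) (by omega)).2 v b, ?_⟩
        have h3 := sd_of_hop hne
        rw [mem_box] at hb
        rw [Finset.mem_sdiff, hΛ, mem_box, mem_box] at hb'
        have h4 := sd_triangle s b b'
        have h5 : sd s b' = 3 * i * L + 1 := by omega
        have h6 : SG V L m E b' := by
          by_contra hc
          exact hgood ⟨b', h5, hc⟩
        have hA' : box b' L ⊆ Λ := by
          intro z hz
          rw [mem_box] at hz
          rw [hΛ, mem_box]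
          have h7 := sd_triangle s b' z
          omega
        have huA' : u ∈ Λ \ box b' L := by
          rw [Finset.mem_sdiff, hΛ, mem_box, mem_box, hu]
          refine ⟨le_rfl, fun hc => ?_⟩
          have h7 := sd_triangle s b' u
          omega
        have key2 := geo_bound (α := Real.exp (-m * L)) (β := w) hA' hdetΛ h6.1
          (mem_box.2 (by rw [sd_self]; omega)) huA' (by positivity) hw (by
            intro z hz z' hz' hne'
            have h8 := sd_of_hop hne'
            rw [mem_box] at hz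
            rw [Finset.mem_sdiff, hΛ, mem_box, mem_box] at hz'
            have h9 := sd_triangle b' z z'
            have h10 := sd_triangle s b' z'
            refine ⟨h6.2 z (by omega), hW z' ?_⟩
            rw [mem_box]
            have h11 : 3 * (i + 1) * L = 3 * i * L + 3 * L := by ring
            omega)
        refine key2.trans ?_
        have := hcard2 b'
        gcongr)
    refine key.trans ?_
    calc T * (2 * d * (box s (3 * i * L)).card) * (Real.exp (-m * L) * (2 * d * (3 * L) ^ d) * w)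
        ≤ T * (2 * d * (105 * L) ^ d) * (Real.exp (-m * L) * (2 * d * (3 * L) ^ d) * w) := by
          gcongr
      _ = T * (2 * d * (105 * L) ^ d) * (2 * d * (3 * L) ^ d * Real.exp (-m * L)) * w := by ring
      _ ≤ q * w := by gcongr
  -- downward induction
  have main : ∀ j : ℕ, j ≤ 16 → ∀ v ∈ box s (3 * (17 - j) * L),
      |gr V Λ E v u| ≤ q ^ g (17 - j) * T := by
    intro j
    induction j with
    | zero =>
      intro _ v _
      have h1 : g (17 - 0) = 0 := by
        rw [hg]
        simp
      rw [h1, pow_zero, one_mul]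
      exact (hreg (52 * L) le_rfl).2 v u
    | succ j ih =>
      intro hj v hv
      have ih' := ih (by omega)
      have e1 : 17 - j = (17 - (j + 1)) + 1 := by omega
      set i := 17 - (j + 1) with hi
      rw [e1] at ih'
      have hi16 : i ≤ 16 := by omega
      have hIcc : Finset.Icc i 16 = insert i (Finset.Icc (i + 1) 16) := by
        ext a
        simp only [Finset.mem_Icc, Finset.mem_insert]
        omega
      by_cases hb : bad i
      · have e2 : g i = g (i + 1) := by
          simp only [hg]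
          rw [hIcc, Finset.filter_insert, if_neg (not_not.2 hb)]
        rw [e2]
        apply ih'
        rw [mem_box] at hv ⊢
        have : 3 * (i + 1) * L = 3 * i * L + 3 * L := by ring
        omega
      · have e2 : g i = g (i + 1) + 1 := by
          simp only [hg]
          rw [hIcc, Finset.filter_insert, if_pos hb, Finset.card_insert_of_notMem]
          simp
        rw [e2]
        have := step i hi16 hb _ (by positivity) ih' v hv
        refine this.trans (le_of_eq ?_)
        ring
  -- at most three bad shells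
  have hcount : 13 ≤ g 1 := by
    have hpair : ∀ i j : ℕ, 1 ≤ i → i < j → j ≤ 16 → bad i → bad j → j ≤ i + 2 := by
      intro i j hi hij hj16 hbi hbj
      obtain ⟨b, hb1, hb2⟩ := hbi
      obtain ⟨b', hb1', hb2'⟩ := hbj
      have h1 : 3 * i * L ≤ 48 * L := Nat.mul_le_mul_right L (by omega)
      have h2 : 3 * j * L ≤ 48 * L := Nat.mul_le_mul_right L (by omega)
      have h3 := hbad b (mem_box.2 (by omega)) b' (mem_box.2 (by omega)) hb2 hb2'
      have h4 := sd_triangle s b b'
      by_contra hc
      push Not at hc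
      have h5 : 3 * (i + 3) * L ≤ 3 * j * L := Nat.mul_le_mul_right L (by omega)
      have h6 : 3 * (i + 3) * L = 3 * i * L + 9 * L := by ring
      omega
    have hsplit : ((Finset.Icc 1 16).filter fun j => bad j).card + g 1 = 16 := by
      have := Finset.card_filter_add_card_filter_not (s := Finset.Icc 1 16) (fun j => bad j)
      rw [hg]
      simpa using this
    have hthree : ((Finset.Icc 1 16).filter fun j => bad j).card ≤ 3 := by
      by_cases hne : ((Finset.Icc 1 16).filter fun j => bad j).Nonempty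
      · set i := ((Finset.Icc 1 16).filter fun j => bad j).min' hne with hi
        have hmem := Finset.min'_mem _ hne
        rw [← hi, Finset.mem_filter, Finset.mem_Icc] at hmem
        have hsub : ((Finset.Icc 1 16).filter fun j => bad j) ⊆ Finset.Icc i (i + 2) := by
          intro j hj
          have h1 := Finset.min'_le _ j hj
          rw [← hi] at h1
          rw [Finset.mem_filter, Finset.mem_Icc] at hj
          rw [Finset.mem_Icc]
          refine ⟨h1, ?_⟩
          rcases h1.eq_or_lt with h2 | h2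
          · omega
          · exact hpair i j hmem.1.1 h2 hj.1.2 hmem.2 hj.2
        refine (Finset.card_le_card hsub).trans ?_
        rw [Nat.card_Icc]
        omega
      · rw [Finset.not_nonempty_iff_eq_empty] at hne
        rw [hne]
        simp
    omega
  have hfin := main 16 le_rfl s (mem_box.2 (by rw [sd_self]; omega))
  refine hfin.trans ?_
  have h17 : 17 - 16 = 1 := rfl
  rw [h17]
  exact mul_le_mul_of_nonneg_right (pow_le_pow_of_le_one hq0 hq hcount) hT

end Pool.Agent.LE.H42
end
end -- Pool.Agent.Helper42_LE.Msd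

section -- Pool.Agent.Helper39_LEC.CDU

/-!
# CDU: a cube without decay conducts up to every radius
-/

set_option autoImplicit false

open scoped BigOperators

noncomputable section

namespace Pool.Agent.LE.H39C

open Pool.Agent.Anderson Pool.Agent.Loc Pool.Agent.Mob Pool.Agent.LE

theorem cdu (hF : FvdStmt) : CduStmt := by
  intro d V N L r b E κ T hd hT hrL hbox hdet hT0 hreg hSG
  have hT1 : (0 : ℝ) ≤ T := zero_le_one.trans hT
  obtain ⟨A, hA⟩ : ∃ A : ℝ, A = 1 + 2 * d * (2 * L + 1) ^ d * T := ⟨_, rfl⟩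
  obtain ⟨A', hA'⟩ : ∃ A' : ℝ, A' = 1 + 2 * d * (2 * r + 1) ^ d * T := ⟨_, rfl⟩
  have hrL' : (r : ℝ) ≤ L := by exact_mod_cast hrL
  have hA1 : 1 ≤ A := by
    rw [hA]
    have : (0 : ℝ) ≤ 2 * d * (2 * L + 1) ^ d * T := by positivity
    linarith only [this]
  have hA0 : 0 < A := by linarith only [hA1]
  have hAA : A' ≤ A := by
    rw [hA, hA']
    gcongr
  rw [← hA]
  by_contra hcon
  push Not at hcon
  apply hSG
  refine ⟨(hreg L le_rfl).1, fun u hu => ?_⟩
  obtain ⟨e, he⟩ : ∃ e : ℝ, e = Real.exp (-κ * L) := ⟨_, rfl⟩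
  have he0 : 0 < e := by rw [he]; exact Real.exp_pos _
  rw [← he] at hcon ⊢
  -- the comparison at the radius `r`
  have hΛ : box b (r + 1) ⊆ box 0 N := (box_mono b (by omega)).trans hbox
  have hsub : box b (r + 1) ⊆ box b (L + 1) := box_mono b (by omega)
  have ha0 : 0 ≤ e / A ^ 2 := by positivity
  have h1 := (hF d V (box 0 N) b r E T (e / A ^ 2) hT1 ha0 hΛ hdet (hreg r hrL).1
    (hreg r hrL).2 (fun x hx y hy => hT0 x (hsub hx) y (hsub hy))).2 (fun v hv => by
      have := hcon v hv
      rw [le_div_iff₀ (by positivity), mul_comm]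
      exact this.le)
  have h2 : ∀ c, sd b c = r → |gr V (box b r) E b c| ≤ e / A := by
    intro c hc
    refine (h1 c hc).trans ?_
    rw [← hA']
    calc A' * (e / A ^ 2) ≤ A * (e / A ^ 2) := mul_le_mul_of_nonneg_right hAA ha0
      _ = e / A := by field_simp
  rcases Nat.lt_or_ge r L with hlt | hge
  · -- expansion through the smaller cube
    have hsubL : box b r ⊆ box b L := box_mono b hrL
    have hbr : b ∈ box b r := by
      rw [mem_box, sd_self]
      exact Nat.zero_le _
    have huL : u ∈ box b L \ box b r := by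
      rw [Finset.mem_sdiff, mem_box, mem_box]
      omega
    have h3 := H42.geo_bound (V := V) (Λ := box b L) (A := box b r) (E := E) (α := e / A)
      (β := T) hsubL (hreg L le_rfl).1 (hreg r hrL).1 hbr huL (by positivity) hT1
      (by
        intro c hc c' hc' hh
        rw [mem_box] at hc
        rw [Finset.mem_sdiff, mem_box, mem_box] at hc'
        have e1 := sd_of_hop hh
        have e2 := sd_triangle b c c'
        have e3 : sd b c = r := by omega
        exact ⟨h2 c e3, (hreg L le_rfl).2 c' u⟩)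
    have hcard : ((box b r).card : ℝ) = (2 * r + 1) ^ d := by
      rw [card_box]
      push_cast
      ring
    rw [hcard] at h3
    refine h3.trans ?_
    have h4 : 2 * d * (2 * (r : ℝ) + 1) ^ d * T ≤ A := by
      have : 2 * d * (2 * (r : ℝ) + 1) ^ d * T ≤ A' := by rw [hA']; linarith only
      exact this.trans hAA
    calc e / A * (2 * d * (2 * (r : ℝ) + 1) ^ d) * T =
          e / A * (2 * d * (2 * (r : ℝ) + 1) ^ d * T) := by ring
      _ ≤ e / A * A := mul_le_mul_of_nonneg_left h4 (by positivity)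
      _ = e := by field_simp
  · have hr : r = L := le_antisymm hrL hge
    subst hr
    refine (h2 u hu).trans ?_
    rw [div_le_iff₀ hA0]
    nlinarith only [hA1, he0]

end Pool.Agent.LE.H39C
end
end -- Pool.Agent.Helper39_LEC.CDU

section -- Pool.Agent.Helper42_LE.One

/-!
# ONE: the one site inequality in a finite set
-/

set_option autoImplicit false
set_option linter.unusedSectionVars false

open MeasureTheory ProbabilityTheory Function

open scoped ENNReal BigOperators

noncomputable section

namespace Pool.Agent.LE.H42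

open Pool.Agent.Anderson Pool.Agent.Loc

variable {d : ℕ} {ν : Measure ℝ} [IsProbabilityMeasure ν] {ρ : ℝ}

/-- dependence of the Green function on the potential at one site -/
theorem gr_update {V₀ : Site d → ℝ} {Λ : Finset (Site d)} {E : ℝ} {u : Site d} {s : ℝ}
    (hu : u ∈ Λ) (h0 : (RM V₀ Λ E).det ≠ 0)
    (h1 : (RM (update V₀ u (V₀ u + s)) Λ E).det ≠ 0) {x y : Site d} (hx : x ∈ Λ) (hy : y ∈ Λ) :
    1 - s * gr V₀ Λ E u u ≠ 0 ∧
    gr (update V₀ u (V₀ u + s)) Λ E u y * (1 - s * gr V₀ Λ E u u) = gr V₀ Λ E u y ∧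
    gr (update V₀ u (V₀ u + s)) Λ E x u * (1 - s * gr V₀ Λ E u u) = gr V₀ Λ E x u ∧
    gr (update V₀ u (V₀ u + s)) Λ E x y * (1 - s * gr V₀ Λ E u u) =
      gr V₀ Λ E x y + s * (gr V₀ Λ E x u * gr V₀ Λ E u y - gr V₀ Λ E x y * gr V₀ Λ E u u) := by
  set V' := update V₀ u (V₀ u + s) with hV'
  have hV : ∀ w : Site d, V' w - V₀ w = (if w = u then s else 0) := by
    intro w
    rw [hV']
    by_cases h2 : w = u
    · subst h2; simp
    · simp [h2]
  have key : ∀ a ∈ Λ, ∀ b ∈ Λ, gr V' Λ E a b = gr V₀ Λ E a b +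
      s * gr V₀ Λ E a u * gr V' Λ E u b := by
    intro a ha b hb
    have e1 := gr_perturb h0 h1 ha hb
    simp_rw [hV, mul_ite, mul_zero, ite_mul, zero_mul] at e1
    rw [Finset.sum_ite_eq', if_pos hu] at e1
    linear_combination (-1) * e1
  have k1 : ∀ b ∈ Λ, gr V' Λ E u b * (1 - s * gr V₀ Λ E u u) = gr V₀ Λ E u b := by
    intro b hb
    linear_combination key u hu b hb
  have hl : 1 - s * gr V₀ Λ E u u ≠ 0 := by
    intro hc
    have h2 := k1 u hu
    rw [hc, mul_zero] at h2
    rw [← h2, mul_zero, sub_zero] at hc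
    exact one_ne_zero hc
  refine ⟨hl, k1 y hy, ?_, ?_⟩
  · rw [gr_symm V' Λ E x u, gr_symm V₀ Λ E x u]
    exact k1 x hx
  · have e2 := key x hx y hy
    have e3 := k1 y hy
    linear_combination (1 - s * gr V₀ Λ E u u) * e2 + s * gr V₀ Λ E x u * e3

theorem one_site_ratio (hν : BddDens ν ρ) (V : Site d → ℝ) (Λ : Finset (Site d)) (E : ℝ)
    {x u y : Site d} (hx : x ∈ Λ) (hu : u ∈ Λ) (hy : y ∈ Λ) (t : ℝ) :
    ν {z : ℝ | Real.exp t * |gr (update V u z) Λ E x y| <
      |gr (update V u z) Λ E x u| * |gr (update V u z) Λ E u y|} ≤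
      ENNReal.ofReal (8 * ρ * Real.exp (-t)) := by
  have hρ := hν.1
  by_cases hall : ∀ z : ℝ, (RM (update V u z) Λ E).det = 0
  · have : {z : ℝ | Real.exp t * |gr (update V u z) Λ E x y| <
        |gr (update V u z) Λ E x u| * |gr (update V u z) Λ E u y|} = ∅ := by
      ext z
      simp only [Set.mem_ofPred_eq, Set.mem_empty_iff_false, iff_false, not_lt]
      have h0 : gr (update V u z) Λ E x u = 0 := by
        by_contra hc
        exact (gr_ne_zero hc).2.2 (hall z)
      rw [h0, abs_zero, zero_mul]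
      positivity
    rw [this, measure_empty]
    exact zero_le
  push Not at hall
  obtain ⟨z₀, hdet0⟩ := hall
  set V₀ := update V u z₀ with hV₀
  set g := gr V₀ Λ E u u with hg
  set p := gr V₀ Λ E x y with hp
  set a := gr V₀ Λ E x u with ha
  set b := gr V₀ Λ E u y with hb
  set q := a * b - p * g with hq
  have hsub : {z : ℝ | Real.exp t * |gr (update V u z) Λ E x y| <
        |gr (update V u z) Λ E x u| * |gr (update V u z) Λ E u y|} ⊆
      Set.Icc (z₀ - p / q - 2 * Real.exp (-t)) (z₀ - p / q + 2 * Real.exp (-t)) ∪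
      Set.Icc (z₀ + 1 / g - 2 * Real.exp (-t)) (z₀ + 1 / g + 2 * Real.exp (-t)) := by
    intro z hz
    rw [Set.mem_ofPred_eq] at hz
    have hne : gr (update V u z) Λ E x u ≠ 0 := by
      intro h0
      rw [h0, abs_zero, zero_mul] at hz
      exact absurd hz (not_lt.2 (by positivity))
    have hdet' := (gr_ne_zero hne).2.2
    set s := z - z₀ with hs
    have hupd : update V u z = update V₀ u (V₀ u + s) := by
      rw [hV₀, update_self, update_idem, hs, add_sub_cancel]
    rw [hupd] at hz hdet'
    obtain ⟨hl, e1, e2, e3⟩ := gr_update hu hdet0 hdet' hx hy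
    rw [← hg, ← hb] at e1
    rw [← hg, ← ha] at e2
    rw [← hp, ← hg, ← ha, ← hb, ← hq] at e3
    rw [← hg] at hl
    set l := 1 - s * g with hl'
    have hexp := Real.exp_pos t
    have hlpos : 0 < |l| := abs_pos.2 hl
    have e4 : l * q + (p + s * q) * g = a * b := by
      rw [hl', hq]; ring
    have e5 : Real.exp t * |p + s * q| * |l| < |l| * |q| + |p + s * q| * |g| := by
      calc Real.exp t * |p + s * q| * |l|
          = Real.exp t * |gr (update V₀ u (V₀ u + s)) Λ E x y| * (|l| * |l|) := by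
            rw [← e3, abs_mul]; ring
        _ < |gr (update V₀ u (V₀ u + s)) Λ E x u| * |gr (update V₀ u (V₀ u + s)) Λ E u y| *
            (|l| * |l|) := by
            gcongr
        _ = |a * b| := by rw [← e1, ← e2, abs_mul, abs_mul, abs_mul]; ring
        _ = |l * q + (p + s * q) * g| := by rw [e4]
        _ ≤ |l| * |q| + |p + s * q| * |g| := by
            rw [← abs_mul, ← abs_mul]
            exact abs_add_le _ _
    have hem : Real.exp (-t) = 1 / Real.exp t := by rw [Real.exp_neg, one_div]
    rcases le_total (|p + s * q| * |g|) (|l| * |q|) with hc | hc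
    · left
      have h6 : Real.exp t * |p + s * q| < 2 * |q| := by
        have : Real.exp t * |p + s * q| * |l| < 2 * |q| * |l| := by linarith only [e5, hc]
        exact lt_of_mul_lt_mul_right this hlpos.le
      have hq0 : q ≠ 0 := by
        intro h0
        have h9 : |q| = 0 := by rw [h0, abs_zero]
        have h10 : (0 : ℝ) ≤ Real.exp t * |p + s * q| := by positivity
        rw [h9] at h6
        linarith only [h6, h10]
      have h7 : |s + p / q| ≤ 2 * Real.exp (-t) := by
        rw [hem]
        have h8 : s + p / q = (p + s * q) / q := by field_simp; ring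
        rw [h8, abs_div, div_le_iff₀ (abs_pos.2 hq0), mul_one_div, div_mul_eq_mul_div,
          le_div_iff₀ hexp]
        linarith only [h6]
      rw [abs_le] at h7
      constructor <;> linarith only [h7.1, h7.2]
    · right
      have hg0 : g ≠ 0 := by
        intro h0
        rw [h0, abs_zero, mul_zero, add_zero] at e5
        rw [h0, abs_zero, mul_zero] at hc
        have : (0 : ℝ) ≤ Real.exp t * |p + s * q| * |l| := by positivity
        linarith only [e5, hc, this]
      have hp0 : 0 < |p + s * q| := by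
        rcases eq_or_lt_of_le (abs_nonneg (p + s * q)) with h0 | h0
        · rw [← h0, zero_mul] at hc
          rw [← h0, mul_zero, zero_mul, zero_mul, add_zero] at e5
          linarith only [e5, hc]
        · exact h0
      have h6 : Real.exp t * |l| < 2 * |g| := by
        have : Real.exp t * |l| * |p + s * q| < 2 * |g| * |p + s * q| := by linarith only [e5, hc]
        exact lt_of_mul_lt_mul_right this hp0.le
      have h7 : |s - 1 / g| ≤ 2 * Real.exp (-t) := by
        rw [hem]
        have h8 : s - 1 / g = -l / g := by rw [hl']; field_simp; ring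
        rw [h8, abs_div, abs_neg, div_le_iff₀ (abs_pos.2 hg0), mul_one_div, div_mul_eq_mul_div,
          le_div_iff₀ hexp]
        linarith only [h6]
      rw [abs_le] at h7
      constructor <;> linarith only [h7.1, h7.2]
  refine (measure_mono hsub).trans ((measure_union_le _ _).trans ((add_le_add (hν.2 _ _)
    (hν.2 _ _)).trans (le_of_eq ?_)))
  have hexp := Real.exp_pos (-t)
  rw [← ENNReal.ofReal_add (mul_nonneg hρ.le (by linarith)) (mul_nonneg hρ.le (by linarith))]
  congr 1
  ring

/-- The one site inequality: for a finite set and a fixed energy. -/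
theorem one (hν : BddDens ν ρ) (E : ℝ) (Λ : Finset (Site d)) {x u y : Site d} (hx : x ∈ Λ)
    (hu : u ∈ Λ) (hy : y ∈ Λ) (t : ℝ) :
    PL ν Λ {V | Real.exp t * |gr V Λ E x y| < |gr V Λ E x u| * |gr V Λ E u y|} ≤
      ENNReal.ofReal (8 * ρ * Real.exp (-t)) := by
  have hS : MeasurableSet
      {V : Site d → ℝ | Real.exp t * |gr V Λ E x y| < |gr V Λ E x u| * |gr V Λ E u y|} :=
    measurableSet_lt (measurable_const.mul (measurable_gr Λ E x y).abs)
      ((measurable_gr Λ E x u).abs.mul (measurable_gr Λ E u y).abs)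
  rw [← lintegral_indicator_one hS]
  apply PL_le_of_marg (S := {u})
  · intro z hz
    rw [Finset.mem_singleton] at hz
    rw [hz]
    exact hu
  · exact measurable_one.indicator hS
  · intro V
    rw [lmarginal_singleton]
    have h1 : ∀ z : ℝ, Set.indicator
        {V : Site d → ℝ | Real.exp t * |gr V Λ E x y| < |gr V Λ E x u| * |gr V Λ E u y|}
        (1 : (Site d → ℝ) → ℝ≥0∞) (update V u z) =
        Set.indicator {z : ℝ | Real.exp t * |gr (update V u z) Λ E x y| <
          |gr (update V u z) Λ E x u| * |gr (update V u z) Λ E u y|} 1 z := fun z => rfl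
    simp_rw [h1]
    have h2 : MeasurableSet {z : ℝ | Real.exp t * |gr (update V u z) Λ E x y| <
        |gr (update V u z) Λ E x u| * |gr (update V u z) Λ E u y|} := (measurable_update V) hS
    rw [lintegral_indicator_one h2]
    exact one_site_ratio hν V Λ E hx hu hy t

end Pool.Agent.LE.H42
end
end -- Pool.Agent.Helper42_LE.One

section -- Pool.Agent.Helper42_LE.OneT

/-!
# ONE: the statement `OneTail`
-/

set_option autoImplicit false

open MeasureTheory ProbabilityTheory Function

open scoped ENNReal BigOperators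

noncomputable section

namespace Pool.Agent.LE.H42

open Pool.Agent.Anderson Pool.Agent.Loc

theorem oneTail {d : ℕ} {ν : Measure ℝ} [IsProbabilityMeasure ν] {ρ : ℝ} (hν : BddDens ν ρ)
    (E : ℝ) : OneTail d ν E (8 * ρ) := by
  intro Λ x u y t hx hu hy ht
  have hρ := hν.1
  refine (one hν E Λ hx hu hy t).trans (ENNReal.ofReal_le_ofReal ?_)
  gcongr
  linarith

theorem oneTail_gl {d : ℕ} {σ : ℝ} (hσ : σ ≠ 0) (E : ℝ) : ∃ C, OneTail d (gl σ) E C :=
  ⟨_, oneTail (bddDens_gl hσ) E⟩

end Pool.Agent.LE.H42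
end
end -- Pool.Agent.Helper42_LE.OneT

section -- Pool.Agent.Helper76_LEC.Reg

/-!
# REG: regularity has probability near one, uniformly in the parameters
-/

set_option autoImplicit false

open MeasureTheory ProbabilityTheory Function Filter

open scoped ENNReal BigOperators Topology

noncomputable section

namespace Pool.Agent.LE.H76C

open Pool.Agent.Anderson Pool.Agent.Loc Pool.Agent.Helper54.Bal Pool.Agent.Helper96.EXP
  Pool.Agent.LE.H96

variable {d : ℕ}

/-- the diagonal: Markov's inequality of order `4 d` -/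
theorem diag_tail {σ E C t : ℝ} {N : ℕ} {x : Site d} (hC : 0 < C) (ht : 0 < t)
    (hm : Measurable fun V => DL (box 0 N) E V x x)
    (hU : ∫⁻ V, (mx V N E x 1) ^ (4 * d) ∂(PP d (gl σ)) ≤ ENNReal.ofReal (C ^ (4 * d))) :
    PP d (gl σ) {V | t < DL (box 0 N) E V x x} ≤ ENNReal.ofReal ((C / t) ^ (4 * d)) := by
  set f : (Site d → ℝ) → ℝ≥0∞ := fun V => ENNReal.ofReal (DL (box 0 N) E V x x) ^ (4 * d) with hf
  have hfm : Measurable f := (hm.ennreal_ofReal).pow_const _
  have h1 : ∫⁻ V, f V ∂(PP d (gl σ)) ≤ ENNReal.ofReal (C ^ (4 * d)) := by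
    refine le_trans (lintegral_mono fun V => ?_) hU
    refine pow_le_pow_left' ?_ _
    unfold mx
    exact Finset.le_sup (f := fun s => ENNReal.ofReal (DL (box 0 N) E V x s))
      (mem_box.2 (by rw [sd_self]; omega))
  have h2 := mul_meas_ge_le_lintegral (μ := PP d (gl σ)) hfm (ENNReal.ofReal (t ^ (4 * d)))
  have h3 : {V | t < DL (box 0 N) E V x x} ⊆ {V | ENNReal.ofReal (t ^ (4 * d)) ≤ f V} := by
    intro V hV
    rw [Set.mem_ofPred_eq] at hV ⊢
    rw [ENNReal.ofReal_pow ht.le]
    exact pow_le_pow_left' (ENNReal.ofReal_le_ofReal hV.le) _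
  have h4 : ENNReal.ofReal (t ^ (4 * d)) * PP d (gl σ) {V | t < DL (box 0 N) E V x x} ≤
      ENNReal.ofReal (C ^ (4 * d)) :=
    (mul_le_mul' le_rfl (measure_mono h3)).trans (h2.trans h1)
  have h5 : ENNReal.ofReal (t ^ (4 * d)) ≠ 0 := by
    rw [ENNReal.ofReal_ne_zero_iff]
    positivity
  have h6 : ENNReal.ofReal ((C / t) ^ (4 * d)) =
      ENNReal.ofReal (C ^ (4 * d)) / ENNReal.ofReal (t ^ (4 * d)) := by
    rw [div_pow, ENNReal.ofReal_div_of_pos (by positivity)]
  rw [h6, ENNReal.le_div_iff_mul_le (Or.inl h5) (Or.inl ENNReal.ofReal_ne_top), mul_comm]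
  exact h4

/-- REG. -/
theorem reg (huch : UchStmt) : RegStmt := by
  classical
  intro d R B τ p hd hB hτ hp
  obtain ⟨C, hC, hU⟩ := huch d (4 * d) B hd le_rfl hB
  set K : ℝ := 8 * B with hK
  have hK0 : 0 < K := by positivity
  have hsmall := poly_small (3 * d + 1) (μ := τ / 3) (by positivity) 1
    (((R : ℝ) + 1) ^ (3 * d + 1) * K) (q := p / 4) (by positivity)
  have hsmall2 : ∀ᶠ L : ℕ in atTop, (2 * (R : ℝ) + 1) ^ d * (C / τ) ^ (4 * d) / L ≤ p / 4 :=
    ((tendsto_const_div_atTop_nhds_zero_nat _).eventually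
      (eventually_lt_nhds (by positivity : (0 : ℝ) < p / 4))).mono fun _ h => h.le
  obtain ⟨L₀, hL₀⟩ := eventually_atTop.1 (hsmall.and (hsmall2.and (eventually_ge_atTop 1)))
  refine ⟨L₀, fun σ E N W L a hpar hL hW ha => ?_⟩
  obtain ⟨hn1, hn2, hL1⟩ := hL₀ L hL
  obtain ⟨hE, hσB, hσ1⟩ := hpar
  have hσ : σ ≠ 0 := by
    rintro rfl
    rw [abs_zero, mul_zero] at hσ1
    linarith only [hσ1]
  have hσp : 0 < |σ| := abs_pos.2 hσ
  have hν := bddDens_gl hσ
  set ρ : ℝ := 1 / |σ| with hρd
  have hρ := hν.1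
  have hρB : ρ ≤ B := by
    rw [hρd, div_le_iff₀ hσp]
    exact hσ1
  obtain ⟨_, _, hF⟩ := Pool.Agent.LE.H54.fmn d σ E hd hσ
  have hLr : (1 : ℝ) ≤ L := by exact_mod_cast hL1
  have hWr : (W : ℝ) ≤ R * L := by exact_mod_cast hW
  have hR0 : (0 : ℝ) ≤ R := Nat.cast_nonneg R
  set A := box a W with hA
  have haA : A ⊆ box 0 N := (box_mono a (by omega)).trans ha
  set T : ℝ := Real.exp (τ * L) with hT
  have hTpos : 0 < T := Real.exp_pos _
  obtain ⟨q, hq⟩ : ∃ q : ℝ, q = K * Real.exp (-(τ / 3) * L) := ⟨_, rfl⟩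
  have hq0 : 0 ≤ q := by rw [hq]; positivity
  obtain ⟨S, hS⟩ : ∃ S : ℝ, S = ((R : ℝ) + 1) * (2 * L + 1) := ⟨_, rfl⟩
  have hRL : 0 ≤ (R : ℝ) * L := by positivity
  have hSW : 2 * (W : ℝ) + 1 ≤ S := by rw [hS]; nlinarith only [hLr, hWr]
  have hSL : 2 * (L : ℝ) + 1 ≤ S := by rw [hS]; nlinarith only [hWr]
  have hS1 : 1 ≤ S := by linarith only [hLr, hWr, hS]
  have hnum : S ^ (3 * d + 1) * q ≤ p / 4 := by
    refine le_trans (le_of_eq ?_) hn1
    rw [hS, hq, mul_pow]
    ring
  have hTe : 6 * ρ / T ≤ q := by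
    rw [div_eq_mul_inv, hT, ← Real.exp_neg, hq]
    apply mul_le_mul
    · rw [hK]
      linarith only [hB, hρB]
    · rw [Real.exp_le_exp]
      have : 0 ≤ τ * L := by positivity
      linarith only [this]
    · positivity
    · positivity
  have hCe : 8 * ρ * Real.exp (-(τ * L) / 3) ≤ q := by
    rw [show -(τ * (L : ℝ)) / 3 = -(τ / 3) * L by ring, hq]
    apply mul_le_mul_of_nonneg_right _ (Real.exp_pos _).le
    rw [hK]
    linarith only [hρB]
  have hcA : (A.card : ℝ) ≤ S ^ d := by
    rw [hA, card_box]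
    push_cast
    exact pow_le_pow_left₀ (by positivity) hSW _
  set M0 : Set (Site d → ℝ) := {V | (RM V (box 0 N) E).det = 0} with hM0
  set M1 : Set (Site d → ℝ) := ⋃ z ∈ A ×ˢ A, {V | gr V (box 0 N) E z.1 z.2 = 0} with hM1
  set M2 : Set (Site d → ℝ) := ⋃ z ∈ A ×ˢ A, {V | T < |gr V (box 0 N) E z.1 z.2|} with hM2
  set M3 : Set (Site d → ℝ) := ⋃ z ∈ A ×ˢ (A ×ˢ A),
    {V | Real.exp (τ * L) * |gr V (box 0 N) E z.1 z.2.2| <
      |gr V (box 0 N) E z.1 z.2.1| * |gr V (box 0 N) E z.2.1 z.2.2|} with hM3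
  set I : Finset (ℕ × Site d) := Finset.range (L + 1) ×ˢ A with hI
  set M4 : Set (Site d → ℝ) := ⋃ i ∈ I, {V | (RM V (box i.2 i.1) E).det = 0} with hM4
  set M5 : Set (Site d → ℝ) := ⋃ i ∈ I, ⋃ z ∈ box i.2 i.1 ×ˢ box i.2 i.1,
    {V | T < |gr V (box i.2 i.1) E z.1 z.2|} with hM5
  set M6 : Set (Site d → ℝ) := ⋃ x ∈ A, {V | τ * L < DL (box 0 N) E V x x} with hM6
  have hnull : ∀ Λ : Finset (Site d), PP d (gl σ) {V | (RM V Λ E).det = 0} = 0 := by
    intro Λ
    have h1 : Pool.Agent.Mob.H75.Loc {V : Site d → ℝ | (RM V Λ E).det = 0} Λ := by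
      intro V V' h
      rw [Set.mem_ofPred_eq, Set.mem_ofPred_eq, RM_congr h]
    exact le_antisymm ((Pool.Agent.Mob.H75.PP_le_PL h1).trans (PL_det hν _ _ le_rfl E).le) zero_le
  have hweak : ∀ (Λ : Finset (Site d)) (x y : Site d),
      PP d (gl σ) {V | T < |gr V Λ E x y|} ≤ ENNReal.ofReal q := by
    intro Λ x y
    have h1 : Pool.Agent.Mob.H75.Loc {V : Site d → ℝ | T < |gr V Λ E x y|} Λ := by
      intro V V' h
      rw [Set.mem_ofPred_eq, Set.mem_ofPred_eq, gr_congr h]
    exact ((Pool.Agent.Mob.H75.PP_le_PL h1).trans (PL_weak hν _ E x y hTpos)).trans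
      (ENNReal.ofReal_le_ofReal hTe)
  have p0 : PP d (gl σ) M0 = 0 := hnull _
  have p1 : PP d (gl σ) M1 = 0 := by
    refine le_antisymm ((measure_biUnion_finset_le _ _).trans
      (le_of_eq (Finset.sum_eq_zero fun z hz => ?_))) zero_le
    have hz' := Finset.mem_product.1 hz
    exact (hF N).2 z.1 (haA hz'.1) z.2 (haA hz'.2)
  have p4 : PP d (gl σ) M4 = 0 := by
    exact le_antisymm ((measure_biUnion_finset_le _ _).trans
      (le_of_eq (Finset.sum_eq_zero fun s _ => hnull _))) zero_le
  have hpow : ∀ k : ℕ, k ≤ 3 * d + 1 → S ^ k ≤ S ^ (3 * d + 1) := by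
    intro k hk
    exact pow_le_pow_right₀ hS1 hk
  have hS0 : 0 ≤ S := by linarith only [hLr, hWr, hS]
  have p2 : PP d (gl σ) M2 ≤ ENNReal.ofReal (p / 4) := by
    apply union_le (q := q)
    · intro z _
      exact hweak _ _ _
    · refine le_trans ?_ hnum
      apply mul_le_mul_of_nonneg_right _ hq0
      rw [Finset.card_product]
      push_cast
      calc (A.card : ℝ) * A.card ≤ S ^ d * S ^ d := by gcongr
        _ = S ^ (2 * d) := by rw [← pow_add]; congr 1; ring
        _ ≤ S ^ (3 * d + 1) := hpow _ (by omega)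
  have p3 : PP d (gl σ) M3 ≤ ENNReal.ofReal (p / 4) := by
    apply union_le (q := q)
    · intro z hz
      rw [Finset.mem_product, Finset.mem_product] at hz
      have h1 : Pool.Agent.Mob.H75.Loc {V : Site d → ℝ |
          Real.exp (τ * L) * |gr V (box 0 N) E z.1 z.2.2| <
            |gr V (box 0 N) E z.1 z.2.1| * |gr V (box 0 N) E z.2.1 z.2.2|} (box 0 N) := by
        intro V V' h
        rw [Set.mem_ofPred_eq, Set.mem_ofPred_eq, gr_congr h, gr_congr h, gr_congr h]
      refine (Pool.Agent.Mob.H75.PP_le_PL h1).trans ?_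
      refine (H42.oneTail hν E (box 0 N) z.1 z.2.1 z.2.2 (τ * L) (haA hz.1) (haA hz.2.1)
        (haA hz.2.2) (by positivity)).trans ?_
      exact ENNReal.ofReal_le_ofReal hCe
    · refine le_trans ?_ hnum
      apply mul_le_mul_of_nonneg_right _ hq0
      rw [Finset.card_product, Finset.card_product]
      push_cast
      calc (A.card : ℝ) * (A.card * A.card) ≤ S ^ d * (S ^ d * S ^ d) := by gcongr
        _ = S ^ (3 * d) := by rw [← pow_add, ← pow_add]; congr 1; ring
        _ ≤ S ^ (3 * d + 1) := hpow _ (by omega)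
  have p5 : PP d (gl σ) M5 ≤ ENNReal.ofReal (p / 4) := by
    apply union_le (q := S ^ (2 * d) * q)
    · intro i hi
      apply union_le (q := q)
      · intro z _
        exact hweak _ _ _
      · apply mul_le_mul_of_nonneg_right _ hq0
        rw [Finset.card_product, card_box]
        push_cast
        rw [← pow_add, show d + d = 2 * d by ring]
        apply pow_le_pow_left₀ (by positivity)
        rw [hI, Finset.mem_product, Finset.mem_range] at hi
        have h3 : (i.1 : ℝ) ≤ L := by
          have : i.1 ≤ L := by omega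
          exact_mod_cast this
        linarith only [hWr, hS, h3]
    · refine le_trans ?_ hnum
      rw [hI, Finset.card_product, Finset.card_range]
      push_cast
      calc ((L : ℝ) + 1) * A.card * (S ^ (2 * d) * q)
          ≤ S * S ^ d * (S ^ (2 * d) * q) := by
            gcongr
            linarith only [hLr, hWr, hS]
        _ = S ^ (3 * d + 1) * q := by
            rw [show 3 * d + 1 = 1 + d + 2 * d by ring, pow_add, pow_add, pow_one]
            ring
  have p6 : PP d (gl σ) M6 ≤ ENNReal.ofReal (p / 4) := by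
    apply union_le (q := (C / (τ * L)) ^ (4 * d))
    · intro x hx
      have hx1 : box x 1 ⊆ box 0 N := by
        refine subset_trans ?_ ha
        intro z hz
        rw [mem_box] at hz ⊢
        rw [hA, mem_box] at hx
        have := sd_triangle a x z
        omega
      have h1 := hU σ E ⟨hE, hσB, hσ1⟩ N 1 x le_rfl hx1
      rw [Nat.cast_one, mul_one] at h1
      exact diag_tail hC (by positivity) ((hF N).1.meas x x) h1
    · refine le_trans ?_ hn2
      have h1 : (A.card : ℝ) ≤ ((2 * R + 1) * L) ^ d := by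
        rw [hA, card_box]
        push_cast
        apply pow_le_pow_left₀ (by positivity)
        nlinarith only [hLr, hWr]
      have h2 : (C / (τ * L)) ^ (4 * d) = (C / τ) ^ (4 * d) / L ^ (4 * d) := by
        rw [← div_pow]
        congr 1
        field_simp
      rw [h2]
      have h3 : (0 : ℝ) < L := by linarith only [hLr]
      calc (A.card : ℝ) * ((C / τ) ^ (4 * d) / L ^ (4 * d))
          ≤ ((2 * R + 1) * L) ^ d * ((C / τ) ^ (4 * d) / L ^ (4 * d)) := by gcongr
        _ = (2 * (R : ℝ) + 1) ^ d * (C / τ) ^ (4 * d) * ((L : ℝ) ^ d / L ^ (4 * d)) := by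
            rw [mul_pow]
            ring
        _ ≤ (2 * (R : ℝ) + 1) ^ d * (C / τ) ^ (4 * d) * (1 / L) := by
            apply mul_le_mul_of_nonneg_left _ (by positivity)
            rw [div_le_div_iff₀ (by positivity) h3, one_mul, ← pow_succ]
            exact pow_le_pow_right₀ hLr (by omega)
        _ = (2 * (R : ℝ) + 1) ^ d * (C / τ) ^ (4 * d) / L := by ring
  have hincl : {V : Site d → ℝ | ¬ RegE V N W L a E (τ * L)} ⊆
      (M0 ∪ M1 ∪ M4) ∪ (M2 ∪ (M3 ∪ (M5 ∪ M6))) := by
    intro V hV
    by_contra hcon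
    simp only [Set.mem_union, not_or] at hcon
    obtain ⟨⟨⟨c0, c1⟩, c4⟩, c2, c3, c5, c6⟩ := hcon
    apply hV
    have hg0 : ∀ x ∈ A, ∀ y ∈ A, gr V (box 0 N) E x y ≠ 0 := by
      intro x hx y hy h0
      apply c1
      rw [hM1]
      simp only [Set.mem_iUnion, exists_prop]
      exact ⟨(x, y), Finset.mem_product.2 ⟨hx, hy⟩, h0⟩
    refine ⟨c0, fun x hx y hy => ⟨hg0 x hx y hy, ?_⟩, ?_, ?_, ?_⟩
    · by_contra h0
      rw [not_le] at h0
      apply c2
      rw [hM2]
      simp only [Set.mem_iUnion, exists_prop]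
      exact ⟨(x, y), Finset.mem_product.2 ⟨hx, hy⟩, h0⟩
    · intro x hx u hu y hy
      apply H59.dl_le (hg0 x hx y hy) (hg0 x hx u hu) (hg0 u hu y hy)
      by_contra h0
      rw [not_le] at h0
      apply c3
      rw [hM3]
      simp only [Set.mem_iUnion, exists_prop]
      exact ⟨(x, (u, y)), Finset.mem_product.2 ⟨hx, Finset.mem_product.2 ⟨hu, hy⟩⟩, h0⟩
    · intro x hx
      by_contra h0
      rw [not_le] at h0
      apply c6
      rw [hM6]
      simp only [Set.mem_iUnion, exists_prop]
      exact ⟨x, hx, h0⟩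
    · intro r hr b hb
      have hmem : (r, b) ∈ I := by
        rw [hI, Finset.mem_product, Finset.mem_range]
        exact ⟨by simp only; omega, hb⟩
      refine ⟨fun h0 => ?_, fun x y => ?_⟩
      · apply c4
        rw [hM4]
        simp only [Set.mem_iUnion, exists_prop]
        exact ⟨(r, b), hmem, h0⟩
      · by_cases hxy : x ∈ box b r ∧ y ∈ box b r
        · by_contra h0
          rw [not_le] at h0
          apply c5
          rw [hM5]
          simp only [Set.mem_iUnion, exists_prop]
          exact ⟨(r, b), hmem, (x, y), Finset.mem_product.2 hxy, h0⟩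
        · unfold gr
          rw [dif_neg hxy, abs_zero]
          exact hTpos.le
  refine (measure_mono hincl).trans ?_
  refine (measure_union_le _ _).trans ?_
  have hz : PP d (gl σ) (M0 ∪ M1 ∪ M4) = 0 := measure_union_null (measure_union_null p0 p1) p4
  rw [hz, zero_add]
  refine (measure_union_le _ _).trans ?_
  refine (add_le_add p2 ((measure_union_le _ _).trans (add_le_add p3
    ((measure_union_le _ _).trans (add_le_add p5 p6))))).trans ?_
  rw [← ENNReal.ofReal_add (by positivity) (by positivity),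
    ← ENNReal.ofReal_add (by positivity) (by positivity),
    ← ENNReal.ofReal_add (by positivity) (by positivity)]
  apply ENNReal.ofReal_le_ofReal
  linarith only

end Pool.Agent.LE.H76C
end
end -- Pool.Agent.Helper76_LEC.Reg

section -- Pool.Agent.Helper76_LEC.Upa

/-!
# UPA: on the good event the decay in the cubes of radius `L₁` gives decay in the cubes of
radius `K L₁`
-/

set_option autoImplicit false

open MeasureTheory ProbabilityTheory Function Filter

open scoped ENNReal BigOperators Topology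

noncomputable section

namespace Pool.Agent.LE.H76C

open Pool.Agent.Anderson Pool.Agent.Loc Pool.Agent.Mob Pool.Agent.Helper54.Bal
  Pool.Agent.Helper96.EXP

variable {d : ℕ}

/-- expansions when all cubes are good -/
theorem chain {V : Site d → ℝ} {E m q T : ℝ} {L M : ℕ} {s u : Site d} (hL : 1 ≤ L)
    (hT : 0 ≤ T) (hqq : 2 * d * (3 * L) ^ d * Real.exp (-m * L) ≤ q)
    (hdet : (RM V (box s M) E).det ≠ 0) (hbd : ∀ x y, |gr V (box s M) E x y| ≤ T)
    (hgood : ∀ v ∈ box s M, SG V L m E v) (hsu : sd s u = M) :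
    ∀ (n : ℕ) (v : Site d), sd s v + n * (L + 1) ≤ M → |gr V (box s M) E v u| ≤ q ^ n * T := by
  have hL' : (1 : ℝ) ≤ L := by exact_mod_cast hL
  have hq0 : 0 ≤ q := le_trans (by positivity) hqq
  intro n
  induction n with
  | zero =>
    intro v _
    rw [pow_zero, one_mul]
    exact hbd v u
  | succ n ih =>
    intro v hvM
    have hexp : (n + 1) * (L + 1) = n * (L + 1) + (L + 1) := by ring
    rw [hexp] at hvM
    have hv := hgood v (mem_box.2 (by omega))
    have hA : box v L ⊆ box s M := by
      intro z hz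
      rw [mem_box] at hz
      rw [mem_box]
      have := sd_triangle s v z
      omega
    have huA : u ∈ box s M \ box v L := by
      rw [Finset.mem_sdiff, mem_box, mem_box, hsu]
      refine ⟨le_rfl, fun hc => ?_⟩
      have := sd_triangle s v u
      omega
    have hw : 0 ≤ q ^ n * T := by positivity
    have key := H42.geo_bound (α := Real.exp (-m * L)) (β := q ^ n * T) hA hdet hv.1
      (mem_box.2 (by rw [sd_self]; omega)) huA (by positivity) hw (by
        intro b hb b' hb' hne
        have h8 := sd_of_hop hne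
        rw [mem_box] at hb
        rw [Finset.mem_sdiff, mem_box, mem_box] at hb'
        have h9 := sd_triangle v b b'
        refine ⟨hv.2 b (by omega), ih b' ?_⟩
        have h10 := sd_triangle s v b'
        omega)
    have hcard : ((box v L).card : ℝ) ≤ (3 * L) ^ d := by
      rw [card_box]
      push_cast
      gcongr
      linarith only [hL']
    calc |gr V (box s M) E v u|
        ≤ Real.exp (-m * L) * (2 * d * (box v L).card) * (q ^ n * T) := key
      _ ≤ Real.exp (-m * L) * (2 * d * (3 * L) ^ d) * (q ^ n * T) := by gcongr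
      _ = (2 * d * (3 * L) ^ d * Real.exp (-m * L)) * (q ^ n * T) := by ring
      _ ≤ q * (q ^ n * T) := by gcongr
      _ = q ^ (n + 1) * T := by ring

/-- polynomials are smaller than exponentials -/
theorem poly_exp (d : ℕ) {b : ℝ} (hb : 0 < b) :
    ∃ L₀ : ℕ, ∀ L : ℕ, L₀ ≤ L → 2 * d * (3 * (L : ℝ)) ^ d ≤ Real.exp (b * L) := by
  have h1 : Tendsto (fun x : ℝ => x ^ d / Real.exp (b * x)) atTop (𝓝 0) :=
    (isLittleO_pow_exp_pos_mul_atTop (k := d) hb).tendsto_div_nhds_zero
  have h2 : Tendsto (fun L : ℕ => (2 * d * 3 ^ d : ℝ) * ((L : ℝ) ^ d / Real.exp (b * L))) atTop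
      (𝓝 ((2 * d * 3 ^ d : ℝ) * 0)) :=
    (h1.comp tendsto_natCast_atTop_atTop).const_mul _
  rw [mul_zero] at h2
  have h3 := h2.eventually (gt_mem_nhds (zero_lt_one : (0 : ℝ) < 1))
  obtain ⟨L₀, hL₀⟩ := eventually_atTop.1 h3
  refine ⟨L₀, fun L hL => ?_⟩
  have h4 := hL₀ L hL
  have h5 : 0 < Real.exp (b * L) := Real.exp_pos _
  have h6 : (2 * d * 3 ^ d : ℝ) * ((L : ℝ) ^ d / Real.exp (b * L)) =
      2 * d * (3 * (L : ℝ)) ^ d / Real.exp (b * L) := by
    rw [mul_pow]
    ring
  rw [h6, div_lt_one h5] at h4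
  exact h4.le

/-- UPA. -/
theorem upa (hdtu : DtuStmt) : UpaStmt := by
  intro d η κ' K hd hη hκ hK hηK
  obtain ⟨L₁, hL₁⟩ := hdtu d η K hd hη (by omega)
  obtain ⟨L₂, hL₂⟩ := poly_exp d (b := κ' / 16) (by positivity)
  refine ⟨L₁ + L₂ + K, ?_⟩
  intro V N Q₁ ℓ a E hQ₁ hℓ hL hbox hG hSG b hb
  have ha0 : a + sm ℓ 0 = a := by
    funext j
    simp [sm]
  have hall := hL₁ κ' V N Q₁ ℓ a E hQ₁ hℓ (by omega) hbox hG 0
    (mem_box.2 (by rw [sd_self]; omega)) (by rw [ha0]; exact hSG)
  set L := Q₁ * ℓ with hLdef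
  have hKL : K * Q₁ * ℓ = K * L := by rw [hLdef, mul_assoc]
  rw [hKL] at hall hb ⊢
  have hL1 : 1 ≤ L := Nat.mul_pos hQ₁ hℓ
  have hLr : (1 : ℝ) ≤ L := by exact_mod_cast hL1
  have hKr : (8 : ℝ) ≤ K := by exact_mod_cast hK
  have hgood : ∀ v ∈ box b (K * L), SG V L (κ' / 2) E v := by
    intro v hv
    have h1 := hall v (by
      rw [mem_box] at hv hb ⊢
      have := sd_triangle a b v
      omega)
    refine ⟨h1.1, fun u hu => (h1.2 u hu).trans ?_⟩
    rw [Real.exp_le_exp]
    have : κ' / 2 ≤ κ' - 12 * η * K := by linarith only [hηK]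
    nlinarith only [hηK]
  have hreg := hG.2.2.2.2.2 (K * L) hKL.ge b (by
    rw [hKL]
    rw [mem_box] at hb ⊢
    omega)
  set T := Real.exp (η * (((K * Q₁ : ℕ) : ℝ) * ℓ)) with hTdef
  have hT : T ≤ Real.exp (κ' / 24 * L) := by
    rw [hTdef, Real.exp_le_exp]
    have e1 : ((K * Q₁ : ℕ) : ℝ) * ℓ = K * L := by
      rw [hLdef]
      push_cast
      ring
    rw [e1]
    nlinarith only [hηK]
  refine ⟨hreg.1, fun u hu => ?_⟩
  have hq : 2 * d * (3 * (L : ℝ)) ^ d * Real.exp (-(κ' / 2) * L) ≤
      Real.exp (-(7 / 16 * κ') * L) := by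
    calc 2 * d * (3 * (L : ℝ)) ^ d * Real.exp (-(κ' / 2) * L)
        ≤ Real.exp (κ' / 16 * L) * Real.exp (-(κ' / 2) * L) := by
          gcongr
          exact hL₂ L (by omega)
      _ = Real.exp (-(7 / 16 * κ') * L) := by
          rw [← Real.exp_add]
          congr 1
          ring
  have key := chain hL1 (Real.exp_pos _).le hq hreg.1 hreg.2 hgood hu (K - 1) b (by
    rw [sd_self, zero_add]
    obtain ⟨k, hk⟩ : ∃ k, K = k + 1 := ⟨K - 1, by omega⟩
    rw [hk, Nat.add_sub_cancel]
    have : k ≤ L := by omega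
    nlinarith only [hL, hk])
  refine key.trans ?_
  have hKm : ((K - 1 : ℕ) : ℝ) = K - 1 := by
    rw [Nat.cast_sub (by omega), Nat.cast_one]
  calc Real.exp (-(7 / 16 * κ') * L) ^ (K - 1) * T
      ≤ Real.exp (-(7 / 16 * κ') * L) ^ (K - 1) * Real.exp (κ' / 24 * L) := by gcongr
    _ = Real.exp ((K - 1) * (-(7 / 16 * κ') * L) + κ' / 24 * L) := by
        rw [← Real.exp_nat_mul, hKm, ← Real.exp_add]
    _ ≤ Real.exp (-(κ' / 4) * ((K * L : ℕ) : ℝ)) := by
        rw [Real.exp_le_exp]
        push_cast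
        have h1 : 0 ≤ κ' * L := by positivity
        have h2 : 0 ≤ (κ' * L) * (K - 8) := mul_nonneg h1 (by linarith only [hKr])
        nlinarith only [h1, h2]

end Pool.Agent.LE.H76C
end
end -- Pool.Agent.Helper76_LEC.Upa

section -- Pool.Agent.Helper77_LCN.Ins

/-!
# INS: on the good event the decay about `a` gives a lower bound for `D` near `a`
-/

set_option autoImplicit false

open MeasureTheory ProbabilityTheory Function Filter

open scoped ENNReal BigOperators Topology

noncomputable section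

namespace Pool.Agent.LE.H77C

open Pool.Agent.Anderson Pool.Agent.Loc Pool.Agent.Mob Pool.Agent.Helper54.Bal
  Pool.Agent.Helper96.EXP Pool.Agent.LE.H42

theorem ins (hdtu : DtuStmt) : InsStmt2 := by
  intro d η κ K hd hη hκ hK hκK
  obtain ⟨L₁, h1⟩ := hdtu d η K hd hη hK
  have hev := Pool.Agent.LE.H96.poly_small d (show 0 < κ / 8 by positivity) 1 (2 * d) one_pos
  obtain ⟨L₂, hL₂⟩ := eventually_atTop.1 hev
  refine ⟨max L₁ L₂, ?_⟩
  intro V N Q₁ ℓ a E hQ hℓ hL hbox hgood hSG x hx y hy hxy
  have hQℓ : 1 ≤ Q₁ * ℓ := Nat.mul_pos hQ hℓ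
  have hKL : Q₁ * ℓ ≤ K * Q₁ * ℓ := by
    rw [mul_assoc]
    exact Nat.le_mul_of_pos_left _ (by omega)
  have hSG' : SG V (Q₁ * ℓ) κ E (a + sm ℓ 0) := by
    have : a + sm ℓ (0 : Site d) = a := by
      funext j
      simp [sm]
    rw [this]
    exact hSG
  have hx7 : x ∈ box a (7 * (K * Q₁ * ℓ)) := by
    rw [mem_box] at hx ⊢
    omega
  have h2 := h1 κ V N Q₁ ℓ a E hQ hℓ (le_trans (le_max_left _ _) hL) hbox hgood 0
    (mem_box.2 (by rw [sd_self]; omega)) hSG' x hx7
  obtain ⟨hdet, hfin, -, -, -, -⟩ := hgood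
  have hx12 : x ∈ box a (12 * (K * Q₁ * ℓ)) := by
    rw [mem_box] at hx ⊢
    omega
  have hy12 : y ∈ box a (12 * (K * Q₁ * ℓ)) := by
    rw [mem_box] at hy ⊢
    omega
  have hA : box x (Q₁ * ℓ) ⊆ box 0 N := by
    intro z hz
    apply hbox
    rw [mem_box] at hz hx ⊢
    have := sd_triangle a x z
    omega
  have hyA : y ∈ box 0 N \ box x (Q₁ * ℓ) := by
    rw [Finset.mem_sdiff]
    refine ⟨hbox hy12, fun hc => ?_⟩
    rw [mem_box] at hc
    omega
  have key := geo_bound (α := Real.exp (-(κ - 12 * η * K) * (Q₁ * ℓ : ℕ)))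
    (β := Real.exp (η * ((K * Q₁ : ℕ) * ℓ))) hA hdet h2.1
    (mem_box.2 (by rw [sd_self]; omega)) hyA (by positivity) (by positivity) (by
      intro b hb b' hb' hne
      have h3 := sd_of_hop hne
      rw [Finset.mem_sdiff] at hb'
      have hb2 := hb'.2
      rw [mem_box] at hb hb2
      have h4 := sd_triangle x b b'
      refine ⟨h2.2 b (by omega), (hfin b' ?_ y hy12).2⟩
      rw [mem_box] at hx ⊢
      have h5 := sd_triangle a x b'
      omega)
  have hne := (hfin x hx12 y hy12).1
  have hcard : ((box x (Q₁ * ℓ)).card : ℝ) = (2 * (Q₁ * ℓ : ℕ) + 1) ^ d := by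
    rw [card_box]
    push_cast
    ring
  have hp := hL₂ (Q₁ * ℓ) (le_trans (le_max_right _ _) hL)
  set L : ℝ := ((Q₁ * ℓ : ℕ) : ℝ) with hLdef
  have hL0 : 0 ≤ L := Nat.cast_nonneg _
  have e1 : ((K * Q₁ : ℕ) : ℝ) * ℓ = K * L := by
    rw [hLdef]
    push_cast
    ring
  have e2 : (Q₁ : ℝ) * ℓ = L := by
    rw [hLdef]
    push_cast
    ring
  rw [hcard, e1] at key
  rw [e2]
  have hfinal : |gr V (box 0 N) E x y| ≤ Real.exp (-(κ / 2 * L)) := by
    refine key.trans ?_
    have e3 : Real.exp (-(κ - 12 * η * K) * L) * (2 * d * (2 * L + 1) ^ d) *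
        Real.exp (η * (K * L)) = (2 * d * (2 * L + 1) ^ d * Real.exp (-(κ / 8) * L)) *
          Real.exp (-(κ - 12 * η * K) * L + η * (K * L) + κ / 8 * L) := by
      have : Real.exp (-(κ / 8) * L) * Real.exp (-(κ - 12 * η * K) * L + η * (K * L) + κ / 8 * L)
          = Real.exp (-(κ - 12 * η * K) * L) * Real.exp (η * (K * L)) := by
        rw [← Real.exp_add, ← Real.exp_add]
        ring_nf
      calc _ = (2 * d * (2 * L + 1) ^ d) * (Real.exp (-(κ - 12 * η * K) * L) *
            Real.exp (η * (K * L))) := by ring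
        _ = (2 * d * (2 * L + 1) ^ d) * (Real.exp (-(κ / 8) * L) *
            Real.exp (-(κ - 12 * η * K) * L + η * (K * L) + κ / 8 * L)) := by rw [this]
        _ = _ := by ring
    rw [e3]
    calc _ ≤ 1 * Real.exp (-(κ - 12 * η * K) * L + η * (K * L) + κ / 8 * L) := by
          gcongr
      _ ≤ Real.exp (-(κ / 2 * L)) := by
          rw [one_mul]
          apply Real.exp_le_exp.2
          have h6 : 0 ≤ η * K * L := by positivity
          have h7 : 48 * η * K * L ≤ κ * L := mul_le_mul_of_nonneg_right hκK hL0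
          have h8 : 0 ≤ κ * L := by positivity
          nlinarith only [h6, h7]
  unfold DL
  have h9 : Real.log |gr V (box 0 N) E x y| ≤ -(κ / 2 * L) := by
    rw [← Real.log_exp (-(κ / 2 * L))]
    exact Real.log_le_log (abs_pos.2 hne) hfinal
  linarith only [h9]

end Pool.Agent.LE.H77C
end
end -- Pool.Agent.Helper77_LCN.Ins

section -- Pool.Agent.Helper85_LE.Lox

/-!
# LOX: locality of the Green function (one resolvent expansion)
-/

set_option autoImplicit false

open MeasureTheory ProbabilityTheory Function Filter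

open scoped ENNReal BigOperators Topology

noncomputable section

namespace Pool.Agent.LE.H85

open Pool.Agent.Anderson Pool.Agent.Loc Pool.Agent.Mob Pool.Agent.Helper54.Bal
  Pool.Agent.Helper96.EXP

variable {d : ℕ}

/-- geometric resolvent identity, both sites in the small set -/
theorem lox_geo {V : Site d → ℝ} {Λ A : Finset (Site d)} {E : ℝ} (hA : A ⊆ Λ)
    (h : (RM V Λ E).det ≠ 0) (hA' : (RM V A E).det ≠ 0) {x y : Site d} (hx : x ∈ A)
    (hy : y ∈ A) :
    gr V Λ E x y - gr V A E x y =
      ∑ u ∈ A, ∑ u' ∈ Λ \ A, gr V A E x u * hop u u' * gr V Λ E u' y := by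
  have e1 : ∀ u ∈ A, ∑ z ∈ A, rm V E u z * gr V Λ E z y =
      (if u = y then 1 else 0) + ∑ u' ∈ Λ \ A, hop u u' * gr V Λ E u' y := by
    intro u hu
    have h1 := rm_mul_gr h (hA hu) (hA hy)
    rw [← Finset.sum_sdiff hA] at h1
    have h2 : ∑ z ∈ Λ \ A, rm V E u z * gr V Λ E z y =
        - ∑ u' ∈ Λ \ A, hop u u' * gr V Λ E u' y := by
      rw [← Finset.sum_neg_distrib]
      apply Finset.sum_congr rfl
      intro z hz
      have huz : u ≠ z := by
        rintro rfl
        exact (Finset.mem_sdiff.1 hz).2 hu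
      unfold rm
      rw [if_neg huz]
      ring
    rw [h2] at h1
    linarith only [h1]
  have e2 : ∑ u ∈ A, gr V A E x u * ∑ z ∈ A, rm V E u z * gr V Λ E z y = gr V Λ E x y := by
    simp_rw [Finset.mul_sum]
    rw [Finset.sum_comm]
    have : ∀ z ∈ A, ∑ u ∈ A, gr V A E x u * (rm V E u z * gr V Λ E z y) =
        (if x = z then 1 else 0) * gr V Λ E z y := by
      intro z hz
      rw [← gr_mul_rm hA' hx hz, Finset.sum_mul]
      apply Finset.sum_congr rfl
      intro u _
      ring
    rw [Finset.sum_congr rfl this]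
    simp [hx]
  have e3 : ∑ u ∈ A, gr V A E x u * (if u = y then 1 else 0) = gr V A E x y := by
    simp [hy]
  have e4 : ∀ u ∈ A, gr V A E x u * ∑ z ∈ A, rm V E u z * gr V Λ E z y =
      gr V A E x u * (if u = y then 1 else 0) +
        ∑ u' ∈ Λ \ A, gr V A E x u * hop u u' * gr V Λ E u' y := by
    intro u hu
    rw [e1 u hu, mul_add, Finset.mul_sum]
    congr 1
    apply Finset.sum_congr rfl
    intro z _
    ring
  rw [← e2, Finset.sum_congr rfl e4, Finset.sum_add_distrib, e3]
  ring

theorem lox_bound {V : Site d → ℝ} {Λ A : Finset (Site d)} {E α β : ℝ} (hA : A ⊆ Λ)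
    (h : (RM V Λ E).det ≠ 0) (hA' : (RM V A E).det ≠ 0) {x y : Site d} (hx : x ∈ A)
    (hy : y ∈ A) (hα : 0 ≤ α) (hβ : 0 ≤ β)
    (hb : ∀ b ∈ A, ∀ b' ∈ Λ \ A, hop b b' ≠ 0 → |gr V A E x b| ≤ α ∧ |gr V Λ E b' y| ≤ β) :
    |gr V Λ E x y - gr V A E x y| ≤ α * (2 * d * A.card) * β := by
  rw [lox_geo hA h hA' hx hy]
  refine (Finset.abs_sum_le_sum_abs _ _).trans ?_
  have h1 : ∀ b ∈ A, |∑ u' ∈ Λ \ A, gr V A E x b * hop b u' * gr V Λ E u' y| ≤
      α * (2 * d) * β := by
    intro b hbA
    refine (Finset.abs_sum_le_sum_abs _ _).trans ?_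
    have h2 : ∀ u' ∈ Λ \ A, |gr V A E x b * hop b u' * gr V Λ E u' y| ≤ hop b u' * (α * β) := by
      intro u' hu'
      by_cases hne : hop b u' = 0
      · rw [hne, mul_zero, zero_mul, zero_mul, abs_zero]
      · obtain ⟨h3, h4⟩ := hb b hbA u' hu' hne
        rw [abs_mul, abs_mul, abs_of_nonneg (hop_nonneg b u')]
        have := hop_nonneg b u'
        calc |gr V A E x b| * hop b u' * |gr V Λ E u' y| ≤ α * hop b u' * β := by gcongr
          _ = _ := by ring
    refine (Finset.sum_le_sum h2).trans ?_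
    rw [← Finset.sum_mul]
    calc (∑ u' ∈ Λ \ A, hop b u') * (α * β) ≤ 2 * d * (α * β) := by
          gcongr
          exact sum_hop_le b _
      _ = _ := by ring
  refine (Finset.sum_le_sum h1).trans (le_of_eq ?_)
  rw [Finset.sum_const, nsmul_eq_mul]
  ring

/-- LOX. -/
theorem lox : LoxStmt := by
  intro d η κ' κ₀ K _ hη hκ hκ₀ hK hηK hκK
  have hK' : (8 : ℝ) ≤ K := by exact_mod_cast hK
  have hK0 : (0 : ℝ) < K := by linarith only [hK']
  obtain ⟨L₁, hL₁⟩ := H76C.poly_exp d (b := 1 / (K : ℝ)) (by positivity)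
  refine ⟨L₁ + 1, ?_⟩
  intro V N L b x E hL hbox hdet hSG hx hfar
  have hL0 : 1 ≤ L := by omega
  have hL' : (1 : ℝ) ≤ L := by exact_mod_cast hL0
  have hKL : L ≤ K * L := by nlinarith only [hK, hL]
  have hA : box b (K * L) ⊆ box 0 N :=
    fun z hz => hbox (mem_box.2 (by have := mem_box.1 hz; omega))
  have hbA : b ∈ box b (K * L) := mem_box.2 (by rw [sd_self]; omega)
  have hxA : x ∈ box b (K * L) := by
    rw [mem_box] at hx ⊢
    omega
  have key := lox_bound (α := Real.exp (-(κ' / 4) * ((K * L : ℕ) : ℝ)))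
    (β := Real.exp (η * (K * L))) hA hdet hSG.1 hbA hxA (Real.exp_pos _).le (Real.exp_pos _).le (by
      intro u hu u' hu' hne
      have h8 := sd_of_hop hne
      rw [mem_box] at hu
      rw [Finset.mem_sdiff, mem_box, mem_box] at hu'
      have h9 := sd_triangle b u u'
      exact ⟨hSG.2 u (by omega), hfar u' (by omega)⟩)
  have hcard : ((box b (K * L)).card : ℝ) ≤ (3 * ((K * L : ℕ) : ℝ)) ^ d := by
    rw [card_box]
    push_cast
    gcongr
    have : (1 : ℝ) ≤ K * L := by nlinarith only [hK', hL']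
    linarith only [this]
  have hpoly := hL₁ (K * L) (by omega)
  have hpe : Real.exp (1 / (K : ℝ) * ((K * L : ℕ) : ℝ)) = Real.exp L := by
    congr 1
    push_cast
    field_simp
  rw [hpe] at hpoly
  have h2 : (2 : ℝ) ≤ Real.exp L := by
    have := Real.add_one_le_exp (L : ℝ)
    linarith only [hL', this]
  have hexp : Real.exp (-(κ' / 4) * ((K * L : ℕ) : ℝ)) * Real.exp L * Real.exp (η * (K * L)) *
      Real.exp L ≤ Real.exp (-(κ₀ + 1) * L) := by
    rw [← Real.exp_add, ← Real.exp_add, ← Real.exp_add, Real.exp_le_exp]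
    push_cast
    have h3 : η * K ≤ κ' * K / 192 := by
      have h4 : η * K * 24 ≤ κ' := by linarith only [hηK]
      have h5 : κ' * 8 ≤ κ' * K := by gcongr
      linarith only [hηK, h5]
    have h6 : -(κ' / 4) * K + 1 + η * K + 1 ≤ -(κ₀ + 1) := by linarith only [hκ₀, hκK, h3]
    calc -(κ' / 4) * (K * L) + L + η * (K * L) + L
        = (-(κ' / 4) * K + 1 + η * K + 1) * L := by ring
      _ ≤ -(κ₀ + 1) * L := by gcongr
  calc |gr V (box 0 N) E b x - gr V (box b (K * L)) E b x|
      ≤ Real.exp (-(κ' / 4) * ((K * L : ℕ) : ℝ)) * (2 * d * (box b (K * L)).card) *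
        Real.exp (η * (K * L)) := key
    _ ≤ Real.exp (-(κ' / 4) * ((K * L : ℕ) : ℝ)) * (2 * d * (3 * ((K * L : ℕ) : ℝ)) ^ d) *
        Real.exp (η * (K * L)) := by gcongr
    _ ≤ Real.exp (-(κ' / 4) * ((K * L : ℕ) : ℝ)) * Real.exp L * Real.exp (η * (K * L)) := by
        gcongr
    _ ≤ Real.exp (-(κ₀ + 1) * L) / 2 := by
        have h7 : 0 ≤ Real.exp (-(κ' / 4) * ((K * L : ℕ) : ℝ)) * Real.exp L *
            Real.exp (η * (K * L)) := by positivity
        nlinarith only [h2, hexp, h7]

end Pool.Agent.LE.H85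
end
end -- Pool.Agent.Helper85_LE.Lox

section -- Pool.Agent.Helper59_LE.Smd

/-!
# SMD: the sharp deterministic step of the multiscale induction
-/

set_option autoImplicit false

open MeasureTheory ProbabilityTheory Function

open scoped ENNReal BigOperators

noncomputable section

namespace Pool.Agent.LE.H59S

open Pool.Agent.Anderson Pool.Agent.Loc Pool.Agent.Mob

variable {d : ℕ}

/-- a maximal separated family -/
theorem exists_net (S : Finset (Site d)) (R : ℕ) :
    ∃ F : Finset (Site d), F ⊆ S ∧ (∀ v ∈ F, ∀ v' ∈ F, v ≠ v' → R < sd v v') ∧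
      ∀ w ∈ S, ∃ v ∈ F, sd v w ≤ R := by
  classical
  set P := S.powerset.filter fun F => ∀ v ∈ F, ∀ v' ∈ F, v ≠ v' → R < sd v v' with hP
  have hne : P.Nonempty := ⟨∅, by simp [hP]⟩
  obtain ⟨F, hF, hmax⟩ := Finset.exists_max_image P Finset.card hne
  rw [hP, Finset.mem_filter, Finset.mem_powerset] at hF
  refine ⟨F, hF.1, hF.2, fun w hw => ?_⟩
  by_contra hc
  push Not at hc
  have hwF : w ∉ F := by
    intro h
    have := hc w h
    rw [sd_self] at this
    omega
  have hmem : insert w F ∈ P := by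
    rw [hP, Finset.mem_filter, Finset.mem_powerset]
    refine ⟨Finset.insert_subset hw hF.1, ?_⟩
    intro v hv v' hv' hne'
    rw [Finset.mem_insert] at hv hv'
    rcases hv with rfl | hv <;> rcases hv' with rfl | hv'
    · exact absurd rfl hne'
    · rw [sd_comm]
      exact hc v' hv'
    · exact hc v hv
    · exact hF.2 v hv v' hv' hne'
  have h1 := hmax _ hmem
  rw [Finset.card_insert_of_notMem hwF] at h1
  omega

theorem smd : SmdStmt := by
  classical
  intro d V E m T q L M N n s u hL hN hT hq hqq hTq hregM hreg hcl hnM hsu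
  set Λ : Finset (Site d) := box s M with hΛ
  have hL' : (1 : ℝ) ≤ L := by exact_mod_cast hL
  have hN' : (1 : ℝ) ≤ N := by exact_mod_cast hN
  have hNL : 1 ≤ N * L := Nat.mul_pos hN hL
  have hLNL : L ≤ N * L := Nat.le_mul_of_pos_left L hN
  have hNNL : N * L ≤ N ^ 2 * L := by
    rw [pow_two, mul_assoc]
    exact Nat.le_mul_of_pos_left _ hN
  have hq0 : 0 ≤ q := le_trans (by positivity) hqq
  set f : Site d → ℝ := fun v => |gr V Λ E v u| with hf
  have hf0 : ∀ v, 0 ≤ f v := fun v => abs_nonneg _
  have hfT : ∀ v, f v ≤ T := fun v => hregM.2 v u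
  -- the good step
  have hgood : ∀ v, SG V L m E v → sd s v + L + 1 ≤ M → ∀ w : ℝ, 0 ≤ w →
      (∀ v', sd v v' ≤ L + 1 → f v' ≤ w) → f v ≤ q * w := by
    intro v hv hvM w hw hW
    have hA : box v L ⊆ Λ := by
      intro z hz
      rw [mem_box] at hz
      rw [hΛ, mem_box]
      have := sd_triangle s v z
      omega
    have huA : u ∈ Λ \ box v L := by
      rw [Finset.mem_sdiff, hΛ, mem_box, mem_box, hsu]
      refine ⟨le_rfl, fun hc => ?_⟩
      have := sd_triangle s v u
      omega
    have key := H42.geo_bound (α := Real.exp (-m * L)) (β := w) hA hregM.1 hv.1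
      (mem_box.2 (by rw [sd_self]; omega)) huA (by positivity) hw (by
        intro b hb b' hb' hne
        have h8 := sd_of_hop hne
        rw [mem_box] at hb
        rw [Finset.mem_sdiff, hΛ, mem_box, mem_box] at hb'
        have h9 := sd_triangle v b b'
        refine ⟨hv.2 b (by omega), hW b' (by omega)⟩)
    have hcard : ((box v L).card : ℝ) ≤ (3 * L) ^ d := by
      rw [card_box]
      push_cast
      gcongr
      linarith only [hL']
    calc f v ≤ Real.exp (-m * L) * (2 * d * (box v L).card) * w := key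
      _ ≤ Real.exp (-m * L) * (2 * d * (3 * L) ^ d) * w := by gcongr
      _ = (2 * d * (3 * L) ^ d * Real.exp (-m * L)) * w := by ring
      _ ≤ q * w := by gcongr
  -- the bad sites and a maximal separated family
  set S : Finset (Site d) := Λ.filter fun v => ¬ SG V L m E v with hS
  obtain ⟨F, hFS, hFsep, hFnet⟩ := exists_net S (6 * L)
  have hFN : F.card ≤ N := by
    apply hcl F _ hFsep
    intro v hv
    have := hFS hv
    rw [hS, Finset.mem_filter] at this
    exact this
  -- a sphere without bad sites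
  have hsph : ∀ v : Site d, ∃ ρ : ℕ, ρ ≤ 13 * N * L ∧
      ∀ b' ∈ Λ, sd v b' = ρ + 1 → SG V L m E b' := by
    intro v
    by_contra hc
    push Not at hc
    have hsub : (Finset.range (13 * N * L + 1)).image (fun ρ => ρ + 1) ⊆
        F.biUnion fun a => Finset.Icc (sd v a - 6 * L) (sd v a + 6 * L) := by
      intro k hk
      rw [Finset.mem_image] at hk
      obtain ⟨ρ, hρ, rfl⟩ := hk
      rw [Finset.mem_range] at hρ
      obtain ⟨b', hb', hsd, hbad⟩ := hc ρ (by omega)
      obtain ⟨a, haF, ha⟩ := hFnet b' (by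
        rw [hS, Finset.mem_filter]
        exact ⟨hb', hbad⟩)
      rw [Finset.mem_biUnion]
      refine ⟨a, haF, ?_⟩
      rw [Finset.mem_Icc]
      have h1 := sd_triangle v a b'
      have h2 := sd_triangle v b' a
      rw [sd_comm b' a] at h2
      omega
    have h1 := Finset.card_le_card hsub
    rw [Finset.card_image_of_injective _ (fun a b h => by simpa using h),
      Finset.card_range] at h1
    have h2 : (F.biUnion fun a => Finset.Icc (sd v a - 6 * L) (sd v a + 6 * L)).card ≤
        F.card * (12 * L + 1) := by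
      apply Finset.card_biUnion_le_card_mul
      intro a _
      rw [Nat.card_Icc]
      omega
    have h3 : F.card * (12 * L + 1) ≤ N * (12 * L + 1) := Nat.mul_le_mul_right _ hFN
    have h4 : N * (12 * L + 1) ≤ 13 * N * L := by
      have : N * (12 * L + 1) ≤ N * (13 * L) := Nat.mul_le_mul_left N (by omega)
      calc N * (12 * L + 1) ≤ N * (13 * L) := this
        _ = 13 * N * L := by ring
    omega
  -- the bad step
  have hbadst : ∀ v, sd s v + 16 * N * L + 1 ≤ M → ∀ w : ℝ, 0 ≤ w →
      (∀ v', sd v v' ≤ 16 * N * L → f v' ≤ w) → f v ≤ 1 / 2 * w := by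
    intro v hvM w hw hW
    obtain ⟨ρ, hρ, hρg⟩ := hsph v
    have e13 : 13 * N * L = 13 * (N * L) := by ring
    have e16 : 16 * N * L = 16 * (N * L) := by ring
    rw [e13] at hρ
    rw [e16] at hvM hW
    have hvΛ : v ∈ box s M := mem_box.2 (by omega)
    have hA : box v ρ ⊆ Λ := by
      intro z hz
      rw [mem_box] at hz
      rw [hΛ, mem_box]
      have := sd_triangle s v z
      omega
    have huA : u ∈ Λ \ box v ρ := by
      rw [Finset.mem_sdiff, hΛ, mem_box, mem_box, hsu]
      refine ⟨le_rfl, fun hc => ?_⟩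
      have := sd_triangle s v u
      omega
    have hρr := hreg v hvΛ ρ (by rw [e16]; omega)
    have key := H42.geo_bound (α := T) (β := q * w) hA hregM.1 hρr.1
      (mem_box.2 (by rw [sd_self]; omega)) huA hT (by positivity) (by
        intro b hb b' hb' hne
        refine ⟨hρr.2 v b, ?_⟩
        have h8 := sd_of_hop hne
        rw [mem_box] at hb
        rw [Finset.mem_sdiff, hΛ, mem_box, mem_box] at hb'
        have h9 := sd_triangle v b b'
        have h10 : sd v b' = ρ + 1 := by omega
        have h11 := hρg b' (mem_box.2 hb'.1) h10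
        have h12 := sd_triangle s v b'
        apply hgood b' h11 (by omega) w hw
        intro v' hv'
        apply hW
        have h13 := sd_triangle v b' v'
        omega)
    have hcard : ((box v ρ).card : ℝ) ≤ (33 * N * L) ^ d := by
      rw [card_box]
      push_cast
      have h1 : (ρ : ℝ) ≤ 13 * (N * L) := by exact_mod_cast hρ
      have h2 : (1 : ℝ) ≤ N * L := by exact_mod_cast hNL
      gcongr
      nlinarith only [h1, h2]
    calc f v ≤ T * (2 * d * (box v ρ).card) * (q * w) := key
      _ ≤ T * (2 * d * (33 * N * L) ^ d) * (q * w) := by gcongr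
      _ = T * (2 * d * (33 * N * L) ^ d) * q * w := by ring
      _ ≤ 1 / 2 * w := by gcongr
  -- the maxima
  have hne : ∀ r : ℕ, (box s r).Nonempty := fun r => ⟨s, mem_box.2 (by rw [sd_self]; omega)⟩
  set W : ℕ → ℝ := fun r => (box s r).sup' (hne r) f with hW
  have hWle : ∀ r v, sd s v ≤ r → f v ≤ W r := fun r v hv =>
    Finset.le_sup' f (mem_box.2 hv)
  have hW0 : ∀ r, 0 ≤ W r := fun r => (hf0 s).trans (hWle r s (by rw [sd_self]; omega))
  have hWT : ∀ r, W r ≤ T := fun r => Finset.sup'_le _ _ fun v _ => hfT v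
  have hWmono : ∀ r r', r ≤ r' → W r ≤ W r' := by
    intro r r' h
    apply Finset.sup'_le
    intro v hv
    exact hWle r' v ((mem_box.1 hv).trans h)
  -- clean radii
  have hclean : ∀ r : ℕ, (∀ w ∈ S, sd s w ≤ r → sd s w + 16 * N * L ≤ r) →
      r + 16 * N * L + 1 ≤ M → W r ≤ q * W (r + L + 1) := by
    intro r hr hrM
    have e16 : 16 * N * L = 16 * (N * L) := by ring
    obtain ⟨v, hv, hvW⟩ := Finset.exists_mem_eq_sup' (hne r) f
    rw [mem_box] at hv
    have hvW' : W r = f v := hvW
    by_cases hg : SG V L m E v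
    · rw [hvW']
      apply hgood v hg (by omega) _ (hW0 _)
      intro v' hv'
      apply hWle
      have := sd_triangle s v v'
      omega
    · have h1 := hr v (by
        rw [hS, Finset.mem_filter, hΛ, mem_box]
        exact ⟨by omega, hg⟩) hv
      have h2 : f v ≤ 1 / 2 * W r := by
        apply hbadst v (by omega) _ (hW0 _)
        intro v' hv'
        apply hWle
        have := sd_triangle s v v'
        omega
      rw [← hvW'] at h2
      have h3 : W r ≤ 0 := by linarith only [h2]
      exact h3.trans (mul_nonneg hq0 (hW0 _))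
  -- the number of the radii which are not clean
  set U : Finset ℕ := (Finset.range M).filter fun r =>
    ∃ w ∈ S, sd s w ≤ r ∧ r < sd s w + 16 * N * L with hU
  have hUcard : U.card ≤ 28 * N ^ 2 * L := by
    have hsub : U ⊆ F.biUnion fun a =>
        Finset.Ico (sd s a - 6 * L) (sd s a + 6 * L + 16 * N * L) := by
      intro r hr
      rw [hU, Finset.mem_filter] at hr
      obtain ⟨_, w, hw, h1, h2⟩ := hr
      obtain ⟨a, haF, ha⟩ := hFnet w hw
      rw [Finset.mem_biUnion]
      refine ⟨a, haF, ?_⟩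
      rw [Finset.mem_Ico]
      have h3 := sd_triangle s a w
      have h4 := sd_triangle s w a
      rw [sd_comm w a] at h4
      omega
    have h1 := Finset.card_le_card hsub
    have h2 : (F.biUnion fun a =>
        Finset.Ico (sd s a - 6 * L) (sd s a + 6 * L + 16 * N * L)).card ≤
        F.card * (12 * L + 16 * N * L) := by
      apply Finset.card_biUnion_le_card_mul
      intro a _
      rw [Nat.card_Ico]
      omega
    have h3 : F.card * (12 * L + 16 * N * L) ≤ N * (12 * L + 16 * N * L) :=
      Nat.mul_le_mul_right _ hFN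
    have h4 : N * (12 * L + 16 * N * L) = 12 * (N * L) + 16 * (N ^ 2 * L) := by ring
    have h5 : 28 * N ^ 2 * L = 28 * (N ^ 2 * L) := by ring
    omega
  set c : ℕ → ℕ := fun r => (U.filter fun i => r ≤ i).card with hc
  have hcmono : ∀ r r', r ≤ r' → c r' ≤ c r := by
    intro r r' h
    apply Finset.card_le_card
    intro i hi
    rw [Finset.mem_filter] at hi ⊢
    exact ⟨hi.1, h.trans hi.2⟩
  have hcs : ∀ r, r ∈ U → c (r + 1) + 1 ≤ c r := by
    intro r hr
    have h1 : insert r (U.filter fun i => r + 1 ≤ i) ⊆ U.filter fun i => r ≤ i := by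
      intro i hi
      rw [Finset.mem_insert] at hi
      rw [Finset.mem_filter]
      rcases hi with rfl | hi
      · exact ⟨hr, le_rfl⟩
      · rw [Finset.mem_filter] at hi
        exact ⟨hi.1, by omega⟩
    have h2 := Finset.card_le_card h1
    rw [Finset.card_insert_of_notMem (by
      rw [Finset.mem_filter]
      omega)] at h2
    exact h2
  -- the induction
  have main : ∀ (k r n : ℕ), M - r ≤ k → r + n * (L + 1) + c r + 16 * N * L + 1 ≤ M →
      W r ≤ q ^ n * T := by
    intro k
    induction k with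
    | zero =>
      intro r n h1 h2
      omega
    | succ k ih =>
      intro r n h1 h2
      cases n with
      | zero =>
        rw [pow_zero, one_mul]
        exact hWT r
      | succ n =>
        by_cases hr : r ∈ U
        · have h3 := hcs r hr
          have h4 := ih (r + 1) (n + 1) (by omega) (by omega)
          exact (hWmono r (r + 1) (by omega)).trans h4
        · have e1 : (n + 1) * (L + 1) = n * (L + 1) + (L + 1) := by ring
          have h3 := hcmono r (r + L + 1) (by omega)
          have h4 := ih (r + L + 1) n (by omega) (by omega)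
          have h5 : W r ≤ q * W (r + L + 1) := by
            apply hclean r _ (by omega)
            intro w hw hwr
            by_contra hlt
            apply hr
            rw [hU, Finset.mem_filter, Finset.mem_range]
            exact ⟨by omega, w, hw, hwr, by omega⟩
          calc W r ≤ q * W (r + L + 1) := h5
            _ ≤ q * (q ^ n * T) := mul_le_mul_of_nonneg_left h4 hq0
            _ = q ^ (n + 1) * T := by ring
  have hc0 : c 0 ≤ 28 * N ^ 2 * L := (Finset.card_le_card (Finset.filter_subset _ _)).trans hUcard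
  have hfin := main M 0 n (by omega) (by
    have e1 : 28 * N ^ 2 * L = 28 * (N ^ 2 * L) := by ring
    have e2 : 45 * N ^ 2 * L = 45 * (N ^ 2 * L) := by ring
    have e3 : 16 * N * L = 16 * (N * L) := by ring
    omega)
  exact (hWle 0 s (by rw [sd_self])).trans hfin

end Pool.Agent.LE.H59S
end
end -- Pool.Agent.Helper59_LE.Smd
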