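import Pool.Agent.Helper12_MEB.B059
import Pool.Agent.Helper12_MEB.B060

/-!
# Merged copies (generated) of the modules

* `Pool.Agent.Helper54_LE.UNI`
* `Pool.Agent.Helper54_LEC.UCH`
* `Pool.Agent.Helper65_LEC.UPE`
-/

set_option autoImplicit false

section -- Pool.Agent.Helper54_LE.UNI

/-!
# Constants which are uniform for bounded energies and `s₀ ≤ |σ| ≤ s₁` (UNI)
-/

set_option autoImplicit false
set_option linter.unusedSectionVars false

open scoped Topology ENNReal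
open MeasureTheory Filter ProbabilityTheory

noncomputable section

namespace Pool.Agent.LE.H54

open Pool.Agent.Anderson Pool.Agent.Loc Pool.Agent.Mob Pool.Agent.Helper54.Bal Pool.Agent.LY

variable {d : ℕ}

theorem bddDens_mono {ν : Measure ℝ} {ρ ρ' : ℝ} (h : BddDens ν ρ) (hρ : ρ ≤ ρ') :
    BddDens ν ρ' := by
  refine ⟨h.1.trans_le hρ, fun a b => ?_⟩
  rcases le_or_gt a b with hab | hab
  · exact (h.2 a b).trans (ENNReal.ofReal_le_ofReal
      (mul_le_mul_of_nonneg_right hρ (sub_nonneg.2 hab)))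
  · rw [Set.Icc_eq_empty (not_le.2 hab), measure_empty]
    exact zero_le

theorem bddDens_u {σ s₀ : ℝ} (hs₀ : 0 < s₀) (hσ : s₀ ≤ |σ|) : BddDens (gl σ) (1 / s₀) := by
  have h0 : σ ≠ 0 := abs_pos.1 (hs₀.trans_le hσ)
  exact bddDens_mono (bddDens_gl h0) (one_div_le_one_div_of_le hs₀ hσ)

theorem mom1_mono {σ s₁ : ℝ} (hσ : |σ| ≤ s₁) : mom1 (gl σ) ≤ mom1 (gl s₁) := by
  have hs : 0 ≤ s₁ := (abs_nonneg σ).trans hσ
  unfold mom1 gl
  rw [lintegral_map (by fun_prop) (by fun_prop), lintegral_map (by fun_prop) (by fun_prop)]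
  refine lintegral_mono fun t => ENNReal.ofReal_le_ofReal ?_
  rw [abs_mul, abs_mul, abs_of_nonneg hs]
  exact mul_le_mul_of_nonneg_right hσ (abs_nonneg t)

theorem Clow_mono {σ s₁ ρ M : ℝ} (hσ : |σ| ≤ s₁) : Clow d (gl σ) ρ M ≤ Clow d (gl s₁) ρ M := by
  unfold Clow CC
  gcongr
  exact mom1_mono hσ

/-- the negative moment, uniformly -/
theorem low_u (M₀ : ℝ) {s₀ : ℝ} (s₁ : ℝ) (hs₀ : 0 < s₀) : ∃ C : ℝ, 0 < C ∧ ∀ σ E : ℝ,
    s₀ ≤ |σ| → |σ| ≤ s₁ → |E| ≤ M₀ → ∀ (Λ : Finset (Site d))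
    (x y : Site d), x ∈ Λ → y ∈ Λ → (x = y ∨ hop x y ≠ 0) →
    ∫⁻ V, (ENNReal.ofReal |gr V Λ E x y|) ^ (-(1 / 4) : ℝ) ∂(PL (gl σ) Λ) ≤ ENNReal.ofReal C := by
  set M : ℝ := 32 * (d : ℝ) ^ 2 + 4 + |M₀| with hM
  have hM0 : 0 < M := by positivity
  refine ⟨(Clow d (gl s₁) (1 / s₀) M).toReal + 1, by positivity, ?_⟩
  intro σ E h0 h1 hE Λ x y hx hy hxy
  refine (low (bddDens_u hs₀ h0) (M := M) ?_ Λ ?_ hx hy hxy).trans
    ((Clow_mono h1).trans ?_)
  · rw [hM]; have := abs_nonneg M₀; linarith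
  · rw [hM]
    have : 0 ≤ 32 * (d : ℝ) ^ 2 := by positivity
    have := le_abs_self M₀
    linarith
  · rw [← ENNReal.ofReal_toReal (Clow_gl (d := d) s₁ (1 / s₀) hM0.ne')]
    apply ENNReal.ofReal_le_ofReal
    rw [ENNReal.toReal_ofReal ENNReal.toReal_nonneg]
    linarith only

theorem near_u (M₀ : ℝ) {s₀ : ℝ} (s₁ : ℝ) (hs₀ : 0 < s₀) {p : ℝ} (hp : 0 < p) :
    ∃ C : ℝ, 0 ≤ C ∧ ∀ σ E : ℝ, s₀ ≤ |σ| → |σ| ≤ s₁ → |E| ≤ M₀ →
    ∀ (Λ : Finset (Site d)) (x y : Site d), x ∈ Λ → y ∈ Λ → (x = y ∨ hop x y ≠ 0) →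
    Nn (PL (gl σ) Λ) p (fun V => Dp (gr V Λ E x y)) ≤ ENNReal.ofReal C := by
  obtain ⟨C, hC, h⟩ := low_u (d := d) M₀ s₁ hs₀
  refine ⟨((4 * p) ^ p * C) ^ (1 / p), by positivity, ?_⟩
  intro σ E h0 h1 hE Λ x y hx hy hxy
  rw [← ENNReal.ofReal_rpow_of_nonneg (by positivity) (by positivity)]
  apply Nn_le hp
  calc ∫⁻ V, (Dp (gr V Λ E x y)) ^ p ∂(PL (gl σ) Λ)
      ≤ ∫⁻ V, ENNReal.ofReal ((4 * p) ^ p) * (ENNReal.ofReal |gr V Λ E x y|) ^ (-(1 / 4) : ℝ)
          ∂(PL (gl σ) Λ) := lintegral_mono fun V => Dp_rpow_le hp _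
    _ = ENNReal.ofReal ((4 * p) ^ p) * ∫⁻ V, (ENNReal.ofReal |gr V Λ E x y|) ^ (-(1 / 4) : ℝ)
          ∂(PL (gl σ) Λ) := lintegral_const_mul' _ _ ENNReal.ofReal_ne_top
    _ ≤ ENNReal.ofReal ((4 * p) ^ p) * ENNReal.ofReal C := by
        gcongr
        exact h σ E h0 h1 hE Λ x y hx hy hxy
    _ = _ := by rw [← ENNReal.ofReal_mul (by positivity)]

/-- the ratio, with a constant which depends only on the bound of the density -/
theorem ratio_core {σ ρ p E : ℝ} (hν : BddDens (gl σ) ρ) (hp : 0 < p)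
    (Λ : Finset (Site d)) (x u y : Site d) :
    Nn (PL (gl σ) Λ) p (fun V => Rp (gr V Λ E x u) (gr V Λ E u y) (gr V Λ E x y)) ≤
      ENNReal.ofReal (((2 * p) ^ p * (1 + 8 * ρ)) ^ (1 / p)) := by
  have hρ : 0 < ρ := hν.1
  rw [← ENNReal.ofReal_rpow_of_nonneg (by positivity) (by positivity)]
  apply Nn_le hp
  have hone : ∀ τ : ℝ, 0 < τ → PL (gl σ) Λ {V | τ * |gr V Λ E x y| < |gr V Λ E x u| *
      |gr V Λ E u y|} ≤ ENNReal.ofReal (8 * ρ / τ) := fun τ hτ => one hν Λ E u x y hτ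
  have hnull : PL (gl σ) Λ {V | gr V Λ E x y = 0 ∧ gr V Λ E x u * gr V Λ E u y ≠ 0} = 0 := by
    have h1 : ∀ k : ℕ, PL (gl σ) Λ {V | gr V Λ E x y = 0 ∧ gr V Λ E x u * gr V Λ E u y ≠ 0} ≤
        ENNReal.ofReal (8 * ρ / ((k : ℝ) + 1)) := by
      intro k
      refine (measure_mono ?_).trans (hone ((k : ℝ) + 1) (by positivity))
      rintro V ⟨h2, h3⟩
      rw [Set.mem_ofPred_eq, h2, abs_zero, mul_zero, ← abs_mul]
      exact abs_pos.2 h3
    have h2 : Tendsto (fun k : ℕ => ENNReal.ofReal (8 * ρ / ((k : ℝ) + 1))) atTop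
        (𝓝 (ENNReal.ofReal 0)) := by
      apply ENNReal.tendsto_ofReal
      have := (tendsto_one_div_add_atTop_nhds_zero_nat (𝕜 := ℝ)).const_mul (8 * ρ)
      rw [mul_zero] at this
      refine this.congr fun k => ?_
      ring
    rw [ENNReal.ofReal_zero] at h2
    exact le_antisymm (ge_of_tendsto' h2 h1) zero_le
  set f : (Site d → ℝ) → ℝ := fun V => |gr V Λ E x u| * |gr V Λ E u y| / |gr V Λ E x y| with hf
  have hfm : Measurable f := by
    have h1 := measurable_gr Λ E x u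
    have h2 := measurable_gr Λ E u y
    have h3 := measurable_gr Λ E x y
    exact ((h1.abs.mul h2.abs)).div h3.abs
  have hweak : ∀ τ : ℝ, 0 < τ → PL (gl σ) Λ {V | τ < |f V|} ≤ ENNReal.ofReal (8 * ρ / τ) := by
    intro τ hτ
    refine (measure_mono ?_).trans (hone τ hτ)
    intro V hV
    have h0 : 0 ≤ f V := by rw [hf]; positivity
    rw [Set.mem_ofPred_eq, abs_of_nonneg h0] at hV
    rw [Set.mem_ofPred_eq]
    have hne : |gr V Λ E x y| ≠ 0 := by
      intro h1
      rw [hf] at hV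
      simp only [h1, div_zero] at hV
      linarith
    have hpos : 0 < |gr V Λ E x y| := lt_of_le_of_ne (abs_nonneg _) (Ne.symm hne)
    exact (lt_div_iff₀ hpos).1 hV
  have hint := weak_sqrt hfm (B := Set.univ) (c := 8 * ρ) (by positivity) hweak (a := 1) one_pos
  rw [Measure.restrict_univ, measure_univ, mul_one, div_one,
    ← ENNReal.ofReal_add (by norm_num) (by positivity)] at hint
  have hae : ∀ᵐ V ∂(PL (gl σ) Λ), (Rp (gr V Λ E x u) (gr V Λ E u y) (gr V Λ E x y)) ^ p ≤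
      ENNReal.ofReal ((2 * p) ^ p) * ENNReal.ofReal (√|f V|) := by
    have h1 : ∀ᵐ V ∂(PL (gl σ) Λ), ¬ (gr V Λ E x y = 0 ∧ gr V Λ E x u * gr V Λ E u y ≠ 0) := by
      rw [ae_iff]
      simpa only [not_not] using hnull
    filter_upwards [h1] with V hV
    have h0 : 0 ≤ f V := by rw [hf]; positivity
    rw [abs_of_nonneg h0]
    by_cases hc : gr V Λ E x y = 0
    · have h2 : gr V Λ E x u * gr V Λ E u y = 0 := by
        by_contra h3
        exact hV ⟨hc, h3⟩
      unfold Rp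
      rw [if_pos hc, if_pos h2, ENNReal.zero_rpow_of_pos hp]
      exact zero_le
    · exact Rp_rpow_le hp hc
  calc _ ≤ ∫⁻ V, ENNReal.ofReal ((2 * p) ^ p) * ENNReal.ofReal (√|f V|) ∂(PL (gl σ) Λ) :=
        lintegral_mono_ae hae
    _ = ENNReal.ofReal ((2 * p) ^ p) * ∫⁻ V, ENNReal.ofReal (√|f V|) ∂(PL (gl σ) Λ) :=
        lintegral_const_mul' _ _ ENNReal.ofReal_ne_top
    _ ≤ ENNReal.ofReal ((2 * p) ^ p) * ENNReal.ofReal (1 + 8 * ρ) := by gcongr
    _ = _ := by rw [← ENNReal.ofReal_mul (by positivity)]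

/-- the moments from the two norm bounds -/
theorem fmn_core {σ E C1 C2 ρ : ℝ} (hd : 1 ≤ d) (hν : BddDens (gl σ) ρ)
    (hC1 : 0 ≤ C1) (hC2 : 0 ≤ C2)
    (h1 : ∀ (Λ : Finset (Site d)) (x y : Site d), x ∈ Λ → y ∈ Λ → (x = y ∨ hop x y ≠ 0) →
      Nn (PL (gl σ) Λ) 2 (fun V => Dp (gr V Λ E x y)) ≤ ENNReal.ofReal C1)
    (h2 : ∀ (Λ : Finset (Site d)) (x u y : Site d), Nn (PL (gl σ) Λ) 2
      (fun V => Rp (gr V Λ E x u) (gr V Λ E u y) (gr V Λ E x y)) ≤ ENNReal.ofReal C2) :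
    ∀ N : ℕ, FamN d N (PP d (gl σ)) ((d * (C1 + C2)) ^ 2 + 16 * (2 * √(6 * ρ)) + C2 ^ 2 + 1)
      (DL (box 0 N) E) ∧
    (∀ x ∈ box (0 : Site d) N, ∀ y ∈ box (0 : Site d) N,
      PP d (gl σ) {V | gr V (box 0 N) E x y = 0} = 0) := by
  have hρ : 0 < ρ := hν.1
  set C3 : ℝ := 16 * (2 * √(6 * ρ)) with hC3def
  have hC3 : 0 ≤ C3 := by positivity
  have hd1 : (1 : ℝ) ≤ d := by exact_mod_cast hd
  set A : ℝ := (d * (C1 + C2)) ^ 2 with hA
  have hA0 : 0 ≤ A := sq_nonneg _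
  intro N
  set Λ := box (0 : Site d) N with hΛ
  have mg : ∀ x y, Measurable fun V : Site d → ℝ => gr V Λ E x y := fun x y =>
    measurable_gr Λ E x y
  have mD : ∀ x y, Measurable fun V : Site d → ℝ => Dp (gr V Λ E x y) := fun x y =>
    measurable_Dp.comp (mg x y)
  have mU : ∀ x y, Measurable fun V : Site d → ℝ => Up (gr V Λ E x y) := fun x y =>
    measurable_Up.comp (mg x y)
  have mDL : ∀ x y, Measurable fun V : Site d → ℝ => DL Λ E V x y := fun x y => by
    unfold DL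
    exact (Real.measurable_log.comp (mg x y).abs).neg
  -- the three moments
  have hDp : ∀ x ∈ Λ, ∀ y ∈ Λ, ∫⁻ V, (Dp (gr V Λ E x y)) ^ (2 : ℝ) ∂(PP d (gl σ)) ≤
      ENNReal.ofReal (A * ((sd x y : ℝ) + 1) ^ 2) := by
    intro x hx y hy
    rw [lint_PP Λ ((mD x y).pow_const _) (fun V V' hV => by rw [gr_congr hV])]
    rw [← Nn_rpow (by norm_num)]
    have hp := path_in (σ := σ) (E := E) (p := 2) (N := N) (by norm_num) hC1 hC2
      (fun x y hx hy hxy => h1 Λ x y hx hy hxy) (fun x u y => h2 Λ x u y) hx (l1 x y) y rfl hy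
    refine (ENNReal.rpow_le_rpow hp (by norm_num)).trans ?_
    rw [ENNReal.ofReal_rpow_of_nonneg (by positivity) (by norm_num), Real.rpow_two]
    apply ENNReal.ofReal_le_ofReal
    have h3 : (l1 x y : ℝ) ≤ d * sd x y := by exact_mod_cast l1_le x y le_rfl
    have h4 : 0 ≤ C1 + C2 := by linarith only [hC1, hC2]
    have h5 : ((l1 x y : ℝ) + 1) ≤ d * ((sd x y : ℝ) + 1) := by linarith only [hd1, h3]
    rw [hA, ← mul_pow]
    apply pow_le_pow_left₀ (by positivity)
    calc ((l1 x y : ℝ) + 1) * (C1 + C2) ≤ d * ((sd x y : ℝ) + 1) * (C1 + C2) :=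
          mul_le_mul_of_nonneg_right h5 h4
      _ = _ := by ring
  have hUp : ∀ x y, ∫⁻ V, (Up (gr V Λ E x y)) ^ (2 : ℝ) ∂(PP d (gl σ)) ≤ ENNReal.ofReal C3 := by
    intro x y
    rw [lint_PP Λ ((mU x y).pow_const _) (fun V V' hV => by rw [gr_congr hV])]
    calc ∫⁻ V, (Up (gr V Λ E x y)) ^ (2 : ℝ) ∂(PL (gl σ) Λ)
        ≤ ∫⁻ V, ENNReal.ofReal 16 * ENNReal.ofReal (√|gr V Λ E x y|) ∂(PL (gl σ) Λ) :=
          lintegral_mono fun V => Up_sq_le _
      _ = ENNReal.ofReal 16 * ∫⁻ V, ENNReal.ofReal (√|gr V Λ E x y|) ∂(PL (gl σ) Λ) :=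
          lintegral_const_mul' _ _ ENNReal.ofReal_ne_top
      _ ≤ ENNReal.ofReal 16 * ENNReal.ofReal (2 * √(6 * ρ)) := by
          gcongr
          exact PL_sqrt hν Λ E x y
      _ = _ := by rw [← ENNReal.ofReal_mul (by norm_num)]
  have hRp : ∀ x u y, ∫⁻ V, (Rp (gr V Λ E x u) (gr V Λ E u y) (gr V Λ E x y)) ^ (2 : ℝ)
      ∂(PP d (gl σ)) ≤ ENNReal.ofReal (C2 ^ 2) := by
    intro x u y
    rw [lint_PP Λ ((measurable_Rp (mg x u) (mg u y) (mg x y)).pow_const _)
      (fun V V' hV => by rw [gr_congr hV, gr_congr hV, gr_congr hV])]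
    rw [← Nn_rpow (by norm_num)]
    refine (ENNReal.rpow_le_rpow (h2 Λ x u y) (by norm_num)).trans ?_
    rw [ENNReal.ofReal_rpow_of_nonneg (by positivity) (by norm_num), Real.rpow_two]
  have hne : ∀ x ∈ Λ, ∀ y ∈ Λ, ∀ᵐ V ∂(PP d (gl σ)), gr V Λ E x y ≠ 0 := by
    intro x hx y hy
    have h := ae_lt_top ((mD x y).pow_const 2)
      (ne_top_of_le_ne_top ENNReal.ofReal_ne_top (hDp x hx y hy))
    filter_upwards [h] with V hV h0
    rw [h0] at hV
    simp [Dp] at hV
  refine ⟨⟨mDL, ?_, ?_, ?_, ?_, ?_⟩, ?_⟩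
  · intro V x y
    unfold DL
    rw [gr_symm]
  · intro x hx y hy
    have h := int_le (P := PP d (gl σ)) ((mDL x y).pow_const 2) (fun V => sq_nonneg _)
      (c := A * ((sd x y : ℝ) + 1) ^ 2 + C3) (by positivity) ?_
    · exact h.1
    · calc ∫⁻ V, ENNReal.ofReal (DL Λ E V x y ^ 2) ∂(PP d (gl σ))
          ≤ ∫⁻ V, ((Dp (gr V Λ E x y)) ^ (2 : ℝ) + (Up (gr V Λ E x y)) ^ (2 : ℝ))
            ∂(PP d (gl σ)) := lintegral_mono fun V => ofReal_sq_le _
        _ = ∫⁻ V, (Dp (gr V Λ E x y)) ^ (2 : ℝ) ∂(PP d (gl σ)) +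
            ∫⁻ V, (Up (gr V Λ E x y)) ^ (2 : ℝ) ∂(PP d (gl σ)) :=
            lintegral_add_left ((mD x y).pow_const _) _
        _ ≤ ENNReal.ofReal (A * ((sd x y : ℝ) + 1) ^ 2) + ENNReal.ofReal C3 :=
            add_le_add (hDp x hx y hy) (hUp x y)
        _ = _ := by rw [← ENNReal.ofReal_add (by positivity) hC3]
  · intro x hx y hy
    have h := int_le (P := PP d (gl σ)) ((mDL x y).pow_const 2) (fun V => sq_nonneg _)
      (c := A * ((sd x y : ℝ) + 1) ^ 2 + C3) (by positivity) ?_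
    · refine h.2.trans ?_
      have h3 : (1 : ℝ) ≤ ((sd x y : ℝ) + 1) ^ 2 := by
        have : (0 : ℝ) ≤ sd x y := Nat.cast_nonneg _
        nlinarith
      nlinarith only [mul_le_mul_of_nonneg_left h3 hC3, mul_nonneg (sq_nonneg C2) (zero_le_one.trans h3)]
    · calc ∫⁻ V, ENNReal.ofReal (DL Λ E V x y ^ 2) ∂(PP d (gl σ))
          ≤ ∫⁻ V, ((Dp (gr V Λ E x y)) ^ (2 : ℝ) + (Up (gr V Λ E x y)) ^ (2 : ℝ))
            ∂(PP d (gl σ)) := lintegral_mono fun V => ofReal_sq_le _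
        _ = ∫⁻ V, (Dp (gr V Λ E x y)) ^ (2 : ℝ) ∂(PP d (gl σ)) +
            ∫⁻ V, (Up (gr V Λ E x y)) ^ (2 : ℝ) ∂(PP d (gl σ)) :=
            lintegral_add_left ((mD x y).pow_const _) _
        _ ≤ ENNReal.ofReal (A * ((sd x y : ℝ) + 1) ^ 2) + ENNReal.ofReal C3 :=
            add_le_add (hDp x hx y hy) (hUp x y)
        _ = _ := by rw [← ENNReal.ofReal_add (by positivity) hC3]
  · intro x hx y hy
    have h := int_le (P := PP d (gl σ)) ((measurable_const.max (mDL x y).neg).pow_const 2)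
      (f := fun V => (max 0 (-DL Λ E V x y)) ^ 2) (fun V => sq_nonneg _)
      (c := C3) hC3 ?_
    · refine h.2.trans ?_
      have := sq_nonneg C2
      linarith
    · refine le_trans (lintegral_mono fun V => ?_) (hUp x y)
      unfold DL Up
      rw [neg_neg]
      rcases le_total 0 (Real.log |gr V Λ E x y|) with h0 | h0
      · rw [max_eq_right h0, ENNReal.ofReal_rpow_of_nonneg h0 (by norm_num), Real.rpow_two]
      · rw [max_eq_left h0]
        simp
  · intro x hx u hu y hy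
    have h := int_le (P := PP d (gl σ))
      ((measurable_const.max (((mDL x y).sub (mDL x u)).sub (mDL u y))).pow_const 2)
      (f := fun V => (max 0 (DL Λ E V x y - DL Λ E V x u - DL Λ E V u y)) ^ 2)
      (fun V => sq_nonneg _) (c := C2 ^ 2) (sq_nonneg _) ?_
    · refine h.2.trans ?_
      linarith only [hC3, hA0]
    · refine le_trans (lintegral_mono_ae ?_) (hRp x u y)
      filter_upwards [hne x hx u hu, hne u hu y hy, hne x hx y hy] with V ha hb hc
      have ha' : |gr V Λ E x u| ≠ 0 := abs_ne_zero.2 ha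
      have hb' : |gr V Λ E u y| ≠ 0 := abs_ne_zero.2 hb
      have hc' : |gr V Λ E x y| ≠ 0 := abs_ne_zero.2 hc
      unfold DL Rp
      rw [if_neg hc]
      have e : -Real.log |gr V Λ E x y| - -Real.log |gr V Λ E x u| - -Real.log |gr V Λ E u y| =
          Real.log (|gr V Λ E x u| * |gr V Λ E u y| / |gr V Λ E x y|) := by
        rw [Real.log_div (mul_ne_zero ha' hb') hc', Real.log_mul ha' hb']
        ring
      rw [e]
      set L := Real.log (|gr V Λ E x u| * |gr V Λ E u y| / |gr V Λ E x y|)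
      rcases le_total 0 L with h0 | h0
      · rw [max_eq_right h0, ENNReal.ofReal_rpow_of_nonneg h0 (by norm_num), Real.rpow_two]
      · rw [max_eq_left h0]
        simp
  · intro x hx y hy
    have h := hne x hx y hy
    rw [ae_iff] at h
    simpa using h

/-- the chaining bound from the two norm bounds -/
theorem chn_core {σ E C1 C2 : ℝ} (hd : 0 < d) (hC1 : 0 ≤ C1) (hC2 : 0 ≤ C2)
    (h1 : ∀ (Λ : Finset (Site d)) (x y : Site d), x ∈ Λ → y ∈ Λ → (x = y ∨ hop x y ≠ 0) →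
      Nn (PL (gl σ) Λ) ((4 * d : ℕ) : ℝ) (fun V => Dp (gr V Λ E x y)) ≤ ENNReal.ofReal C1)
    (h2 : ∀ (Λ : Finset (Site d)) (x u y : Site d), Nn (PL (gl σ) Λ) ((4 * d : ℕ) : ℝ)
      (fun V => Rp (gr V Λ E x u) (gr V Λ E u y) (gr V Λ E x y)) ≤ ENNReal.ofReal C2) :
    ChnTail d (gl σ) E ((12 * d * (C1 + C2) + 81 * C2) ^ (4 * d)) := by
  have hd1 : (1 : ℝ) ≤ d := by exact_mod_cast hd
  have hp0 : (0 : ℝ) < ((4 * d : ℕ) : ℝ) := by
    push_cast; linarith only [hd1]
  set A : ℝ := 12 * d * (C1 + C2) + 81 * C2 with hA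
  have hA0 : 0 ≤ A := by positivity
  intro R n c t hn hc ht
  set Λ := box (0 : Site d) R with hΛ
  have hrec := recursion (σ := σ) (E := E) hd hC1 hC2 (fun x y hx hy hxy => h1 Λ x y hx hy hxy)
    (fun x u y => h2 Λ x u y) n hn c hc
  rw [← hA] at hrec
  have hint : ∫⁻ V, (Sx Λ E c n V) ^ ((4 * d : ℕ) : ℝ) ∂(PL (gl σ) Λ) ≤
      (ENNReal.ofReal (A * n)) ^ ((4 * d : ℕ) : ℝ) := by
    rw [← Nn_rpow hp0]
    exact ENNReal.rpow_le_rpow hrec hp0.le
  have hsub : {V : Site d → ℝ | ∃ s ∈ box c n, |gr V Λ E c s| < Real.exp (-t)} ⊆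
      {V | (ENNReal.ofReal t) ^ ((4 * d : ℕ) : ℝ) ≤ (Sx Λ E c n V) ^ ((4 * d : ℕ) : ℝ)} := by
    rintro V ⟨s, hs, hlt⟩
    rw [Set.mem_ofPred_eq]
    apply ENNReal.rpow_le_rpow _ hp0.le
    refine le_trans ?_ (Finset.le_sup (f := fun s => Dp (gr V Λ E c s)) hs)
    unfold Dp
    split_ifs with h0
    · exact le_top
    · apply ENNReal.ofReal_le_ofReal
      have h3 : 0 < |gr V Λ E c s| := abs_pos.2 h0
      have h4 := Real.log_lt_log h3 hlt
      rw [Real.log_exp] at h4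
      linarith only [h4]
  have ht0 : (ENNReal.ofReal t) ^ ((4 * d : ℕ) : ℝ) ≠ 0 := by
    rw [ENNReal.ofReal_rpow_of_pos ht, Ne, ENNReal.ofReal_eq_zero, not_le]
    positivity
  have htt : (ENNReal.ofReal t) ^ ((4 * d : ℕ) : ℝ) ≠ ∞ := by
    rw [ENNReal.ofReal_rpow_of_pos ht]
    exact ENNReal.ofReal_ne_top
  calc PL (gl σ) Λ {V | ∃ s ∈ box c n, |gr V Λ E c s| < Real.exp (-t)}
      ≤ PL (gl σ) Λ {V | (ENNReal.ofReal t) ^ ((4 * d : ℕ) : ℝ) ≤
          (Sx Λ E c n V) ^ ((4 * d : ℕ) : ℝ)} := measure_mono hsub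
    _ ≤ (∫⁻ V, (Sx Λ E c n V) ^ ((4 * d : ℕ) : ℝ) ∂(PL (gl σ) Λ)) /
          (ENNReal.ofReal t) ^ ((4 * d : ℕ) : ℝ) :=
        meas_ge_le_lintegral_div ((measurable_Sx Λ E c n).pow_const _).aemeasurable ht0 htt
    _ ≤ (ENNReal.ofReal (A * n)) ^ ((4 * d : ℕ) : ℝ) /
          (ENNReal.ofReal t) ^ ((4 * d : ℕ) : ℝ) := by gcongr
    _ = _ := by
        rw [ENNReal.ofReal_rpow_of_nonneg (by positivity) hp0.le, ENNReal.ofReal_rpow_of_pos ht,
          ← ENNReal.ofReal_div_of_pos (by positivity), Real.rpow_natCast, Real.rpow_natCast,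
          div_pow, mul_pow]
        congr 1
        ring

/-- **FMN with uniform constants** -/
theorem fmnU (hd : 1 ≤ d) (M₀ : ℝ) {s₀ : ℝ} (s₁ : ℝ) (hs₀ : 0 < s₀) : ∃ C : ℝ, 0 < C ∧
    ∀ σ E : ℝ, s₀ ≤ |σ| → |σ| ≤ s₁ → |E| ≤ M₀ → ∀ N : ℕ,
      FamN d N (PP d (gl σ)) C (DL (box 0 N) E) ∧
      (∀ x ∈ box (0 : Site d) N, ∀ y ∈ box (0 : Site d) N,
        PP d (gl σ) {V | gr V (box 0 N) E x y = 0} = 0) := by
  obtain ⟨C1, hC1, h1⟩ := near_u (d := d) M₀ s₁ hs₀ (p := 2) (by norm_num)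
  have hρ : 0 < 1 / s₀ := by positivity
  set C2 : ℝ := ((2 * 2 : ℝ) ^ (2 : ℝ) * (1 + 8 * (1 / s₀))) ^ (1 / 2 : ℝ) with hC2
  have hC20 : 0 ≤ C2 := by positivity
  refine ⟨(d * (C1 + C2)) ^ 2 + 16 * (2 * √(6 * (1 / s₀))) + C2 ^ 2 + 1, by positivity, ?_⟩
  intro σ E g0 g1 hE
  exact fmn_core hd (bddDens_u hs₀ g0) hC1 hC20 (fun Λ x y => h1 σ E g0 g1 hE Λ x y)
    (fun Λ x u y => ratio_core (bddDens_u hs₀ g0) (by norm_num) Λ x u y)

/-- **OneTail with a uniform constant** -/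
theorem oneTailU {σ s₀ : ℝ} (hs₀ : 0 < s₀) (hσ : s₀ ≤ |σ|) (E : ℝ) :
    OneTail d (gl σ) E (8 / s₀) := by
  have h0 : σ ≠ 0 := abs_pos.1 (hs₀.trans_le hσ)
  intro Λ x u y t hx hu hy ht
  refine (oneTail h0 E Λ x u y t hx hu hy ht).trans (ENNReal.ofReal_le_ofReal ?_)
  gcongr

/-- **ChnTail with a uniform constant** -/
theorem chnTailU (d : ℕ) (M₀ : ℝ) {s₀ : ℝ} (s₁ : ℝ) (hs₀ : 0 < s₀) : ∃ C : ℝ, 0 < C ∧
    ∀ σ E : ℝ, s₀ ≤ |σ| → |σ| ≤ s₁ → |E| ≤ M₀ → ChnTail d (gl σ) E C := by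
  rcases Nat.eq_zero_or_pos d with hd | hd
  · subst hd
    refine ⟨1, one_pos, fun σ E _ _ _ R n c t _ _ _ => ?_⟩
    simp only [Nat.mul_zero, pow_zero, mul_one, ENNReal.ofReal_one]
    exact prob_le_one
  have hp0 : (0 : ℝ) < ((4 * d : ℕ) : ℝ) := by
    have hd1 : (1 : ℝ) ≤ d := by exact_mod_cast hd
    push_cast; linarith only [hd1]
  obtain ⟨C1, hC1, h1⟩ := near_u (d := d) M₀ s₁ hs₀ hp0
  have hρ : 0 < 1 / s₀ := by positivity
  set C2 : ℝ := ((2 * ((4 * d : ℕ) : ℝ)) ^ ((4 * d : ℕ) : ℝ) * (1 + 8 * (1 / s₀))) ^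
    (1 / ((4 * d : ℕ) : ℝ)) with hC2
  have hC20 : 0 < C2 := by positivity
  refine ⟨(12 * d * (C1 + C2) + 81 * C2) ^ (4 * d), by positivity, ?_⟩
  intro σ E g0 g1 hE
  exact chn_core hd hC1 hC20.le (fun Λ x y => h1 σ E g0 g1 hE Λ x y)
    (fun Λ x u y => ratio_core (bddDens_u hs₀ g0) hp0 Λ x u y)

end Pool.Agent.LE.H54
end
end -- Pool.Agent.Helper54_LE.UNI

section -- Pool.Agent.Helper54_LEC.UCH

/-!
# The chaining bound with the moment of any order, uniformly in the parameters (UCH)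
-/

set_option autoImplicit false
set_option linter.unusedSectionVars false

open scoped Topology ENNReal
open MeasureTheory Filter ProbabilityTheory

noncomputable section

namespace Pool.Agent.LE.H54C

open Pool.Agent.Anderson Pool.Agent.Loc Pool.Agent.Mob Pool.Agent.Helper54.Bal Pool.Agent.LY
  Pool.Agent.LE.H54

variable {d : ℕ}

theorem card_pow_leQ {q : ℕ} (hd : 1 ≤ d) (hq : 4 * d ≤ q) {N a : ℕ} (h : N ≤ a ^ d)
    (ha : 1 ≤ a) :
    ((N : ℕ) : ℝ≥0∞) ^ (1 / (q : ℝ)) ≤ ENNReal.ofReal ((a : ℝ) ^ (1 / 4 : ℝ)) := by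
  have hd0 : (0 : ℝ) < d := by exact_mod_cast hd
  have hq0 : (4 : ℝ) * d ≤ q := by exact_mod_cast hq
  have hq1 : (0 : ℝ) < q := by linarith only [hd0, hq0]
  have ha1 : (1 : ℝ) ≤ a := by exact_mod_cast ha
  calc ((N : ℕ) : ℝ≥0∞) ^ (1 / (q : ℝ)) ≤ (((a ^ d : ℕ) : ℕ) : ℝ≥0∞) ^ (1 / (q : ℝ)) := by
        apply ENNReal.rpow_le_rpow _ (by positivity)
        exact_mod_cast h
    _ = ENNReal.ofReal ((a : ℝ) ^ ((d : ℝ) * (1 / (q : ℝ)))) := by
        have h1 : (((a ^ d : ℕ) : ℕ) : ℝ≥0∞) = ENNReal.ofReal ((a : ℝ) ^ d) := by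
          rw [← ENNReal.ofReal_natCast]
          push_cast
          rfl
        rw [h1, ENNReal.ofReal_rpow_of_nonneg (by positivity) (by positivity), ← Real.rpow_natCast,
          ← Real.rpow_mul (by positivity)]
    _ ≤ _ := by
        apply ENNReal.ofReal_le_ofReal
        apply Real.rpow_le_rpow_of_exponent_le ha1
        rw [mul_one_div, div_le_div_iff₀ hq1 (by norm_num)]
        linarith only [hq0]

section main

variable {σ E C1 C2 : ℝ} {Λ : Finset (Site d)}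

theorem recursionQ {q : ℕ} (hd : 1 ≤ d) (hq : 4 * d ≤ q) (hC1 : 0 ≤ C1) (hC2 : 0 ≤ C2)
    (h1 : ∀ x y : Site d, x ∈ Λ → y ∈ Λ → (x = y ∨ hop x y ≠ 0) →
      Nn (PL (gl σ) Λ) (q : ℝ) (fun V => Dp (gr V Λ E x y)) ≤ ENNReal.ofReal C1)
    (h2 : ∀ x u y : Site d, Nn (PL (gl σ) Λ) (q : ℝ)
      (fun V => Rp (gr V Λ E x u) (gr V Λ E u y) (gr V Λ E x y)) ≤ ENNReal.ofReal C2)
    (n : ℕ) : 1 ≤ n → ∀ c : Site d, box c n ⊆ Λ →
      Nn (PL (gl σ) Λ) (q : ℝ) (Sx Λ E c n) ≤
        ENNReal.ofReal ((12 * d * (C1 + C2) + 81 * C2) * n) := by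
  have hd1 : (1 : ℝ) ≤ d := by exact_mod_cast hd
  have hp1 : (1 : ℝ) ≤ (q : ℝ) := by
    have : 1 ≤ q := by omega
    exact_mod_cast this
  have hp0 : (0 : ℝ) < (q : ℝ) := by linarith only [hp1]
  have mD : ∀ x y, Measurable fun V : Site d → ℝ => Dp (gr V Λ E x y) := fun x y =>
    measurable_Dp.comp (measurable_gr Λ E x y)
  have mR : ∀ x u y, Measurable fun V : Site d → ℝ =>
      Rp (gr V Λ E x u) (gr V Λ E u y) (gr V Λ E x y) := fun x u y =>
    measurable_Rp (measurable_gr Λ E _ _) (measurable_gr Λ E _ _) (measurable_gr Λ E _ _)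
  have hpath : ∀ (n : ℕ) (c : Site d), box c n ⊆ Λ → ∀ s, sd c s ≤ n →
      Nn (PL (gl σ) Λ) (q : ℝ) (fun V => Dp (gr V Λ E c s)) ≤
        ENNReal.ofReal ((d * n + 1) * (C1 + C2)) := by
    intro n c hc s hs
    refine (path hp1 hC1 hC2 h1 h2 hc (l1 c s) s rfl hs).trans (ENNReal.ofReal_le_ofReal ?_)
    have h3 : (l1 c s : ℝ) ≤ d * n := by exact_mod_cast l1_le c s hs
    have h4 : 0 ≤ C1 + C2 := by linarith only [hC1, hC2]
    nlinarith only [hC1, hC2, h3]
  have h34 : ENNReal.ofReal (((3 : ℕ) : ℝ) ^ (1 / 4 : ℝ)) ≤ ENNReal.ofReal (4 / 3) :=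
    ENNReal.ofReal_le_ofReal (by push_cast; exact three_le)
  induction n using Nat.strong_induction_on with
  | _ n ih =>
    intro hn c hc
    rcases Nat.lt_or_ge n 2 with hn2 | hn2
    · have hn1 : n = 1 := by omega
      subst hn1
      have h3 := Nn_sup (μ := PL (gl σ) Λ) hp0 (box c 1) (f := fun s V => Dp (gr V Λ E c s))
        (fun s _ => mD c s) (C := ENNReal.ofReal ((d * (1 : ℕ) + 1) * (C1 + C2)))
        (fun s hs => hpath 1 c hc s (mem_box.1 hs))
      refine h3.trans ?_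
      have h4 : (((box c 1).card : ℕ) : ℝ≥0∞) ^ (1 / (q : ℝ)) ≤
          ENNReal.ofReal (4 / 3) :=
        (card_pow_leQ hd hq (a := 3) (by rw [card_box]) (by norm_num)).trans h34
      refine (mul_le_mul' h4 le_rfl).trans ?_
      rw [← ENNReal.ofReal_mul (by norm_num)]
      apply ENNReal.ofReal_le_ofReal
      push_cast
      have h5 : 0 ≤ C1 + C2 := by linarith only [hC1, hC2]
      nlinarith only [mul_nonneg (sub_nonneg.2 hd1) h5, hC1, hC2]
    · set r' := n / 2 with hr'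
      set r := n - r' with hr
      have hrr : r + r' = n := by omega
      have hle : r' ≤ r := by omega
      have hrn : r < n := by omega
      have hr1 : 1 ≤ r := by omega
      have h23 : 3 * r ≤ 2 * n := by omega
      have hcm : ∀ w ∈ Wc c r', box w r ⊆ Λ := by
        intro w hw s hs
        apply hc
        rw [mem_box] at hs ⊢
        have := sd_triangle c w s
        have := sd_Wc hw
        omega
      have hcr' : box c r' ⊆ Λ := (box_mono c (by omega)).trans hc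
      -- the pointwise inequality
      have hpt : ∀ V, Sx Λ E c n V ≤ ((Wc c r').sup (fun w => Dp (gr V Λ E c w)) +
          (Wc c r').sup (fun w => Sx Λ E w r V)) +
          ((Wc c r') ×ˢ (box c n)).sup (fun z => Rp (gr V Λ E c z.1) (gr V Λ E z.1 z.2)
            (gr V Λ E c z.2)) := by
        intro V
        unfold Sx
        apply Finset.sup_le
        intro s hs
        obtain ⟨w, hw, hws⟩ := exists_Wc (mem_box.1 hs) hrr hle
        refine (Dp_le (gr V Λ E c w) (gr V Λ E w s) _).trans ?_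
        refine add_le_add (add_le_add ?_ ?_) ?_
        · exact Finset.le_sup (f := fun w => Dp (gr V Λ E c w)) hw
        · refine le_trans ?_ (Finset.le_sup (f := fun w => (box w r).sup fun s =>
            Dp (gr V Λ E w s)) hw)
          exact Finset.le_sup (f := fun s => Dp (gr V Λ E w s)) (mem_box.2 hws)
        · exact Finset.le_sup (f := fun z : Site d × Site d => Rp (gr V Λ E c z.1)
            (gr V Λ E z.1 z.2) (gr V Λ E c z.2)) (Finset.mk_mem_product hw hs)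
      have m1 : Measurable fun V => (Wc c r').sup (fun w => Dp (gr V Λ E c w)) :=
        measurable_fsup _ fun w => mD c w
      have m2 : Measurable fun V => (Wc c r').sup (fun w => Sx Λ E w r V) :=
        measurable_fsup _ fun w => measurable_Sx Λ E w r
      have m3 : Measurable fun V => ((Wc c r') ×ˢ (box c n)).sup (fun z => Rp (gr V Λ E c z.1)
          (gr V Λ E z.1 z.2) (gr V Λ E c z.2)) :=
        measurable_fsup _ fun z => mR c z.1 z.2
      have hW : (((Wc c r').card : ℕ) : ℝ≥0∞) ^ (1 / (q : ℝ)) ≤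
          ENNReal.ofReal (4 / 3) :=
        (card_pow_leQ hd hq (a := 3) (card_Wc c r') (by norm_num)).trans h34
      have n1 : Nn (PL (gl σ) Λ) (q : ℝ)
          (fun V => (Wc c r').sup (fun w => Dp (gr V Λ E c w))) ≤
          ENNReal.ofReal (4 / 3 * ((d * r' + 1) * (C1 + C2))) := by
        refine (Nn_sup hp0 (Wc c r') (f := fun w V => Dp (gr V Λ E c w)) (fun w _ => mD c w)
          (C := ENNReal.ofReal ((d * r' + 1) * (C1 + C2)))
          (fun w hw => hpath r' c hcr' w (sd_Wc hw))).trans ?_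
        rw [ENNReal.ofReal_mul (p := 4 / 3) (by norm_num)]
        exact mul_le_mul' hW le_rfl
      have n2 : Nn (PL (gl σ) Λ) (q : ℝ)
          (fun V => (Wc c r').sup (fun w => Sx Λ E w r V)) ≤
          ENNReal.ofReal (4 / 3 * ((12 * d * (C1 + C2) + 81 * C2) * r)) := by
        refine (Nn_sup hp0 (Wc c r') (f := fun w V => Sx Λ E w r V)
          (fun w _ => measurable_Sx Λ E w r)
          (C := ENNReal.ofReal ((12 * d * (C1 + C2) + 81 * C2) * r))
          (fun w hw => ih r hrn hr1 w (hcm w hw))).trans ?_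
        rw [ENNReal.ofReal_mul (p := 4 / 3) (by norm_num)]
        exact mul_le_mul' hW le_rfl
      have n3 : Nn (PL (gl σ) Λ) (q : ℝ)
          (fun V => ((Wc c r') ×ˢ (box c n)).sup (fun z => Rp (gr V Λ E c z.1)
          (gr V Λ E z.1 z.2) (gr V Λ E c z.2))) ≤ ENNReal.ofReal (9 * n * C2) := by
        refine (Nn_sup hp0 ((Wc c r') ×ˢ (box c n)) (f := fun z V => Rp (gr V Λ E c z.1)
          (gr V Λ E z.1 z.2) (gr V Λ E c z.2)) (fun z _ => mR c z.1 z.2)
          (C := ENNReal.ofReal C2) (fun z _ => h2 c z.1 z.2)).trans ?_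
        have hcard : ((Wc c r') ×ˢ (box c n)).card ≤ (3 * (2 * n + 1)) ^ d := by
          rw [Finset.card_product, card_box, mul_pow]
          exact Nat.mul_le_mul_right _ (card_Wc c r')
        have h5 := card_pow_leQ hd hq hcard (by omega)
        have h6 : ((3 * (2 * n + 1) : ℕ) : ℝ) ^ (1 / 4 : ℝ) ≤ 9 * n := by
          have h7 : (1 : ℝ) ≤ ((3 * (2 * n + 1) : ℕ) : ℝ) := by
            push_cast
            have : (0 : ℝ) ≤ n := Nat.cast_nonneg n
            linarith only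
          have hn1 : (1 : ℝ) ≤ n := by exact_mod_cast hn
          calc ((3 * (2 * n + 1) : ℕ) : ℝ) ^ (1 / 4 : ℝ) ≤ ((3 * (2 * n + 1) : ℕ) : ℝ) ^ (1 : ℝ) :=
                Real.rpow_le_rpow_of_exponent_le h7 (by norm_num)
            _ = 3 * (2 * n + 1) := by rw [Real.rpow_one]; push_cast; ring
            _ ≤ _ := by linarith only [hn1]
        rw [ENNReal.ofReal_mul (by positivity)]
        refine mul_le_mul' (h5.trans (ENNReal.ofReal_le_ofReal h6)) le_rfl
      have hC12 : 0 ≤ C1 + C2 := by linarith only [hC1, hC2]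
      calc Nn (PL (gl σ) Λ) (q : ℝ) (Sx Λ E c n)
          ≤ Nn (PL (gl σ) Λ) (q : ℝ) (fun V =>
              ((Wc c r').sup (fun w => Dp (gr V Λ E c w)) +
              (Wc c r').sup (fun w => Sx Λ E w r V)) +
              ((Wc c r') ×ˢ (box c n)).sup (fun z => Rp (gr V Λ E c z.1) (gr V Λ E z.1 z.2)
              (gr V Λ E c z.2))) := Nn_mono hp0 hpt
        _ ≤ (ENNReal.ofReal (4 / 3 * ((d * r' + 1) * (C1 + C2))) +
              ENNReal.ofReal (4 / 3 * ((12 * d * (C1 + C2) + 81 * C2) * r))) +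
              ENNReal.ofReal (9 * n * C2) := by
            refine (Nn_add hp1 (m1.add m2) m3).trans ?_
            refine add_le_add ((Nn_add hp1 m1 m2).trans (add_le_add n1 n2)) n3
        _ ≤ _ := by
            rw [← ENNReal.ofReal_add (by positivity) (by positivity),
              ← ENNReal.ofReal_add (by positivity) (by positivity)]
            apply ENNReal.ofReal_le_ofReal
            have e1 : (3 : ℝ) * r ≤ 2 * n := by exact_mod_cast h23
            have e2 : (2 : ℝ) * r' ≤ n := by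
              have : 2 * r' ≤ n := by omega
              exact_mod_cast this
            have e3 : (2 : ℝ) ≤ n := by exact_mod_cast hn2
            have e4 : (d : ℝ) * r' + 1 ≤ d * n := by nlinarith only [hd1, e2, e3]
            have e5 : 4 / 3 * (((d : ℝ) * r' + 1) * (C1 + C2)) ≤ 4 / 3 * (d * n * (C1 + C2)) := by
              gcongr
            have e6 : 4 / 3 * ((12 * d * (C1 + C2) + 81 * C2) * r) ≤
                8 / 9 * ((12 * d * (C1 + C2) + 81 * C2) * n) := by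
              have e7 : 0 ≤ 12 * d * (C1 + C2) + 81 * C2 := by positivity
              nlinarith only [e1, e7]
            linarith only [e5, e6]

end main

/-- UCH: chaining, with the moment of any order, uniformly in the parameters. -/
theorem uch : UchStmt := by
  intro d q B hd hq hB
  have hq0 : (0 : ℝ) < (q : ℝ) := by
    have : 0 < q := by omega
    exact_mod_cast this
  have hs₀ : 0 < 1 / B := by positivity
  obtain ⟨C1, hC1, h1⟩ := near_u (d := d) B B hs₀ (p := (q : ℝ)) hq0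
  set C2 : ℝ := ((2 * (q : ℝ)) ^ (q : ℝ) * (1 + 8 * (1 / (1 / B)))) ^ (1 / (q : ℝ)) with hC2
  have hC20 : 0 ≤ C2 := by positivity
  set A : ℝ := 12 * d * (C1 + C2) + 81 * C2 with hA
  have hA0 : 0 ≤ A := by positivity
  refine ⟨A + 1, by positivity, ?_⟩
  rintro σ E ⟨g1, g2, g3⟩ N n c hn hc
  have g0 : 1 / B ≤ |σ| := by
    rw [div_le_iff₀ hB]
    linarith only [g3]
  set Λ := box (0 : Site d) N with hΛ
  have hrec := recursionQ (σ := σ) (E := E) (Λ := Λ) hd hq hC1 hC20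
    (fun x y hx hy hxy => h1 σ E g0 g2 g1 Λ x y hx hy hxy)
    (fun x u y => ratio_core (bddDens_u hs₀ g0) hq0 Λ x u y) n hn c hc
  rw [← hA] at hrec
  have hmx : ∀ V : Site d → ℝ, mx V N E c n ≤ Sx Λ E c n V := by
    intro V
    unfold mx Sx
    refine Finset.sup_mono_fun fun s _ => ?_
    unfold DL Dp
    split_ifs with h0
    · exact le_top
    · exact le_rfl
  calc ∫⁻ V, (mx V N E c n) ^ q ∂(PP d (gl σ))
      ≤ ∫⁻ V, (Sx Λ E c n V) ^ (q : ℝ) ∂(PP d (gl σ)) := by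
        refine lintegral_mono fun V => ?_
        rw [ENNReal.rpow_natCast]
        exact pow_le_pow_left₀ zero_le (hmx V) q
    _ = ∫⁻ V, (Sx Λ E c n V) ^ (q : ℝ) ∂(PL (gl σ) Λ) :=
        lint_PP Λ ((measurable_Sx Λ E c n).pow_const _) (fun V V' hV => by
          unfold Sx
          congr 1
          refine Finset.sup_congr rfl fun s _ => ?_
          rw [gr_congr hV])
    _ ≤ (ENNReal.ofReal (A * n)) ^ (q : ℝ) := by
        rw [← Nn_rpow hq0]
        exact ENNReal.rpow_le_rpow hrec hq0.le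
    _ ≤ ENNReal.ofReal (((A + 1) * n) ^ q) := by
        rw [ENNReal.ofReal_rpow_of_nonneg (by positivity) hq0.le, Real.rpow_natCast]
        apply ENNReal.ofReal_le_ofReal
        apply pow_le_pow_left₀ (by positivity)
        have : (0 : ℝ) ≤ n := Nat.cast_nonneg n
        nlinarith only

end Pool.Agent.LE.H54C
end
end -- Pool.Agent.Helper54_LEC.UCH

section -- Pool.Agent.Helper65_LEC.UPE

/-!
# UPE: upper bound for the Lyapunov exponent
-/

set_option autoImplicit false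

open MeasureTheory ProbabilityTheory Function Filter

open scoped ENNReal BigOperators Topology

noncomputable section

namespace Pool.Agent.LE.H65C

open Pool.Agent.Anderson Pool.Agent.Loc Pool.Agent.Mob Pool.Agent.Helper54.Bal

variable {d : ℕ}

theorem sd_sm_le {Q k : ℕ} {y : Site d} (hy : sd 0 y = Q) : sd 0 (sm k y) ≤ k * Q := by
  rw [sd_le_iff]
  intro i
  have h1 := (sd_le_iff (n := Q)).1 hy.le i
  rw [Pi.zero_apply, zero_sub, abs_neg] at h1 ⊢
  unfold sm
  rw [abs_mul, Nat.abs_cast]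
  push_cast
  exact mul_le_mul_of_nonneg_left h1 (Int.natCast_nonneg k)

theorem sd_sm_gt {Q k : ℕ} {y : Site d} (hy : sd 0 y = Q) (hQ : 1 ≤ Q) (hk : 1 ≤ k) :
    ¬ sd 0 (sm k y) ≤ k * Q - 1 := by
  intro h
  have h1 : sd 0 y ≤ Q - 1 := by
    rw [sd_le_iff]
    intro i
    have h2 := (sd_le_iff (n := k * Q - 1)).1 h i
    rw [Pi.zero_apply, zero_sub, abs_neg] at h2 ⊢
    unfold sm at h2
    rw [abs_mul, Nat.abs_cast] at h2
    have hkQ : 1 ≤ k * Q := Nat.mul_pos hk hQ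
    rw [Nat.cast_sub hkQ] at h2
    rw [Nat.cast_sub hQ]
    push_cast at h2 ⊢
    by_contra hc
    have h3 : (Q : ℤ) ≤ |y i| := by omega
    have h4 : (k : ℤ) * Q ≤ k * |y i| := mul_le_mul_of_nonneg_left h3 (Int.natCast_nonneg k)
    omega
  omega

/-- the bound on the good event -/
theorem upper {V : Site d → ℝ} {N r : ℕ} {E a b : ℝ} {u : Site d} (hrN : r ≤ N)
    (hdet : (RM V (box (0 : Site d) N) E).det ≠ 0) (hSG : SG V r a E 0)
    (huN : u ∈ box (0 : Site d) N) (hur : ¬ sd 0 u ≤ r) (hb : 0 ≤ b)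
    (hW : ∀ v ∈ box (0 : Site d) (r + 1), |gr V (box (0 : Site d) N) E v u| ≤ b) :
    |gr V (box (0 : Site d) N) E 0 u| ≤ Real.exp (-a * r) * (2 * d * (2 * r + 1) ^ d) * b := by
  have hA : box (0 : Site d) r ⊆ box 0 N := by
    intro z hz
    rw [mem_box] at hz ⊢
    omega
  have key := H42.geo_bound (α := Real.exp (-a * r)) (β := b) hA hdet hSG.1
    (mem_box.2 (by rw [sd_self]; exact Nat.zero_le _))
    (Finset.mem_sdiff.2 ⟨huN, fun h => hur (mem_box.1 h)⟩) (Real.exp_pos _).le hb (by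
      intro c hc c' hc' hne
      have h8 := sd_of_hop hne
      rw [mem_box] at hc
      rw [Finset.mem_sdiff, mem_box, mem_box] at hc'
      have h9 := sd_triangle (0 : Site d) c c'
      exact ⟨hSG.2 c (by omega), hW c' (mem_box.2 (by omega))⟩)
  refine key.trans (le_of_eq ?_)
  rw [card_box]
  push_cast
  rfl

theorem upe : UpeStmt := by
  intro d σ E g c M₀ Q₁ ℓ y hd hσ hg hQ₁ hℓ hy hup
  obtain ⟨C, hC, hfmn⟩ := H54.fmn d σ E hd hσ
  obtain ⟨hg0, hlya⟩ := hg
  have hν := bddDens_gl hσ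
  have hd' : (1 : ℝ) ≤ d := by exact_mod_cast hd
  obtain ⟨L1, hL1⟩ : ∃ L1 : ℕ, L1 = Q₁ * ℓ := ⟨_, rfl⟩
  have hL1pos : 1 ≤ L1 := by rw [hL1]; exact Nat.mul_pos hQ₁ hℓ
  -- it suffices to prove `g ≤ c + 6 ε`
  have hmain : ∀ ε : ℝ, 0 < ε → g ≤ c + 6 * ε := by
    intro ε hε
    obtain ⟨A, hA⟩ : ∃ A : ℝ, A = |g - 4 * ε| := ⟨_, rfl⟩
    have hA0 : 0 ≤ A := by rw [hA]; exact abs_nonneg _
    obtain ⟨p, hp⟩ : ∃ p : ℝ, p = ε / (A + 1) := ⟨_, rfl⟩
    have hp0 : 0 < p := by rw [hp]; positivity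
    have hpA : A * p ≤ ε := by
      rw [hp, mul_div_assoc', div_le_iff₀ (by positivity)]
      nlinarith only [hε]
    -- the three tails
    have hM : Tendsto (fun m : ℕ => m * L1) atTop atTop :=
      tendsto_id.atTop_mul_const' (by omega)
    have hr : Tendsto (fun m : ℕ => m * L1 - 1) atTop atTop :=
      (tendsto_sub_atTop_nat 1).comp hM
    have e1 : ∀ᶠ m : ℕ in atTop, PP d (gl σ) {V | ¬ SG V (m * L1 - 1) (g - ε) E 0} <
        ENNReal.ofReal (p / 2) :=
      ((hlya ε hε).2.comp hr).eventually_lt_const (ENNReal.ofReal_pos.2 (by positivity))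
    have e2 : ∀ᶠ m : ℕ in atTop, (2 * ((m * L1 : ℕ) : ℝ) + 1) ^ d *
        (6 * (1 / |σ|) * Real.exp (-ε * ((m * L1 : ℕ) : ℝ))) < p / 2 :=
      ((H54.tendsto_pow_exp d (by linarith only [hε] : -ε < 0) (6 * (1 / |σ|))).comp hM).eventually_lt_const
        (by positivity)
    have e3 : ∀ᶠ m : ℕ in atTop, (2 * ((m * L1 : ℕ) : ℝ) + 1) ^ d *
        (2 * d * Real.exp (-ε * ((m * L1 : ℕ) : ℝ))) < 1 :=
      ((H54.tendsto_pow_exp d (by linarith only [hε] : -ε < 0) (2 * d)).comp hM).eventually_lt_const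
        one_pos
    have hMr : Tendsto (fun m : ℕ => ((m * L1 : ℕ) : ℝ)) atTop atTop :=
      tendsto_natCast_atTop_atTop.comp hM
    have e4 : ∀ᶠ m : ℕ in atTop, (|g - ε| + (1 + C) + 1) / ε ≤ ((m * L1 : ℕ) : ℝ) :=
      hMr.eventually_ge_atTop _
    obtain ⟨m, h1, h2, h3, h4, hm⟩ :=
      (e1.and (e2.and (e3.and (e4.and (eventually_ge_atTop 1))))).exists
    obtain ⟨M, hMd⟩ : ∃ M : ℕ, M = m * L1 := ⟨_, rfl⟩
    rw [← hMd] at h1 h2 h3 h4
    have hM1 : 1 ≤ M := by rw [hMd]; exact Nat.mul_pos hm hL1pos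
    obtain ⟨N, hN⟩ : ∃ N : ℕ, N = (m + M₀) * (Q₁ * ℓ) := ⟨_, rfl⟩
    have hMN : M ≤ N := by
      rw [hN, hMd, hL1]
      exact Nat.mul_le_mul_right _ (Nat.le_add_right _ _)
    obtain ⟨u, hu⟩ : ∃ u : Site d, u = sm (m * ℓ) y := ⟨_, rfl⟩
    have hmlQ : m * ℓ * Q₁ = M := by rw [hMd, hL1]; ring
    have hu1 : sd 0 u ≤ M := by rw [hu, ← hmlQ]; exact sd_sm_le hy
    have hu2 : ¬ sd 0 u ≤ M - 1 := by
      rw [hu, ← hmlQ]
      exact sd_sm_gt hy hQ₁ (Nat.mul_pos hm hℓ)
    have huN : u ∈ box (0 : Site d) N := mem_box.2 (by omega)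
    have h0N : (0 : Site d) ∈ box (0 : Site d) N := mem_box.2 (by rw [sd_self]; omega)
    obtain ⟨hF, hne⟩ := hfmn N
    have hup' := hup m N hm (by rw [hN])
    rw [← hu] at hup'
    -- the bad event
    obtain ⟨T, hT⟩ : ∃ T : ℝ, T = Real.exp (ε * M) := ⟨_, rfl⟩
    have hT0 : 0 < T := by rw [hT]; exact Real.exp_pos _
    obtain ⟨S, hS⟩ : ∃ S : Set (Site d → ℝ), S = {V | ¬ SG V (M - 1) (g - ε) E 0} ∪
        ({V | (RM V (box (0 : Site d) N) E).det = 0} ∪
          (({V | gr V (box (0 : Site d) N) E 0 u = 0}) ∪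
          ⋃ v ∈ box (0 : Site d) M, {V | T < |gr V (box (0 : Site d) N) E v u|})) := ⟨_, rfl⟩
    have hSp : PP d (gl σ) S ≤ ENNReal.ofReal p := by
      rw [hS]
      refine (measure_union_le _ _).trans ?_
      have h5 : PP d (gl σ) (⋃ v ∈ box (0 : Site d) M,
          {V | T < |gr V (box (0 : Site d) N) E v u|}) ≤ ENNReal.ofReal (p / 2) := by
        calc PP d (gl σ) (⋃ v ∈ box (0 : Site d) M,
              {V | T < |gr V (box (0 : Site d) N) E v u|})
            ≤ ∑ v ∈ box (0 : Site d) M, PP d (gl σ)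
                {V | T < |gr V (box (0 : Site d) N) E v u|} := measure_biUnion_finset_le _ _
          _ ≤ ∑ v ∈ box (0 : Site d) M, ENNReal.ofReal (6 * (1 / |σ|) / T) :=
              Finset.sum_le_sum fun v _ => H54.PP_weak hν _ E v u hT0
          _ = ENNReal.ofReal ((2 * (M : ℝ) + 1) ^ d *
                (6 * (1 / |σ|) * Real.exp (-ε * M))) := by
              rw [Finset.sum_const, card_box, nsmul_eq_mul]
              have h6 : 6 * (1 / |σ|) / T = 6 * (1 / |σ|) * Real.exp (-ε * M) := by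
                rw [hT, neg_mul, Real.exp_neg]
                field_simp
              rw [h6, ENNReal.ofReal_mul (p := (2 * (M : ℝ) + 1) ^ d) (by positivity)]
              congr 1
              rw [← ENNReal.ofReal_natCast]
              push_cast
              rfl
          _ ≤ _ := ENNReal.ofReal_le_ofReal h2.le
      calc PP d (gl σ) {V | ¬ SG V (M - 1) (g - ε) E 0} +
            PP d (gl σ) ({V | (RM V (box (0 : Site d) N) E).det = 0} ∪
              (({V | gr V (box (0 : Site d) N) E 0 u = 0}) ∪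
              ⋃ v ∈ box (0 : Site d) M, {V | T < |gr V (box (0 : Site d) N) E v u|}))
          ≤ ENNReal.ofReal (p / 2) + (0 + (0 + ENNReal.ofReal (p / 2))) := by
            refine add_le_add h1.le ((measure_union_le _ _).trans (add_le_add ?_ ?_))
            · exact (H54.PP_det hν _ E).le
            · exact (measure_union_le _ _).trans (add_le_add (hne 0 h0N u huN).le h5)
        _ = ENNReal.ofReal p := by
            rw [zero_add, zero_add, ← ENNReal.ofReal_add (by positivity) (by positivity)]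
            congr 1
            ring
    obtain ⟨S', hS'1, hS'2, hS'3⟩ := exists_measurable_superset (PP d (gl σ)) S
    have hq : ((PP d (gl σ)) S').toReal ≤ p := by
      rw [hS'3]
      exact ENNReal.toReal_le_of_le_ofReal hp0.le hSp
    -- pointwise lower bound
    have hB : ∀ V ∉ S', (g - 4 * ε) * M ≤ DL (box (0 : Site d) N) E V 0 u := by
      intro V hV
      have hVS : V ∉ S := fun h => hV (hS'1 h)
      rw [hS] at hVS
      simp only [Set.mem_union, Set.mem_iUnion, not_or, not_exists, Set.mem_ofPred_eq,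
        not_not] at hVS
      obtain ⟨g1, g2, g3, g4⟩ := hVS
      have key := upper (a := g - ε) (b := T) (r := M - 1) (N := N) (u := u) (by omega) g2 g1 huN
        hu2 hT0.le (fun v hv => not_lt.1 (g4 v (by rwa [Nat.sub_add_cancel hM1] at hv)))
      have hMc : ((M - 1 : ℕ) : ℝ) = (M : ℝ) - 1 := by rw [Nat.cast_sub hM1, Nat.cast_one]
      have h5 : (2 * (d : ℝ) * (2 * ((M - 1 : ℕ) : ℝ) + 1) ^ d) ≤ Real.exp (ε * M) := by
        have h6 : (2 * ((M - 1 : ℕ) : ℝ) + 1) ^ d ≤ (2 * (M : ℝ) + 1) ^ d := by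
          apply pow_le_pow_left₀ (by positivity)
          rw [hMc]
          linarith only
        have h7 : (2 * (M : ℝ) + 1) ^ d * (2 * d * Real.exp (-ε * M)) * Real.exp (ε * M) ≤
            1 * Real.exp (ε * M) := mul_le_mul_of_nonneg_right h3.le (Real.exp_pos _).le
        have h8 : Real.exp (-ε * M) * Real.exp (ε * M) = 1 := by
          rw [← Real.exp_add]
          have : -ε * (M : ℝ) + ε * M = 0 := by ring
          rw [this, Real.exp_zero]
        calc (2 * (d : ℝ) * (2 * ((M - 1 : ℕ) : ℝ) + 1) ^ d) ≤ 2 * d * (2 * (M : ℝ) + 1) ^ d := by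
              gcongr
          _ = (2 * (M : ℝ) + 1) ^ d * (2 * d * (Real.exp (-ε * M) * Real.exp (ε * M))) := by
              rw [h8]; ring
          _ = (2 * (M : ℝ) + 1) ^ d * (2 * d * Real.exp (-ε * M)) * Real.exp (ε * M) := by ring
          _ ≤ _ := by rw [one_mul] at h7; exact h7
      have h6 : |gr V (box (0 : Site d) N) E 0 u| ≤
          Real.exp (-(g - ε) * ((M - 1 : ℕ) : ℝ) + ε * M + ε * M) := by
        rw [Real.exp_add, Real.exp_add]
        refine key.trans ?_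
        rw [← hT] at h5 ⊢
        exact mul_le_mul_of_nonneg_right (mul_le_mul_of_nonneg_left h5 (Real.exp_pos _).le) hT0.le
      have h7 := Real.log_le_log (abs_pos.2 g3) h6
      rw [Real.log_exp, hMc] at h7
      unfold DL
      have h8 : (|g - ε| + (1 + C) + 1) ≤ ε * M := by
        rw [div_le_iff₀ hε] at h4
        linarith only [h4]
      have h9 := le_abs_self (g - ε)
      nlinarith only [hC, h7, h8, h9]
    -- integration
    have hDm := hF.meas 0 u
    have hDint : Integrable (fun V => DL (box (0 : Site d) N) E V 0 u) (PP d (gl σ)) := by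
      refine Integrable.mono' ((integrable_const (1 : ℝ)).add (hF.int 0 h0N u huN))
        hDm.aestronglyMeasurable (Eventually.of_forall fun V => ?_)
      show ‖DL (box (0 : Site d) N) E V 0 u‖ ≤ 1 + DL (box (0 : Site d) N) E V 0 u ^ 2
      rw [Real.norm_eq_abs]
      nlinarith only [sq_nonneg (|DL (box (0 : Site d) N) E V 0 u| - 1),
        sq_abs (DL (box (0 : Site d) N) E V 0 u), abs_nonneg (DL (box (0 : Site d) N) E V 0 u)]
    have hnm : Measurable fun V => max 0 (-DL (box (0 : Site d) N) E V 0 u) :=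
      measurable_const.max hDm.neg
    have hnle : ∀ V, max 0 (-DL (box (0 : Site d) N) E V 0 u) ≤
        |DL (box (0 : Site d) N) E V 0 u| := fun V => max_le (abs_nonneg _) (neg_le_abs _)
    have hnint : Integrable (fun V => max 0 (-DL (box (0 : Site d) N) E V 0 u))
        (PP d (gl σ)) := by
      refine Integrable.mono' hDint.abs hnm.aestronglyMeasurable
        (Eventually.of_forall fun V => ?_)
      rw [Real.norm_of_nonneg (le_max_left _ _)]
      exact hnle V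
    have hnsq : Integrable (fun V => (max 0 (-DL (box (0 : Site d) N) E V 0 u)) ^ 2)
        (PP d (gl σ)) := by
      refine Integrable.mono' (hF.int 0 h0N u huN) (hnm.pow_const 2).aestronglyMeasurable
        (Eventually.of_forall fun V => ?_)
      rw [Real.norm_of_nonneg (sq_nonneg _), ← sq_abs (DL (box (0 : Site d) N) E V 0 u)]
      exact pow_le_pow_left₀ (le_max_left _ _) (hnle V) 2
    have hneg : ∫ V, max 0 (-DL (box (0 : Site d) N) E V 0 u) ∂(PP d (gl σ)) ≤ 1 + C := by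
      have h5 : ∫ V, max 0 (-DL (box (0 : Site d) N) E V 0 u) ∂(PP d (gl σ)) ≤
          ∫ V, (1 + (max 0 (-DL (box (0 : Site d) N) E V 0 u)) ^ 2) ∂(PP d (gl σ)) := by
        refine integral_mono hnint ((integrable_const 1).add hnsq) fun V => ?_
        show max 0 (-DL (box (0 : Site d) N) E V 0 u) ≤
          1 + (max 0 (-DL (box (0 : Site d) N) E V 0 u)) ^ 2
        nlinarith only [sq_nonneg (max 0 (-DL (box (0 : Site d) N) E V 0 u) - 1),
          le_max_left 0 (-DL (box (0 : Site d) N) E V 0 u)]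
      rw [integral_add (integrable_const 1) hnsq] at h5
      have h6 := hF.neg 0 h0N u huN
      have h7 : ∫ _ : Site d → ℝ, (1 : ℝ) ∂(PP d (gl σ)) = 1 := by
        rw [integral_const]
        simp
      rw [h7] at h5
      linarith only [h5, h6]
    have hlow : (g - 4 * ε) * M * (1 - ((PP d (gl σ)) S').toReal) - (1 + C) ≤
        ∫ V, DL (box (0 : Site d) N) E V 0 u ∂(PP d (gl σ)) := by
      have h5 : ∫ V, (S'ᶜ.indicator (fun _ => (g - 4 * ε) * M) V -
          max 0 (-DL (box (0 : Site d) N) E V 0 u)) ∂(PP d (gl σ)) ≤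
          ∫ V, DL (box (0 : Site d) N) E V 0 u ∂(PP d (gl σ)) := by
        refine integral_mono (((integrable_const _).indicator hS'2.compl).sub hnint) hDint
          fun V => ?_
        show S'ᶜ.indicator (fun _ => (g - 4 * ε) * (M : ℝ)) V -
          max 0 (-DL (box (0 : Site d) N) E V 0 u) ≤ DL (box (0 : Site d) N) E V 0 u
        by_cases hV : V ∈ S'
        · rw [Set.indicator_of_notMem (Set.notMem_compl_iff.2 hV)]
          have := le_max_right 0 (-DL (box (0 : Site d) N) E V 0 u)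
          linarith only [this]
        · rw [Set.indicator_of_mem (Set.mem_compl hV)]
          have := le_max_left 0 (-DL (box (0 : Site d) N) E V 0 u)
          have := hB V hV
          linarith
      rw [integral_sub ((integrable_const _).indicator hS'2.compl) hnint,
        integral_indicator_const _ hS'2.compl, smul_eq_mul, probReal_compl_eq_one_sub hS'2] at h5
      have h6 : (PP d (gl σ)).real S' = ((PP d (gl σ)) S').toReal := rfl
      rw [h6] at h5
      linarith only [hneg, h5]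
    -- conclusion
    obtain ⟨q, hqd⟩ : ∃ q : ℝ, q = ((PP d (gl σ)) S').toReal := ⟨_, rfl⟩
    rw [← hqd] at hq hlow
    have hq0 : 0 ≤ q := by rw [hqd]; exact ENNReal.toReal_nonneg
    have hcM : (m : ℝ) * (c * (Q₁ * ℓ)) = c * M := by
      rw [hMd, hL1]
      push_cast
      ring
    rw [hcM] at hup'
    have hM0 : (0 : ℝ) < M := by exact_mod_cast hM1
    have h8 : (|g - ε| + (1 + C) + 1) ≤ ε * M := by
      rw [div_le_iff₀ hε] at h4
      linarith only [h4]
    have h9 := abs_nonneg (g - ε)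
    have h10 : -ε ≤ -(g - 4 * ε) * q := by
      have h11 : (g - 4 * ε) * q ≤ A * p := by
        calc (g - 4 * ε) * q ≤ A * q := mul_le_mul_of_nonneg_right (hA ▸ le_abs_self _) hq0
          _ ≤ A * p := mul_le_mul_of_nonneg_left hq hA0
      linarith only [hpA, h11]
    have h12 : (g - 5 * ε) * M ≤ (g - 4 * ε) * M * (1 - q) := by
      have h13 : (g - 4 * ε) * M * (1 - q) - (g - 5 * ε) * M =
          M * (ε + -(g - 4 * ε) * q) := by ring
      have h14 : 0 ≤ M * (ε + -(g - 4 * ε) * q) := mul_nonneg hM0.le (by linarith only [h10])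
      linarith only [h14]
    have h15 : (g - 6 * ε) * M ≤ c * M := by
      have : (g - 6 * ε) * M = (g - 5 * ε) * M - ε * M := by ring
      linarith only [hup', hlow, h8, h9, h12]
    have := le_of_mul_le_mul_right h15 hM0
    linarith only [this]
  by_contra hc
  rw [not_le] at hc
  have := hmain ((g - c) / 12) (by linarith only [hc])
  linarith only [hc, this]

end Pool.Agent.LE.H65C
end
end -- Pool.Agent.Helper65_LEC.UPE
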