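import Pool.Agent.Helper12_MEB.B029
import Pool.Agent.Helper12_MEB.B031
import Pool.Agent.Helper12_MEB.B034
import Pool.Agent.Helper12_MEB.B050

/-!
# Merged copies (generated) of the modules

* `Pool.Agent.Helper42_Mob.Hol`
* `Pool.Agent.Helper42_Mob.Hl2`
* `Pool.Agent.Helper42_Mob.Dlb`
-/

set_option autoImplicit false

section -- Pool.Agent.Helper42_Mob.Hol

/-!
# Module HOL: from the height `η` down to the real axis
-/

set_option autoImplicit false

open scoped ENNReal BigOperators

noncomputable section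

namespace Pool.Agent.Mob.H42

open Pool.Agent.Anderson Pool.Agent.Loc Pool.Agent.Helper54.Bal Pool.Agent.Mob

/-- the weight -/
def wt (E r M : ℝ) (z : ℂ) : ℂ :=
  Complex.exp (-(M : ℂ) * ((z - E) ^ 2 / (r : ℂ) ^ 2 + 4 * Complex.I * (z - E) / r))

theorem norm_wt (E r M : ℝ) (hr : r ≠ 0) (z : ℂ) :
    ‖wt E r M z‖ = Real.exp (-M * (((z.re - E) / r) ^ 2 - (z.im / r) ^ 2 - 4 * (z.im / r))) := by
  unfold wt
  rw [Complex.norm_exp]
  congr 1
  have e1 : z = (z.re : ℂ) + (z.im : ℂ) * Complex.I := (Complex.re_add_im z).symm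
  have hrc : (r : ℂ) ≠ 0 := by exact_mod_cast hr
  have e2 : -(M : ℂ) * ((z - E) ^ 2 / (r : ℂ) ^ 2 + 4 * Complex.I * (z - E) / r) =
      ((-M * (((z.re - E) / r) ^ 2 - (z.im / r) ^ 2 - 4 * (z.im / r)) : ℝ) : ℂ) +
      ((-M * (2 * ((z.re - E) / r) * (z.im / r) + 4 * ((z.re - E) / r)) : ℝ) : ℂ) *
        Complex.I := by
    conv_lhs => rw [e1]
    push_cast
    field_simp
    ring_nf
    simp only [Complex.I_sq]
    ring
  rw [e2, Complex.add_re, Complex.ofReal_re, Complex.mul_re, Complex.ofReal_re, Complex.ofReal_im,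
    Complex.I_re, Complex.I_im]
  ring

theorem exp_le_three {t : ℝ} (ht : t ≤ 1 + 1 / 32) : Real.exp t ≤ 3 := by
  have h1 : Real.exp t ≤ Real.exp 1 * Real.exp (1 / 32) := by
    rw [← Real.exp_add]
    exact Real.exp_le_exp.2 ht
  have h2 : Real.exp 1 < 2.7182818286 := Real.exp_one_lt_d9
  have h3 : Real.exp (1 / 32) ≤ 32 / 31 := by
    have h4 : 1 - 1 / 32 ≤ Real.exp (-(1 / 32 : ℝ)) := by
      have := Real.add_one_le_exp (-(1 / 32 : ℝ))
      linarith only [this]
    have h5 : Real.exp (1 / 32 : ℝ) * Real.exp (-(1 / 32 : ℝ)) = 1 := by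
      rw [← Real.exp_add]; norm_num
    have h6 : 0 < Real.exp (1 / 32 : ℝ) := Real.exp_pos _
    nlinarith only [h4, h5, h6]
  have h7 : 0 < Real.exp 1 := Real.exp_pos _
  have h8 : 0 < Real.exp (1 / 32 : ℝ) := Real.exp_pos _
  nlinarith only [h1, h2, h3, h8]

theorem hol (hgzb : GzbStmt) : HolStmt := by
  intro d V Λ x y E r η ε hη hr hε hno hF
  have hr0 : 0 < r := by linarith
  have hrne : r ≠ 0 := hr0.ne'
  obtain ⟨g1, -, g3⟩ := hgzb d V Λ x y
  set M : ℝ := r / (4 * η) with hM
  have hM0 : 0 < M := by positivity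
  have hMη : M * (4 * (η / r)) = 1 := by
    rw [hM]; field_simp
  have hηr : η / r ≤ 1 / 8 := by
    rw [div_le_iff₀ hr0]; linarith only [hr]
  have hηr0 : 0 < η / r := by positivity
  have hMη2 : M * (η / r) ^ 2 ≤ 1 / 32 := by
    have : M * (η / r) ^ 2 = (M * (4 * (η / r))) * ((η / r) / 4) := by ring
    rw [this, hMη]
    linarith only [hηr]
  set C : ℝ := max (3 * ε) (3 / r * Real.exp (-r / (4 * η))) with hC
  set U : Set ℂ := Set.Ioo (E - r) (E + r) ×ℂ Set.Ioo (η - r) η with hU
  have hcl : closure U = Set.Icc (E - r) (E + r) ×ℂ Set.Icc (η - r) η := by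
    rw [hU, Complex.closure_reProdIm, closure_Ioo (by linarith only [hη, hr]), closure_Ioo (by linarith only [hη, hr])]
  have hmem : ∀ z ∈ closure U, |z.re - E| ≤ r ∧ η - r ≤ z.im ∧ z.im ≤ η := by
    intro z hz
    rw [hcl, Complex.mem_reProdIm, Set.mem_Icc, Set.mem_Icc] at hz
    refine ⟨abs_le.2 ⟨by linarith only [hz.1.1], by linarith only [hz.1.2]⟩, hz.2.1, hz.2.2⟩
  have hdiff : DiffContOnCl ℂ (fun z => gz V Λ z x y * wt E r M z) U := by
    apply DifferentiableOn.diffContOnCl
    intro z hz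
    have h1 := (g3 E r hr0 hno z (hmem z hz).1).2.2
    have h2 : DifferentiableAt ℂ (wt E r M) z := by
      unfold wt
      fun_prop
    exact (h1.mul h2).differentiableWithinAt
  have hbdd : Bornology.IsBounded U := by
    rw [hU]
    exact (Metric.isBounded_Ioo _ _).reProdIm (Metric.isBounded_Ioo _ _)
  have hopen : IsOpen U := isOpen_Ioo.reProdIm isOpen_Ioo
  have hfr : ∀ z ∈ frontier U, ‖gz V Λ z x y * wt E r M z‖ ≤ C := by
    intro z hz
    rw [hopen.frontier_eq] at hz
    obtain ⟨hz1, hz2⟩ := hz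
    obtain ⟨m1, m2, m3⟩ := hmem z hz1
    rw [norm_mul, norm_wt E r M hrne]
    set s : ℝ := (z.re - E) / r with hs
    set t : ℝ := z.im / r with ht
    have ht1 : t ≤ η / r := div_le_div_of_nonneg_right m3 hr0.le
    have ht2 : η / r - 1 ≤ t := by
      rw [ht, div_sub_one hrne]
      exact div_le_div_of_nonneg_right m2 hr0.le
    by_cases htop : z.im = η
    · -- the top side
      refine le_trans ?_ (le_max_left _ _)
      have e1 : z = zz η z.re := by
        unfold zz
        rw [← htop]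
        exact (Complex.re_add_im z).symm
      have h1 : ‖gz V Λ z x y‖ ≤ ε := by
        rw [e1]
        exact hF z.re m1
      have h2 : Real.exp (-M * (s ^ 2 - t ^ 2 - 4 * t)) ≤ 3 := by
        apply exp_le_three
        have e2 : t = η / r := by rw [ht, htop]
        rw [e2]
        have : 0 ≤ M * s ^ 2 := by positivity
        nlinarith only [hMη, hMη2, this]
      calc ‖gz V Λ z x y‖ * Real.exp (-M * (s ^ 2 - t ^ 2 - 4 * t)) ≤ ε * 3 :=
            mul_le_mul h1 h2 (Real.exp_pos _).le hε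
        _ = 3 * ε := by ring
    · -- the other sides
      refine le_trans ?_ (le_max_right _ _)
      have h1 := (g3 E r hr0 hno z m1).2.1
      have h2 : -M * (s ^ 2 - t ^ 2 - 4 * t) ≤ -M + (1 + 1 / 32) := by
        by_cases hbot : z.im = η - r
        · have e2 : t = η / r - 1 := by rw [ht, hbot, sub_div, div_self hrne]
          have h3 : 1 ≤ -t ^ 2 - 4 * t := by
            rw [e2]
            nlinarith only [hηr, hηr0]
          have h4 : 0 ≤ M * s ^ 2 := by positivity
          nlinarith only [hM0, hηr, hηr0, h3, h4]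
        · have hs1 : s ^ 2 = 1 := by
            have h3 : z.im ∈ Set.Ioo (η - r) η :=
              ⟨lt_of_le_of_ne m2 (Ne.symm hbot), lt_of_le_of_ne m3 htop⟩
            have h4 : ¬ (z.re ∈ Set.Ioo (E - r) (E + r)) := by
              intro h5
              exact hz2 (by rw [hU, Complex.mem_reProdIm]; exact ⟨h5, h3⟩)
            have h6 : |z.re - E| = r := by
              apply le_antisymm m1
              by_contra hcon
              rw [not_le] at hcon
              apply h4
              rw [abs_lt] at hcon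
              exact ⟨by linarith only [hcon.1], by linarith only [hcon.2]⟩
            rw [hs, div_pow, ← sq_abs, h6]
            field_simp
          rw [hs1]
          rcases le_total t 0 with h0 | h0
          · have h5 : 0 ≤ -t ^ 2 - 4 * t := by nlinarith only [hηr, hηr0, ht1, ht2, h0]
            nlinarith only [hM0, hηr, hηr0, h5]
          · have h5 : M * t ^ 2 ≤ M * (η / r) ^ 2 :=
              mul_le_mul_of_nonneg_left (pow_le_pow_left₀ h0 ht1 2) hM0.le
            have h6 : M * (4 * t) ≤ M * (4 * (η / r)) :=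
              mul_le_mul_of_nonneg_left (by linarith only [ht1]) hM0.le
            nlinarith only [hMη, hMη2, h5, h6]
      have h3 : Real.exp (-M * (s ^ 2 - t ^ 2 - 4 * t)) ≤ 3 * Real.exp (-r / (4 * η)) := by
        have e3 : -r / (4 * η) = -M := by rw [hM, neg_div]
        rw [e3]
        calc _ ≤ Real.exp (-M + (1 + 1 / 32)) := Real.exp_le_exp.2 h2
          _ = Real.exp (1 + 1 / 32) * Real.exp (-M) := by rw [← Real.exp_add]; congr 1; ring
          _ ≤ _ := mul_le_mul_of_nonneg_right (exp_le_three le_rfl) (Real.exp_pos _).le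
      calc _ ≤ r⁻¹ * (3 * Real.exp (-r / (4 * η))) :=
            mul_le_mul h1 h3 (Real.exp_pos _).le (by positivity)
        _ = _ := by ring
  have hE : (E : ℂ) ∈ closure U := by
    rw [hcl, Complex.mem_reProdIm, Complex.ofReal_re, Complex.ofReal_im]
    constructor <;> constructor <;> linarith
  have hfin := Complex.norm_le_of_forall_mem_frontier_norm_le hbdd hdiff hfr hE
  rw [norm_mul, norm_wt E r M hrne, g1 E, Complex.norm_real, Real.norm_eq_abs, Complex.ofReal_re,
    Complex.ofReal_im] at hfin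
  simpa using hfin

end Pool.Agent.Mob.H42
end
end -- Pool.Agent.Helper42_Mob.Hol

section -- Pool.Agent.Helper42_Mob.Hl2

/-!
# Module HL2: from the height `η` down to the real axis, in the square mean
-/

set_option autoImplicit false

open MeasureTheory

open scoped ENNReal BigOperators Interval

noncomputable section

namespace Pool.Agent.Mob.H42

open Pool.Agent.Anderson Pool.Agent.Loc Pool.Agent.Helper54.Bal Pool.Agent.Mob

/-- the boundary integral over the rectangle with the corners `z` and `w` -/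
def bdry (z w : ℂ) (φ : ℂ → ℂ) : ℂ :=
  (∫ x : ℝ in z.re..w.re, φ (x + z.im * Complex.I)) -
    (∫ x : ℝ in z.re..w.re, φ (x + w.im * Complex.I)) +
    Complex.I • (∫ y : ℝ in z.im..w.im, φ (w.re + y * Complex.I)) -
    Complex.I • (∫ y : ℝ in z.im..w.im, φ (z.re + y * Complex.I))

theorem im_part {a b r : ℝ} (hr : 0 < r) (hab : a ≤ b) (ha : -r ≤ a) (hb : b ≤ r) (s : ℝ)
    (hs : s = 1 ∨ s = -1) :
    (b - a) / (2 * r) ≤ s * (∫ y : ℝ in a..b, (((s * r : ℝ) : ℂ) + y * Complex.I)⁻¹).re := by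
  have hne : ∀ y : ℝ, ((s * r : ℝ) : ℂ) + y * Complex.I ≠ 0 := by
    intro y h
    have h1 := congrArg Complex.re h
    simp only [Complex.add_re, Complex.ofReal_re, Complex.mul_re, Complex.ofReal_im,
      Complex.I_re, Complex.I_im, Complex.zero_re] at h1
    rcases hs with rfl | rfl <;> nlinarith only [hr, h1]
  have hcont : Continuous fun y : ℝ => (((s * r : ℝ) : ℂ) + y * Complex.I)⁻¹ :=
    Continuous.inv₀ (by fun_prop) hne
  have h1 : (∫ y : ℝ in a..b, (((s * r : ℝ) : ℂ) + y * Complex.I)⁻¹).re =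
      ∫ y : ℝ in a..b, ((((s * r : ℝ) : ℂ) + y * Complex.I)⁻¹).re := by
    have := Complex.reCLM.intervalIntegral_comp_comm (hcont.intervalIntegrable (μ := volume) a b)
    exact this.symm
  rw [h1, ← intervalIntegral.integral_const_mul]
  have h2 : ∀ y ∈ Set.Icc a b, (2 * r)⁻¹ ≤ s * ((((s * r : ℝ) : ℂ) + y * Complex.I)⁻¹).re := by
    intro y hy
    rw [Complex.inv_re]
    have e1 : ((((s * r : ℝ) : ℂ) + y * Complex.I)).re = s * r := by simp
    have e2 : Complex.normSq ((((s * r : ℝ) : ℂ) + y * Complex.I)) = r ^ 2 + y ^ 2 := by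
      rw [Complex.normSq_add_mul_I]
      rcases hs with rfl | rfl <;> ring
    rw [e1, e2]
    have e3 : s * (s * r / (r ^ 2 + y ^ 2)) = r / (r ^ 2 + y ^ 2) := by
      rcases hs with rfl | rfl <;> ring
    rw [e3, le_div_iff₀ (by positivity), inv_mul_eq_div, div_le_iff₀ (by positivity)]
    have : y ^ 2 ≤ r ^ 2 := by
      apply sq_le_sq'
      · linarith only [hy.1, ha]
      · linarith [hy.2]
    nlinarith only [this]
  have h3 : ∫ y : ℝ in a..b, (2 * r)⁻¹ = (b - a) / (2 * r) := by
    rw [intervalIntegral.integral_const, smul_eq_mul, div_eq_mul_inv]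
  rw [← h3]
  apply intervalIntegral.integral_mono_on hab
  · exact intervalIntegrable_const
  · apply Continuous.intervalIntegrable
    exact continuous_const.mul (Complex.continuous_re.comp hcont)
  · exact h2

theorem im_part2 {a b t : ℝ} (ht : t ≠ 0) (hab : a ≤ b) (E : ℝ) :
    0 ≤ -(t * (∫ x : ℝ in a..b, ((x : ℂ) + t * Complex.I - E)⁻¹).im) := by
  have hne : ∀ x : ℝ, (x : ℂ) + t * Complex.I - E ≠ 0 := by
    intro y h
    have h1 := congrArg Complex.im h
    simp at h1
    exact ht h1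
  have hcont : Continuous fun x : ℝ => ((x : ℂ) + t * Complex.I - E)⁻¹ :=
    Continuous.inv₀ (by fun_prop) hne
  have h1 : (∫ x : ℝ in a..b, ((x : ℂ) + t * Complex.I - E)⁻¹).im =
      ∫ x : ℝ in a..b, (((x : ℂ) + t * Complex.I - E)⁻¹).im := by
    have := Complex.imCLM.intervalIntegral_comp_comm (hcont.intervalIntegrable (μ := volume) a b)
    exact this.symm
  rw [h1, ← intervalIntegral.integral_const_mul, ← intervalIntegral.integral_neg]
  apply intervalIntegral.integral_nonneg hab
  intro x _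
  rw [Complex.inv_im]
  have e1 : ((x : ℂ) + t * Complex.I - E).im = t := by simp
  rw [e1]
  have : -(t * (-t / Complex.normSq ((x : ℂ) + t * Complex.I - E))) =
      t ^ 2 / Complex.normSq ((x : ℂ) + t * Complex.I - E) := by ring
  rw [this]
  exact div_nonneg (sq_nonneg _) (Complex.normSq_nonneg _)

theorem rect_bound {f : ℂ → ℂ} {E r η B : ℝ} (hη : 0 < η) (hr : 8 * η ≤ r)
    (hf : ∀ z : ℂ, |z.re - E| ≤ r → η - r ≤ z.im → z.im ≤ η → DifferentiableAt ℂ f z)
    (hB : ∀ z : ℂ, |z.re - E| ≤ r → η - r ≤ z.im → z.im ≤ η →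
      (z.im = η - r ∨ |z.re - E| = r) → ‖f z‖ ≤ B) :
    ‖f E‖ ≤ 2 * ‖∫ x : ℝ in (E - r)..(E + r), f (x + η * Complex.I) *
      ((x : ℂ) + η * Complex.I - E)⁻¹‖ + 9 * B := by
  have hr0 : 0 < r := by linarith
  have hB0 : 0 ≤ B := by
    refine (norm_nonneg _).trans (hB ((E : ℂ) + ((η - r : ℝ) : ℂ) * Complex.I) ?_ ?_ ?_ ?_)
    · simp [hr0.le]
    · simp
    · simp; linarith
    · left; simp
  set z₀ : ℂ := ((E - r : ℝ) : ℂ) + ((η - r : ℝ) : ℂ) * Complex.I with hz₀
  set w₀ : ℂ := ((E + r : ℝ) : ℂ) + ((η : ℝ) : ℂ) * Complex.I with hw₀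
  have z1 : z₀.re = E - r := by rw [hz₀]; simp
  have z2 : z₀.im = η - r := by rw [hz₀]; simp
  have w1 : w₀.re = E + r := by rw [hw₀]; simp
  have w2 : w₀.im = η := by rw [hw₀]; simp
  have hreg : ∀ z ∈ [[z₀.re, w₀.re]] ×ℂ [[z₀.im, w₀.im]],
      |z.re - E| ≤ r ∧ η - r ≤ z.im ∧ z.im ≤ η := by
    intro z hz
    rw [z1, z2, w1, w2, Set.uIcc_of_le (by linarith only [hη, hr]), Set.uIcc_of_le (by linarith),
      Complex.mem_reProdIm, Set.mem_Icc, Set.mem_Icc] at hz
    exact ⟨abs_le.2 ⟨by linarith [hz.1.1], by linarith [hz.1.2]⟩, hz.2.1, hz.2.2⟩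
  have hEmem : [[z₀.re, w₀.re]] ×ℂ [[z₀.im, w₀.im]] ∈ nhds (E : ℂ) := by
    rw [z1, z2, w1, w2, Set.uIcc_of_le (by linarith), Set.uIcc_of_le (by linarith)]
    rw [mem_nhds_iff]
    refine ⟨Set.Ioo (E - r) (E + r) ×ℂ Set.Ioo (η - r) η, ?_, isOpen_Ioo.reProdIm isOpen_Ioo, ?_⟩
    · intro z hz
      rw [Complex.mem_reProdIm] at hz ⊢
      exact ⟨Set.Ioo_subset_Icc_self hz.1, Set.Ioo_subset_Icc_self hz.2⟩
    · rw [Complex.mem_reProdIm, Complex.ofReal_re, Complex.ofReal_im]
      constructor <;> constructor <;> linarith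
  have hds : DifferentiableOn ℂ (dslope f E) ([[z₀.re, w₀.re]] ×ℂ [[z₀.im, w₀.im]]) := by
    rw [Complex.differentiableOn_dslope hEmem]
    intro z hz
    obtain ⟨h1, h2, h3⟩ := hreg z hz
    exact (hf z h1 h2 h3).differentiableWithinAt
  have key := Complex.integral_boundary_rect_eq_zero_of_differentiableOn (dslope f E) z₀ w₀ hds
  rw [z1, z2, w1, w2] at key
  -- the four sides
  have sl : ∀ z : ℂ, z ≠ E → dslope f E z = f z * (z - E)⁻¹ - f E * (z - E)⁻¹ := by
    intro z hz
    rw [dslope_of_ne _ hz, slope_def_module, smul_eq_mul]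
    ring
  have side : ∀ (g : ℝ → ℂ) (a b : ℝ), a ≤ b → Continuous g →
      (∀ t ∈ Set.Icc a b, |(g t).re - E| ≤ r ∧ η - r ≤ (g t).im ∧ (g t).im ≤ η ∧ g t ≠ E) →
      ∫ t : ℝ in a..b, dslope f E (g t) = (∫ t : ℝ in a..b, f (g t) * (g t - E)⁻¹) -
        f E * ∫ t : ℝ in a..b, (g t - E)⁻¹ := by
    intro g a b hab hg hmem
    have c1 : ContinuousOn (fun t => (g t - E)⁻¹) (Set.uIcc a b) := by
      rw [Set.uIcc_of_le hab]
      apply ContinuousOn.inv₀ (by fun_prop)
      intro t ht
      exact sub_ne_zero.2 (hmem t ht).2.2.2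
    have c2 : ContinuousOn (fun t => f (g t)) (Set.uIcc a b) := by
      rw [Set.uIcc_of_le hab]
      intro t ht
      have h := hmem t ht
      exact ((hf (g t) h.1 h.2.1 h.2.2.1).continuousAt.comp hg.continuousAt).continuousWithinAt
    rw [← intervalIntegral.integral_const_mul, ← intervalIntegral.integral_sub]
    · apply intervalIntegral.integral_congr
      intro t ht
      rw [Set.uIcc_of_le hab] at ht
      exact sl _ (hmem t ht).2.2.2
    · exact (c2.mul c1).intervalIntegrable
    · exact (continuousOn_const.mul c1).intervalIntegrable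
  have s1 := side (fun x => (x : ℂ) + ((η - r : ℝ) : ℂ) * Complex.I) (E - r) (E + r)
    (by linarith) (by fun_prop) (by
      intro t ht
      refine ⟨?_, ?_, ?_, ?_⟩
      · simp only [Complex.add_re, Complex.ofReal_re, Complex.mul_re, Complex.ofReal_im,
          Complex.I_re, Complex.I_im]
        rw [abs_le]
        constructor <;> linarith [ht.1, ht.2]
      · simp
      · simp; linarith
      · intro h
        have := congrArg Complex.im h
        simp at this
        linarith)
  have s2 := side (fun x => (x : ℂ) + (η : ℂ) * Complex.I) (E - r) (E + r)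
    (by linarith only [hη, hr]) (by fun_prop) (by
      intro t ht
      refine ⟨?_, ?_, ?_, ?_⟩
      · simp only [Complex.add_re, Complex.ofReal_re, Complex.mul_re, Complex.ofReal_im,
          Complex.I_re, Complex.I_im]
        rw [abs_le]
        constructor <;> linarith only [ht.1, ht.2]
      · simp; linarith only [hη, hr]
      · simp
      · intro h
        have := congrArg Complex.im h
        simp at this
        linarith)
  have s3 := side (fun y => ((E + r : ℝ) : ℂ) + (y : ℂ) * Complex.I) (η - r) η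
    (by linarith only [hη, hr]) (by fun_prop) (by
      intro t ht
      refine ⟨?_, ?_, ?_, ?_⟩
      · simp [abs_of_pos hr0]
      · simpa using ht.1
      · simpa using ht.2
      · intro h
        have := congrArg Complex.re h
        simp at this
        linarith only [hη, hr, this])
  have s4 := side (fun y => ((E - r : ℝ) : ℂ) + (y : ℂ) * Complex.I) (η - r) η
    (by linarith only [hη, hr]) (by fun_prop) (by
      intro t ht
      refine ⟨?_, ?_, ?_, ?_⟩
      · simp [abs_of_pos hr0]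
      · simpa using ht.1
      · simpa using ht.2
      · intro h
        have := congrArg Complex.re h
        simp at this
        linarith only [hη, hr, this])
  beta_reduce at s1 s2 s3 s4
  rw [s1, s2, s3, s4] at key
  obtain ⟨A1, hA1⟩ : ∃ A : ℂ, A = ∫ x : ℝ in (E - r)..(E + r),
    f ((x : ℂ) + ((η - r : ℝ) : ℂ) * Complex.I) *
      ((x : ℂ) + ((η - r : ℝ) : ℂ) * Complex.I - E)⁻¹ := ⟨_, rfl⟩
  obtain ⟨A2, hA2⟩ : ∃ A : ℂ, A = ∫ x : ℝ in (E - r)..(E + r),
    f ((x : ℂ) + (η : ℂ) * Complex.I) * ((x : ℂ) + (η : ℂ) * Complex.I - E)⁻¹ := ⟨_, rfl⟩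
  obtain ⟨A3, hA3⟩ : ∃ A : ℂ, A = ∫ y : ℝ in (η - r)..η,
    f (((E + r : ℝ) : ℂ) + (y : ℂ) * Complex.I) *
      (((E + r : ℝ) : ℂ) + (y : ℂ) * Complex.I - E)⁻¹ := ⟨_, rfl⟩
  obtain ⟨A4, hA4⟩ : ∃ A : ℂ, A = ∫ y : ℝ in (η - r)..η,
    f (((E - r : ℝ) : ℂ) + (y : ℂ) * Complex.I) *
      (((E - r : ℝ) : ℂ) + (y : ℂ) * Complex.I - E)⁻¹ := ⟨_, rfl⟩
  obtain ⟨B1, hB1⟩ : ∃ A : ℂ, A = ∫ x : ℝ in (E - r)..(E + r),
      ((x : ℂ) + ((η - r : ℝ) : ℂ) * Complex.I - E)⁻¹ := ⟨_, rfl⟩
  obtain ⟨B2, hB2⟩ : ∃ A : ℂ, A = ∫ x : ℝ in (E - r)..(E + r),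
      ((x : ℂ) + (η : ℂ) * Complex.I - E)⁻¹ := ⟨_, rfl⟩
  obtain ⟨B3, hB3⟩ : ∃ A : ℂ, A = ∫ y : ℝ in (η - r)..η,
      (((E + r : ℝ) : ℂ) + (y : ℂ) * Complex.I - E)⁻¹ := ⟨_, rfl⟩
  obtain ⟨B4, hB4⟩ : ∃ A : ℂ, A = ∫ y : ℝ in (η - r)..η,
      (((E - r : ℝ) : ℂ) + (y : ℂ) * Complex.I - E)⁻¹ := ⟨_, rfl⟩
  rw [← hA1, ← hA2, ← hA3, ← hA4, ← hB1, ← hB2, ← hB3, ← hB4] at key
  have key2 : f E * (B1 - B2 + Complex.I * B3 - Complex.I * B4) =
      A1 - A2 + Complex.I * A3 - Complex.I * A4 := by
    simp only [smul_eq_mul] at key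
    linear_combination -key
  -- the winding number
  have hB1' : 0 ≤ B1.im := by
    have h := im_part2 (a := E - r) (b := E + r) (t := η - r) (by
      have : η < r := by linarith only [hη, hr]
      exact (sub_neg.2 this).ne) (by linarith only [hη, hr]) E
    rw [← hB1] at h
    have h5 : η - r < 0 := by linarith only [hη, hr]
    by_contra hcon
    rw [not_le] at hcon
    have := mul_pos_of_neg_of_neg h5 hcon
    linarith only [h, this]
  have hB2' : B2.im ≤ 0 := by
    have h := im_part2 (a := E - r) (b := E + r) (t := η) hη.ne' (by linarith only [hη, hr]) E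
    rw [← hB2] at h
    by_contra hcon
    rw [not_le] at hcon
    have := mul_pos hη hcon
    linarith only [h, this]
  have hB3' : 1 / 2 ≤ B3.re := by
    have h := im_part (a := η - r) (b := η) hr0 (by linarith only [hη, hr]) (by linarith only [hη]) (by linarith only [hη, hr]) 1
      (Or.inl rfl)
    have e : (∫ y : ℝ in (η - r)..η, (((1 * r : ℝ) : ℂ) + y * Complex.I)⁻¹) = B3 := by
      rw [hB3]
      congr 1
      funext y
      congr 1
      push_cast
      ring
    rw [e] at h
    have e2 : (η - (η - r)) / (2 * r) = 1 / 2 := by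
      field_simp
      ring
    rw [e2] at h
    linarith only [h]
  have hB4' : B4.re ≤ -(1 / 2) := by
    have h := im_part (a := η - r) (b := η) hr0 (by linarith only [hη, hr]) (by linarith only [hη]) (by linarith only [hη, hr]) (-1)
      (Or.inr rfl)
    have e : (∫ y : ℝ in (η - r)..η, (((-1 * r : ℝ) : ℂ) + y * Complex.I)⁻¹) = B4 := by
      rw [hB4]
      congr 1
      funext y
      congr 1
      push_cast
      ring
    rw [e] at h
    have e2 : (η - (η - r)) / (2 * r) = 1 / 2 := by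
      field_simp
      ring
    rw [e2] at h
    linarith only [h]
  have hwind : 1 ≤ ‖B1 - B2 + Complex.I * B3 - Complex.I * B4‖ := by
    refine le_trans ?_ (Complex.abs_im_le_norm _)
    refine le_trans ?_ (le_abs_self _)
    simp only [Complex.add_im, Complex.sub_im, Complex.mul_im, Complex.I_re, Complex.I_im,
      zero_mul, one_mul, zero_add]
    linarith only [hB1', hB2', hB3', hB4']
  -- the sides
  have hinv : ∀ (z : ℂ) (c : ℝ), 0 < c → c ≤ ‖z - E‖ → ‖(z - E)⁻¹‖ ≤ c⁻¹ := by
    intro z c hc h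
    rw [norm_inv]
    exact inv_anti₀ hc h
  have n1 : ‖A1‖ ≤ 16 / 7 * B := by
    have h : ∀ x ∈ Set.uIoc (E - r) (E + r), ‖f ((x : ℂ) + ((η - r : ℝ) : ℂ) * Complex.I) *
        ((x : ℂ) + ((η - r : ℝ) : ℂ) * Complex.I - E)⁻¹‖ ≤ B * (7 / 8 * r)⁻¹ := by
      intro x hx
      rw [Set.uIoc_of_le (by linarith only [hη, hr])] at hx
      rw [norm_mul]
      refine mul_le_mul (hB _ ?_ ?_ ?_ (Or.inl ?_)) (hinv _ _ (by positivity) ?_)
        (norm_nonneg _) hB0
      · simp only [Complex.add_re, Complex.ofReal_re, Complex.mul_re, Complex.ofReal_im,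
          Complex.I_re, Complex.I_im]
        rw [abs_le]
        constructor <;> linarith only [hx.1, hx.2]
      · simp
      · simp; linarith only [hη, hr]
      · simp
      · refine le_trans ?_ (Complex.abs_im_le_norm _)
        have : (((x : ℂ) + ((η - r : ℝ) : ℂ) * Complex.I - E)).im = η - r := by simp
        rw [this, abs_of_neg (by linarith only [hη, hr])]
        linarith only [hr]
    have h2 := intervalIntegral.norm_integral_le_of_norm_le_const h
    rw [← hA1] at h2
    refine h2.trans (le_of_eq ?_)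
    rw [show E + r - (E - r) = 2 * r by ring, abs_of_pos (by positivity)]
    field_simp
    ring
  have n3 : ‖A3‖ ≤ B := by
    have h : ∀ y ∈ Set.uIoc (η - r) η, ‖f (((E + r : ℝ) : ℂ) + (y : ℂ) * Complex.I) *
        (((E + r : ℝ) : ℂ) + (y : ℂ) * Complex.I - E)⁻¹‖ ≤ B * r⁻¹ := by
      intro x hx
      rw [Set.uIoc_of_le (by linarith only [hη, hr])] at hx
      rw [norm_mul]
      refine mul_le_mul (hB _ ?_ ?_ ?_ (Or.inr ?_)) (hinv _ _ (by positivity) ?_)
        (norm_nonneg _) hB0
      · simp [abs_of_pos hr0]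
      · simpa using hx.1.le
      · simpa using hx.2
      · simp [abs_of_pos hr0]
      · refine le_trans ?_ (Complex.abs_re_le_norm _)
        have : (((E + r : ℝ) : ℂ) + (x : ℂ) * Complex.I - E).re = r := by simp
        rw [this, abs_of_pos hr0]
    have h2 := intervalIntegral.norm_integral_le_of_norm_le_const h
    rw [← hA3] at h2
    refine h2.trans (le_of_eq ?_)
    rw [show η - (η - r) = r by ring, abs_of_pos (by positivity)]
    field_simp
  have n4 : ‖A4‖ ≤ B := by
    have h : ∀ y ∈ Set.uIoc (η - r) η, ‖f (((E - r : ℝ) : ℂ) + (y : ℂ) * Complex.I) *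
        (((E - r : ℝ) : ℂ) + (y : ℂ) * Complex.I - E)⁻¹‖ ≤ B * r⁻¹ := by
      intro x hx
      rw [Set.uIoc_of_le (by linarith only [hη, hr])] at hx
      rw [norm_mul]
      refine mul_le_mul (hB _ ?_ ?_ ?_ (Or.inr ?_)) (hinv _ _ (by positivity) ?_)
        (norm_nonneg _) hB0
      · simp [abs_of_pos hr0]
      · simpa using hx.1.le
      · simpa using hx.2
      · simp [abs_of_pos hr0]
      · refine le_trans ?_ (Complex.abs_re_le_norm _)
        have : (((E - r : ℝ) : ℂ) + (x : ℂ) * Complex.I - E).re = -r := by simp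
        rw [this, abs_neg, abs_of_pos hr0]
    have h2 := intervalIntegral.norm_integral_le_of_norm_le_const h
    rw [← hA4] at h2
    refine h2.trans (le_of_eq ?_)
    rw [show η - (η - r) = r by ring, abs_of_pos (by positivity)]
    field_simp
  have h5 : ‖f E‖ ≤ ‖A1 - A2 + Complex.I * A3 - Complex.I * A4‖ := by
    rw [← key2, norm_mul]
    exact le_mul_of_one_le_right (norm_nonneg _) hwind
  have h6 : ‖A1 - A2 + Complex.I * A3 - Complex.I * A4‖ ≤ ‖A1‖ + ‖A2‖ + ‖A3‖ + ‖A4‖ := by
    have t1 := norm_sub_le (A1 - A2 + Complex.I * A3) (Complex.I * A4)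
    have t2 := norm_add_le (A1 - A2) (Complex.I * A3)
    have t3 := norm_sub_le A1 A2
    rw [norm_mul, Complex.norm_I, one_mul] at t1 t2
    linarith only [t1, t2, t3]
  rw [← hA2]
  have := norm_nonneg A2
  linarith only [hB0, n1, n3, n4, h5, h6, this]

/-- the integral of the square of the Cauchy kernel -/
theorem kernel_int {E r η : ℝ} (hη : 0 < η) (hr : 0 < r) :
    ∫⁻ x in Set.Ioc (E - r) (E + r), ‖((x : ℂ) + η * Complex.I - E)⁻¹‖ₑ ^ (2 : ℝ) ≤
      ENNReal.ofReal (Real.pi / η) := by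
  have h1 : ∀ x : ℝ, ‖((x : ℂ) + η * Complex.I - E)⁻¹‖ₑ ^ (2 : ℝ) =
      ENNReal.ofReal (η⁻¹ * (η⁻¹ * (1 + (η⁻¹ * (x - E)) ^ 2)⁻¹)) := by
    intro x
    have e0 : ‖((x : ℂ) + η * Complex.I - E)‖ ^ 2 = (x - E) ^ 2 + η ^ 2 := by
      rw [← Complex.normSq_eq_norm_sq, Complex.normSq_apply]
      simp
      ring
    rw [← ofReal_norm, ENNReal.ofReal_rpow_of_nonneg (norm_nonneg _) (by norm_num)]
    congr 1
    rw [norm_inv, Real.inv_rpow (norm_nonneg _)]
    have e1 : ‖((x : ℂ) + η * Complex.I - E)‖ ^ (2 : ℝ) = (x - E) ^ 2 + η ^ 2 := by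
      rw [← e0]
      exact Real.rpow_natCast _ 2
    rw [e1]
    have e2 : (x - E) ^ 2 + η ^ 2 ≠ 0 := by positivity
    have e3 : (1 + (η⁻¹ * (x - E)) ^ 2) ≠ 0 := by positivity
    field_simp
    ring
  simp only [h1]
  rw [← ofReal_integral_eq_lintegral_ofReal]
  · apply ENNReal.ofReal_le_ofReal
    rw [← intervalIntegral.integral_of_le (by linarith), intervalIntegral.integral_const_mul]
    have e1 : ∫ x in (E - r)..(E + r), η⁻¹ * (1 + (η⁻¹ * (x - E)) ^ 2)⁻¹ =
        Real.arctan (η⁻¹ * r) - Real.arctan (η⁻¹ * -r) := by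
      have hd : ∀ x ∈ Set.uIcc (E - r) (E + r), HasDerivAt
          (fun x => Real.arctan (η⁻¹ * (x - E))) (η⁻¹ * (1 + (η⁻¹ * (x - E)) ^ 2)⁻¹) x := by
        intro x _
        have h2 : HasDerivAt (fun x : ℝ => η⁻¹ * (x - E)) η⁻¹ x := by
          have := ((hasDerivAt_id x).sub_const E).const_mul η⁻¹
          simpa using this
        have h3 := h2.arctan
        have h4 : 1 / (1 + (η⁻¹ * (x - E)) ^ 2) * η⁻¹ = η⁻¹ * (1 + (η⁻¹ * (x - E)) ^ 2)⁻¹ := by
          rw [one_div]; ring
        rw [h4] at h3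
        exact h3
      rw [intervalIntegral.integral_eq_sub_of_hasDerivAt hd]
      · congr 2 <;> ring
      · apply Continuous.intervalIntegrable
        exact continuous_const.mul (Continuous.inv₀ (by fun_prop) (fun x => by positivity))
    rw [e1]
    have h2 := Real.arctan_lt_pi_div_two (η⁻¹ * r)
    have h3 := Real.neg_pi_div_two_lt_arctan (η⁻¹ * -r)
    have h4 : 0 < η⁻¹ := by positivity
    rw [div_eq_mul_inv, mul_comm Real.pi]
    exact mul_le_mul_of_nonneg_left (by linarith only [h2, h3]) h4.le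
  · apply Continuous.integrableOn_Ioc
    exact continuous_const.mul
      (continuous_const.mul (Continuous.inv₀ (by fun_prop) (fun x => by positivity)))
  · filter_upwards with x
    show (0 : ℝ) ≤ _
    positivity

theorem hl2 (hgzb : GzbStmt) : Hl2Stmt := by
  refine ⟨1458, by norm_num, ?_⟩
  intro d V Λ x y E r η hη hr hno
  have hr0 : 0 < r := by linarith
  have hrne : r ≠ 0 := hr0.ne'
  obtain ⟨g1, -, g3⟩ := hgzb d V Λ x y
  set M : ℝ := r / (4 * η) with hM
  have hM0 : 0 < M := by positivity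
  have hMη : M * (4 * (η / r)) = 1 := by
    rw [hM]; field_simp
  have hηr : η / r ≤ 1 / 8 := by
    rw [div_le_iff₀ hr0]; linarith only [hr]
  have hηr0 : 0 < η / r := by positivity
  have hMη2 : M * (η / r) ^ 2 ≤ 1 / 32 := by
    have : M * (η / r) ^ 2 = (M * (4 * (η / r))) * ((η / r) / 4) := by ring
    rw [this, hMη]
    linarith only [hηr]
  -- the weight on the top side
  have wtop : ∀ F : ℝ, ‖wt E r M ((F : ℂ) + η * Complex.I)‖ ≤ 3 := by
    intro F
    rw [norm_wt E r M hrne]
    apply exp_le_three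
    have e1 : ((F : ℂ) + η * Complex.I).im = η := by simp
    rw [e1]
    have : 0 ≤ M * ((((F : ℂ) + η * Complex.I).re - E) / r) ^ 2 := by positivity
    nlinarith only [hMη, hMη2, this]
  obtain ⟨B, hBd⟩ : ∃ B : ℝ, B = 3 / r * Real.exp (-r / (4 * η)) := ⟨_, rfl⟩
  have hB0 : 0 ≤ B := by rw [hBd]; positivity
  have main := rect_bound (f := fun z => gz V Λ z x y * wt E r M z) (E := E) (r := r) (η := η)
    (B := B) hη hr
    (by
      intro z h1 _ _
      have h2 := (g3 E r hr0 hno z h1).2.2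
      have h3 : DifferentiableAt ℂ (wt E r M) z := by
        unfold wt
        fun_prop
      exact h2.mul h3)
    (by
      intro z m1 m2 m3 hor
      rw [norm_mul, norm_wt E r M hrne]
      set s : ℝ := (z.re - E) / r with hs
      set t : ℝ := z.im / r with ht
      have ht1 : t ≤ η / r := div_le_div_of_nonneg_right m3 hr0.le
      have h1 := (g3 E r hr0 hno z m1).2.1
      have h2 : -M * (s ^ 2 - t ^ 2 - 4 * t) ≤ -M + (1 + 1 / 32) := by
        rcases hor with hbot | h6
        · have e2 : t = η / r - 1 := by rw [ht, hbot, sub_div, div_self hrne]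
          have h3 : 1 ≤ -t ^ 2 - 4 * t := by
            rw [e2]
            nlinarith only [hηr, hηr0]
          have h4 : 0 ≤ M * s ^ 2 := by positivity
          nlinarith only [hM0, hηr, hηr0, h3, h4]
        · have hs1 : s ^ 2 = 1 := by
            rw [hs, div_pow, ← sq_abs, h6]
            field_simp
          rw [hs1]
          rcases le_total t 0 with h0 | h0
          · have h7 : η / r - 1 ≤ t := by
              rw [ht, div_sub_one hrne]
              exact div_le_div_of_nonneg_right m2 hr0.le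
            have h5 : 0 ≤ -t ^ 2 - 4 * t := by nlinarith only [hηr, hηr0, ht1, h0, h7]
            nlinarith only [hM0, hηr, hηr0, h5]
          · have h5 : M * t ^ 2 ≤ M * (η / r) ^ 2 :=
              mul_le_mul_of_nonneg_left (pow_le_pow_left₀ h0 ht1 2) hM0.le
            have h6 : M * (4 * t) ≤ M * (4 * (η / r)) :=
              mul_le_mul_of_nonneg_left (by linarith only [ht1]) hM0.le
            nlinarith only [hMη, hMη2, h5, h6]
      have h3 : Real.exp (-M * (s ^ 2 - t ^ 2 - 4 * t)) ≤ 3 * Real.exp (-r / (4 * η)) := by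
        have e3 : -r / (4 * η) = -M := by rw [hM, neg_div]
        rw [e3]
        calc _ ≤ Real.exp (-M + (1 + 1 / 32)) := Real.exp_le_exp.2 h2
          _ = Real.exp (1 + 1 / 32) * Real.exp (-M) := by rw [← Real.exp_add]; congr 1; ring
          _ ≤ _ := mul_le_mul_of_nonneg_right (exp_le_three le_rfl) (Real.exp_pos _).le
      calc _ ≤ r⁻¹ * (3 * Real.exp (-r / (4 * η))) :=
            mul_le_mul h1 h3 (Real.exp_pos _).le (by positivity)
        _ = B := by rw [hBd]; ring)
  obtain ⟨A, hA⟩ : ∃ A : ℂ, A = ∫ x' : ℝ in (E - r)..(E + r),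
    gz V Λ ((x' : ℂ) + η * Complex.I) x y * wt E r M ((x' : ℂ) + η * Complex.I) *
      ((x' : ℂ) + η * Complex.I - E)⁻¹ := ⟨_, rfl⟩
  have main2 : |gr V Λ E x y| ≤ 2 * ‖A‖ + 9 * B := by
    rw [hA]
    have e : ‖gz V Λ (E : ℂ) x y * wt E r M (E : ℂ)‖ = |gr V Λ E x y| := by
      rw [norm_mul, norm_wt E r M hrne, g1 E, Complex.norm_real, Real.norm_eq_abs,
        Complex.ofReal_re, Complex.ofReal_im]
      simp
    rw [← e]
    exact main
  -- the top side
  obtain ⟨I, hI⟩ : ∃ I : ℝ≥0∞, I = ∫⁻ F in Set.Icc (E - r) (E + r),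
    ENNReal.ofReal (‖gz V Λ (zz η F) x y‖ ^ 2) := ⟨_, rfl⟩
  have top : ENNReal.ofReal (‖A‖ ^ 2) ≤ 9 * (ENNReal.ofReal (Real.pi / η) * I) := by
    have t1 : ‖A‖ₑ ≤ ∫⁻ x' in Set.Ioc (E - r) (E + r),
        (3 * ‖gz V Λ ((x' : ℂ) + η * Complex.I) x y‖ₑ) * ‖((x' : ℂ) + η * Complex.I - E)⁻¹‖ₑ := by
      rw [hA, intervalIntegral.integral_of_le (by linarith only [hη, hr])]
      refine (enorm_integral_le_lintegral_enorm _).trans ?_
      apply lintegral_mono
      intro x'
      beta_reduce
      rw [enorm_mul, enorm_mul]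
      refine mul_le_mul' ?_ le_rfl
      rw [mul_comm]
      refine mul_le_mul' ?_ le_rfl
      rw [← ofReal_norm]
      refine (ENNReal.ofReal_le_ofReal (wtop x')).trans_eq ?_
      norm_num
    have hmeas : ∀ z : ℝ, |z - E| ≤ r → ContinuousAt
        (fun x' : ℝ => gz V Λ ((x' : ℂ) + η * Complex.I) x y) z := by
      intro z hz
      have h1 := (g3 E r hr0 hno ((z : ℂ) + η * Complex.I) (by simpa using hz)).2.2.continuousAt
      have h2 : ContinuousAt (fun x' : ℝ => (x' : ℂ) + η * Complex.I) z := by fun_prop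
      exact ContinuousAt.comp (g := fun w : ℂ => gz V Λ w x y) h1 h2
    have hm1 : AEMeasurable (fun x' : ℝ => 3 * ‖gz V Λ ((x' : ℂ) + η * Complex.I) x y‖ₑ)
        (volume.restrict (Set.Ioc (E - r) (E + r))) := by
      apply AEMeasurable.const_mul
      apply AEMeasurable.enorm
      apply ContinuousOn.aemeasurable _ measurableSet_Ioc
      intro z hz
      exact (hmeas z (abs_le.2 ⟨by linarith only [hz.1], by linarith only [hz.2]⟩)).continuousWithinAt
    have hm2 : AEMeasurable (fun x' : ℝ => ‖((x' : ℂ) + η * Complex.I - E)⁻¹‖ₑ)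
        (volume.restrict (Set.Ioc (E - r) (E + r))) := by
      apply AEMeasurable.enorm
      apply Measurable.aemeasurable
      apply Continuous.measurable
      apply Continuous.inv₀ (by fun_prop)
      intro z h
      have h1 := congrArg Complex.im h
      simp at h1
      exact hη.ne' h1
    have t2 := ENNReal.lintegral_mul_le_Lp_mul_Lq (volume.restrict (Set.Ioc (E - r) (E + r)))
      Real.HolderConjugate.two_two hm1 hm2
    have t3 : ‖A‖ₑ ^ (2 : ℝ) ≤
        (∫⁻ x' in Set.Ioc (E - r) (E + r),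
          (3 * ‖gz V Λ ((x' : ℂ) + η * Complex.I) x y‖ₑ) ^ (2 : ℝ)) *
        (∫⁻ x' in Set.Ioc (E - r) (E + r), ‖((x' : ℂ) + η * Complex.I - E)⁻¹‖ₑ ^ (2 : ℝ)) := by
      have := ENNReal.rpow_le_rpow (t1.trans t2) (show (0 : ℝ) ≤ 2 by norm_num)
      rw [ENNReal.mul_rpow_of_nonneg _ _ (by norm_num : (0 : ℝ) ≤ 2), ← ENNReal.rpow_mul,
        ← ENNReal.rpow_mul] at this
      norm_num at this
      exact_mod_cast this
    have t4 : ∫⁻ x' in Set.Ioc (E - r) (E + r),
        (3 * ‖gz V Λ ((x' : ℂ) + η * Complex.I) x y‖ₑ) ^ (2 : ℝ) ≤ 9 * I := by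
      have e1 : ∀ x' : ℝ, (3 * ‖gz V Λ ((x' : ℂ) + η * Complex.I) x y‖ₑ) ^ (2 : ℝ) =
          9 * ENNReal.ofReal (‖gz V Λ (zz η x') x y‖ ^ 2) := by
        intro x'
        rw [ENNReal.mul_rpow_of_nonneg _ _ (by norm_num : (0 : ℝ) ≤ 2)]
        congr 1
        · rw [ENNReal.rpow_two]; norm_num
        · rw [ENNReal.rpow_two, ← ofReal_norm, ← ENNReal.ofReal_pow (norm_nonneg _)]
          rfl
      simp only [e1]
      rw [lintegral_const_mul' _ _ (by norm_num), hI]
      exact mul_le_mul' le_rfl (lintegral_mono_set Set.Ioc_subset_Icc_self)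
    have e2 : ENNReal.ofReal (‖A‖ ^ 2) = ‖A‖ₑ ^ (2 : ℝ) := by
      rw [ENNReal.rpow_two, ← ofReal_norm, ← ENNReal.ofReal_pow (norm_nonneg _)]
    rw [e2]
    refine t3.trans ((mul_le_mul' t4 (kernel_int hη hr0)).trans_eq ?_)
    ring
  have hfin : ENNReal.ofReal (|gr V Λ E x y| ^ 2) ≤
      8 * ENNReal.ofReal (‖A‖ ^ 2) + ENNReal.ofReal (162 * B ^ 2) := by
    have e8 : (8 : ℝ≥0∞) = ENNReal.ofReal 8 := by norm_num
    rw [e8, ← ENNReal.ofReal_mul (by norm_num), ← ENNReal.ofReal_add (by positivity)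
      (by positivity)]
    apply ENNReal.ofReal_le_ofReal
    have h1 : |gr V Λ E x y| ^ 2 ≤ (2 * ‖A‖ + 9 * B) ^ 2 :=
      pow_le_pow_left₀ (abs_nonneg _) main2 2
    nlinarith only [sq_nonneg (2 * ‖A‖ - 9 * B), h1]
  refine hfin.trans ?_
  rw [← hI]
  refine add_le_add ?_ ?_
  · calc 8 * ENNReal.ofReal (‖A‖ ^ 2) ≤ 8 * (9 * (ENNReal.ofReal (Real.pi / η) * I)) :=
          mul_le_mul' le_rfl top
      _ = (72 * ENNReal.ofReal (Real.pi / η)) * I := by ring
      _ ≤ ENNReal.ofReal (1458 / η) * I := by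
          refine mul_le_mul' ?_ le_rfl
          have e72 : (72 : ℝ≥0∞) = ENNReal.ofReal 72 := by norm_num
          rw [e72, ← ENNReal.ofReal_mul (by norm_num)]
          apply ENNReal.ofReal_le_ofReal
          rw [← mul_div_assoc]
          apply div_le_div_of_nonneg_right _ hη.le
          have := Real.pi_lt_four
          linarith only [hηr, hηr0, this]
  · apply ENNReal.ofReal_le_ofReal
    rw [hBd, mul_pow, div_pow, ← Real.exp_nat_mul]
    have e1 : ((2 : ℕ) : ℝ) * (-r / (4 * η)) = -r / (2 * η) := by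
      push_cast
      field_simp
      ring
    rw [e1]
    apply le_of_eq
    ring

end Pool.Agent.Mob.H42
end
end -- Pool.Agent.Helper42_Mob.Hl2

section -- Pool.Agent.Helper42_Mob.Dlb

/-!
# Module DLB: the Green function at positive height, if at each energy one of two cubes is good
-/

set_option autoImplicit false

open scoped ENNReal BigOperators

noncomputable section

namespace Pool.Agent.Mob.H42

open Pool.Agent.Anderson Pool.Agent.Loc Pool.Agent.Helper54.Bal Pool.Agent.Mob

/-- the maximum principle with a weight -/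
theorem max_rect {f : ℂ → ℂ} {E r η ε B : ℝ} (hη : 0 < η) (hr : 8 * η ≤ r) (hε : 0 ≤ ε)
    (hB : 0 ≤ B)
    (hf : ∀ z : ℂ, |z.re - E| ≤ r → η - r ≤ z.im → z.im ≤ η → DifferentiableAt ℂ f z)
    (hf1 : ∀ z : ℂ, |z.re - E| ≤ r → z.im = η → ‖f z‖ ≤ ε)
    (hf2 : ∀ z : ℂ, |z.re - E| ≤ r → η - r ≤ z.im → z.im ≤ η → ‖f z‖ ≤ B) :
    ‖f E‖ ≤ max (3 * ε) (3 * B * Real.exp (-r / (4 * η))) := by
  have hr0 : 0 < r := by linarith only [hη, hr]
  have hrne : r ≠ 0 := hr0.ne'
  set M : ℝ := r / (4 * η) with hM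
  have hM0 : 0 < M := by positivity
  have hMη : M * (4 * (η / r)) = 1 := by
    rw [hM]; field_simp
  have hηr : η / r ≤ 1 / 8 := by
    rw [div_le_iff₀ hr0]; linarith only [hr]
  have hηr0 : 0 < η / r := by positivity
  have hMη2 : M * (η / r) ^ 2 ≤ 1 / 32 := by
    have : M * (η / r) ^ 2 = (M * (4 * (η / r))) * ((η / r) / 4) := by ring
    rw [this, hMη]
    linarith only [hηr]
  set C : ℝ := max (3 * ε) (3 * B * Real.exp (-r / (4 * η))) with hC
  set U : Set ℂ := Set.Ioo (E - r) (E + r) ×ℂ Set.Ioo (η - r) η with hU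
  have hcl : closure U = Set.Icc (E - r) (E + r) ×ℂ Set.Icc (η - r) η := by
    rw [hU, Complex.closure_reProdIm, closure_Ioo (by linarith only [hη, hr]), closure_Ioo (by linarith only [hη, hr])]
  have hmem : ∀ z ∈ closure U, |z.re - E| ≤ r ∧ η - r ≤ z.im ∧ z.im ≤ η := by
    intro z hz
    rw [hcl, Complex.mem_reProdIm, Set.mem_Icc, Set.mem_Icc] at hz
    refine ⟨abs_le.2 ⟨by linarith only [hz.1.1], by linarith only [hz.1.2]⟩, hz.2.1, hz.2.2⟩
  have hdiff : DiffContOnCl ℂ (fun z => f z * wt E r M z) U := by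
    apply DifferentiableOn.diffContOnCl
    intro z hz
    have h1 := hf z (hmem z hz).1 (hmem z hz).2.1 (hmem z hz).2.2
    have h2 : DifferentiableAt ℂ (wt E r M) z := by
      unfold wt
      fun_prop
    exact (h1.mul h2).differentiableWithinAt
  have hbdd : Bornology.IsBounded U := by
    rw [hU]
    exact (Metric.isBounded_Ioo _ _).reProdIm (Metric.isBounded_Ioo _ _)
  have hopen : IsOpen U := isOpen_Ioo.reProdIm isOpen_Ioo
  have hfr : ∀ z ∈ frontier U, ‖f z * wt E r M z‖ ≤ C := by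
    intro z hz
    rw [hopen.frontier_eq] at hz
    obtain ⟨hz1, hz2⟩ := hz
    obtain ⟨m1, m2, m3⟩ := hmem z hz1
    rw [norm_mul, norm_wt E r M hrne]
    set s : ℝ := (z.re - E) / r with hs
    set t : ℝ := z.im / r with ht
    have ht1 : t ≤ η / r := div_le_div_of_nonneg_right m3 hr0.le
    have ht2 : η / r - 1 ≤ t := by
      rw [ht, div_sub_one hrne]
      exact div_le_div_of_nonneg_right m2 hr0.le
    by_cases htop : z.im = η
    · refine le_trans ?_ (le_max_left _ _)
      have h1 := hf1 z m1 htop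
      have h2 : Real.exp (-M * (s ^ 2 - t ^ 2 - 4 * t)) ≤ 3 := by
        apply exp_le_three
        have e2 : t = η / r := by rw [ht, htop]
        rw [e2]
        have : 0 ≤ M * s ^ 2 := by positivity
        nlinarith only [hMη, hMη2, this]
      calc ‖f z‖ * Real.exp (-M * (s ^ 2 - t ^ 2 - 4 * t)) ≤ ε * 3 :=
            mul_le_mul h1 h2 (Real.exp_pos _).le hε
        _ = 3 * ε := by ring
    · refine le_trans ?_ (le_max_right _ _)
      have h1 := hf2 z m1 m2 m3
      have h2 : -M * (s ^ 2 - t ^ 2 - 4 * t) ≤ -M + (1 + 1 / 32) := by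
        by_cases hbot : z.im = η - r
        · have e2 : t = η / r - 1 := by rw [ht, hbot, sub_div, div_self hrne]
          have h3 : 1 ≤ -t ^ 2 - 4 * t := by
            rw [e2]
            nlinarith only [hηr, hηr0]
          have h4 : 0 ≤ M * s ^ 2 := by positivity
          nlinarith only [hM0, hηr, hηr0, h3, h4]
        · have hs1 : s ^ 2 = 1 := by
            have h3 : z.im ∈ Set.Ioo (η - r) η :=
              ⟨lt_of_le_of_ne m2 (Ne.symm hbot), lt_of_le_of_ne m3 htop⟩
            have h4 : ¬ (z.re ∈ Set.Ioo (E - r) (E + r)) := by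
              intro h5
              exact hz2 (by rw [hU, Complex.mem_reProdIm]; exact ⟨h5, h3⟩)
            have h6 : |z.re - E| = r := by
              apply le_antisymm m1
              by_contra hcon
              rw [not_le] at hcon
              apply h4
              rw [abs_lt] at hcon
              exact ⟨by linarith only [hcon.1], by linarith only [hcon.2]⟩
            rw [hs, div_pow, ← sq_abs, h6]
            field_simp
          rw [hs1]
          rcases le_total t 0 with h0 | h0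
          · have h5 : 0 ≤ -t ^ 2 - 4 * t := by nlinarith only [hηr, hηr0, ht1, ht2, h0]
            nlinarith only [hM0, hηr, hηr0, h5]
          · have h5 : M * t ^ 2 ≤ M * (η / r) ^ 2 :=
              mul_le_mul_of_nonneg_left (pow_le_pow_left₀ h0 ht1 2) hM0.le
            have h6 : M * (4 * t) ≤ M * (4 * (η / r)) :=
              mul_le_mul_of_nonneg_left (by linarith only [ht1]) hM0.le
            nlinarith only [hMη, hMη2, h5, h6]
      have h3 : Real.exp (-M * (s ^ 2 - t ^ 2 - 4 * t)) ≤ 3 * Real.exp (-r / (4 * η)) := by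
        have e3 : -r / (4 * η) = -M := by rw [hM, neg_div]
        rw [e3]
        calc _ ≤ Real.exp (-M + (1 + 1 / 32)) := Real.exp_le_exp.2 h2
          _ = Real.exp (1 + 1 / 32) * Real.exp (-M) := by rw [← Real.exp_add]; congr 1; ring
          _ ≤ _ := mul_le_mul_of_nonneg_right (exp_le_three le_rfl) (Real.exp_pos _).le
      calc _ ≤ B * (3 * Real.exp (-r / (4 * η))) :=
            mul_le_mul h1 h3 (Real.exp_pos _).le hB
        _ = _ := by ring
  have hE : (E : ℂ) ∈ closure U := by
    rw [hcl, Complex.mem_reProdIm, Complex.ofReal_re, Complex.ofReal_im]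
    constructor <;> constructor <;> linarith
  have hfin := Complex.norm_le_of_forall_mem_frontier_norm_le hbdd hdiff hfr hE
  rw [norm_mul, norm_wt E r M hrne, Complex.ofReal_re, Complex.ofReal_im] at hfin
  simpa using hfin

/-- pigeonhole: a point of the interval which is far from finitely many points -/
theorem exists_far {ι : Type*} [Fintype ι] (lam : ι → ℝ) (F s N : ℝ) (hs : 0 < s)
    (hN : (Fintype.card ι : ℝ) = N) (hN1 : 1 ≤ N) :
    ∃ F' : ℝ, |F' - F| ≤ s ∧ ∀ j, s / N ≤ |F' - lam j| := by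
  classical
  by_contra hcon
  push Not at hcon
  have hN0 : 0 < N := by linarith
  set p : Fin (Fintype.card ι + 1) → ℝ := fun k => F - s + 2 * s / N * (k : ℕ) with hp
  have h1 : ∀ k, |p k - F| ≤ s := by
    intro k
    rw [abs_le]
    have hk : ((k : ℕ) : ℝ) ≤ N := by
      rw [← hN]
      exact_mod_cast Nat.lt_succ_iff.1 k.2
    have h2 : 0 ≤ 2 * s / N * (k : ℕ) := by positivity
    have h3 : 2 * s / N * (k : ℕ) ≤ 2 * s := by
      calc 2 * s / N * (k : ℕ) ≤ 2 * s / N * N := mul_le_mul_of_nonneg_left hk (by positivity)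
        _ = 2 * s := by field_simp
    rw [hp]
    constructor <;> linarith
  choose j hj using fun k => hcon (p k) (h1 k)
  obtain ⟨k, k', hne, heq⟩ : ∃ k k', k ≠ k' ∧ j k = j k' := by
    apply Fintype.exists_ne_map_eq_of_card_lt
    rw [Fintype.card_fin]
    omega
  have h2 := hj k
  have h3 := hj k'
  rw [← heq] at h3
  have h4 : |p k - p k'| < 2 * (s / N) := by
    have := abs_sub_le (p k) (lam (j k)) (p k')
    rw [abs_sub_comm (lam (j k)) (p k')] at this
    linarith
  have h5 : |p k - p k'| = 2 * (s / N) * |((k : ℕ) : ℝ) - ((k' : ℕ) : ℝ)| := by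
    rw [hp]
    have : F - s + 2 * s / N * (k : ℕ) - (F - s + 2 * s / N * (k' : ℕ)) =
        2 * (s / N) * (((k : ℕ) : ℝ) - ((k' : ℕ) : ℝ)) := by ring
    rw [this, abs_mul, abs_of_pos (by positivity : 0 < 2 * (s / N))]
  have h6 : 1 ≤ |((k : ℕ) : ℝ) - ((k' : ℕ) : ℝ)| := by
    have h7 : ((k : ℕ) : ℤ) - ((k' : ℕ) : ℤ) ≠ 0 := by
      intro h
      apply hne
      apply Fin.ext
      omega
    have h8 := Int.one_le_abs h7
    exact_mod_cast h8
  rw [h5] at h4
  have h9 : 0 < 2 * (s / N) := by positivity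
  nlinarith only [h4, h6, h9]

variable {d : ℕ}

/-- the Green function satisfies the equation -/
theorem gr_eqn {V : Site d → ℝ} {Λ : Finset (Site d)} {F : ℝ} {y : Site d}
    (hdet : (RM V Λ F).det ≠ 0) {v : Site d} (hv : v ∈ Λ) (hy : y ∈ Λ) (hvy : v ≠ y) :
    lap (fun w => (gr V Λ F w y : ℂ)) v + (V v : ℂ) * (gr V Λ F v y : ℂ) =
      (F : ℂ) * (gr V Λ F v y : ℂ) := by
  have h1 := rm_mul_gr hdet hv hy
  rw [if_neg hvy] at h1
  have h2 : lap (fun w => (gr V Λ F w y : ℂ)) v = ∑ z ∈ Λ, (hop v z : ℂ) * (gr V Λ F z y : ℂ) := by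
    rw [← lap_indicator]
    congr 1
    funext w
    by_cases hw : w ∈ Λ
    · rw [if_pos hw]
    · rw [if_neg hw]
      unfold gr
      rw [dif_neg (fun h => hw h.1)]
      simp
  have h3 : ∑ z ∈ Λ, rm V F v z * gr V Λ F z y = (F - V v) * gr V Λ F v y -
      ∑ z ∈ Λ, hop v z * gr V Λ F z y := by
    unfold rm
    simp_rw [sub_mul, Finset.sum_sub_distrib, ite_mul, zero_mul]
    rw [Finset.sum_ite_eq, if_pos hv]
    ring
  rw [h3] at h1
  have h4 : ∑ z ∈ Λ, hop v z * gr V Λ F z y = (F - V v) * gr V Λ F v y := by linarith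
  rw [h2]
  have h5 : ∑ z ∈ Λ, (hop v z : ℂ) * (gr V Λ F z y : ℂ) =
      ((∑ z ∈ Λ, hop v z * gr V Λ F z y : ℝ) : ℂ) := by
    push_cast
    rfl
  rw [h5, h4]
  push_cast
  ring

theorem dlb (hexp : ExpStmt) : DlbStmt := by
  intro d V μ E h η s κ N L n y hd hη hηh hs hsh hκ hN hLy hyn hgood
  classical
  have hh : 0 < h := by linarith only [hη, hηh]
  obtain ⟨Λ, hΛ⟩ : ∃ Λ : Finset (Site d), Λ = box 0 n := ⟨_, rfl⟩
  rw [← hΛ]
  obtain ⟨lam, φ, hφ0, hn, hc, heq, hdet, hz⟩ := hexp d V Λ
  have hcard : (Fintype.card Λ : ℝ) = N := by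
    rw [Fintype.card_coe, hΛ, card_box, hN]
    push_cast
    rfl
  have hN1 : 1 ≤ N := by
    rw [hN]
    apply one_le_pow₀
    have : (0 : ℝ) ≤ n := by positivity
    linarith only
  have hN0 : 0 < N := by linarith only [hN1]
  have hκ0 : 0 ≤ κ := by rw [hκ]; positivity
  have h0Λ : (0 : Site d) ∈ Λ := by
    rw [hΛ, mem_box, sd_self]; omega
  have hyΛ : y ∈ Λ := by
    rw [hΛ, mem_box]; omega
  have hsub0 : box (0 : Site d) L ⊆ Λ := by
    intro v hv
    rw [hΛ, mem_box]
    rw [mem_box] at hv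
    omega
  have hsuby : box y L ⊆ Λ := by
    intro v hv
    rw [hΛ, mem_box]
    rw [mem_box] at hv
    have := sd_triangle 0 y v
    omega
  -- bounds for the eigenvectors
  have hφ1 : ∀ j v, |φ j v| ≤ 1 := by
    intro j v
    by_cases hv : v ∈ Λ
    · have h1 := hn j
      have h2 : φ j v ^ 2 ≤ ∑ x ∈ Λ, φ j x ^ 2 :=
        Finset.single_le_sum (f := fun x => φ j x ^ 2) (fun x _ => sq_nonneg _) hv
      rw [h1] at h2
      exact abs_le_one_iff_mul_self_le_one.2 (by nlinarith only [h2])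
    · rw [hφ0 j v hv, abs_zero]
      norm_num
  have hcs : ∀ u ∈ Λ, ∀ v ∈ Λ, ∑ j, |φ j u * φ j v| ≤ 1 := by
    intro u hu v hv
    have h1 := hc u hu
    have h2 := hc v hv
    calc ∑ j, |φ j u * φ j v| ≤ ∑ j, (φ j u ^ 2 + φ j v ^ 2) / 2 := by
          apply Finset.sum_le_sum
          intro j _
          rw [abs_mul]
          nlinarith only [sq_nonneg (|φ j u| - |φ j v|), sq_abs (φ j u), sq_abs (φ j v)]
      _ = 1 := by
          rw [← Finset.sum_div, Finset.sum_add_distrib, h1, h2]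
          norm_num
  -- the product at a resonant eigenvalue
  have hprod : ∀ j, |lam j - E| ≤ 2 * h → |φ j 0 * φ j y| ≤ κ := by
    intro j hj
    have hb : ∀ x : Site d, box x L ⊆ Λ → FGood V L x (lam j) μ → |φ j x| ≤ κ := by
      intro x hx hg
      have := H48.fGood_bound (ψ := fun v => (φ j v : ℂ)) (M := 1) (by omega) hg
        (fun v hv => heq j v (hx hv)) (fun v _ => by
          rw [Complex.norm_real]
          exact hφ1 j v)
      rw [Complex.norm_real, Real.norm_eq_abs, mul_one, ← hκ] at this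
      exact this
    rw [abs_mul]
    rcases hgood (lam j) hj with hg | hg
    · have := hb 0 hsub0 hg
      nlinarith only [hφ1 j y, abs_nonneg (φ j 0), abs_nonneg (φ j y), hκ0, this]
    · have := hb y hsuby hg
      nlinarith only [hφ1 j 0, abs_nonneg (φ j 0), abs_nonneg (φ j y), hκ0, this]
  -- splitting
  set R : Finset Λ := Finset.univ.filter fun j => |lam j - E| ≤ 2 * h with hR
  set Q : Finset Λ := Finset.univ.filter fun j => ¬ |lam j - E| ≤ 2 * h with hQ
  obtain ⟨S, hS⟩ : ∃ S : ℂ → ℂ, S = fun z => ∑ j ∈ R, ((φ j 0 * φ j y : ℝ) : ℂ) / (z - lam j) :=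
    ⟨_, rfl⟩
  obtain ⟨g, hg⟩ : ∃ g : ℂ → ℂ, g = fun z => ∑ j ∈ Q, ((φ j 0 * φ j y : ℝ) : ℂ) / (z - lam j) :=
    ⟨_, rfl⟩
  have hsplit : ∀ z : ℂ, (∀ j, z ≠ lam j) → gz V Λ z 0 y = S z + g z := by
    intro z hzz
    rw [hz z hzz 0 y, hS, hg, hR, hQ]
    exact (Finset.sum_filter_add_sum_filter_not _ _ _).symm
  have hRc : (R.card : ℝ) ≤ N := by
    rw [← hcard]
    exact_mod_cast Finset.card_le_univ R
  have hSb : ∀ (z : ℂ) (c : ℝ), 0 < c → (∀ j, c ≤ ‖z - lam j‖) → ‖S z‖ ≤ N * κ / c := by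
    intro z c hc0 hcz
    rw [hS]
    calc ‖∑ j ∈ R, ((φ j 0 * φ j y : ℝ) : ℂ) / (z - lam j)‖ ≤ ∑ j ∈ R, ‖((φ j 0 * φ j y : ℝ) : ℂ) / (z - lam j)‖ := norm_sum_le _ _
      _ ≤ ∑ j ∈ R, κ / c := by
          apply Finset.sum_le_sum
          intro j hj
          rw [norm_div, Complex.norm_real, Real.norm_eq_abs]
          exact div_le_div₀ hκ0 (hprod j (Finset.mem_filter.1 hj).2) hc0 (hcz j)
      _ = R.card * (κ / c) := by rw [Finset.sum_const, nsmul_eq_mul]
      _ ≤ N * (κ / c) := mul_le_mul_of_nonneg_right hRc (by positivity)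
      _ = N * κ / c := by ring
  have hsumQ : ∑ j ∈ Q, |φ j 0 * φ j y| ≤ 1 :=
    (Finset.sum_le_sum_of_subset_of_nonneg (Finset.filter_subset _ _)
      (fun j _ _ => abs_nonneg _)).trans (hcs 0 h0Λ y hyΛ)
  have hfar : ∀ (z : ℂ) (t : ℝ), |z.re - E| ≤ t → ∀ j ∈ Q, 2 * h - t ≤ ‖z - lam j‖ := by
    intro z t hzt j hj
    have h1 := (Finset.mem_filter.1 hj).2
    rw [not_le] at h1
    refine le_trans ?_ (Complex.abs_re_le_norm _)
    rw [Complex.sub_re, Complex.ofReal_re]
    have h2 : |lam j - E| ≤ |z.re - lam j| + |z.re - E| := by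
      have := abs_sub_le (lam j) z.re E
      rw [abs_sub_comm (lam j) z.re] at this
      exact this
    linarith only [hzt, h1, h2]
  have hgb : ∀ z : ℂ, |z.re - E| ≤ h → ‖g z‖ ≤ 1 / h := by
    intro z hzE
    rw [hg]
    calc ‖∑ j ∈ Q, ((φ j 0 * φ j y : ℝ) : ℂ) / (z - lam j)‖ ≤ ∑ j ∈ Q, ‖((φ j 0 * φ j y : ℝ) : ℂ) / (z - lam j)‖ := norm_sum_le _ _
      _ ≤ ∑ j ∈ Q, |φ j 0 * φ j y| / h := by
          apply Finset.sum_le_sum
          intro j hj
          rw [norm_div, Complex.norm_real, Real.norm_eq_abs]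
          have := hfar z h hzE j hj
          exact div_le_div_of_nonneg_left (abs_nonneg _) hh (by linarith only [this])
      _ = (∑ j ∈ Q, |φ j 0 * φ j y|) / h := by rw [Finset.sum_div]
      _ ≤ 1 / h := div_le_div_of_nonneg_right hsumQ hh.le
  have hgd : ∀ z : ℂ, |z.re - E| ≤ h → DifferentiableAt ℂ g z := by
    intro z hzE
    rw [hg]
    apply DifferentiableAt.fun_sum
    intro j hj
    apply DifferentiableAt.div (differentiableAt_const _) (by fun_prop)
    intro h0
    have := hfar z h hzE j hj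
    rw [h0, norm_zero] at this
    linarith only [hη, hηh, this]
  -- real energies
  have hreal : ∀ F : ℝ, |F - E| ≤ h → ‖g F‖ ≤ (N + 1) ^ 2 * κ / s + 4 * s / h ^ 2 := by
    intro F hF
    obtain ⟨F', hF1, hF2⟩ := exists_far lam F s N hs hcard hN1
    have hsN : 0 < s / N := by positivity
    have hF'E : |F' - E| ≤ 3 / 2 * h := by
      have := abs_sub_le F' F E
      linarith only [hsh, hF, hF1, this]
    have hne : ∀ j, (F' : ℂ) ≠ lam j := by
      intro j hj
      have h1 : F' = lam j := by exact_mod_cast hj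
      have := hF2 j
      rw [h1, sub_self, abs_zero] at this
      linarith only [hsN, this]
    have hnorm : ∀ j, s / N ≤ ‖(F' : ℂ) - lam j‖ := by
      intro j
      rw [← Complex.ofReal_sub, Complex.norm_real]
      exact hF2 j
    have hdet' : (RM V Λ F').det ≠ 0 := by
      intro h0
      obtain ⟨j, hj⟩ := (hdet F').1 h0
      exact hne j (by exact_mod_cast hj.symm)
    -- all the entries
    have hall : ∀ u v : Site d, |gr V Λ F' u v| ≤ N / s := by
      intro u v
      by_cases huv : u ∈ Λ ∧ v ∈ Λ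
      · have h1 := hz F' hne u v
        rw [H11.gz_real] at h1
        have h2 : |gr V Λ F' u v| = ‖(gr V Λ F' u v : ℂ)‖ := by
          rw [Complex.norm_real, Real.norm_eq_abs]
        rw [h2, h1]
        calc ‖∑ j, ((φ j u * φ j v : ℝ) : ℂ) / ((F' : ℂ) - lam j)‖
            ≤ ∑ j, ‖((φ j u * φ j v : ℝ) : ℂ) / ((F' : ℂ) - lam j)‖ := norm_sum_le _ _
          _ ≤ ∑ j, |φ j u * φ j v| / (s / N) := by
              apply Finset.sum_le_sum
              intro j _
              rw [norm_div, Complex.norm_real, Real.norm_eq_abs]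
              exact div_le_div_of_nonneg_left (abs_nonneg _) hsN (hnorm j)
          _ = (∑ j, |φ j u * φ j v|) / (s / N) := by rw [Finset.sum_div]
          _ ≤ 1 / (s / N) := div_le_div_of_nonneg_right (hcs u huv.1 v huv.2) hsN.le
          _ = N / s := by rw [one_div_div]
      · unfold gr
        rw [dif_neg huv, abs_zero]
        positivity
    have hgr : ‖gz V Λ (F' : ℂ) 0 y‖ ≤ κ * (N / s) := by
      rw [H11.gz_real, Complex.norm_real, Real.norm_eq_abs]
      rcases hgood F' (by linarith only [hη, hηh, hF'E]) with hg0 | hgy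
      · have := H48.fGood_bound (ψ := fun v => (gr V Λ F' v y : ℂ)) (M := N / s) (by omega) hg0
          (fun v hv => gr_eqn hdet' (hsub0 hv) hyΛ (by
            rintro rfl
            rw [mem_box] at hv
            omega))
          (fun v _ => by
            rw [Complex.norm_real]
            exact hall v y)
        rw [Complex.norm_real, Real.norm_eq_abs, ← hκ] at this
        exact this
      · have := H48.fGood_bound (ψ := fun v => (gr V Λ F' v 0 : ℂ)) (M := N / s) (by omega) hgy
          (fun v hv => gr_eqn hdet' (hsuby hv) h0Λ (by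
            rintro rfl
            rw [mem_box, sd_comm] at hv
            omega))
          (fun v _ => by
            rw [Complex.norm_real]
            exact hall v 0)
        rw [Complex.norm_real, Real.norm_eq_abs, ← hκ] at this
        rw [gr_symm]
        exact this
    have hgF' : ‖g F'‖ ≤ (N + 1) ^ 2 * κ / s := by
      have h1 : g F' = gz V Λ (F' : ℂ) 0 y - S F' := by
        rw [hsplit F' hne]; ring
      have h2 := hSb F' (s / N) hsN hnorm
      calc ‖g F'‖ ≤ ‖gz V Λ (F' : ℂ) 0 y‖ + ‖S F'‖ := by rw [h1]; exact norm_sub_le _ _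
        _ ≤ κ * (N / s) + N * κ / (s / N) := add_le_add hgr h2
        _ = (N + N ^ 2) * κ / s := by field_simp
        _ ≤ (N + 1) ^ 2 * κ / s := by
            apply div_le_div_of_nonneg_right _ hs.le
            apply mul_le_mul_of_nonneg_right _ hκ0
            nlinarith only [hN1]
    have hdiff : ‖g F - g F'‖ ≤ 4 * s / h ^ 2 := by
      rw [hg]
      beta_reduce
      rw [← Finset.sum_sub_distrib]
      calc ‖∑ j ∈ Q, (((φ j 0 * φ j y : ℝ) : ℂ) / ((F : ℂ) - lam j) -
            ((φ j 0 * φ j y : ℝ) : ℂ) / ((F' : ℂ) - lam j))‖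
          ≤ ∑ j ∈ Q, ‖((φ j 0 * φ j y : ℝ) : ℂ) / ((F : ℂ) - lam j) -
            ((φ j 0 * φ j y : ℝ) : ℂ) / ((F' : ℂ) - lam j)‖ := norm_sum_le _ _
        _ ≤ ∑ j ∈ Q, |φ j 0 * φ j y| * (4 * s / h ^ 2) := by
            apply Finset.sum_le_sum
            intro j hj
            have f1 := hfar F h (by simpa using hF) j hj
            have f2 := hfar F' (3 / 2 * h) (by simpa using hF'E) j hj
            have f3 : (F : ℂ) - lam j ≠ 0 := by
              intro h0
              rw [h0, norm_zero] at f1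
              linarith only [hη, hηh, f1]
            have f4 : (F' : ℂ) - lam j ≠ 0 := by
              intro h0
              rw [h0, norm_zero] at f2
              linarith only [hη, hηh, f2]
            have e1 : ((φ j 0 * φ j y : ℝ) : ℂ) / ((F : ℂ) - lam j) -
                ((φ j 0 * φ j y : ℝ) : ℂ) / ((F' : ℂ) - lam j) =
                ((φ j 0 * φ j y : ℝ) : ℂ) * (((F' - F : ℝ) : ℂ) /
                  (((F : ℂ) - lam j) * ((F' : ℂ) - lam j))) := by
              field_simp
              push_cast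
              ring
            rw [e1, norm_mul, Complex.norm_real, Real.norm_eq_abs]
            apply mul_le_mul_of_nonneg_left _ (abs_nonneg _)
            rw [norm_div, Complex.norm_real, Real.norm_eq_abs, norm_mul]
            have e2 : 4 * s / h ^ 2 = s / (h * (1 / 4 * h)) := by
              field_simp
            rw [e2]
            apply div_le_div₀ hs.le hF1 (by positivity)
            exact mul_le_mul (by linarith only [f1]) (by linarith only [hη, hηh, f2]) (by positivity) (norm_nonneg _)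
        _ = (∑ j ∈ Q, |φ j 0 * φ j y|) * (4 * s / h ^ 2) := by rw [Finset.sum_mul]
        _ ≤ 1 * (4 * s / h ^ 2) := mul_le_mul_of_nonneg_right hsumQ (by positivity)
        _ = _ := one_mul _
    calc ‖g F‖ = ‖g F' + (g F - g F')‖ := by congr 1; ring
      _ ≤ ‖g F'‖ + ‖g F - g F'‖ := norm_add_le _ _
      _ ≤ _ := add_le_add hgF' hdiff
  -- the height `η`
  have hε0 : 0 ≤ (N + 1) ^ 2 * κ / s + 4 * s / h ^ 2 := by positivity
  have hmax := max_rect (f := fun ζ => g (2 * E + η * Complex.I - ζ)) (E := E) (r := h) (η := η)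
    (ε := (N + 1) ^ 2 * κ / s + 4 * s / h ^ 2) (B := 1 / h) hη hηh hε0 (by positivity)
    (by
      intro ζ h1 _ _
      have h2 : DifferentiableAt ℂ g (2 * E + η * Complex.I - ζ) := by
        apply hgd
        have e1 : (2 * (E : ℂ) + η * Complex.I - ζ).re - E = -(ζ.re - E) := by
          simp
          ring
        rw [e1, abs_neg]
        exact h1
      exact DifferentiableAt.comp (g := g) ζ h2 (by fun_prop))
    (by
      intro ζ h1 h2
      have e1 : 2 * (E : ℂ) + η * Complex.I - ζ = ((2 * E - ζ.re : ℝ) : ℂ) := by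
        apply Complex.ext
        · simp
        · simp [h2]
      rw [e1]
      apply hreal
      have e2 : 2 * E - ζ.re - E = -(ζ.re - E) := by ring
      rw [e2, abs_neg]
      exact h1)
    (by
      intro ζ h1 _ _
      apply hgb
      have e1 : (2 * (E : ℂ) + η * Complex.I - ζ).re - E = -(ζ.re - E) := by
        simp
        ring
      rw [e1, abs_neg]
      exact h1)
  have e3 : 2 * (E : ℂ) + η * Complex.I - E = zz η E := by
    unfold zz
    ring
  beta_reduce at hmax
  rw [e3] at hmax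
  have him : (zz η E).im = η := by
    unfold zz
    simp
  have hne : ∀ j, zz η E ≠ lam j := by
    intro j hj
    have := congrArg Complex.im hj
    rw [him, Complex.ofReal_im] at this
    exact hη.ne' this
  have hSz := hSb (zz η E) η hη (fun j => by
    refine le_trans ?_ (Complex.abs_im_le_norm _)
    rw [Complex.sub_im, him, Complex.ofReal_im, sub_zero, abs_of_pos hη])
  rw [hsplit _ hne]
  calc ‖S (zz η E) + g (zz η E)‖ ≤ ‖S (zz η E)‖ + ‖g (zz η E)‖ := norm_add_le _ _
    _ ≤ N * κ / η + (3 * ((N + 1) ^ 2 * κ / s + 4 * s / h ^ 2) +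
        3 * (1 / h) * Real.exp (-h / (4 * η))) := by
        apply add_le_add hSz
        refine hmax.trans ?_
        apply max_le
        · have : 0 ≤ 3 * (1 / h) * Real.exp (-h / (4 * η)) := by positivity
          linarith only [this]
        · linarith only [hε0]
    _ = _ := by ring

end Pool.Agent.Mob.H42
end
end -- Pool.Agent.Helper42_Mob.Dlb
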