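import Pool.Agent.Helper12_MEB.B030
import Pool.Agent.Helper12_MEB.B032
import Pool.Agent.Helper12_MEB.B042
import Pool.Agent.Helper12_MEB.B045
import Pool.Agent.Helper12_MEB.B049
import Pool.Agent.Helper12_MEB.B051
import Pool.Agent.Helper12_MEB.B052
import Pool.Agent.Helper12_MEB.B053
import Pool.Agent.Helper12_MEB.B062

/-!
# Merged copies (generated) of the modules

* `Pool.Agent.Helper3_LE.SmaR`
* `Pool.Agent.Helper28_LE.GevChain`
* `Pool.Agent.Helper32_Mob.Tot`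
* `Pool.Agent.Helper28_Mob.Tim`
* `Pool.Agent.Helper32_Mob.Nrm`
* `Pool.Agent.Helper58_Mob.Bdc`
* `Pool.Agent.Helper58_Mob.Edg`
* `Pool.Agent.Helper85_Mob.Dec`
* `Pool.Agent.Helper42_Mob.Ass`
* `Pool.Agent.Helper42_Mob.Ass2`
* `Pool.Agent.Helper42_Mob.Ass3`
* `Pool.Agent.Helper93_LE.Fin`
* `Pool.Agent.Helper93_LEC.BESa`
* `Pool.Agent.Helper96_LE.Lsc`
* `Pool.Agent.Helper42_LE.Joint`
* `Pool.Agent.Helper42_LEC.ConF`
* `Pool.Agent.Helper93_LE.FinG`
* `Pool.Agent.Helper96_LE.ExactDecay`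
* `Pool.Agent.Helper42_LE.Critical`
* `Pool.Agent.Helper42_LE.MainJ`
* `Pool.Agent.Helper96_LEC.Sym`
-/

set_option autoImplicit false

section -- Pool.Agent.Helper3_LE.SmaR

/-!
# SMA: improvement of the probability, with an arbitrarily small loss in the rate
-/

set_option autoImplicit false
set_option linter.unusedSectionVars false

open MeasureTheory ProbabilityTheory Function Filter

open scoped ENNReal BigOperators Topology

noncomputable section

namespace Pool.Agent.LE.H3R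

open Pool.Agent.Anderson Pool.Agent.Loc Pool.Agent.Mob Pool.Agent.Helper54.Bal

theorem stepN_apply (smp : SmpStmt) {d : ℕ} (ν : Measure ℝ) [IsProbabilityMeasure ν] {ρ : ℝ}
    (hν : BddDens ν ρ) (E : ℝ) {L M : ℕ} {m p m' p' : ℝ} (hL : 1 ≤ L) (hp : 0 ≤ p)
    (h : StepN d ρ L m p M m' p')
    (hP : PP d ν {V | ¬ AllGoodC V 0 L m E} ≤ ENNReal.ofReal p) :
    PP d ν {V | ¬ AllGoodC V 0 M m' E} ≤ ENNReal.ofReal p' := by
  obtain ⟨N, n, T, q, hN, hT, hq, h1, h2, h3, h4, h5⟩ := h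
  exact (smp d ν ρ hν E m m' p T q L M N n hL hN hp hT hq h1 h2 h3 h4 hP).trans
    (ENNReal.ofReal_le_ofReal h5)

/-- SMA -/
theorem sma (smp : SmpStmt) (smn : SmnStmt) : SmaStmt := by
  intro d σ E m ε A hd hσ hε hεm htend
  obtain ⟨p₀, hp₀, L₀, hsmn⟩ := smn d (1 / |σ|) m ε A hd (by positivity) hε hεm
  obtain ⟨L₂, hL₂⟩ := eventually_atTop.1 (ENNReal.tendsto_nhds_zero.1 htend
    (ENNReal.ofReal p₀) (by
      rw [gt_iff_lt, ENNReal.ofReal_pos]
      exact hp₀))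
  obtain ⟨ℓ, μ, p, hℓ0, hμ0, hp0, hstep, L₁, hlast⟩ := hsmn (max L₀ L₂) (le_max_left _ _)
  have hν := bddDens_gl hσ
  have hk : ∀ k, PP d (gl σ) {V | ¬ AllGoodC V 0 (ℓ k) (μ k) E} ≤ ENNReal.ofReal (p k) := by
    intro k
    induction k with
    | zero =>
      rw [hℓ0, hμ0, hp0]
      exact hL₂ _ (le_max_right _ _)
    | succ k ih =>
      exact stepN_apply smp (gl σ) hν E (hstep k).1 (hstep k).2.1 (hstep k).2.2 ih
  refine ⟨L₁, fun M hM => ?_⟩
  obtain ⟨k, hs⟩ := hlast M hM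
  exact stepN_apply smp (gl σ) hν E (hstep k).1 (hstep k).2.1 hs (hk k)

end Pool.Agent.LE.H3R
end
end -- Pool.Agent.Helper3_LE.SmaR

section -- Pool.Agent.Helper28_LE.GevChain

/-!
# GEV, part 4: chaining from the sites `a + ℓ k`
-/

set_option autoImplicit false

open MeasureTheory ProbabilityTheory Function

open scoped ENNReal BigOperators

noncomputable section

namespace Pool.Agent.LE.H28A

open Pool.Agent.Anderson Pool.Agent.Loc Pool.Agent.Mob Pool.Agent.Helper54.Bal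
  Pool.Agent.Mob.H75

theorem sd_sm {d : ℕ} (a : Site d) (l n : ℕ) {k : Site d} (hk : k ∈ box (0 : Site d) n) :
    sd a (a + sm l k) ≤ l * n := by
  rw [mem_box, sd_le_iff] at hk
  rw [sd_le_iff]
  intro i
  have h := hk i
  have e : a i - (a + sm l k) i = l * ((0 : Site d) i - k i) := by
    simp only [Pi.add_apply, Pi.zero_apply, sm]
    ring
  rw [e, abs_mul]
  have : |((l : ℕ) : ℤ)| = l := abs_of_nonneg (by positivity)
  rw [this]
  push_cast
  exact mul_le_mul_of_nonneg_left h (by positivity)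

/-- the bad event of one centre -/
theorem lt_of_DL {d : ℕ} {Λ : Finset (Site d)} {E t : ℝ} {V : Site d → ℝ} {x y : Site d}
    (ht : 0 ≤ t) (h : t < DL Λ E V x y) : |gr V Λ E x y| < Real.exp (-t) := by
  unfold DL at h
  by_cases h0 : |gr V Λ E x y| = 0
  · rw [h0]
    exact Real.exp_pos _
  · have hp : 0 < |gr V Λ E x y| := lt_of_le_of_ne (abs_nonneg _) (Ne.symm h0)
    rw [← Real.log_lt_log_iff hp (Real.exp_pos _), Real.log_exp]
    linarith

theorem gev_chain (d : ℕ) (σ E κ₃ p : ℝ) (hd : 1 ≤ d) (hκ : 0 < κ₃) (hp : 0 < p)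
    [IsProbabilityMeasure (gl σ)]
    (hchn : ∃ C, ChnTail d (gl σ) E C) : ∃ Q₀ : ℕ, 2 ≤ Q₀ ∧ ∀ Q : ℕ, Q₀ ≤ Q → ∀ (ℓ N : ℕ)
    (a : Site d), 1 ≤ ℓ → box a (12 * (Q * ℓ)) ⊆ box 0 N →
      PP d (gl σ) {V | ¬ ∀ k ∈ box (0 : Site d) (10 * Q), ∀ y ∈ box (a + sm ℓ k) (3 * ℓ),
        DL (box 0 N) E V (a + sm ℓ k) y ≤ κ₃ * (Q * ℓ)} ≤ ENNReal.ofReal p := by
  classical
  obtain ⟨C, hC⟩ := hchn
  set K : ℝ := |C| * 21 ^ d * (3 / κ₃) ^ (4 * d) with hK
  have hK0 : 0 ≤ K := by positivity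
  obtain ⟨Q₁, hQ₁⟩ := exists_nat_gt (K / p)
  refine ⟨max 2 Q₁, le_max_left _ _, fun Q hQ ℓ N a hℓ hbox => ?_⟩
  have hQ2 : 2 ≤ Q := (le_max_left _ _).trans hQ
  have hQ1 : (Q₁ : ℝ) ≤ Q := by exact_mod_cast (le_max_right 2 Q₁).trans hQ
  have hQpos : (0 : ℝ) < Q := by exact_mod_cast (by omega : 0 < Q)
  have hℓpos : (0 : ℝ) < ℓ := by exact_mod_cast hℓ
  set t : ℝ := κ₃ * (Q * ℓ) with ht
  have htpos : 0 < t := by positivity
  -- one centre
  have one : ∀ k ∈ box (0 : Site d) (10 * Q),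
      PP d (gl σ) {V | ∃ s ∈ box (a + sm ℓ k) (3 * ℓ),
        |gr V (box 0 N) E (a + sm ℓ k) s| < Real.exp (-t)} ≤
        ENNReal.ofReal (|C| * (3 / (κ₃ * Q)) ^ (4 * d)) := by
    intro k hk
    have hsub : box (a + sm ℓ k) (3 * ℓ) ⊆ box (0 : Site d) N := by
      refine Finset.Subset.trans (fun y hy => ?_) hbox
      rw [mem_box] at hy ⊢
      have h1 := sd_sm a ℓ (10 * Q) hk
      have h2 := sd_triangle a (a + sm ℓ k) y
      have h3 : 3 * ℓ ≤ 2 * (Q * ℓ) := by nlinarith only [hℓ, hQ2]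
      have h4 : ℓ * (10 * Q) = 10 * (Q * ℓ) := by ring
      omega
    refine (PP_le_PL (Λ := box 0 N) ?_).trans ((hC N (3 * ℓ) (a + sm ℓ k) t (by omega) hsub
      htpos).trans ?_)
    · intro V V' hV
      simp only [Set.mem_setOf_eq]
      constructor
      · rintro ⟨s, hs, h⟩
        refine ⟨s, hs, ?_⟩
        rwa [← gr_congr hV]
      · rintro ⟨s, hs, h⟩
        refine ⟨s, hs, ?_⟩
        rwa [gr_congr hV]
    · apply ENNReal.ofReal_le_ofReal
      have e : (((3 * ℓ : ℕ) : ℝ) / t) = 3 / (κ₃ * Q) := by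
        rw [ht]
        push_cast
        field_simp
      rw [e]
      exact mul_le_mul_of_nonneg_right (le_abs_self C) (by positivity)
  have hsub : {V | ¬ ∀ k ∈ box (0 : Site d) (10 * Q), ∀ y ∈ box (a + sm ℓ k) (3 * ℓ),
      DL (box 0 N) E V (a + sm ℓ k) y ≤ t} ⊆
      ⋃ k ∈ box (0 : Site d) (10 * Q), {V | ∃ s ∈ box (a + sm ℓ k) (3 * ℓ),
        |gr V (box 0 N) E (a + sm ℓ k) s| < Real.exp (-t)} := by
    intro V hV
    simp only [Set.mem_setOf_eq, not_forall, not_le] at hV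
    obtain ⟨k, hk, y, hy, h⟩ := hV
    simp only [Set.mem_iUnion]
    exact ⟨k, hk, y, hy, lt_of_DL htpos.le h⟩
  refine (measure_mono hsub).trans ((measure_biUnion_finset_le _ _).trans
    ((Finset.sum_le_sum one).trans ?_))
  rw [Finset.sum_const, card_box, nsmul_eq_mul, ← ENNReal.ofReal_natCast,
    ← ENNReal.ofReal_mul (by positivity)]
  apply ENNReal.ofReal_le_ofReal
  have h1 : (((2 * (10 * Q) + 1) ^ d : ℕ) : ℝ) ≤ 21 ^ d * (Q : ℝ) ^ d := by
    push_cast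
    rw [← mul_pow]
    apply pow_le_pow_left₀ (by positivity)
    have : (1 : ℝ) ≤ Q := by exact_mod_cast (by omega : 1 ≤ Q)
    linarith only [this]
  have h2 : (3 / (κ₃ * (Q : ℝ))) ^ (4 * d) = (3 / κ₃) ^ (4 * d) * (1 / (Q : ℝ)) ^ (4 * d) := by
    rw [← mul_pow]
    congr 1
    field_simp
  have h3 : (Q : ℝ) ^ d * (1 / (Q : ℝ)) ^ (4 * d) ≤ 1 / Q := by
    have e : (Q : ℝ) ^ d * (1 / (Q : ℝ)) ^ (4 * d) = (1 / (Q : ℝ)) ^ (3 * d) := by
      have : 4 * d = d + 3 * d := by ring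
      rw [this, pow_add, ← mul_assoc, ← mul_pow]
      have : (Q : ℝ) * (1 / Q) = 1 := by field_simp
      rw [this, one_pow, one_mul]
    rw [e]
    have hle : 1 / (Q : ℝ) ≤ 1 := by
      rw [div_le_one hQpos]
      exact_mod_cast (by omega : 1 ≤ Q)
    calc (1 / (Q : ℝ)) ^ (3 * d) ≤ (1 / (Q : ℝ)) ^ 1 :=
          pow_le_pow_of_le_one (by positivity) hle (by omega)
      _ = 1 / Q := pow_one _
  calc (((2 * (10 * Q) + 1) ^ d : ℕ) : ℝ) * (|C| * (3 / (κ₃ * (Q : ℝ))) ^ (4 * d))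
      ≤ (21 ^ d * (Q : ℝ) ^ d) * (|C| * (3 / (κ₃ * (Q : ℝ))) ^ (4 * d)) :=
        mul_le_mul_of_nonneg_right h1 (by positivity)
    _ = K * ((Q : ℝ) ^ d * (1 / (Q : ℝ)) ^ (4 * d)) := by rw [h2, hK]; ring
    _ ≤ K * (1 / Q) := mul_le_mul_of_nonneg_left h3 hK0
    _ ≤ p := by
        rw [mul_one_div, div_le_iff₀ hQpos]
        rw [div_lt_iff₀ hp] at hQ₁
        nlinarith only [hp, hQ₁, hQ1]

end Pool.Agent.LE.H28A
end
end -- Pool.Agent.Helper28_LE.GevChain

section -- Pool.Agent.Helper32_Mob.Tot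

/-!
# Module TOT: the total mass
-/

set_option autoImplicit false

open MeasureTheory ProbabilityTheory Function

open scoped ENNReal BigOperators InnerProductSpace

noncomputable section

namespace Pool.Agent.Mob.H32

open Pool.Agent.Mob Pool.Agent.Anderson Pool.Agent.Loc Pool.Agent.Helper54.Bal

/-- TOT. -/
theorem tot : TotStmt := by
  intro d V T R J hT
  have hη : (0 : ℝ) < 1 / T := by positivity
  have h1 : ∀ E : ℝ, (∑' x : Site d, if R ≤ (sd 0 x : ℝ) then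
      ENNReal.ofReal (‖G V (zz (1 / T) E) (del 0) x‖ ^ 2 / T) else 0) ≤
      ENNReal.ofReal (1 / T) * ENNReal.ofReal (‖G V (zz (1 / T) E) (del 0)‖ ^ 2) := by
    intro E
    rw [norm_sq_enorm, ← ENNReal.tsum_mul_left]
    refine ENNReal.tsum_le_tsum fun x => ?_
    split_ifs with h
    · rw [enorm_sq_eq, ← ENNReal.ofReal_mul hη.le]
      apply ENNReal.ofReal_le_ofReal
      apply le_of_eq
      ring
    · exact zero_le
  have h2 := (isRes_G V).lintegral_le hη (del (0 : Site d))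
  calc spread V T R J ≤ ∫⁻ E in J, ENNReal.ofReal (1 / T) *
        ENNReal.ofReal (‖G V (zz (1 / T) E) (del 0)‖ ^ 2) := lintegral_mono fun E => h1 E
    _ ≤ ∫⁻ E : ℝ, ENNReal.ofReal (1 / T) *
        ENNReal.ofReal (‖G V (zz (1 / T) E) (del 0)‖ ^ 2) := setLIntegral_le_lintegral _ _
    _ = ENNReal.ofReal (1 / T) * ∫⁻ E : ℝ,
        ENNReal.ofReal (‖G V (zz (1 / T) E) (del 0)‖ ^ 2) :=
        lintegral_const_mul' _ _ ENNReal.ofReal_ne_top
    _ ≤ ENNReal.ofReal (1 / T) * ENNReal.ofReal (Real.pi / (1 / T) * ‖del (0 : Site d)‖ ^ 2) := by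
        gcongr
    _ = ENNReal.ofReal Real.pi := by
        rw [← ENNReal.ofReal_mul hη.le, norm_del]
        congr 1
        field_simp

end Pool.Agent.Mob.H32
end
end -- Pool.Agent.Helper32_Mob.Tot

section -- Pool.Agent.Helper28_Mob.Tim

/-!
# Module TIM: the time averaged moments and the resolvent
-/

set_option autoImplicit false

open MeasureTheory ProbabilityTheory Function

open scoped ENNReal BigOperators InnerProductSpace

noncomputable section

namespace Pool.Agent.Mob.H28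

open Pool.Agent.Anderson Pool.Agent.Loc Pool.Agent.Helper54.Bal

theorem tim : TimStmt := by
  intro d V ψ h T p R hT hp hR a b
  have hη : 0 < 1 / T := by positivity
  have hpi := Real.pi_pos
  have hR0 : 0 < R := by linarith
  have hm : ∀ x : Site d, Measurable fun E : ℝ =>
      ENNReal.ofReal (‖G V (zz (1 / T) E) (del 0) x‖ ^ 2) := by
    intro x
    have h1 : Continuous fun E : ℝ => G V (zz (1 / T) E) (del 0) := by
      have h0 : Continuous fun E : ℝ => ((V, E, del 0) : (Site d → ℝ) × ℝ × L2 d) := by fun_prop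
      have := (continuous_G (d := d) hη.ne').comp h0
      exact this
    exact meas_ofReal_coord h1 x
  have hdiv : ∀ (x : Site d) (E : ℝ), ENNReal.ofReal (‖G V (zz (1 / T) E) (del 0) x‖ ^ 2 / T) =
      ENNReal.ofReal (1 / T) * ENNReal.ofReal (‖G V (zz (1 / T) E) (del 0) x‖ ^ 2) := by
    intro x E
    rw [← ENNReal.ofReal_mul hη.le]
    congr 1
    ring
  have e1 : spread V T R (Set.Ioo a b) ≤ ∑' x : Site d, if R ≤ (sd 0 x : ℝ) then
      ENNReal.ofReal (1 / T) * (ENNReal.ofReal (2 * Real.pi) *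
        ∫⁻ t in Set.Ioi (0:ℝ), ENNReal.ofReal (Real.exp (-(2 * (1 / T)) * t) * ‖ψ t x‖ ^ 2))
      else 0 := by
    unfold spread
    refine (setLIntegral_le_lintegral _ _).trans ?_
    rw [lintegral_tsum]
    · apply ENNReal.tsum_le_tsum
      intro x
      split_ifs with hx
      · simp_rw [hdiv x]
        rw [lintegral_const_mul _ (hm x), planch_coord h hη x]
      · simp
    · intro x
      split_ifs with hx
      · simp_rw [hdiv x]
        exact ((hm x).const_mul _).aemeasurable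
      · exact measurable_const.aemeasurable
  have hmt : ∀ x : Site d, Measurable fun t : ℝ =>
      ENNReal.ofReal (2 / T * Real.exp (-2 * t / T) * ((sd 0 x : ℝ) ^ p * ‖ψ t x‖ ^ 2)) := by
    intro x
    have h1 := continuous_coord h.1 x
    have h2 : Continuous fun t : ℝ =>
        2 / T * Real.exp (-2 * t / T) * ((sd 0 x : ℝ) ^ p * ‖ψ t x‖ ^ 2) := by
      have h3 : Continuous fun t : ℝ => 2 / T * Real.exp (-2 * t / T) := by fun_prop
      exact h3.mul (continuous_const.mul (h1.norm.pow 2))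
    exact ENNReal.measurable_ofReal.comp h2.measurable
  have e2 : avgMoment ψ T p = ∑' x : Site d, ∫⁻ t in Set.Ioi (0:ℝ),
      ENNReal.ofReal (2 / T * Real.exp (-2 * t / T) * ((sd 0 x : ℝ) ^ p * ‖ψ t x‖ ^ 2)) := by
    unfold avgMoment
    rw [lintegral_tsum]
    intro x
    exact (hmt x).aemeasurable
  rw [e2]
  refine (mul_le_mul_right e1 _).trans ?_
  rw [← ENNReal.tsum_mul_left]
  apply ENNReal.tsum_le_tsum
  intro x
  split_ifs with hx
  · rw [← mul_assoc, ← mul_assoc, ← ENNReal.ofReal_mul (by positivity),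
      ← ENNReal.ofReal_mul (by positivity), ← lintegral_const_mul' _ _ ENNReal.ofReal_ne_top]
    apply lintegral_mono
    intro t
    dsimp only
    rw [← ENNReal.ofReal_mul (by positivity)]
    apply ENNReal.ofReal_le_ofReal
    have h1 : R ^ p ≤ (sd 0 x : ℝ) ^ p := Real.rpow_le_rpow hR0.le hx hp
    have h2 : Real.exp (-(2 * (1 / T)) * t) = Real.exp (-2 * t / T) := by
      congr 1
      field_simp
    rw [h2]
    have h3 : R ^ p / Real.pi * (1 / T) * (2 * Real.pi) = 2 / T * R ^ p := by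
      field_simp
    rw [h3]
    have h4 : 2 / T * R ^ p * (Real.exp (-2 * t / T) * ‖ψ t x‖ ^ 2) =
        2 / T * Real.exp (-2 * t / T) * (R ^ p * ‖ψ t x‖ ^ 2) := by ring
    rw [h4]
    gcongr
  · rw [mul_zero]
    exact zero_le

end Pool.Agent.Mob.H28
end
end -- Pool.Agent.Helper28_Mob.Tim

section -- Pool.Agent.Helper32_Mob.Nrm

/-!
# Squad T2: module NRM
-/

set_option autoImplicit false

open MeasureTheory ProbabilityTheory Function

open scoped ENNReal BigOperators ComplexConjugate InnerProductSpace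

noncomputable section

namespace Pool.Agent.Mob.H32

open Pool.Agent.Anderson Pool.Agent.Loc Pool.Agent.Mob

variable {d : ℕ}

/-- the vector `(H_Λ - E) f` -/
theorem HC_mulVec (V : Site d → ℝ) (Λ : Finset (Site d)) {f : Site d → ℂ}
    (hf : ∀ x, x ∉ Λ → f x = 0) (x : Λ) :
    (HC V Λ).mulVec (fun y : Λ => f y) x = lap f x + (V x : ℂ) * f x := by
  have h0 : lap f x = ∑ y ∈ Λ, (hop (x : Site d) y : ℂ) * f y := by
    rw [← lap_indicator]
    congr 1
    funext y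
    by_cases hy : y ∈ Λ
    · rw [if_pos hy]
    · rw [if_neg hy, hf y hy]
  rw [h0, ← Finset.sum_coe_sort Λ (fun y => (hop (x : Site d) y : ℂ) * f y)]
  simp only [Matrix.mulVec, dotProduct, HC, Matrix.map_apply, HM, Matrix.of_apply]
  have h3 : ∀ y : Λ, ((hop x (y : Site d) + if x = y then V x else 0 : ℝ) : ℂ) *
      f y = (hop x (y : Site d) : ℂ) * f y + (if x = y then (V x : ℂ) * f x else 0) := by
    intro y
    by_cases h : x = y
    · subst h; simp; ring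
    · simp [h]
  rw [Finset.sum_congr rfl fun y _ => h3 y, Finset.sum_add_distrib]
  simp

/-- an eigenvalue of `H_Λ` is a zero of the determinant -/
theorem det_eig (V : Site d → ℝ) (Λ : Finset (Site d)) (j : Λ) :
    (RM V Λ ((HC_herm V Λ).eigenvalues j)).det = 0 := by
  by_contra hdet
  set e := (HC_herm V Λ).eigenvalues j with he
  have h1 : (RM V Λ e).map (fun a => (a : ℂ)) = (e : ℂ) • (1 : Matrix Λ Λ ℂ) - HC V Λ := by
    ext x y
    simp only [RM, HC, Matrix.map_apply, Matrix.sub_apply, Matrix.smul_apply, smul_eq_mul,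
      Matrix.one_apply]
    split_ifs <;> simp
  have h2 : ((RM V Λ e).map (fun a => (a : ℂ))).det ≠ 0 := by
    have h3 : ((RM V Λ e).map (fun a => (a : ℂ))).det = ((RM V Λ e).det : ℂ) :=
      (RingHom.map_det Complex.ofRealHom (RM V Λ e)).symm
    rw [h3]
    exact_mod_cast hdet
  have h4 : ((RM V Λ e).map (fun a => (a : ℂ))).mulVec ((HC_herm V Λ).eigenvectorBasis j) = 0 := by
    rw [h1, Matrix.sub_mulVec, (HC_herm V Λ).mulVec_eigenvectorBasis j, Matrix.smul_mulVec,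
      Matrix.one_mulVec]
    ext x
    simp [← he]
  have h5 := Matrix.eq_zero_of_mulVec_eq_zero h2 h4
  have h6 := (HC_herm V Λ).eigenvectorBasis.norm_eq_one j
  have h7 : (HC_herm V Λ).eigenvectorBasis j = 0 := by
    ext x
    exact congrFun h5 x
  rw [h7, norm_zero] at h6
  exact zero_ne_one h6

/-- NRM -/
theorem nrm : NrmStmt := by
  intro d V Λ E r hr hE f hf
  set b := (HC_herm V Λ).eigenvectorBasis with hb
  set ev := (HC_herm V Λ).eigenvalues with hev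
  have hlow : ∀ j, r ≤ |ev j - E| := by
    intro j
    by_contra hcon
    push Not at hcon
    exact hE (ev j) hcon.le (det_eig V Λ j)
  set v : EuclideanSpace ℂ Λ := WithLp.toLp 2 fun x : Λ => f x with hv
  set g : EuclideanSpace ℂ Λ := WithLp.toLp 2 fun x : Λ =>
    lap f x + (V x : ℂ) * f x - (E : ℂ) * f x with hg
  have hinner : ∀ j (w : Λ → ℂ), ⟪b j, (WithLp.toLp 2 w : EuclideanSpace ℂ Λ)⟫_ℂ =
      dotProduct (star (fun x => b j x)) w := by
    intro j w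
    rw [PiLp.inner_apply, dotProduct]
    apply Finset.sum_congr rfl
    intro x _
    rw [RCLike.inner_apply, mul_comm]
    rfl
  have hH : ∀ j, ⟪b j, g⟫_ℂ = ((ev j - E : ℝ) : ℂ) * ⟪b j, v⟫_ℂ := by
    intro j
    have h1 : (fun x : Λ => lap f x + (V x : ℂ) * f x - (E : ℂ) * f x) =
        (HC V Λ).mulVec (fun y : Λ => f y) - (E : ℂ) • (fun y : Λ => f y) := by
      funext x
      rw [Pi.sub_apply, HC_mulVec V Λ hf x]
      rfl
    have h2 : Matrix.vecMul (star (fun x => b j x)) (HC V Λ) =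
        (ev j : ℂ) • star (fun x => b j x) := by
      have h3 := congrArg star ((HC_herm V Λ).mulVec_eigenvectorBasis j)
      rw [Matrix.star_mulVec, (HC_herm V Λ).eq] at h3
      rw [hb, hev]
      refine Eq.trans h3 ?_
      ext x
      simp
    rw [hg, hv, hinner, hinner, h1, dotProduct_sub, Matrix.dotProduct_mulVec, h2, smul_dotProduct,
      dotProduct_smul]
    push_cast
    rw [smul_eq_mul, smul_eq_mul]
    ring
  have e1 := b.sum_sq_norm_inner_right v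
  have e2 := b.sum_sq_norm_inner_right g
  rw [EuclideanSpace.norm_sq_eq] at e1 e2
  have e3 : ∑ x ∈ Λ, ‖f x‖ ^ 2 = ∑ j, ‖⟪b j, v⟫_ℂ‖ ^ 2 := by
    rw [e1, ← Finset.sum_coe_sort Λ (fun x => ‖f x‖ ^ 2)]
  have e4 : ∑ x ∈ Λ, ‖lap f x + (V x : ℂ) * f x - (E : ℂ) * f x‖ ^ 2 =
      ∑ j, ‖⟪b j, g⟫_ℂ‖ ^ 2 := by
    rw [e2, ← Finset.sum_coe_sort Λ
      (fun x => ‖lap f x + (V x : ℂ) * f x - (E : ℂ) * f x‖ ^ 2)]
  rw [e3, e4, Finset.mul_sum]
  apply Finset.sum_le_sum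
  intro j _
  rw [hH j, norm_mul, mul_pow, Complex.norm_real, Real.norm_eq_abs]
  have := hlow j
  gcongr

end Pool.Agent.Mob.H32
end
end -- Pool.Agent.Helper32_Mob.Nrm

section -- Pool.Agent.Helper58_Mob.Bdc

/-! BDC: decay in probability in full cubes. -/

set_option autoImplicit false

open MeasureTheory ProbabilityTheory Function

open scoped ENNReal BigOperators

noncomputable section

namespace Pool.Agent.Mob.H58

open Pool.Agent.Anderson Pool.Agent.Loc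

/-- BDC -/
theorem bdc : BdcStmt := by
  intro d C₀ σ hd hC₀ hσ hB I L hI
  set c : ℝ := C₀ * (1 + 1 / |σ|) with hc
  have hσ' : 0 < |σ| := abs_pos.2 hσ
  have hc0 : 0 < c := by positivity
  set μ : ℝ := 1 / (2 * (L + 2)) with hμ
  have hμ0 : 0 < μ := by positivity
  refine ⟨c * Real.exp 1, μ, hμ0, ?_⟩
  intro x u R E hE hR
  set k := R / (L + 2) with hk
  have hk1 : k * (L + 2) ≤ R := Nat.div_mul_le_self _ _
  have hk2 : (R : ℝ) ≤ (k + 1) * (L + 2) := by
    have : R ≤ (R / (L + 2) + 1) * (L + 2) := by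
      have := Nat.lt_div_mul_add (a := R) (b := L + 2) (by omega)
      rw [add_mul, one_mul]
      omega
    rw [hk]
    exact_mod_cast this
  have hxx : sd x x = 0 := by
    unfold sd
    simp
  have h1 := hB E L (hI E hE) R k x x u (by rw [hxx]; omega)
    ((mem_box).2 hR.le) (by rw [hR]; exact hk1)
  have hdet := PL_det (bddDens_gl hσ) (box x R) (box x R) le_rfl E
  have hsub : {V : Site d → ℝ | ¬ Good V (box x R) E x u (Real.exp (-μ * R))} ⊆
      {V | (RM V (box x R) E).det = 0} ∪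
        {V | p8 (Real.exp (-μ * R)) ≤ pg (box x R) E x u V} := by
    intro V hV
    rw [Set.mem_ofPred_eq, Good, not_and_or, not_not, not_lt] at hV
    rcases hV with h | h
    · exact Or.inl h
    · right
      rw [Set.mem_ofPred_eq, pg]
      apply p8_mono
      rwa [Real.abs_exp]
  refine (measure_mono hsub).trans ((measure_union_le _ _).trans ?_)
  rw [hdet, zero_add]
  have h2 := mul_meas_ge_le_lintegral (μ := PL (gl σ) (box x R)) (measurable_pg (box x R) E x u)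
    (p8 (Real.exp (-μ * R)))
  have h3 := h2.trans h1
  have hp8 : p8 (Real.exp (-μ * R)) = ENNReal.ofReal (Real.exp (-μ * R / 8)) := by
    unfold p8
    rw [Real.abs_exp, ← Real.exp_mul]
    congr 2
    ring
  rw [hp8] at h3 ⊢
  have hpos : 0 < Real.exp (-μ * R / 8) := Real.exp_pos _
  rw [ENNReal.mul_le_iff_le_inv (by simpa using hpos) ENNReal.ofReal_ne_top,
    ← ENNReal.ofReal_inv_of_pos hpos, ← ENNReal.ofReal_mul (by positivity)] at h3
  refine h3.trans (ENNReal.ofReal_le_ofReal ?_)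
  rw [← Real.exp_neg]
  have e3 : Real.exp (-(-μ * R / 8)) * (c * Real.exp (-(k : ℝ))) =
      c * Real.exp (μ * R / 8 - k) := by
    rw [mul_left_comm, ← Real.exp_add]
    congr 2
    ring
  have e4 : c * Real.exp 1 * Real.exp (-μ * R) = c * Real.exp (1 + -μ * R) := by
    rw [Real.exp_add]; ring
  rw [e3, e4]
  apply mul_le_mul_of_nonneg_left _ hc0.le
  apply Real.exp_le_exp.2
  have h5 : μ * (L + 2) = 1 / 2 := by rw [hμ]; field_simp
  have h6 : μ * R ≤ (k + 1) * (1 / 2) := by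
    rw [← h5]
    calc μ * R ≤ μ * ((k + 1) * (L + 2)) := mul_le_mul_of_nonneg_left hk2 hμ0.le
      _ = _ := by ring
  have h7 : (0 : ℝ) ≤ k := Nat.cast_nonneg _
  have h8 : 0 ≤ μ * R := by positivity
  linarith

end Pool.Agent.Mob.H58
end
end -- Pool.Agent.Helper58_Mob.Bdc

section -- Pool.Agent.Helper58_Mob.Edg

/-! EDG: the edges of the spectrum. -/

set_option autoImplicit false

open MeasureTheory ProbabilityTheory Function

open scoped ENNReal BigOperators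

noncomputable section

namespace Pool.Agent.Mob.H58

open Pool.Agent.Anderson Pool.Agent.Loc

/-- decay in probability, for the measures `PL` -/
theorem edg_pl (d : ℕ) (hd : 3 ≤ d) :
    ∃ C : ℝ, 0 < C ∧ ∀ σ : ℝ, σ ≠ 0 → ∃ m : ℝ, 0 < m ∧
      ∀ (Λ : Finset (Site d)) (x y : Site d) (E : ℝ), x ∈ Λ → y ∈ Λ →
        2 * d + watson d * σ ^ 2 + C * |σ| ^ (2 + 1 / (24 * d : ℝ)) ≤ |E| →
        PL (gl σ) Λ {V | ¬ Good V Λ E x y (Real.exp (-m * sd x y))} ≤
          ENNReal.ofReal (2 * √(6 * (1 / |σ|)) * Real.exp 1 * Real.exp (-m * sd x y)) := by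
  have hd0 : (0:ℝ) < d := by
    have : 0 < d := by omega
    exact_mod_cast this
  have hd3 : (3:ℝ) ≤ d := by exact_mod_cast hd
  obtain ⟨C, hC, h⟩ := init_all (d := d) (by omega) (watson_pos hd)
    (C₅ := 1024 * 5 ^ d + 128) (η := 1 / (2 * d : ℝ)) (by positivity) (by positivity)
    (by
      rw [div_le_one (by positivity)]
      linarith only [hd3])
    (fun Λ a x ha => gr_zero_diag hd Λ ha x)
    (fun Λ a x ha ha1 => gr_zero_sq hd Λ ha ha1 x)
  have hexp : 1 / (2 * d : ℝ) / 12 = 1 / (24 * d : ℝ) := by field_simp; norm_num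
  rw [hexp] at h
  refine ⟨C, hC, fun σ hσ => ?_⟩
  obtain ⟨L, ε, hε, hinit, hnum⟩ := h σ hσ
  refine ⟨2 / (3 * (L + 2)), by positivity, ?_⟩
  intro Λ x y E hx hy hE
  exact prob_decay (bddDens_gl hσ) hε (hinit E hE) hnum Λ hx hy

/-- a polynomial times a decaying exponential is small somewhere -/
theorem poly_exp (n : ℕ) (c b : ℝ) (hb : 0 < b) (hc : 0 ≤ c) {δ : ℝ} (hδ : 0 < δ) :
    ∃ L : ℕ, c * (2 * L + 5) ^ n * Real.exp (-(b * L)) ≤ δ := by
  have h1 := (isLittleO_pow_exp_pos_mul_atTop (k := n) hb).bound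
    (c := δ / (c + 1) * Real.exp (-(b * 3)) / 2 ^ n) (by positivity)
  have h2 : Filter.Tendsto (fun L : ℕ => (L : ℝ) + 3) Filter.atTop Filter.atTop :=
    Filter.tendsto_atTop_add_const_right _ _ tendsto_natCast_atTop_atTop
  obtain ⟨L, hL⟩ := (h2.eventually h1).exists
  refine ⟨L, ?_⟩
  have hL0 : (0 : ℝ) ≤ L := Nat.cast_nonneg _
  rw [Real.norm_eq_abs, Real.norm_eq_abs, Real.abs_exp, abs_of_nonneg (by positivity)] at hL
  have h3 : (2 * (L : ℝ) + 5) ^ n ≤ 2 ^ n * ((L : ℝ) + 3) ^ n := by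
    rw [← mul_pow]
    exact pow_le_pow_left₀ (by positivity) (by linarith only) n
  have h4 : Real.exp (b * ((L : ℝ) + 3)) = Real.exp (b * L) * Real.exp (b * 3) := by
    rw [← Real.exp_add]
    congr 1
    ring
  have h5 : Real.exp (-(b * 3)) * Real.exp (b * 3) = 1 := by
    rw [← Real.exp_add]
    simp
  have h6 : Real.exp (-(b * L)) * Real.exp (b * L) = 1 := by
    rw [← Real.exp_add]
    simp
  have hc1 : 0 < c + 1 := by linarith only [hc]
  have h2n : (0 : ℝ) < 2 ^ n := by positivity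
  calc c * (2 * L + 5) ^ n * Real.exp (-(b * L))
      ≤ (c + 1) * (2 ^ n * ((L : ℝ) + 3) ^ n) * Real.exp (-(b * L)) := by
        refine mul_le_mul_of_nonneg_right ?_ (Real.exp_pos _).le
        exact mul_le_mul (by linarith) h3 (by positivity) hc1.le
    _ ≤ (c + 1) * (2 ^ n * (δ / (c + 1) * Real.exp (-(b * 3)) / 2 ^ n *
          Real.exp (b * ((L : ℝ) + 3)))) * Real.exp (-(b * L)) := by
        refine mul_le_mul_of_nonneg_right ?_ (Real.exp_pos _).le
        exact mul_le_mul_of_nonneg_left (mul_le_mul_of_nonneg_left hL h2n.le) hc1.le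
    _ = δ * (Real.exp (-(b * 3)) * Real.exp (b * 3)) *
          (Real.exp (-(b * L)) * Real.exp (b * L)) := by
        rw [h4]
        field_simp
    _ = δ := by rw [h5, h6]; ring

/-- EDG -/
theorem edg : EdgStmt := by
  intro d hd
  obtain ⟨C, hC, h⟩ := edg_pl d hd
  refine ⟨C, hC, fun C₀ σ hC₀ hσ => ?_⟩
  obtain ⟨m, hm, hdec⟩ := h σ hσ
  have hσ' : 0 < |σ| := abs_pos.2 hσ
  set ρ : ℝ := 1 / |σ| with hρ
  have hρ0 : 0 < ρ := by positivity
  set K : ℝ := 2 * √(6 * ρ) * Real.exp 1 with hK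
  have hK0 : 0 ≤ K := by positivity
  set D : ℝ := 1 + (2 * K + 6 * ρ) with hD
  have hD0 : 0 ≤ D := by positivity
  obtain ⟨L, hL⟩ := poly_exp (6 * d) (C₀ * (1 + ρ) * D) (m / 8) (by positivity) (by positivity)
    (Real.exp_pos (-1))
  refine ⟨L, fun E hE => ⟨D * Real.exp (-(m / 8 * L)), by positivity, ?_, ?_⟩⟩
  · refine le_trans (le_of_eq ?_) hL
    ring
  · intro x u hxu
    have hx : x ∈ box x L := by
      rw [mem_box]
      have : sd x x = 0 := by unfold sd; simp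
      omega
    have hu : u ∈ box x L := mem_box.2 hxu.le
    have h1 := hdec (box x L) x u E hx hu hE
    rw [hxu] at h1
    set B : Set (Site d → ℝ) := {V | ¬ Good V (box x L) E x u (Real.exp (-m * L))} with hB
    have hBm : MeasurableSet B := measurableSet_not_good _ _ _ _ _
    rw [← lintegral_add_compl _ hBm]
    set a : ℝ := Real.exp (m * L / 2) with ha
    have ha0 : 0 < a := Real.exp_pos _
    have hbad : ∫⁻ V in B, pg (box x L) E x u V ∂(PL (gl σ) (box x L)) ≤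
        ENNReal.ofReal ((2 * K + 6 * ρ) * Real.exp (-(m * L / 2))) := by
      calc ∫⁻ V in B, pg (box x L) E x u V ∂(PL (gl σ) (box x L))
          ≤ ∫⁻ V in B, (1 + ENNReal.ofReal (√|gr V (box x L) E x u|)) ∂(PL (gl σ) (box x L)) :=
            lintegral_mono fun V => p8_le _
        _ = PL (gl σ) (box x L) B +
            ∫⁻ V in B, ENNReal.ofReal (√|gr V (box x L) E x u|) ∂(PL (gl σ) (box x L)) := by
            rw [lintegral_add_left measurable_const]
            simp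
        _ ≤ PL (gl σ) (box x L) B +
            (ENNReal.ofReal a * PL (gl σ) (box x L) B + ENNReal.ofReal (6 * ρ / a)) := by
            gcongr
            exact PL_sqrt_event (bddDens_gl hσ) (box x L) E x u B ha0
        _ ≤ ENNReal.ofReal (K * Real.exp (-m * L)) +
            (ENNReal.ofReal a * ENNReal.ofReal (K * Real.exp (-m * L)) +
              ENNReal.ofReal (6 * ρ / a)) := by
            gcongr
        _ = ENNReal.ofReal (K * Real.exp (-m * L) + (a * (K * Real.exp (-m * L)) + 6 * ρ / a)) := by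
            rw [← ENNReal.ofReal_mul ha0.le, ← ENNReal.ofReal_add (by positivity) (by positivity),
              ← ENNReal.ofReal_add (by positivity) (by positivity)]
        _ ≤ _ := by
            apply ENNReal.ofReal_le_ofReal
            have e1 : a * Real.exp (-m * L) = Real.exp (-(m * L / 2)) := by
              rw [ha, ← Real.exp_add]
              congr 1
              ring
            have e2 : 6 * ρ / a = 6 * ρ * Real.exp (-(m * L / 2)) := by
              rw [ha, Real.exp_neg, div_eq_mul_inv]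
            have e3 : Real.exp (-m * L) ≤ Real.exp (-(m * L / 2)) := by
              apply Real.exp_le_exp.2
              have : 0 ≤ m * L := by positivity
              linarith only [this]
            have e4 : K * Real.exp (-m * L) ≤ K * Real.exp (-(m * L / 2)) :=
              mul_le_mul_of_nonneg_left e3 hK0
            calc K * Real.exp (-m * L) + (a * (K * Real.exp (-m * L)) + 6 * ρ / a)
                = K * Real.exp (-m * L) + (K * (a * Real.exp (-m * L)) + 6 * ρ / a) := by ring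
              _ = K * Real.exp (-m * L) + (K * Real.exp (-(m * L / 2)) +
                  6 * ρ * Real.exp (-(m * L / 2))) := by rw [e1, e2]
              _ ≤ _ := by linarith only [e4]
    have hgood : ∫⁻ V in Bᶜ, pg (box x L) E x u V ∂(PL (gl σ) (box x L)) ≤
        ENNReal.ofReal (Real.exp (-(m / 8 * L))) := by
      calc ∫⁻ V in Bᶜ, pg (box x L) E x u V ∂(PL (gl σ) (box x L))
          ≤ ∫⁻ V in Bᶜ, ENNReal.ofReal (Real.exp (-(m / 8 * L))) ∂(PL (gl σ) (box x L)) := by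
            apply setLIntegral_mono measurable_const
            intro V hV
            have hV' : Good V (box x L) E x u (Real.exp (-m * L)) := by
              by_contra h
              exact hV h
            have e1 : p8 (gr V (box x L) E x u) ≤ p8 (Real.exp (-m * L)) := by
              apply p8_mono
              rw [Real.abs_exp]
              exact hV'.2.le
            refine e1.trans (le_of_eq ?_)
            unfold p8
            rw [Real.abs_exp, ← Real.exp_mul]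
            congr 2
            ring
        _ = ENNReal.ofReal (Real.exp (-(m / 8 * L))) * PL (gl σ) (box x L) Bᶜ := by
            rw [setLIntegral_const]
        _ ≤ ENNReal.ofReal (Real.exp (-(m / 8 * L))) * 1 := by
            gcongr
            exact prob_le_one
        _ = _ := mul_one _
    refine (add_le_add hbad hgood).trans ?_
    rw [← ENNReal.ofReal_add (by positivity) (by positivity)]
    apply ENNReal.ofReal_le_ofReal
    have e1 : Real.exp (-(m * L / 2)) ≤ Real.exp (-(m / 8 * L)) := by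
      apply Real.exp_le_exp.2
      have : 0 ≤ m * L := by positivity
      linarith only [this]
    have e2 := mul_le_mul_of_nonneg_left e1 (by positivity : 0 ≤ 2 * K + 6 * ρ)
    rw [hD]
    linarith only [e2]

end Pool.Agent.Mob.H58
end
end -- Pool.Agent.Helper58_Mob.Edg

section -- Pool.Agent.Helper85_Mob.Dec

/-!
# DEC: decoupling at two sites
-/

set_option autoImplicit false
set_option linter.unusedSectionVars false

open MeasureTheory ProbabilityTheory Function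

open scoped ENNReal BigOperators

noncomputable section

namespace Pool.Agent.Mob.H85

open Pool.Agent.Anderson Pool.Agent.Loc Pool.Agent.Helper54.Bal Pool.Agent.Mob

variable {d : ℕ}

/-! ### Cauchy-Schwarz -/

theorem sq_rpow_half (x : ℝ≥0∞) : (x ^ (2 : ℕ)) ^ (1 / 2 : ℝ) = x := by
  rw [← ENNReal.rpow_natCast, ← ENNReal.rpow_mul]
  norm_num

theorem csn {α : Type*} [MeasurableSpace α] {m : Measure α} {f g : α → ℝ≥0∞}
    (hf : Measurable f) (hg : Measurable g) {C A B : ℝ≥0∞}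
    (h1 : ∫⁻ x, f x ^ 2 ∂m ≤ C * A ^ 2) (h2 : ∫⁻ x, g x ^ 2 ∂m ≤ C * B ^ 2) :
    ∫⁻ x, f x * g x ∂m ≤ C * A * B := by
  have h := ENNReal.lintegral_mul_le_Lp_mul_Lq m (p := 2) (q := 2)
    (Real.HolderConjugate.two_two) hf.aemeasurable hg.aemeasurable
  have e : ∀ F : α → ℝ≥0∞, ∫⁻ x, F x ^ (2 : ℝ) ∂m = ∫⁻ x, F x ^ 2 ∂m := by
    intro F
    apply lintegral_congr
    intro x
    rw [← ENNReal.rpow_natCast]
    norm_num
  rw [e f, e g] at h
  have h' : ∫⁻ x, f x * g x ∂m ≤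
      (∫⁻ x, f x ^ 2 ∂m) ^ (1 / 2 : ℝ) * (∫⁻ x, g x ^ 2 ∂m) ^ (1 / 2 : ℝ) := h
  refine h'.trans ?_
  have b1 : (∫⁻ x, f x ^ 2 ∂m) ^ (1 / 2 : ℝ) ≤ C ^ (1 / 2 : ℝ) * A := by
    calc _ ≤ (C * A ^ 2) ^ (1 / 2 : ℝ) := ENNReal.rpow_le_rpow h1 (by norm_num)
      _ = _ := by
        rw [ENNReal.mul_rpow_of_nonneg _ _ (by norm_num), sq_rpow_half]
  have b2 : (∫⁻ x, g x ^ 2 ∂m) ^ (1 / 2 : ℝ) ≤ C ^ (1 / 2 : ℝ) * B := by
    calc _ ≤ (C * B ^ 2) ^ (1 / 2 : ℝ) := ENNReal.rpow_le_rpow h2 (by norm_num)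
      _ = _ := by
        rw [ENNReal.mul_rpow_of_nonneg _ _ (by norm_num), sq_rpow_half]
  calc _ ≤ C ^ (1 / 2 : ℝ) * A * (C ^ (1 / 2 : ℝ) * B) := mul_le_mul' b1 b2
    _ = C ^ (1 / 2 : ℝ) * C ^ (1 / 2 : ℝ) * A * B := by ring
    _ = C * A * B := by
        have : C ^ (1 / 2 : ℝ) * C ^ (1 / 2 : ℝ) = C := by
          rw [← sq, ← ENNReal.rpow_natCast, ← ENNReal.rpow_mul]
          norm_num
        rw [this]

/-- reverse Hölder in two variables from reverse Hölder in each of them -/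
theorem two_var {ν : Measure ℝ} [SFinite ν] {f : ℝ × ℝ → ℝ≥0∞} (hf : Measurable f) {C : ℝ≥0∞}
    (h1 : ∀ s, ∫⁻ t, f (s, t) ^ 2 ∂ν ≤ C * (∫⁻ t, f (s, t) ∂ν) ^ 2)
    (h2 : ∀ t, ∫⁻ s, f (s, t) ^ 2 ∂ν ≤ C * (∫⁻ s, f (s, t) ∂ν) ^ 2) :
    ∫⁻ s, ∫⁻ t, f (s, t) ^ 2 ∂ν ∂ν ≤ C * C * (∫⁻ s, ∫⁻ t, f (s, t) ∂ν ∂ν) ^ 2 := by
  have hs : ∀ s, Measurable fun t => f (s, t) := fun s => hf.comp (by fun_prop)
  have ht : ∀ t, Measurable fun s => f (s, t) := fun t => hf.comp (by fun_prop)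
  have hF : Measurable fun s => ∫⁻ t, f (s, t) ∂ν := hf.lintegral_prod_right'
  have hG : Measurable fun t => ∫⁻ s, f (s, t) ∂ν := hf.lintegral_prod_left'
  have hswap : ∫⁻ s, ∫⁻ t, f (s, t) ∂ν ∂ν = ∫⁻ t, ∫⁻ s, f (s, t) ∂ν ∂ν :=
    lintegral_lintegral_swap hf.aemeasurable
  have hm2 : Measurable fun p : ℝ × ℝ => f p * ∫⁻ t', f (p.1, t') ∂ν :=
    hf.mul (hF.comp measurable_fst)
  have step1 : ∫⁻ s, (∫⁻ t, f (s, t) ∂ν) ^ 2 ∂ν ≤ C * (∫⁻ s, ∫⁻ t, f (s, t) ∂ν ∂ν) ^ 2 := by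
    calc ∫⁻ s, (∫⁻ t, f (s, t) ∂ν) ^ 2 ∂ν
        = ∫⁻ s, ∫⁻ t, f (s, t) * ∫⁻ t', f (s, t') ∂ν ∂ν ∂ν := by
          apply lintegral_congr
          intro s
          rw [lintegral_mul_const _ (hs s), sq]
      _ = ∫⁻ t, ∫⁻ s, f (s, t) * ∫⁻ t', f (s, t') ∂ν ∂ν ∂ν := by
          exact lintegral_lintegral_swap (f := fun s t => f (s, t) * ∫⁻ t', f (s, t') ∂ν)
            hm2.aemeasurable
      _ = ∫⁻ t, ∫⁻ s, ∫⁻ t', f (s, t) * f (s, t') ∂ν ∂ν ∂ν := by
          apply lintegral_congr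
          intro t
          apply lintegral_congr
          intro s
          rw [lintegral_const_mul _ (hs s)]
      _ = ∫⁻ t, ∫⁻ t', ∫⁻ s, f (s, t) * f (s, t') ∂ν ∂ν ∂ν := by
          apply lintegral_congr
          intro t
          refine lintegral_lintegral_swap (f := fun s t' => f (s, t) * f (s, t')) ?_
          apply Measurable.aemeasurable
          exact ((ht t).comp measurable_fst).mul hf
      _ ≤ ∫⁻ t, ∫⁻ t', C * (∫⁻ s, f (s, t) ∂ν) * (∫⁻ s, f (s, t') ∂ν) ∂ν ∂ν := by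
          apply lintegral_mono
          intro t
          apply lintegral_mono
          intro t'
          exact csn (ht t) (ht t') (h2 t) (h2 t')
      _ = ∫⁻ t, C * (∫⁻ s, f (s, t) ∂ν) * (∫⁻ t', ∫⁻ s, f (s, t') ∂ν ∂ν) ∂ν := by
          apply lintegral_congr
          intro t
          rw [lintegral_const_mul _ hG]
      _ = C * (∫⁻ t, ∫⁻ s, f (s, t) ∂ν ∂ν) * (∫⁻ t', ∫⁻ s, f (s, t') ∂ν ∂ν) := by
          rw [lintegral_mul_const _ (hG.const_mul C), lintegral_const_mul _ hG]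
      _ = _ := by rw [hswap]; ring
  calc ∫⁻ s, ∫⁻ t, f (s, t) ^ 2 ∂ν ∂ν ≤ ∫⁻ s, C * (∫⁻ t, f (s, t) ∂ν) ^ 2 ∂ν :=
        lintegral_mono h1
    _ = C * ∫⁻ s, (∫⁻ t, f (s, t) ∂ν) ^ 2 ∂ν := lintegral_const_mul _ (hF.pow_const 2)
    _ ≤ C * (C * (∫⁻ s, ∫⁻ t, f (s, t) ∂ν ∂ν) ^ 2) := mul_le_mul_right step1 _
    _ = _ := by ring

/-! ### the Green function is a quotient of affine functions of each `V i` -/

theorem det_aff {n : Type*} [Fintype n] [DecidableEq n] (M : ℝ → Matrix n n ℝ) (i : n)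
    (v : n → ℝ) (h : ∀ t x, x ≠ i → ∀ y, M t x y = M 0 x y)
    (hv : ∀ t y, M t i y = M 0 i y + t * v y) :
    ∃ α β : ℝ, ∀ t, (M t).det = α + β * t := by
  refine ⟨(M 0).det, ((M 0).updateRow i v).det, fun t => ?_⟩
  have key : M t = (M 0).updateRow i (M 0 i + t • v) := by
    ext x y
    by_cases hx : x = i
    · subst hx
      rw [Matrix.updateRow_self, hv t y]
      simp
    · rw [Matrix.updateRow_ne hx, h t x hx y]
  rw [key, Matrix.det_updateRow_add, Matrix.det_updateRow_smul, Matrix.updateRow_eq_self]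
  ring

theorem RM_update_ne (V : Site d → ℝ) (Λ : Finset (Site d)) (E : ℝ) {i : Site d} (hi : i ∈ Λ)
    (t : ℝ) (x : Λ) (hx : x ≠ ⟨i, hi⟩) (y : Λ) :
    RM (update V i t) Λ E x y = RM (update V i 0) Λ E x y := by
  have hx' : (x : Site d) ≠ i := fun h => hx (Subtype.ext h)
  simp only [RM, HM, Matrix.of_apply, Matrix.sub_apply, Matrix.smul_apply, update_of_ne hx']

theorem RM_update_eq (V : Site d → ℝ) (Λ : Finset (Site d)) (E : ℝ) {i : Site d} (hi : i ∈ Λ)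
    (t : ℝ) (y : Λ) :
    RM (update V i t) Λ E ⟨i, hi⟩ y = RM (update V i 0) Λ E ⟨i, hi⟩ y +
      t * (if (⟨i, hi⟩ : Λ) = y then -1 else 0) := by
  simp only [RM, HM, Matrix.of_apply, Matrix.sub_apply, Matrix.smul_apply, update_self]
  by_cases hy : (⟨i, hi⟩ : Λ) = y
  · simp [hy]
    ring
  · simp [hy]

theorem gr_update (V : Site d → ℝ) (Λ : Finset (Site d)) (E : ℝ) (a b i : Site d) :
    ∃ α β γ δ : ℝ, ∀ t, gr (update V i t) Λ E a b = (α + β * t) / (γ + δ * t) := by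
  by_cases hab : a ∈ Λ ∧ b ∈ Λ
  · by_cases hi : i ∈ Λ
    · obtain ⟨γ, δ, h1⟩ := det_aff (fun t => RM (update V i t) Λ E) ⟨i, hi⟩ _
        (fun t x hx y => RM_update_ne V Λ E hi t x hx y) (fun t y => RM_update_eq V Λ E hi t y)
      set a' : Λ := ⟨a, hab.1⟩ with ha'
      set b' : Λ := ⟨b, hab.2⟩ with hb'
      have h2 : ∃ α β : ℝ, ∀ t, ((RM (update V i t) Λ E).updateRow b' (Pi.single a' 1)).det =
          α + β * t := by
        apply det_aff (fun t => (RM (update V i t) Λ E).updateRow b' (Pi.single a' 1)) ⟨i, hi⟩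
          (fun y => if b' = ⟨i, hi⟩ then 0 else (if (⟨i, hi⟩ : Λ) = y then -1 else 0))
        · intro t x hx y
          by_cases hb : x = b'
          · subst hb
            rw [Matrix.updateRow_self, Matrix.updateRow_self]
          · rw [Matrix.updateRow_ne hb, Matrix.updateRow_ne hb]
            exact RM_update_ne V Λ E hi t x hx y
        · intro t y
          by_cases hb : b' = ⟨i, hi⟩
          · rw [← hb, Matrix.updateRow_self, Matrix.updateRow_self]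
            simp
          · have hb2 : (⟨i, hi⟩ : Λ) ≠ b' := fun h => hb h.symm
            rw [Matrix.updateRow_ne hb2, Matrix.updateRow_ne hb2, if_neg hb]
            exact RM_update_eq V Λ E hi t y
      obtain ⟨α, β, h2⟩ := h2
      refine ⟨α, β, γ, δ, fun t => ?_⟩
      rw [gr_eq_adj hab.1 hab.2, Matrix.adjugate_apply, ← ha', ← hb', h2 t, h1 t,
        div_eq_mul_inv, mul_comm]
    · refine ⟨gr V Λ E a b, 0, 1, 0, fun t => ?_⟩
      have h1 : gr (update V i t) Λ E a b = gr V Λ E a b := by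
        apply gr_congr
        intro x hx
        have : x ≠ i := fun h => hi (h ▸ hx)
        rw [update_of_ne this]
      rw [h1]
      simp
  · refine ⟨0, 0, 1, 0, fun t => ?_⟩
    unfold gr
    rw [dif_neg hab]
    simp

/-- reverse Hölder in one variable for the Green function -/
theorem rh1 {C : ℝ} (hA : ∀ a b c e : ℝ,
      ∫⁻ t, p8 ((a + b * t) / (c + e * t)) ^ 2 ∂γ1 ≤
        ENNReal.ofReal C * (∫⁻ t, p8 ((a + b * t) / (c + e * t)) ∂γ1) ^ 2)
    (σ : ℝ) (V : Site d → ℝ) (Λ : Finset (Site d)) (E : ℝ) (a b i : Site d) :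
    ∫⁻ t, pg Λ E a b (update V i t) ^ 2 ∂(gl σ) ≤
      ENNReal.ofReal C * (∫⁻ t, pg Λ E a b (update V i t) ∂(gl σ)) ^ 2 := by
  obtain ⟨α, β, γ, δ, h⟩ := gr_update V Λ E a b i
  have h1 : ∀ t, pg Λ E a b (update V i t) = p8 ((α + β * t) / (γ + δ * t)) := by
    intro t
    unfold pg
    rw [h t]
  simp_rw [h1]
  have hm : Measurable fun t : ℝ => p8 ((α + β * t) / (γ + δ * t)) :=
    measurable_p8.comp (by fun_prop)
  have hσ : Measurable fun t : ℝ => σ * t := by fun_prop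
  unfold gl
  rw [lintegral_map (hm.pow_const 2) hσ, lintegral_map hm hσ]
  have h2 := hA α (β * σ) γ (δ * σ)
  have h3 : ∀ t : ℝ, (α + β * (σ * t)) / (γ + δ * (σ * t)) =
      (α + β * σ * t) / (γ + δ * σ * t) := by
    intro t
    ring_nf
  simp_rw [h3]
  exact h2

theorem measurable_upd2 (V : Site d → ℝ) (i j : Site d) :
    Measurable fun z : ℝ × ℝ => update (update V i z.1) j z.2 := by
  rw [measurable_pi_iff]
  intro w
  by_cases h1 : w = j
  · subst h1; simp only [update_self]; exact measurable_snd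
  · simp only [update_of_ne h1]
    by_cases h2 : w = i
    · subst h2; simp only [update_self]; exact measurable_fst
    · simp only [update_of_ne h2]; exact measurable_const

theorem lmarg2 {ν : Measure ℝ} [IsProbabilityMeasure ν] {F : (Site d → ℝ) → ℝ≥0∞}
    (hF : Measurable F) {i j : Site d} (hij : i ≠ j) (V : Site d → ℝ) :
    (∫⋯∫⁻_{i, j}, F ∂(fun _ => ν)) V =
      ∫⁻ s, ∫⁻ t, F (update (update V i s) j t) ∂ν ∂ν := by
  have hmem : i ∉ ({j} : Finset (Site d)) := by simpa using hij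
  rw [lmarginal_insert _ hF hmem, lmarginal_singleton]

theorem dec (h : AffStmt) : DecStmt := by
  obtain ⟨C, hC, hA⟩ := h
  refine ⟨(C + 1) ^ 2, by positivity, ?_⟩
  intro d σ Λ₁ Λ₂ E a b c e i j V
  have hc1 : ENNReal.ofReal C ≤ ENNReal.ofReal ((C + 1) ^ 2) := by
    apply ENNReal.ofReal_le_ofReal
    nlinarith
  have hc2 : ENNReal.ofReal C * ENNReal.ofReal C ≤ ENNReal.ofReal ((C + 1) ^ 2) := by
    rw [← ENNReal.ofReal_mul hC.le]
    apply ENNReal.ofReal_le_ofReal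
    nlinarith
  have m1 := measurable_pg (d := d) Λ₁ E a b
  have m2 := measurable_pg (d := d) Λ₂ E c e
  by_cases hij : i = j
  · subst hij
    rw [Finset.insert_eq_of_mem (Finset.mem_singleton_self i), lmarginal_singleton,
      lmarginal_singleton, lmarginal_singleton]
    have r1 := rh1 hA σ V Λ₁ E a b i
    have r2 := rh1 hA σ V Λ₂ E c e i
    have h1 := csn (m1.comp (measurable_update V)) (m2.comp (measurable_update V)) r1 r2
    refine le_trans h1 ?_
    rw [mul_assoc]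
    exact mul_le_mul_left hc1 _
  · rw [lmarg2 (F := fun V => pg Λ₁ E a b V * pg Λ₂ E c e V) (m1.mul m2) hij, lmarg2 m1 hij,
      lmarg2 m2 hij]
    have hu := measurable_upd2 V i j
    have hcomm : ∀ s t : ℝ, update (update V i s) j t = update (update V j t) i s :=
      fun s t => update_comm (fun h => hij h) s t V
    have t1 := two_var (ν := gl σ) (m1.comp hu) (C := ENNReal.ofReal C)
      (fun s => rh1 hA σ (update V i s) Λ₁ E a b j)
      (fun t => by
        have := rh1 hA σ (update V j t) Λ₁ E a b i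
        simp only [comp_apply, hcomm]
        exact this)
    have t2 := two_var (ν := gl σ) (m2.comp hu) (C := ENNReal.ofReal C)
      (fun s => rh1 hA σ (update V i s) Λ₂ E c e j)
      (fun t => by
        have := rh1 hA σ (update V j t) Λ₂ E c e i
        simp only [comp_apply, hcomm]
        exact this)
    have q1 : ∫⁻ z, ((pg Λ₁ E a b ∘ fun z : ℝ × ℝ => update (update V i z.1) j z.2) z) ^ 2
        ∂((gl σ).prod (gl σ)) ≤ ENNReal.ofReal C * ENNReal.ofReal C *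
          (∫⁻ s, ∫⁻ t, pg Λ₁ E a b (update (update V i s) j t) ∂(gl σ) ∂(gl σ)) ^ 2 := by
      rw [lintegral_prod _ ((m1.comp hu).pow_const 2).aemeasurable]
      exact t1
    have q2 : ∫⁻ z, ((pg Λ₂ E c e ∘ fun z : ℝ × ℝ => update (update V i z.1) j z.2) z) ^ 2
        ∂((gl σ).prod (gl σ)) ≤ ENNReal.ofReal C * ENNReal.ofReal C *
          (∫⁻ s, ∫⁻ t, pg Λ₂ E c e (update (update V i s) j t) ∂(gl σ) ∂(gl σ)) ^ 2 := by
      rw [lintegral_prod _ ((m2.comp hu).pow_const 2).aemeasurable]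
      exact t2
    have h1 := csn (m1.comp hu) (m2.comp hu) q1 q2
    refine le_trans (le_of_eq (lintegral_prod (fun z : ℝ × ℝ =>
      pg Λ₁ E a b (update (update V i z.1) j z.2) * pg Λ₂ E c e (update (update V i z.1) j z.2))
      ((m1.comp hu).mul (m2.comp hu)).aemeasurable).symm) ?_
    refine le_trans h1 ?_
    rw [mul_assoc]
    exact mul_le_mul_left hc2 _

end Pool.Agent.Mob.H85
end
end -- Pool.Agent.Helper85_Mob.Dec

section -- Pool.Agent.Helper42_Mob.Ass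

/-!
# Metal-insulator transport transition: all modules together
-/

set_option autoImplicit false

namespace Pool.Agent.Mob

theorem gzbT : GzbStmt := H11.gzb
theorem wegT : WegStmt := H31.weg gzbT
theorem celT : CelStmt := H75.cel gzbT (H42.hol gzbT) wegT (H65.fvl gzbT) H32.ptw H25.shf
theorem annT : AnnStmt := H98.ann H94.ana H94.anb
theorem iniT : IniStmt := H5.ini celT annT
theorem decT : DecStmt := H85.dec H85.aff
theorem blkT : BlkStmt := H33.blk (H64.ret decT H58.geo)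

theorem mainT.{u} : H42.MainStmt.{u} :=
  H42.main iniT blkT H32.lrg H58.edg H58.bdc H75.tbx (H6.sep wegT) H48.dcy
    (H46.cmp (H98.dic H32.nrm) H48.cen) H28.tim

end Pool.Agent.Mob
end -- Pool.Agent.Helper42_Mob.Ass

section -- Pool.Agent.Helper42_Mob.Ass2

/-!
# Metal-insulator transport transition: the second version
-/

set_option autoImplicit false

namespace Pool.Agent.Mob

theorem hl2T : Hl2Stmt := H42.hl2 gzbT
theorem fv2T : Fv2Stmt := H65.fv2 gzbT
theorem ce2T : Ce2Stmt := H81.ce2 hl2T fv2T wegT H25.shf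
theorem ce3T : Ce3Stmt := H29.ce3 ce2T H21.kst
theorem in2T : In2Stmt := H17.in2 ce3T annT

theorem main2T.{u} : H42.MainStmt2.{u} :=
  H42.main2 in2T blkT H32.lrg H58.edg H58.bdc H75.tbx (H6.sep wegT) H48.dcy
    (H46.cmp (H98.dic H32.nrm) H48.cen) H28.tim

end Pool.Agent.Mob
end -- Pool.Agent.Helper42_Mob.Ass2

section -- Pool.Agent.Helper42_Mob.Ass3

/-!
# Metal-insulator transport transition: all modules, with dynamical localization
-/

set_option autoImplicit false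

namespace Pool.Agent.Mob

theorem cthT : CthStmt := H69.cth
theorem afvT : AfvStmt := H76.afv cthT gzbT
theorem dlbT : DlbStmt := H42.dlb H47.exp_
theorem insT : InsStmt := H69.ins H47.tbp H32.tot cthT afvT dlbT

theorem main3T.{u} : H42.MainStmt3.{u} :=
  H42.main3 in2T blkT H32.lrg H58.edg H58.bdc H75.tbx (H6.sep wegT) H48.dcy
    (H46.cmp (H98.dic H32.nrm) H48.cen) H28.tim H25.shf insT

end Pool.Agent.Mob
end -- Pool.Agent.Helper42_Mob.Ass3

section -- Pool.Agent.Helper93_LE.Fin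

/-!
# The zero-one law at every energy: assembly for `LocSet`
-/

set_option autoImplicit false
set_option linter.unusedSectionVars false

open MeasureTheory ProbabilityTheory Function

open scoped ENNReal BigOperators ComplexInnerProductSpace

noncomputable section

namespace Pool.Agent.LE.H93

open Pool.Agent.Anderson Pool.Agent.Loc Pool.Agent.Helper54.Bal Pool.Agent.Mob
  Pool.Agent.Mob.H42

variable {d : ℕ}

/-- the probability of decay at the rate `κ` in the cube of radius `L` -/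
def pr (d : ℕ) (σ E κ : ℝ) (L : ℕ) : ℝ≥0∞ := PP d (gl σ) {V | SG V L κ E 0}

/-- the set of energies at which the probability of decay does not tend to `0`, for some rate -/
def LocP (d : ℕ) (σ : ℝ) : Set ℝ :=
  {E | ∃ κ : ℝ, 0 < κ ∧ 0 < Filter.liminf (pr d σ E κ) Filter.atTop}

theorem liminf_zero (hZer : ZerStmt) {C₀ σ E κ : ℝ} (hd : 1 ≤ d) (hC₀ : 0 < C₀) (hσ : σ ≠ 0)
    (hE : E ∉ LocSet d C₀ σ) (hκ : 0 < κ) :
    Filter.liminf (pr d σ E κ) Filter.atTop = 0 := by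
  rw [← nonpos_iff_eq_zero]
  refine le_of_forall_gt_imp_ge_of_dense fun δ hδ => ?_
  rcases eq_or_ne δ ⊤ with rfl | hδt
  · exact le_top
  have h1 : 0 < δ.toReal := ENNReal.toReal_pos hδ.ne' hδt
  refine Filter.liminf_le_of_frequently_le' ?_
  rw [Filter.frequently_atTop]
  intro L₁
  obtain ⟨L, hL, h⟩ := hZer d C₀ σ E κ δ.toReal hd hC₀ hσ hE hκ h1 L₁
  rw [ENNReal.ofReal_toReal hδt] at h
  exact ⟨L, hL, h.le⟩

theorem meas_SG (L : ℕ) (κ E : ℝ) (v : Site d) :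
    MeasurableSet {V : Site d → ℝ | SG V L κ E v} := by
  have h1 : {V : Site d → ℝ | SG V L κ E v} = {V : Site d → ℝ | (RM V (box v L) E).det ≠ 0} ∩
      ⋂ u : {u : Site d // sd v u = L}, {V : Site d → ℝ | |gr V (box v L) E v u| ≤
        Real.exp (-κ * L)} := by
    ext V
    simp only [SG, Set.mem_inter_iff, Set.mem_iInter, Subtype.forall]
    rfl
  rw [h1]
  refine MeasurableSet.inter ?_ (MeasurableSet.iInter fun u => ?_)
  · exact (continuous_det (box v L) E).measurable (measurableSet_singleton 0).compl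
  · exact measurableSet_le (measurable_gr _ _ _ _).abs measurable_const

theorem pr_lower (hCnv : CnvStmt) {C₀ σ E : ℝ} (hd : 1 ≤ d) (hC₀ : 0 < C₀) (hσ : σ ≠ 0)
    (hB : BlkAt d C₀ σ) (hE : E ∈ LocSet d C₀ σ) :
    ∃ (κ c : ℝ) (L₀ : ℕ), 0 < κ ∧ 0 < c ∧ ∀ L : ℕ, L₀ ≤ L →
      1 - pr d σ E κ L ≤ ENNReal.ofReal (Real.exp (-c * L)) := by
  obtain ⟨κ, c, L₀, h1, h2, h⟩ := hCnv d C₀ σ E hd hC₀ hσ hB hE
  refine ⟨κ, c, L₀, h1, h2, fun L hL => ?_⟩
  refine le_trans (le_of_eq ?_) (h L hL)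
  have h3 : {V : Site d → ℝ | ¬ SG V L κ E 0} = {V : Site d → ℝ | SG V L κ E 0}ᶜ := rfl
  rw [h3, prob_compl_eq_one_sub (meas_SG L κ E 0)]
  rfl

theorem pos_of_lower {σ E κ c : ℝ} {L₀ : ℕ} (hc : 0 < c) (h : ∀ L : ℕ, L₀ ≤ L →
    1 - pr d σ E κ L ≤ ENNReal.ofReal (Real.exp (-c * L))) :
    0 < Filter.liminf (pr d σ E κ) Filter.atTop := by
  have h1 : Filter.Tendsto (fun L : ℕ => Real.exp (-c * L)) Filter.atTop (nhds 0) := by
    have h2 : Filter.Tendsto (fun L : ℕ => -c * (L : ℝ)) Filter.atTop Filter.atBot :=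
      tendsto_natCast_atTop_atTop.const_mul_atTop_of_neg (by linarith)
    exact Real.tendsto_exp_atBot.comp h2
  have h3 : ∀ᶠ L : ℕ in Filter.atTop, (1 / 2 : ℝ≥0∞) ≤ pr d σ E κ L := by
    filter_upwards [h1.eventually_lt_const (show (0 : ℝ) < 1 / 2 by norm_num),
      Filter.eventually_ge_atTop L₀] with L hL hL0
    have h4 := h L hL0
    have h5 : ENNReal.ofReal (Real.exp (-c * L)) ≤ 1 / 2 := by
      calc ENNReal.ofReal (Real.exp (-c * L)) ≤ ENNReal.ofReal (1 / 2) :=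
            ENNReal.ofReal_le_ofReal hL.le
        _ = 1 / 2 := by
            rw [ENNReal.ofReal_div_of_pos (by norm_num)]
            simp
    have h6 : (1 : ℝ≥0∞) ≤ 1 / 2 + pr d σ E κ L := by
      have h7 : (1 : ℝ≥0∞) ≤ ENNReal.ofReal (Real.exp (-c * L)) + pr d σ E κ L :=
        tsub_le_iff_right.1 h4
      exact h7.trans (add_le_add h5 le_rfl)
    by_contra hcon
    rw [not_le] at hcon
    have h8 : (1 / 2 : ℝ≥0∞) + pr d σ E κ L < 1 / 2 + 1 / 2 :=
      ENNReal.add_lt_add_left (by simp) hcon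
    rw [ENNReal.add_halves] at h8
    exact absurd h6 (not_le.2 h8)
  have h9 : (1 / 2 : ℝ≥0∞) ≤ Filter.liminf (pr d σ E κ) Filter.atTop :=
    Filter.le_liminf_of_le (by isBoundedDefault) h3
  exact lt_of_lt_of_le (by simp) h9

theorem locP_eq (hZer : ZerStmt) (hCnv : CnvStmt) {C₀ σ : ℝ} (hd : 1 ≤ d) (hC₀ : 0 < C₀)
    (hσ : σ ≠ 0) (hB : BlkAt d C₀ σ) : LocP d σ = LocSet d C₀ σ := by
  ext E
  constructor
  · rintro ⟨κ, hκ, h⟩
    by_contra hE
    rw [liminf_zero hZer hd hC₀ hσ hE hκ] at h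
    exact lt_irrefl _ h
  · intro hE
    obtain ⟨κ, c, L₀, h1, h2, h⟩ := pr_lower hCnv hd hC₀ hσ hB hE
    exact ⟨κ, h1, pos_of_lower h2 h⟩

/-- the statement of the theorem -/
def MainZ.{u} : Prop :=
  ∀ d : ℕ, 1 ≤ d → ∃ σ₁ C : ℝ, 0 < σ₁ ∧ 0 < C ∧ ∀ σ : ℝ, σ ≠ 0 →
    (∀ E : ℝ, (∀ κ : ℝ, 0 < κ → Filter.liminf (pr d σ E κ) Filter.atTop = 0) ∨
      ∃ (κ c : ℝ) (L₀ : ℕ), 0 < κ ∧ 0 < c ∧ ∀ L : ℕ, L₀ ≤ L →
        1 - pr d σ E κ L ≤ ENNReal.ofReal (Real.exp (-c * L))) ∧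
    IsOpen (LocP d σ) ∧ (σ₁ ≤ |σ| → LocP d σ = Set.univ) ∧
      (3 ≤ d → ∀ E : ℝ,
        2 * d + watson d * σ ^ 2 + C * |σ| ^ (2 + 1 / (24 * d : ℝ)) < |E| → E ∈ LocP d σ) ∧
      ∀ (Ω : Type u) [MeasurableSpace Ω] (P : Measure Ω) [IsProbabilityMeasure P]
        (ξ : Site d → Ω → ℝ), (∀ y, Measurable (ξ y)) →
        (∀ y, P.map (ξ y) = gaussianReal 0 1) → iIndepFun ξ P →
        (∀ K : Set ℝ, IsCompact K → K ⊆ LocP d σ → ∃ m : ℝ, 0 < m ∧ ∀ᵐ ω ∂P, ∀ E ∈ K,
          ∀ ψ : Site d → ℂ,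
            (∃ (B : ℝ) (k : ℕ), ∀ x, ‖ψ x‖ ≤ B * (1 + (sd 0 x : ℝ)) ^ k) →
            (∀ x, lap ψ x + ((σ * ξ x ω : ℝ) : ℂ) * ψ x = (E : ℂ) * ψ x) →
            ∃ B : ℝ, ∀ x, ‖ψ x‖ ≤ B * Real.exp (-m * sd 0 x)) ∧
        (∀ᵐ ω ∂P, ∀ c r : ℝ, Set.Icc (c - r) (c + r) ⊆ LocP d σ → ∀ u w : L2 d,
          (∀ x, w x = lap u x + ((σ * ξ x ω : ℝ) : ℂ) * u x) →
          (∀ (E : ℝ) (ψ : L2 d), E ∈ Set.Icc (c - r) (c + r) →
            IsEigen (fun x => σ * ξ x ω) E ψ → ⟪ψ, u⟫ = 0) →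
          r * ‖u‖ ≤ ‖w - (c : ℂ) • u‖) ∧
        (∀ a b β k : ℝ, Set.Icc a b ⊆ LocP d σ → 0 < β → ∃ T₀ : ℝ, ∀ T : ℝ, T₀ ≤ T →
          ∫⁻ ω, spread (fun x => σ * ξ x ω) T (T ^ β) (Set.Ioo a b) ∂P ≤
            ENNReal.ofReal (T ^ (-k))) ∧
        (∀ a b δ : ℝ, ¬ Set.Ioo a b ⊆ LocP d σ → 0 < δ → δ ≤ 1 → ∃ T₀ : ℝ, ∀ T : ℝ, T₀ ≤ T →
          ENNReal.ofReal (T ^ (-6 : ℝ)) ≤
            ∫⁻ ω, spread (fun x => σ * ξ x ω) T (T ^ (1 / ((d : ℝ) + δ))) (Set.Ioo a b) ∂P)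

theorem mainZ (hIni : In2Stmt) (hBlk : BlkStmt) (hLrg : LrgStmt) (hEdg : EdgStmt)
    (hBdc : BdcStmt) (hTbx : TbxStmt) (hSep : SepStmt) (hDcy : DcyStmt) (hCmp : CmpStmt)
    (hShf : ShfStmt) (hIns : InsStmt) (hZer : ZerStmt) (hCnv : CnvStmt) : MainZ := by
  intro d hd
  obtain ⟨C₀, hC₀, hB⟩ := hBlk d hd
  obtain ⟨σ₁, hσ₁, hL⟩ := hLrg d hd C₀ hC₀
  obtain ⟨C, hC, hE⟩ : ∃ C : ℝ, 0 < C ∧ (3 ≤ d → ∀ C₀ σ : ℝ, 0 < C₀ → σ ≠ 0 →
      ∃ L : ℕ, ∀ E : ℝ,
      2 * d + watson d * σ ^ 2 + C * |σ| ^ (2 + 1 / (24 * d : ℝ)) ≤ |E| → Crit d C₀ σ E L) := by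
    by_cases h3 : 3 ≤ d
    · obtain ⟨C, hC, h⟩ := hEdg d h3
      exact ⟨C, hC, fun _ => h⟩
    · exact ⟨1, one_pos, fun h => absurd h h3⟩
  refine ⟨σ₁, C, hσ₁, hC, fun σ hσ => ?_⟩
  rw [locP_eq hZer hCnv hd hC₀ hσ (hB σ hσ)]
  refine ⟨fun E => ?_, isOpen_LocSet d C₀ σ, ?_, ?_, ?_⟩
  · by_cases hEl : E ∈ LocSet d C₀ σ
    · exact Or.inr (pr_lower hCnv hd hC₀ hσ (hB σ hσ) hEl)
    · exact Or.inl fun κ hκ => liminf_zero hZer hd hC₀ hσ hEl hκ
  · intro h
    ext E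
    simp only [Set.mem_univ, iff_true]
    exact ⟨1, one_pos, 0, fun F _ => hL σ h F⟩
  · intro h3 E hEE
    obtain ⟨L, hLE⟩ := hE h3 C₀ σ hC₀ hσ
    set e := 2 * d + watson d * σ ^ 2 + C * |σ| ^ (2 + 1 / (24 * d : ℝ)) with he
    refine ⟨|E| - e, by linarith only [hEE], L, fun F hF => hLE F ?_⟩
    rw [Set.mem_Icc] at hF
    have h1 : |E| - |F| ≤ |E - F| := abs_sub_abs_le_abs_sub E F
    have h2 : |E - F| ≤ |E| - e := by
      rw [abs_le]
      constructor <;> linarith only [hF.1, hF.2]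
    linarith only [h1, h2]
  intro Ω _ P _ ξ hm hlaw hind
  obtain ⟨μ, hμ, hTB⟩ := exists_rate hBdc hTbx hd hC₀ hσ (hB σ hσ)
  refine ⟨?_, ?_, ?_, ?_⟩
  · intro K hK hKL
    obtain ⟨m, hm0, h⟩ := loc_compact hDcy hd hμ hTB hK hKL
    exact ⟨m, hm0, ae_transfer hm hlaw hind σ h⟩
  · exact ae_transfer hm hlaw hind σ (loc_complete hSep hCmp hd hσ hμ hTB)
  · intro a b β k hsub hβ
    obtain ⟨T₀, h⟩ := ins_compact hBdc hIns hd hC₀ hσ (hB σ hσ) hsub hβ k
    refine ⟨max T₀ 1, fun T hT => ?_⟩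
    have hT0 : 0 < T := lt_of_lt_of_le one_pos ((le_max_right _ _).trans hT)
    refine le_trans (le_of_eq ?_) (h T ((le_max_left _ _).trans hT))
    rw [← map_eq_PP hm hlaw hind σ]
    exact (lintegral_map (measurable_spread hShf (gl σ) hT0 (T ^ β) a b)
      (measurable_W hm σ)).symm
  · intro a b δ hab hδ hδ1
    obtain ⟨E₀, hE₀, hE₀'⟩ := Set.not_subset.1 hab
    obtain ⟨T₀, hT₀, h⟩ := hIni d hd C₀ σ hC₀ hσ δ a b E₀ hδ hδ1 hE₀.1 hE₀.2
    refine ⟨T₀, fun T hT => ?_⟩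
    by_contra hcon
    rw [not_le] at hcon
    apply hE₀'
    exact h T hT (lt_of_le_of_lt (lintegral_transfer hm hlaw hind σ
      (fun V => spread V T (T ^ (1 / ((d : ℝ) + δ))) (Set.Ioo a b))) hcon)

end Pool.Agent.LE.H93
end
end -- Pool.Agent.Helper93_LE.Fin

section -- Pool.Agent.Helper93_LEC.BESa

/-!
# BES: a cube in which all small cubes conduct is not insulating, lemmas
-/

set_option autoImplicit false
set_option linter.unusedSectionVars false

open MeasureTheory ProbabilityTheory Function Filter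

open scoped ENNReal BigOperators Topology

noncomputable section

namespace Pool.Agent.LE.H93C

open Pool.Agent.Anderson Pool.Agent.Loc Pool.Agent.Mob Pool.Agent.Helper54.Bal

variable {d : ℕ}

theorem measurable_DL (Λ : Finset (Site d)) (E : ℝ) (x y : Site d) :
    Measurable fun V : Site d → ℝ => DL Λ E V x y := by
  unfold DL
  exact (Real.measurable_log.comp (measurable_gr Λ E x y).abs).neg

theorem measurable_mx (N : ℕ) (E : ℝ) (c : Site d) (n : ℕ) :
    Measurable fun V : Site d → ℝ => mx V N E c n :=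
  Pool.Agent.LY.measurable_fsup _ fun s => (measurable_DL (box 0 N) E c s).ennreal_ofReal

theorem mx_ne_top (V : Site d → ℝ) (N : ℕ) (E : ℝ) (c : Site d) (n : ℕ) : mx V N E c n ≠ ∞ := by
  unfold mx
  refine ne_of_lt ?_
  rw [Finset.sup_lt_iff (by simp)]
  exact fun s _ => ENNReal.ofReal_lt_top

theorem DL_le_mx (V : Site d → ℝ) (N : ℕ) (E : ℝ) {c x : Site d} {n : ℕ} (hx : x ∈ box c n) :
    DL (box 0 N) E V c x ≤ (mx V N E c n).toReal := by
  have h1 : ENNReal.ofReal (DL (box 0 N) E V c x) ≤ mx V N E c n :=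
    Finset.le_sup (f := fun s => ENNReal.ofReal (DL (box 0 N) E V c s)) hx
  have h2 := ENNReal.toReal_mono (mx_ne_top V N E c n) h1
  refine le_trans ?_ h2
  rcases le_total 0 (DL (box 0 N) E V c x) with h0 | h0
  · rw [ENNReal.toReal_ofReal h0]
  · exact h0.trans ENNReal.toReal_nonneg

theorem DL_symm (Λ : Finset (Site d)) (E : ℝ) (V : Site d → ℝ) (x y : Site d) :
    DL Λ E V x y = DL Λ E V y x := by
  unfold DL
  rw [gr_symm]

/-- Markov inequality for a sum of non-negative functions -/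
theorem markov_sum {Ω : Type*} [MeasurableSpace Ω] {P : Measure Ω} {ι : Type*} (S : Finset ι)
    {f : ι → Ω → ℝ≥0∞} (hf : ∀ i ∈ S, Measurable (f i)) {c T : ℝ≥0∞} (hc : ∀ i ∈ S, ∫⁻ ω, f i ω ∂P ≤ c)
    (hT : T ≠ 0) (hT' : T ≠ ∞) (h : 4 * (S.card * c) ≤ T) :
    P {ω | T ≤ ∑ i ∈ S, f i ω} ≤ ENNReal.ofReal (1 / 4) := by
  have h1 : ∫⁻ ω, ∑ i ∈ S, f i ω ∂P ≤ S.card * c := by
    rw [lintegral_finsetSum _ hf]
    refine (Finset.sum_le_sum hc).trans (le_of_eq ?_)
    rw [Finset.sum_const, nsmul_eq_mul]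
  have hm : Measurable fun ω => ∑ i ∈ S, f i ω := Finset.measurable_sum _ hf
  refine (meas_ge_le_lintegral_div hm.aemeasurable hT hT').trans ?_
  rw [ENNReal.div_le_iff hT hT']
  refine h1.trans ?_
  have h2 : ENNReal.ofReal (1 / 4) * 4 = 1 := by
    have e : (4 : ℝ≥0∞) = ENNReal.ofReal 4 := by simp
    rw [e, ← ENNReal.ofReal_mul (by norm_num)]
    norm_num
  calc (S.card : ℝ≥0∞) * c = (ENNReal.ofReal (1 / 4) * 4) * (S.card * c) := by rw [h2, one_mul]
    _ = ENNReal.ofReal (1 / 4) * (4 * (S.card * c)) := by rw [mul_assoc]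
    _ ≤ _ := mul_le_mul' le_rfl h

theorem sm_sub_apply (s : ℕ) (a k : Site d) (i : Fin d) : (a + sm s k) i = a i + s * k i := by
  simp only [Pi.add_apply, sm]

theorem abs_le_sd (x y : Site d) (i : Fin d) : |x i - y i| ≤ (sd x y : ℤ) :=
  sd_le_iff.1 le_rfl i

/-- the numbers of the mesh -/
theorem mesh {L L' M s n : ℕ} (hs : s = L' / (4 * M + 4)) (hn : n = L / s) (hs1 : 1 ≤ s)
    (hL : L' ≤ L) : 4 * M * s ≤ L' ∧ s * n ≤ L ∧ L + 1 ≤ s * (n + 1) ∧ 4 * M + 4 ≤ n ∧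
      s * (n + 4 * M + 3) ≤ 2 * L := by
  have h1 : s * (4 * M + 4) ≤ L' := by
    rw [hs]
    exact Nat.div_mul_le_self _ _
  have h2 : s * n ≤ L := by
    rw [hn, mul_comm]
    exact Nat.div_mul_le_self _ _
  have h3 : L < s * (n + 1) := by
    rw [hn]
    exact Nat.lt_mul_div_succ L (by omega)
  have h4 : 4 * M + 4 ≤ n := by
    rw [hn, Nat.le_div_iff_mul_le (by omega)]
    have : (4 * M + 4) * s = s * (4 * M + 4) := by ring
    omega
  have h5 : s * (n + 4 * M + 3) = s * n + s * (4 * M + 4) - s := by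
    have : s * (n + 4 * M + 3) + s = s * n + s * (4 * M + 4) := by ring
    omega
  have h6 : 4 * M * s ≤ s * (4 * M + 4) := by nlinarith only [hs1]
  refine ⟨by omega, h2, by omega, h4, by omega⟩

/-- for large `L` the polynomial factor is small -/
theorem exists_large (d : ℕ) {τ : ℝ} (hτ : 0 < τ) : ∃ L₀ : ℕ, ∀ L : ℕ, L₀ ≤ L →
    1 + 2 * (d : ℝ) * (2 * L + 1) ^ d ≤ Real.exp (τ * L) := by
  have h1 : Tendsto (fun x : ℝ => Real.exp x / x ^ (d + 1)) atTop atTop :=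
    Real.tendsto_exp_div_pow_atTop (d + 1)
  have h2 : Tendsto (fun L : ℕ => τ * (L : ℝ)) atTop atTop :=
    Tendsto.const_mul_atTop hτ tendsto_natCast_atTop_atTop
  have h3 := (h1.comp h2).eventually_ge_atTop ((1 + 2 * (d : ℝ)) * 3 ^ d / τ ^ (d + 1))
  obtain ⟨L₁, hL₁⟩ := eventually_atTop.1 h3
  refine ⟨max L₁ 1, fun L hL => ?_⟩
  have h4 := hL₁ L ((le_max_left _ _).trans hL)
  have hL1 : (1 : ℝ) ≤ L := by exact_mod_cast (le_max_right L₁ 1).trans hL
  simp only [Function.comp] at h4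
  rw [div_le_div_iff₀ (by positivity) (by positivity)] at h4
  have h5 : (0 : ℝ) < τ ^ (d + 1) := by positivity
  have h6 : (1 + 2 * (d : ℝ)) * 3 ^ d * (L : ℝ) ^ (d + 1) ≤ Real.exp (τ * L) := by
    have h7 : (1 + 2 * (d : ℝ)) * 3 ^ d * (τ * L) ^ (d + 1) =
        ((1 + 2 * (d : ℝ)) * 3 ^ d * (L : ℝ) ^ (d + 1)) * τ ^ (d + 1) := by
      rw [mul_pow]
      ring
    rw [h7] at h4
    exact le_of_mul_le_mul_right h4 h5
  refine le_trans ?_ h6
  have h8 : (2 * (L : ℝ) + 1) ^ d ≤ 3 ^ d * (L : ℝ) ^ d := by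
    rw [← mul_pow]
    exact pow_le_pow_left₀ (by positivity) (by linarith only [hL1]) d
  have h9 : (L : ℝ) ^ d ≤ (L : ℝ) ^ (d + 1) := pow_le_pow_right₀ hL1 (by omega)
  have h10 : (1 : ℝ) ≤ 3 ^ d * (L : ℝ) ^ (d + 1) := by
    have := one_le_pow₀ (n := d) (by norm_num : (1 : ℝ) ≤ 3)
    have := one_le_pow₀ (n := d + 1) hL1
    nlinarith
  have hd0 : (0 : ℝ) ≤ d := Nat.cast_nonneg d
  have h11 : (3 : ℝ) ^ d * (L : ℝ) ^ d ≤ 3 ^ d * (L : ℝ) ^ (d + 1) :=
    mul_le_mul_of_nonneg_left h9 (by positivity)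
  calc 1 + 2 * (d : ℝ) * (2 * L + 1) ^ d
      ≤ 3 ^ d * (L : ℝ) ^ (d + 1) + 2 * d * (3 ^ d * (L : ℝ) ^ (d + 1)) := by
        have := mul_le_mul_of_nonneg_left (h8.trans h11) (by positivity : (0 : ℝ) ≤ 2 * d)
        linarith
    _ = _ := by ring

/-- the conducting point, in terms of `D` -/
theorem conduct_DL {d : ℕ} {Λ : Finset (Site d)} {E κ t : ℝ} {V : Site d → ℝ} {b v : Site d} {L : ℕ}
    (ht : 0 ≤ t)
    (hp : 1 + 2 * (d : ℝ) * (2 * L + 1) ^ d ≤ Real.exp t)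
    (h : Real.exp (-κ * L) ≤ (1 + 2 * d * (2 * L + 1) ^ d * Real.exp t) ^ 2 * |gr V Λ E b v|) :
    DL Λ E V b v ≤ κ * L + 4 * t := by
  have h1 : 1 + 2 * (d : ℝ) * (2 * L + 1) ^ d * Real.exp t ≤ Real.exp (2 * t) := by
    have h2 : 1 + 2 * (d : ℝ) * (2 * L + 1) ^ d * Real.exp t ≤
        (1 + 2 * (d : ℝ) * (2 * L + 1) ^ d) * Real.exp t := by
      have := Real.one_le_exp ht
      nlinarith only [this]
    refine h2.trans ?_
    rw [show 2 * t = t + t by ring, Real.exp_add]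
    exact mul_le_mul_of_nonneg_right hp (Real.exp_pos t).le
  have h2 : (1 + 2 * (d : ℝ) * (2 * L + 1) ^ d * Real.exp t) ^ 2 ≤ Real.exp (4 * t) := by
    rw [show 4 * t = 2 * t + 2 * t by ring, Real.exp_add, ← pow_two]
    exact pow_le_pow_left₀ (by positivity) h1 2
  have h3 : Real.exp (-κ * L) ≤ Real.exp (4 * t) * |gr V Λ E b v| :=
    h.trans (mul_le_mul_of_nonneg_right h2 (abs_nonneg _))
  have h4 : 0 < |gr V Λ E b v| := by
    by_contra hc
    have h5 : |gr V Λ E b v| = 0 := le_antisymm (not_lt.1 hc) (abs_nonneg _)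
    rw [h5, mul_zero] at h3
    exact absurd (Real.exp_pos _) (not_lt.2 h3)
  have h5 := Real.log_le_log (Real.exp_pos _) h3
  rw [Real.log_mul (Real.exp_pos _).ne' h4.ne', Real.log_exp, Real.log_exp] at h5
  unfold DL
  linarith

end Pool.Agent.LE.H93C
end
end -- Pool.Agent.Helper93_LEC.BESa

section -- Pool.Agent.Helper96_LE.Lsc

/-!
# LSC: the Lyapunov exponent is a lower semicontinuous function of the energy
-/

set_option autoImplicit false
set_option linter.unusedSectionVars false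

open MeasureTheory ProbabilityTheory Function Filter

open scoped ENNReal BigOperators Topology

noncomputable section

namespace Pool.Agent.LE.H96

open Pool.Agent.Anderson Pool.Agent.Loc Pool.Agent.Mob Pool.Agent.Helper54.Bal

variable {d : ℕ}

theorem continuous_RM_E (V : Site d → ℝ) (Λ : Finset (Site d)) :
    Continuous fun E : ℝ => RM V Λ E := by
  apply continuous_matrix
  intro x y
  simp only [RM, HM, Matrix.sub_apply, Matrix.smul_apply, Matrix.of_apply, smul_eq_mul]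
  fun_prop

theorem continuous_det_E (V : Site d → ℝ) (Λ : Finset (Site d)) :
    Continuous fun E : ℝ => (RM V Λ E).det := (continuous_RM_E V Λ).matrix_det

theorem continuousAt_gr_E (V : Site d → ℝ) (Λ : Finset (Site d)) {E : ℝ}
    (hE : (RM V Λ E).det ≠ 0) (x y : Site d) : ContinuousAt (fun E : ℝ => gr V Λ E x y) E := by
  by_cases h : x ∈ Λ ∧ y ∈ Λ
  · simp_rw [gr_eq_adj h.1 h.2]
    apply ContinuousAt.mul
    · exact (continuous_det_E V Λ).continuousAt.inv₀ hE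
    · have h1 : Continuous fun E : ℝ => (RM V Λ E).adjugate :=
        (continuous_RM_E V Λ).matrix_adjugate
      exact (h1.matrix_elem _ _).continuousAt
  · have : (fun E : ℝ => gr V Λ E x y) = fun _ => 0 := by
      funext E
      unfold gr
      rw [dif_neg h]
    rw [this]
    exact continuousAt_const

theorem open_allGood {V : Site d → ℝ} {L : ℕ} {κ κ' E : ℝ} (hL : 1 ≤ L) (hκ : κ' < κ)
    (h : AllGoodC V 0 L κ E) : ∀ᶠ F in 𝓝 E, AllGoodC V 0 L κ' F := by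
  unfold AllGoodC
  refine (Finset.eventually_all _).2 fun s hs => ?_
  obtain ⟨h1, h2⟩ := h s hs
  have hd : ∀ᶠ F in 𝓝 E, (RM V (box s L) F).det ≠ 0 :=
    (continuous_det_E V (box s L)).continuousAt.eventually_ne h1
  have hu : ∀ᶠ F in 𝓝 E, ∀ u ∈ box s L, sd s u = L →
      |gr V (box s L) F s u| ≤ Real.exp (-κ' * L) := by
    refine (Finset.eventually_all _).2 fun u _ => ?_
    by_cases hsu : sd s u = L
    · have hlt : |gr V (box s L) E s u| < Real.exp (-κ' * L) := by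
        refine (h2 u hsu).trans_lt (Real.exp_lt_exp.2 ?_)
        have : (1 : ℝ) ≤ L := by exact_mod_cast hL
        nlinarith only [hκ, this]
      have hc := (continuousAt_gr_E V (box s L) h1 s u).abs
      filter_upwards [hc.eventually_lt continuousAt_const hlt] with F hF _
      exact hF.le
    · exact Filter.Eventually.of_forall fun F hF => absurd hF hsu
  filter_upwards [hd, hu] with F hF1 hF2
  exact ⟨hF1, fun u hsu => hF2 u (mem_box.2 hsu.le) hsu⟩

/-- the finite volume condition is stable under small changes of the energy -/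
theorem stable {σ E κ κ' p p' : ℝ} {L : ℕ} (hL : 1 ≤ L) (hκ : κ' < κ) (hp : 0 ≤ p)
    (hpp : p < p')
    (h : PP d (gl σ) {V | ¬ AllGoodC V 0 L κ E} ≤ ENNReal.ofReal p) :
    ∀ᶠ F in 𝓝 E, PP d (gl σ) {V | ¬ AllGoodC V 0 L κ' F} ≤ ENNReal.ofReal p' := by
  by_contra hcon
  have hfr : ∃ᶠ F in 𝓝 E, ¬ PP d (gl σ) {V | ¬ AllGoodC V 0 L κ' F} ≤ ENNReal.ofReal p' :=
    Filter.not_eventually.1 hcon
  obtain ⟨F, hF, hFp⟩ := exists_seq_forall_of_frequently hfr
  set A : ℕ → Set (Site d → ℝ) := fun n => {V | ¬ AllGoodC V 0 L κ' (F n)} with hA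
  have hAm : ∀ n, MeasurableSet (A n) := fun n => (H3A.measurableSet_allGoodC L κ' (F n) 0).compl
  set B : ℕ → Set (Site d → ℝ) := fun n => ⋃ k, A (n + k) with hB
  have hBm : ∀ n, MeasurableSet (B n) := fun n => MeasurableSet.iUnion fun k => hAm _
  have hanti : Antitone B := by
    intro n m hnm V hV
    simp only [hB, Set.mem_iUnion] at hV ⊢
    obtain ⟨k, hk⟩ := hV
    refine ⟨m - n + k, ?_⟩
    have e : n + (m - n + k) = m + k := by omega
    rw [e]
    exact hk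
  have hlim := tendsto_measure_iInter_atTop (μ := PP d (gl σ))
    (fun n => (hBm n).nullMeasurableSet) hanti ⟨0, measure_ne_top _ _⟩
  have hsub : (⋂ n, B n) ⊆ {V | ¬ AllGoodC V 0 L κ E} := by
    intro V hV hgood
    have h1 := hF.eventually (open_allGood hL hκ hgood)
    obtain ⟨n, hn⟩ := eventually_atTop.1 h1
    have h2 := Set.mem_iInter.1 hV n
    simp only [hB, Set.mem_iUnion] at h2
    obtain ⟨k, hk⟩ := h2
    exact hk (hn (n + k) (by omega))
  have h3 : ENNReal.ofReal p' ≤ PP d (gl σ) (⋂ n, B n) := by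
    refine ge_of_tendsto' hlim fun n => ?_
    have h4 : ENNReal.ofReal p' < PP d (gl σ) (A n) := not_le.1 (hFp n)
    refine h4.le.trans (measure_mono ?_)
    intro V hV
    simp only [hB, Set.mem_iUnion]
    exact ⟨0, hV⟩
  have h5 := h3.trans ((measure_mono hsub).trans h)
  rw [ENNReal.ofReal_le_ofReal_iff hp] at h5
  linarith only [hpp, h5]

/-- LSC -/
theorem lsc (smp : SmpStmt) (smn : SmnStmt) (alg : AlgStmt) (d : ℕ) (σ : ℝ) (γ : ℝ → ℝ)
    (hd : 1 ≤ d) (hσ : σ ≠ 0) (hγ : ∀ E, LyaAt d σ E (γ E)) : LowerSemicontinuous γ := by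
  intro E₀ y hy
  by_cases hy0 : y < 0
  · exact Filter.Eventually.of_forall fun E => hy0.trans_le (hγ E).1
  push Not at hy0
  set η := (γ E₀ - y) / 4 with hη
  have hη0 : 0 < η := by rw [hη]; linarith only [hy]
  have hν := bddDens_gl hσ
  obtain ⟨p₀, hp₀, L₀, hsmn⟩ := smn d (1 / |σ|) (γ E₀ - 2 * η) η 1 hd (by positivity) hη0
    (by rw [hη]; linarith only [hy, hy0])
  have h1 := alg d σ E₀ (γ E₀) η hd hσ (hγ E₀) hη0
  obtain ⟨L₂, hL₂⟩ := eventually_atTop.1 (ENNReal.tendsto_nhds_zero.1 h1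
    (ENNReal.ofReal (p₀ / 2)) (by
      rw [gt_iff_lt, ENNReal.ofReal_pos]
      positivity))
  set L := max 1 (max L₀ L₂) with hL
  obtain ⟨ℓ, μ, p, hℓ0, hμ0, hp0, hstep, L₁, hlast⟩ := hsmn L
    ((le_max_left _ _).trans (le_max_right _ _))
  have hst := stable (d := d) (σ := σ) (E := E₀) (κ := γ E₀ - η) (κ' := γ E₀ - 2 * η)
    (p := p₀ / 2) (p' := p₀) (L := L) (le_max_left _ _) (by linarith only [hη0]) (by positivity)
    (by linarith only [hp₀]) (hL₂ L ((le_max_right _ _).trans (le_max_right _ _)))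
  filter_upwards [hst] with E hE
  by_contra hcon
  push Not at hcon
  have hk : ∀ k, PP d (gl σ) {V | ¬ AllGoodC V 0 (ℓ k) (μ k) E} ≤ ENNReal.ofReal (p k) := by
    intro k
    induction k with
    | zero =>
      rw [hℓ0, hμ0, hp0]
      exact hE
    | succ k ih =>
      exact H3R.stepN_apply smp (gl σ) hν E (hstep k).1 (hstep k).2.1 (hstep k).2.2 ih
  have hM : ∀ M : ℕ, L₁ ≤ M → PP d (gl σ) {V | ¬ SG V M (y + η) E 0} ≤
      ENNReal.ofReal ((M : ℝ) ^ (-(1 : ℝ))) := by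
    intro M hM
    obtain ⟨k, hs⟩ := hlast M hM
    have h2 := H3R.stepN_apply smp (gl σ) hν E (hstep k).1 (hstep k).2.1 hs (hk k)
    have e : γ E₀ - 2 * η - η = y + η := by rw [hη]; ring
    rw [e] at h2
    refine (measure_mono ?_).trans h2
    intro V hV hg
    exact hV (hg 0 (by rw [mem_box, sd_self]; exact Nat.zero_le _))
  have hη2 : 0 < y + η - γ E := by linarith only [hη0, hcon]
  have h3 := ((hγ E).2 _ hη2).1
  have e2 : γ E + (y + η - γ E) = y + η := by ring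
  rw [e2] at h3
  have h4 : Tendsto (fun M : ℕ => PP d (gl σ) {V | ¬ SG V M (y + η) E 0}) atTop (𝓝 0) := by
    have h5 : Tendsto (fun M : ℕ => ENNReal.ofReal ((M : ℝ) ^ (-(1 : ℝ)))) atTop (𝓝 0) := by
      have h6 : Tendsto (fun M : ℕ => (M : ℝ) ^ (-(1 : ℝ))) atTop (𝓝 0) :=
        (tendsto_rpow_neg_atTop one_pos).comp tendsto_natCast_atTop_atTop
      have h7 := ENNReal.tendsto_ofReal h6
      rwa [ENNReal.ofReal_zero] at h7
    refine tendsto_of_tendsto_of_tendsto_of_le_of_le' tendsto_const_nhds h5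
      (Filter.Eventually.of_forall fun M => zero_le) ?_
    filter_upwards [eventually_ge_atTop L₁] with M hM'
    exact hM M hM'
  have h5 := h3.add h4
  rw [add_zero] at h5
  have h6 : (1 : ℝ≥0∞) ≤ 0 := by
    refine ge_of_tendsto' h5 fun M => ?_
    rw [← measure_univ (μ := PP d (gl σ))]
    refine (measure_mono ?_).trans (measure_union_le _ _)
    intro V _
    by_cases hV : SG V M (y + η) E 0
    · exact Or.inl hV
    · exact Or.inr hV
  exact absurd h6 (by norm_num)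

end Pool.Agent.LE.H96
end
end -- Pool.Agent.Helper96_LE.Lsc

section -- Pool.Agent.Helper42_LE.Joint

/-!
# The Lyapunov exponent is lower semicontinuous jointly in the coupling constant and the energy
-/

set_option autoImplicit false
set_option linter.unusedSectionVars false

open MeasureTheory ProbabilityTheory Function Filter

open scoped ENNReal BigOperators Topology

noncomputable section

namespace Pool.Agent.LE.H42J

open Pool.Agent.Anderson Pool.Agent.Loc Pool.Agent.Mob Pool.Agent.Helper54.Bal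
  Pool.Agent.LE.H96

variable {d : ℕ}

/-- the law of a standard Gaussian family -/
def P1 (d : ℕ) : Measure (Site d → ℝ) := Measure.infinitePi fun _ : Site d => gaussianReal 0 1

instance : IsProbabilityMeasure (P1 d) := by unfold P1; infer_instance

/-- coupling of the laws for all coupling constants -/
theorem PP_eq (σ : ℝ) {A : Set (Site d → ℝ)} (hA : MeasurableSet A) :
    PP d (gl σ) A = P1 d {ξ | (fun y => σ * ξ y) ∈ A} := by
  have hm : ∀ y : Site d, Measurable fun ξ : Site d → ℝ => ξ y := fun y => measurable_pi_apply y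
  have hlaw : ∀ y : Site d, (P1 d).map (fun ξ => ξ y) = gaussianReal 0 1 := fun y =>
    (measurePreserving_eval_infinitePi (fun _ : Site d => gaussianReal 0 1) y).map_eq
  have hind : iIndepFun (fun (y : Site d) (ξ : Site d → ℝ) => ξ y) (P1 d) :=
    iIndepFun_infinitePi (P := fun _ : Site d => gaussianReal 0 1) (X := fun _ t => t)
      (fun _ => measurable_id)
  have h := Pool.Agent.Mob.H42.map_eq_PP hm hlaw hind σ
  rw [← h, Measure.map_apply (measurable_pi_iff.2 fun y => (hm y).const_mul σ) hA]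
  rfl

theorem continuous_RM_J (ξ : Site d → ℝ) (Λ : Finset (Site d)) :
    Continuous fun p : ℝ × ℝ => RM (fun y => p.1 * ξ y) Λ p.2 := by
  apply continuous_matrix
  intro x y
  simp only [RM, HM, Matrix.sub_apply, Matrix.smul_apply, Matrix.of_apply, smul_eq_mul]
  split_ifs <;> fun_prop

theorem continuous_det_J (ξ : Site d → ℝ) (Λ : Finset (Site d)) :
    Continuous fun p : ℝ × ℝ => (RM (fun y => p.1 * ξ y) Λ p.2).det :=
  (continuous_RM_J ξ Λ).matrix_det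

theorem continuousAt_gr_J (ξ : Site d → ℝ) (Λ : Finset (Site d)) {p : ℝ × ℝ}
    (hp : (RM (fun y => p.1 * ξ y) Λ p.2).det ≠ 0) (x y : Site d) :
    ContinuousAt (fun p : ℝ × ℝ => gr (fun y => p.1 * ξ y) Λ p.2 x y) p := by
  by_cases h : x ∈ Λ ∧ y ∈ Λ
  · simp_rw [gr_eq_adj h.1 h.2]
    apply ContinuousAt.mul
    · exact (continuous_det_J ξ Λ).continuousAt.inv₀ hp
    · have h1 : Continuous fun p : ℝ × ℝ => (RM (fun y => p.1 * ξ y) Λ p.2).adjugate :=
        (continuous_RM_J ξ Λ).matrix_adjugate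
      exact (h1.matrix_elem _ _).continuousAt
  · have : (fun p : ℝ × ℝ => gr (fun y => p.1 * ξ y) Λ p.2 x y) = fun _ => 0 := by
      funext p
      unfold gr
      rw [dif_neg h]
    rw [this]
    exact continuousAt_const

theorem open_allGood_J {ξ : Site d → ℝ} {L : ℕ} {κ κ' : ℝ} {p : ℝ × ℝ} (hL : 1 ≤ L)
    (hκ : κ' < κ) (h : AllGoodC (fun y => p.1 * ξ y) 0 L κ p.2) :
    ∀ᶠ q in 𝓝 p, AllGoodC (fun y => q.1 * ξ y) 0 L κ' q.2 := by
  unfold AllGoodC
  refine (Finset.eventually_all _).2 fun s hs => ?_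
  obtain ⟨h1, h2⟩ := h s hs
  have hd : ∀ᶠ q in 𝓝 p, (RM (fun y => q.1 * ξ y) (box s L) q.2).det ≠ 0 :=
    (continuous_det_J ξ (box s L)).continuousAt.eventually_ne h1
  have hu : ∀ᶠ q in 𝓝 p, ∀ u ∈ box s L, sd s u = L →
      |gr (fun y => q.1 * ξ y) (box s L) q.2 s u| ≤ Real.exp (-κ' * L) := by
    refine (Finset.eventually_all _).2 fun u _ => ?_
    by_cases hsu : sd s u = L
    · have hlt : |gr (fun y => p.1 * ξ y) (box s L) p.2 s u| < Real.exp (-κ' * L) := by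
        refine (h2 u hsu).trans_lt (Real.exp_lt_exp.2 ?_)
        have : (1 : ℝ) ≤ L := by exact_mod_cast hL
        nlinarith only [hκ, this]
      have hc := (continuousAt_gr_J ξ (box s L) h1 s u).abs
      filter_upwards [hc.eventually_lt continuousAt_const hlt] with F hF _
      exact hF.le
    · exact Filter.Eventually.of_forall fun F hF => absurd hF hsu
  filter_upwards [hd, hu] with F hF1 hF2
  exact ⟨hF1, fun u hsu => hF2 u (mem_box.2 hsu.le) hsu⟩

theorem meas_scale (σ : ℝ) {A : Set (Site d → ℝ)} (hA : MeasurableSet A) :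
    MeasurableSet {ξ : Site d → ℝ | (fun y => σ * ξ y) ∈ A} := by
  have h : Measurable fun ξ : Site d → ℝ => fun y => σ * ξ y :=
    measurable_pi_iff.2 fun y => by
      have h1 : Measurable fun ξ : Site d → ℝ => ξ y := measurable_pi_apply y
      exact h1.const_mul σ
  exact h hA

/-- the finite volume condition is stable under small changes of the energy and of the coupling
constant -/
theorem stable_J {κ κ' p p' : ℝ} {q₀ : ℝ × ℝ} {L : ℕ} (hL : 1 ≤ L) (hκ : κ' < κ) (hp : 0 ≤ p)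
    (hpp : p < p')
    (h : PP d (gl q₀.1) {V | ¬ AllGoodC V 0 L κ q₀.2} ≤ ENNReal.ofReal p) :
    ∀ᶠ q in 𝓝 q₀, PP d (gl q.1) {V | ¬ AllGoodC V 0 L κ' q.2} ≤ ENNReal.ofReal p' := by
  have hM : ∀ (κ E : ℝ), MeasurableSet {V : Site d → ℝ | ¬ AllGoodC V 0 L κ E} := fun κ E =>
    (H3A.measurableSet_allGoodC L κ E 0).compl
  by_contra hcon
  have hfr : ∃ᶠ q in 𝓝 q₀, ¬ PP d (gl q.1) {V | ¬ AllGoodC V 0 L κ' q.2} ≤
    ENNReal.ofReal p' := Filter.not_eventually.1 hcon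
  obtain ⟨F, hF, hFp⟩ := exists_seq_forall_of_frequently hfr
  set A : ℕ → Set (Site d → ℝ) := fun n =>
    {ξ | ¬ AllGoodC (fun y => (F n).1 * ξ y) 0 L κ' (F n).2} with hA
  have hAm : ∀ n, MeasurableSet (A n) := fun n => meas_scale (F n).1 (hM κ' (F n).2)
  set B : ℕ → Set (Site d → ℝ) := fun n => ⋃ k, A (n + k) with hB
  have hBm : ∀ n, MeasurableSet (B n) := fun n => MeasurableSet.iUnion fun k => hAm _
  have hanti : Antitone B := by
    intro n m hnm V hV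
    simp only [hB, Set.mem_iUnion] at hV ⊢
    obtain ⟨k, hk⟩ := hV
    refine ⟨m - n + k, ?_⟩
    have e : n + (m - n + k) = m + k := by omega
    rw [e]
    exact hk
  have hlim := tendsto_measure_iInter_atTop (μ := P1 d)
    (fun n => (hBm n).nullMeasurableSet) hanti ⟨0, measure_ne_top _ _⟩
  have hsub : (⋂ n, B n) ⊆ {ξ | ¬ AllGoodC (fun y => q₀.1 * ξ y) 0 L κ q₀.2} := by
    intro V hV hgood
    have h1 := hF.eventually (open_allGood_J hL hκ hgood)
    obtain ⟨n, hn⟩ := eventually_atTop.1 h1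
    have h2 := Set.mem_iInter.1 hV n
    simp only [hB, Set.mem_iUnion] at h2
    obtain ⟨k, hk⟩ := h2
    exact hk (hn (n + k) (by omega))
  have h3 : ENNReal.ofReal p' ≤ P1 d (⋂ n, B n) := by
    refine ge_of_tendsto' hlim fun n => ?_
    have h4 : ENNReal.ofReal p' < P1 d (A n) := by
      have := not_le.1 (hFp n)
      rwa [PP_eq _ (hM κ' (F n).2)] at this
    refine h4.le.trans (measure_mono ?_)
    intro V hV
    simp only [hB, Set.mem_iUnion]
    exact ⟨0, hV⟩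
  rw [PP_eq _ (hM κ q₀.2)] at h
  have h5 := h3.trans ((measure_mono hsub).trans h)
  rw [ENNReal.ofReal_le_ofReal_iff hp] at h5
  linarith only [hpp, h5]

theorem bdd_mono {ν : Measure ℝ} {ρ ρ' : ℝ} (h : BddDens ν ρ) (hρ : ρ ≤ ρ') : BddDens ν ρ' := by
  obtain ⟨h1, h2⟩ := h
  refine ⟨h1.trans_le hρ, fun a b => (h2 a b).trans ?_⟩
  by_cases hab : 0 ≤ b - a
  · exact ENNReal.ofReal_le_ofReal (mul_le_mul_of_nonneg_right hρ hab)
  · have : ρ * (b - a) ≤ 0 := mul_nonpos_of_nonneg_of_nonpos h1.le (by linarith)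
    rw [ENNReal.ofReal_of_nonpos this]
    exact zero_le

/-- joint lower semicontinuity -/
theorem lscJ (smp : SmpStmt) (smn : SmnStmt) (alg : AlgStmt) (d : ℕ) (γ : ℝ → ℝ → ℝ)
    (hd : 1 ≤ d) (hγ : ∀ σ, σ ≠ 0 → ∀ E, LyaAt d σ E (γ σ E)) (q₀ : ℝ × ℝ) (hq : q₀.1 ≠ 0) :
    LowerSemicontinuousAt (fun q : ℝ × ℝ => γ q.1 q.2) q₀ := by
  intro y hy
  have hnz : ∀ᶠ q in 𝓝 q₀, q.1 ≠ 0 := continuous_fst.continuousAt.eventually_ne hq
  by_cases hy0 : y < 0
  · filter_upwards [hnz] with q hq'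
    exact hy0.trans_le (hγ q.1 hq' q.2).1
  push Not at hy0
  simp only at hy
  set g : ℝ := γ q₀.1 q₀.2 with hg
  set η := (g - y) / 4 with hη
  have hη0 : 0 < η := by rw [hη]; linarith only [hy]
  have habs : 0 < |q₀.1| := abs_pos.2 hq
  obtain ⟨p₀, hp₀, L₀, hsmn⟩ := smn d (2 / |q₀.1|) (g - 2 * η) η 1 hd (by positivity) hη0
    (by rw [hη]; linarith only [hy0, hy])
  have h1 := alg d q₀.1 q₀.2 g η hd hq (hγ q₀.1 hq q₀.2) hη0
  obtain ⟨L₂, hL₂⟩ := eventually_atTop.1 (ENNReal.tendsto_nhds_zero.1 h1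
    (ENNReal.ofReal (p₀ / 2)) (by
      rw [gt_iff_lt, ENNReal.ofReal_pos]
      positivity))
  set L := max 1 (max L₀ L₂) with hL
  obtain ⟨ℓ, μ, p, hℓ0, hμ0, hp0, hstep, L₁, hlast⟩ := hsmn L
    ((le_max_left _ _).trans (le_max_right _ _))
  have hst := stable_J (d := d) (q₀ := q₀) (κ := g - η) (κ' := g - 2 * η)
    (p := p₀ / 2) (p' := p₀) (L := L) (le_max_left _ _) (by linarith only [hη0]) (by positivity)
    (by linarith only [hp₀]) (hL₂ L ((le_max_right _ _).trans (le_max_right _ _)))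
  have hbig : ∀ᶠ q in 𝓝 q₀, |q₀.1| / 2 < |q.1| :=
    (continuous_fst.abs.continuousAt (x := q₀)).eventually_const_lt (by
      show |q₀.1| / 2 < |q₀.1|
      linarith only [habs])
  filter_upwards [hst, hnz, hbig] with q hE hq' hb
  have hν : BddDens (gl q.1) (2 / |q₀.1|) := by
    refine bdd_mono (bddDens_gl hq') ?_
    have h0 : 0 < |q.1| := abs_pos.2 hq'
    rw [div_le_div_iff₀ h0 habs]
    linarith only [hb]
  by_contra hcon
  push Not at hcon
  have hk : ∀ k, PP d (gl q.1) {V | ¬ AllGoodC V 0 (ℓ k) (μ k) q.2} ≤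
      ENNReal.ofReal (p k) := by
    intro k
    induction k with
    | zero =>
      rw [hℓ0, hμ0, hp0]
      exact hE
    | succ k ih =>
      exact H3R.stepN_apply smp (gl q.1) hν q.2 (hstep k).1 (hstep k).2.1 (hstep k).2.2 ih
  have hM : ∀ M : ℕ, L₁ ≤ M → PP d (gl q.1) {V | ¬ SG V M (y + η) q.2 0} ≤
      ENNReal.ofReal ((M : ℝ) ^ (-(1 : ℝ))) := by
    intro M hM
    obtain ⟨k, hs⟩ := hlast M hM
    have h2 := H3R.stepN_apply smp (gl q.1) hν q.2 (hstep k).1 (hstep k).2.1 hs (hk k)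
    have e : g - 2 * η - η = y + η := by rw [hη]; ring
    rw [e] at h2
    refine (measure_mono ?_).trans h2
    intro V hV hg
    exact hV (hg 0 (by rw [mem_box, sd_self]; exact Nat.zero_le _))
  have hη2 : 0 < y + η - γ q.1 q.2 := by linarith only [hη0, hcon]
  have h3 := ((hγ q.1 hq' q.2).2 _ hη2).1
  have e2 : γ q.1 q.2 + (y + η - γ q.1 q.2) = y + η := by ring
  rw [e2] at h3
  have h4 : Tendsto (fun M : ℕ => PP d (gl q.1) {V | ¬ SG V M (y + η) q.2 0}) atTop (𝓝 0) := by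
    have h5 : Tendsto (fun M : ℕ => ENNReal.ofReal ((M : ℝ) ^ (-(1 : ℝ)))) atTop (𝓝 0) := by
      have h6 : Tendsto (fun M : ℕ => (M : ℝ) ^ (-(1 : ℝ))) atTop (𝓝 0) :=
        (tendsto_rpow_neg_atTop one_pos).comp tendsto_natCast_atTop_atTop
      have h7 := ENNReal.tendsto_ofReal h6
      rwa [ENNReal.ofReal_zero] at h7
    refine tendsto_of_tendsto_of_tendsto_of_le_of_le' tendsto_const_nhds h5
      (Filter.Eventually.of_forall fun M => zero_le) ?_
    filter_upwards [eventually_ge_atTop L₁] with M hM'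
    exact hM M hM'
  have h5 := h3.add h4
  rw [add_zero] at h5
  have h6 : (1 : ℝ≥0∞) ≤ 0 := by
    refine ge_of_tendsto' h5 fun M => ?_
    rw [← measure_univ (μ := PP d (gl q.1))]
    refine (measure_mono ?_).trans (measure_union_le _ _)
    intro V _
    by_cases hV : SG V M (y + η) q.2 0
    · exact Or.inl hV
    · exact Or.inr hV
  exact absurd h6 (by norm_num)

end Pool.Agent.LE.H42J
end
end -- Pool.Agent.Helper42_LE.Joint

section -- Pool.Agent.Helper42_LEC.ConF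

/-!
# The Lyapunov exponent is continuous: lower and upper semicontinuity
-/

set_option autoImplicit false

open MeasureTheory ProbabilityTheory Function Filter

open scoped ENNReal BigOperators Topology

noncomputable section

namespace Pool.Agent.LE.H42C

open Pool.Agent.Anderson Pool.Agent.Loc Pool.Agent.Mob Pool.Agent.Helper54.Bal
  Pool.Agent.LE.H96 Pool.Agent.LE.H42J

/-- the Lyapunov exponent is continuous -/
theorem con (usa : UsaStmt) (uso : UsoStmt) (smp : SmpStmt) (smn : SmnStmt) (alg : AlgStmt) :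
    ConStmt2 := by
  intro d γ hd hγ q₀ hq
  refine continuousAt_iff_lower_upperSemicontinuousAt.2
    ⟨lscJ smp smn alg d γ hd hγ q₀ hq, ?_⟩
  rcases (hγ q₀.1 hq q₀.2).1.lt_or_eq with h | h
  · exact usa d γ hd hγ q₀ hq h
  · exact uso d γ hd hγ q₀ hq h.symm

end Pool.Agent.LE.H42C
end
end -- Pool.Agent.Helper42_LEC.ConF

section -- Pool.Agent.Helper93_LE.FinG

/-!
# The Lyapunov exponent at every energy: assembly
-/

set_option autoImplicit false
set_option linter.unusedSectionVars false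

open MeasureTheory ProbabilityTheory Function Filter

open scoped ENNReal BigOperators ComplexInnerProductSpace Topology

noncomputable section

namespace Pool.Agent.LE.H93

open Pool.Agent.Anderson Pool.Agent.Loc Pool.Agent.Helper54.Bal Pool.Agent.Mob
  Pool.Agent.Mob.H42

variable {d : ℕ}

theorem pr_compl (σ E κ : ℝ) (L : ℕ) :
    PP d (gl σ) {V | ¬ SG V L κ E 0} = 1 - pr d σ E κ L := by
  have h3 : {V : Site d → ℝ | ¬ SG V L κ E 0} = {V : Site d → ℝ | SG V L κ E 0}ᶜ := rfl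
  rw [h3, prob_compl_eq_one_sub (meas_SG L κ E 0)]
  rfl

theorem pr_le_one (σ E κ : ℝ) (L : ℕ) : pr d σ E κ L ≤ 1 := prob_le_one

theorem sg_mono {V : Site d → ℝ} {L : ℕ} {κ κ' E : ℝ} {v : Site d} (h : SG V L κ E v)
    (hκ : κ' ≤ κ) : SG V L κ' E v := by
  refine ⟨h.1, fun u hu => (h.2 u hu).trans (Real.exp_le_exp.2 ?_)⟩
  have : (0:ℝ) ≤ L := by positivity
  nlinarith only [hκ]

theorem pr_anti (σ E : ℝ) {κ κ' : ℝ} (hκ : κ' ≤ κ) (L : ℕ) : pr d σ E κ L ≤ pr d σ E κ' L :=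
  measure_mono fun _ hV => sg_mono hV hκ

/-- the probability tends to one -/
theorem pr_tendsto_one {σ E κ : ℝ}
    (h : Tendsto (fun L : ℕ => PP d (gl σ) {V | ¬ SG V L κ E 0}) atTop (𝓝 0)) :
    Tendsto (pr d σ E κ) atTop (𝓝 1) := by
  have h1 : Tendsto (fun L : ℕ => 1 - PP d (gl σ) {V | ¬ SG V L κ E 0}) atTop (𝓝 (1 - 0)) :=
    ENNReal.Tendsto.sub tendsto_const_nhds h (Or.inl ENNReal.one_ne_top)
  rw [tsub_zero] at h1
  refine h1.congr fun L => ?_
  rw [pr_compl, ENNReal.sub_sub_cancel ENNReal.one_ne_top (pr_le_one σ E κ L)]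

theorem gamma_pos_iff (hLoc : LocGStmt) (hCnv : CnvStmt) {C₀ σ : ℝ} (hd : 1 ≤ d) (hC₀ : 0 < C₀)
    (hσ : σ ≠ 0) (hB : BlkAt d C₀ σ) {E γ : ℝ} (hγ : 0 ≤ γ)
    (h : ∀ ε : ℝ, 0 < ε → Tendsto (pr d σ E (γ + ε)) atTop (𝓝 0) ∧
      Tendsto (pr d σ E (γ - ε)) atTop (𝓝 1)) : 0 < γ ↔ E ∈ LocSet d C₀ σ := by
  constructor
  · intro hpos
    have h1 := (h (γ / 2) (by positivity)).2
    refine hLoc d C₀ σ E (γ - γ / 2) (1 / 2) hd hC₀ hσ (by linarith only [hpos]) (by norm_num) fun L₁ => ?_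
    have h2 : ∀ᶠ L in atTop, (1 / 2 : ℝ≥0∞) < pr d σ E (γ - γ / 2) L :=
      h1.eventually_const_lt (by rw [one_div]; exact ENNReal.one_half_lt_one)
    obtain ⟨L, hL1, hL2⟩ := (h2.and (eventually_ge_atTop L₁)).exists
    refine ⟨L, hL2, le_trans (le_of_eq ?_) hL1.le⟩
    rw [ENNReal.ofReal_div_of_pos (by norm_num)]
    simp
  · intro hE
    obtain ⟨κ, c, L₀, hκ, hc, hlow⟩ := pr_lower hCnv hd hC₀ hσ hB hE
    rcases hγ.lt_or_eq with hpos | h0
    · exact hpos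
    exfalso
    have h1 := (h κ hκ).1
    rw [← h0, zero_add] at h1
    have h2 := pos_of_lower hc hlow
    rw [h1.liminf_eq] at h2
    exact lt_irrefl _ h2

/-- the statement of the theorem -/
def MainG.{u} : Prop :=
  ∀ d : ℕ, 1 ≤ d → ∃ σ₁ C : ℝ, 0 < σ₁ ∧ 0 < C ∧ ∀ σ : ℝ, σ ≠ 0 → ∃ γ : ℝ → ℝ,
    (∀ E : ℝ, 0 ≤ γ E ∧ ∀ ε : ℝ, 0 < ε → Tendsto (pr d σ E (γ E + ε)) atTop (𝓝 0) ∧
      Tendsto (pr d σ E (γ E - ε)) atTop (𝓝 1)) ∧
    (∀ E : ℝ, 0 < γ E → ∃ κ c : ℝ, 0 < κ ∧ 0 < c ∧ ∀ᶠ L : ℕ in atTop,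
      1 - pr d σ E κ L ≤ ENNReal.ofReal (Real.exp (-c * L))) ∧
    IsOpen {E | 0 < γ E} ∧ (σ₁ ≤ |σ| → ∀ E, 0 < γ E) ∧
      (3 ≤ d → ∀ E : ℝ,
        2 * d + watson d * σ ^ 2 + C * |σ| ^ (2 + 1 / (24 * d : ℝ)) < |E| → 0 < γ E) ∧
      ∀ (Ω : Type u) [MeasurableSpace Ω] (P : Measure Ω) [IsProbabilityMeasure P]
        (ξ : Site d → Ω → ℝ), (∀ y, Measurable (ξ y)) →
        (∀ y, P.map (ξ y) = gaussianReal 0 1) → iIndepFun ξ P →
        (∀ K : Set ℝ, IsCompact K → K ⊆ {E | 0 < γ E} → ∃ m : ℝ, 0 < m ∧ ∀ᵐ ω ∂P, ∀ E ∈ K,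
          ∀ ψ : Site d → ℂ,
            (∃ (B : ℝ) (k : ℕ), ∀ x, ‖ψ x‖ ≤ B * (1 + (sd 0 x : ℝ)) ^ k) →
            (∀ x, lap ψ x + ((σ * ξ x ω : ℝ) : ℂ) * ψ x = (E : ℂ) * ψ x) →
            ∃ B : ℝ, ∀ x, ‖ψ x‖ ≤ B * Real.exp (-m * sd 0 x)) ∧
        (∀ᵐ ω ∂P, ∀ c r : ℝ, Set.Icc (c - r) (c + r) ⊆ {E | 0 < γ E} → ∀ u w : L2 d,
          (∀ x, w x = lap u x + ((σ * ξ x ω : ℝ) : ℂ) * u x) →
          (∀ (E : ℝ) (ψ : L2 d), E ∈ Set.Icc (c - r) (c + r) →
            IsEigen (fun x => σ * ξ x ω) E ψ → ⟪ψ, u⟫ = 0) →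
          r * ‖u‖ ≤ ‖w - (c : ℂ) • u‖) ∧
        (∀ a b β k : ℝ, Set.Icc a b ⊆ {E | 0 < γ E} → 0 < β → ∃ T₀ : ℝ, ∀ T : ℝ, T₀ ≤ T →
          ∫⁻ ω, spread (fun x => σ * ξ x ω) T (T ^ β) (Set.Ioo a b) ∂P ≤
            ENNReal.ofReal (T ^ (-k))) ∧
        (∀ a b δ : ℝ, ¬ Set.Ioo a b ⊆ {E | 0 < γ E} → 0 < δ → δ ≤ 1 → ∃ T₀ : ℝ, ∀ T : ℝ,
          T₀ ≤ T → ENNReal.ofReal (T ^ (-6 : ℝ)) ≤
            ∫⁻ ω, spread (fun x => σ * ξ x ω) T (T ^ (1 / ((d : ℝ) + δ))) (Set.Ioo a b) ∂P)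

theorem mainG (hIni : In2Stmt) (hBlk : BlkStmt) (hLrg : LrgStmt) (hEdg : EdgStmt)
    (hBdc : BdcStmt) (hTbx : TbxStmt) (hSep : SepStmt) (hDcy : DcyStmt) (hCmp : CmpStmt)
    (hShf : ShfStmt) (hIns : InsStmt) (hLya : LyaStmt) (hLoc : LocGStmt) (hCnv : CnvStmt) :
    MainG := by
  intro d hd
  obtain ⟨C₀, hC₀, hB⟩ := hBlk d hd
  obtain ⟨σ₁, hσ₁, hL⟩ := hLrg d hd C₀ hC₀
  obtain ⟨C, hC, hE⟩ : ∃ C : ℝ, 0 < C ∧ (3 ≤ d → ∀ C₀ σ : ℝ, 0 < C₀ → σ ≠ 0 →
      ∃ L : ℕ, ∀ E : ℝ,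
      2 * d + watson d * σ ^ 2 + C * |σ| ^ (2 + 1 / (24 * d : ℝ)) ≤ |E| → Crit d C₀ σ E L) := by
    by_cases h3 : 3 ≤ d
    · obtain ⟨C, hC, h⟩ := hEdg d h3
      exact ⟨C, hC, fun _ => h⟩
    · exact ⟨1, one_pos, fun h => absurd h h3⟩
  refine ⟨σ₁, C, hσ₁, hC, fun σ hσ => ?_⟩
  have hlya := fun E => hLya d σ E hd hσ
  choose γ hγ hlim using hlya
  have hlim' : ∀ E : ℝ, ∀ ε : ℝ, 0 < ε → Tendsto (pr d σ E (γ E + ε)) atTop (𝓝 0) ∧
      Tendsto (pr d σ E (γ E - ε)) atTop (𝓝 1) :=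
    fun E ε hε => ⟨(hlim E ε hε).1, pr_tendsto_one (hlim E ε hε).2⟩
  have hset : {E | 0 < γ E} = LocSet d C₀ σ := by
    ext E
    exact gamma_pos_iff hLoc hCnv hd hC₀ hσ (hB σ hσ) (hγ E) (hlim' E)
  refine ⟨γ, fun E => ⟨hγ E, hlim' E⟩, ?_, ?_⟩
  · intro E hE
    have hE' : E ∈ LocSet d C₀ σ := hset ▸ hE
    obtain ⟨κ, c, L₀, hκ, hc, hlow⟩ := pr_lower hCnv hd hC₀ hσ (hB σ hσ) hE'
    exact ⟨κ, c, hκ, hc, eventually_atTop.2 ⟨L₀, hlow⟩⟩
  rw [hset]
  refine ⟨isOpen_LocSet d C₀ σ, ?_, ?_, ?_⟩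
  · intro h E
    have h1 : E ∈ LocSet d C₀ σ := ⟨1, one_pos, 0, fun F _ => hL σ h F⟩
    rw [← hset] at h1
    exact h1
  · intro h3 E hEE
    obtain ⟨L, hLE⟩ := hE h3 C₀ σ hC₀ hσ
    set e := 2 * d + watson d * σ ^ 2 + C * |σ| ^ (2 + 1 / (24 * d : ℝ)) with he
    have h0 : E ∈ LocSet d C₀ σ := by
      refine ⟨|E| - e, by linarith only [hEE], L, fun F hF => hLE F ?_⟩
      rw [Set.mem_Icc] at hF
      have h1 : |E| - |F| ≤ |E - F| := abs_sub_abs_le_abs_sub E F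
      have h2 : |E - F| ≤ |E| - e := by
        rw [abs_le]
        constructor <;> linarith only [hF.1, hF.2]
      linarith only [h1, h2]
    rw [← hset] at h0
    exact h0
  intro Ω _ P _ ξ hm hlaw hind
  obtain ⟨μ, hμ, hTB⟩ := exists_rate hBdc hTbx hd hC₀ hσ (hB σ hσ)
  refine ⟨?_, ?_, ?_, ?_⟩
  · intro K hK hKL
    obtain ⟨m, hm0, h⟩ := loc_compact hDcy hd hμ hTB hK hKL
    exact ⟨m, hm0, ae_transfer hm hlaw hind σ h⟩
  · exact ae_transfer hm hlaw hind σ (loc_complete hSep hCmp hd hσ hμ hTB)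
  · intro a b β k hsub hβ
    obtain ⟨T₀, h⟩ := ins_compact hBdc hIns hd hC₀ hσ (hB σ hσ) hsub hβ k
    refine ⟨max T₀ 1, fun T hT => ?_⟩
    have hT0 : 0 < T := lt_of_lt_of_le one_pos ((le_max_right _ _).trans hT)
    refine le_trans (le_of_eq ?_) (h T ((le_max_left _ _).trans hT))
    rw [← map_eq_PP hm hlaw hind σ]
    exact (lintegral_map (measurable_spread hShf (gl σ) hT0 (T ^ β) a b)
      (measurable_W hm σ)).symm
  · intro a b δ hab hδ hδ1
    obtain ⟨E₀, hE₀, hE₀'⟩ := Set.not_subset.1 hab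
    obtain ⟨T₀, hT₀, h⟩ := hIni d hd C₀ σ hC₀ hσ δ a b E₀ hδ hδ1 hE₀.1 hE₀.2
    refine ⟨T₀, fun T hT => ?_⟩
    by_contra hcon
    rw [not_le] at hcon
    apply hE₀'
    exact h T hT (lt_of_le_of_lt (lintegral_transfer hm hlaw hind σ
      (fun V => spread V T (T ^ (1 / ((d : ℝ) + δ))) (Set.Ioo a b))) hcon)

end Pool.Agent.LE.H93
end
end -- Pool.Agent.Helper93_LE.FinG

section -- Pool.Agent.Helper96_LE.ExactDecay

/-!
# Exact decay rate: assembly
-/

set_option autoImplicit false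
set_option linter.unusedSectionVars false

open MeasureTheory ProbabilityTheory Function Filter

open scoped ENNReal BigOperators ComplexInnerProductSpace Topology

noncomputable section

namespace Pool.Agent.LE.H96

open Pool.Agent.Anderson Pool.Agent.Loc Pool.Agent.Helper54.Bal Pool.Agent.Mob
  Pool.Agent.Mob.H42

universe u

variable {d : ℕ}

theorem lyaAt_of_pr {σ E g : ℝ} (hg : 0 ≤ g) (h : ∀ ε : ℝ, 0 < ε →
    Tendsto (H93.pr d σ E (g + ε)) atTop (𝓝 0) ∧ Tendsto (H93.pr d σ E (g - ε)) atTop (𝓝 1)) :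
    LyaAt d σ E g := by
  refine ⟨hg, fun ε hε => ⟨(h ε hε).1, ?_⟩⟩
  have h1 : Tendsto (fun L : ℕ => 1 - H93.pr d σ E (g - ε) L) atTop (𝓝 (1 - 1)) :=
    ENNReal.Tendsto.sub tendsto_const_nhds (h ε hε).2 (Or.inl ENNReal.one_ne_top)
  rw [tsub_self] at h1
  exact h1.congr fun L => (H93.pr_compl σ E (g - ε) L).symm

/-- the rate of decay of a function on the lattice is exactly `g` -/
def RateIs (g : ℝ) (ψ : Site d → ℂ) : Prop :=
  (∀ m : ℝ, m < g → ∃ B : ℝ, ∀ x, ‖ψ x‖ ≤ B * Real.exp (-m * sd 0 x)) ∧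
  ∀ m B : ℝ, g < m → ¬ ∀ x, ‖ψ x‖ ≤ B * Real.exp (-m * sd 0 x)

theorem poly_le_exp {ψ : Site d → ℂ} {m : ℝ} (hm : m < 0)
    (h : ∃ (B : ℝ) (k : ℕ), ∀ x, ‖ψ x‖ ≤ B * (1 + (sd 0 x : ℝ)) ^ k) :
    ∃ B : ℝ, ∀ x, ‖ψ x‖ ≤ B * Real.exp (-m * sd 0 x) := by
  obtain ⟨B, k, hB⟩ := h
  have hB0 : 0 ≤ B := by
    have h0 := (norm_nonneg _).trans (hB 0)
    rw [sd_self, Nat.cast_zero, add_zero, one_pow, mul_one] at h0
    exact h0
  refine ⟨B * (k.factorial * (1 / (-m)) ^ k * Real.exp (-m)), fun x => (hB x).trans ?_⟩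
  have ht : (0 : ℝ) ≤ 1 + (sd 0 x : ℝ) := by positivity
  have hmm : 0 < -m := by linarith
  have h1 := Real.pow_div_factorial_le_exp (-m * (1 + (sd 0 x : ℝ))) (by positivity) k
  have hf : (0 : ℝ) < k.factorial := by exact_mod_cast k.factorial_pos
  rw [div_le_iff₀ hf] at h1
  have h2 : (1 + (sd 0 x : ℝ)) ^ k =
      (1 / (-m)) ^ k * (-m * (1 + (sd 0 x : ℝ))) ^ k := by
    rw [← mul_pow, ← mul_assoc, one_div_mul_cancel hmm.ne', one_mul]
  rw [h2, mul_assoc]
  apply mul_le_mul_of_nonneg_left _ hB0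
  calc (1 / (-m)) ^ k * (-m * (1 + (sd 0 x : ℝ))) ^ k
      ≤ (1 / (-m)) ^ k * (Real.exp (-m * (1 + (sd 0 x : ℝ))) * k.factorial) :=
        mul_le_mul_of_nonneg_left h1 (by positivity)
    _ = (k.factorial * (1 / (-m)) ^ k * Real.exp (-m)) * Real.exp (-m * sd 0 x) := by
        rw [mul_add, mul_one, Real.exp_add]
        ring

/-- The statement of the theorem. -/
def MainR.{v} : Prop :=
  ∀ d : ℕ, 1 ≤ d → ∀ σ : ℝ, σ ≠ 0 → ∃ γ : ℝ → ℝ,
    (∀ E : ℝ, 0 ≤ γ E ∧ ∀ ε : ℝ, 0 < ε → Tendsto (H93.pr d σ E (γ E + ε)) atTop (𝓝 0) ∧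
      Tendsto (H93.pr d σ E (γ E - ε)) atTop (𝓝 1)) ∧
    LowerSemicontinuous γ ∧
    (3 ≤ d → ∃ K : ℝ, ∀ E : ℝ, K < |E| → 0 < γ E) ∧
    ∀ (Ω : Type v) [MeasurableSpace Ω] (P : Measure Ω) [IsProbabilityMeasure P]
      (ξ : Site d → Ω → ℝ), (∀ y, Measurable (ξ y)) →
      (∀ y, P.map (ξ y) = gaussianReal 0 1) → iIndepFun ξ P →
      ∀ᵐ ω ∂P, ∀ (E : ℝ) (ψ : Site d → ℂ),
        (∀ x, lap ψ x + ((σ * ξ x ω : ℝ) : ℂ) * ψ x = (E : ℂ) * ψ x) →
        (∃ (B : ℝ) (k : ℕ), ∀ x, ‖ψ x‖ ≤ B * (1 + (sd 0 x : ℝ)) ^ k) → (∃ x, ψ x ≠ 0) →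
        RateIs (γ E) ψ

theorem mainR (hG : H93.MainG.{u}) (exi : ExiStmt) (exj : ExjStmt) (nxi : NxiStmt)
    (nxj : NxjStmt)
    (lsc : ∀ (d : ℕ) (σ : ℝ) (γ : ℝ → ℝ), 1 ≤ d → σ ≠ 0 → (∀ E, LyaAt d σ E (γ E)) →
      LowerSemicontinuous γ) : MainR.{u} := by
  intro d hd σ hσ
  obtain ⟨σ₁, C, hσ₁, hC, h⟩ := hG d hd
  obtain ⟨γ, h0, -, h1, h2, h3, h4⟩ := h σ hσ
  have hL : ∀ E, LyaAt d σ E (γ E) := fun E => lyaAt_of_pr (h0 E).1 (h0 E).2
  refine ⟨γ, h0, lsc d σ γ hd hσ hL, fun hd3 => ⟨_, h3 hd3⟩, ?_⟩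
  intro Ω _ P _ ξ hm hlaw hind
  have hPP := map_eq_PP hm hlaw hind σ
  have hmeas := measurable_W hm σ
  have a1 := nxi d σ γ (fun E => (h0 E).1) (exi d σ γ hd hσ hL)
  have a2 := nxj d σ γ (fun E => (h0 E).1) (exj d σ γ hd hσ hL)
  rw [← hPP] at a1 a2
  have b1 := ae_of_ae_map hmeas.aemeasurable a1
  have b2 := ae_of_ae_map hmeas.aemeasurable a2
  obtain ⟨g1, -⟩ := h4 Ω P ξ hm hlaw hind
  -- countably many compact intervals
  have b3 : ∀ᵐ ω ∂P, ∀ p q : ℚ, Set.Icc (p : ℝ) q ⊆ {E | 0 < γ E} →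
      ∃ m : ℝ, 0 < m ∧ ∀ E ∈ Set.Icc (p : ℝ) q, ∀ ψ : Site d → ℂ,
        (∃ (B : ℝ) (k : ℕ), ∀ x, ‖ψ x‖ ≤ B * (1 + (sd 0 x : ℝ)) ^ k) →
        (∀ x, lap ψ x + ((σ * ξ x ω : ℝ) : ℂ) * ψ x = (E : ℂ) * ψ x) →
        ∃ B : ℝ, ∀ x, ‖ψ x‖ ≤ B * Real.exp (-m * sd 0 x) := by
    rw [ae_all_iff]
    intro p
    rw [ae_all_iff]
    intro q
    by_cases hpq : Set.Icc (p : ℝ) q ⊆ {E | 0 < γ E}
    · obtain ⟨m, hm0, hm1⟩ := g1 _ isCompact_Icc hpq
      filter_upwards [hm1] with ω hω _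
      exact ⟨m, hm0, hω⟩
    · exact Filter.Eventually.of_forall fun ω hc => absurd hc hpq
  filter_upwards [b1, b2, b3] with ω c1 c2 c3 E ψ hψ hpoly hne
  have hlow : ∀ m B : ℝ, γ E < m → ¬ ∀ x, ‖ψ x‖ ≤ B * Real.exp (-m * sd 0 x) := by
    intro m B hmm hB
    obtain ⟨x, hx⟩ := hne
    exact hx (c1 E ψ hψ B m hmm hB x)
  refine ⟨fun m hmm => ?_, hlow⟩
  rcases (h0 E).1.lt_or_eq with hpos | hzero
  · obtain ⟨r, hr, hball⟩ := Metric.isOpen_iff.1 h1 E hpos
    obtain ⟨p, hp1, hp2⟩ := exists_rat_btwn (show E - r < E by linarith)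
    obtain ⟨q, hq1, hq2⟩ := exists_rat_btwn (show E < E + r by linarith)
    have hsub : Set.Icc (p : ℝ) q ⊆ {E | 0 < γ E} := by
      intro F hF
      apply hball
      rw [Metric.mem_ball, Real.dist_eq, abs_lt]
      constructor <;> linarith [hF.1, hF.2]
    obtain ⟨m', hm', hc⟩ := c3 p q hsub
    obtain ⟨B, hB⟩ := hc E ⟨hp2.le, hq1.le⟩ ψ hpoly hψ
    exact c2 E ψ hψ ⟨B, m', hm', hB⟩ m hmm
  · rw [← hzero] at hmm
    exact poly_le_exp hmm hpoly

end Pool.Agent.LE.H96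
end
end -- Pool.Agent.Helper96_LE.ExactDecay

section -- Pool.Agent.Helper42_LE.Critical

/-!
# The critical coupling constant
-/

set_option autoImplicit false
set_option linter.unusedSectionVars false

open MeasureTheory ProbabilityTheory Function Filter

open scoped ENNReal NNReal BigOperators Topology

noncomputable section

namespace Pool.Agent.LE.H42J

open Pool.Agent.Anderson Pool.Agent.Loc Pool.Agent.Mob Pool.Agent.Helper54.Bal
  Pool.Agent.LE.H96

variable {d : ℕ}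

theorem gl_eq (σ : ℝ) : gl σ = gaussianReal 0 (.mk (σ ^ 2) (sq_nonneg _)) := by
  unfold gl γ1
  rw [gaussianReal_map_const_mul, mul_zero, mul_one]

theorem gl_neg (σ : ℝ) : gl (-σ) = gl σ := by
  rw [gl_eq, gl_eq]
  congr 1
  apply NNReal.eq
  change (-σ) ^ 2 = σ ^ 2
  ring

theorem PP_neg (σ : ℝ) : PP d (gl (-σ)) = PP d (gl σ) := by
  unfold PP
  simp only [gl_neg]

theorem lya_unique {σ E g g' : ℝ} (h : LyaAt d σ E g) (h' : LyaAt d σ E g') : g = g' := by
  have key : ∀ a b : ℝ, LyaAt d σ E a → LyaAt d σ E b → ¬ a < b := by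
    intro a b ha hb hab
    set ε := (b - a) / 2 with hε
    have hε0 : 0 < ε := by rw [hε]; linarith
    have h1 := (ha.2 ε hε0).1
    have h2 := (hb.2 ε hε0).2
    have e : b - ε = a + ε := by rw [hε]; ring
    rw [e] at h2
    have h5 := h1.add h2
    rw [add_zero] at h5
    have h6 : (1 : ℝ≥0∞) ≤ 0 := by
      refine ge_of_tendsto' h5 fun M => ?_
      rw [← measure_univ (μ := PP d (gl σ))]
      refine (measure_mono ?_).trans (measure_union_le _ _)
      intro V _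
      by_cases hV : SG V M (a + ε) E 0
      · exact Or.inl hV
      · exact Or.inr hV
    exact absurd h6 (by norm_num)
  exact le_antisymm (not_lt.1 (key _ _ h' h)) (not_lt.1 (key _ _ h h'))

theorem lya_neg {σ E g : ℝ} (h : LyaAt d σ E g) : LyaAt d (-σ) E g := by
  unfold LyaAt at h ⊢
  rw [PP_neg]
  exact h

theorem lya_abs {γ : ℝ → ℝ → ℝ} (hγ : ∀ σ, σ ≠ 0 → ∀ E, LyaAt d σ E (γ σ E)) {σ : ℝ}
    (hσ : σ ≠ 0) (E : ℝ) : γ |σ| E = γ σ E := by
  rcases abs_choice σ with h | h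
  · rw [h]
  · rw [h]
    exact lya_unique (hγ (-σ) (neg_ne_zero.2 hσ) E) (lya_neg (hγ σ hσ E))

/-- the critical coupling constant: localization at all energies above it, and, if it is positive,
not at it -/
theorem critical {γ : ℝ → ℝ → ℝ} (hγ : ∀ σ, σ ≠ 0 → ∀ E, LyaAt d σ E (γ σ E))
    (hlsc : ∀ q : ℝ × ℝ, q.1 ≠ 0 → LowerSemicontinuousAt (fun q : ℝ × ℝ => γ q.1 q.2) q)
    {σ₁ K₀ : ℝ} (h1 : ∀ σ, σ₁ ≤ |σ| → ∀ E, 0 < γ σ E)
    (h2 : ∀ σ, σ ≠ 0 → |σ| ≤ σ₁ → ∀ E, K₀ < |E| → 0 < γ σ E) :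
    ∃ σc : ℝ, 0 ≤ σc ∧ (∀ σ, σc < |σ| → ∀ E, 0 < γ σ E) ∧ (0 < σc → ∃ E, γ σc E = 0) := by
  set S : Set ℝ := {s | 0 < s ∧ ∃ E, γ s E = 0} with hS
  have hpos : ∀ σ : ℝ, σ ≠ 0 → |σ| ∉ S → ∀ E, 0 < γ σ E := by
    intro σ hσ hs E
    rcases (hγ σ hσ E).1.lt_or_eq with h | h
    · exact h
    · exact absurd ⟨abs_pos.2 hσ, E, by rw [lya_abs hγ hσ]; exact h.symm⟩ hs
  by_cases hne : S.Nonempty
  · have hbdd : BddAbove S := by
      refine ⟨σ₁, ?_⟩
      rintro s ⟨hs0, E, hE⟩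
      by_contra hcon
      push Not at hcon
      have := h1 s (by rw [abs_of_pos hs0]; exact hcon.le) E
      rw [hE] at this
      exact lt_irrefl _ this
    obtain ⟨s₀, hs₀⟩ := hne
    have hc0 : 0 < sSup S := hs₀.1.trans_le (le_csSup hbdd hs₀)
    refine ⟨sSup S, hc0.le, ?_, ?_⟩
    · intro σ hσ E
      refine hpos σ ?_ ?_ E
      · rintro rfl
        rw [abs_zero] at hσ
        linarith
      · intro h
        exact absurd (le_csSup hbdd h) (not_le.2 hσ)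
    · intro _
      by_contra hcon
      push Not at hcon
      have hgt : ∀ E, 0 < γ (sSup S) E := fun E =>
        lt_of_le_of_ne (hγ _ hc0.ne' E).1 (hcon E).symm
      -- a uniform neighbourhood
      have hU : ∀ᶠ s in 𝓝 (sSup S), ∀ E ∈ Set.Icc (-K₀) K₀, 0 < γ s E := by
        have hK : IsCompact (Set.Icc (-K₀) K₀) := isCompact_Icc
        refine hK.eventually_forall_of_forall_eventually fun E _ => ?_
        have h3 := hlsc (sSup S, E) hc0.ne' 0 (hgt E)
        exact h3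
      have hle : sSup S ≤ σ₁ := csSup_le ⟨s₀, hs₀⟩ (by
        rintro s ⟨hs0, E, hE⟩
        by_contra hcon
        push Not at hcon
        have := h1 s (by rw [abs_of_pos hs0]; exact hcon.le) E
        rw [hE] at this
        exact lt_irrefl _ this)
      obtain ⟨ε, hε, hball⟩ := Metric.eventually_nhds_iff.1 hU
      obtain ⟨s, hsS, hs⟩ := exists_lt_of_lt_csSup ⟨s₀, hs₀⟩ (show sSup S - ε < sSup S by linarith)
      have hs1 : s ≤ sSup S := le_csSup hbdd hsS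
      obtain ⟨hs0, E, hE⟩ := hsS
      by_cases hEK : K₀ < |E|
      · have := h2 s hs0.ne' (by rw [abs_of_pos hs0]; linarith) E hEK
        rw [hE] at this
        exact lt_irrefl _ this
      · push Not at hEK
        have hd : dist s (sSup S) < ε := by
          rw [Real.dist_eq, abs_sub_lt_iff]
          constructor <;> linarith
        have := hball hd E (abs_le.1 hEK)
        rw [hE] at this
        exact lt_irrefl _ this
  · rw [Set.not_nonempty_iff_eq_empty] at hne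
    refine ⟨0, le_rfl, ?_, fun h => absurd h (lt_irrefl _)⟩
    intro σ hσ E
    exact hpos σ (abs_pos.1 hσ) (by rw [hne]; exact Set.notMem_empty _) E

end Pool.Agent.LE.H42J
end
end -- Pool.Agent.Helper42_LE.Critical

section -- Pool.Agent.Helper42_LE.MainJ

/-!
# The Lyapunov exponent in the plane of the coupling constant and the energy: assembly
-/

set_option autoImplicit false
set_option linter.unusedSectionVars false

open MeasureTheory ProbabilityTheory Function Filter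

open scoped ENNReal NNReal BigOperators ComplexInnerProductSpace Topology

noncomputable section

namespace Pool.Agent.LE.H42J

open Pool.Agent.Anderson Pool.Agent.Loc Pool.Agent.Mob Pool.Agent.Helper54.Bal
  Pool.Agent.Mob.H42 Pool.Agent.LE.H96

universe u

/-- the statement of the theorem -/
def MainJ.{v} : Prop :=
  ∀ d : ℕ, 1 ≤ d → ∃ γ : ℝ → ℝ → ℝ,
    (∀ σ : ℝ, σ ≠ 0 → ∀ E : ℝ, 0 ≤ γ σ E ∧ ∀ ε : ℝ, 0 < ε →
      Tendsto (H93.pr d σ E (γ σ E + ε)) atTop (𝓝 0) ∧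
      Tendsto (H93.pr d σ E (γ σ E - ε)) atTop (𝓝 1)) ∧
    (∀ σ : ℝ, σ ≠ 0 → ∀ E : ℝ, LowerSemicontinuousAt (fun q : ℝ × ℝ => γ q.1 q.2) (σ, E)) ∧
    (3 ≤ d → ∃ σc : ℝ, 0 ≤ σc ∧ (∀ σ : ℝ, σc < |σ| → ∀ E : ℝ, 0 < γ σ E) ∧
      (0 < σc → ∃ E : ℝ, γ σc E = 0)) ∧
    ∀ σ : ℝ, σ ≠ 0 →
      (3 ≤ d → ∃ K : ℝ, ∀ E : ℝ, K < |E| → 0 < γ σ E) ∧
      (∀ E : ℝ, 0 < γ σ E → ∃ κ c : ℝ, 0 < κ ∧ 0 < c ∧ ∀ᶠ L : ℕ in atTop,
        1 - H93.pr d σ E κ L ≤ ENNReal.ofReal (Real.exp (-c * L))) ∧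
      ∀ (Ω : Type v) [MeasurableSpace Ω] (P : Measure Ω) [IsProbabilityMeasure P]
        (ξ : Site d → Ω → ℝ), (∀ y, Measurable (ξ y)) →
        (∀ y, P.map (ξ y) = gaussianReal 0 1) → iIndepFun ξ P →
        (∀ K : Set ℝ, IsCompact K → K ⊆ {E | 0 < γ σ E} → ∃ m : ℝ, 0 < m ∧ ∀ᵐ ω ∂P, ∀ E ∈ K,
          ∀ ψ : Site d → ℂ,
            (∃ (B : ℝ) (k : ℕ), ∀ x, ‖ψ x‖ ≤ B * (1 + (sd 0 x : ℝ)) ^ k) →
            (∀ x, lap ψ x + ((σ * ξ x ω : ℝ) : ℂ) * ψ x = (E : ℂ) * ψ x) →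
            ∃ B : ℝ, ∀ x, ‖ψ x‖ ≤ B * Real.exp (-m * sd 0 x)) ∧
        (∀ᵐ ω ∂P, ∀ c r : ℝ, Set.Icc (c - r) (c + r) ⊆ {E | 0 < γ σ E} → ∀ u w : L2 d,
          (∀ x, w x = lap u x + ((σ * ξ x ω : ℝ) : ℂ) * u x) →
          (∀ (E : ℝ) (ψ : L2 d), E ∈ Set.Icc (c - r) (c + r) →
            IsEigen (fun x => σ * ξ x ω) E ψ → ⟪ψ, u⟫ = 0) →
          r * ‖u‖ ≤ ‖w - (c : ℂ) • u‖) ∧
        (∀ a b β k : ℝ, Set.Icc a b ⊆ {E | 0 < γ σ E} → 0 < β → ∃ T₀ : ℝ, ∀ T : ℝ, T₀ ≤ T →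
          ∫⁻ ω, spread (fun x => σ * ξ x ω) T (T ^ β) (Set.Ioo a b) ∂P ≤
            ENNReal.ofReal (T ^ (-k))) ∧
        (∀ a b δ : ℝ, ¬ Set.Ioo a b ⊆ {E | 0 < γ σ E} → 0 < δ → δ ≤ 1 → ∃ T₀ : ℝ, ∀ T : ℝ,
          T₀ ≤ T → ENNReal.ofReal (T ^ (-6 : ℝ)) ≤
            ∫⁻ ω, spread (fun x => σ * ξ x ω) T (T ^ (1 / ((d : ℝ) + δ))) (Set.Ioo a b) ∂P)

theorem mainJ (hG : H93.MainG.{u}) (smp : SmpStmt) (smn : SmnStmt) (alg : AlgStmt) :
    MainJ.{u} := by
  intro d hd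
  obtain ⟨σ₁, C, hσ₁, hC, h⟩ := hG d hd
  have hex : ∀ σ : ℝ, ∃ γ : ℝ → ℝ, σ ≠ 0 → _ := fun σ => by
    by_cases hσ : σ = 0
    · exact ⟨fun _ => 0, fun h0 => absurd hσ h0⟩
    · obtain ⟨γ, hγ⟩ := h σ hσ
      exact ⟨γ, fun _ => hγ⟩
  choose γ hγ using hex
  have hL : ∀ σ : ℝ, σ ≠ 0 → ∀ E, LyaAt d σ E (γ σ E) := fun σ hσ E =>
    lyaAt_of_pr ((hγ σ hσ).1 E).1 ((hγ σ hσ).1 E).2
  have hlsc : ∀ q : ℝ × ℝ, q.1 ≠ 0 →
      LowerSemicontinuousAt (fun q : ℝ × ℝ => γ q.1 q.2) q := fun q hq =>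
    lscJ smp smn alg d γ hd hL q hq
  refine ⟨γ, fun σ hσ => (hγ σ hσ).1, fun σ hσ E => hlsc (σ, E) hσ, ?_, ?_⟩
  · intro hd3
    refine critical hL hlsc (σ₁ := σ₁)
      (K₀ := 2 * d + watson d * σ₁ ^ 2 + C * |σ₁| ^ (2 + 1 / (24 * d : ℝ))) ?_ ?_
    · intro σ hσ E
      have hσ0 : σ ≠ 0 := by
        rintro rfl
        rw [abs_zero] at hσ
        linarith only [hσ₁, hσ]
      exact (hγ σ hσ0).2.2.2.1 hσ E
    · intro σ hσ0 hσ E hE
      refine (hγ σ hσ0).2.2.2.2.1 hd3 E (lt_of_le_of_lt ?_ hE)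
      have hw : 0 ≤ watson d := (watson_pos hd3).le
      have h1 : σ ^ 2 ≤ σ₁ ^ 2 := by
        rw [← sq_abs σ]
        exact pow_le_pow_left₀ (abs_nonneg σ) hσ 2
      have h2 : |σ| ^ (2 + 1 / (24 * d : ℝ)) ≤ |σ₁| ^ (2 + 1 / (24 * d : ℝ)) := by
        apply Real.rpow_le_rpow (abs_nonneg σ)
        · rw [abs_of_pos hσ₁]
          exact hσ
        · positivity
      have h3 := mul_le_mul_of_nonneg_left h1 hw
      have h4 := mul_le_mul_of_nonneg_left h2 hC.le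
      linarith only [h3, h4]
  · intro σ hσ
    obtain ⟨-, g1, -, -, g3, g4⟩ := hγ σ hσ
    exact ⟨fun hd3 => ⟨_, g3 hd3⟩, g1, g4⟩

end Pool.Agent.LE.H42J
end
end -- Pool.Agent.Helper42_LE.MainJ

section -- Pool.Agent.Helper96_LEC.Sym

/-!
# The Lyapunov exponent is an even function of the energy; the edge of the localized phase
-/

set_option autoImplicit false
set_option linter.unusedSectionVars false

open MeasureTheory ProbabilityTheory Function Filter

open scoped ENNReal NNReal BigOperators Topology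

noncomputable section

namespace Pool.Agent.LE.H96C

open Pool.Agent.Anderson Pool.Agent.Loc Pool.Agent.Mob Pool.Agent.Helper54.Bal

variable {d : ℕ}

/-- the staggered sign -/
def sg (x : Site d) : ℝ := if Even (∑ i, x i) then 1 else -1

theorem sg_sq (x : Site d) : sg x * sg x = 1 := by
  unfold sg
  split_ifs <;> norm_num

theorem sg_abs (x : Site d) : |sg x| = 1 := by
  unfold sg
  split_ifs <;> norm_num

theorem sum_single (x : Site d) (i : Fin d) (c : ℤ) :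
    ∑ j, (x + Pi.single i c : Site d) j = ∑ j, x j + c := by
  simp only [Pi.add_apply, Finset.sum_add_distrib]
  rw [Finset.sum_pi_single' i c]
  simp

theorem sg_add (x : Site d) (i : Fin d) : sg (x + Pi.single i 1) = - sg x := by
  have h : Even (∑ j, (x + Pi.single i 1 : Site d) j) ↔ ¬ Even (∑ j, x j) := by
    rw [sum_single]
    exact Int.even_add_one
  unfold sg
  by_cases h2 : Even (∑ j, x j)
  · rw [if_pos h2, if_neg (fun h3 => (h.1 h3) h2)]
  · rw [if_neg h2, if_pos (h.2 h2)]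
    norm_num

theorem sg_sub (x : Site d) (i : Fin d) : sg (x - Pi.single i 1) = - sg x := by
  have h := sg_add (x - Pi.single i 1) i
  rw [sub_add_cancel] at h
  linarith

theorem sg_hop (x y : Site d) : sg x * hop x y * sg y = - hop x y := by
  unfold hop
  rw [Finset.mul_sum, Finset.sum_mul, ← Finset.sum_neg_distrib]
  refine Finset.sum_congr rfl fun i _ => ?_
  have h0 := sg_sq x
  have h1 : sg x * (if y = x + Pi.single i 1 then (1 : ℝ) else 0) * sg y =
      -(if y = x + Pi.single i 1 then (1 : ℝ) else 0) := by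
    split_ifs with h
    · rw [h, sg_add]
      linarith
    · simp
  have h2 : sg x * (if y = x - Pi.single i 1 then (1 : ℝ) else 0) * sg y =
      -(if y = x - Pi.single i 1 then (1 : ℝ) else 0) := by
    split_ifs with h
    · rw [h, sg_sub]
      linarith
    · simp
  rw [mul_add, add_mul, h1, h2]
  ring

theorem RM_neg (V : Site d → ℝ) (Λ : Finset (Site d)) (E : ℝ) (x y : Λ) :
    RM (fun z => - V z) Λ (-E) x y = - (sg (x : Site d) * RM V Λ E x y * sg (y : Site d)) := by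
  have h := sg_hop (x : Site d) (y : Site d)
  unfold RM HM
  simp only [Matrix.sub_apply, Matrix.smul_apply, Matrix.of_apply, Matrix.one_apply, smul_eq_mul]
  by_cases hxy : x = y
  · subst hxy
    have h0 := sg_sq (x : Site d)
    simp only [if_true]
    linear_combination (E - V x) * h0 - h
  · simp only [hxy, if_false]
    linear_combination -h

theorem inv_neg_aux (V : Site d → ℝ) (Λ : Finset (Site d)) (E : ℝ) (hdet : (RM V Λ E).det ≠ 0) :
    (RM (fun z => - V z) Λ (-E)).det ≠ 0 ∧ ∀ x y : Λ, (RM (fun z => - V z) Λ (-E))⁻¹ x y =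
      - (sg (x : Site d) * (RM V Λ E)⁻¹ x y * sg (y : Site d)) := by
  have h1 : RM V Λ E * (RM V Λ E)⁻¹ = 1 := Matrix.mul_nonsing_inv _ (isUnit_iff_ne_zero.2 hdet)
  obtain ⟨N, hN⟩ : ∃ N : Matrix Λ Λ ℝ, N = Matrix.of fun (x y : Λ) =>
      - (sg (x : Site d) * (RM V Λ E)⁻¹ x y * sg (y : Site d)) := ⟨_, rfl⟩
  have h2 : RM (fun z => - V z) Λ (-E) * N = 1 := by
    ext x y
    rw [Matrix.mul_apply, hN]
    simp only [Matrix.of_apply, RM_neg]
    have h3 : ∀ z : Λ, -(sg (x : Site d) * RM V Λ E x z * sg (z : Site d)) *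
        -(sg (z : Site d) * (RM V Λ E)⁻¹ z y * sg (y : Site d)) =
        sg (x : Site d) * (RM V Λ E x z * (RM V Λ E)⁻¹ z y) * sg (y : Site d) := by
      intro z
      linear_combination (sg (x : Site d) * (RM V Λ E x z * (RM V Λ E)⁻¹ z y) * sg (y : Site d)) *
        sg_sq (z : Site d)
    rw [Finset.sum_congr rfl fun z _ => h3 z, ← Finset.sum_mul, ← Finset.mul_sum,
      ← Matrix.mul_apply, h1, Matrix.one_apply]
    split_ifs with hxy
    · rw [hxy, mul_one, sg_sq]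
    · simp
  have h4 : (RM (fun z => - V z) Λ (-E))⁻¹ = N := Matrix.inv_eq_right_inv h2
  refine ⟨?_, fun x y => by rw [h4, hN]; rfl⟩
  have h5 := congrArg Matrix.det h2
  rw [Matrix.det_mul, Matrix.det_one] at h5
  exact left_ne_zero_of_mul_eq_one h5

theorem gr_neg {V : Site d → ℝ} {Λ : Finset (Site d)} {E : ℝ} (hdet : (RM V Λ E).det ≠ 0)
    (x y : Site d) : |gr (fun z => - V z) Λ (-E) x y| = |gr V Λ E x y| := by
  unfold gr
  split_ifs with h
  · rw [(inv_neg_aux V Λ E hdet).2, abs_neg, abs_mul, abs_mul, sg_abs, sg_abs, one_mul, mul_one]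
  · rfl

theorem SG_neg_aux {V : Site d → ℝ} {L : ℕ} {κ E : ℝ} {v : Site d} (h : SG V L κ E v) :
    SG (fun z => - V z) L κ (-E) v :=
  ⟨(inv_neg_aux V (box v L) E h.1).1, fun u hu => by rw [gr_neg h.1]; exact h.2 u hu⟩

theorem SG_neg (V : Site d → ℝ) (L : ℕ) (κ E : ℝ) (v : Site d) :
    SG (fun z => - V z) L κ (-E) v ↔ SG V L κ E v := by
  refine ⟨fun h => ?_, SG_neg_aux⟩
  have h1 := SG_neg_aux h
  simp only [neg_neg] at h1
  exact h1

/-- the law of the potential -/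
theorem PP_apply (σ : ℝ) {A : Set (Site d → ℝ)} (hA : MeasurableSet A) :
    PP d (gl σ) A = (Measure.infinitePi fun _ : Site d => gaussianReal 0 1)
      {ξ : Site d → ℝ | (fun x => σ * ξ x) ∈ A} := by
  have hm : ∀ y : Site d, Measurable fun ξ : Site d → ℝ => ξ y := fun y => measurable_pi_apply y
  have hlaw : ∀ y : Site d, (Measure.infinitePi fun _ : Site d => gaussianReal 0 1).map
      (fun ξ => ξ y) = gaussianReal 0 1 := fun y =>
    (measurePreserving_eval_infinitePi (fun _ : Site d => gaussianReal 0 1) y).map_eq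
  have hind : iIndepFun (fun (y : Site d) (ξ : Site d → ℝ) => ξ y)
      (Measure.infinitePi fun _ : Site d => gaussianReal 0 1) :=
    iIndepFun_infinitePi (P := fun _ : Site d => gaussianReal 0 1) (X := fun _ t => t)
      (fun _ => measurable_id)
  have h := Pool.Agent.Mob.H42.map_eq_PP hm hlaw hind σ
  rw [← h, Measure.map_apply (Pool.Agent.Mob.H42.measurable_W hm σ) hA]
  rfl

theorem PP_SG_neg (σ κ E : ℝ) (L : ℕ) :
    PP d (gl σ) {V | SG V L κ (-E) 0} = PP d (gl σ) {V | SG V L κ E 0} := by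
  rw [← Pool.Agent.LE.H42J.PP_neg σ, PP_apply (-σ) (Pool.Agent.LE.H93.meas_SG L κ (-E) 0),
    Pool.Agent.LE.H42J.PP_neg σ, PP_apply σ (Pool.Agent.LE.H93.meas_SG L κ E 0)]
  congr 1
  ext ξ
  have h := SG_neg (fun x : Site d => σ * ξ x) L κ E 0
  simp only [Set.mem_ofPred_eq]
  rw [← h]
  have e : (fun x : Site d => -σ * ξ x) = fun z => -(σ * ξ z) := by
    funext x
    ring
  rw [e]

theorem PP_SG_neg' (σ κ E : ℝ) (L : ℕ) :
    PP d (gl σ) {V | ¬ SG V L κ (-E) 0} = PP d (gl σ) {V | ¬ SG V L κ E 0} := by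
  have e1 : {V : Site d → ℝ | ¬ SG V L κ (-E) 0} = {V | SG V L κ (-E) 0}ᶜ := rfl
  have e2 : {V : Site d → ℝ | ¬ SG V L κ E 0} = {V | SG V L κ E 0}ᶜ := rfl
  rw [e1, e2, prob_compl_eq_one_sub (Pool.Agent.LE.H93.meas_SG L κ (-E) 0),
    prob_compl_eq_one_sub (Pool.Agent.LE.H93.meas_SG L κ E 0), PP_SG_neg]

theorem lya_negE {σ E g : ℝ} (h : LyaAt d σ E g) : LyaAt d σ (-E) g := by
  refine ⟨h.1, fun ε hε => ?_⟩
  simp only [PP_SG_neg, PP_SG_neg']
  exact h.2 ε hε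

/-- the Lyapunov exponent is an even function of the energy -/
theorem lya_even {γ : ℝ → ℝ → ℝ} (hγ : ∀ σ, σ ≠ 0 → ∀ E, LyaAt d σ E (γ σ E)) {σ : ℝ}
    (hσ : σ ≠ 0) (E : ℝ) : γ σ (-E) = γ σ E :=
  Pool.Agent.LE.H42J.lya_unique (hγ σ hσ (-E)) (lya_negE (hγ σ hσ E))

/-- the edge of the localized phase -/
theorem edge {g : ℝ → ℝ} (h0 : ∀ E, 0 ≤ g E) (hcont : Continuous g) (heven : ∀ E, g (-E) = g E)
    (hlarge : ∃ K : ℝ, ∀ E : ℝ, K < |E| → 0 < g E) (hz : ∃ E, g E = 0) :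
    ∃ E₀ : ℝ, 0 ≤ E₀ ∧ g E₀ = 0 ∧ g (-E₀) = 0 ∧ ∀ E, E₀ < |E| → 0 < g E := by
  obtain ⟨K, hK⟩ := hlarge
  obtain ⟨E₁, hE₁⟩ := hz
  have habs : ∀ E, g |E| = g E := by
    intro E
    rcases abs_choice E with h | h
    · rw [h]
    · rw [h, heven]
  have hcl : IsClosed {E : ℝ | 0 ≤ E ∧ g E = 0} :=
    (isClosed_le continuous_const continuous_id).inter (isClosed_eq hcont continuous_const)
  have hbdd : BddAbove {E : ℝ | 0 ≤ E ∧ g E = 0} := by
    refine ⟨K, fun E hE => ?_⟩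
    by_contra hcon
    push Not at hcon
    have := hK E (by rw [abs_of_nonneg hE.1]; exact hcon)
    rw [hE.2] at this
    exact lt_irrefl _ this
  have hne : {E : ℝ | 0 ≤ E ∧ g E = 0}.Nonempty := ⟨|E₁|, abs_nonneg _, by rw [habs, hE₁]⟩
  have hmem := hcl.csSup_mem hne hbdd
  refine ⟨_, hmem.1, hmem.2, by rw [heven]; exact hmem.2, fun E hE => ?_⟩
  rcases (h0 E).lt_or_eq with h | h
  · exact h
  · exact absurd (le_csSup hbdd ⟨abs_nonneg E, by rw [habs]; exact h.symm⟩) (not_le.2 hE)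

end Pool.Agent.LE.H96C
end
end -- Pool.Agent.Helper96_LEC.Sym
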