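import Pool.Agent.Helper12_MEB.B063

/-!
# Merged copies (generated) of the modules

* `Pool.Agent.Helper93_LEW.CRTa`
* `Pool.Agent.Helper93_LEW.CRT`
* `Pool.Agent.Helper93_LEC.USO`
* `Pool.Agent.Helper93_LEC.USA`
-/

set_option autoImplicit false

section -- Pool.Agent.Helper93_LEW.CRTa

/-!
# CRT: the criterion, lemmas
-/

set_option autoImplicit false
set_option linter.unusedSectionVars false

open MeasureTheory ProbabilityTheory Function Filter

open scoped ENNReal BigOperators Topology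

noncomputable section

namespace Pool.Agent.LE.H93W

open Pool.Agent.Anderson Pool.Agent.Loc Pool.Agent.Mob Pool.Agent.Helper54.Bal
  Pool.Agent.LE.H93C

variable {d : ℕ}

theorem measurable_gmax (Λ : Finset (Site d)) (E : ℝ) (S : Finset (Site d)) (x : Site d) :
    Measurable fun V : Site d → ℝ => gmax V Λ E S x := by
  classical
  unfold gmax
  refine Measurable.coe_nnreal_real ?_
  induction S using Finset.induction_on with
  | empty => simp
  | insert z S hz ih =>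
    simp only [Finset.sup_insert]
    exact (measurable_gr Λ E z x).nnnorm.sup ih

theorem measurable_FD (Λ : Finset (Site d)) (E : ℝ) (S : Finset (Site d)) (x : Site d) :
    Measurable fun V : Site d → ℝ => FD V Λ E S x := by
  unfold FD
  exact (Real.measurable_log.comp (measurable_gmax Λ E S x)).neg

theorem measurable_osc (N : ℕ) (E : ℝ) (S : Finset (Site d)) (c : Site d) (s : ℕ) :
    Measurable fun V : Site d → ℝ => osc V N E S c s := by
  unfold osc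
  refine Pool.Agent.LY.measurable_fsup _ fun x => ?_
  exact (((measurable_FD (box 0 N) E S x).sub (measurable_FD (box 0 N) E S c)).abs).ennreal_ofReal

theorem osc_ne_top (V : Site d → ℝ) (N : ℕ) (E : ℝ) (S : Finset (Site d)) (c : Site d) (s : ℕ) :
    osc V N E S c s ≠ ∞ := by
  unfold osc
  refine ne_of_lt ?_
  rw [Finset.sup_lt_iff (by simp)]
  exact fun x _ => ENNReal.ofReal_lt_top

theorem le_osc (V : Site d → ℝ) (N : ℕ) (E : ℝ) (S : Finset (Site d)) {c x : Site d} {s : ℕ}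
    (hx : x ∈ box c s) :
    |FD V (box 0 N) E S x - FD V (box 0 N) E S c| ≤ (osc V N E S c s).toReal := by
  have h1 : ENNReal.ofReal |FD V (box 0 N) E S x - FD V (box 0 N) E S c| ≤ osc V N E S c s :=
    Finset.le_sup (f := fun x => ENNReal.ofReal |FD V (box 0 N) E S x - FD V (box 0 N) E S c|) hx
  have h2 := ENNReal.toReal_mono (osc_ne_top V N E S c s) h1
  rwa [ENNReal.toReal_ofReal (abs_nonneg _)] at h2

theorem FD_le {V : Site d → ℝ} {Λ : Finset (Site d)} {E : ℝ} {S : Finset (Site d)}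
    {x z : Site d} (hz : z ∈ S) (h0 : gr V Λ E z x ≠ 0) : FD V Λ E S x ≤ DL Λ E V z x := by
  have h1 : ‖gr V Λ E z x‖₊ ≤ S.sup fun z => ‖gr V Λ E z x‖₊ :=
    Finset.le_sup (f := fun z => ‖gr V Λ E z x‖₊) hz
  have h2 : |gr V Λ E z x| ≤ gmax V Λ E S x := by
    unfold gmax
    rw [← Real.norm_eq_abs, ← coe_nnnorm]
    exact_mod_cast h1
  unfold FD DL
  exact neg_le_neg (Real.log_le_log (abs_pos.2 h0) h2)

theorem le_FD {V : Site d → ℝ} {Λ : Finset (Site d)} {E h : ℝ} {S : Finset (Site d)}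
    {x : Site d} (hS : S.Nonempty) (hz : ∀ z ∈ S, h ≤ DL Λ E V z x) : h ≤ FD V Λ E S x := by
  obtain ⟨z, hzS, e⟩ := Finset.exists_mem_eq_sup S hS fun z => ‖gr V Λ E z x‖₊
  refine (hz z hzS).trans (le_of_eq ?_)
  unfold DL FD gmax
  rw [e, coe_nnnorm, Real.norm_eq_abs]

/-- the mesh points of the face `k_i = -n` -/
def face (a : Site d) (s n : ℕ) (i : Fin d) : Finset (Site d) :=
  open Classical in
  ((box (0 : Site d) n).filter fun k => k i = -(n : ℤ)).image fun k => a + sm s k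

theorem face_nonempty (a : Site d) (s n : ℕ) (i : Fin d) : (face a s n i).Nonempty := by
  classical
  unfold face
  rw [Finset.image_nonempty]
  refine ⟨fun _ => -(n : ℤ), ?_⟩
  rw [Finset.mem_filter, mem_box, sd_le_iff]
  refine ⟨fun j => ?_, rfl⟩
  simp

theorem mem_face {a : Site d} {s n : ℕ} {i : Fin d} {k : Site d} (hk : k ∈ box (0 : Site d) n)
    (hi : k i = -(n : ℤ)) : a + sm s k ∈ face a s n i := by
  classical
  unfold face
  exact Finset.mem_image_of_mem _ (Finset.mem_filter.2 ⟨hk, hi⟩)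

theorem exists_of_mem_face {a z : Site d} {s n : ℕ} {i : Fin d} (h : z ∈ face a s n i) :
    ∃ k ∈ box (0 : Site d) n, k i = -(n : ℤ) ∧ a + sm s k = z := by
  classical
  unfold face at h
  obtain ⟨k, hk, e⟩ := Finset.mem_image.1 h
  rw [Finset.mem_filter] at hk
  exact ⟨k, hk.1, hk.2, e⟩

/-- the bad event at the site `c` -/
def BadE (V : Site d → ℝ) (N M s : ℕ) (E : ℝ) (S : Fin d → Finset (Site d)) (c : Site d) : Prop :=
  (¬ ∀ j : ℕ, 1 ≤ j → j ≤ M → ∃ y : Site d,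
    (sd c y = 4 * j * s ∨ sd c y = 4 * j * s + 1) ∧ DL (box 0 N) E V c y ≤ s / 2) ∨
  ∃ i : Fin d, ∃ y ∈ box c (4 * (M * s) + 1),
    ¬ |FD V (box 0 N) E (S i) c - FD V (box 0 N) E (S i) y| ≤ DL (box 0 N) E V c y + s / 2

theorem prob_BadE (trf : TrfStmt) {N M s : ℕ} {σ E p : ℝ} {S : Fin d → Finset (Site d)}
    {c : Site d} (hd : 1 ≤ d) (hσ : σ ≠ 0) (hp : 0 ≤ p)
    (hS : ∀ i, (S i).Nonempty) (hS' : ∀ i, S i ⊆ box 0 N)
    (hc : box c (4 * (M * s) + 2) ⊆ box 0 N)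
    (hcond : PP d (gl σ) {V | ¬ ∀ j : ℕ, 1 ≤ j → j ≤ M → ∃ y : Site d,
        (sd c y = 4 * j * s ∨ sd c y = 4 * j * s + 1) ∧ DL (box 0 N) E V c y ≤ s / 2} ≤
          ENNReal.ofReal p) :
    PP d (gl σ) {V | BadE V N M s E S c} ≤
      ENNReal.ofReal (p + d * (8 * (M * s) + 5) ^ d * (16 / |σ| * Real.exp (-(s / 2 : ℝ)))) := by
  classical
  have hσ0 : 0 < |σ| := abs_pos.2 hσ
  have hcN : c ∈ box (0 : Site d) N := hc (by rw [mem_box, sd_self]; exact Nat.zero_le _)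
  have hsub : {V | BadE V N M s E S c} ⊆ {V | ¬ ∀ j : ℕ, 1 ≤ j → j ≤ M → ∃ y : Site d,
        (sd c y = 4 * j * s ∨ sd c y = 4 * j * s + 1) ∧ DL (box 0 N) E V c y ≤ s / 2} ∪
      ⋃ i ∈ (Finset.univ : Finset (Fin d)), ⋃ y ∈ box c (4 * (M * s) + 1),
        {V | ¬ |FD V (box 0 N) E (S i) c - FD V (box 0 N) E (S i) y| ≤
          DL (box 0 N) E V c y + s / 2} := by
    rintro V (h | ⟨i, y, hy, h⟩)
    · exact Or.inl h
    · right
      simp only [Set.mem_iUnion]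
      exact ⟨i, Finset.mem_univ i, y, hy, h⟩
  refine (measure_mono hsub).trans ((measure_union_le _ _).trans ?_)
  have hpos : 0 ≤ 16 / |σ| * Real.exp (-(s / 2 : ℝ)) := by positivity
  rw [ENNReal.ofReal_add hp (by positivity)]
  refine add_le_add hcond ?_
  calc PP d (gl σ) (⋃ i ∈ (Finset.univ : Finset (Fin d)), ⋃ y ∈ box c (4 * (M * s) + 1),
        {V | ¬ |FD V (box 0 N) E (S i) c - FD V (box 0 N) E (S i) y| ≤
          DL (box 0 N) E V c y + s / 2})
      ≤ ∑ i ∈ (Finset.univ : Finset (Fin d)), ∑ y ∈ box c (4 * (M * s) + 1),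
          ENNReal.ofReal (16 / |σ| * Real.exp (-(s / 2 : ℝ))) := by
        refine (measure_biUnion_finset_le _ _).trans (Finset.sum_le_sum fun i _ => ?_)
        refine (measure_biUnion_finset_le _ _).trans (Finset.sum_le_sum fun y hy => ?_)
        exact trf d N σ E (s / 2) (S i) c y hd hσ (hS i) (hS' i) hcN
          (hc (by rw [mem_box] at hy ⊢; omega))
    _ = ENNReal.ofReal (d * (8 * (M * s) + 3) ^ d *
          (16 / |σ| * Real.exp (-(s / 2 : ℝ)))) := by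
        rw [Finset.sum_const, Finset.sum_const, card_box, Finset.card_univ, Fintype.card_fin,
          nsmul_eq_mul, nsmul_eq_mul, ← ENNReal.ofReal_natCast, ← ENNReal.ofReal_natCast,
          ← ENNReal.ofReal_mul (by positivity), ← ENNReal.ofReal_mul (by positivity)]
        congr 1
        push_cast
        ring
    _ ≤ _ := by
        apply ENNReal.ofReal_le_ofReal
        gcongr
        norm_num

theorem good_of_not_bad {V : Site d → ℝ} {N M s : ℕ} {E : ℝ} {S : Fin d → Finset (Site d)}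
    {c : Site d} (h : ¬ BadE V N M s E S c) : ∀ j : ℕ, 1 ≤ j → j ≤ M → ∃ v : Site d,
      (sd c v = 4 * j * s ∨ sd c v = 4 * j * s + 1) ∧
        ∀ i, |FD V (box 0 N) E (S i) v - FD V (box 0 N) E (S i) c| ≤ s := by
  unfold BadE at h
  push Not at h
  obtain ⟨h1, h2⟩ := h
  intro j hj hjM
  obtain ⟨y, hy, hD⟩ := h1 j hj hjM
  refine ⟨y, hy, fun i => ?_⟩
  have hjs : 4 * j * s ≤ 4 * (M * s) := by
    have : j * s ≤ M * s := Nat.mul_le_mul_right _ hjM
    have e1 : 4 * j * s = 4 * (j * s) := by ring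
    omega
  have h3 := h2 i y (by rw [mem_box]; omega)
  rw [abs_sub_comm] at h3
  linarith

/-- the numbers of the mesh -/
theorem mesh2 {L M s n : ℕ} (hn : n = L / s) (hs1 : 1 ≤ s) (hL : s * (8 * M + 8) ≤ L) :
    s * n ≤ L ∧ L + 1 ≤ s * (n + 1) ∧ 8 * M + 8 ≤ n ∧ s * (n + 4 * M + 3) ≤ 2 * L ∧
      4 * (M * s) + 4 * s ≤ L := by
  have h2 : s * n ≤ L := by
    rw [hn, mul_comm]
    exact Nat.div_mul_le_self _ _
  have h3 : L < s * (n + 1) := by
    rw [hn]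
    exact Nat.lt_mul_div_succ L (by omega)
  have h4 : 8 * M + 8 ≤ n := by
    rw [hn, Nat.le_div_iff_mul_le (by omega)]
    have : (8 * M + 8) * s = s * (8 * M + 8) := by ring
    omega
  have e1 : s * (n + 4 * M + 3) = s * n + s * (4 * M + 3) := by ring
  have e2 : s * (8 * M + 8) = s * (4 * M + 3) + (4 * (M * s) + 5 * s) := by ring
  have e3 : s * (8 * M + 8) = 4 * (M * s) + 4 * s + (4 * (M * s) + 4 * s) := by ring
  refine ⟨h2, by omega, h4, by omega, by omega⟩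

theorem indicator_sum_card {Ω : Type*} (T : Finset (Site d)) (B : Site d → Set Ω) (ω : Ω) :
    (∑ k ∈ T, Set.indicator (B k) 1 ω : ℝ≥0∞) =
      ((open Classical in T.filter fun k => ω ∈ B k).card : ℝ≥0∞) := by
  classical
  rw [Finset.card_filter]
  push_cast
  refine Finset.sum_congr rfl fun k _ => ?_
  by_cases h : ω ∈ B k
  · rw [Set.indicator_of_mem h, if_pos h, Pi.one_apply]
  · rw [Set.indicator_of_notMem h, if_neg h]

end Pool.Agent.LE.H93W
end
end -- Pool.Agent.Helper93_LEW.CRTa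

section -- Pool.Agent.Helper93_LEW.CRT

/-!
# CRT: the criterion
-/

set_option autoImplicit false
set_option linter.unusedSectionVars false

open MeasureTheory ProbabilityTheory Function Filter

open scoped ENNReal BigOperators Topology

noncomputable section

namespace Pool.Agent.LE.H93W

open Pool.Agent.Anderson Pool.Agent.Loc Pool.Agent.Mob Pool.Agent.Helper54.Bal
  Pool.Agent.LE.H93C

variable {d : ℕ}

theorem crt (cnt2 : Cnt2Stmt) (trf : TrfStmt) (reg : RegStmt) : CrtStmt := by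
  classical
  intro d s M q σ E κ cs p y hd hσ hs1 hM hdq hcs hκ hp hy hnum hosc hcond
  have hσ0 : 0 < |σ| := abs_pos.2 hσ
  set B : ℝ := |E| + |σ| + 1 / |σ| with hB
  have hB0 : 0 < B := by positivity
  have hpar : Par B σ E := by
    refine ⟨?_, ?_, ?_⟩
    · rw [hB]
      have : 0 < 1 / |σ| := by positivity
      linarith only [hσ0, this]
    · rw [hB]
      have : 0 < 1 / |σ| := by positivity
      have := abs_nonneg E
      linarith
    · have h1 : 1 / |σ| * |σ| = 1 := by field_simp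
      have h2 : 0 ≤ (|E| + |σ|) * |σ| := by positivity
      rw [hB]
      nlinarith only [h1, h2]
  obtain ⟨L₁, hreg⟩ := reg d 4 B (κ / 4) (1 / 8) hd hB0 (by positivity) (by norm_num)
  obtain ⟨n₁, hn₁⟩ := exists_nat_ge (30 * cs / κ)
  refine ⟨max L₁ (max (s * (8 * M + 8)) (s * (n₁ + 1))), ?_⟩
  intro L N a hL0 hbox hins
  have hL1 : L₁ ≤ L := (le_max_left _ _).trans hL0
  have hL2 : s * (8 * M + 8) ≤ L := (le_max_left _ _).trans ((le_max_right _ _).trans hL0)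
  have hL3 : s * (n₁ + 1) ≤ L := (le_max_right _ _).trans ((le_max_right _ _).trans hL0)
  obtain ⟨n, hn⟩ : ∃ n, n = L / s := ⟨_, rfl⟩
  obtain ⟨hsn, hLn, hnM, hsW, hMs⟩ := mesh2 hn hs1 hL2
  have hn1 : n₁ + 1 ≤ n := by
    rw [hn, Nat.le_div_iff_mul_le (by omega), mul_comm]
    exact hL3
  obtain ⟨W, hW⟩ : ∃ W, W = n + 4 * M + 3 := ⟨_, rfl⟩
  obtain ⟨m, hm⟩ : ∃ m, m = ⌊3 * κ * L / (32 * cs * s)⌋₊ := ⟨_, rfl⟩
  have hs0 : (0 : ℝ) < s := by exact_mod_cast (by omega : 0 < s)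
  have hcs0 : 0 < cs := by linarith only [hcs]
  have hM0 : (1 : ℝ) ≤ M := by exact_mod_cast hM
  obtain ⟨pt, hpt⟩ : ∃ pt, pt = p + d * (8 * (M * s) + 5) ^ d *
    (16 / |σ| * Real.exp (-(s / 2 : ℝ))) := ⟨_, rfl⟩
  have hpt0 : 0 < pt := by rw [hpt]; positivity
  obtain ⟨S, hSdef⟩ : ∃ S : Fin d → Finset (Site d), S = fun i => face a s n i := ⟨_, rfl⟩
  have hSn : ∀ i, (S i).Nonempty := fun i => by rw [hSdef]; exact face_nonempty a s n i
  have hkL : ∀ k ∈ box (0 : Site d) n, sd a (a + sm s k) ≤ L := fun k hk =>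
    (H28A.sd_sm a s n hk).trans hsn
  have hkW : ∀ k ∈ box (0 : Site d) W, sd a (a + sm s k) ≤ 2 * L := fun k hk =>
    (H28A.sd_sm a s W hk).trans (by rw [hW]; exact hsW)
  have hSN : ∀ i, S i ⊆ box 0 N := by
    intro i z hz
    rw [hSdef] at hz
    obtain ⟨k, hk, -, rfl⟩ := exists_of_mem_face hz
    apply hbox
    rw [mem_box]
    have := hkL k hk
    omega
  have hd0 : (0 : ℝ) < d := by exact_mod_cast (by omega : 0 < d)
  -- the events
  set A1 : Set (Site d → ℝ) := {V | ¬ RegE V N (3 * L) L a E (κ / 4 * L)} with hA1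
  set A2 : Set (Site d → ℝ) := {V | ¬ ∀ x ∈ box a (2 * L), ∀ y ∈ box a (2 * L), L + 1 ≤ sd x y →
    κ * L ≤ DL (box 0 N) E V x y} with hA2
  obtain ⟨Bk, hBk⟩ : ∃ Bk : Site d → Set (Site d → ℝ), Bk = fun k =>
    toMeasurable (PP d (gl σ)) {V | BadE V N M s E S (a + sm s k)} := ⟨_, rfl⟩
  set T3 : ℝ := 4 * pt * (2 * n + 1) ^ d with hT3
  set A3 : Set (Site d → ℝ) := {V | ENNReal.ofReal T3 ≤ ∑ k ∈ box (0 : Site d) n,
    Set.indicator (Bk k) 1 V} with hA3
  set T4 : ℝ := 4 * (2 * W + 1) ^ d * (d * (y * (cs * s) ^ q)) with hT4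
  set A4 : Set (Site d → ℝ) := {V | ENNReal.ofReal T4 ≤ ∑ k ∈ box (0 : Site d) W,
    ∑ i : Fin d, (osc V N E (S i) (a + sm s k) s) ^ q} with hA4
  have hsL : s ≤ L := by
    have : s * 1 ≤ s * (8 * M + 8) := Nat.mul_le_mul_left _ (by omega)
    omega
  have hL1' : 1 ≤ L := by omega
  have hW1 : box a (3 * L + 1) ⊆ box 0 N := (box_mono a (by omega)).trans hbox
  have p1 : PP d (gl σ) A1 ≤ ENNReal.ofReal (1 / 8) :=
    hreg σ E N (3 * L) L a hpar hL1 (by omega) hW1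
  have p2 : PP d (gl σ) A2 ≤ ENNReal.ofReal (1 / 4) := hins
  have hT3pos : 0 < T3 := by positivity
  have hT4pos : 0 < T4 := by positivity
  have p3 : PP d (gl σ) A3 ≤ ENNReal.ofReal (1 / 4) := by
    refine markov_sum (c := ENNReal.ofReal pt) (box (0 : Site d) n) (fun k _ => ?_)
      (fun k hk => ?_) ?_ ENNReal.ofReal_ne_top ?_
    · rw [hBk]
      exact measurable_one.indicator (measurableSet_toMeasurable _ _)
    · rw [hBk, lintegral_indicator_one (measurableSet_toMeasurable _ _), measure_toMeasurable, hpt]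
      have hsub : box (a + sm s k) (4 * (M * s) + 2) ⊆ box 0 N := by
        refine Finset.Subset.trans (fun z hz => ?_) hbox
        rw [mem_box] at hz ⊢
        have h1 := hkL k hk
        have h2 := sd_triangle a (a + sm s k) z
        omega
      exact prob_BadE trf hd hσ hp.le hSn hSN hsub (hcond N _ hsub)
    · rw [Ne, ENNReal.ofReal_eq_zero, not_le]
      exact hT3pos
    · rw [card_box, ← ENNReal.ofReal_natCast, ← ENNReal.ofReal_mul (by positivity)]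
      have e : (4 : ℝ≥0∞) = ENNReal.ofReal 4 := by simp
      rw [e, ← ENNReal.ofReal_mul (by norm_num)]
      apply ENNReal.ofReal_le_ofReal
      rw [hT3]
      push_cast
      exact le_of_eq (by ring)
  have hmo : ∀ k, Measurable fun V : Site d → ℝ =>
      ∑ i : Fin d, (osc V N E (S i) (a + sm s k) s) ^ q := fun k =>
    Finset.measurable_sum _ fun i _ => (measurable_osc N E (S i) (a + sm s k) s).pow_const q
  have p4 : PP d (gl σ) A4 ≤ ENNReal.ofReal (1 / 4) := by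
    refine markov_sum (c := ENNReal.ofReal (d * (y * (cs * s) ^ q))) (box (0 : Site d) W)
      (fun k _ => hmo k) (fun k hk => ?_) ?_ ENNReal.ofReal_ne_top ?_
    · have hsub : box (a + sm s k) s ⊆ box 0 N := by
        refine Finset.Subset.trans (fun z hz => ?_) hbox
        rw [mem_box] at hz ⊢
        have h1 := hkW k hk
        have h2 := sd_triangle a (a + sm s k) z
        omega
      rw [lintegral_finsetSum _ (fun i _ =>
        (measurable_osc N E (S i) (a + sm s k) s).pow_const q)]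
      refine (Finset.sum_le_sum fun i _ => hosc N (S i) (a + sm s k) (hSn i) (hSN i) hsub).trans
        (le_of_eq ?_)
      rw [Finset.sum_const, Finset.card_univ, Fintype.card_fin, nsmul_eq_mul,
        ← ENNReal.ofReal_natCast, ← ENNReal.ofReal_mul (by positivity)]
    · rw [Ne, ENNReal.ofReal_eq_zero, not_le]
      exact hT4pos
    · rw [card_box, ← ENNReal.ofReal_natCast, ← ENNReal.ofReal_mul (by positivity)]
      have e : (4 : ℝ≥0∞) = ENNReal.ofReal 4 := by simp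
      rw [e, ← ENNReal.ofReal_mul (by norm_num)]
      apply ENNReal.ofReal_le_ofReal
      rw [hT4]
      push_cast
      linarith only
  obtain ⟨V, hV⟩ : ∃ V, V ∉ (A1 ∪ A2) ∪ (A3 ∪ A4) := by
    by_contra hcon
    push Not at hcon
    have h1 : (A1 ∪ A2) ∪ (A3 ∪ A4) = Set.univ := Set.eq_univ_of_forall hcon
    have h2 : PP d (gl σ) ((A1 ∪ A2) ∪ (A3 ∪ A4)) ≤ ENNReal.ofReal (7 / 8) := by
      calc PP d (gl σ) ((A1 ∪ A2) ∪ (A3 ∪ A4))
          ≤ (PP d (gl σ) A1 + PP d (gl σ) A2) + (PP d (gl σ) A3 + PP d (gl σ) A4) :=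
            (measure_union_le _ _).trans (add_le_add (measure_union_le _ _)
              (measure_union_le _ _))
        _ ≤ (ENNReal.ofReal (1 / 8) + ENNReal.ofReal (1 / 4)) +
            (ENNReal.ofReal (1 / 4) + ENNReal.ofReal (1 / 4)) :=
            add_le_add (add_le_add p1 p2) (add_le_add p3 p4)
        _ = _ := by
            rw [← ENNReal.ofReal_add (by norm_num) (by norm_num),
              ← ENNReal.ofReal_add (by norm_num) (by norm_num),
              ← ENNReal.ofReal_add (by norm_num) (by norm_num)]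
            norm_num
    rw [h1, measure_univ] at h2
    have h3 : ENNReal.ofReal (7 / 8) < 1 := by
      rw [ENNReal.ofReal_lt_one]
      norm_num
    exact absurd h2 (not_le.2 h3)
  simp only [Set.mem_union, not_or] at hV
  obtain ⟨⟨hV1, hV2⟩, hV3, hV4⟩ := hV
  rw [hA1, Set.mem_ofPred_eq, not_not] at hV1
  rw [hA2, Set.mem_ofPred_eq, not_not] at hV2
  rw [hA3, Set.mem_ofPred_eq, not_le] at hV3
  rw [hA4, Set.mem_ofPred_eq, not_le] at hV4
  obtain ⟨r1, r2, r3, r4, r5⟩ := hV1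
  set G : Finset (Site d) := (box (0 : Site d) n).filter fun k => V ∉ Bk k with hG
  obtain ⟨O, hO⟩ : ∃ O : Site d → Fin d → ℝ, O = fun k i =>
    (osc V N E (S i) (a + sm s k) s).toReal := ⟨_, rfl⟩
  have hO0 : ∀ k i, 0 ≤ O k i := fun k i => by rw [hO]; exact ENNReal.toReal_nonneg
  haveI : Nonempty (Fin d) := ⟨⟨0, by omega⟩⟩
  obtain ⟨c, hc⟩ : ∃ c : Site d → ℝ, c = fun k =>
    (Finset.univ.sup' Finset.univ_nonempty (O k)) / s := ⟨_, rfl⟩
  have hc0 : ∀ k, 0 ≤ c k := fun k => by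
    rw [hc]
    refine div_nonneg ?_ hs0.le
    exact (hO0 k _).trans (Finset.le_sup' (O k) (Finset.mem_univ ⟨0, by omega⟩))
  -- the two counts
  have hcardG : (((box (0 : Site d) n) \ G).card : ℝ) ≤ T3 := by
    have h1 : (box (0 : Site d) n) \ G = (box (0 : Site d) n).filter fun k => V ∈ Bk k := by
      ext k
      rw [hG, Finset.mem_sdiff, Finset.mem_filter, Finset.mem_filter]
      constructor
      · rintro ⟨q1, q2⟩
        exact ⟨q1, by_contra fun q3 => q2 ⟨q1, q3⟩⟩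
      · rintro ⟨q1, q2⟩
        exact ⟨q1, fun q3 => q3.2 q2⟩
    have h2 := indicator_sum_card (box (0 : Site d) n) Bk V
    rw [h2] at hV3
    have h3 := hV3.le
    rw [← ENNReal.ofReal_natCast] at h3
    rw [h1]
    exact (ENNReal.ofReal_le_ofReal_iff hT3pos.le).1 h3
  have hsum : ∑ k ∈ box (0 : Site d) W, (c k / cs) ^ q ≤ 4 * (2 * W + 1) ^ d * (d * y) := by
    have h1 : ∑ k ∈ box (0 : Site d) W, ∑ i : Fin d, O k i ^ q ≤ T4 := by
      have h2 := ENNReal.toReal_mono ENNReal.ofReal_ne_top hV4.le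
      have hne : ∀ k i, (osc V N E (S i) (a + sm s k) s) ^ q ≠ ∞ := fun k i =>
        ENNReal.pow_ne_top (osc_ne_top V N E _ _ s)
      rw [ENNReal.toReal_ofReal hT4pos.le, ENNReal.toReal_sum
        (fun k _ => ENNReal.sum_ne_top.2 fun i _ => hne k i)] at h2
      refine le_trans (le_of_eq ?_) h2
      refine Finset.sum_congr rfl fun k _ => ?_
      rw [ENNReal.toReal_sum (fun i _ => hne k i)]
      refine Finset.sum_congr rfl fun i _ => ?_
      rw [ENNReal.toReal_pow, hO]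
    have h2 : ∑ k ∈ box (0 : Site d) W, (c k / cs) ^ q ≤
        (∑ k ∈ box (0 : Site d) W, ∑ i : Fin d, O k i ^ q) * (1 / (s * cs)) ^ q := by
      rw [Finset.sum_mul]
      refine Finset.sum_le_sum fun k _ => ?_
      obtain ⟨i, -, hi⟩ := Finset.exists_mem_eq_sup' (Finset.univ_nonempty (α := Fin d)) (O k)
      have e : c k / cs = O k i * (1 / (s * cs)) := by
        rw [hc]
        simp only
        rw [hi]
        field_simp
      rw [e, mul_pow]
      refine mul_le_mul_of_nonneg_right ?_ (by positivity)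
      exact Finset.single_le_sum (f := fun i => O k i ^ q)
        (fun j _ => pow_nonneg (hO0 k j) q) (Finset.mem_univ i)
    refine h2.trans ((mul_le_mul_of_nonneg_right h1 (by positivity)).trans (le_of_eq ?_))
    rw [hT4]
    have e : (cs * (s : ℝ)) ^ q * (1 / (s * cs)) ^ q = 1 := by
      rw [← mul_pow]
      have : cs * (s : ℝ) * (1 / (s * cs)) = 1 := by field_simp
      rw [this, one_pow]
    calc 4 * (2 * (W : ℝ) + 1) ^ d * (d * (y * (cs * s) ^ q)) * (1 / (s * cs)) ^ q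
        = 4 * (2 * (W : ℝ) + 1) ^ d * (d * y) * ((cs * (s : ℝ)) ^ q * (1 / (s * cs)) ^ q) := by ring
      _ = _ := by rw [e, mul_one]
  -- the counting lemma
  have key := cnt2 d (fun x i => FD V (box 0 N) E (S i) x) a s n M m q (κ / 4 * L) (κ * L) cs c G
    hd hs1 (by omega) hM hdq hcs ?_ ?_ ?_ hc0 ?_ ?_
  · -- the contradiction
    rw [← hW] at key
    have hnR : (1 : ℝ) ≤ n := by exact_mod_cast (by omega : 1 ≤ n)
    have hWn' : 2 * (W : ℝ) + 1 ≤ 3 * n := by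
      have : 2 * W + 1 ≤ 3 * n := by omega
      exact_mod_cast this
    have h1 : T3 ≤ 4 * pt * 3 ^ d * (n : ℝ) ^ d := by
      rw [hT3, mul_assoc (4 * pt), ← mul_pow]
      have : (2 * (n : ℝ) + 1) ^ d ≤ (3 * n) ^ d := pow_le_pow_left₀ (by positivity) (by linarith only [hnR]) d
      exact mul_le_mul_of_nonneg_left this (by positivity)
    have h2 : (2 * (W : ℝ) + 1) ^ d ≤ 3 ^ d * (n : ℝ) ^ d := by
      rw [← mul_pow]
      exact pow_le_pow_left₀ (by positivity) hWn' d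
    have h2' : (2 * ((n : ℝ) + 4 * M + 3) + 1) ^ d ≤ 3 ^ d * (n : ℝ) ^ d := by
      have : (2 * ((n : ℝ) + 4 * M + 3) + 1) = 2 * (W : ℝ) + 1 := by
        rw [hW]; push_cast; ring
      rw [this]
      exact h2
    have h3 : (κ / (17 * cs)) * n ≤ m := by
      have h4 : 3 * κ * L / (32 * cs * s) < m + 1 := by rw [hm]; exact Nat.lt_floor_add_one _
      have h5 : 3 * κ * n / (32 * cs) ≤ 3 * κ * L / (32 * cs * s) := by
        rw [div_le_div_iff₀ (by positivity) (by positivity)]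
        have : (s : ℝ) * n ≤ L := by exact_mod_cast hsn
        have h6 : 3 * κ * n * (32 * cs * s) = (32 * cs * (3 * κ)) * (s * n) := by ring
        have h7 : 3 * κ * L * (32 * cs) = (32 * cs * (3 * κ)) * L := by ring
        rw [h6, h7]
        exact mul_le_mul_of_nonneg_left this (by positivity)
      have h8 : 30 ≤ κ / cs * n := by
        rw [div_mul_eq_mul_div, le_div_iff₀ (by positivity)]
        rw [div_le_iff₀ hκ] at hn₁
        have h9 : (n₁ : ℝ) + 1 ≤ n := by exact_mod_cast hn1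
        have h9' := mul_le_mul_of_nonneg_left h9 hκ.le
        linarith only [hn₁, h9', hκ]
      have h10 : 3 * κ * n / (32 * cs) = 3 / 32 * (κ / cs * n) := by
        field_simp
      have h11 : κ / (17 * cs) * n = 1 / 17 * (κ / cs * n) := by
        field_simp
      rw [h11]
      rw [h10] at h5
      linarith only [h4, h5, h8]
    have h4 : (κ / (17 * cs)) ^ d * (n : ℝ) ^ d ≤ (m : ℝ) ^ d := by
      rw [← mul_pow]
      exact pow_le_pow_left₀ (by positivity) h3 d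
    have hn0 : (0 : ℝ) < (n : ℝ) ^ d := by positivity
    have h5 : 4 * (2 * (W : ℝ) + 1) ^ d * (d * y) ≤
        (4 * 3 ^ d * (d * y)) * (n : ℝ) ^ d := by
      calc 4 * (2 * (W : ℝ) + 1) ^ d * (d * y) = (4 * (d * y)) * (2 * (W : ℝ) + 1) ^ d := by
            ring
        _ ≤ (4 * (d * y)) * (3 ^ d * (n : ℝ) ^ d) :=
            mul_le_mul_of_nonneg_left h2 (by positivity)
        _ = _ := by ring
    have h6 : (m : ℝ) ^ d ≤ 4 * pt * 3 ^ d * (n : ℝ) ^ d + 2 * (3 ^ d * (n : ℝ) ^ d) / M +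
        (2 ^ d + 2 * (8 * M + 9) ^ d / M) * ((4 * 3 ^ d * (d * y)) * (n : ℝ) ^ d) := by
      refine key.trans (add_le_add (add_le_add (hcardG.trans h1) ?_) ?_)
      · gcongr
      · refine mul_le_mul_of_nonneg_left (hsum.trans h5) (by positivity)
    have h7 : 4 * pt * 3 ^ d * (n : ℝ) ^ d + 2 * (3 ^ d * (n : ℝ) ^ d) / M +
        (2 ^ d + 2 * (8 * M + 9) ^ d / M) * ((4 * 3 ^ d * (d * y)) * (n : ℝ) ^ d) =
        (4 * pt * 3 ^ d + 2 * 3 ^ d / M +
        (2 ^ d + 2 * (8 * M + 9) ^ d / M) * (4 * 3 ^ d * (d * y))) * (n : ℝ) ^ d := by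
      ring
    rw [h7] at h6
    rw [← hpt] at hnum
    have h8 := mul_lt_mul_of_pos_right hnum hn0
    linarith only [h4, h6, h8]
  · -- t + 8 cs s m ≤ κ L
    have h1 : (m : ℝ) ≤ 3 * κ * L / (32 * cs * s) := by rw [hm]; exact Nat.floor_le (by positivity)
    rw [le_div_iff₀ (by positivity)] at h1
    linarith only [h1]
  · intro k hk i hi
    have hmem : a + sm s k ∈ box a (3 * L) := by
      rw [mem_box]
      have := hkL k hk
      omega
    refine (FD_le (z := a + sm s k) ?_ (r2 _ hmem _ hmem).1).trans (r4 _ hmem)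
    rw [hSdef]
    exact mem_face hk hi
  · intro k hk i hi
    refine le_FD (hSn i) fun z hz => ?_
    rw [hSdef] at hz
    obtain ⟨k', hk', hi', rfl⟩ := exists_of_mem_face hz
    refine hV2 _ ?_ _ ?_ ?_
    · rw [mem_box]
      have := hkL k' hk'
      omega
    · rw [mem_box]
      have := hkL k hk
      omega
    · have h1 := abs_le_sd (a + sm s k') (a + sm s k) i
      rw [sm_sub_apply, sm_sub_apply, hi, hi'] at h1
      have h2 : a i + (s : ℤ) * -(n : ℤ) - (a i + (s : ℤ) * (n : ℤ)) = -(2 * ((s : ℤ) * n)) := by ring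
      rw [h2, abs_neg, abs_of_nonneg (by positivity)] at h1
      have h3 : 2 * (s * n) ≤ sd (a + sm s k') (a + sm s k) := by exact_mod_cast h1
      have h4 : s * (n + 1) ≤ 2 * (s * n) := by
        have : s ≤ s * n := Nat.le_mul_of_pos_right s (by omega)
        have e : s * (n + 1) = s * n + s := by ring
        omega
      omega
  · intro k hk x hx i
    refine (le_osc V N E (S i) hx).trans ?_
    have h1 : O k i ≤ Finset.univ.sup' Finset.univ_nonempty (O k) :=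
      Finset.le_sup' (O k) (Finset.mem_univ i)
    rw [hc]
    simp only
    rw [div_mul_cancel₀ _ hs0.ne']
    rw [hO] at h1 ⊢
    exact h1
  · intro k hk
    rw [hG, Finset.mem_filter] at hk
    refine good_of_not_bad fun hbad => hk.2 ?_
    rw [hBk]
    exact subset_toMeasurable _ _ hbad

end Pool.Agent.LE.H93W
end
end -- Pool.Agent.Helper93_LEW.CRT

section -- Pool.Agent.Helper93_LEC.USO

/-!
# USO: upper semicontinuity where the Lyapunov exponent vanishes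
-/

set_option autoImplicit false
set_option linter.unusedSectionVars false

open MeasureTheory ProbabilityTheory Function Filter

open scoped ENNReal BigOperators Topology

noncomputable section

namespace Pool.Agent.LE.H93C

open Pool.Agent.Anderson Pool.Agent.Loc Pool.Agent.Mob Pool.Agent.Helper54.Bal
  Pool.Agent.LE.H93

variable {d : ℕ}

/-- the parameters near `q₀` stay in a compact set -/
theorem exists_par {q₀ : ℝ × ℝ} (h : q₀.1 ≠ 0) : ∃ B : ℝ, 0 < B ∧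
    ∀ᶠ q : ℝ × ℝ in 𝓝 q₀, Par B q.1 q.2 ∧ q.1 ≠ 0 := by
  have h0 : 0 < |q₀.1| := abs_pos.2 h
  refine ⟨|q₀.2| + |q₀.1| + 1 + 2 / |q₀.1|, by positivity, ?_⟩
  have c1 : ContinuousAt (fun q : ℝ × ℝ => |q.1|) q₀ := continuous_fst.abs.continuousAt
  have c2 : ContinuousAt (fun q : ℝ × ℝ => |q.2|) q₀ := continuous_snd.abs.continuousAt
  have e1 : ∀ᶠ q : ℝ × ℝ in 𝓝 q₀, |q.1| < |q₀.1| + 1 :=
    c1.eventually_lt continuousAt_const (by simp)
  have e2 : ∀ᶠ q : ℝ × ℝ in 𝓝 q₀, |q.2| < |q₀.2| + 1 :=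
    c2.eventually_lt continuousAt_const (by simp)
  have e3 : ∀ᶠ q : ℝ × ℝ in 𝓝 q₀, |q₀.1| / 2 < |q.1| :=
    continuousAt_const.eventually_lt c1 (by linarith)
  filter_upwards [e1, e2, e3] with q h1 h2 h3
  have hq : 0 < |q.1| := by linarith only [h0, h3]
  have h4 : 0 < 2 / |q₀.1| := by positivity
  refine ⟨⟨by linarith only [abs_nonneg q₀.1, h0, h2, h4], by linarith only [abs_nonneg q₀.2, h1, h4], ?_⟩, abs_pos.1 hq⟩
  have h5 : 2 / |q₀.1| * (|q₀.1| / 2) = 1 := by field_simp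
  have h6 : 2 / |q₀.1| * (|q₀.1| / 2) ≤ 2 / |q₀.1| * |q.1| :=
    mul_le_mul_of_nonneg_left h3.le h4.le
  have h7 : 0 ≤ (|q₀.2| + |q₀.1| + 1) * |q.1| := by positivity
  calc (1 : ℝ) ≤ 2 / |q₀.1| * |q.1| := by linarith only [h5, h6]
    _ ≤ (|q₀.2| + |q₀.1| + 1) * |q.1| + 2 / |q₀.1| * |q.1| := by linarith only [h7]
    _ = _ := by ring

/-- from a product bound -/
theorem le_of_prod {x y : ℝ≥0∞} {p c : ℝ} (hp : 0 < p) (hx : ENNReal.ofReal p < x)
    (h : x * y ≤ ENNReal.ofReal c) : y ≤ ENNReal.ofReal (c / p) := by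
  have h1 : ENNReal.ofReal p * y ≤ ENNReal.ofReal c := (mul_le_mul' hx.le le_rfl).trans h
  rw [ENNReal.ofReal_div_of_pos hp]
  rw [ENNReal.le_div_iff_mul_le (Or.inl (by simpa using hp)) (Or.inl ENNReal.ofReal_ne_top),
    mul_comm]
  exact h1

theorem psg_anti (σ E : ℝ) (L : ℕ) {κ κ' : ℝ} (h : κ' ≤ κ) (v : Site d) :
    PP d (gl σ) {V | SG V L κ E v} ≤ PP d (gl σ) {V | SG V L κ' E v} :=
  measure_mono fun _ hV => sg_mono hV h

theorem pnsg_mono (σ E : ℝ) (L : ℕ) {κ κ' : ℝ} (h : κ' ≤ κ) (v : Site d) :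
    PP d (gl σ) {V | ¬ SG V L κ' E v} ≤ PP d (gl σ) {V | ¬ SG V L κ E v} :=
  measure_mono fun _ hV hc => hV (sg_mono hc h)

theorem uso (gvu : GvuStmt) (zos : ZosStmt) (ins : InsStmt2) (upb : UpbStmt) (bes : BesStmt)
    (tvc : TvcStmt) : UsoStmt := by
  classical
  intro d γ hd hγ q₀ hq₀ hγ0 y hy
  simp only at hy
  rw [hγ0] at hy
  set κ : ℝ := min (y / 2) 1 with hκdef
  have hκ : 0 < κ := lt_min (by linarith only [hy]) one_pos
  have hκ1 : κ ≤ 1 := min_le_right _ _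
  have hκy : κ < y := lt_of_le_of_lt (min_le_left _ _) (by linarith only [hy])
  obtain ⟨B, hB, hpar⟩ := exists_par hq₀
  obtain ⟨κB, pB, hκB, hpB, hpB1, hbes⟩ := bes d B (κ / 8) hd hB (by positivity) (by linarith only [hκ1])
  set κ1 : ℝ := min κB (κ / 8) with hκ1def
  have hκ10 : 0 < κ1 := lt_min hκB (by positivity)
  have hκ1B : κ1 ≤ κB := min_le_left _ _
  have hκ18 : κ1 ≤ κ / 8 := min_le_right _ _
  set p1 : ℝ := min pB (1 / 2) with hp1def
  have hp10 : 0 < p1 := lt_min hpB (by norm_num)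
  have hp1B : p1 ≤ pB := min_le_left _ _
  have hp12 : p1 ≤ 1 / 2 := min_le_right _ _
  obtain ⟨K, hK, η₀, θ, hη₀, hθ, hθ1, hupb⟩ := upb d B (κ1 / 2) (κ / 2) (κ / 4) hd hB
    (by positivity) (by positivity) (by positivity)
  have hK0 : (1 : ℝ) ≤ K := by exact_mod_cast hK
  set η : ℝ := min η₀ (κ1 / (200 * K)) with hηdef
  have hη : 0 < η := lt_min hη₀ (by positivity)
  have hηK : η * K ≤ κ1 / 200 := by
    have h1 : η ≤ κ1 / (200 * K) := min_le_right _ _
    calc η * K ≤ κ1 / (200 * K) * K := mul_le_mul_of_nonneg_right h1 (by positivity)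
      _ = κ1 / 200 := by field_simp
  obtain ⟨Lu, hupb⟩ := hupb η hη (min_le_left _ _)
  obtain ⟨Lz, hzos⟩ := zos d η K hd hη hK
  obtain ⟨Li, hins⟩ := ins d η (κ / 4) K hd hη (by positivity) hK (by nlinarith only [hκ10, hκ18, hηK])
  set θ' : ℝ := θ * p1 / 20 with hθ'def
  have hθ' : 0 < θ' := by positivity
  obtain ⟨Q₀, hQ₀, hgvu⟩ := gvu d B η θ' hd hB hη hθ'
  obtain ⟨J, l, hl, hgvu⟩ := hgvu (K * Q₀) (Nat.le_mul_of_pos_left _ hK)
  obtain ⟨Lb, hbes⟩ := hbes (2 ^ (2 * J + 1)) Nat.one_le_two_pow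
  -- large scales at `q₀`
  have hlya := ((hγ q₀.1 hq₀ q₀.2).2 (κ1 / 2) (by positivity)).1
  rw [hγ0, zero_add] at hlya
  have hev : ∀ᶠ L : ℕ in atTop, PP d (gl q₀.1) {V | SG V L (κ1 / 2) q₀.2 0} ≤
      ENNReal.ofReal (p1 / 2) := by
    have h1 : (0 : ℝ≥0∞) < ENNReal.ofReal (p1 / 2) := by
      rw [ENNReal.ofReal_pos]
      positivity
    exact (hlya.eventually_lt_const h1).mono fun L hL => hL.le
  obtain ⟨L₁, hL₁⟩ := eventually_atTop.1 hev
  set ℓ₀ : ℕ := max l (max (max Lu Lz) (max (max Li Lb) (max L₁ 1))) with hℓ₀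
  have hℓl : l ≤ ℓ₀ := le_max_left _ _
  have hℓu : Lu ≤ ℓ₀ := by omega
  have hℓz : Lz ≤ ℓ₀ := by omega
  have hℓi : Li ≤ ℓ₀ := by omega
  have hℓb : Lb ≤ ℓ₀ := by omega
  have hℓ1 : L₁ ≤ ℓ₀ := by omega
  have hℓ : 1 ≤ ℓ₀ := by omega
  -- the first window, near `q₀`
  have hwin : ∀ᶠ q : ℝ × ℝ in 𝓝 q₀, ∀ j ∈ Finset.range (J + 1),
      PP d (gl q.1) {V | SG V (Q₀ * (2 ^ j * ℓ₀)) κ1 q.2 0} ≤ ENNReal.ofReal p1 := by
    refine (Finset.eventually_all _).2 fun j _ => ?_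
    have hLj : ℓ₀ ≤ Q₀ * (2 ^ j * ℓ₀) := by
      calc ℓ₀ = 1 * (1 * ℓ₀) := by ring
        _ ≤ Q₀ * (2 ^ j * ℓ₀) := Nat.mul_le_mul hQ₀ (Nat.mul_le_mul_right _ Nat.one_le_two_pow)
    exact (tvc d (Q₀ * (2 ^ j * ℓ₀)) (κ1 / 2) κ1 (p1 / 2) p1 q₀ (hℓ.trans hLj) (by positivity)
      (by linarith only [hp10]) hq₀).1 (by linarith only [hκ10]) (hL₁ _ (hℓ1.trans hLj))
  filter_upwards [hpar, hwin] with q hq hq2
  obtain ⟨hqp, hq0⟩ := hq
  obtain ⟨σ, E⟩ := q
  simp only at hqp hq0 hq2 ⊢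
  refine lt_of_le_of_lt ?_ hκy
  by_contra hcon
  rw [not_le] at hcon
  -- the good scales
  have hgood : ∀ w : ℕ, ∃ (j N : ℕ) (a : Site d), j ≤ J ∧
      box a (12 * (K * Q₀ * (2 ^ j * (2 ^ ((J + 1) * w) * ℓ₀)))) ⊆ box 0 N ∧
        PP d (gl σ) {V | ¬ GoodU V N (K * Q₀) (2 ^ j * (2 ^ ((J + 1) * w) * ℓ₀)) a E η} ≤
          ENNReal.ofReal (θ' / ((K * Q₀ : ℕ) : ℝ) ^ (2 * d)) := by
    intro w
    obtain ⟨j, hj, N, a, h1, h2⟩ := hgvu (2 ^ ((J + 1) * w) * ℓ₀)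
      (hℓl.trans (Nat.le_mul_of_pos_left _ (Nat.pow_pos (by norm_num)))) σ E hqp
    exact ⟨j, N, a, hj, h1, h2⟩
  choose j N a hjJ hbox hbad using hgood
  set ell : ℕ → ℕ := fun w => 2 ^ (j w) * (2 ^ ((J + 1) * w) * ℓ₀) with hell
  have hell0 : ∀ w, ℓ₀ ≤ ell w := fun w => by
    rw [hell]
    calc ℓ₀ = 1 * (1 * ℓ₀) := by ring
      _ ≤ 2 ^ (j w) * (2 ^ ((J + 1) * w) * ℓ₀) :=
        Nat.mul_le_mul Nat.one_le_two_pow (Nat.mul_le_mul_right _ Nat.one_le_two_pow)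
  have hLell : ∀ w, ell w ≤ Q₀ * ell w := fun w => Nat.le_mul_of_pos_left _ hQ₀
  have hL0 : ∀ w, ℓ₀ ≤ Q₀ * ell w := fun w => (hell0 w).trans (hLell w)
  -- the first window without conduction
  have hex : ∃ w, ¬ PP d (gl σ) {V | SG V (Q₀ * ell w) κ1 E 0} ≤ ENNReal.ofReal p1 := by
    have h1 := ((hγ σ hq0 E).2 (γ σ E - κ1) (by linarith only [hκ10, hκ18, hcon])).2
    rw [show γ σ E - (γ σ E - κ1) = κ1 by ring] at h1
    have h2 := pr_tendsto_one h1
    have h3 : ∀ᶠ L : ℕ in atTop, ENNReal.ofReal p1 < pr d σ E κ1 L := by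
      refine h2.eventually_const_lt ?_
      rw [ENNReal.ofReal_lt_one]
      linarith only [hκ1, hκ10, hκ18, hp12]
    obtain ⟨L₂, hL₂⟩ := eventually_atTop.1 h3
    refine ⟨L₂, not_le.2 (hL₂ _ ?_)⟩
    calc L₂ ≤ 2 ^ L₂ := Nat.lt_two_pow_self.le
      _ ≤ 2 ^ ((J + 1) * L₂) := Nat.pow_le_pow_right (by norm_num)
          (Nat.le_mul_of_pos_left _ (by omega))
      _ ≤ 2 ^ ((J + 1) * L₂) * ℓ₀ := Nat.le_mul_of_pos_right _ hℓ
      _ ≤ ell L₂ := Nat.le_mul_of_pos_left _ (Nat.pow_pos (by norm_num))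
      _ ≤ _ := hLell L₂
  obtain ⟨w, hw, hmin⟩ : ∃ w, ¬ PP d (gl σ) {V | SG V (Q₀ * ell w) κ1 E 0} ≤ ENNReal.ofReal p1 ∧
      ∀ v < w, PP d (gl σ) {V | SG V (Q₀ * ell v) κ1 E 0} ≤ ENNReal.ofReal p1 :=
    ⟨Nat.find hex, Nat.find_spec hex, fun v hv => not_not.1 (Nat.find_min hex hv)⟩
  have hw0 : w ≠ 0 := by
    rintro rfl
    apply hw
    have h1 := hq2 (j 0) (Finset.mem_range.2 (Nat.lt_succ_of_le (hjJ 0)))
    have h2 : Q₀ * ell 0 = Q₀ * (2 ^ (j 0) * ℓ₀) := by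
      rw [hell]
      simp
    rw [h2]
    exact h1
  obtain ⟨v, rfl⟩ := Nat.exists_eq_succ_of_ne_zero hw0
  have hcond := hmin v (Nat.lt_succ_self v)
  rw [not_le] at hw
  set w : ℕ := v + 1 with hwdef
  have hw' : ENNReal.ofReal p1 < PP d (gl σ) {V | SG V (Q₀ * ell w) κ1 E 0} := hw
  -- the numbers
  set p₁ : ℝ := θ' / ((K * Q₀ : ℕ) : ℝ) ^ (2 * d) with hp₁
  have hQ0R : (1 : ℝ) ≤ Q₀ := by exact_mod_cast hQ₀
  have hKQ : (Q₀ : ℝ) ^ d ≤ ((K * Q₀ : ℕ) : ℝ) ^ (2 * d) := by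
    have h1 : (Q₀ : ℝ) ≤ ((K * Q₀ : ℕ) : ℝ) := by
      push_cast
      nlinarith only [hK0]
    calc (Q₀ : ℝ) ^ d ≤ ((K * Q₀ : ℕ) : ℝ) ^ d := pow_le_pow_left₀ (by positivity) h1 d
      _ ≤ _ := pow_le_pow_right₀ (hQ0R.trans h1) (by omega)
  have hQd : (1 : ℝ) ≤ (Q₀ : ℝ) ^ d := one_le_pow₀ hQ0R
  have hp₁0 : 0 ≤ p₁ := by positivity
  have hp₁le : p₁ ≤ θ' / (Q₀ : ℝ) ^ d :=
    div_le_div_of_nonneg_left hθ'.le (by positivity) hKQ
  have hp₁le2 : p₁ ≤ θ' := hp₁le.trans (div_le_self hθ'.le hQd)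
  have hθ'20 : θ' ≤ 1 / 40 := by
    rw [hθ'def]
    have : θ * p1 ≤ 1 * (1 / 2) := mul_le_mul hθ1 hp12 hp10.le (by norm_num)
    linarith only [this]
  have hθ'p : θ' ≤ θ * p1 := by
    rw [hθ'def]
    have : 0 < θ * p1 := by positivity
    linarith only [hθ'def, hθ']
  have hp₁a : p₁ ≤ θ / (Q₀ : ℝ) ^ d := by
    refine hp₁le.trans ?_
    gcongr
    nlinarith only [hκ1, hpB1, hκ10, hκ18, hp1B, hθ, hθ'def]
  have hp₁b : p₁ / p1 ≤ θ / (Q₀ : ℝ) ^ d := by
    rw [div_le_iff₀ hp10]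
    refine hp₁le.trans ?_
    rw [div_mul_eq_mul_div]
    gcongr
  -- insulation at the rate `κ1 / 2`
  have hLw := hL0 w
  have hlw : 1 ≤ ell w := hℓ.trans (hell0 w)
  have z1 := hzos σ E κ1 p₁ (N w) Q₀ (ell w) (a w) hq0 hp₁0 hQ₀ hlw (hℓz.trans hLw) (hbox w)
    (hbad w)
  have z2 : PP d (gl σ) {V | ¬ SG V (Q₀ * ell w) (κ1 / 2) E 0} ≤
      ENNReal.ofReal (θ / (Q₀ : ℝ) ^ d) := by
    refine (pnsg_mono σ E (Q₀ * ell w) (κ := κ1 - 12 * η * K) (by nlinarith only [hκ10, hηK]) 0).trans ?_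
    exact (le_of_prod hp10 hw' z1).trans (ENNReal.ofReal_le_ofReal hp₁b)
  -- the rate is at least `κ / 2`
  have z3 : ENNReal.ofReal (1 / 4) < PP d (gl σ) {V | SG V (Q₀ * ell w) (κ / 2) E 0} := by
    by_contra hc
    rw [not_lt] at hc
    have h1 := hupb σ E (γ σ E) (N w) Q₀ (ell w) (a w) hqp (hγ σ hq0 E) hQ₀ hlw (hℓu.trans hLw)
      (hbox w) ((hbad w).trans (ENNReal.ofReal_le_ofReal hp₁a)) z2 hc
    linarith only [hκ10, hκ18, hcon, h1]
  have z4 := hzos σ E (κ / 2) p₁ (N w) Q₀ (ell w) (a w) hq0 hp₁0 hQ₀ hlw (hℓz.trans hLw) (hbox w)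
    (hbad w)
  have z5 : PP d (gl σ) {V | ¬ SG V (Q₀ * ell w) (κ / 4) E (a w)} ≤
      ENNReal.ofReal (p₁ / (1 / 4)) := by
    rw [H3G.prob_nsg]
    refine (pnsg_mono σ E (Q₀ * ell w) (κ := κ / 2 - 12 * η * K) (by nlinarith only [hκ10, hκ18, hηK]) 0).trans ?_
    exact le_of_prod (by norm_num) z3 z4
  -- insulation
  have hins' : PP d (gl σ) {V | ¬ ∀ x ∈ box (a w) (2 * (Q₀ * ell w)),
      ∀ y ∈ box (a w) (2 * (Q₀ * ell w)), Q₀ * ell w + 1 ≤ sd x y →
        κ / 8 * ((Q₀ * ell w : ℕ) : ℝ) ≤ DL (box 0 (N w)) E V x y} ≤ ENNReal.ofReal (1 / 4) := by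
    have hsub : {V : Site d → ℝ | ¬ ∀ x ∈ box (a w) (2 * (Q₀ * ell w)),
        ∀ y ∈ box (a w) (2 * (Q₀ * ell w)), Q₀ * ell w + 1 ≤ sd x y →
        κ / 8 * ((Q₀ * ell w : ℕ) : ℝ) ≤ DL (box 0 (N w)) E V x y} ⊆
        {V | ¬ GoodU V (N w) (K * Q₀) (ell w) (a w) E η} ∪
          {V | ¬ SG V (Q₀ * ell w) (κ / 4) E (a w)} := by
      intro V hV
      by_contra hc
      simp only [Set.mem_union, Set.mem_ofPred_eq, not_or, not_not] at hc
      apply hV
      intro x hx y hy hxy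
      have h1 := hins V (N w) Q₀ (ell w) (a w) E hQ₀ hlw (hℓi.trans hLw) (hbox w) hc.1 hc.2 x hx
        y hy hxy
      push_cast
      have e : κ / 8 * ((Q₀ : ℝ) * (ell w : ℝ)) = κ / 4 / 2 * ((Q₀ : ℝ) * (ell w : ℝ)) := by ring
      rw [e]
      exact h1
    refine (measure_mono hsub).trans ((measure_union_le _ _).trans ?_)
    refine (add_le_add (hbad w) z5).trans ?_
    rw [← ENNReal.ofReal_add hp₁0 (by positivity)]
    apply ENNReal.ofReal_le_ofReal
    linarith only [hθ', hp₁le2, hθ'20]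
  -- the ratio of the scales
  have hell1 : ∀ w, ell w = 2 ^ (j w + (J + 1) * w) * ℓ₀ := fun w => by
    rw [hell, pow_add]
    ring
  have hLL : Q₀ * ell v ≤ Q₀ * ell w := by
    apply Nat.mul_le_mul_left
    rw [hell1, hell1]
    apply Nat.mul_le_mul_right
    apply Nat.pow_le_pow_right (by norm_num)
    have h1 := hjJ v
    rw [hwdef]
    nlinarith only [h1]
  have hLR : Q₀ * ell w ≤ 2 ^ (2 * J + 1) * (Q₀ * ell v) := by
    have h1 : ell w ≤ 2 ^ (2 * J + 1) * ell v := by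
      rw [hell1, hell1, ← mul_assoc, ← pow_add]
      apply Nat.mul_le_mul_right
      apply Nat.pow_le_pow_right (by norm_num)
      have h1 := hjJ w
      rw [hwdef] at h1 ⊢
      nlinarith only [h1]
    calc Q₀ * ell w ≤ Q₀ * (2 ^ (2 * J + 1) * ell v) := Nat.mul_le_mul_left _ h1
      _ = _ := by ring
  refine hbes σ E (N w) (Q₀ * ell w) (Q₀ * ell v) (a w) hqp (hℓb.trans (hL0 v)) hLL hLR ?_ ?_
    hins'
  · refine (box_mono (a w) ?_).trans (hbox w)
    have h1 : 1 * (Q₀ * ell w) ≤ K * (Q₀ * ell w) := Nat.mul_le_mul_right _ hK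
    have h2 : K * Q₀ * (2 ^ (j w) * (2 ^ ((J + 1) * w) * ℓ₀)) = K * (Q₀ * ell w) := by
      rw [hell]
      ring
    rw [h2]
    omega
  · exact (psg_anti σ E (Q₀ * ell v) hκ1B 0).trans (hcond.trans (ENNReal.ofReal_le_ofReal hp1B))

end Pool.Agent.LE.H93C
end
end -- Pool.Agent.Helper93_LEC.USO

section -- Pool.Agent.Helper93_LEC.USA

/-!
# USA: upper semicontinuity in the localized phase
-/

set_option autoImplicit false
set_option linter.unusedSectionVars false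

open MeasureTheory ProbabilityTheory Function Filter

open scoped ENNReal BigOperators Topology

noncomputable section

namespace Pool.Agent.LE.H93C

open Pool.Agent.Anderson Pool.Agent.Loc Pool.Agent.Mob Pool.Agent.Helper54.Bal
  Pool.Agent.LE.H93

variable {d : ℕ}

theorem usa (gvu : GvuStmt) (upb : UpbStmt) (tvc : TvcStmt) : UsaStmt := by
  classical
  intro d γ hd hγ q₀ hq₀ hγ0 y hy
  simp only at hy
  set g : ℝ := γ q₀.1 q₀.2 with hg
  set ε : ℝ := (y - g) / 4 with hεdef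
  have hε : 0 < ε := by
    rw [hεdef]
    linarith only [hy]
  obtain ⟨B, hB, hpar⟩ := exists_par hq₀
  obtain ⟨K, hK, η₀, θ, hη₀, hθ, hθ1, hupb⟩ := upb d B (g / 4) (g + 2 * ε) ε hd hB
    (by positivity) (by positivity) hε
  obtain ⟨Lu, hupb⟩ := hupb η₀ hη₀ le_rfl
  obtain ⟨Q₀, hQ₀, hgvu⟩ := gvu d B η₀ θ hd hB hη₀ hθ
  obtain ⟨J, l, hl, hgvu⟩ := hgvu (K * Q₀) (Nat.le_mul_of_pos_left _ hK)
  have hQ0R : (1 : ℝ) ≤ Q₀ := by exact_mod_cast hQ₀
  have hK0 : (1 : ℝ) ≤ K := by exact_mod_cast hK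
  set p₀ : ℝ := θ / (Q₀ : ℝ) ^ d with hp₀
  have hp₀0 : 0 < p₀ := by positivity
  -- large scales at `q₀`
  have hlya := (hγ q₀.1 hq₀ q₀.2).2
  have h1 := (hlya ε hε).1
  have h2 := (hlya (g / 2) (by positivity)).2
  have hev : ∀ᶠ L : ℕ in atTop, PP d (gl q₀.1) {V | SG V L (g + ε) q₀.2 0} ≤
      ENNReal.ofReal (1 / 8) ∧ PP d (gl q₀.1) {V | ¬ SG V L (g / 2) q₀.2 0} ≤
      ENNReal.ofReal (p₀ / 2) := by
    have e1 : (0 : ℝ≥0∞) < ENNReal.ofReal (1 / 8) := by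
      rw [ENNReal.ofReal_pos]
      norm_num
    have e2 : (0 : ℝ≥0∞) < ENNReal.ofReal (p₀ / 2) := by
      rw [ENNReal.ofReal_pos]
      positivity
    have e3 : g - g / 2 = g / 2 := by ring
    filter_upwards [h1.eventually_lt_const e1, h2.eventually_lt_const e2] with L a1 a2
    rw [← hg, e3] at a2
    exact ⟨a1.le, a2.le⟩
  obtain ⟨L₁, hL₁⟩ := eventually_atTop.1 hev
  set ℓ₀ : ℕ := max l (max Lu (max L₁ 1)) with hℓ₀
  have hℓl : l ≤ ℓ₀ := le_max_left _ _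
  have hℓu : Lu ≤ ℓ₀ := by omega
  have hℓ1 : L₁ ≤ ℓ₀ := by omega
  have hℓ : 1 ≤ ℓ₀ := by omega
  have hLj : ∀ j : ℕ, ℓ₀ ≤ Q₀ * (2 ^ j * ℓ₀) := fun j => by
    calc ℓ₀ = 1 * (1 * ℓ₀) := by ring
      _ ≤ Q₀ * (2 ^ j * ℓ₀) := Nat.mul_le_mul hQ₀ (Nat.mul_le_mul_right _ Nat.one_le_two_pow)
  have hwin : ∀ᶠ q : ℝ × ℝ in 𝓝 q₀, ∀ j ∈ Finset.range (J + 1),
      PP d (gl q.1) {V | SG V (Q₀ * (2 ^ j * ℓ₀)) (g + 2 * ε) q.2 0} ≤ ENNReal.ofReal (1 / 4) ∧
      PP d (gl q.1) {V | ¬ SG V (Q₀ * (2 ^ j * ℓ₀)) (g / 4) q.2 0} ≤ ENNReal.ofReal p₀ := by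
    refine (Finset.eventually_all _).2 fun j _ => ?_
    have a1 := (tvc d (Q₀ * (2 ^ j * ℓ₀)) (g + ε) (g + 2 * ε) (1 / 8) (1 / 4) q₀
      (hℓ.trans (hLj j)) (by norm_num) (by norm_num) hq₀).1 (by linarith only [hε])
      (hL₁ _ (hℓ1.trans (hLj j))).1
    have a2 := (tvc d (Q₀ * (2 ^ j * ℓ₀)) (g / 2) (g / 4) (p₀ / 2) p₀ q₀
      (hℓ.trans (hLj j)) (by positivity) (by linarith only [hp₀0]) hq₀).2 (by linarith only [hγ0])
      (hL₁ _ (hℓ1.trans (hLj j))).2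
    filter_upwards [a1, a2] with q b1 b2
    exact ⟨b1, b2⟩
  filter_upwards [hpar, hwin] with q hq hq2
  obtain ⟨hqp, hq0⟩ := hq
  obtain ⟨σ, E⟩ := q
  simp only at hqp hq0 hq2 ⊢
  obtain ⟨j, hj, N, a, hbox, hbad⟩ := hgvu ℓ₀ hℓl σ E hqp
  obtain ⟨b1, b2⟩ := hq2 j (Finset.mem_range.2 (Nat.lt_succ_of_le hj))
  have hKQ : (Q₀ : ℝ) ^ d ≤ ((K * Q₀ : ℕ) : ℝ) ^ (2 * d) := by
    have h1 : (Q₀ : ℝ) ≤ ((K * Q₀ : ℕ) : ℝ) := by
      push_cast
      nlinarith only [hK0]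
    calc (Q₀ : ℝ) ^ d ≤ ((K * Q₀ : ℕ) : ℝ) ^ d := pow_le_pow_left₀ (by positivity) h1 d
      _ ≤ _ := pow_le_pow_right₀ (hQ0R.trans h1) (by omega)
  have hp : θ / ((K * Q₀ : ℕ) : ℝ) ^ (2 * d) ≤ p₀ :=
    div_le_div_of_nonneg_left hθ.le (by positivity) hKQ
  have hfin := hupb σ E (γ σ E) N Q₀ (2 ^ j * ℓ₀) a hqp (hγ σ hq0 E) hQ₀
    (hℓ.trans (Nat.le_mul_of_pos_left _ (Nat.pow_pos (by norm_num)))) (hℓu.trans (hLj j)) hbox
    (hbad.trans (ENNReal.ofReal_le_ofReal hp)) b2 b1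
  have : g + 2 * ε + ε < y := by
    rw [hεdef]
    linarith only [hy]
  linarith only [hεdef, hε, hfin]

end Pool.Agent.LE.H93C
end
end -- Pool.Agent.Helper93_LEC.USA
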