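import Pool.Agent.Helper12_MEB.B063

/-!
# Merged copies (generated) of the modules

* `Pool.Agent.Helper93_LEC.BES`
* `Pool.Agent.Helper28_LEW.OSC`
* `Pool.Agent.Helper26_LCN.Unif`
* `Pool.Agent.Helper26_LCN.Ufm`
* `Pool.Agent.Helper3_LEW.CST`
* `Pool.Agent.Helper28_LEW.OSCB`
-/

set_option autoImplicit false

section -- Pool.Agent.Helper93_LEC.BES

/-!
# BES: a cube in which all small cubes conduct is not insulating
-/

set_option autoImplicit false
set_option linter.unusedSectionVars false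

open MeasureTheory ProbabilityTheory Function Filter

open scoped ENNReal BigOperators Topology

noncomputable section

namespace Pool.Agent.LE.H93C

open Pool.Agent.Anderson Pool.Agent.Loc Pool.Agent.Mob Pool.Agent.Helper54.Bal

variable {d : ℕ}

theorem bes (uch : UchStmt) (cnt : CntStmt) (cdu : CduStmt) (reg : RegStmt) (ben : BenStmt) :
    BesStmt := by
  classical
  intro d B κ hd hB hκ hκ1
  set q : ℕ := d ^ 2 + 4 * d with hq
  obtain ⟨C, hC, huch⟩ := uch d q B hd (by rw [hq]; exact Nat.le_add_left _ _) hB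
  obtain ⟨cs, M, p, hcs, hM, hp, hp1, hMk, hben⟩ := ben d C κ hd hC hκ hκ1
  have hM0 : (1 : ℝ) ≤ M := by exact_mod_cast hM
  set τ : ℝ := 1 / (100 * (M + 1)) with hτ
  have hτ0 : 0 < τ := by positivity
  refine ⟨τ, p, hτ0, hp, hp1, fun R hR => ?_⟩
  obtain ⟨L₁, hreg⟩ := reg d (3 * R) B τ (1 / 8) hd hB hτ0 (by norm_num)
  obtain ⟨L₂, hlarge⟩ := exists_large d hτ0
  refine ⟨max (max L₁ L₂) (8 * (M + 1)), ?_⟩
  intro σ E N L L' a hpar hL0 hLL hLR hbox hsg hins
  have hL1 : L₁ ≤ L' := (le_max_left _ _).trans ((le_max_left _ _).trans hL0)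
  have hL2 : L₂ ≤ L' := (le_max_right _ _).trans ((le_max_left _ _).trans hL0)
  have hL3 : 8 * (M + 1) ≤ L' := (le_max_right _ _).trans hL0
  set s : ℕ := L' / (4 * M + 4) with hs
  have hs2 : 2 ≤ s := by
    rw [hs, Nat.le_div_iff_mul_le (by omega)]
    omega
  have hs1 : 1 ≤ s := by omega
  set n : ℕ := L / s with hn
  obtain ⟨h4M, hsn, hLn, hnM, hsW⟩ := mesh hs hn hs1 hLL
  have hsR : (L' : ℝ) / (8 * (M + 1)) ≤ s := by
    have h1 : L' < (4 * M + 4) * (s + 1) := by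
      rw [hs]
      exact Nat.lt_mul_div_succ L' (by omega)
    have h2 : (L' : ℝ) ≤ (4 * M + 4) * (s + 1) := by exact_mod_cast h1.le
    have h3 : (2 : ℝ) ≤ s := by exact_mod_cast hs2
    rw [div_le_iff₀ (by positivity)]
    have h4 : (4 * (M : ℝ) + 4) * (s + 1) ≤ (4 * M + 4) * (2 * s) :=
      mul_le_mul_of_nonneg_left (by linarith only [h3]) (by positivity)
    linarith only [h2, h4]
  set t : ℝ := τ * L' with ht
  have hL'0 : (0 : ℝ) ≤ L' := Nat.cast_nonneg _
  have ht0 : 0 ≤ t := by positivity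
  have hts : 12 * t ≤ s := by
    refine le_trans ?_ hsR
    rw [ht, hτ, le_div_iff₀ (by positivity)]
    have : 12 * (1 / (100 * ((M : ℝ) + 1)) * L') * (8 * (M + 1)) = 96 / 100 * L' := by
      field_simp
      ring
    rw [this]
    linarith only [hL'0]
  set W : ℕ := n + 4 * M + 3 with hW
  set m : ℕ := ⌊κ * L / (8 * cs * s)⌋₊ with hm
  have hs0 : (0 : ℝ) < s := by exact_mod_cast (by omega : 0 < s)
  have hcs0 : 0 < cs := by linarith only [hcs]
  -- the events
  set A1 : Set (Site d → ℝ) := {V | ¬ RegE V N (3 * L) L' a E (τ * L')} with hA1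
  set A2 : Set (Site d → ℝ) := {V | ¬ ∀ x ∈ box a (2 * L), ∀ y ∈ box a (2 * L), L + 1 ≤ sd x y →
    κ * L ≤ DL (box 0 N) E V x y} with hA2
  set T3 : ℝ := 4 * p * (2 * n + 1) ^ d with hT3
  set A3 : Set (Site d → ℝ) := {V | ENNReal.ofReal T3 ≤ ∑ k ∈ box (0 : Site d) n,
    Set.indicator {V | SG V L' τ E (a + sm s k)} 1 V} with hA3
  set T4 : ℝ := 4 * (2 * W + 1) ^ d * (C * s) ^ q with hT4
  set A4 : Set (Site d → ℝ) := {V | ENNReal.ofReal T4 ≤ ∑ k ∈ box (0 : Site d) W,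
    (mx V N E (a + sm s k) s) ^ q} with hA4
  have hL1' : 1 ≤ L := by omega
  have hW1 : box a (3 * L + 1) ⊆ box 0 N := (box_mono a (by omega)).trans hbox
  have p1 : PP d (gl σ) A1 ≤ ENNReal.ofReal (1 / 8) := by
    refine hreg σ E N (3 * L) L' a hpar hL1 ?_ hW1
    calc 3 * L ≤ 3 * (R * L') := by omega
      _ = 3 * R * L' := by ring
  have p2 : PP d (gl σ) A2 ≤ ENNReal.ofReal (1 / 4) := hins
  have hT3pos : 0 < T3 := by positivity
  have hT4pos : 0 < T4 := by positivity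
  have p3 : PP d (gl σ) A3 ≤ ENNReal.ofReal (1 / 4) := by
    refine markov_sum (c := ENNReal.ofReal p) (box (0 : Site d) n) (fun k _ => ?_) (fun k _ => ?_) ?_
      ENNReal.ofReal_ne_top ?_
    · exact measurable_one.indicator (Pool.Agent.LE.H93.meas_SG L' τ E _)
    · rw [lintegral_indicator_one (Pool.Agent.LE.H93.meas_SG L' τ E _), H3G.prob_sg]
      exact hsg
    · rw [Ne, ENNReal.ofReal_eq_zero, not_le]
      exact hT3pos
    · rw [card_box, ← ENNReal.ofReal_natCast, ← ENNReal.ofReal_mul (by positivity)]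
      have e : (4 : ℝ≥0∞) = ENNReal.ofReal 4 := by simp
      rw [e, ← ENNReal.ofReal_mul (by norm_num)]
      apply ENNReal.ofReal_le_ofReal
      rw [hT3]
      push_cast
      exact le_of_eq (by ring)
  have p4 : PP d (gl σ) A4 ≤ ENNReal.ofReal (1 / 4) := by
    refine markov_sum (c := ENNReal.ofReal ((C * s) ^ q)) (box (0 : Site d) W) (fun k _ => ?_)
      (fun k hk => ?_) ?_ ENNReal.ofReal_ne_top ?_
    · exact (measurable_mx N E _ s).pow_const q
    · refine huch σ E hpar N s (a + sm s k) hs1 ?_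
      refine Finset.Subset.trans (fun y hy => ?_) hbox
      rw [mem_box] at hy ⊢
      have h1 := H28A.sd_sm a s W hk
      have h2 := sd_triangle a (a + sm s k) y
      have h3 : s ≤ L := by
        calc s = s * 1 := (mul_one s).symm
          _ ≤ s * n := Nat.mul_le_mul_left _ (by omega)
          _ ≤ L := hsn
      omega
    · rw [Ne, ENNReal.ofReal_eq_zero, not_le]
      exact hT4pos
    · rw [card_box, ← ENNReal.ofReal_natCast, ← ENNReal.ofReal_mul (by positivity)]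
      have e : (4 : ℝ≥0∞) = ENNReal.ofReal 4 := by simp
      rw [e, ← ENNReal.ofReal_mul (by norm_num)]
      apply ENNReal.ofReal_le_ofReal
      rw [hT4]
      push_cast
      exact le_of_eq (by ring)
  obtain ⟨V, hV⟩ : ∃ V, V ∉ (A1 ∪ A2) ∪ (A3 ∪ A4) := by
    by_contra hcon
    push Not at hcon
    have h1 : (A1 ∪ A2) ∪ (A3 ∪ A4) = Set.univ := Set.eq_univ_of_forall hcon
    have h2 : PP d (gl σ) ((A1 ∪ A2) ∪ (A3 ∪ A4)) ≤ ENNReal.ofReal (7 / 8) := by
      calc PP d (gl σ) ((A1 ∪ A2) ∪ (A3 ∪ A4))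
          ≤ (PP d (gl σ) A1 + PP d (gl σ) A2) + (PP d (gl σ) A3 + PP d (gl σ) A4) :=
            (measure_union_le _ _).trans (add_le_add (measure_union_le _ _)
              (measure_union_le _ _))
        _ ≤ (ENNReal.ofReal (1 / 8) + ENNReal.ofReal (1 / 4)) +
            (ENNReal.ofReal (1 / 4) + ENNReal.ofReal (1 / 4)) :=
            add_le_add (add_le_add p1 p2) (add_le_add p3 p4)
        _ = _ := by
            rw [← ENNReal.ofReal_add (by norm_num) (by norm_num),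
              ← ENNReal.ofReal_add (by norm_num) (by norm_num),
              ← ENNReal.ofReal_add (by norm_num) (by norm_num)]
            norm_num
    rw [h1, measure_univ] at h2
    have h3 : ENNReal.ofReal (7 / 8) < 1 := by
      rw [ENNReal.ofReal_lt_one]
      norm_num
    exact absurd h2 (not_le.2 h3)
  simp only [Set.mem_union, not_or] at hV
  obtain ⟨⟨hV1, hV2⟩, hV3, hV4⟩ := hV
  rw [hA1, Set.mem_ofPred_eq, not_not] at hV1
  rw [hA2, Set.mem_ofPred_eq, not_not] at hV2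
  rw [hA3, Set.mem_ofPred_eq, not_le] at hV3
  rw [hA4, Set.mem_ofPred_eq, not_le] at hV4
  obtain ⟨r1, r2, r3, r4, r5⟩ := hV1
  set G : Finset (Site d) := (box (0 : Site d) n).filter fun k => ¬ SG V L' τ E (a + sm s k)
    with hG
  set c : Site d → ℝ := fun k => (mx V N E (a + sm s k) s).toReal / s with hc
  have hc0 : ∀ k, 0 ≤ c k := fun k => div_nonneg ENNReal.toReal_nonneg hs0.le
  -- the two counts
  have hcardG : (((box (0 : Site d) n) \ G).card : ℝ) ≤ T3 := by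
    have h1 : (box (0 : Site d) n) \ G = (box (0 : Site d) n).filter
        fun k => SG V L' τ E (a + sm s k) := by
      ext k
      rw [hG, Finset.mem_sdiff, Finset.mem_filter, Finset.mem_filter]
      constructor
      · rintro ⟨q1, q2⟩
        exact ⟨q1, by_contra fun q3 => q2 ⟨q1, q3⟩⟩
      · rintro ⟨q1, q2⟩
        exact ⟨q1, fun q3 => q3.2 q2⟩
    have h2 : (∑ k ∈ box (0 : Site d) n, Set.indicator {V | SG V L' τ E (a + sm s k)} 1 V :
        ℝ≥0∞) = (((box (0 : Site d) n) \ G).card : ℝ≥0∞) := by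
      rw [h1, Finset.card_filter]
      push_cast
      refine Finset.sum_congr rfl fun k _ => ?_
      simp only [Set.indicator_apply, Set.mem_ofPred_eq, Pi.one_apply]
    rw [h2] at hV3
    have h3 := hV3.le
    rw [← ENNReal.ofReal_natCast] at h3
    exact (ENNReal.ofReal_le_ofReal_iff hT3pos.le).1 h3
  have hsum : ∑ k ∈ box (0 : Site d) W, (c k / cs) ^ q ≤ 4 * (2 * W + 1) ^ d * (C / cs) ^ q := by
    have h1 : ∑ k ∈ box (0 : Site d) W, (mx V N E (a + sm s k) s).toReal ^ q ≤ T4 := by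
      have h2 := ENNReal.toReal_mono ENNReal.ofReal_ne_top hV4.le
      rw [ENNReal.toReal_ofReal hT4pos.le, ENNReal.toReal_sum
        (fun k _ => ENNReal.pow_ne_top (mx_ne_top V N E _ s))] at h2
      refine le_trans (le_of_eq ?_) h2
      refine Finset.sum_congr rfl fun k _ => ?_
      rw [ENNReal.toReal_pow]
    have h2 : ∑ k ∈ box (0 : Site d) W, (c k / cs) ^ q =
        (∑ k ∈ box (0 : Site d) W, (mx V N E (a + sm s k) s).toReal ^ q) * (1 / (s * cs)) ^ q := by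
      rw [Finset.sum_mul]
      refine Finset.sum_congr rfl fun k _ => ?_
      rw [← mul_pow, hc]
      congr 1
      field_simp
    rw [h2]
    refine (mul_le_mul_of_nonneg_right h1 (by positivity)).trans (le_of_eq ?_)
    rw [hT4, mul_assoc, ← mul_pow]
    congr 2
    field_simp
  -- the counting lemma
  have hMt : 1 ≤ Real.exp t := Real.one_le_exp ht0
  have key := cnt d (DL (box 0 N) E V) a s n M m q t (κ * L) cs c G hd hs1 (by omega) hM
    (by rw [hq]; exact (Nat.le_mul_of_pos_left d (by norm_num)).trans (Nat.le_add_left _ _)) hcs ht0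
    (by linarith only [hts, ht0]) ?_ (DL_symm _ E V) ?_ ?_ ?_ hc0 ?_ ?_
  · -- the contradiction
    have hnR : (1 : ℝ) ≤ n := by exact_mod_cast (by omega : 1 ≤ n)
    have hWn : ((n + 4 * M + 3 : ℕ) : ℝ) ≤ 2 * n := by exact_mod_cast (by omega : n + 4 * M + 3 ≤ 2 * n)
    have hWn' : (W : ℝ) ≤ 2 * n := by rw [hW]; exact hWn
    have h1 : T3 ≤ 4 * p * 3 ^ d * (n : ℝ) ^ d := by
      rw [hT3, mul_assoc (4 * p), ← mul_pow]
      have : (2 * (n : ℝ) + 1) ^ d ≤ (3 * n) ^ d := pow_le_pow_left₀ (by positivity) (by linarith only [hnR]) d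
      exact mul_le_mul_of_nonneg_left this (by positivity)
    have h2 : (2 * (W : ℝ) + 1) ^ d ≤ 5 ^ d * (n : ℝ) ^ d := by
      rw [← mul_pow]
      exact pow_le_pow_left₀ (by positivity) (by linarith only [hnR, hWn]) d
    have h2' : (2 * ((n : ℝ) + 4 * M + 3) + 1) ^ d ≤ 5 ^ d * (n : ℝ) ^ d := by
      have : (2 * ((n : ℝ) + 4 * M + 3) + 1) = 2 * (W : ℝ) + 1 := by
        rw [hW]; push_cast; ring
      rw [this]
      exact h2
    have h3 : (κ / (16 * cs)) * n ≤ m := by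
      have h4 : κ * L / (8 * cs * s) < m + 1 := Nat.lt_floor_add_one _
      have h5 : κ * n / (8 * cs) ≤ κ * L / (8 * cs * s) := by
        rw [div_le_div_iff₀ (by positivity) (by positivity)]
        have : (s : ℝ) * n ≤ L := by exact_mod_cast hsn
        have h6 : κ * n * (8 * cs * s) = (8 * cs * κ) * (s * n) := by ring
        have h7 : κ * L * (8 * cs) = (8 * cs * κ) * L := by ring
        rw [h6, h7]
        exact mul_le_mul_of_nonneg_left this (by positivity)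
      have h8 : 1 ≤ κ / (16 * cs) * n := by
        rw [div_mul_eq_mul_div, le_div_iff₀ (by positivity), one_mul]
        rw [div_le_iff₀ hκ] at hMk
        have h9 : (M : ℝ) ≤ n := by exact_mod_cast (by omega : M ≤ n)
        have h9' := mul_le_mul_of_nonneg_left h9 hκ.le
        linarith only [hMk, h9']
      have h10 : κ * n / (8 * cs) = 2 * (κ / (16 * cs) * n) := by
        field_simp
        ring
      linarith only [h4, h5, h8, h10]
    have h4 : (κ / (16 * cs)) ^ d * (n : ℝ) ^ d ≤ (m : ℝ) ^ d := by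
      rw [← mul_pow]
      exact pow_le_pow_left₀ (by positivity) h3 d
    have hn0 : (0 : ℝ) < (n : ℝ) ^ d := by positivity
    have h5 : 4 * (2 * (W : ℝ) + 1) ^ d * (C / cs) ^ q ≤
        (4 * 5 ^ d * (C / cs) ^ q) * (n : ℝ) ^ d := by
      have h6 : 0 ≤ (C / cs) ^ q := by positivity
      calc 4 * (2 * (W : ℝ) + 1) ^ d * (C / cs) ^ q = (4 * (C / cs) ^ q) * (2 * (W : ℝ) + 1) ^ d := by
            ring
        _ ≤ (4 * (C / cs) ^ q) * (5 ^ d * (n : ℝ) ^ d) :=
            mul_le_mul_of_nonneg_left h2 (by positivity)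
        _ = _ := by ring
    have h6 : (m : ℝ) ^ d ≤ 4 * p * 3 ^ d * (n : ℝ) ^ d + 2 * (5 ^ d * (n : ℝ) ^ d) / M +
        (2 ^ d + 2 * (8 * M + 9) ^ d / M) * ((4 * 5 ^ d * (C / cs) ^ q) * (n : ℝ) ^ d) := by
      refine key.trans (add_le_add (add_le_add (hcardG.trans h1) ?_) ?_)
      · push_cast
        gcongr
      · refine mul_le_mul_of_nonneg_left (hsum.trans h5) (by positivity)
    have h7 : 4 * p * 3 ^ d * (n : ℝ) ^ d + 2 * (5 ^ d * (n : ℝ) ^ d) / M +
        (2 ^ d + 2 * (8 * M + 9) ^ d / M) * ((4 * 5 ^ d * (C / cs) ^ q) * (n : ℝ) ^ d) =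
        (4 * p * 3 ^ d + 2 * 5 ^ d / M +
        (2 ^ d + 2 * (8 * M + 9) ^ d / M) * (4 * 5 ^ d * (C / cs) ^ q)) * (n : ℝ) ^ d := by
      ring
    rw [h7] at h6
    have h8 := mul_lt_mul_of_pos_right hben hn0
    linarith only [h4, h6, h8]
  · -- 8 cs s m ≤ κ L
    have h1 : (m : ℝ) ≤ κ * L / (8 * cs * s) := Nat.floor_le (by positivity)
    rw [le_div_iff₀ (by positivity)] at h1
    linarith only [h1]
  · intro x hx u hu y hy
    have h23 : 2 * L ≤ 3 * L := by omega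
    have hsub : box a (s * (n + 4 * M + 3)) ⊆ box a (3 * L) := box_mono a (hsW.trans h23)
    exact r3 x (hsub hx) u (hsub hu) y (hsub hy)
  · intro k hk
    refine r4 _ ?_
    rw [mem_box]
    have := H28A.sd_sm a s n hk
    omega
  · intro k hk k' hk' i hi hi'
    refine hV2 _ ?_ _ ?_ ?_
    · rw [mem_box]
      have := H28A.sd_sm a s n hk
      omega
    · rw [mem_box]
      have := H28A.sd_sm a s n hk'
      omega
    · have h1 := abs_le_sd (a + sm s k) (a + sm s k') i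
      rw [sm_sub_apply, sm_sub_apply, hi, hi'] at h1
      have h2 : a i + (s : ℤ) * -(n : ℤ) - (a i + (s : ℤ) * (n : ℤ)) = -(2 * ((s : ℤ) * n)) := by ring
      rw [h2, abs_neg, abs_of_nonneg (by positivity)] at h1
      have h3 : 2 * (s * n) ≤ sd (a + sm s k) (a + sm s k') := by exact_mod_cast h1
      have h4 : s * (n + 1) ≤ 2 * (s * n) := by
        have : s ≤ s * n := Nat.le_mul_of_pos_right s (by omega)
        have e : s * (n + 1) = s * n + s := by ring
        omega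
      omega
  · intro k hk x hx
    have h1 := DL_le_mx V N E hx
    rw [hc]
    simp only
    rw [div_mul_cancel₀ _ hs0.ne']
    exact h1
  · intro k hk j hj hjM
    rw [hG, Finset.mem_filter] at hk
    have hk1 := H28A.sd_sm a s n hk.1
    have hjs : 4 * j * s ≤ L' := by
      have : j * s ≤ M * s := Nat.mul_le_mul_right _ hjM
      have e1 : 4 * j * s = 4 * (j * s) := by ring
      have e2 : 4 * M * s = 4 * (M * s) := by ring
      omega
    have hsubb : box (a + sm s k) (L' + 1) ⊆ box a (3 * L) := by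
      intro y hy
      rw [mem_box] at hy ⊢
      have := sd_triangle a (a + sm s k) y
      omega
    obtain ⟨v, hv, hv2⟩ := cdu d V N L' (4 * j * s) (a + sm s k) E τ (Real.exp t) hd hMt hjs
      (hsubb.trans ((box_mono a (Nat.le_succ (3 * L))).trans hW1)) r1
      (fun x hx y hy => (r2 x (hsubb hx) y (hsubb hy)).2)
      (fun r' hr' => r5 r' hr' _ (by rw [mem_box]; linarith only [hM, hLL, hL3, hsn, hk1])) hk.2
    refine ⟨v, hv, ?_⟩
    have h1 := conduct_DL (d := d) (t := t) ht0 (hlarge L' hL2) hv2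
    refine h1.trans ?_
    have : τ * L' = t := rfl
    linarith only [hts, hs0]
  

end Pool.Agent.LE.H93C
end
end -- Pool.Agent.Helper93_LEC.BES

section -- Pool.Agent.Helper28_LEW.OSC

/-!
# OSC: the moments of the oscillation
-/

set_option autoImplicit false

open MeasureTheory ProbabilityTheory Function Filter

open scoped ENNReal BigOperators Topology

noncomputable section

namespace Pool.Agent.LE.H28W

open Pool.Agent.Anderson Pool.Agent.Loc Pool.Agent.Mob Pool.Agent.Helper54.Bal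

theorem sum_tail (q : ℕ) : ∃ K : ℝ, 0 < K ∧
    ∑' k : ℕ, ENNReal.ofReal (((k : ℝ) + 1) ^ q * Real.exp (-(k : ℝ))) ≤ ENNReal.ofReal K := by
  have hr : ‖Real.exp (-1)‖ < 1 := by
    rw [Real.norm_of_nonneg (Real.exp_pos _).le]
    have := Real.exp_lt_exp.mpr (show (-1 : ℝ) < 0 by norm_num)
    rwa [Real.exp_zero] at this
  have h1 := summable_pow_mul_geometric_of_norm_lt_one q hr
  have h2 := (summable_nat_add_iff 1).mpr h1
  have h3 : Summable fun k : ℕ => ((k : ℝ) + 1) ^ q * Real.exp (-(k : ℝ)) := by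
    have h4 := h2.mul_left (Real.exp 1)
    refine h4.congr fun k => ?_
    have h5 : Real.exp (-1) ^ (k + 1) = Real.exp (-(k : ℝ)) * Real.exp (-1) := by
      rw [pow_succ, ← Real.exp_nat_mul]
      congr 2
      ring
    rw [h5]
    have h6 : Real.exp 1 * Real.exp (-1) = 1 := by
      rw [← Real.exp_add, add_neg_cancel, Real.exp_zero]
    push_cast
    calc Real.exp 1 * (((k : ℝ) + 1) ^ q * (Real.exp (-(k : ℝ)) * Real.exp (-1)))
        = ((k : ℝ) + 1) ^ q * Real.exp (-(k : ℝ)) * (Real.exp 1 * Real.exp (-1)) := by ring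
      _ = _ := by rw [h6, mul_one]
  have h0 : ∀ k : ℕ, 0 ≤ ((k : ℝ) + 1) ^ q * Real.exp (-(k : ℝ)) := fun k => by positivity
  refine ⟨(∑' k : ℕ, ((k : ℝ) + 1) ^ q * Real.exp (-(k : ℝ))) + 1, ?_, ?_⟩
  · have h7 : 0 ≤ ∑' k : ℕ, ((k : ℝ) + 1) ^ q * Real.exp (-(k : ℝ)) := tsum_nonneg h0
    linarith
  · rw [← ENNReal.ofReal_tsum_of_nonneg h0 h3]
    exact ENNReal.ofReal_le_ofReal (by linarith)

theorem tail_bound {Ω : Type} [MeasurableSpace Ω] (P : Measure Ω) {q : ℕ} (hq : 1 ≤ q)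
    {T : Ω → ℝ} {B K : ℝ} (hB : 0 ≤ B)
    (hK : ∑' k : ℕ, ENNReal.ofReal (((k : ℝ) + 1) ^ q * Real.exp (-(k : ℝ))) ≤ ENNReal.ofReal K)
    (h : ∀ t : ℝ, P {ω | t < T ω} ≤ ENNReal.ofReal (B * Real.exp (-t))) :
    ∃ G : Ω → ℝ≥0∞, Measurable G ∧ (∀ ω, (ENNReal.ofReal (T ω)) ^ q ≤ G ω) ∧
      ∫⁻ ω, G ω ∂P ≤ ENNReal.ofReal (B * K) := by
  have hm : ∀ k : ℕ, Measurable fun ω => ENNReal.ofReal (((k : ℝ) + 1) ^ q) *
      (toMeasurable P {ω | (k : ℝ) < T ω}).indicator (fun _ => (1 : ℝ≥0∞)) ω := fun k =>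
    (measurable_const.indicator (measurableSet_toMeasurable P _)).const_mul _
  refine ⟨fun ω => ∑' k : ℕ, ENNReal.ofReal (((k : ℝ) + 1) ^ q) *
    (toMeasurable P {ω | (k : ℝ) < T ω}).indicator (fun _ => (1 : ℝ≥0∞)) ω,
    Measurable.tsum hm, ?_, ?_⟩
  · intro ω
    rcases le_or_gt (T ω) 0 with h0 | h0
    · rw [ENNReal.ofReal_of_nonpos h0, zero_pow (by omega)]
      exact bot_le
    · have hc : 0 < ⌈T ω⌉₊ := Nat.ceil_pos.mpr h0
      obtain ⟨k, hk⟩ : ∃ k : ℕ, ⌈T ω⌉₊ = k + 1 := ⟨⌈T ω⌉₊ - 1, by omega⟩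
      have h1 : T ω ≤ (k : ℝ) + 1 := by
        have := Nat.le_ceil (T ω)
        rw [hk] at this
        push_cast at this
        exact this
      have h2 : (k : ℝ) < T ω := by
        have := Nat.lt_ceil.mp (show k < ⌈T ω⌉₊ by omega)
        exact this
      refine le_trans ?_ (ENNReal.le_tsum k)
      rw [Set.indicator_of_mem (subset_toMeasurable P _ h2), mul_one, ← ENNReal.ofReal_pow h0.le]
      exact ENNReal.ofReal_le_ofReal (pow_le_pow_left₀ h0.le h1 q)
  · rw [lintegral_tsum fun k => (hm k).aemeasurable]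
    have h1 : ∀ k : ℕ, ∫⁻ ω, ENNReal.ofReal (((k : ℝ) + 1) ^ q) *
        (toMeasurable P {ω | (k : ℝ) < T ω}).indicator (fun _ => (1 : ℝ≥0∞)) ω ∂P ≤
        ENNReal.ofReal B * ENNReal.ofReal (((k : ℝ) + 1) ^ q * Real.exp (-(k : ℝ))) := by
      intro k
      rw [lintegral_const_mul _
        (measurable_const.indicator (measurableSet_toMeasurable P _)),
        lintegral_indicator_const (measurableSet_toMeasurable P _), one_mul,
        measure_toMeasurable, ENNReal.ofReal_mul (by positivity)]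
      calc ENNReal.ofReal (((k : ℝ) + 1) ^ q) * P {ω | (k : ℝ) < T ω}
          ≤ ENNReal.ofReal (((k : ℝ) + 1) ^ q) * ENNReal.ofReal (B * Real.exp (-(k : ℝ))) :=
            mul_le_mul_right (h k) _
        _ = _ := by
            rw [ENNReal.ofReal_mul hB]
            ring
    refine (ENNReal.tsum_le_tsum h1).trans ?_
    rw [ENNReal.tsum_mul_left, ENNReal.ofReal_mul hB]
    exact mul_le_mul_right hK _

theorem add_pow_le' (a b : ℝ≥0∞) (q : ℕ) : (a + b) ^ q ≤ 2 ^ q * (a ^ q + b ^ q) := by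
  rcases le_total a b with h | h
  · calc (a + b) ^ q ≤ (2 * b) ^ q := by
          apply pow_le_pow_left' _ q
          rw [two_mul]
          exact add_le_add h le_rfl
      _ = 2 ^ q * b ^ q := mul_pow _ _ _
      _ ≤ _ := mul_le_mul_right le_add_self _
  · calc (a + b) ^ q ≤ (2 * a) ^ q := by
          apply pow_le_pow_left' _ q
          rw [two_mul]
          exact add_le_add le_rfl h
      _ = 2 ^ q * a ^ q := mul_pow _ _ _
      _ ≤ _ := mul_le_mul_right le_self_add _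

theorem self_mem {d : ℕ} (c : Site d) (s : ℕ) : c ∈ box c s := by
  rw [mem_box, sd_le_iff]
  intro i
  rw [sub_self, abs_zero]
  exact Int.natCast_nonneg s

theorem osc_pow_le {d : ℕ} (V : Site d → ℝ) (N : ℕ) (E : ℝ) (S : Finset (Site d)) (c : Site d)
    (s q : ℕ) : (osc V N E S c s) ^ q ≤
      ∑ x ∈ box c s, (ENNReal.ofReal |FD V (box 0 N) E S x - FD V (box 0 N) E S c|) ^ q := by
  have hne : (box c s).Nonempty := ⟨c, self_mem c s⟩
  unfold osc
  obtain ⟨x, hx, h⟩ := Finset.exists_mem_eq_sup (box c s) hne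
    (fun x => ENNReal.ofReal |FD V (box 0 N) E S x - FD V (box 0 N) E S c|)
  rw [h]
  exact Finset.single_le_sum
    (f := fun x => (ENNReal.ofReal |FD V (box 0 N) E S x - FD V (box 0 N) E S c|) ^ q)
    (fun _ _ => bot_le) hx

theorem osc (trf : TrfStmt) (cst : CstStmt) : OscStmt := by
  intro d hd
  obtain ⟨A, hA, hcst⟩ := cst d hd
  refine ⟨A, hA, fun q => ?_⟩
  rcases Nat.eq_zero_or_pos q with hq | hq
  · refine ⟨1, one_pos, ?_⟩
    intro σ E N s S c hσ hσ1 hE hs hS hSN hcN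
    rw [hq]
    simp only [pow_zero]
    rw [lintegral_one]
    have h1 : (1 : ℝ) ≤ |σ| ^ (-A) := by
      have hp : 0 < |σ| := abs_pos.mpr hσ
      have := Real.one_le_rpow_of_pos_of_le_one_of_nonpos hp hσ1 (show -A ≤ 0 by linarith only [hA])
      exact this
    have h2 : (1 : ℝ) ≤ (s : ℝ) ^ (0 + d + 1) := one_le_pow₀ (by exact_mod_cast hs)
    have h3 : (PP d (gl σ)) Set.univ = 1 := measure_univ
    rw [h3, ← ENNReal.ofReal_one]
    apply ENNReal.ofReal_le_ofReal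
    nlinarith only [h1, h2]
  obtain ⟨C1, hC1, hcst'⟩ := hcst q hq
  obtain ⟨K, hK, hK'⟩ := sum_tail q
  refine ⟨3 ^ d * 2 ^ q * (C1 * 2 ^ q + 16 * K), by positivity, ?_⟩
  intro σ E N s S c hσ hσ1 hE hs hS hSN hcN
  have hσp : 0 < |σ| := abs_pos.mpr hσ
  have hc0 : c ∈ box (0 : Site d) N := hcN (self_mem c s)
  have hB : (0 : ℝ) ≤ 16 / |σ| := by positivity
  have key : ∀ x ∈ box c s, ∃ G : (Site d → ℝ) → ℝ≥0∞, Measurable G ∧
      (∀ V, (ENNReal.ofReal |FD V (box 0 N) E S x - FD V (box 0 N) E S c|) ^ q ≤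
        2 ^ q * ((ENNReal.ofReal (DL (box 0 N) E V c x)) ^ q + G V)) ∧
      ∫⁻ V, G V ∂(PP d (gl σ)) ≤ ENNReal.ofReal (16 / |σ| * K) := by
    intro x hx
    have hx0 := hcN hx
    obtain ⟨G, hG, hG1, hG2⟩ := tail_bound (PP d (gl σ)) hq (B := 16 / |σ|) (K := K)
      (T := fun V => |FD V (box 0 N) E S c - FD V (box 0 N) E S x| - DL (box 0 N) E V c x) hB hK'
      (fun t => by
        refine le_trans (measure_mono ?_) (trf d N σ E t S c x hd hσ hS hSN hc0 hx0)
        intro V hV hcon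
        have hV' : t < |FD V (box 0 N) E S c - FD V (box 0 N) E S x| - DL (box 0 N) E V c x := hV
        linarith only [hcon, hV'])
    refine ⟨G, hG, fun V => ?_, hG2⟩
    have h1 : ENNReal.ofReal |FD V (box 0 N) E S x - FD V (box 0 N) E S c| ≤
        ENNReal.ofReal (DL (box 0 N) E V c x) +
          ENNReal.ofReal (|FD V (box 0 N) E S c - FD V (box 0 N) E S x| -
            DL (box 0 N) E V c x) := by
      have h2 : |FD V (box 0 N) E S x - FD V (box 0 N) E S c| = DL (box 0 N) E V c x +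
          (|FD V (box 0 N) E S c - FD V (box 0 N) E S x| - DL (box 0 N) E V c x) := by
        rw [abs_sub_comm]
        ring
      rw [h2]
      exact ENNReal.ofReal_add_le
    calc (ENNReal.ofReal |FD V (box 0 N) E S x - FD V (box 0 N) E S c|) ^ q
        ≤ (ENNReal.ofReal (DL (box 0 N) E V c x) +
          ENNReal.ofReal (|FD V (box 0 N) E S c - FD V (box 0 N) E S x| -
            DL (box 0 N) E V c x)) ^ q := pow_le_pow_left' h1 q
      _ ≤ _ := (add_pow_le' _ _ q).trans (mul_le_mul_right (add_le_add le_rfl (hG1 V)) _)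
  choose! G hGm hG1 hG2 using key
  have hmD : ∀ x, Measurable fun V : Site d → ℝ => (ENNReal.ofReal (DL (box 0 N) E V c x)) ^ q :=
    fun x => (H93C.measurable_DL (box 0 N) E c x).ennreal_ofReal.pow_const q
  calc ∫⁻ V, (Pool.Agent.LE.osc V N E S c s) ^ q ∂(PP d (gl σ))
      ≤ ∫⁻ V, ∑ x ∈ box c s, 2 ^ q * ((ENNReal.ofReal (DL (box 0 N) E V c x)) ^ q + G x V)
          ∂(PP d (gl σ)) := by
        refine lintegral_mono fun V => ?_
        exact (osc_pow_le V N E S c s q).trans (Finset.sum_le_sum fun x hx => hG1 x hx V)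
    _ = ∑ x ∈ box c s, ∫⁻ V, 2 ^ q * ((ENNReal.ofReal (DL (box 0 N) E V c x)) ^ q + G x V)
          ∂(PP d (gl σ)) :=
        lintegral_finsetSum _ fun x hx => ((hmD x).add (hGm x hx)).const_mul _
    _ ≤ ∑ x ∈ box c s, ENNReal.ofReal (|σ| ^ (-A) * (s : ℝ) ^ q * (2 ^ q * (C1 * 2 ^ q + 16 * K))) := by
        refine Finset.sum_le_sum fun x hx => ?_
        have hL : ∫⁻ V, 2 ^ q * ((ENNReal.ofReal (DL (box 0 N) E V c x)) ^ q + G x V)
            ∂(PP d (gl σ)) = 2 ^ q * (∫⁻ V, (ENNReal.ofReal (DL (box 0 N) E V c x)) ^ q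
              ∂(PP d (gl σ)) + ∫⁻ V, G x V ∂(PP d (gl σ))) := by
          have hL1 := lintegral_const_mul (μ := PP d (gl σ)) ((2 : ℝ≥0∞) ^ q)
            ((hmD x).add (hGm x hx))
          have hL2 := lintegral_add_left (μ := PP d (gl σ)) (hmD x) (G x)
          rw [← hL2]
          exact hL1
        rw [hL]
        have h1 := hcst' σ E N c x hσ hσ1 hE hc0 (hcN hx)
        have hsd : (sd c x : ℝ) ≤ s := by
          have : sd c x ≤ s := mem_box.mp hx
          exact_mod_cast this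
        have hs1 : (1 : ℝ) ≤ s := by exact_mod_cast hs
        have hR : 0 < |σ| ^ (-A) := Real.rpow_pos_of_pos hσp _
        have h2 : C1 * |σ| ^ (-A) * ((sd c x : ℝ) + 1) ^ q ≤
            C1 * |σ| ^ (-A) * (2 ^ q * (s : ℝ) ^ q) := by
          apply mul_le_mul_of_nonneg_left _ (by positivity)
          rw [← mul_pow]
          apply pow_le_pow_left₀ (by positivity)
          linarith only [hsd, hs1]
        have h3 : 16 / |σ| * K ≤ 16 * |σ| ^ (-A) * K * (s : ℝ) ^ q := by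
          have h4 : 1 / |σ| ≤ |σ| ^ (-A) := by
            rw [one_div, ← Real.rpow_neg_one]
            exact Real.rpow_le_rpow_of_exponent_ge hσp hσ1 (by linarith only [hA])
          have h5 : (1 : ℝ) ≤ (s : ℝ) ^ q := one_le_pow₀ hs1
          calc 16 / |σ| * K = 16 * K * (1 / |σ|) * 1 := by ring
            _ ≤ 16 * K * |σ| ^ (-A) * (s : ℝ) ^ q := by
                apply mul_le_mul _ h5 zero_le_one (by positivity)
                exact mul_le_mul_of_nonneg_left h4 (by positivity)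
            _ = _ := by ring
        have h6 : (2 : ℝ≥0∞) ^ q = ENNReal.ofReal (2 ^ q) := by
          rw [ENNReal.ofReal_pow (by norm_num)]
          congr 1
          exact (ENNReal.ofReal_ofNat 2).symm
        calc 2 ^ q * (∫⁻ V, (ENNReal.ofReal (DL (box 0 N) E V c x)) ^ q ∂(PP d (gl σ)) +
              ∫⁻ V, G x V ∂(PP d (gl σ)))
            ≤ ENNReal.ofReal (2 ^ q) * (ENNReal.ofReal (C1 * |σ| ^ (-A) * (2 ^ q * (s : ℝ) ^ q)) +
                ENNReal.ofReal (16 * |σ| ^ (-A) * K * (s : ℝ) ^ q)) := by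
              rw [h6]
              refine mul_le_mul_right (add_le_add (h1.trans (ENNReal.ofReal_le_ofReal h2))
                ((hG2 x hx).trans (ENNReal.ofReal_le_ofReal h3))) _
          _ = _ := by
              rw [← ENNReal.ofReal_add (by positivity) (by positivity),
                ← ENNReal.ofReal_mul (by positivity)]
              congr 1
              ring
    _ ≤ ENNReal.ofReal (3 ^ d * 2 ^ q * (C1 * 2 ^ q + 16 * K) * |σ| ^ (-A) *
          (s : ℝ) ^ (q + d + 1)) := by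
        rw [Finset.sum_const, card_box, nsmul_eq_mul]
        have hs1 : (1 : ℝ) ≤ s := by exact_mod_cast hs
        have hR : 0 < |σ| ^ (-A) := Real.rpow_pos_of_pos hσp _
        have h7 : (((2 * s + 1) ^ d : ℕ) : ℝ≥0∞) = ENNReal.ofReal ((2 * (s : ℝ) + 1) ^ d) := by
          rw [← ENNReal.ofReal_natCast]
          congr 1
          push_cast
          ring
        rw [h7, ← ENNReal.ofReal_mul (by positivity)]
        apply ENNReal.ofReal_le_ofReal
        have h8 : (2 * (s : ℝ) + 1) ^ d ≤ 3 ^ d * (s : ℝ) ^ d := by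
          rw [← mul_pow]
          apply pow_le_pow_left₀ (by positivity)
          linarith only [hs1]
        calc (2 * (s : ℝ) + 1) ^ d * (|σ| ^ (-A) * (s : ℝ) ^ q * (2 ^ q * (C1 * 2 ^ q + 16 * K)))
            ≤ (3 ^ d * (s : ℝ) ^ d) *
              (|σ| ^ (-A) * (s : ℝ) ^ q * (2 ^ q * (C1 * 2 ^ q + 16 * K))) :=
              mul_le_mul_of_nonneg_right h8 (by positivity)
          _ = (3 ^ d * 2 ^ q * (C1 * 2 ^ q + 16 * K) * |σ| ^ (-A) * (s : ℝ) ^ (q + d)) * 1 := by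
              rw [pow_add]
              ring
          _ ≤ (3 ^ d * 2 ^ q * (C1 * 2 ^ q + 16 * K) * |σ| ^ (-A) * (s : ℝ) ^ (q + d)) * s :=
              mul_le_mul_of_nonneg_left hs1 (by positivity)
          _ = _ := by
              rw [pow_succ]
              ring

end Pool.Agent.LE.H28W
end
end -- Pool.Agent.Helper28_LEW.OSC

section -- Pool.Agent.Helper26_LCN.Unif

/-!
# `near` and `ratio` with constants which are uniform in the parameters
-/

set_option autoImplicit false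
set_option linter.unusedSectionVars false

open scoped Topology ENNReal
open MeasureTheory Filter ProbabilityTheory

noncomputable section

namespace Pool.Agent.LE.H26U

open Pool.Agent.Anderson Pool.Agent.Loc Pool.Agent.Mob Pool.Agent.Helper54.Bal Pool.Agent.LY

variable {d : ℕ}

theorem sigma_ne {B σ E : ℝ} (h : Par B σ E) : σ ≠ 0 := by
  rintro rfl
  have := h.2.2
  rw [abs_zero, mul_zero] at this
  linarith

theorem inv_le {B σ E : ℝ} (h : Par B σ E) : 1 / |σ| ≤ B := by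
  have h1 : 0 < |σ| := abs_pos.2 (sigma_ne h)
  rw [div_le_iff₀ h1]
  exact h.2.2

theorem mom1_eq (σ : ℝ) : mom1 (gl σ) = ENNReal.ofReal |σ| * mom1 (gl 1) := by
  have h : ∀ s : ℝ, mom1 (gl s) = ∫⁻ t, ENNReal.ofReal |s * t| ∂γ1 := by
    intro s
    unfold mom1 gl
    rw [lintegral_map (by fun_prop) (by fun_prop)]
  rw [h, h]
  simp only [one_mul]
  rw [← lintegral_const_mul' _ _ ENNReal.ofReal_ne_top]
  refine lintegral_congr fun t => ?_
  rw [abs_mul, ENNReal.ofReal_mul (abs_nonneg _)]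

theorem CC_le {B σ E : ℝ} (h : Par B σ E) (M : ℝ) :
    CC (gl σ) (1 / |σ|) M ≤ ENNReal.ofReal M * (2 + ENNReal.ofReal B * mom1 (gl 1) +
      ENNReal.ofReal (1 + 2 * B)) := by
  unfold CC
  rw [mom1_eq]
  have h1 : ENNReal.ofReal |σ| ≤ ENNReal.ofReal B := ENNReal.ofReal_le_ofReal h.2.1
  have h2 : ENNReal.ofReal (1 + 2 * (1 / |σ|)) ≤ ENNReal.ofReal (1 + 2 * B) :=
    ENNReal.ofReal_le_ofReal (by have := inv_le h; linarith)
  gcongr

/-- the negative moment with a constant which is uniform in the parameters -/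
theorem lowU (B : ℝ) (hB : 0 < B) : ∃ C : ℝ, 0 < C ∧ ∀ σ E : ℝ, Par B σ E →
    ∀ (Λ : Finset (Site d)) (x y : Site d), x ∈ Λ → y ∈ Λ → (x = y ∨ hop x y ≠ 0) →
    ∫⁻ V, (ENNReal.ofReal |gr V Λ E x y|) ^ (-(1 / 4) : ℝ) ∂(PL (gl σ) Λ) ≤ ENNReal.ofReal C := by
  set M : ℝ := 32 * (d : ℝ) ^ 2 + 4 + B with hM
  have hM0 : 0 < M := by positivity
  set K : ℝ≥0∞ := (ENNReal.ofReal M * (2 + ENNReal.ofReal B * mom1 (gl 1) +
      ENNReal.ofReal (1 + 2 * B))) ^ (5 ^ d) *
      (ENNReal.ofReal (1 / (16 * M ^ 2))) ^ (-(1 / 4) : ℝ) with hK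
  have hKt : K ≠ ∞ := by
    refine ENNReal.mul_ne_top (ENNReal.pow_ne_top (ENNReal.mul_ne_top ENNReal.ofReal_ne_top ?_)) ?_
    · refine ENNReal.add_ne_top.2 ⟨ENNReal.add_ne_top.2 ⟨by norm_num,
        ENNReal.mul_ne_top ENNReal.ofReal_ne_top (mom1_gl 1)⟩, ENNReal.ofReal_ne_top⟩
    · refine ENNReal.rpow_ne_top_of_ne_zero ?_ ENNReal.ofReal_ne_top
      rw [Ne, ENNReal.ofReal_eq_zero, not_le]
      positivity
  refine ⟨K.toReal + 1, by positivity, ?_⟩
  intro σ E hP Λ x y hx hy hxy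
  have h1 := low (bddDens_gl (sigma_ne hP)) (M := M) (E := E) (by rw [hM]; linarith) Λ
    (by
      rw [hM]
      have h2 := hP.1
      have : 0 ≤ 32 * (d : ℝ) ^ 2 := by positivity
      linarith) hx hy hxy
  refine h1.trans ?_
  have h2 : Clow d (gl σ) (1 / |σ|) M ≤ K := by
    unfold Clow
    rw [hK]
    gcongr
    exact CC_le hP M
  refine h2.trans ?_
  rw [← ENNReal.ofReal_toReal hKt]
  apply ENNReal.ofReal_le_ofReal
  rw [ENNReal.toReal_ofReal ENNReal.toReal_nonneg]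
  linarith

theorem nearU (B : ℝ) (hB : 0 < B) {p : ℝ} (hp : 0 < p) : ∃ C : ℝ, 0 ≤ C ∧
    ∀ σ E : ℝ, Par B σ E →
    ∀ (Λ : Finset (Site d)) (x y : Site d), x ∈ Λ → y ∈ Λ → (x = y ∨ hop x y ≠ 0) →
    Nn (PL (gl σ) Λ) p (fun V => Dp (gr V Λ E x y)) ≤ ENNReal.ofReal C := by
  obtain ⟨C, hC, h⟩ := lowU (d := d) B hB
  refine ⟨((4 * p) ^ p * C) ^ (1 / p), by positivity, ?_⟩
  intro σ E hP Λ x y hx hy hxy
  rw [← ENNReal.ofReal_rpow_of_nonneg (by positivity) (by positivity)]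
  apply Nn_le hp
  calc ∫⁻ V, (Dp (gr V Λ E x y)) ^ p ∂(PL (gl σ) Λ)
      ≤ ∫⁻ V, ENNReal.ofReal ((4 * p) ^ p) * (ENNReal.ofReal |gr V Λ E x y|) ^ (-(1 / 4) : ℝ)
          ∂(PL (gl σ) Λ) := lintegral_mono fun V => Dp_rpow_le hp _
    _ = ENNReal.ofReal ((4 * p) ^ p) * ∫⁻ V, (ENNReal.ofReal |gr V Λ E x y|) ^ (-(1 / 4) : ℝ)
          ∂(PL (gl σ) Λ) := lintegral_const_mul' _ _ ENNReal.ofReal_ne_top
    _ ≤ ENNReal.ofReal ((4 * p) ^ p) * ENNReal.ofReal C := by
        gcongr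
        exact h σ E hP Λ x y hx hy hxy
    _ = _ := by rw [← ENNReal.ofReal_mul (by positivity)]

/-- `ratio` with its constant -/
theorem ratioC {σ : ℝ} (hσ : σ ≠ 0) (E : ℝ) {p : ℝ} (hp : 0 < p)
    (Λ : Finset (Site d)) (x u y : Site d) :
    Nn (PL (gl σ) Λ) p (fun V => Rp (gr V Λ E x u) (gr V Λ E u y) (gr V Λ E x y)) ≤
      ENNReal.ofReal (((2 * p) ^ p * (1 + 8 * (1 / |σ|))) ^ (1 / p)) := by
  set ρ : ℝ := 1 / |σ| with hρdef
  have hν := bddDens_gl hσ
  have hρ : 0 < ρ := hν.1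
  rw [← ENNReal.ofReal_rpow_of_nonneg (by positivity) (by positivity)]
  apply Nn_le hp
  have hone : ∀ τ : ℝ, 0 < τ → PL (gl σ) Λ {V | τ * |gr V Λ E x y| < |gr V Λ E x u| *
      |gr V Λ E u y|} ≤ ENNReal.ofReal (8 * ρ / τ) := fun τ hτ => one hν Λ E u x y hτ
  have hnull : PL (gl σ) Λ {V | gr V Λ E x y = 0 ∧ gr V Λ E x u * gr V Λ E u y ≠ 0} = 0 := by
    have h1 : ∀ k : ℕ, PL (gl σ) Λ {V | gr V Λ E x y = 0 ∧ gr V Λ E x u * gr V Λ E u y ≠ 0} ≤
        ENNReal.ofReal (8 * ρ / ((k : ℝ) + 1)) := by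
      intro k
      refine (measure_mono ?_).trans (hone ((k : ℝ) + 1) (by positivity))
      rintro V ⟨h2, h3⟩
      rw [Set.mem_ofPred_eq, h2, abs_zero, mul_zero, ← abs_mul]
      exact abs_pos.2 h3
    have h2 : Tendsto (fun k : ℕ => ENNReal.ofReal (8 * ρ / ((k : ℝ) + 1))) atTop
        (𝓝 (ENNReal.ofReal 0)) := by
      apply ENNReal.tendsto_ofReal
      have := (tendsto_one_div_add_atTop_nhds_zero_nat (𝕜 := ℝ)).const_mul (8 * ρ)
      rw [mul_zero] at this
      refine this.congr fun k => ?_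
      ring
    rw [ENNReal.ofReal_zero] at h2
    exact le_antisymm (ge_of_tendsto' h2 h1) zero_le
  set f : (Site d → ℝ) → ℝ := fun V => |gr V Λ E x u| * |gr V Λ E u y| / |gr V Λ E x y| with hf
  have hfm : Measurable f := by
    have h1 := measurable_gr Λ E x u
    have h2 := measurable_gr Λ E u y
    have h3 := measurable_gr Λ E x y
    exact ((h1.abs.mul h2.abs)).div h3.abs
  have hweak : ∀ τ : ℝ, 0 < τ → PL (gl σ) Λ {V | τ < |f V|} ≤ ENNReal.ofReal (8 * ρ / τ) := by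
    intro τ hτ
    refine (measure_mono ?_).trans (hone τ hτ)
    intro V hV
    have h0 : 0 ≤ f V := by rw [hf]; positivity
    rw [Set.mem_ofPred_eq, abs_of_nonneg h0] at hV
    rw [Set.mem_ofPred_eq]
    have hne : |gr V Λ E x y| ≠ 0 := by
      intro h1
      rw [hf] at hV
      simp only [h1, div_zero] at hV
      linarith
    have hpos : 0 < |gr V Λ E x y| := lt_of_le_of_ne (abs_nonneg _) (Ne.symm hne)
    exact (lt_div_iff₀ hpos).1 hV
  have hint := weak_sqrt hfm (B := Set.univ) (c := 8 * ρ) (by positivity) hweak (a := 1) one_pos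
  rw [Measure.restrict_univ, measure_univ, mul_one, div_one,
    ← ENNReal.ofReal_add (by norm_num) (by positivity)] at hint
  have hae : ∀ᵐ V ∂(PL (gl σ) Λ), (Rp (gr V Λ E x u) (gr V Λ E u y) (gr V Λ E x y)) ^ p ≤
      ENNReal.ofReal ((2 * p) ^ p) * ENNReal.ofReal (√|f V|) := by
    have h1 : ∀ᵐ V ∂(PL (gl σ) Λ), ¬ (gr V Λ E x y = 0 ∧ gr V Λ E x u * gr V Λ E u y ≠ 0) := by
      rw [ae_iff]
      simpa only [not_not] using hnull
    filter_upwards [h1] with V hV
    have h0 : 0 ≤ f V := by rw [hf]; positivity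
    rw [abs_of_nonneg h0]
    by_cases hc : gr V Λ E x y = 0
    · have h2 : gr V Λ E x u * gr V Λ E u y = 0 := by
        by_contra h3
        exact hV ⟨hc, h3⟩
      unfold Rp
      rw [if_pos hc, if_pos h2, ENNReal.zero_rpow_of_pos hp]
      exact zero_le
    · exact Rp_rpow_le hp hc
  calc _ ≤ ∫⁻ V, ENNReal.ofReal ((2 * p) ^ p) * ENNReal.ofReal (√|f V|) ∂(PL (gl σ) Λ) :=
        lintegral_mono_ae hae
    _ = ENNReal.ofReal ((2 * p) ^ p) * ∫⁻ V, ENNReal.ofReal (√|f V|) ∂(PL (gl σ) Λ) :=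
        lintegral_const_mul' _ _ ENNReal.ofReal_ne_top
    _ ≤ ENNReal.ofReal ((2 * p) ^ p) * ENNReal.ofReal (1 + 8 * ρ) := by gcongr
    _ = _ := by rw [← ENNReal.ofReal_mul (by positivity)]

theorem ratioU (B : ℝ) (hB : 0 < B) {p : ℝ} (hp : 0 < p) : ∃ C : ℝ, 0 ≤ C ∧
    ∀ σ E : ℝ, Par B σ E → ∀ (Λ : Finset (Site d)) (x u y : Site d),
    Nn (PL (gl σ) Λ) p (fun V => Rp (gr V Λ E x u) (gr V Λ E u y) (gr V Λ E x y)) ≤
      ENNReal.ofReal C := by
  refine ⟨((2 * p) ^ p * (1 + 8 * B)) ^ (1 / p), by positivity, ?_⟩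
  intro σ E hP Λ x u y
  refine (ratioC (sigma_ne hP) E hp Λ x u y).trans (ENNReal.ofReal_le_ofReal ?_)
  have h1 := inv_le hP
  have h2 : 0 < |σ| := abs_pos.2 (sigma_ne hP)
  apply Real.rpow_le_rpow (by positivity) _ (by positivity)
  gcongr

end Pool.Agent.LE.H26U
end
end -- Pool.Agent.Helper26_LCN.Unif

section -- Pool.Agent.Helper26_LCN.Ufm

/-!
# UFM: the moments of `- log |G|` in a cube, uniformly in the parameters
-/

set_option autoImplicit false
set_option linter.unusedSectionVars false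

open scoped Topology ENNReal
open MeasureTheory Filter ProbabilityTheory

noncomputable section

namespace Pool.Agent.LE.H26U

open Pool.Agent.Anderson Pool.Agent.Loc Pool.Agent.Mob Pool.Agent.Helper54.Bal Pool.Agent.LY
  Pool.Agent.LE.H54

variable {d : ℕ}

theorem ufm : UfmStmt := by
  intro d B hd hB
  obtain ⟨C1, hC1, h1'⟩ := nearU (d := d) B hB (p := 2) (by norm_num)
  obtain ⟨C2, hC2, h2'⟩ := ratioU (d := d) B hB (p := 2) (by norm_num)
  set C3 : ℝ := 16 * (2 * √(6 * B)) with hC3def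
  have hC3 : 0 ≤ C3 := by positivity
  have hd1 : (1 : ℝ) ≤ d := by exact_mod_cast hd
  set A : ℝ := (d * (C1 + C2)) ^ 2 with hA
  have hA0 : 0 ≤ A := sq_nonneg _
  refine ⟨A + C3 + C2 ^ 2 + 1, by positivity, ?_⟩
  intro σ E hP N
  have hσ := sigma_ne hP
  have h1 := h1' σ E hP
  have h2 := h2' σ E hP
  have hν := bddDens_gl hσ
  set ρ : ℝ := 1 / |σ| with hρdef
  have hρ : 0 < ρ := hν.1
  have hρB : ρ ≤ B := inv_le hP
  set Λ := box (0 : Site d) N with hΛ
  have mg : ∀ x y, Measurable fun V : Site d → ℝ => gr V Λ E x y := fun x y =>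
    measurable_gr Λ E x y
  have mD : ∀ x y, Measurable fun V : Site d → ℝ => Dp (gr V Λ E x y) := fun x y =>
    measurable_Dp.comp (mg x y)
  have mU : ∀ x y, Measurable fun V : Site d → ℝ => Up (gr V Λ E x y) := fun x y =>
    measurable_Up.comp (mg x y)
  have mDL : ∀ x y, Measurable fun V : Site d → ℝ => DL Λ E V x y := fun x y => by
    unfold DL
    exact (Real.measurable_log.comp (mg x y).abs).neg
  -- the three moments
  have hDp : ∀ x ∈ Λ, ∀ y ∈ Λ, ∫⁻ V, (Dp (gr V Λ E x y)) ^ (2 : ℝ) ∂(PP d (gl σ)) ≤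
      ENNReal.ofReal (A * ((sd x y : ℝ) + 1) ^ 2) := by
    intro x hx y hy
    rw [lint_PP Λ ((mD x y).pow_const _) (fun V V' hV => by rw [gr_congr hV])]
    rw [← Nn_rpow (by norm_num)]
    have hp := path_in (σ := σ) (E := E) (p := 2) (N := N) (by norm_num) hC1 hC2
      (fun x y hx hy hxy => h1 Λ x y hx hy hxy) (fun x u y => h2 Λ x u y) hx (l1 x y) y rfl hy
    refine (ENNReal.rpow_le_rpow hp (by norm_num)).trans ?_
    rw [ENNReal.ofReal_rpow_of_nonneg (by positivity) (by norm_num), Real.rpow_two]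
    apply ENNReal.ofReal_le_ofReal
    have h3 : (l1 x y : ℝ) ≤ d * sd x y := by exact_mod_cast l1_le x y le_rfl
    have h4 : 0 ≤ C1 + C2 := by linarith only [hC1, hC2]
    have h5 : ((l1 x y : ℝ) + 1) ≤ d * ((sd x y : ℝ) + 1) := by linarith only [hd1, h3]
    rw [hA, ← mul_pow]
    apply pow_le_pow_left₀ (by positivity)
    calc ((l1 x y : ℝ) + 1) * (C1 + C2) ≤ d * ((sd x y : ℝ) + 1) * (C1 + C2) :=
          mul_le_mul_of_nonneg_right h5 h4
      _ = _ := by ring
  have hUp : ∀ x y, ∫⁻ V, (Up (gr V Λ E x y)) ^ (2 : ℝ) ∂(PP d (gl σ)) ≤ ENNReal.ofReal C3 := by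
    intro x y
    rw [lint_PP Λ ((mU x y).pow_const _) (fun V V' hV => by rw [gr_congr hV])]
    calc ∫⁻ V, (Up (gr V Λ E x y)) ^ (2 : ℝ) ∂(PL (gl σ) Λ)
        ≤ ∫⁻ V, ENNReal.ofReal 16 * ENNReal.ofReal (√|gr V Λ E x y|) ∂(PL (gl σ) Λ) :=
          lintegral_mono fun V => Up_sq_le _
      _ = ENNReal.ofReal 16 * ∫⁻ V, ENNReal.ofReal (√|gr V Λ E x y|) ∂(PL (gl σ) Λ) :=
          lintegral_const_mul' _ _ ENNReal.ofReal_ne_top
      _ ≤ ENNReal.ofReal 16 * ENNReal.ofReal (2 * √(6 * ρ)) := by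
          gcongr
          exact PL_sqrt hν Λ E x y
      _ ≤ _ := by
          rw [← ENNReal.ofReal_mul (by norm_num)]
          apply ENNReal.ofReal_le_ofReal
          rw [hC3def]
          have h6 : √(6 * ρ) ≤ √(6 * B) := Real.sqrt_le_sqrt (by linarith only [hρB])
          linarith only [h6]
  have hRp : ∀ x u y, ∫⁻ V, (Rp (gr V Λ E x u) (gr V Λ E u y) (gr V Λ E x y)) ^ (2 : ℝ)
      ∂(PP d (gl σ)) ≤ ENNReal.ofReal (C2 ^ 2) := by
    intro x u y
    rw [lint_PP Λ ((measurable_Rp (mg x u) (mg u y) (mg x y)).pow_const _)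
      (fun V V' hV => by rw [gr_congr hV, gr_congr hV, gr_congr hV])]
    rw [← Nn_rpow (by norm_num)]
    refine (ENNReal.rpow_le_rpow (h2 Λ x u y) (by norm_num)).trans ?_
    rw [ENNReal.ofReal_rpow_of_nonneg (by positivity) (by norm_num), Real.rpow_two]
  have hne : ∀ x ∈ Λ, ∀ y ∈ Λ, ∀ᵐ V ∂(PP d (gl σ)), gr V Λ E x y ≠ 0 := by
    intro x hx y hy
    have h := ae_lt_top ((mD x y).pow_const 2)
      (ne_top_of_le_ne_top ENNReal.ofReal_ne_top (hDp x hx y hy))
    filter_upwards [h] with V hV h0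
    rw [h0] at hV
    simp [Dp] at hV
  refine ⟨⟨mDL, ?_, ?_, ?_, ?_, ?_⟩, ?_⟩
  · intro V x y
    unfold DL
    rw [gr_symm]
  · intro x hx y hy
    have h := int_le (P := PP d (gl σ)) ((mDL x y).pow_const 2) (fun V => sq_nonneg _)
      (c := A * ((sd x y : ℝ) + 1) ^ 2 + C3) (by positivity) ?_
    · exact h.1
    · calc ∫⁻ V, ENNReal.ofReal (DL Λ E V x y ^ 2) ∂(PP d (gl σ))
          ≤ ∫⁻ V, ((Dp (gr V Λ E x y)) ^ (2 : ℝ) + (Up (gr V Λ E x y)) ^ (2 : ℝ))
            ∂(PP d (gl σ)) := lintegral_mono fun V => ofReal_sq_le _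
        _ = ∫⁻ V, (Dp (gr V Λ E x y)) ^ (2 : ℝ) ∂(PP d (gl σ)) +
            ∫⁻ V, (Up (gr V Λ E x y)) ^ (2 : ℝ) ∂(PP d (gl σ)) :=
            lintegral_add_left ((mD x y).pow_const _) _
        _ ≤ ENNReal.ofReal (A * ((sd x y : ℝ) + 1) ^ 2) + ENNReal.ofReal C3 :=
            add_le_add (hDp x hx y hy) (hUp x y)
        _ = _ := by rw [← ENNReal.ofReal_add (by positivity) hC3]
  · intro x hx y hy
    have h := int_le (P := PP d (gl σ)) ((mDL x y).pow_const 2) (fun V => sq_nonneg _)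
      (c := A * ((sd x y : ℝ) + 1) ^ 2 + C3) (by positivity) ?_
    · refine h.2.trans ?_
      have h3 : (1 : ℝ) ≤ ((sd x y : ℝ) + 1) ^ 2 := by
        have : (0 : ℝ) ≤ sd x y := Nat.cast_nonneg _
        nlinarith
      nlinarith only [mul_le_mul_of_nonneg_left h3 hC3, mul_nonneg (sq_nonneg C2) (zero_le_one.trans h3)]
    · calc ∫⁻ V, ENNReal.ofReal (DL Λ E V x y ^ 2) ∂(PP d (gl σ))
          ≤ ∫⁻ V, ((Dp (gr V Λ E x y)) ^ (2 : ℝ) + (Up (gr V Λ E x y)) ^ (2 : ℝ))
            ∂(PP d (gl σ)) := lintegral_mono fun V => ofReal_sq_le _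
        _ = ∫⁻ V, (Dp (gr V Λ E x y)) ^ (2 : ℝ) ∂(PP d (gl σ)) +
            ∫⁻ V, (Up (gr V Λ E x y)) ^ (2 : ℝ) ∂(PP d (gl σ)) :=
            lintegral_add_left ((mD x y).pow_const _) _
        _ ≤ ENNReal.ofReal (A * ((sd x y : ℝ) + 1) ^ 2) + ENNReal.ofReal C3 :=
            add_le_add (hDp x hx y hy) (hUp x y)
        _ = _ := by rw [← ENNReal.ofReal_add (by positivity) hC3]
  · intro x hx y hy
    have h := int_le (P := PP d (gl σ)) ((measurable_const.max (mDL x y).neg).pow_const 2)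
      (f := fun V => (max 0 (-DL Λ E V x y)) ^ 2) (fun V => sq_nonneg _)
      (c := C3) hC3 ?_
    · refine h.2.trans ?_
      have := sq_nonneg C2
      linarith only [hA0, this]
    · refine le_trans (lintegral_mono fun V => ?_) (hUp x y)
      unfold DL Up
      rw [neg_neg]
      rcases le_total 0 (Real.log |gr V Λ E x y|) with h0 | h0
      · rw [max_eq_right h0, ENNReal.ofReal_rpow_of_nonneg h0 (by norm_num), Real.rpow_two]
      · rw [max_eq_left h0]
        simp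
  · intro x hx u hu y hy
    have h := int_le (P := PP d (gl σ))
      ((measurable_const.max (((mDL x y).sub (mDL x u)).sub (mDL u y))).pow_const 2)
      (f := fun V => (max 0 (DL Λ E V x y - DL Λ E V x u - DL Λ E V u y)) ^ 2)
      (fun V => sq_nonneg _) (c := C2 ^ 2) (sq_nonneg _) ?_
    · refine h.2.trans ?_
      linarith only [hC3, hA0]
    · refine le_trans (lintegral_mono_ae ?_) (hRp x u y)
      filter_upwards [hne x hx u hu, hne u hu y hy, hne x hx y hy] with V ha hb hc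
      have ha' : |gr V Λ E x u| ≠ 0 := abs_ne_zero.2 ha
      have hb' : |gr V Λ E u y| ≠ 0 := abs_ne_zero.2 hb
      have hc' : |gr V Λ E x y| ≠ 0 := abs_ne_zero.2 hc
      unfold DL Rp
      rw [if_neg hc]
      have e : -Real.log |gr V Λ E x y| - -Real.log |gr V Λ E x u| - -Real.log |gr V Λ E u y| =
          Real.log (|gr V Λ E x u| * |gr V Λ E u y| / |gr V Λ E x y|) := by
        rw [Real.log_div (mul_ne_zero ha' hb') hc', Real.log_mul ha' hb']
        ring
      rw [e]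
      set L := Real.log (|gr V Λ E x u| * |gr V Λ E u y| / |gr V Λ E x y|)
      rcases le_total 0 L with h0 | h0
      · rw [max_eq_right h0, ENNReal.ofReal_rpow_of_nonneg h0 (by norm_num), Real.rpow_two]
      · rw [max_eq_left h0]
        simp
  · intro x hx y hy
    have h := hne x hx y hy
    rw [ae_iff] at h
    simpa using h

end Pool.Agent.LE.H26U
end
end -- Pool.Agent.Helper26_LCN.Ufm

section -- Pool.Agent.Helper3_LEW.CST

/-!
# CST (helper3): the moments of the positive part of `- log |G|`, with a fixed power of `1 / |σ|`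
-/

set_option autoImplicit false
set_option linter.unusedSectionVars false

open scoped Topology ENNReal
open MeasureTheory Filter ProbabilityTheory

noncomputable section

namespace Pool.Agent.LE.H3W

open Pool.Agent.Anderson Pool.Agent.Loc Pool.Agent.Mob Pool.Agent.Helper54.Bal Pool.Agent.LY
  Pool.Agent.LE.H54 Pool.Agent.LE.H26U

variable {d : ℕ}

/-- the constant of the negative moment -/
theorem CC_le' {σ : ℝ} (hσ : σ ≠ 0) (h1 : |σ| ≤ 1) (M : ℝ) :
    CC (gl σ) (1 / |σ|) M ≤ ENNReal.ofReal (1 / |σ|) *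
      (ENNReal.ofReal M * (2 + mom1 (gl 1) + ENNReal.ofReal 3)) := by
  have hs : 0 < |σ| := abs_pos.2 hσ
  have hL : 1 ≤ 1 / |σ| := by
    rw [le_div_iff₀ hs, one_mul]
    exact h1
  have hL' : (1 : ℝ≥0∞) ≤ ENNReal.ofReal (1 / |σ|) := by
    rw [← ENNReal.ofReal_one]
    exact ENNReal.ofReal_le_ofReal hL
  unfold CC
  rw [mom1_eq]
  have e1 : (2 : ℝ≥0∞) ≤ ENNReal.ofReal (1 / |σ|) * 2 := by
    calc (2 : ℝ≥0∞) = 1 * 2 := (one_mul 2).symm
      _ ≤ _ := mul_le_mul_left hL' 2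
  have e2 : ENNReal.ofReal |σ| * mom1 (gl 1) ≤ ENNReal.ofReal (1 / |σ|) * mom1 (gl 1) := by
    refine mul_le_mul_left (ENNReal.ofReal_le_ofReal ?_) _
    linarith
  have e3 : ENNReal.ofReal (1 + 2 * (1 / |σ|)) ≤ ENNReal.ofReal (1 / |σ|) * ENNReal.ofReal 3 := by
    rw [← ENNReal.ofReal_mul (by positivity)]
    apply ENNReal.ofReal_le_ofReal
    linarith only [hL]
  calc ENNReal.ofReal M * (2 + ENNReal.ofReal |σ| * mom1 (gl 1) +
        ENNReal.ofReal (1 + 2 * (1 / |σ|)))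
      ≤ ENNReal.ofReal M * (ENNReal.ofReal (1 / |σ|) * 2 +
          ENNReal.ofReal (1 / |σ|) * mom1 (gl 1) +
          ENNReal.ofReal (1 / |σ|) * ENNReal.ofReal 3) := by gcongr
    _ = _ := by ring

/-- the negative moment -/
theorem lowP (hd : 1 ≤ d) : ∃ K : ℝ, 0 < K ∧ ∀ σ E : ℝ, σ ≠ 0 → |σ| ≤ 1 → |E| ≤ 2 * d →
    ∀ (Λ : Finset (Site d)) (x y : Site d), x ∈ Λ → y ∈ Λ → (x = y ∨ hop x y ≠ 0) →
    ∫⁻ V, (ENNReal.ofReal |gr V Λ E x y|) ^ (-(1 / 4) : ℝ) ∂(PL (gl σ) Λ) ≤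
      ENNReal.ofReal (K * (1 / |σ|) ^ (5 ^ d)) := by
  set M : ℝ := 32 * (d : ℝ) ^ 2 + 4 + (2 * d + 1) with hM
  have hM0 : 0 < M := by positivity
  set K : ℝ≥0∞ := (ENNReal.ofReal M * (2 + mom1 (gl 1) + ENNReal.ofReal 3)) ^ (5 ^ d) *
      (ENNReal.ofReal (1 / (16 * M ^ 2))) ^ (-(1 / 4) : ℝ) with hK
  have hKt : K ≠ ∞ := by
    refine ENNReal.mul_ne_top (ENNReal.pow_ne_top (ENNReal.mul_ne_top ENNReal.ofReal_ne_top ?_)) ?_
    · refine ENNReal.add_ne_top.2 ⟨ENNReal.add_ne_top.2 ⟨by norm_num, mom1_gl 1⟩,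
        ENNReal.ofReal_ne_top⟩
    · refine ENNReal.rpow_ne_top_of_ne_zero ?_ ENNReal.ofReal_ne_top
      rw [Ne, ENNReal.ofReal_eq_zero, not_le]
      positivity
  refine ⟨K.toReal + 1, by positivity, ?_⟩
  intro σ E hσ hs hE Λ x y hx hy hxy
  have h1 := low (bddDens_gl hσ) (M := M) (E := E) (by rw [hM]; linarith only) Λ
    (by
      rw [hM]
      have : 0 ≤ 32 * (d : ℝ) ^ 2 := by positivity
      linarith only [hE, this]) hx hy hxy
  refine h1.trans ?_
  have h2 : Clow d (gl σ) (1 / |σ|) M ≤ ENNReal.ofReal (1 / |σ|) ^ (5 ^ d) * K := by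
    unfold Clow
    calc CC (gl σ) (1 / |σ|) M ^ (5 ^ d) * (ENNReal.ofReal (1 / (16 * M ^ 2))) ^ (-(1 / 4) : ℝ)
        ≤ (ENNReal.ofReal (1 / |σ|) * (ENNReal.ofReal M * (2 + mom1 (gl 1) +
          ENNReal.ofReal 3))) ^ (5 ^ d) *
          (ENNReal.ofReal (1 / (16 * M ^ 2))) ^ (-(1 / 4) : ℝ) := by
          gcongr
          exact CC_le' hσ hs M
      _ = _ := by
          rw [mul_pow, mul_assoc]
  refine h2.trans ?_
  rw [← ENNReal.ofReal_pow (by positivity), ← ENNReal.ofReal_toReal hKt,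
    ← ENNReal.ofReal_mul (by positivity)]
  apply ENNReal.ofReal_le_ofReal
  rw [ENNReal.toReal_ofReal ENNReal.toReal_nonneg, mul_comm]
  apply mul_le_mul_of_nonneg_right _ (by positivity)
  linarith

/-- the norm at neighbouring sites -/
theorem nearP {K σ E : ℝ} (hK : 0 < K) (hσ : σ ≠ 0) {p : ℝ} (hp : 0 < p) (Λ : Finset (Site d))
    (x y : Site d)
    (h : ∫⁻ V, (ENNReal.ofReal |gr V Λ E x y|) ^ (-(1 / 4) : ℝ) ∂(PL (gl σ) Λ) ≤
      ENNReal.ofReal (K * (1 / |σ|) ^ (5 ^ d))) :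
    Nn (PL (gl σ) Λ) p (fun V => Dp (gr V Λ E x y)) ≤
      ENNReal.ofReal (((4 * p) ^ p * (K * (1 / |σ|) ^ (5 ^ d))) ^ (1 / p)) := by
  have hs : 0 < |σ| := abs_pos.2 hσ
  rw [← ENNReal.ofReal_rpow_of_nonneg (by positivity) (by positivity)]
  apply Nn_le hp
  calc ∫⁻ V, (Dp (gr V Λ E x y)) ^ p ∂(PL (gl σ) Λ)
      ≤ ∫⁻ V, ENNReal.ofReal ((4 * p) ^ p) * (ENNReal.ofReal |gr V Λ E x y|) ^ (-(1 / 4) : ℝ)
          ∂(PL (gl σ) Λ) := lintegral_mono fun V => Dp_rpow_le hp _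
    _ = ENNReal.ofReal ((4 * p) ^ p) * ∫⁻ V, (ENNReal.ofReal |gr V Λ E x y|) ^ (-(1 / 4) : ℝ)
          ∂(PL (gl σ) Λ) := lintegral_const_mul' _ _ ENNReal.ofReal_ne_top
    _ ≤ ENNReal.ofReal ((4 * p) ^ p) * ENNReal.ofReal (K * (1 / |σ|) ^ (5 ^ d)) := by
        gcongr
    _ = _ := by rw [← ENNReal.ofReal_mul (by positivity)]

theorem add_rpow_root {a b q : ℝ} (ha : 0 ≤ a) (hb : 0 ≤ b) (hq : 0 < q) :
    (a ^ (1 / q) + b ^ (1 / q)) ^ q ≤ 2 ^ q * (a + b) := by
  have h1 : a ^ (1 / q) ≤ (a + b) ^ (1 / q) :=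
    Real.rpow_le_rpow ha (by linarith) (by positivity)
  have h2 : b ^ (1 / q) ≤ (a + b) ^ (1 / q) :=
    Real.rpow_le_rpow hb (by linarith) (by positivity)
  have h3 : a ^ (1 / q) + b ^ (1 / q) ≤ 2 * (a + b) ^ (1 / q) := by linarith
  calc (a ^ (1 / q) + b ^ (1 / q)) ^ q ≤ (2 * (a + b) ^ (1 / q)) ^ q :=
        Real.rpow_le_rpow (by positivity) h3 hq.le
    _ = 2 ^ q * (a + b) := by
        rw [Real.mul_rpow (by norm_num) (by positivity), ← Real.rpow_mul (by linarith only [ha, hb]), one_div,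
          inv_mul_cancel₀ hq.ne', Real.rpow_one]

theorem cst : CstStmt := by
  intro d hd
  obtain ⟨K, hK, hlow⟩ := lowP hd
  refine ⟨(5 ^ d : ℕ), by exact_mod_cast Nat.one_le_pow _ _ (by norm_num), ?_⟩
  intro q hq
  have hq1 : (1 : ℝ) ≤ q := by exact_mod_cast hq
  have hq0 : (0 : ℝ) < q := by linarith only [hq1]
  set qq : ℝ := (q : ℝ) with hqq
  refine ⟨(d : ℝ) ^ q * (2 ^ q * ((4 * qq) ^ qq * K + (2 * qq) ^ qq * 9)), ?_, ?_⟩
  · have : (0 : ℝ) < d := by exact_mod_cast hd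
    positivity
  intro σ E N x y hσ hs hE hx hy
  have hs0 : 0 < |σ| := abs_pos.2 hσ
  have hL : 1 ≤ 1 / |σ| := by
    rw [le_div_iff₀ hs0, one_mul]
    exact hs
  have hd1 : (1 : ℝ) ≤ d := by exact_mod_cast hd
  set Λ := box (0 : Site d) N with hΛ
  set P : ℝ := (1 / |σ|) ^ (5 ^ d) with hP
  have hP1 : 1 / |σ| ≤ P := by
    rw [hP]
    exact le_self_pow₀ hL (by positivity)
  have hP0 : 0 < P := by positivity
  set a : ℝ := (4 * qq) ^ qq * (K * P) with ha
  set b : ℝ := (2 * qq) ^ qq * (1 + 8 * (1 / |σ|)) with hb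
  have ha0 : 0 ≤ a := by positivity
  have hb0 : 0 ≤ b := by positivity
  have hab : a + b ≤ ((4 * qq) ^ qq * K + (2 * qq) ^ qq * 9) * P := by
    have h1 : 1 + 8 * (1 / |σ|) ≤ 9 * P := by linarith only [hL, hP1]
    have h2 : b ≤ (2 * qq) ^ qq * (9 * P) := mul_le_mul_of_nonneg_left h1 (by positivity)
    calc a + b ≤ (4 * qq) ^ qq * (K * P) + (2 * qq) ^ qq * (9 * P) := by linarith only [h2]
      _ = _ := by ring
  have mg : Measurable fun V : Site d → ℝ => gr V Λ E x y := measurable_gr Λ E x y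
  have mD : Measurable fun V : Site d → ℝ => Dp (gr V Λ E x y) := measurable_Dp.comp mg
  have hp := path_in (σ := σ) (E := E) (p := qq) (N := N) hq1 (C1 := a ^ (1 / qq))
    (C2 := b ^ (1 / qq)) (by positivity) (by positivity)
    (fun x y hx hy hxy => nearP hK hσ hq0 _ x y (hlow σ E hσ hs hE _ x y hx hy hxy))
    (fun x u y => ratioC hσ E hq0 _ x u y) hx (l1 x y) y rfl hy
  have hDL : ∀ V : Site d → ℝ, (ENNReal.ofReal (DL Λ E V x y)) ^ q ≤
      (Dp (gr V Λ E x y)) ^ qq := by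
    intro V
    rw [hqq, ENNReal.rpow_natCast]
    apply pow_le_pow_left'
    unfold DL Dp
    split_ifs
    · exact le_top
    · exact le_rfl
  calc ∫⁻ V, (ENNReal.ofReal (DL Λ E V x y)) ^ q ∂(PP d (gl σ))
      ≤ ∫⁻ V, (Dp (gr V Λ E x y)) ^ qq ∂(PP d (gl σ)) := lintegral_mono hDL
    _ = ∫⁻ V, (Dp (gr V Λ E x y)) ^ qq ∂(PL (gl σ) Λ) :=
        lint_PP Λ (mD.pow_const _) (fun V V' hV => by rw [gr_congr hV])
    _ = (Nn (PL (gl σ) Λ) qq (fun V => Dp (gr V Λ E x y))) ^ qq := (Nn_rpow hq0 _).symm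
    _ ≤ (ENNReal.ofReal (((l1 x y : ℝ) + 1) * (a ^ (1 / qq) + b ^ (1 / qq)))) ^ qq :=
        ENNReal.rpow_le_rpow hp hq0.le
    _ ≤ _ := by
        rw [ENNReal.ofReal_rpow_of_nonneg (by positivity) hq0.le]
        apply ENNReal.ofReal_le_ofReal
        have h3 : (l1 x y : ℝ) ≤ d * sd x y := by exact_mod_cast l1_le x y le_rfl
        have h5 : ((l1 x y : ℝ) + 1) ≤ d * ((sd x y : ℝ) + 1) := by linarith only [hd1, h3]
        have h6 : (((l1 x y : ℝ) + 1)) ^ qq ≤ (d * ((sd x y : ℝ) + 1)) ^ qq :=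
          Real.rpow_le_rpow (by positivity) h5 hq0.le
        have h7 := add_rpow_root ha0 hb0 hq0
        have h8 : |σ| ^ (-((5 ^ d : ℕ) : ℝ)) = P := by
          rw [Real.rpow_neg hs0.le, Real.rpow_natCast, hP, one_div, inv_pow]
        rw [h8, Real.mul_rpow (by positivity) (by positivity)]
        have h9 : (d * ((sd x y : ℝ) + 1)) ^ qq = (d : ℝ) ^ q * ((sd x y : ℝ) + 1) ^ q := by
          rw [hqq, Real.rpow_natCast, mul_pow]
        have h10 : (2 : ℝ) ^ qq = 2 ^ q := by rw [hqq, Real.rpow_natCast]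
        rw [h9] at h6
        rw [h10] at h7
        calc ((l1 x y : ℝ) + 1) ^ qq * (a ^ (1 / qq) + b ^ (1 / qq)) ^ qq
            ≤ ((d : ℝ) ^ q * ((sd x y : ℝ) + 1) ^ q) * (2 ^ q * (a + b)) :=
              mul_le_mul h6 h7 (by positivity) (by positivity)
          _ ≤ ((d : ℝ) ^ q * ((sd x y : ℝ) + 1) ^ q) *
              (2 ^ q * (((4 * qq) ^ qq * K + (2 * qq) ^ qq * 9) * P)) := by gcongr
          _ = _ := by ring

end Pool.Agent.LE.H3W
end
end -- Pool.Agent.Helper3_LEW.CST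

section -- Pool.Agent.Helper28_LEW.OSCB

/-!
# OSCB: the moments of the oscillation for `|E| ≤ B`

The moments of `D^+` for `|E| ≤ B` follow `Pool.Agent.LE.H3W.cst` of helper3.
-/

set_option autoImplicit false
set_option linter.unusedSectionVars false

open scoped Topology ENNReal BigOperators
open MeasureTheory Filter ProbabilityTheory

noncomputable section

namespace Pool.Agent.LE.H28W

open Pool.Agent.Anderson Pool.Agent.Loc Pool.Agent.Mob Pool.Agent.Helper54.Bal Pool.Agent.LY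
  Pool.Agent.LE.H54 Pool.Agent.LE.H26U Pool.Agent.LE.H3W

/-- the negative moment -/
theorem lowPB {d : ℕ} (hd : 1 ≤ d) {B : ℝ} (hB : 0 < B) : ∃ K : ℝ, 0 < K ∧ ∀ σ E : ℝ, σ ≠ 0 →
    |σ| ≤ 1 → |E| ≤ B →
    ∀ (Λ : Finset (Site d)) (x y : Site d), x ∈ Λ → y ∈ Λ → (x = y ∨ hop x y ≠ 0) →
    ∫⁻ V, (ENNReal.ofReal |gr V Λ E x y|) ^ (-(1 / 4) : ℝ) ∂(PL (gl σ) Λ) ≤
      ENNReal.ofReal (K * (1 / |σ|) ^ (5 ^ d)) := by
  set M : ℝ := 32 * (d : ℝ) ^ 2 + 4 + (2 * d + 1) + B with hM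
  have hM0 : 0 < M := by positivity
  set K : ℝ≥0∞ := (ENNReal.ofReal M * (2 + mom1 (gl 1) + ENNReal.ofReal 3)) ^ (5 ^ d) *
      (ENNReal.ofReal (1 / (16 * M ^ 2))) ^ (-(1 / 4) : ℝ) with hK
  have hKt : K ≠ ∞ := by
    refine ENNReal.mul_ne_top (ENNReal.pow_ne_top (ENNReal.mul_ne_top ENNReal.ofReal_ne_top ?_)) ?_
    · refine ENNReal.add_ne_top.2 ⟨ENNReal.add_ne_top.2 ⟨by norm_num, mom1_gl 1⟩,
        ENNReal.ofReal_ne_top⟩
    · refine ENNReal.rpow_ne_top_of_ne_zero ?_ ENNReal.ofReal_ne_top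
      rw [Ne, ENNReal.ofReal_eq_zero, not_le]
      positivity
  refine ⟨K.toReal + 1, by positivity, ?_⟩
  intro σ E hσ hs hE Λ x y hx hy hxy
  have h1 := low (bddDens_gl hσ) (M := M) (E := E) (by rw [hM]; linarith only [hB]) Λ
    (by
      rw [hM]
      have : 0 ≤ 32 * (d : ℝ) ^ 2 := by positivity
      linarith only [hE, this]) hx hy hxy
  refine h1.trans ?_
  have h2 : Clow d (gl σ) (1 / |σ|) M ≤ ENNReal.ofReal (1 / |σ|) ^ (5 ^ d) * K := by
    unfold Clow
    calc CC (gl σ) (1 / |σ|) M ^ (5 ^ d) * (ENNReal.ofReal (1 / (16 * M ^ 2))) ^ (-(1 / 4) : ℝ)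
        ≤ (ENNReal.ofReal (1 / |σ|) * (ENNReal.ofReal M * (2 + mom1 (gl 1) +
          ENNReal.ofReal 3))) ^ (5 ^ d) *
          (ENNReal.ofReal (1 / (16 * M ^ 2))) ^ (-(1 / 4) : ℝ) := by
          gcongr
          exact CC_le' hσ hs M
      _ = _ := by
          rw [mul_pow, mul_assoc]
  refine h2.trans ?_
  rw [← ENNReal.ofReal_pow (by positivity), ← ENNReal.ofReal_toReal hKt,
    ← ENNReal.ofReal_mul (by positivity)]
  apply ENNReal.ofReal_le_ofReal
  rw [ENNReal.toReal_ofReal ENNReal.toReal_nonneg, mul_comm]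
  apply mul_le_mul_of_nonneg_right _ (by positivity)
  linarith only

theorem cstB {d : ℕ} (hd : 1 ≤ d) {B : ℝ} (hB : 0 < B) : ∃ A : ℝ, 1 ≤ A ∧ ∀ q : ℕ, 1 ≤ q →
    ∃ C : ℝ, 0 < C ∧ ∀ (σ E : ℝ) (N : ℕ)
    (x y : Site d), σ ≠ 0 → |σ| ≤ 1 → |E| ≤ B → x ∈ box (0 : Site d) N →
    y ∈ box (0 : Site d) N →
      ∫⁻ V, (ENNReal.ofReal (DL (box 0 N) E V x y)) ^ q ∂(PP d (gl σ)) ≤
        ENNReal.ofReal (C * |σ| ^ (-A) * ((sd x y : ℝ) + 1) ^ q) := by
  obtain ⟨K, hK, hlow⟩ := lowPB hd hB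
  refine ⟨(5 ^ d : ℕ), by exact_mod_cast Nat.one_le_pow _ _ (by norm_num), ?_⟩
  intro q hq
  have hq1 : (1 : ℝ) ≤ q := by exact_mod_cast hq
  have hq0 : (0 : ℝ) < q := by linarith only [hq1]
  set qq : ℝ := (q : ℝ) with hqq
  refine ⟨(d : ℝ) ^ q * (2 ^ q * ((4 * qq) ^ qq * K + (2 * qq) ^ qq * 9)), ?_, ?_⟩
  · have : (0 : ℝ) < d := by exact_mod_cast hd
    positivity
  intro σ E N x y hσ hs hE hx hy
  have hs0 : 0 < |σ| := abs_pos.2 hσ
  have hL : 1 ≤ 1 / |σ| := by
    rw [le_div_iff₀ hs0, one_mul]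
    exact hs
  have hd1 : (1 : ℝ) ≤ d := by exact_mod_cast hd
  set Λ := box (0 : Site d) N with hΛ
  set P : ℝ := (1 / |σ|) ^ (5 ^ d) with hP
  have hP1 : 1 / |σ| ≤ P := by
    rw [hP]
    exact le_self_pow₀ hL (by positivity)
  have hP0 : 0 < P := by positivity
  set a : ℝ := (4 * qq) ^ qq * (K * P) with ha
  set b : ℝ := (2 * qq) ^ qq * (1 + 8 * (1 / |σ|)) with hb
  have ha0 : 0 ≤ a := by positivity
  have hb0 : 0 ≤ b := by positivity
  have hab : a + b ≤ ((4 * qq) ^ qq * K + (2 * qq) ^ qq * 9) * P := by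
    have h1 : 1 + 8 * (1 / |σ|) ≤ 9 * P := by linarith only [hL, hP1]
    have h2 : b ≤ (2 * qq) ^ qq * (9 * P) := mul_le_mul_of_nonneg_left h1 (by positivity)
    calc a + b ≤ (4 * qq) ^ qq * (K * P) + (2 * qq) ^ qq * (9 * P) := by linarith only [h2]
      _ = _ := by ring
  have mg : Measurable fun V : Site d → ℝ => gr V Λ E x y := measurable_gr Λ E x y
  have mD : Measurable fun V : Site d → ℝ => Dp (gr V Λ E x y) := measurable_Dp.comp mg
  have hp := path_in (σ := σ) (E := E) (p := qq) (N := N) hq1 (C1 := a ^ (1 / qq))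
    (C2 := b ^ (1 / qq)) (by positivity) (by positivity)
    (fun x y hx hy hxy => nearP hK hσ hq0 _ x y (hlow σ E hσ hs hE _ x y hx hy hxy))
    (fun x u y => ratioC hσ E hq0 _ x u y) hx (l1 x y) y rfl hy
  have hDL : ∀ V : Site d → ℝ, (ENNReal.ofReal (DL Λ E V x y)) ^ q ≤
      (Dp (gr V Λ E x y)) ^ qq := by
    intro V
    rw [hqq, ENNReal.rpow_natCast]
    apply pow_le_pow_left'
    unfold DL Dp
    split_ifs
    · exact le_top
    · exact le_rfl
  calc ∫⁻ V, (ENNReal.ofReal (DL Λ E V x y)) ^ q ∂(PP d (gl σ))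
      ≤ ∫⁻ V, (Dp (gr V Λ E x y)) ^ qq ∂(PP d (gl σ)) := lintegral_mono hDL
    _ = ∫⁻ V, (Dp (gr V Λ E x y)) ^ qq ∂(PL (gl σ) Λ) :=
        lint_PP Λ (mD.pow_const _) (fun V V' hV => by rw [gr_congr hV])
    _ = (Nn (PL (gl σ) Λ) qq (fun V => Dp (gr V Λ E x y))) ^ qq := (Nn_rpow hq0 _).symm
    _ ≤ (ENNReal.ofReal (((l1 x y : ℝ) + 1) * (a ^ (1 / qq) + b ^ (1 / qq)))) ^ qq :=
        ENNReal.rpow_le_rpow hp hq0.le
    _ ≤ _ := by
        rw [ENNReal.ofReal_rpow_of_nonneg (by positivity) hq0.le]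
        apply ENNReal.ofReal_le_ofReal
        have h3 : (l1 x y : ℝ) ≤ d * sd x y := by exact_mod_cast l1_le x y le_rfl
        have h5 : ((l1 x y : ℝ) + 1) ≤ d * ((sd x y : ℝ) + 1) := by linarith only [hd1, h3]
        have h6 : (((l1 x y : ℝ) + 1)) ^ qq ≤ (d * ((sd x y : ℝ) + 1)) ^ qq :=
          Real.rpow_le_rpow (by positivity) h5 hq0.le
        have h7 := add_rpow_root ha0 hb0 hq0
        have h8 : |σ| ^ (-((5 ^ d : ℕ) : ℝ)) = P := by
          rw [Real.rpow_neg hs0.le, Real.rpow_natCast, hP, one_div, inv_pow]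
        rw [h8, Real.mul_rpow (by positivity) (by positivity)]
        have h9 : (d * ((sd x y : ℝ) + 1)) ^ qq = (d : ℝ) ^ q * ((sd x y : ℝ) + 1) ^ q := by
          rw [hqq, Real.rpow_natCast, mul_pow]
        have h10 : (2 : ℝ) ^ qq = 2 ^ q := by rw [hqq, Real.rpow_natCast]
        rw [h9] at h6
        rw [h10] at h7
        calc ((l1 x y : ℝ) + 1) ^ qq * (a ^ (1 / qq) + b ^ (1 / qq)) ^ qq
            ≤ ((d : ℝ) ^ q * ((sd x y : ℝ) + 1) ^ q) * (2 ^ q * (a + b)) :=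
              mul_le_mul h6 h7 (by positivity) (by positivity)
          _ ≤ ((d : ℝ) ^ q * ((sd x y : ℝ) + 1) ^ q) *
              (2 ^ q * (((4 * qq) ^ qq * K + (2 * qq) ^ qq * 9) * P)) := by gcongr
          _ = _ := by ring

theorem oscB (trf : TrfStmt) : OscBStmt := by
  intro d B₀ hd hB₀
  obtain ⟨A, hA, hcst⟩ := cstB hd hB₀
  refine ⟨A, hA, fun q => ?_⟩
  rcases Nat.eq_zero_or_pos q with hq | hq
  · refine ⟨1, one_pos, ?_⟩
    intro σ E N s S c hσ hσ1 hE hs hS hSN hcN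
    rw [hq]
    simp only [pow_zero]
    rw [lintegral_one]
    have h1 : (1 : ℝ) ≤ |σ| ^ (-A) := by
      have hp : 0 < |σ| := abs_pos.mpr hσ
      have := Real.one_le_rpow_of_pos_of_le_one_of_nonpos hp hσ1 (show -A ≤ 0 by linarith only [hA])
      exact this
    have h2 : (1 : ℝ) ≤ (s : ℝ) ^ (0 + d + 1) := one_le_pow₀ (by exact_mod_cast hs)
    have h3 : (PP d (gl σ)) Set.univ = 1 := measure_univ
    rw [h3, ← ENNReal.ofReal_one]
    apply ENNReal.ofReal_le_ofReal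
    nlinarith only [h1, h2]
  obtain ⟨C1, hC1, hcst'⟩ := hcst q hq
  obtain ⟨K, hK, hK'⟩ := sum_tail q
  refine ⟨3 ^ d * 2 ^ q * (C1 * 2 ^ q + 16 * K), by positivity, ?_⟩
  intro σ E N s S c hσ hσ1 hE hs hS hSN hcN
  have hσp : 0 < |σ| := abs_pos.mpr hσ
  have hc0 : c ∈ box (0 : Site d) N := hcN (self_mem c s)
  have hB : (0 : ℝ) ≤ 16 / |σ| := by positivity
  have key : ∀ x ∈ box c s, ∃ G : (Site d → ℝ) → ℝ≥0∞, Measurable G ∧
      (∀ V, (ENNReal.ofReal |FD V (box 0 N) E S x - FD V (box 0 N) E S c|) ^ q ≤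
        2 ^ q * ((ENNReal.ofReal (DL (box 0 N) E V c x)) ^ q + G V)) ∧
      ∫⁻ V, G V ∂(PP d (gl σ)) ≤ ENNReal.ofReal (16 / |σ| * K) := by
    intro x hx
    have hx0 := hcN hx
    obtain ⟨G, hG, hG1, hG2⟩ := tail_bound (PP d (gl σ)) hq (B := 16 / |σ|) (K := K)
      (T := fun V => |FD V (box 0 N) E S c - FD V (box 0 N) E S x| - DL (box 0 N) E V c x) hB hK'
      (fun t => by
        refine le_trans (measure_mono ?_) (trf d N σ E t S c x hd hσ hS hSN hc0 hx0)
        intro V hV hcon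
        have hV' : t < |FD V (box 0 N) E S c - FD V (box 0 N) E S x| - DL (box 0 N) E V c x := hV
        linarith only [hcon, hV'])
    refine ⟨G, hG, fun V => ?_, hG2⟩
    have h1 : ENNReal.ofReal |FD V (box 0 N) E S x - FD V (box 0 N) E S c| ≤
        ENNReal.ofReal (DL (box 0 N) E V c x) +
          ENNReal.ofReal (|FD V (box 0 N) E S c - FD V (box 0 N) E S x| -
            DL (box 0 N) E V c x) := by
      have h2 : |FD V (box 0 N) E S x - FD V (box 0 N) E S c| = DL (box 0 N) E V c x +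
          (|FD V (box 0 N) E S c - FD V (box 0 N) E S x| - DL (box 0 N) E V c x) := by
        rw [abs_sub_comm]
        ring
      rw [h2]
      exact ENNReal.ofReal_add_le
    calc (ENNReal.ofReal |FD V (box 0 N) E S x - FD V (box 0 N) E S c|) ^ q
        ≤ (ENNReal.ofReal (DL (box 0 N) E V c x) +
          ENNReal.ofReal (|FD V (box 0 N) E S c - FD V (box 0 N) E S x| -
            DL (box 0 N) E V c x)) ^ q := pow_le_pow_left' h1 q
      _ ≤ _ := (add_pow_le' _ _ q).trans (mul_le_mul_right (add_le_add le_rfl (hG1 V)) _)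
  choose! G hGm hG1 hG2 using key
  have hmD : ∀ x, Measurable fun V : Site d → ℝ => (ENNReal.ofReal (DL (box 0 N) E V c x)) ^ q :=
    fun x => (H93C.measurable_DL (box 0 N) E c x).ennreal_ofReal.pow_const q
  calc ∫⁻ V, (Pool.Agent.LE.osc V N E S c s) ^ q ∂(PP d (gl σ))
      ≤ ∫⁻ V, ∑ x ∈ box c s, 2 ^ q * ((ENNReal.ofReal (DL (box 0 N) E V c x)) ^ q + G x V)
          ∂(PP d (gl σ)) := by
        refine lintegral_mono fun V => ?_
        exact (osc_pow_le V N E S c s q).trans (Finset.sum_le_sum fun x hx => hG1 x hx V)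
    _ = ∑ x ∈ box c s, ∫⁻ V, 2 ^ q * ((ENNReal.ofReal (DL (box 0 N) E V c x)) ^ q + G x V)
          ∂(PP d (gl σ)) :=
        lintegral_finsetSum _ fun x hx => ((hmD x).add (hGm x hx)).const_mul _
    _ ≤ ∑ x ∈ box c s, ENNReal.ofReal (|σ| ^ (-A) * (s : ℝ) ^ q * (2 ^ q * (C1 * 2 ^ q + 16 * K))) := by
        refine Finset.sum_le_sum fun x hx => ?_
        have hL : ∫⁻ V, 2 ^ q * ((ENNReal.ofReal (DL (box 0 N) E V c x)) ^ q + G x V)
            ∂(PP d (gl σ)) = 2 ^ q * (∫⁻ V, (ENNReal.ofReal (DL (box 0 N) E V c x)) ^ q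
              ∂(PP d (gl σ)) + ∫⁻ V, G x V ∂(PP d (gl σ))) := by
          have hL1 := lintegral_const_mul (μ := PP d (gl σ)) ((2 : ℝ≥0∞) ^ q)
            ((hmD x).add (hGm x hx))
          have hL2 := lintegral_add_left (μ := PP d (gl σ)) (hmD x) (G x)
          rw [← hL2]
          exact hL1
        rw [hL]
        have h1 := hcst' σ E N c x hσ hσ1 hE hc0 (hcN hx)
        have hsd : (sd c x : ℝ) ≤ s := by
          have : sd c x ≤ s := mem_box.mp hx
          exact_mod_cast this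
        have hs1 : (1 : ℝ) ≤ s := by exact_mod_cast hs
        have hR : 0 < |σ| ^ (-A) := Real.rpow_pos_of_pos hσp _
        have h2 : C1 * |σ| ^ (-A) * ((sd c x : ℝ) + 1) ^ q ≤
            C1 * |σ| ^ (-A) * (2 ^ q * (s : ℝ) ^ q) := by
          apply mul_le_mul_of_nonneg_left _ (by positivity)
          rw [← mul_pow]
          apply pow_le_pow_left₀ (by positivity)
          linarith only [hsd, hs1]
        have h3 : 16 / |σ| * K ≤ 16 * |σ| ^ (-A) * K * (s : ℝ) ^ q := by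
          have h4 : 1 / |σ| ≤ |σ| ^ (-A) := by
            rw [one_div, ← Real.rpow_neg_one]
            exact Real.rpow_le_rpow_of_exponent_ge hσp hσ1 (by linarith only [hA])
          have h5 : (1 : ℝ) ≤ (s : ℝ) ^ q := one_le_pow₀ hs1
          calc 16 / |σ| * K = 16 * K * (1 / |σ|) * 1 := by ring
            _ ≤ 16 * K * |σ| ^ (-A) * (s : ℝ) ^ q := by
                apply mul_le_mul _ h5 zero_le_one (by positivity)
                exact mul_le_mul_of_nonneg_left h4 (by positivity)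
            _ = _ := by ring
        have h6 : (2 : ℝ≥0∞) ^ q = ENNReal.ofReal (2 ^ q) := by
          rw [ENNReal.ofReal_pow (by norm_num)]
          congr 1
          exact (ENNReal.ofReal_ofNat 2).symm
        calc 2 ^ q * (∫⁻ V, (ENNReal.ofReal (DL (box 0 N) E V c x)) ^ q ∂(PP d (gl σ)) +
              ∫⁻ V, G x V ∂(PP d (gl σ)))
            ≤ ENNReal.ofReal (2 ^ q) * (ENNReal.ofReal (C1 * |σ| ^ (-A) * (2 ^ q * (s : ℝ) ^ q)) +
                ENNReal.ofReal (16 * |σ| ^ (-A) * K * (s : ℝ) ^ q)) := by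
              rw [h6]
              refine mul_le_mul_right (add_le_add (h1.trans (ENNReal.ofReal_le_ofReal h2))
                ((hG2 x hx).trans (ENNReal.ofReal_le_ofReal h3))) _
          _ = _ := by
              rw [← ENNReal.ofReal_add (by positivity) (by positivity),
                ← ENNReal.ofReal_mul (by positivity)]
              congr 1
              ring
    _ ≤ ENNReal.ofReal (3 ^ d * 2 ^ q * (C1 * 2 ^ q + 16 * K) * |σ| ^ (-A) *
          (s : ℝ) ^ (q + d + 1)) := by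
        rw [Finset.sum_const, card_box, nsmul_eq_mul]
        have hs1 : (1 : ℝ) ≤ s := by exact_mod_cast hs
        have hR : 0 < |σ| ^ (-A) := Real.rpow_pos_of_pos hσp _
        have h7 : (((2 * s + 1) ^ d : ℕ) : ℝ≥0∞) = ENNReal.ofReal ((2 * (s : ℝ) + 1) ^ d) := by
          rw [← ENNReal.ofReal_natCast]
          congr 1
          push_cast
          ring
        rw [h7, ← ENNReal.ofReal_mul (by positivity)]
        apply ENNReal.ofReal_le_ofReal
        have h8 : (2 * (s : ℝ) + 1) ^ d ≤ 3 ^ d * (s : ℝ) ^ d := by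
          rw [← mul_pow]
          apply pow_le_pow_left₀ (by positivity)
          linarith only [hs1]
        calc (2 * (s : ℝ) + 1) ^ d * (|σ| ^ (-A) * (s : ℝ) ^ q * (2 ^ q * (C1 * 2 ^ q + 16 * K)))
            ≤ (3 ^ d * (s : ℝ) ^ d) *
              (|σ| ^ (-A) * (s : ℝ) ^ q * (2 ^ q * (C1 * 2 ^ q + 16 * K))) :=
              mul_le_mul_of_nonneg_right h8 (by positivity)
          _ = (3 ^ d * 2 ^ q * (C1 * 2 ^ q + 16 * K) * |σ| ^ (-A) * (s : ℝ) ^ (q + d)) * 1 := by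
              rw [pow_add]
              ring
          _ ≤ (3 ^ d * 2 ^ q * (C1 * 2 ^ q + 16 * K) * |σ| ^ (-A) * (s : ℝ) ^ (q + d)) * s :=
              mul_le_mul_of_nonneg_left hs1 (by positivity)
          _ = _ := by
              rw [pow_succ]
              ring


end Pool.Agent.LE.H28W
end
end -- Pool.Agent.Helper28_LEW.OSCB
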