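import Pool.Agent.Helper12_MEB.B065

/-!
# Merged copies (generated) of the modules

* `Pool.Agent.Helper9_LSP.OscE`
-/

set_option autoImplicit false

section -- Pool.Agent.Helper9_LSP.OscE

/-!
# Explicit moments of the oscillation: `∫ osc ^ q ≤ K |σ|^(-A) (C q)^q`

Follows `Pool.Agent.LE.H28W.cstB` and `oscB` with explicit constants.
-/

set_option autoImplicit false
set_option linter.unusedSectionVars false

open scoped Topology ENNReal BigOperators
open MeasureTheory Filter ProbabilityTheory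

noncomputable section

namespace Pool.Agent.LE.H9W

open Pool.Agent.Anderson Pool.Agent.Loc Pool.Agent.Mob Pool.Agent.Helper54.Bal Pool.Agent.LY
  Pool.Agent.LE.H54 Pool.Agent.LE.H26U Pool.Agent.LE.H3W Pool.Agent.LE.H28W

theorem pow_le_exp_half (q : ℕ) (hq : 1 ≤ q) (x : ℝ) (hx : 0 ≤ x) :
    x ^ q ≤ (2 * (q : ℝ)) ^ q * Real.exp (x / 2) := by
  have hq0 : (0 : ℝ) < q := by exact_mod_cast hq
  have h1 : x / (2 * q) ≤ Real.exp (x / (2 * q)) := by
    have := Real.add_one_le_exp (x / (2 * q))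
    linarith only [this]
  have h2 : (x / (2 * q)) ^ q ≤ Real.exp (x / (2 * q)) ^ q :=
    pow_le_pow_left₀ (by positivity) h1 q
  rw [← Real.exp_nat_mul] at h2
  have h3 : (q : ℝ) * (x / (2 * q)) = x / 2 := by
    field_simp
  rw [h3, div_pow, div_le_iff₀ (by positivity)] at h2
  linarith [mul_comm (Real.exp (x / 2)) ((2 * (q : ℝ)) ^ q)]

theorem sum_tailE : ∃ L : ℝ, 1 ≤ L ∧ ∀ q : ℕ, 1 ≤ q →
    ∑' k : ℕ, ENNReal.ofReal (((k : ℝ) + 1) ^ q * Real.exp (-(k : ℝ))) ≤
      ENNReal.ofReal (L * (2 * (q : ℝ)) ^ q) := by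
  set r : ℝ := Real.exp (-(1 / 2)) with hr
  have hr0 : 0 < r := Real.exp_pos _
  have hr1 : r < 1 := by
    rw [hr, ← Real.exp_zero]
    exact Real.exp_lt_exp.mpr (by norm_num)
  have hs := summable_geometric_of_lt_one hr0.le hr1
  have ht := tsum_geometric_of_lt_one hr0.le hr1
  have h1r : 0 < 1 - r := by linarith only [hr1]
  refine ⟨Real.exp (1 / 2) * (1 - r)⁻¹, ?_, ?_⟩
  · have h1 : 1 ≤ Real.exp (1 / 2) := Real.one_le_exp (by norm_num)
    have h2 : 1 ≤ (1 - r)⁻¹ := by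
      rw [one_le_inv₀ h1r]
      linarith only [hr0]
    calc (1 : ℝ) = 1 * 1 := (one_mul 1).symm
      _ ≤ _ := mul_le_mul h1 h2 zero_le_one (by positivity)
  intro q hq
  have hterm : ∀ k : ℕ, ((k : ℝ) + 1) ^ q * Real.exp (-(k : ℝ)) ≤
      (2 * (q : ℝ)) ^ q * Real.exp (1 / 2) * r ^ k := by
    intro k
    have h1 := pow_le_exp_half q hq ((k : ℝ) + 1) (by positivity)
    calc ((k : ℝ) + 1) ^ q * Real.exp (-(k : ℝ))
        ≤ ((2 * (q : ℝ)) ^ q * Real.exp (((k : ℝ) + 1) / 2)) * Real.exp (-(k : ℝ)) :=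
          mul_le_mul_of_nonneg_right h1 (Real.exp_pos _).le
      _ = (2 * (q : ℝ)) ^ q * Real.exp (1 / 2) * r ^ k := by
          rw [hr, ← Real.exp_nat_mul, mul_assoc, mul_assoc, ← Real.exp_add, ← Real.exp_add]
          congr 2
          ring
  calc ∑' k : ℕ, ENNReal.ofReal (((k : ℝ) + 1) ^ q * Real.exp (-(k : ℝ)))
      ≤ ∑' k : ℕ, ENNReal.ofReal ((2 * (q : ℝ)) ^ q * Real.exp (1 / 2) * r ^ k) :=
        ENNReal.tsum_le_tsum fun k => ENNReal.ofReal_le_ofReal (hterm k)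
    _ = ENNReal.ofReal (∑' k : ℕ, (2 * (q : ℝ)) ^ q * Real.exp (1 / 2) * r ^ k) :=
        (ENNReal.ofReal_tsum_of_nonneg (fun k => by positivity) (hs.mul_left _)).symm
    _ = ENNReal.ofReal (Real.exp (1 / 2) * (1 - r)⁻¹ * (2 * (q : ℝ)) ^ q) := by
        rw [tsum_mul_left, ht]
        congr 1
        ring

/-- moments of `D^+` with explicit constants -/
theorem cstE {d : ℕ} (hd : 1 ≤ d) {B : ℝ} (hB : 0 < B) : ∃ A : ℝ, 1 ≤ A ∧ ∃ K : ℝ, 0 < K ∧
    ∀ q : ℕ, 1 ≤ q → ∀ (σ E : ℝ) (N : ℕ)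
    (x y : Site d), σ ≠ 0 → |σ| ≤ 1 → |E| ≤ B → x ∈ box (0 : Site d) N →
    y ∈ box (0 : Site d) N →
      ∫⁻ V, (ENNReal.ofReal (DL (box 0 N) E V x y)) ^ q ∂(PP d (gl σ)) ≤
        ENNReal.ofReal (K * |σ| ^ (-A) * (8 * d * q * ((sd x y : ℝ) + 1)) ^ q) := by
  obtain ⟨K, hK, hlow⟩ := lowPB hd hB
  refine ⟨(5 ^ d : ℕ), by exact_mod_cast Nat.one_le_pow _ _ (by norm_num), K + 9, by positivity, ?_⟩
  intro q hq
  have hq1 : (1 : ℝ) ≤ q := by exact_mod_cast hq
  have hq0 : (0 : ℝ) < q := by linarith only [hq1]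
  set qq : ℝ := (q : ℝ) with hqq
  intro σ E N x y hσ hs hE hx hy
  have hs0 : 0 < |σ| := abs_pos.2 hσ
  have hL : 1 ≤ 1 / |σ| := by
    rw [le_div_iff₀ hs0, one_mul]
    exact hs
  have hd1 : (1 : ℝ) ≤ d := by exact_mod_cast hd
  set Λ := box (0 : Site d) N with hΛ
  set P : ℝ := (1 / |σ|) ^ (5 ^ d) with hP
  have hP1 : 1 / |σ| ≤ P := by
    rw [hP]
    exact le_self_pow₀ hL (by positivity)
  have hP0 : 0 < P := by positivity
  set a : ℝ := (4 * qq) ^ qq * (K * P) with ha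
  set b : ℝ := (2 * qq) ^ qq * (1 + 8 * (1 / |σ|)) with hb
  have ha0 : 0 ≤ a := by positivity
  have hb0 : 0 ≤ b := by positivity
  have hab : a + b ≤ ((4 * qq) ^ qq * (K + 9)) * P := by
    have h1 : 1 + 8 * (1 / |σ|) ≤ 9 * P := by linarith only [hL, hP1]
    have h2 : b ≤ (2 * qq) ^ qq * (9 * P) := mul_le_mul_of_nonneg_left h1 (by positivity)
    have h3 : (2 * qq) ^ qq ≤ (4 * qq) ^ qq :=
      Real.rpow_le_rpow (by positivity) (by linarith only [hq1]) hq0.le
    have h4 : (2 * qq) ^ qq * (9 * P) ≤ (4 * qq) ^ qq * (9 * P) :=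
      mul_le_mul_of_nonneg_right h3 (by positivity)
    calc a + b ≤ (4 * qq) ^ qq * (K * P) + (4 * qq) ^ qq * (9 * P) := by linarith only [h2, h4]
      _ = _ := by ring
  have mg : Measurable fun V : Site d → ℝ => gr V Λ E x y := measurable_gr Λ E x y
  have mD : Measurable fun V : Site d → ℝ => Dp (gr V Λ E x y) := measurable_Dp.comp mg
  have hp := path_in (σ := σ) (E := E) (p := qq) (N := N) hq1 (C1 := a ^ (1 / qq))
    (C2 := b ^ (1 / qq)) (by positivity) (by positivity)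
    (fun x y hx hy hxy => nearP hK hσ hq0 _ x y (hlow σ E hσ hs hE _ x y hx hy hxy))
    (fun x u y => ratioC hσ E hq0 _ x u y) hx (l1 x y) y rfl hy
  have hDL : ∀ V : Site d → ℝ, (ENNReal.ofReal (DL Λ E V x y)) ^ q ≤
      (Dp (gr V Λ E x y)) ^ qq := by
    intro V
    rw [hqq, ENNReal.rpow_natCast]
    apply pow_le_pow_left'
    unfold DL Dp
    split_ifs
    · exact le_top
    · exact le_rfl
  calc ∫⁻ V, (ENNReal.ofReal (DL Λ E V x y)) ^ q ∂(PP d (gl σ))
      ≤ ∫⁻ V, (Dp (gr V Λ E x y)) ^ qq ∂(PP d (gl σ)) := lintegral_mono hDL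
    _ = ∫⁻ V, (Dp (gr V Λ E x y)) ^ qq ∂(PL (gl σ) Λ) :=
        lint_PP Λ (mD.pow_const _) (fun V V' hV => by rw [gr_congr hV])
    _ = (Nn (PL (gl σ) Λ) qq (fun V => Dp (gr V Λ E x y))) ^ qq := (Nn_rpow hq0 _).symm
    _ ≤ (ENNReal.ofReal (((l1 x y : ℝ) + 1) * (a ^ (1 / qq) + b ^ (1 / qq)))) ^ qq :=
        ENNReal.rpow_le_rpow hp hq0.le
    _ ≤ _ := by
        rw [ENNReal.ofReal_rpow_of_nonneg (by positivity) hq0.le]
        apply ENNReal.ofReal_le_ofReal
        have h3 : (l1 x y : ℝ) ≤ d * sd x y := by exact_mod_cast l1_le x y le_rfl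
        have h5 : ((l1 x y : ℝ) + 1) ≤ d * ((sd x y : ℝ) + 1) := by linarith only [hd1, h3]
        have h6 : (((l1 x y : ℝ) + 1)) ^ qq ≤ (d * ((sd x y : ℝ) + 1)) ^ qq :=
          Real.rpow_le_rpow (by positivity) h5 hq0.le
        have h7 := add_rpow_root ha0 hb0 hq0
        have h8 : |σ| ^ (-((5 ^ d : ℕ) : ℝ)) = P := by
          rw [Real.rpow_neg hs0.le, Real.rpow_natCast, hP, one_div, inv_pow]
        rw [h8, Real.mul_rpow (by positivity) (by positivity)]
        have h9 : (d * ((sd x y : ℝ) + 1)) ^ qq = (d * ((sd x y : ℝ) + 1)) ^ q := by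
          rw [hqq, Real.rpow_natCast]
        have h10 : (2 : ℝ) ^ qq = 2 ^ q := by rw [hqq, Real.rpow_natCast]
        have h11 : (4 * qq) ^ qq = (4 * qq) ^ q := by
          rw [hqq, Real.rpow_natCast]
        rw [h9] at h6
        rw [h10] at h7
        rw [h11] at hab
        calc ((l1 x y : ℝ) + 1) ^ qq * (a ^ (1 / qq) + b ^ (1 / qq)) ^ qq
            ≤ ((d * ((sd x y : ℝ) + 1)) ^ q) * (2 ^ q * (a + b)) :=
              mul_le_mul h6 h7 (by positivity) (by positivity)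
          _ ≤ ((d * ((sd x y : ℝ) + 1)) ^ q) *
              (2 ^ q * (((4 * qq) ^ q * (K + 9)) * P)) := by gcongr
          _ = (K + 9) * P * ((d * ((sd x y : ℝ) + 1)) ^ q * 2 ^ q * (4 * qq) ^ q) := by ring
          _ = _ := by
              rw [← mul_pow, ← mul_pow]
              congr 2
              ring

/-- moments of the oscillation with explicit constants -/
theorem oscE (trf : TrfStmt) {d : ℕ} (hd : 1 ≤ d) {B₀ : ℝ} (hB₀ : 0 < B₀) :
    ∃ A : ℝ, 1 ≤ A ∧ ∃ K : ℝ, 0 < K ∧ ∀ q : ℕ, 1 ≤ q →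
    ∀ (σ E : ℝ) (N : ℕ) (S : Finset (Site d)) (c : Site d), σ ≠ 0 → |σ| ≤ 1 → |E| ≤ B₀ →
    S.Nonempty → S ⊆ box 0 N → box c 1 ⊆ box 0 N →
      ∫⁻ V, (osc V N E S c 1) ^ q ∂(PP d (gl σ)) ≤
        ENNReal.ofReal (K * |σ| ^ (-A) * (32 * d * q) ^ q) := by
  obtain ⟨A, hA, C1, hC1, hcst⟩ := cstE hd hB₀
  obtain ⟨L, hL1, hL⟩ := sum_tailE
  refine ⟨A, hA, 3 ^ d * (C1 + 16 * L), by positivity, ?_⟩
  intro q hq σ E N S c hσ hσ1 hE hS hSN hcN
  have hK' := hL q hq
  set K : ℝ := L * (2 * (q : ℝ)) ^ q with hKdef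
  have hq0 : (0 : ℝ) < q := by exact_mod_cast hq
  have hK : 0 < K := by positivity
  have hσp : 0 < |σ| := abs_pos.mpr hσ
  have hc0 : c ∈ box (0 : Site d) N := hcN (self_mem c 1)
  have hB : (0 : ℝ) ≤ 16 / |σ| := by positivity
  have key : ∀ x ∈ box c 1, ∃ G : (Site d → ℝ) → ℝ≥0∞, Measurable G ∧
      (∀ V, (ENNReal.ofReal |FD V (box 0 N) E S x - FD V (box 0 N) E S c|) ^ q ≤
        2 ^ q * ((ENNReal.ofReal (DL (box 0 N) E V c x)) ^ q + G V)) ∧
      ∫⁻ V, G V ∂(PP d (gl σ)) ≤ ENNReal.ofReal (16 / |σ| * K) := by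
    intro x hx
    have hx0 := hcN hx
    obtain ⟨G, hG, hG1, hG2⟩ := tail_bound (PP d (gl σ)) hq (B := 16 / |σ|) (K := K)
      (T := fun V => |FD V (box 0 N) E S c - FD V (box 0 N) E S x| - DL (box 0 N) E V c x) hB hK'
      (fun t => by
        refine le_trans (measure_mono ?_) (trf d N σ E t S c x hd hσ hS hSN hc0 hx0)
        intro V hV hcon
        have hV' : t < |FD V (box 0 N) E S c - FD V (box 0 N) E S x| - DL (box 0 N) E V c x := hV
        linarith only [hcon, hV'])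
    refine ⟨G, hG, fun V => ?_, hG2⟩
    have h1 : ENNReal.ofReal |FD V (box 0 N) E S x - FD V (box 0 N) E S c| ≤
        ENNReal.ofReal (DL (box 0 N) E V c x) +
          ENNReal.ofReal (|FD V (box 0 N) E S c - FD V (box 0 N) E S x| -
            DL (box 0 N) E V c x) := by
      have h2 : |FD V (box 0 N) E S x - FD V (box 0 N) E S c| = DL (box 0 N) E V c x +
          (|FD V (box 0 N) E S c - FD V (box 0 N) E S x| - DL (box 0 N) E V c x) := by
        rw [abs_sub_comm]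
        ring
      rw [h2]
      exact ENNReal.ofReal_add_le
    calc (ENNReal.ofReal |FD V (box 0 N) E S x - FD V (box 0 N) E S c|) ^ q
        ≤ (ENNReal.ofReal (DL (box 0 N) E V c x) +
          ENNReal.ofReal (|FD V (box 0 N) E S c - FD V (box 0 N) E S x| -
            DL (box 0 N) E V c x)) ^ q := pow_le_pow_left' h1 q
      _ ≤ _ := (add_pow_le' _ _ q).trans (mul_le_mul_right (add_le_add le_rfl (hG1 V)) _)
  choose! G hGm hG1 hG2 using key
  have hmD : ∀ x, Measurable fun V : Site d → ℝ => (ENNReal.ofReal (DL (box 0 N) E V c x)) ^ q :=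
    fun x => (H93C.measurable_DL (box 0 N) E c x).ennreal_ofReal.pow_const q
  have hd1 : (1 : ℝ) ≤ d := by exact_mod_cast hd
  have hR : 0 < |σ| ^ (-A) := Real.rpow_pos_of_pos hσp _
  calc ∫⁻ V, (Pool.Agent.LE.osc V N E S c 1) ^ q ∂(PP d (gl σ))
      ≤ ∫⁻ V, ∑ x ∈ box c 1, 2 ^ q * ((ENNReal.ofReal (DL (box 0 N) E V c x)) ^ q + G x V)
          ∂(PP d (gl σ)) := by
        refine lintegral_mono fun V => ?_
        exact (osc_pow_le V N E S c 1 q).trans (Finset.sum_le_sum fun x hx => hG1 x hx V)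
    _ = ∑ x ∈ box c 1, ∫⁻ V, 2 ^ q * ((ENNReal.ofReal (DL (box 0 N) E V c x)) ^ q + G x V)
          ∂(PP d (gl σ)) :=
        lintegral_finsetSum _ fun x hx => ((hmD x).add (hGm x hx)).const_mul _
    _ ≤ ∑ x ∈ box c 1, ENNReal.ofReal ((C1 + 16 * L) * |σ| ^ (-A) * (32 * d * q) ^ q) := by
        refine Finset.sum_le_sum fun x hx => ?_
        have hLL : ∫⁻ V, 2 ^ q * ((ENNReal.ofReal (DL (box 0 N) E V c x)) ^ q + G x V)
            ∂(PP d (gl σ)) = 2 ^ q * (∫⁻ V, (ENNReal.ofReal (DL (box 0 N) E V c x)) ^ q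
              ∂(PP d (gl σ)) + ∫⁻ V, G x V ∂(PP d (gl σ))) := by
          have hL1 := lintegral_const_mul (μ := PP d (gl σ)) ((2 : ℝ≥0∞) ^ q)
            ((hmD x).add (hGm x hx))
          have hL2 := lintegral_add_left (μ := PP d (gl σ)) (hmD x) (G x)
          rw [← hL2]
          exact hL1
        rw [hLL]
        have h1 := hcst q hq σ E N c x hσ hσ1 hE hc0 (hcN hx)
        have hsd : (sd c x : ℝ) ≤ 1 := by
          have : sd c x ≤ 1 := mem_box.mp hx
          exact_mod_cast this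
        have h2 : C1 * |σ| ^ (-A) * (8 * d * q * ((sd c x : ℝ) + 1)) ^ q ≤
            C1 * |σ| ^ (-A) * (16 * d * q) ^ q := by
          apply mul_le_mul_of_nonneg_left _ (by positivity)
          apply pow_le_pow_left₀ (by positivity)
          have : 8 * (d : ℝ) * q * ((sd c x : ℝ) + 1) ≤ 8 * (d : ℝ) * q * (1 + 1) :=
            mul_le_mul_of_nonneg_left (by linarith only [hsd]) (by positivity)
          linarith only [this]
        have h3 : 16 / |σ| * K ≤ 16 * L * |σ| ^ (-A) * (16 * d * q) ^ q := by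
          have h4 : 1 / |σ| ≤ |σ| ^ (-A) := by
            rw [one_div, ← Real.rpow_neg_one]
            exact Real.rpow_le_rpow_of_exponent_ge hσp hσ1 (by linarith only [hA])
          have h5 : (2 * (q : ℝ)) ^ q ≤ (16 * d * q) ^ q := by
            apply pow_le_pow_left₀ (by positivity)
            have : 2 * (q : ℝ) ≤ 16 * d * q := by
              apply mul_le_mul_of_nonneg_right _ hq0.le
              linarith only [hd1]
            exact this
          calc 16 / |σ| * K = 16 * L * (1 / |σ|) * (2 * (q : ℝ)) ^ q := by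
                rw [hKdef]
                ring
            _ ≤ 16 * L * |σ| ^ (-A) * (16 * d * q) ^ q := by
                apply mul_le_mul _ h5 (by positivity) (by positivity)
                exact mul_le_mul_of_nonneg_left h4 (by positivity)
        have h6 : (2 : ℝ≥0∞) ^ q = ENNReal.ofReal (2 ^ q) := by
          rw [ENNReal.ofReal_pow (by norm_num)]
          congr 1
          exact (ENNReal.ofReal_ofNat 2).symm
        calc 2 ^ q * (∫⁻ V, (ENNReal.ofReal (DL (box 0 N) E V c x)) ^ q ∂(PP d (gl σ)) +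
              ∫⁻ V, G x V ∂(PP d (gl σ)))
            ≤ ENNReal.ofReal (2 ^ q) * (ENNReal.ofReal (C1 * |σ| ^ (-A) * (16 * d * q) ^ q) +
                ENNReal.ofReal (16 * L * |σ| ^ (-A) * (16 * d * q) ^ q)) := by
              rw [h6]
              refine mul_le_mul_right (add_le_add (h1.trans (ENNReal.ofReal_le_ofReal h2))
                ((hG2 x hx).trans (ENNReal.ofReal_le_ofReal h3))) _
          _ = _ := by
              rw [← ENNReal.ofReal_add (by positivity) (by positivity),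
                ← ENNReal.ofReal_mul (by positivity)]
              congr 1
              have h12 : (32 * (d : ℝ) * q) ^ q = 2 ^ q * (16 * d * q) ^ q := by
                rw [← mul_pow]
                congr 1
                ring
              rw [h12]
              ring
    _ ≤ ENNReal.ofReal (3 ^ d * (C1 + 16 * L) * |σ| ^ (-A) * (32 * d * q) ^ q) := by
        rw [Finset.sum_const, card_box, nsmul_eq_mul]
        have h7 : (((2 * 1 + 1) ^ d : ℕ) : ℝ≥0∞) = ENNReal.ofReal (3 ^ d) := by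
          rw [← ENNReal.ofReal_natCast]
          congr 1
          push_cast
          norm_num
        rw [h7, ← ENNReal.ofReal_mul (by positivity)]
        apply ENNReal.ofReal_le_ofReal
        apply le_of_eq
        ring

end Pool.Agent.LE.H9W
end
end -- Pool.Agent.Helper9_LSP.OscE
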