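import Pool.Agent.Helper12_MEB.B059
import Pool.Agent.Helper12_MEB.B065

/-!
# Merged copies (generated) of the modules

* `Pool.Agent.Helper81_LSH.FLE`
* `Pool.Agent.Helper65_LSH.LCP`
* `Pool.Agent.Helper28_LSH.LCS`
* `Pool.Agent.Helper42_LSH.CDP`
* `Pool.Agent.Helper42_LSH.UPX`
-/

set_option autoImplicit false

section -- Pool.Agent.Helper81_LSH.FLE

/-!
# FLE: flatness of the landscape function with the precision `ε`, and conduction
-/

set_option autoImplicit false
set_option linter.unusedSectionVars false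

open scoped Topology ENNReal NNReal
open MeasureTheory Filter ProbabilityTheory

noncomputable section

namespace Pool.Agent.LE.H81Z

open Pool.Agent.Anderson Pool.Agent.Loc Pool.Agent.Mob Pool.Agent.Helper54.Bal Pool.Agent.LY
  Pool.Agent.LE.H54 Pool.Agent.LE.H54W Pool.Agent.BED

/-- once more Gaussian concentration, with the precision `ε` -/
theorem flatE_of_stage {d M : ℕ} [NeZero M] {ε C B z μ m p : ℝ} {v : ℝ≥0}
    {F : (Tor d M → ℝ) → ℝ} {U : Set (Tor d M → ℝ)} (hε : 0 < ε) (hC : 1 ≤ C) (hp : 0 ≤ p)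
    (hS : Stage v C B z μ m p F U) :
    gau d M v {V | ¬ FlatE ε z μ V} ≤ ENNReal.ofReal (p + (M : ℝ) ^ d *
      (2 * Real.exp (-((ε * μ) ^ 2) / (5 * (m * (C + Real.sqrt B)) ^ 2 * v)))) := by
  have hμ := hS.μpos
  have hm := hS.mpos
  have hK : 0 < m * (C + Real.sqrt B) := by
    have := Real.sqrt_nonneg B
    exact mul_pos hm (by linarith)
  have hcont := continuous_of_lip hK.le hS.lip
  have hint : ∫ y, F y ∂(Measure.pi fun _ : Tor d M => gaussianReal 0 v) = μ := hS.int
  have hsub : {V : Tor d M → ℝ | ¬ FlatE ε z μ V} ⊆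
      Uᶜ ∪ ⋃ x, {V : Tor d M → ℝ | ε * μ ≤ |F (tr x V) - μ|} := by
    intro V hV
    by_contra hcon
    rw [Set.mem_union, not_or] at hcon
    obtain ⟨g1, g2⟩ := hcon
    rw [Set.mem_compl_iff, not_not] at g1
    apply hV
    refine ⟨(hS.flat V g1).1, (hS.flat V g1).2.1, fun x => ?_⟩
    rw [hS.eq V g1 x]
    by_contra h
    exact g2 (Set.mem_iUnion.2 ⟨x, (not_le.1 h).le⟩)
  refine (measure_mono hsub).trans ?_
  refine gau_union hp (by positivity) hS.meas fun x => ?_
  have h1 := H55.gc (Tor d M) v F _ hK hS.lip (ε * μ) (by positivity)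
  rw [hint] at h1
  have hmeas : MeasurableSet {V : Tor d M → ℝ | ε * μ ≤ |F V - μ|} :=
    measurableSet_le measurable_const ((hcont.measurable.sub_const _).abs)
  have h3 := (H61.cov d M z 0 x).2.2.2.2.2 v
  have h2 : gau d M v {V : Tor d M → ℝ | ε * μ ≤ |F (tr x V) - μ|} =
      gau d M v {V : Tor d M → ℝ | ε * μ ≤ |F V - μ|} :=
    h3.measure_preimage hmeas.nullMeasurableSet
  rw [h2]
  exact h1

theorem flatE (d : ℕ) (hd : 3 ≤ d) (ε : ℝ) (hε : 0 < ε) (hε1 : ε ≤ 1 / 50) :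
    ∃ c0 C0 : ℝ, 0 < c0 ∧ 0 < C0 ∧
      ∀ (M : ℕ) [NeZero M] (t : ℝ) (σ : ℝ≥0) (p : ℝ), 3 ≤ M → 1 ≤ t → t ≤ M → 0 < σ → σ ≤ 1 →
      p = C0 * (1 + Real.log t) * (M : ℝ) ^ d *
        Real.exp (-c0 / ((σ : ℝ) ^ 2 * growth d t)) →
      p ≤ 1 / 2 →
      ∃ z μ : ℝ, 10 * t ≤ μ ∧ μ ≤ 12 * t ∧ z ≤ 2 * d + 1 ∧
        |z - 2 * d| ≤ C0 * ((σ : ℝ) ^ 2 + 1 / t + Real.sqrt p) ∧
        gau d M (σ ^ 2) {V | ¬ FlatE ε z μ V} ≤ ENNReal.ofReal p := by
  obtain ⟨C, hC, hSumC⟩ := sumAll d hd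
  have hC0 : 0 < C := by linarith
  refine ⟨ε ^ 2 / (288000 * C ^ 2), 88 + 4 * C, by positivity, by positivity, ?_⟩
  intro M _ t σ p hM ht htM hσ hσ1 hp hp2
  have hgr := one_le_growth d ht
  have hlog := Real.log_nonneg ht
  have hσ' : (0 : ℝ) < σ := hσ
  have hMpos : (0 : ℝ) < M := by exact_mod_cast Nat.pos_of_ne_zero (NeZero.ne M)
  have hSum' : ∀ (z a : ℝ) (V : Tor d M → ℝ), z ≤ 2 * d + 1 → (∀ x, -1 ≤ V x) →
      (AM z V).PosDef → 1 / 2 ≤ a → a ≤ 15 * t → (∀ x, a ≤ DD z V x) →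
      (∀ x, DD z V x ≤ 3 / 2 * a) →
      ∀ x, ∑ y, (GM z V x y) ^ 2 ≤ C * growth d t ∧ GM z V x x ≤ C :=
    fun z a V h1 h2 h3 h4 h5 h6 h7 => hSumC M z t a V hM ht htM h1 h2 h3 h4 h5 h6 h7
  obtain ⟨v, hv⟩ : ∃ v : ℝ≥0, v = σ ^ 2 := ⟨_, rfl⟩
  have hvv : (v : ℝ) = (σ : ℝ) ^ 2 := by rw [hv]; push_cast; rfl
  obtain ⟨K, hK⟩ : ∃ K : ℕ, K = ⌈40 * (1 + Real.log t)⌉₊ := ⟨_, rfl⟩
  obtain ⟨q, hq⟩ : ∃ q : ℝ, q = (M : ℝ) ^ d * qq C (C * growth d t) v := ⟨_, rfl⟩
  have hq0 : 0 < q := by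
    have := qq_pos C (C * growth d t) v
    rw [hq]
    positivity
  have hsg : 0 < (σ : ℝ) ^ 2 * growth d t := by positivity
  obtain ⟨E, hE⟩ : ∃ E : ℝ, E = Real.exp (-(ε ^ 2 / (288000 * C ^ 2)) /
    ((σ : ℝ) ^ 2 * growth d t)) := ⟨_, rfl⟩
  have hE0 : 0 < E := by rw [hE]; exact Real.exp_pos _
  have hsq : (C + Real.sqrt (C * growth d t)) ^ 2 ≤ 4 * C ^ 2 * growth d t := by
    have h1 : Real.sqrt (C * growth d t) ≤ C * Real.sqrt (growth d t) := by
      rw [Real.sqrt_mul (by positivity)]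
      refine mul_le_mul_of_nonneg_right ?_ (Real.sqrt_nonneg _)
      rw [Real.sqrt_le_left (by positivity)]
      nlinarith only [hC]
    have h2 : C ≤ C * Real.sqrt (growth d t) := by
      have : 1 ≤ Real.sqrt (growth d t) := Real.one_le_sqrt.2 hgr
      nlinarith only [hε, hε1, hC, this]
    have h4 : C + Real.sqrt (C * growth d t) ≤ 2 * C * Real.sqrt (growth d t) := by linarith only [h1, h2]
    have h5 : 0 ≤ C + Real.sqrt (C * growth d t) := by positivity
    calc (C + Real.sqrt (C * growth d t)) ^ 2 ≤ (2 * C * Real.sqrt (growth d t)) ^ 2 :=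
          pow_le_pow_left₀ h5 h4 2
      _ = 4 * C ^ 2 * (Real.sqrt (growth d t)) ^ 2 := by ring
      _ = 4 * C ^ 2 * growth d t := by rw [Real.sq_sqrt (by linarith only [hε, hε1, hgr])]
  have hsqpos : 0 < (C + Real.sqrt (C * growth d t)) ^ 2 := by positivity
  have hε2 : ε ^ 2 ≤ 1 := by nlinarith only [hε, hε1]
  -- comparison of the probabilities
  have hqq : qq C (C * growth d t) v ≤ 2 * E := by
    unfold qq
    rw [hE]
    refine mul_le_mul_of_nonneg_left (Real.exp_le_exp.2 ?_) (by norm_num)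
    rw [hvv, neg_div, neg_div, neg_le_neg_iff, div_div]
    have h1 : ε ^ 2 / (288000 * C ^ 2 * ((σ : ℝ) ^ 2 * growth d t)) ≤
        1 / (288000 * C ^ 2 * ((σ : ℝ) ^ 2 * growth d t)) :=
      div_le_div_of_nonneg_right hε2 (by positivity)
    refine h1.trans (one_div_le_one_div_of_le (by positivity) ?_)
    calc 72000 * (C + Real.sqrt (C * growth d t)) ^ 2 * (σ : ℝ) ^ 2
        ≤ 72000 * (4 * C ^ 2 * growth d t) * (σ : ℝ) ^ 2 := by gcongr
      _ = 288000 * C ^ 2 * ((σ : ℝ) ^ 2 * growth d t) := by ring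
  have hKle : (K : ℝ) + 2 ≤ 43 * (1 + Real.log t) := by
    have := (Nat.ceil_lt_add_one (a := 40 * (1 + Real.log t)) (by positivity)).le
    rw [← hK] at this
    linarith only [hlog, this]
  have hM0 : 0 < (M : ℝ) ^ d := by positivity
  have hKq : ((K : ℝ) + 2) * q ≤ 86 * ((1 + Real.log t) * (M : ℝ) ^ d * E) := by
    have hq2 : q ≤ (M : ℝ) ^ d * (2 * E) := by
      rw [hq]
      exact mul_le_mul_of_nonneg_left hqq hM0.le
    calc ((K : ℝ) + 2) * q ≤ (43 * (1 + Real.log t)) * ((M : ℝ) ^ d * (2 * E)) :=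
          mul_le_mul hKle hq2 hq0.le (by positivity)
      _ = 86 * ((1 + Real.log t) * (M : ℝ) ^ d * E) := by ring
  have hME : (M : ℝ) ^ d * (2 * E) ≤ 2 * ((1 + Real.log t) * (M : ℝ) ^ d * E) := by
    have h1 : 0 ≤ Real.log t * ((M : ℝ) ^ d * E) := by positivity
    have h2 : 2 * ((1 + Real.log t) * (M : ℝ) ^ d * E) =
        (M : ℝ) ^ d * (2 * E) + 2 * (Real.log t * ((M : ℝ) ^ d * E)) := by ring
    linarith only [h1]
  have hpE : p = (88 + 4 * C) * ((1 + Real.log t) * (M : ℝ) ^ d * E) := by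
    rw [hp, hE]; ring
  have hnn : 0 ≤ (1 + Real.log t) * (M : ℝ) ^ d * E := by positivity
  have hpq : ((K : ℝ) + 2) * q + (M : ℝ) ^ d * (2 * E) ≤ p := by
    rw [hpE]
    have h1 : 0 ≤ 4 * C * ((1 + Real.log t) * (M : ℝ) ^ d * E) := by positivity
    have h2 : (88 + 4 * C) * ((1 + Real.log t) * (M : ℝ) ^ d * E) =
        88 * ((1 + Real.log t) * (M : ℝ) ^ d * E) +
          4 * C * ((1 + Real.log t) * (M : ℝ) ^ d * E) := by ring
    linarith only [hKq, hME, h1]
  have hpq' : ((K : ℝ) + 2) * q ≤ p := by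
    have : 0 ≤ (M : ℝ) ^ d * (2 * E) := by positivity
    linarith only [hpq, this]
  obtain ⟨z, μ, m, F, U, hS, halt⟩ := induct H55.gc H61.mcs H61.cov H73.stepD hC
    (by linarith only [hε, hε1, hgr]) ht hSum' (v := v) K (by rw [← hq]; linarith only [hε, hε1, hp2, hpq'])
  rw [← hq] at hS
  have hμ : 10 * t ≤ μ ∧ μ ≤ 12 * t := by
    rcases halt with h | ⟨h1, h2⟩
    · exact h
    · exfalso
      have := ten_le_pow ht
      rw [← hK] at this
      linarith only [h1, h2, this]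
  have hp'0 : 0 < ((K : ℝ) + 2) * q := by positivity
  have hμ0 := hS.μpos
  have hm0 := hS.mpos
  have hprob := flatE_of_stage hε hC hp'0.le hS
  rw [hv] at hS
  have hest := est H61.cov hC σ hσ hσ1 hS hp'0 (by linarith only [hp2, hpq'])
  refine ⟨z, μ, hμ.1, hμ.2, hS.zle, ?_, ?_⟩
  · refine hest.trans ?_
    have h1 : 1 / μ ≤ 1 / t := one_div_le_one_div_of_le (by linarith only [hε, hε1, ht]) (by linarith only [hμ.1, hε, hε1, ht])
    have h2 : Real.sqrt (((K : ℝ) + 2) * q) ≤ Real.sqrt p := Real.sqrt_le_sqrt hpq'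
    have h3 : 0 ≤ 1 / t := by positivity
    have h4 := Real.sqrt_nonneg p
    have h5 : 0 ≤ (σ : ℝ) ^ 2 := by positivity
    have h6 : 0 ≤ C * (1 / t) := by positivity
    have h7 : 0 ≤ C * Real.sqrt p := by positivity
    have h8 : (88 + 4 * C) * ((σ : ℝ) ^ 2 + 1 / t + Real.sqrt p) =
        88 * (σ : ℝ) ^ 2 + 4 * (C * (σ : ℝ) ^ 2) + 88 * (1 / t) + 4 * (C * (1 / t)) +
          88 * Real.sqrt p + 4 * (C * Real.sqrt p) := by ring
    rw [h8]
    linarith only [hv, h1, h2, h3, h4, h6, h7]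
  · rw [hv] at hprob
    refine hprob.trans (ENNReal.ofReal_le_ofReal (le_trans ?_ hpq))
    have hexp : Real.exp (-((ε * μ) ^ 2) /
        (5 * (m * (C + Real.sqrt (C * growth d t))) ^ 2 * ((σ ^ 2 : ℝ≥0) : ℝ))) ≤ E := by
      rw [hE]
      refine Real.exp_le_exp.2 ?_
      rw [← hv, hvv, neg_div, neg_div, neg_le_neg_iff, div_div]
      have hmμ : m ^ 2 ≤ 1.21 * μ ^ 2 := by
        have h1 := hS.mle
        calc m ^ 2 ≤ (1.1 * μ) ^ 2 := pow_le_pow_left₀ hm0.le h1 2
          _ = 1.21 * μ ^ 2 := by ring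
      rw [div_le_div_iff₀ (by positivity) (by positivity)]
      have h1 : 5 * (m * (C + Real.sqrt (C * growth d t))) ^ 2 * (σ : ℝ) ^ 2 ≤
          μ ^ 2 * (288000 * C ^ 2 * ((σ : ℝ) ^ 2 * growth d t)) := by
        calc 5 * (m * (C + Real.sqrt (C * growth d t))) ^ 2 * (σ : ℝ) ^ 2
            = 5 * (m ^ 2 * (C + Real.sqrt (C * growth d t)) ^ 2) * (σ : ℝ) ^ 2 := by ring
          _ ≤ 5 * ((1.21 * μ ^ 2) * (4 * C ^ 2 * growth d t)) * (σ : ℝ) ^ 2 := by gcongr
          _ = 24.2 * (μ ^ 2 * (C ^ 2 * ((σ : ℝ) ^ 2 * growth d t))) := by ring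
          _ ≤ 288000 * (μ ^ 2 * (C ^ 2 * ((σ : ℝ) ^ 2 * growth d t))) :=
              mul_le_mul_of_nonneg_right (by norm_num) (by positivity)
          _ = μ ^ 2 * (288000 * C ^ 2 * ((σ : ℝ) ^ 2 * growth d t)) := by ring
      calc ε ^ 2 * (5 * (m * (C + Real.sqrt (C * growth d t))) ^ 2 * (σ : ℝ) ^ 2)
          ≤ ε ^ 2 * (μ ^ 2 * (288000 * C ^ 2 * ((σ : ℝ) ^ 2 * growth d t))) :=
            mul_le_mul_of_nonneg_left h1 (by positivity)
        _ = (ε * μ) ^ 2 * (288000 * C ^ 2 * ((σ : ℝ) ^ 2 * growth d t)) := by ring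
    have h2 : (M : ℝ) ^ d * (2 * Real.exp (-((ε * μ) ^ 2) /
        (5 * (m * (C + Real.sqrt (C * growth d t))) ^ 2 * ((σ ^ 2 : ℝ≥0) : ℝ)))) ≤
        (M : ℝ) ^ d * (2 * E) := by
      refine mul_le_mul_of_nonneg_left ?_ hM0.le
      linarith only [hexp]
    linarith only [h2]

theorem fle (cdf : CdfStmt) : FleStmt := by
  classical
  intro d ε hd hε hε1
  obtain ⟨c0, C0, hc0, hC0, hflat⟩ := flatE d hd ε hε hε1
  obtain ⟨Cs, hCs, hsum⟩ := sumAll d hd
  refine ⟨c0, C0, 16 * Cs, hc0, hC0, by linarith only [hε, hε1, hCs], ?_⟩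
  intro M' v σ t p hσ hσ1 hv hM' ht htM hp hp2
  have hs : 0 < |σ| := abs_pos.2 hσ
  have : NeZero M' := ⟨by omega⟩
  obtain ⟨σ', hσ'⟩ : ∃ σ' : ℝ≥0, σ' = ⟨|σ|, hs.le⟩ := ⟨_, rfl⟩
  have hσ'r : (σ' : ℝ) = |σ| := by rw [hσ']; rfl
  have hσ'0 : 0 < σ' := by
    rw [← NNReal.coe_pos, hσ'r]
    exact hs
  have hσ'1 : σ' ≤ 1 := by
    rw [← NNReal.coe_le_coe, hσ'r]
    simpa using hσ1
  have hvv : v = σ' ^ 2 := by
    apply NNReal.coe_injective
    push_cast
    rw [hσ'r, sq_abs]
    exact hv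
  obtain ⟨z, μ, hμ1, hμ2, hz, hz2, hprob⟩ := hflat M' t σ' p hM' ht htM hσ'0 hσ'1
    (by rw [hσ'r, sq_abs]; exact hp) hp2
  rw [hσ'r, sq_abs] at hz2
  rw [← hvv] at hprob
  have hμ0 : 0 < μ := by linarith only [hε, hε1, ht, hμ1]
  have hprob' : gau d M' v {V | ¬ Flat z μ V} ≤ ENNReal.ofReal p := by
    refine le_trans (measure_mono ?_) hprob
    intro V hV hF
    apply hV
    refine ⟨hF.1, hF.2.1, fun x => (hF.2.2 x).trans ?_⟩
    have : ε * μ ≤ 1 / 50 * μ := mul_le_mul_of_nonneg_right hε1 hμ0.le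
    linarith only [this]
  refine ⟨z, μ, hz2, hz, by linarith only [hε, hε1, ht, hμ1], fun _ => hprob, ?_⟩
  intro s M N E lam c hE h1 h2 h3 hlog hbox
  exact cpf_core cdf hd hCs hsum hσ hM' ht htM hv hμ1 hμ2 hz
    hprob' s M N E lam c hE h1 h2 h3 hlog hbox

end Pool.Agent.LE.H81Z
end
end -- Pool.Agent.Helper81_LSH.FLE

section -- Pool.Agent.Helper65_LSH.LCP

/-!
MP_1906c1_mp, table lsh, row LCP: the value at the centre and the mean.
-/

set_option autoImplicit false

noncomputable section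

namespace Pool.Agent.LE.H65Z

open Pool.Agent.Anderson Pool.Agent.Loc Pool.Agent.LE

theorem cardb {d : ℕ} (p : Site d) (s : ℕ) :
    ((Pool.Agent.Loc.box p s).card : ℝ) = (2 * (s : ℝ) + 1) ^ d := by
  unfold Pool.Agent.Loc.box
  rw [Pi.card_Icc]
  simp only [Int.card_Icc]
  rw [Finset.prod_congr rfl (fun i _ => show (p i + (s : ℤ) + 1 - (p i - (s : ℤ))).toNat = 2 * s + 1 by
    omega), Finset.prod_const, Finset.card_univ, Fintype.card_fin]
  push_cast
  ring

theorem mem_bx {d : ℕ} (p x : Site d) (s : ℕ) :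
    x ∈ Pool.Agent.Loc.box p s ↔ ∀ i, p i - s ≤ x i ∧ x i ≤ p i + s := by
  unfold Pool.Agent.Loc.box
  rw [Finset.mem_Icc, Pi.le_def, Pi.le_def]
  exact ⟨fun h i => ⟨h.1 i, h.2 i⟩, fun h => ⟨fun i => (h i).1, fun i => (h i).2⟩⟩

theorem bx_mono {d : ℕ} (p : Site d) {r s : ℕ} (h : r ≤ s) :
    Pool.Agent.Loc.box p r ⊆ Pool.Agent.Loc.box p s := by
  intro x hx
  rw [mem_bx] at hx ⊢
  intro i
  have h1 := hx i
  have h2 : (r : ℤ) ≤ s := by exact_mod_cast h
  exact ⟨by linarith [h1.1], by linarith only [h1.2, h]⟩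

theorem ls_mono {d : ℕ} {ω h : Site d → ℝ} {ε k : ℝ} {p : Site d} {r s : ℕ} (hrs : r ≤ s)
    (hL : LS ω h ε k p s) : LS ω h ε k p r :=
  ⟨fun x hx => hL.1 x (bx_mono p (by omega) hx), fun x hx => hL.2 x (bx_mono p hrs hx)⟩

theorem av_zero {d : ℕ} (h : Site d → ℝ) (p : Site d) : av h p 0 = h p := by
  unfold av
  have h1 : Pool.Agent.Loc.box p 0 = {p} := by
    ext x
    rw [mem_bx, Finset.mem_singleton]
    constructor
    · intro hx
      funext i
      have := hx i
      simp at this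
      omega
    · rintro rfl i
      simp
  rw [h1, Finset.sum_singleton]
  simp

theorem lcp (lci : LciStmt) (pcr : PcrStmt) : LcpStmt := by
  intro d hd
  obtain ⟨K, hK⟩ : ∃ K : ℝ, K = 90 * (d : ℝ) ^ 2 * 6 ^ d := ⟨_, rfl⟩
  have hd1 : (1 : ℝ) ≤ d := by exact_mod_cast hd
  have hK1 : 1 ≤ K := by
    rw [hK]
    have h1 : (1 : ℝ) ≤ (d : ℝ) ^ 2 := one_le_pow₀ hd1
    have h2 : (1 : ℝ) ≤ 6 ^ d := one_le_pow₀ (by norm_num)
    nlinarith only [h1, h2]
  obtain ⟨C, hC⟩ : ∃ C : ℝ, C = Real.sqrt K := ⟨_, rfl⟩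
  have hC1 : 1 ≤ C := by rw [hC]; exact Real.one_le_sqrt.2 hK1
  have hCK : C ^ 2 = K := by rw [hC]; exact Real.sq_sqrt (by linarith)
  refine ⟨2 * C, by linarith, ?_⟩
  intro ω h ε k p s hε hε1 hk hs hL
  have hsk := Real.sqrt_nonneg k
  have hsk2 : Real.sqrt k ^ 2 = k := Real.sq_sqrt hk
  -- one step
  have step : ∀ r r' : ℕ, 1 ≤ r → r ≤ s → 2 * r' ≤ r → r ≤ 2 * r' + 1 →
      |av h p r' - av h p r| ≤ C * (1 + Real.sqrt k * r) := by
    intro r r' hr hrs h1 h2
    have hr0 : (1 : ℝ) ≤ r := by exact_mod_cast hr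
    have hLr : LS ω h ε k p (2 * r) := ls_mono (by omega) hL
    have e1 := lci d ω h ε k p r hd hε hε1 hk hr hLr
    have e2 := pcr d h p r hd
    obtain ⟨m, hm⟩ : ∃ m, m = av h p r := ⟨_, rfl⟩
    rw [← hm] at e2 ⊢
    obtain ⟨N, hN⟩ : ∃ N : ℝ, N = (2 * (r' : ℝ) + 1) ^ d := ⟨_, rfl⟩
    have hN1 : 1 ≤ N := by
      rw [hN]
      exact one_le_pow₀ (by have : (0 : ℝ) ≤ r' := Nat.cast_nonneg _; linarith only)
    have hN0 : 0 < N := by linarith only [hN1]
    have hcard : ((Pool.Agent.Loc.box p r').card : ℝ) = N := by rw [cardb, hN]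
    have e3 : av h p r' - m = (∑ x ∈ Pool.Agent.Loc.box p r', (h x - m)) / N := by
      unfold av
      rw [Finset.sum_sub_distrib, Finset.sum_const, nsmul_eq_mul, hcard, ← hN]
      field_simp
    have e4 : (∑ x ∈ Pool.Agent.Loc.box p r', (h x - m)) ^ 2 ≤
        N * ∑ x ∈ Pool.Agent.Loc.box p r', (h x - m) ^ 2 := by
      have := sq_sum_le_card_mul_sum_sq (s := Pool.Agent.Loc.box p r') (f := fun x => h x - m)
      rw [hcard] at this
      exact this
    have e5 : ∑ x ∈ Pool.Agent.Loc.box p r', (h x - m) ^ 2 ≤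
        ∑ x ∈ Pool.Agent.Loc.box p r, (h x - m) ^ 2 :=
      Finset.sum_le_sum_of_subset_of_nonneg (bx_mono p (by omega)) fun x _ _ => sq_nonneg _
    have e6 : (av h p r' - m) ^ 2 * N ≤ ∑ x ∈ Pool.Agent.Loc.box p r, (h x - m) ^ 2 := by
      rw [e3, div_pow, div_mul_eq_mul_div, div_le_iff₀ (by positivity)]
      calc (∑ x ∈ Pool.Agent.Loc.box p r', (h x - m)) ^ 2 * N
          ≤ (N * ∑ x ∈ Pool.Agent.Loc.box p r', (h x - m) ^ 2) * N :=
            mul_le_mul_of_nonneg_right e4 hN0.le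
        _ ≤ (N * ∑ x ∈ Pool.Agent.Loc.box p r, (h x - m) ^ 2) * N :=
            mul_le_mul_of_nonneg_right (mul_le_mul_of_nonneg_left e5 hN0.le) hN0.le
        _ = (∑ x ∈ Pool.Agent.Loc.box p r, (h x - m) ^ 2) * N ^ 2 := by ring
    have e7 : (2 * (r : ℝ) + 1) ^ d ≤ 3 ^ d * N := by
      rw [hN, ← mul_pow]
      refine pow_le_pow_left₀ (by positivity) ?_ d
      have : (r : ℝ) ≤ 2 * r' + 1 := by exact_mod_cast h2
      have h0 : (0 : ℝ) ≤ r' := Nat.cast_nonneg _
      linarith only [this]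
    have e8 : (2 * (r : ℝ) + 1) ^ 2 * (1 / (r : ℝ) ^ 2 + k) ≤ 9 * (1 + k * r ^ 2) := by
      have h3 : (2 * (r : ℝ) + 1) ^ 2 ≤ 9 * r ^ 2 := by nlinarith only [hr0]
      have h4 : 0 ≤ 1 / (r : ℝ) ^ 2 + k := by positivity
      calc (2 * (r : ℝ) + 1) ^ 2 * (1 / (r : ℝ) ^ 2 + k) ≤ 9 * r ^ 2 * (1 / (r : ℝ) ^ 2 + k) :=
            mul_le_mul_of_nonneg_right h3 h4
        _ = 9 * (1 + k * r ^ 2) := by
            have : (r : ℝ) ≠ 0 := by positivity
            field_simp
    have e9 : (av h p r' - m) ^ 2 * N ≤ K * (1 + k * r ^ 2) * N := by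
      calc (av h p r' - m) ^ 2 * N ≤ d * (2 * (r : ℝ) + 1) ^ 2 * eg h p r := e6.trans e2
        _ ≤ d * (2 * (r : ℝ) + 1) ^ 2 *
            (10 * d * 2 ^ d * (1 / (r : ℝ) ^ 2 + k) * (2 * (r : ℝ) + 1) ^ d) :=
            mul_le_mul_of_nonneg_left e1 (by positivity)
        _ = 10 * d ^ 2 * 2 ^ d * ((2 * (r : ℝ) + 1) ^ 2 * (1 / (r : ℝ) ^ 2 + k)) *
            (2 * (r : ℝ) + 1) ^ d := by ring
        _ ≤ 10 * d ^ 2 * 2 ^ d * (9 * (1 + k * r ^ 2)) * (3 ^ d * N) := by
            refine mul_le_mul (mul_le_mul_of_nonneg_left e8 (by positivity)) e7 (by positivity)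
              (by positivity)
        _ = K * (1 + k * r ^ 2) * N := by
            have h6 : (6 : ℝ) ^ d = 2 ^ d * 3 ^ d := by rw [← mul_pow]; norm_num
            rw [hK, h6]
            ring
    have e10 : (av h p r' - m) ^ 2 ≤ K * (1 + k * r ^ 2) := le_of_mul_le_mul_right e9 hN0
    refine abs_le_of_sq_le_sq ?_ (by positivity)
    calc (av h p r' - m) ^ 2 ≤ K * (1 + k * r ^ 2) := e10
      _ ≤ (C * (1 + Real.sqrt k * r)) ^ 2 := by
        rw [mul_pow, hCK]
        refine mul_le_mul_of_nonneg_left ?_ (by linarith only [hK1])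
        have : (Real.sqrt k * r) ^ 2 = k * r ^ 2 := by rw [mul_pow, hsk2]
        have h0 : 0 ≤ Real.sqrt k * r := by positivity
        nlinarith only [this, h0]
  -- induction
  have main : ∀ r : ℕ, 1 ≤ r → r ≤ s →
      |h p - av h p r| ≤ C * (1 + 2 * Real.log r + 2 * (Real.sqrt k * r)) := by
    intro r
    induction r using Nat.strong_induction_on with
    | _ r ih =>
      intro hr hrs
      have hst := step r (r / 2) hr hrs (by omega) (by omega)
      have hr0 : (1 : ℝ) ≤ r := by exact_mod_cast hr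
      have hr2 : (((r / 2 : ℕ) : ℝ)) ≤ r / 2 := Nat.cast_div_le
      rcases Nat.eq_zero_or_pos (r / 2) with h0 | h0
      · rw [h0, av_zero] at hst
        refine hst.trans (mul_le_mul_of_nonneg_left ?_ (by linarith only [hC1]))
        have h1 : 0 ≤ Real.log r := Real.log_nonneg hr0
        have h2 : 0 ≤ Real.sqrt k * r := by positivity
        linarith only [h1, h2]
      · have h1 := ih (r / 2) (by omega) h0 (by omega)
        have h2 : |h p - av h p r| ≤ |h p - av h p (r / 2)| + |av h p (r / 2) - av h p r| := by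
          have := abs_add_le (h p - av h p (r / 2)) (av h p (r / 2) - av h p r)
          rwa [sub_add_sub_cancel] at this
        have h3 : Real.log ((r / 2 : ℕ) : ℝ) ≤ Real.log r - Real.log 2 := by
          rw [← Real.log_div (by positivity) (by norm_num)]
          exact Real.log_le_log (by exact_mod_cast h0) hr2
        have h4 := Real.log_two_gt_d9
        have h5 : Real.sqrt k * ((r / 2 : ℕ) : ℝ) ≤ Real.sqrt k * r / 2 := by
          rw [mul_div_assoc]
          exact mul_le_mul_of_nonneg_left hr2 hsk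
        calc |h p - av h p r| ≤ C * (1 + 2 * Real.log ((r / 2 : ℕ) : ℝ) +
              2 * (Real.sqrt k * ((r / 2 : ℕ) : ℝ))) + C * (1 + Real.sqrt k * r) := by linarith only [hst, h1, h2]
          _ = C * (1 + 2 * Real.log ((r / 2 : ℕ) : ℝ) +
              2 * (Real.sqrt k * ((r / 2 : ℕ) : ℝ)) + (1 + Real.sqrt k * r)) := by ring
          _ ≤ C * (1 + 2 * Real.log r + 2 * (Real.sqrt k * r)) := by
            refine mul_le_mul_of_nonneg_left ?_ (by linarith only [hC1])
            linarith only [h3, h4, h5]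
  refine (main s hs le_rfl).trans ?_
  have hs0 : (1 : ℝ) ≤ s := by exact_mod_cast hs
  have h1 : 0 ≤ Real.log s := Real.log_nonneg hs0
  have h2 : 0 ≤ Real.sqrt k * s := by positivity
  nlinarith only [hC1]

end Pool.Agent.LE.H65Z
end
end -- Pool.Agent.Helper65_LSH.LCP

section -- Pool.Agent.Helper28_LSH.LCS

/-!
MP_1906c1_mp, table lsh, row LCS: decay at most at the rate `√k`.
-/

set_option autoImplicit false

noncomputable section

namespace Pool.Agent.LE.H28Z

open Pool.Agent.Anderson Pool.Agent.Loc Pool.Agent.LE Pool.Agent.LE.H65Z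

/-- the cube condition for a cube inside -/
theorem ls_sub {d : ℕ} {ω h : Site d → ℝ} {ε k : ℝ} {b p : Site d} {r R : ℕ}
    (hsub : Pool.Agent.Loc.box p r ⊆ Pool.Agent.Loc.box b R)
    (hsub1 : Pool.Agent.Loc.box p (r + 1) ⊆ Pool.Agent.Loc.box b (R + 1))
    (hL : LS ω h ε k b R) : LS ω h ε k p r :=
  ⟨fun x hx => hL.1 x (hsub1 hx), fun x hx => hL.2 x (hsub hx)⟩

theorem bx_shift {d : ℕ} (b : Site d) (i : Fin d) (j r R : ℕ) (h : j + r ≤ R) :
    Pool.Agent.Loc.box (b + Pi.single i (j : ℤ)) r ⊆ Pool.Agent.Loc.box b R := by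
  intro x hx
  rw [mem_bx] at hx ⊢
  intro l
  have h1 := hx l
  have h2 : ((j : ℤ) + r) ≤ R := by exact_mod_cast h
  have hj : (0 : ℤ) ≤ j := Int.natCast_nonneg j
  have h3 : 0 ≤ (Pi.single i (j : ℤ) : Site d) l ∧ (Pi.single i (j : ℤ) : Site d) l ≤ j := by
    by_cases hl : l = i
    · subst hl; simp
    · simp [Pi.single_eq_of_ne hl]
  rw [Pi.add_apply] at h1
  exact ⟨by linarith only [h1.1, h3.1, h], by linarith only [h1.2, h3.2, h]⟩

/-- the mean over the shifted cube -/
theorem av_shift {d : ℕ} (h : Site d → ℝ) (p e : Site d) (s : ℕ) :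
    av h (p + e) s = (∑ x ∈ Pool.Agent.Loc.box p s, h (x + e)) / (2 * (s : ℝ) + 1) ^ d := by
  unfold av
  congr 1
  refine (Finset.sum_bij (fun x _ => x + e) ?_ ?_ ?_ ?_).symm
  · intro x hx
    rw [mem_bx] at hx ⊢
    intro l
    have := hx l
    rw [Pi.add_apply, Pi.add_apply]
    exact ⟨by linarith [this.1], by linarith [this.2]⟩
  · intro x _ y _ hxy
    exact add_right_cancel hxy
  · intro y hy
    refine ⟨y - e, ?_, sub_add_cancel y e⟩
    rw [mem_bx] at hy ⊢
    intro l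
    have := hy l
    rw [Pi.add_apply] at this
    rw [Pi.sub_apply]
    exact ⟨by linarith [this.1], by linarith [this.2]⟩
  · intro x _; rfl

theorem final_step {a b c d Y Z : ℝ} (h1 : |a - b| ≤ Z) (h2 : |b - c| ≤ Y) (h3 : |d - c| ≤ Z) :
    |a - d| ≤ Y + 2 * Z := by
  rw [abs_le] at h1 h2 h3 ⊢
  constructor <;> linarith [h1.1, h1.2, h2.1, h2.2, h3.1, h3.2]

/-- **Row LCS.** -/
theorem lcs (slc : SlcStmt) (lcp : LcpStmt) : LcsStmt := by
  intro d hd
  obtain ⟨C, hC1, hC⟩ := slc d hd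
  obtain ⟨C', hC'1, hC'⟩ := lcp d hd
  refine ⟨C, hC1, ?_⟩
  intro ε hε hε1
  have hε2 : 0 < ε ^ 2 := by positivity
  have hinv : 1 ≤ 1 / ε ^ 2 := by
    rw [le_div_iff₀ hε2]; nlinarith only [hε, hε1]
  refine ⟨2 * C' * (1 + 4 / ε ^ 2), ?_, ?_⟩
  · have h1 : 0 ≤ 4 / ε ^ 2 := by positivity
    nlinarith only [hC'1, hε, hε1, h1]
  intro ω h k b n R i hk hk1 hR hL
  set q := Real.sqrt k with hq
  have hq0 : 0 < q := Real.sqrt_pos.mpr hk
  have hq1 : q ≤ 1 := by rw [hq]; exact Real.sqrt_le_one.mpr hk1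
  have hqk : q ^ 2 = k := Real.sq_sqrt hk.le
  obtain ⟨s, hs⟩ : ∃ s : ℕ, s = ⌈1 / (ε ^ 2 * q)⌉₊ := ⟨_, rfl⟩
  have hA : 1 ≤ 1 / (ε ^ 2 * q) := by
    rw [le_div_iff₀ (by positivity)]
    nlinarith only [hε, hε1, hq1]
  have hs1 : 1 / (ε ^ 2 * q) ≤ s := by rw [hs]; exact Nat.le_ceil _
  have hs2 : (s : ℝ) ≤ 2 / (ε ^ 2 * q) := by
    have h1 : (s : ℝ) < 1 / (ε ^ 2 * q) + 1 := by
      rw [hs]; exact Nat.ceil_lt_add_one (by positivity)
    have h2 : 2 / (ε ^ 2 * q) = 1 / (ε ^ 2 * q) + 1 / (ε ^ 2 * q) := by ring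
    linarith only [hA, h1, h2]
  have hs0 : (1 : ℝ) ≤ s := hA.trans hs1
  have hsN : 1 ≤ s := by exact_mod_cast hs0
  have h4s : 4 * s ≤ R := by
    have h1 : (4 * s : ℝ) ≤ R := by
      refine le_trans ?_ hR
      have h2 : 4 * (s : ℝ) ≤ 4 * (2 / (ε ^ 2 * q)) := by linarith only [hs2]
      refine h2.trans ?_
      rw [le_div_iff₀ hq0]
      have h3 : 4 * (2 / (ε ^ 2 * q)) * q = 8 / ε ^ 2 := by field_simp; ring
      rw [h3]
      have h4 : 0 < 4 / ε ^ 2 := by positivity
      have h5 : 8 / ε ^ 2 = 2 * (4 / ε ^ 2) := by ring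
      rw [h5]
      nlinarith only [hC'1, hε, hε1, h4]
    exact_mod_cast h1
  have hεs : 1 / ε ^ 2 ≤ q * s := by
    have h1 : 1 / ε ^ 2 = q * (1 / (ε ^ 2 * q)) := by field_simp
    rw [h1]
    exact mul_le_mul_of_nonneg_left hs1 hq0.le
  have hLp : ∀ j : ℕ, j ≤ n → LS ω h ε k (b + Pi.single i (j : ℤ)) (4 * s) := by
    intro j hj
    exact ls_sub (bx_shift b i j _ _ (by omega)) (bx_shift b i j _ _ (by omega)) hL
  have hCε : 0 ≤ C * ε := by nlinarith only [hC1, hε]
  -- one step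
  have step : ∀ j : ℕ, j < n →
      |av h (b + Pi.single i ((j + 1 : ℕ) : ℤ)) s - av h (b + Pi.single i (j : ℤ)) s| ≤
        (1 + C * ε) * q := by
    intro j hj
    set p := b + Pi.single i (j : ℤ) with hp
    have hp1 : b + Pi.single i ((j + 1 : ℕ) : ℤ) = p + Pi.single i 1 := by
      rw [hp, add_assoc, ← Pi.single_add]
      push_cast
      rfl
    rw [hp1, av_shift]
    unfold av
    rw [← sub_div, ← Finset.sum_sub_distrib]
    set N : ℝ := (2 * (s : ℝ) + 1) ^ d with hN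
    have hN0 : 0 < N := by positivity
    have e1 := hC ω h ε k p s i hε hε1 hk hk1 hεs (hLp j hj.le)
    have e2 := sq_sum_le_card_mul_sum_sq (s := Pool.Agent.Loc.box p s)
      (f := fun x => h (x + Pi.single i 1) - h x)
    rw [cardb, ← hN] at e2
    have e3 : (∑ x ∈ Pool.Agent.Loc.box p s, (h (x + Pi.single i 1) - h x)) ^ 2 ≤
        ((1 + C * ε) * q * N) ^ 2 := by
      refine e2.trans ?_
      calc N * ∑ x ∈ Pool.Agent.Loc.box p s, (h (x + Pi.single i 1) - h x) ^ 2
          ≤ N * ((1 + C * ε) * k * N) := mul_le_mul_of_nonneg_left e1 hN0.le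
        _ = (1 + C * ε) * k * N ^ 2 := by ring
        _ ≤ (1 + C * ε) ^ 2 * k * N ^ 2 := by
            have h1 : 1 + C * ε ≤ (1 + C * ε) ^ 2 := by nlinarith only [hC1, hε, hε1, hε2, hCε]
            exact mul_le_mul_of_nonneg_right (mul_le_mul_of_nonneg_right h1 hk.le) (by positivity)
        _ = ((1 + C * ε) * q * N) ^ 2 := by rw [mul_pow, mul_pow, hqk]
    have e4 := abs_le_of_sq_le_sq e3 (by positivity)
    have e5 : |∑ x ∈ Pool.Agent.Loc.box p s, (h (x + Pi.single i 1) - h x)| ≤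
        (1 + C * ε) * q * N := e4
    rw [abs_div, abs_of_pos hN0, div_le_iff₀ hN0]
    exact e5
  have hsum : ∀ j : ℕ, j ≤ n →
      |av h (b + Pi.single i (j : ℤ)) s - av h b s| ≤ (1 + C * ε) * q * j := by
    intro j
    induction j with
    | zero => intro _; simp
    | succ j ih =>
      intro hj
      have h1 := ih (by omega)
      have h2 := step j (by omega)
      have h3 : av h (b + Pi.single i ((j + 1 : ℕ) : ℤ)) s - av h b s =
          (av h (b + Pi.single i ((j + 1 : ℕ) : ℤ)) s - av h (b + Pi.single i (j : ℤ)) s) +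
          (av h (b + Pi.single i (j : ℤ)) s - av h b s) := by ring
      rw [h3]
      refine (abs_add_le _ _).trans ?_
      push_cast at h1 h2 ⊢
      linarith only [h1, h2]
  -- the two ends
  have hend : ∀ p : Site d, LS ω h ε k p (4 * s) → |h p - av h p s| ≤
      C' * (1 + 4 / ε ^ 2) * (1 + Real.log (1 / k)) := by
    intro p hLp'
    have h1 := hC' ω h ε k p s hε.le hε1 hk.le hsN hLp'
    refine h1.trans ?_
    rw [mul_assoc]
    refine mul_le_mul_of_nonneg_left ?_ (by linarith only [hC'1, hε, hε1])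
    have h2 : Real.log s ≤ 2 / ε ^ 2 + Real.log (1 / k) / 2 := by
      have h3 : Real.log s ≤ Real.log (2 / (ε ^ 2 * q)) := Real.log_le_log (by linarith only [hε, hε1, hA, hs1]) hs2
      have h4 : (2 : ℝ) / (ε ^ 2 * q) = (2 / ε ^ 2) * (1 / q) := by field_simp
      have h5 : Real.log (2 / (ε ^ 2 * q)) = Real.log (2 / ε ^ 2) + Real.log (1 / q) := by
        rw [h4, Real.log_mul (by positivity) (by positivity)]
      have h6 : Real.log (2 / ε ^ 2) ≤ 2 / ε ^ 2 := by
        have := Real.log_le_sub_one_of_pos (show 0 < 2 / ε ^ 2 by positivity)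
        linarith only [hε, hε1, this]
      have h7 : Real.log (1 / q) = Real.log (1 / k) / 2 := by
        rw [← hqk, one_div, one_div, Real.log_inv, Real.log_inv, Real.log_pow]
        push_cast
        ring
      rw [h5, h7] at h3
      linarith only [h3, h6]
    have h8 : q * s ≤ 2 / ε ^ 2 := by
      have h9 : q * (s : ℝ) ≤ q * (2 / (ε ^ 2 * q)) := mul_le_mul_of_nonneg_left hs2 hq0.le
      have h10 : q * (2 / (ε ^ 2 * q)) = 2 / ε ^ 2 := by field_simp
      linarith only [h9, h10]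
    have h11 : 0 ≤ Real.log (1 / k) := by
      apply Real.log_nonneg
      rw [le_div_iff₀ hk]; linarith only [hk1]
    have h12 : 0 < 4 / ε ^ 2 := by positivity
    have h13 : 4 / ε ^ 2 = 2 / ε ^ 2 + 2 / ε ^ 2 := by ring
    have h14 : 0 ≤ 4 / ε ^ 2 * Real.log (1 / k) := by positivity
    nlinarith only [h2, h8, h11, h13, h14]
  have hL0 := hLp 0 (Nat.zero_le _)
  have e0 : b + Pi.single i ((0 : ℕ) : ℤ) = b := by simp
  rw [e0] at hL0
  have h0 := hend _ hL0
  have hn := hend _ (hLp n le_rfl)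
  have hs3 := hsum n le_rfl
  have e2 := final_step hn hs3 h0
  refine e2.trans (le_of_eq ?_)
  ring

end Pool.Agent.LE.H28Z
end
end -- Pool.Agent.Helper28_LSH.LCS

section -- Pool.Agent.Helper42_LSH.CDP

/-!
# CDP: conduction in a large cube, with probability
-/

set_option autoImplicit false
set_option linter.unusedSectionVars false

open scoped Topology ENNReal NNReal BigOperators
open MeasureTheory Filter ProbabilityTheory

noncomputable section

namespace Pool.Agent.LE.H42Z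

open Matrix Pool.Agent.Anderson Pool.Agent.Loc Pool.Agent.Mob Pool.Agent.Helper54.Bal
  Pool.Agent.BED Pool.Agent.LE

variable {d : ℕ}

/-- geometric resolvent identity, both sites in the smaller set -/
theorem geo0 {V : Site d → ℝ} {Λ A : Finset (Site d)} {E : ℝ} (hA : A ⊆ Λ)
    (h : (RM V Λ E).det ≠ 0) (hA' : (RM V A E).det ≠ 0) {x y : Site d} (hx : x ∈ A)
    (hy : y ∈ A) :
    gr V Λ E x y = gr V A E x y +
      ∑ u ∈ A, ∑ u' ∈ Λ \ A, gr V A E x u * hop u u' * gr V Λ E u' y := by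
  have e1 : ∀ u ∈ A, ∑ z ∈ A, rm V E u z * gr V Λ E z y =
      (if u = y then 1 else 0) + ∑ u' ∈ Λ \ A, hop u u' * gr V Λ E u' y := by
    intro u hu
    have h1 := rm_mul_gr h (hA hu) (hA hy)
    rw [← Finset.sum_sdiff hA] at h1
    have h2 : ∑ z ∈ Λ \ A, rm V E u z * gr V Λ E z y =
        - ∑ u' ∈ Λ \ A, hop u u' * gr V Λ E u' y := by
      rw [← Finset.sum_neg_distrib]
      apply Finset.sum_congr rfl
      intro z hz
      have huz : u ≠ z := by
        rintro rfl
        exact (Finset.mem_sdiff.1 hz).2 hu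
      unfold rm
      rw [if_neg huz]
      ring
    rw [h2] at h1
    linarith only [h1]
  have e2 : ∑ u ∈ A, gr V A E x u * ∑ z ∈ A, rm V E u z * gr V Λ E z y = gr V Λ E x y := by
    simp_rw [Finset.mul_sum]
    rw [Finset.sum_comm]
    have : ∀ z ∈ A, ∑ u ∈ A, gr V A E x u * (rm V E u z * gr V Λ E z y) =
        (if x = z then 1 else 0) * gr V Λ E z y := by
      intro z hz
      rw [← gr_mul_rm hA' hx hz, Finset.sum_mul]
      apply Finset.sum_congr rfl
      intro u _
      ring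
    rw [Finset.sum_congr rfl this]
    simp [hx]
  rw [← e2]
  have e3 : ∀ u ∈ A, gr V A E x u * ∑ z ∈ A, rm V E u z * gr V Λ E z y =
      (if u = y then gr V A E x u else 0) +
        ∑ u' ∈ Λ \ A, gr V A E x u * hop u u' * gr V Λ E u' y := by
    intro u hu
    rw [e1 u hu, mul_add, Finset.mul_sum]
    congr 1
    · split_ifs <;> simp
    · refine Finset.sum_congr rfl fun u' _ => by ring
  rw [Finset.sum_congr rfl e3, Finset.sum_add_distrib, Finset.sum_ite_eq', if_pos hy]

/-- the boundary term -/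
theorem bdry_le {V : Site d → ℝ} {Λ : Finset (Site d)} {E T1 T2 : ℝ} {b y : Site d} {r : ℕ}
    (hT1 : 0 ≤ T1) (hT2 : 0 ≤ T2)
    (h1 : ∀ u, sd b u = r → |gr V (box b r) E b u| ≤ T1)
    (h2 : ∀ u ∈ box b (r + 1), |gr V Λ E u y| ≤ T2) :
    |∑ u ∈ box b r, ∑ u' ∈ Λ \ box b r, gr V (box b r) E b u * hop u u' * gr V Λ E u' y| ≤
      (box b r).card * (2 * d * (T1 * T2)) := by
  refine (Finset.abs_sum_le_sum_abs _ _).trans ?_
  rw [← nsmul_eq_mul]
  refine Finset.sum_le_card_nsmul _ _ _ fun u hu => ?_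
  refine (Finset.abs_sum_le_sum_abs _ _).trans ?_
  have h3 : ∀ u' ∈ Λ \ box b r, |gr V (box b r) E b u * hop u u' * gr V Λ E u' y| ≤
      hop u u' * (T1 * T2) := by
    intro u' hu'
    rw [abs_mul, abs_mul, abs_of_nonneg (hop_nonneg u u')]
    by_cases hh : hop u u' = 0
    · rw [hh, mul_zero, zero_mul, zero_mul]
    · have hsd := sd_of_hop hh
      have hu1 := sd_le_iff.1 (mem_box.1 hu)
      have hu2 : ¬ sd b u' ≤ r := fun hc => (Finset.mem_sdiff.1 hu').2 (mem_box.2 hc)
      have hu3 : sd b u' ≤ r + 1 := by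
        rw [sd_le_iff]
        intro i
        have a1 := hu1 i
        have a2 := sd_le_iff.1 hsd i
        have a3 : |b i - u' i| ≤ |b i - u i| + |u i - u' i| := abs_sub_le _ _ _
        push_cast at a2 ⊢
        linarith only [a2, a3, a1]
      have hu4 : sd b u = r := by
        apply le_antisymm (mem_box.1 hu)
        by_contra hc
        apply hu2
        have hc' : sd b u ≤ r - 1 := by omega
        have hr : 1 ≤ r := by omega
        rw [sd_le_iff]
        intro i
        have a1 := sd_le_iff.1 hc' i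
        have a2 := sd_le_iff.1 hsd i
        have a3 : |b i - u' i| ≤ |b i - u i| + |u i - u' i| := abs_sub_le _ _ _
        have a4 : ((r - 1 : ℕ) : ℤ) = r - 1 := by
          rw [Nat.cast_sub hr]
          rfl
        rw [a4] at a1
        push_cast at a2
        linarith only [a2, a3, a1]
      have g1 := h1 u hu4
      have g2 := h2 u' (mem_box.2 hu3)
      calc |gr V (box b r) E b u| * hop u u' * |gr V Λ E u' y|
          ≤ T1 * hop u u' * T2 := by
            gcongr
            · exact mul_nonneg hT1 (hop_nonneg u u')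
            · exact hop_nonneg u u'
        _ = _ := by ring
  refine (Finset.sum_le_sum h3).trans ?_
  rw [← Finset.sum_mul]
  exact mul_le_mul_of_nonneg_right (sum_hop_le u _) (mul_nonneg hT1 hT2)

theorem qform_shift (V : Site d → ℝ) (b : Site d) (r : ℕ) (E : ℝ) (u : Site d → ℝ) :
    qform V (box b r) E u = qform (fun y => V (b + y)) (box 0 r) E (fun y => u (b + y)) := by
  have hmem : ∀ y : Site d, y ∈ box 0 r ↔ b + y ∈ box b r := by
    intro y
    rw [mem_box, mem_box, sd_le_iff, sd_le_iff]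
    refine forall_congr' fun i => ?_
    rw [Pi.add_apply, Pi.zero_apply, sub_add_cancel_left, zero_sub]
  have hhop : ∀ y z : Site d, hop (b + y) (b + z) = hop y z := by
    intro y z
    unfold hop
    refine Finset.sum_congr rfl fun i _ => ?_
    have h1 : (b + z = b + y + Pi.single i 1) ↔ (z = y + Pi.single i 1) := by
      rw [add_assoc, add_right_inj]
    have h2 : (b + z = b + y - Pi.single i 1) ↔ (z = y - Pi.single i 1) := by
      rw [add_sub_assoc, add_right_inj]
    simp only [h1, h2]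
  have hsum : ∀ f : Site d → ℝ, ∑ y ∈ box b r, f y = ∑ y ∈ box (0 : Site d) r, f (b + y) := by
    intro f
    refine (Finset.sum_bij (fun y _ => b + y) (fun y hy => (hmem y).1 hy)
      (fun y _ z _ h => add_left_cancel h) (fun y hy => ⟨y - b, ?_, ?_⟩) (fun y _ => rfl)).symm
    · rw [hmem, add_sub_cancel]
      exact hy
    · rw [add_sub_cancel]
  unfold qform
  rw [hsum]
  refine Finset.sum_congr rfl fun y _ => ?_
  rw [hsum]
  refine Finset.sum_congr rfl fun z _ => ?_
  unfold rm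
  rw [hhop]
  by_cases h : y = z
  · subst h
    simp
  · have h' : b + y ≠ b + z := fun hc => h (add_left_cancel hc)
    rw [if_neg h, if_neg h']

theorem cosh_bound {κ : ℝ} (h : κ ^ 2 ≤ 1) : 2 * (Real.cosh κ - 1) ≤ 2 * κ ^ 2 := by
  have h1 := Real.cosh_le_exp_half_sq κ
  have h2 : 1 - κ ^ 2 / 2 ≤ Real.exp (-(κ ^ 2 / 2)) := by
    have := Real.add_one_le_exp (-(κ ^ 2 / 2))
    linarith only [this]
  have h3 : Real.exp (κ ^ 2 / 2) * Real.exp (-(κ ^ 2 / 2)) = 1 := by
    rw [← Real.exp_add]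
    simp
  have h4 : 0 < Real.exp (κ ^ 2 / 2) := Real.exp_pos _
  have h5 : Real.exp (κ ^ 2 / 2) * (1 - κ ^ 2 / 2) ≤ 1 :=
    (mul_le_mul_of_nonneg_left h2 h4.le).trans h3.le
  have h6 : Real.exp (κ ^ 2 / 2) ≤ 1 + κ ^ 2 := by
    have h7 : 0 ≤ κ ^ 2 := sq_nonneg κ
    by_contra hc
    push Not at hc
    have h8 : (1 + κ ^ 2) * (1 - κ ^ 2 / 2) ≤ Real.exp (κ ^ 2 / 2) * (1 - κ ^ 2 / 2) :=
      mul_le_mul_of_nonneg_right hc.le (by linarith only [h])
    have h9 : 1 < (1 + κ ^ 2) * (1 - κ ^ 2 / 2) ∨ κ ^ 2 = 0 := by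
      rcases h7.lt_or_eq with h | h
      · left
        nlinarith
      · right
        exact h.symm
    rcases h9 with h9 | h9
    · linarith only [h9, h8, h5]
    · rw [h9] at hc
      simp at hc
  linarith only [h6, h1]

/-- deterministic part -/
theorem cdp_det {C₁ C₂ : ℝ} {ε : ℝ} (hd : 1 ≤ d)
    (cts : CtsStmt) (hε : 0 < ε) (hε50 : ε ≤ 1 / 50) (hCε : C₁ * ε ≤ 1)
    {M' n R N : ℕ} [NeZero M'] {z μ lam : ℝ} {V : Site d → ℝ} {b : Site d} {i : Fin d}
    (cde : Real.exp (-((1 + C₁ * ε) * Real.sqrt lam * n + C₂ * (1 + Real.log (1 / lam)))) ≤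
        gr V (box b (n + R)) (z + lam) b (b + Pi.single i (n : ℤ)))
    (hlam : 0 < lam) (hlam2 : lam ≤ 1 / 2) (hμ : 0 < μ)
    (hM : 2 * (n + R) + 5 ≤ M') (hnR : 8 * n ≤ R) (hR : 1 ≤ R) (hbox : box b (n + R + 1) ⊆ box 0 N)
    (hF : FlatE ε z μ (fun x : Tor d M' => V (b + rep x)))
    (hdet : (RM V (box 0 N) (z + lam)).det ≠ 0)
    (hw : ∀ u ∈ box b (n + R + 1), |gr V (box 0 N) (z + lam) u (b + Pi.single i (n : ℤ))| ≤
      Real.exp (Real.sqrt lam * R / 8))
    (hlog : Real.log (8 * d) + d * Real.log (6 * R) + Real.log (1 / lam) +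
      C₂ * (1 + Real.log (1 / lam)) ≤ Real.sqrt lam * R / 8) :
    DL (box 0 N) (z + lam) V b (b + Pi.single i (n : ℤ)) ≤
        (1 + C₁ * ε) * Real.sqrt lam * n + (C₂ + 1) * (1 + Real.log (1 / lam)) := by
  set s : ℝ := Real.sqrt lam with hs
  have hs0 : 0 < s := Real.sqrt_pos.2 hlam
  have hs2 : s ^ 2 = lam := Real.sq_sqrt hlam.le
  have hd1 : (1 : ℝ) ≤ d := by exact_mod_cast hd
  have hR1 : (1 : ℝ) ≤ R := by exact_mod_cast hR
  have hn0 : (0 : ℝ) ≤ n := Nat.cast_nonneg n
  have hnR' : 8 * (n : ℝ) ≤ R := by exact_mod_cast hnR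
  have hL0 : 0 ≤ Real.log (1 / lam) := by
    apply Real.log_nonneg
    rw [le_div_iff₀ hlam, one_mul]
    linarith only [hlam2]
  set Λ := box (0 : Site d) N with hΛ
  set r := n + R with hr
  set B := box b r with hB
  set x := b + Pi.single i (n : ℤ) with hx
  set E := z + lam with hE
  have hBΛ : B ⊆ Λ := by
    refine Finset.Subset.trans ?_ hbox
    intro y hy
    rw [hB, mem_box] at hy
    rw [mem_box]
    omega
  -- form bound
  have hflat : Flat z μ (fun x : Tor d M' => V (b + rep x)) := by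
    refine ⟨hF.1, hF.2.1, fun x => (hF.2.2 x).trans ?_⟩
    have : ε * μ ≤ 1 / 50 * μ := mul_le_mul_of_nonneg_right hε50 hμ.le
    linarith only [this]
  have hbd : ∀ y ∈ box (0 : Site d) r, ∀ j, 2 * (|y j| + 1) < (M' : ℤ) := by
    intro y hy j
    have h1 := sd_le_iff.1 (mem_box.1 hy) j
    rw [Pi.zero_apply, zero_sub, abs_neg] at h1
    have h5 : (2 * ((n : ℤ) + R) + 5) ≤ M' := by exact_mod_cast hM
    rw [hr] at h1
    push_cast at h1
    linarith only [h1, hr, hM]
  have hform : ∀ u : Site d → ℝ, lam * ∑ y ∈ B, u y ^ 2 ≤ qform V B E u := by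
    intro u
    have h1 := H28W.qform_flat (W := fun y => V (b + y)) (box 0 r) hbd hflat
      (fun y => u (b + y))
    rw [← qform_shift V b r z u] at h1
    rw [qform_eq] at h1 ⊢
    rw [hE]
    rw [← hB] at h1
    linarith only [h1]
  -- Combes-Thomas
  have hκ : (s / 2) ^ 2 ≤ 1 := by
    rw [div_pow, hs2]
    linarith only [hlam2]
  obtain ⟨hdetB, hct⟩ := cts d V B E lam (s / 2) (lam / 2) hd (by positivity) (by positivity)
    (by
      have := cosh_bound hκ
      rw [div_pow, hs2] at this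
      linarith only [this]) hform
  have hxB : x ∈ B := by
    rw [hB, mem_box, hx, sd_le_iff]
    intro j
    rw [Pi.add_apply, sub_add_cancel_left, abs_neg]
    by_cases hj : j = i
    · subst hj
      rw [Pi.single_eq_same, abs_of_nonneg (by positivity)]
      rw [hr]
      push_cast
      linarith only [(Nat.cast_nonneg R : (0 : ℤ) ≤ R)]
    · rw [Pi.single_eq_of_ne hj, abs_zero]
      positivity
  have hbB : b ∈ B := by
    rw [hB, mem_box, sd_le_iff]
    intro j
    rw [sub_self, abs_zero]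
    positivity
  have hid := geo0 hBΛ hdet hdetB hbB hxB
  have hT1 : ∀ u, sd b u = r → |gr V B E b u| ≤ 2 / lam * Real.exp (-(s * R / 2)) := by
    intro u hu
    refine (hct b u).trans ?_
    rw [hu]
    have h1 : 1 / (lam / 2) = 2 / lam := by
      field_simp
    rw [h1]
    apply mul_le_mul_of_nonneg_left _ (by positivity)
    apply Real.exp_le_exp.2
    rw [hr]
    push_cast
    nlinarith only [mul_nonneg hs0.le hn0]
  have hbdry := bdry_le (V := V) (Λ := Λ) (E := E) (b := b) (y := x) (r := r)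
    (T1 := 2 / lam * Real.exp (-(s * R / 2))) (T2 := Real.exp (s * R / 8)) (by positivity)
    (by positivity) hT1 hw
  rw [← hB] at hbdry
  set S : ℝ := ∑ u ∈ B, ∑ u' ∈ Λ \ B, gr V B E b u * hop u u' * gr V Λ E u' x with hS
  have hcard : ((B.card : ℕ) : ℝ) ≤ (6 * R : ℝ) ^ d := by
    rw [hB, card_box]
    push_cast
    apply pow_le_pow_left₀ (by positivity)
    rw [hr]
    push_cast
    linarith only [hnR', hR1]
  set X : ℝ := (1 + C₁ * ε) * s * n + C₂ * (1 + Real.log (1 / lam)) with hX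
  have hXle : X ≤ s * R / 4 + C₂ * (1 + Real.log (1 / lam)) := by
    rw [hX]
    have h1 : (1 + C₁ * ε) * s * n ≤ 2 * s * n := by
      have : 1 + C₁ * ε ≤ 2 := by linarith only [hCε]
      gcongr
    have h2 : 2 * s * n ≤ s * R / 4 := by nlinarith only [hnR', hs0]
    linarith only [h2, h1]
  have hSle : |S| ≤ Real.exp (-X) / 2 := by
    refine hbdry.trans ?_
    have e1 : (8 * d : ℝ) * (6 * R) ^ d * (1 / lam) ≤
        Real.exp (s * R / 8 - C₂ * (1 + Real.log (1 / lam))) := by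
      have hpos : (0 : ℝ) < 8 * d * (6 * R) ^ d * (1 / lam) := by positivity
      rw [← Real.log_le_iff_le_exp hpos, Real.log_mul (by positivity) (by positivity),
        Real.log_mul (by positivity) (by positivity), Real.log_pow]
      linarith only [hlog]
    have e2 : (B.card : ℝ) * (2 * d * (2 / lam * Real.exp (-(s * R / 2)) * Real.exp (s * R / 8))) ≤
        (6 * R) ^ d * (2 * d * (2 / lam * Real.exp (-(s * R / 2)) * Real.exp (s * R / 8))) :=
      mul_le_mul_of_nonneg_right hcard (by positivity)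
    refine e2.trans ?_
    have e3 : (6 * R : ℝ) ^ d * (2 * d * (2 / lam * Real.exp (-(s * R / 2)) *
        Real.exp (s * R / 8))) = ((8 * d : ℝ) * (6 * R) ^ d * (1 / lam)) *
          (Real.exp (-(s * R / 2)) * Real.exp (s * R / 8)) / 2 := by
      ring
    rw [e3, ← Real.exp_add]
    have e4 : ((8 * d : ℝ) * (6 * R) ^ d * (1 / lam)) * Real.exp (-(s * R / 2) + s * R / 8) ≤
        Real.exp (s * R / 8 - C₂ * (1 + Real.log (1 / lam))) *
          Real.exp (-(s * R / 2) + s * R / 8) :=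
      mul_le_mul_of_nonneg_right e1 (Real.exp_pos _).le
    rw [← Real.exp_add] at e4
    have e5 : Real.exp (s * R / 8 - C₂ * (1 + Real.log (1 / lam)) +
        (-(s * R / 2) + s * R / 8)) ≤ Real.exp (-X) := by
      apply Real.exp_le_exp.2
      linarith only [hXle]
    linarith only [e5, e4]
  have hG : Real.exp (-X) / 2 ≤ gr V Λ E b x := by
    rw [hid]
    have h1 := neg_abs_le S
    have h2 : Real.exp (-X) ≤ gr V B E b x := cde
    linarith only [h1, hSle, cde]
  have hG0 : 0 < gr V Λ E b x := lt_of_lt_of_le (by positivity) hG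
  unfold DL
  rw [abs_of_pos hG0]
  have h1 := Real.log_le_log (by positivity) hG
  rw [Real.log_div (Real.exp_pos _).ne' (by norm_num), Real.log_exp] at h1
  have h2 : Real.log 2 ≤ 1 := by
    have := Real.log_two_lt_d9
    linarith only [this]
  have h3 : (C₂ + 1) * (1 + Real.log (1 / lam)) =
      C₂ * (1 + Real.log (1 / lam)) + (1 + Real.log (1 / lam)) := by ring
  rw [h3]
  linarith only [h2, h1, hL0]

/-- the probability of the failure of flatness is positive -/
theorem gau_bad_pos {M' : ℕ} [NeZero M'] {v : ℝ≥0} (hv : v ≠ 0) {ε z μ : ℝ} :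
    gau d M' v {V | ¬ FlatE ε z μ V} ≠ 0 := by
  intro h0
  set x₀ : Tor d M' := fun _ => 0 with hx₀
  have h1 : {V : Tor d M' → ℝ | V x₀ ∈ Set.Iio (-1 : ℝ)} ⊆ {V | ¬ FlatE ε z μ V} := by
    intro V hV hc
    have := hc.1 x₀
    rw [Set.mem_ofPred_eq, Set.mem_Iio] at hV
    linarith only [this, hV]
  have h2 := measure_mono_null h1 h0
  have h3 : MeasurePreserving (fun V : Tor d M' → ℝ => V x₀) (gau d M' v) (gaussianReal 0 v) := by
    unfold gau
    exact measurePreserving_eval (fun _ => gaussianReal 0 v) x₀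
  have h4 : gaussianReal 0 v (Set.Iio (-1)) = 0 := by
    rw [← h3.measure_preimage measurableSet_Iio.nullMeasurableSet]
    exact h2
  have h5 := gaussianReal_absolutelyContinuous' 0 hv h4
  rw [Real.volume_Iio] at h5
  exact absurd h5 (by simp)

theorem cdp (cde : CdeStmt) (cts : CtsStmt) : CdpStmt := by
  intro d hd
  obtain ⟨C₁, hC1, hcde⟩ := cde d hd
  refine ⟨C₁, hC1, ?_⟩
  intro ε hε hε50 hCε
  obtain ⟨Ce, hCe, hcde'⟩ := hcde ε hε hε50
  refine ⟨88 * d + 48 + 8 * Ce, ?_, ?_⟩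
  · have : (0 : ℝ) ≤ d := Nat.cast_nonneg d
    linarith only [hCe]
  intro M' n R N v σ z μ lam p b i hσ hσ1 hv hz hlam hlam2 hμ hεμ hprob hM hnR hbox hC
  classical
  have hne : NeZero M' := ⟨by omega⟩
  have hs0 : 0 < |σ| := abs_pos.2 hσ
  have hd1 : (1 : ℝ) ≤ d := by exact_mod_cast hd
  have hsq : 0 < Real.sqrt lam := Real.sqrt_pos.2 hlam
  have hl1 : 0 ≤ Real.log (1 / lam) := by
    apply Real.log_nonneg
    rw [le_div_iff₀ hlam, one_mul]
    linarith only [hlam2]
  have hl2 : 0 ≤ Real.log (1 / |σ|) := by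
    apply Real.log_nonneg
    rw [le_div_iff₀ hs0, one_mul]
    exact hσ1
  have hl3 : 0 ≤ Real.log (R : ℝ) := Real.log_natCast_nonneg R
  set L : ℝ := 1 + Real.log (1 / lam) + Real.log (1 / |σ|) + Real.log R with hL
  have hL1 : 1 ≤ L := by rw [hL]; linarith only [hl3, hl2, hl1]
  have hCpos : 0 < 88 * (d : ℝ) + 48 + 8 * Ce := by linarith only [hCe]
  have hCL : 0 < (88 * (d : ℝ) + 48 + 8 * Ce) * L := by positivity
  have hsR : 0 < Real.sqrt lam * R := lt_of_lt_of_le hCL hC
  have hR0 : (0 : ℝ) < R := by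
    by_contra hc
    have : (R : ℝ) = 0 := le_antisymm (not_lt.1 hc) (Nat.cast_nonneg R)
    rw [this, mul_zero] at hsR
    exact lt_irrefl _ hsR
  have hR : 1 ≤ R := by
    have : 0 < R := by exact_mod_cast hR0
    omega
  have hR1 : (1 : ℝ) ≤ R := by exact_mod_cast hR
  have hnR' : 8 * (n : ℝ) ≤ R := by exact_mod_cast hnR
  have hlog6 : Real.log (6 * R) ≤ 2 + Real.log R := by
    rw [Real.log_mul (by norm_num) (by positivity)]
    have h6 : Real.log 6 ≤ 2 := by
      rw [Real.log_le_iff_le_exp (by norm_num)]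
      have h1 := Real.exp_one_gt_d9
      have h2 : Real.exp 2 = Real.exp 1 * Real.exp 1 := by
        rw [← Real.exp_add]
        norm_num
      rw [h2]
      nlinarith only [h1]
    linarith only [h6]
  have hdR : (d : ℝ) * Real.log (6 * R) ≤ d * (2 + Real.log R) :=
    mul_le_mul_of_nonneg_left hlog6 (by positivity)
  have hs : (88 * (d : ℝ) + 48 + 8 * Ce) * L ≤ Real.sqrt lam * R := hC
  have hdL : (d : ℝ) * (2 + Real.log R) ≤ 3 * d * L := by
    have : 2 + Real.log R ≤ 3 * L := by rw [hL]; linarith only [hl3, hl2, hl1]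
    calc (d : ℝ) * (2 + Real.log R) ≤ d * (3 * L) := mul_le_mul_of_nonneg_left this (by positivity)
      _ = _ := by ring
  -- p is positive
  have hv0 : v ≠ 0 := by
    intro h
    rw [h] at hv
    have : 0 < σ ^ 2 := by positivity
    rw [← hv] at this
    simp at this
  have hp : 0 < p := by
    have h1 := hprob hne
    have h2 : gau d M' v {V | ¬ FlatE ε z μ V} ≠ 0 := gau_bad_pos hv0
    rw [← ENNReal.ofReal_pos]
    exact lt_of_lt_of_le (pos_iff_ne_zero.2 h2) h1
  -- the events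
  set f : (Site d → ℝ) → (Tor d M' → ℝ) := fun V x => V (b + rep x) with hf
  set B1 : Set (Site d → ℝ) := f ⁻¹' {U | ¬ FlatE ε z μ U} with hB1
  have pB1 : PP d (gl σ) B1 ≤ ENNReal.ofReal p := by
    have hfm : Measurable f := measurable_pi_lambda _ fun x => measurable_pi_apply _
    refine (Measure.le_map_apply hfm.aemeasurable _).trans ?_
    have h4 := H73.lawT d M' (Site d → ℝ) (PP d (gl σ)) (H54W.xi σ b) (H54W.measurable_xi σ b)
      (H54W.map_xi hσ b) (H54W.indep_xi b) σ v hv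
    have h5 : (fun (V : Site d → ℝ) (x : Tor d M') => σ * H54W.xi σ b (rep x) V) = f := by
      funext V x
      simp only [H54W.xi, hf]
      field_simp
    rw [h5] at h4
    rw [h4]
    exact hprob hne
  set x : Site d := b + Pi.single i (n : ℤ) with hx
  set E := z + lam with hE
  have hν := bddDens_gl hσ
  have pB2 : PP d (gl σ) {V | (RM V (box (0 : Site d) N) E).det = 0} = 0 := H54.PP_det hν _ E
  set T : ℝ := Real.exp (Real.sqrt lam * R / 8) with hT
  have hT0 : 0 < T := Real.exp_pos _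
  have pB3 : ∀ u ∈ box b (n + R + 1), PP d (gl σ) {V | T < |gr V (box (0 : Site d) N) E u x|} ≤
      ENNReal.ofReal (6 * (1 / |σ|) / T) := fun u _ => H54.PP_weak hν _ E u x hT0
  have hsub : {V | ¬ DL (box 0 N) E V b x ≤ (1 + C₁ * ε) * Real.sqrt lam * n +
      (88 * (d : ℝ) + 48 + 8 * Ce) * (1 + Real.log (1 / lam))} ⊆
      (B1 ∪ {V | (RM V (box (0 : Site d) N) E).det = 0}) ∪
        ⋃ u ∈ box b (n + R + 1), {V | T < |gr V (box (0 : Site d) N) E u x|} := by
    intro V hV
    by_contra hc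
    simp only [Set.mem_union, Set.mem_iUnion, not_or, not_exists, Set.mem_ofPred_eq] at hc
    obtain ⟨⟨c1, c2⟩, c3⟩ := hc
    rw [hB1, Set.mem_preimage, Set.mem_ofPred_eq, not_not] at c1
    apply hV
    have hCeR : Ce / Real.sqrt lam ≤ R := by
      rw [div_le_iff₀ hsq]
      have h1 : Ce ≤ (88 * (d : ℝ) + 48 + 8 * Ce) * L := by nlinarith only [hl3, hl2, hl1, hCe]
      linarith only [h1, hC]
    have h1 := hcde' M' z μ lam V b n R i hz hlam hlam2 hμ hεμ hM c1 hCeR
    have h2 := cdp_det (C₁ := C₁) (C₂ := Ce) (ε := ε) hd cts hε hε50 hCε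
      (M' := M') (n := n) (R := R) (N := N) (z := z) (μ := μ) (lam := lam) (V := V) (b := b)
      (i := i) h1 hlam hlam2 hμ hM hnR hR hbox c1 c2
      (fun u hu => not_lt.1 (c3 u hu)) (by
        have a1 : Real.log (8 * d) ≤ 8 * d := by
          have := Real.log_le_sub_one_of_pos (show (0 : ℝ) < 8 * d by positivity)
          linarith only [this]
        have a2 : (8 * (d : ℝ)) ≤ 8 * d * L := by nlinarith only [hl3, hl2, hl1]
        have a3 : Real.log (1 / lam) ≤ L := by rw [hL]; linarith only [hl3, hl2]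
        have a4 : 1 + Real.log (1 / lam) ≤ L := by rw [hL]; linarith only [hl3, hl2]
        have a5 : Ce * (1 + Real.log (1 / lam)) ≤ Ce * L :=
          mul_le_mul_of_nonneg_left a4 (by linarith only [hCe])
        have a6 : 0 ≤ L := by linarith only [hl3, hl2, hl1]
        nlinarith only [a1, hlog6, hC, hl3, hl2, hl1, hCe])
    refine h2.trans ?_
    have h3 : (Ce + 1) * (1 + Real.log (1 / lam)) ≤
        (88 * (d : ℝ) + 48 + 8 * Ce) * (1 + Real.log (1 / lam)) := by
      apply mul_le_mul_of_nonneg_right _ (by linarith only [hl1])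
      linarith only [hCe]
    linarith only [h3]
  refine (measure_mono hsub).trans ((measure_union_le _ _).trans ?_)
  have hU1 : PP d (gl σ) (B1 ∪ {V | (RM V (box (0 : Site d) N) E).det = 0}) ≤
      ENNReal.ofReal p := by
    refine (measure_union_le _ _).trans ?_
    rw [pB2, add_zero]
    exact pB1
  have hU2 : PP d (gl σ) (⋃ u ∈ box b (n + R + 1), {V | T < |gr V (box (0 : Site d) N) E u x|}) ≤
      ENNReal.ofReal (Real.exp (-(Real.sqrt lam * R / 16))) := by
    refine (measure_biUnion_finset_le _ _).trans ((Finset.sum_le_sum pB3).trans ?_)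
    rw [Finset.sum_const, nsmul_eq_mul, card_box, ← ENNReal.ofReal_natCast,
      ← ENNReal.ofReal_mul (by positivity)]
    apply ENNReal.ofReal_le_ofReal
    have hc1 : (((2 * (n + R + 1) + 1) ^ d : ℕ) : ℝ) ≤ (6 * R : ℝ) ^ d := by
      push_cast
      apply pow_le_pow_left₀ (by positivity)
      linarith only [hnR', hR1]
    have hpos : 0 ≤ 6 * (1 / |σ|) / T := by positivity
    refine (mul_le_mul_of_nonneg_right hc1 hpos).trans ?_
    have e1 : (6 * R : ℝ) ^ d * (6 * (1 / |σ|)) ≤ Real.exp (Real.sqrt lam * R / 16) := by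
      have hq : (0 : ℝ) < (6 * R) ^ d * (6 * (1 / |σ|)) := by positivity
      have l1 : Real.log ((6 * R : ℝ) ^ d * (6 * (1 / |σ|))) =
          d * Real.log (6 * R) + (Real.log 6 + Real.log (1 / |σ|)) := by
        rw [Real.log_mul (by positivity) (by positivity), Real.log_pow]
        congr 1
        exact Real.log_mul (by norm_num) (by positivity)
      rw [← Real.log_le_iff_le_exp hq, l1]
      have h6 : Real.log 6 ≤ 2 := by
        rw [Real.log_le_iff_le_exp (by norm_num)]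
        have h1 := Real.exp_one_gt_d9
        have h2 : Real.exp 2 = Real.exp 1 * Real.exp 1 := by
          rw [← Real.exp_add]
          norm_num
        rw [h2]
        nlinarith only [h1]
      have a3 : Real.log (1 / |σ|) ≤ L := by rw [hL]; linarith only [hl3, hl1]
      have a6 : 0 ≤ L := by linarith only [hl3, hl2, hl1]
      nlinarith only [h6, hlog6, hC, hl3, hl2, hl1, hCe]
    have e2 : Real.exp (-(Real.sqrt lam * R / 16)) * T = Real.exp (Real.sqrt lam * R / 16) := by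
      rw [hT, ← Real.exp_add]
      congr 1
      ring
    rw [← mul_div_assoc, div_le_iff₀ hT0, e2]
    exact e1
  refine (add_le_add hU1 hU2).trans ?_
  rw [← ENNReal.ofReal_add hp.le (Real.exp_pos _).le]

end Pool.Agent.LE.H42Z
end
end -- Pool.Agent.Helper42_LSH.CDP

section -- Pool.Agent.Helper42_LSH.UPX

/-!
# UPX: from conduction with probability to the Lyapunov exponent
-/

set_option autoImplicit false
set_option linter.unusedSectionVars false

open scoped Topology ENNReal BigOperators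
open MeasureTheory Filter ProbabilityTheory

noncomputable section

namespace Pool.Agent.LE.H42Z

open Pool.Agent.Anderson Pool.Agent.Loc Pool.Agent.Mob Pool.Agent.Helper54.Bal Pool.Agent.LY
  Pool.Agent.Helper96.EXP

/-- the mean on the bad event, from the second moment of the positive part -/
theorem mean_le {Ω : Type} [MeasurableSpace Ω] (P : Measure Ω) [IsProbabilityMeasure P]
    (D : Ω → ℝ) (hD : Measurable D) (hint : Integrable D P) {a M q : ℝ} (ha : 0 ≤ a) (hM : 0 < M)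
    (hq : 0 ≤ q) (hMq : M * q ≤ 1)
    (h2 : ∫⁻ ω, (ENNReal.ofReal (D ω)) ^ 2 ∂P ≤ ENNReal.ofReal M)
    (hbad : P {ω | ¬ D ω ≤ a} ≤ ENNReal.ofReal q) : ∫ ω, D ω ∂P ≤ a + 1 := by
  set f : Ω → ℝ := fun ω => (max 0 (D ω)) ^ 2 with hf
  have hfm : Measurable f := (measurable_const.max hD).pow_const 2
  have hf0 : ∀ ω, 0 ≤ f ω := fun ω => sq_nonneg _
  have hfe : ∀ ω, ENNReal.ofReal (f ω) = (ENNReal.ofReal (D ω)) ^ 2 := by
    intro ω
    rw [hf]
    simp only
    rw [ENNReal.ofReal_pow (le_max_left _ _)]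
    rcases le_total 0 (D ω) with h | h
    · rw [max_eq_right h]
    · rw [max_eq_left h, ENNReal.ofReal_of_nonpos h, ENNReal.ofReal_zero]
  have hfl : ∫⁻ ω, ENNReal.ofReal (f ω) ∂P ≤ ENNReal.ofReal M := by
    simp_rw [hfe]
    exact h2
  have hfi : Integrable f P := by
    refine ⟨hfm.aestronglyMeasurable, ?_⟩
    rw [hasFiniteIntegral_iff_ofReal (Eventually.of_forall hf0)]
    exact lt_of_le_of_lt hfl ENNReal.ofReal_lt_top
  have hfint : ∫ ω, f ω ∂P ≤ M := by
    rw [integral_eq_lintegral_of_nonneg_ae (Eventually.of_forall hf0) hfm.aestronglyMeasurable]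
    exact ENNReal.toReal_le_of_le_ofReal hM.le hfl
  set S : Set Ω := {ω | ¬ D ω ≤ a} with hS
  have hSm : MeasurableSet S := (measurableSet_le hD measurable_const).compl
  have hSi : Integrable (S.indicator fun _ => (1 : ℝ)) P :=
    (integrable_const (1 : ℝ)).indicator hSm
  have hSint : ∫ ω, S.indicator (fun _ => (1 : ℝ)) ω ∂P ≤ q := by
    rw [integral_indicator_const _ hSm, smul_eq_mul, mul_one]
    exact ENNReal.toReal_le_of_le_ofReal hq hbad
  have hpt : ∀ ω, D ω ≤ a + (f ω / (2 * M) + M / 2 * S.indicator (fun _ => (1 : ℝ)) ω) := by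
    intro ω
    by_cases h : ω ∈ S
    · rw [Set.indicator_of_mem h]
      have h1 : D ω ≤ max 0 (D ω) := le_max_right _ _
      have h3 : max 0 (D ω) ≤ (max 0 (D ω)) ^ 2 / (2 * M) + M / 2 * 1 := by
        rw [div_add' _ _ _ (by positivity), le_div_iff₀ (by positivity)]
        nlinarith only [sq_nonneg (max 0 (D ω) - M)]
      rw [hf]
      simp only
      linarith only [ha, h1, h3]
    · rw [Set.indicator_of_notMem h, mul_zero, add_zero]
      rw [hS, Set.mem_ofPred_eq, not_not] at h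
      have := div_nonneg (hf0 ω) (by positivity : (0 : ℝ) ≤ 2 * M)
      linarith only [h, this]
  have i1 : Integrable (fun ω => f ω / (2 * M)) P := hfi.div_const _
  have i2 : Integrable (fun ω => M / 2 * S.indicator (fun _ => (1 : ℝ)) ω) P := hSi.const_mul _
  have i3 : Integrable (fun ω => f ω / (2 * M) + M / 2 * S.indicator (fun _ => (1 : ℝ)) ω) P :=
    i1.add i2
  have i0 : Integrable (fun _ : Ω => a) P := integrable_const a
  have h4 : ∫ ω, D ω ∂P ≤ ∫ ω, (a + (f ω / (2 * M) + M / 2 * S.indicator (fun _ => (1 : ℝ)) ω)) ∂P :=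
    integral_mono hint (i0.add i3) hpt
  have e1 := integral_add i0 i3
  have e2 := integral_add i1 i2
  have e3 : ∫ _ω : Ω, a ∂P = a := by simp
  have e4 : ∫ ω, f ω / (2 * M) ∂P = (∫ ω, f ω ∂P) / (2 * M) := integral_div _ _
  have e5 : ∫ ω, M / 2 * S.indicator (fun _ => (1 : ℝ)) ω ∂P =
      M / 2 * ∫ ω, S.indicator (fun _ => (1 : ℝ)) ω ∂P := integral_const_mul _ _
  rw [e1, e2, e3, e4, e5] at h4
  have h6 : (∫ ω, f ω ∂P) / (2 * M) ≤ 1 / 2 := by
    rw [div_le_iff₀ (by positivity)]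
    linarith only [hfint]
  have h7 : M / 2 * ∫ ω, S.indicator (fun _ => (1 : ℝ)) ω ∂P ≤ 1 / 2 := by
    have : M / 2 * ∫ ω, S.indicator (fun _ => (1 : ℝ)) ω ∂P ≤ M / 2 * q :=
      mul_le_mul_of_nonneg_left hSint (by positivity)
    linarith only [hMq, this]
  linarith only [h4, h6, h7]

theorem sm_succ {d : ℕ} (k n : ℕ) (i : Fin d) :
    sm (k * n) (Pi.single i 1 : Site d) + Pi.single i (n : ℤ) =
      sm ((k + 1) * n) (Pi.single i 1 : Site d) := by
  funext j
  simp only [sm, Pi.add_apply]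
  by_cases hj : j = i
  · subst hj
    rw [Pi.single_eq_same, Pi.single_eq_same]
    push_cast
    ring
  · rw [Pi.single_eq_of_ne hj, Pi.single_eq_of_ne hj]
    ring

theorem sm_box {d : ℕ} (k n r N : ℕ) (i : Fin d) (h : k * n + r ≤ N) :
    box (sm (k * n) (Pi.single i 1 : Site d)) r ⊆ box 0 N := by
  intro z hz
  rw [mem_box, sd_le_iff] at hz ⊢
  intro j
  have h1 := hz j
  rw [Pi.zero_apply, zero_sub, abs_neg]
  have h2 : |sm (k * n) (Pi.single i 1 : Site d) j| ≤ (k * n : ℕ) := by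
    simp only [sm]
    by_cases hj : j = i
    · subst hj
      rw [Pi.single_eq_same, mul_one]
      exact le_of_eq (abs_of_nonneg (by positivity))
    · rw [Pi.single_eq_of_ne hj, mul_zero, abs_zero]
      positivity
  have h3 : |z j| ≤ |sm (k * n) (Pi.single i 1 : Site d) j - z j| +
      |sm (k * n) (Pi.single i 1 : Site d) j| := by
    have := abs_sub (sm (k * n) (Pi.single i 1 : Site d) j)
      (sm (k * n) (Pi.single i 1 : Site d) j - z j)
    rw [sub_sub_cancel] at this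
    linarith only [this]
  have h4 : ((k * n + r : ℕ) : ℤ) ≤ N := by exact_mod_cast h
  push_cast at h4 h2 ⊢
  linarith only [h, h1, h3, h2]

theorem mem_self {d : ℕ} (x : Site d) (r : ℕ) : x ∈ box x r := by
  rw [mem_box, sd_le_iff]
  intro j
  rw [sub_self, abs_zero]
  positivity

theorem sd_single {d : ℕ} (b : Site d) (n : ℕ) (i : Fin d) :
    sd b (b + Pi.single i (n : ℤ)) ≤ n := by
  rw [sd_le_iff]
  intro j
  rw [Pi.add_apply, sub_add_cancel_left, abs_neg]
  by_cases hj : j = i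
  · subst hj
    rw [Pi.single_eq_same]
    exact le_of_eq (abs_of_nonneg (by positivity))
  · rw [Pi.single_eq_of_ne hj, abs_zero]
    positivity

theorem sd_zero_single {d : ℕ} (i : Fin d) : sd (0 : Site d) (Pi.single i 1 : Site d) = 1 := by
  apply le_antisymm
  · have := sd_single (0 : Site d) 1 i
    rwa [zero_add] at this
  · have h := sd_le_iff (x := (0 : Site d)) (y := (Pi.single i 1 : Site d)) |>.1 le_rfl i
    rw [Pi.zero_apply, Pi.single_eq_same, zero_sub, abs_neg, abs_one] at h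
    exact_mod_cast h

theorem upx (mtr : MtrStmt) (upe : UpeStmt) : UpxStmt := by
  intro d hd
  obtain ⟨A, hA, hcst⟩ := H28W.cstB (d := d) hd (B := 2 * d + 2) (by positivity)
  obtain ⟨C', hC', hc⟩ := hcst 2 (by norm_num)
  refine ⟨A, max 1 (4 * C'), hA, le_max_left _ _, ?_⟩
  intro n R σ E g a ε q i hσ hσ1 hE hn hε ha hq hCq hlog hbad hlya
  have hs0 : 0 < |σ| := abs_pos.2 hσ
  have hn1 : (1 : ℝ) ≤ n := by exact_mod_cast hn
  have hlσ : 0 ≤ Real.log (1 / |σ|) := by
    apply Real.log_nonneg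
    rw [le_div_iff₀ hs0, one_mul]
    exact hσ1
  -- the mean
  have hmean : ∀ (N : ℕ) (b : Site d), box b (n + R + 1) ⊆ box 0 N →
      ∫ V, DL (box 0 N) E V b (b + Pi.single i (n : ℤ)) ∂(PP d (gl σ)) ≤ a * n + 1 := by
    intro N b hb
    have hbN : b ∈ box (0 : Site d) N := hb (mem_self b _)
    have hxN : b + Pi.single i (n : ℤ) ∈ box (0 : Site d) N := by
      apply hb
      rw [mem_box]
      exact (sd_single b n i).trans (by omega)
    have hint := (mtr d N σ E b b (b + Pi.single i (n : ℤ)) hd hσ hσ1 hbN hbN hxN).1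
    have hmeas : Measurable fun V : Site d → ℝ =>
        DL (box 0 N) E V b (b + Pi.single i (n : ℤ)) := by
      unfold DL
      exact (Real.measurable_log.comp (measurable_gr (box 0 N) E b _).abs).neg
    set M : ℝ := C' * |σ| ^ (-A) * ((n : ℝ) + 1) ^ 2 with hM
    have hpow : 0 < |σ| ^ (-A) := Real.rpow_pos_of_pos hs0 _
    have hM0 : 0 < M := by positivity
    have h2 : ∫⁻ V, (ENNReal.ofReal (DL (box 0 N) E V b (b + Pi.single i (n : ℤ)))) ^ 2
        ∂(PP d (gl σ)) ≤ ENNReal.ofReal M := by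
      refine (hc σ E N b _ hσ hσ1 hE hbN hxN).trans (ENNReal.ofReal_le_ofReal ?_)
      rw [hM]
      have h3 : (sd b (b + Pi.single i (n : ℤ)) : ℝ) ≤ n := by exact_mod_cast sd_single b n i
      gcongr
    have hMq : M * q ≤ 1 := by
      refine le_trans ?_ hCq
      apply mul_le_mul_of_nonneg_right _ hq
      have h3 : ((n : ℝ) + 1) ^ 2 ≤ 4 * (n : ℝ) ^ 2 := by nlinarith only [hn1]
      calc M ≤ C' * |σ| ^ (-A) * (4 * (n : ℝ) ^ 2) := by rw [hM]; gcongr
        _ = (4 * C') * |σ| ^ (-A) * (n : ℝ) ^ 2 := by ring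
        _ ≤ max 1 (4 * C') * |σ| ^ (-A) * (n : ℝ) ^ 2 := by
            gcongr
            exact le_max_right _ _
    exact mean_le (PP d (gl σ)) _ hmeas hint (by positivity) hM0 hq hMq h2 (hbad N b hb)
  -- along the axis
  have hchain : ∀ (N k : ℕ), 1 ≤ k → k * n + (R + 1) ≤ N →
      ∫ V, DL (box 0 N) E V 0 (sm (k * n) (Pi.single i 1 : Site d)) ∂(PP d (gl σ)) ≤
        k * (a * n + 11 + Real.log (1 / |σ|)) := by
    intro N k hk
    induction k, hk using Nat.le_induction with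
    | base =>
      intro hN
      have h1 := hmean N 0 (by
        have := sm_box 0 n (n + R + 1) N i (by omega)
        have h0 : sm (0 * n) (Pi.single i 1 : Site d) = 0 := by
          funext j
          simp [sm]
        rwa [h0] at this)
      have h2 : (0 : Site d) + Pi.single i (n : ℤ) = sm (1 * n) (Pi.single i 1 : Site d) := by
        have := sm_succ 0 n i
        have h0 : sm (0 * n) (Pi.single i 1 : Site d) = 0 := by
          funext j
          simp [sm]
        rw [h0] at this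
        exact this
      rw [h2] at h1
      push_cast
      linarith only [hlσ, h1]
    | succ k hk ih =>
      intro hN
      have hkn : k * n + (R + 1) ≤ N := by
        have : (k + 1) * n = k * n + n := by ring
        omega
      have hkn2 : k * n + (n + R + 1) ≤ N := by
        have : (k + 1) * n = k * n + n := by ring
        omega
      have ih' := ih hkn
      have hb := sm_box k n (n + R + 1) N i hkn2
      have h1 := hmean N (sm (k * n) (Pi.single i 1 : Site d)) hb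
      rw [sm_succ] at h1
      have hu : sm (k * n) (Pi.single i 1 : Site d) ∈ box (0 : Site d) N := hb (mem_self _ _)
      have hy : sm ((k + 1) * n) (Pi.single i 1 : Site d) ∈ box (0 : Site d) N := by
        apply sm_box (k + 1) n 0 N i (by omega)
        exact mem_self _ _
      have h2 := (mtr d N σ E 0 (sm (k * n) (Pi.single i 1 : Site d))
        (sm ((k + 1) * n) (Pi.single i 1 : Site d)) hd hσ hσ1 (by
          rw [mem_box, sd_le_iff]
          intro j
          rw [sub_self, abs_zero]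
          positivity) hu hy).2
      push_cast
      linarith only [ih', h1, h2]
  refine upe d σ E g ((1 + ε) * a) (R + 1) 1 n (Pi.single i 1) hd hσ hlya le_rfl hn
    (sd_zero_single i) ?_
  intro m N hm hN
  have hN' : m * n + (R + 1) ≤ N := by
    have h1 : (m + (R + 1)) * (1 * n) = m * n + (R + 1) * n := by ring
    have h2 : (R + 1) * 1 ≤ (R + 1) * n := Nat.mul_le_mul_left _ hn
    omega
  refine (hchain N m hm hN').trans ?_
  have hm0 : (0 : ℝ) ≤ m := by positivity
  apply mul_le_mul_of_nonneg_left _ hm0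
  push_cast
  linarith only [hlog]

end Pool.Agent.LE.H42Z
end
end -- Pool.Agent.Helper42_LSH.UPX
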