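import Pool.Agent.Helper12_MEB.B041
import Pool.Agent.Helper12_MEB.B044
import Pool.Agent.Helper12_MEB.B046
import Pool.Agent.Helper12_MEB.B048
import Pool.Agent.Helper12_MEB.B059
import Pool.Agent.Helper12_MEB.B060
import Pool.Agent.Helper12_MEB.B063

/-!
# Merged copies (generated) of the modules

* `Pool.Agent.Helper15_LE.CAU`
* `Pool.Agent.Helper15_LE.MSN`
* `Pool.Agent.Helper15_LE.NOE`
* `Pool.Agent.Helper17_LE.Zer`
* `Pool.Agent.Helper28_LE.Pho`
* `Pool.Agent.Helper28_LE.PhoA`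
* `Pool.Agent.Helper42_LE.Msa`
* `Pool.Agent.Helper59_LE.Msp`
* `Pool.Agent.Helper65_LE.CNV`
* `Pool.Agent.Helper69_LE.Shi`
* `Pool.Agent.Helper77_LE.Avs`
* `Pool.Agent.Helper93_LE.All`
* `Pool.Agent.Helper28_LE.Mes`
* `Pool.Agent.Helper28_LE.Nrm`
* `Pool.Agent.Helper39_LE.NXJ`
* `Pool.Agent.Helper3_LE.AlgR`
* `Pool.Agent.Helper3_LE.LocG`
* `Pool.Agent.Helper59_LE.Gevg`
* `Pool.Agent.Helper69_LE.Nxi`
* `Pool.Agent.Helper76_LE.Smp`
* `Pool.Agent.Helper77_LE.Subx`
* `Pool.Agent.Helper96_LE.AllR`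
-/

set_option autoImplicit false

section -- Pool.Agent.Helper15_LE.CAU

/-!
# Row CAU: `D(a, a + ℓ y) / ℓ` is a Cauchy sequence in L², in the limit of large cubes
-/

set_option autoImplicit false

open MeasureTheory ProbabilityTheory Function Filter

open scoped ENNReal BigOperators Topology

noncomputable section

namespace Pool.Agent.LE.H15

open Pool.Agent.Anderson Pool.Agent.Loc Pool.Agent.Mob Pool.Agent.Helper54.Bal Pool.Agent.LE

variable {d : ℕ}

theorem sd_self_add (x y : Site d) : sd x (x + y) = sd 0 y := by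
  unfold sd
  congr 1
  funext i
  congr 1
  simp

theorem sd_sm_le {y : Site d} {K : ℕ} (ℓ : ℕ) (hy : sd 0 y ≤ K) : sd 0 (sm ℓ y) ≤ ℓ * K := by
  rw [sd_le_iff] at hy ⊢
  intro i
  have h := hy i
  simp only [Pi.zero_apply, zero_sub, abs_neg] at h ⊢
  unfold sm
  rw [abs_mul, Nat.abs_cast]
  push_cast
  exact mul_le_mul_of_nonneg_left h (Nat.cast_nonneg _)

theorem adm_XX {Ω : Type} [MeasurableSpace Ω] {P : Measure Ω} {C : ℝ} {N R K ℓ : ℕ}
    {D : Ω → Site d → Site d → ℝ} (hD : FamN d N P C D) {y : Site d} (hy : sd 0 y ≤ K)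
    (h : R + ℓ * K ≤ N) : Adm P R (XX D y ℓ) := by
  intro a ha
  rw [mem_box] at ha
  have h1 : a ∈ box (0 : Site d) N := by
    rw [mem_box]
    omega
  have h2 : a + sm ℓ y ∈ box (0 : Site d) N := by
    rw [mem_box]
    have := sd_triangle 0 a (a + sm ℓ y)
    rw [sd_self_add] at this
    have := sd_sm_le ℓ hy
    omega
  refine ⟨(hD.meas _ _).div_const _, ?_⟩
  have h3 : (fun ω => XX D y ℓ a ω ^ 2) = fun ω => D ω a (a + sm ℓ y) ^ 2 / (ℓ : ℝ) ^ 2 := by
    funext ω
    unfold XX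
    rw [div_pow]
  rw [h3]
  exact (hD.int _ h1 _ h2).div_const _

theorem nA_nonneg {Ω : Type} [MeasurableSpace Ω] (P : Measure Ω) (R : ℕ)
    (f : Site d → Ω → ℝ) : 0 ≤ nA P R f := Real.sqrt_nonneg _

theorem exists_lim (u : ℕ → ℝ) (M : ℝ)
    (h : ∀ᶠ N in (hyperfilter ℕ : Filter ℕ), 0 ≤ u N ∧ u N ≤ M) :
    ∃ x : ℝ, 0 ≤ x ∧ x ≤ M ∧ Tendsto u (hyperfilter ℕ : Filter ℕ) (𝓝 x) := by
  have hc : IsCompact (Set.Icc (0 : ℝ) M) := isCompact_Icc
  obtain ⟨x, hx, hle⟩ := hc.ultrafilter_le_nhds ((hyperfilter ℕ).map u) (by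
    rw [Filter.le_principal_iff]
    exact h)
  exact ⟨x, hx.1, hx.2, hle⟩

theorem ev_of_atTop {p : ℕ → Prop} (h : ∀ᶠ N in atTop, p N) :
    ∀ᶠ N in (hyperfilter ℕ : Filter ℕ), p N := by
  exact Nat.hyperfilter_le_atTop h

theorem ev_large (R₀ A : ℕ) : ∀ᶠ N : ℕ in (hyperfilter ℕ : Filter ℕ),
    R₀ ≤ N / 2 ∧ N / 2 + A ≤ N := by
  apply ev_of_atTop
  filter_upwards [eventually_ge_atTop (2 * R₀ + 2 * A + 2)] with N hN
  omega

/-- numbers -/
theorem num {β M e ε a b h s : ℝ} (he : 0 < e) (he1 : 196 * e ^ 2 ≤ ε ^ 2)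
    (he2 : 56 * e * M ≤ ε ^ 2) (hM : β ≤ M) (ha0 : 0 ≤ a) (hb0 : 0 ≤ b) (hh0 : 0 ≤ h)
    (ha : a ≤ β + 2 * e) (hb : b ≤ β + 2 * e) (hh : β - 5 * e ≤ h)
    (hs : s ^ 2 = 2 * a ^ 2 + 2 * b ^ 2 - 4 * h ^ 2) (hs0 : 0 ≤ s) (hε : 0 ≤ ε) : s ≤ ε := by
  have h1 : a ^ 2 ≤ (β + 2 * e) ^ 2 := pow_le_pow_left₀ ha0 ha 2
  have h2 : b ^ 2 ≤ (β + 2 * e) ^ 2 := pow_le_pow_left₀ hb0 hb 2
  apply abs_le_of_sq_le_sq' _ hε |>.2
  rw [hs]
  by_cases hc : 0 ≤ β - 5 * e
  · have h3 : (β - 5 * e) ^ 2 ≤ h ^ 2 := pow_le_pow_left₀ hc hh 2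
    have h4 : e * β ≤ e * M := mul_le_mul_of_nonneg_left hM he.le
    nlinarith only [sq_nonneg e, he2, h1, h2, h3, h4]
  · push_neg at hc
    have h3 : 0 ≤ β + 2 * e := ha0.trans ha
    have h4 : (β + 2 * e) ^ 2 ≤ (7 * e) ^ 2 := pow_le_pow_left₀ h3 (by linarith) 2
    nlinarith only [sq_nonneg h, he1, h1, h2, h4]

theorem cau_one (hS : SubXStmt) (hKey : KeyXStmt) (hN : NrmStmt) (d K : ℕ) (C : ℝ) (hC : 0 < C)
    (hK : 1 ≤ K) (Ω : Type) [MeasurableSpace Ω] (P : Measure Ω) [IsProbabilityMeasure P]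
    (D : ℕ → Ω → Site d → Site d → ℝ) (hD : ∀ N, FamN d N P C (D N)) (y : Site d)
    (hy : sd 0 y ≤ K) (ε : ℝ) (hε : 0 < ε) :
    ∀ᶠ l in atTop, ∀ ℓ ℓ' : ℕ, l ≤ ℓ → l ≤ ℓ' →
      ∀ᶠ N in (hyperfilter ℕ : Filter ℕ),
        nA P (N / 2) (fun a ω => XX (D N) y ℓ a ω - XX (D N) y ℓ' a ω) ≤ ε := by
  obtain ⟨M₁, hM₁, hS⟩ := hS d K C hC hK
  obtain ⟨M₂, hM₂, hKey⟩ := hKey d K C hC hK
  -- the limits
  have hlim : ∀ ℓ : ℕ, 1 ≤ ℓ → ∃ x : ℝ, 0 ≤ x ∧ x ≤ M₁ ∧
      Tendsto (fun N => nA P (N / 2) (XX (D N) y ℓ)) (hyperfilter ℕ : Filter ℕ) (𝓝 x) := by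
    intro ℓ hℓ
    obtain ⟨R₀, hR⟩ := hS ℓ 1 hℓ le_rfl
    apply exists_lim
    filter_upwards [ev_large R₀ (4 * K * (ℓ + 1))] with N hN'
    exact ⟨nA_nonneg _ _ _, (hR (N / 2) N hN'.1 hN'.2 Ω P (D N) (hD N) y hy).1⟩
  choose! x hx0 hxM hx using hlim
  have hsub : ∀ ℓ ℓ' : ℕ, 1 ≤ ℓ → 1 ≤ ℓ' →
      ((ℓ : ℝ) + ℓ') * x (ℓ + ℓ') ≤ ℓ * x ℓ + ℓ' * x ℓ' + M₁ := by
    intro ℓ ℓ' hℓ hℓ'
    obtain ⟨R₀, hR⟩ := hS ℓ ℓ' hℓ hℓ'
    refine le_of_tendsto_of_tendsto ((hx (ℓ + ℓ') (by omega)).const_mul _)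
      ((((hx ℓ hℓ).const_mul _).add ((hx ℓ' hℓ').const_mul _)).add_const _) ?_
    filter_upwards [ev_large R₀ (4 * K * (ℓ + ℓ'))] with N hN'
    exact (hR (N / 2) N hN'.1 hN'.2 Ω P (D N) (hD N) y hy).2
  -- Fekete
  have hu : Subadditive fun n : ℕ => n * x n + M₁ := by
    intro m n
    rcases Nat.eq_zero_or_pos m with rfl | hm
    · simp only [Nat.cast_zero, zero_mul, zero_add]
      linarith only [hM₁]
    rcases Nat.eq_zero_or_pos n with rfl | hn
    · simp only [Nat.cast_zero, zero_mul, zero_add, add_zero]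
      linarith
    have := hsub m n hm hn
    push_cast
    linarith only [this]
  have hbd : BddBelow (Set.range fun n : ℕ => (n * x n + M₁) / (n : ℝ)) := by
    refine ⟨0, ?_⟩
    rintro _ ⟨n, rfl⟩
    rcases Nat.eq_zero_or_pos n with rfl | hn
    · simp
    · have := hx0 n hn
      positivity
  obtain ⟨β, hβ⟩ : ∃ β : ℝ, Tendsto (fun n : ℕ => (n * x n + M₁) / (n : ℝ)) atTop (𝓝 β) :=
    ⟨_, hu.tendsto_lim hbd⟩
  have hxβ : Tendsto x atTop (𝓝 β) := by
    have h1 : Tendsto (fun n : ℕ => (n * x n + M₁) / (n : ℝ) - M₁ / n) atTop (𝓝 (β - 0)) :=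
      hβ.sub (tendsto_const_div_atTop_nhds_zero_nat M₁)
    rw [sub_zero] at h1
    refine h1.congr' ?_
    filter_upwards [eventually_ge_atTop 1] with n hn
    have : (n : ℝ) ≠ 0 := by
      have : 0 < n := hn
      positivity
    field_simp
    ring
  have hβM : β ≤ M₁ := by
    refine le_of_tendsto hxβ ?_
    filter_upwards [eventually_ge_atTop 1] with n hn
    exact hxM n hn
  -- the small number
  obtain ⟨e, he0, he1, he2⟩ : ∃ e : ℝ, 0 < e ∧ 196 * e ^ 2 ≤ ε ^ 2 ∧ 56 * e * M₁ ≤ ε ^ 2 := by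
    refine ⟨min (ε / 14) (ε ^ 2 / (56 * M₁)), by positivity, ?_, ?_⟩
    · have h1 : min (ε / 14) (ε ^ 2 / (56 * M₁)) ≤ ε / 14 := min_le_left _ _
      have h2 : 0 ≤ min (ε / 14) (ε ^ 2 / (56 * M₁)) := by positivity
      have h3 := pow_le_pow_left₀ h2 h1 2
      calc _ ≤ 196 * (ε / 14) ^ 2 := by linarith only [h3]
        _ = ε ^ 2 := by ring
    · have h1 : min (ε / 14) (ε ^ 2 / (56 * M₁)) ≤ ε ^ 2 / (56 * M₁) := min_le_right _ _
      calc 56 * min (ε / 14) (ε ^ 2 / (56 * M₁)) * M₁ ≤ 56 * (ε ^ 2 / (56 * M₁)) * M₁ := by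
            gcongr
        _ = ε ^ 2 := by field_simp
  have hev : ∀ᶠ l : ℕ in atTop, |x l - β| < e :=
    (Metric.tendsto_nhds.1 hxβ e he0).mono fun l hl => by rwa [Real.dist_eq] at hl
  obtain ⟨l₀, hl₀⟩ := eventually_atTop.1 hev
  have hM2 : ∀ᶠ l : ℕ in atTop, M₂ / (l : ℝ) < e :=
    (tendsto_const_div_atTop_nhds_zero_nat M₂).eventually (gt_mem_nhds he0)
  obtain ⟨l₁, hl₁⟩ := eventually_atTop.1 hM2
  filter_upwards [eventually_ge_atTop l₀, eventually_ge_atTop l₁, eventually_ge_atTop 1]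
    with l hl hl' hl1 ℓ ℓ' hℓ hℓ'
  have hℓ1 : 1 ≤ ℓ := hl1.trans hℓ
  have hℓ1' : 1 ≤ ℓ' := hl1.trans hℓ'
  have hLL : l ≤ ℓ * ℓ' := hℓ.trans (Nat.le_mul_of_pos_right _ hℓ1')
  have hLL1 : 1 ≤ ℓ * ℓ' := hl1.trans hLL
  have c1 := abs_lt.1 (hl₀ ℓ (hl.trans hℓ))
  have c2 := abs_lt.1 (hl₀ ℓ' (hl.trans hℓ'))
  have c3 := abs_lt.1 (hl₀ (ℓ * ℓ') (hl.trans hLL))
  have c4 := hl₁ ℓ (hl'.trans hℓ)
  have c5 := hl₁ ℓ' (hl'.trans hℓ')
  obtain ⟨R₀, hR⟩ := hKey ℓ ℓ' e hℓ1 hℓ1' he0
  have t1 : ∀ᶠ N in (hyperfilter ℕ : Filter ℕ), nA P (N / 2) (XX (D N) y ℓ) < β + 2 * e :=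
    (hx ℓ hℓ1).eventually (gt_mem_nhds (by linarith only [he0, c1]))
  have t2 : ∀ᶠ N in (hyperfilter ℕ : Filter ℕ), nA P (N / 2) (XX (D N) y ℓ') < β + 2 * e :=
    (hx ℓ' hℓ1').eventually (gt_mem_nhds (by linarith only [he0, c2]))
  have t3 : ∀ᶠ N in (hyperfilter ℕ : Filter ℕ),
      β - 2 * e < nA P (N / 2) (XX (D N) y (ℓ * ℓ')) :=
    (hx (ℓ * ℓ') hLL1).eventually (lt_mem_nhds (by linarith only [he0, c3]))
  filter_upwards [t1, t2, t3, ev_large R₀ (4 * K * (ℓ * ℓ')), ev_large 0 (ℓ * K),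
    ev_large 0 (ℓ' * K)] with N n1 n2 n3 n4 n5 n6
  have k1 := hR (N / 2) N n4.1 n4.2 Ω P (D N) (hD N) y hy
  have a1 : Adm P (N / 2) (XX (D N) y ℓ) := adm_XX (hD N) hy n5.2
  have a2 : Adm P (N / 2) (XX (D N) y ℓ') := adm_XX (hD N) hy n6.2
  have p1 := ((hN d Ω P (N / 2)).1 _ _ a1 a2).2.2
  refine num he0 he1 he2 hβM (nA_nonneg _ _ _) (nA_nonneg _ _ _) (nA_nonneg _ _ _) n1.le n2.le ?_
    p1 (nA_nonneg _ _ _) hε.le
  have k2 : M₂ * (1 / (ℓ : ℝ) + 1 / ℓ') ≤ 2 * e := by
    have : M₂ * (1 / (ℓ : ℝ) + 1 / ℓ') = M₂ / ℓ + M₂ / ℓ' := by ring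
    rw [this]
    linarith only [c4, c5]
  linarith only [n3, k1, k2]

theorem cau (hS : SubXStmt) (hKey : KeyXStmt) (hN : NrmStmt) : CauStmt := by
  intro d K C hC hK Ω _ P _ D hD ε hε
  have h : ∀ᶠ l in atTop, ∀ y ∈ box (0 : Site d) K, ∀ ℓ ℓ' : ℕ, l ≤ ℓ → l ≤ ℓ' →
      ∀ᶠ N in (hyperfilter ℕ : Filter ℕ),
        nA P (N / 2) (fun a ω => XX (D N) y ℓ a ω - XX (D N) y ℓ' a ω) ≤ ε := by
    rw [Filter.eventually_all_finset]
    intro y hy
    exact cau_one hS hKey hN d K C hC hK Ω P D hD y (mem_box.1 hy) ε hε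
  obtain ⟨l, hl, hl1⟩ := (h.and (eventually_ge_atTop 1)).exists
  refine ⟨l, hl1, fun ℓ ℓ' hℓ hℓ' => ?_⟩
  have h2 : ∀ᶠ N in (hyperfilter ℕ : Filter ℕ), ∀ y ∈ box (0 : Site d) K,
      nA P (N / 2) (fun a ω => XX (D N) y ℓ a ω - XX (D N) y ℓ' a ω) ≤ ε := by
    rw [Filter.eventually_all_finset]
    exact fun y hy => hl y hy ℓ ℓ' hℓ hℓ'
  filter_upwards [h2] with N hN' y hy
  exact hN' y (mem_box.2 hy)

end Pool.Agent.LE.H15
end
end -- Pool.Agent.Helper15_LE.CAU

section -- Pool.Agent.Helper15_LE.MSN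

/-!
# Row MSN: the numbers of the multiscale induction
-/

set_option autoImplicit false

open scoped BigOperators

noncomputable section

namespace Pool.Agent.LE.H15

open Pool.Agent.LE

theorem exp_neg_le (N : ℕ) {y : ℝ} (hy : 0 < y) :
    Real.exp (-y) ≤ (N.factorial : ℝ) / y ^ N := by
  have h := Real.pow_div_factorial_le_exp y hy.le N
  have hf : (0 : ℝ) < N.factorial := by exact_mod_cast N.factorial_pos
  have hyN : 0 < y ^ N := pow_pos hy N
  rw [Real.exp_neg, le_div_iff₀ hyN, inv_mul_le_iff₀ (Real.exp_pos _)]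
  rw [div_le_iff₀ hf] at h
  exact h

/-- exponential against polynomial, uniformly in `k` -/
theorem scales (C c : ℝ) (P : ℕ) (hC : 0 ≤ C) (hc : 0 < c) : ∃ L₀ : ℕ, ∀ L : ℕ, L₀ ≤ L →
    1 ≤ L → ∀ k : ℕ, C * (105 * (52 ^ k * (L : ℝ))) ^ P * Real.exp (-(4 ^ k * (c * L))) ≤ 1 := by
  obtain ⟨L₀, hL₀⟩ := exists_nat_ge (C * 105 ^ P * ((3 * P + 1).factorial : ℝ) / c ^ (3 * P + 1))
  refine ⟨L₀, fun L hL h1 k => ?_⟩
  have hL1 : (1 : ℝ) ≤ L := by exact_mod_cast h1
  have hLpos : (0 : ℝ) < L := by linarith only [hL1]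
  have hf : (0 : ℝ) < ((3 * P + 1).factorial : ℝ) := by exact_mod_cast Nat.factorial_pos _
  have hy : 0 < 4 ^ k * (c * (L : ℝ)) := by positivity
  have e1 := exp_neg_le (3 * P + 1) hy
  have h3 : C * (105 * (52 ^ k * (L : ℝ))) ^ P * Real.exp (-(4 ^ k * (c * L))) ≤
      C * (105 * (52 ^ k * (L : ℝ))) ^ P *
        (((3 * P + 1).factorial : ℝ) / (4 ^ k * (c * L)) ^ (3 * P + 1)) :=
    mul_le_mul_of_nonneg_left e1 (by positivity)
  refine h3.trans ?_
  have h4 : ((52 : ℝ) ^ k) ^ P ≤ (4 ^ k) ^ (3 * P + 1) := by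
    rw [← pow_mul, ← pow_mul]
    calc (52 : ℝ) ^ (k * P) ≤ 64 ^ (k * P) := pow_le_pow_left₀ (by norm_num) (by norm_num) _
      _ = 4 ^ (3 * (k * P)) := by rw [pow_mul (4 : ℝ) 3]; norm_num
      _ ≤ 4 ^ (k * (3 * P + 1)) := pow_le_pow_right₀ (by norm_num) (by
          have : k * (3 * P + 1) = 3 * (k * P) + k := by ring
          omega)
  have h5 : (L : ℝ) ^ P * L ≤ L ^ (3 * P + 1) := by
    rw [← pow_succ]
    exact pow_le_pow_right₀ hL1 (by omega)
  have h6 : C * 105 ^ P * ((3 * P + 1).factorial : ℝ) ≤ c ^ (3 * P + 1) * L := by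
    have h7 : C * 105 ^ P * ((3 * P + 1).factorial : ℝ) / c ^ (3 * P + 1) ≤ L :=
      hL₀.trans (by exact_mod_cast hL)
    rw [div_le_iff₀ (pow_pos hc _)] at h7
    linarith only [h7]
  rw [mul_div_assoc', div_le_one (by positivity)]
  calc C * (105 * (52 ^ k * (L : ℝ))) ^ P * ((3 * P + 1).factorial : ℝ)
      = (C * 105 ^ P * ((3 * P + 1).factorial : ℝ)) * ((52 ^ k) ^ P * (L : ℝ) ^ P) := by
        rw [mul_pow, mul_pow]; ring
    _ ≤ (c ^ (3 * P + 1) * L) * ((4 ^ k) ^ (3 * P + 1) * (L : ℝ) ^ P) :=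
        mul_le_mul h6 (mul_le_mul_of_nonneg_right h4 (by positivity)) (by positivity)
          (by positivity)
    _ = c ^ (3 * P + 1) * (4 ^ k) ^ (3 * P + 1) * ((L : ℝ) ^ P * L) := by ring
    _ ≤ c ^ (3 * P + 1) * (4 ^ k) ^ (3 * P + 1) * (L : ℝ) ^ (3 * P + 1) :=
        mul_le_mul_of_nonneg_left h5 (by positivity)
    _ = (4 ^ k * (c * L)) ^ (3 * P + 1) := by rw [mul_pow, mul_pow]; ring

/-- exponential against polynomial for large `k` -/
theorem large (L c : ℝ) (A : ℕ) (hL : 1 ≤ L) (hc : 0 < c) : ∃ k₀ : ℕ, ∀ k : ℕ, k₀ ≤ k →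
    Real.exp (-(2 ^ k * c)) ≤ ((52 ^ k * L) ^ A)⁻¹ := by
  obtain ⟨k₀, hk₀⟩ := exists_nat_ge (L ^ A * ((6 * A + 1).factorial : ℝ) / c ^ (6 * A + 1))
  refine ⟨k₀, fun k hk => ?_⟩
  have hLpos : (0 : ℝ) < L := by linarith only [hL]
  have hf : (0 : ℝ) < ((6 * A + 1).factorial : ℝ) := by exact_mod_cast Nat.factorial_pos _
  have hy : 0 < 2 ^ k * c := by positivity
  refine (exp_neg_le (6 * A + 1) hy).trans ?_
  rw [← one_div, div_le_div_iff₀ (by positivity) (by positivity), one_mul]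
  have h4 : ((52 : ℝ) ^ k) ^ A * 2 ^ k ≤ (2 ^ k) ^ (6 * A + 1) := by
    have h5 : ((52 : ℝ) ^ k) ^ A ≤ (2 ^ k) ^ (6 * A) := by
      rw [← pow_mul, ← pow_mul]
      calc (52 : ℝ) ^ (k * A) ≤ 64 ^ (k * A) := pow_le_pow_left₀ (by norm_num) (by norm_num) _
        _ = 2 ^ (k * (6 * A)) := by
            rw [show k * (6 * A) = 6 * (k * A) by ring, pow_mul (2 : ℝ) 6]; norm_num
    calc ((52 : ℝ) ^ k) ^ A * 2 ^ k ≤ (2 ^ k) ^ (6 * A) * 2 ^ k :=
          mul_le_mul_of_nonneg_right h5 (by positivity)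
      _ = (2 ^ k) ^ (6 * A + 1) := (pow_succ _ _).symm
  have h6 : L ^ A * ((6 * A + 1).factorial : ℝ) ≤ 2 ^ k * c ^ (6 * A + 1) := by
    have h7 : L ^ A * ((6 * A + 1).factorial : ℝ) / c ^ (6 * A + 1) ≤ k :=
      hk₀.trans (by exact_mod_cast hk)
    rw [div_le_iff₀ (pow_pos hc _)] at h7
    refine h7.trans (mul_le_mul_of_nonneg_right ?_ (by positivity))
    have : k < 2 ^ k := Nat.lt_two_pow_self
    exact_mod_cast this.le
  calc ((6 * A + 1).factorial : ℝ) * (52 ^ k * L) ^ A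
      = (52 ^ k) ^ A * (L ^ A * ((6 * A + 1).factorial : ℝ)) := by rw [mul_pow]; ring
    _ ≤ (52 ^ k) ^ A * (2 ^ k * c ^ (6 * A + 1)) :=
        mul_le_mul_of_nonneg_left h6 (by positivity)
    _ = ((52 ^ k) ^ A * 2 ^ k) * c ^ (6 * A + 1) := by ring
    _ ≤ (2 ^ k) ^ (6 * A + 1) * c ^ (6 * A + 1) :=
        mul_le_mul_of_nonneg_right h4 (by positivity)
    _ = (2 ^ k * c) ^ (6 * A + 1) := by rw [mul_pow]

theorem msn : MsnStmt := by
  intro d ρ m hρ hm
  obtain ⟨L₁, h1⟩ := scales ((2 * d) ^ 2) (m / 4) (2 * d) (by positivity) (by positivity)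
  obtain ⟨L₂, h2⟩ := scales (6 * ρ * (4 * 209 ^ (2 * d))) (m / 8) (3 * d + 1) (by positivity)
    (by positivity)
  obtain ⟨L₃, h3⟩ := exists_nat_ge (16 / m)
  refine ⟨L₁ + L₂ + L₃ + 1, fun L hL => ?_⟩
  have hL1 : 1 ≤ L := by omega
  have hLr : (1 : ℝ) ≤ L := by exact_mod_cast hL1
  have hmL : 16 ≤ m * L := by
    have h4 : 16 / m ≤ L := h3.trans (by exact_mod_cast (by omega : L₃ ≤ L))
    rw [div_le_iff₀ hm] at h4
    linarith only [h4]
  refine ⟨hL1, fun k => ⟨?_, ?_⟩, fun A => ?_⟩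
  · have := h1 L (by omega) hL1 k
    have e : -(4 ^ k * (m * (L : ℝ))) / 4 = -(4 ^ k * (m / 4 * L)) := by ring
    rw [e]
    exact this
  · have h5 := h2 L (by omega) hL1 k
    have hexp : Real.exp (-(4 ^ k * (m * (L : ℝ))) / 4) ≤
        Real.exp (-(4 ^ k * (m / 8 * L))) * (1 / 2) ^ (2 ^ (k + 1)) := by
      have e2 : ((1 : ℝ) / 2) ^ (2 ^ (k + 1)) = Real.exp (-(Real.log 2 * 2 ^ (k + 1))) := by
        rw [one_div, inv_pow, Real.exp_neg, mul_comm, ← Nat.cast_ofNat (R := ℝ) (n := 2)]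
        rw [show ((2 : ℕ) : ℝ) ^ (k + 1) = ((2 ^ (k + 1) : ℕ) : ℝ) by push_cast; ring,
          Real.exp_nat_mul, Real.exp_log (by norm_num)]
      rw [e2, ← Real.exp_add, Real.exp_le_exp]
      have hlog : Real.log 2 ≤ 1 := by
        have := Real.log_le_sub_one_of_pos (show (0 : ℝ) < 2 by norm_num)
        linarith only [this]
      have h24 : (2 : ℝ) ^ (k + 1) ≤ 2 * 4 ^ k := by
        rw [pow_succ, mul_comm]
        have : (2 : ℝ) ^ k ≤ 4 ^ k := pow_le_pow_left₀ (by norm_num) (by norm_num) _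
        linarith only [this]
      have h6 : Real.log 2 * 2 ^ (k + 1) ≤ 1 * (2 * 4 ^ k) :=
        mul_le_mul hlog h24 (by positivity) (by norm_num)
      have h7 : (0 : ℝ) < 4 ^ k := by positivity
      nlinarith only [hmL, h6, h7]
    have hq : (0 : ℝ) < 4 * 209 ^ (2 * d) := by positivity
    calc 6 * ρ * (105 * (52 ^ k * (L : ℝ))) ^ (3 * d + 1) *
          Real.exp (-(4 ^ k * (m * (L : ℝ))) / 4)
        ≤ 6 * ρ * (105 * (52 ^ k * (L : ℝ))) ^ (3 * d + 1) *
          (Real.exp (-(4 ^ k * (m / 8 * L))) * (1 / 2) ^ (2 ^ (k + 1))) :=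
          mul_le_mul_of_nonneg_left hexp (by positivity)
      _ = 1 / (4 * 209 ^ (2 * d)) * (6 * ρ * (4 * 209 ^ (2 * d)) *
            (105 * (52 ^ k * (L : ℝ))) ^ (3 * d + 1) * Real.exp (-(4 ^ k * (m / 8 * L)))) *
            (1 / 2) ^ (2 ^ (k + 1)) := by
          field_simp
      _ ≤ 1 / (4 * 209 ^ (2 * d)) * 1 * (1 / 2) ^ (2 ^ (k + 1)) := by
          refine mul_le_mul_of_nonneg_right (mul_le_mul_of_nonneg_left h5 (by positivity))
            (by positivity)
      _ = 1 / (4 * 209 ^ (2 * d)) * (1 / 2) ^ (2 ^ (k + 1)) := by rw [mul_one]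
  · obtain ⟨k₁, g1⟩ := large L (Real.log 2) A hLr (Real.log_pos (by norm_num))
    obtain ⟨k₂, g2⟩ := large L (m * L) A hLr (by positivity)
    have hrp : ∀ k : ℕ, (((52 ^ k * L : ℕ) : ℝ)) ^ (-(A : ℝ)) = ((52 ^ k * (L : ℝ)) ^ A)⁻¹ := by
      intro k
      rw [Real.rpow_neg (by positivity), Real.rpow_natCast]
      push_cast
      rfl
    refine ⟨k₁ + k₂ + A, ?_, ?_, ?_⟩
    · have h5 : A < 52 ^ A := Nat.lt_pow_self (by norm_num)
      calc A ≤ 52 ^ A := h5.le
        _ ≤ 52 ^ (k₁ + k₂ + A) := Nat.pow_le_pow_right (by norm_num) (by omega)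
        _ ≤ 52 ^ (k₁ + k₂ + A) * L := Nat.le_mul_of_pos_right _ (by omega)
    · rw [hrp]
      have h5 := g1 (k₁ + k₂ + A) (by omega)
      have e2 : ((1 : ℝ) / 2) ^ (2 ^ (k₁ + k₂ + A)) =
          Real.exp (-(2 ^ (k₁ + k₂ + A) * Real.log 2)) := by
        rw [one_div, inv_pow, Real.exp_neg, ← Nat.cast_ofNat (R := ℝ) (n := 2)]
        rw [show ((2 : ℕ) : ℝ) ^ (k₁ + k₂ + A) = ((2 ^ (k₁ + k₂ + A) : ℕ) : ℝ) by push_cast; ring,
          Real.exp_nat_mul, Real.exp_log (by norm_num)]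
      rw [e2]
      exact h5
    · rw [hrp]
      refine le_trans ?_ (g2 (k₁ + k₂ + A) (by omega))
      rw [Real.exp_le_exp]
      have h6 : (2 : ℝ) ^ (k₁ + k₂ + A) ≤ 4 ^ (k₁ + k₂ + A) :=
        pow_le_pow_left₀ (by norm_num) (by norm_num) _
      have h7 : 0 < m * (L : ℝ) := by positivity
      nlinarith only [hmL, h6]

end Pool.Agent.LE.H15
end
end -- Pool.Agent.Helper15_LE.MSN

section -- Pool.Agent.Helper15_LE.NOE

/-!
# Row NOE: from the site `0` and fixed constants to all exponentially decaying eigenfunctions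
-/

set_option autoImplicit false

open MeasureTheory Function

open scoped ENNReal BigOperators

noncomputable section

namespace Pool.Agent.LE.H15

open Pool.Agent.Anderson Pool.Agent.Loc Pool.Agent.Helper54.Bal
  Pool.Agent.Helper96.EXP Pool.Agent.LE

variable {d : ℕ}

theorem sd_add_right (x y : Site d) : sd (x + y) x = sd 0 y := by
  rw [sd_comm 0 y]
  unfold sd
  congr 1
  funext i
  congr 1
  simp

/-- a real solution which does not vanish at `y` gives a normalised solution of the translated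
potential -/
theorem sol_of_real {V : Site d → ℝ} {E B m : ℝ} (hm : 0 < m) {φ : Site d → ℝ}
    (h : ∀ x, lapR φ x + V x * φ x = E * φ x) (hd : ∀ x, |φ x| ≤ B * Real.exp (-m * sd 0 x))
    {y : Site d} (hy : φ y ≠ 0) :
    ∃ C : ℝ, ∃ n : Site d → ℝ, Sol C m (tau y V) E n ∧ lapR n 0 + tau y V 0 = E := by
  have hB : 0 ≤ B := by
    have h1 := (abs_nonneg _).trans (hd 0)
    have h2 := Real.exp_pos (-m * sd (0 : Site d) 0)
    by_contra hc
    push Not at hc
    nlinarith only [h1, h2, hc]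
  have hn0 : φ (0 + y) / φ y = 1 := by rw [zero_add]; exact div_self hy
  have hlap : ∀ x, lapR (fun x => φ (x + y) / φ y) x = lapR φ (x + y) / φ y := by
    intro x
    unfold lapR
    rw [Finset.sum_div]
    refine Finset.sum_congr rfl fun i _ => ?_
    have e1 : x + Pi.single i 1 + y = x + y + Pi.single i 1 := by abel
    have e2 : x - Pi.single i 1 + y = x + y - Pi.single i 1 := by abel
    beta_reduce
    rw [e1, e2, add_div]
  have heq : ∀ x, lapR (fun x => φ (x + y) / φ y) x + tau y V x * (φ (x + y) / φ y) =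
      E * (φ (x + y) / φ y) := by
    intro x
    rw [hlap]
    have := h (x + y)
    unfold tau
    rw [← mul_div_assoc, ← add_div, this, mul_div_assoc]
  refine ⟨B * Real.exp (m * sd 0 y) / |φ y|, fun x => φ (x + y) / φ y, ⟨hn0, ?_, fun x _ => heq x⟩,
    ?_⟩
  · intro x
    have h1 : |φ (x + y) / φ y| ≤ B * Real.exp (-m * sd 0 (x + y)) / |φ y| := by
      rw [abs_div]
      exact div_le_div_of_nonneg_right (hd _) (abs_nonneg _)
    have h2 : (sd 0 x : ℝ) ≤ sd 0 (x + y) + sd 0 y := by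
      have := sd_triangle 0 (x + y) x
      rw [sd_add_right] at this
      exact_mod_cast this
    have h3 : Real.exp (-m * sd 0 (x + y)) ≤ Real.exp (m * sd 0 y) * Real.exp (-m * sd 0 x) := by
      rw [← Real.exp_add, Real.exp_le_exp]
      nlinarith only [hm, h2]
    refine h1.trans ?_
    rw [div_mul_eq_mul_div]
    refine div_le_div_of_nonneg_right ?_ (abs_nonneg _)
    calc B * Real.exp (-m * sd 0 (x + y)) ≤ B * (Real.exp (m * sd 0 y) * Real.exp (-m * sd 0 x)) :=
          mul_le_mul_of_nonneg_left h3 hB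
      _ = B * Real.exp (m * sd 0 y) * Real.exp (-m * sd 0 x) := by ring
  · have := heq 0
    rw [hn0, mul_one, mul_one] at this
    exact this

/-- larger constants -/
theorem sol_mono {V : Site d → ℝ} {E C m C' m' : ℝ} {n : Site d → ℝ} (h : Sol C m V E n)
    (hC : C ≤ C') (hm : m' ≤ m) : Sol C' m' V E n := by
  obtain ⟨h1, h2, h3⟩ := h
  refine ⟨h1, fun x => ?_, h3⟩
  have h0 := h2.nonneg
  refine (h2 x).trans ?_
  have h4 : Real.exp (-m * sd 0 x) ≤ Real.exp (-m' * sd 0 x) := by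
    rw [Real.exp_le_exp]
    have : (0 : ℝ) ≤ sd 0 x := by positivity
    nlinarith only [hm]
  exact mul_le_mul hC h4 (Real.exp_pos _).le (h0.trans hC)

theorem noe : NoeStmt := by
  intro d ν _ D hD hnull
  have h1 : ∀ p : Site d × ℕ × ℕ, ∀ᵐ V ∂(PP d ν), ¬ (∃ E ∈ D ∩ Set.Icc (-(p.2.1 : ℝ)) p.2.1,
      ∃ n, Sol (p.2.1 : ℝ) (1 / ((p.2.2 : ℝ) + 1)) (tau p.1 V) E n ∧
        lapR n 0 + tau p.1 V 0 = E) := by
    rintro ⟨y, k, j⟩
    have h2 := hnull (k : ℝ) (1 / ((j : ℝ) + 1)) (D ∩ Set.Icc (-(k : ℝ)) k) (by positivity)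
      (isCompact_Icc.inter_left hD) Set.inter_subset_left
    have h3 := (shiftInv_PP (d := d) ν y).quasiMeasurePreserving.preimage_null h2
    rw [ae_iff]
    simp only [not_not]
    exact h3
  have h2 := ae_all_iff.2 h1
  filter_upwards [h2] with V hV E hE ψ hψ hdec x
  obtain ⟨B, m, hm, hB⟩ := hdec
  by_contra hx
  have key : ∀ φ : Site d → ℝ, (∀ x, lapR φ x + V x * φ x = E * φ x) →
      (∀ x, |φ x| ≤ B * Real.exp (-m * sd 0 x)) → φ x ≠ 0 → False := by
    intro φ e1 e2 e3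
    obtain ⟨C, n, s1, s2⟩ := sol_of_real hm e1 e2 e3
    obtain ⟨k, hk⟩ := exists_nat_ge (max C |E|)
    obtain ⟨j, hj⟩ := exists_nat_one_div_lt hm
    refine hV (x, k, j) ⟨E, ⟨hE, ?_⟩, n, sol_mono s1 ((le_max_left _ _).trans hk) hj.le, s2⟩
    have := (le_max_right _ _).trans hk
    exact abs_le.1 this
  have hre : ∀ y, (lap ψ y).re = lapR (fun z => (ψ z).re) y := by
    intro y
    unfold lap lapR
    rw [Complex.re_sum]
    exact Finset.sum_congr rfl fun i _ => Complex.add_re _ _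
  have him : ∀ y, (lap ψ y).im = lapR (fun z => (ψ z).im) y := by
    intro y
    unfold lap lapR
    rw [Complex.im_sum]
    exact Finset.sum_congr rfl fun i _ => Complex.add_im _ _
  rcases Complex.ext_iff.not.1 hx with hx'
  rw [Complex.zero_re, Complex.zero_im, not_and_or] at hx'
  rcases hx' with h | h
  · refine key (fun z => (ψ z).re) ?_ ?_ h
    · intro y
      have := congrArg Complex.re (hψ y)
      rw [Complex.add_re, Complex.re_ofReal_mul, Complex.re_ofReal_mul, hre] at this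
      exact this
    · intro y
      exact (Complex.abs_re_le_norm _).trans (hB y)
  · refine key (fun z => (ψ z).im) ?_ ?_ h
    · intro y
      have := congrArg Complex.im (hψ y)
      rw [Complex.add_im, Complex.im_ofReal_mul, Complex.im_ofReal_mul, him] at this
      exact this
    · intro y
      exact (Complex.abs_im_le_norm _).trans (hB y)

end Pool.Agent.LE.H15
end
end -- Pool.Agent.Helper15_LE.NOE

section -- Pool.Agent.Helper17_LE.Zer

/-!
# Row ZER: the zero-one law, negative part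
-/

set_option autoImplicit false

open MeasureTheory ProbabilityTheory Function

open scoped ENNReal BigOperators

noncomputable section

namespace Pool.Agent.LE.H17

open Pool.Agent.Anderson Pool.Agent.Loc Pool.Agent.Mob Pool.Agent.Helper54.Bal Pool.Agent.LE

/-- ZER -/
theorem zer (con : ConStmt) (msa : MsaStmt) : ZerStmt := by
  intro d C₀ σ E κ δ hd hC hσ hE hκ hδ L₁
  by_contra h
  push Not at h
  obtain ⟨p, hp, L₀, hmsa⟩ := msa d C₀ σ E (κ / 2) hC hσ (by positivity)
  obtain ⟨L, hL, hP⟩ := con d σ E κ δ p hd hσ hκ hδ hp ⟨L₁, h⟩ L₀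
  exact hE (hmsa L hL hP)

end Pool.Agent.LE.H17
end
end -- Pool.Agent.Helper17_LE.Zer

section -- Pool.Agent.Helper28_LE.Pho

/-!
# Pure pigeonhole over scales (row PHO)
-/

set_option autoImplicit false

namespace Pool.Agent.LE.H28

open Finset

/-- one sequence: the `j < n` with a large drop over `q` steps are few. -/
theorem drop_count {B eps : ℝ} (heps : 0 < eps) (q n : ℕ) {H : ℕ → ℝ}
    (hm : ∀ j, j < n + q → H (j + 1) ≤ H j) (hB : ∀ j, j ≤ n + q → |H j| ≤ B) :
    (((range n).filter fun j => eps < H j - H (j + q)).card : ℝ) * eps ≤ 2 * B * q := by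
  classical
  have hanti : ∀ i j, i ≤ j → j ≤ n + q → H j ≤ H i := by
    intro i j hij
    induction j, hij using Nat.le_induction with
    | base => intro _; exact le_refl _
    | succ j hij ih =>
      intro hj
      exact (hm j (by omega)).trans (ih (by omega))
  have h0 : (((range n).filter fun j => eps < H j - H (j + q)).card : ℝ) * eps ≤
      ∑ j ∈ range n, (H j - H (j + q)) := by
    calc (((range n).filter fun j => eps < H j - H (j + q)).card : ℝ) * eps
        = ∑ _j ∈ (range n).filter (fun j => eps < H j - H (j + q)), eps := by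
          rw [sum_const, nsmul_eq_mul]
      _ ≤ ∑ j ∈ (range n).filter (fun j => eps < H j - H (j + q)), (H j - H (j + q)) := by
          apply sum_le_sum
          intro j hj
          exact (mem_filter.1 hj).2.le
      _ ≤ _ := by
          apply sum_le_sum_of_subset_of_nonneg (filter_subset _ _)
          intro j hj _
          have hjn : j < n := mem_range.1 hj
          have := hanti j (j + q) (by omega) (by omega)
          linarith only [this]
  have h1 : ∀ m : ℕ, m ≤ n → ∑ j ∈ range m, (H j - H (j + q)) =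
      ∑ j ∈ range q, (H j - H (m + j)) := by
    intro m
    induction m with
    | zero => intro _; simp
    | succ m ih =>
      intro hm'
      rw [sum_range_succ, ih (by omega)]
      have : ∀ k : ℕ, (∑ j ∈ range k, (H j - H (m + j))) + (H m - H (m + k)) =
          ∑ j ∈ range k, (H j - H (m + 1 + j)) := by
        intro k
        induction k with
        | zero => simp
        | succ k ihk =>
          rw [sum_range_succ, sum_range_succ, ← ihk,
            show m + 1 + k = m + (k + 1) by ring]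
          ring
      rw [← this q, show m + q = m + q from rfl]
  have h2 : ∑ j ∈ range n, (H j - H (j + q)) ≤ 2 * B * q := by
    rw [h1 n le_rfl]
    calc ∑ j ∈ range q, (H j - H (n + j)) ≤ ∑ _j ∈ range q, 2 * B := by
          apply sum_le_sum
          intro j hj
          have hj' : j < q := mem_range.1 hj
          have a := abs_le.1 (hB j (by omega))
          have b := abs_le.1 (hB (n + j) (by omega))
          linarith only [a.2, b.1]
      _ = 2 * B * q := by rw [sum_const, card_range, nsmul_eq_mul]; ring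
  exact h0.trans h2

/-- one sequence: the `j < n` with a large decrement are few. -/
theorem decr_count {B eps : ℝ} (heps : 0 < eps) (n : ℕ) {S v : ℕ → ℝ}
    (hv : ∀ j, j < n → 0 ≤ v j)
    (hm : ∀ j, j < n → S (j + 1) ≤ S j - v j / 4) (hB : ∀ j, j ≤ n → |S j| ≤ B) :
    (((range n).filter fun j => eps < v j).card : ℝ) * eps ≤ 8 * B := by
  classical
  have h0 : (((range n).filter fun j => eps < v j).card : ℝ) * eps ≤ ∑ j ∈ range n, v j := by
    calc (((range n).filter fun j => eps < v j).card : ℝ) * eps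
        = ∑ _j ∈ (range n).filter (fun j => eps < v j), eps := by
          rw [sum_const, nsmul_eq_mul]
      _ ≤ ∑ j ∈ (range n).filter (fun j => eps < v j), v j := by
          apply sum_le_sum
          intro j hj
          exact (mem_filter.1 hj).2.le
      _ ≤ _ := by
          apply sum_le_sum_of_subset_of_nonneg (filter_subset _ _)
          intro j hj _
          exact hv j (mem_range.1 hj)
  have h1 : ∀ m : ℕ, m ≤ n → ∑ j ∈ range m, v j ≤ 4 * (S 0 - S m) := by
    intro m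
    induction m with
    | zero => intro _; simp
    | succ m ih =>
      intro hm'
      rw [sum_range_succ]
      have := ih (by omega)
      have := hm m (by omega)
      linarith
  have h2 := h1 n le_rfl
  have a := abs_le.1 (hB 0 (by omega))
  have b := abs_le.1 (hB n le_rfl)
  linarith only [a.2, b.1, h0, h2]

/-- PHO: the pigeonhole over scales. The hypotheses are needed only for the scales up to `J + q`. -/
theorem pho (B eps : ℝ) (heps : 0 < eps) (N q : ℕ) : ∃ J : ℕ,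
    ∀ {ι : Type*} (F : Finset ι), F.card ≤ N → ∀ (h s v : ι → ℕ → ℝ) (e : ℕ → ℝ),
      (∀ j, 0 ≤ e j) → (∑ j ∈ range (J + q + 1), e j ≤ B) →
      (∀ i ∈ F, ∀ j, j ≤ J → 0 ≤ v i j) →
      (∀ i ∈ F, ∀ j, j ≤ J + q → h i (j + 1) ≤ h i j + e j) →
      (∀ i ∈ F, ∀ j, j ≤ J + q + 1 → |h i j| ≤ B) →
      (∀ i ∈ F, ∀ j, j ≤ J → s i (j + 1) ≤ s i j - v i j / 4 + e j) →
      (∀ i ∈ F, ∀ j, j ≤ J + 1 → |s i j| ≤ B) →
      ∃ j, j ≤ J ∧ ∀ i ∈ F, h i j - h i (j + q) ≤ eps ∧ v i j ≤ eps := by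
  classical
  obtain ⟨J, hJ⟩ := exists_nat_gt (N * (4 * B * q + 16 * B) / eps)
  refine ⟨J, ?_⟩
  intro ι F hF h s v e he hesum hv hh hhB hs hsB
  set E : ℕ → ℝ := fun j => ∑ k ∈ range j, e k with hE
  have hEnn : ∀ j, 0 ≤ E j := fun j => sum_nonneg fun k _ => he k
  have hEmono : ∀ i j, i ≤ j → E i ≤ E j := by
    intro i j hij
    exact sum_le_sum_of_subset_of_nonneg (range_subset_range.2 hij) fun k _ _ => he k
  have hEB : ∀ j, j ≤ J + q + 1 → E j ≤ B := fun j hj => (hEmono _ _ hj).trans hesum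
  have hB0 : 0 ≤ B := (hEnn 0).trans (hEB 0 (by omega))
  have hEs : ∀ j, E (j + 1) = E j + e j := fun j => sum_range_succ _ _
  -- the bad scales of one member of the family
  have key : ∀ i ∈ F, (((range (J + 1)).filter fun j =>
      ¬ (h i j - h i (j + q) ≤ eps ∧ v i j ≤ eps)).card : ℝ) * eps ≤ 4 * B * q + 16 * B := by
    intro i hi
    have k1 := drop_count (B := 2 * B) heps q (J + 1) (H := fun j => h i j - E j)
      (fun j hj => by
        have := hh i hi j (by omega)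
        simp only [hEs]
        linarith only [this])
      (fun j hj => by
        have a := abs_le.1 (hhB i hi j (by omega))
        have b := hEnn j
        have c := hEB j (by omega)
        rw [abs_le]
        constructor <;> linarith [a.1, a.2])
    have k2 := decr_count (B := 2 * B) heps (J + 1) (S := fun j => s i j - E j) (v := v i)
      (fun j hj => hv i hi j (by omega))
      (fun j hj => by
        have := hs i hi j (by omega)
        simp only [hEs]
        linarith only [this])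
      (fun j hj => by
        have a := abs_le.1 (hsB i hi j (by omega))
        have b := hEnn j
        have c := hEB j (by omega)
        rw [abs_le]
        constructor <;> linarith [a.1, a.2])
    have k3 : ((range (J + 1)).filter fun j =>
        ¬ (h i j - h i (j + q) ≤ eps ∧ v i j ≤ eps)) ⊆
        ((range (J + 1)).filter fun j => eps < (h i j - E j) - (h i (j + q) - E (j + q))) ∪
        ((range (J + 1)).filter fun j => eps < v i j) := by
      intro j hj
      rw [mem_filter] at hj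
      rw [mem_union, mem_filter, mem_filter]
      by_cases hvj : eps < v i j
      · exact Or.inr ⟨hj.1, hvj⟩
      · left
        refine ⟨hj.1, ?_⟩
        have h1 : ¬ (h i j - h i (j + q) ≤ eps) := fun h1 => hj.2 ⟨h1, not_lt.1 hvj⟩
        have h2 := hEmono j (j + q) (by omega)
        push_neg at h1
        linarith only [h2, h1]
    have k4 : (((range (J + 1)).filter fun j =>
        ¬ (h i j - h i (j + q) ≤ eps ∧ v i j ≤ eps)).card : ℝ) ≤
        (((range (J + 1)).filter fun j =>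
          eps < (h i j - E j) - (h i (j + q) - E (j + q))).card : ℝ) +
        (((range (J + 1)).filter fun j => eps < v i j).card : ℝ) := by
      exact_mod_cast (card_le_card k3).trans (card_union_le _ _)
    have k5 := mul_le_mul_of_nonneg_right k4 heps.le
    rw [add_mul] at k5
    have k1' : (((range (J + 1)).filter fun j =>
          eps < (h i j - E j) - (h i (j + q) - E (j + q))).card : ℝ) * eps ≤ 2 * (2 * B) * q := k1
    linarith only [k1, k2, k5]
  by_contra hcon
  push_neg at hcon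
  have hsub : range (J + 1) ⊆ F.biUnion fun i => (range (J + 1)).filter fun j =>
      ¬ (h i j - h i (j + q) ≤ eps ∧ v i j ≤ eps) := by
    intro j hj
    rw [mem_biUnion]
    obtain ⟨i, hi, hi2⟩ := hcon j (by have := mem_range.1 hj; omega)
    refine ⟨i, hi, ?_⟩
    rw [mem_filter]
    refine ⟨hj, fun hc => ?_⟩
    exact absurd hc.2 (not_le.2 (hi2 hc.1))
  have hcard : ((J + 1 : ℕ) : ℝ) ≤ ∑ i ∈ F, (((range (J + 1)).filter fun j =>
      ¬ (h i j - h i (j + q) ≤ eps ∧ v i j ≤ eps)).card : ℝ) := by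
    have h1 := (card_le_card hsub).trans card_biUnion_le
    rw [card_range] at h1
    exact_mod_cast h1
  have hfin : ((J + 1 : ℕ) : ℝ) * eps ≤ N * (4 * B * q + 16 * B) := by
    calc ((J + 1 : ℕ) : ℝ) * eps ≤ (∑ i ∈ F, (((range (J + 1)).filter fun j =>
          ¬ (h i j - h i (j + q) ≤ eps ∧ v i j ≤ eps)).card : ℝ)) * eps :=
          mul_le_mul_of_nonneg_right hcard heps.le
      _ = ∑ i ∈ F, (((range (J + 1)).filter fun j =>
          ¬ (h i j - h i (j + q) ≤ eps ∧ v i j ≤ eps)).card : ℝ) * eps := by rw [sum_mul]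
      _ ≤ ∑ _i ∈ F, (4 * B * q + 16 * B) := sum_le_sum key
      _ = F.card * (4 * B * q + 16 * B) := by rw [sum_const, nsmul_eq_mul]
      _ ≤ N * (4 * B * q + 16 * B) := by
          apply mul_le_mul_of_nonneg_right (by exact_mod_cast hF)
          positivity
  rw [div_lt_iff₀ heps] at hJ
  have : ((J + 1 : ℕ) : ℝ) = (J : ℝ) + 1 := by push_cast; ring
  rw [this] at hfin
  nlinarith only [heps, hJ, hfin]

end Pool.Agent.LE.H28
end -- Pool.Agent.Helper28_LE.Pho

section -- Pool.Agent.Helper28_LE.PhoA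

/-!
# PHO in the form of `StmtsA`
-/

set_option autoImplicit false

namespace Pool.Agent.LE.H28A

theorem pho : PhoStmt := by
  intro B ε N q _ hε
  obtain ⟨J, hJ⟩ := Pool.Agent.LE.H28.pho B ε hε N q
  refine ⟨J, fun ι F hF h s v e hh hhB hs hsB hv he hsum => ?_⟩
  obtain ⟨j, hj, hj2⟩ := hJ F hF h s v e he (hsum _) (fun i hi j _ => hv i hi j)
    (fun i hi j _ => hh i hi j) (fun i hi j _ => hhB i hi j) (fun i hi j _ => hs i hi j)
    (fun i hi j _ => hsB i hi j)
  exact ⟨j, hj, hj2⟩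

end Pool.Agent.LE.H28A
end -- Pool.Agent.Helper28_LE.PhoA

section -- Pool.Agent.Helper42_LE.Msa

/-!
# MSA: a small constant probability of failure implies localization
-/

set_option autoImplicit false
set_option linter.unusedSectionVars false

open MeasureTheory ProbabilityTheory Function

open scoped ENNReal BigOperators

noncomputable section

namespace Pool.Agent.LE.H42

open Pool.Agent.Anderson Pool.Agent.Loc Pool.Agent.Mob Pool.Agent.Helper54.Bal
  Pool.Agent.Mob.H75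

variable {d : ℕ}

theorem allGoodC_congr {V V' : Site d → ℝ} {a : Site d} {L : ℕ} {m E : ℝ}
    (h : ∀ x ∈ box a (2 * L), V x = V' x) : AllGoodC V a L m E ↔ AllGoodC V' a L m E := by
  unfold AllGoodC
  refine forall₂_congr fun s hs => ?_
  have h1 : ∀ x ∈ box s L, V x = V' x := by
    intro x hx
    apply h
    rw [mem_box] at hs hx ⊢
    have := sd_triangle a s x
    omega
  rw [RM_congr h1]
  simp only [gr_congr h1]

theorem msa (hMsp : MspStmt) (hMsn : MsnStmt) : MsaStmt := by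
  intro d C₀ σ E m hC hσ hm
  have hν := bddDens_gl hσ
  set ρ : ℝ := 1 / |σ| with hρdef
  have hρ : 0 < ρ := hν.1
  obtain ⟨L₀, hL₀⟩ := hMsn d ρ m hρ hm
  set B : ℝ := 209 ^ (2 * d) with hB
  have hB1 : 1 ≤ B := one_le_pow₀ (by norm_num)
  refine ⟨1 / (4 * B), by positivity, L₀, ?_⟩
  intro L hL hinit
  obtain ⟨hL1, hsmall, hlarge⟩ := hL₀ L hL
  have h52 : ∀ k : ℕ, 1 ≤ 52 ^ k * L := fun k =>
    Nat.succ_le_of_lt (Nat.mul_pos (pow_pos (by norm_num) k) hL1)
  have hcast : ∀ k : ℕ, ((52 ^ k * L : ℕ) : ℝ) = 52 ^ k * (L : ℝ) := fun k => by push_cast; ring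
  have hprod : ∀ k : ℕ, m / 13 ^ k * ((52 ^ k * L : ℕ) : ℝ) = 4 ^ k * (m * L) := by
    intro k
    rw [hcast]
    have h1 : (52 : ℝ) ^ k = 4 ^ k * 13 ^ k := by rw [← mul_pow]; norm_num
    rw [h1]
    field_simp
  -- the iteration
  have hiter : ∀ k : ℕ, PP d (gl σ) {V | ¬ AllGoodC V 0 (52 ^ k * L) (m / 13 ^ k) E} ≤
      ENNReal.ofReal (1 / (2 * B) * (1 / 2) ^ (2 ^ k)) := by
    intro k
    induction k with
    | zero =>
      rw [pow_zero, pow_zero, one_mul, div_one, pow_zero, pow_one]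
      refine (PP_le_PL (Λ := box (0 : Site d) (2 * L)) ?_).trans (hinit.trans (le_of_eq ?_))
      · intro V V' h
        exact not_congr (allGoodC_congr h)
      · congr 1
        field_simp
        norm_num
    | succ k ih =>
      obtain ⟨hs1, hs2⟩ := hsmall k
      have key := hMsp d (gl σ) ρ hν E (m / 13 ^ k) (1 / (2 * B) * (1 / 2) ^ (2 ^ k))
        (52 ^ k * L) (h52 k) (by positivity) (by positivity) (by
          rw [hprod, hcast]
          exact hs1) ih
      have e1 : 52 ^ (k + 1) * L = 52 * (52 ^ k * L) := by ring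
      have e2 : m / 13 ^ (k + 1) = m / 13 ^ k / 13 := by
        rw [div_div, pow_succ]
      rw [e1, e2]
      refine key.trans (ENNReal.ofReal_le_ofReal ?_)
      rw [hprod, hcast]
      rw [← hB]
      have e3 : B * (1 / (2 * B) * (1 / 2) ^ (2 ^ k)) ^ 2 =
          1 / (4 * B) * (1 / 2) ^ (2 ^ (k + 1)) := by
        rw [mul_pow, ← pow_mul, ← pow_succ]
        field_simp
        norm_num
      rw [e3]
      have e4 : 1 / (2 * B) * (1 / 2 : ℝ) ^ (2 ^ (k + 1)) =
          1 / (4 * B) * (1 / 2) ^ (2 ^ (k + 1)) + 1 / (4 * B) * (1 / 2) ^ (2 ^ (k + 1)) := by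
        field_simp
        norm_num
      rw [e4]
      linarith only [hs2]
  -- conclusion
  apply tol d C₀ σ E hC hσ
  intro A
  obtain ⟨k, hk1, hk2, hk3⟩ := hlarge A
  refine ⟨52 ^ k * L, hk1, ?_⟩
  have hmeas : MeasurableSet {V : Site d → ℝ | ¬ ((RM V (box 0 (52 ^ k * L)) E).det ≠ 0 ∧
      ∀ u, sd 0 u = 52 ^ k * L →
        |gr V (box 0 (52 ^ k * L)) E 0 u| ≤ ((52 ^ k * L : ℕ) : ℝ) ^ (-(A : ℝ)))} := by
    have h : {V : Site d → ℝ | (RM V (box 0 (52 ^ k * L)) E).det ≠ 0 ∧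
        ∀ u, sd 0 u = 52 ^ k * L →
          |gr V (box 0 (52 ^ k * L)) E 0 u| ≤ ((52 ^ k * L : ℕ) : ℝ) ^ (-(A : ℝ))} =
        {V | (RM V (box 0 (52 ^ k * L)) E).det ≠ 0} ∩ ⋂ u : Site d,
          {V | sd 0 u = 52 ^ k * L → |gr V (box 0 (52 ^ k * L)) E 0 u| ≤
            ((52 ^ k * L : ℕ) : ℝ) ^ (-(A : ℝ))} := by
      ext V
      simp only [Set.mem_ofPred_eq, Set.mem_inter_iff, Set.mem_iInter]
    refine MeasurableSet.compl (s := {V : Site d → ℝ | (RM V (box 0 (52 ^ k * L)) E).det ≠ 0 ∧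
      ∀ u, sd 0 u = 52 ^ k * L →
        |gr V (box 0 (52 ^ k * L)) E 0 u| ≤ ((52 ^ k * L : ℕ) : ℝ) ^ (-(A : ℝ))}) ?_
    rw [h]
    apply MeasurableSet.inter
    · exact (measurableSet_eq_fun (continuous_det _ E).measurable measurable_const).compl
    · apply MeasurableSet.iInter
      intro u
      by_cases hu : sd 0 u = 52 ^ k * L
      · simp only [hu, true_imp_iff]
        exact measurableSet_le (measurable_gr _ E 0 u).abs measurable_const
      · simp only [hu, false_imp_iff]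
        exact MeasurableSet.univ
  rw [PL_eq_PP hmeas (by
    intro V V' h
    simp only [Set.mem_ofPred_eq]
    rw [RM_congr h]
    simp only [gr_congr h])]
  calc _ ≤ PP d (gl σ) {V | ¬ AllGoodC V 0 (52 ^ k * L) (m / 13 ^ k) E} := by
        apply measure_mono
        intro V hV hgood
        apply hV
        obtain ⟨h1, h2⟩ := hgood 0 (mem_box.2 (by rw [sd_self]; omega))
        refine ⟨h1, fun u hu => (h2 u hu).trans ?_⟩
        rw [neg_mul, hprod]
        exact hk3
    _ ≤ ENNReal.ofReal (1 / (2 * B) * (1 / 2) ^ (2 ^ k)) := hiter k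
    _ ≤ _ := by
        apply ENNReal.ofReal_le_ofReal
        refine le_trans ?_ hk2
        have h3 : 1 / (2 * B) ≤ 1 := by
          rw [div_le_one (by positivity)]
          linarith only [hB1]
        have h4 : (0 : ℝ) ≤ (1 / 2) ^ (2 ^ k) := by positivity
        nlinarith only [h3, h4]

end Pool.Agent.LE.H42
end
end -- Pool.Agent.Helper42_LE.Msa

section -- Pool.Agent.Helper59_LE.Msp

/-!
# MSP: the probability step of the multiscale induction
-/

set_option autoImplicit false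

open MeasureTheory ProbabilityTheory Function

open scoped ENNReal BigOperators

noncomputable section

namespace Pool.Agent.LE.H59

open Pool.Agent.Anderson Pool.Agent.Loc Pool.Agent.Helper54.Bal Pool.Agent.Helper96.EXP
  Pool.Agent.LE.H42 Pool.Agent.LE.H96

variable {d : ℕ}

/-! ### translations of the event -/

theorem allGood_tau (V : Site d → ℝ) (a : Site d) (L : ℕ) (m E : ℝ) :
    AllGoodC V a L m E ↔ AllGoodC (tau a V) 0 L m E := by
  constructor
  · intro h s hs
    have hs' : s + a ∈ box a L := by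
      have := (mem_box_add 0 a L s).1 hs
      rwa [zero_add] at this
    have h1 := h (s + a) hs'
    refine ⟨?_, fun u hu => ?_⟩
    · rw [det_tau V a (mem_box_add s a L)]
      exact h1.1
    · rw [gr_tau V a (mem_box_add s a L)]
      apply h1.2
      rw [sd_add]
      exact hu
  · intro h s hs
    have hs' : s - a ∈ box 0 L := by
      rw [mem_box_add 0 a L, zero_add, sub_add_cancel]
      exact hs
    have h1 := h (s - a) hs'
    rw [det_tau V a (mem_box_add (s - a) a L), sub_add_cancel] at h1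
    refine ⟨h1.1, fun u hu => ?_⟩
    have h2 := h1.2 (u - a) (by rw [← sd_add _ _ a, sub_add_cancel, sub_add_cancel]; exact hu)
    rw [gr_tau V a (mem_box_add (s - a) a L), sub_add_cancel, sub_add_cancel] at h2
    exact h2

theorem measurable_allGood (a : Site d) (L : ℕ) (m E : ℝ) :
    MeasurableSet {V : Site d → ℝ | AllGoodC V a L m E} := by
  have h1 : {V : Site d → ℝ | AllGoodC V a L m E} =
      tau a ⁻¹' {V : Site d → ℝ | AllGoodC V 0 L m E} := by
    ext V
    exact allGood_tau V a L m E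
  rw [h1]
  exact (shiftInv_PP (d := d) (μ := Measure.dirac 0) a).measurable (measurableSet_allGood L m E)

theorem allGood_congr' (a : Site d) (L : ℕ) (m E : ℝ) {V V' : Site d → ℝ}
    (h : ∀ x ∈ box a (2 * L), V x = V' x) :
    AllGoodC V a L m E ↔ AllGoodC V' a L m E := by
  rw [allGood_tau V, allGood_tau V']
  apply allGood_congr
  intro x hx
  unfold tau
  apply h
  have := (mem_box_add 0 a (2 * L) x).1 hx
  rwa [zero_add] at this

theorem prob_allGood {ν : Measure ℝ} [IsProbabilityMeasure ν] (a : Site d) (L : ℕ) (m E : ℝ) :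
    PP d ν {V | ¬ AllGoodC V a L m E} = PP d ν {V | ¬ AllGoodC V 0 L m E} := by
  have h1 : {V : Site d → ℝ | ¬ AllGoodC V a L m E} =
      tau a ⁻¹' {V : Site d → ℝ | ¬ AllGoodC V 0 L m E} := by
    ext V
    exact not_congr (allGood_tau V a L m E)
  rw [h1]
  exact (shiftInv_PP (d := d) (μ := ν) a).measure_preimage
    (measurableSet_allGood L m E).compl.nullMeasurableSet

/-! ### cells -/

theorem sd_pt_le {n c : ℕ} (hn : 1 ≤ n) {k k' : Site d}
    (h : sd (pt n k) (pt n k') ≤ c * n) : sd k k' ≤ c := by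
  rw [sd_le_iff] at h ⊢
  intro i
  have h1 := h i
  unfold pt at h1
  rw [← mul_sub, abs_mul, Nat.abs_cast] at h1
  push_cast at h1
  have hn' : (0 : ℤ) < n := by exact_mod_cast hn
  have h2 : (n : ℤ) * |k i - k' i| ≤ n * c := by linarith only [h1]
  exact le_of_mul_le_mul_left h2 hn'

theorem sd_pt_le' {n c : ℕ} {k k' : Site d} (h : sd k k' ≤ c) :
    sd (pt n k) (pt n k') ≤ c * n := by
  rw [sd_le_iff] at h ⊢
  intro i
  have h1 := h i
  unfold pt
  rw [← mul_sub, abs_mul, Nat.abs_cast]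
  push_cast
  rw [mul_comm]
  exact mul_le_mul_of_nonneg_right h1 (by positivity)

theorem prob_pair {ν : Measure ℝ} [IsProbabilityMeasure ν] {L : ℕ} {m E p : ℝ} (hL : 1 ≤ L)
    (hp0 : 0 ≤ p) (hp : PP d ν {V | ¬ AllGoodC V 0 L m E} ≤ ENNReal.ofReal p) {k k' : Site d}
    (hk : 5 ≤ sd k k') :
    PP d ν ({V | ¬ AllGoodC V (pt L k) L m E} ∩ {V | ¬ AllGoodC V (pt L k') L m E}) ≤
      ENNReal.ofReal (p ^ 2) := by
  have hdis : Disjoint (box (pt L k) (2 * L)) (box (pt L k') (2 * L)) := by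
    rw [Finset.disjoint_left]
    intro x hx hx'
    rw [mem_box] at hx hx'
    have h1 := sd_triangle (pt L k) x (pt L k')
    rw [sd_comm x] at h1
    have h2 : sd k k' ≤ 4 := sd_pt_le (n := L) hL (by omega)
    omega
  have h1 := Pool.Agent.Mob.H6.PP_inter ν hdis
    (S := {V : Site d → ℝ | ¬ AllGoodC V (pt L k) L m E})
    (T := {V : Site d → ℝ | ¬ AllGoodC V (pt L k') L m E})
    (measurable_allGood _ L m E).compl (measurable_allGood _ L m E).compl
    (fun W W' hW => not_congr (allGood_congr' _ L m E hW))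
    (fun W W' hW => not_congr (allGood_congr' _ L m E hW))
  rw [h1, prob_allGood (pt L k), prob_allGood (pt L k'), sq, ENNReal.ofReal_mul hp0]
  exact mul_le_mul' hp hp

/-! ### the step -/

theorem msp (hmsd : MsdStmt) : MspStmt := by
  intro d ν _ ρ hν E m p L hL hm hp0 hsmall hp
  classical
  have hρ := hν.1
  set T : ℝ := Real.exp (m * L / 4) with hT
  set q : ℝ := Real.exp (-(m * L) / 2) with hq
  have hTpos : 0 < T := Real.exp_pos _
  have hLr : (1 : ℝ) ≤ L := by exact_mod_cast hL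
  have hq1 : q ≤ 1 := by
    rw [hq, Real.exp_le_one_iff]
    have : 0 ≤ m * L := by positivity
    linarith only [this]
  have hTi : 6 * ρ / T = 6 * ρ * Real.exp (-(m * L) / 4) := by
    rw [div_eq_mul_inv, hT, ← Real.exp_neg]
    congr 2
    ring
  have hTq : q ^ 13 * T ≤ Real.exp (-(m / 13) * ((52 * L : ℕ) : ℝ)) := by
    rw [hq, hT, ← Real.exp_nat_mul, ← Real.exp_add, Real.exp_le_exp]
    push_cast
    have : 0 ≤ m * L := by positivity
    linarith only [this]
  have hcond : T * (2 * d * (105 * L) ^ d) * (2 * d * (3 * L) ^ d * Real.exp (-m * L)) ≤ q := by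
    have e1 : T * Real.exp (-m * L) = Real.exp (-(m * L) / 4) * q := by
      rw [hT, hq, ← Real.exp_add, ← Real.exp_add]
      congr 1
      ring
    have e2 : (3 * (L : ℝ)) ^ d ≤ (105 * (L : ℝ)) ^ d := by
      apply pow_le_pow_left₀ (by positivity)
      linarith only [hLr]
    calc T * (2 * d * (105 * L) ^ d) * (2 * d * (3 * L) ^ d * Real.exp (-m * L))
        = (2 * d) ^ 2 * ((105 * L) ^ d * (3 * L) ^ d) * (T * Real.exp (-m * L)) := by ring
      _ ≤ (2 * d) ^ 2 * ((105 * L) ^ d * (105 * L) ^ d) * (T * Real.exp (-m * L)) := by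
        gcongr
      _ = ((2 * d) ^ 2 * (105 * L) ^ (2 * d) * Real.exp (-(m * L) / 4)) * q := by
        rw [e1]
        ring
      _ ≤ 1 * q := mul_le_mul_of_nonneg_right hsmall (Real.exp_pos _).le
      _ = q := one_mul q
  -- the three bad events
  set I : Finset (Site d × ℕ) := box (0 : Site d) (52 * L) ×ˢ Finset.range (52 * L + 1) with hI
  set J : Finset (Site d × Site d) :=
    (box (0 : Site d) 101 ×ˢ box (0 : Site d) 101).filter fun z => 5 ≤ sd z.1 z.2 with hJ
  set N1 : Set (Site d → ℝ) := ⋃ i ∈ I, {V | (RM V (box i.1 i.2) E).det = 0} with hN1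
  set N2 : Set (Site d → ℝ) := ⋃ i ∈ I, ⋃ z ∈ box i.1 (52 * L) ×ˢ box i.1 (52 * L),
    {V | T < |gr V (box i.1 i.2) E z.1 z.2|} with hN2
  set N3 : Set (Site d → ℝ) := ⋃ z ∈ J,
    ({V | ¬ AllGoodC V (pt L z.1) L m E} ∩ {V | ¬ AllGoodC V (pt L z.2) L m E}) with hN3
  have hcB : ∀ x : Site d, ((box x (52 * L)).card : ℝ) ≤ (105 * L) ^ d := by
    intro x
    rw [card_box]
    push_cast
    apply pow_le_pow_left₀ (by positivity)
    linarith only [hLr]
  have hcI : (I.card : ℝ) ≤ (105 * L) ^ d * (105 * L) := by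
    rw [hI, Finset.card_product, Finset.card_range]
    push_cast
    apply mul_le_mul (hcB 0) _ (by positivity) (by positivity)
    linarith only [hLr]
  have hcJ : (J.card : ℝ) ≤ 209 ^ (2 * d) := by
    have h1 : J.card ≤ 209 ^ (2 * d) := by
      calc J.card ≤ (box (0 : Site d) 101 ×ˢ box (0 : Site d) 101).card :=
            Finset.card_filter_le _ _
        _ = 203 ^ (2 * d) := by
            rw [Finset.card_product, card_box]
            ring
        _ ≤ 209 ^ (2 * d) := Nat.pow_le_pow_left (by norm_num) _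
    exact_mod_cast h1
  have p1 : PP d ν N1 ≤ ENNReal.ofReal 0 := by
    apply union_le (q := 0)
    · intro i _
      have h1 : Pool.Agent.Mob.H75.Loc {V : Site d → ℝ | (RM V (box i.1 i.2) E).det = 0}
          (box i.1 i.2) := by
        intro V V' h
        rw [Set.mem_ofPred_eq, Set.mem_ofPred_eq, RM_congr h]
      rw [ENNReal.ofReal_zero]
      exact (Pool.Agent.Mob.H75.PP_le_PL h1).trans (PL_det hν _ _ le_rfl E).le
    · rw [mul_zero]
  have p2 : PP d ν N2 ≤ ENNReal.ofReal (6 * ρ * (105 * L) ^ (3 * d + 1) *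
      Real.exp (-(m * L) / 4)) := by
    apply union_le (q := (105 * L) ^ (2 * d) * (6 * ρ / T))
    · intro i _
      apply union_le (q := 6 * ρ / T)
      · intro z _
        have h1 : Pool.Agent.Mob.H75.Loc
            {V : Site d → ℝ | T < |gr V (box i.1 i.2) E z.1 z.2|} (box i.1 i.2) := by
          intro V V' h
          rw [Set.mem_ofPred_eq, Set.mem_ofPred_eq, gr_congr h]
        exact (Pool.Agent.Mob.H75.PP_le_PL h1).trans (PL_weak hν _ E z.1 z.2 hTpos)
      · apply mul_le_mul_of_nonneg_right _ (by positivity)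
        rw [Finset.card_product]
        push_cast
        calc ((box i.1 (52 * L)).card : ℝ) * ((box i.1 (52 * L)).card : ℝ)
            ≤ (105 * L) ^ d * (105 * L) ^ d :=
              mul_le_mul (hcB _) (hcB _) (by positivity) (by positivity)
          _ = (105 * L) ^ (2 * d) := by ring
    · calc (I.card : ℝ) * ((105 * L) ^ (2 * d) * (6 * ρ / T))
          ≤ ((105 * L) ^ d * (105 * L)) * ((105 * L) ^ (2 * d) * (6 * ρ / T)) :=
            mul_le_mul_of_nonneg_right hcI (by positivity)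
        _ = 6 * ρ * (105 * L) ^ (3 * d + 1) * Real.exp (-(m * L) / 4) := by
            rw [hTi]
            ring
  have p3 : PP d ν N3 ≤ ENNReal.ofReal (209 ^ (2 * d) * p ^ 2) := by
    apply union_le (q := p ^ 2)
    · intro z hz
      rw [hJ, Finset.mem_filter] at hz
      exact prob_pair hL hp0 hp hz.2
    · exact mul_le_mul_of_nonneg_right hcJ (by positivity)
  -- the inclusion
  have hincl : {V : Site d → ℝ | ¬ AllGoodC V 0 (52 * L) (m / 13) E} ⊆ N3 ∪ (N2 ∪ N1) := by
    intro V hV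
    by_contra hcon
    simp only [Set.mem_union, not_or] at hcon
    obtain ⟨c3, c2, c1⟩ := hcon
    apply hV
    have hdet : ∀ s ∈ box (0 : Site d) (52 * L), ∀ r, r ≤ 52 * L →
        (RM V (box s r) E).det ≠ 0 := by
      intro s hs r hr h0
      apply c1
      rw [hN1]
      simp only [Set.mem_iUnion, exists_prop]
      refine ⟨(s, r), ?_, h0⟩
      rw [hI, Finset.mem_product, Finset.mem_range]
      exact ⟨hs, by simp only; omega⟩
    have hgr : ∀ s ∈ box (0 : Site d) (52 * L), ∀ r, r ≤ 52 * L → ∀ x y,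
        |gr V (box s r) E x y| ≤ T := by
      intro s hs r hr x y
      by_cases hxy : x ∈ box s r ∧ y ∈ box s r
      · by_contra h0
        rw [not_le] at h0
        apply c2
        rw [hN2]
        simp only [Set.mem_iUnion, exists_prop]
        refine ⟨(s, r), ?_, (x, y), ?_, h0⟩
        · rw [hI, Finset.mem_product, Finset.mem_range]
          exact ⟨hs, by simp only; omega⟩
        · rw [Finset.mem_product]
          exact ⟨box_mono s hr hxy.1, box_mono s hr hxy.2⟩
      · unfold gr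
        rw [dif_neg hxy, abs_zero]
        exact hTpos.le
    have hpair : ∀ v ∈ box (0 : Site d) (102 * L), ∀ v' ∈ box (0 : Site d) (102 * L),
        ¬ SG V L m E v → ¬ SG V L m E v' → sd v v' ≤ 6 * L := by
      intro v hv v' hv' hb hb'
      obtain ⟨k, hk, hkv⟩ := cover (by norm_num) hv
      obtain ⟨k', hk', hkv'⟩ := cover (by norm_num) hv'
      have hkb : ¬ AllGoodC V (pt L k) L m E := fun h => hb (h v (mem_box.2 hkv))
      have hkb' : ¬ AllGoodC V (pt L k') L m E := fun h => hb' (h v' (mem_box.2 hkv'))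
      have h4 : sd k k' ≤ 4 := by
        by_contra h5
        apply c3
        rw [hN3]
        simp only [Set.mem_iUnion, exists_prop]
        refine ⟨(k, k'), ?_, hkb, hkb'⟩
        rw [hJ, Finset.mem_filter, Finset.mem_product]
        exact ⟨⟨hk, hk'⟩, by simp only; omega⟩
      have h5 := sd_pt_le' (n := L) h4
      have h6 := sd_triangle v (pt L k) v'
      have h7 := sd_triangle (pt L k) (pt L k') v'
      rw [sd_comm v (pt L k)] at h6
      omega
    intro s hs
    refine ⟨hdet s hs _ le_rfl, fun u hu => ?_⟩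
    refine (hmsd d V E m T q L s u hL hTpos.le hq1
      (fun r hr => ⟨hdet s hs r hr, hgr s hs r hr⟩) ?_ hcond hu).trans hTq
    have hin : ∀ v ∈ box s (50 * L), v ∈ box (0 : Site d) (102 * L) := by
      intro v hv
      rw [mem_box] at *
      have := sd_triangle 0 s v
      omega
    exact fun v hv v' hv' => hpair v (hin v hv) v' (hin v' hv')
  refine (measure_mono hincl).trans ?_
  refine (measure_union_le _ _).trans ?_
  rw [ENNReal.ofReal_add (by positivity) (by positivity)]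
  refine add_le_add p3 ((measure_union_le _ _).trans ?_)
  have h0 : PP d ν N1 = 0 := by
    rw [ENNReal.ofReal_zero] at p1
    exact le_antisymm p1 zero_le
  rw [h0, add_zero]
  exact p2

end Pool.Agent.LE.H59
end
end -- Pool.Agent.Helper59_LE.Msp

section -- Pool.Agent.Helper65_LE.CNV

/-!
# CNV: in `LocSet` there is decay with probability near one
-/

set_option autoImplicit false

open MeasureTheory ProbabilityTheory Function Filter

open scoped ENNReal BigOperators Topology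

noncomputable section

namespace Pool.Agent.LE.H65

open Pool.Agent.Anderson Pool.Agent.Loc Pool.Agent.Mob Pool.Agent.Helper54.Bal
  Pool.Agent.Mob.H75

theorem num (d : ℕ) (C μ : ℝ) (hμ : 0 < μ) : ∃ L₀ : ℕ, ∀ L : ℕ, L₀ ≤ L →
    (2 * (L : ℝ) + 1) ^ d * (C * Real.exp (-μ * L)) ≤ Real.exp (-(μ / 2) * L) := by
  have h1 : Tendsto (fun L : ℕ => (|C| * (6 / μ) ^ d) *
      ((μ / 2 * (L : ℝ)) ^ d * Real.exp (-(μ / 2 * (L : ℝ))))) atTop (𝓝 ((|C| * (6 / μ) ^ d) * 0)) := by
    apply Tendsto.const_mul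
    have h2 : Tendsto (fun L : ℕ => μ / 2 * (L : ℝ)) atTop atTop :=
      Tendsto.const_mul_atTop (by positivity) tendsto_natCast_atTop_atTop
    exact (Real.tendsto_pow_mul_exp_neg_atTop_nhds_zero d).comp h2
  rw [mul_zero] at h1
  have h3 : ∀ᶠ L : ℕ in atTop, (|C| * (6 / μ) ^ d) *
      ((μ / 2 * (L : ℝ)) ^ d * Real.exp (-(μ / 2 * (L : ℝ)))) < 1 :=
    h1.eventually (gt_mem_nhds one_pos)
  obtain ⟨L₀, hL₀⟩ := eventually_atTop.1 h3
  refine ⟨max L₀ 1, fun L hL => ?_⟩
  have hL1 : (1 : ℝ) ≤ L := by exact_mod_cast (le_trans (le_max_right _ _) hL)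
  have h4 := hL₀ L (le_trans (le_max_left _ _) hL)
  have e0 : Real.exp (-μ * L) = Real.exp (-(μ / 2) * L) * Real.exp (-(μ / 2 * (L : ℝ))) := by
    rw [← Real.exp_add]; congr 1; ring
  have hpos := Real.exp_pos (-(μ / 2) * (L : ℝ))
  have e1 : (2 * (L : ℝ) + 1) ^ d ≤ (6 / μ) ^ d * (μ / 2 * (L : ℝ)) ^ d := by
    rw [← mul_pow]
    apply pow_le_pow_left₀ (by positivity)
    have : 6 / μ * (μ / 2 * (L : ℝ)) = 3 * L := by field_simp; ring
    rw [this]; linarith
  calc (2 * (L : ℝ) + 1) ^ d * (C * Real.exp (-μ * L))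
      ≤ (2 * (L : ℝ) + 1) ^ d * (|C| * Real.exp (-μ * L)) := by
        gcongr; exact le_abs_self C
    _ ≤ ((6 / μ) ^ d * (μ / 2 * (L : ℝ)) ^ d) * (|C| * Real.exp (-μ * L)) := by
        gcongr
    _ = Real.exp (-(μ / 2) * L) * ((|C| * (6 / μ) ^ d) *
      ((μ / 2 * (L : ℝ)) ^ d * Real.exp (-(μ / 2 * (L : ℝ))))) := by rw [e0]; ring
    _ ≤ Real.exp (-(μ / 2) * L) * 1 := by gcongr
    _ = _ := mul_one _

theorem sg_loc (d L : ℕ) (κ E : ℝ) :
    H75.Loc {V : Site d → ℝ | ¬ SG V L κ E 0} (box (0 : Site d) L) := by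
  intro V V' h
  simp only [Set.mem_ofPred_eq, SG]
  rw [RM_congr h E]
  have : ∀ u, gr V (box (0 : Site d) L) E 0 u = gr V' (box (0 : Site d) L) E 0 u :=
    fun u => gr_congr h E 0 u
  simp only [this]

theorem cnv (bdc : BdcStmt) : CnvStmt := by
  intro d C₀ σ E hd hC₀ hσ hB hE
  obtain ⟨h, hh, L₁, hcrit⟩ := hE
  obtain ⟨C, μ, hμ, hdec⟩ := bdc d C₀ σ hd hC₀ hσ hB (Set.Icc (E - h) (E + h)) L₁ hcrit
  obtain ⟨L₀, hL₀⟩ := num d C μ hμ
  refine ⟨μ, μ / 2, L₀, hμ, by positivity, fun L hL => ?_⟩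
  refine (PP_le_PL (sg_loc d L μ E)).trans ?_
  have hsub : {V : Site d → ℝ | ¬ SG V L μ E 0} ⊆
      ⋃ u ∈ (box (0 : Site d) L).filter (fun u => sd 0 u = L),
        {V | ¬ Good V (box (0 : Site d) L) E 0 u (Real.exp (-μ * L))} := by
    intro V hV
    by_contra hcon
    apply hV
    simp only [Set.mem_iUnion, not_exists, Set.mem_ofPred_eq, not_not, Finset.mem_filter] at hcon
    have hall : ∀ u, sd 0 u = L → Good V (box (0 : Site d) L) E 0 u (Real.exp (-μ * L)) :=
      fun u hu => hcon u ⟨mem_box.2 hu.le, hu⟩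
    refine ⟨?_, fun u hu => (hall u hu).2.le⟩
    have hu0 : sd (0 : Site d) (fun _ => (L : ℤ)) = L := by
      unfold sd
      have : ∀ i : Fin d, ((0 : Site d) i - (L : ℤ)).natAbs = L := by
        intro i; simp
      simp only [this]
      exact Finset.sup_const ⟨⟨0, hd⟩, Finset.mem_univ _⟩ _
    exact (hall _ hu0).1
  refine (measure_mono hsub).trans ((measure_biUnion_finset_le _ _).trans ?_)
  have hb : ∀ u ∈ (box (0 : Site d) L).filter (fun u => sd 0 u = L),
      PL (gl σ) (box (0 : Site d) L) {V | ¬ Good V (box (0 : Site d) L) E 0 u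
        (Real.exp (-μ * L))} ≤ ENNReal.ofReal (C * Real.exp (-μ * L)) := by
    intro u hu
    exact hdec 0 u L E ⟨by linarith, by linarith⟩ (Finset.mem_filter.1 hu).2
  refine (Finset.sum_le_sum hb).trans ?_
  rw [Finset.sum_const, nsmul_eq_mul]
  have hcard : ((((box (0 : Site d) L).filter (fun u => sd 0 u = L)).card : ℕ) : ℝ≥0∞) ≤
      ENNReal.ofReal ((2 * (L : ℝ) + 1) ^ d) := by
    have h1 : ((box (0 : Site d) L).filter (fun u => sd 0 u = L)).card ≤ (2 * L + 1) ^ d := by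
      rw [← card_box (0 : Site d) L]
      exact Finset.card_filter_le _ _
    have h2 : ((2 * (L : ℝ) + 1) ^ d) = (((2 * L + 1) ^ d : ℕ) : ℝ) := by push_cast; ring
    rw [h2, ENNReal.ofReal_natCast]
    exact_mod_cast h1
  calc _ ≤ ENNReal.ofReal ((2 * (L : ℝ) + 1) ^ d) * ENNReal.ofReal (C * Real.exp (-μ * L)) := by
        gcongr
    _ = ENNReal.ofReal ((2 * (L : ℝ) + 1) ^ d * (C * Real.exp (-μ * L))) := by
        exact (ENNReal.ofReal_mul (by positivity : (0 : ℝ) ≤ (2 * (L : ℝ) + 1) ^ d)).symm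
    _ ≤ _ := ENNReal.ofReal_le_ofReal (hL₀ L hL)

end Pool.Agent.LE.H65
end
end -- Pool.Agent.Helper65_LE.CNV

section -- Pool.Agent.Helper69_LE.Shi

/-!
# Shifts at a distance `nℓ` of an almost subadditive random function
-/

set_option autoImplicit false
set_option linter.unusedSectionVars false

open MeasureTheory ProbabilityTheory Function

open scoped ENNReal BigOperators

noncomputable section

namespace Pool.Agent.LE.H69

open Pool.Agent.Anderson Pool.Agent.Loc Pool.Agent.Mob Pool.Agent.Helper54.Bal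

variable {d : ℕ}

theorem sd_add' (a b : Site d) : sd a (a + b) = sd 0 b := by
  apply le_antisymm
  · rw [sd_le_iff]
    intro i
    have h := (sd_le_iff.1 (le_refl (sd 0 b))) i
    have e : a i - (a + b) i = (0 : Site d) i - b i := by
      rw [Pi.add_apply, Pi.zero_apply]
      ring
    rwa [e]
  · rw [sd_le_iff]
    intro i
    have h := (sd_le_iff.1 (le_refl (sd a (a + b)))) i
    have e : (0 : Site d) i - b i = a i - (a + b) i := by
      rw [Pi.add_apply, Pi.zero_apply]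
      ring
    rwa [e]

theorem sd_sm (l : ℕ) (y : Site d) : sd 0 (sm l y) ≤ l * sd 0 y := by
  rw [sd_le_iff]
  intro i
  have h := (sd_le_iff.1 (le_refl (sd 0 y))) i
  have e : (0 : Site d) i - sm l y i = l * ((0 : Site d) i - y i) := by
    unfold sm
    rw [Pi.zero_apply]
    ring
  rw [e, abs_mul, Nat.abs_cast]
  push_cast
  exact mul_le_mul_of_nonneg_left h (by positivity)

section

variable {N : ℕ} {Ω : Type} [MeasurableSpace Ω] {P : Measure Ω} [IsProbabilityMeasure P] {C : ℝ}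
  {D : Ω → Site d → Site d → ℝ} (h : FamN d N P C D)

include h

theorem integrable_D {x y : Site d} (hx : x ∈ box (0 : Site d) N) (hy : y ∈ box (0 : Site d) N) :
    Integrable (fun ω => D ω x y) P :=
  ((memLp_two_iff_integrable_sq (h.meas x y).aestronglyMeasurable).2
    (h.int x hx y hy)).integrable one_le_two

/-- first moment from the second one, with a weight -/
theorem abs_le_wt {x y : Site d} (hx : x ∈ box (0 : Site d) N) (hy : y ∈ box (0 : Site d) N)
    {s : ℝ} (hs : 0 < s) : ∫ ω, |D ω x y| ∂P ≤ s + C * ((sd x y : ℝ) + 1) ^ 2 / s := by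
  calc ∫ ω, |D ω x y| ∂P ≤ ∫ ω, (s + D ω x y ^ 2 / s) ∂P := by
        refine integral_mono (integrable_D h hx hy).abs
          ((integrable_const _).add ((h.int x hx y hy).div_const _)) fun ω => ?_
        simp only
        have h1 : |D ω x y| ^ 2 = D ω x y ^ 2 := sq_abs _
        have h2 : s + D ω x y ^ 2 / s - |D ω x y| =
            ((|D ω x y| - s) ^ 2 + s * |D ω x y|) / s := by
          rw [← h1]
          field_simp
          ring
        have h3 : 0 ≤ ((|D ω x y| - s) ^ 2 + s * |D ω x y|) / s := by positivity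
        linarith
    _ = s + (∫ ω, D ω x y ^ 2 ∂P) / s := by
        rw [integral_add (integrable_const _) ((h.int x hx y hy).div_const _), integral_div]
        simp
    _ ≤ _ := by
        have := h.sq x hx y hy
        gcongr

/-- the defect of subadditivity -/
theorem defect_int {x u y : Site d} (hx : x ∈ box (0 : Site d) N) (hu : u ∈ box (0 : Site d) N)
    (hy : y ∈ box (0 : Site d) N) :
    Integrable (fun ω => max 0 (D ω x y - D ω x u - D ω u y)) P :=
  (integrable_const (0 : ℝ)).sup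
    (((integrable_D h hx hy).sub (integrable_D h hx hu)).sub (integrable_D h hu hy))

theorem defect_le {x u y : Site d} (hx : x ∈ box (0 : Site d) N) (hu : u ∈ box (0 : Site d) N)
    (hy : y ∈ box (0 : Site d) N) :
    ∫ ω, max 0 (D ω x y - D ω x u - D ω u y) ∂P ≤ 1 + C := by
  have h2 : Integrable (fun ω => (max 0 (D ω x y - D ω x u - D ω u y)) ^ 2) P := by
    have hb : Integrable (fun ω => 3 * (D ω x y ^ 2 + D ω x u ^ 2 + D ω u y ^ 2)) P :=
      (((h.int x hx y hy).add (h.int x hx u hu)).add (h.int u hu y hy)).const_mul 3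
    refine hb.mono' ?_ (Filter.Eventually.of_forall fun ω => ?_)
    · exact ((measurable_const.max
        (((h.meas x y).sub (h.meas x u)).sub (h.meas u y))).pow_const 2).aestronglyMeasurable
    · rw [Real.norm_eq_abs, abs_of_nonneg (sq_nonneg _)]
      have h3 : (max 0 (D ω x y - D ω x u - D ω u y)) ^ 2 ≤
          (D ω x y - D ω x u - D ω u y) ^ 2 := by
        rcases le_total (D ω x y - D ω x u - D ω u y) 0 with h4 | h4
        · rw [max_eq_left h4]
          simpa using sq_nonneg _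
        · rw [max_eq_right h4]
      nlinarith only [sq_nonneg (D ω x y + D ω x u), sq_nonneg (D ω x y + D ω u y),
        sq_nonneg (D ω x u - D ω u y), h3]
  calc ∫ ω, max 0 (D ω x y - D ω x u - D ω u y) ∂P ≤
        ∫ ω, (1 + (max 0 (D ω x y - D ω x u - D ω u y)) ^ 2) ∂P := by
        refine integral_mono (defect_int h hx hu hy) ((integrable_const _).add h2) fun ω => ?_
        simp only
        nlinarith [sq_nonneg (max 0 (D ω x y - D ω x u - D ω u y) - 1),
          le_max_left 0 (D ω x y - D ω x u - D ω u y)]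
    _ = 1 + ∫ ω, (max 0 (D ω x y - D ω x u - D ω u y)) ^ 2 ∂P := by
        rw [integral_add (integrable_const _) h2]
        simp
    _ ≤ _ := by
        have := h.tri x hx u hu y hy
        linarith

end

theorem shi : ShiStmt := by
  intro d K C hC hK
  refine ⟨2 * (1 + C * (K + 1) ^ 2) + 4 * (1 + C), by positivity, ?_⟩
  intro N ℓ n hℓ hn Ω _ P _ D h a y k hy hk hbox
  have hℓ' : (1 : ℝ) ≤ ℓ := by exact_mod_cast hℓ
  have hn' : (1 : ℝ) ≤ n := by exact_mod_cast hn
  have hℓ0 : (0 : ℝ) < ℓ := by linarith only [hℓ']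
  have hn0 : (0 : ℝ) < n := by linarith only [hn']
  set b : Site d := a + sm ℓ k with hb
  set c : Site d := a + sm (n * ℓ) y with hc
  set c' : Site d := b + sm (n * ℓ) y with hc'
  -- distances
  have hab : sd a b ≤ ℓ * K := by
    rw [hb, sd_add']
    exact (sd_sm _ _).trans (Nat.mul_le_mul_left _ hk)
  have hac : sd a c ≤ n * ℓ * K := by
    rw [hc, sd_add']
    exact (sd_sm _ _).trans (Nat.mul_le_mul_left _ hy)
  have hbc' : sd b c' ≤ n * ℓ * K := by
    rw [hc', sd_add']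
    exact (sd_sm _ _).trans (Nat.mul_le_mul_left _ hy)
  have hcc' : sd c c' ≤ ℓ * K := by
    have e : c' = c + sm ℓ k := by
      rw [hc', hb, hc]
      abel
    rw [e, sd_add']
    exact (sd_sm _ _).trans (Nat.mul_le_mul_left _ hk)
  have hlK : ℓ * K ≤ n * ℓ * K := by
    calc ℓ * K = 1 * (ℓ * K) := by ring
      _ ≤ n * (ℓ * K) := Nat.mul_le_mul_right _ hn
      _ = n * ℓ * K := by ring
  have h4 : 4 * K * (n * ℓ) = 4 * (n * ℓ * K) := by ring
  have ha0 : a ∈ box (0 : Site d) N := hbox (by rw [mem_box, sd_self]; exact Nat.zero_le _)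
  have hb0 : b ∈ box (0 : Site d) N := hbox (by rw [mem_box, h4]; omega)
  have hc0 : c ∈ box (0 : Site d) N := hbox (by rw [mem_box, h4]; omega)
  have hc0' : c' ∈ box (0 : Site d) N := hbox (by
    have := sd_triangle a b c'
    rw [mem_box, h4]
    omega)
  -- the four defects
  have key : ∀ ω, |D ω a c / (n * ℓ) - D ω b c' / (n * ℓ)| ≤
      ((|D ω a b| + |D ω c c'|) + ((max 0 (D ω a c - D ω a b - D ω b c) +
        max 0 (D ω b c - D ω b c' - D ω c' c)) + (max 0 (D ω b c' - D ω b a - D ω a c') +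
        max 0 (D ω a c' - D ω a c - D ω c c')))) / (n * ℓ) := by
    intro ω
    rw [← sub_div, abs_div, abs_of_pos (by positivity : (0 : ℝ) < n * ℓ)]
    refine div_le_div_of_nonneg_right ?_ (by positivity)
    have e1 := le_max_right 0 (D ω a c - D ω a b - D ω b c)
    have e2 := le_max_right 0 (D ω b c - D ω b c' - D ω c' c)
    have e3 := le_max_right 0 (D ω b c' - D ω b a - D ω a c')
    have e4 := le_max_right 0 (D ω a c' - D ω a c - D ω c c')
    have f1 := le_max_left 0 (D ω a c - D ω a b - D ω b c)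
    have f2 := le_max_left 0 (D ω b c - D ω b c' - D ω c' c)
    have f3 := le_max_left 0 (D ω b c' - D ω b a - D ω a c')
    have f4 := le_max_left 0 (D ω a c' - D ω a c - D ω c c')
    have s1 := h.symm ω b a
    have s2 := h.symm ω c' c
    have g1 := le_abs_self (D ω a b)
    have g2 := le_abs_self (D ω c c')
    rw [abs_le]
    constructor <;> linarith
  have i1 : Integrable (fun ω => |D ω a b| + |D ω c c'|) P :=
    (integrable_D h ha0 hb0).abs.add (integrable_D h hc0 hc0').abs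
  have i2 : Integrable (fun ω => max 0 (D ω a c - D ω a b - D ω b c) +
        max 0 (D ω b c - D ω b c' - D ω c' c)) P :=
    (defect_int h ha0 hb0 hc0).add (defect_int h hb0 hc0' hc0)
  have i3 : Integrable (fun ω => max 0 (D ω b c' - D ω b a - D ω a c') +
        max 0 (D ω a c' - D ω a c - D ω c c')) P :=
    (defect_int h hb0 ha0 hc0').add (defect_int h ha0 hc0 hc0')
  have i23 : Integrable (fun ω => (max 0 (D ω a c - D ω a b - D ω b c) +
        max 0 (D ω b c - D ω b c' - D ω c' c)) + (max 0 (D ω b c' - D ω b a - D ω a c') +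
        max 0 (D ω a c' - D ω a c - D ω c c'))) P := i2.add i3
  calc ∫ ω, |D ω a c / (n * ℓ) - D ω b c' / (n * ℓ)| ∂P ≤
        ∫ ω, ((|D ω a b| + |D ω c c'|) + ((max 0 (D ω a c - D ω a b - D ω b c) +
        max 0 (D ω b c - D ω b c' - D ω c' c)) + (max 0 (D ω b c' - D ω b a - D ω a c') +
        max 0 (D ω a c' - D ω a c - D ω c c')))) / (n * ℓ) ∂P :=
        integral_mono (((integrable_D h ha0 hc0).div_const _).sub
          ((integrable_D h hb0 hc0').div_const _)).abs ((i1.add i23).div_const _) key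
    _ = ((∫ ω, |D ω a b| ∂P + ∫ ω, |D ω c c'| ∂P) +
        ((∫ ω, max 0 (D ω a c - D ω a b - D ω b c) ∂P +
          ∫ ω, max 0 (D ω b c - D ω b c' - D ω c' c) ∂P) +
        (∫ ω, max 0 (D ω b c' - D ω b a - D ω a c') ∂P +
          ∫ ω, max 0 (D ω a c' - D ω a c - D ω c c') ∂P))) / (n * ℓ) := by
        rw [← integral_add (integrable_D h ha0 hb0).abs (integrable_D h hc0 hc0').abs,
          ← integral_add (defect_int h ha0 hb0 hc0) (defect_int h hb0 hc0' hc0),
          ← integral_add (defect_int h hb0 ha0 hc0') (defect_int h ha0 hc0 hc0'),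
          ← integral_add i2 i3, ← integral_add i1 i23, ← integral_div]
    _ ≤ ((ℓ * (1 + C * (K + 1) ^ 2) + ℓ * (1 + C * (K + 1) ^ 2)) +
        ((1 + C + (1 + C)) + (1 + C + (1 + C)))) / (n * ℓ) := by
        have w : ∀ x ∈ box (0 : Site d) N, ∀ z ∈ box (0 : Site d) N, sd x z ≤ ℓ * K →
            ∫ ω, |D ω x z| ∂P ≤ ℓ * (1 + C * (K + 1) ^ 2) := by
          intro x hx z hz hxz
          refine (abs_le_wt h hx hz hℓ0).trans ?_
          have h1 : (sd x z : ℝ) + 1 ≤ ℓ * (K + 1) := by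
            have : (sd x z : ℝ) ≤ ℓ * K := by exact_mod_cast hxz
            nlinarith only [hℓ', this]
          have h2 : ((sd x z : ℝ) + 1) ^ 2 ≤ (ℓ * (K + 1)) ^ 2 :=
            pow_le_pow_left₀ (by positivity) h1 2
          calc (ℓ : ℝ) + C * ((sd x z : ℝ) + 1) ^ 2 / ℓ ≤ ℓ + C * (ℓ * (K + 1)) ^ 2 / ℓ := by
                gcongr
            _ = ℓ * (1 + C * (K + 1) ^ 2) := by
                field_simp
        have w1 := w a ha0 b hb0 hab
        have w2 := w c hc0 c' hc0' hcc'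
        have w3 := defect_le h ha0 hb0 hc0
        have w4 := defect_le h hb0 hc0' hc0
        have w5 := defect_le h hb0 ha0 hc0'
        have w6 := defect_le h ha0 hc0 hc0'
        refine div_le_div_of_nonneg_right ?_ (by positivity)
        linarith only [w1, w2, w3, w4, w5, w6]
    _ ≤ _ := by
        rw [div_le_div_iff₀ (by positivity) hn0]
        have : (1 + C + (1 + C) + (1 + C + (1 + C))) ≤ (4 * (1 + C)) * ℓ := by
          nlinarith only [hC, hℓ']
        have h5 : (ℓ * (1 + C * (K + 1) ^ 2) + ℓ * (1 + C * (K + 1) ^ 2)) +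
            ((1 + C + (1 + C)) + (1 + C + (1 + C))) ≤
            (2 * (1 + C * (K + 1) ^ 2) + 4 * (1 + C)) * ℓ := by
          nlinarith only [this]
        calc _ ≤ ((2 * (1 + C * ((K : ℝ) + 1) ^ 2) + 4 * (1 + C)) * ℓ) * n :=
              mul_le_mul_of_nonneg_right h5 hn0.le
          _ = _ := by ring

end Pool.Agent.LE.H69
end
end -- Pool.Agent.Helper69_LE.Shi

section -- Pool.Agent.Helper77_LE.Avs

/-!
# AVS: averages over large cubes are almost shift invariant
-/

set_option autoImplicit false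

open MeasureTheory ProbabilityTheory Function Filter Topology

open scoped ENNReal BigOperators

noncomputable section

namespace Pool.Agent.LE.H77

open Pool.Agent.Anderson Pool.Agent.Loc Pool.Agent.Mob Pool.Agent.LE

theorem memb {d : ℕ} {x : Site d} {n : ℕ} {y : Site d} :
    y ∈ box x n ↔ ∀ i, |y i - x i| ≤ n := by
  unfold box
  rw [Finset.mem_Icc]
  constructor
  · rintro ⟨h1, h2⟩ i
    have := h1 i
    have := h2 i
    rw [abs_le]
    constructor <;> simp only at * <;> linarith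
  · intro h
    constructor
    · intro i
      have := abs_le.1 (h i)
      simp only; linarith
    · intro i
      have := abs_le.1 (h i)
      simp only; linarith

theorem sd_zero_le {d : ℕ} {b : Site d} {n : ℕ} (h : sd 0 b ≤ n) (i : Fin d) : |b i| ≤ n := by
  unfold sd at h
  rw [Finset.sup_le_iff] at h
  have h1 := h i (Finset.mem_univ i)
  simp only [Pi.zero_apply, zero_sub, Int.natAbs_neg] at h1
  rw [Int.abs_eq_natAbs]
  exact_mod_cast h1

theorem avs_lim (d b₀ : ℕ) (B : ℝ) :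
    Tendsto (fun R : ℕ => B * ((1 + 2 * b₀ / (2 * (R : ℝ) + 1)) ^ d -
      (1 - 2 * b₀ / (2 * (R : ℝ) + 1)) ^ d)) atTop (𝓝 0) := by
  have h1 : Tendsto (fun R : ℕ => (2 * (b₀ : ℝ)) / (2 * (R : ℝ) + 1)) atTop (𝓝 0) := by
    apply Tendsto.div_atTop tendsto_const_nhds
    apply tendsto_atTop_add_const_right
    exact Tendsto.const_mul_atTop (show (0 : ℝ) < 2 by norm_num) tendsto_natCast_atTop_atTop
  have h2 : Tendsto (fun R : ℕ => B * ((1 + 2 * b₀ / (2 * (R : ℝ) + 1)) ^ d -
      (1 - 2 * b₀ / (2 * (R : ℝ) + 1)) ^ d)) atTop (𝓝 (B * ((1 + 0) ^ d - (1 - 0) ^ d))) :=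
    ((((h1.const_add 1).pow d).sub ((h1.const_sub 1).pow d)).const_mul B)
  simpa using h2

theorem avs : AvsStmt := by
  intro d b₀ B ε hε
  obtain ⟨R₁, hR₁⟩ := eventually_atTop.1 ((avs_lim d b₀ B).eventually (gt_mem_nhds hε))
  refine ⟨max R₁ b₀, fun R hR f b hb hf => ?_⟩
  have hRb : b₀ ≤ R := le_trans (le_max_right _ _) hR
  have hbi := sd_zero_le hb
  have hA : box (0 : Site d) R ⊆ box 0 (R + b₀) := by
    intro a ha
    rw [memb] at ha ⊢
    intro i
    have := ha i
    push_cast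
    linarith only [show (0 : ℤ) ≤ b₀ by positivity, this]
  have hA' : box b R ⊆ box 0 (R + b₀) := by
    intro a ha
    rw [memb] at ha ⊢
    intro i
    have h1 := abs_le.1 (ha i)
    have h2 := abs_le.1 (hbi i)
    rw [abs_le]
    push_cast
    simp only [Pi.zero_apply]
    constructor <;> linarith only [h1, h2]
  have hS : box (0 : Site d) (R - b₀) ⊆ box 0 R := by
    intro a ha
    rw [memb] at ha ⊢
    intro i
    have := ha i
    rw [Nat.cast_sub hRb] at this
    linarith only [show (0 : ℤ) ≤ b₀ by positivity, this]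
  have hS' : box (0 : Site d) (R - b₀) ⊆ box b R := by
    intro a ha
    rw [memb] at ha ⊢
    intro i
    have h1 := abs_le.1 (ha i)
    have h2 := abs_le.1 (hbi i)
    rw [Nat.cast_sub hRb] at h1
    simp only [Pi.zero_apply] at h1
    rw [abs_le]
    constructor <;> linarith only [h1, h2]
  have hsum : ∑ a ∈ box (0 : Site d) R, f (a + b) = ∑ a ∈ box b R, f a := by
    refine Finset.sum_nbij' (fun a => a + b) (fun a => a - b) ?_ ?_ ?_ ?_ ?_
    · intro a ha
      rw [memb] at ha ⊢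
      intro i
      have := ha i
      simpa using this
    · intro a ha
      rw [memb] at ha ⊢
      intro i
      have := ha i
      simpa using this
    · intro a _
      simp
    · intro a _
      simp
    · intro a _
      rfl
  have hB : 0 ≤ B := by
    have h0 : (0 : Site d) ∈ box 0 (R + b₀) := by
      rw [memb]
      intro i
      simp
      positivity
    exact le_trans (abs_nonneg _) (hf 0 h0)
  have hind : ∀ A : Finset (Site d), A ⊆ box 0 (R + b₀) →
      ∑ a ∈ A, f a = ∑ a ∈ box (0 : Site d) (R + b₀), if a ∈ A then f a else 0 := by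
    intro A hA
    rw [← Finset.sum_filter]
    apply Finset.sum_congr _ (fun _ _ => rfl)
    ext a
    rw [Finset.mem_filter]
    exact ⟨fun h => ⟨hA h, h⟩, fun h => h.2⟩
  have hdiff : |∑ a ∈ box b R, f a - ∑ a ∈ box (0 : Site d) R, f a| ≤
      B * (((box (0 : Site d) (R + b₀)) \ (box 0 (R - b₀))).card : ℝ) := by
    rw [hind _ hA', hind _ hA, ← Finset.sum_sub_distrib]
    refine le_trans (Finset.abs_sum_le_sum_abs _ _) ?_
    have h3 : ∀ a ∈ box (0 : Site d) (R + b₀),
        |(if a ∈ box b R then f a else 0) - (if a ∈ box (0 : Site d) R then f a else 0)| ≤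
          if a ∈ box (0 : Site d) (R - b₀) then 0 else B := by
      intro a ha
      have hfa := hf a ha
      by_cases h4 : a ∈ box (0 : Site d) (R - b₀)
      · rw [if_pos h4, if_pos (hS h4), if_pos (hS' h4), sub_self, abs_zero]
      · rw [if_neg h4]
        by_cases h5 : a ∈ box b R
        · by_cases h6 : a ∈ box (0 : Site d) R
          · rw [if_pos h5, if_pos h6, sub_self, abs_zero]; exact hB
          · rw [if_pos h5, if_neg h6, sub_zero]; exact hfa
        · by_cases h6 : a ∈ box (0 : Site d) R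
          · rw [if_neg h5, if_pos h6, zero_sub, abs_neg]; exact hfa
          · rw [if_neg h5, if_neg h6, sub_self, abs_zero]; exact hB
    refine le_trans (Finset.sum_le_sum h3) ?_
    rw [← Finset.sum_filter_add_sum_filter_not (box (0 : Site d) (R + b₀))
      (fun a => a ∈ box (0 : Site d) (R - b₀))]
    have h10 : ∑ a ∈ (box (0 : Site d) (R + b₀)).filter (fun a => a ∈ box (0 : Site d) (R - b₀)),
        (if a ∈ box (0 : Site d) (R - b₀) then 0 else B) =
        ∑ a ∈ (box (0 : Site d) (R + b₀)).filter (fun a => a ∈ box (0 : Site d) (R - b₀)),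
        (0 : ℝ) := Finset.sum_congr rfl fun a ha => by
      rw [Finset.mem_filter] at ha
      exact if_pos ha.2
    have h11 : ∑ a ∈ (box (0 : Site d) (R + b₀)).filter (fun a => ¬ a ∈ box (0 : Site d) (R - b₀)),
        (if a ∈ box (0 : Site d) (R - b₀) then 0 else B) =
        ∑ a ∈ (box (0 : Site d) (R + b₀)).filter (fun a => ¬ a ∈ box (0 : Site d) (R - b₀)),
        B := Finset.sum_congr rfl fun a ha => by
      rw [Finset.mem_filter] at ha
      exact if_neg ha.2
    rw [h10, h11]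
    rw [Finset.sum_const_zero, zero_add, Finset.sum_const, nsmul_eq_mul, mul_comm]
    apply le_of_eq
    have h7 : (box (0 : Site d) (R + b₀)).filter (fun a => ¬ a ∈ box (0 : Site d) (R - b₀)) =
        (box (0 : Site d) (R + b₀)) \ (box 0 (R - b₀)) := by
      ext a
      rw [Finset.mem_filter, Finset.mem_sdiff]
    rw [h7]
  have hcard : (((box (0 : Site d) (R + b₀)) \ (box 0 (R - b₀))).card : ℝ) =
      (2 * (R : ℝ) + 1 + 2 * b₀) ^ d - (2 * (R : ℝ) + 1 - 2 * b₀) ^ d := by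
    rw [Finset.card_sdiff_of_subset (hS.trans hA), Nat.cast_sub (Finset.card_le_card (hS.trans hA)),
      card_box, card_box]
    push_cast [Nat.cast_sub hRb]
    ring
  unfold Av
  rw [← sub_div, hsum, abs_div]
  have hp : (0 : ℝ) < (2 * (R : ℝ) + 1) ^ d := by positivity
  rw [abs_of_pos hp, div_le_iff₀ hp]
  refine le_trans hdiff ?_
  rw [hcard]
  have h8 := (hR₁ R (le_trans (le_max_left _ _) hR)).le
  have h9 : B * ((2 * (R : ℝ) + 1 + 2 * b₀) ^ d - (2 * (R : ℝ) + 1 - 2 * b₀) ^ d) =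
      (B * ((1 + 2 * b₀ / (2 * (R : ℝ) + 1)) ^ d -
      (1 - 2 * b₀ / (2 * (R : ℝ) + 1)) ^ d)) * (2 * (R : ℝ) + 1) ^ d := by
    have hq : (2 * (R : ℝ) + 1) ≠ 0 := by positivity
    rw [mul_assoc, sub_mul, ← mul_pow, ← mul_pow]
    rw [add_mul, sub_mul, div_mul_cancel₀ _ hq, one_mul]
  rw [h9]
  exact mul_le_mul_of_nonneg_right h8 hp.le

end Pool.Agent.LE.H77
end
end -- Pool.Agent.Helper77_LE.Avs

section -- Pool.Agent.Helper93_LE.All

/-!
# The zero-one law: all modules
-/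

set_option autoImplicit false

open MeasureTheory ProbabilityTheory

noncomputable section

namespace Pool.Agent.LE.H93

open Pool.Agent.Anderson Pool.Agent.Loc Pool.Agent.Helper54.Bal Pool.Agent.Mob

theorem msaT : MsaStmt :=
  Pool.Agent.LE.H42.msa (Pool.Agent.LE.H59.msp Pool.Agent.LE.H42.msd) Pool.Agent.LE.H15.msn

theorem gevT (hPig : PigStmt) : GevStmt :=
  Pool.Agent.LE.H59.gev hPig Pool.Agent.LE.H54.fmn
    (fun d σ E _ hσ => ⟨_, Pool.Agent.LY.oneTail (d := d) hσ E⟩)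
    (fun d σ E _ hσ => Pool.Agent.LY.chn (d := d) hσ E)

theorem pigT : PigStmt :=
  Pool.Agent.LE.H26A.pig Pool.Agent.LE.H28A.pho (Pool.Agent.LE.H59A.dbl Pool.Agent.LE.H77.avs)
    (Pool.Agent.LE.H59A.blo Pool.Agent.LE.H77.avs) Pool.Agent.LE.H69.shi Pool.Agent.LE.H77.avs

theorem detT : DetStmt := Pool.Agent.LE.H83A.det Pool.Agent.LE.H46.fvd

theorem zerT : ZerStmt :=
  Pool.Agent.LE.H17.zer (Pool.Agent.LE.H3A.con (gevT pigT) detT) msaT

theorem cnvT : CnvStmt := Pool.Agent.LE.H65.cnv Pool.Agent.Mob.H58.bdc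

theorem mainZT.{u} : MainZ.{u} :=
  mainZ in2T blkT H32.lrg H58.edg H58.bdc H75.tbx (H6.sep wegT) H48.dcy
    (H46.cmp (H98.dic H32.nrm) H48.cen) H25.shf insT zerT cnvT

end Pool.Agent.LE.H93
end
end -- Pool.Agent.Helper93_LE.All

section -- Pool.Agent.Helper28_LE.Mes

/-!
# MES: measurability of the Lyapunov exponent
-/

set_option autoImplicit false

open MeasureTheory ProbabilityTheory Function Filter

open scoped ENNReal BigOperators Topology

noncomputable section

namespace Pool.Agent.LE.H28R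

open Pool.Agent.Anderson Pool.Agent.Loc Pool.Agent.Mob Pool.Agent.Helper54.Bal Pool.Agent.LE

variable {d : ℕ}

theorem cont_RM2 (Λ : Finset (Site d)) :
    Continuous fun p : ℝ × (Site d → ℝ) => RM p.2 Λ p.1 := by
  refine continuous_matrix fun x y => ?_
  simp only [RM, HM, Matrix.sub_apply, Matrix.smul_apply, Matrix.of_apply, smul_eq_mul]
  by_cases h : x = y
  · simp only [h, if_true]
    fun_prop
  · simp only [h, if_false]
    fun_prop

theorem meas_gr2 (Λ : Finset (Site d)) (x y : Site d) :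
    Measurable fun p : ℝ × (Site d → ℝ) => gr p.2 Λ p.1 x y := by
  by_cases h : x ∈ Λ ∧ y ∈ Λ
  · simp_rw [gr_eq_adj h.1 h.2]
    apply Measurable.mul
    · exact (cont_RM2 Λ).matrix_det.measurable.inv
    · have h1 : Continuous fun p : ℝ × (Site d → ℝ) => (RM p.2 Λ p.1).adjugate :=
        (cont_RM2 Λ).matrix_adjugate
      exact (h1.matrix_elem _ _).measurable
  · have : (fun p : ℝ × (Site d → ℝ) => gr p.2 Λ p.1 x y) = fun _ => 0 := by
      funext p
      unfold gr
      rw [dif_neg h]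
    rw [this]
    exact measurable_const

theorem meas_SG2 (L : ℕ) (m : ℝ) (v : Site d) :
    MeasurableSet {p : ℝ × (Site d → ℝ) | SG p.2 L m p.1 v} := by
  have e : {p : ℝ × (Site d → ℝ) | SG p.2 L m p.1 v} =
      {p : ℝ × (Site d → ℝ) | (RM p.2 (box v L) p.1).det = 0}ᶜ ∩
        ⋂ u : Site d, ⋂ _ : sd v u = L,
          {p : ℝ × (Site d → ℝ) | |gr p.2 (box v L) p.1 v u| ≤ Real.exp (-m * L)} := by
    ext p
    simp only [SG, Set.mem_inter_iff, Set.mem_compl_iff, Set.mem_iInter, Set.mem_ofPred_eq]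
  rw [e]
  refine MeasurableSet.inter (MeasurableSet.compl ?_)
    (MeasurableSet.iInter fun u => MeasurableSet.iInter fun _ => ?_)
  · exact measurableSet_eq_fun (cont_RM2 _).matrix_det.measurable measurable_const
  · exact measurableSet_le (meas_gr2 _ _ _).abs measurable_const

theorem meas_P (σ : ℝ) (L : ℕ) (m : ℝ) :
    Measurable fun E : ℝ => PP d (gl σ) {V | SG V L m E 0} :=
  measurable_measure_prodMk_left (ν := PP d (gl σ)) (meas_SG2 (d := d) L m 0)

theorem SG_mono {V : Site d → ℝ} {L : ℕ} {m m' E : ℝ} {v : Site d} (h : m' ≤ m)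
    (hs : SG V L m E v) : SG V L m' E v := by
  refine ⟨hs.1, fun u hu => (hs.2 u hu).trans (Real.exp_le_exp.2 ?_)⟩
  have hL : (0 : ℝ) ≤ L := Nat.cast_nonneg L
  nlinarith

theorem lt_iff {σ E g c : ℝ} (h : LyaAt d σ E g) : g < c ↔
    ∃ k : ℚ, (k : ℝ) < c ∧ Tendsto (fun L : ℕ => PP d (gl σ) {V | SG V L (k : ℝ) E 0}) atTop
      (𝓝 0) := by
  constructor
  · intro hg
    obtain ⟨k, hk1, hk2⟩ := exists_rat_btwn hg
    refine ⟨k, hk2, ?_⟩
    have h1 := (h.2 ((k : ℝ) - g) (by linarith)).1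
    have e : g + ((k : ℝ) - g) = k := by ring
    rw [e] at h1
    exact h1
  · rintro ⟨k, hk, ht⟩
    refine lt_of_le_of_lt ?_ hk
    by_contra hc
    have hc : (k : ℝ) < g := not_le.1 hc
    have h2 := (h.2 (g - k) (by linarith)).2
    have e : g - (g - (k : ℝ)) = k := by ring
    rw [e] at h2
    have h3 := ht.add h2
    rw [add_zero] at h3
    have h4 : ∀ L : ℕ, (1 : ℝ≥0∞) ≤ PP d (gl σ) {V | SG V L (k : ℝ) E 0} +
        PP d (gl σ) {V | ¬ SG V L (k : ℝ) E 0} := by
      intro L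
      have h5 : (Set.univ : Set (Site d → ℝ)) ⊆
          {V | SG V L (k : ℝ) E 0} ∪ {V | ¬ SG V L (k : ℝ) E 0} := by
        intro V _
        exact Classical.em _
      calc (1 : ℝ≥0∞) = PP d (gl σ) Set.univ := measure_univ.symm
        _ ≤ PP d (gl σ) ({V | SG V L (k : ℝ) E 0} ∪ {V | ¬ SG V L (k : ℝ) E 0}) :=
          measure_mono h5
        _ ≤ _ := measure_union_le _ _
    have h6 : (1 : ℝ≥0∞) ≤ 0 := ge_of_tendsto' h3 h4
    exact absurd h6 (by simp)

theorem mes : MesStmt := by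
  intro d σ γ _ _ h c
  have e : {E : ℝ | γ E < c} = ⋃ k : ℚ, ⋃ _ : (k : ℝ) < c,
      {E : ℝ | Tendsto (fun L : ℕ => PP d (gl σ) {V | SG V L (k : ℝ) E 0}) atTop (𝓝 0)} := by
    ext E
    simp only [Set.mem_iUnion, Set.mem_ofPred_eq, exists_prop]
    exact lt_iff (h E)
  rw [e]
  refine MeasurableSet.iUnion fun k => MeasurableSet.iUnion fun _ => ?_
  exact measurableSet_tendsto (𝓝 0) fun L => meas_P σ L k

end Pool.Agent.LE.H28R
end
end -- Pool.Agent.Helper28_LE.Mes

section -- Pool.Agent.Helper28_LE.Nrm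

/-!
# NRM: the L² norm with the average over base points
-/

set_option autoImplicit false

open MeasureTheory ProbabilityTheory Function Filter

open scoped ENNReal BigOperators Topology

noncomputable section

namespace Pool.Agent.LE.H28N

open Pool.Agent.Anderson Pool.Agent.Loc Pool.Agent.Mob Pool.Agent.LE

/-! ### averages -/

theorem den_pos (d R : ℕ) : (0 : ℝ) < (2 * (R : ℝ) + 1) ^ d := by positivity

theorem card_box0 (d R : ℕ) : ((box (0 : Site d) R).card : ℝ) = (2 * (R : ℝ) + 1) ^ d := by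
  have h : (box (0 : Site d) R).card = (2 * R + 1) ^ d := by
    unfold box
    rw [Pi.card_Icc]
    simp only [Int.card_Icc, Pi.zero_apply, zero_add, zero_sub, sub_neg_eq_add]
    rw [Finset.prod_const, Finset.card_univ, Fintype.card_fin]
    congr 1
    omega
  rw [h]
  push_cast
  ring

theorem Av_congr {d : ℕ} {R : ℕ} {f g : Site d → ℝ}
    (h : ∀ a ∈ box (0 : Site d) R, f a = g a) : Av R f = Av R g := by
  unfold Av
  rw [Finset.sum_congr rfl h]

theorem Av_mono {d : ℕ} {R : ℕ} {f g : Site d → ℝ}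
    (h : ∀ a ∈ box (0 : Site d) R, f a ≤ g a) : Av R f ≤ Av R g := by
  unfold Av
  exact div_le_div_of_nonneg_right (Finset.sum_le_sum h) (den_pos d R).le

theorem Av_nonneg {d : ℕ} {R : ℕ} {f : Site d → ℝ}
    (h : ∀ a ∈ box (0 : Site d) R, 0 ≤ f a) : 0 ≤ Av R f := by
  unfold Av
  exact div_nonneg (Finset.sum_nonneg h) (den_pos d R).le

theorem Av_add {d : ℕ} {R : ℕ} (f g : Site d → ℝ) :
    Av R (fun a => f a + g a) = Av R f + Av R g := by
  unfold Av
  rw [Finset.sum_add_distrib, add_div]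

theorem Av_sub {d : ℕ} {R : ℕ} (f g : Site d → ℝ) :
    Av R (fun a => f a - g a) = Av R f - Av R g := by
  unfold Av
  rw [Finset.sum_sub_distrib, sub_div]

theorem Av_mul {d : ℕ} {R : ℕ} (c : ℝ) (f : Site d → ℝ) :
    Av R (fun a => c * f a) = c * Av R f := by
  unfold Av
  rw [← Finset.mul_sum, mul_div_assoc]

theorem Av_const {d : ℕ} {R : ℕ} (c : ℝ) : Av R (fun _ : Site d => c) = c := by
  unfold Av
  rw [Finset.sum_const, nsmul_eq_mul, card_box0]
  field_simp

/-! ### square integrable functions -/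

section one

variable {Ω : Type} [MeasurableSpace Ω] {P : Measure Ω}

theorem int_mul {f g : Ω → ℝ} (hf : Measurable f) (hg : Measurable g)
    (hf2 : Integrable (fun ω => f ω ^ 2) P) (hg2 : Integrable (fun ω => g ω ^ 2) P) :
    Integrable (fun ω => f ω * g ω) P := by
  refine Integrable.mono' (hf2.add hg2) (hf.mul hg).aestronglyMeasurable ?_
  refine Filter.Eventually.of_forall fun ω => ?_
  rw [Real.norm_eq_abs, abs_mul]
  simp only [Pi.add_apply]
  nlinarith only [sq_nonneg (|f ω| - |g ω|), sq_abs (f ω), sq_abs (g ω), sq_nonneg (f ω),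
    sq_nonneg (g ω)]

theorem int_add_sq {f g : Ω → ℝ} (hf : Measurable f) (hg : Measurable g)
    (hf2 : Integrable (fun ω => f ω ^ 2) P) (hg2 : Integrable (fun ω => g ω ^ 2) P) (s t : ℝ) :
    Integrable (fun ω => (s * f ω + t * g ω) ^ 2) P ∧
      ∫ ω, (s * f ω + t * g ω) ^ 2 ∂P = s ^ 2 * ∫ ω, f ω ^ 2 ∂P + 2 * s * t * ∫ ω, f ω * g ω ∂P +
        t ^ 2 * ∫ ω, g ω ^ 2 ∂P := by
  have hm := int_mul hf hg hf2 hg2
  have he : (fun ω => (s * f ω + t * g ω) ^ 2) =
      fun ω => s ^ 2 * f ω ^ 2 + 2 * s * t * (f ω * g ω) + t ^ 2 * g ω ^ 2 := by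
    funext ω; ring
  have i1 : Integrable (fun ω => s ^ 2 * f ω ^ 2) P := hf2.const_mul _
  have i2 : Integrable (fun ω => 2 * s * t * (f ω * g ω)) P := hm.const_mul _
  have i3 : Integrable (fun ω => t ^ 2 * g ω ^ 2) P := hg2.const_mul _
  have i12 : Integrable (fun ω => s ^ 2 * f ω ^ 2 + 2 * s * t * (f ω * g ω)) P := i1.add i2
  rw [he]
  refine ⟨i12.add i3, ?_⟩
  rw [integral_add i12 i3, integral_add i1 i2, integral_const_mul, integral_const_mul,
    integral_const_mul]

theorem int_abs_le [IsProbabilityMeasure P] {f : Ω → ℝ} (hf : Measurable f)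
    (hf2 : Integrable (fun ω => f ω ^ 2) P) : (∫ ω, |f ω| ∂P) ^ 2 ≤ ∫ ω, f ω ^ 2 ∂P := by
  have h1 : Integrable (fun ω => |f ω| * 1) P :=
    int_mul hf.abs measurable_const (by simpa using hf2) (by simp)
  have h2 := (int_add_sq (P := P) hf.abs (measurable_const : Measurable fun _ : Ω => (1 : ℝ))
    (by simpa using hf2) (by simp) 1 (-(∫ ω, |f ω| ∂P))).2
  have h3 : 0 ≤ ∫ ω, (1 * |f ω| + -(∫ ω, |f ω| ∂P) * 1) ^ 2 ∂P :=
    integral_nonneg fun ω => sq_nonneg _
  rw [h2] at h3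
  simp only [sq_abs, mul_one, one_pow, integral_const, probReal_univ, smul_eq_mul, one_mul] at h3
  nlinarith only [h3]

end one

/-! ### the norm -/

section two

variable {d : ℕ} {Ω : Type} [MeasurableSpace Ω] {P : Measure Ω} {R : ℕ}

theorem nA_nonneg (f : Site d → Ω → ℝ) : 0 ≤ nA P R f := Real.sqrt_nonneg _

theorem nA_sq (f : Site d → Ω → ℝ) : nA P R f ^ 2 = Av R fun a => ∫ ω, f a ω ^ 2 ∂P := by
  unfold nA
  rw [Real.sq_sqrt]
  exact Av_nonneg fun a _ => integral_nonneg fun ω => sq_nonneg _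

theorem adm_lin {f g : Site d → Ω → ℝ} (hf : Adm P R f) (hg : Adm P R g) (s t : ℝ) :
    Adm P R (fun a ω => s * f a ω + t * g a ω) := by
  intro a ha
  obtain ⟨f1, f2⟩ := hf a ha
  obtain ⟨g1, g2⟩ := hg a ha
  exact ⟨(f1.const_mul s).add (g1.const_mul t), (int_add_sq f1 g1 f2 g2 s t).1⟩

/-- the mixed term -/
def mx (P : Measure Ω) (R : ℕ) (f g : Site d → Ω → ℝ) : ℝ := Av R fun a => ∫ ω, f a ω * g a ω ∂P

theorem nA_lin {f g : Site d → Ω → ℝ} (hf : Adm P R f) (hg : Adm P R g) (s t : ℝ) :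
    nA P R (fun a ω => s * f a ω + t * g a ω) ^ 2 =
      s ^ 2 * nA P R f ^ 2 + 2 * s * t * mx P R f g + t ^ 2 * nA P R g ^ 2 := by
  rw [nA_sq, nA_sq, nA_sq, mx, ← Av_mul, ← Av_mul, ← Av_mul, ← Av_add, ← Av_add]
  refine Av_congr fun a ha => ?_
  obtain ⟨f1, f2⟩ := hf a ha
  obtain ⟨g1, g2⟩ := hg a ha
  exact (int_add_sq f1 g1 f2 g2 s t).2

theorem cs {f g : Site d → Ω → ℝ} (hf : Adm P R f) (hg : Adm P R g) :
    mx P R f g ≤ nA P R f * nA P R g := by
  have hA := nA_nonneg (P := P) (R := R) f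
  have hB := nA_nonneg (P := P) (R := R) g
  have key : ∀ s t : ℝ, 0 ≤ s ^ 2 * nA P R f ^ 2 + 2 * s * t * mx P R f g +
      t ^ 2 * nA P R g ^ 2 := by
    intro s t
    rw [← nA_lin hf hg s t]
    exact sq_nonneg _
  rcases hA.eq_or_lt with h0 | h0
  · -- norm of f is zero
    by_contra hc
    have hc := not_le.1 hc
    rw [← h0] at hc key
    rw [zero_mul] at hc
    have h1 := key (-(nA P R g ^ 2 + 1)) (mx P R f g)
    have h2 : 0 < mx P R f g ^ 2 := by positivity
    nlinarith only [h1, h2, sq_nonneg (nA P R g)]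
  · rcases hB.eq_or_lt with h0' | h0'
    · by_contra hc
      have hc := not_le.1 hc
      rw [← h0'] at hc key
      rw [mul_zero] at hc
      have h1 := key (mx P R f g) (-(nA P R f ^ 2 + 1))
      have h2 : 0 < mx P R f g ^ 2 := by positivity
      nlinarith only [h1, h2, sq_nonneg (nA P R f)]
    · have h1 := key (nA P R g) (-(nA P R f))
      have h2 : 2 * (nA P R f * nA P R g) * mx P R f g ≤
          2 * (nA P R f * nA P R g) * (nA P R f * nA P R g) := by nlinarith only [h1]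
      exact le_of_mul_le_mul_left h2 (by positivity)

theorem nA_add_le {f g : Site d → Ω → ℝ} (hf : Adm P R f) (hg : Adm P R g) :
    nA P R (fun a ω => f a ω + g a ω) ≤ nA P R f + nA P R g := by
  have h := nA_lin hf hg 1 1
  simp only [one_mul] at h
  have hc := cs hf hg
  refine abs_le_of_sq_le_sq' ?_ (add_nonneg (nA_nonneg _) (nA_nonneg _)) |>.2
  rw [h]
  nlinarith only [hc]

theorem nA_mono {f g : Site d → Ω → ℝ} (hg : Adm P R g)
    (h : ∀ a ∈ box (0 : Site d) R, ∀ ω, |f a ω| ≤ |g a ω|) : nA P R f ≤ nA P R g := by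
  unfold nA
  refine Real.sqrt_le_sqrt (Av_mono fun a ha => ?_)
  refine integral_mono_of_nonneg (Filter.Eventually.of_forall fun ω => sq_nonneg _) (hg a ha).2
    (Filter.Eventually.of_forall fun ω => ?_)
  exact sq_le_sq.2 (h a ha ω)

theorem nA_mul (f : Site d → Ω → ℝ) (c : ℝ) :
    nA P R (fun a ω => c * f a ω) = |c| * nA P R f := by
  unfold nA
  have h : (Av R fun a => ∫ ω, (c * f a ω) ^ 2 ∂P) =
      c ^ 2 * Av R fun a => ∫ ω, f a ω ^ 2 ∂P := by
    rw [← Av_mul]
    refine Av_congr fun a _ => ?_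
    rw [← integral_const_mul]
    congr 1
    funext ω
    ring
  rw [h, Real.sqrt_mul (sq_nonneg c), Real.sqrt_sq_eq_abs]

theorem nA_le_of {f : Site d → Ω → ℝ} {B : ℝ} (hB : 0 ≤ B)
    (h : ∀ a ∈ box (0 : Site d) R, ∫ ω, f a ω ^ 2 ∂P ≤ B ^ 2) : nA P R f ≤ B := by
  unfold nA
  rw [Real.sqrt_le_left hB]
  refine (Av_mono h).trans_eq ?_
  exact Av_const _

theorem nA_zero : nA P R (fun (_ : Site d) (_ : Ω) => (0 : ℝ)) = 0 := by
  have h : nA P R (fun (_ : Site d) (_ : Ω) => (0 : ℝ)) ≤ 0 := by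
    refine nA_le_of le_rfl fun a _ => ?_
    simp
  exact le_antisymm h (nA_nonneg _)

theorem adm_zero : Adm P R (fun (_ : Site d) (_ : Ω) => (0 : ℝ)) := by
  intro a _
  refine ⟨measurable_const, ?_⟩
  simp

theorem sum_le (n : ℕ) (f : ℕ → Site d → Ω → ℝ) (B : ℝ) (hf : ∀ i < n, Adm P R (f i))
    (hB : ∀ i < n, nA P R (f i) ≤ B) :
    Adm P R (fun a ω => ∑ i ∈ Finset.range n, f i a ω) ∧
      nA P R (fun a ω => ∑ i ∈ Finset.range n, f i a ω) ≤ n * B := by
  induction n with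
  | zero =>
    simp only [Finset.range_zero, Finset.sum_empty]
    refine ⟨adm_zero, ?_⟩
    rw [nA_zero]
    simp
  | succ n ih =>
    obtain ⟨h1, h2⟩ := ih (fun i hi => hf i (by omega)) (fun i hi => hB i (by omega))
    simp only [Finset.sum_range_succ]
    have h3 := adm_lin h1 (hf n (by omega)) 1 1
    simp only [one_mul] at h3
    refine ⟨h3, (nA_add_le h1 (hf n (by omega))).trans ?_⟩
    have h4 := hB n (by omega)
    push_cast
    linarith

theorem av_abs_le [IsProbabilityMeasure P] {f : Site d → Ω → ℝ} (hf : Adm P R f) :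
    Av R (fun a => ∫ ω, |f a ω| ∂P) ≤ nA P R f := by
  set A : ℝ := Av R (fun a : Site d => ∫ ω, |f a ω| ∂P) with hA
  have hA0 : 0 ≤ A := Av_nonneg fun a _ => integral_nonneg fun ω => abs_nonneg _
  have h1 : 0 ≤ Av R (fun a : Site d => ((∫ ω, |f a ω| ∂P) - A) ^ 2) :=
    Av_nonneg fun a _ => sq_nonneg _
  have h2 : Av R (fun a : Site d => ((∫ ω, |f a ω| ∂P) - A) ^ 2) =
      Av R (fun a : Site d => (∫ ω, |f a ω| ∂P) ^ 2) - A ^ 2 := by
    have e1 : (fun a : Site d => ((∫ ω, |f a ω| ∂P) - A) ^ 2) =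
        fun a : Site d => (∫ ω, |f a ω| ∂P) ^ 2 + (-(2 * A) * (∫ ω, |f a ω| ∂P) + A ^ 2) := by
      funext a; ring
    rw [e1, Av_add, Av_add, Av_mul, Av_const, ← hA]
    ring
  have h3 : Av R (fun a : Site d => (∫ ω, |f a ω| ∂P) ^ 2) ≤ nA P R f ^ 2 := by
    rw [nA_sq]
    exact Av_mono fun a ha => int_abs_le (hf a ha).1 (hf a ha).2
  have h4 : A ^ 2 ≤ nA P R f ^ 2 := by linarith
  exact (abs_le_of_sq_le_sq' h4 (nA_nonneg _)).2

end two

theorem nrm : NrmStmt := by
  intro d Ω _ P _ R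
  refine ⟨fun f g hf hg => ⟨?_, nA_add_le hf hg, ?_⟩, fun f g hg h => nA_mono hg h,
    fun f c => nA_mul f c, fun n f B hf hB => sum_le n f B hf hB,
    fun f B hB h => nA_le_of hB h, fun f hf => av_abs_le hf⟩
  · have h := adm_lin hf hg 1 1
    simpa only [one_mul] using h
  · have h1 := nA_lin hf hg 1 (-1)
    have h2 := nA_lin hf hg (1 / 2) (1 / 2)
    have e1 : (fun (a : Site d) (ω : Ω) => f a ω - g a ω) =
        fun (a : Site d) (ω : Ω) => 1 * f a ω + (-1) * g a ω := by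
      funext a ω; ring
    have e2 : (fun (a : Site d) (ω : Ω) => (f a ω + g a ω) / 2) =
        fun (a : Site d) (ω : Ω) => 1 / 2 * f a ω + 1 / 2 * g a ω := by
      funext a ω; ring
    rw [e1, e2, h1, h2]
    ring

end Pool.Agent.LE.H28N
end
end -- Pool.Agent.Helper28_LE.Nrm

section -- Pool.Agent.Helper39_LE.NXJ

/-!
# Row NXJ: from the site `0` and fixed constants to all eigenfunctions, lower bound for the rate
-/

set_option autoImplicit false

open MeasureTheory Function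

open scoped ENNReal BigOperators

noncomputable section

namespace Pool.Agent.LE.H39R

open Pool.Agent.Anderson Pool.Agent.Loc Pool.Agent.Helper54.Bal
  Pool.Agent.Helper96.EXP Pool.Agent.LE Pool.Agent.LE.H15

variable {d : ℕ}

/-- a real solution which does not vanish at `y` gives a normalised solution of the translated
potential -/
theorem sol_of_real' {V : Site d → ℝ} {E B m : ℝ} (hm : 0 < m) {φ : Site d → ℝ}
    (h : ∀ x, lapR φ x + V x * φ x = E * φ x) (hd : ∀ x, |φ x| ≤ B * Real.exp (-m * sd 0 x))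
    {y : Site d} (hy : φ y ≠ 0) :
    ∃ C : ℝ, Sol C m (tau y V) E (fun x => φ (x + y) / φ y) ∧
      lapR (fun x => φ (x + y) / φ y) 0 + tau y V 0 = E := by
  have hB : 0 ≤ B := by
    have h1 := (abs_nonneg _).trans (hd 0)
    have h2 := Real.exp_pos (-m * sd (0 : Site d) 0)
    by_contra hc
    push Not at hc
    nlinarith only [h1, h2, hc]
  have hn0 : φ (0 + y) / φ y = 1 := by rw [zero_add]; exact div_self hy
  have hlap : ∀ x, lapR (fun x => φ (x + y) / φ y) x = lapR φ (x + y) / φ y := by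
    intro x
    unfold lapR
    rw [Finset.sum_div]
    refine Finset.sum_congr rfl fun i _ => ?_
    have e1 : x + Pi.single i 1 + y = x + y + Pi.single i 1 := by abel
    have e2 : x - Pi.single i 1 + y = x + y - Pi.single i 1 := by abel
    beta_reduce
    rw [e1, e2, add_div]
  have heq : ∀ x, lapR (fun x => φ (x + y) / φ y) x + tau y V x * (φ (x + y) / φ y) =
      E * (φ (x + y) / φ y) := by
    intro x
    rw [hlap]
    have := h (x + y)
    unfold tau
    rw [← mul_div_assoc, ← add_div, this, mul_div_assoc]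
  refine ⟨B * Real.exp (m * sd 0 y) / |φ y|, ⟨hn0, ?_, fun x _ => heq x⟩, ?_⟩
  · intro x
    have h1 : |φ (x + y) / φ y| ≤ B * Real.exp (-m * sd 0 (x + y)) / |φ y| := by
      rw [abs_div]
      exact div_le_div_of_nonneg_right (hd _) (abs_nonneg _)
    have h2 : (sd 0 x : ℝ) ≤ sd 0 (x + y) + sd 0 y := by
      have := sd_triangle 0 (x + y) x
      rw [sd_add_right] at this
      exact_mod_cast this
    have h3 : Real.exp (-m * sd 0 (x + y)) ≤ Real.exp (m * sd 0 y) * Real.exp (-m * sd 0 x) := by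
      rw [← Real.exp_add, Real.exp_le_exp]
      nlinarith only [hm, h2]
    refine h1.trans ?_
    rw [div_mul_eq_mul_div]
    refine div_le_div_of_nonneg_right ?_ (abs_nonneg _)
    calc B * Real.exp (-m * sd 0 (x + y)) ≤ B * (Real.exp (m * sd 0 y) * Real.exp (-m * sd 0 x)) :=
          mul_le_mul_of_nonneg_left h3 hB
      _ = B * Real.exp (m * sd 0 y) * Real.exp (-m * sd 0 x) := by ring
  · have := heq 0
    rw [hn0, mul_one, mul_one] at this
    exact this


theorem nxj : NxjStmt := by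
  intro d σ γ _ hyp
  have h1 : ∀ p : Site d × ℕ × ℕ × ℚ, ∀ᵐ V ∂(PP d (gl σ)), 0 < (p.2.2.2 : ℝ) →
      ∀ E ∈ Set.Icc (-(p.2.1 : ℝ)) p.2.1, (p.2.2.2 : ℝ) < γ E → ∀ n,
      Sol (p.2.1 : ℝ) (1 / ((p.2.2.1 : ℝ) + 1)) (tau p.1 V) E n →
        lapR n 0 + tau p.1 V 0 = E → ∃ B : ℝ, Dec B (p.2.2.2 : ℝ) n := by
    rintro ⟨y, k, j, q⟩
    by_cases hq : 0 < (q : ℝ)
    · have h2 := hyp (k : ℝ) (1 / ((j : ℝ) + 1)) (q : ℝ) (Set.Icc (-(k : ℝ)) k) (by positivity)
        hq isCompact_Icc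
      have h3 := (shiftInv_PP (d := d) (gl σ) y).quasiMeasurePreserving.ae h2
      filter_upwards [h3] with V hV _
      exact hV
    · exact Filter.Eventually.of_forall fun V h => absurd h hq
  have h2 := ae_all_iff.2 h1
  filter_upwards [h2] with V hV E ψ hψ hdec c hc
  obtain ⟨B, m, hm, hB⟩ := hdec
  have hB0 : 0 ≤ B := by
    have h1 := (norm_nonneg _).trans (hB 0)
    have h2 := Real.exp_pos (-m * sd (0 : Site d) 0)
    by_contra hc
    push Not at hc
    nlinarith only [h1, h2, hc]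
  rcases le_or_gt c 0 with hc0 | hc0
  · refine ⟨B, fun x => (hB x).trans (mul_le_mul_of_nonneg_left ?_ hB0)⟩
    rw [Real.exp_le_exp]
    have : (0 : ℝ) ≤ sd 0 x := by positivity
    nlinarith only [hm, hc0]
  obtain ⟨q, hq1, hq2⟩ := exists_rat_btwn hc
  have hq0 : 0 < (q : ℝ) := hc0.trans hq1
  have key : ∀ φ : Site d → ℝ, (∀ x, lapR φ x + V x * φ x = E * φ x) →
      (∀ x, |φ x| ≤ B * Real.exp (-m * sd 0 x)) →
      ∃ B' : ℝ, ∀ x, |φ x| ≤ B' * Real.exp (-c * sd 0 x) := by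
    intro φ e1 e2
    by_cases h0 : ∀ y, φ y = 0
    · refine ⟨0, fun x => ?_⟩
      rw [h0 x, abs_zero, zero_mul]
    push Not at h0
    obtain ⟨y, hy⟩ := h0
    obtain ⟨C, s1, s2⟩ := sol_of_real' hm e1 e2 hy
    obtain ⟨k, hk⟩ := exists_nat_ge (max C |E|)
    obtain ⟨j, hj⟩ := exists_nat_one_div_lt hm
    have hE : E ∈ Set.Icc (-(k : ℝ)) k := abs_le.1 ((le_max_right _ _).trans hk)
    obtain ⟨B', hB'⟩ := hV (y, k, j, q) hq0 E hE hq2 _
      (sol_mono s1 ((le_max_left _ _).trans hk) hj.le) s2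
    have hB'0 : 0 ≤ B' := hB'.nonneg
    refine ⟨|φ y| * (B' * Real.exp (q * sd 0 y)), fun x => ?_⟩
    have h3 := hB' (x - y)
    simp only [sub_add_cancel] at h3
    have hy' : 0 < |φ y| := abs_pos.2 hy
    rw [abs_div, div_le_iff₀ hy'] at h3
    have h4 : (sd 0 x : ℝ) ≤ sd 0 (x - y) + sd 0 y := by
      have h5 := sd_triangle 0 (x - y) x
      have h6 := sd_add_right (x - y) y
      rw [sub_add_cancel, sd_comm] at h6
      rw [h6] at h5
      exact_mod_cast h5
    have h7 : (0 : ℝ) ≤ sd 0 x := by positivity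
    have h8 : Real.exp (-q * sd 0 (x - y)) ≤
        Real.exp (q * sd 0 y) * Real.exp (-c * sd 0 x) := by
      rw [← Real.exp_add, Real.exp_le_exp]
      nlinarith only [hc0, hq1, h4]
    calc |φ x| ≤ B' * Real.exp (-q * sd 0 (x - y)) * |φ y| := h3
      _ ≤ B' * (Real.exp (q * sd 0 y) * Real.exp (-c * sd 0 x)) * |φ y| :=
          mul_le_mul_of_nonneg_right (mul_le_mul_of_nonneg_left h8 hB'0) hy'.le
      _ = |φ y| * (B' * Real.exp (q * sd 0 y)) * Real.exp (-c * sd 0 x) := by ring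
  have hre : ∀ y, (lap ψ y).re = lapR (fun z => (ψ z).re) y := by
    intro y
    unfold lap lapR
    rw [Complex.re_sum]
    exact Finset.sum_congr rfl fun i _ => Complex.add_re _ _
  have him : ∀ y, (lap ψ y).im = lapR (fun z => (ψ z).im) y := by
    intro y
    unfold lap lapR
    rw [Complex.im_sum]
    exact Finset.sum_congr rfl fun i _ => Complex.add_im _ _
  obtain ⟨B₁, hB₁⟩ := key (fun z => (ψ z).re) (by
    intro y
    have := congrArg Complex.re (hψ y)
    rw [Complex.add_re, Complex.re_ofReal_mul, Complex.re_ofReal_mul, hre] at this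
    exact this) fun y => (Complex.abs_re_le_norm _).trans (hB y)
  obtain ⟨B₂, hB₂⟩ := key (fun z => (ψ z).im) (by
    intro y
    have := congrArg Complex.im (hψ y)
    rw [Complex.add_im, Complex.im_ofReal_mul, Complex.im_ofReal_mul, him] at this
    exact this) fun y => (Complex.abs_im_le_norm _).trans (hB y)
  refine ⟨B₁ + B₂, fun x => ?_⟩
  rw [add_mul]
  exact (Complex.norm_le_abs_re_add_abs_im _).trans (add_le_add (hB₁ x) (hB₂ x))

end Pool.Agent.LE.H39R
end
end -- Pool.Agent.Helper39_LE.NXJ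

section -- Pool.Agent.Helper3_LE.AlgR

/-!
# ALG: all the sites of a cube are good with rates close to the Lyapunov exponent
-/

set_option autoImplicit false
set_option linter.unusedSectionVars false

open MeasureTheory ProbabilityTheory Function Filter

open scoped ENNReal BigOperators Topology

noncomputable section

namespace Pool.Agent.LE.H3R

open Pool.Agent.Anderson Pool.Agent.Loc Pool.Agent.Mob Pool.Agent.Helper54.Bal
  Pool.Agent.Mob.H75 Pool.Agent.LE.H3A Pool.Agent.LE.H3G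

theorem prob_nac {d : ℕ} (ν : Measure ℝ) [IsProbabilityMeasure ν] (L : ℕ) (m E : ℝ)
    (a : Site d) :
    PP d ν {V | ¬ AllGoodC V a L m E} = PP d ν {V | ¬ AllGoodC V 0 L m E} := by
  have hm0 : MeasurableSet {V : Site d → ℝ | ¬ AllGoodC V 0 L m E} :=
    (measurableSet_allGoodC L m E 0).compl
  rw [← (shiftInv_PP ν a).measure_preimage hm0.nullMeasurableSet]
  congr 1
  ext V
  exact not_congr (allGoodC_tau V a L m E).symm

/-- ALG -/
theorem alg (gev : GevGStmt) (det : DetGStmt) : AlgStmt := by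
  intro d σ E g ε hd hσ hg hε
  obtain ⟨_, hlya⟩ := hg
  rw [ENNReal.tendsto_nhds_zero]
  intro c hc
  obtain ⟨p, hp, hpc⟩ : ∃ p : ℝ, 0 < p ∧ ENNReal.ofReal p ≤ c := by
    rcases eq_or_ne c ⊤ with h | h
    · exact ⟨1, one_pos, h ▸ le_top⟩
    · exact ⟨c.toReal, ENNReal.toReal_pos hc.ne' h, by rw [ENNReal.ofReal_toReal h]⟩
  have hev := ENNReal.tendsto_nhds_zero.1 (hlya (ε / 2) (by positivity)).2
    (ENNReal.ofReal (p / 2)) (by
      rw [gt_iff_lt, ENNReal.ofReal_pos]
      positivity)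
  obtain ⟨L₁, hL₁⟩ := eventually_atTop.1 hev
  obtain ⟨Q, hQ, l, hl1, hgev⟩ := gev d σ E (ε / 24) (p / 2) hd hσ (by positivity) (by positivity)
  obtain ⟨L₂, hdet⟩ := det d (ε / 24) hd (by positivity)
  rw [eventually_atTop]
  refine ⟨Q * (l + Q + 1) + L₁ + L₂, fun L hL => ?_⟩
  obtain ⟨ℓ, hℓ⟩ : ∃ ℓ, ℓ = L / Q := ⟨_, rfl⟩
  have hQ0 : 0 < Q := hQ
  have a1 : Q * ℓ ≤ L := by
    rw [hℓ]
    exact Nat.mul_div_le L Q
  have a2 : L < Q * (ℓ + 1) := by
    rw [hℓ]
    exact Nat.lt_mul_div_succ L hQ0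
  have b1 : l + Q + 1 ≤ ℓ := by
    rw [hℓ, Nat.le_div_iff_mul_le hQ0]
    rw [mul_comm]
    omega
  obtain ⟨N, a, hN, _, hP⟩ := hgev ℓ ℓ (by omega) (by omega)
  have hsub : {V : Site d → ℝ | ¬ AllGoodC V a L (g - ε) E} ⊆
      {V | ¬ SG V L (g - ε / 2) E a} ∪ {V | ¬ (GoodG V N Q ℓ a E (ε / 24) ∧
        GoodG V N Q ℓ a E (ε / 24) ∧ CrossG V N Q ℓ ℓ a E (ε / 24))} := by
    intro V hV
    by_contra hcon
    rw [Set.mem_union, not_or] at hcon
    obtain ⟨h1, h2⟩ := hcon
    have h1' : SG V L (g - ε / 2) E a := not_not.1 h1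
    have h2' := not_not.1 h2
    apply hV
    rw [allGoodC_iff]
    intro s hs
    have h0 : a + sm ℓ (0 : Site d) = a := by
      funext j
      simp [sm]
    have h3 := hdet (g - ε / 2) V N Q ℓ L a E hQ (by omega) (by omega) a1 a2 hN h2'.1 0
      (by rw [mem_box, sd_self]; exact Nat.zero_le _) (by rw [h0]; exact h1') s (by
        rw [mem_box] at hs ⊢
        have h4 : Q * (ℓ + 1) = Q * ℓ + Q := by ring
        have h5 : Q ≤ Q * ℓ := Nat.le_mul_of_pos_right _ (by omega)
        omega)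
    have h6 : g - ε / 2 - 12 * (ε / 24) = g - ε := by ring
    rw [h6] at h3
    exact h3
  rw [← prob_nac (gl σ) L (g - ε) E a]
  refine le_trans ?_ hpc
  calc PP d (gl σ) {V : Site d → ℝ | ¬ AllGoodC V a L (g - ε) E} ≤ _ := measure_mono hsub
    _ ≤ PP d (gl σ) {V | ¬ SG V L (g - ε / 2) E a} + PP d (gl σ) {V |
        ¬ (GoodG V N Q ℓ a E (ε / 24) ∧ GoodG V N Q ℓ a E (ε / 24) ∧
          CrossG V N Q ℓ ℓ a E (ε / 24))} := measure_union_le _ _
    _ ≤ ENNReal.ofReal (p / 2) + ENNReal.ofReal (p / 2) := by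
      gcongr
      rw [prob_nsg]
      exact hL₁ L (by omega)
    _ = ENNReal.ofReal p := by
      rw [← ENNReal.ofReal_add (by positivity) (by positivity), add_halves]

end Pool.Agent.LE.H3R
end
end -- Pool.Agent.Helper3_LE.AlgR

section -- Pool.Agent.Helper3_LE.LocG

/-!
# LOCG: decay with a fixed positive probability at arbitrarily large scales implies localization
-/

set_option autoImplicit false
set_option linter.unusedSectionVars false

open MeasureTheory ProbabilityTheory Function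

open scoped ENNReal BigOperators

noncomputable section

namespace Pool.Agent.LE.H3G

open Pool.Agent.Anderson Pool.Agent.Loc Pool.Agent.Mob Pool.Agent.Helper54.Bal
  Pool.Agent.Mob.H75 Pool.Agent.LE.H3A

/-- LOCG -/
theorem locg (zoo : ZooStmt) (gev : GevGStmt) (det : DetGStmt) (msa : MsaStmt) : LocGStmt := by
  intro d C₀ σ E κ δ hd hC hσ hκ hδ hex
  obtain ⟨p, hp, L₀, hmsa⟩ := msa d C₀ σ E (κ / 2) hC hσ (by positivity)
  obtain ⟨L₁, hzoo⟩ := zoo d σ E κ (3 * κ / 4) δ (p / 2) hd hσ (by linarith) hδ (by positivity) hex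
  obtain ⟨Q, hQ, l, hl1, hgev⟩ := gev d σ E (κ / 48) (p / 2) hd hσ (by positivity) (by positivity)
  obtain ⟨L₂, hdet⟩ := det d (κ / 48) hd (by positivity)
  obtain ⟨L, hL⟩ : ∃ L, L = Q * (l + Q + 1) + L₀ + L₁ + L₂ := ⟨_, rfl⟩
  apply hmsa L (by omega)
  obtain ⟨ℓ, hℓ⟩ : ∃ ℓ, ℓ = L / Q := ⟨_, rfl⟩
  have hQ0 : 0 < Q := hQ
  have a1 : Q * ℓ ≤ L := by
    rw [hℓ]
    exact Nat.mul_div_le L Q
  have a2 : L < Q * (ℓ + 1) := by
    rw [hℓ]
    exact Nat.lt_mul_div_succ L hQ0
  have b1 : l + Q + 1 ≤ ℓ := by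
    rw [hℓ, Nat.le_div_iff_mul_le hQ0]
    rw [mul_comm]
    omega
  obtain ⟨N, a, hN, _, hP⟩ := hgev ℓ ℓ (by omega) (by omega)
  have hsub : {V : Site d → ℝ | ¬ AllGoodC V a L (κ / 2) E} ⊆
      {V | ¬ SG V L (3 * κ / 4) E a} ∪ {V | ¬ (GoodG V N Q ℓ a E (κ / 48) ∧
        GoodG V N Q ℓ a E (κ / 48) ∧ CrossG V N Q ℓ ℓ a E (κ / 48))} := by
    intro V hV
    by_contra hcon
    rw [Set.mem_union, not_or] at hcon
    obtain ⟨h1, h2⟩ := hcon
    have h1' : SG V L (3 * κ / 4) E a := not_not.1 h1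
    have h2' := not_not.1 h2
    apply hV
    rw [allGoodC_iff]
    intro s hs
    have h0 : a + sm ℓ (0 : Site d) = a := by
      funext j
      simp [sm]
    have h3 := hdet (3 * κ / 4) V N Q ℓ L a E hQ (by omega) (by omega) a1 a2 hN h2'.1 0
      (by rw [mem_box, sd_self]; exact Nat.zero_le _) (by rw [h0]; exact h1') s (by
        rw [mem_box] at hs ⊢
        have h4 : Q * (ℓ + 1) = Q * ℓ + Q := by ring
        have h5 : Q ≤ Q * ℓ := Nat.le_mul_of_pos_right _ (by omega)
        omega)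
    have h6 : 3 * κ / 4 - 12 * (κ / 48) = κ / 2 := by ring
    rw [h6] at h3
    exact h3
  have hm0 : MeasurableSet {V : Site d → ℝ | ¬ AllGoodC V 0 L (κ / 2) E} :=
    (measurableSet_allGoodC L (κ / 2) E 0).compl
  rw [PL_eq_PP hm0 (fun W W' h => not_congr (allGoodC_congr h (κ / 2) E)),
    ← (shiftInv_PP (gl σ) a).measure_preimage hm0.nullMeasurableSet]
  have e : tau a ⁻¹' {V : Site d → ℝ | ¬ AllGoodC V 0 L (κ / 2) E} =
      {V : Site d → ℝ | ¬ AllGoodC V a L (κ / 2) E} := by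
    ext V
    exact not_congr (allGoodC_tau V a L (κ / 2) E)
  rw [e]
  calc PP d (gl σ) {V : Site d → ℝ | ¬ AllGoodC V a L (κ / 2) E} ≤ _ := measure_mono hsub
    _ ≤ PP d (gl σ) {V | ¬ SG V L (3 * κ / 4) E a} + PP d (gl σ) {V |
        ¬ (GoodG V N Q ℓ a E (κ / 48) ∧ GoodG V N Q ℓ a E (κ / 48) ∧
          CrossG V N Q ℓ ℓ a E (κ / 48))} := measure_union_le _ _
    _ ≤ ENNReal.ofReal (p / 2) + ENNReal.ofReal (p / 2) := by
      gcongr
      rw [prob_nsg]
      exact hzoo L (by omega)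
    _ = ENNReal.ofReal p := by
      rw [← ENNReal.ofReal_add (by positivity) (by positivity), add_halves]

end Pool.Agent.LE.H3G
end
end -- Pool.Agent.Helper3_LE.LocG

section -- Pool.Agent.Helper59_LE.Gevg

/-!
# GEVG: the good events at two scales
-/

set_option autoImplicit false

open MeasureTheory ProbabilityTheory Function Filter

open scoped ENNReal BigOperators

noncomputable section

namespace Pool.Agent.LE.H59

open Pool.Agent.Anderson Pool.Agent.Loc Pool.Agent.Helper54.Bal Pool.Agent.LE.H96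

variable {d : ℕ}

/-- the last part of `GoodG` -/
def GoodC6 (V : Site d → ℝ) (Q ℓ : ℕ) (a : Site d) (E κ₃ : ℝ) : Prop :=
  ∀ r < Q, ∀ s ∈ box a (8 * (Q * ℓ)), (RM V (box s (Q * ℓ + r)) E).det ≠ 0 ∧
    ∀ x y, |gr V (box s (Q * ℓ + r)) E x y| ≤ Real.exp (κ₃ * (Q * ℓ))

theorem gev6 (σ E κ₃ p : ℝ) (Q : ℕ) (hσ : σ ≠ 0) (hκ : 0 < κ₃)
    (hp : 0 < p) (hQ : 1 ≤ Q) :
    ∃ l₀ : ℕ, ∀ ℓ : ℕ, l₀ ≤ ℓ → ∀ a : Site d,
      PP d (gl σ) {V | ¬ GoodC6 V Q ℓ a E κ₃} ≤ ENNReal.ofReal p := by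
  classical
  have hν := bddDens_gl hσ
  set ρ : ℝ := 1 / |σ| with hρd
  have hρ := hν.1
  have hQr : (1 : ℝ) ≤ Q := by exact_mod_cast hQ
  have hsmall := poly_small (3 * d) (μ := κ₃) hκ 1 (12 ^ (3 * d) * (Q * (6 * ρ)))
    (q := p) hp
  obtain ⟨L₀, hL₀⟩ := eventually_atTop.1 hsmall
  refine ⟨max L₀ 1, fun ℓ hℓ a => ?_⟩
  obtain ⟨L, hL⟩ : ∃ L : ℕ, L = Q * ℓ := ⟨_, rfl⟩
  have hLr : (Q : ℝ) * ℓ = (L : ℝ) := by rw [hL]; push_cast; ring
  have hLL : L₀ ≤ L := by
    rw [hL]
    exact ((le_max_left _ _).trans hℓ).trans (Nat.le_mul_of_pos_left _ hQ)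
  have hQL : Q ≤ L := by
    rw [hL]
    exact Nat.le_mul_of_pos_right _ ((le_max_right _ _).trans hℓ)
  have hnum := hL₀ L hLL
  have hLnn : (0 : ℝ) ≤ L := Nat.cast_nonneg L
  obtain ⟨q, hq⟩ : ∃ q : ℝ, q = 6 * ρ * Real.exp (-κ₃ * L) := ⟨_, rfl⟩
  have hq0 : 0 ≤ q := by rw [hq]; positivity
  have hnum' : (24 * (L : ℝ) + 1) ^ (3 * d) * (Q * q) ≤ p := by
    refine le_trans ?_ hnum
    have h1 : (24 * (L : ℝ) + 1) ^ (3 * d) ≤ 12 ^ (3 * d) * (2 * (L : ℝ) + 1) ^ (3 * d) := by
      rw [← mul_pow]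
      apply pow_le_pow_left₀ (by positivity)
      linarith only
    calc (24 * (L : ℝ) + 1) ^ (3 * d) * (Q * q)
        ≤ 12 ^ (3 * d) * (2 * (L : ℝ) + 1) ^ (3 * d) * (Q * q) :=
          mul_le_mul_of_nonneg_right h1 (by positivity)
      _ = 12 ^ (3 * d) * (Q * (6 * ρ)) * (2 * (L : ℝ) + 1) ^ (3 * d) * Real.exp (-κ₃ * L) := by
          rw [hq]
          ring
  unfold GoodC6
  rw [← hL, hLr]
  set T : ℝ := Real.exp (κ₃ * L) with hT
  have hTpos : 0 < T := Real.exp_pos _
  have hTe : 6 * ρ / T = q := by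
    rw [div_eq_mul_inv, hT, ← Real.exp_neg, hq]
    congr 2
    ring
  set I : Finset (ℕ × Site d) := Finset.range Q ×ˢ box a (8 * L) with hI
  set M4 : Set (Site d → ℝ) := ⋃ i ∈ I, {V | (RM V (box i.2 (L + i.1)) E).det = 0} with hM4
  set M5 : Set (Site d → ℝ) := ⋃ i ∈ I, ⋃ z ∈ box i.2 (L + i.1) ×ˢ box i.2 (L + i.1),
    {V | T < |gr V (box i.2 (L + i.1)) E z.1 z.2|} with hM5
  have hnull : ∀ Λ : Finset (Site d), PP d (gl σ) {V | (RM V Λ E).det = 0} = 0 := by
    intro Λ
    have h1 : Pool.Agent.Mob.H75.Loc {V : Site d → ℝ | (RM V Λ E).det = 0} Λ := by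
      intro V V' h
      rw [Set.mem_ofPred_eq, Set.mem_ofPred_eq, RM_congr h]
    exact le_antisymm ((Pool.Agent.Mob.H75.PP_le_PL h1).trans (PL_det hν _ _ le_rfl E).le) zero_le
  have hweak : ∀ (Λ : Finset (Site d)) (x y : Site d),
      PP d (gl σ) {V | T < |gr V Λ E x y|} ≤ ENNReal.ofReal q := by
    intro Λ x y
    have h1 : Pool.Agent.Mob.H75.Loc {V : Site d → ℝ | T < |gr V Λ E x y|} Λ := by
      intro V V' h
      rw [Set.mem_ofPred_eq, Set.mem_ofPred_eq, gr_congr h]
    have h2 := (Pool.Agent.Mob.H75.PP_le_PL h1).trans (PL_weak hν Λ E x y hTpos)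
    rwa [hTe] at h2
  have p4 : PP d (gl σ) M4 = 0 :=
    le_antisymm ((measure_biUnion_finset_le _ _).trans
      (le_of_eq (Finset.sum_eq_zero fun i _ => hnull _))) zero_le
  have p5 : PP d (gl σ) M5 ≤ ENNReal.ofReal p := by
    apply union_le (q := (24 * L + 1) ^ (2 * d) * q)
    · intro i hi
      apply union_le (q := q)
      · intro z _
        exact hweak _ _ _
      · apply mul_le_mul_of_nonneg_right _ hq0
        rw [Finset.card_product, card_box]
        push_cast
        rw [← pow_add, show d + d = 2 * d by ring]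
        apply pow_le_pow_left₀ (by positivity)
        rw [hI, Finset.mem_product, Finset.mem_range] at hi
        have h3 : (i.1 : ℝ) ≤ L := by
          have : i.1 ≤ L := by omega
          exact_mod_cast this
        linarith only [h3]
    · refine le_trans ?_ hnum'
      rw [hI, Finset.card_product, Finset.card_range, card_box]
      push_cast
      calc (Q : ℝ) * (2 * (8 * (L : ℝ)) + 1) ^ d * ((24 * (L : ℝ) + 1) ^ (2 * d) * q)
          ≤ (Q : ℝ) * (24 * (L : ℝ) + 1) ^ d * ((24 * (L : ℝ) + 1) ^ (2 * d) * q) := by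
            apply mul_le_mul_of_nonneg_right _ (by positivity)
            apply mul_le_mul_of_nonneg_left _ (by positivity)
            apply pow_le_pow_left₀ (by positivity)
            linarith only
        _ = (24 * (L : ℝ) + 1) ^ (3 * d) * (Q * q) := by
            rw [show 3 * d = d + 2 * d by ring, pow_add]
            ring
  have hincl : {V : Site d → ℝ | ¬ ∀ r < Q, ∀ s ∈ box a (8 * L),
      (RM V (box s (L + r)) E).det ≠ 0 ∧ ∀ x y, |gr V (box s (L + r)) E x y| ≤ T} ⊆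
      M4 ∪ M5 := by
    intro V hV
    by_contra hcon
    simp only [Set.mem_union, not_or] at hcon
    obtain ⟨c4, c5⟩ := hcon
    apply hV
    intro r hr s hs
    have hmem : (r, s) ∈ I := by
      rw [hI, Finset.mem_product, Finset.mem_range]
      exact ⟨hr, hs⟩
    refine ⟨fun h0 => ?_, fun x y => ?_⟩
    · apply c4
      rw [hM4]
      simp only [Set.mem_iUnion, exists_prop]
      exact ⟨(r, s), hmem, h0⟩
    · by_cases hxy : x ∈ box s (L + r) ∧ y ∈ box s (L + r)
      · by_contra h0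
        rw [not_le] at h0
        apply c5
        rw [hM5]
        simp only [Set.mem_iUnion, exists_prop]
        exact ⟨(r, s), hmem, (x, y), Finset.mem_product.2 hxy, h0⟩
      · unfold gr
        rw [dif_neg hxy, abs_zero]
        exact hTpos.le
  refine (measure_mono hincl).trans ?_
  refine (measure_union_le _ _).trans ?_
  rw [p4, zero_add]
  exact p5

theorem gevX {σ E κ₃ C ε p : ℝ} {N Q ℓ ℓ' : ℕ} {a : Site d} (hκ : 0 < κ₃) (hQ : 1 ≤ Q)
    (hF : FamN d N (PP d (gl σ)) C (DL (box 0 N) E))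
    (ha : box a (12 * (Q * ℓ)) ⊆ box 0 N) (ha' : box a (12 * (Q * ℓ')) ⊆ box 0 N)
    (h : ∀ y : Site d, sd 0 y ≤ 8 * Q →
      ∫ V, |DL (box 0 N) E V a (a + sm ℓ y) / ℓ -
        DL (box 0 N) E V a (a + sm ℓ' y) / ℓ'| ∂(PP d (gl σ)) ≤ ε)
    (hp : (2 * (Q : ℝ) + 1) ^ d * (ε / (κ₃ * Q)) ≤ p) :
    PP d (gl σ) {V | ¬ CrossG V N Q ℓ ℓ' a E κ₃} ≤ ENNReal.ofReal p := by
  classical
  have hQr : (1 : ℝ) ≤ Q := by exact_mod_cast hQ
  set M : Set (Site d → ℝ) := ⋃ y ∈ box (0 : Site d) Q,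
    {V | κ₃ * Q < |DL (box 0 N) E V a (a + sm ℓ y) / ℓ -
        DL (box 0 N) E V a (a + sm ℓ' y) / ℓ'|} with hM
  have hincl : {V : Site d → ℝ | ¬ CrossG V N Q ℓ ℓ' a E κ₃} ⊆ M := by
    intro V hV
    by_contra hcon
    apply hV
    intro y hy
    by_contra h0
    rw [not_le] at h0
    apply hcon
    rw [hM]
    simp only [Set.mem_iUnion, exists_prop]
    exact ⟨y, hy, h0⟩
  refine (measure_mono hincl).trans ?_
  apply union_le (q := ε / (κ₃ * Q))
  · intro y hy
    have h1 := sd_sm_le (ℓ := ℓ) (a := a) hy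
    have h2 := sd_sm_le (ℓ := ℓ') (a := a) hy
    have m0 : a ∈ box (0 : Site d) N := ha (by rw [mem_box, sd_self]; omega)
    have m1 : a + sm ℓ y ∈ box (0 : Site d) N := ha (by rw [mem_box]; omega)
    have m2 : a + sm ℓ' y ∈ box (0 : Site d) N := ha' (by rw [mem_box]; omega)
    have i1 := (FamN.integrable hF m0 m1).div_const (ℓ : ℝ)
    have i2 := (FamN.integrable hF m0 m2).div_const (ℓ' : ℝ)
    exact markov (PP d (gl σ)) (fun V => abs_nonneg _) (i1.sub i2).abs
      (t := κ₃ * Q) (by positivity) (h y ((mem_box.1 hy).trans (by omega)))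
  · refine le_trans (le_of_eq ?_) hp
    rw [card_box]
    push_cast
    rfl

theorem gevg (hpig : Pig3Stmt) (hfmn : FmnStmt)
    (hone : ∀ (d : ℕ) (σ E : ℝ), 1 ≤ d → σ ≠ 0 → ∃ C, OneTail d (gl σ) E C)
    (hchn : ∀ (d : ℕ) (σ E : ℝ), 1 ≤ d → σ ≠ 0 → ∃ C, ChnTail d (gl σ) E C) : GevGStmt := by
  intro d σ E κ₃ p hd hσ hκ hp
  have hp9 : 0 < p / 9 := by positivity
  obtain ⟨Q, hQ4, hB⟩ := gev2 (d := d) σ E κ₃ (p / 9) hd hκ hp9 (hchn d σ E hd hσ)
  have hQ1 : 1 ≤ Q := by omega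
  have hQr : (4 : ℝ) ≤ Q := by exact_mod_cast hQ4
  obtain ⟨l₁, hA⟩ := gev1 (d := d) hfmn σ E κ₃ (p / 9) Q hd hσ hκ hp9 hQ1
    (hone d σ E hd hσ)
  obtain ⟨l₃, h6⟩ := gev6 (d := d) σ E κ₃ (p / 9) Q hσ hκ hp9 hQ1
  obtain ⟨C, hC, hF⟩ := hfmn d σ E hd hσ
  set W : ℝ := (16 * (Q : ℝ) + 1) ^ d * (2 * (Q : ℝ) + 1) ^ d with hW
  have hW0 : 0 < W := by positivity
  set ε : ℝ := p / 9 * (κ₃ * Q) / W with hε
  have hε0 : 0 < ε := by positivity
  have hWε : W * (ε / (κ₃ * Q)) = p / 9 := by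
    rw [hε]
    field_simp
  obtain ⟨l₂, hl₂, hP⟩ := hpig d (8 * Q) (12 * Q) C ε hC hε0 (by omega) (Site d → ℝ)
    (PP d (gl σ)) (fun N => DL (box 0 N) E) (fun N => (hF N).1)
  refine ⟨Q, hQ1, max l₁ (max l₂ (max l₃ 1)), by omega, fun ℓ ℓ' hℓ hℓ' => ?_⟩
  obtain ⟨N, a, ha, ha', hE⟩ := hP ℓ ℓ' (by omega) (by omega)
  have hb : box a (12 * (Q * ℓ)) ⊆ box 0 N := by
    rw [← mul_assoc]
    exact ha
  have hb' : box a (12 * (Q * ℓ')) ⊆ box 0 N := by
    rw [← mul_assoc]
    exact ha'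
  refine ⟨N, a, hb, hb', ?_⟩
  have a1 := hA ℓ (by omega) N a hb
  have a1' := hA ℓ' (by omega) N a hb'
  have a2 := hB ℓ (by omega) N a hb
  have a2' := hB ℓ' (by omega) N a hb'
  have a6 := h6 ℓ (by omega) a
  have a6' := h6 ℓ' (by omega) a
  have a3 : PP d (gl σ) {V | ¬ GoodD V N Q ℓ a E κ₃} ≤ ENNReal.ofReal (p / 9) := by
    apply gev3 hκ hQ1 (by omega) (hF N).1 hb (fun y k hy hk => (hE y k hy hk).1)
    exact le_of_eq hWε
  have a3' : PP d (gl σ) {V | ¬ GoodD V N Q ℓ' a E κ₃} ≤ ENNReal.ofReal (p / 9) := by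
    apply gev3 hκ hQ1 (by omega) (hF N).1 hb' (fun y k hy hk => (hE y k hy hk).2.1)
    exact le_of_eq hWε
  have aX : PP d (gl σ) {V | ¬ CrossG V N Q ℓ ℓ' a E κ₃} ≤ ENNReal.ofReal (p / 9) := by
    apply gevX hκ hQ1 (hF N).1 hb hb'
      (fun y hy => (hE y 0 hy (by rw [sd_self]; omega)).2.2)
    rw [← hWε]
    apply mul_le_mul_of_nonneg_right _ (by positivity)
    rw [hW]
    apply le_mul_of_one_le_left (by positivity)
    apply one_le_pow₀
    linarith only [hQr]
  have hincl : {V : Site d → ℝ | ¬ (GoodG V N Q ℓ a E κ₃ ∧ GoodG V N Q ℓ' a E κ₃ ∧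
      CrossG V N Q ℓ ℓ' a E κ₃)} ⊆
      ((({V | ¬ GoodA V N Q ℓ a E κ₃} ∪ {V | ¬ GoodA V N Q ℓ' a E κ₃}) ∪
        ({V | ¬ GoodB V N Q ℓ a E κ₃} ∪ {V | ¬ GoodB V N Q ℓ' a E κ₃})) ∪
      (({V | ¬ GoodC6 V Q ℓ a E κ₃} ∪ {V | ¬ GoodC6 V Q ℓ' a E κ₃}) ∪
        ({V | ¬ GoodD V N Q ℓ a E κ₃} ∪ {V | ¬ GoodD V N Q ℓ' a E κ₃}))) ∪
      {V | ¬ CrossG V N Q ℓ ℓ' a E κ₃} := by
    intro V hV
    by_contra hcon
    simp only [Set.mem_union, Set.mem_ofPred_eq, not_or, not_not] at hcon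
    obtain ⟨⟨⟨⟨⟨b1, b2, b3, _⟩, ⟨b1', b2', b3', _⟩⟩, b4, b4'⟩, ⟨b6, b6'⟩, b5, b5'⟩, bX⟩ := hcon
    exact hV ⟨⟨b1, b2, b3, b4, b5, b6⟩, ⟨b1', b2', b3', b4', b5', b6'⟩, bX⟩
  refine (measure_mono hincl).trans ?_
  have hadd : ∀ {A B : Set (Site d → ℝ)} {x y : ℝ}, 0 ≤ x → 0 ≤ y →
      PP d (gl σ) A ≤ ENNReal.ofReal x → PP d (gl σ) B ≤ ENNReal.ofReal y →
      PP d (gl σ) (A ∪ B) ≤ ENNReal.ofReal (x + y) := by
    intro A B x y hx hy h1 h2
    rw [ENNReal.ofReal_add hx hy]
    exact (measure_union_le _ _).trans (add_le_add h1 h2)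
  have t1 := hadd hp9.le hp9.le a1 a1'
  have t2 := hadd hp9.le hp9.le a2 a2'
  have t3 := hadd hp9.le hp9.le a6 a6'
  have t4 := hadd hp9.le hp9.le a3 a3'
  have t12 := hadd (by positivity) (by positivity) t1 t2
  have t34 := hadd (by positivity) (by positivity) t3 t4
  have t := hadd (by positivity) hp9.le (hadd (by positivity) (by positivity) t12 t34) aX
  refine t.trans (ENNReal.ofReal_le_ofReal ?_)
  linarith only

end Pool.Agent.LE.H59
end
end -- Pool.Agent.Helper59_LE.Gevg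

section -- Pool.Agent.Helper69_LE.Nxi

/-!
# Row NXI: from the site `0` and fixed constants to all eigenfunctions, upper bound for the rate
-/

set_option autoImplicit false

open MeasureTheory Function

open scoped ENNReal BigOperators

noncomputable section

namespace Pool.Agent.LE.H69

open Pool.Agent.Anderson Pool.Agent.Loc Pool.Agent.Helper54.Bal
  Pool.Agent.Helper96.EXP Pool.Agent.LE Pool.Agent.LE.H15

theorem nxi : NxiStmt := by
  intro d σ γ hγ hnull
  have h1 : ∀ p : Site d × ℕ × ℚ, ∀ᵐ V ∂(PP d (gl σ)), 0 < p.2.2 →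
      ¬ (∃ E ∈ Set.Icc (-(p.2.1 : ℝ)) p.2.1, γ E < (p.2.2 : ℝ) ∧
        ∃ n, Sol (p.2.1 : ℝ) (p.2.2 : ℝ) (tau p.1 V) E n ∧ lapR n 0 + tau p.1 V 0 = E) := by
    rintro ⟨y, k, q⟩
    by_cases hq : 0 < q
    · have h2 := hnull (k : ℝ) (q : ℝ) (Set.Icc (-(k : ℝ)) k) (by exact_mod_cast hq)
        isCompact_Icc
      have h3 := (shiftInv_PP (d := d) (gl σ) y).quasiMeasurePreserving.preimage_null h2
      have h4 : ∀ᵐ V ∂(PP d (gl σ)), ¬ (∃ E ∈ Set.Icc (-(k : ℝ)) k, γ E < (q : ℝ) ∧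
        ∃ n, Sol (k : ℝ) (q : ℝ) (tau y V) E n ∧ lapR n 0 + tau y V 0 = E) := by
        rw [ae_iff]
        simp only [not_not]
        exact h3
      filter_upwards [h4] with V hV _
      exact hV
    · exact Filter.Eventually.of_forall fun V h => absurd h hq
  have h2 := ae_all_iff.2 h1
  filter_upwards [h2] with V hV E ψ hψ B m hm hB x
  obtain ⟨q, hq1, hq2⟩ := exists_rat_btwn hm
  have hq0 : 0 < q := by
    have := (hγ E).trans_lt hq1
    exact_mod_cast this
  have hm0 : 0 < m := (hγ E).trans_lt hm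
  by_contra hx
  have key : ∀ φ : Site d → ℝ, (∀ x, lapR φ x + V x * φ x = E * φ x) →
      (∀ x, |φ x| ≤ B * Real.exp (-m * sd 0 x)) → φ x ≠ 0 → False := by
    intro φ e1 e2 e3
    obtain ⟨C, n, s1, s2⟩ := sol_of_real hm0 e1 e2 e3
    obtain ⟨k, hk⟩ := exists_nat_ge (max C |E|)
    refine hV (x, k, q) hq0 ⟨E, ?_, hq1, n, sol_mono s1 ((le_max_left _ _).trans hk) hq2.le, s2⟩
    have := (le_max_right _ _).trans hk
    exact abs_le.1 this
  have hre : ∀ y, (lap ψ y).re = lapR (fun z => (ψ z).re) y := by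
    intro y
    unfold lap lapR
    rw [Complex.re_sum]
    exact Finset.sum_congr rfl fun i _ => Complex.add_re _ _
  have him : ∀ y, (lap ψ y).im = lapR (fun z => (ψ z).im) y := by
    intro y
    unfold lap lapR
    rw [Complex.im_sum]
    exact Finset.sum_congr rfl fun i _ => Complex.add_im _ _
  rcases Complex.ext_iff.not.1 hx with hx'
  rw [Complex.zero_re, Complex.zero_im, not_and_or] at hx'
  rcases hx' with h | h
  · refine key (fun z => (ψ z).re) ?_ ?_ h
    · intro y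
      have := congrArg Complex.re (hψ y)
      rw [Complex.add_re, Complex.re_ofReal_mul, Complex.re_ofReal_mul, hre] at this
      exact this
    · intro y
      exact (Complex.abs_re_le_norm _).trans (hB y)
  · refine key (fun z => (ψ z).im) ?_ ?_ h
    · intro y
      have := congrArg Complex.im (hψ y)
      rw [Complex.add_im, Complex.im_ofReal_mul, Complex.im_ofReal_mul, him] at this
      exact this
    · intro y
      exact (Complex.abs_im_le_norm _).trans (hB y)

end Pool.Agent.LE.H69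
end
end -- Pool.Agent.Helper69_LE.Nxi

section -- Pool.Agent.Helper76_LE.Smp

/-!
# SMP: the probability step of the sharp multiscale induction
-/

set_option autoImplicit false

open MeasureTheory ProbabilityTheory Function

open scoped ENNReal BigOperators

noncomputable section

namespace Pool.Agent.LE.H76

open Pool.Agent.Anderson Pool.Agent.Loc Pool.Agent.Helper54.Bal Pool.Agent.Helper96.EXP
  Pool.Agent.LE.H42 Pool.Agent.LE.H96 Pool.Agent.LE.H59

variable {d : ℕ}

/-- the bad events of separated cells are independent -/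
theorem prob_cells {ν : Measure ℝ} [IsProbabilityMeasure ν] {L : ℕ} {m E p : ℝ} (hL : 1 ≤ L)
    (hp0 : 0 ≤ p) (hp : PP d ν {V | ¬ AllGoodC V 0 L m E} ≤ ENNReal.ofReal p)
    (C : Finset (Site d)) (hC : ∀ k ∈ C, ∀ k' ∈ C, k ≠ k' → 5 ≤ sd k k') :
    PP d ν (⋂ k ∈ C, {V | ¬ AllGoodC V (pt L k) L m E}) ≤ ENNReal.ofReal (p ^ C.card) := by
  classical
  induction C using Finset.induction_on with
  | empty => simp
  | insert k C hk ih =>
    have hC' : ∀ k ∈ C, ∀ k' ∈ C, k ≠ k' → 5 ≤ sd k k' := fun a ha b hb =>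
      hC a (Finset.mem_insert_of_mem ha) b (Finset.mem_insert_of_mem hb)
    rw [Finset.set_biInter_insert, Finset.card_insert_of_notMem hk, pow_succ',
      ENNReal.ofReal_mul hp0]
    have hdis : Disjoint (box (pt L k) (2 * L)) (C.biUnion fun k' => box (pt L k') (2 * L)) := by
      rw [Finset.disjoint_biUnion_right]
      intro k' hk'
      have h5 : 5 ≤ sd k k' := hC k (Finset.mem_insert_self _ _) k'
        (Finset.mem_insert_of_mem hk') (by rintro rfl; exact hk hk')
      rw [Finset.disjoint_left]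
      intro x hx hx'
      rw [mem_box] at hx hx'
      have h1 := sd_triangle (pt L k) x (pt L k')
      rw [sd_comm x] at h1
      have h2 : sd k k' ≤ 4 := sd_pt_le (n := L) hL (by omega)
      omega
    have h1 := Pool.Agent.Mob.H6.PP_inter ν hdis
      (S := {V : Site d → ℝ | ¬ AllGoodC V (pt L k) L m E})
      (T := ⋂ k' ∈ C, {V : Site d → ℝ | ¬ AllGoodC V (pt L k') L m E})
      (measurable_allGood _ L m E).compl
      (Finset.measurableSet_biInter C fun k' _ => (measurable_allGood _ L m E).compl)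
      (fun W W' hW => not_congr (allGood_congr' _ L m E hW))
      (fun W W' hW => by
        simp only [Set.mem_iInter]
        exact forall₂_congr fun k' hk' => not_congr (allGood_congr' _ L m E fun x hx =>
          hW x (Finset.mem_biUnion.2 ⟨k', hk', hx⟩)))
    rw [h1, prob_allGood (pt L k)]
    exact mul_le_mul' hp (ih hC')

/-- SMP -/
theorem smp (hsmd : SmdStmt) : SmpStmt := by
  intro d ν _ ρ hν E m m' p T q L M N n hL hN hp0 hTpos hq1 hq hcond hnM hTq hp
  classical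
  have hρ := hν.1
  have hLr : (1 : ℝ) ≤ L := by exact_mod_cast hL
  have hNL : 45 * N ^ 2 * L ≤ M := by omega
  have hN2 : N ≤ N ^ 2 := by nlinarith only [hN]
  have h16 : 16 * N * L + 1 ≤ M := by
    have h1 : N * L ≤ N ^ 2 * L := Nat.mul_le_mul_right L hN2
    have h2 : 1 ≤ N * L := Nat.mul_pos hN hL
    nlinarith only [hNL, h1, h2]
  have hLM : L ≤ M := by
    have h1 : N * L ≤ N ^ 2 * L := Nat.mul_le_mul_right L hN2
    have h2 : L ≤ N * L := Nat.le_mul_of_pos_left L hN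
    nlinarith only [hL, hNL, h1, h2]
  have hM1 : 1 ≤ M := hL.trans hLM
  have hMr : (1 : ℝ) ≤ M := by exact_mod_cast hM1
  -- the three bad events
  set I : Finset (Site d × ℕ) := box (0 : Site d) (2 * M) ×ˢ Finset.range (M + 1) with hI
  set K : Finset (Site d) := box (0 : Site d) (2 * M / L) with hK
  set J : Finset (Finset (Site d)) := (K.powersetCard (N + 1)).filter
    fun C => ∀ k ∈ C, ∀ k' ∈ C, k ≠ k' → 5 ≤ sd k k' with hJ
  set N1 : Set (Site d → ℝ) := ⋃ i ∈ I, {V | (RM V (box i.1 i.2) E).det = 0} with hN1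
  set N2 : Set (Site d → ℝ) := ⋃ i ∈ I, ⋃ z ∈ box i.1 M ×ˢ box i.1 M,
    {V | T < |gr V (box i.1 i.2) E z.1 z.2|} with hN2
  set N3 : Set (Site d → ℝ) := ⋃ C ∈ J, ⋂ k ∈ C, {V | ¬ AllGoodC V (pt L k) L m E} with hN3
  have hcB : ∀ x : Site d, ((box x M).card : ℝ) ≤ (3 * M) ^ d := by
    intro x
    rw [card_box]
    push_cast
    apply pow_le_pow_left₀ (by positivity)
    linarith only [hMr]
  have hcI : (I.card : ℝ) ≤ (5 * M) ^ d * (2 * M) := by
    rw [hI, Finset.card_product, Finset.card_range, card_box]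
    push_cast
    apply mul_le_mul _ _ (by positivity) (by positivity)
    · apply pow_le_pow_left₀ (by positivity)
      linarith only [hMr]
    · linarith only [hMr]
  have hcK : (K.card : ℝ) ≤ (7 * (M / L : ℝ)) ^ d := by
    rw [hK, card_box]
    push_cast
    apply pow_le_pow_left₀ (by positivity)
    have h1 : ((2 * M / L : ℕ) : ℝ) ≤ ((2 * M : ℕ) : ℝ) / L := Nat.cast_div_le
    have h2 : (1 : ℝ) ≤ M / L := by
      rw [le_div_iff₀ (by linarith only [hLr]), one_mul]
      exact_mod_cast hLM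
    push_cast at h1
    have h3 : (2 * (M : ℝ)) / L = 2 * (M / L) := by ring
    rw [h3] at h1
    linarith only [h2, h1]
  have hcJ : (J.card : ℝ) ≤ ((7 * (M / L : ℝ)) ^ d) ^ (N + 1) := by
    have h1 : J.card ≤ K.card ^ (N + 1) := by
      calc J.card ≤ (K.powersetCard (N + 1)).card := Finset.card_filter_le _ _
        _ = K.card.choose (N + 1) := Finset.card_powersetCard _ _
        _ ≤ K.card ^ (N + 1) := Nat.choose_le_pow _ _
    calc (J.card : ℝ) ≤ ((K.card ^ (N + 1) : ℕ) : ℝ) := by exact_mod_cast h1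
      _ = (K.card : ℝ) ^ (N + 1) := by push_cast; ring
      _ ≤ ((7 * (M / L : ℝ)) ^ d) ^ (N + 1) := pow_le_pow_left₀ (by positivity) hcK _
  have p1 : PP d ν N1 ≤ ENNReal.ofReal 0 := by
    apply union_le (q := 0)
    · intro i _
      have h1 : Pool.Agent.Mob.H75.Loc {V : Site d → ℝ | (RM V (box i.1 i.2) E).det = 0}
          (box i.1 i.2) := by
        intro V V' h
        rw [Set.mem_ofPred_eq, Set.mem_ofPred_eq, RM_congr h]
      rw [ENNReal.ofReal_zero]
      exact (Pool.Agent.Mob.H75.PP_le_PL h1).trans (PL_det hν _ _ le_rfl E).le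
    · rw [mul_zero]
  have p2 : PP d ν N2 ≤ ENNReal.ofReal (12 * ρ * (5 * M) ^ (3 * d + 1) / T) := by
    apply union_le (q := (5 * M) ^ (2 * d) * (6 * ρ / T))
    · intro i _
      apply union_le (q := 6 * ρ / T)
      · intro z _
        have h1 : Pool.Agent.Mob.H75.Loc
            {V : Site d → ℝ | T < |gr V (box i.1 i.2) E z.1 z.2|} (box i.1 i.2) := by
          intro V V' h
          rw [Set.mem_ofPred_eq, Set.mem_ofPred_eq, gr_congr h]
        exact (Pool.Agent.Mob.H75.PP_le_PL h1).trans (PL_weak hν _ E z.1 z.2 hTpos)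
      · apply mul_le_mul_of_nonneg_right _ (by positivity)
        rw [Finset.card_product]
        push_cast
        calc ((box i.1 M).card : ℝ) * ((box i.1 M).card : ℝ)
            ≤ (3 * M) ^ d * (3 * M) ^ d :=
              mul_le_mul (hcB _) (hcB _) (by positivity) (by positivity)
          _ = (3 * M) ^ (2 * d) := by ring
          _ ≤ (5 * M) ^ (2 * d) := by
              apply pow_le_pow_left₀ (by positivity)
              linarith only [hMr]
    · calc (I.card : ℝ) * ((5 * M) ^ (2 * d) * (6 * ρ / T))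
          ≤ ((5 * M) ^ d * (2 * M)) * ((5 * M) ^ (2 * d) * (6 * ρ / T)) :=
            mul_le_mul_of_nonneg_right hcI (by positivity)
        _ = 12 * ρ * ((5 * M) ^ (3 * d) * M) / T := by
            ring
        _ ≤ 12 * ρ * (5 * M) ^ (3 * d + 1) / T := by
            apply div_le_div_of_nonneg_right _ hTpos.le
            apply mul_le_mul_of_nonneg_left _ (by positivity)
            rw [pow_succ]
            apply mul_le_mul_of_nonneg_left _ (by positivity)
            linarith only [hMr]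
  have p3 : PP d ν N3 ≤ ENNReal.ofReal (((7 * (M / L : ℝ)) ^ d * p) ^ (N + 1)) := by
    apply union_le (q := p ^ (N + 1))
    · intro C hC
      rw [hJ, Finset.mem_filter, Finset.mem_powersetCard] at hC
      rw [← hC.1.2]
      exact prob_cells hL hp0 hp C hC.2
    · rw [mul_pow]
      exact mul_le_mul_of_nonneg_right hcJ (by positivity)
  -- the inclusion
  have hincl : {V : Site d → ℝ | ¬ AllGoodC V 0 M m' E} ⊆ N3 ∪ (N2 ∪ N1) := by
    intro V hV
    by_contra hcon
    simp only [Set.mem_union, not_or] at hcon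
    obtain ⟨c3, c2, c1⟩ := hcon
    apply hV
    have hdet : ∀ s ∈ box (0 : Site d) (2 * M), ∀ r, r ≤ M →
        (RM V (box s r) E).det ≠ 0 := by
      intro s hs r hr h0
      apply c1
      rw [hN1]
      simp only [Set.mem_iUnion, exists_prop]
      refine ⟨(s, r), ?_, h0⟩
      rw [hI, Finset.mem_product, Finset.mem_range]
      exact ⟨hs, by simp only; omega⟩
    have hgr : ∀ s ∈ box (0 : Site d) (2 * M), ∀ r, r ≤ M → ∀ x y,
        |gr V (box s r) E x y| ≤ T := by
      intro s hs r hr x y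
      by_cases hxy : x ∈ box s r ∧ y ∈ box s r
      · by_contra h0
        rw [not_le] at h0
        apply c2
        rw [hN2]
        simp only [Set.mem_iUnion, exists_prop]
        refine ⟨(s, r), ?_, (x, y), ?_, h0⟩
        · rw [hI, Finset.mem_product, Finset.mem_range]
          exact ⟨hs, by simp only; omega⟩
        · rw [Finset.mem_product]
          exact ⟨box_mono s hr hxy.1, box_mono s hr hxy.2⟩
      · unfold gr
        rw [dif_neg hxy, abs_zero]
        exact hTpos.le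
    intro s hs
    have hs2 : s ∈ box (0 : Site d) (2 * M) := by
      rw [mem_box] at *
      omega
    have hin : ∀ v ∈ box s M, v ∈ box (0 : Site d) (2 * M) := by
      intro v hv
      rw [mem_box] at *
      have := sd_triangle 0 s v
      omega
    refine ⟨hdet s hs2 _ le_rfl, fun u hu => ?_⟩
    refine (hsmd d V E m T q L M N n s u hL hN hTpos.le hq1 hq hcond
      ⟨hdet s hs2 _ le_rfl, hgr s hs2 _ le_rfl⟩
      (fun v hv r hr => ⟨hdet v (hin v hv) r (by omega), hgr v (hin v hv) r (by omega)⟩)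
      ?_ hnM hu).trans hTq
    intro F hF1 hF2
    by_contra hcard
    rw [not_le] at hcard
    obtain ⟨F', hF', hF'c⟩ := Finset.exists_subset_card_eq (s := F) (n := N + 1) hcard
    have hcov : ∀ v ∈ F', ∃ k ∈ K, sd (pt L k) v ≤ L := by
      intro v hv
      have h1 : v ∈ box (0 : Site d) ((2 * M / L + 1) * L) := by
        have h2 := hin v (hF1 v (hF' hv)).1
        rw [mem_box] at *
        have h3 : 2 * M < (2 * M / L + 1) * L := by
          have := Nat.lt_div_mul_add (a := 2 * M) (b := L) hL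
          rw [add_mul, one_mul]
          exact this
        omega
      obtain ⟨k, hk, hkv⟩ := cover (Nat.le_add_left 1 _) h1
      exact ⟨k, by simpa [hK] using hk, hkv⟩
    choose! c hc1 hc2 using hcov
    have hfar : ∀ v ∈ F', ∀ v' ∈ F', v ≠ v' → 5 ≤ sd (c v) (c v') := by
      intro v hv v' hv' hne
      by_contra h5
      have h4 : sd (c v) (c v') ≤ 4 := by omega
      have h5 := sd_pt_le' (n := L) h4
      have h6 := sd_triangle v (pt L (c v)) v'
      have h7 := sd_triangle (pt L (c v)) (pt L (c v')) v'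
      rw [sd_comm v (pt L (c v))] at h6
      have h8 := hF2 v (hF' hv) v' (hF' hv') hne
      have h9 := hc2 v hv
      have h10 := hc2 v' hv'
      omega
    have hinj : Set.InjOn c F' := by
      intro v hv v' hv' hcv
      by_contra hne
      have h1 := hfar v hv v' hv' hne
      rw [hcv, sd_self] at h1
      omega
    apply c3
    rw [hN3]
    simp only [Set.mem_iUnion, exists_prop]
    refine ⟨F'.image c, ?_, ?_⟩
    · rw [hJ, Finset.mem_filter, Finset.mem_powersetCard]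
      refine ⟨⟨?_, ?_⟩, ?_⟩
      · intro k hk
        obtain ⟨v, hv, rfl⟩ := Finset.mem_image.1 hk
        exact hc1 v hv
      · rw [Finset.card_image_of_injOn hinj, hF'c]
      · intro k hk k' hk' hne
        obtain ⟨v, hv, rfl⟩ := Finset.mem_image.1 hk
        obtain ⟨v', hv', rfl⟩ := Finset.mem_image.1 hk'
        exact hfar v hv v' hv' (by rintro rfl; exact hne rfl)
    · simp only [Set.mem_iInter]
      intro k hk
      obtain ⟨v, hv, rfl⟩ := Finset.mem_image.1 hk
      exact fun h => (hF1 v (hF' hv)).2 (h v (mem_box.2 (hc2 v hv)))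
  refine (measure_mono hincl).trans ?_
  refine (measure_union_le _ _).trans ?_
  rw [ENNReal.ofReal_add (by positivity) (by positivity)]
  refine add_le_add p3 ((measure_union_le _ _).trans ?_)
  have h0 : PP d ν N1 = 0 := by
    rw [ENNReal.ofReal_zero] at p1
    exact le_antisymm p1 zero_le
  rw [h0, add_zero]
  exact p2

end Pool.Agent.LE.H76
end
end -- Pool.Agent.Helper76_LE.Smp

section -- Pool.Agent.Helper77_LE.Subx

/-!
# SUBX: subadditivity of the averaged norm
-/

set_option autoImplicit false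

open MeasureTheory ProbabilityTheory Function Filter

open scoped ENNReal BigOperators Topology

noncomputable section

namespace Pool.Agent.LE.H77S

open Pool.Agent.Anderson Pool.Agent.Loc Pool.Agent.Mob Pool.Agent.Helper54.Bal Pool.Agent.LE

variable {d : ℕ}

theorem sd_add_sm (a y : Site d) (ℓ : ℕ) {K : ℕ} (hy : sd 0 y ≤ K) :
    sd a (a + sm ℓ y) ≤ K * ℓ := by
  rw [sd_le_iff] at hy ⊢
  intro i
  have h1 := hy i
  simp only [Pi.zero_apply, zero_sub, abs_neg] at h1
  have h2 : a i - (a + sm ℓ y) i = -((ℓ : ℤ) * y i) := by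
    rw [Pi.add_apply]
    unfold sm
    ring
  rw [h2, abs_neg, abs_mul, Nat.abs_cast]
  push_cast
  rw [mul_comm]
  exact mul_le_mul_of_nonneg_right h1 (by positivity)

theorem mem_add_sm {a y : Site d} {ℓ K R N : ℕ} (hy : sd 0 y ≤ K) (ha : a ∈ box (0 : Site d) R)
    (hN : R + K * ℓ ≤ N) : a + sm ℓ y ∈ box (0 : Site d) N := by
  rw [mem_box] at ha ⊢
  exact (sd_triangle 0 a _).trans ((add_le_add ha (sd_add_sm a y ℓ hy)).trans hN)

theorem sm_add (ℓ ℓ' : ℕ) (y : Site d) : sm (ℓ + ℓ') y = sm ℓ y + sm ℓ' y := by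
  funext i
  rw [Pi.add_apply]
  unfold sm
  push_cast
  ring

theorem subx (nrm : NrmStmt) (avs : AvsStmt) : SubXStmt := by
  intro d K C hC hK
  set s : ℝ := √C with hs
  have hs0 : 0 < s := Real.sqrt_pos.2 hC
  have hsC : s ^ 2 = C := Real.sq_sqrt hC.le
  have hK1 : (1 : ℝ) ≤ K := by exact_mod_cast hK
  refine ⟨s * (K + 1) + 1 + 2 * s, by positivity, fun ℓ ℓ' hℓ hℓ' => ?_⟩
  obtain ⟨R₀, hR₀⟩ := avs d (K * ℓ) (C * (K * ℓ' + 1) ^ 2) 1 one_pos
  refine ⟨R₀, fun R N hR hN Ω _ P _ D hD y hy => ?_⟩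
  obtain ⟨n1, n2, n3, n4, n5, n6⟩ := nrm d Ω P R
  have hℓ0 : (0 : ℝ) < ℓ := by exact_mod_cast hℓ
  have hℓ0' : (0 : ℝ) < ℓ' := by exact_mod_cast hℓ'
  have hℓ1 : (1 : ℝ) ≤ ℓ := by exact_mod_cast hℓ
  have hRN : R ≤ N := by omega
  have hm0 : ∀ a ∈ box (0 : Site d) R, a ∈ box (0 : Site d) N := by
    intro a ha
    rw [mem_box] at ha ⊢
    exact ha.trans hRN
  have e1 : R + K * ℓ ≤ N := by nlinarith only [hN, hRN]
  have e2 : R + K * (ℓ + ℓ') ≤ N := by nlinarith only [hN, hRN]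
  have e3 : R + K * ℓ + K * ℓ' ≤ N := by nlinarith only [hN, hRN]
  -- bound for the second moments
  have hsq : ∀ (m : ℕ) (a : Site d), 1 ≤ m → a ∈ box (0 : Site d) N →
      a + sm m y ∈ box (0 : Site d) N → ∫ ω, D ω a (a + sm m y) ^ 2 ∂P ≤ C * (K * m + 1) ^ 2 := by
    intro m a _ ha ha'
    refine (hD.sq a ha _ ha').trans ?_
    apply mul_le_mul_of_nonneg_left _ hC.le
    have h1 : (sd a (a + sm m y) : ℝ) ≤ K * m := by exact_mod_cast sd_add_sm a y m hy
    have h0 : (0 : ℝ) ≤ sd a (a + sm m y) := by positivity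
    exact pow_le_pow_left₀ (by positivity) (by linarith only [h1]) 2
  -- the norms
  have hA : ∀ m : ℕ, R + K * m ≤ N → Adm P R (fun a ω => D ω a (a + sm m y)) := by
    intro m hm a ha
    exact ⟨hD.meas _ _, hD.int _ (hm0 a ha) _ (mem_add_sm hy ha hm)⟩
  have hX : ∀ m : ℕ, 1 ≤ m → m * nA P R (XX D y m) = nA P R (fun a ω => D ω a (a + sm m y)) := by
    intro m hm
    have hm0 : (0 : ℝ) < m := by exact_mod_cast hm
    have h1 := n3 (fun a ω => D ω a (a + sm m y)) (1 / m)
    have h2 : (fun (a : Site d) ω => 1 / (m : ℝ) * D ω a (a + sm m y)) = XX D y m := by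
      funext a ω
      unfold XX
      ring
    rw [h2] at h1
    rw [h1, abs_of_pos (by positivity)]
    field_simp
  have h1 : nA P R (XX D y ℓ) ≤ s * (K + 1) := by
    apply n5 _ _ (by positivity)
    intro a ha
    have h2 : ∫ ω, XX D y ℓ a ω ^ 2 ∂P = (∫ ω, D ω a (a + sm ℓ y) ^ 2 ∂P) / (ℓ : ℝ) ^ 2 := by
      rw [← integral_div]
      apply integral_congr_ae
      refine Eventually.of_forall fun ω => ?_
      simp only
      unfold XX
      rw [div_pow]
    rw [h2, div_le_iff₀ (by positivity), mul_pow, hsC]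
    refine (hsq ℓ a hℓ (hm0 a ha) (mem_add_sm hy ha e1)).trans ?_
    rw [mul_assoc]
    apply mul_le_mul_of_nonneg_left _ hC.le
    rw [← mul_pow]
    apply pow_le_pow_left₀ (by positivity)
    nlinarith only [hℓ1]
  refine ⟨by linarith only [hs0, h1], ?_⟩
  -- the four parts
  set f : Site d → Ω → ℝ := fun a ω => D ω a (a + sm (ℓ + ℓ') y) with hf
  set g : Site d → Ω → ℝ := fun a ω => D ω a (a + sm ℓ y) with hg
  set g' : Site d → Ω → ℝ := fun a ω => D ω a (a + sm ℓ' y) with hg'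
  set h : Site d → Ω → ℝ := fun a ω => D ω (a + sm ℓ y) (a + sm ℓ y + sm ℓ' y) with hh
  set r : Site d → Ω → ℝ := fun a ω => max 0 (D ω a (a + sm ℓ y + sm ℓ' y) - D ω a (a + sm ℓ y) -
    D ω (a + sm ℓ y) (a + sm ℓ y + sm ℓ' y)) with hr
  set q : Site d → Ω → ℝ := fun a ω => max 0 (-D ω a (a + sm ℓ y + sm ℓ' y)) with hq
  have hfe : ∀ a ω, f a ω = D ω a (a + sm ℓ y + sm ℓ' y) := by
    intro a ω
    rw [hf]
    simp only
    rw [sm_add, add_assoc]
  have hmem1 : ∀ a ∈ box (0 : Site d) R, a + sm ℓ y ∈ box (0 : Site d) N :=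
    fun a ha => mem_add_sm hy ha e1
  have hmem2 : ∀ a ∈ box (0 : Site d) R, a + sm ℓ y + sm ℓ' y ∈ box (0 : Site d) N := by
    intro a ha
    rw [add_assoc, ← sm_add]
    exact mem_add_sm hy ha e2
  have Ag : Adm P R g := hA ℓ e1
  have Ah : Adm P R h := fun a ha => ⟨hD.meas _ _, hD.int _ (hmem1 a ha) _ (hmem2 a ha)⟩
  have Ar : Adm P R r := by
    intro a ha
    have i1 := hD.int _ (hm0 a ha) _ (hmem2 a ha)
    have i2 := hD.int _ (hm0 a ha) _ (hmem1 a ha)
    have i3 := hD.int _ (hmem1 a ha) _ (hmem2 a ha)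
    have hm : Measurable (r a) := measurable_const.max
      (((hD.meas _ _).sub (hD.meas _ _)).sub (hD.meas _ _))
    refine ⟨hm, ?_⟩
    refine Integrable.mono' (((i1.add i2).add i3).const_mul 3) (hm.pow_const 2).aestronglyMeasurable
      (Eventually.of_forall fun ω => ?_)
    change ‖r a ω ^ 2‖ ≤ 3 * (D ω a (a + sm ℓ y + sm ℓ' y) ^ 2 + D ω a (a + sm ℓ y) ^ 2 +
      D ω (a + sm ℓ y) (a + sm ℓ y + sm ℓ' y) ^ 2)
    rw [Real.norm_eq_abs, abs_of_nonneg (by positivity)]
    rw [hr]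
    simp only
    set x := D ω a (a + sm ℓ y + sm ℓ' y)
    set u := D ω a (a + sm ℓ y)
    set v := D ω (a + sm ℓ y) (a + sm ℓ y + sm ℓ' y)
    have h2 : (max 0 (x - u - v)) ^ 2 ≤ (x - u - v) ^ 2 := by
      rcases le_total 0 (x - u - v) with h3 | h3
      · rw [max_eq_right h3]
      · rw [max_eq_left h3, sq, zero_mul]
        exact sq_nonneg _
    nlinarith only [sq_nonneg (x + u), sq_nonneg (x + v), sq_nonneg (u - v), h2]
  have Aq : Adm P R q := by
    intro a ha
    have i1 := hD.int _ (hm0 a ha) _ (hmem2 a ha)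
    have hm : Measurable (q a) := measurable_const.max (hD.meas _ _).neg
    refine ⟨hm, ?_⟩
    refine Integrable.mono' i1 (hm.pow_const 2).aestronglyMeasurable
      (Eventually.of_forall fun ω => ?_)
    change ‖(max 0 (-D ω a (a + sm ℓ y + sm ℓ' y))) ^ 2‖ ≤ D ω a (a + sm ℓ y + sm ℓ' y) ^ 2
    rw [Real.norm_eq_abs, abs_of_nonneg (sq_nonneg _)]
    set x := D ω a (a + sm ℓ y + sm ℓ' y)
    rcases le_total 0 (-x) with h3 | h3
    · rw [max_eq_right h3, neg_sq]
    · rw [max_eq_left h3]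
      have := sq_nonneg x
      simpa using this
  have habs : ∀ u : Site d → Ω → ℝ, Adm P R u → Adm P R (fun a ω => |u a ω|) := by
    intro u hu a ha
    refine ⟨(hu a ha).1.abs, ?_⟩
    simp only [sq_abs]
    exact (hu a ha).2
  have nabs : ∀ u : Site d → Ω → ℝ, nA P R (fun a ω => |u a ω|) = nA P R u := by
    intro u
    unfold nA
    simp only [sq_abs]
  have nr : nA P R r ≤ s := by
    apply n5 _ _ hs0.le
    intro a ha
    rw [hsC]
    exact hD.tri _ (hm0 a ha) _ (hmem1 a ha) _ (hmem2 a ha)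
  have nq : nA P R q ≤ s := by
    apply n5 _ _ hs0.le
    intro a ha
    rw [hsC]
    exact hD.neg _ (hm0 a ha) _ (hmem2 a ha)
  have nh : nA P R h ≤ nA P R g' + 1 := by
    have hav := hR₀ R hR (fun a => ∫ ω, D ω a (a + sm ℓ' y) ^ 2 ∂P) (sm ℓ y) (by
      have := sd_add_sm (0 : Site d) y ℓ hy
      rwa [zero_add] at this) (by
      intro a ha
      have ha0 : a ∈ box (0 : Site d) N := by
        rw [mem_box] at ha ⊢
        exact ha.trans e1
      have ha1 : a + sm ℓ' y ∈ box (0 : Site d) N := mem_add_sm hy ha e3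
      have h0 : 0 ≤ ∫ ω, D ω a (a + sm ℓ' y) ^ 2 ∂P := integral_nonneg fun ω => sq_nonneg _
      rw [abs_of_nonneg h0]
      exact hsq ℓ' a hℓ' ha0 ha1)
    unfold nA
    rw [hh, hg']
    simp only
    set A := Av R (fun a : Site d => ∫ ω, D ω (a + sm ℓ y) (a + sm ℓ y + sm ℓ' y) ^ 2 ∂P)
    set B := Av R (fun a : Site d => ∫ ω, D ω a (a + sm ℓ' y) ^ 2 ∂P)
    have hAB : A ≤ B + 1 := by
      have := (abs_le.1 hav).2
      linarith only [this]
    have hB0 : 0 ≤ B := by
      change 0 ≤ Av R _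
      unfold Av
      apply div_nonneg (Finset.sum_nonneg fun a _ => integral_nonneg fun ω => sq_nonneg _)
      positivity
    calc √A ≤ √(B + 1) := Real.sqrt_le_sqrt hAB
      _ ≤ √((√B + 1) ^ 2) := by
          apply Real.sqrt_le_sqrt
          have h4 := Real.sq_sqrt hB0
          have h5 := Real.sqrt_nonneg B
          nlinarith only [h4, h5]
      _ = √B + 1 := Real.sqrt_sq (by positivity)
  have step1 := n1 _ _ (habs g Ag) (habs h Ah)
  have step2 := n1 _ _ step1.1 Ar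
  have step3 := n1 _ _ step2.1 Aq
  have hle : ∀ a ∈ box (0 : Site d) R, ∀ ω, |f a ω| ≤ |(|g a ω| + |h a ω| + r a ω + q a ω)| := by
    intro a _ ω
    have hr0 : 0 ≤ r a ω := le_max_left _ _
    have hq0 : 0 ≤ q a ω := le_max_left _ _
    rw [abs_of_nonneg (by positivity : 0 ≤ |g a ω| + |h a ω| + r a ω + q a ω), hfe]
    set x := D ω a (a + sm ℓ y + sm ℓ' y)
    have h6 : x - g a ω - h a ω ≤ r a ω := le_max_right _ _
    have h7 : -x ≤ q a ω := le_max_right _ _
    have h8 := le_abs_self (g a ω)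
    have h9 := le_abs_self (h a ω)
    have h10 := abs_nonneg (g a ω)
    have h11 := abs_nonneg (h a ω)
    rw [abs_le]
    constructor <;> linarith
  have hfin := n2 f _ step3.1 hle
  have t1 := step1.2.1
  have t2 := step2.2.1
  have t3 := step3.2.1
  rw [nabs g, nabs h] at t1
  have hXf : ((ℓ + ℓ' : ℕ) : ℝ) * nA P R (XX D y (ℓ + ℓ')) = nA P R f := hX (ℓ + ℓ') (by omega)
  have hXg : (ℓ : ℝ) * nA P R (XX D y ℓ) = nA P R g := hX ℓ hℓ
  have hXg' : (ℓ' : ℝ) * nA P R (XX D y ℓ') = nA P R g' := hX ℓ' hℓ'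
  push_cast at hXf
  rw [hXf, hXg, hXg']
  have : 0 ≤ s * (K + 1) := by positivity
  linarith only [nr, nq, nh, step2, step3, hfin, t1, this]

end Pool.Agent.LE.H77S
end
end -- Pool.Agent.Helper77_LE.Subx

section -- Pool.Agent.Helper96_LE.AllR

/-!
# The Lyapunov exponent and the exact decay rate: all modules
-/

set_option autoImplicit false

open MeasureTheory ProbabilityTheory

noncomputable section

namespace Pool.Agent.LE.H96

open Pool.Agent.Anderson Pool.Agent.Loc Pool.Agent.Helper54.Bal Pool.Agent.Mob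

theorem subxT : SubXStmt := H77S.subx H28N.nrm H77.avs

theorem cauT : CauStmt := H15.cau subxT (keyX H28N.nrm H77.avs) H28N.nrm

theorem gevgT : GevGStmt :=
  H59.gevg (H59A.pig3 cauT H69.shi H77.avs) H54.fmn
    (fun d σ E _ hσ => ⟨_, Pool.Agent.LY.oneTail (d := d) hσ E⟩)
    (fun d σ E _ hσ => Pool.Agent.LY.chn (d := d) hσ E)

theorem detGT : DetGStmt := H59.detG H46.fvd

theorem zooT : ZooStmt := H3G.zoo gevgT detGT (H59.detX H46.fvd)

theorem locGT : LocGStmt := H3G.locg zooT gevgT detGT H93.msaT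

theorem lyaT : LyaStmt := H54.lya zooT

theorem mainGT.{u} : H93.MainG.{u} :=
  H93.mainG in2T blkT H32.lrg H58.edg H58.bdc H75.tbx (H6.sep wegT) H48.dcy
    (H46.cmp (H98.dic H32.nrm) H48.cen) H25.shf insT lyaT locGT H93.cnvT

theorem smpT : SmpStmt := H76.smp H59S.smd

theorem algT : AlgStmt := H3R.alg gevgT detGT

theorem smaT : SmaStmt := H3R.sma smpT H15.smn

theorem exiT : ExiStmt := exi H85.gen H59R.rsx H28R.mes

theorem exjT : ExjStmt := exj H85.gen (H3R.sim H85.gen) H77F.fex smaT algT H28R.mes H77.clo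

theorem mainRT.{u} : MainR.{u} :=
  mainR mainGT exiT exjT H69.nxi H39R.nxj (fun d σ γ hd hσ h => lsc smpT H15.smn algT d σ γ hd hσ h)

end Pool.Agent.LE.H96
end
end -- Pool.Agent.Helper96_LE.AllR
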