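import Pool.Agent.Helper12_MEB.B063

/-!
# Merged copies (generated) of the modules

* `Pool.Agent.Helper28_LE.GevTri`
* `Pool.Agent.Helper28_LE.GevA`
* `Pool.Agent.Helper28_LEC.UPM`
-/

set_option autoImplicit false

section -- Pool.Agent.Helper28_LE.GevTri

/-!
# GEV, parts 1, 2, 3, 6: triples, moduli and determinants
-/

set_option autoImplicit false

open MeasureTheory ProbabilityTheory Function Filter

open scoped ENNReal BigOperators Topology

noncomputable section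

namespace Pool.Agent.LE.H28A

open Pool.Agent.Anderson Pool.Agent.Loc Pool.Agent.Mob Pool.Agent.Helper54.Bal
  Pool.Agent.Mob.H75

/-- exponential against polynomial -/
theorem poly_exp (A c p : ℝ) (k : ℕ) (hc : 0 < c) (hp : 0 < p) : ∃ L₀ : ℕ, 1 ≤ L₀ ∧
    ∀ L : ℕ, L₀ ≤ L → |A| * (25 * (L : ℝ)) ^ k * Real.exp (-(c * L)) ≤ p := by
  have h := Real.tendsto_pow_mul_exp_neg_atTop_nhds_zero k
  have h2 : Tendsto (fun L : ℕ => c * (L : ℝ)) atTop atTop :=
    Tendsto.const_mul_atTop hc tendsto_natCast_atTop_atTop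
  have h3 := h.comp h2
  have h4 : Tendsto (fun L : ℕ => |A| * (25 / c) ^ k *
      ((c * (L : ℝ)) ^ k * Real.exp (-(c * L)))) atTop (𝓝 (|A| * (25 / c) ^ k * 0)) :=
    h3.const_mul _
  rw [mul_zero] at h4
  have h5 := (h4.eventually (ge_mem_nhds hp)).and (eventually_ge_atTop 1)
  obtain ⟨L₀, hL₀⟩ := eventually_atTop.1 h5
  refine ⟨max 1 L₀, le_max_left _ _, fun L hL => ?_⟩
  have h6 := (hL₀ L ((le_max_right _ _).trans hL)).1
  have e : |A| * (25 / c) ^ k * ((c * (L : ℝ)) ^ k * Real.exp (-(c * L))) =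
      |A| * (25 * (L : ℝ)) ^ k * Real.exp (-(c * L)) := by
    have : (25 * (L : ℝ)) ^ k = (25 / c) ^ k * (c * L) ^ k := by
      rw [← mul_pow]
      congr 1
      field_simp
    rw [this]
    ring
  rw [e] at h6
  exact h6

theorem card_box_le {d : ℕ} (a : Site d) {n : ℕ} (hn : 1 ≤ n) :
    (((box a (12 * n)).card : ℕ) : ℝ) ≤ (25 * (n : ℝ)) ^ d := by
  rw [card_box]
  push_cast
  apply pow_le_pow_left₀ (by positivity)
  have : (1 : ℝ) ≤ n := by exact_mod_cast hn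
  linarith

/-- clause 3, on the event where no entry vanishes -/
theorem gev_tri (d : ℕ) (σ E κ₃ p : ℝ) (hκ : 0 < κ₃) (hp : 0 < p)
    (hone : ∃ C, OneTail d (gl σ) E C) [IsProbabilityMeasure (gl σ)] :
    ∃ L₀ : ℕ, 1 ≤ L₀ ∧ ∀ Q ℓ : ℕ, L₀ ≤ Q * ℓ → ∀ (N : ℕ) (a : Site d),
      box a (12 * (Q * ℓ)) ⊆ box 0 N →
      PP d (gl σ) {V | (∀ x ∈ box a (12 * (Q * ℓ)), ∀ y ∈ box a (12 * (Q * ℓ)),
          gr V (box 0 N) E x y ≠ 0) ∧
        ¬ ∀ x ∈ box a (12 * (Q * ℓ)), ∀ u ∈ box a (12 * (Q * ℓ)), ∀ y ∈ box a (12 * (Q * ℓ)),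
          DL (box 0 N) E V x y ≤ DL (box 0 N) E V x u + DL (box 0 N) E V u y + κ₃ * (Q * ℓ)} ≤
        ENNReal.ofReal p := by
  classical
  obtain ⟨C, hC⟩ := hone
  obtain ⟨L₀, h1, hL₀⟩ := poly_exp C (κ₃ / 3) p (3 * d) (by positivity) hp
  refine ⟨L₀, h1, fun Q ℓ hQ N a hbox => ?_⟩
  have hn : 1 ≤ Q * ℓ := h1.trans hQ
  set B := box a (12 * (Q * ℓ)) with hB
  set t : ℝ := κ₃ * (Q * ℓ) with ht
  have htn : 0 ≤ t := by positivity
  have hsub : {V | (∀ x ∈ B, ∀ y ∈ B, gr V (box 0 N) E x y ≠ 0) ∧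
      ¬ ∀ x ∈ B, ∀ u ∈ B, ∀ y ∈ B,
        DL (box 0 N) E V x y ≤ DL (box 0 N) E V x u + DL (box 0 N) E V u y + t} ⊆
      ⋃ q ∈ B ×ˢ (B ×ˢ B), {V | Real.exp t * |gr V (box 0 N) E q.1 q.2.2| <
        |gr V (box 0 N) E q.1 q.2.1| * |gr V (box 0 N) E q.2.1 q.2.2|} := by
    rintro V ⟨hne, hV⟩
    simp only [not_forall, not_le] at hV
    obtain ⟨x, hx, u, hu, y, hy, h⟩ := hV
    simp only [Set.mem_iUnion]
    refine ⟨(x, u, y), ?_, ?_⟩
    · rw [Finset.mem_product, Finset.mem_product]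
      exact ⟨hx, hu, hy⟩
    · have a1 : 0 < |gr V (box 0 N) E x y| := abs_pos.2 (hne x hx y hy)
      have a2 : 0 < |gr V (box 0 N) E x u| := abs_pos.2 (hne x hx u hu)
      have a3 : 0 < |gr V (box 0 N) E u y| := abs_pos.2 (hne u hu y hy)
      change Real.exp t * |gr V (box 0 N) E x y| <
        |gr V (box 0 N) E x u| * |gr V (box 0 N) E u y|
      rw [← Real.log_lt_log_iff (by positivity) (by positivity),
        Real.log_mul (Real.exp_pos _).ne' a1.ne', Real.log_mul a2.ne' a3.ne', Real.log_exp]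
      unfold DL at h
      linarith
  refine (measure_mono hsub).trans ((measure_biUnion_finset_le _ _).trans
    ((Finset.sum_le_sum (g := fun _ => ENNReal.ofReal (|C| * Real.exp (-t / 3)))
      fun q hq => ?_).trans ?_))
  · rw [Finset.mem_product, Finset.mem_product] at hq
    refine (PP_le_PL (Λ := box 0 N) ?_).trans ((hC (box 0 N) q.1 q.2.1 q.2.2 t (hbox hq.1)
      (hbox hq.2.1) (hbox hq.2.2) htn).trans ?_)
    · intro V V' hV
      simp only [Set.mem_ofPred_eq]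
      rw [gr_congr hV, gr_congr hV, gr_congr hV]
    · exact ENNReal.ofReal_le_ofReal (mul_le_mul_of_nonneg_right (le_abs_self C) (by positivity))
  · rw [Finset.sum_const, nsmul_eq_mul, ← ENNReal.ofReal_natCast,
      ← ENNReal.ofReal_mul (by positivity)]
    apply ENNReal.ofReal_le_ofReal
    rw [Finset.card_product, Finset.card_product]
    have hb : ((B.card : ℕ) : ℝ) ≤ (25 * ((Q * ℓ : ℕ) : ℝ)) ^ d := card_box_le a hn
    have hb0 : (0 : ℝ) ≤ ((B.card : ℕ) : ℝ) := by positivity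
    have h2 := hL₀ (Q * ℓ) hQ
    have e : -(κ₃ / 3 * ((Q * ℓ : ℕ) : ℝ)) = -t / 3 := by
      rw [ht]; push_cast; ring
    rw [e] at h2
    calc (((B.card * (B.card * B.card) : ℕ)) : ℝ) * (|C| * Real.exp (-t / 3))
        ≤ ((25 * ((Q * ℓ : ℕ) : ℝ)) ^ d * ((25 * ((Q * ℓ : ℕ) : ℝ)) ^ d *
          (25 * ((Q * ℓ : ℕ) : ℝ)) ^ d)) * (|C| * Real.exp (-t / 3)) := by
          apply mul_le_mul_of_nonneg_right _ (by positivity)
          push_cast at hb ⊢
          gcongr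
      _ = |C| * (25 * ((Q * ℓ : ℕ) : ℝ)) ^ (3 * d) * Real.exp (-t / 3) := by
          rw [show 3 * d = d + (d + d) by ring, pow_add, pow_add]
          ring
      _ ≤ p := h2

/-- clause 2, the upper bound -/
theorem gev_up (d : ℕ) (σ E κ₃ p ρ : ℝ) (hκ : 0 < κ₃) (hp : 0 < p) [IsProbabilityMeasure (gl σ)]
    (hν : BddDens (gl σ) ρ) :
    ∃ L₀ : ℕ, 1 ≤ L₀ ∧ ∀ Q ℓ : ℕ, L₀ ≤ Q * ℓ → ∀ (N : ℕ) (a : Site d),
      PP d (gl σ) {V | ¬ ∀ x ∈ box a (12 * (Q * ℓ)), ∀ y ∈ box a (12 * (Q * ℓ)),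
          |gr V (box 0 N) E x y| ≤ Real.exp (κ₃ * (Q * ℓ))} ≤ ENNReal.ofReal p := by
  classical
  obtain ⟨L₀, h1, hL₀⟩ := poly_exp (6 * ρ) κ₃ p (2 * d) hκ hp
  refine ⟨L₀, h1, fun Q ℓ hQ N a => ?_⟩
  have hn : 1 ≤ Q * ℓ := h1.trans hQ
  set B := box a (12 * (Q * ℓ)) with hB
  set t : ℝ := κ₃ * (Q * ℓ) with ht
  have hsub : {V | ¬ ∀ x ∈ B, ∀ y ∈ B, |gr V (box 0 N) E x y| ≤ Real.exp t} ⊆
      ⋃ q ∈ B ×ˢ B, {V | Real.exp t < |gr V (box 0 N) E q.1 q.2|} := by
    intro V hV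
    simp only [Set.mem_ofPred_eq, not_forall, not_le] at hV
    obtain ⟨x, hx, y, hy, h⟩ := hV
    simp only [Set.mem_iUnion]
    exact ⟨(x, y), Finset.mem_product.2 ⟨hx, hy⟩, h⟩
  refine (measure_mono hsub).trans ((measure_biUnion_finset_le _ _).trans
    ((Finset.sum_le_sum (g := fun _ => ENNReal.ofReal (|6 * ρ| * Real.exp (-t)))
      fun q hq => ?_).trans ?_))
  · refine (PP_le_PL (Λ := box 0 N) ?_).trans ((PL_weak hν (box 0 N) E q.1 q.2
      (Real.exp_pos t)).trans ?_)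
    · intro V V' hV
      simp only [Set.mem_ofPred_eq]
      rw [gr_congr hV]
    · apply ENNReal.ofReal_le_ofReal
      rw [Real.exp_neg, ← div_eq_mul_inv]
      exact div_le_div_of_nonneg_right (le_abs_self _) (Real.exp_pos _).le
  · rw [Finset.sum_const, nsmul_eq_mul, ← ENNReal.ofReal_natCast,
      ← ENNReal.ofReal_mul (by positivity)]
    apply ENNReal.ofReal_le_ofReal
    rw [Finset.card_product]
    have hb : ((B.card : ℕ) : ℝ) ≤ (25 * ((Q * ℓ : ℕ) : ℝ)) ^ d := card_box_le a hn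
    have h2 := hL₀ (Q * ℓ) hQ
    have e : -(κ₃ * ((Q * ℓ : ℕ) : ℝ)) = -t := by
      rw [ht]; push_cast; ring
    rw [e] at h2
    calc (((B.card * B.card : ℕ)) : ℝ) * (|6 * ρ| * Real.exp (-t))
        ≤ ((25 * ((Q * ℓ : ℕ) : ℝ)) ^ d *
          (25 * ((Q * ℓ : ℕ) : ℝ)) ^ d) * (|6 * ρ| * Real.exp (-t)) := by
          apply mul_le_mul_of_nonneg_right _ (by positivity)
          push_cast at hb ⊢
          gcongr
      _ = |6 * ρ| * (25 * ((Q * ℓ : ℕ) : ℝ)) ^ (2 * d) * Real.exp (-t) := by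
          rw [show 2 * d = d + d by ring, pow_add]
          ring
      _ ≤ p := h2

/-- clause 1 -/
theorem gev_det (d : ℕ) (σ E ρ : ℝ) [IsProbabilityMeasure (gl σ)] (hν : BddDens (gl σ) ρ)
    (Λ : Finset (Site d)) : PP d (gl σ) {V | ¬ (RM V Λ E).det ≠ 0} = 0 := by
  have h : {V : Site d → ℝ | ¬ (RM V Λ E).det ≠ 0} = {V | (RM V Λ E).det = 0} := by
    ext V
    simp
  rw [h]
  refine le_antisymm ((PP_le_PL (Λ := Λ) ?_).trans (PL_det hν Λ Λ le_rfl E).le) bot_le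
  intro V V' hV
  simp only [Set.mem_ofPred_eq]
  rw [RM_congr hV]

/-- clause 6 -/
theorem gev_small (d : ℕ) (σ E κ₃ p ρ : ℝ) (hκ : 0 < κ₃) (hp : 0 < p)
    [IsProbabilityMeasure (gl σ)] (hν : BddDens (gl σ) ρ) :
    ∃ L₀ : ℕ, 1 ≤ L₀ ∧ ∀ Q ℓ : ℕ, L₀ ≤ Q * ℓ → ∀ (a : Site d),
      PP d (gl σ) {V | ¬ ∀ s ∈ box a (8 * (Q * ℓ)), (RM V (box s (Q * ℓ)) E).det ≠ 0 ∧
        ∀ x y, |gr V (box s (Q * ℓ)) E x y| ≤ Real.exp (κ₃ * (Q * ℓ))} ≤ ENNReal.ofReal p := by
  classical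
  obtain ⟨L₀, h1, hL₀⟩ := poly_exp (6 * ρ) κ₃ p (3 * d) hκ hp
  refine ⟨L₀, h1, fun Q ℓ hQ a => ?_⟩
  have hn : 1 ≤ Q * ℓ := h1.trans hQ
  set S := box a (8 * (Q * ℓ)) with hS
  set t : ℝ := κ₃ * (Q * ℓ) with ht
  have hsub : {V | ¬ ∀ s ∈ S, (RM V (box s (Q * ℓ)) E).det ≠ 0 ∧
        ∀ x y, |gr V (box s (Q * ℓ)) E x y| ≤ Real.exp t} ⊆
      (⋃ s ∈ S, {V | ¬ (RM V (box s (Q * ℓ)) E).det ≠ 0}) ∪
      ⋃ s ∈ S, ⋃ q ∈ box s (Q * ℓ) ×ˢ box s (Q * ℓ),
        {V | Real.exp t < |gr V (box s (Q * ℓ)) E q.1 q.2|} := by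
    intro V hV
    simp only [Set.mem_ofPred_eq, not_forall, not_and_or] at hV
    obtain ⟨s, hs, h⟩ := hV
    by_cases hdet : (RM V (box s (Q * ℓ)) E).det ≠ 0
    · right
      rcases h with h | h
      · exact absurd hdet h
      · obtain ⟨x, y, hxy⟩ := h
        simp only [Set.mem_iUnion]
        refine ⟨s, hs, (x, y), ?_, not_le.1 hxy⟩
        by_contra hc
        have h0 : gr V (box s (Q * ℓ)) E x y = 0 := by
          unfold gr
          rw [dif_neg]
          rintro ⟨hx, hy⟩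
          exact hc (Finset.mem_product.2 ⟨hx, hy⟩)
        rw [h0, abs_zero] at hxy
        exact hxy (Real.exp_pos _).le
    · left
      simp only [Set.mem_iUnion]
      exact ⟨s, hs, hdet⟩
  refine (measure_mono hsub).trans ((measure_union_le _ _).trans ?_)
  have z : PP d (gl σ) (⋃ s ∈ S, {V | ¬ (RM V (box s (Q * ℓ)) E).det ≠ 0}) = 0 :=
    le_antisymm ((measure_biUnion_finset_le _ _).trans (by
      rw [Finset.sum_eq_zero]
      intro s _
      exact gev_det d σ E ρ hν (box s (Q * ℓ)))) bot_le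
  rw [z, zero_add]
  have hcs : ∀ s : Site d, (((box s (Q * ℓ)).card : ℕ) : ℝ) ≤ (25 * ((Q * ℓ : ℕ) : ℝ)) ^ d := by
    intro s
    refine le_trans ?_ (card_box_le s hn)
    exact_mod_cast Finset.card_le_card (box_mono s (by omega))
  refine (measure_biUnion_finset_le _ _).trans ((Finset.sum_le_sum
    (g := fun _ => ENNReal.ofReal ((25 * ((Q * ℓ : ℕ) : ℝ)) ^ (2 * d) *
      (|6 * ρ| * Real.exp (-t)))) fun s hs => ?_).trans ?_)
  · refine (measure_biUnion_finset_le _ _).trans ((Finset.sum_le_sum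
      (g := fun _ => ENNReal.ofReal (|6 * ρ| * Real.exp (-t))) fun q hq => ?_).trans ?_)
    · refine (PP_le_PL (Λ := box s (Q * ℓ)) ?_).trans ((PL_weak hν (box s (Q * ℓ)) E q.1 q.2
        (Real.exp_pos t)).trans ?_)
      · intro V V' hV
        simp only [Set.mem_ofPred_eq]
        rw [gr_congr hV]
      · apply ENNReal.ofReal_le_ofReal
        rw [Real.exp_neg, ← div_eq_mul_inv]
        exact div_le_div_of_nonneg_right (le_abs_self _) (Real.exp_pos _).le
    · rw [Finset.sum_const, nsmul_eq_mul, ← ENNReal.ofReal_natCast,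
        ← ENNReal.ofReal_mul (by positivity)]
      apply ENNReal.ofReal_le_ofReal
      apply mul_le_mul_of_nonneg_right _ (by positivity)
      rw [Finset.card_product, show 2 * d = d + d by ring, pow_add]
      have hb := hcs s
      push_cast at hb ⊢
      gcongr
  · rw [Finset.sum_const, nsmul_eq_mul, ← ENNReal.ofReal_natCast,
      ← ENNReal.ofReal_mul (by positivity)]
    apply ENNReal.ofReal_le_ofReal
    have hb : ((S.card : ℕ) : ℝ) ≤ (25 * ((Q * ℓ : ℕ) : ℝ)) ^ d := by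
      refine le_trans ?_ (card_box_le a hn)
      exact_mod_cast Finset.card_le_card (box_mono a (by omega))
    have h2 := hL₀ (Q * ℓ) hQ
    have e : -(κ₃ * ((Q * ℓ : ℕ) : ℝ)) = -t := by
      rw [ht]; push_cast; ring
    rw [e] at h2
    calc ((S.card : ℕ) : ℝ) * ((25 * ((Q * ℓ : ℕ) : ℝ)) ^ (2 * d) *
          (|6 * ρ| * Real.exp (-t)))
        ≤ (25 * ((Q * ℓ : ℕ) : ℝ)) ^ d * ((25 * ((Q * ℓ : ℕ) : ℝ)) ^ (2 * d) *
          (|6 * ρ| * Real.exp (-t))) := mul_le_mul_of_nonneg_right hb (by positivity)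
      _ = |6 * ρ| * (25 * ((Q * ℓ : ℕ) : ℝ)) ^ (3 * d) * Real.exp (-t) := by
          rw [show 3 * d = d + 2 * d by ring, pow_add]
          ring
      _ ≤ p := h2

end Pool.Agent.LE.H28A
end
end -- Pool.Agent.Helper28_LE.GevTri

section -- Pool.Agent.Helper28_LE.GevA

/-!
# GEV: the good event has probability near one
-/

set_option autoImplicit false

open MeasureTheory ProbabilityTheory Function Filter

open scoped ENNReal BigOperators Topology

noncomputable section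

namespace Pool.Agent.LE.H28A

open Pool.Agent.Anderson Pool.Agent.Loc Pool.Agent.Mob Pool.Agent.Helper54.Bal
  Pool.Agent.Mob.H75

theorem integrable_of_sq {Ω : Type} [MeasurableSpace Ω] {P : Measure Ω} [IsProbabilityMeasure P]
    {f : Ω → ℝ} (hf : Measurable f) (h : Integrable (fun ω => f ω ^ 2) P) : Integrable f P := by
  refine ((integrable_const (1 : ℝ)).add h).mono' hf.aestronglyMeasurable
    (Eventually.of_forall fun ω => ?_)
  simp only [Pi.add_apply, Real.norm_eq_abs]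
  nlinarith [sq_abs (f ω), sq_nonneg (|f ω| - 1), abs_nonneg (f ω)]

/-- Markov -/
theorem markov {Ω : Type} [MeasurableSpace Ω] {P : Measure Ω} [IsProbabilityMeasure P]
    {f : Ω → ℝ} (hf : Integrable f P) {t b : ℝ} (ht : 0 < t) (hb : ∫ ω, |f ω| ∂P ≤ b) :
    P {ω | t < |f ω|} ≤ ENNReal.ofReal (b / t) := by
  have h1 := mul_meas_ge_le_integral_of_nonneg (μ := P) (f := fun ω => |f ω|)
    (Eventually.of_forall fun ω => abs_nonneg _) hf.abs t
  have h2 : P.real {ω | t ≤ |f ω|} ≤ b / t := by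
    rw [le_div_iff₀ ht]
    linarith
  have h3 : P {ω | t ≤ |f ω|} ≤ ENNReal.ofReal (b / t) := by
    rw [← ofReal_measureReal (measure_ne_top _ _)]
    exact ENNReal.ofReal_le_ofReal h2
  exact (measure_mono fun ω (h : t < |f ω|) => h.le).trans h3

theorem sm_mem {d : ℕ} (a : Site d) (l n : ℕ) {k : Site d} (hk : k ∈ box (0 : Site d) n) :
    a + sm l k ∈ box a (l * n) := by
  rw [mem_box]
  exact sd_sm a l n hk

/-- clause 5 from `PigStmt` -/
theorem gev_shift (pig : PigStmt) (fmn : FmnStmt) (d : ℕ) (σ E κ₃ p : ℝ) (hd : 1 ≤ d)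
    (hσ : σ ≠ 0) (hκ : 0 < κ₃) (hp : 0 < p) (Q : ℕ) (hQ : 1 ≤ Q) (l : ℕ) :
    ∃ (ℓ N : ℕ) (a : Site d), l ≤ ℓ ∧ 1 ≤ ℓ ∧ box a (12 * (Q * ℓ)) ⊆ box 0 N ∧
      PP d (gl σ) {V | ¬ ∀ k ∈ box (0 : Site d) (8 * Q), ∀ y ∈ box (0 : Site d) Q,
        |DL (box 0 N) E V a (a + sm ℓ y) -
          DL (box 0 N) E V (a + sm ℓ k) (a + sm ℓ k + sm ℓ y)| ≤ κ₃ * (Q * ℓ)} ≤
        ENNReal.ofReal p := by
  classical
  obtain ⟨C, hC, hfam⟩ := fmn d σ E hd hσ
  set M : ℝ := ((2 * (8 * Q) + 1 : ℕ) : ℝ) ^ d * ((2 * Q + 1 : ℕ) : ℝ) ^ d with hM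
  have hMpos : 0 < M := by positivity
  have hQpos : (0 : ℝ) < Q := by exact_mod_cast hQ
  set ε : ℝ := p * (κ₃ * Q) / M with hε
  have hεpos : 0 < ε := by positivity
  obtain ⟨J, l₁, hl₁, hpig⟩ := pig d (8 * Q) (12 * Q) C ε hC hεpos (by omega)
  obtain ⟨N, hN⟩ := hpig (max l l₁) (le_max_right _ _)
  obtain ⟨j, -, a, hbox, hshift⟩ := hN N le_rfl (Site d → ℝ) (PP d (gl σ))
    (DL (box 0 N) E) (hfam N).1
  set ℓ : ℕ := 2 ^ j * max l l₁ with hℓ
  have hj1 : 1 ≤ 2 ^ j := Nat.one_le_two_pow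
  have hlℓ : max l l₁ ≤ ℓ := by nlinarith only [Nat.zero_le (max l l₁), hℓ, hj1]
  have hℓ1 : 1 ≤ ℓ := hl₁.trans ((le_max_right _ _).trans hlℓ)
  have hℓpos : (0 : ℝ) < ℓ := by exact_mod_cast hℓ1
  have hbox' : box a (12 * (Q * ℓ)) ⊆ box (0 : Site d) N := by
    have e : 12 * (Q * ℓ) = 12 * Q * ℓ := by ring
    rw [e]
    exact hbox
  refine ⟨ℓ, N, a, (le_max_left _ _).trans hlℓ, hℓ1, hbox', ?_⟩
  set t : ℝ := κ₃ * (Q * ℓ) with ht
  have htpos : 0 < t := by positivity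
  have hsub : {V | ¬ ∀ k ∈ box (0 : Site d) (8 * Q), ∀ y ∈ box (0 : Site d) Q,
        |DL (box 0 N) E V a (a + sm ℓ y) -
          DL (box 0 N) E V (a + sm ℓ k) (a + sm ℓ k + sm ℓ y)| ≤ t} ⊆
      ⋃ q ∈ box (0 : Site d) (8 * Q) ×ˢ box (0 : Site d) Q,
        {V | t < |DL (box 0 N) E V a (a + sm ℓ q.2) -
          DL (box 0 N) E V (a + sm ℓ q.1) (a + sm ℓ q.1 + sm ℓ q.2)|} := by
    intro V hV
    simp only [Set.mem_ofPred_eq, not_forall, not_le] at hV
    obtain ⟨k, hk, y, hy, h⟩ := hV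
    simp only [Set.mem_iUnion]
    exact ⟨(k, y), Finset.mem_product.2 ⟨hk, hy⟩, h⟩
  refine (measure_mono hsub).trans ((measure_biUnion_finset_le _ _).trans
    ((Finset.sum_le_sum (g := fun _ => ENNReal.ofReal (ε / (κ₃ * Q))) fun q hq => ?_).trans ?_))
  · rw [Finset.mem_product] at hq
    have m1 : a ∈ box (0 : Site d) N := hbox' (by rw [mem_box, sd_self]; omega)
    have m2 : a + sm ℓ q.2 ∈ box (0 : Site d) N :=
      hbox' (box_mono a (by nlinarith only) (sm_mem a ℓ Q hq.2))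
    have m3 : a + sm ℓ q.1 ∈ box (0 : Site d) N :=
      hbox' (box_mono a (by nlinarith only) (sm_mem a ℓ (8 * Q) hq.1))
    have m4 : a + sm ℓ q.1 + sm ℓ q.2 ∈ box (0 : Site d) N := by
      apply hbox'
      rw [mem_box]
      have h1 := sd_sm a ℓ (8 * Q) hq.1
      have h2 := sd_sm (a + sm ℓ q.1) ℓ Q hq.2
      have h3 := sd_triangle a (a + sm ℓ q.1) (a + sm ℓ q.1 + sm ℓ q.2)
      nlinarith only [h1, h2, h3]
    have i1 : Integrable (fun V => DL (box 0 N) E V a (a + sm ℓ q.2)) (PP d (gl σ)) :=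
      integrable_of_sq ((hfam N).1.meas _ _) ((hfam N).1.int _ m1 _ m2)
    have i2 : Integrable (fun V => DL (box 0 N) E V (a + sm ℓ q.1)
        (a + sm ℓ q.1 + sm ℓ q.2)) (PP d (gl σ)) :=
      integrable_of_sq ((hfam N).1.meas _ _) ((hfam N).1.int _ m3 _ m4)
    have hk := mem_box.1 hq.1
    have hy := mem_box.1 hq.2
    have h := markov (i1.sub i2) (t := t) (b := ε * ℓ) htpos (hshift q.2 q.1 (by omega) hk)
    refine h.trans (le_of_eq ?_)
    congr 1
    rw [ht]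
    field_simp
  · rw [Finset.sum_const, nsmul_eq_mul, ← ENNReal.ofReal_natCast,
      ← ENNReal.ofReal_mul (by positivity)]
    apply ENNReal.ofReal_le_ofReal
    rw [Finset.card_product, card_box, card_box]
    have e : (((2 * (8 * Q) + 1) ^ d * (2 * Q + 1) ^ d : ℕ) : ℝ) = M := by
      rw [hM]; push_cast; ring
    rw [e, hε]
    apply le_of_eq
    field_simp

/-- nonvanishing entries -/
theorem gev_ne (fmn : FmnStmt) (d : ℕ) (σ E : ℝ) (hd : 1 ≤ d) (hσ : σ ≠ 0) (N : ℕ)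
    (B : Finset (Site d)) (hB : B ⊆ box 0 N) :
    PP d (gl σ) {V | ¬ ∀ x ∈ B, ∀ y ∈ B, gr V (box 0 N) E x y ≠ 0} = 0 := by
  classical
  obtain ⟨C, hC, hfam⟩ := fmn d σ E hd hσ
  have hsub : {V | ¬ ∀ x ∈ B, ∀ y ∈ B, gr V (box 0 N) E x y ≠ 0} ⊆
      ⋃ q ∈ B ×ˢ B, {V | gr V (box 0 N) E q.1 q.2 = 0} := by
    intro V hV
    simp only [Set.mem_ofPred_eq, not_forall, not_not] at hV
    obtain ⟨x, hx, y, hy, h⟩ := hV
    simp only [Set.mem_iUnion]
    exact ⟨(x, y), Finset.mem_product.2 ⟨hx, hy⟩, h⟩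
  refine le_antisymm ((measure_mono hsub).trans ((measure_biUnion_finset_le _ _).trans ?_)) bot_le
  rw [Finset.sum_eq_zero]
  intro q hq
  rw [Finset.mem_product] at hq
  exact (hfam N).2 _ (hB hq.1) _ (hB hq.2)

/-- GEV -/
theorem gev (pig : PigStmt) (fmn : FmnStmt)
    (one : ∀ (d : ℕ) (σ E : ℝ), 1 ≤ d → σ ≠ 0 → ∃ C, OneTail d (gl σ) E C)
    (chn : ∀ (d : ℕ) (σ E : ℝ), 1 ≤ d → σ ≠ 0 → ∃ C, ChnTail d (gl σ) E C) : GevStmt := by
  classical
  intro d σ E κ₃ p hd hσ hκ hp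
  have hp8 : 0 < p / 8 := by positivity
  obtain ⟨Q, hQ2, hQc⟩ := gev_chain d σ E κ₃ (p / 8) hd hκ hp8 (chn d σ E hd hσ)
  have hν := bddDens_gl hσ
  obtain ⟨L1, hL1, h1⟩ := gev_tri d σ E κ₃ (p / 8) hκ hp8 (one d σ E hd hσ)
  obtain ⟨L2, hL2, h2⟩ := gev_up d σ E κ₃ (p / 8) _ hκ hp8 hν
  obtain ⟨L3, hL3, h3⟩ := gev_small d σ E κ₃ (p / 8) _ hκ hp8 hν
  refine ⟨Q, by omega, fun l => ?_⟩
  obtain ⟨ℓ, N, a, hl, hℓ1, hbox, h5⟩ := gev_shift pig fmn d σ E κ₃ (p / 8) hd hσ hκ hp8 Q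
    (by omega) (max l (max L1 (max L2 L3)))
  have hℓQ : ℓ ≤ Q * ℓ := by nlinarith only [hQ2, hℓ1]
  have hl' : l ≤ ℓ := (le_max_left _ _).trans hl
  have hm : max L1 (max L2 L3) ≤ ℓ := (le_max_right _ _).trans hl
  have hm1 : L1 ≤ Q * ℓ := ((le_max_left _ _).trans hm).trans hℓQ
  have hm2 : L2 ≤ Q * ℓ := ((le_max_left _ _).trans ((le_max_right _ _).trans hm)).trans hℓQ
  have hm3 : L3 ≤ Q * ℓ := ((le_max_right _ _).trans ((le_max_right _ _).trans hm)).trans hℓQ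
  refine ⟨ℓ, N, a, hl', hℓ1, hbox, ?_⟩
  have hsub : {V | ¬ GoodEv V N Q ℓ a E κ₃} ⊆
      {V | ¬ (RM V (box 0 N) E).det ≠ 0} ∪
      ({V | ¬ ∀ x ∈ box a (12 * (Q * ℓ)), ∀ y ∈ box a (12 * (Q * ℓ)),
        gr V (box 0 N) E x y ≠ 0} ∪
      ({V | ¬ ∀ x ∈ box a (12 * (Q * ℓ)), ∀ y ∈ box a (12 * (Q * ℓ)),
          |gr V (box 0 N) E x y| ≤ Real.exp (κ₃ * (Q * ℓ))} ∪
      ({V | (∀ x ∈ box a (12 * (Q * ℓ)), ∀ y ∈ box a (12 * (Q * ℓ)),
          gr V (box 0 N) E x y ≠ 0) ∧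
        ¬ ∀ x ∈ box a (12 * (Q * ℓ)), ∀ u ∈ box a (12 * (Q * ℓ)), ∀ y ∈ box a (12 * (Q * ℓ)),
          DL (box 0 N) E V x y ≤ DL (box 0 N) E V x u + DL (box 0 N) E V u y + κ₃ * (Q * ℓ)} ∪
      ({V | ¬ ∀ k ∈ box (0 : Site d) (10 * Q), ∀ y ∈ box (a + sm ℓ k) (3 * ℓ),
        DL (box 0 N) E V (a + sm ℓ k) y ≤ κ₃ * (Q * ℓ)} ∪
      ({V | ¬ ∀ k ∈ box (0 : Site d) (8 * Q), ∀ y ∈ box (0 : Site d) Q,
        |DL (box 0 N) E V a (a + sm ℓ y) -
          DL (box 0 N) E V (a + sm ℓ k) (a + sm ℓ k + sm ℓ y)| ≤ κ₃ * (Q * ℓ)} ∪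
      {V | ¬ ∀ s ∈ box a (8 * (Q * ℓ)), (RM V (box s (Q * ℓ)) E).det ≠ 0 ∧
        ∀ x y, |gr V (box s (Q * ℓ)) E x y| ≤ Real.exp (κ₃ * (Q * ℓ))}))))) := by
    intro V hV
    by_contra hc
    simp only [Set.mem_union, Set.mem_ofPred_eq, not_or, not_not, not_and] at hc
    obtain ⟨c1, c2, c3, c4, c5, c6, c7⟩ := hc
    apply hV
    refine ⟨c1, fun x hx y hy => ⟨c2 x hx y hy, c3 x hx y hy⟩, c4 c2, c5, c6, c7⟩
  refine (measure_mono hsub).trans ?_
  refine (measure_union_le _ _).trans ?_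
  rw [gev_det d σ E _ hν (box 0 N), zero_add]
  refine (measure_union_le _ _).trans ?_
  rw [gev_ne fmn d σ E hd hσ N _ hbox, zero_add]
  refine (measure_union_le _ _).trans ?_
  refine (add_le_add (h2 Q ℓ hm2 N a) ((measure_union_le _ _).trans
    (add_le_add (h1 Q ℓ hm1 N a hbox) ((measure_union_le _ _).trans
      (add_le_add (hQc Q le_rfl ℓ N a hℓ1 hbox) ((measure_union_le _ _).trans
        (add_le_add h5 (h3 Q ℓ hm3 a)))))))).trans ?_
  rw [← ENNReal.ofReal_add hp8.le hp8.le, ← ENNReal.ofReal_add hp8.le (by positivity),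
    ← ENNReal.ofReal_add hp8.le (by positivity), ← ENNReal.ofReal_add hp8.le (by positivity)]
  apply ENNReal.ofReal_le_ofReal
  linarith only [hp]

end Pool.Agent.LE.H28A
end
end -- Pool.Agent.Helper28_LE.GevA

section -- Pool.Agent.Helper28_LEC.UPM

/-!
# UPM: the mean of `D(0, m ℓ y)`
-/

set_option autoImplicit false

open MeasureTheory ProbabilityTheory Function Filter

open scoped ENNReal BigOperators Topology

noncomputable section

namespace Pool.Agent.LE.H28C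

open Pool.Agent.Anderson Pool.Agent.Loc Pool.Agent.Mob Pool.Agent.Helper54.Bal
  Pool.Agent.Mob.H75 Pool.Agent.LE.H28A

/-- The event that an entry from the boundary of a cube is large, uniformly in the parameters. -/
theorem up_u (d : ℕ) (B η p : ℝ) (hη : 0 < η) (hp : 0 < p) :
    ∃ L₀ : ℕ, 1 ≤ L₀ ∧ ∀ n : ℕ, L₀ ≤ n → ∀ (σ E : ℝ), BddDens (gl σ) B → ∀ (N : ℕ)
      (b x : Site d),
      PP d (gl σ) {V | ¬ ∀ z, sd b z = n + 1 → |gr V (box 0 N) E z x| ≤ Real.exp (η * n)} ≤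
        ENNReal.ofReal p := by
  classical
  obtain ⟨L₀, h1, hL₀⟩ := poly_exp (6 * B) η p d hη hp
  refine ⟨L₀, h1, fun n hn0 σ E hν N b x => ?_⟩
  have hn : 1 ≤ n := h1.trans hn0
  set t : ℝ := η * n with ht
  have hsub : {V | ¬ ∀ z, sd b z = n + 1 → |gr V (box 0 N) E z x| ≤ Real.exp t} ⊆
      ⋃ z ∈ box b (12 * n), {V | Real.exp t < |gr V (box 0 N) E z x|} := by
    intro V hV
    simp only [Set.mem_ofPred_eq, not_forall, not_le] at hV
    obtain ⟨z, hz, h⟩ := hV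
    simp only [Set.mem_iUnion]
    refine ⟨z, ?_, h⟩
    rw [mem_box]
    omega
  refine (measure_mono hsub).trans ((measure_biUnion_finset_le _ _).trans
    ((Finset.sum_le_sum (g := fun _ => ENNReal.ofReal (|6 * B| * Real.exp (-t)))
      fun z hz => ?_).trans ?_))
  · refine (PP_le_PL (Λ := box 0 N) ?_).trans ((PL_weak hν (box 0 N) E z x
      (Real.exp_pos t)).trans ?_)
    · intro V V' hV
      simp only [Set.mem_ofPred_eq]
      rw [gr_congr hV]
    · apply ENNReal.ofReal_le_ofReal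
      rw [Real.exp_neg, ← div_eq_mul_inv]
      exact div_le_div_of_nonneg_right (le_abs_self _) (Real.exp_pos _).le
  · rw [Finset.sum_const, nsmul_eq_mul, ← ENNReal.ofReal_natCast,
      ← ENNReal.ofReal_mul (by positivity)]
    apply ENNReal.ofReal_le_ofReal
    have hb : (((box b (12 * n)).card : ℕ) : ℝ) ≤ (25 * (n : ℝ)) ^ d := card_box_le b hn
    have h2 := hL₀ n hn0
    calc (((box b (12 * n)).card : ℕ) : ℝ) * (|6 * B| * Real.exp (-t))
        ≤ (25 * (n : ℝ)) ^ d * (|6 * B| * Real.exp (-t)) := by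
          apply mul_le_mul_of_nonneg_right hb (by positivity)
      _ = |6 * B| * (25 * (n : ℝ)) ^ d * Real.exp (-t) := by ring
      _ ≤ p := h2

/-- The mean of a function which is at most `c` outside a small set. -/
theorem mean_le {Ω : Type} [MeasurableSpace Ω] {P : Measure Ω} [IsProbabilityMeasure P]
    {f : Ω → ℝ} (hf : Measurable f) (hi : Integrable (fun ω => f ω ^ 2) P) {c lam q S : ℝ}
    (hc : 0 ≤ c) (hlam : 0 < lam) (hq : 0 ≤ q) (hS : ∫ ω, f ω ^ 2 ∂P ≤ S)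
    (hA : P {ω | c < f ω} ≤ ENNReal.ofReal q) :
    ∫ ω, f ω ∂P ≤ c + lam / 2 * S + q / (2 * lam) := by
  have hmA : MeasurableSet {ω | c < f ω} := measurableSet_lt measurable_const hf
  have hif : Integrable f P := integrable_of_sq hf hi
  have hind : Integrable ({ω | c < f ω}.indicator fun _ => (1 : ℝ) / (2 * lam)) P :=
    (integrable_const _).indicator hmA
  have h1 : ∫ ω, f ω ∂P ≤ ∫ ω, (c + lam / 2 * f ω ^ 2 +
      {ω | c < f ω}.indicator (fun _ => (1 : ℝ) / (2 * lam)) ω) ∂P := by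
    refine integral_mono hif (((integrable_const c).add (hi.const_mul _)).add hind) ?_
    intro ω
    simp only
    by_cases h : c < f ω
    · rw [Set.indicator_of_mem (show ω ∈ {ω | c < f ω} from h)]
      have h2 : 0 ≤ lam / 2 * (f ω - 1 / lam) ^ 2 := by positivity
      have h3 : lam / 2 * (f ω - 1 / lam) ^ 2 = lam / 2 * f ω ^ 2 - f ω + 1 / (2 * lam) := by
        field_simp
        ring
      linarith only [hc, h2, h3]
    · rw [Set.indicator_of_notMem (show ω ∉ {ω | c < f ω} from h)]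
      have h2 : 0 ≤ lam / 2 * f ω ^ 2 := by positivity
      have h3 := not_lt.1 h
      linarith only [h, h2]
  have h2 : ∫ ω, (c + lam / 2 * f ω ^ 2 +
      {ω | c < f ω}.indicator (fun _ => (1 : ℝ) / (2 * lam)) ω) ∂P =
      c + lam / 2 * ∫ ω, f ω ^ 2 ∂P + P.real {ω | c < f ω} * (1 / (2 * lam)) := by
    have i1 : Integrable (fun ω => c + lam / 2 * f ω ^ 2) P :=
      (integrable_const c).add (hi.const_mul _)
    have i2 : Integrable (fun ω => lam / 2 * f ω ^ 2) P := hi.const_mul _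
    rw [integral_add i1 hind, integral_add (integrable_const c) i2, integral_const,
      integral_const_mul, integral_indicator_const _ hmA]
    simp
  have h3 : P.real {ω | c < f ω} ≤ q := by
    rw [measureReal_def]
    exact ENNReal.toReal_le_of_le_ofReal hq hA
  have h4 : P.real {ω | c < f ω} * (1 / (2 * lam)) ≤ q / (2 * lam) := by
    rw [mul_one_div]
    exact div_le_div_of_nonneg_right h3 (by positivity)
  have h5 : lam / 2 * ∫ ω, f ω ^ 2 ∂P ≤ lam / 2 * S :=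
    mul_le_mul_of_nonneg_left hS (by positivity)
  linarith only [h1, h2, h4, h5]

/-- The mean of the positive part from the second moment. -/
theorem mean_pos {Ω : Type} [MeasurableSpace Ω] {P : Measure Ω} [IsProbabilityMeasure P]
    {f g h : Ω → ℝ} (hf : Integrable f P) (hg : Integrable g P) (hh : Integrable h P)
    (hm : Integrable (fun ω => (max 0 (f ω - g ω - h ω)) ^ 2) P) {C : ℝ}
    (hC : ∫ ω, (max 0 (f ω - g ω - h ω)) ^ 2 ∂P ≤ C) :
    ∫ ω, f ω ∂P ≤ ∫ ω, g ω ∂P + ∫ ω, h ω ∂P + (1 + C) / 2 := by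
  have h1 : ∫ ω, f ω ∂P ≤ ∫ ω, (g ω + h ω + (1 / 2 + 1 / 2 * (max 0 (f ω - g ω - h ω)) ^ 2)) ∂P := by
    refine integral_mono hf ((hg.add hh).add ((integrable_const _).add (hm.const_mul _))) ?_
    intro ω
    simp only
    have h2 := le_max_right 0 (f ω - g ω - h ω)
    nlinarith only [sq_nonneg (max 0 (f ω - g ω - h ω) - 1), h2]
  have h2 : ∫ ω, (g ω + h ω + (1 / 2 + 1 / 2 * (max 0 (f ω - g ω - h ω)) ^ 2)) ∂P =
      ∫ ω, g ω ∂P + ∫ ω, h ω ∂P + (1 / 2 + 1 / 2 * ∫ ω, (max 0 (f ω - g ω - h ω)) ^ 2 ∂P) := by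
    have i1 : Integrable (fun ω => g ω + h ω) P := hg.add hh
    have i2 : Integrable (fun ω => 1 / 2 * (max 0 (f ω - g ω - h ω)) ^ 2) P := hm.const_mul _
    have i3 : Integrable (fun ω => 1 / 2 + 1 / 2 * (max 0 (f ω - g ω - h ω)) ^ 2) P :=
      (integrable_const _).add i2
    rw [integral_add i1 i3, integral_add hg hh, integral_add (integrable_const _) i2,
      integral_const, integral_const_mul]
    simp
  linarith

theorem box_sub {d : ℕ} (b : Site d) (r N : ℕ) (h : sd 0 b + r ≤ N) : box b r ⊆ box 0 N := by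
  intro z hz
  rw [mem_box] at hz ⊢
  have := sd_triangle 0 b z
  omega

theorem int_pos {Ω : Type} [MeasurableSpace Ω] {P : Measure Ω} [IsProbabilityMeasure P]
    {f g h : Ω → ℝ} (mf : Measurable f) (mg : Measurable g) (mh : Measurable h)
    (hf : Integrable (fun ω => f ω ^ 2) P) (hg : Integrable (fun ω => g ω ^ 2) P)
    (hh : Integrable (fun ω => h ω ^ 2) P) :
    Integrable (fun ω => (max 0 (f ω - g ω - h ω)) ^ 2) P := by
  refine (((hf.add hg).add hh).const_mul 3).mono' ?_ (Eventually.of_forall fun ω => ?_)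
  · exact (((measurable_const.max ((mf.sub mg).sub mh))).pow_const 2).aestronglyMeasurable
  · simp only [Pi.add_apply, Real.norm_eq_abs]
    rw [abs_of_nonneg (sq_nonneg _)]
    have h1 : (max 0 (f ω - g ω - h ω)) ^ 2 ≤ (f ω - g ω - h ω) ^ 2 := by
      rcases le_total 0 (f ω - g ω - h ω) with h2 | h2
      · rw [max_eq_right h2]
      · rw [max_eq_left h2]
        nlinarith only [sq_nonneg (f ω - g ω - h ω)]
    nlinarith [sq_nonneg (f ω + g ω), sq_nonneg (f ω + h ω), sq_nonneg (g ω - h ω)]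

/-- The lower bound for the entry outside the bad events. -/
theorem entry_le {a b L s κ : ℝ} (h1 : |a - b| ≤ Real.exp (-(κ + 1) * L) / 2)
    (h2 : Real.exp (-(κ + s) * L) ≤ |b|) (hs : s ≤ 1) (hL : 0 ≤ L) :
    -Real.log |a| ≤ (κ + s) * L + 1 := by
  have h3 : Real.exp (-(κ + 1) * L) ≤ Real.exp (-(κ + s) * L) := by
    apply Real.exp_le_exp.2
    nlinarith only [hs, hL]
  have h4 : |b| ≤ |a| + |a - b| := by
    have := abs_sub_abs_le_abs_sub b a
    rw [abs_sub_comm b a] at this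
    linarith
  have h5 : Real.exp (-(κ + s) * L) / 2 ≤ |a| := by linarith
  have h6 : Real.exp (-((κ + s) * L + 1)) ≤ |a| := by
    refine le_trans ?_ h5
    have e : Real.exp (-((κ + s) * L + 1)) = Real.exp (-(κ + s) * L) * Real.exp (-1) := by
      rw [← Real.exp_add]
      congr 1
      ring
    rw [e, div_eq_mul_one_div]
    apply mul_le_mul_of_nonneg_left _ (Real.exp_pos _).le
    have h7 := Real.add_one_le_exp (1 : ℝ)
    rw [Real.exp_neg, ← one_div]
    exact one_div_le_one_div_of_le (by norm_num) (by linarith only [h7])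
  have h8 : -((κ + s) * L + 1) ≤ Real.log |a| := by
    rw [← Real.log_exp (-((κ + s) * L + 1))]
    exact Real.log_le_log (Real.exp_pos _) h6
  linarith only [h8]

theorem bdd_mono {ν : Measure ℝ} {ρ B : ℝ} (h : BddDens ν ρ) (hρ : ρ ≤ B) : BddDens ν B := by
  refine ⟨h.1.trans_le hρ, fun a b => ?_⟩
  rcases le_total a b with hab | hab
  · exact (h.2 a b).trans (ENNReal.ofReal_le_ofReal
      (mul_le_mul_of_nonneg_right hρ (by linarith)))
  · rcases eq_or_lt_of_le hab with h1 | h1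
    · subst h1
      refine (h.2 b b).trans (ENNReal.ofReal_le_ofReal ?_)
      rw [sub_self, mul_zero, mul_zero]
    · rw [Set.Icc_eq_empty (not_le.2 h1), measure_empty]
      exact bot_le

/-- **UPM** -/
theorem upm (ufm : UfmStmt) (lox : LoxStmt) : UpmStmt := by
  intro d B κ' κ₀ ε K hd hB hκ' hκ₀ hε hK hKκ
  obtain ⟨C, hC, hfam⟩ := ufm d B hd hB
  have hK8 : (8 : ℝ) ≤ K := by exact_mod_cast hK
  have hK0 : (0 : ℝ) < K := by linarith only [hK8]
  obtain ⟨s, hs⟩ : ∃ s : ℝ, s = ε / (16 * C) := ⟨_, rfl⟩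
  have hs0 : 0 < s := by rw [hs]; positivity
  have hsC : s * C = ε / 16 := by rw [hs]; field_simp
  refine ⟨min (κ' / (24 * K)) (min (1 / (8 * K)) (ε / (32 * K))), ε * s / 12, by positivity,
    by positivity, ?_⟩
  intro η hη hη0
  have e1 : 24 * η * K ≤ κ' := by
    have h := hη0.trans (min_le_left _ _)
    rw [le_div_iff₀ (by positivity)] at h
    linarith only [h]
  have e2 : 8 * η * K ≤ 1 := by
    have h := hη0.trans ((min_le_right _ _).trans (min_le_left _ _))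
    rw [le_div_iff₀ (by positivity)] at h
    linarith only [h]
  have e3 : 32 * η * K ≤ ε := by
    have h := hη0.trans ((min_le_right _ _).trans (min_le_right _ _))
    rw [le_div_iff₀ (by positivity)] at h
    linarith only [h]
  have hηK : 0 < η * K := by positivity
  obtain ⟨L1, hL1⟩ := lox d η κ' κ₀ K hd hη hκ' hκ₀ hK e1 hKκ
  obtain ⟨L2, -, hL2⟩ := up_u d B η (ε * s / 12) hη (by positivity)
  obtain ⟨L3, hL3⟩ := exists_nat_ge (1 / (η * K))
  obtain ⟨L4, hL4⟩ := exists_nat_ge (2 * (1 + C) / ε)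
  refine ⟨max (max L1 L2) (max (max L3 L4) 1), ?_⟩
  intro σ E Q₁ ℓ y hpar hQ hℓ hL hy hSG hGR
  obtain ⟨L, hLdef⟩ : ∃ L : ℕ, L = Q₁ * ℓ := ⟨_, rfl⟩
  have hLR : ((Q₁ : ℝ) * (ℓ : ℝ)) = (L : ℝ) := by rw [hLdef]; push_cast; ring
  have hKL : K * Q₁ * ℓ = K * L := by rw [hLdef, mul_assoc]
  rw [← hLdef] at hL
  rw [hKL, hLR] at hGR
  rw [hKL] at hSG
  rw [← hLdef, hLR]
  have g1 : L1 ≤ L := ((le_max_left _ _).trans (le_max_left _ _)).trans hL
  have g2 : L2 ≤ L := ((le_max_right _ _).trans (le_max_left _ _)).trans hL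
  have g3 : L3 ≤ L := (((le_max_left _ _).trans (le_max_left _ _)).trans (le_max_right _ _)).trans hL
  have g4 : L4 ≤ L := (((le_max_right _ _).trans (le_max_left _ _)).trans (le_max_right _ _)).trans hL
  have g5 : 1 ≤ L := ((le_max_right _ _).trans (le_max_right _ _)).trans hL
  have r1 : (1 : ℝ) ≤ L := by exact_mod_cast g5
  have r0 : (0 : ℝ) < L := by linarith only [e2, hηK, r1]
  have r3 : 1 ≤ η * K * L := by
    have h : 1 / (η * K) ≤ L := hL3.trans (by exact_mod_cast g3)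
    rw [div_le_iff₀ hηK] at h
    linarith only [h]
  have r4 : (1 + C) / 2 ≤ ε / 4 * L := by
    have h : 2 * (1 + C) / ε ≤ L := hL4.trans (by exact_mod_cast g4)
    rw [div_le_iff₀ hε] at h
    linarith only [h]
  have hσ : σ ≠ 0 := by
    rintro rfl
    have := hpar.2.2
    rw [abs_zero, mul_zero] at this
    linarith only [e2, hηK, this]
  have hdens : BddDens (gl σ) B := by
    refine bdd_mono (bddDens_gl hσ) ?_
    rw [div_le_iff₀ (abs_pos.2 hσ)]
    exact hpar.2.2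
  have hyQ : y ∈ box (0 : Site d) Q₁ := by rw [mem_box, hy]
  -- one step
  have step : ∀ (N : ℕ) (b : Site d), sd 0 b + (K * L + 1) ≤ N →
      ∫ V, DL (box 0 N) E V b (b + sm ℓ y) ∂(PP d (gl σ)) ≤ (κ₀ + ε / 2) * L := by
    intro N b hbN
    obtain ⟨hF, -⟩ := hfam σ E hpar N
    have hx : sd b (b + sm ℓ y) ≤ L := by
      have := sd_sm b ℓ Q₁ hyQ
      rw [mul_comm, ← hLdef] at this
      exact this
    have hLK : L ≤ K * L := Nat.le_mul_of_pos_left L (by omega)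
    have hbox : box b (K * L + 1) ⊆ box 0 N := box_sub b _ N hbN
    have hb0 : b ∈ box 0 N := by
      rw [mem_box]
      omega
    have hx0 : b + sm ℓ y ∈ box 0 N := by
      rw [mem_box]
      have := sd_triangle 0 b (b + sm ℓ y)
      omega
    have hsq : ∫ V, DL (box 0 N) E V b (b + sm ℓ y) ^ 2 ∂(PP d (gl σ)) ≤ 4 * C * (L : ℝ) ^ 2 := by
      refine (hF.sq b hb0 _ hx0).trans ?_
      have h1 : (sd b (b + sm ℓ y) : ℝ) ≤ L := by exact_mod_cast hx
      have h2 : ((sd b (b + sm ℓ y) : ℝ) + 1) ^ 2 ≤ (2 * L) ^ 2 :=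
        pow_le_pow_left₀ (by positivity) (by linarith only [r1, h1]) 2
      calc C * ((sd b (b + sm ℓ y) : ℝ) + 1) ^ 2 ≤ C * (2 * L) ^ 2 :=
            mul_le_mul_of_nonneg_left h2 hC.le
        _ = 4 * C * (L : ℝ) ^ 2 := by ring
    have hA : (PP d (gl σ)) {V | (κ₀ + 7 * η * K) * L + 1 < DL (box 0 N) E V b (b + sm ℓ y)} ≤
        ENNReal.ofReal (3 * (ε * s / 12)) := by
      have hsub : {V | (κ₀ + 7 * η * K) * L + 1 < DL (box 0 N) E V b (b + sm ℓ y)} ⊆
          ({V | ¬ (RM V (box 0 N) E).det ≠ 0} ∪ {V | ¬ SG V (K * L) (κ' / 4) E b}) ∪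
          ({V | |gr V (box b (K * L)) E b (b + sm ℓ y)| <
            Real.exp (-(κ₀ + 7 * η * K) * L)} ∪
          {V | ¬ ∀ z, sd b z = K * L + 1 →
            |gr V (box 0 N) E z (b + sm ℓ y)| ≤ Real.exp (η * ((K * L : ℕ) : ℝ))}) := by
        intro V hV
        by_contra hcon
        simp only [Set.mem_union, Set.mem_ofPred_eq, not_or, not_not, not_lt] at hcon hV
        obtain ⟨⟨c1, c2⟩, c3, c4⟩ := hcon
        have h1 := hL1 V N L b (b + sm ℓ y) E g1 hbox c1 c2 (by rw [mem_box]; exact hx)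
          (fun z hz => by
            have := c4 z hz
            push_cast at this
            exact this)
        have h2 := entry_le (s := 7 * η * K) h1 c3 (by linarith only [e2, hηK]) r0.le
        unfold DL at hV
        linarith only [hV, h2]
      refine (measure_mono hsub).trans ((measure_union_le _ _).trans ?_)
      have u1 : (PP d (gl σ)) ({V | ¬ (RM V (box 0 N) E).det ≠ 0} ∪
          {V | ¬ SG V (K * L) (κ' / 4) E b}) ≤ ENNReal.ofReal (ε * s / 12) := by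
        refine (measure_union_le _ _).trans ?_
        rw [gev_det d σ E B hdens (box 0 N), zero_add]
        exact hSG b
      have u2 : (PP d (gl σ)) ({V | |gr V (box b (K * L)) E b (b + sm ℓ y)| <
            Real.exp (-(κ₀ + 7 * η * K) * L)} ∪
          {V | ¬ ∀ z, sd b z = K * L + 1 →
            |gr V (box 0 N) E z (b + sm ℓ y)| ≤ Real.exp (η * ((K * L : ℕ) : ℝ))}) ≤
          ENNReal.ofReal (ε * s / 12) + ENNReal.ofReal (ε * s / 12) := by
        refine (measure_union_le _ _).trans (add_le_add (hGR b) ?_)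
        exact hL2 (K * L) (g2.trans hLK) σ E hdens N b (b + sm ℓ y)
      refine (add_le_add u1 u2).trans (le_of_eq ?_)
      rw [← ENNReal.ofReal_add (by positivity) (by positivity),
        ← ENNReal.ofReal_add (by positivity) (by positivity)]
      congr 1
      ring
    have h := mean_le (hF.meas b (b + sm ℓ y)) (hF.int b hb0 _ hx0)
      (c := (κ₀ + 7 * η * K) * L + 1) (lam := s / L) (q := 3 * (ε * s / 12)) (by positivity)
      (by positivity) (by positivity) hsq hA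
    have h3 : s / L / 2 * (4 * C * (L : ℝ) ^ 2) = ε / 8 * L := by
      have : s / L / 2 * (4 * C * (L : ℝ) ^ 2) = 2 * (s * C) * L := by
        field_simp
        ring
      rw [this, hsC]
      ring
    have h4 : 3 * (ε * s / 12) / (2 * (s / L)) = ε / 8 * L := by
      field_simp
      ring
    rw [h3, h4] at h
    nlinarith only [e3, r3, h]
  -- induction
  have main : ∀ m N : ℕ, (m + 1 + K + 2) * L ≤ N →
      ∫ V, DL (box 0 N) E V 0 (sm ((m + 1) * ℓ) y) ∂(PP d (gl σ)) ≤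
        ((m : ℝ) + 1) * ((κ₀ + ε) * L) := by
    intro m
    induction m with
    | zero =>
      intro N hN
      have h := step N 0 (by
        rw [sd_self]
        nlinarith only [g5, hN])
      have e : (0 : Site d) + sm ℓ y = sm ((0 + 1) * ℓ) y := by
        rw [zero_add, zero_add, one_mul]
      rw [e] at h
      refine h.trans ?_
      push_cast
      nlinarith only [hC, e2, hηK, r4]
    | succ m ih =>
      intro N hN
      obtain ⟨hF, -⟩ := hfam σ E hpar N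
      have hN' : (m + 1 + K + 2) * L ≤ N := le_trans (Nat.mul_le_mul_right L (by omega)) hN
      have hb : sd (0 : Site d) (sm ((m + 1) * ℓ) y) ≤ (m + 1) * L := by
        have := sd_sm (0 : Site d) ((m + 1) * ℓ) Q₁ hyQ
        rw [zero_add, mul_assoc, mul_comm ℓ Q₁, ← hLdef] at this
        exact this
      have hx : sd (0 : Site d) (sm ((m + 1 + 1) * ℓ) y) ≤ (m + 1 + 1) * L := by
        have := sd_sm (0 : Site d) ((m + 1 + 1) * ℓ) Q₁ hyQ
        rw [zero_add, mul_assoc, mul_comm ℓ Q₁, ← hLdef] at this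
        exact this
      have hNN : (m + 1) * L + (K * L + 1) ≤ N := by nlinarith only [g5, hN]
      have h := step N (sm ((m + 1) * ℓ) y) (by omega)
      have e : sm ((m + 1) * ℓ) y + sm ℓ y = sm ((m + 1 + 1) * ℓ) y := by
        funext j
        simp only [Pi.add_apply, sm]
        push_cast
        ring
      rw [e] at h
      have m0 : (0 : Site d) ∈ box 0 N := by
        rw [mem_box, sd_self]
        omega
      have m1 : sm ((m + 1) * ℓ) y ∈ box 0 N := by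
        rw [mem_box]
        omega
      have m2 : sm ((m + 1 + 1) * ℓ) y ∈ box 0 N := by
        rw [mem_box]
        nlinarith only [g5, hN, hx]
      have h2 := mean_pos (P := PP d (gl σ))
        (integrable_of_sq (hF.meas 0 (sm ((m + 1 + 1) * ℓ) y)) (hF.int 0 m0 _ m2))
        (integrable_of_sq (hF.meas 0 (sm ((m + 1) * ℓ) y)) (hF.int 0 m0 _ m1))
        (integrable_of_sq (hF.meas (sm ((m + 1) * ℓ) y) (sm ((m + 1 + 1) * ℓ) y))
          (hF.int _ m1 _ m2))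
        (int_pos (hF.meas _ _) (hF.meas _ _) (hF.meas _ _) (hF.int 0 m0 _ m2)
          (hF.int 0 m0 _ m1) (hF.int _ m1 _ m2))
        (hF.tri 0 m0 _ m1 _ m2)
      have h3 := ih N hN'
      have h5 : (κ₀ + ε / 2) * L + ε / 4 * L ≤ (κ₀ + ε) * L := by
        have := mul_pos hε r0
        linarith only [hC, e2, hηK, r4]
      have h6 : (((m + 1 : ℕ) : ℝ) + 1) * ((κ₀ + ε) * L) =
          ((m : ℝ) + 1) * ((κ₀ + ε) * L) + (κ₀ + ε) * L := by
        push_cast
        ring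
      rw [h6]
      linarith only [hC, e2, hηK, r4, h, h2, h3]
  intro m N hm hN
  obtain ⟨m', rfl⟩ : ∃ m', m = m' + 1 := ⟨m - 1, by omega⟩
  have h := main m' N hN
  push_cast
  exact h

end Pool.Agent.LE.H28C
end
end -- Pool.Agent.Helper28_LEC.UPM
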