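import Pool.Agent.Helper12_MEB.B037
import Pool.Agent.Helper12_MEB.B043
import Pool.Agent.Helper12_MEB.B047
import Pool.Agent.Helper12_MEB.B054
import Pool.Agent.Helper12_MEB.B061
import Pool.Agent.Helper12_MEB.B064
import Pool.Agent.Helper12_MEB.B065
import Pool.Agent.Helper12_MEB.B068
import Pool.Agent.Helper12_MEB.B069
import Pool.Agent.Helper12_MEB.B070

/-!
# Merged copies (generated) of the modules

* `Pool.Agent.Helper59_LEW.Trf`
* `Pool.Agent.Helper77_LEW.INF`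
* `Pool.Agent.Helper42_LEC.TVC`
* `Pool.Agent.Helper96_EXP.One`
* `Pool.Agent.Helper59_LEC.Gvu`
* `Pool.Agent.Helper59_LEC.Zos`
* `Pool.Agent.Helper93_LEC.UPB`
* `Pool.Agent.Helper93_LEC.AllC`
* `Pool.Agent.Helper93_LEW.WKD`
* `Pool.Agent.Helper93_LEW.AllW`
* `Pool.Agent.Helper93_LEW.AllX`
* `Pool.Agent.Helper54_LEW.FPX`
* `Pool.Agent.Helper93_LEW.Edge`
* `Pool.Agent.Helper93_LEW.AllY`
-/

set_option autoImplicit false

section -- Pool.Agent.Helper59_LEW.Trf

/-!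
# TRF: the triangle inequality for `FD`
-/

set_option autoImplicit false

open MeasureTheory ProbabilityTheory Function Filter

open scoped ENNReal BigOperators Topology

noncomputable section

namespace Pool.Agent.LE.H59W

open Pool.Agent.Anderson Pool.Agent.Loc Pool.Agent.Mob Pool.Agent.Helper54.Bal
  Pool.Agent.Helper96.EXP

theorem gmax_pos {d : ℕ} {V : Site d → ℝ} {Λ S : Finset (Site d)} {E : ℝ} {x z : Site d}
    (hz : z ∈ S) (h : gr V Λ E z x ≠ 0) : 0 < gmax V Λ E S x := by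
  unfold gmax
  have h1 : ‖gr V Λ E z x‖₊ ≤ S.sup fun z => ‖gr V Λ E z x‖₊ :=
    Finset.le_sup (f := fun z => ‖gr V Λ E z x‖₊) hz
  have h2 : 0 < ‖gr V Λ E z x‖₊ := by
    rw [pos_iff_ne_zero, Ne, nnnorm_eq_zero]
    exact h
  exact NNReal.coe_pos.2 (h2.trans_le h1)

theorem log_step {A B g t : ℝ} (hA : 0 < A) (hB : 0 < B) (hg : 0 < g)
    (h : A * g ≤ Real.exp t * B) : -Real.log B ≤ -Real.log A + -Real.log g + t := by
  have h1 := Real.log_le_log (mul_pos hA hg) h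
  rw [Real.log_mul hA.ne' hg.ne', Real.log_mul (Real.exp_pos _).ne' hB.ne', Real.log_exp] at h1
  linarith

theorem trf (hv : VtrStmt) (hu : UfmStmt) : TrfStmt := by
  intro d N σ E t S x y hd hσ hS hSN hx hy
  obtain ⟨z, hz⟩ := hS
  have hs0 : 0 < |σ| := abs_pos.2 hσ
  have hpar : Par (|E| + |σ| + 1 / |σ|) σ E := by
    have h1 : 0 < 1 / |σ| := by positivity
    have h2 : 0 ≤ |E| := abs_nonneg E
    refine ⟨by linarith, by linarith, ?_⟩
    calc (1 : ℝ) = 1 / |σ| * |σ| := by field_simp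
      _ ≤ (|E| + |σ| + 1 / |σ|) * |σ| :=
        mul_le_mul_of_nonneg_right (by linarith) hs0.le
  have hB : 0 < |E| + |σ| + 1 / |σ| := by positivity
  obtain ⟨_, _, hF⟩ := hu d _ hd hB
  have h0 := (hF σ E hpar N).2
  set T : ℝ := Real.exp t with hT
  have hT0 : 0 < T := Real.exp_pos t
  have e1 := hv d σ E T (box 0 N) S x y hσ hT0
  have e2 := hv d σ E T (box 0 N) S y x hσ hT0
  have hincl : {V : Site d → ℝ | ¬ |FD V (box 0 N) E S x - FD V (box 0 N) E S y| ≤
      DL (box 0 N) E V x y + t} ⊆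
      (({V | gr V (box 0 N) E x y = 0} ∪ {V | gr V (box 0 N) E z x = 0}) ∪
        {V | gr V (box 0 N) E z y = 0}) ∪
      ({V | T * gmax V (box 0 N) E S y < gmax V (box 0 N) E S x * |gr V (box 0 N) E x y|} ∪
        {V | T * gmax V (box 0 N) E S x < gmax V (box 0 N) E S y * |gr V (box 0 N) E y x|}) := by
    intro V hV
    by_contra hcon
    simp only [Set.mem_union, Set.mem_ofPred_eq, not_or, not_lt] at hcon
    obtain ⟨⟨⟨c1, c2⟩, c3⟩, c4, c5⟩ := hcon
    apply hV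
    have hA := gmax_pos hz c2
    have hB := gmax_pos hz c3
    have hg : 0 < |gr V (box 0 N) E x y| := abs_pos.2 c1
    have f1 := log_step hA hB hg c4
    rw [gr_symm V (box 0 N) E y x] at c5
    have f2 := log_step hB hA hg c5
    unfold FD DL
    rw [abs_le]
    constructor
    · linarith
    · linarith
  refine (measure_mono hincl).trans ?_
  refine (measure_union_le _ _).trans ?_
  have z1 : PP d (gl σ) (({V | gr V (box 0 N) E x y = 0} ∪ {V | gr V (box 0 N) E z x = 0}) ∪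
      {V | gr V (box 0 N) E z y = 0}) = 0 :=
    measure_union_null (measure_union_null (h0 x hx y hy) (h0 z (hSN hz) x hx))
      (h0 z (hSN hz) y hy)
  rw [z1, zero_add]
  refine (measure_union_le _ _).trans ((add_le_add e1 e2).trans ?_)
  rw [← ENNReal.ofReal_add (by positivity) (by positivity)]
  apply ENNReal.ofReal_le_ofReal
  rw [hT, Real.exp_neg]
  apply le_of_eq
  field_simp
  ring

end Pool.Agent.LE.H59W
end
end -- Pool.Agent.Helper59_LEW.Trf

section -- Pool.Agent.Helper77_LEW.INF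

/-!
# INF: large cubes insulate at a rate below the Lyapunov exponent
-/

set_option autoImplicit false

open MeasureTheory ProbabilityTheory Function Filter

open scoped ENNReal BigOperators Topology

noncomputable section

namespace Pool.Agent.LE.H77W

open Pool.Agent.Anderson Pool.Agent.Loc Pool.Agent.Mob Pool.Agent.Helper54.Bal

theorem inf (gvu : GvuStmt) (ins : InsStmt2) : InfStmt := by
  classical
  intro d σ E g κ hd hσ hlya hκ hκg L₀
  have hσ0 : 0 < |σ| := abs_pos.2 hσ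
  set B : ℝ := |E| + |σ| + 1 / |σ| with hBdef
  have hB : 0 < B := by positivity
  have hpar : Par B σ E := by
    have h1 : 0 < 1 / |σ| := by positivity
    refine ⟨?_, ?_, ?_⟩
    · have := abs_nonneg E
      linarith
    · have := abs_nonneg E
      linarith
    · have h2 : 1 / |σ| * |σ| = 1 := by field_simp
      have h3 : 0 ≤ (|E| + |σ|) * |σ| := by positivity
      calc (1 : ℝ) ≤ (|E| + |σ|) * |σ| + 1 / |σ| * |σ| := by linarith
        _ = B * |σ| := by ring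
  obtain ⟨Li, hins⟩ := ins d (κ / 48) κ 1 hd (by positivity) hκ le_rfl (by
    rw [Nat.cast_one]
    linarith)
  obtain ⟨Q₀, hQ₀, hgvu⟩ := gvu d B (κ / 48) (1 / 8) hd hB (by positivity) (by norm_num)
  obtain ⟨J, l, hl, hgvu⟩ := hgvu Q₀ le_rfl
  have hl2 := (hlya.2 (g - κ) (by linarith)).2
  rw [show g - (g - κ) = κ by ring] at hl2
  have hev : ∀ᶠ L : ℕ in atTop, PP d (gl σ) {V | ¬ SG V L κ E 0} ≤ ENNReal.ofReal (1 / 8) := by
    have h1 : (0 : ℝ≥0∞) < ENNReal.ofReal (1 / 8) := by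
      rw [ENNReal.ofReal_pos]
      norm_num
    exact (hl2.eventually_lt_const h1).mono fun L hL => hL.le
  obtain ⟨L₁, hL₁⟩ := eventually_atTop.1 hev
  set ℓ₀ : ℕ := max l (max (max Li L₁) (max L₀ 1)) with hℓ₀
  have hℓl : l ≤ ℓ₀ := le_max_left _ _
  have hℓi : Li ≤ ℓ₀ := by omega
  have hℓ1 : L₁ ≤ ℓ₀ := by omega
  have hℓ0 : L₀ ≤ ℓ₀ := by omega
  have hℓ : 1 ≤ ℓ₀ := by omega
  obtain ⟨j, -, N, a, hbox, hbad⟩ := hgvu ℓ₀ hℓl σ E hpar
  set ell : ℕ := 2 ^ j * ℓ₀ with hell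
  have hle : ℓ₀ ≤ ell := Nat.le_mul_of_pos_left _ (Nat.pow_pos (by norm_num))
  have hell1 : 1 ≤ ell := hℓ.trans hle
  have hLe : ell ≤ Q₀ * ell := Nat.le_mul_of_pos_left _ hQ₀
  have hL : ℓ₀ ≤ Q₀ * ell := hle.trans hLe
  refine ⟨Q₀ * ell, N, a, hℓ0.trans hL, (box_mono a (by omega)).trans hbox, ?_⟩
  have hQd : (1 : ℝ) ≤ (Q₀ : ℝ) ^ (2 * d) := one_le_pow₀ (by exact_mod_cast hQ₀)
  have hb1 : PP d (gl σ) {V | ¬ GoodU V N Q₀ ell a E (κ / 48)} ≤ ENNReal.ofReal (1 / 8) :=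
    hbad.trans (ENNReal.ofReal_le_ofReal (div_le_self (by norm_num) hQd))
  have hb2 : PP d (gl σ) {V | ¬ SG V (Q₀ * ell) κ E a} ≤ ENNReal.ofReal (1 / 8) := by
    rw [H3G.prob_nsg]
    exact hL₁ _ (hℓ1.trans hL)
  have hsub : {V : Site d → ℝ | ¬ ∀ x ∈ box a (2 * (Q₀ * ell)), ∀ y ∈ box a (2 * (Q₀ * ell)),
      Q₀ * ell + 1 ≤ sd x y → κ / 2 * ((Q₀ * ell : ℕ) : ℝ) ≤ DL (box 0 N) E V x y} ⊆
      {V | ¬ GoodU V N Q₀ ell a E (κ / 48)} ∪ {V | ¬ SG V (Q₀ * ell) κ E a} := by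
    intro V hV
    by_contra hc
    simp only [Set.mem_union, Set.mem_ofPred_eq, not_or, not_not] at hc
    apply hV
    intro x hx y hy hxy
    have h1 := hins V N Q₀ ell a E hQ₀ hell1 (hℓi.trans hL) (by rw [one_mul]; exact hbox)
      (by rw [one_mul]; exact hc.1) hc.2 x hx y hy hxy
    push_cast
    exact h1
  refine (measure_mono hsub).trans ((measure_union_le _ _).trans ?_)
  refine (add_le_add hb1 hb2).trans ?_
  rw [← ENNReal.ofReal_add (by norm_num) (by norm_num)]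
  apply ENNReal.ofReal_le_ofReal
  norm_num

end Pool.Agent.LE.H77W
end
end -- Pool.Agent.Helper77_LEW.INF

section -- Pool.Agent.Helper42_LEC.TVC

/-!
# The probabilities at one scale are continuous in the coupling constant and the energy
-/

set_option autoImplicit false
set_option linter.unusedSectionVars false

open MeasureTheory ProbabilityTheory Function Filter

open scoped ENNReal BigOperators Topology

noncomputable section

namespace Pool.Agent.LE.H42C

open Pool.Agent.Anderson Pool.Agent.Loc Pool.Agent.Mob Pool.Agent.Helper54.Bal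
  Pool.Agent.LE.H96 Pool.Agent.LE.H42J

variable {d : ℕ}

/-- an upper semicontinuity statement for the measures of events which depend on a parameter -/
theorem stable_gen {X : Type*} [TopologicalSpace X] [FirstCountableTopology X]
    {q₀ : X} {A : X → Set (Site d → ℝ)} {B : Set (Site d → ℝ)} {p p' : ℝ} (hp : 0 ≤ p)
    (hpp : p < p') (hA : ∀ q, MeasurableSet (A q))
    (hB : ∀ᵐ ξ ∂(P1 d), ξ ∉ B → ∀ᶠ q in 𝓝 q₀, ξ ∉ A q) (h : P1 d B ≤ ENNReal.ofReal p) :
    ∀ᶠ q in 𝓝 q₀, P1 d (A q) ≤ ENNReal.ofReal p' := by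
  by_contra hcon
  have hfr : ∃ᶠ q in 𝓝 q₀, ¬ P1 d (A q) ≤ ENNReal.ofReal p' := Filter.not_eventually.1 hcon
  obtain ⟨F, hF, hFp⟩ := exists_seq_forall_of_frequently hfr
  set U : ℕ → Set (Site d → ℝ) := fun n => ⋃ k, A (F (n + k)) with hU
  have hUm : ∀ n, MeasurableSet (U n) := fun n => MeasurableSet.iUnion fun k => hA _
  have hanti : Antitone U := by
    intro n m hnm V hV
    simp only [hU, Set.mem_iUnion] at hV ⊢
    obtain ⟨k, hk⟩ := hV
    refine ⟨m - n + k, ?_⟩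
    have e : n + (m - n + k) = m + k := by omega
    rw [e]
    exact hk
  have hlim := tendsto_measure_iInter_atTop (μ := P1 d)
    (fun n => (hUm n).nullMeasurableSet) hanti ⟨0, measure_ne_top _ _⟩
  have hsub : P1 d (⋂ n, U n) ≤ P1 d B := by
    refine measure_mono_ae ?_
    filter_upwards [hB] with ξ hξ hmem
    by_contra hnot
    have h1 := hF.eventually (hξ hnot)
    obtain ⟨n, hn⟩ := eventually_atTop.1 h1
    have h2 := Set.mem_iInter.1 hmem n
    simp only [hU, Set.mem_iUnion] at h2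
    obtain ⟨k, hk⟩ := h2
    exact hn (n + k) (by omega) hk
  have h3 : ENNReal.ofReal p' ≤ P1 d (⋂ n, U n) := by
    refine ge_of_tendsto' hlim fun n => ?_
    refine (not_le.1 (hFp n)).le.trans (measure_mono ?_)
    intro V hV
    simp only [hU, Set.mem_iUnion]
    exact ⟨0, hV⟩
  have h5 := h3.trans (hsub.trans h)
  rw [ENNReal.ofReal_le_ofReal_iff hp] at h5
  linarith only [hpp, h5]

theorem detae (q₀ : ℝ × ℝ) (hq : q₀.1 ≠ 0) (Λ : Finset (Site d)) :
    ∀ᵐ ξ ∂(P1 d), (RM (fun y => q₀.1 * ξ y) Λ q₀.2).det ≠ 0 := by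
  have hm : MeasurableSet {V : Site d → ℝ | (RM V Λ q₀.2).det = 0} :=
    (continuous_det Λ q₀.2).measurable (measurableSet_singleton 0)
  have h := H54.PP_det (d := d) (ν := gl q₀.1) (bddDens_gl hq) Λ q₀.2
  rw [PP_eq _ hm] at h
  rw [ae_iff]
  refine le_antisymm (le_trans (measure_mono ?_) h.le) zero_le
  intro ξ hξ
  exact not_not.1 hξ

theorem tvc : TvcStmt := by
  intro d L κ κ' p p' q₀ hL hp hpp hq
  have hmS : ∀ (κ E : ℝ), MeasurableSet {V : Site d → ℝ | SG V L κ E 0} := fun κ E =>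
    H93.meas_SG L κ E 0
  have hmN : ∀ (κ E : ℝ), MeasurableSet {V : Site d → ℝ | ¬ SG V L κ E 0} := fun κ E =>
    (H93.meas_SG L κ E 0).compl
  have hL1 : (1 : ℝ) ≤ L := by exact_mod_cast hL
  constructor
  · intro hκ h
    have h' := h
    rw [PP_eq _ (hmS κ q₀.2)] at h'
    have key := stable_gen (q₀ := q₀)
      (A := fun q : ℝ × ℝ => {ξ : Site d → ℝ | (fun y => q.1 * ξ y) ∈
        {V : Site d → ℝ | SG V L κ' q.2 0}}) hp hpp
      (fun q => meas_scale q.1 (hmS κ' q.2)) ?_ h'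
    · filter_upwards [key] with q hk
      rw [PP_eq _ (hmS κ' q.2)]
      exact hk
    · filter_upwards [detae q₀ hq (box (0 : Site d) L)] with ξ hdet hnot
      have h1 : ∃ u, sd 0 u = L ∧
          Real.exp (-κ * L) < |gr (fun y => q₀.1 * ξ y) (box 0 L) q₀.2 0 u| := by
        by_contra hc
        push Not at hc
        exact hnot ⟨hdet, hc⟩
      obtain ⟨u, hu, hgt⟩ := h1
      have hlt : Real.exp (-κ' * L) < |gr (fun y => q₀.1 * ξ y) (box 0 L) q₀.2 0 u| := by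
        refine lt_trans (Real.exp_lt_exp.2 ?_) hgt
        nlinarith only [hL1, hκ]
      have hc := (continuousAt_gr_J ξ (box 0 L) hdet 0 u).abs
      filter_upwards [continuousAt_const.eventually_lt hc hlt] with q hq' hmem
      exact absurd (hmem.2 u hu) (not_le.2 hq')
  · intro hκ h
    have h' := h
    rw [PP_eq _ (hmN κ q₀.2)] at h'
    have key := stable_gen (q₀ := q₀)
      (A := fun q : ℝ × ℝ => {ξ : Site d → ℝ | (fun y => q.1 * ξ y) ∈
        {V : Site d → ℝ | ¬ SG V L κ' q.2 0}}) hp hpp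
      (fun q => meas_scale q.1 (hmN κ' q.2)) ?_ h'
    · filter_upwards [key] with q hk
      rw [PP_eq _ (hmN κ' q.2)]
      exact hk
    · refine Filter.Eventually.of_forall fun ξ hnot => ?_
      have hgood : SG (fun y => q₀.1 * ξ y) L κ q₀.2 0 := by
        by_contra hc
        exact hnot hc
      obtain ⟨h1, h2⟩ := hgood
      have hd : ∀ᶠ q : ℝ × ℝ in 𝓝 q₀, (RM (fun y => q.1 * ξ y) (box 0 L) q.2).det ≠ 0 :=
        (continuous_det_J ξ (box 0 L)).continuousAt.eventually_ne h1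
      have hu : ∀ᶠ q : ℝ × ℝ in 𝓝 q₀, ∀ u ∈ box (0 : Site d) L, sd 0 u = L →
          |gr (fun y => q.1 * ξ y) (box 0 L) q.2 0 u| ≤ Real.exp (-κ' * L) := by
        refine (Finset.eventually_all _).2 fun u _ => ?_
        by_cases hsu : sd 0 u = L
        · have hlt : |gr (fun y => q₀.1 * ξ y) (box 0 L) q₀.2 0 u| < Real.exp (-κ' * L) := by
            refine (h2 u hsu).trans_lt (Real.exp_lt_exp.2 ?_)
            nlinarith only [hL1, hκ]
          have hc := (continuousAt_gr_J ξ (box 0 L) h1 0 u).abs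
          filter_upwards [hc.eventually_lt continuousAt_const hlt] with F hF _
          exact hF.le
        · exact Filter.Eventually.of_forall fun F hF => absurd hF hsu
      filter_upwards [hd, hu] with q a1 a2 hmem
      exact hmem ⟨a1, fun u hsu => a2 u (mem_box.2 hsu.le) hsu⟩

end Pool.Agent.LE.H42C
end
end -- Pool.Agent.Helper42_LEC.TVC

section -- Pool.Agent.Helper96_EXP.One

/-! OneTail from the one site inequality. -/

set_option autoImplicit false
set_option linter.unusedSectionVars false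

open MeasureTheory ProbabilityTheory Function

open scoped ENNReal BigOperators

noncomputable section

namespace Pool.Agent.LE.H96

open Pool.Agent.Anderson Pool.Agent.Loc Pool.Agent.Helper54.Bal

variable {d : ℕ}

theorem oneTail {ν : Measure ℝ} [IsProbabilityMeasure ν] {ρ : ℝ} (hν : BddDens ν ρ) (E : ℝ) :
    OneTail d ν E (8 * ρ) := by
  intro Λ x u y t _ _ _ ht
  refine (Pool.Agent.LY.one hν Λ E u x y (Real.exp_pos t)).trans ?_
  apply ENNReal.ofReal_le_ofReal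
  have hρ := hν.1
  rw [div_eq_mul_inv, ← Real.exp_neg]
  apply mul_le_mul_of_nonneg_left _ (by positivity)
  apply Real.exp_le_exp.2
  linarith

theorem exists_oneTail (d : ℕ) (σ E : ℝ) (_ : 1 ≤ d) (hσ : σ ≠ 0) :
    ∃ C, OneTail d (gl σ) E C :=
  ⟨_, oneTail (bddDens_gl hσ) E⟩

end Pool.Agent.LE.H96
end
end -- Pool.Agent.Helper96_EXP.One

section -- Pool.Agent.Helper59_LEC.Gvu

/-!
# GVU: the good event, uniformly in the parameters
-/

set_option autoImplicit false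

open MeasureTheory ProbabilityTheory Function Filter

open scoped ENNReal BigOperators

noncomputable section

namespace Pool.Agent.LE.H59C

open Pool.Agent.Anderson Pool.Agent.Loc Pool.Agent.Helper54.Bal Pool.Agent.LE.H96
  Pool.Agent.LE.H59

variable {d : ℕ}

/-- the parts 1, 2, 3 and 6 of `GoodU` -/
def GuA (V : Site d → ℝ) (N Q ℓ : ℕ) (a : Site d) (E η : ℝ) : Prop :=
  (RM V (box 0 N) E).det ≠ 0 ∧
  (∀ x ∈ box a (12 * (Q * ℓ)), ∀ y ∈ box a (12 * (Q * ℓ)), gr V (box 0 N) E x y ≠ 0 ∧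
    |gr V (box 0 N) E x y| ≤ Real.exp (η * (Q * ℓ))) ∧
  (∀ x ∈ box a (12 * (Q * ℓ)), ∀ u ∈ box a (12 * (Q * ℓ)), ∀ y ∈ box a (12 * (Q * ℓ)),
    DL (box 0 N) E V x y ≤ DL (box 0 N) E V x u + DL (box 0 N) E V u y + η * (Q * ℓ)) ∧
  (∀ r ≤ Q * ℓ, ∀ s ∈ box a (8 * (Q * ℓ)), (RM V (box s r) E).det ≠ 0 ∧
    ∀ x y, |gr V (box s r) E x y| ≤ Real.exp (η * (Q * ℓ)))

theorem par_ne {B σ E : ℝ} (h : Par B σ E) : σ ≠ 0 := by
  intro h0
  have := h.2.2
  rw [h0, abs_zero, mul_zero] at this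
  linarith

theorem par_inv {B σ E : ℝ} (h : Par B σ E) : 1 / |σ| ≤ B := by
  have h1 : 0 < |σ| := abs_pos.2 (par_ne h)
  rw [div_le_iff₀ h1]
  exact h.2.2

theorem guA (hufm : UfmStmt) (B η p : ℝ) (Q : ℕ) (hd : 1 ≤ d) (hB : 0 < B) (hη : 0 < η)
    (hp : 0 < p) (hQ : 1 ≤ Q) :
    ∃ l₀ : ℕ, ∀ ℓ : ℕ, l₀ ≤ ℓ → ∀ σ E : ℝ, Par B σ E → ∀ (N : ℕ) (a : Site d),
      box a (12 * (Q * ℓ)) ⊆ box 0 N →
      PP d (gl σ) {V | ¬ GuA V N Q ℓ a E η} ≤ ENNReal.ofReal p := by
  classical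
  obtain ⟨_, _, hF⟩ := hufm d B hd hB
  set K : ℝ := 14 * B with hK
  have hK0 : 0 ≤ K := by positivity
  have hsmall := poly_small (3 * d + 1) (μ := η / 3) (by positivity) 1 (12 ^ (3 * d + 1) * K)
    (q := p / 3) (by positivity)
  obtain ⟨L₀, hL₀⟩ := eventually_atTop.1 hsmall
  refine ⟨L₀, fun ℓ hℓ σ E hpar N a ha => ?_⟩
  have hσ := par_ne hpar
  have hν := bddDens_gl hσ
  have hρB := par_inv hpar
  set ρ : ℝ := 1 / |σ| with hρd
  have hρ := hν.1
  have hρ0 : 0 ≤ ρ := by positivity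
  have hC : OneTail d (gl σ) E (8 * ρ) := oneTail hν E
  obtain ⟨L, hL⟩ : ∃ L : ℕ, L = Q * ℓ := ⟨_, rfl⟩
  have hLr : (Q : ℝ) * ℓ = (L : ℝ) := by rw [hL]; push_cast; ring
  have hLL : L₀ ≤ L := by
    rw [hL]
    exact hℓ.trans (Nat.le_mul_of_pos_left _ hQ)
  have hnum := hL₀ L hLL
  have hLnn : (0 : ℝ) ≤ L := Nat.cast_nonneg L
  have hnum' : (24 * (L : ℝ) + 1) ^ (3 * d + 1) * (K * Real.exp (-(η / 3) * L)) ≤ p / 3 := by
    refine le_trans ?_ hnum
    have h1 : (24 * (L : ℝ) + 1) ^ (3 * d + 1) ≤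
        12 ^ (3 * d + 1) * (2 * (L : ℝ) + 1) ^ (3 * d + 1) := by
      rw [← mul_pow]
      apply pow_le_pow_left₀ (by positivity)
      linarith only
    calc (24 * (L : ℝ) + 1) ^ (3 * d + 1) * (K * Real.exp (-(η / 3) * L))
        ≤ 12 ^ (3 * d + 1) * (2 * (L : ℝ) + 1) ^ (3 * d + 1) *
          (K * Real.exp (-(η / 3) * L)) := mul_le_mul_of_nonneg_right h1 (by positivity)
      _ = 12 ^ (3 * d + 1) * K * (2 * (L : ℝ) + 1) ^ (3 * d + 1) *
          Real.exp (-(η / 3) * L) := by ring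
  unfold GuA
  rw [← hL, hLr]
  set A := box a (12 * L) with hA
  rw [← hL] at ha
  set T : ℝ := Real.exp (η * L) with hT
  have hTpos : 0 < T := Real.exp_pos _
  have hTe : 6 * ρ / T ≤ K * Real.exp (-(η / 3) * L) := by
    rw [div_eq_mul_inv, hT, ← Real.exp_neg]
    apply mul_le_mul
    · rw [hK]
      linarith only [hB, hρB]
    · rw [Real.exp_le_exp]
      have : 0 ≤ η * L := by positivity
      linarith only [this]
    · positivity
    · positivity
  have hCe : 8 * ρ * Real.exp (-(η * L) / 3) ≤ K * Real.exp (-(η / 3) * L) := by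
    rw [show -(η * (L : ℝ)) / 3 = -(η / 3) * L by ring]
    apply mul_le_mul_of_nonneg_right _ (Real.exp_pos _).le
    rw [hK]
    linarith only [hB, hρB]
  have hcA : (A.card : ℝ) = (24 * L + 1) ^ d := by
    rw [hA, card_box]
    push_cast
    congr 1
    ring
  have hone' : (1 : ℝ) ≤ 24 * L + 1 := by linarith only
  set q : ℝ := K * Real.exp (-(η / 3) * L) with hq
  have hq0 : 0 ≤ q := by positivity
  set I : Finset (ℕ × Site d) := Finset.range (L + 1) ×ˢ box a (8 * L) with hI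
  set M0 : Set (Site d → ℝ) := {V | (RM V (box 0 N) E).det = 0} with hM0
  set M1 : Set (Site d → ℝ) := ⋃ z ∈ A ×ˢ A, {V | gr V (box 0 N) E z.1 z.2 = 0} with hM1
  set M2 : Set (Site d → ℝ) := ⋃ z ∈ A ×ˢ A, {V | T < |gr V (box 0 N) E z.1 z.2|} with hM2
  set M3 : Set (Site d → ℝ) := ⋃ z ∈ A ×ˢ (A ×ˢ A),
    {V | Real.exp (η * L) * |gr V (box 0 N) E z.1 z.2.2| <
      |gr V (box 0 N) E z.1 z.2.1| * |gr V (box 0 N) E z.2.1 z.2.2|} with hM3
  set M4 : Set (Site d → ℝ) := ⋃ i ∈ I, {V | (RM V (box i.2 i.1) E).det = 0} with hM4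
  set M5 : Set (Site d → ℝ) := ⋃ i ∈ I, ⋃ z ∈ box i.2 i.1 ×ˢ box i.2 i.1,
    {V | T < |gr V (box i.2 i.1) E z.1 z.2|} with hM5
  have hnull : ∀ Λ : Finset (Site d), PP d (gl σ) {V | (RM V Λ E).det = 0} = 0 := by
    intro Λ
    have h1 : Pool.Agent.Mob.H75.Loc {V : Site d → ℝ | (RM V Λ E).det = 0} Λ := by
      intro V V' h
      rw [Set.mem_ofPred_eq, Set.mem_ofPred_eq, RM_congr h]
    exact le_antisymm ((Pool.Agent.Mob.H75.PP_le_PL h1).trans (PL_det hν _ _ le_rfl E).le) zero_le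
  have hweak : ∀ (Λ : Finset (Site d)) (x y : Site d),
      PP d (gl σ) {V | T < |gr V Λ E x y|} ≤ ENNReal.ofReal q := by
    intro Λ x y
    have h1 : Pool.Agent.Mob.H75.Loc {V : Site d → ℝ | T < |gr V Λ E x y|} Λ := by
      intro V V' h
      rw [Set.mem_ofPred_eq, Set.mem_ofPred_eq, gr_congr h]
    exact ((Pool.Agent.Mob.H75.PP_le_PL h1).trans (PL_weak hν _ E x y hTpos)).trans
      (ENNReal.ofReal_le_ofReal hTe)
  have p0 : PP d (gl σ) M0 = 0 := hnull _
  have p1 : PP d (gl σ) M1 = 0 := by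
    refine le_antisymm ((measure_biUnion_finset_le _ _).trans
      (le_of_eq (Finset.sum_eq_zero fun z hz => ?_))) zero_le
    have hz' := Finset.mem_product.1 hz
    exact (hF σ E hpar N).2 z.1 (ha hz'.1) z.2 (ha hz'.2)
  have p4 : PP d (gl σ) M4 = 0 := by
    exact le_antisymm ((measure_biUnion_finset_le _ _).trans
      (le_of_eq (Finset.sum_eq_zero fun s _ => hnull _))) zero_le
  have p2 : PP d (gl σ) M2 ≤ ENNReal.ofReal (p / 3) := by
    apply union_le (q := q)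
    · intro z _
      exact hweak _ _ _
    · refine le_trans ?_ hnum'
      apply mul_le_mul_of_nonneg_right _ hq0
      rw [Finset.card_product]
      push_cast
      rw [hcA, ← pow_add]
      exact pow_le_pow_right₀ hone' (by omega)
  have p3 : PP d (gl σ) M3 ≤ ENNReal.ofReal (p / 3) := by
    apply union_le (q := q)
    · intro z hz
      rw [Finset.mem_product, Finset.mem_product] at hz
      have h1 : Pool.Agent.Mob.H75.Loc {V : Site d → ℝ |
          Real.exp (η * L) * |gr V (box 0 N) E z.1 z.2.2| <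
            |gr V (box 0 N) E z.1 z.2.1| * |gr V (box 0 N) E z.2.1 z.2.2|} (box 0 N) := by
        intro V V' h
        rw [Set.mem_ofPred_eq, Set.mem_ofPred_eq, gr_congr h, gr_congr h, gr_congr h]
      refine (Pool.Agent.Mob.H75.PP_le_PL h1).trans ?_
      refine (hC (box 0 N) z.1 z.2.1 z.2.2 (η * L) (ha hz.1) (ha hz.2.1) (ha hz.2.2)
        (by positivity)).trans ?_
      exact ENNReal.ofReal_le_ofReal hCe
    · refine le_trans ?_ hnum'
      apply mul_le_mul_of_nonneg_right _ hq0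
      rw [Finset.card_product, Finset.card_product]
      push_cast
      rw [hcA, ← pow_add, ← pow_add]
      exact pow_le_pow_right₀ hone' (by omega)
  have p5 : PP d (gl σ) M5 ≤ ENNReal.ofReal (p / 3) := by
    apply union_le (q := (24 * L + 1) ^ (2 * d) * q)
    · intro i hi
      apply union_le (q := q)
      · intro z _
        exact hweak _ _ _
      · apply mul_le_mul_of_nonneg_right _ hq0
        rw [Finset.card_product, card_box]
        push_cast
        rw [← pow_add, show d + d = 2 * d by ring]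
        apply pow_le_pow_left₀ (by positivity)
        rw [hI, Finset.mem_product, Finset.mem_range] at hi
        have h3 : (i.1 : ℝ) ≤ L := by
          have : i.1 ≤ L := by omega
          exact_mod_cast this
        linarith only [h3]
    · refine le_trans ?_ hnum'
      rw [← mul_assoc]
      apply mul_le_mul_of_nonneg_right _ hq0
      rw [hI, Finset.card_product, Finset.card_range, card_box]
      push_cast
      calc ((L : ℝ) + 1) * (2 * (8 * (L : ℝ)) + 1) ^ d * (24 * (L : ℝ) + 1) ^ (2 * d)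
          ≤ (24 * (L : ℝ) + 1) * (24 * (L : ℝ) + 1) ^ d * (24 * (L : ℝ) + 1) ^ (2 * d) := by
            apply mul_le_mul_of_nonneg_right _ (by positivity)
            apply mul_le_mul (by linarith only) _ (by positivity) (by positivity)
            apply pow_le_pow_left₀ (by positivity)
            linarith only
        _ = (24 * (L : ℝ) + 1) ^ (3 * d + 1) := by
            rw [show 3 * d + 1 = 1 + d + 2 * d by ring, pow_add, pow_add, pow_one]
  have hincl : {V : Site d → ℝ | ¬ ((RM V (box 0 N) E).det ≠ 0 ∧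
      (∀ x ∈ A, ∀ y ∈ A, gr V (box 0 N) E x y ≠ 0 ∧ |gr V (box 0 N) E x y| ≤ T) ∧
      (∀ x ∈ A, ∀ u ∈ A, ∀ y ∈ A,
        DL (box 0 N) E V x y ≤ DL (box 0 N) E V x u + DL (box 0 N) E V u y + η * L) ∧
      (∀ r ≤ L, ∀ s ∈ box a (8 * L), (RM V (box s r) E).det ≠ 0 ∧
        ∀ x y, |gr V (box s r) E x y| ≤ T))} ⊆ (M0 ∪ M1 ∪ M4) ∪ (M2 ∪ (M3 ∪ M5)) := by
    intro V hV
    by_contra hcon
    simp only [Set.mem_union, not_or] at hcon
    obtain ⟨⟨⟨c0, c1⟩, c4⟩, c2, c3, c5⟩ := hcon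
    apply hV
    have hg0 : ∀ x ∈ A, ∀ y ∈ A, gr V (box 0 N) E x y ≠ 0 := by
      intro x hx y hy h0
      apply c1
      rw [hM1]
      simp only [Set.mem_iUnion, exists_prop]
      exact ⟨(x, y), Finset.mem_product.2 ⟨hx, hy⟩, h0⟩
    refine ⟨c0, fun x hx y hy => ⟨hg0 x hx y hy, ?_⟩, ?_, ?_⟩
    · by_contra h0
      rw [not_le] at h0
      apply c2
      rw [hM2]
      simp only [Set.mem_iUnion, exists_prop]
      exact ⟨(x, y), Finset.mem_product.2 ⟨hx, hy⟩, h0⟩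
    · intro x hx u hu y hy
      apply dl_le (hg0 x hx y hy) (hg0 x hx u hu) (hg0 u hu y hy)
      by_contra h0
      rw [not_le] at h0
      apply c3
      rw [hM3]
      simp only [Set.mem_iUnion, exists_prop]
      exact ⟨(x, (u, y)), Finset.mem_product.2 ⟨hx, Finset.mem_product.2 ⟨hu, hy⟩⟩, h0⟩
    · intro r hr s hs
      have hmem : (r, s) ∈ I := by
        rw [hI, Finset.mem_product, Finset.mem_range]
        exact ⟨by omega, hs⟩
      refine ⟨fun h0 => ?_, fun x y => ?_⟩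
      · apply c4
        rw [hM4]
        simp only [Set.mem_iUnion, exists_prop]
        exact ⟨(r, s), hmem, h0⟩
      · by_cases hxy : x ∈ box s r ∧ y ∈ box s r
        · by_contra h0
          rw [not_le] at h0
          apply c5
          rw [hM5]
          simp only [Set.mem_iUnion, exists_prop]
          exact ⟨(r, s), hmem, (x, y), Finset.mem_product.2 hxy, h0⟩
        · unfold gr
          rw [dif_neg hxy, abs_zero]
          exact hTpos.le
  refine (measure_mono hincl).trans ?_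
  refine (measure_union_le _ _).trans ?_
  have hz : PP d (gl σ) (M0 ∪ M1 ∪ M4) = 0 := measure_union_null (measure_union_null p0 p1) p4
  rw [hz, zero_add]
  refine (measure_union_le _ _).trans ?_
  refine (add_le_add p2 ((measure_union_le _ _).trans (add_le_add p3 p5))).trans ?_
  rw [← ENNReal.ofReal_add (by positivity) (by positivity),
    ← ENNReal.ofReal_add (by positivity) (by positivity)]
  apply ENNReal.ofReal_le_ofReal
  linarith only

theorem measurable_mx {N n : ℕ} {E : ℝ} {c : Site d}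
    (h : ∀ x y, Measurable fun V : Site d → ℝ => DL (box 0 N) E V x y) :
    Measurable fun V : Site d → ℝ => mx V N E c n := by
  classical
  unfold mx
  induction box c n using Finset.induction_on with
  | empty => simp only [Finset.sup_empty]; exact measurable_const
  | insert s S _ ih =>
    simp only [Finset.sup_insert]
    exact (h c s).ennreal_ofReal.sup ih

theorem guB (huch : UchStmt) (hufm : UfmStmt) (B η : ℝ) (hd : 1 ≤ d) (hB : 0 < B)
    (hη : 0 < η) :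
    ∃ C : ℝ, 0 < C ∧ ∀ Q : ℕ, 4 ≤ Q → ∀ ℓ : ℕ, 1 ≤ ℓ → ∀ σ E : ℝ, Par B σ E →
      ∀ (N : ℕ) (a : Site d), box a (12 * (Q * ℓ)) ⊆ box 0 N →
        PP d (gl σ) {V | ¬ GoodB V N Q ℓ a E η} ≤
          ENNReal.ofReal ((21 * (Q : ℝ)) ^ d * (C / Q) ^ (4 * d)) := by
  classical
  obtain ⟨C, hC, hU⟩ := huch d (4 * d) B hd le_rfl hB
  obtain ⟨_, _, hF⟩ := hufm d B hd hB
  refine ⟨3 * C / η, by positivity, fun Q hQ4 ℓ hℓ σ E hpar N a ha => ?_⟩
  have hQr : (4 : ℝ) ≤ Q := by exact_mod_cast hQ4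
  have hℓr : (1 : ℝ) ≤ ℓ := by exact_mod_cast hℓ
  set t : ℝ := η * (Q * ℓ) with ht
  have ht0 : 0 < t := by positivity
  set M : Set (Site d → ℝ) := ⋃ k ∈ box (0 : Site d) (10 * Q),
    {V | ENNReal.ofReal (t ^ (4 * d)) ≤ (mx V N E (a + sm ℓ k) (3 * ℓ)) ^ (4 * d)} with hM
  have hsub : ∀ k ∈ box (0 : Site d) (10 * Q), box (a + sm ℓ k) (3 * ℓ) ⊆ box 0 N := by
    intro k hk y hy
    apply ha
    rw [mem_box] at hy ⊢
    have h1 := sd_sm_le (ℓ := ℓ) (a := a) hk
    have h2 := sd_triangle a (a + sm ℓ k) y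
    have h3 : 10 * Q * ℓ + 3 * ℓ ≤ 12 * (Q * ℓ) := by nlinarith only [hQ4, hℓ]
    omega
  have hincl : {V : Site d → ℝ | ¬ GoodB V N Q ℓ a E η} ⊆ M := by
    intro V hV
    by_contra hcon
    apply hV
    intro k hk y hy
    by_contra h0
    rw [not_le] at h0
    apply hcon
    rw [hM]
    simp only [Set.mem_iUnion, exists_prop]
    refine ⟨k, hk, ?_⟩
    rw [Set.mem_ofPred_eq, ENNReal.ofReal_pow ht0.le]
    apply pow_le_pow_left₀ zero_le
    refine (ENNReal.ofReal_le_ofReal h0.le).trans ?_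
    unfold mx
    exact Finset.le_sup (f := fun s => ENNReal.ofReal (DL (box 0 N) E V (a + sm ℓ k) s)) hy
  refine (measure_mono hincl).trans ?_
  apply union_le (q := (3 * C / η / Q) ^ (4 * d))
  · intro k hk
    have hms : Measurable fun V : Site d → ℝ => (mx V N E (a + sm ℓ k) (3 * ℓ)) ^ (4 * d) :=
      (measurable_mx (hF σ E hpar N).1.meas).pow_const _
    have h1 := hU σ E hpar N (3 * ℓ) (a + sm ℓ k) (by omega) (hsub k hk)
    have h2 := meas_ge_le_lintegral_div (μ := PP d (gl σ)) hms.aemeasurable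
      (ε := ENNReal.ofReal (t ^ (4 * d)))
      (by rw [Ne, ENNReal.ofReal_eq_zero, not_le]; positivity) ENNReal.ofReal_ne_top
    refine h2.trans ((ENNReal.div_le_div_right h1 _).trans (le_of_eq ?_))
    rw [← ENNReal.ofReal_div_of_pos (by positivity), ← div_pow]
    congr 2
    rw [ht]
    push_cast
    field_simp
  · rw [card_box]
    apply mul_le_mul_of_nonneg_right _ (by positivity)
    push_cast
    apply pow_le_pow_left₀ (by positivity)
    linarith only [hQr]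

theorem gvu (hpig : PigStmt) (hufm : UfmStmt) (huch : UchStmt) : GvuStmt := by
  intro d B η θ hd hB hη hθ
  obtain ⟨C', hC', hGB⟩ := guB (d := d) huch hufm B η hd hB hη
  obtain ⟨C, hC, hF⟩ := hufm d B hd hB
  obtain ⟨Q₀, hQ₀⟩ := exists_nat_ge (max 4 (3 * (21 ^ d * C' ^ (4 * d)) / θ))
  have hQ₀4 : (4 : ℝ) ≤ Q₀ := (le_max_left _ _).trans hQ₀
  have hQ₀4' : 4 ≤ Q₀ := by exact_mod_cast hQ₀4
  refine ⟨Q₀, by omega, fun Q hQ => ?_⟩
  have hQ4 : 4 ≤ Q := by omega
  have hQ1 : 1 ≤ Q := by omega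
  have hQr : (4 : ℝ) ≤ Q := by exact_mod_cast hQ4
  have hQ₀Q : (Q₀ : ℝ) ≤ Q := by exact_mod_cast hQ
  obtain ⟨p, hpdef⟩ : ∃ p : ℝ, p = θ / (Q : ℝ) ^ (2 * d) := ⟨_, rfl⟩
  have hp : 0 < p := by rw [hpdef]; positivity
  have hB3 : (21 * (Q : ℝ)) ^ d * (C' / Q) ^ (4 * d) ≤ p / 3 := by
    have h1 : 3 * (21 ^ d * C' ^ (4 * d)) / θ ≤ Q := ((le_max_right _ _).trans hQ₀).trans hQ₀Q
    rw [div_le_iff₀ hθ] at h1
    have h2 : (Q : ℝ) ≤ (Q : ℝ) ^ d := by
      calc (Q : ℝ) = (Q : ℝ) ^ 1 := (pow_one _).symm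
        _ ≤ (Q : ℝ) ^ d := pow_le_pow_right₀ (by linarith only [hQr]) hd
    have h3 : 3 * (21 ^ d * C' ^ (4 * d)) ≤ (Q : ℝ) ^ d * θ :=
      h1.trans (mul_le_mul_of_nonneg_right h2 hθ.le)
    rw [hpdef, mul_pow, div_pow, div_div, mul_div_assoc', div_le_div_iff₀ (by positivity)
      (by positivity)]
    calc (21 : ℝ) ^ d * (Q : ℝ) ^ d * C' ^ (4 * d) * ((Q : ℝ) ^ (2 * d) * 3)
        = 3 * (21 ^ d * C' ^ (4 * d)) * ((Q : ℝ) ^ d * (Q : ℝ) ^ (2 * d)) := by ring
      _ ≤ (Q : ℝ) ^ d * θ * ((Q : ℝ) ^ d * (Q : ℝ) ^ (2 * d)) :=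
        mul_le_mul_of_nonneg_right h3 (by positivity)
      _ = θ * (Q : ℝ) ^ (4 * d) := by
        rw [show 4 * d = d + d + 2 * d by ring, pow_add, pow_add]
        ring
  obtain ⟨l₁, hA⟩ := guA (d := d) hufm B η (p / 3) Q hd hB hη (by positivity) hQ1
  set W : ℝ := (16 * (Q : ℝ) + 1) ^ d * (2 * (Q : ℝ) + 1) ^ d with hW
  have hW0 : 0 < W := by positivity
  set ε : ℝ := p / 3 * (η * Q) / W with hε
  have hε0 : 0 < ε := by positivity
  obtain ⟨J, l₂, hl₂, hP⟩ := hpig d (8 * Q) (12 * Q) C ε hC hε0 (by omega)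
  refine ⟨J, max 1 (max l₁ l₂), by omega, fun ℓ₀ hℓ₀ σ E hpar => ?_⟩
  obtain ⟨N, hN⟩ := hP ℓ₀ (by omega)
  obtain ⟨j, hj, a, ha, hE⟩ := hN N le_rfl (Site d → ℝ) (PP d (gl σ)) (DL (box 0 N) E)
    (hF σ E hpar N).1
  refine ⟨j, hj, N, a, ?_⟩
  set ℓ : ℕ := 2 ^ j * ℓ₀ with hℓ
  have hge : ℓ₀ ≤ ℓ := Nat.le_mul_of_pos_left _ (by positivity)
  have ha' : box a (12 * (Q * ℓ)) ⊆ box 0 N := by
    rw [← mul_assoc]
    exact ha
  refine ⟨ha', ?_⟩
  rw [← hpdef]
  have p1 := hA ℓ (by omega) σ E hpar N a ha'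
  have p2 := (hGB Q hQ4 ℓ (by omega) σ E hpar N a ha').trans (ENNReal.ofReal_le_ofReal hB3)
  have p3 : PP d (gl σ) {V | ¬ GoodD V N Q ℓ a E η} ≤ ENNReal.ofReal (p / 3) := by
    apply gev3 hη hQ1 (by omega) (hF σ E hpar N).1 ha' hE
    rw [← hW, hε]
    apply le_of_eq
    field_simp
  have hincl : {V : Site d → ℝ | ¬ GoodU V N Q ℓ a E η} ⊆
      {V | ¬ GuA V N Q ℓ a E η} ∪ ({V | ¬ GoodB V N Q ℓ a E η} ∪
        {V | ¬ GoodD V N Q ℓ a E η}) := by
    intro V hV
    by_contra hcon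
    simp only [Set.mem_union, Set.mem_ofPred_eq, not_or, not_not] at hcon
    obtain ⟨⟨a1, a2, a3, a6⟩, a4, a5⟩ := hcon
    exact hV ⟨a1, a2, a3, a4, a5, a6⟩
  refine (measure_mono hincl).trans ?_
  refine (measure_union_le _ _).trans ?_
  refine (add_le_add p1 ((measure_union_le _ _).trans (add_le_add p2 p3))).trans ?_
  rw [← ENNReal.ofReal_add (by positivity) (by positivity),
    ← ENNReal.ofReal_add (by positivity) (by positivity)]
  apply ENNReal.ofReal_le_ofReal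
  linarith only

end Pool.Agent.LE.H59C
end
end -- Pool.Agent.Helper59_LEC.Gvu

section -- Pool.Agent.Helper59_LEC.Zos

/-!
# ZOS: zero-one law at a good scale
-/

set_option autoImplicit false

open MeasureTheory ProbabilityTheory Function

open scoped ENNReal BigOperators

noncomputable section

namespace Pool.Agent.LE.H59C

open Pool.Agent.Anderson Pool.Agent.Loc Pool.Agent.Mob Pool.Agent.Helper54.Bal
  Pool.Agent.Mob.H75 Pool.Agent.LE.H3A Pool.Agent.LE.H3G

/-- ZOS -/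
theorem zos (dtu : DtuStmt) : ZosStmt := by
  intro d η K hd hη hK
  obtain ⟨L₀, hdet⟩ := dtu d η K hd hη hK
  refine ⟨L₀, fun σ E κ p N Q₁ ℓ a hσ hp hQ hℓ hL hN hP => ?_⟩
  obtain ⟨i₀, _⟩ : ∃ i : Fin d, i = ⟨0, hd⟩ := ⟨_, rfl⟩
  obtain ⟨k, hk⟩ : ∃ k : Site d, k = (Pi.single i₀ (((2 * Q₁ + 1 : ℕ) : ℤ)) : Site d) := ⟨_, rfl⟩
  have hKQ : Q₁ ≤ K * Q₁ := Nat.le_mul_of_pos_left _ hK
  have hk8 : k ∈ box (0 : Site d) (8 * (K * Q₁)) := by
    rw [mem_box, sd_le_iff]
    intro i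
    rw [hk, Pi.zero_apply, zero_sub, abs_neg]
    by_cases hi : i = i₀
    · subst hi
      rw [Pi.single_eq_same, Nat.abs_cast]
      exact_mod_cast (by omega : 2 * Q₁ + 1 ≤ 8 * (K * Q₁))
    · rw [Pi.single_eq_of_ne hi, abs_zero]
      exact Int.natCast_nonneg _
  obtain ⟨b, hb⟩ : ∃ b : Site d, b = a + sm ℓ k := ⟨_, rfl⟩
  have hab : ¬ sd a b ≤ Q₁ * ℓ + Q₁ * ℓ := by
    intro h
    have h1 := sd_le_iff.1 h i₀
    rw [hb, hk] at h1
    simp only [sm, Pi.add_apply, Pi.single_eq_same, sub_add_cancel_left, abs_neg, abs_mul,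
      Nat.abs_cast] at h1
    have h2 : ℓ * (2 * Q₁ + 1) ≤ Q₁ * ℓ + Q₁ * ℓ := by exact_mod_cast h1
    have h3 : ℓ * (2 * Q₁ + 1) = Q₁ * ℓ + Q₁ * ℓ + ℓ := by ring
    omega
  obtain ⟨S, hS⟩ : ∃ S : Set (Site d → ℝ), S = {V | SG V (Q₁ * ℓ) κ E b} := ⟨_, rfl⟩
  obtain ⟨R, hR⟩ : ∃ R : Set (Site d → ℝ), R = {V | ¬ SG V (Q₁ * ℓ) (κ - 12 * η * K) E a} :=
    ⟨_, rfl⟩
  have hSm : MeasurableSet S := by
    rw [hS]
    exact measurableSet_sg _ κ E b
  have hRm : MeasurableSet R := by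
    rw [hR]
    exact measurableSet_nsg _ _ E a
  have hdisj : Disjoint (box b (Q₁ * ℓ)) (box a (Q₁ * ℓ)) := by
    rw [Finset.disjoint_left]
    intro z hz1 hz2
    rw [mem_box] at hz1 hz2
    apply hab
    have := sd_triangle a z b
    rw [sd_comm z b] at this
    omega
  have hind : PP d (gl σ) (S ∩ R) = PP d (gl σ) S * PP d (gl σ) R := by
    refine H6.PP_inter (gl σ) hdisj hSm hRm ?_ ?_
    · intro W W' h
      rw [hS]
      exact sg_congr h κ E
    · intro W W' h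
      rw [hR]
      exact not_congr (sg_congr h _ E)
  have hsub : S ∩ R ⊆ {V | ¬ GoodU V N (K * Q₁) ℓ a E η} := by
    rintro V ⟨h1, h2⟩ g
    rw [hS] at h1
    rw [hR] at h2
    apply h2
    have h1' : SG V (Q₁ * ℓ) κ E (a + sm ℓ k) := by
      rw [← hb]
      exact h1
    exact hdet κ V N Q₁ ℓ a E hQ hℓ hL hN g k hk8 h1' a (by
      rw [mem_box, sd_self]
      exact Nat.zero_le _)
  rw [← prob_sg σ (Q₁ * ℓ) κ E b, ← prob_nsg σ (Q₁ * ℓ) (κ - 12 * η * K) E a, ← hS, ← hR, ← hind]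
  exact (measure_mono hsub).trans hP

end Pool.Agent.LE.H59C
end
end -- Pool.Agent.Helper59_LEC.Zos

section -- Pool.Agent.Helper93_LEC.UPB

/-!
UPB: in the insulating phase the Lyapunov exponent is at most the rate at a good scale.
-/

set_option autoImplicit false

open MeasureTheory ProbabilityTheory Function Filter

open scoped ENNReal BigOperators Topology

noncomputable section

namespace Pool.Agent.LE.H93C

open Pool.Agent.Anderson Pool.Agent.Loc Pool.Agent.Mob Pool.Agent.Helper54.Bal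
  Pool.Agent.Helper96.EXP Pool.Agent.LE

theorem upb (upd : UpdStmt) (upm : UpmStmt) (upe : UpeStmt) : UpbStmt := by
  intro d B κ' κ₀ ε hd hB hκ' hκ₀ hε
  set K : ℕ := max 8 ⌈16 * (κ₀ + 2) / κ'⌉₊ with hK
  have hK8 : 8 ≤ K := le_max_left _ _
  have hK1 : (16 * (κ₀ + 2)) ≤ κ' * K := by
    have h1 : 16 * (κ₀ + 2) / κ' ≤ (K : ℝ) :=
      (Nat.le_ceil _).trans (by exact_mod_cast le_max_right _ _)
    rw [div_le_iff₀ hκ'] at h1
    linarith only [h1]
  have hK0 : (0 : ℝ) < K := by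
    have : (8 : ℝ) ≤ K := by exact_mod_cast hK8
    linarith only [this]
  obtain ⟨ηm, θm, hηm, hθm, hm⟩ := upm d B κ' κ₀ ε K hd hB hκ' hκ₀ hε hK8 hK1
  refine ⟨K, by omega, min ηm (min (κ' / (24 * K)) (1 / (16 * K))),
    min (θm / (4 * 3 ^ d)) (1 / 8), ?_, ?_, ?_, ?_⟩
  · positivity
  · positivity
  · exact (min_le_right _ _).trans (by norm_num)
  intro η hη hη'
  have hη1 : η ≤ ηm := hη'.trans (min_le_left _ _)
  have hη2 : 24 * η * K ≤ κ' := by
    have h1 : η ≤ κ' / (24 * K) := hη'.trans ((min_le_right _ _).trans (min_le_left _ _))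
    rw [le_div_iff₀ (by positivity)] at h1
    linarith only [h1]
  have hη3 : 16 * η * K ≤ 1 := by
    have h1 : η ≤ 1 / (16 * K) := hη'.trans ((min_le_right _ _).trans (min_le_right _ _))
    rw [le_div_iff₀ (by positivity)] at h1
    linarith only [h1]
  obtain ⟨Lm, hLm⟩ := hm η hη hη1
  obtain ⟨Ld, hLd⟩ := upd d η κ' κ₀ K hd hη hκ' hκ₀ hK8 hη2 hη3 hK1
  refine ⟨max Lm Ld, ?_⟩
  intro σ E g N Q₁ ℓ a hpar hg hQ₁ hℓ hL hbox hgood hins hnot
  have hσ : σ ≠ 0 := by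
    intro h0
    have := hpar.2.2
    rw [h0] at this
    norm_num at this
  set θ : ℝ := min (θm / (4 * 3 ^ d)) (1 / 8) with hθ
  have hθ0 : 0 < θ := by positivity
  have hθ1 : θ ≤ 1 / 8 := min_le_right _ _
  have hθ2 : 4 * 3 ^ d * θ ≤ θm := by
    have h1 : θ ≤ θm / (4 * 3 ^ d) := min_le_left _ _
    rw [le_div_iff₀ (by positivity)] at h1
    linarith only [h1]
  have hQR : (1 : ℝ) ≤ Q₁ := by exact_mod_cast hQ₁
  have hQd : (1 : ℝ) ≤ (Q₁ : ℝ) ^ d := one_le_pow₀ hQR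
  set p : ℝ := θ / (Q₁ : ℝ) ^ d with hp
  have hp0 : 0 ≤ p := by positivity
  have hpθ : p ≤ θ := div_le_self hθ0.le hQd
  obtain ⟨hA, y, hy, hY⟩ := hLd σ E p N Q₁ ℓ a hσ hp0 (hpθ.trans hθ1) hQ₁ hℓ
    ((le_max_right _ _).trans hL) hbox hgood hins hnot
  have hpm : 2 * p ≤ θm := by
    have h3 : (1 : ℝ) ≤ 3 ^ d := one_le_pow₀ (by norm_num)
    nlinarith only [hθm, hθ0, hθ1, hθ2, hpθ, h3]
  have hpm2 : 4 * (2 * (Q₁ : ℝ) + 1) ^ d * p ≤ θm := by
    have h1 : (2 * (Q₁ : ℝ) + 1) ^ d ≤ 3 ^ d * (Q₁ : ℝ) ^ d := by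
      rw [← mul_pow]
      exact pow_le_pow_left₀ (by positivity) (by linarith only [hQR]) d
    have h2 : (Q₁ : ℝ) ^ d * p = θ := by
      rw [hp]
      field_simp
    calc 4 * (2 * (Q₁ : ℝ) + 1) ^ d * p ≤ 4 * (3 ^ d * (Q₁ : ℝ) ^ d) * p := by gcongr
      _ = 4 * 3 ^ d * ((Q₁ : ℝ) ^ d * p) := by ring
      _ = 4 * 3 ^ d * θ := by rw [h2]
      _ ≤ θm := hθ2
  refine upe d σ E g (κ₀ + ε) (K + 2) Q₁ ℓ y hd hσ hg hQ₁ hℓ hy ?_
  intro m M hm1 hM
  exact hLm σ E Q₁ ℓ y hpar hQ₁ hℓ ((le_max_left _ _).trans hL) hy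
    (fun b => (hA b).trans (ENNReal.ofReal_le_ofReal hpm))
    (fun b => (hY b).trans (ENNReal.ofReal_le_ofReal hpm2)) m M hm1
    (by simpa [add_assoc] using hM)

end Pool.Agent.LE.H93C
end
end -- Pool.Agent.Helper93_LEC.UPB

section -- Pool.Agent.Helper93_LEC.AllC

/-!
# The Lyapunov exponent is continuous: all modules
-/

set_option autoImplicit false

open MeasureTheory ProbabilityTheory

noncomputable section

namespace Pool.Agent.LE.H93C

open Pool.Agent.Anderson Pool.Agent.Loc Pool.Agent.Helper54.Bal Pool.Agent.Mob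

theorem ufmT : UfmStmt := H26U.ufm

theorem uchT : UchStmt := H54C.uch

theorem gvuT : GvuStmt := H59C.gvu H93.pigT ufmT uchT

theorem dtuT : DtuStmt := H96C.dtu H46.fvd

theorem insT2 : InsStmt2 := H77C.ins dtuT

theorem upbT : UpbStmt :=
  upb (H17C.upd (H76C.upa dtuT) H85.lox) (H28C.upm ufmT H85.lox) H65C.upe

theorem cntT : CntStmt := H96C.cnt H24.dmi

theorem besT : BesStmt :=
  bes uchT cntT (H39C.cdu H46.fvd) (H76C.reg uchT) H15C.ben

theorem usaT : UsaStmt := usa gvuT upbT H42C.tvc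

theorem usoT : UsoStmt := uso gvuT (H59C.zos dtuT) insT2 upbT besT H42C.tvc

theorem conT : ConStmt2 := H42C.con usaT usoT H96.smpT H15.smn H96.algT

end Pool.Agent.LE.H93C
end
end -- Pool.Agent.Helper93_LEC.AllC

section -- Pool.Agent.Helper93_LEW.WKD

/-!
# WKD: the Lyapunov exponent at weak disorder
-/

set_option autoImplicit false

open MeasureTheory ProbabilityTheory Function Filter

open scoped ENNReal BigOperators Topology

noncomputable section

namespace Pool.Agent.LE.H93W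

open Pool.Agent.Anderson Pool.Agent.Loc Pool.Agent.Mob Pool.Agent.Helper54.Bal

theorem wkd (crt : CrtStmt) (osc : OscStmt) (cpr : CprStmt) (num : NumStmt) (inf : InfStmt) :
    WkdStmt := by
  intro d hd
  obtain ⟨A, hA, hosc⟩ := osc d hd
  obtain ⟨q, hdq, hnum⟩ := num d A hd hA
  obtain ⟨C', hC', hosc'⟩ := hosc q
  obtain ⟨C, hC, hn⟩ := hnum C' hC'
  refine ⟨2 * C, by linarith only [hC], ?_⟩
  intro σ E g hσ hσ1 hE hg
  have hσ0 : 0 < |σ| := abs_pos.2 hσ
  by_contra hcon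
  push Not at hcon
  set κ : ℝ := C * |σ| ^ (1 / ((d : ℝ) * (d + 4))) with hκ
  have hκ0 : 0 < κ := by
    have : 0 < |σ| ^ (1 / ((d : ℝ) * (d + 4))) := Real.rpow_pos_of_pos hσ0 _
    have : 0 < C := by linarith only [hC]
    positivity
  have hκg : 2 * κ < g := by
    rw [hκ]
    linarith only [hcon]
  obtain ⟨s, M, cs, v, hs, hM, hcs, hv, hv1, hv2, hv3⟩ := hn σ κ hσ hσ1 le_rfl
  have hs0 : (0 : ℝ) < s := by exact_mod_cast (by omega : 0 < s)
  have hcs0 : 0 < cs := by linarith only [hcs]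
  have hy0 : 0 < C' * |σ| ^ (-A) * (s : ℝ) ^ (q + d + 1) / (cs * s) ^ q := by
    have : 0 < |σ| ^ (-A) := Real.rpow_pos_of_pos hσ0 _
    positivity
  obtain ⟨L₀, hL₀⟩ := crt d s M q σ E κ cs
    ((8 * (M * s) + 3 : ℝ) ^ d * (4 * Real.exp (-(v / |σ|))))
    (C' * |σ| ^ (-A) * (s : ℝ) ^ (q + d + 1) / (cs * s) ^ q) hd hσ hs hM hdq hcs hκ0
    (by positivity) hy0 hv3
    (fun N S c hS hSN hc => by
      refine (hosc' σ E N s S c hσ hσ1 hE hs hS hSN hc).trans (ENNReal.ofReal_le_ofReal ?_)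
      rw [div_mul_cancel₀ _ (by positivity)])
    (fun N c hc => cpr d s M N σ E v c hd hσ hE hv hv1 hv2 hc)
  obtain ⟨L, N, a, hL, hbox, hP⟩ := inf d σ E g (2 * κ) hd hσ hg (by linarith only [hκ0]) hκg L₀
  refine hL₀ L N a hL hbox ?_
  have e : 2 * κ / 2 = κ := by ring
  rw [e] at hP
  exact hP

end Pool.Agent.LE.H93W
end
end -- Pool.Agent.Helper93_LEW.WKD

section -- Pool.Agent.Helper93_LEW.AllW

/-!
# The Lyapunov exponent at weak disorder: all modules
-/

set_option autoImplicit false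

open MeasureTheory ProbabilityTheory

noncomputable section

namespace Pool.Agent.LE.H93W

open Pool.Agent.Anderson Pool.Agent.Loc Pool.Agent.Helper54.Bal Pool.Agent.Mob
  Pool.Agent.LE.H93C

theorem trfT : TrfStmt := H59W.trf H54W.vtr ufmT

theorem crtT : CrtStmt := crt (H96W.cnt2 H24.dmi) trfT (H76C.reg uchT)

theorem infT : InfStmt := H77W.inf gvuT insT2

theorem wkdT : WkdStmt :=
  wkd crtT (H28W.osc trfT H3W.cst) (H54W.cpr H42F.cdd) H15W.num infT

end Pool.Agent.LE.H93W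
end
end -- Pool.Agent.Helper93_LEW.AllW

section -- Pool.Agent.Helper93_LEW.AllX

/-!
# The Lyapunov exponent near the band edge: all modules
-/

set_option autoImplicit false

open MeasureTheory ProbabilityTheory

noncomputable section

namespace Pool.Agent.LE.H93W

open Pool.Agent.Anderson Pool.Agent.Loc Pool.Agent.Helper54.Bal Pool.Agent.Mob
  Pool.Agent.LE.H93C

theorem oscBT : OscBStmt := H28W.oscB trfT

theorem wbeT : WbeStmt := wbe crtT oscBT (H54W.cpf H59W.cdf) H42W.nux infT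

end Pool.Agent.LE.H93W
end
end -- Pool.Agent.Helper93_LEW.AllX

section -- Pool.Agent.Helper54_LEW.FPX

/-!
# FPX: the flat landscape function gives both the conduction and the edge
-/

set_option autoImplicit false
set_option linter.unusedSectionVars false

open scoped Topology ENNReal NNReal
open MeasureTheory Filter ProbabilityTheory

noncomputable section

namespace Pool.Agent.LE.H54W

open Pool.Agent.Anderson Pool.Agent.Loc Pool.Agent.Mob Pool.Agent.Helper54.Bal Pool.Agent.LY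
  Pool.Agent.LE.H54 Pool.Agent.BED

theorem fpx (cdf : CdfStmt) : FpxStmt := by
  classical
  intro d hd
  obtain ⟨c0, C0, hc0, hC0, hflat⟩ := flatAll d hd
  obtain ⟨Cs, hCs, hsum⟩ := sumAll d hd
  refine ⟨c0, C0, 16 * Cs, hc0, hC0, by linarith, ?_⟩
  intro M' v σ t p hσ hσ1 hv hM' ht htM hp hp2
  have hs : 0 < |σ| := abs_pos.2 hσ
  have : NeZero M' := ⟨by omega⟩
  set σ' : ℝ≥0 := ⟨|σ|, hs.le⟩ with hσ'
  have hσ'r : (σ' : ℝ) = |σ| := rfl
  have hσ'0 : 0 < σ' := by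
    rw [← NNReal.coe_pos, hσ'r]
    exact hs
  have hσ'1 : σ' ≤ 1 := by
    rw [← NNReal.coe_le_coe, hσ'r]
    simpa using hσ1
  have hvv : v = σ' ^ 2 := by
    apply NNReal.coe_injective
    push_cast
    rw [hσ'r, sq_abs]
    exact hv
  obtain ⟨z, μ, hμ1, hμ2, hz, hz2, hprob⟩ := hflat M' t σ' p hM' ht htM hσ'0 hσ'1
    (by rw [hσ'r, sq_abs]; exact hp) hp2
  rw [hσ'r, sq_abs] at hz2
  rw [← hvv] at hprob
  refine ⟨z, μ, hz2, hz, by linarith, fun _ => hprob, ?_⟩
  intro s M N E lam c hE h1 h2 h3 hlog hbox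
  exact cpf_core cdf hd hCs hsum hσ hM' ht htM hv hμ1 hμ2 hz
    hprob s M N E lam c hE h1 h2 h3 hlog hbox

end Pool.Agent.LE.H54W
end
end -- Pool.Agent.Helper54_LEW.FPX

section -- Pool.Agent.Helper93_LEW.Edge

/-!
# The effective band edge: final form
-/

set_option autoImplicit false

open MeasureTheory ProbabilityTheory Function Filter

open scoped ENNReal BigOperators Topology NNReal

noncomputable section

namespace Pool.Agent.LE.H93W

open Pool.Agent.Anderson Pool.Agent.Loc Pool.Agent.Mob Pool.Agent.Helper54.Bal Pool.Agent.BED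

/-- the phase diagram at weak disorder -/
theorem edge_full (qme : QmeStmt) (wkd : WkdStmt) : ∀ d : ℕ, 3 ≤ d → ∃ c C : ℝ, 0 < c ∧ 0 < C ∧
    ∀ σ t : ℝ, σ ≠ 0 → |σ| ≤ c → 1 / σ ^ 2 ≤ t → σ ^ 2 * growth d t * Real.log t ≤ c →
    ∃ Es : ℝ, |Es - 2 * d| ≤ C * σ ^ 2 ∧
      (∀ E g : ℝ, Es + 1 / t ≤ |E| → LyaAt d σ E g → c * Real.sqrt (min (|E| - Es) 1) ≤ g) ∧
      (∀ E g : ℝ, |(|E| - Es)| ≤ |σ| → LyaAt d σ E g → g ≤ C * (|(|E| - Es)| + 1 / t) ^ c) ∧
      ∀ E g : ℝ, |E| ≤ Es → LyaAt d σ E g → g ≤ C * |σ| ^ c := by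
  intro d hd3
  have hd : 1 ≤ d := by omega
  have hdR : (3 : ℝ) ≤ d := by exact_mod_cast hd3
  obtain ⟨c, C, hc, hC, h⟩ := qme d hd3
  obtain ⟨C₂, hC₂, hw⟩ := wkd d hd
  obtain ⟨a, ha⟩ : ∃ a : ℝ, a = 1 / ((d : ℝ) * (d + 4)) := ⟨_, rfl⟩
  have ha0 : 0 < a := by rw [ha]; positivity
  obtain ⟨c', hc'⟩ : ∃ c' : ℝ, c' = min (min c a) (min (1 / (2 * C + 2)) (1 / 4)) := ⟨_, rfl⟩
  have hc'0 : 0 < c' := by rw [hc']; positivity
  have hc1 : c' ≤ c := by rw [hc']; exact (min_le_left _ _).trans (min_le_left _ _)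
  have hc2 : c' ≤ a := by rw [hc']; exact (min_le_left _ _).trans (min_le_right _ _)
  have hc3 : (2 * C + 2) * c' ≤ 1 := by
    have : c' ≤ 1 / (2 * C + 2) := by
      rw [hc']; exact (min_le_right _ _).trans (min_le_left _ _)
    rw [le_div_iff₀ (by positivity)] at this
    linarith only [this]
  have hc4 : c' ≤ 1 / 4 := by rw [hc']; exact (min_le_right _ _).trans (min_le_right _ _)
  refine ⟨c', C + C₂ + C * (2 * C + 2), hc'0, by positivity, ?_⟩
  intro σ t hσ hσc hσt2 hu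
  have hσ0 : 0 < |σ| := abs_pos.2 hσ
  have hσ1 : |σ| ≤ 1 := by linarith only [hc'0, hc4, hσc]
  have hσsq : σ ^ 2 ≤ |σ| := by
    rw [← sq_abs, pow_two]
    have := mul_le_mul_of_nonneg_left hσ1 hσ0.le
    linarith only [this]
  have hσsqp : 0 < σ ^ 2 := by positivity
  have hσt : 1 / |σ| ≤ t := (one_div_le_one_div_of_le hσsqp hσsq).trans hσt2
  have ht0 : 0 < t := lt_of_lt_of_le (by positivity) hσt
  have h1t0 : 0 < 1 / t := by positivity
  have h1t : 1 / t ≤ |σ| := by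
    rw [div_le_iff₀ ht0]
    rw [div_le_iff₀ hσ0] at hσt
    linarith only [hσt]
  have ht1 : 1 ≤ t := by
    refine le_trans ?_ hσt
    rw [le_div_iff₀ hσ0]
    linarith only [hc'0, hc4, hσc]
  have hσsq0 := sq_nonneg σ
  have h1tσ : 1 / t ≤ σ ^ 2 := by
    rw [div_le_iff₀ ht0]
    rw [div_le_iff₀ hσsqp] at hσt2
    linarith only [hσt2]
  obtain ⟨Es, hEs, h1, h2⟩ := h σ t hσ (hσc.trans hc1) hσt (hu.trans hc1)
  have hEs2 : |Es - 2 * d| ≤ 2 * C * σ ^ 2 := by
    refine hEs.trans ?_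
    have := mul_le_mul_of_nonneg_left (by linarith only [h1tσ] : σ ^ 2 + 1 / t ≤ 2 * σ ^ 2) hC.le
    linarith only [this]
  have hEs1 : |Es - 2 * d| ≤ |σ| := by
    refine hEs2.trans ?_
    have h0 : σ ^ 2 = |σ| * |σ| := by rw [← sq_abs, pow_two]
    rw [h0, ← mul_assoc]
    have h3 := mul_le_mul_of_nonneg_left hσc (by positivity : (0 : ℝ) ≤ 2 * C)
    have h4 : 2 * C * |σ| ≤ 1 := by linarith only [hc'0, hc3, h3]
    have := mul_le_mul_of_nonneg_right h4 hσ0.le
    linarith only [this]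
  -- symmetry
  have key : ∀ (E g : ℝ), LyaAt d σ E g → LyaAt d σ |E| g := by
    intro E g hg
    rcases abs_choice E with he | he
    · rw [he]; exact hg
    · rw [he]; exact H96C.lya_negE hg
  have hmono : ∀ x : ℝ, 0 < x → x ≤ 1 → x ^ c ≤ x ^ c' := fun x hx hx1 =>
    Real.rpow_le_rpow_of_exponent_ge hx hx1 hc1
  have hup : ∀ E g : ℝ, |(|E| - Es)| ≤ |σ| → LyaAt d σ E g →
      g ≤ C * (|(|E| - Es)| + 1 / t) ^ c' := by
    intro E g hE hg
    refine (h2 |E| g hE (key E g hg)).trans ?_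
    have hx0 : 0 < |(|E| - Es)| + 1 / t := by
      have := abs_nonneg (|E| - Es)
      linarith only [h1t0, this]
    exact mul_le_mul_of_nonneg_left (hmono _ hx0 (by linarith only [hc'0, hc4, hσc, h1t, hE])) hC.le
  refine ⟨Es, ?_, ?_, ?_, ?_⟩
  · refine hEs2.trans ?_
    refine mul_le_mul_of_nonneg_right ?_ hσsq0
    have : 0 ≤ C * (2 * C) := by positivity
    linarith only [hC, hC₂, this]
  · intro E g hE hg
    refine le_trans ?_ (h1 |E| g hE (key E g hg))
    exact mul_le_mul_of_nonneg_right hc1 (Real.sqrt_nonneg _)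
  · intro E g hE hg
    refine (hup E g hE hg).trans ?_
    have hx0 : 0 ≤ |(|E| - Es)| + 1 / t := by positivity
    refine mul_le_mul_of_nonneg_right ?_ (Real.rpow_nonneg hx0 _)
    have : 0 ≤ C * (2 * C + 2) := by positivity
    linarith only [hC₂, this]
  · intro E g hE hg
    have hσc'0 : 0 ≤ |σ| ^ c' := Real.rpow_nonneg (abs_nonneg _) _
    by_cases h3 : |E| ≤ 2 * d
    · refine (hw σ E g hσ hσ1 h3 hg).trans ?_
      rw [← ha]
      have h4 : |σ| ^ a ≤ |σ| ^ c' := Real.rpow_le_rpow_of_exponent_ge hσ0 hσ1 hc2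
      calc C₂ * |σ| ^ a ≤ C₂ * |σ| ^ c' := mul_le_mul_of_nonneg_left h4 hC₂.le
        _ ≤ (C + C₂ + C * (2 * C + 2)) * |σ| ^ c' := by
            refine mul_le_mul_of_nonneg_right ?_ hσc'0
            have : 0 ≤ C * (2 * C + 2) := by positivity
            linarith only [hC, this]
    · push Not at h3
      have h4 := (abs_le.1 (le_refl |Es - 2 * d|)).2
      have h6 : |(|E| - Es)| ≤ |σ| := by
        rw [abs_sub_comm, abs_of_nonneg (by linarith only [hE])]
        linarith only [hEs1, h3, h4]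
      refine (hup E g h6 hg).trans ?_
      have hx0 : 0 ≤ |(|E| - Es)| + 1 / t := by positivity
      have h7 : |(|E| - Es)| + 1 / t ≤ 2 * |σ| := by linarith only [h1t, h6]
      have h8 : (|(|E| - Es)| + 1 / t) ^ c' ≤ (2 * |σ|) ^ c' :=
        Real.rpow_le_rpow hx0 h7 hc'0.le
      have h9 : (2 * |σ|) ^ c' ≤ 2 * |σ| ^ c' := by
        rw [Real.mul_rpow (by norm_num) hσ0.le]
        refine mul_le_mul_of_nonneg_right ?_ hσc'0
        calc (2 : ℝ) ^ c' ≤ 2 ^ (1 : ℝ) :=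
              Real.rpow_le_rpow_of_exponent_le (by norm_num) (by linarith only [hc'0, hc4])
          _ = 2 := Real.rpow_one 2
      calc C * (|(|E| - Es)| + 1 / t) ^ c' ≤ C * (2 * |σ| ^ c') :=
            mul_le_mul_of_nonneg_left (h8.trans h9) hC.le
        _ = (C * 2) * |σ| ^ c' := by ring
        _ ≤ (C + C₂ + C * (2 * C + 2)) * |σ| ^ c' := by
            refine mul_le_mul_of_nonneg_right ?_ hσc'0
            have : 0 ≤ C * (2 * C) := by positivity
            linarith only [hC, hC₂, this]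

end Pool.Agent.LE.H93W
end
end -- Pool.Agent.Helper93_LEW.Edge

section -- Pool.Agent.Helper93_LEW.AllY

/-!
# The effective band edge: all modules
-/

set_option autoImplicit false

open MeasureTheory ProbabilityTheory

noncomputable section

namespace Pool.Agent.LE.H93W

open Pool.Agent.Anderson Pool.Agent.Loc Pool.Agent.Helper54.Bal Pool.Agent.Mob
  Pool.Agent.LE.H93C Pool.Agent.BED

theorem qmeT : QmeStmt :=
  qme crtT oscBT H42W.nux infT H28W.sge (H15X.smx H96.smpT) (H54W.fpx H59W.cdf)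

theorem edgeT : ∀ d : ℕ, 3 ≤ d → ∃ c C : ℝ, 0 < c ∧ 0 < C ∧
    ∀ σ t : ℝ, σ ≠ 0 → |σ| ≤ c → 1 / σ ^ 2 ≤ t → σ ^ 2 * growth d t * Real.log t ≤ c →
    ∃ Es : ℝ, |Es - 2 * d| ≤ C * σ ^ 2 ∧
      (∀ E g : ℝ, Es + 1 / t ≤ |E| → LyaAt d σ E g → c * Real.sqrt (min (|E| - Es) 1) ≤ g) ∧
      (∀ E g : ℝ, |(|E| - Es)| ≤ |σ| → LyaAt d σ E g → g ≤ C * (|(|E| - Es)| + 1 / t) ^ c) ∧
      ∀ E g : ℝ, |E| ≤ Es → LyaAt d σ E g → g ≤ C * |σ| ^ c :=
  edge_full qmeT wkdT

end Pool.Agent.LE.H93W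
end
end -- Pool.Agent.Helper93_LEW.AllY
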