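import Pool.Agent.Helper12_MEB.B013

/-!
# Merged copies (generated) of the modules

* `Pool.Agent.LE.StmtsK`
* `Pool.Agent.Helper17_Anderson.Circle`
* `Pool.Agent.Helper17_Anderson.Cos`
* `Pool.Agent.Helper17_Anderson.Trace`
* `Pool.Agent.Helper17_Anderson.Khintchine`
* `Pool.Agent.Helper17_Anderson.OpNorm`
* `Pool.Agent.Helper17_Anderson.Four`
* `Pool.Agent.Helper17_Anderson.Det`
* `Pool.Agent.Helper17_Anderson.Dos`
* `Pool.Agent.Helper17_Anderson.Kappa`
* `Pool.Agent.Helper17_Anderson.Cutoff`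
* `Pool.Agent.Helper17_Anderson.Prob`
* `Pool.Agent.Helper17_Anderson.Large`
* `Pool.Agent.Helper17_Anderson.Slice`
* `Pool.Agent.Helper17_Anderson.Ball`
* `Pool.Agent.Helper17_Anderson.TwoDim`
* `Pool.Agent.Helper17_Anderson.TwoForm`
* `Pool.Agent.Helper17_Anderson.Site`
* `Pool.Agent.Helper76_LSP.Tor`
* `Pool.Agent.Helper76_LSP.Wh`
* `Pool.Agent.Helper76_LSP.Fou`
-/

set_option autoImplicit false

section -- Pool.Agent.LE.StmtsK

/-!
# The kernel bound for the cluster lemma (MP_1906c1_mp)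

`hh` is the one coordinate factor of the kernel of `a(θ) e^{- i t (sy θ - E)}`, `a` the product of the
cut-offs `aa`. `wh T` is the Fourier transform of the trapezoid `w` which is `1` on `[-T, T]` and `0`
outside `[-2T, 2T]`; `x wh T x = (2 / T) ∫_T^{2T} sin (s x) ds` for all `x`.
-/

set_option autoImplicit false

open MeasureTheory

open scoped BigOperators

noncomputable section

namespace Pool.Agent.LE.CL

/-- `∫ a(θ) e^{i (n θ - 2 t cos θ)} dθ`, `a(θ) = r² - (θ - th0)²` for `|θ - th0| ≤ r` -/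
def hh (th0 r t : ℝ) (n : ℤ) : ℂ :=
  ∫ th in (th0 - r)..(th0 + r), ((r ^ 2 - (th - th0) ^ 2 : ℝ) : ℂ) *
    Complex.exp (Complex.I * ((n * th - 2 * t * Real.cos th : ℝ) : ℂ))

/-- the cut-off -/
def aa (th0 r x : ℝ) : ℝ := max (r ^ 2 - (x - th0) ^ 2) 0

/-- the Fourier transform of the trapezoid -/
def wh (T x : ℝ) : ℝ := 2 * (Real.cos (T * x) - Real.cos (2 * T * x)) / (T * x ^ 2)

/-- KRB: the kernel bound and the main term.

Proof of the kernel bound. Let `sin θ` stay away from `- n / (2 t)` on a slightly larger interval: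
then `|hh| ≤ C / T` (first derivative test), and the product is at most `C T^{-(d-1)/2 - 1}`, no
oscillation in `t` is needed. Otherwise let `sin θ* = - n / (2 t)`; the phase `φ(t) = n θ* - 2 t cos θ*`
has `φ' = - 2 cos θ*`, `φ'' = - (2 / t) sin² θ* / cos θ*`, and `A(t) = e^{- i φ(t)} hh` has
`|A| ≤ C T^{-1/2}` (second derivative test) and
`A' = i ∫ a(θ) 2 (cos θ* - cos θ) e^{i G} = (1 / t) ∫ a(θ) tan ((θ + θ*) / 2) (e^{i G})'`, so
`|A'| ≤ C T^{-3/2}`. The second derivative test in `t` gives `T^{1/2} T^{-d/2}`.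
The point: `e = |E| / 2`, all `cos θ_j = e / d` if `e ≥ 1/2`; otherwise `cos θ_d = - 1/2`,
`cos θ_j = (e + 1/2) / (d - 1)` for the others, so that `∑ sin² θ_j / cos θ_j` is bounded below.
Main term: with the Fejér kernel `f_T = (2 - 2 cos (T x)) / (T x²) ≥ 0`, `wh T = 2 f_{2T} - f_T`, and
`c ≤ ∫ a f_T ≤ C`; so one of the scales `2^k T`, `k ≤ k₀`, is good. -/
def KrbStmt : Prop :=
  ∀ (d : ℕ) (δ : ℝ), 3 ≤ d → 0 < δ → ∃ r c C : ℝ, 0 < r ∧ r ≤ 1 / 2 ∧ 0 < c ∧ 1 ≤ C ∧
    ∀ E : ℝ, |E| ≤ 2 * d - δ → ∃ th0 : Fin d → ℝ,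
      (∀ j, 2 * r ≤ th0 j ∧ th0 j ≤ Real.pi - 2 * r) ∧
      (∀ T : ℝ, 1 ≤ T → ∀ n : Fin d → ℤ,
        ‖∫ t in T..(2 * T), Complex.exp (Complex.I * ((t * E : ℝ) : ℂ)) *
          ∏ j, hh (th0 j) r t (n j)‖ ≤ C / Real.sqrt T ^ (d - 1)) ∧
      ∀ T : ℝ, 1 ≤ T → ∃ T' : ℝ, T ≤ T' ∧ T' ≤ C * T ∧
        c ≤ ∫ θ : Fin d → ℝ, (∏ j, aa (th0 j) r (θ j)) *
          wh T' (∑ j, 2 * Real.cos (θ j) - E)

end Pool.Agent.LE.CL
end
end -- Pool.Agent.LE.StmtsK

section -- Pool.Agent.Helper17_Anderson.Circle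

/-!
# One-dimensional estimates on the circle

`u θ = e^{2π i θ}` on `ℝ/ℤ`; bounds for integrals of functions of `2 Re (u θ) - c`.
-/

set_option autoImplicit false

open MeasureTheory Set Real

open scoped ENNReal ComplexConjugate

noncomputable section

namespace Pool.Agent.Anderson

/-- normalised Haar measure on `ℝ/ℤ` (same as in `Mathlib.Analysis.Fourier.AddCircleMulti`) -/
local instance haarMS : MeasureSpace UnitAddCircle := ⟨AddCircle.haarAddCircle⟩

local instance haarAHCircle : Measure.IsAddHaarMeasure (volume : Measure UnitAddCircle) :=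
  inferInstanceAs (Measure.IsAddHaarMeasure AddCircle.haarAddCircle)

local instance haarPMCircle : IsProbabilityMeasure (volume : Measure UnitAddCircle) :=
  inferInstanceAs (IsProbabilityMeasure AddCircle.haarAddCircle)

/-- `u θ = e^{2π i θ}` -/
noncomputable def u (θ : UnitAddCircle) : ℂ := (AddCircle.toCircle θ : ℂ)

theorem norm_u (θ : UnitAddCircle) : ‖u θ‖ = 1 := Circle.norm_coe _

theorem u_add (θ φ : UnitAddCircle) : u (θ + φ) = u θ * u φ := by
  unfold u
  rw [AddCircle.toCircle_add, Circle.coe_mul]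

theorem continuous_u : Continuous u := by
  unfold u
  have := AddCircle.continuous_toCircle (T := (1:ℝ))
  fun_prop

theorem measurable_u : Measurable u := continuous_u.measurable

theorem u_coe (t : ℝ) : u (t : UnitAddCircle) = Complex.exp (2 * π * t * Complex.I) := by
  unfold u
  rw [AddCircle.toCircle_apply_mk, Circle.coe_exp]
  congr 1
  push_cast
  ring

theorem exists_u_eq {a : ℂ} (ha : ‖a‖ = 1) : ∃ β : UnitAddCircle, u β = a := by
  let b : Circle := ⟨a, by simpa [Submonoid.unitSphere] using ha⟩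
  refine ⟨(AddCircle.homeomorphCircle (T := (1:ℝ)) one_ne_zero).symm b, ?_⟩
  unfold u
  rw [← AddCircle.homeomorphCircle_apply (T := (1:ℝ)) one_ne_zero, Homeomorph.apply_symm_apply]

theorem lintegral_rotate (F : ℝ → ℝ≥0∞) {a : ℂ} (ha : ‖a‖ = 1) :
    ∫⁻ θ : UnitAddCircle, F ‖u θ - a‖ = ∫⁻ θ : UnitAddCircle, F ‖u θ - 1‖ := by
  obtain ⟨β, rfl⟩ := exists_u_eq ha
  rw [← lintegral_add_right_eq_self (μ := (volume : Measure UnitAddCircle))
    (fun θ => F ‖u θ - u β‖) β]
  refine lintegral_congr fun θ => ?_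
  rw [u_add, show u θ * u β - u β = (u θ - 1) * u β by ring, norm_mul, norm_u, mul_one]

theorem norm_u_sub_one (t : ℝ) : ‖u (t : UnitAddCircle) - 1‖ = 2 * |sin (π * t)| := by
  have h : u (t : UnitAddCircle) - 1 = 2 * Complex.I * Complex.sin (π * t) *
      Complex.exp (π * t * Complex.I) := by
    rw [u_coe, Complex.sin]
    have e1 : Complex.exp (2 * π * t * Complex.I) = Complex.exp (π * t * Complex.I) *
        Complex.exp (π * t * Complex.I) := by
      rw [← Complex.exp_add]; congr 1; ring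
    have e2 : Complex.exp (-(π * t) * Complex.I) * Complex.exp (π * t * Complex.I) = 1 := by
      rw [← Complex.exp_add]; simp
    have hI : Complex.I * Complex.I = -1 := Complex.I_mul_I
    calc Complex.exp (2 * π * t * Complex.I) - 1
        = Complex.exp (π * t * Complex.I) * Complex.exp (π * t * Complex.I) -
          Complex.exp (-(π * t) * Complex.I) * Complex.exp (π * t * Complex.I) := by
          rw [e1, e2]
      _ = _ := by
          linear_combination (Complex.exp (π * t * Complex.I) *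
            Complex.exp (π * t * Complex.I) - Complex.exp (-(π * t) * Complex.I) *
            Complex.exp (π * t * Complex.I)) * hI
  rw [h, norm_mul, norm_mul, norm_mul, Complex.norm_I]
  have h1 : ‖Complex.exp (π * t * Complex.I)‖ = 1 := by
    rw [show ((π : ℂ) * t * Complex.I) = ((π * t : ℝ) : ℂ) * Complex.I by push_cast; ring]
    exact Complex.norm_exp_ofReal_mul_I _
  have h2 : ‖Complex.sin (π * t)‖ = |sin (π * t)| := by
    rw [show ((π : ℂ) * t) = ((π * t : ℝ) : ℂ) by push_cast; ring, ← Complex.ofReal_sin,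
      Complex.norm_real, Real.norm_eq_abs]
  rw [h1, h2]
  simp

theorem four_abs_le {t : ℝ} (ht : |t| ≤ 1 / 2) : 4 * |t| ≤ ‖u (t : UnitAddCircle) - 1‖ := by
  rw [norm_u_sub_one]
  have hpi := Real.pi_pos
  have h1 : |sin (π * t)| = sin (π * |t|) := by
    rcases le_total 0 t with h | h
    · rw [abs_of_nonneg h, abs_of_nonneg]
      apply sin_nonneg_of_nonneg_of_le_pi (by positivity)
      rw [abs_of_nonneg h] at ht
      nlinarith
    · rw [abs_of_nonpos h, show π * -t = -(π * t) by ring, sin_neg, abs_of_nonpos]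
      have : 0 ≤ sin (π * (-t)) := by
        apply sin_nonneg_of_nonneg_of_le_pi
        · apply mul_nonneg hpi.le; linarith only [h]
        · rw [abs_of_nonpos h] at ht
          nlinarith only [ht, hpi]
      rw [show π * -t = -(π * t) by ring, sin_neg] at this
      linarith only [this]
  rw [h1]
  have h2 : 2 / π * (π * |t|) ≤ sin (π * |t|) := by
    apply Real.mul_le_sin
    · positivity
    · nlinarith only [ht, hpi]
  have h3 : 2 / π * (π * |t|) = 2 * |t| := by field_simp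
  linarith only [h2, h3]

theorem lintegral_circle_eq (f : UnitAddCircle → ℝ≥0∞) (a : ℝ) :
    ∫⁻ θ : UnitAddCircle, f θ = ∫⁻ t in Ioc a (a + 1), f (t : UnitAddCircle) := by
  have h1 := AddCircle.lintegral_preimage (1:ℝ) a f
  rw [h1, AddCircle.volume_eq_smul_haarAddCircle]
  simp only [ENNReal.ofReal_one, one_smul]
  rfl

theorem lintegral_le_line {F : ℝ → ℝ≥0∞} (hF : ∀ x y : ℝ, 0 ≤ x → x ≤ y → F y ≤ F x)
    {a : ℂ} (ha : ‖a‖ = 1) :
    ∫⁻ θ : UnitAddCircle, F ‖u θ - a‖ ≤ ∫⁻ t in Ioc (-(1/2) : ℝ) (1/2), F (4 * |t|) := by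
  rw [lintegral_rotate F ha, lintegral_circle_eq _ (-(1/2))]
  rw [show (-(1/2) + 1 : ℝ) = 1/2 by norm_num]
  apply setLIntegral_mono' measurableSet_Ioc
  intro t ht
  apply hF _ _ (by positivity)
  apply four_abs_le
  rw [abs_le]
  exact ⟨by linarith only [ht.1], ht.2⟩

/-- Poisson-type kernel -/
noncomputable def ker (η x : ℝ) : ℝ := η / (x ^ 2 + η ^ 2)

theorem ker_nonneg {η : ℝ} (hη : 0 < η) (x : ℝ) : 0 ≤ ker η x := by
  unfold ker; positivity

theorem ker_anti {η x y : ℝ} (hη : 0 < η) (hx : 0 ≤ x) (hxy : x ≤ y) : ker η y ≤ ker η x := by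
  unfold ker
  apply div_le_div_of_nonneg_left hη.le (by positivity)
  have := mul_self_le_mul_self hx hxy
  nlinarith only [this]

theorem ker_abs (η x : ℝ) : ker η |x| = ker η x := by
  unfold ker; rw [sq_abs]

theorem integral_ker {η κ : ℝ} (hη : 0 < η) (hκ : 0 < κ) :
    Integrable (fun t : ℝ => ker η (κ * t)) ∧ ∫ t : ℝ, ker η (κ * t) = π / κ := by
  have hfun : (fun t : ℝ => ker η (κ * t)) = fun t : ℝ => η⁻¹ * (1 + ((κ / η) * t) ^ 2)⁻¹ := by
    funext t
    unfold ker
    field_simp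
    ring
  have hne : κ / η ≠ 0 := by positivity
  rw [hfun]
  constructor
  · apply Integrable.const_mul
    exact (integrable_inv_one_add_sq).comp_mul_left' hne
  · rw [integral_const_mul]
    have := Measure.integral_comp_mul_left (fun x : ℝ => (1 + x ^ 2)⁻¹) (κ / η)
    rw [this, integral_univ_inv_one_add_sq, abs_of_pos (by positivity)]
    simp only [smul_eq_mul]
    field_simp

theorem lintegral_ker_circle {η κ : ℝ} (hη : 0 < η) (hκ : 0 < κ) {a : ℂ} (ha : ‖a‖ = 1) :
    ∫⁻ θ : UnitAddCircle, ENNReal.ofReal (ker η (κ * ‖u θ - a‖)) ≤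
      ENNReal.ofReal (π / (4 * κ)) := by
  have h1 := lintegral_le_line (F := fun r => ENNReal.ofReal (ker η (κ * r)))
    (fun x y hx hxy => ENNReal.ofReal_le_ofReal
      (ker_anti hη (by positivity) (by gcongr))) ha
  refine h1.trans ?_
  obtain ⟨hi, he⟩ := integral_ker hη (κ := 4 * κ) (by positivity)
  calc ∫⁻ t in Ioc (-(1/2) : ℝ) (1/2), ENNReal.ofReal (ker η (κ * (4 * |t|)))
      ≤ ∫⁻ t : ℝ, ENNReal.ofReal (ker η (κ * (4 * |t|))) := setLIntegral_le_lintegral _ _
    _ = ∫⁻ t : ℝ, ENNReal.ofReal (ker η (4 * κ * t)) := by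
        refine lintegral_congr fun t => ?_
        rw [show κ * (4 * |t|) = |4 * κ * t| by
          rw [abs_mul, abs_of_pos (by positivity : 0 < 4 * κ)]; ring, ker_abs]
    _ = ENNReal.ofReal (π / (4 * κ)) := by
        rw [← ofReal_integral_eq_lintegral_ofReal hi
          (Filter.Eventually.of_forall fun t => ker_nonneg hη _), he]

theorem lintegral_rpow_circle {a : ℂ} (ha : ‖a‖ = 1) :
    ∫⁻ θ : UnitAddCircle, (ENNReal.ofReal ‖u θ - a‖) ^ (-(1/2) : ℝ) ≤ 2 := by
  have h1 := lintegral_le_line (F := fun r => (ENNReal.ofReal r) ^ (-(1/2) : ℝ))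
    (fun x y hx hxy => by
      rw [ENNReal.rpow_neg, ENNReal.rpow_neg]
      apply ENNReal.inv_le_inv.2
      exact ENNReal.rpow_le_rpow (ENNReal.ofReal_le_ofReal hxy) (by norm_num)) ha
  refine h1.trans ?_
  -- split in two halves
  have hsplit : Ioc (-(1/2) : ℝ) (1/2) ⊆ Icc (-(1/2)) 0 ∪ Icc 0 (1/2) := by
    intro x hx
    rcases le_total x 0 with h | h
    · exact Or.inl ⟨hx.1.le, h⟩
    · exact Or.inr ⟨h, hx.2⟩
  have hhalf : ∫⁻ t in Icc (0:ℝ) (1/2), (ENNReal.ofReal (4 * |t|)) ^ (-(1/2) : ℝ) ≤ 1 := by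
    rw [← setLIntegral_congr (Ioc_ae_eq_Icc (μ := volume) (a := (0:ℝ)) (b := 1/2))]
    have hint : IntervalIntegrable (fun t : ℝ => t ^ (-(1/2) : ℝ)) volume 0 (1/2) :=
      intervalIntegral.intervalIntegrable_rpow' (by norm_num)
    have hval : ∫ t in (0:ℝ)..(1/2), t ^ (-(1/2) : ℝ) = 2 * (1/2 : ℝ) ^ (1/2 : ℝ) := by
      rw [integral_rpow (Or.inl (by norm_num))]
      rw [show (-(1/2) + 1 : ℝ) = 1/2 by norm_num, Real.zero_rpow (by norm_num)]
      ring
    calc ∫⁻ t in Ioc (0:ℝ) (1/2), (ENNReal.ofReal (4 * |t|)) ^ (-(1/2) : ℝ)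
        = ∫⁻ t in Ioc (0:ℝ) (1/2), ENNReal.ofReal ((1/2) * t ^ (-(1/2) : ℝ)) := by
          apply setLIntegral_congr_fun measurableSet_Ioc
          intro t ht
          have ht0 : 0 < t := ht.1
          simp only
          rw [abs_of_pos ht0, ENNReal.ofReal_rpow_of_pos (by positivity),
            Real.mul_rpow (by norm_num) ht0.le]
          congr 2
          rw [show (4:ℝ) = 2 ^ (2:ℝ) by norm_num, ← Real.rpow_mul (by norm_num)]
          norm_num
      _ = ENNReal.ofReal (∫ t in Ioc (0:ℝ) (1/2), (1/2) * t ^ (-(1/2) : ℝ)) := by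
          rw [ofReal_integral_eq_lintegral_ofReal]
          · exact ((intervalIntegrable_iff_integrableOn_Ioc_of_le (by norm_num)).1 hint).const_mul _
          · filter_upwards [self_mem_ae_restrict measurableSet_Ioc] with t ht
            have : 0 < t := ht.1
            positivity
      _ ≤ 1 := by
          rw [integral_const_mul, ← intervalIntegral.integral_of_le (by norm_num), hval]
          have : (1/2 : ℝ) ^ (1/2 : ℝ) ≤ 1 :=
            Real.rpow_le_one (by norm_num) (by norm_num) (by norm_num)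
          rw [show (1:ℝ≥0∞) = ENNReal.ofReal 1 by simp]
          apply ENNReal.ofReal_le_ofReal
          linarith only [this]
  have hneg : ∫⁻ t in Icc (-(1/2) : ℝ) 0, (ENNReal.ofReal (4 * |t|)) ^ (-(1/2) : ℝ) ≤ 1 := by
    have := (Measure.measurePreserving_neg (volume : Measure ℝ)).setLIntegral_comp_preimage
      (s := Icc (0:ℝ) (1/2)) measurableSet_Icc
      (f := fun t => (ENNReal.ofReal (4 * |t|)) ^ (-(1/2) : ℝ)) (by fun_prop)
    have hpre : (Neg.neg ⁻¹' Icc (0:ℝ) (1/2)) = Icc (-(1/2)) 0 := by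
      ext x
      simp only [mem_preimage, mem_Icc]
      constructor <;> rintro ⟨h1, h2⟩ <;> constructor <;> linarith
    rw [hpre] at this
    simp only [abs_neg] at this
    rw [this]
    exact hhalf
  calc ∫⁻ t in Ioc (-(1/2) : ℝ) (1/2), (ENNReal.ofReal (4 * |t|)) ^ (-(1/2) : ℝ)
      ≤ ∫⁻ t in Icc (-(1/2)) 0 ∪ Icc 0 (1/2), (ENNReal.ofReal (4 * |t|)) ^ (-(1/2) : ℝ) :=
        lintegral_mono_set hsplit
    _ ≤ _ := lintegral_union_le _ _ _
    _ ≤ 1 + 1 := add_le_add hneg hhalf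
    _ = 2 := by norm_num

end Pool.Agent.Anderson
end
end -- Pool.Agent.Helper17_Anderson.Circle

section -- Pool.Agent.Helper17_Anderson.Cos

/-!
# Integrals of functions of `2 cos (2πθ) - c`
-/

set_option autoImplicit false

open MeasureTheory Set Real

open scoped ENNReal ComplexConjugate

noncomputable section

namespace Pool.Agent.Anderson

local instance haarMS2 : MeasureSpace UnitAddCircle := ⟨AddCircle.haarAddCircle⟩

local instance haarAHCos : Measure.IsAddHaarMeasure (volume : Measure UnitAddCircle) :=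
  inferInstanceAs (Measure.IsAddHaarMeasure AddCircle.haarAddCircle)

local instance haarPMCos : IsProbabilityMeasure (volume : Measure UnitAddCircle) :=
  inferInstanceAs (IsProbabilityMeasure AddCircle.haarAddCircle)

/-- `2 cos (2πθ)` -/
def c2 (θ : UnitAddCircle) : ℝ := 2 * (u θ).re

theorem continuous_c2 : Continuous c2 := by
  unfold c2
  have := continuous_u
  fun_prop

theorem measurable_c2 : Measurable c2 := continuous_c2.measurable

/-- the weight `|x|^{-s}` with value `∞` at `0` -/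
def W (s x : ℝ) : ℝ≥0∞ := (ENNReal.ofReal |x|) ^ (-s)

theorem measurable_W (s : ℝ) : Measurable (W s) := by
  unfold W
  fun_prop

theorem W_le {s x y : ℝ} (hs : 0 ≤ s) (h : y ≤ |x|) : W s x ≤ (ENNReal.ofReal y) ^ (-s) := by
  unfold W
  rw [ENNReal.rpow_neg, ENNReal.rpow_neg]
  apply ENNReal.inv_le_inv.2
  exact ENNReal.rpow_le_rpow (ENNReal.ofReal_le_ofReal h) hs

theorem c2_sub_eq {c : ℝ} {a : ℂ} (ha : ‖a‖ = 1) (hac : 2 * a.re = c) (θ : UnitAddCircle) :
    |c2 θ - c| = ‖u θ - a‖ * ‖u θ - conj a‖ := by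
  have hu := norm_u θ
  have huu : u θ * conj (u θ) = 1 := by
    rw [Complex.mul_conj, Complex.normSq_eq_norm_sq, hu]; norm_num
  have haa : a * conj a = 1 := by
    rw [Complex.mul_conj, Complex.normSq_eq_norm_sq, ha]; norm_num
  have h1 : (u θ - a) * (u θ - conj a) = u θ * ((c2 θ - c : ℝ) : ℂ) := by
    have e1 : ((c2 θ : ℝ) : ℂ) = u θ + conj (u θ) := by
      unfold c2; rw [Complex.add_conj]
    have e2 : ((c : ℝ) : ℂ) = a + conj a := by
      rw [Complex.add_conj, ← hac]
    push_cast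
    rw [e1, e2]
    linear_combination haa - huu
  rw [← norm_mul, h1, norm_mul, hu, one_mul, Complex.norm_real, Real.norm_eq_abs]

theorem norm_sub_one_sq (θ : UnitAddCircle) : ‖u θ - 1‖ ^ 2 = 2 - c2 θ := by
  have hu := norm_u θ
  have h1 : (u θ).re ^ 2 + (u θ).im ^ 2 = 1 := by
    have := Complex.normSq_eq_norm_sq (u θ)
    rw [hu, Complex.normSq_apply] at this
    nlinarith only [this]
  rw [← Complex.normSq_eq_norm_sq, Complex.normSq_apply]
  unfold c2
  simp only [Complex.sub_re, Complex.one_re, Complex.sub_im, Complex.one_im, sub_zero]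
  nlinarith only [h1]

theorem norm_add_one_sq (θ : UnitAddCircle) : ‖u θ - (-1)‖ ^ 2 = 2 + c2 θ := by
  have hu := norm_u θ
  have h1 : (u θ).re ^ 2 + (u θ).im ^ 2 = 1 := by
    have := Complex.normSq_eq_norm_sq (u θ)
    rw [hu, Complex.normSq_apply] at this
    nlinarith only [this]
  rw [← Complex.normSq_eq_norm_sq, Complex.normSq_apply]
  unfold c2
  simp only [sub_neg_eq_add, Complex.add_re, Complex.one_re, Complex.add_im, Complex.one_im,
    add_zero]
  nlinarith only [h1]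

/-- For `|c| < 2` there is a unit vector `a` with `2 Re a = c`, and
`‖a - conj a‖ = √(4-c²)`. -/
theorem exists_a {c : ℝ} (hc : |c| ≤ 2) : ∃ a : ℂ, ‖a‖ = 1 ∧ 2 * a.re = c ∧
    ‖a - conj a‖ = √(4 - c ^ 2) := by
  have h4 : 0 ≤ 4 - c ^ 2 := by
    have := abs_le.1 hc
    nlinarith only [this]
  refine ⟨⟨c / 2, √(4 - c ^ 2) / 2⟩, ?_, by ring, ?_⟩
  · have : ‖(⟨c / 2, √(4 - c ^ 2) / 2⟩ : ℂ)‖ ^ 2 = 1 := by
      rw [← Complex.normSq_eq_norm_sq, Complex.normSq_mk]
      have := Real.mul_self_sqrt h4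
      nlinarith only [this]
    nlinarith only [norm_nonneg (⟨c / 2, √(4 - c ^ 2) / 2⟩ : ℂ), this]
  · have : (⟨c / 2, √(4 - c ^ 2) / 2⟩ : ℂ) - conj (⟨c / 2, √(4 - c ^ 2) / 2⟩ : ℂ) =
        (√(4 - c ^ 2) : ℂ) * Complex.I := by
      apply Complex.ext <;> simp
    rw [this, norm_mul, Complex.norm_I, mul_one, Complex.norm_real, Real.norm_eq_abs,
      abs_of_nonneg (Real.sqrt_nonneg _)]

theorem sqrt_split {c : ℝ} (hc : |c| < 2) : √(4 - c ^ 2) = √|c - 2| * √|c + 2| := by
  have := abs_lt.1 hc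
  rw [← Real.sqrt_mul (abs_nonneg _), ← abs_mul, abs_of_nonpos (by nlinarith only [this])]
  congr 1
  ring

/-- one of the two distances to `±2` is at least `2` -/
theorem dist_two (c : ℝ) : 2 ≤ |c - 2| ∨ 2 ≤ |c + 2| := by
  rcases le_total 0 c with h | h
  · right; rw [abs_of_nonneg (by linarith)]; linarith
  · left; rw [abs_of_nonpos (by linarith)]; linarith

theorem lintegral_P {η : ℝ} (hη : 0 < η) (c : ℝ) :
    ∫⁻ θ : UnitAddCircle, ENNReal.ofReal (ker η (c2 θ - c)) ≤
      ENNReal.ofReal π * (W (1/2) (c - 2) + W (1/2) (c + 2)) := by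
  have hpi := Real.pi_pos
  have hW : ∀ x : ℝ, 0 < |x| → ENNReal.ofReal (1 / √|x|) = W (1/2) x := by
    intro x hx
    unfold W
    rw [ENNReal.ofReal_rpow_of_pos hx, Real.rpow_neg hx.le, ← Real.sqrt_eq_rpow, one_div]
  rcases lt_trichotomy |c| 2 with h | h | h
  · -- inside
    obtain ⟨a, ha, hac, haS⟩ := exists_a h.le
    have hS : 0 < √(4 - c ^ 2) := by
      apply Real.sqrt_pos.2
      have := abs_lt.1 h
      nlinarith only [this]
    set S := √(4 - c ^ 2) with hSdef
    have ha' : ‖conj a‖ = 1 := by rw [Complex.norm_conj, ha]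
    have hpt : ∀ θ, ENNReal.ofReal (ker η (c2 θ - c)) ≤
        ENNReal.ofReal (ker η (S / 2 * ‖u θ - a‖)) +
        ENNReal.ofReal (ker η (S / 2 * ‖u θ - conj a‖)) := by
      intro θ
      have h1 := c2_sub_eq ha hac θ
      have h2 : S ≤ ‖u θ - a‖ + ‖u θ - conj a‖ := by
        rw [← haS, show a - conj a = (u θ - conj a) - (u θ - a) by ring]
        exact (norm_sub_le _ _).trans (le_of_eq (add_comm _ _))
      have n1 := norm_nonneg (u θ - a)
      have n2 := norm_nonneg (u θ - conj a)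
      rw [← ker_abs, h1]
      rcases le_total (S / 2) ‖u θ - conj a‖ with h3 | h3
      · refine le_add_right (ENNReal.ofReal_le_ofReal (ker_anti hη (by positivity) ?_))
        rw [mul_comm (S / 2)]
        exact mul_le_mul_of_nonneg_left h3 n1
      · refine le_add_left (ENNReal.ofReal_le_ofReal (ker_anti hη (by positivity) ?_))
        apply mul_le_mul_of_nonneg_right _ n2
        linarith only [h2, h3]
    calc ∫⁻ θ : UnitAddCircle, ENNReal.ofReal (ker η (c2 θ - c))
        ≤ ∫⁻ θ : UnitAddCircle, (ENNReal.ofReal (ker η (S / 2 * ‖u θ - a‖)) +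
          ENNReal.ofReal (ker η (S / 2 * ‖u θ - conj a‖))) := lintegral_mono hpt
      _ = (∫⁻ θ : UnitAddCircle, ENNReal.ofReal (ker η (S / 2 * ‖u θ - a‖))) +
          ∫⁻ θ : UnitAddCircle, ENNReal.ofReal (ker η (S / 2 * ‖u θ - conj a‖)) := by
          apply lintegral_add_left
          unfold ker
          have := measurable_u
          fun_prop
      _ ≤ ENNReal.ofReal (π / (4 * (S / 2))) + ENNReal.ofReal (π / (4 * (S / 2))) :=
          add_le_add (lintegral_ker_circle hη (by positivity) ha)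
            (lintegral_ker_circle hη (by positivity) ha')
      _ = ENNReal.ofReal π * ENNReal.ofReal (1 / S) := by
          rw [← ENNReal.ofReal_add (by positivity) (by positivity),
            ← ENNReal.ofReal_mul hpi.le]
          congr 1
          field_simp
          norm_num
      _ ≤ ENNReal.ofReal π * (W (1/2) (c - 2) + W (1/2) (c + 2)) := by
          gcongr
          have hc := abs_lt.1 h
          have p1 : 0 < |c - 2| := abs_pos.2 (by linarith)
          have p2 : 0 < |c + 2| := abs_pos.2 (by linarith)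
          rw [← hW _ p1, ← hW _ p2]
          have q1 : 0 < √|c - 2| := Real.sqrt_pos.2 p1
          have q2 : 0 < √|c + 2| := Real.sqrt_pos.2 p2
          have hsp := sqrt_split h
          rcases dist_two c with h2 | h2
          · refine le_add_left (ENNReal.ofReal_le_ofReal ?_)
            rw [hSdef, hsp]
            apply one_div_le_one_div_of_le q2
            have : 1 ≤ √|c - 2| := Real.one_le_sqrt.2 (by linarith)
            nlinarith only [hS, q1, hsp, this]
          · refine le_add_right (ENNReal.ofReal_le_ofReal ?_)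
            rw [hSdef, hsp]
            apply one_div_le_one_div_of_le q1
            have : 1 ≤ √|c + 2| := Real.one_le_sqrt.2 (by linarith)
            nlinarith only [q1, this]
  · -- boundary: the right side is infinite
    have htop : ENNReal.ofReal π * (W (1/2) (c - 2) + W (1/2) (c + 2)) = ∞ := by
      have h0 : W (1/2) 0 = ∞ := by
        unfold W
        rw [abs_zero, ENNReal.ofReal_zero, ENNReal.zero_rpow_of_neg (by norm_num)]
      rw [abs_eq (by norm_num)] at h
      rcases h with h | h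
      · rw [h, sub_self, h0, top_add, ENNReal.mul_top]
        exact (ENNReal.ofReal_pos.2 hpi).ne'
      · rw [h, show (-2 + 2 : ℝ) = 0 by norm_num, h0, add_top, ENNReal.mul_top]
        exact (ENNReal.ofReal_pos.2 hpi).ne'
    rw [htop]; exact le_top
  · -- outside
    rcases lt_abs.1 h with h | h
    · have hk : 0 < √|c - 2| := Real.sqrt_pos.2 (abs_pos.2 (by linarith))
      have hks : √|c - 2| ^ 2 = c - 2 := by
        rw [Real.sq_sqrt (abs_nonneg _), abs_of_pos (by linarith)]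
      have hpt : ∀ θ, ENNReal.ofReal (ker η (c2 θ - c)) ≤
          ENNReal.ofReal (ker η (2 * √|c - 2| * ‖u θ - 1‖)) := by
        intro θ
        have h1 := norm_sub_one_sq θ
        have n1 := norm_nonneg (u θ - 1)
        apply ENNReal.ofReal_le_ofReal
        rw [← ker_abs η (c2 θ - c)]
        apply ker_anti hη (by positivity)
        have : |c2 θ - c| = (c - 2) + ‖u θ - 1‖ ^ 2 := by
          rw [h1, abs_of_nonpos (by nlinarith only [sq_nonneg ‖u θ - 1‖, h, h1])]; ring
        rw [this]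
        nlinarith only [sq_nonneg (√|c - 2| - ‖u θ - 1‖), hks]
      refine (lintegral_mono hpt).trans ((lintegral_ker_circle hη (by positivity) (by simp)).trans ?_)
      rw [← hW (c - 2) (abs_pos.2 (by linarith)), mul_add]
      refine le_add_right ?_
      rw [← ENNReal.ofReal_mul hpi.le]
      apply ENNReal.ofReal_le_ofReal
      rw [mul_one_div]
      apply div_le_div_of_nonneg_left hpi.le hk
      linarith
    · have hk : 0 < √|c + 2| := Real.sqrt_pos.2 (abs_pos.2 (by linarith))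
      have hks : √|c + 2| ^ 2 = -c - 2 := by
        rw [Real.sq_sqrt (abs_nonneg _), abs_of_neg (by linarith)]; ring
      have hpt : ∀ θ, ENNReal.ofReal (ker η (c2 θ - c)) ≤
          ENNReal.ofReal (ker η (2 * √|c + 2| * ‖u θ - (-1)‖)) := by
        intro θ
        have h1 := norm_add_one_sq θ
        have n1 := norm_nonneg (u θ - (-1))
        apply ENNReal.ofReal_le_ofReal
        rw [← ker_abs η (c2 θ - c)]
        apply ker_anti hη (by positivity)
        have : |c2 θ - c| = (-c - 2) + ‖u θ - (-1)‖ ^ 2 := by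
          rw [h1, abs_of_nonneg (by nlinarith only [sq_nonneg ‖u θ - (-1)‖, h, h1])]; ring
        rw [this]
        nlinarith only [sq_nonneg (√|c + 2| - ‖u θ - (-1)‖), hks]
      refine (lintegral_mono hpt).trans ((lintegral_ker_circle hη (by positivity) (by simp)).trans ?_)
      rw [← hW (c + 2) (abs_pos.2 (by linarith)), mul_add]
      refine le_add_left ?_
      rw [← ENNReal.ofReal_mul hpi.le]
      apply ENNReal.ofReal_le_ofReal
      rw [mul_one_div]
      apply div_le_div_of_nonneg_left hpi.le hk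
      linarith

theorem lintegral_Q (b : ℝ) :
    ∫⁻ θ : UnitAddCircle, W (1/2) (b - c2 θ) ≤ 8 * (W (1/4) (b - 2) + W (1/4) (b + 2)) := by
  have hW : ∀ x : ℝ, (ENNReal.ofReal √|x|) ^ (-(1/2) : ℝ) = W (1/4) x := by
    intro x
    unfold W
    rw [Real.sqrt_eq_rpow, ← ENNReal.ofReal_rpow_of_nonneg (abs_nonneg _) (by norm_num),
      ← ENNReal.rpow_mul]
    norm_num
  have hlow : ∀ {y z : ℝ}, 1 ≤ y → (ENNReal.ofReal (y * z)) ^ (-(1/2) : ℝ) ≤
      (ENNReal.ofReal z) ^ (-(1/2) : ℝ) ∨ z < 0 := by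
    intro y z hy
    rcases lt_or_ge z 0 with hz | hz
    · right; exact hz
    · left
      rw [ENNReal.rpow_neg, ENNReal.rpow_neg]
      apply ENNReal.inv_le_inv.2
      apply ENNReal.rpow_le_rpow (ENNReal.ofReal_le_ofReal _) (by norm_num)
      nlinarith only [hy, hz]
  have h2pow : (ENNReal.ofReal (1/2)) ^ (-(1/2) : ℝ) ≤ 2 := by
    rw [ENNReal.ofReal_rpow_of_pos (by norm_num), show (2:ℝ≥0∞) = ENNReal.ofReal 2 by simp]
    apply ENNReal.ofReal_le_ofReal
    rw [show (1/2 : ℝ) = (2:ℝ) ^ (-1 : ℝ) by rw [Real.rpow_neg_one]; norm_num,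
      ← Real.rpow_mul (by norm_num)]
    calc (2:ℝ) ^ (-1 * -(2:ℝ) ^ (-1 : ℝ)) ≤ (2:ℝ) ^ (1:ℝ) := by
          apply Real.rpow_le_rpow_of_exponent_le (by norm_num)
          rw [Real.rpow_neg_one]; norm_num
      _ = 2 := by norm_num
  rcases lt_trichotomy |b| 2 with h | h | h
  · -- inside
    obtain ⟨a, ha, hac, haS⟩ := exists_a h.le
    have hS : 0 < √(4 - b ^ 2) := by
      apply Real.sqrt_pos.2
      have := abs_lt.1 h
      nlinarith only [this]
    set S := √(4 - b ^ 2) with hSdef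
    have ha' : ‖conj a‖ = 1 := by rw [Complex.norm_conj, ha]
    have hpt : ∀ θ, W (1/2) (b - c2 θ) ≤ (ENNReal.ofReal (S / 2)) ^ (-(1/2) : ℝ) *
        ((ENNReal.ofReal ‖u θ - a‖) ^ (-(1/2) : ℝ) +
          (ENNReal.ofReal ‖u θ - conj a‖) ^ (-(1/2) : ℝ)) := by
      intro θ
      have h1 := c2_sub_eq ha hac θ
      rw [abs_sub_comm] at h1
      have h2 : S ≤ ‖u θ - a‖ + ‖u θ - conj a‖ := by
        rw [← haS, show a - conj a = (u θ - conj a) - (u θ - a) by ring]
        exact (norm_sub_le _ _).trans (le_of_eq (add_comm _ _))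
      have n1 := norm_nonneg (u θ - a)
      have n2 := norm_nonneg (u θ - conj a)
      rw [mul_add]
      rcases le_total (S / 2) ‖u θ - conj a‖ with h3 | h3
      · refine le_add_right ?_
        have h4 : S / 2 * ‖u θ - a‖ ≤ |b - c2 θ| := by
          rw [h1, mul_comm (S / 2)]
          exact mul_le_mul_of_nonneg_left h3 n1
        refine (W_le (by norm_num) h4).trans (le_of_eq ?_)
        rw [ENNReal.ofReal_mul (by positivity),
          ENNReal.mul_rpow_of_ne_top ENNReal.ofReal_ne_top ENNReal.ofReal_ne_top]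
      · refine le_add_left ?_
        have h4 : S / 2 * ‖u θ - conj a‖ ≤ |b - c2 θ| := by
          rw [h1]
          apply mul_le_mul_of_nonneg_right _ n2
          linarith only [h2, h3]
        refine (W_le (by norm_num) h4).trans (le_of_eq ?_)
        rw [ENNReal.ofReal_mul (by positivity),
          ENNReal.mul_rpow_of_ne_top ENNReal.ofReal_ne_top ENNReal.ofReal_ne_top]
    have hSW : (ENNReal.ofReal S) ^ (-(1/2) : ℝ) ≤ W (1/4) (b - 2) + W (1/4) (b + 2) := by
      rw [hSdef, sqrt_split h]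
      rcases dist_two b with h2 | h2
      · refine le_add_left ?_
        rw [← hW]
        rcases hlow (y := √|b - 2|) (z := √|b + 2|)
          (Real.one_le_sqrt.2 (by linarith)) with h3 | h3
        · exact h3
        · exact absurd h3 (not_lt.2 (Real.sqrt_nonneg _))
      · refine le_add_right ?_
        rw [← hW, mul_comm]
        rcases hlow (y := √|b + 2|) (z := √|b - 2|)
          (Real.one_le_sqrt.2 (by linarith)) with h3 | h3
        · exact h3
        · exact absurd h3 (not_lt.2 (Real.sqrt_nonneg _))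
    calc ∫⁻ θ : UnitAddCircle, W (1/2) (b - c2 θ)
        ≤ ∫⁻ θ : UnitAddCircle, (ENNReal.ofReal (S / 2)) ^ (-(1/2) : ℝ) *
        ((ENNReal.ofReal ‖u θ - a‖) ^ (-(1/2) : ℝ) +
          (ENNReal.ofReal ‖u θ - conj a‖) ^ (-(1/2) : ℝ)) := lintegral_mono hpt
      _ = (ENNReal.ofReal (S / 2)) ^ (-(1/2) : ℝ) *
        ((∫⁻ θ : UnitAddCircle, (ENNReal.ofReal ‖u θ - a‖) ^ (-(1/2) : ℝ)) +
          ∫⁻ θ : UnitAddCircle, (ENNReal.ofReal ‖u θ - conj a‖) ^ (-(1/2) : ℝ)) := by
          have := measurable_u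
          rw [lintegral_const_mul _ (by fun_prop), lintegral_add_left (by fun_prop)]
      _ ≤ (ENNReal.ofReal (S / 2)) ^ (-(1/2) : ℝ) * (2 + 2) := by
          gcongr
          · exact lintegral_rpow_circle ha
          · exact lintegral_rpow_circle ha'
      _ = (ENNReal.ofReal S) ^ (-(1/2) : ℝ) * (ENNReal.ofReal (1/2)) ^ (-(1/2) : ℝ) * 4 := by
          rw [← ENNReal.mul_rpow_of_ne_top ENNReal.ofReal_ne_top ENNReal.ofReal_ne_top,
            ← ENNReal.ofReal_mul hS.le, mul_one_div]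
          norm_num
      _ ≤ (W (1/4) (b - 2) + W (1/4) (b + 2)) * 2 * 4 := by gcongr
      _ = 8 * (W (1/4) (b - 2) + W (1/4) (b + 2)) := by ring
  · have htop : 8 * (W (1/4) (b - 2) + W (1/4) (b + 2)) = ∞ := by
      have h0 : W (1/4) 0 = ∞ := by
        unfold W
        rw [abs_zero, ENNReal.ofReal_zero, ENNReal.zero_rpow_of_neg (by norm_num)]
      rw [abs_eq (by norm_num)] at h
      rcases h with h | h
      · rw [h, sub_self, h0, top_add, ENNReal.mul_top (by norm_num)]
      · rw [h, show (-2 + 2 : ℝ) = 0 by norm_num, h0, add_top, ENNReal.mul_top (by norm_num)]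
    rw [htop]; exact le_top
  · -- outside
    have key : ∀ (e k : ℝ) (v : ℂ), ‖v‖ = 1 → 0 ≤ k →
        (∀ θ, 2 * √k * ‖u θ - v‖ ≤ |b - c2 θ|) →
        ∫⁻ θ : UnitAddCircle, W (1/2) (b - c2 θ) ≤ 8 * (ENNReal.ofReal √k) ^ (-(1/2) : ℝ) := by
      intro e k v hv hk0 hpt
      calc ∫⁻ θ : UnitAddCircle, W (1/2) (b - c2 θ)
          ≤ ∫⁻ θ : UnitAddCircle, (ENNReal.ofReal √k) ^ (-(1/2) : ℝ) *
            (ENNReal.ofReal ‖u θ - v‖) ^ (-(1/2) : ℝ) := by
            apply lintegral_mono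
            intro θ
            have h4 : √k * ‖u θ - v‖ ≤ |b - c2 θ| := by
              refine le_trans ?_ (hpt θ)
              have : 0 ≤ √k * ‖u θ - v‖ := by positivity
              linarith only [this]
            refine (W_le (by norm_num) h4).trans (le_of_eq ?_)
            rw [ENNReal.ofReal_mul (by positivity),
              ENNReal.mul_rpow_of_ne_top ENNReal.ofReal_ne_top ENNReal.ofReal_ne_top]
        _ = (ENNReal.ofReal √k) ^ (-(1/2) : ℝ) *
            ∫⁻ θ : UnitAddCircle, (ENNReal.ofReal ‖u θ - v‖) ^ (-(1/2) : ℝ) := by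
            have := measurable_u
            rw [lintegral_const_mul _ (by fun_prop)]
        _ ≤ (ENNReal.ofReal √k) ^ (-(1/2) : ℝ) * 2 := by
            gcongr
            exact lintegral_rpow_circle hv
        _ ≤ 8 * (ENNReal.ofReal √k) ^ (-(1/2) : ℝ) := by
            rw [mul_comm]; gcongr; norm_num
    rcases lt_abs.1 h with h | h
    · refine (key 0 |b - 2| 1 (by simp) (abs_nonneg _) ?_).trans ?_
      · intro θ
        have h1 := norm_sub_one_sq θ
        have hks : √|b - 2| ^ 2 = b - 2 := by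
          rw [Real.sq_sqrt (abs_nonneg _), abs_of_pos (by linarith)]
        have : |b - c2 θ| = (b - 2) + ‖u θ - 1‖ ^ 2 := by
          rw [h1, abs_of_nonneg (by nlinarith only [sq_nonneg ‖u θ - 1‖, h, h1])]; ring
        rw [this]
        nlinarith only [sq_nonneg (√|b - 2| - ‖u θ - 1‖), hks]
      · rw [hW, mul_add]; exact le_add_right le_rfl
    · refine (key 0 |b + 2| (-1) (by simp) (abs_nonneg _) ?_).trans ?_
      · intro θ
        have h1 := norm_add_one_sq θ
        have hks : √|b + 2| ^ 2 = -b - 2 := by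
          rw [Real.sq_sqrt (abs_nonneg _), abs_of_neg (by linarith)]; ring
        have : |b - c2 θ| = (-b - 2) + ‖u θ - (-1)‖ ^ 2 := by
          rw [h1, abs_of_nonpos (by nlinarith only [sq_nonneg ‖u θ - (-1)‖, h, h1])]; ring
        rw [this]
        nlinarith only [sq_nonneg (√|b + 2| - ‖u θ - (-1)‖), hks]
      · rw [hW, mul_add]; exact le_add_left le_rfl

theorem lintegral_R (b : ℝ) : ∫⁻ θ : UnitAddCircle, W (1/4) (b - c2 θ) ≤ 4 := by
  have hlow : ∀ (y : ℝ) (θ : UnitAddCircle), 0 ≤ y → y ^ 2 ≤ |b - c2 θ| →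
      W (1/4) (b - c2 θ) ≤ (ENNReal.ofReal y) ^ (-(1/2) : ℝ) := by
    intro y θ hy h
    refine (W_le (by norm_num) h).trans (le_of_eq ?_)
    rw [ENNReal.ofReal_pow hy, ← ENNReal.rpow_natCast, ← ENNReal.rpow_mul]
    norm_num
  rcases le_or_gt |b| 2 with h | h
  · obtain ⟨a, ha, hac, -⟩ := exists_a h
    have ha' : ‖conj a‖ = 1 := by rw [Complex.norm_conj, ha]
    calc ∫⁻ θ : UnitAddCircle, W (1/4) (b - c2 θ)
        ≤ ∫⁻ θ : UnitAddCircle, ((ENNReal.ofReal ‖u θ - a‖) ^ (-(1/2) : ℝ) +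
          (ENNReal.ofReal ‖u θ - conj a‖) ^ (-(1/2) : ℝ)) := by
          apply lintegral_mono
          intro θ
          have h1 := c2_sub_eq ha hac θ
          rw [abs_sub_comm] at h1
          have n1 := norm_nonneg (u θ - a)
          have n2 := norm_nonneg (u θ - conj a)
          rcases le_total ‖u θ - a‖ ‖u θ - conj a‖ with h3 | h3
          · exact le_add_right (hlow _ θ n1 (by rw [h1]; nlinarith only [n1, h3]))
          · exact le_add_left (hlow _ θ n2 (by rw [h1]; nlinarith only [n2, h3]))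
      _ = (∫⁻ θ : UnitAddCircle, (ENNReal.ofReal ‖u θ - a‖) ^ (-(1/2) : ℝ)) +
          ∫⁻ θ : UnitAddCircle, (ENNReal.ofReal ‖u θ - conj a‖) ^ (-(1/2) : ℝ) := by
          have := measurable_u
          rw [lintegral_add_left (by fun_prop)]
      _ ≤ 2 + 2 := add_le_add (lintegral_rpow_circle ha) (lintegral_rpow_circle ha')
      _ = 4 := by norm_num
  · rcases lt_abs.1 h with h | h
    · refine (lintegral_mono (g := fun θ => (ENNReal.ofReal ‖u θ - 1‖) ^ (-(1/2) : ℝ)) ?_).trans
        ((lintegral_rpow_circle (by simp)).trans (by norm_num))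
      intro θ
      apply hlow _ _ (norm_nonneg _)
      rw [norm_sub_one_sq, abs_of_nonneg (by nlinarith only [norm_sub_one_sq θ, sq_nonneg ‖u θ - 1‖, h])]
      linarith
    · refine (lintegral_mono (g := fun θ => (ENNReal.ofReal ‖u θ - (-1)‖) ^ (-(1/2) : ℝ)) ?_).trans
        ((lintegral_rpow_circle (by simp)).trans (by norm_num))
      intro θ
      apply hlow _ _ (norm_nonneg _)
      rw [norm_add_one_sq, abs_of_nonpos (by nlinarith only [norm_add_one_sq θ, sq_nonneg ‖u θ - (-1)‖, h])]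
      linarith

end Pool.Agent.Anderson
end
end -- Pool.Agent.Helper17_Anderson.Cos

section -- Pool.Agent.Helper17_Anderson.Trace

/-!
# Trace inequalities for Hermitian matrices
-/

set_option autoImplicit false

open Matrix
open scoped ComplexConjugate ComplexOrder

noncomputable section

namespace Pool.Agent.Anderson

variable {n : Type*} [Fintype n] [DecidableEq n]

theorem exists_diag {X : Matrix n n ℂ} (hX : X.IsHermitian) :
    ∃ (U : Matrix n n ℂ) (l : n → ℝ), U * Uᴴ = 1 ∧ Uᴴ * U = 1 ∧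
      X = U * diagonal (fun i => (l i : ℂ)) * Uᴴ ∧ l = hX.eigenvalues := by
  refine ⟨hX.eigenvectorUnitary, hX.eigenvalues, ?_, ?_, ?_, rfl⟩
  · exact Unitary.coe_mul_star_self _
  · exact Unitary.coe_star_mul_self _
  · have := hX.spectral_theorem
    rw [Unitary.conjStarAlgAut_apply] at this
    exact this

theorem diag_pow {U : Matrix n n ℂ} {l : n → ℝ} (h2 : Uᴴ * U = 1) (h1 : U * Uᴴ = 1) (q : ℕ) :
    (U * diagonal (fun i => (l i : ℂ)) * Uᴴ) ^ q = U * diagonal (fun i => ((l i ^ q : ℝ) : ℂ)) * Uᴴ := by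
  induction q with
  | zero => simp [h1]
  | succ q ih =>
    rw [pow_succ, ih]
    calc U * diagonal (fun i => ((l i ^ q : ℝ) : ℂ)) * Uᴴ * (U * diagonal (fun i => (l i : ℂ)) * Uᴴ)
        = U * (diagonal (fun i => ((l i ^ q : ℝ) : ℂ)) * (Uᴴ * U) *
            diagonal (fun i => (l i : ℂ))) * Uᴴ := by simp only [Matrix.mul_assoc]
      _ = _ := by
          rw [h2, Matrix.mul_one, diagonal_mul_diagonal]
          congr 3
          ext i
          push_cast
          ring

/-- `Re tr (A X^q A Y^r)` in terms of eigenvalues -/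
theorem trace_four {X Y A : Matrix n n ℂ} (hX : X.IsHermitian) (hY : Y.IsHermitian)
    (hA : A.IsHermitian) : ∃ (l m : n → ℝ) (w : n → n → ℝ), (∀ i j, 0 ≤ w i j) ∧
      ∀ q r : ℕ, (A * X ^ q * A * Y ^ r).trace.re = ∑ i, ∑ j, w i j * (l i ^ q * m j ^ r) := by
  obtain ⟨U, l, hU1, hU2, hXU, -⟩ := exists_diag hX
  obtain ⟨W, m, hW1, hW2, hYW, -⟩ := exists_diag hY
  set M : Matrix n n ℂ := Wᴴ * A * U with hM
  refine ⟨l, m, fun i j => ‖M j i‖ ^ 2, fun i j => by positivity, fun q r => ?_⟩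
  have hMH : Mᴴ = Uᴴ * A * W := by
    rw [hM]
    simp only [conjTranspose_mul, conjTranspose_conjTranspose, hA.eq, Matrix.mul_assoc]
  have h1 : (A * X ^ q * A * Y ^ r).trace =
      (M * diagonal (fun i => ((l i ^ q : ℝ) : ℂ)) * Mᴴ *
        diagonal (fun i => ((m i ^ r : ℝ) : ℂ))).trace := by
    rw [hXU, hYW, diag_pow hU2 hU1, diag_pow hW2 hW1, hMH, hM]
    set L := diagonal (fun i => ((l i ^ q : ℝ) : ℂ))
    set R := diagonal (fun i => ((m i ^ r : ℝ) : ℂ))
    have : A * (U * L * Uᴴ) * A * (W * R * Wᴴ) = (A * U * L * (Uᴴ * A * W) * R) * Wᴴ := by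
      simp only [Matrix.mul_assoc]
    rw [this, Matrix.trace_mul_comm]
    simp only [Matrix.mul_assoc]
  rw [h1, Matrix.trace, Complex.re_sum]
  rw [Finset.sum_comm]
  apply Finset.sum_congr rfl
  intro j _
  rw [Matrix.diag_apply, Matrix.mul_diagonal, Matrix.mul_apply, Finset.sum_mul, Complex.re_sum]
  apply Finset.sum_congr rfl
  intro i _
  rw [Matrix.mul_diagonal, conjTranspose_apply]
  have : M j i * ((l i ^ q : ℝ) : ℂ) * star (M j i) * ((m j ^ r : ℝ) : ℂ) =
      ((‖M j i‖ ^ 2 * (l i ^ q * m j ^ r) : ℝ) : ℂ) := by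
    have h2 : M j i * star (M j i) = ((‖M j i‖ ^ 2 : ℝ) : ℂ) := by
      have := Complex.mul_conj (M j i)
      rw [Complex.normSq_eq_norm_sq] at this
      exact this
    push_cast at h2 ⊢
    linear_combination ((l i : ℂ) ^ q * (m j : ℂ) ^ r) * h2
  rw [this, Complex.ofReal_re]

theorem scalar_pair (a b : ℝ) (m q : ℕ) (hq : q ≤ 2 * m) :
    a ^ q * b ^ (2 * m - q) + a ^ (2 * m - q) * b ^ q ≤ a ^ (2 * m) + b ^ (2 * m) := by
  have h1 : a ^ q * b ^ (2 * m - q) ≤ |a| ^ q * |b| ^ (2 * m - q) := by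
    rw [← abs_pow, ← abs_pow, ← abs_mul]; exact le_abs_self _
  have h2 : a ^ (2 * m - q) * b ^ q ≤ |a| ^ (2 * m - q) * |b| ^ q := by
    rw [← abs_pow, ← abs_pow, ← abs_mul]; exact le_abs_self _
  have e1 : a ^ (2 * m) = |a| ^ q * |a| ^ (2 * m - q) := by
    rw [← pow_add, Nat.add_sub_cancel' hq, (even_two_mul m).pow_abs]
  have e2 : b ^ (2 * m) = |b| ^ q * |b| ^ (2 * m - q) := by
    rw [← pow_add, Nat.add_sub_cancel' hq, (even_two_mul m).pow_abs]
  rw [e1, e2]
  have h3 : 0 ≤ (|a| ^ q - |b| ^ q) * (|a| ^ (2 * m - q) - |b| ^ (2 * m - q)) := by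
    rcases le_total |a| |b| with h | h
    · apply mul_nonneg_of_nonpos_of_nonpos
      · exact sub_nonpos.2 (pow_le_pow_left₀ (abs_nonneg _) h _)
      · exact sub_nonpos.2 (pow_le_pow_left₀ (abs_nonneg _) h _)
    · apply mul_nonneg
      · exact sub_nonneg.2 (pow_le_pow_left₀ (abs_nonneg _) h _)
      · exact sub_nonneg.2 (pow_le_pow_left₀ (abs_nonneg _) h _)
  nlinarith only [h1, h2, h3]

theorem scalar_sum (a b : ℝ) (m : ℕ) :
    2 * ∑ q ∈ Finset.range (2 * m + 1), a ^ q * b ^ (2 * m - q) ≤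
      (2 * m + 1) * (a ^ (2 * m) + b ^ (2 * m)) := by
  have h1 : ∑ q ∈ Finset.range (2 * m + 1), a ^ q * b ^ (2 * m - q) =
      ∑ q ∈ Finset.range (2 * m + 1), a ^ (2 * m - q) * b ^ q := by
    rw [← Finset.sum_range_reflect]
    apply Finset.sum_congr rfl
    intro q hq
    have : q ≤ 2 * m := by simpa [Nat.lt_succ_iff] using hq
    rw [show 2 * m + 1 - 1 - q = 2 * m - q by omega, show 2 * m - (2 * m - q) = q by omega]
  have h2 : 2 * ∑ q ∈ Finset.range (2 * m + 1), a ^ q * b ^ (2 * m - q) =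
      ∑ q ∈ Finset.range (2 * m + 1),
        (a ^ q * b ^ (2 * m - q) + a ^ (2 * m - q) * b ^ q) := by
    rw [Finset.sum_add_distrib, ← h1, two_mul]
  rw [h2]
  calc _ ≤ ∑ q ∈ Finset.range (2 * m + 1), (a ^ (2 * m) + b ^ (2 * m)) := by
        apply Finset.sum_le_sum
        intro q hq
        exact scalar_pair a b m q (by simpa [Nat.lt_succ_iff] using hq)
    _ = _ := by
        rw [Finset.sum_const, Finset.card_range, nsmul_eq_mul]
        push_cast
        ring

theorem trace_sum_le {X Y A : Matrix n n ℂ} (hX : X.IsHermitian) (hY : Y.IsHermitian)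
    (hA : A.IsHermitian) (m : ℕ) :
    2 * ∑ q ∈ Finset.range (2 * m + 1), (A * X ^ q * A * Y ^ (2 * m - q)).trace.re ≤
      (2 * m + 1) * ((A * A * X ^ (2 * m)).trace.re + (A * A * Y ^ (2 * m)).trace.re) := by
  obtain ⟨l, mu, w, hw, h⟩ := trace_four hX hY hA
  have e1 : (A * A * X ^ (2 * m)).trace.re = ∑ i, ∑ j, w i j * (l i ^ (2 * m) * mu j ^ 0) := by
    rw [← h (2 * m) 0, pow_zero, Matrix.mul_one, Matrix.mul_assoc A A, Matrix.trace_mul_comm A]
  have e2 : (A * A * Y ^ (2 * m)).trace.re = ∑ i, ∑ j, w i j * (l i ^ 0 * mu j ^ (2 * m)) := by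
    rw [← h 0 (2 * m), pow_zero, Matrix.mul_one]
  rw [e1, e2]
  simp only [h, pow_zero, mul_one, one_mul]
  rw [Finset.sum_comm, Finset.mul_sum, ← Finset.sum_add_distrib, Finset.mul_sum]
  apply Finset.sum_le_sum
  intro i _
  rw [Finset.sum_comm, Finset.mul_sum, ← Finset.sum_add_distrib, Finset.mul_sum]
  apply Finset.sum_le_sum
  intro j _
  rw [← Finset.mul_sum]
  have := mul_le_mul_of_nonneg_left (scalar_sum (l i) (mu j) m) (hw i j)
  nlinarith only [this]

/-- difference of powers -/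
theorem pow_sub_pow_nc (X Y : Matrix n n ℂ) (k : ℕ) :
    X ^ k - Y ^ k = ∑ q ∈ Finset.range k, X ^ q * (X - Y) * Y ^ (k - 1 - q) := by
  induction k with
  | zero => simp
  | succ k ih =>
    rw [Finset.sum_range_succ]
    have h1 : ∑ q ∈ Finset.range k, X ^ q * (X - Y) * Y ^ (k + 1 - 1 - q) =
        (X ^ k - Y ^ k) * Y := by
      rw [ih, Finset.sum_mul]
      apply Finset.sum_congr rfl
      intro q hq
      have : q < k := Finset.mem_range.1 hq
      rw [show k + 1 - 1 - q = (k - 1 - q) + 1 by omega, pow_succ, ← Matrix.mul_assoc]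
    rw [h1, show k + 1 - 1 - k = 0 by omega, pow_zero, Matrix.mul_one, pow_succ, pow_succ,
      Matrix.sub_mul, Matrix.mul_sub]
    abel

end Pool.Agent.Anderson
end
end -- Pool.Agent.Helper17_Anderson.Trace

section -- Pool.Agent.Helper17_Anderson.Khintchine

/-!
# A matrix Khintchine inequality for `C diag(± r) C`
-/

set_option autoImplicit false

open Matrix
open scoped ComplexConjugate ComplexOrder

noncomputable section

namespace Pool.Agent.Anderson

variable {n : Type*} [Fintype n] [DecidableEq n]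

/-- `C diag(D) C` -/
def XM (C : Matrix n n ℂ) (D : n → ℝ) : Matrix n n ℂ := C * diagonal (fun y => (D y : ℂ)) * C

/-- `C E_{yy} C` -/
def AM (C : Matrix n n ℂ) (y : n) : Matrix n n ℂ := C * Matrix.single y y 1 * C

theorem XM_eq_sum (C : Matrix n n ℂ) (D : n → ℝ) : XM C D = ∑ y, (D y : ℂ) • AM C y := by
  unfold XM AM
  have : diagonal (fun y => (D y : ℂ)) = ∑ y, (D y : ℂ) • Matrix.single y y (1 : ℂ) := by
    ext i j
    rw [Matrix.sum_apply]
    simp only [Matrix.smul_apply, Matrix.single_apply, Matrix.diagonal_apply, smul_eq_mul]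
    by_cases h : i = j
    · subst h
      rw [Finset.sum_eq_single i]
      · simp
      · intro b _ hb; simp [hb]
      · simp
    · rw [if_neg h, Finset.sum_eq_zero]
      intro b _
      rw [if_neg (by rintro ⟨rfl, rfl⟩; exact h rfl), mul_zero]
  rw [this, Matrix.mul_sum, Matrix.sum_mul]
  apply Finset.sum_congr rfl
  intro y _
  rw [Matrix.mul_smul, Matrix.smul_mul]

theorem XM_herm {C : Matrix n n ℂ} (hC : C.IsHermitian) (D : n → ℝ) : (XM C D).IsHermitian := by
  unfold XM Matrix.IsHermitian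
  rw [conjTranspose_mul, conjTranspose_mul, hC.eq, diagonal_conjTranspose, ← Matrix.mul_assoc]
  congr 3
  ext y
  simp

theorem AM_herm {C : Matrix n n ℂ} (hC : C.IsHermitian) (y : n) : (AM C y).IsHermitian := by
  unfold AM Matrix.IsHermitian
  rw [conjTranspose_mul, conjTranspose_mul, hC.eq, Matrix.conjTranspose_single, star_one,
    ← Matrix.mul_assoc]

theorem AM_sq (C : Matrix n n ℂ) (y : n) : AM C y * AM C y = (C * C) y y • AM C y := by
  unfold AM
  have h : Matrix.single y y (1 : ℂ) * (C * C) * Matrix.single y y (1 : ℂ) =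
      (C * C) y y • Matrix.single y y (1 : ℂ) := by
    rw [Matrix.single_mul_mul_single]
    ext i j
    simp [Matrix.single_apply]
  calc C * Matrix.single y y (1 : ℂ) * C * (C * Matrix.single y y (1 : ℂ) * C)
      = C * (Matrix.single y y (1 : ℂ) * (C * C) * Matrix.single y y (1 : ℂ)) * C := by
        simp only [Matrix.mul_assoc]
    _ = _ := by rw [h, Matrix.mul_smul, Matrix.smul_mul]

theorem sum_AM (C : Matrix n n ℂ) : ∑ y, AM C y = C * C := by
  have h := XM_eq_sum C (fun _ => 1)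
  simp only [Complex.ofReal_one, one_smul] at h
  rw [← h]
  unfold XM
  simp

omit [DecidableEq n] in
theorem trace_conj_nonneg (B : Matrix n n ℂ) : 0 ≤ (Bᴴ * B).trace.re := by
  rw [Matrix.trace, Complex.re_sum]
  apply Finset.sum_nonneg
  intro i _
  rw [Matrix.diag_apply, Matrix.mul_apply, Complex.re_sum]
  apply Finset.sum_nonneg
  intro j _
  rw [conjTranspose_apply]
  have := Complex.mul_conj (B j i)
  have h2 : star (B j i) * B j i = ((‖B j i‖ ^ 2 : ℝ) : ℂ) := by
    rw [Complex.normSq_eq_norm_sq] at this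
    rw [mul_comm]
    exact this
  rw [h2, Complex.ofReal_re]
  positivity

theorem trace_pow_nonneg {X : Matrix n n ℂ} (hX : X.IsHermitian) (m : ℕ) :
    0 ≤ (X ^ (2 * m)).trace.re := by
  have h : X ^ (2 * m) = (X ^ m)ᴴ * X ^ m := by
    rw [(hX.pow m).eq, ← pow_add, two_mul]
  rw [h]
  exact trace_conj_nonneg _

theorem trace_AM_nonneg {C X : Matrix n n ℂ} (hC : C.IsHermitian) (hX : X.IsHermitian)
    (y : n) (m : ℕ) : 0 ≤ (AM C y * X ^ (2 * m)).trace.re := by
  have h : (AM C y * X ^ (2 * m)).trace =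
      ((Matrix.single y y (1 : ℂ) * C * X ^ m)ᴴ * (Matrix.single y y (1 : ℂ) * C * X ^ m)).trace := by
    rw [conjTranspose_mul, conjTranspose_mul, hC.eq, Matrix.conjTranspose_single, star_one,
      (hX.pow m).eq]
    have e : X ^ m * (C * Matrix.single y y (1 : ℂ)) * (Matrix.single y y (1 : ℂ) * C * X ^ m) =
        X ^ m * (C * (Matrix.single y y (1 : ℂ) * Matrix.single y y (1 : ℂ)) * C * X ^ m) := by
      simp only [Matrix.mul_assoc]
    rw [e, Matrix.single_mul_single_same, one_mul, Matrix.trace_mul_comm (X ^ m), two_mul, pow_add]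
    unfold AM
    simp only [Matrix.mul_assoc]
  rw [h]
  exact trace_conj_nonneg _

theorem trace_K_le {K X : Matrix n n ℂ} (hX : X.IsHermitian) {L : ℝ}
    (hK : ∀ v : n → ℂ, (star v ⬝ᵥ (K *ᵥ v)).re ≤ L * ∑ y, ‖v y‖ ^ 2) (m : ℕ) :
    (K * X ^ (2 * m)).trace.re ≤ L * (X ^ (2 * m)).trace.re := by
  have h0 : (K * X ^ (2 * m)).trace = ((X ^ m)ᴴ * (K * X ^ m)).trace := by
    rw [(hX.pow m).eq, two_mul, pow_add, ← Matrix.mul_assoc, Matrix.trace_mul_comm]
  have h1 : (X ^ (2 * m)).trace = ((X ^ m)ᴴ * X ^ m).trace := by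
    rw [(hX.pow m).eq, ← pow_add, two_mul]
  rw [h0, h1, Matrix.trace, Matrix.trace, Complex.re_sum, Complex.re_sum, Finset.mul_sum]
  apply Finset.sum_le_sum
  intro j _
  have e1 : ((X ^ m)ᴴ * (K * X ^ m)).diag j =
      star (fun i => (X ^ m) i j) ⬝ᵥ (K *ᵥ (fun i => (X ^ m) i j)) := by
    rw [Matrix.diag_apply, Matrix.mul_apply]
    simp only [dotProduct, conjTranspose_apply, Matrix.mul_apply, mulVec, Pi.star_apply]
  have e2 : (((X ^ m)ᴴ * X ^ m).diag j).re = ∑ y, ‖(X ^ m) y j‖ ^ 2 := by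
    rw [Matrix.diag_apply, Matrix.mul_apply, Complex.re_sum]
    apply Finset.sum_congr rfl
    intro i _
    rw [conjTranspose_apply]
    have := Complex.mul_conj ((X ^ m) i j)
    rw [Complex.normSq_eq_norm_sq] at this
    have h2 : star ((X ^ m) i j) * (X ^ m) i j = ((‖(X ^ m) i j‖ ^ 2 : ℝ) : ℂ) := by
      rw [mul_comm]; exact this
    rw [h2, Complex.ofReal_re]
  rw [e1, e2]
  exact hK _

/-- sign of a Boolean -/
def sg (b : Bool) : ℝ := if b then 1 else -1

theorem sg_not (b : Bool) : sg (!b) = -sg b := by cases b <;> simp [sg]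

theorem sg_sq (b : Bool) : sg b * sg b = 1 := by cases b <;> simp [sg]

theorem abs_sg (b : Bool) : |sg b| = 1 := by cases b <;> simp [sg]

/-- flip the sign at `y` -/
def flip1 (y : n) (e : n → Bool) : n → Bool := Function.update e y (!e y)

omit [Fintype n] in
theorem flip1_flip1 (y : n) (e : n → Bool) : flip1 y (flip1 y e) = e := by
  unfold flip1
  simp

theorem sum_flip1 {M : Type*} [AddCommMonoid M] (y : n) (g : (n → Bool) → M) :
    ∑ e, g (flip1 y e) = ∑ e, g e :=
  Equiv.sum_comp (Function.Involutive.toPerm (flip1 y) (flip1_flip1 y)) g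

/-- the signed diagonal -/
def sD (r : n → ℝ) (e : n → Bool) : n → ℝ := fun y => sg (e y) * r y

theorem XM_flip (C : Matrix n n ℂ) (r : n → ℝ) (y : n) (e : n → Bool) :
    XM C (sD r e) - XM C (sD r (flip1 y e)) = ((2 * (sg (e y) * r y) : ℝ) : ℂ) • AM C y := by
  rw [XM_eq_sum, XM_eq_sum, ← Finset.sum_sub_distrib, Finset.sum_eq_single y]
  · rw [← sub_smul]
    congr 1
    unfold sD flip1
    rw [Function.update_self, sg_not]
    push_cast
    ring
  · intro b _ hb
    unfold sD flip1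
    rw [Function.update_of_ne hb, sub_self]
  · simp

theorem khintchine_step {C : Matrix n n ℂ} (hC : C.IsHermitian) {κ L s : ℝ}
    (hκ0 : 0 ≤ κ)
    (hκ : ∀ y, ((C * C) y y).re ≤ κ)
    (hK : ∀ v : n → ℂ, (star v ⬝ᵥ ((C * C) *ᵥ v)).re ≤ L * ∑ y, ‖v y‖ ^ 2)
    {r : n → ℝ} (hr : ∀ y, |r y| ≤ s) (m : ℕ) :
    ∑ e : n → Bool, (XM C (sD r e) ^ (2 * (m + 1))).trace.re ≤
      (2 * m + 1) * (s ^ 2 * κ * L) * ∑ e : n → Bool, (XM C (sD r e) ^ (2 * m)).trace.re := by
  have hs2 : ∀ y, r y ^ 2 ≤ s ^ 2 := fun y => by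
    rw [← sq_abs (r y)]
    exact pow_le_pow_left₀ (abs_nonneg _) (hr y) 2
  -- expand one factor
  have h1 : ∀ e : n → Bool, (XM C (sD r e) ^ (2 * (m + 1))).trace.re =
      ∑ y, sg (e y) * r y * (AM C y * XM C (sD r e) ^ (2 * m + 1)).trace.re := by
    intro e
    rw [show 2 * (m + 1) = (2 * m + 1) + 1 by ring, pow_succ']
    generalize XM C (sD r e) ^ (2 * m + 1) = Z
    rw [XM_eq_sum C (sD r e), Finset.sum_mul, Matrix.trace_sum, Complex.re_sum]
    apply Finset.sum_congr rfl
    intro y _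
    rw [Matrix.smul_mul, Matrix.trace_smul, smul_eq_mul, Complex.re_ofReal_mul]
    rfl
  have h2 : ∀ y, 2 * ∑ e : n → Bool, sg (e y) * r y *
      (AM C y * XM C (sD r e) ^ (2 * m + 1)).trace.re =
      ∑ e : n → Bool, sg (e y) * r y * ((AM C y * (XM C (sD r e) ^ (2 * m + 1) -
        XM C (sD r (flip1 y e)) ^ (2 * m + 1))).trace.re) := by
    intro y
    have e1 := sum_flip1 y (fun e : n → Bool => sg (e y) * r y *
      (AM C y * XM C (sD r e) ^ (2 * m + 1)).trace.re)
    rw [two_mul]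
    nth_rw 2 [← e1]
    rw [← Finset.sum_add_distrib]
    apply Finset.sum_congr rfl
    intro e _
    have : sg (flip1 y e y) = -sg (e y) := by
      unfold flip1; rw [Function.update_self, sg_not]
    rw [this, Matrix.mul_sub, Matrix.trace_sub, Complex.sub_re]
    ring
  have h3 : ∀ y (e : n → Bool), sg (e y) * r y * ((AM C y * (XM C (sD r e) ^ (2 * m + 1) -
        XM C (sD r (flip1 y e)) ^ (2 * m + 1))).trace.re) ≤
      r y ^ 2 * ((2 * m + 1) * ((AM C y * AM C y * XM C (sD r e) ^ (2 * m)).trace.re +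
        (AM C y * AM C y * XM C (sD r (flip1 y e)) ^ (2 * m)).trace.re)) := by
    intro y e
    set X := XM C (sD r e) with hX
    set Y := XM C (sD r (flip1 y e)) with hY
    have hd : X - Y = ((2 * (sg (e y) * r y) : ℝ) : ℂ) • AM C y := XM_flip C r y e
    rw [pow_sub_pow_nc, Matrix.mul_sum, Matrix.trace_sum, Complex.re_sum]
    have e2 : ∀ q, (AM C y * (X ^ q * (X - Y) * Y ^ (2 * m + 1 - 1 - q))).trace.re =
        2 * (sg (e y) * r y) * (AM C y * X ^ q * AM C y * Y ^ (2 * m - q)).trace.re := by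
      intro q
      rw [hd, show 2 * m + 1 - 1 - q = 2 * m - q by omega, Matrix.mul_smul, Matrix.smul_mul,
        Matrix.mul_smul, Matrix.trace_smul, smul_eq_mul, Complex.re_ofReal_mul]
      simp only [Matrix.mul_assoc]
    simp only [e2]
    rw [← Finset.mul_sum]
    have h4 := trace_sum_le (XM_herm hC (sD r e)) (XM_herm hC (sD r (flip1 y e)))
      (AM_herm hC y) m
    rw [← hX, ← hY] at h4
    have h5 := sg_sq (e y)
    have h6 : sg (e y) * r y * (2 * (sg (e y) * r y) *
        ∑ i ∈ Finset.range (2 * m + 1), (AM C y * X ^ i * AM C y * Y ^ (2 * m - i)).trace.re) =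
        r y ^ 2 * (2 * ∑ i ∈ Finset.range (2 * m + 1),
          (AM C y * X ^ i * AM C y * Y ^ (2 * m - i)).trace.re) := by
      linear_combination (2 * r y ^ 2 * ∑ i ∈ Finset.range (2 * m + 1),
          (AM C y * X ^ i * AM C y * Y ^ (2 * m - i)).trace.re) * h5
    rw [h6]
    exact mul_le_mul_of_nonneg_left h4 (sq_nonneg _)
  have h4 : ∀ y, ∑ e : n → Bool, sg (e y) * r y *
      (AM C y * XM C (sD r e) ^ (2 * m + 1)).trace.re ≤
      (2 * m + 1) * (s ^ 2 * κ) * ∑ e : n → Bool, (AM C y * XM C (sD r e) ^ (2 * m)).trace.re := by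
    intro y
    have e3 : 2 * ∑ e : n → Bool, sg (e y) * r y *
        (AM C y * XM C (sD r e) ^ (2 * m + 1)).trace.re ≤
        r y ^ 2 * ((2 * m + 1) *
        (2 * ∑ e : n → Bool, (AM C y * AM C y * XM C (sD r e) ^ (2 * m)).trace.re)) := by
      rw [h2 y]
      refine (Finset.sum_le_sum fun e _ => h3 y e).trans (le_of_eq ?_)
      rw [← Finset.mul_sum, ← Finset.mul_sum, Finset.sum_add_distrib,
        sum_flip1 y (fun e => (AM C y * AM C y * XM C (sD r e) ^ (2 * m)).trace.re)]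
      ring
    have hKy : ∀ e : n → Bool, (AM C y * AM C y * XM C (sD r e) ^ (2 * m)).trace.re ≤
        κ * (AM C y * XM C (sD r e) ^ (2 * m)).trace.re := by
      intro e
      have him : ((C * C) y y).im = 0 := by
        have : (C * C).IsHermitian := by
          unfold Matrix.IsHermitian
          rw [conjTranspose_mul, hC.eq]
        have h7 := this.apply y y
        have h8 := congrArg Complex.im h7
        simp only [Complex.star_def, Complex.conj_im] at h8
        linarith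
      have hre : (C * C) y y = (((C * C) y y).re : ℂ) := by
        apply Complex.ext <;> simp [him]
      rw [AM_sq, hre, Matrix.smul_mul, Matrix.trace_smul, smul_eq_mul, Complex.re_ofReal_mul]
      exact mul_le_mul_of_nonneg_right (by simpa using hκ y)
        (trace_AM_nonneg hC (XM_herm hC _) y m)
    have hnn : 0 ≤ ∑ e : n → Bool, (AM C y * XM C (sD r e) ^ (2 * m)).trace.re :=
      Finset.sum_nonneg fun e _ => trace_AM_nonneg hC (XM_herm hC _) y m
    have h9 : ∑ e : n → Bool, (AM C y * AM C y * XM C (sD r e) ^ (2 * m)).trace.re ≤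
        κ * ∑ e : n → Bool, (AM C y * XM C (sD r e) ^ (2 * m)).trace.re := by
      rw [Finset.mul_sum]
      exact Finset.sum_le_sum fun e _ => hKy e
    set T := ∑ e : n → Bool, (AM C y * XM C (sD r e) ^ (2 * m)).trace.re
    set T2 := ∑ e : n → Bool, (AM C y * AM C y * XM C (sD r e) ^ (2 * m)).trace.re
    have hm : (0 : ℝ) ≤ 2 * m + 1 := by positivity
    have h10 : r y ^ 2 * ((2 * m + 1) * (2 * T2)) ≤ s ^ 2 * ((2 * m + 1) * (2 * (κ * T))) := by
      have hk : 0 ≤ (2 * (m:ℝ) + 1) * (2 * (κ * T)) := by positivity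
      calc r y ^ 2 * ((2 * m + 1) * (2 * T2)) ≤ r y ^ 2 * ((2 * m + 1) * (2 * (κ * T))) := by
            gcongr
        _ ≤ s ^ 2 * ((2 * m + 1) * (2 * (κ * T))) :=
            mul_le_mul_of_nonneg_right (hs2 y) hk
    linarith
  calc ∑ e : n → Bool, (XM C (sD r e) ^ (2 * (m + 1))).trace.re
      = ∑ y, ∑ e : n → Bool, sg (e y) * r y *
          (AM C y * XM C (sD r e) ^ (2 * m + 1)).trace.re := by
        simp only [h1]
        rw [Finset.sum_comm]
    _ ≤ ∑ y, (2 * m + 1) * (s ^ 2 * κ) *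
          ∑ e : n → Bool, (AM C y * XM C (sD r e) ^ (2 * m)).trace.re :=
        Finset.sum_le_sum fun y _ => h4 y
    _ = (2 * m + 1) * (s ^ 2 * κ) *
          ∑ e : n → Bool, (C * C * XM C (sD r e) ^ (2 * m)).trace.re := by
        rw [← Finset.mul_sum, Finset.sum_comm]
        congr 1
        apply Finset.sum_congr rfl
        intro e _
        rw [← sum_AM, Matrix.sum_mul, Matrix.trace_sum, Complex.re_sum]
    _ ≤ (2 * m + 1) * (s ^ 2 * κ) *
          ∑ e : n → Bool, (L * (XM C (sD r e) ^ (2 * m)).trace.re) := by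
        gcongr with e _
        exact trace_K_le (XM_herm hC _) hK m
    _ = _ := by
        rw [← Finset.mul_sum]
        ring

theorem khintchine {C : Matrix n n ℂ} (hC : C.IsHermitian) {κ L s : ℝ}
    (hκ0 : 0 ≤ κ) (hL : 0 ≤ L)
    (hκ : ∀ y, ((C * C) y y).re ≤ κ)
    (hK : ∀ v : n → ℂ, (star v ⬝ᵥ ((C * C) *ᵥ v)).re ≤ L * ∑ y, ‖v y‖ ^ 2)
    {r : n → ℝ} (hr : ∀ y, |r y| ≤ s) (p : ℕ) :
    ∑ e : n → Bool, (XM C (sD r e) ^ (2 * p)).trace.re ≤
      (2 ^ Fintype.card n) * (Fintype.card n * (2 * p * (s ^ 2 * κ * L)) ^ p) := by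
  have hQ : 0 ≤ s ^ 2 * κ * L := by positivity
  have key : ∀ P : ℕ, ∀ p ≤ P, ∑ e : n → Bool, (XM C (sD r e) ^ (2 * p)).trace.re ≤
      (2 ^ Fintype.card n) * (Fintype.card n * (2 * P * (s ^ 2 * κ * L)) ^ p) := by
    intro P p
    induction p with
    | zero =>
      intro _
      simp [Matrix.trace_one]
    | succ p ih =>
      intro hp
      have h1 := khintchine_step hC hκ0 hκ hK hr p
      have h2 := ih (by omega)
      have hpP : (2 * (p : ℝ) + 1) ≤ 2 * P := by
        have : (p : ℝ) + 1 ≤ P := by exact_mod_cast hp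
        linarith
      calc _ ≤ (2 * (p:ℝ) + 1) * (s ^ 2 * κ * L) *
            ∑ e : n → Bool, (XM C (sD r e) ^ (2 * p)).trace.re := h1
        _ ≤ (2 * (P:ℝ)) * (s ^ 2 * κ * L) *
            ((2 ^ Fintype.card n) * (Fintype.card n * (2 * P * (s ^ 2 * κ * L)) ^ p)) := by
            have hnn : 0 ≤ ∑ e : n → Bool, (XM C (sD r e) ^ (2 * p)).trace.re :=
              Finset.sum_nonneg fun e _ => trace_pow_nonneg (XM_herm hC _) p
            apply mul_le_mul _ h2 hnn (by positivity)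
            exact mul_le_mul_of_nonneg_right hpP hQ
        _ = _ := by rw [pow_succ]; ring
  exact key p p le_rfl

end Pool.Agent.Anderson
end
end -- Pool.Agent.Helper17_Anderson.Khintchine

section -- Pool.Agent.Helper17_Anderson.OpNorm

/-!
# From traces to operator bounds; square roots
-/

set_option autoImplicit false

open Matrix
open scoped ComplexConjugate ComplexOrder

noncomputable section

namespace Pool.Agent.Anderson

variable {n : Type*} [Fintype n] [DecidableEq n]

/-- squared Euclidean norm of a finite vector -/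
def nsq (v : n → ℂ) : ℝ := ∑ i, ‖v i‖ ^ 2

omit [DecidableEq n] in
theorem nsq_nonneg (v : n → ℂ) : 0 ≤ nsq v := Finset.sum_nonneg fun i _ => by positivity

omit [DecidableEq n] in
theorem star_dot_self (v : n → ℂ) : star v ⬝ᵥ v = (nsq v : ℂ) := by
  unfold nsq dotProduct
  push_cast
  apply Finset.sum_congr rfl
  intro i _
  have := Complex.mul_conj (v i)
  rw [Complex.normSq_eq_norm_sq] at this
  rw [Pi.star_apply, mul_comm]
  push_cast at this
  exact this

theorem nsq_mulVec_unitary {U : Matrix n n ℂ} (hU : Uᴴ * U = 1) (v : n → ℂ) :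
    nsq (U *ᵥ v) = nsq v := by
  have h1 := star_dot_self (U *ᵥ v)
  rw [star_mulVec, ← dotProduct_mulVec, mulVec_mulVec, hU, one_mulVec, star_dot_self] at h1
  exact_mod_cast h1.symm

theorem op_of_trace {X : Matrix n n ℂ} (hX : X.IsHermitian) {p : ℕ} (hp : 1 ≤ p) {ρ : ℝ}
    (hρ : 0 ≤ ρ) (h : (X ^ (2 * p)).trace.re ≤ ρ ^ (2 * p)) (v : n → ℂ) :
    nsq (X *ᵥ v) ≤ ρ ^ 2 * nsq v := by
  obtain ⟨U, l, hU1, hU2, hXU, -⟩ := exists_diag hX
  have htr : (X ^ (2 * p)).trace.re = ∑ i, l i ^ (2 * p) := by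
    rw [hXU, diag_pow hU2 hU1, Matrix.trace_mul_comm, ← Matrix.mul_assoc, hU2, Matrix.one_mul,
      Matrix.trace_diagonal, Complex.re_sum]
    simp only [Complex.ofReal_re]
  have hl : ∀ i, l i ^ 2 ≤ ρ ^ 2 := by
    intro i
    have h1 : l i ^ (2 * p) ≤ ∑ i, l i ^ (2 * p) :=
      Finset.single_le_sum (f := fun i => l i ^ (2 * p))
        (fun j _ => by rw [pow_mul]; positivity) (Finset.mem_univ i)
    have h2 : (l i ^ 2) ^ p ≤ (ρ ^ 2) ^ p := by
      rw [← pow_mul, ← pow_mul]
      linarith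
    exact le_of_pow_le_pow_left₀ (by omega) (by positivity) h2
  have hUt : (Uᴴ)ᴴ * Uᴴ = 1 := by rw [conjTranspose_conjTranspose, hU1]
  rw [hXU, ← mulVec_mulVec, ← mulVec_mulVec, nsq_mulVec_unitary hU2]
  calc nsq (diagonal (fun i => (l i : ℂ)) *ᵥ (Uᴴ *ᵥ v)) ≤ ρ ^ 2 * nsq (Uᴴ *ᵥ v) := by
        unfold nsq
        rw [Finset.mul_sum]
        apply Finset.sum_le_sum
        intro i _
        rw [mulVec_diagonal, norm_mul, mul_pow, Complex.norm_real, Real.norm_eq_abs, sq_abs]
        exact mul_le_mul_of_nonneg_right (hl i) (by positivity)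
    _ = ρ ^ 2 * nsq v := by rw [nsq_mulVec_unitary hUt]

theorem exists_sqrt {K : Matrix n n ℂ} (hK : K.PosSemidef) :
    ∃ C : Matrix n n ℂ, C.IsHermitian ∧ C * C = K := by
  obtain ⟨U, l, hU1, hU2, hXU, hl⟩ := exists_diag hK.1
  have hl0 : ∀ i, 0 ≤ l i := fun i => by rw [hl]; exact hK.eigenvalues_nonneg i
  refine ⟨U * diagonal (fun i => ((√(l i) : ℝ) : ℂ)) * Uᴴ, ?_, ?_⟩
  · unfold Matrix.IsHermitian
    rw [conjTranspose_mul, conjTranspose_mul, conjTranspose_conjTranspose, diagonal_conjTranspose,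
      ← Matrix.mul_assoc]
    congr 3
    ext y
    simp
  · have := diag_pow (l := fun i => √(l i)) hU2 hU1 2
    rw [pow_two] at this
    rw [this, hXU]
    congr 3
    ext i
    rw [Real.sq_sqrt (hl0 i)]

end Pool.Agent.Anderson
end
end -- Pool.Agent.Helper17_Anderson.OpNorm

section -- Pool.Agent.Helper17_Anderson.Four

/-!
# Trigonometric polynomials attached to finitely supported functions
-/

set_option autoImplicit false

open MeasureTheory Set Real Function Matrix

open scoped ENNReal ComplexConjugate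

noncomputable section

namespace Pool.Agent.Anderson

local instance haarMS4 : MeasureSpace UnitAddCircle := ⟨AddCircle.haarAddCircle⟩

local instance haarAHFour : Measure.IsAddHaarMeasure (volume : Measure UnitAddCircle) :=
  inferInstanceAs (Measure.IsAddHaarMeasure AddCircle.haarAddCircle)

local instance haarPMFour : IsProbabilityMeasure (volume : Measure UnitAddCircle) :=
  inferInstanceAs (IsProbabilityMeasure AddCircle.haarAddCircle)

variable {d : ℕ}

/-- the character `θ ↦ e^{2πi y·θ}` -/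
def ch (y : Site d) (θ : UnitAddTorus (Fin d)) : ℂ := UnitAddTorus.mFourier y θ

theorem continuous_ch (y : Site d) : Continuous (ch y) := (UnitAddTorus.mFourier y).continuous

theorem ch_add (x y : Site d) (θ : UnitAddTorus (Fin d)) : ch (x + y) θ = ch x θ * ch y θ :=
  UnitAddTorus.mFourier_add

theorem ch_neg (x : Site d) (θ : UnitAddTorus (Fin d)) : ch (-x) θ = conj (ch x θ) :=
  UnitAddTorus.mFourier_neg

theorem norm_ch (x : Site d) (θ : UnitAddTorus (Fin d)) : ‖ch x θ‖ = 1 := by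
  unfold ch
  simp only [UnitAddTorus.mFourier, fourier_apply, ContinuousMap.coe_mk, norm_prod,
    Circle.norm_coe, Finset.prod_const_one]

theorem ch_single (i : Fin d) (θ : UnitAddTorus (Fin d)) : ch (Pi.single i 1) θ = u (θ i) := by
  unfold ch u
  rw [UnitAddTorus.mFourier_single, fourier_one]

theorem integrable_of_cont {E : Type*} [NormedAddCommGroup E] {f : UnitAddTorus (Fin d) → E}
    (hf : Continuous f) : Integrable f :=
  hf.integrable_of_hasCompactSupport (HasCompactSupport.of_compactSpace f)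

theorem integral_ch (x y : Site d) :
    ∫ θ : UnitAddTorus (Fin d), conj (ch x θ) * ch y θ = if x = y then 1 else 0 := by
  have h := (orthonormal_iff_ite.mp (UnitAddTorus.orthonormal_mFourier (d := Fin d))) x y
  rw [← h]
  unfold UnitAddTorus.mFourierLp
  rw [ContinuousMap.inner_toLp]
  apply integral_congr_ae
  filter_upwards with θ
  unfold ch
  ring

/-- trigonometric polynomial of `w` restricted to `Λ` -/
def hatS (Λ : Finset (Site d)) (w : Site d → ℂ) (θ : UnitAddTorus (Fin d)) : ℂ :=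
  ∑ y ∈ Λ, w y * ch y θ

theorem continuous_hatS (Λ : Finset (Site d)) (w : Site d → ℂ) : Continuous (hatS Λ w) := by
  unfold hatS
  apply continuous_finsetSum
  intro y _
  exact continuous_const.mul (continuous_ch y)

/-- trigonometric polynomial of a vector indexed by `Λ` -/
def hatV {Λ : Finset (Site d)} (v : Λ → ℂ) (θ : UnitAddTorus (Fin d)) : ℂ :=
  ∑ y : Λ, v y * ch (y : Site d) θ

theorem continuous_hatV {Λ : Finset (Site d)} (v : Λ → ℂ) : Continuous (hatV v) := by
  unfold hatV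
  apply continuous_finsetSum
  intro y _
  exact continuous_const.mul (continuous_ch _)

theorem hatS_eq_hatV (Λ : Finset (Site d)) (w : Site d → ℂ) (θ : UnitAddTorus (Fin d)) :
    hatS Λ w θ = hatV (fun y : Λ => w y) θ := by
  unfold hatS hatV
  exact (Finset.sum_coe_sort Λ (fun y => w y * ch y θ)).symm

theorem integral_hatV {Λ : Finset (Site d)} (a b : Λ → ℂ) :
    ∫ θ, conj (hatV a θ) * hatV b θ = ∑ y, conj (a y) * b y := by
  have h1 : ∀ θ, conj (hatV a θ) * hatV b θ =
      ∑ x : Λ, ∑ y : Λ, (conj (a x) * b y) * (conj (ch (x : Site d) θ) * ch (y : Site d) θ) := by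
    intro θ
    unfold hatV
    rw [map_sum, Finset.sum_mul_sum]
    apply Finset.sum_congr rfl
    intro x _
    apply Finset.sum_congr rfl
    intro y _
    rw [map_mul]
    ring
  have hint : ∀ x y : Λ, Integrable
      (fun θ => (conj (a x) * b y) * (conj (ch (x : Site d) θ) * ch (y : Site d) θ)) := by
    intro x y
    apply integrable_of_cont
    have h2 := continuous_ch (x : Site d)
    have h3 := continuous_ch (y : Site d)
    fun_prop
  simp only [h1]
  rw [integral_finsetSum _ (fun x _ => integrable_finsetSum _ fun y _ => hint x y)]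
  apply Finset.sum_congr rfl
  intro x _
  rw [integral_finsetSum _ (fun y _ => hint x y), Finset.sum_eq_single x]
  · rw [integral_const_mul, integral_ch, if_pos rfl, mul_one]
  · intro y _ hyx
    rw [integral_const_mul, integral_ch, if_neg, mul_zero]
    intro h
    exact hyx (Subtype.ext h.symm)
  · simp

theorem parseval {Λ : Finset (Site d)} (a : Λ → ℂ) :
    ∫ θ, ‖hatV a θ‖ ^ 2 = nsq a := by
  have h := integral_hatV a a
  have h1 : ∀ θ, conj (hatV a θ) * hatV a θ = ((‖hatV a θ‖ ^ 2 : ℝ) : ℂ) := by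
    intro θ
    rw [mul_comm, Complex.mul_conj, Complex.normSq_eq_norm_sq]
  have h2 : ∀ y, conj (a y) * a y = ((‖a y‖ ^ 2 : ℝ) : ℂ) := by
    intro y
    rw [mul_comm, Complex.mul_conj, Complex.normSq_eq_norm_sq]
  simp only [h1, h2] at h
  rw [integral_complex_ofReal, ← Complex.ofReal_sum] at h
  exact_mod_cast h

theorem parsevalS (Λ : Finset (Site d)) (w : Site d → ℂ) :
    ∫ θ, ‖hatS Λ w θ‖ ^ 2 = ∑ y ∈ Λ, ‖w y‖ ^ 2 := by
  simp only [hatS_eq_hatV]
  rw [parseval]
  unfold nsq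
  exact Finset.sum_coe_sort Λ (fun y => ‖w y‖ ^ 2)

/-- coefficient extraction -/
theorem integral_ch_hatS {Λ : Finset (Site d)} {w : Site d → ℂ} (hw : ∀ y ∉ Λ, w y = 0)
    (x : Site d) : ∫ θ, conj (ch x θ) * hatS Λ w θ = w x := by
  unfold hatS
  simp only [Finset.mul_sum]
  have hint : ∀ y : Site d, Integrable
      (fun θ => conj (ch x θ) * (w y * ch y θ)) := by
    intro y
    apply integrable_of_cont
    have h2 := continuous_ch x
    have h3 := continuous_ch y
    fun_prop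
  rw [integral_finsetSum _ (fun y _ => hint y)]
  have h1 : ∀ y, ∫ θ, conj (ch x θ) * (w y * ch y θ) = w y * (if x = y then 1 else 0) := by
    intro y
    rw [← integral_ch, ← integral_const_mul]
    congr 1
    funext θ
    ring
  simp only [h1, mul_ite, mul_one, mul_zero]
  rw [Finset.sum_ite_eq]
  split_ifs with h
  · rfl
  · exact (hw x h).symm

theorem hat_shift {Λ Λ' : Finset (Site d)} {w : Site d → ℂ} (hw : ∀ y ∉ Λ, w y = 0)
    (e : Site d) (h : ∀ y ∈ Λ, y - e ∈ Λ') (θ : UnitAddTorus (Fin d)) :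
    ∑ y ∈ Λ', w (y + e) * ch y θ = conj (ch e θ) * hatS Λ w θ := by
  classical
  have h1 : Λ.image (fun y => y - e) ⊆ Λ' := by
    intro y hy
    obtain ⟨y', hy', rfl⟩ := Finset.mem_image.1 hy
    exact h y' hy'
  rw [← Finset.sum_subset h1]
  · rw [Finset.sum_image (fun a _ b _ hab => by simpa using hab)]
    unfold hatS
    rw [Finset.mul_sum]
    apply Finset.sum_congr rfl
    intro y _
    rw [sub_add_cancel, sub_eq_add_neg, ch_add, ch_neg]
    ring
  · intro y _ hy
    rw [hw (y + e), zero_mul]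
    intro hye
    apply hy
    exact Finset.mem_image.2 ⟨y + e, hye, by simp⟩

/-- the symbol of the Laplacian -/
def sy (θ : UnitAddTorus (Fin d)) : ℝ := ∑ i, c2 (θ i)

theorem continuous_sy : Continuous (sy (d := d)) := by
  unfold sy
  apply continuous_finsetSum
  intro i _
  exact continuous_c2.comp (continuous_apply i)

theorem hat_lap {Λ Λ' : Finset (Site d)} {w : Site d → ℂ} (hw : ∀ y ∉ Λ, w y = 0)
    (h : ∀ y ∈ Λ, ∀ i, y - Pi.single i 1 ∈ Λ' ∧ y + Pi.single i 1 ∈ Λ')
    (θ : UnitAddTorus (Fin d)) :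
    hatS Λ' (lap w) θ = sy θ * hatS Λ w θ := by
  have h1 : hatS Λ' (lap w) θ = ∑ i : Fin d, (∑ y ∈ Λ', w (y + Pi.single i 1) * ch y θ +
      ∑ y ∈ Λ', w (y + -Pi.single i 1) * ch y θ) := by
    unfold hatS lap
    simp only [Finset.sum_mul, add_mul, ← sub_eq_add_neg]
    rw [Finset.sum_comm]
    simp only [Finset.sum_add_distrib]
  rw [h1]
  unfold sy
  rw [Complex.ofReal_sum, Finset.sum_mul]
  apply Finset.sum_congr rfl
  intro i _
  rw [hat_shift hw _ (fun y hy => (h y hy i).1),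
    hat_shift hw (-Pi.single i 1) (fun y hy => by rw [sub_neg_eq_add]; exact (h y hy i).2),
    ch_neg, Complex.conj_conj, ch_single, ← add_mul]
  congr 1
  unfold c2
  rw [add_comm, Complex.add_conj]

/-- `|e(θ) - E - iη|` -/
def md (E η : ℝ) (θ : UnitAddTorus (Fin d)) : ℝ := √((sy θ - E) ^ 2 + η ^ 2)

theorem continuous_md (E η : ℝ) : Continuous (md (d := d) E η) := by
  unfold md
  have := continuous_sy (d := d)
  fun_prop

theorem md_ge {E η : ℝ} (hη : 0 < η) (θ : UnitAddTorus (Fin d)) : η ≤ md E η θ := by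
  unfold md
  apply Real.le_sqrt_of_sq_le
  nlinarith [sq_nonneg (sy θ - E)]

theorem md_pos {E η : ℝ} (hη : 0 < η) (θ : UnitAddTorus (Fin d)) : 0 < md E η θ :=
  lt_of_lt_of_le hη (md_ge hη θ)

theorem norm_sy_sub (E η : ℝ) (θ : UnitAddTorus (Fin d)) :
    ‖((sy θ : ℝ) : ℂ) - (E + η * Complex.I)‖ = md E η θ := by
  unfold md
  rw [show ((sy θ : ℝ) : ℂ) - (E + η * Complex.I) = ((sy θ - E : ℝ) : ℂ) + ((-η : ℝ) : ℂ) * Complex.I by
    push_cast; ring, Complex.norm_add_mul_I]
  congr 1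
  ring

/-- the kernel matrix of `|Δ - E - iη|⁻¹` on `Λ` -/
def Kmat (Λ : Finset (Site d)) (E η : ℝ) : Matrix Λ Λ ℂ :=
  fun x y => ∫ θ, conj (ch (x : Site d) θ) * ((md E η θ)⁻¹ : ℝ) * ch (y : Site d) θ

/-- the diagonal entry -/
def kap (d : ℕ) (E η : ℝ) : ℝ := ∫ θ : UnitAddTorus (Fin d), (md E η θ)⁻¹

theorem Kmat_form (Λ : Finset (Site d)) {E η : ℝ} (hη : 0 < η) (v : Λ → ℂ) :
    star v ⬝ᵥ (Kmat Λ E η *ᵥ v) = ((∫ θ, (md E η θ)⁻¹ * ‖hatV v θ‖ ^ 2 : ℝ) : ℂ) := by
  have hc : Continuous fun θ : UnitAddTorus (Fin d) => (md E η θ)⁻¹ :=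
    (continuous_md E η).inv₀ (fun θ => (md_pos hη θ).ne')
  have hint : ∀ x y : Λ, Integrable (fun θ => (conj (v x) * v y) *
      (conj (ch (x : Site d) θ) * ((md E η θ)⁻¹ : ℝ) * ch (y : Site d) θ)) := by
    intro x y
    apply integrable_of_cont
    have h2 := continuous_ch (x : Site d)
    have h3 := continuous_ch (y : Site d)
    fun_prop
  rw [← integral_complex_ofReal]
  have h1 : ∀ θ, (((md E η θ)⁻¹ * ‖hatV v θ‖ ^ 2 : ℝ) : ℂ) = ∑ x : Λ, ∑ y : Λ,
      (conj (v x) * v y) * (conj (ch (x : Site d) θ) * ((md E η θ)⁻¹ : ℝ) * ch (y : Site d) θ) := by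
    intro θ
    have h2 : ((‖hatV v θ‖ ^ 2 : ℝ) : ℂ) = conj (hatV v θ) * hatV v θ := by
      rw [mul_comm, Complex.mul_conj, Complex.normSq_eq_norm_sq]
    rw [Complex.ofReal_mul, h2]
    unfold hatV
    rw [map_sum, Finset.sum_mul_sum, Finset.mul_sum]
    apply Finset.sum_congr rfl
    intro x _
    rw [Finset.mul_sum]
    apply Finset.sum_congr rfl
    intro y _
    rw [map_mul]
    ring
  simp only [h1]
  rw [integral_finsetSum _ (fun x _ => integrable_finsetSum _ fun y _ => hint x y)]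
  unfold dotProduct
  apply Finset.sum_congr rfl
  intro x _
  rw [integral_finsetSum _ (fun y _ => hint x y)]
  simp only [mulVec, dotProduct, Pi.star_apply, Finset.mul_sum]
  apply Finset.sum_congr rfl
  intro y _
  rw [integral_const_mul]
  unfold Kmat
  simp only [Complex.star_def]
  ring

end Pool.Agent.Anderson
end
end -- Pool.Agent.Helper17_Anderson.Four

section -- Pool.Agent.Helper17_Anderson.Det

/-!
# The deterministic estimate
-/

set_option autoImplicit false

open MeasureTheory Set Real Function Matrix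

open scoped ENNReal ComplexConjugate ComplexOrder

noncomputable section

namespace Pool.Agent.Anderson

local instance haarMS5 : MeasureSpace UnitAddCircle := ⟨AddCircle.haarAddCircle⟩

local instance haarAHDet : Measure.IsAddHaarMeasure (volume : Measure UnitAddCircle) :=
  inferInstanceAs (Measure.IsAddHaarMeasure AddCircle.haarAddCircle)

local instance haarPMDet : IsProbabilityMeasure (volume : Measure UnitAddCircle) :=
  inferInstanceAs (IsProbabilityMeasure AddCircle.haarAddCircle)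

variable {d : ℕ}

theorem continuous_inv_md {E η : ℝ} (hη : 0 < η) :
    Continuous fun θ : UnitAddTorus (Fin d) => (md E η θ)⁻¹ :=
  (continuous_md E η).inv₀ (fun θ => (md_pos hη θ).ne')

theorem Kmat_form_re (Λ : Finset (Site d)) {E η : ℝ} (hη : 0 < η) (v : Λ → ℂ) :
    (star v ⬝ᵥ (Kmat Λ E η *ᵥ v)).re = ∫ θ, (md E η θ)⁻¹ * ‖hatV v θ‖ ^ 2 := by
  rw [Kmat_form Λ hη, Complex.ofReal_re]

theorem Kmat_posSemidef (Λ : Finset (Site d)) {E η : ℝ} (hη : 0 < η) :
    (Kmat Λ E η).PosSemidef := by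
  rw [posSemidef_iff_dotProduct_mulVec]
  constructor
  · ext x y
    rw [conjTranspose_apply]
    unfold Kmat
    rw [Complex.star_def, ← integral_conj]
    apply integral_congr_ae
    filter_upwards with θ
    rw [map_mul, map_mul, Complex.conj_conj, Complex.conj_ofReal]
    ring
  · intro v
    rw [Kmat_form Λ hη]
    rw [Complex.zero_le_real]
    apply integral_nonneg
    intro θ
    have := md_pos (E := E) hη θ
    positivity

theorem Kmat_diag (Λ : Finset (Site d)) (E η : ℝ) (y : Λ) :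
    Kmat Λ E η y y = (kap d E η : ℂ) := by
  unfold Kmat kap
  rw [← integral_complex_ofReal]
  apply integral_congr_ae
  filter_upwards with θ
  have h : conj (ch (y : Site d) θ) * ch (y : Site d) θ = 1 := by
    rw [mul_comm, Complex.mul_conj, Complex.normSq_eq_norm_sq, norm_ch]
    norm_num
  linear_combination (((md E η θ)⁻¹ : ℝ) : ℂ) * h

theorem Kmat_le (Λ : Finset (Site d)) {E η : ℝ} (hη : 0 < η) (v : Λ → ℂ) :
    (star v ⬝ᵥ (Kmat Λ E η *ᵥ v)).re ≤ η⁻¹ * ∑ y, ‖v y‖ ^ 2 := by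
  rw [Kmat_form_re Λ hη]
  have h1 := parseval v
  unfold nsq at h1
  rw [← h1, ← integral_const_mul]
  have hc1 := continuous_inv_md (d := d) (E := E) hη
  have hc2 := continuous_hatV v
  apply integral_mono
  · apply integrable_of_cont
    fun_prop
  · apply integrable_of_cont
    fun_prop
  · intro θ
    apply mul_le_mul_of_nonneg_right _ (by positivity)
    exact inv_anti₀ hη (md_ge hη θ)

theorem kap_pos (E : ℝ) {η : ℝ} (hη : 0 < η) : 0 < kap d E η := by
  unfold kap
  apply Continuous.integral_pos_of_hasCompactSupport_nonneg_nonzero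
    (x := (0 : UnitAddTorus (Fin d))) (continuous_inv_md hη)
    (HasCompactSupport.of_compactSpace _)
  · intro θ
    exact (inv_pos.2 (md_pos hη θ)).le
  · exact (inv_pos.2 (md_pos hη _)).ne'

theorem hatS_mono {Λ Λ' : Finset (Site d)} (h : Λ ⊆ Λ') {w : Site d → ℂ}
    (hw : ∀ y ∉ Λ, w y = 0) (θ : UnitAddTorus (Fin d)) : hatS Λ' w θ = hatS Λ w θ := by
  unfold hatS
  symm
  apply Finset.sum_subset h
  intro y _ hy
  rw [hw y hy, zero_mul]

/-- the residual `(Δ + D - z) w` -/
def res (D : Site d → ℝ) (z : ℂ) (w : Site d → ℂ) (y : Site d) : ℂ :=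
  lap w y + (D y : ℂ) * w y - z * w y

theorem det_N2 {Λ Λ' : Finset (Site d)} {w : Site d → ℂ} (hw : ∀ y ∉ Λ, w y = 0)
    (hΛ : Λ ⊆ Λ') (h : ∀ y ∈ Λ, ∀ i, y - Pi.single i 1 ∈ Λ' ∧ y + Pi.single i 1 ∈ Λ')
    {D : Site d → ℝ} {E η : ℝ} (hη : 0 < η) {C : Matrix Λ Λ ℂ} (hC : C.IsHermitian)
    (hCK : C * C = Kmat Λ E η)
    (hX : ∀ v : Λ → ℂ, nsq (XM C (fun y => D y) *ᵥ v) ≤ 1 / 4 * nsq v) :
    ∫ θ, md E η θ * ‖hatV (fun y : Λ => w y) θ‖ ^ 2 ≤
      4 * η⁻¹ * ∑ y ∈ Λ', ‖res D (E + η * Complex.I) w y‖ ^ 2 := by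
  set z : ℂ := E + η * Complex.I with hz
  set uu : Site d → ℂ := res D z w with hu
  set m : UnitAddTorus (Fin d) → ℝ := md E η with hm
  have hmpos : ∀ θ, 0 < m θ := fun θ => md_pos hη θ
  have hmge : ∀ θ, η ≤ m θ := fun θ => md_ge hη θ
  have cm : Continuous m := continuous_md E η
  have cim : Continuous fun θ => (m θ)⁻¹ := continuous_inv_md hη
  set wv : Λ → ℂ := fun y => w y with hwv
  set bv : Λ → ℂ := fun y => D y * w y with hbv
  have cw := continuous_hatV wv
  have cb := continuous_hatV bv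
  have cu := continuous_hatS Λ' uu
  -- Fourier identity
  have hF : ∀ θ, hatS Λ' uu θ = (((sy θ : ℝ) : ℂ) - z) * hatV wv θ + hatV bv θ := by
    intro θ
    have e1 : hatS Λ' uu θ = hatS Λ' (lap w) θ + hatS Λ' (fun y => D y * w y) θ -
        z * hatS Λ' w θ := by
      unfold hatS
      rw [Finset.mul_sum, ← Finset.sum_add_distrib, ← Finset.sum_sub_distrib]
      apply Finset.sum_congr rfl
      intro y _
      simp only [hu, res]
      ring
    rw [e1, hat_lap hw h, hatS_mono hΛ hw, hatS_mono hΛ (fun y hy => by rw [hw y hy, mul_zero]),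
      hatS_eq_hatV, hatS_eq_hatV]
    ring
  set N2 : ℝ := ∫ θ, m θ * ‖hatV wv θ‖ ^ 2 with hN2
  set U2 : ℝ := ∑ y ∈ Λ', ‖uu y‖ ^ 2 with hU2
  have hU2' : ∫ θ, (m θ)⁻¹ * ‖hatS Λ' uu θ‖ ^ 2 ≤ η⁻¹ * U2 := by
    rw [hU2, ← parsevalS, ← integral_const_mul]
    apply integral_mono
    · apply integrable_of_cont
      fun_prop
    · apply integrable_of_cont
      fun_prop
    · intro θ
      apply mul_le_mul_of_nonneg_right _ (by positivity)
      exact inv_anti₀ hη (hmge θ)
  set B : ℝ := ∫ θ, (m θ)⁻¹ * ‖hatV bv θ‖ ^ 2 with hB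
  have hN2le : N2 ≤ 2 * (η⁻¹ * U2) + 2 * B := by
    have h1 : N2 ≤ ∫ θ, (2 * ((m θ)⁻¹ * ‖hatS Λ' uu θ‖ ^ 2) +
        2 * ((m θ)⁻¹ * ‖hatV bv θ‖ ^ 2)) := by
      apply integral_mono
      · apply integrable_of_cont
        fun_prop
      · apply integrable_of_cont
        fun_prop
      · intro θ
        have h2 : m θ * ‖hatV wv θ‖ = ‖hatS Λ' uu θ - hatV bv θ‖ := by
          rw [hF θ, add_sub_cancel_right, norm_mul, hz, norm_sy_sub]
        have h3 : ‖hatS Λ' uu θ - hatV bv θ‖ ≤ ‖hatS Λ' uu θ‖ + ‖hatV bv θ‖ := norm_sub_le _ _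
        have hmp := hmpos θ
        have h4 : m θ * ‖hatV wv θ‖ ^ 2 = (m θ)⁻¹ * (m θ * ‖hatV wv θ‖) ^ 2 := by
          field_simp
        have h5 : (m θ * ‖hatV wv θ‖) ^ 2 ≤ 2 * ‖hatS Λ' uu θ‖ ^ 2 + 2 * ‖hatV bv θ‖ ^ 2 := by
          rw [h2]
          nlinarith only [norm_nonneg (hatS Λ' uu θ - hatV bv θ), norm_nonneg (hatS Λ' uu θ),
            norm_nonneg (hatV bv θ), sq_nonneg (‖hatS Λ' uu θ‖ - ‖hatV bv θ‖), h3]
        simp only
        rw [h4]
        have := mul_le_mul_of_nonneg_left h5 (inv_pos.2 hmp).le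
        linarith only [this]
    rw [integral_add, integral_const_mul, integral_const_mul] at h1
    · linarith only [hU2', h1]
    · apply integrable_of_cont
      fun_prop
    · apply integrable_of_cont
      fun_prop
  -- the matrix part
  have hform : ∀ v : Λ → ℂ, nsq (C *ᵥ v) = ∫ θ, (m θ)⁻¹ * ‖hatV v θ‖ ^ 2 := by
    intro v
    rw [← Kmat_form_re Λ hη, ← hCK]
    have h1 := star_dot_self (C *ᵥ v)
    rw [star_mulVec, ← dotProduct_mulVec, mulVec_mulVec, hC.eq] at h1
    rw [h1, Complex.ofReal_re]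
  set a : Λ → ℂ := C *ᵥ bv with ha
  have haB : nsq a = B := hform bv
  set c : Λ → ℂ := diagonal (fun y : Λ => ((D y : ℝ) : ℂ)) *ᵥ (C *ᵥ a) with hc
  have hbd : bv = diagonal (fun y : Λ => ((D y : ℝ) : ℂ)) *ᵥ wv := by
    funext y
    rw [mulVec_diagonal]
  have hCc : C *ᵥ c = XM C (fun y => D y) *ᵥ a := by
    rw [hc]
    unfold XM
    rw [← mulVec_mulVec, ← mulVec_mulVec]
  have cc := continuous_hatV c
  have hpair : (nsq a : ℂ) = ∫ θ, conj (hatV wv θ) * hatV c θ := by
    rw [integral_hatV, ← star_dot_self]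
    have h1 : star a ⬝ᵥ a = star wv ⬝ᵥ c := by
      conv_lhs => rw [ha]
      rw [star_mulVec, ← dotProduct_mulVec, hC.eq, ← ha, hbd, star_mulVec, ← dotProduct_mulVec, hc]
      congr 2
      rw [diagonal_conjTranspose]
      congr 1
      funext y
      simp
    rw [h1]
    rfl
  have hle : nsq a ≤ 1 / 8 * N2 + 2 * nsq (C *ᵥ c) := by
    have h1 : nsq a = ‖∫ θ, conj (hatV wv θ) * hatV c θ‖ := by
      rw [← hpair, Complex.norm_real, Real.norm_eq_abs, abs_of_nonneg (nsq_nonneg a)]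
    rw [h1, hform c]
    refine (norm_integral_le_integral_norm _).trans ?_
    rw [hN2, ← integral_const_mul, ← integral_const_mul, ← integral_add]
    · apply integral_mono
      · apply integrable_of_cont
        fun_prop
      · apply integrable_of_cont
        fun_prop
      · intro θ
        have hmp := hmpos θ
        simp only
        rw [norm_mul, RCLike.norm_conj]
        have h2 : 1 / 8 * (m θ * ‖hatV wv θ‖ ^ 2) + 2 * ((m θ)⁻¹ * ‖hatV c θ‖ ^ 2) -
            ‖hatV wv θ‖ * ‖hatV c θ‖ =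
            (m θ)⁻¹ / 8 * (m θ * ‖hatV wv θ‖ - 4 * ‖hatV c θ‖) ^ 2 := by
          field_simp
          ring
        have h3 : 0 ≤ (m θ)⁻¹ / 8 * (m θ * ‖hatV wv θ‖ - 4 * ‖hatV c θ‖) ^ 2 := by
          have := inv_pos.2 hmp
          positivity
        linarith only [h2, h3]
    · apply integrable_of_cont
      fun_prop
    · apply integrable_of_cont
      fun_prop
  have hXa := hX a
  rw [← hCc] at hXa
  have hN2nn : 0 ≤ N2 := by
    apply integral_nonneg
    intro θ
    have := hmpos θ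
    positivity
  have haN : nsq a ≤ N2 / 4 := by linarith only [hle, hXa]
  have hN2fin : N2 ≤ 4 * η⁻¹ * U2 := by
    rw [haB] at haN
    linarith only [hN2le, haB, hle, hXa]
  exact hN2fin

/-- the weighted energy controls point values -/
theorem sup_of_N2 {Λ : Finset (Site d)} {w : Site d → ℂ} (hw : ∀ y ∉ Λ, w y = 0)
    {E η : ℝ} (hη : 0 < η) (x : Site d) :
    ‖w x‖ ^ 2 ≤ kap d E η * ∫ θ, md E η θ * ‖hatV (fun y : Λ => w y) θ‖ ^ 2 := by
  set m : UnitAddTorus (Fin d) → ℝ := md E η with hm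
  have hmpos : ∀ θ, 0 < m θ := fun θ => md_pos hη θ
  have cm : Continuous m := continuous_md E η
  have cim : Continuous fun θ => (m θ)⁻¹ := continuous_inv_md hη
  set wv : Λ → ℂ := fun y => w y with hwv
  have cw := continuous_hatV wv
  set N2 : ℝ := ∫ θ, m θ * ‖hatV wv θ‖ ^ 2 with hN2
  have hN2nn : 0 ≤ N2 := by
    apply integral_nonneg
    intro θ
    have := hmpos θ
    positivity
  -- evaluation at x
  have hwx : ‖w x‖ ≤ ∫ θ, ‖hatV wv θ‖ := by
    rw [← integral_ch_hatS hw x]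
    refine (norm_integral_le_integral_norm _).trans (le_of_eq ?_)
    apply integral_congr_ae
    filter_upwards with θ
    rw [norm_mul, RCLike.norm_conj, norm_ch, one_mul, hatS_eq_hatV]
  have hκ := kap_pos (d := d) E hη
  have hfin : ‖w x‖ ^ 2 ≤ kap d E η * N2 := by
    rcases (norm_nonneg (w x)).eq_or_lt with h0 | h0
    · rw [← h0]
      have := mul_nonneg hκ.le hN2nn
      simpa using this
    · have ht : ∀ t : ℝ, 0 < t → ∫ θ, ‖hatV wv θ‖ ≤ t / 2 * kap d E η + 1 / (2 * t) * N2 := by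
        intro t ht
        rw [hN2]
        unfold kap
        rw [← integral_const_mul, ← integral_const_mul, ← integral_add]
        · apply integral_mono
          · apply integrable_of_cont
            fun_prop
          · apply integrable_of_cont
            fun_prop
          · intro θ
            have hmp := hmpos θ
            simp only
            have h2 : t / 2 * (m θ)⁻¹ + 1 / (2 * t) * (m θ * ‖hatV wv θ‖ ^ 2) -
                ‖hatV wv θ‖ = (m θ)⁻¹ / (2 * t) * (t - m θ * ‖hatV wv θ‖) ^ 2 := by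
              field_simp
              ring
            have h3 : 0 ≤ (m θ)⁻¹ / (2 * t) * (t - m θ * ‖hatV wv θ‖) ^ 2 := by
              have := inv_pos.2 hmp
              positivity
            linarith only [h2, h3]
        · apply integrable_of_cont
          fun_prop
        · apply integrable_of_cont
          fun_prop
      have h1 := ht (‖w x‖ / kap d E η) (by positivity)
      have h2 : ‖w x‖ / kap d E η / 2 * kap d E η = ‖w x‖ / 2 := by
        field_simp
      have h3 : 1 / (2 * (‖w x‖ / kap d E η)) * N2 = kap d E η * N2 / (2 * ‖w x‖) := by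
        field_simp
      rw [h2, h3] at h1
      have h4 : ‖w x‖ / 2 ≤ kap d E η * N2 / (2 * ‖w x‖) := by linarith only [hwx, h1]
      rw [le_div_iff₀ (by positivity)] at h4
      nlinarith only [h4]
  exact hfin

theorem det_bound {Λ Λ' : Finset (Site d)} {w : Site d → ℂ} (hw : ∀ y ∉ Λ, w y = 0)
    (hΛ : Λ ⊆ Λ') (h : ∀ y ∈ Λ, ∀ i, y - Pi.single i 1 ∈ Λ' ∧ y + Pi.single i 1 ∈ Λ')
    {D : Site d → ℝ} {E η : ℝ} (hη : 0 < η) {C : Matrix Λ Λ ℂ} (hC : C.IsHermitian)
    (hCK : C * C = Kmat Λ E η)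
    (hX : ∀ v : Λ → ℂ, nsq (XM C (fun y => D y) *ᵥ v) ≤ 1 / 4 * nsq v) (x : Site d) :
    ‖w x‖ ^ 2 ≤ kap d E η *
      (4 * η⁻¹ * ∑ y ∈ Λ', ‖res D (E + η * Complex.I) w y‖ ^ 2) :=
  (sup_of_N2 hw hη x).trans (mul_le_mul_of_nonneg_left (det_N2 hw hΛ h hη hC hCK hX)
    (kap_pos (d := d) E hη).le)

end Pool.Agent.Anderson
end
end -- Pool.Agent.Helper17_Anderson.Det

section -- Pool.Agent.Helper17_Anderson.Dos

/-!
# Boundedness of the density of states of the lattice Laplacian in dimension `≥ 3`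
-/

set_option autoImplicit false

open MeasureTheory Set Real Function

open scoped ENNReal ComplexConjugate

noncomputable section

namespace Pool.Agent.Anderson

local instance haarMS3 : MeasureSpace UnitAddCircle := ⟨AddCircle.haarAddCircle⟩

local instance haarAHDos : Measure.IsAddHaarMeasure (volume : Measure UnitAddCircle) :=
  inferInstanceAs (Measure.IsAddHaarMeasure AddCircle.haarAddCircle)

local instance haarPMDos : IsProbabilityMeasure (volume : Measure UnitAddCircle) :=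
  inferInstanceAs (IsProbabilityMeasure AddCircle.haarAddCircle)

/-- partial sums of `2 cos` outside `s` -/
def Rs {d : ℕ} (s : Finset (Fin d)) (x : Fin d → UnitAddCircle) : ℝ := ∑ j ∈ sᶜ, c2 (x j)

theorem measurable_Rs {d : ℕ} (s : Finset (Fin d)) : Measurable (Rs s) := by
  unfold Rs
  have := measurable_c2
  fun_prop

theorem Rs_update {d : ℕ} {s : Finset (Fin d)} {i : Fin d} (hi : i ∉ s)
    (x : Fin d → UnitAddCircle) (y : UnitAddCircle) :
    Rs s (update x i y) = c2 y + Rs (insert i s) x := by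
  unfold Rs
  have h : sᶜ = insert i (insert i s)ᶜ := by
    ext j
    simp only [Finset.mem_compl, Finset.mem_insert]
    constructor
    · intro h
      by_cases hj : j = i
      · exact Or.inl hj
      · right; rintro (h' | h')
        · exact hj h'
        · exact h h'
    · rintro (h | h)
      · rw [h]; exact hi
      · intro h'; exact h (Or.inr h')
  rw [h, Finset.sum_insert (by simp), update_self]
  congr 1
  apply Finset.sum_congr rfl
  intro j hj
  have : j ≠ i := by
    rintro rfl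
    simp at hj
  rw [update_of_ne this]

theorem dos_bound {d : ℕ} (hd : 3 ≤ d) {η : ℝ} (hη : 0 < η) (E : ℝ) :
    ∫⁻ θ : UnitAddTorus (Fin d), ENNReal.ofReal (ker η ((∑ i, c2 (θ i)) - E)) ≤
      ENNReal.ofReal π * 128 := by
  set i0 : Fin d := ⟨0, by omega⟩ with hi0
  set i1 : Fin d := ⟨1, by omega⟩ with hi1
  set i2 : Fin d := ⟨2, by omega⟩ with hi2
  have h01 : i0 ≠ i1 := by simp [hi0, hi1]
  have h02 : i0 ≠ i2 := by simp [hi0, hi2]
  have h12 : i1 ≠ i2 := by simp [hi1, hi2]
  have mc := measurable_c2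
  have mW2 := measurable_W (1/2)
  have mW4 := measurable_W (1/4)
  set f : (Fin d → UnitAddCircle) → ℝ≥0∞ := fun θ => ENNReal.ofReal (ker η (Rs ∅ θ - E)) with hf
  have hfm : Measurable f := by
    have := measurable_Rs (d := d) ∅
    simp only [hf, ker]
    fun_prop
  set f1 : (Fin d → UnitAddCircle) → ℝ≥0∞ := fun θ => ENNReal.ofReal π *
    (W (1/2) (E - 2 - Rs {i0} θ) + W (1/2) (E + 2 - Rs {i0} θ)) with hf1
  have hf1m : Measurable f1 := by
    have := measurable_Rs (d := d) {i0}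
    simp only [hf1]
    fun_prop
  set f2 : (Fin d → UnitAddCircle) → ℝ≥0∞ := fun θ => ENNReal.ofReal π *
    (8 * (W (1/4) (E - 4 - Rs {i1, i0} θ) + W (1/4) (E - Rs {i1, i0} θ)) +
     8 * (W (1/4) (E - Rs {i1, i0} θ) + W (1/4) (E + 4 - Rs {i1, i0} θ))) with hf2
  have hf2m : Measurable f2 := by
    have := measurable_Rs (d := d) {i1, i0}
    simp only [hf2]
    fun_prop
  have s1 : ∀ x, ∫⁻ y : UnitAddCircle, f (update x i0 y) ≤ f1 x := by
    intro x
    have : ∀ y, f (update x i0 y) = ENNReal.ofReal (ker η (c2 y - (E - Rs {i0} x))) := by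
      intro y
      simp only [hf]
      rw [Rs_update (by simp), show (insert i0 ∅ : Finset (Fin d)) = {i0} from rfl]
      congr 2
      ring
    simp_rw [this]
    refine (lintegral_P hη _).trans (le_of_eq ?_)
    simp only [hf1]
    rw [show E - Rs {i0} x - 2 = E - 2 - Rs {i0} x by ring,
      show E - Rs {i0} x + 2 = E + 2 - Rs {i0} x by ring]
  have s2 : ∀ x, ∫⁻ y : UnitAddCircle, f1 (update x i1 y) ≤ f2 x := by
    intro x
    have h : ∀ y, Rs {i0} (update x i1 y) = c2 y + Rs {i1, i0} x := by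
      intro y; rw [Rs_update (by simp [h01.symm])]
    simp only [hf1, h]
    rw [lintegral_const_mul _ (by fun_prop), lintegral_add_left (by fun_prop)]
    simp only [hf2]
    gcongr
    · have := lintegral_Q (E - 2 - Rs {i1, i0} x)
      have e1 : ∀ y, E - 2 - Rs {i1, i0} x - c2 y = E - 2 - (c2 y + Rs {i1, i0} x) := fun y => by ring
      simp_rw [e1] at this
      refine this.trans (le_of_eq ?_)
      congr 3 <;> ring
    · have := lintegral_Q (E + 2 - Rs {i1, i0} x)
      have e1 : ∀ y, E + 2 - Rs {i1, i0} x - c2 y = E + 2 - (c2 y + Rs {i1, i0} x) := fun y => by ring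
      simp_rw [e1] at this
      refine this.trans (le_of_eq ?_)
      congr 3 <;> ring
  have s3 : ∀ x, ∫⁻ y : UnitAddCircle, f2 (update x i2 y) ≤ ENNReal.ofReal π * 128 := by
    intro x
    have h : ∀ y, Rs {i1, i0} (update x i2 y) = c2 y + Rs {i2, i1, i0} x := by
      intro y; rw [Rs_update (by simp [h02.symm, h12.symm])]
    simp only [hf2, h]
    have hR : ∀ b : ℝ, ∫⁻ y : UnitAddCircle, W (1/4) (b - (c2 y + Rs {i2, i1, i0} x)) ≤ 4 := by
      intro b
      have := lintegral_R (b - Rs {i2, i1, i0} x)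
      have e1 : ∀ y, b - Rs {i2, i1, i0} x - c2 y = b - (c2 y + Rs {i2, i1, i0} x) := fun y => by ring
      simp_rw [e1] at this
      exact this
    rw [lintegral_const_mul _ (by fun_prop), lintegral_add_left (by fun_prop),
      lintegral_const_mul _ (by fun_prop), lintegral_const_mul _ (by fun_prop),
      lintegral_add_left (by fun_prop), lintegral_add_left (by fun_prop)]
    calc _ ≤ ENNReal.ofReal π * (8 * (4 + 4) + 8 * (4 + 4)) := by
          gcongr <;> apply hR
      _ = ENNReal.ofReal π * 128 := by norm_num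
  have hvol : ∫⁻ θ : UnitAddTorus (Fin d), ENNReal.ofReal (ker η ((∑ i, c2 (θ i)) - E)) =
      ∫⁻ θ, f θ ∂(Measure.pi (fun _ : Fin d => (volume : Measure UnitAddCircle))) := by
    have : ∀ θ : Fin d → UnitAddCircle, f θ = ENNReal.ofReal (ker η ((∑ i, c2 (θ i)) - E)) := by
      intro θ
      simp only [hf, Rs, Finset.compl_empty]
    simp_rw [this]
    rfl
  rw [hvol]
  set μ : ∀ _ : Fin d, Measure UnitAddCircle := fun _ => volume with hμ
  have key : ∫⋯∫⁻_({i0, i1, i2} : Finset (Fin d)), f ∂μ ≤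
      ∫⋯∫⁻_({i0, i1, i2} : Finset (Fin d)), (fun _ => ENNReal.ofReal π * 128) ∂μ := by
    have e3 : ∫⋯∫⁻_({i0, i1, i2} : Finset (Fin d)), (fun _ => ENNReal.ofReal π * 128) ∂μ =
        fun _ => ENNReal.ofReal π * 128 := by
      funext x
      simp only [lmarginal, lintegral_const, measure_univ, mul_one]
    rw [e3]
    calc ∫⋯∫⁻_({i0, i1, i2} : Finset (Fin d)), f ∂μ
        = ∫⋯∫⁻_({i1, i2} : Finset (Fin d)),
          (fun x ↦ ∫⁻ y, f (update x i0 y) ∂μ i0) ∂μ :=
          lmarginal_insert' f hfm (by simp [h01, h02])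
      _ ≤ ∫⋯∫⁻_({i1, i2} : Finset (Fin d)), f1 ∂μ := lmarginal_mono s1
      _ = ∫⋯∫⁻_({i2} : Finset (Fin d)),
          (fun x ↦ ∫⁻ y, f1 (update x i1 y) ∂μ i1) ∂μ :=
          lmarginal_insert' f1 hf1m (by simp [h12])
      _ ≤ ∫⋯∫⁻_({i2} : Finset (Fin d)), f2 ∂μ := lmarginal_mono s2
      _ = fun x ↦ ∫⁻ y, f2 (update x i2 y) ∂μ i2 := lmarginal_singleton f2 i2
      _ ≤ fun _ => ENNReal.ofReal π * 128 := s3
  have := lintegral_le_of_lmarginal_le (μ := μ) {i0, i1, i2} hfm measurable_const key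
  refine this.trans (le_of_eq ?_)
  rw [lintegral_const, measure_univ, mul_one]

end Pool.Agent.Anderson
end
end -- Pool.Agent.Helper17_Anderson.Dos

section -- Pool.Agent.Helper17_Anderson.Kappa

/-!
# Logarithmic bound for the diagonal of `|Δ - z|⁻¹`
-/

set_option autoImplicit false

open MeasureTheory Set Real Function Matrix

open scoped ENNReal ComplexConjugate ComplexOrder

noncomputable section

namespace Pool.Agent.Anderson

local instance haarMS6 : MeasureSpace UnitAddCircle := ⟨AddCircle.haarAddCircle⟩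

local instance haarAHKappa : Measure.IsAddHaarMeasure (volume : Measure UnitAddCircle) :=
  inferInstanceAs (Measure.IsAddHaarMeasure AddCircle.haarAddCircle)

local instance haarPMKappa : IsProbabilityMeasure (volume : Measure UnitAddCircle) :=
  inferInstanceAs (IsProbabilityMeasure AddCircle.haarAddCircle)

variable {d : ℕ}

theorem continuous_ker {η : ℝ} (hη : 0 < η) : Continuous (ker η) := by
  unfold ker
  apply continuous_const.div (by fun_prop)
  intro x
  positivity

theorem integral_ker_le (hd : 3 ≤ d) {η : ℝ} (hη : 0 < η) (E : ℝ) :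
    ∫ θ : UnitAddTorus (Fin d), ker η (sy θ - E) ≤ 128 * π := by
  have hc : Continuous fun θ : UnitAddTorus (Fin d) => ker η (sy θ - E) := by
    have h1 := continuous_ker hη
    have h2 := continuous_sy (d := d)
    fun_prop
  rw [integral_eq_lintegral_of_nonneg_ae (Filter.Eventually.of_forall fun θ => ker_nonneg hη _)
    hc.aestronglyMeasurable]
  apply ENNReal.toReal_le_of_le_ofReal (by positivity)
  refine (dos_bound hd hη E).trans (le_of_eq ?_)
  rw [mul_comm 128 π, ENNReal.ofReal_mul Real.pi_pos.le]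
  norm_num

theorem inv_sqrt_le {η : ℝ} (hη : 0 < η) {n : ℕ} (hn : 1 ≤ 2 ^ n * η) (x : ℝ) :
    (√(x ^ 2 + η ^ 2))⁻¹ ≤ 1 + 4 * ∑ k ∈ Finset.range (n + 1), ker (2 ^ k * η) x := by
  have hkn : ∀ k : ℕ, 0 ≤ ker (2 ^ k * η) x := fun k => ker_nonneg (by positivity) x
  have hsum : 0 ≤ ∑ k ∈ Finset.range (n + 1), ker (2 ^ k * η) x :=
    Finset.sum_nonneg fun k _ => hkn k
  have hs : |x| ≤ √(x ^ 2 + η ^ 2) := by
    apply Real.le_sqrt_of_sq_le
    rw [sq_abs]; nlinarith only
  have hs2 : η ≤ √(x ^ 2 + η ^ 2) := by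
    apply Real.le_sqrt_of_sq_le
    nlinarith only [sq_nonneg x]
  rcases le_or_gt |x| 1 with hx | hx
  · -- minimal k
    have hex : ∃ k : ℕ, |x| ≤ 2 ^ k * η := ⟨n, hx.trans hn⟩
    classical
    set k := Nat.find hex with hk
    have hk1 : |x| ≤ 2 ^ k * η := Nat.find_spec hex
    have hkle : k ≤ n := Nat.find_min' hex (hx.trans hn)
    have hker : 1 / (2 * (2 ^ k * η)) ≤ ker (2 ^ k * η) x := by
      unfold ker
      rw [div_le_div_iff₀ (by positivity) (by positivity)]
      have : x ^ 2 ≤ (2 ^ k * η) ^ 2 := by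
        rw [← sq_abs]; exact pow_le_pow_left₀ (abs_nonneg _) hk1 2
      nlinarith only [this]
    have hone : ker (2 ^ k * η) x ≤ ∑ k ∈ Finset.range (n + 1), ker (2 ^ k * η) x :=
      Finset.single_le_sum (f := fun k => ker (2 ^ k * η) x) (fun j _ => hkn j)
        (Finset.mem_range.2 (by omega))
    have hmain : (√(x ^ 2 + η ^ 2))⁻¹ ≤ 4 * (1 / (2 * (2 ^ k * η))) := by
      rcases Nat.eq_zero_or_pos k with h0 | h0
      · rw [h0, pow_zero, one_mul]
        have h1 : (√(x ^ 2 + η ^ 2))⁻¹ ≤ η⁻¹ := inv_anti₀ hη hs2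
        have h2 : 4 * (1 / (2 * η)) = 2 * η⁻¹ := by field_simp; norm_num
        rw [h2]
        have := inv_pos.2 hη
        linarith only [h1, this]
      · have h1 : ¬ |x| ≤ 2 ^ (k - 1) * η := Nat.find_min hex (by omega)
        push Not at h1
        have h2 : (2:ℝ) ^ k = 2 * 2 ^ (k - 1) := by
          rw [← pow_succ']; congr 1; omega
        have hp : 0 < 2 ^ (k - 1) * η := by positivity
        have h3 : (√(x ^ 2 + η ^ 2))⁻¹ ≤ (2 ^ (k - 1) * η)⁻¹ := inv_anti₀ hp (h1.le.trans hs)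
        refine h3.trans (le_of_eq ?_)
        rw [h2]
        field_simp
        norm_num
    linarith only [hker, hone, hmain]
  · have h1 : (√(x ^ 2 + η ^ 2))⁻¹ ≤ 1 := inv_le_one_of_one_le₀ (hx.le.trans hs)
    linarith only [hsum, h1]

theorem kap_le (hd : 3 ≤ d) (E : ℝ) {η : ℝ} (hη : 0 < η) (hη1 : η ≤ 1) :
    kap d E η ≤ (1 + 1024 * π) * (1 + Real.log (1 / η)) := by
  set n : ℕ := ⌈Real.logb 2 (1 / η)⌉₊ with hn
  have hl0 : 0 ≤ Real.log (1 / η) := Real.log_nonneg (by
    rw [le_div_iff₀ hη]; linarith only [hη1])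
  have hn1 : 1 ≤ 2 ^ n * η := by
    have h1 : Real.logb 2 (1 / η) ≤ n := Nat.le_ceil _
    have h2 : (1 / η) ≤ (2:ℝ) ^ (n:ℝ) := by
      rw [← Real.logb_le_iff_le_rpow (by norm_num) (by positivity)]
      exact h1
    rw [Real.rpow_natCast] at h2
    rw [div_le_iff₀ hη] at h2
    exact h2
  have hn2 : (n : ℝ) + 1 ≤ 2 * (1 + Real.log (1 / η)) := by
    have h1 : (n : ℝ) < Real.logb 2 (1 / η) + 1 := by
      apply Nat.ceil_lt_add_one
      exact Real.logb_nonneg (by norm_num) (by rw [le_div_iff₀ hη]; linarith only [hη1])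
    have h2 : Real.logb 2 (1 / η) ≤ 2 * Real.log (1 / η) := by
      unfold Real.logb
      rw [div_le_iff₀ (Real.log_pos (by norm_num))]
      have := Real.log_two_gt_d9
      nlinarith only [hl0, this]
    linarith only [h1, h2]
  have hc : ∀ k : ℕ, Continuous fun θ : UnitAddTorus (Fin d) => ker (2 ^ k * η) (sy θ - E) := by
    intro k
    have h1 := continuous_ker (η := 2 ^ k * η) (by positivity)
    have h2 := continuous_sy (d := d)
    fun_prop
  have h1 : kap d E η ≤ ∫ θ : UnitAddTorus (Fin d),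
      (1 + 4 * ∑ k ∈ Finset.range (n + 1), ker (2 ^ k * η) (sy θ - E)) := by
    unfold kap
    apply integral_mono
    · exact integrable_of_cont (continuous_inv_md hη)
    · apply integrable_of_cont
      fun_prop
    · intro θ
      exact inv_sqrt_le hη hn1 _
  have h2 : ∫ θ : UnitAddTorus (Fin d),
      (1 + 4 * ∑ k ∈ Finset.range (n + 1), ker (2 ^ k * η) (sy θ - E)) =
      1 + 4 * ∑ k ∈ Finset.range (n + 1), ∫ θ : UnitAddTorus (Fin d), ker (2 ^ k * η) (sy θ - E) := by
    rw [integral_add (integrable_const _), integral_const_mul, integral_finsetSum]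
    · simp
    · intro k _
      exact integrable_of_cont (hc k)
    · apply integrable_of_cont
      fun_prop
  have h3 : ∑ k ∈ Finset.range (n + 1), ∫ θ : UnitAddTorus (Fin d), ker (2 ^ k * η) (sy θ - E) ≤
      (n + 1) * (128 * π) := by
    refine (Finset.sum_le_sum fun k _ => integral_ker_le hd (by positivity) E).trans (le_of_eq ?_)
    rw [Finset.sum_const, Finset.card_range, nsmul_eq_mul]
    push_cast
    ring
  have hpi := Real.pi_pos
  rw [h2] at h1
  have h4 : (n + 1 : ℝ) * (128 * π) ≤ 2 * (1 + Real.log (1 / η)) * (128 * π) :=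
    mul_le_mul_of_nonneg_right hn2 (by positivity)
  nlinarith only [hl0, h1, h3, h4]

end Pool.Agent.Anderson
end
end -- Pool.Agent.Helper17_Anderson.Kappa

section -- Pool.Agent.Helper17_Anderson.Cutoff

/-!
# Cutting off quasimodes
-/

set_option autoImplicit false

open MeasureTheory Set Real Function Matrix

open scoped ENNReal ComplexConjugate ComplexOrder

noncomputable section

namespace Pool.Agent.Anderson

local instance haarMS7 : MeasureSpace UnitAddCircle := ⟨AddCircle.haarAddCircle⟩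

local instance haarAHCutoff : Measure.IsAddHaarMeasure (volume : Measure UnitAddCircle) :=
  inferInstanceAs (Measure.IsAddHaarMeasure AddCircle.haarAddCircle)

local instance haarPMCutoff : IsProbabilityMeasure (volume : Measure UnitAddCircle) :=
  inferInstanceAs (IsProbabilityMeasure AddCircle.haarAddCircle)

variable {d : ℕ}

/-- box of radius `n` about `x` -/
def box (x : Site d) (n : ℕ) : Finset (Site d) :=
  Finset.Icc (fun i => x i - n) (fun i => x i + n)

theorem mem_box {x : Site d} {n : ℕ} {y : Site d} : y ∈ box x n ↔ ∀ i, |y i - x i| ≤ n := by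
  unfold box
  rw [Finset.mem_Icc]
  constructor
  · rintro ⟨h1, h2⟩ i
    have := h1 i
    have := h2 i
    rw [abs_le]
    constructor <;> simp only at * <;> linarith
  · intro h
    constructor
    · intro i
      have := abs_le.1 (h i)
      simp only; linarith
    · intro i
      have := abs_le.1 (h i)
      simp only; linarith

theorem card_box (x : Site d) (n : ℕ) : (box x n).card = (2 * n + 1) ^ d := by
  unfold box
  rw [Pi.card_Icc]
  simp only [Int.card_Icc]
  have : ∀ i : Fin d, (x i + n + 1 - (x i - n)).toNat = 2 * n + 1 := by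
    intro i
    omega
  simp [this]

theorem norm_single_le (i : Fin d) (c : ℤ) (hc : ‖c‖ ≤ 1) : ‖(Pi.single i c : Site d)‖ ≤ 1 := by
  rw [pi_norm_le_iff_of_nonneg zero_le_one]
  intro j
  by_cases h : j = i
  · subst h; simpa using hc
  · rw [Pi.single_eq_of_ne h]; simp

/-- cutoff function -/
def cut (η : ℝ) (x y : Site d) : ℝ := max 0 (1 - η * ‖y - x‖)

theorem cut_nonneg (η : ℝ) (x y : Site d) : 0 ≤ cut η x y := le_max_left _ _

theorem cut_le_one {η : ℝ} (hη : 0 < η) (x y : Site d) : cut η x y ≤ 1 := by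
  unfold cut
  apply max_le zero_le_one
  have : 0 ≤ η * ‖y - x‖ := by positivity
  linarith

theorem cut_self (η : ℝ) (x : Site d) : cut η x x = 1 := by
  unfold cut
  simp

theorem cut_lip {η : ℝ} (hη : 0 < η) (x y e : Site d) (he : ‖e‖ ≤ 1) :
    |cut η x (y + e) - cut η x y| ≤ η := by
  unfold cut
  have h1 : |max 0 (1 - η * ‖y + e - x‖) - max 0 (1 - η * ‖y - x‖)| ≤
      |(1 - η * ‖y + e - x‖) - (1 - η * ‖y - x‖)| := by
    rw [max_comm, max_comm (0:ℝ)]
    exact abs_max_sub_max_le_abs _ _ _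
  refine h1.trans ?_
  rw [show (1 - η * ‖y + e - x‖) - (1 - η * ‖y - x‖) = -(η * (‖y + e - x‖ - ‖y - x‖)) by ring,
    abs_neg, abs_mul, abs_of_pos hη]
  have h2 : |‖y + e - x‖ - ‖y - x‖| ≤ ‖e‖ := by
    refine (abs_norm_sub_norm_le _ _).trans (le_of_eq ?_)
    congr 1
    abel
  nlinarith only [hη, he, h2]

theorem cut_support {η : ℝ} (hη : 0 < η) {n : ℕ} (hn : 1 / η < n + 1) {x y : Site d}
    (hy : y ∉ box x n) : cut η x y = 0 := by
  rw [mem_box] at hy
  push Not at hy
  obtain ⟨i, hi⟩ := hy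
  have h1 : (n : ℤ) + 1 ≤ |y i - x i| := by omega
  have h2 : ‖(y - x) i‖ ≤ ‖y - x‖ := norm_le_pi_norm _ i
  have h3 : ((n : ℝ) + 1) ≤ ‖(y - x) i‖ := by
    rw [Int.norm_eq_abs, Pi.sub_apply]
    have : (((n : ℤ) + 1 : ℤ) : ℝ) ≤ ((|y i - x i| : ℤ) : ℝ) := by exact_mod_cast h1
    push_cast at this ⊢
    exact this
  unfold cut
  apply max_eq_left
  rw [div_lt_iff₀ hη] at hn
  nlinarith only [hη, hn, h2, h3]

theorem cut_res_bound {V D : Site d → ℝ} {v r : L2 d} {lam E η : ℝ} (hη : 0 < η)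
    {n : ℕ} (hn : 1 / η < n + 1) (x : Site d) (hD : ∀ y ∈ box x n, D y = V y)
    (hv : ‖v‖ ≤ 1) (hr : ‖r‖ ≤ η) (hE : |lam - E| ≤ η)
    (heq : ∀ y, lap v y + (V y : ℂ) * v y - (lam : ℂ) * v y = r y) (S : Finset (Site d)) :
    ∑ y ∈ S, ‖res D (E + η * Complex.I) (fun y => (cut η x y : ℂ) * v y) y‖ ^ 2 ≤
      (9 + 12 * d ^ 2) * η ^ 2 := by
  set w : Site d → ℂ := fun y => (cut η x y : ℂ) * v y with hw
  set a : Site d → ℂ := fun y => r y with ha
  -- nearest neighbour sums
  set nb : Site d → ℝ := fun y => ∑ i : Fin d,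
    (‖v (y + Pi.single i 1)‖ ^ 2 + ‖v (y - Pi.single i 1)‖ ^ 2) with hnb
  have hz : ‖(lam : ℂ) - (E + η * Complex.I)‖ ^ 2 ≤ 2 * η ^ 2 := by
    have h1 : (lam : ℂ) - (E + η * Complex.I) = ((lam - E : ℝ) : ℂ) + ((-η : ℝ) : ℂ) * Complex.I := by
      push_cast; ring
    rw [h1, Complex.norm_add_mul_I, Real.sq_sqrt (by positivity)]
    have := abs_le.1 hE
    nlinarith only [this]
  have hpt : ∀ y, ‖res D (E + η * Complex.I) w y‖ ^ 2 ≤
      3 * ‖r y‖ ^ 2 + 3 * (2 * η ^ 2) * ‖v y‖ ^ 2 + 3 * (2 * d) * η ^ 2 * nb y := by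
    intro y
    have hDw : (D y : ℂ) * w y = (V y : ℂ) * w y := by
      by_cases hy : y ∈ box x n
      · rw [hD y hy]
      · simp only [hw, cut_support hη hn hy, Complex.ofReal_zero, zero_mul, mul_zero]
    set comm : ℂ := ∑ i : Fin d,
      (((cut η x (y + Pi.single i 1) - cut η x y : ℝ) : ℂ) * v (y + Pi.single i 1) +
       ((cut η x (y - Pi.single i 1) - cut η x y : ℝ) : ℂ) * v (y - Pi.single i 1)) with hcomm
    have e1 : lap w y = (cut η x y : ℂ) * lap v y + comm := by
      unfold lap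
      rw [hcomm, Finset.mul_sum, ← Finset.sum_add_distrib]
      apply Finset.sum_congr rfl
      intro i _
      simp only [hw]
      push_cast
      ring
    have e2 : res D (E + η * Complex.I) w y = (cut η x y : ℂ) * r y +
        (cut η x y : ℂ) * (((lam : ℂ) - (E + η * Complex.I)) * v y) + comm := by
      unfold res
      rw [hDw, e1, ← heq y]
      simp only [hw]
      ring
    have hc1 : ‖(cut η x y : ℂ)‖ ≤ 1 := by
      rw [Complex.norm_real, Real.norm_eq_abs, abs_of_nonneg (cut_nonneg _ _ _)]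
      exact cut_le_one hη _ _
    have b1 : ‖(cut η x y : ℂ) * r y‖ ≤ ‖r y‖ := by
      rw [norm_mul]
      exact mul_le_of_le_one_left (norm_nonneg _) hc1
    have b2 : ‖(cut η x y : ℂ) * (((lam : ℂ) - (E + η * Complex.I)) * v y)‖ ≤
        ‖(lam : ℂ) - (E + η * Complex.I)‖ * ‖v y‖ := by
      rw [norm_mul, norm_mul]
      exact mul_le_of_le_one_left (by positivity) hc1
    have b3 : ‖comm‖ ≤ ∑ i : Fin d, (η * ‖v (y + Pi.single i 1)‖ + η * ‖v (y - Pi.single i 1)‖) := by
      refine (norm_sum_le _ _).trans (Finset.sum_le_sum fun i _ => ?_)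
      refine (norm_add_le _ _).trans (add_le_add ?_ ?_)
      · rw [norm_mul, Complex.norm_real, Real.norm_eq_abs]
        exact mul_le_mul_of_nonneg_right (cut_lip hη x y _ (norm_single_le i 1 (by simp)))
          (norm_nonneg _)
      · rw [norm_mul, Complex.norm_real, Real.norm_eq_abs]
        apply mul_le_mul_of_nonneg_right _ (norm_nonneg _)
        rw [sub_eq_add_neg y]
        apply cut_lip hη x y
        rw [norm_neg]
        exact norm_single_le i 1 (by simp)
    have b4 : (∑ i : Fin d, (η * ‖v (y + Pi.single i 1)‖ + η * ‖v (y - Pi.single i 1)‖)) ^ 2 ≤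
        (2 * d) * η ^ 2 * nb y := by
      have h1 : ∑ i : Fin d, (η * ‖v (y + Pi.single i 1)‖ + η * ‖v (y - Pi.single i 1)‖) =
          η * ∑ i : Fin d, (‖v (y + Pi.single i 1)‖ + ‖v (y - Pi.single i 1)‖) := by
        rw [Finset.mul_sum]
        apply Finset.sum_congr rfl
        intro i _
        ring
      rw [h1, mul_pow]
      have h2 : (∑ i : Fin d, (‖v (y + Pi.single i 1)‖ + ‖v (y - Pi.single i 1)‖)) ^ 2 ≤
          (Finset.univ : Finset (Fin d)).card *
            ∑ i : Fin d, (‖v (y + Pi.single i 1)‖ + ‖v (y - Pi.single i 1)‖) ^ 2 :=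
        sq_sum_le_card_mul_sum_sq
      rw [Finset.card_univ, Fintype.card_fin] at h2
      have h3 : ∑ i : Fin d, (‖v (y + Pi.single i 1)‖ + ‖v (y - Pi.single i 1)‖) ^ 2 ≤
          2 * nb y := by
        rw [hnb, Finset.mul_sum]
        apply Finset.sum_le_sum
        intro i _
        nlinarith only [sq_nonneg (‖v (y + Pi.single i 1)‖ - ‖v (y - Pi.single i 1)‖)]
      have h4 : (d : ℝ) * ∑ i : Fin d, (‖v (y + Pi.single i 1)‖ + ‖v (y - Pi.single i 1)‖) ^ 2 ≤
          d * (2 * nb y) := mul_le_mul_of_nonneg_left h3 (by positivity)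
      have h5 : η ^ 2 * (∑ i : Fin d, (‖v (y + Pi.single i 1)‖ + ‖v (y - Pi.single i 1)‖)) ^ 2 ≤
          η ^ 2 * (d * (2 * nb y)) := mul_le_mul_of_nonneg_left (h2.trans h4) (by positivity)
      linarith only [h5]
    have h6 : ‖res D (E + η * Complex.I) w y‖ ≤ ‖r y‖ +
        ‖(lam : ℂ) - (E + η * Complex.I)‖ * ‖v y‖ +
        ∑ i : Fin d, (η * ‖v (y + Pi.single i 1)‖ + η * ‖v (y - Pi.single i 1)‖) := by
      rw [e2]
      exact (norm_add₃_le).trans (add_le_add (add_le_add b1 b2) b3)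
    set A := ‖r y‖
    set B := ‖(lam : ℂ) - (E + η * Complex.I)‖ * ‖v y‖ with hB
    set F := ∑ i : Fin d, (η * ‖v (y + Pi.single i 1)‖ + η * ‖v (y - Pi.single i 1)‖)
    have h7 : ‖res D (E + η * Complex.I) w y‖ ^ 2 ≤ (A + B + F) ^ 2 :=
      pow_le_pow_left₀ (norm_nonneg _) h6 2
    have h8 : (A + B + F) ^ 2 ≤ 3 * A ^ 2 + 3 * B ^ 2 + 3 * F ^ 2 := by
      nlinarith only [sq_nonneg (A - B), sq_nonneg (B - F), sq_nonneg (A - F)]
    have h9 : B ^ 2 ≤ 2 * η ^ 2 * ‖v y‖ ^ 2 := by
      rw [hB, mul_pow]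
      exact mul_le_mul_of_nonneg_right hz (by positivity)
    linarith
  have hsv : ∀ (f : L2 d) (T : Finset (Site d)), ∑ y ∈ T, ‖f y‖ ^ 2 ≤ ‖f‖ ^ 2 := by
    intro f T
    rw [L2.norm_sq]
    exact (L2.summable_sq f).sum_le_tsum T (fun y _ => by positivity)
  have hv2 : ‖v‖ ^ 2 ≤ 1 := by
    have := norm_nonneg v
    nlinarith only [hv, this]
  have hr2 : ‖r‖ ^ 2 ≤ η ^ 2 := pow_le_pow_left₀ (norm_nonneg _) hr 2
  have hnbs : ∑ y ∈ S, nb y ≤ 2 * d := by
    rw [hnb]
    simp only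
    rw [Finset.sum_comm]
    have h1 : ∀ i : Fin d, ∑ y ∈ S, (‖v (y + Pi.single i 1)‖ ^ 2 + ‖v (y - Pi.single i 1)‖ ^ 2) ≤
        2 := by
      intro i
      rw [Finset.sum_add_distrib]
      have h2 := hsv (shift (Pi.single i 1) v) S
      have h3 := hsv (shift (-Pi.single i 1) v) S
      rw [LinearIsometry.norm_map] at h2 h3
      simp only [shift_apply, ← sub_eq_add_neg] at h2 h3
      linarith only [hv2, h2, h3]
    refine (Finset.sum_le_sum fun i _ => h1 i).trans (le_of_eq ?_)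
    rw [Finset.sum_const, Finset.card_univ, Fintype.card_fin, nsmul_eq_mul]
    ring
  have hvS := (hsv v S).trans hv2
  have hrS := (hsv r S).trans hr2
  calc ∑ y ∈ S, ‖res D (E + η * Complex.I) w y‖ ^ 2
      ≤ ∑ y ∈ S, (3 * ‖r y‖ ^ 2 + 3 * (2 * η ^ 2) * ‖v y‖ ^ 2 + 3 * (2 * d) * η ^ 2 * nb y) :=
        Finset.sum_le_sum fun y _ => hpt y
    _ = 3 * ∑ y ∈ S, ‖r y‖ ^ 2 + 3 * (2 * η ^ 2) * ∑ y ∈ S, ‖v y‖ ^ 2 +
        3 * (2 * d) * η ^ 2 * ∑ y ∈ S, nb y := by
        rw [Finset.sum_add_distrib, Finset.sum_add_distrib, Finset.mul_sum, Finset.mul_sum,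
          Finset.mul_sum]
    _ ≤ 3 * η ^ 2 + 3 * (2 * η ^ 2) * 1 + 3 * (2 * d) * η ^ 2 * (2 * d) := by
        gcongr
    _ = _ := by ring

/-- The weighted energy of a cut off quasimode, given an operator bound. -/
theorem quasi_N2 {V D : Site d → ℝ} {v r : L2 d} {lam E η : ℝ} (hη : 0 < η)
    {n : ℕ} (hn : 1 / η < n + 1) (x : Site d)
    (hD : ∀ y ∈ box x n, D y = V y)
    (hv : ‖v‖ ≤ 1) (hr : ‖r‖ ≤ η) (hE : |lam - E| ≤ η)
    (heq : ∀ y, lap v y + (V y : ℂ) * v y - (lam : ℂ) * v y = r y)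
    {C : Matrix (box x n) (box x n) ℂ} (hC : C.IsHermitian)
    (hCK : C * C = Kmat (box x n) E η)
    (hX : ∀ a : box x n → ℂ, nsq (XM C (fun y => D y) *ᵥ a) ≤ 1 / 4 * nsq a) :
    ∫ θ, md E η θ * ‖hatV (fun y : box x n => (cut η x y : ℂ) * v y) θ‖ ^ 2 ≤
      4 * (9 + 12 * d ^ 2) * η := by
  have hw : ∀ y ∉ box x n, (fun y => (cut η x y : ℂ) * v y) y = 0 := by
    intro y hy
    simp only [cut_support hη hn hy, Complex.ofReal_zero, zero_mul]
  have hΛ : box x n ⊆ box x (n + 1) := by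
    intro y hy
    rw [mem_box] at hy ⊢
    intro i
    have := hy i
    push_cast
    omega
  have hnei : ∀ y ∈ box x n, ∀ i, y - Pi.single i 1 ∈ box x (n + 1) ∧
      y + Pi.single i 1 ∈ box x (n + 1) := by
    intro y hy i
    rw [mem_box] at hy
    have hs : ∀ j, |(Pi.single i 1 : Site d) j| ≤ 1 := by
      intro j
      by_cases h : j = i
      · subst h; simp
      · rw [Pi.single_eq_of_ne h]; simp
    constructor
    · rw [mem_box]
      intro j
      have h1 := abs_le.1 (hy j)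
      have h2 := abs_le.1 (hs j)
      rw [abs_le, Pi.sub_apply]
      push_cast
      constructor <;> linarith
    · rw [mem_box]
      intro j
      have h1 := abs_le.1 (hy j)
      have h2 := abs_le.1 (hs j)
      rw [abs_le, Pi.add_apply]
      push_cast
      constructor <;> linarith
  have h1 := det_N2 hw hΛ hnei hη hC hCK hX
  have h2 := cut_res_bound hη hn x hD hv hr hE heq (box x (n + 1))
  refine h1.trans ?_
  have h5 : 4 * η⁻¹ * ∑ y ∈ box x (n + 1),
      ‖res D (E + η * Complex.I) (fun y => (cut η x y : ℂ) * v y) y‖ ^ 2 ≤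
      4 * η⁻¹ * ((9 + 12 * d ^ 2) * η ^ 2) := mul_le_mul_of_nonneg_left h2 (by positivity)
  have h6 : 4 * η⁻¹ * ((9 + 12 * (d:ℝ) ^ 2) * η ^ 2) = 4 * (9 + 12 * d ^ 2) * η := by
    field_simp
  rw [h6] at h5
  exact h5

/-- Bound for a quasimode at `x`, given an operator bound. -/
theorem quasi_bound (hd : 3 ≤ d) {v : L2 d} {E η : ℝ} (hη : 0 < η)
    (hη1 : η ≤ 1) {n : ℕ} (hn : 1 / η < n + 1) (x : Site d)
    (hN : ∫ θ, md E η θ * ‖hatV (fun y : box x n => (cut η x y : ℂ) * v y) θ‖ ^ 2 ≤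
      4 * (9 + 12 * d ^ 2) * η) :
    ‖v x‖ ^ 2 ≤ (4 * (9 + 12 * d ^ 2) * (1 + 1024 * π)) * (η * (1 + Real.log (1 / η))) := by
  have hw : ∀ y ∉ box x n, (fun y => (cut η x y : ℂ) * v y) y = 0 := by
    intro y hy
    simp only [cut_support hη hn hy, Complex.ofReal_zero, zero_mul]
  have h1 := sup_of_N2 (E := E) hw hη x
  simp only [cut_self, Complex.ofReal_one, one_mul] at h1
  have h3 := kap_le hd E hη hη1
  have h4 := kap_pos (d := d) E hη
  have hl0 : 0 ≤ Real.log (1 / η) := Real.log_nonneg (by rw [le_div_iff₀ hη]; linarith only [hη1])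
  have hpi := Real.pi_pos
  refine h1.trans ?_
  calc kap d E η * ∫ θ, md E η θ * ‖hatV (fun y : box x n => (cut η x y : ℂ) * v y) θ‖ ^ 2
      ≤ kap d E η * (4 * (9 + 12 * d ^ 2) * η) := mul_le_mul_of_nonneg_left hN h4.le
    _ ≤ ((1 + 1024 * π) * (1 + Real.log (1 / η))) * (4 * (9 + 12 * d ^ 2) * η) :=
        mul_le_mul_of_nonneg_right h3 (by positivity)
    _ = _ := by ring

end Pool.Agent.Anderson
end
end -- Pool.Agent.Helper17_Anderson.Cutoff

section -- Pool.Agent.Helper17_Anderson.Prob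

/-!
# Probability estimates
-/

set_option autoImplicit false

open MeasureTheory Set Real Function Matrix ProbabilityTheory

open scoped ENNReal ComplexConjugate ComplexOrder

noncomputable section

namespace Pool.Agent.Anderson

variable {d : ℕ}

/-- truncation at height `s` -/
def tau (s t : ℝ) : ℝ := if |t| ≤ s then t else 0

theorem measurable_tau (s : ℝ) : Measurable (tau s) := by
  unfold tau
  apply Measurable.ite _ measurable_id measurable_const
  exact measurableSet_le (by fun_prop) measurable_const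

theorem abs_tau_le {s : ℝ} (hs : 0 ≤ s) (t : ℝ) : |tau s t| ≤ s := by
  unfold tau
  split_ifs with h
  · exact h
  · simpa using hs

theorem tau_neg (s t : ℝ) : tau s (-t) = -tau s t := by
  unfold tau
  rw [abs_neg]
  split_ifs <;> simp

theorem tau_eq {s t : ℝ} (h : |t| ≤ s) : tau s t = t := by
  unfold tau; rw [if_pos h]

/-- the law of the truncated potential at one site -/
def nu (σ s : ℝ) : Measure ℝ := (gaussianReal 0 1).map (fun t => tau s (σ * t))

theorem measurable_tauσ (σ s : ℝ) : Measurable (fun t => tau s (σ * t)) :=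
  (measurable_tau s).comp (by fun_prop)

instance nu_prob (σ s : ℝ) : IsProbabilityMeasure (nu σ s) :=
  Measure.isProbabilityMeasure_map (measurable_tauσ σ s).aemeasurable

theorem nu_neg (σ s : ℝ) : MeasurePreserving (fun t : ℝ => -t) (nu σ s) (nu σ s) := by
  refine ⟨measurable_neg, ?_⟩
  have h1 : (gaussianReal 0 1).map (fun t : ℝ => -t) = gaussianReal 0 1 := by
    rw [gaussianReal_map_neg, neg_zero]
  unfold nu
  rw [Measure.map_map measurable_neg (measurable_tauσ σ s)]
  conv_rhs => rw [← h1]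
  rw [Measure.map_map (measurable_tauσ σ s) measurable_neg]
  congr 1
  funext t
  simp only [Function.comp]
  rw [mul_neg, tau_neg]

theorem nu_sg (σ s : ℝ) (b : Bool) :
    MeasurePreserving (fun t : ℝ => sg b * t) (nu σ s) (nu σ s) := by
  cases b
  · have : (fun t : ℝ => sg false * t) = fun t => -t := by
      funext t; simp [sg]
    rw [this]
    exact nu_neg σ s
  · have : (fun t : ℝ => sg true * t) = id := by
      funext t; simp [sg]
    rw [this]
    exact MeasurePreserving.id _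

variable {Ω : Type*} [MeasurableSpace Ω] {P : Measure Ω} [IsProbabilityMeasure P]
  {ξ : Site d → Ω → ℝ}

/-- truncated potential -/
def zt (σ s : ℝ) (ξ : Site d → Ω → ℝ) (ω : Ω) (y : Site d) : ℝ := tau s (σ * ξ y ω)

theorem law_zt (hm : ∀ y, Measurable (ξ y)) (hlaw : ∀ y, P.map (ξ y) = gaussianReal 0 1)
    (hind : iIndepFun ξ P) (σ s : ℝ) (Λ : Finset (Site d)) :
    P.map (fun ω (y : Λ) => zt σ s ξ ω y) = Measure.pi (fun _ : Λ => nu σ s) := by
  have h1 : iIndepFun (fun (y : Λ) => ξ (y : Site d)) P :=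
    hind.precomp Subtype.val_injective
  have h2 := h1.comp (fun _ => fun t => tau s (σ * t)) (fun _ => measurable_tauσ σ s)
  have h3 := (iIndepFun_iff_map_fun_eq_pi_map (fun y : Λ =>
    ((measurable_tauσ σ s).comp (hm y)).aemeasurable)).1 h2
  have h4 : ∀ y : Λ, P.map ((fun t => tau s (σ * t)) ∘ ξ (y : Site d)) = nu σ s := by
    intro y
    rw [← Measure.map_map (measurable_tauσ σ s) (hm y), hlaw]
    rfl
  simp only [h4] at h3
  rw [← h3]
  rfl

theorem measurable_zt (hm : ∀ y, Measurable (ξ y)) (σ s : ℝ) (Λ : Finset (Site d)) :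
    Measurable (fun ω (y : Λ) => zt σ s ξ ω y) := by
  apply measurable_pi_lambda
  intro y
  exact (measurable_tauσ σ s).comp (hm y)

theorem continuous_tr {n : Type*} [Fintype n] [DecidableEq n] (C : Matrix n n ℂ) (q : ℕ) :
    Continuous fun D : n → ℝ => (XM C D ^ q).trace.re := by
  have h1 : Continuous fun D : n → ℝ => XM C D := by
    unfold XM
    have : Continuous fun D : n → ℝ => diagonal (fun y => (D y : ℂ)) := by
      apply Continuous.matrix_diagonal
      fun_prop
    exact (continuous_const.matrix_mul this).matrix_mul continuous_const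
  have h2 : Continuous fun D : n → ℝ => (XM C D ^ q).trace := (h1.pow q).matrix_trace
  exact Complex.continuous_re.comp h2

theorem lintegral_trace_le (hm : ∀ y, Measurable (ξ y))
    (hlaw : ∀ y, P.map (ξ y) = gaussianReal 0 1)
    (hind : iIndepFun ξ P) (σ : ℝ) {s : ℝ} (hs : 0 ≤ s) (Λ : Finset (Site d))
    {C : Matrix Λ Λ ℂ} (hC : C.IsHermitian) {κ L : ℝ} (hκ0 : 0 ≤ κ) (hL : 0 ≤ L)
    (hκ : ∀ y, ((C * C) y y).re ≤ κ)
    (hK : ∀ v : Λ → ℂ, (star v ⬝ᵥ ((C * C) *ᵥ v)).re ≤ L * ∑ y, ‖v y‖ ^ 2) (p : ℕ) :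
    ∫⁻ ω, ENNReal.ofReal ((XM C (fun y => zt σ s ξ ω y) ^ (2 * p)).trace.re) ∂P ≤
      ENNReal.ofReal (Λ.card * (2 * p * (s ^ 2 * κ * L)) ^ p) := by
  set F : (Λ → ℝ) → ℝ≥0∞ := fun D => ENNReal.ofReal ((XM C D ^ (2 * p)).trace.re) with hF
  have hFm : Measurable F :=
    ENNReal.measurable_ofReal.comp (continuous_tr C (2 * p)).measurable
  have hlawz := law_zt hm hlaw hind σ s Λ
  have hmz := measurable_zt hm σ s Λ
  have h1 : ∫⁻ ω, F (fun y => zt σ s ξ ω y) ∂P = ∫⁻ D, F D ∂(Measure.pi (fun _ : Λ => nu σ s)) := by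
    rw [← hlawz, lintegral_map hFm hmz]
  have hsD : ∀ e : Λ → Bool, Measurable (fun D : Λ → ℝ => sD D e) := by
    intro e
    unfold sD
    apply measurable_pi_lambda
    intro y
    exact (measurable_pi_apply y).const_mul _
  have h2 : ∀ e : Λ → Bool, ∫⁻ ω, F (sD (fun y => zt σ s ξ ω y) e) ∂P =
      ∫⁻ D, F D ∂(Measure.pi (fun _ : Λ => nu σ s)) := by
    intro e
    have hp : MeasurePreserving (fun D : Λ → ℝ => sD D e) (Measure.pi (fun _ : Λ => nu σ s))
        (Measure.pi (fun _ : Λ => nu σ s)) :=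
      measurePreserving_pi (fun _ : Λ => nu σ s) (fun _ : Λ => nu σ s)
        (f := fun y t => sg (e y) * t) (fun y => nu_sg σ s (e y))
    have h3 := hp.lintegral_comp hFm
    rw [← h3, ← hlawz, lintegral_map (f := fun D => F (sD D e)) (hFm.comp (hsD e)) hmz]
  have h4 : ∑ e : Λ → Bool, ∫⁻ ω, F (sD (fun y => zt σ s ξ ω y) e) ∂P ≤
      ENNReal.ofReal ((2 ^ Fintype.card Λ) *
        (Fintype.card Λ * (2 * p * (s ^ 2 * κ * L)) ^ p)) := by
    have h6 := lintegral_finsetSum (μ := P) Finset.univ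
      (f := fun (e : Λ → Bool) ω => F (sD (fun y => zt σ s ξ ω y) e))
      (fun e _ => (hFm.comp (hsD e)).comp hmz)
    rw [← h6]
    have h5 : ∀ ω, ∑ e : Λ → Bool, F (sD (fun y => zt σ s ξ ω y) e) ≤
        ENNReal.ofReal ((2 ^ Fintype.card Λ) *
          (Fintype.card Λ * (2 * p * (s ^ 2 * κ * L)) ^ p)) := by
      intro ω
      rw [hF]
      rw [← ENNReal.ofReal_sum_of_nonneg (fun e _ => trace_pow_nonneg (XM_herm hC _) p)]
      apply ENNReal.ofReal_le_ofReal
      exact khintchine hC hκ0 hL hκ hK (fun y => abs_tau_le hs _) p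
    calc _ ≤ ∫⁻ _ : Ω, ENNReal.ofReal ((2 ^ Fintype.card Λ) *
          (Fintype.card Λ * (2 * p * (s ^ 2 * κ * L)) ^ p)) ∂P := lintegral_mono h5
      _ = _ := by rw [lintegral_const, measure_univ, mul_one]
  have hcard : Fintype.card Λ = Λ.card := Fintype.card_coe Λ
  simp only [h2] at h4
  rw [Finset.sum_const, Finset.card_univ, Fintype.card_fun, Fintype.card_bool, hcard,
    ENNReal.ofReal_mul (by positivity), nsmul_eq_mul] at h4
  rw [h1]
  have e2 : ENNReal.ofReal (2 ^ Λ.card) = ((2 ^ Λ.card : ℕ) : ℝ≥0∞) := by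
    rw [← ENNReal.ofReal_natCast]
    push_cast
    rfl
  rw [e2] at h4
  exact (ENNReal.mul_le_mul_iff_right (by positivity) (ENNReal.natCast_ne_top _)).1 h4

/-- Probability that the operator bound fails. -/
theorem prob_bad (hm : ∀ y, Measurable (ξ y))
    (hlaw : ∀ y, P.map (ξ y) = gaussianReal 0 1)
    (hind : iIndepFun ξ P) (σ : ℝ) {s : ℝ} (hs : 0 ≤ s) (Λ : Finset (Site d))
    {C : Matrix Λ Λ ℂ} (hC : C.IsHermitian) {κ L : ℝ} (hκ0 : 0 ≤ κ) (hL : 0 ≤ L)
    (hκ : ∀ y, ((C * C) y y).re ≤ κ)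
    (hK : ∀ v : Λ → ℂ, (star v ⬝ᵥ ((C * C) *ᵥ v)).re ≤ L * ∑ y, ‖v y‖ ^ 2) {p : ℕ} (hp : 1 ≤ p) :
    P {ω | ¬ ∀ a : Λ → ℂ, nsq (XM C (fun y => zt σ s ξ ω y) *ᵥ a) ≤ 1 / 4 * nsq a} ≤
      ENNReal.ofReal (Λ.card * (8 * p * (s ^ 2 * κ * L)) ^ p) := by
  have h1 := lintegral_trace_le hm hlaw hind σ hs Λ hC hκ0 hL hκ hK p
  set F : Ω → ℝ≥0∞ := fun ω =>
    ENNReal.ofReal ((XM C (fun y => zt σ s ξ ω y) ^ (2 * p)).trace.re) with hF
  have hFm : Measurable F :=
    ENNReal.measurable_ofReal.comp ((continuous_tr C (2 * p)).measurable.comp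
      (measurable_zt hm σ s Λ))
  have hsub : {ω | ¬ ∀ a : Λ → ℂ, nsq (XM C (fun y => zt σ s ξ ω y) *ᵥ a) ≤ 1 / 4 * nsq a} ⊆
      {ω | ENNReal.ofReal ((1 / 2) ^ (2 * p)) ≤ F ω} := by
    intro ω hω
    by_contra hcon
    apply hω
    rw [mem_ofPred_eq, not_le] at hcon
    intro a
    have h2 : (XM C (fun y => zt σ s ξ ω y) ^ (2 * p)).trace.re ≤ (1 / 2) ^ (2 * p) := by
      by_contra h3
      push Not at h3
      exact absurd (ENNReal.ofReal_le_ofReal h3.le) (not_le.2 hcon)
    have h4 := op_of_trace (XM_herm hC _) hp (by norm_num) h2 a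
    norm_num at h4 ⊢
    exact h4
  refine (measure_mono hsub).trans ?_
  have h5 := meas_ge_le_lintegral_div (μ := P) hFm.aemeasurable
    (ε := ENNReal.ofReal ((1 / 2) ^ (2 * p))) (by
      rw [Ne, ENNReal.ofReal_eq_zero, not_le]; positivity) ENNReal.ofReal_ne_top
  refine h5.trans ?_
  rw [ENNReal.div_le_iff (by rw [Ne, ENNReal.ofReal_eq_zero, not_le]; positivity)
    ENNReal.ofReal_ne_top, ← ENNReal.ofReal_mul (by positivity)]
  refine h1.trans (le_of_eq ?_)
  congr 1
  rw [pow_mul (1 / 2 : ℝ), mul_assoc (Λ.card : ℝ), ← mul_pow]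
  congr 2
  ring

/-- Gaussian tail -/
theorem gauss_tail {X : Ω → ℝ} (hlaw : P.map X = gaussianReal 0 1) {R : ℝ}
    (hR : 0 ≤ R) : P {ω | R < |X ω|} ≤ ENNReal.ofReal (2 * rexp (-(R ^ 2 / 2))) := by
  have hmgf : ∀ t : ℝ, mgf X P t = rexp (t ^ 2 / 2) := by
    intro t
    rw [mgf_gaussianReal hlaw]
    simp
  have hint : ∀ t : ℝ, Integrable (fun ω => rexp (t * X ω)) P := by
    intro t
    have h0 : 0 < mgf X P t := by rw [hmgf]; positivity
    by_contra hcon
    rw [mgf, integral_undef hcon] at h0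
    exact lt_irrefl _ h0
  have h1 : P.real {ω | R ≤ X ω} ≤ rexp (-(R ^ 2 / 2)) := by
    refine (measure_ge_le_exp_mul_mgf R hR (hint R)).trans (le_of_eq ?_)
    rw [hmgf, ← Real.exp_add]
    congr 1; ring
  have h2 : P.real {ω | X ω ≤ -R} ≤ rexp (-(R ^ 2 / 2)) := by
    refine (measure_le_le_exp_mul_mgf (-R) (by linarith : -R ≤ 0) (hint (-R))).trans (le_of_eq ?_)
    rw [hmgf, ← Real.exp_add]
    congr 1; ring
  have hsub : {ω | R < |X ω|} ⊆ {ω | R ≤ X ω} ∪ {ω | X ω ≤ -R} := by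
    intro ω hω
    rw [mem_ofPred_eq, lt_abs] at hω
    rcases hω with h | h
    · left; exact h.le
    · right
      rw [mem_ofPred_eq]
      linarith
  refine (measure_mono hsub).trans ((measure_union_le _ _).trans ?_)
  rw [two_mul, ENNReal.ofReal_add (by positivity) (by positivity)]
  apply add_le_add
  · rw [← ENNReal.ofReal_toReal (measure_ne_top P {ω | R ≤ X ω})]
    exact ENNReal.ofReal_le_ofReal h1
  · rw [← ENNReal.ofReal_toReal (measure_ne_top P {ω | X ω ≤ -R})]
    exact ENNReal.ofReal_le_ofReal h2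

end Pool.Agent.Anderson
end
end -- Pool.Agent.Helper17_Anderson.Prob

section -- Pool.Agent.Helper17_Anderson.Large

/-!
# Energies outside the band
-/

set_option autoImplicit false

open MeasureTheory Set Real Function Matrix ProbabilityTheory

open scoped ENNReal ComplexConjugate ComplexOrder

noncomputable section

namespace Pool.Agent.Anderson

local instance haarMS8 : MeasureSpace UnitAddCircle := ⟨AddCircle.haarAddCircle⟩

local instance haarAHLarge : Measure.IsAddHaarMeasure (volume : Measure UnitAddCircle) :=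
  inferInstanceAs (Measure.IsAddHaarMeasure AddCircle.haarAddCircle)

local instance haarPMLarge : IsProbabilityMeasure (volume : Measure UnitAddCircle) :=
  inferInstanceAs (IsProbabilityMeasure AddCircle.haarAddCircle)

variable {d : ℕ}

theorem abs_c2_le (θ : UnitAddCircle) : |c2 θ| ≤ 2 := by
  unfold c2
  rw [abs_mul, abs_of_pos (by norm_num : (0:ℝ) < 2)]
  have := Complex.abs_re_le_norm (u θ)
  rw [norm_u] at this
  linarith

theorem abs_sy_le (θ : UnitAddTorus (Fin d)) : |sy θ| ≤ 2 * d := by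
  unfold sy
  refine (Finset.abs_sum_le_sum_abs _ _).trans ?_
  refine (Finset.sum_le_sum fun i _ => abs_c2_le (θ i)).trans (le_of_eq ?_)
  rw [Finset.sum_const, Finset.card_univ, Fintype.card_fin, nsmul_eq_mul, mul_comm]

theorem md_ge_two {E η : ℝ} (hE : 2 * d + 2 ≤ |E|) (θ : UnitAddTorus (Fin d)) :
    2 ≤ md E η θ := by
  have h1 := abs_sy_le θ
  have h2 : 2 ≤ |sy θ - E| := by
    have := abs_sub_abs_le_abs_sub E (sy θ)
    rw [abs_sub_comm] at this
    linarith
  unfold md
  apply Real.le_sqrt_of_sq_le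
  have h3 : (2:ℝ) ^ 2 ≤ (sy θ - E) ^ 2 := by
    rw [← sq_abs (sy θ - E)]
    exact pow_le_pow_left₀ (by norm_num) h2 2
  nlinarith [sq_nonneg η]

theorem Kmat_le_half (Λ : Finset (Site d)) {E η : ℝ} (hη : 0 < η) (hE : 2 * d + 2 ≤ |E|)
    (v : Λ → ℂ) : (star v ⬝ᵥ (Kmat Λ E η *ᵥ v)).re ≤ 1 / 2 * nsq v := by
  rw [Kmat_form_re Λ hη, ← parseval, ← integral_const_mul]
  have hc1 := continuous_inv_md (d := d) (E := E) hη
  have hc2 := continuous_hatV v
  apply integral_mono
  · apply integrable_of_cont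
    fun_prop
  · apply integrable_of_cont
    fun_prop
  · intro θ
    apply mul_le_mul_of_nonneg_right _ (by positivity)
    have := inv_anti₀ (by norm_num : (0:ℝ) < 2) (md_ge_two (η := η) hE θ)
    simpa using this

theorem large_hX {Λ : Finset (Site d)} {D : Site d → ℝ} {E η : ℝ} (hη : 0 < η)
    (hE : 2 * d + 2 ≤ |E|) (hD : ∀ y ∈ Λ, |D y| ≤ 1) {C : Matrix Λ Λ ℂ} (hC : C.IsHermitian)
    (hCK : C * C = Kmat Λ E η) (a : Λ → ℂ) :
    nsq (XM C (fun y => D y) *ᵥ a) ≤ 1 / 4 * nsq a := by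
  have hform : ∀ v : Λ → ℂ, nsq (C *ᵥ v) ≤ 1 / 2 * nsq v := by
    intro v
    refine le_trans (le_of_eq ?_) (Kmat_le_half Λ hη hE v)
    rw [← hCK]
    have h1 := star_dot_self (C *ᵥ v)
    rw [star_mulVec, ← dotProduct_mulVec, mulVec_mulVec, hC.eq] at h1
    rw [h1, Complex.ofReal_re]
  have h1 : XM C (fun y => D y) *ᵥ a =
      C *ᵥ (diagonal (fun y : Λ => ((D y : ℝ) : ℂ)) *ᵥ (C *ᵥ a)) := by
    unfold XM
    rw [← mulVec_mulVec, ← mulVec_mulVec]
  rw [h1]
  have h2 : nsq (diagonal (fun y : Λ => ((D y : ℝ) : ℂ)) *ᵥ (C *ᵥ a)) ≤ nsq (C *ᵥ a) := by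
    unfold nsq
    apply Finset.sum_le_sum
    intro y _
    rw [mulVec_diagonal, norm_mul, Complex.norm_real, Real.norm_eq_abs]
    apply pow_le_pow_left₀ (by positivity)
    exact mul_le_of_le_one_left (norm_nonneg _) (hD y y.2)
  have h3 := hform (diagonal (fun y : Λ => ((D y : ℝ) : ℂ)) *ᵥ (C *ᵥ a))
  have h4 := hform a
  linarith

end Pool.Agent.Anderson
end
end -- Pool.Agent.Helper17_Anderson.Large

section -- Pool.Agent.Helper17_Anderson.Slice

/-!
# Compression of `|Δ - z|⁻¹` to a ball, away from the critical energies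
-/

set_option autoImplicit false

open MeasureTheory Set Real Function Matrix

open scoped ENNReal ComplexConjugate ComplexOrder

noncomputable section

namespace Pool.Agent.Anderson

local instance haarMS9 : MeasureSpace UnitAddCircle := ⟨AddCircle.haarAddCircle⟩

local instance haarAHSlice : Measure.IsAddHaarMeasure (volume : Measure UnitAddCircle) :=
  inferInstanceAs (Measure.IsAddHaarMeasure AddCircle.haarAddCircle)

local instance haarPMSlice : IsProbabilityMeasure (volume : Measure UnitAddCircle) :=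
  inferInstanceAs (IsProbabilityMeasure AddCircle.haarAddCircle)

variable {d : ℕ}

/-- `sin (2πθ)` -/
def sn (θ : UnitAddCircle) : ℝ := (u θ).im

theorem continuous_sn : Continuous sn := by
  unfold sn
  have := continuous_u
  fun_prop

theorem sn_sq (θ : UnitAddCircle) : sn θ ^ 2 = 1 - (c2 θ / 2) ^ 2 := by
  have hu := norm_u θ
  have h := Complex.normSq_eq_norm_sq (u θ)
  rw [hu, Complex.normSq_apply] at h
  unfold sn c2
  nlinarith only [h]

theorem abs_c2_le' (θ : UnitAddCircle) : |c2 θ| ≤ 2 := by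
  unfold c2
  rw [abs_mul, abs_of_pos (by norm_num : (0:ℝ) < 2)]
  have := Complex.abs_re_le_norm (u θ)
  rw [norm_u] at this
  linarith

theorem sn_sq_le_one (θ : UnitAddCircle) : sn θ ^ 2 ≤ 1 := by
  rw [sn_sq]; nlinarith only [sq_nonneg (c2 θ / 2)]

/-- a key pointwise inequality -/
theorem sn_ker_aux {η s2 t q : ℝ} (hη : 0 < η) (_hs0 : 0 ≤ s2) (hs1 : s2 ≤ 1)
    (h : q ^ 2 * s2 ≤ t ^ 2) : s2 * ker η t ≤ ker η q := by
  unfold ker
  rw [mul_div_assoc', div_le_div_iff₀ (by positivity) (by positivity)]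
  have h1 : s2 * (q ^ 2 + η ^ 2) ≤ t ^ 2 + η ^ 2 := by nlinarith only [sq_nonneg η, hs1, h]
  nlinarith only [hη, h1]

theorem lintegral_sn_ker {η : ℝ} (hη : 0 < η) (b : ℝ) :
    ∫⁻ θ : UnitAddCircle, ENNReal.ofReal (sn θ ^ 2 * ker η (c2 θ - b)) ≤
      ENNReal.ofReal (π / 2) := by
  have hpi := Real.pi_pos
  have hK : ∀ a : ℂ, ‖a‖ = 1 → ∫⁻ θ : UnitAddCircle, ENNReal.ofReal (ker η ‖u θ - a‖) ≤
      ENNReal.ofReal (π / 4) := by
    intro a ha
    have := lintegral_ker_circle hη zero_lt_one ha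
    simpa using this
  have hmono : ENNReal.ofReal (π / 4) ≤ ENNReal.ofReal (π / 2) :=
    ENNReal.ofReal_le_ofReal (by linarith only [hpi])
  rcases le_or_gt |b| 2 with h | h
  · obtain ⟨a, ha, hac, -⟩ := exists_a h
    have ha' : ‖conj a‖ = 1 := by rw [Complex.norm_conj, ha]
    have hpt : ∀ θ, ENNReal.ofReal (sn θ ^ 2 * ker η (c2 θ - b)) ≤
        ENNReal.ofReal (ker η ‖u θ - a‖) + ENNReal.ofReal (ker η ‖u θ - conj a‖) := by
      intro θ
      have h1 := c2_sub_eq ha hac θ
      have n1 := norm_nonneg (u θ - a)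
      have n2 := norm_nonneg (u θ - conj a)
      have h2 : 2 * |sn θ| ≤ ‖u θ - a‖ + ‖u θ - conj a‖ := by
        have e1 : ‖u θ - conj (u θ)‖ = 2 * |sn θ| := by
          rw [Complex.sub_conj, norm_mul, Complex.norm_I, mul_one, Complex.norm_real,
            Real.norm_eq_abs, abs_mul, abs_of_pos (by norm_num : (0:ℝ) < 2)]
          rfl
        have e2 : ‖conj a - conj (u θ)‖ = ‖u θ - a‖ := by
          rw [← map_sub, Complex.norm_conj, norm_sub_rev]
        rw [← e1]
        calc ‖u θ - conj (u θ)‖ = ‖(u θ - conj a) + (conj a - conj (u θ))‖ := by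
              congr 1; ring
          _ ≤ ‖u θ - conj a‖ + ‖conj a - conj (u θ)‖ := norm_add_le _ _
          _ = _ := by rw [e2]; ring
      have hsq : (c2 θ - b) ^ 2 = ‖u θ - a‖ ^ 2 * ‖u θ - conj a‖ ^ 2 := by
        rw [← sq_abs, h1, mul_pow]
      rcases le_total ‖u θ - a‖ ‖u θ - conj a‖ with h3 | h3
      · refine le_trans (ENNReal.ofReal_le_ofReal ?_) (le_add_right le_rfl)
        apply sn_ker_aux hη (sq_nonneg _) (sn_sq_le_one θ)
        rw [hsq]
        apply mul_le_mul_of_nonneg_left _ (sq_nonneg _)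
        rw [← sq_abs]
        exact pow_le_pow_left₀ (abs_nonneg _) (by linarith only [h2, h3]) 2
      · refine le_trans (ENNReal.ofReal_le_ofReal ?_) (le_add_left le_rfl)
        apply sn_ker_aux hη (sq_nonneg _) (sn_sq_le_one θ)
        rw [hsq, mul_comm (‖u θ - a‖ ^ 2)]
        apply mul_le_mul_of_nonneg_left _ (sq_nonneg _)
        rw [← sq_abs]
        exact pow_le_pow_left₀ (abs_nonneg _) (by linarith) 2
    refine (lintegral_mono hpt).trans ?_
    have hm : Measurable fun θ : UnitAddCircle => ENNReal.ofReal (ker η ‖u θ - a‖) := by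
      have h4 := (continuous_ker hη).measurable
      have h5 := measurable_u
      fun_prop
    rw [lintegral_add_left hm]
    refine (add_le_add (hK a ha) (hK _ ha')).trans (le_of_eq ?_)
    rw [← ENNReal.ofReal_add (by positivity) (by positivity)]
    congr 1; ring
  · have hc := abs_c2_le'
    rcases lt_abs.1 h with h | h
    · refine (lintegral_mono fun θ => ENNReal.ofReal_le_ofReal ?_).trans ((hK 1 (by simp)).trans hmono)
      apply sn_ker_aux hη (sq_nonneg _) (sn_sq_le_one θ)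
      have h1 := norm_sub_one_sq θ
      have h2 := abs_le.1 (hc θ)
      rw [sn_sq, h1]
      have h3 : (2 - c2 θ) * (1 - (c2 θ / 2) ^ 2) ≤ (2 - c2 θ) * (2 - c2 θ) := by
        apply mul_le_mul_of_nonneg_left _ (by linarith)
        nlinarith only [h1]
      have h4 : (2 - c2 θ) * (2 - c2 θ) ≤ (b - c2 θ) * (b - c2 θ) :=
        mul_self_le_mul_self (by linarith only [h2]) (by linarith only [h])
      nlinarith only [h3, h4]
    · refine (lintegral_mono fun θ => ENNReal.ofReal_le_ofReal ?_).trans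
        ((hK (-1) (by simp)).trans hmono)
      apply sn_ker_aux hη (sq_nonneg _) (sn_sq_le_one θ)
      have h1 := norm_add_one_sq θ
      have h2 := abs_le.1 (hc θ)
      rw [sn_sq, h1]
      have h3 : (2 + c2 θ) * (1 - (c2 θ / 2) ^ 2) ≤ (2 + c2 θ) * (2 + c2 θ) := by
        apply mul_le_mul_of_nonneg_left _ (by linarith)
        nlinarith only [h1]
      have h4 : (2 + c2 θ) * (2 + c2 θ) ≤ (c2 θ - b) * (c2 θ - b) :=
        mul_self_le_mul_self (by linarith only [h2]) (by linarith)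
      nlinarith only [h3, h4]

theorem lintegral_sn_inv {η : ℝ} (hη : 0 < η) (hη1 : η ≤ 1) (b : ℝ) :
    ∫⁻ θ : UnitAddCircle, ENNReal.ofReal (sn θ ^ 2 * (√((c2 θ - b) ^ 2 + η ^ 2))⁻¹) ≤
      ENNReal.ofReal ((1 + 4 * π) * (1 + Real.log (1 / η))) := by
  have hpi := Real.pi_pos
  set n : ℕ := ⌈Real.logb 2 (1 / η)⌉₊ with hn
  have hl0 : 0 ≤ Real.log (1 / η) := Real.log_nonneg (by
    rw [le_div_iff₀ hη]; linarith only [hη1])
  have hn1 : 1 ≤ 2 ^ n * η := by
    have h1 : Real.logb 2 (1 / η) ≤ n := Nat.le_ceil _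
    have h2 : (1 / η) ≤ (2:ℝ) ^ (n:ℝ) := by
      rw [← Real.logb_le_iff_le_rpow (by norm_num) (by positivity)]
      exact h1
    rw [Real.rpow_natCast] at h2
    rw [div_le_iff₀ hη] at h2
    exact h2
  have hn2 : (n : ℝ) + 1 ≤ 2 * (1 + Real.log (1 / η)) := by
    have h1 : (n : ℝ) < Real.logb 2 (1 / η) + 1 := by
      apply Nat.ceil_lt_add_one
      exact Real.logb_nonneg (by norm_num) (by rw [le_div_iff₀ hη]; linarith only [hη1])
    have h2 : Real.logb 2 (1 / η) ≤ 2 * Real.log (1 / η) := by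
      unfold Real.logb
      rw [div_le_iff₀ (Real.log_pos (by norm_num))]
      have := Real.log_two_gt_d9
      nlinarith only [hl0, this]
    linarith only [h1, h2]
  have mk : ∀ k : ℕ, Measurable (ker (2 ^ k * η)) := fun k =>
    (continuous_ker (η := 2 ^ k * η) (by positivity)).measurable
  have ms := continuous_sn.measurable
  have mc := measurable_c2
  have hpt : ∀ θ : UnitAddCircle, ENNReal.ofReal (sn θ ^ 2 * (√((c2 θ - b) ^ 2 + η ^ 2))⁻¹) ≤
      1 + 4 * ∑ k ∈ Finset.range (n + 1),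
        ENNReal.ofReal (sn θ ^ 2 * ker (2 ^ k * η) (c2 θ - b)) := by
    intro θ
    have hnn : ∀ k ∈ Finset.range (n + 1), 0 ≤ sn θ ^ 2 * ker (2 ^ k * η) (c2 θ - b) := by
      intro k _
      have := ker_nonneg (η := 2 ^ k * η) (by positivity) (c2 θ - b)
      positivity
    have h1 : sn θ ^ 2 * (√((c2 θ - b) ^ 2 + η ^ 2))⁻¹ ≤
        1 + 4 * ∑ k ∈ Finset.range (n + 1), sn θ ^ 2 * ker (2 ^ k * η) (c2 θ - b) := by
      have h2 := mul_le_mul_of_nonneg_left (inv_sqrt_le hη hn1 (c2 θ - b)) (sq_nonneg (sn θ))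
      have h3 := sn_sq_le_one θ
      rw [← Finset.mul_sum]
      nlinarith only [h2, h3]
    calc _ ≤ ENNReal.ofReal (1 + 4 * ∑ k ∈ Finset.range (n + 1),
          sn θ ^ 2 * ker (2 ^ k * η) (c2 θ - b)) := ENNReal.ofReal_le_ofReal h1
      _ = _ := by
        rw [ENNReal.ofReal_add zero_le_one (by
          have := Finset.sum_nonneg hnn
          positivity), ENNReal.ofReal_mul (by norm_num), ENNReal.ofReal_sum_of_nonneg hnn]
        norm_num
  have hms : ∀ k ∈ Finset.range (n + 1), Measurable fun θ : UnitAddCircle =>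
      ENNReal.ofReal (sn θ ^ 2 * ker (2 ^ k * η) (c2 θ - b)) := by
    intro k _
    have := mk k
    fun_prop
  refine (lintegral_mono hpt).trans ?_
  rw [lintegral_add_left measurable_const, lintegral_const_mul _ (Finset.measurable_sum _ hms),
    lintegral_finsetSum _ hms, lintegral_const, measure_univ, mul_one]
  calc 1 + 4 * ∑ k ∈ Finset.range (n + 1), ∫⁻ θ : UnitAddCircle,
        ENNReal.ofReal (sn θ ^ 2 * ker (2 ^ k * η) (c2 θ - b))
      ≤ 1 + 4 * ∑ k ∈ Finset.range (n + 1), ENNReal.ofReal (π / 2) := by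
        gcongr with k _
        exact lintegral_sn_ker (by positivity) b
    _ = ENNReal.ofReal (1 + 4 * (((n + 1 : ℕ) : ℝ) * (π / 2))) := by
        rw [Finset.sum_const, Finset.card_range, nsmul_eq_mul, ENNReal.ofReal_add zero_le_one
          (by positivity), ENNReal.ofReal_mul (by norm_num), ENNReal.ofReal_mul (by positivity),
          ENNReal.ofReal_natCast]
        norm_num
    _ ≤ _ := by
        apply ENNReal.ofReal_le_ofReal
        push_cast
        have h4 : (n + 1 : ℝ) * (π / 2) ≤ 2 * (1 + Real.log (1 / η)) * (π / 2) :=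
          mul_le_mul_of_nonneg_right hn2 (by positivity)
        nlinarith only [hl0, h4]

/-! ### One-dimensional trigonometric polynomials -/

theorem integral_fourier1 (k l : ℤ) :
    ∫ t : UnitAddCircle, conj (fourier k t : ℂ) * fourier l t = if k = l then 1 else 0 := by
  have h := (orthonormal_iff_ite.mp (orthonormal_fourier (T := (1:ℝ)))) k l
  rw [← h]
  unfold fourierLp
  rw [ContinuousMap.inner_toLp]
  apply integral_congr_ae
  filter_upwards with θ
  ring

theorem integrable_of_cont1 {E : Type*} [NormedAddCommGroup E] {f : UnitAddCircle → E}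
    (hf : Continuous f) : Integrable f :=
  hf.integrable_of_hasCompactSupport (HasCompactSupport.of_compactSpace f)

theorem parseval1 (s : Finset ℤ) (c : ℤ → ℂ) :
    ∫ t : UnitAddCircle, ‖∑ k ∈ s, c k * fourier k t‖ ^ 2 = ∑ k ∈ s, ‖c k‖ ^ 2 := by
  have h0 : ∫ t : UnitAddCircle, conj (∑ k ∈ s, c k * fourier k t) *
      (∑ k ∈ s, c k * fourier k t) = ∑ k ∈ s, conj (c k) * c k := by
    have h1 : ∀ t : UnitAddCircle, conj (∑ k ∈ s, c k * fourier k t) *
        (∑ k ∈ s, c k * fourier k t) =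
        ∑ x ∈ s, ∑ y ∈ s, (conj (c x) * c y) * (conj (fourier x t : ℂ) * fourier y t) := by
      intro t
      rw [map_sum, Finset.sum_mul_sum]
      apply Finset.sum_congr rfl
      intro x _
      apply Finset.sum_congr rfl
      intro y _
      rw [map_mul]
      ring
    have hint : ∀ x y : ℤ, Integrable
        (fun t : UnitAddCircle => (conj (c x) * c y) * (conj (fourier x t : ℂ) * fourier y t)) := by
      intro x y
      apply integrable_of_cont1
      have h2 := (fourier (T := (1:ℝ)) x).continuous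
      have h3 := (fourier (T := (1:ℝ)) y).continuous
      fun_prop
    simp only [h1]
    rw [integral_finsetSum _ (fun x _ => integrable_finsetSum _ fun y _ => hint x y)]
    apply Finset.sum_congr rfl
    intro x hx
    rw [integral_finsetSum _ (fun y _ => hint x y), Finset.sum_eq_single x]
    · rw [integral_const_mul, integral_fourier1, if_pos rfl, mul_one]
    · intro y _ hyx
      rw [integral_const_mul, integral_fourier1, if_neg (Ne.symm hyx), mul_zero]
    · exact fun h => absurd hx h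
  have h1 : ∀ z : ℂ, conj z * z = ((‖z‖ ^ 2 : ℝ) : ℂ) := by
    intro z
    rw [mul_comm, Complex.mul_conj, Complex.normSq_eq_norm_sq]
  simp only [h1] at h0
  rw [integral_complex_ofReal, ← Complex.ofReal_sum] at h0
  exact_mod_cast h0

theorem sup_trig1 (s : Finset ℤ) (c : ℤ → ℂ) (t : UnitAddCircle) :
    ‖∑ k ∈ s, c k * fourier k t‖ ^ 2 ≤
      s.card * ∫ t : UnitAddCircle, ‖∑ k ∈ s, c k * fourier k t‖ ^ 2 := by
  rw [parseval1]
  have h1 : ‖∑ k ∈ s, c k * fourier k t‖ ≤ ∑ k ∈ s, ‖c k‖ := by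
    refine (norm_sum_le _ _).trans (Finset.sum_le_sum fun k _ => ?_)
    rw [norm_mul, fourier_apply, Circle.norm_coe, mul_one]
  calc ‖∑ k ∈ s, c k * fourier k t‖ ^ 2 ≤ (∑ k ∈ s, ‖c k‖) ^ 2 :=
        pow_le_pow_left₀ (norm_nonneg _) h1 2
    _ ≤ s.card * ∑ k ∈ s, ‖c k‖ ^ 2 := sq_sum_le_card_mul_sum_sq

end Pool.Agent.Anderson
end
end -- Pool.Agent.Helper17_Anderson.Slice

section -- Pool.Agent.Helper17_Anderson.Ball

/-!
# Mass of a quasimode in a ball
-/

set_option autoImplicit false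

open MeasureTheory Set Real Function Matrix

open scoped ENNReal ComplexConjugate ComplexOrder

noncomputable section

namespace Pool.Agent.Anderson

local instance haarMS10 : MeasureSpace UnitAddCircle := ⟨AddCircle.haarAddCircle⟩

local instance haarAHBall : Measure.IsAddHaarMeasure (volume : Measure UnitAddCircle) :=
  inferInstanceAs (Measure.IsAddHaarMeasure AddCircle.haarAddCircle)

local instance haarPMBall : IsProbabilityMeasure (volume : Measure UnitAddCircle) :=
  inferInstanceAs (IsProbabilityMeasure AddCircle.haarAddCircle)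

variable {d : ℕ}

theorem ch_update (y : Site d) (θ : UnitAddTorus (Fin d)) (i : Fin d) (t : UnitAddCircle) :
    ch y (update θ i t) = fourier (y i) t * ∏ j ∈ Finset.univ.erase i, fourier (y j) (θ j) := by
  unfold ch
  simp only [UnitAddTorus.mFourier, ContinuousMap.coe_mk]
  rw [← Finset.mul_prod_erase Finset.univ _ (Finset.mem_univ i), update_self]
  congr 1
  apply Finset.prod_congr rfl
  intro j hj
  rw [update_of_ne (Finset.ne_of_mem_erase hj)]

theorem hatS_update {x : Site d} {ρ : ℕ} {B : Finset (Site d)} (hB : B ⊆ box x ρ)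
    (w : Site d → ℂ) (θ : UnitAddTorus (Fin d)) (i : Fin d) (t : UnitAddCircle) :
    hatS B w (update θ i t) = ∑ k ∈ Finset.Icc (x i - ρ) (x i + ρ),
      (∑ y ∈ B.filter (fun y => y i = k), w y * ∏ j ∈ Finset.univ.erase i, fourier (y j) (θ j)) *
        fourier k t := by
  unfold hatS
  have hmaps : ∀ y ∈ B, y i ∈ Finset.Icc (x i - (ρ : ℤ)) (x i + ρ) := by
    intro y hy
    have h1 := abs_le.1 (mem_box.1 (hB hy) i)
    rw [Finset.mem_Icc]
    constructor <;> linarith
  rw [← Finset.sum_fiberwise_of_maps_to hmaps]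
  apply Finset.sum_congr rfl
  intro k _
  rw [Finset.sum_mul]
  apply Finset.sum_congr rfl
  intro y hy
  have hyk : y i = k := (Finset.mem_filter.1 hy).2
  rw [ch_update, hyk]
  ring

theorem slice_sup {x : Site d} {ρ : ℕ} {B : Finset (Site d)} (hB : B ⊆ box x ρ)
    (w : Site d → ℂ) (θ : UnitAddTorus (Fin d)) (i : Fin d) (t : UnitAddCircle) :
    ‖hatS B w (update θ i t)‖ ^ 2 ≤
      (2 * ρ + 1) * ∫ s : UnitAddCircle, ‖hatS B w (update θ i s)‖ ^ 2 := by
  simp only [hatS_update hB]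
  have h := sup_trig1 (Finset.Icc (x i - (ρ : ℤ)) (x i + ρ)) (fun k =>
    ∑ y ∈ B.filter (fun y => y i = k), w y * ∏ j ∈ Finset.univ.erase i, fourier (y j) (θ j)) t
  refine h.trans (le_of_eq ?_)
  congr 1
  rw [Int.card_Icc]
  have : (x i + ρ + 1 - (x i - ρ)).toNat = 2 * ρ + 1 := by omega
  rw [this]
  push_cast
  rfl

theorem sy_update (θ : UnitAddTorus (Fin d)) (i : Fin d) (t : UnitAddCircle) :
    sy (update θ i t) = c2 t + ∑ j ∈ Finset.univ.erase i, c2 (θ j) := by
  unfold sy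
  rw [← Finset.add_sum_erase Finset.univ _ (Finset.mem_univ i), update_self]
  congr 1
  apply Finset.sum_congr rfl
  intro j hj
  rw [update_of_ne (Finset.ne_of_mem_erase hj)]

theorem dir_bound {x : Site d} {ρ : ℕ} {B : Finset (Site d)} (hB : B ⊆ box x ρ)
    (w : Site d → ℂ) (E : ℝ) {η : ℝ} (hη : 0 < η) (hη1 : η ≤ 1) (i : Fin d) :
    ∫ θ, sn (θ i) ^ 2 * (md E η θ)⁻¹ * ‖hatS B w θ‖ ^ 2 ≤
      ((2 * ρ + 1) * ((1 + 4 * π) * (1 + Real.log (1 / η)))) * ∫ θ, ‖hatS B w θ‖ ^ 2 := by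
  have hl0 : 0 ≤ Real.log (1 / η) := Real.log_nonneg (by rw [le_div_iff₀ hη]; linarith)
  have hpi := Real.pi_pos
  set K : ℝ := (1 + 4 * π) * (1 + Real.log (1 / η)) with hK
  have hK0 : 0 ≤ K := by positivity
  have cs : Continuous fun θ : UnitAddTorus (Fin d) => sn (θ i) :=
    continuous_sn.comp (continuous_apply i)
  have cm := continuous_inv_md (d := d) (E := E) hη
  have ch' := continuous_hatS B w
  have hnn : ∀ θ, 0 ≤ sn (θ i) ^ 2 * (md E η θ)⁻¹ * ‖hatS B w θ‖ ^ 2 := by
    intro θ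
    have := inv_pos.2 (md_pos (E := E) hη θ)
    positivity
  set f : UnitAddTorus (Fin d) → ℝ≥0∞ := fun θ =>
    ENNReal.ofReal (sn (θ i) ^ 2 * (md E η θ)⁻¹ * ‖hatS B w θ‖ ^ 2) with hf
  set g : UnitAddTorus (Fin d) → ℝ≥0∞ := fun θ =>
    ENNReal.ofReal ((2 * ρ + 1) * K) * ENNReal.ofReal (‖hatS B w θ‖ ^ 2) with hg
  have hfm : Measurable f := by
    have : Continuous fun θ => sn (θ i) ^ 2 * (md E η θ)⁻¹ * ‖hatS B w θ‖ ^ 2 := by fun_prop
    exact ENNReal.measurable_ofReal.comp this.measurable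
  have hgm : Measurable g := by
    have : Continuous fun θ => ‖hatS B w θ‖ ^ 2 := by fun_prop
    exact (ENNReal.measurable_ofReal.comp this.measurable).const_mul _
  have hslice : ∀ θ, ∫⁻ t : UnitAddCircle, f (update θ i t) ≤
      ∫⁻ t : UnitAddCircle, g (update θ i t) := by
    intro θ
    have cup : Continuous fun t : UnitAddCircle => update θ i t :=
      continuous_const.update i continuous_id
    have ch2 : Continuous fun t : UnitAddCircle => ‖hatS B w (update θ i t)‖ ^ 2 := by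
      have := ch'.comp cup
      exact (this.norm).pow 2
    set b : ℝ := E - ∑ j ∈ Finset.univ.erase i, c2 (θ j) with hb
    have hmd : ∀ t, md E η (update θ i t) = √((c2 t - b) ^ 2 + η ^ 2) := by
      intro t
      unfold md
      rw [sy_update, hb]
      congr 2
      ring
    set J : ℝ := ∫ s : UnitAddCircle, ‖hatS B w (update θ i s)‖ ^ 2 with hJ
    have hJ0 : 0 ≤ J := integral_nonneg fun s => by positivity
    have hJl : ∫⁻ s : UnitAddCircle, ENNReal.ofReal (‖hatS B w (update θ i s)‖ ^ 2) =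
        ENNReal.ofReal J := by
      rw [hJ, ofReal_integral_eq_lintegral_ofReal (integrable_of_cont1 ch2)
        (Filter.Eventually.of_forall fun s => by positivity)]
    calc ∫⁻ t : UnitAddCircle, f (update θ i t)
        ≤ ∫⁻ t : UnitAddCircle, ENNReal.ofReal (sn t ^ 2 * (√((c2 t - b) ^ 2 + η ^ 2))⁻¹) *
            ENNReal.ofReal ((2 * ρ + 1) * J) := by
          apply lintegral_mono
          intro t
          simp only [hf, update_self, hmd]
          have h1 : 0 ≤ sn t ^ 2 * (√((c2 t - b) ^ 2 + η ^ 2))⁻¹ := by positivity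
          rw [ENNReal.ofReal_mul h1]
          gcongr
          exact slice_sup hB w θ i t
      _ = (∫⁻ t : UnitAddCircle, ENNReal.ofReal (sn t ^ 2 * (√((c2 t - b) ^ 2 + η ^ 2))⁻¹)) *
            ENNReal.ofReal ((2 * ρ + 1) * J) := by
          have h1 := continuous_sn.measurable
          have h2 := measurable_c2
          rw [lintegral_mul_const _ (by fun_prop)]
      _ ≤ ENNReal.ofReal K * ENNReal.ofReal ((2 * ρ + 1) * J) := by
          gcongr
          exact lintegral_sn_inv hη hη1 b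
      _ = ENNReal.ofReal ((2 * ρ + 1) * K) * ENNReal.ofReal J := by
          rw [← ENNReal.ofReal_mul hK0, ← ENNReal.ofReal_mul (by positivity)]
          congr 1
          ring
      _ = ∫⁻ t : UnitAddCircle, g (update θ i t) := by
          have hmm : Measurable fun t : UnitAddCircle =>
              ENNReal.ofReal (‖hatS B w (update θ i t)‖ ^ 2) :=
            ENNReal.measurable_ofReal.comp ch2.measurable
          simp only [hg]
          rw [lintegral_const_mul _ hmm, hJl]
  set μ : ∀ _ : Fin d, Measure UnitAddCircle := fun _ => volume with hμ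
  have key : ∫⋯∫⁻_({i} : Finset (Fin d)), f ∂μ ≤ ∫⋯∫⁻_({i} : Finset (Fin d)), g ∂μ := by
    rw [lmarginal_singleton, lmarginal_singleton]
    exact hslice
  have hle := lintegral_le_of_lmarginal_le (μ := μ) {i} hfm hgm key
  have hvolf : ∫⁻ θ, f θ ∂(Measure.pi μ) = ∫⁻ θ, f θ := rfl
  have hvolg : ∫⁻ θ, g θ ∂(Measure.pi μ) = ∫⁻ θ, g θ := rfl
  rw [hvolf, hvolg] at hle
  have e1 : ∫⁻ θ, f θ = ENNReal.ofReal
      (∫ θ, sn (θ i) ^ 2 * (md E η θ)⁻¹ * ‖hatS B w θ‖ ^ 2) := by
    rw [ofReal_integral_eq_lintegral_ofReal _ (Filter.Eventually.of_forall hnn)]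
    apply integrable_of_cont
    fun_prop
  have e2 : ∫⁻ θ, g θ = ENNReal.ofReal
      (((2 * ρ + 1) * K) * ∫ θ, ‖hatS B w θ‖ ^ 2) := by
    rw [ENNReal.ofReal_mul (by positivity), ofReal_integral_eq_lintegral_ofReal _
      (Filter.Eventually.of_forall fun θ => by positivity)]
    · simp only [hg]
      rw [lintegral_const_mul]
      have : Continuous fun θ => ‖hatS B w θ‖ ^ 2 := by fun_prop
      exact ENNReal.measurable_ofReal.comp this.measurable
    · apply integrable_of_cont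
      fun_prop
  rw [e1, e2] at hle
  exact (ENNReal.ofReal_le_ofReal_iff (by
    have : 0 ≤ ∫ θ, ‖hatS B w θ‖ ^ 2 := integral_nonneg fun θ => by positivity
    positivity)).1 hle

/-- `E` is at distance at least `δ` from the critical values `2d - 4k`, `0 ≤ k ≤ d`, of the
symbol. -/
def Regular (d : ℕ) (E δ : ℝ) : Prop := ∀ k : ℕ, k ≤ d → δ ≤ |E - (2 * d - 4 * k)|

theorem crit_near (θ : UnitAddTorus (Fin d)) :
    ∃ k : ℕ, k ≤ d ∧ |sy θ - (2 * d - 4 * k)| ≤ 2 * ∑ i, sn (θ i) ^ 2 := by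
  classical
  set N : Finset (Fin d) := Finset.univ.filter (fun i => c2 (θ i) < 0) with hN
  refine ⟨N.card, ?_, ?_⟩
  · have := Finset.card_le_univ N
    simpa using this
  · have e1 : (2 * (d : ℝ) - 4 * N.card) = ∑ i : Fin d, (if c2 (θ i) < 0 then (-2 : ℝ) else 2) := by
      have h1 : ∀ i : Fin d, (if c2 (θ i) < 0 then (-2 : ℝ) else 2) =
          2 - 4 * (if c2 (θ i) < 0 then (1 : ℝ) else 0) := by
        intro i
        split_ifs <;> norm_num
      simp only [h1]
      rw [Finset.sum_sub_distrib, ← Finset.mul_sum, ← Finset.sum_filter, ← hN]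
      simp
      ring
    rw [e1]
    unfold sy
    rw [← Finset.sum_sub_distrib]
    refine (Finset.abs_sum_le_sum_abs _ _).trans ?_
    rw [Finset.mul_sum]
    apply Finset.sum_le_sum
    intro i _
    have h2 := abs_le.1 (abs_c2_le' (θ i))
    rw [sn_sq]
    split_ifs with h
    · rw [abs_of_nonneg (by linarith)]
      nlinarith only [h2, h]
    · push Not at h
      rw [abs_of_nonpos (by linarith)]
      nlinarith only [h2, h]

theorem regular_pointwise {E δ η : ℝ} (hδ : 0 < δ) (hη : 0 < η) (hE : Regular d E δ)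
    (θ : UnitAddTorus (Fin d)) :
    (md E η θ)⁻¹ ≤ 2 / δ + 4 / δ * ∑ i, sn (θ i) ^ 2 * (md E η θ)⁻¹ := by
  have hm := md_pos (E := E) hη θ
  have hsum : 0 ≤ ∑ i, sn (θ i) ^ 2 := Finset.sum_nonneg fun i _ => sq_nonneg _
  rw [← Finset.sum_mul]
  have hmi := inv_pos.2 hm
  by_cases h : δ / 2 ≤ |sy θ - E|
  · have h1 : δ / 2 ≤ md E η θ := by
      unfold md
      apply Real.le_sqrt_of_sq_le
      have h2 : (δ / 2) ^ 2 ≤ (sy θ - E) ^ 2 := by
        rw [← sq_abs (sy θ - E)]
        exact pow_le_pow_left₀ (by positivity) h 2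
      nlinarith only [sq_nonneg η, h2]
    have h2 : (md E η θ)⁻¹ ≤ 2 / δ := by
      have := inv_anti₀ (by positivity) h1
      rw [inv_div] at this
      exact this
    have h3 : 0 ≤ 4 / δ * ((∑ i, sn (θ i) ^ 2) * (md E η θ)⁻¹) := by positivity
    linarith only [h2, h3]
  · push Not at h
    obtain ⟨k, hk, hk2⟩ := crit_near θ
    have h1 := hE k hk
    have h2 : δ / 4 ≤ ∑ i, sn (θ i) ^ 2 := by
      have h3 : |E - (2 * d - 4 * k)| ≤ |sy θ - (2 * d - 4 * k)| + |sy θ - E| := by
        rw [abs_sub_comm (sy θ) E]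
        have := abs_add_le (sy θ - (2 * d - 4 * k)) (E - sy θ)
        rw [show sy θ - (2 * d - 4 * k) + (E - sy θ) = E - (2 * d - 4 * k) by ring] at this
        exact this
      linarith only [h, hk2, h1, h3]
    have h4 : 1 ≤ 4 / δ * ∑ i, sn (θ i) ^ 2 := by
      rw [div_mul_eq_mul_div, le_div_iff₀ hδ]
      linarith only [h2]
    have h5 : (md E η θ)⁻¹ ≤ 4 / δ * (∑ i, sn (θ i) ^ 2) * (md E η θ)⁻¹ :=
      le_mul_of_one_le_left hmi.le h4
    have h6 : 0 < 2 / δ := by positivity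
    linarith only [h5, h6]

/-- form bound for the compression to a ball -/
theorem form_ball {x : Site d} {ρ : ℕ} {B : Finset (Site d)} (hB : B ⊆ box x ρ)
    (w : Site d → ℂ) {E δ η : ℝ} (hδ : 0 < δ) (hE : Regular d E δ) (hη : 0 < η) (hη1 : η ≤ 1) :
    ∫ θ, (md E η θ)⁻¹ * ‖hatS B w θ‖ ^ 2 ≤
      (2 + 4 * d * (1 + 4 * π)) / δ * ((2 * ρ + 1) * (1 + Real.log (1 / η))) *
        ∑ y ∈ B, ‖w y‖ ^ 2 := by
  have hl0 : 0 ≤ Real.log (1 / η) := Real.log_nonneg (by rw [le_div_iff₀ hη]; linarith)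
  have hpi := Real.pi_pos
  have cm := continuous_inv_md (d := d) (E := E) hη
  have ch' := continuous_hatS B w
  have cs : ∀ i, Continuous fun θ : UnitAddTorus (Fin d) => sn (θ i) := fun i =>
    continuous_sn.comp (continuous_apply i)
  set L : ℝ := 1 + Real.log (1 / η) with hL
  set S : ℝ := ∑ y ∈ B, ‖w y‖ ^ 2 with hS
  have hS0 : 0 ≤ S := Finset.sum_nonneg fun y _ => by positivity
  have hpar : ∫ θ, ‖hatS B w θ‖ ^ 2 = S := parsevalS B w
  have h1 : ∫ θ, (md E η θ)⁻¹ * ‖hatS B w θ‖ ^ 2 ≤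
      ∫ θ, (2 / δ * ‖hatS B w θ‖ ^ 2 +
        4 / δ * ∑ i, sn (θ i) ^ 2 * (md E η θ)⁻¹ * ‖hatS B w θ‖ ^ 2) := by
    apply integral_mono
    · apply integrable_of_cont
      fun_prop
    · apply integrable_of_cont
      fun_prop
    · intro θ
      have h2 := mul_le_mul_of_nonneg_right (regular_pointwise hδ hη hE θ)
        (by positivity : 0 ≤ ‖hatS B w θ‖ ^ 2)
      refine h2.trans (le_of_eq ?_)
      have e3 : ∑ i, sn (θ i) ^ 2 * (md E η θ)⁻¹ * ‖hatS B w θ‖ ^ 2 =
          (∑ i, sn (θ i) ^ 2 * (md E η θ)⁻¹) * ‖hatS B w θ‖ ^ 2 := by rw [Finset.sum_mul]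
      simp only
      rw [e3]
      ring
  have h2 : ∫ θ, (2 / δ * ‖hatS B w θ‖ ^ 2 +
        4 / δ * ∑ i, sn (θ i) ^ 2 * (md E η θ)⁻¹ * ‖hatS B w θ‖ ^ 2) =
      2 / δ * S + 4 / δ * ∑ i, ∫ θ, sn (θ i) ^ 2 * (md E η θ)⁻¹ * ‖hatS B w θ‖ ^ 2 := by
    rw [integral_add, integral_const_mul, integral_const_mul, hpar, integral_finsetSum]
    · intro i _
      have := cs i
      apply integrable_of_cont
      fun_prop
    · apply integrable_of_cont
      fun_prop
    · apply integrable_of_cont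
      fun_prop
  have h3 : ∑ i, ∫ θ, sn (θ i) ^ 2 * (md E η θ)⁻¹ * ‖hatS B w θ‖ ^ 2 ≤
      d * (((2 * ρ + 1) * ((1 + 4 * π) * L)) * S) := by
    refine (Finset.sum_le_sum fun i _ => dir_bound hB w E hη hη1 i).trans (le_of_eq ?_)
    rw [Finset.sum_const, Finset.card_univ, Fintype.card_fin, nsmul_eq_mul, hpar]
  have h4 : 4 / δ * ∑ i, ∫ θ, sn (θ i) ^ 2 * (md E η θ)⁻¹ * ‖hatS B w θ‖ ^ 2 ≤
      4 / δ * (d * (((2 * ρ + 1) * ((1 + 4 * π) * L)) * S)) :=
    mul_le_mul_of_nonneg_left h3 (by positivity)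
  have h5 : 2 / δ * S ≤ 2 / δ * (((2 * ρ + 1) * L) * S) := by
    apply mul_le_mul_of_nonneg_left _ (by positivity)
    apply le_mul_of_one_le_left hS0
    have : 1 ≤ (2 * (ρ : ℝ) + 1) := by
      have : (0:ℝ) ≤ ρ := by positivity
      linarith only
    have hL1 : 1 ≤ L := by rw [hL]; linarith only [hl0]
    nlinarith only [hl0]
  calc _ ≤ 2 / δ * S + 4 / δ * ∑ i, ∫ θ, sn (θ i) ^ 2 * (md E η θ)⁻¹ * ‖hatS B w θ‖ ^ 2 := by
        rw [← h2]; exact h1
    _ ≤ 2 / δ * (((2 * ρ + 1) * L) * S) +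
        4 / δ * (d * (((2 * ρ + 1) * ((1 + 4 * π) * L)) * S)) := add_le_add h5 h4
    _ = _ := by
        field_simp

/-- duality: the weighted energy controls the mass in a ball -/
theorem mass_of_N2 {Λ B : Finset (Site d)} {w : Site d → ℂ} (hw : ∀ y ∉ Λ, w y = 0)
    {E η T : ℝ} (hη : 0 < η) (hT : 0 < T)
    (hform : ∫ θ, (md E η θ)⁻¹ * ‖hatS B w θ‖ ^ 2 ≤ T * ∑ y ∈ B, ‖w y‖ ^ 2) :
    ∑ y ∈ B, ‖w y‖ ^ 2 ≤ T * ∫ θ, md E η θ * ‖hatV (fun y : Λ => w y) θ‖ ^ 2 := by
  set S : ℝ := ∑ y ∈ B, ‖w y‖ ^ 2 with hS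
  set N2 : ℝ := ∫ θ, md E η θ * ‖hatV (fun y : Λ => w y) θ‖ ^ 2 with hN2
  have cm := continuous_md (d := d) E η
  have cim := continuous_inv_md (d := d) (E := E) hη
  have cb := continuous_hatS B w
  have cw := continuous_hatS Λ w
  have hpair : (S : ℂ) = ∫ θ, conj (hatS B w θ) * hatS Λ w θ := by
    have h1 : ∀ θ, conj (hatS B w θ) * hatS Λ w θ =
        ∑ y ∈ B, conj (w y) * (conj (ch y θ) * hatS Λ w θ) := by
      intro θ
      conv_lhs => unfold hatS
      rw [map_sum, Finset.sum_mul]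
      apply Finset.sum_congr rfl
      intro y _
      rw [map_mul, mul_assoc]
      rfl
    simp only [h1]
    rw [integral_finsetSum]
    · rw [hS]
      push_cast
      apply Finset.sum_congr rfl
      intro y _
      rw [integral_const_mul, integral_ch_hatS hw, mul_comm, Complex.mul_conj,
        Complex.normSq_eq_norm_sq]
      push_cast
      rfl
    · intro y _
      apply integrable_of_cont
      have := continuous_ch y
      fun_prop
  have hle : S ≤ 1 / 2 * S + T / 2 * N2 := by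
    have h1 : S = ‖∫ θ, conj (hatS B w θ) * hatS Λ w θ‖ := by
      rw [← hpair, Complex.norm_real, Real.norm_eq_abs,
        abs_of_nonneg (Finset.sum_nonneg fun y _ => by positivity)]
    have h2 : ‖∫ θ, conj (hatS B w θ) * hatS Λ w θ‖ ≤
        1 / (2 * T) * (∫ θ, (md E η θ)⁻¹ * ‖hatS B w θ‖ ^ 2) + T / 2 * N2 := by
      refine (norm_integral_le_integral_norm _).trans ?_
      rw [hN2]
      simp only [← hatS_eq_hatV]
      rw [← integral_const_mul, ← integral_const_mul, ← integral_add]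
      · apply integral_mono
        · apply integrable_of_cont
          fun_prop
        · apply integrable_of_cont
          fun_prop
        · intro θ
          have hmp := md_pos (E := E) hη θ
          simp only
          rw [norm_mul, RCLike.norm_conj]
          have h3 : 1 / (2 * T) * ((md E η θ)⁻¹ * ‖hatS B w θ‖ ^ 2) +
              T / 2 * (md E η θ * ‖hatS Λ w θ‖ ^ 2) - ‖hatS B w θ‖ * ‖hatS Λ w θ‖ =
              (md E η θ)⁻¹ / (2 * T) * (‖hatS B w θ‖ - T * md E η θ * ‖hatS Λ w θ‖) ^ 2 := by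
            field_simp
            ring
          have h4 : 0 ≤ (md E η θ)⁻¹ / (2 * T) *
              (‖hatS B w θ‖ - T * md E η θ * ‖hatS Λ w θ‖) ^ 2 := by
            have := inv_pos.2 hmp
            positivity
          linarith only [h3, h4]
      · apply integrable_of_cont
        fun_prop
      · apply integrable_of_cont
        fun_prop
    have h3 : 1 / (2 * T) * (∫ θ, (md E η θ)⁻¹ * ‖hatS B w θ‖ ^ 2) ≤ 1 / (2 * T) * (T * S) :=
      mul_le_mul_of_nonneg_left hform (by positivity)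
    have h4 : 1 / (2 * T) * (T * S) = 1 / 2 * S := by field_simp
    linarith
  linarith only [hle]

end Pool.Agent.Anderson
end
end -- Pool.Agent.Helper17_Anderson.Ball

section -- Pool.Agent.Helper17_Anderson.TwoDim

/-!
# Two-dimensional slices
-/

set_option autoImplicit false

open MeasureTheory Set Real Function Matrix

open scoped ENNReal ComplexConjugate ComplexOrder

noncomputable section

namespace Pool.Agent.Anderson

local instance haarMS12 : MeasureSpace UnitAddCircle := ⟨AddCircle.haarAddCircle⟩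

local instance haarAHTwo : Measure.IsAddHaarMeasure (volume : Measure UnitAddCircle) :=
  inferInstanceAs (Measure.IsAddHaarMeasure AddCircle.haarAddCircle)

local instance haarPMTwo : IsProbabilityMeasure (volume : Measure UnitAddCircle) :=
  inferInstanceAs (IsProbabilityMeasure AddCircle.haarAddCircle)

variable {d : ℕ}

theorem quad_lower (c : ℝ) : ∃ a b : ℂ, ‖a‖ = 1 ∧ ‖b‖ = 1 ∧ ∀ θ,
    ‖u θ - a‖ ^ 2 ≤ |c2 θ - c| ∨ ‖u θ - b‖ ^ 2 ≤ |c2 θ - c| := by
  rcases le_or_gt |c| 2 with h | h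
  · obtain ⟨a, ha, hac, -⟩ := exists_a h
    refine ⟨a, conj a, ha, by rw [Complex.norm_conj, ha], fun θ => ?_⟩
    rw [c2_sub_eq ha hac θ]
    have n1 := norm_nonneg (u θ - a)
    have n2 := norm_nonneg (u θ - conj a)
    rcases le_total ‖u θ - a‖ ‖u θ - conj a‖ with h3 | h3
    · left; nlinarith only [n1, h3]
    · right; nlinarith only [n2, h3]
  · rcases lt_abs.1 h with h | h
    · refine ⟨1, 1, by simp, by simp, fun θ => Or.inl ?_⟩
      have h2 := abs_le.1 (abs_c2_le' θ)
      rw [norm_sub_one_sq, abs_of_nonpos (by linarith)]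
      linarith
    · refine ⟨-1, -1, by simp, by simp, fun θ => Or.inl ?_⟩
      have h2 := abs_le.1 (abs_c2_le' θ)
      rw [norm_add_one_sq, abs_of_nonneg (by linarith)]
      linarith

theorem ker_sq_le {η : ℝ} (hη : 0 < η) (r : ℝ) :
    ker η (r ^ 2) ≤ 2 / √η * ker (√η) r := by
  have hs : 0 < √η := Real.sqrt_pos.2 hη
  have hsq : √η ^ 2 = η := Real.sq_sqrt hη.le
  unfold ker
  rw [div_mul_div_comm, hsq, mul_comm (√η) (r ^ 2 + η), mul_div_mul_right _ _ hs.ne',
    div_le_div_iff₀ (by positivity) (by positivity)]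
  have h1 : (r ^ 2 + η) ^ 2 ≤ 2 * ((r ^ 2) ^ 2 + η ^ 2) := by nlinarith only [sq_nonneg (r ^ 2 - η)]
  have h2 : η * (r ^ 2 + η) ≤ (r ^ 2 + η) ^ 2 := by nlinarith only [sq_nonneg r, sq_nonneg (r ^ 2), hη]
  linarith

theorem lintegral_ker_sqrt {η : ℝ} (hη : 0 < η) (c : ℝ) :
    ∫⁻ θ : UnitAddCircle, ENNReal.ofReal (ker η (c2 θ - c)) ≤ ENNReal.ofReal (π / √η) := by
  obtain ⟨a, b, ha, hb, hab⟩ := quad_lower c
  have hs : 0 < √η := Real.sqrt_pos.2 hη
  have hpi := Real.pi_pos
  have hK : ∀ a : ℂ, ‖a‖ = 1 → ∫⁻ θ : UnitAddCircle, ENNReal.ofReal (2 / √η * ker (√η) ‖u θ - a‖) ≤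
      ENNReal.ofReal (2 / √η * (π / 4)) := by
    intro a ha
    have h1 := lintegral_ker_circle hs zero_lt_one ha
    simp only [one_mul] at h1
    have mk := (continuous_ker hs).measurable
    have mu := measurable_u
    have h2 : ∀ θ : UnitAddCircle, ENNReal.ofReal (2 / √η * ker (√η) ‖u θ - a‖) =
        ENNReal.ofReal (2 / √η) * ENNReal.ofReal (ker (√η) ‖u θ - a‖) := fun θ =>
      ENNReal.ofReal_mul (by positivity)
    simp only [h2]
    rw [lintegral_const_mul _ (by fun_prop), ENNReal.ofReal_mul (by positivity)]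
    gcongr
    simpa using h1
  have hpt : ∀ θ, ENNReal.ofReal (ker η (c2 θ - c)) ≤
      ENNReal.ofReal (2 / √η * ker (√η) ‖u θ - a‖) +
      ENNReal.ofReal (2 / √η * ker (√η) ‖u θ - b‖) := by
    intro θ
    rw [← ker_abs]
    rcases hab θ with h | h
    · refine le_add_right (ENNReal.ofReal_le_ofReal ?_)
      exact (ker_anti hη (by positivity) h).trans (ker_sq_le hη _)
    · refine le_add_left (ENNReal.ofReal_le_ofReal ?_)
      exact (ker_anti hη (by positivity) h).trans (ker_sq_le hη _)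
  refine (lintegral_mono hpt).trans ?_
  have mk := (continuous_ker hs).measurable
  have mu := measurable_u
  rw [lintegral_add_left (by fun_prop)]
  refine (add_le_add (hK a ha) (hK b hb)).trans (le_of_eq ?_)
  rw [← ENNReal.ofReal_add (by positivity) (by positivity)]
  congr 1
  field_simp
  ring

/-- regularised inverse square root -/
def Wm (η x : ℝ) : ℝ≥0∞ := ENNReal.ofReal (1 / √(max |x| η))

theorem measurable_Wm (η : ℝ) : Measurable (Wm η) := by
  unfold Wm
  fun_prop

theorem Wm_of_le {η x : ℝ} (h : |x| ≤ η) : Wm η x = ENNReal.ofReal (1 / √η) := by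
  unfold Wm; rw [max_eq_right h]

theorem Wm_of_ge {η x : ℝ} (hη : 0 < η) (h : η ≤ |x|) : Wm η x = W (1/2) x := by
  have hx : 0 < |x| := lt_of_lt_of_le hη h
  unfold Wm W
  rw [max_eq_left h, ENNReal.ofReal_rpow_of_pos hx, Real.rpow_neg hx.le, ← Real.sqrt_eq_rpow,
    one_div]

theorem lintegral_P2 {η : ℝ} (hη : 0 < η) (c : ℝ) :
    ∫⁻ θ : UnitAddCircle, ENNReal.ofReal (ker η (c2 θ - c)) ≤
      ENNReal.ofReal π * (Wm η (c - 2) + Wm η (c + 2)) := by
  have h1 := lintegral_ker_sqrt hη c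
  have hpi := Real.pi_pos
  have h2 : ENNReal.ofReal (π / √η) = ENNReal.ofReal π * ENNReal.ofReal (1 / √η) := by
    rw [← ENNReal.ofReal_mul hpi.le]
    congr 1; ring
  rcases le_total |c - 2| η with h | h
  · rw [Wm_of_le h]
    refine h1.trans ?_
    rw [h2]
    gcongr
    exact le_add_right le_rfl
  rcases le_total |c + 2| η with h' | h'
  · rw [Wm_of_le h']
    refine h1.trans ?_
    rw [h2]
    gcongr
    exact le_add_left le_rfl
  rw [Wm_of_ge hη h, Wm_of_ge hη h']
  exact lintegral_P hη c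

/-- number of dyadic scales -/
theorem dyadic {η : ℝ} (hη : 0 < η) (hη1 : η ≤ 1) :
    ∃ n : ℕ, 1 ≤ 2 ^ n * η ∧ (n : ℝ) + 1 ≤ 2 * (1 + Real.log (1 / η)) := by
  refine ⟨⌈Real.logb 2 (1 / η)⌉₊, ?_, ?_⟩
  · have h1 : Real.logb 2 (1 / η) ≤ ⌈Real.logb 2 (1 / η)⌉₊ := Nat.le_ceil _
    have h2 : (1 / η) ≤ (2:ℝ) ^ ((⌈Real.logb 2 (1 / η)⌉₊ : ℕ) : ℝ) := by
      rw [← Real.logb_le_iff_le_rpow (by norm_num) (by positivity)]
      exact h1
    rw [Real.rpow_natCast] at h2
    rw [div_le_iff₀ hη] at h2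
    exact h2
  · have h1 : ((⌈Real.logb 2 (1 / η)⌉₊ : ℕ) : ℝ) < Real.logb 2 (1 / η) + 1 := by
      apply Nat.ceil_lt_add_one
      exact Real.logb_nonneg (by norm_num) (by rw [le_div_iff₀ hη]; linarith)
    have h2 : Real.logb 2 (1 / η) ≤ 2 * Real.log (1 / η) := by
      have hl0 : 0 ≤ Real.log (1 / η) := Real.log_nonneg (by
        rw [le_div_iff₀ hη]; linarith only [hη1])
      unfold Real.logb
      rw [div_le_iff₀ (Real.log_pos (by norm_num))]
      have := Real.log_two_gt_d9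
      nlinarith only [hl0, this]
    linarith

theorem lintegral_inv_circle {η : ℝ} (hη : 0 < η) (hη1 : η ≤ 1) {a : ℂ} (ha : ‖a‖ = 1) :
    ∫⁻ θ : UnitAddCircle, ENNReal.ofReal ((√(‖u θ - a‖ ^ 2 + η ^ 2))⁻¹) ≤
      ENNReal.ofReal ((1 + 2 * π) * (1 + Real.log (1 / η))) := by
  have hpi := Real.pi_pos
  obtain ⟨n, hn1, hn2⟩ := dyadic hη hη1
  have hl0 : 0 ≤ Real.log (1 / η) := Real.log_nonneg (by
    rw [le_div_iff₀ hη]; linarith only [hη1])
  have mk : ∀ k : ℕ, Measurable (ker (2 ^ k * η)) := fun k =>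
    (continuous_ker (η := 2 ^ k * η) (by positivity)).measurable
  have mu := measurable_u
  have hpt : ∀ θ : UnitAddCircle, ENNReal.ofReal ((√(‖u θ - a‖ ^ 2 + η ^ 2))⁻¹) ≤
      1 + 4 * ∑ k ∈ Finset.range (n + 1), ENNReal.ofReal (ker (2 ^ k * η) ‖u θ - a‖) := by
    intro θ
    have hnn : ∀ k ∈ Finset.range (n + 1), 0 ≤ ker (2 ^ k * η) ‖u θ - a‖ := fun k _ =>
      ker_nonneg (by positivity) _
    refine (ENNReal.ofReal_le_ofReal (inv_sqrt_le hη hn1 ‖u θ - a‖)).trans (le_of_eq ?_)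
    rw [ENNReal.ofReal_add zero_le_one (by
      have := Finset.sum_nonneg hnn
      positivity), ENNReal.ofReal_mul (by norm_num), ENNReal.ofReal_sum_of_nonneg hnn]
    norm_num
  have hms : ∀ k ∈ Finset.range (n + 1), Measurable fun θ : UnitAddCircle =>
      ENNReal.ofReal (ker (2 ^ k * η) ‖u θ - a‖) := by
    intro k _
    have := mk k
    fun_prop
  refine (lintegral_mono hpt).trans ?_
  rw [lintegral_add_left measurable_const, lintegral_const_mul _ (Finset.measurable_sum _ hms),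
    lintegral_finsetSum _ hms, lintegral_const, measure_univ, mul_one]
  calc 1 + 4 * ∑ k ∈ Finset.range (n + 1), ∫⁻ θ : UnitAddCircle,
        ENNReal.ofReal (ker (2 ^ k * η) ‖u θ - a‖)
      ≤ 1 + 4 * ∑ k ∈ Finset.range (n + 1), ENNReal.ofReal (π / 4) := by
        gcongr with k _
        have h1 := lintegral_ker_circle (η := 2 ^ k * η) (by positivity) zero_lt_one ha
        simpa using h1
    _ = ENNReal.ofReal (1 + 4 * (((n + 1 : ℕ) : ℝ) * (π / 4))) := by
        rw [Finset.sum_const, Finset.card_range, nsmul_eq_mul, ENNReal.ofReal_add zero_le_one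
          (by positivity), ENNReal.ofReal_mul (by norm_num), ENNReal.ofReal_mul (by positivity),
          ENNReal.ofReal_natCast]
        norm_num
    _ ≤ _ := by
        apply ENNReal.ofReal_le_ofReal
        push_cast
        have h4 : (n + 1 : ℝ) * (π / 4) ≤ 2 * (1 + Real.log (1 / η)) * (π / 4) :=
          mul_le_mul_of_nonneg_right hn2 (by positivity)
        nlinarith only [hl0, h4]

theorem lintegral_Wm {η : ℝ} (hη : 0 < η) (hη1 : η ≤ 1) (b : ℝ) :
    ∫⁻ θ : UnitAddCircle, Wm η (b - c2 θ) ≤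
      ENNReal.ofReal (4 * (1 + 2 * π) * (1 + Real.log (1 / η))) := by
  obtain ⟨a, a', ha, ha', hab⟩ := quad_lower b
  have hs : 0 < √η := Real.sqrt_pos.2 hη
  have hs1 : √η ≤ 1 := Real.sqrt_le_one.2 hη1
  have hsq : √η ^ 2 = η := Real.sq_sqrt hη.le
  have hpi := Real.pi_pos
  have hl0 : 0 ≤ Real.log (1 / η) := Real.log_nonneg (by
    rw [le_div_iff₀ hη]; linarith)
  have hlog : Real.log (1 / √η) ≤ Real.log (1 / η) := by
    apply Real.log_le_log (by positivity)
    apply one_div_le_one_div_of_le hη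
    nlinarith only [hs, hs1, hsq]
  have hK : ∀ a : ℂ, ‖a‖ = 1 →
      ∫⁻ θ : UnitAddCircle, ENNReal.ofReal (2 * (√(‖u θ - a‖ ^ 2 + √η ^ 2))⁻¹) ≤
      ENNReal.ofReal (2 * ((1 + 2 * π) * (1 + Real.log (1 / η)))) := by
    intro a ha
    have h1 := lintegral_inv_circle hs hs1 ha
    have mu := measurable_u
    have h2 : ∀ θ : UnitAddCircle, ENNReal.ofReal (2 * (√(‖u θ - a‖ ^ 2 + √η ^ 2))⁻¹) =
        ENNReal.ofReal 2 * ENNReal.ofReal ((√(‖u θ - a‖ ^ 2 + √η ^ 2))⁻¹) := fun θ =>
      ENNReal.ofReal_mul (by positivity)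
    simp only [h2]
    rw [lintegral_const_mul _ (by fun_prop), ENNReal.ofReal_mul (by positivity)]
    gcongr
    refine h1.trans (ENNReal.ofReal_le_ofReal ?_)
    apply mul_le_mul_of_nonneg_left _ (by positivity)
    linarith
  have haux : ∀ (r t : ℝ), 0 ≤ r → r ^ 2 ≤ |t| →
      1 / √(max |t| η) ≤ 2 * (√(r ^ 2 + √η ^ 2))⁻¹ := by
    intro r t hr h
    rw [hsq, one_div]
    have h1 : (r ^ 2 + η) / 4 ≤ max |t| η := by
      rcases le_total |t| η with h2 | h2
      · rw [max_eq_right h2]; linarith only [hη, h, h2]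
      · rw [max_eq_left h2]; nlinarith only [abs_nonneg t, hη, h, h2]
    have h2 : √(r ^ 2 + η) / 2 ≤ √(max |t| η) := by
      apply Real.le_sqrt_of_sq_le
      rw [div_pow, Real.sq_sqrt (by positivity)]
      linarith only [h1]
    have h3 : 0 < √(r ^ 2 + η) := Real.sqrt_pos.2 (by positivity)
    have h4 := inv_anti₀ (by positivity) h2
    refine h4.trans (le_of_eq ?_)
    field_simp
  have hpt : ∀ θ, Wm η (b - c2 θ) ≤
      ENNReal.ofReal (2 * (√(‖u θ - a‖ ^ 2 + √η ^ 2))⁻¹) +
      ENNReal.ofReal (2 * (√(‖u θ - a'‖ ^ 2 + √η ^ 2))⁻¹) := by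
    intro θ
    unfold Wm
    rw [abs_sub_comm]
    rcases hab θ with h | h
    · exact le_add_right (ENNReal.ofReal_le_ofReal (haux _ _ (norm_nonneg _) h))
    · exact le_add_left (ENNReal.ofReal_le_ofReal (haux _ _ (norm_nonneg _) h))
  refine (lintegral_mono hpt).trans ?_
  have mu := measurable_u
  rw [lintegral_add_left (by fun_prop)]
  refine (add_le_add (hK a ha) (hK a' ha')).trans (le_of_eq ?_)
  rw [← ENNReal.ofReal_add (by positivity) (by positivity)]
  congr 1
  ring

/-- two-dimensional density of states, smoothed at scale `η` -/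
theorem lintegral_two {η : ℝ} (hη : 0 < η) (hη1 : η ≤ 1) (b : ℝ) :
    ∫⁻ t : UnitAddCircle, ∫⁻ s : UnitAddCircle, ENNReal.ofReal (ker η (c2 s + c2 t - b)) ≤
      ENNReal.ofReal (8 * π * (1 + 2 * π) * (1 + Real.log (1 / η))) := by
  have hpi := Real.pi_pos
  have hl0 : 0 ≤ Real.log (1 / η) := Real.log_nonneg (by
    rw [le_div_iff₀ hη]; linarith)
  have h1 : ∀ t : UnitAddCircle, ∫⁻ s : UnitAddCircle, ENNReal.ofReal (ker η (c2 s + c2 t - b)) ≤
      ENNReal.ofReal π * (Wm η (b - 2 - c2 t) + Wm η (b + 2 - c2 t)) := by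
    intro t
    have h2 := lintegral_P2 hη (b - c2 t)
    rw [show b - c2 t - 2 = b - 2 - c2 t by ring, show b - c2 t + 2 = b + 2 - c2 t by ring] at h2
    refine le_trans (le_of_eq ?_) h2
    apply lintegral_congr
    intro s
    congr 2
    ring
  refine (lintegral_mono h1).trans ?_
  have mW := measurable_Wm η
  have mc := measurable_c2
  rw [lintegral_const_mul _ (by fun_prop), lintegral_add_left (by fun_prop)]
  calc ENNReal.ofReal π * ((∫⁻ t : UnitAddCircle, Wm η (b - 2 - c2 t)) +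
        ∫⁻ t : UnitAddCircle, Wm η (b + 2 - c2 t))
      ≤ ENNReal.ofReal π * (ENNReal.ofReal (4 * (1 + 2 * π) * (1 + Real.log (1 / η))) +
        ENNReal.ofReal (4 * (1 + 2 * π) * (1 + Real.log (1 / η)))) := by
        gcongr
        · exact lintegral_Wm hη hη1 _
        · exact lintegral_Wm hη hη1 _
    _ = _ := by
        rw [← ENNReal.ofReal_add (by positivity) (by positivity), ← ENNReal.ofReal_mul hpi.le]
        congr 1
        ring

/-- constant -/
def c2d : ℝ := 8 * π * (1 + 2 * π)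

theorem c2d_ge : 1 ≤ c2d := by
  unfold c2d
  have := Real.pi_gt_three
  nlinarith only [this]

theorem lintegral_two_inv {η : ℝ} (hη : 0 < η) (hη1 : η ≤ 1) (b : ℝ) :
    ∫⁻ t : UnitAddCircle, ∫⁻ s : UnitAddCircle,
      ENNReal.ofReal ((√((c2 s + c2 t - b) ^ 2 + η ^ 2))⁻¹) ≤
      ENNReal.ofReal ((1 + 8 * c2d) * (1 + Real.log (1 / η)) ^ 2) := by
  have hpi := Real.pi_pos
  have hc := c2d_ge
  obtain ⟨n, hn1, hn2⟩ := dyadic hη hη1
  have hl0 : 0 ≤ Real.log (1 / η) := Real.log_nonneg (by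
    rw [le_div_iff₀ hη]; linarith only [hη1])
  set l : ℝ := 1 + Real.log (1 / η) with hl
  have hl1 : 1 ≤ l := by rw [hl]; linarith only [hl0]
  have mk : ∀ k : ℕ, Measurable (ker (2 ^ k * η)) := fun k =>
    (continuous_ker (η := 2 ^ k * η) (by positivity)).measurable
  have mc := measurable_c2
  have hpt : ∀ t s : UnitAddCircle, ENNReal.ofReal ((√((c2 s + c2 t - b) ^ 2 + η ^ 2))⁻¹) ≤
      1 + 4 * ∑ k ∈ Finset.range (n + 1),
        ENNReal.ofReal (ker (2 ^ k * η) (c2 s + c2 t - b)) := by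
    intro t s
    have hnn : ∀ k ∈ Finset.range (n + 1), 0 ≤ ker (2 ^ k * η) (c2 s + c2 t - b) := fun k _ =>
      ker_nonneg (by positivity) _
    refine (ENNReal.ofReal_le_ofReal (inv_sqrt_le hη hn1 (c2 s + c2 t - b))).trans (le_of_eq ?_)
    rw [ENNReal.ofReal_add zero_le_one (by
      have := Finset.sum_nonneg hnn
      positivity), ENNReal.ofReal_mul (by norm_num), ENNReal.ofReal_sum_of_nonneg hnn]
    norm_num
  have hms : ∀ t : UnitAddCircle, ∀ k ∈ Finset.range (n + 1), Measurable fun s : UnitAddCircle =>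
      ENNReal.ofReal (ker (2 ^ k * η) (c2 s + c2 t - b)) := by
    intro t k _
    have := mk k
    fun_prop
  have hmt : ∀ k ∈ Finset.range (n + 1), Measurable fun t : UnitAddCircle =>
      ∫⁻ s : UnitAddCircle, ENNReal.ofReal (ker (2 ^ k * η) (c2 s + c2 t - b)) := by
    intro k _
    apply Measurable.lintegral_prod_right'
      (f := fun q : UnitAddCircle × UnitAddCircle =>
        ENNReal.ofReal (ker (2 ^ k * η) (c2 q.2 + c2 q.1 - b)))
    have := mk k
    fun_prop
  have hin : ∀ t : UnitAddCircle, ∫⁻ s : UnitAddCircle,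
      ENNReal.ofReal ((√((c2 s + c2 t - b) ^ 2 + η ^ 2))⁻¹) ≤
      1 + 4 * ∑ k ∈ Finset.range (n + 1), ∫⁻ s : UnitAddCircle,
        ENNReal.ofReal (ker (2 ^ k * η) (c2 s + c2 t - b)) := by
    intro t
    refine (lintegral_mono (hpt t)).trans (le_of_eq ?_)
    rw [lintegral_add_left measurable_const,
      lintegral_const_mul _ (Finset.measurable_sum _ (hms t)),
      lintegral_finsetSum _ (hms t), lintegral_const, measure_univ, mul_one]
  refine (lintegral_mono hin).trans ?_
  rw [lintegral_add_left measurable_const, lintegral_const_mul _ (Finset.measurable_sum _ hmt),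
    lintegral_finsetSum _ hmt, lintegral_const, measure_univ, mul_one]
  have hk : ∀ k ∈ Finset.range (n + 1), ∫⁻ t : UnitAddCircle, ∫⁻ s : UnitAddCircle,
      ENNReal.ofReal (ker (2 ^ k * η) (c2 s + c2 t - b)) ≤ ENNReal.ofReal (c2d * l) := by
    intro k _
    have hp : 0 < 2 ^ k * η := by positivity
    have h2k : (1:ℝ) ≤ 2 ^ k := one_le_pow₀ (by norm_num)
    rcases le_or_gt (2 ^ k * η) 1 with h | h
    · refine (lintegral_two hp h b).trans (ENNReal.ofReal_le_ofReal ?_)
      unfold c2d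
      apply mul_le_mul_of_nonneg_left _ (by positivity)
      rw [hl]
      have : Real.log (1 / (2 ^ k * η)) ≤ Real.log (1 / η) := by
        apply Real.log_le_log (by positivity)
        apply one_div_le_one_div_of_le hη
        nlinarith only [hη, h2k]
      linarith only [this]
    · have h1 : ∀ t s : UnitAddCircle, ENNReal.ofReal (ker (2 ^ k * η) (c2 s + c2 t - b)) ≤ 1 := by
        intro t s
        rw [show (1:ℝ≥0∞) = ENNReal.ofReal 1 by simp]
        apply ENNReal.ofReal_le_ofReal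
        unfold ker
        rw [div_le_one (by positivity)]
        nlinarith only [sq_nonneg (c2 s + c2 t - b), hp, h]
      calc ∫⁻ t : UnitAddCircle, ∫⁻ s : UnitAddCircle,
          ENNReal.ofReal (ker (2 ^ k * η) (c2 s + c2 t - b))
          ≤ ∫⁻ _ : UnitAddCircle, ∫⁻ _ : UnitAddCircle, (1 : ℝ≥0∞) :=
            lintegral_mono fun t => lintegral_mono fun s => h1 t s
        _ = 1 := by simp
        _ ≤ _ := by
            rw [show (1:ℝ≥0∞) = ENNReal.ofReal 1 by simp]
            apply ENNReal.ofReal_le_ofReal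
            nlinarith only [hc, hl0]
  calc 1 + 4 * ∑ k ∈ Finset.range (n + 1), ∫⁻ t : UnitAddCircle, ∫⁻ s : UnitAddCircle,
        ENNReal.ofReal (ker (2 ^ k * η) (c2 s + c2 t - b))
      ≤ 1 + 4 * ∑ k ∈ Finset.range (n + 1), ENNReal.ofReal (c2d * l) := by
        gcongr with k hk'
        exact hk k hk'
    _ = ENNReal.ofReal (1 + 4 * (((n + 1 : ℕ) : ℝ) * (c2d * l))) := by
        have hz0 : 0 ≤ c2d * l := mul_nonneg (by linarith) (by linarith)
        have e1 : ((n + 1 : ℕ) : ℝ≥0∞) * ENNReal.ofReal (c2d * l) =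
            ENNReal.ofReal (((n + 1 : ℕ) : ℝ) * (c2d * l)) := by
          rw [ENNReal.ofReal_mul (p := ((n + 1 : ℕ) : ℝ)) (by positivity), ENNReal.ofReal_natCast]
        rw [Finset.sum_const, Finset.card_range, nsmul_eq_mul, e1,
          ENNReal.ofReal_add zero_le_one (by positivity),
          ENNReal.ofReal_mul (p := (4:ℝ)) (by norm_num)]
        norm_num
    _ ≤ _ := by
        apply ENNReal.ofReal_le_ofReal
        push_cast
        have h4 : (n + 1 : ℝ) * (c2d * l) ≤ 2 * l * (c2d * l) :=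
          mul_le_mul_of_nonneg_right hn2 (mul_nonneg (by linarith) (by linarith))
        nlinarith only [hl0, h4]

end Pool.Agent.Anderson
end
end -- Pool.Agent.Helper17_Anderson.TwoDim

section -- Pool.Agent.Helper17_Anderson.TwoForm

/-!
# Compression of `|Δ - z|⁻¹` to a ball at all energies
-/

set_option autoImplicit false

open MeasureTheory Set Real Function Matrix

open scoped ENNReal ComplexConjugate ComplexOrder

noncomputable section

namespace Pool.Agent.Anderson

local instance haarMS13 : MeasureSpace UnitAddCircle := ⟨AddCircle.haarAddCircle⟩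

local instance haarAHTwoF : Measure.IsAddHaarMeasure (volume : Measure UnitAddCircle) :=
  inferInstanceAs (Measure.IsAddHaarMeasure AddCircle.haarAddCircle)

local instance haarPMTwoF : IsProbabilityMeasure (volume : Measure UnitAddCircle) :=
  inferInstanceAs (IsProbabilityMeasure AddCircle.haarAddCircle)

variable {d : ℕ}

theorem slice_sup' {x : Site d} {ρ : ℕ} {B : Finset (Site d)} (hB : B ⊆ box x ρ)
    (w : Site d → ℂ) (θ : UnitAddTorus (Fin d)) (i : Fin d) (t : UnitAddCircle) :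
    ENNReal.ofReal (‖hatS B w (update θ i t)‖ ^ 2) ≤ ENNReal.ofReal (2 * ρ + 1) *
      ∫⁻ s : UnitAddCircle, ENNReal.ofReal (‖hatS B w (update θ i s)‖ ^ 2) := by
  have cup : Continuous fun t : UnitAddCircle => update θ i t :=
    continuous_const.update i continuous_id
  have ch2 : Continuous fun t : UnitAddCircle => ‖hatS B w (update θ i t)‖ ^ 2 := by
    have := (continuous_hatS B w).comp cup
    exact (this.norm).pow 2
  rw [← ofReal_integral_eq_lintegral_ofReal (integrable_of_cont1 ch2)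
    (Filter.Eventually.of_forall fun s => by positivity), ← ENNReal.ofReal_mul (by positivity)]
  exact ENNReal.ofReal_le_ofReal (slice_sup hB w θ i t)

theorem upd_upd {θ : UnitAddTorus (Fin d)} {i j : Fin d} (s t s' t' : UnitAddCircle) :
    update (update (update (update θ j t') i s') j t) i s = update (update θ j t) i s := by
  funext k
  simp only [Function.update_apply]
  split_ifs <;> rfl

theorem form_lint {x : Site d} {ρ : ℕ} {B : Finset (Site d)} (hB : B ⊆ box x ρ)
    (w : Site d → ℂ) (E : ℝ) {η : ℝ} (hη : 0 < η) (hη1 : η ≤ 1) {i j : Fin d} (hij : i ≠ j) :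
    ∫⁻ θ : UnitAddTorus (Fin d), ENNReal.ofReal ((md E η θ)⁻¹) * ENNReal.ofReal (‖hatS B w θ‖ ^ 2) ≤
      ∫⁻ θ : UnitAddTorus (Fin d),
        ENNReal.ofReal ((2 * ρ + 1) ^ 2 * ((1 + 8 * c2d) * (1 + Real.log (1 / η)) ^ 2)) *
          ENNReal.ofReal (‖hatS B w θ‖ ^ 2) := by
  have cm := continuous_inv_md (d := d) (E := E) hη
  have ch' := continuous_hatS B w
  set Fl : UnitAddTorus (Fin d) → ℝ≥0∞ := fun θ => ENNReal.ofReal (‖hatS B w θ‖ ^ 2) with hFl
  have hFlm : Measurable Fl := by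
    have : Continuous fun θ => ‖hatS B w θ‖ ^ 2 := by fun_prop
    exact ENNReal.measurable_ofReal.comp this.measurable
  set mi : UnitAddTorus (Fin d) → ℝ≥0∞ := fun θ => ENNReal.ofReal ((md E η θ)⁻¹) with hmi
  have hmim : Measurable mi := ENNReal.measurable_ofReal.comp cm.measurable
  set N : ℝ≥0∞ := ENNReal.ofReal (2 * ρ + 1) with hN
  set K : ℝ≥0∞ := ENNReal.ofReal ((1 + 8 * c2d) * (1 + Real.log (1 / η)) ^ 2) with hK
  have hcK : ENNReal.ofReal ((2 * ρ + 1) ^ 2 * ((1 + 8 * c2d) * (1 + Real.log (1 / η)) ^ 2)) =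
      N ^ 2 * K := by
    rw [ENNReal.ofReal_mul (by positivity), hN, hK, ENNReal.ofReal_pow (by positivity)]
  rw [hcK]
  -- measurability of updates
  have cup2 : ∀ θ : UnitAddTorus (Fin d), Continuous fun q : UnitAddCircle × UnitAddCircle =>
      update (update θ j q.1) i q.2 := by
    intro θ
    apply Continuous.update _ i continuous_snd
    exact continuous_const.update j continuous_fst
  set J : UnitAddTorus (Fin d) → ℝ≥0∞ := fun θ =>
    ∫⁻ t : UnitAddCircle, ∫⁻ s : UnitAddCircle, Fl (update (update θ j t) i s) with hJ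
  have claim1 : ∀ θ, Fl θ ≤ N ^ 2 * J θ := by
    intro θ
    have h1 : Fl θ ≤ N * ∫⁻ s : UnitAddCircle, Fl (update θ i s) := by
      have := slice_sup' hB w θ i (θ i)
      rw [update_eq_self] at this
      exact this
    have h2 : ∀ s, Fl (update θ i s) ≤
        N * ∫⁻ t : UnitAddCircle, Fl (update (update θ j t) i s) := by
      intro s
      have := slice_sup' hB w (update θ i s) j ((update θ i s) j)
      rw [update_eq_self] at this
      refine this.trans (le_of_eq ?_)
      congr 1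
      apply lintegral_congr
      intro t
      rw [update_comm hij]
    have hmm : Measurable (uncurry fun (s t : UnitAddCircle) => Fl (update (update θ j t) i s)) := by
      have := (cup2 θ).comp (continuous_snd.prodMk continuous_fst)
      exact hFlm.comp this.measurable
    calc Fl θ ≤ N * ∫⁻ s : UnitAddCircle, Fl (update θ i s) := h1
      _ ≤ N * ∫⁻ s : UnitAddCircle, N * ∫⁻ t : UnitAddCircle, Fl (update (update θ j t) i s) := by
          gcongr with s
          exact h2 s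
      _ = N * (N * ∫⁻ s : UnitAddCircle, ∫⁻ t : UnitAddCircle,
            Fl (update (update θ j t) i s)) := by
          have hmm' : Measurable fun s : UnitAddCircle =>
              ∫⁻ t : UnitAddCircle, Fl (update (update θ j t) i s) := hmm.lintegral_prod_right'
          rw [lintegral_const_mul _ hmm']
      _ = N ^ 2 * J θ := by
          rw [lintegral_lintegral_swap hmm.aemeasurable, ← mul_assoc, ← pow_two]
  have claim2 : ∀ θ s' t', J (update (update θ j t') i s') = J θ := by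
    intro θ s' t'
    simp only [hJ, upd_upd]
  have hmd : ∀ θ : UnitAddTorus (Fin d), ∃ b : ℝ, ∀ s t : UnitAddCircle,
      md E η (update (update θ j t) i s) = √((c2 s + c2 t - b) ^ 2 + η ^ 2) := by
    intro θ
    refine ⟨E - ∑ k ∈ (Finset.univ.erase i).erase j, c2 (θ k), fun s t => ?_⟩
    unfold md
    rw [sy_update]
    have hj : j ∈ Finset.univ.erase i := Finset.mem_erase.2 ⟨hij.symm, Finset.mem_univ _⟩
    have h1 : ∑ k ∈ Finset.univ.erase i, c2 (update θ j t k) =
        c2 t + ∑ k ∈ (Finset.univ.erase i).erase j, c2 (θ k) := by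
      rw [← Finset.add_sum_erase _ _ hj, update_self]
      congr 1
      apply Finset.sum_congr rfl
      intro k hk
      rw [update_of_ne (Finset.ne_of_mem_erase hk)]
    rw [h1]
    congr 2
    ring
  have claim3 : ∀ θ, ∫⁻ t : UnitAddCircle, ∫⁻ s : UnitAddCircle,
      mi (update (update θ j t) i s) ≤ K := by
    intro θ
    obtain ⟨b, hb⟩ := hmd θ
    simp only [hmi, hb]
    exact lintegral_two_inv hη hη1 b
  set f : UnitAddTorus (Fin d) → ℝ≥0∞ := fun θ => mi θ * Fl θ with hf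
  set g : UnitAddTorus (Fin d) → ℝ≥0∞ := fun θ => N ^ 2 * K * Fl θ with hg
  have hfm : Measurable f := hmim.mul hFlm
  have hgm : Measurable g := hFlm.const_mul _
  set μ : ∀ _ : Fin d, Measure UnitAddCircle := fun _ => volume with hμ
  have key : ∫⋯∫⁻_({i, j} : Finset (Fin d)), f ∂μ ≤ ∫⋯∫⁻_({i, j} : Finset (Fin d)), g ∂μ := by
    have e1 : ∀ F : UnitAddTorus (Fin d) → ℝ≥0∞, Measurable F →
        ∫⋯∫⁻_({i, j} : Finset (Fin d)), F ∂μ = fun θ =>
          ∫⁻ t : UnitAddCircle, ∫⁻ s : UnitAddCircle, F (update (update θ j t) i s) := by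
      intro F hF
      have h1 : ({i, j} : Finset (Fin d)) = insert i {j} := rfl
      rw [h1, lmarginal_insert' F hF (by simpa using hij), lmarginal_singleton]
    rw [e1 f hfm, e1 g hgm]
    intro θ
    simp only
    have hm1 : Measurable fun q : UnitAddCircle × UnitAddCircle =>
        mi (update (update θ j q.1) i q.2) := hmim.comp (cup2 θ).measurable
    have hm2 : Measurable fun q : UnitAddCircle × UnitAddCircle =>
        Fl (update (update θ j q.1) i q.2) := hFlm.comp (cup2 θ).measurable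
    have cupt : ∀ t : UnitAddCircle, Continuous fun s : UnitAddCircle =>
        update (update θ j t) i s := fun t => continuous_const.update i continuous_id
    have hms : ∀ t : UnitAddCircle, Measurable fun s : UnitAddCircle =>
        mi (update (update θ j t) i s) := fun t => hmim.comp (cupt t).measurable
    have hms2 : ∀ t : UnitAddCircle, Measurable fun s : UnitAddCircle =>
        Fl (update (update θ j t) i s) := fun t => hFlm.comp (cupt t).measurable
    have hm1' : Measurable fun t : UnitAddCircle => ∫⁻ s : UnitAddCircle,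
        mi (update (update θ j t) i s) := hm1.lintegral_prod_right'
    have hm2' : Measurable fun t : UnitAddCircle => ∫⁻ s : UnitAddCircle,
        Fl (update (update θ j t) i s) := hm2.lintegral_prod_right'
    calc ∫⁻ t : UnitAddCircle, ∫⁻ s : UnitAddCircle, f (update (update θ j t) i s)
        ≤ ∫⁻ t : UnitAddCircle, ∫⁻ s : UnitAddCircle,
            mi (update (update θ j t) i s) * (N ^ 2 * J θ) := by
          apply lintegral_mono
          intro t
          apply lintegral_mono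
          intro s
          simp only [hf]
          gcongr
          refine (claim1 _).trans (le_of_eq ?_)
          rw [claim2]
      _ = (∫⁻ t : UnitAddCircle, ∫⁻ s : UnitAddCircle,
            mi (update (update θ j t) i s)) * (N ^ 2 * J θ) := by
          rw [← lintegral_mul_const _ hm1']
          apply lintegral_congr
          intro t
          rw [lintegral_mul_const _ (hms t)]
      _ ≤ K * (N ^ 2 * J θ) := by
          gcongr
          exact claim3 θ
      _ = ∫⁻ t : UnitAddCircle, ∫⁻ s : UnitAddCircle, g (update (update θ j t) i s) := by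
          simp only [hg]
          have h5 : ∀ t : UnitAddCircle, ∫⁻ s : UnitAddCircle,
              N ^ 2 * K * Fl (update (update θ j t) i s) =
              N ^ 2 * K * ∫⁻ s : UnitAddCircle, Fl (update (update θ j t) i s) := fun t =>
            lintegral_const_mul _ (hms2 t)
          simp only [h5]
          rw [lintegral_const_mul _ hm2']
          simp only [hJ]
          ring
  exact lintegral_le_of_lmarginal_le (μ := μ) {i, j} hfm hgm key

theorem form_ball2 (hd : 2 ≤ d) {x : Site d} {ρ : ℕ} {B : Finset (Site d)} (hB : B ⊆ box x ρ)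
    (w : Site d → ℂ) (E : ℝ) {η : ℝ} (hη : 0 < η) (hη1 : η ≤ 1) :
    ∫ θ, (md E η θ)⁻¹ * ‖hatS B w θ‖ ^ 2 ≤
      (1 + 8 * c2d) * ((2 * ρ + 1) ^ 2 * (1 + Real.log (1 / η)) ^ 2) * ∑ y ∈ B, ‖w y‖ ^ 2 := by
  set i : Fin d := ⟨0, by omega⟩
  set j : Fin d := ⟨1, by omega⟩
  have hij : i ≠ j := by simp [i, j]
  have h := form_lint hB w E hη hη1 hij
  have cm := continuous_inv_md (d := d) (E := E) hη
  have ch' := continuous_hatS B w
  have hc := c2d_ge
  have hnn : ∀ θ : UnitAddTorus (Fin d), 0 ≤ (md E η θ)⁻¹ := fun θ =>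
    (inv_pos.2 (md_pos (E := E) hη θ)).le
  have e1 : ∀ θ : UnitAddTorus (Fin d),
      ENNReal.ofReal ((md E η θ)⁻¹) * ENNReal.ofReal (‖hatS B w θ‖ ^ 2) =
      ENNReal.ofReal ((md E η θ)⁻¹ * ‖hatS B w θ‖ ^ 2) := fun θ =>
    (ENNReal.ofReal_mul (hnn θ)).symm
  have hC0 : 0 ≤ (2 * (ρ : ℝ) + 1) ^ 2 * ((1 + 8 * c2d) * (1 + Real.log (1 / η)) ^ 2) := by
    have : 0 ≤ 1 + 8 * c2d := by linarith
    positivity
  have e2 : ∀ θ : UnitAddTorus (Fin d),
      ENNReal.ofReal ((2 * ρ + 1) ^ 2 * ((1 + 8 * c2d) * (1 + Real.log (1 / η)) ^ 2)) *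
          ENNReal.ofReal (‖hatS B w θ‖ ^ 2) =
      ENNReal.ofReal ((2 * ρ + 1) ^ 2 * ((1 + 8 * c2d) * (1 + Real.log (1 / η)) ^ 2) *
        ‖hatS B w θ‖ ^ 2) := fun θ => (ENNReal.ofReal_mul hC0).symm
  simp only [e1, e2] at h
  rw [← ofReal_integral_eq_lintegral_ofReal (integrable_of_cont (by fun_prop))
      (Filter.Eventually.of_forall fun θ => mul_nonneg (hnn θ) (by positivity)),
    ← ofReal_integral_eq_lintegral_ofReal (integrable_of_cont (by fun_prop))
      (Filter.Eventually.of_forall fun θ => mul_nonneg hC0 (by positivity)),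
    integral_const_mul, parsevalS] at h
  have hS0 : 0 ≤ ∑ y ∈ B, ‖w y‖ ^ 2 := Finset.sum_nonneg fun y _ => by positivity
  refine ((ENNReal.ofReal_le_ofReal_iff (mul_nonneg hC0 hS0)).1 h).trans (le_of_eq ?_)
  ring

end Pool.Agent.Anderson
end
end -- Pool.Agent.Helper17_Anderson.TwoForm

section -- Pool.Agent.Helper17_Anderson.Site

/-!
# Probability bound at one site
-/

set_option autoImplicit false

open MeasureTheory Set Real Function Matrix ProbabilityTheory

open scoped ENNReal ComplexConjugate ComplexOrder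

noncomputable section

namespace Pool.Agent.Anderson

variable {d : ℕ}

local instance haarMS11 : MeasureSpace UnitAddCircle := ⟨AddCircle.haarAddCircle⟩

local instance haarAHSite : Measure.IsAddHaarMeasure (volume : Measure UnitAddCircle) :=
  inferInstanceAs (Measure.IsAddHaarMeasure AddCircle.haarAddCircle)

local instance haarPMSite : IsProbabilityMeasure (volume : Measure UnitAddCircle) :=
  inferInstanceAs (IsProbabilityMeasure AddCircle.haarAddCircle)

/-- the constant in the deterministic bound -/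
def cdet (d : ℕ) : ℝ := 4 * (9 + 12 * d ^ 2) * (1 + 1024 * π)

/-- the net of energies -/
def netE (d : ℕ) (η : ℝ) (j : ℕ) : ℝ := -(2 * d + 2) + j * η

/-- size of the net -/
def netJ (d : ℕ) (η : ℝ) : ℕ := ⌊(4 * d + 4) / η⌋₊ + 1

theorem net_spec {η : ℝ} (hη : 0 < η) {lam : ℝ} (h : |lam| ≤ 2 * d + 2) :
    ∃ j < netJ d η, |lam - netE d η j| ≤ η := by
  have h1 := abs_le.1 h
  have hnn : 0 ≤ (lam + (2 * d + 2)) / η := div_nonneg (by linarith) hη.le
  refine ⟨⌊(lam + (2 * d + 2)) / η⌋₊, ?_, ?_⟩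
  · unfold netJ
    apply Nat.lt_succ_of_le
    apply Nat.floor_le_floor
    apply div_le_div_of_nonneg_right _ hη.le
    linarith only [h1]
  · have h2 := Nat.floor_le hnn
    have h3 := Nat.lt_floor_add_one ((lam + (2 * d + 2)) / η)
    rw [le_div_iff₀ hη] at h2
    rw [div_lt_iff₀ hη] at h3
    unfold netE
    rw [abs_le]
    constructor <;> linarith

variable {Ω : Type*} [MeasurableSpace Ω] {P : Measure Ω} [IsProbabilityMeasure P]
  {ξ : Site d → Ω → ℝ}

/-- square root of the kernel matrix -/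
def Csq (Λ : Finset (Site d)) (E η : ℝ) (hη : 0 < η) : Matrix Λ Λ ℂ :=
  (exists_sqrt (Kmat_posSemidef Λ (E := E) hη)).choose

theorem Csq_herm (Λ : Finset (Site d)) (E η : ℝ) (hη : 0 < η) : (Csq Λ E η hη).IsHermitian :=
  (exists_sqrt (Kmat_posSemidef Λ (E := E) hη)).choose_spec.1

theorem Csq_sq (Λ : Finset (Site d)) (E η : ℝ) (hη : 0 < η) :
    Csq Λ E η hη * Csq Λ E η hη = Kmat Λ E η :=
  (exists_sqrt (Kmat_posSemidef Λ (E := E) hη)).choose_spec.2

/-- the set of samples where the operator bound fails at energy `E` -/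
def badE (ξ : Site d → Ω → ℝ) (σ s : ℝ) (Λ : Finset (Site d)) (E η : ℝ) (hη : 0 < η) : Set Ω :=
  {ω | ¬ ∀ a : Λ → ℂ, nsq (XM (Csq Λ E η hη) (fun y => zt σ s ξ ω y) *ᵥ a) ≤ 1 / 4 * nsq a}

/-- samples with a large value of the potential in the box -/
def badV (ξ : Site d → Ω → ℝ) (R : ℝ) (Λ : Finset (Site d)) : Set Ω :=
  {ω | ∃ y ∈ Λ, R < |ξ y ω|}

/-- the bad set for the site `x` -/
def badS (ξ : Site d → Ω → ℝ) (σ R : ℝ) (x : Site d) (η : ℝ) (hη : 0 < η) : Set Ω :=
  badV ξ R (box x ⌊1 / η⌋₊) ∪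
    ⋃ j ∈ Finset.range (netJ d η), badE ξ σ (|σ| * R) (box x ⌊1 / η⌋₊) (netE d η j) η hη

omit [MeasurableSpace Ω] in
theorem good_site {σ R η : ℝ} (hη : 0 < η) (hσR : |σ| * R ≤ 1)
    {x : Site d} {ω : Ω} (hω : ω ∉ badS ξ σ R x η hη) {lam : ℝ} {v : L2 d}
    (hv : IsQuasi (fun y => σ * ξ y ω) η lam v) :
    ∃ E : ℝ, |lam - E| ≤ η ∧
      ∫ θ, md E η θ * ‖hatV (fun y : box x ⌊1 / η⌋₊ => (cut η x y : ℂ) * v y) θ‖ ^ 2 ≤
        4 * (9 + 12 * d ^ 2) * η := by
  obtain ⟨hv1, r, hr, heq⟩ := hv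
  set n : ℕ := ⌊1 / η⌋₊ with hn
  have hn1 : 1 / η < n + 1 := Nat.lt_floor_add_one _
  unfold badS at hω
  rw [mem_union, not_or] at hω
  obtain ⟨hωV, hωE⟩ := hω
  have hξ : ∀ y ∈ box x n, |ξ y ω| ≤ R := by
    intro y hy
    by_contra hcon
    push Not at hcon
    exact hωV ⟨y, hy, hcon⟩
  have hD1 : ∀ y ∈ box x n, |σ * ξ y ω| ≤ |σ| * R := by
    intro y hy
    rw [abs_mul]
    exact mul_le_mul_of_nonneg_left (hξ y hy) (abs_nonneg _)
  have hD : ∀ y ∈ box x n, zt σ (|σ| * R) ξ ω y = σ * ξ y ω := fun y hy => tau_eq (hD1 y hy)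
  by_cases hlam : |lam| ≤ 2 * d + 2
  · obtain ⟨j, hj, hjE⟩ := net_spec hη hlam
    have hgood : ∀ a : box x n → ℂ, nsq (XM (Csq (box x n) (netE d η j) η hη)
        (fun y => zt σ (|σ| * R) ξ ω y) *ᵥ a) ≤ 1 / 4 * nsq a := by
      by_contra hcon
      apply hωE
      rw [mem_iUnion₂]
      exact ⟨j, Finset.mem_range.2 hj, hcon⟩
    exact ⟨netE d η j, hjE,
      quasi_N2 hη hn1 x hD hv1 hr hjE heq (Csq_herm _ _ _ hη) (Csq_sq _ _ _ hη) hgood⟩
  · push Not at hlam
    have hX := large_hX (Λ := box x n) (D := fun y => zt σ (|σ| * R) ξ ω y) hη hlam.le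
      (fun y hy => by
        rw [hD y hy]
        exact (hD1 y hy).trans hσR) (Csq_herm _ lam _ hη) (Csq_sq _ lam _ hη)
    exact ⟨lam, by simpa using hη.le, quasi_N2 hη hn1 x hD hv1 hr (by simpa using hη.le) heq
      (Csq_herm _ _ _ hη) (Csq_sq _ _ _ hη) hX⟩

omit [MeasurableSpace Ω] in
theorem good_sup (hd : 3 ≤ d) {σ R η : ℝ} (hη : 0 < η) (hη1 : η ≤ 1) (hσR : |σ| * R ≤ 1)
    {x : Site d} {ω : Ω} (hω : ω ∉ badS ξ σ R x η hη) {lam : ℝ} {v : L2 d}
    (hv : IsQuasi (fun y => σ * ξ y ω) η lam v) :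
    ‖v x‖ ^ 2 ≤ cdet d * (η * (1 + Real.log (1 / η))) := by
  obtain ⟨E, -, hN⟩ := good_site hη hσR hω hv
  exact quasi_bound hd hη hη1 (Nat.lt_floor_add_one _) x hN

/-- constant in the ball bound -/
def cball (d : ℕ) : ℝ := 16 * (9 + 12 * d ^ 2) * (2 * (2 + 4 * d * (1 + 4 * π)))

theorem cball_ge : 2 ≤ cball d := by
  unfold cball
  have hpi := Real.pi_pos
  have h1 : (0:ℝ) ≤ 12 * d ^ 2 := by positivity
  have h2 : (0:ℝ) ≤ 4 * d * (1 + 4 * π) := by positivity
  nlinarith only [h2]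

theorem Regular.mono {E E' δ η : ℝ} (h : Regular d E δ) (hE : |E - E'| ≤ η) (hη : η ≤ δ / 2) :
    Regular d E' (δ / 2) := by
  intro k hk
  have h1 := h k hk
  have h2 := abs_add_le (E - E') (E' - (2 * d - 4 * k))
  rw [show E - E' + (E' - (2 * d - 4 * k)) = E - (2 * d - 4 * k) by ring] at h2
  linarith

omit [MeasurableSpace Ω] in
theorem good_ball {σ R η : ℝ} (hη : 0 < η) (hη1 : η ≤ 1) (hσR : |σ| * R ≤ 1)
    {x : Site d} {ω : Ω} (hω : ω ∉ badS ξ σ R x η hη) {lam δ : ℝ} {v : L2 d}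
    (hv : IsQuasi (fun y => σ * ξ y ω) η lam v) (hδ : 0 < δ) (hδ1 : δ ≤ 1)
    (hreg : Regular d lam δ) (ρ : ℕ) :
    ∑ y ∈ box x ρ, ‖v y‖ ^ 2 ≤
      cball d / δ * ((2 * ρ + 1) * (η * (1 + Real.log (1 / η)))) := by
  have hl0 : 0 ≤ Real.log (1 / η) := Real.log_nonneg (by rw [le_div_iff₀ hη]; linarith)
  have hpi := Real.pi_pos
  have hcb := cball_ge (d := d)
  have hρ0 : (0:ℝ) ≤ ρ := by positivity
  have hmass : ∑ y ∈ box x ρ, ‖v y‖ ^ 2 ≤ 1 := by
    have h1 : ∑ y ∈ box x ρ, ‖v y‖ ^ 2 ≤ ‖v‖ ^ 2 := by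
      rw [L2.norm_sq]
      exact (L2.summable_sq v).sum_le_tsum _ (fun y _ => by positivity)
    have h2 := norm_nonneg v
    have h3 := hv.1
    nlinarith only [h1, h2, h3]
  have hcδ : 2 / δ ≤ cball d / δ := div_le_div_of_nonneg_right hcb hδ.le
  by_cases hc1 : δ / 2 < η
  · have h1 : 1 ≤ 2 / δ * η := by
      rw [div_mul_eq_mul_div, le_div_iff₀ hδ]; linarith only [hc1]
    have h2 : 2 / δ * η ≤ cball d / δ * ((2 * ρ + 1) * (η * (1 + Real.log (1 / η)))) := by
      apply mul_le_mul hcδ _ hη.le (by positivity)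
      have h3 : η ≤ η * (1 + Real.log (1 / η)) := le_mul_of_one_le_right hη.le (by linarith only [hl0])
      have h4 : η * (1 + Real.log (1 / η)) ≤ (2 * ρ + 1) * (η * (1 + Real.log (1 / η))) :=
        le_mul_of_one_le_left (by positivity) (by linarith only)
      linarith only [h3, h4]
    linarith only [hmass, h1, h2]
  push Not at hc1
  by_cases hc2 : 1 / 2 < ρ * η
  · have h1 : 1 ≤ 2 / δ * ((2 * ρ + 1) * η) := by
      rw [div_mul_eq_mul_div, le_div_iff₀ hδ]
      nlinarith only [hη, hδ1, hc1, hc2]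
    have h2 : 2 / δ * ((2 * ρ + 1) * η) ≤
        cball d / δ * ((2 * ρ + 1) * (η * (1 + Real.log (1 / η)))) := by
      apply mul_le_mul hcδ _ (by positivity) (by positivity)
      apply mul_le_mul_of_nonneg_left _ (by positivity)
      exact le_mul_of_one_le_right hη.le (by linarith only [hl0])
    linarith only [hmass, h1, h2]
  push Not at hc2
  obtain ⟨E, hE, hN⟩ := good_site hη hσR hω hv
  have hregE : Regular d E (δ / 2) := hreg.mono hE hc1
  set w : Site d → ℂ := fun y => (cut η x y : ℂ) * v y with hw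
  have hw0 : ∀ y ∉ box x ⌊1 / η⌋₊, w y = 0 := by
    intro y hy
    simp only [hw, cut_support hη (Nat.lt_floor_add_one _) hy, Complex.ofReal_zero, zero_mul]
  set T : ℝ := (2 + 4 * d * (1 + 4 * π)) / (δ / 2) * ((2 * ρ + 1) * (1 + Real.log (1 / η))) with hT
  have hT0 : 0 < T := by positivity
  have hform := form_ball (x := x) (ρ := ρ) (B := box x ρ) (le_refl _) w (by positivity) hregE hη hη1
  have hmw := mass_of_N2 hw0 hη hT0 hform
  have hmw2 : ∑ y ∈ box x ρ, ‖w y‖ ^ 2 ≤ T * (4 * (9 + 12 * d ^ 2) * η) :=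
    hmw.trans (mul_le_mul_of_nonneg_left hN hT0.le)
  have hvw : ∀ y ∈ box x ρ, ‖v y‖ ^ 2 ≤ 4 * ‖w y‖ ^ 2 := by
    intro y hy
    have h1 : ‖y - x‖ ≤ ρ := by
      rw [pi_norm_le_iff_of_nonneg hρ0]
      intro i
      have h2 := mem_box.1 hy i
      rw [Int.norm_eq_abs, Pi.sub_apply]
      have : ((|y i - x i| : ℤ) : ℝ) ≤ ((ρ : ℤ) : ℝ) := by exact_mod_cast h2
      push_cast at this ⊢
      exact this
    have h3 : 1 / 2 ≤ cut η x y := by
      unfold cut
      apply le_max_of_le_right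
      nlinarith only [hη, hc2, h1]
    have h4 : ‖w y‖ = cut η x y * ‖v y‖ := by
      simp only [hw]
      rw [norm_mul, Complex.norm_real, Real.norm_eq_abs, abs_of_nonneg (cut_nonneg _ _ _)]
    rw [h4, mul_pow]
    have h5 : 1 ≤ 4 * cut η x y ^ 2 := by nlinarith only [h3]
    have h6 : 0 ≤ ‖v y‖ ^ 2 := by positivity
    nlinarith only [h5]
  calc ∑ y ∈ box x ρ, ‖v y‖ ^ 2 ≤ ∑ y ∈ box x ρ, 4 * ‖w y‖ ^ 2 := Finset.sum_le_sum hvw
    _ = 4 * ∑ y ∈ box x ρ, ‖w y‖ ^ 2 := by rw [Finset.mul_sum]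
    _ ≤ 4 * (T * (4 * (9 + 12 * d ^ 2) * η)) := by linarith only [hmw2]
    _ = _ := by
        rw [hT]
        unfold cball
        field_simp
        ring

omit [MeasurableSpace Ω] in
/-- ball bound from a form bound -/
theorem ball_of_form {η : ℝ} (hη : 0 < η) {x : Site d} {v : L2 d} {E : ℝ}
    (hN : ∫ θ, md E η θ * ‖hatV (fun y : box x ⌊1 / η⌋₊ => (cut η x y : ℂ) * v y) θ‖ ^ 2 ≤
        4 * (9 + 12 * d ^ 2) * η) {ρ : ℕ} (hρ : ρ * η ≤ 1 / 2) {T : ℝ} (hT0 : 0 < T)
    (hform : ∫ θ, (md E η θ)⁻¹ * ‖hatS (box x ρ) (fun y => (cut η x y : ℂ) * v y) θ‖ ^ 2 ≤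
      T * ∑ y ∈ box x ρ, ‖(fun y => (cut η x y : ℂ) * v y) y‖ ^ 2) :
    ∑ y ∈ box x ρ, ‖v y‖ ^ 2 ≤ 4 * (T * (4 * (9 + 12 * d ^ 2) * η)) := by
  have hρ0 : (0:ℝ) ≤ ρ := by positivity
  set w : Site d → ℂ := fun y => (cut η x y : ℂ) * v y with hw
  have hw0 : ∀ y ∉ box x ⌊1 / η⌋₊, w y = 0 := by
    intro y hy
    simp only [hw, cut_support hη (Nat.lt_floor_add_one _) hy, Complex.ofReal_zero, zero_mul]
  have hmw := mass_of_N2 hw0 hη hT0 hform
  have hmw2 : ∑ y ∈ box x ρ, ‖w y‖ ^ 2 ≤ T * (4 * (9 + 12 * d ^ 2) * η) :=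
    hmw.trans (mul_le_mul_of_nonneg_left hN hT0.le)
  have hvw : ∀ y ∈ box x ρ, ‖v y‖ ^ 2 ≤ 4 * ‖w y‖ ^ 2 := by
    intro y hy
    have h1 : ‖y - x‖ ≤ ρ := by
      rw [pi_norm_le_iff_of_nonneg hρ0]
      intro i
      have h2 := mem_box.1 hy i
      rw [Int.norm_eq_abs, Pi.sub_apply]
      have : ((|y i - x i| : ℤ) : ℝ) ≤ ((ρ : ℤ) : ℝ) := by exact_mod_cast h2
      push_cast at this ⊢
      exact this
    have h3 : 1 / 2 ≤ cut η x y := by
      unfold cut
      apply le_max_of_le_right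
      nlinarith only [hη, hρ, h1]
    have h4 : ‖w y‖ = cut η x y * ‖v y‖ := by
      simp only [hw]
      rw [norm_mul, Complex.norm_real, Real.norm_eq_abs, abs_of_nonneg (cut_nonneg _ _ _)]
    rw [h4, mul_pow]
    have h5 : 1 ≤ 4 * cut η x y ^ 2 := by nlinarith only [h3]
    have h6 : 0 ≤ ‖v y‖ ^ 2 := by positivity
    nlinarith only [h5]
  calc ∑ y ∈ box x ρ, ‖v y‖ ^ 2 ≤ ∑ y ∈ box x ρ, 4 * ‖w y‖ ^ 2 := Finset.sum_le_sum hvw
    _ = 4 * ∑ y ∈ box x ρ, ‖w y‖ ^ 2 := by rw [Finset.mul_sum]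
    _ ≤ 4 * (T * (4 * (9 + 12 * d ^ 2) * η)) := by linarith only [hmw2]

/-- constant in the ball bound at all energies -/
def cball2 (d : ℕ) : ℝ := 16 * (9 + 12 * d ^ 2) * (1 + 8 * c2d)

theorem cball2_ge : 1 ≤ cball2 d := by
  unfold cball2
  have hc := c2d_ge
  have h1 : (0:ℝ) ≤ 12 * d ^ 2 := by positivity
  nlinarith only [hc]

omit [MeasurableSpace Ω] in
theorem good_ball2 (hd : 2 ≤ d) {σ R η : ℝ} (hη : 0 < η) (hη1 : η ≤ 1) (hσR : |σ| * R ≤ 1)
    {x : Site d} {ω : Ω} (hω : ω ∉ badS ξ σ R x η hη) {lam : ℝ} {v : L2 d}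
    (hv : IsQuasi (fun y => σ * ξ y ω) η lam v) (ρ : ℕ) :
    ∑ y ∈ box x ρ, ‖v y‖ ^ 2 ≤
      cball2 d * ((2 * ρ + 1) ^ 2 * (η * (1 + Real.log (1 / η)) ^ 2)) := by
  have hl0 : 0 ≤ Real.log (1 / η) := Real.log_nonneg (by rw [le_div_iff₀ hη]; linarith only [hη1])
  have hcb := cball2_ge (d := d)
  have hρ0 : (0:ℝ) ≤ ρ := by positivity
  have hc2 := c2d_ge
  set l : ℝ := 1 + Real.log (1 / η) with hl
  have hl1 : 1 ≤ l := by rw [hl]; linarith only [hl0]
  by_cases hc : 1 / 2 < ρ * η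
  · have hmass : ∑ y ∈ box x ρ, ‖v y‖ ^ 2 ≤ 1 := by
      have h1 : ∑ y ∈ box x ρ, ‖v y‖ ^ 2 ≤ ‖v‖ ^ 2 := by
        rw [L2.norm_sq]
        exact (L2.summable_sq v).sum_le_tsum _ (fun y _ => by positivity)
      have h2 := norm_nonneg v
      have h3 := hv.1
      nlinarith only [h1, h2, h3]
    have h1 : 1 ≤ (2 * (ρ : ℝ) + 1) ^ 2 * η := by nlinarith only [hη, hη1, hc]
    have h2 : η ≤ η * l ^ 2 := le_mul_of_one_le_right hη.le (one_le_pow₀ hl1)
    have h3 : (2 * (ρ : ℝ) + 1) ^ 2 * η ≤ (2 * ρ + 1) ^ 2 * (η * l ^ 2) :=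
      mul_le_mul_of_nonneg_left h2 (by positivity)
    have h4 := one_le_mul_of_one_le_of_one_le hcb (h1.trans h3)
    linarith only [hmass, h4]
  push Not at hc
  obtain ⟨E, -, hN⟩ := good_site hη hσR hω hv
  have hT0 : 0 < (1 + 8 * c2d) * ((2 * (ρ : ℝ) + 1) ^ 2 * l ^ 2) := by
    have : 0 < 1 + 8 * c2d := by linarith only [hc2]
    positivity
  have hform := form_ball2 hd (x := x) (ρ := ρ) (B := box x ρ) (le_refl _)
    (fun y => (cut η x y : ℂ) * v y) E hη hη1
  refine (ball_of_form hη hN hc hT0 hform).trans (le_of_eq ?_)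
  unfold cball2
  ring

theorem nat_mul_ofReal (k : ℕ) (a : ℝ) :
    (k : ℝ≥0∞) * ENNReal.ofReal a = ENNReal.ofReal (k * a) := by
  rw [ENNReal.ofReal_mul (by positivity), ENNReal.ofReal_natCast]

theorem prob_badS (hd : 3 ≤ d) (hm : ∀ y, Measurable (ξ y))
    (hlaw : ∀ y, P.map (ξ y) = gaussianReal 0 1) (hind : iIndepFun ξ P)
    {σ R η : ℝ} (hη : 0 < η) (hη1 : η ≤ 1) (hR : 0 ≤ R) (x : Site d) {p : ℕ} (hp : 1 ≤ p) :
    P (badS ξ σ R x η hη) ≤ ENNReal.ofReal
      ((2 * ⌊1 / η⌋₊ + 1) ^ d * (2 * rexp (-(R ^ 2 / 2)) +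
        netJ d η * (8 * p * ((|σ| * R) ^ 2 * ((1 + 1024 * π) * (1 + Real.log (1 / η))) * η⁻¹)) ^ p)) := by
  set n : ℕ := ⌊1 / η⌋₊ with hn
  set κ : ℝ := (1 + 1024 * π) * (1 + Real.log (1 / η)) with hκ
  have hl0 : 0 ≤ Real.log (1 / η) := Real.log_nonneg (by rw [le_div_iff₀ hη]; linarith only [hη1])
  have hpi := Real.pi_pos
  have hκ0 : 0 ≤ κ := by positivity
  have hs : 0 ≤ |σ| * R := by positivity
  have h1 : P (badV ξ R (box x n)) ≤ ENNReal.ofReal ((2 * n + 1) ^ d * (2 * rexp (-(R ^ 2 / 2)))) := by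
    have : badV ξ R (box x n) ⊆ ⋃ y ∈ box x n, {ω | R < |ξ y ω|} := by
      rintro ω ⟨y, hy, h⟩
      rw [mem_iUnion₂]
      exact ⟨y, hy, h⟩
    refine (measure_mono this).trans ((measure_biUnion_finset_le _ _).trans ?_)
    refine (Finset.sum_le_sum fun y _ => gauss_tail (hlaw y) hR).trans ?_
    rw [Finset.sum_const, card_box, nsmul_eq_mul, nat_mul_ofReal]
    push_cast
    rfl
  have h2 : P (⋃ j ∈ Finset.range (netJ d η), badE ξ σ (|σ| * R) (box x n) (netE d η j) η hη) ≤
      ENNReal.ofReal (netJ d η * ((2 * n + 1) ^ d *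
        (8 * p * ((|σ| * R) ^ 2 * κ * η⁻¹)) ^ p)) := by
    refine (measure_biUnion_finset_le _ _).trans ?_
    have h3 : ∀ j : ℕ, P (badE ξ σ (|σ| * R) (box x n) (netE d η j) η hη) ≤
        ENNReal.ofReal ((2 * n + 1) ^ d * (8 * p * ((|σ| * R) ^ 2 * κ * η⁻¹)) ^ p) := by
      intro j
      have h4 := prob_bad (P := P) hm hlaw hind σ hs (box x n) (Csq_herm _ (netE d η j) _ hη)
        (κ := κ) (L := η⁻¹) hκ0 (by positivity)
        (by
          intro y
          rw [Csq_sq, Kmat_diag, Complex.ofReal_re]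
          exact kap_le hd _ hη hη1)
        (by
          intro v
          rw [Csq_sq]
          exact Kmat_le _ hη v) hp
      rw [card_box] at h4
      push_cast at h4
      exact h4
    refine (Finset.sum_le_sum fun j _ => h3 j).trans (le_of_eq ?_)
    rw [Finset.sum_const, Finset.card_range, nsmul_eq_mul, nat_mul_ofReal]
  unfold badS
  refine (measure_union_le _ _).trans ((add_le_add h1 h2).trans (le_of_eq ?_))
  rw [← ENNReal.ofReal_add (by positivity) (by positivity)]
  congr 1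
  ring

end Pool.Agent.Anderson
end
end -- Pool.Agent.Helper17_Anderson.Site

section -- Pool.Agent.Helper76_LSP.Tor

/-!
# Squad LSP, row TSA, part 1: integrals over the torus in the coordinates of the cube
-/

set_option autoImplicit false

open MeasureTheory Set Real Function

open scoped ENNReal ComplexConjugate

noncomputable section

namespace Pool.Agent.LE.CL.H76

open Pool.Agent.Anderson

local instance haarMSt : MeasureSpace UnitAddCircle := ⟨AddCircle.haarAddCircle⟩

local instance haarAHt : Measure.IsAddHaarMeasure (volume : Measure UnitAddCircle) :=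
  inferInstanceAs (Measure.IsAddHaarMeasure AddCircle.haarAddCircle)

local instance haarPMt : IsProbabilityMeasure (volume : Measure UnitAddCircle) :=
  inferInstanceAs (IsProbabilityMeasure AddCircle.haarAddCircle)

variable {d : ℕ}

/-- the covering of the torus -/
def cov (x : Fin d → ℝ) : UnitAddTorus (Fin d) := fun j => (x j : UnitAddCircle)

theorem mp_one : MeasurePreserving (fun t : ℝ => (t : UnitAddCircle))
    (volume.restrict (Ioc (0 : ℝ) 1)) (volume : Measure UnitAddCircle) := by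
  have h1 := AddCircle.measurePreserving_mk (1 : ℝ) 0
  rw [AddCircle.volume_eq_smul_haarAddCircle, zero_add] at h1
  simp only [ENNReal.ofReal_one, one_smul] at h1
  exact h1

theorem mp_cov : MeasurePreserving (cov (d := d))
    (volume.restrict (Set.pi Set.univ fun _ => Ioc (0 : ℝ) 1)) volume := by
  have h2 := measurePreserving_pi (fun _ : Fin d => volume.restrict (Ioc (0 : ℝ) 1))
    (fun _ => (volume : Measure UnitAddCircle)) (fun _ => mp_one)
  have h3 : (volume : Measure (Fin d → ℝ)).restrict (Set.pi Set.univ fun _ => Ioc (0 : ℝ) 1) =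
      Measure.pi (fun _ : Fin d => volume.restrict (Ioc (0 : ℝ) 1)) := by
    rw [volume_pi, Measure.restrict_pi_pi]
  rw [h3]
  exact h2

/-- the representative in `(0, 1]` -/
def rep (θ : UnitAddCircle) : ℝ := (AddCircle.measurableEquivIoc (1 : ℝ) 0 θ : ℝ)

theorem measurable_rep : Measurable rep :=
  measurable_subtype_coe.comp (AddCircle.measurableEquivIoc (1 : ℝ) 0).measurable

theorem coe_rep (θ : UnitAddCircle) : ((rep θ : ℝ) : UnitAddCircle) = θ :=
  AddCircle.coe_equivIoc (p := (1 : ℝ)) (a := 0)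

theorem rep_coe {x : ℝ} (hx : x ∈ Ioc (0 : ℝ) 1) : rep (x : UnitAddCircle) = x := by
  have hx' : x ∈ Ioc (0 : ℝ) (0 + 1) := by simpa using hx
  have h := AddCircle.equivIoc_coe_eq (p := (1 : ℝ)) (a := 0) hx'
  have h2 := congrArg Subtype.val h
  exact h2

/-- the angles of a point of the torus -/
def ang (θ : UnitAddTorus (Fin d)) : Fin d → ℝ := fun j => 2 * π * rep (θ j)

theorem measurable_ang : Measurable (ang (d := d)) := by
  unfold ang
  refine measurable_pi_lambda _ fun j => ?_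
  exact (measurable_rep.comp (measurable_pi_apply j)).const_mul (2 * π)

theorem sy_eq (θ : UnitAddTorus (Fin d)) : sy θ = ∑ j, 2 * Real.cos (ang θ j) := by
  unfold sy
  apply Finset.sum_congr rfl
  intro j _
  unfold c2
  have h : u (θ j) = Complex.exp ((ang θ j : ℝ) * Complex.I) := by
    rw [← coe_rep (θ j), u_coe]
    congr 1
    unfold ang
    push_cast
    ring
  rw [h, Complex.exp_ofReal_mul_I_re]

theorem ch_eq (y : Site d) (θ : UnitAddTorus (Fin d)) :
    ch y θ = ∏ j, Complex.exp (Complex.I * ((y j * ang θ j : ℝ) : ℂ)) := by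
  unfold ch UnitAddTorus.mFourier
  simp only [ContinuousMap.coe_mk]
  apply Finset.prod_congr rfl
  intro j _
  conv_lhs => rw [← coe_rep (θ j)]
  rw [fourier_coe_apply]
  congr 1
  unfold ang
  push_cast
  ring

/-- a function which vanishes outside of the open cube of the angles -/
theorem integral_ang {E : Type*} [NormedAddCommGroup E] [NormedSpace ℝ E]
    (F : (Fin d → ℝ) → E)
    (hFm : AEStronglyMeasurable (fun θ : UnitAddTorus (Fin d) => F (ang θ)) volume)
    (h0 : ∀ y : Fin d → ℝ, (∃ j, y j ≤ 0 ∨ 2 * π < y j) → F y = 0) :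
    ∫ θ : UnitAddTorus (Fin d), F (ang θ) = ((2 * π) ^ d)⁻¹ • ∫ y, F y := by
  have hpi := Real.pi_pos
  have h1 : ∫ θ : UnitAddTorus (Fin d), F (ang θ) =
      ∫ x in Set.pi Set.univ fun _ => Ioc (0 : ℝ) 1, F (ang (cov x)) := by
    rw [← mp_cov.map_eq] at hFm ⊢
    rw [integral_map mp_cov.measurable.aemeasurable hFm]
  have h2 : ∫ x in Set.pi Set.univ fun _ : Fin d => Ioc (0 : ℝ) 1, F (ang (cov x)) =
      ∫ x in Set.pi Set.univ fun _ : Fin d => Ioc (0 : ℝ) 1, F ((2 * π) • x) := by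
    apply setIntegral_congr_fun (MeasurableSet.univ_pi fun _ => measurableSet_Ioc)
    intro x hx
    show F (ang (cov x)) = F ((2 * π) • x)
    congr 1
    funext j
    unfold ang cov
    rw [rep_coe (hx j (Set.mem_univ j))]
    rfl
  have h3 : ∫ x in Set.pi Set.univ fun _ : Fin d => Ioc (0 : ℝ) 1, F ((2 * π) • x) =
      ∫ x : Fin d → ℝ, F ((2 * π) • x) := by
    apply setIntegral_eq_integral_of_forall_compl_eq_zero
    intro x hx
    apply h0
    rw [Set.mem_univ_pi] at hx
    push Not at hx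
    obtain ⟨j, hj⟩ := hx
    refine ⟨j, ?_⟩
    rw [Set.mem_Ioc, not_and_or, not_lt, not_le] at hj
    rcases hj with hj | hj
    · left
      show 2 * π * x j ≤ 0
      exact mul_nonpos_of_nonneg_of_nonpos (by positivity) hj
    · right
      show 2 * π < 2 * π * x j
      nlinarith
  rw [h1, h2, h3, Measure.integral_comp_smul, Module.finrank_fin_fun]
  congr 1
  rw [abs_of_pos]
  positivity

end Pool.Agent.LE.CL.H76
end
end -- Pool.Agent.Helper76_LSP.Tor

section -- Pool.Agent.Helper76_LSP.Wh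

/-!
# Squad LSP, row TSA, part 2: the Fourier transform of the trapezoid and the cut-off
-/

set_option autoImplicit false

open MeasureTheory Set Real Function

open scoped ENNReal ComplexConjugate

noncomputable section

namespace Pool.Agent.LE.CL.H76

open Pool.Agent.Anderson

theorem abs_cos_sub_le (a : ℝ) : |Real.cos a - Real.cos (2 * a)| ≤ 3 / 2 * a ^ 2 := by
  rw [Real.cos_sub_cos, abs_mul, abs_mul]
  have h1 : |Real.sin ((a + 2 * a) / 2)| ≤ |(a + 2 * a) / 2| := Real.abs_sin_le_abs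
  have h2 : |Real.sin ((a - 2 * a) / 2)| ≤ |(a - 2 * a) / 2| := Real.abs_sin_le_abs
  have h3 : |(a + 2 * a) / 2| = 3 / 2 * |a| := by
    rw [show (a + 2 * a) / 2 = 3 / 2 * a by ring, abs_mul, abs_of_pos (by norm_num)]
  have h4 : |(a - 2 * a) / 2| = 1 / 2 * |a| := by
    rw [show (a - 2 * a) / 2 = -(1 / 2 * a) by ring, abs_neg, abs_mul, abs_of_pos (by norm_num)]
  rw [h3] at h1
  rw [h4] at h2
  have h5 : |(-2 : ℝ)| = 2 := by norm_num
  rw [h5]
  have h6 : |Real.sin ((a + 2 * a) / 2)| * |Real.sin ((a - 2 * a) / 2)| ≤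
      3 / 2 * |a| * (1 / 2 * |a|) := mul_le_mul h1 h2 (abs_nonneg _) (by positivity)
  have h7 : |a| * |a| = a ^ 2 := by rw [abs_mul_abs_self, sq]
  nlinarith only [h6, h7]

theorem abs_wh_le1 {T : ℝ} (hT : 0 < T) (x : ℝ) : |wh T x| ≤ 3 * T := by
  unfold wh
  rcases eq_or_ne x 0 with rfl | hx
  · simp
    positivity
  · have hx2 : 0 < x ^ 2 := by positivity
    rw [abs_div, abs_of_pos (mul_pos hT hx2), div_le_iff₀ (mul_pos hT hx2), abs_mul,
      abs_of_pos (by norm_num : (0 : ℝ) < 2)]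
    have h1 := abs_cos_sub_le (T * x)
    rw [← mul_assoc] at h1
    calc 2 * |Real.cos (T * x) - Real.cos (2 * T * x)| ≤ 2 * (3 / 2 * (T * x) ^ 2) := by linarith
      _ = 3 * T * (T * x ^ 2) := by ring

theorem abs_wh_le2 {T : ℝ} (hT : 0 < T) (x : ℝ) : |wh T x| ≤ 4 / (T * x ^ 2) := by
  unfold wh
  rw [abs_div, abs_of_nonneg (by positivity : 0 ≤ T * x ^ 2)]
  apply div_le_div_of_nonneg_right _ (by positivity)
  rw [abs_mul, abs_of_pos (by norm_num : (0 : ℝ) < 2)]
  have h1 : |Real.cos (T * x) - Real.cos (2 * T * x)| ≤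
      |Real.cos (T * x)| + |Real.cos (2 * T * x)| := abs_sub _ _
  have h2 := Real.abs_cos_le_one (T * x)
  have h3 := Real.abs_cos_le_one (2 * T * x)
  linarith only [h1, h2, h3]

theorem ker_inv {T : ℝ} (hT : 0 < T) (x : ℝ) : ker T⁻¹ x = T / (T ^ 2 * x ^ 2 + 1) := by
  unfold ker
  rw [div_eq_div_iff (by positivity) (by positivity)]
  field_simp

theorem wh_sq_le {T : ℝ} (hT : 0 < T) (x : ℝ) : wh T x ^ 2 ≤ 32 * T * ker T⁻¹ x := by
  rw [ker_inv hT, ← mul_div_assoc, le_div_iff₀ (by positivity), ← sq_abs (wh T x)]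
  have h0 := abs_nonneg (wh T x)
  rcases le_or_gt ((T * x) ^ 2) 1 with h | h
  · have h1 := abs_wh_le1 hT x
    have h2 : |wh T x| ^ 2 ≤ (3 * T) ^ 2 := pow_le_pow_left₀ h0 h1 2
    have h3 : T ^ 2 * x ^ 2 + 1 ≤ 2 := by nlinarith only [h]
    calc |wh T x| ^ 2 * (T ^ 2 * x ^ 2 + 1) ≤ (3 * T) ^ 2 * 2 :=
          mul_le_mul h2 h3 (by positivity) (by positivity)
      _ ≤ 32 * T * T := by nlinarith only
  · have h1 := abs_wh_le2 hT x
    have hx : x ≠ 0 := by
      rintro rfl
      norm_num at h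
    have hx2 : 0 < x ^ 2 := by positivity
    have h2 : |wh T x| ^ 2 ≤ (4 / (T * x ^ 2)) ^ 2 := pow_le_pow_left₀ h0 h1 2
    have h3 : T ^ 2 * x ^ 2 + 1 ≤ 2 * (T ^ 2 * x ^ 2) := by nlinarith only [h]
    calc |wh T x| ^ 2 * (T ^ 2 * x ^ 2 + 1) ≤ (4 / (T * x ^ 2)) ^ 2 * (2 * (T ^ 2 * x ^ 2)) :=
          mul_le_mul h2 h3 (by positivity) (by positivity)
      _ = 32 / x ^ 2 := by
          field_simp
          ring
      _ ≤ 32 * T * T := by
          rw [div_le_iff₀ hx2]
          nlinarith only [h]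

theorem wh_sq_abs_le {T : ℝ} (hT : 0 < T) (x : ℝ) :
    wh T x ^ 2 * |x| ≤ 32 * ker T⁻¹ x := by
  rw [ker_inv hT, ← mul_div_assoc, le_div_iff₀ (by positivity), ← sq_abs (wh T x)]
  have h0 := abs_nonneg (wh T x)
  have hx0 := abs_nonneg x
  have hxx : |x| ^ 2 = x ^ 2 := sq_abs x
  rcases le_or_gt (T * |x|) 1 with h | h
  · have h1 := abs_wh_le1 hT x
    have h2 : |wh T x| ^ 2 ≤ (3 * T) ^ 2 := pow_le_pow_left₀ h0 h1 2
    have h4 : (T * |x|) ^ 2 ≤ 1 := pow_le_one₀ (by positivity) h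
    have h3 : T ^ 2 * x ^ 2 + 1 ≤ 2 := by
      rw [mul_pow, hxx] at h4
      linarith only [h4]
    have h5 : |wh T x| ^ 2 * |x| ≤ 9 * T := by
      calc |wh T x| ^ 2 * |x| ≤ (3 * T) ^ 2 * |x| := mul_le_mul_of_nonneg_right h2 hx0
        _ = 9 * T * (T * |x|) := by ring
        _ ≤ 9 * T * 1 := mul_le_mul_of_nonneg_left h (by positivity)
        _ = 9 * T := by ring
    calc |wh T x| ^ 2 * |x| * (T ^ 2 * x ^ 2 + 1) ≤ 9 * T * 2 :=
          mul_le_mul h5 h3 (by positivity) (by positivity)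
      _ ≤ 32 * T := by linarith
  · have h1 := abs_wh_le2 hT x
    have hx : x ≠ 0 := by
      rintro rfl
      norm_num at h
    have hx' : 0 < |x| := abs_pos.2 hx
    have h2 : |wh T x| ^ 2 ≤ (4 / (T * x ^ 2)) ^ 2 := pow_le_pow_left₀ h0 h1 2
    have h4 : 1 < (T * |x|) ^ 2 := one_lt_pow₀ h (by norm_num)
    have h3 : T ^ 2 * x ^ 2 + 1 ≤ 2 * (T ^ 2 * x ^ 2) := by
      rw [mul_pow, hxx] at h4
      linarith only [h4]
    calc |wh T x| ^ 2 * |x| * (T ^ 2 * x ^ 2 + 1) ≤
        (4 / (T * x ^ 2)) ^ 2 * |x| * (2 * (T ^ 2 * x ^ 2)) :=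
          mul_le_mul (mul_le_mul_of_nonneg_right h2 hx0) h3 (by positivity) (by positivity)
      _ = 32 / |x| := by
          rw [← hxx]
          field_simp
          ring
      _ ≤ 32 * T := by
          rw [div_le_iff₀ hx']
          nlinarith only [h]

theorem x_mul_wh {T : ℝ} (hT : 0 < T) (x : ℝ) :
    wh T x * x = 2 / T * ∫ t in T..(2 * T), Real.sin (t * x) := by
  rcases eq_or_ne x 0 with rfl | hx
  · simp
  · rw [intervalIntegral.integral_comp_mul_right (fun y => Real.sin y) hx, integral_sin,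
      smul_eq_mul]
    unfold wh
    field_simp

/-! ### the cut-off -/

theorem aa_nonneg (th0 r x : ℝ) : 0 ≤ aa th0 r x := le_max_right _ _

theorem aa_le (th0 r x : ℝ) : aa th0 r x ≤ r ^ 2 := by
  unfold aa
  apply max_le
  · nlinarith only [sq_nonneg (x - th0)]
  · positivity

theorem aa_zero {th0 r x : ℝ} (hr : 0 ≤ r) (h : r ≤ |x - th0|) : aa th0 r x = 0 := by
  unfold aa
  apply max_eq_right
  have h1 : r ^ 2 ≤ |x - th0| ^ 2 := pow_le_pow_left₀ hr h 2
  rw [sq_abs] at h1
  linarith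

theorem aa_eq {th0 r x : ℝ} (h : |x - th0| ≤ r) : aa th0 r x = r ^ 2 - (x - th0) ^ 2 := by
  unfold aa
  apply max_eq_left
  have h1 : |x - th0| ^ 2 ≤ r ^ 2 := pow_le_pow_left₀ (abs_nonneg _) h 2
  rw [sq_abs] at h1
  linarith

theorem continuous_aa (th0 r : ℝ) : Continuous (aa th0 r) := by
  unfold aa
  fun_prop

theorem hh_eq {th0 r : ℝ} (hr : 0 ≤ r) (t : ℝ) (n : ℤ) :
    ∫ x : ℝ, ((aa th0 r x : ℝ) : ℂ) *
      Complex.exp (Complex.I * ((n * x - 2 * t * Real.cos x : ℝ) : ℂ)) = hh th0 r t n := by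
  unfold hh
  rw [intervalIntegral.integral_of_le (by linarith)]
  have h1 : ∫ x in Ioc (th0 - r) (th0 + r), ((r ^ 2 - (x - th0) ^ 2 : ℝ) : ℂ) *
      Complex.exp (Complex.I * ((n * x - 2 * t * Real.cos x : ℝ) : ℂ)) =
      ∫ x in Ioc (th0 - r) (th0 + r), ((aa th0 r x : ℝ) : ℂ) *
      Complex.exp (Complex.I * ((n * x - 2 * t * Real.cos x : ℝ) : ℂ)) := by
    apply setIntegral_congr_fun measurableSet_Ioc
    intro x hx
    show ((r ^ 2 - (x - th0) ^ 2 : ℝ) : ℂ) * _ = ((aa th0 r x : ℝ) : ℂ) * _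
    rw [aa_eq]
    rw [abs_le]
    constructor <;> linarith [hx.1, hx.2]
  rw [h1]
  symm
  apply setIntegral_eq_integral_of_forall_compl_eq_zero
  intro x hx
  rw [Set.mem_Ioc, not_and_or, not_lt, not_le] at hx
  rw [aa_zero hr, Complex.ofReal_zero, zero_mul]
  rcases hx with hx | hx
  · rw [le_abs]
    right
    linarith
  · rw [le_abs]
    left
    linarith

/-- the product of the cut-offs -/
def cut {d : ℕ} (th0 : Fin d → ℝ) (r : ℝ) (y : Fin d → ℝ) : ℝ := ∏ j, aa (th0 j) r (y j)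

variable {d : ℕ} {th0 : Fin d → ℝ} {r : ℝ}

theorem cut_nonneg (y : Fin d → ℝ) : 0 ≤ cut th0 r y :=
  Finset.prod_nonneg fun j _ => aa_nonneg _ _ _

theorem cut_le_one (hr : 0 < r) (hr1 : r ≤ 1 / 2) (y : Fin d → ℝ) : cut th0 r y ≤ 1 := by
  apply Finset.prod_le_one
  · intro j _
    exact aa_nonneg _ _ _
  · intro j _
    refine (aa_le _ _ _).trans ?_
    nlinarith only [hr, hr1]

theorem cut_zero (hr : 0 < r) (h0 : ∀ j, 2 * r ≤ th0 j ∧ th0 j ≤ Real.pi - 2 * r) (y : Fin d → ℝ)
    (hy : ∃ j, y j ≤ 0 ∨ 2 * π < y j) : cut th0 r y = 0 := by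
  obtain ⟨j, hj⟩ := hy
  have hpi := Real.pi_pos
  apply Finset.prod_eq_zero (Finset.mem_univ j)
  apply aa_zero hr.le
  obtain ⟨h1, h2⟩ := h0 j
  rcases hj with hj | hj
  · rw [le_abs]
    right
    linarith
  · rw [le_abs]
    left
    linarith

theorem continuous_cut : Continuous (cut th0 r) := by
  unfold cut
  apply continuous_finsetProd
  intro j _
  exact (continuous_aa _ _).comp (continuous_apply j)

end Pool.Agent.LE.CL.H76
end
end -- Pool.Agent.Helper76_LSP.Wh

section -- Pool.Agent.Helper76_LSP.Fou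

/-!
# Squad LSP, row TSA, part 3: the Fourier coefficients
-/

set_option autoImplicit false

open MeasureTheory Set Real Function

open scoped ENNReal ComplexConjugate

noncomputable section

namespace Pool.Agent.LE.CL.H76

open Pool.Agent.Anderson

local instance haarMSf : MeasureSpace UnitAddCircle := ⟨AddCircle.haarAddCircle⟩

local instance haarAHf : Measure.IsAddHaarMeasure (volume : Measure UnitAddCircle) :=
  inferInstanceAs (Measure.IsAddHaarMeasure AddCircle.haarAddCircle)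

local instance haarPMf : IsProbabilityMeasure (volume : Measure UnitAddCircle) :=
  inferInstanceAs (IsProbabilityMeasure AddCircle.haarAddCircle)

variable {d : ℕ} {th0 : Fin d → ℝ} {r : ℝ}

/-- the integrand -/
def gg (th0 : Fin d → ℝ) (r E : ℝ) (n : Site d) (θ : UnitAddTorus (Fin d)) (t : ℝ) : ℂ :=
  (cut th0 r (ang θ) : ℂ) * (Complex.exp (-(Complex.I * ((t * (sy θ - E) : ℝ) : ℂ))) * ch n θ)

theorem measurable_cut_ang : Measurable fun θ : UnitAddTorus (Fin d) => cut th0 r (ang θ) :=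
  continuous_cut.measurable.comp measurable_ang

theorem measurable_gg (E : ℝ) (n : Site d) :
    Measurable fun p : UnitAddTorus (Fin d) × ℝ => gg th0 r E n p.1 p.2 := by
  unfold gg
  have h1 : Measurable fun p : UnitAddTorus (Fin d) × ℝ => cut th0 r (ang p.1) :=
    measurable_cut_ang.comp measurable_fst
  have h2 : Measurable fun p : UnitAddTorus (Fin d) × ℝ => sy p.1 :=
    continuous_sy.measurable.comp measurable_fst
  have h3 : Measurable fun p : UnitAddTorus (Fin d) × ℝ => ch n p.1 :=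
    (continuous_ch n).measurable.comp measurable_fst
  have h4 : Measurable fun p : UnitAddTorus (Fin d) × ℝ => (p.2 * (sy p.1 - E) : ℝ) :=
    measurable_snd.mul (h2.sub_const E)
  have h5 : Measurable fun p : UnitAddTorus (Fin d) × ℝ =>
      Complex.exp (-(Complex.I * ((p.2 * (sy p.1 - E) : ℝ) : ℂ))) :=
    Complex.measurable_exp.comp
      (((Complex.measurable_ofReal.comp h4).const_mul Complex.I).neg)
  exact (Complex.measurable_ofReal.comp h1).mul (h5.mul h3)

theorem measurable_gg1 (E t : ℝ) (n : Site d) :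
    Measurable fun θ : UnitAddTorus (Fin d) => gg th0 r E n θ t := by
  unfold gg
  have h1 : Measurable fun θ : UnitAddTorus (Fin d) => cut th0 r (ang θ) := measurable_cut_ang
  have h2 : Measurable fun θ : UnitAddTorus (Fin d) => sy θ := continuous_sy.measurable
  have h3 : Measurable fun θ : UnitAddTorus (Fin d) => ch n θ := (continuous_ch n).measurable
  have h4 : Measurable fun θ : UnitAddTorus (Fin d) => (t * (sy θ - E) : ℝ) :=
    (h2.sub_const E).const_mul t
  have h5 : Measurable fun θ : UnitAddTorus (Fin d) =>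
      Complex.exp (-(Complex.I * ((t * (sy θ - E) : ℝ) : ℂ))) :=
    Complex.measurable_exp.comp
      (((Complex.measurable_ofReal.comp h4).const_mul Complex.I).neg)
  exact (Complex.measurable_ofReal.comp h1).mul (h5.mul h3)

theorem norm_gg_le (hr : 0 < r) (hr1 : r ≤ 1 / 2) (E : ℝ) (n : Site d)
    (θ : UnitAddTorus (Fin d)) (t : ℝ) : ‖gg th0 r E n θ t‖ ≤ 1 := by
  unfold gg
  rw [norm_mul, norm_mul, norm_ch, mul_one, Complex.norm_real, Real.norm_eq_abs,
    abs_of_nonneg (cut_nonneg _)]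
  have h1 : ‖Complex.exp (-(Complex.I * ((t * (sy θ - E) : ℝ) : ℂ)))‖ = 1 := by
    rw [show -(Complex.I * ((t * (sy θ - E) : ℝ) : ℂ)) =
      ((-(t * (sy θ - E)) : ℝ) : ℂ) * Complex.I by push_cast; ring]
    exact Complex.norm_exp_ofReal_mul_I _
  rw [h1, mul_one]
  exact cut_le_one hr hr1 _

theorem prod_exp (x : Fin d → ℝ) : ∏ j, Complex.exp (Complex.I * ((x j : ℝ) : ℂ)) =
    Complex.exp (Complex.I * ((∑ j, x j : ℝ) : ℂ)) := by
  rw [← Complex.exp_sum, Complex.ofReal_sum, Finset.mul_sum]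

theorem integrand_eq (E t : ℝ) (n : Site d) (y : Fin d → ℝ) :
    (cut th0 r y : ℂ) *
      (Complex.exp (-(Complex.I * ((t * (∑ j, 2 * Real.cos (y j) - E) : ℝ) : ℂ))) *
        ∏ j, Complex.exp (Complex.I * ((n j * y j : ℝ) : ℂ))) =
    Complex.exp (Complex.I * ((t * E : ℝ) : ℂ)) *
        ∏ j, (((aa (th0 j) r (y j) : ℝ) : ℂ) *
          Complex.exp (Complex.I * ((n j * y j - 2 * t * Real.cos (y j) : ℝ) : ℂ))) := by
  rw [Finset.prod_mul_distrib, prod_exp, prod_exp]
  have h1 : (cut th0 r y : ℂ) = ∏ j, ((aa (th0 j) r (y j) : ℝ) : ℂ) := by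
    unfold cut
    rw [Complex.ofReal_prod]
  have h2 : ∑ j, (n j * y j - 2 * t * Real.cos (y j) : ℝ) =
      ∑ j, (n j * y j : ℝ) - t * ∑ j, 2 * Real.cos (y j) := by
    rw [Finset.sum_sub_distrib, Finset.mul_sum]
    congr 1
    apply Finset.sum_congr rfl
    intro j _
    ring
  obtain ⟨s1, hs1⟩ : ∃ s1 : ℝ, s1 = ∑ j, (n j * y j : ℝ) := ⟨_, rfl⟩
  obtain ⟨s2, hs2⟩ : ∃ s2 : ℝ, s2 = ∑ j, 2 * Real.cos (y j) := ⟨_, rfl⟩
  rw [← h1, h2, ← hs1, ← hs2, mul_left_comm (Complex.exp (Complex.I * ((t * E : ℝ) : ℂ))),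
    ← Complex.exp_add, ← Complex.exp_add]
  congr 2
  push_cast
  ring

/-- the integral over the torus -/
theorem integral_gg (hr : 0 < r) (h0 : ∀ j, 2 * r ≤ th0 j ∧ th0 j ≤ Real.pi - 2 * r) (E t : ℝ)
    (n : Site d) :
    ∫ θ, gg th0 r E n θ t = ((2 * π) ^ d)⁻¹ •
      (Complex.exp (Complex.I * ((t * E : ℝ) : ℂ)) * ∏ j, hh (th0 j) r t (n j)) := by
  obtain ⟨F, hF⟩ : ∃ F : (Fin d → ℝ) → ℂ, ∀ y, F y = (cut th0 r y : ℂ) *
      (Complex.exp (-(Complex.I * ((t * (∑ j, 2 * Real.cos (y j) - E) : ℝ) : ℂ))) *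
        ∏ j, Complex.exp (Complex.I * ((n j * y j : ℝ) : ℂ))) := ⟨_, fun _ => rfl⟩
  have e1 : ∀ θ, gg th0 r E n θ t = F (ang θ) := by
    intro θ
    rw [hF]
    unfold gg
    rw [sy_eq, ch_eq]
  have hm : Measurable fun θ : UnitAddTorus (Fin d) => gg th0 r E n θ t :=
    measurable_gg1 E t n
  have hm2 : Measurable fun θ : UnitAddTorus (Fin d) => F (ang θ) := by
    simpa only [e1] using hm
  have e0 : ∫ θ, gg th0 r E n θ t = ∫ θ, F (ang θ) := by
    apply integral_congr_ae
    exact Filter.Eventually.of_forall e1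
  have hz : ∀ y : Fin d → ℝ, (∃ j, y j ≤ 0 ∨ 2 * π < y j) → F y = 0 := by
    intro y hy
    rw [hF, cut_zero hr h0 y hy, Complex.ofReal_zero, zero_mul]
  rw [e0, integral_ang F hm2.aestronglyMeasurable hz]
  congr 1
  have e2 : ∫ y, F y = ∫ y : Fin d → ℝ, Complex.exp (Complex.I * ((t * E : ℝ) : ℂ)) *
        ∏ j, (((aa (th0 j) r (y j) : ℝ) : ℂ) *
          Complex.exp (Complex.I * ((n j * y j - 2 * t * Real.cos (y j) : ℝ) : ℂ))) := by
    apply integral_congr_ae
    refine Filter.Eventually.of_forall fun y => ?_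
    show F y = _
    rw [hF]
    exact integrand_eq E t n y
  rw [e2, integral_const_mul]
  congr 1
  have e3 := integral_fintype_prod_volume_eq_prod (𝕜 := ℂ) (ι := Fin d) (E := fun _ => ℝ)
    (fun j x => ((aa (th0 j) r x : ℝ) : ℂ) *
          Complex.exp (Complex.I * ((n j * x - 2 * t * Real.cos x : ℝ) : ℂ)))
  rw [e3]
  apply Finset.prod_congr rfl
  intro j _
  exact hh_eq hr.le t (n j)

/-- the double integral -/
def JJ (th0 : Fin d → ℝ) (r E T : ℝ) (n : Site d) : ℂ :=
  ∫ θ, ∫ t in T..(2 * T), gg th0 r E n θ t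

theorem norm_JJ_le (hr : 0 < r) (hr1 : r ≤ 1 / 2)
    (h0 : ∀ j, 2 * r ≤ th0 j ∧ th0 j ≤ Real.pi - 2 * r) (E : ℝ) {T K : ℝ} (hT : 0 < T)
    (n : Site d)
    (hK : ‖∫ t in T..(2 * T), Complex.exp (Complex.I * ((t * E : ℝ) : ℂ)) *
          ∏ j, hh (th0 j) r t (n j)‖ ≤ K) : ‖JJ th0 r E T n‖ ≤ K := by
  have hpi := Real.pi_pos
  unfold JJ
  have hTT : T ≤ 2 * T := by linarith
  simp only [intervalIntegral.integral_of_le hTT]
  rw [integral_integral_swap]
  · simp only [integral_gg hr h0]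
    rw [integral_smul, ← intervalIntegral.integral_of_le hTT, norm_smul, norm_inv, norm_pow,
      Real.norm_eq_abs, abs_of_pos (by positivity : 0 < 2 * π)]
    have h1 : ((2 * π) ^ d)⁻¹ ≤ 1 := by
      apply inv_le_one_of_one_le₀
      apply one_le_pow₀
      linarith [Real.pi_gt_three]
    calc ((2 * π) ^ d)⁻¹ * _ ≤ 1 * K := mul_le_mul h1 hK (norm_nonneg _) (by norm_num)
      _ = K := one_mul K
  · apply Integrable.of_bound (measurable_gg E n).aestronglyMeasurable 1
    exact Filter.Eventually.of_forall fun p => norm_gg_le hr hr1 E n p.1 p.2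

/-- the inner integral -/
theorem sin_integral (T X : ℝ) :
    ((∫ t in T..(2 * T), Real.sin (t * X) : ℝ) : ℂ) =
      (conj (∫ t in T..(2 * T), Complex.exp (-(Complex.I * ((t * X : ℝ) : ℂ)))) -
        ∫ t in T..(2 * T), Complex.exp (-(Complex.I * ((t * X : ℝ) : ℂ)))) /
          (2 * Complex.I) := by
  obtain ⟨K, hK⟩ : ∃ K, K = ∫ t in T..(2 * T), Complex.exp (-(Complex.I * ((t * X : ℝ) : ℂ))) :=
    ⟨_, rfl⟩
  have hc : Continuous fun t : ℝ => Complex.exp (-(Complex.I * ((t * X : ℝ) : ℂ))) := by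
    fun_prop
  have h1 : ∫ t in T..(2 * T), Real.sin (t * X) = -K.im := by
    have h2 := Complex.imCLM.intervalIntegral_comp_comm (μ := volume)
      (hc.intervalIntegrable T (2 * T))
    rw [hK]
    have h3 : (∫ t in T..(2 * T), Complex.exp (-(Complex.I * ((t * X : ℝ) : ℂ)))).im =
        Complex.imCLM (∫ t in T..(2 * T), Complex.exp (-(Complex.I * ((t * X : ℝ) : ℂ)))) := rfl
    rw [h3, ← h2, ← intervalIntegral.integral_neg]
    apply intervalIntegral.integral_congr
    intro t _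
    show Real.sin (t * X) = -(Complex.exp (-(Complex.I * ((t * X : ℝ) : ℂ)))).im
    rw [show -(Complex.I * ((t * X : ℝ) : ℂ)) = ((-(t * X) : ℝ) : ℂ) * Complex.I by
      push_cast; ring, Complex.exp_ofReal_mul_I_im, Real.sin_neg, neg_neg]
  rw [h1, ← hK]
  have hI : Complex.I ≠ 0 := Complex.I_ne_zero
  rw [eq_div_iff (by simp)]
  apply Complex.ext
  · simp
  · simp
    ring

/-- the Fourier coefficients of the test multiplier -/
theorem coef_le (hr : 0 < r) (hr1 : r ≤ 1 / 2)
    (h0 : ∀ j, 2 * r ≤ th0 j ∧ th0 j ≤ Real.pi - 2 * r) (E : ℝ) {T K : ℝ} (hT : 0 < T)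
    (hK : ∀ n : Site d, ‖∫ t in T..(2 * T), Complex.exp (Complex.I * ((t * E : ℝ) : ℂ)) *
          ∏ j, hh (th0 j) r t (n j)‖ ≤ K) (y : Site d) :
    ‖∫ θ, ((cut th0 r (ang θ) * wh T (sy θ - E) * (sy θ - E) : ℝ) : ℂ) * ch y θ‖ ≤
      2 / T * K := by
  have e1 : ∀ θ : UnitAddTorus (Fin d),
      ((cut th0 r (ang θ) * wh T (sy θ - E) * (sy θ - E) : ℝ) : ℂ) * ch y θ =
      (1 / (T * Complex.I)) * (conj (∫ t in T..(2 * T), gg th0 r E (-y) θ t) -
        ∫ t in T..(2 * T), gg th0 r E y θ t) := by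
    intro θ
    rw [mul_assoc (cut th0 r (ang θ)), x_mul_wh hT]
    unfold gg
    rw [intervalIntegral.integral_const_mul, intervalIntegral.integral_const_mul,
      intervalIntegral.integral_mul_const, intervalIntegral.integral_mul_const, ch_neg]
    rw [Complex.ofReal_mul, Complex.ofReal_mul, sin_integral T (sy θ - E), map_mul, map_mul,
      Complex.conj_ofReal, Complex.conj_conj]
    have hI : Complex.I ≠ 0 := Complex.I_ne_zero
    have hTc : (T : ℂ) ≠ 0 := by exact_mod_cast hT.ne'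
    generalize (∫ t in T..(2 * T), Complex.exp (-(Complex.I * ((t * (sy θ - E) : ℝ) : ℂ)))) = K'
    push_cast
    field_simp
  have hint : ∀ n : Site d, Integrable fun θ : UnitAddTorus (Fin d) =>
      ∫ t in T..(2 * T), gg th0 r E n θ t := by
    intro n
    simp only [intervalIntegral.integral_of_le (by linarith : T ≤ 2 * T)]
    have h1 : Integrable (Function.uncurry fun (θ : UnitAddTorus (Fin d)) (t : ℝ) =>
        gg th0 r E n θ t) ((volume : Measure (UnitAddTorus (Fin d))).prod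
          (volume.restrict (Ioc T (2 * T)))) := by
      apply Integrable.of_bound (measurable_gg E n).aestronglyMeasurable 1
      exact Filter.Eventually.of_forall fun p => norm_gg_le hr hr1 E n p.1 p.2
    exact h1.integral_prod_left
  have hint2 : Integrable fun θ : UnitAddTorus (Fin d) =>
      conj (∫ t in T..(2 * T), gg th0 r E (-y) θ t) := by
    have := (hint (-y))
    exact (Complex.conjCLE.toContinuousLinearMap.integrable_comp this)
  simp only [e1]
  rw [integral_const_mul, integral_sub hint2 (hint y), norm_mul]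
  have h2 : ∫ θ : UnitAddTorus (Fin d), conj (∫ t in T..(2 * T), gg th0 r E (-y) θ t) =
      conj (JJ th0 r E T (-y)) := by
    unfold JJ
    exact integral_conj
  have h3 : ‖(1 / (T * Complex.I) : ℂ)‖ = 1 / T := by
    rw [norm_div, norm_mul, Complex.norm_I, norm_one, mul_one, Complex.norm_real,
      Real.norm_eq_abs, abs_of_pos hT]
  rw [h2, h3]
  have h4 : ‖conj (JJ th0 r E T (-y)) - ∫ θ, ∫ t in T..(2 * T), gg th0 r E y θ t‖ ≤ K + K := by
    refine (norm_sub_le _ _).trans (add_le_add ?_ ?_)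
    · rw [RCLike.norm_conj]
      exact norm_JJ_le hr hr1 h0 E hT _ (hK _)
    · exact norm_JJ_le hr hr1 h0 E hT _ (hK _)
  calc 1 / T * _ ≤ 1 / T * (K + K) := mul_le_mul_of_nonneg_left h4 (by positivity)
    _ = 2 / T * K := by ring

end Pool.Agent.LE.CL.H76
end
end -- Pool.Agent.Helper76_LSP.Fou
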