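import Pool.Agent.Helper12_MEB.B036
import Pool.Agent.Helper12_MEB.B054
import Pool.Agent.Helper12_MEB.B072

/-!
# Merged copies (generated) of the modules

* `Pool.Agent.LE.StmtsM`
* `Pool.Agent.LE.StmtsP`
-/

set_option autoImplicit false

section -- Pool.Agent.LE.StmtsM

/-!
# The mean of the Lyapunov exponent: kinetic scale in the bulk, sharp rate at the band edge

Statements of the modules, with proofs. Let `γ(E)` be the Lyapunov exponent at the disorder `σ`.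

(M) For `0 < |σ| ≤ c(δ)` and every interval `J ⊆ [-2d + δ, 2d - δ]`, `|J| ≥ σ² log⁴ (1 / |σ|)`, the
mean of `γ` over `J` is at most `C σ² log⁵ (1 / |σ|)`: the inverse mean free path.
(W) `∫_{|E - z| ≤ lam} γ ≤ C lam^{3/2} log t` near the effective band edge `z`.

MAIN IDEA. Let `G_N(z)` be the Green function of the cube `box 0 N` and `F(z) = - log max_{u ∈ S}
|G_N(0, u; z)|`, `S` at the distance at least `M` from `0`. All the poles of `G_N(0, u; z)` are real,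
so Jensen's formula in the upper half plane gives: the mean of `F(E)` over real `E`, with respect to
the harmonic measure seen from `z₀ = E₀ + i η`, is at most `F(z₀)` (JEN). For real `E` the mean of
`F(E)` is at least about `γ(E) M` (LYR), so if `E F(z₀) ≤ c M`, the harmonic mean of `γ` is at most
`c` (AVG). At the complex energy `z₀` one has perturbation theory: conduction over the distance `L`
from each point of the cube `S_k = box (k L e_i) R` to some point of `S_{k+1}`, at the price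
`C log (1 / |σ|)`, with overwhelming probability, for `L = c / η`, `η = C σ² log⁴ (1 / |σ|)` (DLK,
PRB), and the one site inequality for the maximum over `S` (VTZ) allows a chain of such links
(CHN, LNK), so `c = C log (1 / |σ|) / L`.
-/

set_option autoImplicit false

open MeasureTheory ProbabilityTheory Function Filter

open scoped ENNReal BigOperators Topology NNReal

noncomputable section

namespace Pool.Agent.LE.MN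

open Pool.Agent.Anderson hiding box mem_box card_box
open Pool.Agent.Loc Pool.Agent.Mob Pool.Agent.Helper54.Bal
  Pool.Agent.Helper96.EXP Pool.Agent.BED

/-- The circle carries its Haar probability measure, as in `Helper17_Anderson`. -/
scoped instance haarMS : MeasureSpace UnitAddCircle := ⟨AddCircle.haarAddCircle⟩

scoped instance haarAH : Measure.IsAddHaarMeasure (volume : Measure UnitAddCircle) :=
  inferInstanceAs (Measure.IsAddHaarMeasure AddCircle.haarAddCircle)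

scoped instance haarPM : IsProbabilityMeasure (volume : Measure UnitAddCircle) :=
  inferInstanceAs (IsProbabilityMeasure AddCircle.haarAddCircle)

/-! ### definitions -/

/-- `E + i η` -/
def zc (E η : ℝ) : ℂ := (E : ℂ) + η * Complex.I

/-- `-log |G_Λ(x, y; z)|` at a complex energy -/
def DZ {d : ℕ} (Λ : Finset (Site d)) (z : ℂ) (V : Site d → ℝ) (x y : Site d) : ℝ :=
  -Real.log ‖gz V Λ z x y‖

/-- `max_{u ∈ S} |G(u, y; z)|` -/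
def gmz {d : ℕ} (V : Site d → ℝ) (Λ : Finset (Site d)) (z : ℂ) (S : Finset (Site d))
    (y : Site d) : ℝ :=
  ((S.sup fun u => ‖gz V Λ z u y‖₊ : NNReal) : ℝ)

/-- `-log max_{u ∈ S} |G(u, y; z)|` -/
def FZ {d : ℕ} (V : Site d → ℝ) (Λ : Finset (Site d)) (z : ℂ) (S : Finset (Site d))
    (y : Site d) : ℝ :=
  -Real.log (gmz V Λ z S y)

/-- the real energy seen from `E₀ + i η` under the angle `θ` -/
def cE (E₀ η θ : ℝ) : ℝ := E₀ - η * (Real.cos (θ / 2) / Real.sin (θ / 2))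

/-- the cost of a link from every point of `S` to some point of `S'` -/
def LC {d : ℕ} (V : Site d → ℝ) (Λ : Finset (Site d)) (z : ℂ) (S S' : Finset (Site d)) : ℝ≥0∞ :=
  S.sup fun x => S'.inf fun y => ENNReal.ofReal (DZ Λ z V x y)

/-- the base points of the chain -/
def pt {d : ℕ} (i : Fin d) (k : ℕ) : Site d := Pi.single i (k : ℤ)

/-! ### A. averaging over the energy -/

/-- JEN: Jensen's formula. Proof: let `z₀ = E₀ + i η` and `u ∈ S` with `|gz u y|` maximal at `z₀`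
(not zero). `gz V Λ z u y = p(z) / q(z)`, `q(z) = det (z - H_Λ)` with real zeros `λ_j`, `p` a cofactor
(a polynomial, not zero), and at real `E`, `q(E) ≠ 0`, `gr V Λ E u y = p(E) / q(E)`. For every
`ζ : ℂ`, `(1/2π) ∫ log |cE E₀ η θ - ζ| dθ = max (log |z₀ - ζ|) (log |conj z₀ - ζ|) ≥ log |z₀ - ζ|`,
with equality for real `ζ`: `cE E₀ η θ = (z₀ - conj z₀ w) / (1 - w)`, `w = e^{i θ}`, and
`circleAverage` of `log |a - b w|` is `max (log |a|) (log |b|)`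
(`circleAverage_log_norm_sub_const_eq_posLog`). With `p = a ∏ (z - ζ_k)` this gives
`(1/2π) ∫ log |gr (cE θ) u y| dθ ≥ log |gz z₀ u y|`. So `∫ FD ≤ 2π FZ`, and the positive part of
`FD` is `FD` plus the positive part of `- FD`. (Another way: `MeromorphicOn.circleAverage_log_norm`.)
-/
def JenStmt : Prop :=
  ∀ (d : ℕ) (V : Site d → ℝ) (Λ S : Finset (Site d)) (y : Site d) (E₀ η : ℝ), 0 < η →
    gmz V Λ (zc E₀ η) S y ≠ 0 →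
      ∫⁻ θ in Set.Ioo 0 (2 * Real.pi), ENNReal.ofReal (FD V Λ (cE E₀ η θ) S y) ≤
        ENNReal.ofReal (2 * Real.pi * FZ V Λ (zc E₀ η) S y) +
          ∫⁻ θ in Set.Ioo 0 (2 * Real.pi), ENNReal.ofReal (-FD V Λ (cE E₀ η θ) S y)

/-- MSJ: joint measurability. Proof: `gr` is an entry of the inverse of a matrix with entries which
are continuous in `(V, E)`: `(det)⁻¹ * adjugate`. -/
def MsjStmt : Prop :=
  ∀ (d : ℕ) (Λ S : Finset (Site d)) (y : Site d),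
    Measurable fun p : (Site d → ℝ) × ℝ => FD p.1 Λ p.2 S y

/-- LYR: at a real energy the mean of `FD` is at least `(γ - ε) M`. Proof: `ε' = ε / 4`. On the event
`SG V M (g - ε') E 0` (`LyaAt`: probability `→ 1`) `|gr V (box 0 M) E 0 v| ≤ e^{-(g - ε') M}` for
`sd 0 v = M`. The geometric resolvent identity: for `u ∈ S` (outside `box 0 (M + 1)` or on its
boundary) `gr_N(0, u) = ∑ gr_M(0, v) gr_N(v', u)` over `v ∈ box 0 M`, `v' ∉ box 0 M`, `v ~ v'`, so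
`sd 0 v = M`. Outside an event of probability at most `(2 M + 3)^d s₀ (10 / |σ|) e^{-ε' M}` all
`|gr_N(v', u)| ≤ e^{ε' M}` (Wegner for one matrix element). So `gmax ≤ 2 d (2 M + 1)^d
e^{-(g - 2 ε') M} ≤ e^{-(g - 3 ε') M}` with probability `→ 1`, uniformly in `N` and `S`, and
`gmax ≠ 0` almost surely (`UfmStmt`, second part). (If `g ≤ ε` there is nothing to prove.) -/
def LyrStmt : Prop :=
  ∀ (d s₀ : ℕ) (σ E g ε : ℝ), 1 ≤ d → σ ≠ 0 → LyaAt d σ E g → 0 < ε → ∃ M₀ : ℕ,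
    ∀ (M N : ℕ) (S : Finset (Site d)), M₀ ≤ M → M + 2 ≤ N → S ⊆ box 0 N → S.Nonempty →
    S.card ≤ s₀ → (∀ u ∈ S, M + 1 ≤ sd 0 u) →
      ENNReal.ofReal ((g - ε) * M) ≤
        ∫⁻ V, ENNReal.ofReal (FD V (box 0 N) E S 0) ∂(PP d (gl σ))

/-- LPR: the other sign. Proof: `P(|gr x y| > τ) ≤ 10 / (|σ| τ)` (`UpzStmt`, limit to real energies
as in `Helper54_LEW/VTR.lean`, or any Wegner bound for one matrix element with this constant), so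
`P(log gmax > t) ≤ S.card (10 / |σ|) e^{-t}`, and `∫ min 1 (A e^{-t}) dt ≤ 1 + log (1 + A)`. -/
def LprStmt : Prop :=
  ∀ (d : ℕ) (σ E : ℝ) (N : ℕ) (S : Finset (Site d)) (y : Site d), σ ≠ 0 →
    ∫⁻ V, ENNReal.ofReal (-FD V (box 0 N) E S y) ∂(PP d (gl σ)) ≤
      ENNReal.ofReal (1 + Real.log (1 + 10 / |σ| * S.card))

/-- NZZ: no zeros at complex energies. Proof: for neighbours `∫ |gz|^(-1/4) < ∞` (`LY.low_marg`);
along a path, `P(τ |gz x y| < |gz x u| |gz u y|) ≤ 8 / (|σ| τ)` (`LY.one_marg`), `τ → ∞`. -/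
def NzzStmt : Prop :=
  ∀ (d N : ℕ) (σ : ℝ) (z : ℂ) (x y : Site d), 1 ≤ d → σ ≠ 0 → 0 < z.im →
    x ∈ box (0 : Site d) N → y ∈ box (0 : Site d) N →
      PP d (gl σ) {V | gz V (box 0 N) z x y = 0} = 0

/-- AVG: the harmonic mean of the Lyapunov exponent. Proof: for each `k` take `M ≥ k`, `S`, `N` as in
the hypothesis and `f_k(θ) = (1/M) ∫⁻ V, ofReal (FD V (box 0 N) (cE E₀ η θ) S 0)`. By `LyrStmt`
`liminf f_k(θ) ≥ ofReal (γ (cE E₀ η θ))`. By Tonelli (`MsjStmt`), `JenStmt` (for almost every `V`,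
`NzzStmt`) and `LprStmt`, `∫⁻ θ, f_k ≤ 2π c + (2π / M) (1 + log (1 + 10 / |σ| s₀))`. Fatou. (The
measurability of `γ` is not needed.) -/
def AvgStmt : Prop :=
  ∀ (d s₀ : ℕ) (σ E₀ η c : ℝ) (γ : ℝ → ℝ), 1 ≤ d → σ ≠ 0 → 0 < η → 0 ≤ c →
    (∀ E, LyaAt d σ E (γ E)) →
    (∀ M₀ : ℕ, ∃ (M N : ℕ) (S : Finset (Site d)), M₀ ≤ M ∧ M + 2 ≤ N ∧ S ⊆ box 0 N ∧
      S.Nonempty ∧ S.card ≤ s₀ ∧ (∀ u ∈ S, M + 1 ≤ sd 0 u) ∧
      ∫⁻ V, ENNReal.ofReal (FZ V (box 0 N) (zc E₀ η) S 0) ∂(PP d (gl σ)) ≤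
        ENNReal.ofReal (c * M)) →
      ∫⁻ θ in Set.Ioo 0 (2 * Real.pi), ENNReal.ofReal (γ (cE E₀ η θ)) ≤
        ENNReal.ofReal (2 * Real.pi * c)

/-- WIN: from the harmonic mean to an interval. Proof: `dE = η / (2 sin² (θ/2)) dθ
= (η² + (E - E₀)²) / (2 η) dθ` for `E = cE E₀ η θ`, an increasing bijection of `(0, 2π)` onto `ℝ`
(`lintegral_image_eq_lintegral_abs_deriv_mul`, no measurability of `γ` needed). -/
def WinStmt : Prop :=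
  ∀ (γ : ℝ → ℝ) (E₀ η D : ℝ), 0 < η → 0 ≤ D →
    ∫⁻ E in Set.Icc (E₀ - D) (E₀ + D), ENNReal.ofReal (γ E) ≤
      ENNReal.ofReal ((η ^ 2 + D ^ 2) / (2 * η)) *
        ∫⁻ θ in Set.Ioo 0 (2 * Real.pi), ENNReal.ofReal (γ (cE E₀ η θ))

/-! ### B. the chain at a complex energy -/

/-- VTZ: the one site inequality for the maximum over `S`, at a complex energy. Proof:
`Pool.Agent.LE.H54W.ev_marg` (with `KB_eq_gz`; if `u ∉ Λ` or `y ∉ Λ` the event is empty). -/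
def VtzStmt : Prop :=
  ∀ (d : ℕ) (σ τ : ℝ) (z : ℂ) (Λ S : Finset (Site d)) (u y : Site d), σ ≠ 0 → 0 < τ → 0 < z.im →
    PP d (gl σ) {V | τ * gmz V Λ z S y < gmz V Λ z S u * ‖gz V Λ z u y‖} ≤
      ENNReal.ofReal (8 / |σ| / τ)

/-- UPZ: the tail of one matrix element at a complex energy. Proof: `LY.one_marg` with `(x, y, x)`
and the diagonal case `P(|gz x x| > τ) ≤ 2 / (|σ| τ)`, as `Pool.Agent.LE.H54.upI`. -/
def UpzStmt : Prop :=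
  ∀ (d : ℕ) (σ τ : ℝ) (z : ℂ) (Λ : Finset (Site d)) (x y : Site d), σ ≠ 0 → 0 < τ → 0 < z.im →
    PP d (gl σ) {V | τ < ‖gz V Λ z x y‖} ≤ ENNReal.ofReal (10 / |σ| / τ)

/-- CSZ: the moments of the positive part of `DZ`. Proof: as `Pool.Agent.LE.CstStmt` /
`Pool.Agent.LE.H28W.cstB`, at the complex energy (`LY.low_marg`, `LY.one_marg`, `KB_eq_gz`; the
limit to real energies is not needed). -/
def CszStmt : Prop :=
  ∀ d : ℕ, 1 ≤ d → ∃ A : ℝ, 1 ≤ A ∧ ∀ q : ℕ, 1 ≤ q → ∃ C : ℝ, 0 < C ∧ ∀ (σ : ℝ) (z : ℂ) (N : ℕ)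
    (x y : Site d), σ ≠ 0 → |σ| ≤ 1 → |z.re| ≤ 2 * d + 2 → 0 < z.im → z.im ≤ 1 →
    x ∈ box (0 : Site d) N → y ∈ box (0 : Site d) N →
      ∫⁻ V, (ENNReal.ofReal (DZ (box 0 N) z V x y)) ^ q ∂(PP d (gl σ)) ≤
        ENNReal.ofReal (C * |σ| ^ (-A) * ((sd x y : ℝ) + 1) ^ q)

/-- CHN: the chain. Proof: `S_k = box (pt i (k L)) R`, `S = S_K`, `F_k = S_k.sup (ofReal (FZ S ·))`,
`T_k` the maximum over `x ∈ S_k`, `y ∈ S_{k+1}` of the positive part of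
`log (gmz S y |gz y x| / gmz S x)`. Almost surely all these numbers are not zero (`NzzStmt`), and
`FZ S x ≤ FZ S y + DZ x y + T_k`, so `F_k ≤ F_{k+1} + LC S_k S_{k+1} + T_k`. `P(T_k > t) ≤
(2 R + 1)^{2 d} (8 / |σ|) e^{-t}` (`VtzStmt` with `u = y`, `y = x`), so `E T_k ≤ 1 + log (1 + 8
(2 R + 1)^{2 d} / |σ|)`. Finally `FZ S x ≤ DZ x x` for `x ∈ S_K`, and `0 ∈ S_0`. -/
def ChnStmt : Prop :=
  ∀ (d K L R N : ℕ) (i : Fin d) (σ : ℝ) (z : ℂ) (A₁ A₂ : ℝ), σ ≠ 0 → |σ| ≤ 1 → 0 < z.im →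
    0 ≤ A₁ → 0 ≤ A₂ → (∀ k ≤ K, box (pt i (k * L)) R ⊆ box 0 N) →
    (∀ k < K, ∫⁻ V, LC V (box 0 N) z (box (pt i (k * L)) R) (box (pt i ((k + 1) * L)) R)
      ∂(PP d (gl σ)) ≤ ENNReal.ofReal A₁) →
    ∫⁻ V, (box (pt i (K * L)) R).sup (fun x => ENNReal.ofReal (DZ (box 0 N) z V x x))
      ∂(PP d (gl σ)) ≤ ENNReal.ofReal A₂ →
      ∫⁻ V, ENNReal.ofReal (FZ V (box 0 N) z (box (pt i (K * L)) R) 0) ∂(PP d (gl σ)) ≤
        ENNReal.ofReal (K * (A₁ + 1 + Real.log (1 + 8 * (2 * R + 1 : ℝ) ^ (2 * d) / |σ|)) + A₂)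

/-- LNK: from the probability of a link to its mean cost. Proof: `LC ≤ t` off the bad event and
`LC ≤ Y = ∑_{x ∈ box a R} ofReal (DZ x (x + L e_i))` always. `∫ LC ≤ t + (∫ Y²)^{1/2} q^{1/2}`,
`∫ Y² ≤ (2 R + 1)^{2 d} C |σ|^{-A} (L + 1)²` (`CszStmt`, `q = 2`, Cauchy-Schwarz). The second part:
`CszStmt` with `q = 1`, sum over the cube. -/
def LnkStmt : Prop :=
  ∀ d : ℕ, 1 ≤ d → ∃ A C : ℝ, 1 ≤ A ∧ 1 ≤ C ∧ ∀ (σ : ℝ) (z : ℂ) (N R L : ℕ) (a : Site d)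
    (i : Fin d), σ ≠ 0 → |σ| ≤ 1 → |z.re| ≤ 2 * d + 2 → 0 < z.im → z.im ≤ 1 →
    box a R ⊆ box 0 N →
    (∀ t q : ℝ, 0 ≤ t → 0 ≤ q → box (a + pt i L) R ⊆ box 0 N →
      C * |σ| ^ (-A) * (2 * R + 1 : ℝ) ^ (2 * d) * ((L : ℝ) + 1) ^ 2 * q ≤ 1 →
      PP d (gl σ) {V | ¬ LC V (box 0 N) z (box a R) (box (a + pt i L) R) ≤ ENNReal.ofReal t} ≤
        ENNReal.ofReal q →
        ∫⁻ V, LC V (box 0 N) z (box a R) (box (a + pt i L) R) ∂(PP d (gl σ)) ≤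
          ENNReal.ofReal (t + 1)) ∧
    ∫⁻ V, (box a R).sup (fun x => ENNReal.ofReal (DZ (box 0 N) z V x x)) ∂(PP d (gl σ)) ≤
      ENNReal.ofReal (C * |σ| ^ (-A) * (2 * R + 1 : ℝ) ^ d)

/-! ### C. the free Green function -/

/-- the kernel of `(Δ - z)⁻¹` -/
def fk {d : ℕ} (z : ℂ) (v : Site d) : ℂ :=
  ∫ θ : UnitAddTorus (Fin d), ch v θ * ((sy θ : ℂ) - z)⁻¹

/-- CTG: the Combes-Thomas bound in `ℓ²`, at a complex energy. Proof: `f(v) = e^{κ ρ(v)} u(v)`,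
`ρ(v) = min (sd x v) n`. Multiply the equation at `v ∈ Λ` by `e^{κ ρ(v)} conj (f v)`, sum over `Λ`
and take the imaginary part: `η |f|² ≤ |f(x)| + ∑_{v ~ v'} |e^{κ (ρ(v) - ρ(v'))} - 1| |f(v)| |f(v')|
≤ |f| + 2 d (e^κ - 1) |f|²` (the hopping and the potential are symmetric, resp. real), so
`(η / 2) |f| ≤ 1`; `n → ∞`. The sums converge: `u ∈ ℓ²` and `V` is bounded on `Λ`. -/
def CtgStmt : Prop :=
  ∀ (d : ℕ) (V : Site d → ℝ) (Λ : Set (Site d)) (E η κ B : ℝ) (u : Site d → ℂ) (x : Site d),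
    0 < η → 0 ≤ κ → 4 * d * (Real.exp κ - 1) ≤ η → (∀ v ∈ Λ, |V v| ≤ B) →
    (Summable fun v => ‖u v‖ ^ 2) → (∀ v, v ∉ Λ → u v = 0) →
    (∀ v ∈ Λ, ‖lap u v + (V v : ℂ) * u v - zc E η * u v‖ = if v = x then 1 else 0) →
      ∀ T : Finset (Site d),
        ∑ v ∈ T, Real.exp (2 * κ * sd x v) * ‖u v‖ ^ 2 ≤ 4 / η ^ 2

/-- FRP: Parseval for the free kernel. `f(θ) = (sy θ - z)⁻¹` is continuous and `fk z v` are its
Fourier coefficients (`ch v` = `UnitAddTorus.mFourier v`; Parseval: `hasSum_sq_mFourierCoeff`, or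
`mFourierBasis`). Translation: `∫ ch v θ f(θ + α) = ch v (-α) fk z v`, and
`|ch v (-α) - 1| = |ch v α - 1|`. -/
def FrpStmt : Prop :=
  ∀ (d : ℕ) (E η : ℝ), 0 < η →
    (Summable fun v : Site d => ‖fk (zc E η) v‖ ^ 2) ∧
    (∑' v : Site d, ‖fk (zc E η) v‖ ^ 2 =
      ∫ θ : UnitAddTorus (Fin d), ‖((sy θ : ℂ) - zc E η)⁻¹‖ ^ 2) ∧
    ∀ α : UnitAddTorus (Fin d),
      (Summable fun v : Site d => ‖ch v α - 1‖ ^ 2 * ‖fk (zc E η) v‖ ^ 2) ∧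
      ∑' v : Site d, ‖ch v α - 1‖ ^ 2 * ‖fk (zc E η) v‖ ^ 2 =
        ∫ θ : UnitAddTorus (Fin d),
          ‖((sy (θ + α) : ℂ) - zc E η)⁻¹ - ((sy θ : ℂ) - zc E η)⁻¹‖ ^ 2

/-- FRQ: the equation, and the reflections. Proof: `ch (v + e) = ch v ch e`, so `Δ` is the
multiplication by `sy`, and `∫ ch v = 1` if `v = 0`, `0` otherwise (`integral_ch`). `sy` and the Haar
measure are invariant under `θ_j → - θ_j`. -/
def FrqStmt : Prop :=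
  ∀ (d : ℕ) (E η : ℝ), 0 < η →
    (∀ v : Site d, lap (fk (zc E η)) v - zc E η * fk (zc E η) v = if v = 0 then 1 else 0) ∧
    ∀ (T : Finset (Fin d)) (v : Site d),
      fk (zc E η) (fun j => if j ∈ T then -v j else v j) = fk (zc E η) v

/-- MEA: the measure of the energy shell. Proof: `2 cos 2πφ = E / d`, `0 < φ < 1/2`. For
`|θ_j - φ| ≤ r = δ / (8 π d²)`, `j ≠ i`, the number `b = E - ∑_{j ≠ i} c2 (θ_j)` has
`|b| ≤ 2 - δ / (2 d)`; for such `b` the set of `t` with `|c2 t - b| ≤ η`, `|sn t| ≥ s₀` contains an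
interval of length `≥ c η` about `t₀`, `c2 t₀ = b` (`|sn t₀| = √(1 - b²/4)`, `|c2'| ≤ 4 π`). Fubini:
at least `(2 r)^{d - 1} c η`. -/
def MeaStmt : Prop :=
  ∀ (d : ℕ) (δ : ℝ), 1 ≤ d → 0 < δ → ∃ c s₀ : ℝ, 0 < c ∧ 0 < s₀ ∧ s₀ ≤ 1 ∧
    ∀ (E η : ℝ) (i : Fin d), |E| ≤ 2 * d - δ → 0 < η → η ≤ 1 →
      ENNReal.ofReal (c * η) ≤
        volume {θ : UnitAddTorus (Fin d) | |sy θ - E| ≤ η ∧ s₀ ≤ |sn (θ i)|}

/-- TLB: the translation by `η` moves `f(θ) = (sy θ - z)⁻¹` in `L²`. Proof: on the set of `MeaStmt`,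
`a = sy θ`, `b = sy (θ + η e_i)`, `b - a = c2 (θ_i + η) - c2 (θ_i) = - 4 sin (πη) sin (2πθ_i + πη)`:
`|b - a| ≤ 4 π η` and `|b - a| ≥ 4 s₀ η` for small `η`; `|a - z| ≤ 2 η`, `|b - z| ≤ (4 π + 2) η`. So
the integrand `|b - a|² / (|a - z|² |b - z|²)` is at least `c / η²`, on a set of measure `≥ c η`. -/
def TlbStmt : Prop :=
  ∀ (d : ℕ) (δ : ℝ), 1 ≤ d → 0 < δ → ∃ c : ℝ, 0 < c ∧
    ∀ (E η : ℝ) (i : Fin d), |E| ≤ 2 * d - δ → 0 < η → η ≤ c →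
      c / η ≤ ∫ θ : UnitAddTorus (Fin d),
        ‖((sy (θ + Pi.single i (η : UnitAddCircle)) : ℂ) - zc E η)⁻¹ -
          ((sy θ : ℂ) - zc E η)⁻¹‖ ^ 2

/-- FRM: the free kernel has mass `≥ c / η` in each orthant, at the distance `≥ L = c / η`. Proof:
`FrpStmt` with `α = η e_i`: `∑ |ch v α - 1|² |fk v|² ≥ c / η` (`TlbStmt`). `|ch v α - 1| ≤ 2 π η
|v i|`, at most `2 π c₀` for `|v i| < L`, and `∑ |fk v|² = ∫ |sy - z|⁻² ≤ C / η`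
(`integral_ker_le`, `d ≥ 3`), so for small `c₀` the sum over `|v i| ≥ L` of `|fk v|²` is at least
`c' / η`. By `CtgStmt` (`V = 0`, `Λ = univ`, `κ = η / (8 d)`) the part outside `box 0 R` is at most
`4 η⁻² e^{-2 κ R} ≤ c' / (2 η)`. By the reflections all orthants have the same mass, and their union
is everything. -/
def FrmStmt : Prop :=
  ∀ (d : ℕ) (δ : ℝ), 3 ≤ d → 0 < δ → ∃ c₀ C₁ : ℝ, 0 < c₀ ∧ c₀ ≤ 1 ∧ 1 ≤ C₁ ∧
    ∀ (E η : ℝ) (i : Fin d) (T : Finset (Fin d)) (L R : ℕ), |E| ≤ 2 * d - δ → 0 < η → η ≤ c₀ →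
    L ≤ c₀ / η → C₁ * (1 + Real.log (1 / η)) / η ≤ R →
      c₀ / η ≤ ∑ v ∈ (box (0 : Site d) R).filter fun v =>
        (L : ℤ) ≤ |v i| ∧ ∀ j, (j ∈ T → v j ≤ 0) ∧ (j ∉ T → 0 ≤ v j), ‖fk (zc E η) v‖ ^ 2

/-! ### D. perturbation theory -/

/-- DUA: from the operator bound to the form bound. Proof: the part `the matrix part` of the proof
of `Pool.Agent.Anderson.det_N2`: `a = C b`, `b = D w`, `nsq a = ⟨w, D C a⟩ ≤ |w|_* |D C a|_{dual}`,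
`|D C a|²_{dual} = nsq (XM C D a) ≤ θ² nsq a`, so `nsq a ≤ θ² |w|_*²`. -/
def DuaStmt : Prop :=
  ∀ (d : ℕ) (Λ : Finset (Site d)) (w : Λ → ℂ) (D : Site d → ℝ) (E η τ : ℝ) (C : Matrix Λ Λ ℂ),
    0 < η → 0 ≤ τ → C.IsHermitian → C * C = Kmat Λ E η →
    (∀ v : Λ → ℂ, nsq (Matrix.mulVec (XM C (fun y => D y)) v) ≤ τ ^ 2 * nsq v) →
      ∫ θ, (md E η θ)⁻¹ * ‖hatV (fun y : Λ => (D y : ℂ) * w y) θ‖ ^ 2 ≤
        τ ^ 2 * ∫ θ, md E η θ * ‖hatV w θ‖ ^ 2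

/-- PRT: comparison with the free kernel. Proof: `B = box x R`, `u(v) = gz V Λ z v x`,
`u⁰(v) = - fk z (v - x)`: `(Δ + V - z) u = - δ_x` on `Λ`, `(Δ - z) u⁰ = - δ_x`. `w = 1_B (u - u⁰)`,
`(Δ - z) w = - V w - V 1_B u⁰ + e`, `e` on the two layers at `∂B`, `(Δ - z)(1_B u⁰) = - δ_x + e⁰`.
With `|g|_*² = ∫ md |ĝ|²` and `|g|_dual² = ∫ md⁻¹ |ĝ|² ≤ η⁻¹ |g|²`, `|(Δ - z) g|_dual = |g|_*`,
`|δ_x|_dual² = kap`: `|w|_* ≤ τ |w|_* + τ |1_B u⁰|_* + |e|_dual` (`DuaStmt`),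
`|1_B u⁰|_* ≤ √kap + |e⁰|_dual`, so `|w|_* ≤ 2 τ √kap + 2 |e⁰|_dual + 2 |e|_dual`. By `CtgStmt`
(`κ = η / (8 d)`, for `u` with the finite set `Λ`, and for `u⁰`) `|e|² + |e⁰|² ≤ C e^{-2 κ R} / η²`.
Finally `∑_B |w|² = ∫ |ŵ|² ≤ η⁻¹ |w|_*²`. -/
def PrtStmt : Prop :=
  ∀ d : ℕ, 1 ≤ d → ∃ C₂ : ℝ, 1 ≤ C₂ ∧ ∀ (V : Site d → ℝ) (N R : ℕ) (x : Site d) (E η τ : ℝ)
    (hη : 0 < η), η ≤ 1 → 0 ≤ τ → τ ≤ 1 / 2 → box x (R + 1) ⊆ box 0 N →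
    (∀ v : (box x R) → ℂ, nsq (Matrix.mulVec (XM (Csq (box x R) E η hη) (fun y => V y)) v) ≤
      τ ^ 2 * nsq v) →
      ∑ v ∈ box x R, ‖gz V (box 0 N) (zc E η) v x + fk (zc E η) (v - x)‖ ^ 2 ≤
        η⁻¹ * (C₂ * τ ^ 2 * kap d E η + C₂ * Real.exp (-(η * R / (4 * d))) / η ^ 3)

/-- DLK: the deterministic link. Proof: `o = x - a`. Take `T` = the set of the `j` with `0 < o_j`. By
`FrmStmt` the kernel `fk z v` has mass `≥ c / η` on the `v ∈ box 0 R₂` with `|v i| ≥ L`, `v_j ≤ 0`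
for `j ∈ T`, `v_j ≥ 0` for `j ∉ T`. For these `v`, `y = x + v ∈ box (a + pt i L) R`: if `o_i ≤ 0`
then `o_i + v_i - L ∈ [- R, R₂ - L]`, if `o_i > 0` then `v_i ≤ - L` and `o_i + v_i - L ∈
[- R₂ - L, R - 2 L]`; for `j ≠ i` `o_j` and `v_j` have opposite signs, and `R₂ + L ≤ R`. By `PrtStmt`
and `|a|² ≥ |b|²/2 - |a + b|²` the sum of `|gz v x|²` over these `y` is at least `c / (4 η)`; there
are at most `(2 R₂ + 1)^d` of them; `gz x y = gz y x`. -/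
def DlkStmt : Prop :=
  ∀ (d : ℕ) (δ : ℝ), 3 ≤ d → 0 < δ → ∃ c₀ C₁ : ℝ, 0 < c₀ ∧ c₀ ≤ 1 / 2 ∧ 1 ≤ C₁ ∧
    ∀ (V : Site d → ℝ) (N L R R₂ : ℕ) (a : Site d) (i : Fin d) (E η τ : ℝ) (hη : 0 < η),
    |E| ≤ 2 * d - δ → η ≤ c₀ → L ≤ c₀ / η → C₁ * (1 + Real.log (1 / η)) / η ≤ R₂ →
    R₂ + L ≤ R → 0 ≤ τ → τ ≤ c₀ → τ ^ 2 * (1 + Real.log (1 / η)) ≤ c₀ →
    box a (R + R₂ + 1) ⊆ box 0 N →
    (∀ x ∈ box a R, ∀ v : (box x R₂) → ℂ,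
      nsq (Matrix.mulVec (XM (Csq (box x R₂) E η hη) (fun y => V y)) v) ≤ τ ^ 2 * nsq v) →
      ∀ x ∈ box a R, ∃ y ∈ box (a + pt i L) R,
        c₀ / (η * (2 * R₂ + 1 : ℝ) ^ d) ≤ ‖gz V (box 0 N) (zc E η) x y‖ ^ 2

/-- PRB: the probability of the operator bound. Proof: `XM C V` is linear in `V`; apply
`Pool.Agent.Anderson.prob_bad` on the space `(Site d → ℝ, PP d (gl σ))`, `ξ y V = V y / σ`, with the
coupling `σ / (2 τ)`, `s = |σ| r / (2 τ)`, `r² = 2 k l`, `l = 1 + log (1 / |σ|)`, `p = ⌈k l⌉`: the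
truncation `zt` equals `V / (2 τ)` unless `|V y| > |σ| r` for some `y` (probability at most
`(2 R + 1)^d 2 e^{- k l}`), `κ = kap ≤ (1 + 1024 π) (1 + log (1 / η))` (`kap_le`), `L = η⁻¹`
(`Kmat_le`), `(8 p s² κ / η)^p ≤ e^{-p}` by the hypothesis, `k = A d + A + 4`. -/
def PrbStmt : Prop :=
  ∀ (d : ℕ) (A : ℝ), 3 ≤ d → 1 ≤ A → ∃ C : ℝ, 1 ≤ C ∧
    ∀ (σ E η τ : ℝ) (R : ℕ) (x : Site d) (hη : 0 < η), σ ≠ 0 → |σ| ≤ 1 / 2 → η ≤ 1 → 0 < τ →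
    τ ≤ 1 → C * σ ^ 2 * (1 + Real.log (1 / |σ|)) ^ 2 * (1 + Real.log (1 / η)) ≤ τ ^ 2 * η →
    (2 * R + 1 : ℝ) ≤ |σ| ^ (-A) →
      PP d (gl σ) {V | ¬ ∀ v : (box x R) → ℂ,
        nsq (Matrix.mulVec (XM (Csq (box x R) E η hη) (fun y => V y)) v) ≤ τ ^ 2 * nsq v} ≤
          ENNReal.ofReal (|σ| ^ A)

/-- FNE: the harmonic mean in the bulk. Proof: `l = log (1 / |σ|)`, `η = K₁ σ² l⁴`, `τ² = c' / l`,
`R₂ = ⌈C₁ (1 + log (1 / η)) / η⌉`, `L = ⌊c₀ / η⌋`, `R = R₂ + L`; `1 + log (1 / η) ≤ 3 l`, and `R`, `L`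
are at most `|σ|^{-3}`. `PrbStmt` (`A` large; the hypothesis is `12 C σ² l³ ≤ c' K₁ σ² l³`) and
`DlkStmt`, union over `x ∈ box a R`: `LC ≤ t = C l` outside an event of probability at most
`(2 R + 1)^d |σ|^A`. `LnkStmt`: `∫ LC ≤ t + 1`. `ChnStmt` with `N = K L + R + R₂ + 2`: the mean of
`FZ` is at most `K X + A₂`, `X = C' l`, and this is `≤ c M` with `M = K L - R - 1`, `c = 2 X / L`,
for large `K`; `S = box (pt i (K L)) R` has `(2 R + 1)^d` points. `AvgStmt`. -/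
def FneStmt : Prop :=
  ∀ (d : ℕ) (δ : ℝ), 3 ≤ d → 0 < δ → ∃ c C K₁ : ℝ, 0 < c ∧ c ≤ 1 / 4 ∧ 1 ≤ C ∧ 1 ≤ K₁ ∧
    ∀ (σ E₀ : ℝ) (γ : ℝ → ℝ), σ ≠ 0 → |σ| ≤ c → (∀ E, LyaAt d σ E (γ E)) → |E₀| ≤ 2 * d - δ →
      ∫⁻ θ in Set.Ioo 0 (2 * Real.pi),
          ENNReal.ofReal (γ (cE E₀ (K₁ * σ ^ 2 * Real.log (1 / |σ|) ^ 4) θ)) ≤
        ENNReal.ofReal (C * σ ^ 2 * Real.log (1 / |σ|) ^ 5)

/-- FNM: the mean over an interval. Proof: `WinStmt` with `D = η = K₁ σ² l⁴`: `∫_{|E - E₀| ≤ η} γ ≤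
η C σ² l⁵`. Cover `[a, b]` by at most `(b - a) / (2 η) + 1` intervals of length `2 η` with centres in
`[a, b]`, and `η ≤ K₁ (b - a)`. -/
def FnmStmt : Prop :=
  ∀ (d : ℕ) (δ : ℝ), 3 ≤ d → 0 < δ → ∃ c C : ℝ, 0 < c ∧ c ≤ 1 / 4 ∧ 1 ≤ C ∧
    ∀ (σ a b : ℝ) (γ : ℝ → ℝ), σ ≠ 0 → |σ| ≤ c → (∀ E, LyaAt d σ E (γ E)) →
    -(2 * d - δ) ≤ a → b ≤ 2 * d - δ → σ ^ 2 * Real.log (1 / |σ|) ^ 4 ≤ b - a →
      ∫⁻ E in Set.Icc a b, ENNReal.ofReal (γ E) ≤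
        ENNReal.ofReal (C * σ ^ 2 * Real.log (1 / |σ|) ^ 5 * (b - a))

/-! ### E. near the band edge -/

/-- PSZ: the Green function at a complex energy above the spectrum. Proof: `H` = the matrix of
`Δ + V` on `B`, `s = 2 d + 2`, `H + s` has entries `h ≥ 0` (`V ≥ -1`) and, as forms,
`0 ≤ H + s ≤ E - δ + s`; `r = 1 / (E + s)`, `r' = 1 / (E + i η + s)`, `|r'| ≤ r`, `|1 - r'/r| ≤ η r`.
`(w - H)⁻¹ = ∑_{j < m} (H + s)^j / (w + s)^{j+1} + ((H + s) / (w + s))^m (w - H)⁻¹` for `w = E` and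
`w = E + i η`; the entries of the last matrix are at most `(1 - δ r)^m / δ ≤ e^{- m δ r} / δ`
(spectral theorem). The entries of `(H + s)^j` are `≥ 0` and `|r^{j+1} - r'^{j+1}| ≤ m η r r^{j+1}`.
For the second part, `|∑ h_j r'^{j+1}| ≤ ∑ h_j r^{j+1}` and `m → ∞`. -/
def PszStmt : Prop :=
  ∀ (d : ℕ) (V : Site d → ℝ) (B : Finset (Site d)) (E δ η : ℝ) (x y : Site d), 1 ≤ d →
    0 < δ → 0 < η → 0 ≤ E → (∀ v ∈ B, -1 ≤ V v) →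
    (∀ u : Site d → ℝ, δ * ∑ v ∈ B, u v ^ 2 ≤ qform V B E u) →
      ‖gz V B (zc E η) x y‖ ≤ gr V B E x y ∧
      ∀ m : ℕ, m * η ≤ E + 2 * d + 2 →
        (1 - m * η / (E + 2 * d + 2)) * gr V B E x y -
          2 / δ * Real.exp (-(m * δ / (E + 2 * d + 2))) ≤ ‖gz V B (zc E η) x y‖

/-- CDZ: conduction at a complex energy above the edge. Proof: as `CdpStmt`
(`Pool.Agent.LE.H42Z.cdp`), with `ε = 1 / 50`. On the event `FlatE` around `b`, `B = box b (n + R)`,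
`E = z + lam`: `gr V B E b (b + n e_i) ≥ g₀ = exp (-(C₁ √lam n + C₂ (1 + log (1 / lam))))`
(`CdeStmt`) and `E - H_B ≥ lam`. `PszStmt` with `m = ⌈(4 d + 4) / lam (log (8 / (lam g₀)))⌉` and
`m η ≤ (E + 2 d + 2) / 2`: `|gz V B (zc E η) b (b + n e_i)| ≥ g₀ / 4`. The comparison of `B` and
`box 0 N`: the resolvent identity, `|gz V B (zc E η) b u| ≤ gr V B E b u ≤ (2 / lam)
e^{- √lam (n + R) / 2}` for `sd b u = n + R` (`PszStmt`, `CtsStmt`) and `UpzStmt`. -/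
def CdzStmt : Prop :=
  ∀ d : ℕ, 1 ≤ d → ∃ C₂ : ℝ, 1 ≤ C₂ ∧
    ∀ (M' n R N : ℕ) (v : ℝ≥0) (σ z μ lam η p : ℝ) (b : Site d) (i : Fin d), σ ≠ 0 → |σ| ≤ 1 →
    (v : ℝ) = σ ^ 2 → 0 ≤ z → z ≤ 2 * d + 1 → 0 < lam → lam ≤ 1 / 2 → 0 < μ → 50 ≤ lam * μ →
    0 < η → (∀ h : NeZero M', gau d M' v {V | ¬ FlatE (1 / 50) z μ V} ≤ ENNReal.ofReal p) →
    2 * (n + R) + 5 ≤ M' → (C₂ * n : ℝ) ≤ R → box b (n + R + 1) ⊆ box 0 N →
    C₂ * (1 + Real.log (1 / lam) + Real.log (1 / |σ|) + Real.log R) ≤ Real.sqrt lam * R →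
    C₂ * (1 + Real.log (1 / lam) + Real.sqrt lam * n) * η ≤ lam →
      PP d (gl σ) {V | ¬ DZ (box 0 N) (zc (z + lam) η) V b (b + pt i n) ≤
        C₂ * (1 + Real.log (1 / lam) + Real.sqrt lam * n)} ≤
          ENNReal.ofReal (p + Real.exp (-(Real.sqrt lam * R / 16)))

/-- WEN: the mean near the edge. Proof: `E₀ = z + lam`, `n = ⌈log t / √lam⌉`,
`η = c' lam / log t`, `R₀ = ⌈C₃ log t / √lam⌉` in `CdzStmt` (`2 (n + R₀) + 5 ≤ t` since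
`lam t ≥ C log t`), so `DZ(b, b + n e_i) ≤ C log t` outside an event of probability
`p + t^{- C'}`. `LnkStmt` and `ChnStmt` with `R = 0`, `L = n`: the mean of `FZ` is at most
`K C log t + A₂ ≤ c M`, `M = K n - 1`, `c = C √lam`. `AvgStmt`, then `WinStmt` with `D = 2 lam`:
`(η² + 4 lam²) / (2 η) ≤ C lam log t`. -/
def WenStmt : Prop :=
  ∀ d : ℕ, 3 ≤ d → ∃ c C : ℝ, 0 < c ∧ 1 ≤ C ∧
    ∀ (M' : ℕ) (v : ℝ≥0) (σ t z μ lam p : ℝ) (γ : ℝ → ℝ), σ ≠ 0 → |σ| ≤ 1 →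
    (v : ℝ) = σ ^ 2 → 1 ≤ z → z ≤ 2 * d + 1 → 1 / |σ| ≤ t → C ≤ t → 9 * t ≤ μ → t ≤ M' →
    (∀ h : NeZero M', gau d M' v {V | ¬ FlatE (1 / 50) z μ V} ≤ ENNReal.ofReal p) →
    p ≤ t ^ (-C) → (∀ E, LyaAt d σ E (γ E)) → C * Real.log t ≤ lam * t → lam ≤ c →
      ∫⁻ E in Set.Icc (z - lam) (z + lam), ENNReal.ofReal (γ E) ≤
        ENNReal.ofReal (C * lam ^ (3 / 2 : ℝ) * Real.log t)

end Pool.Agent.LE.MN
end
end -- Pool.Agent.LE.StmtsM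

section -- Pool.Agent.LE.StmtsP

/-!
# The Lyapunov exponent at weak disorder, pointwise: `γ(σ, E) ≤ C σ² log⁶ (1 / |σ|)`

Statements of the modules, with proofs. The final theorem is `PbdStmt`: for `d ≥ 3` and every real
`E`, `|E| ≤ 2 d - δ` (the critical energies `2 d - 4 k` included), the Lyapunov exponent is at most
`C σ² log⁶ (1 / |σ|)`: at every energy in the bulk the localization length is at least the mean free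
path, up to logarithms.

MAIN IDEA. Fix a large cube `Λ`, let `G` be its Green function at the real energy `E`. The site `y` is
linked to `x` if `|G(x, y)| ≥ e^{-s}`, `s = C log (1 / |σ|)`. Let `η = C σ² log⁴ (1 / |σ|)`.
(1) The set of the sites which are reached from `b` by `C log (1 / |σ|)` links inside of the cube of
radius `C η^{-1} log² (1 / |σ|)` about `b` has at least `c η^{-d}` elements, with probability at least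
`1 - |σ|^A` (CLP). (2) On all these sites the function `F_i = - log max_{z ∈ face i} |G(z, ·)|` has
nearly the same value. `F` covers a cube of side `γ L / 4` (Poincaré-Miranda), so
`(γ L / (C s log))^d ≤ C L^d η^d` (CN3, CR3, CRG).

Proof of (1). `S_0 = {b}`, `S_{j+1}` = `S_j` and the sites of the cube of radius `(j + 1) R₁` linked to
it. For some `j ≤ C log` the set `C' = S_{j+1}` has at most twice as many elements as `C = S_j`. Let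
`N = |C|` and `ψ_x = χ G(x, ·)`, `x ∈ C`, with a weight `χ`, `χ = 1` on the cube of radius `j R₁`, which
decays at the rate `c η` outside. Up to small errors `ψ_x` is supported in `C'`, and
`(E - V - Δ - W) ψ_x = δ_x`, `‖W‖ ≤ c η`. Write `X = sy - E`. The perturbation `V` is small relative to
`|X| + η` as a quadratic form (noncommutative Khintchine inequality, `PrbStmt`, `DuaStmt`). Let `A` be
the matrix of `η² / (X² + η²)` on `ℓ²(C')`, `tr A ≤ C η |C'|`. All `v ∈ ℓ²(C)` outside of a space of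
dimension `≤ 4 C η N` have `⟨ψ_v, A ψ_v⟩ ≤ ‖ψ_v‖² / 2`, `ψ_v = ∑ v_x ψ_x` (LAQ). The sum of `‖ψ_v‖²` over
an orthonormal basis of these `v` is at most `C N / η` (HSU). Test the equation with `q v`, where `q`
is a smooth approximation of `δ(X)`, `T = c / η`, near a point of the energy surface with nonzero
curvature: `∑ ⟨q X ψ_v, v⟩ = - ∑ ⟨q v, v⟩ + small`, at least `c N`, but the kernel of `q X` is at most
`C T^{-(d+1)/2}` (KRB, TSA): so `c N ≤ (C N / η)^{1/2} (N |C'| T^{-(d+1)})^{1/2}` (PAI, BLK).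
-/

set_option autoImplicit false

open MeasureTheory ProbabilityTheory Function Filter

open scoped ENNReal BigOperators Topology NNReal ComplexOrder

noncomputable section

namespace Pool.Agent.LE.CL

open Pool.Agent.Anderson hiding box mem_box card_box
open Pool.Agent.Loc Pool.Agent.Mob Pool.Agent.Helper54.Bal
  Pool.Agent.Helper96.EXP Pool.Agent.BED
open Pool.Agent.LE.MN

/-! ### A. Counting and the criterion -/

/-- CN3: the counting lemma for a map with clusters (deterministic). Proof: as `H96W.cnt2`. Targets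
`τ_κ = t + 16 S κ_i - 8 S`, `κ ∈ {1, …, m}^d`. By `DmiStmt` (`H24.dmi`) there is for each `κ` a
`k = k(κ) ∈ box 0 n` with `|F (a + k) i - τ_κ i| ≤ c k S` for all `i`. (1) `c k ≤ 1`, `k ∉ G`: different
`κ` have different `k`: at most `|box 0 n \ G|` such `κ`. (2) `c k ≤ 1`, `k ∈ G`: `F` is within `2 S` of
`τ_κ` on the set `T` of `k`, so these sets are disjoint for different `κ`, and contained in
`box a (n + R)`. (3) `c k > 1`: for each such `k` there are at most `(c k / 8 + 1)^d ≤ (2 c k)^d`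
targets within `c k S`. -/
def Cn3Stmt : Prop :=
  ∀ (d : ℕ) (F : Site d → Fin d → ℝ) (a : Site d) (n R M m : ℕ) (t h S : ℝ)
    (c : Site d → ℝ) (G : Finset (Site d)), 1 ≤ d → 1 ≤ n → 1 ≤ M → 0 < S →
    t + 16 * S * m ≤ h →
    (∀ k ∈ box (0 : Site d) n, ∀ i, k i = -(n : ℤ) → F (a + k) i ≤ t) →
    (∀ k ∈ box (0 : Site d) n, ∀ i, k i = (n : ℤ) → h ≤ F (a + k) i) →
    (∀ k, 0 ≤ c k) →
    (∀ k ∈ box (0 : Site d) n, ∀ x ∈ box (a + k) 1, ∀ i, |F x i - F (a + k) i| ≤ c k * S) →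
    (∀ k ∈ G, ∃ T : Finset (Site d), M ≤ T.card ∧ T ⊆ box (a + k) R ∧
      ∀ y ∈ T, ∀ i, |F y i - F (a + k) i| ≤ S) →
      (m : ℝ) ^ d ≤ ((box (0 : Site d) n) \ G).card + (2 * ((n : ℝ) + R) + 1) ^ d / M +
        2 ^ d * ∑ k ∈ (box (0 : Site d) n).filter (fun k => 1 < c k), c k ^ d

/-- CR3: the criterion. If clusters of `n` points are reached by `J` links, a large cube does not
insulate at the rate `κ`. Proof: as `H93W.crt` (file `Helper93_LEW/CRT.lean`), with the mesh `1`: the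
points `a + k`, `k ∈ box 0 L`, `S_i` = the face `k_i = - L`, `F x i = FD V (box 0 N) E S_i x`,
`S = 2 s J`, `c k = max_i osc (S_i) (a + k) 1 / S`, `t = κ / 4 L` (`RegStmt`), `h = κ L` (insulation),
`m = ⌊3 κ L / (64 S)⌋`, `G` = the `k` such that `rch` has `n` elements and
`|F x i - F y i| ≤ DL x y + s` for all `x, y ∈ box (a + k) ρ` (`TrfStmt`; union over the pairs). Along a
chain of `J` links `|F y i - F (a + k) i| ≤ J (s + s)`: if `e^{-s} ≤ |gr x y|` then `DL x y ≤ s`.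
Markov for the number of bad `k` and for the sum of `∑_i osc^d 1{osc > S}`; `Cn3Stmt`, `L → ∞`. -/
def Cr3Stmt : Prop :=
  ∀ (d ρ n J : ℕ) (σ E κ s q y : ℝ), 1 ≤ d → σ ≠ 0 → 1 ≤ n → 1 ≤ J → 0 < s → 0 < κ → 0 < q →
    0 < y →
    4 * 3 ^ d * (q + d * (2 * ρ + 1) ^ (2 * d) * (16 / |σ| * Real.exp (-s))) + 2 * 3 ^ d / n +
      2 ^ d * (4 * 3 ^ d * (d * y)) < (κ / (60 * (s * J))) ^ d →
    (∀ (N : ℕ) (S : Finset (Site d)) (c : Site d), S.Nonempty → S ⊆ box 0 N → box c 1 ⊆ box 0 N →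
      ∫⁻ V in {V | ENNReal.ofReal (2 * s * J) < osc V N E S c 1}, (osc V N E S c 1) ^ d
        ∂(PP d (gl σ)) ≤ ENNReal.ofReal (y * (2 * s * J) ^ d)) →
    (∀ (N : ℕ) (b : Site d), box b ρ ⊆ box 0 N →
      PP d (gl σ) {V | ¬ n ≤ (rch V (box 0 N) E s b ρ J).card} ≤ ENNReal.ofReal q) →
      ∃ L₀ : ℕ, ∀ (L N : ℕ) (a : Site d), L₀ ≤ L → box a (4 * L) ⊆ box 0 N →
        PP d (gl σ) {V | ¬ ∀ x ∈ box a (2 * L), ∀ y ∈ box a (2 * L), L + 1 ≤ sd x y →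
          κ * L ≤ DL (box 0 N) E V x y} ≤ ENNReal.ofReal (1 / 4) → False

/-- OST: the tail of the oscillation. Proof: for neighbours (and for `x = y`) the positive part of
`DL x y` has exponential tails: `P(DL x y > u) ≤ C |σ|^{-A} e^{-u / C}`; this is the proof of
`Pool.Agent.LE.H3W.cst` / `H28W.cstB` (the fractional moment `∫ |gr|^{-1/4}` for neighbours,
`LY.low_marg`, and `LY.one_marg` along a path with at most `2 d` steps); with `TrfStmt`,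
`|F(x) - F(c)| ≤ DL c x + t` up to the probability `16 / |σ| e^{-t}`, so
`P(osc > u) ≤ C |σ|^{-A} e^{-u / C}`, and `∫_{osc > u} osc^d = u^d P(osc > u) +
∫_u^∞ d v^{d-1} P(osc > v) dv`. -/
def OstStmt : Prop :=
  ∀ d : ℕ, 1 ≤ d → ∃ A C : ℝ, 1 ≤ A ∧ 1 ≤ C ∧ ∀ (σ E u : ℝ) (N : ℕ) (S : Finset (Site d))
    (c : Site d), σ ≠ 0 → |σ| ≤ 1 → |E| ≤ 2 * d + 2 → 0 ≤ u → S.Nonempty → S ⊆ box 0 N →
    box c 1 ⊆ box 0 N →
      ∫⁻ V in {V | ENNReal.ofReal u < osc V N E S c 1}, (osc V N E S c 1) ^ d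
        ∂(PP d (gl σ)) ≤ ENNReal.ofReal (C * |σ| ^ (-A) * Real.exp (-(u / C)))

/- CRG: the criterion with numbers, `CrgStmt` in `DefsC.lean`. Proof: `l = log (1 / |σ|) ≥ log 2`. If `(2 ρ + 1)^d < n` then the
hypothesis says `q ≥ 1`, so `n ≤ 1`: impossible. Let `s' = s + K (l + log ρ)`, `K` large (`rch` grows
with `s`), `q' = 1 / n ≥ q`. In `Cr3Stmt` the pair term is at most
`d (2 ρ + 1)^{2d} (16 / |σ|) e^{-s'} ≤ 1 / n`, and `y = 1 / n` is allowed by `OstStmt`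
(`u = 2 s' J`, `K` large), so the left side is at most `C₁ / n`; the right side is
`(κ / (60 s' J))^d`, larger if `κ ≥ 60 (2 C₁)^{1/d} s' J n^{-1/d}`. If `g > 2 κ` then `InfStmt` (with
`2 κ`) contradicts `Cr3Stmt`. -/

/-! ### B. The cluster lemma -/

/-- the test multipliers: bounded approximations of `δ(sy - E)` -/
def Tst (d : ℕ) (cT CT E T : ℝ) (q : UnitAddTorus (Fin d) → ℝ) : Prop :=
  Measurable q ∧ (∀ θ, |q θ| ≤ CT * T) ∧ cT ≤ |∫ θ, q θ| ∧ (∫ θ, q θ ^ 2) ≤ CT * T ∧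
  (∫ θ, q θ ^ 2 * |sy θ - E|) ≤ CT ∧
  ∀ y : Site d, ‖∫ θ, ((q θ * (sy θ - E) : ℝ) : ℂ) * ch y θ‖ ≤
    CT * T ^ (-(((d : ℝ) + 1) / 2))

/-- the form bound for the potential `D` on `B` relative to `|sy - E| + η` -/
def KF {d : ℕ} (B : Finset (Site d)) (D : Site d → ℝ) (E η τ : ℝ) : Prop :=
  ∀ w : Site d → ℂ, (∀ y, y ∉ B → w y = 0) →
    ∫ θ, (md E η θ)⁻¹ * ‖hatS B (fun y => (D y : ℂ) * w y) θ‖ ^ 2 ≤
      τ ^ 2 * ∫ θ, md E η θ * ‖hatS B w θ‖ ^ 2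

/-- `∑_{x ∈ C} v x ψ x` -/
def lin {d : ℕ} (C : Finset (Site d)) (ψ : Site d → Site d → ℂ) (v : C → ℂ) : Site d → ℂ :=
  fun y => ∑ x : C, v x * ψ x y

/-- the equation `(Δ + D - E) ψ x = F x + e x - δ x` for `x ∈ C`, `ψ x` supported in `C'`, `F` of norm at
most `ω` relative to `ψ`, `|e x|² ≤ ε`, and the form bound -/
def Sys {d : ℕ} (C C' B : Finset (Site d)) (D : Site d → ℝ) (ψ F e : Site d → Site d → ℂ)
    (E η ω ε τ : ℝ) : Prop :=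
  C ⊆ C' ∧ C' ⊆ B ∧ (∀ y ∈ C', ∀ i, y - Pi.single i 1 ∈ B ∧ y + Pi.single i 1 ∈ B) ∧
  (∀ x ∈ C, ∀ y, y ∉ C' → ψ x y = 0) ∧
  (∀ x ∈ C, ∀ y, lap (ψ x) y + (D y : ℂ) * ψ x y - (E : ℂ) * ψ x y =
    F x y + e x y - if y = x then 1 else 0) ∧
  (∀ x ∈ C, ∀ y, y ∉ B → F x y = 0 ∧ e x y = 0) ∧
  (∀ v : C → ℂ, ∑ y ∈ B, ‖lin C F v y‖ ^ 2 ≤ ω ^ 2 * ∑ y ∈ C', ‖lin C ψ v y‖ ^ 2) ∧
  (∀ x ∈ C, ∑ y ∈ B, ‖e x y‖ ^ 2 ≤ ε) ∧ KF C' D E η τ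

/-- Bessel's inequality for the family `v` (the columns of a projection) -/
def Bes {d : ℕ} (C : Finset (Site d)) (v : C → C → ℂ) : Prop :=
  ∀ u : C → ℂ, ∑ k, ‖∑ x, u x * v k x‖ ^ 2 ≤ ∑ x, ‖u x‖ ^ 2

/-- LAQ: linear algebra. Proof: `A = ∑ λ_k u_k u_k^*`, bad set `K = {k | λ_k > 1/2}`, `|K| ≤ 2 tr A`. `Q`
= the orthogonal projection onto the kernel of the map `v ↦ (u_k^* Ψ v)_{k ∈ K}`; `tr (1 - Q)` = the
rank of this map `≤ |K|`. For `w` orthogonal to the bad `u_k`: `⟨w, A w⟩ ≤ |w|² / 2`. -/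
def LaqStmt : Prop :=
  ∀ (m n : Type) [Fintype m] [DecidableEq m] [Fintype n] [DecidableEq n] (A : Matrix n n ℂ)
    (Ψ : Matrix n m ℂ), A.PosSemidef →
      ∃ Q : Matrix m m ℂ, Q.IsHermitian ∧ Q * Q = Q ∧
        (Matrix.trace (1 - Q)).re ≤ 2 * (Matrix.trace A).re ∧
        ∀ v : m → ℂ,
          (dotProduct (star (Matrix.mulVec Ψ (Matrix.mulVec Q v)))
            (Matrix.mulVec A (Matrix.mulVec Ψ (Matrix.mulVec Q v)))).re ≤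
            1 / 2 * nsq (Matrix.mulVec Ψ (Matrix.mulVec Q v))

/-- HSU: the upper bound in the Hilbert-Schmidt norm. Proof: `N = |C|`, `g_k = lin C ψ (v k)`,
`X = sy - E`, `m = md E η`, `|X| ≤ m`, `m² = X² + η²`, `m ≥ η`. Fourier transform of the equation
(`hat_lap`): `X ĝ_k = - v̂_k + F̂_k + ê_k - (D g_k)^`. By `Bes` (`u = ch · θ`): `∑_k |v̂_k(θ)|² ≤ N` for
every `θ`, and (`u = e · y`) `∑_k |lin C e (v k)|² ≤ N ε`. Let `a² = ∑_k |g_k|²`,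
`Y² = ∑_k ∫ m |ĝ_k|²`, `κ = kap d E η ≤ C (1 + log (1 / η))` (`kap_le`). (1) `m = (X² + η²) / m ≤
X² / m + η`, so `Y² ≤ η a² + 4 ∑_k ∫ m⁻¹ (|v̂|² + |F̂|² + |ê|² + |(D g)^|²) ≤ η a² + 4 (N κ +
ω² a² / η + N ε / η + τ² Y²)`. (2) the hypothesis says `a² / 2 ≤ ∑_k ∫ X² / m² |ĝ_k|² ≤ 4 ∑_k ∫ m⁻²
(…) ≤ 4 (128 π N / η + ω² a² / η² + N ε / η² + τ² Y² / η)` (`integral_ker_le`; `m⁻² ≤ m⁻¹ / η`). For
`ω ≤ c η`, `ε ≤ η`, `τ² (1 + log (1 / η)) ≤ c`, `c` small: `Y² ≤ 2 η a² + C N κ'`, then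
`a² ≤ C N / η`. -/
def HsuStmt : Prop :=
  ∀ d : ℕ, 3 ≤ d → ∃ c C₂ : ℝ, 0 < c ∧ 1 ≤ C₂ ∧ ∀ (C C' B : Finset (Site d)) (D : Site d → ℝ)
    (ψ F e : Site d → Site d → ℂ) (E η ω ε τ : ℝ) (v : C → C → ℂ), 0 < η → η ≤ 1 → 0 ≤ ω →
    ω ≤ c * η → ε ≤ η → 0 ≤ τ → τ ^ 2 * (1 + Real.log (1 / η)) ≤ c →
    Sys C C' B D ψ F e E η ω ε τ → Bes C v →
    (∀ k, ∫ θ, η ^ 2 / ((sy θ - E) ^ 2 + η ^ 2) * ‖hatS C' (lin C ψ (v k)) θ‖ ^ 2 ≤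
      1 / 2 * ∑ y ∈ C', ‖lin C ψ (v k) y‖ ^ 2) →
      ∑ k, ∑ y ∈ C', ‖lin C ψ (v k) y‖ ^ 2 ≤ C₂ * C.card / η ∧
      ∑ k, ∫ θ, md E η θ * ‖hatS C' (lin C ψ (v k)) θ‖ ^ 2 ≤
        C₂ * C.card * (1 + Real.log (1 / η))

/-- PAI: the pairing. Proof: `T ∈ [c / η, CT c / η]`, `g_k = lin C ψ (v k)`, `X = sy - E`. Let
`Z = ∑_k ∫ q X ĝ_k conj (v̂_k)`. By the equation `X ĝ_k = - v̂_k + F̂_k + ê_k - (D g_k)^`, so
`|Z| ≥ |∑_k ∫ q |v̂_k|²| - errors ≥ cT N / 2 - errors`. Errors (Cauchy-Schwarz, `∑_k |v̂_k|² ≤ N`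
pointwise): `F`: `(N ∫ q²)^{1/2} ω a ≤ (N CT T)^{1/2} c η (C₂ N / η)^{1/2}`; `e`:
`(N CT T)^{1/2} (N ε)^{1/2}`; `D g`: `(N ∫ q² m)^{1/2} τ Y`, `m ≤ |X| + η`, `∫ q² m ≤ CT + CT T η`: all
at most `cT N / 16` for small `c`. On the other side (Parseval) `Z = ∑_k ∑_{y ∈ C'} g_k(y)
conj (h_k(y))`, `h_k(y) = ∑_x v_k(x) Q(y - x)` or its conjugate, `Q` the kernel of `q X`, and by `Bes`
`∑_k |h_k(y)|² ≤ ∑_{x ∈ C} |Q(y - x)|² ≤ N CT² T^{-(d+1)}`, so `|Z| ≤ (C₂ N / η)^{1/2}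
(|C'| N CT² T^{-(d+1)})^{1/2}`. -/
def PaiStmt : Prop :=
  ∀ (d : ℕ) (cT CT C₂ : ℝ), 3 ≤ d → 0 < cT → 1 ≤ CT → 1 ≤ C₂ → ∃ c₀ : ℝ, 0 < c₀ ∧
    ∀ c : ℝ, 0 < c → c ≤ c₀ → ∃ c₂ : ℝ, 0 < c₂ ∧ ∀ (C C' B : Finset (Site d)) (D : Site d → ℝ)
    (ψ F e : Site d → Site d → ℂ) (E η ω ε τ T : ℝ) (q : UnitAddTorus (Fin d) → ℝ)
    (v : C → C → ℂ), 0 < η → η ≤ 1 → 0 ≤ ω → ω ≤ c * η → ε ≤ c * η → 0 ≤ τ →
    τ ^ 2 * (1 + Real.log (1 / η)) ≤ c → c / η ≤ T → T ≤ CT * (c / η) → C.Nonempty →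
    Sys C C' B D ψ F e E η ω ε τ → Tst d cT CT E T q → Bes C v →
    ∑ k, ∑ y ∈ C', ‖lin C ψ (v k) y‖ ^ 2 ≤ C₂ * C.card / η →
    ∑ k, ∫ θ, md E η θ * ‖hatS C' (lin C ψ (v k)) θ‖ ^ 2 ≤
      C₂ * C.card * (1 + Real.log (1 / η)) →
    cT / 2 * C.card ≤ |∑ k, ∫ θ, q θ * ‖hatV (v k) θ‖ ^ 2| →
      c₂ * η ^ (-(d : ℝ)) ≤ C'.card

/-- BLK: the cluster lemma. Proof: `A y y' = ∫ η² / (X² + η²) conj (ch y) ch y'` on `C'`, positive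
semidefinite, `tr A = |C'| ∫ η² / (X² + η²) ≤ 128 π η |C'| ≤ 256 π η N`; `Q` from `LaqStmt` with
`Ψ y x = ψ x y`, `v k x = Q x k`. `Bes`: `Q` is a contraction. `∑_k ∫ q |v̂_k|² = tr (Q M)`,
`M x x' = ∫ q conj (ch x) ch x'` (up to transposition), `tr M = N ∫ q`, and
`|tr ((1 - Q) M)| ≤ tr (1 - Q) sup |q| ≤ 512 π η N CT T ≤ cT N / 2`. `HsuStmt` and `PaiStmt`. -/
def BlkStmt : Prop :=
  ∀ (d : ℕ) (cT CT : ℝ), 3 ≤ d → 0 < cT → 1 ≤ CT → ∃ c c₂ : ℝ, 0 < c ∧ c ≤ 1 ∧ 0 < c₂ ∧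
    ∀ (C C' B : Finset (Site d)) (D : Site d → ℝ) (ψ F e : Site d → Site d → ℂ)
    (E η ω ε τ T : ℝ) (q : UnitAddTorus (Fin d) → ℝ), 0 < η → η ≤ c → 0 ≤ ω → ω ≤ c * η →
    ε ≤ c * η → 0 ≤ τ → τ ^ 2 * (1 + Real.log (1 / η)) ≤ c → c / η ≤ T → T ≤ CT * (c / η) →
    C.Nonempty → C'.card ≤ 2 * C.card → Sys C C' B D ψ F e E η ω ε τ → Tst d cT CT E T q →
      c₂ * η ^ (-(d : ℝ)) ≤ C'.card

/-- CLB: from the Green function to the cluster lemma (deterministic). Proof: `S_0 = {b}`,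
`S_{j+1} = clu V Λ E s S_j (box b ((j + 1) R₁))`, `S_j ⊆ rch … j` and `S_j ⊆ box b (j R₁)`. If
`|S_{j+1}| > 2 |S_j|` for all `j < J`, then `|S_J| ≥ 2^J > (2 R + 1)^d`, impossible. So there is `j < J`
with `|C'| ≤ 2 |C|`, `C = S_j`, `C' = S_{j+1}`. Let `r₀ = j R₁`, `r₁ = (j + 1) R₁ ≤ R`,
`χ(y) = exp (- κ (sd b y - r₀)^+)`, `4 d κ = c η`, `B = box b (r₁ + 1)`,
`ψ x y = χ(y) G(x, y)` for `y ∈ C'`, `F x y = - ∑_{z ~ y} (χ(y) / χ(z) - 1) ψ x z`. For `y ∈ box b r₁`,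
`y ∉ C'`: `|G(x, y)| < e^{-s}`. Multiply `∑_z G(x, z) + (V(y) - E) G(x, y) = - δ` (`y ∈ Λ`) by `χ(y)`:
for `|y - b| ≤ r₁ - 1` the equation of `Sys` holds with `|e x y| ≤ (8 d + 2) e^{-s}`; for
`|y - b| = r₁`, `r₁ + 1` all the terms are at most `(8 d + 2) e^{a - κ (R₁ - 1)}` (`y ≠ x`). For
`|y - b| > r₁ + 1` everything is zero. `|χ(y) / χ(z) - 1| ≤ e^κ - 1 ≤ 2 κ`, so `ω = 4 d κ`. With the
hypotheses `∑_{y ∈ B} |e x y|² ≤ (2 R + 3)^d (8 d + 2)² (…)² ≤ c η`. `BlkStmt`. -/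
def ClbStmt : Prop :=
  ∀ (d : ℕ) (cT CT : ℝ), 3 ≤ d → 0 < cT → 1 ≤ CT → ∃ c c₂ C : ℝ, 0 < c ∧ c ≤ 1 ∧ 0 < c₂ ∧ 1 ≤ C ∧
    ∀ (V : Site d → ℝ) (N R R₁ J : ℕ) (E η τ s a T : ℝ) (b : Site d)
    (q : UnitAddTorus (Fin d) → ℝ), 0 < η → η ≤ c → |E| ≤ 2 * d → 0 ≤ a → 0 ≤ τ →
    τ ^ 2 * (1 + Real.log (1 / η)) ≤ c → c / η ≤ T → T ≤ CT * (c / η) → Tst d cT CT E T q →
    box b (R + 2) ⊆ box 0 N → J * R₁ ≤ R → (2 * R + 1) ^ d < 2 ^ J →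
    C * (a + Real.log (1 / η) + Real.log R) ≤ η * R₁ →
    C * (1 + Real.log (1 / η) + Real.log R) ≤ s →
    (RM V (box 0 N) E).det ≠ 0 → (∀ x ∈ box b (R + 1), |V x| ≤ 1) →
    (∀ x ∈ box b (R + 1), ∀ y ∈ box b (R + 1), |gr V (box 0 N) E x y| ≤ Real.exp a) →
    KF (box b R) V E η τ →
      c₂ * η ^ (-(d : ℝ)) ≤ (rch V (box 0 N) E s b R J).card

/-- TSA: the test multiplier on the torus. Proof: `KrbStmt`, with `T'` instead of `T` (`T ≤ T' ≤ C T`).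
`a(θ) = ∏_j aa (th0 j) r (2 π x_j)`, `x_j ∈ [0, 1)` the representative of `θ_j` (continuous, since
`2 r ≤ th0 j ≤ π - 2 r`), `q(θ) = a(θ) wh T' (sy θ - E)`; `∫ q = (2π)^{-d} ∫ ∏ aa wh` (the circle is
`[0, 1)`, `θ_j = 2 π x_j`). `|wh T x| ≤ 3 T` and `|wh T x| ≤ 4 / (T x²)`, so `q² ≤ C T ker`,
`q² |X| ≤ C ker` with `ker = T^{-1} / (X² + T^{-2})` and `∫ ker ≤ 128 π` (`integral_ker_le`).
`x wh T x = (2 / T) ∫_T^{2T} sin (t x) dt`, and by Fubini `∫ q X ch y = (2 / T) ∫_T^{2T} ∫ a(θ)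
sin (t X) ch y θ dθ dt`, `sin = (e^{i t X} - e^{- i t X}) / 2 i`; `∫ a e^{- i t X} ch y =
(2π)^{-d} e^{i t E} ∏_j hh (th0 j) r t (y j)`, and the other term is the complex conjugate of this for
`- y`. So `|∫ q X ch y| ≤ (2 / T) C T^{-(d-1)/2}`. (`T ≥ 1`; the constants of `Tst` are those for
`T'`.) -/
def TsaStmt : Prop :=
  ∀ (d : ℕ) (δ : ℝ), 3 ≤ d → 0 < δ → ∃ cT CT : ℝ, 0 < cT ∧ 1 ≤ CT ∧ ∀ E T : ℝ,
    |E| ≤ 2 * d - δ → 1 ≤ T → ∃ (T' : ℝ) (q : UnitAddTorus (Fin d) → ℝ), T ≤ T' ∧ T' ≤ CT * T ∧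
      Tst d cT CT E T' q

/-! ### C. Probability and numbers -/

/-- CLP: the probability of the clusters. Proof: `l = log (1 / |σ|)`, `η = K₁ σ² l⁴`, `τ² = c' / l` with
`τ² (1 + log (1 / η)) ≤ c`, `a = A' l`, `s = C' l`, `R₁ = ⌈C'' l / η⌉`, `J = ⌈C'' l⌉`, `R = J R₁`,
`ρ = R + 2`; `TsaStmt` with `T = c / η ≥ 1`. Outside of an event of probability `≤ |σ|^A`: `det ≠ 0`
(almost surely), `|V| ≤ 1` on `box b (R + 1)` (Gaussian tail), `|G(x, y)| ≤ e^a` for all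
`x, y ∈ box b (R + 1)` (Wegner for one matrix element: `P(|gr x y| > τ) ≤ 10 / (|σ| τ)`, see
`Pool.Agent.LE.H54.upI`), and the operator bound on `box b R` (`PrbStmt`, `K₁` large), which gives
`KF (box b R) V E η τ` by `DuaStmt`. `ClbStmt`, `n = ⌊c₂ η^{-d}⌋`, `rch` grows with the radius
(`R ≤ ρ`). -/
def ClpStmt : Prop :=
  ∀ (d : ℕ) (δ A : ℝ), 3 ≤ d → 0 < δ → 1 ≤ A → ∃ c K : ℝ, 0 < c ∧ c ≤ 1 / 4 ∧ 1 ≤ K ∧
    ∀ σ E : ℝ, σ ≠ 0 → |σ| ≤ c → |E| ≤ 2 * d - δ → ∃ (n ρ J : ℕ) (s : ℝ), 1 ≤ s ∧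
      s ≤ K * Real.log (1 / |σ|) ∧ 1 ≤ ρ ∧ (ρ : ℝ) ≤ |σ| ^ (-3 : ℝ) ∧ 1 ≤ J ∧
      (J : ℝ) ≤ K * Real.log (1 / |σ|) ∧ 1 ≤ n ∧ (n : ℝ) ≤ |σ| ^ (-(2 * (d : ℝ))) ∧
      (K * σ ^ 2 * Real.log (1 / |σ|) ^ 4) ^ (-(d : ℝ)) ≤ n ∧
      ∀ (N : ℕ) (b : Site d), box b ρ ⊆ box 0 N →
        PP d (gl σ) {V | ¬ n ≤ (rch V (box 0 N) E s b ρ J).card} ≤ ENNReal.ofReal (|σ| ^ A)

/-- PBD: the final bound. Proof: `ClpStmt` with `A = 2 d`, `CrgStmt` with `q = |σ|^A`. -/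
def PbdStmt : Prop :=
  ∀ (d : ℕ) (δ : ℝ), 3 ≤ d → 0 < δ → ∃ c C : ℝ, 0 < c ∧ c ≤ 1 / 4 ∧ 1 ≤ C ∧
    ∀ σ E g : ℝ, σ ≠ 0 → |σ| ≤ c → |E| ≤ 2 * d - δ → LyaAt d σ E g →
      g ≤ C * σ ^ 2 * Real.log (1 / |σ|) ^ 6

end Pool.Agent.LE.CL
end
end -- Pool.Agent.LE.StmtsP
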