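import Pool.Agent.Helper12_MEB.B059
import Pool.Agent.Helper12_MEB.B074

/-!
# Merged copies (generated) of the modules

* `Pool.Agent.LE.StmtsJ`
* `Pool.Agent.Helper54_LIR.CPEa`
* `Pool.Agent.Helper54_LIR.CPEb`
-/

set_option autoImplicit false

section -- Pool.Agent.LE.StmtsJ

/-!
# The Lyapunov exponent between the effective band edge and the bulk, part 2

Test multipliers, the clusters of the Green function, probability and numbers.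
-/

set_option autoImplicit false

open MeasureTheory ProbabilityTheory Function Filter

open scoped ENNReal BigOperators Topology NNReal ComplexOrder

noncomputable section

namespace Pool.Agent.LE.IR

open Pool.Agent.Anderson hiding box mem_box card_box
open Pool.Agent.Loc Pool.Agent.Mob Pool.Agent.Helper54.Bal
  Pool.Agent.Helper96.EXP Pool.Agent.BED
open Pool.Agent.LE.MN Pool.Agent.LE.CL

/-! ### D. The test multiplier -/

/-- KBE: the kernel bound and the main term near the edge; `KrbStmt` (proof in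
`Pool/Agent/Helper28_LSP/KRB.lean`) rescaled. Proof: `2 (1 - cos th0) = l / d`, so `th0 ≈ √(l/d)`,
`r = c √l`.

Kernel bound. (a) If for some `j` and all `t` of a subinterval `sin θ` stays away from
`- n_j / (2 t)` for `|θ - th0| ≤ 2 r`: the phase of `hh` has `|G'| ≥ c T r`, the amplitude
`r² - (θ - th0)²` vanishes at the ends, so `|hh| ≤ C r / T`; always `|hh| ≤ C r² T^{-1/2}` (second
derivative `2 t cos θ`). The integral over `t` is at most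
`T (r / T) (C r² T^{-1/2})^{d-1} ≤ C r^{2d} T^{-(d-1)/2} l^{-1/2}`. (b) Otherwise
`sin θ*_j = - n_j / (2 t)`, `|θ*_j - th0| ≤ 3 r`, the phase `φ_j(t) = n_j θ*_j - 2 t cos θ*_j` has
`φ_j'' = - (2 / t) sin² θ*_j / cos θ*_j`, so `|∑ φ_j''| ≥ c l / T`, and `A_j(t) = e^{- i φ_j} hh` has
`|A_j| ≤ C r² T^{-1/2}`, `|A_j'| ≤ C r² T^{-3/2}` (`A' = (1 / t) ∫ a(θ) tan ((θ + θ*) / 2)
(e^{i G})'`, and `(a tan)'` is at most `C r²` with variation `C r²`). The second derivative test: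
`C (l / T)^{-1/2} (r² T^{-1/2})^d`.

Main term. `f_T = (2 - 2 cos (T x)) / (T x²) ≥ 0`, `wh T = 2 f_{2T} - f_T`. `I(T) = ∫ (∏ aa) f_T` is at
most `C r^{2d} l^{(d-2)/2}` (the derivative of the argument in `θ_1` is at least `c √l`, `∫ f_T = 2 π`)
and at least `c r^{2d} l^{(d-2)/2}` (the set where the argument is at most `1 / T`, `T l ≥ C`); if
`2 I(2 T') - I(T') < c' …` at all the scales `T' = 2^k T`, `k ≤ k₀`, then `I` decays: contradiction. -/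
def KbeStmt : Prop :=
  ∀ d : ℕ, 3 ≤ d → ∃ c₁ c C : ℝ, 0 < c₁ ∧ c₁ ≤ 1 ∧ 0 < c ∧ 1 ≤ C ∧ ∀ l : ℝ, 0 < l → l ≤ c₁ →
    ∃ th0 r : ℝ, c₁ * Real.sqrt l ≤ r ∧ 2 * r ≤ th0 ∧ d * (th0 + r) ^ 2 ≤ 2 * l ∧
      (∀ T : ℝ, C ≤ T * l → ∀ n : Fin d → ℤ,
        ‖∫ t in T..(2 * T), Complex.exp (Complex.I * ((t * (2 * d - l) : ℝ) : ℂ)) *
          ∏ j, hh th0 r t (n j)‖ ≤ C * r ^ (2 * d) / (Real.sqrt T ^ (d - 1) * Real.sqrt l)) ∧
      ∀ T : ℝ, C ≤ T * l → ∃ T' : ℝ, T ≤ T' ∧ T' ≤ C * T ∧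
        c * r ^ (2 * d) * l ^ (((d : ℝ) - 2) / 2) ≤
          ∫ θ : Fin d → ℝ, (∏ j, aa th0 r (θ j)) * wh T' (∑ j, 2 * Real.cos (θ j) - (2 * d - l))

/-- TSE: the test multiplier on the torus. Proof: `q(p) = r^{-2d} ∏_j aa th0 r (θ_j) wh T' (ds p - l)`,
`θ_j ∈ [0, 2π)` the representative of `2 π p_j / M`, `T'` from `KbeStmt`. `wh` is even,
`ds p - l = (2 d - l) - ∑ 2 cos θ_j`; on the support `ds p ≤ ∑ θ_j² ≤ d (th0 + r)² ≤ 2 l`.
`|wh T x| ≤ min (3 T) (4 / (T x²)) ≤ C ker`, `ker = T⁻¹ / (x² + T⁻²)`, `q² ≤ C T ker`, `q² |X| ≤ C ker`,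
`|q X| ≤ (C / T) (X² + T⁻²)^{-1/2}`: `DstStmt` (`e = 4 l`, `η = 1 / T'`) and the second part of
`SmsStmt` (`κ = 16 l`, `η = 1 / T'`). The main term and the kernel: `pm` is a Riemann sum of a
function with the Lipschitz constant at most `C T^4 (Rb + 1)` (`1 / r ≤ C √T`), so up to
`C T^4 (Rb + 1) / M` it is the integral over `[0, 1)^d`, i.e. `(2π)^{-d} r^{-2d}` times the integrals
of `KbeStmt`: `x wh T x = (2 / T) ∫_T^{2T} sin (s x) ds` and Fubini as in `TsaStmt`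
(`Pool/Agent/Helper76_LSP/TSA.lean`): at most `(2 / T) C T^{-(d-1)/2} l^{-1/2}`. (`|y_i| ≤ Rb` for the
representatives of `y` with `tds 0 y ≤ Rb`.) -/
def TseStmt : Prop :=
  ∀ d : ℕ, 3 ≤ d → ∃ (A c C : ℝ) (k : ℕ), 1 ≤ A ∧ 0 < c ∧ 1 ≤ C ∧ ∀ (M Rb : ℕ) [NeZero M]
    (l T : ℝ), 0 < l → l ≤ c → C ≤ T * l → C * (T * (Rb + 1)) ^ k ≤ M →
      ∃ (T' : ℝ) (q : Tor d M → ℝ), T ≤ T' ∧ T' ≤ A * T ∧
        TstT A (l ^ (((d : ℝ) - 2) / 2)) l T' (A / (Real.sqrt T' ^ (d + 1) * Real.sqrt l)) Rb q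

/-! ### E. The clusters of the Green function -/

/-- CLE: the cluster of `b` is large (deterministic). Proof: as `ClbStmt`
(`Pool/Agent/Helper48_LSP/CLB.lean`). `S_0 = {b}`, `S_{j+1} = clu V Λ E s S_j (box b ((j + 1) R₁))`;
there is `j < J` with `|S_{j+1}| ≤ 2 |S_j|`. `C`, `C'` = the images of `S_j`, `S_{j+1}` under the
injection `ti M b` (`2 R + 5 ≤ M`). `χ(y) = exp (- κ' (sd b y - j R₁ : ℕ))`, `κ' = c' η`,
`ψ x y = χ(y) gr x y` for `y ∈ S_{j+1}`, `0` otherwise, `g x y = ψ x y / ω y`, `ω = om z μ V_t`,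
`V_t x = V (b + rep x)`. By `FlatE`: `-1 ≤ V_t ≤ z ≤ 2 d + 1`. For `f = ω g`: `(E - V) ψ - nb ψ = δ_x +
F̃ + ẽ` on the torus, `F̃ x y = - ∑_{z ~ y} (χ y / χ z - 1) ψ x z`, `|ẽ|` at most `(8 d + 2) e^{-s}`
inside and `(8 d + 2) e^{a - κ' (R₁ - 1)}` at `sd b y ∈ {r₁, r₁ + 1}`. By the identity in `SrcStmt` (1)
`aop (g x - sfn x) = Sfn x + ω F̃ + ω ẽ`. So `SysT` with `s = sfn`, `S = Sfn`, `κ = 1 / n`, `h = 1 / μ`,
`A' = max (A, the constants of SrcStmt and SmsStmt)`, `φ = c_B η` for small `c'`, `e0 = c_B η D₀`,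
`Γ = C growth (1 + log n)`, `β = C (ε + 2 n lam + √(4 l n (1 + log n)))`, `D₀ = l^{(d-2)/2}`,
`b₀ = (1/n)^{(d-2)/2} (1 + log (1/η))`; `NumT`: `κ^{(d-4)/2} ≤ growth d n`, `η ≤ l` (from
`η (1 / (n l))^d ≤ l`, `n l ≤ 1`), `SmsStmt`. `BleStmt`. (`tds ≤ 2 R` on the image of `box b R`.) -/
def CleStmt : Prop :=
  ∀ (d : ℕ) (A : ℝ), 3 ≤ d → 1 ≤ A → ∃ c₁ c c₂ C : ℝ, 0 < c₁ ∧ c₁ ≤ 1 ∧ 0 < c ∧ c ≤ 1 / 50 ∧
    0 < c₂ ∧ 1 ≤ C ∧ ∀ (M n N R R₁ J : ℕ) [NeZero M] (V : Site d → ℝ) (b : Site d)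
    (z μ ε lam w l η τ s a T Kq : ℝ) (q : Tor d M → ℝ), z ≤ 2 * d + 1 → 0 < μ →
    100 ≤ lam * μ → 0 < ε → ε ≤ c → |w - 1| ≤ 1 / 10 → l = lam - 1 / (μ * w) →
    FlatE ε z μ (fun x : Tor d M => V (b + rep x)) →
    FBd (om z μ fun x : Tor d M => V (b + rep x)) (1 / μ) lam w l η τ →
    1 ≤ n → n + 1 ≤ M ^ 2 → lam * (n * (1 + Real.log n)) ≤ c →
    0 < η → η ≤ c → η * (1 + Real.log (1 / η)) * n ≤ c → η * (1 / (n * l)) ^ d ≤ l →
    C * growth d n * (1 + Real.log n) * η ≤ l ^ (((d : ℝ) - 2) / 2) → 0 ≤ τ →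
    τ ^ 2 * (1 / (n : ℝ)) ^ (((d : ℝ) - 2) / 2) * (1 + Real.log (1 / η)) ≤
      c * l ^ (((d : ℝ) - 2) / 2) →
    C / η ≤ M → c₁ / η ≤ T → T ≤ A * (c₁ / η) → 0 < Kq →
    TstT A (l ^ (((d : ℝ) - 2) / 2)) l T Kq (2 * R) q →
    2 * R + 5 ≤ M → box b (R + 2) ⊆ box 0 N → J * R₁ ≤ R → (2 * R + 1) ^ d < 2 ^ J →
    0 ≤ a → C * (a + Real.log (1 / η) + Real.log R) ≤ η * R₁ →
    C * (1 + Real.log (1 / η) + Real.log R) ≤ s → (RM V (box 0 N) (z - lam)).det ≠ 0 →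
    (∀ x ∈ box b (R + 1), ∀ y ∈ box b (R + 1), |gr V (box 0 N) (z - lam) x y| ≤ Real.exp a) →
      c₂ * l ^ (((d : ℝ) - 2) / 2) * η / Kq ^ 2 ≤ (rch V (box 0 N) (z - lam) s b R J).card

/-! ### F. Probability and numbers -/

/-- FLQ: flatness with the explicit dependence on `ε`. Proof: this is the proof of
`Pool.Agent.LE.H81Z.flatE` (file `Helper81_LSH/FLE.lean`), where `c0 = ε² / (288000 C²)`,
`C0 = 88 + 4 C`. -/
def FlqStmt : Prop :=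
  ∀ d : ℕ, 3 ≤ d → ∃ c0 C0 : ℝ, 0 < c0 ∧ 0 < C0 ∧ ∀ (M' : ℕ) (v : ℝ≥0) (σ t ε p : ℝ),
    σ ≠ 0 → |σ| ≤ 1 → (v : ℝ) = σ ^ 2 → 3 ≤ M' → 1 ≤ t → t ≤ M' → 0 < ε → ε ≤ 1 / 50 →
    p = C0 * (1 + Real.log t) * (M' : ℝ) ^ d *
      Real.exp (-(c0 * ε ^ 2) / (σ ^ 2 * growth d t)) → p ≤ 1 / 2 →
      ∃ z μ : ℝ, |z - 2 * d| ≤ C0 * (σ ^ 2 + 1 / t + Real.sqrt p) ∧ z ≤ 2 * d + 1 ∧
        10 * t ≤ μ ∧ μ ≤ 12 * t ∧
        ∀ h : NeZero M', gau d M' v {V | ¬ FlatE ε z μ V} ≤ ENNReal.ofReal p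

/-- CPE: the probability of the clusters. Proof (`G = growth d t`, `C` = constants, which may depend on
`A₀`, `Kε`; `k`, `A_T` from `TseStmt`; `K₀ = 8 k + 20 d`; `FlatE` is monotone in `ε`, so let
`ε² = Kε L σ² G`): `τ² = c L^{-d/2}`, `η = K₃ σ² G lam L^{d+4}`,
`n_s = ⌊c / (lam (1 + log (1 / lam)))⌋`, `J_s = ⌊√lam M'⌋` (the cut of the momenta). `M' ≥ (t/|σ|)^{K₀}`
is larger than all the polynomials in `t`, `1 / |σ|`, `R`. Note `G lam ≥ c lam^{(d-2)/2}`,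
`G^{1/2} lam^{d/4} ≤ C G lam`, `1 ≤ L`, `log M' ≤ 2 K₀ L`, and by the hypothesis `K σ² G L^{2d+10} ≤ C`.
Events: (1) not `FlatE`: `p`. (2) `FloStmt` for `2 J_s` with `r² = C L v ε² μ² |low| / M^d`
(`|low| / M^d ≤ C lam^{d/2}`), `δ₂ = r ≤ C L σ² G^{1/2} lam^{d/4 - 1}`, so `C δ₂ lam ≤ τ η`. (3)
`KhlStmt` for `J_s`, `τ / 4`, with `k = ⌈C L⌉`, `r² = C L`, `B = C lam^{(d-2)/2} L` (`SmsStmt` with
`κ = 40 d lam`): the last term is at most `e^{-k}` if `K₃` is large. (4) `|gr x y| > e^a` for some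
`x, y ∈ box b (R + 1)`, `a = C L` (`P(|gr x y| > τ) ≤ 10 / (|σ| τ)`, `Pool.Agent.LE.MN.H61.lpr`).
(5) `det = 0`: null. The law of `x ↦ V (b + rep x)` is `gau` (`Pool.Agent.LE.H54W.cpf_core`,
`le_map_apply` for the non measurable sets). Outside: `FfbStmt` gives `FBd`; `TseStmt` with
`T = c₁ / η`, `Rb = 2 R` and `l = lam - 1 / (μ w)`; `CleStmt` with `A = max A_T 1`: the number of the
sites is at least `c₂ l^{(d-2)/2} η T'^{d+1} l / A² ≥ c l^{d/2} η^{-d}`. `R₁ = ⌈C L / η⌉`, `J = ⌈C L⌉`,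
`R = J R₁ ≤ (t / |σ|)^4`, `s = C L`, `ρ = R + 2`. -/
def CpeStmt : Prop :=
  ∀ d : ℕ, 3 ≤ d → ∃ K₀ : ℝ, 1 ≤ K₀ ∧ ∀ A₀ Kε : ℝ, 1 ≤ A₀ → 1 ≤ Kε → ∃ c K : ℝ, 0 < c ∧
    c ≤ 1 / 4 ∧ 1 ≤ K ∧ ∀ (M' : ℕ) (v : ℝ≥0) (σ t z μ ε p lam L : ℝ), σ ≠ 0 → |σ| ≤ c →
    (v : ℝ) = σ ^ 2 → K ≤ t → L = Real.log (1 / |σ|) + Real.log t → z ≤ 2 * d + 1 →
    10 * t ≤ μ → μ ≤ 12 * t → 50 / t ≤ lam → lam ≤ 100 / t → 0 < ε →
    ε ^ 2 ≤ Kε * L * σ ^ 2 * growth d t →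
    K * σ ^ 2 * growth d t ^ 2 * L ^ (2 * d + 10) ≤ lam ^ (((d : ℝ) - 4) / 2) →
    (t / |σ|) ^ K₀ ≤ M' → M' ≤ 2 * (t / |σ|) ^ K₀ →
    (∀ h : NeZero M', gau d M' v {V | ¬ FlatE ε z μ V} ≤ ENNReal.ofReal p) → 0 ≤ p →
    p ≤ (|σ| / t) ^ A₀ →
      ∃ (n ρ J : ℕ) (s : ℝ), 1 ≤ s ∧ s ≤ K * L ∧ 1 ≤ ρ ∧ (ρ : ℝ) ≤ (t / |σ|) ^ K₀ ∧ 1 ≤ J ∧
        (J : ℝ) ≤ K * L ∧ 1 ≤ n ∧ (n : ℝ) ≤ (t / |σ|) ^ (2 * d) ∧
        (K * σ ^ 2 * growth d t * Real.sqrt lam * L ^ (d + 4)) ^ (-(d : ℝ)) ≤ n ∧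
        ∀ (N : ℕ) (b : Site d), box b ρ ⊆ box 0 N →
          PP d (gl σ) {V | ¬ n ≤ (rch V (box 0 N) (z - lam) s b ρ J).card} ≤
            ENNReal.ofReal (3 * (|σ| / t) ^ A₀)

/-- PIE: the final bound. Proof: `CpeStmt` with `A₀ = 2 d + 1`, `CrgStmt` with `q = 3 (|σ| / t)^{2d+1}`,
`q n ≤ 1`; `|z - lam| ≤ 2 d + 2`: `p < 1`, so some `V` has `FlatE`, and then `z > 2 d - 1` (the
quadratic form of `AM z V` at the constant function). -/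
def PieStmt : Prop :=
  ∀ d : ℕ, 3 ≤ d → ∃ K₀ : ℝ, 1 ≤ K₀ ∧ ∀ Kε : ℝ, 1 ≤ Kε → ∃ c K : ℝ, 0 < c ∧
    c ≤ 1 / 4 ∧ 1 ≤ K ∧ ∀ (M' : ℕ) (v : ℝ≥0) (σ t z μ ε p lam L g : ℝ), σ ≠ 0 → |σ| ≤ c →
    (v : ℝ) = σ ^ 2 → K ≤ t → L = Real.log (1 / |σ|) + Real.log t → z ≤ 2 * d + 1 →
    10 * t ≤ μ → μ ≤ 12 * t → 50 / t ≤ lam → lam ≤ 100 / t → 0 < ε →
    ε ^ 2 ≤ Kε * L * σ ^ 2 * growth d t →
    K * σ ^ 2 * growth d t ^ 2 * L ^ (2 * d + 10) ≤ lam ^ (((d : ℝ) - 4) / 2) →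
    (t / |σ|) ^ K₀ ≤ M' → M' ≤ 2 * (t / |σ|) ^ K₀ →
    (∀ h : NeZero M', gau d M' v {V | ¬ FlatE ε z μ V} ≤ ENNReal.ofReal p) → 0 ≤ p →
    p ≤ (|σ| / t) ^ (2 * (d : ℝ) + 1) → LyaAt d σ (z - lam) g →
      g ≤ K * σ ^ 2 * growth d t * Real.sqrt lam * L ^ (d + 6)

end Pool.Agent.LE.IR
end
end -- Pool.Agent.LE.StmtsJ

section -- Pool.Agent.Helper54_LIR.CPEa

/-!
# CPE, part a: numbers
-/

set_option autoImplicit false

open MeasureTheory ProbabilityTheory Function Filter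

open scoped ENNReal BigOperators Topology NNReal

noncomputable section

namespace Pool.Agent.LE.IR.H54

open Pool.Agent.Anderson hiding box mem_box card_box
open Pool.Agent.Loc Pool.Agent.Mob Pool.Agent.Helper54.Bal
  Pool.Agent.Helper96.EXP Pool.Agent.BED
open Pool.Agent.LE.MN Pool.Agent.LE.CL

/-- the power `lam^{(d-4)/2}` -/
theorem pw_le {d : ℕ} {t lam : ℝ} (hd : 3 ≤ d) (ht : 100 ≤ t) (h1 : 50 / t ≤ lam)
    (h2 : lam ≤ 100 / t) : lam ^ (((d : ℝ) - 4) / 2) ≤ growth d t := by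
  have ht0 : 0 < t := by linarith only [ht]
  have hl0 : 0 < lam := lt_of_lt_of_le (by positivity) h1
  have hl1 : lam ≤ 1 := h2.trans (by rw [div_le_one ht0]; exact ht)
  by_cases h4 : 4 ≤ d
  · have h4' : (4 : ℝ) ≤ d := by exact_mod_cast h4
    exact (Real.rpow_le_one hl0.le hl1 (by linarith only [h4'])).trans (one_le_growth d (by linarith only [ht]))
  · have h3 : d = 3 := by omega
    subst h3
    have h5 : 1 / t ≤ lam := by
      refine le_trans ?_ h1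
      gcongr
      norm_num
    have h6 : 1 / lam ≤ t := by
      rw [div_le_iff₀ hl0]
      rw [div_le_iff₀ ht0] at h5
      linarith only [h5]
    unfold growth
    rw [if_pos rfl]
    have h7 : lam ^ ((((3 : ℕ) : ℝ) - 4) / 2) = Real.sqrt (1 / lam) := by
      rw [Real.sqrt_eq_rpow, one_div, Real.inv_rpow hl0.le, ← Real.rpow_neg hl0.le]
      congr 1
      norm_num
    rw [h7]
    exact Real.sqrt_le_sqrt h6

theorem pw_mul {d : ℕ} {lam : ℝ} (h : 0 < lam) :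
    lam ^ (((d : ℝ) - 2) / 2) = lam ^ (((d : ℝ) - 4) / 2) * lam := by
  nth_rw 3 [← Real.rpow_one lam]
  rw [← Real.rpow_add h]
  congr 1
  ring

theorem pw_mul2 {d : ℕ} {lam : ℝ} (h : 0 < lam) :
    lam ^ ((d : ℝ) / 2) = lam ^ (((d : ℝ) - 4) / 2) * lam ^ 2 := by
  rw [← Real.rpow_natCast, ← Real.rpow_add h]
  congr 1
  push_cast
  ring

/-- small number of steps -/
theorem exists_ns {c lam : ℝ} (hc : 0 < c) (hc1 : c ≤ 1) (hl : 0 < lam)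
    (hl2 : lam ≤ c ^ 2 / 4) :
    ∃ n : ℕ, 1 ≤ n ∧ (n : ℝ) ≤ 1 / lam ∧ lam * (n * (1 + Real.log n)) ≤ c ∧
      1 / (n : ℝ) ≤ 2 / c * lam * (1 + Real.log (1 / lam)) := by
  have hl1 : lam ≤ 1 := by nlinarith only [hc, hc1, hl2]
  have hL0 : 0 ≤ Real.log (1 / lam) := Real.log_nonneg (by rw [le_div_iff₀ hl]; linarith only [hl1])
  set D : ℝ := 1 + Real.log (1 / lam) with hD
  have hD1 : 1 ≤ D := by linarith only [hL0]
  have hs0 : 0 < Real.sqrt lam := Real.sqrt_pos.2 hl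
  have hss : Real.sqrt lam * Real.sqrt lam = lam := Real.mul_self_sqrt hl.le
  have hsc : Real.sqrt lam ≤ c / 2 := by
    rw [Real.sqrt_le_left (by positivity)]
    calc lam ≤ c ^ 2 / 4 := hl2
      _ = (c / 2) ^ 2 := by ring
  have h1 : Real.log (1 / lam) ≤ 2 * (1 / Real.sqrt lam - 1) := by
    have h2 : (1 / lam : ℝ) = (1 / Real.sqrt lam) ^ 2 := by
      rw [div_pow, one_pow, sq, hss]
    rw [h2, Real.log_pow]
    have h3 := Real.log_le_sub_one_of_pos (show 0 < 1 / Real.sqrt lam by positivity)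
    push_cast
    linarith only [h3]
  have h2 : lam * D ≤ c := by
    have h3 : lam * D ≤ lam * (2 * (1 / Real.sqrt lam)) := by
      refine mul_le_mul_of_nonneg_left ?_ hl.le
      linarith only [hc1, hs0, hsc, h1]
    refine h3.trans ?_
    have h4 : lam * (2 * (1 / Real.sqrt lam)) = 2 * Real.sqrt lam := by
      have : lam * (2 * (1 / Real.sqrt lam)) = 2 * (lam / Real.sqrt lam) := by ring
      rw [this]
      congr 1
      rw [div_eq_iff hs0.ne', hss]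
    rw [h4]
    linarith only [hsc]
  set x : ℝ := c / (lam * D) with hx
  have hlD : 0 < lam * D := by positivity
  have hx1 : 1 ≤ x := by
    rw [hx, le_div_iff₀ hlD]
    linarith only [h2]
  have hf1 : (⌊x⌋₊ : ℝ) ≤ x := Nat.floor_le (by linarith only [hc1, hs0, hsc, hx1])
  have hf2 : x / 2 ≤ (⌊x⌋₊ : ℝ) := by
    have h3 : x < ⌊x⌋₊ + 1 := Nat.lt_floor_add_one _
    have h4 : 1 ≤ ⌊x⌋₊ := by
      rw [Nat.one_le_floor_iff]
      exact hx1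
    have h5 : (1 : ℝ) ≤ (⌊x⌋₊ : ℝ) := by exact_mod_cast h4
    linarith only [h3, h5]
  have hn1 : 1 ≤ ⌊x⌋₊ := by
    rw [Nat.one_le_floor_iff]
    exact hx1
  have hn1' : (1 : ℝ) ≤ (⌊x⌋₊ : ℝ) := by exact_mod_cast hn1
  have hxl : x ≤ 1 / lam := by
    rw [hx, div_le_div_iff₀ hlD hl]
    nlinarith only [hc, hc1, hl, hL0, hss]
  refine ⟨⌊x⌋₊, hn1, hf1.trans hxl, ?_, ?_⟩
  · have h3 : Real.log (⌊x⌋₊ : ℝ) ≤ Real.log (1 / lam) :=
      Real.log_le_log (by linarith only [hc1, hs0, hsc, hn1']) (hf1.trans hxl)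
    calc lam * ((⌊x⌋₊ : ℝ) * (1 + Real.log (⌊x⌋₊ : ℝ))) ≤ lam * (x * D) := by
          gcongr
          linarith only [h3]
      _ = c := by
          rw [hx]
          field_simp
  · have h3 : 1 / (⌊x⌋₊ : ℝ) ≤ 1 / (x / 2) := by
      gcongr
    refine h3.trans (le_of_eq ?_)
    rw [hx]
    field_simp

/-- the lowest momenta -/
theorem card_low_le (d M J : ℕ) [NeZero M] : (low d M J).card ≤ (2 * J + 1) ^ d := by
  classical
  set S : Finset (ZMod M) := Finset.univ.filter fun a => a.valMinAbs.natAbs ≤ J with hS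
  have h1 : low d M J = Fintype.piFinset fun _ : Fin d => S := by
    ext p
    simp [low, hS]
  have h2 : S.card ≤ 2 * J + 1 := by
    have h3 : S ⊆ (Finset.Icc (-(J : ℤ)) J).image fun n : ℤ => (n : ZMod M) := by
      intro a ha
      rw [hS, Finset.mem_filter] at ha
      rw [Finset.mem_image]
      refine ⟨a.valMinAbs, ?_, ZMod.coe_valMinAbs a⟩
      rw [Finset.mem_Icc]
      have := ha.2
      omega
    refine (Finset.card_le_card h3).trans (Finset.card_image_le.trans (le_of_eq ?_))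
    rw [Int.card_Icc]
    omega
  rw [h1, Fintype.card_piFinset, Finset.prod_const, Finset.card_univ, Fintype.card_fin]
  exact Nat.pow_le_pow_left h2 d

theorem ds_low {d M J : ℕ} [NeZero M] {lam : ℝ} (hJ : (J : ℝ) ^ 2 ≤ lam * (M : ℝ) ^ 2)
    {p : Tor d M} (hp : p ∈ low d M J) : ds p ≤ 40 * d * lam := by
  have hM0 : 0 < (M : ℝ) := by exact_mod_cast Nat.pos_of_ne_zero (NeZero.ne M)
  have h1 : ∀ i : Fin d, 2 * (1 - Real.cos (2 * Real.pi * ((p i).valMinAbs : ℝ) / M)) ≤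
      40 * lam := by
    intro i
    have h2 : (p i).valMinAbs.natAbs ≤ J := by
      have := Finset.mem_filter.1 hp
      exact this.2 i
    have h3 : ((p i).valMinAbs : ℝ) ^ 2 ≤ (J : ℝ) ^ 2 := by
      have h4 : ((p i).valMinAbs.natAbs : ℝ) ≤ J := by exact_mod_cast h2
      have h5 : (((p i).valMinAbs.natAbs : ℕ) : ℝ) = |((p i).valMinAbs : ℝ)| := by
        rw [Nat.cast_natAbs, Int.cast_abs]
      rw [h5] at h4
      rw [← sq_abs]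
      gcongr
    have h6 := Real.one_sub_sq_div_two_le_cos (x := 2 * Real.pi * ((p i).valMinAbs : ℝ) / M)
    have h7 : (2 * Real.pi * ((p i).valMinAbs : ℝ) / M) ^ 2 =
        4 * Real.pi ^ 2 * (((p i).valMinAbs : ℝ) ^ 2 / (M : ℝ) ^ 2) := by
      field_simp
      ring
    have h8 : ((p i).valMinAbs : ℝ) ^ 2 / (M : ℝ) ^ 2 ≤ lam := by
      rw [div_le_iff₀ (by positivity)]
      exact h3.trans hJ
    have hlam : 0 ≤ lam := le_trans (by positivity) h8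
    have h9 : 4 * Real.pi ^ 2 ≤ 40 := by
      have := Real.pi_lt_d4
      have h0 := Real.pi_pos
      nlinarith only [this, h0]
    have h10 : (2 * Real.pi * ((p i).valMinAbs : ℝ) / M) ^ 2 ≤ 40 * lam := by
      rw [h7]
      have h11 : (0 : ℝ) ≤ ((p i).valMinAbs : ℝ) ^ 2 / (M : ℝ) ^ 2 := by positivity
      calc 4 * Real.pi ^ 2 * (((p i).valMinAbs : ℝ) ^ 2 / (M : ℝ) ^ 2)
          ≤ 40 * (((p i).valMinAbs : ℝ) ^ 2 / (M : ℝ) ^ 2) := by gcongr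
        _ ≤ 40 * lam := by gcongr
    linarith only [h6, h10]
  unfold ds
  calc ∑ i, 2 * (1 - Real.cos (2 * Real.pi * ((p i).valMinAbs : ℝ) / M))
      ≤ ∑ _i : Fin d, 40 * lam := Finset.sum_le_sum fun i _ => h1 i
    _ = 40 * d * lam := by
        rw [Finset.sum_const, Finset.card_univ, Fintype.card_fin, nsmul_eq_mul]
        ring

theorem pm_low_le {d M J : ℕ} [NeZero M] {lam l η B : ℝ} (hη : 0 < η)
    (hJ : (J : ℝ) ^ 2 ≤ lam * (M : ℝ) ^ 2)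
    (h : pm (fun p : Tor d M => if ds p ≤ 40 * d * lam then (mt l η p)⁻¹ else 0) ≤ B) :
    pm (fun p : Tor d M => if p ∈ low d M J then (mt l η p)⁻¹ else 0) ≤ B := by
  refine le_trans ?_ h
  unfold pm
  refine div_le_div_of_nonneg_right (Finset.sum_le_sum fun p _ => ?_) (by positivity)
  have h0 : 0 ≤ (mt l η p)⁻¹ := by
    unfold mt
    positivity
  by_cases hp : p ∈ low d M J
  · rw [if_pos hp, if_pos (ds_low hJ hp)]
  · rw [if_neg hp]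
    split_ifs <;> simp [h0]

/-- the density of the lowest momenta -/
theorem dens_low {d M J : ℕ} [NeZero M] {lam : ℝ} (hl : 0 < lam)
    (hJ : (J : ℝ) ≤ Real.sqrt lam * M) (h1 : 1 ≤ Real.sqrt lam * M) :
    ((low d M (2 * J)).card : ℝ) / (M : ℝ) ^ d ≤
      5 ^ d * (lam ^ (((d : ℝ) - 4) / 2) * lam ^ 2) := by
  have hM0 : 0 < (M : ℝ) := by exact_mod_cast Nat.pos_of_ne_zero (NeZero.ne M)
  have h2 : ((low d M (2 * J)).card : ℝ) ≤ (5 * (Real.sqrt lam * M)) ^ d := by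
    have h3 : ((low d M (2 * J)).card : ℝ) ≤ ((2 * (2 * J) + 1 : ℕ) : ℝ) ^ d := by
      exact_mod_cast card_low_le d M (2 * J)
    refine h3.trans ?_
    gcongr
    push_cast
    linarith only [hJ, h1]
  rw [div_le_iff₀ (by positivity)]
  refine h2.trans (le_of_eq ?_)
  rw [← pw_mul2 hl, mul_pow, mul_pow, Real.sqrt_eq_rpow, ← Real.rpow_natCast (lam ^ (1 / 2 : ℝ)),
    ← Real.rpow_mul hl.le]
  rw [show (1 / 2 : ℝ) * (d : ℝ) = (d : ℝ) / 2 by ring]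
  ring

end Pool.Agent.LE.IR.H54
end
end -- Pool.Agent.Helper54_LIR.CPEa

section -- Pool.Agent.Helper54_LIR.CPEb

/-!
# CPE, part b: the events
-/

set_option autoImplicit false

open MeasureTheory ProbabilityTheory Function Filter

open scoped ENNReal BigOperators Topology NNReal

noncomputable section

namespace Pool.Agent.LE.IR.H54

open Pool.Agent.Anderson hiding box mem_box card_box
open Pool.Agent.Loc Pool.Agent.Mob Pool.Agent.Helper54.Bal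
  Pool.Agent.Helper96.EXP Pool.Agent.BED
open Pool.Agent.LE.MN Pool.Agent.LE.CL

theorem law_le {d M : ℕ} [NeZero M] {σ : ℝ} (hσ : σ ≠ 0) {v : ℝ≥0} (hv : (v : ℝ) = σ ^ 2)
    (b : Site d) (P : (Tor d M → ℝ) → Prop) {q : ℝ≥0∞} (hP : gau d M v {V | ¬ P V} ≤ q) :
    PP d (gl σ) {V | ¬ P (fun x : Tor d M => V (b + rep x))} ≤ q := by
  set f : (Site d → ℝ) → (Tor d M → ℝ) := fun V x => V (b + rep x) with hf
  have hfm : Measurable f := measurable_pi_lambda _ fun x => measurable_pi_apply _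
  have h1 : {V : Site d → ℝ | ¬ P (fun x : Tor d M => V (b + rep x))} = f ⁻¹' {U | ¬ P U} := rfl
  rw [h1]
  refine (Measure.le_map_apply hfm.aemeasurable _).trans ?_
  have h4 := H73.lawT d M (Site d → ℝ) (PP d (gl σ)) (H86.xi σ b) (H86.measurable_xi σ b)
    (H86.map_xi hσ b) (H86.indep_xi b) σ v hv
  have h5 : (fun (V : Site d → ℝ) (x : Tor d M) => σ * H86.xi σ b (rep x) V) = f := by
    funext V x
    simp only [H86.xi, hf]
    field_simp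
  rw [h5] at h4
  rw [h4]
  exact hP

/-- three events on the torus -/
theorem gau3 {d M : ℕ} [NeZero M] {v : ℝ≥0} (P₁ P₂ P₃ : (Tor d M → ℝ) → Prop) {q₁ q₂ q₃ : ℝ}
    (h₁ : 0 ≤ q₁) (h₂ : 0 ≤ q₂) (h₃ : 0 ≤ q₃)
    (H₁ : gau d M v {V | ¬ P₁ V} ≤ ENNReal.ofReal q₁)
    (H₂ : gau d M v {V | ¬ P₂ V} ≤ ENNReal.ofReal q₂)
    (H₃ : gau d M v {V | ¬ P₃ V} ≤ ENNReal.ofReal q₃) :
    gau d M v {V | ¬ (P₁ V ∧ P₂ V ∧ P₃ V)} ≤ ENNReal.ofReal (q₁ + q₂ + q₃) := by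
  have hsub : {V | ¬ (P₁ V ∧ P₂ V ∧ P₃ V)} ⊆ ({V | ¬ P₁ V} ∪ {V | ¬ P₂ V}) ∪ {V | ¬ P₃ V} := by
    intro V hV
    by_contra hcon
    simp only [Set.mem_union, not_or, Set.mem_ofPred_eq, not_not] at hcon
    exact hV ⟨hcon.1.1, hcon.1.2, hcon.2⟩
  refine (measure_mono hsub).trans ((measure_union_le _ _).trans ?_)
  rw [ENNReal.ofReal_add (by positivity) h₃, ENNReal.ofReal_add h₁ h₂]
  exact add_le_add ((measure_union_le _ _).trans (add_le_add H₁ H₂)) H₃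

/-- the bad events -/
theorem badE {d M : ℕ} [NeZero M] {σ : ℝ} (hσ : σ ≠ 0) {v : ℝ≥0} (hv : (v : ℝ) = σ ^ 2)
    (E a q : ℝ) (N R : ℕ) (b : Site d)
    (P : (Tor d M → ℝ) → Prop) (hq : 0 ≤ q) (hP : gau d M v {V | ¬ P V} ≤ ENNReal.ofReal q) :
    PP d (gl σ) {V | ¬ ((RM V (box 0 N) E).det ≠ 0 ∧
      (∀ x ∈ box b (R + 1), ∀ y ∈ box b (R + 1), |gr V (box 0 N) E x y| ≤ Real.exp a) ∧
        P (fun x : Tor d M => V (b + rep x)))} ≤
      ENNReal.ofReal ((2 * R + 3 : ℝ) ^ (2 * d) * (6 * (1 / |σ|) / Real.exp a) + q) := by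
  have hν := bddDens_gl hσ
  have hs : 0 < |σ| := abs_pos.2 hσ
  have hP' := law_le hσ hv b P hP
  set S := box b (R + 1) with hS
  have hcard : (S.card : ℝ) = (2 * R + 3 : ℝ) ^ d := by
    rw [hS, card_box]
    push_cast
    ring_nf
  have hsub : {V : Site d → ℝ | ¬ ((RM V (box 0 N) E).det ≠ 0 ∧
      (∀ x ∈ S, ∀ y ∈ S, |gr V (box 0 N) E x y| ≤ Real.exp a) ∧
        P (fun x : Tor d M => V (b + rep x)))} ⊆
      {V | (RM V (box 0 N) E).det = 0} ∪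
        ((⋃ x ∈ S, ⋃ y ∈ S, {V | Real.exp a < |gr V (box 0 N) E x y|}) ∪
          {V | ¬ P (fun x : Tor d M => V (b + rep x))}) := by
    intro V hV
    by_contra hcon
    simp only [Set.mem_union, not_or, Set.mem_iUnion, Set.mem_ofPred_eq, not_exists, not_not,
      exists_prop] at hcon
    obtain ⟨h1, h3, h4⟩ := hcon
    apply hV
    exact ⟨h1, fun x hx y hy => not_lt.1 fun h => h3 x ⟨hx, y, hy, h⟩, h4⟩
  have p1 : PP d (gl σ) {V | (RM V (box 0 N) E).det = 0} = 0 := Pool.Agent.LE.H54.PP_det hν _ _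
  have p3 : PP d (gl σ) (⋃ x ∈ S, ⋃ y ∈ S, {V | Real.exp a < |gr V (box 0 N) E x y|}) ≤
      ENNReal.ofReal ((2 * R + 3 : ℝ) ^ (2 * d) * (6 * (1 / |σ|) / Real.exp a)) := by
    refine (measure_biUnion_finset_le _ _).trans ?_
    refine (Finset.sum_le_sum fun x _ => (measure_biUnion_finset_le _ _).trans
      (Finset.sum_le_sum fun y _ => Pool.Agent.LE.H54.PP_weak hν _ E x y (Real.exp_pos a))).trans
        (le_of_eq ?_)
    rw [Finset.sum_const, Finset.sum_const, nsmul_eq_mul, nsmul_eq_mul,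
      ← ENNReal.ofReal_natCast, ← ENNReal.ofReal_mul (Nat.cast_nonneg _),
      ← ENNReal.ofReal_mul (Nat.cast_nonneg _), hcard]
    congr 1
    ring
  refine (measure_mono hsub).trans ((measure_union_le _ _).trans ?_)
  rw [p1, zero_add]
  refine (measure_union_le _ _).trans ?_
  rw [ENNReal.ofReal_add (by positivity) hq]
  exact add_le_add p3 hP'

theorem exp_rpow {L a : ℝ} : Real.exp L ^ a = Real.exp (a * L) := by
  rw [← Real.exp_mul]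
  congr 1
  ring

/-- the application of `FloStmt` -/
theorem flo_app {d : ℕ} {C : ℝ} (hC : 1 ≤ C)
    (hflo : ∀ (M J : ℕ) [NeZero M] (v : ℝ≥0) (z μ ε p r q : ℝ),
    0 < μ → 0 < ε → ε ≤ 1 / 50 → 0 < v → 0 ≤ p → 0 < r → r ≤ ε →
    gau d M v {V | ¬ FlatE ε z μ V} ≤ ENNReal.ofReal p →
    q = p + 2 * (M : ℝ) ^ d *
      Real.exp (-(r ^ 2 / (C * v * ε ^ 2 * μ ^ 2 * ((low d M J).card / (M : ℝ) ^ d)))) →
    q ≤ 1 / 4 → 4 * v * μ ^ 2 < ε ^ 2 * (M : ℝ) ^ d →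
      ∃ w : ℝ, |w - 1| ≤ 3 * ε ∧
        gau d M v {V | ¬ ∀ x, |lpf J (fun y => om z μ V y - w - gv (1 / μ) V y) x| ≤ r} ≤
          ENNReal.ofReal q)
    (M J : ℕ) [NeZero M] (v : ℝ≥0) (z μ ε p L m K₀ A₀ : ℝ) (hμ : 0 < μ) (hε : 0 < ε)
    (hε1 : ε ≤ 1 / 50) (hv : 0 < v) (hp : 0 ≤ p) (hL : 0 < L) (hm : m = d * K₀ + A₀ + 2)
    (hM : (M : ℝ) ≤ 2 * Real.exp (K₀ * L)) (hL2 : (2 : ℝ) ^ (d + 3) ≤ Real.exp (2 * L))
    (hA : 5 ≤ Real.exp (A₀ * L)) (hm0 : 0 < m)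
    (hpA : p ≤ Real.exp (-(A₀ * L)))
    (hprob : gau d M v {V | ¬ FlatE ε z μ V} ≤ ENNReal.ofReal p)
    (hr : m * L * (C * v * μ ^ 2 * ((low d M J).card / (M : ℝ) ^ d)) ≤ 1)
    (hv2 : 4 * v * μ ^ 2 < ε ^ 2 * (M : ℝ) ^ d) :
      ∃ w r : ℝ, |w - 1| ≤ 3 * ε ∧ 0 ≤ r ∧
        r ^ 2 = m * L * (C * v * ε ^ 2 * μ ^ 2 * ((low d M J).card / (M : ℝ) ^ d)) ∧
        gau d M v {V | ¬ ∀ x, |lpf J (fun y => om z μ V y - w - gv (1 / μ) V y) x| ≤ r} ≤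
          ENNReal.ofReal (p + Real.exp (-(A₀ * L)) / 4) := by
  have hM0 : 0 < (M : ℝ) := by exact_mod_cast Nat.pos_of_ne_zero (NeZero.ne M)
  have hv' : 0 < (v : ℝ) := by exact_mod_cast hv
  have hcard : 0 < ((low d M J).card : ℝ) := by
    have h1 : (0 : Tor d M) ∈ low d M J := by
      simp [low]
    exact_mod_cast Finset.card_pos.2 ⟨0, h1⟩
  set D : ℝ := (low d M J).card / (M : ℝ) ^ d with hD
  have hD0 : 0 < D := by positivity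
  set W : ℝ := C * v * ε ^ 2 * μ ^ 2 * D with hW
  have hC0 : 0 < C := by linarith only [hC, hε, hε1]
  have hW0 : 0 < W := by positivity
  set r : ℝ := Real.sqrt (m * L * W) with hr'
  have hr2 : r ^ 2 = m * L * W := Real.sq_sqrt (by positivity)
  have hr0 : 0 < r := Real.sqrt_pos.2 (by positivity)
  have hrε : r ≤ ε := by
    rw [hr', Real.sqrt_le_left hε.le]
    calc m * L * W = (m * L * (C * v * μ ^ 2 * D)) * ε ^ 2 := by rw [hW]; ring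
      _ ≤ 1 * ε ^ 2 := by gcongr
      _ = ε ^ 2 := one_mul _
  have hq : 2 * (M : ℝ) ^ d * Real.exp (-(r ^ 2 / W)) ≤ Real.exp (-(A₀ * L)) / 4 := by
    have h1 : r ^ 2 / W = m * L := by
      rw [hr2]
      field_simp
    rw [h1]
    have h2 : (M : ℝ) ^ d ≤ 2 ^ d * Real.exp (d * (K₀ * L)) := by
      calc (M : ℝ) ^ d ≤ (2 * Real.exp (K₀ * L)) ^ d := by gcongr
        _ = 2 ^ d * Real.exp (d * (K₀ * L)) := by rw [mul_pow, ← Real.exp_nat_mul]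
    have h3 : Real.exp (d * (K₀ * L)) * Real.exp (-(m * L)) =
        Real.exp (-(A₀ * L)) * Real.exp (-(2 * L)) := by
      rw [← Real.exp_add, ← Real.exp_add, hm]
      congr 1
      ring
    have h4 : (2 : ℝ) ^ (d + 3) * Real.exp (-(2 * L)) ≤ 1 := by
      rw [Real.exp_neg]
      rw [mul_inv_le_iff₀ (Real.exp_pos _)]
      linarith only [hL2]
    calc 2 * (M : ℝ) ^ d * Real.exp (-(m * L))
        ≤ 2 * (2 ^ d * Real.exp (d * (K₀ * L))) * Real.exp (-(m * L)) := by gcongr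
      _ = 2 * 2 ^ d * (Real.exp (d * (K₀ * L)) * Real.exp (-(m * L))) := by ring
      _ = (2 ^ (d + 3) * Real.exp (-(2 * L))) * Real.exp (-(A₀ * L)) / 4 := by
          rw [h3]
          ring
      _ ≤ 1 * Real.exp (-(A₀ * L)) / 4 := by gcongr
      _ = Real.exp (-(A₀ * L)) / 4 := by ring
  have hA' : Real.exp (-(A₀ * L)) ≤ 1 / 5 := by
    rw [Real.exp_neg, ← one_div]
    gcongr
  obtain ⟨w, hw, hw2⟩ := hflo M J v z μ ε p r
    (p + 2 * (M : ℝ) ^ d * Real.exp (-(r ^ 2 / W))) hμ hε hε1 hv hp hr0 hrε hprob rfl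
    (by linarith only [hpA, hq, hA']) hv2
  exact ⟨w, r, hw, hr0.le, hr2, hw2.trans (ENNReal.ofReal_le_ofReal (by linarith only [hq]))⟩

/-- the application of `KhlStmt` -/
theorem khl_num {d : ℕ} {M J k : ℕ} {L m K₀ A₀ X r : ℝ}
    (hm : m = d * K₀ + A₀ + 2) (hM : (M : ℝ) ≤ 2 * Real.exp (K₀ * L))
    (hL2 : (2 : ℝ) ^ (d + 4) * 3 ^ d ≤ Real.exp (2 * L)) (hr : r ^ 2 = 2 * (m * L))
    (hk : m * L ≤ k) (hX : 0 ≤ X) (hX1 : X ≤ Real.exp (-1)) (hJ : (J : ℝ) ≤ M)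
    (hM1 : (1 : ℝ) ≤ M) :
    2 * (M : ℝ) ^ d * Real.exp (-(r ^ 2 / 2)) + (2 * (J : ℝ) + 1) ^ d * X ^ k ≤
      Real.exp (-(A₀ * L)) / 4 := by
  have h0 : r ^ 2 / 2 = m * L := by
    rw [hr]
    ring
  rw [h0]
  have h2 : (M : ℝ) ^ d ≤ 2 ^ d * Real.exp (d * (K₀ * L)) := by
    calc (M : ℝ) ^ d ≤ (2 * Real.exp (K₀ * L)) ^ d := by gcongr
      _ = 2 ^ d * Real.exp (d * (K₀ * L)) := by rw [mul_pow, ← Real.exp_nat_mul]
  have h3 : Real.exp (d * (K₀ * L)) * Real.exp (-(m * L)) =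
      Real.exp (-(A₀ * L)) * Real.exp (-(2 * L)) := by
    rw [← Real.exp_add, ← Real.exp_add, hm]
    congr 1
    ring
  have h4 : (2 : ℝ) ^ (d + 4) * 3 ^ d * Real.exp (-(2 * L)) ≤ 1 := by
    rw [Real.exp_neg]
    rw [mul_inv_le_iff₀ (Real.exp_pos _)]
    linarith only [hL2]
  have h5 : X ^ k ≤ Real.exp (-(m * L)) := by
    calc X ^ k ≤ (Real.exp (-1)) ^ k := by gcongr
      _ = Real.exp (-(k : ℝ)) := by
          rw [← Real.exp_nat_mul]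
          congr 1
          ring
      _ ≤ Real.exp (-(m * L)) := Real.exp_le_exp.2 (by linarith only [hk])
  have h6 : (2 * (J : ℝ) + 1) ^ d ≤ 3 ^ d * (M : ℝ) ^ d := by
    rw [← mul_pow]
    gcongr
    linarith only [hJ, hM1]
  have h7 : (1 : ℝ) ≤ 3 ^ d := one_le_pow₀ (by norm_num)
  have h8 : 0 < Real.exp (-(m * L)) := Real.exp_pos _
  have h9 : (0 : ℝ) ≤ (M : ℝ) ^ d := by positivity
  calc 2 * (M : ℝ) ^ d * Real.exp (-(m * L)) + (2 * (J : ℝ) + 1) ^ d * X ^ k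
      ≤ 2 * (M : ℝ) ^ d * Real.exp (-(m * L)) + (3 ^ d * (M : ℝ) ^ d) * Real.exp (-(m * L)) := by
        gcongr
    _ ≤ 4 * 3 ^ d * (M : ℝ) ^ d * Real.exp (-(m * L)) := by
        have h10 : 0 ≤ (M : ℝ) ^ d * Real.exp (-(m * L)) := by positivity
        nlinarith only [h7, h10]
    _ ≤ 4 * 3 ^ d * (2 ^ d * Real.exp (d * (K₀ * L))) * Real.exp (-(m * L)) := by gcongr
    _ = 4 * 3 ^ d * 2 ^ d * (Real.exp (d * (K₀ * L)) * Real.exp (-(m * L))) := by ring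
    _ = (2 ^ (d + 4) * 3 ^ d * Real.exp (-(2 * L))) * Real.exp (-(A₀ * L)) / 4 := by
        rw [h3]
        ring
    _ ≤ 1 * Real.exp (-(A₀ * L)) / 4 := by gcongr
    _ = Real.exp (-(A₀ * L)) / 4 := by ring

end Pool.Agent.LE.IR.H54
end
end -- Pool.Agent.Helper54_LIR.CPEb
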