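import Pool.Agent.Helper12_MEB.B065
import Pool.Agent.Helper12_MEB.B075

/-!
# Merged copies (generated) of the modules

* `Pool.Agent.LE.StmtsIF`
* `Pool.Agent.Helper34_LIR.NLB`
-/

set_option autoImplicit false

section -- Pool.Agent.LE.StmtsIF

/-!
# The Lyapunov exponent between the effective band edge and the bulk, all dimensions

Variant of `CleStmt`, `CpeStmt`, `PieStmt` without the condition `K σ² G² L^{2 d + 10} ≤ lam^{(d-4)/2}`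
(which comes from `NumT.hΓ`: the local part `sfn` of the Green function must have less mass than the
extended part). The condition is replaced by `K σ² G L^{2 d + 10} ≤ 1`, and the bound for the
Lyapunov exponent is `K σ² G L^{d + 8}` instead of `K σ² G √lam L^{d + 6}`.

IDEA. Between two steps of links one may also move freely by `r₀ ≈ L / √lam` steps to neighbours (a step
to a neighbour is a link of a price at most `s = C L`, with high probability). So `C'` contains the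
sites at a distance at most `r₀` from the sites of `C`, and the local part `sfn x`, cut at the distance
`r₀`, lives in `C'` (Gaussian bound `CvbStmt`). Then `BleStmt` is used for `r x = g x - (sfn x cut)`
instead of `g x`, with `s = 0`, `Γ = 0`.
-/

set_option autoImplicit false

open MeasureTheory ProbabilityTheory Function Filter

open scoped ENNReal BigOperators Topology NNReal ComplexOrder

noncomputable section

namespace Pool.Agent.LE.IR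

open Pool.Agent.Anderson hiding box mem_box card_box
open Pool.Agent.Loc Pool.Agent.Mob Pool.Agent.Helper54.Bal
  Pool.Agent.Helper96.EXP Pool.Agent.BED
open Pool.Agent.LE.MN Pool.Agent.LE.CL

/-- CLF: the cluster of `b` is large, with free moves (deterministic). Proof: as `CleStmt`
(`Helper56_LIR/CLE.lean`), with these changes. `S_0 = {b}`,
`S_{j+1} = clu V Λ E s S_j (box b ((j + 1) R₁)) ∪ {y : sd x y ≤ r₀ for some x ∈ S_j}`, in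
`box b ((j + 1) R₁)` since `r₀ ≤ R₁`; there is `j < J` with `|S_{j+1}| ≤ 2 |S_j|`. `C`, `C'` = the images
of `S_j`, `S_{j+1}` (`4 R + 5 ≤ M`: `tds = sd` for sites of `box b R`). `χ(y) = exp (- κ' (sd b y - (j R₁ + r₀ + 1) : ℕ))`: the weight is `1` near all
points `y` with `sd x y ≤ r₀`, `x ∈ S_j`. `ψ x y = χ(y) gr x y` for `y ∈ S_{j+1}`, `0` otherwise,
`g x y = ψ x y / ω y`, `sc x y = sfn x y` if `tds x y ≤ r₀`, `0` otherwise, `r x = g x - sc x`: supported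
in `C'`. As in `CleStmt`, `aop (g x - sfn x) = Sfn x + ω F̃ + ω ẽ`,
`F̃ x y = - ∑_{z ~ y} (χ y / χ z - 1) ψ x z`; so `aop (r x) = Sfn x + ω F̃ + (ω ẽ + aop (sfn x - sc x))`.
If `χ y ≠ χ z`, `z ~ y`, then `sd b z ≥ j R₁ + r₀ + 1`, so `sc x z = 0` for `x ∈ S_j ⊆ box b (j R₁)`,
and `ψ x z = ω z (r x z)`: `F` is small relative to `r` (`φ = c_B η` for small `c'`). The tail:
`sfn x y = (8 d ω y)⁻¹ ∑_{j < n} (T^j) x y`, `T = T₀ + lam / (8 d)`, `n lam ≤ 1`,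
`|T₀^j x y| ≤ 2 e^{- tds² / (2 j)}` (`CvbStmt`, as in `FmoStmt`), so `|sfn x y| ≤ 4 n e^{-r₀² / (2 n)}` for
`tds x y > r₀`, and `sfn x y = 0` for `tds x y ≥ n`; with the hypothesis for `r₀²` the norm of
`aop (sfn x - sc x)` is as small as needed. So `SysT` with `g := r`, `s := 0`, `S = Sfn`, `κ = 1 / n`,
`Γ = 0`, `e0 = c_B η D₀`, the same `φ`, `β`, `D₀`, `b₀`; `NumT`: `hΓ` is trivial, and
`κ^{(d-4)/2} η ≤ D₀` follows from `η ≤ l (n l)^d` and `l ≤ κ`. `BleStmt`. Finally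
`S_{j+1} ⊆ rch … ((j + 1) (d r₀ + 1))`: a move by `r₀` in the sup norm is at most `d r₀` links to
neighbours (last hypothesis; all in `box b R`, and `R₁ ≤ R`). -/
def ClfStmt : Prop :=
  ∀ (d : ℕ) (A : ℝ), 3 ≤ d → 1 ≤ A → ∃ c₁ c c₂ C : ℝ, 0 < c₁ ∧ c₁ ≤ 1 ∧ 0 < c ∧ c ≤ 1 / 50 ∧
    0 < c₂ ∧ 1 ≤ C ∧ ∀ (M n N R R₁ r₀ J : ℕ) [NeZero M] (V : Site d → ℝ) (b : Site d)
    (z μ ε lam w l η τ s a T Kq : ℝ) (q : Tor d M → ℝ), z ≤ 2 * d + 1 → 0 < μ →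
    100 ≤ lam * μ → 0 < ε → ε ≤ c → |w - 1| ≤ 1 / 10 → l = lam - 1 / (μ * w) →
    FlatE ε z μ (fun x : Tor d M => V (b + rep x)) →
    FBd (om z μ fun x : Tor d M => V (b + rep x)) (1 / μ) lam w l η τ →
    1 ≤ n → n + 1 ≤ M ^ 2 → lam * (n * (1 + Real.log n)) ≤ c →
    0 < η → η ≤ c → η * (1 + Real.log (1 / η)) * n ≤ c → η * (1 / (n * l)) ^ d ≤ l → 0 ≤ τ →
    τ ^ 2 * (1 / (n : ℝ)) ^ (((d : ℝ) - 2) / 2) * (1 + Real.log (1 / η)) ≤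
      c * l ^ (((d : ℝ) - 2) / 2) →
    C / η ≤ M → c₁ / η ≤ T → T ≤ A * (c₁ / η) → 0 < Kq →
    TstT A (l ^ (((d : ℝ) - 2) / 2)) l T Kq (2 * R) q →
    4 * R + 5 ≤ M → box b (R + 2) ⊆ box 0 N → J * R₁ ≤ R → (2 * R + 1) ^ d < 2 ^ J →
    1 ≤ r₀ → 4 * r₀ ≤ R₁ → C * (1 + Real.log (1 / η) + Real.log R) * n ≤ (r₀ : ℝ) ^ 2 →
    0 ≤ a → C * (a + Real.log (1 / η) + Real.log R) ≤ η * R₁ →
    C * (1 + Real.log (1 / η) + Real.log R) ≤ s → (RM V (box 0 N) (z - lam)).det ≠ 0 →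
    (∀ x ∈ box b (R + 1), ∀ y ∈ box b (R + 1), |gr V (box 0 N) (z - lam) x y| ≤ Real.exp a) →
    (∀ x ∈ box b (R + 1), ∀ i : Fin d,
      Real.exp (-s) ≤ |gr V (box 0 N) (z - lam) x (x + Pi.single i 1)| ∧
      Real.exp (-s) ≤ |gr V (box 0 N) (z - lam) x (x - Pi.single i 1)|) →
      c₂ * l ^ (((d : ℝ) - 2) / 2) * η / Kq ^ 2 ≤
        (rch V (box 0 N) (z - lam) s b R (J * (d * r₀ + 1))).card

/-- NLB: neighbours are linked. Proof: `∫ |gz x y|^{-1/4} ≤ C |σ|^{-A}` for neighbours at complex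
energies (`low_marg`, `Helper54_LY/Low.lean`, `Helper54_LE/APG2.lean`) and at real energies as in
`cstB` (`lowPB`, `Helper28_LEW/OSCB.lean`); Markov. -/
def NlbStmt : Prop :=
  ∀ d : ℕ, 1 ≤ d → ∃ A C : ℝ, 1 ≤ A ∧ 1 ≤ C ∧ ∀ (σ E τ : ℝ) (N : ℕ) (x y : Site d), σ ≠ 0 →
    |σ| ≤ 1 → |E| ≤ 2 * d + 2 → 0 < τ → x ∈ box (0 : Site d) N → y ∈ box (0 : Site d) N →
    hop x y ≠ 0 →
      PP d (gl σ) {V | ¬ τ ≤ |gr V (box 0 N) E x y|} ≤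
        ENNReal.ofReal (C * |σ| ^ (-A) * τ ^ (1 / 4 : ℝ))

/-- CPF: the probability of the clusters, with free moves. Proof: as `CpeStmt`, with `ClfStmt` instead
of `CleStmt`: the same `τ`, `η = K₃ σ² G lam L^{d+4}`, `n_s = ⌊c / (lam (1 + log (1 / lam)))⌋`, `R₁`,
`s = C L`, and `r₀ = ⌈(C L n_s)^{1/2}⌉ ≤ C √(L / lam)`; `4 r₀ ≤ R₁ = ⌈C L / η⌉`, `η ≤ c lam`. The
number of the links is at most `J (d r₀ + 1) ≤ K L² / √lam`. One more event: some neighbours in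
`box b (R + 1)` are not linked: `NlbStmt` with `τ = e^{-s}`. The conditions `C δ₂ lam ≤ τ η` etc. only
need `K σ² G L^{2d+10} ≤ 1` (`G lam ≥ c lam^{(d-2)/2}`, `G^{1/2} lam^{d/4} ≤ C G lam`). -/
def CpfStmt : Prop :=
  ∀ d : ℕ, 3 ≤ d → ∃ K₀ : ℝ, 1 ≤ K₀ ∧ ∀ A₀ Kε : ℝ, 1 ≤ A₀ → 1 ≤ Kε → ∃ c K : ℝ, 0 < c ∧
    c ≤ 1 / 4 ∧ 1 ≤ K ∧ ∀ (M' : ℕ) (v : ℝ≥0) (σ t z μ ε p lam L : ℝ), σ ≠ 0 → |σ| ≤ c →
    (v : ℝ) = σ ^ 2 → K ≤ t → L = Real.log (1 / |σ|) + Real.log t → z ≤ 2 * d + 1 →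
    10 * t ≤ μ → μ ≤ 12 * t → 50 / t ≤ lam → lam ≤ 100 / t → 0 < ε →
    ε ^ 2 ≤ Kε * L * σ ^ 2 * growth d t →
    K * σ ^ 2 * growth d t * L ^ (2 * d + 10) ≤ 1 →
    (t / |σ|) ^ K₀ ≤ M' → M' ≤ 2 * (t / |σ|) ^ K₀ →
    (∀ h : NeZero M', gau d M' v {V | ¬ FlatE ε z μ V} ≤ ENNReal.ofReal p) → 0 ≤ p →
    p ≤ (|σ| / t) ^ A₀ →
      ∃ (n ρ J : ℕ) (s : ℝ), 1 ≤ s ∧ s ≤ K * L ∧ 1 ≤ ρ ∧ (ρ : ℝ) ≤ (t / |σ|) ^ K₀ ∧ 1 ≤ J ∧
        (J : ℝ) ≤ K * L ^ 2 / Real.sqrt lam ∧ 1 ≤ n ∧ (n : ℝ) ≤ (t / |σ|) ^ (2 * d) ∧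
        (K * σ ^ 2 * growth d t * Real.sqrt lam * L ^ (d + 4)) ^ (-(d : ℝ)) ≤ n ∧
        ∀ (N : ℕ) (b : Site d), box b ρ ⊆ box 0 N →
          PP d (gl σ) {V | ¬ n ≤ (rch V (box 0 N) (z - lam) s b ρ J).card} ≤
            ENNReal.ofReal (4 * (|σ| / t) ^ A₀)

/-- PIF: the final bound. Proof: as `PieStmt` (`Helper3_LIR/PIE.lean`): `CpfStmt` with
`A₀ = 2 d + 1`, `CrgStmt` with `q = 4 (|σ| / t)^{2d+1}`, `q n ≤ 1`;
`J (s + log (1 / |σ|) + log ρ) n^{-1/d} ≤ (K L² / √lam) (C L) (K σ² G √lam L^{d+4})`. -/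
def PifStmt : Prop :=
  ∀ d : ℕ, 3 ≤ d → ∃ K₀ : ℝ, 1 ≤ K₀ ∧ ∀ Kε : ℝ, 1 ≤ Kε → ∃ c K : ℝ, 0 < c ∧
    c ≤ 1 / 4 ∧ 1 ≤ K ∧ ∀ (M' : ℕ) (v : ℝ≥0) (σ t z μ ε p lam L g : ℝ), σ ≠ 0 → |σ| ≤ c →
    (v : ℝ) = σ ^ 2 → K ≤ t → L = Real.log (1 / |σ|) + Real.log t → z ≤ 2 * d + 1 →
    10 * t ≤ μ → μ ≤ 12 * t → 50 / t ≤ lam → lam ≤ 100 / t → 0 < ε →
    ε ^ 2 ≤ Kε * L * σ ^ 2 * growth d t →
    K * σ ^ 2 * growth d t * L ^ (2 * d + 10) ≤ 1 →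
    (t / |σ|) ^ K₀ ≤ M' → M' ≤ 2 * (t / |σ|) ^ K₀ →
    (∀ h : NeZero M', gau d M' v {V | ¬ FlatE ε z μ V} ≤ ENNReal.ofReal p) → 0 ≤ p →
    p ≤ (|σ| / t) ^ (2 * (d : ℝ) + 1) → LyaAt d σ (z - lam) g →
      g ≤ K * σ ^ 2 * growth d t * L ^ (d + 8)

end Pool.Agent.LE.IR
end
end -- Pool.Agent.LE.StmtsIF

section -- Pool.Agent.Helper34_LIR.NLB

/-!
Row NLB of table lir: neighbours are linked.
-/

set_option autoImplicit false

open scoped Topology ENNReal BigOperators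
open MeasureTheory Filter ProbabilityTheory

noncomputable section

namespace Pool.Agent.LE.IR.H34

open Pool.Agent.Anderson Pool.Agent.Loc Pool.Agent.Mob Pool.Agent.Helper54.Bal Pool.Agent.LY
  Pool.Agent.LE.H54 Pool.Agent.LE.H26U Pool.Agent.LE.H3W Pool.Agent.LE.H28W

theorem nlb : Pool.Agent.LE.IR.NlbStmt := by
  intro d hd
  have hB : (0 : ℝ) < 2 * d + 2 := by positivity
  obtain ⟨K, hK, hlow⟩ := lowPB hd hB
  refine ⟨((5 ^ d : ℕ) : ℝ), K + 1, ?_, by linarith, ?_⟩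
  · exact_mod_cast Nat.one_le_pow _ _ (by norm_num)
  intro σ E τ N x y hσ hσ1 hE hτ hx hy hxy
  have hs0 : 0 < |σ| := abs_pos.2 hσ
  have h1 := hlow σ E hσ hσ1 hE (Pool.Agent.Anderson.box (0 : Site d) N) x y hx hy (Or.inr hxy)
  have mg : Measurable fun V : Site d → ℝ => gr V (Pool.Agent.Anderson.box (0 : Site d) N) E x y :=
    measurable_gr _ E x y
  have mf : Measurable fun V : Site d → ℝ =>
      (ENNReal.ofReal |gr V (Pool.Agent.Anderson.box (0 : Site d) N) E x y|) ^ (-(1 / 4) : ℝ) := by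
    have h2 : Measurable fun V : Site d → ℝ =>
        ENNReal.ofReal |gr V (Pool.Agent.Anderson.box (0 : Site d) N) E x y| :=
      (mg.norm).ennreal_ofReal
    exact h2.pow_const _
  have h2 := lint_PP (ν := gl σ) (Pool.Agent.Anderson.box (0 : Site d) N) mf
    (fun V V' hV => by rw [gr_congr hV])
  have h3 := mul_meas_ge_le_lintegral (μ := PP d (gl σ)) mf ((ENNReal.ofReal τ) ^ (-(1 / 4) : ℝ))
  rw [h2] at h3
  have hsub : {V : Site d → ℝ | ¬ τ ≤ |gr V (Pool.Agent.Anderson.box (0 : Site d) N) E x y|} ⊆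
      {V | (ENNReal.ofReal τ) ^ (-(1 / 4) : ℝ) ≤
        (ENNReal.ofReal |gr V (Pool.Agent.Anderson.box (0 : Site d) N) E x y|) ^ (-(1 / 4) : ℝ)} := by
    intro V hV
    have hV' : ¬ τ ≤ |gr V (Pool.Agent.Anderson.box (0 : Site d) N) E x y| := hV
    rw [not_le] at hV'
    show (ENNReal.ofReal τ) ^ (-(1 / 4) : ℝ) ≤
        (ENNReal.ofReal |gr V (Pool.Agent.Anderson.box (0 : Site d) N) E x y|) ^ (-(1 / 4) : ℝ)
    rw [ENNReal.rpow_neg, ENNReal.rpow_neg]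
    exact ENNReal.inv_le_inv.2 (ENNReal.rpow_le_rpow (ENNReal.ofReal_le_ofReal hV'.le) (by norm_num))
  have hcpos : (ENNReal.ofReal τ) ^ (-(1 / 4) : ℝ) = ENNReal.ofReal (τ ^ (-(1 / 4) : ℝ)) := by
    rw [ENNReal.ofReal_rpow_of_pos hτ]
  have h4 : PP d (gl σ) {V | ¬ τ ≤ |gr V (Pool.Agent.Anderson.box (0 : Site d) N) E x y|} ≤
      PP d (gl σ) {V | (ENNReal.ofReal τ) ^ (-(1 / 4) : ℝ) ≤
        (ENNReal.ofReal |gr V (Pool.Agent.Anderson.box (0 : Site d) N) E x y|) ^ (-(1 / 4) : ℝ)} :=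
    measure_mono hsub
  have h5 : ENNReal.ofReal (τ ^ (-(1 / 4) : ℝ)) *
      PP d (gl σ) {V | ¬ τ ≤ |gr V (Pool.Agent.Anderson.box (0 : Site d) N) E x y|} ≤
      ENNReal.ofReal (K * (1 / |σ|) ^ (5 ^ d)) := by
    rw [← hcpos]
    exact (mul_le_mul_right h4 _).trans (h3.trans h1)
  have hτ4 : 0 < τ ^ (1 / 4 : ℝ) := Real.rpow_pos_of_pos hτ _
  have h6 : ENNReal.ofReal (τ ^ (1 / 4 : ℝ)) * (ENNReal.ofReal (τ ^ (-(1 / 4) : ℝ)) *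
      PP d (gl σ) {V | ¬ τ ≤ |gr V (Pool.Agent.Anderson.box (0 : Site d) N) E x y|}) =
      PP d (gl σ) {V | ¬ τ ≤ |gr V (Pool.Agent.Anderson.box (0 : Site d) N) E x y|} := by
    rw [← mul_assoc, ← ENNReal.ofReal_mul hτ4.le, ← Real.rpow_add hτ]
    norm_num
  calc PP d (gl σ) {V | ¬ τ ≤ |gr V (Pool.Agent.Anderson.box (0 : Site d) N) E x y|}
      = ENNReal.ofReal (τ ^ (1 / 4 : ℝ)) * (ENNReal.ofReal (τ ^ (-(1 / 4) : ℝ)) *
      PP d (gl σ) {V | ¬ τ ≤ |gr V (Pool.Agent.Anderson.box (0 : Site d) N) E x y|}) := h6.symm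
    _ ≤ ENNReal.ofReal (τ ^ (1 / 4 : ℝ)) * ENNReal.ofReal (K * (1 / |σ|) ^ (5 ^ d)) :=
        mul_le_mul_right h5 _
    _ = ENNReal.ofReal (τ ^ (1 / 4 : ℝ) * (K * (1 / |σ|) ^ (5 ^ d))) :=
        (ENNReal.ofReal_mul hτ4.le).symm
    _ ≤ ENNReal.ofReal ((K + 1) * |σ| ^ (-((5 ^ d : ℕ) : ℝ)) * τ ^ (1 / 4 : ℝ)) := by
        apply ENNReal.ofReal_le_ofReal
        have h8 : |σ| ^ (-((5 ^ d : ℕ) : ℝ)) = (1 / |σ|) ^ (5 ^ d) := by
          rw [Real.rpow_neg hs0.le, Real.rpow_natCast, one_div, inv_pow]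
        rw [h8]
        have hP : 0 < (1 / |σ|) ^ (5 ^ d) := by positivity
        have : K * (1 / |σ|) ^ (5 ^ d) ≤ (K + 1) * (1 / |σ|) ^ (5 ^ d) :=
          mul_le_mul_of_nonneg_right (by linarith) hP.le
        calc τ ^ (1 / 4 : ℝ) * (K * (1 / |σ|) ^ (5 ^ d))
            ≤ τ ^ (1 / 4 : ℝ) * ((K + 1) * (1 / |σ|) ^ (5 ^ d)) :=
              mul_le_mul_of_nonneg_left this hτ4.le
          _ = _ := by ring

end Pool.Agent.LE.IR.H34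
end
end -- Pool.Agent.Helper34_LIR.NLB
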