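import Pool.Agent.Helper12_MEB.B015
import Pool.Agent.Helper12_MEB.B037
import Pool.Agent.Helper12_MEB.B075

/-!
# Merged copies (generated) of the modules

* `Pool.Agent.Helper93_LSF.Expand`
* `Pool.Agent.Helper93_LSF.QMF`
* `Pool.Agent.Helper93_LSF.Torus`
* `Pool.Agent.Helper93_LSF.Inner`
* `Pool.Agent.Helper93_LSF.Inner2`
-/

set_option autoImplicit false

section -- Pool.Agent.Helper93_LSF.Expand

/-!
# Expansion of the effective band edge
-/

set_option autoImplicit false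

open MeasureTheory ProbabilityTheory Function Filter

open scoped ENNReal BigOperators Topology NNReal

noncomputable section

namespace Pool.Agent.LE.H93F

open Pool.Agent.Anderson Pool.Agent.Loc Pool.Agent.Mob Pool.Agent.BED Pool.Agent.LOC

/-- the position of the effective band edge, for any flat `z` at a scale `t ≥ |σ|^{-3}` -/
theorem expand (hUp : UpStmt.{0}) (hLow : LowStmt.{0}) (d : ℕ) (hd : 3 ≤ d) :
    ∃ c C : ℝ, 0 < c ∧ 0 < C ∧ ∀ (σ t p z μ : ℝ) (v : ℝ≥0) (r : ℕ), σ ≠ 0 → |σ| ≤ c →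
      |σ|⁻¹ ^ 3 ≤ t → (v : ℝ) = σ ^ 2 → 10 * t ≤ μ → 2 * t ≤ r → 0 ≤ p →
      p ≤ 1 / t ^ (8 * d + 3) → gau d (4 * r + 3) v {V | ¬ Flat z μ V} ≤ ENNReal.ofReal p →
        |z - (2 * d + watson d * σ ^ 2)| ≤ C * |σ| ^ (2 + 1 / (24 * d : ℝ)) := by
  obtain ⟨Cc, hCc, hcount⟩ := countAll d (by omega)
  obtain ⟨σ₂, hσ₂, hup⟩ := hUp d hd
  obtain ⟨σ₃, C₃, hσ₃, hC₃, hlow⟩ := hLow d hd
  have hG := watson_pos hd
  obtain ⟨G, hGdef⟩ : ∃ G : ℝ, G = watson d := ⟨_, rfl⟩
  rw [← hGdef] at hG hup hlow ⊢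
  obtain ⟨c, hc⟩ : ∃ c : ℝ, c = min (min (σ₂ / 2) (σ₃ / 2)) (min (1 / (1 + 4 * Cc)) (1 / 2)) :=
    ⟨_, rfl⟩
  have hc0 : 0 < c := by rw [hc]; positivity
  have hcC : c ≤ σ₂ / 2 := by
    rw [hc]; exact (min_le_left _ _).trans (min_le_left _ _)
  have hcD : c ≤ σ₃ / 2 := by
    rw [hc]; exact (min_le_left _ _).trans (min_le_right _ _)
  have hcF : c ≤ 1 / (1 + 4 * Cc) := by
    rw [hc]; exact (min_le_right _ _).trans (min_le_left _ _)
  have hcG : c ≤ 1 / 2 := by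
    rw [hc]; exact (min_le_right _ _).trans (min_le_right _ _)
  refine ⟨c, G + 1 + 4 * Cc + C₃, hc0, by positivity, ?_⟩
  intro σ t p z μ v r hσ hσc hwt hv hμ hr hp0 hp hgau
  obtain ⟨s, hs⟩ : ∃ s : ℝ, s = |σ| := ⟨_, rfl⟩
  rw [← hs] at hσc hwt ⊢
  have hs0 : 0 < s := by rw [hs]; exact abs_pos.2 hσ
  have hs2 : s ≤ 1 / 2 := hσc.trans hcG
  have hs1 : s ≤ 1 := by linarith only [hc0, hcG, hσc]
  have hss : s ^ 2 = σ ^ 2 := by rw [hs, sq_abs]
  have hsinv : 0 < s⁻¹ := by positivity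
  have hsinv2 : 2 ≤ s⁻¹ := by
    rw [le_inv_comm₀ (by norm_num) hs0]; linarith only [hcG, hσc]
  have hbig : 1 + 4 * Cc ≤ s⁻¹ := by
    rw [le_inv_comm₀ (by positivity) hs0]
    have := hσc.trans hcF
    rwa [one_div] at this
  have h8 : 8 ≤ s⁻¹ ^ 3 := by
    calc (8:ℝ) = 2 ^ 3 := by norm_num
      _ ≤ s⁻¹ ^ 3 := by gcongr
  have ht8 : 8 ≤ t := h8.trans hwt
  have ht0 : 0 < t := by linarith only [hwt, h8]
  have hμ0 : 0 < μ := by linarith only [hμ, hwt, h8]
  have hCA : CountAt d Cc r z μ := by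
    intro W hW x₀ L hL hH lam h1 h2 h3
    exact hcount (4 * r + 3) r le_rfl z μ W hμ0 hW x₀ L hL hH lam h1 h2 h3
  have hs3' : s ^ 3 ≤ s ^ (2 + 1 / (24 * d : ℝ)) := by
    have hd3 : (3:ℝ) ≤ d := by exact_mod_cast hd
    have h1 : 1 / (24 * d : ℝ) ≤ 1 := by
      rw [div_le_one (by positivity)]; linarith only [hd3]
    calc s ^ 3 = s ^ (3:ℝ) := by norm_cast
      _ ≤ s ^ (2 + 1 / (24 * d : ℝ)) :=
        Real.rpow_le_rpow_of_exponent_ge hs0 hs1 (by linarith only [h1])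
  have hsp : 0 < s ^ (2 + 1 / (24 * d : ℝ)) := Real.rpow_pos_of_pos hs0 _
  have hts : 1 / t ≤ s ^ 3 := by
    rw [div_le_iff₀ ht0]
    have h1 : s ^ 3 * s⁻¹ ^ 3 = 1 := by
      rw [← mul_pow, mul_inv_cancel₀ hs0.ne', one_pow]
    calc (1:ℝ) = s ^ 3 * s⁻¹ ^ 3 := h1.symm
      _ ≤ s ^ 3 * t := by gcongr
  have hpT : p ≤ s ^ (24 * d + 9) := by
    refine hp.trans ?_
    have h1 : (1 / t) ^ (8 * d + 3) ≤ (s ^ 3) ^ (8 * d + 3) :=
      pow_le_pow_left₀ (by positivity) hts _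
    rw [div_pow, one_pow, ← pow_mul] at h1
    refine h1.trans (le_of_eq ?_)
    congr 1
    ring
  have hp8 : p ≤ 1 / 8 := by
    refine hpT.trans ?_
    calc s ^ (24 * d + 9) ≤ s ^ 3 := pow_le_pow_of_le_one hs0.le hs1 (by omega)
      _ ≤ (1 / 2) ^ 3 := pow_le_pow_left₀ hs0.le hs2 3
      _ = 1 / 8 := by norm_num
  -- upper bound
  have hupper : z ≤ 2 * d + G * σ ^ 2 + G * s ^ (2 + 1 / (24 * d : ℝ)) + (1 + 4 * Cc) * s ^ 3 := by
    obtain ⟨L, hL⟩ : ∃ L : ℕ, L = ⌊s⁻¹ ^ 3⌋₊ := ⟨_, rfl⟩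
    have hL1 : (L : ℝ) ≤ s⁻¹ ^ 3 := by rw [hL]; exact Nat.floor_le (by positivity)
    have hL2 : s⁻¹ ^ 3 / 2 ≤ L := by
      have := Nat.lt_floor_add_one (s⁻¹ ^ 3)
      rw [← hL] at this
      linarith only [h8, this]
    have hLr : L ≤ r := by
      have : (L : ℝ) ≤ r := by linarith only [hc0, hcG, hr, hwt, h8, hL1]
      exact_mod_cast this
    have hlam0 : 0 < (1 + 4 * Cc) * s ^ 3 := by positivity
    have hlam1 : (1 + 4 * Cc) * s ^ 3 ≤ 1 := by
      have h2 : s ^ 3 ≤ s := by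
        calc s ^ 3 ≤ s ^ 1 := pow_le_pow_of_le_one hs0.le hs1 (by norm_num)
          _ = s := pow_one s
      calc (1 + 4 * Cc) * s ^ 3 ≤ s⁻¹ * s := by gcongr
        _ = 1 := inv_mul_cancel₀ hs0.ne'
    have h10 : 10 / μ ≤ (1 + 4 * Cc) * s ^ 3 := by
      have h1 : 10 / μ ≤ 1 / t := by
        rw [div_le_div_iff₀ hμ0 ht0]; linarith only [hμ]
      have h2 : s ^ 3 ≤ (1 + 4 * Cc) * s ^ 3 :=
        le_mul_of_one_le_left (by positivity) (by linarith only [hCc])
      linarith only [hts, h1, h2]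
    have hCL : Cc ≤ (1 + 4 * Cc) * s ^ 3 * (L : ℝ) ^ 2 := by
      have h1 : (s⁻¹ ^ 3 / 2) ^ 2 ≤ (L : ℝ) ^ 2 := by gcongr
      have h2 : s ^ 3 * (s⁻¹ ^ 3 / 2) ^ 2 = s⁻¹ ^ 3 / 4 := by
        field_simp; norm_num
      have h3 : Cc * 1 ≤ Cc * s⁻¹ ^ 3 := mul_le_mul_of_nonneg_left (by linarith only [h8]) hCc.le
      calc Cc ≤ 4 * Cc * (s⁻¹ ^ 3 / 4) := by linarith only [h3]
        _ ≤ (1 + 4 * Cc) * (s⁻¹ ^ 3 / 4) :=
            mul_le_mul_of_nonneg_right (by linarith only) (by positivity)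
        _ = (1 + 4 * Cc) * (s ^ 3 * (s⁻¹ ^ 3 / 2) ^ 2) := by rw [h2]
        _ ≤ (1 + 4 * Cc) * (s ^ 3 * (L : ℝ) ^ 2) := by gcongr
        _ = _ := by ring
    have hσ2 : |σ| < σ₂ := by
      rw [← hs]
      have := hσc.trans hcC
      linarith only [hσ₂, hcC, hσc]
    refine edge_upper hCA hv hp0 hp8 hgau (fun Ω _ P _ ξ hm hlaw hind => ?_) hLr hlam0 h10
      hlam1 hCL
    have h0 := hup σ hσ hσ2 L (by rw [← hs]; exact hL1) Ω P ξ hm hlaw hind
    rwa [← hs] at h0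
  -- lower bound
  have hlower : 2 * d + G * σ ^ 2 - C₃ * s ^ (2 + 1 / (24 * d : ℝ)) ≤ z := by
    obtain ⟨L, hL⟩ : ∃ L : ℕ, L = ⌈s⁻¹ ^ 3⌉₊ := ⟨_, rfl⟩
    have hL1 : s⁻¹ ^ 3 ≤ L := by rw [hL]; exact Nat.le_ceil _
    have hL2 : (L : ℝ) ≤ 2 * s⁻¹ ^ 3 := by
      have := (Nat.ceil_lt_add_one (show 0 ≤ s⁻¹ ^ 3 by positivity)).le
      rw [← hL] at this
      linarith only [hc0, hcG, h8, this]
    have hLr : L ≤ r := by
      have : (L : ℝ) ≤ r := by linarith only [hr, hwt, hL2]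
      exact_mod_cast this
    have hσ3 : |σ| < σ₃ := by
      rw [← hs]
      have := hσc.trans hcD
      linarith only [hσ₃, hcD, hσc]
    have hpq : 2 * p < s ^ (24 * d) := by
      have h1 : 2 * p ≤ s ^ (24 * d + 1) := by
        calc 2 * p ≤ 2 * s ^ (24 * d + 9) := by linarith only [hpT]
          _ = 2 * s * s ^ (24 * d + 8) := by ring
          _ ≤ 1 * s ^ (24 * d + 8) :=
              mul_le_mul_of_nonneg_right (by linarith only [hcG, hσc]) (by positivity)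
          _ = s ^ (24 * d + 8) := one_mul _
          _ ≤ s ^ (24 * d + 1) := pow_le_pow_of_le_one hs0.le hs1 (by omega)
      exact h1.trans_lt (pow_lt_pow_right_of_lt_one₀ hs0 (by linarith only [hcG, hσc]) (by omega))
    refine edge_lower hμ0 hv hp0 hgau hpq (fun Ω _ P _ ξ hm hlaw hind => ?_) hLr
    have h0 := hlow σ hσ hσ3 L (by rw [← hs]; exact hL1) (by rw [← hs]; exact hL2) Ω P ξ hm
      hlaw hind
    rwa [← hs] at h0
  rw [abs_le]
  have e1 : (1 + 4 * Cc) * s ^ 3 ≤ (1 + 4 * Cc) * s ^ (2 + 1 / (24 * d : ℝ)) := by gcongr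
  have e2 : 0 < G * s ^ (2 + 1 / (24 * d : ℝ)) := by positivity
  have e3 : 0 < C₃ * s ^ (2 + 1 / (24 * d : ℝ)) := by positivity
  have e4 : 0 < Cc * s ^ (2 + 1 / (24 * d : ℝ)) := by positivity
  have e5 : (G + 1 + 4 * Cc + C₃) * s ^ (2 + 1 / (24 * d : ℝ)) =
      G * s ^ (2 + 1 / (24 * d : ℝ)) + (1 + 4 * Cc) * s ^ (2 + 1 / (24 * d : ℝ)) +
      C₃ * s ^ (2 + 1 / (24 * d : ℝ)) := by ring
  have e6 : (1 + 4 * Cc) * s ^ (2 + 1 / (24 * d : ℝ)) =
    s ^ (2 + 1 / (24 * d : ℝ)) + 4 * (Cc * s ^ (2 + 1 / (24 * d : ℝ))) := by ring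
  constructor
  · linarith only [hsp, hlower, e2, e4]
  · linarith only [hupper, e1, e3]

end Pool.Agent.LE.H93F
end
end -- Pool.Agent.Helper93_LSF.Expand

section -- Pool.Agent.Helper93_LSF.QMF

/-!
# QMF: everything near the effective band edge, at one scale
-/

set_option autoImplicit false

open MeasureTheory ProbabilityTheory Function Filter

open scoped ENNReal BigOperators Topology NNReal

noncomputable section

namespace Pool.Agent.LE.H93F

open Pool.Agent.Anderson Pool.Agent.Loc Pool.Agent.Mob Pool.Agent.Helper54.Bal Pool.Agent.BED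
  Pool.Agent.LE.H93W Pool.Agent.LE.H93Z Pool.Agent.LE.CL

/-- everything near the effective band edge, at one scale `t` -/
def QmfStmt : Prop :=
  ∀ (d : ℕ) (ε : ℝ), 3 ≤ d → 0 < ε → ε < 1 → ∃ c C : ℝ, 0 < c ∧ 0 < C ∧
    ∀ σ t : ℝ, σ ≠ 0 → |σ| ≤ c → 1 / |σ| ≤ t → σ ^ 2 * growth d t * Real.log t ≤ c →
    ∃ Es : ℝ, |Es - 2 * d| ≤ C * (σ ^ 2 + 1 / t) ∧
      (|σ|⁻¹ ^ 3 ≤ t →
        |Es - (2 * d + watson d * σ ^ 2)| ≤ C * |σ| ^ (2 + 1 / (24 * d : ℝ))) ∧
      (∀ E g : ℝ, Es + 1 / t ≤ E → LyaAt d σ E g → c * Real.sqrt (min (E - Es) 1) ≤ g) ∧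
      (∀ E g : ℝ, Es + 1 / t ≤ E → E ≤ Es + c → LyaAt d σ E g →
        (1 - ε) * Real.sqrt (E - Es) ≤ g ∧ g ≤ (1 + ε) * Real.sqrt (E - Es)) ∧
      ∀ E g : ℝ, |E - Es| ≤ c → LyaAt d σ E g →
        g ≤ C * Real.sqrt (|E - Es| + 1 / t) * Real.log t ^ 2

theorem p_pow5 {d N : ℕ} {c0 C0 c σ T : ℝ} {M' : ℕ} (hc0 : 0 < c0) (hC0 : 0 < C0)
    (hσ : σ ≠ 0) (hT : 1 ≤ T) (hcc : c * (d + N + 3) ≤ c0)
    (hM' : (M' : ℝ) ≤ 5 * T) (hu : σ ^ 2 * growth d T * Real.log T ≤ c)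
    (hTC : C0 * 5 ^ d ≤ T) :
    C0 * (1 + Real.log T) * (M' : ℝ) ^ d * Real.exp (-c0 / (σ ^ 2 * growth d T)) ≤
      1 / T ^ (N + 1) := by
  have ht0 : 0 < T := by linarith only [hT]
  have hgr := one_le_growth d hT
  have hσ2 : 0 < σ ^ 2 := by positivity
  have hu0 : 0 < σ ^ 2 * growth d T := by positivity
  have hlog : 0 ≤ Real.log T := Real.log_nonneg hT
  have h1 : (d + N + 3 : ℝ) * Real.log T ≤ c0 / (σ ^ 2 * growth d T) := by
    rw [le_div_iff₀ hu0]
    calc (d + N + 3 : ℝ) * Real.log T * (σ ^ 2 * growth d T) =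
          (σ ^ 2 * growth d T * Real.log T) * (d + N + 3) := by ring
      _ ≤ c * (d + N + 3) := mul_le_mul_of_nonneg_right hu (by positivity)
      _ ≤ c0 := hcc
  have h2 : Real.exp (-c0 / (σ ^ 2 * growth d T)) ≤ 1 / T ^ (d + N + 3) := by
    have h3 : Real.exp (-c0 / (σ ^ 2 * growth d T)) ≤
        Real.exp (-((d + N + 3 : ℝ) * Real.log T)) := by
      apply Real.exp_le_exp.2
      rw [neg_div]
      linarith only [h1]
    refine h3.trans (le_of_eq ?_)
    rw [Real.exp_neg, one_div]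
    congr 1
    have : (d + N + 3 : ℝ) * Real.log T = ((d + N + 3 : ℕ) : ℝ) * Real.log T := by push_cast; ring
    rw [this, Real.exp_nat_mul, Real.exp_log ht0]
  have h3 : 1 + Real.log T ≤ T := by
    have := Real.log_le_sub_one_of_pos ht0
    linarith only [this]
  have h4 : (M' : ℝ) ^ d ≤ 5 ^ d * T ^ d := by
    rw [← mul_pow]
    exact pow_le_pow_left₀ (Nat.cast_nonneg _) hM' d
  calc C0 * (1 + Real.log T) * (M' : ℝ) ^ d * Real.exp (-c0 / (σ ^ 2 * growth d T))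
      ≤ C0 * T * (5 ^ d * T ^ d) * (1 / T ^ (d + N + 3)) := by gcongr
    _ = (C0 * 5 ^ d) / T ^ (N + 2) := by
        field_simp
        ring
    _ ≤ T / T ^ (N + 2) := by gcongr
    _ = _ := by
        rw [div_eq_div_iff (by positivity) (by positivity)]
        ring

theorem qmf (fle : FleStmt) (sgx : SgxStmt) (sms : SmsStmt) (cdp : CdpStmt) (upx : UpxStmt)
    (pen : PenStmt) (hUp : LOC.UpStmt.{0}) (hLow : LOC.LowStmt.{0}) : QmfStmt := by
  intro d ε hd3 hε hε1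
  have hd : 1 ≤ d := by omega
  have hdR : (1 : ℝ) ≤ d := by exact_mod_cast hd
  obtain ⟨CP, hCP, hcdp'⟩ := cdp d hd
  obtain ⟨e, hedef⟩ : ∃ e : ℝ, e = min (min (ε / 4) (ε / (CP + 4))) (min (1 / 50) (1 / CP)) :=
    ⟨_, rfl⟩
  have he0 : 0 < e := by rw [hedef]; positivity
  have he4 : 4 * e ≤ ε := by
    have : e ≤ ε / 4 := by rw [hedef]; exact (min_le_left _ _).trans (min_le_left _ _)
    linarith only [this]
  have heC : e * (CP + 4) ≤ ε := by
    have : e ≤ ε / (CP + 4) := by rw [hedef]; exact (min_le_left _ _).trans (min_le_right _ _)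
    rwa [le_div_iff₀ (by positivity)] at this
  have he50 : e ≤ 1 / 50 := by
    rw [hedef]; exact (min_le_right _ _).trans (min_le_left _ _)
  have heCP : CP * e ≤ 1 := by
    have : e ≤ 1 / CP := by rw [hedef]; exact (min_le_right _ _).trans (min_le_right _ _)
    rw [le_div_iff₀ (by positivity)] at this
    linarith only [heC, he0, hε1]
  obtain ⟨c0, C0, C1, hc0, hC0, hC1, hfle⟩ := fle d e hd3 he0 he50
  obtain ⟨cp, Cp, hcp0, hCp1, hpen⟩ := pen d hd
  obtain ⟨cx, Cx, hcx0, hCx0, hexp⟩ := expand hUp hLow d hd3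
  obtain ⟨A, p₀, hA, hp₀, hsms⟩ := sms d e hd he0 (by linarith only [he4, hε1])
  obtain ⟨C2, hC2, hcdp⟩ := hcdp' e he0 he50 heCP
  obtain ⟨A2, CU, hA2, hCU, hupx⟩ := upx d hd
  obtain ⟨N0, hN0⟩ := exists_nat_ge (A2 + Cp)
  obtain ⟨N, hNdef⟩ : ∃ N : ℕ, N = N0 + 8 * d := ⟨_, rfl⟩
  have hA20 : 0 ≤ A2 := by linarith only [hA2]
  have hNN0 : (N0 : ℝ) ≤ N := by
    rw [hNdef]
    push_cast
    linarith only []
  have hN : A2 ≤ N := by linarith only [hNN0, hN0, hCp1]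
  have hNp : Cp ≤ N := by linarith only [hNN0, hN0, hA20]
  have hN8 : 8 * d ≤ N := by omega
  have hloge : 0 ≤ Real.log (1 / e) := Real.log_nonneg (by
    rw [le_div_iff₀ he0]; linarith only [he4, hε1])
  have hlog2e : 0 ≤ Real.log (2 / e) := Real.log_nonneg (by
    rw [le_div_iff₀ he0]; linarith only [he4, hε1])
  obtain ⟨b1, hb1⟩ : ∃ x : ℝ, x = 16 * (Real.log (2 / e) + 1) := ⟨_, rfl⟩
  obtain ⟨b2, hb2⟩ : ∃ x : ℝ, x = A * (4 + Real.log (2 / e)) := ⟨_, rfl⟩
  obtain ⟨b3, hb3⟩ : ∃ x : ℝ, x = C2 * (4 + Real.log (1 / e)) := ⟨_, rfl⟩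
  obtain ⟨b4, hb4⟩ : ∃ x : ℝ, x = 2 * (N + 5 : ℝ) * (Real.log (1 / e) + 1) := ⟨_, rfl⟩
  have hb10 : 0 ≤ b1 := by rw [hb1]; positivity
  have hb20 : 0 ≤ b2 := by rw [hb2]; positivity
  have hb30 : 0 ≤ b3 := by rw [hb3]; positivity
  have hb40 : 0 ≤ b4 := by rw [hb4]; positivity
  obtain ⟨T₀, hT₀, hlogT⟩ := log_le_sqrt (b1 + b2 + b3 + b4 + 480 + 40 * C2)
  have hT₀0 : 0 < T₀ := by linarith only [hT₀]
  obtain ⟨c, hcdef⟩ : ∃ c : ℝ, c = min (min (min (min cp cx) (c0 * e / (2 * (d + N + 7))))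
    (min (e / 2) p₀)) (min (min (1 / (C0 * 5 ^ d + 50)) (1 / (4 * C0 + 1)))
      (min (min (1 / T₀) (1 / Cp)) (1 / (2 * CU)))) := ⟨_, rfl⟩
  have hc : 0 < c := by rw [hcdef]; positivity
  have hc1 : c ≤ cp := by
    rw [hcdef]
    exact (min_le_left _ _).trans ((min_le_left _ _).trans ((min_le_left _ _).trans
      (min_le_left _ _)))
  have hcx : c ≤ cx := by
    rw [hcdef]
    exact (min_le_left _ _).trans ((min_le_left _ _).trans ((min_le_left _ _).trans
      (min_le_right _ _)))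
  have hc2 : 2 * (1 / e) * c * (d + N + 7) ≤ c0 := by
    have : c ≤ c0 * e / (2 * (d + N + 7)) := by
      rw [hcdef]; exact (min_le_left _ _).trans ((min_le_left _ _).trans (min_le_right _ _))
    rw [le_div_iff₀ (by positivity)] at this
    calc 2 * (1 / e) * c * (d + N + 7) = 1 / e * (c * (2 * (d + N + 7))) := by ring
      _ ≤ 1 / e * (c0 * e) := mul_le_mul_of_nonneg_left this (by positivity)
      _ = c0 := by field_simp
  have hce2 : c ≤ e / 2 := by
    rw [hcdef]; exact (min_le_left _ _).trans ((min_le_right _ _).trans (min_le_left _ _))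
  have hcp : c ≤ p₀ := by
    rw [hcdef]; exact (min_le_left _ _).trans ((min_le_right _ _).trans (min_le_right _ _))
  have hc4 : (C0 * 5 ^ d + 50) * c ≤ 1 := by
    have : c ≤ 1 / (C0 * 5 ^ d + 50) := by
      rw [hcdef]; exact (min_le_right _ _).trans ((min_le_left _ _).trans (min_le_left _ _))
    rw [le_div_iff₀ (by positivity)] at this
    linarith only [this]
  have hc5 : (4 * C0 + 1) * c ≤ 1 := by
    have : c ≤ 1 / (4 * C0 + 1) := by
      rw [hcdef]; exact (min_le_right _ _).trans ((min_le_left _ _).trans (min_le_right _ _))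
    rw [le_div_iff₀ (by positivity)] at this
    linarith only [this]
  have hc7 : T₀ * c ≤ 1 := by
    have : c ≤ 1 / T₀ := by
      rw [hcdef]
      exact (min_le_right _ _).trans ((min_le_right _ _).trans ((min_le_left _ _).trans
        (min_le_left _ _)))
    rw [le_div_iff₀ (by positivity)] at this
    linarith only [this]
  have hc9 : Cp * c ≤ 1 := by
    have : c ≤ 1 / Cp := by
      rw [hcdef]
      exact (min_le_right _ _).trans ((min_le_right _ _).trans ((min_le_left _ _).trans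
        (min_le_right _ _)))
    rw [le_div_iff₀ (by positivity)] at this
    linarith only [this]
  have hc8 : 2 * CU * c ≤ 1 := by
    have : c ≤ 1 / (2 * CU) := by
      rw [hcdef]; exact (min_le_right _ _).trans ((min_le_right _ _).trans (min_le_right _ _))
    rw [le_div_iff₀ (by positivity)] at this
    linarith only [this]
  have hce : c ≤ e := by linarith only [hce2, he0]
  refine ⟨c, 2 * C0 + Cp + Cx, hc, by positivity, ?_⟩
  intro σ t hσ hσc hσt hu
  have hσ0 : 0 < |σ| := abs_pos.2 hσ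
  have hσ1 : |σ| ≤ 1 := by linarith only [hσc, hce2, he4, hε1]
  have ht1c : 1 / c ≤ t := (one_div_le_one_div_of_le hσ0 hσc).trans hσt
  have hct : 1 ≤ c * t := by
    rw [div_le_iff₀ hc] at ht1c
    linarith only [ht1c]
  have ht0 : 0 < t := lt_of_lt_of_le (by positivity) hσt
  have hbig : ∀ B : ℝ, 0 ≤ B → B * c ≤ 1 → B ≤ t := by
    intro B hB hBc
    have h1 : (B * c) * t ≤ 1 * t := mul_le_mul_of_nonneg_right hBc ht0.le
    have h2 : B * 1 ≤ B * (c * t) := mul_le_mul_of_nonneg_left hct hB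
    linarith only [h2, h1]
  have htb : C0 * 5 ^ d + 50 ≤ t := hbig _ (by positivity) hc4
  have htT : T₀ ≤ t := hbig _ (by positivity) hc7
  have htU : 2 * CU ≤ t := hbig _ (by positivity) hc8
  have htp : Cp ≤ t := hbig _ (by linarith only [hCp1]) hc9
  have hC3 : 0 < C0 * 5 ^ d := by positivity
  have ht50 : 50 ≤ t := by linarith only [hC3, htb]
  have hte : 1 / e ≤ t := by
    refine hbig _ (by positivity) ?_
    rw [div_mul_eq_mul_div, one_mul, div_le_one he0]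
    exact hce
  have h1tc : 1 / t ≤ c := by
    rw [div_le_iff₀ ht0]
    linarith only [hct]
  have h1te : 1 / t ≤ e := h1tc.trans hce
  have hlogt : 0 ≤ Real.log t := Real.log_nonneg (by linarith only [htT, hT₀])
  have hlt1 : 1 ≤ 1 + Real.log t := by linarith only [hlogt]
  have hbig2 := hlogT t htT
  have hsq0 := Real.sqrt_nonneg t
  have hb : ∀ b : ℝ, b ≤ b1 + b2 + b3 + b4 + 480 + 40 * C2 → b * (1 + Real.log t) ≤ Real.sqrt t :=
    fun b hb => (mul_le_mul_of_nonneg_right hb (by linarith only [hlogt])).trans hbig2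
  have hC20 : 0 ≤ 40 * C2 := by linarith only [hC2]
  have r1 : 16 * (Real.log (2 / e) + Real.log t) ≤ Real.sqrt t := by
    refine le_trans ?_ (hb b1 (by linarith only [hb20, hb30, hb40, hC20]))
    rw [hb1, mul_assoc]
    exact mul_le_mul_of_nonneg_left (aux1 hlog2e hlogt) (by norm_num)
  have r2 : A * (1 + Real.log (2 / e) + 3 * Real.log t) ≤ Real.sqrt t := by
    refine le_trans ?_ (hb b2 (by linarith only [hb10, hb30, hb40, hC20]))
    rw [hb2, mul_assoc]
    refine mul_le_mul_of_nonneg_left ?_ (by linarith only [hA])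
    have := aux2 hlog2e hlogt
    linarith only [this]
  have r3 : C2 * (4 + Real.log (1 / e) + 3 * Real.log t) ≤ Real.sqrt t := by
    refine le_trans ?_ (hb b3 (by linarith only [hb10, hb20, hb40, hC20]))
    rw [hb3, mul_assoc]
    exact mul_le_mul_of_nonneg_left (aux2 hloge hlogt) (by linarith only [hC2])
  have r4 : 2 * (N + 5 : ℝ) * (Real.log (1 / e) + Real.log t) ≤ Real.sqrt t := by
    refine le_trans ?_ (hb b4 (by linarith only [hb10, hb20, hb30, hC20]))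
    rw [hb4, mul_assoc (2 * (N + 5 : ℝ))]
    exact mul_le_mul_of_nonneg_left (aux1 hloge hlogt) (by positivity)
  have r5 : 40 * (12 + Real.log t) ≤ Real.sqrt t := by
    refine le_trans ?_ (hb 480 (by linarith only [hb10, hb20, hb30, hb40, hC20]))
    linarith only [hlogt]
  have r6 : 40 * (C2 * (1 + Real.log t)) ≤ Real.sqrt t := by
    refine le_trans (le_of_eq ?_) (hb (40 * C2) (by linarith only [hb10, hb20, hb30, hb40]))
    ring
  obtain ⟨T, hT⟩ : ∃ T : ℝ, T = 1 / e * t := ⟨_, rfl⟩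
  have hT50 : 50 * t ≤ T := by
    have h7 : (50 : ℝ) ≤ 1 / e := by
      rw [le_div_iff₀ he0]; linarith only [he50]
    rw [hT]
    exact mul_le_mul_of_nonneg_right h7 ht0.le
  have hT0 : 0 < T := by linarith only [hT50, ht0]
  have huT : σ ^ 2 * growth d T * Real.log T ≤ 2 * (1 / e) * c := by
    rw [hT]
    exact scale_T he0 (by linarith only [he4, hε1]) hte hu hσ
  obtain ⟨r, hrdef⟩ : ∃ r : ℕ, r = ⌈T⌉₊ := ⟨_, rfl⟩
  have hrT : T ≤ r := by rw [hrdef]; exact Nat.le_ceil T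
  have hrT1 : (r : ℝ) < T + 1 := by rw [hrdef]; exact Nat.ceil_lt_add_one hT0.le
  obtain ⟨M', hM'⟩ : ∃ M' : ℕ, M' = 4 * r + 3 := ⟨_, rfl⟩
  have hM'R : (M' : ℝ) = 4 * r + 3 := by rw [hM']; push_cast; ring
  have hM1 : T + 10 ≤ M' := by linarith only [hM'R, hrT, hT50, ht50]
  have hM2 : (M' : ℝ) ≤ 5 * T := by linarith only [hM'R, hrT1, hT50, ht50]
  obtain ⟨p, hp⟩ : ∃ p : ℝ, p = C0 * (1 + Real.log T) * (M' : ℝ) ^ d *
    Real.exp (-c0 / (σ ^ 2 * growth d T)) := ⟨_, rfl⟩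
  have hM0 : (0 : ℝ) < M' := by linarith only [hM'R]
  have hlogTT : 0 ≤ Real.log T := Real.log_nonneg (by linarith only [hT50, htT, hT₀])
  have hp0 : 0 < p := by rw [hp]; positivity
  have hpN : p ≤ 1 / T ^ (N + 5) := by
    rw [hp]
    refine p_pow5 (N := N + 4) hc0 hC0 hσ (by linarith only [hT50, htT, hT₀]) ?_ hM2 huT (by linarith only [hT50, htb, ht0])
    refine le_trans (le_of_eq ?_) hc2
    push_cast
    ring
  have hT1 : 1 ≤ T := by linarith only [hT50, htT, hT₀]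
  have hpow : ∀ m : ℕ, m ≤ N + 5 → p ≤ 1 / T ^ m := fun m hm => by
    refine hpN.trans (one_div_le_one_div_of_le (by positivity) ?_)
    exact pow_le_pow_right₀ hT1 hm
  have hpt1 : p ≤ 1 / T := by
    have := hpow 1 (by omega)
    rwa [pow_one] at this
  have hp2 : p ≤ 1 / 2 := hpt1.trans (one_div_le_one_div_of_le (by norm_num) (by linarith only [hT50, htT, hT₀]))
  have h1Tt : 1 / T ≤ 1 / t := one_div_le_one_div_of_le ht0 (by linarith only [hT50, ht0])
  have hsq : Real.sqrt p ≤ 1 / t := by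
    refine le_trans ?_ h1Tt
    rw [Real.sqrt_le_left (by positivity)]
    refine (hpow 2 (by omega)).trans (le_of_eq ?_)
    rw [div_pow, one_pow]
  have hM3 : 3 ≤ M' := by omega
  obtain ⟨v, hv⟩ : ∃ v : ℝ≥0, (v : ℝ) = σ ^ 2 := ⟨⟨σ ^ 2, sq_nonneg σ⟩, rfl⟩
  obtain ⟨z, μ, hz, hz3, hμ, hflat, -⟩ := hfle M' v σ T p hσ hσ1 hv hM3 (by linarith only [hT50, htT, hT₀])
    (by linarith only [hM'R, hrT]) hp hp2
  have hσsq : σ ^ 2 ≤ |σ| := by
    rw [← sq_abs, pow_two]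
    have := mul_le_mul_of_nonneg_left hσ1 hσ0.le
    linarith only [this]
  have hσsq0 := sq_nonneg σ
  have h1t0 : 0 < 1 / t := by positivity
  have hz2 : |z - 2 * d| ≤ 2 * C0 * (σ ^ 2 + 1 / t) := by
    refine hz.trans ?_
    have h1 : σ ^ 2 + 1 / T + Real.sqrt p ≤ 2 * (σ ^ 2 + 1 / t) := by linarith only [hv, hsq, h1Tt]
    have := mul_le_mul_of_nonneg_left h1 hC0.le
    linarith only [this]
  have hz11 : |z - 2 * d| ≤ 1 := by
    refine hz2.trans ?_
    have h3 : σ ^ 2 + 1 / t ≤ 2 * c := by linarith only [hσsq, h1tc, hσc]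
    calc 2 * C0 * (σ ^ 2 + 1 / t) ≤ 2 * C0 * (2 * c) :=
          mul_le_mul_of_nonneg_left h3 (by positivity)
      _ ≤ 1 := by linarith only [hc5, hc]
  have hz1 : |z| ≤ 2 * d + 1 := by
    have h2 := abs_add_le (z - 2 * d) (2 * d)
    rw [sub_add_cancel, abs_of_nonneg (by positivity : (0 : ℝ) ≤ 2 * d)] at h2
    linarith only [h2, hz11]
  have hz00 : 0 ≤ z := by
    have := (abs_le.1 hz11).1
    linarith only [this, hdR]
  have hμT : 9 * (1 / e * t) ≤ μ := by rw [← hT]; exact hμ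
  have hμ0 : 0 < μ := by linarith only [hμ, hT0]
  have hMT : 1 / e * t + 3 ≤ M' := by rw [← hT]; linarith only [hM1]
  have ht16 : 16 ≤ t := by linarith only [ht50]
  have hpT : p ≤ 1 / (1 / e * t) ^ (N + 5) := by rw [← hT]; exact hpN
  have hpp0 : p ≤ p₀ := hpt1.trans (h1Tt.trans (h1tc.trans hcp))
  have hc12 : c ≤ 1 / 2 := by linarith only [hce2, he50]
  have hne : NeZero M' := ⟨by omega⟩
  have hflatF : ∀ h : NeZero M', gau d M' v {V | ¬ Flat z μ V} ≤ ENNReal.ofReal p := by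
    intro h
    refine (measure_mono ?_).trans (hflat h)
    intro V hV hcon
    refine hV ⟨hcon.1, hcon.2.1, fun x => (hcon.2.2 x).trans ?_⟩
    have := mul_le_mul_of_nonneg_right he50 hμ0.le
    linarith only [this]
  have hflat50 : ∀ h : NeZero M', gau d M' v {V | ¬ FlatE (1 / 50) z μ V} ≤
      ENNReal.ofReal p := by
    intro h
    refine (measure_mono ?_).trans (hflat h)
    intro V hV hcon
    refine hV ⟨hcon.1, hcon.2.1, fun x => (hcon.2.2 x).trans ?_⟩
    exact mul_le_mul_of_nonneg_right he50 hμ0.le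
  have hlow : ∀ E g : ℝ, z + 1 / t ≤ E → LyaAt d σ E g →
      (1 - e) * ((1 - 2 * e) * Real.sqrt (min (E - z) e)) ≤ g := fun E g hE hg =>
    lowZ sgx hd he0 he50 hA hsms hσ hσ1 hv hμ0 hz3 (hflatF hne) hpp0
      hσt ht16 h1te hMT r1 r2 hE hg
  refine ⟨z, ?_, ?_, ?_, ?_, ?_⟩
  · refine hz2.trans ?_
    have h0 : 0 ≤ σ ^ 2 + 1 / t := by positivity
    exact mul_le_mul_of_nonneg_right (by linarith only [hCx0, hCp1]) h0
  · intro h3t
    have h0 := hexp σ t p z μ v r hσ (hσc.trans hcx) h3t hv (by linarith only [hμ, hT50, ht0])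
      (by linarith only [hrT, hT50, ht0]) hp0.le (by
        refine (hpow (8 * d + 3) (by omega)).trans ?_
        refine one_div_le_one_div_of_le (by positivity) ?_
        exact pow_le_pow_left₀ ht0.le (by linarith only [hT50, ht0]) _) (by
        have h1 := hflatF
        rw [hM'] at h1
        exact h1 _)
    refine h0.trans ?_
    refine mul_le_mul_of_nonneg_right ?_ (Real.rpow_nonneg hσ0.le _)
    linarith only [hC0, hCp1]
  · intro E g hE hg
    refine le_trans ?_ (hlow E g hE hg)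
    have hx0 : 0 < E - z := by linarith only [hE, h1t0]
    have h2 := aux6 he0 (by linarith only [he50]) hx0
    have h3 := aux3 he0 he50
    have h4 := Real.sqrt_nonneg (min (E - z) 1)
    calc c * Real.sqrt (min (E - z) 1) ≤ e / 2 * Real.sqrt (min (E - z) 1) :=
          mul_le_mul_of_nonneg_right hce2 h4
      _ = 1 / 2 * (e * Real.sqrt (min (E - z) 1)) := by ring
      _ ≤ (1 - e) * (1 - 2 * e) * Real.sqrt (min (E - z) e) :=
          mul_le_mul h3 h2 (by positivity) (by linarith only [h3])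
      _ = _ := by ring
  · intro E g hE hE2 hg
    have hlam : 0 < E - z := by linarith only [hE, h1t0]
    have hs := Real.sqrt_nonneg (E - z)
    constructor
    · refine le_trans ?_ (hlow E g hE hg)
      rw [min_eq_left (by linarith only [hE2, hce]), ← mul_assoc]
      exact mul_le_mul_of_nonneg_right (aux4 he0 he4) hs
    · have hE3 : E ≤ z + 1 / 2 := by linarith only [hE2, hc12]
      have h0 := upZ hd he0 he50 hCP hC2 hN hA20 hCU hcdp hupx hσ hσ1 hv hz3 hz1 hμT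
        hflat hσt ht16 hMT hp0.le hpT htU r3 r4 r5 r6 hE hE3 hg
      refine h0.trans ?_
      rw [← mul_assoc]
      exact mul_le_mul_of_nonneg_right (aux5 he0 he50 heCP heC) hs
  · intro E g hE hg
    have hpC : p ≤ t ^ (-Cp) := by
      refine (hpow N (by omega)).trans ?_
      have h1 : 1 / T ^ N ≤ 1 / t ^ N :=
        one_div_le_one_div_of_le (by positivity) (pow_le_pow_left₀ ht0.le (by linarith only [hT50, ht0]) _)
      refine h1.trans ?_
      rw [Real.rpow_neg ht0.le, ← one_div]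
      refine one_div_le_one_div_of_le (Real.rpow_pos_of_pos ht0 _) ?_
      rw [← Real.rpow_natCast t N]
      exact Real.rpow_le_rpow_of_exponent_le (by linarith only [htT, hT₀]) hNp
    have h0 := hpen M' v σ t z μ p E g hσ (by linarith only [hσc, hc12]) hv hz00 hz3 hσt htp
      (by linarith only [hμ, hT50, ht0]) (by linarith only [hM1, hT50, ht0]) hflat50 hpC hg
      (hE.trans hc1)
    refine h0.trans ?_
    have h1 : 0 ≤ Real.sqrt (|E - z| + 1 / t) * Real.log t ^ 2 := by positivity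
    calc Cp * Real.sqrt (|E - z| + 1 / t) * Real.log t ^ 2 =
          Cp * (Real.sqrt (|E - z| + 1 / t) * Real.log t ^ 2) := by ring
      _ ≤ (2 * C0 + Cp + Cx) * (Real.sqrt (|E - z| + 1 / t) * Real.log t ^ 2) :=
          mul_le_mul_of_nonneg_right (by linarith only [hC0, hCx0]) h1
      _ = _ := by ring

end Pool.Agent.LE.H93F
end
end -- Pool.Agent.Helper93_LSF.QMF

section -- Pool.Agent.Helper93_LSF.Torus

/-!
# Above the effective band edge, for a torus of any size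
-/

set_option autoImplicit false

open MeasureTheory ProbabilityTheory Function Filter

open scoped ENNReal BigOperators Topology NNReal

noncomputable section

namespace Pool.Agent.LE.H93F

open Pool.Agent.Anderson Pool.Agent.Loc Pool.Agent.Mob Pool.Agent.Helper54.Bal Pool.Agent.BED
  Pool.Agent.LE.H93W Pool.Agent.LE.H93Z Pool.Agent.LE.CL

/-- the landscape function of a torus of any size gives the effective edge -/
theorem torus (fle : FleStmt) (sgx : SgxStmt) (sms : SmsStmt) (cdp : CdpStmt) (upx : UpxStmt)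
    (d : ℕ) (hd3 : 3 ≤ d) :
    ∃ (e c c0 C0 : ℝ) (Q : ℕ), 0 < e ∧ e ≤ 1 / 50 ∧ 0 < c ∧ c ≤ 1 / 4 ∧ 0 < c0 ∧ 0 < C0 ∧
      ∀ (M' : ℕ) (v : ℝ≥0) (σ t T p : ℝ), σ ≠ 0 → |σ| ≤ c → (v : ℝ) = σ ^ 2 → 1 / |σ| ≤ t →
      T = 1 / e * t → T + 3 ≤ M' →
      p = C0 * (1 + Real.log T) * (M' : ℝ) ^ d * Real.exp (-c0 / (σ ^ 2 * growth d T)) →
      p ≤ 1 / T ^ Q →
      ∃ z μ : ℝ, |z - 2 * d| ≤ C0 * (σ ^ 2 + 1 / T + Real.sqrt p) ∧ z ≤ 2 * d + 1 ∧
        9 * T ≤ μ ∧
        (∀ h : NeZero M', gau d M' v {V | ¬ FlatE e z μ V} ≤ ENNReal.ofReal p) ∧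
        ∀ E g : ℝ, z + 1 / t ≤ E → E ≤ z + c → LyaAt d σ E g →
          1 / 2 * Real.sqrt (E - z) ≤ g ∧ g ≤ 3 / 2 * Real.sqrt (E - z) := by
  obtain ⟨ε, hεd⟩ : ∃ ε : ℝ, ε = 1 / 2 := ⟨_, rfl⟩
  have hε : 0 < ε := by rw [hεd]; norm_num
  have hε1 : ε < 1 := by rw [hεd]; norm_num
  have hd : 1 ≤ d := by omega
  have hdR : (1 : ℝ) ≤ d := by exact_mod_cast hd
  obtain ⟨CP, hCP, hcdp'⟩ := cdp d hd
  obtain ⟨e, hedef⟩ : ∃ e : ℝ, e = min (min (ε / 4) (ε / (CP + 4))) (min (1 / 50) (1 / CP)) :=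
    ⟨_, rfl⟩
  have he0 : 0 < e := by rw [hedef]; positivity
  have he4 : 4 * e ≤ ε := by
    have : e ≤ ε / 4 := by rw [hedef]; exact (min_le_left _ _).trans (min_le_left _ _)
    linarith only [this]
  have heC : e * (CP + 4) ≤ ε := by
    have : e ≤ ε / (CP + 4) := by rw [hedef]; exact (min_le_left _ _).trans (min_le_right _ _)
    rwa [le_div_iff₀ (by positivity)] at this
  have he50 : e ≤ 1 / 50 := by
    rw [hedef]; exact (min_le_right _ _).trans (min_le_left _ _)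
  have heCP : CP * e ≤ 1 := by
    have : e ≤ 1 / CP := by rw [hedef]; exact (min_le_right _ _).trans (min_le_right _ _)
    rw [le_div_iff₀ (by positivity)] at this
    linarith only [heC, he0, hεd]
  obtain ⟨c0, C0, C1, hc0, hC0, hC1, hfle⟩ := fle d e hd3 he0 he50
  obtain ⟨A, p₀, hA, hp₀, hsms⟩ := sms d e hd he0 (by linarith only [he4, hεd])
  obtain ⟨C2, hC2, hcdp⟩ := hcdp' e he0 he50 heCP
  obtain ⟨A2, CU, hA2, hCU, hupx⟩ := upx d hd
  obtain ⟨N, hN⟩ := exists_nat_ge A2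
  have hA20 : 0 ≤ A2 := by linarith only [hA2]
  have hloge : 0 ≤ Real.log (1 / e) := Real.log_nonneg (by
    rw [le_div_iff₀ he0]; linarith only [he4, hεd])
  have hlog2e : 0 ≤ Real.log (2 / e) := Real.log_nonneg (by
    rw [le_div_iff₀ he0]; linarith only [he4, hεd])
  obtain ⟨b1, hb1⟩ : ∃ x : ℝ, x = 16 * (Real.log (2 / e) + 1) := ⟨_, rfl⟩
  obtain ⟨b2, hb2⟩ : ∃ x : ℝ, x = A * (4 + Real.log (2 / e)) := ⟨_, rfl⟩
  obtain ⟨b3, hb3⟩ : ∃ x : ℝ, x = C2 * (4 + Real.log (1 / e)) := ⟨_, rfl⟩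
  obtain ⟨b4, hb4⟩ : ∃ x : ℝ, x = 2 * (N + 5 : ℝ) * (Real.log (1 / e) + 1) := ⟨_, rfl⟩
  have hb10 : 0 ≤ b1 := by rw [hb1]; positivity
  have hb20 : 0 ≤ b2 := by rw [hb2]; positivity
  have hb30 : 0 ≤ b3 := by rw [hb3]; positivity
  have hb40 : 0 ≤ b4 := by rw [hb4]; positivity
  obtain ⟨T₀, hT₀, hlogT⟩ := log_le_sqrt (b1 + b2 + b3 + b4 + 480 + 40 * C2)
  have hT₀0 : 0 < T₀ := by linarith only [hT₀]
  obtain ⟨c, hcdef⟩ : ∃ c : ℝ, c = min (min (e / 2) p₀) (min (min (1 / 50) (1 / (4 * C0 + 1)))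
      (min (1 / T₀) (1 / (2 * CU)))) := ⟨_, rfl⟩
  have hc : 0 < c := by rw [hcdef]; positivity
  have hce2 : c ≤ e / 2 := by
    rw [hcdef]; exact (min_le_left _ _).trans (min_le_left _ _)
  have hcp : c ≤ p₀ := by
    rw [hcdef]; exact (min_le_left _ _).trans (min_le_right _ _)
  have hc4 : 50 * c ≤ 1 := by
    have : c ≤ 1 / 50 := by
      rw [hcdef]; exact (min_le_right _ _).trans ((min_le_left _ _).trans (min_le_left _ _))
    linarith only [hce2, he50]
  have hc5 : (4 * C0 + 1) * c ≤ 1 := by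
    have : c ≤ 1 / (4 * C0 + 1) := by
      rw [hcdef]; exact (min_le_right _ _).trans ((min_le_left _ _).trans (min_le_right _ _))
    rw [le_div_iff₀ (by positivity)] at this
    linarith only [this]
  have hc7 : T₀ * c ≤ 1 := by
    have : c ≤ 1 / T₀ := by
      rw [hcdef]
      exact (min_le_right _ _).trans ((min_le_right _ _).trans (min_le_left _ _))
    rw [le_div_iff₀ (by positivity)] at this
    linarith only [this]
  have hc8 : 2 * CU * c ≤ 1 := by
    have : c ≤ 1 / (2 * CU) := by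
      rw [hcdef]; exact (min_le_right _ _).trans ((min_le_right _ _).trans (min_le_right _ _))
    rw [le_div_iff₀ (by positivity)] at this
    linarith only [this]
  have hce : c ≤ e := by linarith only [hce2, he0]
  refine ⟨e, c, c0, C0, N + 5, he0, he50, hc, by linarith only [hce2, he4, hεd], hc0, hC0, ?_⟩
  intro M' v σ t T p hσ hσc hv hσt hT hMT hp hpN
  have hσ0 : 0 < |σ| := abs_pos.2 hσ
  have hσ1 : |σ| ≤ 1 := by linarith only [hσc, hce2, he4, hεd]
  have ht1c : 1 / c ≤ t := (one_div_le_one_div_of_le hσ0 hσc).trans hσt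
  have hct : 1 ≤ c * t := by
    rw [div_le_iff₀ hc] at ht1c
    linarith only [ht1c]
  have ht0 : 0 < t := lt_of_lt_of_le (by positivity) hσt
  have hbig : ∀ B : ℝ, 0 ≤ B → B * c ≤ 1 → B ≤ t := by
    intro B hB hBc
    have h1 : (B * c) * t ≤ 1 * t := mul_le_mul_of_nonneg_right hBc ht0.le
    have h2 : B * 1 ≤ B * (c * t) := mul_le_mul_of_nonneg_left hct hB
    linarith only [h2, h1]
  have ht50 : 50 ≤ t := hbig _ (by positivity) hc4
  have htT : T₀ ≤ t := hbig _ (by positivity) hc7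
  have htU : 2 * CU ≤ t := hbig _ (by positivity) hc8
  have hte : 1 / e ≤ t := by
    refine hbig _ (by positivity) ?_
    rw [div_mul_eq_mul_div, one_mul, div_le_one he0]
    exact hce
  have h1tc : 1 / t ≤ c := by
    rw [div_le_iff₀ ht0]
    linarith only [hct]
  have h1te : 1 / t ≤ e := h1tc.trans hce
  have hlogt : 0 ≤ Real.log t := Real.log_nonneg (by linarith only [ht50])
  have hlt1 : 1 ≤ 1 + Real.log t := by linarith only [hlogt]
  have hbig2 := hlogT t htT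
  have hsq0 := Real.sqrt_nonneg t
  have hb : ∀ b : ℝ, b ≤ b1 + b2 + b3 + b4 + 480 + 40 * C2 → b * (1 + Real.log t) ≤ Real.sqrt t :=
    fun b hb => (mul_le_mul_of_nonneg_right hb (by linarith only [hlogt])).trans hbig2
  have hC20 : 0 ≤ 40 * C2 := by linarith only [hC2]
  have r1 : 16 * (Real.log (2 / e) + Real.log t) ≤ Real.sqrt t := by
    refine le_trans ?_ (hb b1 (by linarith only [hb20, hb30, hb40, hC20]))
    rw [hb1, mul_assoc]
    exact mul_le_mul_of_nonneg_left (aux1 hlog2e hlogt) (by norm_num)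
  have r2 : A * (1 + Real.log (2 / e) + 3 * Real.log t) ≤ Real.sqrt t := by
    refine le_trans ?_ (hb b2 (by linarith only [hb10, hb30, hb40, hC20]))
    rw [hb2, mul_assoc]
    refine mul_le_mul_of_nonneg_left ?_ (by linarith only [hA])
    have := aux2 hlog2e hlogt
    linarith only [this]
  have r3 : C2 * (4 + Real.log (1 / e) + 3 * Real.log t) ≤ Real.sqrt t := by
    refine le_trans ?_ (hb b3 (by linarith only [hb10, hb20, hb40, hC20]))
    rw [hb3, mul_assoc]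
    exact mul_le_mul_of_nonneg_left (aux2 hloge hlogt) (by linarith only [hC2])
  have r4 : 2 * (N + 5 : ℝ) * (Real.log (1 / e) + Real.log t) ≤ Real.sqrt t := by
    refine le_trans ?_ (hb b4 (by linarith only [hb10, hb20, hb30, hC20]))
    rw [hb4, mul_assoc (2 * (N + 5 : ℝ))]
    exact mul_le_mul_of_nonneg_left (aux1 hloge hlogt) (by positivity)
  have r5 : 40 * (12 + Real.log t) ≤ Real.sqrt t := by
    refine le_trans ?_ (hb 480 (by linarith only [hb10, hb20, hb30, hb40, hC20]))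
    linarith only [hlogt]
  have r6 : 40 * (C2 * (1 + Real.log t)) ≤ Real.sqrt t := by
    refine le_trans (le_of_eq ?_) (hb (40 * C2) (by linarith only [hb10, hb20, hb30, hb40]))
    ring
  have hT50 : 50 * t ≤ T := by
    have h7 : (50 : ℝ) ≤ 1 / e := by
      rw [le_div_iff₀ he0]; linarith only [he50]
    rw [hT]
    exact mul_le_mul_of_nonneg_right h7 ht0.le
  have hT0 : 0 < T := by linarith only [hT50, ht0]
  have hM0 : (0 : ℝ) < M' := by linarith only [hT50, ht0, hMT]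
  have hM'0 : M' ≠ 0 := by
    rintro rfl
    simp at hM0
  have hlogTT : 0 ≤ Real.log T := Real.log_nonneg (by linarith only [hT50, ht50])
  have hp0 : 0 < p := by rw [hp]; positivity
  have hT1 : 1 ≤ T := by linarith only [hT50, ht50]
  have hpow : ∀ m : ℕ, m ≤ N + 5 → p ≤ 1 / T ^ m := fun m hm => by
    refine hpN.trans (one_div_le_one_div_of_le (by positivity) ?_)
    exact pow_le_pow_right₀ hT1 hm
  have hpt1 : p ≤ 1 / T := by
    have := hpow 1 (by omega)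
    rwa [pow_one] at this
  have hp2 : p ≤ 1 / 2 := hpt1.trans (one_div_le_one_div_of_le (by norm_num) (by linarith only [hT50, ht50]))
  have h1Tt : 1 / T ≤ 1 / t := one_div_le_one_div_of_le ht0 (by linarith only [hT50, ht0])
  have hsq : Real.sqrt p ≤ 1 / t := by
    refine le_trans ?_ h1Tt
    rw [Real.sqrt_le_left (by positivity)]
    refine (hpow 2 (by omega)).trans (le_of_eq ?_)
    rw [div_pow, one_pow]
  have hM3 : 3 ≤ M' := by
    have : (3 : ℝ) ≤ M' := by linarith only [hT50, ht0, hMT]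
    exact_mod_cast this
  obtain ⟨z, μ, hz, hz3, hμ, hflat, -⟩ := hfle M' v σ T p hσ hσ1 hv hM3 (by linarith only [hT50, ht50])
    (by linarith only [hMT]) hp hp2
  have hσsq : σ ^ 2 ≤ |σ| := by
    rw [← sq_abs, pow_two]
    have := mul_le_mul_of_nonneg_left hσ1 hσ0.le
    linarith only [this]
  have hσsq0 := sq_nonneg σ
  have h1t0 : 0 < 1 / t := by positivity
  have hz2 : |z - 2 * d| ≤ 2 * C0 * (σ ^ 2 + 1 / t) := by
    refine hz.trans ?_
    have h1 : σ ^ 2 + 1 / T + Real.sqrt p ≤ 2 * (σ ^ 2 + 1 / t) := by linarith only [hsq, h1Tt, hv]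
    have := mul_le_mul_of_nonneg_left h1 hC0.le
    linarith only [this]
  have hz11 : |z - 2 * d| ≤ 1 := by
    refine hz2.trans ?_
    have h3 : σ ^ 2 + 1 / t ≤ 2 * c := by linarith only [hσsq, h1tc, hσc]
    calc 2 * C0 * (σ ^ 2 + 1 / t) ≤ 2 * C0 * (2 * c) :=
          mul_le_mul_of_nonneg_left h3 (by positivity)
      _ ≤ 1 := by linarith only [hc5, hc]
  have hz1 : |z| ≤ 2 * d + 1 := by
    have h2 := abs_add_le (z - 2 * d) (2 * d)
    rw [sub_add_cancel, abs_of_nonneg (by positivity : (0 : ℝ) ≤ 2 * d)] at h2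
    linarith only [h2, hz11]
  have hμT : 9 * (1 / e * t) ≤ μ := by rw [← hT]; exact hμ
  have hμ0 : 0 < μ := by linarith only [hμ, hT0]
  have hMT' : 1 / e * t + 3 ≤ M' := by rw [← hT]; exact hMT
  have ht16 : 16 ≤ t := by linarith only [ht50]
  have hpT : p ≤ 1 / (1 / e * t) ^ (N + 5) := by rw [← hT]; exact hpN
  have hpp0 : p ≤ p₀ := hpt1.trans (h1Tt.trans (h1tc.trans hcp))
  have hc12 : c ≤ 1 / 2 := by linarith only [hce2, he50]
  have hne : NeZero M' := ⟨hM'0⟩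
  have hflatF : ∀ h : NeZero M', gau d M' v {V | ¬ Flat z μ V} ≤ ENNReal.ofReal p := by
    intro h
    refine (measure_mono ?_).trans (hflat h)
    intro V hV hcon
    refine hV ⟨hcon.1, hcon.2.1, fun x => (hcon.2.2 x).trans ?_⟩
    have := mul_le_mul_of_nonneg_right he50 hμ0.le
    linarith only [this]
  have hlow : ∀ E g : ℝ, z + 1 / t ≤ E → LyaAt d σ E g →
      (1 - e) * ((1 - 2 * e) * Real.sqrt (min (E - z) e)) ≤ g := fun E g hE hg =>
    lowZ sgx hd he0 he50 hA hsms hσ hσ1 hv hμ0 hz3 (hflatF hne) hpp0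
      hσt ht16 h1te hMT' r1 r2 hE hg
  refine ⟨z, μ, hz, hz3, hμ, hflat, ?_⟩
  intro E g hE hE2 hg
  have hlam : 0 < E - z := by linarith only [hE, h1t0]
  have hs := Real.sqrt_nonneg (E - z)
  constructor
  · refine le_trans ?_ (hlow E g hE hg)
    rw [min_eq_left (by linarith only [hE2, hce]), ← mul_assoc]
    refine le_trans ?_ (mul_le_mul_of_nonneg_right (aux4 he0 he4) hs)
    rw [hεd]
    exact le_of_eq (by ring)
  · have hE3 : E ≤ z + 1 / 2 := by linarith only [hE2, hc12]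
    have h0 := upZ hd he0 he50 hCP hC2 hN hA20 hCU hcdp hupx hσ hσ1 hv hz3 hz1 hμT
      hflat hσt ht16 hMT' hp0.le hpT htU r3 r4 r5 r6 hE hE3 hg
    refine h0.trans ?_
    rw [← mul_assoc]
    refine (mul_le_mul_of_nonneg_right (aux5 he0 he50 heCP heC) hs).trans ?_
    rw [hεd]
    exact le_of_eq (by ring)

end Pool.Agent.LE.H93F
end
end -- Pool.Agent.Helper93_LSF.Torus

section -- Pool.Agent.Helper93_LSF.Inner

/-!
# Between the effective band edge and the bulk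
-/

set_option autoImplicit false

open MeasureTheory ProbabilityTheory Function Filter

open scoped ENNReal BigOperators Topology NNReal

noncomputable section

namespace Pool.Agent.LE.H93F

open Pool.Agent.Anderson Pool.Agent.Loc Pool.Agent.Mob Pool.Agent.Helper54.Bal Pool.Agent.BED
  Pool.Agent.LE.H93W Pool.Agent.LE.H93Z Pool.Agent.LE.CL

/-- two landscape functions of one potential -/
theorem z_close {d M : ℕ} [NeZero M] {ε ε' z z' μ μ' m : ℝ} {V : Tor d M → ℝ}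
    (h : FlatE ε z μ V) (h' : FlatE ε' z' μ' V) (hε : ε ≤ 1 / 50) (hε' : ε' ≤ 1 / 50)
    (hm : 0 < m) (hμ : m ≤ μ) (hμ' : m ≤ μ') : |z - z'| ≤ 6 / 5 / m := by
  obtain ⟨-, hA, hf⟩ := h
  obtain ⟨-, hA', hf'⟩ := h'
  obtain ⟨D, hD⟩ : ∃ D : Tor d M → ℝ, D = DD z V := ⟨_, rfl⟩
  obtain ⟨D', hD'⟩ : ∃ D' : Tor d M → ℝ, D' = DD z' V := ⟨_, rfl⟩
  have hμ0 : 0 < μ := by linarith only [hm, hμ]
  have hμ0' : 0 < μ' := by linarith only [hm, hμ']
  have b1 : ∀ x, 49 / 50 * μ ≤ D x := fun x => by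
    have h1 := (abs_le.1 (hf x)).1
    have h2 := mul_le_mul_of_nonneg_right hε hμ0.le
    rw [hD]
    linarith
  have b2 : ∀ x, D x ≤ 51 / 50 * μ := fun x => by
    have h1 := (abs_le.1 (hf x)).2
    have h2 := mul_le_mul_of_nonneg_right hε hμ0.le
    rw [hD]
    linarith
  have b1' : ∀ x, 49 / 50 * μ' ≤ D' x := fun x => by
    have h1 := (abs_le.1 (hf' x)).1
    have h2 := mul_le_mul_of_nonneg_right hε' hμ0'.le
    rw [hD']
    linarith
  have b2' : ∀ x, D' x ≤ 51 / 50 * μ' := fun x => by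
    have h1 := (abs_le.1 (hf' x)).2
    have h2 := mul_le_mul_of_nonneg_right hε' hμ0'.le
    rw [hD']
    linarith
  -- the identity
  have e1 : Matrix.mulVec (AM z V) D = 1 := by rw [hD]; exact AM_DD hA
  have e2 : Matrix.mulVec (AM z' V) D' = 1 := by rw [hD']; exact AM_DD hA'
  have e3 : AM z' V = AM z V - (z - z') • (1 : Matrix _ _ ℝ) := by
    rw [← AM_sub]
    congr 1
    ring
  have e4 : ∑ x, D x = ∑ x, D' x - (z - z') * ∑ x, D x * D' x := by
    have h1 : ∑ x, D x * (Matrix.mulVec (AM z' V) D') x = ∑ x, D x := by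
      rw [e2]
      simp
    have h2 : ∀ x, (Matrix.mulVec (AM z' V) D') x =
        (Matrix.mulVec (AM z V) D') x - (z - z') * D' x := by
      intro x
      rw [e3, Matrix.sub_mulVec, Matrix.smul_mulVec, Matrix.one_mulVec]
      simp
    have h3 : ∑ x, D x * (Matrix.mulVec (AM z V) D') x = ∑ x, D' x := by
      have h4 : ∑ x, D x * (Matrix.mulVec (AM z V) D') x =
          ∑ x, (Matrix.mulVec (AM z V) D) x * D' x := by
        simp only [Matrix.mulVec, dotProduct]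
        simp only [Finset.mul_sum, Finset.sum_mul]
        rw [Finset.sum_comm]
        refine Finset.sum_congr rfl fun x _ => Finset.sum_congr rfl fun y _ => ?_
        rw [AM_symm z V y x]
        ring
      rw [h4, e1]
      simp
    rw [← h1]
    simp only [h2, mul_sub, Finset.sum_sub_distrib, h3]
    congr 1
    rw [Finset.mul_sum]
    exact Finset.sum_congr rfl fun x _ => by ring
  -- the bounds
  obtain ⟨n, hn⟩ : ∃ n : ℝ, n = (Finset.univ : Finset (Tor d M)).card := ⟨_, rfl⟩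
  have hn0 : 0 < n := by
    rw [hn]
    exact_mod_cast Finset.card_pos.2 ⟨0, Finset.mem_univ _⟩
  have s1 : ∑ x, D x ≤ n * (51 / 50 * μ) := by
    refine (Finset.sum_le_card_nsmul _ _ _ fun x _ => b2 x).trans (le_of_eq ?_)
    rw [hn, nsmul_eq_mul]
  have s1' : ∑ x, D' x ≤ n * (51 / 50 * μ') := by
    refine (Finset.sum_le_card_nsmul _ _ _ fun x _ => b2' x).trans (le_of_eq ?_)
    rw [hn, nsmul_eq_mul]
  have s0 : 0 ≤ ∑ x, D x := Finset.sum_nonneg fun x _ => by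
    have := b1 x
    linarith only [hm, hμ, this]
  have s0' : 0 ≤ ∑ x, D' x := Finset.sum_nonneg fun x _ => by
    have := b1' x
    linarith only [hm, hμ', this]
  have s2 : n * (49 / 50 * μ * (49 / 50 * μ')) ≤ ∑ x, D x * D' x := by
    refine le_trans (le_of_eq ?_) (Finset.card_nsmul_le_sum _ _ _ fun x _ =>
      mul_le_mul (b1 x) (b1' x) (by positivity) (by have := b1 x; linarith only [hm, hμ, this]))
    rw [hn, nsmul_eq_mul]
  obtain ⟨S, hS⟩ : ∃ S : ℝ, S = ∑ x, D x * D' x := ⟨_, rfl⟩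
  rw [← hS] at e4 s2
  have hS0 : 0 < S := lt_of_lt_of_le (by positivity) s2
  have key : |z - z'| * S ≤ max (n * (51 / 50 * μ')) (n * (51 / 50 * μ)) := by
    rw [← abs_of_pos hS0, ← abs_mul]
    have h5 : (z - z') * S = ∑ x, D' x - ∑ x, D x := by linarith
    rw [h5, abs_le]
    constructor
    · have := le_max_right (n * (51 / 50 * μ')) (n * (51 / 50 * μ))
      linarith
    · have := le_max_left (n * (51 / 50 * μ')) (n * (51 / 50 * μ))
      linarith
  rw [le_div_iff₀ hm]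
  have h6 : |z - z'| * (n * (49 / 50 * μ * (49 / 50 * μ'))) ≤
      max (n * (51 / 50 * μ')) (n * (51 / 50 * μ)) :=
    (mul_le_mul_of_nonneg_left s2 (abs_nonneg _)).trans key
  have h7 : 0 ≤ |z - z'| := abs_nonneg _
  rcases le_total μ μ' with hle | hle
  · have h8 : max (n * (51 / 50 * μ')) (n * (51 / 50 * μ)) = n * (51 / 50 * μ') :=
      max_eq_left (mul_le_mul_of_nonneg_left (by linarith only [hle]) hn0.le)
    rw [h8] at h6
    have h9 : |z - z'| * (49 / 50 * (49 / 50) * μ) ≤ 51 / 50 := by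
      have h10 : (|z - z'| * (49 / 50 * (49 / 50) * μ)) * (n * μ') ≤ 51 / 50 * (n * μ') := by
        nlinarith only [h6]
      exact le_of_mul_le_mul_right h10 (by positivity)
    have h11 := mul_le_mul_of_nonneg_left hμ h7
    nlinarith only [h9, h11]
  · have h8 : max (n * (51 / 50 * μ')) (n * (51 / 50 * μ)) = n * (51 / 50 * μ) :=
      max_eq_right (mul_le_mul_of_nonneg_left (by linarith only [hle]) hn0.le)
    rw [h8] at h6
    have h9 : |z - z'| * (49 / 50 * (49 / 50) * μ') ≤ 51 / 50 := by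
      have h10 : (|z - z'| * (49 / 50 * (49 / 50) * μ')) * (n * μ) ≤ 51 / 50 * (n * μ) := by
        nlinarith only [h6]
      exact le_of_mul_le_mul_right h10 (by positivity)
    have h11 := mul_le_mul_of_nonneg_left hμ' h7
    nlinarith only [h9, h11]

/-- closeness of two effective edges -/
theorem close_asy1 {d : ℕ} {c c' σ a b u : ℝ}
    (hA : ∀ E g : ℝ, a + u ≤ E → E ≤ a + c → LyaAt d σ E g →
      1 / 2 * Real.sqrt (E - a) ≤ g ∧ g ≤ 3 / 2 * Real.sqrt (E - a))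
    (hB : ∀ E g : ℝ, b + u ≤ E → E ≤ b + c' → LyaAt d σ E g →
      1 / 2 * Real.sqrt (E - b) ≤ g ∧ g ≤ 3 / 2 * Real.sqrt (E - b))
    (hu : 0 < u) (hc : |a - b| + u ≤ c) (hc' : u ≤ c')
    (hex : ∀ E, ∃ g, LyaAt d σ E g) : b - a ≤ 8 * u := by
  by_contra hcon
  push Not at hcon
  obtain ⟨g, hg⟩ := hex (b + u)
  have h1 := (hB (b + u) g (by linarith) (by linarith) hg).2
  have h2 := neg_abs_le (a - b)
  have h3 := (hA (b + u) g (by linarith only [hu, hcon]) (by linarith only [hc, h2]) hg).1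
  have e1 : b + u - b = u := by ring
  rw [e1] at h1
  have h5 : 3 * Real.sqrt u < Real.sqrt (b + u - a) := by
    have e2 : 3 * Real.sqrt u = Real.sqrt (9 * u) := by
      rw [Real.sqrt_mul (by norm_num)]
      congr 1
      rw [show (9 : ℝ) = 3 ^ 2 by norm_num, Real.sqrt_sq (by norm_num)]
    rw [e2]
    exact Real.sqrt_lt_sqrt (by positivity) (by linarith only [hcon])
  linarith

theorem close_asy {d : ℕ} {c c' σ a b u : ℝ}
    (hA : ∀ E g : ℝ, a + u ≤ E → E ≤ a + c → LyaAt d σ E g →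
      1 / 2 * Real.sqrt (E - a) ≤ g ∧ g ≤ 3 / 2 * Real.sqrt (E - a))
    (hB : ∀ E g : ℝ, b + u ≤ E → E ≤ b + c' → LyaAt d σ E g →
      1 / 2 * Real.sqrt (E - b) ≤ g ∧ g ≤ 3 / 2 * Real.sqrt (E - b))
    (hu : 0 < u) (hc : |a - b| + u ≤ c) (hc' : |a - b| + u ≤ c')
    (hex : ∀ E, ∃ g, LyaAt d σ E g) : |a - b| ≤ 8 * u := by
  have h0 := abs_nonneg (a - b)
  rw [abs_le]
  constructor
  · have := close_asy1 hA hB hu hc (by linarith) hex
    linarith
  · have := close_asy1 hB hA hu (by rw [abs_sub_comm]; exact hc') (by linarith) hex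
    linarith

theorem growth_le_self (d : ℕ) {x : ℝ} (hx : 1 ≤ x) : growth d x ≤ x := by
  unfold growth
  split_ifs
  · rw [Real.sqrt_le_left (by linarith only [hx])]
    nlinarith only [hx]
  · have := Real.log_le_sub_one_of_pos (by linarith : 0 < x)
    linarith
  · exact hx

theorem rpow_le_growth {d : ℕ} (hd : 3 ≤ d) {lam : ℝ} (h0 : 0 < lam) (h1 : lam ≤ 1) :
    lam ^ (((d : ℝ) - 4) / 2) ≤ growth d (1 / lam) := by
  have h2 : 1 ≤ 1 / lam := by rw [le_div_iff₀ h0]; linarith only [h1]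
  by_cases h3 : d = 3
  · subst h3
    have e : (((3 : ℕ) : ℝ) - 4) / 2 = -(1 / 2) := by norm_num
    unfold growth
    rw [if_pos rfl, e, Real.rpow_neg h0.le, ← Real.sqrt_eq_rpow, one_div, Real.sqrt_inv]
  · refine le_trans ?_ (one_le_growth d h2)
    refine Real.rpow_le_one h0.le h1 ?_
    have : (4 : ℝ) ≤ d := by
      have : 4 ≤ d := by omega
      exact_mod_cast this
    linarith only [this]

theorem rpow_half {d : ℕ} (hd : 3 ≤ d) {lam lam' : ℝ} (h0 : 0 < lam) (h1 : lam / 2 ≤ lam')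
    (h2 : lam' ≤ 2 * lam) :
    (1 / 2) ^ d * lam ^ (((d : ℝ) - 4) / 2) ≤ lam' ^ (((d : ℝ) - 4) / 2) := by
  have h0' : 0 < lam' := by linarith only [h0, h1]
  have hdR : (3 : ℝ) ≤ d := by exact_mod_cast hd
  have hp : (0 : ℝ) < lam ^ (((d : ℝ) - 4) / 2) := Real.rpow_pos_of_pos h0 _
  rcases le_total 0 (((d : ℝ) - 4) / 2) with ha | ha
  · have h3 : (lam / 2) ^ (((d : ℝ) - 4) / 2) ≤ lam' ^ (((d : ℝ) - 4) / 2) :=
      Real.rpow_le_rpow (by positivity) h1 ha
    refine le_trans ?_ h3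
    have e0 : lam / 2 = lam * (1 / 2) := by ring
    rw [e0, Real.mul_rpow h0.le (by norm_num), mul_comm]
    refine mul_le_mul_of_nonneg_left ?_ hp.le
    rw [← Real.rpow_natCast]
    exact Real.rpow_le_rpow_of_exponent_ge (by norm_num) (by norm_num) (by linarith only [ha])
  · have h3 : (2 * lam) ^ (((d : ℝ) - 4) / 2) ≤ lam' ^ (((d : ℝ) - 4) / 2) :=
      Real.rpow_le_rpow_of_nonpos h0' h2 ha
    refine le_trans ?_ h3
    rw [Real.mul_rpow (by norm_num) h0.le]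
    refine mul_le_mul_of_nonneg_right ?_ hp.le
    have e : (2 : ℝ) ^ (((d : ℝ) - 4) / 2) = (1 / 2) ^ (-(((d : ℝ) - 4) / 2)) := by
      rw [one_div, Real.inv_rpow (by norm_num), Real.rpow_neg (by norm_num), inv_inv]
    rw [e, ← Real.rpow_natCast]
    refine Real.rpow_le_rpow_of_exponent_ge (by norm_num) (by norm_num) ?_
    linarith only [hdR]

/-- the probability of a large torus -/
theorem p_large {d m : ℕ} {C T x y K₀ b σ : ℝ} {M : ℕ} (hC : 0 < C) (hT : 1 ≤ T) (hσ : 0 < σ)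
    (hx : 1 ≤ x) (hy : y = x / σ)
    (hM : (M : ℝ) ≤ 2 * y ^ K₀) (hb : (d * K₀ + m) * Real.log y ≤ b) :
    C * (1 + Real.log T) * (M : ℝ) ^ d * Real.exp (-b) ≤ C * T * 2 ^ d * (σ / x) ^ m := by
  have hx0 : 0 < x := by linarith only [hx]
  have hy0 : 0 < y := by rw [hy]; positivity
  have h1 : 1 + Real.log T ≤ T := by
    have := Real.log_le_sub_one_of_pos (by linarith : 0 < T)
    linarith
  have h1' : 0 ≤ 1 + Real.log T := by
    have := Real.log_nonneg hT
    linarith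
  have h2 : (M : ℝ) ^ d ≤ 2 ^ d * Real.exp (d * K₀ * Real.log y) := by
    refine (pow_le_pow_left₀ (Nat.cast_nonneg _) hM d).trans (le_of_eq ?_)
    rw [mul_pow, Real.rpow_def_of_pos hy0, ← Real.exp_nat_mul]
    congr 2
    ring
  have h3 : Real.exp (-b) ≤ Real.exp (-((d * K₀ + m) * Real.log y)) :=
    Real.exp_le_exp.2 (by linarith)
  have h4 : Real.exp (d * K₀ * Real.log y) * Real.exp (-((d * K₀ + m) * Real.log y)) =
      (σ / x) ^ m := by
    rw [← Real.exp_add]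
    have e : d * K₀ * Real.log y + -((d * K₀ + m) * Real.log y) = (m : ℝ) * (-Real.log y) := by
      ring
    rw [e, Real.exp_nat_mul, Real.exp_neg, Real.exp_log hy0, hy, inv_div]
  calc C * (1 + Real.log T) * (M : ℝ) ^ d * Real.exp (-b)
      ≤ C * T * (2 ^ d * Real.exp (d * K₀ * Real.log y)) *
          Real.exp (-((d * K₀ + m) * Real.log y)) := by gcongr
    _ = C * T * 2 ^ d * (Real.exp (d * K₀ * Real.log y) *
          Real.exp (-((d * K₀ + m) * Real.log y))) := by ring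
    _ = _ := by rw [h4]

end Pool.Agent.LE.H93F
end
end -- Pool.Agent.Helper93_LSF.Inner

section -- Pool.Agent.Helper93_LSF.Inner2

/-!
# Between the effective band edge and the bulk, part 2
-/

set_option autoImplicit false

open MeasureTheory ProbabilityTheory Function Filter

open scoped ENNReal BigOperators Topology NNReal

noncomputable section

namespace Pool.Agent.LE.H93F

open Pool.Agent.Anderson Pool.Agent.Loc Pool.Agent.Mob Pool.Agent.Helper54.Bal Pool.Agent.BED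
  Pool.Agent.LE.H93W Pool.Agent.LE.H93Z Pool.Agent.LE.CL

theorem exists_both {d M : ℕ} [NeZero M] {v : ℝ≥0} {p q : ℝ} {A B : (Tor d M → ℝ) → Prop}
    (hA : gau d M v {V | ¬ A V} ≤ ENNReal.ofReal p) (hB : gau d M v {V | ¬ B V} ≤ ENNReal.ofReal q)
    (hp : p ≤ 1 / 4) (hq : q ≤ 1 / 4) : ∃ V, A V ∧ B V := by
  by_contra hcon
  push Not at hcon
  have h1 : (Set.univ : Set (Tor d M → ℝ)) ⊆ {V | ¬ A V} ∪ {V | ¬ B V} := by
    intro V _
    by_cases h : A V
    · exact Or.inr (hcon V h)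
    · exact Or.inl h
  have : IsProbabilityMeasure (gau d M v) := by unfold gau; infer_instance
  have h2 : (1 : ℝ≥0∞) ≤ ENNReal.ofReal (1 / 4) + ENNReal.ofReal (1 / 4) := by
    rw [← measure_univ (μ := gau d M v)]
    refine (measure_mono h1).trans ((measure_union_le _ _).trans (add_le_add ?_ ?_))
    · exact hA.trans (ENNReal.ofReal_le_ofReal hp)
    · exact hB.trans (ENNReal.ofReal_le_ofReal hq)
  rw [← ENNReal.ofReal_add (by norm_num) (by norm_num)] at h2
  rw [← ENNReal.ofReal_one, ENNReal.ofReal_le_ofReal_iff (by norm_num)] at h2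
  norm_num at h2

/-- the two landscape functions of one torus: both edges are within `9 / t` of each other -/
theorem two_edges (fle : FleStmt) (sgx : SgxStmt) (sms : SmsStmt) (cdp : CdpStmt) (upx : UpxStmt)
    (flq : IR.FlqStmt) (hexE : ∀ (d : ℕ) (σ E : ℝ), 1 ≤ d → σ ≠ 0 → ∃ g, LyaAt d σ E g)
    (d : ℕ) (hd3 : 3 ≤ d) (K₀ c' : ℝ) (hK₀ : 1 ≤ K₀) (hc' : 0 < c') :
    ∃ Kε c s B η₀ : ℝ, 1 ≤ Kε ∧ 0 < c ∧ 0 < s ∧ 1 ≤ B ∧ 0 < η₀ ∧
      ∀ (M' : ℕ) (v : ℝ≥0) (σ t L Es : ℝ), σ ≠ 0 → |σ| ≤ c → (v : ℝ) = σ ^ 2 → B ≤ t →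
      L = Real.log (1 / |σ|) + Real.log t → σ ^ 2 * growth d t * L ≤ s →
      (t / |σ|) ^ K₀ ≤ M' → M' ≤ 2 * (t / |σ|) ^ K₀ → |Es - 2 * d| ≤ η₀ →
      (∀ E g : ℝ, Es + 1 / t ≤ E → E ≤ Es + c' → LyaAt d σ E g →
        1 / 2 * Real.sqrt (E - Es) ≤ g ∧ g ≤ 3 / 2 * Real.sqrt (E - Es)) →
      ∃ z μ ε p : ℝ, z ≤ 2 * d + 1 ∧ 10 * t ≤ μ ∧ μ ≤ 12 * t ∧ 0 < ε ∧
        ε ^ 2 ≤ Kε * L * σ ^ 2 * growth d t ∧ 0 ≤ p ∧ p ≤ (|σ| / t) ^ (2 * (d : ℝ) + 1) ∧
        (∀ h : NeZero M', gau d M' v {V | ¬ FlatE ε z μ V} ≤ ENNReal.ofReal p) ∧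
        |Es - z| ≤ 9 / t := by
  have hd1 : 1 ≤ d := by omega
  have hdR : (3 : ℝ) ≤ d := by exact_mod_cast hd3
  obtain ⟨e, ct, c0, C0, Q, he0, he50, hct, hct4, hc0, hC0, htor⟩ :=
    torus fle sgx sms cdp upx d hd3
  obtain ⟨q0, D0, hq0, hD0, hflq⟩ := flq d hd3
  obtain ⟨Kε, hKεd⟩ : ∃ K : ℝ, K = max 1 ((d * K₀ + (2 * d + 4)) / q0) := ⟨_, rfl⟩
  have hKε1 : 1 ≤ Kε := by rw [hKεd]; exact le_max_left _ _
  have hKε2 : d * K₀ + (2 * d + 4) ≤ q0 * Kε := by
    have : (d * K₀ + (2 * d + 4)) / q0 ≤ Kε := by rw [hKεd]; exact le_max_right _ _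
    rw [div_le_iff₀ hq0] at this
    linarith only [this]
  have hmm : 0 < d * K₀ + ((Q : ℝ) + 5) := by positivity
  obtain ⟨s₂, hs₂d⟩ : ∃ s : ℝ, s = c0 * e / (d * K₀ + ((Q : ℝ) + 5)) := ⟨_, rfl⟩
  have hs₂ : 0 < s₂ := by rw [hs₂d]; positivity
  have hs₂e : (d * K₀ + ((Q : ℝ) + 5)) * s₂ = c0 * e := by
    rw [hs₂d]
    field_simp
  obtain ⟨T₀, hT₀, hlog⟩ := log_le_sqrt (2 / s₂ + 1)
  have hT₀0 : 0 < T₀ := by linarith only [hT₀]
  obtain ⟨s, hsd⟩ : ∃ s : ℝ, s = min s₂ (1 / (2500 * Kε)) := ⟨_, rfl⟩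
  have hs : 0 < s := by rw [hsd]; positivity
  have hss₂ : s ≤ s₂ := by rw [hsd]; exact min_le_left _ _
  have hsK : Kε * s ≤ 1 / 2500 := by
    have : s ≤ 1 / (2500 * Kε) := by rw [hsd]; exact min_le_right _ _
    rw [le_div_iff₀ (by positivity)] at this
    linarith only [this]
  obtain ⟨m, hmd⟩ : ∃ m : ℝ, m = min c' ct := ⟨_, rfl⟩
  have hm : 0 < m := by rw [hmd]; exact lt_min hc' hct
  have hmc' : m ≤ c' := by rw [hmd]; exact min_le_left _ _
  have hmct : m ≤ ct := by rw [hmd]; exact min_le_right _ _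
  obtain ⟨c, hcd⟩ : ∃ c : ℝ, c = min (min (min ct (1 / T₀)) (min (1 / (1 / e + 4)) (1 / 4)))
      (min (min (e ^ Q / (4 * (C0 * 2 ^ d / e + 1))) (1 / (D0 * 2 ^ d + 1)))
        (m / (16 * (C0 + 1)))) := ⟨_, rfl⟩
  have hc : 0 < c := by rw [hcd]; positivity
  have k1 : c ≤ ct := by
    rw [hcd]; exact (min_le_left _ _).trans ((min_le_left _ _).trans (min_le_left _ _))
  have k2 : T₀ * c ≤ 1 := by
    have : c ≤ 1 / T₀ := by
      rw [hcd]; exact (min_le_left _ _).trans ((min_le_left _ _).trans (min_le_right _ _))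
    rw [le_div_iff₀ hT₀0] at this
    linarith only [this]
  have k3 : (1 / e + 4) * c ≤ 1 := by
    have : c ≤ 1 / (1 / e + 4) := by
      rw [hcd]; exact (min_le_left _ _).trans ((min_le_right _ _).trans (min_le_left _ _))
    rw [le_div_iff₀ (by positivity)] at this
    linarith only [this]
  have k4 : c ≤ 1 / 4 := by
    rw [hcd]; exact (min_le_left _ _).trans ((min_le_right _ _).trans (min_le_right _ _))
  have k5 : (C0 * 2 ^ d / e + 1) * c ≤ e ^ Q / 4 := by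
    have : c ≤ e ^ Q / (4 * (C0 * 2 ^ d / e + 1)) := by
      rw [hcd]; exact (min_le_right _ _).trans ((min_le_left _ _).trans (min_le_left _ _))
    rw [le_div_iff₀ (by positivity)] at this
    linarith only [this]
  have k6 : (D0 * 2 ^ d + 1) * c ≤ 1 := by
    have : c ≤ 1 / (D0 * 2 ^ d + 1) := by
      rw [hcd]; exact (min_le_right _ _).trans ((min_le_left _ _).trans (min_le_right _ _))
    rw [le_div_iff₀ (by positivity)] at this
    linarith only [this]
  have k7 : 16 * (C0 + 1) * c ≤ m := by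
    have : c ≤ m / (16 * (C0 + 1)) := by
      rw [hcd]; exact (min_le_right _ _).trans (min_le_right _ _)
    rw [le_div_iff₀ (by positivity)] at this
    linarith only [this]
  obtain ⟨B, hBd⟩ : ∃ B : ℝ, B = 1 / e + 4 + 1 / c := ⟨_, rfl⟩
  have hB1 : 1 / e + 4 ≤ B := by
    rw [hBd]
    have : 0 < 1 / c := by positivity
    linarith only [this]
  have hB2 : 1 / c ≤ B := by
    rw [hBd]
    have : 0 < 1 / e := by positivity
    linarith only [this]
  have he1 : 0 < 1 / e := by positivity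
  refine ⟨Kε, c, s, B, m / 4, hKε1, hc, hs, by linarith only [hB1, he1],
    by linarith only [hm], ?_⟩
  intro M' v σ t L Es hσ hσc hv hBt hL hS hM1 hM2 hEs hasy
  have hσ0 : 0 < |σ| := abs_pos.2 hσ
  have hσ1 : |σ| ≤ 1 := by linarith only [hσc, k4]
  have hσ2 : 0 < σ ^ 2 := by positivity
  have hσsq : σ ^ 2 = |σ| ^ 2 := (sq_abs σ).symm
  have ht4 : 1 / e + 4 ≤ t := hB1.trans hBt
  have ht1 : 1 ≤ t := by linarith only [ht4, he1]
  have ht0 : 0 < t := by linarith only [ht1]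
  have hi1 : 1 / e + 4 ≤ 1 / |σ| := by
    rw [le_div_iff₀ hσ0]
    exact (mul_le_mul_of_nonneg_left hσc (by positivity)).trans k3
  have hiT : T₀ ≤ 1 / |σ| := by
    rw [le_div_iff₀ hσ0]
    exact (mul_le_mul_of_nonneg_left hσc hT₀0.le).trans k2
  have hi0 : 0 < 1 / |σ| := by positivity
  have hi1' : 1 ≤ 1 / |σ| := by linarith only [hi1, he1]
  obtain ⟨t₁, ht₁d⟩ : ∃ t₁ : ℝ, t₁ = max t (1 / |σ|) := ⟨_, rfl⟩
  have htt₁ : t ≤ t₁ := by rw [ht₁d]; exact le_max_left _ _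
  have hit₁ : 1 / |σ| ≤ t₁ := by rw [ht₁d]; exact le_max_right _ _
  have ht₁1 : 1 ≤ t₁ := ht1.trans htt₁
  have ht₁0 : 0 < t₁ := by linarith only [ht₁1]
  obtain ⟨T, hT⟩ : ∃ T : ℝ, T = 1 / e * t₁ := ⟨_, rfl⟩
  have h1e : 1 ≤ 1 / e := by rw [le_div_iff₀ he0]; linarith only [he50]
  have hTt₁ : t₁ ≤ T := by
    rw [hT]
    have := mul_le_mul_of_nonneg_right h1e ht₁0.le
    linarith only [this]
  have hT1 : 1 ≤ T := ht₁1.trans hTt₁
  have hT0 : 0 < T := by linarith only [hT1]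
  obtain ⟨y, hy⟩ : ∃ y : ℝ, y = t / |σ| := ⟨_, rfl⟩
  obtain ⟨y₁, hy₁⟩ : ∃ y : ℝ, y = t₁ / |σ| := ⟨_, rfl⟩
  rw [← hy] at hM1 hM2
  have hyy₁ : y ≤ y₁ := by
    rw [hy, hy₁]
    exact div_le_div_of_nonneg_right htt₁ hσ0.le
  have hyt : t ≤ y := by
    rw [hy, le_div_iff₀ hσ0]
    have := mul_le_mul_of_nonneg_left hσ1 ht0.le
    linarith only [this]
  have hy1 : 1 ≤ y := ht1.trans hyt
  have hy0 : 0 < y := by linarith only [hy1]
  have hlogy : Real.log y = L := by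
    rw [hy, hL, Real.log_div ht0.ne' hσ0.ne', one_div, Real.log_inv]
    ring
  have hlogy₁ : Real.log y₁ = Real.log (1 / |σ|) + Real.log t₁ := by
    rw [hy₁, Real.log_div ht₁0.ne' hσ0.ne', one_div, Real.log_inv]
    ring
  have hL0 : 0 ≤ L := by rw [← hlogy]; exact Real.log_nonneg hy1
  have hyM : y ≤ M' := by
    refine le_trans ?_ hM1
    calc y = y ^ (1 : ℝ) := (Real.rpow_one y).symm
      _ ≤ y ^ K₀ := Real.rpow_le_rpow_of_exponent_le hy1 hK₀
  have hM2' : (M' : ℝ) ≤ 2 * y₁ ^ K₀ := by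
    refine hM2.trans (mul_le_mul_of_nonneg_left ?_ (by norm_num))
    exact Real.rpow_le_rpow hy0.le hyy₁ (by linarith only [hK₀])
  have hTM : T + 3 ≤ M' := by
    refine le_trans ?_ hyM
    rw [hT, hy]
    rcases le_total t (1 / |σ|) with h | h
    · have e1 : t₁ = 1 / |σ| := by rw [ht₁d]; exact max_eq_right h
      rw [e1]
      have h2 : (1 / e + 4) * (1 / |σ|) ≤ t * (1 / |σ|) := mul_le_mul_of_nonneg_right ht4 hi0.le
      have e2 : t / |σ| = t * (1 / |σ|) := by ring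
      rw [e2]
      have h3 : (1 / e + 4) * (1 / |σ|) = 1 / e * (1 / |σ|) + 4 * (1 / |σ|) := by ring
      linarith only [h2, h3, hi1']
    · have e1 : t₁ = t := by rw [ht₁d]; exact max_eq_left h
      rw [e1]
      have h2 : t * (1 / e + 4) ≤ t * (1 / |σ|) := mul_le_mul_of_nonneg_left hi1 ht0.le
      have e2 : t / |σ| = t * (1 / |σ|) := by ring
      rw [e2]
      have h3 : t * (1 / e + 4) = 1 / e * t + 4 * t := by ring
      linarith only [h2, h3, ht1]
  -- the scale `t₁`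
  have hS2 : σ ^ 2 * growth d t₁ * Real.log y₁ ≤ s₂ := by
    rcases le_total t (1 / |σ|) with h | h
    · have e1 : t₁ = 1 / |σ| := by rw [ht₁d]; exact max_eq_right h
      have h1 := growth_le_self d hi1'
      have h2 := hlog _ hiT
      have h3 : Real.sqrt (1 / |σ|) ≤ 1 / |σ| := by
        rw [Real.sqrt_le_left hi0.le]
        exact le_self_pow₀ hi1' (by norm_num)
      have h4 : Real.log y₁ = 2 * Real.log (1 / |σ|) := by rw [hlogy₁, e1]; ring
      have h5 : 0 ≤ Real.log (1 / |σ|) := Real.log_nonneg hi1'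
      rw [h4, e1]
      have h6 : (2 / s₂) * Real.log (1 / |σ|) ≤ 1 / |σ| := by
        have : 0 < 2 / s₂ := by positivity
        have h8 : (2 / s₂ + 1) * (1 + Real.log (1 / |σ|)) =
          (2 / s₂) * Real.log (1 / |σ|) + (2 / s₂ + 1 + Real.log (1 / |σ|)) := by ring
        linarith only [this, h8, h2, h3, h5]
      have h7 : 2 * Real.log (1 / |σ|) ≤ s₂ * (1 / |σ|) := by
        have := mul_le_mul_of_nonneg_left h6 hs₂.le
        have e3 : s₂ * (2 / s₂ * Real.log (1 / |σ|)) = 2 * Real.log (1 / |σ|) := by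
          field_simp
        linarith only [this, e3]
      calc σ ^ 2 * growth d (1 / |σ|) * (2 * Real.log (1 / |σ|))
          ≤ σ ^ 2 * (1 / |σ|) * (s₂ * (1 / |σ|)) := by gcongr
        _ = s₂ := by
            rw [hσsq]
            field_simp
    · have e1 : t₁ = t := by rw [ht₁d]; exact max_eq_left h
      have e2 : y₁ = y := by rw [hy₁, hy, e1]
      rw [e1, e2, hlogy]
      exact hS.trans hss₂
  have hgr₁ := one_le_growth d ht₁1
  have hgrT := one_le_growth d hT1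
  have hgrt := one_le_growth d ht1
  have hly₁ : 0 ≤ Real.log y₁ := Real.log_nonneg (hy1.trans hyy₁)
  have hbT : (d * K₀ + ((Q + 5 : ℕ) : ℝ)) * Real.log y₁ ≤ c0 / (σ ^ 2 * growth d T) := by
    rw [le_div_iff₀ (by positivity)]
    push_cast
    have h1 : growth d T ≤ 1 / e * growth d t₁ := by rw [hT]; exact growth_mul d h1e ht₁1
    calc (d * K₀ + ((Q : ℝ) + 5)) * Real.log y₁ * (σ ^ 2 * growth d T)
        ≤ (d * K₀ + ((Q : ℝ) + 5)) * Real.log y₁ * (σ ^ 2 * (1 / e * growth d t₁)) := by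
          gcongr
      _ = (d * K₀ + ((Q : ℝ) + 5)) * (1 / e) * (σ ^ 2 * growth d t₁ * Real.log y₁) := by ring
      _ ≤ (d * K₀ + ((Q : ℝ) + 5)) * (1 / e) * s₂ := by gcongr
      _ = ((d * K₀ + ((Q : ℝ) + 5)) * s₂) * (1 / e) := by ring
      _ = c0 := by
          rw [hs₂e]
          field_simp
  obtain ⟨pT, hpT⟩ : ∃ p : ℝ, p = C0 * (1 + Real.log T) * (M' : ℝ) ^ d *
    Real.exp (-c0 / (σ ^ 2 * growth d T)) := ⟨_, rfl⟩
  have hpT1 : pT ≤ C0 * T * 2 ^ d * (|σ| / t₁) ^ (Q + 5) := by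
    rw [hpT, neg_div]
    exact p_large hC0 hT1 hσ0 ht₁1 hy₁ hM2' hbT
  have hpT2 : pT ≤ e ^ Q / 4 * |σ| ^ 2 / t₁ ^ (Q + 4) := by
    refine hpT1.trans ?_
    have e1 : C0 * T * 2 ^ d * (|σ| / t₁) ^ (Q + 5) =
        (C0 * 2 ^ d / e * |σ| ^ (Q + 5)) / t₁ ^ (Q + 4) := by
      have e2 : (|σ| / t₁) ^ (Q + 5) = |σ| ^ (Q + 5) / (t₁ ^ (Q + 4) * t₁) := by
        rw [div_pow, ← pow_succ]
      rw [e2, hT]
      field_simp
    rw [e1]
    refine div_le_div_of_nonneg_right ?_ (by positivity)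
    have h1 : |σ| ^ (Q + 5) ≤ |σ| ^ 3 := pow_le_pow_of_le_one hσ0.le hσ1 (by omega)
    calc C0 * 2 ^ d / e * |σ| ^ (Q + 5) ≤ C0 * 2 ^ d / e * |σ| ^ 3 :=
          mul_le_mul_of_nonneg_left h1 (by positivity)
      _ = (C0 * 2 ^ d / e * |σ|) * |σ| ^ 2 := by ring
      _ ≤ e ^ Q / 4 * |σ| ^ 2 := by
          refine mul_le_mul_of_nonneg_right ?_ (by positivity)
          refine le_trans ?_ k5
          have h2 : C0 * 2 ^ d / e * |σ| ≤ C0 * 2 ^ d / e * c :=
            mul_le_mul_of_nonneg_left hσc (by positivity)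
          linarith only [h2, hc]
  have heQ : e ^ Q ≤ 1 := pow_le_one₀ he0.le (by linarith only [he50])
  have hpTσ : pT ≤ |σ| ^ 2 / 4 := by
    refine hpT2.trans ?_
    rw [div_le_iff₀ (by positivity)]
    have h1 : 1 ≤ t₁ ^ (Q + 4) := one_le_pow₀ ht₁1
    have h2 : e ^ Q / 4 * |σ| ^ 2 ≤ |σ| ^ 2 / 4 := by
      have := mul_le_mul_of_nonneg_right heQ (by positivity : (0 : ℝ) ≤ |σ| ^ 2 / 4)
      linarith only [this]
    have h3 : |σ| ^ 2 / 4 * 1 ≤ |σ| ^ 2 / 4 * t₁ ^ (Q + 4) :=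
      mul_le_mul_of_nonneg_left h1 (by positivity)
    linarith only [h2, h3]
  have hσsq1 : |σ| ^ 2 ≤ 1 := pow_le_one₀ hσ0.le hσ1
  have hpT4 : pT ≤ 1 / 4 := by linarith only [hpTσ, hσsq1]
  have hpTQ : pT ≤ 1 / T ^ Q := by
    refine hpT2.trans ?_
    have e1 : 1 / T ^ Q = e ^ Q / t₁ ^ Q := by
      rw [hT, mul_pow, div_pow, one_pow]
      field_simp
    rw [e1]
    refine div_le_div₀ (by positivity) ?_ (by positivity) ?_
    · have h1 : e ^ Q * |σ| ^ 2 ≤ e ^ Q * 1 := mul_le_mul_of_nonneg_left hσsq1 (by positivity)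
      have h2 : 0 ≤ e ^ Q := by positivity
      linarith only [h1, h2]
    · exact pow_le_pow_right₀ ht₁1 (by omega)
  have hpT0 : 0 ≤ pT := by
    rw [hpT]
    have := Real.log_nonneg hT1
    positivity
  have hsqT : Real.sqrt pT ≤ |σ| := by
    rw [Real.sqrt_le_left hσ0.le]
    have : (0 : ℝ) ≤ |σ| ^ 2 := by positivity
    linarith only [this, hpTσ]
  -- the scale `t`
  obtain ⟨ε, hεd⟩ : ∃ ε : ℝ, ε = Real.sqrt (Kε * L * σ ^ 2 * growth d t) := ⟨_, rfl⟩
  have hLpos : 0 < L := by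
    rw [hL]
    have h1 : 0 < Real.log t := Real.log_pos (by linarith only [ht4, he1])
    have h2 : 0 ≤ Real.log (1 / |σ|) := Real.log_nonneg hi1'
    linarith only [h1, h2]
  have hin : 0 < Kε * L * σ ^ 2 * growth d t := by positivity
  have hε0 : 0 < ε := by rw [hεd]; exact Real.sqrt_pos.2 hin
  have hε2 : ε ^ 2 = Kε * L * σ ^ 2 * growth d t := by
    rw [hεd]; exact Real.sq_sqrt hin.le
  have hε50 : ε ≤ 1 / 50 := by
    have h1 : ε ^ 2 ≤ (1 / 50) ^ 2 := by
      rw [hε2]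
      calc Kε * L * σ ^ 2 * growth d t = Kε * (σ ^ 2 * growth d t * L) := by ring
        _ ≤ Kε * s := mul_le_mul_of_nonneg_left hS (by linarith only [hKε1])
        _ ≤ 1 / 2500 := hsK
        _ = (1 / 50) ^ 2 := by norm_num
    exact le_of_sq_le_sq h1 (by norm_num)
  have hbq : (d * K₀ + ((2 * d + 4 : ℕ) : ℝ)) * Real.log y ≤
      q0 * ε ^ 2 / (σ ^ 2 * growth d t) := by
    rw [le_div_iff₀ (by positivity), hε2, hlogy]
    push_cast
    calc (d * K₀ + (2 * (d : ℝ) + 4)) * L * (σ ^ 2 * growth d t)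
        ≤ (q0 * Kε) * L * (σ ^ 2 * growth d t) := by gcongr
      _ = _ := by ring
  obtain ⟨pq, hpq⟩ : ∃ p : ℝ, p = D0 * (1 + Real.log t) * (M' : ℝ) ^ d *
    Real.exp (-(q0 * ε ^ 2) / (σ ^ 2 * growth d t)) := ⟨_, rfl⟩
  have hpq1 : pq ≤ D0 * t * 2 ^ d * (|σ| / t) ^ (2 * d + 4) := by
    rw [hpq, neg_div]
    exact p_large hD0 ht1 hσ0 ht1 hy hM2 hbq
  have hst : |σ| / t ≤ |σ| := div_le_self hσ0.le ht1
  have hst0 : 0 < |σ| / t := by positivity
  have hpq2 : pq ≤ (|σ| / t) ^ (2 * d + 1) := by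
    refine hpq1.trans ?_
    have e1 : D0 * t * 2 ^ d * (|σ| / t) ^ (2 * d + 4) =
        (D0 * 2 ^ d * |σ|) * (|σ| / t) ^ 2 * (|σ| / t) ^ (2 * d + 1) := by
      have : (|σ| / t) ^ (2 * d + 4) = (|σ| / t) ^ (2 * d + 1) * (|σ| / t) ^ 2 * (|σ| / t) := by
        ring
      rw [this]
      field_simp
    rw [e1]
    have h1 : (D0 * 2 ^ d * |σ|) * (|σ| / t) ^ 2 ≤ 1 := by
      have h2 : D0 * 2 ^ d * |σ| ≤ 1 := by
        have h3 : D0 * 2 ^ d * |σ| ≤ D0 * 2 ^ d * c :=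
          mul_le_mul_of_nonneg_left hσc (by positivity)
        linarith only [h3, k6, hc]
      have h4 : (|σ| / t) ^ 2 ≤ 1 := pow_le_one₀ hst0.le (hst.trans hσ1)
      exact mul_le_one₀ h2 (by positivity) h4
    have h5 : 0 ≤ (|σ| / t) ^ (2 * d + 1) := by positivity
    have := mul_le_mul_of_nonneg_right h1 h5
    linarith only [this]
  have hpq3 : pq ≤ (|σ| / t) ^ (2 * (d : ℝ) + 1) := by
    refine hpq2.trans (le_of_eq ?_)
    rw [← Real.rpow_natCast]
    push_cast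
    rfl
  have hpq4 : pq ≤ 1 / 4 := by
    refine hpq2.trans ?_
    have h1 : (|σ| / t) ^ (2 * d + 1) ≤ (|σ| / t) ^ 1 :=
      pow_le_pow_of_le_one hst0.le (hst.trans hσ1) (by omega)
    rw [pow_one] at h1
    linarith only [h1, hst, hσc, k4]
  have hpq0 : 0 ≤ pq := by
    rw [hpq]
    have := Real.log_nonneg ht1
    positivity
  have hM3 : 3 ≤ M' := by
    have : (3 : ℝ) ≤ M' := by linarith only [hTM, hT0]
    exact_mod_cast this
  have hM0 : M' ≠ 0 := by omega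
  obtain ⟨z, μ, -, hz, hμ1, hμ2, hflat⟩ := hflq M' v σ t ε pq hσ hσ1 hv hM3 ht1
    (hyt.trans hyM) hε0 hε50 hpq (by linarith only [hpq4])
  obtain ⟨z', μ', hz', -, hμ', hflat', hasy'⟩ := htor M' v σ t₁ T pT hσ (hσc.trans k1) hv hit₁ hT
    hTM hpT hpTQ
  refine ⟨z, μ, ε, pq, hz, hμ1, hμ2, hε0, hε2.le, hpq0, hpq3, hflat, ?_⟩
  have : NeZero M' := ⟨hM0⟩
  obtain ⟨V, hV1, hV2⟩ := exists_both (hflat ‹_›) (hflat' ‹_›) hpq4 hpT4
  have hzz : |z - z'| ≤ 6 / 5 / (9 * t) :=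
    z_close hV1 hV2 hε50 he50 (by positivity) (by linarith only [hμ1, ht0])
      (by linarith only [hμ', hTt₁, htt₁, ht0])
  have hu : 0 < 1 / t := by positivity
  have hz'2 : |z' - 2 * d| ≤ 3 * m / 16 := by
    refine hz'.trans ?_
    have h1 : σ ^ 2 ≤ c := by
      rw [hσsq]
      have : |σ| ^ 2 ≤ |σ| ^ 1 := pow_le_pow_of_le_one hσ0.le hσ1 (by norm_num)
      rw [pow_one] at this
      linarith only [this, hσc]
    have h2 : 1 / T ≤ c := by
      rw [div_le_iff₀ hT0]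
      have h3 : 1 / c ≤ T := hB2.trans (hBt.trans (htt₁.trans hTt₁))
      rw [div_le_iff₀ hc] at h3
      linarith only [h3]
    have h3 : σ ^ 2 + 1 / T + Real.sqrt pT ≤ 3 * c := by
      linarith only [h1, h2, hsqT, hσc]
    have h4 : C0 * (σ ^ 2 + 1 / T + Real.sqrt pT) ≤ C0 * (3 * c) :=
      mul_le_mul_of_nonneg_left h3 hC0.le
    have h5 : 0 ≤ C0 * c := by positivity
    linarith only [h4, k7, h5, hc]
  have hut : 1 / t ≤ c := by
    rw [div_le_iff₀ ht0]
    have h3 : 1 / c ≤ t := hB2.trans hBt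
    rw [div_le_iff₀ hc] at h3
    linarith only [h3]
  have hcm : c ≤ m / 16 := by
    have h1 : 16 * 1 * c ≤ 16 * (C0 + 1) * c :=
      mul_le_mul_of_nonneg_right (by linarith only [hC0]) hc.le
    linarith only [h1, k7]
  have hdiff : |Es - z'| ≤ m / 4 + 3 * m / 16 := by
    have h1 : Es - z' = (Es - 2 * d) - (z' - 2 * d) := by ring
    rw [h1]
    exact (abs_sub _ _).trans (add_le_add hEs hz'2)
  have hu₁ : 1 / t₁ ≤ 1 / t := one_div_le_one_div_of_le ht0 htt₁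
  have hcl : |Es - z'| ≤ 8 * (1 / t) := by
    refine close_asy hasy (fun E g hE hE2 hg => hasy' E g (by linarith only [hE, hu₁]) hE2 hg)
      hu ?_ ?_ (fun E => hexE d σ E hd1 hσ)
    · linarith only [hdiff, hut, hcm, hmc', hm]
    · linarith only [hdiff, hut, hcm, hmct, hm]
  have h1 : Es - z = (Es - z') - (z - z') := by ring
  rw [h1]
  refine (abs_sub _ _).trans ((add_le_add hcl hzz).trans ?_)
  have e1 : 8 * (1 / t) + 6 / 5 / (9 * t) = (8 + 2 / 15) / t := by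
    field_simp
    ring
  rw [e1]
  exact div_le_div_of_nonneg_right (by norm_num) ht0.le

end Pool.Agent.LE.H93F
end
end -- Pool.Agent.Helper93_LSF.Inner2
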