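import Pool.Agent.Helper12_MEB.B040
import Pool.Agent.Helper12_MEB.B071
import Pool.Agent.Helper12_MEB.B077

/-!
# Merged copies (generated) of the modules

* `Pool.Agent.Helper15_LCH.LIM`
* `Pool.Agent.Helper28_LYM.VTZ`
* `Pool.Agent.Helper39_LCH.WTE`
* `Pool.Agent.Helper39_LCH.WTL`
* `Pool.Agent.Helper93_LSF.Main`
* `Pool.Agent.Helper93_LSF.Final`
* `Pool.Agent.Helper60_LCH.PTI`
* `Pool.Agent.Helper69_LCH.MEW`
* `Pool.Agent.Helper76_LCH.WTS`
* `Pool.Agent.Helper81_LCH.WTC`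
* `Pool.Agent.Helper90_LCH.AVF`
* `Pool.Agent.Helper93_LCH.Main`
* `Pool.Agent.Helper93_LCH.All`
-/

set_option autoImplicit false

section -- Pool.Agent.Helper15_LCH.LIM

/-!
# Squad LCH, row LIM: no eigenvalue in `B`, complete eigenfunctions near `B`
-/

set_option autoImplicit false

open MeasureTheory ProbabilityTheory Function Filter

open scoped ENNReal BigOperators InnerProductSpace Topology

noncomputable section

namespace Pool.Agent.LE.CH.H15

open Pool.Agent.Anderson Pool.Agent.Loc Pool.Agent.Mob Pool.Agent.Helper54.Bal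

/-- Row LIM. -/
theorem lim (hs : WtsStmt) (hc : WtcStmt) (ha : WtaStmt) : LimStmt := by
  intro d V a r B u hB hr hBJ hcpl hno
  obtain ⟨S, hS⟩ : ∃ S : Set (L2 d), S = {φ : L2 d | ∃ E₀ : ℝ, E₀ ∉ B ∧ IsEigen V E₀ φ} := ⟨_, rfl⟩
  obtain ⟨M, hM⟩ : ∃ M : Submodule ℂ (L2 d), M = (Submodule.span ℂ S).topologicalClosure := ⟨_, rfl⟩
  have hMc : IsClosed (M : Set (L2 d)) := by
    rw [hM]; exact Submodule.isClosed_topologicalClosure _
  have hcs : CompleteSpace M := hMc.completeSpace_coe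
  obtain ⟨m, hm, v, hv, huv⟩ := Submodule.exists_add_mem_mem_orthogonal (K := M) u
  -- the part in `M`
  have hm1 : Tendsto (fun η : ℝ => wt V B η m) (𝓝[>] 0) (𝓝 0) := by
    refine hs d V B m hB ?_
    rw [← hS, ← Submodule.topologicalClosure_coe, ← hM]
    exact hm
  -- the part orthogonal to `M`
  have hv1 : Orth V (Set.Icc (a - r) (a + r)) v := by
    intro E φ _ hφ
    have h1 : φ ∈ M := by
      by_cases hE : E ∈ B
      · rw [hno E hE φ hφ]; exact M.zero_mem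
      · rw [hM]
        refine Submodule.le_topologicalClosure _ (Submodule.subset_span ?_)
        rw [hS]
        exact ⟨E, hE, hφ⟩
    exact (Submodule.mem_orthogonal M v).1 hv φ h1
  have hv2 : ∀ η : ℝ, 0 < η → ∀ E ∈ B, ‖G V (zz η E) v‖ ≤ 4 / r * ‖v‖ := by
    intro η hη E hE
    have h1 := hc d V a r η E v hη hcpl hv1
    have h2 : |E - a| ≤ r / 2 := by
      rw [abs_le]
      obtain ⟨h3, h4⟩ := hBJ hE
      constructor
      · linarith only [h3]
      · linarith only [h4]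
    have h3 : r / 2 * ‖G V (zz η E) v‖ ≤ (r - |E - a|) * ‖G V (zz η E) v‖ :=
      mul_le_mul_of_nonneg_right (by linarith) (norm_nonneg _)
    rw [div_mul_eq_mul_div, le_div_iff₀ hr]
    linarith only [h1, h3]
  have hv3 : ∀ η : ℝ, 0 < η → wt V B η v ≤
      ENNReal.ofReal (η * (1 / Real.pi * (4 / r * ‖v‖) ^ 2)) * ENNReal.ofReal r := by
    intro η hη
    unfold wt
    calc ∫⁻ E in B, ENNReal.ofReal (η / Real.pi * ‖G V (zz η E) v‖ ^ 2)
        ≤ ∫⁻ _ in B, ENNReal.ofReal (η * (1 / Real.pi * (4 / r * ‖v‖) ^ 2)) := by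
          refine setLIntegral_mono' hB.measurableSet fun E hE => ENNReal.ofReal_le_ofReal ?_
          have h1 : ‖G V (zz η E) v‖ ^ 2 ≤ (4 / r * ‖v‖) ^ 2 :=
            pow_le_pow_left₀ (norm_nonneg _) (hv2 η hη E hE) 2
          have h2 : 0 ≤ η / Real.pi := div_nonneg hη.le Real.pi_pos.le
          have h3 := mul_le_mul_of_nonneg_left h1 h2
          have h4 : η / Real.pi * (4 / r * ‖v‖) ^ 2 = η * (1 / Real.pi * (4 / r * ‖v‖) ^ 2) := by
            ring
          rw [← h4]; exact h3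
      _ = ENNReal.ofReal (η * (1 / Real.pi * (4 / r * ‖v‖) ^ 2)) * volume B := by
          rw [setLIntegral_const]
      _ ≤ ENNReal.ofReal (η * (1 / Real.pi * (4 / r * ‖v‖) ^ 2)) * ENNReal.ofReal r := by
          refine mul_le_mul_right (le_trans (measure_mono hBJ) ?_) _
          rw [Real.volume_Icc]
          exact ENNReal.ofReal_le_ofReal (by linarith only)
  have hv4 : Tendsto (fun η : ℝ =>
      ENNReal.ofReal (η * (1 / Real.pi * (4 / r * ‖v‖) ^ 2)) * ENNReal.ofReal r)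
      (𝓝[>] 0) (𝓝 0) := by
    have h1 : Tendsto (fun η : ℝ => η * (1 / Real.pi * (4 / r * ‖v‖) ^ 2)) (𝓝[>] 0) (𝓝 0) := by
      have h2 : Tendsto (fun η : ℝ => η * (1 / Real.pi * (4 / r * ‖v‖) ^ 2)) (𝓝 0)
          (𝓝 (0 * (1 / Real.pi * (4 / r * ‖v‖) ^ 2))) := tendsto_id.mul_const _
      rw [zero_mul] at h2
      exact h2.mono_left nhdsWithin_le_nhds
    have h3 := ENNReal.tendsto_ofReal h1
    rw [ENNReal.ofReal_zero] at h3
    have h4 := ENNReal.Tendsto.mul_const (b := ENNReal.ofReal r) h3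
      (Or.inr ENNReal.ofReal_ne_top)
    rwa [zero_mul] at h4
  have hfin : Tendsto (fun η : ℝ => 2 * wt V B η m + 2 *
      (ENNReal.ofReal (η * (1 / Real.pi * (4 / r * ‖v‖) ^ 2)) * ENNReal.ofReal r))
      (𝓝[>] 0) (𝓝 0) := by
    have h1 := ENNReal.Tendsto.const_mul (a := 2) hm1 (Or.inr ENNReal.ofNat_ne_top)
    have h2 := ENNReal.Tendsto.const_mul (a := 2) hv4 (Or.inr ENNReal.ofNat_ne_top)
    have h3 := h1.add h2
    rw [mul_zero, add_zero] at h3
    exact h3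
  refine tendsto_of_tendsto_of_tendsto_of_le_of_le' tendsto_const_nhds hfin
    (Eventually.of_forall fun η => zero_le) ?_
  filter_upwards [self_mem_nhdsWithin] with η hη
  have h1 := (ha d V B η hη).1 m v
  rw [← huv] at h1
  refine h1.trans ?_
  gcongr
  exact hv3 η hη

end Pool.Agent.LE.CH.H15
end
end -- Pool.Agent.Helper15_LCH.LIM

section -- Pool.Agent.Helper28_LYM.VTZ

/-!
# LYM, rows VTZ and UPZ: one site inequalities at a complex energy
-/

set_option autoImplicit false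
set_option linter.unusedSectionVars false

open scoped Topology ENNReal BigOperators NNReal
open MeasureTheory Filter ProbabilityTheory

noncomputable section

namespace Pool.Agent.LE.MN.H28

open Pool.Agent.Anderson hiding box mem_box card_box
open Pool.Agent.Loc Pool.Agent.Mob Pool.Agent.Helper54.Bal Pool.Agent.LY
  Pool.Agent.LE.H54 Pool.Agent.LE.H54W

variable {d : ℕ}

theorem gmz_nonneg (V : Site d → ℝ) (Λ : Finset (Site d)) (z : ℂ) (S : Finset (Site d))
    (x : Site d) : 0 ≤ gmz V Λ z S x := NNReal.coe_nonneg _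

theorem le_gmz (V : Site d → ℝ) (Λ : Finset (Site d)) (z : ℂ) {S : Finset (Site d)} {w : Site d}
    (hw : w ∈ S) (x : Site d) : ‖gz V Λ z w x‖ ≤ gmz V Λ z S x := by
  have h : ‖gz V Λ z w x‖₊ ≤ S.sup fun w => ‖gz V Λ z w x‖₊ :=
    Finset.le_sup (f := fun w => ‖gz V Λ z w x‖₊) hw
  have h2 : (‖gz V Λ z w x‖₊ : ℝ) ≤ ((S.sup fun w => ‖gz V Λ z w x‖₊ : NNReal) : ℝ) := by
    exact_mod_cast h
  exact h2

theorem exists_gmz (V : Site d → ℝ) (Λ : Finset (Site d)) (z : ℂ) {S : Finset (Site d)}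
    {x : Site d} (h : 0 < gmz V Λ z S x) : ∃ w ∈ S, gmz V Λ z S x = ‖gz V Λ z w x‖ := by
  have hne : S.Nonempty := by
    rw [Finset.nonempty_iff_ne_empty]
    rintro rfl
    simp [gmz] at h
  obtain ⟨w, hw, hw2⟩ := S.exists_max_image (fun w => ‖gz V Λ z w x‖₊) hne
  refine ⟨w, hw, le_antisymm ?_ (le_gmz V Λ z hw x)⟩
  have h1 : (S.sup fun w => ‖gz V Λ z w x‖₊) ≤ ‖gz V Λ z w x‖₊ := Finset.sup_le hw2
  have h2 : ((S.sup fun w => ‖gz V Λ z w x‖₊ : NNReal) : ℝ) ≤ (‖gz V Λ z w x‖₊ : ℝ) := by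
    exact_mod_cast h1
  exact h2

theorem norm_KB (Λ : Finset (Site d)) (z : ℂ) (V : Site d → ℝ) (x y : Λ) :
    ‖KB Λ z V x y‖ = ‖gz V Λ z x y‖ := by
  rw [KB_eq_gz, norm_neg]

/-- VTZ -/
theorem vtz : VtzStmt := by
  classical
  intro d σ τ z Λ S u y hσ hτ hz
  have hν := bddDens_gl hσ
  by_cases hmem : u ∈ Λ ∧ y ∈ Λ
  swap
  · have : {V : Site d → ℝ | τ * gmz V Λ z S y < gmz V Λ z S u * ‖gz V Λ z u y‖} = ∅ := by
      ext V
      simp only [Set.mem_ofPred_eq, Set.mem_empty_iff_false, iff_false, not_lt]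
      have h0 : gz V Λ z u y = 0 := by
        unfold gz
        rw [dif_neg hmem]
      rw [h0, norm_zero, mul_zero]
      exact mul_nonneg hτ.le (gmz_nonneg _ _ _ _ _)
    rw [this, measure_empty]
    exact zero_le
  obtain ⟨hu, hy⟩ := hmem
  set S' : Finset Λ := Finset.univ.filter fun w : Λ => (w : Site d) ∈ S with hS'
  have hsub : {V : Site d → ℝ | τ * gmz V Λ z S y < gmz V Λ z S u * ‖gz V Λ z u y‖} ⊆
      Ev Λ z S' ⟨u, hu⟩ ⟨y, hy⟩ τ := by
    intro V hV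
    rw [Set.mem_ofPred_eq] at hV
    have hpos : 0 < gmz V Λ z S u := by
      by_contra hcon
      have h1 : gmz V Λ z S u = 0 := le_antisymm (not_lt.1 hcon) (gmz_nonneg _ _ _ _ _)
      rw [h1, zero_mul] at hV
      exact absurd hV (not_lt.2 (mul_nonneg hτ.le (gmz_nonneg _ _ _ _ _)))
    obtain ⟨w, hw, hw2⟩ := exists_gmz V Λ z hpos
    have hwΛ : w ∈ Λ := by
      by_contra hcon
      have h0 : gz V Λ z w u = 0 := by
        unfold gz
        rw [dif_neg fun h => hcon h.1]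
      rw [h0, norm_zero] at hw2
      linarith
    refine ⟨⟨w, hwΛ⟩, by simp [hS', hw], fun x hx => ?_⟩
    have hxS : (x : Site d) ∈ S := (Finset.mem_filter.1 hx).2
    rw [norm_KB, norm_KB, norm_KB]
    calc τ * ‖gz V Λ z x y‖ ≤ τ * gmz V Λ z S y :=
          mul_le_mul_of_nonneg_left (le_gmz V Λ z hxS y) hτ.le
      _ < gmz V Λ z S u * ‖gz V Λ z u y‖ := hV
      _ = _ := by rw [hw2]
  have hm := meas_Ev Λ z S' ⟨u, hu⟩ ⟨y, hy⟩ τ
  refine (measure_mono hsub).trans ?_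
  rw [← lintegral_indicator_one hm]
  refine (PP_le_of_marg {u} (measurable_one.indicator hm)
    (ev_marg hν Λ hz S' ⟨u, hu⟩ ⟨y, hy⟩ hτ)).trans (le_of_eq ?_)
  congr 1
  ring

section prob

variable {ν : Measure ℝ} [IsProbabilityMeasure ν] {ρ : ℝ}

/-- the diagonal elements -/
theorem diagB (hν : BddDens ν ρ) (Λ : Finset (Site d)) {z : ℂ} (hz : 0 < z.im) (x : Λ) {τ : ℝ}
    (hτ : 0 < τ) : PP d ν {V | τ < ‖KB Λ z V x x‖} ≤ ENNReal.ofReal (2 * ρ / τ) := by
  have hρ := hν.1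
  have hm : MeasurableSet {V : Site d → ℝ | τ < ‖KB Λ z V x x‖} :=
    measurableSet_lt measurable_const (measurable_KB Λ z x x).norm
  rw [← lintegral_indicator_one hm]
  refine PP_le_of_marg {(x : Site d)} (measurable_one.indicator hm) fun V => ?_
  have hf := fam_KB Λ hz
  rw [lmarginal_singleton]
  set V' := Function.update V (x : Site d) 0 with hV'
  have hk := hf.ker V'
  have hupd : ∀ v : ℝ, KB Λ z (Function.update V (x : Site d) v) = upk x (v : ℂ) (KB Λ z V') := by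
    intro v
    have e := hf.upd V' x v
    rw [hV', Function.update_idem, Function.update_self, Complex.ofReal_zero, sub_zero] at e
    exact e
  set K := KB Λ z V' with hK
  set a : ℂ := -1 / K x x with ha
  have hne := hk.ne_zero x
  have hsub : {v : ℝ | τ < ‖upk x (v : ℂ) K x x‖} ⊆ Set.Icc (a.re - 1 / τ) (a.re + 1 / τ) := by
    intro v hv
    rw [Set.mem_ofPred_eq] at hv
    have hD := hk.den_ne (w := (v : ℂ)) (by simp) x
    rw [upk_eq hD] at hv
    have e1 : (K x x + v * (K x x * K x x - K x x * K x x)) / (1 + v * K x x) =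
        ((v : ℂ) - a)⁻¹ := by
      have e2 : (v : ℂ) - a = (1 + v * K x x) / K x x := by
        rw [ha]
        field_simp
        ring
      rw [e2, inv_div]
      congr 1
      ring
    rw [e1, norm_inv] at hv
    have h3 : 0 < ‖(v : ℂ) - a‖ := by
      by_contra hcon
      have h4 : ‖(v : ℂ) - a‖ = 0 := le_antisymm (not_lt.1 hcon) (norm_nonneg _)
      rw [h4, inv_zero] at hv
      linarith only [hτ, hv]
    have h5 : ‖(v : ℂ) - a‖ < 1 / τ := by
      rw [lt_div_iff₀ hτ]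
      rw [← one_div, lt_div_iff₀ h3] at hv
      linarith
    have h7 : |v - a.re| ≤ ‖(v : ℂ) - a‖ := by
      have := Complex.abs_re_le_norm ((v : ℂ) - a)
      simpa using this
    have h8 := abs_le.1 (h7.trans h5.le)
    constructor <;> linarith only [h8]
  have hms : MeasurableSet {v : ℝ | τ < ‖upk x (v : ℂ) K x x‖} := by
    have hmu : Measurable fun v : ℝ => Function.update V (x : Site d) v := measurable_update V
    have := hmu hm
    refine (MeasurableSet.congr this ?_)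
    ext v
    simp only [Set.mem_preimage, Set.mem_ofPred_eq, hupd]
  calc ∫⁻ v, ({V : Site d → ℝ | τ < ‖KB Λ z V x x‖}.indicator 1 : (Site d → ℝ) → ℝ≥0∞)
        (Function.update V (x : Site d) v) ∂ν
      = ν {v : ℝ | τ < ‖upk x (v : ℂ) K x x‖} := by
        rw [← lintegral_indicator_one hms]
        refine lintegral_congr fun v => ?_
        by_cases hv : τ < ‖upk x (v : ℂ) K x x‖
        · rw [Set.indicator_of_mem (by simpa only [Set.mem_ofPred_eq, hupd] using hv),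
            Set.indicator_of_mem (by simpa only [Set.mem_ofPred_eq] using hv)]
          rfl
        · rw [Set.indicator_of_notMem (by simpa only [Set.mem_ofPred_eq, hupd] using hv),
            Set.indicator_of_notMem (by simpa only [Set.mem_ofPred_eq] using hv)]
    _ ≤ ν (Set.Icc (a.re - 1 / τ) (a.re + 1 / τ)) := measure_mono hsub
    _ ≤ ENNReal.ofReal (ρ * ((a.re + 1 / τ) - (a.re - 1 / τ))) := hν.2 _ _
    _ = _ := by
        congr 1
        field_simp
        ring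

end prob

/-- UPZ -/
theorem upz : UpzStmt := by
  intro d σ τ z Λ x y hσ hτ hz
  have hν := bddDens_gl hσ
  by_cases hmem : x ∈ Λ ∧ y ∈ Λ
  swap
  · have : {V : Site d → ℝ | τ < ‖gz V Λ z x y‖} = ∅ := by
      ext V
      simp only [Set.mem_ofPred_eq, Set.mem_empty_iff_false, iff_false, not_lt]
      have h0 : gz V Λ z x y = 0 := by
        unfold gz
        rw [dif_neg hmem]
      rw [h0, norm_zero]
      exact hτ.le
    rw [this, measure_empty]
    exact zero_le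
  obtain ⟨hx, hy⟩ := hmem
  set x' : Λ := ⟨x, hx⟩ with hx'
  set y' : Λ := ⟨y, hy⟩ with hy'
  have hsub : {V : Site d → ℝ | τ < ‖gz V Λ z x y‖} ⊆
      {V | τ * ‖KB Λ z V x' x'‖ < ‖KB Λ z V x' y'‖ * ‖KB Λ z V y' x'‖} ∪
        {V | τ < ‖KB Λ z V x' x'‖} := by
    intro V hV
    rw [Set.mem_ofPred_eq] at hV
    have hV2 : τ < ‖KB Λ z V x' y'‖ := by rwa [norm_KB]
    by_cases h : τ < ‖KB Λ z V x' x'‖
    · exact Or.inr h
    · left
      rw [Set.mem_ofPred_eq, KB_symm Λ z V y' x']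
      push Not at h
      nlinarith only [hτ, hV2, h]
  have hm : MeasurableSet {V : Site d → ℝ | τ * ‖KB Λ z V x' x'‖ <
      ‖KB Λ z V x' y'‖ * ‖KB Λ z V y' x'‖} :=
    measurableSet_lt ((measurable_KB Λ z x' x').norm.const_mul _)
      ((measurable_KB Λ z x' y').norm.mul (measurable_KB Λ z y' x').norm)
  have h1 : PP d (gl σ) {V | τ * ‖KB Λ z V x' x'‖ < ‖KB Λ z V x' y'‖ * ‖KB Λ z V y' x'‖} ≤
      ENNReal.ofReal (8 * (1 / |σ|) / τ) := by
    rw [← lintegral_indicator_one hm]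
    exact PP_le_of_marg {(y' : Site d)} (measurable_one.indicator hm)
      (one_marg hν Λ hz y' x' x' hτ)
  refine (measure_mono hsub).trans ((measure_union_le _ _).trans ?_)
  calc _ ≤ ENNReal.ofReal (8 * (1 / |σ|) / τ) + ENNReal.ofReal (2 * (1 / |σ|) / τ) :=
        add_le_add h1 (diagB hν Λ hz x' hτ)
    _ = _ := by
        rw [← ENNReal.ofReal_add (by positivity) (by positivity)]
        congr 1
        ring

end Pool.Agent.LE.MN.H28
end
end -- Pool.Agent.Helper28_LYM.VTZ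

section -- Pool.Agent.Helper39_LCH.WTE

/-!
# Squad LCH, module WTE: smoothed spectral measures and eigenfunctions
-/

set_option autoImplicit false

open MeasureTheory ProbabilityTheory Function Filter

open scoped ENNReal BigOperators InnerProductSpace Topology ComplexConjugate

noncomputable section

namespace Pool.Agent.LE.CH.H39

open Pool.Agent.Anderson Pool.Agent.Loc Pool.Agent.Mob Pool.Agent.Helper54.Bal

variable {d : ℕ}

/-- the resolvent at an eigenfunction -/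
theorem G_eigen {V : Site d → ℝ} {z : ℂ} (hz : z.im ≠ 0) {E₀ : ℝ} {φ : L2 d}
    (hφ : IsEigen V E₀ φ) : G V z φ = ((E₀ : ℂ) - z)⁻¹ • φ := by
  have hne : (E₀ : ℂ) - z ≠ 0 := by
    intro h
    apply hz
    have h1 := congrArg Complex.im h
    simp only [Complex.sub_im, Complex.ofReal_im, Complex.zero_im] at h1
    linarith only [h1]
  symm
  apply G_unique hz
  intro x
  have h1 : lap (((E₀ : ℂ) - z)⁻¹ • φ : L2 d) x = ((E₀ : ℂ) - z)⁻¹ * lap φ x := by
    unfold lap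
    rw [Finset.mul_sum]
    apply Finset.sum_congr rfl
    intro i _
    simp only [lp.coeFn_smul, Pi.smul_apply, smul_eq_mul]
    ring
  rw [h1]
  simp only [lp.coeFn_smul, Pi.smul_apply, smul_eq_mul]
  have h2 : lap φ x = (E₀ : ℂ) * φ x - (V x : ℂ) * φ x := by
    rw [← hφ x]
    ring
  rw [h2]
  field_simp
  ring

theorem normSq_sub_zz (η E E₀ : ℝ) : ‖(E₀ : ℂ) - zz η E‖ ^ 2 = (E - E₀) ^ 2 + η ^ 2 := by
  rw [← Complex.normSq_eq_norm_sq, Complex.normSq_apply]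
  simp
  ring

/-- the Poisson kernel: integrability, the integral over an interval and over its complement -/
theorem poisson_facts {η s : ℝ} (hη : 0 < η) (hs : 0 < s) (E₀ : ℝ) :
    Integrable (fun E : ℝ => η / ((E - E₀) ^ 2 + η ^ 2)) ∧
    ∫ E in Set.Ioo (E₀ - s) (E₀ + s), η / ((E - E₀) ^ 2 + η ^ 2) = 2 * Real.arctan (s / η) ∧
    ∫ E in (Set.Ioo (E₀ - s) (E₀ + s))ᶜ, η / ((E - E₀) ^ 2 + η ^ 2) =
      Real.pi - 2 * Real.arctan (s / η) := by
  obtain ⟨h1, h2⟩ := integral_poisson hη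
  have hi : Integrable (fun E : ℝ => η / ((E - E₀) ^ 2 + η ^ 2)) := h1.comp_sub_right E₀
  have ht : ∫ E : ℝ, η / ((E - E₀) ^ 2 + η ^ 2) = Real.pi := by
    rw [← h2]
    exact integral_sub_right_eq_self (fun E : ℝ => η / (E ^ 2 + η ^ 2)) E₀
  have hI : ∫ E in Set.Ioo (E₀ - s) (E₀ + s), η / ((E - E₀) ^ 2 + η ^ 2) =
      2 * Real.arctan (s / η) := by
    have hle : E₀ - s ≤ E₀ + s := by linarith only [hs]
    have hd : ∀ x ∈ Set.uIcc (E₀ - s) (E₀ + s),
        HasDerivAt (fun E : ℝ => Real.arctan ((E - E₀) / η)) (η / ((x - E₀) ^ 2 + η ^ 2)) x := by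
      intro x _
      have h3 : HasDerivAt (fun E : ℝ => (E - E₀) / η) (1 / η) x :=
        ((hasDerivAt_id x).sub_const E₀).div_const η
      have h4 := h3.arctan
      have h5 : 1 / (1 + ((x - E₀) / η) ^ 2) * (1 / η) = η / ((x - E₀) ^ 2 + η ^ 2) := by
        have h6 : (x - E₀) ^ 2 + η ^ 2 ≠ 0 := by positivity
        field_simp
        ring
      rw [← h5]
      exact h4
    have h7 := intervalIntegral.integral_eq_sub_of_hasDerivAt hd
      (hi.intervalIntegrable)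
    rw [← integral_Ioc_eq_integral_Ioo, ← intervalIntegral.integral_of_le hle, h7]
    have h8 : (E₀ + s - E₀) / η = s / η := by ring
    have h9 : (E₀ - s - E₀) / η = -(s / η) := by ring
    rw [h8, h9, Real.arctan_neg]
    ring
  refine ⟨hi, hI, ?_⟩
  have h3 := integral_add_compl (measurableSet_Ioo (a := E₀ - s) (b := E₀ + s)) hi
  rw [hI, ht] at h3
  linarith only [h3]

/-- WTE -/
theorem wte : WteStmt := by
  intro d V S η s E₀ φ hη hs hφ
  have hz : ∀ E : ℝ, (zz η E).im ≠ 0 := fun E => by rw [zz_im]; exact hη.ne'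
  obtain ⟨hi, hI, hC⟩ := poisson_facts hη hs E₀
  have hp := Real.pi_pos
  have hpos : ∀ E : ℝ, 0 < (E - E₀) ^ 2 + η ^ 2 := fun E => by positivity
  refine ⟨?_, ?_⟩
  · intro hS
    have hsub : S ⊆ (Set.Ioo (E₀ - s) (E₀ + s))ᶜ := by
      intro E hE hE'
      have h1 := hS E hE
      have h2 : |E - E₀| < s := by
        rw [abs_lt]
        exact ⟨by linarith only [hE'.1], by linarith [hE'.2]⟩
      linarith
    have hpt : ∀ E : ℝ, η / Real.pi * ‖G V (zz η E) φ‖ ^ 2 =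
        ‖φ‖ ^ 2 / Real.pi * (η / ((E - E₀) ^ 2 + η ^ 2)) := by
      intro E
      rw [G_eigen (hz E) hφ, norm_smul, mul_pow, norm_inv, inv_pow, normSq_sub_zz]
      have := (hpos E).ne'
      field_simp
    have hint : ∫ E in (Set.Ioo (E₀ - s) (E₀ + s))ᶜ,
        ‖φ‖ ^ 2 / Real.pi * (η / ((E - E₀) ^ 2 + η ^ 2)) ≤ η / s * ‖φ‖ ^ 2 := by
      rw [integral_const_mul, hC]
      have h1 : Real.arctan (η / s) = Real.pi / 2 - Real.arctan (s / η) := by
        rw [← Real.arctan_inv_of_pos (by positivity : 0 < s / η), inv_div]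
      have h2 : Real.arctan (η / s) ≤ η / s := by
        have h3 : 0 ≤ Real.arctan (η / s) := Real.arctan_nonneg.2 (by positivity)
        have h4 := Real.le_tan h3 (Real.arctan_lt_pi_div_two _)
        rwa [Real.tan_arctan] at h4
      have h3 : Real.pi - 2 * Real.arctan (s / η) ≤ 2 * (η / s) := by linarith only [h1, h2]
      have h4 : 0 ≤ ‖φ‖ ^ 2 := by positivity
      have h5 : 0 ≤ η / s := by positivity
      calc ‖φ‖ ^ 2 / Real.pi * (Real.pi - 2 * Real.arctan (s / η))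
          ≤ ‖φ‖ ^ 2 / Real.pi * (2 * (η / s)) := by gcongr
        _ = η / s * ‖φ‖ ^ 2 * (2 / Real.pi) := by ring
        _ ≤ η / s * ‖φ‖ ^ 2 * 1 := by
            gcongr
            rw [div_le_one hp]
            exact Real.two_le_pi
        _ = _ := by ring
    calc wt V S η φ ≤ ∫⁻ E in (Set.Ioo (E₀ - s) (E₀ + s))ᶜ,
          ENNReal.ofReal (η / Real.pi * ‖G V (zz η E) φ‖ ^ 2) := lintegral_mono_set hsub
      _ = ∫⁻ E in (Set.Ioo (E₀ - s) (E₀ + s))ᶜ,
          ENNReal.ofReal (‖φ‖ ^ 2 / Real.pi * (η / ((E - E₀) ^ 2 + η ^ 2))) := by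
          simp only [hpt]
      _ = ENNReal.ofReal (∫ E in (Set.Ioo (E₀ - s) (E₀ + s))ᶜ,
          ‖φ‖ ^ 2 / Real.pi * (η / ((E - E₀) ^ 2 + η ^ 2))) := by
          rw [ofReal_integral_eq_lintegral_ofReal (hi.integrableOn.const_mul _)]
          exact Eventually.of_forall fun E => by have := hpos E; positivity
      _ ≤ _ := ENNReal.ofReal_le_ofReal hint
  · intro hηs hsub u
    have hpt : ∀ E : ℝ, ‖⟪φ, u⟫_ℂ‖ ^ 2 / Real.pi * (η / ((E - E₀) ^ 2 + η ^ 2)) ≤
        ‖φ‖ ^ 2 * (η / Real.pi * ‖G V (zz η E) u‖ ^ 2) := by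
      intro E
      have h1 : ⟪φ, G V (zz η E) u⟫_ℂ = ((E₀ : ℂ) - zz η E)⁻¹ * ⟪φ, u⟫_ℂ := by
        have h2 := (isRes_G V).adj (conj (zz η E)) (conj_im_ne (hz E)) φ u
        rw [Complex.conj_conj] at h2
        rw [← h2, G_eigen (conj_im_ne (hz E)) hφ, inner_smul_left]
        congr 1
        rw [map_inv₀, map_sub, Complex.conj_conj, Complex.conj_ofReal]
      have h2 : ‖⟪φ, G V (zz η E) u⟫_ℂ‖ ≤ ‖φ‖ * ‖G V (zz η E) u‖ := norm_inner_le_norm _ _
      have h3 : ‖⟪φ, G V (zz η E) u⟫_ℂ‖ ^ 2 = ‖⟪φ, u⟫_ℂ‖ ^ 2 / ((E - E₀) ^ 2 + η ^ 2) := by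
        rw [h1, norm_mul, mul_pow, norm_inv, inv_pow, normSq_sub_zz]
        ring
      have h4 : ‖⟪φ, u⟫_ℂ‖ ^ 2 / ((E - E₀) ^ 2 + η ^ 2) ≤ ‖φ‖ ^ 2 * ‖G V (zz η E) u‖ ^ 2 := by
        rw [← h3, ← mul_pow]
        gcongr
      calc ‖⟪φ, u⟫_ℂ‖ ^ 2 / Real.pi * (η / ((E - E₀) ^ 2 + η ^ 2))
          = η / Real.pi * (‖⟪φ, u⟫_ℂ‖ ^ 2 / ((E - E₀) ^ 2 + η ^ 2)) := by ring
        _ ≤ η / Real.pi * (‖φ‖ ^ 2 * ‖G V (zz η E) u‖ ^ 2) := by gcongr
        _ = _ := by ring
    have harc : Real.pi / 4 ≤ Real.arctan (s / η) := by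
      rw [← Real.arctan_one]
      exact Real.arctan_le_arctan_iff.2 ((one_le_div hη).2 hηs)
    have hint : ‖⟪φ, u⟫_ℂ‖ ^ 2 / 2 ≤ ∫ E in Set.Ioo (E₀ - s) (E₀ + s),
        ‖⟪φ, u⟫_ℂ‖ ^ 2 / Real.pi * (η / ((E - E₀) ^ 2 + η ^ 2)) := by
      rw [integral_const_mul, hI]
      calc ‖⟪φ, u⟫_ℂ‖ ^ 2 / 2 = ‖⟪φ, u⟫_ℂ‖ ^ 2 / Real.pi * (2 * (Real.pi / 4)) := by
            field_simp
            norm_num
        _ ≤ _ := by gcongr
    have hfin : ENNReal.ofReal (‖⟪φ, u⟫_ℂ‖ ^ 2 / 2) ≤ ENNReal.ofReal (‖φ‖ ^ 2) * wt V S η u := by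
      calc ENNReal.ofReal (‖⟪φ, u⟫_ℂ‖ ^ 2 / 2)
          ≤ ENNReal.ofReal (∫ E in Set.Ioo (E₀ - s) (E₀ + s),
            ‖⟪φ, u⟫_ℂ‖ ^ 2 / Real.pi * (η / ((E - E₀) ^ 2 + η ^ 2))) :=
            ENNReal.ofReal_le_ofReal hint
        _ = ∫⁻ E in Set.Ioo (E₀ - s) (E₀ + s),
            ENNReal.ofReal (‖⟪φ, u⟫_ℂ‖ ^ 2 / Real.pi * (η / ((E - E₀) ^ 2 + η ^ 2))) := by
            rw [ofReal_integral_eq_lintegral_ofReal (hi.integrableOn.const_mul _)]
            exact Eventually.of_forall fun E => by have := hpos E; positivity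
        _ ≤ ∫⁻ E in Set.Ioo (E₀ - s) (E₀ + s),
            ENNReal.ofReal (‖φ‖ ^ 2) * ENNReal.ofReal (η / Real.pi * ‖G V (zz η E) u‖ ^ 2) := by
            apply lintegral_mono
            intro E
            show ENNReal.ofReal _ ≤ ENNReal.ofReal _ * ENNReal.ofReal _
            rw [← ENNReal.ofReal_mul (by positivity)]
            exact ENNReal.ofReal_le_ofReal (hpt E)
        _ = ENNReal.ofReal (‖φ‖ ^ 2) * ∫⁻ E in Set.Ioo (E₀ - s) (E₀ + s),
            ENNReal.ofReal (η / Real.pi * ‖G V (zz η E) u‖ ^ 2) :=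
            lintegral_const_mul' _ _ ENNReal.ofReal_ne_top
        _ ≤ _ := by
            gcongr
            exact lintegral_mono_set hsub
    calc ENNReal.ofReal (‖⟪φ, u⟫_ℂ‖ ^ 2) = ENNReal.ofReal 2 * ENNReal.ofReal (‖⟪φ, u⟫_ℂ‖ ^ 2 / 2) := by
          rw [← ENNReal.ofReal_mul (by norm_num)]
          congr 1
          ring
      _ ≤ ENNReal.ofReal 2 * (ENNReal.ofReal (‖φ‖ ^ 2) * wt V S η u) := by gcongr
      _ = _ := by
          rw [← mul_assoc, ← ENNReal.ofReal_mul (by norm_num)]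

end Pool.Agent.LE.CH.H39
end
end -- Pool.Agent.Helper39_LCH.WTE

section -- Pool.Agent.Helper39_LCH.WTL

/-!
# Squad LCH, module WTL: the total mass of the smoothed spectral measure
-/

set_option autoImplicit false

open MeasureTheory ProbabilityTheory Function Filter

open scoped ENNReal BigOperators InnerProductSpace Topology

noncomputable section

namespace Pool.Agent.LE.CH.H39

open Pool.Agent.Anderson Pool.Agent.Loc Pool.Agent.Mob Pool.Agent.Helper54.Bal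

/-- WTL (no hypothesis is needed). -/
theorem wtl : WtlStmt := by
  intro d V S η u hη
  have hc : (0 : ℝ) ≤ η / Real.pi := by positivity
  have h2 := (isRes_G V).lintegral_le hη u
  calc wt V S η u ≤ ∫⁻ E : ℝ, ENNReal.ofReal (η / Real.pi * ‖G V (zz η E) u‖ ^ 2) :=
        setLIntegral_le_lintegral _ _
    _ = ∫⁻ E : ℝ, ENNReal.ofReal (η / Real.pi) * ENNReal.ofReal (‖G V (zz η E) u‖ ^ 2) :=
        lintegral_congr fun E => ENNReal.ofReal_mul hc
    _ = ENNReal.ofReal (η / Real.pi) * ∫⁻ E : ℝ, ENNReal.ofReal (‖G V (zz η E) u‖ ^ 2) :=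
        lintegral_const_mul' _ _ ENNReal.ofReal_ne_top
    _ ≤ ENNReal.ofReal (η / Real.pi) * ENNReal.ofReal (Real.pi / η * ‖u‖ ^ 2) := by
        gcongr
    _ = ENNReal.ofReal (‖u‖ ^ 2) := by
        rw [← ENNReal.ofReal_mul hc]
        congr 1
        field_simp

end Pool.Agent.LE.CH.H39
end
end -- Pool.Agent.Helper39_LCH.WTL

section -- Pool.Agent.Helper93_LSF.Main

/-!
# The Lyapunov exponent near the effective band edge, uniformly in the energy
-/

set_option autoImplicit false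

open MeasureTheory ProbabilityTheory Function Filter

open scoped ENNReal BigOperators Topology NNReal

noncomputable section

namespace Pool.Agent.LE.H93F

open Pool.Agent.Anderson Pool.Agent.Loc Pool.Agent.Mob Pool.Agent.Helper54.Bal Pool.Agent.BED
  Pool.Agent.LE.H93W Pool.Agent.LE.H93Z Pool.Agent.LE.CL

/-- the properties of the effective band edge `Es` at the scale `t` -/
structure Edge (d : ℕ) (ε c C σ t Es : ℝ) : Prop where
  pos : |Es - 2 * d| ≤ C * (σ ^ 2 + 1 / t)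
  exp : |σ|⁻¹ ^ 3 ≤ t → |Es - (2 * d + watson d * σ ^ 2)| ≤ C * |σ| ^ (2 + 1 / (24 * d : ℝ))
  low : ∀ E g : ℝ, Es + 1 / t ≤ E → LyaAt d σ E g → c * Real.sqrt (min (E - Es) 1) ≤ g
  asy : ∀ E g : ℝ, Es + 1 / t ≤ E → E ≤ Es + c → LyaAt d σ E g →
    (1 - ε) * Real.sqrt (E - Es) ≤ g ∧ g ≤ (1 + ε) * Real.sqrt (E - Es)
  up : ∀ E g : ℝ, |E - Es| ≤ c → LyaAt d σ E g →
    g ≤ C * Real.sqrt (|E - Es| + 1 / t) * Real.log t ^ 2

/-- two effective edges, at the scales `t`, `t' ≥ 1 / u` -/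
theorem close1 {d : ℕ} {ε c C t a ε' c' C' t' b σ u : ℝ} (hA : Edge d ε c C σ t a)
    (hB : Edge d ε' c' C' σ t' b) (hε : ε ≤ 1 / 2) (hε' : ε' ≤ 1 / 2) (hu : 0 < u)
    (ht : 1 / t ≤ u) (ht' : 1 / t' ≤ u) (hc : |a - b| + u ≤ c) (hc' : u ≤ c')
    (hex : ∀ E, ∃ g, LyaAt d σ E g) : b - a ≤ 8 * u := by
  by_contra hcon
  push Not at hcon
  obtain ⟨g, hg⟩ := hex (b + u)
  have h1 := (hB.asy (b + u) g (by linarith only [ht']) (by linarith only [hc']) hg).2
  have h2 := neg_abs_le (a - b)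
  have h3 := (hA.asy (b + u) g (by linarith only [hcon, ht, hu]) (by linarith only [h2, hc]) hg).1
  have e1 : b + u - b = u := by ring
  rw [e1] at h1
  have hs : 0 < Real.sqrt u := Real.sqrt_pos.2 hu
  have h4 : (1 + ε') * Real.sqrt u ≤ 3 / 2 * Real.sqrt u :=
    mul_le_mul_of_nonneg_right (by linarith only [hε']) hs.le
  have h5 : 3 * Real.sqrt u < Real.sqrt (b + u - a) := by
    have e2 : 3 * Real.sqrt u = Real.sqrt (9 * u) := by
      rw [Real.sqrt_mul (by norm_num)]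
      congr 1
      rw [show (9 : ℝ) = 3 ^ 2 by norm_num, Real.sqrt_sq (by norm_num)]
    rw [e2]
    exact Real.sqrt_lt_sqrt (by positivity) (by linarith only [hcon])
  have h6 : 1 / 2 * Real.sqrt (b + u - a) ≤ (1 - ε) * Real.sqrt (b + u - a) :=
    mul_le_mul_of_nonneg_right (by linarith only [hε]) (Real.sqrt_nonneg _)
  linarith only [h6, h5, h4, h3, h1]

theorem close {d : ℕ} {ε c C t a ε' c' C' t' b σ u : ℝ} (hA : Edge d ε c C σ t a)
    (hB : Edge d ε' c' C' σ t' b) (hε : ε ≤ 1 / 2) (hε' : ε' ≤ 1 / 2) (hu : 0 < u)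
    (ht : 1 / t ≤ u) (ht' : 1 / t' ≤ u) (hc : |a - b| + u ≤ c) (hc' : |a - b| + u ≤ c')
    (hex : ∀ E, ∃ g, LyaAt d σ E g) : |a - b| ≤ 8 * u := by
  have h0 := abs_nonneg (a - b)
  rw [abs_le]
  constructor
  · have := close1 hA hB hε hε' hu ht ht' hc (by linarith only [h0, hc']) hex
    linarith only [this]
  · have := close1 hB hA hε' hε hu ht' ht (by rw [abs_sub_comm]; exact hc') (by linarith only [h0, hc]) hex
    linarith only [this]

theorem growth_mono (d : ℕ) {t t' : ℝ} (ht : 1 ≤ t) (htt : t ≤ t') :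
    growth d t ≤ growth d t' := by
  unfold growth
  split_ifs
  · exact Real.sqrt_le_sqrt htt
  · have := Real.log_le_log (by linarith only [ht]) htt
    linarith only [this]
  · exact le_rfl

theorem growth_cond (d : ℕ) {σ t t' c : ℝ} (ht : 1 ≤ t) (htt : t ≤ t')
    (h : σ ^ 2 * growth d t' * Real.log t' ≤ c) : σ ^ 2 * growth d t * Real.log t ≤ c := by
  refine le_trans ?_ h
  have h1 := growth_mono d ht htt
  have h2 := Real.log_le_log (by linarith only [ht]) htt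
  have h3 := Real.log_nonneg ht
  have h4 := one_le_growth d ht
  have h5 := sq_nonneg σ
  exact mul_le_mul (mul_le_mul_of_nonneg_left h1 h5) h2 h3
    (mul_nonneg h5 (by linarith only [h4, h1]))

/-- a larger window -/
theorem window_K (d : ℕ) {c K : ℝ} (hc : 0 < c) (hK : 1 ≤ K) : ∃ c' σ' : ℝ, 0 < c' ∧ c' ≤ c ∧
    0 < σ' ∧ ∀ σ : ℝ, σ ≠ 0 → |σ| ≤ σ' → K * LOC.window d c σ ≤ LOC.window d c' σ := by
  obtain ⟨c', hc'⟩ : ∃ c' : ℝ, c' = c / (K + 1) := ⟨_, rfl⟩
  have hc'0 : 0 < c' := by rw [hc']; positivity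
  have hc'K : c' * (K + 1) = c := by rw [hc']; field_simp
  have hc'2 : c' ≤ c / 2 := by nlinarith only [hc'K, hK, hc]
  have hc'c : c' ≤ c := by linarith only [hc'2, hc]
  have hlK : 0 ≤ Real.log K := Real.log_nonneg hK
  obtain ⟨s, hs⟩ : ∃ s : ℝ, s = min 1 (c / (2 * Real.log K + 1)) := ⟨_, rfl⟩
  have hs0 : 0 < s := by rw [hs]; positivity
  have hs1 : s ≤ 1 := by rw [hs]; exact min_le_left _ _
  have hs2 : s * (2 * Real.log K + 1) ≤ c := by
    have : s ≤ c / (2 * Real.log K + 1) := by rw [hs]; exact min_le_right _ _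
    rwa [le_div_iff₀ (by positivity)] at this
  refine ⟨c', s, hc'0, hc'c, hs0, ?_⟩
  intro σ hσ hσs
  have hσ0 : 0 < |σ| := abs_pos.2 hσ
  have key : ∀ x : ℝ, 0 < x → x ≤ s → K * Real.exp (-c / x) ≤ Real.exp (-c' / x) := by
    intro x hx hxs
    have h1 : Real.log K + -c / x ≤ -c' / x := by
      have h2 : Real.log K ≤ (c - c') / x := by
        rw [le_div_iff₀ hx]
        calc Real.log K * x ≤ Real.log K * s := mul_le_mul_of_nonneg_left hxs hlK
          _ ≤ c - c' := by nlinarith only [hs2, hlK, hc'2, hc]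
      have h3 : -c' / x = (c - c') / x + -c / x := by ring
      rw [h3]
      linarith only [h2]
    calc K * Real.exp (-c / x) = Real.exp (Real.log K + -c / x) := by
          rw [Real.exp_add, Real.exp_log (by linarith only [hK])]
      _ ≤ _ := Real.exp_le_exp.2 h1
  unfold LOC.window
  split_ifs
  · have h1 : 0 ≤ σ ^ 4 * (1 + Real.log (1 / |σ|)) ^ 2 := by positivity
    rw [le_div_iff₀ hc'0]
    calc K * (σ ^ 4 * (1 + Real.log (1 / |σ|)) ^ 2 / c) * c' =
          (σ ^ 4 * (1 + Real.log (1 / |σ|)) ^ 2) * (K * c' / c) := by ring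
      _ ≤ (σ ^ 4 * (1 + Real.log (1 / |σ|)) ^ 2) * 1 := by
          refine mul_le_mul_of_nonneg_left ?_ h1
          rw [div_le_one hc]
          linarith only [hc'K, hc'0]
      _ = _ := mul_one _
  · exact key |σ| hσ0 hσs
  · refine key (σ ^ 2) (by positivity) ?_
    rw [← sq_abs]
    have h1 : |σ| ^ 2 ≤ |σ| ^ 1 := pow_le_pow_of_le_one hσ0.le (by linarith only [hσs, hs1]) (by norm_num)
    rw [pow_one] at h1
    linarith only [h1, hσs]

theorem window_le_half (d : ℕ) {c σ : ℝ} (hc : 0 < c) (hc4 : c ≤ 1 / 4) (hσ : σ ≠ 0)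
    (hσc : |σ| ≤ c) : LOC.window d c σ ≤ 1 / 2 := by
  have hσ0 : 0 < |σ| := abs_pos.2 hσ
  have he : Real.exp (-1) ≤ 1 / 2 := by
    rw [Real.exp_neg, ← one_div]
    refine one_div_le_one_div_of_le (by norm_num) ?_
    have := Real.add_one_le_exp 1
    linarith only [this]
  unfold LOC.window
  split_ifs
  · rw [div_le_iff₀ hc]
    have h1 : 1 + Real.log (1 / |σ|) ≤ 1 / |σ| := by
      have := Real.log_le_sub_one_of_pos (show 0 < 1 / |σ| by positivity)
      linarith only [this]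
    have h2 : 0 ≤ 1 + Real.log (1 / |σ|) := by
      have : 0 ≤ Real.log (1 / |σ|) := Real.log_nonneg (by
        rw [le_div_iff₀ hσ0]
        linarith only [hσc, hc4])
      linarith only [this]
    have h3 : σ ^ 4 = |σ| ^ 4 := by
      rw [← abs_pow]
      exact (abs_of_nonneg (by positivity)).symm
    calc σ ^ 4 * (1 + Real.log (1 / |σ|)) ^ 2 ≤ |σ| ^ 4 * (1 / |σ|) ^ 2 := by
          rw [h3]
          exact mul_le_mul_of_nonneg_left (pow_le_pow_left₀ h2 h1 2) (by positivity)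
      _ = |σ| * |σ| := by field_simp
      _ ≤ 1 / 2 * c := mul_le_mul (by linarith only [hσc, hc4]) hσc hσ0.le (by norm_num)
  · refine le_trans (Real.exp_le_exp.2 ?_) he
    rw [div_le_iff₀ hσ0]
    linarith only [hσc]
  · refine le_trans (Real.exp_le_exp.2 ?_) he
    rw [div_le_iff₀ (by positivity)]
    have h1 : σ ^ 2 ≤ c := by
      rw [← sq_abs]
      have h2 : |σ| ^ 2 ≤ |σ| ^ 1 := pow_le_pow_of_le_one hσ0.le (by linarith only [hσc, hc4]) (by norm_num)
      rw [pow_one] at h2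
      linarith only [h2, hσc]
    linarith only [h1]

/-- above the edge: from the edge `b` to the edge `a` -/
theorem shift_asy {d : ℕ} {ε c c₂ C₂ σ t₂ a b W : ℝ} (hε : 0 < ε) (hε1 : ε < 1)
    (hB : Edge d (ε / 2) c₂ C₂ σ t₂ b) (hc : 0 < c) (k2 : c ≤ c₂ / 4) (hW0 : 0 < W)
    (hab : a - b + c ≤ c₂)
    (hEb : ∀ E : ℝ, a + W ≤ E → (1 - ε / 4) * (E - a) ≤ E - b ∧
      E - b ≤ (1 + ε / 4) * (E - a) ∧ b + 1 / t₂ ≤ E) :
    (∀ E g : ℝ, a + W ≤ E → LyaAt d σ E g → c * Real.sqrt (min (E - a) 1) ≤ g) ∧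
    ∀ E g : ℝ, a + W ≤ E → E ≤ a + c → LyaAt d σ E g →
      (1 - ε) * Real.sqrt (E - a) ≤ g ∧ g ≤ (1 + ε) * Real.sqrt (E - a) := by
  constructor
  · intro E g hE hg
    obtain ⟨e1, e2, e3⟩ := hEb E hE
    refine le_trans ?_ (hB.low E g e3 hg)
    have hx : 0 < E - a := by linarith only [hE, hW0]
    have h1 : 1 / 4 * min (E - a) 1 ≤ min (E - b) 1 := by
      refine le_min ?_ ?_
      · have h3 := min_le_left (E - a) 1
        have h4 : 3 / 4 * (E - a) ≤ (1 - ε / 4) * (E - a) :=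
          mul_le_mul_of_nonneg_right (by linarith only [hε1]) hx.le
        linarith only [h4, h3, e1, hE, hW0]
      · have h3 := min_le_right (E - a) 1
        linarith only [h3]
    have h2 : 1 / 2 * Real.sqrt (min (E - a) 1) ≤ Real.sqrt (min (E - b) 1) := by
      refine le_trans (le_of_eq ?_) (Real.sqrt_le_sqrt h1)
      rw [Real.sqrt_mul (by norm_num), show (1 / 4 : ℝ) = (1 / 2) ^ 2 by norm_num,
        Real.sqrt_sq (by norm_num)]
    have h3 := Real.sqrt_nonneg (min (E - a) 1)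
    have hc₂ : 0 < c₂ := by linarith only [k2, hc]
    calc c * Real.sqrt (min (E - a) 1) ≤ c₂ / 4 * Real.sqrt (min (E - a) 1) :=
          mul_le_mul_of_nonneg_right k2 h3
      _ ≤ c₂ * (1 / 2 * Real.sqrt (min (E - a) 1)) := by
          have : 0 ≤ c₂ * Real.sqrt (min (E - a) 1) := by positivity
          linarith only [this]
      _ ≤ _ := mul_le_mul_of_nonneg_left h2 hc₂.le
  · intro E g hE hE2 hg
    obtain ⟨e1, e2, e3⟩ := hEb E hE
    have hx : 0 < E - a := by linarith only [hE, hW0]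
    obtain ⟨r1, r2⟩ := hB.asy E g e3 (by linarith only [hE2, hab]) hg
    have hs := Real.sqrt_nonneg (E - a)
    have s1 : (1 - ε / 4) * Real.sqrt (E - a) ≤ Real.sqrt (E - b) := by
      have h1 : Real.sqrt ((1 - ε / 4) ^ 2 * (E - a)) ≤ Real.sqrt (E - b) := by
        refine Real.sqrt_le_sqrt (le_trans ?_ e1)
        refine mul_le_mul_of_nonneg_right ?_ hx.le
        nlinarith only [hε1, hε]
      rwa [Real.sqrt_mul (sq_nonneg _), Real.sqrt_sq (by linarith only [hε1])] at h1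
    have s2 : Real.sqrt (E - b) ≤ (1 + ε / 4) * Real.sqrt (E - a) := by
      have h1 : Real.sqrt (E - b) ≤ Real.sqrt ((1 + ε / 4) ^ 2 * (E - a)) := by
        refine Real.sqrt_le_sqrt (e2.trans ?_)
        refine mul_le_mul_of_nonneg_right ?_ hx.le
        nlinarith only [hε]
      rwa [Real.sqrt_mul (sq_nonneg _), Real.sqrt_sq (by linarith only [hε])] at h1
    constructor
    · refine le_trans ?_ r1
      calc (1 - ε) * Real.sqrt (E - a) ≤ (1 - ε / 2) * (1 - ε / 4) * Real.sqrt (E - a) :=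
            mul_le_mul_of_nonneg_right (by nlinarith only [hε]) hs
        _ = (1 - ε / 2) * ((1 - ε / 4) * Real.sqrt (E - a)) := by ring
        _ ≤ _ := mul_le_mul_of_nonneg_left s1 (by linarith only [hε1])
    · refine r2.trans ?_
      calc (1 + ε / 2) * Real.sqrt (E - b) ≤ (1 + ε / 2) * ((1 + ε / 4) * Real.sqrt (E - a)) :=
            mul_le_mul_of_nonneg_left s2 (by linarith only [hε])
        _ = (1 + ε / 2) * (1 + ε / 4) * Real.sqrt (E - a) := by ring
        _ ≤ _ := mul_le_mul_of_nonneg_right (by nlinarith only [hε1, hε]) hs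

/-- below and above the edge: the upper bound with the best scale -/
theorem shift_up {d : ℕ} {c₀ C₀ c σ t₀ a W : ℝ}
    (h₀ : ∀ σ t : ℝ, σ ≠ 0 → |σ| ≤ c₀ → 1 / |σ| ≤ t → σ ^ 2 * growth d t * Real.log t ≤ c₀ →
      ∃ Es, Edge d (1 / 2) c₀ C₀ σ t Es) (hC₀ : 0 < C₀)
    (hσ : σ ≠ 0) (hσ1 : |σ| ≤ 1) (hE₀ : Edge d (1 / 2) c₀ C₀ σ t₀ a)
    (hσt₀ : 1 / |σ| ≤ t₀) (w2 : σ ^ 2 * growth d t₀ * Real.log t₀ ≤ c₀)
    (h1W : 1 / t₀ ≤ W) (hW0 : 0 < W) (hcW : c + W ≤ 1) (hc₀ : c + 8 * |σ| ≤ c₀)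
    (hc₀' : 4 * (C₀ * |σ|) + |σ| ≤ c₀) (hc : 0 < c)
    (hex' : ∀ E, ∃ g, LyaAt d σ E g) (E g : ℝ) (hE : |E - a| ≤ c) (hg : LyaAt d σ E g) :
    g ≤ 4 * C₀ * Real.sqrt (|E - a| + W) *
      (Real.log (1 / |σ|) + Real.log (1 / (|E - a| + W))) ^ 2 := by
  have hσ0 : 0 < |σ| := abs_pos.2 hσ
  have hσsq : σ ^ 2 ≤ |σ| := by
    rw [← sq_abs]
    have h1 : |σ| ^ 2 ≤ |σ| ^ 1 := pow_le_pow_of_le_one hσ0.le hσ1 (by norm_num)
    rwa [pow_one] at h1
  have hsinv : 1 ≤ |σ|⁻¹ := by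
    rw [le_inv_comm₀ (by norm_num) hσ0]
    linarith only [hσ1]
  have ht₀0 : 0 < t₀ := lt_of_lt_of_le (by positivity) hσt₀
  have hu₀ : 1 / t₀ ≤ |σ| := by
    rw [div_le_iff₀ ht₀0]
    rw [div_le_iff₀ hσ0] at hσt₀
    linarith only [hσt₀]
  have haσ : |a - 2 * d| ≤ 2 * (C₀ * |σ|) := by
    refine hE₀.pos.trans ?_
    have := mul_le_mul_of_nonneg_left (by linarith only [hu₀, hσsq] : σ ^ 2 + 1 / t₀ ≤ 2 * |σ|) hC₀.le
    linarith only [this]
  obtain ⟨lam, hlam⟩ : ∃ lam : ℝ, lam = |E - a| + W := ⟨_, rfl⟩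
  rw [← hlam]
  have hEa0 := abs_nonneg (E - a)
  have hWl : W ≤ lam := by linarith only [hEa0, hlam]
  have hl0 : 0 < lam := by linarith only [hEa0, hlam, hW0]
  have hl1 : lam ≤ 1 := by linarith only [hlam, hE, hcW]
  obtain ⟨t₁, ht₁⟩ : ∃ t : ℝ, t = max (1 / |σ|) (1 / lam) := ⟨_, rfl⟩
  have hσt₁ : 1 / |σ| ≤ t₁ := by rw [ht₁]; exact le_max_left _ _
  have hlt₁ : 1 / lam ≤ t₁ := by rw [ht₁]; exact le_max_right _ _
  have ht₁0 : 0 < t₁ := lt_of_lt_of_le (by positivity) hσt₁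
  have ht₁1 : 1 ≤ t₁ := by
    refine le_trans ?_ hσt₁
    rw [one_div]
    exact hsinv
  have ht₁t₀ : t₁ ≤ t₀ := by
    rw [ht₁]
    refine max_le hσt₀ ?_
    rw [div_le_iff₀ hl0]
    rw [div_le_iff₀ ht₀0] at h1W
    have := mul_le_mul_of_nonneg_left hWl ht₀0.le
    linarith only [this, h1W]
  have hu₁ : 1 / t₁ ≤ |σ| := by
    rw [div_le_iff₀ ht₁0]
    rw [div_le_iff₀ hσ0] at hσt₁
    linarith only [hσt₁]
  have hul : 1 / t₁ ≤ lam := by
    rw [div_le_iff₀ ht₁0]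
    rw [div_le_iff₀ hl0] at hlt₁
    linarith only [hlt₁]
  have hu₁0 : 0 < 1 / t₁ := by positivity
  obtain ⟨b₁, hB₁⟩ := h₀ σ t₁ hσ (by linarith only [hσ0, hc, hc₀]) hσt₁
    (growth_cond d ht₁1 ht₁t₀ w2)
  have hb₁σ : |b₁ - 2 * d| ≤ 2 * (C₀ * |σ|) := by
    refine hB₁.pos.trans ?_
    have := mul_le_mul_of_nonneg_left (by linarith only [hu₁, hσsq] : σ ^ 2 + 1 / t₁ ≤ 2 * |σ|) hC₀.le
    linarith only [this]
  have hab₁ : |a - b₁| ≤ 4 * (C₀ * |σ|) := by
    have h1 : a - b₁ = (a - 2 * d) - (b₁ - 2 * d) := by ring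
    rw [h1]
    refine (abs_sub _ _).trans ?_
    linarith only [hb₁σ, haσ]
  have hcl₁ : |a - b₁| ≤ 8 * (1 / t₁) := by
    refine close hE₀ hB₁ le_rfl le_rfl hu₁0 ?_ le_rfl ?_ ?_ hex'
    · exact one_div_le_one_div_of_le ht₁0 ht₁t₀
    · linarith only [hab₁, hu₁, hc₀']
    · linarith only [hab₁, hu₁, hc₀']
  have hEb₁ : |E - b₁| ≤ |E - a| + 8 * (1 / t₁) := by
    have h1 : E - b₁ = (E - a) + (a - b₁) := by ring
    rw [h1]
    exact (abs_add_le _ _).trans (by linarith only [hcl₁])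
  have h1 := hB₁.up E g (by linarith only [hEb₁, hu₁, hE, hc₀]) hg
  refine h1.trans ?_
  have h2 : Real.sqrt (|E - b₁| + 1 / t₁) ≤ 4 * Real.sqrt lam := by
    have h3 : Real.sqrt (|E - b₁| + 1 / t₁) ≤ Real.sqrt (4 ^ 2 * lam) :=
      Real.sqrt_le_sqrt (by linarith only [hEb₁, hul, hEa0, hlam, hW0])
    rwa [Real.sqrt_mul (by norm_num), Real.sqrt_sq (by norm_num)] at h3
  have h4 : 0 ≤ Real.log (1 / |σ|) := Real.log_nonneg (by rw [one_div]; exact hsinv)
  have h5 : 0 ≤ Real.log (1 / lam) := Real.log_nonneg (by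
    rw [le_div_iff₀ hl0]
    linarith only [hlam, hE, hcW])
  have h6 : Real.log t₁ ≤ Real.log (1 / |σ|) + Real.log (1 / lam) := by
    rw [ht₁]
    rcases max_choice (1 / |σ|) (1 / lam) with h | h
    · rw [h]; linarith only [h5]
    · rw [h]; linarith only [h4]
  have h7 : Real.log t₁ ^ 2 ≤ (Real.log (1 / |σ|) + Real.log (1 / lam)) ^ 2 :=
    pow_le_pow_left₀ (Real.log_nonneg ht₁1) h6 2
  calc C₀ * Real.sqrt (|E - b₁| + 1 / t₁) * Real.log t₁ ^ 2
      ≤ C₀ * (4 * Real.sqrt lam) * (Real.log (1 / |σ|) + Real.log (1 / lam)) ^ 2 := by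
        gcongr
    _ = _ := by ring

/-- Everything near the effective band edge, with one function `Es`. -/
theorem near_edge (qmf : QmfStmt)
    (hex : ∀ (d : ℕ) (σ E : ℝ), 1 ≤ d → σ ≠ 0 → ∃ g, LyaAt d σ E g) :
    ∀ d : ℕ, 3 ≤ d → ∃ Es : ℝ → ℝ, ∀ ε : ℝ, 0 < ε → ε < 1 →
      ∃ c C : ℝ, 0 < c ∧ c ≤ 1 / 4 ∧ 0 < C ∧ ∀ σ : ℝ, σ ≠ 0 → |σ| ≤ c →
        |Es σ - (2 * d + watson d * σ ^ 2)| ≤ C * |σ| ^ (2 + 1 / (24 * d : ℝ)) ∧
        (∀ E g : ℝ, Es σ + LOC.window d c σ ≤ E → LyaAt d σ E g →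
          c * Real.sqrt (min (E - Es σ) 1) ≤ g) ∧
        (∀ E g : ℝ, Es σ + LOC.window d c σ ≤ E → E ≤ Es σ + c → LyaAt d σ E g →
          (1 - ε) * Real.sqrt (E - Es σ) ≤ g ∧ g ≤ (1 + ε) * Real.sqrt (E - Es σ)) ∧
        ∀ E g : ℝ, |E - Es σ| ≤ c → LyaAt d σ E g →
          g ≤ C * Real.sqrt (|E - Es σ| + LOC.window d c σ) *
            (Real.log (1 / |σ|) + Real.log (1 / (|E - Es σ| + LOC.window d c σ))) ^ 2 := by
  intro d hd
  have hd1 : 1 ≤ d := by omega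
  obtain ⟨c₀, C₀, hc₀, hC₀, h₀'⟩ := qmf d (1 / 2) hd (by norm_num) (by norm_num)
  have h₀ : ∀ σ t : ℝ, σ ≠ 0 → |σ| ≤ c₀ → 1 / |σ| ≤ t → σ ^ 2 * growth d t * Real.log t ≤ c₀ →
      ∃ Es, Edge d (1 / 2) c₀ C₀ σ t Es := by
    intro σ t h1 h2 h3 h4
    obtain ⟨Es, e1, e2, e3, e4, e5⟩ := h₀' σ t h1 h2 h3 h4
    exact ⟨Es, e1, e2, e3, e4, e5⟩
  obtain ⟨c₁, σ₁, hc₁, hσ₁, hσ₁1, hwin₁⟩ := LOC.window_spec d hc₀
  have hexE : ∀ σ : ℝ, ∃ Es : ℝ, σ ≠ 0 → |σ| ≤ min (min c₀ σ₁) (1 / 2) →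
      Edge d (1 / 2) c₀ C₀ σ (LOC.window d c₁ σ)⁻¹ Es := by
    intro σ
    by_cases h : σ ≠ 0 ∧ |σ| ≤ min (min c₀ σ₁) (1 / 2)
    · obtain ⟨h1, h2⟩ := h
      have h3 : |σ| ≤ c₀ := h2.trans ((min_le_left _ _).trans (min_le_left _ _))
      have h4 : |σ| ≤ σ₁ := h2.trans ((min_le_left _ _).trans (min_le_right _ _))
      have h6 : |σ| ≤ 1 / 2 := h2.trans (min_le_right _ _)
      obtain ⟨w0, w1, w2⟩ := hwin₁ σ h1 h4
      have hσ0 : 0 < |σ| := abs_pos.2 h1
      have h5 : 1 / |σ| ≤ (LOC.window d c₁ σ)⁻¹ := by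
        refine le_trans ?_ w1
        rw [one_div]
        refine le_self_pow₀ ?_ (by norm_num)
        rw [le_inv_comm₀ (by norm_num) hσ0]
        linarith only [h4, hσ₁1]
      obtain ⟨Es, hEs⟩ := h₀ σ _ h1 h3 h5 w2
      exact ⟨Es, fun _ _ => hEs⟩
    · exact ⟨0, fun h1 h2 => absurd ⟨h1, h2⟩ h⟩
  choose Es hEs using hexE
  refine ⟨Es, ?_⟩
  intro ε hε hε1
  obtain ⟨c₂, C₂, hc₂, hC₂, h₂⟩ := qmf d (ε / 2) hd (by linarith only [hε]) (by linarith only [hε1])
  obtain ⟨c₃, σ₃, hc₃, hσ₃, hσ₃1, hwin₃⟩ := LOC.window_spec d hc₂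
  obtain ⟨K, hK⟩ : ∃ K : ℝ, K = 32 / ε := ⟨_, rfl⟩
  have hK1 : 1 ≤ K := by
    rw [hK, le_div_iff₀ hε]
    linarith only [hε1]
  obtain ⟨c₄, σ₄, hc₄, hc₄', hσ₄, hwK⟩ := window_K d (lt_min hc₁ hc₃) hK1
  obtain ⟨c, hc⟩ : ∃ c : ℝ, c = min (min (min (c₀ / 4) (c₂ / 4)) (min σ₁ σ₃))
    (min (min (min c₄ σ₄) (1 / 4)) (min (c₀ / (16 * C₀ + 16 * C₂ + 36))
      (c₂ / (16 * C₀ + 16 * C₂ + 36)))) := ⟨_, rfl⟩
  have hc0 : 0 < c := by rw [hc]; positivity
  have k1 : c ≤ c₀ / 4 := by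
    rw [hc]; exact (min_le_left _ _).trans ((min_le_left _ _).trans (min_le_left _ _))
  have k2 : c ≤ c₂ / 4 := by
    rw [hc]; exact (min_le_left _ _).trans ((min_le_left _ _).trans (min_le_right _ _))
  have k3 : c ≤ σ₁ := by
    rw [hc]; exact (min_le_left _ _).trans ((min_le_right _ _).trans (min_le_left _ _))
  have k4 : c ≤ σ₃ := by
    rw [hc]; exact (min_le_left _ _).trans ((min_le_right _ _).trans (min_le_right _ _))
  have k5 : c ≤ c₄ := by
    rw [hc]; exact (min_le_right _ _).trans ((min_le_left _ _).trans ((min_le_left _ _).trans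
      (min_le_left _ _)))
  have k6 : c ≤ σ₄ := by
    rw [hc]; exact (min_le_right _ _).trans ((min_le_left _ _).trans ((min_le_left _ _).trans
      (min_le_right _ _)))
  have k7 : c ≤ 1 / 4 := by
    rw [hc]; exact (min_le_right _ _).trans ((min_le_left _ _).trans (min_le_right _ _))
  have k8 : c * (16 * C₀ + 16 * C₂ + 36) ≤ c₀ := by
    have : c ≤ c₀ / (16 * C₀ + 16 * C₂ + 36) := by
      rw [hc]; exact (min_le_right _ _).trans ((min_le_right _ _).trans (min_le_left _ _))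
    rwa [le_div_iff₀ (by positivity)] at this
  have k9 : c * (16 * C₀ + 16 * C₂ + 36) ≤ c₂ := by
    have : c ≤ c₂ / (16 * C₀ + 16 * C₂ + 36) := by
      rw [hc]; exact (min_le_right _ _).trans ((min_le_right _ _).trans (min_le_right _ _))
    rwa [le_div_iff₀ (by positivity)] at this
  refine ⟨c, 4 * C₀, hc0, k7, by positivity, ?_⟩
  intro σ hσ hσc
  have hσ0 : 0 < |σ| := abs_pos.2 hσ
  have hσ4 : |σ| ≤ 1 / 4 := hσc.trans k7
  have hσsq : σ ^ 2 ≤ |σ| := by
    rw [← sq_abs]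
    have h1 : |σ| ^ 2 ≤ |σ| ^ 1 := pow_le_pow_of_le_one hσ0.le (by linarith only [hσc, k3, hσ₁1]) (by norm_num)
    rwa [pow_one] at h1
  have hσsq0 := sq_nonneg σ
  have hex' : ∀ E, ∃ g, LyaAt d σ E g := fun E => hex d σ E hd1 hσ
  have hE₀ := hEs σ hσ (le_min (le_min (hσc.trans (by linarith only [k1, hc₀])) (hσc.trans k3))
    (by linarith only [hσc, k7]))
  obtain ⟨w0, w1, w2⟩ := hwin₁ σ hσ (hσc.trans k3)
  obtain ⟨v0, v1, v2⟩ := hwin₃ σ hσ (hσc.trans k4)
  have hsinv : 1 ≤ |σ|⁻¹ := by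
    rw [le_inv_comm₀ (by norm_num) hσ0]
    linarith only [hσc, k3, hσ₁1]
  have hs3 : |σ|⁻¹ ≤ |σ|⁻¹ ^ 3 := le_self_pow₀ hsinv (by norm_num)
  obtain ⟨a, ha⟩ : ∃ a : ℝ, a = Es σ := ⟨_, rfl⟩
  rw [← ha] at hE₀ ⊢
  obtain ⟨t₀, ht₀⟩ : ∃ t : ℝ, t = (LOC.window d c₁ σ)⁻¹ := ⟨_, rfl⟩
  rw [← ht₀] at hE₀ w1 w2
  obtain ⟨t₂, ht₂⟩ : ∃ t : ℝ, t = (LOC.window d c₃ σ)⁻¹ := ⟨_, rfl⟩
  rw [← ht₂] at v1 v2
  have ht₀0 : 0 < t₀ := by rw [ht₀]; positivity
  have ht₂0 : 0 < t₂ := by rw [ht₂]; positivity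
  have h1t₀ : 1 / t₀ = LOC.window d c₁ σ := by rw [ht₀, one_div, inv_inv]
  have h1t₂ : 1 / t₂ = LOC.window d c₃ σ := by rw [ht₂, one_div, inv_inv]
  have hσt₀ : 1 / |σ| ≤ t₀ := by rw [one_div]; linarith only [w1, hs3]
  have hσt₂ : 1 / |σ| ≤ t₂ := by rw [one_div]; linarith only [v1, hs3]
  have hu₀ : 1 / t₀ ≤ |σ| := by
    rw [div_le_iff₀ ht₀0]
    rw [div_le_iff₀ hσ0] at hσt₀
    linarith only [hσt₀]
  have hu₂ : 1 / t₂ ≤ |σ| := by
    rw [div_le_iff₀ ht₂0]
    rw [div_le_iff₀ hσ0] at hσt₂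
    linarith only [hσt₂]
  -- the window
  obtain ⟨W, hW⟩ : ∃ W : ℝ, W = LOC.window d c σ := ⟨_, rfl⟩
  rw [← hW]
  obtain ⟨u, hu⟩ : ∃ u : ℝ, u = LOC.window d (min c₁ c₃) σ := ⟨_, rfl⟩
  have hKW : K * u ≤ W := by
    rw [hu, hW]
    exact (hwK σ hσ (hσc.trans k6)).trans (LOC.window_anti d hc0 k5)
  have h1u : 1 / t₀ ≤ u := by
    rw [h1t₀, hu]
    exact LOC.window_anti d (lt_min hc₁ hc₃) (min_le_left _ _)
  have h2u : 1 / t₂ ≤ u := by
    rw [h1t₂, hu]
    exact LOC.window_anti d (lt_min hc₁ hc₃) (min_le_right _ _)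
  have hu0 : 0 < u := lt_of_lt_of_le (by positivity) h1u
  have huW : u ≤ W := by nlinarith only [h1u, hKW, h1t₀, w0, hK1]
  have hW0 : 0 < W := lt_of_lt_of_le hu0 huW
  have h1W : 1 / t₀ ≤ W := h1u.trans huW
  have haσ : |a - 2 * d| ≤ 2 * C₀ * |σ| := by
    refine hE₀.pos.trans ?_
    have := mul_le_mul_of_nonneg_left (by linarith only [hu₀, hσsq] : σ ^ 2 + 1 / t₀ ≤ 2 * |σ|) hC₀.le
    linarith only [this]
  have huσ : u ≤ |σ| := by
    rw [hu]
    rcases min_choice c₁ c₃ with h | h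
    · rw [h, ← h1t₀]; exact hu₀
    · rw [h, ← h1t₂]; exact hu₂
  have hW12 : W ≤ 1 / 2 := by rw [hW]; exact window_le_half d hc0 k7 hσ hσc
  refine ⟨hE₀.exp w1 |>.trans ?_, ?_⟩
  · refine mul_le_mul_of_nonneg_right ?_ (Real.rpow_nonneg hσ0.le _)
    linarith only [hC₀]
  -- the edge for `ε / 2`
  obtain ⟨b, q1, q2, q3, q4, q5⟩ := h₂ σ t₂ hσ (hσc.trans (by linarith only [k2, hc₂])) hσt₂ v2
  have hB : Edge d (ε / 2) c₂ C₂ σ t₂ b := ⟨q1, q2, q3, q4, q5⟩
  have hbσ : |b - 2 * d| ≤ 2 * C₂ * |σ| := by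
    refine hB.pos.trans ?_
    have := mul_le_mul_of_nonneg_left (by linarith only [hu₂, hσsq] : σ ^ 2 + 1 / t₂ ≤ 2 * |σ|) hC₂.le
    linarith only [this]
  have hCσ : (16 * C₀ + 16 * C₂ + 36) * |σ| ≤ c * (16 * C₀ + 16 * C₂ + 36) := by
    rw [mul_comm c]
    exact mul_le_mul_of_nonneg_left hσc (by positivity)
  have hC₀σ : 0 < C₀ * |σ| := by positivity
  have hC₂σ : 0 < C₂ * |σ| := by positivity
  have hCsum : (16 * C₀ + 16 * C₂ + 36) * |σ| = 16 * (C₀ * |σ|) + 16 * (C₂ * |σ|) + 36 * |σ| := by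
    ring
  have hab : |a - b| ≤ 2 * (C₀ * |σ|) + 2 * (C₂ * |σ|) := by
    have h1 : a - b = (a - 2 * d) - (b - 2 * d) := by ring
    rw [h1]
    refine (abs_sub _ _).trans ?_
    linarith only [hbσ, haσ]
  have hcl : |a - b| ≤ 8 * u := by
    refine close hE₀ hB le_rfl (by linarith only [hε1]) hu0 h1u h2u ?_ ?_ hex'
    · linarith only [hab, hCσ, huσ, hσ0, k8, hc₀]
    · linarith only [hab, hCσ, huσ, hσ0, k9, hc₂]
  have hab' := abs_le.1 hcl
  have hθ : ∀ E : ℝ, a + W ≤ E → 8 * u ≤ ε / 4 * (E - a) := by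
    intro E hE
    have h1 : K * u ≤ E - a := by linarith only [hE, hKW]
    have h2 : ε / 4 * (K * u) = 8 * u := by
      rw [hK]
      field_simp
      ring
    rw [← h2]
    exact mul_le_mul_of_nonneg_left h1 (by linarith only [hε])
  have hEb : ∀ E : ℝ, a + W ≤ E → (1 - ε / 4) * (E - a) ≤ E - b ∧
      E - b ≤ (1 + ε / 4) * (E - a) ∧ b + 1 / t₂ ≤ E := by
    intro E hE
    have h1 := hθ E hE
    have h2 : 32 * u ≤ K * u := by
      refine mul_le_mul_of_nonneg_right ?_ hu0.le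
      rw [hK, le_div_iff₀ hε]
      linarith only [hε1]
    refine ⟨by linarith only [hab', h1], by linarith only [hab', h1], ?_⟩
    linarith only [w0, h1t₀, hKW, h1u, h2u, hab', hE, h2]
  have hasy := shift_asy hε hε1 hB hc0 k2 hW0 (by
    have := le_abs_self (a - b)
    linarith only [this, hab, hCsum, hCσ, k9, k2, hC₀σ, hC₂σ, hσ0]) hEb
  refine ⟨hasy.1, hasy.2, ?_⟩
  intro E g hE hg
  exact shift_up h₀ hC₀ hσ (by linarith only [hσ4]) hE₀ hσt₀ w2 h1W hW0
    (by linarith only [hW12, k7]) (by linarith only [k1, hCsum, hCσ, k8, hC₀σ, hC₂σ, hσc, hσ0])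
    (by linarith only [hCsum, hCσ, k8, hC₀σ, hC₂σ, hσ0]) hc0 hex' E g hE hg

end Pool.Agent.LE.H93F
end
end -- Pool.Agent.Helper93_LSF.Main

section -- Pool.Agent.Helper93_LSF.Final

/-!
# The Lyapunov exponent at weak disorder
-/

set_option autoImplicit false

open MeasureTheory ProbabilityTheory Filter

open scoped ENNReal ComplexInnerProductSpace Topology

noncomputable section

namespace Pool.Agent.LE.H93F

open Pool.Agent.Anderson Pool.Agent.Loc Pool.Agent.Helper54.Bal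

universe u

variable {d : ℕ}

/-- the Lyapunov exponent is unique -/
theorem lya_unique {σ E g g' : ℝ} (h : Pool.Agent.LE.LyaAt d σ E g)
    (h' : Pool.Agent.LE.LyaAt d σ E g') : g = g' := by
  have key : ∀ {a b : ℝ}, Pool.Agent.LE.LyaAt d σ E a → Pool.Agent.LE.LyaAt d σ E b →
      ¬ a < b := by
    intro a b ha hb hab
    have h3 := (ha.2 ((b - a) / 2) (by linarith only [hab])).1
    have h4 := (hb.2 ((b - a) / 2) (by linarith)).2
    have e : b - (b - a) / 2 = a + (b - a) / 2 := by ring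
    rw [e] at h4
    have h5 := h3.add h4
    rw [add_zero] at h5
    have h6 : (1 : ℝ≥0∞) ≤ 0 := by
      refine ge_of_tendsto' h5 fun M => ?_
      rw [← measure_univ (μ := PP d (Pool.Agent.Loc.gl σ))]
      refine (measure_mono ?_).trans (measure_union_le _ _)
      intro V _
      by_cases hV : Pool.Agent.LE.SG V M (a + (b - a) / 2) E 0
      · exact Or.inl hV
      · exact Or.inr hV
    exact absurd h6 (by norm_num)
  exact le_antisymm (not_lt.1 (key h' h)) (not_lt.1 (key h h'))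

/-- the main theorem, in terms of `pr` -/
theorem final (qmf : QmfStmt) (pbd : CL.PbdStmt) (d : ℕ) (hd : 3 ≤ d) :
    ∃ (γ : ℝ → ℝ → ℝ) (Es : ℝ → ℝ),
    (∀ σ : ℝ, σ ≠ 0 → ∀ E : ℝ, 0 ≤ γ σ E ∧ ∀ ε : ℝ, 0 < ε →
      Tendsto (H93.pr d σ E (γ σ E + ε)) atTop (𝓝 0) ∧
      Tendsto (H93.pr d σ E (γ σ E - ε)) atTop (𝓝 1)) ∧
    (∀ ε : ℝ, 0 < ε → ε < 1 → ∃ c C : ℝ, 0 < c ∧ 0 < C ∧ ∀ σ : ℝ, σ ≠ 0 → |σ| ≤ c →
      |Es σ - (2 * d + watson d * σ ^ 2)| ≤ C * |σ| ^ (2 + 1 / (24 * d : ℝ)) ∧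
      (∀ E : ℝ, Es σ + LOC.window d c σ ≤ |E| →
        c * Real.sqrt (min (|E| - Es σ) 1) ≤ γ σ E ∧
        (|E| ≤ Es σ + c → (1 - ε) * Real.sqrt (|E| - Es σ) ≤ γ σ E ∧
          γ σ E ≤ (1 + ε) * Real.sqrt (|E| - Es σ))) ∧
      (∀ E lam : ℝ, lam = |(|E| - Es σ)| + LOC.window d c σ → |(|E| - Es σ)| ≤ c →
        γ σ E ≤ C * Real.sqrt lam * (Real.log (1 / |σ|) + Real.log (1 / lam)) ^ 2) ∧
      ∀ (Ω : Type u) [MeasurableSpace Ω] (P : Measure Ω) [IsProbabilityMeasure P]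
        (ξ : Site d → Ω → ℝ), (∀ y, Measurable (ξ y)) →
        (∀ y, P.map (ξ y) = gaussianReal 0 1) → iIndepFun ξ P →
        ∀ᵐ ω ∂P, ∀ a r : ℝ,
          (∀ E ∈ Set.Icc (a - r) (a + r), Es σ + LOC.window d c σ ≤ |E|) → ∀ u w : L2 d,
          (∀ x, w x = lap u x + ((σ * ξ x ω : ℝ) : ℂ) * u x) →
          (∀ (E : ℝ) (ψ : L2 d), E ∈ Set.Icc (a - r) (a + r) →
            IsEigen (fun x => σ * ξ x ω) E ψ → ⟪ψ, u⟫ = 0) →
          r * ‖u‖ ≤ ‖w - (a : ℂ) • u‖) ∧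
    (∀ δ : ℝ, 0 < δ → ∃ c C : ℝ, 0 < c ∧ c ≤ 1 / 4 ∧ 0 < C ∧ ∀ σ E : ℝ, σ ≠ 0 → |σ| ≤ c →
      |E| ≤ 2 * d - δ → γ σ E ≤ C * σ ^ 2 * Real.log (1 / |σ|) ^ 6) ∧
    ∀ σ : ℝ, σ ≠ 0 → ∀ (Ω : Type u) [MeasurableSpace Ω] (P : Measure Ω) [IsProbabilityMeasure P]
      (ξ : Site d → Ω → ℝ), (∀ y, Measurable (ξ y)) →
      (∀ y, P.map (ξ y) = gaussianReal 0 1) → iIndepFun ξ P →
      ∀ᵐ ω ∂P, ∀ (E : ℝ) (ψ : Site d → ℂ), (∃ x, ψ x ≠ 0) →
        (∃ (B : ℝ) (k : ℕ), ∀ x, ‖ψ x‖ ≤ B * (1 + (sd 0 x : ℝ)) ^ k) →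
        (∀ x, lap ψ x + ((σ * ξ x ω : ℝ) : ℂ) * ψ x = (E : ℂ) * ψ x) →
        (∀ m : ℝ, m < γ σ E → ∃ B : ℝ, ∀ x, ‖ψ x‖ ≤ B * Real.exp (-m * sd 0 x)) ∧
        ∀ m B : ℝ, γ σ E < m → ¬ ∀ x, ‖ψ x‖ ≤ B * Real.exp (-m * sd 0 x) := by
  have hd1 : 1 ≤ d := by omega
  obtain ⟨γ, h0, -, -, h3⟩ := H42J.mainJ.{u} H96.mainGT H96.smpT H15.smn H96.algT d hd1
  have hL : ∀ σ : ℝ, σ ≠ 0 → ∀ E, LyaAt d σ E (γ σ E) := fun σ hσ E =>
    H96.lyaAt_of_pr (h0 σ hσ E).1 (h0 σ hσ E).2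
  have hex : ∀ (d : ℕ) (σ E : ℝ), 1 ≤ d → σ ≠ 0 → ∃ g, LyaAt d σ E g := by
    intro d σ E hd hσ
    obtain ⟨γ', h0', -⟩ := H96.mainRT.{0} d hd σ hσ
    exact ⟨γ' E, H96.lyaAt_of_pr (h0' E).1 (h0' E).2⟩
  obtain ⟨Es, hEs⟩ := near_edge qmf hex d hd
  -- symmetry
  have key : ∀ (σ : ℝ), σ ≠ 0 → ∀ E : ℝ, LyaAt d σ |E| (γ σ E) := by
    intro σ hσ E
    rcases abs_choice E with he | he
    · rw [he]; exact hL σ hσ E
    · rw [he]; exact H96C.lya_negE (hL σ hσ E)
  refine ⟨γ, Es, h0, ?_, ?_, ?_⟩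
  · intro ε hε hε1
    obtain ⟨c, C, hc, hc4, hC, h⟩ := hEs ε hε hε1
    refine ⟨c, C, hc, hC, ?_⟩
    intro σ hσ hσc
    have hσ0 : 0 < |σ| := abs_pos.2 hσ
    have hσ4 : |σ| ≤ 1 / 4 := hσc.trans hc4
    obtain ⟨g1, g2, g3, g4⟩ := h σ hσ hσc
    have hw0 : 0 < LOC.window d c σ := by
      have hl : 0 ≤ Real.log (1 / |σ|) := Real.log_nonneg (by
        rw [le_div_iff₀ hσ0]
        linarith only [hc, hc4, hσc])
      unfold LOC.window
      split_ifs
      · positivity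
      · exact Real.exp_pos _
      · exact Real.exp_pos _
    have hlow : ∀ E : ℝ, Es σ + LOC.window d c σ ≤ |E| →
        c * Real.sqrt (min (|E| - Es σ) 1) ≤ γ σ E := fun E hE =>
      g2 |E| (γ σ E) hE (key σ hσ E)
    refine ⟨g1, fun E hE => ⟨hlow E hE, fun hE2 => ?_⟩, ?_, ?_⟩
    · exact g3 |E| (γ σ E) hE hE2 (key σ hσ E)
    · intro E lam hlam hE
      rw [hlam]
      exact g4 |E| (γ σ E) hE (key σ hσ E)
    · intro Ω _ P _ ξ hm hlaw hind
      obtain ⟨-, -, k3⟩ := h3 σ hσ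
      obtain ⟨-, k5, -⟩ := k3 Ω P ξ hm hlaw hind
      filter_upwards [k5] with ω hω a r har u w hw hort
      refine hω a r (fun E hE => ?_) u w hw hort
      have hE := har E hE
      refine lt_of_lt_of_le ?_ (hlow E hE)
      have h2 : 0 < min (|E| - Es σ) 1 := lt_min (by linarith only [hw0, hE]) one_pos
      have := Real.sqrt_pos.2 h2
      positivity
  · intro δ hδ
    obtain ⟨c, C, hc, hc4, hC, h⟩ := pbd d δ hd hδ
    exact ⟨c, C, hc, hc4, by linarith only [hc, hc4, hC], fun σ E hσ hσc hE => h σ E _ hσ hσc hE (hL σ hσ E)⟩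
  · intro σ hσ Ω _ P _ ξ hm hlaw hind
    obtain ⟨γ', h0', -, -, h4'⟩ := H96.mainRT.{u} d hd1 σ hσ
    have hγ : ∀ E, γ' E = γ σ E := fun E =>
      lya_unique (H96.lyaAt_of_pr (h0' E).1 (h0' E).2) (hL σ hσ E)
    filter_upwards [h4' Ω P ξ hm hlaw hind] with ω hω E ψ hne hpoly hψ
    have hr := hω E ψ hψ hpoly hne
    rw [hγ E] at hr
    exact hr

end Pool.Agent.LE.H93F
end
end -- Pool.Agent.Helper93_LSF.Final

section -- Pool.Agent.Helper60_LCH.PTI

/-!
# Squad LCH, row PTI: a pointwise inequality for the Poisson kernel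
-/

set_option autoImplicit false

open MeasureTheory ProbabilityTheory Function Filter

open scoped ENNReal BigOperators InnerProductSpace Topology

noncomputable section

namespace Pool.Agent.LE.CH.H60

open Pool.Agent.Anderson Pool.Agent.Loc Pool.Agent.Mob Pool.Agent.Helper54.Bal

theorem arctan_ge {y : ℝ} (hy : 0 < y) : Real.pi / 2 - 1 / y ≤ Real.arctan y := by
  have h1 : Real.arctan (y⁻¹) = Real.pi / 2 - Real.arctan y := Real.arctan_inv_of_pos hy
  have h2 : Real.arctan (y⁻¹) ≤ y⁻¹ := by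
    have h3 : 0 ≤ y⁻¹ := (inv_pos.2 hy).le
    have h4 := Real.arctan_nonneg.2 h3
    have h5 : Real.arctan (y⁻¹) ≤ Real.tan (Real.arctan (y⁻¹)) :=
      Real.le_tan h4 (Real.arctan_lt_pi_div_two _)
    rwa [Real.tan_arctan] at h5
  rw [one_div]
  linarith only [h1, h2]

theorem deriv_at (η t E : ℝ) (hη : 0 < η) :
    HasDerivAt (fun E : ℝ => Real.arctan ((E - t) / η) / Real.pi)
      (η / Real.pi / ((E - t) ^ 2 + η ^ 2)) E := by
  have h1 : HasDerivAt (fun E : ℝ => (E - t) / η) (1 / η) E :=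
    ((hasDerivAt_id E).sub_const t).div_const η
  have h2 := (h1.arctan).div_const Real.pi
  refine h2.congr_deriv ?_
  have h3 : (0 : ℝ) < (E - t) ^ 2 + η ^ 2 := by positivity
  have h4 := Real.pi_pos
  have h5 : (0 : ℝ) < 1 + ((E - t) / η) ^ 2 := by positivity
  field_simp
  ring

theorem integral_eq (a r η t : ℝ) (hr : 0 ≤ r) (hη : 0 < η) :
    ∫ E in Set.Icc (a - r) (a + r), η / Real.pi / ((E - t) ^ 2 + η ^ 2) =
      (Real.arctan ((a + r - t) / η) + Real.arctan ((t - (a - r)) / η)) / Real.pi := by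
  have hab : a - r ≤ a + r := by linarith
  rw [integral_Icc_eq_integral_Ioc, ← intervalIntegral.integral_of_le hab,
    intervalIntegral.integral_eq_sub_of_hasDerivAt (f := fun E : ℝ =>
      Real.arctan ((E - t) / η) / Real.pi) (fun E _ => deriv_at η t E hη)]
  · have h1 : (t - (a - r)) / η = -((a - r - t) / η) := by ring
    rw [h1, Real.arctan_neg]
    ring
  · apply Continuous.intervalIntegrable
    refine Continuous.div continuous_const (by fun_prop) fun E => ?_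
    have : (0 : ℝ) < (E - t) ^ 2 + η ^ 2 := by positivity
    exact this.ne'

theorem pti : PtiStmt := by
  intro a r η t hr hη hη1
  rw [integral_eq a r η t hr hη]
  set s := |t - a| with hs
  have hs0 : 0 ≤ s := abs_nonneg _
  have hs2 : (t - a) ^ 2 = s ^ 2 := (sq_abs _).symm
  have hq : 0 < √η := Real.sqrt_pos.2 hη
  have hqq : √η * √η = η := Real.mul_self_sqrt hη.le
  have hpi := Real.pi_pos
  by_cases hc : r - √η ≤ s
  · have hI : 0 ≤ (Real.arctan ((a + r - t) / η) + Real.arctan ((t - (a - r)) / η)) /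
        Real.pi := by
      rw [← integral_eq a r η t hr hη]
      apply integral_nonneg
      intro E
      have : (0 : ℝ) < (E - t) ^ 2 + η ^ 2 := by positivity
      positivity
    have h1 : 0 ≤ r ^ 2 * ((Real.arctan ((a + r - t) / η) + Real.arctan ((t - (a - r)) / η)) /
        Real.pi) := mul_nonneg (sq_nonneg r) hI
    have h2 : r ^ 2 ≤ s ^ 2 + 3 * r * √η := by
      by_cases hc2 : r ≤ √η
      · nlinarith only [mul_le_mul_of_nonneg_left hc2 hr, mul_nonneg hr hq.le, sq_nonneg s]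
      · push Not at hc2
        have h3 : 0 ≤ r - √η := by linarith only [hc2]
        have h4 : (r - √η) ^ 2 ≤ s ^ 2 := by
          apply pow_le_pow_left₀ h3 hc
        nlinarith only [mul_nonneg hr hq.le, hη, hqq, h4]
    have h3 : 0 ≤ r ^ 2 * √η := by positivity
    rw [hs2]
    nlinarith only [h1, h2, h3]
  · push Not at hc
    have hy1 : √η ≤ a + r - t := by
      have := le_abs_self (t - a)
      rw [← hs] at this
      linarith
    have hy2 : √η ≤ t - (a - r) := by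
      have := neg_abs_le (t - a)
      rw [← hs] at this
      linarith
    have key : ∀ y : ℝ, √η ≤ y → Real.pi / 2 - √η ≤ Real.arctan (y / η) := by
      intro y hy
      have hy0 : 0 < y := lt_of_lt_of_le hq hy
      have h1 := arctan_ge (div_pos hy0 hη)
      have h2 : 1 / (y / η) ≤ √η := by
        rw [one_div_div, div_le_iff₀ hy0]
        have h3 := mul_le_mul_of_nonneg_left hy hq.le
        rwa [hqq] at h3
      linarith only [h1, h2]
    have k1 := key _ hy1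
    have k2 := key _ hy2
    have hI : 1 - √η ≤ (Real.arctan ((a + r - t) / η) + Real.arctan ((t - (a - r)) / η)) /
        Real.pi := by
      rw [le_div_iff₀ hpi]
      have h3 : (2 : ℝ) < Real.pi := by
        have := Real.pi_gt_three
        linarith only [this]
      nlinarith only [hq, k1, k2, h3]
    have h1 := mul_le_mul_of_nonneg_left hI (sq_nonneg r)
    have h2 : 0 ≤ 3 * r * √η := by positivity
    nlinarith only [sq_nonneg (t - a), h1, h2]

end Pool.Agent.LE.CH.H60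
end
end -- Pool.Agent.Helper60_LCH.PTI

section -- Pool.Agent.Helper69_LCH.MEW

/-!
# MEW: measurability of the smoothed spectral measure in the potential
-/

set_option autoImplicit false

open MeasureTheory ProbabilityTheory Function Filter

open scoped ENNReal BigOperators InnerProductSpace Topology

noncomputable section

namespace Pool.Agent.LE.CH.H69

open Pool.Agent.Anderson Pool.Agent.Loc Pool.Agent.Mob Pool.Agent.Helper54.Bal
open Pool.Agent.LE.CH

theorem mew_cont (d : ℕ) (η : ℝ) (u : L2 d) (hη : η ≠ 0) :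
    Continuous fun p : (Site d → ℝ) × ℝ => ‖G p.1 (zz η p.2) u‖ ^ 2 := by
  have h := continuous_G (d := d) hη
  have h2 : Continuous fun p : (Site d → ℝ) × ℝ => ((p.1, p.2, u) : (Site d → ℝ) × ℝ × L2 d) := by
    fun_prop
  have h3 := (h.comp h2).norm.pow 2
  exact h3

theorem mew_meas (d : ℕ) (η : ℝ) (u : L2 d) (hη : η ≠ 0) :
    Measurable fun p : (Site d → ℝ) × ℝ =>
      ENNReal.ofReal (η / Real.pi * ‖G p.1 (zz η p.2) u‖ ^ 2) := by
  have h := (mew_cont d η u hη).measurable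
  exact (h.const_mul (η / Real.pi)).ennreal_ofReal

theorem mew : MewStmt := by
  intro d S η u hη _
  have h := Measurable.lintegral_prod_right' (ν := (volume : Measure ℝ).restrict S)
    (mew_meas d η u hη.ne')
  exact h

end Pool.Agent.LE.CH.H69
end
end -- Pool.Agent.Helper69_LCH.MEW

section -- Pool.Agent.Helper76_LCH.WTS

/-!
# Squad LCH, row WTS: the span of eigenfunctions with energies outside of a closed set
-/

set_option autoImplicit false

open MeasureTheory ProbabilityTheory Function Filter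

open scoped ENNReal BigOperators InnerProductSpace Topology

noncomputable section

namespace Pool.Agent.LE.CH.H76

open Pool.Agent.Anderson Pool.Agent.Loc Pool.Agent.Mob Pool.Agent.Helper54.Bal

/-- WTS -/
theorem wts (hA : WtaStmt) (hE : WteStmt) (hL : WtlStmt) : WtsStmt := by
  intro d V B u hB hu
  have hzero : Tendsto (fun η : ℝ => wt V B η (0 : L2 d)) (𝓝[>] 0) (𝓝 0) := by
    have h1 : ∀ᶠ η : ℝ in 𝓝[>] 0, wt V B η (0 : L2 d) = 0 := by
      filter_upwards [self_mem_nhdsWithin] with η hη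
      have h2 := (hA d V B η hη).2.1 0 (0 : L2 d)
      rw [zero_smul] at h2
      rw [h2]
      simp
    exact (tendsto_congr' h1).2 tendsto_const_nhds
  have hspan : ∀ v ∈ Submodule.span ℂ {φ : L2 d | ∃ E₀ : ℝ, E₀ ∉ B ∧ IsEigen V E₀ φ},
      Tendsto (fun η : ℝ => wt V B η v) (𝓝[>] 0) (𝓝 0) := by
    intro v hv
    induction hv using Submodule.span_induction with
    | mem φ hφ =>
      obtain ⟨E₀, hE₀, hei⟩ := hφ
      obtain ⟨s, hs, hsB⟩ : ∃ s : ℝ, 0 < s ∧ ∀ E ∈ B, s ≤ |E - E₀| := by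
        have h1 : Bᶜ ∈ 𝓝 E₀ := hB.isOpen_compl.mem_nhds hE₀
        obtain ⟨s, hs, hsub⟩ := Metric.mem_nhds_iff.1 h1
        refine ⟨s, hs, fun E hEB => ?_⟩
        by_contra hlt
        push Not at hlt
        have h2 : E ∈ Metric.ball E₀ s := by
          rw [Metric.mem_ball, Real.dist_eq]
          exact hlt
        exact hsub h2 hEB
      have h3 : Tendsto (fun η : ℝ => ENNReal.ofReal (η / s * ‖φ‖ ^ 2)) (𝓝[>] 0) (𝓝 0) := by
        have h4 : Tendsto (fun η : ℝ => η / s * ‖φ‖ ^ 2) (𝓝 0) (𝓝 (0 / s * ‖φ‖ ^ 2)) :=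
          (Continuous.tendsto (by fun_prop) 0)
        have h5 := (ENNReal.tendsto_ofReal h4).mono_left
          (nhdsWithin_le_nhds (s := Set.Ioi (0 : ℝ)))
        rw [zero_div, zero_mul, ENNReal.ofReal_zero] at h5
        exact h5
      refine tendsto_of_tendsto_of_tendsto_of_le_of_le' tendsto_const_nhds h3
        (Eventually.of_forall fun _ => zero_le) ?_
      filter_upwards [self_mem_nhdsWithin] with η hη
      exact (hE d V B η s E₀ φ hη hs hei).1 hsB
    | zero => exact hzero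
    | add x y _ _ hx hy =>
      have h3 : Tendsto (fun η : ℝ => 2 * wt V B η x + 2 * wt V B η y) (𝓝[>] 0) (𝓝 0) := by
        have h4 := (ENNReal.Tendsto.const_mul (a := 2) hx (Or.inr (by norm_num))).add
          (ENNReal.Tendsto.const_mul (a := 2) hy (Or.inr (by norm_num)))
        simpa using h4
      refine tendsto_of_tendsto_of_tendsto_of_le_of_le' tendsto_const_nhds h3
        (Eventually.of_forall fun _ => zero_le) ?_
      filter_upwards [self_mem_nhdsWithin] with η hη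
      exact (hA d V B η hη).1 x y
    | smul c x _ hx =>
      have h3 : Tendsto (fun η : ℝ => ENNReal.ofReal (‖c‖ ^ 2) * wt V B η x) (𝓝[>] 0) (𝓝 0) := by
        have h4 := ENNReal.Tendsto.const_mul (a := ENNReal.ofReal (‖c‖ ^ 2)) hx
          (Or.inr ENNReal.ofReal_ne_top)
        simpa using h4
      refine (tendsto_congr' ?_).2 h3
      filter_upwards [self_mem_nhdsWithin] with η hη
      exact (hA d V B η hη).2.1 c x
  rw [ENNReal.tendsto_nhds_zero]
  intro ε hε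
  obtain ⟨δ, hδ, hδε⟩ : ∃ δ : ℝ, 0 < δ ∧ 2 * ENNReal.ofReal (δ ^ 2) ≤ ε / 2 := by
    rcases eq_or_ne ε ⊤ with rfl | hεt
    · refine ⟨1, one_pos, ?_⟩
      rw [ENNReal.top_div_of_ne_top (by norm_num)]
      exact le_top
    · have h1 : Tendsto (fun δ : ℝ => 2 * ENNReal.ofReal (δ ^ 2)) (𝓝[>] 0) (𝓝 0) := by
        have h4 : Tendsto (fun δ : ℝ => δ ^ 2) (𝓝 0) (𝓝 ((0 : ℝ) ^ 2)) :=
          (Continuous.tendsto (by fun_prop) 0)
        have h5 := (ENNReal.tendsto_ofReal h4).mono_left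
          (nhdsWithin_le_nhds (s := Set.Ioi (0 : ℝ)))
        have h6 := ENNReal.Tendsto.const_mul (a := 2) h5 (Or.inr (by norm_num))
        simpa using h6
      have h2 := (ENNReal.tendsto_nhds_zero.1 h1) (ε / 2) (ENNReal.half_pos hε.ne')
      obtain ⟨δ, h3, h4⟩ := (h2.and self_mem_nhdsWithin).exists
      exact ⟨δ, h4, h3⟩
  obtain ⟨v, hv, hdist⟩ := Metric.mem_closure_iff.1 hu δ hδ
  have hv2 : ∀ᶠ η : ℝ in 𝓝[>] 0, wt V B η v ≤ ε / 2 / 2 :=
    (ENNReal.tendsto_nhds_zero.1 (hspan v hv)) (ε / 2 / 2)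
      (ENNReal.half_pos (ENNReal.half_pos hε.ne').ne')
  filter_upwards [hv2, self_mem_nhdsWithin] with η h1 hη
  have h2 : wt V B η u ≤ 2 * wt V B η v + 2 * wt V B η (u - v) := by
    have h3 := (hA d V B η hη).1 v (u - v)
    rwa [add_sub_cancel] at h3
  have h4 : wt V B η (u - v) ≤ ENNReal.ofReal (δ ^ 2) := by
    refine (hL d V B η (u - v) hη).trans (ENNReal.ofReal_le_ofReal ?_)
    have h5 : ‖u - v‖ < δ := by rwa [dist_eq_norm] at hdist
    have h6 := norm_nonneg (u - v)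
    nlinarith
  calc wt V B η u ≤ 2 * wt V B η v + 2 * wt V B η (u - v) := h2
    _ ≤ 2 * (ε / 2 / 2) + 2 * ENNReal.ofReal (δ ^ 2) := by gcongr
    _ ≤ ε / 2 + ε / 2 := by
        refine add_le_add (le_of_eq ?_) hδε
        exact ENNReal.mul_div_cancel (by norm_num) (by norm_num)
    _ = ε := ENNReal.add_halves ε

end Pool.Agent.LE.CH.H76
end
end -- Pool.Agent.Helper76_LCH.WTS

section -- Pool.Agent.Helper81_LCH.WTC

/-!
# Squad LCH, row WTC: complete eigenfunctions, an orthogonal vector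
-/

set_option autoImplicit false

open MeasureTheory ProbabilityTheory Function Filter

open scoped ENNReal BigOperators InnerProductSpace Topology ComplexConjugate

noncomputable section

namespace Pool.Agent.LE.CH.H81

open Pool.Agent.Anderson Pool.Agent.Loc Pool.Agent.Mob Pool.Agent.Helper54.Bal

variable {d : ℕ}

/-- the pairing of an eigenfunction with the resolvent -/
theorem inner_eig {V : Site d → ℝ} {z : ℂ} (hz : z.im ≠ 0) {E₀ : ℝ} {φ : L2 d}
    (hφ : IsEigen V E₀ φ) (v : L2 d) : ⟪φ, v⟫_ℂ = ((E₀ : ℂ) - z) * ⟪φ, G V z v⟫_ℂ := by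
  have hz' := conj_im_ne hz
  have h1 : ((E₀ : ℂ) - conj z) • φ = ((E₀ : ℂ) - conj z) • φ := rfl
  have h2 : φ = G V (conj z) (((E₀ : ℂ) - conj z) • φ) := by
    apply G_unique hz'
    intro x
    have h3 := hφ x
    rw [lp.coeFn_smul, Pi.smul_apply, smul_eq_mul, sub_mul, sub_mul, ← h3]
    ring
  have h4 := (isRes_G V).adj (conj z) hz' (((E₀ : ℂ) - conj z) • φ) v
  rw [← h2, Complex.conj_conj, inner_smul_left, map_sub, Complex.conj_conj,
    Complex.conj_ofReal] at h4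
  exact h4

/-- the resolvent preserves the orthogonality to the eigenfunctions -/
theorem orth_G {V : Site d → ℝ} {J : Set ℝ} {v : L2 d} (hv : Orth V J v) {z : ℂ}
    (hz : z.im ≠ 0) : Orth V J (G V z v) := by
  intro E₀ φ hE hφ
  have h1 := inner_eig hz hφ v
  rw [hv E₀ φ hE hφ] at h1
  rcases mul_eq_zero.1 h1.symm with h | h
  · exact absurd h (real_sub_ne hz E₀)
  · exact h

theorem wtc : WtcStmt := by
  intro d V a r η E v hη hC hv
  set z : ℂ := zz η E with hz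
  have hzi : z.im ≠ 0 := by
    rw [hz, zz_im]
    exact hη.ne'
  set g : L2 d := G V z v with hg
  have h1 : ∀ x, (v + z • g : L2 d) x = lap g x + (V x : ℂ) * g x := by
    intro x
    have h2 := G_eq (V := V) hzi v x
    rw [← hg] at h2
    rw [lp.coeFn_add, Pi.add_apply, lp.coeFn_smul, Pi.smul_apply, smul_eq_mul, ← h2]
    ring
  have h2 := hC g (v + z • g) h1 (orth_G hv hzi)
  have h3 : v + z • g - (a : ℂ) • g = v + (z - a) • g := by
    rw [sub_smul]
    abel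
  rw [h3] at h2
  have h4 : ‖v + (z - a) • g‖ ≤ ‖v‖ + (|E - a| + η) * ‖g‖ := by
    refine (norm_add_le _ _).trans ?_
    rw [norm_smul]
    have h5 : ‖z - a‖ ≤ |E - a| + η := by
      have h6 : z - a = ((E - a : ℝ) : ℂ) + ((η : ℝ) : ℂ) * Complex.I := by
        rw [hz]
        unfold zz
        push_cast
        ring
      rw [h6]
      refine (norm_add_le _ _).trans ?_
      rw [norm_mul, Complex.norm_I, mul_one, Complex.norm_real, Complex.norm_real,
        Real.norm_eq_abs, Real.norm_eq_abs, abs_of_pos hη]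
    gcongr
  have h5 : η * ‖g‖ ≤ ‖v‖ := by
    have h6 := (isRes_G V).norm_le hzi v
    rw [hz, zz_im, abs_of_pos hη] at h6
    exact h6
  nlinarith only [h2, h4, h5]

end Pool.Agent.LE.CH.H81
end
end -- Pool.Agent.Helper81_LCH.WTC

section -- Pool.Agent.Helper90_LCH.AVF

/-!
# LCH, row AVF: lower bound of the mean of the spectral measure in a cube
-/

set_option autoImplicit false
set_option linter.unusedSectionVars false

open scoped Topology ENNReal BigOperators NNReal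
open MeasureTheory Filter ProbabilityTheory

noncomputable section

namespace Pool.Agent.LE.CH.H90

open Pool.Agent.Anderson hiding box mem_box card_box
open Pool.Agent.Loc Pool.Agent.Mob Pool.Agent.Helper54.Bal Pool.Agent.LY
  Pool.Agent.LE.H54 Pool.Agent.LE.H54W

variable {d : ℕ}

/-- the density of `gl σ` on `[-R, R]` is at least this -/
def rmin (σ R : ℝ) : ℝ := (√(2 * Real.pi * σ ^ 2))⁻¹ * Real.exp (-R ^ 2 / (2 * σ ^ 2))

theorem rmin_pos {σ : ℝ} (hσ : σ ≠ 0) (R : ℝ) : 0 < rmin σ R := by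
  unfold rmin
  have : 0 < σ ^ 2 := by positivity
  positivity

theorem le_gl_Icc {σ : ℝ} (hσ : σ ≠ 0) {R a b : ℝ} (ha : -R ≤ a) (hb : b ≤ R) :
    ENNReal.ofReal (rmin σ R * (b - a)) ≤ gl σ (Set.Icc a b) := by
  have h1 : gl σ = gaussianReal 0 (.mk (σ ^ 2) (sq_nonneg _)) := by
    unfold gl γ1
    rw [gaussianReal_map_const_mul, mul_zero, mul_one]
  have hv : (NNReal.mk (σ ^ 2) (sq_nonneg _)) ≠ 0 := by
    intro h
    have : σ ^ 2 = 0 := congrArg NNReal.toReal h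
    exact hσ (by simpa using this)
  rw [h1, gaussianReal_apply _ hv, ENNReal.ofReal_mul (rmin_pos hσ R).le, ← Real.volume_Icc,
    ← setLIntegral_const]
  refine setLIntegral_mono' measurableSet_Icc fun x hx => ?_
  unfold gaussianPDF
  apply ENNReal.ofReal_le_ofReal
  unfold gaussianPDFReal rmin
  change (√(2 * Real.pi * σ ^ 2))⁻¹ * Real.exp (-R ^ 2 / (2 * σ ^ 2)) ≤
    (√(2 * Real.pi * σ ^ 2))⁻¹ * Real.exp (-(x - 0) ^ 2 / (2 * σ ^ 2))
  have hs : 0 < σ ^ 2 := by positivity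
  have h2 : (x - 0) ^ 2 ≤ R ^ 2 := by
    rw [sub_zero]
    exact sq_le_sq' (by linarith only [hx.1, ha]) (by linarith [hx.2])
  refine mul_le_mul_of_nonneg_left ?_ (by positivity)
  apply Real.exp_le_exp.2
  rw [neg_div, neg_div]
  exact neg_le_neg (div_le_div_of_nonneg_right h2 (by positivity))

/-- the mean over one value of the potential -/
theorem one_site {σ : ℝ} (hσ : σ ≠ 0) {M : ℝ} {a : ℂ} (ha : 0 < a.im) (haM : ‖a‖ ≤ M) :
    ENNReal.ofReal (rmin σ (2 * M)) ≤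
      ∫⁻ v : ℝ, ENNReal.ofReal (((v : ℂ) - a)⁻¹).im ∂(gl σ) := by
  set α := a.re
  set β := a.im
  have hβM : β ≤ M := (le_abs_self _).trans ((Complex.abs_im_le_norm a).trans haM)
  have hαM : |α| ≤ M := (Complex.abs_re_le_norm a).trans haM
  have hα := abs_le.1 hαM
  have h1 : ∀ v ∈ Set.Icc (α - β) (α + β), ENNReal.ofReal (1 / (2 * β)) ≤
      ENNReal.ofReal (((v : ℂ) - a)⁻¹).im := by
    intro v hv
    apply ENNReal.ofReal_le_ofReal
    rw [Complex.inv_im]
    have e1 : ((v : ℂ) - a).im = -β := by simp [β]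
    have e2 : Complex.normSq ((v : ℂ) - a) = (v - α) ^ 2 + β ^ 2 := by
      rw [Complex.normSq_apply]
      simp only [Complex.sub_re, Complex.ofReal_re, Complex.sub_im, Complex.ofReal_im]
      ring
    rw [e1, e2, neg_neg]
    have h3 : (v - α) ^ 2 ≤ β ^ 2 := sq_le_sq' (by linarith [hv.1]) (by linarith [hv.2])
    rw [div_le_div_iff₀ (by positivity) (by positivity)]
    nlinarith only [h3]
  calc ENNReal.ofReal (rmin σ (2 * M))
      = ENNReal.ofReal (1 / (2 * β)) * ENNReal.ofReal (rmin σ (2 * M) * ((α + β) - (α - β))) := by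
        rw [← ENNReal.ofReal_mul (by positivity)]
        congr 1
        field_simp
        ring
    _ ≤ ENNReal.ofReal (1 / (2 * β)) * gl σ (Set.Icc (α - β) (α + β)) := by
        gcongr
        exact le_gl_Icc hσ (by linarith) (by linarith)
    _ = ∫⁻ _v in Set.Icc (α - β) (α + β), ENNReal.ofReal (1 / (2 * β)) ∂(gl σ) := by
        rw [setLIntegral_const]
    _ ≤ ∫⁻ v in Set.Icc (α - β) (α + β), ENNReal.ofReal (((v : ℂ) - a)⁻¹).im ∂(gl σ) :=
        setLIntegral_mono' measurableSet_Icc h1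
    _ ≤ _ := setLIntegral_le_lintegral _ _

/-- the Schur formula -/
theorem schur (Λ : Finset (Site d)) {z : ℂ} (hz : 0 < z.im) (V : Site d → ℝ) (x : Λ) :
    ∃ a : ℂ, 0 < a.im ∧ ∀ v : ℝ,
      KB Λ z (Function.update V (x : Site d) v) x x = ((v : ℂ) - a)⁻¹ := by
  have hf := fam_KB Λ hz
  set V' := Function.update V (x : Site d) 0 with hV'
  have hk := hf.ker V'
  have hupd : ∀ v : ℝ, KB Λ z (Function.update V (x : Site d) v) = upk x (v : ℂ) (KB Λ z V') := by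
    intro v
    have e := hf.upd V' x v
    rw [hV', Function.update_idem, Function.update_self, Complex.ofReal_zero, sub_zero] at e
    exact e
  set K := KB Λ z V' with hK
  have hne := hk.ne_zero x
  have him := hk.im_pos x
  refine ⟨-1 / K x x, ?_, fun v => ?_⟩
  · rw [neg_div, Complex.neg_im, one_div, Complex.inv_im, neg_div, neg_neg]
    have := Complex.normSq_pos.2 hne
    positivity
  · rw [hupd v]
    have hD := hk.den_ne (w := (v : ℂ)) (by simp) x
    rw [upk_eq hD]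
    have e2 : (v : ℂ) - -1 / K x x = (1 + v * K x x) / K x x := by
      field_simp
      ring
    rw [e2, inv_div]
    congr 1
    ring

theorem gl_tail (σ : ℝ) : gl σ {v | 4 * |σ| < |v|} ≤ ENNReal.ofReal (1 / 4) := by
  unfold gl
  have hms : MeasurableSet {v : ℝ | 4 * |σ| < |v|} :=
    measurableSet_lt measurable_const measurable_id.abs
  rw [Measure.map_apply (by fun_prop) hms]
  have h1 : (fun t : ℝ => σ * t) ⁻¹' {v | 4 * |σ| < |v|} ⊆ {s | (4 : ℝ) < |s|} := by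
    intro t ht
    simp only [Set.mem_preimage, Set.mem_ofPred_eq] at ht ⊢
    rw [abs_mul] at ht
    by_contra hcon
    push Not at hcon
    have := mul_le_mul_of_nonneg_left hcon (abs_nonneg σ)
    linarith only [ht, this]
  refine (measure_mono h1).trans ((Pool.Agent.Loc.gauss_tail (by norm_num)).trans ?_)
  apply ENNReal.ofReal_le_ofReal
  have h2 : Real.exp (-(4 : ℝ) ^ 2 / 2) = (Real.exp 8)⁻¹ := by
    rw [← Real.exp_neg]; norm_num
  rw [h2]
  have h3 : (9 : ℝ) ≤ Real.exp 8 := by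
    have := Real.add_one_le_exp (8 : ℝ)
    linarith only [this]
  have h4 : (Real.exp 8)⁻¹ ≤ 9⁻¹ := inv_anti₀ (by norm_num) h3
  linarith only [h4]

/-- AVF -/
theorem avf : AvfStmt := by
  classical
  intro d σ K _ hσ
  set M : ℝ := 32 * (d : ℝ) ^ 2 + 5 + |K| with hM
  have hM0 : 0 < M := by positivity
  have hν := bddDens_gl hσ
  set C : ℝ := (Clow d (gl σ) (1 / |σ|) M).toReal with hC
  have hCt : Clow d (gl σ) (1 / |σ|) M = ENNReal.ofReal C :=
    (ENNReal.ofReal_toReal (Clow_gl (d := d) σ (1 / |σ|) hM0.ne')).symm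
  have hC0 : 0 ≤ C := ENNReal.toReal_nonneg
  set c₁ : ℝ := (1 / (4 * (C + 1))) ^ 4 with hc₁
  have hc₁0 : 0 < c₁ := by positivity
  set M₂ : ℝ := 1 / c₁ + 4 * |σ| with hM₂
  refine ⟨rmin σ (2 * M₂) * (1 / 2), mul_pos (rmin_pos hσ _) (by norm_num), ?_⟩
  intro n η E _ hE hη hη1
  set Λ : Finset (Site d) := box (0 : Site d) n with hΛ
  set z : ℂ := zz η E with hz
  have hzi : 0 < z.im := by rw [hz, zz_im]; exact hη
  have hzM : ‖z‖ ≤ M := by
    rw [hz]
    unfold zz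
    refine (norm_add_le _ _).trans ?_
    rw [norm_mul, Complex.norm_I, mul_one, Complex.norm_real, Complex.norm_real,
      Real.norm_eq_abs, Real.norm_of_nonneg hη.le]
    have h1 := le_abs_self K
    have h2 : 0 ≤ 32 * (d : ℝ) ^ 2 := by positivity
    linarith only [hE, hη1, h1, h2]
  have h0 : (0 : Site d) ∈ Λ := by
    rw [hΛ, mem_box, sd_self]
    exact Nat.zero_le _
  set x : Λ := ⟨0, h0⟩ with hx
  have hKB : ∀ V : Site d → ℝ, -(gz V Λ z 0 0).im = (KB Λ z V x x).im := by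
    intro V
    rw [KB_eq_gz, Complex.neg_im]
  simp only [hKB]
  -- the good event
  set Gd : Set (Site d → ℝ) := {V | |V 0| ≤ 4 * |σ| ∧ c₁ ≤ ‖KB Λ z V x x‖} with hGd
  have hmK := measurable_KB Λ z x x
  have hmG : MeasurableSet Gd := by
    apply MeasurableSet.inter
    · exact measurableSet_le (measurable_pi_apply 0).abs measurable_const
    · exact measurableSet_le measurable_const hmK.norm
  have hbad1 : PP d (gl σ) {V | 4 * |σ| < |V 0|} ≤ ENNReal.ofReal (1 / 4) := by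
    refine le_trans (le_of_eq ?_) (gl_tail σ)
    have hmp := measurePreserving_eval_infinitePi (fun _ : Site d => gl σ) (0 : Site d)
    have hms : MeasurableSet {s : ℝ | 4 * |σ| < |s|} :=
      measurableSet_lt measurable_const measurable_id.abs
    rw [← hmp.measure_preimage hms.nullMeasurableSet]
    rfl
  have hbad2 : PP d (gl σ) {V | ‖KB Λ z V x x‖ < c₁} ≤ ENNReal.ofReal (1 / 4) := by
    obtain ⟨S, _, hS⟩ := low_marg hν (M := M) (by rw [hM]; have := abs_nonneg K; linarith only [this]) Λ hzi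
      hzM (x := x) (y := x) (Or.inl rfl)
    have hmf : Measurable fun V : Site d → ℝ => (en (KB Λ z V x x)) ^ (-(1 / 4) : ℝ) :=
      (hmK.norm.ennreal_ofReal).pow_const _
    have h1 := PP_le_of_marg S hmf hS
    rw [hCt] at h1
    have hsub : {V : Site d → ℝ | ‖KB Λ z V x x‖ < c₁} ⊆
        {V | (ENNReal.ofReal c₁) ^ (-(1 / 4) : ℝ) ≤ (en (KB Λ z V x x)) ^ (-(1 / 4) : ℝ)} := by
      intro V hV
      rw [Set.mem_ofPred_eq] at hV ⊢
      rw [ENNReal.rpow_neg, ENNReal.rpow_neg]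
      apply ENNReal.inv_le_inv.2
      apply ENNReal.rpow_le_rpow _ (by norm_num)
      exact ENNReal.ofReal_le_ofReal hV.le
    have h2 : (ENNReal.ofReal c₁) ^ (-(1 / 4) : ℝ) = ENNReal.ofReal (4 * (C + 1)) := by
      rw [ENNReal.ofReal_rpow_of_pos hc₁0]
      congr 1
      rw [hc₁, ← Real.rpow_natCast, ← Real.rpow_mul (by positivity)]
      norm_num
      rw [Real.rpow_neg_one]
      field_simp
    refine (measure_mono hsub).trans ?_
    have h3 := mul_meas_ge_le_lintegral₀ (μ := PP d (gl σ)) hmf.aemeasurable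
      ((ENNReal.ofReal c₁) ^ (-(1 / 4) : ℝ))
    have h4 := h3.trans h1
    rw [h2] at h4 ⊢
    have h5 : (ENNReal.ofReal (4 * (C + 1))) ≠ 0 := by
      rw [Ne, ENNReal.ofReal_eq_zero, not_le]
      positivity
    have h6 := (ENNReal.le_div_iff_mul_le (Or.inl h5) (Or.inl ENNReal.ofReal_ne_top)).2
      ((mul_comm _ _).trans_le h4)
    refine h6.trans ?_
    rw [← ENNReal.ofReal_div_of_pos (by positivity)]
    apply ENNReal.ofReal_le_ofReal
    rw [div_le_div_iff₀ (by positivity) (by norm_num)]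
    linarith only
  have hgood : ENNReal.ofReal (1 / 2) ≤ PP d (gl σ) Gd := by
    have hc : Gdᶜ ⊆ {V : Site d → ℝ | 4 * |σ| < |V 0|} ∪ {V | ‖KB Λ z V x x‖ < c₁} := by
      intro V hV
      by_contra hcon
      apply hV
      simp only [Set.mem_union, Set.mem_ofPred_eq, not_or, not_lt] at hcon
      exact hcon
    have h1 : PP d (gl σ) Gdᶜ ≤ ENNReal.ofReal (1 / 2) := by
      refine (measure_mono hc).trans ((measure_union_le _ _).trans ?_)
      refine (add_le_add hbad1 hbad2).trans (le_of_eq ?_)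
      rw [← ENNReal.ofReal_add (by norm_num) (by norm_num)]
      norm_num
    have h2 := prob_add_prob_compl (μ := PP d (gl σ)) hmG
    have h3 : (1 : ℝ≥0∞) ≤ PP d (gl σ) Gd + ENNReal.ofReal (1 / 2) := by
      rw [← h2]
      gcongr
    have h4 : ENNReal.ofReal (1 / 2) + ENNReal.ofReal (1 / 2) ≤
        PP d (gl σ) Gd + ENNReal.ofReal (1 / 2) := by
      rw [← ENNReal.ofReal_add (by norm_num) (by norm_num)]
      norm_num
      norm_num at h3
      exact h3
    exact (ENNReal.add_le_add_iff_right ENNReal.ofReal_ne_top).1 h4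
  -- resampling
  have hmF : Measurable fun V : Site d → ℝ => ENNReal.ofReal (KB Λ z V x x).im :=
    (Complex.measurable_im.comp hmK).ennreal_ofReal
  have hres : MeasurePreserving (fun p : (Site d → ℝ) × ℝ => Function.update p.1 (0 : Site d) p.2)
      ((PP d (gl σ)).prod (gl σ)) (PP d (gl σ)) := resamp_PP (gl σ)
  calc ENNReal.ofReal (rmin σ (2 * M₂) * (1 / 2))
      = ENNReal.ofReal (rmin σ (2 * M₂)) * ENNReal.ofReal (1 / 2) :=
        ENNReal.ofReal_mul (rmin_pos hσ _).le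
    _ ≤ ENNReal.ofReal (rmin σ (2 * M₂)) * PP d (gl σ) Gd := by gcongr
    _ = ∫⁻ V in Gd, ENNReal.ofReal (rmin σ (2 * M₂)) ∂(PP d (gl σ)) := by
        rw [setLIntegral_const]
    _ ≤ ∫⁻ V in Gd, ∫⁻ v : ℝ, ENNReal.ofReal
          (KB Λ z (Function.update V (0 : Site d) v) x x).im ∂(gl σ) ∂(PP d (gl σ)) := by
        refine setLIntegral_mono' hmG fun V hV => ?_
        obtain ⟨a, ha, hav⟩ := schur Λ hzi V x
        have haM : ‖a‖ ≤ M₂ := by
          have h1 := hav (V 0)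
          have e : Function.update V ((x : Λ) : Site d) (V 0) = V := Function.update_eq_self _ V
          rw [e] at h1
          have h2 : ‖(V 0 : ℂ) - a‖ ≤ 1 / c₁ := by
            have h3 := hV.2
            rw [h1, norm_inv] at h3
            rw [one_div]
            have h4 : 0 < ‖(V 0 : ℂ) - a‖ := by
              by_contra hcon
              have h5 : ‖(V 0 : ℂ) - a‖ = 0 := le_antisymm (not_lt.1 hcon) (norm_nonneg _)
              rw [h5, inv_zero] at h3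
              linarith only [hc₁0, h3]
            rw [← inv_inv (‖(V 0 : ℂ) - a‖)]
            exact inv_anti₀ hc₁0 h3
          have h3 : ‖a‖ ≤ ‖(V 0 : ℂ) - a‖ + ‖(V 0 : ℂ)‖ := by
            have := norm_sub_le ((V 0 : ℂ)) ((V 0 : ℂ) - a)
            rw [sub_sub_cancel] at this
            linarith only [this]
          have h4 : ‖(V 0 : ℂ)‖ ≤ 4 * |σ| := by
            rw [Complex.norm_real, Real.norm_eq_abs]
            exact hV.1
          rw [hM₂]
          linarith only [h2, h3, h4]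
        refine (one_site hσ ha haM).trans (le_of_eq ?_)
        refine lintegral_congr fun v => ?_
        rw [← hav v]
    _ ≤ ∫⁻ V, ∫⁻ v : ℝ, ENNReal.ofReal
          (KB Λ z (Function.update V (0 : Site d) v) x x).im ∂(gl σ) ∂(PP d (gl σ)) :=
        setLIntegral_le_lintegral _ _
    _ = ∫⁻ p : (Site d → ℝ) × ℝ, ENNReal.ofReal
          (KB Λ z (Function.update p.1 (0 : Site d) p.2) x x).im ∂((PP d (gl σ)).prod (gl σ)) := by
        exact (lintegral_prod (fun p : (Site d → ℝ) × ℝ => ENNReal.ofReal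
          (KB Λ z (Function.update p.1 (0 : Site d) p.2) x x).im)
          (hmF.comp hres.measurable).aemeasurable).symm
    _ = ∫⁻ V, ENNReal.ofReal (KB Λ z V x x).im ∂(PP d (gl σ)) :=
        hres.lintegral_comp hmF


end Pool.Agent.LE.CH.H90
end
end -- Pool.Agent.Helper90_LCH.AVF

section -- Pool.Agent.Helper93_LCH.Main

/-!
# The localized region is the complement of the zeros of the Lyapunov exponent
-/

set_option autoImplicit false

open MeasureTheory ProbabilityTheory Filter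

open scoped ENNReal InnerProductSpace Topology

noncomputable section

namespace Pool.Agent.LE.CH.H93

open Pool.Agent.Anderson Pool.Agent.Loc Pool.Agent.Helper54.Bal Pool.Agent.Mob

universe u

variable {d : ℕ}

/-- exponential localization in the set `I` of energies -/
def LocIn (V : Site d → ℝ) (I : Set ℝ) : Prop :=
  Cpl V I ∧ ∀ E ∈ I, ∀ φ : L2 d, IsEigen V E φ →
    ∃ m B : ℝ, 0 < m ∧ ∀ x, ‖φ x‖ ≤ B * Real.exp (-m * sd 0 x)

theorem locIn_mono {V : Site d → ℝ} {I I' : Set ℝ} (h : LocIn V I) (hI : I' ⊆ I) : LocIn V I' :=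
  ⟨fun a r har => h.1 a r (har.trans hI), fun E hE => h.2 E (hI hE)⟩

/-- the exact rate of decay -/
def Exact (V : Site d → ℝ) (γ : ℝ → ℝ) : Prop :=
  ∀ (E : ℝ) (ψ : Site d → ℂ), (∃ x, ψ x ≠ 0) →
    (∃ (B : ℝ) (k : ℕ), ∀ x, ‖ψ x‖ ≤ B * (1 + (sd 0 x : ℝ)) ^ k) →
    (∀ x, lap ψ x + (V x : ℂ) * ψ x = (E : ℂ) * ψ x) →
    (∀ m : ℝ, m < γ E → ∃ B : ℝ, ∀ x, ‖ψ x‖ ≤ B * Real.exp (-m * sd 0 x)) ∧
    ∀ m B : ℝ, γ E < m → ¬ ∀ x, ‖ψ x‖ ≤ B * Real.exp (-m * sd 0 x)

theorem l2_poly (φ : L2 d) :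
    ∃ (B : ℝ) (k : ℕ), ∀ x, ‖φ x‖ ≤ B * (1 + (sd 0 x : ℝ)) ^ k :=
  ⟨‖φ‖, 0, fun x => by
    rw [pow_zero, mul_one]
    exact lp.norm_apply_le_norm (by norm_num) φ x⟩

theorem l2_ne {φ : L2 d} (h : φ ≠ 0) : ∃ x, φ x ≠ 0 := by
  by_contra hcon
  push Not at hcon
  exact h (lp.ext (funext hcon))

/-- each point of an open set has a rational interval around it, with room -/
theorem rat_nhd {I : Set ℝ} (hI : IsOpen I) {E : ℝ} (hE : E ∈ I) :
    ∃ a r : ℚ, 0 < r ∧ |E - a| < r / 2 ∧ Set.Icc ((a : ℝ) - r) (a + r) ⊆ I := by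
  obtain ⟨ε, hε, hb⟩ := Metric.isOpen_iff.1 hI E hE
  obtain ⟨r, hr0, hr1⟩ := exists_rat_btwn (show (0 : ℝ) < ε / 2 by linarith)
  have hr0' : (0 : ℝ) < r := by exact_mod_cast hr0
  obtain ⟨a, ha0, ha1⟩ := exists_rat_btwn (show E - r / 2 < E + r / 2 by linarith only [hr0])
  have hab : |E - a| < r / 2 := by
    rw [abs_lt]
    constructor <;> linarith
  refine ⟨a, r, by exact_mod_cast hr0', hab, fun F hF => hb ?_⟩
  rw [Metric.mem_ball, Real.dist_eq, abs_lt]
  rw [abs_lt] at hab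
  constructor <;> linarith [hF.1, hF.2, hab.1, hab.2]

/-- the deterministic part: localization -/
theorem loc_of (cpg : CpgStmt) (nul : NulStmt) {V : Site d → ℝ} {γ : ℝ → ℝ} (h0 : ∀ E, 0 ≤ γ E)
    (hO : IsOpen {E | 0 < γ E}) (hex : Exact V γ) (hcpl : Cpl V {E | 0 < γ E}) {U : ℕ → Set ℝ}
    {I : Set ℝ} (hU : ∀ k, IsOpen (U k)) (hsml : Sml V U)
    (hZ : ∀ k, {E | E ∈ I ∧ γ E = 0} ⊆ U k) : LocIn V I := by
  refine ⟨cpg d V U _ I hO hU hsml (fun k E hE => ?_) hcpl, fun E hE φ hφ => ?_⟩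
  · rcases (h0 E).lt_or_eq with h | h
    · exact Or.inl h
    · exact Or.inr (hZ k ⟨hE, h.symm⟩)
  · by_cases hφ0 : φ = 0
    · refine ⟨1, 0, one_pos, fun x => ?_⟩
      rw [hφ0]
      simp
    · rcases (h0 E).lt_or_eq with h | h
      · obtain ⟨B, hB⟩ := (hex E φ (l2_ne hφ0) (l2_poly φ) hφ).1 (γ E / 2) (by linarith only [h])
        exact ⟨γ E / 2, B, by linarith, hB⟩
      · exact absurd (nul d V U hU hsml E (fun k => hZ k ⟨hE, h.symm⟩) φ hφ) hφ0

theorem main (cpg : CpgStmt) (sml : SmlStmt) (nul : NulStmt) (cn2 : Cn2Stmt.{u}) (d : ℕ)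
    (hd : 1 ≤ d) (σ : ℝ) (hσ : σ ≠ 0) :
    ∃ γ : ℝ → ℝ,
      (∀ E : ℝ, 0 ≤ γ E ∧ ∀ ε : ℝ, 0 < ε →
        Tendsto (H93.pr d σ E (γ E + ε)) atTop (𝓝 0) ∧
        Tendsto (H93.pr d σ E (γ E - ε)) atTop (𝓝 1)) ∧
      Continuous γ ∧
      (3 ≤ d → ∃ K : ℝ, ∀ E : ℝ, K < |E| → 0 < γ E) ∧
      ∀ (Ω : Type u) [MeasurableSpace Ω] (P : Measure Ω) [IsProbabilityMeasure P]
        (ξ : Site d → Ω → ℝ), (∀ y, Measurable (ξ y)) →
        (∀ y, P.map (ξ y) = gaussianReal 0 1) → iIndepFun ξ P →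
        ∀ᵐ ω ∂P, Exact (fun x => σ * ξ x ω) γ ∧
          (∀ I : Set ℝ, IsOpen I →
            (LocIn (fun x => σ * ξ x ω) I ↔ volume {E | E ∈ I ∧ γ E = 0} = 0)) ∧
          ∀ I : Set ℝ, IsOpen I →
            (∀ E ∈ I, ∀ φ : L2 d, IsEigen (fun x => σ * ξ x ω) E φ → φ = 0) →
              ∀ E ∈ I, γ E = 0 := by
  obtain ⟨γ', h0', -, -, h3'⟩ := H42J.mainJ.{u} H96.mainGT H96.smpT H15.smn H96.algT d hd
  obtain ⟨γ, h0, -, hK, h4⟩ := H96.mainRT.{u} d hd σ hσ
  have hL' : ∀ σ : ℝ, σ ≠ 0 → ∀ E, LyaAt d σ E (γ' σ E) := fun σ hσ E =>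
    H96.lyaAt_of_pr (h0' σ hσ E).1 (h0' σ hσ E).2
  have hγ : γ' σ = γ := funext fun E =>
    H93F.lya_unique (hL' σ hσ E) (H96.lyaAt_of_pr (h0 E).1 (h0 E).2)
  have hcont : Continuous γ := by
    have h1 := H93C.conT d γ' hd hL'
    rw [← hγ]
    refine continuous_iff_continuousAt.2 fun E => ?_
    exact (h1 (σ, E) hσ).comp (f := fun E : ℝ => (σ, E))
      (continuous_const.prodMk continuous_id).continuousAt
  have hO : IsOpen {E | 0 < γ E} := isOpen_lt continuous_const hcont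
  have hZc : IsClosed {E | γ E = 0} := isClosed_eq hcont continuous_const
  have hγ0 : ∀ E, 0 ≤ γ E := fun E => (h0 E).1
  refine ⟨γ, h0, hcont, hK, ?_⟩
  intro Ω _ P _ ξ hm hlaw hind
  -- the maximal open set
  set Z : Set ℝ := {E | γ E = 0} with hZdef
  set J : ℚ × ℚ → Set ℝ := fun p => Set.Ioo (p.1 : ℝ) p.2 with hJ
  set Im : Set ℝ := ⋃ p : ℚ × ℚ, ⋃ _ : volume (Z ∩ J p) = 0, J p with hIm
  have hZm : volume {E | E ∈ Im ∧ γ E = 0} = 0 := by
    refine measure_mono_null (t := ⋃ p : ℚ × ℚ, ⋃ _ : volume (Z ∩ J p) = 0, Z ∩ J p) ?_ ?_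
    · rintro E ⟨hE, hE0⟩
      rw [hIm] at hE
      simp only [Set.mem_iUnion] at hE ⊢
      obtain ⟨p, hp, hEp⟩ := hE
      exact ⟨p, hp, hE0, hEp⟩
    · rw [measure_iUnion_null_iff]
      intro p
      by_cases hp : volume (Z ∩ J p) = 0
      · simp only [hp, Set.iUnion_true]
      · simp [hp]
  obtain ⟨U, hU, hUs⟩ := sml d σ _ hσ hZm
  have hW := Pool.Agent.Mob.H42.measurable_W hm σ
  have hlawW := Pool.Agent.Mob.H42.map_eq_PP hm hlaw hind σ
  have hUs' := Pool.Agent.Mob.H42.ae_transfer hm hlaw hind σ hUs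
  -- completeness
  obtain ⟨-, -, k3⟩ := h3' σ hσ
  obtain ⟨-, k5, -⟩ := k3 Ω P ξ hm hlaw hind
  rw [hγ] at k5
  -- the converse
  have hcn : ∀ᵐ ω ∂P, ∀ a r : ℚ, 0 < r →
      (0 < volume (Z ∩ Set.Icc ((a : ℝ) - r / 2) (a + r / 2)) →
        ¬ (CplJ (fun x => σ * ξ x ω) a r ∧ ∀ E ∈ Z ∩ Set.Icc ((a : ℝ) - r / 2) (a + r / 2),
          ∀ φ : L2 d, IsEigen (fun x => σ * ξ x ω) E φ → φ = 0)) ∧
        ¬ (CplJ (fun x => σ * ξ x ω) a r ∧ ∀ E ∈ Set.Icc ((a : ℝ) - r / 2) (a + r / 2),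
          ∀ φ : L2 d, IsEigen (fun x => σ * ξ x ω) E φ → φ = 0) := by
    rw [ae_all_iff]
    intro a
    rw [ae_all_iff]
    intro r
    rw [eventually_imp_distrib_left]
    intro hr
    have hr' : (0 : ℝ) < r := by exact_mod_cast hr
    rw [eventually_and]
    refine ⟨?_, ?_⟩
    · rw [eventually_imp_distrib_left]
      intro hv
      exact cn2 d σ a r _ hd hσ (hZc.inter isClosed_Icc) hr' Set.inter_subset_right hv Ω P
        (fun ω y => σ * ξ y ω) hW hlawW
    · refine cn2 d σ a r _ hd hσ isClosed_Icc hr' subset_rfl ?_ Ω P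
        (fun ω y => σ * ξ y ω) hW hlawW
      rw [Real.volume_Icc, ENNReal.ofReal_pos]
      linarith only [hr']
  filter_upwards [hUs', k5, hcn, h4 Ω P ξ hm hlaw hind] with ω hω1 hω2 hω3 hω4
  have hex : Exact (fun x => σ * ξ x ω) γ := fun E ψ hne hpoly hψ => hω4 E ψ hψ hpoly hne
  have hcpl : Cpl (fun x => σ * ξ x ω) {E | 0 < γ E} := by
    intro a r har u w hw hort
    exact hω2 a r har u w hw hort
  refine ⟨hex, fun I hI => ⟨fun hloc => ?_, fun hv => ?_⟩, fun I hI hno E hE => ?_⟩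
  · by_contra hv
    -- a rational interval
    have hcov : {E | E ∈ I ∧ γ E = 0} ⊆ ⋃ p : ℚ × ℚ, ⋃ _ : 0 < p.2 ∧
        Set.Icc ((p.1 : ℝ) - p.2) (p.1 + p.2) ⊆ I,
        Z ∩ Set.Icc ((p.1 : ℝ) - p.2 / 2) (p.1 + p.2 / 2) := by
      rintro E ⟨hE, hE0⟩
      obtain ⟨a, r, hr, hEa, hI'⟩ := rat_nhd hI hE
      simp only [Set.mem_iUnion]
      refine ⟨(a, r), ⟨hr, hI'⟩, hE0, ?_⟩
      rw [abs_lt] at hEa
      constructor <;> linarith only [hEa.1, hEa.2]
    obtain ⟨a, r, hr, hI', hpos⟩ : ∃ a r : ℚ, 0 < r ∧ Set.Icc ((a : ℝ) - r) (a + r) ⊆ I ∧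
        0 < volume (Z ∩ Set.Icc ((a : ℝ) - r / 2) (a + r / 2)) := by
      by_contra hcon
      push Not at hcon
      refine hv (measure_mono_null hcov ?_)
      rw [measure_iUnion_null_iff]
      rintro ⟨a, r⟩
      by_cases hp : 0 < r ∧ Set.Icc ((a : ℝ) - r) (a + r) ⊆ I
      · have := hcon a r hp.1 hp.2
        simp only [hp, and_self, Set.iUnion_true]
        exact le_antisymm this zero_le
      · simp [hp]
    refine (hω3 a r hr).1 hpos ⟨hloc.1 a r hI', fun E hE φ hφ => ?_⟩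
    by_contra hφ0
    have hr' : (0 : ℝ) < r := by exact_mod_cast hr
    have hEI : E ∈ I := hI' ⟨by linarith only [hE.2.1, hr'], by linarith only [hE.2.2, hr']⟩
    obtain ⟨m, B, hm0, hB⟩ := hloc.2 E hEI φ hφ
    have hE0 : γ E = 0 := hE.1
    exact (hex E φ (l2_ne hφ0) (l2_poly φ) hφ).2 m B (by rw [hE0]; exact hm0) hB
  · have hsub : I ⊆ Im := by
      intro E hE
      obtain ⟨a, r, hr, hEa, hI'⟩ := rat_nhd hI hE
      rw [abs_lt] at hEa
      have hr' : (0 : ℝ) < r := by exact_mod_cast hr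
      rw [hIm]
      simp only [Set.mem_iUnion]
      refine ⟨(a - r / 2, a + r / 2), ?_, ?_⟩
      · refine measure_mono_null ?_ hv
        rintro F ⟨hF0, hF⟩
        refine ⟨hI' ?_, hF0⟩
        have h1 := hF.1
        have h2 := hF.2
        push_cast at h1 h2
        exact ⟨by linarith only [hEa, h1], by linarith⟩
      · rw [hJ]
        constructor
        · push_cast; linarith only [hEa.1, hEa.2]
        · push_cast; linarith only [hEa.1, hEa.2]
    exact locIn_mono (loc_of cpg nul hγ0 hO hex hcpl (fun k => (hU k).1) hω1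
      (fun k => (hU k).2)) hsub
  · by_contra hE0
    have hEpos : 0 < γ E := lt_of_le_of_ne (hγ0 E) (Ne.symm hE0)
    obtain ⟨a, r, hr, hEa, hI'⟩ := rat_nhd (hI.inter hO) (E := E) ⟨hE, hEpos⟩
    have hr' : (0 : ℝ) < r := by exact_mod_cast hr
    refine (hω3 a r hr).2 ⟨hcpl a r (fun F hF => (hI' hF).2), fun F hF φ hφ => ?_⟩
    exact hno F (hI' ⟨by linarith only [hF.1, hr'], by linarith only [hF.2, hr']⟩).1 φ hφ

end Pool.Agent.LE.CH.H93
end
end -- Pool.Agent.Helper93_LCH.Main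

section -- Pool.Agent.Helper93_LCH.All

/-!
# The localized region is the complement of the zeros of the Lyapunov exponent: assembly
-/

set_option autoImplicit false

open MeasureTheory ProbabilityTheory Filter

open scoped ENNReal InnerProductSpace Topology

noncomputable section

namespace Pool.Agent.LE.CH.H93

open Pool.Agent.Anderson Pool.Agent.Loc Pool.Agent.Helper54.Bal Pool.Agent.Mob

universe u

theorem wtaT : WtaStmt := H45.wta

theorem wtlT : WtlStmt := H39.wtl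

theorem wteT : WteStmt := H39.wte

theorem fvgT : FvgStmt := H56.fvg H60.fvw

theorem wtqT : WtqStmt := H25.wtq H60.fvw fvgT H60.pti

theorem cpgT : CpgStmt := Pool.Agent.LE.H65C.cpg wtaT wtlT H81.wtc wtqT

theorem wtsT : WtsStmt := H76.wts wtaT wteT wtlT

theorem limT : LimStmt := H15.lim wtsT H81.wtc wtaT

theorem avlT : AvlStmt := H81.avl H90.avf fvgT

theorem smlT : SmlStmt := H3.sml H62.avu H69.mew

theorem nulT : NulStmt := H35.nul wteT

theorem cn2T : Cn2Stmt.{u} := H69.cn2.{u} limT wtlT H69.mew avlT H77.erg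

/-- the localized region is the complement of the zeros of the Lyapunov exponent, up to a null
set -/
theorem mainT (d : ℕ) (hd : 1 ≤ d) (σ : ℝ) (hσ : σ ≠ 0) :
    ∃ γ : ℝ → ℝ,
      (∀ E : ℝ, 0 ≤ γ E ∧ ∀ ε : ℝ, 0 < ε →
        Tendsto (H93.pr d σ E (γ E + ε)) atTop (𝓝 0) ∧
        Tendsto (H93.pr d σ E (γ E - ε)) atTop (𝓝 1)) ∧
      Continuous γ ∧
      (3 ≤ d → ∃ K : ℝ, ∀ E : ℝ, K < |E| → 0 < γ E) ∧
      ∀ (Ω : Type u) [MeasurableSpace Ω] (P : Measure Ω) [IsProbabilityMeasure P]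
        (ξ : Site d → Ω → ℝ), (∀ y, Measurable (ξ y)) →
        (∀ y, P.map (ξ y) = gaussianReal 0 1) → iIndepFun ξ P →
        ∀ᵐ ω ∂P, Exact (fun x => σ * ξ x ω) γ ∧
          (∀ I : Set ℝ, IsOpen I →
            (LocIn (fun x => σ * ξ x ω) I ↔ volume {E | E ∈ I ∧ γ E = 0} = 0)) ∧
          ∀ I : Set ℝ, IsOpen I →
            (∀ E ∈ I, ∀ φ : L2 d, IsEigen (fun x => σ * ξ x ω) E φ → φ = 0) →
              ∀ E ∈ I, γ E = 0 :=
  main.{u} cpgT smlT nulT cn2T d hd σ hσ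

end Pool.Agent.LE.CH.H93
end
end -- Pool.Agent.Helper93_LCH.All
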