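import Pool.Agent.Helper12_MEB.B076
import Pool.Agent.Helper12_MEB.B078
import Pool.Agent.Helper12_MEB.B079

/-!
# Merged copies (generated) of the modules

* `Pool.Agent.Helper93_LSF3.InnerF`
* `Pool.Agent.Helper93_LSF3.NumbF`
* `Pool.Agent.Helper93_LSF3.Final3`
-/

set_option autoImplicit false

section -- Pool.Agent.Helper93_LSF3.InnerF

/-!
# Between the effective band edge and the bulk, all dimensions
-/

set_option autoImplicit false

open MeasureTheory ProbabilityTheory Function Filter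

open scoped ENNReal BigOperators Topology NNReal

noncomputable section

namespace Pool.Agent.LE.H93F

open Pool.Agent.Anderson Pool.Agent.Loc Pool.Agent.Mob Pool.Agent.Helper54.Bal Pool.Agent.BED
  Pool.Agent.LE.H93W Pool.Agent.LE.H93Z Pool.Agent.LE.CL

/-- the Lyapunov exponent inside of the effective band edge, all dimensions -/
theorem innerF (fle : FleStmt) (sgx : SgxStmt) (sms : SmsStmt) (cdp : CdpStmt) (upx : UpxStmt)
    (flq : IR.FlqStmt) (pif : IR.PifStmt)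
    (hexE : ∀ (d : ℕ) (σ E : ℝ), 1 ≤ d → σ ≠ 0 → ∃ g, LyaAt d σ E g)
    (d : ℕ) (hd3 : 3 ≤ d) (c' : ℝ) (hc' : 0 < c') :
    ∃ c K η₀ : ℝ, 0 < c ∧ c ≤ 1 / 75 ∧ 1 ≤ K ∧ 0 < η₀ ∧ ∀ (σ lam L Es g : ℝ), σ ≠ 0 → |σ| ≤ c →
      0 < lam → lam ≤ c → L = Real.log (1 / |σ|) + Real.log (1 / lam) → |Es - 2 * d| ≤ η₀ →
      (∀ E g : ℝ, Es + lam / 75 ≤ E → E ≤ Es + c' → LyaAt d σ E g →
        1 / 2 * Real.sqrt (E - Es) ≤ g ∧ g ≤ 3 / 2 * Real.sqrt (E - Es)) →
      K * σ ^ 2 * growth d (1 / lam) * L ^ (2 * d + 10) ≤ 1 →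
      LyaAt d σ (Es - lam) g →
      g ≤ K * σ ^ 2 * growth d (1 / lam) * L ^ (d + 8) := by
  obtain ⟨K₀, hK₀, hpie'⟩ := pif d hd3
  obtain ⟨Kε, c1, s, B, η₀, hKε, hc1, hs, hB, hη₀, htwo⟩ :=
    two_edges fle sgx sms cdp upx flq hexE d hd3 K₀ c' hK₀ hc'
  obtain ⟨cp, Kp, hcp, hcp4, hKp, hpie⟩ := hpie' Kε hKε
  obtain ⟨c, hcd⟩ : ∃ c : ℝ, c = min (min c1 cp) (min (1 / 75) (min (75 / B) (75 / Kp))) :=
    ⟨_, rfl⟩
  have hB0 : 0 < B := by linarith only [hB]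
  have hKp0 : 0 < Kp := by linarith only [hKp]
  have hc : 0 < c := by rw [hcd]; positivity
  have k1 : c ≤ c1 := by rw [hcd]; exact (min_le_left _ _).trans (min_le_left _ _)
  have k2 : c ≤ cp := by rw [hcd]; exact (min_le_left _ _).trans (min_le_right _ _)
  have k3 : c ≤ 1 / 75 := by rw [hcd]; exact (min_le_right _ _).trans (min_le_left _ _)
  have k4 : c * B ≤ 75 := by
    have : c ≤ 75 / B := by
      rw [hcd]; exact (min_le_right _ _).trans ((min_le_right _ _).trans (min_le_left _ _))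
    rwa [le_div_iff₀ hB0] at this
  have k5 : c * Kp ≤ 75 := by
    have : c ≤ 75 / Kp := by
      rw [hcd]; exact (min_le_right _ _).trans ((min_le_right _ _).trans (min_le_right _ _))
    rwa [le_div_iff₀ hKp0] at this
  obtain ⟨K, hKd⟩ : ∃ K : ℝ, K = Kp * 75 * 2 ^ (2 * d + 10) + 150 / s +
    Kp * 75 * 2 ^ (d + 8) := ⟨_, rfl⟩
  have q1 : 0 < Kp * 75 * 2 ^ (2 * d + 10) := by positivity
  have q2 : 0 < 150 / s := by positivity
  have q3 : 0 < Kp * 75 * 2 ^ (d + 8) := by positivity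
  have j1 : Kp * 75 * 2 ^ (2 * d + 10) ≤ K := by linarith only [hKd, q2, q3]
  have j2 : 150 / s ≤ K := by linarith only [hKd, q1, q3]
  have j3 : Kp * 75 * 2 ^ (d + 8) ≤ K := by linarith only [hKd, q1, q2]
  have hK1 : 1 ≤ K := by
    refine le_trans ?_ j3
    have h1 : (1 : ℝ) ≤ 2 ^ (d + 8) := one_le_pow₀ (by norm_num)
    calc (1 : ℝ) ≤ 1 * 75 * 1 := by norm_num
      _ ≤ Kp * 75 * 2 ^ (d + 8) := by gcongr
  have hK0 : 0 < K := by linarith only [hK1]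
  refine ⟨c, K, η₀, hc, k3, hK1, hη₀, ?_⟩
  intro σ lam L Es g hσ hσc hl0 hlc hL hEs hasy hH hg
  have hσ0 : 0 < |σ| := abs_pos.2 hσ
  have hσ75 : |σ| ≤ 1 / 75 := hσc.trans k3
  have hl75 : lam ≤ 1 / 75 := hlc.trans k3
  have hσ2 : 0 < σ ^ 2 := by positivity
  have hi : 75 ≤ 1 / |σ| := by
    rw [le_div_iff₀ hσ0]
    linarith only [hσ75]
  have hil : 75 ≤ 1 / lam := by
    rw [le_div_iff₀ hl0]
    linarith only [hl75]
  have hil1 : 1 ≤ 1 / lam := by linarith only [hil]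
  have hlog75 : 1 ≤ Real.log 75 := by
    rw [Real.le_log_iff_exp_le (by norm_num)]
    have := Real.exp_one_lt_d9
    linarith only [this]
  have hlσ : Real.log 75 ≤ Real.log (1 / |σ|) := Real.log_le_log (by norm_num) hi
  have hll : 0 ≤ Real.log (1 / lam) := Real.log_nonneg hil1
  have hL1 : 1 ≤ L := by linarith only [hL, hlσ, hll, hlog75]
  have hL0 : 0 < L := by linarith only [hL1]
  obtain ⟨t, ht⟩ : ∃ t : ℝ, t = 75 * (1 / lam) := ⟨_, rfl⟩
  have ht0 : 0 < t := by rw [ht]; positivity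
  have htl : lam * t = 75 := by rw [ht]; field_simp
  have ht1 : 1 ≤ t := by linarith only [ht, hil]
  have htB : B ≤ t := by
    have h1 : c * B ≤ c * t := by
      refine k4.trans ?_
      rw [← htl]
      exact mul_le_mul_of_nonneg_right hlc ht0.le
    exact le_of_mul_le_mul_left h1 hc
  have htK : Kp ≤ t := by
    have h1 : c * Kp ≤ c * t := by
      refine k5.trans ?_
      rw [← htl]
      exact mul_le_mul_of_nonneg_right hlc ht0.le
    exact le_of_mul_le_mul_left h1 hc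
  have h1t : 1 / t = lam / 75 := by
    rw [ht]
    field_simp
  obtain ⟨L', hL'⟩ : ∃ L' : ℝ, L' = Real.log (1 / |σ|) + Real.log t := ⟨_, rfl⟩
  have hlt : Real.log t = Real.log 75 + Real.log (1 / lam) := by
    rw [ht, Real.log_mul (by norm_num) (by positivity)]
  have hL'2 : L' ≤ 2 * L := by linarith only [hL', hL, hlt, hlσ, hll]
  have hL'0 : 0 ≤ L' := by linarith only [hL', hL, hlt, hlog75, hL1]
  obtain ⟨G, hG⟩ : ∃ G : ℝ, G = growth d (1 / lam) := ⟨_, rfl⟩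
  rw [← hG] at hH ⊢
  have hG1 : 1 ≤ G := by rw [hG]; exact one_le_growth d hil1
  have hG0 : 0 < G := by linarith only [hG1]
  have hgt : growth d t ≤ 75 * G := by
    rw [ht, hG]
    exact growth_mul d (by norm_num) hil1
  have hgt1 := one_le_growth d ht1
  have hgt0 : 0 < growth d t := by linarith only [hgt1]
  have hS1 : K * σ ^ 2 * G * L ≤ 1 := by
    have h1 : L ≤ L ^ (2 * d + 10) := le_self_pow₀ hL1 (by omega)
    exact (mul_le_mul_of_nonneg_left h1 (by positivity)).trans hH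
  have hS2 : σ ^ 2 * growth d t * L' ≤ s := by
    have h1 : σ ^ 2 * growth d t * L' ≤ σ ^ 2 * (75 * G) * (2 * L) := by gcongr
    have h2 : 150 * (σ ^ 2 * G * L) ≤ s := by
      have h3 : 150 / s * (σ ^ 2 * G * L) ≤ 1 := by
        refine le_trans ?_ hS1
        calc 150 / s * (σ ^ 2 * G * L) ≤ K * (σ ^ 2 * G * L) :=
              mul_le_mul_of_nonneg_right j2 (by positivity)
          _ = _ := by ring
      have h4 := mul_le_mul_of_nonneg_left h3 hs.le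
      have e1 : s * (150 / s * (σ ^ 2 * G * L)) = 150 * (σ ^ 2 * G * L) := by field_simp
      linarith only [h4, e1]
    calc σ ^ 2 * growth d t * L' ≤ σ ^ 2 * (75 * G) * (2 * L) := h1
      _ = 150 * (σ ^ 2 * G * L) := by ring
      _ ≤ s := h2
  obtain ⟨X, hX⟩ : ∃ X : ℝ, X = (t / |σ|) ^ K₀ := ⟨_, rfl⟩
  have hX1 : 1 ≤ X := by
    rw [hX]
    refine Real.one_le_rpow ?_ (by linarith only [hK₀])
    rw [le_div_iff₀ hσ0]
    linarith only [hσ75, ht1]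
  obtain ⟨M', hM'⟩ : ∃ M' : ℕ, M' = ⌈X⌉₊ := ⟨_, rfl⟩
  have hM1 : X ≤ M' := by rw [hM']; exact Nat.le_ceil X
  have hM2 : (M' : ℝ) ≤ 2 * X := by
    have : (M' : ℝ) < X + 1 := by
      rw [hM']
      exact Nat.ceil_lt_add_one (by linarith only [hX1])
    linarith only [this, hX1]
  rw [hX] at hM1 hM2
  obtain ⟨v, hv⟩ : ∃ v : ℝ≥0, (v : ℝ) = σ ^ 2 := ⟨⟨σ ^ 2, sq_nonneg σ⟩, rfl⟩
  obtain ⟨z, μ, ε, p, hz, hμ1, hμ2, hε, hε2, hp0, hp, hflat, hEz⟩ :=
    htwo M' v σ t L' Es hσ (hσc.trans k1) hv htB hL' hS2 hM1 hM2 hEs (by rw [h1t]; exact hasy)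
  obtain ⟨l', hl'⟩ : ∃ l' : ℝ, l' = z - (Es - lam) := ⟨_, rfl⟩
  have hEl : Es - lam = z - l' := by rw [hl']; ring
  have h9 : 9 / t = 9 * lam / 75 := by
    have : 9 / t = 9 * (1 / t) := by ring
    rw [this, h1t]
    ring
  rw [h9] at hEz
  obtain ⟨w1, w2⟩ := abs_le.1 hEz
  have l1 : 2 / 3 * lam ≤ l' := by linarith only [hl', w1, w2, hl0]
  have l2 : l' ≤ 4 / 3 * lam := by linarith only [hl', w1, w2, hl0]
  have h50 : 50 / t ≤ l' := by
    have : 50 / t = 50 * (1 / t) := by ring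
    rw [this, h1t]
    linarith only [l1]
  have h100 : l' ≤ 100 / t := by
    have : 100 / t = 100 * (1 / t) := by ring
    rw [this, h1t]
    linarith only [l2]
  have hcond : Kp * σ ^ 2 * growth d t * L' ^ (2 * d + 10) ≤ 1 := by
    have h1 : Kp * σ ^ 2 * growth d t * L' ^ (2 * d + 10) ≤
        Kp * σ ^ 2 * (75 * G) * (2 * L) ^ (2 * d + 10) := by gcongr
    refine h1.trans (le_trans ?_ hH)
    calc Kp * σ ^ 2 * (75 * G) * (2 * L) ^ (2 * d + 10) =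
          (Kp * 75 * 2 ^ (2 * d + 10)) * (σ ^ 2 * G * L ^ (2 * d + 10)) := by
            rw [mul_pow]
            ring
      _ ≤ K * (σ ^ 2 * G * L ^ (2 * d + 10)) :=
          mul_le_mul_of_nonneg_right j1 (by positivity)
      _ = _ := by ring
  have hfin := hpie M' v σ t z μ ε p l' L' g hσ (hσc.trans k2) hv htK hL' hz hμ1 hμ2 h50 h100 hε
    hε2 hcond hM1 hM2 hflat hp0 hp (by rw [← hEl]; exact hg)
  refine hfin.trans ?_
  calc Kp * σ ^ 2 * growth d t * L' ^ (d + 8)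
      ≤ Kp * σ ^ 2 * (75 * G) * (2 * L) ^ (d + 8) := by gcongr
    _ = (Kp * 75 * 2 ^ (d + 8)) * (σ ^ 2 * G * L ^ (d + 8)) := by
        rw [mul_pow]
        ring
    _ ≤ K * (σ ^ 2 * G * L ^ (d + 8)) :=
        mul_le_mul_of_nonneg_right j3 (by positivity)
    _ = _ := by ring

end Pool.Agent.LE.H93F
end
end -- Pool.Agent.Helper93_LSF3.InnerF

section -- Pool.Agent.Helper93_LSF3.NumbF

/-!
# Between the effective band edge and the bulk: numbers, all dimensions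
-/

set_option autoImplicit false

open MeasureTheory ProbabilityTheory Function Filter

open scoped ENNReal BigOperators Topology NNReal

noncomputable section

namespace Pool.Agent.LE.H93F

open Pool.Agent.Anderson Pool.Agent.Loc Pool.Agent.Mob Pool.Agent.Helper54.Bal Pool.Agent.BED
  Pool.Agent.LE.H93W Pool.Agent.LE.H93Z Pool.Agent.LE.CL

/-- the condition implies that `lam` is outside of the window -/
theorem cond_windowF {d : ℕ} (hd3 : 3 ≤ d) {c₁ K σ lam L : ℝ} (hc₁ : 0 < c₁)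
    (hK : 4 / c₁ ^ 2 + 300 / c₁ + 2 / c₁ + 1 ≤ K) (hσ : σ ≠ 0) (hσ75 : |σ| ≤ 1 / 75)
    (hl0 : 0 < lam) (hl75 : lam ≤ 1 / 75) (hL : L = Real.log (1 / |σ|) + Real.log (1 / lam))
    (hH : K * σ ^ 2 * growth d (1 / lam) * L ^ (2 * d + 10) ≤ 1) :
    LOC.window d c₁ σ ≤ lam / 75 := by
  have hσ0 : 0 < |σ| := abs_pos.2 hσ
  have hσ2 : 0 < σ ^ 2 := by positivity
  have hσsq : σ ^ 2 = |σ| ^ 2 := (sq_abs σ).symm
  have hi : 75 ≤ 1 / |σ| := by
    rw [le_div_iff₀ hσ0]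
    linarith only [hσ75]
  have hil : 75 ≤ 1 / lam := by
    rw [le_div_iff₀ hl0]
    linarith only [hl75]
  have hil1 : 1 ≤ 1 / lam := by linarith only [hil]
  have hlog75 : 1 ≤ Real.log 75 := by
    rw [Real.le_log_iff_exp_le (by norm_num)]
    have := Real.exp_one_lt_d9
    linarith only [this]
  have hlσ : Real.log 75 ≤ Real.log (1 / |σ|) := Real.log_le_log (by norm_num) hi
  have hll : Real.log 75 ≤ Real.log (1 / lam) := Real.log_le_log (by norm_num) hil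
  have hL1 : 1 ≤ L := by linarith only [hL, hlσ, hll, hlog75]
  have hL0 : 0 < L := by linarith only [hL1]
  have q1 : 0 < 4 / c₁ ^ 2 := by positivity
  have q2 : 0 < 300 / c₁ := by positivity
  have q3 : 0 < 2 / c₁ := by positivity
  have hK1 : 1 ≤ K := by linarith only [hK, q1, q2, q3]
  have hK0 : 0 < K := by linarith only [hK1]
  have hG1 : 1 ≤ growth d (1 / lam) := one_le_growth d hil1
  have hlll : Real.log (1 / lam) = -Real.log lam := by rw [one_div, Real.log_inv]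
  -- an exponential window
  have hexp : ∀ w : ℝ, 2 * L ≤ w → Real.exp (-w) ≤ lam / 75 := by
    intro w hw
    have h1 : -w ≤ Real.log (lam / 75) := by
      rw [Real.log_div hl0.ne' (by norm_num)]
      linarith only [hw, hL, hlσ, hll, hlll, hlog75]
    calc Real.exp (-w) ≤ Real.exp (Real.log (lam / 75)) := Real.exp_le_exp.2 h1
      _ = lam / 75 := Real.exp_log (by positivity)
  by_cases h3 : d = 3
  · subst h3
    unfold LOC.window
    rw [if_pos rfl]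
    unfold growth at hH
    rw [if_pos rfl] at hH
    have hs0 : 0 < Real.sqrt lam := Real.sqrt_pos.2 hl0
    have hs2 : Real.sqrt lam ^ 2 = lam := Real.sq_sqrt hl0.le
    -- `K σ² L¹⁶ ≤ √lam`
    have h1 : K * σ ^ 2 * L ^ 16 ≤ Real.sqrt lam := by
      have e0 : Real.sqrt (1 / lam) * Real.sqrt lam = 1 := by
        rw [← Real.sqrt_mul (by positivity), one_div, inv_mul_cancel₀ hl0.ne', Real.sqrt_one]
      have h2 := mul_le_mul_of_nonneg_right hH hs0.le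
      calc K * σ ^ 2 * L ^ 16 = K * σ ^ 2 * L ^ 16 * (Real.sqrt (1 / lam) * Real.sqrt lam) := by
            rw [e0, mul_one]
        _ = K * σ ^ 2 * Real.sqrt (1 / lam) * L ^ (2 * 3 + 10) * Real.sqrt lam := by ring
        _ ≤ 1 * Real.sqrt lam := h2
        _ = Real.sqrt lam := one_mul _
    have h2 : (K * σ ^ 2 * L ^ 16) ^ 2 ≤ lam := by
      rw [← hs2]
      exact pow_le_pow_left₀ (by positivity) h1 2
    have h4 : 1 + Real.log (1 / |σ|) ≤ 2 * L := by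
      linarith only [hL, hL1, hll, hlog75]
    have h5 : 0 ≤ 1 + Real.log (1 / |σ|) := by linarith only [hlσ, hlog75]
    have h6 : (1 + Real.log (1 / |σ|)) ^ 2 ≤ 4 * L ^ 32 := by
      have h7 : (1 + Real.log (1 / |σ|)) ^ 2 ≤ (2 * L) ^ 2 := pow_le_pow_left₀ h5 h4 2
      have h8 : L ^ 2 ≤ L ^ 32 := pow_le_pow_right₀ hL1 (by norm_num)
      calc (1 + Real.log (1 / |σ|)) ^ 2 ≤ (2 * L) ^ 2 := h7
        _ = 4 * L ^ 2 := by ring
        _ ≤ _ := mul_le_mul_of_nonneg_left h8 (by norm_num)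
    rw [div_le_div_iff₀ hc₁ (by norm_num)]
    have h9 : 300 ≤ K * c₁ := by
      have : 300 / c₁ ≤ K := by linarith only [hK, q1, q3]
      rwa [div_le_iff₀ hc₁] at this
    calc σ ^ 4 * (1 + Real.log (1 / |σ|)) ^ 2 * 75 ≤ σ ^ 4 * (4 * L ^ 32) * 75 := by gcongr
      _ = 300 * (σ ^ 4 * L ^ 32) := by ring
      _ ≤ (K * c₁) * (σ ^ 4 * L ^ 32) := mul_le_mul_of_nonneg_right h9 (by positivity)
      _ ≤ (K * (K * c₁)) * (σ ^ 4 * L ^ 32) := by
          refine mul_le_mul_of_nonneg_right ?_ (by positivity)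
          have := mul_le_mul_of_nonneg_right hK1 (by positivity : 0 ≤ K * c₁)
          linarith only [this]
      _ = (K * σ ^ 2 * L ^ 16) ^ 2 * c₁ := by ring
      _ ≤ lam * c₁ := mul_le_mul_of_nonneg_right h2 hc₁.le
  · -- `K σ² L ^ (2 d + 10) ≤ 1`
    have h1 : K * σ ^ 2 * L ^ (2 * d + 10) ≤ 1 := by
      calc K * σ ^ 2 * L ^ (2 * d + 10) = K * σ ^ 2 * 1 * L ^ (2 * d + 10) := by ring
        _ ≤ K * σ ^ 2 * growth d (1 / lam) * L ^ (2 * d + 10) := by gcongr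
        _ ≤ 1 := hH
    have h2 : K * σ ^ 2 * L ^ 2 ≤ 1 := by
      refine le_trans ?_ h1
      have : L ^ 2 ≤ L ^ (2 * d + 10) := pow_le_pow_right₀ hL1 (by omega)
      exact mul_le_mul_of_nonneg_left this (by positivity)
    unfold LOC.window
    rw [if_neg h3]
    split_ifs with h4
    · -- `exp (- c₁ / |σ|)`
      rw [neg_div]
      refine hexp _ ?_
      rw [le_div_iff₀ hσ0]
      have h5 : 4 ≤ K * c₁ ^ 2 := by
        have : 4 / c₁ ^ 2 ≤ K := by linarith only [hK, q2, q3]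
        rwa [div_le_iff₀ (by positivity)] at this
      have h6 : (2 * L * |σ|) ^ 2 ≤ c₁ ^ 2 := by
        have h7 : 4 * (σ ^ 2 * L ^ 2) ≤ (K * c₁ ^ 2) * (σ ^ 2 * L ^ 2) :=
          mul_le_mul_of_nonneg_right h5 (by positivity)
        have h8 : (K * σ ^ 2 * L ^ 2) * c₁ ^ 2 ≤ 1 * c₁ ^ 2 :=
          mul_le_mul_of_nonneg_right h2 (by positivity)
        calc (2 * L * |σ|) ^ 2 = 4 * (σ ^ 2 * L ^ 2) := by rw [hσsq]; ring
          _ ≤ (K * c₁ ^ 2) * (σ ^ 2 * L ^ 2) := h7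
          _ = (K * σ ^ 2 * L ^ 2) * c₁ ^ 2 := by ring
          _ ≤ c₁ ^ 2 := by rw [one_mul] at h8; exact h8
      exact le_of_sq_le_sq h6 hc₁.le
    · rw [neg_div]
      refine hexp _ ?_
      rw [le_div_iff₀ hσ2]
      have h5 : 2 ≤ K * c₁ := by
        have : 2 / c₁ ≤ K := by linarith only [hK, q1, q2]
        rwa [div_le_iff₀ hc₁] at this
      have h6 : K * σ ^ 2 * L ≤ 1 := by
        refine le_trans ?_ h2
        have : L ≤ L ^ 2 := le_self_pow₀ hL1 (by norm_num)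
        exact mul_le_mul_of_nonneg_left this (by positivity)
      calc 2 * L * σ ^ 2 = 2 * (σ ^ 2 * L) := by ring
        _ ≤ (K * c₁) * (σ ^ 2 * L) := mul_le_mul_of_nonneg_right h5 (by positivity)
        _ = (K * σ ^ 2 * L) * c₁ := by ring
        _ ≤ 1 * c₁ := mul_le_mul_of_nonneg_right h6 hc₁.le
        _ = c₁ := one_mul _

/-- the mean free path, `d ≥ 5`, close to the edge -/
theorem mfpF {d : ℕ} (hd5 : 5 ≤ d) {c₁ C₁ K : ℝ} (hc₁ : 0 < c₁) (hC₁ : 0 < C₁)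
    (hK : 1 ≤ K) :
    ∃ c C : ℝ, 0 < c ∧ 1 ≤ C ∧ ∀ σ D g : ℝ, σ ≠ 0 → |σ| ≤ c → 0 ≤ D → D ≤ 1 / 75 →
      g ≤ C₁ * Real.sqrt (D + LOC.window d c₁ σ) *
        (Real.log (1 / |σ|) + Real.log (1 / (D + LOC.window d c₁ σ))) ^ 2 →
      (0 < D → K * σ ^ 2 * growth d (1 / D) *
          (Real.log (1 / |σ|) + Real.log (1 / D)) ^ (2 * d + 10) ≤ 1 →
        g ≤ K * σ ^ 2 * growth d (1 / D) *
          (Real.log (1 / |σ|) + Real.log (1 / D)) ^ (d + 8)) →
      g ≤ C * σ ^ 2 * Real.log (1 / |σ|) ^ (d + 19) := by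
  have hK0 : 0 < K := by linarith only [hK]
  obtain ⟨A, hAd⟩ : ∃ A : ℝ, A = 2 * (4 / c₁ + 1) + 2 := ⟨_, rfl⟩
  have q0 : 0 < 4 / c₁ := by positivity
  have hA2 : 2 ≤ A := by linarith only [hAd, q0]
  have hA0 : 0 < A := by linarith only [hA2]
  have hAc : 2 * (4 / c₁ + 1) ≤ A := by linarith only [hAd]
  obtain ⟨η, hηd⟩ : ∃ η : ℝ, η = Real.exp (-2) / A := ⟨_, rfl⟩
  have hη : 0 < η := by rw [hηd]; positivity
  have hη1 : A * η ≤ Real.exp (-2) := by
    rw [hηd]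
    exact le_of_eq (by field_simp)
  obtain ⟨s, hs, hsl⟩ := small_log 20 hη
  obtain ⟨s', hs', hsl''⟩ := small_log (2 * d + 10)
    (show 0 < 1 / (K * 5 ^ (2 * d + 10)) by positivity)
  refine ⟨min (min s (1 / 75)) (min (c₁ ^ 5 / 120) s'), 25 * C₁ * A + K * 5 ^ (d + 8) + 1,
    by positivity, ?_, ?_⟩
  · have : 0 < 25 * C₁ * A := by positivity
    have : 0 < K * 5 ^ (d + 8) := by positivity
    linarith
  intro σ D g hσ hσc hD0 hD75 hg1 hg2
  have hσs : |σ| ≤ s := hσc.trans ((min_le_left _ _).trans (min_le_left _ _))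
  have hσ75 : |σ| ≤ 1 / 75 := hσc.trans ((min_le_left _ _).trans (min_le_right _ _))
  have hσc₁ : |σ| ≤ c₁ ^ 5 / 120 := hσc.trans ((min_le_right _ _).trans (min_le_left _ _))
  have hσs' : |σ| ≤ s' := hσc.trans ((min_le_right _ _).trans (min_le_right _ _))
  have hσ0 : 0 < |σ| := abs_pos.2 hσ
  have hσ1 : |σ| ≤ 1 := by linarith only [hσ75]
  have hσ4 : σ ^ 4 = |σ| ^ 4 := by
    rw [← abs_pow]
    exact (abs_of_nonneg (by positivity)).symm
  have hσsq : σ ^ 2 = |σ| ^ 2 := (sq_abs σ).symm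
  have hσ2 : 0 < σ ^ 2 := by positivity
  have hσ40 : 0 < σ ^ 4 := by positivity
  have hi : 75 ≤ 1 / |σ| := by
    rw [le_div_iff₀ hσ0]
    linarith only [hσ75]
  obtain ⟨ℓ, hℓd⟩ : ∃ ℓ : ℝ, ℓ = Real.log (1 / |σ|) := ⟨_, rfl⟩
  have hℓ1 : 1 ≤ ℓ := by
    rw [hℓd, Real.le_log_iff_exp_le (by positivity)]
    have := Real.exp_one_lt_d9
    linarith only [this, hi]
  have hsl' := hsl |σ| hσ0 hσs
  have hsl2 := hsl'' |σ| hσ0 hσs'
  have hwin := window_le_sig (d := d) hc₁ le_rfl hσ hσ1 hσc₁ (by rw [← hℓd]; exact hℓ1)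
  rw [← hℓd] at hsl' hsl2 hwin hg1 hg2 ⊢
  have hℓ0 : 0 < ℓ := by linarith only [hℓ1]
  obtain ⟨w, hw⟩ : ∃ w : ℝ, w = LOC.window d c₁ σ := ⟨_, rfl⟩
  have hw0 : 0 ≤ w := by
    rw [hw]
    unfold LOC.window
    split_ifs <;> positivity
  rw [← hw] at hg1 hwin
  -- `μ₀ = A² σ⁴ ℓ ^ 40`
  obtain ⟨r, hr⟩ : ∃ r : ℝ, r = A * (σ ^ 2 * ℓ ^ 20) := ⟨_, rfl⟩
  have hr0 : 0 < r := by rw [hr]; positivity
  have hre : r ≤ Real.exp (-2) := by
    have h1 : σ ^ 2 * ℓ ^ 20 ≤ η := by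
      calc σ ^ 2 * ℓ ^ 20 = |σ| * (|σ| * ℓ ^ 20) := by rw [hσsq]; ring
        _ ≤ 1 * η := mul_le_mul hσ1 hsl' (by positivity) (by norm_num)
        _ = η := one_mul _
    rw [hr]
    exact (mul_le_mul_of_nonneg_left h1 hA0.le).trans hη1
  have hlogr : 4 ≤ Real.log (1 / r ^ 2) := by
    have h1 : Real.log r ≤ -2 := by
      have := Real.log_le_log hr0 hre
      rwa [Real.log_exp] at this
    rw [one_div, Real.log_inv, Real.log_pow]
    push_cast
    linarith only [h1]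
  have hℓ20 : (1 : ℝ) ≤ ℓ ^ 20 := one_le_pow₀ hℓ1
  have hσr : σ ^ 2 ≤ r := by
    rw [hr]
    have h1 : σ ^ 2 * 1 ≤ σ ^ 2 * ℓ ^ 20 := mul_le_mul_of_nonneg_left hℓ20 hσ2.le
    have h2 : 1 * (σ ^ 2 * ℓ ^ 20) ≤ A * (σ ^ 2 * ℓ ^ 20) :=
      mul_le_mul_of_nonneg_right (by linarith only [hA2]) (by positivity)
    linarith only [h1, h2]
  have hlσ2 : Real.log (σ ^ 2) = -(2 * ℓ) := by
    rw [hσsq, Real.log_pow, hℓd, one_div, Real.log_inv]
    push_cast
    ring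
  have hlogr2 : Real.log (1 / r ^ 2) ≤ 4 * ℓ := by
    have h1 : Real.log (σ ^ 2) ≤ Real.log r := Real.log_le_log hσ2 hσr
    rw [hlσ2] at h1
    rw [one_div, Real.log_inv, Real.log_pow]
    push_cast
    linarith only [h1]
  rcases lt_or_ge D (σ ^ 4) with hcase' | hDσ
  · -- very close to the edge
    have hcase : D + w ≤ r ^ 2 := by
      have e1 : r ^ 2 = A ^ 2 * (σ ^ 4 * ℓ ^ 40) := by rw [hr]; ring
      rw [e1]
      have h1 : (1 : ℝ) ≤ ℓ ^ 40 := one_le_pow₀ hℓ1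
      have h2 : σ ^ 4 * 1 ≤ σ ^ 4 * ℓ ^ 40 := mul_le_mul_of_nonneg_left h1 hσ40.le
      have h3 : D + w ≤ (1 + (4 / c₁ + 1)) * (σ ^ 4 * ℓ ^ 40) := by
        linarith only [hcase', hwin, h2]
      refine h3.trans (mul_le_mul_of_nonneg_right ?_ (by positivity))
      have h4 : A * 1 ≤ A * A := mul_le_mul_of_nonneg_left (by linarith only [hA2]) hA0.le
      rw [pow_two]
      linarith only [h4, hAc, q0]
    by_cases hμ : D + w = 0
    · rw [hμ] at hg1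
      have h1 : g ≤ 0 := by simpa using hg1
      refine h1.trans ?_
      positivity
    have hμ0 : 0 < D + w := lt_of_le_of_ne (by positivity) (Ne.symm hμ)
    have h1 := sqrt_log_mono hℓ0.le hμ0 hcase hlogr
    rw [Real.sqrt_sq hr0.le] at h1
    have h2 : (ℓ + Real.log (1 / r ^ 2)) ^ 2 ≤ (5 * ℓ) ^ 2 :=
      pow_le_pow_left₀ (by linarith only [hℓ0, hlogr]) (by linarith only [hlogr2]) 2
    have q2 : 0 ≤ K * 5 ^ (d + 8) + 1 := by positivity
    calc g ≤ C₁ * Real.sqrt (D + w) * (ℓ + Real.log (1 / (D + w))) ^ 2 := hg1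
      _ = C₁ * (Real.sqrt (D + w) * (ℓ + Real.log (1 / (D + w))) ^ 2) := by ring
      _ ≤ C₁ * (r * (ℓ + Real.log (1 / r ^ 2)) ^ 2) := mul_le_mul_of_nonneg_left h1 hC₁.le
      _ ≤ C₁ * (r * (5 * ℓ) ^ 2) := by gcongr
      _ = 25 * C₁ * A * (σ ^ 2 * ℓ ^ 22) := by rw [hr]; ring
      _ ≤ 25 * C₁ * A * (σ ^ 2 * ℓ ^ (d + 19)) := by
          have h5 : ℓ ^ 22 ≤ ℓ ^ (d + 19) := pow_le_pow_right₀ hℓ1 (by omega)
          gcongr
      _ ≤ (25 * C₁ * A + K * 5 ^ (d + 8) + 1) * (σ ^ 2 * ℓ ^ (d + 19)) :=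
          mul_le_mul_of_nonneg_right (by linarith only [q2]) (by positivity)
      _ = _ := by ring
  · -- `D ≥ σ⁴`
    have hD : 0 < D := lt_of_lt_of_le hσ40 hDσ
    obtain ⟨L, hL⟩ : ∃ L : ℝ, L = ℓ + Real.log (1 / D) := ⟨_, rfl⟩
    rw [← hL] at hg2
    have hlD : Real.log (1 / D) ≤ 4 * ℓ := by
      have h1 : Real.log (σ ^ 4) ≤ Real.log D := Real.log_le_log hσ40 hDσ
      have h2 : Real.log (σ ^ 4) = -(4 * ℓ) := by
        rw [hσ4, Real.log_pow, hℓd, one_div, Real.log_inv]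
        push_cast
        ring
      rw [h2] at h1
      rw [one_div, Real.log_inv]
      linarith only [h1]
    have hlD0 : 0 ≤ Real.log (1 / D) := Real.log_nonneg (by
      rw [le_div_iff₀ hD]
      linarith only [hD75])
    have hL5 : L ≤ 5 * ℓ := by linarith only [hL, hlD]
    have hL0 : 0 ≤ L := by linarith only [hL, hlD0, hℓ0]
    have hg1' : growth d (1 / D) = 1 := by
      unfold growth
      rw [if_neg (by omega), if_neg (by omega)]
    rw [hg1', mul_one] at hg2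
    have h1 := hg2 hD (by
      calc K * σ ^ 2 * L ^ (2 * d + 10) ≤ K * σ ^ 2 * (5 * ℓ) ^ (2 * d + 10) := by gcongr
        _ = (K * 5 ^ (2 * d + 10)) * (|σ| * (|σ| * ℓ ^ (2 * d + 10))) := by
            rw [hσsq, mul_pow]; ring
        _ ≤ (K * 5 ^ (2 * d + 10)) * (1 * (1 / (K * 5 ^ (2 * d + 10)))) := by gcongr
        _ = 1 := by field_simp)
    refine h1.trans ?_
    have h2 : ℓ ^ (d + 8) ≤ ℓ ^ (d + 19) := pow_le_pow_right₀ hℓ1 (by omega)
    have q2 : 0 ≤ 25 * C₁ * A + 1 := by positivity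
    calc K * σ ^ 2 * L ^ (d + 8) ≤ K * σ ^ 2 * (5 * ℓ) ^ (d + 8) := by gcongr
      _ = K * 5 ^ (d + 8) * (σ ^ 2 * ℓ ^ (d + 8)) := by rw [mul_pow]; ring
      _ ≤ K * 5 ^ (d + 8) * (σ ^ 2 * ℓ ^ (d + 19)) := by gcongr
      _ ≤ (25 * C₁ * A + K * 5 ^ (d + 8) + 1) * (σ ^ 2 * ℓ ^ (d + 19)) :=
          mul_le_mul_of_nonneg_right (by linarith only [q2]) (by positivity)
      _ = _ := by ring

end Pool.Agent.LE.H93F
end
end -- Pool.Agent.Helper93_LSF3.NumbF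

section -- Pool.Agent.Helper93_LSF3.Final3

/-!
# The Lyapunov exponent at weak disorder, the whole spectrum, all dimensions
-/

set_option autoImplicit false

open MeasureTheory ProbabilityTheory Filter

open scoped ENNReal ComplexInnerProductSpace Topology

noncomputable section

namespace Pool.Agent.LE.H93F

open Pool.Agent.Anderson Pool.Agent.Loc Pool.Agent.Mob Pool.Agent.Helper54.Bal Pool.Agent.BED
  Pool.Agent.LE.H93W Pool.Agent.LE.H93Z Pool.Agent.LE.CL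

universe u

variable {d : ℕ}

/-- the main theorem, in terms of `pr` -/
theorem final3 (qmf : QmfStmt) (pbd : CL.PbdStmt) (fle : FleStmt) (sgx : SgxStmt) (sms : SmsStmt)
    (cdp : CdpStmt) (upx : UpxStmt) (flq : IR.FlqStmt) (pie : IR.PieStmt) (pif : IR.PifStmt)
    (β : ℝ → ℝ) (d : ℕ) (hd : 3 ≤ d)
    (bulk : ∀ δ : ℝ, 0 < δ → ∃ c C : ℝ, 0 < c ∧ c ≤ 1 / 4 ∧ 1 ≤ C ∧ ∀ σ E g : ℝ, σ ≠ 0 →
      |σ| ≤ c → |E| ≤ 2 * d - δ → LyaAt d σ E g → g ≤ C * β σ) :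
    ∃ (γ : ℝ → ℝ → ℝ) (Es : ℝ → ℝ),
    (∀ σ : ℝ, σ ≠ 0 → ∀ E : ℝ, 0 ≤ γ σ E ∧ ∀ ε : ℝ, 0 < ε →
      Tendsto (H93.pr d σ E (γ σ E + ε)) atTop (𝓝 0) ∧
      Tendsto (H93.pr d σ E (γ σ E - ε)) atTop (𝓝 1)) ∧
    (∀ ε : ℝ, 0 < ε → ε < 1 → ∃ c C : ℝ, 0 < c ∧ 0 < C ∧ ∀ σ : ℝ, σ ≠ 0 → |σ| ≤ c →
      |Es σ - (2 * d + watson d * σ ^ 2)| ≤ C * |σ| ^ (2 + 1 / (24 * d : ℝ)) ∧
      (∀ E : ℝ, Es σ + LOC.window d c σ ≤ |E| →
        c * Real.sqrt (min (|E| - Es σ) 1) ≤ γ σ E ∧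
        (|E| ≤ Es σ + c → (1 - ε) * Real.sqrt (|E| - Es σ) ≤ γ σ E ∧
          γ σ E ≤ (1 + ε) * Real.sqrt (|E| - Es σ))) ∧
      (∀ E lam : ℝ, lam = |(|E| - Es σ)| + LOC.window d c σ → |(|E| - Es σ)| ≤ c →
        γ σ E ≤ C * Real.sqrt lam * (Real.log (1 / |σ|) + Real.log (1 / lam)) ^ 2) ∧
      ∀ (Ω : Type u) [MeasurableSpace Ω] (P : Measure Ω) [IsProbabilityMeasure P]
        (ξ : Site d → Ω → ℝ), (∀ y, Measurable (ξ y)) →
        (∀ y, P.map (ξ y) = gaussianReal 0 1) → iIndepFun ξ P →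
        ∀ᵐ ω ∂P, ∀ a r : ℝ,
          (∀ E ∈ Set.Icc (a - r) (a + r), Es σ + LOC.window d c σ ≤ |E|) → ∀ u w : L2 d,
          (∀ x, w x = lap u x + ((σ * ξ x ω : ℝ) : ℂ) * u x) →
          (∀ (E : ℝ) (ψ : L2 d), E ∈ Set.Icc (a - r) (a + r) →
            IsEigen (fun x => σ * ξ x ω) E ψ → ⟪ψ, u⟫ = 0) →
          r * ‖u‖ ≤ ‖w - (a : ℂ) • u‖) ∧
    (∃ c C : ℝ, 0 < c ∧ c ≤ 1 / 75 ∧ 1 ≤ C ∧ ∀ σ : ℝ, σ ≠ 0 → |σ| ≤ c →
      (∀ E lam L : ℝ, lam = Es σ - |E| → 0 < lam → lam ≤ c →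
        L = Real.log (1 / |σ|) + Real.log (1 / lam) →
        C * σ ^ 2 * growth d (1 / lam) ^ 2 * L ^ (2 * d + 10) ≤ lam ^ (((d : ℝ) - 4) / 2) →
        γ σ E ≤ C * σ ^ 2 * growth d (1 / lam) * Real.sqrt lam * L ^ (d + 6)) ∧
      (∀ E lam L : ℝ, lam = Es σ - |E| → 0 < lam → lam ≤ c →
        L = Real.log (1 / |σ|) + Real.log (1 / lam) →
        C * σ ^ 2 * growth d (1 / lam) * L ^ (2 * d + 10) ≤ 1 →
        γ σ E ≤ C * σ ^ 2 * growth d (1 / lam) * L ^ (d + 8)) ∧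
      ∀ E : ℝ, |E| ≤ Es σ → γ σ E ≤ C * σ ^ 2 * Real.log (1 / |σ|) ^ (d + 19)) ∧
    (∀ δ : ℝ, 0 < δ → ∃ c C : ℝ, 0 < c ∧ c ≤ 1 / 4 ∧ 0 < C ∧ ∀ σ E : ℝ, σ ≠ 0 → |σ| ≤ c →
      |E| ≤ 2 * d - δ → γ σ E ≤ C * β σ) ∧
    ∀ σ : ℝ, σ ≠ 0 → ∀ (Ω : Type u) [MeasurableSpace Ω] (P : Measure Ω) [IsProbabilityMeasure P]
      (ξ : Site d → Ω → ℝ), (∀ y, Measurable (ξ y)) →
      (∀ y, P.map (ξ y) = gaussianReal 0 1) → iIndepFun ξ P →
      ∀ᵐ ω ∂P, ∀ (E : ℝ) (ψ : Site d → ℂ), (∃ x, ψ x ≠ 0) →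
        (∃ (B : ℝ) (k : ℕ), ∀ x, ‖ψ x‖ ≤ B * (1 + (sd 0 x : ℝ)) ^ k) →
        (∀ x, lap ψ x + ((σ * ξ x ω : ℝ) : ℂ) * ψ x = (E : ℂ) * ψ x) →
        (∀ m : ℝ, m < γ σ E → ∃ B : ℝ, ∀ x, ‖ψ x‖ ≤ B * Real.exp (-m * sd 0 x)) ∧
        ∀ m B : ℝ, γ σ E < m → ¬ ∀ x, ‖ψ x‖ ≤ B * Real.exp (-m * sd 0 x) := by
  have hd1 : 1 ≤ d := by omega
  obtain ⟨γ, h0, -, -, h3⟩ := H42J.mainJ.{u} H96.mainGT H96.smpT H15.smn H96.algT d hd1
  have hL : ∀ σ : ℝ, σ ≠ 0 → ∀ E, LyaAt d σ E (γ σ E) := fun σ hσ E =>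
    H96.lyaAt_of_pr (h0 σ hσ E).1 (h0 σ hσ E).2
  have hex : ∀ (d : ℕ) (σ E : ℝ), 1 ≤ d → σ ≠ 0 → ∃ g, LyaAt d σ E g := by
    intro d σ E hd hσ
    obtain ⟨γ', h0', -⟩ := H96.mainRT.{0} d hd σ hσ
    exact ⟨γ' E, H96.lyaAt_of_pr (h0' E).1 (h0' E).2⟩
  obtain ⟨Es, hEs⟩ := near_edge qmf hex d hd
  -- symmetry
  have key : ∀ (σ : ℝ), σ ≠ 0 → ∀ E : ℝ, LyaAt d σ |E| (γ σ E) := by
    intro σ hσ E
    rcases abs_choice E with he | he
    · rw [he]; exact hL σ hσ E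
    · rw [he]; exact H96C.lya_negE (hL σ hσ E)
  refine ⟨γ, Es, h0, ?_, ?_, ?_, ?_⟩
  · intro ε hε hε1
    obtain ⟨c, C, hc, hc4, hC, h⟩ := hEs ε hε hε1
    refine ⟨c, C, hc, hC, ?_⟩
    intro σ hσ hσc
    have hσ0 : 0 < |σ| := abs_pos.2 hσ
    have hσ4 : |σ| ≤ 1 / 4 := hσc.trans hc4
    obtain ⟨g1, g2, g3, g4⟩ := h σ hσ hσc
    have hw0 : 0 < LOC.window d c σ := by
      have hl : 0 ≤ Real.log (1 / |σ|) := Real.log_nonneg (by
        rw [le_div_iff₀ hσ0]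
        linarith)
      unfold LOC.window
      split_ifs
      · positivity
      · exact Real.exp_pos _
      · exact Real.exp_pos _
    have hlow : ∀ E : ℝ, Es σ + LOC.window d c σ ≤ |E| →
        c * Real.sqrt (min (|E| - Es σ) 1) ≤ γ σ E := fun E hE =>
      g2 |E| (γ σ E) hE (key σ hσ E)
    refine ⟨g1, fun E hE => ⟨hlow E hE, fun hE2 => ?_⟩, ?_, ?_⟩
    · exact g3 |E| (γ σ E) hE hE2 (key σ hσ E)
    · intro E lam hlam hE
      rw [hlam]
      exact g4 |E| (γ σ E) hE (key σ hσ E)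
    · intro Ω _ P _ ξ hm hlaw hind
      obtain ⟨-, -, k3⟩ := h3 σ hσ
      obtain ⟨-, k5, -⟩ := k3 Ω P ξ hm hlaw hind
      filter_upwards [k5] with ω hω a r har u w hw hort
      refine hω a r (fun E hE => ?_) u w hw hort
      have hE := har E hE
      refine lt_of_lt_of_le ?_ (hlow E hE)
      have h2 : 0 < min (|E| - Es σ) 1 := lt_min (by linarith only [hw0, hE]) one_pos
      have := Real.sqrt_pos.2 h2
      positivity
  · -- inside
    obtain ⟨c₁, C₁, hc₁, hc₁4, hC₁, h₁⟩ := hEs (1 / 2) (by norm_num) (by norm_num)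
    obtain ⟨cI, KI, η₀, hcI, hcI75, hKI, hη₀, hinner⟩ :=
      inner fle sgx sms cdp upx flq pie hex d hd c₁ hc₁
    obtain ⟨cJ, KJ, η₁, hcJ, hcJ75, hKJ, hη₁, hinnerF⟩ :=
      innerF fle sgx sms cdp upx flq pif hex d hd c₁ hc₁
    obtain ⟨K, hKd⟩ : ∃ K : ℝ, K = KI + KJ + (4 / c₁ ^ 2 + 300 / c₁ + 2 / c₁ + 1) := ⟨_, rfl⟩
    have q1 : 0 < 4 / c₁ ^ 2 + 300 / c₁ + 2 / c₁ + 1 := by positivity
    have hKI0 : 0 < KI := by linarith only [hKI]
    have hKJ0 : 0 < KJ := by linarith only [hKJ]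
    have hKI' : KI ≤ K := by linarith only [hKd, q1, hKJ0]
    have hKJ' : KJ ≤ K := by linarith only [hKd, q1, hKI0]
    have hKw : 4 / c₁ ^ 2 + 300 / c₁ + 2 / c₁ + 1 ≤ K := by linarith only [hKd, hKI0, hKJ0]
    have hK1 : 1 ≤ K := hKI.trans hKI'
    have hK0 : 0 < K := by linarith only [hK1]
    obtain ⟨c₂, hc₂d⟩ : ∃ c : ℝ, c = min (min cI cJ) c₁ := ⟨_, rfl⟩
    have hc₂ : 0 < c₂ := by rw [hc₂d]; positivity
    have hc₂I : c₂ ≤ cI := by rw [hc₂d]; exact (min_le_left _ _).trans (min_le_left _ _)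
    have hc₂J : c₂ ≤ cJ := by rw [hc₂d]; exact (min_le_left _ _).trans (min_le_right _ _)
    have hc₂1 : c₂ ≤ c₁ := by rw [hc₂d]; exact min_le_right _ _
    obtain ⟨cB, CB, hcB, hcB4, hCB, hbulk⟩ := pbd d (c₂ / 2) hd (by positivity)
    -- the edge is close to `2 d`
    have hsmall : ∀ η : ℝ, 0 < η → ∃ s : ℝ, 0 < s ∧ s ≤ 1 ∧ ∀ σ : ℝ, σ ≠ 0 → |σ| ≤ s → |σ| ≤ c₁ →
        |Es σ - 2 * d| ≤ η := by
      intro η hη
      obtain ⟨A, hA⟩ : ∃ A : ℝ, A = |watson d| + C₁ + 1 := ⟨_, rfl⟩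
      have hA0 : 0 < A := by
        have := abs_nonneg (watson d)
        linarith only [hC₁, hcI, hcI75, hA, this]
      refine ⟨min 1 (η / A), by positivity, min_le_left _ _, fun σ hσ hs hc => ?_⟩
      have hσ0 : 0 < |σ| := abs_pos.2 hσ
      have hσ1 : |σ| ≤ 1 := hs.trans (min_le_left _ _)
      have hσA : |σ| * A ≤ η := by
        have := hs.trans (min_le_right _ _)
        rwa [le_div_iff₀ hA0] at this
      obtain ⟨g1, -⟩ := h₁ σ hσ hc
      have h2 : |σ| ^ (2 + 1 / (24 * d : ℝ)) ≤ |σ| := by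
        have h3 : |σ| ^ (2 + 1 / (24 * d : ℝ)) ≤ |σ| ^ (1 : ℝ) := by
          refine Real.rpow_le_rpow_of_exponent_ge hσ0 hσ1 ?_
          have : 0 ≤ 1 / (24 * d : ℝ) := by positivity
          linarith only [hcI, hcI75, this]
        rwa [Real.rpow_one] at h3
      have h4 : |watson d * σ ^ 2| ≤ |watson d| * |σ| := by
        rw [abs_mul]
        refine mul_le_mul_of_nonneg_left ?_ (abs_nonneg _)
        rw [abs_pow, pow_two]
        exact mul_le_of_le_one_left hσ0.le hσ1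
      have h5 : Es σ - 2 * d = (Es σ - (2 * d + watson d * σ ^ 2)) + watson d * σ ^ 2 := by ring
      calc |Es σ - 2 * d| = |(Es σ - (2 * d + watson d * σ ^ 2)) + watson d * σ ^ 2| := by rw [← h5]
        _ ≤ |Es σ - (2 * d + watson d * σ ^ 2)| + |watson d * σ ^ 2| := abs_add_le _ _
        _ ≤ C₁ * |σ| + |watson d| * |σ| :=
            add_le_add (g1.trans (mul_le_mul_of_nonneg_left h2 hC₁.le)) h4
        _ ≤ |σ| * A := by
            rw [hA]
            have : |σ| * (|watson d| + C₁ + 1) = C₁ * |σ| + |watson d| * |σ| + |σ| := by ring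
            linarith only [hσ0]
        _ ≤ η := hσA
    obtain ⟨s₁, hs₁, hs₁1, hclose₁⟩ := hsmall (min η₀ η₁) (lt_min hη₀ hη₁)
    obtain ⟨s₂, hs₂, hs₂1, hclose₂⟩ := hsmall (c₂ / 2) (by positivity)
    -- one constant for the two
    obtain ⟨cF, CF, hcF, hCF, hcrit⟩ : ∃ cF CF : ℝ, 0 < cF ∧ 1 ≤ CF ∧
        ∀ σ D g : ℝ, σ ≠ 0 → |σ| ≤ cF → 0 ≤ D → D ≤ 1 / 75 →
      g ≤ C₁ * Real.sqrt (D + LOC.window d c₁ σ) *
        (Real.log (1 / |σ|) + Real.log (1 / (D + LOC.window d c₁ σ))) ^ 2 →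
      (0 < D → K * σ ^ 2 * growth d (1 / D) ^ 2 *
          (Real.log (1 / |σ|) + Real.log (1 / D)) ^ (2 * d + 10) ≤ D ^ (((d : ℝ) - 4) / 2) →
        g ≤ K * σ ^ 2 * growth d (1 / D) * Real.sqrt D *
          (Real.log (1 / |σ|) + Real.log (1 / D)) ^ (d + 6)) →
      (0 < D → K * σ ^ 2 * growth d (1 / D) *
          (Real.log (1 / |σ|) + Real.log (1 / D)) ^ (2 * d + 10) ≤ 1 →
        g ≤ K * σ ^ 2 * growth d (1 / D) *
          (Real.log (1 / |σ|) + Real.log (1 / D)) ^ (d + 8)) →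
      1 ≤ Real.log (1 / |σ|) → g ≤ CF * σ ^ 2 * Real.log (1 / |σ|) ^ (d + 19) := by
      by_cases hd5 : d ≤ 5
      · obtain ⟨cF, CF, h1, h2, h3⟩ := mfp hd hd5 hc₁ hC₁ hK1
        refine ⟨cF, CF, h1, h2, fun σ D g hσ hσc hD0 hD75 ha hb _ hℓ => ?_⟩
        refine (h3 σ D g hσ hσc hD0 hD75 ha hb).trans ?_
        have h4 : Real.log (1 / |σ|) ^ 22 ≤ Real.log (1 / |σ|) ^ (d + 19) :=
          pow_le_pow_right₀ hℓ (by omega)
        have h5 : 0 ≤ CF := by linarith only [h2]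
        gcongr
      · obtain ⟨cF, CF, h1, h2, h3⟩ := mfpF (d := d) (by omega) hc₁ hC₁ hK1
        exact ⟨cF, CF, h1, h2, fun σ D g hσ hσc hD0 hD75 ha _ hb _ =>
          h3 σ D g hσ hσc hD0 hD75 ha hb⟩
    obtain ⟨c, hcd⟩ : ∃ c : ℝ, c = min (min (min c₂ cB) (min s₁ s₂)) (min cF (1 / 75)) :=
      ⟨_, rfl⟩
    have hc : 0 < c := by rw [hcd]; positivity
    have k1 : c ≤ c₂ := by
      rw [hcd]; exact (min_le_left _ _).trans ((min_le_left _ _).trans (min_le_left _ _))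
    have k2 : c ≤ cB := by
      rw [hcd]; exact (min_le_left _ _).trans ((min_le_left _ _).trans (min_le_right _ _))
    have k3 : c ≤ s₁ := by
      rw [hcd]; exact (min_le_left _ _).trans ((min_le_right _ _).trans (min_le_left _ _))
    have k4 : c ≤ s₂ := by
      rw [hcd]; exact (min_le_left _ _).trans ((min_le_right _ _).trans (min_le_right _ _))
    have k5 : c ≤ cF := by rw [hcd]; exact (min_le_right _ _).trans (min_le_left _ _)
    have k6 : c ≤ 1 / 75 := by rw [hcd]; exact (min_le_right _ _).trans (min_le_right _ _)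
    obtain ⟨C, hCd⟩ : ∃ C : ℝ, C = K + CF + CB := ⟨_, rfl⟩
    have hCF0 : 0 < CF := by linarith only [hCF]
    have hCB0 : 0 < CB := by linarith only [hCB]
    have m1 : K ≤ C := by linarith only [hCd, hCF0, hCB0]
    have m2 : CF ≤ C := by linarith only [hCd, hK0, hCB0]
    have m3 : CB ≤ C := by linarith only [hCd, hK0, hCF0]
    have hC0 : 0 < C := by linarith only [m1, hK0]
    refine ⟨c, C, hc, k6, hK1.trans m1, ?_⟩
    intro σ hσ hσc
    have hσ0 : 0 < |σ| := abs_pos.2 hσ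
    have hσ2 : 0 < σ ^ 2 := by positivity
    have hσc₁ : |σ| ≤ c₁ := (hσc.trans k1).trans hc₂1
    have hσ75 : |σ| ≤ 1 / 75 := hσc.trans k6
    have hi : 75 ≤ 1 / |σ| := by
      rw [le_div_iff₀ hσ0]
      linarith only [hσ75]
    have hℓ1 : 1 ≤ Real.log (1 / |σ|) := by
      rw [Real.le_log_iff_exp_le (by positivity)]
      have := Real.exp_one_lt_d9
      linarith only [this, hi]
    obtain ⟨g1, g2, g3, g4⟩ := h₁ σ hσ hσc₁
    have hEs1' : |Es σ - 2 * d| ≤ min η₀ η₁ := hclose₁ σ hσ (hσc.trans k3) hσc₁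
    have hEs1 : |Es σ - 2 * d| ≤ η₀ := hEs1'.trans (min_le_left _ _)
    have hEs1J : |Es σ - 2 * d| ≤ η₁ := hEs1'.trans (min_le_right _ _)
    have hEs2 : |Es σ - 2 * d| ≤ c₂ / 2 := hclose₂ σ hσ (hσc.trans k4) hσc₁
    -- the inner bound with the constant `K`
    have hin : ∀ E lam L : ℝ, lam = Es σ - |E| → 0 < lam → lam ≤ c₂ →
        L = Real.log (1 / |σ|) + Real.log (1 / lam) →
        K * σ ^ 2 * growth d (1 / lam) ^ 2 * L ^ (2 * d + 10) ≤ lam ^ (((d : ℝ) - 4) / 2) →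
        γ σ E ≤ K * σ ^ 2 * growth d (1 / lam) * Real.sqrt lam * L ^ (d + 6) := by
      intro E lam L hlam hl0 hlc hLd hH
      have hlI : lam ≤ cI := hlc.trans hc₂I
      have hl75 : lam ≤ 1 / 75 := hlI.trans hcI75
      have hil : 75 ≤ 1 / lam := by
        rw [le_div_iff₀ hl0]
        linarith only [hl75]
      have hil1 : 1 ≤ 1 / lam := by linarith only [hil]
      have hll : 0 ≤ Real.log (1 / lam) := Real.log_nonneg hil1
      have hL0 : 0 ≤ L := by linarith only [hLd, hll, hℓ1]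
      have hG0 : 0 < growth d (1 / lam) := lt_of_lt_of_le one_pos (one_le_growth d hil1)
      have hwin := cond_window hd hc₁ hKw hσ hσ75 hl0 hl75 hLd hH
      have hasy : ∀ E g : ℝ, Es σ + lam / 75 ≤ E → E ≤ Es σ + c₁ → LyaAt d σ E g →
          1 / 2 * Real.sqrt (E - Es σ) ≤ g ∧ g ≤ 3 / 2 * Real.sqrt (E - Es σ) := by
        intro E g hE1 hE2 hg
        obtain ⟨a1, a2⟩ := g3 E g (by linarith only [hE1, hwin]) hE2 hg
        constructor
        · calc 1 / 2 * Real.sqrt (E - Es σ) = (1 - 1 / 2) * Real.sqrt (E - Es σ) := by norm_num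
            _ ≤ g := a1
        · calc g ≤ (1 + 1 / 2) * Real.sqrt (E - Es σ) := a2
            _ = 3 / 2 * Real.sqrt (E - Es σ) := by norm_num
      have hH2 : KI * σ ^ 2 * growth d (1 / lam) ^ 2 * L ^ (2 * d + 10) ≤
          lam ^ (((d : ℝ) - 4) / 2) := by
        refine le_trans ?_ hH
        gcongr
      have hlya : LyaAt d σ (Es σ - lam) (γ σ E) := by
        have e : Es σ - lam = |E| := by rw [hlam]; ring
        rw [e]
        exact key σ hσ E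
      refine (hinner σ lam L (Es σ) (γ σ E) hσ ((hσc.trans k1).trans hc₂I) hl0 hlI hLd hEs1 hasy
        hH2 hlya).trans ?_
      gcongr
    -- the inner bound for all dimensions, with the constant `K`
    have hinF : ∀ E lam L : ℝ, lam = Es σ - |E| → 0 < lam → lam ≤ c₂ →
        L = Real.log (1 / |σ|) + Real.log (1 / lam) →
        K * σ ^ 2 * growth d (1 / lam) * L ^ (2 * d + 10) ≤ 1 →
        γ σ E ≤ K * σ ^ 2 * growth d (1 / lam) * L ^ (d + 8) := by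
      intro E lam L hlam hl0 hlc hLd hH
      have hlI : lam ≤ cJ := hlc.trans hc₂J
      have hl75 : lam ≤ 1 / 75 := hlI.trans hcJ75
      have hil : 75 ≤ 1 / lam := by
        rw [le_div_iff₀ hl0]
        linarith only [hl75]
      have hil1 : 1 ≤ 1 / lam := by linarith only [hil]
      have hll : 0 ≤ Real.log (1 / lam) := Real.log_nonneg hil1
      have hL0 : 0 ≤ L := by linarith only [hLd, hll, hℓ1]
      have hG0 : 0 < growth d (1 / lam) := lt_of_lt_of_le one_pos (one_le_growth d hil1)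
      have hwin := cond_windowF hd hc₁ hKw hσ hσ75 hl0 hl75 hLd hH
      have hasy : ∀ E g : ℝ, Es σ + lam / 75 ≤ E → E ≤ Es σ + c₁ → LyaAt d σ E g →
          1 / 2 * Real.sqrt (E - Es σ) ≤ g ∧ g ≤ 3 / 2 * Real.sqrt (E - Es σ) := by
        intro E g hE1 hE2 hg
        obtain ⟨a1, a2⟩ := g3 E g (by linarith only [hE1, hwin]) hE2 hg
        constructor
        · calc 1 / 2 * Real.sqrt (E - Es σ) = (1 - 1 / 2) * Real.sqrt (E - Es σ) := by norm_num
            _ ≤ g := a1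
        · calc g ≤ (1 + 1 / 2) * Real.sqrt (E - Es σ) := a2
            _ = 3 / 2 * Real.sqrt (E - Es σ) := by norm_num
      have hH2 : KJ * σ ^ 2 * growth d (1 / lam) * L ^ (2 * d + 10) ≤ 1 := by
        refine le_trans ?_ hH
        gcongr
      have hlya : LyaAt d σ (Es σ - lam) (γ σ E) := by
        have e : Es σ - lam = |E| := by rw [hlam]; ring
        rw [e]
        exact key σ hσ E
      refine (hinnerF σ lam L (Es σ) (γ σ E) hσ ((hσc.trans k1).trans hc₂J) hl0 hlI hLd hEs1J hasy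
        hH2 hlya).trans ?_
      gcongr
    refine ⟨?_, ?_, ?_⟩
    · intro E lam L hlam hl0 hlc hLd hH
      have hil1 : 1 ≤ 1 / lam := by
        rw [le_div_iff₀ hl0]
        linarith only [hlc, k6]
      have hll : 0 ≤ Real.log (1 / lam) := Real.log_nonneg hil1
      have hL0 : 0 ≤ L := by linarith only [hLd, hll, hℓ1]
      have hG0 : 0 < growth d (1 / lam) := lt_of_lt_of_le one_pos (one_le_growth d hil1)
      have hH2 : K * σ ^ 2 * growth d (1 / lam) ^ 2 * L ^ (2 * d + 10) ≤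
          lam ^ (((d : ℝ) - 4) / 2) := by
        refine le_trans ?_ hH
        gcongr
      refine (hin E lam L hlam hl0 (hlc.trans k1) hLd hH2).trans ?_
      gcongr
    · intro E lam L hlam hl0 hlc hLd hH
      have hil1 : 1 ≤ 1 / lam := by
        rw [le_div_iff₀ hl0]
        linarith only [hlc, k6]
      have hll : 0 ≤ Real.log (1 / lam) := Real.log_nonneg hil1
      have hL0 : 0 ≤ L := by linarith only [hLd, hll, hℓ1]
      have hG0 : 0 < growth d (1 / lam) := lt_of_lt_of_le one_pos (one_le_growth d hil1)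
      have hH2 : K * σ ^ 2 * growth d (1 / lam) * L ^ (2 * d + 10) ≤ 1 := by
        refine le_trans ?_ hH
        gcongr
      refine (hinF E lam L hlam hl0 (hlc.trans k1) hLd hH2).trans ?_
      gcongr
    · intro E hE
      rcases le_or_gt (Es σ - |E|) c₂ with hD | hD
      · -- near the edge
        obtain ⟨D, hDd⟩ : ∃ D : ℝ, D = Es σ - |E| := ⟨_, rfl⟩
        have hD0 : 0 ≤ D := by linarith only [hDd, hE]
        rw [← hDd] at hD
        have habs : |(|E| - Es σ)| = D := by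
          rw [abs_sub_comm, ← hDd, abs_of_nonneg hD0]
        have hb := g4 |E| (γ σ E) (by rw [habs]; exact hD.trans hc₂1) (key σ hσ E)
        rw [habs] at hb
        refine (hcrit σ D (γ σ E) hσ (hσc.trans k5) hD0 ((hD.trans hc₂I).trans hcI75) hb
          (fun hDpos hcond => hin E D _ hDd hDpos hD rfl hcond)
          (fun hDpos hcond => hinF E D _ hDd hDpos hD rfl hcond) hℓ1).trans ?_
        gcongr
      · -- the bulk
        have h1 : |E| ≤ 2 * d - c₂ / 2 := by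
          have := abs_le.1 hEs2
          linarith only [this.2, hD]
        refine (hbulk σ E (γ σ E) hσ (hσc.trans k2) h1 (hL σ hσ E)).trans ?_
        have h2 : Real.log (1 / |σ|) ^ 6 ≤ Real.log (1 / |σ|) ^ (d + 19) :=
          pow_le_pow_right₀ hℓ1 (by omega)
        gcongr
  · intro δ hδ
    obtain ⟨c, C, hc, hc4, hC, h⟩ := bulk δ hδ
    exact ⟨c, C, hc, hc4, by linarith only [hc, hc4, hC], fun σ E hσ hσc hE => h σ E _ hσ hσc hE (hL σ hσ E)⟩
  · intro σ hσ Ω _ P _ ξ hm hlaw hind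
    obtain ⟨γ', h0', -, -, h4'⟩ := H96.mainRT.{u} d hd1 σ hσ
    have hγ : ∀ E, γ' E = γ σ E := fun E =>
      lya_unique (H96.lyaAt_of_pr (h0' E).1 (h0' E).2) (hL σ hσ E)
    filter_upwards [h4' Ω P ξ hm hlaw hind] with ω hω E ψ hne hpoly hψ
    have hr := hω E ψ hψ hpoly hne
    rw [hγ E] at hr
    exact hr

end Pool.Agent.LE.H93F
end
end -- Pool.Agent.Helper93_LSF3.Final3
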