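import Pool.Agent.Helper12_MEB.B076
import Pool.Agent.Helper12_MEB.B082

/-!
# Merged copies (generated) of the modules

* `Pool.Agent.Helper54_LIR.CPEd`
* `Pool.Agent.Helper54_LIR.CPEe`
* `Pool.Agent.Helper54_LIR.CPEf`
* `Pool.Agent.Helper54_LIR.CPEg`
* `Pool.Agent.Helper54_LIR.CPE`
* `Pool.Agent.Helper93_LIF.CPFa`
-/

set_option autoImplicit false

section -- Pool.Agent.Helper54_LIR.CPEd

/-!
# CPE, part d: more inequalities
-/

set_option autoImplicit false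

open MeasureTheory ProbabilityTheory Function Filter

open scoped ENNReal BigOperators Topology NNReal

noncomputable section

namespace Pool.Agent.LE.IR.H54

open Pool.Agent.Anderson hiding box mem_box card_box
open Pool.Agent.Loc Pool.Agent.Mob Pool.Agent.Helper54.Bal
  Pool.Agent.Helper96.EXP Pool.Agent.BED
open Pool.Agent.LE.MN Pool.Agent.LE.CL

theorem c_r {d : ℕ} {m L CF σ G ε μ D P lam Kε : ℝ} (hm : 0 ≤ m) (hL : 0 ≤ L) (hCF : 0 ≤ CF)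
    (hKε : 0 ≤ Kε) (hG : 0 ≤ G) (hP : P ≤ G) (hD : D ≤ 5 ^ d * (P * lam ^ 2))
    (hε : ε ^ 2 = Kε * L * (σ ^ 2 * G)) (hμ : 0 ≤ μ) (hl : 0 ≤ lam) (hμl : μ * lam ≤ 1200) :
    m * L * (CF * σ ^ 2 * ε ^ 2 * μ ^ 2 * D) ≤
      (m * CF * Kε * 1200 ^ 2 * 5 ^ d) * (σ ^ 2 * G * L) ^ 2 := by
  calc m * L * (CF * σ ^ 2 * ε ^ 2 * μ ^ 2 * D) ≤
        m * L * (CF * σ ^ 2 * ε ^ 2 * μ ^ 2 * (5 ^ d * (G * lam ^ 2))) := by
        have : D ≤ 5 ^ d * (G * lam ^ 2) := hD.trans (by gcongr)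
        gcongr
    _ = (m * CF * Kε * 5 ^ d * (σ ^ 2 * G * L) ^ 2) * (μ * lam) ^ 2 := by
        rw [hε]
        ring
    _ ≤ (m * CF * Kε * 5 ^ d * (σ ^ 2 * G * L) ^ 2) * 1200 ^ 2 := by
        gcongr
    _ = (m * CF * Kε * 1200 ^ 2 * 5 ^ d) * (σ ^ 2 * G * L) ^ 2 := by ring

theorem c_r1 {d : ℕ} {m L CF σ G μ D P lam : ℝ} (hm : 0 ≤ m) (hL : 0 ≤ L) (hCF : 0 ≤ CF)
    (hG : 0 ≤ G) (hP : P ≤ G) (hD : D ≤ 5 ^ d * (P * lam ^ 2))
    (hμ : 0 ≤ μ) (hl : 0 ≤ lam) (hμl : μ * lam ≤ 1200) :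
    m * L * (CF * σ ^ 2 * μ ^ 2 * D) ≤
      (m * CF * 1200 ^ 2 * 5 ^ d) * (σ ^ 2 * G) * L := by
  calc m * L * (CF * σ ^ 2 * μ ^ 2 * D) ≤
        m * L * (CF * σ ^ 2 * μ ^ 2 * (5 ^ d * (G * lam ^ 2))) := by
        have : D ≤ 5 ^ d * (G * lam ^ 2) := hD.trans (by gcongr)
        gcongr
    _ = (m * CF * 5 ^ d * (σ ^ 2 * G) * L) * (μ * lam) ^ 2 := by
        ring
    _ ≤ (m * CF * 5 ^ d * (σ ^ 2 * G) * L) * 1200 ^ 2 := by
        gcongr
    _ = (m * CF * 1200 ^ 2 * 5 ^ d) * (σ ^ 2 * G) * L := by ring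

/-- the basic numbers -/
theorem basic {d : ℕ} {K t lam L σ : ℝ} (hd : 3 ≤ d) (hK : 100 ≤ K) (hσ : σ ≠ 0)
    (hσc : |σ| ≤ 1 / 4) (ht : K ≤ t) (hL : L = Real.log (1 / |σ|) + Real.log t)
    (h1 : 50 / t ≤ lam) (h2 : lam ≤ 100 / t)
    (hs : K * σ ^ 2 * growth d t ^ 2 * L ^ (2 * d + 10) ≤ lam ^ (((d : ℝ) - 4) / 2)) :
    1 ≤ L ∧ 1 ≤ growth d t ∧ lam ^ (((d : ℝ) - 4) / 2) ≤ growth d t ∧
      K * (σ ^ 2 * growth d t) * L ^ (2 * d + 10) ≤ 1 ∧ t / |σ| = Real.exp L ∧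
      |σ| / t = Real.exp (-L) ∧ K ≤ Real.exp L ∧ t ≤ Real.exp L ∧ 1 / |σ| ≤ Real.exp L ∧
      Real.log t ≤ L := by
  have hσ0 : 0 < |σ| := abs_pos.2 hσ
  have ht100 : 100 ≤ t := hK.trans ht
  have ht0 : 0 < t := by linarith only [hK, hσc, ht, hσ0]
  have hG1 : 1 ≤ growth d t := one_le_growth d (by linarith only [hK, hσc, ht, hσ0])
  have hP := pw_le hd ht100 h1 h2
  have hs1 : 1 ≤ 1 / |σ| := by
    rw [le_div_iff₀ hσ0]
    linarith only [hσc, hσ0]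
  have hls : 0 ≤ Real.log (1 / |σ|) := Real.log_nonneg hs1
  have hlt : 1 ≤ Real.log t := by
    rw [Real.le_log_iff_exp_le ht0]
    have := Real.exp_one_lt_d9
    linarith only [hK, hσc, ht, hσ0, this]
  have hexp : Real.exp L = t / |σ| := by
    rw [hL, Real.exp_add, Real.exp_log (by positivity), Real.exp_log ht0]
    ring
  have hts : t ≤ t / |σ| := by
    rw [le_div_iff₀ hσ0]
    nlinarith only [hK, hσc, ht, hσ0]
  refine ⟨by linarith only [hL, hls, hlt], hG1, hP, ?_, hexp.symm, ?_, ?_, ?_, ?_, by linarith only [hL, hls]⟩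
  · have h3 : K * σ ^ 2 * growth d t ^ 2 * L ^ (2 * d + 10) ≤ growth d t := hs.trans hP
    have h4 : growth d t * (K * (σ ^ 2 * growth d t) * L ^ (2 * d + 10)) ≤ growth d t * 1 := by
      calc growth d t * (K * (σ ^ 2 * growth d t) * L ^ (2 * d + 10)) =
            K * σ ^ 2 * growth d t ^ 2 * L ^ (2 * d + 10) := by ring
        _ ≤ growth d t * 1 := by rw [mul_one]; exact h3
    exact le_of_mul_le_mul_left h4 (by linarith only [hσc, hσ0, hG1])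
  · rw [Real.exp_neg, hexp, inv_div]
  · rw [hexp]
    linarith only [ht, hts]
  · rw [hexp]
    exact hts
  · rw [hexp]
    gcongr
    linarith only [hK, hσc, ht, hσ0]

theorem inv_eta {d : ℕ} {t lam L σ G K₃ η : ℝ} (hη : η = K₃ * (σ ^ 2 * G) * lam * L ^ (d + 4))
    (hσ : σ ≠ 0) (ht : 1 ≤ t) (hexp : t / |σ| = Real.exp L) (h1 : 50 / t ≤ lam) (hL : 1 ≤ L)
    (hG : 1 ≤ G) (hK₃ : 1 ≤ K₃) : 1 / η ≤ Real.exp (2 * L) := by
  have hσ0 : 0 < |σ| := abs_pos.2 hσ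
  have hσ2 : 0 < σ ^ 2 := by positivity
  have ht0 : 0 < t := by linarith only [ht]
  have hl0 : 0 < lam := lt_of_lt_of_le (by positivity) h1
  have hη0 : 0 < η := by rw [hη]; positivity
  have h2 : Real.exp (2 * L) = t ^ 2 / σ ^ 2 := by
    rw [← sq_abs σ, ← div_pow, hexp, ← Real.exp_nat_mul]
    push_cast
    rfl
  rw [h2, div_le_div_iff₀ hη0 hσ2]
  have h3 : 1 ≤ t * lam := by
    rw [div_le_iff₀ ht0] at h1
    linarith only [h1]
  have h4 : (1 : ℝ) ≤ L ^ (d + 4) := one_le_pow₀ hL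
  have h5 : σ ^ 2 * lam ≤ η := by
    rw [hη]
    calc σ ^ 2 * lam = 1 * (σ ^ 2 * 1) * lam * 1 := by ring
      _ ≤ K₃ * (σ ^ 2 * G) * lam * L ^ (d + 4) := by gcongr
  calc 1 * σ ^ 2 ≤ t * (t * lam) * σ ^ 2 := by
        gcongr
        nlinarith only [ht, h3]
    _ = t ^ 2 * (σ ^ 2 * lam) := by ring
    _ ≤ t ^ 2 * η := by gcongr

/-- the scales of the cluster -/
theorem scales {d : ℕ} {C₁ L η : ℝ} (hd : 3 ≤ d) (hC₁ : 1 ≤ C₁) (hL : 1 ≤ L) (hη : 0 < η)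
    (hη1 : η ≤ 1) (hinv : 1 / η ≤ Real.exp (2 * L)) (hK : 72 * d * C₁ + 14 ≤ Real.exp L) :
    ∃ R₁ J R : ℕ, R = J * R₁ ∧ 1 ≤ R₁ ∧ 1 ≤ J ∧ 1 ≤ R ∧ C₁ * L ≤ η * R₁ ∧ (J : ℝ) ≤ 9 * d * L ∧
      (2 * R + 7 : ℝ) ≤ Real.exp (4 * L) ∧ (2 * R + 1) ^ d < 2 ^ J := by
  have hd' : (3 : ℝ) ≤ d := by exact_mod_cast hd
  set R₁ : ℕ := ⌈C₁ * L / η⌉₊ with hR₁
  set J : ℕ := ⌈8 * d * L⌉₊ with hJ
  have hCL : 1 ≤ C₁ * L := by nlinarith only [hC₁, hL]
  have hinv1 : 1 ≤ 1 / η := by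
    rw [le_div_iff₀ hη]
    linarith only [hη1]
  have hR₁l : C₁ * L / η ≤ R₁ := Nat.le_ceil _
  have hR₁u : (R₁ : ℝ) ≤ 2 * (C₁ * L) * (1 / η) := by
    have h1 : (R₁ : ℝ) < C₁ * L / η + 1 := Nat.ceil_lt_add_one (by positivity)
    have h2 : 1 ≤ C₁ * L * (1 / η) := by nlinarith only [hCL, hinv1]
    have h3 : C₁ * L / η = C₁ * L * (1 / η) := by ring
    rw [h3] at h1
    linarith only [h1, h2]
  have hJl : 8 * d * L ≤ J := Nat.le_ceil _
  have hdL : 3 ≤ (d : ℝ) * L := by nlinarith only [hL, hd']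
  have hJu : (J : ℝ) ≤ 9 * d * L := by
    have h1 : (J : ℝ) < 8 * d * L + 1 := Nat.ceil_lt_add_one (by positivity)
    linarith only [hdL, h1]
  have hJ1 : 1 ≤ J := by
    have h1 : (0 : ℝ) < J := by linarith only [hJl, hdL]
    exact_mod_cast h1
  have hR₁1 : 1 ≤ R₁ := by
    have h1 : (0 : ℝ) < R₁ := by
      have : 0 < C₁ * L / η := by positivity
      linarith only [hR₁l, this]
    exact_mod_cast h1
  have hR1 : 1 ≤ J * R₁ := Nat.mul_pos hJ1 hR₁1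
  have hRu : (2 * ((J * R₁ : ℕ) : ℝ) + 7 : ℝ) ≤ Real.exp (4 * L) := by
    have h1 : ((J * R₁ : ℕ) : ℝ) ≤ (9 * d * L) * (2 * (C₁ * L) * (1 / η)) := by
      push_cast
      gcongr
    have h2 : 36 * d * C₁ * L ^ 2 + 7 ≤ Real.exp (2 * L) := by
      have h3 : L ^ 2 / 2 ≤ Real.exp L := by
        have := Real.pow_div_factorial_le_exp L (by linarith only [hL]) 2
        simpa [Nat.factorial] using this
      have h4 : Real.exp (2 * L) = Real.exp L * Real.exp L := by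
        rw [← Real.exp_add]
        congr 1
        ring
      have h5 : 1 ≤ L ^ 2 := one_le_pow₀ hL
      rw [h4]
      calc 36 * d * C₁ * L ^ 2 + 7 ≤ L ^ 2 / 2 * (72 * d * C₁ + 14) := by nlinarith only [h5]
        _ ≤ Real.exp L * Real.exp L := by gcongr
    calc (2 * ((J * R₁ : ℕ) : ℝ) + 7 : ℝ) ≤ 2 * ((9 * d * L) * (2 * (C₁ * L) * (1 / η))) +
          7 * (1 / η) := by linarith only [hinv1, h1]
      _ = (36 * d * C₁ * L ^ 2 + 7) * (1 / η) := by ring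
      _ ≤ Real.exp (2 * L) * Real.exp (2 * L) := by gcongr
      _ = Real.exp (4 * L) := by
        rw [← Real.exp_add]
        ring_nf
  refine ⟨R₁, J, J * R₁, rfl, hR₁1, hJ1, hR1, ?_, hJu, hRu, ?_⟩
  · rw [div_le_iff₀ hη] at hR₁l
    linarith only [hR₁l]
  · have h6 : ((2 * ((J * R₁ : ℕ) : ℝ) + 1) ^ d) < 2 ^ J := by
      calc (2 * ((J * R₁ : ℕ) : ℝ) + 1) ^ d ≤ (Real.exp (4 * L)) ^ d := by
            gcongr
            linarith only [hRu]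
        _ = Real.exp (d * (4 * L)) := by rw [← Real.exp_nat_mul]
        _ < Real.exp (J * Real.log 2) := by
            refine Real.exp_lt_exp.2 ?_
            have h7 := Real.log_two_gt_d9
            have h8 : (8 * d * L) * 0.69 ≤ J * Real.log 2 := by
              gcongr
              linarith only [h7]
            nlinarith only [hdL, h8]
        _ = 2 ^ J := by
            rw [Real.exp_nat_mul, Real.exp_log (by norm_num)]
    exact_mod_cast h6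

end Pool.Agent.LE.IR.H54
end
end -- Pool.Agent.Helper54_LIR.CPEd

section -- Pool.Agent.Helper54_LIR.CPEe

/-!
# CPE, part e: the constants
-/

set_option autoImplicit false

open MeasureTheory ProbabilityTheory Function Filter

open scoped ENNReal BigOperators Topology NNReal

noncomputable section

namespace Pool.Agent.LE.IR.H54

open Pool.Agent.Anderson hiding box mem_box card_box
open Pool.Agent.Loc Pool.Agent.Mob Pool.Agent.Helper54.Bal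
  Pool.Agent.Helper96.EXP Pool.Agent.BED
open Pool.Agent.LE.MN Pool.Agent.LE.CL

/-- the constants -/
structure Cst (d : ℕ) (CF CK CB CS AT cT CT c₁ cE c₂ CE A₀ Kε m K₀ ct Q K₃ a₀ C₁ c₃ K : ℝ) :
    Prop where
  hm : m = d * K₀ + A₀ + 2
  ha₀ : a₀ = 10 * d + A₀ + 3
  hC₁ : C₁ = CE * (a₀ + 6)
  hct : ct = cE ^ d / (3 * 4 ^ d)
  hQ : Q = m * CF * Kε * 1200 ^ 2 * 5 ^ d
  hctK : ct * K₃ = 1 + CB * Kε + CB ^ 2 * Q + 600 * CK * m ^ 2 * CS * (40 * d) ^ d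
  hct0 : 0 < ct
  hct1 : ct ≤ 1
  hQ0 : 0 < Q
  hm0 : 1 ≤ m
  hK₃1 : 1 ≤ K₃
  hC₁1 : 1 ≤ C₁
  hc₃0 : 0 < c₃
  hc₃1 : c₃ ≤ 1
  hc₃2 : c₃ ≤ c₂ * c₁ ^ (d + 1) / AT ^ 2
  ha₀0 : 0 ≤ a₀
  hK100 : 100 ≤ K
  k1 : m * CF * 1200 ^ 2 * 5 ^ d ≤ K
  k2 : Kε / cE ^ 2 ≤ K
  k3 : CB ^ 2 * Kε / ct ≤ K
  k4 : 3 * K₃ / cE ≤ K
  k5 : 2 * K₃ * (4 / cE) ^ d ≤ K
  k6 : 2 ^ (d + 1) * CE * K₃ ≤ K
  k7 : 2 * CT * K₃ / c₁ ≤ K
  k8 : 4 * K₃ / c₃ ≤ K
  k9 : 72 * d * C₁ + 14 ≤ K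
  k10 : CT ≤ K
  k11 : CE + CS + 576 ≤ K
  k12 : (2 : ℝ) ^ (d + 4) * 3 ^ d ≤ K
  k13 : 400 / cE ^ 2 ≤ K
  k14 : 100 / cT + 4000 * d ≤ K
  k15 : 7 * CE ≤ K
  k16 : 9 * (d : ℝ) ≤ K
  r1 : CB * Kε ≤ ct * K₃
  r2 : CB ^ 2 * Q ≤ ct * K₃
  r3 : 600 * CK * m ^ 2 * CS * (40 * d) ^ d ≤ ct * K₃

/-- every term of a sum of nonnegative reals is at most the sum -/
theorem cpe_sum_aux {x1 x2 x3 x4 x5 x6 x7 x8 x9 x10 x11 x12 x13 x14 x15 x16 : ℝ}
    (h1 : 0 ≤ x1) (h2 : 0 ≤ x2) (h3 : 0 ≤ x3) (h4 : 0 ≤ x4) (h5 : 0 ≤ x5) (h6 : 0 ≤ x6)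
    (h7 : 0 ≤ x7) (h8 : 0 ≤ x8) (h9 : 0 ≤ x9) (h10 : 0 ≤ x10) (h11 : 0 ≤ x11) (h12 : 0 ≤ x12)
    (h13 : 0 ≤ x13) (h14 : 0 ≤ x14) (h15 : 0 ≤ x15) (h16 : 0 ≤ x16) {S : ℝ}
    (hS : S = 100 + x1 + x2 + x3 + x4 + x5 + x6 + x7 + x8 + x9 + x10 + x11 + x12 + x13 + x14 + x15 + x16) :
    100 ≤ S ∧ x1 ≤ S ∧ x2 ≤ S ∧ x3 ≤ S ∧ x4 ≤ S ∧ x5 ≤ S ∧ x6 ≤ S ∧ x7 ≤ S ∧
    x8 ≤ S ∧ x9 ≤ S ∧ x10 ≤ S ∧ x11 ≤ S ∧ x12 ≤ S ∧ x13 ≤ S ∧ x14 ≤ S ∧ x15 ≤ S ∧ x16 ≤ S := by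
  subst hS
  have p0 : (0 : ℝ) ≤ 100 := by norm_num
  have p1 := add_nonneg p0 h1
  have p2 := add_nonneg p1 h2
  have p3 := add_nonneg p2 h3
  have p4 := add_nonneg p3 h4
  have p5 := add_nonneg p4 h5
  have p6 := add_nonneg p5 h6
  have p7 := add_nonneg p6 h7
  have p8 := add_nonneg p7 h8
  have p9 := add_nonneg p8 h9
  have p10 := add_nonneg p9 h10
  have p11 := add_nonneg p10 h11
  have p12 := add_nonneg p11 h12
  have p13 := add_nonneg p12 h13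
  have p14 := add_nonneg p13 h14
  have p15 := add_nonneg p14 h15
  have u15 := le_add_of_nonneg_right (a := 100 + x1 + x2 + x3 + x4 + x5 + x6 + x7 + x8 + x9 + x10 + x11 + x12 + x13 + x14 + x15) h16
  have u14 := (le_add_of_nonneg_right (a := 100 + x1 + x2 + x3 + x4 + x5 + x6 + x7 + x8 + x9 + x10 + x11 + x12 + x13 + x14) h15).trans u15
  have u13 := (le_add_of_nonneg_right (a := 100 + x1 + x2 + x3 + x4 + x5 + x6 + x7 + x8 + x9 + x10 + x11 + x12 + x13) h14).trans u14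
  have u12 := (le_add_of_nonneg_right (a := 100 + x1 + x2 + x3 + x4 + x5 + x6 + x7 + x8 + x9 + x10 + x11 + x12) h13).trans u13
  have u11 := (le_add_of_nonneg_right (a := 100 + x1 + x2 + x3 + x4 + x5 + x6 + x7 + x8 + x9 + x10 + x11) h12).trans u12
  have u10 := (le_add_of_nonneg_right (a := 100 + x1 + x2 + x3 + x4 + x5 + x6 + x7 + x8 + x9 + x10) h11).trans u11
  have u9 := (le_add_of_nonneg_right (a := 100 + x1 + x2 + x3 + x4 + x5 + x6 + x7 + x8 + x9) h10).trans u10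
  have u8 := (le_add_of_nonneg_right (a := 100 + x1 + x2 + x3 + x4 + x5 + x6 + x7 + x8) h9).trans u9
  have u7 := (le_add_of_nonneg_right (a := 100 + x1 + x2 + x3 + x4 + x5 + x6 + x7) h8).trans u8
  have u6 := (le_add_of_nonneg_right (a := 100 + x1 + x2 + x3 + x4 + x5 + x6) h7).trans u7
  have u5 := (le_add_of_nonneg_right (a := 100 + x1 + x2 + x3 + x4 + x5) h6).trans u6
  have u4 := (le_add_of_nonneg_right (a := 100 + x1 + x2 + x3 + x4) h5).trans u5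
  have u3 := (le_add_of_nonneg_right (a := 100 + x1 + x2 + x3) h4).trans u4
  have u2 := (le_add_of_nonneg_right (a := 100 + x1 + x2) h3).trans u3
  have u1 := (le_add_of_nonneg_right (a := 100 + x1) h2).trans u2
  have u0 := (le_add_of_nonneg_right (a := (100 : ℝ)) h1).trans u1
  exact ⟨u0, (le_add_of_nonneg_left p0).trans u1, (le_add_of_nonneg_left p1).trans u2, (le_add_of_nonneg_left p2).trans u3,
    (le_add_of_nonneg_left p3).trans u4, (le_add_of_nonneg_left p4).trans u5, (le_add_of_nonneg_left p5).trans u6, (le_add_of_nonneg_left p6).trans u7,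
    (le_add_of_nonneg_left p7).trans u8, (le_add_of_nonneg_left p8).trans u9, (le_add_of_nonneg_left p9).trans u10, (le_add_of_nonneg_left p10).trans u11,
    (le_add_of_nonneg_left p11).trans u12, (le_add_of_nonneg_left p12).trans u13, (le_add_of_nonneg_left p13).trans u14, (le_add_of_nonneg_left p14).trans u15,
    le_add_of_nonneg_left p15⟩

theorem exists_cst {d : ℕ} {CF CK CB CS AT cT CT c₁ cE c₂ CE A₀ Kε K₀ : ℝ} (hd' : (3 : ℝ) ≤ d)
    (hCF : 1 ≤ CF) (hCK : 1 ≤ CK) (hCB : 1 ≤ CB) (hCS : 1 ≤ CS) (hAT : 1 ≤ AT) (hcT : 0 < cT)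
    (hCT : 1 ≤ CT) (hc₁ : 0 < c₁) (hcE : 0 < cE) (hcE1 : cE ≤ 1) (hc₂ : 0 < c₂) (hCE : 1 ≤ CE)
    (hA₀ : 1 ≤ A₀) (hKε : 1 ≤ Kε) (hK₀ : 0 ≤ K₀) :
    ∃ m ct Q K₃ a₀ C₁ c₃ K : ℝ, Cst d CF CK CB CS AT cT CT c₁ cE c₂ CE A₀ Kε m K₀ ct Q K₃ a₀ C₁
      c₃ K := by
  set m : ℝ := d * K₀ + A₀ + 2 with hm
  have hm0 : 1 ≤ m := by
    have : 0 ≤ (d : ℝ) * K₀ := by positivity
    linarith only [hA₀, this]
  set ct : ℝ := cE ^ d / (3 * 4 ^ d) with hct
  have hct0 : 0 < ct := by positivity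
  have hct1 : ct ≤ 1 := by
    rw [hct, div_le_one (by positivity)]
    have h1 : cE ^ d ≤ 1 := pow_le_one₀ hcE.le hcE1
    have h2 : (1 : ℝ) ≤ 4 ^ d := one_le_pow₀ (by norm_num)
    linarith only [h1, h2]
  set Q : ℝ := m * CF * Kε * 1200 ^ 2 * 5 ^ d with hQ
  have hQ0 : 0 < Q := by positivity
  set K₃ : ℝ := (1 + CB * Kε + CB ^ 2 * Q + 600 * CK * m ^ 2 * CS * (40 * d) ^ d) / ct with hK₃
  have hctK : ct * K₃ = 1 + CB * Kε + CB ^ 2 * Q + 600 * CK * m ^ 2 * CS * (40 * d) ^ d := by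
    rw [hK₃]
    field_simp
  have q1 : 0 ≤ CB * Kε := by positivity
  have q2 : 0 ≤ CB ^ 2 * Q := by positivity
  have q3 : 0 ≤ 600 * CK * m ^ 2 * CS * (40 * (d : ℝ)) ^ d := by positivity
  have hK₃1 : 1 ≤ K₃ := by
    rw [hK₃, le_div_iff₀ hct0]
    linarith only [hct1, q1, q2, q3]
  have hK₃0 : 0 < K₃ := by linarith only [hK₃1]
  set a₀ : ℝ := 10 * d + A₀ + 3 with ha₀
  set C₁ : ℝ := CE * (a₀ + 6) with hC₁
  have hC₁1 : 1 ≤ C₁ := by
    rw [hC₁]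
    nlinarith only [hd', hCE, hA₀]
  set c₃ : ℝ := min (c₂ * c₁ ^ (d + 1) / AT ^ 2) 1 with hc₃
  have hc₃0 : 0 < c₃ := lt_min (by positivity) one_pos
  have hc₃1 : c₃ ≤ 1 := min_le_right _ _
  have hc₃2 : c₃ ≤ c₂ * c₁ ^ (d + 1) / AT ^ 2 := min_le_left _ _
  have r1 : 0 ≤ m * CF * 1200 ^ 2 * 5 ^ d := by positivity
  have r2 : 0 ≤ Kε / cE ^ 2 := by positivity
  have r3 : 0 ≤ CB ^ 2 * Kε / ct := by positivity
  have r4 : 0 ≤ 3 * K₃ / cE := by positivity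
  have r5 : 0 ≤ 2 * K₃ * (4 / cE) ^ d := by positivity
  have r6 : 0 ≤ 2 ^ (d + 1) * CE * K₃ := by positivity
  have r7 : 0 ≤ 2 * CT * K₃ / c₁ := by positivity
  have r8 : 0 ≤ 4 * K₃ / c₃ := by positivity
  have r9 : 0 ≤ 72 * d * C₁ + 14 := by positivity
  have r10 : 0 ≤ CT := by positivity
  have r11 : 0 ≤ CE + CS + 576 := by positivity
  have r12 : (0 : ℝ) ≤ (2 : ℝ) ^ (d + 4) * 3 ^ d := by positivity
  have r13 : 0 ≤ 400 / cE ^ 2 := by positivity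
  have r14 : 0 ≤ 100 / cT + 4000 * d := by positivity
  have r15 : 0 ≤ 7 * CE := by positivity
  have r16 : 0 ≤ 9 * (d : ℝ) := by positivity
  obtain ⟨s0, s1, s2, s3, s4, s5, s6, s7, s8, s9, s10, s11, s12, s13, s14, s15, s16⟩ :=
    cpe_sum_aux r1 r2 r3 r4 r5 r6 r7 r8 r9 r10 r11 r12 r13 r14 r15 r16 rfl
  exact ⟨m, ct, Q, K₃, a₀, C₁, c₃, _, hm, ha₀, hC₁, hct, hQ, hctK, hct0, hct1, hQ0, hm0, hK₃1, hC₁1,
    hc₃0, hc₃1, hc₃2, by positivity, s0, s1, s2, s3, s4, s5, s6, s7, s8, s9, s10, s11, s12, s13, s14,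
    s15, s16, by linarith only [q1, q2, q3, hctK], by linarith only [q1, q2, q3, hctK],
    by linarith only [q1, q2, q3, hctK]⟩

end Pool.Agent.LE.IR.H54
end
end -- Pool.Agent.Helper54_LIR.CPEe

section -- Pool.Agent.Helper54_LIR.CPEf

/-!
# CPE, part f: the numbers
-/

set_option autoImplicit false

open MeasureTheory ProbabilityTheory Function Filter

open scoped ENNReal BigOperators Topology NNReal

noncomputable section

namespace Pool.Agent.LE.IR.H54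

open Pool.Agent.Anderson hiding box mem_box card_box
open Pool.Agent.Loc Pool.Agent.Mob Pool.Agent.Helper54.Bal
  Pool.Agent.Helper96.EXP Pool.Agent.BED
open Pool.Agent.LE.MN Pool.Agent.LE.CL

/-- the basic numbers -/
structure NumB (d M' : ℕ) (K K₀ A₀ σ t μ ε₀ p lam L G P Kε cE cT : ℝ) : Prop where
  hL1 : 1 ≤ L
  hG1 : 1 ≤ G
  hP0 : 0 ≤ P
  hPG : P ≤ G
  hS1 : K * (σ ^ 2 * G) * L ^ (2 * d + 10) ≤ 1
  hstar : K * σ ^ 2 * G ^ 2 * L ^ (2 * d + 10) ≤ P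
  hKe : K ≤ Real.exp L
  hte : t ≤ Real.exp L
  hse : 1 / |σ| ≤ Real.exp L
  hexp : t / |σ| = Real.exp L
  hlogt : Real.log t ≤ L
  ht100 : 100 ≤ t
  hl0 : 0 < lam
  hl1 : 50 / t ≤ lam
  hμ0 : 0 < μ
  hμl : μ * lam ≤ 1200
  hμl2 : 500 ≤ lam * μ
  hμt : μ ≤ 12 * t
  hlcE : lam ≤ cE ^ 2 / 4
  hlcT : lam ≤ cT
  hl40 : 40 * d * lam ≤ 1
  hlam1 : lam ≤ 1
  hX0 : 0 < σ ^ 2 * G
  hM1 : Real.exp (K₀ * L) ≤ M'
  hM2 : (M' : ℝ) ≤ 2 * Real.exp (K₀ * L)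
  hMe : Real.exp (60 * L) ≤ M'
  hM0 : (1 : ℝ) ≤ M'
  hp : 0 ≤ p
  hpA : p ≤ Real.exp (-(A₀ * L))
  hε₀2 : ε₀ ^ 2 ≤ Kε * L * (σ ^ 2 * G)

theorem numB {d M' : ℕ} {CF CK CB CS AT cT CT c₁ cE c₂ CE A₀ Kε m K₀ ct Q K₃ a₀ C₁ c₃ K : ℝ}
    (hcst : Cst d CF CK CB CS AT cT CT c₁ cE c₂ CE A₀ Kε m K₀ ct Q K₃ a₀ C₁ c₃ K) (hd : 3 ≤ d)
    (hK₀ : 60 ≤ K₀) (hcE : 0 < cE) (hcT : 0 < cT)
    {σ t μ ε₀ p lam L : ℝ} (hσ : σ ≠ 0) (hσc : |σ| ≤ 1 / 4) (ht : K ≤ t)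
    (hL : L = Real.log (1 / |σ|) + Real.log t) (hμ1 : 10 * t ≤ μ) (hμ2 : μ ≤ 12 * t)
    (hl1 : 50 / t ≤ lam) (hl2 : lam ≤ 100 / t)
    (hε₀2 : ε₀ ^ 2 ≤ Kε * L * σ ^ 2 * growth d t)
    (hstar : K * σ ^ 2 * growth d t ^ 2 * L ^ (2 * d + 10) ≤ lam ^ (((d : ℝ) - 4) / 2))
    (hM1 : (t / |σ|) ^ K₀ ≤ M') (hM2 : M' ≤ 2 * (t / |σ|) ^ K₀) (hp : 0 ≤ p)
    (hpA : p ≤ (|σ| / t) ^ A₀) :
    NumB d M' K K₀ A₀ σ t μ ε₀ p lam L (growth d t) (lam ^ (((d : ℝ) - 4) / 2)) Kε cE cT := by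
  have hK100 := hcst.hK100
  have hd' : (3 : ℝ) ≤ d := by exact_mod_cast hd
  obtain ⟨hL1, hG1, hPG, hS1, hexp, hexp2, hKe, hte, hse, hlogt⟩ :=
    basic hd hK100 hσ hσc ht hL hl1 hl2 hstar
  have hσ0 : 0 < |σ| := abs_pos.2 hσ
  have hσ2 : 0 < σ ^ 2 := by positivity
  have hK0 : 0 ≤ K := by linarith only [hσc, hK100, hσ0]
  have ht100 : 100 ≤ t := hK100.trans ht
  have ht0 : 0 < t := by linarith only [hσc, ht, hK100, hσ0]
  have hl0 : 0 < lam := lt_of_lt_of_le (by positivity) hl1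
  have hG0 : 0 < growth d t := by linarith only [hσc, hG1, hσ0]
  have hL0 : 0 < L := by linarith only [hσc, hL1, hσ0]
  have hμ0 : 0 < μ := by linarith only [hσc, ht, hμ1, hK100, hσ0]
  have hμl : μ * lam ≤ 1200 := by
    calc μ * lam ≤ (12 * t) * (100 / t) := by gcongr
      _ = 1200 := by
        field_simp
        norm_num
  have hμl2 : 500 ≤ lam * μ := by
    calc (500 : ℝ) = (50 / t) * (10 * t) := by
          field_simp
          norm_num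
      _ ≤ lam * μ := by gcongr
  rw [hexp] at hM1 hM2
  rw [hexp2] at hpA
  rw [exp_rpow] at hM1 hM2 hpA
  have hpA' : p ≤ Real.exp (-(A₀ * L)) := hpA.trans (le_of_eq (by ring_nf))
  have hMe : Real.exp (60 * L) ≤ M' := by
    refine le_trans (Real.exp_le_exp.2 ?_) hM1
    gcongr
  have hM1' : (1 : ℝ) ≤ M' := (Real.one_le_exp (by positivity)).trans hMe
  have hl100 : lam ≤ 100 / K := hl2.trans (by gcongr)
  have hlcE : lam ≤ cE ^ 2 / 4 := by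
    have k13 := hcst.k13
    refine hl100.trans ?_
    rw [div_le_iff₀ (by linarith only [hσc, hK100, hσ0])]
    rw [div_le_iff₀ (by positivity)] at k13
    linarith only [k13]
  have k14 := hcst.k14
  have hlcT : lam ≤ cT := by
    refine hl100.trans ?_
    have h1 : 100 / cT ≤ K := by
      have : 0 ≤ 4000 * (d : ℝ) := by positivity
      linarith only [hσc, hd', hσ0, k14]
    rw [div_le_iff₀ (by linarith only [hσc, hK100, hσ0])]
    rw [div_le_iff₀ (by positivity)] at h1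
    linarith only [h1]
  have hl1' : 40 * d * lam ≤ 1 := by
    have h1 : 4000 * (d : ℝ) ≤ K := by
      have : 0 ≤ 100 / cT := by positivity
      linarith only [k14, this]
    calc 40 * d * lam ≤ 40 * d * (100 / K) := by gcongr
      _ = 4000 * d / K := by ring
      _ ≤ 1 := by
        rw [div_le_one (by linarith only [hσc, hd', hσ0, h1])]
        exact h1
  have hlam1 : lam ≤ 1 := by nlinarith only [hσc, hd', hσ0, hl1']
  exact ⟨hL1, hG1, by positivity, hPG, hS1, hstar, hKe, hte, hse, hexp, hlogt, ht100, hl0, hl1, hμ0,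
    hμl, hμl2, hμ2, hlcE, hlcT, hl1', hlam1, by positivity, hM1, hM2, hMe, hM1', hp, hpA',
    hε₀2.trans (le_of_eq (by ring))⟩

/-- the cut of the momenta -/
theorem exists_cut {M' : ℕ} {t lam L : ℝ} (ht : 100 ≤ t) (hl0 : 0 < lam) (hlam1 : lam ≤ 1)
    (hl1 : 50 / t ≤ lam) (hte : t ≤ Real.exp L) (hM : Real.exp (2 * L) ≤ M')
    (hM1 : (1 : ℝ) ≤ M') :
    2 ≤ Real.sqrt lam * M' ∧ ∃ J : ℕ, (J : ℝ) ≤ Real.sqrt lam * M' ∧
      lam * (M' : ℝ) ^ 2 ≤ 4 * (J : ℝ) ^ 2 ∧ (J : ℝ) ^ 2 ≤ lam * (M' : ℝ) ^ 2 ∧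
        (J : ℝ) ≤ M' := by
  have ht0 : 0 < t := by linarith only [ht]
  have hsl : Real.sqrt lam * Real.sqrt lam = lam := Real.mul_self_sqrt hl0.le
  have hsl0 : 0 < Real.sqrt lam := Real.sqrt_pos.2 hl0
  have hsM : 2 ≤ Real.sqrt lam * M' := by
    have h1 : 1 / t ≤ lam := by
      refine le_trans ?_ hl1
      gcongr
      norm_num
    have h3 : t * t ≤ (M' : ℝ) := by
      refine le_trans ?_ hM
      rw [two_mul, Real.exp_add]
      gcongr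
    refine le_of_sq_le_sq ?_ (by positivity)
    rw [mul_pow, sq (Real.sqrt lam), hsl]
    calc (2 : ℝ) ^ 2 ≤ (1 / t) * (t * t) * 1 := by
          field_simp
          linarith only [ht]
      _ ≤ lam * M' * M' := by gcongr
      _ = lam * (M' : ℝ) ^ 2 := by ring
  refine ⟨hsM, ?_⟩
  have h1 : (⌊Real.sqrt lam * M'⌋₊ : ℝ) ≤ Real.sqrt lam * M' := Nat.floor_le (by positivity)
  have h2 : Real.sqrt lam * M' < ⌊Real.sqrt lam * M'⌋₊ + 1 := Nat.lt_floor_add_one _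
  have h3 : lam * (M' : ℝ) ^ 2 = (Real.sqrt lam * M') ^ 2 := by
    rw [mul_pow, sq (Real.sqrt lam), hsl]
  refine ⟨⌊Real.sqrt lam * M'⌋₊, h1, ?_, ?_, ?_⟩
  · rw [h3]
    have h5 : Real.sqrt lam * M' ≤ 2 * (⌊Real.sqrt lam * M'⌋₊ : ℝ) := by linarith only [hsM, h2]
    calc (Real.sqrt lam * M') ^ 2 ≤ (2 * (⌊Real.sqrt lam * M'⌋₊ : ℝ)) ^ 2 :=
          pow_le_pow_left₀ (by positivity) h5 2
      _ = 4 * (⌊Real.sqrt lam * M'⌋₊ : ℝ) ^ 2 := by ring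
  · rw [h3]
    gcongr
  · refine h1.trans ?_
    have h4 : Real.sqrt lam ≤ 1 := Real.sqrt_le_one.2 hlam1
    nlinarith only [h4]

/-- the numbers of the torus -/
theorem v_small {d M' : ℕ} {σ t μ L G Kε ε : ℝ} (hσ : σ ≠ 0) (hd : 3 ≤ d) (hL : 1 ≤ L)
    (hG : 1 ≤ G) (hKε : 1 ≤ Kε) (hμ0 : 0 < μ) (hμ : μ ≤ 12 * t) (ht : 0 < t)
    (hte : t ≤ Real.exp L) (h576 : 576 ≤ Real.exp L) (hM : Real.exp (60 * L) ≤ M')
    (hM1 : (1 : ℝ) ≤ M') (hε : ε ^ 2 = Kε * L * (σ ^ 2 * G)) :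
    4 * σ ^ 2 * μ ^ 2 < ε ^ 2 * (M' : ℝ) ^ d := by
  have hσ2 : 0 < σ ^ 2 := by positivity
  rw [hε]
  have h1 : (M' : ℝ) ≤ (M' : ℝ) ^ d := le_self_pow₀ hM1 (by omega)
  have h2 : 576 * (t * t) < M' := by
    calc 576 * (t * t) ≤ Real.exp L * (Real.exp L * Real.exp L) := by gcongr
      _ = Real.exp (3 * L) := by
        rw [← Real.exp_add, ← Real.exp_add]
        congr 1
        ring
      _ < Real.exp (60 * L) := Real.exp_lt_exp.2 (by linarith only [hL])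
      _ ≤ M' := hM
  have h3 : 1 ≤ Kε * L * G := by
    have : 1 ≤ Kε * L := by nlinarith only [hL, hKε]
    nlinarith only [hG, this]
  calc 4 * σ ^ 2 * μ ^ 2 ≤ 4 * σ ^ 2 * (12 * t) ^ 2 := by gcongr
    _ = σ ^ 2 * (576 * (t * t)) := by ring
    _ < σ ^ 2 * M' := by gcongr
    _ ≤ σ ^ 2 * (M' : ℝ) ^ d := by gcongr
    _ = 1 * (σ ^ 2 * (M' : ℝ) ^ d) := by ring
    _ ≤ (Kε * L * G) * (σ ^ 2 * (M' : ℝ) ^ d) := by gcongr
    _ = Kε * L * (σ ^ 2 * G) * (M' : ℝ) ^ d := by ring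

/-- the energy -/
theorem l_bounds {lam μ w l : ℝ} (hl0 : 0 < lam) (hμ0 : 0 < μ) (hμl2 : 500 ≤ lam * μ)
    (hw : |w - 1| ≤ 1 / 10) (hl : l = lam - 1 / (μ * w)) :
    9 / 10 ≤ w ∧ w ≤ 11 / 10 ∧ l ≤ lam ∧ lam / 2 ≤ l := by
  have hw1 : 9 / 10 ≤ w := by
    have := (abs_le.1 hw).1
    linarith only [this]
  have hw2 : w ≤ 11 / 10 := by
    have := (abs_le.1 hw).2
    linarith only [this]
  have hw0 : 0 < w := by linarith only [hw1]
  have h0 : 0 ≤ 1 / (μ * w) := by positivity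
  have h1 : 1 / (μ * w) ≤ lam / 2 := by
    rw [div_le_div_iff₀ (by positivity) (by norm_num)]
    have h2 : lam * (μ * w) = (lam * μ) * w := by ring
    rw [h2]
    nlinarith only [hμl2, hw1, hw0]
  exact ⟨hw1, hw2, by linarith, by linarith only [hl, h1]⟩

/-- the numbers of the resolution -/
theorem eta_bounds {d : ℕ} {K₃ X lam L η cE K : ℝ} (hη : η = K₃ * X * lam * L ^ (d + 4))
    (hK₃ : 0 < K₃) (hX : 0 < X) (hl : 0 < lam) (hlam1 : lam ≤ 1) (hL : 1 ≤ L) (hcE : 0 < cE)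
    (hcE1 : cE ≤ 1) (hK : 3 * K₃ / cE ≤ K) (hK0 : 0 ≤ K) (h : K * X * L ^ (2 * d + 10) ≤ 1) :
    0 < η ∧ η ≤ cE ∧ η ≤ lam / 2 ∧ η ≤ 1 := by
  have h1 := absorb (j := d + 4) hK hX.le hL (by omega) hK0 h
  have hηl : η ≤ cE / 3 * lam := by
    calc η = (3 * K₃ / cE * X * L ^ (d + 4)) * (cE / 3 * lam) := by
          rw [hη]
          field_simp
      _ ≤ 1 * (cE / 3 * lam) := by gcongr
      _ = cE / 3 * lam := one_mul _
  have hη0 : 0 < η := by rw [hη]; positivity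
  refine ⟨hη0, by nlinarith only [hlam1, hcE, hηl], by nlinarith only [hl, hcE1, hηl, hη0], by nlinarith only [hl, hlam1, hcE1, hηl]⟩

theorem log_eta {η L : ℝ} (hη0 : 0 < η) (hη1 : η ≤ 1) (hinv : 1 / η ≤ Real.exp (2 * L)) :
    Real.log (1 / η) ≤ 2 * L ∧ 0 ≤ Real.log (1 / η) := by
  constructor
  · calc Real.log (1 / η) ≤ Real.log (Real.exp (2 * L)) := Real.log_le_log (by positivity) hinv
      _ = 2 * L := Real.log_exp _
  · exact Real.log_nonneg (by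
      rw [le_div_iff₀ hη0]
      linarith)

theorem ceil_bounds {m L : ℝ} (hm : 1 ≤ m) (hL : 1 ≤ L) :
    ∃ k : ℕ, 1 ≤ k ∧ m * L ≤ k ∧ (k : ℝ) ≤ 2 * (m * L) := by
  have h0 : 1 ≤ m * L := by nlinarith only [hm, hL]
  have h1 : m * L ≤ (⌈m * L⌉₊ : ℝ) := Nat.le_ceil _
  have h2 : (⌈m * L⌉₊ : ℝ) < m * L + 1 := Nat.ceil_lt_add_one (by positivity)
  refine ⟨⌈m * L⌉₊, ?_, h1, by linarith⟩
  have h3 : (1 : ℝ) ≤ (⌈m * L⌉₊ : ℝ) := h0.trans h1
  exact_mod_cast h3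

theorem log_ns {t lam L : ℝ} {n : ℕ} (ht : 100 ≤ t) (hl0 : 0 < lam) (hl1 : 50 / t ≤ lam)
    (hlogt : Real.log t ≤ L) (hn1 : 1 ≤ n) (hn : (n : ℝ) ≤ 1 / lam) :
    (n : ℝ) ≤ t ∧ 1 + Real.log (1 / lam) ≤ L ∧ Real.log n ≤ L := by
  have ht0 : 0 < t := by linarith only [ht]
  have hil : 1 / lam ≤ t := by
    rw [div_le_iff₀ hl0]
    rw [div_le_iff₀ ht0] at hl1
    linarith only [hl1]
  have hn0 : (0 : ℝ) < n := by exact_mod_cast hn1
  refine ⟨hn.trans hil, ?_, (Real.log_le_log hn0 (hn.trans hil)).trans hlogt⟩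
  have h1 : Real.log (1 / lam) ≤ Real.log (t / 3) := by
    refine Real.log_le_log (by positivity) ?_
    rw [div_le_div_iff₀ hl0 (by norm_num)]
    rw [div_le_iff₀ ht0] at hl1
    linarith only [hl1]
  rw [Real.log_div ht0.ne' (by norm_num)] at h1
  have h2 : 1 ≤ Real.log 3 := by
    rw [Real.le_log_iff_exp_le (by norm_num)]
    have := Real.exp_one_lt_d9
    linarith only [this]
  linarith only [hlogt, h1, h2]

/-- the probability of large values of the Green function -/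
theorem gr_prob {d R : ℕ} {σ A₀ L a₀ : ℝ} (hL : 1 ≤ L)
    (hse : 1 / |σ| ≤ Real.exp L) (h24 : 24 ≤ Real.exp L) (ha₀ : a₀ = 10 * d + A₀ + 3)
    (hRu : (2 * R + 7 : ℝ) ≤ Real.exp (4 * L)) :
    (2 * (R : ℝ) + 3) ^ (2 * d) * (6 * (1 / |σ|) / Real.exp (a₀ * L)) ≤
      Real.exp (-(A₀ * L)) / 4 := by
  have h1 : (2 * (R : ℝ) + 3) ^ (2 * d) ≤ Real.exp (8 * d * L) := by
    calc (2 * (R : ℝ) + 3) ^ (2 * d) ≤ (Real.exp (4 * L)) ^ (2 * d) := by
          gcongr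
          linarith only [hRu]
      _ = Real.exp (8 * d * L) := by
          rw [← Real.exp_nat_mul]
          congr 1
          push_cast
          ring
  calc (2 * (R : ℝ) + 3) ^ (2 * d) * (6 * (1 / |σ|) / Real.exp (a₀ * L)) ≤
        Real.exp (8 * d * L) * (Real.exp L / 4 * Real.exp L / Real.exp (a₀ * L)) := by
        gcongr
        linarith only [h24]
    _ = Real.exp (8 * d * L + L + L - a₀ * L) / 4 := by
        rw [Real.exp_sub, Real.exp_add, Real.exp_add]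
        ring
    _ ≤ Real.exp (-(A₀ * L)) / 4 := by
        have h3 : 8 * d * L + L + L - a₀ * L ≤ -(A₀ * L) := by
          rw [ha₀]
          have : 0 ≤ (d : ℝ) * L := by positivity
          nlinarith only [hL, this]
        have h4 := Real.exp_le_exp.2 h3
        linarith only [h4]

end Pool.Agent.LE.IR.H54
end
end -- Pool.Agent.Helper54_LIR.CPEf

section -- Pool.Agent.Helper54_LIR.CPEg

/-!
# CPE, part g: the events of the torus
-/

set_option autoImplicit false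

open MeasureTheory ProbabilityTheory Function Filter

open scoped ENNReal BigOperators Topology NNReal

noncomputable section

namespace Pool.Agent.LE.IR.H54

open Pool.Agent.Anderson hiding box mem_box card_box
open Pool.Agent.Loc Pool.Agent.Mob Pool.Agent.Helper54.Bal
  Pool.Agent.Helper96.EXP Pool.Agent.BED
open Pool.Agent.LE.MN Pool.Agent.LE.CL

/-- the probability part: flatness, the low frequency part, the Khintchine inequality -/
theorem ev_prob {d M' : ℕ} [NeZero M']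
    {CF CK CB CS AT cT CT c₁ cE c₂ CE A₀ Kε m K₀ ct Q K₃ a₀ C₁ c₃ K : ℝ}
    (hcst : Cst d CF CK CB CS AT cT CT c₁ cE c₂ CE A₀ Kε m K₀ ct Q K₃ a₀ C₁ c₃ K) (hd : 3 ≤ d)
    (hCF : 1 ≤ CF) (hCK : 1 ≤ CK) (hCS : 1 ≤ CS) (hCE : 1 ≤ CE) (hA₀ : 1 ≤ A₀) (hKε : 1 ≤ Kε)
    (hcE : 0 < cE) (hcE1 : cE ≤ 1 / 50)
    (hflo : ∀ (M J : ℕ) [NeZero M] (v : ℝ≥0) (z μ ε p r q : ℝ),
    0 < μ → 0 < ε → ε ≤ 1 / 50 → 0 < v → 0 ≤ p → 0 < r → r ≤ ε →
    gau d M v {V | ¬ FlatE ε z μ V} ≤ ENNReal.ofReal p →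
    q = p + 2 * (M : ℝ) ^ d *
      Real.exp (-(r ^ 2 / (CF * v * ε ^ 2 * μ ^ 2 * ((low d M J).card / (M : ℝ) ^ d)))) →
    q ≤ 1 / 4 → 4 * v * μ ^ 2 < ε ^ 2 * (M : ℝ) ^ d →
      ∃ w : ℝ, |w - 1| ≤ 3 * ε ∧
        gau d M v {V | ¬ ∀ x, |lpf J (fun y => om z μ V y - w - gv (1 / μ) V y) x| ≤ r} ≤
          ENNReal.ofReal q)
    (hkhl : ∀ (M J : ℕ) [NeZero M] (v : ℝ≥0) (w h lam l η τ r B : ℝ)
    (k : ℕ), 1 / 2 ≤ w → w ≤ 2 → 0 < h → h ≤ lam → lam ≤ 1200 * h →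
    (J : ℝ) ^ 2 ≤ lam * (M : ℝ) ^ 2 → 0 < η → 0 < τ → 0 ≤ r → 1 ≤ k →
    pm (fun p => if p ∈ low d M J then (mt l η p)⁻¹ else 0) ≤ B →
      gau d M v {V | ¬ KE J (gv h V) w (h - 2 * lam * w) l η τ} ≤
        ENNReal.ofReal (2 * (M : ℝ) ^ d * Real.exp (-(r ^ 2 / 2)) +
          (2 * (J : ℝ) + 1) ^ d * (CK * k * r ^ 2 * v * B / (η * τ ^ 2)) ^ k))
    (hsms : ∀ (M : ℕ) [NeZero M] (l η κ : ℝ), 0 < η → η ≤ l →
    4 * l ≤ κ → κ ≤ 1 → CS / η ≤ M →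
      (η * (κ / l) ^ d ≤ l →
        pm (fun p : Tor d M => if ds p ≤ κ then (mt l η p ^ 2)⁻¹ else 0) ≤
          CS * l ^ (((d : ℝ) - 2) / 2) / η) ∧
      pm (fun p : Tor d M => if ds p ≤ κ then (mt l η p)⁻¹ else 0) ≤
        CS * κ ^ (((d : ℝ) - 2) / 2) * (1 + Real.log (1 / η)))
    {v : ℝ≥0} {σ t z μ ε₀ p lam L G P η τ ε : ℝ} (hσ : σ ≠ 0) (hv : (v : ℝ) = σ ^ 2)
    (hn : NumB d M' K K₀ A₀ σ t μ ε₀ p lam L G P Kε cE cT)
    (hP : P = lam ^ (((d : ℝ) - 4) / 2)) {Js : ℕ} (hJs1 : (Js : ℝ) ≤ Real.sqrt lam * M')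
    (hJ2 : 2 ≤ Real.sqrt lam * M')
    (hJs3 : (Js : ℝ) ^ 2 ≤ lam * (M' : ℝ) ^ 2) (hJsM : (Js : ℝ) ≤ M')
    (hflat : gau d M' v {V | ¬ FlatE ε z μ V} ≤ ENNReal.ofReal p)
    (hε : 0 < ε) (hεcE : ε ≤ cE) (hε2 : ε ^ 2 = Kε * L * (σ ^ 2 * G))
    (hη : η = K₃ * (σ ^ 2 * G) * lam * L ^ (d + 4)) (hη0 : 0 < η) (hηl : η ≤ lam / 2)
    (hη1 : η ≤ 1) (hinv : 1 / η ≤ Real.exp (2 * L)) (hτ : 0 < τ) (hτ2 : τ ^ 2 = ct / L ^ d) :
    ∃ w r : ℝ, |w - 1| ≤ 3 * ε ∧ 0 ≤ r ∧ r ^ 2 ≤ Q * (σ ^ 2 * G * L) ^ 2 ∧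
      ∀ l : ℝ, l = lam - 1 / (μ * w) →
        gau d M' v {V | ¬ (FlatE ε z μ V ∧
          (∀ x, |lpf (2 * Js) (fun y => om z μ V y - w - gv (1 / μ) V y) x| ≤ r) ∧
          KE Js (gv (1 / μ) V) w (1 / μ - 2 * lam * w) l η (τ / 4))} ≤
            ENNReal.ofReal (p + (p + Real.exp (-(A₀ * L)) / 4) + Real.exp (-(A₀ * L)) / 4) := by
  have hσ2 : 0 < σ ^ 2 := by positivity
  have hL1 := hn.hL1
  have hL0 : 0 < L := by linarith only [hL1]
  have hG0 : 0 < G := by linarith only [hn.hG1]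
  have hK100 := hcst.hK100
  have hK0 : 0 ≤ K := by linarith only [hK100]
  have hm1 := hcst.hm0
  have hm0 : 0 < m := by linarith only [hm1]
  have hl0 := hn.hl0
  have hμ0 := hn.hμ0
  have hKe := hn.hKe
  have hd1 : 1 ≤ d := by omega
  have hd' : (3 : ℝ) ≤ d := by exact_mod_cast hd
  have k11 := hcst.k11
  have heL : 576 ≤ Real.exp L := by linarith only [k11, hKe, hCE, hCS]
  have heL2 : Real.exp L ≤ Real.exp (2 * L) := Real.exp_le_exp.2 (by linarith only [hL1])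
  have hD := dens_low (d := d) (M := M') (J := Js) hl0 hJs1 (by linarith only [hJ2])
  rw [← hP] at hD
  set D : ℝ := ((low d M' (2 * Js)).card : ℝ) / (M' : ℝ) ^ d with hDdef
  have hv0 : 0 < v := by
    have : (0 : ℝ) < v := by rw [hv]; exact hσ2
    exact_mod_cast this
  have hA5 : 5 ≤ Real.exp (A₀ * L) := by
    have h1 : L ≤ A₀ * L := by nlinarith only [hA₀, hL0]
    have h2 := Real.exp_le_exp.2 h1
    linarith only [h2, heL]
  have h2d : (2 : ℝ) ^ (d + 4) * 3 ^ d ≤ Real.exp (2 * L) := by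
    linarith only [hcst.k12, hKe, heL2]
  have h2d3 : (2 : ℝ) ^ (d + 3) ≤ Real.exp (2 * L) := by
    refine le_trans ?_ h2d
    have h1 : (1 : ℝ) ≤ 3 ^ d := one_le_pow₀ (by norm_num)
    have h2 : (2 : ℝ) ^ (d + 3) ≤ 2 ^ (d + 4) := pow_le_pow_right₀ (by norm_num) (by omega)
    have h3 : (0 : ℝ) ≤ 2 ^ (d + 4) := by positivity
    nlinarith only [h1, h2, h3]
  have hrc : m * L * (CF * v * μ ^ 2 * ((low d M' (2 * Js)).card / (M' : ℝ) ^ d)) ≤ 1 := by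
    rw [hv]
    have h1 := c_r1 (d := d) (m := m) (L := L) (CF := CF) (σ := σ) (G := G) (μ := μ) (D := D)
      (P := P) (lam := lam) hm0.le hL0.le (by linarith only [hCF]) hG0.le hn.hPG hD hμ0.le hl0.le
      hn.hμl
    have h2 := absorb (j := 1) hcst.k1 hn.hX0.le hL1 (by omega) hK0 hn.hS1
    rw [pow_one] at h2
    exact h1.trans h2
  have ht0 : 0 < t := by linarith only [hn.ht100]
  have hv2 : 4 * v * μ ^ 2 < ε ^ 2 * (M' : ℝ) ^ d := by
    rw [hv]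
    exact v_small hσ hd hL1 hn.hG1 hKε hμ0 hn.hμt ht0 hn.hte heL hn.hMe hn.hM0 hε2
  obtain ⟨w, r, hw, hr0, hr2, hwP⟩ := flo_app hCF hflo M' (2 * Js) v z μ ε p L m K₀ A₀ hμ0 hε
    (hεcE.trans hcE1) hv0 hn.hp hL0 hcst.hm hn.hM2 h2d3 hA5 hm0 hn.hpA hflat hrc hv2
  have hr2' : r ^ 2 ≤ Q * (σ ^ 2 * G * L) ^ 2 := by
    rw [hr2, hv, hcst.hQ]
    exact c_r hm0.le hL0.le (by linarith only [hCF]) (by linarith only [hKε]) hG0.le hn.hPG hD
      hε2 hμ0.le hl0.le hn.hμl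
  refine ⟨w, r, hw, hr0, hr2', fun l hl => ?_⟩
  have hw10 : |w - 1| ≤ 1 / 10 := by linarith only [hw, hεcE, hcE1]
  obtain ⟨hw1, hw2, hl_le, hl_ge⟩ := l_bounds hl0 hμ0 hn.hμl2 hw10 hl
  obtain ⟨hlogη, hlogη0⟩ := log_eta hη0 hη1 hinv
  obtain ⟨kk, hkk0, hkk1, hkk2⟩ := ceil_bounds hm1 hL1
  set B : ℝ := CS * (40 * d * lam) ^ (((d : ℝ) - 2) / 2) * (1 + Real.log (1 / η)) with hB
  have hB0 : 0 ≤ B := by positivity
  have hPlam : 0 ≤ P := hn.hP0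
  have hBle : B ≤ CS * (40 * d) ^ d * (G * lam) * (3 * L) := by
    rw [hB, Real.mul_rpow (by positivity) hl0.le, pw_mul hl0, ← hP]
    have h1 : (40 * (d : ℝ)) ^ (((d : ℝ) - 2) / 2) ≤ (40 * (d : ℝ)) ^ d := by
      rw [← Real.rpow_natCast]
      exact Real.rpow_le_rpow_of_exponent_le (by linarith only [hd']) (by linarith only [hd'])
    have h2 : 1 + Real.log (1 / η) ≤ 3 * L := by linarith only [hlogη, hL1]
    have h3 := hn.hPG
    calc CS * ((40 * (d : ℝ)) ^ (((d : ℝ) - 2) / 2) * (P * lam)) * (1 + Real.log (1 / η)) ≤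
          CS * ((40 * (d : ℝ)) ^ d * (G * lam)) * (3 * L) := by gcongr
      _ = CS * (40 * d) ^ d * (G * lam) * (3 * L) := by ring
  have hCSM : CS / η ≤ M' := by
    calc CS / η = CS * (1 / η) := by ring
      _ ≤ Real.exp L * Real.exp (2 * L) := by
          gcongr
          linarith only [k11, hKe, hCE]
      _ = Real.exp (3 * L) := by
          rw [← Real.exp_add]
          congr 1
          ring
      _ ≤ Real.exp (60 * L) := Real.exp_le_exp.2 (by linarith only [hL0])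
      _ ≤ M' := hn.hMe
  have hpm : pm (fun q : Tor d M' => if q ∈ low d M' Js then (mt l η q)⁻¹ else 0) ≤ B := by
    refine pm_low_le hη0 hJs3 ?_
    refine (hsms M' l η (40 * d * lam) hη0 (by linarith only [hηl, hl_ge]) ?_ hn.hl40 hCSM).2
    nlinarith only [hl_le, hd', hl0]
  have hsq : Real.sqrt (2 * (m * L)) ^ 2 = 2 * (m * L) := Real.sq_sqrt (by positivity)
  have hkhl' : gau d M' v {V | ¬ KE Js (gv (1 / μ) V) w (1 / μ - 2 * lam * w) l η (τ / 4)} ≤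
      ENNReal.ofReal (Real.exp (-(A₀ * L)) / 4) := by
    have hμl := hn.hμl
    have hμl2 := hn.hμl2
    have h1 := hkhl M' Js v w (1 / μ) lam l η (τ / 4) (Real.sqrt (2 * (m * L))) B kk
      (by linarith only [hw1]) (by linarith only [hw2]) (by positivity)
      (by rw [div_le_iff₀ hμ0]; linarith only [hμl2])
      (by rw [mul_one_div, le_div_iff₀ hμ0]; linarith only [hμl]) hJs3 hη0 (by positivity)
      (Real.sqrt_nonneg _) hkk0 hpm
    refine h1.trans (ENNReal.ofReal_le_ofReal ?_)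
    refine khl_num hcst.hm hn.hM2 h2d hsq hkk1 ?_ ?_ hJsM hn.hM0
    · positivity
    · have h2 := c_k (d := d) (k := kk) (K₃ := K₃) (σ := σ) (G := G) (lam := lam) (L := L)
        (η := η) (ct := ct) (CK := CK) (CS := CS) (m := m) (B := B)
        (r2 := Real.sqrt (2 * (m * L)) ^ 2) (τ2 := (τ / 4) ^ 2) hη hσ hG0 hl0 hL1 hcst.hct0
        (by linarith only [hCK]) (by linarith only [hCS]) hm0.le hkk2 hsq hcst.hK₃1 hBle hB0 (by
          rw [div_pow, hτ2]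
          norm_num) hcst.r3
      rw [hv]
      refine h2.trans ?_
      rw [Real.exp_neg]
      rw [one_div]
      refine inv_anti₀ (Real.exp_pos _) ?_
      have := Real.exp_one_lt_d9
      linarith only [this]
  have hA0 : 0 < Real.exp (-(A₀ * L)) := Real.exp_pos _
  have hp := hn.hp
  exact gau3 (v := v) (fun V : Tor d M' → ℝ => FlatE ε z μ V)
    (fun V => ∀ x, |lpf (2 * Js) (fun y => om z μ V y - w - gv (1 / μ) V y) x| ≤ r)
    (fun V => KE Js (gv (1 / μ) V) w (1 / μ - 2 * lam * w) l η (τ / 4)) hp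
    (by positivity) (by positivity) hflat hwP hkhl'

end Pool.Agent.LE.IR.H54
end
end -- Pool.Agent.Helper54_LIR.CPEg

section -- Pool.Agent.Helper54_LIR.CPE

/-!
# CPE: the probability of the clusters between the effective band edge and the bulk
-/

set_option autoImplicit false

open MeasureTheory ProbabilityTheory Function Filter

open scoped ENNReal BigOperators Topology NNReal

noncomputable section

namespace Pool.Agent.LE.IR.H54

open Pool.Agent.Anderson hiding box mem_box card_box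
open Pool.Agent.Loc Pool.Agent.Mob Pool.Agent.Helper54.Bal
  Pool.Agent.Helper96.EXP Pool.Agent.BED
open Pool.Agent.LE.MN Pool.Agent.LE.CL

/-- CPE -/
theorem cpe (flo : FloStmt) (khl : KhlStmt) (ffb : FfbStmt) (sms : SmsStmt) (tse : TseStmt)
    (cle : CleStmt) : CpeStmt := by
  intro d hd
  have hd1 : 1 ≤ d := by omega
  have hd' : (3 : ℝ) ≤ d := by exact_mod_cast hd
  obtain ⟨CF, hCF, hflo⟩ := flo d hd1
  obtain ⟨CK, hCK, hkhl⟩ := khl d hd1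
  obtain ⟨CB, hCB, hffb⟩ := ffb d hd1
  obtain ⟨CS, hCS, hsms⟩ := sms d hd
  obtain ⟨AT, cT, CT, k, hAT, hcT, hCT, htse⟩ := tse d hd
  obtain ⟨c₁, cE, c₂, CE, hc₁, hc₁1, hcE, hcE1, hc₂, hCE, hcle⟩ := cle d AT hd hAT
  have hk0 : (0 : ℝ) ≤ k := Nat.cast_nonneg k
  have hK₀60 : 60 + 8 * (k : ℝ) ≤ 8 * k + 20 * d := by linarith only [hd']
  obtain ⟨K₀, hK₀⟩ : ∃ K₀ : ℝ, K₀ = 8 * k + 20 * d := ⟨_, rfl⟩
  rw [← hK₀] at hK₀60
  refine ⟨K₀, by linarith only [hcE, hcE1, hK₀60], fun A₀ Kε hA₀ hKε => ?_⟩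
  have hcE1' : cE ≤ 1 := by linarith only [hcE, hcE1]
  obtain ⟨m, ct, Q, K₃, a₀, C₁, c₃, K, hcst⟩ := exists_cst (A₀ := A₀) (Kε := Kε) (K₀ := K₀) hd'
    hCF hCK hCB hCS hAT hcT hCT hc₁ hcE hcE1' hc₂ hCE hA₀ hKε (by linarith only [hcE, hcE1, hK₀60])
  refine ⟨1 / 4, K, by norm_num, le_rfl, by linarith only [hcst.hK100, hcE, hcE1], ?_⟩
  intro M' v σ t z μ ε₀ p lam L hσ hσc hv ht hL hz hμ1 hμ2 hl1 hl2 hε₀ hε₀2 hstar hM1 hM2 hflat
    hp hpA
  have hn := numB hcst hd (by linarith only [hK₀60]) hcE hcT hσ hσc ht hL hμ1 hμ2 hl1 hl2 hε₀2 hstar hM1 hM2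
    hp hpA
  obtain ⟨G, hG⟩ : ∃ G : ℝ, G = growth d t := ⟨_, rfl⟩
  obtain ⟨P, hP⟩ : ∃ P : ℝ, P = lam ^ (((d : ℝ) - 4) / 2) := ⟨_, rfl⟩
  rw [← hG, ← hP] at hn
  clear hstar hM1 hM2 hpA hε₀2 hL hμ1 hμ2 hl1 hl2 ht
  have hL1 := hn.hL1
  have hL0 : 0 < L := by linarith only [hL1]
  have hG1 := hn.hG1
  have hG0 : 0 < G := by linarith only [hG1]
  have hX0 := hn.hX0
  have hK100 := hcst.hK100
  have hK0 : 0 ≤ K := by linarith only [hK100]
  have hl0 := hn.hl0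
  have hlam1 := hn.hlam1
  have hμ0 := hn.hμ0
  have hμl2 := hn.hμl2
  have hKe := hn.hKe
  have hM0 := hn.hM0
  have ht0 : 0 < t := by linarith only [hn.ht100]
  have hσ2 : 0 < σ ^ 2 := by positivity
  have hne : NeZero M' := ⟨by
    rintro rfl
    norm_num at hM0⟩
  have k11 := hcst.k11
  have heL : 576 ≤ Real.exp L := by linarith only [k11, hKe, hCE, hCS]
  have hex : ∀ {a : ℝ}, a ≤ 60 → Real.exp (a * L) ≤ M' := fun ha =>
    le_trans (Real.exp_le_exp.2 (by gcongr)) hn.hMe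
  have he3 : Real.exp (3 * L) = Real.exp L * Real.exp (2 * L) := by
    rw [← Real.exp_add]
    congr 1
    ring
  have hct0 := hcst.hct0
  have hK₃1 := hcst.hK₃1
  have hK₃0 : 0 < K₃ := by linarith only [hK₃1]
  -- the flatness
  obtain ⟨ε, hε⟩ : ∃ ε : ℝ, ε = Real.sqrt (Kε * L * (σ ^ 2 * G)) := ⟨_, rfl⟩
  have hε2 : ε ^ 2 = Kε * L * (σ ^ 2 * G) := by
    rw [hε]
    exact Real.sq_sqrt (by positivity)
  have hε0 : 0 < ε := by
    rw [hε]
    exact Real.sqrt_pos.2 (by positivity)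
  have hεε : ε₀ ≤ ε := by
    refine le_of_sq_le_sq ?_ hε0.le
    rw [hε2]
    exact hn.hε₀2
  have hεcE : ε ≤ cE := by
    refine le_of_sq_le_sq ?_ hcE.le
    rw [hε2]
    have h1 := absorb (j := 1) hcst.k2 hX0.le hL1 (by omega) hK0 hn.hS1
    calc Kε * L * (σ ^ 2 * G) = (Kε / cE ^ 2 * (σ ^ 2 * G) * L ^ 1) * cE ^ 2 := by
          field_simp
      _ ≤ 1 * cE ^ 2 := by gcongr
      _ = cE ^ 2 := one_mul _
  have hflat' : gau d M' v {V | ¬ FlatE ε z μ V} ≤ ENNReal.ofReal p := by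
    refine le_trans (measure_mono ?_) (hflat hne)
    intro V hV hV2
    refine hV ⟨hV2.1, hV2.2.1, fun x => (hV2.2.2 x).trans ?_⟩
    gcongr
  -- the cut of the momenta
  obtain ⟨hsM, Js, hJs1, hJs2, hJs3, hJsM⟩ := exists_cut hn.ht100 hl0 hlam1 hn.hl1 hn.hte
    (hex (by norm_num)) hM0
  -- the resolution
  obtain ⟨η, hη⟩ : ∃ η : ℝ, η = K₃ * (σ ^ 2 * G) * lam * L ^ (d + 4) := ⟨_, rfl⟩
  have hinv := inv_eta (η := η) hη hσ (by linarith only [hn.ht100]) hn.hexp hn.hl1 hL1 hG1 hK₃1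
  obtain ⟨hη0, hηcE, hηl2, hη1⟩ := eta_bounds hη hK₃0 hX0 hl0 hlam1 hL1 hcE hcE1' hcst.k4 hK0
    hn.hS1
  obtain ⟨hlogη, hlogη0⟩ := log_eta hη0 hη1 hinv
  have hlogη3 : 1 + Real.log (1 / η) ≤ 3 * L := by linarith only [hlogη, hL1]
  obtain ⟨τ, hτ⟩ : ∃ τ : ℝ, τ = Real.sqrt (ct / L ^ d) := ⟨_, rfl⟩
  have hτ2 : τ ^ 2 = ct / L ^ d := by
    rw [hτ]
    exact Real.sq_sqrt (by positivity)
  have hτ0 : 0 < τ := by
    rw [hτ]
    exact Real.sqrt_pos.2 (by positivity)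
  have hτ1 : τ ≤ 1 := by
    rw [hτ]
    refine Real.sqrt_le_one.2 ?_
    rw [div_le_one (by positivity)]
    exact hcst.hct1.trans (one_le_pow₀ hL1)
  have hCBε : CB * ε ≤ τ := by
    refine le_of_sq_le_sq ?_ hτ0.le
    rw [mul_pow, hε2, hτ2, le_div_iff₀ (by positivity)]
    have h1 := absorb (j := d + 1) hcst.k3 hX0.le hL1 (by omega) hK0 hn.hS1
    calc CB ^ 2 * (Kε * L * (σ ^ 2 * G)) * L ^ d =
          (CB ^ 2 * Kε / ct * (σ ^ 2 * G) * L ^ (d + 1)) * ct := by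
          field_simp
          ring
      _ ≤ 1 * ct := by gcongr
      _ = ct := one_mul _
  obtain ⟨w, r, hw, hr0, hr2, hev⟩ := ev_prob hcst hd hCF hCK hCS hCE hA₀ hKε hcE hcE1 hflo hkhl
    hsms hσ hv hn hP hJs1 hsM hJs3 hJsM hflat' hε0 hεcE hε2 hη hη0 hηl2 hη1 hinv hτ0 hτ2
  have hw10 : |w - 1| ≤ 1 / 10 := by linarith only [hw, hεcE, hcE1]
  obtain ⟨l, hl⟩ : ∃ l : ℝ, l = lam - 1 / (μ * w) := ⟨_, rfl⟩
  obtain ⟨hw1, hw2, hl_le, hl_ge⟩ := l_bounds hl0 hμ0 hn.hμl2 hw10 hl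
  have hlpos : 0 < l := by linarith only [hl0, hl_ge]
  specialize hev l hl
  -- the scales
  obtain ⟨R₁, J, R, hR, hR₁1, hJ1, hR1, hR₁l, hJu, hRu, h2J⟩ :=
    scales hd hcst.hC₁1 hL1 hη0 hη1 hinv (hcst.k9.trans hKe)
  have hR0 : (0 : ℝ) ≤ R := Nat.cast_nonneg _
  have hR1' : (1 : ℝ) ≤ R := by exact_mod_cast hR1
  have hlogR : Real.log R ≤ 4 * L := by
    calc Real.log R ≤ Real.log (Real.exp (4 * L)) :=
          Real.log_le_log (by linarith only [hR1']) (by linarith only [hR1', hRu])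
      _ = 4 * L := Real.log_exp _
  have hlogR0 : 0 ≤ Real.log R := Real.log_nonneg hR1'
  -- the number of the steps
  obtain ⟨ns, hns1, hns2, hns3, hns4⟩ := exists_ns hcE hcE1' hl0 hn.hlcE
  have hns0 : (0 : ℝ) < ns := by exact_mod_cast hns1
  obtain ⟨hnst, hlogil, hlogns⟩ := log_ns hn.ht100 hl0 hn.hl1 hn.hlogt hns1 hns2
  have hns4' : 1 / (ns : ℝ) ≤ 2 / cE * lam * L := by
    refine hns4.trans ?_
    gcongr
  -- the number of the sites
  obtain ⟨n, hn1, hn2, hn3, hn4⟩ := c_n (d := d) (K₃ := K₃) (K := K) (X := σ ^ 2 * G)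
    (lam := lam) (L := L) (η := η) (c₃ := c₃) (l := l) (e := Real.exp (2 * L)) hη hd1 hK₃1 hX0
    hcst.hc₃0 hcst.hc₃1 hl0 hlam1 hl_ge hl_le hL1 hcst.k8
    (absorb (j := d + 4) hcst.k8 hX0.le hL1 (by omega) hK0 hn.hS1) hinv
    (Real.one_le_exp (by linarith only [hL0]))
  have ha₀0 := hcst.ha₀0
  have hc₃0 := hcst.hc₃0
  rw [hn.hexp]
  refine ⟨n, R + 2, J, 7 * CE * L, by nlinarith only [hCE, hL1], ?_, by omega, ?_, hJ1, ?_, hn1,
    ?_, ?_, ?_⟩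
  · have := hcst.k15
    gcongr
  · rw [exp_rpow]
    push_cast
    calc (R : ℝ) + 2 ≤ 2 * R + 7 := by linarith only [hR0]
      _ ≤ Real.exp (4 * L) := hRu
      _ ≤ Real.exp (K₀ * L) := by
        refine Real.exp_le_exp.2 ?_
        gcongr
        linarith only [hK₀60, hk0]
  · refine hJu.trans ?_
    have := hcst.k16
    gcongr
  · refine hn3.trans (le_of_eq ?_)
    rw [← Real.exp_nat_mul, ← Real.exp_nat_mul]
    congr 1
    push_cast
    ring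
  · rw [← hG]
    refine le_trans (le_of_eq ?_) hn4
    congr 1
    ring
  · intro N b hbox
    have hA0 : 0 < Real.exp (-(A₀ * L)) := Real.exp_pos _
    have hb := badE hσ hv (z - lam) (a₀ * L) _ N R b _ (by positivity) hev
    refine (measure_mono ?_).trans (hb.trans (ENNReal.ofReal_le_ofReal ?_))
    · intro V hV
      rw [Set.mem_ofPred_eq] at hV ⊢
      rintro ⟨g1, g2, g3, g4, g5⟩
      apply hV
      have hform : FBd (om z μ fun x : Tor d M' => V (b + rep x)) (1 / μ) lam w l η τ := by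
        refine hffb M' Js _ (gv (1 / μ) fun x : Tor d M' => V (b + rep x)) w ε r (1 / μ) lam l η
          τ hε0 hCBε hτ1 hw ?_ (by positivity) ?_ hlam1 ?_ hJs2 hJs3 hη0 ?_ hr0 g4 g5 ?_ ?_
        · intro x
          have h1 := g3.2.2 x
          unfold om
          rw [div_sub_one hμ0.ne', abs_div, abs_of_pos hμ0, div_le_iff₀ hμ0]
          exact h1
        · rw [mul_one_div, div_le_iff₀ hμ0]
          linarith only [hμl2]
        · rw [hl, div_div]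
        · linarith only [hηl2, hl0]
        · rw [hε2, hτ2]
          exact c_f1 hη hX0.le hl0 hL1 hct0 hcst.r1 hK₃0.le
        · exact c_f2 hη hG0.le hl0 hL1 hct0 (by linarith only [hCB]) hr0 hτ0.le hτ2 hr2 hK₃1
            hcst.r2 hcst.hQ0.le
      have hc₁T : c₁ / η ≤ Real.exp (2 * L) := by
        refine le_trans ?_ hinv
        gcongr
      have hq1 : CT ≤ c₁ / η * l := by
        -- `CT ≤ T l`
        have h1 := absorb (j := d + 4) hcst.k7 hX0.le hL1 (by omega) hK0 hn.hS1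
        have h2 : CT * η ≤ c₁ * l := by
          calc CT * η = (2 * CT * K₃ / c₁ * (σ ^ 2 * G) * L ^ (d + 4)) * (c₁ * (lam / 2)) := by
                rw [hη]
                field_simp
            _ ≤ 1 * (c₁ * (lam / 2)) := by gcongr
            _ ≤ c₁ * l := by
                rw [one_mul]
                gcongr
        calc CT = CT * η / η := by field_simp
          _ ≤ c₁ * l / η := by gcongr
          _ = c₁ / η * l := by ring
      have hq2 : CT * (c₁ / η * (((2 * R : ℕ) : ℝ) + 1)) ^ k ≤ M' := by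
        have h1 : c₁ / η * (((2 * R : ℕ) : ℝ) + 1) ≤ Real.exp (6 * L) := by
          calc c₁ / η * (((2 * R : ℕ) : ℝ) + 1) ≤ Real.exp (2 * L) * Real.exp (4 * L) := by
                gcongr
                push_cast
                linarith only [hRu]
            _ = Real.exp (6 * L) := by
                rw [← Real.exp_add]
                ring_nf
        have h0 : 0 ≤ c₁ / η * (((2 * R : ℕ) : ℝ) + 1) := by positivity
        have h2 := hcst.k10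
        calc CT * (c₁ / η * (((2 * R : ℕ) : ℝ) + 1)) ^ k ≤ Real.exp L * (Real.exp (6 * L)) ^ k := by
              gcongr
              linarith only [h2, hKe]
          _ = Real.exp (L + k * (6 * L)) := by rw [← Real.exp_nat_mul, ← Real.exp_add]
          _ ≤ Real.exp (K₀ * L) := by
              refine Real.exp_le_exp.2 ?_
              have h3 : L + k * (6 * L) = (1 + 6 * k) * L := by ring
              rw [h3]
              refine mul_le_mul_of_nonneg_right ?_ hL0.le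
              linarith only [hK₀60, hk0]
          _ ≤ M' := hn.hM1
      obtain ⟨T', q, hT1, hT2, htst⟩ := htse M' (2 * R) l (c₁ / η) hlpos
        (hl_le.trans hn.hlcT) hq1 hq2
      · have hTpos : 0 < T' := lt_of_lt_of_le (by positivity) hT1
        have hcl := hcle M' ns N R R₁ J V b z μ ε lam w l η τ (7 * CE * L) (a₀ * L) T'
          (AT / (Real.sqrt T' ^ (d + 1) * Real.sqrt l)) q hz hμ0 (by linarith only [hμl2]) hε0
          hεcE hw10 hl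
          g3 hform hns1 ?_ hns3 hη0 hηcE ?_ ?_ ?_ hτ0.le ?_ ?_ hT1 hT2 ?_ htst ?_ hbox
          (by rw [hR]) h2J (by positivity) ?_ ?_ g1 g2
        · have h1 := c_size (d := d) (l := l) (η := η) (c₁ := c₁) (c₂ := c₂) (A := AT)
            (T := T') hlpos hη0 hc₁ hc₂ (by linarith only [hAT]) hT1 rfl
          have h2 : (n : ℝ) ≤ (rch V (box 0 N) (z - lam) (7 * CE * L) b R J).card := by
            refine hn2.trans (le_trans ?_ (h1.trans hcl))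
            have := hcst.hc₃2
            gcongr
          have h3 : n ≤ (rch V (box 0 N) (z - lam) (7 * CE * L) b R J).card := by
            exact_mod_cast h2
          exact h3.trans (Finset.card_le_card (rch_mono_rad (by omega) J))
        · have h1 : (ns : ℝ) + 1 ≤ (M' : ℝ) ^ 2 := by
            have h2 : Real.exp (2 * L) ≤ M' := hex (by norm_num)
            have h3 : (M' : ℝ) ≤ (M' : ℝ) ^ 2 := le_self_pow₀ hM0 (by norm_num)
            have h4 : Real.exp L + 1 ≤ Real.exp (2 * L) := by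
              rw [two_mul, Real.exp_add]
              nlinarith only [heL]
            linarith only [h2, h3, h4, hnst, hn.hte]
          exact_mod_cast h1
        · have h1 := absorb (j := d + 5) hcst.k4 hX0.le hL1 (by omega) hK0 hn.hS1
          calc η * (1 + Real.log (1 / η)) * ns ≤ η * (3 * L) * (1 / lam) := by gcongr
            _ = (3 * K₃ / cE * (σ ^ 2 * G) * L ^ (d + 5)) * cE := by
              rw [hη]
              field_simp
              ring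
            _ ≤ 1 * cE := by gcongr
            _ = cE := one_mul _
        · exact c_i hη hK₃0.le hX0.le hcE hl0 hl_ge hL0.le hns4'
            (absorb hcst.k5 hX0.le hL1 (by omega) hK0 hn.hS1)
        · refine c_j hη hd hK₃0.le hG0.le (by linarith only [hCE]) hl0 hl_ge hL1
            (by rw [hG]; exact growth_mono hns0 hnst) (by linarith only [hlogns, hL1]) ?_
          rw [← hP]
          refine le_trans ?_ hn.hstar
          have h1 : L ^ (d + 5) ≤ L ^ (2 * d + 10) := pow_le_pow_right₀ hL1 (by omega)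
          have h2 := hcst.k6
          gcongr
        · exact c_t hd hcE hcE1' hl0 hl_ge hL1 hns1 hns4' hlogη3 (by linarith only [hlogη0]) hτ2
            hcst.hct
        · calc CE / η = CE * (1 / η) := by ring
            _ ≤ Real.exp L * Real.exp (2 * L) := by
                gcongr
                linarith only [k11, hKe, hCS]
            _ = Real.exp (3 * L) := he3.symm
            _ ≤ M' := hex (by norm_num)
        · positivity
        · have h1 : (2 * R + 7 : ℝ) ≤ M' := hRu.trans (hex (by norm_num))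
          have h2 : ((2 * R + 5 : ℕ) : ℝ) ≤ (M' : ℝ) := by
            push_cast
            linarith only [h1]
          exact_mod_cast h2
        · refine le_trans ?_ hR₁l
          rw [hcst.hC₁]
          calc CE * (a₀ * L + Real.log (1 / η) + Real.log R) ≤
                CE * (a₀ * L + 2 * L + 4 * L) := by gcongr
            _ = CE * (a₀ + 6) * L := by ring
        · calc CE * (1 + Real.log (1 / η) + Real.log R) ≤ CE * (L + 2 * L + 4 * L) := by gcongr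
            _ = 7 * CE * L := by ring
    · have h2 := gr_prob (d := d) (R := R) (σ := σ) (A₀ := A₀) (L := L) (a₀ := a₀) hL1 hn.hse
        (by linarith only [heL]) hcst.ha₀ hRu
      have e1 : (|σ| / t) ^ A₀ = Real.exp (-(A₀ * L)) := by
        have e2 : |σ| / t = Real.exp (-L) := by
          rw [Real.exp_neg, ← hn.hexp, inv_div]
        rw [e2, exp_rpow]
        congr 1
        ring
      rw [e1]
      have hpA := hn.hpA
      linarith only [h2, hpA, hA0]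

end Pool.Agent.LE.IR.H54
end
end -- Pool.Agent.Helper54_LIR.CPE

section -- Pool.Agent.Helper93_LIF.CPFa

/-!
# CPF, part a: numbers and events

These are copies of `basic`, `NumB`, `numB`, `ev_prob` of `Helper54_LIR` (helper54) with the weaker
hypothesis `K σ² G L^(2 d + 10) ≤ 1`.
-/

set_option autoImplicit false

open MeasureTheory ProbabilityTheory Function Filter

open scoped ENNReal BigOperators Topology NNReal

noncomputable section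

namespace Pool.Agent.LE.IR.H93F

open Pool.Agent.Anderson hiding box mem_box card_box
open Pool.Agent.Loc Pool.Agent.Mob Pool.Agent.Helper54.Bal
  Pool.Agent.Helper96.EXP Pool.Agent.BED
open Pool.Agent.LE.MN Pool.Agent.LE.CL Pool.Agent.LE.IR.H54

theorem basicF {d : ℕ} {K t lam L σ : ℝ} (hd : 3 ≤ d) (hK : 100 ≤ K) (hσ : σ ≠ 0)
    (hσc : |σ| ≤ 1 / 4) (ht : K ≤ t) (hL : L = Real.log (1 / |σ|) + Real.log t)
    (h1 : 50 / t ≤ lam) (h2 : lam ≤ 100 / t)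
    (hs : K * σ ^ 2 * growth d t * L ^ (2 * d + 10) ≤ 1) :
    1 ≤ L ∧ 1 ≤ growth d t ∧ lam ^ (((d : ℝ) - 4) / 2) ≤ growth d t ∧
      K * (σ ^ 2 * growth d t) * L ^ (2 * d + 10) ≤ 1 ∧ t / |σ| = Real.exp L ∧
      |σ| / t = Real.exp (-L) ∧ K ≤ Real.exp L ∧ t ≤ Real.exp L ∧ 1 / |σ| ≤ Real.exp L ∧
      Real.log t ≤ L := by
  have hσ0 : 0 < |σ| := abs_pos.2 hσ
  have ht100 : 100 ≤ t := hK.trans ht
  have ht0 : 0 < t := by linarith only [hK, hσc, ht, hσ0]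
  have hG1 : 1 ≤ growth d t := one_le_growth d (by linarith only [hK, hσc, ht, hσ0])
  have hP := pw_le hd ht100 h1 h2
  have hs1 : 1 ≤ 1 / |σ| := by
    rw [le_div_iff₀ hσ0]
    linarith only [hσc, hσ0]
  have hls : 0 ≤ Real.log (1 / |σ|) := Real.log_nonneg hs1
  have hlt : 1 ≤ Real.log t := by
    rw [Real.le_log_iff_exp_le ht0]
    have := Real.exp_one_lt_d9
    linarith only [hK, hσc, ht, hσ0, this]
  have hexp : Real.exp L = t / |σ| := by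
    rw [hL, Real.exp_add, Real.exp_log (by positivity), Real.exp_log ht0]
    ring
  have hts : t ≤ t / |σ| := by
    rw [le_div_iff₀ hσ0]
    nlinarith only [hK, hσc, ht, hσ0]
  refine ⟨by linarith only [hL, hls, hlt], hG1, hP, ?_, hexp.symm, ?_, ?_, ?_, ?_, by linarith only [hL, hls]⟩
  · calc K * (σ ^ 2 * growth d t) * L ^ (2 * d + 10) =
          K * σ ^ 2 * growth d t * L ^ (2 * d + 10) := by ring
      _ ≤ 1 := hs
  · rw [Real.exp_neg, hexp, inv_div]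
  · rw [hexp]
    linarith only [ht, hts]
  · rw [hexp]
    exact hts
  · rw [hexp]
    gcongr
    linarith only [hK, hσc, ht, hσ0]

/-- the basic numbers -/
structure NumF (d M' : ℕ) (K K₀ A₀ σ t μ ε₀ p lam L G P Kε cE cT : ℝ) : Prop where
  hL1 : 1 ≤ L
  hG1 : 1 ≤ G
  hP0 : 0 ≤ P
  hPG : P ≤ G
  hS1 : K * (σ ^ 2 * G) * L ^ (2 * d + 10) ≤ 1
  hKe : K ≤ Real.exp L
  hte : t ≤ Real.exp L
  hse : 1 / |σ| ≤ Real.exp L
  hexp : t / |σ| = Real.exp L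
  hlogt : Real.log t ≤ L
  ht100 : 100 ≤ t
  hl0 : 0 < lam
  hl1 : 50 / t ≤ lam
  hμ0 : 0 < μ
  hμl : μ * lam ≤ 1200
  hμl2 : 500 ≤ lam * μ
  hμt : μ ≤ 12 * t
  hlcE : lam ≤ cE ^ 2 / 4
  hlcT : lam ≤ cT
  hl40 : 40 * d * lam ≤ 1
  hlam1 : lam ≤ 1
  hX0 : 0 < σ ^ 2 * G
  hM1 : Real.exp (K₀ * L) ≤ M'
  hM2 : (M' : ℝ) ≤ 2 * Real.exp (K₀ * L)
  hMe : Real.exp (60 * L) ≤ M'
  hM0 : (1 : ℝ) ≤ M'
  hp : 0 ≤ p
  hpA : p ≤ Real.exp (-(A₀ * L))
  hε₀2 : ε₀ ^ 2 ≤ Kε * L * (σ ^ 2 * G)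

theorem numF {d M' : ℕ} {CF CK CB CS AT cT CT c₁ cE c₂ CE A₀ Kε m K₀ ct Q K₃ a₀ C₁ c₃ K : ℝ}
    (hcst : Cst d CF CK CB CS AT cT CT c₁ cE c₂ CE A₀ Kε m K₀ ct Q K₃ a₀ C₁ c₃ K) (hd : 3 ≤ d)
    (hK₀ : 60 ≤ K₀) (hcE : 0 < cE) (hcT : 0 < cT)
    {σ t μ ε₀ p lam L : ℝ} (hσ : σ ≠ 0) (hσc : |σ| ≤ 1 / 4) (ht : K ≤ t)
    (hL : L = Real.log (1 / |σ|) + Real.log t) (hμ1 : 10 * t ≤ μ) (hμ2 : μ ≤ 12 * t)
    (hl1 : 50 / t ≤ lam) (hl2 : lam ≤ 100 / t)
    (hε₀2 : ε₀ ^ 2 ≤ Kε * L * σ ^ 2 * growth d t)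
    (hstar : K * σ ^ 2 * growth d t * L ^ (2 * d + 10) ≤ 1)
    (hM1 : (t / |σ|) ^ K₀ ≤ M') (hM2 : M' ≤ 2 * (t / |σ|) ^ K₀) (hp : 0 ≤ p)
    (hpA : p ≤ (|σ| / t) ^ A₀) :
    NumF d M' K K₀ A₀ σ t μ ε₀ p lam L (growth d t) (lam ^ (((d : ℝ) - 4) / 2)) Kε cE cT := by
  have hK100 := hcst.hK100
  have hd' : (3 : ℝ) ≤ d := by exact_mod_cast hd
  obtain ⟨hL1, hG1, hPG, hS1, hexp, hexp2, hKe, hte, hse, hlogt⟩ :=
    basicF hd hK100 hσ hσc ht hL hl1 hl2 hstar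
  have hσ0 : 0 < |σ| := abs_pos.2 hσ
  have hσ2 : 0 < σ ^ 2 := by positivity
  have hK0 : 0 ≤ K := by linarith only [hσc, hK100, hσ0]
  have ht100 : 100 ≤ t := hK100.trans ht
  have ht0 : 0 < t := by linarith only [hσc, ht, hK100, hσ0]
  have hl0 : 0 < lam := lt_of_lt_of_le (by positivity) hl1
  have hG0 : 0 < growth d t := by linarith only [hσc, hG1, hσ0]
  have hL0 : 0 < L := by linarith only [hσc, hL1, hσ0]
  have hμ0 : 0 < μ := by linarith only [hσc, ht, hμ1, hK100, hσ0]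
  have hμl : μ * lam ≤ 1200 := by
    calc μ * lam ≤ (12 * t) * (100 / t) := by gcongr
      _ = 1200 := by
        field_simp
        norm_num
  have hμl2 : 500 ≤ lam * μ := by
    calc (500 : ℝ) = (50 / t) * (10 * t) := by
          field_simp
          norm_num
      _ ≤ lam * μ := by gcongr
  rw [hexp] at hM1 hM2
  rw [hexp2] at hpA
  rw [exp_rpow] at hM1 hM2 hpA
  have hpA' : p ≤ Real.exp (-(A₀ * L)) := hpA.trans (le_of_eq (by ring_nf))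
  have hMe : Real.exp (60 * L) ≤ M' := by
    refine le_trans (Real.exp_le_exp.2 ?_) hM1
    gcongr
  have hM1' : (1 : ℝ) ≤ M' := (Real.one_le_exp (by positivity)).trans hMe
  have hl100 : lam ≤ 100 / K := hl2.trans (by gcongr)
  have hlcE : lam ≤ cE ^ 2 / 4 := by
    have k13 := hcst.k13
    refine hl100.trans ?_
    rw [div_le_iff₀ (by linarith only [hσc, hK100, hσ0])]
    rw [div_le_iff₀ (by positivity)] at k13
    linarith only [k13]
  have k14 := hcst.k14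
  have hlcT : lam ≤ cT := by
    refine hl100.trans ?_
    have h1 : 100 / cT ≤ K := by
      have : 0 ≤ 4000 * (d : ℝ) := by positivity
      linarith only [hσc, hd', hσ0, k14]
    rw [div_le_iff₀ (by linarith only [hσc, hK100, hσ0])]
    rw [div_le_iff₀ (by positivity)] at h1
    linarith only [h1]
  have hl1' : 40 * d * lam ≤ 1 := by
    have h1 : 4000 * (d : ℝ) ≤ K := by
      have : 0 ≤ 100 / cT := by positivity
      linarith only [k14, this]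
    calc 40 * d * lam ≤ 40 * d * (100 / K) := by gcongr
      _ = 4000 * d / K := by ring
      _ ≤ 1 := by
        rw [div_le_one (by linarith only [hσc, hd', hσ0, h1])]
        exact h1
  have hlam1 : lam ≤ 1 := by nlinarith only [hσc, hd', hσ0, hl1']
  exact ⟨hL1, hG1, by positivity, hPG, hS1, hKe, hte, hse, hexp, hlogt, ht100, hl0, hl1, hμ0,
    hμl, hμl2, hμ2, hlcE, hlcT, hl1', hlam1, by positivity, hM1, hM2, hMe, hM1', hp, hpA',
    hε₀2.trans (le_of_eq (by ring))⟩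

/-- the probability part: flatness, the low frequency part, the Khintchine inequality -/
theorem ev_probF {d M' : ℕ} [NeZero M']
    {CF CK CB CS AT cT CT c₁ cE c₂ CE A₀ Kε m K₀ ct Q K₃ a₀ C₁ c₃ K : ℝ}
    (hcst : Cst d CF CK CB CS AT cT CT c₁ cE c₂ CE A₀ Kε m K₀ ct Q K₃ a₀ C₁ c₃ K) (hd : 3 ≤ d)
    (hCF : 1 ≤ CF) (hCK : 1 ≤ CK) (hCS : 1 ≤ CS) (hCE : 1 ≤ CE) (hA₀ : 1 ≤ A₀) (hKε : 1 ≤ Kε)
    (hcE : 0 < cE) (hcE1 : cE ≤ 1 / 50)
    (hflo : ∀ (M J : ℕ) [NeZero M] (v : ℝ≥0) (z μ ε p r q : ℝ),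
    0 < μ → 0 < ε → ε ≤ 1 / 50 → 0 < v → 0 ≤ p → 0 < r → r ≤ ε →
    gau d M v {V | ¬ FlatE ε z μ V} ≤ ENNReal.ofReal p →
    q = p + 2 * (M : ℝ) ^ d *
      Real.exp (-(r ^ 2 / (CF * v * ε ^ 2 * μ ^ 2 * ((low d M J).card / (M : ℝ) ^ d)))) →
    q ≤ 1 / 4 → 4 * v * μ ^ 2 < ε ^ 2 * (M : ℝ) ^ d →
      ∃ w : ℝ, |w - 1| ≤ 3 * ε ∧
        gau d M v {V | ¬ ∀ x, |lpf J (fun y => om z μ V y - w - gv (1 / μ) V y) x| ≤ r} ≤
          ENNReal.ofReal q)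
    (hkhl : ∀ (M J : ℕ) [NeZero M] (v : ℝ≥0) (w h lam l η τ r B : ℝ)
    (k : ℕ), 1 / 2 ≤ w → w ≤ 2 → 0 < h → h ≤ lam → lam ≤ 1200 * h →
    (J : ℝ) ^ 2 ≤ lam * (M : ℝ) ^ 2 → 0 < η → 0 < τ → 0 ≤ r → 1 ≤ k →
    pm (fun p => if p ∈ low d M J then (mt l η p)⁻¹ else 0) ≤ B →
      gau d M v {V | ¬ KE J (gv h V) w (h - 2 * lam * w) l η τ} ≤
        ENNReal.ofReal (2 * (M : ℝ) ^ d * Real.exp (-(r ^ 2 / 2)) +
          (2 * (J : ℝ) + 1) ^ d * (CK * k * r ^ 2 * v * B / (η * τ ^ 2)) ^ k))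
    (hsms : ∀ (M : ℕ) [NeZero M] (l η κ : ℝ), 0 < η → η ≤ l →
    4 * l ≤ κ → κ ≤ 1 → CS / η ≤ M →
      (η * (κ / l) ^ d ≤ l →
        pm (fun p : Tor d M => if ds p ≤ κ then (mt l η p ^ 2)⁻¹ else 0) ≤
          CS * l ^ (((d : ℝ) - 2) / 2) / η) ∧
      pm (fun p : Tor d M => if ds p ≤ κ then (mt l η p)⁻¹ else 0) ≤
        CS * κ ^ (((d : ℝ) - 2) / 2) * (1 + Real.log (1 / η)))
    {v : ℝ≥0} {σ t z μ ε₀ p lam L G P η τ ε : ℝ} (hσ : σ ≠ 0) (hv : (v : ℝ) = σ ^ 2)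
    (hn : NumF d M' K K₀ A₀ σ t μ ε₀ p lam L G P Kε cE cT)
    (hP : P = lam ^ (((d : ℝ) - 4) / 2)) {Js : ℕ} (hJs1 : (Js : ℝ) ≤ Real.sqrt lam * M')
    (hJ2 : 2 ≤ Real.sqrt lam * M')
    (hJs3 : (Js : ℝ) ^ 2 ≤ lam * (M' : ℝ) ^ 2) (hJsM : (Js : ℝ) ≤ M')
    (hflat : gau d M' v {V | ¬ FlatE ε z μ V} ≤ ENNReal.ofReal p)
    (hε : 0 < ε) (hεcE : ε ≤ cE) (hε2 : ε ^ 2 = Kε * L * (σ ^ 2 * G))
    (hη : η = K₃ * (σ ^ 2 * G) * lam * L ^ (d + 4)) (hη0 : 0 < η) (hηl : η ≤ lam / 2)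
    (hη1 : η ≤ 1) (hinv : 1 / η ≤ Real.exp (2 * L)) (hτ : 0 < τ) (hτ2 : τ ^ 2 = ct / L ^ d) :
    ∃ w r : ℝ, |w - 1| ≤ 3 * ε ∧ 0 ≤ r ∧ r ^ 2 ≤ Q * (σ ^ 2 * G * L) ^ 2 ∧
      ∀ l : ℝ, l = lam - 1 / (μ * w) →
        gau d M' v {V | ¬ (FlatE ε z μ V ∧
          (∀ x, |lpf (2 * Js) (fun y => om z μ V y - w - gv (1 / μ) V y) x| ≤ r) ∧
          KE Js (gv (1 / μ) V) w (1 / μ - 2 * lam * w) l η (τ / 4))} ≤
            ENNReal.ofReal (p + (p + Real.exp (-(A₀ * L)) / 4) + Real.exp (-(A₀ * L)) / 4) := by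
  have hσ2 : 0 < σ ^ 2 := by positivity
  have hL1 := hn.hL1
  have hL0 : 0 < L := by linarith only [hL1]
  have hG0 : 0 < G := by linarith only [hn.hG1]
  have hK100 := hcst.hK100
  have hK0 : 0 ≤ K := by linarith only [hK100]
  have hm1 := hcst.hm0
  have hm0 : 0 < m := by linarith only [hm1]
  have hl0 := hn.hl0
  have hμ0 := hn.hμ0
  have hKe := hn.hKe
  have hd1 : 1 ≤ d := by omega
  have hd' : (3 : ℝ) ≤ d := by exact_mod_cast hd
  have k11 := hcst.k11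
  have heL : 576 ≤ Real.exp L := by linarith only [k11, hKe, hCE, hCS]
  have heL2 : Real.exp L ≤ Real.exp (2 * L) := Real.exp_le_exp.2 (by linarith only [hL1])
  have hD := dens_low (d := d) (M := M') (J := Js) hl0 hJs1 (by linarith only [hJ2])
  rw [← hP] at hD
  set D : ℝ := ((low d M' (2 * Js)).card : ℝ) / (M' : ℝ) ^ d with hDdef
  have hv0 : 0 < v := by
    have : (0 : ℝ) < v := by rw [hv]; exact hσ2
    exact_mod_cast this
  have hA5 : 5 ≤ Real.exp (A₀ * L) := by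
    have h1 : L ≤ A₀ * L := by nlinarith only [hA₀, hL0]
    have h2 := Real.exp_le_exp.2 h1
    linarith only [h2, heL]
  have h2d : (2 : ℝ) ^ (d + 4) * 3 ^ d ≤ Real.exp (2 * L) := by
    linarith only [hcst.k12, hKe, heL2]
  have h2d3 : (2 : ℝ) ^ (d + 3) ≤ Real.exp (2 * L) := by
    refine le_trans ?_ h2d
    have h1 : (1 : ℝ) ≤ 3 ^ d := one_le_pow₀ (by norm_num)
    have h2 : (2 : ℝ) ^ (d + 3) ≤ 2 ^ (d + 4) := pow_le_pow_right₀ (by norm_num) (by omega)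
    have h3 : (0 : ℝ) ≤ 2 ^ (d + 4) := by positivity
    nlinarith only [h1, h2, h3]
  have hrc : m * L * (CF * v * μ ^ 2 * ((low d M' (2 * Js)).card / (M' : ℝ) ^ d)) ≤ 1 := by
    rw [hv]
    have h1 := c_r1 (d := d) (m := m) (L := L) (CF := CF) (σ := σ) (G := G) (μ := μ) (D := D)
      (P := P) (lam := lam) hm0.le hL0.le (by linarith only [hCF]) hG0.le hn.hPG hD hμ0.le hl0.le
      hn.hμl
    have h2 := absorb (j := 1) hcst.k1 hn.hX0.le hL1 (by omega) hK0 hn.hS1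
    rw [pow_one] at h2
    exact h1.trans h2
  have ht0 : 0 < t := by linarith only [hn.ht100]
  have hv2 : 4 * v * μ ^ 2 < ε ^ 2 * (M' : ℝ) ^ d := by
    rw [hv]
    exact v_small hσ hd hL1 hn.hG1 hKε hμ0 hn.hμt ht0 hn.hte heL hn.hMe hn.hM0 hε2
  obtain ⟨w, r, hw, hr0, hr2, hwP⟩ := flo_app hCF hflo M' (2 * Js) v z μ ε p L m K₀ A₀ hμ0 hε
    (hεcE.trans hcE1) hv0 hn.hp hL0 hcst.hm hn.hM2 h2d3 hA5 hm0 hn.hpA hflat hrc hv2
  have hr2' : r ^ 2 ≤ Q * (σ ^ 2 * G * L) ^ 2 := by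
    rw [hr2, hv, hcst.hQ]
    exact c_r hm0.le hL0.le (by linarith only [hCF]) (by linarith only [hKε]) hG0.le hn.hPG hD
      hε2 hμ0.le hl0.le hn.hμl
  refine ⟨w, r, hw, hr0, hr2', fun l hl => ?_⟩
  have hw10 : |w - 1| ≤ 1 / 10 := by linarith only [hw, hεcE, hcE1]
  obtain ⟨hw1, hw2, hl_le, hl_ge⟩ := l_bounds hl0 hμ0 hn.hμl2 hw10 hl
  obtain ⟨hlogη, hlogη0⟩ := log_eta hη0 hη1 hinv
  obtain ⟨kk, hkk0, hkk1, hkk2⟩ := ceil_bounds hm1 hL1
  set B : ℝ := CS * (40 * d * lam) ^ (((d : ℝ) - 2) / 2) * (1 + Real.log (1 / η)) with hB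
  have hB0 : 0 ≤ B := by positivity
  have hPlam : 0 ≤ P := hn.hP0
  have hBle : B ≤ CS * (40 * d) ^ d * (G * lam) * (3 * L) := by
    rw [hB, Real.mul_rpow (by positivity) hl0.le, pw_mul hl0, ← hP]
    have h1 : (40 * (d : ℝ)) ^ (((d : ℝ) - 2) / 2) ≤ (40 * (d : ℝ)) ^ d := by
      rw [← Real.rpow_natCast]
      exact Real.rpow_le_rpow_of_exponent_le (by linarith only [hd']) (by linarith only [hd'])
    have h2 : 1 + Real.log (1 / η) ≤ 3 * L := by linarith only [hlogη, hL1]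
    have h3 := hn.hPG
    calc CS * ((40 * (d : ℝ)) ^ (((d : ℝ) - 2) / 2) * (P * lam)) * (1 + Real.log (1 / η)) ≤
          CS * ((40 * (d : ℝ)) ^ d * (G * lam)) * (3 * L) := by gcongr
      _ = CS * (40 * d) ^ d * (G * lam) * (3 * L) := by ring
  have hCSM : CS / η ≤ M' := by
    calc CS / η = CS * (1 / η) := by ring
      _ ≤ Real.exp L * Real.exp (2 * L) := by
          gcongr
          linarith only [k11, hKe, hCE]
      _ = Real.exp (3 * L) := by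
          rw [← Real.exp_add]
          congr 1
          ring
      _ ≤ Real.exp (60 * L) := Real.exp_le_exp.2 (by linarith only [hL0])
      _ ≤ M' := hn.hMe
  have hpm : pm (fun q : Tor d M' => if q ∈ low d M' Js then (mt l η q)⁻¹ else 0) ≤ B := by
    refine pm_low_le hη0 hJs3 ?_
    refine (hsms M' l η (40 * d * lam) hη0 (by linarith only [hηl, hl_ge]) ?_ hn.hl40 hCSM).2
    nlinarith only [hl_le, hd', hl0]
  have hsq : Real.sqrt (2 * (m * L)) ^ 2 = 2 * (m * L) := Real.sq_sqrt (by positivity)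
  have hkhl' : gau d M' v {V | ¬ KE Js (gv (1 / μ) V) w (1 / μ - 2 * lam * w) l η (τ / 4)} ≤
      ENNReal.ofReal (Real.exp (-(A₀ * L)) / 4) := by
    have hμl := hn.hμl
    have hμl2 := hn.hμl2
    have h1 := hkhl M' Js v w (1 / μ) lam l η (τ / 4) (Real.sqrt (2 * (m * L))) B kk
      (by linarith only [hw1]) (by linarith only [hw2]) (by positivity)
      (by rw [div_le_iff₀ hμ0]; linarith only [hμl2])
      (by rw [mul_one_div, le_div_iff₀ hμ0]; linarith only [hμl]) hJs3 hη0 (by positivity)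
      (Real.sqrt_nonneg _) hkk0 hpm
    refine h1.trans (ENNReal.ofReal_le_ofReal ?_)
    refine khl_num hcst.hm hn.hM2 h2d hsq hkk1 ?_ ?_ hJsM hn.hM0
    · positivity
    · have h2 := c_k (d := d) (k := kk) (K₃ := K₃) (σ := σ) (G := G) (lam := lam) (L := L)
        (η := η) (ct := ct) (CK := CK) (CS := CS) (m := m) (B := B)
        (r2 := Real.sqrt (2 * (m * L)) ^ 2) (τ2 := (τ / 4) ^ 2) hη hσ hG0 hl0 hL1 hcst.hct0
        (by linarith only [hCK]) (by linarith only [hCS]) hm0.le hkk2 hsq hcst.hK₃1 hBle hB0 (by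
          rw [div_pow, hτ2]
          norm_num) hcst.r3
      rw [hv]
      refine h2.trans ?_
      rw [Real.exp_neg]
      rw [one_div]
      refine inv_anti₀ (Real.exp_pos _) ?_
      have := Real.exp_one_lt_d9
      linarith only [this]
  have hA0 : 0 < Real.exp (-(A₀ * L)) := Real.exp_pos _
  have hp := hn.hp
  exact gau3 (v := v) (fun V : Tor d M' → ℝ => FlatE ε z μ V)
    (fun V => ∀ x, |lpf (2 * Js) (fun y => om z μ V y - w - gv (1 / μ) V y) x| ≤ r)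
    (fun V => KE Js (gv (1 / μ) V) w (1 / μ - 2 * lam * w) l η (τ / 4)) hp
    (by positivity) (by positivity) hflat hwP hkhl'


/-- the constant `K` may be enlarged -/
theorem cst_mono {d : ℕ} {CF CK CB CS AT cT CT c₁ cE c₂ CE A₀ Kε m K₀ ct Q K₃ a₀ C₁ c₃ K K' : ℝ}
    (h : Cst d CF CK CB CS AT cT CT c₁ cE c₂ CE A₀ Kε m K₀ ct Q K₃ a₀ C₁ c₃ K) (hK : K ≤ K') :
    Cst d CF CK CB CS AT cT CT c₁ cE c₂ CE A₀ Kε m K₀ ct Q K₃ a₀ C₁ c₃ K' :=
  ⟨h.hm, h.ha₀, h.hC₁, h.hct, h.hQ, h.hctK, h.hct0, h.hct1, h.hQ0, h.hm0, h.hK₃1, h.hC₁1,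
    h.hc₃0, h.hc₃1, h.hc₃2, h.ha₀0, h.hK100.trans hK, h.k1.trans hK, h.k2.trans hK,
    h.k3.trans hK, h.k4.trans hK, h.k5.trans hK, h.k6.trans hK, h.k7.trans hK, h.k8.trans hK,
    h.k9.trans hK, h.k10.trans hK, h.k11.trans hK, h.k12.trans hK, h.k13.trans hK,
    h.k14.trans hK, h.k15.trans hK, h.k16.trans hK, h.r1, h.r2, h.r3⟩

end Pool.Agent.LE.IR.H93F
end
end -- Pool.Agent.Helper93_LIF.CPFa
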