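import Pool.Agent.Helper12_MEB.B074

/-!
# Merged copies (generated) of the modules

* `Pool.Agent.LE.DefsQD`
* `Pool.Agent.LE.StmtsQD`
* `Pool.Agent.LE.StmtsQE`
-/

set_option autoImplicit false

section -- Pool.Agent.LE.DefsQD

/-!
# Beyond the mean free path: definitions

The resolvent on the torus `Tor d M`, the norms, the ladder kernel.
-/

set_option autoImplicit false

open MeasureTheory ProbabilityTheory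

open scoped ENNReal BigOperators NNReal Matrix

noncomputable section

namespace Pool.Agent.LE.QD

open Pool.Agent.Anderson hiding box mem_box card_box
open Pool.Agent.Loc Pool.Agent.Mob Pool.Agent.Helper54.Bal
  Pool.Agent.Helper96.EXP Pool.Agent.BED
open Pool.Agent.LE.MN Pool.Agent.LE.CL Pool.Agent.LE.IR

/-! ### the kernels of `e^{i t Δ}` in dimension one -/

/-- `(2 π)⁻¹ ∫ e^{i (n θ + 2 t cos θ)} dθ` -/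
def jb (t : ℝ) (n : ℤ) : ℂ :=
  (∫ θ in (0 : ℝ)..(2 * Real.pi),
    Complex.exp (Complex.I * ((n * θ + 2 * t * Real.cos θ : ℝ) : ℂ))) / ((2 * Real.pi : ℝ) : ℂ)

/-- the same on the cyclic group -/
def jt (M : ℕ) [NeZero M] (t : ℝ) (n : ZMod M) : ℂ :=
  (∑ p : ZMod M, ZMod.stdAddChar (p * n) *
    Complex.exp (Complex.I * ((2 * t * Real.cos (2 * Real.pi * (p.valMinAbs : ℝ) / M) : ℝ) : ℂ))) /
      (M : ℂ)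

/-! ### norms -/

/-- the square of the norm of `ℓ²` -/
def n2 {X : Type} [Fintype X] (f : X → ℂ) : ℝ := ∑ x, ‖f x‖ ^ 2

/-- the square of the norm of `ℓ⁴` -/
def n4 {X : Type} [Fintype X] (f : X → ℂ) : ℝ := Real.sqrt (∑ x, ‖f x‖ ^ 4)

variable {d M : ℕ} [NeZero M]

/-- the symbol of `adj d M`: `∑ 2 cos` -/
def es (p : Tor d M) : ℝ := 2 * d - ds p

/-- `pm (√((es - E)² + η²) |f̂|²)` -/
def qn (E η : ℝ) (f : Tor d M → ℂ) : ℝ := pm fun p => mt (2 * d - E) η p * ‖ft f p‖ ^ 2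

/-- the Sobolev inequality with the constant `A` -/
def Sob (d M : ℕ) [NeZero M] (E η A : ℝ) : Prop := ∀ f : Tor d M → ℂ, n4 f ≤ A * qn E η f

/-- the form bound for the potential -/
def FBq (E η τ : ℝ) (V : Tor d M → ℝ) : Prop :=
  ∀ f g : Tor d M → ℂ, ‖∑ x, (starRingEnd ℂ) (g x) * ((V x : ℂ) * f x)‖ ^ 2 ≤
    τ ^ 2 * (qn E η g * qn E η f)

/-! ### the resolvent -/

/-- `H - z`, `H = adj + V` -/
def hz (V : Tor d M → ℝ) (z : ℂ) : Matrix (Tor d M) (Tor d M) ℂ :=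
  (adj d M).map (fun a : ℝ => (a : ℂ)) + Matrix.diagonal fun x => (V x : ℂ) - z

/-- `(H - z)⁻¹` -/
def rs (V : Tor d M → ℝ) (z : ℂ) : Matrix (Tor d M) (Tor d M) ℂ := (hz V z)⁻¹

/-- the mean of the diagonal of the resolvent -/
def gb (d M : ℕ) [NeZero M] (v : ℝ≥0) (z : ℂ) : ℂ := ∫ V, rs V z 0 0 ∂(gau d M v)

/-- `∑_{x, y ∈ C} |G(x, y)|²` -/
def mss (V : Tor d M → ℝ) (z : ℂ) (C : Finset (Tor d M)) : ℝ :=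
  ∑ x ∈ C, ∑ y ∈ C, ‖rs V z x y‖ ^ 2

/-- the ladder kernel: the square of the free resolvent -/
def kk (ζ : ℂ) (x : Tor d M) : ℝ := ‖rs (0 : Tor d M → ℝ) ζ 0 x‖ ^ 2

/-- `(G^* f G₀)(x, x)`, `G₀` the free resolvent at `ζ` -/
def od (V : Tor d M → ℝ) (z ζ : ℂ) (f : Tor d M → ℝ) (x : Tor d M) : ℂ :=
  ∑ a, (starRingEnd ℂ) (rs V z a x) * ((f a : ℂ) * rs (0 : Tor d M → ℝ) ζ a x)

/-- the cube of side `L` with the corner `a` -/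
def cbt (a : Tor d M) (L : ℕ) : Finset (Tor d M) :=
  Finset.univ.filter fun x => ∀ i, (x i - a i).val < L

/-- the gap: the Fourier transform of the kernel `k` for small momenta -/
def Gap (k : Tor d M → ℝ) (c w : ℝ) : Prop :=
  ∀ q : Tor d M, (∀ i, 2 * Real.pi * |((q i).valMinAbs : ℝ)| ≤ c * w * M) →
    |∑ x, k x * (ec q x).re| ≤
      (1 - c * (2 * Real.pi / M) ^ 2 * (∑ i, ((q i).valMinAbs : ℝ) ^ 2) / w ^ 2) * ∑ x, k x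

/-- the coarse cube with the index `k` -/
def cub {d : ℕ} (b : Site d) (L : ℕ) (k : Site d) : Finset (Site d) :=
  Fintype.piFinset fun i => Finset.Ico (b i + L * k i) (b i + L * (k i + 1))

end Pool.Agent.LE.QD
end
end -- Pool.Agent.LE.DefsQD

section -- Pool.Agent.LE.StmtsQD

/-!
# Beyond the mean free path: `γ(σ, E) ≤ C |σ|^{2 + 1/32}` in the bulk, pointwise in the energy

Part 1: free estimates, the resolvent, concentration, linear algebra. Part 2 is `StmtsQE.lean`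
(ladder equation, growth of the clusters, numbers); the final theorem is `QdfStmt`: for `d ≥ 3`,
`|E| ≤ 2 d - δ`, `0 < |σ| ≤ c` the Lyapunov exponent is at most `C |σ|^{2 + 1/32}`.

MAIN IDEA. `v = σ²`, `κ = 1/15`, `η = |σ|^{2 + κ}`, `z = E + i η`, `G = rs V z` the resolvent on the
torus of side `M`, `|σ|^{-10} ≤ M ≤ |σ|^{-20}`, `l = log (1 / |σ|)`, `η₁ = K₁ v l³`.

(1) The potential is small relative to `m = √((es - E)² + η₁²)` as a quadratic form (`FbpStmt`), and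
`|f|₄² ≤ A pm (m |f̂|²)`, `A = C η₁^{-1/3} l²` (`SobStmt`). So `V ↦ G(x, x)` is Lipschitz with the
constant `C A l (η₁ / η)²` on a set of large measure, and by Gaussian concentration
`|G(x, x) - g| ≤ δ₀ = |σ|^{1/3 - 2 κ} l^C`, `g = E G(0, 0)` (`DiaStmt`).

(2) Gaussian integration by parts: with `ζ = z + v g`, `G₀ = rs 0 ζ` (the free resolvent),
`k(x) = |G₀(0, x)|²`, the mean of `|G(x, y)|²` is `k (1 - v k)⁻¹` up to a relative error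
`|σ|^{1/3 - 4 κ} l^C` after averaging over cubes of side `≥ C / v` (`TeqStmt`, `TerStmt`). The kernel
`v k` is a random walk with steps of length `1 / v` which dies at the rate `η / v`.

(3) `∑_{x, y ∈ C} |G(x, y)|²` concentrates about its mean (`MasStmt`), and if `C` is a union of at most
`N` cubes of side `L = l^C / v`, the mean is at most `ε |C| / η` as long as `N ≤ |σ|^{-d κ / 2 +}`
(`RwsStmt`, `TomStmt`).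

(4) Clusters in a large cube `Λ` at the real energy `E`: start with `b`, add alternately the kinetic
clusters (`ClqStmt`) of all points and the points with one cheap link at distance `≤ C l² / η`. If the
number of coarse cubes which are met by the cluster does not double (`GroStmt`), then
`ψ_x = χ G_Λ(x, ·)` solves `(E - H) ψ_x = δ_x + small` and lives in the union `C''` of these cubes,
`|C''| ≤ l^C |C|`, so `∑_{x ∈ C} Im G(x, x) ≤ 200 ε |C''| + small` (`HscStmt`): impossible. So the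
cluster has at least `N |σ|^{-2 d} / l^C` points, `CrgStmt`.
-/

set_option autoImplicit false

open MeasureTheory ProbabilityTheory Function Filter

open scoped ENNReal BigOperators Topology NNReal ComplexOrder Matrix

noncomputable section

namespace Pool.Agent.LE.QD

open Pool.Agent.Anderson hiding box mem_box card_box
open Pool.Agent.Loc Pool.Agent.Mob Pool.Agent.Helper54.Bal
  Pool.Agent.Helper96.EXP Pool.Agent.BED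
open Pool.Agent.LE.MN Pool.Agent.LE.CL Pool.Agent.LE.IR

/-! ### A. Free estimates -/

/-- BES. Proof: `t ≥ 1` (for `t < 0`: `jb (-t) n = conj (jb t (-n))`), `r = t^{-1/3}`. The phase
`φ = n θ + 2 t cos θ` has `φ'' = - 2 t cos θ`. Remove from `[0, 2 π]` the intervals `|θ - π/2| ≤ r`,
`|θ - 3 π/2| ≤ r`; on the three remaining intervals (where they are nonempty) `|cos θ| ≥ 2 r / π`, so
`|φ''| ≥ t r`, and by the second derivative test (`vdc2`, `vdc2n` in `Helper28_LSP/VDC.lean`) each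
integral is at most `C (t r)^{-1/2} = C t^{-1/3}`. -/
def BesStmt : Prop :=
  ∃ C : ℝ, 1 ≤ C ∧ ∀ (t : ℝ) (n : ℤ), 1 ≤ |t| → ‖jb t n‖ ≤ C * |t| ^ (-(1 / 3 : ℝ))

/-- BE2. Proof: `a = 1 / (2 T)`. On `[T, 2 T]` `e^{- a t} ≥ e⁻¹`, so the integral is at most
`e ∫_ℝ e^{- a |t|} |jb t n|² dt = (e / 4 π²) ∫∫ e^{i n (θ - θ')} 2 a / (a² + 4 (cos θ - cos θ')²)`
(Fubini; `∫ e^{- a |t|} e^{i t u} dt = 2 a / (a² + u²)`). Take absolute values. `θ' = θ - u`, then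
`θ → θ + u / 2` (periodicity): `cos θ - cos θ'` becomes `- 2 sin θ sin (u / 2)`, so the double integral
is `∫∫_{[0, 2π]²} 2 a / (a² + 16 sin² θ sin² (u/2)) dθ du ≤ C ∫∫_{[0, π/2]²} a / (a² + c α² β²)`, and for
fixed `α` the integral over `β` is at most `C min (1 / α, 1 / a)`. -/
def Be2Stmt : Prop :=
  ∃ C : ℝ, 1 ≤ C ∧ ∀ (T : ℝ) (n : ℤ), 1 ≤ T →
    ∫ t in T..2 * T, (‖jb t n‖ ^ 2 + ‖jb (-t) n‖ ^ 2) ≤ C * (1 + Real.log T)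

/-- TOR: from the cyclic group to `ℤ`. Proof: `n' = n.valMinAbs`, `|n'| ≤ M / 2`. Expand
`e^{2 i t cos θ} = ∑_m (i t)^m / m! (e^{iθ} + e^{-iθ})^m`. In both kernels the coefficient of
`(i t)^m / m!` is at most `2^m` in absolute value, and it is the same for `m + |n'| < M` (the integral
of `e^{i n' θ} e^{i (2k - m) θ}` is `2 π` if `n' + 2 k - m = 0`, `0` otherwise, the sum over `p` is `M` if
`n' + 2 k - m = 0` mod `M`, `0` otherwise). So with `m₀ = ⌈M / 2⌉` the difference is at most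
`2 ∑_{m ≥ m₀} (2 |t|)^m / m! ≤ 4 (2 e |t| / m₀)^{m₀} ≤ 4 (e / 10)^{m₀}`. -/
def TorStmt : Prop :=
  ∀ (M : ℕ) [NeZero M] (t : ℝ) (n : ZMod M), |t| ≤ M / 40 →
    ‖jt M t n - jb t n.valMinAbs‖ ≤ 8 * Real.exp (-((M : ℝ) / 4))

/-- BKT: the kernel of `e^{i t Δ}` on the torus, integrated over a dyadic block. Proof: the kernel is
`∏_i jt M t (y i)` (`ec p y = ∏ stdAddChar`, `es p = ∑ 2 cos`). `|jt| ≤ 1`, so it is at most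
`∏_{i < 3} |jt M t (y i)| ≤ (1/3) ∑_{i < 3} |jt M t (y i)|³`; by `TorStmt`, `BesStmt`
`|jt| ≤ C T^{-1/3} + 8 e^{-M/4} ≤ C T^{-1/3}`, and `∫ |jt|² ≤ 2 ∫ |jb|² + 2 T 64 e^{-M/2} ≤
C (1 + log T)` (`Be2Stmt`, `T ≤ M / 80`). Similarly for `- t`. -/
def BktStmt : Prop :=
  ∀ d : ℕ, 3 ≤ d → ∃ C : ℝ, 1 ≤ C ∧ ∀ (M : ℕ) [NeZero M] (T : ℝ) (y : Tor d M), 1 ≤ T →
    2 * T ≤ M / 40 →
      ∫ t in T..2 * T,
        (‖(∑ p, ec p y * Complex.exp (Complex.I * ((t * es p : ℝ) : ℂ))) / (M : ℂ) ^ d‖ +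
          ‖(∑ p, ec p y * Complex.exp (-(Complex.I * ((t * es p : ℝ) : ℂ)))) / (M : ℂ) ^ d‖) ≤
        C * T ^ (-(1 / 3 : ℝ)) * (1 + Real.log T)

/-- INT: interpolation between `ℓ¹ → ℓ^∞` and `ℓ² → ℓ²`. Proof: `A, B > 0` and, by homogeneity,
`∑ |f|^{4/3} = 1`. `f_j` = the part of `f` with `2^j ≤ |f| < 2^{j+1}` (`j ∈ ℤ`), `a_j` the number of these
points, `u_j = 2^{4 j / 3} a_j`, `∑ u_j ≤ 1`. `|⟨f_i, T f_j⟩| ≤ min (4 B 2^{-(i+j)/3} u_i u_j,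
4 A 2^{(i+j)/3} (u_i u_j)^{1/2})`. Let `2^{2 k₀ / 3} ≈ B / A`. The pairs with `i + j ≥ k₀`: at most
`4 B 2^{-k₀/3} (∑ u_i)²`; the pairs with `i + j = k < k₀`: at most `4 A 2^{k/3} ∑_i (u_i u_{k-i})^{1/2} ≤
4 A 2^{k/3}` (Cauchy-Schwarz), geometric series. -/
def IntStmt : Prop :=
  ∃ C : ℝ, 1 ≤ C ∧ ∀ (X : Type) [Fintype X] (T : X → X → ℂ) (f : X → ℂ) (A B : ℝ), 0 ≤ A → 0 ≤ B →
    (∀ x y, ‖T x y‖ ≤ B) →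
    (∀ g h : X → ℂ, ‖∑ x, ∑ y, (starRingEnd ℂ) (g x) * (T x y * h y)‖ ≤
      A * (Real.sqrt (n2 g) * Real.sqrt (n2 h))) →
      ‖∑ x, ∑ y, (starRingEnd ℂ) (f x) * (T x y * f y)‖ ≤
        C * Real.sqrt (A * B) * (∑ x, ‖f x‖ ^ (4 / 3 : ℝ)) ^ (3 / 2 : ℝ)

/-- SOB: the Sobolev inequality. Proof: duality: with `g = |f|² f`, `∑ |f|⁴ = ⟨f, g⟩ ≤
(pm (m |f̂|²))^{1/2} (pm (m⁻¹ |ĝ|²))^{1/2}`, and `|g|_{4/3} = |f|₄³`, so it is enough that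
`pm (m⁻¹ |ĝ|²) ≤ A |g|_{4/3}²`. By `inv_sqrt_le` (`Helper17_Anderson/Kappa.lean`)
`m⁻¹ ≤ 1 + 4 ∑_{j ≤ n} η_j / (X² + η_j²)`, `X = es - E`, `η_j = 2^j η`, `n ≤ C (1 + log M)`;
`pm |ĝ|² = |g|₂² ≤ |g|_{4/3}²`. `η_j / (X² + η_j²) = (1/2) ∫ e^{- η_j |t|} e^{i t X} dt`. The part
`|t| ≤ 1` of the integral is at most `1`; the part `|t| ≥ M / 160` is at most `e^{-η M / 160} / η ≤ 1`.
For the block `T = 2^k ≤ |t| ≤ 2 T`, `2 T ≤ M / 40`: the operator has the norm at most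
`2^k e^{-η_j 2^k}` and the kernel is at most `C e^{- η_j 2^k} 2^{-k/3} (1 + k)` (`BktStmt`), so by
`IntStmt` its form at `g` is at most `C e^{- η_j 2^k} 2^{k/3} (1 + k) |g|_{4/3}²`. The sum over `k` with
`2^k ≤ M` is at most `C η_j^{-1/3} (1 + log M)`, the sum over `j` at most `C η^{-1/3} (1 + log M)`. -/
def SobStmt : Prop :=
  ∀ d : ℕ, 3 ≤ d → ∃ C : ℝ, 1 ≤ C ∧ ∀ (M : ℕ) [NeZero M] (E η : ℝ), 0 < η → η ≤ 1 →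
    C / η ^ 2 ≤ M → Sob d M E η (C * η ^ (-(1 / 3 : ℝ)) * (1 + Real.log M) ^ 2)

/-- DSU: the density of states on the torus. Proof: for `θ` in the cell of side `1 / M` at `p / M` one
has `|sy θ - es p| ≤ 4 π d / M ≤ η / 2`, so the value of `ker η` at `es p - E` is at most `4` times the
value at `sy θ - E`; sum over the cells and `integral_ker_le` (`Helper17_Anderson/Kappa.lean`). The
second part: `inv_sqrt_le` and the first part for `2^j η ≤ 2` (as in `kap_le`). -/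
def DsuStmt : Prop :=
  ∀ d : ℕ, 3 ≤ d → ∃ C : ℝ, 1 ≤ C ∧ ∀ (M : ℕ) [NeZero M] (E η : ℝ), 0 < η → η ≤ 1 → C / η ≤ M →
    pm (fun p : Tor d M => η / ((es p - E) ^ 2 + η ^ 2)) ≤ C ∧
    pm (fun p : Tor d M => (Real.sqrt ((es p - E) ^ 2 + η ^ 2))⁻¹) ≤ C * (1 + Real.log (1 / η))

/-- DSL: lower bound for the density of states with a weight. Proof: let `2 d cos θ₀ = E`,
`0 < θ₀ < π`, `sin θ₀ ≥ c_δ`. Let `r` be small (depending on `d`, `δ`). For at least `c r M` values of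
the coordinate `p i` the angle `θ_i = 2 π p_i / M` satisfies `|θ_i - θ₀| ≤ r` and `|sin (θ_i - a)| ≥
r / 8`. Choose the coordinates other than `i` and some `j ≠ i` such that `|θ_k - θ₀| ≤ r`: at least
`c r M` values each. Then there is `θ*` with `|θ* - θ₀| ≤ C r` and `2 cos θ* = E - ∑_{k ≠ j} 2 cos θ_k`,
and all `θ_j` with `|θ_j - θ*| ≤ η / 2` are admissible: at least `c η M` values if `M ≥ C / η`. -/
def DslStmt : Prop :=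
  ∀ (d : ℕ) (δ : ℝ), 3 ≤ d → 0 < δ → ∃ c C : ℝ, 0 < c ∧ c ≤ 1 ∧ 1 ≤ C ∧
    ∀ (M : ℕ) [NeZero M] (E η a : ℝ) (i : Fin d), |E| ≤ 2 * d - δ → 0 < η → η ≤ c → C / η ≤ M →
      c * η ≤ pm (fun p : Tor d M => if |es p - E| ≤ η then
        Real.sin (2 * Real.pi * ((p i).valMinAbs : ℝ) / M - a) ^ 2 else 0)

/-! ### B. The resolvent -/

/-- RAL: algebra of the resolvent. Proof: `H` is real symmetric, so `|(H - z) u| ≥ z.im |u|`. (5):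
`G - G^* = (z - conj z) G G^*`. (6): resolvent identity. (7): `adj` is translation invariant. (8): for
`u = G(z₁) δ_x`, `z₁ = E + i η₁`: `G(z) δ_x = (1 - i (η₁ - η) G(z)) u`, so `η |G(z) δ_x| ≤ η₁ |u|`, and
(5). (9): derivative of the inverse. (11): `ec p` is an eigenvector of `adj` with the eigenvalue
`es p`. -/
def RalStmt : Prop :=
  ∀ (d M : ℕ) [NeZero M] (V : Tor d M → ℝ) (z : ℂ), 0 < z.im →
    (hz V z * rs V z = 1 ∧ rs V z * hz V z = 1) ∧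
    (∀ x y, rs V z x y = rs V z y x) ∧
    (∀ x y, rs V ((starRingEnd ℂ) z) x y = (starRingEnd ℂ) (rs V z x y)) ∧
    (∀ w : Tor d M → ℂ, n2 (rs V z *ᵥ w) ≤ n2 w / z.im ^ 2 ∧
      n2 ((rs V z)ᴴ *ᵥ w) ≤ n2 w / z.im ^ 2) ∧
    (∀ x, ∑ y, ‖rs V z x y‖ ^ 2 = (rs V z x x).im / z.im) ∧
    (∀ V' : Tor d M → ℝ, rs V z - rs V' z =
      -(rs V z * (Matrix.diagonal fun x => ((V x - V' x : ℝ) : ℂ)) * rs V' z)) ∧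
    (∀ a x y : Tor d M, rs (tr a V) z x y = rs V z (a + x) (a + y)) ∧
    (∀ (E η η₁ : ℝ) (x : Tor d M), 0 < η → η ≤ η₁ →
      (rs V ⟨E, η⟩ x x).im ≤ η₁ / η * (rs V ⟨E, η₁⟩ x x).im) ∧
    (∀ x a b : Tor d M, HasDerivAt (fun t : ℝ => rs (Function.update V x t) z a b)
      (-(rs V z a x * rs V z x b)) (V x)) ∧
    (∀ a b : Tor d M, Continuous fun W : Tor d M → ℝ => rs W z a b) ∧
    (∀ x y : Tor d M, rs (0 : Tor d M → ℝ) z x y =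
      (∑ p, ec p (x - y) / ((es p : ℂ) - z)) / (M : ℂ) ^ d) ∧
    (∀ x y : Tor d M, ‖rs V z x y‖ ≤ 1 / z.im)

/-- FBP: probability of the form bound. Proof: on the momenta, `f̂ = m^{-1/2} a`, `ĝ = m^{-1/2} b`: the
left side of `FBq` is `|⟨b, X a⟩|²`, `X = ∑_y V y X_y`, `X_y = |φ_y⟩⟨φ_y|`,
`φ_y(p) = m(p)^{-1/2} M^{-d/2} conj (ec p y)` (in the norms of `ℓ²` of the momenta), `|φ_y|² ≤ B`,
`∑_y X_y² ≤ B ∑_y X_y = B diag (1 / m) ≤ B / η`. `NckStmt` (`H64R.nck`) with `Θ = B / η`. -/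
def FbpStmt : Prop :=
  ∀ (d M : ℕ) [NeZero M] (v : ℝ≥0) (E η τ r B : ℝ) (k : ℕ), 0 < η → 0 < τ → 0 ≤ r → 1 ≤ k →
    pm (fun p : Tor d M => (mt (2 * d - E) η p)⁻¹) ≤ B →
      gau d M v {V | ¬ FBq E η τ V} ≤
        ENNReal.ofReal (2 * (M : ℝ) ^ d * Real.exp (-(r ^ 2 / 2)) +
          (M : ℝ) ^ d * (2 * k * r ^ 2 * v * (B / η) / τ ^ 2) ^ k)

/-- RES: consequences of the form bound. Proof: `z = E + i η`, `X = es - E`, `m = √(X² + η₁²)`,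
`u = G w`, `(X - i η) û = ŵ - (V u)^`. (a) `Y² = pm (m |û|²)`, `W² = pm (m⁻¹ |ŵ|²)`. Take the inner
product with `(X / m) û`: the term with `i η` is imaginary, so `pm (X² / m |û|²) ≤ Y W + Y² / 4`
(`|X / m| ≤ 1`, `FBq`), `X² / m ≥ m - η₁`, so `Y² ≤ 2 W² + 2 η₁ |u|²`. (b) For `z₁ = E + i η₁`,
`u = G(z₁) δ_x`: `|X - i η₁| = m`, so `Y ≤ W + Y / 4` (the dual form of `FBq`:
`pm (m⁻¹ |(V u)^|²) ≤ pm (m |û|²) / 16`), `Y ≤ (4/3) W`, and `Im G(z₁)(x, x) ≤ |⟨δ_x, u⟩| ≤ W Y ≤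
(4/3) W² ≤ (4/3) B`. By `RalStmt` (8) `Im G(z)(x, x) ≤ (4/3) B η₁ / η`, and (5). (c) `w = δ_x`:
`n4 (G δ_x) ≤ A Y² ≤ A (2 B + 2 η₁ (4/3) B η₁ / η²) ≤ 10 A B (η₁ / η)²`. (d) general `w`:
`W² ≤ |w|² / η₁`, `|u| ≤ |w| / η`. For `G^*`: `G` is symmetric, so `G^* w = conj (G conj w)`. -/
def ResStmt : Prop :=
  ∀ (d M : ℕ) [NeZero M] (V : Tor d M → ℝ) (E η η₁ A B : ℝ), 0 < η → η ≤ η₁ → 0 ≤ A →
    Sob d M E η₁ A → pm (fun p : Tor d M => (mt (2 * d - E) η₁ p)⁻¹) ≤ B → FBq E η₁ (1 / 4) V →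
      (∀ x, (rs V ⟨E, η⟩ x x).im ≤ 4 / 3 * B * (η₁ / η)) ∧
      (∀ x, ∑ y, ‖rs V ⟨E, η⟩ x y‖ ^ 2 ≤ 4 / 3 * B * (η₁ / η ^ 2)) ∧
      (∀ x, Real.sqrt (∑ y, ‖rs V ⟨E, η⟩ x y‖ ^ 4) ≤ 10 * A * B * (η₁ / η) ^ 2) ∧
      (∀ w : Tor d M → ℂ, n4 (rs V ⟨E, η⟩ *ᵥ w) ≤ 8 * A * (η₁ / η ^ 2) * n2 w) ∧
      ∀ w : Tor d M → ℂ, n4 ((rs V ⟨E, η⟩)ᴴ *ᵥ w) ≤ 8 * A * (η₁ / η ^ 2) * n2 w

/-! ### C. Concentration -/

/-- LCC: concentration for a function which is Lipschitz on a set `S` of large measure. Proof: extend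
`F` from `S` to a Lipschitz function (`LipschitzOnWith.extend_real` or the infimum formula) with the
constant `ℓ`, cut it at `± B`: `F₁`. `F₁ = F` on `S`, so `|∫ F - ∫ F₁| ≤ 2 B p`, and `GCStmt` (`BED`) for
`F₁`. (`S` need not be measurable: `{F ≠ F₁} ⊆ Sᶜ`.) -/
def LccStmt : Prop :=
  ∀ (ι : Type) [Fintype ι] (v : ℝ≥0) (S : Set (ι → ℝ)) (F : (ι → ℝ) → ℝ) (B ℓ p r : ℝ),
    Measurable F → (∀ V, |F V| ≤ B) → 0 < ℓ →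
    (∀ V ∈ S, ∀ V' ∈ S, |F V - F V'| ≤ ℓ * Real.sqrt (∑ i, (V i - V' i) ^ 2)) →
    (Measure.pi fun _ : ι => gaussianReal 0 v) Sᶜ ≤ ENNReal.ofReal p → 0 ≤ p → 0 ≤ r →
      (Measure.pi fun _ : ι => gaussianReal 0 v)
        {V | V ∈ S ∧ r + 2 * B * p <
          |F V - ∫ W, F W ∂(Measure.pi fun _ : ι => gaussianReal 0 v)|} ≤
        ENNReal.ofReal (2 * Real.exp (-(r ^ 2 / (5 * ℓ ^ 2 * v))))

/-- DIA: the diagonal of the resolvent is nearly constant. Proof: `S = {FBq}`. For `V, V' ∈ S` by the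
resolvent identity `|G(x, x) - G'(x, x)| = |∑_y G(x, y) (V y - V' y) G'(y, x)| ≤ |V - V'|
(∑_y |G(x, y)|⁴)^{1/4} (∑_y |G'(y, x)|⁴)^{1/4}`, so `ℓ = 10 A B (η₁ / η)²` (`ResStmt`). `LccStmt` for
the real and the imaginary part of `G(x, x)`, bounded by `1 / η`, for all `x` (union of `M^d` events,
but the event outside of `S` is the same). The mean of `G(x, x)` is `gb` (`RalStmt` (7) and the
invariance of the measure, `CovStmt`). -/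
def DiaStmt : Prop :=
  ∀ (d M : ℕ) [NeZero M] (v : ℝ≥0) (E η η₁ A B p r : ℝ), 0 < η → η ≤ η₁ → 0 < A → 0 < B →
    Sob d M E η₁ A → pm (fun p : Tor d M => (mt (2 * d - E) η₁ p)⁻¹) ≤ B →
    gau d M v {V | ¬ FBq E η₁ (1 / 4) V} ≤ ENNReal.ofReal p → 0 ≤ p → 0 ≤ r →
      gau d M v {V | ¬ ∀ x, ‖rs V ⟨E, η⟩ x x - gb d M v ⟨E, η⟩‖ ≤ 2 * r + 4 * p / η} ≤
        ENNReal.ofReal (p + (M : ℝ) ^ d * (4 * Real.exp (-(r ^ 2 /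
          (5 * (10 * A * B * (η₁ / η) ^ 2) ^ 2 * v)))))

/-- OFF: concentration of `(G^* f G₀)(x, x)`. Proof: `S = {FBq}`. For `V, V' ∈ S`, with
`h = f G₀(·, x)`: `od V - od V' = - ∑_y conj (G'(y, x)) (V y - V' y) (G^* h)(y)` (resolvent identity and
symmetry), at most `|V - V'| (∑_y |G'(y, x)|⁴)^{1/4} (n4 (G^* h))^{1/2}`, `n2 h ≤ Φ² K₀`, so by `ResStmt`
`ℓ² = 10 A B (η₁ / η)² 8 A (η₁ / η²) Φ² K₀`. `|od| ≤ Φ |G δ_x| |G₀ δ_x| ≤ Φ / η²`. `LccStmt` for the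
real and the imaginary part and all `x`. -/
def OffStmt : Prop :=
  ∀ (d M : ℕ) [NeZero M] (v : ℝ≥0) (E η η₁ A B p r Φ K₀ : ℝ) (ζ : ℂ) (f : Tor d M → ℝ), 0 < η →
    η ≤ η₁ → 0 < A → 0 < B → 0 < Φ → 0 < K₀ → η ≤ ζ.im → (∀ x, |f x| ≤ Φ) →
    ∑ x : Tor d M, kk ζ x ≤ K₀ →
    Sob d M E η₁ A → pm (fun p : Tor d M => (mt (2 * d - E) η₁ p)⁻¹) ≤ B →
    gau d M v {V | ¬ FBq E η₁ (1 / 4) V} ≤ ENNReal.ofReal p → 0 ≤ p → 0 ≤ r →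
      gau d M v {V | ¬ ∀ x, ‖od V ⟨E, η⟩ ζ f x - ∫ W, od W ⟨E, η⟩ ζ f x ∂(gau d M v)‖ ≤
          2 * r + 4 * p * Φ / η ^ 2} ≤
        ENNReal.ofReal (p + (M : ℝ) ^ d * (4 * Real.exp (-(r ^ 2 /
          (5 * (80 * A ^ 2 * B * (η₁ ^ 3 / η ^ 4) * Φ ^ 2 * K₀) * v)))))

/-- MAS: concentration of the mass. Proof: `S = {FBq}`, `φ` = the indicator of `C`. For `V, V' ∈ S`:
`mss V - mss V' = tr (φ (G - G') φ G^*) + tr (φ G' φ (G - G')^*)`, `D = V - V'`. The first trace is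
`- ∑_y D y (G' φ G^* φ G)(y, y)`, and `|(G' φ G^* φ G)(y, y)|² ≤ ∑_{b ∈ C} |G'(y, b)|²
∑_{b ∈ C} |(G^* φ G)(b, y)|²`; the first factor is at most `s² = (4/3) B η₁ / η²` (`ResStmt`), the second
one summed over `y` is `∑_{b ∈ C} |G^* φ G δ_b|² ≤ |C| s² / η²`. The second trace
(`G - G' = - G' D G`) is `- ∑_y D y (G^* φ G' φ G'^*)(y, y)`, same bound. So `ℓ² = 4 |C| s⁴ / η² ≤
8 B² η₁² |C| / η⁶`. `0 ≤ mss ≤ |C| / η²`. `LccStmt` with `r |C|`, for all `C ∈ 𝒞`. -/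
def MasStmt : Prop :=
  ∀ (d M : ℕ) [NeZero M] (v : ℝ≥0) (E η η₁ A B p r : ℝ) (𝒞 : Finset (Finset (Tor d M))), 0 < η →
    η ≤ η₁ → 0 < A → 0 < B → Sob d M E η₁ A →
    pm (fun p : Tor d M => (mt (2 * d - E) η₁ p)⁻¹) ≤ B →
    gau d M v {V | ¬ FBq E η₁ (1 / 4) V} ≤ ENNReal.ofReal p → 0 ≤ p → 0 ≤ r →
    (∀ C ∈ 𝒞, C.Nonempty) →
      gau d M v {V | ¬ ∀ C ∈ 𝒞, mss V ⟨E, η⟩ C ≤
          (∫ W, mss W ⟨E, η⟩ C ∂(gau d M v)) + (r + 2 * p / η ^ 2) * C.card} ≤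
        ENNReal.ofReal (p + ∑ C ∈ 𝒞, 2 * Real.exp (-(r ^ 2 * C.card * η ^ 6 /
          (40 * B ^ 2 * η₁ ^ 2 * v))))

/-- STE: Gaussian integration by parts. Proof: Fubini in the coordinate `x`
(`MeasureTheory.measurePreserving_piFinSuccAbove` or the invariance under updating one coordinate with
an independent copy); in dimension one, with `φ` the density, `φ' = - (t / v) φ`:
`∫ t F φ = v ∫ F' φ` (`integral_mul_deriv_eq_deriv_mul_of_integrable`). For `v = 0` both sides are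
zero. -/
def SteStmt : Prop :=
  ∀ (ι : Type) [Fintype ι] [DecidableEq ι] (v : ℝ≥0) (x : ι) (F F' : (ι → ℝ) → ℂ) (B : ℝ),
    Continuous F → Continuous F' → (∀ V, ‖F V‖ ≤ B) → (∀ V, ‖F' V‖ ≤ B) →
    (∀ V, HasDerivAt (fun t : ℝ => F (Function.update V x t)) (F' V) (V x)) →
      ∫ V, (V x : ℂ) * F V ∂(Measure.pi fun _ : ι => gaussianReal 0 v) =
        v * ∫ V, F' V ∂(Measure.pi fun _ : ι => gaussianReal 0 v)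

/-! ### D. Linear algebra of the cluster -/

/-- HSC: the Hilbert-Schmidt bound. Proof: `z = E + i η`, `G = (H - z)⁻¹`, `|G| ≤ 1 / η`, `φ` the
indicator of `C'`. For `v ∈ ℓ²(C)`, `ψ_v = ∑ v_x ψ_x` (`lnt`), `F_v`, `e_v` similarly:
`(H - z) ψ_v = - (v + F_v + e_v + i η ψ_v)`, so `ψ_v = - G (v + F_v + e_v + i η ψ_v)`. Let
`T = η φ G φ`, `|T|_{HS}² ≤ ε η |C'|`. By `LaqStmt` (`A = 2 T^* T`) there is an orthogonal projection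
`Q` on `ℓ²(C)` with `tr (1 - Q) ≤ 4 ε η |C'|` and `|T ψ_v| ≤ |ψ_v| / 2` for `v` in the range of `Q`. For
these `v`, since
`ψ_v = φ ψ_v`: `|ψ_v| ≤ |φ G v| + |ψ_v| / 8 + |e_v| / η + |ψ_v| / 2`, so
`|ψ_v| ≤ (8/3) (|φ G v| + |e_v| / η)`. Sum over `v_k = Q δ_k`, `k ∈ C` (`∑_k |B v_k|² ≤ ∑_{x ∈ C} |B δ_x|²`
for every linear `B`): `∑ |ψ_{v_k}|² ≤ (128/9) (∑_{x ∈ C} |φ G δ_x|² + |C| e₀ / η²) ≤
(128/9) (ε |C'| / η + |C| e₀ / η²)`. Also `|G v| ≤ (17/8) |ψ_v| + |e_v| / η`, so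
`η ∑_k |G v_k|² ≤ (289/32) η ∑ |ψ_{v_k}|² + 2 |C| e₀ / η ≤ 129 ε |C'| + 131 |C| e₀ / η`. Finally
`∑_{x ∈ C} Im G(x, x) = η ∑_{x ∈ C} |G δ_x|² = η ∑_k |G v_k|² + η ∑_k |G (1 - Q) δ_k|²` (`Q` is an
orthogonal projection), and the last term is at most `tr (1 - Q) / η ≤ 4 ε |C'|`. -/
def HscStmt : Prop :=
  ∀ (X : Type) [Fintype X] [DecidableEq X] (H G : Matrix X X ℂ) (E η ε e₀ : ℝ) (C C' : Finset X)
    (ψ F e : X → X → ℂ), H.IsHermitian → 0 < η → 0 ≤ ε → C ⊆ C' →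
    (H - Matrix.diagonal fun _ => (⟨E, η⟩ : ℂ)) * G = 1 →
    (∀ x ∈ C, ∀ y, y ∉ C' → ψ x y = 0) →
    (∀ x ∈ C, ∀ y, (E : ℂ) * ψ x y - (H *ᵥ ψ x) y = (if y = x then 1 else 0) + F x y + e x y) →
    (∀ v : C → ℂ, ∑ y, ‖lnt C F v y‖ ^ 2 ≤ (η / 8) ^ 2 * ∑ y, ‖lnt C ψ v y‖ ^ 2) →
    (∀ x ∈ C, ∑ y, ‖e x y‖ ^ 2 ≤ e₀) →
    ∑ x ∈ C', ∑ y ∈ C', ‖G x y‖ ^ 2 ≤ ε * C'.card / η →
      ∑ x ∈ C, (G x x).im ≤ 200 * (ε * C'.card + e₀ * C.card / η)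

end Pool.Agent.LE.QD
end
end -- Pool.Agent.LE.StmtsQD

section -- Pool.Agent.LE.StmtsQE

/-!
# Beyond the mean free path, part 2: the ladder equation, growth of the clusters, numbers

See `StmtsQD.lean`. `κ = 1/15`, `η = |σ|^{31/15}`, `l = log (1 / |σ|)`.
-/

set_option autoImplicit false

open MeasureTheory ProbabilityTheory Function Filter

open scoped ENNReal BigOperators Topology NNReal ComplexOrder Matrix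

noncomputable section

namespace Pool.Agent.LE.QD

open Pool.Agent.Anderson hiding box mem_box card_box
open Pool.Agent.Loc Pool.Agent.Mob Pool.Agent.Helper54.Bal
  Pool.Agent.Helper96.EXP Pool.Agent.BED
open Pool.Agent.LE.MN Pool.Agent.LE.CL Pool.Agent.LE.IR

/-! ### E. The ladder equation -/

/-- `∑_{b ∈ C} |G(x, b)|²` -/
def ro {d M : ℕ} [NeZero M] (V : Tor d M → ℝ) (z : ℂ) (C : Finset (Tor d M)) (x : Tor d M) : ℝ :=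
  ∑ b ∈ C, ‖rs V z x b‖ ^ 2

/-- `(G φ G^* f G₀)(x, x)`, `φ` the indicator of `C` -/
def yd {d M : ℕ} [NeZero M] (V : Tor d M → ℝ) (z ζ : ℂ) (f : Tor d M → ℝ) (C : Finset (Tor d M))
    (x : Tor d M) : ℂ :=
  ∑ b ∈ C, rs V z x b * ∑ a, (starRingEnd ℂ) (rs V z a b) *
    ((f a : ℂ) * rs (0 : Tor d M → ℝ) ζ a x)

/-- MEA: the mean of the resolvent. Proof: `H₀ = adj`, `G = rs V z`, `D x = G(x, x) - gb`. By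
`RalStmt` (7) and the invariance of the measure under translations (`CovStmt` of `BED`) the mean
`Gm(x, y) = h(x - y)`. `(H₀ - ζ) G = 1 - (V + v gb) G`, and by `SteStmt` (`F = G(x, y)`,
`F' = - G(x, x) G(x, y)`) `E V x G(x, y) = - v E G(x, x) G(x, y)`, so
`((H₀ - ζ) Gm)(x, y) = δ_{xy} + v E D x G(x, y)`. Multiply by `ec p y` and sum over `y`, at `x = 0`:
`(es p - ζ) λ(p) = 1 + s p`, `λ(p) = ∑_y Gm(0, y) ec p y = ft h p`, `s p = v E D 0 (G ec p)(0)`. By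
translation invariance `E |(G ec p)(0)|² = M^{-d} E n2 (G ec p) ≤ 1 / z.im²`, and Cauchy-Schwarz. -/
def MeaStmt : Prop :=
  ∀ (d M : ℕ) [NeZero M] (v : ℝ≥0) (z ζ : ℂ) (δ : ℝ), 0 < z.im → ζ = z + v * gb d M v z → 0 ≤ δ →
    (∫ V, ‖rs V z 0 0 - gb d M v z‖ ^ 2 ∂(gau d M v)) ≤ δ ^ 2 →
      0 ≤ (gb d M v z).im ∧ ∃ s : Tor d M → ℂ, (∀ p, ‖s p‖ ≤ v * δ / z.im) ∧
        ∀ x y : Tor d M, ∫ V, rs V z x y ∂(gau d M v) =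
          (∑ p, ec p (x - y) * ((1 + s p) / ((es p : ℂ) - ζ))) / (M : ℂ) ^ d

/-- SCE: the self-consistent equation. Proof: `w = ζ.im = η + v g.im`, `η ≤ w ≤ 2 c`,
`l' = 1 + log (1 / η)`, `g₀ = rs 0 ζ 0 0 = M^{-d} ∑ 1 / (es p - ζ)` (`RalStmt` (11)). `DsuStmt` at the
energy `ζ.re` and the width `w`: `pm (1 / |es - ζ|) ≤ C₁ l'`, so `|g - g₀| ≤ s₀ C₁ l'` and
`|g| ≤ 2 C₁ l'`, `v |g| ≤ 2 C₁ c ≤ δ / 2`. `Im g₀ = pm (w / ((es - ζ.re)² + w²))` is at most `C₁` and,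
by `DslStmt` (with `δ / 2`, `sin² ≤ 1`), at least `pm (1_{|es - ζ.re| ≤ w}) / (2 w) ≥ c₁ / 2`.
`∑ kk = Im g₀ / w` is `RalStmt` (5). -/
def SceStmt : Prop :=
  ∀ (d : ℕ) (δ : ℝ), 3 ≤ d → 0 < δ → ∃ c C : ℝ, 0 < c ∧ c ≤ 1 ∧ 1 ≤ C ∧
    ∀ (M : ℕ) [NeZero M] (v E η s₀ : ℝ) (g ζ : ℂ) (s : Tor d M → ℂ), |E| ≤ 2 * d - δ → 0 < η →
      η ≤ c → 0 ≤ v → C / η ≤ M → 0 ≤ g.im → v * g.im ≤ c → v * (1 + Real.log (1 / η)) ≤ c →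
      0 ≤ s₀ → s₀ * (1 + Real.log (1 / η)) ≤ c → (∀ p, ‖s p‖ ≤ s₀) → ζ = ⟨E, η⟩ + v * g →
      g = (∑ p, (1 + s p) / ((es p : ℂ) - ζ)) / (M : ℂ) ^ d →
        |ζ.re| ≤ 2 * d - δ / 2 ∧ (c ≤ g.im ∧ g.im ≤ C) ∧
        |g.im - (rs (0 : Tor d M → ℝ) ζ 0 0).im| ≤ C * s₀ * (1 + Real.log (1 / η)) ∧
        (c ≤ (rs (0 : Tor d M → ℝ) ζ 0 0).im ∧ (rs (0 : Tor d M → ℝ) ζ 0 0).im ≤ C) ∧
        ∑ x : Tor d M, kk ζ x = (rs (0 : Tor d M → ℝ) ζ 0 0).im / ζ.im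

/-- TEQ: the ladder equation, an identity. Proof: `G = rs V z`, `G₀ = rs 0 ζ`, `φ` the indicator of
`C`. `G = G₀ - G₀ (V + v gb) G`, so `tr (f G φ G^*) = tr (f G₀ φ G^*) - ∑_x (V x + v gb) yd(x)`. By
`SteStmt` (`F = yd(x)`, by `RalStmt` (9) and its complex conjugate `F' = - G(x, x) yd(x) - ro(x)
od(x)`) `E V x yd(x) = - v E (G(x, x) yd(x) + ro(x) od(x))`. So `E tr (f G φ G^*) = E tr (f G₀ φ G^*) +
v E ∑_x (G(x, x) - gb) yd(x) + v E ∑_x od(x) ro(x)`. Subtract `v E ∑_x (∑_a kk (x - a) f a) ro(x)`,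
`∑_a kk (x - a) f a = ∑_a conj (G₀(a, x)) f a G₀(a, x)`. -/
def TeqStmt : Prop :=
  ∀ (d M : ℕ) [NeZero M] (v : ℝ≥0) (z ζ : ℂ) (f : Tor d M → ℝ) (C : Finset (Tor d M)),
    0 < z.im → 0 < ζ.im → ζ = z + v * gb d M v z →
      ((∫ V, ∑ x, (f x - v * ∑ y, kk ζ (x - y) * f y) * ro V z C x ∂(gau d M v) : ℝ) : ℂ) =
        ∑ b ∈ C, ∑ a, (f a : ℂ) * rs (0 : Tor d M → ℝ) ζ a b *
          (starRingEnd ℂ) (∫ V, rs V z a b ∂(gau d M v)) +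
        v * ∫ V, ∑ x, (rs V z x x - gb d M v z) * yd V z ζ f C x ∂(gau d M v) +
        v * ∫ V, ∑ x, (od V z ζ f x - ∑ a, (starRingEnd ℂ) (rs (0 : Tor d M → ℝ) ζ a x) *
          ((f a : ℂ) * rs (0 : Tor d M → ℝ) ζ a x)) * (ro V z C x : ℂ) ∂(gau d M v)

/-- TER: the mean of the mass. Proof: `TeqStmt`; the left side is `E mss C`. `Gm` = the mean of `G`,
`Gm - G₀` has the symbol `s / (es - ζ)`, so (Parseval) `∑_a |(Gm - G₀)(a, b)|² ≤ s₀² ∑ kk ≤ s₀² K₀`.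
(1) First term: `∑_{b ∈ C} ∑_a f a kk (a - b)` up to `Φ |C| s₀ K₀` (Cauchy-Schwarz). (2) Second term:
`∑_x D x yd(x) = ∑_{b ∈ C} ⟨G δ_b, f G₀ D G δ_b⟩`, at most `|C| max_b |G δ_b|² Φ sup |D| / ζ.im`; on the
event `|D| ≤ δ₀` one has `|G δ_b|² = Im G(b, b) / η ≤ g₀ / η`, outside `|D| ≤ 2 / η`,
`|G δ_b|² ≤ 1 / η²`. (3) Third term: `od - ∑_a … = (od - E od) + ((Gm - G₀)^* f G₀)(x, x)`, at most
`δ₂ Φ + Φ s₀ K₀` on the second event, always at most `2 Φ / η²`; `∑_x ro(x) = ∑_{b ∈ C} |G δ_b|²`. -/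
def TerStmt : Prop :=
  ∀ (d M : ℕ) [NeZero M] (v : ℝ≥0) (E η δ₀ δ₂ s₀ K₀ g₀ Φ p : ℝ) (ζ : ℂ) (s : Tor d M → ℂ)
    (C : Finset (Tor d M)) (f : Tor d M → ℝ), 0 < η → 0 ≤ δ₀ → 0 ≤ δ₂ → 0 ≤ s₀ → 0 < Φ → 0 ≤ p →
    0 ≤ (gb d M v ⟨E, η⟩).im → ζ = ⟨E, η⟩ + v * gb d M v ⟨E, η⟩ → (∀ q, ‖s q‖ ≤ s₀) →
    (∀ x y : Tor d M, ∫ V, rs V ⟨E, η⟩ x y ∂(gau d M v) =
      (∑ p, ec p (x - y) * ((1 + s p) / ((es p : ℂ) - ζ))) / (M : ℂ) ^ d) →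
    ∑ x : Tor d M, kk ζ x ≤ K₀ → (gb d M v ⟨E, η⟩).im + δ₀ ≤ g₀ → (∀ x, 0 ≤ f x ∧ f x ≤ Φ) →
    (∀ x, f x - v * ∑ y, kk ζ (x - y) * f y = if x ∈ C then 1 else 0) →
    gau d M v {V | ¬ ∀ x, ‖rs V ⟨E, η⟩ x x - gb d M v ⟨E, η⟩‖ ≤ δ₀} ≤ ENNReal.ofReal p →
    gau d M v {V | ¬ ∀ x, ‖od V ⟨E, η⟩ ζ f x - ∫ W, od W ⟨E, η⟩ ζ f x ∂(gau d M v)‖ ≤
      δ₂ * Φ} ≤ ENNReal.ofReal p →
      ∫ W, mss W ⟨E, η⟩ C ∂(gau d M v) ≤ ∑ x, f x * ∑ y ∈ C, kk ζ (x - y) +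
        C.card * Φ * (s₀ * K₀ + v / η * g₀ * (δ₀ / ζ.im + δ₂ + s₀ * K₀) + 10 * v * p / η ^ 4)

/-- GAP: the gap of the ladder kernel. Proof: `w = ζ.im`, `k = kk ζ`, `K = ∑ k ≤ C₁ / w` (`RalStmt` (5),
(11), `DsuStmt`). `k` is even in every coordinate, so `∑ k(x) Re (ec q x) = ∑ k(x) ∏_i cos a_i(x)`,
`a_i = 2 π q_i x_i / M`, at most `∑ k(x) |cos a_i(x)|` in absolute value for every `i`, and
`1 - |cos a| ≥ (1 - cos 2 a) / 4`. With `t = 4 π q_i / M`, `|t| ≤ 2 c w ≤ w / 2`: `∑ k(x) (1 - cos (t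
x_i)) = (1/2) ∑ |G₀(0, x) (1 - e^{i t x_i})|² = (1/2) pm |1 / (es p - ζ) - 1 / (es p' - ζ)|²`, `p'` = `p`
shifted by `2 q_i` in the coordinate `i`, `|es p - es p'| = 4 |sin (t/2) sin (θ_i ± t/2)|`. On the set
`|es p - ζ.re| ≤ w` the two denominators are at most `2 w²`, `5 w²` (squared), so by `DslStmt` this is
at least `(1/2) 16 sin² (t/2) c₁ w / (10 w⁴) ≥ c₂ t² / w³ ≥ c₃ K t² / w²`. Take the mean over `i`. -/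
def GapStmt : Prop :=
  ∀ (d : ℕ) (δ : ℝ), 3 ≤ d → 0 < δ → ∃ c C : ℝ, 0 < c ∧ c ≤ 1 ∧ 1 ≤ C ∧
    ∀ (M : ℕ) [NeZero M] (ζ : ℂ), |ζ.re| ≤ 2 * d - δ → 0 < ζ.im → ζ.im ≤ c → C / ζ.im ≤ M →
      Gap (fun x : Tor d M => kk ζ x) c ζ.im

/-- RWS: the random walk. Proof: `K f(x) = ∑ k(x - y) f(y)`, `K₀ = ∑ k`, `P = K / K₀`, `θ = v K₀ < 1`,
`φ` the indicator of `C'`. `f = ∑_m θ^m P^m φ`. `v ∑_x f(x) (K φ)(x) = ∑_{m ≥ 1} θ^m ⟨φ, P^m φ⟩`. For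
`m ≤ n`: `⟨φ, P^m φ⟩ ≤ |C'|`. For `m > n`: `φ ≤ ∑_{a ∈ 𝒜} h(· - a)`, `h(x) = ∏_i F(x_i)`,
`F(x) = 4 |∑_{|p| ≤ J} e^{2 π i p x / M}|² / (2 J + 1)²`, `J = ⌊M / (8 L)⌋`: `F ≥ 1` for
`0 ≤ x < L` (`|∑| ≥ (2 J + 1) cos (2 π J L / M) ≥ (2 J + 1) / √2`), `∑ F = 4 M / (2 J + 1) ≤ 32 L`, and
`F̂` vanishes for `|p| > 2 J`. For `|q_i| ≤ 2 J`: `2 π |q_i| ≤ π M / (2 L) ≤ c w M`, so `|P^(q)|^m ≤
exp (- c m (2 π / M)² |q|² / w²)` (`Gap`; if `m` is large the factor `1 - …` may not be negative, as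
`|P^| ≥ 0`). So `⟨h(· - a), P^m h(· - b)⟩ ≤ (32 L)^{2 d} ∏ (M⁻¹ ∑_{q ∈ ℤ} exp (- c m (2 π / M)² q² /
w²)) ≤ C L^{2 d} (M^{-d} + (w² / m)^{d/2})`. Sum over the pairs `(a, b)`, `|𝒜| L^d = |C'|`, and over
`m > n`: `∑_{m > n} m^{-d/2} ≤ 2 n^{1 - d/2}`, `∑ θ^m ≤ 1 / (1 - θ)`. -/
def RwsStmt : Prop :=
  ∀ (d : ℕ) (c : ℝ), 3 ≤ d → 0 < c → ∃ C : ℝ, 1 ≤ C ∧ ∀ (M : ℕ) [NeZero M] (k : Tor d M → ℝ)
    (v w : ℝ) (L n : ℕ) (𝒜 C' : Finset (Tor d M)), (∀ x, 0 ≤ k x) → (∀ x, k (-x) = k x) → 0 < v →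
    0 < ∑ x, k x → v * ∑ x, k x < 1 → 0 < w → w ≤ 1 → Gap k c w → C ≤ w * L → C * L ≤ M → 1 ≤ n →
    (∀ x ∈ C', ∃ a ∈ 𝒜, x ∈ cbt a L) → C'.card = 𝒜.card * L ^ d →
      ∃ f : Tor d M → ℝ, (∀ x, 0 ≤ f x ∧ f x ≤ 1 / (1 - v * ∑ x, k x)) ∧
        (∀ x, f x - v * ∑ y, k (x - y) * f y = if x ∈ C' then 1 else 0) ∧
        v * ∑ x, f x * ∑ y ∈ C', k (x - y) ≤
          C'.card * (n + C * 𝒜.card * (L * w) ^ d * (n : ℝ) ^ (1 - (d : ℝ) / 2) +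
            C * 𝒜.card * ((L : ℝ) / M) ^ d / (1 - v * ∑ x, k x))

/-! ### F. Numbers on the torus -/

/-- the facts about the torus: `A` is the constant of the Sobolev inequality at `η₁`, `B` bounds
`pm (1 / m)`, `p` is a probability, `δ₀` bounds `|G(x, x) - gb|`, `s` is the symbol of `MeaStmt` -/
structure Kin (d M : ℕ) [NeZero M] (v : ℝ≥0) (E η η₁ A B p δ₀ s₀ δ c C : ℝ) (ζ : ℂ)
    (s : Tor d M → ℂ) : Prop where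
  hη : 0 < η ∧ η ≤ η₁ ∧ η₁ ≤ 1
  hA : 0 < A ∧ 0 < B ∧ 0 ≤ p ∧ 0 ≤ δ₀ ∧ 0 ≤ s₀
  hS : Sob d M E η₁ A
  hB : pm (fun p : Tor d M => (mt (2 * d - E) η₁ p)⁻¹) ≤ B
  hF : gau d M v {V | ¬ FBq E η₁ (1 / 4) V} ≤ ENNReal.ofReal p
  hD : gau d M v {V | ¬ ∀ x, ‖rs V ⟨E, η⟩ x x - gb d M v ⟨E, η⟩‖ ≤ δ₀} ≤ ENNReal.ofReal p
  hζ : ζ = ⟨E, η⟩ + v * gb d M v ⟨E, η⟩ ∧ |ζ.re| ≤ 2 * d - δ
  hs : ∀ q, ‖s q‖ ≤ s₀
  hm : ∀ x y : Tor d M, ∫ V, rs V ⟨E, η⟩ x y ∂(gau d M v) =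
    (∑ p, ec p (x - y) * ((1 + s p) / ((es p : ℂ) - ζ))) / (M : ℂ) ^ d
  hg : c ≤ (gb d M v ⟨E, η⟩).im ∧ (gb d M v ⟨E, η⟩).im ≤ C
  h0 : c ≤ (rs (0 : Tor d M → ℝ) ζ 0 0).im ∧ (rs (0 : Tor d M → ℝ) ζ 0 0).im ≤ C
  hd : |(gb d M v ⟨E, η⟩).im - (rs (0 : Tor d M → ℝ) ζ 0 0).im| ≤
    C * s₀ * (1 + Real.log (1 / η))
  hK : ∑ x : Tor d M, kk ζ x = (rs (0 : Tor d M → ℝ) ζ 0 0).im / ζ.im

/-- TOA. Proof: `l = log (1 / |σ|)`, `η₁ = K₁ σ² l³`, `K₁` large. `C / η₁² ≤ |σ|^{-10} ≤ M`: `SobStmt`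
gives `A = C η₁^{-1/3} (1 + log M)² ≤ C |σ|^{-2/3} l²`, `DsuStmt` gives `B = C l` (`mt (2 d - E) η p =
√((es p - E)² + η²)`). `FbpStmt` with `τ = 1/4`, `r² = K₂ l`, `k = ⌈K₂ l⌉`: the probability is at most
`C |σ|^{-20 d} (|σ|^{K₂ / 2} + (C K₂² l² B v / η₁)^k) ≤ |σ|^{A'}` (`K₂` large, then `K₁` large).
`DiaStmt` with `r² = K₃ l (A B (η₁ / η)²)² v`, `r = |σ|^{1/3 - 2/15} l^C ≤ |σ|^{1/6} / 4` (`p` with a larger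
exponent than `A'`). So `E |G(0, 0) - gb|² ≤ |σ|^{1/3} + p (2 / η)² ≤ 4 |σ|^{1/3}`, `MeaStmt` with
`δ = 2 |σ|^{1/6}`: `s₀ = v δ / η = 2 |σ|^{1/6 - 1/15}`. `Im gb = E Im G(0, 0) ≤ (4/3) B η₁ / η + p / η`
(`ResStmt` on `FBq`), so `v Im gb ≤ c`, `SceStmt`. -/
def ToaStmt : Prop :=
  ∀ (d : ℕ) (δ A' : ℝ), 3 ≤ d → 0 < δ → 1 ≤ A' → ∃ c C : ℝ, 0 < c ∧ c ≤ 1 / 4 ∧ 1 ≤ C ∧
    ∀ (M : ℕ) [NeZero M] (v : ℝ≥0) (σ E η : ℝ), (v : ℝ) = σ ^ 2 → σ ≠ 0 → |σ| ≤ c →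
      |E| ≤ 2 * d - δ → η = |σ| ^ (31 / 15 : ℝ) → |σ| ^ (-10 : ℝ) ≤ M → (M : ℝ) ≤ |σ| ^ (-20 : ℝ) →
      ∃ (η₁ A B : ℝ) (ζ : ℂ) (s : Tor d M → ℂ),
        Kin d M v E η η₁ A B (|σ| ^ A') (|σ| ^ (1 / 6 : ℝ)) (2 * |σ| ^ (1 / 10 : ℝ)) (δ / 2) c C ζ
          s ∧
        η₁ ≤ C * σ ^ 2 * Real.log (1 / |σ|) ^ 3 ∧
        A ≤ C * |σ| ^ (-(2 / 3) : ℝ) * Real.log (1 / |σ|) ^ 2 ∧ B ≤ C * Real.log (1 / |σ|)

/-- TOB: the mean of the mass. Proof: `ToaStmt` with a large `A'`. `w = ζ.im`, `c v ≤ w ≤ C v`,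
`K₀ = Im G₀(0, 0) / w`, `θ = v K₀`: `1 - θ = (η + v (Im gb - Im G₀(0, 0))) / w ≥ η / (2 w)`, because
`v C s₀ l ≤ C σ² |σ|^{1/10} l ≤ η / 2`; so `Φ = 1 / (1 - θ) ≤ C v / η = C |σ|^{-1/15}`. `GapStmt`,
`RwsStmt` (`k = kk ζ`): the function `f` and
`∑_x f(x) ∑_{y ∈ C'} k(x - y) ≤ (1 / v) |C'| (n + C |𝒜| (L w)^d n^{1 - d/2} + |σ|)`, `1 / v = |σ|^{1/15} / η`.
`OffStmt` with `r² = K₃ l ℓ² v`, `ℓ² = 80 A² B (η₁³ / η⁴) Φ² K₀ ≤ |σ|^{-4/3 + 6 - 124/15 - 2} l^C Φ²`: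
`δ₂ = |σ|^{1 - 2/3 + 3 - 62/15 - 1} l^C = |σ|^{-9/5} l^C`, `v δ₂ ≤ |σ|^{1/5} l^C`. `TerStmt`: the error is at
most `|C'| / η` times `C Φ (s₀ + δ₀ + v δ₂ + |σ|) ≤ C |σ|^{-1/15} |σ|^{1/10} ≤ |σ|^{1/31}`. -/
def TobStmt : Prop :=
  ∀ (d : ℕ) (δ : ℝ), 3 ≤ d → 0 < δ → ∃ c K : ℝ, 0 < c ∧ c ≤ 1 / 4 ∧ 1 ≤ K ∧
    ∀ (M : ℕ) [NeZero M] (v : ℝ≥0) (σ E η : ℝ) (L n : ℕ) (𝒜 C' : Finset (Tor d M)),
      (v : ℝ) = σ ^ 2 → σ ≠ 0 → |σ| ≤ c → |E| ≤ 2 * d - δ → η = |σ| ^ (31 / 15 : ℝ) →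
      |σ| ^ (-10 : ℝ) ≤ M → (M : ℝ) ≤ |σ| ^ (-20 : ℝ) → K ≤ σ ^ 2 * L →
      (L : ℝ) ≤ |σ| ^ (-3 : ℝ) → 1 ≤ n → 𝒜.Nonempty → (𝒜.card : ℝ) ≤ |σ| ^ (-(d : ℝ)) →
      (∀ x ∈ C', ∃ a ∈ 𝒜, x ∈ cbt a L) → C'.card = 𝒜.card * L ^ d →
        ∫ W, mss W ⟨E, η⟩ C' ∂(gau d M v) ≤
          (K * |σ| ^ (1 / 15 : ℝ) * (n + 𝒜.card * (σ ^ 2 * L) ^ d * (n : ℝ) ^ (1 - (d : ℝ) / 2)) +
            |σ| ^ (1 / 31 : ℝ)) * C'.card / η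

/-- TOM: the torus. Proof: the diagonal: `ToaStmt`, `Im G(x, x) ≥ Im gb - δ₀ ≥ c`. The mass: `TobStmt`
and `MasStmt` for the family of all `C'` (for each `𝒜` there is at most one `C'`, the union of the
cubes; with `|𝒜| = j` at most `M^{d j}`), `r = |σ|^{1/31} / (4 η)`: the exponent is at least
`j L^d |σ|^{2/31} η⁴ / (C l^8 σ⁶) ≥ j |σ|^{-3}` (`L ≥ σ^{-2}`, `d ≥ 3`), larger than `20 d j l + A l + j`. -/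
def TomStmt : Prop :=
  ∀ (d : ℕ) (δ A' : ℝ), 3 ≤ d → 0 < δ → 1 ≤ A' → ∃ c K : ℝ, 0 < c ∧ c ≤ 1 / 4 ∧ 1 ≤ K ∧
    ∀ (M : ℕ) [NeZero M] (v : ℝ≥0) (σ E η : ℝ) (L N n : ℕ), (v : ℝ) = σ ^ 2 → σ ≠ 0 → |σ| ≤ c →
      |E| ≤ 2 * d - δ → η = |σ| ^ (31 / 15 : ℝ) → |σ| ^ (-10 : ℝ) ≤ M → (M : ℝ) ≤ |σ| ^ (-20 : ℝ) →
      K ≤ σ ^ 2 * L → (L : ℝ) ≤ |σ| ^ (-3 : ℝ) → 1 ≤ n → (N : ℝ) ≤ |σ| ^ (-(d : ℝ)) →
      gau d M v {V | ¬ ((∀ x, c ≤ (rs V ⟨E, η⟩ x x).im) ∧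
        ∀ 𝒜 C' : Finset (Tor d M), 𝒜.Nonempty → 𝒜.card ≤ N → (∀ x ∈ C', ∃ a ∈ 𝒜, x ∈ cbt a L) →
          C'.card = 𝒜.card * L ^ d → mss V ⟨E, η⟩ C' ≤
            (K * |σ| ^ (1 / 15 : ℝ) * (n + N * (σ ^ 2 * L) ^ d * (n : ℝ) ^ (1 - (d : ℝ) / 2)) +
              2 * |σ| ^ (1 / 31 : ℝ)) * C'.card / η)} ≤ ENNReal.ofReal (|σ| ^ A')

/-! ### G. Growth of the clusters -/

/-- CLQ: the kinetic clusters. Proof: the proof of `ClpStmt` (`Helper81_LSP/CLP.lean`) gives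
`ρ = R + 2`, `R = J R₁ ≤ C l² / η`, `η = K₁ σ² l⁴`, so `ρ ≤ K / σ²`. -/
def ClqStmt : Prop :=
  ∀ (d : ℕ) (δ A : ℝ), 3 ≤ d → 0 < δ → 1 ≤ A → ∃ c K : ℝ, 0 < c ∧ c ≤ 1 / 4 ∧ 1 ≤ K ∧
    ∀ σ E : ℝ, σ ≠ 0 → |σ| ≤ c → |E| ≤ 2 * d - δ → ∃ (n ρ J : ℕ) (s : ℝ), 1 ≤ s ∧
      s ≤ K * Real.log (1 / |σ|) ∧ 1 ≤ ρ ∧ (ρ : ℝ) ≤ K / σ ^ 2 ∧ 1 ≤ J ∧
      (J : ℝ) ≤ K * Real.log (1 / |σ|) ∧ 1 ≤ n ∧ (n : ℝ) ≤ |σ| ^ (-(2 * (d : ℝ))) ∧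
      (K * σ ^ 2 * Real.log (1 / |σ|) ^ 4) ^ (-(d : ℝ)) ≤ n ∧
      ∀ (N : ℕ) (b : Site d), box b ρ ⊆ box 0 N →
        PP d (gl σ) {V | ¬ n ≤ (rch V (box 0 N) E s b ρ J).card} ≤ ENNReal.ofReal (|σ| ^ A)

/-- GRO: growth (deterministic). Proof: `U_0 = {b}`, `U_i' = ∪_{x ∈ U_i} rch V Λ E s x ρ J₁`,
`U_{i+1} = clu V Λ E s U_i' (box b ((i + 1) (R₁ + ρ)))`. By induction `U_i ⊆ box b (i (R₁ + ρ))`,
`U_i' ⊆ box b (i (R₁ + ρ) + ρ)`, `U_i ⊆ rch V Λ E s b R (i (J₁ + 1))`, `U_i' ⊆ rch V Λ E s b R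
(i (J₁ + 1) + J₁)` (`i ≤ J₂`). Let `I_i` be the set of the indices `k` of the coarse cubes `cub b L k` which
meet `U_i` (`k_j = ⌊(y_j - b_j) / L⌋`), `a_i = |I_i|`, `a_0 = 1`. Claim: `2^d |U_i'| ≥ n a_i`: some parity
class of indices contains at least `a_i / 2^d` elements of `I_i`; choose a point `x ∈ U_i` for each of
them; the sets `rch V Λ E s x ρ J₁ ⊆ box x ρ` are disjoint (two coordinates differ by more than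
`L ≥ 2 ρ`) with at least `n` elements. If `a_i ≥ N₀` for some `i ≤ J₂`: the first alternative. If not,
`a_{i+1} ≤ 2 a_i` for some `i < J₂` (since `2^{J₂} > N₀`), and `C = U_i'`, `𝒦 = I_{i+1}`,
`r = i (R₁ + ρ) + ρ`. -/
def GroStmt : Prop :=
  ∀ (d : ℕ) (V : Site d → ℝ) (Λ : Finset (Site d)) (E s : ℝ) (b : Site d)
    (ρ R R₁ J₁ J₂ L n N₀ : ℕ), 1 ≤ d → 1 ≤ N₀ → 1 ≤ L → 2 * ρ ≤ L → N₀ < 2 ^ J₂ →
    J₂ * (R₁ + ρ) + ρ ≤ R → (∀ x ∈ box b R, n ≤ (rch V Λ E s x ρ J₁).card) →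
      n * N₀ ≤ 2 ^ d * (rch V Λ E s b R ((J₁ + 1) * (J₂ + 1))).card ∨
      ∃ (r : ℕ) (C 𝒦 : Finset (Site d)), r + R₁ ≤ R ∧ C.Nonempty ∧ C ⊆ box b r ∧ 𝒦.Nonempty ∧
        𝒦.card ≤ 2 * N₀ ∧ n * 𝒦.card ≤ 2 ^ (d + 1) * C.card ∧
        (∀ y ∈ clu V Λ E s C (box b (r + R₁)), ∃ k ∈ 𝒦, y ∈ cub b L k) ∧
        ∀ k ∈ 𝒦, cub b L k ⊆ box b (R + L)

/-- CLS: a cluster which does not grow (deterministic). Proof: `G = gr V (box 0 N) E`,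
`U = clu V (box 0 N) E s C (box b (r + R₁))`, `4 d κ = η / 16`, `χ(y) = exp (- κ (sd b y - r)^+)`. As in the
proof of `ClbStmt` (`Helper48_LSP/CLB*.lean`): for `x ∈ C` the function `ψ x y = χ(y) G(x, y)` for
`y ∈ U`, `0` otherwise, satisfies `(E - H) ψ x = δ_x + F x + e x`, `F x y = ∓ ∑_{z ~ y} (χ(y) / χ(z) - 1)
ψ x z`, `n2 F_v ≤ (4 d κ)² n2 ψ_v ≤ (η / 8)² n2 ψ_v`, `|e x y| ≤ (8 d + 2) (e^{-s} + e^{a - κ (R₁ - 1)})` on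
`box b (R + 1)`, zero outside; so `n2 (e x) ≤ η²`. Transport to the torus with `ti M b` (injective on
`box b (R + L + 2)`, neighbours go to neighbours). `C'` = the image of the union of the cubes
`cub b L k`, `k ∈ 𝒦` (disjoint, `L^d` points each, contained in `box b (R + L)`), `𝒜` = the images of
their corners. `HscStmt`: `c₀ |C| ≤ 200 (ε |𝒦| L^d + η |C|) ≤ 200 (2^{d+1} ε L^d / n + η) |C|`. -/
def ClsStmt : Prop :=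
  ∀ d : ℕ, 1 ≤ d → ∃ K : ℝ, 1 ≤ K ∧ ∀ (M : ℕ) [NeZero M] (V : Site d → ℝ) (W : Tor d M → ℝ)
    (N R r R₁ L n : ℕ) (E η s a c₀ ε : ℝ) (b : Site d) (C 𝒦 : Finset (Site d)), 0 < η → η ≤ 1 →
    |E| ≤ 2 * d → 0 ≤ a → 0 ≤ ε → 1 ≤ L → 1 ≤ n → 1 ≤ R → 2 * (R + L) + 5 ≤ M →
    (∀ y ∈ box b (R + 2), W (ti M b y) = V y) → box b (R + 2) ⊆ box 0 N → r + R₁ ≤ R →
    C.Nonempty → C ⊆ box b r →
    (∀ y ∈ clu V (box 0 N) E s C (box b (r + R₁)), ∃ k ∈ 𝒦, y ∈ cub b L k) →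
    (∀ k ∈ 𝒦, cub b L k ⊆ box b (R + L)) → n * 𝒦.card ≤ 2 ^ (d + 1) * C.card →
    (RM V (box 0 N) E).det ≠ 0 → (∀ x ∈ box b (R + 1), |V x| ≤ 1) →
    (∀ x ∈ box b (R + 1), ∀ y ∈ box b (R + 1), |gr V (box 0 N) E x y| ≤ Real.exp a) →
    K * (a + 1 + Real.log (1 / η) + Real.log R) ≤ η * R₁ →
    K * (1 + Real.log (1 / η) + Real.log R) ≤ s →
    (∀ x : Tor d M, c₀ ≤ (rs W ⟨E, η⟩ x x).im) →
    (∀ 𝒜 C' : Finset (Tor d M), 𝒜.Nonempty → 𝒜.card ≤ 𝒦.card →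
      (∀ x ∈ C', ∃ a ∈ 𝒜, x ∈ cbt a L) → C'.card = 𝒜.card * L ^ d →
        mss W ⟨E, η⟩ C' ≤ ε * C'.card / η) →
      c₀ ≤ K * (ε * (L : ℝ) ^ d / n + η)

/-- CPX: the probability of the large clusters. Proof: `ClqStmt` (with a large exponent) gives `n₁`,
`ρ₁`, `J₁`, `s₁`. `η = |σ|^{31/15}`, `N₀ = ⌊|σ|^{-d/31}⌋`, `m = ⌈|σ|^{-4/61}⌉`, `L = ⌈K' / σ²⌉ ≥ 2 ρ₁`,
`s = s₁ + C l` (`rch` grows with `s`), `a = C l`, `R₁ = ⌈C l / η⌉`, `J₂ = ⌈C l⌉`, `N₀ < 2^{J₂}`,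
`R = J₂ (R₁ + ρ₁) + ρ₁ ≤ |σ|^{-5/2}`, `ρ = R + ρ₁ + 2`, `M = ⌈|σ|^{-10}⌉`, `J = (J₁ + 1) (J₂ + 1)`,
`n = ⌊n₁ N₀ / 2^d⌋`. Outside of an event of probability `≤ |σ|^A`: `det ≠ 0`, `|V| ≤ 1`,
`|G(x, y)| ≤ e^a` on `box b (R + 1)` (as in the proof of `ClpStmt`), the clusters of all `x ∈ box b R`
have at least `n₁` points, and `W = V` on the torus (the potential of a cube of side `M` about `b`, see
`Helper54_LIR/CPE*.lean` for the transfer of the law) satisfies `TomStmt` with `N = 2 N₀`, `n = m`. The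
coefficient of `|C'| / η` is at most `ε = |σ|^{1/1000}` because `1/15 - 4/61 = 1/915` and
`1/15 - d/31 + (4/61) (d/2 - 1) ≥ 1/915`. If the second alternative of `GroStmt` holds then
`ClsStmt` gives `c₀ ≤ K (|σ|^{1/1000} L^d / n₁ + η)`, `L^d / n₁ ≤ l^C`: impossible for small `σ`. -/
def CpxStmt : Prop :=
  ∀ (d : ℕ) (δ A : ℝ), 3 ≤ d → 0 < δ → 1 ≤ A → ∃ c K : ℝ, 0 < c ∧ c ≤ 1 / 4 ∧ 1 ≤ K ∧
    ∀ σ E : ℝ, σ ≠ 0 → |σ| ≤ c → |E| ≤ 2 * d - δ → ∃ (n ρ J : ℕ) (s : ℝ), 1 ≤ s ∧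
      s ≤ K * Real.log (1 / |σ|) ∧ 1 ≤ ρ ∧ (ρ : ℝ) ≤ |σ| ^ (-3 : ℝ) ∧ 1 ≤ J ∧
      (J : ℝ) ≤ K * Real.log (1 / |σ|) ^ 2 ∧ 1 ≤ n ∧ (n : ℝ) ≤ |σ| ^ (-(3 * (d : ℝ))) ∧
      |σ| ^ (-((2 + 1 / 31) * (d : ℝ))) ≤ K * Real.log (1 / |σ|) ^ (4 * d) * n ∧
      ∀ (N : ℕ) (b : Site d), box b ρ ⊆ box 0 N →
        PP d (gl σ) {V | ¬ n ≤ (rch V (box 0 N) E s b ρ J).card} ≤ ENNReal.ofReal (|σ| ^ A)

/-- QDF: the final bound. Proof: `CpxStmt` with `A = 3 d`, `CrgStmt` with `q = |σ|^A`, `q n ≤ 1`: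
`γ ≤ C J (s + l + log ρ) n^{-1/d} ≤ C l^7 |σ|^{2 + 1/31}`. -/
def QdfStmt : Prop :=
  ∀ (d : ℕ) (δ : ℝ), 3 ≤ d → 0 < δ → ∃ c C : ℝ, 0 < c ∧ c ≤ 1 / 4 ∧ 1 ≤ C ∧
    ∀ σ E g : ℝ, σ ≠ 0 → |σ| ≤ c → |E| ≤ 2 * d - δ → LyaAt d σ E g →
      g ≤ C * |σ| ^ (2 + 1 / 32 : ℝ)

end Pool.Agent.LE.QD
end
end -- Pool.Agent.LE.StmtsQE
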