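import Pool.Agent.Helper12_MEB.B084

/-!
# Merged copies (generated) of the modules

* `Pool.Agent.LE.DefsQF`
* `Pool.Agent.LE.StmtsQF`
-/

set_option autoImplicit false

section -- Pool.Agent.LE.DefsQF

/-!
# Diffusion down to the scale `η = |σ|^{2 d - ε}`: definitions

Jets of functions of the time and the potential, the matrices of the flow, the functional.
-/

set_option autoImplicit false

open MeasureTheory ProbabilityTheory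

open scoped ENNReal BigOperators NNReal Matrix

noncomputable section

namespace Pool.Agent.LE.QF

open Pool.Agent.Anderson hiding box mem_box card_box
open Pool.Agent.Loc Pool.Agent.Mob Pool.Agent.Helper54.Bal
  Pool.Agent.Helper96.EXP Pool.Agent.BED
open Pool.Agent.LE.MN Pool.Agent.LE.CL Pool.Agent.LE.IR Pool.Agent.LE.QD

/-! ### jets -/

section Jets

variable {ι : Type} [Fintype ι] [DecidableEq ι] {E : Type} [NormedAddCommGroup E]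
  [NormedSpace ℝ E]

/-- the derivative in the coordinate `c` of a function of the time and the potential -/
def dC (c : ι) (F : ℝ × (ι → ℝ) → E) (q : ℝ × (ι → ℝ)) : E := fderiv ℝ F q (0, Pi.single c 1)

/-- the generator `(1/2) ∑ ∂_c² + ∂_t` -/
def LL (F : ℝ × (ι → ℝ) → E) (q : ℝ × (ι → ℝ)) : E :=
  (1 / 2 : ℝ) • ∑ c, dC c (dC c F) q + fderiv ℝ F q (1, 0)

/-- at the point `q` the function `F` is twice continuously differentiable with the value `v`, the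
derivatives `g c`, and `LL F = l` -/
structure HJ (F : ℝ × (ι → ℝ) → E) (q : ℝ × (ι → ℝ)) (v : E) (g : ι → E) (l : E) : Prop where
  sm : ContDiffAt ℝ 2 F q
  vl : F q = v
  gr : ∀ c, dC c F q = g c
  ge : LL F q = l

/-- the same for matrices, entry by entry -/
def HM {m n : Type} (F : ℝ × (ι → ℝ) → Matrix m n E) (q : ℝ × (ι → ℝ)) (v : Matrix m n E)
    (g : ι → Matrix m n E) (l : Matrix m n E) : Prop :=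
  ∀ a b, HJ (fun r => F r a b) q (v a b) (fun c => g c a b) (l a b)

end Jets

/-! ### matrices: `G` is the resolvent, `μ` the fluctuation of its diagonal -/

section Mat

variable {X : Type} [Fintype X] [DecidableEq X]

/-- the quadratic form -/
def qf (A : Matrix X X ℝ) (f : X → ℝ) : ℝ := ∑ a, f a * (A *ᵥ f) a

/-- the orthogonal projection onto the constants -/
def P0 (X : Type) [Fintype X] : Matrix X X ℝ := fun _ _ => (Fintype.card X : ℝ)⁻¹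

/-- the Laplacian with the conductances `K` -/
def Dl (K : Matrix X X ℝ) : Matrix X X ℝ := Matrix.diagonal (fun a => ∑ b, K a b) - K

/-- the derivative `- G E_c G` of `G` -/
def gG (G : Matrix X X ℂ) (c : X) : Matrix X X ℂ := fun a b => -(G a c * G c b)

/-- `G φ G` -/
def GD (G : Matrix X X ℂ) (φ : X → ℂ) : Matrix X X ℂ := G * Matrix.diagonal φ * G

/-- `B`, the squares of the entries -/
def BB (G : Matrix X X ℂ) : Matrix X X ℂ := fun a b => G a b ^ 2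

/-- the derivative of `B` -/
def dB (G : Matrix X X ℂ) (c : X) : Matrix X X ℂ := fun a b => -(2 * G a b * G a c * G c b)

/-- `2 G ∘ (G μ G)` -/
def EB (G : Matrix X X ℂ) (μ : X → ℂ) : Matrix X X ℂ := fun a b => 2 * G a b * GD G μ a b

/-- `K = |G|²` entry by entry -/
def KK (G : Matrix X X ℂ) : Matrix X X ℝ := fun a b => ‖G a b‖ ^ 2

/-- the derivative of `K` -/
def dK (G : Matrix X X ℂ) (c : X) : Matrix X X ℝ :=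
  fun a b => -(2 * ((starRingEnd ℂ) (G a b) * G a c * G c b).re)

/-- `2 Re (conj G ∘ (G μ G))` -/
def EK (G : Matrix X X ℂ) (μ : X → ℂ) : Matrix X X ℝ :=
  fun a b => 2 * ((starRingEnd ℂ) (G a b) * GD G μ a b).re

/-- `∂_c φ a` is `QQ a c` -/
def QQ (G Θ : Matrix X X ℂ) (τ : ℝ) (φ : X → ℂ) : Matrix X X ℂ :=
  -(Θ * Matrix.of fun a b => G a b ^ 2 + 2 * τ * G a b * GD G φ a b)

/-- `LL φ` -/
def lph (G Θ : Matrix X X ℂ) (τ : ℝ) (φ μ : X → ℂ) (a : X) : ℂ :=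
  τ * (Θ *ᵥ (EB G μ *ᵥ φ)) a +
    ∑ c, (Θ *ᵥ (((τ : ℂ) • dB G c) *ᵥ fun y => QQ G Θ τ φ y c)) a

/-- the derivative of `G + τ G φ G`; `Q a c` is the derivative of `φ a` -/
def dX (G Q : Matrix X X ℂ) (τ : ℝ) (φ : X → ℂ) (c : X) : Matrix X X ℂ :=
  gG G c + (τ : ℂ) • (gG G c * Matrix.diagonal φ * G + G * Matrix.diagonal φ * gG G c +
    GD G fun y => Q y c)

/-- `LL` of `G + τ G φ G`, if `LL φ = ψ` -/
def lX (G Q : Matrix X X ℂ) (τ : ℝ) (φ μ ψ : X → ℂ) : Matrix X X ℂ :=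
  (τ : ℂ) • (GD G ψ + G * Matrix.diagonal μ * GD G φ + GD G φ * Matrix.diagonal μ * G +
    ∑ c, (gG G c * Matrix.diagonal (fun y => Q y c) * G +
      G * Matrix.diagonal (fun y => Q y c) * gG G c))

/-- `LL` of `∑_b K(a, b)²` -/
def lLa (G : Matrix X X ℂ) (μ : X → ℂ) (a : X) : ℝ :=
  4 * (KK G * KK G * KK G) a a + 2 * (KK G * EK G μ) a a +
    2 * (∑ b, ∑ c, (starRingEnd ℂ) (BB G a b) * BB G a c * BB G c b).re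

/-- a good point of the flow: `G` is symmetric, `G G^* = Im G / κ`, `τ` is comparable with `κ`, the
row sums of `τ |G|²` are nearly one, the fluctuations `μ` are small, the entries of `G` are bounded,
and small outside of the near sets `𝒩 a` -/
structure GdM (G : Matrix X X ℂ) (μ : X → ℂ) (𝒩 : X → Finset X) (κ τ δ N C₀ : ℝ) : Prop where
  hκ : 0 < κ ∧ κ ≤ 1 ∧ 0 < τ ∧ κ ≤ C₀ * τ ∧ τ ≤ C₀ * κ
  hδ : 0 ≤ δ ∧ C₀ * δ ≤ 1 / 2 ∧ 1 ≤ N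
  hs : ∀ a b, G a b = G b a
  hw : ∀ a b, (κ : ℂ) * ∑ c, G a c * (starRingEnd ℂ) (G b c) = ((G a b).im : ℂ)
  hk : ∀ a, |τ * ∑ b, ‖G a b‖ ^ 2 - 1| ≤ C₀ * δ
  hμ : ∀ a, ‖μ a‖ ≤ C₀ * δ
  hG : ∀ a b, ‖G a b‖ ≤ C₀
  hn : ∀ a b, (b ∈ 𝒩 a ↔ a ∈ 𝒩 b) ∧ (b ∉ 𝒩 a → ‖G a b‖ ≤ C₀ * δ)
  hN : ∀ a, ((𝒩 a).card : ℝ) ≤ N

end Mat

/-! ### the flow on the torus -/

/-- the parameters: the final energy is `E + i η`, the variance is `T`, the self-energy `m`; `δ` bounds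
the fluctuations, `N` is the number of the near points, `π` the relative number of the low
momenta, `S` a Fourier multiplier, `Pl` the projection onto the low momenta -/
structure Dat (d M : ℕ) where
  E : ℝ
  η : ℝ
  T : ℝ
  m : ℂ
  δ : ℝ
  ε₁ : ℝ
  e₀ : ℝ
  e₁ : ℝ
  ϖ : ℝ
  L₀ : ℝ
  N : ℝ
  π₀ : ℝ
  S : Matrix (Tor d M) (Tor d M) ℝ
  Pl : Matrix (Tor d M) (Tor d M) ℝ
  j : ℕ
  p : ℕ

variable {d M : ℕ} [NeZero M]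

namespace Dat

variable (D : Dat d M)

/-- the imaginary part of the energy at the time `t` -/
def kp (t : ℝ) : ℝ := D.η + (D.T - t) * D.m.im

/-- `τ = κ / Im m` -/
def ta (t : ℝ) : ℝ := D.kp t / D.m.im

/-- the energy at the time `t` -/
def zt (t : ℝ) : ℂ := ⟨D.E, D.η⟩ + ((D.T - t : ℝ) : ℂ) * D.m

/-- the initial imaginary part -/
def w : ℝ := D.kp 0

/-- the resolvent -/
def G (r : ℝ × (Tor d M → ℝ)) : Matrix (Tor d M) (Tor d M) ℂ := rs r.2 (D.zt r.1)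

/-- the free resolvent -/
def G0 : Matrix (Tor d M) (Tor d M) ℂ := rs (0 : Tor d M → ℝ) (D.zt 0)

/-- the near points -/
def nr (a : Tor d M) : Finset (Tor d M) := by
  classical
  exact Finset.univ.filter fun b => D.δ < ‖D.G0 a b‖

/-- the fluctuation of the diagonal -/
def mu (r : ℝ × (Tor d M → ℝ)) (a : Tor d M) : ℂ := D.G r a a - D.m

/-- `Y = τ B` -/
def Y (r : ℝ × (Tor d M → ℝ)) : Matrix (Tor d M) (Tor d M) ℂ := (D.ta r.1 : ℂ) • BB (D.G r)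

/-- `Θ = (1 - Y)⁻¹` -/
def Th (r : ℝ × (Tor d M → ℝ)) : Matrix (Tor d M) (Tor d M) ℂ := (1 - D.Y r)⁻¹

/-- `φ = Θ μ` -/
def ph (r : ℝ × (Tor d M → ℝ)) : Tor d M → ℂ := D.Th r *ᵥ D.mu r

/-- `G + τ G φ G - G₀` -/
def Xh (r : ℝ × (Tor d M → ℝ)) : Matrix (Tor d M) (Tor d M) ℂ :=
  D.G r + (D.ta r.1 : ℂ) • GD (D.G r) (D.ph r) - D.G0

/-- `∑_b |G(a, b)|⁴` -/
def La (r : ℝ × (Tor d M → ℝ)) (a : Tor d M) : ℝ := ∑ b, KK (D.G r) a b ^ 2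

/-- the bound for `La` -/
def Ls (t : ℝ) : ℝ := D.L₀ * (D.N + D.π₀ / D.kp t ^ 2 + D.δ ^ 4 / D.kp t)

/-- the Laplacian `τ (diag (K 1) - K)` -/
def X (r : ℝ × (Tor d M → ℝ)) : Matrix (Tor d M) (Tor d M) ℝ := D.ta r.1 • Dl (KK (D.G r))

/-- `e₀ + τ S` -/
def A (t : ℝ) : Matrix (Tor d M) (Tor d M) ℝ := D.e₀ • (1 : Matrix (Tor d M) (Tor d M) ℝ) + D.ta t • D.S

/-- `(X + P0 + ϖ)⁻¹` -/
def W (r : ℝ × (Tor d M → ℝ)) : Matrix (Tor d M) (Tor d M) ℝ :=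
  (D.X r + P0 (Tor d M) + D.ϖ • (1 : Matrix (Tor d M) (Tor d M) ℝ))⁻¹

/-- the part of `φ` -/
def U1 (r : ℝ × (Tor d M → ℝ)) : ℝ := ∑ a, (‖D.ph r a‖ ^ 2 / D.δ ^ 2) ^ D.j

/-- the part of `Xh` -/
def U2 (r : ℝ × (Tor d M → ℝ)) : ℝ := ∑ a, ∑ b, (‖D.Xh r a b‖ ^ 2 / D.δ ^ 2) ^ D.j

/-- the part of `Y` -/
def U3 (r : ℝ × (Tor d M → ℝ)) : ℝ :=
  (Matrix.trace ((D.Y r * (D.Y r)ᴴ) ^ D.j)).re / D.ε₁ ^ (2 * D.j)

/-- the part of `La` -/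
def U4 (r : ℝ × (Tor d M → ℝ)) : ℝ := ∑ a, (D.La r a / D.Ls r.1) ^ D.j

/-- the part of `W` -/
def U5 (r : ℝ × (Tor d M → ℝ)) : ℝ := Matrix.trace (((D.A r.1)⁻¹ * D.W r) ^ D.p)

/-- the functional -/
def U (r : ℝ × (Tor d M → ℝ)) : ℝ := D.U1 r + D.U2 r + D.U3 r + D.U4 r + D.U5 r

/-- bounds `kp t * Ls t` -/
def ch : ℝ := D.L₀ * (D.N * D.w + D.π₀ / D.η + D.δ ^ 4)

/-- the size of the errors: `LL U` is at most `aN / κ` times `U`, nearly -/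
def aN : ℝ :=
  D.j * (D.δ + Real.sqrt D.ch / D.δ + D.δ / D.ε₁) +
    D.j ^ 2 * (D.ch / D.δ ^ 2 + (D.N * D.w + D.δ ^ 2) / D.ε₁ ^ 2 + 1 / Real.sqrt D.L₀ + D.ε₁ +
      (D.e₀ - 1)) +
    D.p * D.δ + D.p ^ 2 * (D.N * D.w + D.δ ^ 2 + D.π₀ / D.η)

/-- the additive errors -/
def bN : ℝ := 2 * ((M : ℝ) ^ d) ^ 2 * ((1 / 4) ^ D.j + (1 / D.e₁) ^ D.p)

end Dat

/-- the hypotheses on the parameters and the initial values; `c₁ ≤ 1 ≤ C₁`, `c₀` is small -/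
structure Adm (D : Dat d M) (c₁ C₁ c₀ : ℝ) (k₀ : ℕ) : Prop where
  hT : 0 < D.T ∧ 0 < D.η ∧ D.w ≤ 1 ∧ D.η ≤ D.T
  hm : c₁ ≤ D.m.im ∧ D.m.im ≤ C₁
  hfix : ∀ a, D.G0 a a = D.m
  hδ : 0 < D.δ ∧ D.δ ≤ D.ε₁ ∧ D.ε₁ ≤ c₀
  hk : (M : ℝ) ^ d * D.ε₁ ^ (2 * k₀) ≤ 1 / 4
  he : 1 < D.e₁ ∧ D.e₁ ≤ D.e₀ ∧ D.e₀ ≤ 2
  hj : 2 ≤ D.j ∧ 2 ≤ D.p ∧ 1 ≤ D.L₀ ∧ 1 ≤ D.N ∧ 0 ≤ D.π₀
  h0 : ∀ a b, ‖D.G0 a b‖ ≤ C₁
  hN : ∀ a, ((D.nr a).card : ℝ) ≤ D.N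
  hY : ∀ u, n2 (D.Y 0 *ᵥ u) ≤ (D.ε₁ / 2) ^ 2 * n2 u
  hL : ∀ a, 4 * D.La 0 a ≤ D.Ls 0
  hS : (∀ a b, D.S a b = D.S b a) ∧ (∀ f, 0 ≤ qf D.S f) ∧ (∀ a, ∑ b, D.S a b = 0) ∧
    ∀ a, D.w * D.S a a ≤ D.π₀
  hP : (∀ a b, D.Pl a b = D.Pl b a) ∧ D.Pl * D.Pl = D.Pl ∧ (∀ a, D.Pl a a ≤ D.π₀) ∧
    (∀ a, ∑ b, D.Pl a b = 1) ∧ D.S * D.Pl = D.S
  hϖ : 0 < D.ϖ ∧ D.ϖ ≤ D.δ ∧ ∀ f, D.ϖ * qf (D.A 0) f ≤ D.δ * ∑ a, f a ^ 2
  hW : ∀ f, D.e₁ * qf (D.A 0)⁻¹ f ≤ qf (D.X 0 + P0 (Tor d M)) f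

/-! ### Fourier multipliers, the initial values -/

/-- the Fourier multiplier with the even real symbol `s` -/
def mlt (s : Tor d M → ℝ) : Matrix (Tor d M) (Tor d M) ℝ :=
  fun x y => (∑ p, s p * (ec p (x - y)).re) / (M : ℝ) ^ d

/-- the Fourier transform of `kk ζ` -/
def kf (ζ : ℂ) (p : Tor d M) : ℝ := ∑ x : Tor d M, kk ζ x * (ec p x).re

/-- the mean of `e^{2 i Re (a u)}` over the `M`-th roots of unity `u` -/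
def jc (M : ℕ) [NeZero M] (a : ℂ) : ℂ :=
  (∑ k : ZMod M, Complex.exp (Complex.I * ((2 * (a * ZMod.stdAddChar k).re : ℝ) : ℂ))) / (M : ℂ)

/-- the Fourier transform of `|G₀|²`, in the momenta -/
def kh (z : ℂ) (p : Tor d M) : ℂ :=
  (∑ k, ((es k : ℂ) - z)⁻¹ * (starRingEnd ℂ) (((es (k + p) : ℂ) - z)⁻¹)) / (M : ℂ) ^ d

/-- the Fourier transform of `G₀²`, in the momenta -/
def bh (z : ℂ) (p : Tor d M) : ℂ :=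
  (∑ k, ((es k : ℂ) - z)⁻¹ * ((es (p - k) : ℂ) - z)⁻¹) / (M : ℂ) ^ d

/-- the symbol of `S`: `cs (1 / w + w / ds)` for the low momenta `≠ 0` -/
def sy0 (cs w : ℝ) (J : ℕ) (p : Tor d M) : ℝ :=
  if p ∈ low d M J ∧ p ≠ 0 then cs * (1 / w + w / ds p) else 0

end Pool.Agent.LE.QF
end
end -- Pool.Agent.LE.DefsQF

section -- Pool.Agent.LE.StmtsQF

/-!
# Diffusion down to the scale `η = |σ|^{2 d - ε}`; `γ(σ, E) ≤ C |σ|^{d + 1 - ε}` in the bulk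

Part 1: calculus of jets, jets of the matrices of the flow, bounds at a point. Part 2 is
`StmtsQG.lean` (the functional), part 3 `StmtsQH.lean` (initial values, numbers, final theorem
`QffStmt`: for `d ≥ 3`, `|σ|^{2 - ε} ≤ |E| ≤ 2 d - a`, `0 < |σ| ≤ c` the Lyapunov exponent is at most
`C |σ|^{d + 1 - ε}`).

MAIN IDEA. On the torus let `V_t` be Gaussian with the variance `t`, `0 ≤ t ≤ T = σ²`, and
`G = (H₀ + V_t - z_t)⁻¹`, `z_t = E + i η + (T - t) m`, where `m` is the self-energy: `m = G₀(0, 0)`,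
`G₀ = (H₀ - z_0)⁻¹`. `κ = Im z_t` decreases from `w ~ σ²` to `η`, `τ = κ / Im m`. With
`L = (1/2) ∑ ∂_c² + ∂_t` one has `d/dt E F(t, V_t) = E L F`, `L G = G μ G`, `μ = G(a, a) - m`,
`L K = K² + E_K` (`K = |G|²`), `L B = B² + E_B` (`B = G ∘ G`).

(1) `Y = τ B` contracts: `L Y = - (1/τ) Y (1 - Y) + …`. `φ = (1 - Y)⁻¹ μ` and `Xh = G + τ G φ G - G₀`
have only second order drifts, so they stay small: `|φ|, |Xh| ≤ δ`.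

(2) The Laplacian `X = τ (diag (K 1) - K)` satisfies the Riccati inequality
`L X ≥ (1/τ) ((1 - C δ) X - X²)` in the sense of forms, with a noise which is small relative to `X`. So
`W = (X + P0)⁻¹` satisfies `L W ≤ - W/τ + 1/τ + …`, and `W ≤ A = e₀ + τ S` is preserved, `S` = the
multiplier `w / |p|²` on the low momenta `|p| ≤ w^{1-}`. This is diffusion: `X ≥ (e₀ + τ S)⁻¹`, for all
functions at once. It needs only `∑ N_c A N_c ≤ ν X`, `ν = C (N + δ²/κ + π₀/κ²)`, `∫ ν dt` small, and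
`π₀ = w^{d-}` is the number of the low momenta: so `κ` may go down to `w^{d-}`.

(3) `Λ(a) = ∑_b K(a, b)²` controls the noise of `φ`; its drift is `4 K³(a, a) + …`, where only the low
momenta matter, by (2).

(4) A functional `U` (high powers, traces of high powers) with `L U ≤ small / κ · U` wherever `U < 1`;
so `U < 1` at the end with large probability, by looking at one time only (`UflStmt`: `g(U)` with `g`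
concave, constant for `U ≥ 1`).

(5) At the end: the form bound for the indicator of a set `C'` gives
`∑_{x, y ∈ C'} |G(x, y)|² ≤ |σ|^θ |C'| / η` for all sets with `|C'| ≤ |σ|^{-d (d + 1 - ε)}`. Then the
clusters grow up to this size, as in `StmtsQE.lean`.
-/

set_option autoImplicit false

open MeasureTheory ProbabilityTheory Function Filter

open scoped ENNReal BigOperators Topology NNReal ComplexOrder Matrix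

noncomputable section

namespace Pool.Agent.LE.QF

open Pool.Agent.Anderson hiding box mem_box card_box
open Pool.Agent.Loc Pool.Agent.Mob Pool.Agent.Helper54.Bal
  Pool.Agent.Helper96.EXP Pool.Agent.BED
open Pool.Agent.LE.MN Pool.Agent.LE.CL Pool.Agent.LE.IR Pool.Agent.LE.QD

/-! ### A. Calculus -/

/-- JAL: algebra of jets. Proof: calculus: `ContDiffAt ℝ 2` is preserved; near `q` the derivatives are
given by the product and the chain rule (`F` is differentiable in a neighbourhood), so the second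
derivatives at `q` may be computed. Product: `∂_c² (F H) = F ∂_c² H + 2 ∂_c F ∂_c H + H ∂_c² F`. A function
of the time: `fderiv` in the direction `(1, 0)` is `deriv`, zero in the others. Composition:
`∂_c² f(F) = f'(F) ∂_c² F + f''(F) (∂_c F)²`. -/
def JalStmt : Prop :=
  ∀ (ι : Type) [Fintype ι] [DecidableEq ι] (𝕜 : Type) [RCLike 𝕜] (q : ℝ × (ι → ℝ)),
    (∀ v : 𝕜, HJ (fun _ => v) q v (fun _ => 0) 0) ∧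
    (∀ c : ι, HJ (fun r => ((r.2 c : ℝ) : 𝕜)) q ((q.2 c : ℝ) : 𝕜)
      (fun c' => if c' = c then 1 else 0) 0) ∧
    (∀ (F H : ℝ × (ι → ℝ) → 𝕜) (v v' l l' : 𝕜) (g g' : ι → 𝕜), HJ F q v g l → HJ H q v' g' l' →
      HJ (fun r => F r + H r) q (v + v') (fun c => g c + g' c) (l + l') ∧
      HJ (fun r => F r - H r) q (v - v') (fun c => g c - g' c) (l - l') ∧
      HJ (fun r => F r * H r) q (v * v') (fun c => v * g' c + g c * v')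
        (v * l' + l * v' + ∑ c, g c * g' c)) ∧
    (∀ (F : ℝ × (ι → ℝ) → 𝕜) (v l : 𝕜) (g : ι → 𝕜), HJ F q v g l →
      HJ (fun r => (starRingEnd 𝕜) (F r)) q ((starRingEnd 𝕜) v) (fun c => (starRingEnd 𝕜) (g c))
        ((starRingEnd 𝕜) l) ∧
      HJ (fun r => RCLike.re (F r)) q (RCLike.re v) (fun c => RCLike.re (g c)) (RCLike.re l) ∧
      HJ (fun r => -F r) q (-v) (fun c => -g c) (-l)) ∧
    (∀ (F : ℝ × (ι → ℝ) → ℝ) (v l : ℝ) (g : ι → ℝ), HJ F q v g l →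
      HJ (fun r => ((F r : ℝ) : 𝕜)) q ((v : ℝ) : 𝕜) (fun c => ((g c : ℝ) : 𝕜)) ((l : ℝ) : 𝕜) ∧
      ∀ f : ℝ → ℝ, ContDiffAt ℝ 2 f v →
        HJ (fun r => f (F r)) q (f v) (fun c => deriv f v * g c)
          (deriv f v * l + deriv (deriv f) v / 2 * ∑ c, g c ^ 2)) ∧
    (∀ (κ : Type) (s : Finset κ) (F : κ → ℝ × (ι → ℝ) → 𝕜) (v l : κ → 𝕜) (g : κ → ι → 𝕜),
      (∀ k ∈ s, HJ (F k) q (v k) (g k) (l k)) →
        HJ (fun r => ∑ k ∈ s, F k r) q (∑ k ∈ s, v k) (fun c => ∑ k ∈ s, g k c) (∑ k ∈ s, l k)) ∧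
    (∀ f : ℝ → 𝕜, ContDiffAt ℝ 2 f q.1 →
      HJ (fun r => f r.1) q (f q.1) (fun _ => 0) (deriv f q.1)) ∧
    ∀ (F H : ℝ × (ι → ℝ) → 𝕜) (v v' l l' : 𝕜) (g g' : ι → 𝕜), HJ F q v g l → HJ H q v' g' l' →
      F =ᶠ[𝓝 q] H → v = v' ∧ g = g' ∧ l = l'

/-- JMA: algebra of matrix jets. Proof: `JalStmt`. The inverse: the entries of `(F r)⁻¹` are twice
continuously differentiable near `q` (`adjugate / det`, or `contDiffAt_ringInverse`), so it has a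
jet `(v⁻¹, g', l')`; the product rule for `F r * (F r)⁻¹ = 1` gives `v g' + g v⁻¹ = 0`,
`v l' + l v⁻¹ + ∑ g g' = 0`. The trace of the power: `L (R^k) = ∑_i R^i (L R) R^{k-1-i} +
∑_c ∑_{i<j} R^i R_c R^{j-i-1} R_c R^{k-1-j}`; in the trace the pairs with `j - i - 1 = a` occur
`k - 1 - a` times, and `a → k - 2 - a` is a symmetry. -/
def JmaStmt : Prop :=
  ∀ (ι : Type) [Fintype ι] [DecidableEq ι] (𝕜 : Type) [RCLike 𝕜] (q : ℝ × (ι → ℝ)),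
    (∀ (a b n : Type) [Fintype b] (F : ℝ × (ι → ℝ) → Matrix a b 𝕜) (H : ℝ × (ι → ℝ) → Matrix b n 𝕜)
      (v l : Matrix a b 𝕜) (v' l' : Matrix b n 𝕜) (g : ι → Matrix a b 𝕜) (g' : ι → Matrix b n 𝕜),
      HM F q v g l → HM H q v' g' l' →
        HM (fun r => F r * H r) q (v * v') (fun c => v * g' c + g c * v')
          (v * l' + l * v' + ∑ c, g c * g' c)) ∧
    ∀ (n : Type) [Fintype n] [DecidableEq n] (F : ℝ × (ι → ℝ) → Matrix n n 𝕜) (v l : Matrix n n 𝕜)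
      (g : ι → Matrix n n 𝕜), HM F q v g l →
      (IsUnit v.det → HM (fun r => (F r)⁻¹) q v⁻¹ (fun c => -(v⁻¹ * g c * v⁻¹))
        (-(v⁻¹ * l * v⁻¹) + ∑ c, v⁻¹ * g c * v⁻¹ * g c * v⁻¹)) ∧
      ∀ k : ℕ, 2 ≤ k → HJ (fun r => Matrix.trace (F r ^ k)) q (Matrix.trace (v ^ k))
        (fun c => k * Matrix.trace (v ^ (k - 1) * g c))
        (k * Matrix.trace (v ^ (k - 1) * l) +
          k / 2 * ∑ c, ∑ i ∈ Finset.range (k - 1), Matrix.trace (g c * v ^ i * g c * v ^ (k - 2 - i)))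

/-- TRI: a trace inequality. Proof: in an eigenbasis of `v` with the eigenvalues `x_a` the left side is
`∑_i ∑_{a, b} |g a b|² x_a^{k-i} x_b^i` (or `i` and `k - i` exchanged), `0 ≤ i ≤ k`; for each `i` add the
term `k - i`: `|x|^i |y|^{k-i} + |x|^{k-i} |y|^i ≤ |x|^k + |y|^k`, and `|x|^k = x^k` if `k` is even or
`x ≥ 0`. (As in `Helper64`'s `NckStmt`, `H64R.nck`.) -/
def TriStmt : Prop :=
  ∀ (𝕜 : Type) [RCLike 𝕜] (n : Type) [Fintype n] [DecidableEq n] (v g : Matrix n n 𝕜) (k : ℕ),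
    v.IsHermitian → g.IsHermitian → (v.PosSemidef ∨ Even k) →
      RCLike.re (∑ i ∈ Finset.range (k + 1), Matrix.trace (g * v ^ i * g * v ^ (k - i))) ≤
        (k + 1) * RCLike.re (Matrix.trace (v ^ k * (g * g)))

/-- YTJ: the jet of `tr (F F^*)^k`. Proof: let `H = fromBlocks 0 F F^* 0` (Hermitian), so
`tr H^{2k} = 2 Re tr (F F^*)^k`; `JmaStmt` for `H` with the power `2 k`, and `TriStmt` with `2 k - 2`
for every `c`: the second order part is at most `k (2k - 1) ∑_c tr (H^{2k-2} H_c²)`,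
`H^{2k-2} = fromBlocks ((F F^*)^{k-1}) 0 0 ((F^* F)^{k-1})`,
`H_c² = fromBlocks (g_c g_c^*) 0 0 (g_c^* g_c)`, and
`tr (P ∑ g_c g_c^*) ≤ ν tr P` for `P ≥ 0`; `tr (F^* F)^{k-1} = tr (F F^*)^{k-1}` (`k = 1`: both are the
dimension). `tr (H^{2k-1} H_l) = 2 Re tr ((F F^*)^{k-1} l F^*)`. -/
def YtjStmt : Prop :=
  ∀ (ι : Type) [Fintype ι] [DecidableEq ι] (q : ℝ × (ι → ℝ))
    (n : Type) [Fintype n] [DecidableEq n] (F : ℝ × (ι → ℝ) → Matrix n n ℂ) (v l : Matrix n n ℂ)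
    (g : ι → Matrix n n ℂ) (k : ℕ) (ν : ℝ), HM F q v g l → 1 ≤ k → 0 ≤ ν →
    (∀ u : n → ℂ, ∑ c, n2 (g c *ᵥ u) ≤ ν * n2 u) →
    (∀ u : n → ℂ, ∑ c, n2 ((g c)ᴴ *ᵥ u) ≤ ν * n2 u) →
      ∃ (g' : ι → ℝ) (l' : ℝ), HJ (fun r => (Matrix.trace ((F r * (F r)ᴴ) ^ k)).re) q
        (Matrix.trace ((v * vᴴ) ^ k)).re g' l' ∧
        l' ≤ 2 * k * (Matrix.trace ((v * vᴴ) ^ (k - 1) * l * vᴴ)).re +
          k * (2 * k - 1) * ν * (Matrix.trace ((v * vᴴ) ^ (k - 1))).re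

/-- FLW: the flow. Proof: let `ρ` be a smooth function on `ι → ℝ` with values in `[0, 1]`, `ρ = 1` on
the ball of radius `r`, `0` outside of the ball of radius `2 r`, `|∇ρ| ≤ C / r`, `|Δρ| ≤ C / r²`;
`H = ρ F` and `u(t) = E H(t, √t ξ)`, `ξ` standard Gaussian. For `0 < t < T` one may differentiate under
the integral (`H` is `C²`, and zero for large `V`): `u' = E (∂_t H + ξ · ∇H / (2 √t)) = E LL H`, by
integration by parts in every coordinate (as `SteStmt`). `LL H = ρ LL F + F Δρ / 2 + ∇ρ · ∇F`, and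
`E ∇ρ · ∇F = E div (F ∇ρ) - E F Δρ = (1/t) E (V · ∇ρ) F - E F Δρ` (integration by parts again), so
`u' ≤ a(t) u + b(t) + C / r² + C / (r √t)` (`E |V| ≤ C √t`). So `u(t) exp (- ∫_0^t a)` minus the integral of
the rest is nonincreasing on `(0, T)`; `u` is continuous on `[0, T]`. Let `r → ∞` (dominated
convergence). -/
def FlwStmt : Prop :=
  ∀ (ι : Type) [Fintype ι] [DecidableEq ι] (T : ℝ) (a b : ℝ → ℝ) (F : ℝ × (ι → ℝ) → ℝ), 0 < T →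
    Continuous a → Continuous b → (∀ t, 0 ≤ a t ∧ 0 ≤ b t) →
    (∀ q : ℝ × (ι → ℝ), 0 ≤ q.1 → q.1 ≤ T → ContDiffAt ℝ 2 F q ∧ 0 ≤ F q ∧ F q ≤ 1 ∧
      LL F q ≤ a q.1 * F q + b q.1) →
      ∫ V, F (T, V) ∂(Measure.pi fun _ : ι => gaussianReal 0 T.toNNReal) ≤
        Real.exp (∫ t in (0 : ℝ)..T, a t) * (F (0, 0) + ∫ t in (0 : ℝ)..T, b t)

/-- UFL: the functional. Proof: `g(u) = 1 - (1 - u)³` for `u ≤ 1`, `1` for `u ≥ 1`: it is `C²`, `g' =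
3 (1 - u)²`, `g'' = - 6 (1 - u)` for `u ≤ 1`. `F = g ∘ u`. If `u ≥ 1` near `q` then `F = 1` near `q`. If
`u` is `C²` at `q`: `LL F = g'(u) LL u + (1/2) g''(u) |∇u|²`, zero if `u q ≥ 1`, and at most
`3 (1 - u)² (a u + b) ≤ 3 a F + 3 b` if `u q < 1` (`u ≤ g(u)` on `[0, 1]`). `FlwStmt` with `3 a`, `3 b`;
`F (0, 0) ≤ 3 u (0, 0)`; Markov: `F = 1` where `u ≥ 1`. -/
def UflStmt : Prop :=
  ∀ (ι : Type) [Fintype ι] [DecidableEq ι] (T : ℝ) (a b : ℝ → ℝ)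
    (u : ℝ × (ι → ℝ) → ℝ), 0 < T → Continuous a → Continuous b → (∀ t, 0 ≤ a t ∧ 0 ≤ b t) →
    (∀ q : ℝ × (ι → ℝ), 0 ≤ q.1 → q.1 ≤ T → 0 ≤ u q ∧ ((∀ᶠ r in 𝓝 q, 1 ≤ u r) ∨
      (ContDiffAt ℝ 2 u q ∧ (u q < 1 → LL u q ≤ a q.1 * u q + b q.1)))) →
      (Measure.pi fun _ : ι => gaussianReal 0 T.toNNReal) {V | 1 ≤ u (T, V)} ≤
        ENNReal.ofReal (Real.exp (3 * ∫ t in (0 : ℝ)..T, a t) *
          (3 * u (0, 0) + 3 * ∫ t in (0 : ℝ)..T, b t))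

/-! ### B. Jets of the matrices of the flow. `Gm` is a function with the jet of the resolvent,
`ta' = - 1`. -/

/-- the hypotheses of the rows of part B -/
structure JHyp {X : Type} [Fintype X] [DecidableEq X] (q : ℝ × (X → ℝ))
    (Gm : ℝ × (X → ℝ) → Matrix X X ℂ) (ta : ℝ → ℝ) (G : Matrix X X ℂ) (m : ℂ) (τ : ℝ) : Prop where
  hG : HM Gm q G (gG G) (GD G fun a => G a a - m)
  hs : ∀ a b, G a b = G b a
  ht : ContDiffAt ℝ 2 ta q.1 ∧ ta q.1 = τ ∧ deriv ta q.1 = -1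

/-- JTB. Proof: `JalStmt`. `LL (G a b ^ 2) = 2 G a b (G μ G) a b + ∑_c (G a c G c b)²`;
`LL |G a b|² = 2 Re (conj (G a b) (G μ G) a b) + ∑_c |G a c G c b|²`. In `τ B`: `LL (τ B) = - B + τ LL B`. -/
def JtbStmt : Prop :=
  ∀ (X : Type) [Fintype X] [DecidableEq X] (q : ℝ × (X → ℝ))
    (Gm : ℝ × (X → ℝ) → Matrix X X ℂ) (ta : ℝ → ℝ) (G : Matrix X X ℂ) (m : ℂ) (τ : ℝ)
    (μ : X → ℂ), JHyp q Gm ta G m τ → (μ = fun a => G a a - m) →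
    HM (fun r => BB (Gm r)) q (BB G) (dB G) (BB G * BB G + EB G μ) ∧
    HM (fun r => KK (Gm r)) q (KK G) (dK G) (KK G * KK G + EK G μ) ∧
    (∀ a, HJ (fun r => Gm r a a - m) q (μ a) (fun c => -BB G a c) ((BB G *ᵥ μ) a)) ∧
    HM (fun r => (ta r.1 : ℂ) • BB (Gm r)) q ((τ : ℂ) • BB G) (fun c => (τ : ℂ) • dB G c)
      (-BB G + (τ : ℂ) • (BB G * BB G + EB G μ)) ∧
    HM (fun r => ta r.1 • Dl (KK (Gm r))) q (τ • Dl (KK G)) (fun c => τ • Dl (dK G c))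
      (τ • Dl (KK G * KK G + EK G μ) - Dl (KK G))

/-- JTP: the jet of `φ = Θ μ`, `Θ = (1 - τ B)⁻¹`. Proof: `JtbStmt`, `JmaStmt` (inverse): `∂_c Θ =
Θ (∂_c Y) Θ`, `LL Θ = Θ (LL Y) Θ + ∑_c Θ (∂_c Y) Θ (∂_c Y) Θ`, `LL Y = - B (1 - Y) + τ E_B`. So
`∂_c φ = Θ ((∂_c Y) φ - B e_c) = QQ e_c`, because `((∂_c Y) φ) a = - 2 τ G a c (G φ G) a c`. And
`LL φ = (LL Θ) μ + Θ B μ + ∑_c (∂_c Θ)(- B e_c) = - Θ B μ + τ Θ E_B φ + Θ B μ + ∑_c Θ (∂_c Y)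
(Θ ((∂_c Y) φ - B e_c))`. (Checked numerically.) -/
def JtpStmt : Prop :=
  ∀ (X : Type) [Fintype X] [DecidableEq X] (q : ℝ × (X → ℝ))
    (Gm : ℝ × (X → ℝ) → Matrix X X ℂ) (ta : ℝ → ℝ) (G Θ : Matrix X X ℂ) (m : ℂ) (τ : ℝ)
    (μ : X → ℂ), JHyp q Gm ta G m τ → (μ = fun a => G a a - m) →
    IsUnit (1 - (τ : ℂ) • BB G).det → Θ = (1 - (τ : ℂ) • BB G)⁻¹ → ∀ a,
      HJ (fun r => ((1 - (ta r.1 : ℂ) • BB (Gm r))⁻¹ *ᵥ fun b => Gm r b b - m) a) q ((Θ *ᵥ μ) a)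
        (fun c => QQ G Θ τ (Θ *ᵥ μ) a c) (lph G Θ τ (Θ *ᵥ μ) μ a)

/-- JTX: the jet of `G + τ G φ G - G₀`. Proof: `JalStmt`, `JmaStmt`. `LL (τ G φ G) = - G φ G +
τ (G μ G φ G + G φ G μ G + G (LL φ) G + ∑_c (∂_c G) φ (∂_c G) + ∑_c ((∂_c G)(∂_c φ) G +
G (∂_c φ)(∂_c G)))`, `∑_c (∂_c G) φ (∂_c G) = G diag (B φ) G`, and `G μ G - G φ G + τ G diag (B φ) G = 0` by
the hypothesis. (Checked numerically.) -/
def JtxStmt : Prop :=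
  ∀ (X : Type) [Fintype X] [DecidableEq X] (q : ℝ × (X → ℝ))
    (Gm : ℝ × (X → ℝ) → Matrix X X ℂ) (ta : ℝ → ℝ) (G G₀ Q : Matrix X X ℂ) (m : ℂ) (τ : ℝ)
    (ph : ℝ × (X → ℝ) → X → ℂ) (μ φ ψ : X → ℂ), JHyp q Gm ta G m τ → (μ = fun a => G a a - m) →
    (∀ a, HJ (fun r => ph r a) q (φ a) (fun c => Q a c) (ψ a)) →
    (∀ a, μ a = φ a - τ * (BB G *ᵥ φ) a) →
      HM (fun r => Gm r + (ta r.1 : ℂ) • GD (Gm r) (ph r) - G₀) q (G + (τ : ℂ) • GD G φ - G₀)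
        (dX G Q τ φ) (lX G Q τ φ μ ψ)

/-- JTL: the jet of `Λ(a) = ∑_b K(a, b)²`. Proof: `JtbStmt`: `LL Λ = ∑_b 2 K a b (K² + E_K) a b +
∑_b ∑_c (dK c a b)²`, and `(dK c a b)² = 2 K a b K a c K c b + 2 Re (conj (B a b) B a c B c b)`
(`4 (Re z)² = 2 |z|² + 2 Re z²`). (Checked numerically.) -/
def JtlStmt : Prop :=
  ∀ (X : Type) [Fintype X] [DecidableEq X] (q : ℝ × (X → ℝ))
    (Gm : ℝ × (X → ℝ) → Matrix X X ℂ) (ta : ℝ → ℝ) (G : Matrix X X ℂ) (m : ℂ) (τ : ℝ)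
    (μ : X → ℂ), JHyp q Gm ta G m τ → (μ = fun a => G a a - m) → ∀ a,
      HJ (fun r => ∑ b, KK (Gm r) a b ^ 2) q (∑ b, KK G a b ^ 2)
        (fun c => 2 * ∑ b, KK G a b * dK G c a b) (lLa G μ a)

/-! ### C. Bounds at a good point -/

/-- NRB: norms. Proof: (1) `κ G G^* = Im G`, so `κ |G^* v|² = Im ⟨v, G v⟩`-type identities give
`|G^* v| ≤ |v| / κ`, and `G` is symmetric. (2) `|∑_c G a c φ c G c b| ≤ s (∑ |G a c|²)^{1/2} (∑ |G b c|²)^{1/2}`,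
`∑_c |G a c|² ≤ 2 / τ`. (3) the row `a` of `G φ G` is `G (φ G e_a)`, so the sum is at most
`κ^{-2} s² ∑_c |G a c|²`. (4) `⟨x, (G ∘ (G μ G)) y⟩ = ∑_c μ c ⟨conj g_c x, G (g_c y)⟩` with the columns
`g_c` of `G` (`(G ∘ (G μ G)) a b = ∑_c μ c G a c G a b G c b`), at most
`δ κ^{-1} ∑_c |g_c x| |g_c y| ≤ C δ κ^{-2} |x| |y|`. (5) `(dB c v) a = - 2 G a c ∑_b G a b G c b v b =
- 2 G a c (G (g_c v)) a`. Near (`a ∈ 𝒩 c`): `|G a c|² ≤ C`, and `|(G (g_c v)) a|² ≤ ∑_b |G a b|²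
∑_b |G c b|² |v b|² ≤ (C/κ) ∑_b K c b |v b|²`; sum over the at most `N` points `a` and over `c`:
`C N κ^{-2} |v|²`. Far: `|G a c|² ≤ C δ²`, `∑_a |(G (g_c v)) a|² ≤ κ^{-2} ∑_b K c b |v b|²`. (6) the same
for `conj (dB c)`, because `dB c` is symmetric. -/
def NrbStmt : Prop :=
  ∀ C₀ : ℝ, 1 ≤ C₀ → ∃ C : ℝ, 1 ≤ C ∧ ∀ (X : Type) [Fintype X] [DecidableEq X]
    (G : Matrix X X ℂ) (μ : X → ℂ) (𝒩 : X → Finset X) (κ τ δ N : ℝ), GdM G μ 𝒩 κ τ δ N C₀ →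
    (∀ v : X → ℂ, n2 (G *ᵥ v) ≤ n2 v / κ ^ 2 ∧ n2 (Gᴴ *ᵥ v) ≤ n2 v / κ ^ 2) ∧
    (∀ (φ : X → ℂ) (s : ℝ), 0 ≤ s → (∀ a, ‖φ a‖ ≤ s) → ∀ a b, ‖GD G φ a b‖ ≤ C * s / κ) ∧
    (∀ (φ : X → ℂ) (s : ℝ), 0 ≤ s → (∀ a, ‖φ a‖ ≤ s) → ∀ a,
      ∑ b, ‖GD G φ a b‖ ^ 2 ≤ C * s ^ 2 / κ ^ 3) ∧
    (∀ v : X → ℂ, n2 (EB G μ *ᵥ v) ≤ (C * δ / κ ^ 2) ^ 2 * n2 v) ∧
    (∀ v : X → ℂ, ∑ c, n2 (dB G c *ᵥ v) ≤ C * (N / κ ^ 2 + δ ^ 2 / κ ^ 3) * n2 v) ∧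
    ∀ v : X → ℂ, ∑ c, n2 ((dB G c)ᴴ *ᵥ v) ≤ C * (N / κ ^ 2 + δ ^ 2 / κ ^ 3) * n2 v

/-- PHB: gradient and drift of `φ`. Proof: `k_a = ∑_b |G a b|² ≤ 2/τ`, `NrbStmt`. Gradient: the rows of
`B + 2 τ G ∘ (G φ G)`: `∑_c |B b c|² ≤ Λ` and `τ² ∑_c K b c |(G φ G) b c|²`: near `N C (C δ)²` (part (2) of
`NrbStmt`), far `C δ² τ² C δ² / κ³`. Multiply by `Θ` (Minkowski: `|∑_b Θ a b x_b| ≤ C₀ max |x_b|`).
Drift: first term: at most `C₀ τ max_a |∑_b 2 G a b (G μ G) a b φ b| ≤ 2 C₀ τ δ k_a^{1/2} (C δ² / κ³)^{1/2} ≤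
C δ² / κ`. Second term: `∑_c ((dB c) Q_c) x = - 2 ∑_{c, y} G x y G x c G c y Q y c`, at most
`2 (∑_{y,c} |G x y|² |Q y c|²)^{1/2} (∑_{y,c} |G x c|² |G c y|²)^{1/2} ≤ 2 ((2/τ) C Λ)^{1/2} (2/τ)`, times
`C₀ τ`. -/
def PhbStmt : Prop :=
  ∀ C₀ : ℝ, 1 ≤ C₀ → ∃ C : ℝ, 1 ≤ C ∧ ∀ (X : Type) [Fintype X] [DecidableEq X]
    (G Θ : Matrix X X ℂ) (μ φ : X → ℂ) (𝒩 : X → Finset X) (κ τ δ N Λ : ℝ),
    GdM G μ 𝒩 κ τ δ N C₀ → (∀ a, ∑ b, ‖Θ a b‖ ≤ C₀) → (∀ a, ‖φ a‖ ≤ δ) →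
    (∀ a, ∑ b, KK G a b ^ 2 ≤ Λ) → δ ^ 2 * N + δ ^ 4 / κ ≤ Λ →
      (∀ a, ∑ c, ‖QQ G Θ τ φ a c‖ ^ 2 ≤ C * Λ) ∧
      ∀ a, ‖lph G Θ τ φ μ a‖ ≤ C * (δ ^ 2 / κ + Real.sqrt (Λ / κ))

/-- XHB: gradient and drift of `G + τ G φ G`. Proof: gradient, entry `(a, b)`: `∑_c |G a c G c b|² ≤ Λ`;
`τ² ∑_c |G a c|² |(G φ G) c b|²` as in `PhbStmt` (near, far: at most `C (N δ² + δ⁴/κ)`), the other similarly;
`τ |∑_y G a y Q y c G y b|` in `ℓ²(c)`: Minkowski, at most `τ ∑_y |G a y| |G y b| max_y |Q y ·| ≤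
2 (C₀ Λ)^{1/2}`. Drift: `τ |(G ψ G) a b| ≤ 2 max |ψ|`; `τ |∑_c G a c μ c (G φ G) c b| ≤ τ C δ (2/τ)^{1/2}
(C δ²/κ³)^{1/2}`; `τ |∑_c ∑_y G a c G c y Q y c G y b| ≤ τ (∑_{c,y} |G a c|² |G c y|²)^{1/2}
(∑_{y,c} |Q y c|² |G y b|²)^{1/2} ≤ τ (2/τ) (C₀ Λ 2/τ)^{1/2}`. -/
def XhbStmt : Prop :=
  ∀ C₀ : ℝ, 1 ≤ C₀ → ∃ C : ℝ, 1 ≤ C ∧ ∀ (X : Type) [Fintype X] [DecidableEq X]
    (G Q : Matrix X X ℂ) (μ φ ψ : X → ℂ) (𝒩 : X → Finset X) (κ τ δ N Λ : ℝ),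
    GdM G μ 𝒩 κ τ δ N C₀ → (∀ a, ‖φ a‖ ≤ δ) → (∀ a, ∑ b, KK G a b ^ 2 ≤ Λ) →
    δ ^ 2 * N + δ ^ 4 / κ ≤ Λ → (∀ a, ∑ c, ‖Q a c‖ ^ 2 ≤ C₀ * Λ) →
    (∀ a, ‖ψ a‖ ≤ C₀ * (δ ^ 2 / κ + Real.sqrt (Λ / κ))) →
      (∀ a b, ∑ c, ‖dX G Q τ φ c a b‖ ^ 2 ≤ C * Λ) ∧
      ∀ a b, ‖lX G Q τ φ μ ψ a b‖ ≤ C * (δ ^ 2 / κ + Real.sqrt (Λ / κ))

/-- LMB: drift and gradient of `Λ(a)`. Proof: `x = K e_a`, `Λ = |x|²`, `k_b ≤ 2/τ`, `|K| ≤ 2/τ`.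
`K³(a, a) = ⟨x, K x⟩`; `x = x_l + x_h`, `x_l = Pl x`: `|x_l| ≤ ∑_b x_b |Pl e_b| ≤ π₀^{1/2} 2/τ` (`|Pl e_b|² =
Pl b b`), so `⟨x, K x⟩ ≤ |K| |x_l|² + 2 |K| |x_l| |x_h| + (ε₃/τ) |x_h|²`. `|∑ conj (B a b) B a c B c b| ≤
(ε₁/τ) Λ`. `|(K E_K) a a| ≤ Λ^{1/2} (∑_b (E_K a b)²)^{1/2}`, `∑_b (E_K a b)² ≤ 4 ∑_b K a b |(G μ G) a b|² ≤
C δ² κ^{-2} (N + δ²/κ)` (near, far, `NrbStmt` (2), (3)). Gradient: `|∑_b K a b dK c a b| ≤ 2 |G a c|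
|∑_b K a b conj (G a b) G b c|`, and the square of the last sum is at most `∑_b K a b² ∑_b K a b K b c`
(`K a b |G a b| |G b c| = K a b (K a b K b c)^{1/2}`): so the left side is at most `16 Λ K³(a, a)`. -/
def LmbStmt : Prop :=
  ∀ C₀ : ℝ, 1 ≤ C₀ → ∃ C : ℝ, 1 ≤ C ∧ ∀ (X : Type) [Fintype X] [DecidableEq X]
    (G : Matrix X X ℂ) (μ : X → ℂ) (𝒩 : X → Finset X) (Pl : Matrix X X ℝ)
    (κ τ δ N π₀ ε₁ ε₃ : ℝ) (a : X), GdM G μ 𝒩 κ τ δ N C₀ → 0 ≤ π₀ → 0 ≤ ε₁ → 0 ≤ ε₃ →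
    (∀ a b, Pl a b = Pl b a) → Pl * Pl = Pl → (∀ a, Pl a a ≤ π₀) →
    (∀ v : X → ℂ, n2 (BB G *ᵥ v) ≤ (ε₁ / τ) ^ 2 * n2 v) →
    (∀ f : X → ℝ, Pl *ᵥ f = 0 → τ * qf (KK G) f ≤ ε₃ * ∑ b, f b ^ 2) →
      lLa G μ a ≤ C / κ * (π₀ / κ ^ 2 + Real.sqrt (π₀ / κ ^ 2 * ∑ b, KK G a b ^ 2) +
        (ε₃ + ε₁) * ∑ b, KK G a b ^ 2 +
        Real.sqrt ((∑ b, KK G a b ^ 2) * (δ ^ 2 * (N + δ ^ 2 / κ)))) ∧
      ∑ c, (2 * ∑ b, KK G a b * dK G c a b) ^ 2 ≤ (∑ b, KK G a b ^ 2) * (C / κ * (π₀ / κ ^ 2 +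
        Real.sqrt (π₀ / κ ^ 2 * ∑ b, KK G a b ^ 2) + ε₃ * ∑ b, KK G a b ^ 2))

/-- WFB: the Riccati inequality and the noise of the Laplacian. Proof: `k_a = ∑_b K a b`, `Δ = Dl K`,
`⟨f, Δ f⟩ = (1/2) ∑ K a b (f a - f b)²`. (a) `(f a - f b)² = (f a - f c)² + (f c - f b)² + 2 (f a - f c)
(f c - f b)` in `(1/2) ∑ K a c K c b (f a - f b)²` gives `qf (Dl (K K)) f = ∑_{a,c} k_c K a c (f a - f c)² -
|Δ f|²`, and `k_c ≥ (1 - C₀ δ)/τ`. The part of `E_K`: `(1/2) ∑ E_K a b (f a - f b)² =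
Re tr ([f, G]^* ([f, G] μ G + G μ [f, G]))`, at most `2 C₀ δ κ^{-1} |[f, G]|²_{HS} = 4 C₀ δ κ^{-1}
⟨f, Δ f⟩` (`[f, G] a b = (f a - f b) G a b`, `f` commutes with `diag μ`). So
`qf (τ Dl (K K + E_K) - Δ) f ≥ (2 (1 - C₀ δ) - C δ - 1) ⟨f, Δ f⟩ - τ |Δ f|²`.
(b) `(Dl (dK c) f) a = - 2 Re (G a c β a c)`, `β a c = ∑_b (f a - f b) conj (G a b) G b c`. `∑_{a,c} |β a c|² =
|conj [f, G] G|²_{HS} ≤ κ^{-2} 2 ⟨f, Δ f⟩`, `|β a c|² ≤ (2/τ) ∑_b K a b (f a - f b)²`. Near: `∑_{a, c ∈ 𝒩 a}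
K a c |β a c|² ≤ C N κ^{-1} ⟨f, Δ f⟩`, far: `C δ² κ^{-2} ⟨f, Δ f⟩`. Multiply by `4 τ²`.
(c) for all `h`: `∑_a h a (Dl (dK c) f) a = (1/2) ∑_{a,b} dK c a b (h a - h b) (f a - f b) =
- 2 Re ∑_a (h a - h c) G a c β a c` (write `h a - h b = (h a - h c) + (h c - h b)`, and `(f a - f b) G a b`
is antisymmetric), at most `2 (∑_a (h a - h c)² K a c)^{1/2} (∑_a |β a c|²)^{1/2} ≤
2 (4 |h|_∞² 2/τ)^{1/2} (∑_a |β a c|²)^{1/2}`. For `x = τ Dl (dK c) f` and `h = S x`: `|h a|² ≤ S a a ⟨x, S x⟩`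
(Cauchy-Schwarz for `S`), so `⟨x, S x⟩² ≤ τ² 4 (8/τ) s ⟨x, S x⟩ ∑_a |β a c|²`. Sum over `c`. (The identities
were checked numerically.) -/
def WfbStmt : Prop :=
  ∀ C₀ : ℝ, 1 ≤ C₀ → ∃ C : ℝ, 1 ≤ C ∧ ∀ (X : Type) [Fintype X] [DecidableEq X]
    (G : Matrix X X ℂ) (μ : X → ℂ) (𝒩 : X → Finset X) (κ τ δ N : ℝ), GdM G μ 𝒩 κ τ δ N C₀ →
    ∀ f : X → ℝ,
      ((1 - C * δ) * qf (τ • Dl (KK G)) f - ∑ a, ((τ • Dl (KK G)) *ᵥ f) a ^ 2) / τ ≤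
        qf (τ • Dl (KK G * KK G + EK G μ) - Dl (KK G)) f ∧
      ∑ c, ∑ a, ((τ • Dl (dK G c)) *ᵥ f) a ^ 2 ≤
        C * (N + δ ^ 2 / κ) * qf (τ • Dl (KK G)) f ∧
      ∀ (S : Matrix X X ℝ) (s : ℝ), (∀ a b, S a b = S b a) → (∀ h, 0 ≤ qf S h) →
        (∀ a, S a a ≤ s) →
          ∑ c, qf S ((τ • Dl (dK G c)) *ᵥ f) ≤ C * s / κ ^ 2 * qf (τ • Dl (KK G)) f

/-- WAB: from the trace to the form bound. Proof: `A = e₀ + τ S > 0`, `B = X + P0 + ϖ > 0` (`X ≥ 0`),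
`W = B⁻¹`. `tr (A⁻¹ W)^p = tr Y^p`, `Y = A^{-1/2} W A^{-1/2} ≥ 0`. So it is `≥ 0`, and if it is `≤ 1` then
`Y ≤ 1`, i.e. `W ≤ A`, i.e. `A⁻¹ ≤ B`. If `e₁ A⁻¹ ≤ B` then `Y ≤ 1 / e₁`. -/
def WabStmt : Prop :=
  ∀ (X : Type) [Fintype X] [DecidableEq X] (x S : Matrix X X ℝ) (e₀ e₁ τ ϖ : ℝ) (p : ℕ),
    (∀ a b, x a b = x b a) → (∀ f, 0 ≤ qf x f) → (∀ a b, S a b = S b a) → (∀ f, 0 ≤ qf S f) →
    0 < e₀ → 0 < e₁ → 0 ≤ τ → 0 < ϖ → 1 ≤ p →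
      IsUnit (e₀ • (1 : Matrix X X ℝ) + τ • S).det ∧
      IsUnit (x + P0 X + ϖ • (1 : Matrix X X ℝ)).det ∧
      0 ≤ Matrix.trace (((e₀ • (1 : Matrix X X ℝ) + τ • S)⁻¹ *
        (x + P0 X + ϖ • (1 : Matrix X X ℝ))⁻¹) ^ p) ∧
      (Matrix.trace (((e₀ • (1 : Matrix X X ℝ) + τ • S)⁻¹ *
        (x + P0 X + ϖ • (1 : Matrix X X ℝ))⁻¹) ^ p) ≤ 1 →
        (∀ f, qf (x + P0 X + ϖ • (1 : Matrix X X ℝ))⁻¹ f ≤
          qf (e₀ • (1 : Matrix X X ℝ) + τ • S) f) ∧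
        ∀ f, qf (e₀ • (1 : Matrix X X ℝ) + τ • S)⁻¹ f ≤
          qf (x + P0 X + ϖ • (1 : Matrix X X ℝ)) f) ∧
      ((∀ f, e₁ * qf (e₀ • (1 : Matrix X X ℝ) + τ • S)⁻¹ f ≤
          qf (x + P0 X + ϖ • (1 : Matrix X X ℝ)) f) →
        Matrix.trace (((e₀ • (1 : Matrix X X ℝ) + τ • S)⁻¹ *
          (x + P0 X + ϖ • (1 : Matrix X X ℝ))⁻¹) ^ p) ≤ Fintype.card X * (1 / e₁) ^ p)

/-- THB: the inverse `(1 - Y)⁻¹` in the sup norm. Proof: `|Y| ≤ ε₁ ≤ 1/2` in `ℓ²`, so `1 - Y` is invertible,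
`|Θ| ≤ 2` in `ℓ²`. `Θ = ∑_{k < k₀} Y^k + Y^{k₀} Θ`. The rows of `Y^k` have the `ℓ¹` norm at most `2`
(`(1 + s)^k ≤ 2`). The row `a` of `Y^{k₀} Θ` has the `ℓ²` norm at most `2 ε₁^{k₀}` (the norm of the
transpose is the same), so the `ℓ¹` norm at most `2 ε₁^{k₀} |X|^{1/2} ≤ 1`. -/
def ThbStmt : Prop :=
  ∀ (X : Type) [Fintype X] [DecidableEq X] (Y : Matrix X X ℂ) (ε₁ s : ℝ) (k₀ : ℕ), 0 ≤ ε₁ →
    ε₁ ≤ 1 / 2 → 0 ≤ s → (1 + s) ^ k₀ ≤ 2 → (Fintype.card X : ℝ) * ε₁ ^ (2 * k₀) ≤ 1 / 4 →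
    (∀ u : X → ℂ, n2 (Y *ᵥ u) ≤ ε₁ ^ 2 * n2 u) → (∀ a, ∑ b, ‖Y a b‖ ≤ 1 + s) →
      IsUnit (1 - Y).det ∧ (∀ a, ∑ b, ‖(1 - Y)⁻¹ a b‖ ≤ 2 * k₀ + 1)

/-- GDC: from the functional to the good point. Proof: `∑_b |G a b|² = Im G(a, a) / κ`, `κ = τ Im m`. Let
`x = max |μ|`. `|μ a| ≤ |φ a| + τ ∑ |G a b|² |φ b| ≤ δ (1 + Im G(a, a) / Im m) ≤ δ (2 + x / c₁)`, so
`x ≤ 4 δ` if `δ ≤ c₁ / 2`. So `|τ ∑ |G a b|² - 1| = |Im μ a| / Im m ≤ 4 δ / c₁`. `|τ (G φ G) a b| ≤ 2 δ`, so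
`|G a b - G₀ a b| ≤ 3 δ`. -/
def GdcStmt : Prop :=
  ∀ c₁ C₁ : ℝ, 0 < c₁ → 1 ≤ C₁ → ∃ c₀ C₀ : ℝ, 0 < c₀ ∧ c₀ ≤ 1 / 2 ∧ 1 ≤ C₀ ∧
    ∀ (X : Type) [Fintype X] [DecidableEq X] (G G₀ : Matrix X X ℂ) (φ : X → ℂ) (m : ℂ)
      (𝒩 : X → Finset X) (κ τ δ N : ℝ), 0 < κ → κ ≤ 1 → κ = τ * m.im → c₁ ≤ m.im → m.im ≤ C₁ →
      0 ≤ δ → δ ≤ c₀ → 1 ≤ N → (∀ a b, G a b = G b a) → (∀ a b, G₀ a b = G₀ b a) →
      (∀ a b, (κ : ℂ) * ∑ c, G a c * (starRingEnd ℂ) (G b c) = ((G a b).im : ℂ)) →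
      (∀ a, G a a - m = φ a - τ * (BB G *ᵥ φ) a) → (∀ a, ‖φ a‖ ≤ δ) →
      (∀ a b, ‖G a b + τ * GD G φ a b - G₀ a b‖ ≤ δ) → (∀ a b, ‖G₀ a b‖ ≤ C₁) →
      (∀ a b, b ∈ 𝒩 a ↔ δ < ‖G₀ a b‖) → (∀ a, ((𝒩 a).card : ℝ) ≤ N) →
        GdM G (fun a => G a a - m) 𝒩 κ τ δ N C₀

end Pool.Agent.LE.QF
end
end -- Pool.Agent.LE.StmtsQF
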