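import Pool.Agent.Helper12_MEB.B085

/-!
# Merged copies (generated) of the modules

* `Pool.Agent.LE.StmtsQG`
* `Pool.Agent.LE.StmtsQH`
* `Pool.Agent.LE.DefsQX`
* `Pool.Agent.LE.StmtsQX`
* `Pool.Agent.Helper17_LQF.LOW`
-/

set_option autoImplicit false

section -- Pool.Agent.LE.StmtsQG

/-!
# Diffusion down to the scale `η = |σ|^{2 d - ε}`, part 2: the functional

See `StmtsQF.lean`.
-/

set_option autoImplicit false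

open MeasureTheory ProbabilityTheory Function Filter

open scoped ENNReal BigOperators Topology NNReal ComplexOrder Matrix

noncomputable section

namespace Pool.Agent.LE.QF

open Pool.Agent.Anderson hiding box mem_box card_box
open Pool.Agent.Loc Pool.Agent.Mob Pool.Agent.Helper54.Bal
  Pool.Agent.Helper96.EXP Pool.Agent.BED
open Pool.Agent.LE.MN Pool.Agent.LE.CL Pool.Agent.LE.IR Pool.Agent.LE.QD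

/-! ### D. The parts of the functional, in general -/

/-- PWU: high powers. Proof: `JalStmt`: `f = |F|²/δ²` has `LL f = (2 Re (conj v l) + ∑ |g c|²)/δ²`,
`∑ (∂_c f)² ≤ 4 f ∑ |g c|² / δ²`; so with `x = |v|/δ`: `LL f^n ≤ 2 n x^{2n-1} ℓ/δ + 2 n² x^{2n-2} γ/δ²`, and
`x^{2n-1} ≤ 2 (x^{2n} + 4^{-n})`, `x^{2n-2} ≤ 4 (x^{2n} + 4^{-n})` (cases `x ≥ 1/2`, `x < 1/2`). -/
def PwuStmt : Prop :=
  ∀ (ι : Type) [Fintype ι] [DecidableEq ι] (q : ℝ × (ι → ℝ)) (κ : Type) [Fintype κ]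
    (F : κ → ℝ × (ι → ℝ) → ℂ) (v l : κ → ℂ) (g : κ → ι → ℂ) (δ ℓ γ : ℝ) (n : ℕ), 0 < δ → 0 ≤ ℓ →
    0 ≤ γ → 1 ≤ n → (∀ k, HJ (F k) q (v k) (g k) (l k)) → (∀ k, ‖l k‖ ≤ ℓ) →
    (∀ k, ∑ c, ‖g k c‖ ^ 2 ≤ γ) →
      ∃ (g' : ι → ℝ) (l' : ℝ), HJ (fun r => ∑ k, (‖F k r‖ ^ 2 / δ ^ 2) ^ n) q
        (∑ k, (‖v k‖ ^ 2 / δ ^ 2) ^ n) g' l' ∧
        l' ≤ (4 * n * ℓ / δ + 8 * n ^ 2 * γ / δ ^ 2) *
          (∑ k, (‖v k‖ ^ 2 / δ ^ 2) ^ n + Fintype.card κ * (1 / 4) ^ n)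

/-- YTU: the part of `Y`. Proof: `YtjStmt`. `P = v v^*`. `Re tr (P^{n-1} (- (1/τ)(v - v v)) v^*) =
- (1/τ) (tr P^n - Re tr (P^{n-1} v v v^*))`, and `P^{n-1} v v v^* = P^{n-1} v P`,
`|tr (P^{n-1} v P)| ≤ |v| tr P^n ≤ tr P^n`: the drift part is `≤ 0`.
`|tr (P^{n-1} e v^*)| = |tr (e v^* P^{n-1})| ≤ ε tr (P^{n - 1/2})` (singular values `s_i` of `v`:
`≤ ε ∑ s_i^{2n-1}`). With `x_i = s_i / ε₁` the inequalities of `PwuStmt`. -/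
def YtuStmt : Prop :=
  ∀ (ι : Type) [Fintype ι] [DecidableEq ι]
    (q : ℝ × (ι → ℝ)) (X : Type) [Fintype X] [DecidableEq X]
    (F : ℝ × (ι → ℝ) → Matrix X X ℂ) (v e : Matrix X X ℂ) (g : ι → Matrix X X ℂ)
    (τ ε ε₁ ν : ℝ) (n : ℕ), 0 < τ → 0 ≤ ε → 0 < ε₁ → 0 ≤ ν → 1 ≤ n →
    HM F q v g (-(((1 / τ : ℝ) : ℂ) • (v - v * v)) + e) →
    (∀ u : X → ℂ, n2 (v *ᵥ u) ≤ n2 u) → (∀ u : X → ℂ, n2 (e *ᵥ u) ≤ ε ^ 2 * n2 u) →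
    (∀ u : X → ℂ, ∑ c, n2 (g c *ᵥ u) ≤ ν * n2 u) →
    (∀ u : X → ℂ, ∑ c, n2 ((g c)ᴴ *ᵥ u) ≤ ν * n2 u) →
      ∃ (g' : ι → ℝ) (l' : ℝ),
        HJ (fun r => (Matrix.trace ((F r * (F r)ᴴ) ^ n)).re / ε₁ ^ (2 * n)) q
          ((Matrix.trace ((v * vᴴ) ^ n)).re / ε₁ ^ (2 * n)) g' l' ∧
        l' ≤ (4 * n * ε / ε₁ + 8 * n ^ 2 * ν / ε₁ ^ 2) *
          ((Matrix.trace ((v * vᴴ) ^ n)).re / ε₁ ^ (2 * n) + Fintype.card X * (1 / 4) ^ n)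

/-- LMU: the part of `Λ`. Proof: `f = Λ / Λs(t)`: `LL f ≤ ρ` (the term with `Λs'` is `≤ 0`),
`∑ (∂_c f)² ≤ f ρ`, `ρ = (c/κ) (1/L₀ + (f/L₀)^{1/2} + ϵ f)`. So `LL f^n ≤ n² f^{n-1} ρ`, and the
inequalities of `PwuStmt` with `x² = f`, `1/L₀ ≤ L₀^{-1/2}`. -/
def LmuStmt : Prop :=
  ∀ (ι : Type) [Fintype ι] [DecidableEq ι] (q : ℝ × (ι → ℝ)) (X : Type) [Fintype X]
    (F : X → ℝ × (ι → ℝ) → ℝ) (v l : X → ℝ) (g : X → ι → ℝ) (Ls : ℝ → ℝ) (c κ L L₀ ϵ : ℝ)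
    (n : ℕ), 0 ≤ c → 0 < κ → 0 < L → 1 ≤ L₀ → 0 ≤ ϵ → 1 ≤ n →
    (∀ a, HJ (F a) q (v a) (g a) (l a)) → ContDiffAt ℝ 2 Ls q.1 → Ls q.1 = L →
    0 ≤ deriv Ls q.1 → (∀ a, 0 ≤ v a) →
    (∀ a, l a ≤ c / κ * (L / L₀ + Real.sqrt (L * v a / L₀) + ϵ * v a)) →
    (∀ a, ∑ c, g a c ^ 2 ≤ v a * (c / κ * (L / L₀ + Real.sqrt (L * v a / L₀) + ϵ * v a))) →
      ∃ (g' : ι → ℝ) (l' : ℝ), HJ (fun r => ∑ a, (F a r / Ls r.1) ^ n) q (∑ a, (v a / L) ^ n) g' l' ∧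
        l' ≤ 6 * n ^ 2 * (c / κ) * (1 / Real.sqrt L₀ + ϵ) *
          (∑ a, (v a / L) ^ n + Fintype.card X * (1 / 4) ^ n)

/-- WTU: the part of `W`. Proof: `A = e₀ + τ S`, `B = v + P0 + ϖ`, `W = B⁻¹`, `R = A⁻¹ W`. Jets (`JmaStmt`):
`∂_t A⁻¹ = A⁻¹ S A⁻¹` (`τ' = - 1`), `∂_c W = - W g_c W`, `LL W = - W l W + ∑ W g_c W g_c W`. With
`Y = A^{-1/2} W A^{-1/2}`: `tr R^k = tr Y^k`, and the jet of `tr R^p` is `p tr (Y^{p-1} Y_l) +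
(p/2) ∑_c ∑_i tr (Y_c Y^i Y_c Y^{p-2-i})` with `Y_c = - A^{-1/2} W g_c W A^{-1/2}`,
`Y_l = S A⁻¹ Y + A^{-1/2} (LL W) A^{-1/2}`. By `WabStmt` `W ≤ A`, i.e. `Y ≤ 1`. `W` commutes with `P0`,
`v P0 = 0`: `W v W = W - P0/(1+ϖ)² - ϖ W²`, `W v² W ≤ 1 - P0`, `ϖ W² ≤ δ W` (`ϖ W ≤ ϖ A ≤ δ`). So
`- W l W ≤ - (1/τ) ((1 - δ) W v W - W v² W) ≤ (1/τ) (- (1 - 2 δ) W + 1)`. `g_c W g_c ≤ g_c A g_c`, so
`∑ W g_c W g_c W ≤ ν W v W ≤ ν W`. `tr (Y^{p-1} S A⁻¹ Y) = (1/τ) tr ((1 - e₀ A⁻¹) Y^p)`. Together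
`tr (Y^{p-1} Y_l) ≤ (2 δ/τ + ν) tr Y^p + (1/τ) tr (A⁻¹ (Y^{p-1} - e₀ Y^p))`, and `y^{p-1} - e₀ y^p ≤
e₀^{-(p-1)}`, `A⁻¹ ≤ 1/e₀`. Second order: `TriStmt`: at most `(p²/2) ∑_c tr (Y^{p-2} Y_c²)`,
`∑ Y_c² = A^{-1/2} W (∑ g_c W A⁻¹ W g_c) W A^{-1/2}`, `W A⁻¹ W ≤ W`, so `≤ ν Y`; at most
`(p²/2) ν tr Y^{p-1}`, `y^{p-1} ≤ e₀ y^p + e₀^{-(p-1)}`. -/
def WtuStmt : Prop :=
  ∀ (X : Type) [Fintype X] [DecidableEq X]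
    (q : ℝ × (X → ℝ)) (F : ℝ × (X → ℝ) → Matrix X X ℝ) (ta : ℝ → ℝ) (v l S : Matrix X X ℝ)
    (g : X → Matrix X X ℝ) (e₀ ϖ δ ν τ : ℝ) (p : ℕ), HM F q v g l → ContDiffAt ℝ 2 ta q.1 →
    ta q.1 = τ → deriv ta q.1 = -1 → 0 < τ → 2 ≤ p → 1 ≤ e₀ → 0 < ϖ → 0 ≤ δ → δ ≤ 1 → 0 ≤ ν →
    (∀ a b, v a b = v b a) → (∀ f, 0 ≤ qf v f) → (∀ a, ∑ b, v a b = 0) →
    (∀ a b, l a b = l b a) → (∀ a, ∑ b, l a b = 0) →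
    (∀ c a b, g c a b = g c b a) → (∀ c a, ∑ b, g c a b = 0) →
    (∀ a b, S a b = S b a) → (∀ f, 0 ≤ qf S f) → (∀ a, ∑ b, S a b = 0) →
    (∀ f : X → ℝ, ((1 - δ) * qf v f - ∑ a, (v *ᵥ f) a ^ 2) / τ ≤ qf l f) →
    (∀ f : X → ℝ, ∑ c, qf (e₀ • (1 : Matrix X X ℝ) + τ • S) (g c *ᵥ f) ≤ ν * qf v f) →
    (∀ f : X → ℝ, ϖ * qf (e₀ • (1 : Matrix X X ℝ) + τ • S) f ≤ δ * ∑ a, f a ^ 2) →
    Matrix.trace (((e₀ • (1 : Matrix X X ℝ) + τ • S)⁻¹ *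
      (v + P0 X + ϖ • (1 : Matrix X X ℝ))⁻¹) ^ p) ≤ 1 →
      ∃ (g' : X → ℝ) (l' : ℝ),
        HJ (fun r => Matrix.trace (((e₀ • (1 : Matrix X X ℝ) + ta r.1 • S)⁻¹ *
            (F r + P0 X + ϖ • (1 : Matrix X X ℝ))⁻¹) ^ p)) q
          (Matrix.trace (((e₀ • (1 : Matrix X X ℝ) + τ • S)⁻¹ *
            (v + P0 X + ϖ • (1 : Matrix X X ℝ))⁻¹) ^ p)) g' l' ∧
        l' ≤ (p * (2 * δ / τ + ν) + p ^ 2 * ν * e₀) *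
          Matrix.trace (((e₀ • (1 : Matrix X X ℝ) + τ • S)⁻¹ *
            (v + P0 X + ϖ • (1 : Matrix X X ℝ))⁻¹) ^ p) +
          Fintype.card X * (1 / e₀) ^ p * (p / τ + p ^ 2 * ν * e₀)

/-! ### E. The functional on the torus -/

/-- the state of the flow at a point with `U < 1` -/
structure Goo {d M : ℕ} [NeZero M] (D : Dat d M) (q : ℝ × (Tor d M → ℝ)) (κ τ C₀ : ℝ) : Prop where
  hκ : κ = D.kp q.1 ∧ τ = D.ta q.1 ∧ D.η ≤ κ ∧ κ ≤ D.w ∧ 0 < τ ∧ τ ≤ C₀ * κ ∧ κ ≤ C₀ * τ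
  hG : GdM (D.G q) (D.mu q) D.nr κ τ D.δ D.N C₀
  hu : IsUnit (1 - D.Y q).det
  hT : ∀ a, ∑ b, ‖D.Th q a b‖ ≤ C₀
  hφ : ∀ a, ‖D.ph q a‖ ≤ D.δ
  hμ : ∀ a, D.mu q a = D.ph q a - τ * (BB (D.G q) *ᵥ D.ph q) a
  hL : ∀ a, D.La q a ≤ D.Ls q.1
  hB : ∀ u : Tor d M → ℂ, n2 (BB (D.G q) *ᵥ u) ≤ (D.ε₁ / τ) ^ 2 * n2 u
  hA : ∀ f, qf (D.A q.1)⁻¹ f ≤ qf (D.X q + P0 (Tor d M) + D.ϖ • (1 : Matrix (Tor d M) (Tor d M) ℝ)) f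
  h5 : D.U5 q ≤ 1
  hK : ∀ f : Tor d M → ℝ, D.Pl *ᵥ f = 0 →
    τ * qf (KK (D.G q)) f ≤ (C₀ * D.δ + (D.e₀ - 1)) * ∑ b, f b ^ 2

/-- NNU: the parts are nonnegative. Proof: `U1`, `U2` clear; `U3`: the trace of a power of a positive
semidefinite matrix; `U4`: `Ls > 0`; `U5`: `WabStmt` (`τ > 0`, `X = τ Dl K ≥ 0` because
`qf (Dl K) f = (1/2) ∑ K a b (f a - f b)²`). `kp t > 0` for `t < T + η / Im m`. -/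
def NnuStmt : Prop :=
  ∀ (d M : ℕ) [NeZero M] (D : Dat d M) (c₁ C₁ c₀ : ℝ) (k₀ : ℕ) (q : ℝ × (Tor d M → ℝ)),
    0 < c₁ → Adm D c₁ C₁ c₀ k₀ → 0 < D.kp q.1 →
      0 ≤ D.U1 q ∧ 0 ≤ D.U2 q ∧ 0 ≤ D.U3 q ∧ 0 ≤ D.U4 q ∧ 0 ≤ D.U5 q

/-- RSJ: the resolvent. Proof: (1) `hz V z` has the jet `(hz, E_c, m)` at `(t, V)` (the derivative of
`- zt` is `m`); `JmaStmt` (inverse): `∂_c G = - G E_c G`, `LL G = - m G G + ∑_c G E_c G E_c G = G μ G`.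
(2) symmetry, (3) `G - G^* = 2 i κ G G^*`. (4) `τ' = - 1`, `κ' = - Im m`, bounds. -/
def RsjStmt : Prop :=
  ∀ (d M : ℕ) [NeZero M] (D : Dat d M) (c₁ C₁ c₀ : ℝ) (k₀ : ℕ)
    (q : ℝ × (Tor d M → ℝ)), 0 < c₁ → Adm D c₁ C₁ c₀ k₀ → 0 < D.kp q.1 →
      JHyp q D.G D.ta (D.G q) D.m (D.ta q.1) ∧
      (∀ a b, ((D.kp q.1 : ℝ) : ℂ) * ∑ c, D.G q a c * (starRingEnd ℂ) (D.G q b c) =
        ((D.G q a b).im : ℂ)) ∧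
      (∀ a b, D.G0 a b = D.G0 b a) ∧ D.kp q.1 = D.ta q.1 * D.m.im ∧
      (0 ≤ q.1 → q.1 ≤ D.T → D.η ≤ D.kp q.1 ∧ D.kp q.1 ≤ D.w) ∧
      ContDiffAt ℝ 2 D.Ls q.1 ∧ 0 ≤ deriv D.Ls q.1

/-- GOD: a point with `U < 1` is good. Proof: every part is `< 1` (`NnuStmt`). `U1`: `|φ a| < δ`. `U2`:
`|Xh a b| < δ`. `U3`: `tr (Y Y^*)^j ≥ |Y|^{2j}`, so `|Y| < ε₁ < 1`, `1 - Y` is invertible, `μ = (1 - Y) φ`.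
`U4`: `La < Ls`. `GdcStmt`, `ThbStmt` (rows of `Y`: `τ ∑ |G a b|² ≤ 1 + C₀ δ`; `(1 + s)^{k₀} ≤ 2` for small
`c₀`). `U5 ≤ 1`: `WabStmt`. `hK`: for `Pl f = 0`: `∑ f = 0`, `S f = S Pl f = 0`, so `qf A⁻¹ f =
∑ f² / e₀`, and `qf X f = τ ∑ k_a f a² - τ qf K f ≤ (1 + C δ) ∑ f² - τ qf K f`; `1 - 1/e₀ ≤ e₀ - 1`,
`ϖ ≤ δ`. -/
def GodStmt : Prop :=
  ∀ (c₁ C₁ : ℝ) (k₀ : ℕ), 0 < c₁ → 1 ≤ C₁ → ∃ c₀ C₀ : ℝ, 0 < c₀ ∧ c₀ ≤ 1 / 2 ∧ 1 ≤ C₀ ∧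
      ∀ (d M : ℕ) [NeZero M] (D : Dat d M) (q : ℝ × (Tor d M → ℝ)), Adm D c₁ C₁ c₀ k₀ → 0 ≤ q.1 →
        q.1 ≤ D.T → D.U q < 1 → Goo D q (D.kp q.1) (D.ta q.1) C₀

/-- UPA: the parts of `φ` and `Xh`. Proof: `JtpStmt`, `PhbStmt`, `JtxStmt`, `XhbStmt` with `Λ = Ls`
(`δ² N + δ⁴/κ ≤ Ls`, as `L₀ ≥ 1`), `PwuStmt` with `ℓ = C (δ²/κ + (Ls/κ)^{1/2})`, `γ = C Ls`. `κ Ls ≤ ch`
(`η ≤ κ ≤ w`), so `(Ls/κ)^{1/2} ≤ ch^{1/2} / κ`, `Ls ≤ ch / κ`: the rate is at most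
`(C/κ) (j (δ + ch^{1/2}/δ) + j² ch/δ²) ≤ C aN / κ`. -/
def UpaStmt : Prop :=
  ∀ (c₁ C₁ C₀ : ℝ) (k₀ : ℕ), 0 < c₁ → 1 ≤ C₁ → 1 ≤ C₀ → ∃ C : ℝ, 1 ≤ C ∧
      ∀ (d M : ℕ) [NeZero M] (D : Dat d M) (c₀ κ τ : ℝ) (q : ℝ × (Tor d M → ℝ)),
        Adm D c₁ C₁ c₀ k₀ → 0 ≤ q.1 → q.1 ≤ D.T → Goo D q κ τ C₀ →
          ContDiffAt ℝ 2 D.U1 q ∧ ContDiffAt ℝ 2 D.U2 q ∧
          LL D.U1 q ≤ C * D.aN / κ * (D.U1 q + ((M : ℝ) ^ d) ^ 2 * (1 / 4) ^ D.j) ∧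
          LL D.U2 q ≤ C * D.aN / κ * (D.U2 q + ((M : ℝ) ^ d) ^ 2 * (1 / 4) ^ D.j)

/-- UPB: the part of `Y`. Proof: `JtbStmt` (`LL Y = - (1/τ)(Y - Y²) + τ E_B`), `NrbStmt`:
`|τ E_B| ≤ C δ / κ`, the noise `τ² C (N/κ² + δ²/κ³) ≤ C (N + δ²/κ) ≤ C (N w + δ²) / κ`; `YtuStmt`. -/
def UpbStmt : Prop :=
  ∀ (c₁ C₁ C₀ : ℝ) (k₀ : ℕ), 0 < c₁ → 1 ≤ C₁ → 1 ≤ C₀ → ∃ C : ℝ, 1 ≤ C ∧
      ∀ (d M : ℕ) [NeZero M] (D : Dat d M) (c₀ κ τ : ℝ) (q : ℝ × (Tor d M → ℝ)), c₀ ≤ 1 / 2 →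
        Adm D c₁ C₁ c₀ k₀ → 0 ≤ q.1 → q.1 ≤ D.T → Goo D q κ τ C₀ →
          ContDiffAt ℝ 2 D.U3 q ∧
          LL D.U3 q ≤ C * D.aN / κ * (D.U3 q + ((M : ℝ) ^ d) ^ 2 * (1 / 4) ^ D.j)

/-- UPC: the part of `Λ`. Proof: `JtlStmt`, `LmbStmt` with `ε₃ = C₀ δ + (e₀ - 1)`; `π₀/κ² ≤ Ls/L₀`,
`δ² (N + δ²/κ) ≤ Ls/L₀`, so `l ≤ (C/κ) (Ls/L₀ + 2 (Ls Λ/L₀)^{1/2} + (ε₃ + ε₁) Λ)`; `LmuStmt` with
`ϵ = ε₃ + ε₁ ≤ C (ε₁ + (e₀ - 1))` (`δ ≤ ε₁`). -/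
def UpcStmt : Prop :=
  ∀ (c₁ C₁ C₀ : ℝ) (k₀ : ℕ), 0 < c₁ → 1 ≤ C₁ → 1 ≤ C₀ → ∃ C : ℝ, 1 ≤ C ∧
      ∀ (d M : ℕ) [NeZero M] (D : Dat d M) (c₀ κ τ : ℝ) (q : ℝ × (Tor d M → ℝ)),
        Adm D c₁ C₁ c₀ k₀ → 0 ≤ q.1 → q.1 ≤ D.T → Goo D q κ τ C₀ →
          ContDiffAt ℝ 2 D.U4 q ∧
          LL D.U4 q ≤ C * D.aN / κ * (D.U4 q + ((M : ℝ) ^ d) ^ 2 * (1 / 4) ^ D.j)

/-- UPD: the part of `W`. Proof: `JtbStmt`, `WfbStmt` (a): `δ' = C δ` (`≤ 1` for small `c₀`);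
(b), (c) with `S a a ≤ π₀ / w`, `τ ≤ C w`: `ν = C (N + δ²/κ + π₀/κ²) ≤ (C/κ) (N w + δ² + π₀/η)`; `WtuStmt`
(`A` at the time `t` is at most `A` at the time `0`: `ϖ A ≤ δ`). The rate is at most
`(C/κ) (p δ + p² (N w + δ² + π₀/η)) ≤ C aN / κ`, the rest at most `(C/κ) (p + aN) M^d e₀^{-p}`. -/
def UpdStmt : Prop :=
  ∀ (c₁ C₁ C₀ : ℝ) (k₀ : ℕ), 0 < c₁ → 1 ≤ C₁ → 1 ≤ C₀ → ∃ c₂ C : ℝ, 0 < c₂ ∧ 1 ≤ C ∧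
      ∀ (d M : ℕ) [NeZero M] (D : Dat d M) (c₀ κ τ : ℝ) (q : ℝ × (Tor d M → ℝ)), c₀ ≤ c₂ →
        Adm D c₁ C₁ c₀ k₀ → 0 ≤ q.1 → q.1 ≤ D.T → Goo D q κ τ C₀ →
          ContDiffAt ℝ 2 D.U5 q ∧
          LL D.U5 q ≤ C * D.aN / κ * (D.U5 q + (M : ℝ) ^ d * (1 / D.e₀) ^ D.p) +
            C * D.p / κ * ((M : ℝ) ^ d * (1 / D.e₀) ^ D.p)

/-- USM: smoothness. Proof: if `1 - Y q` is invertible then all parts are `C²` at `q` (`RsjStmt`,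
`JalStmt`, `JmaStmt`; `W`: `X + P0 + ϖ > 0`; `A > 0`). If not then some `u ≠ 0` has `Y u = u`, so
`tr (Y Y^*)^j ≥ 1` at `q`, `U3 q ≥ ε₁^{-2j} ≥ 4`, and `U3` is continuous, the other parts are
nonnegative near `q` (`NnuStmt`, `kp > 0` near `q.1`). -/
def UsmStmt : Prop :=
  ∀ (d M : ℕ) [NeZero M]
    (D : Dat d M) (c₁ C₁ c₀ : ℝ) (k₀ : ℕ) (q : ℝ × (Tor d M → ℝ)), 0 < c₁ → c₀ ≤ 1 / 2 →
    Adm D c₁ C₁ c₀ k₀ → 0 ≤ q.1 → q.1 ≤ D.T →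
      (∀ᶠ r in 𝓝 q, 1 ≤ D.U r) ∨ ContDiffAt ℝ 2 D.U q

/-- UPR: the probability. Proof: `UflStmt` with `a(t) = C aN / κ`, `b(t) = C (aN + p) bN / κ`,
`κ = kp t` for `0 ≤ t ≤ T`, extended to a continuous function (`κ` replaced by `max κ η`): by `UsmStmt`,
`NnuStmt`, `GodStmt`, `UpaStmt`, `UpbStmt`, `UpcStmt`, `UpdStmt` (`e₁ ≤ e₀`). `∫ dt / κ = log (w/η) / Im m`.
`U(0)`: `φ = 0`, `Xh = 0`
(`hfix`), `U3 ≤ M^d 4^{-j}` (`hY`), `U4 ≤ M^d 4^{-j}` (`hL`), `U5 ≤ M^d e₁^{-p}` (`hW`, `WabStmt`), so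
`U(0) ≤ bN`. -/
def UprStmt : Prop :=
  ∀ (c₁ C₁ : ℝ) (k₀ : ℕ), 0 < c₁ → 1 ≤ C₁ → ∃ c₀ C : ℝ, 0 < c₀ ∧ c₀ ≤ 1 / 2 ∧ 1 ≤ C ∧
      ∀ (d M : ℕ) [NeZero M] (D : Dat d M) (v : ℝ≥0), Adm D c₁ C₁ c₀ k₀ → (v : ℝ) = D.T →
        gau d M v {V | 1 ≤ D.U (D.T, V)} ≤
          ENNReal.ofReal (Real.exp (C * D.aN * (1 + Real.log (D.w / D.η))) *
            (C * (1 + D.aN + D.p) * (1 + Real.log (D.w / D.η)) * D.bN))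

/-- OUT: the result at the final time. Proof: `GodStmt` at `(T, V)`: `kp T = η`, `zt T = E + i η`,
`τ = η / Im m`. Diagonal: `Im G(x, x) ≥ Im m - C δ`. Mass: `f` = the indicator of `C'`:
`∑_{x, y ∈ C'} K x y = ∑_{x ∈ C'} k_x - qf (Dl K) f ≤ (1/τ) ((1 + C δ) |C'| - qf X f)`, `qf X f ≥
qf A⁻¹ f - |C'|²/M^d - ϖ |C'|`, and `A⁻¹ ≥ 1/e₀ - (τ/e₀²) S` (`(e₀ + x)⁻¹ ≥ 1/e₀ - x/e₀²`). -/
def OutStmt : Prop :=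
  ∀ (c₁ C₁ : ℝ) (k₀ : ℕ), 0 < c₁ → 1 ≤ C₁ → ∃ c₀ C : ℝ, 0 < c₀ ∧ c₀ ≤ 1 / 2 ∧ 1 ≤ C ∧
      ∀ (d M : ℕ) [NeZero M] (D : Dat d M) (V : Tor d M → ℝ), Adm D c₁ C₁ c₀ k₀ →
        D.U (D.T, V) < 1 →
          (∀ x, c₁ / 2 ≤ (rs V ⟨D.E, D.η⟩ x x).im) ∧
          ∀ C' : Finset (Tor d M), mss V ⟨D.E, D.η⟩ C' ≤
            C / D.η * (D.δ + (D.e₀ - 1) + C'.card / (M : ℝ) ^ d) * C'.card +
              ∑ x ∈ C', ∑ y ∈ C', D.S x y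

end Pool.Agent.LE.QF
end
end -- Pool.Agent.LE.StmtsQG

section -- Pool.Agent.LE.StmtsQH

/-!
# Diffusion down to the scale `η = |σ|^{2 d - ε}`, part 3: initial values, numbers, final theorem

See `StmtsQF.lean`.
-/

set_option autoImplicit false

open MeasureTheory ProbabilityTheory Function Filter

open scoped ENNReal BigOperators Topology NNReal ComplexOrder Matrix

noncomputable section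

namespace Pool.Agent.LE.QF

open Pool.Agent.Anderson hiding box mem_box card_box
open Pool.Agent.Loc Pool.Agent.Mob Pool.Agent.Helper54.Bal
  Pool.Agent.Helper96.EXP Pool.Agent.BED
open Pool.Agent.LE.MN Pool.Agent.LE.CL Pool.Agent.LE.IR Pool.Agent.LE.QD

/-! ### F. Fourier analysis, the free resolvent -/

/-- FMU: Fourier multipliers. Proof: `FtbStmt`; `(mlt s f)^ = s f̂` for even real `s`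
(`∑_y ec p (x - y) f y` summed over `p`); the imaginary parts cancel because `s (-p) = s p`. -/
def FmuStmt : Prop :=
  ∀ (d M : ℕ) [NeZero M] (s s' : Tor d M → ℝ), (∀ p, s (-p) = s p) → (∀ p, s' (-p) = s' p) →
    (∀ f : Tor d M → ℝ, qf (mlt s) f = pm fun p => s p * ‖ft (fun x => (f x : ℂ)) p‖ ^ 2) ∧
    (∀ x y, mlt s x y = mlt s y x) ∧
    mlt s * mlt s' = mlt (fun p => s p * s' p) ∧
    mlt (fun p => s p + s' p) = mlt s + mlt s' ∧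
    (∀ t : ℝ, mlt (fun p => t * s p) = t • mlt s) ∧
    mlt (fun _ : Tor d M => 1) = 1 ∧
    (∀ x, ∑ y, mlt s x y = s 0) ∧
    (∀ x, mlt s x x = pm s) ∧
    P0 (Tor d M) = mlt (fun p => if p = 0 then 1 else 0) ∧
    ((∀ p, 0 < s p) → (mlt s)⁻¹ = mlt fun p => (s p)⁻¹) ∧
    ∀ (k : Tor d M → ℝ) (x y : Tor d M), (∀ z, k (-z) = k z) →
      k (x - y) = mlt (fun p => ∑ z, k z * (ec p z).re) x y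

/-- KFT: the Fourier transforms of the squares of the free resolvent. Proof: `RalStmt` (11), (5),
`∑_x ec p x = M^d` or `0`. (3): `n2 (B u) = pm |bh|² |û|²`. (4): `FmuStmt`. -/
def KftStmt : Prop :=
  ∀ (d M : ℕ) [NeZero M] (z : ℂ), 0 < z.im →
    (∀ p : Tor d M, kf z p = (kh z p).re) ∧
    (∀ p : Tor d M, ∑ x : Tor d M, rs (0 : Tor d M → ℝ) z 0 x ^ 2 * ec p x = bh z p) ∧
    (∀ (β : ℝ) (u : Tor d M → ℂ), (∀ p : Tor d M, ‖bh z p‖ ≤ β) →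
      n2 (BB (rs (0 : Tor d M → ℝ) z) *ᵥ u) ≤ β ^ 2 * n2 u) ∧
    KK (rs (0 : Tor d M → ℝ) z) = mlt (kf z) ∧
    (∀ p : Tor d M, kf z (-p) = kf z p) ∧
    kf z (0 : Tor d M) = (rs (0 : Tor d M → ℝ) z 0 0).im / z.im

/-- LOW: low momenta. Proof: `(4/π²) x² ≤ 2 (1 - cos x) ≤ x²` for `|x| ≤ π`; `low` has at most
`(2 J + 1)^d` elements; `∑_{0 < |k| ≤ J} |k|^{-2} ≤ C J^{d-2}` (shells `|k|_∞ = j`: at most `C j^{d-1}` points). -/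
def LowStmt : Prop :=
  ∀ d : ℕ, 3 ≤ d → ∃ C : ℝ, 1 ≤ C ∧ ∀ (M : ℕ) [NeZero M],
    (∀ p : Tor d M, 16 / (M : ℝ) ^ 2 * ∑ i, ((p i).valMinAbs : ℝ) ^ 2 ≤ ds p ∧
      ds p ≤ (2 * Real.pi / M) ^ 2 * ∑ i, ((p i).valMinAbs : ℝ) ^ 2) ∧
    ∀ J : ℕ, 1 ≤ J → ((low d M J).card : ℝ) ≤ C * (J : ℝ) ^ d ∧
      ∑ p ∈ (low d M J).filter (fun p => p ≠ 0), 1 / ds p ≤ C * (M : ℝ) ^ 2 * (J : ℝ) ^ (d - 2)

/-- JCB: the Bessel function `J₀(2 |a|)`. Proof: expand `exp (i (a u + conj a conj u))` in powers; the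
mean of `u^n` over the `M`-th roots of unity is `0` for `0 < |n| < M`, `1` for `n = 0`, so the terms of
degree `m < M` give the same as the mean over the circle, the others at most `(2|a|)^m / m!` each,
in total at most `4 (2 e |a| / M)^M ≤ 4 e^{-M/4}` (`‖a‖ ≤ M/40`). The mean over the circle is
`jb |a| 0`. For `t ≥ 1` it is at most `C t^{-1/2}`: the phase `2 t cos θ`; on the intervals with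
`|cos θ| ≥ 1/√2` the second derivative test (`vdc2`, `vdc2n` in `Helper28_LSP/VDC.lean`), on the others
`|sin θ| ≥ 1/√2` the first derivative is monotone or of size `≥ t` (first derivative test, or
integration by parts: at most `C / t`). -/
def JcbStmt : Prop :=
  ∃ C : ℝ, 1 ≤ C ∧ ∀ (M : ℕ) [NeZero M] (a : ℂ), ‖a‖ ≤ M / 40 →
    ‖jc M a‖ ≤ C * (1 + ‖a‖) ^ (-(1 / 2 : ℝ))

/-- KHB: the ladders for large momenta. Proof: `(e - z)⁻¹ = i ∫_0^∞ e^{-i t (e - z)} dt`. So `|kh z p|` is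
at most `∫∫_{t, s ≥ 0} e^{-w (t+s)} ∏_j |jc M (- t + s e^{i p_j})| dt ds` (`es = ∑ 2 cos`, the sum over `k`
factorizes; the angle `p_j` is `2 π p_j / M`), `w = z.im`, and `|bh z p|` the same with
`t + s e^{-i p_j}`. `ρ_j = |t - s e^{i p_j}|`, `ρ_j² = (t - s)² + 4 t s sin² (p_j / 2)`; for `bh`
`ρ_j² = (t - s)² + 4 t s cos² (p_j / 2)`. `JcbStmt` for `t + s ≤ M / 40`: the product is at most
`C (1 + |t - s|)^{-1} (1 + max (|t - s|, 2 s_i √(t s)))^{-1/2}`, `s_i` = the sine (cosine) of the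
coordinate `i`; `|jc| ≤ 1` for the other coordinates. `u = t + s`. Region `|t - s| ≤ u/2`: `√(t s) ≥ u/4`,
the integral is at most `C ∫ e^{-w u} (1 + log (1 + u)) (1 + s_i u / 2)^{-1/2} du ≤ C (1 + log (1/w)) w⁻¹
(w / (w + s_i))^{1/2}`. Region `|t - s| > u/2`: `C ∫ e^{-w u} u (1 + u)^{-3/2} du ≤ C w^{-1/2}`. The part
`t + s > M/40`: at most `(M / w + 1 / w²) e^{-w M / 40} ≤ 1`. -/
def KhbStmt : Prop :=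
  ∀ d : ℕ, 3 ≤ d → ∃ C : ℝ, 1 ≤ C ∧ ∀ (M : ℕ) [NeZero M] (z : ℂ) (p : Tor d M) (i : Fin d),
    0 < z.im → z.im ≤ 1 / 2 → C / z.im ^ 2 ≤ M →
      ‖kh z p‖ ≤ C * (1 + Real.log (1 / z.im)) / z.im *
        Real.sqrt (z.im / (z.im + |Real.sin (Real.pi * ((p i).valMinAbs : ℝ) / M)|)) ∧
      ‖bh z p‖ ≤ C * (1 + Real.log (1 / z.im)) / z.im *
        Real.sqrt (z.im / (z.im + |Real.cos (Real.pi * ((p i).valMinAbs : ℝ) / M)|))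

/-- BQB: `B` for all momenta. Proof: if `|cos (π p_i / M)| ≥ r` for some `i`: `KhbStmt`. If not:
`es k + es (p - k) = ∑ 4 cos (π p_i / M) cos (…)`, at most `4 d r ≤ |Re z|` in absolute value, so
`(es k - z) + (es (p - k) - z)` has the absolute value at least `2 |Re z| - |Re z|`, and
`1 / (x y) = (1/x + 1/y) / (x + y)`: `|bh| ≤ (2 / |Re z|) pm (1 / |es - z|)` (`DsuStmt`). -/
def BqbStmt : Prop :=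
  ∀ d : ℕ, 3 ≤ d → ∃ C : ℝ, 1 ≤ C ∧ ∀ (M : ℕ) [NeZero M] (z : ℂ) (r : ℝ) (p : Tor d M),
    0 < z.im → z.im ≤ 1 / 2 → C / z.im ^ 2 ≤ M → 0 < r → r ≤ 1 → 4 * d * r ≤ |z.re| →
      ‖bh z p‖ ≤ C * (1 + Real.log (1 / z.im)) * (Real.sqrt (z.im / r) / z.im + 1 / |z.re|)

/-- GAL: the gap for the momenta with `|p_i| ≤ M / 8`. Proof: `w = ζ.im`. If `2 π |p_i| ≤ c w M` for all
`i`: `GapStmt` (`ds p ≤ (2π/M)² ∑ p_i²`). If `2 π |p_i| > c w M`: as in the proof of `GapStmt`, `kf p ≤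
∑ kk |cos a_i| ≤ ∑ kk (1 - (1 - cos 2 a_i)/4)`, and with `t = 4 π p_i / M`, `2 c w ≤ |t| ≤ π/2`:
`∑ kk(x) (1 - cos (t x_i)) = (1/2) pm |1/(es k - ζ) - 1/(es k' - ζ)|²`, `k'` = `k` shifted by `2 p_i` in the
coordinate `i`, `|es k - es k'| = 4 |sin (t/2) sin (k_i + t/2)|`. By `DslStmt`, `DsuStmt` the set of the `k`
with `|es k - Re ζ| ≤ w` and `|sin (k_i + t/2)| ≥ c` has the measure at least `c w`, there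
`|es k - es k'| ≥ c' w` and the difference is at least `|es k - es k'| / (2 w (|es k - es k'| + 2 w)) ≥
c''/w`. So the sum is at least `c / w ≥ c' kf 0`. -/
def GalStmt : Prop :=
  ∀ (d : ℕ) (a : ℝ), 3 ≤ d → 0 < a → ∃ c C : ℝ, 0 < c ∧ c ≤ 1 / 2 ∧ 1 ≤ C ∧
    ∀ (M : ℕ) [NeZero M] (ζ : ℂ) (p : Tor d M), |ζ.re| ≤ 2 * d - a → 0 < ζ.im → ζ.im ≤ c →
      C / ζ.im ≤ M → (∀ i, 8 * |((p i).valMinAbs : ℝ)| ≤ M) →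
        kf ζ p ≤ (1 - c * min 1 (ds p / ζ.im ^ 2)) * kf ζ (0 : Tor d M)

/-- FRB: the free resolvent. Proof: (1) `RalStmt` (11), `(e - z)⁻¹ = i ∫_0^∞ e^{-i t (e - z)} dt`, dyadic
blocks `1 ≤ 2^k`, `2^{k+1} ≤ M/40`: `BktStmt`; the sum over `k` of `2^{-k/3} (1 + k)` is bounded; `t ≤ 1`: `1`;
`t ≥ M/160`: `e^{-w M/160} / w ≤ 1`. (2) `SobStmt` at `(Re z, w)` for the function `f = G₀ δ_x`: `f̂ =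
conj-character / (es - z)`, `|f̂| = 1 / mt`, `qn = pm (1 / mt) ≤ C (1 + log (1/w))` (`DsuStmt`), so
`(∑ |f|⁴)^{1/2} ≤ C w^{-1/3} (1 + log M)² (1 + log (1/w))`. -/
def FrbStmt : Prop :=
  ∀ d : ℕ, 3 ≤ d → ∃ C : ℝ, 1 ≤ C ∧ ∀ (M : ℕ) [NeZero M] (z : ℂ), 0 < z.im → z.im ≤ 1 →
    C / z.im ^ 2 ≤ M → ∀ x : Tor d M, (∀ y, ‖rs (0 : Tor d M → ℝ) z x y‖ ≤ C) ∧
      ∑ y, ‖rs (0 : Tor d M → ℝ) z x y‖ ^ 4 ≤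
        C * z.im ^ (-(2 / 3 : ℝ)) * (1 + Real.log M) ^ 6

/-- MBR: the self-energy. Proof: `F(ζ) = rs 0 ζ 0 0 = pm 1 / (es - ζ)`. For `|Re ζ| ≤ 2 d - a/2`,
`0 < Im ζ ≤ c`, `C / Im ζ ≤ M`: `c₁ ≤ Im F ≤ C₁` (`DslStmt`, `DsuStmt`) and `|F| ≤ C₁ (1 + log (1 / Im ζ))`. The
set of the `m` with `c₁ ≤ Im m ≤ C₁`, `|m| ≤ 2 C₁ (1 + log (1/(c₁ T)))` is convex, complete, and
`Φ(m) = F(E + i η + T m)` maps it into itself (`T |m|` is small, `Im (E + i η + T m) ≥ c₁ T`). `Φ' =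
T F' = T bh (·) 0`, and by `KhbStmt` (cosine of `0` is `1`) `|bh ζ 0| ≤ C (1 + log (1/w)) w^{-1/2}`, so
`|Φ'| ≤ C T^{1/2} log (1/T) ≤ 1/2`: Banach's fixed point theorem. -/
def MbrStmt : Prop :=
  ∀ (d : ℕ) (a : ℝ), 3 ≤ d → 0 < a → ∃ c₁ C₁ : ℝ, 0 < c₁ ∧ c₁ ≤ 1 ∧ 1 ≤ C₁ ∧
    ∀ (M : ℕ) [NeZero M] (E η T : ℝ), |E| ≤ 2 * d - a → 0 < η → η ≤ T → T ≤ c₁ → C₁ / T ^ 2 ≤ M →
      ∃ m : ℂ, rs (0 : Tor d M → ℝ) (⟨E, η⟩ + (T : ℂ) * m) 0 0 = m ∧ c₁ ≤ m.im ∧ m.im ≤ C₁ ∧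
        ‖m‖ ≤ C₁ * (1 + Real.log (1 / T))

/-- INM: the matrices `S`, `Pl`. Proof: `FmuStmt`, `LowStmt`, `ds > 0` for `p ≠ 0`, `ds p ≥ 16 / M²`. -/
def InmStmt : Prop :=
  ∀ d : ℕ, 3 ≤ d → ∃ C : ℝ, 1 ≤ C ∧ ∀ (M : ℕ) [NeZero M] (J : ℕ) (cs w : ℝ)
    (S Pl : Matrix (Tor d M) (Tor d M) ℝ), 1 ≤ J → 1 ≤ cs → 0 < w → w ≤ 1 →
    S = mlt (sy0 cs w J) → Pl = mlt (fun p => if p ∈ low d M J then 1 else 0) →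
      ((∀ a b, S a b = S b a) ∧ (∀ f, 0 ≤ qf S f) ∧ (∀ a, ∑ b, S a b = 0) ∧
        ∀ a, w * S a a ≤ C * cs * (((J : ℝ) / M) ^ d + w ^ 2 * ((J : ℝ) / M) ^ (d - 2))) ∧
      ((∀ a b, Pl a b = Pl b a) ∧ Pl * Pl = Pl ∧ (∀ a, Pl a a ≤ C * ((J : ℝ) / M) ^ d) ∧
        (∀ a, ∑ b, Pl a b = 1) ∧ S * Pl = S) ∧
      ∀ f, qf S f ≤ 2 * cs / w * (M : ℝ) ^ 2 * ∑ a, f a ^ 2

/-- INW: the initial form bound. Proof: `KftStmt`, `FmuStmt`: with `τ kf 0 = 1` the matrix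
`τ Dl K + P0` has the symbol `1 - τ kf p` for `p ≠ 0`, `1` for `p = 0` (`∑_b K a b = kf 0`), and `A⁻¹` has the
symbol `1 / (e₀ + τ sy0 p)`. `p = 0`: `e₁ ≤ e₀`. `p ∉ low`: `e₁ / e₀ ≤ 1 - β`. `p ∈ low`, `p ≠ 0`:
`(e₀ + τ cs (1/w + w/ds)) c min (1, ds/w²) ≥ (τ cs / w) c (1 + w²/ds) min (1, ds/w²) ≥ c cs τ / w ≥ 2 ≥ e₁`. -/
def InwStmt : Prop :=
  ∀ (d M : ℕ) [NeZero M] (ζ : ℂ) (J : ℕ) (cs e₀ e₁ β c τ : ℝ), 0 < ζ.im → 0 < τ →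
    τ * kf ζ (0 : Tor d M) = 1 → 0 < c → 0 < cs → 0 ≤ β → e₁ ≤ e₀ * (1 - β) → 0 < e₀ → e₁ ≤ 2 →
    0 < e₁ → 2 * ζ.im ≤ c * cs * τ →
    (∀ p : Tor d M, p ∉ low d M J → |kf ζ p| ≤ β * kf ζ (0 : Tor d M)) →
    (∀ p : Tor d M, p ∈ low d M J →
      kf ζ p ≤ (1 - c * min 1 (ds p / ζ.im ^ 2)) * kf ζ (0 : Tor d M)) →
      ∀ f : Tor d M → ℝ, e₁ * qf (e₀ • (1 : Matrix (Tor d M) (Tor d M) ℝ) +
          τ • mlt (sy0 cs ζ.im J))⁻¹ f ≤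
        qf (τ • Dl (KK (rs (0 : Tor d M → ℝ) ζ)) + P0 (Tor d M)) f

/-- MSS: the mass of `S`. Proof: the sum is `qf S` of the indicator `f` of `C'`, `= pm (sy0 |f̂|²)`
(`FmuStmt`). The momenta outside of `low J₁`: `sy0 ≤ cs (1/w + w M²/(16 J₁²))` (`LowStmt`),
`pm |f̂|² = |C'|`. Inside: `|f̂| ≤ |C'|` and `LowStmt`. -/
def MssStmt : Prop :=
  ∀ d : ℕ, 3 ≤ d → ∃ C : ℝ, 1 ≤ C ∧ ∀ (M : ℕ) [NeZero M] (J J₁ : ℕ) (cs w : ℝ)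
    (C' : Finset (Tor d M)), 1 ≤ J₁ → 0 < cs → 0 < w →
      ∑ x ∈ C', ∑ y ∈ C', mlt (sy0 cs w J) x y ≤
        C * cs * ((1 / w + w * (M : ℝ) ^ 2 / (J₁ : ℝ) ^ 2) * C'.card +
          (((J₁ : ℝ) / M) ^ d / w + w * ((J₁ : ℝ) / M) ^ (d - 2)) * (C'.card : ℝ) ^ 2)

/-! ### G. Numbers, the torus, the final theorem -/

/-- INI: the parameters. Proof: `s = |σ|`, `θ = ε / (24 d)`, `T = σ²`, `m` from `MbrStmt`, `w = η + T Im m`,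
`c σ² ≤ w ≤ C σ²`; `ζ = zt 0`, `|Re ζ| ≤ 2 d - a/2` and `|Re ζ| ≥ |E| / 2` (`T |m| ≤ C σ² l ≤ s^{2-ε} / 2`,
`l = log (1/s)`). `δ = s^{5θ}`, `ε₁ = s^{3θ}`, `e₀ = 1 + s^{3θ}`, `e₁ = 1 + s^{3θ}/2`, `L₀ = s^{-6θ}`,
`j = ⌈s^{-θ}⌉`, `p = ⌈s^{-4θ}⌉`, `J = ⌈M s^{2 - ε/(2d)}⌉` (so `J/M ≤ 2 s^{2-ε/(2d)} ≤ 1/8`), `S`, `Pl` from
`InmStmt`, `π₀ = C (J/M)^d` (`w² (J/M)^{d-2} ≤ (J/M)^d`), so `π₀/η ≤ C s^{ε/2}`;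
`N = δ^{-4} C w^{-2/3} (1 + log M)^6` (`FrbStmt`; `nr` has at most `δ^{-4} ∑ |G₀|⁴` points), so
`N w ≤ s^{2/3 - 20θ} l^C ≤ s^{20θ}`; `La(0) = ∑ |G₀|⁴ ≤ N`, `Ls(0) ≥ L₀ N`.
`cs` large. `ϖ = δ w / (C M²)`. `k₀` with `M^d ε₁^{2 k₀} ≤ 1/4`: `6 θ k₀ > d (4 d + 6)`.
`hY`: `|Y(0)| ≤ τ sup |bh|`, `BqbStmt` with `r = s^{2-ε/(2d)}`: `C l ((w/r)^{1/2} + w/|Re ζ|) ≤
C l (s^{ε/(4d)} + s^ε) ≤ s^{3θ}/2` (`3 θ = ε/(8d)`). `hW`: `InwStmt`, `GalStmt`, and `KhbStmt` for `p ∉ low`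
(`|sin (π p_i / M)| ≥ 2 J/M` for some `i`): `β = C l (w/r)^{1/2} ≤ s^{3θ}/8`.
`ch ≤ 3 s^{14θ}`; `aN ≤ C s^θ`: `j ch^{1/2}/δ ≤ C s^{(-1+7-5)θ}`, `j δ/ε₁ ≤ C s^θ`, `j² ch/δ² ≤ C s^{2θ}`,
`j² (N w + δ²)/ε₁² ≤ C s^{2θ}`, `j² L₀^{-1/2}`, `j² ε₁`, `j² (e₀ - 1)`, `p δ ≤ C s^θ`, `p² (…) ≤ C s^{2θ}`.
`(1/e₁)^p ≤ exp (- s^{-θ}/4)`, `4^{-j} ≤ exp (- s^{-θ})`.
The last part: `MssStmt` with `J₁ = ⌈M s^{-ε/4} (η w)^{1/2}⌉`: `η (1/w + w M²/J₁²) ≤ C s^{ε/2}`;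
`η |C'| w (J₁/M)^{d-2} (1 + (J₁/M)²/w²) ≤ C |C'| (J₁/M)^d s^{ε/2}`, and `|C'| (J₁/M)^d ≤
C s^{-d(d+1-ε) + d(d+1-ε/2) - dε/4} ≤ C`. -/
def IniStmt : Prop :=
  ∀ (d : ℕ) (a ε : ℝ), 3 ≤ d → 0 < a → 0 < ε → ε ≤ 1 → ∃ (θ c₁ C₁ : ℝ) (k₀ : ℕ), 0 < θ ∧
    θ ≤ 1 / 10 ∧ 0 < c₁ ∧ 1 ≤ C₁ ∧ ∀ c₀ : ℝ, 0 < c₀ → ∃ c C : ℝ, 0 < c ∧ c ≤ 1 / 4 ∧ 1 ≤ C ∧
      ∀ (M : ℕ) [NeZero M] (σ E η : ℝ), σ ≠ 0 → |σ| ≤ c → |σ| ^ (2 - ε) ≤ |E| →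
        |E| ≤ 2 * d - a → η = |σ| ^ (2 * (d : ℝ) - ε) → |σ| ^ (-(4 * (d : ℝ) + 4)) ≤ M →
        (M : ℝ) ≤ |σ| ^ (-(4 * (d : ℝ) + 6)) →
          ∃ D : Dat d M, Adm D c₁ C₁ c₀ k₀ ∧ D.E = E ∧ D.η = η ∧ D.T = σ ^ 2 ∧
            D.aN ≤ C * |σ| ^ θ ∧ (D.p : ℝ) ≤ |σ| ^ (-1 : ℝ) ∧ D.δ ≤ |σ| ^ θ ∧
            D.e₀ - 1 ≤ |σ| ^ θ ∧ D.w ≤ 1 ∧
            (1 / 4 : ℝ) ^ D.j + (1 / D.e₁) ^ D.p ≤ Real.exp (-(|σ| ^ (-θ) / 8)) ∧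
            ∀ C' : Finset (Tor d M), (C'.card : ℝ) ≤ |σ| ^ (-((d : ℝ) * (d + 1 - ε))) →
              ∑ x ∈ C', ∑ y ∈ C', D.S x y ≤ |σ| ^ θ * C'.card / η

/-- TOF: the torus. Proof: `IniStmt`, `UprStmt`, `OutStmt` (`c₀` = the minimum of the two). `C aN
(1 + log (w/η)) ≤ 1` for small `σ`; the probability is at most `|σ|^{-C} exp (- |σ|^{-θ}/8) ≤ |σ|^{A'}`.
`|C'| / M^d ≤ |σ|^{-d(d+1)} |σ|^{d(4d+4)}`. -/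
def TofStmt : Prop :=
  ∀ (d : ℕ) (a ε A' : ℝ), 3 ≤ d → 0 < a → 0 < ε → ε ≤ 1 → 1 ≤ A' → ∃ θ c : ℝ, 0 < θ ∧ 0 < c ∧
    c ≤ 1 / 4 ∧ ∀ (M : ℕ) [NeZero M] (v : ℝ≥0) (σ E η : ℝ), (v : ℝ) = σ ^ 2 → σ ≠ 0 → |σ| ≤ c →
      |σ| ^ (2 - ε) ≤ |E| → |E| ≤ 2 * d - a → η = |σ| ^ (2 * (d : ℝ) - ε) →
      |σ| ^ (-(4 * (d : ℝ) + 4)) ≤ M → (M : ℝ) ≤ |σ| ^ (-(4 * (d : ℝ) + 6)) →
        gau d M v {V | ¬ ((∀ x, c ≤ (rs V ⟨E, η⟩ x x).im) ∧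
          ∀ C' : Finset (Tor d M), (C'.card : ℝ) ≤ |σ| ^ (-((d : ℝ) * (d + 1 - ε))) →
            mss V ⟨E, η⟩ C' ≤ |σ| ^ θ * C'.card / η)} ≤ ENNReal.ofReal (|σ| ^ A')

/-- CPY: the probability of the large clusters. Proof: as `CpxStmt` (`Helper54_LQD/CPX.lean`), with
`TofStmt` in place of `TomStmt`: `η = |σ|^{2d - ε}`, `L = ⌈K' / σ²⌉`, `N₀ = ⌊|σ|^{-d(d+1-ε)} / (4 L^d)⌋`,
`R₁ = ⌈C l / η⌉`, `J₂ = ⌈C l⌉`, `R = J₂ (R₁ + ρ₁) + ρ₁ ≤ |σ|^{-2d}`, `M = ⌈|σ|^{-(4d+5)}⌉`,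
`n = ⌊n₁ N₀ / 2^d⌋`. In the second alternative of `GroStmt` `2 N₀ L^d ≤ |σ|^{-d(d+1-ε)}`, so `ClsStmt` gives
`c ≤ K (|σ|^θ L^d / n₁ + η)`, `L^d / n₁ ≤ l^C`: impossible for small `σ`. -/
def CpyStmt : Prop :=
  ∀ (d : ℕ) (a ε A : ℝ), 3 ≤ d → 0 < a → 0 < ε → ε ≤ 1 → 1 ≤ A → ∃ c K : ℝ, 0 < c ∧ c ≤ 1 / 4 ∧
    1 ≤ K ∧ ∀ σ E : ℝ, σ ≠ 0 → |σ| ≤ c → |σ| ^ (2 - ε) ≤ |E| → |E| ≤ 2 * d - a →
      ∃ (n ρ J : ℕ) (s : ℝ), 1 ≤ s ∧ s ≤ K * Real.log (1 / |σ|) ∧ 1 ≤ ρ ∧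
        (ρ : ℝ) ≤ |σ| ^ (-(2 * (d : ℝ) + 1)) ∧ 1 ≤ J ∧ (J : ℝ) ≤ K * Real.log (1 / |σ|) ^ 2 ∧
        1 ≤ n ∧ (n : ℝ) ≤ |σ| ^ (-((d : ℝ) * (d + 1))) ∧
        |σ| ^ (-((d : ℝ) * (d + 1 - ε))) ≤ K * Real.log (1 / |σ|) ^ (4 * d) * n ∧
        ∀ (N : ℕ) (b : Site d), box b ρ ⊆ box 0 N →
          PP d (gl σ) {V | ¬ n ≤ (rch V (box 0 N) E s b ρ J).card} ≤ ENNReal.ofReal (|σ| ^ A)

/-- QFF: the final bound. Proof: `CpyStmt` with `ε/2` and `A = d (d + 1)`, `CrgStmt` with `q = |σ|^A`,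
`q n ≤ 1`: `γ ≤ C J (s + l + log ρ) n^{-1/d} ≤ C l^8 |σ|^{d + 1 - ε/2}`. -/
def QffStmt : Prop :=
  ∀ (d : ℕ) (a ε : ℝ), 3 ≤ d → 0 < a → 0 < ε → ε ≤ 1 → ∃ c C : ℝ, 0 < c ∧ c ≤ 1 / 4 ∧ 1 ≤ C ∧
    ∀ σ E g : ℝ, σ ≠ 0 → |σ| ≤ c → |σ| ^ (2 - ε) ≤ |E| → |E| ≤ 2 * d - a → LyaAt d σ E g →
      g ≤ C * |σ| ^ ((d : ℝ) + 1 - ε)

end Pool.Agent.LE.QF
end
end -- Pool.Agent.LE.StmtsQH

section -- Pool.Agent.LE.DefsQX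

/-!
# Diffusion down to the scale `η = exp (- |σ|^{-θ})`: definitions

The same functional as in `DefsQF.lean`, with a better bound `Ls` for `La`: the drift of `La` is
`4 K³(a, a) + …`, and with `x = K e_a` the form bound gives
`τ ⟨x, K x⟩ ≤ ε₃ |x|² + τ ⟨x, S x⟩ + ⟨x, P0 x⟩`, `⟨x, S x⟩ ≤ (∑ x)² max S(b, b) ≤ (4/τ²) max S(b, b)`. So there
is no lower limit for `κ`. The inverse `(1 - Y)⁻¹` has the norm `h = 2 k + 1` in `ℓ^∞`, `k` grows with `log M`.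
-/

set_option autoImplicit false

open MeasureTheory ProbabilityTheory

open scoped ENNReal BigOperators NNReal Matrix

noncomputable section

namespace Pool.Agent.LE.QX

open Pool.Agent.Anderson hiding box mem_box card_box
open Pool.Agent.Loc Pool.Agent.Mob Pool.Agent.Helper54.Bal
  Pool.Agent.Helper96.EXP Pool.Agent.BED
open Pool.Agent.LE.MN Pool.Agent.LE.CL Pool.Agent.LE.IR Pool.Agent.LE.QD Pool.Agent.LE.QF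

/-! ### the flow on the torus -/

/-- the parameters: the final energy is `E + i η`, the variance is `T`, the self-energy `m`; `δ` bounds
the fluctuations, `N` is the number of the near points, `π₀` bounds `S a a + 1 / (η M^d)`, `S` is a
Fourier multiplier, `k` the number of the steps for `(1 - Y)⁻¹` -/
structure Dat (d M : ℕ) where
  E : ℝ
  η : ℝ
  T : ℝ
  m : ℂ
  δ : ℝ
  ε₁ : ℝ
  e₀ : ℝ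
  e₁ : ℝ
  ϖ : ℝ
  L₀ : ℝ
  N : ℝ
  π₀ : ℝ
  S : Matrix (Tor d M) (Tor d M) ℝ
  k : ℕ
  j : ℕ
  p : ℕ

variable {d M : ℕ} [NeZero M]

namespace Dat

variable (D : Dat d M)

/-- the imaginary part of the energy at the time `t` -/
def kp (t : ℝ) : ℝ := D.η + (D.T - t) * D.m.im

/-- `τ = κ / Im m` -/
def ta (t : ℝ) : ℝ := D.kp t / D.m.im

/-- the energy at the time `t` -/
def zt (t : ℝ) : ℂ := ⟨D.E, D.η⟩ + ((D.T - t : ℝ) : ℂ) * D.m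

/-- the initial imaginary part -/
def w : ℝ := D.kp 0

/-- the resolvent -/
def G (r : ℝ × (Tor d M → ℝ)) : Matrix (Tor d M) (Tor d M) ℂ := rs r.2 (D.zt r.1)

/-- the free resolvent -/
def G0 : Matrix (Tor d M) (Tor d M) ℂ := rs (0 : Tor d M → ℝ) (D.zt 0)

/-- the near points -/
def nr (a : Tor d M) : Finset (Tor d M) := by
  classical
  exact Finset.univ.filter fun b => D.δ < ‖D.G0 a b‖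

/-- the fluctuation of the diagonal -/
def mu (r : ℝ × (Tor d M → ℝ)) (a : Tor d M) : ℂ := D.G r a a - D.m

/-- `Y = τ B` -/
def Y (r : ℝ × (Tor d M → ℝ)) : Matrix (Tor d M) (Tor d M) ℂ := (D.ta r.1 : ℂ) • BB (D.G r)

/-- `Θ = (1 - Y)⁻¹` -/
def Th (r : ℝ × (Tor d M → ℝ)) : Matrix (Tor d M) (Tor d M) ℂ := (1 - D.Y r)⁻¹

/-- `φ = Θ μ` -/
def ph (r : ℝ × (Tor d M → ℝ)) : Tor d M → ℂ := D.Th r *ᵥ D.mu r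

/-- `G + τ G φ G - G₀` -/
def Xh (r : ℝ × (Tor d M → ℝ)) : Matrix (Tor d M) (Tor d M) ℂ :=
  D.G r + (D.ta r.1 : ℂ) • GD (D.G r) (D.ph r) - D.G0

/-- `∑_b |G(a, b)|⁴` -/
def La (r : ℝ × (Tor d M → ℝ)) (a : Tor d M) : ℝ := ∑ b, KK (D.G r) a b ^ 2

/-- the bound for `La` -/
def Ls (t : ℝ) : ℝ := D.L₀ * (D.N + D.π₀ / D.kp t + D.δ ^ 4 / D.kp t)

/-- the Laplacian `τ (diag (K 1) - K)` -/
def X (r : ℝ × (Tor d M → ℝ)) : Matrix (Tor d M) (Tor d M) ℝ := D.ta r.1 • Dl (KK (D.G r))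

/-- `e₀ + τ S` -/
def A (t : ℝ) : Matrix (Tor d M) (Tor d M) ℝ := D.e₀ • (1 : Matrix (Tor d M) (Tor d M) ℝ) + D.ta t • D.S

/-- `(X + P0 + ϖ)⁻¹` -/
def W (r : ℝ × (Tor d M → ℝ)) : Matrix (Tor d M) (Tor d M) ℝ :=
  (D.X r + P0 (Tor d M) + D.ϖ • (1 : Matrix (Tor d M) (Tor d M) ℝ))⁻¹

/-- the part of `φ` -/
def U1 (r : ℝ × (Tor d M → ℝ)) : ℝ := ∑ a, (‖D.ph r a‖ ^ 2 / D.δ ^ 2) ^ D.j

/-- the part of `Xh` -/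
def U2 (r : ℝ × (Tor d M → ℝ)) : ℝ := ∑ a, ∑ b, (‖D.Xh r a b‖ ^ 2 / D.δ ^ 2) ^ D.j

/-- the part of `Y` -/
def U3 (r : ℝ × (Tor d M → ℝ)) : ℝ :=
  (Matrix.trace ((D.Y r * (D.Y r)ᴴ) ^ D.j)).re / D.ε₁ ^ (2 * D.j)

/-- the part of `La` -/
def U4 (r : ℝ × (Tor d M → ℝ)) : ℝ := ∑ a, (D.La r a / D.Ls r.1) ^ D.j

/-- the part of `W` -/
def U5 (r : ℝ × (Tor d M → ℝ)) : ℝ := Matrix.trace (((D.A r.1)⁻¹ * D.W r) ^ D.p)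

/-- the functional -/
def U (r : ℝ × (Tor d M → ℝ)) : ℝ := D.U1 r + D.U2 r + D.U3 r + D.U4 r + D.U5 r

/-- bounds `kp t * Ls t` -/
def ch : ℝ := D.L₀ * (D.N * D.w + D.π₀ + D.δ ^ 4)

/-- bounds the rows of `Θ` -/
def h : ℝ := 2 * D.k + 1

/-- the size of the errors: `LL U` is at most `aN / κ` times `U`, nearly -/
def aN : ℝ :=
  D.j * (D.h ^ 2 * (D.δ + Real.sqrt D.ch / D.δ) + D.δ / D.ε₁) +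
    D.j ^ 2 * (D.h ^ 4 * (D.ch / D.δ ^ 2) + (D.N * D.w + D.δ ^ 2) / D.ε₁ ^ 2 +
      1 / Real.sqrt D.L₀ + D.ε₁ + (D.e₀ - 1)) +
    D.p * D.δ + D.p ^ 2 * (D.N * D.w + D.δ ^ 2 + D.π₀)

/-- the additive errors -/
def bN : ℝ := 2 * ((M : ℝ) ^ d) ^ 2 * ((1 / 4) ^ D.j + (1 / D.e₁) ^ D.p)

end Dat

/-- the hypotheses on the parameters and the initial values; `c₁ ≤ 1 ≤ C₁`, `c₀` is small -/
structure Adm (D : Dat d M) (c₁ C₁ c₀ : ℝ) : Prop where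
  hT : 0 < D.T ∧ 0 < D.η ∧ D.w ≤ 1 ∧ D.η ≤ D.T
  hm : c₁ ≤ D.m.im ∧ D.m.im ≤ C₁
  hfix : ∀ a, D.G0 a a = D.m
  hδ : 0 < D.δ ∧ D.δ ≤ D.ε₁ ∧ D.ε₁ ≤ c₀
  hk : 1 ≤ D.k ∧ D.k * D.δ ≤ c₀ ∧ (M : ℝ) ^ d * D.ε₁ ^ (2 * D.k) ≤ 1 / 4
  he : 1 < D.e₁ ∧ D.e₁ ≤ D.e₀ ∧ D.e₀ ≤ 2
  hj : 2 ≤ D.j ∧ 2 ≤ D.p ∧ 1 ≤ D.L₀ ∧ 1 ≤ D.N ∧ 0 ≤ D.π₀
  h0 : ∀ a b, ‖D.G0 a b‖ ≤ C₁
  hN : ∀ a, ((D.nr a).card : ℝ) ≤ D.N
  hY : ∀ u, n2 (D.Y 0 *ᵥ u) ≤ (D.ε₁ / 2) ^ 2 * n2 u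
  hL : ∀ a, 4 * D.La 0 a ≤ D.Ls 0
  hS : (∀ a b, D.S a b = D.S b a) ∧ (∀ f, 0 ≤ qf D.S f) ∧ (∀ a, ∑ b, D.S a b = 0) ∧
    ∀ a, D.S a a + 1 / (D.η * (M : ℝ) ^ d) ≤ D.π₀
  hϖ : 0 < D.ϖ ∧ D.ϖ ≤ D.δ ∧ ∀ f, D.ϖ * qf (D.A 0) f ≤ D.δ * ∑ a, f a ^ 2
  hW : ∀ f, D.e₁ * qf (D.A 0)⁻¹ f ≤ qf (D.X 0 + P0 (Tor d M)) f

end Pool.Agent.LE.QX
end
end -- Pool.Agent.LE.DefsQX

section -- Pool.Agent.LE.StmtsQX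

/-!
# Diffusion down to the scale `η = exp (- |σ|^{-θ})`; `γ(σ, E) ≤ exp (- |σ|^{-θ})` in the bulk

The general rows of `StmtsQF.lean` and `StmtsQG.lean` (parts A - D) are used again. Here: the new bound
for `La`, the functional (the rows `NNU` - `OUT` have the same names and nearly the same proofs as in
`QF`: copy the file, change the namespace to `Pool.Agent.LE.QX.HXX`, open `Pool.Agent.LE.QF`), the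
numbers, the final theorems `QxfStmt`, `EigStmt`.
-/

set_option autoImplicit false

open MeasureTheory ProbabilityTheory Function Filter

open scoped ENNReal BigOperators Topology NNReal ComplexOrder Matrix

noncomputable section

namespace Pool.Agent.LE.QX

open Pool.Agent.Anderson hiding box mem_box card_box
open Pool.Agent.Loc Pool.Agent.Mob Pool.Agent.Helper54.Bal
  Pool.Agent.Helper96.EXP Pool.Agent.BED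
open Pool.Agent.LE.MN Pool.Agent.LE.CL Pool.Agent.LE.IR Pool.Agent.LE.QD Pool.Agent.LE.QF

/-- LMB: drift and gradient of `Λ(a)`. Proof: as `QF.LmbStmt`, with a simpler bound for `K³(a, a)`:
`x = K e_a`, `Λ = |x|²`, `∑ x ≤ 2/τ`; `K³(a, a) = qf K x ≤ (1/τ) (ε₃ Λ + τ qf S x + qf P0 x)`,
`qf S x ≤ (∑ x)² max S b b` (`|S b c| ≤ (S b b S c c)^{1/2}`), `qf P0 x = (∑ x)² / |X|`; so
`K³(a, a) ≤ (ε₃/τ) Λ + (4/τ²) (max S b b + 1/(τ |X|)) ≤ (C/κ) (ε₃ Λ + π₀/κ)`. The other terms: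
`|∑ conj (B a b) B a c B c b| ≤ (ε₁/τ) Λ`; `|(K E_K) a a| ≤ Λ^{1/2} (∑_b (E_K a b)²)^{1/2}`,
`∑_b (E_K a b)² ≤ 4 ∑_b K a b |(G μ G) a b|² ≤ C δ² κ^{-2} (N + δ²/κ)`. The gradient is at most
`16 Λ K³(a, a)`. -/
def LmbStmt : Prop :=
  ∀ C₀ : ℝ, 1 ≤ C₀ → ∃ C : ℝ, 1 ≤ C ∧ ∀ (X : Type) [Fintype X] [DecidableEq X]
    (G : Matrix X X ℂ) (μ : X → ℂ) (𝒩 : X → Finset X) (S : Matrix X X ℝ)
    (κ τ δ N π₀ ε₁ ε₃ : ℝ) (a : X), GdM G μ 𝒩 κ τ δ N C₀ → 0 ≤ ε₁ → 0 ≤ ε₃ →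
    (∀ a b, S a b = S b a) → (∀ f, 0 ≤ qf S f) →
    (∀ a, S a a + 1 / (κ * (Fintype.card X : ℝ)) ≤ π₀) →
    (∀ v : X → ℂ, n2 (BB G *ᵥ v) ≤ (ε₁ / τ) ^ 2 * n2 v) →
    (∀ f : X → ℝ, τ * qf (KK G) f ≤ ε₃ * ∑ b, f b ^ 2 + τ * qf S f + qf (P0 X) f) →
      lLa G μ a ≤ C / κ * (π₀ / κ + (ε₃ + ε₁) * ∑ b, KK G a b ^ 2 +
        Real.sqrt ((∑ b, KK G a b ^ 2) * (δ ^ 2 * (N + δ ^ 2 / κ)))) ∧
      ∑ c, (2 * ∑ b, KK G a b * dK G c a b) ^ 2 ≤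
        (∑ b, KK G a b ^ 2) * (C / κ * (π₀ / κ + ε₃ * ∑ b, KK G a b ^ 2))

/-! ### E. The functional on the torus -/

/-- the state of the flow at a point with `U < 1` -/
structure Goo {d M : ℕ} [NeZero M] (D : Dat d M) (q : ℝ × (Tor d M → ℝ)) (κ τ C₀ : ℝ) : Prop where
  hκ : κ = D.kp q.1 ∧ τ = D.ta q.1 ∧ D.η ≤ κ ∧ κ ≤ D.w ∧ 0 < τ ∧ τ ≤ C₀ * κ ∧ κ ≤ C₀ * τ
  hG : GdM (D.G q) (D.mu q) D.nr κ τ D.δ D.N C₀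
  hu : IsUnit (1 - D.Y q).det
  hT : ∀ a, ∑ b, ‖D.Th q a b‖ ≤ D.h
  hφ : ∀ a, ‖D.ph q a‖ ≤ D.δ
  hμ : ∀ a, D.mu q a = D.ph q a - τ * (BB (D.G q) *ᵥ D.ph q) a
  hL : ∀ a, D.La q a ≤ D.Ls q.1
  hB : ∀ u : Tor d M → ℂ, n2 (BB (D.G q) *ᵥ u) ≤ (D.ε₁ / τ) ^ 2 * n2 u
  hA : ∀ f, qf (D.A q.1)⁻¹ f ≤ qf (D.X q + P0 (Tor d M) + D.ϖ • (1 : Matrix (Tor d M) (Tor d M) ℝ)) f
  h5 : D.U5 q ≤ 1
  hK : ∀ f : Tor d M → ℝ, τ * qf (KK (D.G q)) f ≤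
    (C₀ * D.δ + (D.e₀ - 1)) * ∑ b, f b ^ 2 + τ * qf D.S f + qf (P0 (Tor d M)) f

/-- NNU: the parts are nonnegative. Proof: `U1`, `U2` clear; `U3`: the trace of a power of a positive
semidefinite matrix; `U4`: `Ls > 0`; `U5`: `WabStmt` (`τ > 0`, `X = τ Dl K ≥ 0` because
`qf (Dl K) f = (1/2) ∑ K a b (f a - f b)²`). `kp t > 0` for `t < T + η / Im m`. -/
def NnuStmt : Prop :=
  ∀ (d M : ℕ) [NeZero M] (D : Dat d M) (c₁ C₁ c₀ : ℝ) (q : ℝ × (Tor d M → ℝ)),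
    0 < c₁ → Adm D c₁ C₁ c₀ → 0 < D.kp q.1 →
      0 ≤ D.U1 q ∧ 0 ≤ D.U2 q ∧ 0 ≤ D.U3 q ∧ 0 ≤ D.U4 q ∧ 0 ≤ D.U5 q

/-- RSJ: the resolvent. Proof: (1) `hz V z` has the jet `(hz, E_c, m)` at `(t, V)` (the derivative of
`- zt` is `m`); `JmaStmt` (inverse): `∂_c G = - G E_c G`, `LL G = - m G G + ∑_c G E_c G E_c G = G μ G`.
(2) symmetry, (3) `G - G^* = 2 i κ G G^*`. (4) `τ' = - 1`, `κ' = - Im m`, bounds. -/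
def RsjStmt : Prop :=
  ∀ (d M : ℕ) [NeZero M] (D : Dat d M) (c₁ C₁ c₀ : ℝ)
    (q : ℝ × (Tor d M → ℝ)), 0 < c₁ → Adm D c₁ C₁ c₀ → 0 < D.kp q.1 →
      JHyp q D.G D.ta (D.G q) D.m (D.ta q.1) ∧
      (∀ a b, ((D.kp q.1 : ℝ) : ℂ) * ∑ c, D.G q a c * (starRingEnd ℂ) (D.G q b c) =
        ((D.G q a b).im : ℂ)) ∧
      (∀ a b, D.G0 a b = D.G0 b a) ∧ D.kp q.1 = D.ta q.1 * D.m.im ∧
      (0 ≤ q.1 → q.1 ≤ D.T → D.η ≤ D.kp q.1 ∧ D.kp q.1 ≤ D.w) ∧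
      ContDiffAt ℝ 2 D.Ls q.1 ∧ 0 ≤ deriv D.Ls q.1

/-- GOD: a point with `U < 1` is good. Proof: as `QF.GodStmt`: every part is `< 1` (`NnuStmt`). `U1`:
`|φ a| < δ`. `U2`: `|Xh a b| < δ`. `U3`: `tr (Y Y^*)^j ≥ |Y|^{2j}`, so `|Y| < ε₁ < 1`, `1 - Y` is
invertible, `μ = (1 - Y) φ`. `U4`: `La < Ls`. `GdcStmt`, `ThbStmt` with `k₀ = k`, `s = C₀ δ` (rows of `Y`:
`τ ∑ |G a b|² ≤ 1 + C₀ δ`; `(1 + s)^k ≤ exp (C₀ k δ) ≤ 2` as `k δ ≤ c₀`). `U5 ≤ 1`: `WabStmt`. `hK`: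
`qf A⁻¹ f ≤ qf X f + qf P0 f + ϖ ∑ f²`, `qf X f = τ ∑ k_a f a² - τ qf K f ≤ (1 + C δ) ∑ f² - τ qf K f`,
and `A⁻¹ ≥ 1/e₀ - τ S` (`(e₀ + x)⁻¹ ≥ 1/e₀ - x/e₀²`, `e₀ ≥ 1`; or: `A⁻¹ - 1/e₀ + (τ/e₀²) S =
(τ²/e₀²) S A⁻¹ S ≥ 0`); `1 - 1/e₀ ≤ e₀ - 1`, `ϖ ≤ δ`. -/
def GodStmt : Prop :=
  ∀ (c₁ C₁ : ℝ), 0 < c₁ → 1 ≤ C₁ → ∃ c₀ C₀ : ℝ, 0 < c₀ ∧ c₀ ≤ 1 / 2 ∧ 1 ≤ C₀ ∧
      ∀ (d M : ℕ) [NeZero M] (D : Dat d M) (q : ℝ × (Tor d M → ℝ)), Adm D c₁ C₁ c₀ → 0 ≤ q.1 →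
        q.1 ≤ D.T → D.U q < 1 → Goo D q (D.kp q.1) (D.ta q.1) C₀

/-- UPA: the parts of `φ` and `Xh`. Proof: as `QF.UpaStmt`, with the factor `h`. `PhbStmt` for `± Θ / h`
(`QQ` is linear in `Θ`, `lph` is the sum of a linear and a quadratic term, so the two terms are bounded
by `h`, `h²` times the bound): `∑ |QQ|² ≤ C h² Λ`, `|lph| ≤ C h² (δ²/κ + (Λ/κ)^{1/2})`, `Λ = Ls`. `XhbStmt`
with `h⁴ Λ` in place of `Λ` (`h² δ²/κ ≤ (h⁴ Λ/κ)^{1/2}` because `δ⁴/κ ≤ Λ`). `PwuStmt` with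
`ℓ = C h² (δ²/κ + (Ls/κ)^{1/2})`, `γ = C h⁴ Ls`. `κ Ls ≤ ch` (`κ ≤ w`), so `(Ls/κ)^{1/2} ≤ ch^{1/2} / κ`,
`Ls ≤ ch / κ`: the rate is at most `(C/κ) (j h² (δ + ch^{1/2}/δ) + j² h⁴ ch/δ²) ≤ C aN / κ`. -/
def UpaStmt : Prop :=
  ∀ (c₁ C₁ C₀ : ℝ), 0 < c₁ → 1 ≤ C₁ → 1 ≤ C₀ → ∃ C : ℝ, 1 ≤ C ∧
      ∀ (d M : ℕ) [NeZero M] (D : Dat d M) (c₀ κ τ : ℝ) (q : ℝ × (Tor d M → ℝ)),
        Adm D c₁ C₁ c₀ → 0 ≤ q.1 → q.1 ≤ D.T → Goo D q κ τ C₀ →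
          ContDiffAt ℝ 2 D.U1 q ∧ ContDiffAt ℝ 2 D.U2 q ∧
          LL D.U1 q ≤ C * D.aN / κ * (D.U1 q + ((M : ℝ) ^ d) ^ 2 * (1 / 4) ^ D.j) ∧
          LL D.U2 q ≤ C * D.aN / κ * (D.U2 q + ((M : ℝ) ^ d) ^ 2 * (1 / 4) ^ D.j)

/-- UPB: the part of `Y`. Proof: `JtbStmt` (`LL Y = - (1/τ)(Y - Y²) + τ E_B`), `NrbStmt`:
`|τ E_B| ≤ C δ / κ`, the noise `τ² C (N/κ² + δ²/κ³) ≤ C (N + δ²/κ) ≤ C (N w + δ²) / κ`; `YtuStmt`. -/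
def UpbStmt : Prop :=
  ∀ (c₁ C₁ C₀ : ℝ), 0 < c₁ → 1 ≤ C₁ → 1 ≤ C₀ → ∃ C : ℝ, 1 ≤ C ∧
      ∀ (d M : ℕ) [NeZero M] (D : Dat d M) (c₀ κ τ : ℝ) (q : ℝ × (Tor d M → ℝ)), c₀ ≤ 1 / 2 →
        Adm D c₁ C₁ c₀ → 0 ≤ q.1 → q.1 ≤ D.T → Goo D q κ τ C₀ →
          ContDiffAt ℝ 2 D.U3 q ∧
          LL D.U3 q ≤ C * D.aN / κ * (D.U3 q + ((M : ℝ) ^ d) ^ 2 * (1 / 4) ^ D.j)

/-- UPC: the part of `Λ`. Proof: `JtlStmt`, `LmbStmt` with `ε₃ = C₀ δ + (e₀ - 1)` (`η ≤ κ`); `π₀/κ ≤ Ls/L₀`,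
`δ² (N + δ²/κ) ≤ Ls/L₀`, so `l ≤ (C/κ) (Ls/L₀ + (Ls Λ/L₀)^{1/2} + (ε₃ + ε₁) Λ)`; `LmuStmt` with
`ϵ = ε₃ + ε₁ ≤ C (ε₁ + (e₀ - 1))` (`δ ≤ ε₁`). -/
def UpcStmt : Prop :=
  ∀ (c₁ C₁ C₀ : ℝ), 0 < c₁ → 1 ≤ C₁ → 1 ≤ C₀ → ∃ C : ℝ, 1 ≤ C ∧
      ∀ (d M : ℕ) [NeZero M] (D : Dat d M) (c₀ κ τ : ℝ) (q : ℝ × (Tor d M → ℝ)),
        Adm D c₁ C₁ c₀ → 0 ≤ q.1 → q.1 ≤ D.T → Goo D q κ τ C₀ →
          ContDiffAt ℝ 2 D.U4 q ∧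
          LL D.U4 q ≤ C * D.aN / κ * (D.U4 q + ((M : ℝ) ^ d) ^ 2 * (1 / 4) ^ D.j)

/-- UPD: the part of `W`. Proof: `JtbStmt`, `WfbStmt` (a): `δ' = C δ` (`≤ 1` for small `c₀`);
(b), (c) with `S a a ≤ π₀`, `τ ≤ C κ`: `ν = C (N + δ²/κ + π₀/κ) ≤ (C/κ) (N w + δ² + π₀)`; `WtuStmt`
(`A` at the time `t` is at most `A` at the time `0`: `ϖ A ≤ δ`). The rate is at most
`(C/κ) (p δ + p² (N w + δ² + π₀)) ≤ C aN / κ`, the rest at most `(C/κ) (p + aN) M^d e₀^{-p}`. -/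
def UpdStmt : Prop :=
  ∀ (c₁ C₁ C₀ : ℝ), 0 < c₁ → 1 ≤ C₁ → 1 ≤ C₀ → ∃ c₂ C : ℝ, 0 < c₂ ∧ 1 ≤ C ∧
      ∀ (d M : ℕ) [NeZero M] (D : Dat d M) (c₀ κ τ : ℝ) (q : ℝ × (Tor d M → ℝ)), c₀ ≤ c₂ →
        Adm D c₁ C₁ c₀ → 0 ≤ q.1 → q.1 ≤ D.T → Goo D q κ τ C₀ →
          ContDiffAt ℝ 2 D.U5 q ∧
          LL D.U5 q ≤ C * D.aN / κ * (D.U5 q + (M : ℝ) ^ d * (1 / D.e₀) ^ D.p) +
            C * D.p / κ * ((M : ℝ) ^ d * (1 / D.e₀) ^ D.p)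

/-- USM: smoothness. Proof: if `1 - Y q` is invertible then all parts are `C²` at `q` (`RsjStmt`,
`JalStmt`, `JmaStmt`; `W`: `X + P0 + ϖ > 0`; `A > 0`). If not then some `u ≠ 0` has `Y u = u`, so
`tr (Y Y^*)^j ≥ 1` at `q`, `U3 q ≥ ε₁^{-2j} ≥ 4`, and `U3` is continuous, the other parts are
nonnegative near `q` (`NnuStmt`, `kp > 0` near `q.1`). -/
def UsmStmt : Prop :=
  ∀ (d M : ℕ) [NeZero M]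
    (D : Dat d M) (c₁ C₁ c₀ : ℝ) (q : ℝ × (Tor d M → ℝ)), 0 < c₁ → c₀ ≤ 1 / 2 →
    Adm D c₁ C₁ c₀ → 0 ≤ q.1 → q.1 ≤ D.T →
      (∀ᶠ r in 𝓝 q, 1 ≤ D.U r) ∨ ContDiffAt ℝ 2 D.U q

/-- UPR: the probability. Proof: `UflStmt` with `a(t) = C aN / κ`, `b(t) = C (aN + p) bN / κ`,
`κ = kp t` for `0 ≤ t ≤ T`, extended to a continuous function (`κ` replaced by `max κ η`): by `UsmStmt`,
`NnuStmt`, `GodStmt`, `UpaStmt`, `UpbStmt`, `UpcStmt`, `UpdStmt` (`e₁ ≤ e₀`). `∫ dt / κ = log (w/η) / Im m`.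
`U(0)`: `φ = 0`, `Xh = 0`
(`hfix`), `U3 ≤ M^d 4^{-j}` (`hY`), `U4 ≤ M^d 4^{-j}` (`hL`), `U5 ≤ M^d e₁^{-p}` (`hW`, `WabStmt`), so
`U(0) ≤ bN`. -/
def UprStmt : Prop :=
  ∀ (c₁ C₁ : ℝ), 0 < c₁ → 1 ≤ C₁ → ∃ c₀ C : ℝ, 0 < c₀ ∧ c₀ ≤ 1 / 2 ∧ 1 ≤ C ∧
      ∀ (d M : ℕ) [NeZero M] (D : Dat d M) (v : ℝ≥0), Adm D c₁ C₁ c₀ → (v : ℝ) = D.T →
        gau d M v {V | 1 ≤ D.U (D.T, V)} ≤
          ENNReal.ofReal (Real.exp (C * D.aN * (1 + Real.log (D.w / D.η))) *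
            (C * (1 + D.aN + D.p) * (1 + Real.log (D.w / D.η)) * D.bN))

/-- OUT: the result at the final time. Proof: `GodStmt` at `(T, V)`: `kp T = η`, `zt T = E + i η`,
`τ = η / Im m`. Diagonal: `Im G(x, x) ≥ Im m - C δ`. Mass: `f` = the indicator of `C'`:
`∑_{x, y ∈ C'} K x y = ∑_{x ∈ C'} k_x - qf (Dl K) f ≤ (1/τ) ((1 + C δ) |C'| - qf X f)`, `qf X f ≥
qf A⁻¹ f - |C'|²/M^d - ϖ |C'|`, and `A⁻¹ ≥ 1/e₀ - (τ/e₀²) S` (`(e₀ + x)⁻¹ ≥ 1/e₀ - x/e₀²`). -/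
def OutStmt : Prop :=
  ∀ (c₁ C₁ : ℝ), 0 < c₁ → 1 ≤ C₁ → ∃ c₀ C : ℝ, 0 < c₀ ∧ c₀ ≤ 1 / 2 ∧ 1 ≤ C ∧
      ∀ (d M : ℕ) [NeZero M] (D : Dat d M) (V : Tor d M → ℝ), Adm D c₁ C₁ c₀ →
        D.U (D.T, V) < 1 →
          (∀ x, c₁ / 2 ≤ (rs V ⟨D.E, D.η⟩ x x).im) ∧
          ∀ C' : Finset (Tor d M), mss V ⟨D.E, D.η⟩ C' ≤
            C / D.η * (D.δ + (D.e₀ - 1) + C'.card / (M : ℝ) ^ d) * C'.card +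
              ∑ x ∈ C', ∑ y ∈ C', D.S x y

/-! ### G. Numbers, the torus -/

/-- INI: the parameters. Proof: `s = |σ|`, `θ₀ = ε / (24 d)`, `θ = θ₀ / 8`, `T = σ²`, `m` from `MbrStmt`,
`w = η + T Im m`, `c σ² ≤ w ≤ C σ²`; `ζ = zt 0`, `|Re ζ| ≤ 2 d - a/2` and `|Re ζ| ≥ |E| / 2` (`T |m| ≤
C σ² l ≤ s^{2-ε} / 2`, `l = log (1/s)`). `log M ≤ 3 s^{-θ}`. `k = ⌈s^{-2θ}⌉`, so `h ≤ 5 s^{-2θ}`. `δ = s^{5θ₀}`,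
`ε₁ = s^{3θ₀}`, `e₀ = 1 + s^{3θ₀}`, `e₁ = 1 + s^{3θ₀}/2`, `L₀ = s^{-6θ₀}`, `j = ⌈s^{-θ₀}⌉`, `p = ⌈s^{-4θ₀}⌉`,
`J = ⌈M s^{2 - ε/(2d)}⌉` (so `J/M ≤ 2 s^{2-ε/(2d)} ≤ 1/8`), `S = mlt (sy0 cs w J)` (`InmStmt`), `cs` large,
`π₀ = C s^{3}`: `S a a ≤ (C/w) ((J/M)^d + w² (J/M)^{d-2}) ≤ C s^{2d-2-ε/2}`, `1/(η M^d) ≤ s^4`.
`N = δ^{-4} C w^{-2/3} (1 + log M)^6` (`FrbStmt`; `nr` has at most `δ^{-4} ∑ |G₀|⁴` points), so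
`N w ≤ C s^{2/3 - 21θ₀} ≤ s^{20θ₀}`; `La(0) = ∑ |G₀|⁴ ≤ N`, `Ls(0) ≥ L₀ N`. `ϖ = δ w / (C M²)`.
`M^d ε₁^{2k} ≤ exp (3 d s^{-θ} - 6 θ₀ l s^{-2θ}) ≤ 1/4`.
`hY`: `|Y(0)| ≤ τ sup |bh|`, `BqbStmt` with `r = s^{2-ε/(2d)}`: `C l ((w/r)^{1/2} + w/|Re ζ|) ≤
C l (s^{ε/(4d)} + s^ε) ≤ s^{3θ₀}/2` (`3 θ₀ = ε/(8d)`). `hW`: `InwStmt`, `GalStmt`, and `KhbStmt` for `p ∉ low`
(`|sin (π p_i / M)| ≥ 2 J/M` for some `i`): `β = C l (w/r)^{1/2} ≤ s^{3θ₀}/8`.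
`ch ≤ 3 s^{14θ₀}`; `aN ≤ C s^{θ₀/2} = C s^{4θ}`: `j h² δ`, `j h² ch^{1/2}/δ ≤ C s^{(-1-1/2+7-5)θ₀}`,
`j δ/ε₁ ≤ C s^{θ₀}`, `j² h⁴ ch/δ² ≤ C s^{(-2-1+14-10)θ₀}`, `j² (N w + δ²)/ε₁² ≤ C s^{2θ₀}`, `j² L₀^{-1/2}`,
`j² ε₁`, `j² (e₀ - 1)`, `p δ ≤ C s^{θ₀}`, `p² (…) ≤ C s^{2θ₀}`. `log (w/η) ≤ s^{-θ}`.
`bN ≤ 4 exp (6 d s^{-θ} - s^{-8θ}/4) ≤ exp (- s^{-4θ})`.
The last part: `MssStmt` with `J₁ = ⌈M s^{-ε/4} (η w)^{1/2}⌉`, `J₁/M ≤ 2 s^{-ε/4} (η w)^{1/2}` (`1/M ≤ s⁴ η²`):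
`η (1/w + w M²/J₁²) ≤ η/w + s^{ε/2}`, `η/w ≤ C s`; `|C'| (J₁/M)^d ≤ (C s^{3ε/4})^d ≤ 1`, so
`η |C'| ((J₁/M)^d/w + w (J₁/M)^{d-2}) ≤ η/w + η w (J₁/M)^{-2} ≤ C s + s^{ε/2}`. -/
def IniStmt : Prop :=
  ∀ (d : ℕ) (a ε : ℝ), 3 ≤ d → 0 < a → 0 < ε → ε ≤ 1 → ∃ (θ c₁ C₁ : ℝ), 0 < θ ∧
    θ ≤ 1 / 100 ∧ 0 < c₁ ∧ 1 ≤ C₁ ∧ ∀ c₀ : ℝ, 0 < c₀ → ∃ c C : ℝ, 0 < c ∧ c ≤ 1 / 4 ∧ 1 ≤ C ∧
      ∀ (M : ℕ) [NeZero M] (σ E η : ℝ), σ ≠ 0 → |σ| ≤ c → |σ| ^ (2 - ε) ≤ |E| →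
        |E| ≤ 2 * d - a → Real.exp (-(|σ| ^ (-θ))) ≤ η → η ≤ |σ| ^ 3 →
        1 ≤ |σ| ^ 4 * η ^ 2 * M → |σ| ^ 6 * η ^ 2 * M ≤ 1 →
          ∃ D : Dat d M, Adm D c₁ C₁ c₀ ∧ D.E = E ∧ D.η = η ∧ D.T = σ ^ 2 ∧
            D.aN ≤ C * |σ| ^ (4 * θ) ∧ (D.p : ℝ) ≤ |σ| ^ (-1 : ℝ) ∧ D.δ ≤ |σ| ^ (4 * θ) ∧
            D.e₀ - 1 ≤ |σ| ^ (4 * θ) ∧ D.bN ≤ Real.exp (-(|σ| ^ (-(4 * θ)))) ∧
            ∀ C' : Finset (Tor d M), (C'.card : ℝ) ≤ (|σ| ^ (ε - 1) / Real.sqrt η) ^ d →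
              ∑ x ∈ C', ∑ y ∈ C', D.S x y ≤ |σ| ^ (4 * θ) * C'.card / η

/-- TOF: the torus. Proof: `IniStmt`, `UprStmt`, `OutStmt` (`c₀` = the minimum of the two). `1 + log (w/η) ≤
2 |σ|^{-θ}`, so `C aN (1 + log (w/η)) ≤ 1` for small `σ`; the probability is at most `C |σ|^{-2}
exp (- |σ|^{-4θ}) ≤ exp (- |σ|^{-2θ})`. `|C'| / M^d ≤ |σ|^{4θ}` (`η^{-1/2} ≤ η^{-2}`). -/
def TofStmt : Prop :=
  ∀ (d : ℕ) (a ε : ℝ), 3 ≤ d → 0 < a → 0 < ε → ε ≤ 1 → ∃ θ c : ℝ, 0 < θ ∧ θ ≤ 1 / 100 ∧ 0 < c ∧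
    c ≤ 1 / 4 ∧ ∀ (M : ℕ) [NeZero M] (v : ℝ≥0) (σ E η : ℝ), (v : ℝ) = σ ^ 2 → σ ≠ 0 → |σ| ≤ c →
      |σ| ^ (2 - ε) ≤ |E| → |E| ≤ 2 * d - a → Real.exp (-(|σ| ^ (-θ))) ≤ η → η ≤ |σ| ^ 3 →
      1 ≤ |σ| ^ 4 * η ^ 2 * M → |σ| ^ 6 * η ^ 2 * M ≤ 1 →
        gau d M v {V | ¬ ((∀ x, c ≤ (rs V ⟨E, η⟩ x x).im) ∧
          ∀ C' : Finset (Tor d M), (C'.card : ℝ) ≤ (|σ| ^ (ε - 1) / Real.sqrt η) ^ d →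
            mss V ⟨E, η⟩ C' ≤ |σ| ^ θ * C'.card / η)} ≤
          ENNReal.ofReal (Real.exp (-(|σ| ^ (-(2 * θ)))))

/-! ### H. The Lyapunov exponent -/

/-- CPZ: the probability of the large clusters. Proof: as `CpyStmt` (`Helper54_LQF/CPY.lean`), but without
`ClqStmt`: `GroStmt` and `ClsStmt` with the cubes of side `L = 1`, `n = 1`, `ρ = 0`, `J₁ = 0`
(`rch_zero`). `θ` = half of the `θ` of `TofStmt`, `η = exp (- |σ|^{-θ'})`. -/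
def CpzStmt : Prop :=
  ∀ (d : ℕ) (a ε : ℝ), 3 ≤ d → 0 < a → 0 < ε → ε ≤ 1 → ∃ θ c : ℝ, 0 < θ ∧ θ ≤ 1 / 100 ∧ 0 < c ∧
    c ≤ 1 / 4 ∧ ∀ σ E : ℝ, σ ≠ 0 → |σ| ≤ c → |σ| ^ (2 - ε) ≤ |E| → |E| ≤ 2 * d - a →
      ∃ (n ρ J : ℕ) (s q : ℝ), 1 ≤ s ∧ s ≤ |σ| ^ (-1 : ℝ) ∧ 1 ≤ ρ ∧
        Real.log ρ ≤ |σ| ^ (-1 : ℝ) ∧ 1 ≤ J ∧ (J : ℝ) ≤ |σ| ^ (-1 : ℝ) ∧
        1 ≤ n ∧ Real.exp (|σ| ^ (-θ)) ≤ n ∧ 0 ≤ q ∧ q * n ≤ 1 ∧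
        ∀ (N : ℕ) (b : Site d), box b ρ ⊆ box 0 N →
          PP d (gl σ) {V | ¬ n ≤ (rch V (box 0 N) E s b ρ J).card} ≤ ENNReal.ofReal q

/-- QXF: the final bound. Proof: `CpzStmt`, `CrgStmt`: `γ ≤ C J (s + l + log ρ) n^{-1/d} ≤
3 C |σ|^{-2} exp (- |σ|^{-θ} / d) ≤ exp (- |σ|^{-θ/2})`. -/
def QxfStmt : Prop :=
  ∀ (d : ℕ) (a ε : ℝ), 3 ≤ d → 0 < a → 0 < ε → ε ≤ 1 → ∃ θ c : ℝ, 0 < θ ∧ 0 < c ∧ c ≤ 1 / 4 ∧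
    ∀ σ E g : ℝ, σ ≠ 0 → |σ| ≤ c → |σ| ^ (2 - ε) ≤ |E| → |E| ≤ 2 * d - a → LyaAt d σ E g →
      g ≤ Real.exp (-(|σ| ^ (-θ)))

/-! ### I. The eigenfunctions and the quasimodes -/

/-- EGA: quasimodes on the torus. Proof: `u = G (H - z) u`, `|(H - z) u| ≤ 2 η S^{1/2}`; `P = 1_{C'}`:
`|P G v|² ≤ |P G G^* P| |v|²`, `G G^* = Im G / η` (`G - G^* = 2 i η G G^*`; `RalStmt`), the norm of
`P Im G P` is at most its Hilbert-Schmidt norm `≤ (∑_{x, y ∈ C'} |G x y|²)^{1/2} = mss^{1/2}`. -/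
def EgaStmt : Prop :=
  ∀ (d M : ℕ) [NeZero M] (V : Tor d M → ℝ) (E η B S : ℝ) (C' : Finset (Tor d M))
    (u : Tor d M → ℂ), 0 < η → mss V ⟨E, η⟩ C' ≤ B → n2 u ≤ S →
      n2 (hz V (E : ℂ) *ᵥ u) ≤ η ^ 2 * S →
        ∑ x ∈ C', ‖u x‖ ^ 2 ≤ 4 * η * Real.sqrt B * S

/-- the sum over the neighbours -/
def nc {d : ℕ} (u : Site d → ℂ) (x : Site d) : ℂ :=
  ∑ i : Fin d, (u (x + Pi.single i 1) + u (x - Pi.single i 1))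

/-- EGB: local quasimodes on the lattice. Proof: `χ(x) = min (1, max (0, 2 - |x|_∞ / L))`, `v(x) =
(χ u)(rep x)` on the torus. `(H - E₀) v = χ (H - E) u + [nc, χ] u + (E - E₀) χ u`, the commutator is
`∑_{y ~ x} (χ(y) - χ(x)) u(y)`, zero outside of `box 0 (2 L)`, its norm is at most `(2 d / L) S^{1/2} ≤
(η/2) S^{1/2}`. `EgaStmt` for the image of `C` (at most `n` points). The neighbours on the torus are the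
neighbours on the lattice for the points of `box 0 (2 L + 1)` (`2 (2 L + 1) + 1 < M`; see
`Helper72_LQD/CLS*.lean`, `Helper54_LQD/CPXb.lean` (`ti_rep`)). -/
def EgbStmt : Prop :=
  ∀ (d : ℕ), 1 ≤ d → ∀ (M : ℕ) [NeZero M] (L n : ℕ) (V : Site d → ℝ) (E E₀ η B S : ℝ)
    (u : Site d → ℂ) (C : Finset (Site d)), 0 < η → 1 ≤ L → 4 * L + 9 ≤ M → 4 * d ≤ η * L →
    |E - E₀| ≤ η / 4 →
    (∀ C' : Finset (Tor d M), C'.card ≤ n →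
      mss (fun x : Tor d M => V (0 + rep x)) ⟨E₀, η⟩ C' ≤ B) →
    ∑ x ∈ box 0 (2 * L + 1), ‖u x‖ ^ 2 ≤ S →
    ∑ x ∈ box 0 (2 * L), ‖nc u x + ((V x - E : ℝ) : ℂ) * u x‖ ^ 2 ≤ (η / 4) ^ 2 * S →
    C ⊆ box 0 L → C.card ≤ n → ∑ x ∈ C, ‖u x‖ ^ 2 ≤ 4 * η * Real.sqrt B * S

/-- EIG: all local quasimodes are extended. Proof: `TofStmt` with `η = 4 / t`, `M` = the smallest
natural number with `1 ≤ |σ|⁴ η² M`, for the energies `E₀` of a grid of step `η/8` in the set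
`|σ|^{2-ε} ≤ |E₀| ≤ 2 d - a` (at most `C / η` points; every `E` of the set is within `η/4` of one of them),
`IR.H54.law_le` (`Helper54_LIR/CPEb.lean`) with `b = 0`, the sum of the probabilities is at most
`(C / η) exp (- |σ|^{-2θ'}) ≤ exp (- |σ|^{-θ'})`. On the good event: `EgbStmt` with `L = ⌈d t⌉`,
`n = ⌊t⌋ ≤ (|σ|^{ε-1} / √η)^d`, `B = |σ|^{θ'} n / η`: `4 η √B ≤ 8 |σ|^{θ'/2} ≤ |σ|^{θ'/4}`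
(`2 L + 1 ≤ R + 1`). -/
def EigStmt : Prop :=
  ∀ (d : ℕ) (a ε : ℝ), 3 ≤ d → 0 < a → 0 < ε → ε ≤ 1 → ∃ θ c : ℝ, 0 < θ ∧ 0 < c ∧ c ≤ 1 / 4 ∧
    ∀ σ t : ℝ, σ ≠ 0 → |σ| ≤ c → |σ| ^ (-4 : ℝ) ≤ t → t ≤ Real.exp (|σ| ^ (-θ)) →
      PP d (gl σ) {V | ¬ ∀ (R : ℕ) (E S : ℝ) (u : Site d → ℂ) (C : Finset (Site d)),
        3 * d * t ≤ R → |σ| ^ (2 - ε) ≤ |E| → |E| ≤ 2 * d - a →
        ∑ x ∈ box 0 (R + 1), ‖u x‖ ^ 2 ≤ S →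
        ∑ x ∈ box 0 R, ‖nc u x + ((V x - E : ℝ) : ℂ) * u x‖ ^ 2 ≤ S / t ^ 2 →
        (∀ x ∈ C, ∀ i, |(x i : ℝ)| ≤ t) → (C.card : ℝ) ≤ t →
          ∑ x ∈ C, ‖u x‖ ^ 2 ≤ |σ| ^ θ * S} ≤ ENNReal.ofReal (Real.exp (-(|σ| ^ (-θ))))

end Pool.Agent.LE.QX
end
end -- Pool.Agent.LE.StmtsQX

section -- Pool.Agent.Helper17_LQF.LOW

/-!
# Squad LQF, row LOW: low momenta
-/

set_option autoImplicit false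

noncomputable section

namespace Pool.Agent.LE.QF.H17

open Pool.Agent.BED
open Pool.Agent.LE.MN Pool.Agent.LE.CL Pool.Agent.LE.IR Pool.Agent.LE.QD Pool.Agent.LE.QF

theorem card_low (d M J : ℕ) [NeZero M] (hJ : 1 ≤ J) :
    ((low d M J).card : ℝ) ≤ 3 ^ d * (J : ℝ) ^ d := by
  classical
  have h1 : (low d M J).card ≤
      (Fintype.piFinset (fun _ : Fin d => Finset.Icc (-(J : ℤ)) J)).card := by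
    refine Finset.card_le_card_of_injOn (fun p i => (p i).valMinAbs) ?_ ?_
    · intro p hp
      have hp' := Finset.mem_coe.1 hp
      unfold low at hp'
      rw [Finset.mem_filter] at hp'
      refine Finset.mem_coe.2 (Fintype.mem_piFinset.2 fun i => ?_)
      have h := hp'.2 i
      change (p i).valMinAbs ∈ Finset.Icc (-(J : ℤ)) J
      rw [Finset.mem_Icc]
      omega
    · intro p _ q _ hpq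
      funext i
      exact ZMod.injective_valMinAbs (congrFun hpq i)
  rw [Fintype.card_piFinset_const, Int.card_Icc] at h1
  have h2 : ((J : ℤ) + 1 - -(J : ℤ)).toNat = 2 * J + 1 := by omega
  rw [h2] at h1
  have h3 : (2 * J + 1) ^ d ≤ (3 * J) ^ d := Nat.pow_le_pow_left (by omega) d
  calc ((low d M J).card : ℝ) ≤ (((3 * J) ^ d : ℕ) : ℝ) := by exact_mod_cast h1.trans h3
    _ = 3 ^ d * (J : ℝ) ^ d := by push_cast; rw [mul_pow]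

theorem tele (m J : ℕ) (hm : 1 ≤ m) (hJ : m ≤ J) :
    1 / (m : ℝ) ^ 2 ≤ ∑ j ∈ Finset.Ico m J, 2 / (j : ℝ) ^ 3 + 1 / (J : ℝ) ^ 2 := by
  induction J, hJ using Nat.le_induction with
  | base => simp
  | succ J hJ ih =>
    rw [Finset.sum_Ico_succ_top hJ]
    have hJ0 : (0 : ℝ) < J := by exact_mod_cast (by omega : 0 < J)
    have h1 : 1 / (J : ℝ) ^ 2 ≤ 2 / (J : ℝ) ^ 3 + 1 / ((J + 1 : ℕ) : ℝ) ^ 2 := by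
      push_cast
      rw [div_add_div _ _ (by positivity) (by positivity), div_le_div_iff₀ (by positivity)
        (by positivity)]
      have h2 : (J : ℝ) ^ 2 * (2 * (J + 1) ^ 2 + J ^ 3 * 1) - 1 * (J ^ 3 * (J + 1) ^ 2) =
          J ^ 2 * (3 * J + 2) := by ring
      have h3 : 0 ≤ (J : ℝ) ^ 2 * (3 * J + 2) := by positivity
      linarith only [h3]
    linarith only [ih, h1]

theorem coord (M : ℕ) [NeZero M] (z : ZMod M) :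
    16 / (M : ℝ) ^ 2 * (z.valMinAbs : ℝ) ^ 2 ≤
      2 * (1 - Real.cos (2 * Real.pi * (z.valMinAbs : ℝ) / M)) ∧
    2 * (1 - Real.cos (2 * Real.pi * (z.valMinAbs : ℝ) / M)) ≤
      (2 * Real.pi / M) ^ 2 * (z.valMinAbs : ℝ) ^ 2 := by
  have hM : (0 : ℝ) < M := by exact_mod_cast Nat.pos_of_ne_zero (NeZero.ne M)
  have hpi := Real.pi_pos
  have hv : |(z.valMinAbs : ℝ)| ≤ M / 2 := by
    have h1 := ZMod.natAbs_valMinAbs_le z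
    have h2 : ((z.valMinAbs.natAbs : ℕ) : ℝ) ≤ M / 2 := by
      have h3 : z.valMinAbs.natAbs * 2 ≤ M := by omega
      have h4 : ((z.valMinAbs.natAbs : ℕ) : ℝ) * 2 ≤ M := by exact_mod_cast h3
      linarith only [h4]
    rwa [Nat.cast_natAbs, Int.cast_abs] at h2
  set v : ℝ := (z.valMinAbs : ℝ) with hvd
  have hx : |2 * Real.pi * v / M| ≤ Real.pi := by
    rw [abs_div, abs_mul, abs_of_pos (by positivity : (0 : ℝ) < 2 * Real.pi), abs_of_pos hM,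
      div_le_iff₀ hM]
    nlinarith only [hpi, hv]
  constructor
  · have h1 := Real.cos_le_one_sub_mul_cos_sq hx
    have h2 : 2 / Real.pi ^ 2 * (2 * Real.pi * v / M) ^ 2 = 8 / (M : ℝ) ^ 2 * v ^ 2 := by
      field_simp
      ring
    have h3 : 16 / (M : ℝ) ^ 2 * v ^ 2 = 2 * (8 / (M : ℝ) ^ 2 * v ^ 2) := by ring
    rw [h3, ← h2]
    linarith only [h1]
  · have h1 := Real.one_sub_sq_div_two_le_cos (x := 2 * Real.pi * v / M)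
    have h2 : (2 * Real.pi / M) ^ 2 * v ^ 2 = (2 * Real.pi * v / M) ^ 2 := by ring
    rw [h2]
    linarith only [h1]

/-- **LOW**. -/
theorem low_ : LowStmt := by
  classical
  intro d hd
  refine ⟨3 ^ (d + 1), one_le_pow₀ (by norm_num), fun M _ => ⟨fun p => ⟨?_, ?_⟩, fun J hJ =>
    ⟨?_, ?_⟩⟩⟩
  · rw [Finset.mul_sum]
    exact Finset.sum_le_sum fun i _ => (coord M (p i)).1
  · rw [Finset.mul_sum]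
    exact Finset.sum_le_sum fun i _ => (coord M (p i)).2
  · refine (card_low d M J hJ).trans ?_
    have h1 : (3 : ℝ) ^ d ≤ 3 ^ (d + 1) := pow_le_pow_right₀ (by norm_num) (by omega)
    exact mul_le_mul_of_nonneg_right h1 (by positivity)
  · have hM : (0 : ℝ) < M := by exact_mod_cast Nat.pos_of_ne_zero (NeZero.ne M)
    have hJ0 : (0 : ℝ) < J := by exact_mod_cast hJ
    let m : Tor d M → ℕ := fun p => Finset.univ.sup fun i => (p i).valMinAbs.natAbs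
    have hm : ∀ (p : Tor d M) (j : ℕ), p ∈ low d M j ↔ m p ≤ j := by
      intro p j
      unfold low
      rw [Finset.mem_filter]
      simp only [m, Finset.mem_univ, true_and, Finset.sup_le_iff, true_implies]
    have hm1 : ∀ p : Tor d M, p ≠ 0 → 1 ≤ m p := by
      intro p hp
      by_contra hcon
      have h0 : m p = 0 := by omega
      apply hp
      funext i
      have h1 : (p i).valMinAbs.natAbs ≤ m p :=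
        Finset.le_sup (f := fun i => (p i).valMinAbs.natAbs) (Finset.mem_univ i)
      rw [h0] at h1
      have h2 : (p i).valMinAbs = 0 := by omega
      exact (ZMod.valMinAbs_eq_zero (p i)).1 h2
    have hds : ∀ p : Tor d M, p ≠ 0 → 1 / ds p ≤ (M : ℝ) ^ 2 * (1 / (m p : ℝ) ^ 2) := by
      intro p hp
      have h1 := hm1 p hp
      have hmp : (0 : ℝ) < m p := by exact_mod_cast h1
      haveI : Nonempty (Fin d) := ⟨⟨0, by omega⟩⟩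
      obtain ⟨i, _, hi⟩ := Finset.exists_mem_eq_sup (Finset.univ : Finset (Fin d))
        Finset.univ_nonempty (fun i => (p i).valMinAbs.natAbs)
      have h2 : (m p : ℝ) ^ 2 ≤ ∑ i, ((p i).valMinAbs : ℝ) ^ 2 := by
        have h3 : (m p : ℝ) = |((p i).valMinAbs : ℝ)| := by
          change ((Finset.univ.sup fun i => (p i).valMinAbs.natAbs : ℕ) : ℝ) = _
          rw [hi, Nat.cast_natAbs, Int.cast_abs]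
        rw [h3, sq_abs]
        exact Finset.single_le_sum (f := fun i => ((p i).valMinAbs : ℝ) ^ 2)
          (fun i _ => sq_nonneg _) (Finset.mem_univ i)
      have h4 : 16 / (M : ℝ) ^ 2 * ∑ i, ((p i).valMinAbs : ℝ) ^ 2 ≤ ds p := by
        rw [Finset.mul_sum]
        exact Finset.sum_le_sum fun i _ => (coord M (p i)).1
      have h5 : (m p : ℝ) ^ 2 / (M : ℝ) ^ 2 ≤ ds p := by
        refine le_trans ?_ h4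
        have h6 : (m p : ℝ) ^ 2 / (M : ℝ) ^ 2 = 1 / (M : ℝ) ^ 2 * (m p : ℝ) ^ 2 := by ring
        rw [h6]
        refine mul_le_mul ?_ h2 (by positivity) (by positivity)
        exact div_le_div_of_nonneg_right (by norm_num) (by positivity)
      have h7 : (M : ℝ) ^ 2 * (1 / (m p : ℝ) ^ 2) = 1 / ((m p : ℝ) ^ 2 / (M : ℝ) ^ 2) := by
        field_simp
      rw [h7]
      exact one_div_le_one_div_of_le (by positivity) h5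
    have hcard : ∀ j : ℕ, 1 ≤ j → (((low d M J).filter (fun p => p ≠ 0 ∧ m p ≤ j)).card : ℝ) ≤
        3 ^ d * (j : ℝ) ^ d := by
      intro j hj
      refine le_trans ?_ (card_low d M j hj)
      have : ((low d M J).filter (fun p => p ≠ 0 ∧ m p ≤ j)) ⊆ low d M j := by
        intro p hp
        rw [Finset.mem_filter] at hp
        exact (hm p j).2 hp.2.2
      exact_mod_cast Finset.card_le_card this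
    have hsum : ∑ p ∈ (low d M J).filter (fun p => p ≠ 0), 1 / (m p : ℝ) ^ 2 ≤
        3 ^ (d + 1) * (J : ℝ) ^ (d - 2) := by
      have h1 : ∑ p ∈ (low d M J).filter (fun p => p ≠ 0), 1 / (m p : ℝ) ^ 2 ≤
          ∑ p ∈ (low d M J).filter (fun p => p ≠ 0),
            (∑ j ∈ Finset.Ico 1 J, (if m p ≤ j then 2 / (j : ℝ) ^ 3 else 0) +
              1 / (J : ℝ) ^ 2) := by
        refine Finset.sum_le_sum fun p hp => ?_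
        rw [Finset.mem_filter] at hp
        refine (tele (m p) J (hm1 p hp.2) ((hm p J).1 hp.1)).trans ?_
        gcongr
        rw [← Finset.sum_filter]
        apply le_of_eq
        refine Finset.sum_congr ?_ fun _ _ => rfl
        ext j
        have := hm1 p hp.2
        simp only [Finset.mem_Ico, Finset.mem_filter]
        omega
      refine h1.trans ?_
      rw [Finset.sum_add_distrib, Finset.sum_comm, Finset.sum_const, nsmul_eq_mul]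
      have h2 : ∀ j ∈ Finset.Ico 1 J, ∑ p ∈ (low d M J).filter (fun p => p ≠ 0),
          (if m p ≤ j then 2 / (j : ℝ) ^ 3 else 0) ≤ 2 * 3 ^ d * (J : ℝ) ^ (d - 3) := by
        intro j hj
        rw [Finset.mem_Ico] at hj
        have hj0 : (0 : ℝ) < j := by exact_mod_cast hj.1
        rw [← Finset.sum_filter, Finset.filter_filter, Finset.sum_const, nsmul_eq_mul]
        have h3 := mul_le_mul_of_nonneg_right (hcard j hj.1)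
          (by positivity : (0 : ℝ) ≤ 2 / (j : ℝ) ^ 3)
        refine h3.trans ?_
        have h4 : (3 : ℝ) ^ d * (j : ℝ) ^ d * (2 / (j : ℝ) ^ 3) = 2 * 3 ^ d * (j : ℝ) ^ (d - 3) := by
          have h5 : (j : ℝ) ^ d = (j : ℝ) ^ (d - 3) * (j : ℝ) ^ 3 := by
            rw [← pow_add]
            congr 1
            omega
          rw [h5]
          field_simp
        rw [h4]
        have h6 : (j : ℝ) ^ (d - 3) ≤ (J : ℝ) ^ (d - 3) :=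
          pow_le_pow_left₀ hj0.le (by exact_mod_cast hj.2.le) _
        exact mul_le_mul_of_nonneg_left h6 (by positivity)
      have h7 : ∑ j ∈ Finset.Ico 1 J, ∑ p ∈ (low d M J).filter (fun p => p ≠ 0),
          (if m p ≤ j then 2 / (j : ℝ) ^ 3 else 0) ≤ 2 * 3 ^ d * (J : ℝ) ^ (d - 2) := by
        refine (Finset.sum_le_sum h2).trans ?_
        rw [Finset.sum_const, Nat.card_Ico, nsmul_eq_mul]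
        have h8 : (J : ℝ) ^ (d - 2) = (J : ℝ) * (J : ℝ) ^ (d - 3) := by
          rw [← pow_succ']
          congr 1
          omega
        have h9 : ((J - 1 : ℕ) : ℝ) ≤ J := by exact_mod_cast Nat.sub_le J 1
        rw [h8]
        have h10 : 0 ≤ 2 * 3 ^ d * (J : ℝ) ^ (d - 3) := by positivity
        have h11 := mul_le_mul_of_nonneg_right h9 h10
        linarith only [h11]
      have h12 : ((((low d M J).filter (fun p => p ≠ 0)).card : ℕ) : ℝ) * (1 / (J : ℝ) ^ 2) ≤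
          3 ^ d * (J : ℝ) ^ (d - 2) := by
        have h13 : ((((low d M J).filter (fun p => p ≠ 0)).card : ℕ) : ℝ) ≤
            3 ^ d * (J : ℝ) ^ d := by
          refine le_trans ?_ (card_low d M J hJ)
          exact_mod_cast Finset.card_le_card (Finset.filter_subset _ _)
        have h14 := mul_le_mul_of_nonneg_right h13 (by positivity : (0 : ℝ) ≤ 1 / (J : ℝ) ^ 2)
        refine h14.trans (le_of_eq ?_)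
        have h15 : (J : ℝ) ^ d = (J : ℝ) ^ (d - 2) * (J : ℝ) ^ 2 := by
          rw [← pow_add]
          congr 1
          omega
        rw [h15]
        field_simp
      have h16 : (3 : ℝ) ^ (d + 1) * (J : ℝ) ^ (d - 2) =
          2 * 3 ^ d * (J : ℝ) ^ (d - 2) + 3 ^ d * (J : ℝ) ^ (d - 2) := by ring
      rw [h16]
      exact add_le_add h7 h12
    calc ∑ p ∈ (low d M J).filter (fun p => p ≠ 0), 1 / ds p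
        ≤ ∑ p ∈ (low d M J).filter (fun p => p ≠ 0), (M : ℝ) ^ 2 * (1 / (m p : ℝ) ^ 2) :=
          Finset.sum_le_sum fun p hp => hds p (Finset.mem_filter.1 hp).2
      _ = (M : ℝ) ^ 2 * ∑ p ∈ (low d M J).filter (fun p => p ≠ 0), 1 / (m p : ℝ) ^ 2 := by
          rw [Finset.mul_sum]
      _ ≤ (M : ℝ) ^ 2 * (3 ^ (d + 1) * (J : ℝ) ^ (d - 2)) :=
          mul_le_mul_of_nonneg_left hsum (by positivity)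
      _ = 3 ^ (d + 1) * (M : ℝ) ^ 2 * (J : ℝ) ^ (d - 2) := by ring

end Pool.Agent.LE.QF.H17
end
end -- Pool.Agent.Helper17_LQF.LOW
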