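import Pool.Agent.Helper12_MEB.B086

/-!
# Merged copies (generated) of the modules

* `Pool.Agent.LE.StmtsQY`
* `Pool.Agent.LE.DefsQZ`
* `Pool.Agent.LE.StmtsQZ`
* `Pool.Agent.ANI.Stmts`
* `Pool.Agent.ANI.Stmts2`
-/

set_option autoImplicit false

section -- Pool.Agent.LE.StmtsQY

/-!
# The lattice: quantum diffusion, the local law, the local density of states up to `T = exp (|σ|^{-θ})`

The input is the result on the torus (`TorStmt`, the same as `QZ.TofStmt`). `G V z` is the resolvent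
`(Δ + V - z)⁻¹` on `ℓ²(ℤ^d)` (`Pool.Agent.Helper54.Bal.G`, `Helper54_Ballistic/Ell.lean`), `del x` the
unit vector, `rs` the resolvent on the torus. Useful files: `Helper90_LQX/EGB.lean` (the cutoff `ct`,
`rep_ti`, `sum_rep`, `comm_bound`, …), `Helper94_LQX/EIG.lean` (`union_le`, `grid`, numbers),
`Helper54_LIR/CPEb.lean` (`law_le`), `Helper73_BED/LawT.lean` (`lawT`).
-/

set_option autoImplicit false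

open MeasureTheory ProbabilityTheory Function Filter

open scoped ENNReal BigOperators Topology NNReal ComplexOrder Matrix

noncomputable section

namespace Pool.Agent.LE.QY

open Pool.Agent.Anderson hiding box mem_box card_box
open Pool.Agent.Loc Pool.Agent.Mob Pool.Agent.Helper54.Bal
  Pool.Agent.Helper96.EXP Pool.Agent.BED
open Pool.Agent.LE.MN Pool.Agent.LE.CL Pool.Agent.LE.IR Pool.Agent.LE.QD Pool.Agent.LE.QF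

/-- the input: the torus -/
def TorStmt : Prop :=
  ∀ (d : ℕ) (a ε : ℝ), 3 ≤ d → 0 < a → 0 < ε → ε ≤ 1 → ∃ θ c C : ℝ, 0 < θ ∧ θ ≤ 1 / 100 ∧ 0 < c ∧
    c ≤ 1 / 4 ∧ 1 ≤ C ∧ ∀ (M : ℕ) [NeZero M] (v : ℝ≥0) (σ E η : ℝ), (v : ℝ) = σ ^ 2 → σ ≠ 0 →
      |σ| ≤ c → |E| ≤ 2 * d - a → |σ| ^ (-5 : ℝ) ≤ M → (M : ℝ) ≤ Real.exp (|σ| ^ (-θ)) →
      |σ| ^ (-ε) ≤ η * (M : ℝ) ^ d → η ≤ |σ| ^ 3 →
        ∃ m : ℂ, c ≤ m.im ∧ ‖m‖ ≤ C ∧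
          (∀ x, rs (0 : Tor d M → ℝ) (⟨E, η⟩ + (σ : ℂ) ^ 2 * m) x x = m) ∧
          ∀ (i : Fin d) (ξ : ℝ), 1 ≤ ξ →
            gau d M v {V | ¬ ((∀ x, c ≤ (rs V ⟨E, η⟩ x x).im) ∧
              (∀ x y, ‖rs V ⟨E, η⟩ x y - rs (0 : Tor d M → ℝ) (⟨E, η⟩ + (σ : ℂ) ^ 2 * m) x y‖ ≤
                |σ| ^ θ) ∧
              (∀ C' : Finset (Tor d M), (C'.card : ℝ) ≤ (|σ| ^ (ε - 1) / Real.sqrt η) ^ d →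
                (C'.card : ℝ) ≤ |σ| ^ ε * (M : ℝ) ^ d →
                mss V ⟨E, η⟩ C' ≤ |σ| ^ θ * C'.card / η) ∧
              ∑ x, ∑ y, ‖rs V ⟨E, η⟩ x y‖ ^ 2 * (((x - y) i).valMinAbs : ℝ) ^ 2 ≤
                C * ξ * (M : ℝ) ^ d / (σ ^ 2 * η ^ 2))} ≤
            ENNReal.ofReal (C / ξ + Real.exp (-(|σ| ^ (-(2 * θ)))))

/-! ### A. Deterministic facts -/

/-- BAL: the ballistic bound. Proof: `g = G V z e_x`, `w` a weight with `w(x) = 0`,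
`|w(y) - w(y')| ≤ W(y)` for neighbours: `w g = G [Δ, w] g` (`G_unique`; take `w` bounded: `min (sd x y) n`,
`min (sd x y) n ^ 2`), so `‖w g‖ ≤ (1/η) ‖[Δ, w] g‖ ≤ (2 d/η) ‖W g‖` (`W = 1`, then `W = 2 min (sd x y) n + 3`),
`‖g‖ ≤ 1/η`. So `‖w₁ g‖ ≤ 2 d/η²`, `‖w₂ g‖ ≤ C/η³`, and `n → ∞`. -/
def BalStmt : Prop :=
  ∀ d : ℕ, 1 ≤ d → ∃ C : ℝ, 1 ≤ C ∧ ∀ (V : Site d → ℝ) (E η : ℝ) (x : Site d), 0 < η → η ≤ 1 →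
    Summable (fun y : Site d => (sd x y : ℝ) ^ 4 * ‖G V ⟨E, η⟩ (del x) y‖ ^ 2) ∧
      ∑' y : Site d, (sd x y : ℝ) ^ 4 * ‖G V ⟨E, η⟩ (del x) y‖ ^ 2 ≤ C / η ^ 6

/-- LTT: the lattice and the torus. Proof: translate to `b = 0` (`G_unique`). The cutoff `χ = ct L` of
`Helper90_LQX/EGB.lean` (`1` on `box 0 L`, `0` outside of `box 0 (2 L)`, Lipschitz `1/L`), `g = G V z e_x`,
`v(p) = χ(rep p) g(rep p)`: `hz v = e_{ti x} + comm`, `comm(p) = ∑_{y ~ rep p} (χ(y) - χ(rep p)) g(y)`, where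
only `y` with `sd 0 y ≥ L` contribute, so `‖comm‖² ≤ (2 d/L)² ∑_{sd 0 y ≥ L} |g(y)|² ≤ C / (L⁶ η⁶)` (`BalStmt`,
`sd x y ≥ L/2`), and `v - rs e_{ti x} = rs comm`, the norm of `rs` is at most `1/η`. -/
def LttStmt : Prop :=
  ∀ d : ℕ, 1 ≤ d → ∃ C : ℝ, 1 ≤ C ∧ ∀ (M : ℕ) [NeZero M] (L : ℕ) (V : Site d → ℝ) (b : Site d)
    (E η : ℝ) (x : Site d), 0 < η → η ≤ 1 → 1 ≤ L → 4 * L + 9 ≤ M → 2 * sd 0 x ≤ L →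
      ∑ y ∈ box 0 L, ‖G V ⟨E, η⟩ (del (b + x)) (b + y) -
        rs (fun p : Tor d M => V (b + rep p)) ⟨E, η⟩ (ti M 0 x) (ti M 0 y)‖ ^ 2 ≤
          C / ((L : ℝ) ^ 6 * η ^ 8)

/-- HAR: Harnack. Proof: `Im G(x, x; z) = Im z ‖G(z) e_x‖²` (`(isRes_G V).im_inner`), the resolvent
identity `G(z') = (1 + (z' - z) G(z')) G(z)`, `‖G(z')‖ ≤ 1/η'`. -/
def HarStmt : Prop :=
  ∀ (d : ℕ) (V : Site d → ℝ) (E E' η η' : ℝ) (x : Site d), 0 < η → η / 2 ≤ η' → η' ≤ 2 * η →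
    |E - E'| ≤ η → (G V ⟨E', η'⟩ (del x) x).im ≤ 50 * (G V ⟨E, η⟩ (del x) x).im

/-! ### B. The torus -/

/-- TSM: the second moment on the torus. Proof: `Q = σ² η² ∑ ∑ / (C M^d)`; `0 ≤ Q ≤ σ² M² ≤ M²`
(`∑_y |G(x, y)|² ≤ η^{-2}`), `P(Q > ξ) ≤ C/ξ + exp (- |σ|^{-2 θ₀})` for `ξ ≥ 1` (`TorStmt`), so
`E Q ≤ 1 + ∫_1^{M²} ≤ 1 + 2 C log M + M² exp (- |σ|^{-2 θ₀})`; take `θ ≤ min (θ₀, ε/4)`, `log M ≤ |σ|^{-θ}`.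
(`lintegral` layer cake, or a sum over `ξ = 2^k`.) The law is invariant under translations, so the
mean of the sum at `0` is `E ∑ ∑ / M^d`. -/
def TsmStmt : Prop :=
  ∀ (d : ℕ) (a ε : ℝ), 3 ≤ d → 0 < a → 0 < ε → ε ≤ 1 → ∃ θ c : ℝ, 0 < θ ∧ 0 < c ∧ c ≤ 1 / 4 ∧
    ∀ (M : ℕ) [NeZero M] (v : ℝ≥0) (σ E η : ℝ) (i : Fin d), (v : ℝ) = σ ^ 2 → σ ≠ 0 → |σ| ≤ c →
      |E| ≤ 2 * d - a → |σ| ^ (-5 : ℝ) ≤ M → (M : ℝ) ≤ Real.exp (|σ| ^ (-θ)) →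
      |σ| ^ (-ε) ≤ η * (M : ℝ) ^ d → η ≤ |σ| ^ 3 →
        ∫⁻ V, ENNReal.ofReal (∑ y, ‖rs V ⟨E, η⟩ 0 y‖ ^ 2 * (((0 - y) i).valMinAbs : ℝ) ^ 2)
          ∂(gau d M v) ≤ ENNReal.ofReal (|σ| ^ (-2 - ε) / η ^ 2)

/-- TMA: the mass in a box on the torus. Proof: `S(x) = ∑_{|y - x| ≤ R} |G(x, y)|²`; by the invariance under
translations `E S(0)` is the mean of `E S(x)`, `|x| ≤ R`, and `∑_{|x| ≤ R} S(x) ≤ mss (|x| ≤ 2 R)`. With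
`TorStmt` (with `ε/2`, `ξ = exp (|σ|^{-2 θ₀})`): `E S(0) ≤ 3^d |σ|^{θ₀} / η + (C + 1) exp (- |σ|^{-2 θ₀}) η^{-2}`
(`(4 R + 1)^d ≤ min ((|σ|^{ε/2 - 1} / √η)^d, |σ|^{ε/2} M^d)`, `η^{-1} ≤ M^d ≤ exp (d |σ|^{-θ})`). -/
def TmaStmt : Prop :=
  ∀ (d : ℕ) (a ε : ℝ), 3 ≤ d → 0 < a → 0 < ε → ε ≤ 1 → ∃ θ c : ℝ, 0 < θ ∧ 0 < c ∧ c ≤ 1 / 4 ∧
    ∀ (M R : ℕ) [NeZero M] (v : ℝ≥0) (σ E η : ℝ), (v : ℝ) = σ ^ 2 → σ ≠ 0 → |σ| ≤ c →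
      |E| ≤ 2 * d - a → |σ| ^ (-5 : ℝ) ≤ M → (M : ℝ) ≤ Real.exp (|σ| ^ (-θ)) →
      |σ| ^ (-ε) ≤ η * (M : ℝ) ^ d → η ≤ |σ| ^ 3 → (R : ℝ) ≤ |σ| ^ (ε - 1) / Real.sqrt η →
      (R : ℝ) ≤ |σ| * M →
        ∫⁻ V, ENNReal.ofReal (∑ y, if ∀ i, |((y i).valMinAbs : ℝ)| ≤ R then ‖rs V ⟨E, η⟩ 0 y‖ ^ 2
          else 0) ∂(gau d M v) ≤ ENNReal.ofReal (|σ| ^ θ / η)

/-- TEV: all eigenvectors on the torus are completely delocalized. Proof: `TorStmt` with `ε/2`,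
`η = |σ|^{-ε/2} M^{-d}`, `ξ = exp (|σ|^{-2 θ₀})`, for the energies `j η`, `|j η| ≤ 2 d - a` (at most `C M^d ≤
exp (C |σ|^{-θ})` events of probability at most `(C + 1) exp (- |σ|^{-2 θ₀})`). For `E` choose `E₀ = j η` with
`|E₀| ≤ |E|`, `|E - E₀| ≤ η`, `z = E₀ + i η`: `hz V z *ᵥ u = (E - z) u`, so `u = (E - z) G u` and
`|u x|² ≤ 2 η² ∑_y |G(x, y)|² n2 u = 2 η Im G(x, x) n2 u` (`RalStmt`), `|G(x, x)| ≤ C + 1`. -/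
def TevStmt : Prop :=
  ∀ (d : ℕ) (a ε : ℝ), 3 ≤ d → 0 < a → 0 < ε → ε ≤ 1 → ∃ θ c : ℝ, 0 < θ ∧ 0 < c ∧ c ≤ 1 / 4 ∧
    ∀ (M : ℕ) [NeZero M] (v : ℝ≥0) (σ : ℝ), (v : ℝ) = σ ^ 2 → σ ≠ 0 → |σ| ≤ c →
      |σ| ^ (-5 : ℝ) ≤ M → (M : ℝ) ≤ Real.exp (|σ| ^ (-θ)) →
        gau d M v {V | ¬ ∀ (E : ℝ) (u : Tor d M → ℂ), |E| ≤ 2 * d - a → hz V (E : ℂ) *ᵥ u = 0 →
          ∀ x, ‖u x‖ ^ 2 ≤ |σ| ^ (-ε) / (M : ℝ) ^ d * n2 u} ≤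
          ENNReal.ofReal (Real.exp (-(|σ| ^ (-θ))))

/-! ### C. The lattice, diffusion -/

/-- the time averaged density -/
def rh {d : ℕ} (V : Site d → ℝ) (T E : ℝ) (x : Site d) : ℝ := ‖G V ⟨E, 1 / T⟩ (del 0) x‖ ^ 2 / T

/-- SMZ: the upper bound. Proof: `η = 1/T`, `M` the smallest natural number with `1 ≤ |σ|⁴ η² M`
(so `M ≤ 2 |σ|^{-4} T² ≤ exp (|σ|^{-θ₀})`), `L = ⌊(M - 9)/4⌋`. `(sd 0 x)² ≤ ∑_i x_i²`. In `box 0 L`: `TsmStmt` for every `i`, `LttStmt` (`x = 0`; the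
error is at most `2 d L² C / (L⁶ η⁸) η = C η^{-7} L^{-4} ≤ 1`), the law of `V ∘ rep` (`lawT`). Outside:
`(sd)² ≤ (sd)⁴ / L²`, `BalStmt`: `C η / (η⁶ L²) ≤ 1/η`. -/
def SmzStmt : Prop :=
  ∀ (d : ℕ) (a ε : ℝ), 3 ≤ d → 0 < a → 0 < ε → ε ≤ 1 → ∃ θ c : ℝ, 0 < θ ∧ 0 < c ∧ c ≤ 1 / 4 ∧
    ∀ σ E T : ℝ, σ ≠ 0 → |σ| ≤ c → |E| ≤ 2 * d - a → |σ| ^ (-3 : ℝ) ≤ T →
      T ≤ Real.exp (|σ| ^ (-θ)) →
        ∫⁻ V, ∑' x : Site d, ENNReal.ofReal ((sd 0 x : ℝ) ^ 2 * rh V T E x) ∂(PP d (gl σ)) ≤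
          ENNReal.ofReal (|σ| ^ (-2 - ε) * T)

/-- MAZ: the lower bound. Proof: as `SmzStmt`, with `TmaStmt`, `R = ⌊|σ|^{ε - 1} √T⌋ ≤ min (L, |σ| M)`. -/
def MazStmt : Prop :=
  ∀ (d : ℕ) (a ε : ℝ), 3 ≤ d → 0 < a → 0 < ε → ε ≤ 1 → ∃ θ c : ℝ, 0 < θ ∧ 0 < c ∧ c ≤ 1 / 4 ∧
    ∀ σ E T : ℝ, σ ≠ 0 → |σ| ≤ c → |E| ≤ 2 * d - a → |σ| ^ (-3 : ℝ) ≤ T →
      T ≤ Real.exp (|σ| ^ (-θ)) →
        ∫⁻ V, ∑' x : Site d, (if (sd 0 x : ℝ) ≤ |σ| ^ (ε - 1) * Real.sqrt T then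
          ENNReal.ofReal (rh V T E x) else 0) ∂(PP d (gl σ)) ≤ ENNReal.ofReal (|σ| ^ θ)

/-! ### D. The lattice, the local law -/

/-- LOC: the local law. Proof: `η = 1/T`, `M`, `L` as in `SmzStmt`, `m` and the event from `TorStmt`
(`ξ = exp (|σ|^{-2 θ₀})`), `law_le` with `b`; `LttStmt` for `V` at `E + i η` and for the potential `0` at
`E + i η + σ² m` (its imaginary part is at least `c σ²`): every difference is at most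
`C / (L³ η⁴) ≤ |σ|`. `T ≤ L / 2`. -/
def LocStmt : Prop :=
  ∀ (d : ℕ) (a : ℝ), 3 ≤ d → 0 < a → ∃ θ c : ℝ, 0 < θ ∧ 0 < c ∧ c ≤ 1 / 4 ∧
    ∀ σ E T : ℝ, σ ≠ 0 → |σ| ≤ c → |E| ≤ 2 * d - a → |σ| ^ (-3 : ℝ) ≤ T →
      T ≤ Real.exp (|σ| ^ (-θ)) → ∃ m : ℂ, c ≤ m.im ∧ ‖m‖ ≤ 1 / c ∧
        ‖m - G (0 : Site d → ℝ) (⟨E, 1 / T⟩ + (σ : ℂ) ^ 2 * m) (del 0) 0‖ ≤ |σ| ^ θ ∧
        ∀ b : Site d, PP d (gl σ) {V | ¬ ∀ x y : Site d, (sd b x : ℝ) ≤ T → (sd b y : ℝ) ≤ T →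
          ‖G V ⟨E, 1 / T⟩ (del x) y -
            G (0 : Site d → ℝ) (⟨E, 1 / T⟩ + (σ : ℂ) ^ 2 * m) (del x) y‖ ≤ |σ| ^ θ} ≤
          ENNReal.ofReal (Real.exp (-(|σ| ^ (-θ))))

/-- TMZ: the total mass. Proof: `∑_x |G(0, x)|² / T = Im G(0, 0)` (`im_G_del`), `LocStmt` with `θ₀`:
outside of an event of probability at most `exp (- |σ|^{-θ₀})` it is within `2 |σ|^{θ₀}` of `Im m`, and it
is always at most `T ≤ exp (|σ|^{-θ₀/2})`. -/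
def TmzStmt : Prop :=
  ∀ (d : ℕ) (a : ℝ), 3 ≤ d → 0 < a → ∃ θ c : ℝ, 0 < θ ∧ 0 < c ∧ c ≤ 1 / 4 ∧
    ∀ σ E T : ℝ, σ ≠ 0 → |σ| ≤ c → |E| ≤ 2 * d - a → |σ| ^ (-3 : ℝ) ≤ T →
      T ≤ Real.exp (|σ| ^ (-θ)) →
        ENNReal.ofReal c ≤ ∫⁻ V, ∑' x : Site d, ENNReal.ofReal (rh V T E x) ∂(PP d (gl σ)) ∧
        ∫⁻ V, ∑' x : Site d, ENNReal.ofReal (rh V T E x) ∂(PP d (gl σ)) ≤ ENNReal.ofReal (1 / c)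

/-- LDS: the local density of states, all energies and all scales. Proof: `LocStmt` with `b = x = y` for
all `x` with `sd 0 x ≤ T`, all `η = 2^k / T ≤ |σ|³`, and the energies `j η` with `|j η| ≤ 2 d - a` (at most
`T^{2 d + 3}` events, `T ≤ exp (|σ|^{-θ₀/2})`); every `(E', η')` has `η ≤ η' < 2 η`, `|E' - j η| ≤ η` for one of
them (`|j η| ≤ |E'|`), `HarStmt` in both directions; `c₁ ≤ Im m ≤ C`,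
`|Im G(0)(ζ) - Im m| ≤ |σ|^θ₀` (translation invariance of the free resolvent). -/
def LdsStmt : Prop :=
  ∀ (d : ℕ) (a : ℝ), 3 ≤ d → 0 < a → ∃ θ c : ℝ, 0 < θ ∧ 0 < c ∧ c ≤ 1 / 4 ∧
    ∀ σ T : ℝ, σ ≠ 0 → |σ| ≤ c → |σ| ^ (-3 : ℝ) ≤ T → T ≤ Real.exp (|σ| ^ (-θ)) →
      PP d (gl σ) {V | ¬ ∀ (x : Site d) (E η : ℝ), (sd 0 x : ℝ) ≤ T → |E| ≤ 2 * d - a →
        1 / T ≤ η → η ≤ |σ| ^ 3 →
          c ≤ (G V ⟨E, η⟩ (del x) x).im ∧ (G V ⟨E, η⟩ (del x) x).im ≤ 1 / c} ≤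
        ENNReal.ofReal (Real.exp (-(|σ| ^ (-θ))))

/-- EIZ: all local quasimodes are extended. Proof: as `QX.EigStmt` (`Helper94_LQX/EIG.lean`), from
`TorStmt` (`ξ = exp (|σ|^{-2 θ₀})`); the first part: `EgbStmt` with `n = 1`, `B = C²`
(`|G(x, x)| ≤ |m| + |σ|^θ ≤ C`, `mss {x} = |G(x, x)|²`) gives `4 η C S`, `η = 4 / t`. -/
def EizStmt : Prop :=
  ∀ (d : ℕ) (a : ℝ), 3 ≤ d → 0 < a → ∃ θ c : ℝ, 0 < θ ∧ 0 < c ∧ c ≤ 1 / 4 ∧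
    ∀ σ t : ℝ, σ ≠ 0 → |σ| ≤ c → |σ| ^ (-4 : ℝ) ≤ t → t ≤ Real.exp (|σ| ^ (-θ)) →
      PP d (gl σ) {V | ¬ ∀ (R : ℕ) (E S : ℝ) (u : Site d → ℂ),
        3 * d * t ≤ R → |E| ≤ 2 * d - a → ∑ x ∈ box 0 (R + 1), ‖u x‖ ^ 2 ≤ S →
        ∑ x ∈ box 0 R, ‖QX.nc u x + ((V x - E : ℝ) : ℂ) * u x‖ ^ 2 ≤ S / t ^ 2 →
          (∀ x : Site d, (∀ i, |(x i : ℝ)| ≤ t) → ‖u x‖ ^ 2 ≤ 1 / (c * t) * S) ∧
          ∀ C : Finset (Site d), (∀ x ∈ C, ∀ i, |(x i : ℝ)| ≤ t) → (C.card : ℝ) ≤ t →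
            ∑ x ∈ C, ‖u x‖ ^ 2 ≤ |σ| ^ θ * S} ≤ ENNReal.ofReal (Real.exp (-(|σ| ^ (-θ))))

end Pool.Agent.LE.QY
end
end -- Pool.Agent.LE.StmtsQY

section -- Pool.Agent.LE.DefsQZ

/-!
# The flow for all energies of the bulk, with the second moment: definitions

The same functional as in `DefsQX.lean` with three changes. (1) `U3` is not the part of `Y` but the
part of `Ξ = (1 - Y)⁻¹ - 1`, which need not be small, only `|Ξ| < 99/100`: `LL Ξ = - Ξ/τ + …`. So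
`|(1 - Y)⁻¹| ≤ 2` and `Re (1 - Y) ≥ 1/2`, for all energies, also near `E = 0`. (2) The bound for `La` does not
use `|Y|`. (3) `U6` is the second moment: the form of `τ X` for the cosine and the sine of the smallest
momentum.
-/

set_option autoImplicit false

open MeasureTheory ProbabilityTheory

open scoped ENNReal BigOperators NNReal Matrix

noncomputable section

namespace Pool.Agent.LE.QZ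

open Pool.Agent.Anderson hiding box mem_box card_box
open Pool.Agent.Loc Pool.Agent.Mob Pool.Agent.Helper54.Bal
  Pool.Agent.Helper96.EXP Pool.Agent.BED
open Pool.Agent.LE.MN Pool.Agent.LE.CL Pool.Agent.LE.IR Pool.Agent.LE.QD Pool.Agent.LE.QF

/-! ### the flow on the torus -/

/-- the parameters: the final energy is `E + i η`, the variance is `T`, the self-energy `m`; `δ` bounds
the fluctuations, `N` is the number of the near points, `π₀` bounds `S a a + 1 / (η M^d)`, `S` is a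
Fourier multiplier, `k` the number of the steps for `(1 - Y)⁻¹`; `lam`, `f₁`, `f₂` are the weight and the
two functions of `U6`, `zt0` bounds its initial value -/
structure Dat (d M : ℕ) where
  E : ℝ
  η : ℝ
  T : ℝ
  m : ℂ
  δ : ℝ
  e₀ : ℝ
  e₁ : ℝ
  ϖ : ℝ
  L₀ : ℝ
  N : ℝ
  π₀ : ℝ
  lam : ℝ
  zt0 : ℝ
  f₁ : Tor d M → ℝ
  f₂ : Tor d M → ℝ
  S : Matrix (Tor d M) (Tor d M) ℝ
  k : ℕ
  j : ℕ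
  p : ℕ

variable {d M : ℕ} [NeZero M]

namespace Dat

variable (D : Dat d M)

/-- the imaginary part of the energy at the time `t` -/
def kp (t : ℝ) : ℝ := D.η + (D.T - t) * D.m.im

/-- `τ = κ / Im m` -/
def ta (t : ℝ) : ℝ := D.kp t / D.m.im

/-- the energy at the time `t` -/
def zt (t : ℝ) : ℂ := ⟨D.E, D.η⟩ + ((D.T - t : ℝ) : ℂ) * D.m

/-- the initial imaginary part -/
def w : ℝ := D.kp 0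

/-- the resolvent -/
def G (r : ℝ × (Tor d M → ℝ)) : Matrix (Tor d M) (Tor d M) ℂ := rs r.2 (D.zt r.1)

/-- the free resolvent -/
def G0 : Matrix (Tor d M) (Tor d M) ℂ := rs (0 : Tor d M → ℝ) (D.zt 0)

/-- the near points -/
def nr (a : Tor d M) : Finset (Tor d M) := by
  classical
  exact Finset.univ.filter fun b => D.δ < ‖D.G0 a b‖

/-- the fluctuation of the diagonal -/
def mu (r : ℝ × (Tor d M → ℝ)) (a : Tor d M) : ℂ := D.G r a a - D.m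

/-- `Y = τ B` -/
def Y (r : ℝ × (Tor d M → ℝ)) : Matrix (Tor d M) (Tor d M) ℂ := (D.ta r.1 : ℂ) • BB (D.G r)

/-- `Θ = (1 - Y)⁻¹` -/
def Th (r : ℝ × (Tor d M → ℝ)) : Matrix (Tor d M) (Tor d M) ℂ := (1 - D.Y r)⁻¹

/-- `Ξ = (1 - Y)⁻¹ - 1` -/
def Xi (r : ℝ × (Tor d M → ℝ)) : Matrix (Tor d M) (Tor d M) ℂ := (1 - D.Y r)⁻¹ - 1

/-- `φ = Θ μ` -/
def ph (r : ℝ × (Tor d M → ℝ)) : Tor d M → ℂ := D.Th r *ᵥ D.mu r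

/-- `G + τ G φ G - G₀` -/
def Xh (r : ℝ × (Tor d M → ℝ)) : Matrix (Tor d M) (Tor d M) ℂ :=
  D.G r + (D.ta r.1 : ℂ) • GD (D.G r) (D.ph r) - D.G0

/-- `∑_b |G(a, b)|⁴` -/
def La (r : ℝ × (Tor d M → ℝ)) (a : Tor d M) : ℝ := ∑ b, KK (D.G r) a b ^ 2

/-- the bound for `La` -/
def Ls (t : ℝ) : ℝ := D.L₀ * (D.N + D.π₀ / D.kp t + D.δ ^ 4 / D.kp t)

/-- the Laplacian `τ (diag (K 1) - K)` -/
def X (r : ℝ × (Tor d M → ℝ)) : Matrix (Tor d M) (Tor d M) ℝ := D.ta r.1 • Dl (KK (D.G r))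

/-- `e₀ + τ S` -/
def A (t : ℝ) : Matrix (Tor d M) (Tor d M) ℝ := D.e₀ • (1 : Matrix (Tor d M) (Tor d M) ℝ) + D.ta t • D.S

/-- `(X + P0 + ϖ)⁻¹` -/
def W (r : ℝ × (Tor d M → ℝ)) : Matrix (Tor d M) (Tor d M) ℝ :=
  (D.X r + P0 (Tor d M) + D.ϖ • (1 : Matrix (Tor d M) (Tor d M) ℝ))⁻¹

/-- the part of `φ` -/
def U1 (r : ℝ × (Tor d M → ℝ)) : ℝ := ∑ a, (‖D.ph r a‖ ^ 2 / D.δ ^ 2) ^ D.j

/-- the part of `Xh` -/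
def U2 (r : ℝ × (Tor d M → ℝ)) : ℝ := ∑ a, ∑ b, (‖D.Xh r a b‖ ^ 2 / D.δ ^ 2) ^ D.j

/-- the part of `Ξ` -/
def U3 (r : ℝ × (Tor d M → ℝ)) : ℝ :=
  (Matrix.trace ((D.Xi r * (D.Xi r)ᴴ) ^ D.j)).re / (99 / 100) ^ (2 * D.j)

/-- the part of `La` -/
def U4 (r : ℝ × (Tor d M → ℝ)) : ℝ := ∑ a, (D.La r a / D.Ls r.1) ^ D.j

/-- the part of `W` -/
def U5 (r : ℝ × (Tor d M → ℝ)) : ℝ := Matrix.trace (((D.A r.1)⁻¹ * D.W r) ^ D.p)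

/-- the part of the second moment -/
def U6 (r : ℝ × (Tor d M → ℝ)) : ℝ := D.lam * (D.ta r.1 * (qf (D.X r) D.f₁ + qf (D.X r) D.f₂))

/-- the functional -/
def U (r : ℝ × (Tor d M → ℝ)) : ℝ := D.U1 r + D.U2 r + D.U3 r + D.U4 r + D.U5 r + D.U6 r

/-- bounds `kp t * Ls t` -/
def ch : ℝ := D.L₀ * (D.N * D.w + D.π₀ + D.δ ^ 4)

/-- bounds the rows of `Θ` -/
def h : ℝ := 2 * D.k + 1

/-- the size of the errors: `LL U` is at most `aN / κ` times `U`, nearly -/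
def aN : ℝ :=
  D.j * (D.h ^ 2 * (D.δ + Real.sqrt D.ch / D.δ)) +
    D.j ^ 2 * (D.h ^ 4 * (D.ch / D.δ ^ 2) + D.N * D.w + D.δ + 1 / Real.sqrt D.L₀ + (D.e₀ - 1)) +
    D.p * D.δ + D.p ^ 2 * (D.N * D.w + D.δ ^ 2 + D.π₀)

/-- the additive errors -/
def bN : ℝ := 2 * ((M : ℝ) ^ d) ^ 2 * ((97 / 100) ^ D.j + (1 / D.e₁) ^ D.p)

end Dat

/-- the hypotheses on the parameters and the initial values; `c₁ ≤ 1 ≤ C₁`, `c₀` is small -/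
structure Adm (D : Dat d M) (c₁ C₁ c₀ : ℝ) : Prop where
  hT : 0 < D.T ∧ 0 < D.η ∧ D.w ≤ 1 ∧ D.η ≤ D.T
  hm : c₁ ≤ D.m.im ∧ D.m.im ≤ C₁
  hfix : ∀ a, D.G0 a a = D.m
  hδ : 0 < D.δ ∧ D.δ ≤ c₀
  hk : 1 ≤ D.k ∧ D.k * D.δ ≤ c₀ ∧ (M : ℝ) ^ d * (9 / 10) ^ (2 * D.k) ≤ 1 / 4
  he : 1 < D.e₁ ∧ D.e₁ ≤ D.e₀ ∧ D.e₀ ≤ 2
  hj : 2 ≤ D.j ∧ 2 ≤ D.p ∧ 1 ≤ D.L₀ ∧ 1 ≤ D.N ∧ 0 ≤ D.π₀
  h0 : ∀ a b, ‖D.G0 a b‖ ≤ C₁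
  hN : ∀ a, ((D.nr a).card : ℝ) ≤ D.N
  hY : ∀ u, n2 (D.Xi 0 *ᵥ u) ≤ 118 / 125 * n2 u
  hL : ∀ a, 4 * D.La 0 a ≤ D.Ls 0
  hS : (∀ a b, D.S a b = D.S b a) ∧ (∀ f, 0 ≤ qf D.S f) ∧ (∀ a, ∑ b, D.S a b = 0) ∧
    ∀ a, D.S a a + 1 / (D.η * (M : ℝ) ^ d) ≤ D.π₀
  hϖ : 0 < D.ϖ ∧ D.ϖ ≤ D.δ ∧ ∀ f, D.ϖ * qf (D.A 0) f ≤ D.δ * ∑ a, f a ^ 2
  hW : ∀ f, D.e₁ * qf (D.A 0)⁻¹ f ≤ qf (D.X 0 + P0 (Tor d M)) f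
  h6 : 0 ≤ D.lam ∧ D.U6 0 ≤ D.zt0

end Pool.Agent.LE.QZ
end
end -- Pool.Agent.LE.DefsQZ

section -- Pool.Agent.LE.StmtsQZ

/-!
# The flow for all energies of the bulk, with the second moment

`QY.TorStmt` (the result on the torus, for all `|E| ≤ 2 d - a`, all `M`, with the local law and the second
moment) and `QzfStmt`: `γ(σ, E) ≤ exp (- |σ|^{-θ})` for all `|E| ≤ 2 d - a`.

The general rows of `StmtsQF.lean` and `StmtsQG.lean` (parts A - D, F) are used again. Here: part C' (new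
general rows), part E (the functional; the rows have the same names and nearly the same proofs as in
`QX`: copy the file `Pool/Agent/HelperNN_LQX/...`, change the namespace to `Pool.Agent.LE.QZ.HXX`, open
`Pool.Agent.LE.QF`), part G (numbers), part H (the Lyapunov exponent).

THE NEW IDEA for `E` near `0`: `LL Y = - (1/τ) Y (1 - Y) + …`, and for `E = 0` the free `Y` has the norm `1`
(the momentum `(π, …, π)`: `y = - 1`). But `Ξ = (1 - Y)⁻¹ - 1` satisfies `LL Ξ = - Ξ/τ + …`, its initial norm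
is `sup |y/(1 - y)|`, and `|y| ≤ 1`, `Re y ≤ 0.47` for all momenta give `|y/(1 - y)|² ≤ 0.944`.
-/

set_option autoImplicit false

open MeasureTheory ProbabilityTheory Function Filter

open scoped ENNReal BigOperators Topology NNReal ComplexOrder Matrix

noncomputable section

namespace Pool.Agent.LE.QZ

open Pool.Agent.Anderson hiding box mem_box card_box
open Pool.Agent.Loc Pool.Agent.Mob Pool.Agent.Helper54.Bal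
  Pool.Agent.Helper96.EXP Pool.Agent.BED
open Pool.Agent.LE.MN Pool.Agent.LE.CL Pool.Agent.LE.IR Pool.Agent.LE.QD Pool.Agent.LE.QF

/-! ### C'. General rows -/

/-- LMB: drift and gradient of `Λ(a)`, without a bound for `B`. Proof: as `QX.LmbStmt`
(`Helper22_LQX/LMB.lean`): `x = K e_a`, `Λ = |x|²`, `∑ x ≤ 2/τ`; `K³(a, a) = qf K x ≤ (1/τ) (ε₃ Λ + τ qf S x +
qf P0 x)`, `qf S x ≤ (∑ x)² max S b b`, `qf P0 x = (∑ x)² / |X|`; so `K³(a, a) ≤ (C/κ) (ε₃ Λ + π₀/κ)`. New: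
`|∑ conj (B a b) B a c B c b| ≤ ∑ K a b K a c K c b = K³(a, a)`. `|(K E_K) a a| ≤ Λ^{1/2} (∑_b (E_K a b)²)^{1/2}`,
`∑_b (E_K a b)² ≤ 4 ∑_b K a b |(G μ G) a b|² ≤ C δ² κ^{-2} (N + δ²/κ)`. The gradient is at most
`16 Λ K³(a, a)`. -/
def LmbStmt : Prop :=
  ∀ C₀ : ℝ, 1 ≤ C₀ → ∃ C : ℝ, 1 ≤ C ∧ ∀ (X : Type) [Fintype X] [DecidableEq X]
    (G : Matrix X X ℂ) (μ : X → ℂ) (𝒩 : X → Finset X) (S : Matrix X X ℝ)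
    (κ τ δ N π₀ ε₃ : ℝ) (a : X), GdM G μ 𝒩 κ τ δ N C₀ → 0 ≤ ε₃ →
    (∀ a b, S a b = S b a) → (∀ f, 0 ≤ qf S f) →
    (∀ a, S a a + 1 / (κ * (Fintype.card X : ℝ)) ≤ π₀) →
    (∀ f : X → ℝ, τ * qf (KK G) f ≤ ε₃ * ∑ b, f b ^ 2 + τ * qf S f + qf (P0 X) f) →
      lLa G μ a ≤ C / κ * (π₀ / κ + ε₃ * ∑ b, KK G a b ^ 2 +
        Real.sqrt ((∑ b, KK G a b ^ 2) * (δ ^ 2 * (N + δ ^ 2 / κ)))) ∧
      ∑ c, (2 * ∑ b, KK G a b * dK G c a b) ^ 2 ≤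
        (∑ b, KK G a b ^ 2) * (C / κ * (π₀ / κ + ε₃ * ∑ b, KK G a b ^ 2))

/-- XTU: the part of `Ξ`. Proof: as `YtuStmt` (`YtjStmt`; simpler: the drift part is `- (2 n/τ) tr P^n ≤ 0`,
so no bound for the norm of `v` is needed). -/
def XtuStmt : Prop :=
  ∀ (ι : Type) [Fintype ι] [DecidableEq ι]
    (q : ℝ × (ι → ℝ)) (X : Type) [Fintype X] [DecidableEq X]
    (F : ℝ × (ι → ℝ) → Matrix X X ℂ) (v e : Matrix X X ℂ) (g : ι → Matrix X X ℂ)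
    (τ ε ε₁ ν : ℝ) (n : ℕ), 0 < τ → 0 ≤ ε → 0 < ε₁ → 0 ≤ ν → 1 ≤ n →
    HM F q v g (-(((1 / τ : ℝ) : ℂ) • v) + e) →
    (∀ u : X → ℂ, n2 (e *ᵥ u) ≤ ε ^ 2 * n2 u) →
    (∀ u : X → ℂ, ∑ c, n2 (g c *ᵥ u) ≤ ν * n2 u) →
    (∀ u : X → ℂ, ∑ c, n2 ((g c)ᴴ *ᵥ u) ≤ ν * n2 u) →
      ∃ (g' : ι → ℝ) (l' : ℝ),
        HJ (fun r => (Matrix.trace ((F r * (F r)ᴴ) ^ n)).re / ε₁ ^ (2 * n)) q
          ((Matrix.trace ((v * vᴴ) ^ n)).re / ε₁ ^ (2 * n)) g' l' ∧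
        l' ≤ (4 * n * ε / ε₁ + 8 * n ^ 2 * ν / ε₁ ^ 2) *
          ((Matrix.trace ((v * vᴴ) ^ n)).re / ε₁ ^ (2 * n) + Fintype.card X * (1 / 4) ^ n)

/-- XJT: the jet of `Ξ = (1 - τ B)⁻¹ - 1`. Proof: `JtbStmt` (the jet of `τ B`), `JmaStmt` (inverse):
`∂_c Θ = Θ (∂_c Y) Θ`, `LL Θ = Θ (LL Y) Θ + ∑_c Θ (∂_c Y) Θ (∂_c Y) Θ`, `LL Y = - B + τ (B² + E_B) =
- (1/τ) Y (1 - Y) + τ E_B`, and `Θ Y (1 - Y) Θ = Θ Y = Θ - 1`. -/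
def XjtStmt : Prop :=
  ∀ (X : Type) [Fintype X] [DecidableEq X] (q : ℝ × (X → ℝ))
    (Gm : ℝ × (X → ℝ) → Matrix X X ℂ) (ta : ℝ → ℝ) (G Θ : Matrix X X ℂ) (m : ℂ) (τ : ℝ)
    (μ : X → ℂ), 0 < τ → JHyp q Gm ta G m τ → (μ = fun a => G a a - m) →
    IsUnit (1 - (τ : ℂ) • BB G).det → Θ = (1 - (τ : ℂ) • BB G)⁻¹ →
      HM (fun r => (1 - (ta r.1 : ℂ) • BB (Gm r))⁻¹ - 1) q (Θ - 1)
        (fun c => Θ * ((τ : ℂ) • dB G c) * Θ)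
        (-(((1 / τ : ℝ) : ℂ) • (Θ - 1)) + (Θ * ((τ : ℂ) • EB G μ) * Θ +
          ∑ c, Θ * ((τ : ℂ) • dB G c) * Θ * ((τ : ℂ) • dB G c) * Θ))

/-- XNB: norms. Proof: `|Θ| ≤ 1 + |Θ - 1| ≤ 2`, the same for `Θ^*` (the norm of the adjoint).
`|⟨x, ∑ Θ g_c Θ g_c Θ u⟩| ≤ ∑ |g_c^* Θ^* x| |Θ g_c Θ u| ≤ (4 ν)^{1/2} |x| · 2 (4 ν)^{1/2} |u|`. -/
def XnbStmt : Prop :=
  ∀ (X ι : Type) [Fintype X] [DecidableEq X] [Fintype ι] (Θ A : Matrix X X ℂ)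
    (g : ι → Matrix X X ℂ) (ε ν : ℝ), 0 ≤ ε → 0 ≤ ν → (∀ u : X → ℂ, n2 ((Θ - 1) *ᵥ u) ≤ n2 u) →
    (∀ u : X → ℂ, n2 (A *ᵥ u) ≤ ε ^ 2 * n2 u) → (∀ u : X → ℂ, ∑ c, n2 (g c *ᵥ u) ≤ ν * n2 u) →
    (∀ u : X → ℂ, ∑ c, n2 ((g c)ᴴ *ᵥ u) ≤ ν * n2 u) →
      (∀ u : X → ℂ, n2 (Θ *ᵥ u) ≤ 4 * n2 u ∧ n2 (Θᴴ *ᵥ u) ≤ 4 * n2 u) ∧
      (∀ u : X → ℂ, n2 ((Θ * A * Θ + ∑ c, Θ * g c * Θ * g c * Θ) *ᵥ u) ≤
        (4 * ε + 8 * ν) ^ 2 * n2 u) ∧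
      (∀ u : X → ℂ, ∑ c, n2 ((Θ * g c * Θ) *ᵥ u) ≤ 16 * ν * n2 u) ∧
      ∀ u : X → ℂ, ∑ c, n2 ((Θ * g c * Θ)ᴴ *ᵥ u) ≤ 16 * ν * n2 u

/-- THC: the inverse `Θ = (1 - Y)⁻¹` in the sup norm. Proof: `Θ - 1 = Y Θ`, so with `u = (1 - Y) v` the bound
`|Y v| ≤ |(1 - Y) v|`, i.e. `2 Re ⟨v, Y v⟩ ≤ |v|²`. `|Y v| ≤ (1 + s) |v|` (Schur, `Y` symmetric). So
`Z = (1 + Y)/2` has `|Z v|² ≤ (1/4) (2 + (1 + s)²) |v|² ≤ (9/10)² |v|²`. `1 - Z = (1 - Y)/2`, so `Θ = (1/2)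
∑_{k < k₀} Z^k + Z^{k₀} Θ`. The rows of `Z^k` have the `ℓ¹` norm at most `(1 + s/2)^k ≤ 2`. The row `a` of
`Z^{k₀} Θ` has the `ℓ²` norm at most `2 (9/10)^{k₀}` (`|Θ| ≤ 2`; the norm of the transpose is the same), so
the `ℓ¹` norm at most `2 (9/10)^{k₀} |X|^{1/2} ≤ 1`. (See `Helper41_LQF/THB.lean`.) -/
def ThcStmt : Prop :=
  ∀ (X : Type) [Fintype X] [DecidableEq X] (Y : Matrix X X ℂ) (s : ℝ) (k₀ : ℕ), 0 ≤ s →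
    s ≤ 1 / 10 → (1 + s) ^ k₀ ≤ 2 → (Fintype.card X : ℝ) * (9 / 10) ^ (2 * k₀) ≤ 1 / 4 →
    (∀ a b, Y a b = Y b a) → IsUnit (1 - Y).det →
    (∀ u : X → ℂ, n2 (((1 - Y)⁻¹ - 1) *ᵥ u) ≤ n2 u) → (∀ a, ∑ b, ‖Y a b‖ ≤ 1 + s) →
      ∀ a, ∑ b, ‖(1 - Y)⁻¹ a b‖ ≤ 2 * k₀ + 1

/-- WFU: the upper Riccati inequality. Proof: as `WfbStmt` (a) (`Helper62_LQF/WFB*.lean`):
`qf (Dl (K K)) f = ∑_{a,c} k_c K a c (f a - f c)² - |Δ f|² ≤ (2 (1 + C₀ δ)/τ) qf Δ f`, and the part of `E_K` is at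
most `(C δ/κ) qf Δ f` in absolute value. -/
def WfuStmt : Prop :=
  ∀ C₀ : ℝ, 1 ≤ C₀ → ∃ C : ℝ, 1 ≤ C ∧ ∀ (X : Type) [Fintype X] [DecidableEq X]
    (G : Matrix X X ℂ) (μ : X → ℂ) (𝒩 : X → Finset X) (κ τ δ N : ℝ), GdM G μ 𝒩 κ τ δ N C₀ →
    ∀ f : X → ℝ, qf (τ • Dl (KK G * KK G + EK G μ) - Dl (KK G)) f ≤
      (1 + C * δ) * qf (τ • Dl (KK G)) f / τ

/-- IMM: the self-energy at `2 w`. Proof: `rs 0 z 0 0 = pm 1 / (es - z)` (`RalStmt` (11)), its derivative is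
`bh z 0`, and `KhbStmt` (the cosine of `0` is `1`): at most `C (1 + log (1/w)) w^{-1/2}` on the segment. -/
def ImmStmt : Prop :=
  ∀ d : ℕ, 3 ≤ d → ∃ C : ℝ, 1 ≤ C ∧ ∀ (M : ℕ) [NeZero M] (z : ℂ), 0 < z.im → z.im ≤ 1 / 4 →
    C / z.im ^ 2 ≤ M →
      ‖rs (0 : Tor d M → ℝ) ⟨z.re, 2 * z.im⟩ 0 0 - rs (0 : Tor d M → ℝ) z 0 0‖ ≤
        C * (1 + Real.log (1 / z.im)) * Real.sqrt z.im

/-- IXI: the initial `Ξ`. Proof: `y(p) = τ bh ζ p` is the symbol of `Y` (`KftStmt` and its proof,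
`Helper49_LQF/KFT.lean`): `(Y u)^ = y û`. `w = ζ.im`, `α = es k - Re ζ`, `β = Re ζ - es (p - k)`. `|y| ≤ τ kf 0 = 1`
(Cauchy-Schwarz). `Re y = - 1 + (τ/2) pm ((α - β)² / ((α² + w²)(β² + w²)))`
(`Re (1/((α - i w)(- β - i w))) = (- α β - w²) / ((α² + w²)(β² + w²))`, `- α β - w² =
((α - β)² - (α² + w²) - (β² + w²)) / 2`, `τ pm (1/(α² + w²)) = τ kf 0 = 1`). With `x = α/w`, `y = β/w`:
`(x - y)² / ((1 + x²)(1 + y²)) ≤ φ(x) + φ(y)`, `φ(x) = (3/5)/(1 + x²) + (43/25)/(4 + x²)`; this is the inequality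
`(x-y)²(4+x²)(4+y²) ≤ (3/5)(2+x²+y²)(4+x²)(4+y²) + (43/25)(1+x²)(1+y²)(8+x²+y²)`, PROVED in
`Helper93_LQZ/POI.lean` (`poi`). `pm (1/(α² + 4 w²)) = Im rs 0 ⟨Re ζ, 2 w⟩ 0 0 / (2 w)`. So `Re y ≤ - 1 + 3/5 +
(43/25)(101/200) ≤ 0.47`, and `|y|²/|1 - y|² = |y|²/(1 - 2 Re y + |y|²) ≤ 1/(2 - 0.94) ≤ 118/125`. So
`n2 (Y v) ≤ (118/125) n2 ((1 - Y) v)` (Parseval), `1 - Y` is injective, and `Ξ u = Y v` for `u = (1 - Y) v`. -/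
def IxiStmt : Prop :=
  ∀ (d M : ℕ) [NeZero M] (ζ : ℂ) (τ : ℝ), 0 < ζ.im → 0 < τ → τ * kf ζ (0 : Tor d M) = 1 →
    τ * (rs (0 : Tor d M → ℝ) ⟨ζ.re, 2 * ζ.im⟩ 0 0).im ≤ 101 / 100 * ζ.im →
      IsUnit (1 - (τ : ℂ) • BB (rs (0 : Tor d M → ℝ) ζ)).det ∧
      ∀ u : Tor d M → ℂ, n2 (((1 - (τ : ℂ) • BB (rs (0 : Tor d M → ℝ) ζ))⁻¹ - 1) *ᵥ u) ≤
        118 / 125 * n2 u

/-- IXU: the smallest momentum, initially. Proof: `qf (Dl K) f₁ + qf (Dl K) f₂ = (1/2) ∑ K x y |ec x - ec y|²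
= M^d (kf 0 - kf p)`, `p = Pi.single i 1`, and `kf 0 - kf p = (1/2) pm |1/(es k - ζ) - 1/(es (k + p) - ζ)|² ≤
(1/2) (4 π/M)² w^{-2} kf 0` (`|es k - es (k + p)| ≤ 4 π / M`, `|es (k + p) - ζ| ≥ w`); `8 π² ≤ 100`. -/
def IxuStmt : Prop :=
  ∀ (d M : ℕ) [NeZero M] (ζ : ℂ) (τ : ℝ) (i : Fin d), 0 < ζ.im → 0 < τ →
    τ * kf ζ (0 : Tor d M) = 1 →
      qf (τ • Dl (KK (rs (0 : Tor d M → ℝ) ζ))) (fun x => (ec (Pi.single i 1) x).re) +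
        qf (τ • Dl (KK (rs (0 : Tor d M → ℝ) ζ))) (fun x => (ec (Pi.single i 1) x).im) ≤
          100 * (M : ℝ) ^ d / (M * ζ.im) ^ 2

/-- MOM: the smallest momentum and the second moment. Proof: the right side is
`(1/2) ∑ K x y |ec x - ec y|²`, and `|ec x - ec y|² = 2 - 2 cos (2 π v / M) ≥ 16 v² / M²`, `v` = the
`valMinAbs` of `(x - y) i`, `|v| ≤ M/2` (`1 - cos t = 2 sin² (t/2) ≥ 2 t²/π²` for `|t| ≤ π`). -/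
def MomStmt : Prop :=
  ∀ (d M : ℕ) [NeZero M] (K : Matrix (Tor d M) (Tor d M) ℝ) (i : Fin d),
    (∀ a b, K a b = K b a) → (∀ a b, 0 ≤ K a b) →
      8 / (M : ℝ) ^ 2 * ∑ x, ∑ y, K x y * (((x - y) i).valMinAbs : ℝ) ^ 2 ≤
        qf (Dl K) (fun x => (ec (Pi.single i 1) x).re) +
          qf (Dl K) (fun x => (ec (Pi.single i 1) x).im)

/-! ### E. The functional on the torus -/

/-- the state of the flow at a point with `U < 1` -/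
structure Goo {d M : ℕ} [NeZero M] (D : Dat d M) (q : ℝ × (Tor d M → ℝ)) (κ τ C₀ : ℝ) : Prop where
  hκ : κ = D.kp q.1 ∧ τ = D.ta q.1 ∧ D.η ≤ κ ∧ κ ≤ D.w ∧ 0 < τ ∧ τ ≤ C₀ * κ ∧ κ ≤ C₀ * τ
  hG : GdM (D.G q) (D.mu q) D.nr κ τ D.δ D.N C₀
  hu : IsUnit (1 - D.Y q).det
  hT : ∀ a, ∑ b, ‖D.Th q a b‖ ≤ D.h
  hX : ∀ u : Tor d M → ℂ, n2 (D.Xi q *ᵥ u) ≤ n2 u
  hφ : ∀ a, ‖D.ph q a‖ ≤ D.δ
  hμ : ∀ a, D.mu q a = D.ph q a - τ * (BB (D.G q) *ᵥ D.ph q) a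
  hL : ∀ a, D.La q a ≤ D.Ls q.1
  hA : ∀ f, qf (D.A q.1)⁻¹ f ≤ qf (D.X q + P0 (Tor d M) + D.ϖ • (1 : Matrix (Tor d M) (Tor d M) ℝ)) f
  h5 : D.U5 q ≤ 1
  hK : ∀ f : Tor d M → ℝ, τ * qf (KK (D.G q)) f ≤
    (C₀ * D.δ + (D.e₀ - 1)) * ∑ b, f b ^ 2 + τ * qf D.S f + qf (P0 (Tor d M)) f

/-- NNU: the parts are nonnegative. Proof: as `QX.NnuStmt`; `U6`: `lam ≥ 0`, `ta > 0`, `X = τ Dl K ≥ 0`. -/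
def NnuStmt : Prop :=
  ∀ (d M : ℕ) [NeZero M] (D : Dat d M) (c₁ C₁ c₀ : ℝ) (q : ℝ × (Tor d M → ℝ)),
    0 < c₁ → Adm D c₁ C₁ c₀ → 0 < D.kp q.1 →
      0 ≤ D.U1 q ∧ 0 ≤ D.U2 q ∧ 0 ≤ D.U3 q ∧ 0 ≤ D.U4 q ∧ 0 ≤ D.U5 q ∧ 0 ≤ D.U6 q

/-- RSJ: the resolvent. Proof: as `QX.RsjStmt`. -/
def RsjStmt : Prop :=
  ∀ (d M : ℕ) [NeZero M] (D : Dat d M) (c₁ C₁ c₀ : ℝ)
    (q : ℝ × (Tor d M → ℝ)), 0 < c₁ → Adm D c₁ C₁ c₀ → 0 < D.kp q.1 →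
      JHyp q D.G D.ta (D.G q) D.m (D.ta q.1) ∧
      (∀ a b, ((D.kp q.1 : ℝ) : ℂ) * ∑ c, D.G q a c * (starRingEnd ℂ) (D.G q b c) =
        ((D.G q a b).im : ℂ)) ∧
      (∀ a b, D.G0 a b = D.G0 b a) ∧ D.kp q.1 = D.ta q.1 * D.m.im ∧
      (0 ≤ q.1 → q.1 ≤ D.T → D.η ≤ D.kp q.1 ∧ D.kp q.1 ≤ D.w) ∧
      ContDiffAt ℝ 2 D.Ls q.1 ∧ 0 ≤ deriv D.Ls q.1

/-- GOD: a point with `U < 1` is good. Proof: as `QX.GodStmt`. `U3 < 1`: `tr (Ξ Ξ^*)^j ≥ |Ξ|^{2j}`, so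
`|Ξ| < 99/100`; if `1 - Y` were not invertible, then `Ξ = - 1` (the inverse is `0`), a contradiction. So
`1 - Y` is invertible, `μ = (1 - Y) φ`. `GdcStmt` first (it does not use `Θ`), then `ThcStmt` with `k₀ = k`,
`s = C₀ δ` (`Y` is symmetric, its rows: `τ ∑ |G a b|² ≤ 1 + C₀ δ`; `(1 + s)^k ≤ exp (C₀ k δ) ≤ 2`).
The rest as in `QX`. -/
def GodStmt : Prop :=
  ∀ (c₁ C₁ : ℝ), 0 < c₁ → 1 ≤ C₁ → ∃ c₀ C₀ : ℝ, 0 < c₀ ∧ c₀ ≤ 1 / 2 ∧ 1 ≤ C₀ ∧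
      ∀ (d M : ℕ) [NeZero M] (D : Dat d M) (q : ℝ × (Tor d M → ℝ)), Adm D c₁ C₁ c₀ → 0 ≤ q.1 →
        q.1 ≤ D.T → D.U q < 1 → Goo D q (D.kp q.1) (D.ta q.1) C₀

/-- UPA: the parts of `φ` and `Xh`. Proof: as `QX.UpaStmt`. -/
def UpaStmt : Prop :=
  ∀ (c₁ C₁ C₀ : ℝ), 0 < c₁ → 1 ≤ C₁ → 1 ≤ C₀ → ∃ C : ℝ, 1 ≤ C ∧
      ∀ (d M : ℕ) [NeZero M] (D : Dat d M) (c₀ κ τ : ℝ) (q : ℝ × (Tor d M → ℝ)),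
        Adm D c₁ C₁ c₀ → 0 ≤ q.1 → q.1 ≤ D.T → Goo D q κ τ C₀ →
          ContDiffAt ℝ 2 D.U1 q ∧ ContDiffAt ℝ 2 D.U2 q ∧
          LL D.U1 q ≤ C * D.aN / κ * (D.U1 q + ((M : ℝ) ^ d) ^ 2 * (1 / 4) ^ D.j) ∧
          LL D.U2 q ≤ C * D.aN / κ * (D.U2 q + ((M : ℝ) ^ d) ^ 2 * (1 / 4) ^ D.j)

/-- UPB: the part of `Ξ`. Proof: `XjtStmt`, `NrbStmt`: `|τ E_B| ≤ C δ / κ`, the noise of `Y` is
`τ² C (N/κ² + δ²/κ³) ≤ C (N w + δ²) / κ`; `XnbStmt`: `e` is at most `(C/κ) (δ + N w + δ²)`, the noise of `Ξ` at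
most `(C/κ) (N w + δ²)`; `XtuStmt` with `ε₁ = 99/100`: the rate is at most `(C/κ) (j (δ + N w) +
j² (N w + δ²)) ≤ C aN / κ`. -/
def UpbStmt : Prop :=
  ∀ (c₁ C₁ C₀ : ℝ), 0 < c₁ → 1 ≤ C₁ → 1 ≤ C₀ → ∃ C : ℝ, 1 ≤ C ∧
      ∀ (d M : ℕ) [NeZero M] (D : Dat d M) (c₀ κ τ : ℝ) (q : ℝ × (Tor d M → ℝ)), c₀ ≤ 1 / 2 →
        Adm D c₁ C₁ c₀ → 0 ≤ q.1 → q.1 ≤ D.T → Goo D q κ τ C₀ →
          ContDiffAt ℝ 2 D.U3 q ∧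
          LL D.U3 q ≤ C * D.aN / κ * (D.U3 q + ((M : ℝ) ^ d) ^ 2 * (1 / 4) ^ D.j)

/-- UPC: the part of `Λ`. Proof: `JtlStmt`, `LmbStmt` with `ε₃ = C₀ δ + (e₀ - 1)` (`η ≤ κ`); `π₀/κ ≤ Ls/L₀`,
`δ² (N + δ²/κ) ≤ Ls/L₀` (`δ ≤ c₀ ≤ 1/2`), so `l ≤ (C/κ) (Ls/L₀ + (Ls Λ/L₀)^{1/2} + ε₃ Λ)`; `LmuStmt` with
`ϵ = ε₃`: the rate is at most `(C/κ) j² (L₀^{-1/2} + δ + (e₀ - 1))`. -/
def UpcStmt : Prop :=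
  ∀ (c₁ C₁ C₀ : ℝ), 0 < c₁ → 1 ≤ C₁ → 1 ≤ C₀ → ∃ C : ℝ, 1 ≤ C ∧
      ∀ (d M : ℕ) [NeZero M] (D : Dat d M) (c₀ κ τ : ℝ) (q : ℝ × (Tor d M → ℝ)), c₀ ≤ 1 / 2 →
        Adm D c₁ C₁ c₀ → 0 ≤ q.1 → q.1 ≤ D.T → Goo D q κ τ C₀ →
          ContDiffAt ℝ 2 D.U4 q ∧
          LL D.U4 q ≤ C * D.aN / κ * (D.U4 q + ((M : ℝ) ^ d) ^ 2 * (1 / 4) ^ D.j)

/-- UPD: the part of `W`. Proof: as `QX.UpdStmt`. -/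
def UpdStmt : Prop :=
  ∀ (c₁ C₁ C₀ : ℝ), 0 < c₁ → 1 ≤ C₁ → 1 ≤ C₀ → ∃ c₂ C : ℝ, 0 < c₂ ∧ 1 ≤ C ∧
      ∀ (d M : ℕ) [NeZero M] (D : Dat d M) (c₀ κ τ : ℝ) (q : ℝ × (Tor d M → ℝ)), c₀ ≤ c₂ →
        Adm D c₁ C₁ c₀ → 0 ≤ q.1 → q.1 ≤ D.T → Goo D q κ τ C₀ →
          ContDiffAt ℝ 2 D.U5 q ∧
          LL D.U5 q ≤ C * D.aN / κ * (D.U5 q + (M : ℝ) ^ d * (1 / D.e₀) ^ D.p) +
            C * D.p / κ * ((M : ℝ) ^ d * (1 / D.e₀) ^ D.p)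

/-- UPE: the part of the second moment. Proof: `U6 = lam τ (qf X f₁ + qf X f₂)`, `JtbStmt` (the jet of `X`),
`JalStmt`: `LL U6 = lam ∑_f (- qf X f + τ qf (τ Dl (K² + E_K) - Dl K) f) ≤ lam ∑_f C δ qf X f = (C δ / τ) U6`
(`WfuStmt`); `δ ≤ p δ ≤ aN`. -/
def UpeStmt : Prop :=
  ∀ (c₁ C₁ C₀ : ℝ), 0 < c₁ → 1 ≤ C₁ → 1 ≤ C₀ → ∃ C : ℝ, 1 ≤ C ∧
      ∀ (d M : ℕ) [NeZero M] (D : Dat d M) (c₀ κ τ : ℝ) (q : ℝ × (Tor d M → ℝ)),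
        Adm D c₁ C₁ c₀ → 0 ≤ q.1 → q.1 ≤ D.T → Goo D q κ τ C₀ →
          ContDiffAt ℝ 2 D.U6 q ∧ LL D.U6 q ≤ C * D.aN / κ * D.U6 q

/-- USM: smoothness. Proof: if `1 - Y q` is invertible then all parts are `C²` at `q` (as in `QX`; `XjtStmt`
or `JmaStmt` for `Ξ`; `U6`: products). If not: some `u ≠ 0` has `Y(q) u = u`, `|u| = 1`. For `r` near `q`:
`|(1 - Y(r)) u| ≤ 1/2` and `kp r.1 > 0`. If `1 - Y(r)` is not invertible, then `Ξ(r) = - 1` and `tr (Ξ Ξ^*)^j =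
M^d ≥ 1`; if it is invertible: `v = (1 - Y(r)) u`, `Ξ(r) v = u - v`, `|Ξ v| ≥ 1/2 ≥ |v| > 0`, so
`tr (Ξ Ξ^*)^j ≥ |Ξ|^{2j} ≥ 1`. So `U3 r ≥ 1`, the other parts are nonnegative (`NnuStmt`). -/
def UsmStmt : Prop :=
  ∀ (d M : ℕ) [NeZero M]
    (D : Dat d M) (c₁ C₁ c₀ : ℝ) (q : ℝ × (Tor d M → ℝ)), 0 < c₁ → c₀ ≤ 1 / 2 →
    Adm D c₁ C₁ c₀ → 0 ≤ q.1 → q.1 ≤ D.T →
      (∀ᶠ r in 𝓝 q, 1 ≤ D.U r) ∨ ContDiffAt ℝ 2 D.U q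

/-- UPR: the probability. Proof: as `QX.UprStmt`: `UflStmt` with `a(t) = C aN / κ`, `b(t) = C (aN + p) bN / κ`
(`(1/4)^j ≤ (97/100)^j`). `U(0)`: `φ = 0`, `Xh = 0` (`hfix`), `U3 ≤ M^d (118/125)^j / (99/100)^{2j} ≤
M^d (97/100)^j` (`hY`), `U4 ≤ M^d 4^{-j}` (`hL`), `U5 ≤ M^d e₁^{-p}` (`hW`, `WabStmt`), `U6 ≤ zt0` (`h6`), so
`U(0) ≤ bN + zt0`. -/
def UprStmt : Prop :=
  ∀ (c₁ C₁ : ℝ), 0 < c₁ → 1 ≤ C₁ → ∃ c₀ C : ℝ, 0 < c₀ ∧ c₀ ≤ 1 / 2 ∧ 1 ≤ C ∧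
      ∀ (d M : ℕ) [NeZero M] (D : Dat d M) (v : ℝ≥0), Adm D c₁ C₁ c₀ → (v : ℝ) = D.T →
        gau d M v {V | 1 ≤ D.U (D.T, V)} ≤
          ENNReal.ofReal (Real.exp (C * D.aN * (1 + Real.log (D.w / D.η))) *
            (C * (1 + D.aN + D.p) * (1 + Real.log (D.w / D.η)) * D.bN + 3 * D.zt0))

/-- OUT: the result at the final time. Proof: as `QX.OutStmt`; `|G - G₀| ≤ |Xh| + τ |G φ G| ≤
δ + δ (1 + C δ)`; the last part is `U6 ≤ 1` (`τ = η / Im m`). -/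
def OutStmt : Prop :=
  ∀ (c₁ C₁ : ℝ), 0 < c₁ → 1 ≤ C₁ → ∃ c₀ C : ℝ, 0 < c₀ ∧ c₀ ≤ 1 / 2 ∧ 1 ≤ C ∧
      ∀ (d M : ℕ) [NeZero M] (D : Dat d M) (V : Tor d M → ℝ), Adm D c₁ C₁ c₀ →
        D.U (D.T, V) < 1 →
          (∀ x, c₁ / 2 ≤ (rs V ⟨D.E, D.η⟩ x x).im) ∧
          (∀ x y, ‖rs V ⟨D.E, D.η⟩ x y - D.G0 x y‖ ≤ 4 * D.δ) ∧
          (∀ C' : Finset (Tor d M), mss V ⟨D.E, D.η⟩ C' ≤
            C / D.η * (D.δ + (D.e₀ - 1) + C'.card / (M : ℝ) ^ d) * C'.card +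
              ∑ x ∈ C', ∑ y ∈ C', D.S x y) ∧
          D.lam * (D.η / D.m.im) ^ 2 * (qf (Dl (KK (rs V ⟨D.E, D.η⟩))) D.f₁ +
            qf (Dl (KK (rs V ⟨D.E, D.η⟩))) D.f₂) ≤ 1

/-! ### G. Numbers, the torus -/

/-- INI: the parameters. Proof: as `QX.IniStmt` (`Helper68_LQX/INI*.lean`), `BqbStmt` is not needed.
`s = |σ|`, `θ₀ = ε / (24 d)`, `θ = θ₀ / 8`, `T = σ²`, `m` from `MbrStmt` (`|m| ≤ C₁`: `FrbStmt`, `m = G₀(x, x)`),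
`w = η + T Im m`, `c σ² ≤ w ≤ C σ²`; `ζ = zt 0`, `|Re ζ| ≤ 2 d - a/2`. `log M ≤ s^{-θ}`, `C / w² ≤ M` from
`s^{-5} ≤ M`. `k = ⌈s^{-2θ}⌉`, so `h ≤ 5 s^{-2θ}`, `M^d (9/10)^{2k} ≤ exp (d s^{-θ} - s^{-2θ}/5) ≤ 1/4`.
`δ = s^{5θ₀}`, `e₀ = 1 + s^{3θ₀}`, `e₁ = 1 + s^{3θ₀}/2`, `L₀ = s^{-6θ₀}`, `j = ⌈s^{-θ₀}⌉`, `p = ⌈s^{-4θ₀}⌉`,
`J = ⌈M s^{2 - ε/(2d)}⌉` (so `J/M ≤ 2 s^{2-ε/(2d)} ≤ 1/8`), `S = mlt (sy0 cs w J)` (`InmStmt`), `cs` large,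
`π₀ = C s³ + s^ε`: `S a a ≤ (C/w) ((J/M)^d + w² (J/M)^{d-2}) ≤ C s^{2d-2-ε/2}`, `1/(η M^d) ≤ s^ε`; so
`π₀ ≤ C s^{24 d θ₀}`. `N = δ^{-4} C w^{-2/3} (1 + log M)^6` (`FrbStmt`), `N w ≤ C s^{2/3 - 21θ₀} ≤ s^{20θ₀}`.
`ϖ = δ w / (C M²)`. `hY`: `IxiStmt`, `ImmStmt`. `hW`: `InwStmt`, `GalStmt`, `KhbStmt` for `p ∉ low`:
`β = C l (w/r)^{1/2} ≤ s^{3θ₀}/8`, `r = s^{2-ε/(2d)}`. `ch ≤ 3 s^{14θ₀}`; `aN ≤ C s^{θ₀/2} = C s^{4θ}`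
(`j² δ ≤ C s^{3θ₀}`, the others as in `QX`). `bN ≤ 4 exp (2 d s^{-θ} - s^{-8θ}/40) ≤ exp (- s^{-4θ})`.
`lam = c₁ w M² / (100 M^d ξ)`, `IxuStmt`: `U6 0 ≤ lam (w / Im m) 100 M^d / (M w)² ≤ 1/ξ`; `w ≥ c₁ σ²`.
The last part: `MssStmt` with `J₁ = max (1, ⌈M s^{-ε/4} (η w)^{1/2}⌉)`. If `M s^{-ε/4} (η w)^{1/2} ≥ 1`:
`J₁/M ≤ 2 s^{-ε/4} (η w)^{1/2}`, `η (1/w + w M²/J₁²) ≤ C s + s^{ε/2}`, `|C'| (J₁/M)^d ≤ (C s^{3ε/4})^d ≤ 1`, so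
`η |C'| ((J₁/M)^d/w + w (J₁/M)^{d-2}) ≤ η/w + η w (J₁/M)^{-2} ≤ C s + s^{ε/2}`. If it is `< 1`: `J₁ = 1`,
`η w M² ≤ s^{ε/2}`, `|C'| M^{-d} ≤ s^ε`, the same bounds. -/
def IniStmt : Prop :=
  ∀ (d : ℕ) (a ε : ℝ), 3 ≤ d → 0 < a → 0 < ε → ε ≤ 1 → ∃ (θ c₁ C₁ : ℝ), 0 < θ ∧
    θ ≤ ε / 100 ∧ 0 < c₁ ∧ 1 ≤ C₁ ∧ ∀ c₀ : ℝ, 0 < c₀ → ∃ c C : ℝ, 0 < c ∧ c ≤ 1 / 4 ∧ 1 ≤ C ∧
      ∀ (M : ℕ) [NeZero M] (σ E η : ℝ), σ ≠ 0 → |σ| ≤ c → |E| ≤ 2 * d - a →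
        |σ| ^ (-5 : ℝ) ≤ M → (M : ℝ) ≤ Real.exp (|σ| ^ (-θ)) → |σ| ^ (-ε) ≤ η * (M : ℝ) ^ d →
        η ≤ |σ| ^ 3 →
          ∃ m : ℂ, c₁ ≤ m.im ∧ ‖m‖ ≤ C₁ ∧
            (∀ x, rs (0 : Tor d M → ℝ) (⟨E, η⟩ + (σ : ℂ) ^ 2 * m) x x = m) ∧
            ∀ (i : Fin d) (ξ : ℝ), 1 ≤ ξ →
              ∃ D : Dat d M, Adm D c₁ C₁ c₀ ∧ D.E = E ∧ D.η = η ∧ D.T = σ ^ 2 ∧ D.m = m ∧
                D.f₁ = (fun x => (ec (Pi.single i 1) x).re) ∧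
                D.f₂ = (fun x => (ec (Pi.single i 1) x).im) ∧
                D.zt0 = 1 / ξ ∧ 0 < D.lam ∧
                (M : ℝ) ^ 2 ≤ C * ξ * (M : ℝ) ^ d / σ ^ 2 * D.lam ∧
                D.aN ≤ C * |σ| ^ (4 * θ) ∧ (D.p : ℝ) ≤ |σ| ^ (-1 : ℝ) ∧ D.δ ≤ |σ| ^ (4 * θ) ∧
                D.e₀ - 1 ≤ |σ| ^ (4 * θ) ∧ D.bN ≤ Real.exp (-(|σ| ^ (-(4 * θ)))) ∧
                ∀ C' : Finset (Tor d M), (C'.card : ℝ) ≤ (|σ| ^ (ε - 1) / Real.sqrt η) ^ d →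
                  (C'.card : ℝ) ≤ |σ| ^ ε * (M : ℝ) ^ d →
                  ∑ x ∈ C', ∑ y ∈ C', D.S x y ≤ |σ| ^ (4 * θ) * C'.card / η

/-- TOF: the torus; the statement is `QY.TorStmt`. Proof: `IniStmt`, `UprStmt`, `OutStmt` (`c₀` = the
minimum of the two). `log (w/η) ≤ log (1/η) ≤ d log M ≤ d |σ|^{-θ}` (`η M^d ≥ 1`), so
`C aN (1 + log (w/η)) ≤ 1` for small `σ`; the probability is at most `3 (C |σ|^{-2} exp (- |σ|^{-4θ}) + 3/ξ) ≤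
9/ξ + exp (- |σ|^{-2θ})`. `4 δ ≤ |σ|^θ`; `|C'| / M^d ≤ |σ|^ε ≤ |σ|^{4θ}`. The second moment: `MomStmt` (`K = KK (rs V z)`, symmetric:
`RalStmt`): `lam (η/C₁)² (8/M²) ∑ ∑ ≤ 1`, so the sum is at most `C₁² M² / (8 lam η²) ≤ C ξ M^d / (σ² η²)`. -/
def TofStmt : Prop := QY.TorStmt

/-! ### H. The Lyapunov exponent -/

/-- CPZ: the probability of the large clusters. Proof: as `QX.CpzStmt` (`Helper54_LQX/CPZ.lean`), from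
`QY.TorStmt` with `ε = 1`, `ξ = exp (|σ|^{-2 θ₀})` (the probability is at most `(C + 1) exp (- |σ|^{-2 θ₀})`), `η = exp (- |σ|^{-θ₀/4})`,
`M` = the smallest natural number with `1 ≤ |σ|⁴ η² M`, so `|σ|^{-5} ≤ M ≤ 2 |σ|^{-4} η^{-2} ≤ exp (|σ|^{-θ₀})`;
`|C'| ≤ η^{-d/2} ≤ |σ| M^d`. -/
def CpzStmt : Prop :=
  ∀ (d : ℕ) (a : ℝ), 3 ≤ d → 0 < a → ∃ θ c : ℝ, 0 < θ ∧ θ ≤ 1 / 100 ∧ 0 < c ∧
    c ≤ 1 / 4 ∧ ∀ σ E : ℝ, σ ≠ 0 → |σ| ≤ c → |E| ≤ 2 * d - a →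
      ∃ (n ρ J : ℕ) (s q : ℝ), 1 ≤ s ∧ s ≤ |σ| ^ (-1 : ℝ) ∧ 1 ≤ ρ ∧
        Real.log ρ ≤ |σ| ^ (-1 : ℝ) ∧ 1 ≤ J ∧ (J : ℝ) ≤ |σ| ^ (-1 : ℝ) ∧
        1 ≤ n ∧ Real.exp (|σ| ^ (-θ)) ≤ n ∧ 0 ≤ q ∧ q * n ≤ 1 ∧
        ∀ (N : ℕ) (b : Site d), box b ρ ⊆ box 0 N →
          PP d (gl σ) {V | ¬ n ≤ (rch V (box 0 N) E s b ρ J).card} ≤ ENNReal.ofReal q

/-- QZF: the final bound. Proof: as `QX.QxfStmt` (`Helper13_LQX/QXF.lean`). -/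
def QzfStmt : Prop :=
  ∀ (d : ℕ) (a : ℝ), 3 ≤ d → 0 < a → ∃ θ c : ℝ, 0 < θ ∧ 0 < c ∧ c ≤ 1 / 4 ∧
    ∀ σ E g : ℝ, σ ≠ 0 → |σ| ≤ c → |E| ≤ 2 * d - a → LyaAt d σ E g →
      g ≤ Real.exp (-(|σ| ^ (-θ)))

end Pool.Agent.LE.QZ
end
end -- Pool.Agent.LE.StmtsQZ

section -- Pool.Agent.ANI.Stmts

/-!
# Anderson (2b), block I0: the initial state

At the initial time all clocks are equal to `T = σ²`, the potential is `0`, the gauge is the constant `m`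
with `G₀(x, x) = m`, `G₀ = rs 0 ζ`, `ζ = E + i η + T m`. So `κ = ζ.im = η + T Im m`, `τ = κ / Im m = T + η / Im m`,
and `τ kf ζ 0 = 1` (Ward: `KftStmt`, last part). All the constants depend only on `d` and the distance `a`
of `|E|` to `2 d`, not on the side `M` of the torus (`M ≥ C / T²`), and not on `η`.

The rows `RalStmt` (namespace `QD`), `FmuStmt`, `KftStmt`, `KhbStmt`, `GalStmt`, `FrbStmt`, `MbrStmt`, `LowStmt`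
(namespace `QF`), `BktStmt`, `IntStmt`, `DsuStmt` (`QD`), `ImmStmt` (`QZ`) are PROVED: see
`Pool/Agent/Helper54_LQZ/All.lean`, `Pool/Agent/Helper54_LQX/All.lean` for the names. They are taken as
hypotheses in the rows.
-/

set_option autoImplicit false

open MeasureTheory ProbabilityTheory Function Filter

open scoped ENNReal BigOperators Topology NNReal ComplexOrder Matrix

noncomputable section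

namespace Pool.Agent.ANI

open Pool.Agent.Anderson hiding box mem_box card_box
open Pool.Agent.Loc Pool.Agent.Mob Pool.Agent.Helper54.Bal
  Pool.Agent.Helper96.EXP Pool.Agent.BED
open Pool.Agent.LE Pool.Agent.LE.MN Pool.Agent.LE.CL Pool.Agent.LE.IR Pool.Agent.LE.QD
  Pool.Agent.LE.QF

/-- the symbol of `N₀ = K₀ (1 - T K₀)⁻¹`, `K₀ = |G₀|²` entry by entry -/
def n0 {d M : ℕ} [NeZero M] (ζ : ℂ) (T : ℝ) (p : Tor d M) : ℝ := kf ζ p / (1 - T * kf ζ p)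

/-- the part of the symbol of `N₀` above the level `t` -/
def n1 {d M : ℕ} [NeZero M] (ζ : ℂ) (T t : ℝ) (p : Tor d M) : ℝ :=
  if t < n0 ζ T p then n0 ζ T p else 0

/-- SBL: the Sobolev inequality without `log M`. Proof: as `SobStmt` (`Helper70_LQD/SOB.lean`): in `scale` the
only property of `K` is `2^K ≤ M/40` and `1 ≤ a² 2^K`, so one takes `2^K` between `1/η²` and `2/η²`, and
`log (2^k) ≤ log (2^K)` instead of `log M`. -/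
def SblStmt : Prop :=
  ∀ d : ℕ, 3 ≤ d → ∃ C : ℝ, 1 ≤ C ∧ ∀ (M : ℕ) [NeZero M] (E η : ℝ), 0 < η → η ≤ 1 →
    C / η ^ 2 ≤ M → Sob d M E η (C * η ^ (-(1 / 3 : ℝ)) * (1 + Real.log (1 / η)) ^ 2)

/-- LAM: `∑ |G₀|⁴` without `log M`. Proof: as the second part of `FrbStmt` (`Helper88_LQF/FRB.lean`) with
`SblStmt` instead of `SobStmt`. -/
def LamStmt : Prop :=
  ∀ d : ℕ, 3 ≤ d → ∃ C : ℝ, 1 ≤ C ∧ ∀ (M : ℕ) [NeZero M] (z : ℂ), 0 < z.im → z.im ≤ 1 →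
    C / z.im ^ 2 ≤ M → ∀ x : Tor d M, ∑ y, ‖rs (0 : Tor d M → ℝ) z x y‖ ^ 4 ≤
      C * z.im ^ (-(2 / 3 : ℝ)) * (1 + Real.log (1 / z.im)) ^ 6

/-- SMT: the kernel for small times. Proof: expand `e^{2 i t cos θ} = ∑_m (i t)^m / m! (e^{iθ} + e^{-iθ})^m` as in
`QD.TorStmt` (`Helper89_LQD/TOR.lean`): the coefficient of `(i t)^m / m!` in `jt M t n` is
`(1/M) ∑_p ec(p n) (e^{iθ_p} + e^{-iθ_p})^m = ∑_{j ≤ m} binom m j [n + 2 j - m = 0 mod M]`; it is `0` for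
`m < |n.valMinAbs|` (`|2 j - m| ≤ m < |n'| ≤ M / 2`), and at most `2^m`. So with `k = |n.valMinAbs| ≥ 1`
`|jt M t n| ≤ ∑_{m ≥ k} (2|t|)^m / m! ≤ 2 (2 e |t| / k)^k ≤ 2 · 2^{-k}` for `|t| ≤ k/12` (`m! ≥ (m/e)^m`, ratio of the
terms `≤ 2 |t| / k ≤ 1/6`). -/
def SmtStmt : Prop :=
  ∀ (M : ℕ) [NeZero M] (t : ℝ) (n : ZMod M), 12 * |t| ≤ (n.valMinAbs.natAbs : ℝ) →
    ‖jt M t n‖ ≤ 2 * (1 / 2) ^ n.valMinAbs.natAbs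

/-- PRD: decay of the free resolvent. Proof: as the first part of `FrbStmt` (`Helper88_LQF/FRB.lean`): for
`k = |(x i).valMinAbs| ≥ 24`: `(e - z)⁻¹ = i ∫_0^∞ e^{-i t (e - z)} dt`. The part `0 ≤ t ≤ k/12`: the kernel is
`∏_j jt M (-t) (x j)`, `|jt| ≤ 1`, and `SmtStmt` for the coordinate `i`: at most `(k/12) 2 · 2^{-k} ≤ C k^{-1}`. The
dyadic blocks `T = 2^j k / 24`, `2 T ≤ M/40`: `BktStmt`: `C T^{-1/3} (1 + log T) ≤ C k^{-1/6} 2^{-j/6}`, sum over `j`.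
The rest `t ≥ M/160`: `e^{-w M/160}/w ≤ C / M ≤ C / k` for `M ≥ C / w²`, `w = z.im` (`e^{-x} ≤ 6 x^{-3}`:
`6 · 160³ / (w⁴ M³) ≤ C / M`). If `M/80 < k/12`: the first part up to `M/160` and the rest. For `k < 24`:
`FrbStmt`. -/
def PrdStmt : Prop :=
  ∀ d : ℕ, 3 ≤ d → ∃ C : ℝ, 1 ≤ C ∧ ∀ (M : ℕ) [NeZero M] (z : ℂ), 0 < z.im → z.im ≤ 1 →
    C / z.im ^ 2 ≤ M → ∀ (x y : Tor d M) (i : Fin d), ‖rs (0 : Tor d M → ℝ) z x y‖ ≤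
      C * (1 + (((x - y) i).valMinAbs.natAbs : ℝ)) ^ (-(1 / 6 : ℝ))

/-- SYM: the symbol of the first network, two sided. Proof: (1) upper bound: `kf 0 - kf p =
(1/2) pm |1/(es k - ζ) - 1/(es (k + p) - ζ)|² ≤ (1/2) sup |es k - es (k + p)|² w^{-2} kf 0`, `w = ζ.im` (as `IxuStmt`,
`Helper63_LQZ/IXU.lean`), and `|es k - es (k + p)| ≤ ∑_i 4 |sin (π p_i / M)|`, `ds p = ∑ 4 sin² (π p_i / M)`, so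
`kf 0 - kf p ≤ 2 d ds p w^{-2} kf 0`; also `|kf p| ≤ kf 0`, `kf 0 - kf p ≤ 2 kf 0`. And `min (2, 2 d x) ≤
4 d x/(1 + x)`, `x = ds/w²`. (2) lower bound: if `8 |p_i| ≤ M` for all `i`: `GalStmt`, `min (1, x) ≥ x/(1 + x)`. If not,
`|sin (π p_i / M)| ≥ sin (π/8) ≥ 1/3` for some `i`, and `KhbStmt` (`kf = Re kh`, `KftStmt`) gives
`kf p ≤ C (1 + log (1/w)) (3 w)^{1/2} / w ≤ (1/2) kf 0` for small `w`, since `kf 0 = Im G₀(0,0) / w ≥ c / w`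
(hypothesis). -/
def SymStmt : Prop :=
  ∀ (d : ℕ) (a b : ℝ), 3 ≤ d → 0 < a → 0 < b → ∃ c C : ℝ, 0 < c ∧ c ≤ 1 / 2 ∧ 1 ≤ C ∧
    ∀ (M : ℕ) [NeZero M] (ζ : ℂ), |ζ.re| ≤ 2 * d - a → 0 < ζ.im → ζ.im ≤ c → C / ζ.im ^ 2 ≤ M →
      b ≤ ζ.im * kf ζ (0 : Tor d M) → ∀ p : Tor d M,
        c * (ds p / (ζ.im ^ 2 + ds p)) * kf ζ (0 : Tor d M) ≤ kf ζ (0 : Tor d M) - kf ζ p ∧
        kf ζ (0 : Tor d M) - kf ζ p ≤ C * (ds p / (ζ.im ^ 2 + ds p)) * kf ζ (0 : Tor d M)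

/-- SYF: the first network against the lattice. `qf (Dl K)` is `(1/2) ∑ K x y (f x - f y)²`, `adj d M` has the
symbol `es = 2 d - ds`, so the symbol of the lattice form `∑_x ∑_i (h (x + e_i) - h x)²` is `ds`. Proof: `FmuStmt`
with the symbols `kf 0 - kf p` (`KftStmt`: `KK G₀ = mlt (kf ζ)`, the row sums are `kf 0`), and `ds`. (1) `h` = the
multiplier `w²/(w² + ds)` applied to `f`: `|f - h|² + w^{-2} ds |h|²` has the symbol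
`(ds/(w² + ds))² + ds w²/(w² + ds)² = ds/(w² + ds)`. (2) for all complex numbers `f = (f - h) + h`:
`ds/(w² + ds) |f|² ≤ 2 |f - h|² + 2 w^{-2} ds |h|²`. -/
def SyfStmt : Prop :=
  ∀ (d M : ℕ) [NeZero M] (ζ : ℂ) (c C : ℝ), 0 < ζ.im → 0 < c → 0 < C →
    (∀ p : Tor d M,
      c * (ds p / (ζ.im ^ 2 + ds p)) * kf ζ (0 : Tor d M) ≤ kf ζ (0 : Tor d M) - kf ζ p ∧
      kf ζ (0 : Tor d M) - kf ζ p ≤ C * (ds p / (ζ.im ^ 2 + ds p)) * kf ζ (0 : Tor d M)) →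
    ∀ f : Tor d M → ℝ,
      (∃ h : Tor d M → ℝ, c * kf ζ (0 : Tor d M) * (∑ x, (f x - h x) ^ 2 +
          (∑ x, ∑ i, (h (x + Pi.single i 1) - h x) ^ 2) / ζ.im ^ 2) ≤
        qf (Dl (KK (rs (0 : Tor d M → ℝ) ζ))) f) ∧
      ∀ h : Tor d M → ℝ, qf (Dl (KK (rs (0 : Tor d M → ℝ) ζ))) f ≤
        2 * C * kf ζ (0 : Tor d M) * (∑ x, (f x - h x) ^ 2 +
          (∑ x, ∑ i, (h (x + Pi.single i 1) - h x) ^ 2) / ζ.im ^ 2)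

/-- WHT: `N₀` is a small white part plus a part with a small diagonal. Proof: `w = ζ.im`, `t = s^{ε-1}`,
`κ kf 0 = Im m`, `τ = κ / Im m ≥ T`, so `T kf p ≤ τ kf p`, `n0 p ≤ kf p / (1 - τ kf p)` if `kf p ≥ 0`, `p ≠ 0` (if `kf p < 0`:
`n0 p < 0 < t`), `n0 0 = Im m / η`. (a) if `|sin (π p_i / M)| ≥ w^{1-4ε}` for some `i`: `kf p ≤
C (1 + log (1/w)) w^{2ε-1} ≤ w^{ε-1}/C' ` (`KhbStmt`) and `1 - τ kf p ≥ 1/2`, so `n0 p ≤ t` (`t ≥ T^{ε-1} ≥ c w^{ε-1}`). (b) if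
not: `ds p ≤ 4 d w^{2-8ε}` and `SymStmt`: `1 - τ kf p ≥ c ds p/(w² + ds p)`, `n0 p ≤ A + B`, `A = C/w`, `B = C w/ds p`, and
`n0 1[n0 > t] ≤ 2 A 1[2 A > t] + 2 B 1[2 B > t]`. The number of the `p` with `ds p ≤ ρ²` is at most `C (M ρ)^d + C`
(`LowStmt` with `J = ⌈M ρ/4⌉`: `16 |p|²/M² ≤ ds p`), and `pm (B 1[0 < ds p ≤ ρ²]) ≤ C w M^{-d} M² J^{d-2} ≤
C w (ρ + 1/M)^{d-2} ≤ C w (ρ + 1/M)` (`LowStmt`). First part: `2 A > t` means `s ≥ c w^{1+2ε}`, the number of the `p` is at most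
`C (M w^{1-4ε})^d` (`M w ≥ 1`): `C w^{d-1-4dε} ≤ C w^{2-12ε} ≤ C w^{3/2} s^{1/2-13ε}`. Second part: `ρ² = 2 C w s^{1-ε}`:
`C w (w s^{1-ε})^{1/2} ≤ C w^{3/2} s^{1/2-13ε}`; if `M ρ < 1`: there is no `p ≠ 0` with `ds p ≤ ρ²`, up to a constant
(`ds p ≥ 16/M²`): then take `J = 1` only if `ρ ≥ 4/M`. -/
def WhtStmt : Prop :=
  ∀ (d : ℕ) (b ε cs Cs Ck : ℝ), 3 ≤ d → 0 < b → 0 < ε → ε ≤ 1 / 50 → 0 < cs → 1 ≤ Cs → 1 ≤ Ck →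
    ∃ c C : ℝ, 0 < c ∧ c ≤ 1 / 2 ∧ 1 ≤ C ∧ ∀ (M : ℕ) [NeZero M] (E η T s : ℝ) (m ζ : ℂ),
      ζ = ⟨E, η⟩ + (T : ℂ) * m → 0 < η → η ≤ T → T ≤ c → 0 < s → s ≤ T → b ≤ m.im → m.im ≤ 1 / b →
      C / T ^ 2 ≤ M → rs (0 : Tor d M → ℝ) ζ 0 0 = m →
      (∀ p : Tor d M,
        cs * (ds p / (ζ.im ^ 2 + ds p)) * kf ζ (0 : Tor d M) ≤ kf ζ (0 : Tor d M) - kf ζ p) →
      (∀ (p : Tor d M) (i : Fin d), |kf ζ p| ≤ Ck * (1 + Real.log (1 / ζ.im)) / ζ.im *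
        Real.sqrt (ζ.im / (ζ.im + |Real.sin (Real.pi * ((p i).valMinAbs : ℝ) / M)|))) →
        pm (n1 ζ T (s ^ (ε - 1)) : Tor d M → ℝ) ≤
          C * T ^ (3 / 2 : ℝ) * s ^ (1 / 2 - 13 * ε) + C / (η * (M : ℝ) ^ d)

/-- WHM: the same for matrices. Proof: `FmuStmt` (1), (8), (7): `n0 ≤ t + n1`, `n1 ≥ 0` for `t ≥ 0`; `n0 (-p) = n0 p`
(`KftStmt`). `1 - T kf p > 0`: `T kf p ≤ T kf 0 = T Im m / κ < 1` (`|kf p| ≤ kf 0`), so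
`(1 - T K₀) N₀ = K₀` on the symbols. -/
def WhmStmt : Prop :=
  ∀ (d M : ℕ) [NeZero M] (E η T t : ℝ) (m ζ : ℂ), ζ = ⟨E, η⟩ + (T : ℂ) * m → 0 < η → 0 < T →
    0 ≤ t → 0 < m.im → rs (0 : Tor d M → ℝ) ζ 0 0 = m →
      (1 - T • KK (rs (0 : Tor d M → ℝ) ζ)) * mlt (n0 ζ T) = KK (rs (0 : Tor d M → ℝ) ζ) ∧
      (∀ f : Tor d M → ℝ, 0 ≤ qf (mlt (n1 ζ T t)) f ∧
        qf (mlt (n0 ζ T)) f ≤ t * ∑ x, f x ^ 2 + qf (mlt (n1 ζ T t)) f) ∧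
      ∀ x y : Tor d M, mlt (n1 ζ T t) x y = mlt (n1 ζ T t) y x ∧
        mlt (n1 ζ T t) x x = pm (n1 ζ T t : Tor d M → ℝ)

/-- the initial state: constant gauge `m`, bounds for the entries, decay, `Λ`, the condition for `Θ`, the
form of the network against the lattice, `N₀` -/
structure Start (d M : ℕ) [NeZero M] (E η T ε : ℝ) (m ζ : ℂ) (c C : ℝ) : Prop where
  hz : ζ = ⟨E, η⟩ + (T : ℂ) * m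
  hm : ∀ x : Tor d M, rs (0 : Tor d M → ℝ) ζ x x = m
  hc : c ≤ m.im ∧ ‖m‖ ≤ C
  hG : ∀ x y : Tor d M, ‖rs (0 : Tor d M → ℝ) ζ x y‖ ≤ C
  hp : ∀ (x y : Tor d M) (i : Fin d), ‖rs (0 : Tor d M → ℝ) ζ x y‖ ≤
    C * (1 + (((x - y) i).valMinAbs.natAbs : ℝ)) ^ (-(1 / 6 : ℝ))
  hk : ∀ x : Tor d M, ∑ y, ‖rs (0 : Tor d M → ℝ) ζ x y‖ ^ 2 = m.im / (η + T * m.im)
  hL : ∀ x : Tor d M, ∑ y, ‖rs (0 : Tor d M → ℝ) ζ x y‖ ^ 4 ≤ T ^ (-(2 / 3 + ε))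
  hT : ∀ x : Tor d M, T * ∑ y, (rs (0 : Tor d M → ℝ) ζ x y).re ^ 2 ≤ 1 / 2 + T ^ (1 / 2 - ε)
  hF : ∀ f : Tor d M → ℝ,
    (∃ h : Tor d M → ℝ, c * (∑ x, (f x - h x) ^ 2 +
        (∑ x, ∑ i, (h (x + Pi.single i 1) - h x) ^ 2) / T ^ 2) ≤
      qf (T • Dl (KK (rs (0 : Tor d M → ℝ) ζ))) f) ∧
    ∀ h : Tor d M → ℝ, qf (T • Dl (KK (rs (0 : Tor d M → ℝ) ζ))) f ≤
      C * (∑ x, (f x - h x) ^ 2 + (∑ x, ∑ i, (h (x + Pi.single i 1) - h x) ^ 2) / T ^ 2)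
  hN : ∀ s : ℝ, 0 < s → s ≤ T → ∃ S : Matrix (Tor d M) (Tor d M) ℝ,
    (∀ x y, S x y = S y x) ∧ (∀ f, 0 ≤ qf S f) ∧
    (∀ x, S x x ≤ C * T ^ (3 / 2 : ℝ) * s ^ (1 / 2 - ε) + C / (η * (M : ℝ) ^ d)) ∧
    ∀ f : Tor d M → ℝ, qf (mlt (n0 ζ T)) f ≤ s ^ (ε / 13 - 1) * ∑ x, f x ^ 2 + qf S f

/-- STA: the initial state. Proof: `MbrStmt` (`m`), `RalStmt` (7) (`rs 0` is translation invariant), `FrbStmt` (1)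
(`|m| ≤ C`), `PrdStmt`, `RalStmt` (5), `LamStmt`, `SymStmt`, `SyfStmt`, `WhtStmt`, `WhmStmt` with `ε/13`. `c T ≤ κ ≤ C T`
(`η ≤ T`), so the logarithms are bounded by small powers of `T`. `hT`: `(Re g)² = (|g|² + Re g²)/2`, `T ∑ |G₀|² ≤ 1`,
`∑ G₀² = bh ζ 0` (`KftStmt` (2) at `p = 0`), `KhbStmt` at `p = 0` (the cosine is `1`): `T |bh ζ 0| ≤
C T (1 + log (1/κ)) κ^{-1/2}`. -/
def StaStmt : Prop :=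
  ∀ (d : ℕ) (a ε : ℝ), 3 ≤ d → 0 < a → 0 < ε → ε ≤ 1 / 10 → ∃ c C : ℝ, 0 < c ∧ c ≤ 1 / 2 ∧ 1 ≤ C ∧
    ∀ (M : ℕ) [NeZero M] (E η T : ℝ), |E| ≤ 2 * d - a → 0 < η → η ≤ T → T ≤ c → C / T ^ 2 ≤ M →
      ∃ m ζ : ℂ, Start d M E η T ε m ζ c C

end Pool.Agent.ANI
end
end -- Pool.Agent.ANI.Stmts

section -- Pool.Agent.ANI.Stmts2

/-!
# Anderson (2b), block I0: the initial state, part 2: the sharp lower bound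

`LBS`: the lower bound of the first network with the SHARP coefficient `κ Im m (1 - T^ε)` at the sites and
`c T^{8 ε - 1}` at the bonds (helper96's repair). `BHS`: `T |∑ G₀²| ≤ T^{1/2 - ε}`.
-/

set_option autoImplicit false

open MeasureTheory ProbabilityTheory Function Filter

open scoped ENNReal BigOperators Topology NNReal ComplexOrder Matrix

noncomputable section

namespace Pool.Agent.ANI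

open Pool.Agent.Anderson hiding box mem_box card_box
open Pool.Agent.Loc Pool.Agent.Mob Pool.Agent.Helper54.Bal
  Pool.Agent.Helper96.EXP Pool.Agent.BED
open Pool.Agent.LE Pool.Agent.LE.MN Pool.Agent.LE.CL Pool.Agent.LE.IR Pool.Agent.LE.QD
  Pool.Agent.LE.QF

/-- SLB: the sharp lower bound. `κ = ζ.im = η + T Im m`, `g = Im m`; the form `κ² qf (Dl K₀)` has the symbol
`κ g (1 - kf p / kf 0)` (`κ kf 0 = g`). Proof on the symbols. `al = κ g (1 - T^ε)`, `be = c T^{8 ε - 1}`,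
`h` = the multiplier `al / (al + be ds)` applied to `f`: then `al |f - h|² + be ds |h|²` has the symbol
`al be ds / (al + be ds) ≤ min (al, be ds)`. If `|sin (π p_i / M)| ≥ κ^{1 - 4 ε}` for some `i`: `|kf p| ≤
Ck (1 + log (1/κ)) κ^{2 ε - 1} ≤ T^ε kf 0`, so the symbol is at least `al`. If not: `ds p ≤ 4 d κ^{2 - 8 ε}`, and
the hypothesis gives `κ g cs ds / (κ² + ds) ≥ κ g cs ds / ((4 d + 1) κ^{2 - 8 ε}) ≥ be ds`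
(`κ ≤ T (1 + 1/b)`, `κ ≥ b T`). -/
def SlbStmt : Prop :=
  ∀ (d : ℕ) (b ε cs Ck : ℝ), 3 ≤ d → 0 < b → 0 < ε → ε ≤ 1 / 50 → 0 < cs → 1 ≤ Ck →
    ∃ c : ℝ, 0 < c ∧ c ≤ 1 / 2 ∧ ∀ (M : ℕ) [NeZero M] (E η T : ℝ) (m ζ : ℂ),
      ζ = ⟨E, η⟩ + (T : ℂ) * m → 0 < η → η ≤ T → T ≤ c → b ≤ m.im → m.im ≤ 1 / b →
      rs (0 : Tor d M → ℝ) ζ 0 0 = m →
      (∀ p : Tor d M,
        cs * (ds p / (ζ.im ^ 2 + ds p)) * kf ζ (0 : Tor d M) ≤ kf ζ (0 : Tor d M) - kf ζ p) →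
      (∀ (p : Tor d M) (i : Fin d), |kf ζ p| ≤ Ck * (1 + Real.log (1 / ζ.im)) / ζ.im *
        Real.sqrt (ζ.im / (ζ.im + |Real.sin (Real.pi * ((p i).valMinAbs : ℝ) / M)|))) →
      ∀ f : Tor d M → ℝ, ∃ h : Tor d M → ℝ,
        (1 - T ^ ε) * ((η + T * m.im) * m.im) * ∑ x, (f x - h x) ^ 2 +
            c * T ^ (8 * ε - 1) * ∑ x, ∑ i, (h (x + Pi.single i 1) - h x) ^ 2 ≤
          (η + T * m.im) ^ 2 * qf (Dl (KK (rs (0 : Tor d M → ℝ) ζ))) f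

/-- the initial state, with the sharp lower bound -/
structure Start2 (d M : ℕ) [NeZero M] (E η T ε : ℝ) (m ζ : ℂ) (c C : ℝ) : Prop extends
    Start d M E η T ε m ζ c C where
  hB : ∀ x : Tor d M, T * ‖∑ y, rs (0 : Tor d M → ℝ) ζ x y ^ 2‖ ≤ T ^ (1 / 2 - ε)
  hS : ∀ f : Tor d M → ℝ, ∃ h : Tor d M → ℝ,
    (1 - T ^ ε) * ((η + T * m.im) * m.im) * ∑ x, (f x - h x) ^ 2 +
        c * T ^ (8 * ε - 1) * ∑ x, ∑ i, (h (x + Pi.single i 1) - h x) ^ 2 ≤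
      (η + T * m.im) ^ 2 * qf (Dl (KK (rs (0 : Tor d M → ℝ) ζ))) f

/-- STB: the initial state, final form. Proof: as `StaStmt` (`Helper15_ANI/STA.lean`), with `SlbStmt`; `hB` is
the bound used in the proof of `hT`. -/
def StbStmt : Prop :=
  ∀ (d : ℕ) (a ε : ℝ), 3 ≤ d → 0 < a → 0 < ε → ε ≤ 1 / 50 → ∃ c C : ℝ, 0 < c ∧ c ≤ 1 / 2 ∧ 1 ≤ C ∧
    ∀ (M : ℕ) [NeZero M] (E η T : ℝ), |E| ≤ 2 * d - a → 0 < η → η ≤ T → T ≤ c → C / T ^ 2 ≤ M →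
      ∃ m ζ : ℂ, Start2 d M E η T ε m ζ c C

end Pool.Agent.ANI
end
end -- Pool.Agent.ANI.Stmts2
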