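import Pool.Agent.Helper12_MEB.B003
import Pool.Agent.Helper12_MEB.B087

/-!
# Merged copies (generated) of the modules

* `Pool.Agent.Helper68_LQF.MBR`
* `Pool.Agent.Helper68_LQF.INIc`
* `Pool.Agent.Helper68_LQF.INId`
* `Pool.Agent.Helper68_LQX.INIb`
* `Pool.Agent.Helper68_LQX.INIc`
* `Pool.Agent.Helper68_LQX.INI`
* `Pool.Agent.Helper69_LQZ.IMM`
* `Pool.Agent.Helper84_LQZ.INIb`
* `Pool.Agent.Helper84_LQZ.INIc`
* `Pool.Agent.Helper84_LQZ.INI`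
-/

set_option autoImplicit false

section -- Pool.Agent.Helper68_LQF.MBR

/-!
# The self-energy: Banach's fixed point theorem
-/

set_option autoImplicit false

open MeasureTheory ProbabilityTheory Function Filter

open scoped ENNReal BigOperators Topology NNReal ComplexOrder Matrix

noncomputable section

namespace Pool.Agent.LE.QF.H68

open Pool.Agent.Anderson hiding box mem_box card_box
open Pool.Agent.Loc Pool.Agent.Mob Pool.Agent.Helper54.Bal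
  Pool.Agent.Helper96.EXP Pool.Agent.BED
open Pool.Agent.LE.MN Pool.Agent.LE.CL Pool.Agent.LE.IR Pool.Agent.LE.QD

theorem norm_sub_z (x : ℝ) (ζ : ℂ) : ‖(x : ℂ) - ζ‖ = Real.sqrt ((x - ζ.re) ^ 2 + ζ.im ^ 2) := by
  rw [← Complex.normSq_add_mul_I (x - ζ.re) (ζ.im), ← Complex.sq_norm,
    Real.sqrt_sq (norm_nonneg _)]
  have h : ((x - ζ.re : ℝ) : ℂ) + (ζ.im : ℂ) * Complex.I = (starRingEnd ℂ) ((x : ℂ) - ζ) := by
    apply Complex.ext <;> simp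
  rw [h, RCLike.norm_conj]

theorem im_inv_sub (x : ℝ) (ζ : ℂ) :
    (((x : ℂ) - ζ)⁻¹).im = ζ.im / ((x - ζ.re) ^ 2 + ζ.im ^ 2) := by
  rw [Complex.inv_im, Complex.normSq_apply]
  simp only [Complex.sub_im, Complex.ofReal_im, Complex.sub_re, Complex.ofReal_re]
  congr 1
  · ring
  · ring

variable {d M : ℕ} [NeZero M]

/-- `ds` is even -/
theorem ds_neg (p : Tor d M) : ds (-p) = ds p := by
  unfold ds
  refine Finset.sum_congr rfl fun i _ => ?_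
  have h : Real.cos (2 * Real.pi * (((-p) i).valMinAbs : ℝ) / M) =
      Real.cos (2 * Real.pi * ((p i).valMinAbs : ℝ) / M) := by
    by_cases h0 : 2 * (p i).val = M
    · have : (-p) i = p i := by
        have e : ((p i).val + (p i).val : ℕ) = M := by omega
        have e2 : p i + p i = 0 := by
          have := congrArg (fun n : ℕ => (n : ZMod M)) e
          simpa using this
        rw [Pi.neg_apply]
        exact neg_eq_of_add_eq_zero_left e2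
      rw [this]
    · rw [Pi.neg_apply, ZMod.valMinAbs_neg_of_ne_half h0]
      push_cast
      rw [mul_neg, neg_div, Real.cos_neg]
  rw [h]

theorem es_neg (p : Tor d M) : es (-p) = es p := by
  unfold es
  rw [ds_neg]

/-- the mean of `1 / (es - ζ)` -/
def Fz (d M : ℕ) [NeZero M] (ζ : ℂ) : ℂ := (∑ p : Tor d M, ((es p : ℂ) - ζ)⁻¹) / (M : ℂ) ^ d

theorem Md_pos : (0 : ℝ) < (M : ℝ) ^ d := by
  have : 0 < M := Nat.pos_of_ne_zero (NeZero.ne M)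
  positivity

theorem rs_diag (ral : RalStmt) (ζ : ℂ) (hζ : 0 < ζ.im) (x : Tor d M) :
    rs (0 : Tor d M → ℝ) ζ x x = Fz d M ζ := by
  obtain ⟨-, -, -, -, -, -, -, -, -, -, r11, -⟩ := ral d M (0 : Tor d M → ℝ) ζ hζ
  rw [r11 x x]
  unfold Fz
  congr 1
  refine Finset.sum_congr rfl fun p _ => ?_
  have : ec p (x - x : Tor d M) = 1 := by
    unfold ec
    simp
  rw [this, one_div]

omit [NeZero M] in
theorem es_sub_ne (p : Tor d M) {ζ : ℂ} (hζ : 0 < ζ.im) : (es p : ℂ) - ζ ≠ 0 := by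
  intro h
  have := congrArg Complex.im h
  simp at this
  exact hζ.ne' this

theorem Fz_deriv {ζ : ℂ} (hζ : 0 < ζ.im) : HasDerivAt (Fz d M) (bh ζ (0 : Tor d M)) ζ := by
  have h1 : ∀ p : Tor d M, HasDerivAt (fun z : ℂ => ((es p : ℂ) - z)⁻¹)
      (((es p : ℂ) - ζ)⁻¹ * ((es ((0 : Tor d M) - p) : ℂ) - ζ)⁻¹) ζ := by
    intro p
    have h2 : HasDerivAt (fun z : ℂ => (es p : ℂ) - z) (-1) ζ := by
      simpa using (hasDerivAt_id ζ).const_sub (es p : ℂ)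
    have h3 := h2.inv (es_sub_ne p hζ)
    have h4 : ((es p : ℂ) - ζ)⁻¹ * ((es ((0 : Tor d M) - p) : ℂ) - ζ)⁻¹ =
        -(-1) / ((es p : ℂ) - ζ) ^ 2 := by
      rw [zero_sub, es_neg]
      have := es_sub_ne p hζ
      field_simp
    rw [h4]
    exact h3
  unfold Fz bh
  exact (HasDerivAt.fun_sum fun p _ => h1 p).div_const _

theorem Fz_im (ζ : ℂ) : (Fz d M ζ).im =
    pm (fun p : Tor d M => ζ.im / ((es p - ζ.re) ^ 2 + ζ.im ^ 2)) := by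
  have hcast : ((M : ℂ)) ^ d = (((M : ℝ) ^ d : ℝ) : ℂ) := by push_cast; rfl
  unfold Fz
  rw [hcast, Complex.div_ofReal_im, Complex.im_sum]
  unfold pm
  congr 1
  exact Finset.sum_congr rfl fun p _ => im_inv_sub _ _

theorem Fz_norm (ζ : ℂ) : ‖Fz d M ζ‖ ≤
    pm (fun p : Tor d M => (Real.sqrt ((es p - ζ.re) ^ 2 + ζ.im ^ 2))⁻¹) := by
  have hcast : ((M : ℂ)) ^ d = (((M : ℝ) ^ d : ℝ) : ℂ) := by push_cast; rfl
  have hMd : (0 : ℝ) < (M : ℝ) ^ d := Md_pos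
  unfold Fz pm
  rw [hcast, norm_div, Complex.norm_real, Real.norm_of_nonneg hMd.le]
  refine div_le_div_of_nonneg_right ((norm_sum_le _ _).trans (le_of_eq ?_)) hMd.le
  exact Finset.sum_congr rfl fun p _ => by rw [norm_inv, norm_sub_z]

/-- the lower bound -/
theorem Fz_low {cL : ℝ} {ζ : ℂ} (hζ : 0 < ζ.im) (i : Fin d)
    (h : cL * ζ.im ≤ pm (fun p : Tor d M => if |es p - ζ.re| ≤ ζ.im then
      Real.sin (2 * Real.pi * ((p i).valMinAbs : ℝ) / M - 0) ^ 2 else 0)) :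
    cL / 2 ≤ (Fz d M ζ).im := by
  have hMd : (0 : ℝ) < (M : ℝ) ^ d := Md_pos
  rw [Fz_im]
  have e1 : pm (fun p : Tor d M => if |es p - ζ.re| ≤ ζ.im then
      Real.sin (2 * Real.pi * ((p i).valMinAbs : ℝ) / M - 0) ^ 2 else 0) ≤
      2 * ζ.im * pm (fun p : Tor d M => ζ.im / ((es p - ζ.re) ^ 2 + ζ.im ^ 2)) := by
    unfold pm
    rw [← mul_div_assoc, Finset.mul_sum]
    refine div_le_div_of_nonneg_right (Finset.sum_le_sum fun p _ => ?_) hMd.le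
    have e2 : 0 < (es p - ζ.re) ^ 2 + ζ.im ^ 2 := by positivity
    split_ifs with h
    · have e3 : (es p - ζ.re) ^ 2 ≤ ζ.im ^ 2 := by
        rw [← sq_abs (es p - ζ.re)]
        gcongr
      calc Real.sin (2 * Real.pi * ((p i).valMinAbs : ℝ) / M - 0) ^ 2 ≤ 1 :=
            Real.sin_sq_le_one _
        _ ≤ 2 * ζ.im * (ζ.im / ((es p - ζ.re) ^ 2 + ζ.im ^ 2)) := by
            rw [← mul_div_assoc, le_div_iff₀ e2]
            nlinarith only [e3]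
    · positivity
  have e2 := h.trans e1
  have e3 : cL * ζ.im = 2 * ζ.im * (cL / 2) := by ring
  rw [e3] at e2
  exact le_of_mul_le_mul_left e2 (by positivity)

/-- `1 + log (1 / u⁴) ≤ 4 / u` -/
theorem log_le_u {u : ℝ} (hu : 0 < u) : 1 + Real.log (1 / u ^ 4) ≤ 4 / u := by
  have h1 : Real.log (1 / u ^ 4) = 4 * Real.log (1 / u) := by
    rw [one_div, one_div, Real.log_inv, Real.log_inv, Real.log_pow]
    push_cast
    ring
  have h2 : Real.log (1 / u) ≤ 1 / u - 1 := Real.log_le_sub_one_of_pos (by positivity)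
  rw [h1]
  have h3 : 4 / u = 4 * (1 / u) := by ring
  rw [h3]
  linarith only [h2]

/-- the set of the fixed point -/
def Ks (c₀ C₁ R : ℝ) : Set ℂ := {m | (c₀ ≤ m.im ∧ m.im ≤ C₁) ∧ ‖m‖ ≤ R}

theorem Ks_convex (c₀ C₁ R : ℝ) : Convex ℝ (Ks c₀ C₁ R) := by
  have h1 : Convex ℝ {m : ℂ | c₀ ≤ m.im} := convex_halfSpace_im_ge c₀
  have h2 : Convex ℝ {m : ℂ | m.im ≤ C₁} := convex_halfSpace_im_le C₁
  have h3 : Convex ℝ {m : ℂ | ‖m‖ ≤ R} := by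
    have := convex_closedBall (0 : ℂ) R
    have e : {m : ℂ | ‖m‖ ≤ R} = Metric.closedBall (0 : ℂ) R := by
      ext m
      simp
    rw [e]
    exact this
  have e : Ks c₀ C₁ R = ({m : ℂ | c₀ ≤ m.im} ∩ {m : ℂ | m.im ≤ C₁}) ∩ {m : ℂ | ‖m‖ ≤ R} := by
    ext m
    simp [Ks]
  rw [e]
  exact (h1.inter h2).inter h3

theorem Ks_closed (c₀ C₁ R : ℝ) : IsClosed (Ks c₀ C₁ R) := by
  have h1 : IsClosed {m : ℂ | c₀ ≤ m.im} := isClosed_le continuous_const Complex.continuous_im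
  have h2 : IsClosed {m : ℂ | m.im ≤ C₁} := isClosed_le Complex.continuous_im continuous_const
  have h3 : IsClosed {m : ℂ | ‖m‖ ≤ R} := isClosed_le continuous_norm continuous_const
  have e : Ks c₀ C₁ R = ({m : ℂ | c₀ ≤ m.im} ∩ {m : ℂ | m.im ≤ C₁}) ∩ {m : ℂ | ‖m‖ ≤ R} := by
    ext m
    simp [Ks]
  rw [e]
  exact (h1.inter h2).inter h3

/-- Banach's fixed point theorem on a convex closed set of complex numbers -/
theorem fix_of_deriv {K : Set ℂ} (hK : IsClosed K) (hc : Convex ℝ K) (hn : K.Nonempty)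
    (f f' : ℂ → ℂ) (hm : ∀ z ∈ K, f z ∈ K) (hd : ∀ z ∈ K, HasDerivAt f (f' z) z)
    (hb : ∀ z ∈ K, ‖f' z‖ ≤ 1 / 2) : ∃ m ∈ K, f m = m := by
  obtain ⟨x, hx⟩ := hn
  have hmt : Set.MapsTo f K K := hm
  have hcw : ContractingWith (1 / 2 : ℝ≥0) (hmt.restrict f K K) := by
    refine ⟨?_, LipschitzWith.of_dist_le_mul fun a b => ?_⟩
    · rw [← NNReal.coe_lt_coe]
      norm_num
    · rw [Subtype.dist_eq, Subtype.dist_eq, Set.MapsTo.val_restrict_apply,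
        Set.MapsTo.val_restrict_apply, dist_eq_norm, dist_eq_norm]
      have := hc.norm_image_sub_le_of_norm_hasDerivWithin_le (f := f) (f' := f')
        (fun z hz => (hd z hz).hasDerivWithinAt) hb b.2 a.2
      simpa using this
  obtain ⟨y, hy, hfy, -⟩ := ContractingWith.exists_fixedPoint' hK.isComplete hmt hcw hx
    (edist_ne_top _ _)
  exact ⟨y, hy, hfy⟩

theorem Ks_ne {c₀ C₁ R : ℝ} (h : 0 ≤ c₀) (h1 : c₀ ≤ C₁) (h2 : c₀ ≤ R) :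
    (Ks c₀ C₁ R).Nonempty := by
  refine ⟨⟨0, c₀⟩, ⟨le_refl _, h1⟩, ?_⟩
  have e1 : ‖(⟨0, c₀⟩ : ℂ)‖ = c₀ := by
    have : (⟨0, c₀⟩ : ℂ) = (c₀ : ℂ) * Complex.I := by
      apply Complex.ext <;> simp
    rw [this, norm_mul, Complex.norm_I, mul_one, Complex.norm_real,
      Real.norm_of_nonneg h]
  rw [e1]
  exact h2

theorem last_le {C x y : ℝ} (hC : 0 ≤ C) (hx : 0 ≤ x) (hy : 0 ≤ y) :
    C * (1 + x + y) ≤ C * (1 + x) * (1 + y) := by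
  have : 0 ≤ C * (x * y) := by positivity
  nlinarith only [this]

theorem TR_le {T c₀ C₁ l u a : ℝ} (hc₀0 : 0 < c₀) (hC₁0 : 0 < C₁) (hu0 : 0 < u) (hu1 : u ≤ 1)
    (hu4 : u ^ 4 = c₀ * T) (hlu : l ≤ 4 / u) (hu : u ≤ a * c₀ / (8 * C₁)) :
    T * (C₁ * l) ≤ a / 2 := by
  have e1 : T * (C₁ * l) = u ^ 4 / c₀ * (C₁ * l) := by
    rw [hu4]
    field_simp
  have e2 : u ^ 4 / c₀ * (C₁ * l) ≤ u ^ 4 / c₀ * (C₁ * (4 / u)) := by gcongr
  have e3 : u ^ 4 / c₀ * (C₁ * (4 / u)) = 4 * C₁ / c₀ * u ^ 3 := by field_simp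
  have e4 : u ^ 3 ≤ u := by
    calc u ^ 3 = u * (u * u) := by ring
      _ ≤ u * (1 * 1) := by gcongr
      _ = u := by ring
  have e5 : 4 * C₁ / c₀ * u ^ 3 ≤ 4 * C₁ / c₀ * (a * c₀ / (8 * C₁)) := by
    have : u ^ 3 ≤ a * c₀ / (8 * C₁) := e4.trans hu
    gcongr
  have e6 : 4 * C₁ / c₀ * (a * c₀ / (8 * C₁)) = a / 2 := by
    field_simp
    ring
  linarith only [e1, e2, e3, e5, e6]

theorem bd_le {T CK c₀ l u w b : ℝ} (hc₀0 : 0 < c₀) (hCK0 : 0 < CK) (hT : 0 ≤ T) (hw : 0 < w)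
    (hl : 0 ≤ l) (hu0 : 0 < u) (hu4 : u ^ 4 = c₀ * T) (hlu : l ≤ 4 / u)
    (hu : u ≤ c₀ / (8 * CK)) (huw : c₀ * T ≤ w)
    (hb : b ≤ CK * l / w * Real.sqrt (w / (w + 1))) : b * T ≤ 1 / 2 := by
  have hw1 : u ^ 2 ≤ Real.sqrt w := by
    apply Real.le_sqrt_of_sq_le
    calc (u ^ 2) ^ 2 = u ^ 4 := by ring
      _ ≤ w := by rw [hu4]; exact huw
  have e1 : Real.sqrt (w / (w + 1)) ≤ Real.sqrt w := by
    apply Real.sqrt_le_sqrt
    apply div_le_self hw.le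
    linarith only [hw]
  have e2 : b ≤ CK * l / w * Real.sqrt w := by
    refine hb.trans ?_
    gcongr
  have e3 : CK * l / w * Real.sqrt w = CK * l / Real.sqrt w := by
    have hs := Real.mul_self_sqrt hw.le
    have hs0 : 0 < Real.sqrt w := Real.sqrt_pos.2 hw
    rw [div_mul_eq_mul_div, div_eq_div_iff hw.ne' hs0.ne']
    rw [mul_assoc (CK * l), hs]
  have e4 : CK * l / Real.sqrt w ≤ CK * (4 / u) / u ^ 2 := by gcongr
  have e5 : T = u ^ 4 / c₀ := by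
    rw [hu4]
    field_simp
  calc b * T ≤ CK * (4 / u) / u ^ 2 * T := by
        have : b ≤ CK * (4 / u) / u ^ 2 := by
          rw [e3] at e2
          exact e2.trans e4
        gcongr
    _ = 4 * CK / c₀ * u := by
        rw [e5]
        field_simp
    _ ≤ 4 * CK / c₀ * (c₀ / (8 * CK)) := by gcongr
    _ = 1 / 2 := by
        field_simp
        norm_num

/-- the points of the set -/
theorem pts {c₀ C₁ R T E η cL a D : ℝ} (hT : 0 < T) (hη : 0 < η) (hηT : η ≤ T)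
    (h2 : T ≤ 1 / (2 * (1 + C₁))) (h3 : T ≤ cL / (1 + C₁)) (hC₁0 : 0 < C₁)
    (hTR : T * R ≤ a / 2) (hE : |E| ≤ D - a) {m ζ : ℂ} (hm : m ∈ Ks c₀ C₁ R)
    (hζ : ζ = ⟨E, η⟩ + (T : ℂ) * m) :
    c₀ * T ≤ ζ.im ∧ ζ.im ≤ 1 / 2 ∧ ζ.im ≤ cL ∧ |ζ.re| ≤ D - a / 2 := by
  obtain ⟨⟨hm1, hm2⟩, hm3⟩ := hm
  have hre : ζ.re = E + T * m.re := by
    rw [hζ]
    simp
  have him : ζ.im = η + T * m.im := by
    rw [hζ]
    simp
  have e0 : T * m.im ≤ T * C₁ := by gcongr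
  have e1 : ζ.im ≤ T * (1 + C₁) := by
    rw [him, mul_add, mul_one]
    exact add_le_add hηT e0
  have e2 : T * (1 + C₁) ≤ 1 / 2 := by
    calc T * (1 + C₁) ≤ 1 / (2 * (1 + C₁)) * (1 + C₁) := by gcongr
      _ = 1 / 2 := by field_simp
  have e3 : T * (1 + C₁) ≤ cL := by
    calc T * (1 + C₁) ≤ cL / (1 + C₁) * (1 + C₁) := by gcongr
      _ = cL := by field_simp
  refine ⟨?_, e1.trans e2, e1.trans e3, ?_⟩
  · rw [him]
    have e4 : c₀ * T ≤ T * m.im := by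
      rw [mul_comm]
      gcongr
    linarith only [hη, e4]
  · rw [hre]
    have e4 : |m.re| ≤ R := (Complex.abs_re_le_norm m).trans hm3
    have e5 : |T * m.re| ≤ T * R := by
      rw [abs_mul, abs_of_pos hT]
      gcongr
    have e6 := abs_add_le E (T * m.re)
    linarith only [hTR, hE, e5, e6]

theorem mbr (dsl : DslStmt) (dsu : DsuStmt) (khb : KhbStmt) (ral : RalStmt) : MbrStmt := by
  intro d a hd ha
  obtain ⟨C₁, hC₁, h1⟩ := dsu d hd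
  obtain ⟨cL, CL, hcL, hcL1, hCL, h2⟩ := dsl d (a / 2) hd (by positivity)
  obtain ⟨CK, hCK, h3⟩ := khb d hd
  have hC₁0 : 0 < C₁ := by linarith only [hC₁]
  have hCL0 : 0 < CL := by linarith
  have hCK0 : 0 < CK := by linarith
  set c₀ : ℝ := cL / 2 with hc₀
  have hc₀0 : 0 < c₀ := by positivity
  have hc₀1 : c₀ ≤ 1 := by linarith only [hcL1, hc₀]
  -- the bound for `u = (c₀ T)^{1/4}`
  set u₀ : ℝ := min 1 (min (a * c₀ / (8 * C₁)) (c₀ / (8 * CK))) with hu₀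
  have hu₀0 : 0 < u₀ := by positivity
  have hu₀1 : u₀ ≤ 1 := min_le_left _ _
  have hu₀2 : u₀ ≤ a * c₀ / (8 * C₁) := (min_le_right _ _).trans (min_le_left _ _)
  have hu₀3 : u₀ ≤ c₀ / (8 * CK) := (min_le_right _ _).trans (min_le_right _ _)
  set T₀ : ℝ := min (u₀ ^ 4) (min (1 / (2 * (1 + C₁))) (cL / (1 + C₁))) with hT₀
  have hT₀0 : 0 < T₀ := by positivity
  have hT₀1 : T₀ ≤ u₀ ^ 4 := min_le_left _ _
  have hT₀2 : T₀ ≤ 1 / (2 * (1 + C₁)) := (min_le_right _ _).trans (min_le_left _ _)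
  have hT₀3 : T₀ ≤ cL / (1 + C₁) := (min_le_right _ _).trans (min_le_right _ _)
  set CC : ℝ := max (C₁ * (1 + Real.log (1 / c₀)))
    (max (C₁ / c₀) (max (CL / c₀) (CK / c₀ ^ 2))) with hCC
  have hlc : 0 ≤ Real.log (1 / c₀) := Real.log_nonneg (by rw [le_div_iff₀ hc₀0]; linarith only [hcL1, hc₀])
  have hCC1 : C₁ ≤ CC := by
    refine le_trans ?_ (le_max_left _ _)
    nlinarith only [hC₁, hlc]
  have hCC2 : C₁ * (1 + Real.log (1 / c₀)) ≤ CC := le_max_left _ _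
  have hCC3 : C₁ / c₀ ≤ CC := (le_max_left _ _).trans (le_max_right _ _)
  have hCC4 : CL / c₀ ≤ CC :=
    (le_max_left _ _).trans ((le_max_right _ _).trans (le_max_right _ _))
  have hCC5 : CK / c₀ ^ 2 ≤ CC :=
    (le_max_right _ _).trans ((le_max_right _ _).trans (le_max_right _ _))
  refine ⟨min c₀ T₀, CC, by positivity, (min_le_left _ _).trans hc₀1, hC₁.trans hCC1, ?_⟩
  intro M _ E η T hE hη hηT hTc hM
  have hT : 0 < T := by linarith only [hη, hηT]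
  have hTT : T ≤ T₀ := hTc.trans (min_le_right _ _)
  have hTu : T ≤ u₀ ^ 4 := hTT.trans hT₀1
  have hT1 : T ≤ 1 := by
    refine hTu.trans ?_
    exact pow_le_one₀ hu₀0.le hu₀1
  -- `u`
  set u : ℝ := (c₀ * T) ^ (1 / 4 : ℝ) with hu
  have hcT : 0 < c₀ * T := by positivity
  have hu0 : 0 < u := by positivity
  have hu4 : u ^ 4 = c₀ * T := by
    rw [hu, ← Real.rpow_natCast, ← Real.rpow_mul hcT.le]
    norm_num
  have huu : u ≤ u₀ := by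
    have : u ^ 4 ≤ u₀ ^ 4 := by
      rw [hu4]
      nlinarith only [hcL, hcL1, hc₀, hT₀0, hT₀1, hη, hηT, hTT]
    exact le_of_pow_le_pow_left₀ (by norm_num) hu₀0.le this
  have hu1 : u ≤ 1 := huu.trans hu₀1
  set l : ℝ := 1 + Real.log (1 / (c₀ * T)) with hl
  have hlu : l ≤ 4 / u := by
    rw [hl, ← hu4]
    exact log_le_u hu0
  have hcT1 : c₀ * T ≤ 1 := by nlinarith only [hcL, hcL1, hc₀, hc₀0, hη, hηT, hT1]
  have hl1 : 1 ≤ l := by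
    have : 0 ≤ Real.log (1 / (c₀ * T)) := Real.log_nonneg (by rw [le_div_iff₀ hcT]; linarith only [hcT1])
    linarith only [this]
  have hlT : l = 1 + Real.log (1 / c₀) + Real.log (1 / T) := by
    rw [hl, show 1 / (c₀ * T) = 1 / c₀ * (1 / T) by field_simp,
      Real.log_mul (by positivity) (by positivity)]
    ring
  set R : ℝ := C₁ * l with hR
  have hTR : T * R ≤ a / 2 := TR_le hc₀0 hC₁0 hu0 hu1 hu4 hlu (huu.trans hu₀2)
  -- the points of the set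
  have hζ : ∀ m ∈ Ks c₀ C₁ R, ∀ ζ : ℂ, ζ = ⟨E, η⟩ + (T : ℂ) * m →
      c₀ * T ≤ ζ.im ∧ ζ.im ≤ 1 / 2 ∧ ζ.im ≤ cL ∧ |ζ.re| ≤ 2 * d - a / 2 :=
    fun m hm ζ hζ => pts hT hη hηT (hTT.trans hT₀2) (hTT.trans hT₀3) hC₁0 hTR hE hm hζ
  -- conditions on `M`
  have hMc : ∀ (C w : ℝ), 0 < C → C / c₀ ≤ CC → c₀ * T ≤ w → C / w ≤ M := by
    intro C w hC h5 hw
    refine le_trans ?_ hM
    have e1 : C / w ≤ C / (c₀ * T) := by gcongr
    have e2 : C / (c₀ * T) = C / c₀ / T := by field_simp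
    have e3 : C / c₀ / T ≤ CC / T := by gcongr
    have e4 : CC / T ≤ CC / T ^ 2 := by
      have : T ^ 2 ≤ T := by nlinarith only [hη, hηT, hT1]
      have hCC0 : 0 < CC := by linarith only [hC₁, hCC1]
      gcongr
    linarith only [e1, e2, e3, e4]
  have hMk : ∀ w : ℝ, c₀ * T ≤ w → CK / w ^ 2 ≤ M := by
    intro w hw
    refine le_trans ?_ hM
    have e1 : CK / w ^ 2 ≤ CK / (c₀ * T) ^ 2 := by gcongr
    have e2 : CK / (c₀ * T) ^ 2 = CK / c₀ ^ 2 / T ^ 2 := by field_simp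
    have e3 : CK / c₀ ^ 2 / T ^ 2 ≤ CC / T ^ 2 := by gcongr
    linarith only [e1, e2, e3]
  have hlogw : ∀ w : ℝ, c₀ * T ≤ w → 1 + Real.log (1 / w) ≤ l := by
    intro w hw
    rw [hl]
    have : Real.log (1 / w) ≤ Real.log (1 / (c₀ * T)) := by
      have hw0 : 0 < w := by linarith only [hcT, hw]
      apply Real.log_le_log (by positivity)
      gcongr
    linarith only [this]
  -- the map
  set f : ℂ → ℂ := fun m => Fz d M (⟨E, η⟩ + (T : ℂ) * m) with hf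
  have hmaps : ∀ m ∈ Ks c₀ C₁ R, f m ∈ Ks c₀ C₁ R := by
    intro m hm
    obtain ⟨z1, z2, z3, z4⟩ := hζ m hm _ rfl
    have z0 : 0 < (⟨E, η⟩ + (T : ℂ) * m : ℂ).im := by linarith only [hcT, z1]
    obtain ⟨k1, k2⟩ := h1 M (⟨E, η⟩ + (T : ℂ) * m : ℂ).re (⟨E, η⟩ + (T : ℂ) * m : ℂ).im z0
      (by linarith only [hcL1, hc₀, hc₀0, z2]) (hMc C₁ _ hC₁0 hCC3 z1)
    have hlow := h2 M (⟨E, η⟩ + (T : ℂ) * m : ℂ).re (⟨E, η⟩ + (T : ℂ) * m : ℂ).im 0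
      ⟨0, by omega⟩ z4 z0 z3 (hMc CL _ hCL0 hCC4 z1)
    refine ⟨⟨Fz_low z0 _ hlow, ?_⟩, ?_⟩
    · rw [hf]
      simp only
      rw [Fz_im]
      exact k1
    · refine (Fz_norm _).trans (k2.trans ?_)
      rw [hR]
      have := hlogw _ z1
      gcongr
  have hder : ∀ m ∈ Ks c₀ C₁ R,
      HasDerivAt f (bh (⟨E, η⟩ + (T : ℂ) * m) (0 : Tor d M) * T) m := by
    intro m hm
    obtain ⟨z1, z2, z3, z4⟩ := hζ m hm _ rfl
    have z0 : 0 < (⟨E, η⟩ + (T : ℂ) * m : ℂ).im := by linarith only [hcT, z1]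
    have e1 : HasDerivAt (fun m : ℂ => (⟨E, η⟩ : ℂ) + (T : ℂ) * m) (T : ℂ) m := by
      simpa using ((hasDerivAt_id m).const_mul (T : ℂ)).const_add (⟨E, η⟩ : ℂ)
    exact (Fz_deriv (d := d) (M := M) z0).comp m e1
  have hbd : ∀ m ∈ Ks c₀ C₁ R, ‖bh (⟨E, η⟩ + (T : ℂ) * m) (0 : Tor d M) * T‖ ≤ 1 / 2 := by
    intro m hm
    obtain ⟨z1, z2, z3, z4⟩ := hζ m hm _ rfl
    set ζ : ℂ := ⟨E, η⟩ + (T : ℂ) * m with hζd
    have z0 : 0 < ζ.im := by linarith only [hcT, z1]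
    obtain ⟨-, k2⟩ := h3 M ζ (0 : Tor d M) ⟨0, by omega⟩ z0 z2 (hMk _ z1)
    have e0 : |Real.cos (Real.pi * (((0 : Tor d M) ⟨0, by omega⟩).valMinAbs : ℝ) / M)| = 1 := by
      simp
    rw [e0] at k2
    rw [norm_mul, Complex.norm_real, Real.norm_of_nonneg hT.le]
    refine bd_le hc₀0 hCK0 hT.le z0 (zero_le_one.trans hl1) hu0 hu4 hlu (huu.trans hu₀3) z1
      (k2.trans ?_)
    have := hlogw _ z1
    gcongr
  have hC0 : c₀ ≤ C₁ := hc₀1.trans hC₁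
  have hC0R : c₀ ≤ R := by
    calc c₀ ≤ C₁ * 1 := by rw [mul_one]; exact hC0
      _ ≤ R := by rw [hR]; gcongr
  have hne : (Ks c₀ C₁ R).Nonempty := Ks_ne hc₀0.le hC0 hC0R
  obtain ⟨m, hm, hfm⟩ := fix_of_deriv (Ks_closed c₀ C₁ R) (Ks_convex c₀ C₁ R) hne f _ hmaps hder hbd
  obtain ⟨z1, z2, z3, z4⟩ := hζ m hm _ rfl
  obtain ⟨⟨hm1, hm2⟩, hm3⟩ := hm
  refine ⟨m, ?_, ?_, ?_, ?_⟩
  · rw [rs_diag ral _ (by linarith only [hcT, z1])]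
    exact hfm
  · exact (min_le_left _ _).trans hm1
  · exact hm2.trans hCC1
  · refine hm3.trans ?_
    rw [hR, hlT]
    have hlT0 : 0 ≤ Real.log (1 / T) := Real.log_nonneg (by rw [le_div_iff₀ hT]; linarith only [hT1])
    calc C₁ * (1 + Real.log (1 / c₀) + Real.log (1 / T))
        ≤ C₁ * (1 + Real.log (1 / c₀)) * (1 + Real.log (1 / T)) := last_le hC₁0.le hlc hlT0
      _ ≤ CC * (1 + Real.log (1 / T)) := by gcongr

end Pool.Agent.LE.QF.H68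
end
end -- Pool.Agent.Helper68_LQF.MBR

section -- Pool.Agent.Helper68_LQF.INIc

/-!
# The parameters: the pieces of `Adm`
-/

set_option autoImplicit false

open MeasureTheory ProbabilityTheory Function Filter

open scoped ENNReal BigOperators Topology NNReal ComplexOrder Matrix

noncomputable section

namespace Pool.Agent.LE.QF.H68

open Pool.Agent.Anderson hiding box mem_box card_box
open Pool.Agent.Loc Pool.Agent.Mob Pool.Agent.Helper54.Bal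
  Pool.Agent.Helper96.EXP Pool.Agent.BED
open Pool.Agent.LE.MN Pool.Agent.LE.CL Pool.Agent.LE.IR Pool.Agent.LE.QD

theorem n2_smul {X : Type} [Fintype X] (c : ℂ) (v : X → ℂ) : n2 (c • v) = ‖c‖ ^ 2 * n2 v := by
  unfold n2
  rw [Finset.mul_sum]
  refine Finset.sum_congr rfl fun x _ => ?_
  rw [Pi.smul_apply, smul_eq_mul, norm_mul, mul_pow]

theorem n2_nonneg {X : Type} [Fintype X] (v : X → ℂ) : 0 ≤ n2 v :=
  Finset.sum_nonneg fun _ _ => by positivity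

theorem hY_of {X : Type} [Fintype X] (B : Matrix X X ℂ) (τ β e : ℝ) (hτ : 0 ≤ τ) (hβ : 0 ≤ β)
    (h : τ * β ≤ e) (u : X → ℂ) (hB : n2 (B *ᵥ u) ≤ β ^ 2 * n2 u) :
    n2 (((τ : ℂ) • B) *ᵥ u) ≤ e ^ 2 * n2 u := by
  rw [Matrix.smul_mulVec, n2_smul, Complex.norm_real, Real.norm_of_nonneg hτ]
  calc τ ^ 2 * n2 (B *ᵥ u) ≤ τ ^ 2 * (β ^ 2 * n2 u) := by gcongr
    _ = (τ * β) ^ 2 * n2 u := by ring
    _ ≤ e ^ 2 * n2 u := by
        have := n2_nonneg u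
        have : 0 ≤ τ * β := by positivity
        gcongr

theorem nr_card {X : Type} [Fintype X] (g : X → ℂ) {δ L : ℝ} (hδ : 0 < δ) (s : Finset X)
    (hs : ∀ b ∈ s, δ < ‖g b‖) (hL : ∑ b, ‖g b‖ ^ 4 ≤ L) : (s.card : ℝ) ≤ (δ ^ 4)⁻¹ * L := by
  have h1 : (s.card : ℝ) * δ ^ 4 ≤ L := by
    calc (s.card : ℝ) * δ ^ 4 = ∑ b ∈ s, δ ^ 4 := by rw [Finset.sum_const, nsmul_eq_mul]
      _ ≤ ∑ b ∈ s, ‖g b‖ ^ 4 := Finset.sum_le_sum fun b hb => by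
          have := (hs b hb).le
          gcongr
      _ ≤ ∑ b, ‖g b‖ ^ 4 := Finset.sum_le_sum_of_subset_of_nonneg (Finset.subset_univ _)
          fun _ _ _ => by positivity
      _ ≤ L := hL
  have h2 : 0 < δ ^ 4 := by positivity
  rw [inv_mul_eq_div, le_div_iff₀ h2]
  exact h1

theorem qf_add_smul {X : Type} [Fintype X] [DecidableEq X] (S : Matrix X X ℝ) (e τ : ℝ)
    (f : X → ℝ) : qf (e • (1 : Matrix X X ℝ) + τ • S) f = e * ∑ a, f a ^ 2 + τ * qf S f := by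
  unfold qf
  rw [Matrix.add_mulVec, Matrix.smul_mulVec, Matrix.smul_mulVec, Matrix.one_mulVec,
    Finset.mul_sum, Finset.mul_sum, ← Finset.sum_add_distrib]
  refine Finset.sum_congr rfl fun x _ => ?_
  simp only [Pi.add_apply, Pi.smul_apply, smul_eq_mul]
  ring

variable {d M : ℕ} [NeZero M]

/-- the sine of a momentum outside of `low` -/
theorem sin_low {J : ℕ} {p : Tor d M} (hp : p ∉ low d M J) :
    ∃ i, 2 * (J : ℝ) / M ≤ |Real.sin (Real.pi * ((p i).valMinAbs : ℝ) / M)| := by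
  have h1 : ∃ i, J < (p i).valMinAbs.natAbs := by
    by_contra hc
    push Not at hc
    exact hp (by simp [low, hc])
  obtain ⟨i, hi⟩ := h1
  refine ⟨i, ?_⟩
  have hM : 0 < M := Nat.pos_of_ne_zero (NeZero.ne M)
  have hMr : (0 : ℝ) < M := by exact_mod_cast hM
  have h2 : (p i).valMinAbs.natAbs ≤ M / 2 := ZMod.natAbs_valMinAbs_le _
  have h2r : ((p i).valMinAbs.natAbs : ℝ) ≤ (M : ℝ) / 2 := by
    have h3 : 2 * (p i).valMinAbs.natAbs ≤ M := by omega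
    have h4 : (2 : ℝ) * ((p i).valMinAbs.natAbs : ℝ) ≤ M := by exact_mod_cast h3
    linarith only [h4]
  have hab : |((p i).valMinAbs : ℝ)| = ((p i).valMinAbs.natAbs : ℝ) := by
    rw [Nat.cast_natAbs, Int.cast_abs]
  set n : ℝ := ((p i).valMinAbs.natAbs : ℝ) with hn
  have hn0 : 0 ≤ n := Nat.cast_nonneg _
  have h3 : |Real.sin (Real.pi * ((p i).valMinAbs : ℝ) / M)| = Real.sin (Real.pi * n / M) := by
    have e1 : 0 ≤ Real.sin (Real.pi * n / M) := by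
      apply Real.sin_nonneg_of_nonneg_of_le_pi
      · positivity
      · rw [div_le_iff₀ hMr]
        have := Real.pi_pos
        nlinarith only [hMr, h2r, this]
    rcases le_total 0 ((p i).valMinAbs : ℝ) with h | h
    · rw [abs_of_nonneg h] at hab
      rw [hab, abs_of_nonneg e1]
    · rw [abs_of_nonpos h] at hab
      have e2 : ((p i).valMinAbs : ℝ) = -n := by linarith only [hab]
      rw [e2, mul_neg, neg_div, Real.sin_neg, abs_neg, abs_of_nonneg e1]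
  rw [h3]
  have h4 : 2 / Real.pi * (Real.pi * n / M) ≤ Real.sin (Real.pi * n / M) := by
    apply Real.mul_le_sin
    · positivity
    · rw [div_le_iff₀ hMr]
      have := Real.pi_pos
      nlinarith only [h2r, this]
  have h5 : 2 / Real.pi * (Real.pi * n / M) = 2 * n / M := by
    have := Real.pi_pos
    field_simp
  rw [h5] at h4
  refine le_trans ?_ h4
  have : (J : ℝ) ≤ n := by
    rw [hn]
    exact_mod_cast hi.le
  gcongr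

theorem abs_low {J : ℕ} {p : Tor d M} (hp : p ∈ low d M J) (i : Fin d) :
    |((p i).valMinAbs : ℝ)| ≤ J := by
  have h1 : (p i).valMinAbs.natAbs ≤ J := by
    have : ∀ i, (p i).valMinAbs.natAbs ≤ J := by simpa [low] using hp
    exact this i
  have hab : |((p i).valMinAbs : ℝ)| = ((p i).valMinAbs.natAbs : ℝ) := by
    rw [Nat.cast_natAbs, Int.cast_abs]
  rw [hab]
  exact_mod_cast h1

/-- the square root for the momenta with a large sine -/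
theorem sqrt_bound {w Cw s r t x : ℝ} (hw : 0 < w) (hw2 : w ≤ Cw * s ^ 2) (hr : 0 < r)
    (hrs : s ^ 2 = r * (x ^ 6) ^ 2) (hx : 0 ≤ x) (ht : r ≤ t) (hCw : 0 ≤ Cw) :
    Real.sqrt (w / t) ≤ Real.sqrt Cw * x ^ 6 := by
  have h1 : w / t ≤ Cw * (x ^ 6) ^ 2 := by
    rw [div_le_iff₀ (by linarith)]
    calc w ≤ Cw * s ^ 2 := hw2
      _ = Cw * (x ^ 6) ^ 2 * r := by
          rw [hrs]
          ring
      _ ≤ Cw * (x ^ 6) ^ 2 * t := by gcongr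
  calc Real.sqrt (w / t) ≤ Real.sqrt (Cw * (x ^ 6) ^ 2) := Real.sqrt_le_sqrt h1
    _ = Real.sqrt Cw * x ^ 6 := by
        rw [Real.sqrt_mul hCw, Real.sqrt_sq (by positivity)]

/-- the conditions on `M` -/
theorem M_cond {s cm w C : ℝ} {Mr : ℝ} (n : ℕ) (hs : 0 < s) (hs1 : s ≤ 1) (hcm : 0 < cm)
    (hw : cm * s ^ 2 ≤ w) (hC : 0 < C) (h : C / cm ^ 2 * s ≤ 1)
    (hn : 3 ≤ n) (hM : s ^ (-(4 * (n : ℝ) + 4)) ≤ Mr) : C / w ^ 2 ≤ Mr := by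
  have h0 : 0 < cm * s ^ 2 := by positivity
  have hn3 : (3 : ℝ) ≤ n := by exact_mod_cast hn
  calc C / w ^ 2 ≤ C / (cm * s ^ 2) ^ 2 := by gcongr
    _ = C / cm ^ 2 * s * (s ^ 5)⁻¹ := by field_simp
    _ ≤ 1 * (s ^ 5)⁻¹ := by gcongr
    _ = s ^ (-(5 : ℝ)) := by
        rw [one_mul, Real.rpow_neg hs.le]
        congr 1
        rw [← Real.rpow_natCast]
        norm_num
    _ ≤ s ^ (-(4 * (n : ℝ) + 4)) :=
        Real.rpow_le_rpow_of_exponent_ge hs hs1 (by linarith only [hn3])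
    _ ≤ Mr := hM

theorem M_cond1 {s cm w C : ℝ} {Mr : ℝ} (n : ℕ) (hs : 0 < s) (hs1 : s ≤ 1) (hcm : 0 < cm)
    (hw : cm * s ^ 2 ≤ w) (hC : 0 < C) (h : C / cm * s ≤ 1)
    (hn : 3 ≤ n) (hM : s ^ (-(4 * (n : ℝ) + 4)) ≤ Mr) : C / w ≤ Mr := by
  have h0 : 0 < cm * s ^ 2 := by positivity
  have hn3 : (3 : ℝ) ≤ n := by exact_mod_cast hn
  calc C / w ≤ C / (cm * s ^ 2) := by gcongr
    _ = C / cm * s * (s ^ 3)⁻¹ := by field_simp
    _ ≤ 1 * (s ^ 3)⁻¹ := by gcongr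
    _ = s ^ (-(3 : ℝ)) := by
        rw [one_mul, Real.rpow_neg hs.le]
        congr 1
        rw [← Real.rpow_natCast]
        norm_num
    _ ≤ s ^ (-(4 * (n : ℝ) + 4)) :=
        Real.rpow_le_rpow_of_exponent_ge hs hs1 (by linarith only [hn3])
    _ ≤ Mr := hM

/-- `M` is large -/
theorem M_large {s α : ℝ} {Mr : ℝ} (n : ℕ) (hs : 0 < s) (hs1 : s ≤ 1)
    (hM : s ^ (-(4 * (n : ℝ) + 4)) ≤ Mr) (hα : α ≤ 4 * (n : ℝ) + 4) : 1 ≤ Mr * s ^ α := by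
  calc (1 : ℝ) = s ^ (0 : ℝ) := (Real.rpow_zero s).symm
    _ ≤ s ^ (-(4 * (n : ℝ) + 4) + α) :=
        Real.rpow_le_rpow_of_exponent_ge hs hs1 (by linarith)
    _ = s ^ (-(4 * (n : ℝ) + 4)) * s ^ α := Real.rpow_add hs _ _
    _ ≤ Mr * s ^ α := by gcongr

/-- the density of the low momenta -/
theorem pi_bound {s ε η w CI cs Cw r q : ℝ} {d : ℕ} (hd : 3 ≤ d) (hs : 0 < s) (hs1 : s ≤ 1)
    (hε : 0 < ε) (hCI : 0 ≤ CI) (hcs : 0 ≤ cs) (hCw : 0 ≤ Cw) (hw0 : 0 ≤ w)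
    (hw : w ≤ Cw * s ^ 2) (hη : η = s ^ (2 * (d : ℝ) - ε))
    (hr : r = s ^ (2 - ε / (2 * d))) (hq0 : 0 ≤ q) (hq : q ≤ 2 * r) :
    CI * cs * (q ^ d + w ^ 2 * q ^ (d - 2)) / η ≤
      CI * cs * 2 ^ d * (4 + Cw ^ 2) * s ^ (ε / 2) := by
  have hd3 : (3 : ℝ) ≤ d := by exact_mod_cast hd
  have hη0 : 0 < η := by
    rw [hη]
    positivity
  have hr0 : 0 < r := by
    rw [hr]
    positivity
  have hs2 : s ^ 2 ≤ r := by
    rw [hr, ← Real.rpow_natCast]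
    apply Real.rpow_le_rpow_of_exponent_ge hs hs1
    push_cast
    have : 0 ≤ ε / (2 * d) := by positivity
    linarith only [this]
  have hrd : r ^ d = s ^ (ε / 2) * η := by
    rw [hr, xpow hs, hη, ← Real.rpow_add hs]
    congr 1
    field_simp
    ring
  have hw2 : w ≤ Cw * r := hw.trans (by gcongr)
  have h2d : (2 * r) ^ d = 2 ^ d * r ^ d := mul_pow _ _ _
  have h2d2 : (2 * r) ^ (d - 2) * r ^ 2 ≤ 2 ^ d * r ^ d := by
    calc (2 * r) ^ (d - 2) * r ^ 2 ≤ (2 * r) ^ (d - 2) * (2 * r) ^ 2 := by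
          have : r ≤ 2 * r := by linarith only [hr0]
          gcongr
      _ = (2 * r) ^ d := by
          rw [← pow_add]
          congr 1
          omega
      _ = 2 ^ d * r ^ d := h2d
  rw [div_le_iff₀ hη0]
  have h3 : q ^ d + w ^ 2 * q ^ (d - 2) ≤ 2 ^ d * (4 + Cw ^ 2) * r ^ d := by
    have a1 : q ^ d ≤ 2 ^ d * r ^ d := by
      rw [← h2d]
      gcongr
    have a2 : w ^ 2 * q ^ (d - 2) ≤ Cw ^ 2 * (2 ^ d * r ^ d) := by
      calc w ^ 2 * q ^ (d - 2) ≤ (Cw * r) ^ 2 * (2 * r) ^ (d - 2) := by gcongr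
        _ = Cw ^ 2 * ((2 * r) ^ (d - 2) * r ^ 2) := by ring
        _ ≤ Cw ^ 2 * (2 ^ d * r ^ d) := by gcongr
    have a3 : 0 ≤ 2 ^ d * r ^ d := by positivity
    have a4 : 2 ^ d * (4 + Cw ^ 2) * r ^ d = 4 * (2 ^ d * r ^ d) + Cw ^ 2 * (2 ^ d * r ^ d) := by
      ring
    linarith only [a1, a2, a3]
  calc CI * cs * (q ^ d + w ^ 2 * q ^ (d - 2)) ≤ CI * cs * (2 ^ d * (4 + Cw ^ 2) * r ^ d) := by
        gcongr
    _ = CI * cs * 2 ^ d * (4 + Cw ^ 2) * s ^ (ε / 2) * η := by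
        rw [hrd]
        ring

/-- the near points: `N w` is small -/
theorem Nw_bound {s w CF Cw A x l lM : ℝ} (hs : 0 < s) (hx : 0 < x)
    (hw0 : 0 < w) (hw : w ≤ Cw * s ^ 2) (hCw : 1 ≤ Cw) (hCF : 0 ≤ CF) (hlM0 : 0 ≤ lM)
    (hlM : lM ≤ A * l) (h16 : CF * Cw * A ^ 6 * s ^ (2 / 3 : ℝ) * l ^ 6 ≤ x ^ 40) :
    ((x ^ 5) ^ 4)⁻¹ * (CF * w ^ (-(2 / 3 : ℝ)) * lM ^ 6) * w ≤ x ^ 20 := by
  have h1 : w ^ (-(2 / 3 : ℝ)) * w = w ^ (1 / 3 : ℝ) := by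
    nth_rewrite 2 [← Real.rpow_one w]
    rw [← Real.rpow_add hw0]
    norm_num
  have h2 : w ^ (1 / 3 : ℝ) ≤ Cw * s ^ (2 / 3 : ℝ) := by
    calc w ^ (1 / 3 : ℝ) ≤ (Cw * s ^ 2) ^ (1 / 3 : ℝ) := by gcongr
      _ = Cw ^ (1 / 3 : ℝ) * (s ^ 2) ^ (1 / 3 : ℝ) :=
          Real.mul_rpow (by linarith only [hCw]) (by positivity)
      _ ≤ Cw * s ^ (2 / 3 : ℝ) := by
          have a1 : Cw ^ (1 / 3 : ℝ) ≤ Cw := by
            calc Cw ^ (1 / 3 : ℝ) ≤ Cw ^ (1 : ℝ) :=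
                  Real.rpow_le_rpow_of_exponent_le hCw (by norm_num)
              _ = Cw := Real.rpow_one _
          have a2 : (s ^ 2) ^ (1 / 3 : ℝ) = s ^ (2 / 3 : ℝ) := by
            rw [← Real.rpow_natCast, ← Real.rpow_mul hs.le]
            norm_num
          rw [a2]
          gcongr
  have hx20 : 0 < x ^ 20 := by positivity
  have h3 : ((x ^ 5) ^ 4)⁻¹ = (x ^ 20)⁻¹ := by
    rw [← pow_mul]
  calc ((x ^ 5) ^ 4)⁻¹ * (CF * w ^ (-(2 / 3 : ℝ)) * lM ^ 6) * w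
      = (x ^ 20)⁻¹ * (CF * (w ^ (-(2 / 3 : ℝ)) * w) * lM ^ 6) := by
        rw [h3]
        ring
    _ ≤ (x ^ 20)⁻¹ * (CF * (Cw * s ^ (2 / 3 : ℝ)) * (A * l) ^ 6) := by
        rw [h1]
        gcongr
    _ = (x ^ 20)⁻¹ * (CF * Cw * A ^ 6 * s ^ (2 / 3 : ℝ) * l ^ 6) := by ring
    _ ≤ (x ^ 20)⁻¹ * x ^ 40 := by gcongr
    _ = x ^ 20 := by field_simp

end Pool.Agent.LE.QF.H68
end
end -- Pool.Agent.Helper68_LQF.INIc

section -- Pool.Agent.Helper68_LQF.INId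

/-!
# The parameters: `Adm`
-/

set_option autoImplicit false

open MeasureTheory ProbabilityTheory Function Filter

open scoped ENNReal BigOperators Topology NNReal ComplexOrder Matrix

noncomputable section

namespace Pool.Agent.LE.QF.H68

open Pool.Agent.Anderson hiding box mem_box card_box
open Pool.Agent.Loc Pool.Agent.Mob Pool.Agent.Helper54.Bal
  Pool.Agent.Helper96.EXP Pool.Agent.BED
open Pool.Agent.LE.MN Pool.Agent.LE.CL Pool.Agent.LE.IR Pool.Agent.LE.QD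

/-- the facts about the free resolvent, with the constants of `K` -/
structure Fac (K : Cst) : Prop where
  khb : ∀ (M : ℕ) [NeZero M] (z : ℂ) (p : Tor K.d M) (i : Fin K.d),
    0 < z.im → z.im ≤ 1 / 2 → K.CK / z.im ^ 2 ≤ M →
      ‖kh z p‖ ≤ K.CK * (1 + Real.log (1 / z.im)) / z.im *
        Real.sqrt (z.im / (z.im + |Real.sin (Real.pi * ((p i).valMinAbs : ℝ) / M)|)) ∧
      ‖bh z p‖ ≤ K.CK * (1 + Real.log (1 / z.im)) / z.im *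
        Real.sqrt (z.im / (z.im + |Real.cos (Real.pi * ((p i).valMinAbs : ℝ) / M)|))
  bqb : ∀ (M : ℕ) [NeZero M] (z : ℂ) (r : ℝ) (p : Tor K.d M),
    0 < z.im → z.im ≤ 1 / 2 → K.CB / z.im ^ 2 ≤ M → 0 < r → r ≤ 1 → 4 * K.d * r ≤ |z.re| →
      ‖bh z p‖ ≤ K.CB * (1 + Real.log (1 / z.im)) * (Real.sqrt (z.im / r) / z.im + 1 / |z.re|)
  frb : ∀ (M : ℕ) [NeZero M] (z : ℂ), 0 < z.im → z.im ≤ 1 →
    K.CF / z.im ^ 2 ≤ M → ∀ x : Tor K.d M, (∀ y, ‖rs (0 : Tor K.d M → ℝ) z x y‖ ≤ K.CF) ∧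
      ∑ y, ‖rs (0 : Tor K.d M → ℝ) z x y‖ ^ 4 ≤
        K.CF * z.im ^ (-(2 / 3 : ℝ)) * (1 + Real.log M) ^ 6
  inm : ∀ (M : ℕ) [NeZero M] (J : ℕ) (cs w : ℝ)
    (S Pl : Matrix (Tor K.d M) (Tor K.d M) ℝ), 1 ≤ J → 1 ≤ cs → 0 < w → w ≤ 1 →
    S = mlt (sy0 cs w J) → Pl = mlt (fun p => if p ∈ low K.d M J then 1 else 0) →
      ((∀ a b, S a b = S b a) ∧ (∀ f, 0 ≤ qf S f) ∧ (∀ a, ∑ b, S a b = 0) ∧
        ∀ a, w * S a a ≤ K.CI * cs * (((J : ℝ) / M) ^ K.d + w ^ 2 * ((J : ℝ) / M) ^ (K.d - 2))) ∧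
      ((∀ a b, Pl a b = Pl b a) ∧ Pl * Pl = Pl ∧ (∀ a, Pl a a ≤ K.CI * ((J : ℝ) / M) ^ K.d) ∧
        (∀ a, ∑ b, Pl a b = 1) ∧ S * Pl = S) ∧
      ∀ f, qf S f ≤ 2 * cs / w * (M : ℝ) ^ 2 * ∑ a, f a ^ 2
  gal : ∀ (M : ℕ) [NeZero M] (ζ : ℂ) (p : Tor K.d M), |ζ.re| ≤ 2 * K.d - K.a / 2 → 0 < ζ.im →
    ζ.im ≤ K.cG → K.CG / ζ.im ≤ M → (∀ i, 8 * |((p i).valMinAbs : ℝ)| ≤ M) →
        kf ζ p ≤ (1 - K.cG * min 1 (ds p / ζ.im ^ 2)) * kf ζ (0 : Tor K.d M)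
  mss : ∀ (M : ℕ) [NeZero M] (J J₁ : ℕ) (cs w : ℝ)
    (C' : Finset (Tor K.d M)), 1 ≤ J₁ → 0 < cs → 0 < w →
      ∑ x ∈ C', ∑ y ∈ C', mlt (sy0 cs w J) x y ≤
        K.CS * cs * ((1 / w + w * (M : ℝ) ^ 2 / (J₁ : ℝ) ^ 2) * C'.card +
          (((J₁ : ℝ) / M) ^ K.d / w + w * ((J₁ : ℝ) / M) ^ (K.d - 2)) * (C'.card : ℝ) ^ 2)

/-- the given data -/
structure Giv (K : Cst) (M : ℕ) [NeZero M] (s E η : ℝ) (m : ℂ) : Prop where
  hs : K.Cnd s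
  hE1 : s ^ (2 - K.ε) ≤ |E|
  hE2 : |E| ≤ 2 * K.d - K.a
  hη : η = s ^ (2 * (K.d : ℝ) - K.ε)
  hM1 : s ^ (-(4 * (K.d : ℝ) + 4)) ≤ M
  hM2 : (M : ℝ) ≤ s ^ (-(4 * (K.d : ℝ) + 6))
  hm : rs (0 : Tor K.d M → ℝ) (⟨E, η⟩ + ((s ^ 2 : ℝ) : ℂ) * m) 0 0 = m
  hm1 : K.cm ≤ m.im
  hm2 : m.im ≤ K.Cm
  hm3 : ‖m‖ ≤ K.Cm * (1 + Real.log (1 / s ^ 2))

def wv (s η : ℝ) (m : ℂ) : ℝ := η + s ^ 2 * m.im

def Jv (K : Cst) (s : ℝ) (M : ℕ) : ℕ := ⌈(M : ℝ) * K.r s⌉₊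

/-- the parameters -/
def mkD (K : Cst) (s E η : ℝ) (m : ℂ) (M : ℕ) [NeZero M] : Dat K.d M where
  E := E
  η := η
  T := s ^ 2
  m := m
  δ := (s ^ K.θ) ^ 5
  ε₁ := (s ^ K.θ) ^ 3
  e₀ := 1 + (s ^ K.θ) ^ 3
  e₁ := 1 + (s ^ K.θ) ^ 3 / 2
  ϖ := (s ^ K.θ) ^ 5 / ((2 + 2 * K.cs / K.cm) * (M : ℝ) ^ 2)
  L₀ := ((s ^ K.θ) ^ 6)⁻¹
  N := (((s ^ K.θ) ^ 5) ^ 4)⁻¹ *
    (K.CF * (wv s η m) ^ (-(2 / 3 : ℝ)) * (1 + Real.log M) ^ 6)
  π₀ := K.CI * K.cs * (((Jv K s M : ℝ) / M) ^ K.d +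
    (wv s η m) ^ 2 * ((Jv K s M : ℝ) / M) ^ (K.d - 2))
  S := mlt (sy0 K.cs (wv s η m) (Jv K s M))
  Pl := mlt (fun p => if p ∈ low K.d M (Jv K s M) then 1 else 0)
  j := ⌈(s ^ K.θ)⁻¹⌉₊
  p := ⌈((s ^ K.θ) ^ 4)⁻¹⌉₊

variable {K : Cst} {M : ℕ} [NeZero M] {s E η : ℝ} {m : ℂ}

namespace Giv

theorem s1 (g : Giv K M s E η m) : s ≤ 1 := by
  have := g.hs.q0.2
  linarith only [this]

theorem Mpos (_g : Giv K M s E η m) : (0 : ℝ) < M := by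
  have : 0 < M := Nat.pos_of_ne_zero (NeZero.ne M)
  exact_mod_cast this

theorem M1 (_g : Giv K M s E η m) : (1 : ℝ) ≤ M := by
  have : 0 < M := Nat.pos_of_ne_zero (NeZero.ne M)
  exact_mod_cast this

theorem ηpos (g : Giv K M s E η m) : 0 < η := by
  have h := g.hs.q0.1
  rw [g.hη]
  positivity

theorem ηT (g : Giv K M s E η m) (hK : K.Ok) : η ≤ s ^ 2 := by
  have h := g.hs.q0.1
  have hd := hK.dpos
  rw [g.hη, ← Real.rpow_natCast]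
  apply Real.rpow_le_rpow_of_exponent_ge h g.s1
  push_cast
  linarith only [hK.hε.2, hd]

theorem w1 (g : Giv K M s E η m) : K.cm * s ^ 2 ≤ wv s η m := by
  have h1 := g.ηpos
  have h2 : K.cm * s ^ 2 ≤ s ^ 2 * m.im := by
    rw [mul_comm]
    have := g.hm1
    gcongr
  unfold wv
  linarith

theorem wpos (g : Giv K M s E η m) (hK : K.Ok) : 0 < wv s η m := by
  have h := g.hs.q0.1
  have h1 := g.w1
  have : 0 < K.cm * s ^ 2 := mul_pos hK.hcm.1 (by positivity)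
  linarith

theorem w2 (g : Giv K M s E η m) (hK : K.Ok) : wv s η m ≤ K.Cw * s ^ 2 := by
  have h1 := g.ηT hK
  have h2 : s ^ 2 * m.im ≤ s ^ 2 * K.Cm := by
    have := g.hm2
    gcongr
  unfold wv Cst.Cw
  linarith

theorem imz (_g : Giv K M s E η m) :
    (⟨E, η⟩ + ((s ^ 2 : ℝ) : ℂ) * m : ℂ).im = wv s η m := by
  unfold wv
  rw [Complex.add_im, Complex.im_ofReal_mul]

theorem rez (_g : Giv K M s E η m) :
    (⟨E, η⟩ + ((s ^ 2 : ℝ) : ℂ) * m : ℂ).re = E + s ^ 2 * m.re := by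
  rw [Complex.add_re, Complex.re_ofReal_mul]

theorem shift (g : Giv K M s E η m) (hK : K.Ok) : |s ^ 2 * m.re| ≤ s ^ (2 - K.ε) / 2 ∧
    |s ^ 2 * m.re| ≤ K.a / 2 := by
  have h := g.hs.q0.1
  have h1 : |m.re| ≤ K.Cm * (1 + Real.log (1 / s ^ 2)) := (Complex.abs_re_le_norm m).trans g.hm3
  have h2 : Real.log (1 / s ^ 2) = 2 * Real.log (1 / s) := by
    rw [one_div, one_div, Real.log_inv, Real.log_inv, Real.log_pow]
    push_cast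
    ring
  have h3 : |s ^ 2 * m.re| ≤ 4 * K.Cm * s ^ 2 * (1 + Real.log (1 / s)) / 2 := by
    rw [abs_mul, abs_of_pos (by positivity)]
    calc s ^ 2 * |m.re| ≤ s ^ 2 * (K.Cm * (1 + Real.log (1 / s ^ 2))) := by gcongr
      _ ≤ s ^ 2 * (K.Cm * (2 * (1 + Real.log (1 / s)))) := by
          have : 0 ≤ K.Cm := by linarith only [hK.hCm]
          rw [h2]
          gcongr
          linarith only
      _ = _ := by ring
  exact ⟨by linarith only [g.hs.q4.1, h3], by linarith only [g.hs.q4.2, h3]⟩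

theorem re_le (g : Giv K M s E η m) (hK : K.Ok) :
    |(⟨E, η⟩ + ((s ^ 2 : ℝ) : ℂ) * m : ℂ).re| ≤ 2 * K.d - K.a / 2 := by
  rw [g.rez]
  have h1 := abs_add_le E (s ^ 2 * m.re)
  have h2 := (g.shift hK).2
  have h3 := g.hE2
  linarith only [h1, h2, h3]

theorem re_ge (g : Giv K M s E η m) (hK : K.Ok) :
    s ^ (2 - K.ε) / 2 ≤ |(⟨E, η⟩ + ((s ^ 2 : ℝ) : ℂ) * m : ℂ).re| := by
  rw [g.rez]
  have h1 := abs_sub_abs_le_abs_sub E (-(s ^ 2 * m.re))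
  rw [abs_neg, sub_neg_eq_add] at h1
  have h2 := (g.shift hK).1
  have h3 := g.hE1
  linarith only [h1, h2, h3]

theorem rpos (g : Giv K M s E η m) : 0 < K.r s := by
  have h := g.hs.q0.1
  unfold Cst.r
  positivity

theorem xpos (g : Giv K M s E η m) : 0 < s ^ K.θ := by
  have h := g.hs.q0.1
  positivity

theorem x1 (g : Giv K M s E η m) : s ^ K.θ ≤ 1 := by
  have h := g.hs.q5.2
  linarith only [h]

theorem rx (g : Giv K M s E η m) (hK : K.Ok) : s ^ 2 = K.r s * ((s ^ K.θ) ^ 6) ^ 2 := by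
  have h := g.hs.q0.1
  rw [← pow_mul, xpow h, Cst.r, hK.rexp, ← Real.rpow_add h, ← Real.rpow_natCast]
  congr 1
  push_cast
  ring

theorem l1 (g : Giv K M s E η m) : 1 ≤ 1 + Real.log (1 / s) := by
  have h := g.hs.q0.1
  have : 0 ≤ Real.log (1 / s) := Real.log_nonneg (by rw [le_div_iff₀ h]; linarith [g.s1])
  linarith

theorem lw (g : Giv K M s E η m) (hK : K.Ok) :
    1 + Real.log (1 / wv s η m) ≤ K.Kl * (1 + Real.log (1 / s)) :=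
  lw_bound g.hs.q0.1 g.s1 hK.hcm.1 hK.hcm.2 g.w1

theorem w_half (g : Giv K M s E η m) (hK : K.Ok) : wv s η m ≤ 1 / 2 :=
  (g.w2 hK).trans g.hs.q1.2.1

theorem lw0 (g : Giv K M s E η m) (hK : K.Ok) : 1 ≤ 1 + Real.log (1 / wv s η m) := by
  have h := g.wpos hK
  have : 0 ≤ Real.log (1 / wv s η m) :=
    Real.log_nonneg (by rw [le_div_iff₀ h]; linarith only [g.w_half hK])
  linarith

theorem MK (g : Giv K M s E η m) (hK : K.Ok) : K.CK / (wv s η m) ^ 2 ≤ M :=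
  M_cond K.d g.hs.q0.1 g.s1 hK.hcm.1 g.w1 (by linarith [hK.hCK]) g.hs.q3.1 hK.hd g.hM1

theorem MB (g : Giv K M s E η m) (hK : K.Ok) : K.CB / (wv s η m) ^ 2 ≤ M :=
  M_cond K.d g.hs.q0.1 g.s1 hK.hcm.1 g.w1 (by linarith [hK.hCB]) g.hs.q3.2.1 hK.hd g.hM1

theorem MF (g : Giv K M s E η m) (hK : K.Ok) : K.CF / (wv s η m) ^ 2 ≤ M :=
  M_cond K.d g.hs.q0.1 g.s1 hK.hcm.1 g.w1 (by linarith [hK.hCF]) g.hs.q3.2.2.1 hK.hd g.hM1

theorem MG (g : Giv K M s E η m) (hK : K.Ok) : K.CG / wv s η m ≤ M :=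
  M_cond1 K.d g.hs.q0.1 g.s1 hK.hcm.1 g.w1 (by linarith [hK.hCG]) g.hs.q3.2.2.2.1 hK.hd g.hM1

/-- the bound for `B` -/
theorem bh_le (g : Giv K M s E η m) (hK : K.Ok) (F : Fac K) (p : Tor K.d M) :
    ‖bh (⟨E, η⟩ + ((s ^ 2 : ℝ) : ℂ) * m) p‖ ≤ K.CB * (K.Kl * (1 + Real.log (1 / s))) *
      (Real.sqrt K.Cw * (s ^ K.θ) ^ 6 + 2 * K.Cw * s ^ K.ε) / wv s η m := by
  have hs := g.hs.q0.1
  have hw := g.wpos hK
  have hr := g.rpos
  have hre := g.re_ge hK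
  have h0 : 0 < s ^ (2 - K.ε) := by positivity
  have hd := hK.dpos
  have h4 : 4 * K.d * K.r s ≤ |(⟨E, η⟩ + ((s ^ 2 : ℝ) : ℂ) * m : ℂ).re| := by
    have := g.hs.q15
    linarith only [hre, this]
  have hr1 : K.r s ≤ 1 := by linarith only [g.hs.q13]
  have h5 := F.bqb M (⟨E, η⟩ + ((s ^ 2 : ℝ) : ℂ) * m) (K.r s) p (by rw [g.imz]; exact hw)
    (by rw [g.imz]; exact g.w_half hK) (by rw [g.imz]; exact g.MB hK) hr hr1 h4
  rw [g.imz] at h5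
  refine h5.trans ?_
  have h6 : Real.sqrt (wv s η m / K.r s) ≤ Real.sqrt K.Cw * (s ^ K.θ) ^ 6 :=
    sqrt_bound hw (g.w2 hK) hr (g.rx hK) g.xpos.le (le_refl _) (by linarith only [hK.Cwpos])
  have h7 : 1 / |(⟨E, η⟩ + ((s ^ 2 : ℝ) : ℂ) * m : ℂ).re| ≤
      2 * K.Cw * s ^ K.ε / wv s η m := by
    have a1 : 0 < |(⟨E, η⟩ + ((s ^ 2 : ℝ) : ℂ) * m : ℂ).re| := by linarith only [hre, h0]
    rw [div_le_div_iff₀ a1 hw, one_mul]
    have a2 : s ^ 2 = s ^ K.ε * s ^ (2 - K.ε) := by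
      rw [← Real.rpow_add hs, ← Real.rpow_natCast]
      congr 1
      push_cast
      ring
    have a3 : 0 < K.Cw := by linarith only [hK.Cwpos]
    calc wv s η m ≤ K.Cw * s ^ 2 := g.w2 hK
      _ = 2 * K.Cw * s ^ K.ε * (s ^ (2 - K.ε) / 2) := by
          rw [a2]
          ring
      _ ≤ 2 * K.Cw * s ^ K.ε * |(⟨E, η⟩ + ((s ^ 2 : ℝ) : ℂ) * m : ℂ).re| := by gcongr
  have h8 : 0 ≤ K.CB := by linarith only [hK.hCB]
  have h9 := g.lw hK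
  have h10 := g.lw0 hK
  have h11 : 0 ≤ K.Kl := by linarith only [hK.Klpos]
  have h12 : 0 ≤ 1 + Real.log (1 / s) := by linarith only [g.l1]
  calc K.CB * (1 + Real.log (1 / wv s η m)) * (Real.sqrt (wv s η m / K.r s) / wv s η m +
        1 / |(⟨E, η⟩ + ((s ^ 2 : ℝ) : ℂ) * m : ℂ).re|)
      ≤ K.CB * (K.Kl * (1 + Real.log (1 / s))) *
        (Real.sqrt K.Cw * (s ^ K.θ) ^ 6 / wv s η m + 2 * K.Cw * s ^ K.ε / wv s η m) := by
        gcongr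
    _ = _ := by ring

/-- `Im G₀ / w` -/
theorem kf0 (g : Giv K M s E η m) (hK : K.Ok) (kft : KftStmt) :
    kf (⟨E, η⟩ + ((s ^ 2 : ℝ) : ℂ) * m) (0 : Tor K.d M) = m.im / wv s η m := by
  obtain ⟨-, -, -, -, -, k6⟩ := kft K.d M (⟨E, η⟩ + ((s ^ 2 : ℝ) : ℂ) * m)
    (by rw [g.imz]; exact g.wpos hK)
  rw [k6, g.imz, g.hm]

/-- the bound for `K` outside of the low momenta -/
theorem kf_high (g : Giv K M s E η m) (hK : K.Ok) (F : Fac K) (kft : KftStmt) {p : Tor K.d M}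
    (hp : p ∉ low K.d M (Jv K s M)) (hJ : K.r s ≤ (Jv K s M : ℝ) / M) :
    |kf (⟨E, η⟩ + ((s ^ 2 : ℝ) : ℂ) * m) p| ≤
      (s ^ K.θ) ^ 3 / 8 * kf (⟨E, η⟩ + ((s ^ 2 : ℝ) : ℂ) * m) (0 : Tor K.d M) := by
  have hw := g.wpos hK
  have hr := g.rpos
  obtain ⟨k1, -, -, -, -, -⟩ := kft K.d M (⟨E, η⟩ + ((s ^ 2 : ℝ) : ℂ) * m)
    (by rw [g.imz]; exact hw)
  rw [g.kf0 hK kft, k1 p]
  obtain ⟨i, hi⟩ := sin_low hp
  obtain ⟨h5, -⟩ := F.khb M (⟨E, η⟩ + ((s ^ 2 : ℝ) : ℂ) * m) p i (by rw [g.imz]; exact hw)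
    (by rw [g.imz]; exact g.w_half hK) (by rw [g.imz]; exact g.MK hK)
  rw [g.imz] at h5
  have h6 : K.r s ≤ wv s η m + |Real.sin (Real.pi * ((p i).valMinAbs : ℝ) / M)| := by
    have : 2 * (Jv K s M : ℝ) / M = 2 * ((Jv K s M : ℝ) / M) := by ring
    rw [this] at hi
    linarith only [hJ, hw, hr, hi]
  have h7 := sqrt_bound hw (g.w2 hK) hr (g.rx hK) g.xpos.le h6 (by linarith only [hK.Cwpos])
  have h8 : 0 ≤ K.CK := by linarith only [hK.hCK]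
  have h9 := g.lw hK
  have h10 := g.lw0 hK
  have h11 : 0 ≤ K.Kl := by linarith only [hK.Klpos]
  have h12 : 0 ≤ 1 + Real.log (1 / s) := by linarith only [g.l1]
  refine (Complex.abs_re_le_norm _).trans (h5.trans ?_)
  calc K.CK * (1 + Real.log (1 / wv s η m)) / wv s η m *
        Real.sqrt (wv s η m / (wv s η m + |Real.sin (Real.pi * ((p i).valMinAbs : ℝ) / M)|))
      ≤ K.CK * (K.Kl * (1 + Real.log (1 / s))) / wv s η m *
        (Real.sqrt K.Cw * (s ^ K.θ) ^ 6) := by gcongr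
    _ = K.CK * K.Kl * (1 + Real.log (1 / s)) * (Real.sqrt K.Cw * (s ^ K.θ) ^ 6) / wv s η m := by
        ring
    _ ≤ K.cm * ((s ^ K.θ) ^ 3 / 8) / wv s η m := by
        have := g.hs.q12
        gcongr
    _ ≤ (s ^ K.θ) ^ 3 / 8 * (m.im / wv s η m) := by
        have a1 := g.hm1
        have a2 : 0 ≤ (s ^ K.θ) ^ 3 / 8 := by
          have := g.xpos
          positivity
        have a3 : (s ^ K.θ) ^ 3 / 8 * (m.im / wv s η m) =
            m.im * ((s ^ K.θ) ^ 3 / 8) / wv s η m := by ring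
        rw [a3]
        gcongr

/-- the number `J` -/
theorem Jb (g : Giv K M s E η m) (hK : K.Ok) : 1 ≤ Jv K s M ∧ K.r s ≤ (Jv K s M : ℝ) / M ∧
    (Jv K s M : ℝ) / M ≤ 2 * K.r s := by
  apply ceil_bound g.Mpos
  apply M_large K.d g.hs.q0.1 g.s1 g.hM1
  rw [hK.rexp]
  have := hK.dpos
  have := hK.θpos
  linarith

end Giv

end Pool.Agent.LE.QF.H68
end
end -- Pool.Agent.Helper68_LQF.INId

section -- Pool.Agent.Helper68_LQX.INIb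

/-!
# The parameters (stretched exponential version): the given data
-/

set_option autoImplicit false

open MeasureTheory ProbabilityTheory Function Filter

open scoped ENNReal BigOperators Topology NNReal ComplexOrder Matrix

noncomputable section

namespace Pool.Agent.LE.QX.H68

open Pool.Agent.Anderson hiding box mem_box card_box
open Pool.Agent.Loc Pool.Agent.Mob Pool.Agent.Helper54.Bal
  Pool.Agent.Helper96.EXP Pool.Agent.BED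
open Pool.Agent.LE.MN Pool.Agent.LE.CL Pool.Agent.LE.IR Pool.Agent.LE.QD Pool.Agent.LE.QF
open Pool.Agent.LE.QF.H68

/-- the given data -/
structure GivX (K : Cst) (M : ℕ) [NeZero M] (s E η : ℝ) (m : ℂ) : Prop where
  hs : CndX K s
  hE1 : s ^ (2 - K.ε) ≤ |E|
  hE2 : |E| ≤ 2 * K.d - K.a
  hη1 : Real.exp (-(s ^ (-(K.θ / 8)))) ≤ η
  hη2 : η ≤ s ^ 3
  hM1 : 1 ≤ s ^ 4 * η ^ 2 * M
  hM2 : s ^ 6 * η ^ 2 * M ≤ 1
  hm : rs (0 : Tor K.d M → ℝ) (⟨E, η⟩ + ((s ^ 2 : ℝ) : ℂ) * m) 0 0 = m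
  hm1 : K.cm ≤ m.im
  hm2 : m.im ≤ K.Cm
  hm3 : ‖m‖ ≤ K.Cm * (1 + Real.log (1 / s ^ 2))

/-- the parameters -/
def mkX (K : Cst) (s E η : ℝ) (m : ℂ) (M : ℕ) [NeZero M] : Dat K.d M where
  E := E
  η := η
  T := s ^ 2
  m := m
  δ := (s ^ K.θ) ^ 5
  ε₁ := (s ^ K.θ) ^ 3
  e₀ := 1 + (s ^ K.θ) ^ 3
  e₁ := 1 + (s ^ K.θ) ^ 3 / 2
  ϖ := (s ^ K.θ) ^ 5 / ((2 + 2 * K.cs / K.cm) * (M : ℝ) ^ 2)
  L₀ := ((s ^ K.θ) ^ 6)⁻¹
  N := (((s ^ K.θ) ^ 5) ^ 4)⁻¹ *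
    (K.CF * (wv s η m) ^ (-(2 / 3 : ℝ)) * (1 + Real.log M) ^ 6)
  π₀ := s ^ 3
  S := mlt (sy0 K.cs (wv s η m) (Jv K s M))
  k := ⌈((s ^ (K.θ / 8)) ^ 2)⁻¹⌉₊
  j := ⌈(s ^ K.θ)⁻¹⌉₊
  p := ⌈((s ^ K.θ) ^ 4)⁻¹⌉₊

variable {K : Cst} {M : ℕ} [NeZero M] {s E η : ℝ} {m : ℂ}

namespace GivX

theorem s1 (g : GivX K M s E η m) : s ≤ 1 := by
  have := g.hs.q0.2
  linarith only [this]

theorem Mpos (_g : GivX K M s E η m) : (0 : ℝ) < M := by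
  have : 0 < M := Nat.pos_of_ne_zero (NeZero.ne M)
  exact_mod_cast this

theorem M1 (_g : GivX K M s E η m) : (1 : ℝ) ≤ M := by
  have : 0 < M := Nat.pos_of_ne_zero (NeZero.ne M)
  exact_mod_cast this

theorem ηpos (g : GivX K M s E η m) : 0 < η :=
  lt_of_lt_of_le (Real.exp_pos _) g.hη1

theorem ηT (g : GivX K M s E η m) (_hK : K.Ok) : η ≤ s ^ 2 := by
  have h := g.hs.q0.1
  refine g.hη2.trans ?_
  exact pow_le_pow_of_le_one h.le g.s1 (by norm_num)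

/-- `M` is at least `s^(-10)` -/
theorem M10 (g : GivX K M s E η m) : s ^ (-(10 : ℝ)) ≤ M := by
  have h := g.hs.q0.1
  have hη := g.ηpos
  have hM := g.Mpos
  have h1 : 1 ≤ s ^ 10 * (M : ℝ) := by
    calc (1 : ℝ) ≤ s ^ 4 * η ^ 2 * M := g.hM1
      _ ≤ s ^ 4 * (s ^ 3) ^ 2 * M := by
          have := g.hη2
          gcongr
      _ = s ^ 10 * M := by ring
  have h2 : s ^ (-(10 : ℝ)) = (s ^ 10)⁻¹ := by
    rw [Real.rpow_neg h.le, ← Real.rpow_natCast]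
    norm_num
  rw [h2, inv_le_iff_one_le_mul₀ (by positivity)]
  linarith only [h1]

theorem Mc (g : GivX K M s E η m) {w C : ℝ} (hK : K.Ok) (hw : K.cm * s ^ 2 ≤ w) (hC : 0 < C)
    (h : C / K.cm ^ 2 * s ≤ 1) : C / w ^ 2 ≤ M := by
  have hs := g.hs.q0.1
  have hcm := hK.hcm.1
  have h0 : 0 < K.cm * s ^ 2 := by positivity
  calc C / w ^ 2 ≤ C / (K.cm * s ^ 2) ^ 2 := by gcongr
    _ = C / K.cm ^ 2 * s * (s ^ 5)⁻¹ := by field_simp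
    _ ≤ 1 * (s ^ 5)⁻¹ := by gcongr
    _ = s ^ (-(5 : ℝ)) := by
        rw [one_mul, Real.rpow_neg hs.le]
        congr 1
        rw [← Real.rpow_natCast]
        norm_num
    _ ≤ s ^ (-(10 : ℝ)) :=
        Real.rpow_le_rpow_of_exponent_ge hs g.s1 (by norm_num)
    _ ≤ M := g.M10

theorem Mc1 (g : GivX K M s E η m) {w C : ℝ} (hK : K.Ok) (hw : K.cm * s ^ 2 ≤ w) (hC : 0 < C)
    (h : C / K.cm * s ≤ 1) : C / w ≤ M := by
  have hs := g.hs.q0.1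
  have hcm := hK.hcm.1
  have h0 : 0 < K.cm * s ^ 2 := by positivity
  calc C / w ≤ C / (K.cm * s ^ 2) := by gcongr
    _ = C / K.cm * s * (s ^ 3)⁻¹ := by field_simp
    _ ≤ 1 * (s ^ 3)⁻¹ := by gcongr
    _ = s ^ (-(3 : ℝ)) := by
        rw [one_mul, Real.rpow_neg hs.le]
        congr 1
        rw [← Real.rpow_natCast]
        norm_num
    _ ≤ s ^ (-(10 : ℝ)) :=
        Real.rpow_le_rpow_of_exponent_ge hs g.s1 (by norm_num)
    _ ≤ M := g.M10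

theorem w1 (g : GivX K M s E η m) : K.cm * s ^ 2 ≤ wv s η m := by
  have h1 := g.ηpos
  have h2 : K.cm * s ^ 2 ≤ s ^ 2 * m.im := by
    rw [mul_comm]
    have := g.hm1
    gcongr
  unfold wv
  linarith

theorem wpos (g : GivX K M s E η m) (hK : K.Ok) : 0 < wv s η m := by
  have h := g.hs.q0.1
  have h1 := g.w1
  have : 0 < K.cm * s ^ 2 := mul_pos hK.hcm.1 (by positivity)
  linarith

theorem w2 (g : GivX K M s E η m) (hK : K.Ok) : wv s η m ≤ K.Cw * s ^ 2 := by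
  have h1 := g.ηT hK
  have h2 : s ^ 2 * m.im ≤ s ^ 2 * K.Cm := by
    have := g.hm2
    gcongr
  unfold wv Cst.Cw
  linarith

theorem imz (_g : GivX K M s E η m) :
    (⟨E, η⟩ + ((s ^ 2 : ℝ) : ℂ) * m : ℂ).im = wv s η m := by
  unfold wv
  rw [Complex.add_im, Complex.im_ofReal_mul]

theorem rez (_g : GivX K M s E η m) :
    (⟨E, η⟩ + ((s ^ 2 : ℝ) : ℂ) * m : ℂ).re = E + s ^ 2 * m.re := by
  rw [Complex.add_re, Complex.re_ofReal_mul]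

theorem shift (g : GivX K M s E η m) (hK : K.Ok) : |s ^ 2 * m.re| ≤ s ^ (2 - K.ε) / 2 ∧
    |s ^ 2 * m.re| ≤ K.a / 2 := by
  have h := g.hs.q0.1
  have h1 : |m.re| ≤ K.Cm * (1 + Real.log (1 / s ^ 2)) := (Complex.abs_re_le_norm m).trans g.hm3
  have h2 : Real.log (1 / s ^ 2) = 2 * Real.log (1 / s) := by
    rw [one_div, one_div, Real.log_inv, Real.log_inv, Real.log_pow]
    push_cast
    ring
  have h3 : |s ^ 2 * m.re| ≤ 4 * K.Cm * s ^ 2 * (1 + Real.log (1 / s)) / 2 := by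
    rw [abs_mul, abs_of_pos (by positivity)]
    calc s ^ 2 * |m.re| ≤ s ^ 2 * (K.Cm * (1 + Real.log (1 / s ^ 2))) := by gcongr
      _ ≤ s ^ 2 * (K.Cm * (2 * (1 + Real.log (1 / s)))) := by
          have : 0 ≤ K.Cm := by linarith only [hK.hCm]
          rw [h2]
          gcongr
          linarith only
      _ = _ := by ring
  exact ⟨by linarith only [g.hs.q4.1, h3], by linarith only [g.hs.q4.2, h3]⟩

theorem re_le (g : GivX K M s E η m) (hK : K.Ok) :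
    |(⟨E, η⟩ + ((s ^ 2 : ℝ) : ℂ) * m : ℂ).re| ≤ 2 * K.d - K.a / 2 := by
  rw [g.rez]
  have h1 := abs_add_le E (s ^ 2 * m.re)
  have h2 := (g.shift hK).2
  have h3 := g.hE2
  linarith only [h1, h2, h3]

theorem re_ge (g : GivX K M s E η m) (hK : K.Ok) :
    s ^ (2 - K.ε) / 2 ≤ |(⟨E, η⟩ + ((s ^ 2 : ℝ) : ℂ) * m : ℂ).re| := by
  rw [g.rez]
  have h1 := abs_sub_abs_le_abs_sub E (-(s ^ 2 * m.re))
  rw [abs_neg, sub_neg_eq_add] at h1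
  have h2 := (g.shift hK).1
  have h3 := g.hE1
  linarith

theorem rpos (g : GivX K M s E η m) : 0 < K.r s := by
  have h := g.hs.q0.1
  unfold Cst.r
  positivity

theorem xpos (g : GivX K M s E η m) : 0 < s ^ K.θ := by
  have h := g.hs.q0.1
  positivity

theorem x1 (g : GivX K M s E η m) : s ^ K.θ ≤ 1 := by
  have h := g.hs.q5.2
  linarith only [h]

theorem rx (g : GivX K M s E η m) (hK : K.Ok) : s ^ 2 = K.r s * ((s ^ K.θ) ^ 6) ^ 2 := by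
  have h := g.hs.q0.1
  rw [← pow_mul, xpow h, Cst.r, hK.rexp, ← Real.rpow_add h, ← Real.rpow_natCast]
  congr 1
  push_cast
  ring

theorem l1 (g : GivX K M s E η m) : 1 ≤ 1 + Real.log (1 / s) := by
  have h := g.hs.q0.1
  have : 0 ≤ Real.log (1 / s) := Real.log_nonneg (by rw [le_div_iff₀ h]; linarith only [g.s1])
  linarith

theorem lw (g : GivX K M s E η m) (hK : K.Ok) :
    1 + Real.log (1 / wv s η m) ≤ K.Kl * (1 + Real.log (1 / s)) :=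
  lw_bound g.hs.q0.1 g.s1 hK.hcm.1 hK.hcm.2 g.w1

theorem w_half (g : GivX K M s E η m) (hK : K.Ok) : wv s η m ≤ 1 / 2 :=
  (g.w2 hK).trans g.hs.q1.2.1

theorem lw0 (g : GivX K M s E η m) (hK : K.Ok) : 1 ≤ 1 + Real.log (1 / wv s η m) := by
  have h := g.wpos hK
  have : 0 ≤ Real.log (1 / wv s η m) :=
    Real.log_nonneg (by rw [le_div_iff₀ h]; linarith only [g.w_half hK])
  linarith

theorem MK (g : GivX K M s E η m) (hK : K.Ok) : K.CK / (wv s η m) ^ 2 ≤ M :=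
  g.Mc hK g.w1 (by linarith [hK.hCK]) g.hs.q3.1

theorem MB (g : GivX K M s E η m) (hK : K.Ok) : K.CB / (wv s η m) ^ 2 ≤ M :=
  g.Mc hK g.w1 (by linarith [hK.hCB]) g.hs.q3.2.1

theorem MF (g : GivX K M s E η m) (hK : K.Ok) : K.CF / (wv s η m) ^ 2 ≤ M :=
  g.Mc hK g.w1 (by linarith [hK.hCF]) g.hs.q3.2.2.1

theorem MG (g : GivX K M s E η m) (hK : K.Ok) : K.CG / wv s η m ≤ M :=
  g.Mc1 hK g.w1 (by linarith [hK.hCG]) g.hs.q3.2.2.2.1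

/-- the bound for `B` -/
theorem bh_le (g : GivX K M s E η m) (hK : K.Ok) (F : Fac K) (p : Tor K.d M) :
    ‖bh (⟨E, η⟩ + ((s ^ 2 : ℝ) : ℂ) * m) p‖ ≤ K.CB * (K.Kl * (1 + Real.log (1 / s))) *
      (Real.sqrt K.Cw * (s ^ K.θ) ^ 6 + 2 * K.Cw * s ^ K.ε) / wv s η m := by
  have hs := g.hs.q0.1
  have hw := g.wpos hK
  have hr := g.rpos
  have hre := g.re_ge hK
  have h0 : 0 < s ^ (2 - K.ε) := by positivity
  have hd := hK.dpos
  have h4 : 4 * K.d * K.r s ≤ |(⟨E, η⟩ + ((s ^ 2 : ℝ) : ℂ) * m : ℂ).re| := by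
    have := g.hs.q15
    linarith only [hre, this]
  have hr1 : K.r s ≤ 1 := by linarith only [g.hs.q13]
  have h5 := F.bqb M (⟨E, η⟩ + ((s ^ 2 : ℝ) : ℂ) * m) (K.r s) p (by rw [g.imz]; exact hw)
    (by rw [g.imz]; exact g.w_half hK) (by rw [g.imz]; exact g.MB hK) hr hr1 h4
  rw [g.imz] at h5
  refine h5.trans ?_
  have h6 : Real.sqrt (wv s η m / K.r s) ≤ Real.sqrt K.Cw * (s ^ K.θ) ^ 6 :=
    sqrt_bound hw (g.w2 hK) hr (g.rx hK) g.xpos.le (le_refl _) (by linarith only [hK.Cwpos])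
  have h7 : 1 / |(⟨E, η⟩ + ((s ^ 2 : ℝ) : ℂ) * m : ℂ).re| ≤
      2 * K.Cw * s ^ K.ε / wv s η m := by
    have a1 : 0 < |(⟨E, η⟩ + ((s ^ 2 : ℝ) : ℂ) * m : ℂ).re| := by linarith only [hre, h0]
    rw [div_le_div_iff₀ a1 hw, one_mul]
    have a2 : s ^ 2 = s ^ K.ε * s ^ (2 - K.ε) := by
      rw [← Real.rpow_add hs, ← Real.rpow_natCast]
      congr 1
      push_cast
      ring
    have a3 : 0 < K.Cw := by linarith only [hK.Cwpos]
    calc wv s η m ≤ K.Cw * s ^ 2 := g.w2 hK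
      _ = 2 * K.Cw * s ^ K.ε * (s ^ (2 - K.ε) / 2) := by
          rw [a2]
          ring
      _ ≤ 2 * K.Cw * s ^ K.ε * |(⟨E, η⟩ + ((s ^ 2 : ℝ) : ℂ) * m : ℂ).re| := by gcongr
  have h8 : 0 ≤ K.CB := by linarith only [hK.hCB]
  have h9 := g.lw hK
  have h10 := g.lw0 hK
  have h11 : 0 ≤ K.Kl := by linarith only [hK.Klpos]
  have h12 : 0 ≤ 1 + Real.log (1 / s) := by linarith only [g.l1]
  calc K.CB * (1 + Real.log (1 / wv s η m)) * (Real.sqrt (wv s η m / K.r s) / wv s η m +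
        1 / |(⟨E, η⟩ + ((s ^ 2 : ℝ) : ℂ) * m : ℂ).re|)
      ≤ K.CB * (K.Kl * (1 + Real.log (1 / s))) *
        (Real.sqrt K.Cw * (s ^ K.θ) ^ 6 / wv s η m + 2 * K.Cw * s ^ K.ε / wv s η m) := by
        gcongr
    _ = _ := by ring

/-- `Im G₀ / w` -/
theorem kf0 (g : GivX K M s E η m) (hK : K.Ok) (kft : KftStmt) :
    kf (⟨E, η⟩ + ((s ^ 2 : ℝ) : ℂ) * m) (0 : Tor K.d M) = m.im / wv s η m := by
  obtain ⟨-, -, -, -, -, k6⟩ := kft K.d M (⟨E, η⟩ + ((s ^ 2 : ℝ) : ℂ) * m)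
    (by rw [g.imz]; exact g.wpos hK)
  rw [k6, g.imz, g.hm]

/-- the bound for `K` outside of the low momenta -/
theorem kf_high (g : GivX K M s E η m) (hK : K.Ok) (F : Fac K) (kft : KftStmt) {p : Tor K.d M}
    (hp : p ∉ low K.d M (Jv K s M)) (hJ : K.r s ≤ (Jv K s M : ℝ) / M) :
    |kf (⟨E, η⟩ + ((s ^ 2 : ℝ) : ℂ) * m) p| ≤
      (s ^ K.θ) ^ 3 / 8 * kf (⟨E, η⟩ + ((s ^ 2 : ℝ) : ℂ) * m) (0 : Tor K.d M) := by
  have hw := g.wpos hK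
  have hr := g.rpos
  obtain ⟨k1, -, -, -, -, -⟩ := kft K.d M (⟨E, η⟩ + ((s ^ 2 : ℝ) : ℂ) * m)
    (by rw [g.imz]; exact hw)
  rw [g.kf0 hK kft, k1 p]
  obtain ⟨i, hi⟩ := sin_low hp
  obtain ⟨h5, -⟩ := F.khb M (⟨E, η⟩ + ((s ^ 2 : ℝ) : ℂ) * m) p i (by rw [g.imz]; exact hw)
    (by rw [g.imz]; exact g.w_half hK) (by rw [g.imz]; exact g.MK hK)
  rw [g.imz] at h5
  have h6 : K.r s ≤ wv s η m + |Real.sin (Real.pi * ((p i).valMinAbs : ℝ) / M)| := by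
    have : 2 * (Jv K s M : ℝ) / M = 2 * ((Jv K s M : ℝ) / M) := by ring
    rw [this] at hi
    linarith only [hJ, hw, hr, hi]
  have h7 := sqrt_bound hw (g.w2 hK) hr (g.rx hK) g.xpos.le h6 (by linarith only [hK.Cwpos])
  have h8 : 0 ≤ K.CK := by linarith only [hK.hCK]
  have h9 := g.lw hK
  have h10 := g.lw0 hK
  have h11 : 0 ≤ K.Kl := by linarith only [hK.Klpos]
  have h12 : 0 ≤ 1 + Real.log (1 / s) := by linarith only [g.l1]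
  refine (Complex.abs_re_le_norm _).trans (h5.trans ?_)
  calc K.CK * (1 + Real.log (1 / wv s η m)) / wv s η m *
        Real.sqrt (wv s η m / (wv s η m + |Real.sin (Real.pi * ((p i).valMinAbs : ℝ) / M)|))
      ≤ K.CK * (K.Kl * (1 + Real.log (1 / s))) / wv s η m *
        (Real.sqrt K.Cw * (s ^ K.θ) ^ 6) := by gcongr
    _ = K.CK * K.Kl * (1 + Real.log (1 / s)) * (Real.sqrt K.Cw * (s ^ K.θ) ^ 6) / wv s η m := by
        ring
    _ ≤ K.cm * ((s ^ K.θ) ^ 3 / 8) / wv s η m := by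
        have := g.hs.q12
        gcongr
    _ ≤ (s ^ K.θ) ^ 3 / 8 * (m.im / wv s η m) := by
        have a1 := g.hm1
        have a2 : 0 ≤ (s ^ K.θ) ^ 3 / 8 := by
          have := g.xpos
          positivity
        have a3 : (s ^ K.θ) ^ 3 / 8 * (m.im / wv s η m) =
            m.im * ((s ^ K.θ) ^ 3 / 8) / wv s η m := by ring
        rw [a3]
        gcongr

/-- the number `J` -/
theorem Jb (g : GivX K M s E η m) (hK : K.Ok) : 1 ≤ Jv K s M ∧ K.r s ≤ (Jv K s M : ℝ) / M ∧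
    (Jv K s M : ℝ) / M ≤ 2 * K.r s := by
  have hs := g.hs.q0.1
  apply ceil_bound g.Mpos
  have h0 := hK.θpos
  calc (1 : ℝ) = s ^ (0 : ℝ) := (Real.rpow_zero s).symm
    _ ≤ s ^ (-(10 : ℝ) + (2 - K.ε / (2 * K.d))) := by
        apply Real.rpow_le_rpow_of_exponent_ge hs g.s1
        rw [hK.rexp]
        linarith only [h0]
    _ = s ^ (-(10 : ℝ)) * K.r s := Real.rpow_add hs _ _
    _ ≤ M * K.r s := by
        have := g.M10
        have := g.rpos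
        gcongr

end GivX

end Pool.Agent.LE.QX.H68
end
end -- Pool.Agent.Helper68_LQX.INIb

section -- Pool.Agent.Helper68_LQX.INIc

/-!
# The parameters (stretched exponential version): `Adm` and the errors
-/

set_option autoImplicit false

open MeasureTheory ProbabilityTheory Function Filter

open scoped ENNReal BigOperators Topology NNReal ComplexOrder Matrix

noncomputable section

namespace Pool.Agent.LE.QX.H68

open Pool.Agent.Anderson hiding box mem_box card_box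
open Pool.Agent.Loc Pool.Agent.Mob Pool.Agent.Helper54.Bal
  Pool.Agent.Helper96.EXP Pool.Agent.BED
open Pool.Agent.LE.MN Pool.Agent.LE.CL Pool.Agent.LE.IR Pool.Agent.LE.QD Pool.Agent.LE.QF
open Pool.Agent.LE.QF.H68

section Mk

variable (K : Cst) (M : ℕ) [NeZero M] (s E η : ℝ) (m : ℂ)

theorem mx_w : (mkX K s E η m M).w = wv s η m := by
  simp [Dat.w, Dat.kp, mkX, wv]

theorem mx_zt : (mkX K s E η m M).zt 0 = ⟨E, η⟩ + ((s ^ 2 : ℝ) : ℂ) * m := by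
  simp [Dat.zt, mkX]

theorem mx_ta : (mkX K s E η m M).ta 0 = wv s η m / m.im := by
  simp [Dat.ta, Dat.kp, mkX, wv]

theorem mx_G0 : (mkX K s E η m M).G0 = rs 0 (⟨E, η⟩ + ((s ^ 2 : ℝ) : ℂ) * m) := by
  unfold Dat.G0
  rw [mx_zt]

theorem mx_G : (mkX K s E η m M).G 0 = rs 0 (⟨E, η⟩ + ((s ^ 2 : ℝ) : ℂ) * m) := by
  unfold Dat.G
  rw [Prod.snd_zero, Prod.fst_zero, mx_zt]

end Mk

variable {K : Cst} {M : ℕ} [NeZero M] {s E η : ℝ} {m : ℂ}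

namespace GivX

theorem mpos (g : GivX K M s E η m) (hK : K.Ok) : 0 < m.im := lt_of_lt_of_le hK.hcm.1 g.hm1

theorem m_diag (g : GivX K M s E η m) (hK : K.Ok) (ral : RalStmt) (a : Tor K.d M) :
    rs (0 : Tor K.d M → ℝ) (⟨E, η⟩ + ((s ^ 2 : ℝ) : ℂ) * m) a a = m := by
  have h : 0 < (⟨E, η⟩ + ((s ^ 2 : ℝ) : ℂ) * m : ℂ).im := by
    rw [g.imz]
    exact g.wpos hK
  rw [rs_diag ral _ h, ← rs_diag ral _ h (0 : Tor K.d M)]
  exact g.hm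

/-- the logarithm of `M` -/
theorem logM (g : GivX K M s E η m) : Real.log M ≤ 3 * s ^ (-(K.θ / 8)) := by
  have hs := g.hs.q0.1
  have hM := g.Mpos
  have hη := g.ηpos
  have h1 : (M : ℝ) ≤ (s ^ 6 * η ^ 2)⁻¹ := by
    rw [le_inv_comm₀ hM (by positivity), inv_eq_one_div, le_div_iff₀ hM]
    exact g.hM2
  have h2 : Real.log M ≤ Real.log ((s ^ 6 * η ^ 2)⁻¹) := Real.log_le_log hM h1
  have h3 : Real.log ((s ^ 6 * η ^ 2)⁻¹) = 6 * Real.log (1 / s) - 2 * Real.log η := by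
    rw [Real.log_inv, Real.log_mul (by positivity) (by positivity), Real.log_pow, Real.log_pow,
      one_div, Real.log_inv]
    push_cast
    ring
  have h4 : -(s ^ (-(K.θ / 8))) ≤ Real.log η := by
    rw [Real.le_log_iff_exp_le hη]
    exact g.hη1
  have h5 := g.hs.z1
  linarith only [h2, h3, h4, h5]

theorem ypos (g : GivX K M s E η m) : 0 < s ^ (K.θ / 8) := by
  have := g.hs.q0.1
  positivity

theorem xy (g : GivX K M s E η m) : s ^ K.θ = (s ^ (K.θ / 8)) ^ 8 := by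
  rw [xpow g.hs.q0.1]
  congr 1
  push_cast
  ring

theorem y1 (g : GivX K M s E η m) (hK : K.Ok) : s ^ (K.θ / 8) ≤ 1 := by
  apply Real.rpow_le_one g.hs.q0.1.le g.s1
  have := hK.θpos
  positivity

theorem Yy (g : GivX K M s E η m) : s ^ (-(K.θ / 8)) = (s ^ (K.θ / 8))⁻¹ :=
  Real.rpow_neg g.hs.q0.1.le _

theorem Md (g : GivX K M s E η m) :
    (M : ℝ) ^ K.d ≤ Real.exp (3 * K.d * (s ^ (K.θ / 8))⁻¹) := by
  have hM := g.Mpos
  have h1 := g.logM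
  rw [g.Yy] at h1
  have h2 : (M : ℝ) ≤ Real.exp (3 * (s ^ (K.θ / 8))⁻¹) := by
    rw [← Real.log_le_iff_le_exp hM]
    exact h1
  calc (M : ℝ) ^ K.d ≤ (Real.exp (3 * (s ^ (K.θ / 8))⁻¹)) ^ K.d := by gcongr
    _ = Real.exp (3 * K.d * (s ^ (K.θ / 8))⁻¹) := by
        rw [← Real.exp_nat_mul]
        congr 1
        ring

theorem hk (g : GivX K M s E η m) (hK : K.Ok) :
    1 ≤ ⌈((s ^ (K.θ / 8)) ^ 2)⁻¹⌉₊ ∧
    (⌈((s ^ (K.θ / 8)) ^ 2)⁻¹⌉₊ : ℝ) * (s ^ K.θ) ^ 5 ≤ K.c₀ ∧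
    (M : ℝ) ^ K.d * ((s ^ K.θ) ^ 3) ^ (2 * ⌈((s ^ (K.θ / 8)) ^ 2)⁻¹⌉₊) ≤ 1 / 4 := by
  have hs := g.hs.q0.1
  have hy := g.ypos
  have hy1 := g.y1 hK
  have h1 : 1 ≤ ((s ^ (K.θ / 8)) ^ 2)⁻¹ := by
    rw [one_le_inv₀ (by positivity)]
    exact pow_le_one₀ hy.le hy1
  have h2 : ((s ^ (K.θ / 8)) ^ 2)⁻¹ ≤ (⌈((s ^ (K.θ / 8)) ^ 2)⁻¹⌉₊ : ℝ) := Nat.le_ceil _
  have h3 : (⌈((s ^ (K.θ / 8)) ^ 2)⁻¹⌉₊ : ℝ) ≤ 2 * ((s ^ (K.θ / 8)) ^ 2)⁻¹ := by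
    have := Nat.ceil_lt_add_one (by positivity : 0 ≤ ((s ^ (K.θ / 8)) ^ 2)⁻¹)
    linarith only [h1, this]
  refine ⟨?_, ?_, ?_⟩
  · have : (1 : ℝ) ≤ (⌈((s ^ (K.θ / 8)) ^ 2)⁻¹⌉₊ : ℝ) := h1.trans h2
    exact_mod_cast this
  · rw [g.xy]
    calc (⌈((s ^ (K.θ / 8)) ^ 2)⁻¹⌉₊ : ℝ) * ((s ^ (K.θ / 8)) ^ 8) ^ 5
        ≤ 2 * ((s ^ (K.θ / 8)) ^ 2)⁻¹ * ((s ^ (K.θ / 8)) ^ 8) ^ 5 := by gcongr
      _ = 2 * (s ^ (K.θ / 8)) ^ 38 := by field_simp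
      _ ≤ K.c₀ := g.hs.z2
  · generalize (⌈((s ^ (K.θ / 8)) ^ 2)⁻¹⌉₊) = k at h2 h3
    have h4 := g.Md
    have hl : 1 ≤ Real.log (1 / s) := by
      have a1 : Real.exp 1 ≤ 1 / s := by
        have := Real.exp_one_lt_d9
        have h5 := g.hs.q0.2
        rw [le_div_iff₀ hs]
        nlinarith only [hs, this, h5]
      rw [Real.le_log_iff_exp_le (by positivity)]
      exact a1
    have h5 : ((s ^ K.θ) ^ 3) ^ (2 * k) ≤ Real.exp (-(6 * K.θ * ((s ^ (K.θ / 8)) ^ 2)⁻¹)) := by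
      have a1 : ((s ^ K.θ) ^ 3) ^ (2 * k) = s ^ (6 * K.θ * k) := by
        rw [← pow_mul, xpow hs]
        congr 1
        push_cast
        ring
      have hθ := hK.θpos
      rw [a1, Real.rpow_def_of_pos hs]
      apply Real.exp_le_exp.2
      have a2 : Real.log s = -Real.log (1 / s) := by
        rw [one_div, Real.log_inv]
        ring
      rw [a2]
      have a3 : 6 * K.θ * ((s ^ (K.θ / 8)) ^ 2)⁻¹ ≤ Real.log (1 / s) * (6 * K.θ * k) := by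
        calc 6 * K.θ * ((s ^ (K.θ / 8)) ^ 2)⁻¹ ≤ 6 * K.θ * k := by gcongr
          _ = 1 * (6 * K.θ * k) := (one_mul _).symm
          _ ≤ Real.log (1 / s) * (6 * K.θ * k) := by gcongr
      linarith only [a3]
    calc (M : ℝ) ^ K.d * ((s ^ K.θ) ^ 3) ^ (2 * k)
        ≤ Real.exp (3 * K.d * (s ^ (K.θ / 8))⁻¹) *
          Real.exp (-(6 * K.θ * ((s ^ (K.θ / 8)) ^ 2)⁻¹)) := by gcongr
      _ = Real.exp (3 * K.d * (s ^ (K.θ / 8))⁻¹ + -(6 * K.θ * ((s ^ (K.θ / 8)) ^ 2)⁻¹)) := by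
          rw [Real.exp_add]
      _ ≤ Real.exp (-2) := by
          apply Real.exp_le_exp.2
          have b1 := g.hs.z3
          have b2 : (3 * K.d + 2) * (s ^ (K.θ / 8))⁻¹ ≤ 6 * K.θ * ((s ^ (K.θ / 8)) ^ 2)⁻¹ := by
            calc (3 * K.d + 2) * (s ^ (K.θ / 8))⁻¹
                = (3 * K.d + 2) * s ^ (K.θ / 8) * ((s ^ (K.θ / 8)) ^ 2)⁻¹ := by field_simp
              _ ≤ 6 * K.θ * ((s ^ (K.θ / 8)) ^ 2)⁻¹ := by gcongr
          have b3 : 1 ≤ (s ^ (K.θ / 8))⁻¹ := by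
            rw [one_le_inv₀ hy]
            exact hy1
          linarith only [b2, b3]
      _ ≤ 1 / 4 := by
          rw [Real.exp_neg, one_div]
          apply inv_anti₀ (by norm_num)
          have c1 := Real.exp_one_gt_d9
          have c2 : Real.exp 2 = Real.exp 1 * Real.exp 1 := by
            rw [← Real.exp_add]
            norm_num
          rw [c2]
          nlinarith only [c1]

theorem xi (g : GivX K M s E η m) (n : ℕ) : 1 ≤ ((s ^ K.θ) ^ n)⁻¹ := by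
  have hx := g.xpos
  have hx1 := g.x1
  rw [one_le_inv₀ (by positivity)]
  exact pow_le_one₀ hx.le hx1

theorem Npos (g : GivX K M s E η m) (hK : K.Ok) :
    1 ≤ K.CF * (wv s η m) ^ (-(2 / 3 : ℝ)) * (1 + Real.log M) ^ 6 := by
  have h1 := hK.hCF
  have h2 : 1 ≤ (wv s η m) ^ (-(2 / 3 : ℝ)) := by
    apply Real.one_le_rpow_of_pos_of_le_one_of_nonpos (g.wpos hK)
    · linarith only [g.w_half hK]
    · norm_num
  have h3 : 1 ≤ (1 + Real.log M) ^ 6 := by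
    apply one_le_pow₀
    have := Real.log_nonneg g.M1
    linarith only [this]
  calc (1 : ℝ) = 1 * 1 * 1 := by norm_num
    _ ≤ _ := by gcongr

theorem jlow (g : GivX K M s E η m) : 2 ≤ ⌈(s ^ K.θ)⁻¹⌉₊ ∧ 2 ≤ ⌈((s ^ K.θ) ^ 4)⁻¹⌉₊ := by
  have hx := g.xpos
  have hx8 := g.hs.q5.2
  have h1 : 8 ≤ (s ^ K.θ)⁻¹ := by
    rw [le_inv_comm₀ (by norm_num) hx]
    linarith only [hx8]
  have h2 : 8 ≤ ((s ^ K.θ) ^ 4)⁻¹ := by
    refine h1.trans ?_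
    apply inv_anti₀ (by positivity)
    calc (s ^ K.θ) ^ 4 ≤ (s ^ K.θ) ^ 1 := pow_le_pow_of_le_one hx.le g.x1 (by norm_num)
      _ = s ^ K.θ := pow_one _
  constructor
  · have := h1.trans (Nat.le_ceil (s ^ K.θ)⁻¹)
    have h3 : (8 : ℕ) ≤ ⌈(s ^ K.θ)⁻¹⌉₊ := by exact_mod_cast this
    omega
  · have := h2.trans (Nat.le_ceil ((s ^ K.θ) ^ 4)⁻¹)
    have h3 : (8 : ℕ) ≤ ⌈((s ^ K.θ) ^ 4)⁻¹⌉₊ := by exact_mod_cast this
    omega

theorem hYm (g : GivX K M s E η m) (hK : K.Ok) (F : Fac K) (kft : KftStmt)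
    (u : Tor K.d M → ℂ) : n2 ((mkX K s E η m M).Y 0 *ᵥ u) ≤ ((s ^ K.θ) ^ 3 / 2) ^ 2 * n2 u := by
  have hw := g.wpos hK
  have hx := g.xpos
  have hs := g.hs.q0.1
  have hm := g.mpos hK
  obtain ⟨-, -, k3, -, -, -⟩ := kft K.d M (⟨E, η⟩ + ((s ^ 2 : ℝ) : ℂ) * m)
    (by rw [g.imz]; exact hw)
  have h11 : 0 ≤ K.Kl := by linarith [hK.Klpos]
  have h12 : 0 ≤ 1 + Real.log (1 / s) := by linarith only [g.l1]
  have h13 : 0 ≤ K.CB := by linarith [hK.hCB]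
  have h14 : 0 < K.Cw := by linarith [hK.Cwpos]
  have h15 : 0 < K.cm := hK.hcm.1
  set β : ℝ := K.CB * (K.Kl * (1 + Real.log (1 / s))) *
      (Real.sqrt K.Cw * (s ^ K.θ) ^ 6 + 2 * K.Cw * s ^ K.ε) / wv s η m with hβ
  have hβ0 : 0 ≤ β := by positivity
  have h1 := k3 β u fun p => g.bh_le hK F p
  unfold Dat.Y
  rw [Prod.fst_zero, mx_ta, mx_G]
  refine hY_of _ (wv s η m / m.im) β _ (by positivity) hβ0 ?_ u h1
  calc wv s η m / m.im * β ≤ wv s η m / K.cm * β := by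
        have := g.hm1
        gcongr
    _ = K.CB * K.Kl / K.cm * (1 + Real.log (1 / s)) *
        (Real.sqrt K.Cw * (s ^ K.θ) ^ 6 + 2 * K.Cw * s ^ K.ε) := by
        rw [hβ]
        field_simp
    _ ≤ (s ^ K.θ) ^ 3 / 2 := g.hs.q11

theorem hWm (g : GivX K M s E η m) (hK : K.Ok) (F : Fac K) (kft : KftStmt) (inw : InwStmt)
    (hcs : 2 * K.Cm ≤ K.cG * K.cs) (f : Tor K.d M → ℝ) :
    (1 + (s ^ K.θ) ^ 3 / 2) * qf ((mkX K s E η m M).A 0)⁻¹ f ≤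
      qf ((mkX K s E η m M).X 0 + P0 (Tor K.d M)) f := by
  have hw := g.wpos hK
  have hx := g.xpos
  have hx1 := g.x1
  have hm := g.mpos hK
  have hz : 0 < (⟨E, η⟩ + ((s ^ 2 : ℝ) : ℂ) * m : ℂ).im := by
    rw [g.imz]
    exact hw
  obtain ⟨hJ1, hJ2, hJ3⟩ := g.Jb hK
  have hcs1 := hK.hcs
  have hx3 : 0 < (s ^ K.θ) ^ 3 := by positivity
  have hx31 : (s ^ K.θ) ^ 3 ≤ 1 := pow_le_one₀ hx.le hx1
  have h := inw K.d M (⟨E, η⟩ + ((s ^ 2 : ℝ) : ℂ) * m) (Jv K s M) K.cs (1 + (s ^ K.θ) ^ 3)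
    (1 + (s ^ K.θ) ^ 3 / 2) ((s ^ K.θ) ^ 3 / 8) K.cG (wv s η m / m.im) hz (by positivity)
    (by
      rw [g.kf0 hK kft]
      field_simp)
    hK.hcG (by linarith only [hcs1]) (by positivity) (by nlinarith only [hx3, hx31]) (by positivity) (by linarith only [hx31])
    (by positivity)
    (by
      rw [g.imz, mul_div_assoc', le_div_iff₀ hm]
      have h2 := g.hm2
      calc 2 * wv s η m * m.im ≤ 2 * wv s η m * K.Cm := by gcongr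
        _ = 2 * K.Cm * wv s η m := by ring
        _ ≤ K.cG * K.cs * wv s η m := by gcongr)
    (fun p hp => g.kf_high hK F kft hp hJ2)
    (fun p hp => F.gal M _ p (g.re_le hK) hz
      (by rw [g.imz]; exact (g.w2 hK).trans g.hs.q1.2.2) (by rw [g.imz]; exact g.MG hK)
      (fun i => by
        have a1 := abs_low hp i
        have a2 := g.Mpos
        rw [div_le_iff₀ a2] at hJ3
        have a3 := g.hs.q13
        nlinarith only [hJ3, a1, a3])) f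
  rw [g.imz] at h
  unfold Dat.A Dat.X
  rw [mx_ta, Prod.fst_zero, mx_ta, mx_G]
  exact h

theorem hϖm (g : GivX K M s E η m) (hK : K.Ok) (F : Fac K) (f : Tor K.d M → ℝ) :
    (s ^ K.θ) ^ 5 / ((2 + 2 * K.cs / K.cm) * (M : ℝ) ^ 2) * qf ((mkX K s E η m M).A 0) f ≤
      (s ^ K.θ) ^ 5 * ∑ a, f a ^ 2 := by
  have hw := g.wpos hK
  have hx := g.xpos
  have hx1 := g.x1
  have hm := g.mpos hK
  have hcm := hK.hcm.1
  have hcs : 0 < K.cs := by linarith [hK.hcs]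
  have hM := g.Mpos
  have hM1 := g.M1
  obtain ⟨hJ1, hJ2, hJ3⟩ := g.Jb hK
  obtain ⟨-, -, k3⟩ := F.inm M (Jv K s M) K.cs (wv s η m) _ _ hJ1 hK.hcs hw
    (by linarith only [g.w_half hK]) rfl rfl
  have hf0 : 0 ≤ ∑ a, f a ^ 2 := Finset.sum_nonneg fun _ _ => by positivity
  have hx31 : (s ^ K.θ) ^ 3 ≤ 1 := pow_le_one₀ hx.le hx1
  have hM2 : 1 ≤ (M : ℝ) ^ 2 := one_le_pow₀ hM1
  have h1 : qf ((mkX K s E η m M).A 0) f ≤
      (2 + 2 * K.cs / K.cm) * (M : ℝ) ^ 2 * ∑ a, f a ^ 2 := by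
    unfold Dat.A
    rw [mx_ta, qf_add_smul]
    have a1 : wv s η m / m.im * qf (mkX K s E η m M).S f ≤
        2 * K.cs / K.cm * (M : ℝ) ^ 2 * ∑ a, f a ^ 2 := by
      calc wv s η m / m.im * qf (mkX K s E η m M).S f
          ≤ wv s η m / m.im * (2 * K.cs / wv s η m * (M : ℝ) ^ 2 * ∑ a, f a ^ 2) := by
            have := k3 f
            gcongr
            exact this
        _ = 2 * K.cs / m.im * (M : ℝ) ^ 2 * ∑ a, f a ^ 2 := by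
            field_simp
        _ ≤ 2 * K.cs / K.cm * (M : ℝ) ^ 2 * ∑ a, f a ^ 2 := by
            have := g.hm1
            gcongr
    have a2 : (mkX K s E η m M).e₀ * ∑ a, f a ^ 2 ≤ 2 * (M : ℝ) ^ 2 * ∑ a, f a ^ 2 := by
      have : (mkX K s E η m M).e₀ ≤ 2 * (M : ℝ) ^ 2 := by
        show 1 + (s ^ K.θ) ^ 3 ≤ 2 * (M : ℝ) ^ 2
        linarith only [hx31, hM2]
      gcongr
    linarith
  calc (s ^ K.θ) ^ 5 / ((2 + 2 * K.cs / K.cm) * (M : ℝ) ^ 2) * qf ((mkX K s E η m M).A 0) f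
      ≤ (s ^ K.θ) ^ 5 / ((2 + 2 * K.cs / K.cm) * (M : ℝ) ^ 2) *
        ((2 + 2 * K.cs / K.cm) * (M : ℝ) ^ 2 * ∑ a, f a ^ 2) := by gcongr
    _ = (s ^ K.θ) ^ 5 * ∑ a, f a ^ 2 := by
        field_simp

/-- the number of the near points -/
theorem hNm (g : GivX K M s E η m)
    (hfrb : ∀ x : Tor K.d M,
      (∀ y, ‖rs (0 : Tor K.d M → ℝ) (⟨E, η⟩ + ((s ^ 2 : ℝ) : ℂ) * m) x y‖ ≤ K.CF) ∧
      ∑ y, ‖rs (0 : Tor K.d M → ℝ) (⟨E, η⟩ + ((s ^ 2 : ℝ) : ℂ) * m) x y‖ ^ 4 ≤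
        K.CF * (wv s η m) ^ (-(2 / 3 : ℝ)) * (1 + Real.log M) ^ 6) (a : Tor K.d M) :
    (((mkX K s E η m M).nr a).card : ℝ) ≤ (mkX K s E η m M).N := by
  have hx := g.xpos
  have h := (hfrb a).2
  have hδ : 0 < (mkX K s E η m M).δ := by
    show 0 < (s ^ K.θ) ^ 5
    positivity
  have hN : (mkX K s E η m M).N = ((mkX K s E η m M).δ ^ 4)⁻¹ *
    (K.CF * (wv s η m) ^ (-(2 / 3 : ℝ)) * (1 + Real.log M) ^ 6) := rfl
  rw [hN]
  refine nr_card (fun b => (mkX K s E η m M).G0 a b) hδ _ ?_ ?_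
  · intro b hb
    unfold Dat.nr at hb
    rw [Finset.mem_filter] at hb
    exact hb.2
  · rw [mx_G0]
    exact h

/-- the initial value of `La` -/
theorem hLm (g : GivX K M s E η m) (hK : K.Ok)
    (hfrb : ∀ x : Tor K.d M,
      (∀ y, ‖rs (0 : Tor K.d M → ℝ) (⟨E, η⟩ + ((s ^ 2 : ℝ) : ℂ) * m) x y‖ ≤ K.CF) ∧
      ∑ y, ‖rs (0 : Tor K.d M → ℝ) (⟨E, η⟩ + ((s ^ 2 : ℝ) : ℂ) * m) x y‖ ^ 4 ≤
        K.CF * (wv s η m) ^ (-(2 / 3 : ℝ)) * (1 + Real.log M) ^ 6) (a : Tor K.d M) :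
    4 * (mkX K s E η m M).La 0 a ≤ (mkX K s E η m M).Ls 0 := by
  have hs := g.hs.q0.1
  have hw := g.wpos hK
  have hx := g.xpos
  have hx1 := g.x1
  have h1 : (mkX K s E η m M).La 0 a =
      ∑ b, ‖rs (0 : Tor K.d M → ℝ) (⟨E, η⟩ + ((s ^ 2 : ℝ) : ℂ) * m) a b‖ ^ 4 := by
    unfold Dat.La KK
    rw [mx_G]
    refine Finset.sum_congr rfl fun b _ => ?_
    ring
  have h2 : (mkX K s E η m M).La 0 a ≤
      K.CF * (wv s η m) ^ (-(2 / 3 : ℝ)) * (1 + Real.log M) ^ 6 := by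
    rw [h1]
    exact (hfrb a).2
  have hLL := g.Npos hK
  have hls : (mkX K s E η m M).Ls 0 = ((s ^ K.θ) ^ 6)⁻¹ * ((((s ^ K.θ) ^ 5) ^ 4)⁻¹ *
      (K.CF * (wv s η m) ^ (-(2 / 3 : ℝ)) * (1 + Real.log M) ^ 6) +
        s ^ 3 / wv s η m +
        ((s ^ K.θ) ^ 5) ^ 4 / wv s η m) := by
    have a0 : (mkX K s E η m M).kp 0 = wv s η m := mx_w K M s E η m
    unfold Dat.Ls
    rw [a0]
    rfl
  rw [hls]
  generalize K.CF * (wv s η m) ^ (-(2 / 3 : ℝ)) * (1 + Real.log M) ^ 6 = LL1 at h2 hLL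
  have hN : 1 ≤ (((s ^ K.θ) ^ 5) ^ 4)⁻¹ := by
    rw [← pow_mul]
    exact g.xi 20
  have hNN : LL1 ≤ (((s ^ K.θ) ^ 5) ^ 4)⁻¹ * LL1 := le_mul_of_one_le_left (by linarith only [hLL]) hN
  have h3 : 4 ≤ ((s ^ K.θ) ^ 6)⁻¹ := by
    rw [le_inv_comm₀ (by norm_num) (by positivity)]
    have h8 := g.hs.q5.2
    calc (s ^ K.θ) ^ 6 ≤ (s ^ K.θ) ^ 1 := pow_le_pow_of_le_one hx.le hx1 (by norm_num)
      _ = s ^ K.θ := pow_one _
      _ ≤ 4⁻¹ := by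
          norm_num at h8 ⊢
          linarith only [hx, h8]
  have a3 : 0 ≤ s ^ 3 / wv s η m := by positivity
  have a4 : 0 ≤ ((s ^ K.θ) ^ 5) ^ 4 / wv s η m := by positivity
  have h5 : 4 * LL1 ≤ ((s ^ K.θ) ^ 6)⁻¹ * ((((s ^ K.θ) ^ 5) ^ 4)⁻¹ * LL1) := by
    have : 0 ≤ LL1 := by linarith only [hLL]
    gcongr
  have h6 : ((s ^ K.θ) ^ 6)⁻¹ * ((((s ^ K.θ) ^ 5) ^ 4)⁻¹ * LL1) ≤
      ((s ^ K.θ) ^ 6)⁻¹ * ((((s ^ K.θ) ^ 5) ^ 4)⁻¹ * LL1 +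
        s ^ 3 / wv s η m +
        ((s ^ K.θ) ^ 5) ^ 4 / wv s η m) := by
    apply mul_le_mul_of_nonneg_left _ (by positivity)
    linarith only [a3, a4]
  linarith

/-- the diagonal of `S` -/
theorem hSm (g : GivX K M s E η m) (hK : K.Ok)
    (h : ∀ a : Tor K.d M, wv s η m * mlt (sy0 K.cs (wv s η m) (Jv K s M)) a a ≤
      K.CI * K.cs * (((Jv K s M : ℝ) / M) ^ K.d +
        (wv s η m) ^ 2 * ((Jv K s M : ℝ) / M) ^ (K.d - 2))) (a : Tor K.d M) :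
    mlt (sy0 K.cs (wv s η m) (Jv K s M)) a a + 1 / (η * (M : ℝ) ^ K.d) ≤ s ^ 3 := by
  have hs := g.hs.q0.1
  have hw := g.wpos hK
  have hη := g.ηpos
  have hM := g.Mpos
  have hM1 := g.M1
  have hcm := hK.hcm.1
  have hcs0 : 0 < K.cs := by linarith [hK.hcs]
  have hCI0 : 0 < K.CI := by linarith [hK.hCI]
  have hCw : 2 ≤ K.Cw := hK.Cwpos
  have hd := hK.dpos
  have hε := hK.hε.1
  have hε1 := hK.hε.2
  obtain ⟨hJ1, hJ2, hJ3⟩ := g.Jb hK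
  have h1 := pi_bound (η := s ^ (2 * (K.d : ℝ) - K.ε)) hK.hd hs g.s1 hε hCI0.le hcs0.le
    (by linarith only [hCw]) hw.le (g.w2 hK) rfl (r := K.r s) rfl (by positivity) hJ3
  have h0 : 0 < s ^ (2 * (K.d : ℝ) - K.ε) := by positivity
  rw [div_le_iff₀ h0] at h1
  have h2 := (h a).trans h1
  have h3 : mlt (sy0 K.cs (wv s η m) (Jv K s M)) a a ≤
      K.CI * K.cs * 2 ^ K.d * (4 + K.Cw ^ 2) / K.cm * s ^ (1 / 2 : ℝ) * s ^ 3 := by
    have a1 : mlt (sy0 K.cs (wv s η m) (Jv K s M)) a a ≤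
        K.CI * K.cs * 2 ^ K.d * (4 + K.Cw ^ 2) * s ^ (K.ε / 2) * s ^ (2 * (K.d : ℝ) - K.ε) /
          wv s η m := by
      rw [le_div_iff₀ hw, mul_comm]
      exact h2
    have a2 : s ^ (K.ε / 2) * s ^ (2 * (K.d : ℝ) - K.ε) ≤ s ^ (1 / 2 : ℝ) * s ^ 3 * s ^ 2 := by
      have e1 : s ^ (1 / 2 : ℝ) * s ^ 3 * s ^ 2 = s ^ (11 / 2 : ℝ) := by
        rw [← Real.rpow_natCast s 3, ← Real.rpow_natCast s 2, ← Real.rpow_add hs,
          ← Real.rpow_add hs]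
        norm_num
      rw [e1, ← Real.rpow_add hs]
      apply Real.rpow_le_rpow_of_exponent_ge hs g.s1
      linarith only [hd, hε1]
    refine a1.trans ?_
    rw [div_le_iff₀ hw]
    calc K.CI * K.cs * 2 ^ K.d * (4 + K.Cw ^ 2) * s ^ (K.ε / 2) * s ^ (2 * (K.d : ℝ) - K.ε)
        = K.CI * K.cs * 2 ^ K.d * (4 + K.Cw ^ 2) *
          (s ^ (K.ε / 2) * s ^ (2 * (K.d : ℝ) - K.ε)) := by ring
      _ ≤ K.CI * K.cs * 2 ^ K.d * (4 + K.Cw ^ 2) * (s ^ (1 / 2 : ℝ) * s ^ 3 * s ^ 2) := by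
          gcongr
      _ = K.CI * K.cs * 2 ^ K.d * (4 + K.Cw ^ 2) / K.cm * s ^ (1 / 2 : ℝ) * s ^ 3 *
          (K.cm * s ^ 2) := by field_simp
      _ ≤ K.CI * K.cs * 2 ^ K.d * (4 + K.Cw ^ 2) / K.cm * s ^ (1 / 2 : ℝ) * s ^ 3 *
          wv s η m := by
          have := g.w1
          gcongr
  have h4 : 1 / (η * (M : ℝ) ^ K.d) ≤ s * s ^ 3 := by
    have a1 : (M : ℝ) ≤ (M : ℝ) ^ K.d := le_self_pow₀ hM1 (by have := hK.hd; omega)
    have a2 : η ≤ 1 := by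
      calc η ≤ s ^ 3 := g.hη2
        _ ≤ 1 := pow_le_one₀ hs.le g.s1
    rw [div_le_iff₀ (by positivity)]
    calc (1 : ℝ) ≤ s ^ 4 * η ^ 2 * M := g.hM1
      _ = s * s ^ 3 * (η * η * M) := by ring
      _ ≤ s * s ^ 3 * (η * 1 * (M : ℝ) ^ K.d) := by gcongr
      _ = s * s ^ 3 * (η * (M : ℝ) ^ K.d) := by ring
  have h5 := g.hs.z5
  have hs3 : 0 < s ^ 3 := by positivity
  calc mlt (sy0 K.cs (wv s η m) (Jv K s M)) a a + 1 / (η * (M : ℝ) ^ K.d)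
      ≤ K.CI * K.cs * 2 ^ K.d * (4 + K.Cw ^ 2) / K.cm * s ^ (1 / 2 : ℝ) * s ^ 3 + s * s ^ 3 :=
        add_le_add h3 h4
    _ = (K.CI * K.cs * 2 ^ K.d * (4 + K.Cw ^ 2) / K.cm * s ^ (1 / 2 : ℝ) + s) * s ^ 3 := by ring
    _ ≤ 1 * s ^ 3 := by gcongr
    _ = s ^ 3 := one_mul _

/-- the hypotheses -/
theorem adm (g : GivX K M s E η m) (hK : K.Ok) (F : Fac K) (kft : KftStmt) (inw : InwStmt)
    (ral : RalStmt) (hcs : 2 * K.Cm ≤ K.cG * K.cs) :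
    Adm (mkX K s E η m M) K.cm (max K.Cm K.CF) K.c₀ := by
  have hs := g.hs.q0.1
  have hw := g.wpos hK
  have hx := g.xpos
  have hx1 := g.x1
  have hm := g.mpos hK
  have hcm := hK.hcm.1
  have hcs0 : 0 < K.cs := by linarith only [hK.hcs]
  have hCI0 : 0 < K.CI := by linarith [hK.hCI]
  have hM := g.Mpos
  have hM1 := g.M1
  obtain ⟨hJ1, hJ2, hJ3⟩ := g.Jb hK
  have hx3 : 0 < (s ^ K.θ) ^ 3 := by positivity
  have hx31 : (s ^ K.θ) ^ 3 ≤ 1 := pow_le_one₀ hx.le hx1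
  have hzi : 0 < (⟨E, η⟩ + ((s ^ 2 : ℝ) : ℂ) * m : ℂ).im := by
    rw [g.imz]
    exact hw
  have hfrb := F.frb M (⟨E, η⟩ + ((s ^ 2 : ℝ) : ℂ) * m) hzi
    (by rw [g.imz]; linarith only [g.w_half hK]) (by rw [g.imz]; exact g.MF hK)
  rw [g.imz] at hfrb
  obtain ⟨k1, k2, k3⟩ := F.inm M (Jv K s M) K.cs (wv s η m) _ _ hJ1 hK.hcs hw
    (by linarith only [g.w_half hK]) rfl rfl
  set LL1 : ℝ := K.CF * (wv s η m) ^ (-(2 / 3 : ℝ)) * (1 + Real.log M) ^ 6 with hLL1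
  have hLL : 1 ≤ LL1 := g.Npos hK
  have hN : 1 ≤ (((s ^ K.θ) ^ 5) ^ 4)⁻¹ := by
    rw [← pow_mul]
    exact g.xi 20
  have hNN : LL1 ≤ (((s ^ K.θ) ^ 5) ^ 4)⁻¹ * LL1 := le_mul_of_one_le_left (by linarith only [hLL]) hN
  refine
    { hT := ⟨by show 0 < s ^ 2; positivity, g.ηpos, ?_, g.ηT hK⟩
      hm := ⟨g.hm1, g.hm2.trans (le_max_left _ _)⟩
      hfix := ?_
      hδ := ⟨by show 0 < (s ^ K.θ) ^ 5; positivity, ?_, g.hs.q5.1⟩
      hk := g.hk hK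
      he := ⟨?_, ?_, ?_⟩
      hj := ⟨g.jlow.1, g.jlow.2, g.xi 6, ?_, ?_⟩
      h0 := ?_
      hN := ?_
      hY := g.hYm hK F kft
      hL := ?_
      hS := ⟨k1.1, k1.2.1, k1.2.2.1, ?_⟩
      hϖ := ⟨?_, ?_, g.hϖm hK F⟩
      hW := g.hWm hK F kft inw hcs }
  · rw [mx_w]
    linarith only [g.w_half hK]
  · intro a
    rw [mx_G0]
    exact g.m_diag hK ral a
  · show (s ^ K.θ) ^ 5 ≤ (s ^ K.θ) ^ 3
    exact pow_le_pow_of_le_one hx.le hx1 (by norm_num)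
  · show 1 < 1 + (s ^ K.θ) ^ 3 / 2
    linarith only [hx3]
  · show 1 + (s ^ K.θ) ^ 3 / 2 ≤ 1 + (s ^ K.θ) ^ 3
    linarith only [hx3]
  · show 1 + (s ^ K.θ) ^ 3 ≤ 2
    linarith only [hx31]
  · show 1 ≤ (((s ^ K.θ) ^ 5) ^ 4)⁻¹ * LL1
    linarith only [hLL, hNN]
  · show 0 ≤ s ^ 3
    positivity
  · intro a b
    rw [mx_G0]
    exact ((hfrb a).1 b).trans (le_max_right _ _)
  · exact g.hNm hfrb
  · exact g.hLm hK hfrb
  · exact g.hSm hK (k1.2.2.2)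
  · show 0 < (s ^ K.θ) ^ 5 / ((2 + 2 * K.cs / K.cm) * (M : ℝ) ^ 2)
    positivity
  · show (s ^ K.θ) ^ 5 / ((2 + 2 * K.cs / K.cm) * (M : ℝ) ^ 2) ≤ (s ^ K.θ) ^ 5
    apply div_le_self (by positivity)
    have a1 : 1 ≤ (M : ℝ) ^ 2 := one_le_pow₀ hM1
    have a2 : 0 ≤ 2 * K.cs / K.cm := by positivity
    nlinarith only [a1, a2]

/-- the errors -/
theorem aNm (g : GivX K M s E η m) (hK : K.Ok) :
    (mkX K s E η m M).aN ≤ 8000 * (s ^ (K.θ / 8)) ^ 4 := by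
  have hs := g.hs.q0.1
  have hw := g.wpos hK
  have hx := g.xpos
  have hy := g.ypos
  have hy1 := g.y1 hK
  have hCw : 2 ≤ K.Cw := hK.Cwpos
  have hceil : ∀ y : ℝ, 1 ≤ y → (⌈y⌉₊ : ℝ) ≤ 2 * y := fun y hy => by
    have := Nat.ceil_lt_add_one (by linarith only [hy] : 0 ≤ y)
    linarith only [hy, this]
  have hY1 : 1 ≤ s ^ (-(K.θ / 8)) := by
    rw [g.Yy, one_le_inv₀ hy]
    exact hy1
  have hN : (((s ^ K.θ) ^ 5) ^ 4)⁻¹ *
      (K.CF * (wv s η m) ^ (-(2 / 3 : ℝ)) * (1 + Real.log M) ^ 6) * wv s η m ≤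
        (s ^ K.θ) ^ 20 := by
    refine Nw_bound (A := 4) (l := s ^ (-(K.θ / 8))) hs hx hw (g.w2 hK)
      (by linarith only [hCw]) (by linarith only [hK.hCF]) ?_ ?_ g.hs.z6
    · have := Real.log_nonneg g.M1
      linarith only [this]
    · have := g.logM
      linarith only [hY1, this]
  have hh : ((2 * (⌈((s ^ (K.θ / 8)) ^ 2)⁻¹⌉₊ : ℝ) + 1 : ℝ)) ≤ 5 / (s ^ (K.θ / 8)) ^ 2 := by
    have h1 : 1 ≤ ((s ^ (K.θ / 8)) ^ 2)⁻¹ := by
      rw [one_le_inv₀ (by positivity)]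
      exact pow_le_one₀ hy.le hy1
    have h2 := hceil _ h1
    have e1 : 5 / (s ^ (K.θ / 8)) ^ 2 = 5 * ((s ^ (K.θ / 8)) ^ 2)⁻¹ := div_eq_mul_inv _ _
    rw [e1]
    linarith only [h1, h2]
  have h := aNx_bound (j := (⌈(s ^ K.θ)⁻¹⌉₊ : ℝ)) (p := (⌈((s ^ K.θ) ^ 4)⁻¹⌉₊ : ℝ))
    (h := 2 * (⌈((s ^ (K.θ / 8)) ^ 2)⁻¹⌉₊ : ℝ) + 1) hy hy1 g.xy hN g.hs.z7 (Nat.cast_nonneg _)
    (by
      have a1 := hceil (s ^ K.θ)⁻¹ (by simpa using g.xi 1)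
      rw [div_eq_mul_inv]
      exact a1)
    (Nat.cast_nonneg _)
    (by
      have a1 := hceil ((s ^ K.θ) ^ 4)⁻¹ (g.xi 4)
      rw [div_eq_mul_inv]
      exact a1) (by positivity) hh rfl
  unfold Dat.aN Dat.ch Dat.h
  rw [mx_w]
  exact h

/-- the additive errors -/
theorem bNm (g : GivX K M s E η m) (hK : K.Ok) :
    (mkX K s E η m M).bN ≤ Real.exp (-((s ^ (K.θ / 8))⁻¹ ^ 4)) := by
  have hs := g.hs.q0.1
  have hx := g.xpos
  have hx1 := g.x1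
  have hy := g.ypos
  have hy1 := g.y1 hK
  have hd := hK.dpos
  set Y : ℝ := (s ^ (K.θ / 8))⁻¹ with hY
  have hY1 : 1 ≤ Y := by
    rw [hY, one_le_inv₀ hy]
    exact hy1
  have hY0 : 0 < Y := by linarith only [hY1]
  have h2 : 8 ≤ (s ^ K.θ)⁻¹ := by
    rw [le_inv_comm₀ (by norm_num) hx]
    have := g.hs.q5.2
    linarith only [this]
  have h1 := bN_bound (j := ⌈(s ^ K.θ)⁻¹⌉₊) (p := ⌈((s ^ K.θ) ^ 4)⁻¹⌉₊) hx hx1
    (Nat.le_ceil _) (Nat.le_ceil _) (by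
      have h3 := Real.add_one_le_exp ((s ^ K.θ)⁻¹ / 8)
      linarith only [h2, h3])
  have h3 : (s ^ K.θ)⁻¹ = Y ^ 8 := by
    rw [g.xy, hY, inv_pow]
  have h1' : (1 / 4 : ℝ) ^ ⌈(s ^ K.θ)⁻¹⌉₊ + (1 / (1 + (s ^ K.θ) ^ 3 / 2)) ^ ⌈((s ^ K.θ) ^ 4)⁻¹⌉₊ ≤
      Real.exp (-(Y ^ 8 / 8)) := by
    rw [← h3]
    exact h1
  have h4 := g.Md
  rw [← hY] at h4
  have h5 : 8 * (6 * K.d + 2) ≤ Y := by
    have a1 := g.hs.z4
    rw [hY, ← one_div, le_div_iff₀ hy]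
    exact a1
  have h6 : (1 : ℝ) + 6 * K.d * Y + -(Y ^ 8 / 8) ≤ -(Y ^ 4) := by
    have b1 : (6 * K.d + 2) * Y ^ 4 ≤ Y ^ 8 / 8 := by
      have c1 : 1 ≤ Y ^ 3 := one_le_pow₀ hY1
      calc (6 * K.d + 2) * Y ^ 4 = (8 * (6 * K.d + 2)) * 1 * Y ^ 4 / 8 := by ring
        _ ≤ Y * Y ^ 3 * Y ^ 4 / 8 := by gcongr
        _ = Y ^ 8 / 8 := by ring
    have b2 : Y ≤ Y ^ 4 := le_self_pow₀ hY1 (by norm_num)
    have b3 : 1 ≤ Y ^ 4 := one_le_pow₀ hY1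
    have b4 : 6 * K.d * Y ≤ 6 * K.d * Y ^ 4 := by gcongr
    linarith only [hd, h5, b1, b2, b4]
  have h7 : (2 : ℝ) ≤ Real.exp 1 := by
    have := Real.exp_one_gt_d9
    linarith only [this]
  show 2 * ((M : ℝ) ^ K.d) ^ 2 * ((1 / 4) ^ ⌈(s ^ K.θ)⁻¹⌉₊ +
    (1 / (1 + (s ^ K.θ) ^ 3 / 2)) ^ ⌈((s ^ K.θ) ^ 4)⁻¹⌉₊) ≤ _
  calc 2 * ((M : ℝ) ^ K.d) ^ 2 * ((1 / 4) ^ ⌈(s ^ K.θ)⁻¹⌉₊ +
        (1 / (1 + (s ^ K.θ) ^ 3 / 2)) ^ ⌈((s ^ K.θ) ^ 4)⁻¹⌉₊)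
      ≤ Real.exp 1 * (Real.exp (3 * K.d * Y)) ^ 2 * Real.exp (-(Y ^ 8 / 8)) := by gcongr
    _ = Real.exp (1 + 6 * K.d * Y + -(Y ^ 8 / 8)) := by
        rw [← Real.exp_nat_mul, ← Real.exp_add, ← Real.exp_add]
        congr 1
        push_cast
        ring
    _ ≤ Real.exp (-(Y ^ 4)) := Real.exp_le_exp.2 h6

end GivX

end Pool.Agent.LE.QX.H68
end
end -- Pool.Agent.Helper68_LQX.INIc

section -- Pool.Agent.Helper68_LQX.INI

/-!
# The parameters (stretched exponential version): the final statement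
-/

set_option autoImplicit false

open MeasureTheory ProbabilityTheory Function Filter

open scoped ENNReal BigOperators Topology NNReal ComplexOrder Matrix

noncomputable section

namespace Pool.Agent.LE.QX.H68

open Pool.Agent.Anderson hiding box mem_box card_box
open Pool.Agent.Loc Pool.Agent.Mob Pool.Agent.Helper54.Bal
  Pool.Agent.Helper96.EXP Pool.Agent.BED
open Pool.Agent.LE.MN Pool.Agent.LE.CL Pool.Agent.LE.IR Pool.Agent.LE.QD Pool.Agent.LE.QF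
open Pool.Agent.LE.QF.H68

variable {K : Cst} {M : ℕ} [NeZero M] {s E η : ℝ} {m : ℂ}

namespace GivX

/-- the sums of `S` -/
theorem sSm (g : GivX K M s E η m) (hK : K.Ok) (F : Fac K) (C' : Finset (Tor K.d M))
    (hC : (C'.card : ℝ) ≤ (s ^ (K.ε - 1) / Real.sqrt η) ^ K.d) :
    ∑ x ∈ C', ∑ y ∈ C', (mkX K s E η m M).S x y ≤ s ^ (4 * (K.θ / 8)) * C'.card / η := by
  have hs := g.hs.q0.1
  have hw := g.wpos hK
  have hη := g.ηpos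
  have hcs0 : 0 < K.cs := by linarith only [hK.hcs]
  have hε1 := hK.hε.2
  have hε := hK.hε.1
  have hM := g.Mpos
  have hsη : 0 < Real.sqrt η := Real.sqrt_pos.2 hη
  have hη1 : η ≤ 1 := by
    calc η ≤ s ^ 3 := g.hη2
      _ ≤ 1 := pow_le_one₀ hs.le g.s1
  set ρ : ℝ := s ^ (1 - K.ε / 4) * Real.sqrt η with hρ
  have hMρ : 1 ≤ (M : ℝ) * ρ := by
    have a1 : s ≤ s ^ (1 - K.ε / 4) := by
      calc s = s ^ (1 : ℝ) := (Real.rpow_one s).symm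
        _ ≤ s ^ (1 - K.ε / 4) := Real.rpow_le_rpow_of_exponent_ge hs g.s1 (by linarith)
    have a2 : η ≤ Real.sqrt η := by
      apply Real.le_sqrt_of_sq_le
      nlinarith only [hη, hη1]
    have a3 : s ^ 4 * η ^ 2 ≤ s * η := by
      have b1 : s ^ 4 ≤ s := by
        calc s ^ 4 ≤ s ^ 1 := pow_le_pow_of_le_one hs.le g.s1 (by norm_num)
          _ = s := pow_one s
      have b2 : η ^ 2 ≤ η := by nlinarith only [hη, hη1]
      gcongr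
    calc (1 : ℝ) ≤ s ^ 4 * η ^ 2 * M := g.hM1
      _ ≤ s * η * M := by gcongr
      _ ≤ s ^ (1 - K.ε / 4) * Real.sqrt η * M := by gcongr
      _ = M * ρ := by rw [hρ, mul_comm]
  obtain ⟨hJ1, hJ2, hJ3⟩ := ceil_bound g.Mpos hMρ
  have h1 := F.mss M (Jv K s M) ⌈(M : ℝ) * ρ⌉₊ K.cs (wv s η m) C' hJ1 hcs0 hw
  have hJ0 : (0 : ℝ) < (⌈(M : ℝ) * ρ⌉₊ : ℝ) := by
    have : 0 < ⌈(M : ℝ) * ρ⌉₊ := by omega
    exact_mod_cast this
  have h2 : wv s η m * (M : ℝ) ^ 2 / (⌈(M : ℝ) * ρ⌉₊ : ℝ) ^ 2 =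
      wv s η m / ((⌈(M : ℝ) * ρ⌉₊ : ℝ) / M) ^ 2 := by
    field_simp
  rw [h2] at h1
  refine h1.trans ?_
  exact sSx_bound hK.hd hs g.s1 hε hε1 hK.hcm.1 (by linarith only [hK.Cwpos]) g.w1 (g.w2 hK) hη
    g.hη2 (by linarith only [hK.hCS]) hcs0.le hJ2 hJ3 (Nat.cast_nonneg _) hC rfl g.hs.z8

end GivX

theorem ini (mbr : MbrStmt) (frb : FrbStmt) (bqb : BqbStmt) (gal : GalStmt) (khb : KhbStmt)
    (inm : InmStmt) (inw : InwStmt) (mss : MssStmt) (kft : KftStmt) (ral : RalStmt) :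
    IniStmt := by
  intro d a ε hd ha hε hε1
  obtain ⟨cm, Cm, hcm, hcm1, hCm, hmbr⟩ := mbr d a hd ha
  obtain ⟨CI, hCI, hinm⟩ := inm d hd
  obtain ⟨CK, hCK, hkhb⟩ := khb d hd
  obtain ⟨CB, hCB, hbqb⟩ := bqb d hd
  obtain ⟨CF, hCF, hfrb⟩ := frb d hd
  obtain ⟨CS, hCS, hmss⟩ := mss d hd
  obtain ⟨cG, CG, hcG, hcG2, hCG, hgal⟩ := gal d (a / 2) hd (by positivity)
  have hd3 : (3 : ℝ) ≤ d := by exact_mod_cast hd
  set θ : ℝ := ε / (24 * d) with hθ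
  have hθ0 : 0 < θ := by positivity
  have hθ1 : θ / 8 ≤ 1 / 100 := by
    have h1 : θ ≤ 1 / 72 := by
      rw [hθ, div_le_div_iff₀ (by positivity) (by norm_num)]
      nlinarith only [hε1, hd3]
    linarith only [hθ0, h1]
  set k₀ : ℕ := ⌈(d : ℝ) * (4 * d + 6) / (6 * θ)⌉₊ + 1 with hk₀
  have hk : (d : ℝ) * (4 * d + 6) < 6 * k₀ * θ := by
    have h1 : (d : ℝ) * (4 * d + 6) / (6 * θ) ≤ (⌈(d : ℝ) * (4 * d + 6) / (6 * θ)⌉₊ : ℝ) :=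
      Nat.le_ceil _
    have h2 : (k₀ : ℝ) = (⌈(d : ℝ) * (4 * d + 6) / (6 * θ)⌉₊ : ℝ) + 1 := by
      rw [hk₀]
      push_cast
      ring
    have h3 : (d : ℝ) * (4 * d + 6) / (6 * θ) < k₀ := by linarith only [hθ0, hθ1, h1, h2]
    rw [div_lt_iff₀ (by positivity)] at h3
    linarith only [h3]
  refine ⟨θ / 8, cm, max Cm CF, by positivity, hθ1, hcm, hCm.trans (le_max_left _ _), ?_⟩
  intro c₀ hc₀
  set cs : ℝ := max 1 (2 * Cm / cG) with hcs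
  set K : Cst := ⟨d, k₀, ε, a, c₀, cm, Cm, CI, CK, CB, CF, CS, cG, CG, cs⟩ with hKd
  have hK : K.Ok :=
    { hd := hd
      hε := ⟨hε, hε1⟩
      ha := ha
      hc₀ := hc₀
      hcm := ⟨hcm, hcm1⟩
      hCm := hCm
      hCI := hCI
      hCK := hCK
      hCB := hCB
      hCF := hCF
      hCS := hCS
      hcG := hcG
      hCG := hCG
      hcs := le_max_left _ _
      hk₀ := hk }
  have F : Fac K :=
    { khb := hkhb
      bqb := hbqb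
      frb := hfrb
      inm := hinm
      gal := hgal
      mss := hmss }
  have hcs2 : 2 * K.Cm ≤ K.cG * K.cs := by
    have h1 : 2 * Cm / cG ≤ cs := le_max_right _ _
    rw [div_le_iff₀ hcG] at h1
    show 2 * Cm ≤ cG * cs
    linarith only [h1]
  obtain ⟨c, hc0, hc4, hc⟩ := exists_cX hK
  refine ⟨c, 8000, hc0, hc4, by norm_num, ?_⟩
  intro M _ σ E η hσ hσc hE1 hE2 hη1 hη2 hM1 hM2
  have hs0 : 0 < |σ| := abs_pos.2 hσ
  have hs2 : σ ^ 2 = |σ| ^ 2 := (sq_abs σ).symm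
  rw [hs2]
  generalize |σ| = s at hs0 hσc hE1 hη1 hη2 hM1 hM2
  have hcnd := hc s hs0 hσc
  have hs1 : s ≤ 1 := by linarith only [hθ0, hθ1, hc4, hσc]
  have hη0 : 0 < η := lt_of_lt_of_le (Real.exp_pos _) hη1
  have hηT : η ≤ s ^ 2 := hη2.trans (pow_le_pow_of_le_one hs0.le hs1 (by norm_num))
  have hM : (0 : ℝ) < M := by
    have : 0 < M := Nat.pos_of_ne_zero (NeZero.ne M)
    exact_mod_cast this
  have hMT : Cm / (s ^ 2) ^ 2 ≤ M := by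
    have h1 : Cm * s ≤ 1 := hcnd.q3.2.2.2.2
    have h2 : 1 ≤ s ^ 10 * (M : ℝ) := by
      calc (1 : ℝ) ≤ s ^ 4 * η ^ 2 * M := hM1
        _ ≤ s ^ 4 * (s ^ 3) ^ 2 * M := by gcongr
        _ = s ^ 10 * M := by ring
    rw [div_le_iff₀ (by positivity)]
    have h3 : s ^ 10 ≤ s * (s ^ 2) ^ 2 := by
      calc s ^ 10 ≤ s ^ 5 := pow_le_pow_of_le_one hs0.le hs1 (by norm_num)
        _ = s * (s ^ 2) ^ 2 := by ring
    calc Cm = Cm * 1 := (mul_one _).symm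
      _ ≤ Cm * (s * (s ^ 2) ^ 2 * M) := by
          have : 1 ≤ s * (s ^ 2) ^ 2 * (M : ℝ) := by
            calc (1 : ℝ) ≤ s ^ 10 * M := h2
              _ ≤ s * (s ^ 2) ^ 2 * M := by gcongr
          gcongr
      _ = Cm * s * (M * (s ^ 2) ^ 2) := by ring
      _ ≤ 1 * (M * (s ^ 2) ^ 2) := by gcongr
      _ = M * (s ^ 2) ^ 2 := one_mul _
  obtain ⟨m, hm0, hm1, hm2, hm3⟩ := hmbr M E η (s ^ 2) hE2 hη0 hηT hcnd.q1.1 hMT
  have g : GivX K M s E η m :=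
    ⟨hcnd, hE1, hE2, hη1, hη2, hM1, hM2, hm0, hm1, hm2, hm3⟩
  have hx := g.xpos
  have hx1 := g.x1
  have hy := g.ypos
  have hy1 := g.y1 hK
  have hθK : K.θ = θ := rfl
  have hy4 : s ^ (4 * (θ / 8)) = (s ^ (K.θ / 8)) ^ 4 := by
    rw [xpow hs0, hθK]
    norm_num
  have hxy4 : s ^ K.θ ≤ (s ^ (K.θ / 8)) ^ 4 := by
    rw [g.xy]
    exact pow_le_pow_of_le_one hy.le hy1 (by norm_num)
  refine ⟨mkX K s E η m M, g.adm hK F kft inw ral hcs2, rfl, rfl, rfl, ?_, ?_, ?_, ?_, ?_, ?_⟩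
  · rw [hy4]
    exact g.aNm hK
  · show (⌈((s ^ K.θ) ^ 4)⁻¹⌉₊ : ℝ) ≤ s ^ (-1 : ℝ)
    have h1 := Nat.ceil_lt_add_one (by positivity : 0 ≤ ((s ^ K.θ) ^ 4)⁻¹)
    have h2 := g.xi 4
    have h3 : 2 * ((s ^ K.θ) ^ 4)⁻¹ ≤ s⁻¹ := by
      have h4 := hcnd.q20
      rw [← div_eq_mul_inv, div_le_iff₀ (by positivity), inv_mul_eq_div, le_div_iff₀ hs0]
      exact h4
    rw [Real.rpow_neg_one]
    linarith only [h1, h2, h3]
  · rw [hy4]
    show (s ^ K.θ) ^ 5 ≤ (s ^ (K.θ / 8)) ^ 4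
    calc (s ^ K.θ) ^ 5 ≤ (s ^ K.θ) ^ 1 := pow_le_pow_of_le_one hx.le hx1 (by norm_num)
      _ = s ^ K.θ := pow_one _
      _ ≤ (s ^ (K.θ / 8)) ^ 4 := hxy4
  · rw [hy4]
    show 1 + (s ^ K.θ) ^ 3 - 1 ≤ (s ^ (K.θ / 8)) ^ 4
    calc 1 + (s ^ K.θ) ^ 3 - 1 = (s ^ K.θ) ^ 3 := by ring
      _ ≤ (s ^ K.θ) ^ 1 := pow_le_pow_of_le_one hx.le hx1 (by norm_num)
      _ = s ^ K.θ := pow_one _
      _ ≤ (s ^ (K.θ / 8)) ^ 4 := hxy4
  · have h1 : s ^ (-(4 * (θ / 8))) = (s ^ (K.θ / 8))⁻¹ ^ 4 := by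
      rw [Real.rpow_neg hs0.le, hy4, inv_pow]
    rw [h1]
    exact g.bNm hK
  · intro C' hC
    exact g.sSm hK F C' hC

end Pool.Agent.LE.QX.H68
end
end -- Pool.Agent.Helper68_LQX.INI

section -- Pool.Agent.Helper69_LQZ.IMM

/-!
# Row IMM of squad LQZ: the self-energy at `2 w`
-/

set_option autoImplicit false

open MeasureTheory ProbabilityTheory Function Filter

open scoped ENNReal BigOperators Topology NNReal ComplexOrder Matrix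

noncomputable section

namespace Pool.Agent.LE.QZ.H69

open Pool.Agent.Anderson hiding box mem_box card_box
open Pool.Agent.Loc Pool.Agent.Mob Pool.Agent.Helper54.Bal
  Pool.Agent.Helper96.EXP Pool.Agent.BED
open Pool.Agent.LE.MN Pool.Agent.LE.CL Pool.Agent.LE.IR Pool.Agent.LE.QD Pool.Agent.LE.QF

theorem imm_deriv {d M : ℕ} [NeZero M] (ral : RalStmt) {E t : ℝ} (ht : 0 < t) :
    HasDerivAt (fun s : ℝ => Pool.Agent.LE.QF.H68.Fz d M ⟨E, s⟩)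
      (Complex.I * bh (⟨E, t⟩ : ℂ) (0 : Tor d M)) t := by
  have h0 : ∀ p : Tor d M, HasDerivAt (fun s : ℝ => ((es p : ℂ) - (⟨E, s⟩ : ℂ))⁻¹)
      (Complex.I * (((es p : ℂ) - (⟨E, t⟩ : ℂ))⁻¹ * ((es p : ℂ) - (⟨E, t⟩ : ℂ))⁻¹)) t := by
    intro p
    have e1 : ∀ s : ℝ, (⟨E, s⟩ : ℂ) = (E : ℂ) + (s : ℂ) * Complex.I := fun s => by
      apply Complex.ext <;> simp
    have h1 : HasDerivAt (fun s : ℝ => (es p : ℂ) - (⟨E, s⟩ : ℂ)) (-Complex.I) t := by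
      have h2 : HasDerivAt (fun s : ℝ => (E : ℂ) + (s : ℂ) * Complex.I) Complex.I t := by
        have h3 := ((Complex.ofRealCLM.hasDerivAt (x := t)).mul_const Complex.I).const_add (E : ℂ)
        simpa using h3
      have h4 := h2.const_sub (es p : ℂ)
      refine h4.congr_of_eventuallyEq (Filter.Eventually.of_forall fun s => ?_)
      show (es p : ℂ) - (⟨E, s⟩ : ℂ) = (es p : ℂ) - ((E : ℂ) + (s : ℂ) * Complex.I)
      rw [e1 s]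
    have hne : (es p : ℂ) - (⟨E, t⟩ : ℂ) ≠ 0 := by
      intro h
      have := congrArg Complex.im h
      simp at this
      exact ht.ne' this
    have h5 := h1.fun_inv hne
    have e2 : -(-Complex.I) / ((es p : ℂ) - (⟨E, t⟩ : ℂ)) ^ 2 =
        Complex.I * (((es p : ℂ) - (⟨E, t⟩ : ℂ))⁻¹ * ((es p : ℂ) - (⟨E, t⟩ : ℂ))⁻¹) := by
      rw [neg_neg, div_eq_mul_inv, sq, mul_inv]
    rw [e2] at h5
    exact h5
  have h1 : HasDerivAt (fun s : ℝ => (∑ p : Tor d M, ((es p : ℂ) - (⟨E, s⟩ : ℂ))⁻¹) / (M : ℂ) ^ d)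
      ((∑ p : Tor d M, Complex.I * (((es p : ℂ) - (⟨E, t⟩ : ℂ))⁻¹ *
        ((es p : ℂ) - (⟨E, t⟩ : ℂ))⁻¹)) / (M : ℂ) ^ d) t :=
    (HasDerivAt.fun_sum fun p _ => h0 p).div_const _
  have e3 : (∑ p : Tor d M, Complex.I * (((es p : ℂ) - (⟨E, t⟩ : ℂ))⁻¹ *
        ((es p : ℂ) - (⟨E, t⟩ : ℂ))⁻¹)) / (M : ℂ) ^ d =
      Complex.I * bh (⟨E, t⟩ : ℂ) (0 : Tor d M) := by
    unfold bh
    rw [← Finset.mul_sum, mul_div_assoc]
    congr 2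
    refine Finset.sum_congr rfl fun k _ => ?_
    rw [zero_sub, Pool.Agent.LE.QF.H68.es_neg]
  rw [e3] at h1
  exact h1

theorem imm (khb : KhbStmt) (ral : RalStmt) : ImmStmt := by
  intro d hd
  obtain ⟨C, hC, h⟩ := khb d hd
  refine ⟨C, hC, ?_⟩
  intro M _ z hz0 hz1 hM
  obtain ⟨E, hE⟩ : ∃ E, E = z.re := ⟨_, rfl⟩
  obtain ⟨w, hw⟩ : ∃ w, w = z.im := ⟨_, rfl⟩
  have hzz : z = ⟨E, w⟩ := by rw [hE, hw]
  rw [← hw] at hz0 hz1 hM ⊢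
  rw [← hE]
  rw [Pool.Agent.LE.QF.H68.rs_diag ral ⟨E, 2 * w⟩ (by show 0 < 2 * w; linarith only [hz0]) 0,
    Pool.Agent.LE.QF.H68.rs_diag ral z (by rw [← hw]; exact hz0) 0, hzz]
  have hlog : 0 ≤ Real.log (1 / w) := Real.log_nonneg (by
    rw [le_div_iff₀ hz0]
    linarith only [hz1, hz0])
  have hsw : 0 < Real.sqrt w := Real.sqrt_pos.2 hz0
  have hb : ∀ t ∈ Set.Icc w (2 * w), ‖Complex.I * bh (⟨E, t⟩ : ℂ) (0 : Tor d M)‖ ≤
      C * (1 + Real.log (1 / w)) / Real.sqrt w := by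
    intro t ht
    have ht0 : 0 < t := lt_of_lt_of_le hz0 ht.1
    have i0 : Fin d := ⟨0, by omega⟩
    have h1 := (h M ⟨E, t⟩ (0 : Tor d M) i0 ht0 (by show t ≤ 1 / 2; linarith only [ht.2, hz1]) (by
      refine le_trans ?_ hM
      show C / t ^ 2 ≤ C / w ^ 2
      exact div_le_div_of_nonneg_left (by linarith only [hC, hz1, hz0]) (by positivity)
        (pow_le_pow_left₀ hz0.le ht.1 2))).2
    rw [norm_mul, Complex.norm_I, one_mul]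
    refine h1.trans ?_
    have e1 : Real.cos (Real.pi * ((((0 : Tor d M) i0).valMinAbs : ℤ) : ℝ) / M) = 1 := by
      have : ((0 : Tor d M) i0) = (0 : ZMod M) := rfl
      rw [this, ZMod.valMinAbs_zero]
      simp
    rw [e1, abs_one]
    show C * (1 + Real.log (1 / t)) / t * Real.sqrt (t / (t + 1)) ≤ _
    have e2 : Real.sqrt (t / (t + 1)) ≤ Real.sqrt t := by
      apply Real.sqrt_le_sqrt
      rw [div_le_iff₀ (by positivity)]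
      nlinarith only [hz1, hz0, ht0]
    have e3 : Real.log (1 / t) ≤ Real.log (1 / w) :=
      Real.log_le_log (by positivity) (one_div_le_one_div_of_le hz0 ht.1)
    have e4 : 0 ≤ 1 + Real.log (1 / t) := by
      have : 0 ≤ Real.log (1 / t) := Real.log_nonneg (by
        rw [le_div_iff₀ ht0]
        linarith only [ht.2, hz1, hz0])
      linarith only [hz1, hz0, this]
    have hst : 0 < Real.sqrt t := Real.sqrt_pos.2 ht0
    calc C * (1 + Real.log (1 / t)) / t * Real.sqrt (t / (t + 1))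
        ≤ C * (1 + Real.log (1 / t)) / t * Real.sqrt t :=
          mul_le_mul_of_nonneg_left e2 (by positivity)
      _ = C * (1 + Real.log (1 / t)) / Real.sqrt t := by
          rw [div_mul_eq_mul_div, div_eq_div_iff ht0.ne' hst.ne', mul_assoc,
            Real.mul_self_sqrt ht0.le]
      _ ≤ C * (1 + Real.log (1 / w)) / Real.sqrt w := by
          apply div_le_div₀ (by positivity) _ hsw (Real.sqrt_le_sqrt ht.1)
          exact mul_le_mul_of_nonneg_left (by linarith only [e3]) (by linarith only [hC, hz1, hz0])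
  have h2 := norm_image_sub_le_of_norm_deriv_le_segment'
    (f := fun s : ℝ => Pool.Agent.LE.QF.H68.Fz d M ⟨E, s⟩)
    (f' := fun t => Complex.I * bh (⟨E, t⟩ : ℂ) (0 : Tor d M))
    (C := C * (1 + Real.log (1 / w)) / Real.sqrt w) (a := w) (b := 2 * w)
    (fun t ht => (imm_deriv ral (lt_of_lt_of_le hz0 ht.1)).hasDerivWithinAt)
    (fun t ht => hb t ⟨ht.1, ht.2.le⟩) (2 * w) ⟨by linarith only [hz0], le_rfl⟩
  refine h2.trans (le_of_eq ?_)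
  have e5 : 2 * w - w = Real.sqrt w * Real.sqrt w := by
    rw [Real.mul_self_sqrt hz0.le]
    ring
  rw [e5, div_mul_eq_mul_div, div_eq_iff hsw.ne']
  ring

end Pool.Agent.LE.QZ.H69
end
end -- Pool.Agent.Helper69_LQZ.IMM

section -- Pool.Agent.Helper84_LQZ.INIb

/-!
# The parameters (all energies of the bulk): the given data
-/

set_option autoImplicit false

open MeasureTheory ProbabilityTheory Function Filter

open scoped ENNReal BigOperators Topology NNReal ComplexOrder Matrix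

noncomputable section

namespace Pool.Agent.LE.QZ.H84

open Pool.Agent.Anderson hiding box mem_box card_box
open Pool.Agent.Loc Pool.Agent.Mob Pool.Agent.Helper54.Bal
  Pool.Agent.Helper96.EXP Pool.Agent.BED
open Pool.Agent.LE.MN Pool.Agent.LE.CL Pool.Agent.LE.IR Pool.Agent.LE.QD Pool.Agent.LE.QF
open Pool.Agent.LE.QF.H68

/-- the facts about the free resolvent, with the constants of `K` -/
structure FacZ (K : Cst) : Prop where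
  khb : ∀ (M : ℕ) [NeZero M] (z : ℂ) (p : Tor K.d M) (i : Fin K.d),
    0 < z.im → z.im ≤ 1 / 2 → K.CK / z.im ^ 2 ≤ M →
      ‖kh z p‖ ≤ K.CK * (1 + Real.log (1 / z.im)) / z.im *
        Real.sqrt (z.im / (z.im + |Real.sin (Real.pi * ((p i).valMinAbs : ℝ) / M)|)) ∧
      ‖bh z p‖ ≤ K.CK * (1 + Real.log (1 / z.im)) / z.im *
        Real.sqrt (z.im / (z.im + |Real.cos (Real.pi * ((p i).valMinAbs : ℝ) / M)|))
  imm : ∀ (M : ℕ) [NeZero M] (z : ℂ), 0 < z.im → z.im ≤ 1 / 4 → K.CB / z.im ^ 2 ≤ M →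
      ‖rs (0 : Tor K.d M → ℝ) ⟨z.re, 2 * z.im⟩ 0 0 - rs (0 : Tor K.d M → ℝ) z 0 0‖ ≤
        K.CB * (1 + Real.log (1 / z.im)) * Real.sqrt z.im
  frb : ∀ (M : ℕ) [NeZero M] (z : ℂ), 0 < z.im → z.im ≤ 1 →
    K.CF / z.im ^ 2 ≤ M → ∀ x : Tor K.d M, (∀ y, ‖rs (0 : Tor K.d M → ℝ) z x y‖ ≤ K.CF) ∧
      ∑ y, ‖rs (0 : Tor K.d M → ℝ) z x y‖ ^ 4 ≤
        K.CF * z.im ^ (-(2 / 3 : ℝ)) * (1 + Real.log M) ^ 6
  inm : ∀ (M : ℕ) [NeZero M] (J : ℕ) (cs w : ℝ)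
    (S Pl : Matrix (Tor K.d M) (Tor K.d M) ℝ), 1 ≤ J → 1 ≤ cs → 0 < w → w ≤ 1 →
    S = mlt (sy0 cs w J) → Pl = mlt (fun p => if p ∈ low K.d M J then 1 else 0) →
      ((∀ a b, S a b = S b a) ∧ (∀ f, 0 ≤ qf S f) ∧ (∀ a, ∑ b, S a b = 0) ∧
        ∀ a, w * S a a ≤ K.CI * cs * (((J : ℝ) / M) ^ K.d + w ^ 2 * ((J : ℝ) / M) ^ (K.d - 2))) ∧
      ((∀ a b, Pl a b = Pl b a) ∧ Pl * Pl = Pl ∧ (∀ a, Pl a a ≤ K.CI * ((J : ℝ) / M) ^ K.d) ∧
        (∀ a, ∑ b, Pl a b = 1) ∧ S * Pl = S) ∧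
      ∀ f, qf S f ≤ 2 * cs / w * (M : ℝ) ^ 2 * ∑ a, f a ^ 2
  gal : ∀ (M : ℕ) [NeZero M] (ζ : ℂ) (p : Tor K.d M), |ζ.re| ≤ 2 * K.d - K.a / 2 → 0 < ζ.im →
    ζ.im ≤ K.cG → K.CG / ζ.im ≤ M → (∀ i, 8 * |((p i).valMinAbs : ℝ)| ≤ M) →
        kf ζ p ≤ (1 - K.cG * min 1 (ds p / ζ.im ^ 2)) * kf ζ (0 : Tor K.d M)
  mss : ∀ (M : ℕ) [NeZero M] (J J₁ : ℕ) (cs w : ℝ)
    (C' : Finset (Tor K.d M)), 1 ≤ J₁ → 0 < cs → 0 < w →
      ∑ x ∈ C', ∑ y ∈ C', mlt (sy0 cs w J) x y ≤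
        K.CS * cs * ((1 / w + w * (M : ℝ) ^ 2 / (J₁ : ℝ) ^ 2) * C'.card +
          (((J₁ : ℝ) / M) ^ K.d / w + w * ((J₁ : ℝ) / M) ^ (K.d - 2)) * (C'.card : ℝ) ^ 2)

/-- the given data -/
structure GivZ (K : Cst) (M : ℕ) [NeZero M] (s E η : ℝ) (m : ℂ) : Prop where
  hs : CndZ K s
  hE2 : |E| ≤ 2 * K.d - K.a
  hη2 : η ≤ s ^ 3
  hM1 : s ^ (-5 : ℝ) ≤ M
  hM2 : (M : ℝ) ≤ Real.exp (s ^ (-(K.θ / 8)))
  hM3 : s ^ (-K.ε) ≤ η * (M : ℝ) ^ K.d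
  hm : rs (0 : Tor K.d M → ℝ) (⟨E, η⟩ + ((s ^ 2 : ℝ) : ℂ) * m) 0 0 = m
  hm1 : K.cm ≤ m.im
  hm2 : m.im ≤ K.Cm
  hm3 : ‖m‖ ≤ K.Cm * (1 + Real.log (1 / s ^ 2))

/-- the parameters -/
def mkZ (K : Cst) (s E η : ℝ) (m : ℂ) (i : Fin K.d) (ξ : ℝ) (M : ℕ) [NeZero M] : Dat K.d M where
  E := E
  η := η
  T := s ^ 2
  m := m
  δ := (s ^ K.θ) ^ 5
  e₀ := 1 + (s ^ K.θ) ^ 3
  e₁ := 1 + (s ^ K.θ) ^ 3 / 2
  ϖ := (s ^ K.θ) ^ 5 / ((2 + 2 * K.cs / K.cm) * (M : ℝ) ^ 2)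
  L₀ := ((s ^ K.θ) ^ 6)⁻¹
  N := (((s ^ K.θ) ^ 5) ^ 4)⁻¹ *
    (K.CF * (wv s η m) ^ (-(2 / 3 : ℝ)) * (1 + Real.log M) ^ 6)
  π₀ := s ^ 3 + s ^ K.ε
  lam := K.cm * wv s η m * (M : ℝ) ^ 2 / (100 * (M : ℝ) ^ K.d * ξ)
  zt0 := 1 / ξ
  f₁ := fun x => (ec (Pi.single i 1) x).re
  f₂ := fun x => (ec (Pi.single i 1) x).im
  S := mlt (sy0 K.cs (wv s η m) (Jv K s M))
  k := ⌈((s ^ (K.θ / 8)) ^ 2)⁻¹⌉₊
  j := ⌈(s ^ K.θ)⁻¹⌉₊
  p := ⌈((s ^ K.θ) ^ 4)⁻¹⌉₊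

variable {K : Cst} {M : ℕ} [NeZero M] {s E η : ℝ} {m : ℂ}

namespace GivZ

theorem s1 (g : GivZ K M s E η m) : s ≤ 1 := by
  have := g.hs.q0.2
  linarith only [this]

theorem Mpos (_g : GivZ K M s E η m) : (0 : ℝ) < M := by
  have : 0 < M := Nat.pos_of_ne_zero (NeZero.ne M)
  exact_mod_cast this

theorem M1 (_g : GivZ K M s E η m) : (1 : ℝ) ≤ M := by
  have : 0 < M := Nat.pos_of_ne_zero (NeZero.ne M)
  exact_mod_cast this

theorem ηpos (g : GivZ K M s E η m) : 0 < η := by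
  have h := g.hs.q0.1
  have hM := g.Mpos
  have h1 : 0 < η * (M : ℝ) ^ K.d := lt_of_lt_of_le (by positivity) g.hM3
  exact (pos_iff_pos_of_mul_pos h1).2 (by positivity)

theorem ηT (g : GivZ K M s E η m) (_hK : K.Ok) : η ≤ s ^ 2 := by
  have h := g.hs.q0.1
  refine g.hη2.trans ?_
  exact pow_le_pow_of_le_one h.le g.s1 (by norm_num)

theorem Mc (g : GivZ K M s E η m) {w C : ℝ} (hK : K.Ok) (hw : K.cm * s ^ 2 ≤ w) (hC : 0 < C)
    (h : C / K.cm ^ 2 * s ≤ 1) : C / w ^ 2 ≤ M := by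
  have hs := g.hs.q0.1
  have hcm := hK.hcm.1
  have h0 : 0 < K.cm * s ^ 2 := by positivity
  calc C / w ^ 2 ≤ C / (K.cm * s ^ 2) ^ 2 := by gcongr
    _ = C / K.cm ^ 2 * s * (s ^ 5)⁻¹ := by field_simp
    _ ≤ 1 * (s ^ 5)⁻¹ := by gcongr
    _ = s ^ (-(5 : ℝ)) := by
        rw [one_mul, Real.rpow_neg hs.le]
        congr 1
        rw [← Real.rpow_natCast]
        norm_num
    _ ≤ M := g.hM1

theorem Mc1 (g : GivZ K M s E η m) {w C : ℝ} (hK : K.Ok) (hw : K.cm * s ^ 2 ≤ w) (hC : 0 < C)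
    (h : C / K.cm * s ≤ 1) : C / w ≤ M := by
  have hs := g.hs.q0.1
  have hcm := hK.hcm.1
  have h0 : 0 < K.cm * s ^ 2 := by positivity
  calc C / w ≤ C / (K.cm * s ^ 2) := by gcongr
    _ = C / K.cm * s * (s ^ 3)⁻¹ := by field_simp
    _ ≤ 1 * (s ^ 3)⁻¹ := by gcongr
    _ = s ^ (-(3 : ℝ)) := by
        rw [one_mul, Real.rpow_neg hs.le]
        congr 1
        rw [← Real.rpow_natCast]
        norm_num
    _ ≤ s ^ (-5 : ℝ) :=
        Real.rpow_le_rpow_of_exponent_ge hs g.s1 (by norm_num)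
    _ ≤ M := g.hM1

theorem w1 (g : GivZ K M s E η m) : K.cm * s ^ 2 ≤ wv s η m := by
  have h1 := g.ηpos
  have h2 : K.cm * s ^ 2 ≤ s ^ 2 * m.im := by
    rw [mul_comm]
    have := g.hm1
    gcongr
  unfold wv
  linarith

theorem wpos (g : GivZ K M s E η m) (hK : K.Ok) : 0 < wv s η m := by
  have h := g.hs.q0.1
  have h1 := g.w1
  have : 0 < K.cm * s ^ 2 := mul_pos hK.hcm.1 (by positivity)
  linarith

theorem w2 (g : GivZ K M s E η m) (hK : K.Ok) : wv s η m ≤ K.Cw * s ^ 2 := by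
  have h1 := g.ηT hK
  have h2 : s ^ 2 * m.im ≤ s ^ 2 * K.Cm := by
    have := g.hm2
    gcongr
  unfold wv Cst.Cw
  linarith

theorem imz (_g : GivZ K M s E η m) :
    (⟨E, η⟩ + ((s ^ 2 : ℝ) : ℂ) * m : ℂ).im = wv s η m := by
  unfold wv
  rw [Complex.add_im, Complex.im_ofReal_mul]

theorem rez (_g : GivZ K M s E η m) :
    (⟨E, η⟩ + ((s ^ 2 : ℝ) : ℂ) * m : ℂ).re = E + s ^ 2 * m.re := by
  rw [Complex.add_re, Complex.re_ofReal_mul]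

theorem shift (g : GivZ K M s E η m) (hK : K.Ok) : |s ^ 2 * m.re| ≤ s ^ (2 - K.ε) / 2 ∧
    |s ^ 2 * m.re| ≤ K.a / 2 := by
  have h := g.hs.q0.1
  have h1 : |m.re| ≤ K.Cm * (1 + Real.log (1 / s ^ 2)) := (Complex.abs_re_le_norm m).trans g.hm3
  have h2 : Real.log (1 / s ^ 2) = 2 * Real.log (1 / s) := by
    rw [one_div, one_div, Real.log_inv, Real.log_inv, Real.log_pow]
    push_cast
    ring
  have h3 : |s ^ 2 * m.re| ≤ 4 * K.Cm * s ^ 2 * (1 + Real.log (1 / s)) / 2 := by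
    rw [abs_mul, abs_of_pos (by positivity)]
    calc s ^ 2 * |m.re| ≤ s ^ 2 * (K.Cm * (1 + Real.log (1 / s ^ 2))) := by gcongr
      _ ≤ s ^ 2 * (K.Cm * (2 * (1 + Real.log (1 / s)))) := by
          have : 0 ≤ K.Cm := by linarith only [hK.hCm]
          rw [h2]
          gcongr
          linarith only
      _ = _ := by ring
  exact ⟨by linarith only [g.hs.q4.1, h3], by linarith only [g.hs.q4.2, h3]⟩

theorem re_le (g : GivZ K M s E η m) (hK : K.Ok) :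
    |(⟨E, η⟩ + ((s ^ 2 : ℝ) : ℂ) * m : ℂ).re| ≤ 2 * K.d - K.a / 2 := by
  rw [g.rez]
  have h1 := abs_add_le E (s ^ 2 * m.re)
  have h2 := (g.shift hK).2
  have h3 := g.hE2
  linarith only [h1, h2, h3]

theorem rpos (g : GivZ K M s E η m) : 0 < K.r s := by
  have h := g.hs.q0.1
  unfold Cst.r
  positivity

theorem xpos (g : GivZ K M s E η m) : 0 < s ^ K.θ := by
  have h := g.hs.q0.1
  positivity

theorem x1 (g : GivZ K M s E η m) : s ^ K.θ ≤ 1 := by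
  have h := g.hs.q5.2
  linarith only [h]

theorem rx (g : GivZ K M s E η m) (hK : K.Ok) : s ^ 2 = K.r s * ((s ^ K.θ) ^ 6) ^ 2 := by
  have h := g.hs.q0.1
  rw [← pow_mul, xpow h, Cst.r, hK.rexp, ← Real.rpow_add h, ← Real.rpow_natCast]
  congr 1
  push_cast
  ring

theorem l1 (g : GivZ K M s E η m) : 1 ≤ 1 + Real.log (1 / s) := by
  have h := g.hs.q0.1
  have : 0 ≤ Real.log (1 / s) := Real.log_nonneg (by rw [le_div_iff₀ h]; linarith [g.s1])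
  linarith

theorem lw (g : GivZ K M s E η m) (hK : K.Ok) :
    1 + Real.log (1 / wv s η m) ≤ K.Kl * (1 + Real.log (1 / s)) :=
  lw_bound g.hs.q0.1 g.s1 hK.hcm.1 hK.hcm.2 g.w1

theorem w_half (g : GivZ K M s E η m) (hK : K.Ok) : wv s η m ≤ 1 / 2 :=
  (g.w2 hK).trans g.hs.q1.2.1

theorem lw0 (g : GivZ K M s E η m) (hK : K.Ok) : 1 ≤ 1 + Real.log (1 / wv s η m) := by
  have h := g.wpos hK
  have : 0 ≤ Real.log (1 / wv s η m) :=
    Real.log_nonneg (by rw [le_div_iff₀ h]; linarith only [g.w_half hK])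
  linarith

theorem MK (g : GivZ K M s E η m) (hK : K.Ok) : K.CK / (wv s η m) ^ 2 ≤ M :=
  g.Mc hK g.w1 (by linarith [hK.hCK]) g.hs.q3.1

theorem MB (g : GivZ K M s E η m) (hK : K.Ok) : K.CB / (wv s η m) ^ 2 ≤ M :=
  g.Mc hK g.w1 (by linarith [hK.hCB]) g.hs.q3.2.1

theorem MF (g : GivZ K M s E η m) (hK : K.Ok) : K.CF / (wv s η m) ^ 2 ≤ M :=
  g.Mc hK g.w1 (by linarith [hK.hCF]) g.hs.q3.2.2.1

theorem MG (g : GivZ K M s E η m) (hK : K.Ok) : K.CG / wv s η m ≤ M :=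
  g.Mc1 hK g.w1 (by linarith [hK.hCG]) g.hs.q3.2.2.2.1

/-- the self-energy at `2 w` -/
theorem im2 (g : GivZ K M s E η m) (hK : K.Ok) (F : FacZ K) :
    wv s η m / m.im * (rs (0 : Tor K.d M → ℝ) ⟨(⟨E, η⟩ + ((s ^ 2 : ℝ) : ℂ) * m : ℂ).re,
      2 * (⟨E, η⟩ + ((s ^ 2 : ℝ) : ℂ) * m : ℂ).im⟩ 0 0).im ≤ 101 / 100 * wv s η m := by
  have hs := g.hs.q0.1
  have hw := g.wpos hK
  have hcm := hK.hcm.1
  have hm : 0 < m.im := lt_of_lt_of_le hcm g.hm1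
  have h := F.imm M (⟨E, η⟩ + ((s ^ 2 : ℝ) : ℂ) * m) (by rw [g.imz]; exact hw)
    (by rw [g.imz]; exact (g.w2 hK).trans g.hs.z10) (by rw [g.imz]; exact g.MB hK)
  rw [g.hm, g.imz] at h
  rw [g.imz]
  generalize (rs (0 : Tor K.d M → ℝ) ⟨(⟨E, η⟩ + ((s ^ 2 : ℝ) : ℂ) * m : ℂ).re,
    2 * wv s η m⟩ 0 0) = G at h ⊢
  have h0 : 0 ≤ K.CB := by linarith only [hK.hCB]
  have h11 : 0 ≤ K.Kl := by linarith [hK.Klpos]
  have h12 : 0 ≤ 1 + Real.log (1 / s) := by linarith [g.l1]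
  have h1 : Real.sqrt (wv s η m) ≤ Real.sqrt K.Cw * s := by
    calc Real.sqrt (wv s η m) ≤ Real.sqrt (K.Cw * s ^ 2) := Real.sqrt_le_sqrt (g.w2 hK)
      _ = Real.sqrt K.Cw * s := by
          rw [Real.sqrt_mul (by linarith [hK.Cwpos]), Real.sqrt_sq hs.le]
  have h2 : ‖G - m‖ ≤ K.cm / 100 := by
    calc ‖G - m‖ ≤ K.CB * (1 + Real.log (1 / wv s η m)) * Real.sqrt (wv s η m) := h
      _ ≤ K.CB * (K.Kl * (1 + Real.log (1 / s))) * (Real.sqrt K.Cw * s) := by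
          have := g.lw hK
          have := g.lw0 hK
          gcongr
      _ = K.CB * K.Kl * Real.sqrt K.Cw * s * (1 + Real.log (1 / s)) := by ring
      _ ≤ K.cm / 100 := g.hs.z9
  have h3 : G.im - m.im ≤ K.cm / 100 := by
    have := (le_abs_self (G - m).im).trans (Complex.abs_im_le_norm (G - m))
    rw [Complex.sub_im] at this
    linarith only [h2, this]
  have h4 : G.im ≤ 101 / 100 * m.im := by
    have := g.hm1
    linarith only [h3, this]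
  calc wv s η m / m.im * G.im ≤ wv s η m / m.im * (101 / 100 * m.im) := by gcongr
    _ = 101 / 100 * wv s η m := by field_simp

/-- `Im G₀ / w` -/
theorem kf0 (g : GivZ K M s E η m) (hK : K.Ok) (kft : KftStmt) :
    kf (⟨E, η⟩ + ((s ^ 2 : ℝ) : ℂ) * m) (0 : Tor K.d M) = m.im / wv s η m := by
  obtain ⟨-, -, -, -, -, k6⟩ := kft K.d M (⟨E, η⟩ + ((s ^ 2 : ℝ) : ℂ) * m)
    (by rw [g.imz]; exact g.wpos hK)
  rw [k6, g.imz, g.hm]

/-- the bound for `K` outside of the low momenta -/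
theorem kf_high (g : GivZ K M s E η m) (hK : K.Ok) (F : FacZ K) (kft : KftStmt) {p : Tor K.d M}
    (hp : p ∉ low K.d M (Jv K s M)) (hJ : K.r s ≤ (Jv K s M : ℝ) / M) :
    |kf (⟨E, η⟩ + ((s ^ 2 : ℝ) : ℂ) * m) p| ≤
      (s ^ K.θ) ^ 3 / 8 * kf (⟨E, η⟩ + ((s ^ 2 : ℝ) : ℂ) * m) (0 : Tor K.d M) := by
  have hw := g.wpos hK
  have hr := g.rpos
  obtain ⟨k1, -, -, -, -, -⟩ := kft K.d M (⟨E, η⟩ + ((s ^ 2 : ℝ) : ℂ) * m)
    (by rw [g.imz]; exact hw)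
  rw [g.kf0 hK kft, k1 p]
  obtain ⟨i, hi⟩ := sin_low hp
  obtain ⟨h5, -⟩ := F.khb M (⟨E, η⟩ + ((s ^ 2 : ℝ) : ℂ) * m) p i (by rw [g.imz]; exact hw)
    (by rw [g.imz]; exact g.w_half hK) (by rw [g.imz]; exact g.MK hK)
  rw [g.imz] at h5
  have h6 : K.r s ≤ wv s η m + |Real.sin (Real.pi * ((p i).valMinAbs : ℝ) / M)| := by
    have : 2 * (Jv K s M : ℝ) / M = 2 * ((Jv K s M : ℝ) / M) := by ring
    rw [this] at hi
    linarith only [hJ, hw, hr, hi]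
  have h7 := sqrt_bound hw (g.w2 hK) hr (g.rx hK) g.xpos.le h6 (by linarith only [hK.Cwpos])
  have h8 : 0 ≤ K.CK := by linarith only [hK.hCK]
  have h9 := g.lw hK
  have h10 := g.lw0 hK
  have h11 : 0 ≤ K.Kl := by linarith only [hK.Klpos]
  have h12 : 0 ≤ 1 + Real.log (1 / s) := by linarith only [g.l1]
  refine (Complex.abs_re_le_norm _).trans (h5.trans ?_)
  calc K.CK * (1 + Real.log (1 / wv s η m)) / wv s η m *
        Real.sqrt (wv s η m / (wv s η m + |Real.sin (Real.pi * ((p i).valMinAbs : ℝ) / M)|))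
      ≤ K.CK * (K.Kl * (1 + Real.log (1 / s))) / wv s η m *
        (Real.sqrt K.Cw * (s ^ K.θ) ^ 6) := by gcongr
    _ = K.CK * K.Kl * (1 + Real.log (1 / s)) * (Real.sqrt K.Cw * (s ^ K.θ) ^ 6) / wv s η m := by
        ring
    _ ≤ K.cm * ((s ^ K.θ) ^ 3 / 8) / wv s η m := by
        have := g.hs.q12
        gcongr
    _ ≤ (s ^ K.θ) ^ 3 / 8 * (m.im / wv s η m) := by
        have a1 := g.hm1
        have a2 : 0 ≤ (s ^ K.θ) ^ 3 / 8 := by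
          have := g.xpos
          positivity
        have a3 : (s ^ K.θ) ^ 3 / 8 * (m.im / wv s η m) =
            m.im * ((s ^ K.θ) ^ 3 / 8) / wv s η m := by ring
        rw [a3]
        gcongr

/-- the number `J` -/
theorem Jb (g : GivZ K M s E η m) (hK : K.Ok) : 1 ≤ Jv K s M ∧ K.r s ≤ (Jv K s M : ℝ) / M ∧
    (Jv K s M : ℝ) / M ≤ 2 * K.r s := by
  have hs := g.hs.q0.1
  apply ceil_bound g.Mpos
  have h0 := hK.θpos
  calc (1 : ℝ) = s ^ (0 : ℝ) := (Real.rpow_zero s).symm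
    _ ≤ s ^ (-(5 : ℝ) + (2 - K.ε / (2 * K.d))) := by
        apply Real.rpow_le_rpow_of_exponent_ge hs g.s1
        rw [hK.rexp]
        linarith
    _ = s ^ (-(5 : ℝ)) * K.r s := Real.rpow_add hs _ _
    _ ≤ M * K.r s := by
        have := g.hM1
        have := g.rpos
        gcongr

end GivZ

end Pool.Agent.LE.QZ.H84
end
end -- Pool.Agent.Helper84_LQZ.INIb

section -- Pool.Agent.Helper84_LQZ.INIc

/-!
# The parameters (all energies of the bulk): `Adm` and the errors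
-/

set_option autoImplicit false

open MeasureTheory ProbabilityTheory Function Filter

open scoped ENNReal BigOperators Topology NNReal ComplexOrder Matrix

noncomputable section

namespace Pool.Agent.LE.QZ.H84

open Pool.Agent.Anderson hiding box mem_box card_box
open Pool.Agent.Loc Pool.Agent.Mob Pool.Agent.Helper54.Bal
  Pool.Agent.Helper96.EXP Pool.Agent.BED
open Pool.Agent.LE.MN Pool.Agent.LE.CL Pool.Agent.LE.IR Pool.Agent.LE.QD Pool.Agent.LE.QF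
open Pool.Agent.LE.QF.H68

section Mk

variable (K : Cst) (M : ℕ) [NeZero M] (s E η : ℝ) (m : ℂ) (i : Fin K.d) (ξ : ℝ)

theorem mx_w : (mkZ K s E η m i ξ M).w = wv s η m := by
  simp [Dat.w, Dat.kp, mkZ, wv]

theorem mx_zt : (mkZ K s E η m i ξ M).zt 0 = ⟨E, η⟩ + ((s ^ 2 : ℝ) : ℂ) * m := by
  simp [Dat.zt, mkZ]

theorem mx_ta : (mkZ K s E η m i ξ M).ta 0 = wv s η m / m.im := by
  simp [Dat.ta, Dat.kp, mkZ, wv]

theorem mx_G0 : (mkZ K s E η m i ξ M).G0 = rs 0 (⟨E, η⟩ + ((s ^ 2 : ℝ) : ℂ) * m) := by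
  unfold Dat.G0
  rw [mx_zt]

theorem mx_G : (mkZ K s E η m i ξ M).G 0 = rs 0 (⟨E, η⟩ + ((s ^ 2 : ℝ) : ℂ) * m) := by
  unfold Dat.G
  rw [Prod.snd_zero, Prod.fst_zero, mx_zt]

end Mk

variable {K : Cst} {M : ℕ} [NeZero M] {s E η : ℝ} {m : ℂ} {i : Fin K.d} {ξ : ℝ}

namespace GivZ

theorem mpos (g : GivZ K M s E η m) (hK : K.Ok) : 0 < m.im := lt_of_lt_of_le hK.hcm.1 g.hm1

theorem m_diag (g : GivZ K M s E η m) (hK : K.Ok) (ral : RalStmt) (a : Tor K.d M) :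
    rs (0 : Tor K.d M → ℝ) (⟨E, η⟩ + ((s ^ 2 : ℝ) : ℂ) * m) a a = m := by
  have h : 0 < (⟨E, η⟩ + ((s ^ 2 : ℝ) : ℂ) * m : ℂ).im := by
    rw [g.imz]
    exact g.wpos hK
  rw [rs_diag ral _ h, ← rs_diag ral _ h (0 : Tor K.d M)]
  exact g.hm

/-- the logarithm of `M` -/
theorem logM (g : GivZ K M s E η m) : Real.log M ≤ s ^ (-(K.θ / 8)) := by
  rw [Real.log_le_iff_le_exp g.Mpos]
  exact g.hM2

theorem ypos (g : GivZ K M s E η m) : 0 < s ^ (K.θ / 8) := by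
  have := g.hs.q0.1
  positivity

theorem xy (g : GivZ K M s E η m) : s ^ K.θ = (s ^ (K.θ / 8)) ^ 8 := by
  rw [xpow g.hs.q0.1]
  congr 1
  push_cast
  ring

theorem y1 (g : GivZ K M s E η m) (hK : K.Ok) : s ^ (K.θ / 8) ≤ 1 := by
  apply Real.rpow_le_one g.hs.q0.1.le g.s1
  have := hK.θpos
  positivity

theorem Yy (g : GivZ K M s E η m) : s ^ (-(K.θ / 8)) = (s ^ (K.θ / 8))⁻¹ :=
  Real.rpow_neg g.hs.q0.1.le _

theorem Md (g : GivZ K M s E η m) :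
    (M : ℝ) ^ K.d ≤ Real.exp (K.d * (s ^ (K.θ / 8))⁻¹) := by
  have hM := g.Mpos
  have h1 := g.logM
  rw [g.Yy] at h1
  have h2 : (M : ℝ) ≤ Real.exp ((s ^ (K.θ / 8))⁻¹) := by
    rw [← Real.log_le_iff_le_exp hM]
    exact h1
  calc (M : ℝ) ^ K.d ≤ (Real.exp ((s ^ (K.θ / 8))⁻¹)) ^ K.d := by gcongr
    _ = Real.exp (K.d * (s ^ (K.θ / 8))⁻¹) := by
        rw [← Real.exp_nat_mul]

theorem hk (g : GivZ K M s E η m) (hK : K.Ok) :
    1 ≤ ⌈((s ^ (K.θ / 8)) ^ 2)⁻¹⌉₊ ∧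
    (⌈((s ^ (K.θ / 8)) ^ 2)⁻¹⌉₊ : ℝ) * (s ^ K.θ) ^ 5 ≤ K.c₀ ∧
    (M : ℝ) ^ K.d * (9 / 10) ^ (2 * ⌈((s ^ (K.θ / 8)) ^ 2)⁻¹⌉₊) ≤ 1 / 4 := by
  have hy := g.ypos
  have hy1 := g.y1 hK
  have h1 : 1 ≤ ((s ^ (K.θ / 8)) ^ 2)⁻¹ := by
    rw [one_le_inv₀ (by positivity)]
    exact pow_le_one₀ hy.le hy1
  have h2 : ((s ^ (K.θ / 8)) ^ 2)⁻¹ ≤ (⌈((s ^ (K.θ / 8)) ^ 2)⁻¹⌉₊ : ℝ) := Nat.le_ceil _
  have h3 : (⌈((s ^ (K.θ / 8)) ^ 2)⁻¹⌉₊ : ℝ) ≤ 2 * ((s ^ (K.θ / 8)) ^ 2)⁻¹ := by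
    have := Nat.ceil_lt_add_one (by positivity : 0 ≤ ((s ^ (K.θ / 8)) ^ 2)⁻¹)
    linarith only [h1, this]
  refine ⟨?_, ?_, ?_⟩
  · have : (1 : ℝ) ≤ (⌈((s ^ (K.θ / 8)) ^ 2)⁻¹⌉₊ : ℝ) := h1.trans h2
    exact_mod_cast this
  · rw [g.xy]
    calc (⌈((s ^ (K.θ / 8)) ^ 2)⁻¹⌉₊ : ℝ) * ((s ^ (K.θ / 8)) ^ 8) ^ 5
        ≤ 2 * ((s ^ (K.θ / 8)) ^ 2)⁻¹ * ((s ^ (K.θ / 8)) ^ 8) ^ 5 := by gcongr
      _ = 2 * (s ^ (K.θ / 8)) ^ 38 := by field_simp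
      _ ≤ K.c₀ := g.hs.z2
  · generalize (⌈((s ^ (K.θ / 8)) ^ 2)⁻¹⌉₊) = k at h2 h3
    have h4 := g.Md
    have h5 : (9 / 10 : ℝ) ^ (2 * k) ≤ Real.exp (-(((s ^ (K.θ / 8)) ^ 2)⁻¹ / 5)) := by
      have a1 : (81 / 100 : ℝ) ≤ Real.exp (-(1 / 5)) := by
        have b1 : Real.exp (1 / 5) ≤ 100 / 81 := by
          have c1 : (Real.exp (1 / 5)) ^ 5 = Real.exp 1 := by
            rw [← Real.exp_nat_mul]
            norm_num
          have c2 := Real.exp_one_lt_d9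
          have c3 : (Real.exp (1 / 5)) ^ 5 ≤ (100 / 81) ^ 5 := by
            rw [c1]
            norm_num
            linarith only [c2]
          exact le_of_pow_le_pow_left₀ (by norm_num) (by norm_num) c3
        rw [Real.exp_neg, le_inv_comm₀ (by norm_num) (Real.exp_pos _)]
        norm_num
        norm_num at b1
        exact b1
      calc (9 / 10 : ℝ) ^ (2 * k) = (81 / 100) ^ k := by
            rw [pow_mul]
            norm_num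
        _ ≤ (Real.exp (-(1 / 5))) ^ k := by gcongr
        _ = Real.exp (-((k : ℝ) / 5)) := by
            rw [← Real.exp_nat_mul]
            congr 1
            ring
        _ ≤ Real.exp (-(((s ^ (K.θ / 8)) ^ 2)⁻¹ / 5)) := by
            apply Real.exp_le_exp.2
            linarith
    calc (M : ℝ) ^ K.d * (9 / 10) ^ (2 * k)
        ≤ Real.exp (K.d * (s ^ (K.θ / 8))⁻¹) *
          Real.exp (-(((s ^ (K.θ / 8)) ^ 2)⁻¹ / 5)) := by gcongr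
      _ = Real.exp (K.d * (s ^ (K.θ / 8))⁻¹ + -(((s ^ (K.θ / 8)) ^ 2)⁻¹ / 5)) := by
          rw [Real.exp_add]
      _ ≤ Real.exp (-2) := by
          apply Real.exp_le_exp.2
          have b1 := g.hs.z3
          have b2 : (K.d + 2) * (s ^ (K.θ / 8))⁻¹ ≤ ((s ^ (K.θ / 8)) ^ 2)⁻¹ / 5 := by
            calc (K.d + 2) * (s ^ (K.θ / 8))⁻¹
                = (5 * (K.d + 2) * s ^ (K.θ / 8)) * ((s ^ (K.θ / 8)) ^ 2)⁻¹ / 5 := by field_simp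
              _ ≤ 1 * ((s ^ (K.θ / 8)) ^ 2)⁻¹ / 5 := by gcongr
              _ = _ := by ring
          have b3 : 1 ≤ (s ^ (K.θ / 8))⁻¹ := by
            rw [one_le_inv₀ hy]
            exact hy1
          linarith only [b2, b3]
      _ ≤ 1 / 4 := by
          rw [Real.exp_neg, one_div]
          apply inv_anti₀ (by norm_num)
          have c1 := Real.exp_one_gt_d9
          have c2 : Real.exp 2 = Real.exp 1 * Real.exp 1 := by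
            rw [← Real.exp_add]
            norm_num
          rw [c2]
          nlinarith only [c1]

theorem xi (g : GivZ K M s E η m) (n : ℕ) : 1 ≤ ((s ^ K.θ) ^ n)⁻¹ := by
  have hx := g.xpos
  have hx1 := g.x1
  rw [one_le_inv₀ (by positivity)]
  exact pow_le_one₀ hx.le hx1

theorem Npos (g : GivZ K M s E η m) (hK : K.Ok) :
    1 ≤ K.CF * (wv s η m) ^ (-(2 / 3 : ℝ)) * (1 + Real.log M) ^ 6 := by
  have h1 := hK.hCF
  have h2 : 1 ≤ (wv s η m) ^ (-(2 / 3 : ℝ)) := by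
    apply Real.one_le_rpow_of_pos_of_le_one_of_nonpos (g.wpos hK)
    · linarith only [g.w_half hK]
    · norm_num
  have h3 : 1 ≤ (1 + Real.log M) ^ 6 := by
    apply one_le_pow₀
    have := Real.log_nonneg g.M1
    linarith only [this]
  calc (1 : ℝ) = 1 * 1 * 1 := by norm_num
    _ ≤ _ := by gcongr

theorem jlow (g : GivZ K M s E η m) : 2 ≤ ⌈(s ^ K.θ)⁻¹⌉₊ ∧ 2 ≤ ⌈((s ^ K.θ) ^ 4)⁻¹⌉₊ := by
  have hx := g.xpos
  have hx8 := g.hs.q5.2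
  have h1 : 8 ≤ (s ^ K.θ)⁻¹ := by
    rw [le_inv_comm₀ (by norm_num) hx]
    linarith only [hx8]
  have h2 : 8 ≤ ((s ^ K.θ) ^ 4)⁻¹ := by
    refine h1.trans ?_
    apply inv_anti₀ (by positivity)
    calc (s ^ K.θ) ^ 4 ≤ (s ^ K.θ) ^ 1 := pow_le_pow_of_le_one hx.le g.x1 (by norm_num)
      _ = s ^ K.θ := pow_one _
  constructor
  · have := h1.trans (Nat.le_ceil (s ^ K.θ)⁻¹)
    have h3 : (8 : ℕ) ≤ ⌈(s ^ K.θ)⁻¹⌉₊ := by exact_mod_cast this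
    omega
  · have := h2.trans (Nat.le_ceil ((s ^ K.θ) ^ 4)⁻¹)
    have h3 : (8 : ℕ) ≤ ⌈((s ^ K.θ) ^ 4)⁻¹⌉₊ := by exact_mod_cast this
    omega

theorem tk (g : GivZ K M s E η m) (hK : K.Ok) (kft : KftStmt) :
    wv s η m / m.im * kf (⟨E, η⟩ + ((s ^ 2 : ℝ) : ℂ) * m) (0 : Tor K.d M) = 1 := by
  have hw := g.wpos hK
  have hm := g.mpos hK
  rw [g.kf0 hK kft]
  field_simp

theorem hYm (g : GivZ K M s E η m) (hK : K.Ok) (F : FacZ K) (kft : KftStmt) (ixi : IxiStmt)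
    (u : Tor K.d M → ℂ) : n2 ((mkZ K s E η m i ξ M).Xi 0 *ᵥ u) ≤ 118 / 125 * n2 u := by
  have hw := g.wpos hK
  have hm := g.mpos hK
  have hz : 0 < (⟨E, η⟩ + ((s ^ 2 : ℝ) : ℂ) * m : ℂ).im := by
    rw [g.imz]
    exact hw
  obtain ⟨-, h2⟩ := ixi K.d M (⟨E, η⟩ + ((s ^ 2 : ℝ) : ℂ) * m) (wv s η m / m.im) hz
    (by positivity) (g.tk hK kft) (by
      have h1 := g.im2 hK F
      have h3 : (101 / 100 * (⟨E, η⟩ + ((s ^ 2 : ℝ) : ℂ) * m : ℂ).im) =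
        101 / 100 * wv s η m := by rw [g.imz]
      rw [h3]
      exact h1)
  unfold Dat.Xi Dat.Y
  rw [Prod.fst_zero, mx_ta, mx_G]
  exact h2 u

theorem h6m (g : GivZ K M s E η m) (hK : K.Ok) (kft : KftStmt) (ixu : IxuStmt) (hξ : 1 ≤ ξ) :
    0 < (mkZ K s E η m i ξ M).lam ∧
      (mkZ K s E η m i ξ M).U6 0 ≤ (mkZ K s E η m i ξ M).zt0 := by
  have hw := g.wpos hK
  have hm := g.mpos hK
  have hcm := hK.hcm.1
  have hM := g.Mpos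
  have hz : 0 < (⟨E, η⟩ + ((s ^ 2 : ℝ) : ℂ) * m : ℂ).im := by
    rw [g.imz]
    exact hw
  have hl : (mkZ K s E η m i ξ M).lam =
    K.cm * wv s η m * (M : ℝ) ^ 2 / (100 * (M : ℝ) ^ K.d * ξ) := rfl
  have hl0 : 0 < (mkZ K s E η m i ξ M).lam := by
    rw [hl]
    positivity
  refine ⟨hl0, ?_⟩
  have h1 := ixu K.d M (⟨E, η⟩ + ((s ^ 2 : ℝ) : ℂ) * m) (wv s η m / m.im) i hz
    (by positivity) (g.tk hK kft)
  rw [g.imz] at h1
  unfold Dat.U6 Dat.X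
  rw [Prod.fst_zero, mx_ta, mx_G]
  have h2 : (mkZ K s E η m i ξ M).f₁ = fun x => (ec (Pi.single i 1) x).re := rfl
  have h3 : (mkZ K s E η m i ξ M).f₂ = fun x => (ec (Pi.single i 1) x).im := rfl
  have h4 : (mkZ K s E η m i ξ M).zt0 = 1 / ξ := rfl
  rw [h2, h3, h4]
  calc (mkZ K s E η m i ξ M).lam * (wv s η m / m.im *
        (qf (((wv s η m / m.im) • Dl (KK (rs (0 : Tor K.d M → ℝ)
          (⟨E, η⟩ + ((s ^ 2 : ℝ) : ℂ) * m))))) (fun x => (ec (Pi.single i 1) x).re) +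
        qf (((wv s η m / m.im) • Dl (KK (rs (0 : Tor K.d M → ℝ)
          (⟨E, η⟩ + ((s ^ 2 : ℝ) : ℂ) * m))))) (fun x => (ec (Pi.single i 1) x).im)))
      ≤ (mkZ K s E η m i ξ M).lam * (wv s η m / m.im *
        (100 * (M : ℝ) ^ K.d / (M * wv s η m) ^ 2)) := by gcongr
    _ = K.cm / m.im * (1 / ξ) := by
        rw [hl]
        field_simp
    _ ≤ 1 * (1 / ξ) := by
        have : K.cm / m.im ≤ 1 := by
          rw [div_le_one hm]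
          exact g.hm1
        gcongr
    _ = 1 / ξ := one_mul _

theorem hWm (g : GivZ K M s E η m) (hK : K.Ok) (F : FacZ K) (kft : KftStmt) (inw : InwStmt)
    (hcs : 2 * K.Cm ≤ K.cG * K.cs) (f : Tor K.d M → ℝ) :
    (1 + (s ^ K.θ) ^ 3 / 2) * qf ((mkZ K s E η m i ξ M).A 0)⁻¹ f ≤
      qf ((mkZ K s E η m i ξ M).X 0 + P0 (Tor K.d M)) f := by
  have hw := g.wpos hK
  have hx := g.xpos
  have hx1 := g.x1
  have hm := g.mpos hK
  have hz : 0 < (⟨E, η⟩ + ((s ^ 2 : ℝ) : ℂ) * m : ℂ).im := by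
    rw [g.imz]
    exact hw
  obtain ⟨hJ1, hJ2, hJ3⟩ := g.Jb hK
  have hcs1 := hK.hcs
  have hx3 : 0 < (s ^ K.θ) ^ 3 := by positivity
  have hx31 : (s ^ K.θ) ^ 3 ≤ 1 := pow_le_one₀ hx.le hx1
  have h := inw K.d M (⟨E, η⟩ + ((s ^ 2 : ℝ) : ℂ) * m) (Jv K s M) K.cs (1 + (s ^ K.θ) ^ 3)
    (1 + (s ^ K.θ) ^ 3 / 2) ((s ^ K.θ) ^ 3 / 8) K.cG (wv s η m / m.im) hz (by positivity)
    (by
      rw [g.kf0 hK kft]
      field_simp)
    hK.hcG (by linarith only [hcs1]) (by positivity) (by nlinarith only [hx3, hx31]) (by positivity) (by linarith only [hx31])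
    (by positivity)
    (by
      rw [g.imz, mul_div_assoc', le_div_iff₀ hm]
      have h2 := g.hm2
      calc 2 * wv s η m * m.im ≤ 2 * wv s η m * K.Cm := by gcongr
        _ = 2 * K.Cm * wv s η m := by ring
        _ ≤ K.cG * K.cs * wv s η m := by gcongr)
    (fun p hp => g.kf_high hK F kft hp hJ2)
    (fun p hp => F.gal M _ p (g.re_le hK) hz
      (by rw [g.imz]; exact (g.w2 hK).trans g.hs.q1.2.2) (by rw [g.imz]; exact g.MG hK)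
      (fun i => by
        have a1 := abs_low hp i
        have a2 := g.Mpos
        rw [div_le_iff₀ a2] at hJ3
        have a3 := g.hs.q13
        nlinarith only [hJ3, a1, a3])) f
  rw [g.imz] at h
  unfold Dat.A Dat.X
  rw [mx_ta, Prod.fst_zero, mx_ta, mx_G]
  exact h

theorem hϖm (g : GivZ K M s E η m) (hK : K.Ok) (F : FacZ K) (f : Tor K.d M → ℝ) :
    (s ^ K.θ) ^ 5 / ((2 + 2 * K.cs / K.cm) * (M : ℝ) ^ 2) * qf ((mkZ K s E η m i ξ M).A 0) f ≤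
      (s ^ K.θ) ^ 5 * ∑ a, f a ^ 2 := by
  have hw := g.wpos hK
  have hx := g.xpos
  have hx1 := g.x1
  have hm := g.mpos hK
  have hcm := hK.hcm.1
  have hcs : 0 < K.cs := by linarith [hK.hcs]
  have hM := g.Mpos
  have hM1 := g.M1
  obtain ⟨hJ1, hJ2, hJ3⟩ := g.Jb hK
  obtain ⟨-, -, k3⟩ := F.inm M (Jv K s M) K.cs (wv s η m) _ _ hJ1 hK.hcs hw
    (by linarith only [g.w_half hK]) rfl rfl
  have hf0 : 0 ≤ ∑ a, f a ^ 2 := Finset.sum_nonneg fun _ _ => by positivity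
  have hx31 : (s ^ K.θ) ^ 3 ≤ 1 := pow_le_one₀ hx.le hx1
  have hM2 : 1 ≤ (M : ℝ) ^ 2 := one_le_pow₀ hM1
  have h1 : qf ((mkZ K s E η m i ξ M).A 0) f ≤
      (2 + 2 * K.cs / K.cm) * (M : ℝ) ^ 2 * ∑ a, f a ^ 2 := by
    unfold Dat.A
    rw [mx_ta, qf_add_smul]
    have a1 : wv s η m / m.im * qf (mkZ K s E η m i ξ M).S f ≤
        2 * K.cs / K.cm * (M : ℝ) ^ 2 * ∑ a, f a ^ 2 := by
      calc wv s η m / m.im * qf (mkZ K s E η m i ξ M).S f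
          ≤ wv s η m / m.im * (2 * K.cs / wv s η m * (M : ℝ) ^ 2 * ∑ a, f a ^ 2) := by
            have := k3 f
            gcongr
            exact this
        _ = 2 * K.cs / m.im * (M : ℝ) ^ 2 * ∑ a, f a ^ 2 := by
            field_simp
        _ ≤ 2 * K.cs / K.cm * (M : ℝ) ^ 2 * ∑ a, f a ^ 2 := by
            have := g.hm1
            gcongr
    have a2 : (mkZ K s E η m i ξ M).e₀ * ∑ a, f a ^ 2 ≤ 2 * (M : ℝ) ^ 2 * ∑ a, f a ^ 2 := by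
      have : (mkZ K s E η m i ξ M).e₀ ≤ 2 * (M : ℝ) ^ 2 := by
        show 1 + (s ^ K.θ) ^ 3 ≤ 2 * (M : ℝ) ^ 2
        linarith only [hx31, hM2]
      gcongr
    linarith
  calc (s ^ K.θ) ^ 5 / ((2 + 2 * K.cs / K.cm) * (M : ℝ) ^ 2) * qf ((mkZ K s E η m i ξ M).A 0) f
      ≤ (s ^ K.θ) ^ 5 / ((2 + 2 * K.cs / K.cm) * (M : ℝ) ^ 2) *
        ((2 + 2 * K.cs / K.cm) * (M : ℝ) ^ 2 * ∑ a, f a ^ 2) := by gcongr
    _ = (s ^ K.θ) ^ 5 * ∑ a, f a ^ 2 := by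
        field_simp

/-- the number of the near points -/
theorem hNm (g : GivZ K M s E η m)
    (hfrb : ∀ x : Tor K.d M,
      (∀ y, ‖rs (0 : Tor K.d M → ℝ) (⟨E, η⟩ + ((s ^ 2 : ℝ) : ℂ) * m) x y‖ ≤ K.CF) ∧
      ∑ y, ‖rs (0 : Tor K.d M → ℝ) (⟨E, η⟩ + ((s ^ 2 : ℝ) : ℂ) * m) x y‖ ^ 4 ≤
        K.CF * (wv s η m) ^ (-(2 / 3 : ℝ)) * (1 + Real.log M) ^ 6) (a : Tor K.d M) :
    (((mkZ K s E η m i ξ M).nr a).card : ℝ) ≤ (mkZ K s E η m i ξ M).N := by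
  have hx := g.xpos
  have h := (hfrb a).2
  have hδ : 0 < (mkZ K s E η m i ξ M).δ := by
    show 0 < (s ^ K.θ) ^ 5
    positivity
  have hN : (mkZ K s E η m i ξ M).N = ((mkZ K s E η m i ξ M).δ ^ 4)⁻¹ *
    (K.CF * (wv s η m) ^ (-(2 / 3 : ℝ)) * (1 + Real.log M) ^ 6) := rfl
  rw [hN]
  refine nr_card (fun b => (mkZ K s E η m i ξ M).G0 a b) hδ _ ?_ ?_
  · intro b hb
    unfold Dat.nr at hb
    rw [Finset.mem_filter] at hb
    exact hb.2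
  · rw [mx_G0]
    exact h

/-- the initial value of `La` -/
theorem hLm (g : GivZ K M s E η m) (hK : K.Ok)
    (hfrb : ∀ x : Tor K.d M,
      (∀ y, ‖rs (0 : Tor K.d M → ℝ) (⟨E, η⟩ + ((s ^ 2 : ℝ) : ℂ) * m) x y‖ ≤ K.CF) ∧
      ∑ y, ‖rs (0 : Tor K.d M → ℝ) (⟨E, η⟩ + ((s ^ 2 : ℝ) : ℂ) * m) x y‖ ^ 4 ≤
        K.CF * (wv s η m) ^ (-(2 / 3 : ℝ)) * (1 + Real.log M) ^ 6) (a : Tor K.d M) :
    4 * (mkZ K s E η m i ξ M).La 0 a ≤ (mkZ K s E η m i ξ M).Ls 0 := by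
  have hs := g.hs.q0.1
  have hw := g.wpos hK
  have hx := g.xpos
  have hx1 := g.x1
  have h1 : (mkZ K s E η m i ξ M).La 0 a =
      ∑ b, ‖rs (0 : Tor K.d M → ℝ) (⟨E, η⟩ + ((s ^ 2 : ℝ) : ℂ) * m) a b‖ ^ 4 := by
    unfold Dat.La KK
    rw [mx_G]
    refine Finset.sum_congr rfl fun b _ => ?_
    ring
  have h2 : (mkZ K s E η m i ξ M).La 0 a ≤
      K.CF * (wv s η m) ^ (-(2 / 3 : ℝ)) * (1 + Real.log M) ^ 6 := by
    rw [h1]
    exact (hfrb a).2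
  have hLL := g.Npos hK
  have hls : (mkZ K s E η m i ξ M).Ls 0 = ((s ^ K.θ) ^ 6)⁻¹ * ((((s ^ K.θ) ^ 5) ^ 4)⁻¹ *
      (K.CF * (wv s η m) ^ (-(2 / 3 : ℝ)) * (1 + Real.log M) ^ 6) +
        (s ^ 3 + s ^ K.ε) / wv s η m +
        ((s ^ K.θ) ^ 5) ^ 4 / wv s η m) := by
    have a0 : (mkZ K s E η m i ξ M).kp 0 = wv s η m := mx_w K M s E η m i ξ
    unfold Dat.Ls
    rw [a0]
    rfl
  rw [hls]
  generalize K.CF * (wv s η m) ^ (-(2 / 3 : ℝ)) * (1 + Real.log M) ^ 6 = LL1 at h2 hLL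
  have hN : 1 ≤ (((s ^ K.θ) ^ 5) ^ 4)⁻¹ := by
    rw [← pow_mul]
    exact g.xi 20
  have hNN : LL1 ≤ (((s ^ K.θ) ^ 5) ^ 4)⁻¹ * LL1 := le_mul_of_one_le_left (by linarith only [hLL]) hN
  have h3 : 4 ≤ ((s ^ K.θ) ^ 6)⁻¹ := by
    rw [le_inv_comm₀ (by norm_num) (by positivity)]
    have h8 := g.hs.q5.2
    calc (s ^ K.θ) ^ 6 ≤ (s ^ K.θ) ^ 1 := pow_le_pow_of_le_one hx.le hx1 (by norm_num)
      _ = s ^ K.θ := pow_one _
      _ ≤ 4⁻¹ := by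
          norm_num at h8 ⊢
          linarith only [hx, h8]
  have a3 : 0 ≤ (s ^ 3 + s ^ K.ε) / wv s η m := by positivity
  have a4 : 0 ≤ ((s ^ K.θ) ^ 5) ^ 4 / wv s η m := by positivity
  have h5 : 4 * LL1 ≤ ((s ^ K.θ) ^ 6)⁻¹ * ((((s ^ K.θ) ^ 5) ^ 4)⁻¹ * LL1) := by
    have : 0 ≤ LL1 := by linarith only [hLL]
    gcongr
  have h6 : ((s ^ K.θ) ^ 6)⁻¹ * ((((s ^ K.θ) ^ 5) ^ 4)⁻¹ * LL1) ≤
      ((s ^ K.θ) ^ 6)⁻¹ * ((((s ^ K.θ) ^ 5) ^ 4)⁻¹ * LL1 +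
        (s ^ 3 + s ^ K.ε) / wv s η m +
        ((s ^ K.θ) ^ 5) ^ 4 / wv s η m) := by
    apply mul_le_mul_of_nonneg_left _ (by positivity)
    linarith only [a3, a4]
  linarith

/-- the diagonal of `S` -/
theorem hSm (g : GivZ K M s E η m) (hK : K.Ok)
    (h : ∀ a : Tor K.d M, wv s η m * mlt (sy0 K.cs (wv s η m) (Jv K s M)) a a ≤
      K.CI * K.cs * (((Jv K s M : ℝ) / M) ^ K.d +
        (wv s η m) ^ 2 * ((Jv K s M : ℝ) / M) ^ (K.d - 2))) (a : Tor K.d M) :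
    mlt (sy0 K.cs (wv s η m) (Jv K s M)) a a + 1 / (η * (M : ℝ) ^ K.d) ≤ s ^ 3 + s ^ K.ε := by
  have hs := g.hs.q0.1
  have hw := g.wpos hK
  have hη := g.ηpos
  have hM := g.Mpos
  have hM1 := g.M1
  have hcm := hK.hcm.1
  have hcs0 : 0 < K.cs := by linarith [hK.hcs]
  have hCI0 : 0 < K.CI := by linarith [hK.hCI]
  have hCw : 2 ≤ K.Cw := hK.Cwpos
  have hd := hK.dpos
  have hε := hK.hε.1
  have hε1 := hK.hε.2
  obtain ⟨hJ1, hJ2, hJ3⟩ := g.Jb hK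
  have h1 := pi_bound (η := s ^ (2 * (K.d : ℝ) - K.ε)) hK.hd hs g.s1 hε hCI0.le hcs0.le
    (by linarith only [hCw]) hw.le (g.w2 hK) rfl (r := K.r s) rfl (by positivity) hJ3
  have h0 : 0 < s ^ (2 * (K.d : ℝ) - K.ε) := by positivity
  rw [div_le_iff₀ h0] at h1
  have h2 := (h a).trans h1
  have h3 : mlt (sy0 K.cs (wv s η m) (Jv K s M)) a a ≤
      K.CI * K.cs * 2 ^ K.d * (4 + K.Cw ^ 2) / K.cm * s ^ (1 / 2 : ℝ) * s ^ 3 := by
    have a1 : mlt (sy0 K.cs (wv s η m) (Jv K s M)) a a ≤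
        K.CI * K.cs * 2 ^ K.d * (4 + K.Cw ^ 2) * s ^ (K.ε / 2) * s ^ (2 * (K.d : ℝ) - K.ε) /
          wv s η m := by
      rw [le_div_iff₀ hw, mul_comm]
      exact h2
    have a2 : s ^ (K.ε / 2) * s ^ (2 * (K.d : ℝ) - K.ε) ≤ s ^ (1 / 2 : ℝ) * s ^ 3 * s ^ 2 := by
      have e1 : s ^ (1 / 2 : ℝ) * s ^ 3 * s ^ 2 = s ^ (11 / 2 : ℝ) := by
        rw [← Real.rpow_natCast s 3, ← Real.rpow_natCast s 2, ← Real.rpow_add hs,
          ← Real.rpow_add hs]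
        norm_num
      rw [e1, ← Real.rpow_add hs]
      apply Real.rpow_le_rpow_of_exponent_ge hs g.s1
      linarith only [hd, hε1]
    refine a1.trans ?_
    rw [div_le_iff₀ hw]
    calc K.CI * K.cs * 2 ^ K.d * (4 + K.Cw ^ 2) * s ^ (K.ε / 2) * s ^ (2 * (K.d : ℝ) - K.ε)
        = K.CI * K.cs * 2 ^ K.d * (4 + K.Cw ^ 2) *
          (s ^ (K.ε / 2) * s ^ (2 * (K.d : ℝ) - K.ε)) := by ring
      _ ≤ K.CI * K.cs * 2 ^ K.d * (4 + K.Cw ^ 2) * (s ^ (1 / 2 : ℝ) * s ^ 3 * s ^ 2) := by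
          gcongr
      _ = K.CI * K.cs * 2 ^ K.d * (4 + K.Cw ^ 2) / K.cm * s ^ (1 / 2 : ℝ) * s ^ 3 *
          (K.cm * s ^ 2) := by field_simp
      _ ≤ K.CI * K.cs * 2 ^ K.d * (4 + K.Cw ^ 2) / K.cm * s ^ (1 / 2 : ℝ) * s ^ 3 *
          wv s η m := by
          have := g.w1
          gcongr
  have h4 : 1 / (η * (M : ℝ) ^ K.d) ≤ s ^ K.ε := by
    have a1 := g.hM3
    rw [Real.rpow_neg hs.le] at a1
    rw [one_div, inv_le_comm₀ (by positivity) (by positivity)]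
    exact a1
  have h5 := g.hs.z5
  have hs3 : 0 < s ^ 3 := by positivity
  have h6 : K.CI * K.cs * 2 ^ K.d * (4 + K.Cw ^ 2) / K.cm * s ^ (1 / 2 : ℝ) * s ^ 3 ≤
      s ^ 3 := by
    calc K.CI * K.cs * 2 ^ K.d * (4 + K.Cw ^ 2) / K.cm * s ^ (1 / 2 : ℝ) * s ^ 3
        ≤ 1 * s ^ 3 := by
          gcongr
          linarith only [hs, h5]
      _ = s ^ 3 := one_mul _
  linarith

/-- the hypotheses -/
theorem adm (g : GivZ K M s E η m) (hK : K.Ok) (F : FacZ K) (kft : KftStmt) (inw : InwStmt)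
    (ral : RalStmt) (ixi : IxiStmt) (ixu : IxuStmt) (hξ : 1 ≤ ξ) (hcs : 2 * K.Cm ≤ K.cG * K.cs) :
    Adm (mkZ K s E η m i ξ M) K.cm (max K.Cm K.CF) K.c₀ := by
  have hs := g.hs.q0.1
  have hw := g.wpos hK
  have hx := g.xpos
  have hx1 := g.x1
  have hm := g.mpos hK
  have hcm := hK.hcm.1
  have hcs0 : 0 < K.cs := by linarith [hK.hcs]
  have hCI0 : 0 < K.CI := by linarith [hK.hCI]
  have hM := g.Mpos
  have hM1 := g.M1
  obtain ⟨hJ1, hJ2, hJ3⟩ := g.Jb hK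
  have hx3 : 0 < (s ^ K.θ) ^ 3 := by positivity
  have hx31 : (s ^ K.θ) ^ 3 ≤ 1 := pow_le_one₀ hx.le hx1
  have hzi : 0 < (⟨E, η⟩ + ((s ^ 2 : ℝ) : ℂ) * m : ℂ).im := by
    rw [g.imz]
    exact hw
  have hfrb := F.frb M (⟨E, η⟩ + ((s ^ 2 : ℝ) : ℂ) * m) hzi
    (by rw [g.imz]; linarith only [g.w_half hK]) (by rw [g.imz]; exact g.MF hK)
  rw [g.imz] at hfrb
  obtain ⟨k1, k2, k3⟩ := F.inm M (Jv K s M) K.cs (wv s η m) _ _ hJ1 hK.hcs hw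
    (by linarith only [g.w_half hK]) rfl rfl
  set LL1 : ℝ := K.CF * (wv s η m) ^ (-(2 / 3 : ℝ)) * (1 + Real.log M) ^ 6 with hLL1
  have hLL : 1 ≤ LL1 := g.Npos hK
  have hN : 1 ≤ (((s ^ K.θ) ^ 5) ^ 4)⁻¹ := by
    rw [← pow_mul]
    exact g.xi 20
  have hNN : LL1 ≤ (((s ^ K.θ) ^ 5) ^ 4)⁻¹ * LL1 := le_mul_of_one_le_left (by linarith only [hLL]) hN
  refine
    { hT := ⟨by show 0 < s ^ 2; positivity, g.ηpos, ?_, g.ηT hK⟩
      hm := ⟨g.hm1, g.hm2.trans (le_max_left _ _)⟩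
      hfix := ?_
      hδ := ⟨by show 0 < (s ^ K.θ) ^ 5; positivity, ?_⟩
      hk := g.hk hK
      he := ⟨?_, ?_, ?_⟩
      hj := ⟨g.jlow.1, g.jlow.2, g.xi 6, ?_, ?_⟩
      h0 := ?_
      hN := ?_
      hY := g.hYm hK F kft ixi
      hL := ?_
      hS := ⟨k1.1, k1.2.1, k1.2.2.1, ?_⟩
      hϖ := ⟨?_, ?_, g.hϖm hK F⟩
      hW := g.hWm hK F kft inw hcs
      h6 := ⟨(g.h6m hK kft ixu hξ).1.le, (g.h6m hK kft ixu hξ).2⟩ }
  · rw [mx_w]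
    linarith only [g.w_half hK]
  · intro a
    rw [mx_G0]
    exact g.m_diag hK ral a
  · show (s ^ K.θ) ^ 5 ≤ K.c₀
    exact (pow_le_pow_of_le_one hx.le hx1 (by norm_num)).trans g.hs.q5.1
  · show 1 < 1 + (s ^ K.θ) ^ 3 / 2
    linarith only [hx3]
  · show 1 + (s ^ K.θ) ^ 3 / 2 ≤ 1 + (s ^ K.θ) ^ 3
    linarith only [hx3]
  · show 1 + (s ^ K.θ) ^ 3 ≤ 2
    linarith only [hx31]
  · show 1 ≤ (((s ^ K.θ) ^ 5) ^ 4)⁻¹ * LL1
    linarith only [hLL, hNN]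
  · show 0 ≤ s ^ 3 + s ^ K.ε
    positivity
  · intro a b
    rw [mx_G0]
    exact ((hfrb a).1 b).trans (le_max_right _ _)
  · exact g.hNm hfrb
  · exact g.hLm hK hfrb
  · exact g.hSm hK (k1.2.2.2)
  · show 0 < (s ^ K.θ) ^ 5 / ((2 + 2 * K.cs / K.cm) * (M : ℝ) ^ 2)
    positivity
  · show (s ^ K.θ) ^ 5 / ((2 + 2 * K.cs / K.cm) * (M : ℝ) ^ 2) ≤ (s ^ K.θ) ^ 5
    apply div_le_self (by positivity)
    have a1 : 1 ≤ (M : ℝ) ^ 2 := one_le_pow₀ hM1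
    have a2 : 0 ≤ 2 * K.cs / K.cm := by positivity
    nlinarith only [a1, a2]

/-- the errors -/
theorem aNm (g : GivZ K M s E η m) (hK : K.Ok) :
    (mkZ K s E η m i ξ M).aN ≤ 8000 * (s ^ (K.θ / 8)) ^ 4 := by
  have hs := g.hs.q0.1
  have hw := g.wpos hK
  have hx := g.xpos
  have hy := g.ypos
  have hy1 := g.y1 hK
  have hCw : 2 ≤ K.Cw := hK.Cwpos
  have hceil : ∀ y : ℝ, 1 ≤ y → (⌈y⌉₊ : ℝ) ≤ 2 * y := fun y hy => by
    have := Nat.ceil_lt_add_one (by linarith only [hy] : 0 ≤ y)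
    linarith
  have hY1 : 1 ≤ s ^ (-(K.θ / 8)) := by
    rw [g.Yy, one_le_inv₀ hy]
    exact hy1
  have hN : (((s ^ K.θ) ^ 5) ^ 4)⁻¹ *
      (K.CF * (wv s η m) ^ (-(2 / 3 : ℝ)) * (1 + Real.log M) ^ 6) * wv s η m ≤
        (s ^ K.θ) ^ 20 := by
    refine Nw_bound (A := 4) (l := s ^ (-(K.θ / 8))) hs hx hw (g.w2 hK)
      (by linarith only [hCw]) (by linarith only [hK.hCF]) ?_ ?_ g.hs.z6
    · have := Real.log_nonneg g.M1
      linarith only [this]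
    · have := g.logM
      linarith only [hY1, this]
  have hh : ((2 * (⌈((s ^ (K.θ / 8)) ^ 2)⁻¹⌉₊ : ℝ) + 1 : ℝ)) ≤ 5 / (s ^ (K.θ / 8)) ^ 2 := by
    have h1 : 1 ≤ ((s ^ (K.θ / 8)) ^ 2)⁻¹ := by
      rw [one_le_inv₀ (by positivity)]
      exact pow_le_one₀ hy.le hy1
    have h2 := hceil _ h1
    have e1 : 5 / (s ^ (K.θ / 8)) ^ 2 = 5 * ((s ^ (K.θ / 8)) ^ 2)⁻¹ := div_eq_mul_inv _ _
    rw [e1]
    linarith only [h1, h2]
  have h := aNz_bound (j := (⌈(s ^ K.θ)⁻¹⌉₊ : ℝ)) (p := (⌈((s ^ K.θ) ^ 4)⁻¹⌉₊ : ℝ))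
    (h := 2 * (⌈((s ^ (K.θ / 8)) ^ 2)⁻¹⌉₊ : ℝ) + 1) hy hy1 g.xy hN g.hs.z7 (Nat.cast_nonneg _)
    (by
      have a1 := hceil (s ^ K.θ)⁻¹ (by simpa using g.xi 1)
      rw [div_eq_mul_inv]
      exact a1)
    (Nat.cast_nonneg _)
    (by
      have a1 := hceil ((s ^ K.θ) ^ 4)⁻¹ (g.xi 4)
      rw [div_eq_mul_inv]
      exact a1) (by positivity) hh rfl
  unfold Dat.aN Dat.ch Dat.h
  rw [mx_w]
  exact h

/-- the additive errors -/
theorem bNm (g : GivZ K M s E η m) (hK : K.Ok) :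
    (mkZ K s E η m i ξ M).bN ≤ Real.exp (-((s ^ (K.θ / 8))⁻¹ ^ 4)) := by
  have hs := g.hs.q0.1
  have hx := g.xpos
  have hx1 := g.x1
  have hy := g.ypos
  have hy1 := g.y1 hK
  have hd := hK.dpos
  set Y : ℝ := (s ^ (K.θ / 8))⁻¹ with hY
  have hY1 : 1 ≤ Y := by
    rw [hY, one_le_inv₀ hy]
    exact hy1
  have hY0 : 0 < Y := by linarith only [hY1]
  have h1 := bNz_bound (j := ⌈(s ^ K.θ)⁻¹⌉₊) (p := ⌈((s ^ K.θ) ^ 4)⁻¹⌉₊) hx hx1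
    (Nat.le_ceil _) (Nat.le_ceil _)
  have h3 : (s ^ K.θ)⁻¹ = Y ^ 8 := by
    rw [g.xy, hY, inv_pow]
  have h1' : (97 / 100 : ℝ) ^ ⌈(s ^ K.θ)⁻¹⌉₊ + (1 / (1 + (s ^ K.θ) ^ 3 / 2)) ^ ⌈((s ^ K.θ) ^ 4)⁻¹⌉₊ ≤
      2 * Real.exp (-(Y ^ 8 / 40)) := by
    rw [← h3]
    exact h1
  have h4 := g.Md
  rw [← hY] at h4
  have h5 : 40 * (2 * K.d + 3) ≤ Y := by
    have a1 := g.hs.z4
    rw [hY, ← one_div, le_div_iff₀ hy]
    exact a1
  have h6 : (2 : ℝ) + 2 * K.d * Y + -(Y ^ 8 / 40) ≤ -(Y ^ 4) := by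
    have b1 : (2 * K.d + 3) * Y ^ 4 ≤ Y ^ 8 / 40 := by
      have c1 : 1 ≤ Y ^ 3 := one_le_pow₀ hY1
      calc (2 * K.d + 3) * Y ^ 4 = (40 * (2 * K.d + 3)) * 1 * Y ^ 4 / 40 := by ring
        _ ≤ Y * Y ^ 3 * Y ^ 4 / 40 := by gcongr
        _ = Y ^ 8 / 40 := by ring
    have b2 : Y ≤ Y ^ 4 := le_self_pow₀ hY1 (by norm_num)
    have b3 : 1 ≤ Y ^ 4 := one_le_pow₀ hY1
    have b4 : 2 * K.d * Y ≤ 2 * K.d * Y ^ 4 := by gcongr
    linarith only [hd, h5, b1, b2, b4]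
  have h7 : (4 : ℝ) ≤ Real.exp 2 := by
    have c1 := Real.exp_one_gt_d9
    have c2 : Real.exp 2 = Real.exp 1 * Real.exp 1 := by
      rw [← Real.exp_add]
      norm_num
    rw [c2]
    nlinarith only [c1]
  show 2 * ((M : ℝ) ^ K.d) ^ 2 * ((97 / 100) ^ ⌈(s ^ K.θ)⁻¹⌉₊ +
    (1 / (1 + (s ^ K.θ) ^ 3 / 2)) ^ ⌈((s ^ K.θ) ^ 4)⁻¹⌉₊) ≤ _
  calc 2 * ((M : ℝ) ^ K.d) ^ 2 * ((97 / 100) ^ ⌈(s ^ K.θ)⁻¹⌉₊ +
        (1 / (1 + (s ^ K.θ) ^ 3 / 2)) ^ ⌈((s ^ K.θ) ^ 4)⁻¹⌉₊)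
      ≤ 2 * (Real.exp (K.d * Y)) ^ 2 * (2 * Real.exp (-(Y ^ 8 / 40))) := by gcongr
    _ = 4 * ((Real.exp (K.d * Y)) ^ 2 * Real.exp (-(Y ^ 8 / 40))) := by ring
    _ ≤ Real.exp 2 * ((Real.exp (K.d * Y)) ^ 2 * Real.exp (-(Y ^ 8 / 40))) := by gcongr
    _ = Real.exp (2 + 2 * K.d * Y + -(Y ^ 8 / 40)) := by
        rw [← Real.exp_nat_mul, ← Real.exp_add, ← Real.exp_add]
        congr 1
        push_cast
        ring
    _ ≤ Real.exp (-(Y ^ 4)) := Real.exp_le_exp.2 h6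

end GivZ

end Pool.Agent.LE.QZ.H84
end
end -- Pool.Agent.Helper84_LQZ.INIc

section -- Pool.Agent.Helper84_LQZ.INI

/-!
# The parameters (all energies of the bulk): the final statement
-/

set_option autoImplicit false

open MeasureTheory ProbabilityTheory Function Filter

open scoped ENNReal BigOperators Topology NNReal ComplexOrder Matrix

noncomputable section

namespace Pool.Agent.LE.QZ.H84

open Pool.Agent.Anderson hiding box mem_box card_box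
open Pool.Agent.Loc Pool.Agent.Mob Pool.Agent.Helper54.Bal
  Pool.Agent.Helper96.EXP Pool.Agent.BED
open Pool.Agent.LE.MN Pool.Agent.LE.CL Pool.Agent.LE.IR Pool.Agent.LE.QD Pool.Agent.LE.QF
open Pool.Agent.LE.QF.H68

variable {K : Cst} {M : ℕ} [NeZero M] {s E η : ℝ} {m : ℂ} {i : Fin K.d} {ξ : ℝ}

namespace GivZ

/-- the sums of `S` -/
theorem sSm (g : GivZ K M s E η m) (hK : K.Ok) (F : FacZ K) (C' : Finset (Tor K.d M))
    (hC : (C'.card : ℝ) ≤ (s ^ (K.ε - 1) / Real.sqrt η) ^ K.d)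
    (hC2 : (C'.card : ℝ) ≤ s ^ K.ε * (M : ℝ) ^ K.d) :
    ∑ x ∈ C', ∑ y ∈ C', (mkZ K s E η m i ξ M).S x y ≤ s ^ (4 * (K.θ / 8)) * C'.card / η := by
  have hs := g.hs.q0.1
  have hw := g.wpos hK
  have hη := g.ηpos
  have hcs0 : 0 < K.cs := by linarith only [hK.hcs]
  have hε1 := hK.hε.2
  have hε := hK.hε.1
  have hM := g.Mpos
  have hsη : 0 < Real.sqrt η := Real.sqrt_pos.2 hη
  set ρ : ℝ := s ^ (1 - K.ε / 4) * Real.sqrt η with hρ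
  have hρ0 : 0 < ρ := by positivity
  -- `ρ^d |C'| ≤ 1`
  have a3 : ρ ^ K.d * (C'.card : ℝ) ≤ 1 := by
    calc ρ ^ K.d * (C'.card : ℝ) ≤ ρ ^ K.d * (s ^ (K.ε - 1) / Real.sqrt η) ^ K.d := by gcongr
      _ = (s ^ (1 - K.ε / 4) * s ^ (K.ε - 1)) ^ K.d := by
          rw [← mul_pow]
          congr 1
          rw [hρ]
          field_simp
      _ ≤ 1 := by
          apply pow_le_one₀ (by positivity)
          rw [← Real.rpow_add hs]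
          apply Real.rpow_le_one hs.le g.s1
          linarith only [hε]
  have hex : ∃ J₁ : ℕ, 1 ≤ J₁ ∧ ρ ≤ (J₁ : ℝ) / M ∧
      ((J₁ : ℝ) / M) ^ K.d * (C'.card : ℝ) ≤ 2 ^ K.d := by
    by_cases hMρ : 1 ≤ (M : ℝ) * ρ
    · obtain ⟨hJ1, hJ2, hJ3⟩ := ceil_bound g.Mpos hMρ
      refine ⟨⌈(M : ℝ) * ρ⌉₊, hJ1, hJ2, ?_⟩
      calc ((⌈(M : ℝ) * ρ⌉₊ : ℝ) / M) ^ K.d * (C'.card : ℝ)
          ≤ (2 * ρ) ^ K.d * (C'.card : ℝ) := by gcongr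
        _ = 2 ^ K.d * (ρ ^ K.d * (C'.card : ℝ)) := by
            rw [mul_pow]
            ring
        _ ≤ 2 ^ K.d * 1 := by gcongr
        _ = 2 ^ K.d := mul_one _
    · push Not at hMρ
      refine ⟨1, le_refl _, ?_, ?_⟩
      · rw [Nat.cast_one, le_div_iff₀ hM, mul_comm]
        exact hMρ.le
      · have h1 : s ^ K.ε ≤ 1 := Real.rpow_le_one hs.le g.s1 hε.le
        calc (((1 : ℕ) : ℝ) / M) ^ K.d * (C'.card : ℝ)
            ≤ (((1 : ℕ) : ℝ) / M) ^ K.d * (s ^ K.ε * (M : ℝ) ^ K.d) := by gcongr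
          _ = s ^ K.ε := by
              rw [div_pow, Nat.cast_one, one_pow]
              field_simp
          _ ≤ 1 := h1
          _ ≤ 2 ^ K.d := one_le_pow₀ (by norm_num)
  obtain ⟨J₁, hJ1, hJ2, hJ3⟩ := hex
  have h1 := F.mss M (Jv K s M) J₁ K.cs (wv s η m) C' hJ1 hcs0 hw
  have hJ0 : (0 : ℝ) < (J₁ : ℝ) := by
    have : 0 < J₁ := by omega
    exact_mod_cast this
  have h2 : wv s η m * (M : ℝ) ^ 2 / (J₁ : ℝ) ^ 2 = wv s η m / ((J₁ : ℝ) / M) ^ 2 := by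
    field_simp
  rw [h2] at h1
  refine h1.trans ?_
  exact sSz_bound hK.hd hs g.s1 hε hε1 hK.hcm.1 (by linarith only [hK.Cwpos]) g.w1 (g.w2 hK) hη
    g.hη2 (by linarith only [hK.hCS]) hcs0.le hJ2 (Nat.cast_nonneg _) hJ3 rfl g.hs.z8

end GivZ

theorem ini (mbr : MbrStmt) (frb : FrbStmt) (gal : GalStmt) (khb : KhbStmt)
    (inm : InmStmt) (inw : InwStmt) (mss : MssStmt) (kft : KftStmt) (ral : RalStmt)
    (ixi : IxiStmt) (ixu : IxuStmt) (imm : ImmStmt) :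
    IniStmt := by
  intro d a ε hd ha hε hε1
  obtain ⟨cm, Cm, hcm, hcm1, hCm, hmbr⟩ := mbr d a hd ha
  obtain ⟨CI, hCI, hinm⟩ := inm d hd
  obtain ⟨CK, hCK, hkhb⟩ := khb d hd
  obtain ⟨CB, hCB, himm⟩ := imm d hd
  obtain ⟨CF, hCF, hfrb⟩ := frb d hd
  obtain ⟨CS, hCS, hmss⟩ := mss d hd
  obtain ⟨cG, CG, hcG, hcG2, hCG, hgal⟩ := gal d (a / 2) hd (by positivity)
  have hd3 : (3 : ℝ) ≤ d := by exact_mod_cast hd
  set θ : ℝ := ε / (24 * d) with hθ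
  have hθ0 : 0 < θ := by positivity
  have hθ1 : θ / 8 ≤ ε / 100 := by
    have h1 : θ ≤ ε / 72 := by
      rw [hθ, div_le_div_iff₀ (by positivity) (by norm_num)]
      nlinarith only [hε, hd3]
    linarith only [hθ0, h1]
  set k₀ : ℕ := ⌈(d : ℝ) * (4 * d + 6) / (6 * θ)⌉₊ + 1 with hk₀
  have hk : (d : ℝ) * (4 * d + 6) < 6 * k₀ * θ := by
    have h1 : (d : ℝ) * (4 * d + 6) / (6 * θ) ≤ (⌈(d : ℝ) * (4 * d + 6) / (6 * θ)⌉₊ : ℝ) :=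
      Nat.le_ceil _
    have h2 : (k₀ : ℝ) = (⌈(d : ℝ) * (4 * d + 6) / (6 * θ)⌉₊ : ℝ) + 1 := by
      rw [hk₀]
      push_cast
      ring
    have h3 : (d : ℝ) * (4 * d + 6) / (6 * θ) < k₀ := by linarith only [hε1, hθ0, hθ1, h1, h2]
    rw [div_lt_iff₀ (by positivity)] at h3
    linarith only [h3]
  refine ⟨θ / 8, cm, max Cm CF, by positivity, hθ1, hcm, hCm.trans (le_max_left _ _), ?_⟩
  intro c₀ hc₀
  set cs : ℝ := max 1 (2 * Cm / cG) with hcs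
  set K : Cst := ⟨d, k₀, ε, a, c₀, cm, Cm, CI, CK, CB, CF, CS, cG, CG, cs⟩ with hKd
  have hK : K.Ok :=
    { hd := hd
      hε := ⟨hε, hε1⟩
      ha := ha
      hc₀ := hc₀
      hcm := ⟨hcm, hcm1⟩
      hCm := hCm
      hCI := hCI
      hCK := hCK
      hCB := hCB
      hCF := hCF
      hCS := hCS
      hcG := hcG
      hCG := hCG
      hcs := le_max_left _ _
      hk₀ := hk }
  have F : FacZ K :=
    { khb := hkhb
      imm := himm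
      frb := hfrb
      inm := hinm
      gal := hgal
      mss := hmss }
  have hcs2 : 2 * K.Cm ≤ K.cG * K.cs := by
    have h1 : 2 * Cm / cG ≤ cs := le_max_right _ _
    rw [div_le_iff₀ hcG] at h1
    show 2 * Cm ≤ cG * cs
    linarith only [h1]
  obtain ⟨c, hc0, hc4, hc⟩ := exists_cZ hK
  have hC0 : (1 : ℝ) ≤ max 8000 (100 / cm ^ 2) := le_trans (by norm_num) (le_max_left _ _)
  refine ⟨c, max 8000 (100 / cm ^ 2), hc0, hc4, hC0, ?_⟩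
  intro M _ σ E η hσ hσc hE2 hM1 hM2 hM3 hη2
  have hs0 : 0 < |σ| := abs_pos.2 hσ
  have hs2 : σ ^ 2 = |σ| ^ 2 := (sq_abs σ).symm
  have hs2c : (σ : ℂ) ^ 2 = ((|σ| ^ 2 : ℝ) : ℂ) := by
    rw [← hs2]
    push_cast
    ring
  rw [hs2c, hs2]
  generalize |σ| = s at hs0 hσc hη2 hM1 hM2 hM3
  have hcnd := hc s hs0 hσc
  have hs1 : s ≤ 1 := by linarith only [hε1, hθ0, hθ1, hc4, hσc]
  have hM : (0 : ℝ) < M := by
    have : 0 < M := Nat.pos_of_ne_zero (NeZero.ne M)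
    exact_mod_cast this
  have hη0 : 0 < η := by
    have h1 : 0 < η * (M : ℝ) ^ d := lt_of_lt_of_le (by positivity) hM3
    exact (pos_iff_pos_of_mul_pos h1).2 (by positivity)
  have hηT : η ≤ s ^ 2 := hη2.trans (pow_le_pow_of_le_one hs0.le hs1 (by norm_num))
  have hMT : Cm / (s ^ 2) ^ 2 ≤ M := by
    have h1 : Cm * s ≤ 1 := hcnd.q3.2.2.2.2
    calc Cm / (s ^ 2) ^ 2 = Cm * s * (s ^ 5)⁻¹ := by field_simp
      _ ≤ 1 * (s ^ 5)⁻¹ := by gcongr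
      _ = s ^ (-5 : ℝ) := by
          rw [one_mul, Real.rpow_neg hs0.le]
          congr 1
          rw [← Real.rpow_natCast]
          norm_num
      _ ≤ M := hM1
  obtain ⟨m, hm0, hm1, hm2, hm3⟩ := hmbr M E η (s ^ 2) hE2 hη0 hηT hcnd.q1.1 hMT
  have g : GivZ K M s E η m :=
    ⟨hcnd, hE2, hη2, hM1, hM2, hM3, hm0, hm1, hm2, hm3⟩
  have hx := g.xpos
  have hx1 := g.x1
  have hy := g.ypos
  have hy1 := g.y1 hK
  have hw := g.wpos hK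
  have hθK : K.θ = θ := rfl
  have hy4 : s ^ (4 * (θ / 8)) = (s ^ (K.θ / 8)) ^ 4 := by
    rw [xpow hs0, hθK]
    norm_num
  have hxy4 : s ^ K.θ ≤ (s ^ (K.θ / 8)) ^ 4 := by
    rw [g.xy]
    exact pow_le_pow_of_le_one hy.le hy1 (by norm_num)
  have hmn : ‖m‖ ≤ CF := by
    have hz : 0 < (⟨E, η⟩ + ((s ^ 2 : ℝ) : ℂ) * m : ℂ).im := by
      rw [g.imz]
      exact hw
    have h1 := (F.frb M (⟨E, η⟩ + ((s ^ 2 : ℝ) : ℂ) * m) hz
      (by rw [g.imz]; linarith only [g.w_half hK, hε1, hθ0, hθ1]) (by rw [g.imz]; exact g.MF hK) 0).1 0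
    rw [g.hm] at h1
    exact h1
  refine ⟨m, hm1, hmn.trans (le_max_right _ _), fun x => g.m_diag hK ral x, ?_⟩
  intro i ξ hξ
  have hadm : Adm (mkZ K s E η m i ξ M) cm (max Cm CF) c₀ :=
    g.adm hK F kft inw ral ixi ixu hξ hcs2
  refine ⟨mkZ K s E η m i ξ M, hadm, rfl, rfl, rfl, rfl, rfl, rfl, rfl,
    (g.h6m hK kft ixu hξ).1, ?_, ?_, ?_, ?_, ?_, ?_, ?_⟩
  · show (M : ℝ) ^ 2 ≤ max 8000 (100 / cm ^ 2) * ξ * (M : ℝ) ^ d / s ^ 2 *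
      (cm * wv s η m * (M : ℝ) ^ 2 / (100 * (M : ℝ) ^ d * ξ))
    have h1 : 100 / cm ^ 2 ≤ max 8000 (100 / cm ^ 2) := le_max_right _ _
    have h2 : cm * s ^ 2 ≤ wv s η m := g.w1
    calc (M : ℝ) ^ 2 = 100 / cm ^ 2 * ξ * (M : ℝ) ^ d / s ^ 2 *
          (cm * (cm * s ^ 2) * (M : ℝ) ^ 2 / (100 * (M : ℝ) ^ d * ξ)) := by
          field_simp
      _ ≤ max 8000 (100 / cm ^ 2) * ξ * (M : ℝ) ^ d / s ^ 2 *
          (cm * wv s η m * (M : ℝ) ^ 2 / (100 * (M : ℝ) ^ d * ξ)) := by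
          gcongr
  · rw [hy4]
    refine (g.aNm hK).trans ?_
    have : (8000 : ℝ) ≤ max 8000 (100 / cm ^ 2) := le_max_left _ _
    gcongr
  · show (⌈((s ^ K.θ) ^ 4)⁻¹⌉₊ : ℝ) ≤ s ^ (-1 : ℝ)
    have h1 := Nat.ceil_lt_add_one (by positivity : 0 ≤ ((s ^ K.θ) ^ 4)⁻¹)
    have h2 := g.xi 4
    have h3 : 2 * ((s ^ K.θ) ^ 4)⁻¹ ≤ s⁻¹ := by
      have h4 := hcnd.q20
      rw [← div_eq_mul_inv, div_le_iff₀ (by positivity), inv_mul_eq_div, le_div_iff₀ hs0]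
      exact h4
    rw [Real.rpow_neg_one]
    linarith only [h1, h2, h3]
  · rw [hy4]
    show (s ^ K.θ) ^ 5 ≤ (s ^ (K.θ / 8)) ^ 4
    calc (s ^ K.θ) ^ 5 ≤ (s ^ K.θ) ^ 1 := pow_le_pow_of_le_one hx.le hx1 (by norm_num)
      _ = s ^ K.θ := pow_one _
      _ ≤ (s ^ (K.θ / 8)) ^ 4 := hxy4
  · rw [hy4]
    show 1 + (s ^ K.θ) ^ 3 - 1 ≤ (s ^ (K.θ / 8)) ^ 4
    calc 1 + (s ^ K.θ) ^ 3 - 1 = (s ^ K.θ) ^ 3 := by ring
      _ ≤ (s ^ K.θ) ^ 1 := pow_le_pow_of_le_one hx.le hx1 (by norm_num)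
      _ = s ^ K.θ := pow_one _
      _ ≤ (s ^ (K.θ / 8)) ^ 4 := hxy4
  · have h1 : s ^ (-(4 * (θ / 8))) = (s ^ (K.θ / 8))⁻¹ ^ 4 := by
      rw [Real.rpow_neg hs0.le, hy4, inv_pow]
    rw [h1]
    exact g.bNm hK
  · intro C' hC hC2
    exact g.sSm hK F C' hC hC2

end Pool.Agent.LE.QZ.H84
end
end -- Pool.Agent.Helper84_LQZ.INI
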