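import Pool.Agent.Helper12_MEB.B087

/-!
# Merged copies (generated) of the modules

* `Pool.Agent.Helper2_LQF.FLA`
* `Pool.Agent.Helper2_LQF.FLB`
* `Pool.Agent.Helper2_LQF.FLC`
* `Pool.Agent.Helper2_LQF.FLW`
* `Pool.Agent.Helper32_LQF.JMA`
* `Pool.Agent.Helper2_LQF.GDC`
* `Pool.Agent.Helper62_LQF.WFB`
* `Pool.Agent.Helper70_LQF.JTP`
* `Pool.Agent.Helper81_LQF.NRB`
* `Pool.Agent.Helper52_LQZ.WFU`
-/

set_option autoImplicit false

section -- Pool.Agent.Helper2_LQF.FLA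

/-!
# FLW, part 1: Gaussian tools
-/

set_option autoImplicit false

open MeasureTheory ProbabilityTheory Function Filter Set

open scoped ENNReal BigOperators Topology NNReal

noncomputable section

namespace Pool.Agent.LE.QF.H2

variable {ι : Type} [Fintype ι] [DecidableEq ι]

/-- the standard Gaussian measure -/
abbrev sg (ι : Type) [Fintype ι] : Measure (ι → ℝ) := Measure.pi fun _ : ι => gaussianReal 0 1

omit [DecidableEq ι] in
theorem scale {T : ℝ} (hT : 0 ≤ T) (g : (ι → ℝ) → ℝ) (hg : Continuous g) :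
    ∫ V, g V ∂(Measure.pi fun _ : ι => gaussianReal 0 T.toNNReal) =
      ∫ V, g (√T • V) ∂(sg ι) := by
  have h3 : (gaussianReal 0 1).map (fun x => √T * x) = gaussianReal 0 T.toNNReal := by
    rw [gaussianReal_map_const_mul, mul_zero, mul_one]
    congr 1
    apply NNReal.eq
    rw [Real.coe_toNNReal T hT]
    exact Real.sq_sqrt hT
  have h1 : (sg ι).map (fun V => √T • V) =
      Measure.pi fun _ : ι => gaussianReal 0 T.toNNReal := by
    have h2 := Measure.pi_map_pi (μ := fun _ : ι => gaussianReal 0 1)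
      (f := fun (_ : ι) (x : ℝ) => √T * x) (hμ := fun _ => by rw [h3]; infer_instance)
      (fun i => by fun_prop)
    have h4 : (fun V : ι → ℝ => √T • V) = fun x i => √T * x i := by
      funext V i
      rfl
    rw [h4, sg, h2, h3]
  rw [← h1, integral_map (by fun_prop) hg.aestronglyMeasurable]

omit [DecidableEq ι] in
theorem int_coord (c : ι) : Integrable (fun V : ι → ℝ => V c) (sg ι) := by
  have h := measurePreserving_eval (fun _ : ι => gaussianReal 0 1) c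
  have h2 : Integrable (id : ℝ → ℝ) (gaussianReal 0 1) :=
    (memLp_id_gaussianReal 1).integrable le_rfl
  exact h.integrable_comp_of_integrable h2

omit [DecidableEq ι] in
theorem norm_le_sum (V : ι → ℝ) : ‖V‖ ≤ ∑ c, |V c| := by
  rw [pi_norm_le_iff_of_nonneg (Finset.sum_nonneg fun _ _ => abs_nonneg _)]
  intro c
  exact Finset.single_le_sum (f := fun c => |V c|) (fun _ _ => abs_nonneg _) (Finset.mem_univ c)

omit [DecidableEq ι] in
theorem int_sum : Integrable (fun V : ι → ℝ => ∑ c, |V c|) (sg ι) :=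
  integrable_finsetSum _ fun c _ => (int_coord c).abs

omit [DecidableEq ι] in
theorem int_norm : Integrable (fun V : ι → ℝ => ‖V‖) (sg ι) := by
  refine int_sum.mono' continuous_norm.aestronglyMeasurable (Eventually.of_forall fun V => ?_)
  rw [norm_norm]
  exact norm_le_sum V

theorem ibp (ste : QD.SteStmt) (c : ι) (f : (ι → ℝ) → ℝ) (hf : ContDiff ℝ 1 f)
    (hc : HasCompactSupport f) {s : ℝ} (hs : 0 ≤ s) :
    ∫ V, V c * f (s • V) ∂(sg ι) =
      s * ∫ V, fderiv ℝ f (s • V) (Pi.single c 1) ∂(sg ι) := by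
  have hf' : Continuous (fderiv ℝ f) := hf.continuous_fderiv one_ne_zero
  obtain ⟨B₁, hB₁⟩ := hf.continuous.bounded_above_of_compact_support hc
  obtain ⟨B₂, hB₂⟩ := hf'.bounded_above_of_compact_support (hc.fderiv (𝕜 := ℝ))
  have e1 : ‖(Pi.single c (1 : ℝ) : ι → ℝ)‖ ≤ 1 := by
    rw [pi_norm_le_iff_of_nonneg zero_le_one]
    intro i
    by_cases h : i = c
    · subst h
      simp
    · simp [Pi.single_eq_of_ne h]
  have hB₂0 : 0 ≤ B₂ := (norm_nonneg _).trans (hB₂ 0)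
  have key := ste ι 1 c (fun V => ((f (s • V) : ℝ) : ℂ))
    (fun V => ((s * fderiv ℝ f (s • V) (Pi.single c 1) : ℝ) : ℂ)) (max B₁ (s * B₂))
    (by
      have := hf.continuous
      fun_prop)
    (by
      apply Complex.continuous_ofReal.comp
      apply continuous_const.mul
      exact (hf'.comp (continuous_const_smul s)).clm_apply continuous_const)
    (fun V => by
      rw [Complex.norm_real]
      exact (hB₁ _).trans (le_max_left _ _))
    (fun V => by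
      rw [Complex.norm_real, norm_mul, Real.norm_of_nonneg hs]
      refine le_trans ?_ (le_max_right _ _)
      apply mul_le_mul_of_nonneg_left _ hs
      calc ‖fderiv ℝ f (s • V) (Pi.single c 1)‖
          ≤ ‖fderiv ℝ f (s • V)‖ * ‖(Pi.single c (1 : ℝ) : ι → ℝ)‖ :=
            ContinuousLinearMap.le_opNorm _ _
        _ ≤ B₂ * 1 := mul_le_mul (hB₂ _) e1 (norm_nonneg _) hB₂0
        _ = B₂ := mul_one _)
    (fun V => by
      apply HasDerivAt.ofReal_comp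
      have h1 : HasFDerivAt f (fderiv ℝ f (s • update V c (V c)))
          (s • update V c (V c)) :=
        (hf.differentiable one_ne_zero _).hasFDerivAt
      have h2 : HasDerivAt (fun t => s • update V c t) (s • Pi.single c (1 : ℝ)) (V c) :=
        (hasDerivAt_update V c (V c)).const_smul s
      have h3 := h1.comp_hasDerivAt (V c) h2
      rw [map_smul, update_eq_self] at h3
      exact h3)
  have e2 : (fun V : ι → ℝ => ((V c : ℝ) : ℂ) * ((f (s • V) : ℝ) : ℂ)) =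
      fun V => (((V c * f (s • V)) : ℝ) : ℂ) := by
    funext V
    push_cast
    rfl
  rw [e2, integral_complex_ofReal, integral_complex_ofReal, integral_const_mul] at key
  rw [NNReal.coe_one, Complex.ofReal_one, one_mul] at key
  exact Complex.ofReal_injective key

omit [DecidableEq ι] in
theorem exists_cut : ∃ ρ : (ι → ℝ) → ℝ, ContDiff ℝ 2 ρ ∧ HasCompactSupport ρ ∧
    (∀ x, 0 ≤ ρ x ∧ ρ x ≤ 1) ∧ ∀ x, ‖x‖ ≤ 1 → ρ x = 1 := by
  let b : ContDiffBump (0 : ι → ℝ) := ⟨1, 2, one_pos, one_lt_two⟩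
  refine ⟨b, b.contDiff, b.hasCompactSupport, fun x => ⟨b.nonneg, b.le_one⟩, fun x hx => ?_⟩
  apply b.one_of_mem_closedBall
  rw [Metric.mem_closedBall, dist_zero_right]
  exact hx

end Pool.Agent.LE.QF.H2
end
end -- Pool.Agent.Helper2_LQF.FLA

section -- Pool.Agent.Helper2_LQF.FLB

/-!
# FLW, part 2: the derivative in the time
-/

set_option autoImplicit false

open MeasureTheory ProbabilityTheory Function Filter Set

open scoped ENNReal BigOperators Topology NNReal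

noncomputable section

namespace Pool.Agent.LE.QF.H2

variable {ι : Type} [Fintype ι] [DecidableEq ι]

/-- continuous with compact support -/
def CC (f : (ι → ℝ) → ℝ) : Prop := Continuous f ∧ HasCompactSupport f

omit [DecidableEq ι] in
theorem CC.bdd {f : (ι → ℝ) → ℝ} (h : CC f) : ∃ B, 0 ≤ B ∧ ∀ v, |f v| ≤ B := by
  obtain ⟨B, hB⟩ := h.1.bounded_above_of_compact_support h.2
  exact ⟨B, (norm_nonneg _).trans (hB 0), hB⟩

omit [DecidableEq ι] in
theorem CC.int {f : (ι → ℝ) → ℝ} (h : CC f) (s : ℝ) :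
    Integrable (fun V => f (s • V)) (sg ι) := by
  obtain ⟨B, hB0, hB⟩ := h.bdd
  refine (integrable_const B).mono' ?_ (Eventually.of_forall fun V => hB _)
  exact (h.1.comp (continuous_const_smul s)).aestronglyMeasurable

omit [DecidableEq ι] in
theorem CC.int_mul {f : (ι → ℝ) → ℝ} (h : CC f) (s : ℝ) (c : ι) :
    Integrable (fun V => V c * f (s • V)) (sg ι) := by
  obtain ⟨B, hB0, hB⟩ := h.bdd
  refine ((int_coord c).abs.mul_const B).mono' ?_ (Eventually.of_forall fun V => ?_)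
  · exact ((continuous_apply c).mul (h.1.comp (continuous_const_smul s))).aestronglyMeasurable
  · rw [norm_mul]
    exact mul_le_mul_of_nonneg_left (hB _) (abs_nonneg _)

theorem lin_pi (L : (ι → ℝ) →L[ℝ] ℝ) (V : ι → ℝ) : L V = ∑ c, V c * L (Pi.single c 1) := by
  conv_lhs => rw [← Finset.univ_sum_single V]
  rw [map_sum]
  refine Finset.sum_congr rfl fun c _ => ?_
  have h : (Pi.single c (V c) : ι → ℝ) = V c • Pi.single c (1 : ℝ) := by
    rw [← Pi.single_smul, smul_eq_mul, mul_one]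
  rw [h, map_smul, smul_eq_mul]

theorem lin_prod (L : ℝ × (ι → ℝ) →L[ℝ] ℝ) (k : ℝ) (V : ι → ℝ) :
    L (1, k • V) = L (1, 0) + ∑ c, k * (V c * L (0, Pi.single c 1)) := by
  have h1 : ((1 : ℝ), k • V) = (1, 0) + k • (0, V) := by
    ext <;> simp
  have h2 : L (0, V) = ∑ c, V c * L (0, Pi.single c 1) :=
    lin_pi (L.comp (ContinuousLinearMap.inr ℝ ℝ (ι → ℝ))) V
  rw [h1, map_add, map_smul, smul_eq_mul, h2, Finset.mul_sum]

variable {T : ℝ} {F : ℝ × (ι → ℝ) → ℝ}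

omit [DecidableEq ι] in
theorem sl2 (h : ∀ q : ℝ × (ι → ℝ), 0 ≤ q.1 → q.1 ≤ T → ContDiffAt ℝ 2 F q) {t : ℝ}
    (h0 : 0 ≤ t) (h1 : t ≤ T) : ContDiff ℝ 2 (fun v => F (t, v)) := by
  rw [contDiff_iff_contDiffAt]
  intro v
  exact (h (t, v) h0 h1).comp v (contDiffAt_const.prodMk contDiffAt_id)

omit [DecidableEq ι] in
theorem fd1 (h : ∀ q : ℝ × (ι → ℝ), 0 ≤ q.1 → q.1 ≤ T → ContDiffAt ℝ 2 F q)
    (q : ℝ × (ι → ℝ)) (h0 : 0 ≤ q.1) (h1 : q.1 ≤ T) : ContDiffAt ℝ 1 (fderiv ℝ F) q :=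
  (h q h0 h1).fderiv_right (m := 1) (by norm_num)

theorem dc1 (h : ∀ q : ℝ × (ι → ℝ), 0 ≤ q.1 → q.1 ≤ T → ContDiffAt ℝ 2 F q) (c : ι)
    (q : ℝ × (ι → ℝ)) (h0 : 0 ≤ q.1) (h1 : q.1 ≤ T) : ContDiffAt ℝ 1 (dC c F) q :=
  (fd1 h q h0 h1).clm_apply contDiffAt_const

theorem sl1 (h : ∀ q : ℝ × (ι → ℝ), 0 ≤ q.1 → q.1 ≤ T → ContDiffAt ℝ 2 F q) (c : ι) {t : ℝ}
    (h0 : 0 ≤ t) (h1 : t ≤ T) : ContDiff ℝ 1 (fun v => dC c F (t, v)) := by
  rw [contDiff_iff_contDiffAt]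
  intro v
  exact (dc1 h c (t, v) h0 h1).comp v (contDiffAt_const.prodMk contDiffAt_id)

omit [DecidableEq ι] in
theorem sl_fd {G : ℝ × (ι → ℝ) → ℝ} {t : ℝ} {v : ι → ℝ} (h : DifferentiableAt ℝ G (t, v)) :
    HasFDerivAt (fun v => G (t, v)) ((fderiv ℝ G (t, v)).comp
      (ContinuousLinearMap.inr ℝ ℝ (ι → ℝ))) v :=
  h.hasFDerivAt.comp v (hasFDerivAt_prodMk_right t v)

/-- the value -/
def val (ρ : (ι → ℝ) → ℝ) (F : ℝ × (ι → ℝ) → ℝ) (t : ℝ) (V : ι → ℝ) : ℝ :=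
  ρ (√t • V) * F (t, √t • V)

/-- the derivative in the time -/
def der (ρ : (ι → ℝ) → ℝ) (F : ℝ × (ι → ℝ) → ℝ) (t : ℝ) (V : ι → ℝ) : ℝ :=
  fderiv ℝ ρ (√t • V) ((1 / (2 * √t)) • V) * F (t, √t • V) +
    ρ (√t • V) * fderiv ℝ F (t, √t • V) (1, (1 / (2 * √t)) • V)

omit [DecidableEq ι] in
theorem der_has (h : ∀ q : ℝ × (ι → ℝ), 0 ≤ q.1 → q.1 ≤ T → ContDiffAt ℝ 2 F q)
    {ρ : (ι → ℝ) → ℝ} (hρ : ContDiff ℝ 2 ρ) {t : ℝ} (h0 : 0 < t) (h1 : t ≤ T) (V : ι → ℝ) :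
    HasDerivAt (fun x => val ρ F x V) (der ρ F t V) t := by
  have e1 : HasDerivAt (fun x : ℝ => √x • V) ((1 / (2 * √t)) • V) t :=
    (Real.hasDerivAt_sqrt h0.ne').smul_const V
  have e2 : HasDerivAt (fun x : ℝ => (x, √x • V)) (1, (1 / (2 * √t)) • V) t :=
    (hasDerivAt_id t).prodMk e1
  have e3 : HasFDerivAt ρ (fderiv ℝ ρ (√t • V)) (√t • V) :=
    (hρ.differentiable two_ne_zero _).hasFDerivAt
  have e4 : HasFDerivAt F (fderiv ℝ F (t, √t • V)) (t, √t • V) :=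
    ((h (t, √t • V) h0.le h1).differentiableAt two_ne_zero).hasFDerivAt
  have e5 := e3.comp_hasDerivAt t e1
  have e6 := HasFDerivAt.comp_hasDerivAt (f := fun x : ℝ => (x, √x • V)) t e4 e2
  exact e5.mul e6

omit [DecidableEq ι] in
theorem bd1 (h : ∀ q : ℝ × (ι → ℝ), 0 ≤ q.1 → q.1 ≤ T → ContDiffAt ℝ 2 F q)
    {ρ : (ι → ℝ) → ℝ} (hcs : HasCompactSupport ρ) (h01 : ∀ v, 0 ≤ ρ v ∧ ρ v ≤ 1) :
    ∃ C, 0 ≤ C ∧ ∀ q : ℝ × (ι → ℝ), 0 ≤ q.1 → q.1 ≤ T → ρ q.2 * ‖fderiv ℝ F q‖ ≤ C := by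
  have hK : IsCompact (Icc 0 T ×ˢ tsupport ρ) := isCompact_Icc.prod hcs
  obtain ⟨C, hC⟩ := hK.exists_bound_of_continuousOn (f := fderiv ℝ F) (fun q hq =>
    (fd1 h q hq.1.1 hq.1.2).continuousAt.continuousWithinAt)
  refine ⟨max C 0, le_max_right _ _, fun q h0 h1 => ?_⟩
  by_cases hq : q.2 ∈ tsupport ρ
  · calc ρ q.2 * ‖fderiv ℝ F q‖ ≤ 1 * ‖fderiv ℝ F q‖ :=
          mul_le_mul_of_nonneg_right (h01 _).2 (norm_nonneg _)
      _ = ‖fderiv ℝ F q‖ := one_mul _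
      _ ≤ C := hC q ⟨⟨h0, h1⟩, hq⟩
      _ ≤ max C 0 := le_max_left _ _
  · rw [image_eq_zero_of_notMem_tsupport hq, zero_mul]
    exact le_max_right _ _

omit [DecidableEq ι] in
theorem val_cont (h : ∀ q : ℝ × (ι → ℝ), 0 ≤ q.1 → q.1 ≤ T → ContDiffAt ℝ 2 F q)
    {ρ : (ι → ℝ) → ℝ} (hρ : ContDiff ℝ 2 ρ) {t : ℝ} (h0 : 0 ≤ t) (h1 : t ≤ T) :
    Continuous (val ρ F t) := by
  have e1 := (sl2 h h0 h1).continuous
  have e2 := hρ.continuous
  exact (e2.comp (continuous_const_smul _)).mul (e1.comp (continuous_const_smul _))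

omit [DecidableEq ι] in
theorem der_cont (h : ∀ q : ℝ × (ι → ℝ), 0 ≤ q.1 → q.1 ≤ T → ContDiffAt ℝ 2 F q)
    {ρ : (ι → ℝ) → ℝ} (hρ : ContDiff ℝ 2 ρ) {t : ℝ} (h0 : 0 ≤ t) (h1 : t ≤ T) :
    Continuous (der ρ F t) := by
  have e1 := (sl2 h h0 h1).continuous
  have e2 := hρ.continuous
  have e3 : Continuous (fderiv ℝ ρ) := hρ.continuous_fderiv two_ne_zero
  have e4 : Continuous fun v : ι → ℝ => fderiv ℝ F (t, v) := by
    rw [continuous_iff_continuousAt]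
    intro v
    exact (fd1 h (t, v) h0 h1).continuousAt.comp (f := fun v : ι → ℝ => (t, v))
      (Continuous.prodMk_right t).continuousAt
  have s1 : Continuous fun V : ι → ℝ => √t • V := continuous_const_smul _
  have s2 : Continuous fun V : ι → ℝ => (1 / (2 * √t)) • V := continuous_const_smul _
  exact (((e3.comp s1).clm_apply s2).mul (e1.comp s1)).add
    ((e2.comp s1).mul ((e4.comp s1).clm_apply (continuous_const.prodMk s2)))

/-- the derivative of the mean -/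
theorem u_der (h : ∀ q : ℝ × (ι → ℝ), 0 ≤ q.1 → q.1 ≤ T → ContDiffAt ℝ 2 F q)
    (hb : ∀ q : ℝ × (ι → ℝ), 0 ≤ q.1 → q.1 ≤ T → 0 ≤ F q ∧ F q ≤ 1)
    {ρ : (ι → ℝ) → ℝ} (hρ : ContDiff ℝ 2 ρ) (hcs : HasCompactSupport ρ)
    (h01 : ∀ v, 0 ≤ ρ v ∧ ρ v ≤ 1) {t : ℝ} (h0 : 0 < t) (h1 : t < T) :
    HasDerivAt (fun x => ∫ V, val ρ F x V ∂(sg ι)) (∫ V, der ρ F t V ∂(sg ι)) t := by
  obtain ⟨C₁, hC₁0, hC₁⟩ := bd1 h hcs h01
  have e3 : Continuous (fderiv ℝ ρ) := hρ.continuous_fderiv two_ne_zero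
  obtain ⟨C₂, hC₂⟩ := e3.bounded_above_of_compact_support (hcs.fderiv (𝕜 := ℝ))
  have hC₂0 : 0 ≤ C₂ := (norm_nonneg _).trans (hC₂ 0)
  have hs : Ioo (t / 2) T ∈ 𝓝 t := Ioo_mem_nhds (by linarith) h1
  have hval : ∀ x, 0 ≤ x → x ≤ T → ∀ V, ‖val ρ F x V‖ ≤ 1 := by
    intro x hx0 hx1 V
    unfold val
    obtain ⟨a1, a2⟩ := h01 (√x • V)
    obtain ⟨a3, a4⟩ := hb (x, √x • V) hx0 hx1
    rw [Real.norm_of_nonneg (mul_nonneg a1 a3)]
    exact mul_le_one₀ a2 a3 a4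
  set k : ℝ := 1 / (2 * √(t / 2)) with hk
  have hk0 : 0 ≤ k := by positivity
  refine (hasDerivAt_integral_of_dominated_loc_of_deriv_le (s := Ioo (t / 2) T)
    (bound := fun V => C₂ * (k * ‖V‖) + C₁ * (1 + k * ‖V‖)) hs ?_ ?_ ?_ ?_ ?_ ?_).2
  · filter_upwards [hs] with x hx
    exact (val_cont h hρ (by linarith [hx.1]) hx.2.le).aestronglyMeasurable
  · refine (integrable_const (1 : ℝ)).mono' (val_cont h hρ h0.le h1.le).aestronglyMeasurable
      (Eventually.of_forall (hval t h0.le h1.le))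
  · exact (der_cont h hρ h0.le h1.le).aestronglyMeasurable
  · refine Eventually.of_forall fun V x hx => ?_
    have hx0 : 0 < x := by linarith [hx.1]
    have hkx : 1 / (2 * √x) ≤ k := by
      apply one_div_le_one_div_of_le (by positivity)
      have : √(t / 2) ≤ √x := Real.sqrt_le_sqrt hx.1.le
      linarith
    have hkx0 : 0 ≤ 1 / (2 * √x) := by positivity
    have n1 : ‖(1 / (2 * √x)) • V‖ ≤ k * ‖V‖ := by
      rw [norm_smul, Real.norm_of_nonneg hkx0]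
      exact mul_le_mul_of_nonneg_right hkx (norm_nonneg _)
    have n2 : ‖((1 : ℝ), (1 / (2 * √x)) • V)‖ ≤ 1 + k * ‖V‖ := by
      rw [Prod.norm_mk]
      apply max_le
      · rw [norm_one]
        have : 0 ≤ k * ‖V‖ := by positivity
        linarith
      · linarith
    have n3 : ‖F (x, √x • V)‖ ≤ 1 := by
      obtain ⟨a3, a4⟩ := hb (x, √x • V) hx0.le hx.2.le
      rw [Real.norm_of_nonneg a3]
      exact a4
    unfold der
    refine (norm_add_le _ _).trans (add_le_add ?_ ?_)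
    · rw [norm_mul]
      calc ‖fderiv ℝ ρ (√x • V) ((1 / (2 * √x)) • V)‖ * ‖F (x, √x • V)‖
          ≤ (‖fderiv ℝ ρ (√x • V)‖ * ‖(1 / (2 * √x)) • V‖) * 1 :=
            mul_le_mul (ContinuousLinearMap.le_opNorm _ _) n3 (norm_nonneg _)
              (mul_nonneg (norm_nonneg _) (norm_nonneg _))
        _ = ‖fderiv ℝ ρ (√x • V)‖ * ‖(1 / (2 * √x)) • V‖ := mul_one _
        _ ≤ C₂ * (k * ‖V‖) := mul_le_mul (hC₂ _) n1 (norm_nonneg _) hC₂0
    · rw [norm_mul, Real.norm_of_nonneg (h01 _).1]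
      calc ρ (√x • V) * ‖fderiv ℝ F (x, √x • V) (1, (1 / (2 * √x)) • V)‖
          ≤ ρ (√x • V) * (‖fderiv ℝ F (x, √x • V)‖ * ‖((1 : ℝ), (1 / (2 * √x)) • V)‖) :=
            mul_le_mul_of_nonneg_left (ContinuousLinearMap.le_opNorm _ _) (h01 _).1
        _ = (ρ (√x • V) * ‖fderiv ℝ F (x, √x • V)‖) * ‖((1 : ℝ), (1 / (2 * √x)) • V)‖ := by
            ring
        _ ≤ C₁ * (1 + k * ‖V‖) :=
            mul_le_mul (hC₁ (x, √x • V) hx0.le hx.2.le) n2 (norm_nonneg _) hC₁0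
  · have i1 : Integrable (fun V : ι → ℝ => ‖V‖) (sg ι) := int_norm
    exact ((i1.const_mul k).const_mul C₂).add
      (((integrable_const (1 : ℝ)).add (i1.const_mul k)).const_mul C₁)
  · exact Eventually.of_forall fun V x hx =>
      der_has h hρ (by linarith [hx.1]) hx.2.le V

omit [DecidableEq ι] in
theorem u_cont (h : ∀ q : ℝ × (ι → ℝ), 0 ≤ q.1 → q.1 ≤ T → ContDiffAt ℝ 2 F q)
    (hb : ∀ q : ℝ × (ι → ℝ), 0 ≤ q.1 → q.1 ≤ T → 0 ≤ F q ∧ F q ≤ 1)
    {ρ : (ι → ℝ) → ℝ} (hρ : ContDiff ℝ 2 ρ) (h01 : ∀ v, 0 ≤ ρ v ∧ ρ v ≤ 1) :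
    ContinuousOn (fun x => ∫ V, val ρ F x V ∂(sg ι)) (Icc 0 T) := by
  refine continuousOn_of_dominated (bound := fun _ => (1 : ℝ)) ?_ ?_ (integrable_const _) ?_
  · intro x hx
    exact (val_cont h hρ hx.1 hx.2).aestronglyMeasurable
  · intro x hx
    refine Eventually.of_forall fun V => ?_
    unfold val
    obtain ⟨a1, a2⟩ := h01 (√x • V)
    obtain ⟨a3, a4⟩ := hb (x, √x • V) hx.1 hx.2
    rw [Real.norm_of_nonneg (mul_nonneg a1 a3)]
    exact mul_le_one₀ a2 a3 a4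
  · refine Eventually.of_forall fun V x hx => ?_
    apply ContinuousAt.continuousWithinAt
    have s1 : Continuous fun x : ℝ => √x • V := Real.continuous_sqrt.smul continuous_const
    have s2 : Continuous fun x : ℝ => (x, √x • V) := continuous_id.prodMk s1
    unfold val
    exact (hρ.continuous.comp s1).continuousAt.mul
      ((h (x, √x • V) hx.1 hx.2).continuousAt.comp (f := fun x : ℝ => (x, √x • V))
        s2.continuousAt)

end Pool.Agent.LE.QF.H2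
end
end -- Pool.Agent.Helper2_LQF.FLB

section -- Pool.Agent.Helper2_LQF.FLC

/-!
# FLW, part 3: the drift
-/

set_option autoImplicit false

open MeasureTheory ProbabilityTheory Function Filter Set

open scoped ENNReal BigOperators Topology NNReal

noncomputable section

namespace Pool.Agent.LE.QF.H2

variable {ι : Type} [Fintype ι] [DecidableEq ι]

variable {T : ℝ} {F : ℝ × (ι → ℝ) → ℝ}

theorem sl_dC (h : ∀ q : ℝ × (ι → ℝ), 0 ≤ q.1 → q.1 ≤ T → ContDiffAt ℝ 2 F q) (c : ι) {t : ℝ}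
    (h0 : 0 ≤ t) (h1 : t ≤ T) (v : ι → ℝ) :
    fderiv ℝ (fun v => F (t, v)) v (Pi.single c 1) = dC c F (t, v) := by
  rw [(sl_fd ((h (t, v) h0 h1).differentiableAt two_ne_zero)).fderiv]
  rfl

theorem sl_dC2 (h : ∀ q : ℝ × (ι → ℝ), 0 ≤ q.1 → q.1 ≤ T → ContDiffAt ℝ 2 F q) (c : ι) {t : ℝ}
    (h0 : 0 ≤ t) (h1 : t ≤ T) (v : ι → ℝ) :
    fderiv ℝ (fun v => dC c F (t, v)) v (Pi.single c 1) = dC c (dC c F) (t, v) := by
  rw [(sl_fd ((dc1 h c (t, v) h0 h1).differentiableAt one_ne_zero)).fderiv]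
  rfl

theorem sl_dC2_cont (h : ∀ q : ℝ × (ι → ℝ), 0 ≤ q.1 → q.1 ≤ T → ContDiffAt ℝ 2 F q) (c : ι)
    {t : ℝ} (h0 : 0 ≤ t) (h1 : t ≤ T) : Continuous fun v => dC c (dC c F) (t, v) := by
  have e : (fun v => dC c (dC c F) (t, v)) =
      fun v => fderiv ℝ (fun v => dC c F (t, v)) v (Pi.single c 1) := by
    funext v
    exact (sl_dC2 h c h0 h1 v).symm
  rw [e]
  exact ((sl1 h c h0 h1).continuous_fderiv one_ne_zero).clm_apply continuous_const

omit [DecidableEq ι] in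
theorem sl_t_cont (h : ∀ q : ℝ × (ι → ℝ), 0 ≤ q.1 → q.1 ≤ T → ContDiffAt ℝ 2 F q)
    {t : ℝ} (h0 : 0 ≤ t) (h1 : t ≤ T) : Continuous fun v : ι → ℝ => fderiv ℝ F (t, v) (1, 0) := by
  have e4 : Continuous fun v : ι → ℝ => fderiv ℝ F (t, v) := by
    rw [continuous_iff_continuousAt]
    intro v
    exact (fd1 h (t, v) h0 h1).continuousAt.comp (f := fun v : ι → ℝ => (t, v))
      (Continuous.prodMk_right t).continuousAt
  exact e4.clm_apply continuous_const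

/-- the derivative in the coordinate `c` -/
def dD (c : ι) (ρ : (ι → ℝ) → ℝ) (v : ι → ℝ) : ℝ := fderiv ℝ ρ v (Pi.single c 1)

theorem dD_C1 (c : ι) {ρ : (ι → ℝ) → ℝ} (hρ : ContDiff ℝ 2 ρ) : ContDiff ℝ 1 (dD c ρ) :=
  (hρ.fderiv_right (m := 1) (by norm_num)).clm_apply contDiff_const

omit [Fintype ι] in
theorem dD_cs (c : ι) {ρ : (ι → ℝ) → ℝ} (hcs : HasCompactSupport ρ) :
    HasCompactSupport (dD c ρ) := by
  have h := hcs.fderiv (𝕜 := ℝ)
  exact h.comp_left (g := fun L : (ι → ℝ) →L[ℝ] ℝ => L (Pi.single c 1)) rfl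

theorem dD_mul (c : ι) {f g : (ι → ℝ) → ℝ} {v : ι → ℝ} (hf : DifferentiableAt ℝ f v)
    (hg : DifferentiableAt ℝ g v) :
    dD c (fun v => f v * g v) v = f v * dD c g v + dD c f v * g v := by
  unfold dD
  rw [fderiv_fun_mul hf hg]
  simp only [add_apply, smul_apply, smul_eq_mul]
  ring

/-- the integral of the derivative -/
theorem der_int (ste : QD.SteStmt)
    (h : ∀ q : ℝ × (ι → ℝ), 0 ≤ q.1 → q.1 ≤ T → ContDiffAt ℝ 2 F q)
    {ρ : (ι → ℝ) → ℝ} (hρ : ContDiff ℝ 2 ρ) (hcs : HasCompactSupport ρ)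
    {t : ℝ} (h0 : 0 < t) (h1 : t ≤ T) :
    ∫ V, der ρ F t V ∂(sg ι) =
      (∫ V, ρ (√t • V) * LL F (t, √t • V) ∂(sg ι)) +
        (1 / √t) * ∑ c, (∫ V, V c * (dD c ρ (√t • V) * F (t, √t • V)) ∂(sg ι)) -
        (1 / 2) * ∑ c, ∫ V, dD c (dD c ρ) (√t • V) * F (t, √t • V) ∂(sg ι) := by
  set s : ℝ := √t with hs
  have hs0 : 0 < s := Real.sqrt_pos.2 h0
  have hρc := hρ.continuous
  have hFc := (sl2 h h0.le h1).continuous
  -- the functions
  have C0 : CC fun v : ι → ℝ => ρ v * fderiv ℝ F (t, v) (1, 0) :=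
    ⟨hρc.mul (sl_t_cont h h0.le h1), hcs.mul_right⟩
  have CP : ∀ c : ι, CC fun v : ι → ℝ => ρ v * dC c F (t, v) := fun c =>
    ⟨hρc.mul (sl1 h c h0.le h1).continuous, hcs.mul_right⟩
  have CR : ∀ c : ι, CC fun v : ι → ℝ => dD c ρ v * F (t, v) := fun c =>
    ⟨(dD_C1 c hρ).continuous.mul hFc, (dD_cs c hcs).mul_right⟩
  have CS : ∀ c : ι, CC fun v : ι → ℝ => ρ v * dC c (dC c F) (t, v) := fun c =>
    ⟨hρc.mul (sl_dC2_cont h c h0.le h1), hcs.mul_right⟩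
  have CX : ∀ c : ι, CC fun v : ι → ℝ => dD c ρ v * dC c F (t, v) := fun c =>
    ⟨(dD_C1 c hρ).continuous.mul (sl1 h c h0.le h1).continuous, (dD_cs c hcs).mul_right⟩
  have cY : ∀ c : ι, Continuous (dD c (dD c ρ)) := fun c =>
    ((dD_C1 c hρ).continuous_fderiv one_ne_zero).clm_apply continuous_const
  have CY : ∀ c : ι, CC fun v : ι → ℝ => dD c (dD c ρ) v * F (t, v) := fun c =>
    ⟨(cY c).mul hFc, (dD_cs c (dD_cs c hcs)).mul_right⟩
  -- integration by parts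
  have IP : ∀ c : ι, ∫ V, V c * (ρ (s • V) * dC c F (t, s • V)) ∂(sg ι) =
      s * ((∫ V, ρ (s • V) * dC c (dC c F) (t, s • V) ∂(sg ι)) +
        ∫ V, dD c ρ (s • V) * dC c F (t, s • V) ∂(sg ι)) := by
    intro c
    have e := ibp ste c (fun v => ρ v * dC c F (t, v))
      ((hρ.of_le (by norm_num)).mul (sl1 h c h0.le h1)) (CP c).2 hs0.le
    rw [e, ← integral_add ((CS c).int s) ((CX c).int s)]
    congr 1
    refine integral_congr_ae (Eventually.of_forall fun V => ?_)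
    have e2 := dD_mul c (f := ρ) (g := fun v => dC c F (t, v)) (v := s • V)
      (hρ.differentiable two_ne_zero _) ((sl1 h c h0.le h1).differentiable one_ne_zero _)
    change dD c (fun v => ρ v * dC c F (t, v)) (s • V) = _
    rw [e2]
    change _ * fderiv ℝ (fun v => dC c F (t, v)) (s • V) (Pi.single c 1) + _ = _
    rw [sl_dC2 h c h0.le h1]
  have IR : ∀ c : ι, ∫ V, V c * (dD c ρ (s • V) * F (t, s • V)) ∂(sg ι) =
      s * ((∫ V, dD c ρ (s • V) * dC c F (t, s • V) ∂(sg ι)) +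
        ∫ V, dD c (dD c ρ) (s • V) * F (t, s • V) ∂(sg ι)) := by
    intro c
    have e := ibp ste c (fun v => dD c ρ v * F (t, v))
      ((dD_C1 c hρ).mul ((sl2 h h0.le h1).of_le (by norm_num))) (CR c).2 hs0.le
    rw [e, ← integral_add ((CX c).int s) ((CY c).int s)]
    congr 1
    refine integral_congr_ae (Eventually.of_forall fun V => ?_)
    have e2 := dD_mul c (f := dD c ρ) (g := fun v => F (t, v)) (v := s • V)
      ((dD_C1 c hρ).differentiable one_ne_zero _) ((sl2 h h0.le h1).differentiable two_ne_zero _)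
    change dD c (fun v => dD c ρ v * F (t, v)) (s • V) = _
    rw [e2]
    change _ * fderiv ℝ (fun v => F (t, v)) (s • V) (Pi.single c 1) + _ = _
    rw [sl_dC h c h0.le h1]
  -- the derivative
  have hder : ∀ V : ι → ℝ, der ρ F t V = ρ (s • V) * fderiv ℝ F (t, s • V) (1, 0) +
      ((∑ c, (1 / (2 * s)) * (V c * (ρ (s • V) * dC c F (t, s • V)))) +
        ∑ c, (1 / (2 * s)) * (V c * (dD c ρ (s • V) * F (t, s • V)))) := by
    intro V
    unfold der
    rw [← hs, lin_prod, map_smul, lin_pi (fderiv ℝ ρ (s • V)) V, smul_eq_mul, mul_add,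
      Finset.mul_sum, Finset.mul_sum, Finset.sum_mul]
    have e1 : ∀ c : ι, ρ (s • V) * ((1 / (2 * s)) * (V c *
        fderiv ℝ F (t, s • V) (0, Pi.single c 1))) =
        (1 / (2 * s)) * (V c * (ρ (s • V) * dC c F (t, s • V))) := by
      intro c
      unfold dC
      ring
    have e2 : ∀ c : ι, (1 / (2 * s)) * (V c * fderiv ℝ ρ (s • V) (Pi.single c 1)) *
        F (t, s • V) = (1 / (2 * s)) * (V c * (dD c ρ (s • V) * F (t, s • V))) := by
      intro c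
      unfold dD
      ring
    simp only [e1, e2]
    ring
  have i1 : Integrable (fun V : ι → ℝ => ∑ c, (1 / (2 * s)) *
      (V c * (ρ (s • V) * dC c F (t, s • V)))) (sg ι) :=
    integrable_finsetSum _ fun c _ => ((CP c).int_mul s c).const_mul _
  have i2 : Integrable (fun V : ι → ℝ => ∑ c, (1 / (2 * s)) *
      (V c * (dD c ρ (s • V) * F (t, s • V)))) (sg ι) :=
    integrable_finsetSum _ fun c _ => ((CR c).int_mul s c).const_mul _
  have i12 : Integrable (fun V : ι → ℝ => (∑ c, (1 / (2 * s)) *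
      (V c * (ρ (s • V) * dC c F (t, s • V)))) + ∑ c, (1 / (2 * s)) *
      (V c * (dD c ρ (s • V) * F (t, s • V)))) (sg ι) := i1.add i2
  have hLL : ∫ V, ρ (s • V) * LL F (t, s • V) ∂(sg ι) =
      (∫ V, ρ (s • V) * fderiv ℝ F (t, s • V) (1, 0) ∂(sg ι)) +
        ∑ c, (1 / 2) * ∫ V, ρ (s • V) * dC c (dC c F) (t, s • V) ∂(sg ι) := by
    have e1 : ∀ V : ι → ℝ, ρ (s • V) * LL F (t, s • V) =
        ρ (s • V) * fderiv ℝ F (t, s • V) (1, 0) +
          ∑ c, (1 / 2) * (ρ (s • V) * dC c (dC c F) (t, s • V)) := by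
      intro V
      unfold LL
      rw [smul_eq_mul, mul_add, Finset.mul_sum, Finset.mul_sum, add_comm]
      congr 1
      refine Finset.sum_congr rfl fun c _ => ?_
      ring
    simp only [e1]
    rw [integral_add (C0.int s)
      (integrable_finsetSum _ fun c _ => ((CS c).int s).const_mul _),
      integral_finsetSum _ fun c _ => ((CS c).int s).const_mul _]
    simp only [integral_const_mul]
  simp only [hder]
  rw [integral_add (C0.int s) i12, integral_add i1 i2,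
    integral_finsetSum _ fun c _ => ((CP c).int_mul s c).const_mul _,
    integral_finsetSum _ fun c _ => ((CR c).int_mul s c).const_mul _, hLL, add_assoc, add_sub_assoc,
    add_right_inj, Finset.mul_sum, Finset.mul_sum, ← Finset.sum_add_distrib,
    ← Finset.sum_add_distrib, ← Finset.sum_sub_distrib]
  refine Finset.sum_congr rfl fun c _ => ?_
  rw [integral_const_mul, integral_const_mul, IP, IR]
  field_simp
  ring

end Pool.Agent.LE.QF.H2
end
end -- Pool.Agent.Helper2_LQF.FLC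

section -- Pool.Agent.Helper2_LQF.FLW

/-!
# FLW: the flow
-/

set_option autoImplicit false

open MeasureTheory ProbabilityTheory Function Filter Set

open scoped ENNReal BigOperators Topology NNReal

noncomputable section

namespace Pool.Agent.LE.QF.H2

variable {ι : Type} [Fintype ι] [DecidableEq ι]

/-- the inequality for the derivative -/
theorem der_le (ste : QD.SteStmt) {T : ℝ} {F : ℝ × (ι → ℝ) → ℝ} {a b : ℝ → ℝ}
    (hab : ∀ t, 0 ≤ a t ∧ 0 ≤ b t)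
    (h : ∀ q : ℝ × (ι → ℝ), 0 ≤ q.1 → q.1 ≤ T → ContDiffAt ℝ 2 F q)
    (hb : ∀ q : ℝ × (ι → ℝ), 0 ≤ q.1 → q.1 ≤ T → 0 ≤ F q ∧ F q ≤ 1)
    (hL : ∀ q : ℝ × (ι → ℝ), 0 ≤ q.1 → q.1 ≤ T → LL F q ≤ a q.1 * F q + b q.1)
    {ρ : (ι → ℝ) → ℝ} (hρ : ContDiff ℝ 2 ρ) (hcs : HasCompactSupport ρ)
    (h01 : ∀ v, 0 ≤ ρ v ∧ ρ v ≤ 1) {k₁ k₂ : ℝ}
    (hk₁ : ∀ (v : ι → ℝ) (c : ι), |dD c ρ v| ≤ k₁)
    (hk₂ : ∀ (v : ι → ℝ) (c : ι), |dD c (dD c ρ) v| ≤ k₂) {t : ℝ} (h0 : 0 < t) (h1 : t ≤ T) :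
    ∫ V, der ρ F t V ∂(sg ι) ≤ a t * (∫ V, val ρ F t V ∂(sg ι)) + b t +
      (1 / √t) * (k₁ * ∫ V : ι → ℝ, ∑ c, |V c| ∂(sg ι)) + (1 / 2) * (Fintype.card ι * k₂) := by
  have hs0 : 0 < √t := Real.sqrt_pos.2 h0
  have hρc := hρ.continuous
  have hFc := (sl2 h h0.le h1).continuous
  have hLLc : Continuous fun v : ι → ℝ => LL F (t, v) := by
    have e1 : Continuous fun v : ι → ℝ => ∑ c, dC c (dC c F) (t, v) :=
      continuous_finsetSum _ fun c _ => sl_dC2_cont h c h0.le h1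
    exact (e1.const_smul (1 / 2 : ℝ)).add (sl_t_cont h h0.le h1)
  have CL : CC fun v : ι → ℝ => ρ v * LL F (t, v) := ⟨hρc.mul hLLc, hcs.mul_right⟩
  have CV : CC fun v : ι → ℝ => ρ v * F (t, v) := ⟨hρc.mul hFc, hcs.mul_right⟩
  have CR : ∀ c : ι, CC fun v : ι → ℝ => dD c ρ v * F (t, v) := fun c =>
    ⟨(dD_C1 c hρ).continuous.mul hFc, (dD_cs c hcs).mul_right⟩
  have cY : ∀ c : ι, Continuous (dD c (dD c ρ)) := fun c =>
    ((dD_C1 c hρ).continuous_fderiv one_ne_zero).clm_apply continuous_const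
  have CY : ∀ c : ι, CC fun v : ι → ℝ => dD c (dD c ρ) v * F (t, v) := fun c =>
    ⟨(cY c).mul hFc, (dD_cs c (dD_cs c hcs)).mul_right⟩
  rw [der_int ste h hρ hcs h0 h1]
  have e1 : ∫ V, ρ (√t • V) * LL F (t, √t • V) ∂(sg ι) ≤
      a t * (∫ V, val ρ F t V ∂(sg ι)) + b t := by
    have e2 : ∫ V, ρ (√t • V) * LL F (t, √t • V) ∂(sg ι) ≤
        ∫ V, (a t * val ρ F t V + b t) ∂(sg ι) := by
      refine integral_mono (CL.int (√t)) (((CV.int (√t)).const_mul (a t)).add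
        (integrable_const _)) fun V => ?_
      have h2 := hL (t, √t • V) h0.le h1
      obtain ⟨h3, h4⟩ := h01 (√t • V)
      obtain ⟨h5, h6⟩ := hab t
      unfold val
      have h7 : ρ (√t • V) * LL F (t, √t • V) ≤ ρ (√t • V) * (a t * F (t, √t • V) + b t) :=
        mul_le_mul_of_nonneg_left h2 h3
      have h8 : ρ (√t • V) * b t ≤ 1 * b t := mul_le_mul_of_nonneg_right h4 h6
      change ρ (√t • V) * LL F (t, √t • V) ≤ a t * (ρ (√t • V) * F (t, √t • V)) + b t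
      linarith
    have e5 : Integrable (fun V : ι → ℝ => a t * val ρ F t V) (sg ι) :=
      (CV.int (√t)).const_mul (a t)
    rw [integral_add e5 (integrable_const _), integral_const_mul, integral_const] at e2
    simpa using e2
  have e3 : ∑ c, (∫ V, V c * (dD c ρ (√t • V) * F (t, √t • V)) ∂(sg ι)) ≤
      k₁ * ∫ V : ι → ℝ, ∑ c, |V c| ∂(sg ι) := by
    rw [integral_finsetSum _ fun c _ => (int_coord c).abs, Finset.mul_sum]
    refine Finset.sum_le_sum fun c _ => ?_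
    rw [← integral_const_mul]
    refine integral_mono ((CR c).int_mul (√t) c) ((int_coord c).abs.const_mul k₁) fun V => ?_
    obtain ⟨h3, h4⟩ := hb (t, √t • V) h0.le h1
    change V c * (dD c ρ (√t • V) * F (t, √t • V)) ≤ k₁ * |V c|
    calc V c * (dD c ρ (√t • V) * F (t, √t • V))
        ≤ |V c * (dD c ρ (√t • V) * F (t, √t • V))| := le_abs_self _
      _ = |dD c ρ (√t • V)| * (|F (t, √t • V)| * |V c|) := by
        rw [abs_mul, abs_mul]
        ring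
      _ ≤ k₁ * (1 * |V c|) := by
        refine mul_le_mul (hk₁ _ c) (mul_le_mul_of_nonneg_right ?_ (abs_nonneg _))
          (by positivity) ((abs_nonneg _).trans (hk₁ 0 c))
        rw [abs_of_nonneg h3]
        exact h4
      _ = k₁ * |V c| := by ring
  have e4 : -(Fintype.card ι * k₂) ≤
      ∑ c, ∫ V, dD c (dD c ρ) (√t • V) * F (t, √t • V) ∂(sg ι) := by
    have e5 : ∀ c : ι, -k₂ ≤ ∫ V, dD c (dD c ρ) (√t • V) * F (t, √t • V) ∂(sg ι) := by
      intro c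
      have e6 : ∫ _V : ι → ℝ, -k₂ ∂(sg ι) ≤
          ∫ V, dD c (dD c ρ) (√t • V) * F (t, √t • V) ∂(sg ι) := by
        refine integral_mono (integrable_const _) ((CY c).int (√t)) fun V => ?_
        obtain ⟨h3, h4⟩ := hb (t, √t • V) h0.le h1
        change -k₂ ≤ dD c (dD c ρ) (√t • V) * F (t, √t • V)
        have h5 : |dD c (dD c ρ) (√t • V) * F (t, √t • V)| ≤ k₂ := by
          rw [abs_mul, abs_of_nonneg h3]
          calc |dD c (dD c ρ) (√t • V)| * F (t, √t • V) ≤ k₂ * 1 :=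
                mul_le_mul (hk₂ _ c) h4 h3 ((abs_nonneg _).trans (hk₂ 0 c))
            _ = k₂ := mul_one _
        exact (abs_le.1 h5).1
      rw [integral_const] at e6
      simpa using e6
    calc -(Fintype.card ι * k₂) = ∑ _c : ι, -k₂ := by
          rw [Finset.sum_const, Finset.card_univ, nsmul_eq_mul]
          ring
      _ ≤ _ := Finset.sum_le_sum fun c _ => e5 c
  have e7 : (1 / √t) * ∑ c, (∫ V, V c * (dD c ρ (√t • V) * F (t, √t • V)) ∂(sg ι)) ≤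
      (1 / √t) * (k₁ * ∫ V : ι → ℝ, ∑ c, |V c| ∂(sg ι)) :=
    mul_le_mul_of_nonneg_left e3 (by positivity)
  linarith

/-- the Gronwall inequality -/
theorem gron {T : ℝ} (hT : 0 < T) {a b : ℝ → ℝ} (ha : Continuous a) (hbc : Continuous b)
    (hab : ∀ t, 0 ≤ a t ∧ 0 ≤ b t) {u u' : ℝ → ℝ} {κ₁ κ₂ : ℝ} (hκ₁ : 0 ≤ κ₁) (hκ₂ : 0 ≤ κ₂)
    (hu : ContinuousOn u (Icc 0 T)) (hd : ∀ t ∈ Ioo 0 T, HasDerivAt u (u' t) t)
    (hi : ∀ t ∈ Ioo 0 T, u' t ≤ a t * u t + b t + (1 / √t) * κ₁ + κ₂) :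
    u T ≤ Real.exp (∫ t in (0 : ℝ)..T, a t) * (u 0 + (∫ t in (0 : ℝ)..T, b t) +
      2 * √T * κ₁ + T * κ₂) := by
  set A : ℝ → ℝ := fun t => ∫ x in (0 : ℝ)..t, a x with hA
  set B : ℝ → ℝ := fun t => ∫ x in (0 : ℝ)..t, b x with hB
  have dA : ∀ t, HasDerivAt A (a t) t := fun t =>
    intervalIntegral.integral_hasDerivAt_right (ha.intervalIntegrable _ _)
      ha.stronglyMeasurable.stronglyMeasurableAtFilter ha.continuousAt
  have dB' : ∀ t, HasDerivAt B (b t) t := fun t =>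
    intervalIntegral.integral_hasDerivAt_right (hbc.intervalIntegrable _ _)
      hbc.stronglyMeasurable.stronglyMeasurableAtFilter hbc.continuousAt
  have cA : Continuous A := continuous_iff_continuousAt.2 fun t => (dA t).continuousAt
  have cB : Continuous B := continuous_iff_continuousAt.2 fun t => (dB' t).continuousAt
  set φ : ℝ → ℝ := fun t => u t * Real.exp (-A t) - (B t + 2 * √t * κ₁ + t * κ₂) with hφ
  have cφ : ContinuousOn φ (Icc 0 T) := by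
    have e1 : Continuous fun t => Real.exp (-A t) := Real.continuous_exp.comp cA.neg
    have e2 : Continuous fun t : ℝ => B t + 2 * √t * κ₁ + t * κ₂ := by
      have := Real.continuous_sqrt
      fun_prop
    exact (hu.mul e1.continuousOn).sub e2.continuousOn
  have dφ : ∀ t ∈ Ioo 0 T, HasDerivAt φ (u' t * Real.exp (-A t) +
      u t * (Real.exp (-A t) * -a t) - (b t + 2 * (1 / (2 * √t)) * κ₁ + 1 * κ₂)) t := by
    intro t ht
    have e1 : HasDerivAt (fun t => Real.exp (-A t)) (Real.exp (-A t) * -a t) t :=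
      (dA t).neg.exp
    have e2 : HasDerivAt (fun t : ℝ => √t) (1 / (2 * √t)) t := Real.hasDerivAt_sqrt ht.1.ne'
    exact ((hd t ht).mul e1).sub (((dB' t).add ((e2.const_mul 2).mul_const κ₁)).add
      ((hasDerivAt_id t).mul_const κ₂))
  have hanti : AntitoneOn φ (Icc 0 T) := by
    apply antitoneOn_of_deriv_nonpos (convex_Icc 0 T) cφ
    · rw [interior_Icc]
      exact fun t ht => (dφ t ht).differentiableAt.differentiableWithinAt
    · rw [interior_Icc]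
      intro t ht
      rw [(dφ t ht).deriv]
      have hs0 : 0 < √t := Real.sqrt_pos.2 ht.1
      have hA0 : 0 ≤ A t := intervalIntegral.integral_nonneg ht.1.le fun x _ => (hab x).1
      have he1 : Real.exp (-A t) ≤ 1 := by
        rw [Real.exp_le_one_iff]
        linarith
      have he0 := Real.exp_pos (-A t)
      have h2 := hi t ht
      have h3 : (u' t - a t * u t) * Real.exp (-A t) ≤
          (b t + (1 / √t) * κ₁ + κ₂) * Real.exp (-A t) :=
        mul_le_mul_of_nonneg_right (by linarith) he0.le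
      have h4 : (b t + (1 / √t) * κ₁ + κ₂) * Real.exp (-A t) ≤
          (b t + (1 / √t) * κ₁ + κ₂) * 1 := by
        apply mul_le_mul_of_nonneg_left he1
        have := (hab t).2
        positivity
      have h5 : 2 * (1 / (2 * √t)) * κ₁ = (1 / √t) * κ₁ := by
        field_simp
      rw [h5]
      nlinarith only [h3, h4]
  have h6 := hanti (left_mem_Icc.2 hT.le) (right_mem_Icc.2 hT.le) hT.le
  have hA0 : A 0 = 0 := intervalIntegral.integral_same
  have hB0 : B 0 = 0 := intervalIntegral.integral_same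
  simp only [hφ, hA0, hB0, Real.sqrt_zero, neg_zero, Real.exp_zero] at h6
  have h7 : u T * Real.exp (-A T) ≤ u 0 + B T + 2 * √T * κ₁ + T * κ₂ := by linarith only [h6]
  have h8 : u T = Real.exp (A T) * (u T * Real.exp (-A T)) := by
    rw [mul_comm (u T), ← mul_assoc, ← Real.exp_add, add_neg_cancel, Real.exp_zero, one_mul]
  rw [h8]
  exact mul_le_mul_of_nonneg_left h7 (Real.exp_pos _).le

/-- the inequality with a cutoff -/
theorem cut_le (ste : QD.SteStmt) {T : ℝ} (hT : 0 < T) {F : ℝ × (ι → ℝ) → ℝ} {a b : ℝ → ℝ}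
    (ha : Continuous a) (hbc : Continuous b) (hab : ∀ t, 0 ≤ a t ∧ 0 ≤ b t)
    (h : ∀ q : ℝ × (ι → ℝ), 0 ≤ q.1 → q.1 ≤ T → ContDiffAt ℝ 2 F q)
    (hb : ∀ q : ℝ × (ι → ℝ), 0 ≤ q.1 → q.1 ≤ T → 0 ≤ F q ∧ F q ≤ 1)
    (hL : ∀ q : ℝ × (ι → ℝ), 0 ≤ q.1 → q.1 ≤ T → LL F q ≤ a q.1 * F q + b q.1)
    {ρ : (ι → ℝ) → ℝ} (hρ : ContDiff ℝ 2 ρ) (hcs : HasCompactSupport ρ)
    (h01 : ∀ v, 0 ≤ ρ v ∧ ρ v ≤ 1) (hρ0 : ρ 0 = 1) {k₁ k₂ : ℝ} (hk₁0 : 0 ≤ k₁) (hk₂0 : 0 ≤ k₂)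
    (hk₁ : ∀ (v : ι → ℝ) (c : ι), |dD c ρ v| ≤ k₁)
    (hk₂ : ∀ (v : ι → ℝ) (c : ι), |dD c (dD c ρ) v| ≤ k₂) :
    ∫ V, val ρ F T V ∂(sg ι) ≤ Real.exp (∫ t in (0 : ℝ)..T, a t) * (F (0, 0) +
      (∫ t in (0 : ℝ)..T, b t) + 2 * √T * (k₁ * ∫ V : ι → ℝ, ∑ c, |V c| ∂(sg ι)) +
        T * ((1 / 2) * (Fintype.card ι * k₂))) := by
  have e0 : ∫ V, val ρ F 0 V ∂(sg ι) = F (0, 0) := by
    have e1 : ∀ V : ι → ℝ, val ρ F 0 V = F (0, 0) := by
      intro V
      unfold val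
      rw [Real.sqrt_zero, zero_smul, hρ0, one_mul]
    simp only [e1, integral_const]
    simp
  have hE : 0 ≤ ∫ V : ι → ℝ, ∑ c, |V c| ∂(sg ι) :=
    integral_nonneg fun V => Finset.sum_nonneg fun _ _ => abs_nonneg _
  have key := gron hT ha hbc hab (u := fun x => ∫ V, val ρ F x V ∂(sg ι))
    (u' := fun x => ∫ V, der ρ F x V ∂(sg ι))
    (κ₁ := k₁ * ∫ V : ι → ℝ, ∑ c, |V c| ∂(sg ι)) (κ₂ := (1 / 2) * (Fintype.card ι * k₂))
    (mul_nonneg hk₁0 hE) (by positivity) (u_cont h hb hρ h01)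
    (fun t ht => u_der h hb hρ hcs h01 ht.1 ht.2)
    (fun t ht => der_le ste hab h hb hL hρ hcs h01 hk₁ hk₂ ht.1 ht.2.le)
  rw [← e0]
  exact key

theorem dD_scale (c : ι) {ρ : (ι → ℝ) → ℝ} (hρ : Differentiable ℝ ρ) (k : ℝ) (v : ι → ℝ) :
    dD c (fun v => ρ (k • v)) v = k * dD c ρ (k • v) := by
  unfold dD
  have e1 : HasFDerivAt (fun v : ι → ℝ => k • v) (k • ContinuousLinearMap.id ℝ (ι → ℝ)) v :=
    (hasFDerivAt_id v).const_smul k
  have e2 := (hρ (k • v)).hasFDerivAt.comp v e1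
  have e3 : fderiv ℝ (fun v => ρ (k • v)) v =
      (fderiv ℝ ρ (k • v)).comp (k • ContinuousLinearMap.id ℝ (ι → ℝ)) := e2.fderiv
  rw [e3]
  simp

theorem flw (ste : QD.SteStmt) : FlwStmt := by
  intro ι _ _ T a b F hT ha hbc hab hF
  have h : ∀ q : ℝ × (ι → ℝ), 0 ≤ q.1 → q.1 ≤ T → ContDiffAt ℝ 2 F q :=
    fun q h0 h1 => (hF q h0 h1).1
  have hb : ∀ q : ℝ × (ι → ℝ), 0 ≤ q.1 → q.1 ≤ T → 0 ≤ F q ∧ F q ≤ 1 :=
    fun q h0 h1 => ⟨(hF q h0 h1).2.1, (hF q h0 h1).2.2.1⟩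
  have hL : ∀ q : ℝ × (ι → ℝ), 0 ≤ q.1 → q.1 ≤ T → LL F q ≤ a q.1 * F q + b q.1 :=
    fun q h0 h1 => (hF q h0 h1).2.2.2
  have hFc := (sl2 h hT.le le_rfl).continuous
  rw [scale hT.le (fun V => F (T, V)) hFc]
  obtain ⟨ρ, hρ, hcs, h01, h1⟩ := exists_cut (ι := ι)
  -- bounds of the derivatives of `ρ`
  have B1 : ∀ c : ι, ∃ B, 0 ≤ B ∧ ∀ v, |dD c ρ v| ≤ B := fun c =>
    CC.bdd ⟨(dD_C1 c hρ).continuous, dD_cs c hcs⟩
  have B2 : ∀ c : ι, ∃ B, 0 ≤ B ∧ ∀ v, |dD c (dD c ρ) v| ≤ B := fun c =>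
    CC.bdd ⟨((dD_C1 c hρ).continuous_fderiv one_ne_zero).clm_apply continuous_const,
      dD_cs c (dD_cs c hcs)⟩
  choose b₁ hb₁0 hb₁ using B1
  choose b₂ hb₂0 hb₂ using B2
  set K₁ : ℝ := ∑ c, b₁ c with hK₁
  set K₂ : ℝ := ∑ c, b₂ c with hK₂
  have hK₁0 : 0 ≤ K₁ := Finset.sum_nonneg fun c _ => hb₁0 c
  have hK₂0 : 0 ≤ K₂ := Finset.sum_nonneg fun c _ => hb₂0 c
  have hc₁ : ∀ (v : ι → ℝ) (c : ι), |dD c ρ v| ≤ K₁ := fun v c =>
    (hb₁ c v).trans (Finset.single_le_sum (fun c _ => hb₁0 c) (Finset.mem_univ c))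
  have hc₂ : ∀ (v : ι → ℝ) (c : ι), |dD c (dD c ρ) v| ≤ K₂ := fun v c =>
    (hb₂ c v).trans (Finset.single_le_sum (fun c _ => hb₂0 c) (Finset.mem_univ c))
  -- the scaled cutoffs
  set k : ℕ → ℝ := fun n => 1 / ((n : ℝ) + 1) with hk
  have hk0 : ∀ n, 0 < k n := fun n => by
    simp only [hk]
    positivity
  have hle : ∀ n, ∫ V, val (fun v => ρ (k n • v)) F T V ∂(sg ι) ≤
      Real.exp (∫ t in (0 : ℝ)..T, a t) * (F (0, 0) + (∫ t in (0 : ℝ)..T, b t) +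
        2 * √T * ((k n * K₁) * ∫ V : ι → ℝ, ∑ c, |V c| ∂(sg ι)) +
        T * ((1 / 2) * (Fintype.card ι * (k n * (k n * K₂))))) := by
    intro n
    have hsm : ContDiff ℝ 2 fun v : ι → ℝ => ρ (k n • v) := hρ.comp (contDiff_const_smul (k n))
    have hd1 : ∀ c : ι, dD c (fun v => ρ (k n • v)) = fun v => k n * dD c ρ (k n • v) := by
      intro c
      funext v
      exact dD_scale c (hρ.differentiable two_ne_zero) (k n) v
    have hd2 : ∀ c : ι, ∀ v, dD c (dD c (fun v => ρ (k n • v))) v =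
        k n * (k n * dD c (dD c ρ) (k n • v)) := by
      intro c v
      rw [hd1 c]
      have e1 := dD_scale c ((dD_C1 c hρ).differentiable one_ne_zero) (k n) v
      have e2 : dD c (fun v => k n * dD c ρ (k n • v)) v =
          k n * dD c (fun v => dD c ρ (k n • v)) v := by
        unfold dD
        rw [fderiv_const_mul]
        · simp
        · exact (((dD_C1 c hρ).comp (contDiff_const_smul (k n))).differentiable
            one_ne_zero) v
      rw [e2, e1]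
    refine cut_le ste hT ha hbc hab h hb hL hsm ?_ (fun v => h01 _) ?_
      (mul_nonneg (hk0 n).le hK₁0) (mul_nonneg (hk0 n).le (mul_nonneg (hk0 n).le hK₂0)) ?_ ?_
    · exact hcs.comp_homeomorph (Homeomorph.smulOfNeZero (k n) (hk0 n).ne')
    · rw [smul_zero]
      exact h1 0 (by simp)
    · intro v c
      rw [hd1 c, abs_mul, abs_of_pos (hk0 n)]
      exact mul_le_mul_of_nonneg_left (hc₁ _ c) (hk0 n).le
    · intro v c
      rw [hd2 c, abs_mul, abs_mul, abs_of_pos (hk0 n)]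
      exact mul_le_mul_of_nonneg_left (mul_le_mul_of_nonneg_left (hc₂ _ c) (hk0 n).le)
        (hk0 n).le
  have hkl : Tendsto k atTop (𝓝 0) := tendsto_one_div_add_atTop_nhds_zero_nat
  have l1 : Tendsto (fun n => ∫ V, val (fun v => ρ (k n • v)) F T V ∂(sg ι)) atTop
      (𝓝 (∫ V, F (T, √T • V) ∂(sg ι))) := by
    refine tendsto_integral_of_dominated_convergence (fun _ => (1 : ℝ)) ?_ (integrable_const _)
      ?_ ?_
    · intro n
      exact (val_cont h (hρ.comp (contDiff_const_smul (k n))) hT.le le_rfl).aestronglyMeasurable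
    · intro n
      refine Eventually.of_forall fun V => ?_
      unfold val
      obtain ⟨a1, a2⟩ := h01 (k n • √T • V)
      obtain ⟨a3, a4⟩ := hb (T, √T • V) hT.le le_rfl
      rw [Real.norm_of_nonneg (mul_nonneg a1 a3)]
      exact mul_le_one₀ a2 a3 a4
    · refine Eventually.of_forall fun V => ?_
      have e1 : Tendsto (fun n => k n • √T • V) atTop (𝓝 0) := by
        have e2 := hkl.smul_const (√T • V)
        rwa [zero_smul] at e2
      have e3 : ∀ᶠ n in atTop, ‖k n • √T • V‖ < 1 := by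
        have e4 := e1.norm
        rw [norm_zero] at e4
        exact e4.eventually (gt_mem_nhds one_pos)
      refine tendsto_const_nhds.congr' ?_
      filter_upwards [e3] with n hn
      change F (T, √T • V) = ρ (k n • √T • V) * F (T, √T • V)
      rw [h1 _ hn.le, one_mul]
  have l2 : Tendsto (fun n => Real.exp (∫ t in (0 : ℝ)..T, a t) * (F (0, 0) +
      (∫ t in (0 : ℝ)..T, b t) + 2 * √T * ((k n * K₁) * ∫ V : ι → ℝ, ∑ c, |V c| ∂(sg ι)) +
        T * ((1 / 2) * (Fintype.card ι * (k n * (k n * K₂)))))) atTop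
      (𝓝 (Real.exp (∫ t in (0 : ℝ)..T, a t) * (F (0, 0) +
      (∫ t in (0 : ℝ)..T, b t) + 2 * √T * (((0 : ℝ) * K₁) * ∫ V : ι → ℝ, ∑ c, |V c| ∂(sg ι)) +
        T * ((1 / 2) * (Fintype.card ι * ((0 : ℝ) * ((0 : ℝ) * K₂))))))) := by
    refine Tendsto.const_mul _ (((tendsto_const_nhds).add ?_).add ?_)
    · exact ((hkl.mul_const K₁).mul_const _).const_mul _
    · exact (((hkl.mul (hkl.mul_const K₂)).const_mul _).const_mul _).const_mul _
  have l3 := le_of_tendsto_of_tendsto' l1 l2 hle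
  refine l3.trans (le_of_eq ?_)
  ring

end Pool.Agent.LE.QF.H2
end
end -- Pool.Agent.Helper2_LQF.FLW

section -- Pool.Agent.Helper32_LQF.JMA

/-!
# Squad LQF, row JMA: algebra of matrix jets
-/

set_option autoImplicit false
set_option linter.unusedSectionVars false

open MeasureTheory ProbabilityTheory Function Filter

open scoped ENNReal BigOperators Topology NNReal ComplexOrder Matrix

noncomputable section

namespace Pool.Agent.LE.QF.H32

section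

variable {ι : Type} [Fintype ι] [DecidableEq ι] {𝕜 : Type} [RCLike 𝕜] {q : ℝ × (ι → ℝ)}

theorem HJ_eq {F : ℝ × (ι → ℝ) → 𝕜} {v v' l l' : 𝕜} {g g' : ι → 𝕜} (h : HJ F q v g l)
    (hv : v = v') (hg : ∀ c, g c = g' c) (hl : l = l') : HJ F q v' g' l' := by
  subst hv
  subst hl
  have : g = g' := funext hg
  subst this
  exact h

theorem HM_eq {m n : Type} {F : ℝ × (ι → ℝ) → Matrix m n 𝕜} {v v' l l' : Matrix m n 𝕜}
    {g g' : ι → Matrix m n 𝕜} (h : HM F q v g l)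
    (hv : v = v') (hg : ∀ c, g c = g' c) (hl : l = l') : HM F q v' g' l' := by
  subst hv
  subst hl
  have : g = g' := funext hg
  subst this
  exact h

theorem HM_mul (hJ : JalStmt) {a b n : Type} [Fintype b] {F : ℝ × (ι → ℝ) → Matrix a b 𝕜}
    {H : ℝ × (ι → ℝ) → Matrix b n 𝕜} {v l : Matrix a b 𝕜} {v' l' : Matrix b n 𝕜}
    {g : ι → Matrix a b 𝕜} {g' : ι → Matrix b n 𝕜} (hF : HM F q v g l) (hH : HM H q v' g' l') :
    HM (fun r => F r * H r) q (v * v') (fun c => v * g' c + g c * v')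
      (v * l' + l * v' + ∑ c, g c * g' c) := by
  obtain ⟨-, -, hmul, -, -, hsum, -, -⟩ := hJ ι 𝕜 q
  intro i j
  have h1 := hsum b Finset.univ (fun k r => F r i k * H r k j) (fun k => v i k * v' k j)
    (fun k => v i k * l' k j + l i k * v' k j + ∑ c, g c i k * g' c k j)
    (fun k c => v i k * g' c k j + g c i k * v' k j) (fun k _ => by
      have h2 := (hmul _ _ _ _ _ _ _ _ (hF i k) (hH k j)).2.2
      exact h2)
  refine HJ_eq (F := fun r => (F r * H r) i j) h1 rfl (fun c => ?_) ?_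
  · rw [Finset.sum_add_distrib]
    rfl
  · rw [Finset.sum_add_distrib, Finset.sum_add_distrib, Finset.sum_comm]
    simp only [Matrix.add_apply, Matrix.sum_apply, Matrix.mul_apply]

theorem HM_const (hJ : JalStmt) {a b : Type} (v : Matrix a b 𝕜) :
    HM (fun _ => v) q v (fun _ => 0) 0 := by
  obtain ⟨hc, -⟩ := hJ ι 𝕜 q
  intro i j
  exact hc (v i j)

/-- uniqueness -/
theorem HM_uniq (hJ : JalStmt) {a b : Type} {F H : ℝ × (ι → ℝ) → Matrix a b 𝕜}
    {v l : Matrix a b 𝕜} {v' l' : Matrix a b 𝕜}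
    {g : ι → Matrix a b 𝕜} {g' : ι → Matrix a b 𝕜} (hF : HM F q v g l) (hH : HM H q v' g' l')
    (he : F =ᶠ[𝓝 q] H) : v = v' ∧ (∀ c, g c = g' c) ∧ l = l' := by
  obtain ⟨-, -, -, -, -, -, -, hu⟩ := hJ ι 𝕜 q
  have key : ∀ i j, v i j = v' i j ∧ (fun c => g c i j) = (fun c => g' c i j) ∧ l i j = l' i j := by
    intro i j
    refine hu _ _ _ _ _ _ _ _ (hF i j) (hH i j) ?_
    filter_upwards [he] with r hr
    rw [hr]
  refine ⟨?_, fun c => ?_, ?_⟩
  · ext i j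
    exact (key i j).1
  · ext i j
    exact congrFun (key i j).2.1 c
  · ext i j
    exact (key i j).2.2

section inv

variable {n : Type} [Fintype n] [DecidableEq n]

theorem det_cd {F : ℝ × (ι → ℝ) → Matrix n n 𝕜} (hF : ∀ i j, ContDiffAt ℝ 2 (fun r => F r i j) q) :
    ContDiffAt ℝ 2 (fun r => (F r).det) q := by
  simp only [Matrix.det_apply]
  apply ContDiffAt.sum
  intro σ _
  apply ContDiffAt.const_smul
  exact contDiffAt_prod fun i _ => hF _ _

theorem inv_cd {F : ℝ × (ι → ℝ) → Matrix n n 𝕜} (hF : ∀ i j, ContDiffAt ℝ 2 (fun r => F r i j) q)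
    (hd : (F q).det ≠ 0) (i j : n) : ContDiffAt ℝ 2 (fun r => (F r)⁻¹ i j) q := by
  have h1 : (fun r => (F r)⁻¹ i j) = fun r => ((F r).det)⁻¹ *
      ((F r).updateRow j (Pi.single i 1)).det := by
    funext r
    rw [Matrix.inv_def, Matrix.smul_apply, Ring.inverse_eq_inv', Matrix.adjugate_apply, smul_eq_mul]
  rw [h1]
  refine ContDiffAt.mul ((det_cd hF).inv hd) (det_cd fun a b => ?_)
  by_cases h : a = j
  · subst h
    simp only [Matrix.updateRow_self]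
    exact contDiffAt_const
  · simp only [Matrix.updateRow_ne h]
    exact hF a b

theorem HM_inv (hJ : JalStmt) {F : ℝ × (ι → ℝ) → Matrix n n 𝕜} {v l : Matrix n n 𝕜}
    {g : ι → Matrix n n 𝕜} (hF : HM F q v g l) (hv : IsUnit v.det) :
    HM (fun r => (F r)⁻¹) q v⁻¹ (fun c => -(v⁻¹ * g c * v⁻¹))
      (-(v⁻¹ * l * v⁻¹) + ∑ c, v⁻¹ * g c * v⁻¹ * g c * v⁻¹) := by
  have hFq : F q = v := by
    ext i j
    exact (hF i j).vl
  have hd : (F q).det ≠ 0 := by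
    rw [hFq]
    exact hv.ne_zero
  have hcd : ∀ i j, ContDiffAt ℝ 2 (fun r => F r i j) q := fun i j => (hF i j).sm
  have hK : HM (fun r => (F r)⁻¹) q v⁻¹ (fun c => Matrix.of fun i j => dC c (fun r => (F r)⁻¹ i j) q)
      (Matrix.of fun i j => LL (fun r => (F r)⁻¹ i j) q) := by
    intro i j
    refine ⟨inv_cd hcd hd i j, ?_, fun c => rfl, rfl⟩
    show (F q)⁻¹ i j = v⁻¹ i j
    rw [hFq]
  set g' : ι → Matrix n n 𝕜 := fun c => Matrix.of fun i j => dC c (fun r => (F r)⁻¹ i j) q with hg'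
  set l' : Matrix n n 𝕜 := Matrix.of fun i j => LL (fun r => (F r)⁻¹ i j) q with hl'
  have hP := HM_mul hJ hF hK
  have hev : (fun r => F r * (F r)⁻¹) =ᶠ[𝓝 q] fun _ => (1 : Matrix n n 𝕜) := by
    have hc : ContinuousAt (fun r => (F r).det) q := (det_cd hcd).continuousAt
    filter_upwards [hc.eventually_ne hd] with r hr
    exact Matrix.mul_nonsing_inv _ (IsUnit.mk0 _ hr)
  obtain ⟨-, e1, e2⟩ := HM_uniq hJ hP (HM_const hJ (1 : Matrix n n 𝕜)) hev
  have hl0 : v⁻¹ * v = 1 := Matrix.nonsing_inv_mul v hv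
  have f1 : ∀ c, g' c = -(v⁻¹ * g c * v⁻¹) := by
    intro c
    have h3 := congrArg (fun z => v⁻¹ * z) (e1 c)
    simp only [mul_add, mul_zero] at h3
    rw [← Matrix.mul_assoc, hl0, Matrix.one_mul, ← Matrix.mul_assoc] at h3
    exact eq_neg_of_add_eq_zero_left h3
  have f2 : l' = -(v⁻¹ * l * v⁻¹) + ∑ c, v⁻¹ * g c * v⁻¹ * g c * v⁻¹ := by
    have h3 := congrArg (fun z => v⁻¹ * z) e2
    simp only [mul_add, mul_zero] at h3
    rw [← Matrix.mul_assoc, hl0, Matrix.one_mul, ← Matrix.mul_assoc, Finset.mul_sum] at h3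
    have h4 : ∀ c ∈ Finset.univ, v⁻¹ * (g c * g' c) = -(v⁻¹ * g c * v⁻¹ * g c * v⁻¹) := by
      intro c _
      rw [f1 c]
      simp only [Matrix.mul_neg, Matrix.mul_assoc]
    rw [Finset.sum_congr rfl h4, Finset.sum_neg_distrib] at h3
    rw [add_assoc] at h3
    have h5 := eq_neg_of_add_eq_zero_left h3
    rw [h5, neg_add, neg_neg]
  exact HM_eq hK rfl f1 f2

/-- the derivative of the power -/
def GG (v : Matrix n n 𝕜) (g : Matrix n n 𝕜) (k : ℕ) : Matrix n n 𝕜 :=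
  ∑ i ∈ Finset.range k, v ^ i * g * v ^ (k - 1 - i)

theorem GG_succ (v g : Matrix n n 𝕜) (k : ℕ) : GG v g (k + 1) = v * GG v g k + g * v ^ k := by
  unfold GG
  rw [Finset.sum_range_succ', Finset.mul_sum]
  congr 1
  · apply Finset.sum_congr rfl
    intro i _
    have : k + 1 - 1 - (i + 1) = k - 1 - i := by omega
    rw [this, pow_succ']
    simp only [Matrix.mul_assoc]
  · rw [pow_zero, Matrix.one_mul]
    rfl

theorem HM_pow (hJ : JalStmt) {F : ℝ × (ι → ℝ) → Matrix n n 𝕜} {v l : Matrix n n 𝕜}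
    {g : ι → Matrix n n 𝕜} (hF : HM F q v g l) (k : ℕ) :
    HM (fun r => F r ^ k) q (v ^ k) (fun c => GG v (g c) k)
      (GG v l k + ∑ c, ∑ i ∈ Finset.range k, v ^ i * g c * GG v (g c) (k - 1 - i)) := by
  induction k with
  | zero =>
    refine HM_eq (F := fun r => F r ^ 0) (v := 1) (l := 0) (g := fun _ => 0) ?_ ?_ ?_ ?_
    · have := HM_const hJ (q := q) (1 : Matrix n n 𝕜)
      simpa using this
    · rw [pow_zero]
    · intro c
      simp [GG]
    · simp [GG]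
  | succ k ih =>
    have h1 := HM_mul hJ hF ih
    have h2 : (fun r => F r ^ (k + 1)) = fun r => F r * F r ^ k := by
      funext r
      rw [pow_succ']
    rw [h2]
    refine HM_eq h1 (pow_succ' v k).symm (fun c => (GG_succ v (g c) k).symm) ?_
    rw [GG_succ, Matrix.mul_add, Finset.mul_sum]
    have h3 : ∀ c, ∑ i ∈ Finset.range (k + 1), v ^ i * g c * GG v (g c) (k + 1 - 1 - i) =
        v * (∑ i ∈ Finset.range k, v ^ i * g c * GG v (g c) (k - 1 - i)) + g c * GG v (g c) k := by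
      intro c
      rw [Finset.sum_range_succ', Finset.mul_sum]
      congr 1
      · apply Finset.sum_congr rfl
        intro i _
        have : k + 1 - 1 - (i + 1) = k - 1 - i := by omega
        rw [this, pow_succ']
        simp only [Matrix.mul_assoc]
      · rw [pow_zero, Matrix.one_mul]
        rfl
    simp only [h3]
    rw [Finset.sum_add_distrib]
    abel

theorem tr_cyc (v g : Matrix n n 𝕜) (i j : ℕ) :
    Matrix.trace (v ^ i * g * v ^ j) = Matrix.trace (v ^ (i + j) * g) := by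
  rw [Matrix.trace_mul_comm, ← Matrix.mul_assoc, ← pow_add, add_comm]

theorem tr_GG (v g : Matrix n n 𝕜) (k : ℕ) :
    Matrix.trace (GG v g k) = k * Matrix.trace (v ^ (k - 1) * g) := by
  unfold GG
  rw [Matrix.trace_sum]
  have h : ∀ i ∈ Finset.range k, Matrix.trace (v ^ i * g * v ^ (k - 1 - i)) =
      Matrix.trace (v ^ (k - 1) * g) := by
    intro i hi
    rw [Finset.mem_range] at hi
    rw [tr_cyc]
    congr 3
    omega
  rw [Finset.sum_congr rfl h, Finset.sum_const, Finset.card_range, nsmul_eq_mul]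

theorem tri_sum (T : ℕ → 𝕜) (m : ℕ) :
    ∑ i ∈ Finset.range (m + 1), ∑ j ∈ Finset.range (m - i), T j =
      ∑ j ∈ Finset.range m, ((m : 𝕜) - j) * T j := by
  induction m with
  | zero => simp
  | succ m ih =>
    rw [Finset.sum_range_succ']
    have h1 : ∀ i ∈ Finset.range (m + 1), ∑ j ∈ Finset.range (m + 1 - (i + 1)), T j =
        ∑ j ∈ Finset.range (m - i), T j := by
      intro i _
      rw [Nat.add_sub_add_right]
    rw [Finset.sum_congr rfl h1, ih, Nat.sub_zero]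
    rw [Finset.sum_range_succ (fun j => (((m + 1 : ℕ) : 𝕜) - j) * T j)]
    rw [Finset.sum_range_succ (fun j => T j)]
    push_cast
    have h2 : ∀ j ∈ Finset.range m, ((m : 𝕜) + 1 - j) * T j = ((m : 𝕜) - j) * T j + T j := by
      intro j _
      ring
    rw [Finset.sum_congr rfl h2, Finset.sum_add_distrib]
    ring

theorem sym_sum (T : ℕ → 𝕜) (m : ℕ) (hT : ∀ j < m, T (m - 1 - j) = T j) :
    ∑ j ∈ Finset.range m, ((m : 𝕜) - j) * T j =
      ((m : 𝕜) + 1) / 2 * ∑ j ∈ Finset.range m, T j := by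
  have h1 : ∑ j ∈ Finset.range m, ((m : 𝕜) - j) * T j =
      ∑ j ∈ Finset.range m, ((j : 𝕜) + 1) * T j := by
    rw [← Finset.sum_range_reflect]
    apply Finset.sum_congr rfl
    intro j hj
    rw [Finset.mem_range] at hj
    rw [hT j hj]
    have h2 : ((m - 1 - j : ℕ) : 𝕜) = (m : 𝕜) - 1 - j := by
      have : m = (m - 1 - j) + 1 + j := by omega
      have h3 : (m : 𝕜) = ((m - 1 - j : ℕ) : 𝕜) + 1 + j := by
        exact_mod_cast congrArg (fun z : ℕ => (z : 𝕜)) this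
      rw [h3]
      ring
    rw [h2]
    ring
  have h3 : ∑ j ∈ Finset.range m, ((m : 𝕜) - j) * T j + ∑ j ∈ Finset.range m, ((j : 𝕜) + 1) * T j =
      ((m : 𝕜) + 1) * ∑ j ∈ Finset.range m, T j := by
    rw [← Finset.sum_add_distrib, Finset.mul_sum]
    apply Finset.sum_congr rfl
    intro j _
    ring
  rw [← h1] at h3
  linear_combination h3 / 2

theorem tr_pow (hJ : JalStmt) {F : ℝ × (ι → ℝ) → Matrix n n 𝕜} {v l : Matrix n n 𝕜}
    {g : ι → Matrix n n 𝕜} (hF : HM F q v g l) (k : ℕ) (hk : 2 ≤ k) :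
    HJ (fun r => Matrix.trace (F r ^ k)) q (Matrix.trace (v ^ k))
      (fun c => k * Matrix.trace (v ^ (k - 1) * g c))
      (k * Matrix.trace (v ^ (k - 1) * l) +
        k / 2 * ∑ c, ∑ i ∈ Finset.range (k - 1),
          Matrix.trace (g c * v ^ i * g c * v ^ (k - 2 - i))) := by
  obtain ⟨-, -, -, -, -, hsum, -, -⟩ := hJ ι 𝕜 q
  have hP := HM_pow hJ hF k
  have h1 := hsum n Finset.univ (fun i r => (F r ^ k) i i) (fun i => (v ^ k) i i)
    (fun i => (GG v l k + ∑ c, ∑ i ∈ Finset.range k,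
      v ^ i * g c * GG v (g c) (k - 1 - i)) i i) (fun i c => GG v (g c) k i i)
    (fun i _ => hP i i)
  refine HJ_eq (F := fun r => Matrix.trace (F r ^ k)) h1 rfl (fun c => ?_) ?_
  · exact tr_GG v (g c) k
  · show Matrix.trace (GG v l k + ∑ c, ∑ i ∈ Finset.range k,
      v ^ i * g c * GG v (g c) (k - 1 - i)) = _
    rw [Matrix.trace_add, tr_GG, Matrix.trace_sum]
    congr 1
    rw [Finset.mul_sum]
    apply Finset.sum_congr rfl
    intro c _
    rw [Matrix.trace_sum]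
    obtain ⟨m, rfl⟩ : ∃ m, k = m + 1 := ⟨k - 1, by omega⟩
    have e1 : m + 1 - 1 = m := rfl
    rw [e1]
    set T : ℕ → 𝕜 := fun i => Matrix.trace (g c * v ^ i * g c * v ^ (m + 1 - 2 - i)) with hT
    have h2 : ∀ i ∈ Finset.range (m + 1), Matrix.trace (v ^ i * g c * GG v (g c) (m - i)) =
        ∑ j ∈ Finset.range (m - i), T j := by
      intro i _
      unfold GG
      rw [Finset.mul_sum, Matrix.trace_sum]
      apply Finset.sum_congr rfl
      intro j hj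
      rw [Finset.mem_range] at hj
      have e2 : v ^ i * g c * (v ^ j * g c * v ^ (m - i - 1 - j)) =
          v ^ i * (g c * v ^ j * g c * v ^ (m - i - 1 - j)) := by
        simp only [Matrix.mul_assoc]
      rw [e2, Matrix.trace_mul_comm, Matrix.mul_assoc _ _ (v ^ i), ← pow_add]
      have e3 : m - i - 1 - j + i = m + 1 - 2 - j := by omega
      rw [e3]
    rw [Finset.sum_congr rfl h2, tri_sum, sym_sum]
    · push_cast
      rfl
    · intro j hj
      show Matrix.trace (g c * v ^ (m - 1 - j) * g c * v ^ (m + 1 - 2 - (m - 1 - j))) =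
        Matrix.trace (g c * v ^ j * g c * v ^ (m + 1 - 2 - j))
      have e4 : m + 1 - 2 - (m - 1 - j) = j := by omega
      have e5 : m + 1 - 2 - j = m - 1 - j := by omega
      rw [e4, e5]
      rw [Matrix.mul_assoc (g c * v ^ (m - 1 - j)), Matrix.trace_mul_comm]
      simp only [Matrix.mul_assoc]

end inv

end

theorem jma (hJ : JalStmt) : JmaStmt := by
  intro ι _ _ 𝕜 _ q
  refine ⟨fun a b n _ F H v l v' l' g g' hF hH => HM_mul hJ hF hH, ?_⟩
  intro n _ _ F v l g hF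
  exact ⟨fun hv => HM_inv hJ hF hv, fun k hk => tr_pow hJ hF k hk⟩

end Pool.Agent.LE.QF.H32
end
end -- Pool.Agent.Helper32_LQF.JMA

section -- Pool.Agent.Helper2_LQF.GDC

/-!
# GDC: from the functional to the good point
-/

set_option autoImplicit false

open scoped BigOperators Matrix

noncomputable section

namespace Pool.Agent.LE.QF.H2

theorem gdc : GdcStmt := by
  intro c₁ C₁ hc₁ hC₁
  set C₀ : ℝ := C₁ + 5 + 4 / c₁ with hC₀
  have h4c : 0 < 4 / c₁ := by positivity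
  have hC₀6 : 6 ≤ C₀ := by linarith only [hC₁, h4c]
  refine ⟨min (c₁ / 2) (1 / (2 * C₀)), C₀, ?_, ?_, by linarith only [hC₁, h4c], ?_⟩
  · exact lt_min (by positivity) (by positivity)
  · refine (min_le_right _ _).trans ?_
    rw [div_le_div_iff₀ (by positivity) (by norm_num)]
    linarith only [hC₁, h4c]
  intro X _ _ G G₀ φ m 𝒩 κ τ δ N hκ hκ1 hκτ hm1 hm2 hδ hδc hN hs hs₀ hw hμ hφ hXh hG₀ h𝒩 hN'
  have hmp : 0 < m.im := by linarith only [hc₁, hm1]
  have hτ : 0 < τ := by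
    by_contra h
    push Not at h
    have : τ * m.im ≤ 0 := mul_nonpos_of_nonpos_of_nonneg h hmp.le
    linarith only [hκ, hκτ, this]
  have hδ1 : δ ≤ c₁ / 2 := hδc.trans (min_le_left _ _)
  have hδ2 : C₀ * δ ≤ 1 / 2 := by
    have h1 : δ ≤ 1 / (2 * C₀) := hδc.trans (min_le_right _ _)
    calc C₀ * δ ≤ C₀ * (1 / (2 * C₀)) := mul_le_mul_of_nonneg_left h1 (by linarith only [hC₁, h4c])
      _ = 1 / 2 := by field_simp
  have hδ3 : 4 * δ ≤ 1 / 2 := by
    have : 4 * δ ≤ C₀ * δ := mul_le_mul_of_nonneg_right (by linarith only [hC₁, h4c]) hδ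
    linarith only [hδ2, this]
  -- the row sums
  have hR : ∀ a, κ * ∑ b, ‖G a b‖ ^ 2 = (G a a).im := by
    intro a
    have h1 := hw a a
    have h2 : ∑ c, G a c * (starRingEnd ℂ) (G a c) = ((∑ c, ‖G a c‖ ^ 2 : ℝ) : ℂ) := by
      push_cast
      refine Finset.sum_congr rfl fun c _ => ?_
      rw [Complex.mul_conj, Complex.normSq_eq_norm_sq]
      push_cast
      rfl
    rw [h2] at h1
    exact_mod_cast h1
  have hR' : ∀ a, (τ * ∑ b, ‖G a b‖ ^ 2) * m.im = (G a a).im := by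
    intro a
    rw [← hR a, hκτ]
    ring
  have hR0 : ∀ a, 0 ≤ τ * ∑ b, ‖G a b‖ ^ 2 := fun a =>
    mul_nonneg hτ.le (Finset.sum_nonneg fun _ _ => by positivity)
  -- `μ`
  have hμ1 : ∀ a, ‖G a a - m‖ ≤ δ * (1 + τ * ∑ b, ‖G a b‖ ^ 2) := by
    intro a
    rw [hμ a]
    have h1 : ‖(BB G *ᵥ φ) a‖ ≤ (∑ b, ‖G a b‖ ^ 2) * δ := by
      change ‖∑ b, G a b ^ 2 * φ b‖ ≤ _
      rw [Finset.sum_mul]
      refine (norm_sum_le _ _).trans (Finset.sum_le_sum fun b _ => ?_)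
      rw [norm_mul, norm_pow]
      exact mul_le_mul_of_nonneg_left (hφ b) (by positivity)
    calc ‖φ a - τ * (BB G *ᵥ φ) a‖ ≤ ‖φ a‖ + ‖(τ : ℂ) * (BB G *ᵥ φ) a‖ := norm_sub_le _ _
      _ ≤ δ + τ * ((∑ b, ‖G a b‖ ^ 2) * δ) := by
        refine add_le_add (hφ a) ?_
        rw [norm_mul, Complex.norm_real, Real.norm_of_nonneg hτ.le]
        exact mul_le_mul_of_nonneg_left h1 hτ.le
      _ = δ * (1 + τ * ∑ b, ‖G a b‖ ^ 2) := by ring
  have him : ∀ a, |(G a a).im - m.im| ≤ ‖G a a - m‖ := by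
    intro a
    have h1 := Complex.abs_im_le_norm (G a a - m)
    rwa [Complex.sub_im] at h1
  have hμ4 : ∀ a, ‖G a a - m‖ ≤ 4 * δ := by
    intro a
    set x := ‖G a a - m‖ with hx
    set r := τ * ∑ b, ‖G a b‖ ^ 2 with hr
    have hx0 : 0 ≤ x := norm_nonneg _
    have h1 : x ≤ δ * (1 + r) := hμ1 a
    have h2 : r * m.im = (G a a).im := hR' a
    have h3 := (abs_le.1 (him a)).2
    -- `r ≤ 1 + x / c₁`
    have h4 : c₁ * (r - 1) ≤ x := by
      by_cases hr1 : 1 ≤ r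
      · calc c₁ * (r - 1) ≤ m.im * (r - 1) := mul_le_mul_of_nonneg_right hm1 (by linarith only [hr1])
          _ = (G a a).im - m.im := by rw [← h2]; ring
          _ ≤ x := h3
      · push Not at hr1
        have : c₁ * (r - 1) ≤ 0 := mul_nonpos_of_nonneg_of_nonpos hc₁.le (by linarith only [hr1])
        linarith only [hx0, this]
    have h5 : δ * (r - 1) ≤ x / 2 := by
      by_cases hr1 : 1 ≤ r
      · calc δ * (r - 1) ≤ (c₁ / 2) * (r - 1) :=
              mul_le_mul_of_nonneg_right hδ1 (by linarith only [hr1])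
          _ = (c₁ * (r - 1)) / 2 := by ring
          _ ≤ x / 2 := by linarith only [h4]
      · push Not at hr1
        have : δ * (r - 1) ≤ 0 := mul_nonpos_of_nonneg_of_nonpos hδ (by linarith only [hr1])
        linarith only [hx0, this]
    have h6 : δ * (1 + r) = 2 * δ + δ * (r - 1) := by ring
    linarith only [h1, h5]
  have hk : ∀ a, |τ * ∑ b, ‖G a b‖ ^ 2 - 1| ≤ 4 * δ / c₁ := by
    intro a
    have h1 : |τ * ∑ b, ‖G a b‖ ^ 2 - 1| * m.im = |(G a a).im - m.im| := by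
      rw [← hR' a, ← abs_of_pos hmp, ← abs_mul, abs_of_pos hmp]
      congr 1
      ring
    rw [le_div_iff₀ hc₁]
    calc |τ * ∑ b, ‖G a b‖ ^ 2 - 1| * c₁ ≤ |τ * ∑ b, ‖G a b‖ ^ 2 - 1| * m.im :=
          mul_le_mul_of_nonneg_left hm1 (abs_nonneg _)
      _ = |(G a a).im - m.im| := h1
      _ ≤ ‖G a a - m‖ := him a
      _ ≤ 4 * δ := hμ4 a
  have hr3 : ∀ a, τ * ∑ b, ‖G a b‖ ^ 2 ≤ 3 := by
    intro a
    have h1 := (abs_le.1 (hk a)).2
    have h2 : 4 * δ / c₁ ≤ 2 := by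
      rw [div_le_iff₀ hc₁]
      linarith only [hδ1]
    linarith only [h1, h2]
  -- `G - G₀`
  have hGD : ∀ a b, ‖(τ : ℂ) * GD G φ a b‖ ≤ 3 * δ := by
    intro a b
    have h1 : GD G φ a b = ∑ c, G a c * φ c * G c b := by
      unfold GD
      rw [Matrix.mul_apply]
      refine Finset.sum_congr rfl fun c _ => ?_
      rw [Matrix.mul_diagonal]
    have h2 : ‖GD G φ a b‖ ≤ ∑ c, ((‖G a c‖ ^ 2 + ‖G b c‖ ^ 2) / 2) * δ := by
      rw [h1]
      refine (norm_sum_le _ _).trans (Finset.sum_le_sum fun c _ => ?_)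
      rw [norm_mul, norm_mul, hs c b]
      have h3 : ‖G a c‖ * ‖G b c‖ ≤ (‖G a c‖ ^ 2 + ‖G b c‖ ^ 2) / 2 := by
        nlinarith only [sq_nonneg (‖G a c‖ - ‖G b c‖)]
      calc ‖G a c‖ * ‖φ c‖ * ‖G b c‖ = (‖G a c‖ * ‖G b c‖) * ‖φ c‖ := by ring
        _ ≤ ((‖G a c‖ ^ 2 + ‖G b c‖ ^ 2) / 2) * δ :=
          mul_le_mul h3 (hφ c) (norm_nonneg _) (by positivity)
    rw [norm_mul, Complex.norm_real, Real.norm_of_nonneg hτ.le]
    calc τ * ‖GD G φ a b‖ ≤ τ * ∑ c, ((‖G a c‖ ^ 2 + ‖G b c‖ ^ 2) / 2) * δ :=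
          mul_le_mul_of_nonneg_left h2 hτ.le
      _ = ((τ * ∑ c, ‖G a c‖ ^ 2 + τ * ∑ c, ‖G b c‖ ^ 2) / 2) * δ := by
        rw [← Finset.sum_mul, ← Finset.sum_div, Finset.sum_add_distrib]
        ring
      _ ≤ 3 * δ := by
        apply mul_le_mul_of_nonneg_right _ hδ
        linarith only [hr3 a, hr3 b]
  have hd : ∀ a b, ‖G a b - G₀ a b‖ ≤ 4 * δ := by
    intro a b
    have h1 : G a b - G₀ a b = (G a b + τ * GD G φ a b - G₀ a b) - τ * GD G φ a b := by ring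
    rw [h1]
    refine (norm_sub_le _ _).trans ?_
    linarith only [hXh a b, hGD a b]
  have hn : ∀ a b, ‖G a b‖ ≤ ‖G₀ a b‖ + 4 * δ := by
    intro a b
    have h1 : G a b = G₀ a b + (G a b - G₀ a b) := by ring
    calc ‖G a b‖ = ‖G₀ a b + (G a b - G₀ a b)‖ := by rw [← h1]
      _ ≤ ‖G₀ a b‖ + ‖G a b - G₀ a b‖ := norm_add_le _ _
      _ ≤ ‖G₀ a b‖ + 4 * δ := by linarith only [hd a b]
  refine ⟨⟨hκ, hκ1, hτ, ?_, ?_⟩, ⟨hδ, hδ2, hN⟩, hs, hw, ?_, ?_, ?_, ?_, hN'⟩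
  · rw [hκτ, mul_comm]
    exact mul_le_mul_of_nonneg_right (by linarith only [h4c, hm2]) hτ.le
  · have h1 : τ = (1 / m.im) * κ := by
      rw [hκτ]
      field_simp
    have h2 : 1 / m.im ≤ C₀ := by
      have h3 : 1 / m.im ≤ 1 / c₁ := one_div_le_one_div_of_le hc₁ hm1
      have h4 : 1 / c₁ ≤ 4 / c₁ := by
        rw [div_le_div_iff_of_pos_right hc₁]
        norm_num
      linarith only [hC₁, h3, h4]
    calc τ = (1 / m.im) * κ := h1
      _ ≤ C₀ * κ := mul_le_mul_of_nonneg_right h2 hκ.le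
  · intro a
    refine (hk a).trans ?_
    calc 4 * δ / c₁ = (4 / c₁) * δ := by ring
      _ ≤ C₀ * δ := mul_le_mul_of_nonneg_right (by linarith only [hC₁]) hδ
  · intro a
    exact (hμ4 a).trans (mul_le_mul_of_nonneg_right (by linarith only [hC₁, h4c]) hδ)
  · intro a b
    have h1 := hn a b
    have h2 := hG₀ a b
    linarith only [h4c, hδ3, h1, h2]
  · intro a b
    refine ⟨by rw [h𝒩 a b, h𝒩 b a, hs₀ a b], fun h => ?_⟩
    rw [h𝒩 a b, not_lt] at h
    have h1 := hn a b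
    have h2 : 5 * δ ≤ C₀ * δ := mul_le_mul_of_nonneg_right (by linarith only [hC₁, h4c]) hδ
    linarith only [h, h1, h2]

end Pool.Agent.LE.QF.H2
end
end -- Pool.Agent.Helper2_LQF.GDC

section -- Pool.Agent.Helper62_LQF.WFB

/-!
# Row WFB of squad LQF (MP_1906c1_mp)
-/

set_option autoImplicit false
set_option linter.unusedSectionVars false

open scoped BigOperators Matrix

noncomputable section

namespace Pool.Agent.LE.QF.H62

open Pool.Agent.LE.QD

variable {X : Type} [Fintype X] [DecidableEq X]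

/-! ### quadratic forms -/

theorem dl_mulVec (K : Matrix X X ℝ) (f : X → ℝ) (a : X) :
    (Dl K *ᵥ f) a = ∑ b, K a b * (f a - f b) := by
  unfold Dl
  rw [Matrix.sub_mulVec, Pi.sub_apply, Matrix.mulVec_diagonal]
  simp only [Matrix.mulVec, dotProduct, mul_sub, Finset.sum_sub_distrib, Finset.sum_mul]

theorem qf_dl (K : Matrix X X ℝ) (hK : ∀ a b, K a b = K b a) (f : X → ℝ) :
    2 * qf (Dl K) f = ∑ a, ∑ b, K a b * (f a - f b) ^ 2 := by
  have h1 : qf (Dl K) f = ∑ a, ∑ b, K a b * (f a * (f a - f b)) := by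
    unfold qf
    refine Finset.sum_congr rfl fun a _ => ?_
    rw [dl_mulVec, Finset.mul_sum]
    refine Finset.sum_congr rfl fun b _ => ?_
    ring
  have h2 : qf (Dl K) f = ∑ a, ∑ b, K a b * (f b * (f b - f a)) := by
    rw [h1, Finset.sum_comm]
    refine Finset.sum_congr rfl fun a _ => Finset.sum_congr rfl fun b _ => ?_
    rw [hK a b]
  have h3 : 2 * qf (Dl K) f = (∑ a, ∑ b, K a b * (f a * (f a - f b))) +
      ∑ a, ∑ b, K a b * (f b * (f b - f a)) := by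
    rw [← h1, ← h2]; ring
  rw [h3, ← Finset.sum_add_distrib]
  refine Finset.sum_congr rfl fun a _ => ?_
  rw [← Finset.sum_add_distrib]
  refine Finset.sum_congr rfl fun b _ => ?_
  ring

theorem qf_add (A B : Matrix X X ℝ) (f : X → ℝ) : qf (A + B) f = qf A f + qf B f := by
  unfold qf
  rw [← Finset.sum_add_distrib]
  refine Finset.sum_congr rfl fun a _ => ?_
  rw [Matrix.add_mulVec, Pi.add_apply]; ring

theorem qf_sub (A B : Matrix X X ℝ) (f : X → ℝ) : qf (A - B) f = qf A f - qf B f := by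
  unfold qf
  rw [← Finset.sum_sub_distrib]
  refine Finset.sum_congr rfl fun a _ => ?_
  rw [Matrix.sub_mulVec, Pi.sub_apply]; ring

theorem qf_smul (t : ℝ) (A : Matrix X X ℝ) (f : X → ℝ) : qf (t • A) f = t * qf A f := by
  unfold qf
  rw [Finset.mul_sum]
  refine Finset.sum_congr rfl fun a _ => ?_
  rw [Matrix.smul_mulVec, Pi.smul_apply, smul_eq_mul]; ring

theorem dl_add (A B : Matrix X X ℝ) : Dl (A + B) = Dl A + Dl B := by
  unfold Dl
  ext a b
  simp only [Matrix.sub_apply, Matrix.add_apply, Finset.sum_add_distrib, Matrix.diagonal_apply]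
  split_ifs <;> ring

/-- The variance identity. -/
theorem variance (p g : X → ℝ) :
    ∑ a, ∑ b, p a * p b * (g a - g b) ^ 2 =
      2 * ((∑ a, p a) * ∑ a, p a * g a ^ 2) - 2 * (∑ a, p a * g a) ^ 2 := by
  have h1 : ∑ a, ∑ b, p a * p b * (g a - g b) ^ 2 =
      (∑ a, ∑ b, (p a * g a ^ 2) * p b) + (∑ a, ∑ b, p a * (p b * g b ^ 2)) -
        2 * ∑ a, ∑ b, (p a * g a) * (p b * g b) := by
    rw [Finset.mul_sum, ← Finset.sum_add_distrib, ← Finset.sum_sub_distrib]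
    refine Finset.sum_congr rfl fun a _ => ?_
    rw [Finset.mul_sum, ← Finset.sum_add_distrib, ← Finset.sum_sub_distrib]
    refine Finset.sum_congr rfl fun b _ => ?_
    ring
  rw [h1, ← Finset.sum_mul_sum, ← Finset.sum_mul_sum, ← Finset.sum_mul_sum]
  ring

theorem qf_dl_sq (K : Matrix X X ℝ) (hK : ∀ a b, K a b = K b a) (f : X → ℝ) :
    qf (Dl (K * K)) f = (∑ c, (∑ b, K c b) * ∑ a, K c a * (f c - f a) ^ 2) -
      ∑ c, (Dl K *ᵥ f) c ^ 2 := by
  have hs : ∀ a b, (K * K) a b = (K * K) b a := by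
    intro a b
    rw [Matrix.mul_apply, Matrix.mul_apply]
    refine Finset.sum_congr rfl fun c _ => ?_
    rw [hK a c, hK c b]; ring
  have h1 : 2 * qf (Dl (K * K)) f =
      ∑ c, ∑ a, ∑ b, K c a * K c b * ((f a - f c) - (f b - f c)) ^ 2 := by
    rw [qf_dl _ hs]
    have e1 : ∀ a b, (K * K) a b * (f a - f b) ^ 2 =
        ∑ c, K c a * K c b * ((f a - f c) - (f b - f c)) ^ 2 := by
      intro a b
      rw [Matrix.mul_apply, Finset.sum_mul]
      refine Finset.sum_congr rfl fun c _ => ?_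
      rw [hK a c]; ring
    simp only [e1]
    rw [Finset.sum_congr rfl fun a _ => Finset.sum_comm, Finset.sum_comm]
  have h2 : ∀ c, ∑ a, ∑ b, K c a * K c b * ((f a - f c) - (f b - f c)) ^ 2 =
      2 * ((∑ b, K c b) * ∑ a, K c a * (f c - f a) ^ 2) - 2 * (Dl K *ᵥ f) c ^ 2 := by
    intro c
    rw [variance (fun a => K c a) (fun a => f a - f c), dl_mulVec]
    have e2 : ∑ a, K c a * (f a - f c) = -∑ b, K c b * (f c - f b) := by
      rw [← Finset.sum_neg_distrib]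
      refine Finset.sum_congr rfl fun b _ => ?_
      ring
    have e3 : ∑ a, K c a * (f a - f c) ^ 2 = ∑ a, K c a * (f c - f a) ^ 2 := by
      refine Finset.sum_congr rfl fun b _ => ?_
      ring
    rw [e2, e3]; ring
  simp only [h2, Finset.sum_sub_distrib, ← Finset.mul_sum] at h1
  linarith

/-- Cauchy-Schwarz for a nonnegative form. -/
theorem cs_qf (S : Matrix X X ℝ) (hS : ∀ a b, S a b = S b a) (h0 : ∀ h, 0 ≤ qf S h)
    (x : X → ℝ) (a : X) : (S *ᵥ x) a ^ 2 ≤ S a a * qf S x := by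
  have h1 : ∀ t : ℝ, 0 ≤ S a a * (t * t) + (2 * (S *ᵥ x) a) * t + qf S x := by
    intro t
    obtain ⟨e, he⟩ : ∃ e : X → ℝ, e = Pi.single a 1 := ⟨_, rfl⟩
    have h2 := h0 (x + t • e)
    have h3 : qf S (x + t • e) = S a a * (t * t) + (2 * (S *ᵥ x) a) * t + qf S x := by
      have e1 : ∀ b, (S *ᵥ (x + t • e)) b = (S *ᵥ x) b + t * S b a := by
        intro b
        rw [Matrix.mulVec_add, Matrix.mulVec_smul, Pi.add_apply, Pi.smul_apply, he,
          Matrix.mulVec_single_one]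
        rfl
      have e2 : ∀ b, (x + t • e) b * ((S *ᵥ x) b + t * S b a) =
          x b * (S *ᵥ x) b + t * (x b * S b a) + t * (e b * ((S *ᵥ x) b + t * S b a)) := by
        intro b
        rw [Pi.add_apply, Pi.smul_apply, smul_eq_mul]; ring
      have e3 : ∑ b, x b * S b a = (S *ᵥ x) a := by
        simp only [Matrix.mulVec, dotProduct]
        refine Finset.sum_congr rfl fun b _ => ?_
        rw [hS b a]; ring
      have e4 : ∑ b, e b * ((S *ᵥ x) b + t * S b a) = (S *ᵥ x) a + t * S a a := by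
        rw [Finset.sum_eq_single a]
        · rw [he, Pi.single_eq_same]; ring
        · intro b _ hb
          rw [he, Pi.single_eq_of_ne hb]; ring
        · intro h; exact absurd (Finset.mem_univ a) h
      unfold qf
      simp only [e1, e2, Finset.sum_add_distrib, ← Finset.mul_sum]
      rw [e3, e4]; ring
    rw [h3] at h2
    exact h2
  have h4 := discrim_le_zero h1
  rw [discrim] at h4
  nlinarith only [h4]

/-! ### the commutator -/

/-- `[f, G]` -/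
def Fm (G : Matrix X X ℂ) (f : X → ℝ) (a b : X) : ℂ := ((f a - f b : ℝ) : ℂ) * G a b

/-- `β` -/
def be (G : Matrix X X ℂ) (f : X → ℝ) (a c : X) : ℂ :=
  ∑ b, (starRingEnd ℂ) (Fm G f a b) * G b c

theorem norm_Fm (G : Matrix X X ℂ) (f : X → ℝ) (a b : X) :
    ‖Fm G f a b‖ ^ 2 = KK G a b * (f a - f b) ^ 2 := by
  unfold Fm KK
  rw [norm_mul, mul_pow, Complex.norm_real, Real.norm_eq_abs, sq_abs]; ring

theorem dK_mulVec (G : Matrix X X ℂ) (hs : ∀ a b, G a b = G b a) (f : X → ℝ) (a c : X) :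
    (Dl (dK G c) *ᵥ f) a = -(2 * (G a c * be G f a c).re) := by
  rw [dl_mulVec]
  unfold dK be
  have h1 : ∀ b, -(2 * ((starRingEnd ℂ) (G a b) * G a c * G c b).re) * (f a - f b) =
      -(2 * (G a c * ((starRingEnd ℂ) (Fm G f a b) * G b c)).re) := by
    intro b
    have e : G a c * ((starRingEnd ℂ) (Fm G f a b) * G b c) =
        ((f a - f b : ℝ) : ℂ) * ((starRingEnd ℂ) (G a b) * G a c * G c b) := by
      unfold Fm
      rw [map_mul, Complex.conj_ofReal, hs b c]; ring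
    rw [e, Complex.re_ofReal_mul]; ring
  simp only [h1]
  rw [Finset.mul_sum, Complex.re_sum, Finset.mul_sum, Finset.sum_neg_distrib]

section Bounds

variable {G : Matrix X X ℂ} {κ τ : ℝ}

theorem be_row (hs : ∀ a b, G a b = G b a)
    (hop : ∀ v : X → ℂ, n2 (G *ᵥ v) ≤ n2 v / κ ^ 2) (f : X → ℝ) (a : X) :
    ∑ c, ‖be G f a c‖ ^ 2 ≤ (∑ b, ‖Fm G f a b‖ ^ 2) / κ ^ 2 := by
  have h1 := hop (fun b => (starRingEnd ℂ) (Fm G f a b))
  have h2 : ∀ c, (G *ᵥ (fun b => (starRingEnd ℂ) (Fm G f a b))) c = be G f a c := by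
    intro c
    unfold be
    simp only [Matrix.mulVec, dotProduct]
    refine Finset.sum_congr rfl fun b _ => ?_
    rw [hs c b]; ring
  unfold n2 at h1
  simp only [h2, RCLike.norm_conj] at h1
  exact h1

theorem be_pt (f : X → ℝ) (a c : X) :
    ‖be G f a c‖ ^ 2 ≤ (∑ b, ‖Fm G f a b‖ ^ 2) * ∑ b, ‖G b c‖ ^ 2 := by
  have h1 : ‖be G f a c‖ ≤ ∑ b, ‖Fm G f a b‖ * ‖G b c‖ := by
    unfold be
    refine (norm_sum_le _ _).trans (le_of_eq ?_)
    refine Finset.sum_congr rfl fun b _ => ?_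
    rw [norm_mul, RCLike.norm_conj]
  calc ‖be G f a c‖ ^ 2 ≤ (∑ b, ‖Fm G f a b‖ * ‖G b c‖) ^ 2 :=
        pow_le_pow_left₀ (norm_nonneg _) h1 2
    _ ≤ _ := Finset.sum_mul_sq_le_sq_mul_sq _ _ _

/-- `∑ |v| |G μ v| ≤ (s / κ) |v|²` -/
theorem mu_row (hκ : 0 < κ) (hop : ∀ v : X → ℂ, n2 (G *ᵥ v) ≤ n2 v / κ ^ 2) (μ v : X → ℂ) (s : ℝ)
    (hs0 : 0 ≤ s) (hμ : ∀ a, ‖μ a‖ ≤ s) :
    ∑ b, ‖v b‖ * ‖(G *ᵥ (fun c => μ c * v c)) b‖ ≤ s / κ * ∑ b, ‖v b‖ ^ 2 := by
  have h1 := hop (fun c => μ c * v c)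
  unfold n2 at h1
  have h2 : ∑ c, ‖μ c * v c‖ ^ 2 ≤ s ^ 2 * ∑ b, ‖v b‖ ^ 2 := by
    rw [Finset.mul_sum]
    refine Finset.sum_le_sum fun c _ => ?_
    rw [norm_mul, mul_pow]
    exact mul_le_mul_of_nonneg_right (pow_le_pow_left₀ (norm_nonneg _) (hμ c) 2) (sq_nonneg _)
  have hn : 0 ≤ ∑ b, ‖v b‖ ^ 2 := Finset.sum_nonneg fun b _ => sq_nonneg _
  have h3 : ∑ b, ‖(G *ᵥ (fun c => μ c * v c)) b‖ ^ 2 ≤ (s / κ) ^ 2 * ∑ b, ‖v b‖ ^ 2 := by
    refine h1.trans ?_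
    rw [div_pow, div_mul_eq_mul_div]
    exact div_le_div_of_nonneg_right h2 (by positivity)
  have h4 : (∑ b, ‖v b‖ * ‖(G *ᵥ (fun c => μ c * v c)) b‖) ^ 2 ≤
      (s / κ * ∑ b, ‖v b‖ ^ 2) ^ 2 := by
    calc (∑ b, ‖v b‖ * ‖(G *ᵥ (fun c => μ c * v c)) b‖) ^ 2
        ≤ (∑ b, ‖v b‖ ^ 2) * ∑ b, ‖(G *ᵥ (fun c => μ c * v c)) b‖ ^ 2 :=
          Finset.sum_mul_sq_le_sq_mul_sq _ _ _
      _ ≤ (∑ b, ‖v b‖ ^ 2) * ((s / κ) ^ 2 * ∑ b, ‖v b‖ ^ 2) :=
          mul_le_mul_of_nonneg_left h3 hn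
      _ = (s / κ * ∑ b, ‖v b‖ ^ 2) ^ 2 := by ring
  exact le_of_sq_le_sq h4 (mul_nonneg (div_nonneg hs0 hκ.le) hn)

theorem EK_symm (hs : ∀ a b, G a b = G b a) (μ : X → ℂ) (a b : X) : EK G μ a b = EK G μ b a := by
  have h1 : ∀ a b, GD G μ a b = ∑ c, G a c * μ c * G c b := by
    intro a b
    unfold GD
    rw [Matrix.mul_apply]
    refine Finset.sum_congr rfl fun c _ => ?_
    rw [Matrix.mul_diagonal]
  have h2 : GD G μ a b = GD G μ b a := by
    rw [h1, h1]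
    refine Finset.sum_congr rfl fun c _ => ?_
    rw [hs a c, hs c b]; ring
  unfold EK
  rw [h2, hs a b]

theorem EK_bound (hκ : 0 < κ) (hs : ∀ a b, G a b = G b a)
    (hop : ∀ v : X → ℂ, n2 (G *ᵥ v) ≤ n2 v / κ ^ 2) (μ : X → ℂ) (s : ℝ) (hs0 : 0 ≤ s)
    (hμ : ∀ a, ‖μ a‖ ≤ s) (f : X → ℝ) :
    -(2 * (s / κ) * ∑ a, ∑ b, ‖Fm G f a b‖ ^ 2) ≤ qf (Dl (EK G μ)) f := by
  have h1 : ∀ a b, GD G μ a b = ∑ c, G a c * μ c * G c b := by
    intro a b
    unfold GD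
    rw [Matrix.mul_apply]
    refine Finset.sum_congr rfl fun c _ => ?_
    rw [Matrix.mul_diagonal]
  set P : X → X → ℂ := fun a b => (G *ᵥ (fun c => μ c * Fm G f a c)) b with hP
  set R : X → X → ℂ := fun a b => (G *ᵥ (fun c => μ c * Fm G f c b)) a with hR
  have h2 : ∀ a b, ((f a - f b : ℝ) : ℂ) * GD G μ a b = P a b + R a b := by
    intro a b
    rw [h1, hP, hR]
    simp only [Matrix.mulVec, dotProduct]
    rw [Finset.mul_sum, ← Finset.sum_add_distrib]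
    refine Finset.sum_congr rfl fun c _ => ?_
    unfold Fm
    rw [hs b c]
    push_cast
    ring
  have h3 : ∀ a b, EK G μ a b * (f a - f b) ^ 2 =
      2 * ((starRingEnd ℂ) (Fm G f a b) * (P a b + R a b)).re := by
    intro a b
    rw [← h2]
    have e : (starRingEnd ℂ) (Fm G f a b) * (((f a - f b : ℝ) : ℂ) * GD G μ a b) =
        (((f a - f b) ^ 2 : ℝ) : ℂ) * ((starRingEnd ℂ) (G a b) * GD G μ a b) := by
      unfold Fm
      rw [map_mul, Complex.conj_ofReal]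
      push_cast
      ring
    rw [e, Complex.re_ofReal_mul]
    unfold EK
    ring
  have h4 := qf_dl (EK G μ) (EK_symm hs μ) f
  simp only [h3] at h4
  have h5 : qf (Dl (EK G μ)) f =
      ∑ a, ∑ b, ((starRingEnd ℂ) (Fm G f a b) * (P a b + R a b)).re := by
    simp only [← Finset.mul_sum] at h4
    linarith only [h4]
  have h6 : ∀ a b, -(‖Fm G f a b‖ * ‖P a b‖) - ‖Fm G f a b‖ * ‖R a b‖ ≤
      ((starRingEnd ℂ) (Fm G f a b) * (P a b + R a b)).re := by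
    intro a b
    have e1 := (abs_le.1 (Complex.abs_re_le_norm
      ((starRingEnd ℂ) (Fm G f a b) * (P a b + R a b)))).1
    have e2 : ‖(starRingEnd ℂ) (Fm G f a b) * (P a b + R a b)‖ ≤
        ‖Fm G f a b‖ * ‖P a b‖ + ‖Fm G f a b‖ * ‖R a b‖ := by
      rw [norm_mul, RCLike.norm_conj, ← mul_add]
      exact mul_le_mul_of_nonneg_left (norm_add_le _ _) (norm_nonneg _)
    linarith only [e1, e2]
  have h7 : ∑ a, ∑ b, ‖Fm G f a b‖ * ‖P a b‖ ≤ s / κ * ∑ a, ∑ b, ‖Fm G f a b‖ ^ 2 := by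
    rw [Finset.mul_sum]
    exact Finset.sum_le_sum fun a _ => mu_row hκ hop μ (fun c => Fm G f a c) s hs0 hμ
  have h8 : ∑ a, ∑ b, ‖Fm G f a b‖ * ‖R a b‖ ≤ s / κ * ∑ a, ∑ b, ‖Fm G f a b‖ ^ 2 := by
    rw [Finset.sum_comm, Finset.sum_comm (f := fun a b => ‖Fm G f a b‖ ^ 2), Finset.mul_sum]
    exact Finset.sum_le_sum fun b _ => mu_row hκ hop μ (fun c => Fm G f c b) s hs0 hμ
  rw [h5]
  calc -(2 * (s / κ) * ∑ a, ∑ b, ‖Fm G f a b‖ ^ 2)
      ≤ -(∑ a, ∑ b, ‖Fm G f a b‖ * ‖P a b‖) - ∑ a, ∑ b, ‖Fm G f a b‖ * ‖R a b‖ := by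
        linarith only [h7, h8]
    _ = ∑ a, ∑ b, (-(‖Fm G f a b‖ * ‖P a b‖) - ‖Fm G f a b‖ * ‖R a b‖) := by
        simp only [Finset.sum_sub_distrib, Finset.sum_neg_distrib]
    _ ≤ _ := Finset.sum_le_sum fun a _ => Finset.sum_le_sum fun b _ => h6 a b

end Bounds

theorem wfb (nrb : NrbStmt) : WfbStmt := by
  intro C₀ hC₀
  refine ⟨16 * C₀ ^ 3, ?_, ?_⟩
  · nlinarith only [pow_le_pow_left₀ (by norm_num : (0 : ℝ) ≤ 1) hC₀ 3]
  intro X _ _ G μ 𝒩 κ τ δ N hG f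
  obtain ⟨C₁, _, hn⟩ := nrb C₀ hC₀
  have hop : ∀ v : X → ℂ, n2 (G *ᵥ v) ≤ n2 v / κ ^ 2 := fun v =>
    ((hn X G μ 𝒩 κ τ δ N hG).1 v).1
  obtain ⟨hκ, hκ1, hτ, hκτ, hτκ⟩ := hG.hκ
  obtain ⟨hδ, hδ2, hN⟩ := hG.hδ
  have hs := hG.hs
  have hC0 : 0 < C₀ := by linarith only [hC₀]
  have hKs : ∀ a b, KK G a b = KK G b a := by
    intro a b
    unfold KK
    rw [hs a b]
  have hK0 : ∀ a b, 0 ≤ KK G a b := fun a b => sq_nonneg _
  set D : ℝ := ∑ a, ∑ b, ‖Fm G f a b‖ ^ 2 with hD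
  set Q : ℝ := qf (Dl (KK G)) f with hQ
  have hD0 : 0 ≤ D := Finset.sum_nonneg fun a _ => Finset.sum_nonneg fun b _ => sq_nonneg _
  have hDQ : D = 2 * Q := by
    rw [hQ, qf_dl _ hKs, hD]
    exact Finset.sum_congr rfl fun a _ => Finset.sum_congr rfl fun b _ => norm_Fm G f a b
  have hQ0 : 0 ≤ Q := by linarith only [hD0, hDQ]
  -- row sums
  have hk1 : ∀ a, (1 - C₀ * δ) / τ ≤ ∑ b, KK G a b := by
    intro a
    rw [div_le_iff₀ hτ]
    have := (abs_le.1 (hG.hk a)).1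
    unfold KK
    linarith only [this]
  have hk2 : ∀ a, ∑ b, KK G a b ≤ 2 / τ := by
    intro a
    rw [le_div_iff₀ hτ]
    have := (abs_le.1 (hG.hk a)).2
    unfold KK
    linarith
  have hqt : qf (τ • Dl (KK G)) f = τ * Q := qf_smul _ _ _
  have hmv : ∀ (A : Matrix X X ℝ) (a : X), ((τ • A) *ᵥ f) a = τ * (A *ᵥ f) a := by
    intro A a
    rw [Matrix.smul_mulVec, Pi.smul_apply, smul_eq_mul]
  have hC1 : C₀ ^ 2 ≤ C₀ ^ 3 := pow_le_pow_right₀ hC₀ (by norm_num)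
  have hC2 : C₀ ≤ C₀ ^ 3 := le_self_pow₀ hC₀ (by norm_num)
  have hbr : ∀ a, ∑ c, ‖be G f a c‖ ^ 2 ≤ (∑ b, ‖Fm G f a b‖ ^ 2) / κ ^ 2 := be_row hs hop f
  have hx : ∀ a c, ((τ • Dl (dK G c)) *ᵥ f) a = -(2 * τ * (G a c * be G f a c).re) := by
    intro a c
    rw [hmv, dK_mulVec G hs]
    ring
  refine ⟨?_, ?_, ?_⟩
  · -- part (a)
    set T : ℝ := ∑ c, (Dl (KK G) *ᵥ f) c ^ 2 with hT
    have e1 : ∑ a, ((τ • Dl (KK G)) *ᵥ f) a ^ 2 = τ ^ 2 * T := by
      rw [hT, Finset.mul_sum]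
      refine Finset.sum_congr rfl fun a _ => ?_
      rw [hmv]; ring
    have e2 : qf (τ • Dl (KK G * KK G + EK G μ) - Dl (KK G)) f =
        τ * (qf (Dl (KK G * KK G)) f + qf (Dl (EK G μ)) f) - Q := by
      rw [qf_sub, qf_smul, dl_add, qf_add]
    have e3 : (1 - C₀ * δ) / τ * D - T ≤ qf (Dl (KK G * KK G)) f := by
      rw [qf_dl_sq _ hKs, hD, Finset.mul_sum]
      refine sub_le_sub_right (Finset.sum_le_sum fun c _ => ?_) _
      have e : ∑ b, ‖Fm G f c b‖ ^ 2 = ∑ a, KK G c a * (f c - f a) ^ 2 :=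
        Finset.sum_congr rfl fun b _ => norm_Fm G f c b
      rw [e]
      exact mul_le_mul_of_nonneg_right (hk1 c)
        (Finset.sum_nonneg fun b _ => mul_nonneg (hK0 _ _) (sq_nonneg _))
    have e4 : -(2 * (C₀ * δ / κ) * D) ≤ qf (Dl (EK G μ)) f :=
      EK_bound hκ hs hop μ (C₀ * δ) (mul_nonneg hC0.le hδ) hG.hμ f
    have e5 : τ * ((1 - C₀ * δ) / τ * D - T - 2 * (C₀ * δ / κ) * D) ≤
        τ * (qf (Dl (KK G * KK G)) f + qf (Dl (EK G μ)) f) :=
      mul_le_mul_of_nonneg_left (by linarith only [e3, e4]) hτ.le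
    have e6 : τ * ((1 - C₀ * δ) / τ * D - T - 2 * (C₀ * δ / κ) * D) =
        (1 - C₀ * δ) * D - τ * T - 2 * C₀ * δ * (τ / κ) * D := by
      field_simp
    have e7 : τ / κ ≤ C₀ := by rw [div_le_iff₀ hκ]; exact hτκ
    have e8 : 2 * C₀ * δ * (τ / κ) * D ≤ 2 * C₀ * δ * C₀ * D := by
      refine mul_le_mul_of_nonneg_right (mul_le_mul_of_nonneg_left e7 ?_) hD0
      positivity
    have e9 : ((1 - 16 * C₀ ^ 3 * δ) * (τ * Q) - τ ^ 2 * T) / τ =
        (1 - 16 * C₀ ^ 3 * δ) * Q - τ * T := by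
      field_simp
    rw [e1, e2, hqt, e9]
    have e10 : C₀ * (δ * Q) ≤ C₀ ^ 3 * (δ * Q) :=
      mul_le_mul_of_nonneg_right hC2 (mul_nonneg hδ hQ0)
    have e11 : C₀ ^ 2 * (δ * Q) ≤ C₀ ^ 3 * (δ * Q) :=
      mul_le_mul_of_nonneg_right hC1 (mul_nonneg hδ hQ0)
    have e12 : 0 ≤ C₀ ^ 3 * (δ * Q) := by positivity
    rw [hDQ] at e5 e6 e8
    nlinarith only [e5, e6, e8, e10, e11, e12]
  · -- part (b)
    have e1 : ∀ c a, ((τ • Dl (dK G c)) *ᵥ f) a ^ 2 ≤
        4 * τ ^ 2 * (‖G a c‖ ^ 2 * ‖be G f a c‖ ^ 2) := by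
      intro c a
      rw [hx]
      have h1 : (G a c * be G f a c).re ^ 2 ≤ ‖G a c‖ ^ 2 * ‖be G f a c‖ ^ 2 := by
        rw [← mul_pow, ← norm_mul]
        exact sq_le_sq' (abs_le.1 (Complex.abs_re_le_norm _)).1
          (abs_le.1 (Complex.abs_re_le_norm _)).2
      have h2 : 4 * τ ^ 2 * (G a c * be G f a c).re ^ 2 ≤
          4 * τ ^ 2 * (‖G a c‖ ^ 2 * ‖be G f a c‖ ^ 2) :=
        mul_le_mul_of_nonneg_left h1 (by positivity)
      calc (-(2 * τ * (G a c * be G f a c).re)) ^ 2 =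
          4 * τ ^ 2 * (G a c * be G f a c).re ^ 2 := by ring
        _ ≤ _ := h2
    have e2 : ∀ a, ∑ c, ‖G a c‖ ^ 2 * ‖be G f a c‖ ^ 2 ≤
        (N * (C₀ ^ 2 * (2 / τ)) + (C₀ * δ) ^ 2 / κ ^ 2) * ∑ b, ‖Fm G f a b‖ ^ 2 := by
      intro a
      set Da : ℝ := ∑ b, ‖Fm G f a b‖ ^ 2 with hDa
      have hDa0 : 0 ≤ Da := Finset.sum_nonneg fun b _ => sq_nonneg _
      have h1 : ∀ c, ‖G a c‖ ^ 2 * ‖be G f a c‖ ^ 2 ≤
          (if c ∈ 𝒩 a then C₀ ^ 2 * (2 / τ) * Da else 0) + (C₀ * δ) ^ 2 * ‖be G f a c‖ ^ 2 := by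
        intro c
        by_cases hc : c ∈ 𝒩 a
        · rw [if_pos hc]
          have h2 : ‖be G f a c‖ ^ 2 ≤ 2 / τ * Da := by
            refine (be_pt f a c).trans ?_
            rw [mul_comm]
            refine mul_le_mul_of_nonneg_right ?_ hDa0
            have h3 := hk2 c
            unfold KK at h3
            refine le_trans (le_of_eq ?_) h3
            exact Finset.sum_congr rfl fun b _ => by rw [hs b c]
          have h4 : ‖G a c‖ ^ 2 ≤ C₀ ^ 2 := pow_le_pow_left₀ (norm_nonneg _) (hG.hG a c) 2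
          have h5 : 0 ≤ (C₀ * δ) ^ 2 * ‖be G f a c‖ ^ 2 := by positivity
          have h6 : ‖G a c‖ ^ 2 * ‖be G f a c‖ ^ 2 ≤ C₀ ^ 2 * (2 / τ * Da) :=
            mul_le_mul h4 h2 (sq_nonneg _) (sq_nonneg _)
          linarith only [h5, h6]
        · rw [if_neg hc, zero_add]
          refine mul_le_mul_of_nonneg_right ?_ (sq_nonneg _)
          exact pow_le_pow_left₀ (norm_nonneg _) ((hG.hn a c).2 hc) 2
      refine (Finset.sum_le_sum fun c _ => h1 c).trans ?_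
      rw [Finset.sum_add_distrib, ← Finset.mul_sum, Finset.sum_ite_mem, Finset.univ_inter,
        Finset.sum_const, nsmul_eq_mul]
      have h7 : ((𝒩 a).card : ℝ) * (C₀ ^ 2 * (2 / τ) * Da) ≤ N * (C₀ ^ 2 * (2 / τ) * Da) :=
        mul_le_mul_of_nonneg_right (hG.hN a) (by positivity)
      have h8 : (C₀ * δ) ^ 2 * ∑ c, ‖be G f a c‖ ^ 2 ≤ (C₀ * δ) ^ 2 * (Da / κ ^ 2) :=
        mul_le_mul_of_nonneg_left (hbr a) (sq_nonneg _)
      calc _ ≤ N * (C₀ ^ 2 * (2 / τ) * Da) + (C₀ * δ) ^ 2 * (Da / κ ^ 2) := add_le_add h7 h8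
        _ = _ := by ring
    have e3 : ∑ c, ∑ a, ((τ • Dl (dK G c)) *ᵥ f) a ^ 2 ≤
        4 * τ ^ 2 * ((N * (C₀ ^ 2 * (2 / τ)) + (C₀ * δ) ^ 2 / κ ^ 2) * D) := by
      rw [Finset.sum_comm]
      calc ∑ a, ∑ c, ((τ • Dl (dK G c)) *ᵥ f) a ^ 2
          ≤ ∑ a, 4 * τ ^ 2 * ((N * (C₀ ^ 2 * (2 / τ)) + (C₀ * δ) ^ 2 / κ ^ 2) *
              ∑ b, ‖Fm G f a b‖ ^ 2) := by
            refine Finset.sum_le_sum fun a _ => ?_
            refine (Finset.sum_le_sum fun c _ => e1 c a).trans ?_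
            rw [← Finset.mul_sum]
            exact mul_le_mul_of_nonneg_left (e2 a) (by positivity)
        _ = _ := by rw [← Finset.mul_sum, ← Finset.mul_sum]
    refine e3.trans ?_
    rw [hqt, hDQ]
    have e4 : 4 * τ ^ 2 * ((N * (C₀ ^ 2 * (2 / τ)) + (C₀ * δ) ^ 2 / κ ^ 2) * (2 * Q)) =
        16 * C₀ ^ 2 * N * (τ * Q) + 8 * C₀ ^ 2 * (τ / κ) * (δ ^ 2 / κ * (τ * Q)) := by
      field_simp
      ring
    have e5 : τ / κ ≤ C₀ := by rw [div_le_iff₀ hκ]; exact hτκ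
    have e6 : 8 * C₀ ^ 2 * (τ / κ) * (δ ^ 2 / κ * (τ * Q)) ≤
        8 * C₀ ^ 2 * C₀ * (δ ^ 2 / κ * (τ * Q)) := by
      refine mul_le_mul_of_nonneg_right (mul_le_mul_of_nonneg_left e5 ?_) ?_ <;> positivity
    have hN0 : 0 ≤ N := by linarith only [hN]
    have e7 : C₀ ^ 2 * (N * (τ * Q)) ≤ C₀ ^ 3 * (N * (τ * Q)) :=
      mul_le_mul_of_nonneg_right hC1 (by positivity)
    have e8 : 0 ≤ C₀ ^ 3 * (δ ^ 2 / κ * (τ * Q)) := by positivity
    rw [e4]
    nlinarith only [e6, e7, e8]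
  · -- part (c)
    intro S s hS h0 hSs
    have hs0 : ∀ _c : X, 0 ≤ s := by
      intro c
      have := h0 (Pi.single c 1)
      have h12 : qf S (Pi.single c 1) = S c c := by
        unfold qf
        rw [Finset.sum_eq_single c]
        · rw [Pi.single_eq_same, Matrix.mulVec_single_one]
          simp only [one_mul]
          rfl
        · intro b _ hb
          rw [Pi.single_eq_of_ne hb, zero_mul]
        · intro h; exact absurd (Finset.mem_univ c) h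
      rw [h12] at this
      exact this.trans (hSs c)
    have e1 : ∀ c, qf S ((τ • Dl (dK G c)) *ᵥ f) ≤ 8 * τ * s * ∑ a, ‖be G f a c‖ ^ 2 := by
      intro c
      set x : X → ℝ := (τ • Dl (dK G c)) *ᵥ f with hxd
      set q : ℝ := qf S x with hq
      set B : ℝ := ∑ a, ‖be G f a c‖ ^ 2 with hB
      have hB0 : 0 ≤ B := Finset.sum_nonneg fun a _ => sq_nonneg _
      have hq0 : 0 ≤ q := h0 x
      have hh : ∀ a, (S *ᵥ x) a ^ 2 ≤ s * q := fun a =>
        (cs_qf S hS h0 x a).trans (mul_le_mul_of_nonneg_right (hSs a) hq0)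
      have h1 : |q| ≤ ∑ a, |x a| * |(S *ᵥ x) a| := by
        rw [hq]
        unfold qf
        refine (Finset.abs_sum_le_sum_abs _ _).trans (le_of_eq ?_)
        exact Finset.sum_congr rfl fun a _ => abs_mul _ _
      have h2 : ∀ a, |x a| * |(S *ᵥ x) a| ≤
          (2 * τ) * ((‖G a c‖ * |(S *ᵥ x) a|) * ‖be G f a c‖) := by
        intro a
        have h3 : |x a| ≤ 2 * τ * (‖G a c‖ * ‖be G f a c‖) := by
          rw [hxd, hx, abs_neg, abs_mul, abs_of_pos (by positivity : (0 : ℝ) < 2 * τ), ← norm_mul]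
          exact mul_le_mul_of_nonneg_left (Complex.abs_re_le_norm _) (by positivity)
        calc |x a| * |(S *ᵥ x) a| ≤ 2 * τ * (‖G a c‖ * ‖be G f a c‖) * |(S *ᵥ x) a| :=
              mul_le_mul_of_nonneg_right h3 (abs_nonneg _)
          _ = _ := by ring
      have h4 : |q| ≤ 2 * τ * ∑ a, (‖G a c‖ * |(S *ᵥ x) a|) * ‖be G f a c‖ := by
        rw [Finset.mul_sum]
        exact h1.trans (Finset.sum_le_sum fun a _ => h2 a)
      have h5 : (∑ a, (‖G a c‖ * |(S *ᵥ x) a|) * ‖be G f a c‖) ^ 2 ≤ (s * q * (2 / τ)) * B := by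
        refine (Finset.sum_mul_sq_le_sq_mul_sq _ _ _).trans ?_
        refine mul_le_mul_of_nonneg_right ?_ hB0
        have h6 : ∀ a, (‖G a c‖ * |(S *ᵥ x) a|) ^ 2 ≤ s * q * KK G c a := by
          intro a
          have h7 : (‖G a c‖ * |(S *ᵥ x) a|) ^ 2 = (S *ᵥ x) a ^ 2 * KK G c a := by
            unfold KK
            rw [mul_pow, sq_abs, hs a c]; ring
          rw [h7]
          exact mul_le_mul_of_nonneg_right (hh a) (hK0 _ _)
        refine (Finset.sum_le_sum fun a _ => h6 a).trans ?_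
        rw [← Finset.mul_sum]
        exact mul_le_mul_of_nonneg_left (hk2 c) (le_trans (sq_nonneg _) (hh c))
      have h8 : q ^ 2 ≤ 8 * τ * s * B * q := by
        have h9 : |q| ^ 2 ≤ (2 * τ * ∑ a, (‖G a c‖ * |(S *ᵥ x) a|) * ‖be G f a c‖) ^ 2 :=
          pow_le_pow_left₀ (abs_nonneg _) h4 2
        rw [sq_abs, mul_pow] at h9
        have h10 : (2 * τ) ^ 2 * (∑ a, (‖G a c‖ * |(S *ᵥ x) a|) * ‖be G f a c‖) ^ 2 ≤
            (2 * τ) ^ 2 * ((s * q * (2 / τ)) * B) :=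
          mul_le_mul_of_nonneg_left h5 (by positivity)
        have h11 : (2 * τ) ^ 2 * ((s * q * (2 / τ)) * B) = 8 * τ * s * B * q := by
          field_simp
          ring
        linarith only [h9, h10, h11]
      rcases hq0.eq_or_lt with h | h
      · rw [← h]
        have hs1 := hs0 c
        positivity
      · nlinarith only [h8, h]
    rcases isEmpty_or_nonempty X with hX | ⟨⟨c₀⟩⟩
    · have hq : qf (τ • Dl (KK G)) f = 0 := by
        unfold qf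
        exact Finset.sum_of_isEmpty _
      rw [hq, mul_zero, Finset.sum_of_isEmpty]
    have hs1 := hs0 c₀
    have e2 : ∑ c, qf S ((τ • Dl (dK G c)) *ᵥ f) ≤ 8 * τ * s * (D / κ ^ 2) := by
      refine (Finset.sum_le_sum fun c _ => e1 c).trans ?_
      rw [← Finset.mul_sum, Finset.sum_comm]
      refine mul_le_mul_of_nonneg_left ?_ (by positivity)
      rw [hD, Finset.sum_div]
      exact Finset.sum_le_sum fun a _ => hbr a
    refine e2.trans ?_
    rw [hqt, hDQ]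
    have e3 : 8 * τ * s * (2 * Q / κ ^ 2) = 16 * (s / κ ^ 2 * (τ * Q)) := by
      field_simp
      ring
    have e4 : 16 * C₀ ^ 3 * s / κ ^ 2 * (τ * Q) = C₀ ^ 3 * (16 * (s / κ ^ 2 * (τ * Q))) := by
      field_simp
    rw [e3, e4]
    have e5 : 0 ≤ 16 * (s / κ ^ 2 * (τ * Q)) := by positivity
    have e6 : 1 ≤ C₀ ^ 3 := one_le_pow₀ hC₀
    exact le_mul_of_one_le_left e5 e6

end Pool.Agent.LE.QF.H62
end
end -- Pool.Agent.Helper62_LQF.WFB

section -- Pool.Agent.Helper70_LQF.JTP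

/-!
# The jet of `φ = (1 - τ B)⁻¹ μ`
-/

set_option autoImplicit false

open MeasureTheory ProbabilityTheory Function Filter

open scoped ENNReal BigOperators Topology NNReal ComplexOrder Matrix

noncomputable section

namespace Pool.Agent.LE.QF.H70

open Pool.Agent.Anderson hiding box mem_box card_box
open Pool.Agent.Loc Pool.Agent.Mob Pool.Agent.Helper54.Bal
  Pool.Agent.Helper96.EXP Pool.Agent.BED
open Pool.Agent.LE.MN Pool.Agent.LE.CL Pool.Agent.LE.IR Pool.Agent.LE.QD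

theorem HJ_of_eq {ι : Type} [Fintype ι] [DecidableEq ι] {E : Type} [NormedAddCommGroup E]
    [NormedSpace ℝ E] {F F' : ℝ × (ι → ℝ) → E} {q : ℝ × (ι → ℝ)} {v v' : E} {g g' : ι → E}
    {l l' : E} (h : HJ F q v g l) (hF : F = F') (hv : v = v') (hg : g = g') (hl : l = l') :
    HJ F' q v' g' l' := by
  subst hF hv hg hl
  exact h

/-- `∂_c Y φ` -/
theorem dB_mulVec {X : Type} [Fintype X] [DecidableEq X] (G : Matrix X X ℂ)
    (hs : ∀ a b, G a b = G b a) (φ : X → ℂ) (c b : X) :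
    (dB G c *ᵥ φ) b = -(2 * G b c * GD G φ b c) := by
  unfold GD
  rw [Matrix.mul_apply]
  simp only [Matrix.mul_diagonal, Matrix.mulVec, dotProduct, dB]
  rw [Finset.mul_sum, ← Finset.sum_neg_distrib]
  refine Finset.sum_congr rfl fun e _ => ?_
  rw [hs e c]
  ring

theorem jtp (jal : JalStmt) (jma : JmaStmt) (jtb : JtbStmt) : JtpStmt := by
  intro X _ _ q Gm ta G Θ m τ μ hyp hμ hu hΘ a
  obtain ⟨-, -, hMu, hY, -⟩ := jtb X q Gm ta G m τ μ hyp hμ
  have hs := hyp.hs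
  obtain ⟨Yc, hYc⟩ : ∃ Yc : X → Matrix X X ℂ, Yc = fun c => (τ : ℂ) • dB G c := ⟨_, rfl⟩
  have hYcc : ∀ c, Yc c = (τ : ℂ) • dB G c := by
    intro c
    rw [hYc]
  obtain ⟨Yl, hYl⟩ : ∃ Yl : Matrix X X ℂ, Yl = -BB G + (τ : ℂ) • (BB G * BB G + EB G μ) :=
    ⟨_, rfl⟩
  obtain ⟨φ, hφ⟩ : ∃ φ : X → ℂ, φ = Θ *ᵥ μ := ⟨_, rfl⟩
  -- the jet of `1 - Y`
  have h1 : HM (fun r => (1 : Matrix X X ℂ) - (ta r.1 : ℂ) • BB (Gm r)) q
      (1 - (τ : ℂ) • BB G) (fun c => -Yc c) (-Yl) := by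
    intro x y
    have h2 := ((jal X ℂ q).2.2.1 _ _ _ _ _ _ _ _ ((jal X ℂ q).1 ((1 : Matrix X X ℂ) x y))
      (hY x y)).2.1
    refine HJ_of_eq h2 ?_ ?_ ?_ ?_
    · rfl
    · rfl
    · funext c
      simp only [hYcc, Matrix.neg_apply, zero_sub]
    · rw [hYl, Matrix.neg_apply, zero_sub]
  -- the jet of the inverse
  have h3 := ((jma X ℂ q).2 X _ _ _ _ h1).1 hu
  rw [← hΘ] at h3
  -- the jet of the column
  have h4 : HM (fun r => Matrix.of fun (b : X) (_ : Unit) => Gm r b b - m) q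
      (Matrix.of fun b _ => μ b) (fun c => Matrix.of fun b _ => -BB G b c)
      (Matrix.of fun b _ => (BB G *ᵥ μ) b) := fun b _ => hMu b
  have h5 := (jma X ℂ q).1 X X Unit _ _ _ _ _ _ _ _ h3 h4 a ()
  have hcol : ∀ (M : Matrix X X ℂ) (w : X → ℂ),
      (M * Matrix.of fun (b : X) (_ : Unit) => w b) a () = (M *ᵥ w) a := by
    intro M w
    rw [Matrix.mul_apply]
    rfl
  have hinv : (1 - (τ : ℂ) • BB G) * Θ = 1 := by
    rw [hΘ, Matrix.mul_nonsing_inv _ hu]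
  -- the gradient, for every component
  have hgr : ∀ c : X, (Θ *ᵥ fun b => -BB G b c) + Θ *ᵥ (Yc c *ᵥ φ) =
      fun y => QQ G Θ τ φ y c := by
    intro c
    funext y
    unfold QQ
    rw [Pi.add_apply, Matrix.neg_apply, Matrix.mul_apply]
    simp only [Matrix.mulVec, dotProduct, Matrix.of_apply]
    rw [← Finset.sum_add_distrib, ← Finset.sum_neg_distrib]
    refine Finset.sum_congr rfl fun b _ => ?_
    have h6 : ∑ x, Yc c b x * φ x = -((τ : ℂ) * (2 * G b c * GD G φ b c)) := by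
      have h7 := dB_mulVec G hs φ c b
      simp only [Matrix.mulVec, dotProduct] at h7
      have h8 : ∀ x, Yc c b x * φ x = (τ : ℂ) * (dB G c b x * φ x) := by
        intro x
        rw [hYcc, Matrix.smul_apply, smul_eq_mul, mul_assoc]
      rw [Finset.sum_congr rfl fun x _ => h8 x, ← Finset.mul_sum, h7]
      ring
    rw [h6]
    unfold BB
    ring
  refine HJ_of_eq h5 ?_ ?_ ?_ ?_
  · funext r
    exact hcol _ _
  · exact hcol _ _
  · funext c
    have e1 : (Θ * (Matrix.of fun (b : X) (_ : Unit) => -BB G b c) +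
        -(Θ * -Yc c * Θ) * Matrix.of fun (b : X) (_ : Unit) => μ b) a () =
        ((Θ *ᵥ fun b => -BB G b c) + Θ *ᵥ (Yc c *ᵥ φ)) a := by
      rw [Matrix.add_apply, hcol, hcol, Pi.add_apply]
      congr 1
      rw [Matrix.mul_neg, Matrix.neg_mul, neg_neg, ← Matrix.mulVec_mulVec, ← Matrix.mulVec_mulVec,
        hφ]
    rw [← hφ]
    exact e1.trans (congrFun (hgr c) a)
  · have e2 : ∀ c : X, ((-(Θ * -Yc c * Θ)) *
        Matrix.of fun (b : X) (_ : Unit) => -BB G b c) a () =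
        (Θ *ᵥ (Yc c *ᵥ (Θ *ᵥ fun b => -BB G b c))) a := by
      intro c
      rw [hcol, Matrix.mul_neg, Matrix.neg_mul, neg_neg, ← Matrix.mulVec_mulVec,
        ← Matrix.mulVec_mulVec]
    have e3 : (Θ * Matrix.of fun (b : X) (_ : Unit) => (BB G *ᵥ μ) b) a () =
        (Θ *ᵥ (BB G *ᵥ μ)) a := hcol _ _
    have e4 : ((-(Θ * -Yl * Θ) + ∑ c, Θ * -Yc c * Θ * -Yc c * Θ) *
        Matrix.of fun (b : X) (_ : Unit) => μ b) a () =
        (Θ *ᵥ (Yl *ᵥ φ)) a + ∑ c, (Θ *ᵥ (Yc c *ᵥ (Θ *ᵥ (Yc c *ᵥ φ)))) a := by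
      rw [hcol, Matrix.add_mulVec, Pi.add_apply, Matrix.sum_mulVec, Finset.sum_apply]
      congr 1
      · rw [Matrix.mul_neg, Matrix.neg_mul, neg_neg, ← Matrix.mulVec_mulVec,
          ← Matrix.mulVec_mulVec, hφ]
      · refine Finset.sum_congr rfl fun c _ => ?_
        simp only [Matrix.mul_neg, Matrix.neg_mul, neg_neg]
        rw [← Matrix.mulVec_mulVec, ← Matrix.mulVec_mulVec, ← Matrix.mulVec_mulVec,
          ← Matrix.mulVec_mulVec, hφ]
    have e5 : Yl *ᵥ φ = -(BB G *ᵥ μ) + (τ : ℂ) • (EB G μ *ᵥ φ) := by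
      have h9 : φ - (τ : ℂ) • (BB G *ᵥ φ) = μ := by
        have h10 : (1 - (τ : ℂ) • BB G) *ᵥ φ = μ := by
          rw [hφ, Matrix.mulVec_mulVec, hinv, Matrix.one_mulVec]
        rwa [Matrix.sub_mulVec, Matrix.one_mulVec, Matrix.smul_mulVec] at h10
      have h12 : BB G *ᵥ μ = BB G *ᵥ φ - (τ : ℂ) • (BB G *ᵥ (BB G *ᵥ φ)) := by
        rw [← Matrix.mulVec_smul, ← Matrix.mulVec_sub, h9]
      rw [hYl, Matrix.add_mulVec, Matrix.neg_mulVec, Matrix.smul_mulVec, Matrix.add_mulVec,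
        ← Matrix.mulVec_mulVec, h12, smul_add]
      abel
    have e6 : (∑ c, (-(Θ * -Yc c * Θ)) * Matrix.of fun (b : X) (_ : Unit) => -BB G b c) a () =
        ∑ c, (Θ *ᵥ (Yc c *ᵥ (Θ *ᵥ fun b => -BB G b c))) a := by
      rw [Matrix.sum_apply]
      exact Finset.sum_congr rfl fun c _ => e2 c
    have e7 : lph G Θ τ φ μ a = (Θ *ᵥ (BB G *ᵥ μ)) a + ((Θ *ᵥ (Yl *ᵥ φ)) a +
        ∑ c, (Θ *ᵥ (Yc c *ᵥ (Θ *ᵥ (Yc c *ᵥ φ)))) a) +
        ∑ c, (Θ *ᵥ (Yc c *ᵥ (Θ *ᵥ fun b => -BB G b c))) a := by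
      have e8 : ∀ c, (Θ *ᵥ (((τ : ℂ) • dB G c) *ᵥ fun y => QQ G Θ τ φ y c)) a =
          (Θ *ᵥ (Yc c *ᵥ (Θ *ᵥ (Yc c *ᵥ φ)))) a +
          (Θ *ᵥ (Yc c *ᵥ (Θ *ᵥ fun b => -BB G b c))) a := by
        intro c
        rw [← hYcc c, ← hgr c, Matrix.mulVec_add, Matrix.mulVec_add, Pi.add_apply, add_comm]
      unfold lph
      rw [Finset.sum_congr rfl fun c _ => e8 c, Finset.sum_add_distrib, e5, Matrix.mulVec_add,
        Matrix.mulVec_neg, Matrix.mulVec_smul, Pi.add_apply, Pi.neg_apply, Pi.smul_apply,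
        smul_eq_mul]
      ring
    rw [← hφ]
    rw [e7, ← e3, ← e4, ← e6]
    rfl

end Pool.Agent.LE.QF.H70
end
end -- Pool.Agent.Helper70_LQF.JTP

section -- Pool.Agent.Helper81_LQF.NRB

/-!
# Row NRB of squad LQF: norms at a good point
-/

set_option autoImplicit false
set_option linter.unusedSectionVars false

open scoped BigOperators Matrix

noncomputable section

namespace Pool.Agent.LE.QF.H81

open Pool.Agent.LE.QD Pool.Agent.LE.QF

section nrb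

variable {X : Type} [Fintype X] [DecidableEq X]

theorem n2_nn (f : X → ℂ) : 0 ≤ n2 f := Finset.sum_nonneg fun _ _ => by positivity

/-- Cauchy-Schwarz -/
theorem cs (f g : X → ℂ) : ‖∑ c, f c * g c‖ ^ 2 ≤ (∑ c, ‖f c‖ ^ 2) * ∑ c, ‖g c‖ ^ 2 := by
  have h1 : ‖∑ c, f c * g c‖ ≤ ∑ c, ‖f c‖ * ‖g c‖ := by
    refine (norm_sum_le _ _).trans (le_of_eq ?_)
    apply Finset.sum_congr rfl
    intro c _
    rw [norm_mul]
  calc ‖∑ c, f c * g c‖ ^ 2 ≤ (∑ c, ‖f c‖ * ‖g c‖) ^ 2 := by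
        apply pow_le_pow_left₀ (norm_nonneg _) h1
    _ ≤ (∑ c, ‖f c‖ ^ 2) * ∑ c, ‖g c‖ ^ 2 := Finset.sum_mul_sq_le_sq_mul_sq _ _ _

theorem n2_conj (f : X → ℂ) : n2 (fun a => (starRingEnd ℂ) (f a)) = n2 f := by
  unfold n2
  apply Finset.sum_congr rfl
  intro a _
  rw [Complex.norm_conj]

variable {G : Matrix X X ℂ}

/-- the adjoint in terms of `G` -/
theorem adj_conj (hs : ∀ a b, G a b = G b a) (v : X → ℂ) (a : X) :
    (Gᴴ *ᵥ v) a = (starRingEnd ℂ) ((G *ᵥ fun b => (starRingEnd ℂ) (v b)) a) := by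
  unfold Matrix.mulVec dotProduct
  rw [map_sum]
  apply Finset.sum_congr rfl
  intro b _
  change Gᴴ a b * v b = (starRingEnd ℂ) (G a b * (starRingEnd ℂ) (v b))
  rw [Matrix.conjTranspose_apply, hs b a, map_mul, Complex.conj_conj]
  rfl

theorem n2_adj (hs : ∀ a b, G a b = G b a) (v : X → ℂ) :
    n2 (Gᴴ *ᵥ v) = n2 (G *ᵥ fun b => (starRingEnd ℂ) (v b)) := by
  have h : (Gᴴ *ᵥ v) = fun a => (starRingEnd ℂ) ((G *ᵥ fun b => (starRingEnd ℂ) (v b)) a) := by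
    funext a
    exact adj_conj hs v a
  rw [h, n2_conj]

/-- `|G^* v| ≤ |v| / κ` -/
theorem norm_adj {κ : ℝ} (hκ : 0 < κ) (hs : ∀ a b, G a b = G b a)
    (hw : ∀ a b, (κ : ℂ) * ∑ c, G a c * (starRingEnd ℂ) (G b c) = ((G a b).im : ℂ)) (v : X → ℂ) :
    n2 (Gᴴ *ᵥ v) ≤ n2 v / κ ^ 2 := by
  obtain ⟨x, hx⟩ : ∃ x, x = Gᴴ *ᵥ v := ⟨_, rfl⟩
  have hxa : ∀ a, x a = ∑ b, (starRingEnd ℂ) (G b a) * v b := by
    intro a
    rw [hx]
    rfl
  have hxc : ∀ a, (starRingEnd ℂ) (x a) = ∑ b, G b a * (starRingEnd ℂ) (v b) := by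
    intro a
    rw [hxa, map_sum]
    apply Finset.sum_congr rfl
    intro b _
    rw [map_mul, Complex.conj_conj]
  -- `T` and `R`
  obtain ⟨T, hT⟩ : ∃ T : ℂ, T = ∑ a, ∑ b, v a * (starRingEnd ℂ) (v b) * ((G b a).im : ℂ) :=
    ⟨_, rfl⟩
  obtain ⟨R, hR⟩ : ∃ R : ℂ, R = ∑ a, ∑ b, v a * (starRingEnd ℂ) (v b) * ((G b a).re : ℂ) :=
    ⟨_, rfl⟩
  obtain ⟨S, hS⟩ : ∃ S : ℂ, S = ∑ a, v a * (starRingEnd ℂ) (x a) := ⟨_, rfl⟩
  have hST : S = R + T * Complex.I := by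
    rw [hS, hR, hT, Finset.sum_mul, ← Finset.sum_add_distrib]
    apply Finset.sum_congr rfl
    intro a _
    rw [hxc, Finset.mul_sum, Finset.sum_mul, ← Finset.sum_add_distrib]
    apply Finset.sum_congr rfl
    intro b _
    have e : G b a = ((G b a).re : ℂ) + ((G b a).im : ℂ) * Complex.I := (Complex.re_add_im _).symm
    calc v a * (G b a * (starRingEnd ℂ) (v b)) =
        v a * ((((G b a).re : ℂ) + ((G b a).im : ℂ) * Complex.I) * (starRingEnd ℂ) (v b)) := by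
          rw [← e]
      _ = _ := by ring
  have hTκ : T = ((κ * n2 x : ℝ) : ℂ) := by
    have h1 : ((n2 x : ℝ) : ℂ) = ∑ c, x c * (starRingEnd ℂ) (x c) := by
      unfold n2
      push_cast
      apply Finset.sum_congr rfl
      intro c _
      rw [Complex.mul_conj']
    rw [Complex.ofReal_mul, h1, hT, Finset.mul_sum]
    have h2 : ∀ c, (κ : ℂ) * (x c * (starRingEnd ℂ) (x c)) =
        ∑ a, ∑ b, (κ : ℂ) * (v a * (starRingEnd ℂ) (v b) *
          (G b c * (starRingEnd ℂ) (G a c))) := by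
      intro c
      rw [hxc, hxa, Finset.sum_mul_sum, Finset.mul_sum]
      apply Finset.sum_congr rfl
      intro a _
      rw [Finset.mul_sum]
      apply Finset.sum_congr rfl
      intro b _
      ring
    have h3 : ∑ c, (κ : ℂ) * (x c * (starRingEnd ℂ) (x c)) =
        ∑ a, ∑ b, ∑ c, (κ : ℂ) * (v a * (starRingEnd ℂ) (v b) *
          (G b c * (starRingEnd ℂ) (G a c))) := by
      rw [Finset.sum_congr rfl (fun c _ => h2 c), Finset.sum_comm]
      apply Finset.sum_congr rfl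
      intro a _
      rw [Finset.sum_comm]
    rw [h3]
    apply Finset.sum_congr rfl
    intro a _
    apply Finset.sum_congr rfl
    intro b _
    rw [← hw b a, Finset.mul_sum, Finset.mul_sum]
    apply Finset.sum_congr rfl
    intro c _
    ring
  have hRr : (starRingEnd ℂ) R = R := by
    have h1 : (starRingEnd ℂ) R = ∑ a, ∑ b, (starRingEnd ℂ) (v a) * v b * ((G b a).re : ℂ) := by
      rw [hR, map_sum]
      apply Finset.sum_congr rfl
      intro a _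
      rw [map_sum]
      apply Finset.sum_congr rfl
      intro b _
      rw [map_mul, map_mul, Complex.conj_conj, Complex.conj_ofReal]
    rw [h1, Finset.sum_comm, hR]
    apply Finset.sum_congr rfl
    intro b _
    apply Finset.sum_congr rfl
    intro a _
    rw [hs b a]
    ring
  have hRim : R.im = 0 := Complex.conj_eq_iff_im.1 hRr
  have hSim : S.im = κ * n2 x := by
    rw [hST, Complex.add_im, hRim, Complex.mul_I_im, hTκ, Complex.ofReal_re, zero_add]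
  have hSn : ‖S‖ ^ 2 ≤ n2 v * n2 x := by
    have h1 := cs v (fun a => (starRingEnd ℂ) (x a))
    rw [← hS] at h1
    have h2 : ∑ c, ‖(starRingEnd ℂ) (x c)‖ ^ 2 = n2 x := n2_conj x
    rw [h2] at h1
    exact h1
  have h3 : (κ * n2 x) ^ 2 ≤ n2 v * n2 x := by
    refine le_trans ?_ hSn
    rw [← hSim, ← sq_abs]
    exact pow_le_pow_left₀ (abs_nonneg _) (Complex.abs_im_le_norm S) 2
  rw [← hx, le_div_iff₀ (by positivity)]
  rcases (n2_nn x).eq_or_lt with h0 | h0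
  · rw [← h0, zero_mul]
    exact n2_nn v
  · have h4 : n2 x * (n2 x * κ ^ 2) ≤ n2 x * n2 v := by nlinarith only [h3]
    exact le_of_mul_le_mul_left h4 h0

theorem norm_mv {κ : ℝ} (hκ : 0 < κ) (hs : ∀ a b, G a b = G b a)
    (hw : ∀ a b, (κ : ℂ) * ∑ c, G a c * (starRingEnd ℂ) (G b c) = ((G a b).im : ℂ)) (v : X → ℂ) :
    n2 (G *ᵥ v) ≤ n2 v / κ ^ 2 := by
  have h1 := norm_adj hκ hs hw (fun b => (starRingEnd ℂ) (v b))
  rw [n2_adj hs, n2_conj] at h1
  have h2 : (fun b => (starRingEnd ℂ) ((starRingEnd ℂ) (v b))) = v := by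
    funext b
    exact Complex.conj_conj _
  rwa [h2] at h1

/-- the rows of `G` -/
theorem row_le {κ τ δ C₀ : ℝ} (hC : 1 ≤ C₀) (hκ : 0 < κ) (hκτ : κ ≤ C₀ * τ)
    (hδ : C₀ * δ ≤ 1 / 2) (hk : ∀ a, |τ * ∑ b, ‖G a b‖ ^ 2 - 1| ≤ C₀ * δ) (a : X) :
    ∑ b, ‖G a b‖ ^ 2 ≤ 2 * C₀ / κ := by
  have h1 := (abs_le.1 (hk a)).2
  have h2 : τ * ∑ b, ‖G a b‖ ^ 2 ≤ 2 := by linarith only [hδ, h1]
  have h3 : 0 ≤ ∑ b, ‖G a b‖ ^ 2 := Finset.sum_nonneg fun _ _ => by positivity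
  rw [le_div_iff₀ hκ]
  calc (∑ b, ‖G a b‖ ^ 2) * κ ≤ (∑ b, ‖G a b‖ ^ 2) * (C₀ * τ) :=
        mul_le_mul_of_nonneg_left hκτ h3
    _ = C₀ * (τ * ∑ b, ‖G a b‖ ^ 2) := by ring
    _ ≤ C₀ * 2 := mul_le_mul_of_nonneg_left h2 (by linarith)
    _ = 2 * C₀ := by ring

/-- the sum over `c` of `|g_c v|²` -/
theorem gc_sum {K : ℝ} (hs : ∀ a b, G a b = G b a) (hrow : ∀ a, ∑ b, ‖G a b‖ ^ 2 ≤ K)
    (v : X → ℂ) : ∑ c, n2 (fun b => G c b * v b) ≤ K * n2 v := by
  unfold n2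
  rw [Finset.sum_comm, Finset.mul_sum]
  apply Finset.sum_le_sum
  intro b _
  have h1 : ∑ c, ‖G c b * v b‖ ^ 2 = (∑ c, ‖G b c‖ ^ 2) * ‖v b‖ ^ 2 := by
    rw [Finset.sum_mul]
    apply Finset.sum_congr rfl
    intro c _
    rw [norm_mul, mul_pow, hs c b]
  rw [h1]
  exact mul_le_mul_of_nonneg_right (hrow b) (by positivity)

theorem gd_row (φ : X → ℂ) (a b : X) :
    GD G φ a b = ∑ c, (G a c * φ c) * G c b := by
  unfold GD
  rw [Matrix.mul_apply]
  apply Finset.sum_congr rfl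
  intro c _
  rw [Matrix.mul_diagonal]

/-- the matrix `G ∘ (G μ G)` -/
theorem eb_row (G : Matrix X X ℂ) (μ v : X → ℂ) (a : X) :
    (EB G μ *ᵥ v) a = ∑ c, (2 * G a c * μ c) * (G *ᵥ fun b => G c b * v b) a := by
  have h1 : (EB G μ *ᵥ v) a = ∑ b, ∑ c, 2 * G a b * (G a c * μ c * G c b) * v b := by
    unfold Matrix.mulVec dotProduct
    apply Finset.sum_congr rfl
    intro b _
    change 2 * G a b * GD G μ a b * v b = _
    rw [gd_row, Finset.mul_sum, Finset.sum_mul]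
  rw [h1, Finset.sum_comm]
  apply Finset.sum_congr rfl
  intro c _
  unfold Matrix.mulVec dotProduct
  rw [Finset.mul_sum]
  apply Finset.sum_congr rfl
  intro b _
  ring

theorem db_row (G : Matrix X X ℂ) (v : X → ℂ) (c a : X) :
    (dB G c *ᵥ v) a = -(2 * G a c) * (G *ᵥ fun b => G c b * v b) a := by
  unfold Matrix.mulVec dotProduct
  rw [Finset.mul_sum]
  apply Finset.sum_congr rfl
  intro b _
  change -(2 * G a b * G a c * G c b) * v b = _
  ring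

theorem db_sum (hs : ∀ a b, G a b = G b a) {κ δ N C₀ K : ℝ} {𝒩 : X → Finset X} (hK : 0 ≤ K)
    (hN0 : 0 ≤ N) (hrow : ∀ a, ∑ b, ‖G a b‖ ^ 2 ≤ K)
    (hmv : ∀ v : X → ℂ, n2 (G *ᵥ v) ≤ n2 v / κ ^ 2) (hG : ∀ a b, ‖G a b‖ ≤ C₀)
    (hn : ∀ a b, b ∉ 𝒩 a → ‖G a b‖ ≤ C₀ * δ) (hN : ∀ a, ((𝒩 a).card : ℝ) ≤ N) (v : X → ℂ) :
    ∑ c, n2 (dB G c *ᵥ v) ≤ (4 * C₀ ^ 2 * K * N + 4 * (C₀ * δ) ^ 2 / κ ^ 2) * (K * n2 v) := by
  have hc : ∀ c, n2 (dB G c *ᵥ v) ≤
      (4 * C₀ ^ 2 * K * N + 4 * (C₀ * δ) ^ 2 / κ ^ 2) * n2 (fun b => G c b * v b) := by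
    intro c
    obtain ⟨w, hw⟩ : ∃ w : X → ℂ, w = fun b => G c b * v b := ⟨_, rfl⟩
    rw [← hw]
    have hw0 := n2_nn w
    have ha : ∀ a, ‖(dB G c *ᵥ v) a‖ ^ 2 ≤
        (if a ∈ 𝒩 c then 4 * C₀ ^ 2 * K * n2 w else 0) +
          4 * (C₀ * δ) ^ 2 * ‖(G *ᵥ w) a‖ ^ 2 := by
      intro a
      rw [db_row, ← hw, norm_mul, norm_neg, norm_mul, mul_pow, mul_pow, Complex.norm_ofNat]
      by_cases hac : a ∈ 𝒩 c
      · rw [if_pos hac]
        have h1 : ‖G a c‖ ^ 2 ≤ C₀ ^ 2 := pow_le_pow_left₀ (norm_nonneg _) (hG a c) 2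
        have h2 : ‖(G *ᵥ w) a‖ ^ 2 ≤ K * n2 w := by
          have h3 := cs (fun b => G a b) w
          exact h3.trans (mul_le_mul_of_nonneg_right (hrow a) hw0)
        have h4 : ‖G a c‖ ^ 2 * ‖(G *ᵥ w) a‖ ^ 2 ≤ C₀ ^ 2 * (K * n2 w) :=
          mul_le_mul h1 h2 (by positivity) (by positivity)
        have h5 : 0 ≤ 4 * (C₀ * δ) ^ 2 * ‖(G *ᵥ w) a‖ ^ 2 := by positivity
        nlinarith only [h4, h5]
      · rw [if_neg hac, zero_add]
        have h1 : ‖G a c‖ ^ 2 ≤ (C₀ * δ) ^ 2 := by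
          rw [hs a c]
          exact pow_le_pow_left₀ (norm_nonneg _) (hn c a hac) 2
        have h4 : ‖G a c‖ ^ 2 * ‖(G *ᵥ w) a‖ ^ 2 ≤ (C₀ * δ) ^ 2 * ‖(G *ᵥ w) a‖ ^ 2 :=
          mul_le_mul_of_nonneg_right h1 (by positivity)
        nlinarith only [h4]
    have hsum : n2 (dB G c *ᵥ v) ≤ ((𝒩 c).card : ℝ) * (4 * C₀ ^ 2 * K * n2 w) +
        4 * (C₀ * δ) ^ 2 * n2 (G *ᵥ w) := by
      have h1 : n2 (dB G c *ᵥ v) ≤ ∑ a, ((if a ∈ 𝒩 c then 4 * C₀ ^ 2 * K * n2 w else 0) +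
          4 * (C₀ * δ) ^ 2 * ‖(G *ᵥ w) a‖ ^ 2) := Finset.sum_le_sum fun a _ => ha a
      rw [Finset.sum_add_distrib, ← Finset.mul_sum, Finset.sum_ite_mem, Finset.univ_inter,
        Finset.sum_const, nsmul_eq_mul] at h1
      exact h1
    have h5 := hmv w
    have h6 : ((𝒩 c).card : ℝ) * (4 * C₀ ^ 2 * K * n2 w) ≤ N * (4 * C₀ ^ 2 * K * n2 w) :=
      mul_le_mul_of_nonneg_right (hN c) (by positivity)
    have h7 : 4 * (C₀ * δ) ^ 2 * n2 (G *ᵥ w) ≤ 4 * (C₀ * δ) ^ 2 * (n2 w / κ ^ 2) :=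
      mul_le_mul_of_nonneg_left h5 (by positivity)
    calc n2 (dB G c *ᵥ v) ≤ N * (4 * C₀ ^ 2 * K * n2 w) + 4 * (C₀ * δ) ^ 2 * (n2 w / κ ^ 2) := by
          linarith only [hsum, h6, h7]
      _ = _ := by ring
  calc ∑ c, n2 (dB G c *ᵥ v) ≤
      ∑ c, (4 * C₀ ^ 2 * K * N + 4 * (C₀ * δ) ^ 2 / κ ^ 2) * n2 (fun b => G c b * v b) :=
        Finset.sum_le_sum fun c _ => hc c
    _ = (4 * C₀ ^ 2 * K * N + 4 * (C₀ * δ) ^ 2 / κ ^ 2) * ∑ c, n2 (fun b => G c b * v b) := by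
        rw [Finset.mul_sum]
    _ ≤ _ := mul_le_mul_of_nonneg_left (gc_sum hs hrow v) (by positivity)

theorem nrb : NrbStmt := by
  intro C₀ hC
  refine ⟨16 * C₀ ^ 4, by nlinarith only [one_le_pow₀ hC (n := 4)], ?_⟩
  intro X _ _ G μ 𝒩 κ τ δ N H
  obtain ⟨hκ, hκ1, hτ, hκτ, -⟩ := H.hκ
  obtain ⟨hδ0, hδ1, hN1⟩ := H.hδ
  have hs := H.hs
  have hC0 : 0 < C₀ := by linarith
  have hrow := row_le hC hκ hκτ hδ1 H.hk
  have hmv := norm_mv hκ hs H.hw
  have h3 : (1 : ℝ) ≤ C₀ ^ 3 := one_le_pow₀ hC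
  have h4 : (1 : ℝ) ≤ C₀ ^ 4 := one_le_pow₀ hC
  have hCC : 2 * C₀ ≤ 16 * C₀ ^ 4 := by nlinarith only [hC, h3, h4]
  have hdb : ∀ v : X → ℂ, ∑ c, n2 (dB G c *ᵥ v) ≤
      16 * C₀ ^ 4 * (N / κ ^ 2 + δ ^ 2 / κ ^ 3) * n2 v := by
    intro v
    have h5 := db_sum hs (K := 2 * C₀ / κ) (by positivity) (by linarith) hrow hmv H.hG
      (fun a b => (H.hn a b).2) H.hN v
    refine h5.trans ?_
    have hv := n2_nn v
    have e : (4 * C₀ ^ 2 * (2 * C₀ / κ) * N + 4 * (C₀ * δ) ^ 2 / κ ^ 2) * (2 * C₀ / κ * n2 v) =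
        (16 * C₀ ^ 4 * (N / κ ^ 2) + 8 * C₀ ^ 3 * (δ ^ 2 / κ ^ 3)) * n2 v := by
      field_simp
      ring
    rw [e]
    apply mul_le_mul_of_nonneg_right _ hv
    have h6 : 8 * C₀ ^ 3 * (δ ^ 2 / κ ^ 3) ≤ 16 * C₀ ^ 4 * (δ ^ 2 / κ ^ 3) := by
      apply mul_le_mul_of_nonneg_right _ (by positivity)
      nlinarith only [hC, h3]
    linarith only [h6]
  refine ⟨fun v => ⟨hmv v, norm_adj hκ hs H.hw v⟩, ?_, ?_, ?_, hdb, ?_⟩
  · intro φ s hs0 hφ a b
    have h5 : ‖GD G φ a b‖ ^ 2 ≤ (s * (2 * C₀ / κ)) ^ 2 := by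
      rw [gd_row]
      refine (cs _ _).trans ?_
      have h6 : ∑ c, ‖G a c * φ c‖ ^ 2 ≤ s ^ 2 * (2 * C₀ / κ) := by
        calc ∑ c, ‖G a c * φ c‖ ^ 2 ≤ ∑ c, s ^ 2 * ‖G a c‖ ^ 2 := by
              apply Finset.sum_le_sum
              intro c _
              rw [norm_mul, mul_pow, mul_comm]
              apply mul_le_mul_of_nonneg_right _ (by positivity)
              exact pow_le_pow_left₀ (norm_nonneg _) (hφ c) 2
          _ = s ^ 2 * ∑ c, ‖G a c‖ ^ 2 := by rw [Finset.mul_sum]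
          _ ≤ _ := mul_le_mul_of_nonneg_left (hrow a) (by positivity)
      have h7 : ∑ c, ‖G c b‖ ^ 2 ≤ 2 * C₀ / κ := by
        have : ∑ c, ‖G c b‖ ^ 2 = ∑ c, ‖G b c‖ ^ 2 := by
          apply Finset.sum_congr rfl
          intro c _
          rw [hs c b]
        rw [this]
        exact hrow b
      calc (∑ c, ‖G a c * φ c‖ ^ 2) * ∑ c, ‖G c b‖ ^ 2 ≤
            (s ^ 2 * (2 * C₀ / κ)) * (2 * C₀ / κ) :=
              mul_le_mul h6 h7 (Finset.sum_nonneg fun _ _ => by positivity) (by positivity)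
        _ = _ := by ring
    have h8 : ‖GD G φ a b‖ ≤ s * (2 * C₀ / κ) :=
      le_of_sq_le_sq h5 (by positivity)
    refine h8.trans ?_
    have e : s * (2 * C₀ / κ) = 2 * C₀ * (s / κ) := by ring
    have e' : 16 * C₀ ^ 4 * s / κ = 16 * C₀ ^ 4 * (s / κ) := by ring
    rw [e, e']
    exact mul_le_mul_of_nonneg_right hCC (by positivity)
  · intro φ s hs0 hφ a
    have h5 : ∑ b, ‖GD G φ a b‖ ^ 2 = n2 (G *ᵥ fun c => G a c * φ c) := by
      unfold n2
      apply Finset.sum_congr rfl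
      intro b _
      rw [gd_row]
      unfold Matrix.mulVec dotProduct
      congr 2
      apply Finset.sum_congr rfl
      intro c _
      rw [hs c b, mul_comm]
    rw [h5]
    refine (hmv _).trans ?_
    have h6 : n2 (fun c => G a c * φ c) ≤ s ^ 2 * (2 * C₀ / κ) := by
      unfold n2
      calc ∑ c, ‖G a c * φ c‖ ^ 2 ≤ ∑ c, s ^ 2 * ‖G a c‖ ^ 2 := by
            apply Finset.sum_le_sum
            intro c _
            rw [norm_mul, mul_pow, mul_comm]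
            apply mul_le_mul_of_nonneg_right _ (by positivity)
            exact pow_le_pow_left₀ (norm_nonneg _) (hφ c) 2
        _ = s ^ 2 * ∑ c, ‖G a c‖ ^ 2 := by rw [Finset.mul_sum]
        _ ≤ _ := mul_le_mul_of_nonneg_left (hrow a) (by positivity)
    calc n2 (fun c => G a c * φ c) / κ ^ 2 ≤ (s ^ 2 * (2 * C₀ / κ)) / κ ^ 2 :=
          div_le_div_of_nonneg_right h6 (by positivity)
      _ = 2 * C₀ * (s ^ 2 / κ ^ 3) := by
          field_simp
      _ ≤ 16 * C₀ ^ 4 * (s ^ 2 / κ ^ 3) := mul_le_mul_of_nonneg_right hCC (by positivity)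
      _ = 16 * C₀ ^ 4 * s ^ 2 / κ ^ 3 := by ring
  · intro v
    have hv := n2_nn v
    have h5 : n2 (EB G μ *ᵥ v) ≤
        4 * (C₀ * δ) ^ 2 * (2 * C₀ / κ) * ∑ c, n2 (G *ᵥ fun b => G c b * v b) := by
      have h6 : ∀ a, ‖(EB G μ *ᵥ v) a‖ ^ 2 ≤
          4 * (C₀ * δ) ^ 2 * (2 * C₀ / κ) * ∑ c, ‖(G *ᵥ fun b => G c b * v b) a‖ ^ 2 := by
        intro a
        rw [eb_row G μ v a]
        refine (cs _ _).trans ?_
        apply mul_le_mul_of_nonneg_right _ (Finset.sum_nonneg fun _ _ => by positivity)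
        calc ∑ c, ‖2 * G a c * μ c‖ ^ 2 ≤ ∑ c, 4 * (C₀ * δ) ^ 2 * ‖G a c‖ ^ 2 := by
              apply Finset.sum_le_sum
              intro c _
              rw [norm_mul, norm_mul, mul_pow, mul_pow, Complex.norm_ofNat]
              have h7 : ‖μ c‖ ^ 2 ≤ (C₀ * δ) ^ 2 :=
                pow_le_pow_left₀ (norm_nonneg _) (H.hμ c) 2
              have h8 : 0 ≤ ‖G a c‖ ^ 2 := by positivity
              nlinarith only [mul_le_mul_of_nonneg_left h7 h8]
          _ = 4 * (C₀ * δ) ^ 2 * ∑ c, ‖G a c‖ ^ 2 := by rw [Finset.mul_sum]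
          _ ≤ _ := mul_le_mul_of_nonneg_left (hrow a) (by positivity)
      unfold n2
      rw [Finset.sum_comm, Finset.mul_sum]
      exact Finset.sum_le_sum fun a _ => h6 a
    have h9 : ∑ c, n2 (G *ᵥ fun b => G c b * v b) ≤ (2 * C₀ / κ * n2 v) / κ ^ 2 := by
      calc ∑ c, n2 (G *ᵥ fun b => G c b * v b) ≤ ∑ c, n2 (fun b => G c b * v b) / κ ^ 2 :=
            Finset.sum_le_sum fun c _ => hmv _
        _ = (∑ c, n2 (fun b => G c b * v b)) / κ ^ 2 := by rw [Finset.sum_div]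
        _ ≤ _ := div_le_div_of_nonneg_right (gc_sum hs hrow v) (by positivity)
    have h10 : n2 (EB G μ *ᵥ v) ≤
        4 * (C₀ * δ) ^ 2 * (2 * C₀ / κ) * ((2 * C₀ / κ * n2 v) / κ ^ 2) :=
      h5.trans (mul_le_mul_of_nonneg_left h9 (by positivity))
    refine h10.trans ?_
    have e1 : 4 * (C₀ * δ) ^ 2 * (2 * C₀ / κ) * ((2 * C₀ / κ * n2 v) / κ ^ 2) =
        16 * C₀ ^ 4 * (δ ^ 2 / κ ^ 4 * n2 v) := by
      field_simp
      ring
    have e2 : (16 * C₀ ^ 4 * δ / κ ^ 2) ^ 2 * n2 v =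
        (16 * C₀ ^ 4) ^ 2 * (δ ^ 2 / κ ^ 4 * n2 v) := by
      field_simp
    rw [e1, e2]
    apply mul_le_mul_of_nonneg_right _ (by positivity)
    nlinarith only [h4]
  · intro v
    have h5 : ∀ c, n2 ((dB G c)ᴴ *ᵥ v) = n2 (dB G c *ᵥ fun b => (starRingEnd ℂ) (v b)) := by
      intro c
      apply n2_adj
      intro a b
      change -(2 * G a b * G a c * G c b) = -(2 * G b a * G b c * G c a)
      rw [hs a b, hs a c, hs c b]
      ring
    rw [Finset.sum_congr rfl (fun c _ => h5 c)]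
    have h6 := hdb (fun b => (starRingEnd ℂ) (v b))
    rwa [n2_conj] at h6

end nrb

end Pool.Agent.LE.QF.H81
end
end -- Pool.Agent.Helper81_LQF.NRB

section -- Pool.Agent.Helper52_LQZ.WFU

/-!
# Row WFU of squad LQZ: the upper Riccati inequality

As part (a) of `Helper62_LQF/WFB.lean` (helper62), with the other inequality.
-/

set_option autoImplicit false
set_option linter.unusedSectionVars false

open scoped BigOperators Matrix

noncomputable section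

namespace Pool.Agent.LE.QZ.H52

open Pool.Agent.LE.QD Pool.Agent.LE.QF Pool.Agent.LE.QF.H62

theorem EK_neg {X : Type} [Fintype X] [DecidableEq X] (G : Matrix X X ℂ) (μ : X → ℂ) :
    EK G (fun a => -μ a) = -EK G μ := by
  have h1 : ∀ a b, GD G (fun a => -μ a) a b = -GD G μ a b := by
    intro a b
    unfold GD
    rw [Matrix.mul_apply, Matrix.mul_apply, ← Finset.sum_neg_distrib]
    refine Finset.sum_congr rfl fun c _ => ?_
    rw [Matrix.mul_diagonal, Matrix.mul_diagonal]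
    ring
  ext a b
  rw [Matrix.neg_apply]
  unfold EK
  rw [h1, mul_neg, Complex.neg_re]
  ring

theorem dl_neg {X : Type} [Fintype X] [DecidableEq X] (A : Matrix X X ℝ) : Dl (-A) = -Dl A := by
  unfold Dl
  ext a b
  simp only [Matrix.sub_apply, Matrix.neg_apply, Matrix.diagonal_apply, Finset.sum_neg_distrib]
  split_ifs <;> ring

theorem qf_neg {X : Type} [Fintype X] [DecidableEq X] (A : Matrix X X ℝ) (f : X → ℝ) :
    qf (-A) f = -qf A f := by
  unfold qf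
  rw [← Finset.sum_neg_distrib]
  refine Finset.sum_congr rfl fun a _ => ?_
  rw [Matrix.neg_mulVec, Pi.neg_apply]
  ring

theorem wfu (nrb : QF.NrbStmt) : WfuStmt := by
  intro C₀ hC₀
  refine ⟨6 * C₀ ^ 2, ?_, ?_⟩
  · nlinarith only [pow_le_pow_left₀ (by norm_num : (0 : ℝ) ≤ 1) hC₀ 2]
  intro X _ _ G μ 𝒩 κ τ δ N hG f
  obtain ⟨C₁, _, hn⟩ := nrb C₀ hC₀
  have hop : ∀ v : X → ℂ, n2 (G *ᵥ v) ≤ n2 v / κ ^ 2 := fun v =>
    ((hn X G μ 𝒩 κ τ δ N hG).1 v).1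
  obtain ⟨hκ, hκ1, hτ, hκτ, hτκ⟩ := hG.hκ
  obtain ⟨hδ, hδ2, hN⟩ := hG.hδ
  have hs := hG.hs
  have hC0 : 0 < C₀ := by linarith only [hC₀]
  have hKs : ∀ a b, KK G a b = KK G b a := by
    intro a b
    unfold KK
    rw [hs a b]
  have hK0 : ∀ a b, 0 ≤ KK G a b := fun a b => sq_nonneg _
  set D : ℝ := ∑ a, ∑ b, ‖Fm G f a b‖ ^ 2 with hD
  set Q : ℝ := qf (Dl (KK G)) f with hQ
  have hD0 : 0 ≤ D := Finset.sum_nonneg fun a _ => Finset.sum_nonneg fun b _ => sq_nonneg _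
  have hDQ : D = 2 * Q := by
    rw [hQ, qf_dl _ hKs, hD]
    exact Finset.sum_congr rfl fun a _ => Finset.sum_congr rfl fun b _ => norm_Fm G f a b
  have hQ0 : 0 ≤ Q := by linarith only [hD0, hDQ]
  have hk2 : ∀ a, ∑ b, KK G a b ≤ (1 + C₀ * δ) / τ := by
    intro a
    rw [le_div_iff₀ hτ]
    have := (abs_le.1 (hG.hk a)).2
    unfold KK
    linarith only [this]
  have hqt : qf (τ • Dl (KK G)) f = τ * Q := qf_smul _ _ _
  have e2 : qf (τ • Dl (KK G * KK G + EK G μ) - Dl (KK G)) f =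
      τ * (qf (Dl (KK G * KK G)) f + qf (Dl (EK G μ)) f) - Q := by
    rw [qf_sub, qf_smul, dl_add, qf_add]
  have e3 : qf (Dl (KK G * KK G)) f ≤ (1 + C₀ * δ) / τ * D := by
    rw [qf_dl_sq _ hKs, hD, Finset.mul_sum]
    have e0 : 0 ≤ ∑ c, (Dl (KK G) *ᵥ f) c ^ 2 := Finset.sum_nonneg fun c _ => sq_nonneg _
    refine (sub_le_self _ e0).trans (Finset.sum_le_sum fun c _ => ?_)
    have e : ∑ b, ‖Fm G f c b‖ ^ 2 = ∑ a, KK G c a * (f c - f a) ^ 2 :=
      Finset.sum_congr rfl fun b _ => norm_Fm G f c b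
    rw [e]
    exact mul_le_mul_of_nonneg_right (hk2 c)
      (Finset.sum_nonneg fun b _ => mul_nonneg (hK0 _ _) (sq_nonneg _))
  have e4 : qf (Dl (EK G μ)) f ≤ 2 * (C₀ * δ / κ) * D := by
    have h := EK_bound hκ hs hop (fun a => -μ a) (C₀ * δ) (mul_nonneg hC0.le hδ)
      (fun a => by rw [norm_neg]; exact hG.hμ a) f
    rw [EK_neg, dl_neg, qf_neg, ← hD] at h
    linarith only [h]
  have e5 : τ * (qf (Dl (KK G * KK G)) f + qf (Dl (EK G μ)) f) ≤
      τ * ((1 + C₀ * δ) / τ * D + 2 * (C₀ * δ / κ) * D) :=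
    mul_le_mul_of_nonneg_left (by linarith only [e3, e4]) hτ.le
  have e6 : τ * ((1 + C₀ * δ) / τ * D + 2 * (C₀ * δ / κ) * D) =
      (1 + C₀ * δ) * D + 2 * C₀ * δ * (τ / κ) * D := by
    field_simp
  have e7 : τ / κ ≤ C₀ := by
    rw [div_le_iff₀ hκ]
    exact hτκ
  have e8 : 2 * C₀ * δ * (τ / κ) * D ≤ 2 * C₀ * δ * C₀ * D := by
    refine mul_le_mul_of_nonneg_right (mul_le_mul_of_nonneg_left e7 ?_) hD0
    positivity
  have e9 : (1 + 6 * C₀ ^ 2 * δ) * (τ * Q) / τ = (1 + 6 * C₀ ^ 2 * δ) * Q := by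
    field_simp
  rw [e2, hqt, e9]
  have hC2 : C₀ ≤ C₀ ^ 2 := le_self_pow₀ hC₀ (by norm_num)
  have e10 : C₀ * (δ * Q) ≤ C₀ ^ 2 * (δ * Q) :=
    mul_le_mul_of_nonneg_right hC2 (mul_nonneg hδ hQ0)
  rw [hDQ] at e5 e6 e8
  nlinarith only [e5, e6, e8, e10]

end Pool.Agent.LE.QZ.H52
end
end -- Pool.Agent.Helper52_LQZ.WFU
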