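import Pool.Agent.Helper12_MEB.B087

/-!
# Merged copies (generated) of the modules

* `Pool.Agent.Helper5_LQF.GOD`
* `Pool.Agent.Helper44_LQF.USM`
* `Pool.Agent.Helper19_LQZ.USM`
* `Pool.Agent.Helper5_LQX.GOD`
* `Pool.Agent.Helper76_LQX.USM`
* `Pool.Agent.Helper38_LQZ.GOD`
-/

set_option autoImplicit false

section -- Pool.Agent.Helper5_LQF.GOD

/-! # GOD: a point with `U < 1` is good -/

set_option autoImplicit false

open MeasureTheory ProbabilityTheory Function Filter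

open scoped ENNReal BigOperators Topology NNReal ComplexOrder Matrix

noncomputable section

namespace Pool.Agent.LE.QF.H5

open Pool.Agent.Anderson hiding box mem_box card_box
open Pool.Agent.Loc Pool.Agent.Mob Pool.Agent.Helper54.Bal
  Pool.Agent.Helper96.EXP Pool.Agent.BED
open Pool.Agent.LE.MN Pool.Agent.LE.CL Pool.Agent.LE.IR Pool.Agent.LE.QD

section Gen

variable {X : Type} [Fintype X]

theorem n2_nn (f : X → ℂ) : 0 ≤ n2 f := Finset.sum_nonneg fun _ _ => by positivity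

theorem n2_dot (f : X → ℂ) : (star f ⬝ᵥ f) = (n2 f : ℂ) := by
  simp only [dotProduct, n2, Pi.star_apply, Complex.ofReal_sum]
  refine Finset.sum_congr rfl fun x _ => ?_
  rw [Complex.star_def, ← Complex.normSq_eq_conj_mul_self, Complex.normSq_eq_norm_sq]

theorem cs (f g : X → ℂ) : ‖star f ⬝ᵥ g‖ ^ 2 ≤ n2 f * n2 g := by
  have h1 : ‖star f ⬝ᵥ g‖ ≤ ∑ x, ‖f x‖ * ‖g x‖ := by
    refine (norm_sum_le _ _).trans (Finset.sum_le_sum fun x _ => ?_)
    rw [norm_mul, Pi.star_apply, norm_star]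
  have h2 : (∑ x, ‖f x‖ * ‖g x‖) ^ 2 ≤ (∑ x, ‖f x‖ ^ 2) * ∑ x, ‖g x‖ ^ 2 :=
    Finset.sum_mul_sq_le_sq_mul_sq _ _ _
  exact (pow_le_pow_left₀ (norm_nonneg _) h1 2).trans h2

/-- the norm of the adjoint -/
theorem n2_adj (Y : Matrix X X ℂ) (c : ℝ) (h : ∀ u, n2 (Y *ᵥ u) ≤ c ^ 2 * n2 u)
    (u : X → ℂ) : n2 (Yᴴ *ᵥ u) ≤ c ^ 2 * n2 u := by
  have h1 : (n2 (Yᴴ *ᵥ u) : ℂ) = star u ⬝ᵥ (Y *ᵥ (Yᴴ *ᵥ u)) := by
    rw [← n2_dot, Matrix.star_mulVec, Matrix.conjTranspose_conjTranspose,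
      ← Matrix.dotProduct_mulVec]
  have h2 := cs u (Y *ᵥ (Yᴴ *ᵥ u))
  rw [← h1, Complex.norm_real, Real.norm_eq_abs, sq_abs] at h2
  have h3 := h (Yᴴ *ᵥ u)
  have h4 := n2_nn u
  have h5 := n2_nn (Yᴴ *ᵥ u)
  by_contra h6
  push Not at h6
  have h7 : n2 (Yᴴ *ᵥ u) ^ 2 ≤ n2 u * (c ^ 2 * n2 (Yᴴ *ᵥ u)) :=
    h2.trans (mul_le_mul_of_nonneg_left h3 h4)
  have h8 : 0 < n2 (Yᴴ *ᵥ u) := lt_of_le_of_lt (by positivity) h6
  nlinarith only [h6, h7, h8]

theorem entry_le (f : X → ℂ) (x : X) : ‖f x‖ ^ 2 ≤ n2 f :=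
  Finset.single_le_sum (f := fun x => ‖f x‖ ^ 2) (fun _ _ => by positivity) (Finset.mem_univ x)

variable [DecidableEq X]

/-- the norm from the trace of a high power -/
theorem n2_tr (Y : Matrix X X ℂ) (c : ℝ) (j : ℕ) (hc : 0 ≤ c) (hj : 1 ≤ j)
    (h : (Matrix.trace ((Y * Yᴴ) ^ j)).re ≤ c ^ (2 * j)) (u : X → ℂ) :
    n2 (Y *ᵥ u) ≤ c ^ 2 * n2 u := by
  have hP : (Y * Yᴴ).PosSemidef := Matrix.posSemidef_self_mul_conjTranspose Y
  have hH := hP.1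
  set U := hH.eigenvectorUnitary with hU
  have h1 : (Y * Yᴴ) = Unitary.conjStarAlgAut ℂ _ U
      (Matrix.diagonal (RCLike.ofReal ∘ hH.eigenvalues)) := hH.spectral_theorem
  have h0 : ∀ i, 0 ≤ hH.eigenvalues i := fun i => hP.eigenvalues_nonneg i
  have h2 : Matrix.trace ((Y * Yᴴ) ^ j) = ∑ i, ((hH.eigenvalues i : ℂ)) ^ j := by
    have h2' : (Y * Yᴴ) ^ j = Unitary.conjStarAlgAut ℂ _ U
        ((Matrix.diagonal (RCLike.ofReal ∘ hH.eigenvalues)) ^ j) := by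
      rw [map_pow, ← h1]
    rw [h2', Unitary.conjStarAlgAut_apply, Matrix.trace_mul_comm, ← mul_assoc]
    have h3 : (star (U : Matrix X X ℂ)) * (U : Matrix X X ℂ) = 1 := Unitary.coe_star_mul_self U
    rw [h3, one_mul, Matrix.diagonal_pow, Matrix.trace_diagonal]
    rfl
  have h3 : (Matrix.trace ((Y * Yᴴ) ^ j)).re = ∑ i, (hH.eigenvalues i) ^ j := by
    rw [h2]
    rw [← Complex.ofReal_re (∑ i, (hH.eigenvalues i) ^ j)]
    push_cast
    rfl
  have h4 : ∀ i, hH.eigenvalues i ≤ c ^ 2 := by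
    intro i
    have h5 : hH.eigenvalues i ^ j ≤ ∑ i, (hH.eigenvalues i) ^ j :=
      Finset.single_le_sum (f := fun i => hH.eigenvalues i ^ j)
        (fun i _ => pow_nonneg (h0 i) j) (Finset.mem_univ i)
    have h6 : hH.eigenvalues i ^ j ≤ (c ^ 2) ^ j := by
      rw [← pow_mul]
      exact h5.trans (h3 ▸ h)
    exact le_of_pow_le_pow_left₀ (by omega) (by positivity) h6
  have h5 : (((c ^ 2 : ℝ) : ℂ) • (1 : Matrix X X ℂ) - Y * Yᴴ).PosSemidef := by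
    have h6 : ((c ^ 2 : ℝ) : ℂ) • (1 : Matrix X X ℂ) - Y * Yᴴ =
        (U : Matrix X X ℂ) * Matrix.diagonal (fun i => ((c ^ 2 - hH.eigenvalues i : ℝ) : ℂ)) *
          (U : Matrix X X ℂ)ᴴ := by
      have h7 : Matrix.diagonal (fun i => ((c ^ 2 - hH.eigenvalues i : ℝ) : ℂ)) =
          ((c ^ 2 : ℝ) : ℂ) • (1 : Matrix X X ℂ) -
            Matrix.diagonal (RCLike.ofReal ∘ hH.eigenvalues) := by
        rw [← Matrix.diagonal_one, ← Matrix.diagonal_smul, Matrix.diagonal_sub]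
        ext a b
        by_cases hab : a = b
        · subst hab
          simp
        · simp [hab]
      rw [h7, mul_sub, sub_mul]
      have h8 : (U : Matrix X X ℂ) * (U : Matrix X X ℂ)ᴴ = 1 := Unitary.coe_mul_star_self U
      rw [mul_smul_comm, smul_mul_assoc, mul_one, h8]
      congr 1
    rw [h6]
    refine Matrix.PosSemidef.mul_mul_conjTranspose_same ?_ _
    refine Matrix.PosSemidef.diagonal ?_
    intro i
    have := h4 i
    simp only [Pi.zero_apply]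
    exact_mod_cast sub_nonneg.2 this
  have h6 : ∀ v, n2 (Yᴴ *ᵥ v) ≤ c ^ 2 * n2 v := by
    intro v
    have h7 := h5.dotProduct_mulVec_nonneg v
    rw [Matrix.sub_mulVec, Matrix.smul_mulVec, Matrix.one_mulVec, dotProduct_sub,
      dotProduct_smul, n2_dot, ← Matrix.mulVec_mulVec] at h7
    have h8 : star v ⬝ᵥ (Y *ᵥ (Yᴴ *ᵥ v)) = (n2 (Yᴴ *ᵥ v) : ℂ) := by
      rw [← n2_dot, Matrix.star_mulVec, Matrix.conjTranspose_conjTranspose,
        ← Matrix.dotProduct_mulVec]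
    rw [h8, smul_eq_mul, sub_nonneg] at h7
    exact_mod_cast h7
  have h7 := n2_adj Yᴴ c h6 u
  rwa [Matrix.conjTranspose_conjTranspose] at h7

theorem unit_of (Y : Matrix X X ℂ) (c : ℝ) (hc : 0 ≤ c) (hc1 : c < 1)
    (h : ∀ u, n2 (Y *ᵥ u) ≤ c ^ 2 * n2 u) : IsUnit (1 - Y).det := by
  rw [isUnit_iff_ne_zero]
  intro h0
  obtain ⟨v, hv, hv0⟩ := Matrix.exists_mulVec_eq_zero_iff.2 h0
  rw [Matrix.sub_mulVec, Matrix.one_mulVec, sub_eq_zero] at hv0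
  have h1 := h v
  rw [← hv0] at h1
  have h2 : 0 < n2 v := by
    obtain ⟨x, hx⟩ := Function.ne_iff.1 hv
    have h3 := entry_le v x
    have h4 : 0 < ‖v x‖ := norm_pos_iff.2 hx
    have : 0 < ‖v x‖ ^ 2 := by positivity
    linarith
  have h3 : c ^ 2 < 1 := by nlinarith only [hc, hc1]
  nlinarith only [h1, h2, h3]

theorem GdM.mono {G : Matrix X X ℂ} {μ : X → ℂ} {𝒩 : X → Finset X} {κ τ δ N C' C : ℝ}
    (h : GdM G μ 𝒩 κ τ δ N C') (h1 : C' ≤ C) (h2 : C * δ ≤ 1 / 2) : GdM G μ 𝒩 κ τ δ N C := by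
  obtain ⟨k1, k2, k3, k4, k5⟩ := h.hκ
  have hd := h.hδ.1
  have h3 : C' * δ ≤ C * δ := mul_le_mul_of_nonneg_right h1 hd
  refine ⟨⟨k1, k2, k3, k4.trans (mul_le_mul_of_nonneg_right h1 k3.le),
    k5.trans (mul_le_mul_of_nonneg_right h1 k1.le)⟩, ⟨hd, h2, h.hδ.2.2⟩, h.hs, h.hw,
    fun a => (h.hk a).trans h3, fun a => (h.hμ a).trans h3, fun a b => (h.hG a b).trans h1,
    fun a b => ⟨(h.hn a b).1, fun hab => ((h.hn a b).2 hab).trans h3⟩, h.hN⟩

theorem qf_add (A B : Matrix X X ℝ) (f : X → ℝ) : qf (A + B) f = qf A f + qf B f := by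
  simp only [qf, Matrix.add_mulVec, Pi.add_apply, mul_add, Finset.sum_add_distrib]

theorem qf_smul (t : ℝ) (A : Matrix X X ℝ) (f : X → ℝ) : qf (t • A) f = t * qf A f := by
  simp only [qf, Matrix.smul_mulVec, Pi.smul_apply, smul_eq_mul, Finset.mul_sum]
  exact Finset.sum_congr rfl fun x _ => by ring

theorem qf_one (f : X → ℝ) : qf (1 : Matrix X X ℝ) f = ∑ a, f a ^ 2 := by
  simp only [qf, Matrix.one_mulVec]
  exact Finset.sum_congr rfl fun x _ => by ring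

theorem qf_P0 (f : X → ℝ) : qf (P0 X) f = (Fintype.card X : ℝ)⁻¹ * (∑ a, f a) ^ 2 := by
  simp only [qf, P0, Matrix.mulVec, dotProduct]
  rw [← Finset.sum_mul, sq, ← Finset.mul_sum]
  ring

theorem qf_Dl (K : Matrix X X ℝ) (f : X → ℝ) :
    qf (Dl K) f = (∑ a, (∑ b, K a b) * f a ^ 2) - qf K f := by
  simp only [qf, Dl, Matrix.sub_mulVec, Pi.sub_apply, Matrix.mulVec_diagonal, mul_sub,
    Finset.sum_sub_distrib]
  congr 1
  exact Finset.sum_congr rfl fun x _ => by ring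

theorem Dl_symm (K : Matrix X X ℝ) (h : ∀ a b, K a b = K b a) (a b : X) : Dl K a b = Dl K b a := by
  by_cases hab : a = b
  · subst hab; rfl
  · simp [Dl, hab, Ne.symm hab, h a b]

theorem Dl_nonneg (K : Matrix X X ℝ) (h : ∀ a b, K a b = K b a) (h0 : ∀ a b, 0 ≤ K a b)
    (f : X → ℝ) : 0 ≤ qf (Dl K) f := by
  have h1 : (∑ a, ∑ b, K a b * (f a - f b) ^ 2) = 2 * qf (Dl K) f := by
    rw [qf_Dl]
    have h2 : ∀ a b, K a b * (f a - f b) ^ 2 =
        K a b * f a ^ 2 + K a b * f b ^ 2 - 2 * (f a * (K a b * f b)) := fun a b => by ring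
    simp only [h2, Finset.sum_sub_distrib, Finset.sum_add_distrib]
    have h3 : ∑ a, ∑ b, K a b * f b ^ 2 = ∑ a, ∑ b, K a b * f a ^ 2 := by
      rw [Finset.sum_comm]
      exact Finset.sum_congr rfl fun a _ => Finset.sum_congr rfl fun b _ => by rw [h b a]
    rw [h3]
    simp only [qf, Matrix.mulVec, dotProduct, ← Finset.mul_sum, Finset.sum_mul]
    ring
  have h2 : 0 ≤ ∑ a, ∑ b, K a b * (f a - f b) ^ 2 :=
    Finset.sum_nonneg fun a _ => Finset.sum_nonneg fun b _ => mul_nonneg (h0 a b) (sq_nonneg _)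
  linarith only [h1, h2]

end Gen

variable {d M : ℕ} [NeZero M]

theorem card_tor : (Fintype.card (Tor d M) : ℝ) = (M : ℝ) ^ d := by
  simp [Tor, ZMod.card]

theorem kp_pos {D : Dat d M} {c₁ C₁ c₀ : ℝ} {k₀ : ℕ} (hc₁ : 0 < c₁) (hA : Adm D c₁ C₁ c₀ k₀)
    {t : ℝ} (ht : t ≤ D.T) : D.η ≤ D.kp t := by
  have h1 : 0 ≤ (D.T - t) * D.m.im :=
    mul_nonneg (sub_nonneg.2 ht) (hc₁.le.trans hA.hm.1)
  simp only [Dat.kp]
  linarith

theorem Adm.mono {D : Dat d M} {c₁ C₁ c₀ c : ℝ} {k₀ : ℕ} (hA : Adm D c₁ C₁ c k₀) (h : c ≤ c₀) :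
    Adm D c₁ C₁ c₀ k₀ :=
  ⟨hA.hT, hA.hm, hA.hfix, ⟨hA.hδ.1, hA.hδ.2.1, hA.hδ.2.2.trans h⟩, hA.hk, hA.he, hA.hj, hA.h0, hA.hN,
    hA.hY, hA.hL, hA.hS, hA.hP, hA.hϖ, hA.hW⟩

theorem lt_one_of_pow_sum {κ : Type} [Fintype κ] (x : κ → ℝ) (n : ℕ)
    (h0 : ∀ k, 0 ≤ x k) (h : ∑ k, x k ^ n < 1) (k : κ) : x k < 1 := by
  have h1 : x k ^ n ≤ ∑ k, x k ^ n :=
    Finset.single_le_sum (f := fun k => x k ^ n) (fun k _ => pow_nonneg (h0 k) n)
      (Finset.mem_univ k)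
  by_contra h2
  push Not at h2
  have := one_le_pow₀ (n := n) h2
  linarith

theorem god (hN : NnuStmt) (hR : RsjStmt) (hC : GdcStmt) (hT : ThbStmt) (hW : WabStmt) :
    GodStmt := by
  intro c₁ C₁ k₀ hc₁ hC₁
  obtain ⟨c', C', hc'0, hc'2, hC'1, hgdc⟩ := hC c₁ C₁ hc₁ hC₁
  have hk0 : (0 : ℝ) ≤ k₀ := Nat.cast_nonneg _
  have hc1i : 0 < 1 / c₁ := by positivity
  obtain ⟨C₀, hC₀⟩ : ∃ C₀ : ℝ, C₀ = C' + C₁ + 1 / c₁ + 2 * k₀ + 2 := ⟨_, rfl⟩
  have hC₀1 : 1 ≤ C₀ := by rw [hC₀]; linarith only [hC₁, hc'0, hc'2, hC'1, hc1i]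
  obtain ⟨c₀, hc₀⟩ : ∃ c₀ : ℝ, c₀ = min c' (1 / (2 * C₀ * (k₀ + 1))) := ⟨_, rfl⟩
  have hc₀0 : 0 < c₀ := by rw [hc₀]; positivity
  have hc₀c : c₀ ≤ c' := hc₀ ▸ min_le_left _ _
  have hc₀C : C₀ * c₀ * (k₀ + 1) ≤ 1 / 2 := by
    have h1 : c₀ ≤ 1 / (2 * C₀ * (k₀ + 1)) := hc₀ ▸ min_le_right _ _
    rw [le_div_iff₀ (by positivity)] at h1
    linarith only [h1]
  refine ⟨c₀, C₀, hc₀0, hc₀c.trans hc'2, hC₀1, ?_⟩
  intro d M _ D q hA hq0 hqT hU
  have hkp := kp_pos hc₁ hA hqT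
  have hη := hA.hT.2.1
  have hkp0 : 0 < D.kp q.1 := lt_of_lt_of_le hη hkp
  obtain ⟨hu1, hu2, hu3, hu4, hu5⟩ := hN d M D c₁ C₁ c₀ k₀ q hc₁ hA hkp0
  obtain ⟨hJ, hward, hG0s, hkt, hkw, -, -⟩ := hR d M D c₁ C₁ c₀ k₀ q hc₁ hA hkp0
  obtain ⟨-, hkpw⟩ := hkw hq0 hqT
  have hU' : D.U1 q + D.U2 q + D.U3 q + D.U4 q + D.U5 q < 1 := hU
  have hm0 : 0 < D.m.im := lt_of_lt_of_le hc₁ hA.hm.1
  have hδ0 := hA.hδ.1
  have hδc : D.δ ≤ c₀ := hA.hδ.2.1.trans hA.hδ.2.2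
  have hε0 : 0 < D.ε₁ := lt_of_lt_of_le hδ0 hA.hδ.2.1
  have hε2 : D.ε₁ ≤ 1 / 2 := (hA.hδ.2.2.trans hc₀c).trans hc'2
  have hta0 : 0 < D.ta q.1 := div_pos hkp0 hm0
  have hj1 : 1 ≤ D.j := by have := hA.hj.1; omega
  -- U1
  have hφ : ∀ a, ‖D.ph q a‖ ≤ D.δ := by
    intro a
    have h1 : ∑ a, (‖D.ph q a‖ ^ 2 / D.δ ^ 2) ^ D.j < 1 := by
      have : D.U1 q < 1 := by linarith
      exact this
    have h2 := lt_one_of_pow_sum _ _ (fun a => by positivity) h1 a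
    rw [div_lt_one (by positivity)] at h2
    exact (abs_le_of_sq_le_sq' (by linarith : ‖D.ph q a‖ ^ 2 ≤ D.δ ^ 2) hδ0.le).2
  -- U2
  have hXh : ∀ a b, ‖D.Xh q a b‖ ≤ D.δ := by
    intro a b
    have h1 : ∑ a, ∑ b, (‖D.Xh q a b‖ ^ 2 / D.δ ^ 2) ^ D.j < 1 := by
      have : D.U2 q < 1 := by linarith
      exact this
    have h3 : ∑ b, (‖D.Xh q a b‖ ^ 2 / D.δ ^ 2) ^ D.j < 1 := by
      refine lt_of_le_of_lt ?_ h1
      exact Finset.single_le_sum (f := fun a => ∑ b, (‖D.Xh q a b‖ ^ 2 / D.δ ^ 2) ^ D.j)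
        (fun a _ => Finset.sum_nonneg fun b _ => by positivity) (Finset.mem_univ a)
    have h2 := lt_one_of_pow_sum _ _ (fun b => by positivity) h3 b
    rw [div_lt_one (by positivity)] at h2
    exact (abs_le_of_sq_le_sq' (by linarith : ‖D.Xh q a b‖ ^ 2 ≤ D.δ ^ 2) hδ0.le).2
  -- U3
  have hY : ∀ u, n2 (D.Y q *ᵥ u) ≤ D.ε₁ ^ 2 * n2 u := by
    have h1 : (Matrix.trace ((D.Y q * (D.Y q)ᴴ) ^ D.j)).re / D.ε₁ ^ (2 * D.j) < 1 := by
      have : D.U3 q < 1 := by linarith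
      exact this
    rw [div_lt_one (by positivity)] at h1
    exact n2_tr _ _ _ hε0.le hj1 h1.le
  have hunit : IsUnit (1 - D.Y q).det := unit_of _ _ hε0.le (by linarith only [hc'0, hc'2, hε2]) hY
  have hYd : D.Y q = ((D.ta q.1 : ℝ) : ℂ) • BB (D.G q) := rfl
  have hmu : ∀ a, D.mu q a = D.ph q a - D.ta q.1 * (BB (D.G q) *ᵥ D.ph q) a := by
    intro a
    have h1 : (1 - D.Y q) *ᵥ D.ph q = D.mu q := by
      simp only [Dat.ph, Dat.Th]
      rw [Matrix.mulVec_mulVec, Matrix.mul_nonsing_inv _ hunit, Matrix.one_mulVec]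
    rw [← h1, Matrix.sub_mulVec, Matrix.one_mulVec, hYd, Matrix.smul_mulVec]
    rfl
  -- GDC
  have hg := hgdc (Tor d M) (D.G q) D.G0 (D.ph q) D.m D.nr (D.kp q.1) (D.ta q.1) D.δ D.N hkp0
    (hkpw.trans hA.hT.2.2.1) hkt hA.hm.1 hA.hm.2 hδ0.le (hδc.trans hc₀c) hA.hj.2.2.2.1 hJ.hs hG0s
    hward hmu hφ hXh hA.h0 (fun a b => by simp [Dat.nr]) hA.hN
  have hC'C : C' ≤ C₀ := by rw [hC₀]; linarith only [hC₁, hc'0, hc'2, hc1i]
  have hCd : C₀ * D.δ ≤ 1 / 2 := by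
    have h1 : C₀ * D.δ ≤ C₀ * c₀ := mul_le_mul_of_nonneg_left hδc (by linarith only [hC₁, hc'0, hc'2, hC'1, hc1i, hC₀])
    have h2 : C₀ * c₀ ≤ C₀ * c₀ * (k₀ + 1) := by
      have : 0 ≤ C₀ * c₀ := by positivity
      nlinarith only [this]
    linarith only [hc₀C, h1, h2]
  have hG := GdM.mono hg hC'C hCd
  -- rows
  have hrow : ∀ a, D.ta q.1 * ∑ b, ‖D.G q a b‖ ^ 2 ≤ 1 + C' * D.δ := by
    intro a
    have := (abs_le.1 (hg.hk a)).2
    linarith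
  have hYrow : ∀ a, ∑ b, ‖D.Y q a b‖ ≤ 1 + C' * D.δ := by
    intro a
    refine le_trans (le_of_eq ?_) (hrow a)
    rw [Finset.mul_sum]
    refine Finset.sum_congr rfl fun b _ => ?_
    rw [hYd, Matrix.smul_apply, smul_eq_mul, norm_mul, Complex.norm_real, Real.norm_eq_abs,
      abs_of_pos hta0, BB, norm_pow]
  have hpow : (1 + C' * D.δ) ^ k₀ ≤ 2 := by
    have h0 : 0 ≤ C' * D.δ := by positivity
    have h1 : (1 + C' * D.δ) ^ k₀ ≤ Real.exp (C' * D.δ) ^ k₀ :=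
      pow_le_pow_left₀ (by linarith only [hc'0, hc'2, h0]) (by linarith only [Real.add_one_le_exp (C' * D.δ)]) k₀
    rw [← Real.exp_nat_mul] at h1
    have h2 : (k₀ : ℝ) * (C' * D.δ) ≤ Real.log 2 := by
      have h3 : C' * D.δ ≤ C₀ * c₀ := mul_le_mul hC'C hδc hδ0.le (by linarith only [hC₁, hc'0, hc'2, hC'1, hc1i, hC₀])
      have h4 : (k₀ : ℝ) * (C' * D.δ) ≤ k₀ * (C₀ * c₀) := mul_le_mul_of_nonneg_left h3 hk0
      have h5 : 0 ≤ C₀ * c₀ := by positivity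
      have h6 := Real.log_two_gt_d9
      nlinarith only [hc'0, hc'2, hc₀C, h0, h3, h4, h6]
    calc (1 + C' * D.δ) ^ k₀ ≤ Real.exp (k₀ * (C' * D.δ)) := h1
      _ ≤ Real.exp (Real.log 2) := Real.exp_le_exp.2 h2
      _ = 2 := Real.exp_log (by norm_num)
  have hthb := hT (Tor d M) (D.Y q) D.ε₁ (C' * D.δ) k₀ hε0.le hε2 (by positivity) hpow
    (by rw [card_tor]; exact hA.hk) hY hYrow
  -- U4
  have hLs0 : 0 < D.Ls q.1 := by
    have hL0 : 0 < D.L₀ := by linarith only [hA.hj.2.2.1, hc'0, hc'2]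
    have hN0 : 0 < D.N := by linarith only [hA.hj.2.2.2.1, hc'0, hc'2]
    have hp0 := hA.hj.2.2.2.2
    simp only [Dat.Ls]
    have h1 : 0 ≤ D.π₀ / D.kp q.1 ^ 2 := by positivity
    have h2 : 0 ≤ D.δ ^ 4 / D.kp q.1 := by positivity
    have h3 : 0 < D.N + D.π₀ / D.kp q.1 ^ 2 + D.δ ^ 4 / D.kp q.1 := by linarith only [hN0, h1, h2]
    positivity
  have hLa : ∀ a, D.La q a ≤ D.Ls q.1 := by
    intro a
    have h1 : ∑ a, (D.La q a / D.Ls q.1) ^ D.j < 1 := by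
      have : D.U4 q < 1 := by linarith
      exact this
    have h2 := lt_one_of_pow_sum _ _ (fun a => div_nonneg
      (Finset.sum_nonneg fun b _ => by positivity) hLs0.le) h1 a
    rw [div_lt_one hLs0] at h2
    exact h2.le
  -- W
  have hKs : ∀ a b, KK (D.G q) a b = KK (D.G q) b a := fun a b => by
    simp only [KK]; rw [hJ.hs a b]
  have hK0 : ∀ a b, 0 ≤ KK (D.G q) a b := fun a b => by simp only [KK]; positivity
  have hXd : D.X q = D.ta q.1 • Dl (KK (D.G q)) := rfl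
  have hX0 : ∀ f, 0 ≤ qf (D.X q) f := fun f => by
    rw [hXd, qf_smul]
    exact mul_nonneg hta0.le (Dl_nonneg _ hKs hK0 f)
  have hXs : ∀ a b, D.X q a b = D.X q b a := fun a b => by
    rw [hXd, Matrix.smul_apply, Matrix.smul_apply, Dl_symm _ hKs a b]
  have he0 : 0 < D.e₀ := by linarith only [hA.he.1, hA.he.2.1, hc'0, hc'2]
  have hp1 : 1 ≤ D.p := by have := hA.hj.2.1; omega
  obtain ⟨hAu, -, -, hab, -⟩ := hW (Tor d M) (D.X q) D.S D.e₀ 1 (D.ta q.1) D.ϖ D.p hXs hX0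
    hA.hS.1 hA.hS.2.1 he0 one_pos hta0.le hA.hϖ.1 hp1
  have h5 : D.U5 q ≤ 1 := by linarith
  have hAf : ∀ f, qf (D.A q.1)⁻¹ f ≤
      qf (D.X q + P0 (Tor d M) + D.ϖ • (1 : Matrix (Tor d M) (Tor d M) ℝ)) f := (hab h5).2
  refine ⟨⟨rfl, rfl, hkp, hkpw, hta0, ?_, ?_⟩, hG, hunit, ?_, hφ, hmu, hLa, ?_, hAf, h5, ?_⟩
  · -- ta ≤ C₀ kp
    have h1 : D.ta q.1 * c₁ ≤ D.kp q.1 := by
      rw [hkt]
      exact mul_le_mul_of_nonneg_left hA.hm.1 hta0.le
    have h2 : D.ta q.1 ≤ 1 / c₁ * D.kp q.1 := by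
      rw [one_div, ← div_eq_inv_mul, le_div_iff₀ hc₁]
      exact h1
    have h3 : 1 / c₁ ≤ C₀ := by rw [hC₀]; linarith only [hC₁, hc'0, hc'2, hC'1]
    exact h2.trans (mul_le_mul_of_nonneg_right h3 hkp0.le)
  · have h3 : C₁ ≤ C₀ := by rw [hC₀]; linarith only [hc'0, hc'2, hC'1, hc1i]
    rw [hkt, mul_comm]
    exact mul_le_mul_of_nonneg_right (hA.hm.2.trans h3) hta0.le
  · intro a
    have h1 : (2 * k₀ + 1 : ℝ) ≤ C₀ := by rw [hC₀]; linarith only [hC₁, hc'0, hc'2, hC'1, hc1i]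
    exact (hthb.2 a).trans h1
  · intro u
    have h1 := hY u
    rw [hYd, Matrix.smul_mulVec] at h1
    have h2 : n2 (((D.ta q.1 : ℝ) : ℂ) • (BB (D.G q) *ᵥ u)) =
        D.ta q.1 ^ 2 * n2 (BB (D.G q) *ᵥ u) := by
      simp only [n2, Pi.smul_apply, smul_eq_mul, norm_mul, mul_pow, Complex.norm_real,
        Real.norm_eq_abs, sq_abs, Finset.mul_sum]
    rw [h2] at h1
    rw [div_pow, div_mul_eq_mul_div, le_div_iff₀ (by positivity)]
    linarith
  · intro f hf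
    have hsum : ∑ a, f a = 0 := by
      have h1 : ∑ a, (D.Pl *ᵥ f) a = ∑ a, f a := by
        simp only [Matrix.mulVec, dotProduct]
        rw [Finset.sum_comm]
        refine Finset.sum_congr rfl fun b _ => ?_
        rw [← Finset.sum_mul]
        have h2 : ∑ a, D.Pl a b = 1 := by
          rw [← hA.hP.2.2.2.1 b]
          exact Finset.sum_congr rfl fun a _ => hA.hP.1 a b
        rw [h2, one_mul]
      rw [← h1, hf]
      simp
    have hSf : D.S *ᵥ f = 0 := by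
      rw [← hA.hP.2.2.2.2, ← Matrix.mulVec_mulVec, hf, Matrix.mulVec_zero]
    have hAe : D.A q.1 *ᵥ (D.e₀⁻¹ • f) = f := by
      simp only [Dat.A]
      rw [Matrix.mulVec_smul, Matrix.add_mulVec, Matrix.smul_mulVec, Matrix.smul_mulVec,
        Matrix.one_mulVec, hSf, smul_zero, add_zero, smul_smul, inv_mul_cancel₀ he0.ne', one_smul]
    have hAi : (D.A q.1)⁻¹ *ᵥ f = D.e₀⁻¹ • f := by
      have hAu' : IsUnit (D.A q.1).det := hAu
      have h1 : (D.A q.1)⁻¹ *ᵥ (D.A q.1 *ᵥ (D.e₀⁻¹ • f)) = D.e₀⁻¹ • f := by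
        rw [Matrix.mulVec_mulVec, Matrix.nonsing_inv_mul _ hAu', Matrix.one_mulVec]
      rwa [hAe] at h1
    have h1 := hAf f
    have h2 : qf (D.A q.1)⁻¹ f = D.e₀⁻¹ * ∑ b, f b ^ 2 := by
      simp only [qf, hAi, Pi.smul_apply, smul_eq_mul, Finset.mul_sum]
      exact Finset.sum_congr rfl fun x _ => by ring
    rw [h2, qf_add, qf_add, qf_P0, hsum, qf_smul, qf_one, hXd, qf_smul, qf_Dl] at h1
    have h3 : D.ta q.1 * (∑ a, (∑ b, KK (D.G q) a b) * f a ^ 2) ≤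
        (1 + C' * D.δ) * ∑ b, f b ^ 2 := by
      rw [Finset.mul_sum, Finset.mul_sum]
      refine Finset.sum_le_sum fun a _ => ?_
      rw [← mul_assoc]
      exact mul_le_mul_of_nonneg_right (hrow a) (sq_nonneg _)
    have hS2 : 0 ≤ ∑ b, f b ^ 2 := Finset.sum_nonneg fun b _ => sq_nonneg _
    have h4 : 1 - D.e₀⁻¹ ≤ D.e₀ - 1 := by
      have h5 : 1 ≤ D.e₀ := by linarith only [hA.he.1, hA.he.2.1]
      have h6 : D.e₀⁻¹ * D.e₀ = 1 := inv_mul_cancel₀ he0.ne'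
      have h7 : 0 < D.e₀⁻¹ := inv_pos.2 he0
      nlinarith only [mul_nonneg h7.le (sq_nonneg (D.e₀ - 1)), he0, h6]
    have h5 : D.ϖ ≤ D.δ := hA.hϖ.2.1
    have h6 : (C' + 1) * D.δ ≤ C₀ * D.δ :=
      mul_le_mul_of_nonneg_right (by rw [hC₀]; linarith only [hC₁, hc'0, hc'2, hc1i]) hδ0.le
    have h7 : D.ta q.1 * qf (KK (D.G q)) f ≤
        ((1 + C' * D.δ) + D.ϖ - D.e₀⁻¹) * ∑ b, f b ^ 2 := by
      linarith
    refine h7.trans (mul_le_mul_of_nonneg_right ?_ hS2)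
    linarith only [h4, h5, h6]

end Pool.Agent.LE.QF.H5
end
end -- Pool.Agent.Helper5_LQF.GOD

section -- Pool.Agent.Helper44_LQF.USM

/-!
# Squad LQF, row USM: smoothness of the functional
-/

set_option autoImplicit false

open MeasureTheory ProbabilityTheory Function Filter

open scoped ENNReal BigOperators Topology NNReal ComplexOrder Matrix

noncomputable section

namespace Pool.Agent.LE.QF.H44

open Pool.Agent.Anderson hiding box mem_box card_box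
open Pool.Agent.Loc Pool.Agent.Mob Pool.Agent.Helper54.Bal
  Pool.Agent.Helper96.EXP Pool.Agent.BED
open Pool.Agent.LE.MN Pool.Agent.LE.CL Pool.Agent.LE.IR Pool.Agent.LE.QD

section smooth

variable {𝕜 : Type} [RCLike 𝕜] {E : Type} [NormedAddCommGroup E] [NormedSpace ℝ E]

/-- entrywise smoothness -/
def CM {a b : Type} (F : E → Matrix a b 𝕜) (q : E) : Prop :=
  ∀ i j, ContDiffAt ℝ 2 (fun r => F r i j) q

theorem CM.const {a b : Type} (A : Matrix a b 𝕜) (q : E) : CM (fun _ => A) q :=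
  fun _ _ => contDiffAt_const

theorem CM.add {a b : Type} {F H : E → Matrix a b 𝕜} {q : E} (hF : CM F q) (hH : CM H q) :
    CM (fun r => F r + H r) q := fun i j => (hF i j).add (hH i j)

theorem CM.sub {a b : Type} {F H : E → Matrix a b 𝕜} {q : E} (hF : CM F q) (hH : CM H q) :
    CM (fun r => F r - H r) q := fun i j => (hF i j).sub (hH i j)

theorem CM.smul {a b : Type} {F : E → Matrix a b 𝕜} {f : E → 𝕜} {q : E}
    (hf : ContDiffAt ℝ 2 f q) (hF : CM F q) :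
    CM (fun r => f r • F r) q := fun i j => hf.mul (hF i j)

theorem CM.mul {a b c : Type} [Fintype b] {F : E → Matrix a b 𝕜} {H : E → Matrix b c 𝕜} {q : E}
    (hF : CM F q) (hH : CM H q) : CM (fun r => F r * H r) q := by
  intro i j
  simp only [Matrix.mul_apply]
  exact ContDiffAt.sum fun k _ => (hF i k).mul (hH k j)

theorem CM.pow {a : Type} [Fintype a] [DecidableEq a] {F : E → Matrix a a 𝕜} {q : E}
    (hF : CM F q) (n : ℕ) : CM (fun r => F r ^ n) q := by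
  induction n with
  | zero => simp only [pow_zero]; exact CM.const _ _
  | succ n ih => simp only [pow_succ]; exact ih.mul hF

theorem CM.diag {a : Type} [DecidableEq a] {f : E → a → 𝕜} {q : E}
    (hf : ∀ i, ContDiffAt ℝ 2 (fun r => f r i) q) : CM (fun r => Matrix.diagonal (f r)) q := by
  intro i j
  by_cases h : i = j
  · subst h
    simp only [Matrix.diagonal_apply_eq]
    exact hf i
  · simp only [Matrix.diagonal_apply_ne _ h]
    exact contDiffAt_const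

theorem CM.trace {a : Type} [Fintype a] {F : E → Matrix a a 𝕜} {q : E} (hF : CM F q) :
    ContDiffAt ℝ 2 (fun r => Matrix.trace (F r)) q := by
  unfold Matrix.trace
  exact ContDiffAt.sum fun k _ => hF k k

theorem CM.mulVec {a b : Type} [Fintype b] {F : E → Matrix a b 𝕜} {f : E → b → 𝕜} {q : E}
    (hF : CM F q) (hf : ∀ i, ContDiffAt ℝ 2 (fun r => f r i) q) (i : a) :
    ContDiffAt ℝ 2 (fun r => (F r *ᵥ f r) i) q := by
  simp only [Matrix.mulVec, dotProduct]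
  exact ContDiffAt.sum fun k _ => (hF i k).mul (hf k)

end smooth

theorem CM.star {E : Type} [NormedAddCommGroup E] [NormedSpace ℝ E] {a b : Type}
    {F : E → Matrix a b ℂ} {q : E} (hF : CM F q) : CM (fun r => (F r)ᴴ) q := by
  intro i j
  simp only [Matrix.conjTranspose_apply]
  exact (Complex.conjCLE.contDiff.contDiffAt (x := F q j i)).comp q (hF j i)

theorem nsqC {E : Type} [NormedAddCommGroup E] [NormedSpace ℝ E] {f : E → ℂ} {q : E}
    (hf : ContDiffAt ℝ 2 f q) : ContDiffAt ℝ 2 (fun r => ‖f r‖ ^ 2) q := hf.norm_sq ℝ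

theorem ofRealC {E : Type} [NormedAddCommGroup E] [NormedSpace ℝ E] {f : E → ℝ} {q : E}
    (hf : ContDiffAt ℝ 2 f q) : ContDiffAt ℝ 2 (fun r => ((f r : ℝ) : ℂ)) q :=
  (Complex.ofRealCLM.contDiff.contDiffAt (x := f q)).comp q hf

/-- a function with smooth entries has a jet -/
theorem CM.hm {ι : Type} [Fintype ι] [DecidableEq ι] {𝕜 : Type} [RCLike 𝕜] {a b : Type}
    {F : ℝ × (ι → ℝ) → Matrix a b 𝕜} {q : ℝ × (ι → ℝ)} (hF : CM F q) :
    HM F q (F q) (fun c i j => dC c (fun r => F r i j) q) (fun i j => LL (fun r => F r i j) q) :=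
  fun i j => ⟨hF i j, rfl, fun _ => rfl, rfl⟩

theorem CM.inv (jma : JmaStmt) {ι : Type} [Fintype ι] [DecidableEq ι] {𝕜 : Type} [RCLike 𝕜]
    {n : Type} [Fintype n] [DecidableEq n] {F : ℝ × (ι → ℝ) → Matrix n n 𝕜} {q : ℝ × (ι → ℝ)}
    (hF : CM F q) (hu : IsUnit (F q).det) : CM (fun r => (F r)⁻¹) q := fun i j =>
  ((((jma ι 𝕜 q).2 n F (F q) _ _ hF.hm).1 hu) i j).sm

/-- the trace of the power is at least one if `1 - Y` is singular -/
theorem tr_ge {X : Type} [Fintype X] [DecidableEq X] (Y : Matrix X X ℂ) (hY : (1 - Y).det = 0)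
    (j : ℕ) : 1 ≤ (Matrix.trace ((Y * Yᴴ) ^ j)).re := by
  have hd : (1 - Yᴴ).det = 0 := by
    have h1 : (1 - Yᴴ) = (1 - Y)ᴴ := by
      rw [Matrix.conjTranspose_sub, Matrix.conjTranspose_one]
    rw [h1, Matrix.det_conjTranspose, hY, star_zero]
  obtain ⟨v, hv0, hv⟩ := Matrix.exists_mulVec_eq_zero_iff.mpr hd
  have hv1 : Yᴴ *ᵥ v = v := by
    rw [Matrix.sub_mulVec, Matrix.one_mulVec, sub_eq_zero] at hv
    exact hv.symm
  have hps : (Y * Yᴴ).PosSemidef := Matrix.posSemidef_self_mul_conjTranspose Y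
  obtain ⟨U, l, hU1, hU2, hP, hl⟩ := exists_diag hps.isHermitian
  have hl0 : ∀ i, 0 ≤ l i := fun i => by rw [hl]; exact hps.eigenvalues_nonneg i
  have htr : (Matrix.trace ((Y * Yᴴ) ^ j)).re = ∑ i, l i ^ j := by
    rw [hP, diag_pow hU2 hU1, Matrix.trace_mul_comm, ← Matrix.mul_assoc, hU2, Matrix.one_mul,
      Matrix.trace_diagonal, Complex.re_sum]
    simp only [Complex.ofReal_re]
  by_contra hcon
  rw [htr, not_le] at hcon
  have hl1 : ∀ i, l i < 1 := by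
    intro i
    have h1 : l i ^ j ≤ ∑ i, l i ^ j :=
      Finset.single_le_sum (f := fun i => l i ^ j) (fun k _ => pow_nonneg (hl0 k) j)
        (Finset.mem_univ i)
    by_contra h2
    rw [not_lt] at h2
    have h3 : 1 ≤ l i ^ j := one_le_pow₀ h2
    linarith only [hcon, h1, h3]
  have hUt : (Uᴴ)ᴴ * Uᴴ = 1 := by rw [Matrix.conjTranspose_conjTranspose, hU1]
  have e1 : star v ⬝ᵥ ((Y * Yᴴ) *ᵥ v) = (nsq v : ℂ) := by
    rw [← Matrix.mulVec_mulVec, hv1, Matrix.dotProduct_mulVec]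
    have h2 : star v ᵥ* Y = star v := by
      have h3 := congrArg star hv1
      rw [Matrix.star_mulVec, Matrix.conjTranspose_conjTranspose] at h3
      exact h3
    rw [h2, star_dot_self]
  have e2 : star v ⬝ᵥ ((Y * Yᴴ) *ᵥ v) = ((∑ i, l i * ‖(Uᴴ *ᵥ v) i‖ ^ 2 : ℝ) : ℂ) := by
    rw [hP, ← Matrix.mulVec_mulVec, ← Matrix.mulVec_mulVec, Matrix.dotProduct_mulVec]
    have h2 : star v ᵥ* U = star (Uᴴ *ᵥ v) := by
      rw [Matrix.star_mulVec, Matrix.conjTranspose_conjTranspose]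
    rw [h2]
    simp only [dotProduct, Matrix.mulVec_diagonal]
    push_cast
    apply Finset.sum_congr rfl
    intro i _
    have := Complex.mul_conj ((Uᴴ *ᵥ v) i)
    rw [Complex.normSq_eq_norm_sq] at this
    rw [Pi.star_apply]
    have h3 : star ((Uᴴ *ᵥ v) i) * ((l i : ℂ) * (Uᴴ *ᵥ v) i) =
        (l i : ℂ) * ((Uᴴ *ᵥ v) i * (starRingEnd ℂ) ((Uᴴ *ᵥ v) i)) := by
      rw [starRingEnd_apply]
      ring
    rw [h3, this]
    push_cast
    ring
  have e3 : nsq v = ∑ i, l i * ‖(Uᴴ *ᵥ v) i‖ ^ 2 := by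
    have := e1.symm.trans e2
    exact_mod_cast this
  have e4 : nsq (Uᴴ *ᵥ v) = nsq v := nsq_mulVec_unitary hUt v
  have hpos : 0 < nsq (Uᴴ *ᵥ v) := by
    rw [e4]
    obtain ⟨i, hi⟩ := Function.ne_iff.mp hv0
    unfold nsq
    apply Finset.sum_pos' (fun k _ => by positivity)
    exact ⟨i, Finset.mem_univ i, by
      have : 0 < ‖v i‖ := norm_pos_iff.mpr hi
      positivity⟩
  have hex : ∃ i, (Uᴴ *ᵥ v) i ≠ 0 := by
    by_contra h
    push Not at h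
    have : nsq (Uᴴ *ᵥ v) = 0 := by
      unfold nsq
      exact Finset.sum_eq_zero fun i _ => by rw [h i]; simp
    linarith only [hpos, this]
  have hlt : ∑ i, l i * ‖(Uᴴ *ᵥ v) i‖ ^ 2 < nsq (Uᴴ *ᵥ v) := by
    unfold nsq
    apply Finset.sum_lt_sum
    · intro i _
      have := (hl1 i).le
      nlinarith only [sq_nonneg ‖(Uᴴ *ᵥ v) i‖, this]
    · obtain ⟨i, hi⟩ := hex
      refine ⟨i, Finset.mem_univ i, ?_⟩
      have h1 : 0 < ‖(Uᴴ *ᵥ v) i‖ := norm_pos_iff.mpr hi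
      have h2 := hl1 i
      have h3 : 0 < ‖(Uᴴ *ᵥ v) i‖ ^ 2 := by positivity
      nlinarith only [h2, h3]
  rw [e4, ← e3] at hlt
  exact lt_irrefl _ hlt

/-- the Laplacian is nonnegative -/
theorem qf_Dl {X : Type} [Fintype X] [DecidableEq X] (K : Matrix X X ℝ)
    (hs : ∀ a b, K a b = K b a) (h0 : ∀ a b, 0 ≤ K a b) (f : X → ℝ) : 0 ≤ qf (Dl K) f := by
  have h1 : qf (Dl K) f = ∑ a, ∑ b, K a b * (f a ^ 2 - f a * f b) := by
    unfold qf Dl
    apply Finset.sum_congr rfl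
    intro a _
    rw [Matrix.sub_mulVec, Pi.sub_apply, Matrix.mulVec_diagonal]
    simp only [Matrix.mulVec, dotProduct]
    rw [Finset.sum_mul, ← Finset.sum_sub_distrib, Finset.mul_sum]
    apply Finset.sum_congr rfl
    intro b _
    ring
  have h2 : ∑ a, ∑ b, K a b * (f a ^ 2 - f a * f b) =
      ∑ a, ∑ b, K a b * (f b ^ 2 - f a * f b) := by
    rw [Finset.sum_comm]
    apply Finset.sum_congr rfl
    intro a _
    apply Finset.sum_congr rfl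
    intro b _
    rw [hs a b]
    ring
  have h3 : 2 * qf (Dl K) f = ∑ a, ∑ b, K a b * (f a - f b) ^ 2 := by
    have h5 : 2 * qf (Dl K) f = (∑ a, ∑ b, K a b * (f a ^ 2 - f a * f b)) +
        ∑ a, ∑ b, K a b * (f b ^ 2 - f a * f b) := by
      rw [← h2, ← h1]
      ring
    rw [h5, ← Finset.sum_add_distrib]
    apply Finset.sum_congr rfl
    intro a _
    rw [← Finset.sum_add_distrib]
    apply Finset.sum_congr rfl
    intro b _
    ring
  have h4 : 0 ≤ ∑ a, ∑ b, K a b * (f a - f b) ^ 2 :=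
    Finset.sum_nonneg fun a _ => Finset.sum_nonneg fun b _ => mul_nonneg (h0 a b) (sq_nonneg _)
  linarith

theorem usm (jma : JmaStmt) (wab : WabStmt) (nnu : NnuStmt) (rsj : RsjStmt) : UsmStmt := by
  intro d M _ D c₁ C₁ c₀ k₀ q hc₁ hc₀ hA hq0 hqT
  have hη := hA.hT.2.1
  have hm : 0 < D.m.im := lt_of_lt_of_le hc₁ hA.hm.1
  have hkp : 0 < D.kp q.1 := by
    have h1 : 0 ≤ (D.T - q.1) * D.m.im := mul_nonneg (by linarith only [hqT]) hm.le
    unfold Dat.kp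
    linarith
  obtain ⟨hJ, _, _, hkt, _, hLs, _⟩ := rsj d M D c₁ C₁ c₀ k₀ q hc₁ hA hkp
  have hta : 0 < D.ta q.1 := div_pos hkp hm
  have hε : 0 < D.ε₁ := lt_of_lt_of_le hA.hδ.1 hA.hδ.2.1
  have hε2 : D.ε₁ ≤ 1 / 2 := le_trans hA.hδ.2.2 hc₀
  -- smoothness of the entries
  have cG : CM D.G q := fun a b => (hJ.hG a b).sm
  have cta : ContDiffAt ℝ 2 (fun r : ℝ × (Tor d M → ℝ) => D.ta r.1) q :=
    hJ.ht.1.comp q contDiffAt_fst
  have cLs : ContDiffAt ℝ 2 (fun r : ℝ × (Tor d M → ℝ) => D.Ls r.1) q :=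
    hLs.comp q contDiffAt_fst
  have ctaC := ofRealC cta
  have cBB : CM (fun r => BB (D.G r)) q := fun a b => (cG a b).pow 2
  have cKK : CM (fun r => KK (D.G r)) q := fun a b => nsqC (cG a b)
  have cY : CM D.Y q := CM.smul ctaC cBB
  have cmu : ∀ a, ContDiffAt ℝ 2 (fun r => D.mu r a) q := fun a =>
    (cG a a).sub contDiffAt_const
  have cU3 : ContDiffAt ℝ 2 D.U3 q := by
    have h1 := (((cY.mul cY.star).pow D.j)).trace
    have h2 := (Complex.reCLM.contDiff.contDiffAt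
      (x := (fun r => Matrix.trace ((D.Y r * (D.Y r)ᴴ) ^ D.j)) q)).comp q h1
    exact h2.div_const _
  by_cases hu : IsUnit (1 - D.Y q).det
  · right
    have cTh : CM D.Th q := CM.inv jma ((CM.const _ q).sub cY) hu
    have cph : ∀ a, ContDiffAt ℝ 2 (fun r => D.ph r a) q := fun a => cTh.mulVec cmu a
    have cU1 : ContDiffAt ℝ 2 D.U1 q :=
      ContDiffAt.sum fun a _ => ((nsqC (cph a)).div_const _).pow _
    have cXh : CM D.Xh q :=
      (cG.add (CM.smul ctaC ((cG.mul (CM.diag cph)).mul cG))).sub (CM.const _ q)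
    have cU2 : ContDiffAt ℝ 2 D.U2 q :=
      ContDiffAt.sum fun a _ => ContDiffAt.sum fun b _ => ((nsqC (cXh a b)).div_const _).pow _
    have cLa : ∀ a, ContDiffAt ℝ 2 (fun r => D.La r a) q := fun a =>
      ContDiffAt.sum fun b _ => (cKK a b).pow 2
    have hLs0 : D.Ls q.1 ≠ 0 := by
      have h1 : 0 < D.L₀ := by linarith only [hA.hj.2.2.1, hε, hε2]
      have h2 : 0 < D.N := by linarith only [hA.hj.2.2.2.1, hε, hε2]
      have h3 := hA.hj.2.2.2.2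
      have h4 := hA.hδ.1
      unfold Dat.Ls
      positivity
    have cU4 : ContDiffAt ℝ 2 D.U4 q :=
      ContDiffAt.sum fun a _ => ((cLa a).div cLs hLs0).pow _
    have hKs : ∀ a b, KK (D.G q) a b = KK (D.G q) b a := fun a b => by
      unfold KK
      rw [hJ.hs a b]
    have hK0 : ∀ a b, 0 ≤ KK (D.G q) a b := fun a b => by
      unfold KK
      positivity
    have hXs : ∀ a b, D.X q a b = D.X q b a := by
      intro a b
      show D.ta q.1 * Dl (KK (D.G q)) a b = D.ta q.1 * Dl (KK (D.G q)) b a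
      congr 1
      unfold Dl
      rw [Matrix.sub_apply, Matrix.sub_apply, hKs a b]
      congr 1
      by_cases h : a = b
      · subst h; rfl
      · rw [Matrix.diagonal_apply_ne _ h, Matrix.diagonal_apply_ne _ (Ne.symm h)]
    have hX0 : ∀ f, 0 ≤ qf (D.X q) f := by
      intro f
      have h1 : qf (D.X q) f = D.ta q.1 * qf (Dl (KK (D.G q))) f := by
        unfold qf Dat.X
        rw [Finset.mul_sum]
        apply Finset.sum_congr rfl
        intro a _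
        rw [Matrix.smul_mulVec, Pi.smul_apply, smul_eq_mul]
        ring
      rw [h1]
      exact mul_nonneg hta.le (qf_Dl _ hKs hK0 f)
    obtain ⟨hu1, hu2, _⟩ := wab (Tor d M) (D.X q) D.S D.e₀ D.e₁ (D.ta q.1) D.ϖ D.p hXs hX0
      hA.hS.1 hA.hS.2.1 (by linarith only [hA.he.1, hA.he.2.1, hε, hε2]) (by linarith only [hA.he.1, hε, hε2]) hta.le
      hA.hϖ.1 (by linarith only [hA.hj.2.1])
    have cX : CM D.X q := CM.smul cta
      (CM.sub (CM.diag fun a => ContDiffAt.sum fun b _ => cKK a b) cKK)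
    have cW : CM D.W q := CM.inv jma ((cX.add (CM.const _ q)).add (CM.const _ q)) hu2
    have cA : CM (fun r : ℝ × (Tor d M → ℝ) => (D.A r.1)⁻¹) q :=
      CM.inv jma ((CM.const _ q).add (CM.smul cta (CM.const _ q))) hu1
    have cU5 : ContDiffAt ℝ 2 D.U5 q := ((cA.mul cW).pow _).trace
    exact (((cU1.add cU2).add cU3).add cU4).add cU5
  · left
    have hdet : (1 - D.Y q).det = 0 := by
      by_contra h
      exact hu (isUnit_iff_ne_zero.mpr h)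
    have htr := tr_ge (D.Y q) hdet D.j
    have hU3 : 1 < D.U3 q := by
      have h1 : D.ε₁ ^ (2 * D.j) < 1 := pow_lt_one₀ hε.le (by linarith only [hε, hε2])
        (by have := hA.hj.1; omega)
      have h2 : 0 < D.ε₁ ^ (2 * D.j) := by positivity
      unfold Dat.U3
      rw [lt_div_iff₀ h2]
      linarith
    have h1 : ∀ᶠ r in 𝓝 q, 1 < D.U3 r := cU3.continuousAt.eventually_const_lt hU3
    have h2 : ∀ᶠ r : ℝ × (Tor d M → ℝ) in 𝓝 q, 0 < D.kp r.1 := by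
      have hc : Continuous fun r : ℝ × (Tor d M → ℝ) => D.kp r.1 := by
        unfold Dat.kp
        fun_prop
      exact hc.continuousAt.eventually_const_lt hkp
    filter_upwards [h1, h2] with r hr1 hr2
    obtain ⟨n1, n2, n3, n4, n5⟩ := nnu d M D c₁ C₁ c₀ k₀ r hc₁ hA hr2
    unfold Dat.U
    linarith

end Pool.Agent.LE.QF.H44
end
end -- Pool.Agent.Helper44_LQF.USM

section -- Pool.Agent.Helper19_LQZ.USM

/-!
# Squad LQZ, row USM: smoothness of the functional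
-/

set_option autoImplicit false

open MeasureTheory ProbabilityTheory Function Filter

open scoped ENNReal BigOperators Topology NNReal ComplexOrder Matrix

noncomputable section

namespace Pool.Agent.LE.QZ.H19

open Pool.Agent.Anderson hiding box mem_box card_box
open Pool.Agent.Loc Pool.Agent.Mob Pool.Agent.Helper54.Bal
  Pool.Agent.Helper96.EXP Pool.Agent.BED
open Pool.Agent.LE.MN Pool.Agent.LE.CL Pool.Agent.LE.IR Pool.Agent.LE.QD Pool.Agent.LE.QF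
open Pool.Agent.LE.QF.H44 (CM nsqC ofRealC qf_Dl)

theorem n2_add_le {X : Type} [Fintype X] (f g : X → ℂ) :
    n2 (f + g) ≤ 2 * n2 f + 2 * n2 g := by
  unfold n2
  rw [Finset.mul_sum, Finset.mul_sum, ← Finset.sum_add_distrib]
  apply Finset.sum_le_sum
  intro x _
  have h1 : ‖(f + g) x‖ ≤ ‖f x‖ + ‖g x‖ := norm_add_le _ _
  have h2 := norm_nonneg ((f + g) x)
  nlinarith [sq_nonneg (‖f x‖ - ‖g x‖), norm_nonneg (f x), norm_nonneg (g x)]

theorem n2_neg {X : Type} [Fintype X] (f : X → ℂ) : n2 (-f) = n2 f := by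
  unfold n2
  simp

/-- near a singular point the part of `Ξ` is large -/
theorem tr_Xi {X : Type} [Fintype X] [DecidableEq X] (Y : Matrix X X ℂ) (u : X → ℂ)
    (hu : 0 < n2 u) (hY : n2 ((1 - Y) *ᵥ u) ≤ 1 / 4 * n2 u) (j : ℕ) (hj : 1 ≤ j) :
    (99 / 100 : ℝ) ^ (2 * j) ≤
      (Matrix.trace ((((1 - Y)⁻¹ - 1) * ((1 - Y)⁻¹ - 1)ᴴ) ^ j)).re := by
  by_contra hcon
  rw [not_le] at hcon
  have hn := Pool.Agent.LE.QF.H5.n2_tr ((1 - Y)⁻¹ - 1) (99 / 100) j (by norm_num) hj hcon.le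
  by_cases hdet : IsUnit (1 - Y).det
  · have h1 := hn ((1 - Y) *ᵥ u)
    have h2 : ((1 - Y)⁻¹ - 1) *ᵥ ((1 - Y) *ᵥ u) = u - (1 - Y) *ᵥ u := by
      rw [Matrix.sub_mulVec, Matrix.mulVec_mulVec, Matrix.nonsing_inv_mul _ hdet,
        Matrix.one_mulVec, Matrix.one_mulVec]
    rw [h2] at h1
    have h3 := n2_add_le (u - (1 - Y) *ᵥ u) ((1 - Y) *ᵥ u)
    rw [sub_add_cancel] at h3
    nlinarith only [hu, hY, h1, h3]
  · have h1 := hn u
    rw [Matrix.nonsing_inv_apply_not_isUnit _ hdet, zero_sub, Matrix.neg_mulVec,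
      Matrix.one_mulVec, n2_neg] at h1
    nlinarith only [hu, h1]

theorem usm (jma : JmaStmt) (wab : WabStmt) (nnu : NnuStmt) (rsj : RsjStmt) : UsmStmt := by
  intro d M _ D c₁ C₁ c₀ q hc₁ _ hA hq0 hqT
  have hη := hA.hT.2.1
  have hm : 0 < D.m.im := lt_of_lt_of_le hc₁ hA.hm.1
  have hkp : 0 < D.kp q.1 := by
    have h1 : 0 ≤ (D.T - q.1) * D.m.im := mul_nonneg (by linarith only [hqT]) hm.le
    unfold Dat.kp
    linarith
  obtain ⟨hJ, _, _, hkt, _, hLs, _⟩ := rsj d M D c₁ C₁ c₀ q hc₁ hA hkp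
  have hta : 0 < D.ta q.1 := div_pos hkp hm
  -- smoothness of the entries
  have cG : CM D.G q := fun a b => (hJ.hG a b).sm
  have cta : ContDiffAt ℝ 2 (fun r : ℝ × (Tor d M → ℝ) => D.ta r.1) q :=
    hJ.ht.1.comp q contDiffAt_fst
  have cLs : ContDiffAt ℝ 2 (fun r : ℝ × (Tor d M → ℝ) => D.Ls r.1) q :=
    hLs.comp q contDiffAt_fst
  have ctaC := ofRealC cta
  have cBB : CM (fun r => BB (D.G r)) q := fun a b => (cG a b).pow 2
  have cKK : CM (fun r => KK (D.G r)) q := fun a b => nsqC (cG a b)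
  have cY : CM D.Y q := CM.smul ctaC cBB
  have cmu : ∀ a, ContDiffAt ℝ 2 (fun r => D.mu r a) q := fun a =>
    (cG a a).sub contDiffAt_const
  by_cases hu : IsUnit (1 - D.Y q).det
  · right
    have cTh : CM D.Th q := CM.inv jma ((CM.const _ q).sub cY) hu
    have cXi : CM D.Xi q := cTh.sub (CM.const _ q)
    have cU3 : ContDiffAt ℝ 2 D.U3 q := by
      have h1 := (((cXi.mul cXi.star).pow D.j)).trace
      have h2 := (Complex.reCLM.contDiff.contDiffAt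
        (x := (fun r => Matrix.trace ((D.Xi r * (D.Xi r)ᴴ) ^ D.j)) q)).comp q h1
      exact h2.div_const _
    have cph : ∀ a, ContDiffAt ℝ 2 (fun r => D.ph r a) q := fun a => cTh.mulVec cmu a
    have cU1 : ContDiffAt ℝ 2 D.U1 q :=
      ContDiffAt.sum fun a _ => ((nsqC (cph a)).div_const _).pow _
    have cXh : CM D.Xh q :=
      (cG.add (CM.smul ctaC ((cG.mul (CM.diag cph)).mul cG))).sub (CM.const _ q)
    have cU2 : ContDiffAt ℝ 2 D.U2 q :=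
      ContDiffAt.sum fun a _ => ContDiffAt.sum fun b _ => ((nsqC (cXh a b)).div_const _).pow _
    have cLa : ∀ a, ContDiffAt ℝ 2 (fun r => D.La r a) q := fun a =>
      ContDiffAt.sum fun b _ => (cKK a b).pow 2
    have hLs0 : D.Ls q.1 ≠ 0 := by
      have h1 : 0 < D.L₀ := by linarith only [hA.hj.2.2.1]
      have h2 : 0 < D.N := by linarith [hA.hj.2.2.2.1]
      have h3 := hA.hj.2.2.2.2
      have h4 := hA.hδ.1
      unfold Dat.Ls
      positivity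
    have cU4 : ContDiffAt ℝ 2 D.U4 q :=
      ContDiffAt.sum fun a _ => ((cLa a).div cLs hLs0).pow _
    have hKs : ∀ a b, KK (D.G q) a b = KK (D.G q) b a := fun a b => by
      unfold KK
      rw [hJ.hs a b]
    have hK0 : ∀ a b, 0 ≤ KK (D.G q) a b := fun a b => by
      unfold KK
      positivity
    have hXs : ∀ a b, D.X q a b = D.X q b a := by
      intro a b
      show D.ta q.1 * Dl (KK (D.G q)) a b = D.ta q.1 * Dl (KK (D.G q)) b a
      congr 1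
      unfold Dl
      rw [Matrix.sub_apply, Matrix.sub_apply, hKs a b]
      congr 1
      by_cases h : a = b
      · subst h; rfl
      · rw [Matrix.diagonal_apply_ne _ h, Matrix.diagonal_apply_ne _ (Ne.symm h)]
    have hX0 : ∀ f, 0 ≤ qf (D.X q) f := by
      intro f
      have h1 : qf (D.X q) f = D.ta q.1 * qf (Dl (KK (D.G q))) f := by
        unfold QF.qf Dat.X
        rw [Finset.mul_sum]
        apply Finset.sum_congr rfl
        intro a _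
        rw [Matrix.smul_mulVec, Pi.smul_apply, smul_eq_mul]
        ring
      rw [h1]
      exact mul_nonneg hta.le (qf_Dl _ hKs hK0 f)
    obtain ⟨hu1, hu2, _⟩ := wab (Tor d M) (D.X q) D.S D.e₀ D.e₁ (D.ta q.1) D.ϖ D.p hXs hX0
      hA.hS.1 hA.hS.2.1 (by linarith only [hA.he.1, hA.he.2.1]) (by linarith [hA.he.1]) hta.le
      hA.hϖ.1 (by linarith only [hA.hj.2.1])
    have cX : CM D.X q := CM.smul cta
      (CM.sub (CM.diag fun a => ContDiffAt.sum fun b _ => cKK a b) cKK)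
    have cW : CM D.W q := CM.inv jma ((cX.add (CM.const _ q)).add (CM.const _ q)) hu2
    have cA : CM (fun r : ℝ × (Tor d M → ℝ) => (D.A r.1)⁻¹) q :=
      CM.inv jma ((CM.const _ q).add (CM.smul cta (CM.const _ q))) hu1
    have cU5 : ContDiffAt ℝ 2 D.U5 q := ((cA.mul cW).pow _).trace
    have cqf : ∀ f : Tor d M → ℝ, ContDiffAt ℝ 2 (fun r => qf (D.X r) f) q := fun f =>
      ContDiffAt.sum fun a _ => contDiffAt_const.mul
        (cX.mulVec (f := fun _ => f) (fun _ => contDiffAt_const) a)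
    have cU6 : ContDiffAt ℝ 2 D.U6 q :=
      contDiffAt_const.mul (cta.mul ((cqf D.f₁).add (cqf D.f₂)))
    exact ((((cU1.add cU2).add cU3).add cU4).add cU5).add cU6
  · left
    have hdet : (1 - D.Y q).det = 0 := by
      by_contra h
      exact hu (isUnit_iff_ne_zero.mpr h)
    obtain ⟨u, hu0, huY⟩ := Matrix.exists_mulVec_eq_zero_iff.mpr hdet
    have hun : 0 < n2 u := by
      obtain ⟨i, hi⟩ := Function.ne_iff.mp hu0
      unfold n2
      apply Finset.sum_pos' (fun k _ => by positivity)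
      exact ⟨i, Finset.mem_univ i, by
        have : 0 < ‖u i‖ := norm_pos_iff.mpr hi
        positivity⟩
    have hc : ContinuousAt (fun r => n2 ((1 - D.Y r) *ᵥ u)) q := by
      have h1 : CM (fun r => 1 - D.Y r) q := (CM.const _ q).sub cY
      have h2 : ContDiffAt ℝ 2 (fun r => n2 ((1 - D.Y r) *ᵥ u)) q :=
        ContDiffAt.sum fun a _ =>
          nsqC (h1.mulVec (f := fun _ => u) (fun _ => contDiffAt_const) a)
      exact h2.continuousAt
    have h0 : n2 ((1 - D.Y q) *ᵥ u) < 1 / 4 * n2 u := by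
      rw [huY]
      have : n2 (0 : Tor d M → ℂ) = 0 := by
        unfold n2
        simp
      rw [this]
      positivity
    have h1 : ∀ᶠ r in 𝓝 q, n2 ((1 - D.Y r) *ᵥ u) < 1 / 4 * n2 u :=
      hc.eventually_lt_const h0
    have h2 : ∀ᶠ r : ℝ × (Tor d M → ℝ) in 𝓝 q, 0 < D.kp r.1 := by
      have hc : Continuous fun r : ℝ × (Tor d M → ℝ) => D.kp r.1 := by
        unfold Dat.kp
        fun_prop
      exact hc.continuousAt.eventually_const_lt hkp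
    filter_upwards [h1, h2] with r hr1 hr2
    obtain ⟨n1, n2, n3, n4, n5, n6⟩ := nnu d M D c₁ C₁ c₀ r hc₁ hA hr2
    have h3 : 1 ≤ D.U3 r := by
      have h4 := tr_Xi (D.Y r) u hun hr1.le D.j (by linarith only [hA.hj.1])
      unfold Dat.U3
      rw [le_div_iff₀ (by positivity), one_mul]
      exact h4
    unfold Dat.U
    linarith

end Pool.Agent.LE.QZ.H19
end
end -- Pool.Agent.Helper19_LQZ.USM

section -- Pool.Agent.Helper5_LQX.GOD

/-! # GOD: a point with `U < 1` is good -/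

set_option autoImplicit false

open MeasureTheory ProbabilityTheory Function Filter

open scoped ENNReal BigOperators Topology NNReal ComplexOrder Matrix

noncomputable section

namespace Pool.Agent.LE.QX.H5

open Pool.Agent.Anderson hiding box mem_box card_box
open Pool.Agent.Loc Pool.Agent.Mob Pool.Agent.Helper54.Bal
  Pool.Agent.Helper96.EXP Pool.Agent.BED
open Pool.Agent.LE.MN Pool.Agent.LE.CL Pool.Agent.LE.IR Pool.Agent.LE.QD Pool.Agent.LE.QF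
open Pool.Agent.LE.QF.H5 (n2_nn n2_adj n2_tr unit_of entry_le qf_add qf_smul qf_one qf_P0 qf_Dl
  Dl_symm Dl_nonneg card_tor lt_one_of_pow_sum)

theorem inv_lower {X : Type} [Fintype X] [DecidableEq X] (S : Matrix X X ℝ) (e τ : ℝ)
    (hs : ∀ a b, S a b = S b a) (h0 : ∀ f, 0 ≤ qf S f) (he : 1 ≤ e) (hτ : 0 ≤ τ)
    (hu : IsUnit (e • (1 : Matrix X X ℝ) + τ • S).det) (f : X → ℝ) :
    e⁻¹ * ∑ a, f a ^ 2 - τ * qf S f ≤ qf (e • (1 : Matrix X X ℝ) + τ • S)⁻¹ f := by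
  obtain ⟨A, hA⟩ : ∃ A : Matrix X X ℝ, A = e • (1 : Matrix X X ℝ) + τ • S := ⟨_, rfl⟩
  rw [← hA] at hu ⊢
  have he0 : 0 < e := by linarith
  have hei : 0 < e⁻¹ := inv_pos.2 he0
  have hei1 : e⁻¹ ≤ 1 := inv_le_one_of_one_le₀ he
  have hq : ∀ v, qf A v = e * ∑ a, v a ^ 2 + τ * qf S v := fun v => by
    rw [hA, qf_add, qf_smul, qf_smul, qf_one]
  have hAt : Aᵀ = A := by
    have hSt : Sᵀ = S := by
      ext a b
      exact hs b a
    rw [hA, Matrix.transpose_add, Matrix.transpose_smul, Matrix.transpose_smul,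
      Matrix.transpose_one, hSt]
  obtain ⟨u, hud⟩ : ∃ u : X → ℝ, u = A⁻¹ *ᵥ f := ⟨_, rfl⟩
  have hAu : A *ᵥ u = f := by
    rw [hud, Matrix.mulVec_mulVec, Matrix.mul_nonsing_inv _ hu, Matrix.one_mulVec]
  obtain ⟨g, hg⟩ : ∃ g : X → ℝ, g = e⁻¹ • f := ⟨_, rfl⟩
  have h1 : 0 ≤ qf A (u - g) := by
    rw [hq]
    have := h0 (u - g)
    have h2 : 0 ≤ ∑ a, (u - g) a ^ 2 := Finset.sum_nonneg fun a _ => sq_nonneg _
    positivity
  have hqd : ∀ (B : Matrix X X ℝ) v, qf B v = v ⬝ᵥ (B *ᵥ v) := fun B v => rfl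
  have h2 : u ⬝ᵥ (A *ᵥ g) = f ⬝ᵥ g := by
    rw [Matrix.dotProduct_mulVec, ← Matrix.mulVec_transpose, hAt, hAu]
  have h3 : qf A (u - g) = f ⬝ᵥ u - 2 * (f ⬝ᵥ g) + qf A g := by
    rw [hqd, hqd, Matrix.mulVec_sub, sub_dotProduct, dotProduct_sub, dotProduct_sub, h2, hAu,
      dotProduct_comm u f, dotProduct_comm g f]
    ring
  have h4 : f ⬝ᵥ g = e⁻¹ * ∑ a, f a ^ 2 := by
    rw [hg, dotProduct_smul, smul_eq_mul]
    congr 1
    exact Finset.sum_congr rfl fun a _ => by ring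
  have h5 : qf A g = e⁻¹ * (∑ a, f a ^ 2) + τ * (e⁻¹ ^ 2 * qf S f) := by
    rw [hq]
    congr 1
    · rw [hg]
      simp only [Pi.smul_apply, smul_eq_mul, mul_pow, ← Finset.mul_sum]
      field_simp
    · rw [hqd, hqd, hg, Matrix.mulVec_smul, dotProduct_smul, smul_dotProduct, smul_eq_mul,
        smul_eq_mul]
      ring
  have h6 : qf A⁻¹ f = f ⬝ᵥ u := by rw [hqd, hud]
  rw [h3, h4, h5] at h1
  rw [h6]
  have h7 : e⁻¹ ^ 2 ≤ 1 := pow_le_one₀ hei.le hei1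
  have h8 : τ * (e⁻¹ ^ 2 * qf S f) ≤ τ * qf S f := by
    have h9 : e⁻¹ ^ 2 * qf S f ≤ 1 * qf S f := mul_le_mul_of_nonneg_right h7 (h0 f)
    rw [one_mul] at h9
    exact mul_le_mul_of_nonneg_left h9 hτ
  linarith only [h1, h8]

variable {d M : ℕ} [NeZero M]

theorem kp_pos {D : Dat d M} {c₁ C₁ c₀ : ℝ} (hc₁ : 0 < c₁) (hA : Adm D c₁ C₁ c₀)
    {t : ℝ} (ht : t ≤ D.T) : D.η ≤ D.kp t := by
  have h1 : 0 ≤ (D.T - t) * D.m.im :=
    mul_nonneg (sub_nonneg.2 ht) (hc₁.le.trans hA.hm.1)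
  simp only [Dat.kp]
  linarith

theorem mono {D : Dat d M} {c₁ C₁ c₀ c : ℝ} (hA : Adm D c₁ C₁ c) (h : c ≤ c₀) :
    Adm D c₁ C₁ c₀ :=
  ⟨hA.hT, hA.hm, hA.hfix, ⟨hA.hδ.1, hA.hδ.2.1, hA.hδ.2.2.trans h⟩,
    ⟨hA.hk.1, hA.hk.2.1.trans h, hA.hk.2.2⟩, hA.he, hA.hj, hA.h0, hA.hN,
    hA.hY, hA.hL, hA.hS, hA.hϖ, hA.hW⟩

theorem god (hN : NnuStmt) (hR : RsjStmt) (hC : GdcStmt) (hT : ThbStmt) (hW : WabStmt) :
    GodStmt := by
  intro c₁ C₁ hc₁ hC₁
  obtain ⟨c', C', hc'0, hc'2, hC'1, hgdc⟩ := hC c₁ C₁ hc₁ hC₁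
  have hc1i : 0 < 1 / c₁ := by positivity
  obtain ⟨C₀, hC₀⟩ : ∃ C₀ : ℝ, C₀ = C' + C₁ + 1 / c₁ + 2 := ⟨_, rfl⟩
  have hC₀1 : 1 ≤ C₀ := by rw [hC₀]; linarith only [hC₁, hc'0, hc'2, hC'1, hc1i]
  obtain ⟨c₀, hc₀⟩ : ∃ c₀ : ℝ, c₀ = min c' (1 / (2 * C₀)) := ⟨_, rfl⟩
  have hc₀0 : 0 < c₀ := by rw [hc₀]; positivity
  have hc₀c : c₀ ≤ c' := hc₀ ▸ min_le_left _ _
  have hc₀C : C₀ * c₀ ≤ 1 / 2 := by
    have h1 : c₀ ≤ 1 / (2 * C₀) := hc₀ ▸ min_le_right _ _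
    rw [le_div_iff₀ (by positivity)] at h1
    linarith only [h1]
  refine ⟨c₀, C₀, hc₀0, hc₀c.trans hc'2, hC₀1, ?_⟩
  intro d M _ D q hA hq0 hqT hU
  have hkp := kp_pos hc₁ hA hqT
  have hη := hA.hT.2.1
  have hkp0 : 0 < D.kp q.1 := lt_of_lt_of_le hη hkp
  obtain ⟨hu1, hu2, hu3, hu4, hu5⟩ := hN d M D c₁ C₁ c₀ q hc₁ hA hkp0
  obtain ⟨hJ, hward, hG0s, hkt, hkw, -, -⟩ := hR d M D c₁ C₁ c₀ q hc₁ hA hkp0
  obtain ⟨-, hkpw⟩ := hkw hq0 hqT
  have hU' : D.U1 q + D.U2 q + D.U3 q + D.U4 q + D.U5 q < 1 := hU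
  have hm0 : 0 < D.m.im := lt_of_lt_of_le hc₁ hA.hm.1
  have hδ0 := hA.hδ.1
  have hδc : D.δ ≤ c₀ := hA.hδ.2.1.trans hA.hδ.2.2
  have hε0 : 0 < D.ε₁ := lt_of_lt_of_le hδ0 hA.hδ.2.1
  have hε2 : D.ε₁ ≤ 1 / 2 := (hA.hδ.2.2.trans hc₀c).trans hc'2
  have hta0 : 0 < D.ta q.1 := div_pos hkp0 hm0
  have hj1 : 1 ≤ D.j := by have := hA.hj.1; omega
  -- U1
  have hφ : ∀ a, ‖D.ph q a‖ ≤ D.δ := by
    intro a
    have h1 : ∑ a, (‖D.ph q a‖ ^ 2 / D.δ ^ 2) ^ D.j < 1 := by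
      have : D.U1 q < 1 := by linarith
      exact this
    have h2 := lt_one_of_pow_sum _ _ (fun a => by positivity) h1 a
    rw [div_lt_one (by positivity)] at h2
    exact (abs_le_of_sq_le_sq' (by linarith : ‖D.ph q a‖ ^ 2 ≤ D.δ ^ 2) hδ0.le).2
  -- U2
  have hXh : ∀ a b, ‖D.Xh q a b‖ ≤ D.δ := by
    intro a b
    have h1 : ∑ a, ∑ b, (‖D.Xh q a b‖ ^ 2 / D.δ ^ 2) ^ D.j < 1 := by
      have : D.U2 q < 1 := by linarith
      exact this
    have h3 : ∑ b, (‖D.Xh q a b‖ ^ 2 / D.δ ^ 2) ^ D.j < 1 := by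
      refine lt_of_le_of_lt ?_ h1
      exact Finset.single_le_sum (f := fun a => ∑ b, (‖D.Xh q a b‖ ^ 2 / D.δ ^ 2) ^ D.j)
        (fun a _ => Finset.sum_nonneg fun b _ => by positivity) (Finset.mem_univ a)
    have h2 := lt_one_of_pow_sum _ _ (fun b => by positivity) h3 b
    rw [div_lt_one (by positivity)] at h2
    exact (abs_le_of_sq_le_sq' (by linarith : ‖D.Xh q a b‖ ^ 2 ≤ D.δ ^ 2) hδ0.le).2
  -- U3
  have hY : ∀ u, n2 (D.Y q *ᵥ u) ≤ D.ε₁ ^ 2 * n2 u := by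
    have h1 : (Matrix.trace ((D.Y q * (D.Y q)ᴴ) ^ D.j)).re / D.ε₁ ^ (2 * D.j) < 1 := by
      have : D.U3 q < 1 := by linarith
      exact this
    rw [div_lt_one (by positivity)] at h1
    exact n2_tr _ _ _ hε0.le hj1 h1.le
  have hunit : IsUnit (1 - D.Y q).det := unit_of _ _ hε0.le (by linarith only [hc'0, hc'2, hε2]) hY
  have hYd : D.Y q = ((D.ta q.1 : ℝ) : ℂ) • BB (D.G q) := rfl
  have hmu : ∀ a, D.mu q a = D.ph q a - D.ta q.1 * (BB (D.G q) *ᵥ D.ph q) a := by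
    intro a
    have h1 : (1 - D.Y q) *ᵥ D.ph q = D.mu q := by
      simp only [Dat.ph, Dat.Th]
      rw [Matrix.mulVec_mulVec, Matrix.mul_nonsing_inv _ hunit, Matrix.one_mulVec]
    rw [← h1, Matrix.sub_mulVec, Matrix.one_mulVec, hYd, Matrix.smul_mulVec]
    rfl
  -- GDC
  have hg := hgdc (Tor d M) (D.G q) D.G0 (D.ph q) D.m D.nr (D.kp q.1) (D.ta q.1) D.δ D.N hkp0
    (hkpw.trans hA.hT.2.2.1) hkt hA.hm.1 hA.hm.2 hδ0.le (hδc.trans hc₀c) hA.hj.2.2.2.1 hJ.hs hG0s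
    hward hmu hφ hXh hA.h0 (fun a b => by simp [Dat.nr]) hA.hN
  have hC'C : C' ≤ C₀ := by rw [hC₀]; linarith only [hC₁, hc'0, hc'2, hc1i]
  have hCd : C₀ * D.δ ≤ 1 / 2 := by
    have h1 : C₀ * D.δ ≤ C₀ * c₀ := mul_le_mul_of_nonneg_left hδc (by linarith only [hC₁, hc'0, hc'2, hC'1, hc1i, hC₀])
    linarith only [hc₀C, h1]
  have hG := Pool.Agent.LE.QF.H5.GdM.mono hg hC'C hCd
  -- rows
  have hrow : ∀ a, D.ta q.1 * ∑ b, ‖D.G q a b‖ ^ 2 ≤ 1 + C' * D.δ := by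
    intro a
    have := (abs_le.1 (hg.hk a)).2
    linarith
  have hYrow : ∀ a, ∑ b, ‖D.Y q a b‖ ≤ 1 + C' * D.δ := by
    intro a
    refine le_trans (le_of_eq ?_) (hrow a)
    rw [Finset.mul_sum]
    refine Finset.sum_congr rfl fun b _ => ?_
    rw [hYd, Matrix.smul_apply, smul_eq_mul, norm_mul, Complex.norm_real, Real.norm_eq_abs,
      abs_of_pos hta0, QF.BB, norm_pow]
  have hpow : (1 + C' * D.δ) ^ D.k ≤ 2 := by
    have h0 : 0 ≤ C' * D.δ := by positivity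
    have h1 : (1 + C' * D.δ) ^ D.k ≤ Real.exp (C' * D.δ) ^ D.k :=
      pow_le_pow_left₀ (by linarith only [hc'0, hc'2, h0]) (by linarith only [Real.add_one_le_exp (C' * D.δ)]) D.k
    rw [← Real.exp_nat_mul] at h1
    have h2 : (D.k : ℝ) * (C' * D.δ) ≤ Real.log 2 := by
      have h3 : (D.k : ℝ) * D.δ ≤ c₀ := hA.hk.2.1
      have h4 : C' * ((D.k : ℝ) * D.δ) ≤ C₀ * c₀ :=
        mul_le_mul hC'C h3 (by positivity) (by linarith only [hC₁, hc'0, hc'2, hC'1, hc1i, hC₀])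
      have h6 := Real.log_two_gt_d9
      have h7 : (D.k : ℝ) * (C' * D.δ) = C' * ((D.k : ℝ) * D.δ) := by ring
      linarith only [hc'0, hc'2, hc₀C, h4, h6]
    calc (1 + C' * D.δ) ^ D.k ≤ Real.exp (D.k * (C' * D.δ)) := h1
      _ ≤ Real.exp (Real.log 2) := Real.exp_le_exp.2 h2
      _ = 2 := Real.exp_log (by norm_num)
  have hthb := hT (Tor d M) (D.Y q) D.ε₁ (C' * D.δ) D.k hε0.le hε2 (by positivity) hpow
    (by rw [card_tor]; exact hA.hk.2.2) hY hYrow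
  -- U4
  have hLs0 : 0 < D.Ls q.1 := by
    have hL0 : 0 < D.L₀ := by linarith only [hA.hj.2.2.1, hc'0, hc'2]
    have hN0 : 0 < D.N := by linarith only [hA.hj.2.2.2.1, hc'0, hc'2]
    have hp0 := hA.hj.2.2.2.2
    simp only [Dat.Ls]
    have h1 : 0 ≤ D.π₀ / D.kp q.1 := by positivity
    have h2 : 0 ≤ D.δ ^ 4 / D.kp q.1 := by positivity
    have h3 : 0 < D.N + D.π₀ / D.kp q.1 + D.δ ^ 4 / D.kp q.1 := by linarith only [hN0, h1, h2]
    positivity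
  have hLa : ∀ a, D.La q a ≤ D.Ls q.1 := by
    intro a
    have h1 : ∑ a, (D.La q a / D.Ls q.1) ^ D.j < 1 := by
      have : D.U4 q < 1 := by linarith
      exact this
    have h2 := lt_one_of_pow_sum _ _ (fun a => div_nonneg
      (Finset.sum_nonneg fun b _ => by positivity) hLs0.le) h1 a
    rw [div_lt_one hLs0] at h2
    exact h2.le
  -- W
  have hKs : ∀ a b, KK (D.G q) a b = KK (D.G q) b a := fun a b => by
    simp only [KK]; rw [hJ.hs a b]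
  have hK0 : ∀ a b, 0 ≤ KK (D.G q) a b := fun a b => by simp only [KK]; positivity
  have hXd : D.X q = D.ta q.1 • Dl (KK (D.G q)) := rfl
  have hX0 : ∀ f, 0 ≤ qf (D.X q) f := fun f => by
    rw [hXd, qf_smul]
    exact mul_nonneg hta0.le (Dl_nonneg _ hKs hK0 f)
  have hXs : ∀ a b, D.X q a b = D.X q b a := fun a b => by
    rw [hXd, Matrix.smul_apply, Matrix.smul_apply, Dl_symm _ hKs a b]
  have he0 : 0 < D.e₀ := by linarith only [hA.he.1, hA.he.2.1, hc'0, hc'2]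
  have hp1 : 1 ≤ D.p := by have := hA.hj.2.1; omega
  obtain ⟨hAu, -, -, hab, -⟩ := hW (Tor d M) (D.X q) D.S D.e₀ 1 (D.ta q.1) D.ϖ D.p hXs hX0
    hA.hS.1 hA.hS.2.1 he0 one_pos hta0.le hA.hϖ.1 hp1
  have h5 : D.U5 q ≤ 1 := by linarith
  have hAf : ∀ f, qf (D.A q.1)⁻¹ f ≤
      qf (D.X q + P0 (Tor d M) + D.ϖ • (1 : Matrix (Tor d M) (Tor d M) ℝ)) f := (hab h5).2
  refine ⟨⟨rfl, rfl, hkp, hkpw, hta0, ?_, ?_⟩, hG, hunit, ?_, hφ, hmu, hLa, ?_, hAf, h5, ?_⟩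
  · -- ta ≤ C₀ kp
    have h1 : D.ta q.1 * c₁ ≤ D.kp q.1 := by
      rw [hkt]
      exact mul_le_mul_of_nonneg_left hA.hm.1 hta0.le
    have h2 : D.ta q.1 ≤ 1 / c₁ * D.kp q.1 := by
      rw [one_div, ← div_eq_inv_mul, le_div_iff₀ hc₁]
      exact h1
    have h3 : 1 / c₁ ≤ C₀ := by rw [hC₀]; linarith only [hC₁, hc'0, hc'2, hC'1]
    exact h2.trans (mul_le_mul_of_nonneg_right h3 hkp0.le)
  · have h3 : C₁ ≤ C₀ := by rw [hC₀]; linarith only [hc'0, hc'2, hC'1, hc1i]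
    rw [hkt, mul_comm]
    exact mul_le_mul_of_nonneg_right (hA.hm.2.trans h3) hta0.le
  · intro a
    exact hthb.2 a
  · intro u
    have h1 := hY u
    rw [hYd, Matrix.smul_mulVec] at h1
    have h2 : n2 (((D.ta q.1 : ℝ) : ℂ) • (BB (D.G q) *ᵥ u)) =
        D.ta q.1 ^ 2 * n2 (BB (D.G q) *ᵥ u) := by
      simp only [n2, Pi.smul_apply, smul_eq_mul, norm_mul, mul_pow, Complex.norm_real,
        Real.norm_eq_abs, sq_abs, Finset.mul_sum]
    rw [h2] at h1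
    rw [div_pow, div_mul_eq_mul_div, le_div_iff₀ (by positivity)]
    linarith
  · intro f
    have h1 := hAf f
    have he1 : 1 ≤ D.e₀ := by linarith only [hA.he.1, hA.he.2.1]
    have h2 := inv_lower D.S D.e₀ (D.ta q.1) hA.hS.1 hA.hS.2.1 he1 hta0.le hAu f
    have h2' : D.e₀⁻¹ * ∑ a, f a ^ 2 - D.ta q.1 * qf D.S f ≤ qf (D.A q.1)⁻¹ f := h2
    have h1' := h2'.trans h1
    rw [qf_add, qf_add, qf_smul D.ϖ, qf_one, hXd, qf_smul (D.ta q.1) (Dl _), qf_Dl] at h1'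
    have h3 : D.ta q.1 * (∑ a, (∑ b, KK (D.G q) a b) * f a ^ 2) ≤
        (1 + C' * D.δ) * ∑ b, f b ^ 2 := by
      rw [Finset.mul_sum, Finset.mul_sum]
      refine Finset.sum_le_sum fun a _ => ?_
      rw [← mul_assoc]
      exact mul_le_mul_of_nonneg_right (hrow a) (sq_nonneg _)
    have hS2 : 0 ≤ ∑ b, f b ^ 2 := Finset.sum_nonneg fun b _ => sq_nonneg _
    have h4 : 1 - D.e₀⁻¹ ≤ D.e₀ - 1 := by
      have h6 : D.e₀⁻¹ * D.e₀ = 1 := inv_mul_cancel₀ he0.ne'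
      have h7 : 0 < D.e₀⁻¹ := inv_pos.2 he0
      nlinarith only [mul_nonneg h7.le (sq_nonneg (D.e₀ - 1)), he0, h6]
    have h5 : D.ϖ ≤ D.δ := hA.hϖ.2.1
    have h6 : (C' + 1) * D.δ ≤ C₀ * D.δ :=
      mul_le_mul_of_nonneg_right (by rw [hC₀]; linarith only [hC₁, hc'0, hc'2, hc1i]) hδ0.le
    have h7 : D.ta q.1 * qf (KK (D.G q)) f ≤
        ((1 + C' * D.δ) + D.ϖ - D.e₀⁻¹) * ∑ b, f b ^ 2 + D.ta q.1 * qf D.S f +
          qf (P0 (Tor d M)) f := by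
      linarith
    refine h7.trans ?_
    have h8 : ((1 + C' * D.δ) + D.ϖ - D.e₀⁻¹) * ∑ b, f b ^ 2 ≤
        (C₀ * D.δ + (D.e₀ - 1)) * ∑ b, f b ^ 2 :=
      mul_le_mul_of_nonneg_right (by linarith only [h4, h5, h6]) hS2
    linarith

end Pool.Agent.LE.QX.H5
end
end -- Pool.Agent.Helper5_LQX.GOD

section -- Pool.Agent.Helper76_LQX.USM

/-!
# Squad LQX, row USM: smoothness of the functional
-/

set_option autoImplicit false

open MeasureTheory ProbabilityTheory Function Filter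

open scoped ENNReal BigOperators Topology NNReal ComplexOrder Matrix

noncomputable section

namespace Pool.Agent.LE.QX.H76

open Pool.Agent.Anderson hiding box mem_box card_box
open Pool.Agent.Loc Pool.Agent.Mob Pool.Agent.Helper54.Bal
  Pool.Agent.Helper96.EXP Pool.Agent.BED
open Pool.Agent.LE.MN Pool.Agent.LE.CL Pool.Agent.LE.IR Pool.Agent.LE.QD Pool.Agent.LE.QF
open Pool.Agent.LE.QF.H44 (CM nsqC ofRealC tr_ge qf_Dl)

theorem usm (jma : JmaStmt) (wab : WabStmt) (nnu : NnuStmt) (rsj : RsjStmt) : UsmStmt := by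
  intro d M _ D c₁ C₁ c₀ q hc₁ hc₀ hA hq0 hqT
  have hη := hA.hT.2.1
  have hm : 0 < D.m.im := lt_of_lt_of_le hc₁ hA.hm.1
  have hkp : 0 < D.kp q.1 := by
    have h1 : 0 ≤ (D.T - q.1) * D.m.im := mul_nonneg (by linarith only [hqT]) hm.le
    unfold Dat.kp
    linarith only [hη, h1]
  obtain ⟨hJ, _, _, hkt, _, hLs, _⟩ := rsj d M D c₁ C₁ c₀ q hc₁ hA hkp
  have hta : 0 < D.ta q.1 := div_pos hkp hm
  have hε : 0 < D.ε₁ := lt_of_lt_of_le hA.hδ.1 hA.hδ.2.1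
  have hε2 : D.ε₁ ≤ 1 / 2 := le_trans hA.hδ.2.2 hc₀
  -- smoothness of the entries
  have cG : CM D.G q := fun a b => (hJ.hG a b).sm
  have cta : ContDiffAt ℝ 2 (fun r : ℝ × (Tor d M → ℝ) => D.ta r.1) q :=
    hJ.ht.1.comp q contDiffAt_fst
  have cLs : ContDiffAt ℝ 2 (fun r : ℝ × (Tor d M → ℝ) => D.Ls r.1) q :=
    hLs.comp q contDiffAt_fst
  have ctaC := ofRealC cta
  have cBB : CM (fun r => BB (D.G r)) q := fun a b => (cG a b).pow 2
  have cKK : CM (fun r => KK (D.G r)) q := fun a b => nsqC (cG a b)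
  have cY : CM D.Y q := CM.smul ctaC cBB
  have cmu : ∀ a, ContDiffAt ℝ 2 (fun r => D.mu r a) q := fun a =>
    (cG a a).sub contDiffAt_const
  have cU3 : ContDiffAt ℝ 2 D.U3 q := by
    have h1 := (((cY.mul cY.star).pow D.j)).trace
    have h2 := (Complex.reCLM.contDiff.contDiffAt
      (x := (fun r => Matrix.trace ((D.Y r * (D.Y r)ᴴ) ^ D.j)) q)).comp q h1
    exact h2.div_const _
  by_cases hu : IsUnit (1 - D.Y q).det
  · right
    have cTh : CM D.Th q := CM.inv jma ((CM.const _ q).sub cY) hu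
    have cph : ∀ a, ContDiffAt ℝ 2 (fun r => D.ph r a) q := fun a => cTh.mulVec cmu a
    have cU1 : ContDiffAt ℝ 2 D.U1 q :=
      ContDiffAt.sum fun a _ => ((nsqC (cph a)).div_const _).pow _
    have cXh : CM D.Xh q :=
      (cG.add (CM.smul ctaC ((cG.mul (CM.diag cph)).mul cG))).sub (CM.const _ q)
    have cU2 : ContDiffAt ℝ 2 D.U2 q :=
      ContDiffAt.sum fun a _ => ContDiffAt.sum fun b _ => ((nsqC (cXh a b)).div_const _).pow _
    have cLa : ∀ a, ContDiffAt ℝ 2 (fun r => D.La r a) q := fun a =>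
      ContDiffAt.sum fun b _ => (cKK a b).pow 2
    have hLs0 : D.Ls q.1 ≠ 0 := by
      have h1 : 0 < D.L₀ := by linarith only [hA.hj.2.2.1, hε, hε2]
      have h2 : 0 < D.N := by linarith only [hA.hj.2.2.2.1, hε, hε2]
      have h3 := hA.hj.2.2.2.2
      have h4 := hA.hδ.1
      unfold Dat.Ls
      positivity
    have cU4 : ContDiffAt ℝ 2 D.U4 q :=
      ContDiffAt.sum fun a _ => ((cLa a).div cLs hLs0).pow _
    have hKs : ∀ a b, KK (D.G q) a b = KK (D.G q) b a := fun a b => by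
      unfold KK
      rw [hJ.hs a b]
    have hK0 : ∀ a b, 0 ≤ KK (D.G q) a b := fun a b => by
      unfold KK
      positivity
    have hXs : ∀ a b, D.X q a b = D.X q b a := by
      intro a b
      show D.ta q.1 * Dl (KK (D.G q)) a b = D.ta q.1 * Dl (KK (D.G q)) b a
      congr 1
      unfold Dl
      rw [Matrix.sub_apply, Matrix.sub_apply, hKs a b]
      congr 1
      by_cases h : a = b
      · subst h; rfl
      · rw [Matrix.diagonal_apply_ne _ h, Matrix.diagonal_apply_ne _ (Ne.symm h)]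
    have hX0 : ∀ f, 0 ≤ qf (D.X q) f := by
      intro f
      have h1 : qf (D.X q) f = D.ta q.1 * qf (Dl (KK (D.G q))) f := by
        unfold QF.qf Dat.X
        rw [Finset.mul_sum]
        apply Finset.sum_congr rfl
        intro a _
        rw [Matrix.smul_mulVec, Pi.smul_apply, smul_eq_mul]
        ring
      rw [h1]
      exact mul_nonneg hta.le (qf_Dl _ hKs hK0 f)
    obtain ⟨hu1, hu2, _⟩ := wab (Tor d M) (D.X q) D.S D.e₀ D.e₁ (D.ta q.1) D.ϖ D.p hXs hX0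
      hA.hS.1 hA.hS.2.1 (by linarith only [hA.he.1, hA.he.2.1, hε, hε2]) (by linarith only [hA.he.1, hε, hε2]) hta.le
      hA.hϖ.1 (by linarith only [hA.hj.2.1])
    have cX : CM D.X q := CM.smul cta
      (CM.sub (CM.diag fun a => ContDiffAt.sum fun b _ => cKK a b) cKK)
    have cW : CM D.W q := CM.inv jma ((cX.add (CM.const _ q)).add (CM.const _ q)) hu2
    have cA : CM (fun r : ℝ × (Tor d M → ℝ) => (D.A r.1)⁻¹) q :=
      CM.inv jma ((CM.const _ q).add (CM.smul cta (CM.const _ q))) hu1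
    have cU5 : ContDiffAt ℝ 2 D.U5 q := ((cA.mul cW).pow _).trace
    exact (((cU1.add cU2).add cU3).add cU4).add cU5
  · left
    have hdet : (1 - D.Y q).det = 0 := by
      by_contra h
      exact hu (isUnit_iff_ne_zero.mpr h)
    have htr := tr_ge (D.Y q) hdet D.j
    have hU3 : 1 < D.U3 q := by
      have h1 : D.ε₁ ^ (2 * D.j) < 1 := pow_lt_one₀ hε.le (by linarith only [hε, hε2])
        (by have := hA.hj.1; omega)
      have h2 : 0 < D.ε₁ ^ (2 * D.j) := by positivity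
      unfold Dat.U3
      rw [lt_div_iff₀ h2]
      linarith
    have h1 : ∀ᶠ r in 𝓝 q, 1 < D.U3 r := cU3.continuousAt.eventually_const_lt hU3
    have h2 : ∀ᶠ r : ℝ × (Tor d M → ℝ) in 𝓝 q, 0 < D.kp r.1 := by
      have hc : Continuous fun r : ℝ × (Tor d M → ℝ) => D.kp r.1 := by
        unfold Dat.kp
        fun_prop
      exact hc.continuousAt.eventually_const_lt hkp
    filter_upwards [h1, h2] with r hr1 hr2
    obtain ⟨n1, n2, n3, n4, n5⟩ := nnu d M D c₁ C₁ c₀ r hc₁ hA hr2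
    unfold Dat.U
    linarith

end Pool.Agent.LE.QX.H76
end
end -- Pool.Agent.Helper76_LQX.USM

section -- Pool.Agent.Helper38_LQZ.GOD

/-! # GOD: a point with `U < 1` is good -/

set_option autoImplicit false

open MeasureTheory ProbabilityTheory Function Filter

open scoped ENNReal BigOperators Topology NNReal ComplexOrder Matrix

noncomputable section

namespace Pool.Agent.LE.QZ.H38

open Pool.Agent.Anderson hiding box mem_box card_box
open Pool.Agent.Loc Pool.Agent.Mob Pool.Agent.Helper54.Bal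
  Pool.Agent.Helper96.EXP Pool.Agent.BED
open Pool.Agent.LE.MN Pool.Agent.LE.CL Pool.Agent.LE.IR Pool.Agent.LE.QD Pool.Agent.LE.QF
open Pool.Agent.LE.QF.H5 (n2_nn n2_adj n2_tr unit_of entry_le qf_add qf_smul qf_one qf_P0 qf_Dl
  Dl_symm Dl_nonneg card_tor lt_one_of_pow_sum)
open Pool.Agent.LE.QX.H5 (inv_lower)

variable {d M : ℕ} [NeZero M]

theorem kp_pos {D : Dat d M} {c₁ C₁ c₀ : ℝ} (hc₁ : 0 < c₁) (hA : Adm D c₁ C₁ c₀)
    {t : ℝ} (ht : t ≤ D.T) : D.η ≤ D.kp t := by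
  have h1 : 0 ≤ (D.T - t) * D.m.im :=
    mul_nonneg (sub_nonneg.2 ht) (hc₁.le.trans hA.hm.1)
  simp only [Dat.kp]
  linarith

theorem mono {D : Dat d M} {c₁ C₁ c₀ c : ℝ} (hA : Adm D c₁ C₁ c) (h : c ≤ c₀) :
    Adm D c₁ C₁ c₀ :=
  ⟨hA.hT, hA.hm, hA.hfix, ⟨hA.hδ.1, hA.hδ.2.trans h⟩,
    ⟨hA.hk.1, hA.hk.2.1.trans h, hA.hk.2.2⟩, hA.he, hA.hj, hA.h0, hA.hN,
    hA.hY, hA.hL, hA.hS, hA.hϖ, hA.hW, hA.h6⟩

theorem god (hN : NnuStmt) (hR : RsjStmt) (hC : GdcStmt) (hT : ThcStmt) (hW : WabStmt) :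
    GodStmt := by
  intro c₁ C₁ hc₁ hC₁
  obtain ⟨c', C', hc'0, hc'2, hC'1, hgdc⟩ := hC c₁ C₁ hc₁ hC₁
  have hc1i : 0 < 1 / c₁ := by positivity
  obtain ⟨C₀, hC₀⟩ : ∃ C₀ : ℝ, C₀ = C' + C₁ + 1 / c₁ + 2 := ⟨_, rfl⟩
  have hC₀1 : 1 ≤ C₀ := by rw [hC₀]; linarith only [hC₁, hc'0, hc'2, hC'1, hc1i]
  obtain ⟨c₀, hc₀⟩ : ∃ c₀ : ℝ, c₀ = min c' (1 / (10 * C₀)) := ⟨_, rfl⟩
  have hc₀0 : 0 < c₀ := by rw [hc₀]; positivity
  have hc₀c : c₀ ≤ c' := hc₀ ▸ min_le_left _ _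
  have hc₀C : C₀ * c₀ ≤ 1 / 10 := by
    have h1 : c₀ ≤ 1 / (10 * C₀) := hc₀ ▸ min_le_right _ _
    rw [le_div_iff₀ (by positivity)] at h1
    linarith only [h1]
  refine ⟨c₀, C₀, hc₀0, hc₀c.trans hc'2, hC₀1, ?_⟩
  intro d M _ D q hA hq0 hqT hU
  have hkp := kp_pos hc₁ hA hqT
  have hη := hA.hT.2.1
  have hkp0 : 0 < D.kp q.1 := lt_of_lt_of_le hη hkp
  obtain ⟨hu1, hu2, hu3, hu4, hu5, hu6⟩ := hN d M D c₁ C₁ c₀ q hc₁ hA hkp0
  obtain ⟨hJ, hward, hG0s, hkt, hkw, -, -⟩ := hR d M D c₁ C₁ c₀ q hc₁ hA hkp0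
  obtain ⟨-, hkpw⟩ := hkw hq0 hqT
  have hU' : D.U1 q + D.U2 q + D.U3 q + D.U4 q + D.U5 q + D.U6 q < 1 := hU
  have hm0 : 0 < D.m.im := lt_of_lt_of_le hc₁ hA.hm.1
  have hδ0 := hA.hδ.1
  have hδc : D.δ ≤ c₀ := hA.hδ.2
  have hta0 : 0 < D.ta q.1 := div_pos hkp0 hm0
  have hj1 : 1 ≤ D.j := by have := hA.hj.1; omega
  -- U1
  have hφ : ∀ a, ‖D.ph q a‖ ≤ D.δ := by
    intro a
    have h1 : ∑ a, (‖D.ph q a‖ ^ 2 / D.δ ^ 2) ^ D.j < 1 := by
      have : D.U1 q < 1 := by linarith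
      exact this
    have h2 := lt_one_of_pow_sum _ _ (fun a => by positivity) h1 a
    rw [div_lt_one (by positivity)] at h2
    exact (abs_le_of_sq_le_sq' (by linarith : ‖D.ph q a‖ ^ 2 ≤ D.δ ^ 2) hδ0.le).2
  -- U2
  have hXh : ∀ a b, ‖D.Xh q a b‖ ≤ D.δ := by
    intro a b
    have h1 : ∑ a, ∑ b, (‖D.Xh q a b‖ ^ 2 / D.δ ^ 2) ^ D.j < 1 := by
      have : D.U2 q < 1 := by linarith
      exact this
    have h3 : ∑ b, (‖D.Xh q a b‖ ^ 2 / D.δ ^ 2) ^ D.j < 1 := by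
      refine lt_of_le_of_lt ?_ h1
      exact Finset.single_le_sum (f := fun a => ∑ b, (‖D.Xh q a b‖ ^ 2 / D.δ ^ 2) ^ D.j)
        (fun a _ => Finset.sum_nonneg fun b _ => by positivity) (Finset.mem_univ a)
    have h2 := lt_one_of_pow_sum _ _ (fun b => by positivity) h3 b
    rw [div_lt_one (by positivity)] at h2
    exact (abs_le_of_sq_le_sq' (by linarith : ‖D.Xh q a b‖ ^ 2 ≤ D.δ ^ 2) hδ0.le).2
  -- U3
  have hX3 : ∀ u, n2 (D.Xi q *ᵥ u) ≤ (99 / 100 : ℝ) ^ 2 * n2 u := by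
    have h1 : (Matrix.trace ((D.Xi q * (D.Xi q)ᴴ) ^ D.j)).re / (99 / 100 : ℝ) ^ (2 * D.j) < 1 := by
      have : D.U3 q < 1 := by linarith
      exact this
    rw [div_lt_one (by positivity)] at h1
    exact n2_tr _ _ _ (by norm_num) hj1 h1.le
  have hunit : IsUnit (1 - D.Y q).det := by
    by_contra h0
    have h1 : D.Xi q = -1 := by
      simp only [Dat.Xi]
      rw [Matrix.nonsing_inv_apply_not_isUnit _ h0, zero_sub]
    have h2 := hX3 fun _ => 1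
    rw [h1, Matrix.neg_mulVec, Matrix.one_mulVec] at h2
    have h3 : n2 (-(fun _ : Tor d M => (1 : ℂ))) = n2 (fun _ : Tor d M => (1 : ℂ)) := by
      simp [n2]
    have h4 : 0 < n2 (fun _ : Tor d M => (1 : ℂ)) := by
      have h5 := entry_le (fun _ : Tor d M => (1 : ℂ)) 0
      have h6 : (0 : ℝ) < ‖(1 : ℂ)‖ ^ 2 := by simp
      linarith
    rw [h3] at h2
    linarith
  have hXle : ∀ u, n2 (D.Xi q *ᵥ u) ≤ n2 u := fun u =>
    (hX3 u).trans (by have := n2_nn u; nlinarith)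
  have hYd : D.Y q = ((D.ta q.1 : ℝ) : ℂ) • BB (D.G q) := rfl
  have hmu : ∀ a, D.mu q a = D.ph q a - D.ta q.1 * (BB (D.G q) *ᵥ D.ph q) a := by
    intro a
    have h1 : (1 - D.Y q) *ᵥ D.ph q = D.mu q := by
      simp only [Dat.ph, Dat.Th]
      rw [Matrix.mulVec_mulVec, Matrix.mul_nonsing_inv _ hunit, Matrix.one_mulVec]
    rw [← h1, Matrix.sub_mulVec, Matrix.one_mulVec, hYd, Matrix.smul_mulVec]
    rfl
  -- GDC
  have hg := hgdc (Tor d M) (D.G q) D.G0 (D.ph q) D.m D.nr (D.kp q.1) (D.ta q.1) D.δ D.N hkp0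
    (hkpw.trans hA.hT.2.2.1) hkt hA.hm.1 hA.hm.2 hδ0.le (hδc.trans hc₀c) hA.hj.2.2.2.1 hJ.hs hG0s
    hward hmu hφ hXh hA.h0 (fun a b => by simp [Dat.nr]) hA.hN
  have hC'C : C' ≤ C₀ := by rw [hC₀]; linarith only [hC₁, hc'0, hc'2, hc1i]
  have hCd : C₀ * D.δ ≤ 1 / 2 := by
    have h1 : C₀ * D.δ ≤ C₀ * c₀ := mul_le_mul_of_nonneg_left hδc (by linarith only [hC₁, hc'0, hc'2, hC'1, hc1i, hC₀])
    linarith only [hc'0, hc'2, hc₀C, h1]
  have hG := Pool.Agent.LE.QF.H5.GdM.mono hg hC'C hCd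
  -- rows
  have hrow : ∀ a, D.ta q.1 * ∑ b, ‖D.G q a b‖ ^ 2 ≤ 1 + C' * D.δ := by
    intro a
    have := (abs_le.1 (hg.hk a)).2
    linarith
  have hYrow : ∀ a, ∑ b, ‖D.Y q a b‖ ≤ 1 + C' * D.δ := by
    intro a
    refine le_trans (le_of_eq ?_) (hrow a)
    rw [Finset.mul_sum]
    refine Finset.sum_congr rfl fun b _ => ?_
    rw [hYd, Matrix.smul_apply, smul_eq_mul, norm_mul, Complex.norm_real, Real.norm_eq_abs,
      abs_of_pos hta0, QF.BB, norm_pow]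
  have hpow : (1 + C' * D.δ) ^ D.k ≤ 2 := by
    have h0 : 0 ≤ C' * D.δ := by positivity
    have h1 : (1 + C' * D.δ) ^ D.k ≤ Real.exp (C' * D.δ) ^ D.k :=
      pow_le_pow_left₀ (by linarith only [hc'0, hc'2, h0]) (by linarith only [Real.add_one_le_exp (C' * D.δ)]) D.k
    rw [← Real.exp_nat_mul] at h1
    have h2 : (D.k : ℝ) * (C' * D.δ) ≤ Real.log 2 := by
      have h3 : (D.k : ℝ) * D.δ ≤ c₀ := hA.hk.2.1
      have h4 : C' * ((D.k : ℝ) * D.δ) ≤ C₀ * c₀ :=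
        mul_le_mul hC'C h3 (by positivity) (by linarith only [hC₁, hc'0, hc'2, hC'1, hc1i, hC₀])
      have h6 := Real.log_two_gt_d9
      have h7 : (D.k : ℝ) * (C' * D.δ) = C' * ((D.k : ℝ) * D.δ) := by ring
      linarith only [hc'0, hc'2, hc₀C, h4, h6]
    calc (1 + C' * D.δ) ^ D.k ≤ Real.exp (D.k * (C' * D.δ)) := h1
      _ ≤ Real.exp (Real.log 2) := Real.exp_le_exp.2 h2
      _ = 2 := Real.exp_log (by norm_num)
  have hYs : ∀ a b, D.Y q a b = D.Y q b a := fun a b => by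
    rw [hYd, Matrix.smul_apply, Matrix.smul_apply, QF.BB, QF.BB, hJ.hs a b]
  have hs10 : C' * D.δ ≤ 1 / 10 := by
    have h1 : C' * D.δ ≤ C₀ * c₀ := mul_le_mul hC'C hδc hδ0.le (by linarith only [hC₁, hc'0, hc'2, hC'1, hc1i, hC₀])
    linarith only [hc₀C, h1]
  have hthb := hT (Tor d M) (D.Y q) (C' * D.δ) D.k (by positivity) hs10 hpow
    (by rw [card_tor]; exact hA.hk.2.2) hYs hunit hXle hYrow
  -- U4
  have hLs0 : 0 < D.Ls q.1 := by
    have hL0 : 0 < D.L₀ := by linarith only [hA.hj.2.2.1, hc'0, hc'2]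
    have hN0 : 0 < D.N := by linarith only [hA.hj.2.2.2.1, hc'0, hc'2]
    have hp0 := hA.hj.2.2.2.2
    simp only [Dat.Ls]
    have h1 : 0 ≤ D.π₀ / D.kp q.1 := by positivity
    have h2 : 0 ≤ D.δ ^ 4 / D.kp q.1 := by positivity
    have h3 : 0 < D.N + D.π₀ / D.kp q.1 + D.δ ^ 4 / D.kp q.1 := by linarith only [hN0, h1, h2]
    positivity
  have hLa : ∀ a, D.La q a ≤ D.Ls q.1 := by
    intro a
    have h1 : ∑ a, (D.La q a / D.Ls q.1) ^ D.j < 1 := by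
      have : D.U4 q < 1 := by linarith
      exact this
    have h2 := lt_one_of_pow_sum _ _ (fun a => div_nonneg
      (Finset.sum_nonneg fun b _ => by positivity) hLs0.le) h1 a
    rw [div_lt_one hLs0] at h2
    exact h2.le
  -- W
  have hKs : ∀ a b, KK (D.G q) a b = KK (D.G q) b a := fun a b => by
    simp only [KK]; rw [hJ.hs a b]
  have hK0 : ∀ a b, 0 ≤ KK (D.G q) a b := fun a b => by simp only [KK]; positivity
  have hXd : D.X q = D.ta q.1 • Dl (KK (D.G q)) := rfl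
  have hX0 : ∀ f, 0 ≤ qf (D.X q) f := fun f => by
    rw [hXd, qf_smul]
    exact mul_nonneg hta0.le (Dl_nonneg _ hKs hK0 f)
  have hXs : ∀ a b, D.X q a b = D.X q b a := fun a b => by
    rw [hXd, Matrix.smul_apply, Matrix.smul_apply, Dl_symm _ hKs a b]
  have he0 : 0 < D.e₀ := by linarith only [hA.he.1, hA.he.2.1, hc'0, hc'2]
  have hp1 : 1 ≤ D.p := by have := hA.hj.2.1; omega
  obtain ⟨hAu, -, -, hab, -⟩ := hW (Tor d M) (D.X q) D.S D.e₀ 1 (D.ta q.1) D.ϖ D.p hXs hX0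
    hA.hS.1 hA.hS.2.1 he0 one_pos hta0.le hA.hϖ.1 hp1
  have h5 : D.U5 q ≤ 1 := by linarith
  have hAf : ∀ f, qf (D.A q.1)⁻¹ f ≤
      qf (D.X q + P0 (Tor d M) + D.ϖ • (1 : Matrix (Tor d M) (Tor d M) ℝ)) f := (hab h5).2
  refine ⟨⟨rfl, rfl, hkp, hkpw, hta0, ?_, ?_⟩, hG, hunit, ?_, hXle, hφ, hmu, hLa, hAf, h5, ?_⟩
  · -- ta ≤ C₀ kp
    have h1 : D.ta q.1 * c₁ ≤ D.kp q.1 := by
      rw [hkt]
      exact mul_le_mul_of_nonneg_left hA.hm.1 hta0.le
    have h2 : D.ta q.1 ≤ 1 / c₁ * D.kp q.1 := by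
      rw [one_div, ← div_eq_inv_mul, le_div_iff₀ hc₁]
      exact h1
    have h3 : 1 / c₁ ≤ C₀ := by rw [hC₀]; linarith only [hC₁, hc'0, hc'2, hC'1]
    exact h2.trans (mul_le_mul_of_nonneg_right h3 hkp0.le)
  · have h3 : C₁ ≤ C₀ := by rw [hC₀]; linarith only [hc'0, hc'2, hC'1, hc1i]
    rw [hkt, mul_comm]
    exact mul_le_mul_of_nonneg_right (hA.hm.2.trans h3) hta0.le
  · intro a
    exact hthb a
  · intro f
    have h1 := hAf f
    have he1 : 1 ≤ D.e₀ := by linarith only [hA.he.1, hA.he.2.1]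
    have h2 := inv_lower D.S D.e₀ (D.ta q.1) hA.hS.1 hA.hS.2.1 he1 hta0.le hAu f
    have h2' : D.e₀⁻¹ * ∑ a, f a ^ 2 - D.ta q.1 * qf D.S f ≤ qf (D.A q.1)⁻¹ f := h2
    have h1' := h2'.trans h1
    rw [qf_add, qf_add, qf_smul D.ϖ, qf_one, hXd, qf_smul (D.ta q.1) (Dl _), qf_Dl] at h1'
    have h3 : D.ta q.1 * (∑ a, (∑ b, KK (D.G q) a b) * f a ^ 2) ≤
        (1 + C' * D.δ) * ∑ b, f b ^ 2 := by
      rw [Finset.mul_sum, Finset.mul_sum]
      refine Finset.sum_le_sum fun a _ => ?_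
      rw [← mul_assoc]
      exact mul_le_mul_of_nonneg_right (hrow a) (sq_nonneg _)
    have hS2 : 0 ≤ ∑ b, f b ^ 2 := Finset.sum_nonneg fun b _ => sq_nonneg _
    have h4 : 1 - D.e₀⁻¹ ≤ D.e₀ - 1 := by
      have h6 : D.e₀⁻¹ * D.e₀ = 1 := inv_mul_cancel₀ he0.ne'
      have h7 : 0 < D.e₀⁻¹ := inv_pos.2 he0
      nlinarith only [mul_nonneg h7.le (sq_nonneg (D.e₀ - 1)), he0, h6]
    have h5 : D.ϖ ≤ D.δ := hA.hϖ.2.1
    have h6 : (C' + 1) * D.δ ≤ C₀ * D.δ :=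
      mul_le_mul_of_nonneg_right (by rw [hC₀]; linarith only [hC₁, hc'0, hc'2, hc1i]) hδ0.le
    have h7 : D.ta q.1 * qf (KK (D.G q)) f ≤
        ((1 + C' * D.δ) + D.ϖ - D.e₀⁻¹) * ∑ b, f b ^ 2 + D.ta q.1 * qf D.S f +
          qf (P0 (Tor d M)) f := by
      linarith
    refine h7.trans ?_
    have h8 : ((1 + C' * D.δ) + D.ϖ - D.e₀⁻¹) * ∑ b, f b ^ 2 ≤
        (C₀ * D.δ + (D.e₀ - 1)) * ∑ b, f b ^ 2 :=
      mul_le_mul_of_nonneg_right (by linarith only [h4, h5, h6]) hS2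
    linarith

end Pool.Agent.LE.QZ.H38
end
end -- Pool.Agent.Helper38_LQZ.GOD
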