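import Pool.Agent.Helper12_MEB.B087

/-!
# Merged copies (generated) of the modules

* `Pool.Agent.Helper40_LQF.WTU1`
* `Pool.Agent.Helper40_LQF.WTU2`
* `Pool.Agent.Helper45_LQF.YTU`
* `Pool.Agent.Helper48_AN2.MMU`
* `Pool.Agent.Helper48_AN2.REA`
* `Pool.Agent.Helper48_AN2.FRU`
* `Pool.Agent.Helper21_LQZ.XTU`
* `Pool.Agent.Helper40_LQF.WTU`
-/

set_option autoImplicit false

section -- Pool.Agent.Helper40_LQF.WTU1

/-!
# Squad LQF, row WTU, part 1: quadratic forms and traces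

Author: helper40.
-/

set_option autoImplicit false
set_option linter.unusedSectionVars false

open scoped BigOperators Matrix

noncomputable section

namespace Pool.Agent.LE.QF.H40

open Pool.Agent.LE.QF

variable {X : Type} [Fintype X] [DecidableEq X]

theorem qf_dot (A : Matrix X X ℝ) (f : X → ℝ) : qf A f = f ⬝ᵥ (A *ᵥ f) := rfl

theorem tr_dot (M : Matrix X X ℝ) (f g : X → ℝ) : f ⬝ᵥ (M *ᵥ g) = (Mᵀ *ᵥ f) ⬝ᵥ g := by
  rw [Matrix.dotProduct_mulVec, Matrix.mulVec_transpose]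

theorem sym_dot {M : Matrix X X ℝ} (hM : Mᵀ = M) (f g : X → ℝ) :
    f ⬝ᵥ (M *ᵥ g) = (M *ᵥ f) ⬝ᵥ g := by
  rw [tr_dot, hM]

theorem qf_conj (D N : Matrix X X ℝ) (f : X → ℝ) : qf (Dᵀ * N * D) f = qf N (D *ᵥ f) := by
  rw [qf_dot, qf_dot, ← Matrix.mulVec_mulVec, ← Matrix.mulVec_mulVec, tr_dot,
    Matrix.transpose_transpose]

theorem qf_add (A B : Matrix X X ℝ) (f : X → ℝ) : qf (A + B) f = qf A f + qf B f := by
  rw [qf_dot, qf_dot, qf_dot, Matrix.add_mulVec, dotProduct_add]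

theorem qf_neg (A : Matrix X X ℝ) (f : X → ℝ) : qf (-A) f = -qf A f := by
  rw [qf_dot, qf_dot, Matrix.neg_mulVec, dotProduct_neg]

theorem qf_smul (c : ℝ) (A : Matrix X X ℝ) (f : X → ℝ) : qf (c • A) f = c * qf A f := by
  rw [qf_dot, qf_dot, Matrix.smul_mulVec, dotProduct_smul, smul_eq_mul]

theorem qf_one (f : X → ℝ) : qf (1 : Matrix X X ℝ) f = f ⬝ᵥ f := by
  rw [qf_dot, Matrix.one_mulVec]

theorem qf_sum {κ : Type} (s : Finset κ) (A : κ → Matrix X X ℝ) (f : X → ℝ) :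
    qf (∑ k ∈ s, A k) f = ∑ k ∈ s, qf (A k) f := by
  classical
  induction s using Finset.induction_on with
  | empty =>
    rw [Finset.sum_empty, Finset.sum_empty, qf_dot, Matrix.zero_mulVec, dotProduct_zero]
  | insert a s ha ih => rw [Finset.sum_insert ha, Finset.sum_insert ha, qf_add, ih]

theorem sq_dot (f : X → ℝ) : ∑ a, f a ^ 2 = f ⬝ᵥ f := by
  unfold dotProduct
  exact Finset.sum_congr rfl fun a _ => pow_two _

theorem dot_nn (f : X → ℝ) : 0 ≤ f ⬝ᵥ f := by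
  rw [← sq_dot]
  exact Finset.sum_nonneg fun a _ => sq_nonneg _

/-- the Cauchy-Schwarz trick: from `ϖ W ≤ δ` to `ϖ W² ≤ δ W` -/
theorem sq_le {W : Matrix X X ℝ} (hW : Wᵀ = W) (h0 : ∀ f, 0 ≤ qf W f) {ϖ δ : ℝ} (hϖ : 0 < ϖ)
    (hδ : 0 ≤ δ) (h : ∀ f : X → ℝ, ϖ * qf W f ≤ δ * (f ⬝ᵥ f)) (f : X → ℝ) :
    ϖ * ((W *ᵥ f) ⬝ᵥ (W *ᵥ f)) ≤ δ * qf W f := by
  obtain ⟨u, hu⟩ : ∃ u, u = W *ᵥ f := ⟨_, rfl⟩
  rw [← hu]
  have h1 : qf W (δ • f - ϖ • u) = δ ^ 2 * qf W f - 2 * δ * ϖ * (u ⬝ᵥ u) + ϖ ^ 2 * qf W u := by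
    have e1 : f ⬝ᵥ (W *ᵥ u) = u ⬝ᵥ u := by rw [sym_dot hW, ← hu]
    have e2 : u ⬝ᵥ (W *ᵥ f) = u ⬝ᵥ u := by rw [← hu]
    rw [qf_dot, qf_dot, qf_dot, Matrix.mulVec_sub, Matrix.mulVec_smul, Matrix.mulVec_smul,
      sub_dotProduct, dotProduct_sub, dotProduct_sub, smul_dotProduct, smul_dotProduct,
      dotProduct_smul, dotProduct_smul, smul_dotProduct, smul_dotProduct, dotProduct_smul,
      dotProduct_smul, e1, e2]
    simp only [smul_eq_mul]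
    ring
  have h2 := h0 (δ • f - ϖ • u)
  have h3 := h u
  have h4 := h0 f
  have h5 := dot_nn u
  rw [h1] at h2
  rcases hδ.eq_or_lt with h6 | h6
  · -- `δ = 0`
    rw [← h6] at h2 h3 ⊢
    have h7 : qf W u ≤ 0 := by nlinarith only [hϖ, h3]
    have h8 : ∀ t : ℝ, 0 ≤ qf W f - 2 * t * (u ⬝ᵥ u) + t ^ 2 * qf W u := by
      intro t
      have h9 := h0 (f - t • u)
      have e1 : f ⬝ᵥ (W *ᵥ u) = u ⬝ᵥ u := by rw [sym_dot hW, ← hu]
      have e2 : u ⬝ᵥ (W *ᵥ f) = u ⬝ᵥ u := by rw [← hu]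
      have e3 : qf W (f - t • u) = qf W f - 2 * t * (u ⬝ᵥ u) + t ^ 2 * qf W u := by
        rw [qf_dot, qf_dot, qf_dot, Matrix.mulVec_sub, Matrix.mulVec_smul,
          sub_dotProduct, dotProduct_sub, dotProduct_sub, smul_dotProduct, smul_dotProduct,
          dotProduct_smul, dotProduct_smul, e1, e2]
        simp only [smul_eq_mul]
        ring
      rw [e3] at h9
      exact h9
    have h10 : qf W f ≤ 0 := by
      have := h f
      rw [← h6, zero_mul] at this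
      nlinarith only [hϖ, this]
    have h11 := h8 1
    nlinarith only [hϖ, h3, h10, h11]
  · nlinarith only [hϖ, h2, h3, h6]

theorem P0_mulVec (u : X → ℝ) : ∃ s : ℝ, (P0 X *ᵥ u = fun _ => s) ∧
    ∑ a, u a = Fintype.card X * s := by
  refine ⟨(Fintype.card X : ℝ)⁻¹ * ∑ a, u a, ?_, ?_⟩
  · funext a
    show ∑ b, P0 X a b * u b = _
    unfold P0
    rw [Finset.mul_sum]
  · rcases isEmpty_or_nonempty X with h | h
    · rw [Fintype.card_eq_zero, Nat.cast_zero, zero_mul]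
      exact Finset.sum_eq_zero fun a _ => (h.false a).elim
    · have h1 : (Fintype.card X : ℝ) ≠ 0 := by exact_mod_cast Fintype.card_ne_zero
      field_simp

/-- the form inequality for `LL W` -/
theorem form {v l W : Matrix X X ℝ} {g : X → Matrix X X ℝ} {A : Matrix X X ℝ}
    {ϖ δ ν τ : ℝ} (hτ : 0 < τ) (hϖ : 0 < ϖ) (hδ : 0 ≤ δ) (hv : vᵀ = v)
    (hv0 : ∀ f, 0 ≤ qf v f) (hv1 : ∀ a, ∑ b, v a b = 0) (hg : ∀ c, (g c)ᵀ = g c)
    (hl : ∀ f : X → ℝ, ((1 - δ) * qf v f - ∑ a, (v *ᵥ f) a ^ 2) / τ ≤ qf l f)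
    (hgA : ∀ f : X → ℝ, ∑ c, qf A (g c *ᵥ f) ≤ ν * qf v f) (hν : 0 ≤ ν)
    (hAϖ : ∀ f : X → ℝ, ϖ * qf A f ≤ δ * ∑ a, f a ^ 2)
    (hW : Wᵀ = W) (hWB : (v + P0 X + ϖ • (1 : Matrix X X ℝ)) * W = 1)
    (hWA : ∀ f, qf W f ≤ qf A f) (h : X → ℝ) :
    qf (-(W * l * W) + ∑ c, W * g c * W * g c * W) h ≤
      (1 / τ) * (-(1 - 2 * δ) * qf W h + h ⬝ᵥ h) + ν * qf W h ∧
    qf v (W *ᵥ h) ≤ qf W h ∧ 0 ≤ qf W h := by
  obtain ⟨u, hu⟩ : ∃ u, u = W *ᵥ h := ⟨_, rfl⟩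
  obtain ⟨s, hs1, hs2⟩ := P0_mulVec u
  obtain ⟨N, hN⟩ : ∃ N : ℝ, N = Fintype.card X := ⟨_, rfl⟩
  have hN0 : 0 ≤ N := by rw [hN]; positivity
  have hBu : h = v *ᵥ u + (fun _ => s) + ϖ • u := by
    have e1 : (v + P0 X + ϖ • (1 : Matrix X X ℝ)) *ᵥ u = h := by
      rw [hu, Matrix.mulVec_mulVec, hWB, Matrix.one_mulVec]
    rw [← e1, Matrix.add_mulVec, Matrix.add_mulVec, hs1, Matrix.smul_mulVec, Matrix.one_mulVec]
  have hc1 : (fun _ => s : X → ℝ) ⬝ᵥ u = N * s ^ 2 := by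
    show ∑ a, s * u a = _
    rw [← Finset.mul_sum, hs2, hN]
    ring
  have hc2 : (fun _ => s : X → ℝ) ⬝ᵥ (fun _ => s) = N * s ^ 2 := by
    show ∑ _a : X, s * s = _
    rw [Finset.sum_const, nsmul_eq_mul, Finset.card_univ, hN]
    ring
  have hc3 : (fun _ => s : X → ℝ) ⬝ᵥ (v *ᵥ u) = 0 := by
    rw [sym_dot hv]
    have e1 : v *ᵥ (fun _ => s : X → ℝ) = 0 := by
      funext a
      show ∑ b, v a b * s = 0
      rw [← Finset.sum_mul, hv1, zero_mul]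
    rw [e1, zero_dotProduct]
  have hqW : qf W h = qf v u + N * s ^ 2 + ϖ * (u ⬝ᵥ u) := by
    have e1 : qf W h = h ⬝ᵥ u := by rw [qf_dot, hu]
    rw [e1]
    conv_lhs => rw [hBu]
    rw [add_dotProduct, add_dotProduct, smul_dotProduct, hc1, dotProduct_comm (v *ᵥ u) u, qf_dot,
      smul_eq_mul]
  have hhh : h ⬝ᵥ h = (v *ᵥ u) ⬝ᵥ (v *ᵥ u) + N * s ^ 2 + ϖ ^ 2 * (u ⬝ᵥ u) +
      2 * ϖ * qf v u + 2 * ϖ * (N * s ^ 2) := by
    conv_lhs => rw [hBu]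
    rw [add_dotProduct, add_dotProduct, dotProduct_add, dotProduct_add, dotProduct_add,
      dotProduct_add, dotProduct_add, dotProduct_add, smul_dotProduct, smul_dotProduct,
      smul_dotProduct, dotProduct_smul, dotProduct_smul, dotProduct_smul, hc1, hc2, hc3,
      dotProduct_comm (v *ᵥ u) (fun _ => s), hc3, dotProduct_comm (v *ᵥ u) u,
      dotProduct_comm u (fun _ => s), hc1, qf_dot]
    simp only [smul_eq_mul]
    ring
  have hvu := hv0 u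
  have huu := dot_nn u
  have hs0 : 0 ≤ N * s ^ 2 := by positivity
  have hW0 : ∀ f, 0 ≤ qf W f := by
    intro f
    obtain ⟨u', hu'⟩ : ∃ u', u' = W *ᵥ f := ⟨_, rfl⟩
    obtain ⟨s', hs1', hs2'⟩ := P0_mulVec u'
    have e0 : f = v *ᵥ u' + (fun _ => s') + ϖ • u' := by
      have e1 : (v + P0 X + ϖ • (1 : Matrix X X ℝ)) *ᵥ u' = f := by
        rw [hu', Matrix.mulVec_mulVec, hWB, Matrix.one_mulVec]
      rw [← e1, Matrix.add_mulVec, Matrix.add_mulVec, hs1', Matrix.smul_mulVec,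
        Matrix.one_mulVec]
    have e1 : qf W f = f ⬝ᵥ u' := by rw [qf_dot, hu']
    have e2 : (fun _ => s' : X → ℝ) ⬝ᵥ u' = N * s' ^ 2 := by
      show ∑ a, s' * u' a = _
      rw [← Finset.mul_sum, hs2', hN]
      ring
    rw [e1]
    conv_rhs => rw [e0]
    rw [add_dotProduct, add_dotProduct, smul_dotProduct, e2, dotProduct_comm (v *ᵥ u') u',
      smul_eq_mul]
    have e3 := hv0 u'
    rw [qf_dot] at e3
    have e4 := dot_nn u'
    have e5 : 0 ≤ N * s' ^ 2 := by positivity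
    have e6 : 0 ≤ ϖ * (u' ⬝ᵥ u') := mul_nonneg hϖ.le e4
    linarith
  have hWϖ : ∀ f : X → ℝ, ϖ * qf W f ≤ δ * (f ⬝ᵥ f) := by
    intro f
    have e1 := hAϖ f
    rw [sq_dot] at e1
    exact (mul_le_mul_of_nonneg_left (hWA f) hϖ.le).trans e1
  have hsq := sq_le hW hW0 hϖ hδ hWϖ h
  rw [← hu] at hsq
  have hpu : 0 ≤ ϖ * (u ⬝ᵥ u) := mul_nonneg hϖ.le huu
  refine ⟨?_, ?_, hW0 h⟩
  · rw [qf_add, qf_neg, qf_sum]
    have e1 : qf (W * l * W) h = qf l u := by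
      have e2 := qf_conj W l h
      rw [hW] at e2
      rw [e2, hu]
    have e3 : ∀ c, qf (W * g c * W * g c * W) h = qf W (g c *ᵥ u) := by
      intro c
      have e2 := qf_conj (g c * W) W h
      rw [Matrix.transpose_mul, hW, hg] at e2
      rw [hu, Matrix.mulVec_mulVec, ← e2]
      congr 1
      simp only [mul_assoc]
    rw [e1, Finset.sum_congr rfl fun c _ => e3 c]
    have e4 : ∑ c, qf W (g c *ᵥ u) ≤ ν * qf W h := by
      refine (Finset.sum_le_sum fun c _ => hWA _).trans ((hgA u).trans ?_)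
      refine mul_le_mul_of_nonneg_left ?_ hν
      rw [hqW]
      linarith only [hs0, hpu]
    have e5 := hl u
    rw [sq_dot, div_le_iff₀ hτ] at e5
    have e6 : -qf l u ≤ (1 / τ) * (-(1 - 2 * δ) * qf W h + h ⬝ᵥ h) := by
      rw [one_div, inv_mul_eq_div, le_div_iff₀ hτ, hqW, hhh]
      have e7 : (1 - δ) * (ϖ * (u ⬝ᵥ u)) ≤ δ * (qf v u + N * s ^ 2) := by
        rw [hqW] at hsq
        nlinarith only [hsq]
      have e8 : 0 ≤ ϖ * qf v u := mul_nonneg hϖ.le hvu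
      have e9 : 0 ≤ ϖ * (N * s ^ 2) := mul_nonneg hϖ.le hs0
      have e10 : 0 ≤ ϖ ^ 2 * (u ⬝ᵥ u) := by positivity
      have e11 : 0 ≤ δ * (N * s ^ 2) := mul_nonneg hδ hs0
      have e12 : 0 ≤ δ * (ϖ * (u ⬝ᵥ u)) := mul_nonneg hδ hpu
      nlinarith only [e5, e7, e8, e9, e10, e11, e12]
    linarith only [e4, e6]
  · rw [← hu, hqW]
    linarith only [hs0, hpu]

end Pool.Agent.LE.QF.H40
end
end -- Pool.Agent.Helper40_LQF.WTU1

section -- Pool.Agent.Helper40_LQF.WTU2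

/-!
# Squad LQF, row WTU, part 2: the inequality for the traces

Author: helper40.
-/

set_option autoImplicit false
set_option linter.unusedSectionVars false

open scoped BigOperators Matrix

noncomputable section

namespace Pool.Agent.LE.QF.H40

open Pool.Agent.LE.QF

variable {X : Type} [Fintype X] [DecidableEq X]

/-- diagonalization -/
theorem diag {Y : Matrix X X ℝ} (hY : Yᵀ = Y) : ∃ (e : X → X → ℝ) (lam : X → ℝ),
    (∀ i, e i ⬝ᵥ e i = 1) ∧ (∀ i, lam i = qf Y (e i)) ∧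
    ∀ (m : ℕ) (N : Matrix X X ℝ), Matrix.trace (Y ^ m * N) = ∑ i, lam i ^ m * qf N (e i) := by
  obtain ⟨U, lam, h1, h2, h3⟩ := Pool.Agent.Loc.exists_diag_real hY
  have hen : ∀ (N : Matrix X X ℝ) (i : X), (Uᵀ * (N * U)) i i = qf N (fun a => U a i) :=
    fun _ _ => rfl
  refine ⟨fun i a => U a i, lam, fun i => ?_, fun i => ?_, fun m N => ?_⟩
  · have h4 := hen 1 i
    rw [one_mul, h1, Matrix.one_apply_eq, qf_one] at h4
    exact h4.symm
  · have h4 := hen Y i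
    have h5 := h3 1
    rw [pow_one] at h5
    rw [h5, mul_assoc, mul_assoc, h1, mul_one, ← mul_assoc, h1, one_mul,
      Matrix.diagonal_apply_eq, pow_one] at h4
    rw [h4]
    exact congrArg (fun M => qf M (fun a => U a i)) h5.symm
  · rw [h3 m, mul_assoc, mul_assoc, Matrix.trace_mul_comm, mul_assoc, mul_assoc, Matrix.trace]
    refine Finset.sum_congr rfl fun i _ => ?_
    rw [Matrix.diag_apply, Matrix.diagonal_mul, hen]

/-- a factorization of the inverse of a positive definite matrix -/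
theorem fac {A : Matrix X X ℝ} (hA : Aᵀ = A) {e₀ : ℝ} (he : 0 < e₀)
    (h : ∀ f : X → ℝ, e₀ * (f ⬝ᵥ f) ≤ qf A f) : ∃ D : Matrix X X ℝ, Dᵀ * A * D = 1 := by
  obtain ⟨U, lam, h1, h2, h3⟩ := Pool.Agent.Loc.exists_diag_real hA
  have h5 := h3 1
  rw [pow_one] at h5
  have hpos : ∀ i, 0 < lam i := by
    intro i
    have h6 : (Uᵀ * (A * U)) i i = qf A (fun a => U a i) := rfl
    have h7 : (Uᵀ * ((1 : Matrix X X ℝ) * U)) i i = qf (1 : Matrix X X ℝ) (fun a => U a i) := rfl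
    rw [one_mul, h1, Matrix.one_apply_eq, qf_one] at h7
    rw [h5, mul_assoc, mul_assoc, h1, mul_one, ← mul_assoc, h1, one_mul,
      Matrix.diagonal_apply_eq, pow_one] at h6
    have h8 := h (fun a => U a i)
    rw [← h7, mul_one] at h8
    rw [h6]
    have h9 : qf (U * Matrix.diagonal (fun l => lam l ^ 1) * Uᵀ) (fun a => U a i) =
        qf A (fun a => U a i) := congrArg (fun M => qf M (fun a => U a i)) h5.symm
    have h10 : 0 < qf A (fun a => U a i) := by linarith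
    exact lt_of_lt_of_eq h10 h9.symm
  refine ⟨U * Matrix.diagonal fun i => (Real.sqrt (lam i))⁻¹, ?_⟩
  rw [Matrix.transpose_mul, Matrix.diagonal_transpose, h5]
  have h6 : Matrix.diagonal (fun i => (Real.sqrt (lam i))⁻¹) * Uᵀ *
      (U * Matrix.diagonal (fun l => lam l ^ 1) * Uᵀ) *
      (U * Matrix.diagonal fun i => (Real.sqrt (lam i))⁻¹) =
      Matrix.diagonal (fun i => (Real.sqrt (lam i))⁻¹) * (Uᵀ * U) *
        Matrix.diagonal (fun l => lam l ^ 1) * (Uᵀ * U) *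
        Matrix.diagonal fun i => (Real.sqrt (lam i))⁻¹ := by
    simp only [mul_assoc]
  rw [h6, h1, mul_one, mul_one, Matrix.diagonal_mul_diagonal, Matrix.diagonal_mul_diagonal,
    ← Matrix.diagonal_one]
  congr 1
  funext i
  have h7 := hpos i
  have h8 : Real.sqrt (lam i) ≠ 0 := (Real.sqrt_pos.2 h7).ne'
  have h9 : Real.sqrt (lam i) * Real.sqrt (lam i) = lam i := Real.mul_self_sqrt h7.le
  field_simp
  rw [pow_two, h9]

/-- the scalar inequality -/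
theorem scal {y e₀ : ℝ} (hy : 0 ≤ y) (he : 1 ≤ e₀) (k : ℕ) :
    y ^ k - e₀ * y ^ (k + 1) ≤ (1 / e₀) ^ k := by
  have he0 : 0 < e₀ := by linarith
  rcases le_or_gt y (1 / e₀) with h | h
  · have h1 : y ^ k ≤ (1 / e₀) ^ k := pow_le_pow_left₀ hy h k
    have h2 : 0 ≤ e₀ * y ^ (k + 1) := by positivity
    linarith
  · have h1 : 1 < e₀ * y := by
      rw [div_lt_iff₀ he0] at h
      linarith
    have h2 : y ^ k - e₀ * y ^ (k + 1) = y ^ k * (1 - e₀ * y) := by ring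
    rw [h2]
    have h3 : y ^ k * (1 - e₀ * y) ≤ 0 :=
      mul_nonpos_of_nonneg_of_nonpos (by positivity) (by linarith)
    exact h3.trans (by positivity)

section core

variable {A D W : Matrix X X ℝ}

theorem R_pow (h1 : Dᵀ * A * D = 1) (h2 : D * Dᵀ * A = 1) (k : ℕ) :
    (D * Dᵀ * W) ^ k = D * (Dᵀ * W * D) ^ k * Dᵀ * A := by
  induction k with
  | zero => rw [pow_zero, pow_zero, mul_one, h2]
  | succ k ih =>
    rw [pow_succ, ih, pow_succ]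
    calc D * (Dᵀ * W * D) ^ k * Dᵀ * A * (D * Dᵀ * W) =
        D * (Dᵀ * W * D) ^ k * (Dᵀ * A * D) * Dᵀ * W := by simp only [mul_assoc]
      _ = D * (Dᵀ * W * D) ^ k * Dᵀ * W * (D * Dᵀ * A) := by rw [h1, h2, mul_one, mul_one]
      _ = D * ((Dᵀ * W * D) ^ k * (Dᵀ * W * D)) * Dᵀ * A := by simp only [mul_assoc]

theorem tr1 (h1 : Dᵀ * A * D = 1) (h2 : D * Dᵀ * A = 1) (k : ℕ) :
    Matrix.trace ((D * Dᵀ * W) ^ k) = Matrix.trace ((Dᵀ * W * D) ^ k) := by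
  rw [R_pow h1 h2, mul_assoc, mul_assoc, Matrix.trace_mul_comm, mul_assoc, h1, mul_one]

theorem tr2 (h1 : Dᵀ * A * D = 1) (h2 : D * Dᵀ * A = 1) (k : ℕ) (N : Matrix X X ℝ) :
    Matrix.trace ((D * Dᵀ * W) ^ k * (D * Dᵀ * N)) =
      Matrix.trace ((Dᵀ * W * D) ^ k * (Dᵀ * N * D)) := by
  rw [R_pow h1 h2]
  have e : D * (Dᵀ * W * D) ^ k * Dᵀ * A * (D * Dᵀ * N) =
      D * ((Dᵀ * W * D) ^ k * (Dᵀ * A * D) * Dᵀ * N) := by simp only [mul_assoc]
  rw [e, h1, mul_one, Matrix.trace_mul_comm]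
  simp only [mul_assoc]

theorem tr3 (h1 : Dᵀ * A * D = 1) (h2 : D * Dᵀ * A = 1) (k : ℕ) (S : Matrix X X ℝ) :
    Matrix.trace ((D * Dᵀ * W) ^ k * (D * Dᵀ * S * (D * Dᵀ) * W)) =
      Matrix.trace ((Dᵀ * W * D) ^ (k + 1) * (Dᵀ * S * D)) := by
  have e0 : D * Dᵀ * S * (D * Dᵀ) * W = D * Dᵀ * (S * (D * Dᵀ) * W) := by
    simp only [mul_assoc]
  rw [e0, tr2 h1 h2]
  have e : (Dᵀ * W * D) ^ k * (Dᵀ * (S * (D * Dᵀ) * W) * D) =
      ((Dᵀ * W * D) ^ k * (Dᵀ * S * D)) * (Dᵀ * W * D) := by simp only [mul_assoc]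
  rw [e, Matrix.trace_mul_comm, ← mul_assoc, ← pow_succ']

theorem tr4 (h1 : Dᵀ * A * D = 1) (h2 : D * Dᵀ * A = 1) (i j : ℕ) (N : Matrix X X ℝ) :
    Matrix.trace (D * Dᵀ * N * (D * Dᵀ * W) ^ i * (D * Dᵀ * N) * (D * Dᵀ * W) ^ j) =
      Matrix.trace (Dᵀ * N * D * (Dᵀ * W * D) ^ i * (Dᵀ * N * D) * (Dᵀ * W * D) ^ j) := by
  rw [R_pow h1 h2, R_pow h1 h2]
  have e : D * Dᵀ * N * (D * (Dᵀ * W * D) ^ i * Dᵀ * A) * (D * Dᵀ * N) *
      (D * (Dᵀ * W * D) ^ j * Dᵀ * A) =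
      D * (Dᵀ * N * D * (Dᵀ * W * D) ^ i * (Dᵀ * A * D) * (Dᵀ * N * D) *
        (Dᵀ * W * D) ^ j * Dᵀ * A) := by simp only [mul_assoc]
  rw [e, h1, mul_one, Matrix.trace_mul_comm, mul_assoc _ Dᵀ A, mul_assoc _ (Dᵀ * A) D, h1,
    mul_one]

end core

/-- the main inequality -/
theorem main (tri : TriStmt) {v l S W A : Matrix X X ℝ} {g : X → Matrix X X ℝ}
    {e₀ ϖ δ ν τ : ℝ} {p : ℕ} (hτ : 0 < τ) (hp : 2 ≤ p) (he : 1 ≤ e₀) (hϖ : 0 < ϖ) (hδ : 0 ≤ δ)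
    (hν : 0 ≤ ν) (hv : vᵀ = v) (hv0 : ∀ f, 0 ≤ qf v f) (hv1 : ∀ a, ∑ b, v a b = 0)
    (hg : ∀ c, (g c)ᵀ = g c) (hS : Sᵀ = S) (hS0 : ∀ f, 0 ≤ qf S f)
    (hl : ∀ f : X → ℝ, ((1 - δ) * qf v f - ∑ a, (v *ᵥ f) a ^ 2) / τ ≤ qf l f)
    (hgA : ∀ f : X → ℝ, ∑ c, qf A (g c *ᵥ f) ≤ ν * qf v f)
    (hAϖ : ∀ f : X → ℝ, ϖ * qf A f ≤ δ * ∑ a, f a ^ 2)
    (hAe : A = e₀ • (1 : Matrix X X ℝ) + τ • S) (hW : Wᵀ = W)
    (hWB : (v + P0 X + ϖ • (1 : Matrix X X ℝ)) * W = 1) (hWA : ∀ f, qf W f ≤ qf A f)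
    (hAB : ∀ f, qf A⁻¹ f ≤ qf (v + P0 X + ϖ • (1 : Matrix X X ℝ)) f) :
    p * Matrix.trace ((A⁻¹ * W) ^ (p - 1) *
        (A⁻¹ * (-(W * l * W) + ∑ c, W * g c * W * g c * W) + A⁻¹ * S * A⁻¹ * W)) +
      p / 2 * ∑ c, ∑ i ∈ Finset.range (p - 1), Matrix.trace (A⁻¹ * (-(W * g c * W)) *
        (A⁻¹ * W) ^ i * (A⁻¹ * (-(W * g c * W))) * (A⁻¹ * W) ^ (p - 2 - i)) ≤
    (p * (2 * δ / τ + ν) + p ^ 2 * ν * e₀) * Matrix.trace ((A⁻¹ * W) ^ p) +
      Fintype.card X * (1 / e₀) ^ p * (p / τ + p ^ 2 * ν * e₀) := by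
  have he0 : 0 < e₀ := by linarith only [he]
  have hAs : Aᵀ = A := by
    rw [hAe, Matrix.transpose_add, Matrix.transpose_smul, Matrix.transpose_smul,
      Matrix.transpose_one, hS]
  have hqA : ∀ f : X → ℝ, qf A f = e₀ * (f ⬝ᵥ f) + τ * qf S f := by
    intro f
    rw [hAe, qf_add, qf_smul, qf_smul, qf_one]
  obtain ⟨D, h1⟩ := fac hAs he0 (fun f => by
    rw [hqA]
    have := mul_nonneg hτ.le (hS0 f)
    linarith)
  -- the inverse
  have h3 : A * (D * Dᵀ) = 1 := by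
    have e : Dᵀ * (A * D) = 1 := by rw [← mul_assoc, h1]
    have e2 := mul_eq_one_comm.1 e
    rw [mul_assoc] at e2
    exact e2
  have h2 : D * Dᵀ * A = 1 := mul_eq_one_comm.1 h3
  have hinv : A⁻¹ = D * Dᵀ := Matrix.inv_eq_right_inv h3
  obtain ⟨Y, hY⟩ : ∃ Y, Y = Dᵀ * W * D := ⟨_, rfl⟩
  have hYs : Yᵀ = Y := by
    rw [hY, Matrix.transpose_mul, Matrix.transpose_mul, Matrix.transpose_transpose, hW, mul_assoc]
  obtain ⟨e, y, hee, hye, htr⟩ := diag hYs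
  have hform := form hτ hϖ hδ hv hv0 hv1 hg hl hgA hν hAϖ hW hWB hWA
  have hyD : ∀ i, y i = qf W (D *ᵥ e i) := by
    intro i
    rw [hye, hY, qf_conj]
  have hy0 : ∀ i, 0 ≤ y i := by
    intro i
    rw [hyD]
    exact (hform _).2.2
  obtain ⟨d, hd⟩ : ∃ d : X → ℝ, ∀ i, d i = (D *ᵥ e i) ⬝ᵥ (D *ᵥ e i) := ⟨_, fun _ => rfl⟩
  have hd0 : ∀ i, 0 ≤ d i := by
    intro i
    rw [hd]
    exact dot_nn _
  have hdS : ∀ i, e₀ * d i + τ * qf S (D *ᵥ e i) = 1 := by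
    intro i
    have e1 := qf_conj D A (e i)
    rw [h1, qf_one, hee, hqA, ← hd] at e1
    exact e1.symm
  have hd1 : ∀ i, d i ≤ 1 / e₀ := by
    intro i
    rw [le_div_iff₀ he0]
    have e1 := hdS i
    have e2 := mul_nonneg hτ.le (hS0 (D *ᵥ e i))
    linarith
  obtain ⟨k, rfl⟩ : ∃ k, p = k + 2 := ⟨p - 2, by omega⟩
  have ek1 : k + 2 - 1 = k + 1 := rfl
  have ek2 : k + 2 - 2 = k := rfl
  rw [ek1, ek2, hinv]
  -- the traces of the powers
  have htp : ∀ m : ℕ, Matrix.trace ((D * Dᵀ * W) ^ m) = ∑ i, y i ^ m := by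
    intro m
    rw [tr1 h1 h2, ← hY]
    have e1 := htr m 1
    rw [mul_one] at e1
    rw [e1]
    refine Finset.sum_congr rfl fun i _ => ?_
    rw [qf_one, hee, mul_one]
  -- first order
  obtain ⟨Wl, hWl⟩ : ∃ Wl, Wl = -(W * l * W) + ∑ c, W * g c * W * g c * W := ⟨_, rfl⟩
  have hT1 : Matrix.trace ((D * Dᵀ * W) ^ (k + 1) *
      (D * Dᵀ * Wl + D * Dᵀ * S * (D * Dᵀ) * W)) =
      ∑ i, (y i ^ (k + 1) * qf Wl (D *ᵥ e i) + y i ^ (k + 2) * qf S (D *ᵥ e i)) := by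
    rw [mul_add, Matrix.trace_add, tr2 h1 h2, tr3 h1 h2, ← hY, htr, htr,
      Finset.sum_add_distrib]
    congr 1
    · exact Finset.sum_congr rfl fun i _ => by rw [qf_conj]
    · exact Finset.sum_congr rfl fun i _ => by rw [qf_conj]
  have hT1' : Matrix.trace ((D * Dᵀ * W) ^ (k + 1) *
      (D * Dᵀ * Wl + D * Dᵀ * S * (D * Dᵀ) * W)) ≤
      ∑ i, ((2 * δ / τ + ν) * y i ^ (k + 2) + (1 / e₀) ^ (k + 2) / τ) := by
    rw [hT1]
    refine Finset.sum_le_sum fun i _ => ?_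
    have e1 := (hform (D *ᵥ e i)).1
    rw [← hWl, ← hyD, ← hd] at e1
    have e2 : qf S (D *ᵥ e i) = (1 - e₀ * d i) / τ := by
      rw [eq_div_iff hτ.ne']
      have := hdS i
      linarith only [this]
    have e3 : y i ^ (k + 1) * qf Wl (D *ᵥ e i) ≤
        y i ^ (k + 1) * ((1 / τ) * (-(1 - 2 * δ) * y i + d i) + ν * y i) :=
      mul_le_mul_of_nonneg_left e1 (pow_nonneg (hy0 i) _)
    have e4 := scal (hy0 i) he (k + 1)
    have e5 : d i * (y i ^ (k + 1) - e₀ * y i ^ (k + 1 + 1)) ≤ (1 / e₀) * (1 / e₀) ^ (k + 1) :=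
      (mul_le_mul_of_nonneg_left e4 (hd0 i)).trans
        (mul_le_mul_of_nonneg_right (hd1 i) (by positivity))
    have e6 : y i ^ (k + 1) * ((1 / τ) * (-(1 - 2 * δ) * y i + d i) + ν * y i) +
        y i ^ (k + 2) * ((1 - e₀ * d i) / τ) = (2 * δ / τ + ν) * y i ^ (k + 2) +
        d i * (y i ^ (k + 1) - e₀ * y i ^ (k + 1 + 1)) / τ := by
      field_simp
      ring
    have e7 : d i * (y i ^ (k + 1) - e₀ * y i ^ (k + 1 + 1)) / τ ≤ (1 / e₀) ^ (k + 2) / τ := by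
      refine div_le_div_of_nonneg_right ?_ hτ.le
      rw [show (1 / e₀) ^ (k + 2) = (1 / e₀) * (1 / e₀) ^ (k + 1) by ring]
      exact e5
    rw [e2]
    linarith only [e3, e6, e7]
  -- second order
  have hYp : Y.PosSemidef := by
    refine Matrix.PosSemidef.of_dotProduct_mulVec_nonneg ?_ fun x => ?_
    · unfold Matrix.IsHermitian
      rw [Matrix.conjTranspose_eq_transpose_of_trivial, hYs]
    · have e1 : star x ⬝ᵥ (Y *ᵥ x) = qf Y x := rfl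
      rw [e1, hY, qf_conj]
      exact (hform _).2.2
  have hN : ∀ c, Matrix.trace (Y ^ k * ((Dᵀ * (-(W * g c * W)) * D) *
      (Dᵀ * (-(W * g c * W)) * D))) ≤
      ∑ i, y i ^ k * qf A (g c *ᵥ (W *ᵥ (D *ᵥ e i))) := by
    intro c
    rw [htr]
    refine Finset.sum_le_sum fun i _ => mul_le_mul_of_nonneg_left ?_ (pow_nonneg (hy0 i) _)
    obtain ⟨z, hz⟩ : ∃ z, z = g c *ᵥ (W *ᵥ (D *ᵥ e i)) := ⟨_, rfl⟩
    rw [← hz]
    have hNs : (Dᵀ * (-(W * g c * W)) * D)ᵀ = Dᵀ * (-(W * g c * W)) * D := by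
      rw [Matrix.transpose_mul, Matrix.transpose_mul, Matrix.transpose_transpose,
        Matrix.transpose_neg, Matrix.transpose_mul, Matrix.transpose_mul, hW, hg]
      simp only [mul_assoc]
    have e1 : (Dᵀ * (-(W * g c * W)) * D) *ᵥ e i = -(Dᵀ *ᵥ (W *ᵥ z)) := by
      rw [hz]
      simp only [Matrix.mulVec_mulVec, mul_neg, neg_mul, Matrix.neg_mulVec, mul_assoc]
    have e2 : qf ((Dᵀ * (-(W * g c * W)) * D) * (Dᵀ * (-(W * g c * W)) * D)) (e i) =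
        qf (D * Dᵀ) (W *ᵥ z) := by
      rw [qf_dot, ← Matrix.mulVec_mulVec, sym_dot hNs, e1, neg_dotProduct, dotProduct_neg,
        neg_neg, qf_dot, ← Matrix.mulVec_mulVec, tr_dot D]
    rw [e2, ← hinv]
    refine (hAB _).trans ?_
    have e3 : qf (v + P0 X + ϖ • (1 : Matrix X X ℝ)) (W *ᵥ z) = qf W z := by
      rw [qf_dot, Matrix.mulVec_mulVec, hWB, Matrix.one_mulVec, qf_dot, dotProduct_comm]
    rw [e3]
    exact hWA z
  have hT2 : ∑ c, ∑ i ∈ Finset.range (k + 1), Matrix.trace (D * Dᵀ * (-(W * g c * W)) *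
        (D * Dᵀ * W) ^ i * (D * Dᵀ * (-(W * g c * W))) * (D * Dᵀ * W) ^ (k - i)) ≤
      (k + 1) * (ν * ∑ i, y i ^ (k + 1)) := by
    have e1 : ∀ c, ∑ i ∈ Finset.range (k + 1), Matrix.trace (D * Dᵀ * (-(W * g c * W)) *
        (D * Dᵀ * W) ^ i * (D * Dᵀ * (-(W * g c * W))) * (D * Dᵀ * W) ^ (k - i)) ≤
        (k + 1) * ∑ i, y i ^ k * qf A (g c *ᵥ (W *ᵥ (D *ᵥ e i))) := by
      intro c
      have e2 := tri ℝ X Y (Dᵀ * (-(W * g c * W)) * D) k hYp.1 (by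
        unfold Matrix.IsHermitian
        rw [Matrix.conjTranspose_eq_transpose_of_trivial]
        rw [Matrix.transpose_mul, Matrix.transpose_mul, Matrix.transpose_transpose,
          Matrix.transpose_neg, Matrix.transpose_mul, Matrix.transpose_mul, hW, hg]
        simp only [mul_assoc]) (Or.inl hYp)
      simp only [RCLike.re_to_real] at e2
      rw [Finset.sum_congr rfl fun i _ => by rw [tr4 h1 h2, ← hY]]
      refine e2.trans (mul_le_mul_of_nonneg_left (hN c) (by positivity))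
    refine (Finset.sum_le_sum fun c _ => e1 c).trans ?_
    rw [← Finset.mul_sum]
    refine mul_le_mul_of_nonneg_left ?_ (by positivity)
    rw [Finset.sum_comm, Finset.mul_sum]
    refine Finset.sum_le_sum fun i _ => ?_
    rw [← Finset.mul_sum]
    have e3 := hgA (W *ᵥ (D *ᵥ e i))
    have e4 := (hform (D *ᵥ e i)).2.1
    rw [← hyD] at e4
    calc y i ^ k * ∑ c, qf A (g c *ᵥ (W *ᵥ (D *ᵥ e i))) ≤ y i ^ k * (ν * y i) :=
          mul_le_mul_of_nonneg_left (e3.trans (mul_le_mul_of_nonneg_left e4 hν))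
            (pow_nonneg (hy0 i) _)
      _ = ν * y i ^ (k + 1) := by ring
  have hT3 : ∑ i, y i ^ (k + 1) ≤ e₀ * ∑ i, y i ^ (k + 2) +
      Fintype.card X * (1 / e₀) ^ (k + 1) := by
    have e1 : ∀ i, y i ^ (k + 1) ≤ e₀ * y i ^ (k + 2) + (1 / e₀) ^ (k + 1) := by
      intro i
      have := scal (hy0 i) he (k + 1)
      have e2 : k + 1 + 1 = k + 2 := rfl
      rw [e2] at this
      linarith only [this]
    refine (Finset.sum_le_sum fun i _ => e1 i).trans ?_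
    rw [Finset.sum_add_distrib, ← Finset.mul_sum, Finset.sum_const, nsmul_eq_mul,
      Finset.card_univ]
  rw [← hWl, htp]
  have hT1'' : Matrix.trace ((D * Dᵀ * W) ^ (k + 1) *
      (D * Dᵀ * Wl + D * Dᵀ * S * (D * Dᵀ) * W)) ≤
      (2 * δ / τ + ν) * ∑ i, y i ^ (k + 2) + Fintype.card X * ((1 / e₀) ^ (k + 2) / τ) := by
    refine hT1'.trans (le_of_eq ?_)
    rw [Finset.sum_add_distrib, ← Finset.mul_sum, Finset.sum_const, nsmul_eq_mul,
      Finset.card_univ]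
  obtain ⟨P, hP⟩ : ∃ P : ℝ, P = ∑ i, y i ^ (k + 2) := ⟨_, rfl⟩
  obtain ⟨Z, hZ⟩ : ∃ Z : ℝ, Z = Fintype.card X * (1 / e₀) ^ (k + 2) := ⟨_, rfl⟩
  have hP0 : 0 ≤ P := by
    rw [hP]
    exact Finset.sum_nonneg fun i _ => pow_nonneg (hy0 i) _
  have hZ0 : 0 ≤ Z := by rw [hZ]; positivity
  have hZ1 : Fintype.card X * (1 / e₀) ^ (k + 1) = e₀ * Z := by
    rw [hZ, pow_succ (1 / e₀) (k + 1)]
    calc (Fintype.card X : ℝ) * (1 / e₀) ^ (k + 1) =
        (Fintype.card X : ℝ) * ((1 / e₀) ^ (k + 1) * (e₀ * (1 / e₀))) := by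
          rw [mul_one_div_cancel he0.ne', mul_one]
      _ = e₀ * ((Fintype.card X : ℝ) * ((1 / e₀) ^ (k + 1) * (1 / e₀))) := by ring
  rw [hZ1, ← hP] at hT3
  rw [← hP] at hT1'' ⊢
  rw [← hZ]
  have hT1f : Matrix.trace ((D * Dᵀ * W) ^ (k + 1) *
      (D * Dᵀ * Wl + D * Dᵀ * S * (D * Dᵀ) * W)) ≤ (2 * δ / τ + ν) * P + Z / τ := by
    refine hT1''.trans (le_of_eq ?_)
    rw [hZ]
    ring
  have hT2f : ∑ c, ∑ i ∈ Finset.range (k + 1), Matrix.trace (D * Dᵀ * (-(W * g c * W)) *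
        (D * Dᵀ * W) ^ i * (D * Dᵀ * (-(W * g c * W))) * (D * Dᵀ * W) ^ (k - i)) ≤
      (k + 1) * (ν * (e₀ * (P + Z))) := by
    refine hT2.trans (mul_le_mul_of_nonneg_left (mul_le_mul_of_nonneg_left ?_ hν) (by positivity))
    linarith only [hT3]
  push_cast
  have hk2 : (0 : ℝ) ≤ (k : ℝ) + 2 := by positivity
  have f1 := mul_le_mul_of_nonneg_left hT1f hk2
  have f2 := mul_le_mul_of_nonneg_left hT2f (by positivity : (0 : ℝ) ≤ ((k : ℝ) + 2) / 2)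
  have f3 : ((k : ℝ) + 2) / 2 * (((k : ℝ) + 1) * (ν * (e₀ * (P + Z)))) ≤
      ((k : ℝ) + 2) ^ 2 * (ν * (e₀ * (P + Z))) := by
    have f4 : 0 ≤ ν * (e₀ * (P + Z)) := by positivity
    have f5 : ((k : ℝ) + 2) / 2 * ((k : ℝ) + 1) ≤ ((k : ℝ) + 2) ^ 2 := by
      have : (0 : ℝ) ≤ k := by positivity
      nlinarith only
    calc ((k : ℝ) + 2) / 2 * (((k : ℝ) + 1) * (ν * (e₀ * (P + Z)))) =
        (((k : ℝ) + 2) / 2 * ((k : ℝ) + 1)) * (ν * (e₀ * (P + Z))) := by ring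
      _ ≤ ((k : ℝ) + 2) ^ 2 * (ν * (e₀ * (P + Z))) := mul_le_mul_of_nonneg_right f5 f4
  have f6 : ((k : ℝ) + 2) * ((2 * δ / τ + ν) * P + Z / τ) +
      ((k : ℝ) + 2) ^ 2 * (ν * (e₀ * (P + Z))) =
      (((k : ℝ) + 2) * (2 * δ / τ + ν) + ((k : ℝ) + 2) ^ 2 * ν * e₀) * P +
        Z * (((k : ℝ) + 2) / τ + ((k : ℝ) + 2) ^ 2 * ν * e₀) := by ring
  linarith only [f1, f2, f3, f6]

end Pool.Agent.LE.QF.H40
end
end -- Pool.Agent.Helper40_LQF.WTU2

section -- Pool.Agent.Helper45_LQF.YTU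

/-!
# YTU: the part of `Y`
-/

set_option autoImplicit false

open MeasureTheory ProbabilityTheory Function Filter

open scoped ENNReal BigOperators Topology NNReal ComplexOrder Matrix

noncomputable section

namespace Pool.Agent.LE.QF.H45

open Pool.Agent.Anderson hiding box mem_box card_box
open Pool.Agent.Loc Pool.Agent.Mob Pool.Agent.Helper54.Bal
  Pool.Agent.Helper96.EXP Pool.Agent.BED
open Pool.Agent.LE.MN Pool.Agent.LE.CL Pool.Agent.LE.IR Pool.Agent.LE.QD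

variable {X : Type} [Fintype X] [DecidableEq X]

theorem dot_self (u : X → ℂ) : star u ⬝ᵥ u = ((n2 u : ℝ) : ℂ) := by
  unfold n2 dotProduct
  rw [Complex.ofReal_sum]
  apply Finset.sum_congr rfl
  intro i _
  rw [Pi.star_apply, mul_comm]
  have := Complex.mul_conj (u i)
  rw [Complex.normSq_eq_norm_sq] at this
  exact this

theorem n2_nonneg (u : X → ℂ) : 0 ≤ n2 u := by
  unfold n2
  positivity

/-- Cauchy-Schwarz -/
theorem dot_le (u w : X → ℂ) : ‖star u ⬝ᵥ w‖ ≤ Real.sqrt (n2 u) * Real.sqrt (n2 w) := by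
  unfold dotProduct
  refine (norm_sum_le _ _).trans ?_
  have h := Real.sum_mul_le_sqrt_mul_sqrt Finset.univ (fun i => ‖u i‖) (fun i => ‖w i‖)
  refine le_trans (le_of_eq ?_) h
  apply Finset.sum_congr rfl
  intro i _
  rw [norm_mul, Pi.star_apply, norm_star]

theorem tr_basis {P : Matrix X X ℂ} (hP : P.IsHermitian) :
    ∃ (u : X → X → ℂ) (lam : X → ℝ), (∀ i, P *ᵥ u i = (lam i : ℂ) • u i) ∧
      (∀ i, n2 (u i) = 1) ∧ ∀ A : Matrix X X ℂ,
        Matrix.trace A = ∑ i, star (u i) ⬝ᵥ (A *ᵥ u i) := by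
  set U : Matrix X X ℂ := (hP.eigenvectorUnitary : Matrix X X ℂ) with hU
  have hUU : U * star U = 1 := by
    rw [hU]
    exact Unitary.coe_mul_star_self hP.eigenvectorUnitary
  have hUU' : star U * U = 1 := by
    rw [hU]
    exact Unitary.coe_star_mul_self hP.eigenvectorUnitary
  have hent : ∀ (A : Matrix X X ℂ) (i j : X),
      (star U * A * U) i j = star (fun k => U k i) ⬝ᵥ (A *ᵥ fun k => U k j) := by
    intro A i j
    rw [Matrix.mul_assoc, Matrix.mul_apply]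
    unfold dotProduct
    apply Finset.sum_congr rfl
    intro k _
    rw [Matrix.star_apply, Pi.star_apply]
    rfl
  refine ⟨fun i => fun k => U k i, hP.eigenvalues, fun i => ?_, fun i => ?_, fun A => ?_⟩
  · have h := hP.mulVec_eigenvectorBasis i
    have e : (fun k => U k i) = (hP.eigenvectorBasis i).ofLp := by
      funext k
      rw [hU]
      rfl
    change P *ᵥ (fun k => U k i) = ((hP.eigenvalues i : ℝ) : ℂ) • (fun k => U k i)
    rw [e, h]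
    funext k
    simp
  · have h := hent 1 i i
    rw [Matrix.mul_one, hUU', Matrix.one_mulVec, dot_self, Matrix.one_apply_eq] at h
    exact_mod_cast h.symm
  · have h : Matrix.trace A = Matrix.trace (star U * A * U) := by
      rw [Matrix.trace_mul_comm, ← Matrix.mul_assoc, hUU, Matrix.one_mul]
    rw [h, Matrix.trace]
    exact Finset.sum_congr rfl fun i _ => by rw [Matrix.diag_apply, hent]

theorem pow_eig {P : Matrix X X ℂ} {u : X → ℂ} {lam : ℝ} (h : P *ᵥ u = (lam : ℂ) • u) (m : ℕ) :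
    P ^ m *ᵥ u = ((lam ^ m : ℝ) : ℂ) • u := by
  induction m with
  | zero => simp
  | succ m ih =>
    rw [pow_succ, ← Matrix.mulVec_mulVec, h, Matrix.mulVec_smul, ih, smul_smul]
    congr 1
    push_cast
    ring

theorem pow_two_sub {x : ℝ} (hx : 0 ≤ x) {n : ℕ} (hn : 1 ≤ n) :
    x ^ (2 * n - 1) ≤ 2 * (x ^ (2 * n) + (1 / 4) ^ n) ∧
      x ^ (2 * n - 2) ≤ 4 * (x ^ (2 * n) + (1 / 4) ^ n) := by
  obtain ⟨m, rfl⟩ : ∃ m, n = m + 1 := ⟨n - 1, by omega⟩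
  have e1 : 2 * (m + 1) - 1 = 2 * m + 1 := by omega
  have e2 : 2 * (m + 1) - 2 = 2 * m := by omega
  rw [e1, e2]
  have hq : (1 / 4 : ℝ) ^ (m + 1) = (1 / 2) ^ (2 * m) * (1 / 4) := by
    rw [pow_succ, pow_mul]
    norm_num
  rcases le_total (1 / 2) x with h | h
  · have h0 : 0 ≤ x ^ (2 * m) := by positivity
    have e3 : x ^ (2 * (m + 1)) = x ^ (2 * m) * x * x := by ring
    have e4 : x ^ (2 * m + 1) = x ^ (2 * m) * x := by ring
    have h4 : 0 ≤ (1 / 4 : ℝ) ^ (m + 1) := by positivity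
    rw [e3, e4]
    have h1 : x ^ (2 * m) * x ≤ x ^ (2 * m) * x * (2 * x) :=
      le_mul_of_one_le_right (by positivity) (by linarith only [h])
    have h2 : x ^ (2 * m) ≤ x ^ (2 * m) * (2 * x) :=
      le_mul_of_one_le_right h0 (by linarith only [h])
    constructor
    · linarith only [h4, h1]
    · nlinarith only [h4, h1, h2]
  · have h0 : x ^ (2 * m) ≤ (1 / 2) ^ (2 * m) := pow_le_pow_left₀ hx h _
    have e4 : x ^ (2 * m + 1) = x ^ (2 * m) * x := by ring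
    have h5 : 0 ≤ x ^ (2 * (m + 1)) := by positivity
    have h6 : 0 ≤ (1 / 2 : ℝ) ^ (2 * m) := by positivity
    rw [hq, e4]
    constructor
    · have : x ^ (2 * m) * x ≤ (1 / 2) ^ (2 * m) * (1 / 2) :=
        mul_le_mul h0 h hx h6
      linarith only [h5, this]
    · linarith only [h0, h5]

theorem ytu (ytj : YtjStmt) (jal : JalStmt) : YtuStmt := by
  intro ι _ _ q X _ _ F v e g τ ε ε₁ ν n hτ hε hε₁ hν hn hF hv he hg hg'
  obtain ⟨g₁, l₁, hJ, hl⟩ := ytj ι q X F v _ g n ν hF hn hν hg hg'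
  have hc := (jal ι ℝ q).1 ((ε₁ ^ (2 * n))⁻¹)
  have hm := ((jal ι ℝ q).2.2.1 _ _ _ _ _ _ _ _ hJ hc).2.2
  have hc0 : 0 < (ε₁ ^ (2 * n))⁻¹ := by positivity
  refine ⟨_, _, by simpa only [div_eq_mul_inv] using hm, ?_⟩
  set P : Matrix X X ℂ := v * vᴴ with hPdef
  have hP : P.IsHermitian := Matrix.isHermitian_mul_conjTranspose_self v
  obtain ⟨u, lam, hu, h1, htr⟩ := tr_basis hP
  -- the eigenvalues
  have hvu : ∀ i, n2 (vᴴ *ᵥ u i) = lam i := by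
    intro i
    have h := dot_self (vᴴ *ᵥ u i)
    have h2 : star (vᴴ *ᵥ u i) ⬝ᵥ (vᴴ *ᵥ u i) = star (u i) ⬝ᵥ (P *ᵥ u i) := by
      rw [Matrix.star_mulVec, Matrix.conjTranspose_conjTranspose, ← Matrix.dotProduct_mulVec,
        Matrix.mulVec_mulVec]
    rw [h2, hu i, dotProduct_smul, dot_self, h1 i] at h
    have h3 : ((lam i : ℝ) : ℂ) = ((n2 (vᴴ *ᵥ u i) : ℝ) : ℂ) := by
      rw [← h]
      simp
    exact_mod_cast h3.symm
  have hlam : ∀ i, 0 ≤ lam i := fun i => by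
    rw [← hvu i]
    exact n2_nonneg _
  have htP : ∀ (A : Matrix X X ℂ) (m : ℕ),
      Matrix.trace (A * P ^ m) = ∑ i, ((lam i ^ m : ℝ) : ℂ) * (star (u i) ⬝ᵥ (A *ᵥ u i)) := by
    intro A m
    rw [htr]
    apply Finset.sum_congr rfl
    intro i _
    rw [← Matrix.mulVec_mulVec, pow_eig (hu i), Matrix.mulVec_smul, dotProduct_smul, smul_eq_mul]
  have htp : ∀ m : ℕ, (Matrix.trace (P ^ m)).re = ∑ i, lam i ^ m := by
    intro m
    have h := htP 1 m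
    rw [Matrix.one_mul] at h
    rw [h, Complex.re_sum]
    apply Finset.sum_congr rfl
    intro i _
    rw [Matrix.one_mulVec, dot_self, h1 i, Complex.re_ofReal_mul]
    simp
  -- the drift
  have hd1 : (Matrix.trace (v * P ^ n)).re ≤ ∑ i, lam i ^ n := by
    rw [htP, Complex.re_sum]
    apply Finset.sum_le_sum
    intro i _
    rw [Complex.re_ofReal_mul]
    have h2 : (star (u i) ⬝ᵥ (v *ᵥ u i)).re ≤ 1 := by
      refine (Complex.re_le_norm _).trans ((dot_le _ _).trans ?_)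
      rw [h1 i, Real.sqrt_one, one_mul]
      rw [Real.sqrt_le_one]
      have := hv (u i)
      rw [h1 i] at this
      exact this
    calc lam i ^ n * (star (u i) ⬝ᵥ (v *ᵥ u i)).re ≤ lam i ^ n * 1 :=
          mul_le_mul_of_nonneg_left h2 (pow_nonneg (hlam i) _)
      _ = _ := mul_one _
  have hd2 : (Matrix.trace (e * vᴴ * P ^ (n - 1))).re ≤
      ∑ i, lam i ^ (n - 1) * (ε * Real.sqrt (lam i)) := by
    rw [htP, Complex.re_sum]
    apply Finset.sum_le_sum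
    intro i _
    rw [Complex.re_ofReal_mul]
    refine mul_le_mul_of_nonneg_left ?_ (pow_nonneg (hlam i) _)
    refine (Complex.re_le_norm _).trans ((dot_le _ _).trans ?_)
    rw [h1 i, Real.sqrt_one, one_mul, ← Matrix.mulVec_mulVec]
    have h3 := he (vᴴ *ᵥ u i)
    rw [hvu i] at h3
    calc Real.sqrt (n2 (e *ᵥ (vᴴ *ᵥ u i))) ≤ Real.sqrt (ε ^ 2 * lam i) := Real.sqrt_le_sqrt h3
      _ = ε * Real.sqrt (lam i) := by
        rw [Real.sqrt_mul (sq_nonneg ε), Real.sqrt_sq hε]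
  have hsplit : (Matrix.trace (P ^ (n - 1) * (-(((1 / τ : ℝ) : ℂ) • (v - v * v)) + e) * vᴴ)).re =
      -(1 / τ) * (∑ i, lam i ^ n - (Matrix.trace (v * P ^ n)).re) +
        (Matrix.trace (e * vᴴ * P ^ (n - 1))).re := by
    have e1 : P ^ (n - 1) * (-(((1 / τ : ℝ) : ℂ) • (v - v * v)) + e) * vᴴ =
        -(((1 / τ : ℝ) : ℂ) • (P ^ (n - 1) * P - P ^ (n - 1) * (v * P))) +
          P ^ (n - 1) * (e * vᴴ) := by
      rw [hPdef]
      simp only [Matrix.mul_add, Matrix.add_mul, Matrix.mul_neg, Matrix.neg_mul,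
        Matrix.mul_smul, Matrix.smul_mul, Matrix.mul_sub, Matrix.sub_mul, Matrix.mul_assoc]
    have e2 : P ^ (n - 1) * P = P ^ n := by
      rw [← pow_succ]
      congr 1
      omega
    have e3 : Matrix.trace (P ^ (n - 1) * (v * P)) = Matrix.trace (v * P ^ n) := by
      rw [Matrix.trace_mul_comm, Matrix.mul_assoc, ← pow_succ']
      congr 3
      omega
    rw [e1, Matrix.trace_add, Matrix.trace_neg, Matrix.trace_smul, Matrix.trace_sub, e2, e3,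
      Matrix.trace_mul_comm (P ^ (n - 1)) (e * vᴴ), Complex.add_re, Complex.neg_re, smul_eq_mul,
      Complex.re_ofReal_mul, Complex.sub_re, htp]
    ring
  rw [hsplit, htp] at hl
  have hl2 : l₁ ≤ 2 * n * ∑ i, lam i ^ (n - 1) * (ε * Real.sqrt (lam i)) +
      n * (2 * n - 1) * ν * ∑ i, lam i ^ (n - 1) := by
    refine hl.trans ?_
    have h3 : 0 ≤ (1 / τ) * (∑ i, lam i ^ n - (Matrix.trace (v * P ^ n)).re) := by
      have : 0 < 1 / τ := by positivity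
      exact mul_nonneg this.le (by linarith only [hd1])
    have h4 : -(1 / τ) * (∑ i, lam i ^ n - (Matrix.trace (v * P ^ n)).re) +
        (Matrix.trace (e * vᴴ * P ^ (n - 1))).re ≤
        ∑ i, lam i ^ (n - 1) * (ε * Real.sqrt (lam i)) := by linarith only [hd2, h3]
    have h5 : (0 : ℝ) ≤ 2 * n := by positivity
    have := mul_le_mul_of_nonneg_left h4 h5
    linarith only [this]
  -- scaling
  have hn1 : (1 : ℝ) ≤ n := by exact_mod_cast hn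
  have hscale : ∀ i, ∃ x : ℝ, 0 ≤ x ∧ lam i = (x * ε₁) ^ 2 := by
    intro i
    refine ⟨Real.sqrt (lam i) / ε₁, by positivity, ?_⟩
    rw [div_mul_cancel₀ _ hε₁.ne', Real.sq_sqrt (hlam i)]
  choose x hx0 hx using hscale
  have hsq : ∀ i, Real.sqrt (lam i) = x i * ε₁ := fun i => by
    rw [hx i, Real.sqrt_sq (mul_nonneg (hx0 i) hε₁.le)]
  obtain ⟨m, rfl⟩ : ∃ m, n = m + 1 := ⟨n - 1, by omega⟩
  have i1 : ∀ i, lam i ^ (m + 1) * (ε₁ ^ (2 * (m + 1)))⁻¹ = x i ^ (2 * (m + 1)) := by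
    intro i
    rw [hx i, ← pow_mul, mul_pow, mul_assoc, mul_inv_cancel₀ (by positivity), mul_one]
  have i2 : ∀ i, lam i ^ (m + 1 - 1) * (ε * Real.sqrt (lam i)) * (ε₁ ^ (2 * (m + 1)))⁻¹ =
      ε / ε₁ * x i ^ (2 * (m + 1) - 1) := by
    intro i
    rw [hsq i, hx i]
    have e1 : m + 1 - 1 = m := by omega
    have e2 : 2 * (m + 1) - 1 = 2 * m + 1 := by omega
    rw [e1, e2, ← pow_mul]
    field_simp
    ring
  have i3 : ∀ i, lam i ^ (m + 1 - 1) * (ε₁ ^ (2 * (m + 1)))⁻¹ =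
      1 / ε₁ ^ 2 * x i ^ (2 * (m + 1) - 2) := by
    intro i
    rw [hx i]
    have e1 : m + 1 - 1 = m := by omega
    have e2 : 2 * (m + 1) - 2 = 2 * m := by omega
    rw [e1, e2, ← pow_mul]
    field_simp
    ring
  set S : ℝ := ∑ i, (x i ^ (2 * (m + 1)) + (1 / 4) ^ (m + 1)) with hS
  have hS0 : 0 ≤ S := Finset.sum_nonneg fun i _ => by
    have := hx0 i
    positivity
  have s1 : (Matrix.trace (P ^ (m + 1))).re / ε₁ ^ (2 * (m + 1)) +
      Fintype.card X * (1 / 4) ^ (m + 1) = S := by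
    rw [div_eq_mul_inv, htp, Finset.sum_mul, hS, Finset.sum_add_distrib]
    congr 1
    · exact Finset.sum_congr rfl fun i _ => i1 i
    · rw [Finset.sum_const, Finset.card_univ, nsmul_eq_mul]
  have s2 : (∑ i, lam i ^ (m + 1 - 1) * (ε * Real.sqrt (lam i))) * (ε₁ ^ (2 * (m + 1)))⁻¹ ≤
      ε / ε₁ * (2 * S) := by
    rw [Finset.sum_mul, hS, Finset.mul_sum, Finset.mul_sum]
    apply Finset.sum_le_sum
    intro i _
    rw [i2 i]
    exact mul_le_mul_of_nonneg_left (pow_two_sub (hx0 i) hn).1 (by positivity)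
  have s3 : (∑ i, lam i ^ (m + 1 - 1)) * (ε₁ ^ (2 * (m + 1)))⁻¹ ≤ 1 / ε₁ ^ 2 * (4 * S) := by
    rw [Finset.sum_mul, hS, Finset.mul_sum, Finset.mul_sum]
    apply Finset.sum_le_sum
    intro i _
    rw [i3 i]
    exact mul_le_mul_of_nonneg_left (pow_two_sub (hx0 i) hn).2 (by positivity)
  have hl3 := mul_le_mul_of_nonneg_right hl2 hc0.le
  set c : ℝ := (ε₁ ^ (2 * (m + 1)))⁻¹
  set T1 : ℝ := ∑ i, lam i ^ (m + 1 - 1) * (ε * Real.sqrt (lam i))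
  set T2 : ℝ := ∑ i, lam i ^ (m + 1 - 1)
  rw [s1]
  set k : ℝ := ((m + 1 : ℕ) : ℝ) with hk
  have hk0 : 0 ≤ k := by positivity
  have b1 : 2 * k * (T1 * c) ≤ 2 * k * (ε / ε₁ * (2 * S)) :=
    mul_le_mul_of_nonneg_left s2 (by positivity)
  have b2 : k * (2 * k - 1) * ν * (T2 * c) ≤ k * (2 * k - 1) * ν * (1 / ε₁ ^ 2 * (4 * S)) := by
    refine mul_le_mul_of_nonneg_left s3 ?_
    have : 0 ≤ 2 * k - 1 := by linarith only [hn1]
    positivity
  have b3 : k * (2 * k - 1) * ν * (1 / ε₁ ^ 2 * (4 * S)) ≤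
      8 * k ^ 2 * ν / ε₁ ^ 2 * S := by
    have e1 : 8 * k ^ 2 * ν / ε₁ ^ 2 * S - k * (2 * k - 1) * ν * (1 / ε₁ ^ 2 * (4 * S)) =
        4 * k * ν * (1 / ε₁ ^ 2) * S := by ring
    have : 0 ≤ 4 * k * ν * (1 / ε₁ ^ 2) * S := by positivity
    linarith only [e1, this]
  have e0 : ∀ A : ℝ, A * 0 + l₁ * c + ∑ _c : ι, g₁ _c * 0 = l₁ * c := by
    intro A
    simp
  rw [e0]
  calc l₁ * c ≤ (2 * k * T1 + k * (2 * k - 1) * ν * T2) * c := hl3
    _ = 2 * k * (T1 * c) + k * (2 * k - 1) * ν * (T2 * c) := by ring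
    _ ≤ 2 * k * (ε / ε₁ * (2 * S)) + 8 * k ^ 2 * ν / ε₁ ^ 2 * S := by linarith only [b1, b2, b3]
    _ = (4 * k * ε / ε₁ + 8 * k ^ 2 * ν / ε₁ ^ 2) * S := by ring

end Pool.Agent.LE.QF.H45
end
end -- Pool.Agent.Helper45_LQF.YTU

section -- Pool.Agent.Helper48_AN2.MMU

/-!
# P1: one block of noise, matrix moments

`tr (F F^*)^n / ε₁^{2n}` for a matrix valued function `F` with a jet, drift `l + v a + b v`.
-/

set_option autoImplicit false

open MeasureTheory ProbabilityTheory Function Filter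

open scoped ENNReal BigOperators Topology NNReal ComplexOrder Matrix

noncomputable section

namespace Pool.Agent.AN2.H48

open Pool.Agent.Anderson hiding box mem_box card_box
open Pool.Agent.Loc Pool.Agent.Mob Pool.Agent.Helper54.Bal
  Pool.Agent.Helper96.EXP Pool.Agent.BED
open Pool.Agent.LE.MN Pool.Agent.LE.CL Pool.Agent.LE.IR Pool.Agent.LE.QD
open Pool.Agent.LE.QF Pool.Agent.LE.QF.H45

variable {X : Type} [Fintype X] [DecidableEq X]

/-- MMU: high powers of a matrix, drift `l + v a + b v`. -/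
def MmuStmt : Prop :=
  ∀ (ι : Type) [Fintype ι] [DecidableEq ι]
    (q : ℝ × (ι → ℝ)) (X : Type) [Fintype X] [DecidableEq X]
    (F : ℝ × (ι → ℝ) → Matrix X X ℂ) (v l a b : Matrix X X ℂ) (g : ι → Matrix X X ℂ)
    (α ε ε₁ ν : ℝ) (n : ℕ), 0 ≤ α → 0 ≤ ε → 0 < ε₁ → 0 ≤ ν → 1 ≤ n →
    HM F q v g (l + (v * a + b * v)) →
    (∀ u : X → ℂ, n2 (l *ᵥ u) ≤ ε ^ 2 * n2 u) →
    (∀ u : X → ℂ, n2 (a *ᵥ u) ≤ α ^ 2 * n2 u) → (∀ u : X → ℂ, n2 (b *ᵥ u) ≤ α ^ 2 * n2 u) →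
    (∀ u : X → ℂ, ∑ c, n2 (g c *ᵥ u) ≤ ν * n2 u) →
    (∀ u : X → ℂ, ∑ c, n2 ((g c)ᴴ *ᵥ u) ≤ ν * n2 u) →
      ∃ (g' : ι → ℝ) (l' : ℝ),
        HJ (fun r => (Matrix.trace ((F r * (F r)ᴴ) ^ n)).re / ε₁ ^ (2 * n)) q
          ((Matrix.trace ((v * vᴴ) ^ n)).re / ε₁ ^ (2 * n)) g' l' ∧
        l' ≤ (4 * n * ε / ε₁ + 8 * n ^ 2 * ν / ε₁ ^ 2 + 4 * n * α) *
          ((Matrix.trace ((v * vᴴ) ^ n)).re / ε₁ ^ (2 * n) + Fintype.card X * (1 / 4) ^ n)

theorem mmu (ytj : YtjStmt) (jal : JalStmt) : MmuStmt := by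
  intro ι _ _ q X _ _ F v e a b g α ε ε₁ ν n hα hε hε₁ hν hn hF he ha hb hg hg'
  obtain ⟨g₁, l₁, hJ, hl⟩ := ytj ι q X F v _ g n ν hF hn hν hg hg'
  have hc := (jal ι ℝ q).1 ((ε₁ ^ (2 * n))⁻¹)
  have hm := ((jal ι ℝ q).2.2.1 _ _ _ _ _ _ _ _ hJ hc).2.2
  have hc0 : 0 < (ε₁ ^ (2 * n))⁻¹ := by positivity
  refine ⟨_, _, by simpa only [div_eq_mul_inv] using hm, ?_⟩
  set P : Matrix X X ℂ := v * vᴴ with hPdef
  have hP : P.IsHermitian := Matrix.isHermitian_mul_conjTranspose_self v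
  obtain ⟨u, lam, hu, h1, htr⟩ := tr_basis hP
  -- the eigenvalues
  have hvu : ∀ i, n2 (vᴴ *ᵥ u i) = lam i := by
    intro i
    have h := dot_self (vᴴ *ᵥ u i)
    have h2 : star (vᴴ *ᵥ u i) ⬝ᵥ (vᴴ *ᵥ u i) = star (u i) ⬝ᵥ (P *ᵥ u i) := by
      rw [Matrix.star_mulVec, Matrix.conjTranspose_conjTranspose, ← Matrix.dotProduct_mulVec,
        Matrix.mulVec_mulVec]
    rw [h2, hu i, dotProduct_smul, dot_self, h1 i] at h
    have h3 : ((lam i : ℝ) : ℂ) = ((n2 (vᴴ *ᵥ u i) : ℝ) : ℂ) := by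
      rw [← h]
      simp
    exact_mod_cast h3.symm
  have hlam : ∀ i, 0 ≤ lam i := fun i => by
    rw [← hvu i]
    exact n2_nonneg _
  have htP : ∀ (A : Matrix X X ℂ) (m : ℕ),
      Matrix.trace (A * P ^ m) = ∑ i, ((lam i ^ m : ℝ) : ℂ) * (star (u i) ⬝ᵥ (A *ᵥ u i)) := by
    intro A m
    rw [htr]
    apply Finset.sum_congr rfl
    intro i _
    rw [← Matrix.mulVec_mulVec, pow_eig (hu i), Matrix.mulVec_smul, dotProduct_smul, smul_eq_mul]
  have htp : ∀ m : ℕ, (Matrix.trace (P ^ m)).re = ∑ i, lam i ^ m := by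
    intro m
    have h := htP 1 m
    rw [Matrix.one_mul] at h
    rw [h, Complex.re_sum]
    apply Finset.sum_congr rfl
    intro i _
    rw [Matrix.one_mulVec, dot_self, h1 i, Complex.re_ofReal_mul]
    simp
  -- the drift
  have hd1 : (Matrix.trace (b * P ^ n)).re ≤ ∑ i, lam i ^ n * α := by
    rw [htP, Complex.re_sum]
    apply Finset.sum_le_sum
    intro i _
    rw [Complex.re_ofReal_mul]
    refine mul_le_mul_of_nonneg_left ?_ (pow_nonneg (hlam i) _)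
    refine (Complex.re_le_norm _).trans ((dot_le _ _).trans ?_)
    rw [h1 i, Real.sqrt_one, one_mul]
    have := hb (u i)
    rw [h1 i, mul_one] at this
    exact Real.sqrt_le_iff.mpr ⟨hα, this⟩
  have hd3 : (Matrix.trace (v * a * vᴴ * P ^ (n - 1))).re ≤
      ∑ i, lam i ^ (n - 1) * (lam i * α) := by
    rw [htP, Complex.re_sum]
    apply Finset.sum_le_sum
    intro i _
    rw [Complex.re_ofReal_mul]
    refine mul_le_mul_of_nonneg_left ?_ (pow_nonneg (hlam i) _)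
    have e1 : star (u i) ⬝ᵥ ((v * a * vᴴ) *ᵥ u i) =
        star (vᴴ *ᵥ u i) ⬝ᵥ (a *ᵥ (vᴴ *ᵥ u i)) := by
      rw [Matrix.star_mulVec, Matrix.conjTranspose_conjTranspose, Matrix.mul_assoc,
        ← Matrix.mulVec_mulVec, Matrix.dotProduct_mulVec, Matrix.mulVec_mulVec]
    rw [e1]
    refine (Complex.re_le_norm _).trans ((dot_le _ _).trans ?_)
    have h3 := ha (vᴴ *ᵥ u i)
    rw [hvu i] at h3 ⊢
    have h4 : Real.sqrt (n2 (a *ᵥ (vᴴ *ᵥ u i))) ≤ α * Real.sqrt (lam i) := by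
      refine (Real.sqrt_le_sqrt h3).trans (le_of_eq ?_)
      rw [Real.sqrt_mul (sq_nonneg α), Real.sqrt_sq hα]
    calc Real.sqrt (lam i) * Real.sqrt (n2 (a *ᵥ (vᴴ *ᵥ u i))) ≤
          Real.sqrt (lam i) * (α * Real.sqrt (lam i)) :=
          mul_le_mul_of_nonneg_left h4 (Real.sqrt_nonneg _)
      _ = Real.sqrt (lam i) * Real.sqrt (lam i) * α := by ring
      _ = lam i * α := by rw [Real.mul_self_sqrt (hlam i)]
  have hd2 : (Matrix.trace (e * vᴴ * P ^ (n - 1))).re ≤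
      ∑ i, lam i ^ (n - 1) * (ε * Real.sqrt (lam i)) := by
    rw [htP, Complex.re_sum]
    apply Finset.sum_le_sum
    intro i _
    rw [Complex.re_ofReal_mul]
    refine mul_le_mul_of_nonneg_left ?_ (pow_nonneg (hlam i) _)
    refine (Complex.re_le_norm _).trans ((dot_le _ _).trans ?_)
    rw [h1 i, Real.sqrt_one, one_mul, ← Matrix.mulVec_mulVec]
    have h3 := he (vᴴ *ᵥ u i)
    rw [hvu i] at h3
    calc Real.sqrt (n2 (e *ᵥ (vᴴ *ᵥ u i))) ≤ Real.sqrt (ε ^ 2 * lam i) := Real.sqrt_le_sqrt h3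
      _ = ε * Real.sqrt (lam i) := by
        rw [Real.sqrt_mul (sq_nonneg ε), Real.sqrt_sq hε]
  have hsplit : (Matrix.trace (P ^ (n - 1) * (e + (v * a + b * v)) * vᴴ)).re =
      (Matrix.trace (v * a * vᴴ * P ^ (n - 1))).re + (Matrix.trace (b * P ^ n)).re +
        (Matrix.trace (e * vᴴ * P ^ (n - 1))).re := by
    have e1 : P ^ (n - 1) * (e + (v * a + b * v)) * vᴴ =
        P ^ (n - 1) * (e * vᴴ) + (P ^ (n - 1) * (v * a * vᴴ) + P ^ (n - 1) * (b * P)) := by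
      rw [hPdef]
      simp only [Matrix.mul_add, Matrix.add_mul, Matrix.mul_assoc]
    have e3 : Matrix.trace (P ^ (n - 1) * (b * P)) = Matrix.trace (b * P ^ n) := by
      rw [Matrix.trace_mul_comm, Matrix.mul_assoc, ← pow_succ']
      congr 3
      omega
    rw [e1, Matrix.trace_add, Matrix.trace_add, e3, Matrix.trace_mul_comm (P ^ (n - 1)) (e * vᴴ),
      Matrix.trace_mul_comm (P ^ (n - 1)) (v * a * vᴴ), Complex.add_re, Complex.add_re]
    ring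
  have hln : ∀ i, lam i ^ (n - 1) * (lam i * α) = lam i ^ n * α := by
    intro i
    rw [← mul_assoc, ← pow_succ]
    congr 2
    omega
  rw [Finset.sum_congr rfl fun i _ => hln i] at hd3
  rw [hsplit, htp] at hl
  have hl2 : l₁ ≤ 2 * n * (2 * ∑ i, lam i ^ n * α) +
      2 * n * ∑ i, lam i ^ (n - 1) * (ε * Real.sqrt (lam i)) +
      n * (2 * n - 1) * ν * ∑ i, lam i ^ (n - 1) := by
    refine hl.trans ?_
    have h4 : (Matrix.trace (v * a * vᴴ * P ^ (n - 1))).re + (Matrix.trace (b * P ^ n)).re +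
        (Matrix.trace (e * vᴴ * P ^ (n - 1))).re ≤
        2 * (∑ i, lam i ^ n * α) + ∑ i, lam i ^ (n - 1) * (ε * Real.sqrt (lam i)) := by linarith only [hd1, hd3, hd2]
    have h5 : (0 : ℝ) ≤ 2 * n := by positivity
    have := mul_le_mul_of_nonneg_left h4 h5
    linarith only [this]
  -- scaling
  have hn1 : (1 : ℝ) ≤ n := by exact_mod_cast hn
  have hscale : ∀ i, ∃ x : ℝ, 0 ≤ x ∧ lam i = (x * ε₁) ^ 2 := by
    intro i
    refine ⟨Real.sqrt (lam i) / ε₁, by positivity, ?_⟩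
    rw [div_mul_cancel₀ _ hε₁.ne', Real.sq_sqrt (hlam i)]
  choose x hx0 hx using hscale
  have hsq : ∀ i, Real.sqrt (lam i) = x i * ε₁ := fun i => by
    rw [hx i, Real.sqrt_sq (mul_nonneg (hx0 i) hε₁.le)]
  obtain ⟨m, rfl⟩ : ∃ m, n = m + 1 := ⟨n - 1, by omega⟩
  have i1 : ∀ i, lam i ^ (m + 1) * (ε₁ ^ (2 * (m + 1)))⁻¹ = x i ^ (2 * (m + 1)) := by
    intro i
    rw [hx i, ← pow_mul, mul_pow, mul_assoc, mul_inv_cancel₀ (by positivity), mul_one]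
  have i2 : ∀ i, lam i ^ (m + 1 - 1) * (ε * Real.sqrt (lam i)) * (ε₁ ^ (2 * (m + 1)))⁻¹ =
      ε / ε₁ * x i ^ (2 * (m + 1) - 1) := by
    intro i
    rw [hsq i, hx i]
    have e1 : m + 1 - 1 = m := by omega
    have e2 : 2 * (m + 1) - 1 = 2 * m + 1 := by omega
    rw [e1, e2, ← pow_mul]
    field_simp
    ring
  have i3 : ∀ i, lam i ^ (m + 1 - 1) * (ε₁ ^ (2 * (m + 1)))⁻¹ =
      1 / ε₁ ^ 2 * x i ^ (2 * (m + 1) - 2) := by
    intro i
    rw [hx i]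
    have e1 : m + 1 - 1 = m := by omega
    have e2 : 2 * (m + 1) - 2 = 2 * m := by omega
    rw [e1, e2, ← pow_mul]
    field_simp
    ring
  set S : ℝ := ∑ i, (x i ^ (2 * (m + 1)) + (1 / 4) ^ (m + 1)) with hS
  have hS0 : 0 ≤ S := Finset.sum_nonneg fun i _ => by
    have := hx0 i
    positivity
  have s1 : (Matrix.trace (P ^ (m + 1))).re / ε₁ ^ (2 * (m + 1)) +
      Fintype.card X * (1 / 4) ^ (m + 1) = S := by
    rw [div_eq_mul_inv, htp, Finset.sum_mul, hS, Finset.sum_add_distrib]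
    congr 1
    · exact Finset.sum_congr rfl fun i _ => i1 i
    · rw [Finset.sum_const, Finset.card_univ, nsmul_eq_mul]
  have s2 : (∑ i, lam i ^ (m + 1 - 1) * (ε * Real.sqrt (lam i))) * (ε₁ ^ (2 * (m + 1)))⁻¹ ≤
      ε / ε₁ * (2 * S) := by
    rw [Finset.sum_mul, hS, Finset.mul_sum, Finset.mul_sum]
    apply Finset.sum_le_sum
    intro i _
    rw [i2 i]
    exact mul_le_mul_of_nonneg_left (pow_two_sub (hx0 i) hn).1 (by positivity)
  have s3 : (∑ i, lam i ^ (m + 1 - 1)) * (ε₁ ^ (2 * (m + 1)))⁻¹ ≤ 1 / ε₁ ^ 2 * (4 * S) := by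
    rw [Finset.sum_mul, hS, Finset.mul_sum, Finset.mul_sum]
    apply Finset.sum_le_sum
    intro i _
    rw [i3 i]
    exact mul_le_mul_of_nonneg_left (pow_two_sub (hx0 i) hn).2 (by positivity)
  have s0 : (∑ i, lam i ^ (m + 1) * α) * (ε₁ ^ (2 * (m + 1)))⁻¹ ≤ α * S := by
    rw [Finset.sum_mul, hS, Finset.mul_sum]
    apply Finset.sum_le_sum
    intro i _
    have h4 : (0 : ℝ) ≤ (1 / 4) ^ (m + 1) := by positivity
    calc lam i ^ (m + 1) * α * (ε₁ ^ (2 * (m + 1)))⁻¹ =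
        α * (lam i ^ (m + 1) * (ε₁ ^ (2 * (m + 1)))⁻¹) := by ring
      _ = α * x i ^ (2 * (m + 1)) := by rw [i1 i]
      _ ≤ _ := mul_le_mul_of_nonneg_left (by linarith only [h4]) hα
  have hl3 := mul_le_mul_of_nonneg_right hl2 hc0.le
  set c : ℝ := (ε₁ ^ (2 * (m + 1)))⁻¹
  set T0 : ℝ := ∑ i, lam i ^ (m + 1) * α
  set T1 : ℝ := ∑ i, lam i ^ (m + 1 - 1) * (ε * Real.sqrt (lam i))
  set T2 : ℝ := ∑ i, lam i ^ (m + 1 - 1)
  rw [s1]
  set k : ℝ := ((m + 1 : ℕ) : ℝ) with hk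
  have hk0 : 0 ≤ k := by positivity
  have b0 : 2 * k * (2 * (T0 * c)) ≤ 4 * k * (α * S) := by
    have := mul_le_mul_of_nonneg_left s0 (by positivity : (0 : ℝ) ≤ 4 * k)
    linarith only [this]
  have b1 : 2 * k * (T1 * c) ≤ 2 * k * (ε / ε₁ * (2 * S)) :=
    mul_le_mul_of_nonneg_left s2 (by positivity)
  have b2 : k * (2 * k - 1) * ν * (T2 * c) ≤ k * (2 * k - 1) * ν * (1 / ε₁ ^ 2 * (4 * S)) := by
    refine mul_le_mul_of_nonneg_left s3 ?_
    have : 0 ≤ 2 * k - 1 := by linarith only [hn1]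
    positivity
  have b3 : k * (2 * k - 1) * ν * (1 / ε₁ ^ 2 * (4 * S)) ≤
      8 * k ^ 2 * ν / ε₁ ^ 2 * S := by
    have e1 : 8 * k ^ 2 * ν / ε₁ ^ 2 * S - k * (2 * k - 1) * ν * (1 / ε₁ ^ 2 * (4 * S)) =
        4 * k * ν * (1 / ε₁ ^ 2) * S := by ring
    have : 0 ≤ 4 * k * ν * (1 / ε₁ ^ 2) * S := by positivity
    linarith only [e1, this]
  have e0 : ∀ A : ℝ, A * 0 + l₁ * c + ∑ _c : ι, g₁ _c * 0 = l₁ * c := by
    intro A
    simp
  rw [e0]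
  calc l₁ * c ≤ (2 * k * (2 * T0) + 2 * k * T1 + k * (2 * k - 1) * ν * T2) * c := hl3
    _ = 2 * k * (2 * (T0 * c)) + 2 * k * (T1 * c) + k * (2 * k - 1) * ν * (T2 * c) := by ring
    _ ≤ 4 * k * (α * S) + 2 * k * (ε / ε₁ * (2 * S)) + 8 * k ^ 2 * ν / ε₁ ^ 2 * S := by linarith only [b0, b1, b2, b3]
    _ = (4 * k * ε / ε₁ + 8 * k ^ 2 * ν / ε₁ ^ 2 + 4 * k * α) * S := by ring

end Pool.Agent.AN2.H48
end
end -- Pool.Agent.Helper48_AN2.MMU

section -- Pool.Agent.Helper48_AN2.REA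

/-!
# P1: real symmetric matrices, norms, jets
-/

set_option autoImplicit false
set_option linter.unusedSectionVars false

open MeasureTheory ProbabilityTheory Function Filter

open scoped ENNReal BigOperators Topology NNReal ComplexOrder Matrix

noncomputable section

namespace Pool.Agent.AN2.H48

open Pool.Agent.Anderson hiding box mem_box card_box
open Pool.Agent.Loc Pool.Agent.Mob Pool.Agent.Helper54.Bal
  Pool.Agent.Helper96.EXP Pool.Agent.BED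
open Pool.Agent.LE.MN Pool.Agent.LE.CL Pool.Agent.LE.IR Pool.Agent.LE.QD
open Pool.Agent.LE.QF Pool.Agent.LE.QF.H40

variable {X : Type} [Fintype X] [DecidableEq X]

/-- the complexification -/
def cx {m n : Type} (M : Matrix m n ℝ) : Matrix m n ℂ := M.map fun x => (x : ℂ)

theorem cx_mul {l m n : Type} [Fintype m] (M : Matrix l m ℝ) (N : Matrix m n ℝ) :
    cx (M * N) = cx M * cx N := by
  ext i j
  simp [cx, Matrix.mul_apply]

theorem cx_add {m n : Type} (M N : Matrix m n ℝ) : cx (M + N) = cx M + cx N := by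
  ext i j
  simp [cx]

theorem cx_one : cx (1 : Matrix X X ℝ) = 1 := by
  ext i j
  by_cases h : i = j
  · subst h
    simp [cx]
  · simp [cx, h]

theorem cx_conj {m n : Type} (M : Matrix m n ℝ) : (cx M)ᴴ = cx Mᵀ := by
  ext i j
  simp [cx, Matrix.conjTranspose_apply]

theorem cx_pow (M : Matrix X X ℝ) (n : ℕ) : cx M ^ n = cx (M ^ n) := by
  induction n with
  | zero => rw [pow_zero, pow_zero, cx_one]
  | succ n ih => rw [pow_succ, pow_succ, ih, cx_mul]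

theorem cx_trace (M : Matrix X X ℝ) : (Matrix.trace (cx M)).re = Matrix.trace M := by
  simp [cx, Matrix.trace]

theorem n2_cx (M : Matrix X X ℝ) (u : X → ℂ) :
    n2 (cx M *ᵥ u) = (M *ᵥ fun a => (u a).re) ⬝ᵥ (M *ᵥ fun a => (u a).re) +
      (M *ᵥ fun a => (u a).im) ⬝ᵥ (M *ᵥ fun a => (u a).im) := by
  unfold n2
  rw [← sq_dot, ← sq_dot, ← Finset.sum_add_distrib]
  refine Finset.sum_congr rfl fun a _ => ?_
  have h1 : (cx M *ᵥ u) a = ∑ b, (M a b : ℂ) * u b := rfl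
  have h2 : (M *ᵥ fun a => (u a).re) a = ∑ b, M a b * (u b).re := rfl
  have h3 : (M *ᵥ fun a => (u a).im) a = ∑ b, M a b * (u b).im := rfl
  rw [h1, h2, h3, ← Complex.normSq_eq_norm_sq, Complex.normSq_apply, Complex.re_sum,
    Complex.im_sum]
  simp only [Complex.re_ofReal_mul, Complex.im_ofReal_mul]
  ring

theorem n2_split (u : X → ℂ) :
    n2 u = (fun a => (u a).re) ⬝ᵥ (fun a => (u a).re) +
      (fun a => (u a).im) ⬝ᵥ (fun a => (u a).im) := by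
  have h := n2_cx (1 : Matrix X X ℝ) u
  rwa [cx_one, Matrix.one_mulVec, Matrix.one_mulVec, Matrix.one_mulVec] at h

/-- from the form to the norm -/
theorem sq_norm {M : Matrix X X ℝ} (hM : Mᵀ = M) {α : ℝ}
    (h : ∀ f : X → ℝ, |qf M f| ≤ α * (f ⬝ᵥ f)) (f : X → ℝ) :
    (M *ᵥ f) ⬝ᵥ (M *ᵥ f) ≤ α ^ 2 * (f ⬝ᵥ f) := by
  obtain ⟨U, lam, h1, h2, h3⟩ := Pool.Agent.Loc.exists_diag_real hM
  have h5 := h3 1
  simp only [pow_one] at h5
  have hen : ∀ (N : Matrix X X ℝ) (i : X), (Uᵀ * (N * U)) i i = qf N (fun a => U a i) :=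
    fun _ _ => rfl
  have hlam : ∀ i, |lam i| ≤ α := by
    intro i
    have h6 := hen M i
    have h7 := hen 1 i
    rw [one_mul, h1, Matrix.one_apply_eq, qf_one] at h7
    have h9 : Uᵀ * (M * U) = Matrix.diagonal lam := by
      calc Uᵀ * (M * U) = Uᵀ * ((U * Matrix.diagonal (fun l => lam l) * Uᵀ) * U) := by rw [← h5]
        _ = (Uᵀ * U) * Matrix.diagonal (fun l => lam l) * (Uᵀ * U) := by
            simp only [mul_assoc]
        _ = _ := by rw [h1, one_mul, mul_one]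
    rw [h9, Matrix.diagonal_apply_eq] at h6
    have h8 := h (fun a => U a i)
    rw [← h6, ← h7, mul_one] at h8
    exact h8
  have hM2 : (M *ᵥ f) ⬝ᵥ (M *ᵥ f) = qf (M ^ 2) f := by
    rw [qf_dot, pow_two, ← Matrix.mulVec_mulVec]
    exact (sym_dot hM f (M *ᵥ f)).symm
  have hq : ∀ w : X → ℝ, qf (U * Matrix.diagonal w * Uᵀ) f = ∑ i, w i * (Uᵀ *ᵥ f) i ^ 2 := by
    intro w
    have e1 : U * Matrix.diagonal w * Uᵀ = (Uᵀ)ᵀ * Matrix.diagonal w * Uᵀ := by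
      rw [Matrix.transpose_transpose]
    rw [e1, qf_conj, qf_dot]
    unfold dotProduct
    refine Finset.sum_congr rfl fun i _ => ?_
    rw [Matrix.mulVec_diagonal]
    ring
  rw [hM2, h3 2, hq]
  have h10 : f ⬝ᵥ f = ∑ i, (Uᵀ *ᵥ f) i ^ 2 := by
    have e2 : f ⬝ᵥ f = qf (U * Matrix.diagonal (fun _ => 1) * Uᵀ) f := by
      rw [Matrix.diagonal_one, mul_one, h2, qf_one]
    rw [e2, hq]
    simp
  rw [h10, Finset.mul_sum]
  refine Finset.sum_le_sum fun i _ => mul_le_mul_of_nonneg_right ?_ (sq_nonneg _)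
  exact sq_le_sq.2 ((hlam i).trans (le_abs_self α))

theorem n2_le {M : Matrix X X ℝ} {α : ℝ}
    (h : ∀ f : X → ℝ, (M *ᵥ f) ⬝ᵥ (M *ᵥ f) ≤ α * (f ⬝ᵥ f)) (u : X → ℂ) :
    n2 (cx M *ᵥ u) ≤ α * n2 u := by
  rw [n2_cx, n2_split u, mul_add]
  exact add_le_add (h _) (h _)

theorem n2_sum_le {ι : Type} [Fintype ι] {M : ι → Matrix X X ℝ} {α : ℝ}
    (h : ∀ f : X → ℝ, ∑ c, (M c *ᵥ f) ⬝ᵥ (M c *ᵥ f) ≤ α * (f ⬝ᵥ f)) (u : X → ℂ) :
    ∑ c, n2 (cx (M c) *ᵥ u) ≤ α * n2 u := by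
  rw [Finset.sum_congr rfl fun c _ => n2_cx (M c) u, n2_split u, mul_add,
    Finset.sum_add_distrib]
  exact add_le_add (h _) (h _)

/-! ### jets -/

section Jet

variable {ι : Type} [Fintype ι] [DecidableEq ι]

theorem hm_const (jal : JalStmt) {m n : Type} (q : ℝ × (ι → ℝ)) (A : Matrix m n ℝ) :
    HM (fun _ => A) q A (fun _ => 0) 0 := fun a b => (jal ι ℝ q).1 (A a b)

theorem hm_sub (jal : JalStmt) {m n : Type} {q : ℝ × (ι → ℝ)}
    {F H : ℝ × (ι → ℝ) → Matrix m n ℝ} {v v' l l' : Matrix m n ℝ} {g g' : ι → Matrix m n ℝ}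
    (hF : HM F q v g l) (hH : HM H q v' g' l') :
    HM (fun r => F r - H r) q (v - v') (fun c => g c - g' c) (l - l') :=
  fun a b => ((jal ι ℝ q).2.2.1 _ _ _ _ _ _ _ _ (hF a b) (hH a b)).2.1

theorem hm_add (jal : JalStmt) {m n : Type} {q : ℝ × (ι → ℝ)}
    {F H : ℝ × (ι → ℝ) → Matrix m n ℝ} {v v' l l' : Matrix m n ℝ} {g g' : ι → Matrix m n ℝ}
    (hF : HM F q v g l) (hH : HM H q v' g' l') :
    HM (fun r => F r + H r) q (v + v') (fun c => g c + g' c) (l + l') :=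
  fun a b => ((jal ι ℝ q).2.2.1 _ _ _ _ _ _ _ _ (hF a b) (hH a b)).1

theorem hm_conj (jal : JalStmt) (jma : JmaStmt) {n : Type} [Fintype n] [DecidableEq n]
    {q : ℝ × (ι → ℝ)}
    {F : ℝ × (ι → ℝ) → Matrix n n ℝ} {v l : Matrix n n ℝ} {g : ι → Matrix n n ℝ}
    (A B : Matrix n n ℝ) (hF : HM F q v g l) :
    HM (fun r => A * F r * B) q (A * v * B) (fun c => A * g c * B) (A * l * B) := by
  have h1 := (jma ι ℝ q).1 n n n _ _ _ _ _ _ _ _ (hm_const jal q A) hF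
  have h2 := (jma ι ℝ q).1 n n n _ _ _ _ _ _ _ _ h1 (hm_const jal q B)
  simpa using h2

theorem hm_cx (jal : JalStmt) {m n : Type} {q : ℝ × (ι → ℝ)}
    {F : ℝ × (ι → ℝ) → Matrix m n ℝ} {v l : Matrix m n ℝ} {g : ι → Matrix m n ℝ}
    (hF : HM F q v g l) :
    HM (fun r => cx (F r)) q (cx v) (fun c => cx (g c)) (cx l) :=
  fun a b => ((jal ι ℂ q).2.2.2.2.1 _ _ _ _ (hF a b)).1

end Jet

end Pool.Agent.AN2.H48
end
end -- Pool.Agent.Helper48_AN2.REA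

section -- Pool.Agent.Helper48_AN2.FRU

/-!
# P1: the part of the form matrix in the functional

`X₀` is the form matrix at the beginning of the update (compressed to the box), `Dᵀ X₀ D = 1`; `F` is
the form matrix, `B` the ladder of `X₀`, `F - B` is measured in units of `X₀`:
`U = tr (S Sᵀ)^n / ε₁^{2n}`, `S = Dᵀ (F - B) D`.
-/

set_option autoImplicit false
set_option linter.unusedSectionVars false

open MeasureTheory ProbabilityTheory Function Filter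

open scoped ENNReal BigOperators Topology NNReal ComplexOrder Matrix

noncomputable section

namespace Pool.Agent.AN2.H48

open Pool.Agent.Anderson hiding box mem_box card_box
open Pool.Agent.Loc Pool.Agent.Mob Pool.Agent.Helper54.Bal
  Pool.Agent.Helper96.EXP Pool.Agent.BED
open Pool.Agent.LE.MN Pool.Agent.LE.CL Pool.Agent.LE.IR Pool.Agent.LE.QD
open Pool.Agent.LE.QF Pool.Agent.LE.QF.H40

variable {X : Type} [Fintype X] [DecidableEq X]

/-- `tr (S Sᵀ)^n / ε₁^{2n}` -/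
def uS (S : Matrix X X ℝ) (ε₁ : ℝ) (n : ℕ) : ℝ := Matrix.trace ((S * Sᵀ) ^ n) / ε₁ ^ (2 * n)

theorem uS_cx (S : Matrix X X ℝ) (ε₁ : ℝ) (n : ℕ) :
    (Matrix.trace ((cx S * (cx S)ᴴ) ^ n)).re / ε₁ ^ (2 * n) = uS S ε₁ n := by
  rw [cx_conj, ← cx_mul, cx_pow, cx_trace, uS]

/-- the inverse of `Dᵀ X₀ D = 1` -/
theorem inv_of {X₀ D : Matrix X X ℝ} (h : Dᵀ * X₀ * D = 1) : X₀ * D * Dᵀ = 1 ∧ D * Dᵀ * X₀ = 1 := by
  have h1 : Dᵀ * (X₀ * D) = 1 := by rw [← mul_assoc, h]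
  have h2 : (X₀ * D) * Dᵀ = 1 := mul_eq_one_comm.1 h1
  have h3 : D * (Dᵀ * X₀) = 1 := mul_eq_one_comm.1 h
  exact ⟨h2, by rw [mul_assoc]; exact h3⟩

theorem qf_D {X₀ D : Matrix X X ℝ} (h : Dᵀ * X₀ * D = 1) (u : X → ℝ) :
    qf X₀ (D *ᵥ u) = u ⬝ᵥ u := by
  rw [← qf_conj, h, qf_one]

/-- a form bound in units of `X₀` -/
theorem norm_conj {X₀ D M : Matrix X X ℝ} (h : Dᵀ * X₀ * D = 1) (hM : Mᵀ = M) {α : ℝ}
    (hα : ∀ f, |qf M f| ≤ α * qf X₀ f) (u : X → ℝ) :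
    ((Dᵀ * M * D) *ᵥ u) ⬝ᵥ ((Dᵀ * M * D) *ᵥ u) ≤ α ^ 2 * (u ⬝ᵥ u) := by
  refine sq_norm ?_ (fun f => ?_) u
  · rw [Matrix.transpose_mul, Matrix.transpose_mul, Matrix.transpose_transpose, hM, mul_assoc]
  · rw [qf_conj, ← qf_D h f]
    exact hα _

/-- FRU. -/
theorem fru (ytj : YtjStmt) (jal : JalStmt) (jma : JmaStmt)
    {ι : Type} [Fintype ι] [DecidableEq ι] (q : ℝ × (ι → ℝ))
    (F Bm : ℝ × (ι → ℝ) → Matrix X X ℝ) (X₀ D v β e L : Matrix X X ℝ) (g : ι → Matrix X X ℝ)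
    (α ε ε₁ ν : ℝ) (n : ℕ) (hα : 0 ≤ α) (hε : 0 ≤ ε) (hε₁ : 0 < ε₁) (hν : 0 ≤ ν) (hn : 1 ≤ n)
    (hX : X₀ᵀ = X₀) (hD : Dᵀ * X₀ * D = 1) (hv : vᵀ = v) (hβ : βᵀ = β) (he : eᵀ = e)
    (hL : Lᵀ = L) (hg : ∀ c, (g c)ᵀ = g c)
    (hF : HM F q v g (-(v * L * v) + e)) (hB : HM Bm q β (fun _ => 0) (-(β * L * β)))
    (hv0 : ∀ f, |qf v f| ≤ 2 * qf X₀ f) (hβ0 : ∀ f, |qf β f| ≤ 2 * qf X₀ f)
    (he0 : ∀ f, |qf e f| ≤ ε * qf X₀ f) (hL0 : ∀ f, |qf L (X₀ *ᵥ f)| ≤ α * qf X₀ f)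
    (hg0 : ∀ f, ∑ c, qf (D * Dᵀ) (g c *ᵥ f) ≤ ν * qf X₀ f) :
    ∃ (g' : ι → ℝ) (l' : ℝ),
      HJ (fun r => uS (Dᵀ * (F r - Bm r) * D) ε₁ n) q (uS (Dᵀ * (v - β) * D) ε₁ n) g' l' ∧
      l' ≤ (4 * n * ε / ε₁ + 8 * n ^ 2 * ν / ε₁ ^ 2 + 8 * n * α) *
        (uS (Dᵀ * (v - β) * D) ε₁ n + Fintype.card X * (1 / 4) ^ n) := by
  obtain ⟨hi1, hi2⟩ := inv_of hD
  have hJ := hm_cx jal (hm_conj jal jma Dᵀ D (hm_sub jal hF hB))
  set S : Matrix X X ℝ := Dᵀ * (v - β) * D with hS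
  set P : Matrix X X ℝ := Dᵀ * (X₀ * L * X₀) * D with hP
  set V : Matrix X X ℝ := Dᵀ * v * D with hV
  set W : Matrix X X ℝ := Dᵀ * β * D with hW
  set a : Matrix X X ℝ := -(P * V) with ha
  set b : Matrix X X ℝ := -(W * P) with hb
  -- the drift
  have key : Dᵀ * (-(v * L * v) + e - -(β * L * β)) * D = Dᵀ * e * D + (S * a + b * S) := by
    have e1 : ∀ M N : Matrix X X ℝ, (Dᵀ * M * D) * (Dᵀ * (X₀ * L * X₀) * D) * (Dᵀ * N * D) =
        Dᵀ * (M * L * N) * D := by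
      intro M N
      calc (Dᵀ * M * D) * (Dᵀ * (X₀ * L * X₀) * D) * (Dᵀ * N * D) =
            Dᵀ * M * (D * Dᵀ * X₀) * L * (X₀ * D * Dᵀ) * N * D := by simp only [mul_assoc]
        _ = Dᵀ * (M * L * N) * D := by
            rw [hi1, hi2]
            simp only [mul_assoc, mul_one]
    have e2 : S * a + b * S = -(Dᵀ * ((v - β) * L * v) * D) + -(Dᵀ * (β * L * (v - β)) * D) := by
      rw [ha, hb, hS, hP, hV, hW, mul_neg, neg_mul, ← mul_assoc, e1, e1]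
    rw [e2, ← neg_add, ← add_mul, ← mul_add, ← sub_eq_add_neg, ← sub_mul, ← mul_sub]
    congr 2
    rw [sub_mul, sub_mul, mul_sub]
    abel
  rw [key] at hJ
  have hPn : ∀ f : X → ℝ, (P *ᵥ f) ⬝ᵥ (P *ᵥ f) ≤ α ^ 2 * (f ⬝ᵥ f) := by
    refine norm_conj hD ?_ fun f => ?_
    · rw [Matrix.transpose_mul, Matrix.transpose_mul, hL, hX, mul_assoc]
    · have e3 : X₀ * L * X₀ = X₀ᵀ * L * X₀ := by rw [hX]
      rw [e3, qf_conj]
      exact hL0 f
  have hVn : ∀ f : X → ℝ, (V *ᵥ f) ⬝ᵥ (V *ᵥ f) ≤ 2 ^ 2 * (f ⬝ᵥ f) := norm_conj hD hv hv0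
  have hWn : ∀ f : X → ℝ, (W *ᵥ f) ⬝ᵥ (W *ᵥ f) ≤ 2 ^ 2 * (f ⬝ᵥ f) := norm_conj hD hβ hβ0
  have han : ∀ f : X → ℝ, (a *ᵥ f) ⬝ᵥ (a *ᵥ f) ≤ (2 * α) ^ 2 * (f ⬝ᵥ f) := by
    intro f
    have h1 := hPn (V *ᵥ f)
    have h2 := hVn f
    have h3 : (a *ᵥ f) ⬝ᵥ (a *ᵥ f) = (P *ᵥ (V *ᵥ f)) ⬝ᵥ (P *ᵥ (V *ᵥ f)) := by
      rw [ha, Matrix.neg_mulVec, neg_dotProduct_neg, Matrix.mulVec_mulVec]
    rw [h3]
    nlinarith only [sq_nonneg α, mul_le_mul_of_nonneg_left h2 (sq_nonneg α), h1]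
  have hbn : ∀ f : X → ℝ, (b *ᵥ f) ⬝ᵥ (b *ᵥ f) ≤ (2 * α) ^ 2 * (f ⬝ᵥ f) := by
    intro f
    have h1 := hWn (P *ᵥ f)
    have h2 := hPn f
    have h3 : (b *ᵥ f) ⬝ᵥ (b *ᵥ f) = (W *ᵥ (P *ᵥ f)) ⬝ᵥ (W *ᵥ (P *ᵥ f)) := by
      rw [hb, Matrix.neg_mulVec, neg_dotProduct_neg, Matrix.mulVec_mulVec]
    rw [h3]
    nlinarith only [h1, h2]
  have hen := norm_conj hD he he0
  have hgn : ∀ f : X → ℝ, ∑ c, ((Dᵀ * g c * D) *ᵥ f) ⬝ᵥ ((Dᵀ * g c * D) *ᵥ f) ≤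
      ν * (f ⬝ᵥ f) := by
    intro f
    have h1 := hg0 (D *ᵥ f)
    rw [qf_D hD] at h1
    refine le_trans (le_of_eq ?_) h1
    refine Finset.sum_congr rfl fun c _ => ?_
    have e4 : D * Dᵀ = (Dᵀ)ᵀ * 1 * Dᵀ := by rw [mul_one, Matrix.transpose_transpose]
    rw [e4, qf_conj, qf_one, Matrix.mulVec_mulVec, Matrix.mulVec_mulVec, mul_assoc]
  have hgt : ∀ c, (cx (Dᵀ * g c * D))ᴴ = cx (Dᵀ * g c * D) := by
    intro c
    rw [cx_conj, Matrix.transpose_mul, Matrix.transpose_mul, Matrix.transpose_transpose, hg c,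
      mul_assoc]
  have hJ2 : HM (fun r => cx (Dᵀ * (F r - Bm r) * D)) q (cx S)
      (fun c => cx (Dᵀ * (g c - 0) * D)) (cx (Dᵀ * e * D) + (cx S * cx a + cx b * cx S)) := by
    rw [← cx_mul, ← cx_mul, ← cx_add, ← cx_add]
    exact hJ
  simp only [sub_zero] at hJ2
  obtain ⟨g', l', h1, h2⟩ := mmu ytj jal ι q X _ (cx S) (cx (Dᵀ * e * D)) (cx a) (cx b)
    (fun c => cx (Dᵀ * g c * D)) (2 * α) ε ε₁ ν n (by positivity) hε hε₁ hν hn hJ2
    (n2_le hen) (n2_le han) (n2_le hbn) (n2_sum_le hgn)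
    (fun u => by simp only [hgt]; exact n2_sum_le hgn u)
  simp only [uS_cx] at h1 h2
  refine ⟨g', l', h1, h2.trans (le_of_eq ?_)⟩
  ring

end Pool.Agent.AN2.H48
end
end -- Pool.Agent.Helper48_AN2.FRU

section -- Pool.Agent.Helper21_LQZ.XTU

/-!
# XTU: the part of `Ξ`
-/

set_option autoImplicit false

open MeasureTheory ProbabilityTheory Function Filter

open scoped ENNReal BigOperators Topology NNReal ComplexOrder Matrix

noncomputable section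

namespace Pool.Agent.LE.QZ.H21

open Pool.Agent.Anderson hiding box mem_box card_box
open Pool.Agent.Loc Pool.Agent.Mob Pool.Agent.Helper54.Bal
  Pool.Agent.Helper96.EXP Pool.Agent.BED
open Pool.Agent.LE.MN Pool.Agent.LE.CL Pool.Agent.LE.IR Pool.Agent.LE.QD Pool.Agent.LE.QF
open Pool.Agent.LE.QF.H45

theorem xtu (ytj : YtjStmt) (jal : JalStmt) : XtuStmt := by
  intro ι _ _ q X _ _ F v e g τ ε ε₁ ν n hτ hε hε₁ hν hn hF he hg hg'
  obtain ⟨g₁, l₁, hJ, hl⟩ := ytj ι q X F v _ g n ν hF hn hν hg hg'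
  have hc := (jal ι ℝ q).1 ((ε₁ ^ (2 * n))⁻¹)
  have hm := ((jal ι ℝ q).2.2.1 _ _ _ _ _ _ _ _ hJ hc).2.2
  have hc0 : 0 < (ε₁ ^ (2 * n))⁻¹ := by positivity
  refine ⟨_, _, by simpa only [div_eq_mul_inv] using hm, ?_⟩
  set P : Matrix X X ℂ := v * vᴴ with hPdef
  have hP : P.IsHermitian := Matrix.isHermitian_mul_conjTranspose_self v
  obtain ⟨u, lam, hu, h1, htr⟩ := tr_basis hP
  -- the eigenvalues
  have hvu : ∀ i, n2 (vᴴ *ᵥ u i) = lam i := by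
    intro i
    have h := dot_self (vᴴ *ᵥ u i)
    have h2 : star (vᴴ *ᵥ u i) ⬝ᵥ (vᴴ *ᵥ u i) = star (u i) ⬝ᵥ (P *ᵥ u i) := by
      rw [Matrix.star_mulVec, Matrix.conjTranspose_conjTranspose, ← Matrix.dotProduct_mulVec,
        Matrix.mulVec_mulVec]
    rw [h2, hu i, dotProduct_smul, dot_self, h1 i] at h
    have h3 : ((lam i : ℝ) : ℂ) = ((n2 (vᴴ *ᵥ u i) : ℝ) : ℂ) := by
      rw [← h]
      simp
    exact_mod_cast h3.symm
  have hlam : ∀ i, 0 ≤ lam i := fun i => by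
    rw [← hvu i]
    exact n2_nonneg _
  have htP : ∀ (A : Matrix X X ℂ) (m : ℕ),
      Matrix.trace (A * P ^ m) = ∑ i, ((lam i ^ m : ℝ) : ℂ) * (star (u i) ⬝ᵥ (A *ᵥ u i)) := by
    intro A m
    rw [htr]
    apply Finset.sum_congr rfl
    intro i _
    rw [← Matrix.mulVec_mulVec, pow_eig (hu i), Matrix.mulVec_smul, dotProduct_smul, smul_eq_mul]
  have htp : ∀ m : ℕ, (Matrix.trace (P ^ m)).re = ∑ i, lam i ^ m := by
    intro m
    have h := htP 1 m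
    rw [Matrix.one_mul] at h
    rw [h, Complex.re_sum]
    apply Finset.sum_congr rfl
    intro i _
    rw [Matrix.one_mulVec, dot_self, h1 i, Complex.re_ofReal_mul]
    simp
  -- the drift
  have hd2 : (Matrix.trace (e * vᴴ * P ^ (n - 1))).re ≤
      ∑ i, lam i ^ (n - 1) * (ε * Real.sqrt (lam i)) := by
    rw [htP, Complex.re_sum]
    apply Finset.sum_le_sum
    intro i _
    rw [Complex.re_ofReal_mul]
    refine mul_le_mul_of_nonneg_left ?_ (pow_nonneg (hlam i) _)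
    refine (Complex.re_le_norm _).trans ((dot_le _ _).trans ?_)
    rw [h1 i, Real.sqrt_one, one_mul, ← Matrix.mulVec_mulVec]
    have h3 := he (vᴴ *ᵥ u i)
    rw [hvu i] at h3
    calc Real.sqrt (n2 (e *ᵥ (vᴴ *ᵥ u i))) ≤ Real.sqrt (ε ^ 2 * lam i) := Real.sqrt_le_sqrt h3
      _ = ε * Real.sqrt (lam i) := by
        rw [Real.sqrt_mul (sq_nonneg ε), Real.sqrt_sq hε]
  have hsplit : (Matrix.trace (P ^ (n - 1) * (-(((1 / τ : ℝ) : ℂ) • v) + e) * vᴴ)).re =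
      -(1 / τ) * (∑ i, lam i ^ n) + (Matrix.trace (e * vᴴ * P ^ (n - 1))).re := by
    have e1 : P ^ (n - 1) * (-(((1 / τ : ℝ) : ℂ) • v) + e) * vᴴ =
        -(((1 / τ : ℝ) : ℂ) • (P ^ (n - 1) * P)) + P ^ (n - 1) * (e * vᴴ) := by
      rw [hPdef]
      simp only [Matrix.mul_add, Matrix.add_mul, Matrix.mul_neg, Matrix.neg_mul,
        Matrix.mul_smul, Matrix.smul_mul, Matrix.mul_assoc]
    have e2 : P ^ (n - 1) * P = P ^ n := by
      rw [← pow_succ]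
      congr 1
      omega
    rw [e1, Matrix.trace_add, Matrix.trace_neg, Matrix.trace_smul, e2,
      Matrix.trace_mul_comm (P ^ (n - 1)) (e * vᴴ), Complex.add_re, Complex.neg_re, smul_eq_mul,
      Complex.re_ofReal_mul, htp]
    ring
  rw [hsplit, htp] at hl
  have hl2 : l₁ ≤ 2 * n * ∑ i, lam i ^ (n - 1) * (ε * Real.sqrt (lam i)) +
      n * (2 * n - 1) * ν * ∑ i, lam i ^ (n - 1) := by
    refine hl.trans ?_
    have h3 : 0 ≤ (1 / τ) * (∑ i, lam i ^ n) := by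
      have : 0 < 1 / τ := by positivity
      exact mul_nonneg this.le (Finset.sum_nonneg fun i _ => pow_nonneg (hlam i) _)
    have h4 : -(1 / τ) * (∑ i, lam i ^ n) +
        (Matrix.trace (e * vᴴ * P ^ (n - 1))).re ≤
        ∑ i, lam i ^ (n - 1) * (ε * Real.sqrt (lam i)) := by linarith only [hd2, h3]
    have h5 : (0 : ℝ) ≤ 2 * n := by positivity
    have := mul_le_mul_of_nonneg_left h4 h5
    linarith only [this]
  -- scaling
  have hn1 : (1 : ℝ) ≤ n := by exact_mod_cast hn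
  have hscale : ∀ i, ∃ x : ℝ, 0 ≤ x ∧ lam i = (x * ε₁) ^ 2 := by
    intro i
    refine ⟨Real.sqrt (lam i) / ε₁, by positivity, ?_⟩
    rw [div_mul_cancel₀ _ hε₁.ne', Real.sq_sqrt (hlam i)]
  choose x hx0 hx using hscale
  have hsq : ∀ i, Real.sqrt (lam i) = x i * ε₁ := fun i => by
    rw [hx i, Real.sqrt_sq (mul_nonneg (hx0 i) hε₁.le)]
  obtain ⟨m, rfl⟩ : ∃ m, n = m + 1 := ⟨n - 1, by omega⟩
  have i1 : ∀ i, lam i ^ (m + 1) * (ε₁ ^ (2 * (m + 1)))⁻¹ = x i ^ (2 * (m + 1)) := by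
    intro i
    rw [hx i, ← pow_mul, mul_pow, mul_assoc, mul_inv_cancel₀ (by positivity), mul_one]
  have i2 : ∀ i, lam i ^ (m + 1 - 1) * (ε * Real.sqrt (lam i)) * (ε₁ ^ (2 * (m + 1)))⁻¹ =
      ε / ε₁ * x i ^ (2 * (m + 1) - 1) := by
    intro i
    rw [hsq i, hx i]
    have e1 : m + 1 - 1 = m := by omega
    have e2 : 2 * (m + 1) - 1 = 2 * m + 1 := by omega
    rw [e1, e2, ← pow_mul]
    field_simp
    ring
  have i3 : ∀ i, lam i ^ (m + 1 - 1) * (ε₁ ^ (2 * (m + 1)))⁻¹ =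
      1 / ε₁ ^ 2 * x i ^ (2 * (m + 1) - 2) := by
    intro i
    rw [hx i]
    have e1 : m + 1 - 1 = m := by omega
    have e2 : 2 * (m + 1) - 2 = 2 * m := by omega
    rw [e1, e2, ← pow_mul]
    field_simp
    ring
  set S : ℝ := ∑ i, (x i ^ (2 * (m + 1)) + (1 / 4) ^ (m + 1)) with hS
  have hS0 : 0 ≤ S := Finset.sum_nonneg fun i _ => by
    have := hx0 i
    positivity
  have s1 : (Matrix.trace (P ^ (m + 1))).re / ε₁ ^ (2 * (m + 1)) +
      Fintype.card X * (1 / 4) ^ (m + 1) = S := by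
    rw [div_eq_mul_inv, htp, Finset.sum_mul, hS, Finset.sum_add_distrib]
    congr 1
    · exact Finset.sum_congr rfl fun i _ => i1 i
    · rw [Finset.sum_const, Finset.card_univ, nsmul_eq_mul]
  have s2 : (∑ i, lam i ^ (m + 1 - 1) * (ε * Real.sqrt (lam i))) * (ε₁ ^ (2 * (m + 1)))⁻¹ ≤
      ε / ε₁ * (2 * S) := by
    rw [Finset.sum_mul, hS, Finset.mul_sum, Finset.mul_sum]
    apply Finset.sum_le_sum
    intro i _
    rw [i2 i]
    exact mul_le_mul_of_nonneg_left (pow_two_sub (hx0 i) hn).1 (by positivity)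
  have s3 : (∑ i, lam i ^ (m + 1 - 1)) * (ε₁ ^ (2 * (m + 1)))⁻¹ ≤ 1 / ε₁ ^ 2 * (4 * S) := by
    rw [Finset.sum_mul, hS, Finset.mul_sum, Finset.mul_sum]
    apply Finset.sum_le_sum
    intro i _
    rw [i3 i]
    exact mul_le_mul_of_nonneg_left (pow_two_sub (hx0 i) hn).2 (by positivity)
  have hl3 := mul_le_mul_of_nonneg_right hl2 hc0.le
  set c : ℝ := (ε₁ ^ (2 * (m + 1)))⁻¹
  set T1 : ℝ := ∑ i, lam i ^ (m + 1 - 1) * (ε * Real.sqrt (lam i))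
  set T2 : ℝ := ∑ i, lam i ^ (m + 1 - 1)
  rw [s1]
  set k : ℝ := ((m + 1 : ℕ) : ℝ) with hk
  have hk0 : 0 ≤ k := by positivity
  have b1 : 2 * k * (T1 * c) ≤ 2 * k * (ε / ε₁ * (2 * S)) :=
    mul_le_mul_of_nonneg_left s2 (by positivity)
  have b2 : k * (2 * k - 1) * ν * (T2 * c) ≤ k * (2 * k - 1) * ν * (1 / ε₁ ^ 2 * (4 * S)) := by
    refine mul_le_mul_of_nonneg_left s3 ?_
    have : 0 ≤ 2 * k - 1 := by linarith only [hn1]
    positivity
  have b3 : k * (2 * k - 1) * ν * (1 / ε₁ ^ 2 * (4 * S)) ≤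
      8 * k ^ 2 * ν / ε₁ ^ 2 * S := by
    have e1 : 8 * k ^ 2 * ν / ε₁ ^ 2 * S - k * (2 * k - 1) * ν * (1 / ε₁ ^ 2 * (4 * S)) =
        4 * k * ν * (1 / ε₁ ^ 2) * S := by ring
    have : 0 ≤ 4 * k * ν * (1 / ε₁ ^ 2) * S := by positivity
    linarith only [e1, this]
  have e0 : ∀ A : ℝ, A * 0 + l₁ * c + ∑ _c : ι, g₁ _c * 0 = l₁ * c := by
    intro A
    simp
  rw [e0]
  calc l₁ * c ≤ (2 * k * T1 + k * (2 * k - 1) * ν * T2) * c := hl3
    _ = 2 * k * (T1 * c) + k * (2 * k - 1) * ν * (T2 * c) := by ring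
    _ ≤ 2 * k * (ε / ε₁ * (2 * S)) + 8 * k ^ 2 * ν / ε₁ ^ 2 * S := by linarith only [b1, b2, b3]
    _ = (4 * k * ε / ε₁ + 8 * k ^ 2 * ν / ε₁ ^ 2) * S := by ring

end Pool.Agent.LE.QZ.H21
end
end -- Pool.Agent.Helper21_LQZ.XTU

section -- Pool.Agent.Helper40_LQF.WTU

/-!
# Squad LQF, row WTU: the part of the functional which belongs to `W`

Author: helper40.
-/

set_option autoImplicit false

open scoped BigOperators Matrix

noncomputable section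

namespace Pool.Agent.LE.QF.H40

open Pool.Agent.LE.QF

theorem wtu (jal : JalStmt) (jma : JmaStmt) (tri : TriStmt) (wab : WabStmt) : WtuStmt := by
  intro X _ _ q F ta v l S g e₀ ϖ δ ν τ p hF hta hta0 hta1 hτ hp he hϖ hδ _ hν hv hv0 hv1 _ _
    hg _ hS hS0 _ hl hgA hAϖ htr
  have he0 : 0 < e₀ := by linarith
  obtain ⟨hdA, hdB, _, hform, _⟩ := wab X v S e₀ 1 τ ϖ p hv hv0 hS hS0 he0 one_pos hτ.le hϖ
    (by omega)
  obtain ⟨hWA, hAB⟩ := hform htr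
  obtain ⟨A, hAe⟩ : ∃ A, A = e₀ • (1 : Matrix X X ℝ) + τ • S := ⟨_, rfl⟩
  obtain ⟨B, hBe⟩ : ∃ B, B = v + P0 X + ϖ • (1 : Matrix X X ℝ) := ⟨_, rfl⟩
  have hvt : vᵀ = v := Matrix.ext fun a b => hv b a
  have hSt : Sᵀ = S := Matrix.ext fun a b => hS b a
  have hgt : ∀ c, (g c)ᵀ = g c := fun c => Matrix.ext fun a b => hg c b a
  have hPt : (P0 X)ᵀ = P0 X := rfl
  have hBt : Bᵀ = B := by
    rw [hBe, Matrix.transpose_add, Matrix.transpose_add, Matrix.transpose_smul,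
      Matrix.transpose_one, hvt, hPt]
  -- the jet of `A`
  have jA : HM (fun r : ℝ × (X → ℝ) => e₀ • (1 : Matrix X X ℝ) + ta r.1 • S) q A
      (fun _ => 0) (-S) := by
    intro a b
    have hf : ContDiffAt ℝ 2 (fun t => e₀ * (1 : Matrix X X ℝ) a b + ta t * S a b) q.1 :=
      contDiffAt_const.add (hta.mul contDiffAt_const)
    have h1 := (jal X ℝ q).2.2.2.2.2.2.1 _ hf
    have hdt : HasDerivAt ta (-1) q.1 := by
      have h2 := (hta.differentiableAt (by norm_num)).hasDerivAt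
      rwa [hta1] at h2
    have hd : deriv (fun t => e₀ * (1 : Matrix X X ℝ) a b + ta t * S a b) q.1 =
        (-1) * S a b :=
      ((hdt.mul_const (S a b)).const_add (e₀ * (1 : Matrix X X ℝ) a b)).deriv
    rw [hd, hta0, neg_one_mul] at h1
    rw [hAe]
    exact h1
  -- the jet of `B`
  have jB : HM (fun r : ℝ × (X → ℝ) => F r + P0 X + ϖ • (1 : Matrix X X ℝ)) q B g l := by
    intro a b
    have h1 := ((jal X ℝ q).2.2.1 _ _ _ _ _ _ _ _ (hF a b)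
      ((jal X ℝ q).1 (P0 X a b + ϖ * (1 : Matrix X X ℝ) a b))).1
    simp only [add_zero] at h1
    rw [hBe]
    simp only [Matrix.add_apply, Matrix.smul_apply, smul_eq_mul, add_assoc]
    exact h1
  rw [← hAe] at hdA hWA hAB hgA hAϖ htr ⊢
  rw [← hBe] at hdB hWA hAB htr ⊢
  have jAi := ((jma X ℝ q).2 X _ _ _ _ jA).1 hdA
  have jBi := ((jma X ℝ q).2 X _ _ _ _ jB).1 hdB
  have jR := (jma X ℝ q).1 X X X _ _ _ _ _ _ _ _ jAi jBi
  have jT := ((jma X ℝ q).2 X _ _ _ _ jR).2 p hp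
  have e1 : -(A⁻¹ * -S * A⁻¹) = A⁻¹ * S * A⁻¹ := by
    simp only [mul_neg, neg_mul, neg_neg]
  rw [e1] at jT
  simp only [zero_mul, mul_zero, neg_zero, add_zero, Finset.sum_const_zero] at jT
  refine ⟨_, _, jT, ?_⟩
  have hWs : (B⁻¹)ᵀ = B⁻¹ := by rw [Matrix.transpose_nonsing_inv, hBt]
  have hWB : (v + P0 X + ϖ • (1 : Matrix X X ℝ)) * B⁻¹ = 1 := by
    rw [← hBe]
    exact Matrix.mul_nonsing_inv B hdB
  have hAB' : ∀ f, qf A⁻¹ f ≤ qf (v + P0 X + ϖ • (1 : Matrix X X ℝ)) f := by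
    rw [← hBe]
    exact hAB
  have hm := main tri (v := v) (l := l) (S := S) (W := B⁻¹) (A := A) (g := g) hτ hp he hϖ hδ hν
    hvt hv0 hv1 hgt hSt hS0 hl hgA hAϖ hAe hWs hWB hWA hAB'
  exact hm

end Pool.Agent.LE.QF.H40
end
end -- Pool.Agent.Helper40_LQF.WTU
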