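import Pool.Agent.Helper12_MEB.B087

/-!
# Merged copies (generated) of the modules

* `Pool.Agent.Helper31_ANI.WHT`
-/

set_option autoImplicit false

section -- Pool.Agent.Helper31_ANI.WHT

/-! # Squad ANI, row WHT: the white part of the ladder and the small diagonal -/

set_option autoImplicit false

open scoped BigOperators

noncomputable section

namespace Pool.Agent.ANI.H31

open Pool.Agent.BED
open Pool.Agent.LE Pool.Agent.LE.MN Pool.Agent.LE.CL Pool.Agent.LE.IR Pool.Agent.LE.QD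
  Pool.Agent.LE.QF Pool.Agent.ANI

/-- logarithms against small powers -/
theorem log_small (K b ε : ℝ) (hK : 1 ≤ K) (hb : 0 < b) (hε : 0 < ε) :
    ∃ w0 : ℝ, 0 < w0 ∧ w0 ≤ 1 ∧ ∀ w : ℝ, 0 < w → w ≤ w0 →
      2 * (K * (1 + Real.log (1 / w))) * w ^ ε ≤ b := by
  have hD : 0 < 2 * K * (1 + 2 / ε) := by positivity
  have hβ : 0 < b / (2 * K * (1 + 2 / ε)) := by positivity
  refine ⟨min 1 ((b / (2 * K * (1 + 2 / ε))) ^ (2 / ε)), ?_, min_le_left _ _, ?_⟩
  · exact lt_min one_pos (Real.rpow_pos_of_pos hβ _)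
  intro w hw hw0
  have hw1 : w ≤ 1 := hw0.trans (min_le_left _ _)
  have hw2 : w ≤ (b / (2 * K * (1 + 2 / ε))) ^ (2 / ε) := hw0.trans (min_le_right _ _)
  have h1 : Real.log (1 / w) ≤ (1 / w) ^ (ε / 2) / (ε / 2) :=
    Real.log_le_rpow_div (by positivity) (by positivity)
  have h2 : (1 / w) ^ (ε / 2) = w ^ (-(ε / 2)) := by
    rw [one_div, Real.inv_rpow hw.le, Real.rpow_neg hw.le]
  have h3 : (1 : ℝ) ≤ w ^ (-(ε / 2)) := by
    rw [← h2]
    apply Real.one_le_rpow
    · rw [one_le_div hw]; exact hw1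
    · positivity
  have h4 : 1 + Real.log (1 / w) ≤ (1 + 2 / ε) * w ^ (-(ε / 2)) := by
    rw [h2] at h1
    have h5 : w ^ (-(ε / 2)) / (ε / 2) = 2 / ε * w ^ (-(ε / 2)) := by
      field_simp
    rw [h5] at h1
    linarith
  have h6 : w ^ (-(ε / 2)) * w ^ ε = w ^ (ε / 2) := by
    rw [← Real.rpow_add hw]
    congr 1
    ring
  have h7 : w ^ (ε / 2) ≤ b / (2 * K * (1 + 2 / ε)) := by
    have h8 := Real.rpow_le_rpow hw.le hw2 (by positivity : (0 : ℝ) ≤ ε / 2)
    rw [← Real.rpow_mul hβ.le] at h8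
    have h9 : 2 / ε * (ε / 2) = 1 := by
      field_simp
    rwa [h9, Real.rpow_one] at h8
  have hwe : 0 < w ^ ε := Real.rpow_pos_of_pos hw _
  calc 2 * (K * (1 + Real.log (1 / w))) * w ^ ε
      ≤ 2 * (K * ((1 + 2 / ε) * w ^ (-(ε / 2)))) * w ^ ε := by
        apply mul_le_mul_of_nonneg_right _ hwe.le
        apply mul_le_mul_of_nonneg_left _ (by norm_num)
        exact mul_le_mul_of_nonneg_left h4 (by linarith)
    _ = (2 * K * (1 + 2 / ε)) * (w ^ (-(ε / 2)) * w ^ ε) := by ring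
    _ = (2 * K * (1 + 2 / ε)) * w ^ (ε / 2) := by rw [h6]
    _ ≤ (2 * K * (1 + 2 / ε)) * (b / (2 * K * (1 + 2 / ε))) :=
        mul_le_mul_of_nonneg_left h7 hD.le
    _ = b := by field_simp

/-- the symbol of the Laplacian with sines -/
theorem ds_sin {d M : ℕ} [NeZero M] (p : Tor d M) :
    ds p = ∑ i, 4 * Real.sin (Real.pi * ((p i).valMinAbs : ℝ) / M) ^ 2 := by
  unfold ds
  refine Finset.sum_congr rfl fun i _ => ?_
  have h : 2 * Real.pi * ((p i).valMinAbs : ℝ) / M = 2 * (Real.pi * ((p i).valMinAbs : ℝ) / M) := by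
    ring
  rw [h, Real.cos_two_mul, Real.sin_sq]
  ring

theorem ds_nonneg {d M : ℕ} [NeZero M] (p : Tor d M) : 0 ≤ ds p := by
  rw [ds_sin]
  exact Finset.sum_nonneg fun i _ => by positivity

/-- a coordinate is bounded by the symbol -/
theorem coord_le {d M : ℕ} [NeZero M] (p : Tor d M) (r : ℝ) (hr : 0 ≤ r)
    (h1 : 16 / (M : ℝ) ^ 2 * ∑ i, ((p i).valMinAbs : ℝ) ^ 2 ≤ ds p) (h2 : ds p ≤ r ^ 2) (i : Fin d) :
    ((p i).valMinAbs.natAbs : ℝ) ≤ M * r / 4 := by
  have hM : (0 : ℝ) < M := by exact_mod_cast Nat.pos_of_ne_zero (NeZero.ne M)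
  have h3 : ((p i).valMinAbs : ℝ) ^ 2 ≤ ∑ i, ((p i).valMinAbs : ℝ) ^ 2 :=
    Finset.single_le_sum (f := fun i => ((p i).valMinAbs : ℝ) ^ 2)
      (fun j _ => sq_nonneg _) (Finset.mem_univ i)
  have h4 : 16 / (M : ℝ) ^ 2 * ((p i).valMinAbs : ℝ) ^ 2 ≤ r ^ 2 :=
    (mul_le_mul_of_nonneg_left h3 (by positivity)).trans (h1.trans h2)
  have h5 : ((p i).valMinAbs : ℝ) ^ 2 ≤ (M * r / 4) ^ 2 := by
    have h6 : ((p i).valMinAbs : ℝ) ^ 2 =
        (M : ℝ) ^ 2 / 16 * (16 / (M : ℝ) ^ 2 * ((p i).valMinAbs : ℝ) ^ 2) := by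
      field_simp
    rw [h6]
    calc (M : ℝ) ^ 2 / 16 * (16 / (M : ℝ) ^ 2 * ((p i).valMinAbs : ℝ) ^ 2)
        ≤ (M : ℝ) ^ 2 / 16 * r ^ 2 := mul_le_mul_of_nonneg_left h4 (by positivity)
      _ = (M * r / 4) ^ 2 := by ring
  have h7 : |((p i).valMinAbs : ℝ)| ≤ M * r / 4 := abs_le_of_sq_le_sq h5 (by positivity)
  have h8 : ((p i).valMinAbs.natAbs : ℝ) = |((p i).valMinAbs : ℝ)| := by
    rw [Nat.cast_natAbs, Int.cast_abs]
  rw [h8]
  exact h7

theorem rpow_three_half (w T K : ℝ) (hw : 0 < w) (hK : 1 ≤ K) (hT : 0 < T) (h : w ≤ K * T) :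
    w ^ (3 / 2 : ℝ) ≤ K ^ 2 * T ^ (3 / 2 : ℝ) := by
  have h1 := Real.rpow_le_rpow hw.le h (by norm_num : (0 : ℝ) ≤ 3 / 2)
  rw [Real.mul_rpow (by linarith) hT.le] at h1
  refine h1.trans ?_
  apply mul_le_mul_of_nonneg_right _ (Real.rpow_nonneg hT.le _)
  rw [← Real.rpow_natCast]
  exact Real.rpow_le_rpow_of_exponent_le hK (by norm_num)

/-- the first part: the plateau -/
theorem part1 (d M : ℕ) (hd : 3 ≤ d) (hM : 0 < (M : ℝ)) (w s ε C2 CL K T : ℝ) (J : ℕ)
    (hw : 0 < w) (hw1 : w ≤ 1) (hs : 0 < s) (hs1 : s ≤ 1) (hε : 0 < ε) (hε' : ε ≤ 1 / 50)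
    (hC2 : 1 ≤ C2) (hCL : 1 ≤ CL) (hT : 0 < T) (hK : 1 ≤ K) (hwT : w ≤ K * T)
    (hJ : (J : ℝ) ≤ 2 * d * M * w ^ (1 - 4 * ε)) (N : ℝ) (hN : N ≤ CL * (J : ℝ) ^ d)
    (hN0 : 0 ≤ N) :
    N * (if s ^ (ε - 1) < 2 * (C2 / w) then 2 * (C2 / w) else 0) / (M : ℝ) ^ d ≤
      CL * (2 * d) ^ d * (2 * C2) * (2 * C2) * K ^ 2 * (T ^ (3 / 2 : ℝ) * s ^ (1 / 2 - 13 * ε)) := by
  have hR0 : 0 ≤ CL * (2 * d) ^ d * (2 * C2) * (2 * C2) * K ^ 2 *
      (T ^ (3 / 2 : ℝ) * s ^ (1 / 2 - 13 * ε)) := by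
    have := Real.rpow_nonneg hT.le (3 / 2)
    have := Real.rpow_nonneg hs.le (1 / 2 - 13 * ε)
    positivity
  by_cases hc : s ^ (ε - 1) < 2 * (C2 / w)
  · rw [if_pos hc]
    have hs2 : 0 < s ^ (1 - ε) := Real.rpow_pos_of_pos hs _
    have hss : s ^ (ε - 1) * s ^ (1 - ε) = 1 := by
      rw [← Real.rpow_add hs]
      simp
    have hws : w ≤ 2 * C2 * s ^ (1 - ε) := by
      have h1 : s ^ (ε - 1) * w < 2 * C2 := by
        have h2 := mul_lt_mul_of_pos_right hc hw
        have h3 : 2 * (C2 / w) * w = 2 * C2 := by field_simp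
        rwa [h3] at h2
      have h4 := mul_lt_mul_of_pos_right h1 hs2
      have h5 : s ^ (ε - 1) * w * s ^ (1 - ε) = w := by
        calc s ^ (ε - 1) * w * s ^ (1 - ε) = w * (s ^ (ε - 1) * s ^ (1 - ε)) := by ring
          _ = w := by rw [hss, mul_one]
      rw [h5] at h4
      exact h4.le
    have hα : 0 ≤ 1 / 2 - 12 * ε := by linarith
    have h6 : w ^ (1 / 2 - 12 * ε) ≤ (2 * C2) * s ^ (1 / 2 - 13 * ε) := by
      refine (Real.rpow_le_rpow hw.le hws hα).trans ?_
      rw [Real.mul_rpow (by linarith) hs2.le, ← Real.rpow_mul hs.le]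
      apply mul_le_mul
      · calc (2 * C2) ^ (1 / 2 - 12 * ε) ≤ (2 * C2) ^ (1 : ℝ) :=
              Real.rpow_le_rpow_of_exponent_le (by linarith) (by linarith)
          _ = 2 * C2 := Real.rpow_one _
      · apply Real.rpow_le_rpow_of_exponent_ge hs hs1
        nlinarith only [hε.le, mul_nonneg hε.le hε.le]
      · exact Real.rpow_nonneg hs.le _
      · linarith
    obtain ⟨u, hu⟩ : ∃ u, u = w ^ (1 - 4 * ε) := ⟨_, rfl⟩
    have hu0 : 0 < u := by rw [hu]; exact Real.rpow_pos_of_pos hw _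
    have hu1 : u ≤ 1 := by rw [hu]; exact Real.rpow_le_one hw.le hw1 (by linarith)
    rw [← hu] at hJ
    have h7 : (J : ℝ) ^ d ≤ (2 * d) ^ d * (M : ℝ) ^ d * u ^ 3 := by
      calc (J : ℝ) ^ d ≤ (2 * d * M * u) ^ d := pow_le_pow_left₀ (Nat.cast_nonneg _) hJ _
        _ = (2 * d) ^ d * (M : ℝ) ^ d * u ^ d := by rw [mul_pow, mul_pow]
        _ ≤ (2 * d) ^ d * (M : ℝ) ^ d * u ^ 3 := by
            apply mul_le_mul_of_nonneg_left _ (by positivity)
            exact pow_le_pow_of_le_one hu0.le hu1 hd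
    have h8 : u ^ 3 / w = w ^ (3 / 2 : ℝ) * w ^ (1 / 2 - 12 * ε) := by
      rw [hu, ← Real.rpow_natCast, ← Real.rpow_mul hw.le, ← Real.rpow_add hw,
        div_eq_iff hw.ne']
      conv_rhs => rw [← Real.rpow_one w, ← Real.rpow_mul hw.le, ← Real.rpow_add hw]
      congr 1
      push_cast
      ring
    have h9 := rpow_three_half w T K hw hK hT hwT
    calc N * (2 * (C2 / w)) / (M : ℝ) ^ d
        ≤ (CL * ((2 * d) ^ d * (M : ℝ) ^ d * u ^ 3)) * (2 * (C2 / w)) / (M : ℝ) ^ d := by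
          apply div_le_div_of_nonneg_right _ (by positivity)
          apply mul_le_mul_of_nonneg_right _ (by positivity)
          exact hN.trans (mul_le_mul_of_nonneg_left h7 (by linarith))
      _ = CL * (2 * d) ^ d * (2 * C2) * (u ^ 3 / w) := by
          field_simp
      _ = CL * (2 * d) ^ d * (2 * C2) * (w ^ (3 / 2 : ℝ) * w ^ (1 / 2 - 12 * ε)) := by rw [h8]
      _ ≤ CL * (2 * d) ^ d * (2 * C2) *
          ((K ^ 2 * T ^ (3 / 2 : ℝ)) * ((2 * C2) * s ^ (1 / 2 - 13 * ε))) := by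
          apply mul_le_mul_of_nonneg_left _ (by positivity)
          apply mul_le_mul h9 h6 (Real.rpow_nonneg hw.le _)
          have := Real.rpow_nonneg hT.le (3 / 2)
          positivity
      _ = _ := by ring
  · rw [if_neg hc, mul_zero, zero_div]
    exact hR0

/-- the second part: the low momenta -/
theorem part2 (d M : ℕ) (hd : 3 ≤ d) (hM : 0 < (M : ℝ)) (w s ε C2 CL K T S ρ : ℝ) (J : ℕ)
    (hw : 0 < w) (hs : 0 < s) (hs1 : s ≤ 1) (hε : 0 < ε)
    (hC2 : 1 ≤ C2) (hCL : 1 ≤ CL) (hT : 0 < T) (hK : 1 ≤ K) (hwT : w ≤ K * T)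
    (hρ : ρ = Real.sqrt (2 * C2 * w * s ^ (1 - ε))) (hρ1 : ρ ≤ 4)
    (hJ : (J : ℝ) ≤ M * ρ / 4) (hS : S ≤ CL * (M : ℝ) ^ 2 * (J : ℝ) ^ (d - 2)) :
    2 * (C2 * w) * S / (M : ℝ) ^ d ≤
      2 * C2 * CL * (2 * C2) * K ^ 2 * (T ^ (3 / 2 : ℝ) * s ^ (1 / 2 - 13 * ε)) := by
  have hs2 : 0 < s ^ (1 - ε) := Real.rpow_pos_of_pos hs _
  have hρ0 : 0 ≤ ρ := by rw [hρ]; exact Real.sqrt_nonneg _
  have h1 : ρ ≤ 2 * C2 * (w ^ (1 / 2 : ℝ) * s ^ (1 / 2 - 13 * ε)) := by
    rw [hρ, Real.sqrt_eq_rpow, mul_assoc (2 * C2) w, Real.mul_rpow (by linarith) (by positivity),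
      Real.mul_rpow hw.le hs2.le, ← Real.rpow_mul hs.le]
    apply mul_le_mul
    · calc (2 * C2) ^ (1 / 2 : ℝ) ≤ (2 * C2) ^ (1 : ℝ) :=
            Real.rpow_le_rpow_of_exponent_le (by linarith) (by norm_num)
        _ = 2 * C2 := Real.rpow_one _
    · apply mul_le_mul_of_nonneg_left _ (Real.rpow_nonneg hw.le _)
      apply Real.rpow_le_rpow_of_exponent_ge hs hs1
      linarith
    · exact mul_nonneg (Real.rpow_nonneg hw.le _) (Real.rpow_nonneg hs.le _)
    · linarith
  have h2 : (J : ℝ) ^ (d - 2) ≤ (M : ℝ) ^ (d - 2) * ρ := by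
    calc (J : ℝ) ^ (d - 2) ≤ (M * (ρ / 4)) ^ (d - 2) := by
          apply pow_le_pow_left₀ (Nat.cast_nonneg _)
          linarith
      _ = (M : ℝ) ^ (d - 2) * (ρ / 4) ^ (d - 2) := mul_pow _ _ _
      _ ≤ (M : ℝ) ^ (d - 2) * ρ := by
          apply mul_le_mul_of_nonneg_left _ (by positivity)
          have h3 : (ρ / 4) ^ (d - 2) ≤ (ρ / 4) ^ 1 :=
            pow_le_pow_of_le_one (by positivity) (by linarith) (by omega)
          rw [pow_one] at h3
          linarith
  have h4 : w * w ^ (1 / 2 : ℝ) = w ^ (3 / 2 : ℝ) := by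
    conv_lhs => rw [← Real.rpow_one w, ← Real.rpow_mul hw.le, ← Real.rpow_add hw]
    norm_num
  have h5 := rpow_three_half w T K hw hK hT hwT
  have h6 : (M : ℝ) ^ 2 * (M : ℝ) ^ (d - 2) = (M : ℝ) ^ d := by
    rw [← pow_add]
    congr 1
    omega
  have hsn := Real.rpow_nonneg hs.le (1 / 2 - 13 * ε)
  calc 2 * (C2 * w) * S / (M : ℝ) ^ d
      ≤ 2 * (C2 * w) * (CL * (M : ℝ) ^ 2 * ((M : ℝ) ^ (d - 2) * ρ)) / (M : ℝ) ^ d := by
        apply div_le_div_of_nonneg_right _ (by positivity)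
        apply mul_le_mul_of_nonneg_left _ (by positivity)
        exact hS.trans (mul_le_mul_of_nonneg_left h2 (by positivity))
    _ = 2 * C2 * CL * (w * ρ) := by
        rw [div_eq_iff (by positivity), ← h6]
        ring
    _ ≤ 2 * C2 * CL * (w * (2 * C2 * (w ^ (1 / 2 : ℝ) * s ^ (1 / 2 - 13 * ε)))) := by
        apply mul_le_mul_of_nonneg_left _ (by positivity)
        exact mul_le_mul_of_nonneg_left h1 hw.le
    _ = 2 * C2 * CL * (2 * C2) * ((w * w ^ (1 / 2 : ℝ)) * s ^ (1 / 2 - 13 * ε)) := by ring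
    _ = 2 * C2 * CL * (2 * C2) * (w ^ (3 / 2 : ℝ) * s ^ (1 / 2 - 13 * ε)) := by rw [h4]
    _ ≤ 2 * C2 * CL * (2 * C2) * ((K ^ 2 * T ^ (3 / 2 : ℝ)) * s ^ (1 / 2 - 13 * ε)) := by
        apply mul_le_mul_of_nonneg_left _ (by positivity)
        exact mul_le_mul_of_nonneg_right h5 hsn
    _ = _ := by ring

/-- the pointwise bound for the momenta other than `0` -/
theorem point {w T s ε C2 c1 k x K0 D : ℝ} (hw : 0 < w) (hT : 0 < T) (hc1 : 0 < c1)
    (hc1' : c1 ≤ 1) (hK0 : 0 ≤ K0) (hTK : T * K0 ≤ 1) (hKC : K0 * w ≤ c1 * C2) (hD : 0 < D)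
    (hx : x = D / (w ^ 2 + D)) (hk : k ≤ K0 - min 1 c1 * x * K0) (hs : 0 < s)
    (ht : s ^ (ε - 1) < k / (1 - T * k)) :
    (2 * (C2 / w) ≤ s ^ (ε - 1) → s ^ (ε - 1) < 2 * (C2 * w / D)) ∧
    k / (1 - T * k) ≤ (if s ^ (ε - 1) < 2 * (C2 / w) then 2 * (C2 / w) else 0) +
      (if s ^ (ε - 1) < 2 * (C2 * w / D) then 2 * (C2 * w / D) else 0) := by
  have hm : min 1 c1 = c1 := min_eq_right hc1'
  rw [hm] at hk
  have ht0 : 0 < s ^ (ε - 1) := Real.rpow_pos_of_pos hs _
  have hwD : 0 < w ^ 2 + D := by positivity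
  have hx0 : 0 < x := by rw [hx]; positivity
  have hx1 : x ≤ 1 := by
    rw [hx, div_le_one hwD]
    linarith only [sq_nonneg w]
  have hq : 0 ≤ 1 - c1 * x := sub_nonneg.2 (mul_le_one₀ hc1' hx0.le hx1)
  have h1 : c1 * x ≤ 1 - T * k := by
    have h2 : T * k ≤ T * (K0 - c1 * x * K0) := mul_le_mul_of_nonneg_left hk hT.le
    have h3 : T * (K0 - c1 * x * K0) = (T * K0) * (1 - c1 * x) := by ring
    have h4 : (T * K0) * (1 - c1 * x) ≤ 1 * (1 - c1 * x) := mul_le_mul_of_nonneg_right hTK hq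
    linarith
  have hcx : 0 < c1 * x := by positivity
  have hpos : 0 < 1 - T * k := hcx.trans_le h1
  have hk0 : 0 < k := by
    have h5 : 0 < k / (1 - T * k) := ht0.trans ht
    exact (div_pos_iff_of_pos_right hpos).1 h5
  have hkK : k ≤ K0 := by linarith only [hk, mul_nonneg hcx.le hK0]
  have h6 : k / (1 - T * k) ≤ C2 / w + C2 * w / D := by
    calc k / (1 - T * k) ≤ K0 / (c1 * x) := by
          apply div_le_div₀ hK0 hkK hcx h1
      _ = (K0 * w) * (w ^ 2 + D) / (c1 * (w * D)) := by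
          rw [hx]
          field_simp
      _ ≤ (c1 * C2) * (w ^ 2 + D) / (c1 * (w * D)) := by
          apply div_le_div_of_nonneg_right _ (by positivity)
          exact mul_le_mul_of_nonneg_right hKC hwD.le
      _ = C2 / w + C2 * w / D := by
          field_simp
          ring
  have hlt : s ^ (ε - 1) < C2 / w + C2 * w / D := ht.trans_le h6
  have hC2 : 0 ≤ C2 := by
    by_contra hcon
    have h7 : C2 / w < 0 := div_neg_of_neg_of_pos (by linarith) hw
    have h8 : C2 * w / D < 0 := div_neg_of_neg_of_pos (mul_neg_of_neg_of_pos (not_le.1 hcon) hw) hD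
    linarith
  have hA : 0 ≤ C2 / w := by positivity
  have hB : 0 ≤ C2 * w / D := by positivity
  refine ⟨fun h => by linarith, ?_⟩
  by_cases hAB : s ^ (ε - 1) < 2 * (C2 / w)
  · rw [if_pos hAB]
    by_cases hBB : s ^ (ε - 1) < 2 * (C2 * w / D)
    · rw [if_pos hBB]
      linarith
    · rw [if_neg hBB]
      linarith
  · have hBB : s ^ (ε - 1) < 2 * (C2 * w / D) := by linarith
    rw [if_neg hAB, if_pos hBB]
    linarith

/-- WHT -/
theorem wht (hlow : LowStmt) (hkft : KftStmt) : WhtStmt := by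
  classical
  intro d b ε cs Cs Ck hd hb hε hε' hcs hCs hCk
  obtain ⟨CL, hCL, hL⟩ := hlow d hd
  obtain ⟨w0, hw00, hw01, hw0⟩ := log_small Ck (min b 1) ε hCk (lt_min hb one_pos) hε
  obtain ⟨c1, hc1⟩ : ∃ c1, c1 = min 1 cs := ⟨_, rfl⟩
  have hc10 : 0 < c1 := by rw [hc1]; exact lt_min one_pos hcs
  have hc11 : c1 ≤ 1 := by rw [hc1]; exact min_le_left _ _
  obtain ⟨C2, hC2⟩ : ∃ C2, C2 = 1 + 1 / (b * c1) := ⟨_, rfl⟩
  have hC21 : 1 ≤ C2 := by
    rw [hC2]
    have : 0 < 1 / (b * c1) := by positivity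
    linarith
  obtain ⟨w1, hw1⟩ : ∃ w1, w1 = min w0 (8 / C2) := ⟨_, rfl⟩
  have hw10 : 0 < w1 := by rw [hw1]; exact lt_min hw00 (by positivity)
  obtain ⟨K, hK⟩ : ∃ K, K = 1 + 1 / b := ⟨_, rfl⟩
  have hK1 : 1 ≤ K := by
    rw [hK]
    have : 0 < 1 / b := by positivity
    linarith
  obtain ⟨KK1, hKK1⟩ : ∃ x, x = CL * (2 * d) ^ d * (2 * C2) * (2 * C2) * K ^ 2 := ⟨_, rfl⟩
  obtain ⟨KK2, hKK2⟩ : ∃ x, x = 2 * C2 * CL * (2 * C2) * K ^ 2 := ⟨_, rfl⟩
  have hKK1' : 0 ≤ KK1 := by rw [hKK1]; positivity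
  have hKK2' : 0 ≤ KK2 := by rw [hKK2]; positivity
  refine ⟨min (1 / 2) (w1 / K), 1 + 1 / b + KK1 + KK2, ?_, min_le_left _ _, ?_, ?_⟩
  · exact lt_min (by norm_num) (by positivity)
  · have : 0 < 1 / b := by positivity
    linarith
  intro M _ E η T s m ζ hζ hη hηT hTc hs hsT hbm hmb hCM hG H1 H2
  have hM : (0 : ℝ) < M := by exact_mod_cast Nat.pos_of_ne_zero (NeZero.ne M)
  obtain ⟨hL1, hL2⟩ := hL M
  have hT : 0 < T := hs.trans_le hsT
  have hT1 : T ≤ 1 / 2 := hTc.trans (min_le_left _ _)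
  have hTw : T ≤ w1 / K := hTc.trans (min_le_right _ _)
  have hs1 : s ≤ 1 := by linarith
  have hb1 : b ≤ 1 := by
    by_contra hcon
    have hcon' : 1 < b := not_le.1 hcon
    have h1 : 1 / b < 1 := by
      rw [div_lt_one hb]
      exact hcon'
    linarith
  -- `w`
  obtain ⟨w, hwdef⟩ : ∃ w, w = ζ.im := ⟨_, rfl⟩
  have hw : w = η + T * m.im := by
    rw [hwdef, hζ]
    simp
  rw [← hwdef] at H1 H2
  have hwpos : 0 < w := by
    rw [hw]
    have : 0 < m.im := hb.trans_le hbm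
    positivity
  have hwT : w ≤ K * T := by
    rw [hw, hK]
    have : T * m.im ≤ T * (1 / b) := mul_le_mul_of_nonneg_left hmb hT.le
    linarith
  have hbT : b * T ≤ w := by
    rw [hw]
    have : T * b ≤ T * m.im := mul_le_mul_of_nonneg_left hbm hT.le
    linarith
  have hww1 : w ≤ w1 := by
    refine hwT.trans ?_
    calc K * T ≤ K * (w1 / K) := mul_le_mul_of_nonneg_left hTw (by linarith)
      _ = w1 := by field_simp
  have hww0 : w ≤ w0 := hww1.trans (by rw [hw1]; exact min_le_left _ _)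
  have hw8 : w ≤ 8 / C2 := hww1.trans (by rw [hw1]; exact min_le_right _ _)
  have hwle1 : w ≤ 1 := hww0.trans hw01
  have hlog := hw0 w hwpos hww0
  -- the value at `0`
  have hkf0 : kf ζ (0 : Tor d M) = m.im / w := by
    obtain ⟨_, _, _, _, _, h6⟩ := hkft d M ζ (by rw [← hwdef]; exact hwpos)
    rw [h6, hG, ← hwdef]
  have hmim : 0 < m.im := hb.trans_le hbm
  obtain ⟨t, ht⟩ : ∃ t, t = s ^ (ε - 1) := ⟨_, rfl⟩
  have ht0 : 0 < t := by rw [ht]; exact Real.rpow_pos_of_pos hs _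
  -- the radii
  obtain ⟨ρ, hρ⟩ : ∃ ρ, ρ = Real.sqrt (2 * C2 * w * s ^ (1 - ε)) := ⟨_, rfl⟩
  have hρ0 : 0 ≤ ρ := by rw [hρ]; exact Real.sqrt_nonneg _
  have hs2 : 0 < s ^ (1 - ε) := Real.rpow_pos_of_pos hs _
  have hρsq : ρ ^ 2 = 2 * C2 * w * s ^ (1 - ε) := by
    rw [hρ, Real.sq_sqrt (by positivity)]
  have hρ4 : ρ ≤ 4 := by
    have h1 : ρ ^ 2 ≤ 4 ^ 2 := by
      rw [hρsq]
      have h2 : s ^ (1 - ε) ≤ 1 := Real.rpow_le_one hs.le hs1 (by linarith)
      have h3 : C2 * w ≤ 8 := by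
        have := mul_le_mul_of_nonneg_left hw8 (by linarith : (0 : ℝ) ≤ C2)
        rwa [mul_div_cancel₀ _ (by linarith : C2 ≠ 0)] at this
      nlinarith only [mul_le_mul h3 h2 hs2.le (by norm_num : (0 : ℝ) ≤ 8)]
    exact le_of_pow_le_pow_left₀ (by norm_num) (by norm_num) h1
  obtain ⟨u, hu⟩ : ∃ u, u = w ^ (1 - 4 * ε) := ⟨_, rfl⟩
  have hu0 : 0 < u := by rw [hu]; exact Real.rpow_pos_of_pos hwpos _
  have hwu : w ≤ u := by
    rw [hu]
    calc w = w ^ (1 : ℝ) := (Real.rpow_one w).symm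
      _ ≤ w ^ (1 - 4 * ε) := Real.rpow_le_rpow_of_exponent_ge hwpos hwle1 (by linarith)
  have hd1 : (1 : ℝ) ≤ d := by
    have : 1 ≤ d := by omega
    exact_mod_cast this
  have hMu : 1 ≤ (d : ℝ) * M * u := by
    have h1 : 1 / b ≤ 1 + 1 / b + KK1 + KK2 := by linarith
    have h2 : (1 / b) / T ^ 2 ≤ M := (div_le_div_of_nonneg_right h1 (by positivity)).trans hCM
    have h3 : 1 ≤ M * w := by
      calc (1 : ℝ) ≤ 1 / T := by
            rw [one_le_div hT]
            linarith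
        _ = (1 / b) / T ^ 2 * (b * T) := by field_simp
        _ ≤ M * w := mul_le_mul h2 hbT (by positivity) hM.le
    have h4 : M * w ≤ M * u := mul_le_mul_of_nonneg_left hwu hM.le
    have h5 : 1 * (M * u) ≤ (d : ℝ) * (M * u) := mul_le_mul_of_nonneg_right hd1 (by positivity)
    nlinarith only [h3, h4, h5]
  obtain ⟨J1, hJ1⟩ : ∃ J1 : ℕ, J1 = ⌈(d : ℝ) * M * u⌉₊ := ⟨_, rfl⟩
  obtain ⟨J2, hJ2⟩ : ∃ J2 : ℕ, J2 = ⌊M * ρ / 4⌋₊ := ⟨_, rfl⟩
  have hJ1pos : 1 ≤ J1 := by
    rw [hJ1]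
    exact Nat.one_le_ceil_iff.2 (by linarith)
  have hJ1le : (J1 : ℝ) ≤ 2 * d * M * u := by
    have h1 := Nat.ceil_lt_add_one (by linarith : (0 : ℝ) ≤ (d : ℝ) * M * u)
    rw [← hJ1] at h1
    linarith
  have hJ2le : (J2 : ℝ) ≤ M * ρ / 4 := by
    rw [hJ2]
    exact Nat.floor_le (by positivity)
  -- the three parts
  obtain ⟨V, hV⟩ : ∃ V : ℝ, V = if t < 2 * (C2 / w) then 2 * (C2 / w) else 0 := ⟨_, rfl⟩
  have hV0 : 0 ≤ V := by
    rw [hV]
    split_ifs
    · positivity
    · exact le_refl _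
  have hpt : ∀ p : Tor d M, n1 ζ T t p ≤ (if p = 0 then 1 / (b * η) else 0) +
      (if p ∈ low d M J1 then V else 0) +
      (if p ∈ (low d M J2).filter (fun p => p ≠ 0) then 2 * (C2 * w) * (1 / ds p) else 0) := by
    intro p
    have hg1 : 0 ≤ (if p ∈ low d M J1 then V else 0) := by
      split_ifs
      · exact hV0
      · exact le_refl _
    have hg2 : 0 ≤ (if p ∈ (low d M J2).filter (fun p => p ≠ 0) then
        2 * (C2 * w) * (1 / ds p) else 0) := by
      split_ifs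
      · have := ds_nonneg p
        positivity
      · exact le_refl _
    by_cases hp : p = 0
    · rw [if_pos hp]
      have h1 : n0 ζ T p = m.im / η := by
        unfold n0
        rw [hp, hkf0, hw]
        have h2 : η + T * m.im ≠ 0 := by positivity
        have h3 : 1 - T * (m.im / (η + T * m.im)) = η / (η + T * m.im) := by
          field_simp
          ring
        rw [h3]
        field_simp
      have h4 : n1 ζ T t p ≤ 1 / (b * η) := by
        unfold n1
        have h5 : m.im / η ≤ 1 / (b * η) := by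
          calc m.im / η ≤ (1 / b) / η := div_le_div_of_nonneg_right hmb hη.le
            _ = 1 / (b * η) := by field_simp
        split_ifs
        · rw [h1]
          exact h5
        · positivity
      linarith
    · rw [if_neg hp, zero_add]
      unfold n1
      by_cases htn : t < n0 ζ T p
      swap
      · rw [if_neg htn]
        linarith
      rw [if_pos htn]
      have hn0 : n0 ζ T p = kf ζ p / (1 - T * kf ζ p) := rfl
      -- all coordinates are small
      have hsmall : ∀ i : Fin d, |Real.sin (Real.pi * ((p i).valMinAbs : ℝ) / M)| < u := by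
        intro i
        by_contra hcon
        have hcon' : u ≤ |Real.sin (Real.pi * ((p i).valMinAbs : ℝ) / M)| := not_lt.1 hcon
        have h1 := H2 p i
        have h2 : Real.sqrt (w / (w + |Real.sin (Real.pi * ((p i).valMinAbs : ℝ) / M)|)) ≤
            w ^ (2 * ε) := by
          have h3 : w / (w + |Real.sin (Real.pi * ((p i).valMinAbs : ℝ) / M)|) ≤ w ^ (4 * ε) := by
            calc w / (w + |Real.sin (Real.pi * ((p i).valMinAbs : ℝ) / M)|) ≤ w / u := by
                  apply div_le_div_of_nonneg_left hwpos.le hu0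
                  linarith
              _ = w ^ (4 * ε) := by
                  rw [div_eq_iff hu0.ne', hu, ← Real.rpow_add hwpos]
                  have : 4 * ε + (1 - 4 * ε) = 1 := by ring
                  rw [this, Real.rpow_one]
          calc Real.sqrt (w / (w + |Real.sin (Real.pi * ((p i).valMinAbs : ℝ) / M)|))
              ≤ Real.sqrt (w ^ (4 * ε)) := Real.sqrt_le_sqrt h3
            _ = w ^ (2 * ε) := by
                rw [Real.sqrt_eq_rpow, ← Real.rpow_mul hwpos.le]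
                congr 1
                ring
        have hlog0 : 0 ≤ 1 + Real.log (1 / w) := by
          have : 0 ≤ Real.log (1 / w) := Real.log_nonneg (by rw [one_le_div hwpos]; exact hwle1)
          linarith
        have h4 : kf ζ p ≤ Ck * (1 + Real.log (1 / w)) * w ^ (2 * ε) / w := by
          refine (le_abs_self _).trans (h1.trans ?_)
          calc Ck * (1 + Real.log (1 / w)) / w *
                Real.sqrt (w / (w + |Real.sin (Real.pi * ((p i).valMinAbs : ℝ) / M)|))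
              ≤ Ck * (1 + Real.log (1 / w)) / w * w ^ (2 * ε) := by
                apply mul_le_mul_of_nonneg_left h2
                apply div_nonneg _ hwpos.le
                exact mul_nonneg (by linarith) hlog0
            _ = _ := by ring
        have h5 : Ck * (1 + Real.log (1 / w)) * w ^ (2 * ε) ≤ b / 2 * w ^ ε := by
          have h6 : w ^ (2 * ε) = w ^ ε * w ^ ε := by
            rw [← Real.rpow_add hwpos]
            congr 1
            ring
          rw [h6]
          have h7 : 0 < w ^ ε := Real.rpow_pos_of_pos hwpos _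
          have h8 : Ck * (1 + Real.log (1 / w)) * w ^ ε ≤ b / 2 := by
            have := hlog.trans (min_le_left b 1)
            linarith
          calc Ck * (1 + Real.log (1 / w)) * (w ^ ε * w ^ ε)
              = (Ck * (1 + Real.log (1 / w)) * w ^ ε) * w ^ ε := by ring
            _ ≤ b / 2 * w ^ ε := mul_le_mul_of_nonneg_right h8 h7.le
        have h9 : kf ζ p ≤ b / 2 * (w ^ ε / w) := by
          refine h4.trans ?_
          calc Ck * (1 + Real.log (1 / w)) * w ^ (2 * ε) / w ≤ b / 2 * w ^ ε / w :=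
                div_le_div_of_nonneg_right h5 hwpos.le
            _ = b / 2 * (w ^ ε / w) := by ring
        have hwε : w ^ ε ≤ 1 := Real.rpow_le_one hwpos.le hwle1 hε.le
        have h10 : T * kf ζ p ≤ 1 / 2 := by
          have hwε0 : 0 < w ^ ε := Real.rpow_pos_of_pos hwpos _
          calc T * kf ζ p ≤ T * (b / 2 * (w ^ ε / w)) := mul_le_mul_of_nonneg_left h9 hT.le
            _ = (b * T) * (w ^ ε / (2 * w)) := by ring
            _ ≤ w * (w ^ ε / (2 * w)) := mul_le_mul_of_nonneg_right hbT (by positivity)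
            _ = w ^ ε / 2 := by field_simp
            _ ≤ 1 / 2 := by linarith
        have h11 : 0 < kf ζ p := by
          have h12 : 0 < kf ζ p / (1 - T * kf ζ p) := by
            rw [← hn0]
            exact ht0.trans htn
          exact (div_pos_iff_of_pos_right (by linarith)).1 h12
        have h13 : n0 ζ T p ≤ 2 * kf ζ p := by
          rw [hn0, div_le_iff₀ (by linarith only [h10])]
          nlinarith only [mul_nonneg h11.le (sub_nonneg.2 h10)]
        have h14 : b * (w ^ ε / w) ≤ t := by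
          have h15 : w ^ ε / w = w ^ (ε - 1) := by
            rw [Real.rpow_sub hwpos, Real.rpow_one]
          rw [h15, ht]
          have h16 : T ^ (ε - 1) ≤ s ^ (ε - 1) :=
            Real.rpow_le_rpow_of_nonpos hs hsT (by linarith)
          have h17 : w ^ (ε - 1) ≤ (b * T) ^ (ε - 1) :=
            Real.rpow_le_rpow_of_nonpos (by positivity) hbT (by linarith)
          have h18 : (b * T) ^ (ε - 1) = b ^ (ε - 1) * T ^ (ε - 1) :=
            Real.mul_rpow hb.le hT.le
          have h19 : b * b ^ (ε - 1) ≤ 1 := by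
            have h20 : b * b ^ (ε - 1) = b ^ ε := by
              rw [Real.rpow_sub hb, Real.rpow_one]
              field_simp
            rw [h20]
            exact Real.rpow_le_one hb.le hb1 hε.le
          have h21 : 0 < T ^ (ε - 1) := Real.rpow_pos_of_pos hT _
          calc b * w ^ (ε - 1) ≤ b * (b ^ (ε - 1) * T ^ (ε - 1)) := by
                rw [← h18]
                exact mul_le_mul_of_nonneg_left h17 hb.le
            _ = (b * b ^ (ε - 1)) * T ^ (ε - 1) := by ring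
            _ ≤ 1 * T ^ (ε - 1) := mul_le_mul_of_nonneg_right h19 h21.le
            _ = T ^ (ε - 1) := one_mul _
            _ ≤ s ^ (ε - 1) := h16
        linarith
      -- the symbol of the Laplacian
      have hD0 : 0 < ds p := by
        obtain ⟨i, hi⟩ : ∃ i, p i ≠ 0 := by
          by_contra hcon
          apply hp
          funext i
          by_contra h
          exact hcon ⟨i, h⟩
        have h1 := (hL1 p).1
        have h2 : ((p i).valMinAbs : ℝ) ^ 2 ≤ ∑ i, ((p i).valMinAbs : ℝ) ^ 2 :=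
          Finset.single_le_sum (f := fun i => ((p i).valMinAbs : ℝ) ^ 2)
            (fun j _ => sq_nonneg _) (Finset.mem_univ i)
        have h3 : 0 < ((p i).valMinAbs : ℝ) ^ 2 := by
          have h4 : (p i).valMinAbs ≠ 0 := by
            intro h
            exact hi ((ZMod.valMinAbs_eq_zero _).1 h)
          have h5 : ((p i).valMinAbs : ℝ) ≠ 0 := by exact_mod_cast h4
          positivity
        have h6 : 0 < 16 / (M : ℝ) ^ 2 * ∑ i, ((p i).valMinAbs : ℝ) ^ 2 := by
          have := h3.trans_le h2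
          positivity
        linarith
      have hD1 : ds p ≤ (2 * d * u) ^ 2 := by
        rw [ds_sin]
        calc ∑ i, 4 * Real.sin (Real.pi * ((p i).valMinAbs : ℝ) / M) ^ 2
            ≤ ∑ _i : Fin d, 4 * u ^ 2 := by
              apply Finset.sum_le_sum
              intro i _
              have h1 := (hsmall i).le
              have h2 : Real.sin (Real.pi * ((p i).valMinAbs : ℝ) / M) ^ 2 ≤ u ^ 2 := by
                rw [← sq_abs]
                exact pow_le_pow_left₀ (abs_nonneg _) h1 2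
              linarith
          _ = (d : ℝ) * (4 * u ^ 2) := by
              rw [Finset.sum_const, Finset.card_univ, Fintype.card_fin, nsmul_eq_mul]
          _ ≤ (2 * d * u) ^ 2 := by
              have h3 : (d : ℝ) ≤ d * d := le_mul_of_one_le_right (by linarith only [hd1]) hd1
              have h4 : 0 ≤ 4 * u ^ 2 := by positivity
              nlinarith only [mul_le_mul_of_nonneg_right h3 h4]
      have hmem1 : p ∈ low d M J1 := by
        unfold low
        rw [Finset.mem_filter]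
        refine ⟨Finset.mem_univ _, fun i => ?_⟩
        have h1 := coord_le p (2 * d * u) (by positivity) (hL1 p).1 hD1 i
        have h2 : ((p i).valMinAbs.natAbs : ℝ) ≤ (d : ℝ) * M * u := by
          have h3 : M * (2 * d * u) / 4 ≤ (d : ℝ) * M * u := by
            have : 0 ≤ (d : ℝ) * M * u := by positivity
            linarith
          linarith
        have h4 : ((p i).valMinAbs.natAbs : ℝ) ≤ (J1 : ℝ) := by
          rw [hJ1]
          exact h2.trans (Nat.le_ceil _)
        exact_mod_cast h4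
      have htn' : s ^ (ε - 1) < kf ζ p / (1 - T * kf ζ p) := by
        rw [← ht, ← hn0]
        exact htn
      have hK0 : 0 ≤ kf ζ (0 : Tor d M) := by rw [hkf0]; positivity
      have hTK : T * kf ζ (0 : Tor d M) ≤ 1 := by
        rw [hkf0, ← mul_div_assoc, div_le_one hwpos, hw]
        linarith
      have hKC : kf ζ (0 : Tor d M) * w ≤ c1 * C2 := by
        rw [hkf0, div_mul_cancel₀ _ hwpos.ne', hC2]
        have h1 : c1 * (1 + 1 / (b * c1)) = c1 + 1 / b := by field_simp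
        rw [h1]
        linarith
      have hkk : kf ζ p ≤ kf ζ (0 : Tor d M) - min 1 c1 * (ds p / (w ^ 2 + ds p)) *
          kf ζ (0 : Tor d M) := by
        have h1 := H1 p
        have h2 : min 1 c1 ≤ cs := by
          rw [hc1]
          exact (min_le_right _ _).trans (min_le_right _ _)
        have h3 : 0 ≤ ds p / (w ^ 2 + ds p) * kf ζ (0 : Tor d M) := by positivity
        have h4 := mul_le_mul_of_nonneg_right h2 h3
        linarith
      obtain ⟨h1, h2⟩ := point hwpos hT hc10 hc11 hK0 hTK hKC hD0 rfl hkk hs htn'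
      rw [← hn0] at h2
      refine h2.trans ?_
      rw [← ht, ← hV, if_pos hmem1]
      apply add_le_add le_rfl
      by_cases hB : t < 2 * (C2 * w / ds p)
      · rw [if_pos hB]
        have hlt : ds p ≤ ρ ^ 2 := by
          rw [hρsq]
          have h3 : t * ds p < 2 * (C2 * w) := by
            have h4 := mul_lt_mul_of_pos_right hB hD0
            have h5 : 2 * (C2 * w / ds p) * ds p = 2 * (C2 * w) := by field_simp
            rwa [h5] at h4
          have h6 := mul_lt_mul_of_pos_right h3 hs2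
          have h7 : t * ds p * s ^ (1 - ε) = ds p := by
            have h8 : t * s ^ (1 - ε) = 1 := by
              rw [ht, ← Real.rpow_add hs]
              simp
            calc t * ds p * s ^ (1 - ε) = ds p * (t * s ^ (1 - ε)) := by ring
              _ = ds p := by rw [h8, mul_one]
          rw [h7] at h6
          linarith
        have hmem2 : p ∈ (low d M J2).filter (fun p => p ≠ 0) := by
          rw [Finset.mem_filter]
          refine ⟨?_, hp⟩
          unfold low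
          rw [Finset.mem_filter]
          refine ⟨Finset.mem_univ _, fun i => ?_⟩
          have h3 := coord_le p ρ hρ0 (hL1 p).1 hlt i
          rw [hJ2]
          exact Nat.le_floor h3
        rw [if_pos hmem2]
        have : 2 * (C2 * w / ds p) = 2 * (C2 * w) * (1 / ds p) := by ring
        rw [this]
      · rw [if_neg hB]
        exact hg2
  -- the sum
  have hsum : ∑ p : Tor d M, n1 ζ T t p ≤ 1 / (b * η) + ((low d M J1).card : ℝ) * V +
      2 * (C2 * w) * ∑ p ∈ (low d M J2).filter (fun p => p ≠ 0), 1 / ds p := by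
    refine (Finset.sum_le_sum fun p _ => hpt p).trans ?_
    rw [Finset.sum_add_distrib, Finset.sum_add_distrib]
    apply le_of_eq
    congr 1
    · congr 1
      · rw [Finset.sum_ite_eq' Finset.univ (0 : Tor d M) (fun _ => 1 / (b * η)),
          if_pos (Finset.mem_univ _)]
      · rw [Finset.sum_ite_mem, Finset.univ_inter, Finset.sum_const, nsmul_eq_mul]
    · rw [Finset.sum_ite_mem, Finset.univ_inter, Finset.mul_sum]
  have hMd : 0 < (M : ℝ) ^ d := by positivity
  have hp1 := part1 d M hd hM w s ε C2 CL K T J1 hwpos hwle1 hs hs1 hε hε' hC21 hCL hT hK1 hwT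
    (by rw [← hu]; exact hJ1le) ((low d M J1).card : ℝ) (hL2 J1 hJ1pos).1 (Nat.cast_nonneg _)
  rw [← ht, ← hV, ← hKK1] at hp1
  have hp2 : 2 * (C2 * w) * (∑ p ∈ (low d M J2).filter (fun p => p ≠ 0), 1 / ds p) / (M : ℝ) ^ d ≤
      KK2 * (T ^ (3 / 2 : ℝ) * s ^ (1 / 2 - 13 * ε)) := by
    by_cases hJ20 : 1 ≤ J2
    · have := part2 d M hd hM w s ε C2 CL K T _ ρ J2 hwpos hs hs1 hε hC21 hCL hT hK1 hwT hρ hρ4
        hJ2le (hL2 J2 hJ20).2
      rwa [← hKK2] at this
    · have hJ0 : J2 = 0 := by omega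
      have hempty : (low d M J2).filter (fun p => p ≠ 0) = ∅ := by
        rw [Finset.filter_eq_empty_iff]
        intro p hpm hp0
        apply hp0
        unfold low at hpm
        rw [Finset.mem_filter, hJ0] at hpm
        funext i
        have h1 := hpm.2 i
        have h2 : (p i).valMinAbs = 0 := Int.natAbs_eq_zero.1 (by omega)
        exact (ZMod.valMinAbs_eq_zero _).1 h2
      rw [hempty, Finset.sum_empty, mul_zero, zero_div]
      have h1 := Real.rpow_nonneg hT.le (3 / 2)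
      have h2 := Real.rpow_nonneg hs.le (1 / 2 - 13 * ε)
      positivity
  have hfin : pm (n1 ζ T t : Tor d M → ℝ) ≤ 1 / (b * η) / (M : ℝ) ^ d +
      KK1 * (T ^ (3 / 2 : ℝ) * s ^ (1 / 2 - 13 * ε)) +
      KK2 * (T ^ (3 / 2 : ℝ) * s ^ (1 / 2 - 13 * ε)) := by
    unfold pm
    calc (∑ p : Tor d M, n1 ζ T t p) / (M : ℝ) ^ d ≤ (1 / (b * η) + ((low d M J1).card : ℝ) * V +
          2 * (C2 * w) * ∑ p ∈ (low d M J2).filter (fun p => p ≠ 0), 1 / ds p) / (M : ℝ) ^ d :=
          div_le_div_of_nonneg_right hsum hMd.le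
      _ = 1 / (b * η) / (M : ℝ) ^ d + ((low d M J1).card : ℝ) * V / (M : ℝ) ^ d +
          2 * (C2 * w) * (∑ p ∈ (low d M J2).filter (fun p => p ≠ 0), 1 / ds p) / (M : ℝ) ^ d := by
          rw [add_div, add_div]
      _ ≤ _ := add_le_add (add_le_add le_rfl hp1) hp2
  rw [ht] at hfin
  refine hfin.trans ?_
  have h1 := Real.rpow_nonneg hT.le (3 / 2)
  have h2 := Real.rpow_nonneg hs.le (1 / 2 - 13 * ε)
  have h3 : 0 ≤ T ^ (3 / 2 : ℝ) * s ^ (1 / 2 - 13 * ε) := mul_nonneg h1 h2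
  have h4 : 1 / (b * η) / (M : ℝ) ^ d = (1 / b) * (1 / (η * (M : ℝ) ^ d)) := by
    field_simp
  have h5 : (1 + 1 / b + KK1 + KK2) / (η * (M : ℝ) ^ d) =
      (1 + 1 / b + KK1 + KK2) * (1 / (η * (M : ℝ) ^ d)) := by ring
  rw [h4, h5]
  have h6 : 0 ≤ 1 / (η * (M : ℝ) ^ d) := by positivity
  have h7 : (1 / b) * (1 / (η * (M : ℝ) ^ d)) ≤
      (1 + 1 / b + KK1 + KK2) * (1 / (η * (M : ℝ) ^ d)) :=
    mul_le_mul_of_nonneg_right (by linarith) h6
  have h8 : (KK1 + KK2) * (T ^ (3 / 2 : ℝ) * s ^ (1 / 2 - 13 * ε)) ≤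
      (1 + 1 / b + KK1 + KK2) * (T ^ (3 / 2 : ℝ) * s ^ (1 / 2 - 13 * ε)) := by
    apply mul_le_mul_of_nonneg_right _ h3
    have : 0 < 1 / b := by positivity
    linarith
  nlinarith only [h7, h8]

end Pool.Agent.ANI.H31
end
end -- Pool.Agent.Helper31_ANI.WHT
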