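import Pool.Agent.Helper12_MEB.B087

/-!
# Merged copies (generated) of the modules

* `Pool.Agent.Helper15_LQZ.XNB`
* `Pool.Agent.Helper1_LQZ.UPC`
* `Pool.Agent.Helper44_LQZ.UPB`
* `Pool.Agent.Helper77_LQZ.LMB`
* `Pool.Agent.Helper69_LQY.LDS`
-/

set_option autoImplicit false

section -- Pool.Agent.Helper15_LQZ.XNB

/-! # XNB: norms of `Θ A Θ + ∑ Θ g Θ g Θ` -/

set_option autoImplicit false

open MeasureTheory ProbabilityTheory Function Filter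

open scoped ENNReal BigOperators Topology NNReal ComplexOrder Matrix

noncomputable section

namespace Pool.Agent.LE.QZ.H15

open Pool.Agent.Anderson hiding box mem_box card_box
open Pool.Agent.Loc Pool.Agent.Mob Pool.Agent.Helper54.Bal
  Pool.Agent.Helper96.EXP Pool.Agent.BED
open Pool.Agent.LE.MN Pool.Agent.LE.CL Pool.Agent.LE.IR Pool.Agent.LE.QD Pool.Agent.LE.QF

variable {X : Type} [Fintype X]

theorem n2_nn (f : X → ℂ) : 0 ≤ n2 f := Finset.sum_nonneg fun _ _ => by positivity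

theorem n2_dot (f : X → ℂ) : (star f ⬝ᵥ f) = (n2 f : ℂ) := by
  simp only [dotProduct, n2, Pi.star_apply, Complex.ofReal_sum]
  refine Finset.sum_congr rfl fun x _ => ?_
  rw [Complex.star_def, ← Complex.normSq_eq_conj_mul_self, Complex.normSq_eq_norm_sq]

theorem cs (f g : X → ℂ) : ‖star f ⬝ᵥ g‖ ^ 2 ≤ n2 f * n2 g := by
  have h1 : ‖star f ⬝ᵥ g‖ ≤ ∑ x, ‖f x‖ * ‖g x‖ := by
    refine (norm_sum_le _ _).trans (Finset.sum_le_sum fun x _ => ?_)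
    rw [norm_mul, Pi.star_apply, norm_star]
  have h2 : (∑ x, ‖f x‖ * ‖g x‖) ^ 2 ≤ (∑ x, ‖f x‖ ^ 2) * ∑ x, ‖g x‖ ^ 2 :=
    Finset.sum_mul_sq_le_sq_mul_sq _ _ _
  exact (pow_le_pow_left₀ (norm_nonneg _) h1 2).trans h2

/-- the square root form -/
theorem cs' (f g : X → ℂ) : ‖star f ⬝ᵥ g‖ ≤ Real.sqrt (n2 f) * Real.sqrt (n2 g) := by
  rw [← Real.sqrt_mul (n2_nn f)]
  exact Real.le_sqrt_of_sq_le (cs f g)

/-- the norm of the adjoint -/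
theorem n2_adj (Y : Matrix X X ℂ) (c : ℝ) (h : ∀ u, n2 (Y *ᵥ u) ≤ c ^ 2 * n2 u)
    (u : X → ℂ) : n2 (Yᴴ *ᵥ u) ≤ c ^ 2 * n2 u := by
  have h1 : (n2 (Yᴴ *ᵥ u) : ℂ) = star u ⬝ᵥ (Y *ᵥ (Yᴴ *ᵥ u)) := by
    rw [← n2_dot, Matrix.star_mulVec, Matrix.conjTranspose_conjTranspose,
      ← Matrix.dotProduct_mulVec]
  have h2 := cs u (Y *ᵥ (Yᴴ *ᵥ u))
  rw [← h1, Complex.norm_real, Real.norm_eq_abs, sq_abs] at h2
  have h3 := h (Yᴴ *ᵥ u)
  have h4 := n2_nn u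
  have h5 := n2_nn (Yᴴ *ᵥ u)
  by_contra h6
  push Not at h6
  have h7 : n2 (Yᴴ *ᵥ u) ^ 2 ≤ n2 u * (c ^ 2 * n2 (Yᴴ *ᵥ u)) :=
    h2.trans (mul_le_mul_of_nonneg_left h3 h4)
  have h8 : 0 < n2 (Yᴴ *ᵥ u) := lt_of_le_of_lt (by positivity) h6
  nlinarith

theorem n2_add (f g : X → ℂ) : n2 (f + g) ≤ 2 * n2 f + 2 * n2 g := by
  unfold n2
  rw [Finset.mul_sum, Finset.mul_sum, ← Finset.sum_add_distrib]
  refine Finset.sum_le_sum fun x _ => ?_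
  have h := norm_add_le (f x) (g x)
  have h1 := norm_nonneg (f x + g x)
  have h2 := norm_nonneg (f x)
  have h3 := norm_nonneg (g x)
  have h4 : ‖f x + g x‖ ^ 2 ≤ (‖f x‖ + ‖g x‖) ^ 2 := pow_le_pow_left₀ h1 h 2
  change ‖f x + g x‖ ^ 2 ≤ _
  nlinarith [sq_nonneg (‖f x‖ - ‖g x‖)]

/-- moving a matrix to the left side -/
theorem dot_move (w v : X → ℂ) (B : Matrix X X ℂ) : star w ⬝ᵥ (B *ᵥ v) = star (Bᴴ *ᵥ w) ⬝ᵥ v := by
  rw [Matrix.star_mulVec, Matrix.conjTranspose_conjTranspose, ← Matrix.dotProduct_mulVec]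

/-- a sum of pairings -/
theorem sum_cs {ι : Type} [Fintype ι] (f g : ι → X → ℂ) (a b : ℝ)
    (hf : ∑ c, n2 (f c) ≤ a) (hg : ∑ c, n2 (g c) ≤ b) :
    ‖∑ c, star (f c) ⬝ᵥ g c‖ ≤ Real.sqrt a * Real.sqrt b := by
  calc ‖∑ c, star (f c) ⬝ᵥ g c‖ ≤ ∑ c, ‖star (f c) ⬝ᵥ g c‖ := norm_sum_le _ _
    _ ≤ ∑ c, Real.sqrt (n2 (f c)) * Real.sqrt (n2 (g c)) :=
        Finset.sum_le_sum fun c _ => cs' _ _
    _ ≤ Real.sqrt (∑ c, Real.sqrt (n2 (f c)) ^ 2) * Real.sqrt (∑ c, Real.sqrt (n2 (g c)) ^ 2) :=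
        Real.sum_mul_le_sqrt_mul_sqrt _ _ _
    _ = Real.sqrt (∑ c, n2 (f c)) * Real.sqrt (∑ c, n2 (g c)) := by
        simp only [Real.sq_sqrt (n2_nn _)]
    _ ≤ Real.sqrt a * Real.sqrt b :=
        mul_le_mul (Real.sqrt_le_sqrt hf) (Real.sqrt_le_sqrt hg) (Real.sqrt_nonneg _)
          (Real.sqrt_nonneg _)

theorem xnb : XnbStmt := by
  intro X ι _ _ _ Θ A g ε ν hε hν hΘ hA hg hg'
  have h1 : ∀ u : X → ℂ, n2 (Θ *ᵥ u) ≤ 4 * n2 u := by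
    intro u
    have e : Θ *ᵥ u = (Θ - 1) *ᵥ u + u := by
      rw [Matrix.sub_mulVec, Matrix.one_mulVec, sub_add_cancel]
    rw [e]
    have := n2_add ((Θ - 1) *ᵥ u) u
    have := hΘ u
    linarith
  have h2 : ∀ u : X → ℂ, n2 (Θᴴ *ᵥ u) ≤ 4 * n2 u := by
    intro u
    have := n2_adj Θ 2 (fun u => by have := h1 u; norm_num; linarith) u
    norm_num at this
    linarith
  have h3 : ∀ u : X → ℂ, ∑ c, n2 ((Θ * g c * Θ) *ᵥ u) ≤ 16 * ν * n2 u := by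
    intro u
    calc ∑ c, n2 ((Θ * g c * Θ) *ᵥ u) = ∑ c, n2 (Θ *ᵥ (g c *ᵥ (Θ *ᵥ u))) := by
          refine Finset.sum_congr rfl fun c _ => ?_
          rw [Matrix.mulVec_mulVec, Matrix.mulVec_mulVec, mul_assoc]
      _ ≤ ∑ c, 4 * n2 (g c *ᵥ (Θ *ᵥ u)) := Finset.sum_le_sum fun c _ => h1 _
      _ = 4 * ∑ c, n2 (g c *ᵥ (Θ *ᵥ u)) := by rw [Finset.mul_sum]
      _ ≤ 4 * (ν * n2 (Θ *ᵥ u)) := mul_le_mul_of_nonneg_left (hg _) (by norm_num)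
      _ ≤ 4 * (ν * (4 * n2 u)) := mul_le_mul_of_nonneg_left
          (mul_le_mul_of_nonneg_left (h1 u) hν) (by norm_num)
      _ = 16 * ν * n2 u := by ring
  have h4 : ∀ u : X → ℂ, ∑ c, n2 ((Θ * g c * Θ)ᴴ *ᵥ u) ≤ 16 * ν * n2 u := by
    intro u
    calc ∑ c, n2 ((Θ * g c * Θ)ᴴ *ᵥ u) = ∑ c, n2 (Θᴴ *ᵥ ((g c)ᴴ *ᵥ (Θᴴ *ᵥ u))) := by
          refine Finset.sum_congr rfl fun c _ => ?_
          rw [Matrix.mulVec_mulVec, Matrix.mulVec_mulVec, Matrix.conjTranspose_mul,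
            Matrix.conjTranspose_mul, mul_assoc]
      _ ≤ ∑ c, 4 * n2 ((g c)ᴴ *ᵥ (Θᴴ *ᵥ u)) := Finset.sum_le_sum fun c _ => h2 _
      _ = 4 * ∑ c, n2 ((g c)ᴴ *ᵥ (Θᴴ *ᵥ u)) := by rw [Finset.mul_sum]
      _ ≤ 4 * (ν * n2 (Θᴴ *ᵥ u)) := mul_le_mul_of_nonneg_left (hg' _) (by norm_num)
      _ ≤ 4 * (ν * (4 * n2 u)) := mul_le_mul_of_nonneg_left
          (mul_le_mul_of_nonneg_left (h2 u) hν) (by norm_num)
      _ = 16 * ν * n2 u := by ring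
  refine ⟨fun u => ⟨h1 u, h2 u⟩, ?_, h3, h4⟩
  intro u
  set w : X → ℂ := (Θ * A * Θ + ∑ c, Θ * g c * Θ * g c * Θ) *ᵥ u with hw
  have e1 : w = (Θ * A * Θ) *ᵥ u + ∑ c, (Θ * g c * Θ * g c * Θ) *ᵥ u := by
    rw [hw, Matrix.add_mulVec, Matrix.sum_mulVec]
  have e2 : star w ⬝ᵥ w = star w ⬝ᵥ ((Θ * A * Θ) *ᵥ u) +
      ∑ c, star ((g c)ᴴ *ᵥ (Θᴴ *ᵥ w)) ⬝ᵥ ((Θ * g c * Θ) *ᵥ u) := by
    have e0 : star w ⬝ᵥ w = star w ⬝ᵥ ((Θ * A * Θ) *ᵥ u +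
        ∑ c, (Θ * g c * Θ * g c * Θ) *ᵥ u) := by rw [← e1]
    rw [e0, dotProduct_add, dotProduct_sum]
    congr 1
    refine Finset.sum_congr rfl fun c _ => ?_
    rw [← dot_move, ← dot_move, Matrix.mulVec_mulVec, Matrix.mulVec_mulVec]
    simp only [mul_assoc]
  have b1 : ‖star w ⬝ᵥ ((Θ * A * Θ) *ᵥ u)‖ ≤ Real.sqrt (n2 w) * (4 * ε * Real.sqrt (n2 u)) := by
    refine (cs' _ _).trans (mul_le_mul_of_nonneg_left ?_ (Real.sqrt_nonneg _))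
    have h5 : n2 ((Θ * A * Θ) *ᵥ u) ≤ (4 * ε) ^ 2 * n2 u := by
      rw [mul_assoc, ← Matrix.mulVec_mulVec, ← Matrix.mulVec_mulVec]
      calc n2 (Θ *ᵥ (A *ᵥ (Θ *ᵥ u))) ≤ 4 * n2 (A *ᵥ (Θ *ᵥ u)) := h1 _
        _ ≤ 4 * (ε ^ 2 * n2 (Θ *ᵥ u)) := mul_le_mul_of_nonneg_left (hA _) (by norm_num)
        _ ≤ 4 * (ε ^ 2 * (4 * n2 u)) := mul_le_mul_of_nonneg_left
          (mul_le_mul_of_nonneg_left (h1 u) (sq_nonneg _)) (by norm_num)
        _ = (4 * ε) ^ 2 * n2 u := by ring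
    calc Real.sqrt (n2 ((Θ * A * Θ) *ᵥ u)) ≤ Real.sqrt ((4 * ε) ^ 2 * n2 u) :=
          Real.sqrt_le_sqrt h5
      _ = 4 * ε * Real.sqrt (n2 u) := by
          rw [Real.sqrt_mul (sq_nonneg _), Real.sqrt_sq (by positivity)]
  have b2 : ‖∑ c, star ((g c)ᴴ *ᵥ (Θᴴ *ᵥ w)) ⬝ᵥ ((Θ * g c * Θ) *ᵥ u)‖ ≤
      Real.sqrt (n2 w) * (8 * ν * Real.sqrt (n2 u)) := by
    have h5 : ∑ c, n2 ((g c)ᴴ *ᵥ (Θᴴ *ᵥ w)) ≤ 4 * ν * n2 w := by
      calc ∑ c, n2 ((g c)ᴴ *ᵥ (Θᴴ *ᵥ w)) ≤ ν * n2 (Θᴴ *ᵥ w) := hg' _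
        _ ≤ ν * (4 * n2 w) := mul_le_mul_of_nonneg_left (h2 w) hν
        _ = 4 * ν * n2 w := by ring
    refine (sum_cs _ _ _ _ h5 (h3 u)).trans (le_of_eq ?_)
    have hw0 := n2_nn w
    have hu0 := n2_nn u
    rw [← Real.sqrt_mul (by positivity)]
    have e3 : 4 * ν * n2 w * (16 * ν * n2 u) = (8 * ν) ^ 2 * (n2 w * n2 u) := by ring
    rw [e3, Real.sqrt_mul (sq_nonneg _), Real.sqrt_sq (by positivity), Real.sqrt_mul hw0]
    ring
  have b3 : n2 w ≤ Real.sqrt (n2 w) * ((4 * ε + 8 * ν) * Real.sqrt (n2 u)) := by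
    have h5 : n2 w = ‖star w ⬝ᵥ w‖ := by
      rw [n2_dot, Complex.norm_real, Real.norm_of_nonneg (n2_nn w)]
    calc n2 w = ‖star w ⬝ᵥ w‖ := h5
      _ ≤ _ := by rw [e2]; exact norm_add_le _ _
      _ ≤ Real.sqrt (n2 w) * (4 * ε * Real.sqrt (n2 u)) +
        Real.sqrt (n2 w) * (8 * ν * Real.sqrt (n2 u)) := add_le_add b1 b2
      _ = _ := by ring
  have hw0 := n2_nn w
  have hu0 := n2_nn u
  have s1 := Real.sq_sqrt hw0
  have s2 := Real.sq_sqrt hu0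
  have s3 := Real.sqrt_nonneg (n2 w)
  have s4 := Real.sqrt_nonneg (n2 u)
  rcases eq_or_lt_of_le s3 with h | h
  · have h0 : n2 w = 0 := by rw [← s1, ← h]; norm_num
    rw [h0]
    exact mul_nonneg (sq_nonneg _) hu0
  · have h6 : Real.sqrt (n2 w) ≤ (4 * ε + 8 * ν) * Real.sqrt (n2 u) := by
      have h7 : Real.sqrt (n2 w) * Real.sqrt (n2 w) ≤
          Real.sqrt (n2 w) * ((4 * ε + 8 * ν) * Real.sqrt (n2 u)) := by
        rw [← sq, s1]; exact b3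
      exact le_of_mul_le_mul_left h7 h
    calc n2 w = Real.sqrt (n2 w) ^ 2 := s1.symm
      _ ≤ ((4 * ε + 8 * ν) * Real.sqrt (n2 u)) ^ 2 := pow_le_pow_left₀ s3 h6 2
      _ = (4 * ε + 8 * ν) ^ 2 * n2 u := by rw [mul_pow, s2]

end Pool.Agent.LE.QZ.H15
end
end -- Pool.Agent.Helper15_LQZ.XNB

section -- Pool.Agent.Helper1_LQZ.UPC

/-!
# Squad LQZ, row UPC: the part of `Λ` of the functional

A copy of `Helper69_LQX/UPC.lean` with the changes of `DefsQZ.lean`.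
-/

set_option autoImplicit false

open scoped ENNReal BigOperators Topology NNReal ComplexOrder Matrix

noncomputable section

namespace Pool.Agent.LE.QZ.H1

open Pool.Agent.Anderson hiding box mem_box card_box
open Pool.Agent.Loc Pool.Agent.Mob Pool.Agent.Helper54.Bal
  Pool.Agent.Helper96.EXP Pool.Agent.BED
open Pool.Agent.LE.MN Pool.Agent.LE.CL Pool.Agent.LE.IR Pool.Agent.LE.QD Pool.Agent.LE.QF

/-- the numbers -/
theorem upc_num {j p : ℕ} {δ e₀ L₀ N w π₀ h ch C₀ CL U R κ l : ℝ} (hδ : 0 < δ)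
    (he : 1 ≤ e₀) (hL : 1 ≤ L₀) (hN : 1 ≤ N) (hw : 0 ≤ w) (hπ : 0 ≤ π₀) (hch : 0 ≤ ch)
    (hC₀ : 1 ≤ C₀) (hCL : 1 ≤ CL) (hκ : 0 < κ) (hU : 0 ≤ U) (hR : 0 ≤ R)
    (hl : l ≤ 6 * (j : ℝ) ^ 2 * (2 * CL / κ) * (1 / Real.sqrt L₀ + (C₀ * δ + (e₀ - 1))) *
      (U + R)) :
    l ≤ 12 * CL * (1 + C₀) * (j * (h ^ 2 * (δ + Real.sqrt ch / δ)) +
      j ^ 2 * (h ^ 4 * (ch / δ ^ 2) + N * w + δ +
        1 / Real.sqrt L₀ + (e₀ - 1)) + p * δ + p ^ 2 * (N * w + δ ^ 2 + π₀)) / κ *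
      (U + R) := by
  have hL0 : 0 < L₀ := by linarith only [hL]
  have hN0 : 0 < N := by linarith only [hN]
  have hs : 0 ≤ 1 / Real.sqrt L₀ := by positivity
  set B : ℝ := δ + 1 / Real.sqrt L₀ + (e₀ - 1) with hB
  have hB0 : 0 ≤ B := by
    rw [hB]
    linarith only [hs, hδ, he]
  have h1 : 1 / Real.sqrt L₀ + (C₀ * δ + (e₀ - 1)) ≤ (1 + C₀) * B := by
    have e2 : 0 ≤ C₀ * (1 / Real.sqrt L₀) := mul_nonneg (by linarith only [hC₀]) hs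
    have e3 : 0 ≤ C₀ * (e₀ - 1) :=
      mul_nonneg (by linarith only [hC₀]) (by linarith only [he])
    rw [hB]
    linarith only [hδ, e2, e3]
  set S : ℝ := j * (h ^ 2 * (δ + Real.sqrt ch / δ)) +
      j ^ 2 * (h ^ 4 * (ch / δ ^ 2) + N * w + δ +
        1 / Real.sqrt L₀ + (e₀ - 1)) + p * δ + p ^ 2 * (N * w + δ ^ 2 + π₀) with hS
  have h2 : (j : ℝ) ^ 2 * B ≤ S := by
    have e1 : 0 ≤ (j : ℝ) * (h ^ 2 * (δ + Real.sqrt ch / δ)) := by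
      positivity
    have e2 : 0 ≤ (j : ℝ) ^ 2 * (h ^ 4 * (ch / δ ^ 2) + N * w) := by
      have f1 : 0 ≤ h ^ 4 * (ch / δ ^ 2) := by
        have : 0 ≤ h ^ 4 := by positivity
        positivity
      positivity
    have e3 : 0 ≤ (p : ℝ) * δ := by positivity
    have e4 : 0 ≤ (p : ℝ) ^ 2 * (N * w + δ ^ 2 + π₀) := by positivity
    rw [hB, hS]
    linarith only [e1, e2, e3, e4]
  refine hl.trans (mul_le_mul_of_nonneg_right ?_ (add_nonneg hU hR))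
  have h3 : (j : ℝ) ^ 2 * (1 / Real.sqrt L₀ + (C₀ * δ + (e₀ - 1))) ≤ (1 + C₀) * S := by
    calc (j : ℝ) ^ 2 * (1 / Real.sqrt L₀ + (C₀ * δ + (e₀ - 1)))
        ≤ (j : ℝ) ^ 2 * ((1 + C₀) * B) := mul_le_mul_of_nonneg_left h1 (by positivity)
      _ = (1 + C₀) * ((j : ℝ) ^ 2 * B) := by ring
      _ ≤ (1 + C₀) * S := mul_le_mul_of_nonneg_left h2 (by linarith only [hC₀])
  calc 6 * (j : ℝ) ^ 2 * (2 * CL / κ) * (1 / Real.sqrt L₀ + (C₀ * δ + (e₀ - 1)))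
      = 12 * CL / κ * ((j : ℝ) ^ 2 * (1 / Real.sqrt L₀ + (C₀ * δ + (e₀ - 1)))) := by ring
    _ ≤ 12 * CL / κ * ((1 + C₀) * S) := mul_le_mul_of_nonneg_left h3 (by positivity)
    _ = 12 * CL * (1 + C₀) * S / κ := by ring

/-- the bounds of drift and gradient -/
theorem upc_ineq {L₀ N π₀ κ δ L v ε₃ C l γ : ℝ} (hL₀ : 1 ≤ L₀) (hN : 1 ≤ N) (hκ : 0 < κ)
    (hδ : 0 ≤ δ) (hδ1 : δ ≤ 1) (hπ : 0 ≤ π₀) (hC : 1 ≤ C) (hv : 0 ≤ v) (hε₃ : 0 ≤ ε₃)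
    (hL : L = L₀ * (N + π₀ / κ + δ ^ 4 / κ))
    (hl : l ≤ C / κ * (π₀ / κ + ε₃ * v +
      Real.sqrt (v * (δ ^ 2 * (N + δ ^ 2 / κ)))))
    (hγ : γ ≤ v * (C / κ * (π₀ / κ + ε₃ * v))) :
    l ≤ 2 * C / κ * (L / L₀ + Real.sqrt (L * v / L₀) + ε₃ * v) ∧
    γ ≤ v * (2 * C / κ * (L / L₀ + Real.sqrt (L * v / L₀) + ε₃ * v)) := by
  have hL0 : 0 < L₀ := by linarith only [hL₀]
  have hN0 : 0 < N := by linarith only [hN]
  have e1 : L / L₀ = N + π₀ / κ + δ ^ 4 / κ := by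
    rw [hL]
    field_simp
  have e2 : L * v / L₀ = (N + π₀ / κ + δ ^ 4 / κ) * v := by
    rw [← e1]
    ring
  have hπκ : 0 ≤ π₀ / κ := by positivity
  have hδκ : 0 ≤ δ ^ 4 / κ := by positivity
  have e3 : π₀ / κ ≤ L / L₀ := by
    rw [e1]
    linarith only [hN0, hδκ]
  have e4 : δ ^ 2 * (N + δ ^ 2 / κ) ≤ N + π₀ / κ + δ ^ 4 / κ := by
    have f1 : δ ^ 2 ≤ 1 := pow_le_one₀ hδ hδ1
    have f2 : δ ^ 2 * N ≤ 1 * N := mul_le_mul_of_nonneg_right f1 hN0.le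
    have f3 : δ ^ 2 * (N + δ ^ 2 / κ) = δ ^ 2 * N + δ ^ 4 / κ := by ring
    rw [f3]
    linarith only [f2, hπκ]
  have e6 : Real.sqrt (v * (δ ^ 2 * (N + δ ^ 2 / κ))) ≤ Real.sqrt (L * v / L₀) := by
    apply Real.sqrt_le_sqrt
    rw [e2, mul_comm v]
    exact mul_le_mul_of_nonneg_right e4 hv
  have hs := Real.sqrt_nonneg (L * v / L₀)
  have hCκ : 0 ≤ C / κ := by positivity
  have hε₃v : 0 ≤ ε₃ * v := mul_nonneg hε₃ hv
  have hLL : 0 ≤ L / L₀ := hπκ.trans e3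
  have k1 : C / κ * (π₀ / κ + ε₃ * v +
      Real.sqrt (v * (δ ^ 2 * (N + δ ^ 2 / κ)))) ≤
      2 * C / κ * (L / L₀ + Real.sqrt (L * v / L₀) + ε₃ * v) := by
    calc _ ≤ C / κ * (2 * (L / L₀ + Real.sqrt (L * v / L₀) + ε₃ * v)) := by
          apply mul_le_mul_of_nonneg_left _ hCκ
          linarith only [e3, e6, hs, hLL, hε₃v]
      _ = _ := by ring
  have k2 : C / κ * (π₀ / κ + ε₃ * v) ≤
      2 * C / κ * (L / L₀ + Real.sqrt (L * v / L₀) + ε₃ * v) := by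
    calc _ ≤ C / κ * (2 * (L / L₀ + Real.sqrt (L * v / L₀) + ε₃ * v)) := by
          apply mul_le_mul_of_nonneg_left _ hCκ
          linarith only [e3, hs, hLL, hε₃v]
      _ = _ := by ring
  exact ⟨hl.trans k1, hγ.trans (mul_le_mul_of_nonneg_left k2 hv)⟩

/-- UPC -/
theorem upc (jtl : JtlStmt) (lmb : QZ.LmbStmt) (lmu : LmuStmt) (rsj : QZ.RsjStmt) :
    QZ.UpcStmt := by
  intro c₁ C₁ C₀ hc₁ hC₁ hC₀
  obtain ⟨CL, hCL, hlmb⟩ := lmb C₀ hC₀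
  refine ⟨12 * CL * (1 + C₀), ?_, ?_⟩
  · nlinarith only [hCL, hC₀]
  intro d M _ D c₀ κ τ q _ hA hq0 hqT hG
  obtain ⟨hκk, hτt, hηκ, -, hτ0, -, -⟩ := hG.hκ
  obtain ⟨hκ0, hκ1, -, -, -⟩ := hG.hG.hκ
  obtain ⟨hδ0, hCδ, hN1⟩ := hG.hG.hδ
  have hkp : 0 < D.kp q.1 := hκk ▸ hκ0
  obtain ⟨hJ, -, -, -, -, hLs, hLs'⟩ := rsj d M D c₁ C₁ c₀ q hc₁ hA hkp
  obtain ⟨hj, hp, hL₀, hN, hπ⟩ := hA.hj
  have hδp := hA.hδ.1
  obtain ⟨he1, he01, -⟩ := hA.he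
  obtain ⟨hS1, hS2, -, hS4⟩ := hA.hS
  have hη := hA.hT.2.1
  have he : 1 ≤ D.e₀ := he1.le.trans he01
  have hε₃ : 0 ≤ C₀ * D.δ + (D.e₀ - 1) := by
    have : 0 ≤ C₀ * D.δ := mul_nonneg (by linarith only [hC₀]) hδ0
    linarith only [this, he]
  have hδ1 : D.δ ≤ 1 := by nlinarith only [hCδ, hC₀, hδ0]
  have hL : D.Ls q.1 = D.L₀ * (D.N + D.π₀ / κ + D.δ ^ 4 / κ) := by
    rw [hκk]
    rfl
  have hLpos : 0 < D.Ls q.1 := by
    rw [hL]
    have h1 : 0 ≤ D.π₀ / κ := by positivity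
    have h2 : 0 ≤ D.δ ^ 4 / κ := by positivity
    have h3 : 0 < D.L₀ := by linarith only [hL₀]
    exact mul_pos h3 (by linarith only [h1, h2, hN])
  have hcardeq : (Fintype.card (Tor d M) : ℝ) = (M : ℝ) ^ d := by
    rw [show Fintype.card (Tor d M) = M ^ d from by simp [Tor, ZMod.card]]
    push_cast
    rfl
  have hMd : (0 : ℝ) < (M : ℝ) ^ d := by
    have h1 : 0 < M := Nat.pos_of_ne_zero (NeZero.ne M)
    positivity
  have hSd : ∀ a, D.S a a + 1 / (κ * (Fintype.card (Tor d M) : ℝ)) ≤ D.π₀ := by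
    intro a
    refine le_trans (add_le_add le_rfl ?_) (hS4 a)
    rw [hcardeq]
    exact one_div_le_one_div_of_le (mul_pos hη hMd) (mul_le_mul_of_nonneg_right hηκ hMd.le)
  have hv : ∀ a, 0 ≤ D.La q a := fun a => Finset.sum_nonneg fun b _ => sq_nonneg _
  have hjet : ∀ a, HJ (fun r => D.La r a) q (D.La q a)
      (fun c => 2 * ∑ b, KK (D.G q) a b * dK (D.G q) c a b) (lLa (D.G q) (D.mu q) a) :=
    fun a => jtl (Tor d M) q D.G D.ta (D.G q) D.m (D.ta q.1) (D.mu q) hJ rfl a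
  have hb : ∀ a, lLa (D.G q) (D.mu q) a ≤ 2 * CL / κ * (D.Ls q.1 / D.L₀ +
        Real.sqrt (D.Ls q.1 * D.La q a / D.L₀) + (C₀ * D.δ + (D.e₀ - 1)) * D.La q a) ∧
      ∑ c, (2 * ∑ b, KK (D.G q) a b * dK (D.G q) c a b) ^ 2 ≤ D.La q a * (2 * CL / κ *
        (D.Ls q.1 / D.L₀ + Real.sqrt (D.Ls q.1 * D.La q a / D.L₀) +
          (C₀ * D.δ + (D.e₀ - 1)) * D.La q a)) := by
    intro a
    obtain ⟨b1, b2⟩ := hlmb (Tor d M) (D.G q) (D.mu q) D.nr D.S κ τ D.δ D.N D.π₀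
      (C₀ * D.δ + (D.e₀ - 1)) a hG.hG hε₃ hS1 hS2 hSd hG.hK
    exact upc_ineq hL₀ hN hκ0 hδ0 hδ1 hπ hCL (hv a) hε₃ hL b1 b2
  obtain ⟨g', l', hU, hl'⟩ := lmu (Tor d M) q (Tor d M) (fun a r => D.La r a) (fun a => D.La q a)
    (fun a => lLa (D.G q) (D.mu q) a)
    (fun a c => 2 * ∑ b, KK (D.G q) a b * dK (D.G q) c a b) D.Ls (2 * CL) κ (D.Ls q.1) D.L₀
    (C₀ * D.δ + (D.e₀ - 1)) D.j (by linarith only [hCL]) hκ0 hLpos hL₀
    hε₃ (by omega) hjet hLs rfl hLs' hv (fun a => (hb a).1)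
    (fun a => (hb a).2)
  have hU' : HJ D.U4 q (D.U4 q) g' l' := hU
  refine ⟨hU'.sm, ?_⟩
  rw [hU'.ge]
  have hU0 : 0 ≤ D.U4 q := Finset.sum_nonneg fun a _ => pow_nonneg (div_nonneg (hv a) hLpos.le) _
  have hM1 : (1 : ℝ) ≤ (M : ℝ) ^ d := by
    have h1 : 1 ≤ M := Nat.one_le_iff_ne_zero.2 (NeZero.ne M)
    exact one_le_pow₀ (by exact_mod_cast h1)
  have hcard : (Fintype.card (Tor d M) : ℝ) ≤ ((M : ℝ) ^ d) ^ 2 := by
    rw [hcardeq]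
    nlinarith only [hM1]
  have hR : (Fintype.card (Tor d M) : ℝ) * (1 / 4) ^ D.j ≤ ((M : ℝ) ^ d) ^ 2 * (1 / 4) ^ D.j :=
    mul_le_mul_of_nonneg_right hcard (by positivity)
  have hw : 0 ≤ D.w := by
    have h1 := hA.hm.1
    have h2 := hA.hT
    change 0 ≤ D.η + (D.T - 0) * D.m.im
    have h3 : 0 ≤ (D.T - 0) * D.m.im :=
      mul_nonneg (by linarith only [h2.1]) (by linarith only [h1, hc₁])
    linarith only [h3, h2.2.1]
  have hch : 0 ≤ D.ch := by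
    change 0 ≤ D.L₀ * (D.N * D.w + D.π₀ + D.δ ^ 4)
    have h1 : 0 ≤ D.N * D.w := mul_nonneg (by linarith only [hN]) hw
    have h2 : 0 ≤ D.δ ^ 4 := by positivity
    exact mul_nonneg (by linarith only [hL₀]) (by linarith only [h1, h2, hπ])
  refine upc_num (j := D.j) (p := D.p) (h := D.h) (ch := D.ch) hδp he hL₀ hN hw hπ hch hC₀ hCL
    hκ0 hU0 (by positivity) ?_
  refine hl'.trans ?_
  have hfac : 0 ≤ 6 * (D.j : ℝ) ^ 2 * (2 * CL / κ) *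
      (1 / Real.sqrt D.L₀ + (C₀ * D.δ + (D.e₀ - 1))) := by
    have h1 : 0 ≤ 1 / Real.sqrt D.L₀ := by positivity
    have h2 : 0 ≤ 1 / Real.sqrt D.L₀ + (C₀ * D.δ + (D.e₀ - 1)) := by
      linarith only [h1, hε₃]
    have h3 : 0 ≤ 2 * CL / κ := by positivity
    positivity
  exact mul_le_mul_of_nonneg_left (add_le_add le_rfl hR) hfac

end Pool.Agent.LE.QZ.H1
end
end -- Pool.Agent.Helper1_LQZ.UPC

section -- Pool.Agent.Helper44_LQZ.UPB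

/-!
# Squad LQZ, row UPB: the part of `Ξ` (adapted from Helper87_LQX/UPB.lean)
-/

set_option autoImplicit false

open MeasureTheory ProbabilityTheory Function Filter

open scoped ENNReal BigOperators Topology NNReal ComplexOrder Matrix

noncomputable section

namespace Pool.Agent.LE.QZ.H44

open Pool.Agent.Anderson hiding box mem_box card_box
open Pool.Agent.Loc Pool.Agent.Mob Pool.Agent.Helper54.Bal
  Pool.Agent.Helper96.EXP Pool.Agent.BED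
open Pool.Agent.LE.MN Pool.Agent.LE.CL Pool.Agent.LE.IR Pool.Agent.LE.QD Pool.Agent.LE.QF

variable {d M : ℕ} [NeZero M]

namespace UPB

theorem cardT : (Fintype.card (Tor d M) : ℝ) = (M : ℝ) ^ d := by
  have h : Fintype.card (Tor d M) = M ^ d := by
    simp [Tor, ZMod.card]
  rw [h]
  push_cast
  rfl

theorem n2_smul {X : Type} [Fintype X] (A : Matrix X X ℂ) (t : ℝ) (u : X → ℂ) :
    n2 (((t : ℂ) • A) *ᵥ u) = t ^ 2 * n2 (A *ᵥ u) := by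
  unfold n2
  rw [Finset.mul_sum]
  refine Finset.sum_congr rfl fun x _ => ?_
  rw [Matrix.smul_mulVec, Pi.smul_apply, norm_smul, mul_pow, Complex.norm_real, Real.norm_eq_abs,
    sq_abs]

theorem n2_nonneg {X : Type} [Fintype X] (u : X → ℂ) : 0 ≤ n2 u :=
  Finset.sum_nonneg fun _ _ => sq_nonneg _

/-- the rate -/
theorem rate (D : Dat d M) {c₁ C₁ c₀ κ K : ℝ} (hA : Adm D c₁ C₁ c₀) (hc₀ : c₀ ≤ 1 / 2)
    (h1 : D.η ≤ κ) (h2 : κ ≤ D.w) (hK : 0 ≤ K) :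
    4 * D.j * (4 * (K * (D.δ / κ)) + 8 * (K * (D.N + D.δ ^ 2 / κ))) / (99 / 100) +
      8 * D.j ^ 2 * (16 * (K * (D.N + D.δ ^ 2 / κ))) / (99 / 100) ^ 2 ≤
      200 * K * D.aN / κ := by
  have hη : 0 < D.η := hA.hT.2.1
  have hκ0 : 0 < κ := hη.trans_le h1
  obtain ⟨hj2, -, hL, hN, hπ⟩ := hA.hj
  obtain ⟨hδ0, hδc⟩ := hA.hδ
  have hw : 0 < D.w := hκ0.trans_le h2
  have he : 0 < D.e₀ - 1 := by linarith only [hA.he.1, hA.he.2.1]
  have hch : 0 ≤ D.ch := by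
    unfold Dat.ch
    positivity
  have hj1 : (1 : ℝ) ≤ D.j := by
    have : (2 : ℝ) ≤ D.j := by exact_mod_cast hj2
    linarith only [hc₀, hδ0, hδc, this]
  have hjj : (D.j : ℝ) ≤ (D.j : ℝ) ^ 2 := by nlinarith only [hj1]
  -- the quantities
  obtain ⟨x, hx⟩ : ∃ x, x = D.δ / κ := ⟨_, rfl⟩
  obtain ⟨y, hy⟩ : ∃ y, y = D.N + D.δ ^ 2 / κ := ⟨_, rfl⟩
  have hx0 : 0 ≤ x := by rw [hx]; positivity
  have hy0 : 0 ≤ y := by rw [hy]; positivity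
  have hyκ : y ≤ (D.N * D.w + D.δ) / κ := by
    have e3 : y = (D.N * κ + D.δ ^ 2) / κ := by
      rw [hy]
      field_simp
    rw [e3]
    have e4 : D.δ ^ 2 ≤ D.δ := by nlinarith only [hc₀, hδ0, hδc]
    have e5 : D.N * κ ≤ D.N * D.w := mul_le_mul_of_nonneg_left h2 (by linarith only [hc₀, hN, hδ0, hδc])
    gcongr
  rw [← hx, ← hy]
  have e1 : 4 * (D.j : ℝ) * (4 * (K * x) + 8 * (K * y)) / (99 / 100) +
      8 * (D.j : ℝ) ^ 2 * (16 * (K * y)) / (99 / 100) ^ 2 ≤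
      K * (17 * (D.j * x) + 164 * ((D.j : ℝ) ^ 2 * y)) := by
    have e2 : (0 : ℝ) ≤ K * (D.j * x) := by positivity
    have e3 : (0 : ℝ) ≤ K * ((D.j : ℝ) ^ 2 * y) := by positivity
    have e4 : K * (D.j * y) ≤ K * ((D.j : ℝ) ^ 2 * y) :=
      mul_le_mul_of_nonneg_left (mul_le_mul_of_nonneg_right hjj hy0) hK
    have e5 : 4 * (D.j : ℝ) * (4 * (K * x) + 8 * (K * y)) / (99 / 100) +
        8 * (D.j : ℝ) ^ 2 * (16 * (K * y)) / (99 / 100) ^ 2 =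
        1600 / 99 * (K * (D.j * x)) + 3200 / 99 * (K * (D.j * y)) +
          1280000 / 9801 * (K * ((D.j : ℝ) ^ 2 * y)) := by ring
    rw [e5]
    linarith only [e2, e3, e4]
  refine e1.trans ?_
  have e6 : D.j * D.δ + D.j ^ 2 * (D.N * D.w + D.δ) ≤ D.aN := by
    unfold Dat.aN
    have hh1 : (1 : ℝ) ≤ D.h := by
      unfold Dat.h
      have : (0 : ℝ) ≤ D.k := Nat.cast_nonneg _
      linarith only
    have hh2 : (1 : ℝ) ≤ D.h ^ 2 := one_le_pow₀ hh1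
    have hh0 : (0 : ℝ) ≤ D.h := by linarith only [hc₀, hδ0, hδc, hh1]
    have a1 : (D.j : ℝ) * D.δ ≤ D.j * (D.h ^ 2 * (D.δ + Real.sqrt D.ch / D.δ)) := by
      apply mul_le_mul_of_nonneg_left _ (by linarith only [hc₀, hδ0, hδc, hj1])
      have a2 : D.δ ≤ D.δ + Real.sqrt D.ch / D.δ := by
        have : 0 ≤ Real.sqrt D.ch / D.δ := by positivity
        linarith only [this]
      exact a2.trans (le_mul_of_one_le_left (hδ0.le.trans a2) hh2)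
    have a3 : (D.j : ℝ) ^ 2 * (D.N * D.w + D.δ) ≤ D.j ^ 2 * (D.h ^ 4 * (D.ch / D.δ ^ 2) +
        D.N * D.w + D.δ + 1 / Real.sqrt D.L₀ + (D.e₀ - 1)) := by
      apply mul_le_mul_of_nonneg_left _ (by positivity)
      have a4 : 0 ≤ D.h ^ 4 * (D.ch / D.δ ^ 2) := by positivity
      have a5 : 0 ≤ 1 / Real.sqrt D.L₀ := by positivity
      linarith only [he, a4, a5]
    have a6 : 0 ≤ D.p * D.δ + D.p ^ 2 * (D.N * D.w + D.δ ^ 2 + D.π₀) := by positivity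
    linarith only [a1, a3, a6]
  have e7 : 17 * (D.j * x) + 164 * ((D.j : ℝ) ^ 2 * y) ≤ 200 * D.aN / κ := by
    have b1 : (D.j : ℝ) ^ 2 * y ≤ (D.j : ℝ) ^ 2 * ((D.N * D.w + D.δ) / κ) :=
      mul_le_mul_of_nonneg_left hyκ (by positivity)
    have b2 : (D.j * x) + ((D.j : ℝ) ^ 2 * y) ≤ D.aN / κ := by
      calc (D.j * x) + ((D.j : ℝ) ^ 2 * y) ≤
            D.j * (D.δ / κ) + (D.j : ℝ) ^ 2 * ((D.N * D.w + D.δ) / κ) := by
            rw [hx]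
            linarith only [b1]
        _ = (D.j * D.δ + D.j ^ 2 * (D.N * D.w + D.δ)) / κ := by ring
        _ ≤ D.aN / κ := by gcongr
    have b3 : (0 : ℝ) ≤ D.j * x := by positivity
    have b4 : (0 : ℝ) ≤ (D.j : ℝ) ^ 2 * y := by positivity
    have b5 : 200 * D.aN / κ = 200 * (D.aN / κ) := by ring
    rw [b5]
    linarith only [b2, b3, b4]
  calc K * (17 * (D.j * x) + 164 * ((D.j : ℝ) ^ 2 * y)) ≤ K * (200 * D.aN / κ) :=
        mul_le_mul_of_nonneg_left e7 hK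
    _ = 200 * K * D.aN / κ := by ring

end UPB

open UPB in
/-- UPB -/
theorem upb (xjt : XjtStmt) (nrb : NrbStmt) (xnb : XnbStmt) (xtu : XtuStmt) (rsj : RsjStmt) :
    UpbStmt := by
  intro c₁ C₁ C₀ hc₁ hC₁ hC₀
  obtain ⟨P, hP, nrb⟩ := nrb C₀ hC₀
  have hC2 : (1 : ℝ) ≤ C₀ ^ 2 := one_le_pow₀ hC₀
  have hK1 : (1 : ℝ) ≤ C₀ ^ 2 * P := one_le_mul_of_one_le_of_one_le hC2 hP
  refine ⟨200 * (C₀ ^ 2 * P), by linarith only [hK1], ?_⟩
  intro d M _ D c₀ κ τ q hc₀ hA hq0 hqT hg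
  obtain ⟨hκe, hτe, h1, h2, hτ0, hτ1, hτ2⟩ := hg.hκ
  have hη : 0 < D.η := hA.hT.2.1
  have hκ0 : 0 < κ := hη.trans_le h1
  obtain ⟨hδ0, hδc⟩ := hA.hδ
  have hN : 0 ≤ D.N := by linarith only [hA.hj.2.2.2.1, hc₀, hδ0, hδc]
  have hr := rsj d M D c₁ C₁ c₀ q hc₁ hA (hκe ▸ hκ0)
  have hJ := hr.1
  rw [← hτe] at hJ
  obtain ⟨-, -, -, n4, n5, n6⟩ := nrb (Tor d M) (D.G q) (D.mu q) D.nr κ τ D.δ D.N hg.hG
  have hYq : (τ : ℂ) • BB (D.G q) = D.Y q := by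
    rw [hτe]
    rfl
  have hΘe : D.Th q = (1 - (τ : ℂ) • BB (D.G q))⁻¹ := by
    rw [hYq]
    rfl
  have j4 := xjt (Tor d M) q D.G D.ta (D.G q) (D.Th q) D.m τ (D.mu q) hτ0 hJ rfl
    (by rw [hYq]; exact hg.hu) hΘe
  have hYe : (fun r => (1 - (D.ta r.1 : ℂ) • BB (D.G r))⁻¹ - 1) = D.Xi := rfl
  rw [hYe] at j4
  have hτκ2 : τ ^ 2 ≤ C₀ ^ 2 * κ ^ 2 := by
    rw [← mul_pow]
    exact pow_le_pow_left₀ hτ0.le hτ1 2
  obtain ⟨-, x2, x3, x4⟩ := xnb (Tor d M) (Tor d M) (D.Th q) ((τ : ℂ) • EB (D.G q) (D.mu q))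
    (fun c => (τ : ℂ) • dB (D.G q) c) (C₀ ^ 2 * P * (D.δ / κ)) (C₀ ^ 2 * P * (D.N + D.δ ^ 2 / κ))
    (by positivity) (by positivity) hg.hX
    (fun u => by
      rw [n2_smul]
      have h6 : τ ^ 2 * n2 (EB (D.G q) (D.mu q) *ᵥ u) ≤
          C₀ ^ 2 * κ ^ 2 * ((P * D.δ / κ ^ 2) ^ 2 * n2 u) :=
        mul_le_mul hτκ2 (n4 u) (n2_nonneg _) (by positivity)
      have h7 : C₀ ^ 2 * κ ^ 2 * ((P * D.δ / κ ^ 2) ^ 2 * n2 u) =
          C₀ ^ 2 * ((P * (D.δ / κ)) ^ 2 * n2 u) := by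
        field_simp
      have h8 : (C₀ ^ 2 * P * (D.δ / κ)) ^ 2 * n2 u =
          C₀ ^ 2 * (C₀ ^ 2 * ((P * (D.δ / κ)) ^ 2 * n2 u)) := by ring
      rw [h8]
      rw [h7] at h6
      refine h6.trans (le_mul_of_one_le_left ?_ hC2)
      have := n2_nonneg u
      positivity)
    (fun u => by
      simp only [n2_smul]
      rw [← Finset.mul_sum]
      have h6 : τ ^ 2 * ∑ c, n2 (dB (D.G q) c *ᵥ u) ≤
          C₀ ^ 2 * κ ^ 2 * (P * (D.N / κ ^ 2 + D.δ ^ 2 / κ ^ 3) * n2 u) :=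
        mul_le_mul hτκ2 (n5 u) (Finset.sum_nonneg fun _ _ => n2_nonneg _) (by positivity)
      refine h6.trans (le_of_eq ?_)
      field_simp)
    (fun u => by
      have h5 : ∀ c, ((τ : ℂ) • dB (D.G q) c)ᴴ = (τ : ℂ) • (dB (D.G q) c)ᴴ := by
        intro c
        rw [Matrix.conjTranspose_smul]
        congr 1
        exact Complex.conj_ofReal τ
      simp only [h5, n2_smul]
      rw [← Finset.mul_sum]
      have h6 : τ ^ 2 * ∑ c, n2 ((dB (D.G q) c)ᴴ *ᵥ u) ≤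
          C₀ ^ 2 * κ ^ 2 * (P * (D.N / κ ^ 2 + D.δ ^ 2 / κ ^ 3) * n2 u) :=
        mul_le_mul hτκ2 (n6 u) (Finset.sum_nonneg fun _ _ => n2_nonneg _) (by positivity)
      refine h6.trans (le_of_eq ?_)
      field_simp)
  obtain ⟨g', l', J, hl'⟩ := xtu (Tor d M) q (Tor d M) D.Xi (D.Th q - 1) _
    (fun c => D.Th q * ((τ : ℂ) • dB (D.G q) c) * D.Th q) τ
    (4 * (C₀ ^ 2 * P * (D.δ / κ)) + 8 * (C₀ ^ 2 * P * (D.N + D.δ ^ 2 / κ))) (99 / 100)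
    (16 * (C₀ ^ 2 * P * (D.N + D.δ ^ 2 / κ))) D.j hτ0 (by positivity) (by norm_num)
    (by positivity) (by linarith only [hA.hj.1]) j4 x2 x3 x4
  have J' : HJ D.U3 q (D.U3 q) g' l' := J
  refine ⟨J'.sm, ?_⟩
  rw [J'.ge]
  have e1 : (Matrix.trace (((D.Th q - 1) * (D.Th q - 1)ᴴ) ^ D.j)).re / (99 / 100) ^ (2 * D.j) =
    D.U3 q := rfl
  rw [e1, cardT] at hl'
  have hU : 0 ≤ D.U3 q := by
    have hps : ((D.Xi q * (D.Xi q)ᴴ) ^ D.j).PosSemidef :=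
      (Matrix.posSemidef_self_mul_conjTranspose (D.Xi q)).pow D.j
    have h5 := (Complex.le_def.1 hps.trace_nonneg).1
    unfold Dat.U3
    exact div_nonneg h5 (by positivity)
  have hM : (1 : ℝ) ≤ (M : ℝ) ^ d :=
    one_le_pow₀ (by exact_mod_cast Nat.one_le_iff_ne_zero.2 (NeZero.ne M))
  have e3 : (M : ℝ) ^ d ≤ ((M : ℝ) ^ d) ^ 2 := by nlinarith only [hM]
  have e4 : (M : ℝ) ^ d * (1 / 4) ^ D.j ≤ ((M : ℝ) ^ d) ^ 2 * (1 / 4) ^ D.j :=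
    mul_le_mul_of_nonneg_right e3 (by positivity)
  have e5 : 0 ≤ (M : ℝ) ^ d * (1 / 4) ^ D.j := by positivity
  have r := rate D (K := C₀ ^ 2 * P) hA hc₀ h1 h2 (by linarith only [hK1, hc₀, hδ0, hδc])
  have r0 : 0 ≤ 4 * D.j * (4 * (C₀ ^ 2 * P * (D.δ / κ)) +
      8 * (C₀ ^ 2 * P * (D.N + D.δ ^ 2 / κ))) / (99 / 100) +
      8 * D.j ^ 2 * (16 * (C₀ ^ 2 * P * (D.N + D.δ ^ 2 / κ))) / (99 / 100) ^ 2 := by positivity
  refine hl'.trans ?_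
  refine (mul_le_mul_of_nonneg_right r (by linarith)).trans ?_
  exact mul_le_mul_of_nonneg_left (by linarith) (r0.trans r)

end Pool.Agent.LE.QZ.H44
end
end -- Pool.Agent.Helper44_LQZ.UPB

section -- Pool.Agent.Helper77_LQZ.LMB

/-!
# LMB (helper77): drift and gradient of `Λ(a)`, without a bound for `B`

Copy of `Helper22_LQX/LMB.lean` (helper22) with a different third term.
-/

set_option autoImplicit false

open MeasureTheory ProbabilityTheory Function Filter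

open scoped ENNReal BigOperators Topology NNReal ComplexOrder Matrix

noncomputable section

namespace Pool.Agent.LE.QZ.H77L

open Pool.Agent.Anderson hiding box mem_box card_box
open Pool.Agent.Loc Pool.Agent.Mob Pool.Agent.Helper54.Bal
  Pool.Agent.Helper96.EXP Pool.Agent.BED
open Pool.Agent.LE.MN Pool.Agent.LE.CL Pool.Agent.LE.IR Pool.Agent.LE.QD Pool.Agent.LE.QF

variable {X : Type} [Fintype X] [DecidableEq X]

/-- the entries of a form which is not negative -/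
theorem abs_ent_le {S : Matrix X X ℝ} {p : ℝ} (hS : ∀ a b, S a b = S b a)
    (hS0 : ∀ f, 0 ≤ qf S f) (hp : ∀ a, S a a ≤ p) (b c : X) : |S b c| ≤ p := by
  have key : ∀ t : ℝ, qf S (Pi.single b 1 + t • Pi.single c 1) =
      S b b + 2 * t * S b c + t ^ 2 * S c c := by
    intro t
    have e0 : ∀ f : X → ℝ, qf S f = f ⬝ᵥ (S *ᵥ f) := fun f => rfl
    rw [e0, Matrix.mulVec_add, Matrix.mulVec_smul, Matrix.mulVec_single_one,
      Matrix.mulVec_single_one, add_dotProduct, smul_dotProduct, single_one_dotProduct,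
      single_one_dotProduct]
    simp only [Pi.add_apply, Pi.smul_apply, Matrix.col_apply, smul_eq_mul]
    rw [hS c b]
    ring
  have h1 := hS0 (Pi.single b 1 + (1 : ℝ) • Pi.single c 1)
  have h2 := hS0 (Pi.single b 1 + (-1 : ℝ) • Pi.single c 1)
  rw [key] at h1 h2
  have hb := hp b
  have hc := hp c
  rw [abs_le]
  constructor <;> nlinarith

omit [DecidableEq X] in
/-- the form of a matrix with bounded entries -/
theorem qf_le_of_abs {S : Matrix X X ℝ} {p s : ℝ} (hp0 : 0 ≤ p) (hS : ∀ b c, |S b c| ≤ p)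
    {x : X → ℝ} (hx0 : ∀ b, 0 ≤ x b) (hx : ∑ b, x b ≤ s) : qf S x ≤ s ^ 2 * p := by
  have e1 : qf S x = ∑ b, ∑ c, x b * (S b c * x c) := by
    unfold QF.qf
    apply Finset.sum_congr rfl
    intro b _
    rw [Matrix.mulVec, dotProduct, Finset.mul_sum]
  have e2 : (∑ b, x b) ^ 2 * p = ∑ b, ∑ c, x b * (p * x c) := by
    rw [sq, Finset.sum_mul_sum, Finset.sum_mul]
    apply Finset.sum_congr rfl
    intro b _
    rw [Finset.sum_mul]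
    exact Finset.sum_congr rfl fun c _ => by ring
  rw [e1]
  have h1 : ∑ b, ∑ c, x b * (S b c * x c) ≤ ∑ b, ∑ c, x b * (p * x c) := by
    apply Finset.sum_le_sum
    intro b _
    apply Finset.sum_le_sum
    intro c _
    refine mul_le_mul_of_nonneg_left ?_ (hx0 b)
    exact mul_le_mul_of_nonneg_right ((le_abs_self _).trans (hS b c)) (hx0 c)
  rw [← e2] at h1
  refine h1.trans ?_
  have h2 : 0 ≤ ∑ b, x b := Finset.sum_nonneg fun b _ => hx0 b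
  exact mul_le_mul_of_nonneg_right (pow_le_pow_left₀ h2 hx 2) hp0

theorem lmb (nrb : NrbStmt) : LmbStmt := by
  intro C₀ hC₀
  obtain ⟨C₁, hC₁, hN⟩ := nrb C₀ hC₀
  have hC3 : 1 ≤ C₀ ^ 3 := one_le_pow₀ hC₀
  have hCC : 1 ≤ C₀ ^ 3 * C₁ := one_le_mul_of_one_le_of_one_le hC3 hC₁
  refine ⟨128 * (C₀ ^ 3 * C₁), by linarith, ?_⟩
  intro X _ _ G μ 𝒩 S κ τ δ N π₀ ε₃ a hG hε₃ hSs hS0 hSd hf
  obtain ⟨-, m2, m3, -, -, -⟩ := hN X G μ 𝒩 κ τ δ N hG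
  obtain ⟨hκ, hκ1, hτ, hκτ, hτκ⟩ := hG.hκ
  obtain ⟨hδ, hδ2, hN1⟩ := hG.hδ
  have hC₀0 : 0 < C₀ := by linarith only [hC₀]
  have hC₁0 : 0 < C₁ := by linarith
  have hτi : 1 / τ ≤ C₀ / κ := by
    rw [div_le_div_iff₀ hτ hκ]
    linarith only [hκτ]
  set K : Matrix X X ℝ := KK G with hKdef
  have hKab : ∀ a b, K a b = ‖G a b‖ ^ 2 := fun a b => rfl
  have hK0 : ∀ a b, 0 ≤ K a b := fun a b => sq_nonneg _
  have hKs : ∀ a b, K a b = K b a := fun a b => by rw [hKab, hKab, hG.hs]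
  have hKr : ∀ a, ∑ b, K a b ≤ 2 / τ := by
    intro a
    have h := (abs_le.mp (hG.hk a)).2
    rw [le_div_iff₀ hτ]
    have e : (∑ b, K a b) * τ = τ * ∑ b, ‖G a b‖ ^ 2 := mul_comm _ _
    rw [e]
    linarith only [hδ2, h]
  set Λ : ℝ := ∑ b, K a b ^ 2 with hΛ
  have hΛ0 : 0 ≤ Λ := by
    rw [hΛ]
    positivity
  -- the cube
  have hcube : (K * K * K) a a = qf K (fun b => K a b) := by
    rw [Matrix.mul_assoc, Matrix.mul_apply]
    unfold QF.qf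
    apply Finset.sum_congr rfl
    intro b _
    rw [Matrix.mul_apply, Matrix.mulVec, dotProduct]
    congr 1
    exact Finset.sum_congr rfl fun c _ => by rw [hKs c a]
  set M3 : ℝ := (K * K * K) a a with hM3
  set x : X → ℝ := fun b => K a b with hxdef
  have hx0 : ∀ b, 0 ≤ x b := fun b => hK0 a b
  have hx2 : ∑ b, x b ^ 2 = Λ := rfl
  have hX : 0 < (Fintype.card X : ℝ) := by
    have : 0 < Fintype.card X := Fintype.card_pos_iff.mpr ⟨a⟩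
    exact_mod_cast this
  -- the form
  set c : ℝ := 1 / (κ * (Fintype.card X : ℝ)) with hc
  have hc0 : 0 < c := by
    rw [hc]
    positivity
  have hSaa : 0 ≤ S a a := by
    have h := hS0 (Pi.single a 1)
    have e : qf S (Pi.single a 1) = S a a := by
      have e0 : qf S (Pi.single a 1) = (Pi.single a 1 : X → ℝ) ⬝ᵥ (S *ᵥ Pi.single a 1) := rfl
      rw [e0, Matrix.mulVec_single_one, single_one_dotProduct]
      rfl
    rwa [e] at h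
  have hp0 : 0 ≤ π₀ - c := by
    have := hSd a
    linarith only [hSaa, this]
  have hπ : 0 ≤ π₀ := by linarith only [hc0, hp0]
  have hSx : qf S x ≤ (2 / τ) ^ 2 * (π₀ - c) :=
    qf_le_of_abs hp0 (abs_ent_le hSs hS0 fun b => by
      have := hSd b
      linarith only [this]) hx0 (hKr a)
  have hPx : qf (P0 X) x ≤ (2 / τ) ^ 2 * (Fintype.card X : ℝ)⁻¹ :=
    qf_le_of_abs (inv_nonneg.mpr hX.le) (fun b c => by
      unfold P0
      rw [abs_of_nonneg (inv_nonneg.mpr hX.le)]) hx0 (hKr a)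
  have hM2 : M3 ≤ 8 * C₀ ^ 3 / κ * (π₀ / κ + ε₃ * Λ) := by
    have h1 : τ * M3 ≤ ε₃ * Λ + τ * qf S x + qf (P0 X) x := by
      rw [hcube]
      exact hf x
    have h2 : M3 ≤ 1 / τ * (ε₃ * Λ) + qf S x + 1 / τ * qf (P0 X) x := by
      have h3 : M3 = 1 / τ * (τ * M3) := by
        field_simp
      rw [h3]
      refine (mul_le_mul_of_nonneg_left h1 (by positivity)).trans (le_of_eq ?_)
      field_simp
    have s1 : 2 / τ ≤ 2 * C₀ / κ := by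
      have := mul_le_mul_of_nonneg_left hτi (show (0:ℝ) ≤ 2 by norm_num)
      calc 2 / τ = 2 * (1 / τ) := by ring
        _ ≤ 2 * (C₀ / κ) := this
        _ = _ := by ring
    have s0 : 0 ≤ 2 / τ := by positivity
    have s2 : (2 / τ) ^ 2 ≤ (2 * C₀ / κ) ^ 2 := pow_le_pow_left₀ s0 s1 2
    have a1 : qf S x ≤ (2 * C₀ / κ) ^ 2 * (π₀ - c) :=
      hSx.trans (mul_le_mul_of_nonneg_right s2 hp0)
    have a2 : 1 / τ * qf (P0 X) x ≤ C₀ / κ * ((2 * C₀ / κ) ^ 2 * (Fintype.card X : ℝ)⁻¹) := by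
      have h4 : qf (P0 X) x ≤ (2 * C₀ / κ) ^ 2 * (Fintype.card X : ℝ)⁻¹ :=
        hPx.trans (mul_le_mul_of_nonneg_right s2 (inv_nonneg.mpr hX.le))
      calc 1 / τ * qf (P0 X) x ≤ 1 / τ * ((2 * C₀ / κ) ^ 2 * (Fintype.card X : ℝ)⁻¹) :=
            mul_le_mul_of_nonneg_left h4 (by positivity)
        _ ≤ _ := mul_le_mul_of_nonneg_right hτi (by positivity)
    have a3 : 1 / τ * (ε₃ * Λ) ≤ C₀ / κ * (ε₃ * Λ) :=
      mul_le_mul_of_nonneg_right hτi (by positivity)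
    have b2 : C₀ / κ * ((2 * C₀ / κ) ^ 2 * (Fintype.card X : ℝ)⁻¹) = 4 * C₀ ^ 3 / κ ^ 2 * c := by
      rw [hc]
      field_simp
      ring
    have b1 : (2 * C₀ / κ) ^ 2 * (π₀ - c) ≤ 4 * C₀ ^ 3 / κ ^ 2 * (π₀ - c) := by
      refine mul_le_mul_of_nonneg_right ?_ hp0
      have : C₀ ^ 2 ≤ C₀ ^ 3 := pow_le_pow_right₀ hC₀ (by norm_num)
      rw [div_pow, mul_pow]
      have h5 : (2:ℝ) ^ 2 * C₀ ^ 2 ≤ 4 * C₀ ^ 3 := by linarith only [this]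
      gcongr
    have c3 : C₀ / κ * (ε₃ * Λ) ≤ 8 * C₀ ^ 3 / κ * (ε₃ * Λ) := by
      have h6 : C₀ ≤ C₀ ^ 3 := le_self_pow₀ hC₀ (by norm_num)
      have : C₀ ≤ 8 * C₀ ^ 3 := by linarith only [hC3, h6]
      gcongr
    have e : 8 * C₀ ^ 3 / κ * (π₀ / κ + ε₃ * Λ) = 4 * C₀ ^ 3 / κ ^ 2 * (π₀ - c) +
        4 * C₀ ^ 3 / κ ^ 2 * c + 4 * C₀ ^ 3 / κ ^ 2 * π₀ + 8 * C₀ ^ 3 / κ * (ε₃ * Λ) := by
      field_simp
      ring
    have e2 : 0 ≤ 4 * C₀ ^ 3 / κ ^ 2 * π₀ := by positivity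
    rw [e]
    linarith only [h2, a1, a2, a3, b2, b1, c3, e2]
  -- the product with `E_K`
  have hns : Real.sqrt (Λ * (δ ^ 2 * (N + δ ^ 2 / κ))) =
      Real.sqrt Λ * Real.sqrt (δ ^ 2 * (N + δ ^ 2 / κ)) := Real.sqrt_mul hΛ0 _
  have hGDs : ∀ b, GD G μ b a = GD G μ a b := by
    intro b
    unfold GD
    rw [Matrix.mul_assoc, Matrix.mul_apply, Matrix.mul_apply]
    apply Finset.sum_congr rfl
    intro c _
    rw [Matrix.diagonal_mul, Matrix.diagonal_mul, hG.hs b c, hG.hs c a]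
    ring
  have hEK : ∑ b, EK G μ b a ^ 2 ≤ (2 * C₀ ^ 2 * C₁ / κ) ^ 2 * (δ ^ 2 * (N + δ ^ 2 / κ)) := by
    have g1 : ∀ b, EK G μ b a ^ 2 ≤ 4 * (K a b * ‖GD G μ a b‖ ^ 2) := by
      intro b
      have h := Complex.abs_re_le_norm ((starRingEnd ℂ) (G b a) * GD G μ b a)
      rw [norm_mul, RCLike.norm_conj, hG.hs b a, hGDs] at h
      have h2 : ((starRingEnd ℂ) (G a b) * GD G μ a b).re ^ 2 ≤
          (‖G a b‖ * ‖GD G μ a b‖) ^ 2 := by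
        rw [← sq_abs]
        exact pow_le_pow_left₀ (abs_nonneg _) h 2
      have e : EK G μ b a = 2 * ((starRingEnd ℂ) (G a b) * GD G μ a b).re := by
        unfold EK
        rw [hG.hs b a, hGDs]
      rw [e, hKab, mul_pow]
      calc (2:ℝ) ^ 2 * ((starRingEnd ℂ) (G a b) * GD G μ a b).re ^ 2
          ≤ (2:ℝ) ^ 2 * (‖G a b‖ * ‖GD G μ a b‖) ^ 2 := by gcongr
        _ = _ := by ring
    have hsδ : 0 ≤ C₀ * δ := by positivity
    have g2 := m2 μ (C₀ * δ) hsδ hG.hμ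
    have g3 := m3 μ (C₀ * δ) hsδ hG.hμ a
    have g4 : ∀ b, K a b * ‖GD G μ a b‖ ^ 2 ≤
        (if b ∈ 𝒩 a then C₀ ^ 2 * (C₁ * (C₀ * δ) / κ) ^ 2 else 0) +
          (C₀ * δ) ^ 2 * ‖GD G μ a b‖ ^ 2 := by
      intro b
      rw [hKab]
      split_ifs with hb
      · have h1 : ‖G a b‖ ^ 2 ≤ C₀ ^ 2 := pow_le_pow_left₀ (norm_nonneg _) (hG.hG a b) 2
        have h2 : ‖GD G μ a b‖ ^ 2 ≤ (C₁ * (C₀ * δ) / κ) ^ 2 :=
          pow_le_pow_left₀ (norm_nonneg _) (g2 a b) 2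
        have h3 : ‖G a b‖ ^ 2 * ‖GD G μ a b‖ ^ 2 ≤ C₀ ^ 2 * (C₁ * (C₀ * δ) / κ) ^ 2 :=
          mul_le_mul h1 h2 (by positivity) (by positivity)
        have h4 : 0 ≤ (C₀ * δ) ^ 2 * ‖GD G μ a b‖ ^ 2 := by positivity
        linarith only [h3, h4]
      · have h1 : ‖G a b‖ ^ 2 ≤ (C₀ * δ) ^ 2 :=
          pow_le_pow_left₀ (norm_nonneg _) ((hG.hn a b).2 hb) 2
        rw [zero_add]
        exact mul_le_mul_of_nonneg_right h1 (by positivity)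
    have g5 : ∑ b, K a b * ‖GD G μ a b‖ ^ 2 ≤
        N * (C₀ ^ 2 * (C₁ * (C₀ * δ) / κ) ^ 2) +
          (C₀ * δ) ^ 2 * (C₁ * (C₀ * δ) ^ 2 / κ ^ 3) := by
      refine (Finset.sum_le_sum fun b _ => g4 b).trans ?_
      rw [Finset.sum_add_distrib, ← Finset.mul_sum, ← Finset.sum_filter, Finset.sum_const,
        nsmul_eq_mul]
      have h5 : ((Finset.univ.filter fun b => b ∈ 𝒩 a).card : ℝ) ≤ N := by
        rw [Finset.filter_univ_mem]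
        exact hG.hN a
      gcongr
    calc ∑ b, EK G μ b a ^ 2 ≤ ∑ b, 4 * (K a b * ‖GD G μ a b‖ ^ 2) :=
          Finset.sum_le_sum fun b _ => g1 b
      _ = 4 * ∑ b, K a b * ‖GD G μ a b‖ ^ 2 := by rw [Finset.mul_sum]
      _ ≤ 4 * (N * (C₀ ^ 2 * (C₁ * (C₀ * δ) / κ) ^ 2) +
          (C₀ * δ) ^ 2 * (C₁ * (C₀ * δ) ^ 2 / κ ^ 3)) := by gcongr
      _ = 4 * C₀ ^ 4 * C₁ ^ 2 / κ ^ 2 * δ ^ 2 * N + 4 * C₀ ^ 4 * δ ^ 4 / κ ^ 3 * C₁ := by
          field_simp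
      _ ≤ 4 * C₀ ^ 4 * C₁ ^ 2 / κ ^ 2 * δ ^ 2 * N + 4 * C₀ ^ 4 * δ ^ 4 / κ ^ 3 * C₁ ^ 2 := by
          have : C₁ ≤ C₁ ^ 2 := le_self_pow₀ hC₁ (by norm_num)
          gcongr
      _ = _ := by
          field_simp
          ring
  have hKE : (K * EK G μ) a a ≤
      2 * C₀ ^ 2 * C₁ / κ * Real.sqrt (Λ * (δ ^ 2 * (N + δ ^ 2 / κ))) := by
    rw [Matrix.mul_apply, hns]
    refine (Real.sum_mul_le_sqrt_mul_sqrt Finset.univ (fun b => K a b)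
      (fun b => EK G μ b a)).trans ?_
    have h1 := Real.sqrt_le_sqrt hEK
    rw [Real.sqrt_mul (by positivity), Real.sqrt_sq (by positivity)] at h1
    calc Real.sqrt (∑ b, K a b ^ 2) * Real.sqrt (∑ b, EK G μ b a ^ 2)
        ≤ Real.sqrt Λ * (2 * C₀ ^ 2 * C₁ / κ * Real.sqrt (δ ^ 2 * (N + δ ^ 2 / κ))) :=
          mul_le_mul_of_nonneg_left h1 (Real.sqrt_nonneg _)
      _ = _ := by ring
  -- the third term
  have hBB : (∑ b, ∑ c, (starRingEnd ℂ) (BB G a b) * BB G a c * BB G c b).re ≤ M3 := by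
    have e1 : M3 = ∑ b, ∑ c, K a b * K a c * K c b := by
      rw [hcube]
      unfold QF.qf
      apply Finset.sum_congr rfl
      intro b _
      rw [Matrix.mulVec, dotProduct, Finset.mul_sum]
      refine Finset.sum_congr rfl fun c _ => ?_
      rw [hKs b c]
      ring
    rw [e1, Complex.re_sum]
    refine Finset.sum_le_sum fun b _ => ?_
    rw [Complex.re_sum]
    refine Finset.sum_le_sum fun c _ => ?_
    refine (Complex.re_le_norm _).trans (le_of_eq ?_)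
    rw [norm_mul, norm_mul, RCLike.norm_conj]
    unfold QF.BB
    rw [norm_pow, norm_pow, norm_pow, hKab, hKab, hKab]
  -- comparison of the constants
  have q1 : 0 ≤ π₀ / κ + ε₃ * Λ := by positivity
  have k1 : 8 * C₀ ^ 3 / κ ≤ 8 * (C₀ ^ 3 * C₁) / κ := by
    have : C₀ ^ 3 ≤ C₀ ^ 3 * C₁ := le_mul_of_one_le_right (by positivity) hC₁
    gcongr
  have hM4 : M3 ≤ 8 * (C₀ ^ 3 * C₁) / κ * (π₀ / κ + ε₃ * Λ) :=
    hM2.trans (mul_le_mul_of_nonneg_right k1 q1)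
  constructor
  · have k2 : 2 * C₀ ^ 2 * C₁ / κ ≤ 2 * (C₀ ^ 3 * C₁) / κ := by
      have : C₀ ^ 2 * C₁ ≤ C₀ ^ 3 * C₁ :=
        mul_le_mul_of_nonneg_right (pow_le_pow_right₀ hC₀ (by norm_num)) hC₁0.le
      rw [mul_assoc]
      gcongr
    set D : ℝ := C₀ ^ 3 * C₁
    set R : ℝ := Real.sqrt (Λ * (δ ^ 2 * (N + δ ^ 2 / κ))) with hRdef
    have hR0 : 0 ≤ R := Real.sqrt_nonneg _
    have r1 : (K * EK G μ) a a ≤ 2 * D / κ * R :=
      hKE.trans (mul_le_mul_of_nonneg_right k2 hR0)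
    unfold lLa
    rw [← hKdef, ← hM3]
    have hD0 : 0 ≤ D / κ := by positivity
    have w1 : 0 ≤ D / κ * (π₀ / κ) := by positivity
    have w3 : 0 ≤ D / κ * (ε₃ * Λ) := by positivity
    have w5 : 0 ≤ D / κ * R := by positivity
    have f1 : 8 * D / κ * (π₀ / κ + ε₃ * Λ) = 8 * (D / κ * (π₀ / κ)) +
        8 * (D / κ * (ε₃ * Λ)) := by ring
    have f2 : 2 * D / κ * R = 2 * (D / κ * R) := by ring
    have f3 : 128 * D / κ * (π₀ / κ + ε₃ * Λ + R) =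
        128 * (D / κ * (π₀ / κ)) + 128 * (D / κ * (ε₃ * Λ)) + 128 * (D / κ * R) := by ring
    rw [f1] at hM4
    rw [f2] at r1
    rw [f3]
    linarith only [hBB, hM4, r1, w1, w3, w5]
  · -- the gradient
    have hgr : ∀ c, (2 * ∑ b, K a b * dK G c a b) ^ 2 ≤ 16 * Λ * (K a c * ∑ b, K c b * K b a) := by
      intro c
      have h1 : |∑ b, K a b * dK G c a b| ≤ 2 * ‖G a c‖ * ∑ b, K a b * (‖G a b‖ * ‖G c b‖) := by
        refine (Finset.abs_sum_le_sum_abs _ _).trans ?_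
        rw [Finset.mul_sum]
        apply Finset.sum_le_sum
        intro b _
        rw [abs_mul, abs_of_nonneg (hK0 a b)]
        have h2 : |dK G c a b| ≤ 2 * (‖G a b‖ * ‖G a c‖ * ‖G c b‖) := by
          unfold dK
          rw [abs_neg, abs_mul, abs_of_nonneg (show (0:ℝ) ≤ 2 by norm_num)]
          have := Complex.abs_re_le_norm ((starRingEnd ℂ) (G a b) * G a c * G c b)
          rw [norm_mul, norm_mul, RCLike.norm_conj] at this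
          linarith only [this]
        calc K a b * |dK G c a b| ≤ K a b * (2 * (‖G a b‖ * ‖G a c‖ * ‖G c b‖)) :=
              mul_le_mul_of_nonneg_left h2 (hK0 a b)
          _ = _ := by ring
      have h3 : (∑ b, K a b * (‖G a b‖ * ‖G c b‖)) ^ 2 ≤ Λ * ∑ b, K c b * K b a := by
        refine (Finset.sum_mul_sq_le_sq_mul_sq _ _ _).trans ?_
        refine mul_le_mul_of_nonneg_left (le_of_eq ?_) hΛ0
        apply Finset.sum_congr rfl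
        intro b _
        rw [mul_pow, ← hKab, ← hKab, hKs a b]
        ring
      have h4 : (∑ b, K a b * dK G c a b) ^ 2 ≤
          (2 * ‖G a c‖ * ∑ b, K a b * (‖G a b‖ * ‖G c b‖)) ^ 2 := by
        rw [← sq_abs]
        exact pow_le_pow_left₀ (abs_nonneg _) h1 2
      calc (2 * ∑ b, K a b * dK G c a b) ^ 2 = 4 * (∑ b, K a b * dK G c a b) ^ 2 := by ring
        _ ≤ 4 * (2 * ‖G a c‖ * ∑ b, K a b * (‖G a b‖ * ‖G c b‖)) ^ 2 := by linarith only [h4]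
        _ = 16 * ‖G a c‖ ^ 2 * (∑ b, K a b * (‖G a b‖ * ‖G c b‖)) ^ 2 := by ring
        _ ≤ 16 * ‖G a c‖ ^ 2 * (Λ * ∑ b, K c b * K b a) := by gcongr
        _ = _ := by rw [← hKab]; ring
    have hs3 : ∑ c, K a c * ∑ b, K c b * K b a = M3 := by
      rw [hM3, Matrix.mul_assoc, Matrix.mul_apply]
      exact Finset.sum_congr rfl fun c _ => by rw [Matrix.mul_apply]
    calc ∑ c, (2 * ∑ b, K a b * dK G c a b) ^ 2
        ≤ ∑ c, 16 * Λ * (K a c * ∑ b, K c b * K b a) := Finset.sum_le_sum fun c _ => hgr c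
      _ = 16 * Λ * M3 := by rw [← Finset.mul_sum, hs3]
      _ ≤ 16 * Λ * (8 * (C₀ ^ 3 * C₁) / κ * (π₀ / κ + ε₃ * Λ)) := by gcongr
      _ = _ := by ring

end Pool.Agent.LE.QZ.H77L
end
end -- Pool.Agent.Helper77_LQZ.LMB

section -- Pool.Agent.Helper69_LQY.LDS

/-!
# Row LDS of squad LQY: the local density of states at all energies and all scales
-/

set_option autoImplicit false

open MeasureTheory ProbabilityTheory Function Filter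

open scoped ENNReal BigOperators Topology NNReal ComplexOrder Matrix

noncomputable section

namespace Pool.Agent.LE.QY.H69

open Pool.Agent.Anderson hiding box mem_box card_box
open Pool.Agent.Loc Pool.Agent.Mob Pool.Agent.Helper54.Bal
  Pool.Agent.Helper96.EXP Pool.Agent.BED
open Pool.Agent.LE.MN Pool.Agent.LE.CL Pool.Agent.LE.IR Pool.Agent.LE.QD Pool.Agent.LE.QF

/-- translation invariance of the free resolvent -/
theorem free_shift {d : ℕ} {z : ℂ} (hz : z.im ≠ 0) (x : Site d) :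
    G (0 : Site d → ℝ) z (del x) x = G (0 : Site d → ℝ) z (del 0) 0 := by
  have h1 : shift (-x) (G (0 : Site d → ℝ) z (del 0)) = G (0 : Site d → ℝ) z (del x) := by
    apply G_unique hz
    intro y
    have h2 := G_eq (V := (0 : Site d → ℝ)) hz (del 0) (y + -x)
    have h3 : lap (shift (-x) (G (0 : Site d → ℝ) z (del 0))) y
        = lap (G (0 : Site d → ℝ) z (del 0)) (y + -x) := by
      unfold lap
      refine Finset.sum_congr rfl fun i _ => ?_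
      rw [shift_apply, shift_apply]
      have e1 : y + Pi.single i 1 + -x = y + -x + Pi.single i 1 := by abel
      have e2 : y - Pi.single i 1 + -x = y + -x - Pi.single i 1 := by abel
      rw [e1, e2]
    have h4 : (del (0 : Site d) : L2 d) (y + -x) = (del x : L2 d) y := by
      unfold del
      rw [lp.single_apply, lp.single_apply]
      by_cases h : y = x
      · subst h
        simp
      · have h' : y + -x ≠ 0 := fun h0 => h (by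
          have := congrArg (fun w => w + x) h0
          simpa using this)
        rw [Pi.single_eq_of_ne h, Pi.single_eq_of_ne h']
    rw [h3, shift_apply, ← h4]
    simpa using h2
  rw [← h1, shift_apply]
  simp

/-- one energy, one scale, one site -/
theorem one {d : ℕ} {a θ c : ℝ} (hθ : 0 < θ) (hc : 0 < c) (hc1 : c ≤ 1 / 4)
    (h : ∀ σ E T : ℝ, σ ≠ 0 → |σ| ≤ c → |E| ≤ 2 * d - a → |σ| ^ (-3 : ℝ) ≤ T →
      T ≤ Real.exp (|σ| ^ (-θ)) → ∃ m : ℂ, c ≤ m.im ∧ ‖m‖ ≤ 1 / c ∧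
        ‖m - G (0 : Site d → ℝ) (⟨E, 1 / T⟩ + (σ : ℂ) ^ 2 * m) (del 0) 0‖ ≤ |σ| ^ θ ∧
        ∀ b : Site d, PP d (gl σ) {V | ¬ ∀ x y : Site d, (sd b x : ℝ) ≤ T → (sd b y : ℝ) ≤ T →
          ‖G V ⟨E, 1 / T⟩ (del x) y -
            G (0 : Site d → ℝ) (⟨E, 1 / T⟩ + (σ : ℂ) ^ 2 * m) (del x) y‖ ≤ |σ| ^ θ} ≤
          ENNReal.ofReal (Real.exp (-(|σ| ^ (-θ)))))
    {σ E T : ℝ} (hσ : σ ≠ 0) (hσc : |σ| ≤ c) (hE : |E| ≤ 2 * d - a) (hT : |σ| ^ (-3 : ℝ) ≤ T)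
    (hT' : T ≤ Real.exp (|σ| ^ (-θ))) (hs : |σ| ^ θ ≤ c / 4) (x : Site d) :
    PP d (gl σ) {V | ¬ (c / 2 ≤ (G V ⟨E, 1 / T⟩ (del x) x).im ∧
      (G V ⟨E, 1 / T⟩ (del x) x).im ≤ 2 / c)} ≤ ENNReal.ofReal (Real.exp (-(|σ| ^ (-θ)))) := by
  obtain ⟨m, hm1, hm2, hm3, hm4⟩ := h σ E T hσ hσc hE hT hT'
  have hs0 : 0 < |σ| := abs_pos.2 hσ
  have hT0 : 0 < T := lt_of_lt_of_le (Real.rpow_pos_of_pos hs0 _) hT
  refine le_trans (measure_mono ?_) (hm4 x)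
  intro V hV hall
  apply hV
  have h1 := hall x x (by rw [sd_self]; simpa using hT0.le) (by rw [sd_self]; simpa using hT0.le)
  have hz : ((⟨E, 1 / T⟩ : ℂ) + (σ : ℂ) ^ 2 * m).im ≠ 0 := by
    have e1 : ((⟨E, 1 / T⟩ : ℂ) + (σ : ℂ) ^ 2 * m).im = 1 / T + σ ^ 2 * m.im := by
      have e2 : ((σ : ℂ) ^ 2) = ((σ ^ 2 : ℝ) : ℂ) := by push_cast; ring
      rw [e2, Complex.add_im, Complex.im_ofReal_mul]
    rw [e1]
    have : 0 < 1 / T := by positivity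
    have : 0 ≤ σ ^ 2 * m.im := mul_nonneg (sq_nonneg _) (hc.le.trans hm1)
    positivity
  rw [free_shift hz x] at h1
  have h2 : ‖m - G V ⟨E, 1 / T⟩ (del x) x‖ ≤ c / 2 := by
    have := norm_sub_le_norm_sub_add_norm_sub m
      (G (0 : Site d → ℝ) (⟨E, 1 / T⟩ + (σ : ℂ) ^ 2 * m) (del 0) 0) (G V ⟨E, 1 / T⟩ (del x) x)
    rw [norm_sub_rev (G (0 : Site d → ℝ) (⟨E, 1 / T⟩ + (σ : ℂ) ^ 2 * m) (del 0) 0)
      (G V ⟨E, 1 / T⟩ (del x) x)] at this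
    linarith only [hs, hm3, h1, this]
  have h3 := Complex.abs_im_le_norm (m - G V ⟨E, 1 / T⟩ (del x) x)
  rw [Complex.sub_im] at h3
  have h4 := abs_le.1 (h3.trans h2)
  have h5 := (Complex.abs_im_le_norm m).trans hm2
  have h6 := (abs_le.1 h5).2
  have h7 : c / 2 ≤ 1 / c := by
    rw [div_le_div_iff₀ (by norm_num) hc]
    nlinarith only [hc, hc1]
  constructor
  · linarith only [hm1, h4]
  · have : 2 / c = 1 / c + 1 / c := by ring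
    rw [this]
    linarith only [hc, hm1, h4, h6]

theorem grid2 {E h : ℝ} (hh : 0 < h) : ∃ j : ℤ, |(j : ℝ) * h| ≤ |E| ∧ |(j : ℝ) * h - E| ≤ h := by
  rcases le_total 0 E with h0 | h0
  · refine ⟨⌊E / h⌋, ?_, ?_⟩
    · have h1 : (0 : ℝ) ≤ (⌊E / h⌋ : ℤ) := by
        exact_mod_cast Int.floor_nonneg.2 (div_nonneg h0 hh.le)
      rw [abs_of_nonneg (mul_nonneg h1 hh.le), abs_of_nonneg h0]
      exact (le_div_iff₀ hh).1 (Int.floor_le _)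
    · have h1 := (le_div_iff₀ hh).1 (Int.floor_le (E / h))
      have h2 := (div_lt_iff₀ hh).1 (Int.lt_floor_add_one (E / h))
      rw [abs_le]
      constructor <;> nlinarith
  · refine ⟨-⌊-E / h⌋, ?_, ?_⟩
    · have h1 : (0 : ℝ) ≤ (⌊-E / h⌋ : ℤ) := by
        exact_mod_cast Int.floor_nonneg.2 (div_nonneg (by linarith) hh.le)
      push_cast
      rw [neg_mul, abs_neg, abs_of_nonneg (mul_nonneg h1 hh.le), abs_of_nonpos h0]
      exact (le_div_iff₀ hh).1 (Int.floor_le _)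
    · have h1 := (le_div_iff₀ hh).1 (Int.floor_le (-E / h))
      have h2 := (div_lt_iff₀ hh).1 (Int.lt_floor_add_one (-E / h))
      push_cast
      rw [abs_le]
      constructor <;> nlinarith

/-- the deterministic part -/
theorem detp {f : ℝ → ℝ → ℝ} {b c c₀ D T r : ℝ} {n J : ℕ} (hc : 0 < c) (hc₀ : 0 < c₀)
    (hcc : c ≤ c₀ / 100) (hT : 1 ≤ T) (hr : r ≤ 1) (hb : b ≤ D) (hn : n = ⌊T⌋₊)
    (hJ : J = ⌊D * T⌋₊)
    (H : ∀ E E' η η' : ℝ, 0 < η → η / 2 ≤ η' → η' ≤ 2 * η → |E - E'| ≤ η → f E' η' ≤ 50 * f E η)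
    (good : ∀ (k : ℕ) (j : ℤ), k ≤ n → j ∈ Finset.Icc (-(J : ℤ)) J →
      |(j : ℝ) * (2 ^ k / T)| ≤ b → 2 ^ k / T ≤ r →
      c₀ / 2 ≤ f (j * (2 ^ k / T)) (2 ^ k / T) ∧ f (j * (2 ^ k / T)) (2 ^ k / T) ≤ 2 / c₀)
    {E η : ℝ} (hE : |E| ≤ b) (hη1 : 1 / T ≤ η) (hη2 : η ≤ r) : c ≤ f E η ∧ f E η ≤ 1 / c := by
  have hT0 : 0 < T := by linarith only [hT]
  have hηT : 1 ≤ η * T := by
    rw [div_le_iff₀ hT0] at hη1
    exact hη1
  have hη0 : 0 < η := lt_of_lt_of_le (by positivity) hη1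
  have hfl : ⌊η * T⌋₊ ≠ 0 := by
    have : 1 ≤ ⌊η * T⌋₊ := Nat.le_floor (by simpa using hηT)
    omega
  obtain ⟨k, hk⟩ : ∃ k, k = Nat.log 2 ⌊η * T⌋₊ := ⟨_, rfl⟩
  have hk1 : (2 : ℝ) ^ k ≤ η * T := by
    have h1 : 2 ^ k ≤ ⌊η * T⌋₊ := hk ▸ Nat.pow_log_le_self 2 hfl
    have h2 : ((2 ^ k : ℕ) : ℝ) ≤ (⌊η * T⌋₊ : ℝ) := by exact_mod_cast h1
    push_cast at h2
    exact h2.trans (Nat.floor_le (by positivity))
  have hk2 : η * T < 2 * 2 ^ k := by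
    have h1 : ⌊η * T⌋₊ < 2 ^ (k + 1) := hk ▸ Nat.lt_pow_succ_log_self (by norm_num) _
    have h2 : η * T < (⌊η * T⌋₊ : ℝ) + 1 := Nat.lt_floor_add_one _
    have h3 : ((⌊η * T⌋₊ + 1 : ℕ) : ℝ) ≤ ((2 ^ (k + 1) : ℕ) : ℝ) := by exact_mod_cast h1
    push_cast at h3
    rw [pow_succ] at h3
    linarith only [h2, h3]
  obtain ⟨h, hh⟩ : ∃ h : ℝ, h = 2 ^ k / T := ⟨_, rfl⟩
  have hh1 : h ≤ η := by
    rw [hh, div_le_iff₀ hT0]
    exact hk1
  have hh2 : η < 2 * h := by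
    rw [hh, ← mul_div_assoc, lt_div_iff₀ hT0]
    exact hk2
  have hh0 : 0 < h := by
    rw [hh]
    positivity
  obtain ⟨j, hj1, hj2⟩ := grid2 (E := E) hh0
  have hkn : k ≤ n := by
    rw [hn]
    apply Nat.le_floor
    have h1 : (k : ℝ) ≤ 2 ^ k := by exact_mod_cast (Nat.lt_two_pow_self (n := k)).le
    have h2 : η * T ≤ T := by
      have : η ≤ 1 := hη2.trans hr
      nlinarith only [hT, hr, hη2]
    linarith only [hk1, h1, h2]
  have hjJ : j ∈ Finset.Icc (-(J : ℤ)) J := by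
    have h1 : |(j : ℝ)| ≤ D * T := by
      have h2 : |(j : ℝ) * h| = |(j : ℝ)| * h := by rw [abs_mul, abs_of_pos hh0]
      have h3 := hj1.trans hE
      rw [h2] at h3
      have h4 : 1 / T ≤ h := by
        rw [hh]
        exact div_le_div_of_nonneg_right (one_le_pow₀ (by norm_num)) hT0.le
      have h5 : |(j : ℝ)| * (1 / T) ≤ D := by
        have := mul_le_mul_of_nonneg_left h4 (abs_nonneg (j : ℝ))
        linarith only [hb, hE, hj1, h2, this]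
      rw [mul_one_div, div_le_iff₀ hT0] at h5
      exact h5
    have h6 : j.natAbs ≤ J := by
      rw [hJ]
      apply Nat.le_floor
      rw [Nat.cast_natAbs]
      push_cast
      exact h1
    rw [Finset.mem_Icc]
    omega
  obtain ⟨hQ1, hQ2⟩ := good k j hkn hjJ (by rw [← hh]; exact hj1.trans hE)
    (by rw [← hh]; exact hh1.trans hη2)
  rw [← hh] at hQ1 hQ2
  have r1 := H ((j : ℝ) * h) E h η hh0 (by linarith only [hη0, hh1]) (by linarith only [hh2]) hj2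
  have r2 := H E ((j : ℝ) * h) η h hη0 (by linarith only [hh2]) (by linarith only [hη0, hh1]) (by
    rw [abs_sub_comm]
    linarith only [hh1, hj2])
  constructor
  · linarith only [hcc, hQ1, r2]
  · have h1 : 100 / c₀ ≤ 1 / c := by
      rw [div_le_div_iff₀ hc₀ hc]
      linarith only [hcc]
    have h2 : 100 / c₀ = 50 * (2 / c₀) := by ring
    linarith only [hQ2, r1, h1, h2]

theorem numb {d : ℕ} (hd : 3 ≤ d) {T X B : ℝ} (hT : 1 ≤ T) (hTX : T ≤ Real.exp X)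
    (hB : B = d + 3 + 10 * d * 3 ^ d) (hX : B ≤ X) :
    (3 * T) ^ d * (2 * T * (5 * d * T)) * Real.exp (-(X ^ 2)) ≤ Real.exp (-X) := by
  have hd0 : (3 : ℝ) ≤ d := by exact_mod_cast hd
  have h3 : (1 : ℝ) ≤ 3 ^ d := one_le_pow₀ (by norm_num)
  have hK : (0 : ℝ) < 10 * d * 3 ^ d := by positivity
  have hX1 : 1 ≤ X := by nlinarith only [hB, hX, hd0, hK]
  have e1 : (3 * T) ^ d * (2 * T * (5 * d * T)) = 10 * d * 3 ^ d * T ^ (d + 2) := by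
    rw [mul_pow]; ring
  have e2 : T ^ (d + 2) ≤ Real.exp ((d + 2) * X) := by
    have : Real.exp ((d + 2) * X) = Real.exp X ^ (d + 2) := by
      rw [← Real.exp_nat_mul]
      push_cast
      ring_nf
    rw [this]
    exact pow_le_pow_left₀ (by linarith only [hT]) hTX _
  have e3 : 10 * (d : ℝ) * 3 ^ d ≤ Real.exp (10 * d * 3 ^ d * X) := by
    have h4 := Real.add_one_le_exp (10 * (d : ℝ) * 3 ^ d * X)
    nlinarith only [hB, hX, hd0, h3, hK, h4]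
  rw [e1]
  calc 10 * (d : ℝ) * 3 ^ d * T ^ (d + 2) * Real.exp (-(X ^ 2))
      ≤ Real.exp (10 * d * 3 ^ d * X) * Real.exp ((d + 2) * X) * Real.exp (-(X ^ 2)) := by
        have h5 : 0 ≤ T ^ (d + 2) := by positivity
        have h6 := mul_le_mul e3 e2 h5 (Real.exp_pos _).le
        exact mul_le_mul_of_nonneg_right h6 (Real.exp_pos _).le
    _ = Real.exp (10 * d * 3 ^ d * X + (d + 2) * X + -(X ^ 2)) := by
        rw [Real.exp_add, Real.exp_add]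
    _ ≤ Real.exp (-X) := by
        apply Real.exp_le_exp.2
        have h7 : B * X ≤ X ^ 2 := by nlinarith only [hB, hX, hK]
        rw [hB] at h7
        nlinarith only [h7]

theorem lds (loc : LocStmt) (har : HarStmt) : LdsStmt := by
  intro d a hd ha
  obtain ⟨θ₀, c₀, hθ₀, hc₀, hc₀1, hloc⟩ := loc d a hd ha
  obtain ⟨θ, hθe⟩ : ∃ θ, θ = θ₀ / 2 := ⟨_, rfl⟩
  have hθ : 0 < θ := by rw [hθe]; positivity
  have hd0 : (3 : ℝ) ≤ d := by exact_mod_cast hd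
  obtain ⟨B, hB⟩ : ∃ B : ℝ, B = d + 3 + 10 * d * 3 ^ d := ⟨_, rfl⟩
  have hB0 : 0 < B := by rw [hB]; positivity
  obtain ⟨c, hc⟩ : ∃ c : ℝ, c = min (c₀ / 100) (min ((1 / B) ^ (1 / θ)) ((c₀ / 4) ^ (1 / θ₀))) :=
    ⟨_, rfl⟩
  have hc0 : 0 < c := by
    rw [hc]
    refine lt_min (by positivity) (lt_min ?_ ?_)
    · exact Real.rpow_pos_of_pos (by positivity) _
    · exact Real.rpow_pos_of_pos (by positivity) _
  have hcc : c ≤ c₀ / 100 := hc ▸ min_le_left _ _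
  have hc2 : c ≤ (1 / B) ^ (1 / θ) := hc ▸ (min_le_right _ _).trans (min_le_left _ _)
  have hc3 : c ≤ (c₀ / 4) ^ (1 / θ₀) := hc ▸ (min_le_right _ _).trans (min_le_right _ _)
  refine ⟨θ, c, hθ, hc0, by linarith only [hc₀1, hc0, hcc], ?_⟩
  intro σ T hσ hσc hT hT'
  obtain ⟨s, hs⟩ : ∃ s, s = |σ| := ⟨_, rfl⟩
  have hs0 : 0 < s := hs ▸ abs_pos.2 hσ
  have hsc : s ≤ c := hs ▸ hσc
  have hs1 : s ≤ 1 / 4 := by linarith only [hc₀1, hc0, hcc, hσc, hs]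
  have hsθ : s ^ θ ≤ 1 / B := by
    calc s ^ θ ≤ ((1 / B) ^ (1 / θ)) ^ θ := Real.rpow_le_rpow hs0.le (hsc.trans hc2) hθ.le
      _ = 1 / B := by
        rw [← Real.rpow_mul (by positivity), one_div_mul_cancel hθ.ne', Real.rpow_one]
  have hsθ₀ : s ^ θ₀ ≤ c₀ / 4 := by
    calc s ^ θ₀ ≤ ((c₀ / 4) ^ (1 / θ₀)) ^ θ₀ := Real.rpow_le_rpow hs0.le (hsc.trans hc3) hθ₀.le
      _ = c₀ / 4 := by
        rw [← Real.rpow_mul (by positivity), one_div_mul_cancel hθ₀.ne', Real.rpow_one]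
  obtain ⟨X, hX⟩ : ∃ X, X = s ^ (-θ) := ⟨_, rfl⟩
  have hXB : B ≤ X := by
    rw [hX, Real.rpow_neg hs0.le, le_inv_comm₀ hB0 (Real.rpow_pos_of_pos hs0 _)]
    rwa [one_div] at hsθ
  have hX2 : s ^ (-θ₀) = X ^ 2 := by
    rw [hX, ← Real.rpow_natCast, ← Real.rpow_mul hs0.le, hθe]
    congr 1
    push_cast
    ring
  have hB1 : 1 ≤ B := by
    have h3 : (0 : ℝ) ≤ 10 * d * 3 ^ d := by positivity
    rw [hB]
    linarith only [hc₀1, hd0, hc0, hcc, h3]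
  have hX1 : 1 ≤ X := hB1.trans hXB
  rw [← hs] at hT hT' ⊢
  rw [← hX] at hT' ⊢
  have hT3 : (s ^ 3)⁻¹ ≤ T := by
    have e1 : s ^ (-3 : ℝ) = (s ^ 3)⁻¹ := by
      rw [Real.rpow_neg hs0.le]
      congr 1
      exact_mod_cast Real.rpow_natCast s 3
    rwa [e1] at hT
  have hs3 : 0 < s ^ 3 := by positivity
  have hT0 : 0 < T := lt_of_lt_of_le (inv_pos.2 hs3) hT3
  have hT1 : 1 ≤ T := by
    have h1 : (1 : ℝ) ≤ (s ^ 3)⁻¹ := by
      rw [one_le_inv₀ hs3]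
      exact pow_le_one₀ hs0.le (by linarith only [hc₀1, hc0, hcc, hσc, hs])
    exact h1.trans hT3
  -- the events
  let h : ℕ → ℝ := fun k => 2 ^ k / T
  let Q : Site d → ℕ → ℤ → Cfg d → Prop := fun x k j V =>
    c₀ / 2 ≤ (G V ⟨(j : ℝ) * h k, h k⟩ (del x) x).im ∧
      (G V ⟨(j : ℝ) * h k, h k⟩ (del x) x).im ≤ 2 / c₀
  let p : ℕ → ℤ → Prop := fun k j => |(j : ℝ) * h k| ≤ 2 * d - a ∧ h k ≤ s ^ 3
  have hP : ∀ (x : Site d) (k : ℕ) (j : ℤ),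
      PP d (gl σ) {V | p k j ∧ ¬ Q x k j V} ≤ ENNReal.ofReal (Real.exp (-(X ^ 2))) := by
    intro x k j
    by_cases hp : p k j
    · have e1 : h k = 1 / (T / 2 ^ k) := by
        show 2 ^ k / T = _
        rw [one_div_div]
      have hk0 : (0 : ℝ) < 2 ^ k := by positivity
      have h1 := one (d := d) (a := a) hθ₀ hc₀ hc₀1 hloc (σ := σ) (E := (j : ℝ) * h k)
        (T := T / 2 ^ k) hσ (by rw [← hs]; linarith only [hc0, hcc, hσc, hs]) hp.1 (by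
          rw [← hs]
          have e2 : s ^ (-3 : ℝ) = (s ^ 3)⁻¹ := by
            rw [Real.rpow_neg hs0.le]
            congr 1
            exact_mod_cast Real.rpow_natCast s 3
          rw [e2, inv_le_comm₀ hs3 (by positivity)]
          have h2 := hp.2
          rw [e1, one_div] at h2
          exact h2) (by
          rw [← hs, hX2]
          calc T / 2 ^ k ≤ T := div_le_self hT0.le (one_le_pow₀ (by norm_num))
            _ ≤ Real.exp X := hT'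
            _ ≤ Real.exp (X ^ 2) := Real.exp_le_exp.2 (by nlinarith only [hB0, hXB, hB1])) (by rw [← hs]; exact hsθ₀) x
      rw [← hs, hX2, ← e1] at h1
      refine le_trans (measure_mono ?_) h1
      intro V hV
      exact hV.2
    · have : {V | p k j ∧ ¬ Q x k j V} = ∅ := by
        ext V
        simp [hp]
      rw [this, measure_empty]
      exact bot_le
  obtain ⟨n, hn⟩ : ∃ n : ℕ, n = ⌊T⌋₊ := ⟨_, rfl⟩
  obtain ⟨J, hJ⟩ : ∃ J : ℕ, J = ⌊2 * d * T⌋₊ := ⟨_, rfl⟩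
  have hnT : (n : ℝ) ≤ T := hn ▸ Nat.floor_le hT0.le
  have hJT : (J : ℝ) ≤ 2 * d * T := hJ ▸ Nat.floor_le (by positivity)
  obtain ⟨S, hS⟩ : ∃ S : Finset (Site d × ℕ × ℤ), S =
    (box (0 : Site d) n) ×ˢ (Finset.range (n + 1)) ×ˢ (Finset.Icc (-(J : ℤ)) J) := ⟨_, rfl⟩
  have hcard : (S.card : ℝ) ≤ (3 * T) ^ d * (2 * T * (5 * d * T)) := by
    rw [hS, Finset.card_product, Finset.card_product, card_box, Finset.card_range, Int.card_Icc]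
    have e1 : ((J : ℤ) + 1 - -(J : ℤ)).toNat = 2 * J + 1 := by omega
    rw [e1]
    push_cast
    have a1 : (2 * (n : ℝ) + 1) ^ d ≤ (3 * T) ^ d :=
      pow_le_pow_left₀ (by positivity) (by linarith only [hT1, hnT]) _
    have a2 : (n : ℝ) + 1 ≤ 2 * T := by linarith only [hT1, hnT]
    have a3 : 2 * (J : ℝ) + 1 ≤ 5 * d * T := by nlinarith only [hc₀1, hd0, hc0, hcc, hT1, hJT]
    have a4 : ((n : ℝ) + 1) * (2 * (J : ℝ) + 1) ≤ 2 * T * (5 * d * T) :=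
      mul_le_mul a2 a3 (by positivity) (by positivity)
    exact mul_le_mul a1 a4 (by positivity) (by positivity)
  have hsub : {V | ¬ ∀ (x : Site d) (E η : ℝ), (sd 0 x : ℝ) ≤ T → |E| ≤ 2 * d - a →
        1 / T ≤ η → η ≤ s ^ 3 →
          c ≤ (G V ⟨E, η⟩ (del x) x).im ∧ (G V ⟨E, η⟩ (del x) x).im ≤ 1 / c} ⊆
      ⋃ i ∈ S, {V | p i.2.1 i.2.2 ∧ ¬ Q i.1 i.2.1 i.2.2 V} := by
    intro V hV
    by_contra hno
    apply hV
    intro x E η hx hE hη1 hη2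
    have hxn : x ∈ box (0 : Site d) n := by
      rw [mem_box, hn]
      exact Nat.le_floor hx
    refine detp (f := fun E η => (G V ⟨E, η⟩ (del x) x).im) (b := 2 * d - a) (c₀ := c₀)
      (D := 2 * d) (n := n) (J := J) hc0 hc₀ hcc hT1
      (pow_le_one₀ hs0.le (by linarith only [hc₀1, hc0, hcc, hσc, hs])) (by linarith only [ha]) hn hJ
      (fun E E' η η' h1 h2 h3 h4 => har d V E E' η η' x h1 h2 h3 h4) ?_ hE hη1 hη2
    intro k j hk hj hp1 hp2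
    by_contra hq
    apply hno
    rw [Set.mem_iUnion₂]
    refine ⟨(x, k, j), ?_, ⟨hp1, hp2⟩, hq⟩
    rw [hS, Finset.mem_product, Finset.mem_product]
    exact ⟨hxn, Finset.mem_range.2 (Nat.lt_succ_of_le hk), hj⟩
  refine (measure_mono hsub).trans ((measure_biUnion_finset_le _ _).trans ?_)
  refine (Finset.sum_le_sum fun i _ => hP i.1 i.2.1 i.2.2).trans ?_
  rw [Finset.sum_const, nsmul_eq_mul, ← ENNReal.ofReal_natCast, ← ENNReal.ofReal_mul (by positivity)]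
  apply ENNReal.ofReal_le_ofReal
  exact (mul_le_mul_of_nonneg_right hcard (Real.exp_pos _).le).trans (numb hd hT1 hT' hB hXB)

end Pool.Agent.LE.QY.H69
end
end -- Pool.Agent.Helper69_LQY.LDS
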