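import Pool.Agent.Helper12_MEB.B087

/-!
# Merged copies (generated) of the modules

* `Pool.Agent.Helper13_LQZ.TOF`
* `Pool.Agent.Helper2_LQZ.UPA`
-/

set_option autoImplicit false

section -- Pool.Agent.Helper13_LQZ.TOF

/-!
# Row TOF of table lqz: the torus
-/

set_option autoImplicit false

open MeasureTheory ProbabilityTheory Function Filter

open scoped ENNReal BigOperators Topology NNReal ComplexOrder Matrix

noncomputable section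

namespace Pool.Agent.LE.QZ.H13

open Pool.Agent.Anderson hiding box mem_box card_box
open Pool.Agent.Loc Pool.Agent.Mob Pool.Agent.Helper54.Bal
  Pool.Agent.Helper96.EXP Pool.Agent.BED
open Pool.Agent.LE.MN Pool.Agent.LE.CL Pool.Agent.LE.IR Pool.Agent.LE.QD Pool.Agent.LE.QF

/-- from eventually to a threshold -/
theorem small_of_ev {P : ℝ → Prop} (h : ∀ᶠ s in 𝓝[>] (0 : ℝ), P s) :
    ∃ c : ℝ, 0 < c ∧ ∀ s, 0 < s → s ≤ c → P s := by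
  obtain ⟨u, hu, hs⟩ := mem_nhdsGT_iff_exists_Ioc_subset.1 h
  exact ⟨u, hu, fun s h0 h1 => hs ⟨h0, h1⟩⟩

theorem ev_rpow {r ρ K : ℝ} (hr : 0 < r) (hρ : 0 < ρ) :
    ∀ᶠ s in 𝓝[>] (0 : ℝ), K * s ^ r ≤ ρ := by
  have h1 : Tendsto (fun s : ℝ => K * s ^ r) (𝓝[>] 0) (𝓝 (K * 0)) := by
    apply Tendsto.const_mul
    have h2 : Tendsto (fun s : ℝ => s ^ r) (𝓝 0) (𝓝 ((0 : ℝ) ^ r)) :=
      (Real.continuousAt_rpow_const 0 r (Or.inr hr.le)).tendsto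
    rw [Real.zero_rpow hr.ne'] at h2
    exact h2.mono_left nhdsWithin_le_nhds
  rw [mul_zero] at h1
  exact (h1.eventually (gt_mem_nhds hρ)).mono fun s hs => hs.le

theorem ev_exp {θ B K : ℝ} (hθ : 0 < θ) :
    ∀ᶠ s in 𝓝[>] (0 : ℝ), K * (s ^ (-B) * Real.exp (-(s ^ (-θ) / 8))) ≤ 1 := by
  have h1 : Tendsto (fun s : ℝ => s ^ (-θ)) (𝓝[>] 0) atTop :=
    tendsto_rpow_neg_nhdsGT_zero (by linarith)
  have h2 := (tendsto_rpow_mul_exp_neg_mul_atTop_nhds_zero (B / θ) (1 / 8) (by norm_num)).comp h1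
  have h3 := h2.const_mul K
  rw [mul_zero] at h3
  have h4 := h3.eventually (gt_mem_nhds (zero_lt_one))
  filter_upwards [h4, self_mem_nhdsWithin] with s hs hs0
  have hs0' : (0 : ℝ) < s := hs0
  have e1 : (s ^ (-θ)) ^ (B / θ) = s ^ (-B) := by
    rw [← Real.rpow_mul hs0'.le]
    congr 1
    field_simp
  have e2 : K * (s ^ (-B) * Real.exp (-(s ^ (-θ) / 8))) =
      K * ((s ^ (-θ)) ^ (B / θ) * Real.exp (-(1 / 8) * s ^ (-θ))) := by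
    rw [e1]
    congr 3
    ring
  rw [e2]
  exact hs.le

theorem adm_mono {d M : ℕ} [NeZero M] {D : Dat d M} {c₁ C₁ c₀ c₀' : ℝ}
    (h : Adm D c₁ C₁ c₀) (hc : c₀ ≤ c₀') : Adm D c₁ C₁ c₀' :=
  { h with
    hδ := ⟨h.hδ.1, h.hδ.2.trans hc⟩
    hk := ⟨h.hk.1, h.hk.2.1.trans hc, h.hk.2.2⟩ }

/-- **TOF** -/
theorem tof (hIni : IniStmt) (hUpr : UprStmt) (hOut : OutStmt) (hMom : MomStmt)
    (hRal : RalStmt) : TofStmt := by
  intro d a ε hd ha hε hε1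
  obtain ⟨θ, c₁, C₁, hθ, hθε, hc₁, hC₁, hI⟩ := hIni d a ε hd ha hε hε1
  have hθ1 : θ ≤ 1 / 100 := by linarith only [hε1, hθε]
  obtain ⟨cU, CU, hcU, -, hCU, hU⟩ := hUpr c₁ C₁ hc₁ hC₁
  obtain ⟨cO, CO, hcO, -, hCO, hO⟩ := hOut c₁ C₁ hc₁ hC₁
  obtain ⟨cI, CI, hcI, hcI4, hCI, hI'⟩ := hI (min cU cO) (lt_min hcU hcO)
  have hd3 : (3 : ℝ) ≤ d := by exact_mod_cast hd
  have hCU0 : 0 < CU := by linarith only [hε1, hθ, hθε, hCU]
  have hCI0 : 0 < CI := by linarith only [hε1, hθ, hθε, hCI]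
  have hCO0 : 0 < CO := by linarith only [hε1, hθ, hθε, hCO]
  have hC₁0 : 0 < C₁ := by linarith only [hε1, hθ, hθε, hC₁]
  -- the thresholds
  obtain ⟨t1, ht1, hs1⟩ := small_of_ev ((ev_rpow (K := (d + 1) * CU * CI) (r := 3 * θ) (ρ := 1)
    (by linarith only [hθ]) (by norm_num)).and
    (ev_rpow (K := 1) (r := 2 * θ) (ρ := 7 / 8) (by linarith only [hθ]) (by norm_num)))
  obtain ⟨t2, ht2, hs2⟩ := small_of_ev (ev_exp (θ := 4 * θ) (B := 2)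
    (K := 3 * CU * (2 + CI) * (d + 1)) (by linarith only [hθ]))
  obtain ⟨t3, ht3, hs3⟩ := small_of_ev (ev_rpow (K := 3 * CO + 4) (r := 3 * θ) (ρ := 1)
    (by linarith only [hθ]) (by norm_num))
  refine ⟨θ, min (min cI (c₁ / 2)) (min t1 (min t2 t3)), 9 + C₁ + C₁ ^ 2 * CI, hθ, hθ1, ?_, ?_,
    ?_, ?_⟩
  · exact lt_min (lt_min hcI (by linarith only [hc₁])) (lt_min ht1 (lt_min ht2 ht3))
  · exact (min_le_left _ _).trans ((min_le_left _ _).trans hcI4)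
  · have : 0 ≤ C₁ ^ 2 * CI := by positivity
    linarith only [hε1, hθ, hθε, hC₁, this]
  intro M _ v σ E η hv hσ hσc hE hM1 hM2 hηM hη2
  obtain ⟨s, hs⟩ : ∃ s, s = |σ| := ⟨_, rfl⟩
  rw [← hs] at hσc hM1 hM2 hηM hη2 ⊢
  have hs0 : 0 < s := by rw [hs]; exact abs_pos.2 hσ
  have hc1 : s ≤ cI := hσc.trans ((min_le_left _ _).trans (min_le_left _ _))
  have hc3 : s ≤ t1 := hσc.trans ((min_le_right _ _).trans (min_le_left _ _))
  have hc4 : s ≤ t2 := hσc.trans ((min_le_right _ _).trans ((min_le_right _ _).trans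
    (min_le_left _ _)))
  have hc5 : s ≤ t3 := hσc.trans ((min_le_right _ _).trans ((min_le_right _ _).trans
    (min_le_right _ _)))
  obtain ⟨hn1, hn2⟩ := hs1 s hs0 hc3
  have hn3 := hs2 s hs0 hc4
  have hn4 := hs3 s hs0 hc5
  have hs1' : s ≤ 1 := by linarith only [hε1, hθ, hθε, hcI4, hc1]
  obtain ⟨m, hm1, hm2, hm3, hID⟩ :=
    hI' M σ E η hσ (by rw [← hs]; exact hc1) hE (by rw [← hs]; exact hM1)
      (by rw [← hs]; exact hM2) (by rw [← hs]; exact hηM) (by rw [← hs]; exact hη2)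
  have hMpos : (0 : ℝ) < M := by
    exact_mod_cast Nat.pos_of_ne_zero (NeZero.ne M)
  have hMd : 0 < (M : ℝ) ^ d := by positivity
  have hη0 : 0 < η := by
    have h1 : 0 < η * (M : ℝ) ^ d := (Real.rpow_pos_of_pos hs0 _).trans_le hηM
    exact (pos_iff_pos_of_mul_pos h1).2 hMd
  have hη3 : η ≤ 1 := hη2.trans (pow_le_one₀ hs0.le hs1')
  refine ⟨m, ?_, ?_, hm3, ?_⟩
  · exact ((min_le_left _ _).trans (min_le_right _ _)).trans (by linarith only [hc₁, hm1])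
  · have : 0 ≤ C₁ ^ 2 * CI := by positivity
    linarith only [hε1, hθ, hθε, hm2, this]
  intro i ξ hξ
  obtain ⟨D, hAdm, hDE, hDη, hDT, hDm, hDf₁, hDf₂, hDz, hDl, hDM, hDa, hDp, hDδ, hDe, hDb, hDS⟩ :=
    hID i ξ hξ
  rw [← hs] at hDa hDp hDδ hDe hDb hDS
  have hξ0 : 0 < ξ := by linarith only [hε1, hθ, hθε, hξ]
  have hσ2 : 0 < σ ^ 2 := by positivity
  have hsθ0' : s ^ (4 * θ) = s ^ (3 * θ) * s ^ θ := by
    rw [← Real.rpow_add hs0]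
    congr 1
    ring
  have hsθp : 0 < s ^ θ := Real.rpow_pos_of_pos hs0 _
  have hs3θ : 0 ≤ s ^ (3 * θ) := Real.rpow_nonneg hs0.le _
  have hzt : D.zt 0 = ⟨E, η⟩ + (σ : ℂ) ^ 2 * m := by
    unfold Dat.zt
    rw [hDE, hDη, hDT, hDm, sub_zero]
    push_cast
    rfl
  have hzim : 0 < (⟨E, η⟩ : ℂ).im := hη0
  subst hDE
  subst hDη
  -- the event
  have hsub : {V | ¬ ((∀ x, min (min cI (c₁ / 2)) (min t1 (min t2 t3)) ≤
        (rs V ⟨D.E, D.η⟩ x x).im) ∧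
      (∀ x y, ‖rs V ⟨D.E, D.η⟩ x y -
        rs (0 : Tor d M → ℝ) (⟨D.E, D.η⟩ + (σ : ℂ) ^ 2 * m) x y‖ ≤ s ^ θ) ∧
      (∀ C' : Finset (Tor d M), (C'.card : ℝ) ≤ (s ^ (ε - 1) / Real.sqrt D.η) ^ d →
        (C'.card : ℝ) ≤ s ^ ε * (M : ℝ) ^ d →
        mss V ⟨D.E, D.η⟩ C' ≤ s ^ θ * C'.card / D.η) ∧
      ∑ x, ∑ y, ‖rs V ⟨D.E, D.η⟩ x y‖ ^ 2 * (((x - y) i).valMinAbs : ℝ) ^ 2 ≤
        (9 + C₁ + C₁ ^ 2 * CI) * ξ * (M : ℝ) ^ d / (σ ^ 2 * D.η ^ 2))} ⊆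
      {V | 1 ≤ D.U (D.T, V)} := by
    intro V hV
    rw [Set.mem_ofPred_eq] at hV ⊢
    by_contra hlt
    push Not at hlt
    apply hV
    obtain ⟨h1, h1b, h2, h2b⟩ := hO d M D V (adm_mono hAdm (min_le_right _ _)) hlt
    refine ⟨fun x => ?_, fun x y => ?_, fun C' hC' hC'' => ?_, ?_⟩
    · exact ((min_le_left _ _).trans (min_le_right _ _)).trans (h1 x)
    · have h3 := h1b x y
      have h4 : D.G0 x y = rs (0 : Tor d M → ℝ) (⟨D.E, D.η⟩ + (σ : ℂ) ^ 2 * m) x y := by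
        unfold Dat.G0
        rw [hzt]
      rw [h4] at h3
      refine h3.trans ?_
      have h5 : 4 * s ^ (3 * θ) ≤ 1 := by
        have : 0 ≤ 3 * CO * s ^ (3 * θ) := by positivity
        linarith only [hn4, this]
      calc 4 * D.δ ≤ 4 * s ^ (4 * θ) := by linarith only [hDδ]
        _ = (4 * s ^ (3 * θ)) * s ^ θ := by rw [hsθ0']; ring
        _ ≤ 1 * s ^ θ := mul_le_mul_of_nonneg_right h5 hsθp.le
        _ = s ^ θ := one_mul _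
    · have h3 := h2 C'
      have h4 := hDS C' hC' hC''
      have hcard : (0 : ℝ) ≤ C'.card := Nat.cast_nonneg _
      have h5 : (C'.card : ℝ) / (M : ℝ) ^ d ≤ s ^ (4 * θ) := by
        rw [div_le_iff₀ hMd]
        refine hC''.trans (mul_le_mul_of_nonneg_right ?_ hMd.le)
        exact Real.rpow_le_rpow_of_exponent_ge hs0 hs1' (by linarith only [hθ, hθε])
      have h8 : D.δ + (D.e₀ - 1) + (C'.card : ℝ) / (M : ℝ) ^ d ≤ 3 * s ^ (4 * θ) := by linarith only [hDδ, hDe, h5]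
      have h9 : CO / D.η * (D.δ + (D.e₀ - 1) + (C'.card : ℝ) / (M : ℝ) ^ d) * C'.card ≤
          CO / D.η * (3 * s ^ (4 * θ)) * C'.card := by
        apply mul_le_mul_of_nonneg_right _ hcard
        exact mul_le_mul_of_nonneg_left h8 (by positivity)
      have h10 : CO / D.η * (3 * s ^ (4 * θ)) * C'.card + s ^ (4 * θ) * C'.card / D.η =
          ((3 * CO + 1) * s ^ (3 * θ)) * (s ^ θ * C'.card / D.η) := by
        rw [hsθ0']
        field_simp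
      have h10b : (3 * CO + 1) * s ^ (3 * θ) ≤ 1 := by
        have : (3 * CO + 1) * s ^ (3 * θ) ≤ (3 * CO + 4) * s ^ (3 * θ) :=
          mul_le_mul_of_nonneg_right (by linarith only [hε1, hθ, hθε]) hs3θ
        linarith only [hn4, hs3θ]
      have h11 : ((3 * CO + 1) * s ^ (3 * θ)) * (s ^ θ * C'.card / D.η) ≤
          1 * (s ^ θ * C'.card / D.η) := by
        apply mul_le_mul_of_nonneg_right h10b
        positivity
      rw [one_mul] at h11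
      linarith
    · -- the second moment
      obtain ⟨S2, hS2⟩ : ∃ S2, S2 = ∑ x, ∑ y, ‖rs V ⟨D.E, D.η⟩ x y‖ ^ 2 *
          (((x - y) i).valMinAbs : ℝ) ^ 2 := ⟨_, rfl⟩
      rw [← hS2]
      have hS0 : 0 ≤ S2 := by
        rw [hS2]
        exact Finset.sum_nonneg fun x _ => Finset.sum_nonneg fun y _ => by positivity
      have hsy := (hRal d M V ⟨D.E, D.η⟩ hzim).2.1
      have h3 := hMom d M (KK (rs V ⟨D.E, D.η⟩)) i
        (fun a b => by show ‖_‖ ^ 2 = ‖_‖ ^ 2; rw [hsy a b]) (fun a b => by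
          show 0 ≤ ‖_‖ ^ 2; positivity)
      have h4 : 8 / (M : ℝ) ^ 2 * S2 ≤ qf (Dl (KK (rs V ⟨D.E, D.η⟩))) D.f₁ +
          qf (Dl (KK (rs V ⟨D.E, D.η⟩))) D.f₂ := by
        rw [hS2, hDf₁, hDf₂]
        exact h3
      have him0 : 0 < D.m.im := by
        have := hAdm.hm.1
        linarith only [hc₁, this]
      have him1 : D.m.im ≤ C₁ := hAdm.hm.2
      have h5 : D.lam * (D.η / D.m.im) ^ 2 * (8 / (M : ℝ) ^ 2 * S2) ≤ 1 :=
        (mul_le_mul_of_nonneg_left h4 (by positivity)).trans h2b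
      have h6 : D.lam * (8 * D.η ^ 2) * S2 ≤ D.m.im ^ 2 * (M : ℝ) ^ 2 := by
        have e : D.lam * (D.η / D.m.im) ^ 2 * (8 / (M : ℝ) ^ 2 * S2) =
            (D.lam * (8 * D.η ^ 2) * S2) / (D.m.im ^ 2 * (M : ℝ) ^ 2) := by
          field_simp
        rw [e, div_le_one (by positivity)] at h5
        exact h5
      have h7 : D.m.im ^ 2 ≤ C₁ ^ 2 := pow_le_pow_left₀ him0.le him1 2
      have h8 : D.lam * (8 * D.η ^ 2) * S2 ≤
          D.lam * (C₁ ^ 2 * (CI * ξ * (M : ℝ) ^ d / σ ^ 2)) := by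
        refine h6.trans ?_
        calc D.m.im ^ 2 * (M : ℝ) ^ 2 ≤ C₁ ^ 2 * (CI * ξ * (M : ℝ) ^ d / σ ^ 2 * D.lam) :=
              mul_le_mul h7 hDM (by positivity) (by positivity)
          _ = _ := by ring
      have h9 : 8 * D.η ^ 2 * S2 ≤ C₁ ^ 2 * (CI * ξ * (M : ℝ) ^ d / σ ^ 2) := by
        have e : D.lam * (8 * D.η ^ 2) * S2 = D.lam * (8 * D.η ^ 2 * S2) := by ring
        rw [e] at h8
        exact le_of_mul_le_mul_left h8 hDl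
      rw [le_div_iff₀ (by positivity)]
      have h10 : 8 * (S2 * (σ ^ 2 * D.η ^ 2)) ≤ C₁ ^ 2 * CI * (ξ * (M : ℝ) ^ d) := by
        have h11 := mul_le_mul_of_nonneg_right h9 hσ2.le
        have e : C₁ ^ 2 * (CI * ξ * (M : ℝ) ^ d / σ ^ 2) * σ ^ 2 =
            C₁ ^ 2 * CI * (ξ * (M : ℝ) ^ d) := by
          field_simp
        rw [e] at h11
        linarith only [h11]
      have h12 : 0 ≤ S2 * (σ ^ 2 * D.η ^ 2) := by positivity
      have h13 : 0 ≤ (9 + C₁) * (ξ * (M : ℝ) ^ d) := by positivity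
      have e2 : (9 + C₁ + C₁ ^ 2 * CI) * ξ * (M : ℝ) ^ d = (9 + C₁) * (ξ * (M : ℝ) ^ d) +
        C₁ ^ 2 * CI * (ξ * (M : ℝ) ^ d) := by ring
      rw [e2]
      linarith only [h10, h12, h13]
  refine (measure_mono hsub).trans ?_
  refine (hU d M D v (adm_mono hAdm (min_le_left _ _)) (by rw [hv, hDT])).trans ?_
  apply ENNReal.ofReal_le_ofReal
  -- the numbers
  obtain ⟨ℓ, hℓ⟩ : ∃ ℓ, ℓ = 1 + Real.log (D.w / D.η) := ⟨_, rfl⟩
  rw [← hℓ]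
  have hw0 : D.η ≤ D.w := by
    unfold Dat.w Dat.kp
    have h1 := hAdm.hT.1
    have h2 := hAdm.hm.1
    have : 0 ≤ (D.T - 0) * D.m.im := mul_nonneg (by linarith only [hDT, hσ2]) (by linarith only [hc₁, h2])
    linarith only [this]
  have hDw : D.w ≤ 1 := hAdm.hT.2.2.1
  have hℓ1 : 1 ≤ ℓ := by
    rw [hℓ]
    have : 0 ≤ Real.log (D.w / D.η) := Real.log_nonneg (by rw [le_div_iff₀ hη0]; linarith only [hw0])
    linarith only [this]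
  have hsθ0 : 1 ≤ s ^ (-θ) := Real.one_le_rpow_of_pos_of_le_one_of_nonpos hs0 hs1' (by linarith only [hθ])
  have hℓ2 : ℓ ≤ (d + 1) * s ^ (-θ) := by
    rw [hℓ]
    have h1 : Real.log (D.w / D.η) ≤ Real.log (1 / D.η) := by
      apply Real.log_le_log (div_pos (by linarith only [hη0, hw0]) hη0)
      exact div_le_div_of_nonneg_right hDw hη0.le
    have h2 : Real.log (1 / D.η) ≤ d * s ^ (-θ) := by
      have h3 : 1 / D.η ≤ (M : ℝ) ^ d := by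
        rw [div_le_iff₀ hη0]
        have h4 : 1 ≤ s ^ (-ε) := Real.one_le_rpow_of_pos_of_le_one_of_nonpos hs0 hs1'
          (by linarith only [hθ, hθε])
        linarith only [hηM, h4]
      have h5 : Real.log (1 / D.η) ≤ Real.log ((M : ℝ) ^ d) :=
        Real.log_le_log (by positivity) h3
      rw [Real.log_pow] at h5
      have h6 : Real.log M ≤ s ^ (-θ) := by
        rw [Real.log_le_iff_le_exp hMpos]
        exact hM2
      have h7 : (d : ℝ) * Real.log M ≤ d * s ^ (-θ) :=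
        mul_le_mul_of_nonneg_left h6 (by linarith only [hε1, hθ, hθε, hd3])
      linarith only [h5, h7]
    have h8 : (d + 1) * s ^ (-θ) = d * s ^ (-θ) + s ^ (-θ) := by ring
    rw [h8]
    linarith only [hsθ0, h1, h2]
  have hsi : 1 ≤ 1 / s := by rw [le_div_iff₀ hs0]; linarith only [hε1, hθ, hθε, hcI4, hc1]
  have haN : CU * D.aN * ℓ ≤ 1 := by
    have hsθ := Real.rpow_nonneg hs0.le (4 * θ)
    have h1 : CU * D.aN * ℓ ≤ CU * (CI * s ^ (4 * θ)) * ((d + 1) * s ^ (-θ)) := by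
      have h2 : CU * D.aN ≤ CU * (CI * s ^ (4 * θ)) :=
        mul_le_mul_of_nonneg_left hDa (by linarith only [hε1, hθ, hθε, hCU])
      calc CU * D.aN * ℓ ≤ CU * (CI * s ^ (4 * θ)) * ℓ :=
            mul_le_mul_of_nonneg_right h2 (by linarith only [hε1, hθ, hθε, hℓ1])
        _ ≤ _ := mul_le_mul_of_nonneg_left hℓ2 (by positivity)
    have h3 : CU * (CI * s ^ (4 * θ)) * ((d + 1) * s ^ (-θ)) =
        (d + 1) * CU * CI * s ^ (3 * θ) := by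
      have e : s ^ (3 * θ) = s ^ (4 * θ) * s ^ (-θ) := by
        rw [← Real.rpow_add hs0]
        congr 1
        ring
      rw [e]
      ring
    linarith only [hn1, h1, h3]
  have hexp : Real.exp (CU * D.aN * ℓ) ≤ 3 := by
    refine (Real.exp_le_exp.2 haN).trans ?_
    have := Real.exp_one_lt_d9
    linarith only [hε1, hθ, hθε, this]
  have hsθ1 : s ^ (4 * θ) ≤ 1 := Real.rpow_le_one hs0.le hs1' (by linarith only [hθ])
  have hp1 : (D.p : ℝ) ≤ 1 / s := by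
    have h1 : s ^ (-1 : ℝ) = 1 / s := by rw [Real.rpow_neg_one, one_div]
    rwa [h1] at hDp
  have hw1 : 0 < D.w := by linarith only [hη0, hw0]
  have hδ0 := hAdm.hδ.1
  have he0 : 0 ≤ D.e₀ - 1 := by
    have h1 := hAdm.he.1
    have h2 := hAdm.he.2.1
    linarith only [h1, h2]
  have he1 : 0 < D.e₁ := by
    have h1 := hAdm.he.1
    linarith only [hε1, hθ, hθε, h1]
  obtain ⟨-, -, hL0, hN0, hπ0⟩ := hAdm.hj
  have hL0' : 0 < D.L₀ := by linarith only [hε1, hθ, hθε, hL0]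
  have hN0' : 0 < D.N := by linarith only [hε1, hθ, hθε, hN0]
  have haN0 : 0 ≤ D.aN := by
    unfold Dat.aN Dat.ch Dat.h
    positivity
  have haN2 : 1 + D.aN + D.p ≤ (2 + CI) * (1 / s) := by
    have h1 : D.aN ≤ CI := hDa.trans (mul_le_of_le_one_right hCI0.le hsθ1)
    have h2 : CI ≤ CI * (1 / s) := le_mul_of_one_le_right hCI0.le hsi
    linarith only [h1, h2, hsi, hp1]
  have hℓ3 : ℓ ≤ (d + 1) * (1 / s) := by
    have h1 : s ^ (-θ) ≤ s ^ (-1 : ℝ) :=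
      Real.rpow_le_rpow_of_exponent_ge hs0 hs1' (by linarith only [hε1, hθ, hθε])
    have h2 : s ^ (-1 : ℝ) = 1 / s := by rw [Real.rpow_neg_one, one_div]
    rw [h2] at h1
    exact hℓ2.trans (mul_le_mul_of_nonneg_left h1 (by positivity))
  have hbN0 : 0 ≤ D.bN := by
    unfold Dat.bN
    positivity
  have hsi0 : 0 < 1 / s := by positivity
  have hmid : CU * (1 + D.aN + D.p) * ℓ * D.bN ≤
      CU * ((2 + CI) * (1 / s)) * ((d + 1) * (1 / s)) * Real.exp (-(s ^ (-(4 * θ)))) := by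
    apply mul_le_mul _ hDb hbN0 (by positivity)
    apply mul_le_mul _ hℓ3 (by linarith only [hε1, hθ, hθε, hℓ1]) (by positivity)
    exact mul_le_mul_of_nonneg_left haN2 hCU0.le
  have hmid0 : 0 ≤ CU * (1 + D.aN + D.p) * ℓ * D.bN := by positivity
  -- the exponentials
  have hy0 : 0 < s ^ (-(2 * θ)) := Real.rpow_pos_of_pos hs0 _
  have hyx : s ^ (-(4 * θ)) = s ^ (-(2 * θ)) * s ^ (-(2 * θ)) := by
    rw [← Real.rpow_add hs0]
    congr 1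
    ring
  have hy1 : 8 / 7 ≤ s ^ (-(2 * θ)) := by
    rw [one_mul] at hn2
    have h1 : s ^ (2 * θ) * s ^ (-(2 * θ)) = 1 := by
      rw [← Real.rpow_add hs0, add_neg_cancel, Real.rpow_zero]
    have h2 := mul_le_mul_of_nonneg_right hn2 hy0.le
    linarith only [h1, h2]
  have hee : Real.exp (-(s ^ (-(4 * θ)))) ≤
      Real.exp (-(s ^ (-(4 * θ)) / 8)) * Real.exp (-(s ^ (-(2 * θ)))) := by
    rw [← Real.exp_add]
    apply Real.exp_le_exp.2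
    rw [hyx]
    have h2 := mul_le_mul_of_nonneg_left hy1 hy0.le
    linarith only [h2]
  have hz3 : 0 ≤ 3 * D.zt0 := by
    rw [hDz]
    positivity
  have hfirst : 3 * (CU * (1 + D.aN + D.p) * ℓ * D.bN) ≤ Real.exp (-(s ^ (-(2 * θ)))) := by
    calc 3 * (CU * (1 + D.aN + D.p) * ℓ * D.bN) ≤
        3 * (CU * ((2 + CI) * (1 / s)) * ((d + 1) * (1 / s)) *
          (Real.exp (-(s ^ (-(4 * θ)) / 8)) * Real.exp (-(s ^ (-(2 * θ)))))) := by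
          apply mul_le_mul_of_nonneg_left _ (by norm_num)
          exact hmid.trans (mul_le_mul_of_nonneg_left hee (by positivity))
      _ = (3 * CU * (2 + CI) * (d + 1) * (s ^ (-(2 : ℝ)) * Real.exp (-(s ^ (-(4 * θ)) / 8)))) *
          Real.exp (-(s ^ (-(2 * θ)))) := by
          have e1 : s ^ (-(2 : ℝ)) = (1 / s) * (1 / s) := by
            have e2 : (-(2 : ℝ)) = -1 + -1 := by norm_num
            rw [e2, Real.rpow_add hs0, Real.rpow_neg_one, one_div]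
          rw [e1]
          ring
      _ ≤ 1 * Real.exp (-(s ^ (-(2 * θ)))) :=
          mul_le_mul_of_nonneg_right hn3 (Real.exp_nonneg _)
      _ = Real.exp (-(s ^ (-(2 * θ)))) := one_mul _
  have hlast : 9 / ξ ≤ (9 + C₁ + C₁ ^ 2 * CI) / ξ := by
    apply div_le_div_of_nonneg_right _ hξ0.le
    have : 0 ≤ C₁ ^ 2 * CI := by positivity
    linarith only [hε1, hθ, hθε, hC₁, this]
  calc Real.exp (CU * D.aN * ℓ) * (CU * (1 + D.aN + D.p) * ℓ * D.bN + 3 * D.zt0) ≤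
      3 * (CU * (1 + D.aN + D.p) * ℓ * D.bN + 3 * D.zt0) :=
        mul_le_mul_of_nonneg_right hexp (by linarith only [hmid0, hz3])
    _ = 3 * (CU * (1 + D.aN + D.p) * ℓ * D.bN) + 9 / ξ := by
        rw [hDz]
        ring
    _ ≤ Real.exp (-(s ^ (-(2 * θ)))) + (9 + C₁ + C₁ ^ 2 * CI) / ξ := add_le_add hfirst hlast
    _ = (9 + C₁ + C₁ ^ 2 * CI) / ξ + Real.exp (-(s ^ (-(2 * θ)))) := add_comm _ _

end Pool.Agent.LE.QZ.H13
end
end -- Pool.Agent.Helper13_LQZ.TOF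

section -- Pool.Agent.Helper2_LQZ.UPA

/-!
# Squad LQZ, row UPA: the parts of `φ` and `Xh` (adapted from `Helper56_LQX/UPA.lean`)
-/

set_option autoImplicit false

open MeasureTheory ProbabilityTheory Function Filter

open scoped ENNReal BigOperators Topology NNReal ComplexOrder Matrix

noncomputable section

namespace Pool.Agent.LE.QZ.H2

open Pool.Agent.Anderson hiding box mem_box card_box
open Pool.Agent.Loc Pool.Agent.Mob Pool.Agent.Helper54.Bal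
  Pool.Agent.Helper96.EXP Pool.Agent.BED
open Pool.Agent.LE.MN Pool.Agent.LE.CL Pool.Agent.LE.IR Pool.Agent.LE.QD Pool.Agent.LE.QF

section scale

variable {X : Type} [Fintype X] [DecidableEq X]

omit [DecidableEq X] in
theorem qq_smul (G Θ : Matrix X X ℂ) (τ : ℝ) (φ : X → ℂ) (c : ℂ) [DecidableEq X] :
    QQ G (c • Θ) τ φ = c • QQ G Θ τ φ := by
  unfold QF.QQ
  rw [Matrix.smul_mul, smul_neg]

theorem lph_smul (G Θ : Matrix X X ℂ) (τ : ℝ) (φ μ : X → ℂ) (c : ℂ) (a : X) :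
    lph G (c • Θ) τ φ μ a = c * (τ * (Θ *ᵥ (EB G μ *ᵥ φ)) a) +
      c ^ 2 * ∑ c', (Θ *ᵥ (((τ : ℂ) • dB G c') *ᵥ fun y => QQ G Θ τ φ y c')) a := by
  unfold lph
  rw [qq_smul, Matrix.smul_mulVec, Finset.mul_sum]
  congr 1
  · rw [Pi.smul_apply, smul_eq_mul]
    ring
  · refine Finset.sum_congr rfl fun c' _ => ?_
    have e : (fun y => (c • QQ G Θ τ φ) y c') = c • fun y => QQ G Θ τ φ y c' := by
      funext y
      rfl
    rw [e, Matrix.smul_mulVec, Matrix.mulVec_smul, Matrix.mulVec_smul, Pi.smul_apply,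
      Pi.smul_apply, smul_eq_mul, smul_eq_mul]
    ring

/-- `PhbStmt` with a larger bound for the rows of `Θ` -/
theorem phb_h {C₀ P : ℝ} (hC₀ : 1 ≤ C₀)
    (phb : ∀ (X : Type) [Fintype X] [DecidableEq X]
      (G Θ : Matrix X X ℂ) (μ φ : X → ℂ) (𝒩 : X → Finset X) (κ τ δ N Λ : ℝ),
      GdM G μ 𝒩 κ τ δ N C₀ → (∀ a, ∑ b, ‖Θ a b‖ ≤ C₀) → (∀ a, ‖φ a‖ ≤ δ) →
      (∀ a, ∑ b, KK G a b ^ 2 ≤ Λ) → δ ^ 2 * N + δ ^ 4 / κ ≤ Λ →
        (∀ a, ∑ c, ‖QQ G Θ τ φ a c‖ ^ 2 ≤ P * Λ) ∧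
        ∀ a, ‖lph G Θ τ φ μ a‖ ≤ P * (δ ^ 2 / κ + Real.sqrt (Λ / κ)))
    (G Θ : Matrix X X ℂ) (μ φ : X → ℂ) (𝒩 : X → Finset X) (κ τ δ N Λ h : ℝ)
    (hG : GdM G μ 𝒩 κ τ δ N C₀) (hh : 1 ≤ h) (hT : ∀ a, ∑ b, ‖Θ a b‖ ≤ h)
    (hφ : ∀ a, ‖φ a‖ ≤ δ) (hL : ∀ a, ∑ b, KK G a b ^ 2 ≤ Λ)
    (hΛ : δ ^ 2 * N + δ ^ 4 / κ ≤ Λ) :
    (∀ a, ∑ c, ‖QQ G Θ τ φ a c‖ ^ 2 ≤ h ^ 2 * (P * Λ)) ∧
      ∀ a, ‖lph G Θ τ φ μ a‖ ≤ 2 * h ^ 2 * (P * (δ ^ 2 / κ + Real.sqrt (Λ / κ))) := by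
  have h0 : 0 < h := by linarith only [hh]
  have hc0 : ((h : ℝ) : ℂ) ≠ 0 := by exact_mod_cast h0.ne'
  obtain ⟨Θ', hΘ'⟩ : ∃ Θ' : Matrix X X ℂ, Θ' = ((h : ℝ) : ℂ)⁻¹ • Θ := ⟨_, rfl⟩
  have hΘ : Θ = ((h : ℝ) : ℂ) • Θ' := by
    rw [hΘ', smul_smul, mul_inv_cancel₀ hc0, one_smul]
  have hrow : ∀ a, ∑ b, ‖Θ' a b‖ ≤ C₀ := fun a => by
    have e : ∀ b, ‖Θ' a b‖ = h⁻¹ * ‖Θ a b‖ := fun b => by
      rw [hΘ', Matrix.smul_apply, norm_smul, norm_inv, Complex.norm_real,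
        Real.norm_of_nonneg h0.le]
    simp only [e]
    rw [← Finset.mul_sum]
    have h1 : h⁻¹ * ∑ b, ‖Θ a b‖ ≤ h⁻¹ * h := mul_le_mul_of_nonneg_left (hT a) (by positivity)
    rw [inv_mul_cancel₀ h0.ne'] at h1
    linarith only [hC₀, h1]
  have hrow2 : ∀ a, ∑ b, ‖((-1 : ℂ) • Θ') a b‖ ≤ C₀ := fun a => by
    have e : ∀ b, ‖((-1 : ℂ) • Θ') a b‖ = ‖Θ' a b‖ := fun b => by
      rw [Matrix.smul_apply, norm_smul, norm_neg, norm_one, one_mul]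
    simp only [e]
    exact hrow a
  obtain ⟨q1, l1⟩ := phb X G Θ' μ φ 𝒩 κ τ δ N Λ hG hrow hφ hL hΛ
  obtain ⟨-, l2⟩ := phb X G ((-1 : ℂ) • Θ') μ φ 𝒩 κ τ δ N Λ hG hrow2 hφ hL hΛ
  constructor
  · intro a
    have e : ∀ c, ‖QQ G Θ τ φ a c‖ ^ 2 = h ^ 2 * ‖QQ G Θ' τ φ a c‖ ^ 2 := fun c => by
      rw [hΘ, qq_smul, Matrix.smul_apply, norm_smul, Complex.norm_real,
        Real.norm_of_nonneg h0.le, mul_pow]
    simp only [e]
    rw [← Finset.mul_sum]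
    exact mul_le_mul_of_nonneg_left (q1 a) (by positivity)
  · intro a
    obtain ⟨A, hA⟩ : ∃ A : ℂ, A = τ * (Θ' *ᵥ (EB G μ *ᵥ φ)) a := ⟨_, rfl⟩
    obtain ⟨B, hB⟩ : ∃ B : ℂ, B = ∑ c', (Θ' *ᵥ (((τ : ℂ) • dB G c') *ᵥ
      fun y => QQ G Θ' τ φ y c')) a := ⟨_, rfl⟩
    obtain ⟨b, hb⟩ : ∃ b : ℝ, b = P * (δ ^ 2 / κ + Real.sqrt (Λ / κ)) := ⟨_, rfl⟩
    have e1 : lph G Θ' τ φ μ a = A + B := by
      have := lph_smul G Θ' τ φ μ 1 a
      rw [one_smul, one_mul, one_pow, one_mul, ← hA, ← hB] at this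
      exact this
    have e2 : lph G ((-1 : ℂ) • Θ') τ φ μ a = -A + B := by
      rw [lph_smul, ← hA, ← hB]
      ring
    have e3 : lph G Θ τ φ μ a = h * A + h ^ 2 * B := by
      rw [hΘ, lph_smul, ← hA, ← hB]
    have n1 := l1 a
    have n2' := l2 a
    rw [← hb] at n1 n2'
    rw [e1] at n1
    rw [e2] at n2'
    have hA1 : ‖A‖ ≤ b := by
      have e : A = (1 / 2 : ℂ) * ((A + B) - (-A + B)) := by ring
      have h3 : ‖A‖ ≤ 1 / 2 * (‖A + B‖ + ‖-A + B‖) := by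
        rw [e, norm_mul]
        have e4 : ‖(1 / 2 : ℂ)‖ = 1 / 2 := by norm_num
        rw [e4]
        have e5 := norm_sub_le (A + B) (-A + B)
        have e6 : (1 / 2 : ℂ) * ((A + B) - (-A + B)) = A := by ring
        simp only [e6]
        linarith only [e5]
      linarith only [n1, n2', h3]
    have hB1 : ‖B‖ ≤ b := by
      have h3 : ‖B‖ ≤ 1 / 2 * (‖A + B‖ + ‖-A + B‖) := by
        have e5 := norm_add_le (A + B) (-A + B)
        have e6 : (A + B) + (-A + B) = 2 * B := by ring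
        rw [e6, norm_mul, Complex.norm_two] at e5
        linarith
      linarith only [n1, n2', h3]
    have hb0 : 0 ≤ b := (norm_nonneg _).trans hA1
    rw [e3, ← hb]
    have h4 : ‖(h : ℂ) * A + (h : ℂ) ^ 2 * B‖ ≤ h * ‖A‖ + h ^ 2 * ‖B‖ := by
      refine (norm_add_le _ _).trans ?_
      rw [norm_mul, norm_mul, norm_pow, Complex.norm_real, Real.norm_of_nonneg h0.le]
    have h5 : h * ‖A‖ ≤ h ^ 2 * b := by
      have h6 : h * ‖A‖ ≤ h * b := mul_le_mul_of_nonneg_left hA1 h0.le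
      have h7 : h * b ≤ h ^ 2 * b := by
        apply mul_le_mul_of_nonneg_right _ hb0
        nlinarith only [hh]
      linarith only [h6, h7]
    have h6 : h ^ 2 * ‖B‖ ≤ h ^ 2 * b := mul_le_mul_of_nonneg_left hB1 (by positivity)
    linarith only [h4, h5, h6]

end scale

variable {d M : ℕ} [NeZero M]

theorem cardT : (Fintype.card (Tor d M) : ℝ) = (M : ℝ) ^ d := by
  have h : Fintype.card (Tor d M) = M ^ d := by
    simp [Tor, ZMod.card]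
  rw [h]
  push_cast
  rfl

/-- the constants at a point of the flow -/
theorem ls_bd (D : Dat d M) {c₁ C₁ c₀ κ t : ℝ} (hA : Adm D c₁ C₁ c₀)
    (hκ : κ = D.kp t) (h1 : D.η ≤ κ) (h2 : κ ≤ D.w) (hδ : D.δ ≤ 1) :
    κ * D.Ls t ≤ D.ch ∧ D.δ ^ 2 * D.N + D.δ ^ 4 / κ ≤ D.Ls t := by
  have hη : 0 < D.η := hA.hT.2.1
  have hκ0 : 0 < κ := hη.trans_le h1
  obtain ⟨-, -, hL, hN, hπ⟩ := hA.hj
  have hδ0 := hA.hδ.1
  have hLs : D.Ls t = D.L₀ * (D.N + D.π₀ / κ + D.δ ^ 4 / κ) := by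
    rw [hκ]
    rfl
  constructor
  · have e1 : κ * D.Ls t = D.L₀ * (D.N * κ + D.π₀ + D.δ ^ 4) := by
      rw [hLs]
      field_simp
    rw [e1]
    unfold Dat.ch
    apply mul_le_mul_of_nonneg_left _ (by linarith only [hL])
    have := mul_le_mul_of_nonneg_left h2 (by linarith : (0 : ℝ) ≤ D.N)
    linarith only [this]
  · rw [hLs]
    have e2 : D.δ ^ 2 * D.N ≤ D.N := by
      have : D.δ ^ 2 ≤ 1 := pow_le_one₀ hδ0.le hδ
      nlinarith only [hN, this]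
    have e3 : 0 ≤ D.π₀ / κ := by positivity
    have e4 : 0 ≤ D.δ ^ 4 / κ := by positivity
    have e5 : D.N + D.π₀ / κ + D.δ ^ 4 / κ ≤ D.L₀ * (D.N + D.π₀ / κ + D.δ ^ 4 / κ) :=
      le_mul_of_one_le_left (by linarith only [hN, e3, e4]) hL
    linarith only [e2, e3, e5]

/-- the rate -/
theorem rate (D : Dat d M) {c₁ C₁ c₀ κ t Λ K ℓ γ : ℝ} (hA : Adm D c₁ C₁ c₀)
    (hκ : κ = D.kp t) (h1 : D.η ≤ κ) (h2 : κ ≤ D.w) (hΛ : κ * Λ ≤ D.ch) (hΛ0 : 0 ≤ Λ)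
    (hK : 0 ≤ K) (hℓ : ℓ ≤ K * (D.h ^ 2 * (D.δ ^ 2 / κ + Real.sqrt (Λ / κ)))) (hγ : γ ≤ K * (D.h ^ 4 * Λ)) :
    4 * D.j * ℓ / D.δ + 8 * D.j ^ 2 * γ / D.δ ^ 2 ≤ 8 * K * D.aN / κ := by
  have hη : 0 < D.η := hA.hT.2.1
  have hκ0 : 0 < κ := hη.trans_le h1
  obtain ⟨-, -, hL, hN, hπ⟩ := hA.hj
  obtain ⟨hδ0, -⟩ := hA.hδ
  have hw : 0 < D.w := hκ0.trans_le h2
  have he : 0 < D.e₀ - 1 := by linarith only [hA.he.1, hA.he.2.1]
  have hch : 0 ≤ D.ch := (mul_nonneg hκ0.le hΛ0).trans hΛ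
  have hj : (0 : ℝ) ≤ D.j := Nat.cast_nonneg _
  have hh : 0 ≤ D.h := by
    unfold Dat.h
    positivity
  have hs : Real.sqrt (Λ / κ) ≤ Real.sqrt D.ch / κ := by
    have e : Real.sqrt D.ch / κ = Real.sqrt (D.ch / κ ^ 2) := by
      rw [Real.sqrt_div hch, Real.sqrt_sq hκ0.le]
    rw [e]
    apply Real.sqrt_le_sqrt
    rw [div_le_div_iff₀ hκ0 (by positivity)]
    nlinarith only [h1, hΛ, hη]
  have hΛ' : Λ ≤ D.ch / κ := by
    rw [le_div_iff₀ hκ0]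
    linarith only [hΛ]
  have e1 : 4 * D.j * ℓ / D.δ ≤ 4 * K * (D.j * (D.h ^ 2 * (D.δ + Real.sqrt D.ch / D.δ))) / κ := by
    have e2 : ℓ ≤ K * (D.h ^ 2 * (D.δ ^ 2 / κ + Real.sqrt D.ch / κ)) :=
      hℓ.trans (mul_le_mul_of_nonneg_left
        (mul_le_mul_of_nonneg_left (by linarith only [hs]) (by positivity)) hK)
    have e3 : 4 * D.j * ℓ / D.δ ≤
        4 * D.j * (K * (D.h ^ 2 * (D.δ ^ 2 / κ + Real.sqrt D.ch / κ))) / D.δ := by
      gcongr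
    refine e3.trans (le_of_eq ?_)
    field_simp
  have e4 : 8 * D.j ^ 2 * γ / D.δ ^ 2 ≤ 8 * K * (D.j ^ 2 * (D.h ^ 4 * (D.ch / D.δ ^ 2))) / κ := by
    have e2 : γ ≤ K * (D.h ^ 4 * (D.ch / κ)) := hγ.trans (mul_le_mul_of_nonneg_left
      (mul_le_mul_of_nonneg_left hΛ' (by positivity)) hK)
    have e3 : 8 * D.j ^ 2 * γ / D.δ ^ 2 ≤ 8 * D.j ^ 2 * (K * (D.h ^ 4 * (D.ch / κ))) / D.δ ^ 2 := by
      gcongr
    refine e3.trans (le_of_eq ?_)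
    field_simp
  have e5 : D.j * (D.h ^ 2 * (D.δ + Real.sqrt D.ch / D.δ)) +
      D.j ^ 2 * (D.h ^ 4 * (D.ch / D.δ ^ 2)) ≤ D.aN := by
    unfold Dat.aN
    have a2 : 0 ≤ D.N * D.w := by positivity
    have a3 : 0 ≤ 1 / Real.sqrt D.L₀ := by positivity
    have a4 : 0 ≤ (D.j : ℝ) ^ 2 * (D.N * D.w + D.δ + 1 / Real.sqrt D.L₀ + (D.e₀ - 1)) := by
      positivity
    have a5 : 0 ≤ D.p * D.δ + D.p ^ 2 * (D.N * D.w + D.δ ^ 2 + D.π₀) := by positivity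
    nlinarith only [a4, a5]
  have e6 : 0 ≤ D.j * (D.h ^ 2 * (D.δ + Real.sqrt D.ch / D.δ)) := by positivity
  have e7 : 0 ≤ (D.j : ℝ) ^ 2 * (D.h ^ 4 * (D.ch / D.δ ^ 2)) := by positivity
  have e8 : 4 * K * (D.j * (D.h ^ 2 * (D.δ + Real.sqrt D.ch / D.δ))) / κ +
      8 * K * (D.j ^ 2 * (D.h ^ 4 * (D.ch / D.δ ^ 2))) / κ ≤ 8 * K * D.aN / κ := by
    rw [← add_div]
    gcongr
    nlinarith only [mul_nonneg hK e6, mul_nonneg hK e7, mul_le_mul_of_nonneg_left e5 hK]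
  linarith only [e1, e4, e8]

/-- UPA -/
theorem upa (jtp : JtpStmt) (jtx : JtxStmt) (phb : PhbStmt) (xhb : XhbStmt) (pwu : PwuStmt)
    (rsj : RsjStmt) : UpaStmt := by
  intro c₁ C₁ C₀ hc₁ hC₁ hC₀
  obtain ⟨P, hP, phb⟩ := phb C₀ hC₀
  obtain ⟨Q, hQ, xhb⟩ := xhb C₀ hC₀
  have hP2 : (1 : ℝ) ≤ P ^ 2 := one_le_pow₀ hP
  have hPQ : (1 : ℝ) ≤ Q * P ^ 2 := one_le_mul_of_one_le_of_one_le hQ hP2
  refine ⟨8 * (16 * Q * P ^ 2), by linarith, ?_⟩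
  intro d M _ D c₀ κ τ q hA hq0 hqT hg
  obtain ⟨hκe, hτe, h1, h2, hτ0, hτ1, hτ2⟩ := hg.hκ
  have hη : 0 < D.η := hA.hT.2.1
  have hκ0 : 0 < κ := hη.trans_le h1
  have hδ0 : 0 < D.δ := hA.hδ.1
  have hδ1 : D.δ ≤ 1 := by
    have h3 := hg.hG.hδ.2.1
    nlinarith only [hC₀, hδ0, h3]
  obtain ⟨hΛ, hΛ2⟩ := ls_bd D hA hκe h1 h2 hδ1
  obtain ⟨Λ, hΛe⟩ : ∃ Λ, Λ = D.Ls q.1 := ⟨_, rfl⟩
  rw [← hΛe] at hΛ hΛ2
  have hN : 0 ≤ D.N := by linarith only [hA.hj.2.2.2.1]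
  have hΛ0 : 0 ≤ Λ := le_trans (by positivity) hΛ2
  have hr := rsj d M D c₁ C₁ c₀ q hc₁ hA (hκe ▸ hκ0)
  have hJ := hr.1
  rw [← hτe] at hJ
  have hY : D.Y q = (τ : ℂ) • BB (D.G q) := by
    rw [hτe]
    rfl
  -- the jets
  have j1 := jtp (Tor d M) q D.G D.ta (D.G q) (D.Th q) D.m τ (D.mu q) hJ rfl
    (hY ▸ hg.hu) (by unfold Dat.Th; rw [hY])
  have hL : ∀ a, ∑ b, KK (D.G q) a b ^ 2 ≤ Λ := fun a => hΛe ▸ hg.hL a
  have hh1 : 1 ≤ D.h := by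
    unfold Dat.h
    have : (0 : ℝ) ≤ D.k := Nat.cast_nonneg _
    linarith only
  obtain ⟨b1, b2⟩ := phb_h hC₀ phb (D.G q) (D.Th q) (D.mu q) (D.ph q) D.nr κ τ D.δ D.N Λ D.h
    hg.hG hh1 hg.hT hg.hφ hL hΛ2
  have hh2 : 1 ≤ D.h ^ 2 := one_le_pow₀ hh1
  have hh4 : D.h ^ 2 ≤ D.h ^ 4 := pow_le_pow_right₀ hh1 (by norm_num)
  have j1' : ∀ a, HJ (fun r => D.ph r a) q (D.ph q a)
      (fun c => QQ (D.G q) (D.Th q) τ (D.ph q) a c)
      (lph (D.G q) (D.Th q) τ (D.ph q) (D.mu q) a) := j1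
  have j2 := jtx (Tor d M) q D.G D.ta (D.G q) D.G0 (QQ (D.G q) (D.Th q) τ (D.ph q)) D.m τ D.ph
    (D.mu q) (D.ph q) (lph (D.G q) (D.Th q) τ (D.ph q) (D.mu q)) hJ rfl j1' hg.hμ
  obtain ⟨Λ', hΛ'⟩ : ∃ Λ', Λ' = 16 * P ^ 2 * (D.h ^ 4 * Λ) := ⟨_, rfl⟩
  have hΛh : Λ ≤ D.h ^ 4 * Λ := le_mul_of_one_le_left hΛ0 (by linarith only [hh2, hh4])
  have hΛh2 : D.h ^ 2 * Λ ≤ D.h ^ 4 * Λ := mul_le_mul_of_nonneg_right hh4 hΛ0
  have hΛh0 : 0 ≤ D.h ^ 4 * Λ := hΛ0.trans hΛh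
  have hΛΛ : Λ ≤ Λ' := by
    rw [hΛ']
    have : D.h ^ 4 * Λ ≤ 16 * P ^ 2 * (D.h ^ 4 * Λ) :=
      le_mul_of_one_le_left hΛh0 (by linarith only [hP2])
    linarith only [hΛh, this]
  have hsq : Real.sqrt (Λ' / κ) = 4 * P * (D.h ^ 2 * Real.sqrt (Λ / κ)) := by
    have e : Λ' / κ = (4 * P * D.h ^ 2) ^ 2 * (Λ / κ) := by
      rw [hΛ']
      ring
    rw [e, Real.sqrt_mul (by positivity), Real.sqrt_sq (by positivity)]
    ring
  have hsq2 : D.δ ^ 2 / κ ≤ Real.sqrt (Λ / κ) := by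
    apply Real.le_sqrt_of_sq_le
    have e : (D.δ ^ 2 / κ) ^ 2 = D.δ ^ 4 / κ / κ := by
      field_simp
    rw [e]
    gcongr
    have : 0 ≤ D.δ ^ 2 * D.N := by positivity
    linarith only [hΛ2, this]
  have hs0 : 0 ≤ Real.sqrt (Λ / κ) := Real.sqrt_nonneg _
  have hd0 : 0 ≤ D.δ ^ 2 / κ := by positivity
  obtain ⟨b3, b4⟩ := xhb (Tor d M) (D.G q) (QQ (D.G q) (D.Th q) τ (D.ph q)) (D.mu q) (D.ph q)
    (lph (D.G q) (D.Th q) τ (D.ph q) (D.mu q)) D.nr κ τ D.δ D.N Λ' hg.hG hg.hφ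
    (fun a => (hL a).trans hΛΛ) (hΛ2.trans hΛΛ)
    (fun a => (b1 a).trans (by
      rw [hΛ']
      have h3 : D.h ^ 2 * (P * Λ) = P * (D.h ^ 2 * Λ) := by ring
      have h4 : P * (D.h ^ 2 * Λ) ≤ P * (D.h ^ 4 * Λ) :=
        mul_le_mul_of_nonneg_left hΛh2 (by linarith only [hP])
      have : P * (D.h ^ 4 * Λ) ≤ P ^ 2 * (D.h ^ 4 * Λ) := by
        apply mul_le_mul_of_nonneg_right _ hΛh0
        nlinarith only [hP, hP2]
      have h5 : 16 * P ^ 2 * (D.h ^ 4 * Λ) ≤ C₀ * (16 * P ^ 2 * (D.h ^ 4 * Λ)) :=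
        le_mul_of_one_le_left (by positivity) hC₀
      have h6 : 0 ≤ P ^ 2 * (D.h ^ 4 * Λ) := by positivity
      linarith only [hΛ0, hΛ', hΛΛ, h4, this, h5]))
    (fun a => (b2 a).trans (by
      rw [hsq]
      have h5 : D.δ ^ 2 / κ + 4 * P * (D.h ^ 2 * Real.sqrt (Λ / κ)) ≤
        C₀ * (D.δ ^ 2 / κ + 4 * P * (D.h ^ 2 * Real.sqrt (Λ / κ))) :=
        le_mul_of_one_le_left (by positivity) hC₀
      have h6 : 2 * D.h ^ 2 * (P * (D.δ ^ 2 / κ + Real.sqrt (Λ / κ))) ≤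
          2 * D.h ^ 2 * (P * (Real.sqrt (Λ / κ) + Real.sqrt (Λ / κ))) := by
        gcongr
      have h7 : 2 * D.h ^ 2 * (P * (Real.sqrt (Λ / κ) + Real.sqrt (Λ / κ))) =
        4 * P * (D.h ^ 2 * Real.sqrt (Λ / κ)) := by ring
      linarith only [hd0, h5, h6]))
  have hℓ0 : ∀ K : ℝ, 0 ≤ K → 0 ≤ K * (D.δ ^ 2 / κ + Real.sqrt (Λ / κ)) := fun K hK =>
    mul_nonneg hK (by linarith only [hs0, hd0])
  have hj1 : 1 ≤ D.j := by linarith only [hA.hj.1]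
  -- `U1`
  obtain ⟨g1, l1, J1, hl1⟩ := pwu (Tor d M) q (Tor d M) (fun a r => D.ph r a) (D.ph q)
    (lph (D.G q) (D.Th q) τ (D.ph q) (D.mu q)) (fun a c => QQ (D.G q) (D.Th q) τ (D.ph q) a c) D.δ
    (2 * D.h ^ 2 * (P * (D.δ ^ 2 / κ + Real.sqrt (Λ / κ)))) (D.h ^ 2 * (P * Λ)) D.j hδ0
    (mul_nonneg (by positivity) (hℓ0 P (by linarith only [hP])))
    (by positivity) hj1 j1' b2 b1
  have J1' : HJ D.U1 q (D.U1 q) g1 l1 := J1
  -- `U2`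
  have eU2 : (fun r => ∑ k : Tor d M × Tor d M, (‖D.Xh r k.1 k.2‖ ^ 2 / D.δ ^ 2) ^ D.j) =
      D.U2 := by
    funext r
    rw [Fintype.sum_prod_type]
    rfl
  obtain ⟨g2, l2, J2, hl2⟩ := pwu (Tor d M) q (Tor d M × Tor d M)
    (fun k r => D.Xh r k.1 k.2) (fun k => D.Xh q k.1 k.2)
    (fun k => lX (D.G q) (QQ (D.G q) (D.Th q) τ (D.ph q)) τ (D.ph q) (D.mu q)
      (lph (D.G q) (D.Th q) τ (D.ph q) (D.mu q)) k.1 k.2)
    (fun k c => dX (D.G q) (QQ (D.G q) (D.Th q) τ (D.ph q)) τ (D.ph q) c k.1 k.2) D.δ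
    (Q * (D.δ ^ 2 / κ + Real.sqrt (Λ' / κ))) (Q * Λ') D.j hδ0
    (mul_nonneg (by linarith only [hQ]) (by rw [hsq]; positivity))
    (mul_nonneg (by linarith only [hQ]) (hΛ0.trans hΛΛ)) hj1
    (fun k => by
      have := j2 k.1 k.2
      rw [hτe] at this
      rw [hτe]
      exact this) (fun k => b4 k.1 k.2) (fun k => b3 k.1 k.2)
  rw [eU2] at J2
  have eU2q : ∑ k : Tor d M × Tor d M, (‖D.Xh q k.1 k.2‖ ^ 2 / D.δ ^ 2) ^ D.j = D.U2 q :=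
    congrFun eU2 q
  rw [eU2q] at J2 hl2
  have hM : (1 : ℝ) ≤ (M : ℝ) ^ d := one_le_pow₀ (by exact_mod_cast Nat.one_le_iff_ne_zero.2 (NeZero.ne M))
  have r1 := rate D (K := 2 * P) (ℓ := 2 * D.h ^ 2 * (P * (D.δ ^ 2 / κ + Real.sqrt (Λ / κ))))
    (γ := D.h ^ 2 * (P * Λ)) hA hκe h1 h2 hΛ hΛ0 (by linarith only [hP]) (le_of_eq (by ring)) (by
      have h3 : D.h ^ 2 * (P * Λ) = P * (D.h ^ 2 * Λ) := by ring
      have h4 : P * (D.h ^ 2 * Λ) ≤ P * (D.h ^ 4 * Λ) :=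
        mul_le_mul_of_nonneg_left hΛh2 (by linarith only [hP])
      have h5 : 0 ≤ P * (D.h ^ 4 * Λ) := by positivity
      have h6 : 2 * P * (D.h ^ 4 * Λ) = 2 * (P * (D.h ^ 4 * Λ)) := by ring
      linarith only [h4, h5])
  have r2 := rate D (K := 16 * Q * P ^ 2) (ℓ := Q * (D.δ ^ 2 / κ + Real.sqrt (Λ' / κ)))
    (γ := Q * Λ') hA hκe h1 h2 hΛ hΛ0 (by positivity) (by
      rw [hsq]
      have e0 : D.δ ^ 2 / κ ≤ D.h ^ 2 * (D.δ ^ 2 / κ) := le_mul_of_one_le_left hd0 hh2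
      have e1 : D.h ^ 2 * (D.δ ^ 2 / κ) ≤ 16 * P ^ 2 * (D.h ^ 2 * (D.δ ^ 2 / κ)) :=
        le_mul_of_one_le_left (by positivity) (by linarith only [hP2])
      have e2 : 4 * P * (D.h ^ 2 * Real.sqrt (Λ / κ)) ≤
          16 * P ^ 2 * (D.h ^ 2 * Real.sqrt (Λ / κ)) := by
        apply mul_le_mul_of_nonneg_right _ (by positivity)
        nlinarith only [hP, hP2]
      have e3 : 16 * Q * P ^ 2 * (D.h ^ 2 * (D.δ ^ 2 / κ + Real.sqrt (Λ / κ))) =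
        Q * (16 * P ^ 2 * (D.h ^ 2 * (D.δ ^ 2 / κ)) +
          16 * P ^ 2 * (D.h ^ 2 * Real.sqrt (Λ / κ))) := by ring
      rw [e3]
      exact mul_le_mul_of_nonneg_left (by linarith only [e0, e1, e2]) (by linarith only [hQ])) (by
      rw [hΛ']
      exact le_of_eq (by ring))
  have hPP : 2 * P ≤ 16 * Q * P ^ 2 := by
    have : P ≤ P ^ 2 := by nlinarith only [hP, hP2]
    have : P ^ 2 ≤ Q * P ^ 2 := le_mul_of_one_le_left (by positivity) hQ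
    linarith
  have haN : 0 ≤ D.aN / κ := by
    have h3 := rate D (K := 1) (ℓ := 0) (γ := 0) hA hκe h1 h2 hΛ hΛ0 zero_le_one
      (by positivity) (by linarith only [hΛ0, hΛh])
    have h4 : 8 * 1 * D.aN / κ = 8 * (D.aN / κ) := by ring
    rw [h4] at h3
    simp only [mul_zero, zero_div, add_zero] at h3
    linarith only [h3]
  have r1' : 4 * D.j * (2 * D.h ^ 2 * (P * (D.δ ^ 2 / κ + Real.sqrt (Λ / κ)))) / D.δ +
      8 * D.j ^ 2 * (D.h ^ 2 * (P * Λ)) / D.δ ^ 2 ≤ 8 * (16 * Q * P ^ 2) * D.aN / κ := by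
    refine r1.trans ?_
    have e1 : 8 * (2 * P) * D.aN / κ = 8 * (2 * P) * (D.aN / κ) := by ring
    have e2 : 8 * (16 * Q * P ^ 2) * D.aN / κ = 8 * (16 * Q * P ^ 2) * (D.aN / κ) := by ring
    rw [e1, e2]
    exact mul_le_mul_of_nonneg_right (by linarith only [hPP]) haN
  refine ⟨J1'.sm, J2.sm, ?_, ?_⟩
  · rw [J1'.ge]
    refine hl1.trans ?_
    have e1 : ∑ k : Tor d M, (‖D.ph q k‖ ^ 2 / D.δ ^ 2) ^ D.j = D.U1 q := rfl
    rw [e1, cardT]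
    have e2 : 0 ≤ D.U1 q := by
      rw [← e1]
      positivity
    have e3 : (M : ℝ) ^ d ≤ ((M : ℝ) ^ d) ^ 2 := by nlinarith only [hM]
    have e4 : (M : ℝ) ^ d * (1 / 4) ^ D.j ≤ ((M : ℝ) ^ d) ^ 2 * (1 / 4) ^ D.j :=
      mul_le_mul_of_nonneg_right e3 (by positivity)
    have e5 : 0 ≤ (M : ℝ) ^ d * (1 / 4) ^ D.j := by positivity
    refine (mul_le_mul_of_nonneg_right r1' (by linarith)).trans ?_
    refine mul_le_mul_of_nonneg_left (by linarith) ?_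
    have e6 : 8 * (16 * Q * P ^ 2) * D.aN / κ = 8 * (16 * Q * P ^ 2) * (D.aN / κ) := by ring
    rw [e6]
    positivity
  · rw [J2.ge]
    refine hl2.trans ?_
    have e1 : ((Fintype.card (Tor d M × Tor d M) : ℕ) : ℝ) = ((M : ℝ) ^ d) ^ 2 := by
      rw [Fintype.card_prod, Nat.cast_mul, cardT, sq]
    rw [e1]
    have e2 : 0 ≤ D.U2 q := by
      rw [← eU2q]
      positivity
    exact mul_le_mul_of_nonneg_right r2 (by positivity)

end Pool.Agent.LE.QZ.H2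
end
end -- Pool.Agent.Helper2_LQZ.UPA
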