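import Pool.Agent.Helper12_MEB.B086

/-!
# Merged copies (generated) of the modules

* `Pool.Agent.Helper90_LQX.EGB`
-/

set_option autoImplicit false

section -- Pool.Agent.Helper90_LQX.EGB

/-!
# EGB: local quasimodes on the lattice
-/

set_option autoImplicit false

open scoped BigOperators Matrix

noncomputable section

namespace Pool.Agent.LE.QX.H90

open Pool.Agent.Anderson hiding box mem_box card_box
open Pool.Agent.Loc hiding nb
open Pool.Agent.BED
open Pool.Agent.LE.QD Pool.Agent.LE.IR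

variable {d M : ℕ}

/-! ### the cutoff -/

/-- the cutoff -/
def ct (L : ℕ) (y : Site d) : ℝ := min 1 (max 0 (2 - (sd 0 y : ℝ) / L))

theorem ct_nonneg (L : ℕ) (y : Site d) : 0 ≤ ct L y :=
  le_min zero_le_one (le_max_left _ _)

theorem ct_le_one (L : ℕ) (y : Site d) : ct L y ≤ 1 := min_le_left _ _

theorem ct_one {L : ℕ} (hL : 1 ≤ L) {y : Site d} (h : sd 0 y ≤ L) : ct L y = 1 := by
  have hL0 : (0 : ℝ) < L := by exact_mod_cast hL
  have h1 : (sd 0 y : ℝ) / L ≤ 1 := by
    rw [div_le_one hL0]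
    exact_mod_cast h
  unfold ct
  rw [max_eq_right (by linarith only [h1]), min_eq_left (by linarith only [h1])]

theorem ct_zero {L : ℕ} (hL : 1 ≤ L) {y : Site d} (h : 2 * L ≤ sd 0 y) : ct L y = 0 := by
  have hL0 : (0 : ℝ) < L := by exact_mod_cast hL
  have h1 : 2 ≤ (sd 0 y : ℝ) / L := by
    rw [le_div_iff₀ hL0]
    exact_mod_cast h
  unfold ct
  rw [max_eq_left (by linarith only [h1]), min_eq_right (by norm_num)]

theorem ct_lip {L : ℕ} (hL : 1 ≤ L) {y y' : Site d} (h : sd y y' ≤ 1) :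
    |ct L y' - ct L y| ≤ 1 / L := by
  have hL0 : (0 : ℝ) < L := by exact_mod_cast hL
  have h1 : (sd 0 y' : ℝ) ≤ sd 0 y + 1 := by
    have := sd_triangle 0 y y'
    exact_mod_cast this.trans (by omega)
  have h2 : (sd 0 y : ℝ) ≤ sd 0 y' + 1 := by
    have h3 := sd_triangle 0 y' y
    rw [sd_comm y' y] at h3
    exact_mod_cast h3.trans (by omega)
  have h3 : (sd 0 y' : ℝ) / L ≤ sd 0 y / L + 1 / L := by
    rw [← add_div]
    gcongr
  have h4 : (sd 0 y : ℝ) / L ≤ sd 0 y' / L + 1 / L := by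
    rw [← add_div]
    gcongr
  have h5 : (0 : ℝ) ≤ 1 / L := by positivity
  unfold ct
  rw [abs_le]
  constructor <;> simp only [min_def, max_def] <;> split_ifs <;> linarith

/-! ### the torus -/

theorem ti_rep' [NeZero M] (x : Tor d M) : ti M 0 (rep x) = x := by
  funext i
  unfold ti rep
  simp only [Pi.zero_apply, sub_zero]
  exact ZMod.coe_valMinAbs _

theorem rep_ti [NeZero M] {y : Site d} {R : ℕ} (hM : 2 * R + 1 ≤ M) (hy : sd 0 y ≤ R) :
    rep (ti M 0 y) = y := by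
  rw [sd_le_iff] at hy
  funext i
  have h1 := hy i
  show (ti M 0 y i).valMinAbs = y i
  rw [ZMod.valMinAbs_spec]
  unfold ti
  simp only [Pi.zero_apply, sub_zero, zero_sub] at h1 ⊢
  rw [abs_neg, abs_le] at h1
  exact ⟨trivial, by omega, by omega⟩

theorem rep_inj [NeZero M] : Function.Injective (rep : Tor d M → Site d) := by
  intro x y h
  rw [← ti_rep' x, h, ti_rep']

theorem ti_add (y : Site d) (i : Fin d) : ti M 0 (y + Pi.single i 1) = ti M 0 y + ev i := by
  funext j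
  unfold ti ev
  simp only [Pi.zero_apply, sub_zero, Pi.add_apply]
  by_cases h : j = i
  · subst h
    simp
  · simp [h]

theorem ti_sub (y : Site d) (i : Fin d) : ti M 0 (y - Pi.single i 1) = ti M 0 y - ev i := by
  have h := ti_add (M := M) (y - Pi.single i 1) i
  rw [sub_add_cancel] at h
  rw [h]
  abel

theorem sd_add (y : Site d) (i : Fin d) : sd y (y + Pi.single i 1) ≤ 1 := by
  rw [sd_le_iff]
  intro j
  by_cases h : j = i
  · subst h
    simp
  · simp [h]

theorem sd_sub (y : Site d) (i : Fin d) : sd y (y - Pi.single i 1) ≤ 1 := by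
  rw [sd_le_iff]
  intro j
  by_cases h : j = i
  · subst h
    simp
  · simp [h]

theorem rep_add [NeZero M] {x : Tor d M} {R : ℕ} (hM : 2 * (R + 1) + 1 ≤ M)
    (hx : sd 0 (rep x) ≤ R) (i : Fin d) : rep (x + ev i) = rep x + Pi.single i 1 := by
  have h1 : x + ev i = ti M 0 (rep x + Pi.single i 1) := by rw [ti_add, ti_rep']
  rw [h1]
  refine rep_ti hM ?_
  have h2 := sd_triangle 0 (rep x) (rep x + Pi.single i 1)
  have h3 := sd_add (rep x) i
  omega

theorem rep_sub [NeZero M] {x : Tor d M} {R : ℕ} (hM : 2 * (R + 1) + 1 ≤ M)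
    (hx : sd 0 (rep x) ≤ R) (i : Fin d) : rep (x - ev i) = rep x - Pi.single i 1 := by
  have h1 : x - ev i = ti M 0 (rep x - Pi.single i 1) := by rw [ti_sub, ti_rep']
  rw [h1]
  refine rep_ti hM ?_
  have h2 := sd_triangle 0 (rep x) (rep x - Pi.single i 1)
  have h3 := sd_sub (rep x) i
  omega

/-- the Hamiltonian -/
theorem hz_mulVec [NeZero M] (W : Tor d M → ℝ) (z : ℂ) (f : Tor d M → ℂ) (x : Tor d M) :
    (hz W z *ᵥ f) x = ∑ i : Fin d, (f (x + ev i) + f (x - ev i)) + ((W x : ℂ) - z) * f x := by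
  unfold hz
  rw [Matrix.add_mulVec, Pi.add_apply, Matrix.mulVec_diagonal]
  congr 1
  unfold Matrix.mulVec dotProduct adj
  simp only [Matrix.map_apply, Matrix.of_apply, Complex.ofReal_sum, Complex.ofReal_add,
    Finset.sum_mul, add_mul]
  rw [Finset.sum_comm]
  refine Finset.sum_congr rfl fun i _ => ?_
  rw [Finset.sum_add_distrib]
  have h1 : ∀ w y : Tor d M, (((if y = w then (1 : ℝ) else 0) : ℝ) : ℂ) * f y =
      if y = w then f y else 0 := by
    intro w y
    split_ifs <;> simp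
  simp only [h1]
  rw [Finset.sum_ite_eq' Finset.univ (x + ev i) f, Finset.sum_ite_eq' Finset.univ (x - ev i) f]
  simp

theorem sum_rep [NeZero M] (f : Site d → ℝ) (hf : ∀ y, 0 ≤ f y) (A : Finset (Site d)) :
    ∑ x : Tor d M, (if rep x ∈ A then f (rep x) else 0) ≤ ∑ y ∈ A, f y := by
  classical
  rw [← Finset.sum_filter]
  rw [← Finset.sum_image (s := Finset.univ.filter fun x : Tor d M => rep x ∈ A) (f := f)
    (g := rep) (fun x _ y _ h => rep_inj h)]
  refine Finset.sum_le_sum_of_subset_of_nonneg ?_ (fun y _ _ => hf y)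
  intro y hy
  obtain ⟨x, hx, rfl⟩ := Finset.mem_image.1 hy
  exact (Finset.mem_filter.1 hx).2

theorem sum_shift (f : Site d → ℝ) (hf : ∀ y, 0 ≤ f y) {A B : Finset (Site d)} (e : Site d)
    (h : ∀ y ∈ A, y + e ∈ B) : ∑ y ∈ A, f (y + e) ≤ ∑ y ∈ B, f y := by
  classical
  rw [← Finset.sum_image (s := A) (f := f) (g := fun y => y + e)
    (fun x _ y _ h => add_right_cancel h)]
  refine Finset.sum_le_sum_of_subset_of_nonneg ?_ (fun y _ _ => hf y)
  intro y hy
  obtain ⟨x, hx, rfl⟩ := Finset.mem_image.1 hy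
  exact h x hx

theorem three (a b c : ℂ) : ‖a + b + c‖ ^ 2 ≤ 4 * ‖a‖ ^ 2 + 2 * ‖b‖ ^ 2 + 4 * ‖c‖ ^ 2 := by
  have h1 : ‖a + b + c‖ ≤ ‖a‖ + ‖b‖ + ‖c‖ := norm_add₃_le
  have h2 := norm_nonneg (a + b + c)
  have h3 : ‖a + b + c‖ ^ 2 ≤ (‖a‖ + ‖b‖ + ‖c‖) ^ 2 := pow_le_pow_left₀ h2 h1 2
  nlinarith [sq_nonneg (‖b‖ - ‖a‖ - ‖c‖), sq_nonneg (‖a‖ - ‖c‖)]

/-- the commutator -/
theorem comm_bound {L : ℕ} (hL : 1 ≤ L) (u : Site d → ℂ) (y : Site d) :
    ‖∑ i : Fin d, (((ct L (y + Pi.single i 1) - ct L y : ℝ) : ℂ) * u (y + Pi.single i 1) +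
      ((ct L (y - Pi.single i 1) - ct L y : ℝ) : ℂ) * u (y - Pi.single i 1))‖ ^ 2 ≤
      2 * d / (L : ℝ) ^ 2 *
        ∑ i : Fin d, (‖u (y + Pi.single i 1)‖ ^ 2 + ‖u (y - Pi.single i 1)‖ ^ 2) := by
  have hL0 : (0 : ℝ) < L := by exact_mod_cast hL
  have h1 : ‖∑ i : Fin d, (((ct L (y + Pi.single i 1) - ct L y : ℝ) : ℂ) * u (y + Pi.single i 1) +
      ((ct L (y - Pi.single i 1) - ct L y : ℝ) : ℂ) * u (y - Pi.single i 1))‖ ≤
      1 / L * ∑ i : Fin d, (‖u (y + Pi.single i 1)‖ + ‖u (y - Pi.single i 1)‖) := by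
    refine (norm_sum_le _ _).trans ?_
    rw [Finset.mul_sum]
    refine Finset.sum_le_sum fun i _ => ?_
    refine (norm_add_le _ _).trans ?_
    rw [norm_mul, norm_mul, Complex.norm_real, Complex.norm_real, Real.norm_eq_abs,
      Real.norm_eq_abs, mul_add]
    have a1 := ct_lip hL (sd_add y i)
    have a2 := ct_lip hL (sd_sub y i)
    gcongr
  have h2 : (∑ i : Fin d, (‖u (y + Pi.single i 1)‖ + ‖u (y - Pi.single i 1)‖)) ^ 2 ≤
      2 * d * ∑ i : Fin d, (‖u (y + Pi.single i 1)‖ ^ 2 + ‖u (y - Pi.single i 1)‖ ^ 2) := by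
    have h3 := sq_sum_le_card_mul_sum_sq (s := (Finset.univ : Finset (Fin d)))
      (f := fun i => ‖u (y + Pi.single i 1)‖ + ‖u (y - Pi.single i 1)‖)
    rw [Finset.card_univ, Fintype.card_fin] at h3
    refine h3.trans ?_
    rw [mul_comm (2 : ℝ) d, mul_assoc]
    refine mul_le_mul_of_nonneg_left ?_ (Nat.cast_nonneg d)
    rw [Finset.mul_sum]
    refine Finset.sum_le_sum fun i _ => ?_
    nlinarith only [sq_nonneg (‖u (y + Pi.single i 1)‖ - ‖u (y - Pi.single i 1)‖)]
  have h4 : ‖∑ i : Fin d, (((ct L (y + Pi.single i 1) - ct L y : ℝ) : ℂ) *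
      u (y + Pi.single i 1) +
      ((ct L (y - Pi.single i 1) - ct L y : ℝ) : ℂ) * u (y - Pi.single i 1))‖ ^ 2 ≤
      (1 / L * ∑ i : Fin d, (‖u (y + Pi.single i 1)‖ + ‖u (y - Pi.single i 1)‖)) ^ 2 :=
    pow_le_pow_left₀ (norm_nonneg _) h1 2
  refine h4.trans ?_
  rw [mul_pow]
  calc (1 / (L : ℝ)) ^ 2 * (∑ i : Fin d, (‖u (y + Pi.single i 1)‖ + ‖u (y - Pi.single i 1)‖)) ^ 2
      ≤ (1 / (L : ℝ)) ^ 2 * (2 * d * ∑ i : Fin d, (‖u (y + Pi.single i 1)‖ ^ 2 +
        ‖u (y - Pi.single i 1)‖ ^ 2)) := by gcongr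
    _ = _ := by
        rw [div_pow, one_pow]
        ring

theorem egb (hEGA : EgaStmt) : EgbStmt := by
  classical
  intro d hd M _ L n V E E₀ η B S u C hη hL hM hηL hE hmss hS hq hC hcard
  have hL0 : (0 : ℝ) < L := by exact_mod_cast hL
  have hS0 : 0 ≤ S := (Finset.sum_nonneg fun x _ => by positivity).trans hS
  obtain ⟨v, hv⟩ : ∃ v : Tor d M → ℂ, v = fun x => (ct L (rep x) : ℂ) * u (rep x) := ⟨_, rfl⟩
  obtain ⟨W, hW⟩ : ∃ W : Tor d M → ℝ, W = fun x => V (0 + rep x) := ⟨_, rfl⟩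
  have hvx : ∀ x, v x = (ct L (rep x) : ℂ) * u (rep x) := fun x => by rw [hv]
  have hWx : ∀ x, W x = V (rep x) := fun x => by rw [hW]; simp only [zero_add]
  -- the norm of `v`
  have hvn : ∀ x, ‖v x‖ ^ 2 ≤ if rep x ∈ box 0 (2 * L + 1) then ‖u (rep x)‖ ^ 2 else 0 := by
    intro x
    rw [hvx, norm_mul, Complex.norm_real, Real.norm_eq_abs, abs_of_nonneg (ct_nonneg L _)]
    split_ifs with h
    · have h1 := ct_le_one L (rep x)
      have h2 := ct_nonneg L (rep x)
      rw [mul_pow]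
      have h3 : ct L (rep x) ^ 2 ≤ 1 := by nlinarith only [h1, h2]
      nlinarith only [sq_nonneg ‖u (rep x)‖, h3]
    · rw [mem_box, not_le] at h
      rw [ct_zero hL (by omega)]
      simp
  have hn2v : n2 v ≤ S := by
    unfold n2
    refine (Finset.sum_le_sum fun x _ => hvn x).trans ?_
    exact (sum_rep (fun y => ‖u y‖ ^ 2) (fun y => by positivity) _).trans hS
  -- the bound for the image of `v`
  obtain ⟨F, hF⟩ : ∃ F : Site d → ℝ, F = fun y =>
    4 * ‖nc u y + ((V y - E : ℝ) : ℂ) * u y‖ ^ 2 +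
    2 * (2 * d / (L : ℝ) ^ 2 *
        ∑ i : Fin d, (‖u (y + Pi.single i 1)‖ ^ 2 + ‖u (y - Pi.single i 1)‖ ^ 2)) +
    4 * ((η / 4) ^ 2 * ‖u y‖ ^ 2) := ⟨_, rfl⟩
  have hF0 : ∀ y, 0 ≤ F y := by
    intro y
    rw [hF]
    positivity
  have hpt : ∀ x, ‖(hz W (E₀ : ℂ) *ᵥ v) x‖ ^ 2 ≤ if rep x ∈ box 0 (2 * L) then F (rep x) else 0 := by
    intro x
    rw [hz_mulVec]
    split_ifs with h
    · rw [mem_box] at h
      have e1 : ∀ i, rep (x + ev i) = rep x + Pi.single i 1 := rep_add (R := 2 * L) (by omega) h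
      have e2 : ∀ i, rep (x - ev i) = rep x - Pi.single i 1 := rep_sub (R := 2 * L) (by omega) h
      obtain ⟨y, hy⟩ : ∃ y, y = rep x := ⟨_, rfl⟩
      have e3 : ∑ i : Fin d, (v (x + ev i) + v (x - ev i)) + ((W x : ℂ) - (E₀ : ℂ)) * v x =
          (ct L y : ℂ) * (nc u y + ((V y - E : ℝ) : ℂ) * u y) +
          (∑ i : Fin d, (((ct L (y + Pi.single i 1) - ct L y : ℝ) : ℂ) * u (y + Pi.single i 1) +
            ((ct L (y - Pi.single i 1) - ct L y : ℝ) : ℂ) * u (y - Pi.single i 1))) +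
          ((E - E₀ : ℝ) : ℂ) * ((ct L y : ℂ) * u y) := by
        rw [hvx x, hWx x, ← hy]
        unfold nc
        rw [mul_add, Finset.mul_sum]
        have e4 : ∀ i, v (x + ev i) + v (x - ev i) =
            (ct L y : ℂ) * (u (y + Pi.single i 1) + u (y - Pi.single i 1)) +
            (((ct L (y + Pi.single i 1) - ct L y : ℝ) : ℂ) * u (y + Pi.single i 1) +
            ((ct L (y - Pi.single i 1) - ct L y : ℝ) : ℂ) * u (y - Pi.single i 1)) := by
          intro i
          rw [hvx, hvx, e1, e2, ← hy]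
          push_cast
          ring
        rw [Finset.sum_congr rfl fun i _ => e4 i, Finset.sum_add_distrib]
        push_cast
        ring
      rw [e3]
      refine (three _ _ _).trans ?_
      have c0 := ct_nonneg L y
      have c1 := ct_le_one L y
      have c2 : ct L y ^ 2 ≤ 1 := by nlinarith only [c0, c1]
      have b1 : ‖(ct L y : ℂ) * (nc u y + ((V y - E : ℝ) : ℂ) * u y)‖ ^ 2 ≤
          ‖nc u y + ((V y - E : ℝ) : ℂ) * u y‖ ^ 2 := by
        rw [norm_mul, Complex.norm_real, Real.norm_eq_abs, abs_of_nonneg c0, mul_pow]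
        nlinarith only [sq_nonneg ‖nc u y + ((V y - E : ℝ) : ℂ) * u y‖, c2]
      have b2 := comm_bound hL u y
      have b3 : ‖((E - E₀ : ℝ) : ℂ) * ((ct L y : ℂ) * u y)‖ ^ 2 ≤ (η / 4) ^ 2 * ‖u y‖ ^ 2 := by
        rw [norm_mul, norm_mul, Complex.norm_real, Complex.norm_real, Real.norm_eq_abs,
          Real.norm_eq_abs, abs_of_nonneg c0, mul_pow, mul_pow]
        have h1 : |E - E₀| ^ 2 ≤ (η / 4) ^ 2 := pow_le_pow_left₀ (abs_nonneg _) hE 2
        have h2 : ct L y ^ 2 * ‖u y‖ ^ 2 ≤ ‖u y‖ ^ 2 := by nlinarith only [sq_nonneg ‖u y‖, c2]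
        exact mul_le_mul h1 h2 (by positivity) (by positivity)
      rw [hF, ← hy]
      simp only
      linarith only [b1, b2, b3]
    · rw [mem_box, not_le] at h
      have z0 : v x = 0 := by
        rw [hvx, ct_zero hL (by omega)]
        simp
      have z1 : ∀ x' : Tor d M, (∃ i, x = x' + ev i ∨ x = x' - ev i) → v x' = 0 := by
        rintro x' ⟨i, hi⟩
        rw [hvx]
        by_cases h2 : 2 * L ≤ sd 0 (rep x')
        · rw [ct_zero hL h2]
          simp
        · exfalso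
          rw [not_le] at h2
          have h3 : sd 0 (rep x) ≤ 2 * L := by
            rcases hi with hi | hi
            · rw [hi, rep_add (R := 2 * L) (by omega) (by omega)]
              have h4 := sd_triangle 0 (rep x') (rep x' + Pi.single i 1)
              have h5 := sd_add (rep x') i
              omega
            · rw [hi, rep_sub (R := 2 * L) (by omega) (by omega)]
              have h4 := sd_triangle 0 (rep x') (rep x' - Pi.single i 1)
              have h5 := sd_sub (rep x') i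
              omega
          omega
      have z2 : ∑ i : Fin d, (v (x + ev i) + v (x - ev i)) = 0 := by
        refine Finset.sum_eq_zero fun i _ => ?_
        rw [z1 (x + ev i) ⟨i, Or.inr (by abel)⟩, z1 (x - ev i) ⟨i, Or.inl (by abel)⟩, add_zero]
      rw [z0, z2]
      simp
  have hn2 : n2 (hz W (E₀ : ℂ) *ᵥ v) ≤ η ^ 2 * S := by
    unfold n2
    refine (Finset.sum_le_sum fun x _ => hpt x).trans ?_
    refine (sum_rep F hF0 _).trans ?_
    rw [hF]
    rw [Finset.sum_add_distrib, Finset.sum_add_distrib, ← Finset.mul_sum, ← Finset.mul_sum,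
      ← Finset.mul_sum, ← Finset.mul_sum, ← Finset.mul_sum]
    have s3 : ∑ y ∈ box 0 (2 * L), ‖u y‖ ^ 2 ≤ S := by
      have h1 := sum_shift (fun y => ‖u y‖ ^ 2) (fun y => by positivity) (A := box 0 (2 * L))
        (B := box 0 (2 * L + 1)) (0 : Site d) (by
          intro y hy
          rw [mem_box] at hy ⊢
          rw [add_zero]
          omega)
      simp only [add_zero] at h1
      exact h1.trans hS
    have s2 : ∑ y ∈ box 0 (2 * L), ∑ i : Fin d, (‖u (y + Pi.single i 1)‖ ^ 2 +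
        ‖u (y - Pi.single i 1)‖ ^ 2) ≤ 2 * d * S := by
      rw [Finset.sum_comm]
      have h1 : ∀ i : Fin d, ∑ y ∈ box 0 (2 * L), (‖u (y + Pi.single i 1)‖ ^ 2 +
          ‖u (y - Pi.single i 1)‖ ^ 2) ≤ 2 * S := by
        intro i
        rw [Finset.sum_add_distrib]
        have h2 := sum_shift (fun y => ‖u y‖ ^ 2) (fun y => by positivity) (A := box 0 (2 * L))
          (B := box 0 (2 * L + 1)) (Pi.single i 1 : Site d) (by
            intro y hy
            rw [mem_box] at hy ⊢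
            have h4 := sd_triangle 0 y (y + Pi.single i 1)
            have h5 := sd_add y i
            omega)
        have h3 := sum_shift (fun y => ‖u y‖ ^ 2) (fun y => by positivity) (A := box 0 (2 * L))
          (B := box 0 (2 * L + 1)) (-Pi.single i 1 : Site d) (by
            intro y hy
            rw [mem_box] at hy ⊢
            have h4 := sd_triangle 0 y (y - Pi.single i 1)
            have h5 := sd_sub y i
            rw [← sub_eq_add_neg]
            omega)
        simp only [← sub_eq_add_neg] at h3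
        linarith only [hS, h2, h3]
      calc _ ≤ ∑ _i : Fin d, 2 * S := Finset.sum_le_sum fun i _ => h1 i
        _ = 2 * d * S := by
            rw [Finset.sum_const, Finset.card_univ, Fintype.card_fin, nsmul_eq_mul]
            ring
    have hq2 : 2 * (2 * d / (L : ℝ) ^ 2 * (2 * d * S)) ≤ η ^ 2 / 2 * S := by
      have h1 : (4 * (d : ℝ)) ^ 2 ≤ (η * L) ^ 2 := pow_le_pow_left₀ (by positivity) hηL 2
      have h2 : 2 * (2 * (d : ℝ) / (L : ℝ) ^ 2 * (2 * d)) ≤ η ^ 2 / 2 := by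
        have h3 : 2 * (2 * (d : ℝ) / (L : ℝ) ^ 2 * (2 * d)) = 8 * (d : ℝ) ^ 2 / (L : ℝ) ^ 2 := by
          ring
        rw [h3, div_le_iff₀ (by positivity)]
        nlinarith only [h1]
      calc 2 * (2 * d / (L : ℝ) ^ 2 * (2 * d * S)) =
          2 * (2 * (d : ℝ) / (L : ℝ) ^ 2 * (2 * d)) * S := by ring
        _ ≤ η ^ 2 / 2 * S := by gcongr
    have s2' : 2 * (2 * d / (L : ℝ) ^ 2 * ∑ y ∈ box 0 (2 * L), ∑ i : Fin d,
        (‖u (y + Pi.single i 1)‖ ^ 2 + ‖u (y - Pi.single i 1)‖ ^ 2)) ≤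
        2 * (2 * d / (L : ℝ) ^ 2 * (2 * d * S)) := by gcongr
    have s3' : 4 * ((η / 4) ^ 2 * ∑ y ∈ box 0 (2 * L), ‖u y‖ ^ 2) ≤ 4 * ((η / 4) ^ 2 * S) := by
      gcongr
    nlinarith only [hq, hq2, s2', s3']
  -- conclusion
  have hC' : (C.image (ti M 0)).card ≤ n := Finset.card_image_le.trans hcard
  have hfin := hEGA d M W E₀ η B S (C.image (ti M 0)) v hη (by rw [hW]; exact hmss _ hC') hn2v hn2
  rw [Finset.sum_image] at hfin
  · refine le_trans (le_of_eq ?_) hfin
    refine Finset.sum_congr rfl fun y hy => ?_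
    have h1 := hC hy
    rw [mem_box] at h1
    rw [hvx, rep_ti (R := L) (by omega) h1, ct_one hL h1]
    simp
  · intro y hy y' hy' h
    have h1 := hC hy
    have h2 := hC hy'
    rw [mem_box] at h1 h2
    have h3 := rep_ti (M := M) (R := L) (by omega) h1
    have h4 := rep_ti (M := M) (R := L) (by omega) h2
    rw [← h3, ← h4, h]

end Pool.Agent.LE.QX.H90
end
end -- Pool.Agent.Helper90_LQX.EGB
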