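import Pool.Agent.Helper12_MEB.B086

/-!
# Merged copies (generated) of the modules

* `Pool.Agent.Helper41_LQF.TRI`
* `Pool.Agent.Helper16_LQF.JTL`
* `Pool.Agent.Helper20_LQF.WAB`
* `Pool.Agent.Helper41_LQF.THB`
* `Pool.Agent.Helper65_LQF.PHB`
* `Pool.Agent.Helper69_LQX.UPC`
* `Pool.Agent.Helper85_LQF.JTX`
* `Pool.Agent.Helper87_LQX.UPB`
* `Pool.Agent.Helper8_LQF.JTB`
* `Pool.Agent.Helper91_LQF.XHB`
-/

set_option autoImplicit false

section -- Pool.Agent.Helper41_LQF.TRI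

/-!
Row TRI (squad LQF): a trace inequality.
-/

set_option autoImplicit false

open scoped BigOperators Matrix ComplexOrder

namespace Pool.Agent.LE.QF.H41

theorem pow_pair {X Y : ℝ} (hX : 0 ≤ X) (hY : 0 ≤ Y) (i j : ℕ) :
    X ^ i * Y ^ j + Y ^ i * X ^ j ≤ X ^ (i + j) + Y ^ (i + j) := by
  have h : 0 ≤ (X ^ i - Y ^ i) * (X ^ j - Y ^ j) := by
    rcases le_total X Y with h | h
    · exact mul_nonneg_of_nonpos_of_nonpos (sub_nonpos.2 (pow_le_pow_left₀ hX h i))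
        (sub_nonpos.2 (pow_le_pow_left₀ hX h j))
    · exact mul_nonneg (sub_nonneg.2 (pow_le_pow_left₀ hY h i))
        (sub_nonneg.2 (pow_le_pow_left₀ hY h j))
  rw [pow_add, pow_add]
  nlinarith [h]

theorem real_ineq {n : Type} [Fintype n] (w : n → n → ℝ) (hw : ∀ a b, 0 ≤ w a b)
    (hs : ∀ a b, w a b = w b a) (x : n → ℝ) (i j : ℕ) (hx : ∀ a, |x a| ^ (i + j) = x a ^ (i + j)) :
    ∑ a, ∑ b, w a b * (x b ^ i * x a ^ j) ≤ ∑ a, ∑ b, w a b * x a ^ (i + j) := by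
  have h1 : ∑ a, ∑ b, w a b * (x b ^ i * x a ^ j) = ∑ a, ∑ b, w a b * (x a ^ i * x b ^ j) := by
    rw [Finset.sum_comm]
    refine Finset.sum_congr rfl fun a _ => Finset.sum_congr rfl fun b _ => ?_
    rw [hs b a]
  have h2 : ∑ a, ∑ b, w a b * x a ^ (i + j) = ∑ a, ∑ b, w a b * x b ^ (i + j) := by
    rw [Finset.sum_comm]
    refine Finset.sum_congr rfl fun a _ => Finset.sum_congr rfl fun b _ => ?_
    rw [hs b a]
  have h3 : ∑ a, ∑ b, w a b * (x b ^ i * x a ^ j) + ∑ a, ∑ b, w a b * (x a ^ i * x b ^ j) ≤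
      ∑ a, ∑ b, w a b * x a ^ (i + j) + ∑ a, ∑ b, w a b * x b ^ (i + j) := by
    rw [← Finset.sum_add_distrib, ← Finset.sum_add_distrib]
    refine Finset.sum_le_sum fun a _ => ?_
    rw [← Finset.sum_add_distrib, ← Finset.sum_add_distrib]
    refine Finset.sum_le_sum fun b _ => ?_
    rw [← mul_add, ← mul_add]
    refine mul_le_mul_of_nonneg_left ?_ (hw a b)
    calc x b ^ i * x a ^ j + x a ^ i * x b ^ j
        ≤ |x b| ^ i * |x a| ^ j + |x a| ^ i * |x b| ^ j := by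
          refine add_le_add ?_ ?_
          · rw [← abs_pow, ← abs_pow, ← abs_mul]
            exact le_abs_self _
          · rw [← abs_pow, ← abs_pow, ← abs_mul]
            exact le_abs_self _
      _ = |x a| ^ i * |x b| ^ j + |x b| ^ i * |x a| ^ j := add_comm _ _
      _ ≤ |x a| ^ (i + j) + |x b| ^ (i + j) := pow_pair (abs_nonneg _) (abs_nonneg _) i j
      _ = x a ^ (i + j) + x b ^ (i + j) := by rw [hx a, hx b]
  rw [← h1, ← h2] at h3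
  linarith

theorem tri : TriStmt := by
  intro 𝕜 _ n _ _ v g k hv hg hk
  obtain ⟨U, hU⟩ : ∃ U : Matrix n n 𝕜, U = (hv.eigenvectorUnitary : Matrix n n 𝕜) := ⟨_, rfl⟩
  have hUU : Matrix.conjTranspose U * U = 1 := by
    rw [hU]
    exact Unitary.coe_star_mul_self hv.eigenvectorUnitary
  have hUU' : U * Matrix.conjTranspose U = 1 := by
    rw [hU]
    exact Unitary.coe_mul_star_self hv.eigenvectorUnitary
  obtain ⟨x, hx⟩ : ∃ x : n → ℝ, x = hv.eigenvalues := ⟨_, rfl⟩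
  have hvU : v = U * Matrix.diagonal (fun a => ((x a : ℝ) : 𝕜)) * Matrix.conjTranspose U := by
    conv_lhs => rw [hv.spectral_theorem, Unitary.conjStarAlgAut_apply]
    rw [hU, hx]
    rfl
  have hvp : ∀ j : ℕ, v ^ j = U * Matrix.diagonal (fun a => ((x a : ℝ) : 𝕜) ^ j) *
      Matrix.conjTranspose U := by
    intro j
    induction j with
    | zero =>
      simp [hUU']
    | succ j ih =>
      rw [pow_succ, ih]
      conv_lhs => rw [hvU]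
      have e1 : U * Matrix.diagonal (fun a => ((x a : ℝ) : 𝕜) ^ j) * Matrix.conjTranspose U *
          (U * Matrix.diagonal (fun a => ((x a : ℝ) : 𝕜)) * Matrix.conjTranspose U) =
          U * (Matrix.diagonal (fun a => ((x a : ℝ) : 𝕜) ^ j) * (Matrix.conjTranspose U * U) *
            Matrix.diagonal (fun a => ((x a : ℝ) : 𝕜))) * Matrix.conjTranspose U := by
        simp only [Matrix.mul_assoc]
      rw [e1, hUU, Matrix.mul_one, Matrix.diagonal_mul_diagonal]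
      simp only [pow_succ]
  obtain ⟨h, hh⟩ : ∃ h : Matrix n n 𝕜, h = Matrix.conjTranspose U * g * U := ⟨_, rfl⟩
  have hherm : ∀ a b, h b a = (starRingEnd 𝕜) (h a b) := by
    have : Matrix.conjTranspose h = h := by
      rw [hh, Matrix.conjTranspose_mul, Matrix.conjTranspose_mul, Matrix.conjTranspose_conjTranspose,
        hg.eq, Matrix.mul_assoc]
    intro a b
    conv_lhs => rw [← this]
    rfl
  have hnorm : ∀ a b, h a b * h b a = ((‖h a b‖ ^ 2 : ℝ) : 𝕜) := by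
    intro a b
    rw [hherm a b, RCLike.mul_conj]
    push_cast
    rfl
  have hL : ∀ i j : ℕ, RCLike.re (Matrix.trace (g * v ^ i * g * v ^ j)) =
      ∑ a, ∑ b, ‖h a b‖ ^ 2 * (x b ^ i * x a ^ j) := by
    intro i j
    have e1 : Matrix.trace (g * v ^ i * g * v ^ j) =
        Matrix.trace (h * Matrix.diagonal (fun a => ((x a : ℝ) : 𝕜) ^ i) * h *
          Matrix.diagonal (fun a => ((x a : ℝ) : 𝕜) ^ j)) := by
      rw [hvp i, hvp j, hh, ← Matrix.mul_assoc, ← Matrix.mul_assoc (g * _ * g), Matrix.trace_mul_comm]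
      simp only [Matrix.mul_assoc]
    rw [e1]
    unfold Matrix.trace
    rw [map_sum]
    refine Finset.sum_congr rfl fun a _ => ?_
    rw [Matrix.diag_apply, Matrix.mul_diagonal, Matrix.mul_apply, Finset.sum_mul, map_sum]
    refine Finset.sum_congr rfl fun b _ => ?_
    rw [Matrix.mul_diagonal]
    have e2 : h a b * ((x b : ℝ) : 𝕜) ^ i * h b a * ((x a : ℝ) : 𝕜) ^ j =
        (((‖h a b‖ ^ 2 * (x b ^ i * x a ^ j) : ℝ)) : 𝕜) := by
      have : h a b * ((x b : ℝ) : 𝕜) ^ i * h b a * ((x a : ℝ) : 𝕜) ^ j =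
          h a b * h b a * (((x b : ℝ) : 𝕜) ^ i * ((x a : ℝ) : 𝕜) ^ j) := by ring
      rw [this, hnorm a b]
      push_cast
      ring
    rw [e2, RCLike.ofReal_re]
  have hR : RCLike.re (Matrix.trace (v ^ k * (g * g))) = ∑ a, ∑ b, ‖h a b‖ ^ 2 * x a ^ k := by
    have e0 := hL 0 k
    rw [pow_zero, Matrix.mul_one, Matrix.trace_mul_comm] at e0
    rw [e0]
    simp only [pow_zero, one_mul]
  rw [map_sum, hR]
  have hxk : ∀ a, |x a| ^ k = x a ^ k := by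
    intro a
    rcases hk with hk | hk
    · rw [abs_of_nonneg]
      rw [hx]
      exact hk.eigenvalues_nonneg a
    · exact hk.pow_abs _
  calc ∑ i ∈ Finset.range (k + 1), RCLike.re (Matrix.trace (g * v ^ i * g * v ^ (k - i)))
      ≤ ∑ _i ∈ Finset.range (k + 1), ∑ a, ∑ b, ‖h a b‖ ^ 2 * x a ^ k := by
        refine Finset.sum_le_sum fun i hi => ?_
        have hi' : i + (k - i) = k := by
          have := Finset.mem_range.1 hi
          omega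
        rw [hL]
        have := real_ineq (fun a b => ‖h a b‖ ^ 2) (fun a b => by positivity)
          (fun a b => by
            show ‖h a b‖ ^ 2 = ‖h b a‖ ^ 2
            rw [hherm a b, RCLike.norm_conj]) x i (k - i) (by rw [hi']; exact hxk)
        rw [hi'] at this
        exact this
    _ = (k + 1) * ∑ a, ∑ b, ‖h a b‖ ^ 2 * x a ^ k := by
        rw [Finset.sum_const, Finset.card_range, nsmul_eq_mul]
        push_cast
        ring

end Pool.Agent.LE.QF.H41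
end -- Pool.Agent.Helper41_LQF.TRI

section -- Pool.Agent.Helper16_LQF.JTL

set_option autoImplicit false

/-!
# JTL: the jet of `∑ b, K(a, b)²`
-/

noncomputable section

namespace Pool.Agent.LE.QF.H16

open Pool.Agent.LE.QF

variable {X : Type} [Fintype X] [DecidableEq X]

theorem kk_symm (G : Matrix X X ℂ) (hs : ∀ a b, G a b = G b a) (a b : X) : KK G a b = KK G b a := by
  simp only [KK]; rw [hs a b]

theorem gd_symm (G : Matrix X X ℂ) (μ : X → ℂ) (hs : ∀ a b, G a b = G b a) (a b : X) :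
    GD G μ a b = GD G μ b a := by
  have h : ∀ x y, GD G μ x y = ∑ c, G x c * μ c * G c y := by
    intro x y
    unfold GD
    rw [Matrix.mul_apply]
    exact Finset.sum_congr rfl fun c _ => by rw [Matrix.mul_diagonal]
  rw [h, h]
  refine Finset.sum_congr rfl fun c _ => ?_
  rw [hs a c, hs c b]; ring

theorem ek_symm (G : Matrix X X ℂ) (μ : X → ℂ) (hs : ∀ a b, G a b = G b a) (a b : X) :
    EK G μ a b = EK G μ b a := by
  simp only [EK]; rw [hs a b, gd_symm G μ hs a b]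

theorem re_sq (z : ℂ) : (2 * z.re) * (2 * z.re) = 2 * ‖z‖ ^ 2 + 2 * (z ^ 2).re := by
  rw [← Complex.normSq_eq_norm_sq, Complex.normSq_apply, pow_two, Complex.mul_re]; ring

theorem dk_sq (G : Matrix X X ℂ) (a b c : X) :
    dK G c a b * dK G c a b = 2 * (KK G a b * KK G a c * KK G c b) +
      2 * ((starRingEnd ℂ) (BB G a b) * BB G a c * BB G c b).re := by
  have h := re_sq ((starRingEnd ℂ) (G a b) * G a c * G c b)
  have e1 : ‖(starRingEnd ℂ) (G a b) * G a c * G c b‖ ^ 2 = KK G a b * KK G a c * KK G c b := by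
    simp only [KK, norm_mul, RCLike.norm_conj]; ring
  have e2 : ((starRingEnd ℂ) (G a b) * G a c * G c b) ^ 2 =
      (starRingEnd ℂ) (BB G a b) * BB G a c * BB G c b := by
    simp only [BB, map_pow]; ring
  rw [e1, e2] at h
  simp only [dK]
  rw [← h]; ring

theorem jtl (hj : JalStmt) (hb : JtbStmt) : JtlStmt := by
  intro X _ _ q Gm ta G m τ μ hH hμ a
  obtain ⟨-, hK, -, -, -⟩ := hb X q Gm ta G m τ μ hH hμ
  obtain ⟨-, -, hmul, -, -, hsum, -, -⟩ := hj X ℝ q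
  have h1 : ∀ b ∈ (Finset.univ : Finset X), HJ (fun r => KK (Gm r) a b * KK (Gm r) a b) q
      (KK G a b * KK G a b) (fun c => KK G a b * dK G c a b + dK G c a b * KK G a b)
      (KK G a b * (KK G * KK G + EK G μ) a b + (KK G * KK G + EK G μ) a b * KK G a b +
        ∑ c, dK G c a b * dK G c a b) := fun b _ =>
    (hmul _ _ _ _ _ _ _ _ (hK a b) (hK a b)).2.2
  have h2 := hsum X Finset.univ _ _ _ _ h1
  have ef : (fun r => ∑ b, KK (Gm r) a b ^ 2) = fun r => ∑ b, KK (Gm r) a b * KK (Gm r) a b := by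
    funext r; exact Finset.sum_congr rfl fun b _ => pow_two _
  have ev : ∑ b, KK G a b ^ 2 = ∑ b, KK G a b * KK G a b :=
    Finset.sum_congr rfl fun b _ => pow_two _
  have eg : (fun c => 2 * ∑ b, KK G a b * dK G c a b) =
      fun c => ∑ b, (KK G a b * dK G c a b + dK G c a b * KK G a b) := by
    funext c
    rw [Finset.mul_sum]
    exact Finset.sum_congr rfl fun b _ => by ring
  have hs := hH.hs
  have el : lLa G μ a = ∑ b, (KK G a b * (KK G * KK G + EK G μ) a b +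
      (KK G * KK G + EK G μ) a b * KK G a b + ∑ c, dK G c a b * dK G c a b) := by
    have t1 : (KK G * KK G * KK G) a a = ∑ b, (KK G * KK G) a b * KK G a b := by
      rw [Matrix.mul_apply]
      exact Finset.sum_congr rfl fun b _ => by rw [kk_symm G hs b a]
    have t2 : (KK G * EK G μ) a a = ∑ b, KK G a b * EK G μ a b := by
      rw [Matrix.mul_apply]
      exact Finset.sum_congr rfl fun b _ => by rw [ek_symm G μ hs b a]
    have t3 : ∀ b, ∑ c, dK G c a b * dK G c a b = 2 * ((KK G * KK G) a b * KK G a b) +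
        2 * ∑ c, ((starRingEnd ℂ) (BB G a b) * BB G a c * BB G c b).re := by
      intro b
      rw [Matrix.mul_apply, Finset.sum_mul, Finset.mul_sum, Finset.mul_sum, ← Finset.sum_add_distrib]
      exact Finset.sum_congr rfl fun c _ => by rw [dk_sq]; ring
    have t4 : (∑ b, ∑ c, (starRingEnd ℂ) (BB G a b) * BB G a c * BB G c b).re =
        ∑ b, ∑ c, ((starRingEnd ℂ) (BB G a b) * BB G a c * BB G c b).re := by
      rw [Complex.re_sum]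
      exact Finset.sum_congr rfl fun b _ => Complex.re_sum _ _
    unfold lLa
    rw [t1, t2, t4, Finset.mul_sum, Finset.mul_sum, Finset.mul_sum, ← Finset.sum_add_distrib,
      ← Finset.sum_add_distrib]
    refine Finset.sum_congr rfl fun b _ => ?_
    rw [t3 b, Matrix.add_apply]
    ring
  rw [ef, ev, eg, el]
  exact h2

end Pool.Agent.LE.QF.H16
end
end -- Pool.Agent.Helper16_LQF.JTL

section -- Pool.Agent.Helper20_LQF.WAB

set_option autoImplicit false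

open scoped BigOperators Matrix

namespace Pool.Agent.LE.QF.H20

open Pool.Agent.LE.QF Matrix

section

variable {X : Type} [Fintype X] [DecidableEq X]

private theorem qf_dot (A : Matrix X X ℝ) (f : X → ℝ) : qf A f = f ⬝ᵥ (A *ᵥ f) := rfl

private theorem qf_one (f : X → ℝ) : qf (1 : Matrix X X ℝ) f = f ⬝ᵥ f := by
  rw [qf_dot, Matrix.one_mulVec]

private theorem qf_add (A B : Matrix X X ℝ) (f : X → ℝ) : qf (A + B) f = qf A f + qf B f := by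
  rw [qf_dot, qf_dot, qf_dot, Matrix.add_mulVec, dotProduct_add]

private theorem qf_smul (c : ℝ) (A : Matrix X X ℝ) (f : X → ℝ) : qf (c • A) f = c * qf A f := by
  rw [qf_dot, qf_dot, Matrix.smul_mulVec, dotProduct_smul, smul_eq_mul]

private theorem qf_conj (Y C : Matrix X X ℝ) (f : X → ℝ) :
    qf (Cᵀ * Y * C) f = qf Y (C *ᵥ f) := by
  rw [qf_dot, qf_dot, ← Matrix.mulVec_mulVec, ← Matrix.mulVec_mulVec, Matrix.dotProduct_mulVec,
    Matrix.vecMul_transpose]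

private theorem dot_pos {f : X → ℝ} (hf : f ≠ 0) : 0 < f ⬝ᵥ f := by
  have h0 : 0 ≤ f ⬝ᵥ f := Finset.sum_nonneg fun i _ => mul_self_nonneg _
  rcases h0.lt_or_eq with h | h
  · exact h
  · exact absurd (dotProduct_self_eq_zero.mp h.symm) hf

private theorem spec (Y : Matrix X X ℝ) (hs : ∀ a b, Y a b = Y b a) :
    ∃ (V : Matrix X X ℝ) (l : X → ℝ), Vᵀ * V = 1 ∧ V * Vᵀ = 1 ∧ Y = V * diagonal l * Vᵀ := by
  have hY : Y.IsHermitian := by
    ext a b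
    simp only [Matrix.conjTranspose_apply, star_trivial]
    exact hs b a
  refine ⟨(hY.eigenvectorUnitary : Matrix X X ℝ), hY.eigenvalues, ?_, ?_, ?_⟩
  · have h := Unitary.coe_star_mul_self hY.eigenvectorUnitary
    rw [← Matrix.conjTranspose_eq_transpose_of_trivial]
    exact h
  · have h := Unitary.coe_mul_star_self hY.eigenvectorUnitary
    rw [← Matrix.conjTranspose_eq_transpose_of_trivial]
    exact h
  · have h := hY.spectral_theorem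
    rw [Unitary.conjStarAlgAut_apply] at h
    rw [← Matrix.conjTranspose_eq_transpose_of_trivial]
    exact h

private theorem qf_spec {V : Matrix X X ℝ} {l : X → ℝ} (f : X → ℝ) :
    qf (V * diagonal l * Vᵀ) f = ∑ i, l i * (Vᵀ *ᵥ f) i ^ 2 := by
  have h := qf_conj (diagonal l) Vᵀ f
  rw [Matrix.transpose_transpose] at h
  rw [h, qf_dot, dotProduct]
  refine Finset.sum_congr rfl fun i _ => ?_
  rw [Matrix.mulVec_diagonal]
  ring

private theorem dot_spec {V : Matrix X X ℝ} (hV : V * Vᵀ = 1) (f : X → ℝ) :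
    ∑ i, (Vᵀ *ᵥ f) i ^ 2 = f ⬝ᵥ f := by
  have h := qf_conj (1 : Matrix X X ℝ) Vᵀ f
  rw [Matrix.transpose_transpose, Matrix.mul_one, hV, qf_one, qf_one] at h
  rw [h, dotProduct]
  exact Finset.sum_congr rfl fun i _ => sq _

private theorem qf_eig {V : Matrix X X ℝ} {l : X → ℝ} (hV : Vᵀ * V = 1) (i : X) :
    qf (V * diagonal l * Vᵀ) (V *ᵥ Pi.single i 1) = l i := by
  rw [qf_spec, Matrix.mulVec_mulVec, hV, Matrix.one_mulVec]
  rw [Finset.sum_eq_single i]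
  · simp
  · intro j _ hj
    simp [Pi.single_eq_of_ne hj]
  · intro h
    exact absurd (Finset.mem_univ i) h

private theorem dot_eig {V : Matrix X X ℝ} (hV : Vᵀ * V = 1) (i : X) :
    (V *ᵥ Pi.single i 1) ⬝ᵥ (V *ᵥ Pi.single i (1 : ℝ)) = 1 := by
  have h := qf_conj (1 : Matrix X X ℝ) V (Pi.single i 1)
  rw [Matrix.mul_one, hV, qf_one, qf_one] at h
  rw [← h]
  simp

private theorem trace_pow_spec {V : Matrix X X ℝ} {l : X → ℝ} (hV : Vᵀ * V = 1)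
    (hV' : V * Vᵀ = 1) (p : ℕ) : trace ((V * diagonal l * Vᵀ) ^ p) = ∑ i, l i ^ p := by
  have h : (V * diagonal l * Vᵀ) ^ p = V * diagonal (fun i => l i ^ p) * Vᵀ := by
    induction p with
    | zero =>
      simp only [pow_zero]
      rw [show (diagonal fun _ : X => (1 : ℝ)) = 1 from Matrix.diagonal_one, Matrix.mul_one, hV']
    | succ k ih =>
      rw [pow_succ, ih]
      calc V * diagonal (fun i => l i ^ k) * Vᵀ * (V * diagonal l * Vᵀ)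
          = V * diagonal (fun i => l i ^ k) * (Vᵀ * V) * diagonal l * Vᵀ := by
            simp only [Matrix.mul_assoc]
        _ = V * (diagonal (fun i => l i ^ k) * diagonal l) * Vᵀ := by
            rw [hV, Matrix.mul_one, Matrix.mul_assoc V]
        _ = _ := by
            rw [Matrix.diagonal_mul_diagonal]
            simp only [pow_succ]
  rw [h, Matrix.trace_mul_comm, ← Matrix.mul_assoc, hV, Matrix.one_mul, Matrix.trace_diagonal]

private theorem pow_swap (M N : Matrix X X ℝ) (k : ℕ) :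
    (M * N) ^ (k + 1) = M * (N * M) ^ k * N := by
  induction k with
  | zero => simp
  | succ k ih =>
    rw [pow_succ, ih, pow_succ (N * M)]
    simp only [Matrix.mul_assoc]

private theorem trace_swap (M N : Matrix X X ℝ) {p : ℕ} (hp : 1 ≤ p) :
    trace ((M * N) ^ p) = trace ((N * M) ^ p) := by
  obtain ⟨k, rfl⟩ : ∃ k, p = k + 1 := ⟨p - 1, by omega⟩
  rw [pow_swap, Matrix.mul_assoc, Matrix.trace_mul_comm, pow_succ, ← Matrix.mul_assoc]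

/-- factorisation of a positive definite matrix -/
private theorem fac (P : Matrix X X ℝ) (hs : ∀ a b, P a b = P b a)
    (hp : ∀ f : X → ℝ, f ≠ 0 → 0 < qf P f) :
    ∃ C D : Matrix X X ℝ, P = Cᵀ * C ∧ C * D = 1 ∧ D * C = 1 := by
  obtain ⟨V, l, hV, hV', hP⟩ := spec P hs
  have hl : ∀ i, 0 < l i := by
    intro i
    rw [← qf_eig (l := l) hV i, ← hP]
    apply hp
    intro h0
    have h1 := dot_eig hV i
    rw [h0, zero_dotProduct] at h1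
    exact absurd h1 (by norm_num)
  have hsq : ∀ i, 0 < Real.sqrt (l i) := fun i => Real.sqrt_pos.mpr (hl i)
  refine ⟨diagonal (fun i => Real.sqrt (l i)) * Vᵀ, V * diagonal (fun i => (Real.sqrt (l i))⁻¹),
    ?_, ?_, ?_⟩
  · rw [Matrix.transpose_mul, Matrix.transpose_transpose, Matrix.diagonal_transpose]
    calc P = V * diagonal l * Vᵀ := hP
      _ = V * (diagonal (fun i => Real.sqrt (l i)) * diagonal (fun i => Real.sqrt (l i))) * Vᵀ := by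
        rw [Matrix.diagonal_mul_diagonal]
        simp only [Real.mul_self_sqrt (hl _).le]
      _ = _ := by simp only [Matrix.mul_assoc]
  · calc diagonal (fun i => Real.sqrt (l i)) * Vᵀ * (V * diagonal (fun i => (Real.sqrt (l i))⁻¹))
        = diagonal (fun i => Real.sqrt (l i)) * (Vᵀ * V) *
            diagonal (fun i => (Real.sqrt (l i))⁻¹) := by simp only [Matrix.mul_assoc]
      _ = 1 := by
        rw [hV, Matrix.mul_one, Matrix.diagonal_mul_diagonal]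
        simp only [mul_inv_cancel₀ (hsq _).ne', Matrix.diagonal_one]
  · calc V * diagonal (fun i => (Real.sqrt (l i))⁻¹) * (diagonal (fun i => Real.sqrt (l i)) * Vᵀ)
        = V * (diagonal (fun i => (Real.sqrt (l i))⁻¹) * diagonal (fun i => Real.sqrt (l i))) *
            Vᵀ := by simp only [Matrix.mul_assoc]
      _ = 1 := by
        rw [Matrix.diagonal_mul_diagonal]
        simp only [inv_mul_cancel₀ (hsq _).ne', Matrix.diagonal_one]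
        rw [Matrix.mul_one, hV']

private theorem inv_fac {P C D : Matrix X X ℝ} (hP : P = Cᵀ * C) (h1 : C * D = 1)
    (h2 : D * C = 1) :
    P⁻¹ = D * Dᵀ ∧ IsUnit P.det := by
  have h : P * (D * Dᵀ) = 1 := by
    rw [hP]
    calc Cᵀ * C * (D * Dᵀ) = Cᵀ * (C * D) * Dᵀ := by simp only [Matrix.mul_assoc]
      _ = (D * C)ᵀ := by rw [h1, Matrix.mul_one, Matrix.transpose_mul]
      _ = 1 := by rw [h2, Matrix.transpose_one]
  exact ⟨Matrix.inv_eq_right_inv h, Matrix.isUnit_det_of_right_inverse h⟩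

private theorem qf_inv {C D : Matrix X X ℝ} (f : X → ℝ) :
    qf (D * Dᵀ) f = (Dᵀ *ᵥ f) ⬝ᵥ (Dᵀ *ᵥ f) := by
  have h := qf_conj (1 : Matrix X X ℝ) Dᵀ f
  rw [Matrix.transpose_transpose, Matrix.mul_one, qf_one] at h
  exact h

/-- `Y = C Q Cᵀ` -/
private theorem ysym {Q C : Matrix X X ℝ} (hQ : ∀ a b, Q a b = Q b a) :
    ∀ a b, (C * Q * Cᵀ) a b = (C * Q * Cᵀ) b a := by
  have hQt : Qᵀ = Q := by ext a b; exact hQ b a
  have h : (C * Q * Cᵀ)ᵀ = C * Q * Cᵀ := by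
    rw [Matrix.transpose_mul, Matrix.transpose_mul, Matrix.transpose_transpose, hQt,
      Matrix.mul_assoc]
  intro a b
  exact congrFun (congrFun h.symm a) b

private theorem qfY (Q C : Matrix X X ℝ) (f : X → ℝ) :
    qf (C * Q * Cᵀ) f = qf Q (Cᵀ *ᵥ f) := by
  have h := qf_conj Q Cᵀ f
  rwa [Matrix.transpose_transpose] at h

private theorem lem1 {P Q : Matrix X X ℝ} (hPs : ∀ a b, P a b = P b a)
    (hPp : ∀ f : X → ℝ, f ≠ 0 → 0 < qf P f) (hQs : ∀ a b, Q a b = Q b a)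
    (hQ : ∀ f : X → ℝ, 0 ≤ qf Q f) {p : ℕ} (hp : 1 ≤ p) :
    0 ≤ trace ((P * Q) ^ p) ∧ (trace ((P * Q) ^ p) ≤ 1 → ∀ f, qf Q f ≤ qf P⁻¹ f) := by
  obtain ⟨C, D, hP, h1, h2⟩ := fac P hPs hPp
  obtain ⟨hi, -⟩ := inv_fac hP h1 h2
  obtain ⟨V, l, hV, hV', hY⟩ := spec _ (ysym (C := C) hQs)
  have htr : trace ((P * Q) ^ p) = ∑ i, l i ^ p := by
    rw [hP, Matrix.mul_assoc, trace_swap _ _ hp, hY, trace_pow_spec hV hV']
  have hl : ∀ i, 0 ≤ l i := by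
    intro i
    rw [← qf_eig (l := l) hV i, ← hY, qfY]
    exact hQ _
  refine ⟨?_, fun h => ?_⟩
  · rw [htr]
    exact Finset.sum_nonneg fun i _ => pow_nonneg (hl i) p
  · rw [htr] at h
    have hl1 : ∀ i, l i ≤ 1 := by
      intro i
      have h3 : l i ^ p ≤ 1 := le_trans (Finset.single_le_sum (f := fun i => l i ^ p)
        (fun j _ => pow_nonneg (hl j) p) (Finset.mem_univ i)) h
      exact (pow_le_one_iff_of_nonneg (hl i) (by omega)).mp h3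
    intro f
    have h4 : Cᵀ *ᵥ (Dᵀ *ᵥ f) = f := by
      rw [Matrix.mulVec_mulVec, ← Matrix.transpose_mul, h2, Matrix.transpose_one,
        Matrix.one_mulVec]
    have h5 : qf (C * Q * Cᵀ) (Dᵀ *ᵥ f) = qf Q f := by rw [qfY, h4]
    rw [← h5, hi, qf_inv (C := C), hY, qf_spec, ← dot_spec hV']
    refine Finset.sum_le_sum fun i _ => ?_
    have h6 : 0 ≤ (Vᵀ *ᵥ (Dᵀ *ᵥ f)) i ^ 2 := sq_nonneg _
    nlinarith only [hl1 i]

private theorem lem2 {P Q : Matrix X X ℝ} (hPs : ∀ a b, P a b = P b a)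
    (hPp : ∀ f : X → ℝ, 0 ≤ qf P f) (hQs : ∀ a b, Q a b = Q b a)
    (hQ : ∀ f : X → ℝ, f ≠ 0 → 0 < qf Q f) {p : ℕ} (hp : 1 ≤ p) {e : ℝ} (he : 0 < e)
    (h : ∀ f, e * qf P f ≤ qf Q⁻¹ f) :
    trace ((P * Q) ^ p) ≤ Fintype.card X * (1 / e) ^ p := by
  obtain ⟨C, D, hC, h1, h2⟩ := fac Q hQs hQ
  obtain ⟨hi, -⟩ := inv_fac hC h1 h2
  obtain ⟨V, l, hV, hV', hY⟩ := spec _ (ysym (C := C) hPs)
  have htr : trace ((P * Q) ^ p) = ∑ i, l i ^ p := by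
    rw [trace_swap _ _ hp, hC, Matrix.mul_assoc, trace_swap _ _ hp, hY, trace_pow_spec hV hV']
  have hl0 : ∀ i, 0 ≤ l i := by
    intro i
    rw [← qf_eig (l := l) hV i, ← hY, qfY]
    exact hPp _
  have hl : ∀ i, l i ≤ 1 / e := by
    intro i
    have h3 : qf P (Cᵀ *ᵥ (V *ᵥ Pi.single i 1)) = l i := by
      rw [← qfY, hY, qf_eig hV i]
    have h4 := h (Cᵀ *ᵥ (V *ᵥ Pi.single i 1))
    rw [h3, hi, qf_inv (C := C)] at h4
    have h5 : Dᵀ *ᵥ (Cᵀ *ᵥ (V *ᵥ Pi.single i (1 : ℝ))) = V *ᵥ Pi.single i 1 := by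
      rw [Matrix.mulVec_mulVec, ← Matrix.transpose_mul, h1, Matrix.transpose_one,
        Matrix.one_mulVec]
    rw [h5, dot_eig hV i] at h4
    rw [le_div_iff₀ he]
    linarith only [h4]
  rw [htr]
  calc ∑ i, l i ^ p ≤ ∑ _i : X, (1 / e) ^ p :=
        Finset.sum_le_sum fun i _ => pow_le_pow_left₀ (hl0 i) (hl i) p
    _ = _ := by rw [Finset.sum_const, Finset.card_univ, nsmul_eq_mul]

private theorem invpd {P : Matrix X X ℝ} (hPs : ∀ a b, P a b = P b a)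
    (hPp : ∀ f : X → ℝ, f ≠ 0 → 0 < qf P f) :
    (∀ a b, P⁻¹ a b = P⁻¹ b a) ∧ (∀ f : X → ℝ, f ≠ 0 → 0 < qf P⁻¹ f) ∧ IsUnit P.det := by
  obtain ⟨C, D, hC, h1, h2⟩ := fac P hPs hPp
  obtain ⟨hi, hu⟩ := inv_fac hC h1 h2
  refine ⟨?_, ?_, hu⟩
  · have h3 : (P⁻¹)ᵀ = P⁻¹ := by
      rw [hi, Matrix.transpose_mul, Matrix.transpose_transpose]
    intro a b
    exact congrFun (congrFun h3.symm a) b
  · intro f hf
    rw [hi, qf_inv (C := C)]
    apply dot_pos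
    intro h0
    apply hf
    have h4 : Cᵀ *ᵥ (Dᵀ *ᵥ f) = f := by
      rw [Matrix.mulVec_mulVec, ← Matrix.transpose_mul, h2, Matrix.transpose_one,
        Matrix.one_mulVec]
    rw [← h4, h0, Matrix.mulVec_zero]

private theorem qf_P0 (f : X → ℝ) : 0 ≤ qf (P0 X) f := by
  have h : qf (P0 X) f = (Fintype.card X : ℝ)⁻¹ * (∑ a, f a) ^ 2 := by
    rw [qf_dot, dotProduct, sq, Finset.sum_mul, Finset.mul_sum]
    refine Finset.sum_congr rfl fun a _ => ?_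
    rw [Matrix.mulVec, dotProduct]
    simp only [P0]
    rw [← Finset.mul_sum]
    ring
  rw [h]
  positivity

end

theorem wab : WabStmt := by
  intro X _ _ x S e₀ e₁ τ ϖ p hxs hx hSs hS he0 he1 hτ hϖ hp
  obtain ⟨A, hA⟩ : ∃ A : Matrix X X ℝ, A = e₀ • (1 : Matrix X X ℝ) + τ • S := ⟨_, rfl⟩
  obtain ⟨B, hB⟩ : ∃ B : Matrix X X ℝ, B = x + P0 X + ϖ • (1 : Matrix X X ℝ) := ⟨_, rfl⟩
  rw [← hA, ← hB]
  have h1s : ∀ a b : X, (1 : Matrix X X ℝ) a b = (1 : Matrix X X ℝ) b a := by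
    intro a b
    rw [Matrix.one_apply, Matrix.one_apply]
    by_cases h : a = b
    · rw [if_pos h, if_pos h.symm]
    · rw [if_neg h, if_neg (Ne.symm h)]
  have hAs : ∀ a b, A a b = A b a := by
    intro a b
    rw [hA, Matrix.add_apply, Matrix.add_apply, Matrix.smul_apply, Matrix.smul_apply,
      Matrix.smul_apply, Matrix.smul_apply, hSs a b, h1s a b]
  have hBs : ∀ a b, B a b = B b a := by
    intro a b
    rw [hB, Matrix.add_apply, Matrix.add_apply, Matrix.add_apply, Matrix.add_apply,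
      Matrix.smul_apply, Matrix.smul_apply, hxs a b, h1s a b]
    rfl
  have hAp : ∀ f : X → ℝ, f ≠ 0 → 0 < qf A f := by
    intro f hf
    rw [hA, qf_add, qf_smul, qf_smul, qf_one]
    have := mul_nonneg hτ (hS f)
    have := mul_pos he0 (dot_pos hf)
    linarith
  have hBp : ∀ f : X → ℝ, f ≠ 0 → 0 < qf B f := by
    intro f hf
    rw [hB, qf_add, qf_add, qf_smul, qf_one]
    have := hx f
    have := qf_P0 f
    have := mul_pos hϖ (dot_pos hf)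
    linarith
  obtain ⟨hAis, hAip, hAu⟩ := invpd hAs hAp
  obtain ⟨hBis, hBip, hBu⟩ := invpd hBs hBp
  have hnn : ∀ {P : Matrix X X ℝ}, (∀ f : X → ℝ, f ≠ 0 → 0 < qf P f) → ∀ f, 0 ≤ qf P f := by
    intro P h f
    by_cases hf : f = 0
    · rw [hf, qf_dot, zero_dotProduct]
    · exact (h f hf).le
  refine ⟨hAu, hBu, (lem1 hAis hAip hBis (hnn hBip) hp).1, fun h => ⟨fun f => ?_, fun f => ?_⟩,
    fun h => ?_⟩
  · have h1 := (lem1 hAis hAip hBis (hnn hBip) hp).2 h f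
    rwa [Matrix.nonsing_inv_nonsing_inv A hAu] at h1
  · have h2 : trace ((B⁻¹ * A⁻¹) ^ p) ≤ 1 := by rw [trace_swap _ _ hp]; exact h
    have h1 := (lem1 hBis hBip hAis (hnn hAip) hp).2 h2 f
    rwa [Matrix.nonsing_inv_nonsing_inv B hBu] at h1
  · refine lem2 hAis (hnn hAip) hBis hBip hp he1 (fun f => ?_)
    rw [Matrix.nonsing_inv_nonsing_inv B hBu]
    exact h f

end Pool.Agent.LE.QF.H20
end -- Pool.Agent.Helper20_LQF.WAB

section -- Pool.Agent.Helper41_LQF.THB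

/-!
Row THB (squad LQF): the inverse of `1 - Y` in the sup norm.
-/

set_option autoImplicit false

open scoped BigOperators Matrix ComplexOrder

noncomputable section

namespace Pool.Agent.LE.QF.H41

open Pool.Agent.LE.QD

section
variable {X : Type} [Fintype X]

theorem n2_nn (u : X → ℂ) : 0 ≤ n2 u := Finset.sum_nonneg fun _ _ => by positivity

theorem n2_zero {u : X → ℂ} (h : n2 u ≤ 0) : u = 0 := by
  funext a
  have h1 : ‖u a‖ ^ 2 ≤ n2 u := Finset.single_le_sum (f := fun x => ‖u x‖ ^ 2)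
    (fun _ _ => by positivity) (Finset.mem_univ a)
  have h2 : ‖u a‖ ^ 2 = 0 := le_antisymm (h1.trans h) (by positivity)
  have h3 : ‖u a‖ = 0 := pow_eq_zero_iff (two_ne_zero) |>.1 h2
  simpa using h3

/-- the norm of `ℓ²` -/
def nr (u : X → ℂ) : ℝ := Real.sqrt (n2 u)

theorem nr_eq (u : X → ℂ) : nr u = ‖(WithLp.toLp 2 u : EuclideanSpace ℂ X)‖ := by
  rw [EuclideanSpace.norm_eq]
  rfl

theorem nr_add (u v : X → ℂ) : nr (u + v) ≤ nr u + nr v := by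
  rw [nr_eq, nr_eq, nr_eq, WithLp.toLp_add]
  exact norm_add_le _ _

end

theorem thb : ThbStmt := by
  intro X _ _ Y ε₁ s k₀ he he2 hs hk hX hY hrow
  have hyn : ∀ u, nr (Y *ᵥ u) ≤ ε₁ * nr u := by
    intro u
    unfold nr
    rw [← Real.sqrt_sq he, ← Real.sqrt_mul (by positivity)]
    exact Real.sqrt_le_sqrt (hY u)
  have hinj : ∀ u : X → ℂ, (1 - Y) *ᵥ u = 0 → u = 0 := by
    intro u hu
    rw [Matrix.sub_mulVec, Matrix.one_mulVec, sub_eq_zero] at hu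
    apply n2_zero
    have h1 := hY u
    rw [← hu] at h1
    have h2 : ε₁ ^ 2 ≤ 1 / 4 := by nlinarith only [he, he2]
    nlinarith only [n2_nn u, h1, h2]
  have hunit : IsUnit (1 - Y).det := by
    rw [← Matrix.isUnit_iff_isUnit_det, ← Matrix.mulVec_injective_iff_isUnit]
    intro u v huv
    have : (1 - Y) *ᵥ (u - v) = 0 := by
      rw [Matrix.mulVec_sub]
      exact sub_eq_zero.2 huv
    exact sub_eq_zero.1 (hinj _ this)
  refine ⟨hunit, fun a => ?_⟩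
  obtain ⟨Θ, hΘ⟩ : ∃ Θ, Θ = (1 - Y)⁻¹ := ⟨_, rfl⟩
  have hΘ1 : (1 - Y) * Θ = 1 := by rw [hΘ]; exact Matrix.mul_nonsing_inv _ hunit
  rw [← hΘ]
  -- the norm of `Θ`
  have hΘn : ∀ u, nr (Θ *ᵥ u) ≤ 2 * nr u := by
    intro u
    have h1 : Θ *ᵥ u = u + Y *ᵥ (Θ *ᵥ u) := by
      have h2 : (1 - Y) *ᵥ (Θ *ᵥ u) = u := by
        rw [Matrix.mulVec_mulVec, hΘ1, Matrix.one_mulVec]
      rw [Matrix.sub_mulVec, Matrix.one_mulVec] at h2
      rw [← sub_eq_iff_eq_add]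
      exact h2
    have h3 := nr_add u (Y *ᵥ (Θ *ᵥ u))
    rw [← h1] at h3
    have h4 := hyn (Θ *ᵥ u)
    have h5 : 0 ≤ nr (Θ *ᵥ u) := Real.sqrt_nonneg _
    nlinarith only [he2, h3, h4, h5]
  have hpow : ∀ (k : ℕ) (u : X → ℂ), nr ((Y ^ k) *ᵥ u) ≤ ε₁ ^ k * nr u := by
    intro k
    induction k with
    | zero => intro u; simp
    | succ k ih =>
      intro u
      rw [pow_succ, ← Matrix.mulVec_mulVec]
      calc nr ((Y ^ k) *ᵥ (Y *ᵥ u)) ≤ ε₁ ^ k * nr (Y *ᵥ u) := ih _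
        _ ≤ ε₁ ^ k * (ε₁ * nr u) := by
            exact mul_le_mul_of_nonneg_left (hyn u) (by positivity)
        _ = ε₁ ^ (k + 1) * nr u := by ring
  obtain ⟨M, hM⟩ : ∃ M, M = Y ^ k₀ * Θ := ⟨_, rfl⟩
  have hMn : ∀ u, nr (M *ᵥ u) ≤ 2 * ε₁ ^ k₀ * nr u := by
    intro u
    rw [hM, ← Matrix.mulVec_mulVec]
    calc nr ((Y ^ k₀) *ᵥ (Θ *ᵥ u)) ≤ ε₁ ^ k₀ * nr (Θ *ᵥ u) := hpow _ _
      _ ≤ ε₁ ^ k₀ * (2 * nr u) := mul_le_mul_of_nonneg_left (hΘn u) (by positivity)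
      _ = 2 * ε₁ ^ k₀ * nr u := by ring
  have hMrow : ∑ b, ‖M a b‖ ≤ 1 := by
    obtain ⟨R, hR⟩ : ∃ R : ℝ, R = ∑ b, ‖M a b‖ ^ 2 := ⟨_, rfl⟩
    have hR0 : 0 ≤ R := by rw [hR]; positivity
    have h1 : (M *ᵥ fun b => (starRingEnd ℂ) (M a b)) a = (R : ℂ) := by
      rw [hR]
      show ∑ b, M a b * (starRingEnd ℂ) (M a b) = _
      push_cast
      exact Finset.sum_congr rfl fun b _ => by rw [Complex.mul_conj, Complex.normSq_eq_norm_sq]; push_cast; rfl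
    have h2 : nr (fun b => (starRingEnd ℂ) (M a b)) = Real.sqrt R := by
      unfold nr n2
      rw [hR]
      congr 1
      exact Finset.sum_congr rfl fun b _ => by rw [RCLike.norm_conj]
    have h3 : R ≤ nr (M *ᵥ fun b => (starRingEnd ℂ) (M a b)) := by
      unfold nr
      apply Real.le_sqrt_of_sq_le
      unfold n2
      have := Finset.single_le_sum (f := fun x => ‖(M *ᵥ fun b => (starRingEnd ℂ) (M a b)) x‖ ^ 2)
        (fun _ _ => by positivity) (Finset.mem_univ a)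
      simp only [h1] at this
      rw [Complex.norm_real, Real.norm_of_nonneg hR0] at this
      exact this
    have h4 := hMn (fun b => (starRingEnd ℂ) (M a b))
    rw [h2] at h4
    have h5 := h3.trans h4
    have h6 : Real.sqrt R ≤ 2 * ε₁ ^ k₀ := by
      by_contra hlt
      push Not at hlt
      have h7 : 0 < Real.sqrt R := lt_of_le_of_lt (by positivity) hlt
      have h8 := mul_lt_mul_of_pos_right hlt h7
      rw [Real.mul_self_sqrt hR0] at h8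
      linarith only [h3, h4, h8]
    have h7 : R ≤ 4 * ε₁ ^ (2 * k₀) := by
      have h8 := mul_self_le_mul_self (Real.sqrt_nonneg R) h6
      rw [Real.mul_self_sqrt hR0] at h8
      calc R ≤ 2 * ε₁ ^ k₀ * (2 * ε₁ ^ k₀) := h8
        _ = 4 * ε₁ ^ (2 * k₀) := by rw [pow_mul', sq]; ring
    have h8 : (∑ b, ‖M a b‖) ^ 2 ≤ (Fintype.card X : ℝ) * R := by
      rw [hR]
      have := sq_sum_le_card_mul_sum_sq (s := (Finset.univ : Finset X)) (f := fun b => ‖M a b‖)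
      rw [Finset.card_univ] at this
      exact this
    have h9 : (∑ b, ‖M a b‖) ^ 2 ≤ 1 := by
      have : (Fintype.card X : ℝ) * R ≤ (Fintype.card X : ℝ) * (4 * ε₁ ^ (2 * k₀)) :=
        mul_le_mul_of_nonneg_left h7 (Nat.cast_nonneg _)
      nlinarith only [hX, h8, this]
    exact (sq_le_one_iff₀ (Finset.sum_nonneg fun _ _ => norm_nonneg _)).1 h9
  have hYrow : ∀ (k : ℕ) (a : X), ∑ b, ‖(Y ^ k) a b‖ ≤ (1 + s) ^ k := by
    intro k
    induction k with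
    | zero =>
      intro a
      rw [pow_zero, pow_zero]
      rw [Finset.sum_eq_single a]
      · simp
      · intro b _ hb
        rw [Matrix.one_apply_ne hb.symm, norm_zero]
      · intro h; exact absurd (Finset.mem_univ a) h
    | succ k ih =>
      intro a
      calc ∑ b, ‖(Y ^ (k + 1)) a b‖ ≤ ∑ b, ∑ c, ‖(Y ^ k) a c‖ * ‖Y c b‖ := by
            refine Finset.sum_le_sum fun b _ => ?_
            rw [pow_succ, Matrix.mul_apply]
            refine (norm_sum_le _ _).trans (le_of_eq ?_)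
            exact Finset.sum_congr rfl fun c _ => norm_mul _ _
        _ = ∑ c, ‖(Y ^ k) a c‖ * ∑ b, ‖Y c b‖ := by
            rw [Finset.sum_comm]
            exact Finset.sum_congr rfl fun c _ => by rw [Finset.mul_sum]
        _ ≤ ∑ c, ‖(Y ^ k) a c‖ * (1 + s) := by
            refine Finset.sum_le_sum fun c _ => ?_
            exact mul_le_mul_of_nonneg_left (hrow c) (norm_nonneg _)
        _ = (∑ c, ‖(Y ^ k) a c‖) * (1 + s) := by rw [Finset.sum_mul]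
        _ ≤ (1 + s) ^ k * (1 + s) := mul_le_mul_of_nonneg_right (ih a) (by linarith only [hs])
        _ = (1 + s) ^ (k + 1) := by rw [pow_succ]
  have hexp : Θ = ∑ k ∈ Finset.range k₀, Y ^ k + M := by
    have h1 : (∑ k ∈ Finset.range k₀, Y ^ k) * (1 - Y) = 1 - Y ^ k₀ := geom_sum_mul_neg Y k₀
    have h2 : ∑ k ∈ Finset.range k₀, Y ^ k = (1 - Y ^ k₀) * Θ := by
      rw [← h1, Matrix.mul_assoc, hΘ1, Matrix.mul_one]
    rw [h2, hM, Matrix.sub_mul, Matrix.one_mul, sub_add_cancel]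
  calc ∑ b, ‖Θ a b‖ ≤ ∑ b, (∑ k ∈ Finset.range k₀, ‖(Y ^ k) a b‖ + ‖M a b‖) := by
        refine Finset.sum_le_sum fun b _ => ?_
        conv_lhs => rw [hexp]
        rw [Matrix.add_apply, Matrix.sum_apply]
        exact (norm_add_le _ _).trans (add_le_add (norm_sum_le _ _) le_rfl)
    _ = ∑ k ∈ Finset.range k₀, ∑ b, ‖(Y ^ k) a b‖ + ∑ b, ‖M a b‖ := by
        rw [Finset.sum_add_distrib, Finset.sum_comm]
    _ ≤ ∑ _k ∈ Finset.range k₀, (2 : ℝ) + 1 := by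
        refine add_le_add (Finset.sum_le_sum fun k hk' => ?_) hMrow
        refine (hYrow k a).trans ?_
        refine le_trans ?_ hk
        exact pow_le_pow_right₀ (by linarith only [hs]) (Finset.mem_range.1 hk').le
    _ = 2 * k₀ + 1 := by
        rw [Finset.sum_const, Finset.card_range, nsmul_eq_mul]
        ring

end Pool.Agent.LE.QF.H41
end
end -- Pool.Agent.Helper41_LQF.THB

section -- Pool.Agent.Helper65_LQF.PHB

/-!
# LQF, row PHB: gradient and drift of `φ`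
-/

set_option autoImplicit false

open scoped BigOperators Matrix

noncomputable section

namespace Pool.Agent.LE.QF.H65

open Pool.Agent.LE.QD

/-- Minkowski's inequality in `ℓ²` with weights. -/
theorem phb_mink {X : Type} [Fintype X] (θ : X → ℂ) (R : X → X → ℂ) {C M : ℝ} (hC : 0 ≤ C)
    (hM : 0 ≤ M) (hθ : ∑ b, ‖θ b‖ ≤ C) (hR : ∀ b, ∑ c, ‖R b c‖ ^ 2 ≤ M) :
    ∑ c, ‖∑ b, θ b * R b c‖ ^ 2 ≤ C ^ 2 * M := by
  have h0 : ∀ c, ‖∑ b, θ b * R b c‖ ^ 2 ≤ C * ∑ b, ‖θ b‖ * ‖R b c‖ ^ 2 := by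
    intro c
    have h1 : ‖∑ b, θ b * R b c‖ ≤ ∑ b, ‖θ b‖ * ‖R b c‖ :=
      (norm_sum_le _ _).trans_eq (Finset.sum_congr rfl fun b _ => norm_mul _ _)
    calc ‖∑ b, θ b * R b c‖ ^ 2 ≤ (∑ b, ‖θ b‖ * ‖R b c‖) ^ 2 :=
          pow_le_pow_left₀ (norm_nonneg _) h1 2
      _ ≤ (∑ b, ‖θ b‖) * ∑ b, ‖θ b‖ * ‖R b c‖ ^ 2 :=
          Finset.sum_sq_le_sum_mul_sum_of_sq_eq_mul _ (fun b _ => norm_nonneg _)
            (fun b _ => by positivity) (fun b _ => by ring)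
      _ ≤ C * ∑ b, ‖θ b‖ * ‖R b c‖ ^ 2 :=
          mul_le_mul_of_nonneg_right hθ (Finset.sum_nonneg fun b _ => by positivity)
  calc ∑ c, ‖∑ b, θ b * R b c‖ ^ 2 ≤ ∑ c, C * ∑ b, ‖θ b‖ * ‖R b c‖ ^ 2 :=
        Finset.sum_le_sum fun c _ => h0 c
    _ = C * ∑ b, ‖θ b‖ * ∑ c, ‖R b c‖ ^ 2 := by
        rw [← Finset.mul_sum, Finset.sum_comm]
        simp only [Finset.mul_sum]
    _ ≤ C * ∑ b, ‖θ b‖ * M :=
        mul_le_mul_of_nonneg_left (Finset.sum_le_sum fun b _ =>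
          mul_le_mul_of_nonneg_left (hR b) (norm_nonneg _)) hC
    _ = C * ((∑ b, ‖θ b‖) * M) := by rw [Finset.sum_mul]
    _ ≤ C * (C * M) := mul_le_mul_of_nonneg_left (mul_le_mul_of_nonneg_right hθ hM) hC
    _ = C ^ 2 * M := by ring

/-- A weighted sum of bounded numbers. -/
theorem phb_sup {X : Type} [Fintype X] (θ x : X → ℂ) {C M : ℝ} (hM : 0 ≤ M)
    (hθ : ∑ b, ‖θ b‖ ≤ C) (hx : ∀ b, ‖x b‖ ≤ M) : ‖∑ b, θ b * x b‖ ≤ C * M := by
  calc ‖∑ b, θ b * x b‖ ≤ ∑ b, ‖θ b * x b‖ := norm_sum_le _ _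
    _ ≤ ∑ b, ‖θ b‖ * M := Finset.sum_le_sum fun b _ => by
        rw [norm_mul]
        exact mul_le_mul_of_nonneg_left (hx b) (norm_nonneg _)
    _ = (∑ b, ‖θ b‖) * M := by rw [Finset.sum_mul]
    _ ≤ C * M := mul_le_mul_of_nonneg_right hθ hM

/-- The rows of `G + 2 τ G ∘ (G φ G)`: near and far points. -/
theorem phb_row {X : Type} [Fintype X] [DecidableEq X] {G : Matrix X X ℂ} {μ φ : X → ℂ}
    {𝒩 : X → Finset X} {κ τ δ N Λ C₀ C₁ : ℝ} (hC₀ : 1 ≤ C₀) (hC₁ : 1 ≤ C₁)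
    (h : GdM G μ 𝒩 κ τ δ N C₀) (hΛ : ∀ a, ∑ b, KK G a b ^ 2 ≤ Λ)
    (hΛ' : δ ^ 2 * N + δ ^ 4 / κ ≤ Λ) (h2 : ∀ a b, ‖GD G φ a b‖ ≤ C₁ * δ / κ)
    (h3 : ∀ a, ∑ b, ‖GD G φ a b‖ ^ 2 ≤ C₁ * δ ^ 2 / κ ^ 3) (b : X) :
    ∑ c, ‖G b c ^ 2 + 2 * τ * G b c * GD G φ b c‖ ^ 2 ≤ 10 * C₀ ^ 4 * C₁ ^ 2 * Λ := by
  obtain ⟨hκ0, hκ1, hτ0, hκτ, hτκ⟩ := h.hκ
  obtain ⟨hδ0, hδ1, hN1⟩ := h.hδ
  have hΛ0 : 0 ≤ Λ := by
    have : 0 ≤ δ ^ 2 * N + δ ^ 4 / κ := by positivity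
    linarith only [hΛ', this]
  have hT : ∀ c, ‖G b c ^ 2 + 2 * τ * G b c * GD G φ b c‖ ^ 2 ≤
      2 * KK G b c ^ 2 + 8 * (τ ^ 2 * (‖G b c‖ ^ 2 * ‖GD G φ b c‖ ^ 2)) := by
    intro c
    have e1 : ‖G b c ^ 2‖ = KK G b c := by
      rw [norm_pow]
      rfl
    have e2 : ‖2 * (τ : ℂ) * G b c * GD G φ b c‖ = 2 * τ * (‖G b c‖ * ‖GD G φ b c‖) := by
      have h2n : ‖(2 : ℂ)‖ = 2 := by norm_num
      rw [norm_mul, norm_mul, norm_mul, Complex.norm_real, Real.norm_of_nonneg hτ0.le, h2n]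
      ring
    have e3 : ‖G b c ^ 2 + 2 * τ * G b c * GD G φ b c‖ ≤
        KK G b c + 2 * τ * (‖G b c‖ * ‖GD G φ b c‖) := by
      rw [← e1, ← e2]
      exact norm_add_le _ _
    have e4 : 0 ≤ ‖G b c‖ * ‖GD G φ b c‖ := by positivity
    calc ‖G b c ^ 2 + 2 * τ * G b c * GD G φ b c‖ ^ 2
        ≤ (KK G b c + 2 * τ * (‖G b c‖ * ‖GD G φ b c‖)) ^ 2 :=
          pow_le_pow_left₀ (norm_nonneg _) e3 2
      _ ≤ 2 * KK G b c ^ 2 + 8 * (τ ^ 2 * (‖G b c‖ ^ 2 * ‖GD G φ b c‖ ^ 2)) := by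
          nlinarith only [sq_nonneg (KK G b c - 2 * τ * (‖G b c‖ * ‖GD G φ b c‖))]
  have hS : ∀ c, τ ^ 2 * (‖G b c‖ ^ 2 * ‖GD G φ b c‖ ^ 2) ≤
      (if c ∈ 𝒩 b then τ ^ 2 * (C₀ ^ 2 * (C₁ * δ / κ) ^ 2) else 0) +
        τ ^ 2 * ((C₀ * δ) ^ 2 * ‖GD G φ b c‖ ^ 2) := by
    intro c
    by_cases hc : c ∈ 𝒩 b
    · rw [if_pos hc]
      have h5 : ‖G b c‖ ^ 2 ≤ C₀ ^ 2 := pow_le_pow_left₀ (norm_nonneg _) (h.hG b c) 2
      have h6 : ‖GD G φ b c‖ ^ 2 ≤ (C₁ * δ / κ) ^ 2 := pow_le_pow_left₀ (norm_nonneg _) (h2 b c) 2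
      have h7 : ‖G b c‖ ^ 2 * ‖GD G φ b c‖ ^ 2 ≤ C₀ ^ 2 * (C₁ * δ / κ) ^ 2 :=
        mul_le_mul h5 h6 (by positivity) (by positivity)
      have h8 : 0 ≤ τ ^ 2 * ((C₀ * δ) ^ 2 * ‖GD G φ b c‖ ^ 2) := by positivity
      have h9 := mul_le_mul_of_nonneg_left h7 (sq_nonneg τ)
      linarith only [h8, h9]
    · rw [if_neg hc, zero_add]
      have h5 : ‖G b c‖ ^ 2 ≤ (C₀ * δ) ^ 2 :=
        pow_le_pow_left₀ (norm_nonneg _) ((h.hn b c).2 hc) 2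
      exact mul_le_mul_of_nonneg_left (mul_le_mul_of_nonneg_right h5 (by positivity))
        (sq_nonneg τ)
  have hτ2 : τ ^ 2 ≤ C₀ ^ 2 * κ ^ 2 := by
    rw [← mul_pow]
    exact pow_le_pow_left₀ hτ0.le hτκ 2
  have hC₀4 : 1 ≤ C₀ ^ 4 := one_le_pow₀ hC₀
  have hC₁2 : C₁ ≤ C₁ ^ 2 := by nlinarith only [hC₁]
  have hsum : ∑ c, τ ^ 2 * (‖G b c‖ ^ 2 * ‖GD G φ b c‖ ^ 2) ≤ C₀ ^ 4 * C₁ ^ 2 * Λ := by
    calc ∑ c, τ ^ 2 * (‖G b c‖ ^ 2 * ‖GD G φ b c‖ ^ 2)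
        ≤ ∑ c, ((if c ∈ 𝒩 b then τ ^ 2 * (C₀ ^ 2 * (C₁ * δ / κ) ^ 2) else 0) +
          τ ^ 2 * ((C₀ * δ) ^ 2 * ‖GD G φ b c‖ ^ 2)) := Finset.sum_le_sum fun c _ => hS c
      _ = (𝒩 b).card * (τ ^ 2 * (C₀ ^ 2 * (C₁ * δ / κ) ^ 2)) +
          τ ^ 2 * ((C₀ * δ) ^ 2 * ∑ c, ‖GD G φ b c‖ ^ 2) := by
          rw [Finset.sum_add_distrib, Finset.sum_ite_mem, Finset.univ_inter, Finset.sum_const,
            nsmul_eq_mul, Finset.mul_sum, Finset.mul_sum]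
      _ ≤ N * ((C₀ ^ 2 * κ ^ 2) * (C₀ ^ 2 * (C₁ * δ / κ) ^ 2)) +
          (C₀ ^ 2 * κ ^ 2) * ((C₀ * δ) ^ 2 * (C₁ * δ ^ 2 / κ ^ 3)) := by
          refine add_le_add ?_ ?_
          · exact mul_le_mul (h.hN b) (mul_le_mul_of_nonneg_right hτ2 (by positivity))
              (by positivity) (by linarith only [hN1])
          · exact mul_le_mul hτ2 (mul_le_mul_of_nonneg_left (h3 b) (by positivity))
              (mul_nonneg (by positivity) (Finset.sum_nonneg fun c _ => by positivity))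
              (by positivity)
      _ = C₀ ^ 4 * C₁ ^ 2 * (δ ^ 2 * N) + C₀ ^ 4 * C₁ * (δ ^ 4 / κ) := by
          field_simp
      _ ≤ C₀ ^ 4 * C₁ ^ 2 * (δ ^ 2 * N) + C₀ ^ 4 * C₁ ^ 2 * (δ ^ 4 / κ) := by
          refine add_le_add le_rfl (mul_le_mul_of_nonneg_right
            (mul_le_mul_of_nonneg_left hC₁2 (by positivity)) (by positivity))
      _ = C₀ ^ 4 * C₁ ^ 2 * (δ ^ 2 * N + δ ^ 4 / κ) := by ring
      _ ≤ C₀ ^ 4 * C₁ ^ 2 * Λ := mul_le_mul_of_nonneg_left hΛ' (by positivity)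
  have h1C : 1 ≤ C₀ ^ 4 * C₁ ^ 2 := by
    have : 1 ≤ C₁ ^ 2 := one_le_pow₀ hC₁
    nlinarith only [hC₁, hC₀4, hC₁2]
  calc ∑ c, ‖G b c ^ 2 + 2 * τ * G b c * GD G φ b c‖ ^ 2
      ≤ ∑ c, (2 * KK G b c ^ 2 + 8 * (τ ^ 2 * (‖G b c‖ ^ 2 * ‖GD G φ b c‖ ^ 2))) :=
        Finset.sum_le_sum fun c _ => hT c
    _ = 2 * ∑ c, KK G b c ^ 2 + 8 * ∑ c, τ ^ 2 * (‖G b c‖ ^ 2 * ‖GD G φ b c‖ ^ 2) := by
        rw [Finset.sum_add_distrib, Finset.mul_sum, Finset.mul_sum]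
    _ ≤ 2 * Λ + 8 * (C₀ ^ 4 * C₁ ^ 2 * Λ) := by
        have := hΛ b
        linarith only [hsum, this]
    _ ≤ 10 * C₀ ^ 4 * C₁ ^ 2 * Λ := by
        have := mul_le_mul_of_nonneg_right h1C hΛ0
        linarith only [this]

/-- The rows of `G` in `ℓ²`. -/
theorem phb_k {X : Type} [Fintype X] [DecidableEq X] {G : Matrix X X ℂ} {μ : X → ℂ}
    {𝒩 : X → Finset X} {κ τ δ N C₀ : ℝ} (h : GdM G μ 𝒩 κ τ δ N C₀) (a : X) :
    ∑ b, ‖G a b‖ ^ 2 ≤ 2 / τ := by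
  obtain ⟨hκ0, hκ1, hτ0, hκτ, hτκ⟩ := h.hκ
  obtain ⟨hδ0, hδ1, hN1⟩ := h.hδ
  have h1 := (abs_le.1 (h.hk a)).2
  rw [le_div_iff₀ hτ0]
  linarith only [hδ1, h1]

theorem phb_sqrt {K x : ℝ} (hK : 1 ≤ K) (hx : 0 ≤ x) : Real.sqrt (K * x) ≤ K * Real.sqrt x := by
  rw [Real.sqrt_mul (by linarith)]
  refine mul_le_mul_of_nonneg_right ?_ (Real.sqrt_nonneg _)
  exact Real.sqrt_le_iff.2 ⟨by linarith, by nlinarith only [hK]⟩

/-- PHB. -/
theorem phb (nrb : NrbStmt) : PhbStmt := by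
  intro C₀ hC₀
  obtain ⟨C₁, hC₁, hN⟩ := nrb C₀ hC₀
  have hC₀0 : 0 < C₀ := by linarith
  have hC₁0 : 0 < C₁ := by linarith
  have p8 : C₀ ^ 6 ≤ C₀ ^ 8 := pow_le_pow_right₀ hC₀ (by norm_num)
  have p3 : C₀ ^ 3 ≤ C₀ ^ 8 := pow_le_pow_right₀ hC₀ (by norm_num)
  have p2 : C₁ ≤ C₁ ^ 2 := by nlinarith only [hC₁]
  have p1 : 1 ≤ C₀ ^ 8 * C₁ ^ 2 := by
    have h1 : 1 ≤ C₀ ^ 8 := one_le_pow₀ hC₀
    have h2 : 1 ≤ C₁ ^ 2 := one_le_pow₀ hC₁
    nlinarith only [hC₁, p2, h1]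
  refine ⟨80 * C₀ ^ 8 * C₁ ^ 2, by nlinarith only [p1], ?_⟩
  intro X _ _ G Θ μ φ 𝒩 κ τ δ N Λ h hΘ hφ hΛ hΛ'
  obtain ⟨hκ0, hκ1, hτ0, hκτ, hτκ⟩ := h.hκ
  obtain ⟨hδ0, hδ1, hN1⟩ := h.hδ
  obtain ⟨-, hn2, hn3, -, -, -⟩ := hN X G μ 𝒩 κ τ δ N h
  have hΛ0 : 0 ≤ Λ := by
    have : 0 ≤ δ ^ 2 * N + δ ^ 4 / κ := by positivity
    linarith only [hΛ', this]
  -- gradient
  have hgr : ∀ a, ∑ c, ‖QQ G Θ τ φ a c‖ ^ 2 ≤ 10 * C₀ ^ 6 * C₁ ^ 2 * Λ := by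
    intro a
    have h1 := phb_mink (Θ a) (fun b c => G b c ^ 2 + 2 * τ * G b c * GD G φ b c) hC₀0.le
      (M := 10 * C₀ ^ 4 * C₁ ^ 2 * Λ) (by positivity) (hΘ a)
      (phb_row hC₀ hC₁ h hΛ hΛ' (hn2 φ δ hδ0 hφ) (hn3 φ δ hδ0 hφ))
    have e1 : ∀ c, ‖QQ G Θ τ φ a c‖ = ‖∑ b, Θ a b * (G b c ^ 2 + 2 * τ * G b c * GD G φ b c)‖ := by
      intro c
      unfold QQ
      rw [Matrix.neg_apply, norm_neg, Matrix.mul_apply]
      rfl
    calc ∑ c, ‖QQ G Θ τ φ a c‖ ^ 2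
        = ∑ c, ‖∑ b, Θ a b * (G b c ^ 2 + 2 * τ * G b c * GD G φ b c)‖ ^ 2 :=
          Finset.sum_congr rfl fun c _ => by rw [e1]
      _ ≤ C₀ ^ 2 * (10 * C₀ ^ 4 * C₁ ^ 2 * Λ) := h1
      _ = 10 * C₀ ^ 6 * C₁ ^ 2 * Λ := by ring
  refine ⟨fun a => (hgr a).trans ?_, ?_⟩
  · refine mul_le_mul_of_nonneg_right ?_ hΛ0
    have h1 : C₀ ^ 6 * C₁ ^ 2 ≤ C₀ ^ 8 * C₁ ^ 2 := mul_le_mul_of_nonneg_right p8 (by positivity)
    have h2 : 0 ≤ C₀ ^ 8 * C₁ ^ 2 := by positivity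
    linarith only [p1, h1]
  -- drift
  intro a
  have hd1 : ∀ b, ‖(EB G μ *ᵥ φ) b‖ ≤ 2 * δ * (2 * C₁ * C₀ ^ 2 * δ / (τ * κ)) := by
    intro b
    have h1 : ‖(EB G μ *ᵥ φ) b‖ ≤ 2 * δ * ∑ y, ‖G b y‖ * ‖GD G μ b y‖ := by
      rw [Finset.mul_sum]
      refine (norm_sum_le _ _).trans (Finset.sum_le_sum fun y _ => ?_)
      have e1 : ‖EB G μ b y * φ y‖ = 2 * (‖G b y‖ * ‖GD G μ b y‖) * ‖φ y‖ := by
        have h2n : ‖(2 : ℂ)‖ = 2 := by norm_num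
        unfold EB
        rw [norm_mul, norm_mul, norm_mul, h2n]
        ring
      rw [e1]
      have h2 : 0 ≤ 2 * (‖G b y‖ * ‖GD G μ b y‖) := by positivity
      calc 2 * (‖G b y‖ * ‖GD G μ b y‖) * ‖φ y‖ ≤ 2 * (‖G b y‖ * ‖GD G μ b y‖) * δ :=
            mul_le_mul_of_nonneg_left (hφ y) h2
        _ = 2 * δ * (‖G b y‖ * ‖GD G μ b y‖) := by ring
    have h2 := Real.sum_mul_le_sqrt_mul_sqrt Finset.univ (fun y => ‖G b y‖)
      (fun y => ‖GD G μ b y‖)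
    have h3 : Real.sqrt (∑ y, ‖G b y‖ ^ 2) * Real.sqrt (∑ y, ‖GD G μ b y‖ ^ 2) ≤
        2 * C₁ * C₀ ^ 2 * δ / (τ * κ) := by
      rw [← Real.sqrt_mul (Finset.sum_nonneg fun y _ => by positivity)]
      refine Real.sqrt_le_iff.2 ⟨by positivity, ?_⟩
      have h4 : (∑ y, ‖G b y‖ ^ 2) * ∑ y, ‖GD G μ b y‖ ^ 2 ≤
          (2 / τ) * (C₁ * (C₀ * δ) ^ 2 / κ ^ 3) :=
        mul_le_mul (phb_k h b) (hn3 μ (C₀ * δ) (by positivity) h.hμ b)
          (Finset.sum_nonneg fun y _ => by positivity) (by positivity)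
      refine h4.trans ?_
      have h5 : (2 * C₁ * C₀ ^ 2 * δ / (τ * κ)) ^ 2 - (2 / τ) * (C₁ * (C₀ * δ) ^ 2 / κ ^ 3) =
          2 * C₁ * C₀ ^ 2 * δ ^ 2 / (τ ^ 2 * κ ^ 3) * (2 * C₁ * C₀ ^ 2 * κ - τ) := by
        field_simp
      have h6 : 0 ≤ 2 * C₁ * C₀ ^ 2 * κ - τ := by
        have h7 : C₀ ≤ 2 * C₁ * C₀ ^ 2 := by nlinarith only [hC₀, hC₁]
        have h8 := mul_le_mul_of_nonneg_right h7 hκ0.le
        linarith only [hτκ, h8]
      have h9 : 0 ≤ 2 * C₁ * C₀ ^ 2 * δ ^ 2 / (τ ^ 2 * κ ^ 3) * (2 * C₁ * C₀ ^ 2 * κ - τ) :=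
        mul_nonneg (by positivity) h6
      linarith only [h5, h9]
    exact h1.trans (mul_le_mul_of_nonneg_left (h2.trans h3) (by positivity))
  have hD1 : ‖(τ : ℂ) * (Θ *ᵥ (EB G μ *ᵥ φ)) a‖ ≤ 4 * C₁ * C₀ ^ 3 * (δ ^ 2 / κ) := by
    have h1 : ‖(Θ *ᵥ (EB G μ *ᵥ φ)) a‖ ≤ C₀ * (2 * δ * (2 * C₁ * C₀ ^ 2 * δ / (τ * κ))) :=
      phb_sup (Θ a) (EB G μ *ᵥ φ) (by positivity) (hΘ a) hd1
    rw [norm_mul, Complex.norm_real, Real.norm_of_nonneg hτ0.le]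
    calc τ * ‖(Θ *ᵥ (EB G μ *ᵥ φ)) a‖
        ≤ τ * (C₀ * (2 * δ * (2 * C₁ * C₀ ^ 2 * δ / (τ * κ)))) :=
          mul_le_mul_of_nonneg_left h1 hτ0.le
      _ = 4 * C₁ * C₀ ^ 3 * (δ ^ 2 / κ) := by
          field_simp
          ring
  have hd2 : ∀ x, ‖∑ c, ∑ y, ((τ : ℂ) • dB G c) x y * QQ G Θ τ φ y c‖ ≤
      4 * Real.sqrt (2 * (10 * C₀ ^ 6 * C₁ ^ 2) * Λ / τ) := by
    intro x
    have h1 : ‖∑ c, ∑ y, ((τ : ℂ) • dB G c) x y * QQ G Θ τ φ y c‖ ≤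
        ∑ p : X × X, 2 * τ * ((‖G x p.2‖ * ‖QQ G Θ τ φ p.2 p.1‖) * (‖G x p.1‖ * ‖G p.1 p.2‖)) := by
      rw [Fintype.sum_prod_type]
      refine (norm_sum_le _ _).trans (Finset.sum_le_sum fun c _ => ?_)
      refine (norm_sum_le _ _).trans (Finset.sum_le_sum fun y _ => le_of_eq ?_)
      rw [Matrix.smul_apply]
      unfold dB
      have h2n : ‖(2 : ℂ)‖ = 2 := by norm_num
      rw [smul_eq_mul, norm_mul, norm_mul, norm_neg, norm_mul, norm_mul, norm_mul,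
        Complex.norm_real, Real.norm_of_nonneg hτ0.le, h2n]
      ring
    have h2 := Real.sum_mul_le_sqrt_mul_sqrt (Finset.univ : Finset (X × X))
      (fun p => ‖G x p.2‖ * ‖QQ G Θ τ φ p.2 p.1‖) (fun p => ‖G x p.1‖ * ‖G p.1 p.2‖)
    have h3 : ∑ p : X × X, (‖G x p.2‖ * ‖QQ G Θ τ φ p.2 p.1‖) ^ 2 ≤
        2 / τ * (10 * C₀ ^ 6 * C₁ ^ 2 * Λ) := by
      rw [Fintype.sum_prod_type_right]
      calc ∑ y, ∑ c, (‖G x y‖ * ‖QQ G Θ τ φ y c‖) ^ 2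
          = ∑ y, ‖G x y‖ ^ 2 * ∑ c, ‖QQ G Θ τ φ y c‖ ^ 2 := by
            refine Finset.sum_congr rfl fun y _ => ?_
            rw [Finset.mul_sum]
            exact Finset.sum_congr rfl fun c _ => mul_pow _ _ _
        _ ≤ ∑ y, ‖G x y‖ ^ 2 * (10 * C₀ ^ 6 * C₁ ^ 2 * Λ) :=
            Finset.sum_le_sum fun y _ => mul_le_mul_of_nonneg_left (hgr y) (by positivity)
        _ = (∑ y, ‖G x y‖ ^ 2) * (10 * C₀ ^ 6 * C₁ ^ 2 * Λ) := by rw [Finset.sum_mul]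
        _ ≤ 2 / τ * (10 * C₀ ^ 6 * C₁ ^ 2 * Λ) :=
            mul_le_mul_of_nonneg_right (phb_k h x) (by positivity)
    have h4 : ∑ p : X × X, (‖G x p.1‖ * ‖G p.1 p.2‖) ^ 2 ≤ (2 / τ) ^ 2 := by
      rw [Fintype.sum_prod_type]
      calc ∑ c, ∑ y, (‖G x c‖ * ‖G c y‖) ^ 2 = ∑ c, ‖G x c‖ ^ 2 * ∑ y, ‖G c y‖ ^ 2 := by
            refine Finset.sum_congr rfl fun c _ => ?_
            rw [Finset.mul_sum]
            exact Finset.sum_congr rfl fun y _ => mul_pow _ _ _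
        _ ≤ ∑ c, ‖G x c‖ ^ 2 * (2 / τ) :=
            Finset.sum_le_sum fun c _ => mul_le_mul_of_nonneg_left (phb_k h c) (by positivity)
        _ = (∑ c, ‖G x c‖ ^ 2) * (2 / τ) := by rw [Finset.sum_mul]
        _ ≤ (2 / τ) * (2 / τ) := mul_le_mul_of_nonneg_right (phb_k h x) (by positivity)
        _ = (2 / τ) ^ 2 := by ring
    have h5 : Real.sqrt (∑ p : X × X, (‖G x p.1‖ * ‖G p.1 p.2‖) ^ 2) ≤ 2 / τ :=
      Real.sqrt_le_iff.2 ⟨by positivity, h4⟩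
    have h6 : Real.sqrt (∑ p : X × X, (‖G x p.2‖ * ‖QQ G Θ τ φ p.2 p.1‖) ^ 2) ≤
        Real.sqrt (2 * (10 * C₀ ^ 6 * C₁ ^ 2) * Λ / τ) := by
      refine Real.sqrt_le_sqrt (h3.trans (le_of_eq ?_))
      ring
    calc ‖∑ c, ∑ y, ((τ : ℂ) • dB G c) x y * QQ G Θ τ φ y c‖
        ≤ ∑ p : X × X, 2 * τ * ((‖G x p.2‖ * ‖QQ G Θ τ φ p.2 p.1‖) *
          (‖G x p.1‖ * ‖G p.1 p.2‖)) := h1
      _ = 2 * τ * ∑ p : X × X, (‖G x p.2‖ * ‖QQ G Θ τ φ p.2 p.1‖) *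
          (‖G x p.1‖ * ‖G p.1 p.2‖) := by rw [Finset.mul_sum]
      _ ≤ 2 * τ * (Real.sqrt (2 * (10 * C₀ ^ 6 * C₁ ^ 2) * Λ / τ) * (2 / τ)) := by
          refine mul_le_mul_of_nonneg_left (h2.trans ?_) (by positivity)
          exact mul_le_mul h6 h5 (Real.sqrt_nonneg _) (Real.sqrt_nonneg _)
      _ = 4 * Real.sqrt (2 * (10 * C₀ ^ 6 * C₁ ^ 2) * Λ / τ) := by
          field_simp
          ring
  have hD2 : ‖∑ c, (Θ *ᵥ (((τ : ℂ) • dB G c) *ᵥ fun y => QQ G Θ τ φ y c)) a‖ ≤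
      80 * C₀ ^ 8 * C₁ ^ 2 * Real.sqrt (Λ / κ) := by
    have e1 : ∑ c, (Θ *ᵥ (((τ : ℂ) • dB G c) *ᵥ fun y => QQ G Θ τ φ y c)) a =
        ∑ x, Θ a x * ∑ c, ∑ y, ((τ : ℂ) • dB G c) x y * QQ G Θ τ φ y c := by
      have e2 : ∀ c, (Θ *ᵥ (((τ : ℂ) • dB G c) *ᵥ fun y => QQ G Θ τ φ y c)) a =
          ∑ x, Θ a x * ∑ y, ((τ : ℂ) • dB G c) x y * QQ G Θ τ φ y c := fun c => rfl
      simp only [e2]
      rw [Finset.sum_comm]
      exact Finset.sum_congr rfl fun x _ => by rw [Finset.mul_sum]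
    rw [e1]
    have h1 := phb_sup (Θ a) (fun x => ∑ c, ∑ y, ((τ : ℂ) • dB G c) x y * QQ G Θ τ φ y c)
      (M := 4 * Real.sqrt (2 * (10 * C₀ ^ 6 * C₁ ^ 2) * Λ / τ)) (by positivity) (hΘ a) hd2
    refine h1.trans ?_
    have h2 : 2 * (10 * C₀ ^ 6 * C₁ ^ 2) * Λ / τ ≤ (20 * C₀ ^ 7 * C₁ ^ 2) * (Λ / κ) := by
      have h3 : 1 / τ ≤ C₀ * (1 / κ) := by
        rw [mul_one_div, div_le_div_iff₀ hτ0 hκ0]
        linarith only [hκτ]
      calc 2 * (10 * C₀ ^ 6 * C₁ ^ 2) * Λ / τ = 2 * (10 * C₀ ^ 6 * C₁ ^ 2) * Λ * (1 / τ) := by ring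
        _ ≤ 2 * (10 * C₀ ^ 6 * C₁ ^ 2) * Λ * (C₀ * (1 / κ)) :=
            mul_le_mul_of_nonneg_left h3 (by positivity)
        _ = (20 * C₀ ^ 7 * C₁ ^ 2) * (Λ / κ) := by ring
    have h4 : Real.sqrt (2 * (10 * C₀ ^ 6 * C₁ ^ 2) * Λ / τ) ≤
        (20 * C₀ ^ 7 * C₁ ^ 2) * Real.sqrt (Λ / κ) := by
      refine (Real.sqrt_le_sqrt h2).trans (phb_sqrt ?_ (by positivity))
      have h5 : 1 ≤ C₀ ^ 7 := one_le_pow₀ hC₀
      have h6 : 1 ≤ C₁ ^ 2 := one_le_pow₀ hC₁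
      nlinarith only [hC₁, p2, h5]
    calc C₀ * (4 * Real.sqrt (2 * (10 * C₀ ^ 6 * C₁ ^ 2) * Λ / τ))
        ≤ C₀ * (4 * ((20 * C₀ ^ 7 * C₁ ^ 2) * Real.sqrt (Λ / κ))) := by
          refine mul_le_mul_of_nonneg_left (mul_le_mul_of_nonneg_left h4 (by norm_num)) hC₀0.le
      _ = 80 * C₀ ^ 8 * C₁ ^ 2 * Real.sqrt (Λ / κ) := by ring
  have hfin : 4 * C₁ * C₀ ^ 3 ≤ 80 * C₀ ^ 8 * C₁ ^ 2 := by
    have h1 : C₁ * C₀ ^ 3 ≤ C₁ ^ 2 * C₀ ^ 8 := mul_le_mul p2 p3 (by positivity) (by positivity)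
    have h2 : 0 ≤ C₁ ^ 2 * C₀ ^ 8 := by positivity
    linarith only [p1, h1]
  calc ‖lph G Θ τ φ μ a‖ ≤ ‖(τ : ℂ) * (Θ *ᵥ (EB G μ *ᵥ φ)) a‖ +
        ‖∑ c, (Θ *ᵥ (((τ : ℂ) • dB G c) *ᵥ fun y => QQ G Θ τ φ y c)) a‖ := norm_add_le _ _
    _ ≤ 4 * C₁ * C₀ ^ 3 * (δ ^ 2 / κ) + 80 * C₀ ^ 8 * C₁ ^ 2 * Real.sqrt (Λ / κ) :=
        add_le_add hD1 hD2
    _ ≤ 80 * C₀ ^ 8 * C₁ ^ 2 * (δ ^ 2 / κ) + 80 * C₀ ^ 8 * C₁ ^ 2 * Real.sqrt (Λ / κ) :=
        add_le_add (mul_le_mul_of_nonneg_right hfin (by positivity)) le_rfl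
    _ = 80 * C₀ ^ 8 * C₁ ^ 2 * (δ ^ 2 / κ + Real.sqrt (Λ / κ)) := by ring

end Pool.Agent.LE.QF.H65
end
end -- Pool.Agent.Helper65_LQF.PHB

section -- Pool.Agent.Helper69_LQX.UPC

/-!
# Squad LQX, row UPC: the part of `Λ` of the functional
-/

set_option autoImplicit false

open scoped ENNReal BigOperators Topology NNReal ComplexOrder Matrix

noncomputable section

namespace Pool.Agent.LE.QX.H69

open Pool.Agent.Anderson hiding box mem_box card_box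
open Pool.Agent.Loc Pool.Agent.Mob Pool.Agent.Helper54.Bal
  Pool.Agent.Helper96.EXP Pool.Agent.BED
open Pool.Agent.LE.MN Pool.Agent.LE.CL Pool.Agent.LE.IR Pool.Agent.LE.QD Pool.Agent.LE.QF

/-- the numbers -/
theorem upc_num {j p : ℕ} {δ ε₁ e₀ L₀ N w π₀ h ch C₀ CL U R κ l : ℝ} (hδ : 0 < δ) (hε : δ ≤ ε₁)
    (he : 1 ≤ e₀) (hL : 1 ≤ L₀) (hN : 1 ≤ N) (hw : 0 ≤ w) (hπ : 0 ≤ π₀) (hch : 0 ≤ ch)
    (hC₀ : 1 ≤ C₀) (hCL : 1 ≤ CL) (hκ : 0 < κ) (hU : 0 ≤ U) (hR : 0 ≤ R)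
    (hl : l ≤ 6 * (j : ℝ) ^ 2 * (2 * CL / κ) * (1 / Real.sqrt L₀ + (C₀ * δ + (e₀ - 1) + ε₁)) *
      (U + R)) :
    l ≤ 12 * CL * (1 + C₀) * (j * (h ^ 2 * (δ + Real.sqrt ch / δ) + δ / ε₁) +
      j ^ 2 * (h ^ 4 * (ch / δ ^ 2) + (N * w + δ ^ 2) / ε₁ ^ 2 +
        1 / Real.sqrt L₀ + ε₁ + (e₀ - 1)) + p * δ + p ^ 2 * (N * w + δ ^ 2 + π₀)) / κ *
      (U + R) := by
  have hε0 : 0 < ε₁ := hδ.trans_le hε
  have hL0 : 0 < L₀ := by linarith only [hL]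
  have hN0 : 0 < N := by linarith only [hN]
  have hs : 0 ≤ 1 / Real.sqrt L₀ := by positivity
  set B : ℝ := 1 / Real.sqrt L₀ + ε₁ + (e₀ - 1) with hB
  have hB0 : 0 ≤ B := by
    rw [hB]
    linarith only [hs, hε0, he]
  have h1 : 1 / Real.sqrt L₀ + (C₀ * δ + (e₀ - 1) + ε₁) ≤ (1 + C₀) * B := by
    have e1 : C₀ * δ ≤ C₀ * ε₁ := mul_le_mul_of_nonneg_left hε (by linarith only [hC₀])
    have e2 : 0 ≤ C₀ * (1 / Real.sqrt L₀) := mul_nonneg (by linarith only [hC₀]) hs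
    have e3 : 0 ≤ C₀ * (e₀ - 1) :=
      mul_nonneg (by linarith only [hC₀]) (by linarith only [he])
    rw [hB]
    linarith only [e1, e2, e3]
  set S : ℝ := j * (h ^ 2 * (δ + Real.sqrt ch / δ) + δ / ε₁) +
      j ^ 2 * (h ^ 4 * (ch / δ ^ 2) + (N * w + δ ^ 2) / ε₁ ^ 2 +
        1 / Real.sqrt L₀ + ε₁ + (e₀ - 1)) + p * δ + p ^ 2 * (N * w + δ ^ 2 + π₀) with hS
  have h2 : (j : ℝ) ^ 2 * B ≤ S := by
    have e1 : 0 ≤ (j : ℝ) * (h ^ 2 * (δ + Real.sqrt ch / δ) + δ / ε₁) := by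
      positivity
    have e2 : 0 ≤ (j : ℝ) ^ 2 * (h ^ 4 * (ch / δ ^ 2) + (N * w + δ ^ 2) / ε₁ ^ 2) := by
      have f1 : 0 ≤ h ^ 4 * (ch / δ ^ 2) := by
        have : 0 ≤ h ^ 4 := by positivity
        positivity
      positivity
    have e3 : 0 ≤ (p : ℝ) * δ := by positivity
    have e4 : 0 ≤ (p : ℝ) ^ 2 * (N * w + δ ^ 2 + π₀) := by positivity
    rw [hB, hS]
    linarith only [e1, e2, e3, e4]
  refine hl.trans (mul_le_mul_of_nonneg_right ?_ (add_nonneg hU hR))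
  have h3 : (j : ℝ) ^ 2 * (1 / Real.sqrt L₀ + (C₀ * δ + (e₀ - 1) + ε₁)) ≤ (1 + C₀) * S := by
    calc (j : ℝ) ^ 2 * (1 / Real.sqrt L₀ + (C₀ * δ + (e₀ - 1) + ε₁))
        ≤ (j : ℝ) ^ 2 * ((1 + C₀) * B) := mul_le_mul_of_nonneg_left h1 (by positivity)
      _ = (1 + C₀) * ((j : ℝ) ^ 2 * B) := by ring
      _ ≤ (1 + C₀) * S := mul_le_mul_of_nonneg_left h2 (by linarith only [hC₀])
  calc 6 * (j : ℝ) ^ 2 * (2 * CL / κ) * (1 / Real.sqrt L₀ + (C₀ * δ + (e₀ - 1) + ε₁))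
      = 12 * CL / κ * ((j : ℝ) ^ 2 * (1 / Real.sqrt L₀ + (C₀ * δ + (e₀ - 1) + ε₁))) := by ring
    _ ≤ 12 * CL / κ * ((1 + C₀) * S) := mul_le_mul_of_nonneg_left h3 (by positivity)
    _ = 12 * CL * (1 + C₀) * S / κ := by ring

/-- the bounds of drift and gradient -/
theorem upc_ineq {L₀ N π₀ κ δ L v ε₃ ε₁ C l γ : ℝ} (hL₀ : 1 ≤ L₀) (hN : 1 ≤ N) (hκ : 0 < κ)
    (hδ : 0 ≤ δ) (hδ1 : δ ≤ 1) (hπ : 0 ≤ π₀) (hC : 1 ≤ C) (hv : 0 ≤ v) (hε₃ : 0 ≤ ε₃)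
    (hε₁ : 0 ≤ ε₁) (hL : L = L₀ * (N + π₀ / κ + δ ^ 4 / κ))
    (hl : l ≤ C / κ * (π₀ / κ + (ε₃ + ε₁) * v +
      Real.sqrt (v * (δ ^ 2 * (N + δ ^ 2 / κ)))))
    (hγ : γ ≤ v * (C / κ * (π₀ / κ + ε₃ * v))) :
    l ≤ 2 * C / κ * (L / L₀ + Real.sqrt (L * v / L₀) + (ε₃ + ε₁) * v) ∧
    γ ≤ v * (2 * C / κ * (L / L₀ + Real.sqrt (L * v / L₀) + (ε₃ + ε₁) * v)) := by
  have hL0 : 0 < L₀ := by linarith only [hL₀]
  have hN0 : 0 < N := by linarith only [hN]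
  have e1 : L / L₀ = N + π₀ / κ + δ ^ 4 / κ := by
    rw [hL]
    field_simp
  have e2 : L * v / L₀ = (N + π₀ / κ + δ ^ 4 / κ) * v := by
    rw [← e1]
    ring
  have hπκ : 0 ≤ π₀ / κ := by positivity
  have hδκ : 0 ≤ δ ^ 4 / κ := by positivity
  have e3 : π₀ / κ ≤ L / L₀ := by
    rw [e1]
    linarith only [hN0, hδκ]
  have e4 : δ ^ 2 * (N + δ ^ 2 / κ) ≤ N + π₀ / κ + δ ^ 4 / κ := by
    have f1 : δ ^ 2 ≤ 1 := pow_le_one₀ hδ hδ1
    have f2 : δ ^ 2 * N ≤ 1 * N := mul_le_mul_of_nonneg_right f1 hN0.le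
    have f3 : δ ^ 2 * (N + δ ^ 2 / κ) = δ ^ 2 * N + δ ^ 4 / κ := by ring
    rw [f3]
    linarith only [f2, hπκ]
  have e6 : Real.sqrt (v * (δ ^ 2 * (N + δ ^ 2 / κ))) ≤ Real.sqrt (L * v / L₀) := by
    apply Real.sqrt_le_sqrt
    rw [e2, mul_comm v]
    exact mul_le_mul_of_nonneg_right e4 hv
  have hs := Real.sqrt_nonneg (L * v / L₀)
  have hCκ : 0 ≤ C / κ := by positivity
  have hε₁v : 0 ≤ ε₁ * v := mul_nonneg hε₁ hv
  have hε₃v : 0 ≤ ε₃ * v := mul_nonneg hε₃ hv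
  have hLL : 0 ≤ L / L₀ := hπκ.trans e3
  have k1 : C / κ * (π₀ / κ + (ε₃ + ε₁) * v +
      Real.sqrt (v * (δ ^ 2 * (N + δ ^ 2 / κ)))) ≤
      2 * C / κ * (L / L₀ + Real.sqrt (L * v / L₀) + (ε₃ + ε₁) * v) := by
    calc _ ≤ C / κ * (2 * (L / L₀ + Real.sqrt (L * v / L₀) + (ε₃ + ε₁) * v)) := by
          apply mul_le_mul_of_nonneg_left _ hCκ
          linarith only [e3, e6, hs, hLL, hε₁v, hε₃v]
      _ = _ := by ring
  have k2 : C / κ * (π₀ / κ + ε₃ * v) ≤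
      2 * C / κ * (L / L₀ + Real.sqrt (L * v / L₀) + (ε₃ + ε₁) * v) := by
    calc _ ≤ C / κ * (2 * (L / L₀ + Real.sqrt (L * v / L₀) + (ε₃ + ε₁) * v)) := by
          apply mul_le_mul_of_nonneg_left _ hCκ
          linarith only [e3, hs, hLL, hε₁v, hε₃v]
      _ = _ := by ring
  exact ⟨hl.trans k1, hγ.trans (mul_le_mul_of_nonneg_left k2 hv)⟩

/-- UPC -/
theorem upc (jtl : JtlStmt) (lmb : QX.LmbStmt) (lmu : LmuStmt) (rsj : QX.RsjStmt) :
    QX.UpcStmt := by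
  intro c₁ C₁ C₀ hc₁ hC₁ hC₀
  obtain ⟨CL, hCL, hlmb⟩ := lmb C₀ hC₀
  refine ⟨12 * CL * (1 + C₀), ?_, ?_⟩
  · nlinarith only [hCL, hC₀]
  intro d M _ D c₀ κ τ q hA hq0 hqT hG
  obtain ⟨hκk, hτt, hηκ, -, hτ0, -, -⟩ := hG.hκ
  obtain ⟨hκ0, hκ1, -, -, -⟩ := hG.hG.hκ
  obtain ⟨hδ0, hCδ, hN1⟩ := hG.hG.hδ
  have hkp : 0 < D.kp q.1 := hκk ▸ hκ0
  obtain ⟨hJ, -, -, -, -, hLs, hLs'⟩ := rsj d M D c₁ C₁ c₀ q hc₁ hA hkp
  obtain ⟨hj, hp, hL₀, hN, hπ⟩ := hA.hj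
  obtain ⟨hδp, hδε, -⟩ := hA.hδ
  obtain ⟨he1, he01, -⟩ := hA.he
  obtain ⟨hS1, hS2, -, hS4⟩ := hA.hS
  have hη := hA.hT.2.1
  have hε0 : 0 < D.ε₁ := hδp.trans_le hδε
  have he : 1 ≤ D.e₀ := he1.le.trans he01
  have hε₃ : 0 ≤ C₀ * D.δ + (D.e₀ - 1) := by
    have : 0 ≤ C₀ * D.δ := mul_nonneg (by linarith only [hC₀]) hδ0
    linarith only [this, he]
  have hδ1 : D.δ ≤ 1 := by nlinarith only [hCδ, hC₀, hδ0]
  have hL : D.Ls q.1 = D.L₀ * (D.N + D.π₀ / κ + D.δ ^ 4 / κ) := by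
    rw [hκk]
    rfl
  have hLpos : 0 < D.Ls q.1 := by
    rw [hL]
    have h1 : 0 ≤ D.π₀ / κ := by positivity
    have h2 : 0 ≤ D.δ ^ 4 / κ := by positivity
    have h3 : 0 < D.L₀ := by linarith only [hL₀]
    exact mul_pos h3 (by linarith only [h1, h2, hN])
  have hcardeq : (Fintype.card (Tor d M) : ℝ) = (M : ℝ) ^ d := by
    rw [show Fintype.card (Tor d M) = M ^ d from by simp [Tor, ZMod.card]]
    push_cast
    rfl
  have hMd : (0 : ℝ) < (M : ℝ) ^ d := by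
    have h1 : 0 < M := Nat.pos_of_ne_zero (NeZero.ne M)
    positivity
  have hSd : ∀ a, D.S a a + 1 / (κ * (Fintype.card (Tor d M) : ℝ)) ≤ D.π₀ := by
    intro a
    refine le_trans (add_le_add le_rfl ?_) (hS4 a)
    rw [hcardeq]
    exact one_div_le_one_div_of_le (mul_pos hη hMd) (mul_le_mul_of_nonneg_right hηκ hMd.le)
  have hv : ∀ a, 0 ≤ D.La q a := fun a => Finset.sum_nonneg fun b _ => sq_nonneg _
  have hjet : ∀ a, HJ (fun r => D.La r a) q (D.La q a)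
      (fun c => 2 * ∑ b, KK (D.G q) a b * dK (D.G q) c a b) (lLa (D.G q) (D.mu q) a) :=
    fun a => jtl (Tor d M) q D.G D.ta (D.G q) D.m (D.ta q.1) (D.mu q) hJ rfl a
  have hb : ∀ a, lLa (D.G q) (D.mu q) a ≤ 2 * CL / κ * (D.Ls q.1 / D.L₀ +
        Real.sqrt (D.Ls q.1 * D.La q a / D.L₀) + (C₀ * D.δ + (D.e₀ - 1) + D.ε₁) * D.La q a) ∧
      ∑ c, (2 * ∑ b, KK (D.G q) a b * dK (D.G q) c a b) ^ 2 ≤ D.La q a * (2 * CL / κ *
        (D.Ls q.1 / D.L₀ + Real.sqrt (D.Ls q.1 * D.La q a / D.L₀) +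
          (C₀ * D.δ + (D.e₀ - 1) + D.ε₁) * D.La q a)) := by
    intro a
    obtain ⟨b1, b2⟩ := hlmb (Tor d M) (D.G q) (D.mu q) D.nr D.S κ τ D.δ D.N D.π₀ D.ε₁
      (C₀ * D.δ + (D.e₀ - 1)) a hG.hG hε0.le hε₃ hS1 hS2 hSd hG.hB hG.hK
    exact upc_ineq hL₀ hN hκ0 hδ0 hδ1 hπ hCL (hv a) hε₃ hε0.le hL b1 b2
  obtain ⟨g', l', hU, hl'⟩ := lmu (Tor d M) q (Tor d M) (fun a r => D.La r a) (fun a => D.La q a)
    (fun a => lLa (D.G q) (D.mu q) a)
    (fun a c => 2 * ∑ b, KK (D.G q) a b * dK (D.G q) c a b) D.Ls (2 * CL) κ (D.Ls q.1) D.L₀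
    (C₀ * D.δ + (D.e₀ - 1) + D.ε₁) D.j (by linarith only [hCL]) hκ0 hLpos hL₀
    (by linarith only [hε₃, hε0]) (by omega) hjet hLs rfl hLs' hv (fun a => (hb a).1)
    (fun a => (hb a).2)
  have hU' : HJ D.U4 q (D.U4 q) g' l' := hU
  refine ⟨hU'.sm, ?_⟩
  rw [hU'.ge]
  have hU0 : 0 ≤ D.U4 q := Finset.sum_nonneg fun a _ => pow_nonneg (div_nonneg (hv a) hLpos.le) _
  have hM1 : (1 : ℝ) ≤ (M : ℝ) ^ d := by
    have h1 : 1 ≤ M := Nat.one_le_iff_ne_zero.2 (NeZero.ne M)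
    exact one_le_pow₀ (by exact_mod_cast h1)
  have hcard : (Fintype.card (Tor d M) : ℝ) ≤ ((M : ℝ) ^ d) ^ 2 := by
    rw [hcardeq]
    nlinarith only [hM1]
  have hR : (Fintype.card (Tor d M) : ℝ) * (1 / 4) ^ D.j ≤ ((M : ℝ) ^ d) ^ 2 * (1 / 4) ^ D.j :=
    mul_le_mul_of_nonneg_right hcard (by positivity)
  have hw : 0 ≤ D.w := by
    have h1 := hA.hm.1
    have h2 := hA.hT
    change 0 ≤ D.η + (D.T - 0) * D.m.im
    have h3 : 0 ≤ (D.T - 0) * D.m.im :=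
      mul_nonneg (by linarith only [h2.1]) (by linarith only [h1, hc₁])
    linarith only [h3, h2.2.1]
  have hch : 0 ≤ D.ch := by
    change 0 ≤ D.L₀ * (D.N * D.w + D.π₀ + D.δ ^ 4)
    have h1 : 0 ≤ D.N * D.w := mul_nonneg (by linarith only [hN]) hw
    have h2 : 0 ≤ D.δ ^ 4 := by positivity
    exact mul_nonneg (by linarith only [hL₀]) (by linarith only [h1, h2, hπ])
  refine upc_num (j := D.j) (p := D.p) (h := D.h) (ch := D.ch) hδp hδε he hL₀ hN hw hπ hch hC₀ hCL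
    hκ0 hU0 (by positivity) ?_
  refine hl'.trans ?_
  have hfac : 0 ≤ 6 * (D.j : ℝ) ^ 2 * (2 * CL / κ) *
      (1 / Real.sqrt D.L₀ + (C₀ * D.δ + (D.e₀ - 1) + D.ε₁)) := by
    have h1 : 0 ≤ 1 / Real.sqrt D.L₀ := by positivity
    have h2 : 0 ≤ 1 / Real.sqrt D.L₀ + (C₀ * D.δ + (D.e₀ - 1) + D.ε₁) := by
      linarith only [h1, hε₃, hε0]
    have h3 : 0 ≤ 2 * CL / κ := by positivity
    positivity
  exact mul_le_mul_of_nonneg_left (add_le_add le_rfl hR) hfac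

end Pool.Agent.LE.QX.H69
end
end -- Pool.Agent.Helper69_LQX.UPC

section -- Pool.Agent.Helper85_LQF.JTX

set_option autoImplicit false

/-!
# Squad LQF, row JTX: the jet of `G + τ G φ G - G₀`
-/

open MeasureTheory ProbabilityTheory Function Filter

open scoped BigOperators Topology Matrix

noncomputable section

namespace Pool.Agent.LE.QF.H85

open Pool.Agent.LE.QF

section

variable {X : Type} [Fintype X] [DecidableEq X]

lemma gd_apply (G : Matrix X X ℂ) (ν : X → ℂ) (a b : X) :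
    GD G ν a b = ∑ c, G a c * ν c * G c b := by
  unfold GD
  rw [Matrix.mul_apply]
  apply Finset.sum_congr rfl
  intro c _
  rw [Matrix.mul_diagonal]

lemma sum_gG (G : Matrix X X ℂ) (hs : ∀ a b, G a b = G b a) (φ : X → ℂ) :
    ∑ c, gG G c * Matrix.diagonal φ * gG G c = GD G (BB G *ᵥ φ) := by
  ext a b
  rw [gd_apply, Matrix.sum_apply]
  apply Finset.sum_congr rfl
  intro c _
  rw [Matrix.mul_apply]
  have h1 : (BB G *ᵥ φ) c = ∑ y, G c y ^ 2 * φ y := rfl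
  rw [h1, Finset.mul_sum, Finset.sum_mul]
  apply Finset.sum_congr rfl
  intro y _
  rw [Matrix.mul_diagonal]
  unfold gG
  rw [hs y c]
  ring

lemma gd_add (G : Matrix X X ℂ) (ν ν' : X → ℂ) : GD G (ν + ν') = GD G ν + GD G ν' := by
  ext a b
  rw [Matrix.add_apply, gd_apply, gd_apply, gd_apply, ← Finset.sum_add_distrib]
  apply Finset.sum_congr rfl
  intro c _
  rw [Pi.add_apply]
  ring

lemma gd_smul (G : Matrix X X ℂ) (t : ℂ) (ν : X → ℂ) : GD G (t • ν) = t • GD G ν := by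
  ext a b
  rw [Matrix.smul_apply, gd_apply, gd_apply, smul_eq_mul, Finset.mul_sum]
  apply Finset.sum_congr rfl
  intro c _
  rw [Pi.smul_apply, smul_eq_mul]
  ring

/-- the algebraic identity for the generator -/
lemma drift (G Q : Matrix X X ℂ) (hs : ∀ a b, G a b = G b a) (τ : ℝ) (μ φ ψ : X → ℂ)
    (hmu : ∀ a, μ a = φ a - τ * (BB G *ᵥ φ) a) :
    GD G μ + ((τ : ℂ) • (G * Matrix.diagonal φ * GD G μ +
      (G * Matrix.diagonal ψ + GD G μ * Matrix.diagonal φ +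
        ∑ c, gG G c * Matrix.diagonal (fun y => Q y c)) * G +
      ∑ c, (G * Matrix.diagonal (fun y => Q y c) + gG G c * Matrix.diagonal φ) * gG G c) -
      GD G φ) = lX G Q τ φ μ ψ := by
  have h0 : μ + (τ : ℂ) • (BB G *ᵥ φ) = φ := by
    funext a
    rw [Pi.add_apply, Pi.smul_apply, smul_eq_mul, hmu a]
    ring
  have h1 : GD G φ = GD G μ + (τ : ℂ) • ∑ c, gG G c * Matrix.diagonal φ * gG G c := by
    rw [sum_gG G hs, ← gd_smul, ← gd_add, h0]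
  have h2 : ∑ c, (G * Matrix.diagonal (fun y => Q y c) + gG G c * Matrix.diagonal φ) * gG G c =
      ∑ c, G * Matrix.diagonal (fun y => Q y c) * gG G c +
        ∑ c, gG G c * Matrix.diagonal φ * gG G c := by
    rw [← Finset.sum_add_distrib]
    apply Finset.sum_congr rfl
    intro c _
    rw [add_mul]
  have h3 : ∑ c, (gG G c * Matrix.diagonal (fun y => Q y c) * G +
      G * Matrix.diagonal (fun y => Q y c) * gG G c) =
      (∑ c, gG G c * Matrix.diagonal (fun y => Q y c)) * G +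
        ∑ c, G * Matrix.diagonal (fun y => Q y c) * gG G c := by
    rw [Finset.sum_add_distrib, Finset.sum_mul]
  have h4 : G * Matrix.diagonal φ * GD G μ = GD G φ * Matrix.diagonal μ * G := by
    unfold GD
    simp only [Matrix.mul_assoc]
  have h5 : GD G μ * Matrix.diagonal φ * G = G * Matrix.diagonal μ * GD G φ := by
    unfold GD
    simp only [Matrix.mul_assoc]
  have h6 : G * Matrix.diagonal ψ * G = GD G ψ := rfl
  unfold lX
  rw [h2, h3, add_mul, add_mul, h4, h5, h6]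
  have h7 : (τ : ℂ) • (GD G φ * Matrix.diagonal μ * G +
      (GD G ψ + G * Matrix.diagonal μ * GD G φ +
        (∑ c, gG G c * Matrix.diagonal (fun y => Q y c)) * G) +
      (∑ c, G * Matrix.diagonal (fun y => Q y c) * gG G c +
        ∑ c, gG G c * Matrix.diagonal φ * gG G c)) =
      (τ : ℂ) • (GD G ψ + G * Matrix.diagonal μ * GD G φ + GD G φ * Matrix.diagonal μ * G +
        ((∑ c, gG G c * Matrix.diagonal (fun y => Q y c)) * G +
        ∑ c, G * Matrix.diagonal (fun y => Q y c) * gG G c)) +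
      (τ : ℂ) • ∑ c, gG G c * Matrix.diagonal φ * gG G c := by
    rw [← smul_add]
    congr 1
    abel
  rw [h7, h1]
  abel

end

/-- the jet of `τ` -/
lemma ht_jet (jal : JalStmt) {X : Type} [Fintype X] [DecidableEq X] (q : ℝ × (X → ℝ))
    (ta : ℝ → ℝ) (τ : ℝ) (h : ContDiffAt ℝ 2 ta q.1 ∧ ta q.1 = τ ∧ deriv ta q.1 = -1) :
    HJ (fun r : ℝ × (X → ℝ) => ((ta r.1 : ℝ) : ℂ)) q (τ : ℂ) (fun _ => 0) (-1) := by
  obtain ⟨h1, h2, h3⟩ := h
  obtain ⟨_, _, _, _, _, _, jt, _⟩ := jal X ℂ q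
  have hc : ContDiffAt ℝ 2 (fun t : ℝ => ((ta t : ℝ) : ℂ)) q.1 :=
    Complex.ofRealCLM.contDiff.contDiffAt.comp _ h1
  have hd : deriv (fun t : ℝ => ((ta t : ℝ) : ℂ)) q.1 = -1 := by
    have h4 : HasDerivAt ta (-1) q.1 := by
      rw [← h3]
      exact (h1.differentiableAt (by norm_num)).hasDerivAt
    have h5 := h4.ofReal_comp.deriv
    rw [h5]
    push_cast
    rfl
  have := jt (fun t : ℝ => ((ta t : ℝ) : ℂ)) hc
  rw [hd] at this
  simp only [h2] at this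
  exact this

theorem jtx (jal : JalStmt) (jma : JmaStmt) : JtxStmt := by
  intro X _ _ q Gm ta G G₀ Q m τ ph μ φ ψ hJ hμ hph hmu
  have hG := hJ.hG
  rw [← hμ] at hG
  obtain ⟨jc, _, jadd, _, _, _, _, _⟩ := jal X ℂ q
  have mprod := (jma X ℂ q).1
  have hd : HM (fun r => Matrix.diagonal (ph r)) q (Matrix.diagonal φ)
      (fun c => Matrix.diagonal (fun y => Q y c)) (Matrix.diagonal ψ) := by
    intro a b
    by_cases hab : a = b
    · subst hab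
      simp only [Matrix.diagonal_apply_eq]
      exact hph a
    · simp only [Matrix.diagonal_apply_ne _ hab]
      exact jc (0 : ℂ)
  have h1 := mprod X X X Gm (fun r => Matrix.diagonal (ph r)) G (GD G μ) (Matrix.diagonal φ)
    (Matrix.diagonal ψ) (gG G) (fun c => Matrix.diagonal (fun y => Q y c)) hG hd
  have h2 := mprod X X X _ Gm _ _ _ _ _ _ h1 hG
  have htau := ht_jet jal q ta τ hJ.ht
  intro a b
  have h3 := (jadd _ _ _ _ _ _ _ _ htau (h2 a b)).2.2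
  have h4 := (jadd _ _ _ _ _ _ _ _ (hG a b) h3).1
  have h5 := (jadd _ _ _ _ _ _ _ _ h4 (jc (G₀ a b))).2.1
  have e1 : (fun r => (Gm r + (ta r.1 : ℂ) • GD (Gm r) (ph r) - G₀) a b) =
      fun r => Gm r a b + (ta r.1 : ℂ) * (Gm r * Matrix.diagonal (ph r) * Gm r) a b - G₀ a b := by
    funext r
    rfl
  have e2 : (G + (τ : ℂ) • GD G φ - G₀) a b =
      G a b + (τ : ℂ) * (G * Matrix.diagonal φ * G) a b - G₀ a b := rfl
  have e3 : (fun c => dX G Q τ φ c a b) = fun c =>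
      gG G c a b + ((τ : ℂ) * (G * Matrix.diagonal φ * gG G c +
        (G * Matrix.diagonal (fun y => Q y c) + gG G c * Matrix.diagonal φ) * G) a b +
          0 * (G * Matrix.diagonal φ * G) a b) - 0 := by
    funext c
    have : dX G Q τ φ c a b = gG G c a b + (τ : ℂ) * (gG G c * Matrix.diagonal φ * G +
        G * Matrix.diagonal φ * gG G c + G * Matrix.diagonal (fun y => Q y c) * G) a b := rfl
    rw [this, add_mul, zero_mul, add_zero, sub_zero, Matrix.add_apply, Matrix.add_apply,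
      Matrix.add_apply, Matrix.add_apply]
    ring
  have e4 : lX G Q τ φ μ ψ a b = GD G μ a b + ((τ : ℂ) * (G * Matrix.diagonal φ * GD G μ +
      (G * Matrix.diagonal ψ + GD G μ * Matrix.diagonal φ +
        ∑ c, gG G c * Matrix.diagonal (fun y => Q y c)) * G +
      ∑ c, (G * Matrix.diagonal (fun y => Q y c) + gG G c * Matrix.diagonal φ) * gG G c) a b +
      -1 * (G * Matrix.diagonal φ * G) a b + ∑ c : X, 0 * (G * Matrix.diagonal φ * gG G c +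
        (G * Matrix.diagonal (fun y => Q y c) + gG G c * Matrix.diagonal φ) * G) a b) - 0 := by
    rw [← drift G Q hJ.hs τ μ φ ψ hmu, Matrix.add_apply, Matrix.sub_apply, Matrix.smul_apply,
      smul_eq_mul]
    have h7 : ∑ c : X, 0 * (G * Matrix.diagonal φ * gG G c +
        (G * Matrix.diagonal (fun y => Q y c) + gG G c * Matrix.diagonal φ) * G) a b = 0 := by
      simp only [zero_mul, Finset.sum_const_zero]
    rw [h7]
    have h8 : GD G φ a b = (G * Matrix.diagonal φ * G) a b := rfl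
    rw [h8]
    ring
  rw [e1, e2, e3, e4]
  exact h5

end Pool.Agent.LE.QF.H85
end
end -- Pool.Agent.Helper85_LQF.JTX

section -- Pool.Agent.Helper87_LQX.UPB

/-!
# Squad LQX, row UPB: the part of `Y` (copy of Helper91_LQF/UPB.lean)
-/

set_option autoImplicit false

open MeasureTheory ProbabilityTheory Function Filter

open scoped ENNReal BigOperators Topology NNReal ComplexOrder Matrix

noncomputable section

namespace Pool.Agent.LE.QX.H87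

open Pool.Agent.Anderson hiding box mem_box card_box
open Pool.Agent.Loc Pool.Agent.Mob Pool.Agent.Helper54.Bal
  Pool.Agent.Helper96.EXP Pool.Agent.BED
open Pool.Agent.LE.MN Pool.Agent.LE.CL Pool.Agent.LE.IR Pool.Agent.LE.QD Pool.Agent.LE.QF

variable {d M : ℕ} [NeZero M]

namespace UPB

theorem cardT : (Fintype.card (Tor d M) : ℝ) = (M : ℝ) ^ d := by
  have h : Fintype.card (Tor d M) = M ^ d := by
    simp [Tor, ZMod.card]
  rw [h]
  push_cast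
  rfl

theorem n2_smul {X : Type} [Fintype X] (A : Matrix X X ℂ) (t : ℝ) (u : X → ℂ) :
    n2 (((t : ℂ) • A) *ᵥ u) = t ^ 2 * n2 (A *ᵥ u) := by
  unfold n2
  rw [Finset.mul_sum]
  refine Finset.sum_congr rfl fun x _ => ?_
  rw [Matrix.smul_mulVec, Pi.smul_apply, norm_smul, mul_pow, Complex.norm_real, Real.norm_eq_abs,
    sq_abs]

theorem n2_nonneg {X : Type} [Fintype X] (u : X → ℂ) : 0 ≤ n2 u :=
  Finset.sum_nonneg fun _ _ => sq_nonneg _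

/-- the rate -/
theorem rate (D : Dat d M) {c₁ C₁ c₀ κ K : ℝ} (hA : Adm D c₁ C₁ c₀)
    (h1 : D.η ≤ κ) (h2 : κ ≤ D.w) (hK : 0 ≤ K) :
    4 * D.j * (K * (D.δ / κ)) / D.ε₁ + 8 * D.j ^ 2 * (K * (D.N + D.δ ^ 2 / κ)) / D.ε₁ ^ 2 ≤
      8 * K * D.aN / κ := by
  have hη : 0 < D.η := hA.hT.2.1
  have hκ0 : 0 < κ := hη.trans_le h1
  obtain ⟨-, -, hL, hN, hπ⟩ := hA.hj
  obtain ⟨hδ0, hδε, -⟩ := hA.hδ
  have hε : 0 < D.ε₁ := hδ0.trans_le hδε
  have hw : 0 < D.w := hκ0.trans_le h2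
  have he : 0 < D.e₀ - 1 := by linarith only [hA.he.1, hA.he.2.1]
  have hch : 0 ≤ D.ch := by
    unfold Dat.ch
    positivity
  have hj : (0 : ℝ) ≤ D.j := Nat.cast_nonneg _
  have e1 : 4 * D.j * (K * (D.δ / κ)) / D.ε₁ = 4 * K * (D.j * (D.δ / D.ε₁)) / κ := by
    field_simp
  have e2 : 8 * D.j ^ 2 * (K * (D.N + D.δ ^ 2 / κ)) / D.ε₁ ^ 2 ≤
      8 * K * (D.j ^ 2 * ((D.N * D.w + D.δ ^ 2) / D.ε₁ ^ 2)) / κ := by
    have e3 : D.N + D.δ ^ 2 / κ = (D.N * κ + D.δ ^ 2) / κ := by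
      field_simp
    have e4 : (D.N * κ + D.δ ^ 2) / κ ≤ (D.N * D.w + D.δ ^ 2) / κ := by
      gcongr
    have e5 : 8 * D.j ^ 2 * (K * (D.N + D.δ ^ 2 / κ)) / D.ε₁ ^ 2 ≤
        8 * D.j ^ 2 * (K * ((D.N * D.w + D.δ ^ 2) / κ)) / D.ε₁ ^ 2 := by
      rw [e3]
      gcongr
    refine e5.trans (le_of_eq ?_)
    field_simp
  have e5 : D.j * (D.δ / D.ε₁) + D.j ^ 2 * ((D.N * D.w + D.δ ^ 2) / D.ε₁ ^ 2) ≤ D.aN := by
    unfold Dat.aN
    have hh : 0 ≤ D.h := by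
      unfold Dat.h
      positivity
    have a1 : 0 ≤ D.j * (D.h ^ 2 * (D.δ + Real.sqrt D.ch / D.δ)) := by positivity
    have a3 : 0 ≤ 1 / Real.sqrt D.L₀ := by positivity
    have a4 : 0 ≤ (D.j : ℝ) ^ 2 * (D.h ^ 4 * (D.ch / D.δ ^ 2) + 1 / Real.sqrt D.L₀ + D.ε₁ +
      (D.e₀ - 1)) := by positivity
    have a5 : 0 ≤ D.p * D.δ + D.p ^ 2 * (D.N * D.w + D.δ ^ 2 + D.π₀) := by positivity
    nlinarith only [a1, a4, a5]
  have e6 : 0 ≤ D.j * (D.δ / D.ε₁) := by positivity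
  have e7 : 0 ≤ (D.j : ℝ) ^ 2 * ((D.N * D.w + D.δ ^ 2) / D.ε₁ ^ 2) := by positivity
  have e8 : 4 * K * (D.j * (D.δ / D.ε₁)) / κ +
      8 * K * (D.j ^ 2 * ((D.N * D.w + D.δ ^ 2) / D.ε₁ ^ 2)) / κ ≤ 8 * K * D.aN / κ := by
    rw [← add_div]
    gcongr
    nlinarith only [mul_nonneg hK e6, mul_nonneg hK e7, mul_le_mul_of_nonneg_left e5 hK]
  rw [e1]
  linarith

end UPB

open UPB in
/-- UPB -/
theorem upb (jtb : JtbStmt) (nrb : NrbStmt) (ytu : YtuStmt) (rsj : RsjStmt) : UpbStmt := by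
  intro c₁ C₁ C₀ hc₁ hC₁ hC₀
  obtain ⟨P, hP, nrb⟩ := nrb C₀ hC₀
  have hC2 : (1 : ℝ) ≤ C₀ ^ 2 := one_le_pow₀ hC₀
  have hK1 : (1 : ℝ) ≤ C₀ ^ 2 * P := one_le_mul_of_one_le_of_one_le hC2 hP
  refine ⟨8 * (C₀ ^ 2 * P), by linarith only [hK1], ?_⟩
  intro d M _ D c₀ κ τ q hc₀ hA hq0 hqT hg
  obtain ⟨hκe, hτe, h1, h2, hτ0, hτ1, hτ2⟩ := hg.hκ
  have hη : 0 < D.η := hA.hT.2.1
  have hκ0 : 0 < κ := hη.trans_le h1
  obtain ⟨hδ0, hδε, hεc⟩ := hA.hδ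
  have hε : 0 < D.ε₁ := hδ0.trans_le hδε
  have hN : 0 ≤ D.N := by linarith only [hA.hj.2.2.2.1, hc₀, hδ0, hδε, hεc]
  have hr := rsj d M D c₁ C₁ c₀ q hc₁ hA (hκe ▸ hκ0)
  have hJ := hr.1
  rw [← hτe] at hJ
  obtain ⟨-, -, -, n4, n5, n6⟩ := nrb (Tor d M) (D.G q) (D.mu q) D.nr κ τ D.δ D.N hg.hG
  obtain ⟨-, -, -, j4, -⟩ := jtb (Tor d M) q D.G D.ta (D.G q) D.m τ (D.mu q) hJ rfl
  have hYe : (fun r => (D.ta r.1 : ℂ) • BB (D.G r)) = D.Y := rfl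
  have hYq : D.Y q = (τ : ℂ) • BB (D.G q) := by
    rw [hτe]
    rfl
  rw [hYe] at j4
  have hτc : (τ : ℂ) ≠ 0 := by exact_mod_cast hτ0.ne'
  have hl : -BB (D.G q) + (τ : ℂ) • (BB (D.G q) * BB (D.G q) + EB (D.G q) (D.mu q)) =
      -(((1 / τ : ℝ) : ℂ) • ((τ : ℂ) • BB (D.G q) - ((τ : ℂ) • BB (D.G q)) *
        ((τ : ℂ) • BB (D.G q)))) + (τ : ℂ) • EB (D.G q) (D.mu q) := by
    have e1 : ((1 / τ : ℝ) : ℂ) * (τ : ℂ) = 1 := by
      push_cast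
      field_simp
    rw [smul_sub, smul_smul, e1, one_smul, Matrix.smul_mul, Matrix.mul_smul, smul_smul, smul_smul,
      smul_add, e1, one_mul]
    abel
  rw [hl] at j4
  have hτκ : τ / κ ≤ C₀ := by
    rw [div_le_iff₀ hκ0]
    exact hτ1
  have hτκ2 : τ ^ 2 ≤ C₀ ^ 2 * κ ^ 2 := by
    rw [← mul_pow]
    exact pow_le_pow_left₀ hτ0.le hτ1 2
  obtain ⟨g', l', J, hl'⟩ := ytu (Tor d M) q (Tor d M) D.Y ((τ : ℂ) • BB (D.G q))
    ((τ : ℂ) • EB (D.G q) (D.mu q)) (fun c => (τ : ℂ) • dB (D.G q) c) τ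
    (C₀ ^ 2 * P * (D.δ / κ)) D.ε₁ (C₀ ^ 2 * P * (D.N + D.δ ^ 2 / κ)) D.j hτ0 (by positivity) hε
    (by positivity) (by linarith only [hA.hj.1]) j4
    (fun u => by
      rw [n2_smul]
      have h5 := hg.hB u
      have h6 : τ ^ 2 * n2 (BB (D.G q) *ᵥ u) ≤ τ ^ 2 * ((D.ε₁ / τ) ^ 2 * n2 u) :=
        mul_le_mul_of_nonneg_left h5 (by positivity)
      have h7 : τ ^ 2 * ((D.ε₁ / τ) ^ 2 * n2 u) = D.ε₁ ^ 2 * n2 u := by
        field_simp
      have h8 : D.ε₁ ^ 2 ≤ 1 := pow_le_one₀ hε.le (by linarith only [hc₀, hδ0, hδε, hεc])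
      have h9 := mul_le_mul_of_nonneg_right h8 (n2_nonneg u)
      linarith)
    (fun u => by
      rw [n2_smul]
      have h6 : τ ^ 2 * n2 (EB (D.G q) (D.mu q) *ᵥ u) ≤
          C₀ ^ 2 * κ ^ 2 * ((P * D.δ / κ ^ 2) ^ 2 * n2 u) :=
        mul_le_mul hτκ2 (n4 u) (n2_nonneg _) (by positivity)
      have h7 : C₀ ^ 2 * κ ^ 2 * ((P * D.δ / κ ^ 2) ^ 2 * n2 u) =
          C₀ ^ 2 * ((P * (D.δ / κ)) ^ 2 * n2 u) := by
        field_simp
      have h8 : (C₀ ^ 2 * P * (D.δ / κ)) ^ 2 * n2 u =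
          C₀ ^ 2 * (C₀ ^ 2 * ((P * (D.δ / κ)) ^ 2 * n2 u)) := by ring
      rw [h8]
      rw [h7] at h6
      refine h6.trans (le_mul_of_one_le_left ?_ hC2)
      have := n2_nonneg u
      positivity)
    (fun u => by
      simp only [n2_smul]
      rw [← Finset.mul_sum]
      have h6 : τ ^ 2 * ∑ c, n2 (dB (D.G q) c *ᵥ u) ≤
          C₀ ^ 2 * κ ^ 2 * (P * (D.N / κ ^ 2 + D.δ ^ 2 / κ ^ 3) * n2 u) :=
        mul_le_mul hτκ2 (n5 u) (Finset.sum_nonneg fun _ _ => n2_nonneg _) (by positivity)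
      refine h6.trans (le_of_eq ?_)
      field_simp)
    (fun u => by
      have h5 : ∀ c, ((τ : ℂ) • dB (D.G q) c)ᴴ = (τ : ℂ) • (dB (D.G q) c)ᴴ := by
        intro c
        rw [Matrix.conjTranspose_smul]
        congr 1
        exact Complex.conj_ofReal τ
      simp only [h5, n2_smul]
      rw [← Finset.mul_sum]
      have h6 : τ ^ 2 * ∑ c, n2 ((dB (D.G q) c)ᴴ *ᵥ u) ≤
          C₀ ^ 2 * κ ^ 2 * (P * (D.N / κ ^ 2 + D.δ ^ 2 / κ ^ 3) * n2 u) :=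
        mul_le_mul hτκ2 (n6 u) (Finset.sum_nonneg fun _ _ => n2_nonneg _) (by positivity)
      refine h6.trans (le_of_eq ?_)
      field_simp)
  rw [← hYq] at J hl'
  have J' : HJ D.U3 q (D.U3 q) g' l' := J
  refine ⟨J'.sm, ?_⟩
  rw [J'.ge]
  have e1 : (Matrix.trace ((D.Y q * (D.Y q)ᴴ) ^ D.j)).re / D.ε₁ ^ (2 * D.j) = D.U3 q := rfl
  rw [e1, cardT] at hl'
  have hU : 0 ≤ D.U3 q := by
    have hps : ((D.Y q * (D.Y q)ᴴ) ^ D.j).PosSemidef :=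
      (Matrix.posSemidef_self_mul_conjTranspose (D.Y q)).pow D.j
    have h5 := (Complex.le_def.1 hps.trace_nonneg).1
    unfold Dat.U3
    exact div_nonneg h5 (by positivity)
  have hM : (1 : ℝ) ≤ (M : ℝ) ^ d :=
    one_le_pow₀ (by exact_mod_cast Nat.one_le_iff_ne_zero.2 (NeZero.ne M))
  have e3 : (M : ℝ) ^ d ≤ ((M : ℝ) ^ d) ^ 2 := by nlinarith only [hM]
  have e4 : (M : ℝ) ^ d * (1 / 4) ^ D.j ≤ ((M : ℝ) ^ d) ^ 2 * (1 / 4) ^ D.j :=
    mul_le_mul_of_nonneg_right e3 (by positivity)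
  have e5 : 0 ≤ (M : ℝ) ^ d * (1 / 4) ^ D.j := by positivity
  have r := rate D (K := C₀ ^ 2 * P) hA h1 h2 (by linarith only [hK1, hc₀, hδ0, hδε, hεc])
  have r0 : 0 ≤ 4 * D.j * (C₀ ^ 2 * P * (D.δ / κ)) / D.ε₁ +
      8 * D.j ^ 2 * (C₀ ^ 2 * P * (D.N + D.δ ^ 2 / κ)) / D.ε₁ ^ 2 := by positivity
  refine hl'.trans ?_
  refine (mul_le_mul_of_nonneg_right r (by linarith)).trans ?_
  exact mul_le_mul_of_nonneg_left (by linarith) (r0.trans r)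

end Pool.Agent.LE.QX.H87
end
end -- Pool.Agent.Helper87_LQX.UPB

section -- Pool.Agent.Helper8_LQF.JTB

set_option autoImplicit false

open MeasureTheory ProbabilityTheory Function Filter

open scoped ENNReal BigOperators Topology NNReal ComplexOrder Matrix

noncomputable section

namespace Pool.Agent.LE.QF.H8

open Pool.Agent.LE.QF

section

variable {ι : Type} [Fintype ι] [DecidableEq ι] {E : Type} [NormedAddCommGroup E]
  [NormedSpace ℝ E]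

theorem hj_cast {F F' : ℝ × (ι → ℝ) → E} {q : ℝ × (ι → ℝ)} {v v' : E} {g g' : ι → E} {l l' : E}
    (h : HJ F q v g l) (hF : F = F') (hv : v = v') (hg : g = g') (hl : l = l') :
    HJ F' q v' g' l' := by
  subst hF hv hg hl
  exact h

end

section

variable {X : Type} [Fintype X] [DecidableEq X]

theorem gd_apply (G : Matrix X X ℂ) (φ : X → ℂ) (a b : X) :
    GD G φ a b = ∑ c, G a c * φ c * G c b := by
  rw [GD, Matrix.mul_apply]
  refine Finset.sum_congr rfl fun c _ => ?_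
  rw [Matrix.mul_diagonal]

theorem jtb_dl (hJ : JalStmt) {q : ℝ × (X → ℝ)} {F : ℝ × (X → ℝ) → Matrix X X ℝ}
    {v l : Matrix X X ℝ} {g : X → Matrix X X ℝ} (h : HM F q v g l) :
    HM (fun r => Dl (F r)) q (Dl v) (fun c => Dl (g c)) (Dl l) := by
  obtain ⟨hc, _, hadd, _, _, hsum, _, _⟩ := hJ X ℝ q
  intro a b
  by_cases hab : a = b
  · have h1 := hsum X Finset.univ (fun y r => F r a y) (fun y => v a y) (fun y => l a y)
      (fun y c => g c a y) fun y _ => h a y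
    have h2 := (hadd _ _ _ _ _ _ _ _ h1 (h a b)).2.1
    refine hj_cast h2 ?_ ?_ ?_ ?_
    · funext r
      simp [Dl, hab]
    · simp [Dl, hab]
    · funext c
      simp [Dl, hab]
    · simp [Dl, hab]
  · have h2 := (hadd _ _ _ _ _ _ _ _ (hc 0) (h a b)).2.1
    refine hj_cast h2 ?_ ?_ ?_ ?_
    · funext r
      simp [Dl, hab]
    · simp [Dl, hab]
    · funext c
      simp [Dl, hab]
    · simp [Dl, hab]

theorem hj_re (hJ : JalStmt) {q : ℝ × (X → ℝ)} {F : ℝ × (X → ℝ) → ℂ} {v l : ℂ} {g : X → ℂ}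
    (h : HJ F q v g l) : HJ (fun r => (F r).re) q v.re (fun c => (g c).re) l.re := by
  have h1 := ((hJ X ℂ q).2.2.2.1 F v l g h).2.1
  exact h1

theorem jtb (hJ : JalStmt) : JtbStmt := by
  intro X _ _ q Gm ta G m τ μ hH hμ
  obtain ⟨hc, _, hadd, hconj, _, _, _, _⟩ := hJ X ℂ q
  obtain ⟨_, _, haddR, _, hofR, _, htR, _⟩ := hJ X ℝ q
  obtain ⟨_, _, _, _, hofC, _, _, _⟩ := hJ X ℂ q
  have hG := hH.hG
  have hs := hH.hs
  obtain ⟨ht1, ht2, ht3⟩ := hH.ht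
  have hB : HM (fun r => BB (Gm r)) q (BB G) (dB G) (BB G * BB G + EB G μ) := by
    intro a b
    refine hj_cast (hadd _ _ _ _ _ _ _ _ (hG a b) (hG a b)).2.2 ?_ ?_ ?_ ?_
    · funext r
      simp only [BB]
      ring
    · simp only [BB]
      ring
    · funext c
      simp only [dB, gG]
      ring
    · rw [hμ]
      simp only [Matrix.add_apply, Matrix.mul_apply, EB, BB, gG]
      have : ∀ c, -(G a c * G c b) * -(G a c * G c b) = G a c ^ 2 * G c b ^ 2 := fun c => by ring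
      simp only [this]
      ring
  have hK : HM (fun r => KK (Gm r)) q (KK G) (dK G) (KK G * KK G + EK G μ) := by
    intro a b
    have h1 := (hconj _ _ _ _ (hG a b)).1
    have h2 := (hadd _ _ _ _ _ _ _ _ h1 (hG a b)).2.2
    have hn : ∀ z : ℂ, RCLike.re ((starRingEnd ℂ) z * z) = ‖z‖ ^ 2 := by
      intro z
      rw [← Complex.normSq_eq_norm_sq, mul_comm, Complex.mul_conj]
      exact Complex.ofReal_re _
    have h4 := hj_re hJ h2
    refine hj_cast h4 ?_ ?_ ?_ ?_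
    · funext r
      exact hn _
    · exact hn _
    · funext c
      simp only [dK, gG, map_neg, map_mul]
      simp only [Complex.neg_re, Complex.mul_re, Complex.add_re, Complex.conj_re, Complex.conj_im,
        Complex.mul_im, Complex.neg_im]
      ring
    · rw [hμ]
      simp only [Matrix.add_apply, Matrix.mul_apply, EK, KK, gG, Complex.add_re]
      have e1 : (∑ c, (starRingEnd ℂ) (-(G a c * G c b)) * -(G a c * G c b)).re =
          ∑ c, ‖G a c‖ ^ 2 * ‖G c b‖ ^ 2 := by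
        rw [Complex.re_sum]
        refine Finset.sum_congr rfl fun c _ => ?_
        have := hn (-(G a c * G c b))
        rw [norm_neg, norm_mul, mul_pow] at this
        exact this
      rw [e1]
      simp only [Complex.mul_re, Complex.conj_re, Complex.conj_im]
      ring
  have hta : HJ (fun r : ℝ × (X → ℝ) => ta r.1) q τ (fun _ => 0) (-1) := by
    refine hj_cast (htR ta ht1) rfl ht2 rfl ht3
  refine ⟨hB, hK, ?_, ?_, ?_⟩
  · intro a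
    refine hj_cast (hadd _ _ _ _ _ _ _ _ (hG a a) (hc m)).2.1 rfl ?_ ?_ ?_
    · rw [hμ]
    · funext c
      simp only [gG, BB, sub_zero]
      rw [hs c a]
      ring
    · rw [sub_zero, gd_apply, hμ]
      simp only [Matrix.mulVec, dotProduct, BB]
      refine Finset.sum_congr rfl fun c _ => ?_
      rw [hs c a]
      ring
  · have h5 := (hofC (fun r : ℝ × (X → ℝ) => ta r.1) τ (-1) (fun _ => 0) hta).1
    intro a b
    refine hj_cast (hadd _ _ _ _ _ _ _ _ h5 (hB a b)).2.2 ?_ ?_ ?_ ?_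
    · funext r
      simp
    · simp
    · funext c
      simp
    · simp
      ring
  · intro a b
    refine hj_cast (haddR _ _ _ _ _ _ _ _ hta (jtb_dl hJ hK a b)).2.2 ?_ ?_ ?_ ?_
    · funext r
      simp
    · simp
    · funext c
      simp
    · simp
      ring

end

end Pool.Agent.LE.QF.H8
end
end -- Pool.Agent.Helper8_LQF.JTB

section -- Pool.Agent.Helper91_LQF.XHB

/-!
# Squad LQF, row XHB: gradient and drift of `G + τ G φ G`
-/

set_option autoImplicit false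

open scoped BigOperators Matrix

noncomputable section

namespace Pool.Agent.LE.QF.H91

open Pool.Agent.LE.QD

namespace XHB

variable {X : Type} [Fintype X] [DecidableEq X]

theorem GD_apply (G : Matrix X X ℂ) (φ : X → ℂ) (a b : X) :
    GD G φ a b = ∑ y, G a y * φ y * G y b := by
  unfold GD
  rw [Matrix.mul_apply]
  refine Finset.sum_congr rfl fun y _ => ?_
  rw [Matrix.mul_diagonal]

theorem dX_apply (G Q : Matrix X X ℂ) (τ : ℝ) (φ : X → ℂ) (c a b : X) :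
    dX G Q τ φ c a b = -(G a c * G c b) + (τ : ℂ) * (-(G a c * GD G φ c b)) +
      (τ : ℂ) * (-(GD G φ a c * G c b)) + (τ : ℂ) * ∑ y, G a y * Q y c * G y b := by
  unfold dX
  rw [Matrix.add_apply, Matrix.smul_apply, Matrix.add_apply, Matrix.add_apply, smul_eq_mul,
    GD_apply G (fun y => Q y c)]
  have h1 : (gG G c * Matrix.diagonal φ * G) a b = -(G a c * GD G φ c b) := by
    rw [GD_apply, Matrix.mul_apply, Finset.mul_sum, ← Finset.sum_neg_distrib]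
    refine Finset.sum_congr rfl fun y _ => ?_
    rw [Matrix.mul_diagonal]
    show -(G a c * G c y) * φ y * G y b = -(G a c * (G c y * φ y * G y b))
    ring
  have h2 : (G * Matrix.diagonal φ * gG G c) a b = -(GD G φ a c * G c b) := by
    rw [GD_apply, Matrix.mul_apply, Finset.sum_mul, ← Finset.sum_neg_distrib]
    refine Finset.sum_congr rfl fun y _ => ?_
    rw [Matrix.mul_diagonal]
    show G a y * φ y * -(G y c * G c b) = -(G a y * φ y * G y c * G c b)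
    ring
  rw [h1, h2]
  show -(G a c * G c b) + _ = _
  ring

theorem lX_apply (G Q : Matrix X X ℂ) (τ : ℝ) (φ μ ψ : X → ℂ) (a b : X) :
    lX G Q τ φ μ ψ a b = (τ : ℂ) * GD G ψ a b + (τ : ℂ) * ∑ c, G a c * μ c * GD G φ c b +
      (τ : ℂ) * ∑ c, GD G φ a c * μ c * G c b +
      (τ : ℂ) * (-∑ c, ∑ y, (G a c * G c y) * (Q y c * G y b)) +
      (τ : ℂ) * (-∑ c, ∑ y, (G a y * Q y c) * (G y c * G c b)) := by
  unfold lX
  rw [Matrix.smul_apply, Matrix.add_apply, Matrix.add_apply, Matrix.add_apply, smul_eq_mul,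
    Finset.sum_add_distrib, Matrix.add_apply, Matrix.sum_apply, Matrix.sum_apply]
  have h1 : (G * Matrix.diagonal μ * GD G φ) a b = ∑ c, G a c * μ c * GD G φ c b := by
    rw [Matrix.mul_apply]
    refine Finset.sum_congr rfl fun y _ => ?_
    rw [Matrix.mul_diagonal]
  have h2 : (GD G φ * Matrix.diagonal μ * G) a b = ∑ c, GD G φ a c * μ c * G c b := by
    rw [Matrix.mul_apply]
    refine Finset.sum_congr rfl fun y _ => ?_
    rw [Matrix.mul_diagonal]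
  have h3 : ∑ c, (gG G c * Matrix.diagonal (fun y => Q y c) * G) a b =
      -∑ c, ∑ y, (G a c * G c y) * (Q y c * G y b) := by
    rw [← Finset.sum_neg_distrib]
    refine Finset.sum_congr rfl fun c _ => ?_
    rw [Matrix.mul_apply, ← Finset.sum_neg_distrib]
    refine Finset.sum_congr rfl fun y _ => ?_
    rw [Matrix.mul_diagonal]
    show -(G a c * G c y) * Q y c * G y b = _
    ring
  have h4 : ∑ c, (G * Matrix.diagonal (fun y => Q y c) * gG G c) a b =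
      -∑ c, ∑ y, (G a y * Q y c) * (G y c * G c b) := by
    rw [← Finset.sum_neg_distrib]
    refine Finset.sum_congr rfl fun c _ => ?_
    rw [Matrix.mul_apply, ← Finset.sum_neg_distrib]
    refine Finset.sum_congr rfl fun y _ => ?_
    rw [Matrix.mul_diagonal]
    show G a y * Q y c * -(G y c * G c b) = _
    ring
  rw [h1, h2, h3, h4]
  ring

theorem cs (f g : X → ℂ) : (∑ x, ‖f x‖ * ‖g x‖) ^ 2 ≤ (∑ x, ‖f x‖ ^ 2) * ∑ x, ‖g x‖ ^ 2 :=
  Finset.sum_mul_sq_le_sq_mul_sq _ _ _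

theorem cs2 (f g : X → X → ℂ) : ‖∑ c, ∑ y, f c y * g c y‖ ^ 2 ≤
    (∑ c, ∑ y, ‖f c y‖ ^ 2) * ∑ c, ∑ y, ‖g c y‖ ^ 2 := by
  have h1 : ‖∑ c, ∑ y, f c y * g c y‖ ≤ ∑ p : X × X, ‖f p.1 p.2‖ * ‖g p.1 p.2‖ := by
    rw [Fintype.sum_prod_type]
    refine (norm_sum_le _ _).trans (Finset.sum_le_sum fun c _ => ?_)
    refine (norm_sum_le _ _).trans (Finset.sum_le_sum fun y _ => ?_)
    rw [norm_mul]
  have h2 := Finset.sum_mul_sq_le_sq_mul_sq (Finset.univ : Finset (X × X))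
    (fun p => ‖f p.1 p.2‖) (fun p => ‖g p.1 p.2‖)
  rw [Fintype.sum_prod_type (f := fun p : X × X => ‖f p.1 p.2‖ ^ 2),
    Fintype.sum_prod_type (f := fun p : X × X => ‖g p.1 p.2‖ ^ 2)] at h2
  exact (pow_le_pow_left₀ (norm_nonneg _) h1 2).trans h2

theorem four (x y z w : ℂ) : ‖x + y + z + w‖ ^ 2 ≤
    4 * (‖x‖ ^ 2 + ‖y‖ ^ 2 + ‖z‖ ^ 2 + ‖w‖ ^ 2) := by
  have h1 : ‖x + y + z + w‖ ≤ ‖x‖ + ‖y‖ + ‖z‖ + ‖w‖ := by
    refine (norm_add_le _ _).trans ?_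
    gcongr
    refine (norm_add_le _ _).trans ?_
    gcongr
    exact norm_add_le _ _
  have h2 := pow_le_pow_left₀ (norm_nonneg _) h1 2
  nlinarith [sq_nonneg (‖x‖ - ‖y‖), sq_nonneg (‖x‖ - ‖z‖), sq_nonneg (‖x‖ - ‖w‖),
    sq_nonneg (‖y‖ - ‖z‖), sq_nonneg (‖y‖ - ‖w‖), sq_nonneg (‖z‖ - ‖w‖)]

section good

variable {G : Matrix X X ℂ} {μ : X → ℂ} {𝒩 : X → Finset X} {κ τ δ N C₀ : ℝ}
  (h : GdM G μ 𝒩 κ τ δ N C₀)

include h

theorem row (a : X) : ∑ b, ‖G a b‖ ^ 2 ≤ 2 / τ := by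
  have h1 := (abs_le.1 (h.hk a)).2
  have h2 := h.hδ.2.1
  rw [le_div_iff₀ h.hκ.2.2.1]
  nlinarith only [h1, h2]

theorem col (b : X) : ∑ a, ‖G a b‖ ^ 2 ≤ 2 / τ := by
  have h1 := row h b
  simp only [fun a => h.hs a b]
  exact h1

theorem GD_symm (φ : X → ℂ) (a b : X) : GD G φ a b = GD G φ b a := by
  rw [GD_apply, GD_apply]
  refine Finset.sum_congr rfl fun y _ => ?_
  rw [h.hs a y, h.hs y b]
  ring

theorem rowcol (a b : X) : ∑ y, ‖G a y‖ * ‖G y b‖ ≤ 2 / τ := by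
  have h1 := cs (fun y => G a y) (fun y => G y b)
  have h2 : 0 ≤ 2 / τ := by
    have := h.hκ.2.2.1
    positivity
  have h3 : (∑ y, ‖G a y‖ * ‖G y b‖) ^ 2 ≤ (2 / τ) ^ 2 := by
    refine h1.trans ?_
    rw [sq (2 / τ)]
    exact mul_le_mul (row h a) (col h b) (Finset.sum_nonneg fun _ _ => sq_nonneg _) h2
  exact (pow_le_pow_iff_left₀ (Finset.sum_nonneg fun _ _ =>
    mul_nonneg (norm_nonneg _) (norm_nonneg _)) h2 two_ne_zero).1 h3

/-- near and far -/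
theorem nearfar (a : X) (f : X → ℂ) {B S : ℝ} (hB : ∀ c, ‖f c‖ ≤ B) (hS : ∑ c, ‖f c‖ ^ 2 ≤ S) :
    ∑ c, ‖G a c‖ ^ 2 * ‖f c‖ ^ 2 ≤ C₀ ^ 2 * N * B ^ 2 + C₀ ^ 2 * δ ^ 2 * S := by
  have h1 : ∀ c, ‖G a c‖ ^ 2 * ‖f c‖ ^ 2 ≤ (if c ∈ 𝒩 a then C₀ ^ 2 * B ^ 2 else 0) +
      C₀ ^ 2 * δ ^ 2 * ‖f c‖ ^ 2 := by
    intro c
    have hf : ‖f c‖ ^ 2 ≤ B ^ 2 := pow_le_pow_left₀ (norm_nonneg _) (hB c) 2
    split_ifs with hc
    · have h2 : ‖G a c‖ ^ 2 ≤ C₀ ^ 2 := pow_le_pow_left₀ (norm_nonneg _) (h.hG a c) 2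
      have h3 : ‖G a c‖ ^ 2 * ‖f c‖ ^ 2 ≤ C₀ ^ 2 * B ^ 2 :=
        mul_le_mul h2 hf (sq_nonneg _) (sq_nonneg _)
      have h4 : 0 ≤ C₀ ^ 2 * δ ^ 2 * ‖f c‖ ^ 2 := by positivity
      linarith only [h3, h4]
    · have h2 : ‖G a c‖ ^ 2 ≤ (C₀ * δ) ^ 2 :=
        pow_le_pow_left₀ (norm_nonneg _) ((h.hn a c).2 hc) 2
      have h3 : ‖G a c‖ ^ 2 * ‖f c‖ ^ 2 ≤ (C₀ * δ) ^ 2 * ‖f c‖ ^ 2 :=
        mul_le_mul_of_nonneg_right h2 (sq_nonneg _)
      rw [mul_pow] at h3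
      linarith
  refine (Finset.sum_le_sum fun c _ => h1 c).trans ?_
  rw [Finset.sum_add_distrib, ← Finset.mul_sum, Finset.sum_ite_mem, Finset.univ_inter,
    Finset.sum_const, nsmul_eq_mul]
  have h2 : ((𝒩 a).card : ℝ) * (C₀ ^ 2 * B ^ 2) ≤ N * (C₀ ^ 2 * B ^ 2) :=
    mul_le_mul_of_nonneg_right (h.hN a) (by positivity)
  have h3 : C₀ ^ 2 * δ ^ 2 * ∑ c, ‖f c‖ ^ 2 ≤ C₀ ^ 2 * δ ^ 2 * S :=
    mul_le_mul_of_nonneg_left hS (by positivity)
  linarith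

/-- the sum over `c` -/
theorem wsum (Q : Matrix X X ℂ) {L : ℝ} (hQ : ∀ y, ∑ c, ‖Q y c‖ ^ 2 ≤ L) (a b : X) :
    ∑ c, ‖∑ y, G a y * Q y c * G y b‖ ^ 2 ≤ (2 / τ) ^ 2 * L := by
  have hw := rowcol h a b
  have hw0 : 0 ≤ ∑ y, ‖G a y‖ * ‖G y b‖ :=
    Finset.sum_nonneg fun _ _ => mul_nonneg (norm_nonneg _) (norm_nonneg _)
  have h1 : ∀ c, ‖∑ y, G a y * Q y c * G y b‖ ^ 2 ≤
      (∑ y, ‖G a y‖ * ‖G y b‖) * ∑ y, ‖G a y‖ * ‖G y b‖ * ‖Q y c‖ ^ 2 := by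
    intro c
    have h2 : ‖∑ y, G a y * Q y c * G y b‖ ≤ ∑ y, ‖G a y‖ * ‖G y b‖ * ‖Q y c‖ := by
      refine (norm_sum_le _ _).trans (le_of_eq (Finset.sum_congr rfl fun y _ => ?_))
      rw [norm_mul, norm_mul]
      ring
    refine (pow_le_pow_left₀ (norm_nonneg _) h2 2).trans ?_
    apply Finset.sum_sq_le_sum_mul_sum_of_sq_eq_mul
    · intro y _
      positivity
    · intro y _
      positivity
    · intro y _
      ring
  refine (Finset.sum_le_sum fun c _ => h1 c).trans ?_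
  rw [← Finset.mul_sum, Finset.sum_comm]
  have h3 : ∑ y, ∑ c, ‖G a y‖ * ‖G y b‖ * ‖Q y c‖ ^ 2 ≤ (∑ y, ‖G a y‖ * ‖G y b‖) * L := by
    rw [Finset.sum_mul]
    refine Finset.sum_le_sum fun y _ => ?_
    rw [← Finset.mul_sum]
    exact mul_le_mul_of_nonneg_left (hQ y) (by positivity)
  have hL : 0 ≤ L := (Finset.sum_nonneg fun _ _ => sq_nonneg _).trans (hQ a)
  refine (mul_le_mul_of_nonneg_left h3 hw0).trans ?_
  rw [← mul_assoc, ← sq]
  exact mul_le_mul_of_nonneg_right (pow_le_pow_left₀ hw0 hw 2) hL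

end good

end XHB

open XHB in
/-- XHB -/
theorem xhb (nrb : NrbStmt) : XhbStmt := by
  intro C₀ hC₀
  obtain ⟨P, hP, nrb⟩ := nrb C₀ hC₀
  refine ⟨4 + 8 * (C₀ ^ 4 * P ^ 2) + 16 * C₀ + 4 * (C₀ ^ 3 * P), ?_, ?_⟩
  · have : 0 ≤ C₀ ^ 4 * P ^ 2 := by positivity
    have : 0 ≤ C₀ ^ 3 * P := by positivity
    linarith
  intro X _ _ G Q μ φ ψ 𝒩 κ τ δ N Λ h hφ hL hΛ hQ hψ
  obtain ⟨hκ0, hκ1, hτ0, hκτ, hτκ⟩ := h.hκ
  obtain ⟨hδ0, hδ1, hN1⟩ := h.hδ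
  obtain ⟨-, n2', n3, -⟩ := nrb X G μ 𝒩 κ τ δ N h
  have g2 := n2' φ δ hδ0 hφ
  have g3 := n3 φ δ hδ0 hφ
  have g3' : ∀ b, ∑ c, ‖GD G φ c b‖ ^ 2 ≤ P * δ ^ 2 / κ ^ 3 := by
    intro b
    have := g3 b
    simp only [fun c => GD_symm h φ c b]
    exact this
  have hΛ0 : 0 ≤ Λ := le_trans (by positivity) hΛ
  have hτκ2 : τ ^ 2 ≤ C₀ ^ 2 * κ ^ 2 := by
    rw [← mul_pow]
    exact pow_le_pow_left₀ hτ0.le hτκ 2
  have hC2 : (1 : ℝ) ≤ C₀ ^ 2 := one_le_pow₀ hC₀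
  -- near and far
  have nf : ∀ (a : X) (f : X → ℂ), (∀ c, ‖f c‖ ≤ P * δ / κ) → ∑ c, ‖f c‖ ^ 2 ≤ P * δ ^ 2 / κ ^ 3 →
      τ ^ 2 * ∑ c, ‖G a c‖ ^ 2 * ‖f c‖ ^ 2 ≤ C₀ ^ 4 * P ^ 2 * Λ := by
    intro a f hf1 hf2
    have h1 := nearfar h a f hf1 hf2
    have h2 : τ ^ 2 * ∑ c, ‖G a c‖ ^ 2 * ‖f c‖ ^ 2 ≤ C₀ ^ 2 * κ ^ 2 *
        (C₀ ^ 2 * N * (P * δ / κ) ^ 2 + C₀ ^ 2 * δ ^ 2 * (P * δ ^ 2 / κ ^ 3)) :=
      mul_le_mul hτκ2 h1 (Finset.sum_nonneg fun _ _ => by positivity) (by positivity)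
    have h3 : C₀ ^ 2 * κ ^ 2 *
        (C₀ ^ 2 * N * (P * δ / κ) ^ 2 + C₀ ^ 2 * δ ^ 2 * (P * δ ^ 2 / κ ^ 3)) =
        C₀ ^ 4 * (P ^ 2 * (δ ^ 2 * N) + P * (δ ^ 4 / κ)) := by
      field_simp
    rw [h3] at h2
    have h4 : P * (δ ^ 4 / κ) ≤ P ^ 2 * (δ ^ 4 / κ) := by
      apply mul_le_mul_of_nonneg_right _ (by positivity)
      nlinarith only [hP]
    have h5 : P ^ 2 * (δ ^ 2 * N) + P * (δ ^ 4 / κ) ≤ P ^ 2 * Λ := by
      have := mul_le_mul_of_nonneg_left hΛ (by positivity : 0 ≤ P ^ 2)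
      linarith only [h4, this]
    have h6 := mul_le_mul_of_nonneg_left h5 (by positivity : 0 ≤ C₀ ^ 4)
    linarith only [h2, h6]
  constructor
  · intro a b
    have e1 : ∑ c, ‖G a c * G c b‖ ^ 2 ≤ Λ := by
      have h1 : ∑ c, ‖G a c * G c b‖ ^ 2 = ∑ c, KK G a c * KK G b c := by
        refine Finset.sum_congr rfl fun c _ => ?_
        show ‖G a c * G c b‖ ^ 2 = ‖G a c‖ ^ 2 * ‖G b c‖ ^ 2
        rw [norm_mul, mul_pow, h.hs c b]
      rw [h1]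
      have h2 := Finset.sum_mul_sq_le_sq_mul_sq Finset.univ (fun c => KK G a c) (fun c => KK G b c)
      have h3 : (∑ c, KK G a c * KK G b c) ^ 2 ≤ Λ ^ 2 := by
        refine h2.trans ?_
        rw [sq Λ]
        exact mul_le_mul (hL a) (hL b) (Finset.sum_nonneg fun _ _ => sq_nonneg _) hΛ0
      exact le_of_sq_le_sq h3 hΛ0
    have e2 : ∑ c, ‖(τ : ℂ) * (-(G a c * GD G φ c b))‖ ^ 2 ≤ C₀ ^ 4 * P ^ 2 * Λ := by
      have h1 := nf a (fun c => GD G φ c b) (fun c => g2 c b) (g3' b)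
      rw [Finset.mul_sum] at h1
      refine le_trans (le_of_eq (Finset.sum_congr rfl fun c _ => ?_)) h1
      rw [norm_mul, norm_neg, norm_mul, Complex.norm_real, Real.norm_eq_abs, mul_pow, mul_pow,
        sq_abs]
    have e3 : ∑ c, ‖(τ : ℂ) * (-(GD G φ a c * G c b))‖ ^ 2 ≤ C₀ ^ 4 * P ^ 2 * Λ := by
      have h1 := nf b (fun c => GD G φ a c) (fun c => g2 a c) (g3 a)
      rw [Finset.mul_sum] at h1
      refine le_trans (le_of_eq (Finset.sum_congr rfl fun c _ => ?_)) h1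
      rw [norm_mul, norm_neg, norm_mul, Complex.norm_real, Real.norm_eq_abs, mul_pow, mul_pow,
        sq_abs, h.hs c b]
      ring
    have e4 : ∑ c, ‖(τ : ℂ) * ∑ y, G a y * Q y c * G y b‖ ^ 2 ≤ 4 * C₀ * Λ := by
      have h1 := wsum h Q hQ a b
      have h2 : ∑ c, ‖(τ : ℂ) * ∑ y, G a y * Q y c * G y b‖ ^ 2 =
          τ ^ 2 * ∑ c, ‖∑ y, G a y * Q y c * G y b‖ ^ 2 := by
        rw [Finset.mul_sum]
        refine Finset.sum_congr rfl fun c _ => ?_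
        rw [norm_mul, Complex.norm_real, Real.norm_eq_abs, mul_pow, sq_abs]
      rw [h2]
      refine (mul_le_mul_of_nonneg_left h1 (sq_nonneg τ)).trans (le_of_eq ?_)
      field_simp
      ring
    have e5 : ∑ c, ‖dX G Q τ φ c a b‖ ^ 2 ≤ ∑ c, 4 * (‖G a c * G c b‖ ^ 2 +
        ‖(τ : ℂ) * (-(G a c * GD G φ c b))‖ ^ 2 + ‖(τ : ℂ) * (-(GD G φ a c * G c b))‖ ^ 2 +
        ‖(τ : ℂ) * ∑ y, G a y * Q y c * G y b‖ ^ 2) := by
      refine Finset.sum_le_sum fun c _ => ?_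
      rw [dX_apply]
      refine (four _ _ _ _).trans (le_of_eq ?_)
      rw [norm_neg (G a c * G c b)]
    refine e5.trans ?_
    rw [← Finset.mul_sum, Finset.sum_add_distrib, Finset.sum_add_distrib, Finset.sum_add_distrib]
    have e6 : 0 ≤ C₀ ^ 3 * P * Λ := by positivity
    nlinarith only [e1, e2, e3, e4, e6]
  · intro a b
    obtain ⟨s, hs⟩ : ∃ s, s = Real.sqrt (Λ / κ) := ⟨_, rfl⟩
    have hs0 : 0 ≤ s := hs ▸ Real.sqrt_nonneg _
    have hs2 : s ^ 2 = Λ / κ := by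
      rw [hs]
      exact Real.sq_sqrt (by positivity)
    rw [← hs]
    rw [← hs] at hψ
    have hd0 : 0 ≤ δ ^ 2 / κ := by positivity
    have hnτ : ∀ z : ℂ, ‖(τ : ℂ) * z‖ = τ * ‖z‖ := fun z => by
      rw [norm_mul, Complex.norm_real, Real.norm_of_nonneg hτ0.le]
    have e1 : ‖(τ : ℂ) * GD G ψ a b‖ ≤ 2 * C₀ * (δ ^ 2 / κ + s) := by
      rw [hnτ, GD_apply]
      have h1 : ‖∑ y, G a y * ψ y * G y b‖ ≤ ∑ y, ‖G a y‖ * ‖G y b‖ * (C₀ * (δ ^ 2 / κ + s)) := by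
        refine (norm_sum_le _ _).trans (Finset.sum_le_sum fun y _ => ?_)
        rw [norm_mul, norm_mul]
        have := mul_le_mul_of_nonneg_left (hψ y) (by positivity : 0 ≤ ‖G a y‖ * ‖G y b‖)
        linarith only [this]
      rw [← Finset.sum_mul] at h1
      have h2 := mul_le_mul_of_nonneg_right (rowcol h a b)
        (by positivity : 0 ≤ C₀ * (δ ^ 2 / κ + s))
      have h3 := mul_le_mul_of_nonneg_left (h1.trans h2) hτ0.le
      refine h3.trans (le_of_eq ?_)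
      field_simp
    have emu : ∀ (f g : X → ℂ), ∑ c, ‖f c‖ ^ 2 ≤ 2 / τ → ∑ c, ‖g c‖ ^ 2 ≤ P * δ ^ 2 / κ ^ 3 →
        τ * ‖∑ c, f c * μ c * g c‖ ≤ 2 * (C₀ ^ 3 * P) * (δ ^ 2 / κ) := by
      intro f g hf hg
      have h1 : ‖∑ c, f c * μ c * g c‖ ≤ (C₀ * δ) * ∑ c, ‖f c‖ * ‖g c‖ := by
        rw [Finset.mul_sum]
        refine (norm_sum_le _ _).trans (Finset.sum_le_sum fun c _ => ?_)
        rw [norm_mul, norm_mul]
        have := mul_le_mul_of_nonneg_left (h.hμ c) (by positivity : 0 ≤ ‖f c‖ * ‖g c‖)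
        linarith only [this]
      have h2 : (∑ c, ‖f c‖ * ‖g c‖) ^ 2 ≤ 2 / τ * (P * δ ^ 2 / κ ^ 3) :=
        (cs f g).trans (mul_le_mul hf hg (Finset.sum_nonneg fun _ _ => sq_nonneg _)
          (by positivity))
      have h3 : (τ * ((C₀ * δ) * ∑ c, ‖f c‖ * ‖g c‖)) ^ 2 ≤
          (2 * (C₀ ^ 3 * P) * (δ ^ 2 / κ)) ^ 2 := by
        have h4 : (τ * ((C₀ * δ) * ∑ c, ‖f c‖ * ‖g c‖)) ^ 2 =
            τ ^ 2 * (C₀ * δ) ^ 2 * (∑ c, ‖f c‖ * ‖g c‖) ^ 2 := by ring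
        rw [h4]
        refine (mul_le_mul_of_nonneg_left h2 (by positivity)).trans ?_
        have h5 : τ ^ 2 * (C₀ * δ) ^ 2 * (2 / τ * (P * δ ^ 2 / κ ^ 3)) =
            2 * τ * C₀ ^ 2 * P * δ ^ 4 / κ ^ 3 := by
          field_simp
        have h6 : 2 * τ * C₀ ^ 2 * P * δ ^ 4 / κ ^ 3 ≤
            2 * (C₀ * κ) * C₀ ^ 2 * P * δ ^ 4 / κ ^ 3 := by
          gcongr
        have h7 : 2 * (C₀ * κ) * C₀ ^ 2 * P * δ ^ 4 / κ ^ 3 = 2 * (C₀ ^ 3 * P) * (δ ^ 2 / κ) ^ 2 := by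
          field_simp
        have h8 : (1 : ℝ) ≤ C₀ ^ 3 * P := one_le_mul_of_one_le_of_one_le (one_le_pow₀ hC₀) hP
        rw [h5]
        refine h6.trans ?_
        rw [h7, mul_pow]
        apply mul_le_mul_of_nonneg_right _ (sq_nonneg _)
        nlinarith only [h8]
      have h4 := le_of_sq_le_sq h3 (by positivity)
      exact (mul_le_mul_of_nonneg_left h1 hτ0.le).trans h4
    have e2 : ‖(τ : ℂ) * ∑ c, G a c * μ c * GD G φ c b‖ ≤ 2 * (C₀ ^ 3 * P) * (δ ^ 2 / κ) := by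
      rw [hnτ]
      exact emu (fun c => G a c) (fun c => GD G φ c b) (row h a) (g3' b)
    have e3 : ‖(τ : ℂ) * ∑ c, GD G φ a c * μ c * G c b‖ ≤ 2 * (C₀ ^ 3 * P) * (δ ^ 2 / κ) := by
      rw [hnτ]
      have h1 := emu (fun c => G c b) (fun c => GD G φ a c) (col h b) (g3 a)
      have h2 : ∑ c, GD G φ a c * μ c * G c b = ∑ c, G c b * μ c * GD G φ a c :=
        Finset.sum_congr rfl fun c _ => by ring
      rw [h2]
      exact h1
    have edd : ∀ (f g : X → X → ℂ) (A B : ℝ), ∑ c, ∑ y, ‖f c y‖ ^ 2 ≤ A →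
        ∑ c, ∑ y, ‖g c y‖ ^ 2 ≤ B → 0 ≤ A → A * B = (2 / τ) ^ 2 * (C₀ * Λ * (2 / τ)) →
        ‖(τ : ℂ) * (-∑ c, ∑ y, f c y * g c y)‖ ≤ 3 * C₀ * s := by
      intro f g A B hA hB hA0 hAB
      rw [hnτ, norm_neg]
      have h1 := (cs2 f g).trans (mul_le_mul hA hB (Finset.sum_nonneg fun _ _ =>
        Finset.sum_nonneg fun _ _ => sq_nonneg _) hA0)
      rw [hAB] at h1
      apply le_of_sq_le_sq _ (by positivity)
      rw [mul_pow]
      refine (mul_le_mul_of_nonneg_left h1 (sq_nonneg τ)).trans ?_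
      have h2 : τ ^ 2 * ((2 / τ) ^ 2 * (C₀ * Λ * (2 / τ))) = 8 * C₀ * (Λ / τ) := by
        field_simp
        ring
      have h3 : Λ / τ ≤ C₀ * (Λ / κ) := by
        rw [div_le_iff₀ hτ0]
        have h4 : C₀ * (Λ / κ) * τ = Λ * (C₀ * τ / κ) := by
          field_simp
        rw [h4]
        apply le_mul_of_one_le_right hΛ0
        rw [le_div_iff₀ hκ0]
        linarith only [hκτ]
      rw [h2, mul_pow, hs2]
      have h5 : 8 * C₀ * (Λ / τ) ≤ 8 * C₀ * (C₀ * (Λ / κ)) :=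
        mul_le_mul_of_nonneg_left h3 (by positivity)
      have h6 : 0 ≤ Λ / κ := by positivity
      nlinarith only [hs2, h5]
    have hGG : ∀ a : X, ∑ c, ∑ y, ‖G a c * G c y‖ ^ 2 ≤ (2 / τ) ^ 2 := by
      intro a
      have h1 : ∀ c, ∑ y, ‖G a c * G c y‖ ^ 2 ≤ ‖G a c‖ ^ 2 * (2 / τ) := by
        intro c
        have h2 : ∑ y, ‖G a c * G c y‖ ^ 2 = ‖G a c‖ ^ 2 * ∑ y, ‖G c y‖ ^ 2 := by
          rw [Finset.mul_sum]
          exact Finset.sum_congr rfl fun y _ => by rw [norm_mul, mul_pow]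
        rw [h2]
        exact mul_le_mul_of_nonneg_left (row h c) (sq_nonneg _)
      refine (Finset.sum_le_sum fun c _ => h1 c).trans ?_
      rw [← Finset.sum_mul, sq (2 / τ)]
      exact mul_le_mul_of_nonneg_right (row h a) (by positivity)
    have hQG : ∀ b : X, ∑ y, ∑ c, ‖Q y c * G y b‖ ^ 2 ≤ C₀ * Λ * (2 / τ) := by
      intro b
      have h1 : ∀ y, ∑ c, ‖Q y c * G y b‖ ^ 2 ≤ C₀ * Λ * ‖G y b‖ ^ 2 := by
        intro y
        have h2 : ∑ c, ‖Q y c * G y b‖ ^ 2 = (∑ c, ‖Q y c‖ ^ 2) * ‖G y b‖ ^ 2 := by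
          rw [Finset.sum_mul]
          exact Finset.sum_congr rfl fun y _ => by rw [norm_mul, mul_pow]
        rw [h2]
        exact mul_le_mul_of_nonneg_right (hQ y) (sq_nonneg _)
      refine (Finset.sum_le_sum fun y _ => h1 y).trans ?_
      rw [← Finset.mul_sum]
      exact mul_le_mul_of_nonneg_left (col h b) (by positivity)
    have e4 : ‖(τ : ℂ) * (-∑ c, ∑ y, (G a c * G c y) * (Q y c * G y b))‖ ≤ 3 * C₀ * s := by
      apply edd (fun c y => G a c * G c y) (fun c y => Q y c * G y b) ((2 / τ) ^ 2)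
        (C₀ * Λ * (2 / τ)) (hGG a) _ (by positivity) rfl
      rw [Finset.sum_comm]
      exact hQG b
    have e5 : ‖(τ : ℂ) * (-∑ c, ∑ y, (G a y * Q y c) * (G y c * G c b))‖ ≤ 3 * C₀ * s := by
      apply edd (fun c y => G a y * Q y c) (fun c y => G y c * G c b) (C₀ * Λ * (2 / τ))
        ((2 / τ) ^ 2) _ _ (by positivity) (by ring)
      · rw [Finset.sum_comm]
        have h1 := hQG a
        refine le_trans (le_of_eq ?_) h1
        refine Finset.sum_congr rfl fun y _ => Finset.sum_congr rfl fun c _ => ?_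
        rw [h.hs a y, mul_comm]
      · have h1 := hGG b
        refine le_trans (le_of_eq ?_) h1
        refine Finset.sum_congr rfl fun c _ => Finset.sum_congr rfl fun y _ => ?_
        rw [h.hs y c, h.hs c b, mul_comm]
    rw [lX_apply]
    have t1 := norm_add_le ((τ : ℂ) * GD G ψ a b) ((τ : ℂ) * ∑ c, G a c * μ c * GD G φ c b)
    have t2 := norm_add_le ((τ : ℂ) * GD G ψ a b + (τ : ℂ) * ∑ c, G a c * μ c * GD G φ c b)
      ((τ : ℂ) * ∑ c, GD G φ a c * μ c * G c b)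
    have t3 := norm_add_le ((τ : ℂ) * GD G ψ a b + (τ : ℂ) * ∑ c, G a c * μ c * GD G φ c b +
      (τ : ℂ) * ∑ c, GD G φ a c * μ c * G c b)
      ((τ : ℂ) * (-∑ c, ∑ y, (G a c * G c y) * (Q y c * G y b)))
    have t4 := norm_add_le ((τ : ℂ) * GD G ψ a b + (τ : ℂ) * ∑ c, G a c * μ c * GD G φ c b +
      (τ : ℂ) * ∑ c, GD G φ a c * μ c * G c b +
      (τ : ℂ) * (-∑ c, ∑ y, (G a c * G c y) * (Q y c * G y b)))
      ((τ : ℂ) * (-∑ c, ∑ y, (G a y * Q y c) * (G y c * G c b)))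
    have t5 : ‖(τ : ℂ) * GD G ψ a b + (τ : ℂ) * ∑ c, G a c * μ c * GD G φ c b +
      (τ : ℂ) * ∑ c, GD G φ a c * μ c * G c b +
      (τ : ℂ) * (-∑ c, ∑ y, (G a c * G c y) * (Q y c * G y b)) +
      (τ : ℂ) * (-∑ c, ∑ y, (G a y * Q y c) * (G y c * G c b))‖ ≤
      2 * C₀ * (δ ^ 2 / κ + s) + 2 * (C₀ ^ 3 * P) * (δ ^ 2 / κ) + 2 * (C₀ ^ 3 * P) * (δ ^ 2 / κ) +
      3 * C₀ * s + 3 * C₀ * s := by linarith only [e1, e2, e3, e4, e5, t1, t2, t3, t4]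
    refine t5.trans ?_
    have u1 : 0 ≤ C₀ ^ 4 * P ^ 2 := by positivity
    have u2 : 0 ≤ C₀ ^ 3 * P := by positivity
    nlinarith [mul_nonneg u1 hd0, mul_nonneg u1 hs0, mul_nonneg u2 hs0, mul_nonneg u2 hd0,
      mul_nonneg (by linarith only [hC₀] : (0 : ℝ) ≤ C₀) hd0, mul_nonneg (by linarith only [hC₀] : (0 : ℝ) ≤ C₀) hs0]

end Pool.Agent.LE.QF.H91
end
end -- Pool.Agent.Helper91_LQF.XHB
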