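import Pool.Agent.Helper12_MEB.B086

/-!
# Merged copies (generated) of the modules

* `Pool.Agent.Helper38_LQF.OUT`
* `Pool.Agent.Helper38_LQX.OUT`
-/

set_option autoImplicit false

section -- Pool.Agent.Helper38_LQF.OUT

/-!
# Squad LQF, OUT: the result at the final time
-/

set_option autoImplicit false

open MeasureTheory ProbabilityTheory

open scoped ENNReal BigOperators NNReal Matrix

noncomputable section

namespace Pool.Agent.LE.QF.H38

open Pool.Agent.Anderson hiding box mem_box card_box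
open Pool.Agent.Loc Pool.Agent.Mob Pool.Agent.Helper54.Bal
  Pool.Agent.Helper96.EXP Pool.Agent.BED
open Pool.Agent.LE.MN Pool.Agent.LE.CL Pool.Agent.LE.IR Pool.Agent.LE.QD

section Mat

variable {X : Type} [Fintype X]

theorem qf_add (A B : Matrix X X ℝ) (f : X → ℝ) : qf (A + B) f = qf A f + qf B f := by
  unfold qf
  rw [← Finset.sum_add_distrib]
  refine Finset.sum_congr rfl fun a _ => ?_
  rw [Matrix.add_mulVec, Pi.add_apply, mul_add]

theorem qf_smul (c : ℝ) (A : Matrix X X ℝ) (f : X → ℝ) : qf (c • A) f = c * qf A f := by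
  unfold qf
  rw [Finset.mul_sum]
  refine Finset.sum_congr rfl fun a _ => ?_
  rw [Matrix.smul_mulVec, Pi.smul_apply, smul_eq_mul]
  ring

theorem qf_one [DecidableEq X] (f : X → ℝ) : qf (1 : Matrix X X ℝ) f = ∑ a, f a ^ 2 := by
  unfold qf
  refine Finset.sum_congr rfl fun a _ => ?_
  rw [Matrix.one_mulVec, sq]

/-- the quadratic form as a double sum -/
theorem qf_eq (A : Matrix X X ℝ) (f : X → ℝ) : qf A f = ∑ a, ∑ b, f a * A a b * f b := by
  unfold qf
  refine Finset.sum_congr rfl fun a _ => ?_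
  rw [Matrix.mulVec, dotProduct, Finset.mul_sum]
  exact Finset.sum_congr rfl fun b _ => by ring

variable [DecidableEq X]

/-- the inverse of a positive form is at least its tangent -/
theorem qf_inv {S : Matrix X X ℝ} {e τ : ℝ} (he : 0 < e) (hτ : 0 ≤ τ)
    (hs : ∀ a b, S a b = S b a) (hp : ∀ f, 0 ≤ qf S f)
    (hu : IsUnit (e • (1 : Matrix X X ℝ) + τ • S).det) (f : X → ℝ) :
    (1 / e) * ∑ a, f a ^ 2 - τ / e ^ 2 * qf S f ≤
      qf (e • (1 : Matrix X X ℝ) + τ • S)⁻¹ f := by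
  obtain ⟨A, hA⟩ : ∃ A, A = e • (1 : Matrix X X ℝ) + τ • S := ⟨_, rfl⟩
  have hsym : ∀ a b, A a b = A b a := by
    intro a b
    rw [hA]
    simp only [Matrix.add_apply, Matrix.smul_apply, smul_eq_mul]
    rw [hs a b]
    by_cases h : a = b
    · rw [h]
    · rw [Matrix.one_apply_ne h, Matrix.one_apply_ne (Ne.symm h)]
  have hpos : ∀ h : X → ℝ, 0 ≤ qf A h := by
    intro h
    rw [hA, qf_add, qf_smul, qf_smul, qf_one]
    have h1 : 0 ≤ ∑ a, h a ^ 2 := Finset.sum_nonneg fun a _ => sq_nonneg _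
    have h2 := hp h
    positivity
  have hval : qf A f = e * ∑ a, f a ^ 2 + τ * qf S f := by
    rw [hA, qf_add, qf_smul, qf_smul, qf_one]
  rw [← hA] at hu ⊢
  obtain ⟨g, hg⟩ : ∃ g, g = A⁻¹ *ᵥ f := ⟨_, rfl⟩
  have hAg : A *ᵥ g = f := by
    rw [hg, Matrix.mulVec_mulVec, Matrix.mul_nonsing_inv A hu, Matrix.one_mulVec]
  have h0 : qf A⁻¹ f = ∑ a, g a * f a := by
    unfold qf
    rw [← hg]
    exact Finset.sum_congr rfl fun a _ => mul_comm _ _
  have hswap : ∀ x y : X → ℝ, ∑ a, x a * (A *ᵥ y) a = ∑ a, y a * (A *ᵥ x) a := by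
    intro x y
    have h1 : ∀ x y : X → ℝ, ∑ a, x a * (A *ᵥ y) a = ∑ a, ∑ b, x a * A a b * y b := by
      intro x y
      refine Finset.sum_congr rfl fun a _ => ?_
      rw [Matrix.mulVec, dotProduct, Finset.mul_sum]
      exact Finset.sum_congr rfl fun b _ => by ring
    rw [h1, h1, Finset.sum_comm]
    refine Finset.sum_congr rfl fun a _ => Finset.sum_congr rfl fun b _ => ?_
    rw [hsym b a]
    ring
  -- expand the form at `g - f / e`
  have h1 := hpos (g - (1 / e) • f)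
  have h2 : qf A (g - (1 / e) • f) = ∑ a, g a * f a - 2 / e * ∑ a, f a ^ 2 +
      (1 / e) ^ 2 * qf A f := by
    have h3 : qf A (g - (1 / e) • f) = ∑ a, g a * (A *ᵥ g) a -
        (1 / e) * ∑ a, g a * (A *ᵥ f) a - (1 / e) * ∑ a, f a * (A *ᵥ g) a +
        (1 / e) ^ 2 * ∑ a, f a * (A *ᵥ f) a := by
      unfold qf
      rw [Finset.mul_sum, Finset.mul_sum, Finset.mul_sum, ← Finset.sum_sub_distrib,
        ← Finset.sum_sub_distrib, ← Finset.sum_add_distrib]
      refine Finset.sum_congr rfl fun a _ => ?_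
      rw [Matrix.mulVec_sub, Matrix.mulVec_smul]
      simp only [Pi.sub_apply, Pi.smul_apply, smul_eq_mul]
      ring
    rw [h3, hswap g f, hAg]
    have h4 : ∑ a, f a * f a = ∑ a, f a ^ 2 := Finset.sum_congr rfl fun a _ => (sq _).symm
    rw [h4]
    unfold qf
    ring
  rw [h2, hval] at h1
  rw [h0]
  have h3 : 2 / e * ∑ a, f a ^ 2 - (1 / e) ^ 2 * (e * ∑ a, f a ^ 2 + τ * qf S f) =
      (1 / e) * ∑ a, f a ^ 2 - τ / e ^ 2 * qf S f := by
    field_simp
    ring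
  linarith only [h1, h3]

theorem qf_ind (A : Matrix X X ℝ) (s : Finset X) :
    qf A (fun a => if a ∈ s then 1 else 0) = ∑ a ∈ s, ∑ b ∈ s, A a b := by
  rw [qf_eq]
  have h1 : ∀ a, ∑ b, (if a ∈ s then (1 : ℝ) else 0) * A a b * (if b ∈ s then 1 else 0) =
      if a ∈ s then ∑ b ∈ s, A a b else 0 := by
    intro a
    by_cases ha : a ∈ s
    · simp only [if_pos ha, one_mul, mul_ite, mul_one, mul_zero]
      rw [Finset.sum_ite_mem, Finset.univ_inter]
    · simp only [if_neg ha, zero_mul, Finset.sum_const_zero]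
  simp only [h1]
  rw [Finset.sum_ite_mem, Finset.univ_inter]

theorem sum_ind (s : Finset X) :
    ∑ a, (if a ∈ s then (1 : ℝ) else 0) ^ 2 = s.card := by
  have h1 : ∀ a, (if a ∈ s then (1 : ℝ) else 0) ^ 2 = if a ∈ s then 1 else 0 := by
    intro a
    by_cases ha : a ∈ s
    · rw [if_pos ha, one_pow]
    · rw [if_neg ha, zero_pow two_ne_zero]
  simp only [h1]
  rw [Finset.sum_ite_mem, Finset.univ_inter, Finset.sum_const, nsmul_eq_mul, mul_one]

theorem sum_Dl (K : Matrix X X ℝ) (s : Finset X) :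
    ∑ a ∈ s, ∑ b ∈ s, Dl K a b = ∑ a ∈ s, ∑ b, K a b - ∑ a ∈ s, ∑ b ∈ s, K a b := by
  rw [← Finset.sum_sub_distrib]
  refine Finset.sum_congr rfl fun a ha => ?_
  unfold Dl
  simp only [Matrix.sub_apply]
  rw [Finset.sum_sub_distrib]
  congr 1
  rw [Finset.sum_eq_single a]
  · rw [Matrix.diagonal_apply_eq]
  · intro b _ hb
    rw [Matrix.diagonal_apply_ne _ (Ne.symm hb)]
  · intro h
    exact absurd ha h

end Mat

/-- OUT -/
theorem out (god : GodStmt) (wab : WabStmt) : OutStmt := by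
  intro c₁ C₁ k₀ hc₁ hC₁
  obtain ⟨c₀, C₀, h0, h0', hC₀, key⟩ := god c₁ C₁ k₀ hc₁ hC₁
  have hC₀' : 0 < C₀ := by linarith only [h0, h0', hC₀]
  refine ⟨min c₀ (c₁ / (2 * C₀)), C₁ * (C₀ + 1), lt_min h0 (by positivity),
    (min_le_left _ _).trans h0', by nlinarith only [hC₁, h0, h0', hC₀], ?_⟩
  intro d M _ D V had hU
  have had' : Adm D c₁ C₁ c₀ k₀ :=
    { hT := had.hT
      hm := had.hm
      hfix := had.hfix
      hδ := ⟨had.hδ.1, had.hδ.2.1, had.hδ.2.2.trans (min_le_left _ _)⟩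
      hk := had.hk
      he := had.he
      hj := had.hj
      h0 := had.h0
      hN := had.hN
      hY := had.hY
      hL := had.hL
      hS := had.hS
      hP := had.hP
      hϖ := had.hϖ
      hW := had.hW }
  obtain ⟨hT0, hη0, -, -⟩ := had.hT
  have G := key d M D (D.T, V) had' hT0.le le_rfl hU
  have hkp : D.kp D.T = D.η := by
    unfold Dat.kp
    rw [sub_self, zero_mul, add_zero]
  have hzt : D.zt D.T = ⟨D.E, D.η⟩ := by
    unfold Dat.zt
    rw [sub_self, Complex.ofReal_zero, zero_mul, add_zero]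
  have hm1 : c₁ ≤ D.m.im := had.hm.1
  have hm2 : D.m.im ≤ C₁ := had.hm.2
  have hm0 : 0 < D.m.im := by linarith only [hc₁, hm1]
  have hta : D.ta D.T = D.η / D.m.im := by
    unfold Dat.ta
    rw [hkp]
  have hGq : D.G (D.T, V) = rs V ⟨D.E, D.η⟩ := by
    unfold Dat.G
    rw [hzt]
  have hδ0 : 0 < D.δ := had.hδ.1
  have hδ1 : D.δ ≤ c₁ / (2 * C₀) :=
    (had.hδ.2.1.trans had.hδ.2.2).trans (min_le_right _ _)
  have hδ2 : C₀ * D.δ ≤ c₁ / 2 := by
    calc C₀ * D.δ ≤ C₀ * (c₁ / (2 * C₀)) := mul_le_mul_of_nonneg_left hδ1 hC₀'.le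
      _ = c₁ / 2 := by field_simp
  refine ⟨?_, ?_⟩
  · intro x
    have h1 := G.hG.hμ x
    unfold Dat.mu at h1
    rw [hGq] at h1
    have h2 := Complex.abs_im_le_norm (rs V ⟨D.E, D.η⟩ x x - D.m)
    rw [Complex.sub_im] at h2
    have h3 := neg_abs_le ((rs V ⟨D.E, D.η⟩ x x).im - D.m.im)
    linarith
  · intro C'
    obtain ⟨τ, hτ⟩ : ∃ τ, τ = D.ta D.T := ⟨_, rfl⟩
    have hτ0 : 0 < τ := by
      rw [hτ, hta]
      positivity
    have hcard : (Fintype.card (Tor d M) : ℝ) = (M : ℝ) ^ d := by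
      rw [Fintype.card_fun, ZMod.card, Fintype.card_fin, Nat.cast_pow]
    -- the row sums
    have hk : ∀ a, τ * ∑ b, KK (D.G (D.T, V)) a b ≤ 1 + C₀ * D.δ := by
      intro a
      have h1 := (abs_le.1 (G.hG.hk a)).2
      have h2 : τ * ∑ b, KK (D.G (D.T, V)) a b = D.ta D.T * ∑ b, ‖D.G (D.T, V) a b‖ ^ 2 := by
        rw [hτ]
        rfl
      rw [h2]
      linarith
    -- the form
    obtain ⟨f, hf⟩ : ∃ f : Tor d M → ℝ, f = fun a => if a ∈ C' then 1 else 0 := ⟨_, rfl⟩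
    have hf2 : ∑ a, f a ^ 2 = C'.card := by
      rw [hf]
      exact sum_ind C'
    have hX : qf (D.X (D.T, V)) f = τ * (∑ a ∈ C', ∑ b, KK (D.G (D.T, V)) a b) -
        τ * mss V ⟨D.E, D.η⟩ C' := by
      have h1 : D.X (D.T, V) = τ • Dl (KK (D.G (D.T, V))) := by
        rw [hτ]
        rfl
      rw [h1, qf_smul, hf, qf_ind, sum_Dl, mul_sub]
      congr 1
      rw [hGq]
      rfl
    have hP : qf (P0 (Tor d M)) f = (C'.card : ℝ) ^ 2 / (M : ℝ) ^ d := by
      rw [hf, qf_ind]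
      unfold P0
      rw [hcard, Finset.sum_const, Finset.sum_const, nsmul_eq_mul, nsmul_eq_mul]
      ring
    have hS : qf D.S f = ∑ x ∈ C', ∑ y ∈ C', D.S x y := by
      rw [hf, qf_ind]
    have hA := G.hA f
    rw [qf_add, qf_add, qf_smul, qf_one, hf2, hX, hP] at hA
    obtain ⟨he1, he2, he3⟩ := had.he
    have he0 : 1 < D.e₀ := lt_of_lt_of_le he1 he2
    obtain ⟨hs1, hs2, hs3, hs4⟩ := had.hS
    have hu := (wab (Tor d M) 0 D.S D.e₀ 1 τ 1 1 (fun _ _ => rfl)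
      (fun f => by unfold qf; simp) hs1 hs2 (by linarith only [h0, h0', he1, he2]) one_pos hτ0.le one_pos le_rfl).1
    have hinv := qf_inv (by linarith only [h0, h0', he1, he2] : (0 : ℝ) < D.e₀) hτ0.le hs1 hs2 hu f
    have hAe : D.A D.T = D.e₀ • (1 : Matrix (Tor d M) (Tor d M) ℝ) + τ • D.S := by
      rw [hτ]
      rfl
    rw [← hAe, hf2, hS] at hinv
    have hsum : τ * ∑ a ∈ C', ∑ b, KK (D.G (D.T, V)) a b ≤ (1 + C₀ * D.δ) * C'.card := by
      rw [Finset.mul_sum]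
      calc ∑ a ∈ C', τ * ∑ b, KK (D.G (D.T, V)) a b ≤ ∑ _a ∈ C', (1 + C₀ * D.δ) :=
            Finset.sum_le_sum fun a _ => hk a
        _ = (1 + C₀ * D.δ) * C'.card := by
            rw [Finset.sum_const, nsmul_eq_mul]
            ring
    have hSn : 0 ≤ ∑ x ∈ C', ∑ y ∈ C', D.S x y := by
      rw [← hS]
      exact hs2 f
    have hϖ : D.ϖ ≤ D.δ := had.hϖ.2.1
    have hc0 : (0 : ℝ) ≤ C'.card := Nat.cast_nonneg _
    have hMd : 0 < (M : ℝ) ^ d := by
      have : 0 < (M : ℝ) := Nat.cast_pos.2 (Nat.pos_of_ne_zero (NeZero.ne M))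
      positivity
    -- the numbers
    have n1 : 1 - 1 / D.e₀ ≤ D.e₀ - 1 := by
      rw [sub_le_sub_iff]
      have h1 : 0 ≤ (D.e₀ - 1) ^ 2 / D.e₀ := by positivity
      have h2 : (D.e₀ - 1) ^ 2 / D.e₀ = D.e₀ + 1 / D.e₀ - 2 := by
        field_simp
        ring
      linarith only [h1, h2]
    have n2' : τ / D.e₀ ^ 2 * ∑ x ∈ C', ∑ y ∈ C', D.S x y ≤
        τ * ∑ x ∈ C', ∑ y ∈ C', D.S x y := by
      refine mul_le_mul_of_nonneg_right ?_ hSn
      refine div_le_self hτ0.le ?_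
      nlinarith only [h0, h0', he1, he2]
    have n3 : D.ϖ * (C'.card : ℝ) ≤ D.δ * C'.card := mul_le_mul_of_nonneg_right hϖ hc0
    have n4 : (1 - 1 / D.e₀) * (C'.card : ℝ) ≤ (D.e₀ - 1) * C'.card :=
      mul_le_mul_of_nonneg_right n1 hc0
    have n5 : τ * mss V ⟨D.E, D.η⟩ C' ≤
        ((C₀ + 1) * D.δ + (D.e₀ - 1) + C'.card / (M : ℝ) ^ d) * C'.card +
          τ * ∑ x ∈ C', ∑ y ∈ C', D.S x y := by
      have h1 : (C'.card : ℝ) ^ 2 / (M : ℝ) ^ d = C'.card / (M : ℝ) ^ d * C'.card := by ring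
      rw [h1] at hA
      nlinarith
    have n6 : ((C₀ + 1) * D.δ + (D.e₀ - 1) + C'.card / (M : ℝ) ^ d) * C'.card ≤
        ((C₀ + 1) * (D.δ + (D.e₀ - 1) + C'.card / (M : ℝ) ^ d)) * C'.card := by
      refine mul_le_mul_of_nonneg_right ?_ hc0
      have h1 : 0 ≤ C₀ * (D.e₀ - 1) := mul_nonneg hC₀'.le (by linarith only [he1, he2])
      have h2 : 0 ≤ C₀ * (C'.card / (M : ℝ) ^ d) := by positivity
      linarith only [h1, h2]
    have n7 : D.m.im / D.η * τ = 1 := by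
      rw [hτ, hta]
      field_simp
    have n8 : mss V ⟨D.E, D.η⟩ C' ≤ D.m.im / D.η *
        (((C₀ + 1) * (D.δ + (D.e₀ - 1) + C'.card / (M : ℝ) ^ d)) * C'.card) +
          ∑ x ∈ C', ∑ y ∈ C', D.S x y := by
      have h1 := mul_le_mul_of_nonneg_left (n5.trans (add_le_add_left n6 _))
        (by positivity : 0 ≤ D.m.im / D.η)
      rw [← mul_assoc, n7, one_mul, mul_add, ← mul_assoc (D.m.im / D.η) τ, n7, one_mul] at h1
      exact h1
    refine n8.trans (add_le_add_left ?_ _)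
    have h1 : 0 ≤ ((C₀ + 1) * (D.δ + (D.e₀ - 1) + C'.card / (M : ℝ) ^ d)) * C'.card := by
      have : 0 ≤ D.e₀ - 1 := by linarith only [he1, he2]
      positivity
    calc D.m.im / D.η * (((C₀ + 1) * (D.δ + (D.e₀ - 1) + C'.card / (M : ℝ) ^ d)) * C'.card)
        ≤ C₁ / D.η * (((C₀ + 1) * (D.δ + (D.e₀ - 1) + C'.card / (M : ℝ) ^ d)) * C'.card) := by
          refine mul_le_mul_of_nonneg_right ?_ h1
          exact div_le_div_of_nonneg_right hm2 hη0.le
      _ = C₁ * (C₀ + 1) / D.η * (D.δ + (D.e₀ - 1) + C'.card / (M : ℝ) ^ d) * C'.card := by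
          ring

end Pool.Agent.LE.QF.H38
end
end -- Pool.Agent.Helper38_LQF.OUT

section -- Pool.Agent.Helper38_LQX.OUT

/-!
# Squad LQX, OUT: the result at the final time
-/

set_option autoImplicit false

open MeasureTheory ProbabilityTheory

open scoped ENNReal BigOperators NNReal Matrix

noncomputable section

namespace Pool.Agent.LE.QX.H38

open Pool.Agent.Anderson hiding box mem_box card_box
open Pool.Agent.Loc Pool.Agent.Mob Pool.Agent.Helper54.Bal
  Pool.Agent.Helper96.EXP Pool.Agent.BED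
open Pool.Agent.LE.MN Pool.Agent.LE.CL Pool.Agent.LE.IR Pool.Agent.LE.QD Pool.Agent.LE.QF
open Pool.Agent.LE.QF.H38

/-- OUT -/
theorem out (god : GodStmt) (wab : WabStmt) : OutStmt := by
  intro c₁ C₁ hc₁ hC₁
  obtain ⟨c₀, C₀, h0, h0', hC₀, key⟩ := god c₁ C₁ hc₁ hC₁
  have hC₀' : 0 < C₀ := by linarith only [h0, h0', hC₀]
  refine ⟨min c₀ (c₁ / (2 * C₀)), C₁ * (C₀ + 1), lt_min h0 (by positivity),
    (min_le_left _ _).trans h0', by nlinarith only [hC₁, h0, h0', hC₀], ?_⟩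
  intro d M _ D V had hU
  have had' : Adm D c₁ C₁ c₀ :=
    { hT := had.hT
      hm := had.hm
      hfix := had.hfix
      hδ := ⟨had.hδ.1, had.hδ.2.1, had.hδ.2.2.trans (min_le_left _ _)⟩
      hk := ⟨had.hk.1, had.hk.2.1.trans (min_le_left _ _), had.hk.2.2⟩
      he := had.he
      hj := had.hj
      h0 := had.h0
      hN := had.hN
      hY := had.hY
      hL := had.hL
      hS := had.hS
      hϖ := had.hϖ
      hW := had.hW }
  obtain ⟨hT0, hη0, -, -⟩ := had.hT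
  have G := key d M D (D.T, V) had' hT0.le le_rfl hU
  have hkp : D.kp D.T = D.η := by
    unfold Dat.kp
    rw [sub_self, zero_mul, add_zero]
  have hzt : D.zt D.T = ⟨D.E, D.η⟩ := by
    unfold Dat.zt
    rw [sub_self, Complex.ofReal_zero, zero_mul, add_zero]
  have hm1 : c₁ ≤ D.m.im := had.hm.1
  have hm2 : D.m.im ≤ C₁ := had.hm.2
  have hm0 : 0 < D.m.im := by linarith only [hc₁, hm1]
  have hta : D.ta D.T = D.η / D.m.im := by
    unfold Dat.ta
    rw [hkp]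
  have hGq : D.G (D.T, V) = rs V ⟨D.E, D.η⟩ := by
    unfold Dat.G
    rw [hzt]
  have hδ0 : 0 < D.δ := had.hδ.1
  have hδ1 : D.δ ≤ c₁ / (2 * C₀) :=
    (had.hδ.2.1.trans had.hδ.2.2).trans (min_le_right _ _)
  have hδ2 : C₀ * D.δ ≤ c₁ / 2 := by
    calc C₀ * D.δ ≤ C₀ * (c₁ / (2 * C₀)) := mul_le_mul_of_nonneg_left hδ1 hC₀'.le
      _ = c₁ / 2 := by field_simp
  refine ⟨?_, ?_⟩
  · intro x
    have h1 := G.hG.hμ x
    unfold Dat.mu at h1
    rw [hGq] at h1
    have h2 := Complex.abs_im_le_norm (rs V ⟨D.E, D.η⟩ x x - D.m)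
    rw [Complex.sub_im] at h2
    have h3 := neg_abs_le ((rs V ⟨D.E, D.η⟩ x x).im - D.m.im)
    linarith
  · intro C'
    obtain ⟨τ, hτ⟩ : ∃ τ, τ = D.ta D.T := ⟨_, rfl⟩
    have hτ0 : 0 < τ := by
      rw [hτ, hta]
      positivity
    have hcard : (Fintype.card (Tor d M) : ℝ) = (M : ℝ) ^ d := by
      rw [Fintype.card_fun, ZMod.card, Fintype.card_fin, Nat.cast_pow]
    -- the row sums
    have hk : ∀ a, τ * ∑ b, KK (D.G (D.T, V)) a b ≤ 1 + C₀ * D.δ := by
      intro a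
      have h1 := (abs_le.1 (G.hG.hk a)).2
      have h2 : τ * ∑ b, KK (D.G (D.T, V)) a b = D.ta D.T * ∑ b, ‖D.G (D.T, V) a b‖ ^ 2 := by
        rw [hτ]
        rfl
      rw [h2]
      linarith
    -- the form
    obtain ⟨f, hf⟩ : ∃ f : Tor d M → ℝ, f = fun a => if a ∈ C' then 1 else 0 := ⟨_, rfl⟩
    have hf2 : ∑ a, f a ^ 2 = C'.card := by
      rw [hf]
      exact sum_ind C'
    have hX : qf (D.X (D.T, V)) f = τ * (∑ a ∈ C', ∑ b, KK (D.G (D.T, V)) a b) -
        τ * mss V ⟨D.E, D.η⟩ C' := by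
      have h1 : D.X (D.T, V) = τ • Dl (KK (D.G (D.T, V))) := by
        rw [hτ]
        rfl
      rw [h1, qf_smul, hf, qf_ind, sum_Dl, mul_sub]
      congr 1
      rw [hGq]
      rfl
    have hP : qf (P0 (Tor d M)) f = (C'.card : ℝ) ^ 2 / (M : ℝ) ^ d := by
      rw [hf, qf_ind]
      unfold P0
      rw [hcard, Finset.sum_const, Finset.sum_const, nsmul_eq_mul, nsmul_eq_mul]
      ring
    have hS : qf D.S f = ∑ x ∈ C', ∑ y ∈ C', D.S x y := by
      rw [hf, qf_ind]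
    have hA := G.hA f
    rw [qf_add, qf_add, qf_smul, qf_one, hf2, hX, hP] at hA
    obtain ⟨he1, he2, he3⟩ := had.he
    have he0 : 1 < D.e₀ := lt_of_lt_of_le he1 he2
    obtain ⟨hs1, hs2, hs3, hs4⟩ := had.hS
    have hu := (wab (Tor d M) 0 D.S D.e₀ 1 τ 1 1 (fun _ _ => rfl)
      (fun f => by unfold Pool.Agent.LE.QF.qf; simp) hs1 hs2 (by linarith only [h0, h0', he1, he2]) one_pos hτ0.le one_pos le_rfl).1
    have hinv := qf_inv (by linarith only [h0, h0', he1, he2] : (0 : ℝ) < D.e₀) hτ0.le hs1 hs2 hu f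
    have hAe : D.A D.T = D.e₀ • (1 : Matrix (Tor d M) (Tor d M) ℝ) + τ • D.S := by
      rw [hτ]
      rfl
    rw [← hAe, hf2, hS] at hinv
    have hsum : τ * ∑ a ∈ C', ∑ b, KK (D.G (D.T, V)) a b ≤ (1 + C₀ * D.δ) * C'.card := by
      rw [Finset.mul_sum]
      calc ∑ a ∈ C', τ * ∑ b, KK (D.G (D.T, V)) a b ≤ ∑ _a ∈ C', (1 + C₀ * D.δ) :=
            Finset.sum_le_sum fun a _ => hk a
        _ = (1 + C₀ * D.δ) * C'.card := by
            rw [Finset.sum_const, nsmul_eq_mul]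
            ring
    have hSn : 0 ≤ ∑ x ∈ C', ∑ y ∈ C', D.S x y := by
      rw [← hS]
      exact hs2 f
    have hϖ : D.ϖ ≤ D.δ := had.hϖ.2.1
    have hc0 : (0 : ℝ) ≤ C'.card := Nat.cast_nonneg _
    have hMd : 0 < (M : ℝ) ^ d := by
      have : 0 < (M : ℝ) := Nat.cast_pos.2 (Nat.pos_of_ne_zero (NeZero.ne M))
      positivity
    -- the numbers
    have n1 : 1 - 1 / D.e₀ ≤ D.e₀ - 1 := by
      rw [sub_le_sub_iff]
      have h1 : 0 ≤ (D.e₀ - 1) ^ 2 / D.e₀ := by positivity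
      have h2 : (D.e₀ - 1) ^ 2 / D.e₀ = D.e₀ + 1 / D.e₀ - 2 := by
        field_simp
        ring
      linarith only [h1, h2]
    have n2' : τ / D.e₀ ^ 2 * ∑ x ∈ C', ∑ y ∈ C', D.S x y ≤
        τ * ∑ x ∈ C', ∑ y ∈ C', D.S x y := by
      refine mul_le_mul_of_nonneg_right ?_ hSn
      refine div_le_self hτ0.le ?_
      nlinarith only [h0, h0', he1, he2]
    have n3 : D.ϖ * (C'.card : ℝ) ≤ D.δ * C'.card := mul_le_mul_of_nonneg_right hϖ hc0
    have n4 : (1 - 1 / D.e₀) * (C'.card : ℝ) ≤ (D.e₀ - 1) * C'.card :=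
      mul_le_mul_of_nonneg_right n1 hc0
    have n5 : τ * mss V ⟨D.E, D.η⟩ C' ≤
        ((C₀ + 1) * D.δ + (D.e₀ - 1) + C'.card / (M : ℝ) ^ d) * C'.card +
          τ * ∑ x ∈ C', ∑ y ∈ C', D.S x y := by
      have h1 : (C'.card : ℝ) ^ 2 / (M : ℝ) ^ d = C'.card / (M : ℝ) ^ d * C'.card := by ring
      rw [h1] at hA
      nlinarith
    have n6 : ((C₀ + 1) * D.δ + (D.e₀ - 1) + C'.card / (M : ℝ) ^ d) * C'.card ≤
        ((C₀ + 1) * (D.δ + (D.e₀ - 1) + C'.card / (M : ℝ) ^ d)) * C'.card := by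
      refine mul_le_mul_of_nonneg_right ?_ hc0
      have h1 : 0 ≤ C₀ * (D.e₀ - 1) := mul_nonneg hC₀'.le (by linarith only [he1, he2])
      have h2 : 0 ≤ C₀ * (C'.card / (M : ℝ) ^ d) := by positivity
      linarith only [h1, h2]
    have n7 : D.m.im / D.η * τ = 1 := by
      rw [hτ, hta]
      field_simp
    have n8 : mss V ⟨D.E, D.η⟩ C' ≤ D.m.im / D.η *
        (((C₀ + 1) * (D.δ + (D.e₀ - 1) + C'.card / (M : ℝ) ^ d)) * C'.card) +
          ∑ x ∈ C', ∑ y ∈ C', D.S x y := by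
      have h1 := mul_le_mul_of_nonneg_left (n5.trans (add_le_add_left n6 _))
        (by positivity : 0 ≤ D.m.im / D.η)
      rw [← mul_assoc, n7, one_mul, mul_add, ← mul_assoc (D.m.im / D.η) τ, n7, one_mul] at h1
      exact h1
    refine n8.trans (add_le_add_left ?_ _)
    have h1 : 0 ≤ ((C₀ + 1) * (D.δ + (D.e₀ - 1) + C'.card / (M : ℝ) ^ d)) * C'.card := by
      have : 0 ≤ D.e₀ - 1 := by linarith only [he1, he2]
      positivity
    calc D.m.im / D.η * (((C₀ + 1) * (D.δ + (D.e₀ - 1) + C'.card / (M : ℝ) ^ d)) * C'.card)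
        ≤ C₁ / D.η * (((C₀ + 1) * (D.δ + (D.e₀ - 1) + C'.card / (M : ℝ) ^ d)) * C'.card) := by
          refine mul_le_mul_of_nonneg_right ?_ h1
          exact div_le_div_of_nonneg_right hm2 hη0.le
      _ = C₁ * (C₀ + 1) / D.η * (D.δ + (D.e₀ - 1) + C'.card / (M : ℝ) ^ d) * C'.card := by
          ring

end Pool.Agent.LE.QX.H38
end
end -- Pool.Agent.Helper38_LQX.OUT
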