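import Pool.Agent.Helper12_MEB.B086

/-!
# Merged copies (generated) of the modules

* `Pool.Agent.Helper65_LQF.LMU`
* `Pool.Agent.Helper67_LQF.PWU`
* `Pool.Agent.Helper22_LQX.LMB`
* `Pool.Agent.Helper30_LQX.TOF`
-/

set_option autoImplicit false

section -- Pool.Agent.Helper65_LQF.LMU

/-!
# LQF, row LMU: the part of `Λ`
-/

set_option autoImplicit false

open scoped BigOperators

noncomputable section

namespace Pool.Agent.LE.QF.H65

theorem lmu_pow {x : ℝ} (hx : 0 ≤ x) {n : ℕ} (hn : 1 ≤ n) :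
    x ^ (n - 1) ≤ 4 * (x ^ n + (1 / 4) ^ n) ∧
      x ^ (n - 1) * Real.sqrt x ≤ 2 * (x ^ n + (1 / 4) ^ n) := by
  obtain ⟨m, rfl⟩ : ∃ m, n = m + 1 := ⟨n - 1, by omega⟩
  rw [Nat.add_sub_cancel, pow_succ, pow_succ]
  have h0 : 0 ≤ x ^ m := pow_nonneg hx m
  have h1 : (0 : ℝ) ≤ (1 / 4) ^ m := by positivity
  by_cases h : 1 / 4 ≤ x
  · have hs : Real.sqrt x ≤ 2 * x := by
      refine Real.sqrt_le_iff.2 ⟨by linarith only [h], by nlinarith only [hx, h]⟩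
    constructor
    · nlinarith only [mul_le_mul_of_nonneg_left h h0, h1]
    · nlinarith only [mul_le_mul_of_nonneg_left hs h0, h1]
  · push Not at h
    have h2 : x ^ m ≤ (1 / 4) ^ m := pow_le_pow_left₀ hx h.le m
    have hs : Real.sqrt x ≤ 1 / 2 := by
      refine Real.sqrt_le_iff.2 ⟨by norm_num, by linarith only [h]⟩
    have hs0 := Real.sqrt_nonneg x
    constructor
    · nlinarith only [mul_nonneg h0 hx, h2]
    · nlinarith only [mul_nonneg h0 hx, mul_le_mul h2 hs hs0 h1]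

theorem lmu_term {v l G L d c κ L₀ ϵ : ℝ} {n : ℕ} (hc : 0 ≤ c) (hκ : 0 < κ) (hL : 0 < L)
    (hL₀ : 1 ≤ L₀) (hϵ : 0 ≤ ϵ) (hn : 1 ≤ n) (hd : 0 ≤ d) (hv : 0 ≤ v)
    (hl : l ≤ c / κ * (L / L₀ + Real.sqrt (L * v / L₀) + ϵ * v))
    (hG : G ≤ v * (c / κ * (L / L₀ + Real.sqrt (L * v / L₀) + ϵ * v))) :
    (n * (v * L⁻¹) ^ (n - 1)) * (v * (-d / L ^ 2) + l * L⁻¹) +
      (n * (((n - 1 : ℕ) : ℝ) * (v * L⁻¹) ^ (n - 1 - 1))) / 2 * (G * (L⁻¹) ^ 2) ≤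
      6 * n ^ 2 * (c / κ) * (1 / Real.sqrt L₀ + ϵ) * ((v * L⁻¹) ^ n + (1 / 4) ^ n) := by
  obtain ⟨x, rfl⟩ : ∃ x, v = x * L := ⟨v / L, by field_simp⟩
  have hx : 0 ≤ x := by
    by_contra h
    push Not at h
    have := mul_neg_of_neg_of_pos h hL
    linarith only [hv, this]
  have hL0 : L ≠ 0 := hL.ne'
  have hL₀0 : 0 < L₀ := by linarith only [hL₀]
  have hxL : x * L * L⁻¹ = x := by field_simp
  rw [hxL]
  have hsq : Real.sqrt (L * (x * L) / L₀) = L * (Real.sqrt x / Real.sqrt L₀) := by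
    rw [← Real.sqrt_div hx, show L * (x * L) / L₀ = (L * L) * (x / L₀) by ring,
      Real.sqrt_mul (by positivity), Real.sqrt_mul_self hL.le]
  have hck : 0 ≤ c / κ := div_nonneg hc hκ.le
  have hs1 : 1 ≤ Real.sqrt L₀ := Real.one_le_sqrt.2 hL₀
  have hs0 : 0 < Real.sqrt L₀ := by linarith only [hs1]
  have hsx := Real.sqrt_nonneg x
  have hsL : Real.sqrt L₀ ≤ L₀ := by
    nlinarith only [Real.mul_self_sqrt hL₀0.le, hL₀, hs1]
  have hil : 1 / L₀ ≤ 1 / Real.sqrt L₀ := one_div_le_one_div_of_le hs0 hsL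
  -- the bound `ρ`
  obtain ⟨ρ, hρ⟩ : ∃ ρ, ρ = c / κ * (1 / L₀ + Real.sqrt x / Real.sqrt L₀ + ϵ * x) := ⟨_, rfl⟩
  have hρ0 : 0 ≤ ρ := by
    rw [hρ]
    positivity
  have hR : c / κ * (L / L₀ + Real.sqrt (L * (x * L) / L₀) + ϵ * (x * L)) = L * ρ := by
    rw [hsq, hρ]
    ring
  rw [hR] at hl hG
  have hl1 : x * L * (-d / L ^ 2) + l * L⁻¹ ≤ ρ := by
    have h1 : x * L * (-d / L ^ 2) ≤ 0 := by
      have : x * L * (-d / L ^ 2) = -(x * L * (d / L ^ 2)) := by ring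
      rw [this]
      have : 0 ≤ x * L * (d / L ^ 2) := by positivity
      linarith only [this]
    have h2 : l * L⁻¹ ≤ ρ := by
      rw [← div_eq_mul_inv, div_le_iff₀ hL]
      linarith only [hl]
    linarith only [h1, h2]
  have hG1 : G * L⁻¹ ^ 2 ≤ x * ρ := by
    have h1 : G * L⁻¹ ^ 2 = G / L ^ 2 := by
      rw [inv_pow, div_eq_mul_inv]
    rw [h1, div_le_iff₀ (by positivity)]
    calc G ≤ x * L * (L * ρ) := hG
      _ = x * ρ * L ^ 2 := by ring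
  have hxn : 0 ≤ x ^ (n - 1) := pow_nonneg hx _
  have hn1 : (1 : ℝ) ≤ n := by exact_mod_cast hn
  have hA : (n * x ^ (n - 1)) * (x * L * (-d / L ^ 2) + l * L⁻¹) ≤ n * (x ^ (n - 1) * ρ) := by
    calc (n * x ^ (n - 1)) * (x * L * (-d / L ^ 2) + l * L⁻¹) ≤ (n * x ^ (n - 1)) * ρ :=
          mul_le_mul_of_nonneg_left hl1 (by positivity)
      _ = n * (x ^ (n - 1) * ρ) := by ring
  have hB : (n * (((n - 1 : ℕ) : ℝ) * x ^ (n - 1 - 1))) / 2 * (G * L⁻¹ ^ 2) ≤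
      n * (n - 1) / 2 * (x ^ (n - 1) * ρ) := by
    rcases Nat.lt_or_ge n 2 with h2 | h2
    · have : n = 1 := by omega
      subst this
      simp
    · obtain ⟨k, rfl⟩ : ∃ k, n = k + 2 := ⟨n - 2, by omega⟩
      have e1 : k + 2 - 1 = k + 1 := by omega
      have e2 : k + 1 - 1 = k := by omega
      rw [e1, e2]
      calc ((k + 2 : ℕ) * (((k + 1 : ℕ) : ℝ) * x ^ k)) / 2 * (G * L⁻¹ ^ 2)
          ≤ ((k + 2 : ℕ) * (((k + 1 : ℕ) : ℝ) * x ^ k)) / 2 * (x * ρ) :=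
            mul_le_mul_of_nonneg_left hG1 (by positivity)
        _ = ((k + 2 : ℕ) : ℝ) * (((k + 2 : ℕ) : ℝ) - 1) / 2 * (x ^ (k + 1) * ρ) := by
            push_cast
            ring
  have hxρ : 0 ≤ x ^ (n - 1) * ρ := mul_nonneg hxn hρ0
  obtain ⟨hp1, hp2⟩ := lmu_pow hx hn
  have hT : 0 ≤ x ^ n + (1 / 4) ^ n := by positivity
  have hp3 : x ^ (n - 1) * x = x ^ n := by
    rw [← pow_succ]
    congr 1
    omega
  have hF : x ^ (n - 1) * ρ ≤ c / κ * (6 * ((1 / Real.sqrt L₀ + ϵ) * (x ^ n + (1 / 4) ^ n))) := by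
    have e1 : x ^ (n - 1) * ρ = c / κ * (x ^ (n - 1) * (1 / L₀) +
        (x ^ (n - 1) * Real.sqrt x) * (1 / Real.sqrt L₀) + ϵ * (x ^ (n - 1) * x)) := by
      rw [hρ]
      ring
    rw [e1]
    refine mul_le_mul_of_nonneg_left ?_ hck
    have h1 : x ^ (n - 1) * (1 / L₀) ≤ 4 * (x ^ n + (1 / 4) ^ n) * (1 / Real.sqrt L₀) :=
      mul_le_mul hp1 hil (by positivity) (by positivity)
    have h2 : (x ^ (n - 1) * Real.sqrt x) * (1 / Real.sqrt L₀) ≤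
        2 * (x ^ n + (1 / 4) ^ n) * (1 / Real.sqrt L₀) :=
      mul_le_mul_of_nonneg_right hp2 (by positivity)
    have h3 : ϵ * (x ^ (n - 1) * x) ≤ 6 * (ϵ * (x ^ n + (1 / 4) ^ n)) := by
      rw [hp3]
      have h4 : ϵ * x ^ n ≤ ϵ * (x ^ n + (1 / 4) ^ n) :=
        mul_le_mul_of_nonneg_left (by
          have : (0 : ℝ) ≤ (1 / 4) ^ n := by positivity
          linarith only [this]) hϵ
      have h5 : 0 ≤ ϵ * (x ^ n + (1 / 4) ^ n) := mul_nonneg hϵ hT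
      linarith only [h4, h5]
    calc x ^ (n - 1) * (1 / L₀) + (x ^ (n - 1) * Real.sqrt x) * (1 / Real.sqrt L₀) +
          ϵ * (x ^ (n - 1) * x) ≤ 4 * (x ^ n + (1 / 4) ^ n) * (1 / Real.sqrt L₀) +
          2 * (x ^ n + (1 / 4) ^ n) * (1 / Real.sqrt L₀) + 6 * (ϵ * (x ^ n + (1 / 4) ^ n)) := by
            linarith only [h1, h2, h3]
      _ = 6 * ((1 / Real.sqrt L₀ + ϵ) * (x ^ n + (1 / 4) ^ n)) := by ring
  have hnn : (n : ℝ) + n * (n - 1) / 2 ≤ n ^ 2 := by nlinarith only [hn1]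
  calc (n * x ^ (n - 1)) * (x * L * (-d / L ^ 2) + l * L⁻¹) +
        (n * (((n - 1 : ℕ) : ℝ) * x ^ (n - 1 - 1))) / 2 * (G * L⁻¹ ^ 2)
      ≤ n * (x ^ (n - 1) * ρ) + n * (n - 1) / 2 * (x ^ (n - 1) * ρ) := add_le_add hA hB
    _ = (n + n * (n - 1) / 2) * (x ^ (n - 1) * ρ) := by ring
    _ ≤ n ^ 2 * (x ^ (n - 1) * ρ) := mul_le_mul_of_nonneg_right hnn hxρ
    _ ≤ n ^ 2 * (c / κ * (6 * ((1 / Real.sqrt L₀ + ϵ) * (x ^ n + (1 / 4) ^ n)))) :=
        mul_le_mul_of_nonneg_left hF (by positivity)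
    _ = 6 * n ^ 2 * (c / κ) * (1 / Real.sqrt L₀ + ϵ) * (x ^ n + (1 / 4) ^ n) := by ring

/-- LMU. -/
theorem lmu (jal : JalStmt) : LmuStmt := by
  intro ι _ _ q X _ F v l g Ls c κ L L₀ ϵ n hc hκ hL hL₀ hϵ hn hF hLs hLq hd hv hl hg
  obtain ⟨-, -, hprod, -, hcomp, hsum, htime, -⟩ := jal ι ℝ q
  have hne : Ls q.1 ≠ 0 := by
    rw [hLq]
    exact hL.ne'
  have hinv := htime (fun t => (Ls t)⁻¹) (hLs.inv hne)
  have hder : deriv (fun t => (Ls t)⁻¹) q.1 = -deriv Ls q.1 / L ^ 2 := by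
    rw [← hLq]
    exact ((hLs.differentiableAt (by norm_num)).hasDerivAt.inv hne).deriv
  rw [hder] at hinv
  simp only [hLq] at hinv
  have h1 : ∀ a, HJ (fun r => F a r * (Ls r.1)⁻¹) q (v a * L⁻¹)
      (fun c => v a * 0 + g a c * L⁻¹)
      (v a * (-deriv Ls q.1 / L ^ 2) + l a * L⁻¹ + ∑ c, g a c * 0) := fun a =>
    (hprod _ _ _ _ _ _ _ _ (hF a) hinv).2.2
  have h2 := fun a => (hcomp _ _ _ _ (h1 a)).2 (fun x => x ^ n)
    ((contDiff_id.pow n).contDiffAt)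
  have h3 := hsum X Finset.univ _ _ _ _ (fun a _ => h2 a)
  have e1 : (fun r : ℝ × (ι → ℝ) => ∑ a, (F a r / Ls r.1) ^ n) =
      fun r => ∑ a, (F a r * (Ls r.1)⁻¹) ^ n := by
    funext r
    simp only [div_eq_mul_inv]
  have e2 : ∑ a, (v a / L) ^ n = ∑ a, (v a * L⁻¹) ^ n := by
    simp only [div_eq_mul_inv]
  rw [e1, e2]
  refine ⟨_, _, h3, ?_⟩
  have hd1 : ∀ x : ℝ, deriv (fun x : ℝ => x ^ n) x = n * x ^ (n - 1) := fun x =>
    (hasDerivAt_pow n x).deriv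
  have hd2 : ∀ x : ℝ, deriv (deriv (fun x : ℝ => x ^ n)) x =
      n * (((n - 1 : ℕ) : ℝ) * x ^ (n - 1 - 1)) := by
    intro x
    have : deriv (fun x : ℝ => x ^ n) = fun x : ℝ => (n : ℝ) * x ^ (n - 1) := funext hd1
    rw [this]
    exact ((hasDerivAt_pow (n - 1) x).const_mul (n : ℝ)).deriv
  rw [show 6 * (n : ℝ) ^ 2 * (c / κ) * (1 / Real.sqrt L₀ + ϵ) *
      (∑ a, (v a * L⁻¹) ^ n + Fintype.card X * (1 / 4) ^ n) =
      ∑ a, 6 * (n : ℝ) ^ 2 * (c / κ) * (1 / Real.sqrt L₀ + ϵ) *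
        ((v a * L⁻¹) ^ n + (1 / 4) ^ n) by
    rw [← Finset.mul_sum, Finset.sum_add_distrib, Finset.sum_const, Finset.card_univ,
      nsmul_eq_mul]]
  refine Finset.sum_le_sum fun a _ => ?_
  simp only [hd1, hd2, mul_zero, zero_add, Finset.sum_const_zero, add_zero]
  have h4 : ∑ c, (g a c * L⁻¹) ^ 2 = (∑ c, g a c ^ 2) * L⁻¹ ^ 2 := by
    rw [Finset.sum_mul]
    exact Finset.sum_congr rfl fun c _ => mul_pow _ _ _
  rw [h4]
  exact lmu_term hc hκ hL hL₀ hϵ hn hd (hv a) (hl a) (hg a)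

end Pool.Agent.LE.QF.H65
end
end -- Pool.Agent.Helper65_LQF.LMU

section -- Pool.Agent.Helper67_LQF.PWU

/-!
# Squad LQF (MP_1906c1_mp), row PWU: high powers of scalars (helper67)
-/

set_option autoImplicit false

open MeasureTheory ProbabilityTheory Function Filter

open scoped ENNReal BigOperators Topology NNReal ComplexOrder Matrix

noncomputable section

namespace Pool.Agent.LE.QF.H67

open Pool.Agent.LE.QF

/-- the first elementary inequality -/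
theorem pw1 (x : ℝ) (n : ℕ) (hx : 0 ≤ x) (hn : 1 ≤ n) :
    (x ^ 2) ^ (n - 1) * x ≤ 2 * ((x ^ 2) ^ n + (1 / 4) ^ n) := by
  obtain ⟨m, rfl⟩ : ∃ m, n = m + 1 := ⟨n - 1, by omega⟩
  simp only [Nat.add_sub_cancel]
  have h4 : (0 : ℝ) ≤ (1 / 4) ^ (m + 1) := by positivity
  have h5 : (0 : ℝ) ≤ (x ^ 2) ^ m := by positivity
  have h6 : (0 : ℝ) ≤ (x ^ 2) ^ (m + 1) := by positivity
  rcases le_or_gt (1 / 2) x with h | h
  · have h1 : (x ^ 2) ^ (m + 1) = (x ^ 2) ^ m * x * x := by ring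
    have h2 : (x ^ 2) ^ m * x * (1 / 2) ≤ (x ^ 2) ^ m * x * x :=
      mul_le_mul_of_nonneg_left h (mul_nonneg h5 hx)
    linarith only [h4, h1, h2]
  · have h1 : (x ^ 2) ^ m ≤ (1 / 4) ^ m := by
      apply pow_le_pow_left₀ (by positivity)
      nlinarith only [hx, h]
    have h2 : (x ^ 2) ^ m * x ≤ (1 / 4) ^ m * (1 / 2) :=
      mul_le_mul h1 h.le hx (by positivity)
    have h3 : ((1 : ℝ) / 4) ^ (m + 1) = (1 / 4) ^ m * (1 / 4) := by ring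
    linarith

/-- the second elementary inequality -/
theorem pw2 (x : ℝ) (n : ℕ) (hx : 0 ≤ x) (hn : 1 ≤ n) :
    (x ^ 2) ^ (n - 1) ≤ 4 * ((x ^ 2) ^ n + (1 / 4) ^ n) := by
  obtain ⟨m, rfl⟩ : ∃ m, n = m + 1 := ⟨n - 1, by omega⟩
  simp only [Nat.add_sub_cancel]
  have h4 : (0 : ℝ) ≤ (1 / 4) ^ (m + 1) := by positivity
  have h5 : (0 : ℝ) ≤ (x ^ 2) ^ m := by positivity
  have h6 : (0 : ℝ) ≤ (x ^ 2) ^ (m + 1) := by positivity
  rcases le_or_gt (1 / 2) x with h | h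
  · have h1 : (x ^ 2) ^ (m + 1) = (x ^ 2) ^ m * (x ^ 2) := by ring
    have h3 : (1 / 4 : ℝ) ≤ x ^ 2 := by nlinarith only [hx, h]
    have h2 : (x ^ 2) ^ m * (1 / 4) ≤ (x ^ 2) ^ m * (x ^ 2) :=
      mul_le_mul_of_nonneg_left h3 h5
    linarith only [h4, h1, h2]
  · have h1 : (x ^ 2) ^ m ≤ (1 / 4) ^ m := by
      apply pow_le_pow_left₀ (by positivity)
      nlinarith only [hx, h]
    have h3 : ((1 : ℝ) / 4) ^ (m + 1) = (1 / 4) ^ m * (1 / 4) := by ring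
    linarith only [h6, h1, h3]

/-- the derivatives of the power -/
theorem dpow (δ : ℝ) (n : ℕ) (v : ℝ) :
    ContDiffAt ℝ 2 (fun x : ℝ => (x / δ ^ 2) ^ n) v ∧
    deriv (fun x : ℝ => (x / δ ^ 2) ^ n) v = n * (v / δ ^ 2) ^ (n - 1) * (1 / δ ^ 2) ∧
    deriv (deriv (fun x : ℝ => (x / δ ^ 2) ^ n)) v =
      n * (((n - 1 : ℕ) : ℝ) * (v / δ ^ 2) ^ (n - 1 - 1) * (1 / δ ^ 2)) * (1 / δ ^ 2) := by
  have h1 : ∀ (k : ℕ) (x : ℝ), HasDerivAt (fun x : ℝ => (x / δ ^ 2) ^ k)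
      (k * (x / δ ^ 2) ^ (k - 1) * (1 / δ ^ 2)) x := fun k x =>
    ((hasDerivAt_id x).div_const (δ ^ 2)).pow k
  have h2 : deriv (fun x : ℝ => (x / δ ^ 2) ^ n) =
      fun x => n * (x / δ ^ 2) ^ (n - 1) * (1 / δ ^ 2) := by
    funext x
    exact (h1 n x).deriv
  refine ⟨?_, (h1 n v).deriv, ?_⟩
  · exact (contDiffAt_id.div_const (δ ^ 2)).pow n
  · rw [h2]
    exact (((h1 (n - 1) v).const_mul (n : ℝ)).mul_const (1 / δ ^ 2)).deriv

/-- one summand -/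
theorem one (hjal : JalStmt) (ι : Type) [Fintype ι] [DecidableEq ι] (q : ℝ × (ι → ℝ))
    (F : ℝ × (ι → ℝ) → ℂ) (v l : ℂ) (g : ι → ℂ) (δ ℓ γ : ℝ) (n : ℕ) (hδ : 0 < δ) (hℓ : 0 ≤ ℓ)
    (hγ : 0 ≤ γ) (hn : 1 ≤ n) (hF : HJ F q v g l) (hl : ‖l‖ ≤ ℓ) (hg : ∑ c, ‖g c‖ ^ 2 ≤ γ) :
    ∃ (g' : ι → ℝ) (l' : ℝ), HJ (fun r => (‖F r‖ ^ 2 / δ ^ 2) ^ n) q
        ((‖v‖ ^ 2 / δ ^ 2) ^ n) g' l' ∧
        l' ≤ (4 * n * ℓ / δ + 8 * n ^ 2 * γ / δ ^ 2) *
          ((‖v‖ ^ 2 / δ ^ 2) ^ n + (1 / 4) ^ n) := by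
  obtain ⟨-, -, hmul, hconj, -, -, -, -⟩ := hjal ι ℂ q
  obtain ⟨-, -, -, -, hcomp, -, -, -⟩ := hjal ι ℝ q
  have h1 := (hmul F (fun r => (starRingEnd ℂ) (F r)) v ((starRingEnd ℂ) v) l
    ((starRingEnd ℂ) l) g (fun c => (starRingEnd ℂ) (g c)) hF (hconj F v l g hF).1).2.2
  have h2 := (hconj _ _ _ _ h1).2.1
  have e1 : (fun r => RCLike.re (F r * (starRingEnd ℂ) (F r))) = fun r => ‖F r‖ ^ 2 := by
    funext r
    rw [RCLike.mul_conj]
    norm_cast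
  have e2 : (RCLike.re (v * (starRingEnd ℂ) v) : ℝ) = ‖v‖ ^ 2 := by
    rw [RCLike.mul_conj]
    norm_cast
  rw [e1, e2] at h2
  set G : ι → ℝ := fun c => RCLike.re (v * (starRingEnd ℂ) (g c) + g c * (starRingEnd ℂ) v)
    with hG
  set L : ℝ := RCLike.re (v * (starRingEnd ℂ) l + l * (starRingEnd ℂ) v +
    ∑ c, g c * (starRingEnd ℂ) (g c)) with hL
  obtain ⟨d1, d2, d3⟩ := dpow δ n (‖v‖ ^ 2)
  have h3 := (hcomp _ _ _ _ h2).2 (fun x : ℝ => (x / δ ^ 2) ^ n) d1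
  refine ⟨_, _, h3, ?_⟩
  rw [d2, d3]
  -- bounds
  have bL : L ≤ 2 * ‖v‖ * ℓ + γ := by
    have a1 : RCLike.re (v * (starRingEnd ℂ) l) ≤ ‖v‖ * ℓ := by
      refine (RCLike.re_le_norm _).trans ?_
      rw [norm_mul, RCLike.norm_conj]
      exact mul_le_mul_of_nonneg_left hl (norm_nonneg _)
    have a2 : RCLike.re (l * (starRingEnd ℂ) v) ≤ ‖v‖ * ℓ := by
      refine (RCLike.re_le_norm _).trans ?_
      rw [norm_mul, RCLike.norm_conj, mul_comm]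
      exact mul_le_mul_of_nonneg_left hl (norm_nonneg _)
    have a3 : RCLike.re (∑ c, g c * (starRingEnd ℂ) (g c)) ≤ γ := by
      refine le_trans (le_of_eq ?_) hg
      rw [map_sum]
      refine Finset.sum_congr rfl fun c _ => ?_
      rw [RCLike.mul_conj]
      norm_cast
    rw [hL, map_add, map_add]
    linarith only [a1, a2, a3]
  have bG : ∑ c, G c ^ 2 ≤ 4 * ‖v‖ ^ 2 * γ := by
    have a1 : ∀ c, G c ^ 2 ≤ 4 * ‖v‖ ^ 2 * ‖g c‖ ^ 2 := by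
      intro c
      have a2 : |G c| ≤ 2 * ‖v‖ * ‖g c‖ := by
        refine (RCLike.abs_re_le_norm _).trans ((norm_add_le _ _).trans (le_of_eq ?_))
        rw [norm_mul, norm_mul, RCLike.norm_conj, RCLike.norm_conj]
        ring
      calc G c ^ 2 = |G c| ^ 2 := (sq_abs _).symm
        _ ≤ (2 * ‖v‖ * ‖g c‖) ^ 2 := pow_le_pow_left₀ (abs_nonneg _) a2 2
        _ = 4 * ‖v‖ ^ 2 * ‖g c‖ ^ 2 := by ring
    calc ∑ c, G c ^ 2 ≤ ∑ c, 4 * ‖v‖ ^ 2 * ‖g c‖ ^ 2 := Finset.sum_le_sum fun c _ => a1 c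
      _ = 4 * ‖v‖ ^ 2 * ∑ c, ‖g c‖ ^ 2 := by rw [Finset.mul_sum]
      _ ≤ 4 * ‖v‖ ^ 2 * γ := mul_le_mul_of_nonneg_left hg (by positivity)
  set x : ℝ := ‖v‖ / δ with hx
  have hx0 : 0 ≤ x := by positivity
  have hxv : ‖v‖ ^ 2 / δ ^ 2 = x ^ 2 := by rw [hx]; ring
  have hvx : ‖v‖ = x * δ := by rw [hx]; field_simp
  rw [hxv]
  have p1 := pw1 x n hx0 hn
  have p2 := pw2 x n hx0 hn
  have hn1 : (1 : ℝ) ≤ n := by exact_mod_cast hn
  have hn2 : ((n - 1 : ℕ) : ℝ) = n - 1 := by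
    rw [Nat.cast_sub hn]; norm_num
  have hP : (0 : ℝ) ≤ (x ^ 2) ^ (n - 1) := by positivity
  -- first part
  have c1 : (n : ℝ) * (x ^ 2) ^ (n - 1) * (1 / δ ^ 2) * L ≤
      n * (x ^ 2) ^ (n - 1) * (1 / δ ^ 2) * (2 * ‖v‖ * ℓ + γ) :=
    mul_le_mul_of_nonneg_left bL (by positivity)
  have c2 : (n : ℝ) * (((n - 1 : ℕ) : ℝ) * (x ^ 2) ^ (n - 1 - 1) * (1 / δ ^ 2)) *
      (1 / δ ^ 2) / 2 * ∑ c, G c ^ 2 ≤
      n * (((n - 1 : ℕ) : ℝ) * (x ^ 2) ^ (n - 1 - 1) * (1 / δ ^ 2)) *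
      (1 / δ ^ 2) / 2 * (4 * ‖v‖ ^ 2 * γ) :=
    mul_le_mul_of_nonneg_left bG (by positivity)
  have c3 : ((n - 1 : ℕ) : ℝ) * (x ^ 2) ^ (n - 1 - 1) * x ^ 2 =
      ((n - 1 : ℕ) : ℝ) * (x ^ 2) ^ (n - 1) := by
    rcases Nat.eq_or_lt_of_le hn with h | h
    · rw [← h]; simp
    · rw [mul_assoc, ← pow_succ]
      congr 2
      omega
  have c4 : (n : ℝ) * (((n - 1 : ℕ) : ℝ) * (x ^ 2) ^ (n - 1 - 1) * (1 / δ ^ 2)) *
      (1 / δ ^ 2) / 2 * (4 * ‖v‖ ^ 2 * γ) =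
      2 * n * (n - 1) * (x ^ 2) ^ (n - 1) * (γ / δ ^ 2) := by
    have : (n : ℝ) * (((n - 1 : ℕ) : ℝ) * (x ^ 2) ^ (n - 1 - 1) * (1 / δ ^ 2)) *
      (1 / δ ^ 2) / 2 * (4 * ‖v‖ ^ 2 * γ) =
      2 * n * (((n - 1 : ℕ) : ℝ) * (x ^ 2) ^ (n - 1 - 1) * x ^ 2) * (γ / δ ^ 2) := by
      rw [hvx]; field_simp; ring
    rw [this, c3, hn2]
    ring
  have c5 : (n : ℝ) * (x ^ 2) ^ (n - 1) * (1 / δ ^ 2) * (2 * ‖v‖ * ℓ + γ) =
      2 * n * ((x ^ 2) ^ (n - 1) * x) * (ℓ / δ) + n * (x ^ 2) ^ (n - 1) * (γ / δ ^ 2) := by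
    rw [hvx]; field_simp
  have hγ2 : 0 ≤ γ / δ ^ 2 := by positivity
  have hℓ2 : 0 ≤ ℓ / δ := by positivity
  have hS : (0 : ℝ) ≤ (x ^ 2) ^ n + (1 / 4) ^ n := by positivity
  have c6 : 2 * (n : ℝ) * ((x ^ 2) ^ (n - 1) * x) * (ℓ / δ) ≤
      2 * n * (2 * ((x ^ 2) ^ n + (1 / 4) ^ n)) * (ℓ / δ) :=
    mul_le_mul_of_nonneg_right (mul_le_mul_of_nonneg_left p1 (by positivity)) hℓ2
  have c7 : 2 * (n : ℝ) ^ 2 * (x ^ 2) ^ (n - 1) * (γ / δ ^ 2) ≤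
      2 * n ^ 2 * (4 * ((x ^ 2) ^ n + (1 / 4) ^ n)) * (γ / δ ^ 2) :=
    mul_le_mul_of_nonneg_right (mul_le_mul_of_nonneg_left p2 (by positivity)) hγ2
  have c8 : (n : ℝ) * (x ^ 2) ^ (n - 1) * (γ / δ ^ 2) +
      2 * n * (n - 1) * (x ^ 2) ^ (n - 1) * (γ / δ ^ 2) ≤
      2 * n ^ 2 * (x ^ 2) ^ (n - 1) * (γ / δ ^ 2) := by
    have : 0 ≤ (n : ℝ) * ((x ^ 2) ^ (n - 1) * (γ / δ ^ 2)) := by positivity
    nlinarith only [this]
  have c9 : (4 * n * ℓ / δ + 8 * n ^ 2 * γ / δ ^ 2) * ((x ^ 2) ^ n + (1 / 4) ^ n) =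
      2 * n * (2 * ((x ^ 2) ^ n + (1 / 4) ^ n)) * (ℓ / δ) +
      2 * n ^ 2 * (4 * ((x ^ 2) ^ n + (1 / 4) ^ n)) * (γ / δ ^ 2) := by
    ring
  rw [c9]
  linarith only [c1, c2, c4, c5, c6, c7, c8]

theorem pwu (hjal : JalStmt) : PwuStmt := by
  intro ι _ _ q κ _ F v l g δ ℓ γ n hδ hℓ hγ hn hF hl hg
  choose g' l' h1 h2 using fun k => one hjal ι q (F k) (v k) (l k) (g k) δ ℓ γ n hδ hℓ hγ hn
    (hF k) (hl k) (hg k)
  obtain ⟨-, -, -, -, -, hsum, -, -⟩ := hjal ι ℝ q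
  refine ⟨_, _, hsum κ Finset.univ _ _ l' g' fun k _ => h1 k, ?_⟩
  refine (Finset.sum_le_sum fun k _ => h2 k).trans (le_of_eq ?_)
  rw [← Finset.mul_sum, Finset.sum_add_distrib, Finset.sum_const, Finset.card_univ,
    nsmul_eq_mul]

end Pool.Agent.LE.QF.H67
end
end -- Pool.Agent.Helper67_LQF.PWU

section -- Pool.Agent.Helper22_LQX.LMB

/-!
# LMB: drift and gradient of `Λ(a)`
-/

set_option autoImplicit false

open MeasureTheory ProbabilityTheory Function Filter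

open scoped ENNReal BigOperators Topology NNReal ComplexOrder Matrix

noncomputable section

namespace Pool.Agent.LE.QX.H22L

open Pool.Agent.Anderson hiding box mem_box card_box
open Pool.Agent.Loc Pool.Agent.Mob Pool.Agent.Helper54.Bal
  Pool.Agent.Helper96.EXP Pool.Agent.BED
open Pool.Agent.LE.MN Pool.Agent.LE.CL Pool.Agent.LE.IR Pool.Agent.LE.QD Pool.Agent.LE.QF

variable {X : Type} [Fintype X] [DecidableEq X]

/-- the entries of a form which is not negative -/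
theorem abs_ent_le {S : Matrix X X ℝ} {p : ℝ} (hS : ∀ a b, S a b = S b a)
    (hS0 : ∀ f, 0 ≤ qf S f) (hp : ∀ a, S a a ≤ p) (b c : X) : |S b c| ≤ p := by
  have key : ∀ t : ℝ, qf S (Pi.single b 1 + t • Pi.single c 1) =
      S b b + 2 * t * S b c + t ^ 2 * S c c := by
    intro t
    have e0 : ∀ f : X → ℝ, qf S f = f ⬝ᵥ (S *ᵥ f) := fun f => rfl
    rw [e0, Matrix.mulVec_add, Matrix.mulVec_smul, Matrix.mulVec_single_one,
      Matrix.mulVec_single_one, add_dotProduct, smul_dotProduct, single_one_dotProduct,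
      single_one_dotProduct]
    simp only [Pi.add_apply, Pi.smul_apply, Matrix.col_apply, smul_eq_mul]
    rw [hS c b]
    ring
  have h1 := hS0 (Pi.single b 1 + (1 : ℝ) • Pi.single c 1)
  have h2 := hS0 (Pi.single b 1 + (-1 : ℝ) • Pi.single c 1)
  rw [key] at h1 h2
  have hb := hp b
  have hc := hp c
  rw [abs_le]
  constructor <;> nlinarith

omit [DecidableEq X] in
/-- the form of a matrix with bounded entries -/
theorem qf_le_of_abs {S : Matrix X X ℝ} {p s : ℝ} (hp0 : 0 ≤ p) (hS : ∀ b c, |S b c| ≤ p)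
    {x : X → ℝ} (hx0 : ∀ b, 0 ≤ x b) (hx : ∑ b, x b ≤ s) : qf S x ≤ s ^ 2 * p := by
  have e1 : qf S x = ∑ b, ∑ c, x b * (S b c * x c) := by
    unfold QF.qf
    apply Finset.sum_congr rfl
    intro b _
    rw [Matrix.mulVec, dotProduct, Finset.mul_sum]
  have e2 : (∑ b, x b) ^ 2 * p = ∑ b, ∑ c, x b * (p * x c) := by
    rw [sq, Finset.sum_mul_sum, Finset.sum_mul]
    apply Finset.sum_congr rfl
    intro b _
    rw [Finset.sum_mul]
    exact Finset.sum_congr rfl fun c _ => by ring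
  rw [e1]
  have h1 : ∑ b, ∑ c, x b * (S b c * x c) ≤ ∑ b, ∑ c, x b * (p * x c) := by
    apply Finset.sum_le_sum
    intro b _
    apply Finset.sum_le_sum
    intro c _
    refine mul_le_mul_of_nonneg_left ?_ (hx0 b)
    exact mul_le_mul_of_nonneg_right ((le_abs_self _).trans (hS b c)) (hx0 c)
  rw [← e2] at h1
  refine h1.trans ?_
  have h2 : 0 ≤ ∑ b, x b := Finset.sum_nonneg fun b _ => hx0 b
  exact mul_le_mul_of_nonneg_right (pow_le_pow_left₀ h2 hx 2) hp0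

omit [DecidableEq X] in
/-- Cauchy-Schwarz -/
theorem dot_le (u w : X → ℂ) : ‖star u ⬝ᵥ w‖ ≤ Real.sqrt (n2 u) * Real.sqrt (n2 w) := by
  unfold dotProduct
  refine (norm_sum_le _ _).trans ?_
  have h := Real.sum_mul_le_sqrt_mul_sqrt Finset.univ (fun i => ‖u i‖) (fun i => ‖w i‖)
  refine le_trans (le_of_eq ?_) h
  apply Finset.sum_congr rfl
  intro i _
  rw [norm_mul, Pi.star_apply, norm_star]

theorem lmb (nrb : NrbStmt) : LmbStmt := by
  intro C₀ hC₀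
  obtain ⟨C₁, hC₁, hN⟩ := nrb C₀ hC₀
  have hC3 : 1 ≤ C₀ ^ 3 := one_le_pow₀ hC₀
  have hCC : 1 ≤ C₀ ^ 3 * C₁ := one_le_mul_of_one_le_of_one_le hC3 hC₁
  refine ⟨128 * (C₀ ^ 3 * C₁), by linarith, ?_⟩
  intro X _ _ G μ 𝒩 S κ τ δ N π₀ ε₁ ε₃ a hG hε₁ hε₃ hSs hS0 hSd hB hf
  obtain ⟨-, m2, m3, -, -, -⟩ := hN X G μ 𝒩 κ τ δ N hG
  obtain ⟨hκ, hκ1, hτ, hκτ, hτκ⟩ := hG.hκ
  obtain ⟨hδ, hδ2, hN1⟩ := hG.hδ
  have hC₀0 : 0 < C₀ := by linarith only [hC₀]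
  have hC₁0 : 0 < C₁ := by linarith
  have hτi : 1 / τ ≤ C₀ / κ := by
    rw [div_le_div_iff₀ hτ hκ]
    linarith only [hκτ]
  set K : Matrix X X ℝ := KK G with hKdef
  have hKab : ∀ a b, K a b = ‖G a b‖ ^ 2 := fun a b => rfl
  have hK0 : ∀ a b, 0 ≤ K a b := fun a b => sq_nonneg _
  have hKs : ∀ a b, K a b = K b a := fun a b => by rw [hKab, hKab, hG.hs]
  have hKr : ∀ a, ∑ b, K a b ≤ 2 / τ := by
    intro a
    have h := (abs_le.mp (hG.hk a)).2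
    rw [le_div_iff₀ hτ]
    have e : (∑ b, K a b) * τ = τ * ∑ b, ‖G a b‖ ^ 2 := mul_comm _ _
    rw [e]
    linarith only [hδ2, h]
  set Λ : ℝ := ∑ b, K a b ^ 2 with hΛ
  have hΛ0 : 0 ≤ Λ := by
    rw [hΛ]
    positivity
  -- the cube
  have hcube : (K * K * K) a a = qf K (fun b => K a b) := by
    rw [Matrix.mul_assoc, Matrix.mul_apply]
    unfold QF.qf
    apply Finset.sum_congr rfl
    intro b _
    rw [Matrix.mul_apply, Matrix.mulVec, dotProduct]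
    congr 1
    exact Finset.sum_congr rfl fun c _ => by rw [hKs c a]
  set M3 : ℝ := (K * K * K) a a with hM3
  set x : X → ℝ := fun b => K a b with hxdef
  have hx0 : ∀ b, 0 ≤ x b := fun b => hK0 a b
  have hx2 : ∑ b, x b ^ 2 = Λ := rfl
  have hX : 0 < (Fintype.card X : ℝ) := by
    have : 0 < Fintype.card X := Fintype.card_pos_iff.mpr ⟨a⟩
    exact_mod_cast this
  -- the form
  set c : ℝ := 1 / (κ * (Fintype.card X : ℝ)) with hc
  have hc0 : 0 < c := by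
    rw [hc]
    positivity
  have hSaa : 0 ≤ S a a := by
    have h := hS0 (Pi.single a 1)
    have e : qf S (Pi.single a 1) = S a a := by
      have e0 : qf S (Pi.single a 1) = (Pi.single a 1 : X → ℝ) ⬝ᵥ (S *ᵥ Pi.single a 1) := rfl
      rw [e0, Matrix.mulVec_single_one, single_one_dotProduct]
      rfl
    rwa [e] at h
  have hp0 : 0 ≤ π₀ - c := by
    have := hSd a
    linarith only [hSaa, this]
  have hπ : 0 ≤ π₀ := by linarith only [hc0, hp0]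
  have hSx : qf S x ≤ (2 / τ) ^ 2 * (π₀ - c) :=
    qf_le_of_abs hp0 (abs_ent_le hSs hS0 fun b => by
      have := hSd b
      linarith only [this]) hx0 (hKr a)
  have hPx : qf (P0 X) x ≤ (2 / τ) ^ 2 * (Fintype.card X : ℝ)⁻¹ :=
    qf_le_of_abs (inv_nonneg.mpr hX.le) (fun b c => by
      unfold P0
      rw [abs_of_nonneg (inv_nonneg.mpr hX.le)]) hx0 (hKr a)
  have hM2 : M3 ≤ 8 * C₀ ^ 3 / κ * (π₀ / κ + ε₃ * Λ) := by
    have h1 : τ * M3 ≤ ε₃ * Λ + τ * qf S x + qf (P0 X) x := by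
      rw [hcube]
      exact hf x
    have h2 : M3 ≤ 1 / τ * (ε₃ * Λ) + qf S x + 1 / τ * qf (P0 X) x := by
      have h3 : M3 = 1 / τ * (τ * M3) := by
        field_simp
      rw [h3]
      refine (mul_le_mul_of_nonneg_left h1 (by positivity)).trans (le_of_eq ?_)
      field_simp
    have s1 : 2 / τ ≤ 2 * C₀ / κ := by
      have := mul_le_mul_of_nonneg_left hτi (show (0:ℝ) ≤ 2 by norm_num)
      calc 2 / τ = 2 * (1 / τ) := by ring
        _ ≤ 2 * (C₀ / κ) := this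
        _ = _ := by ring
    have s0 : 0 ≤ 2 / τ := by positivity
    have s2 : (2 / τ) ^ 2 ≤ (2 * C₀ / κ) ^ 2 := pow_le_pow_left₀ s0 s1 2
    have a1 : qf S x ≤ (2 * C₀ / κ) ^ 2 * (π₀ - c) :=
      hSx.trans (mul_le_mul_of_nonneg_right s2 hp0)
    have a2 : 1 / τ * qf (P0 X) x ≤ C₀ / κ * ((2 * C₀ / κ) ^ 2 * (Fintype.card X : ℝ)⁻¹) := by
      have h4 : qf (P0 X) x ≤ (2 * C₀ / κ) ^ 2 * (Fintype.card X : ℝ)⁻¹ :=
        hPx.trans (mul_le_mul_of_nonneg_right s2 (inv_nonneg.mpr hX.le))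
      calc 1 / τ * qf (P0 X) x ≤ 1 / τ * ((2 * C₀ / κ) ^ 2 * (Fintype.card X : ℝ)⁻¹) :=
            mul_le_mul_of_nonneg_left h4 (by positivity)
        _ ≤ _ := mul_le_mul_of_nonneg_right hτi (by positivity)
    have a3 : 1 / τ * (ε₃ * Λ) ≤ C₀ / κ * (ε₃ * Λ) :=
      mul_le_mul_of_nonneg_right hτi (by positivity)
    have b2 : C₀ / κ * ((2 * C₀ / κ) ^ 2 * (Fintype.card X : ℝ)⁻¹) = 4 * C₀ ^ 3 / κ ^ 2 * c := by
      rw [hc]
      field_simp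
      ring
    have b1 : (2 * C₀ / κ) ^ 2 * (π₀ - c) ≤ 4 * C₀ ^ 3 / κ ^ 2 * (π₀ - c) := by
      refine mul_le_mul_of_nonneg_right ?_ hp0
      have : C₀ ^ 2 ≤ C₀ ^ 3 := pow_le_pow_right₀ hC₀ (by norm_num)
      rw [div_pow, mul_pow]
      have h5 : (2:ℝ) ^ 2 * C₀ ^ 2 ≤ 4 * C₀ ^ 3 := by linarith only [this]
      gcongr
    have c3 : C₀ / κ * (ε₃ * Λ) ≤ 8 * C₀ ^ 3 / κ * (ε₃ * Λ) := by
      have h6 : C₀ ≤ C₀ ^ 3 := le_self_pow₀ hC₀ (by norm_num)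
      have : C₀ ≤ 8 * C₀ ^ 3 := by linarith only [hC3, h6]
      gcongr
    have e : 8 * C₀ ^ 3 / κ * (π₀ / κ + ε₃ * Λ) = 4 * C₀ ^ 3 / κ ^ 2 * (π₀ - c) +
        4 * C₀ ^ 3 / κ ^ 2 * c + 4 * C₀ ^ 3 / κ ^ 2 * π₀ + 8 * C₀ ^ 3 / κ * (ε₃ * Λ) := by
      field_simp
      ring
    have e2 : 0 ≤ 4 * C₀ ^ 3 / κ ^ 2 * π₀ := by positivity
    rw [e]
    linarith only [h2, a1, a2, a3, b2, b1, c3, e2]
  -- the product with `E_K`
  have hns : Real.sqrt (Λ * (δ ^ 2 * (N + δ ^ 2 / κ))) =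
      Real.sqrt Λ * Real.sqrt (δ ^ 2 * (N + δ ^ 2 / κ)) := Real.sqrt_mul hΛ0 _
  have hGDs : ∀ b, GD G μ b a = GD G μ a b := by
    intro b
    unfold GD
    rw [Matrix.mul_assoc, Matrix.mul_apply, Matrix.mul_apply]
    apply Finset.sum_congr rfl
    intro c _
    rw [Matrix.diagonal_mul, Matrix.diagonal_mul, hG.hs b c, hG.hs c a]
    ring
  have hEK : ∑ b, EK G μ b a ^ 2 ≤ (2 * C₀ ^ 2 * C₁ / κ) ^ 2 * (δ ^ 2 * (N + δ ^ 2 / κ)) := by
    have g1 : ∀ b, EK G μ b a ^ 2 ≤ 4 * (K a b * ‖GD G μ a b‖ ^ 2) := by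
      intro b
      have h := Complex.abs_re_le_norm ((starRingEnd ℂ) (G b a) * GD G μ b a)
      rw [norm_mul, RCLike.norm_conj, hG.hs b a, hGDs] at h
      have h2 : ((starRingEnd ℂ) (G a b) * GD G μ a b).re ^ 2 ≤
          (‖G a b‖ * ‖GD G μ a b‖) ^ 2 := by
        rw [← sq_abs]
        exact pow_le_pow_left₀ (abs_nonneg _) h 2
      have e : EK G μ b a = 2 * ((starRingEnd ℂ) (G a b) * GD G μ a b).re := by
        unfold EK
        rw [hG.hs b a, hGDs]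
      rw [e, hKab, mul_pow]
      calc (2:ℝ) ^ 2 * ((starRingEnd ℂ) (G a b) * GD G μ a b).re ^ 2
          ≤ (2:ℝ) ^ 2 * (‖G a b‖ * ‖GD G μ a b‖) ^ 2 := by gcongr
        _ = _ := by ring
    have hsδ : 0 ≤ C₀ * δ := by positivity
    have g2 := m2 μ (C₀ * δ) hsδ hG.hμ
    have g3 := m3 μ (C₀ * δ) hsδ hG.hμ a
    have g4 : ∀ b, K a b * ‖GD G μ a b‖ ^ 2 ≤
        (if b ∈ 𝒩 a then C₀ ^ 2 * (C₁ * (C₀ * δ) / κ) ^ 2 else 0) +
          (C₀ * δ) ^ 2 * ‖GD G μ a b‖ ^ 2 := by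
      intro b
      rw [hKab]
      split_ifs with hb
      · have h1 : ‖G a b‖ ^ 2 ≤ C₀ ^ 2 := pow_le_pow_left₀ (norm_nonneg _) (hG.hG a b) 2
        have h2 : ‖GD G μ a b‖ ^ 2 ≤ (C₁ * (C₀ * δ) / κ) ^ 2 :=
          pow_le_pow_left₀ (norm_nonneg _) (g2 a b) 2
        have h3 : ‖G a b‖ ^ 2 * ‖GD G μ a b‖ ^ 2 ≤ C₀ ^ 2 * (C₁ * (C₀ * δ) / κ) ^ 2 :=
          mul_le_mul h1 h2 (by positivity) (by positivity)
        have h4 : 0 ≤ (C₀ * δ) ^ 2 * ‖GD G μ a b‖ ^ 2 := by positivity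
        linarith only [h3, h4]
      · have h1 : ‖G a b‖ ^ 2 ≤ (C₀ * δ) ^ 2 :=
          pow_le_pow_left₀ (norm_nonneg _) ((hG.hn a b).2 hb) 2
        rw [zero_add]
        exact mul_le_mul_of_nonneg_right h1 (by positivity)
    have g5 : ∑ b, K a b * ‖GD G μ a b‖ ^ 2 ≤
        N * (C₀ ^ 2 * (C₁ * (C₀ * δ) / κ) ^ 2) +
          (C₀ * δ) ^ 2 * (C₁ * (C₀ * δ) ^ 2 / κ ^ 3) := by
      refine (Finset.sum_le_sum fun b _ => g4 b).trans ?_
      rw [Finset.sum_add_distrib, ← Finset.mul_sum, ← Finset.sum_filter, Finset.sum_const,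
        nsmul_eq_mul]
      have h5 : ((Finset.univ.filter fun b => b ∈ 𝒩 a).card : ℝ) ≤ N := by
        rw [Finset.filter_univ_mem]
        exact hG.hN a
      gcongr
    calc ∑ b, EK G μ b a ^ 2 ≤ ∑ b, 4 * (K a b * ‖GD G μ a b‖ ^ 2) :=
          Finset.sum_le_sum fun b _ => g1 b
      _ = 4 * ∑ b, K a b * ‖GD G μ a b‖ ^ 2 := by rw [Finset.mul_sum]
      _ ≤ 4 * (N * (C₀ ^ 2 * (C₁ * (C₀ * δ) / κ) ^ 2) +
          (C₀ * δ) ^ 2 * (C₁ * (C₀ * δ) ^ 2 / κ ^ 3)) := by gcongr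
      _ = 4 * C₀ ^ 4 * C₁ ^ 2 / κ ^ 2 * δ ^ 2 * N + 4 * C₀ ^ 4 * δ ^ 4 / κ ^ 3 * C₁ := by
          field_simp
      _ ≤ 4 * C₀ ^ 4 * C₁ ^ 2 / κ ^ 2 * δ ^ 2 * N + 4 * C₀ ^ 4 * δ ^ 4 / κ ^ 3 * C₁ ^ 2 := by
          have : C₁ ≤ C₁ ^ 2 := le_self_pow₀ hC₁ (by norm_num)
          gcongr
      _ = _ := by
          field_simp
          ring
  have hKE : (K * EK G μ) a a ≤
      2 * C₀ ^ 2 * C₁ / κ * Real.sqrt (Λ * (δ ^ 2 * (N + δ ^ 2 / κ))) := by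
    rw [Matrix.mul_apply, hns]
    refine (Real.sum_mul_le_sqrt_mul_sqrt Finset.univ (fun b => K a b)
      (fun b => EK G μ b a)).trans ?_
    have h1 := Real.sqrt_le_sqrt hEK
    rw [Real.sqrt_mul (by positivity), Real.sqrt_sq (by positivity)] at h1
    calc Real.sqrt (∑ b, K a b ^ 2) * Real.sqrt (∑ b, EK G μ b a ^ 2)
        ≤ Real.sqrt Λ * (2 * C₀ ^ 2 * C₁ / κ * Real.sqrt (δ ^ 2 * (N + δ ^ 2 / κ))) :=
          mul_le_mul_of_nonneg_left h1 (Real.sqrt_nonneg _)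
      _ = _ := by ring
  -- the third term
  have hBB : (∑ b, ∑ c, (starRingEnd ℂ) (BB G a b) * BB G a c * BB G c b).re ≤
      ε₁ / τ * Λ := by
    have e1 : (∑ b, ∑ c, (starRingEnd ℂ) (BB G a b) * BB G a c * BB G c b) =
        star (fun b => BB G a b) ⬝ᵥ (BB G *ᵥ fun b => BB G a b) := by
      unfold dotProduct
      apply Finset.sum_congr rfl
      intro b _
      rw [Matrix.mulVec, dotProduct, Finset.mul_sum]
      apply Finset.sum_congr rfl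
      intro c _
      have : BB G c b = BB G b c := by
        unfold QF.BB
        rw [hG.hs c b]
      rw [this, Pi.star_apply]
      simp only [starRingEnd_apply]
      ring
    have e2 : n2 (fun b => BB G a b) = Λ := by
      unfold n2
      rw [hΛ]
      apply Finset.sum_congr rfl
      intro b _
      rw [hKab]
      unfold QF.BB
      rw [norm_pow]
    rw [e1]
    refine (Complex.re_le_norm _).trans ((dot_le _ _).trans ?_)
    have h1 := Real.sqrt_le_sqrt (hB fun b => BB G a b)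
    rw [Real.sqrt_mul (by positivity), Real.sqrt_sq (by positivity), e2] at h1
    rw [e2]
    calc Real.sqrt Λ * Real.sqrt (n2 (BB G *ᵥ fun b => BB G a b))
        ≤ Real.sqrt Λ * (ε₁ / τ * Real.sqrt Λ) :=
          mul_le_mul_of_nonneg_left h1 (Real.sqrt_nonneg _)
      _ = ε₁ / τ * (Real.sqrt Λ * Real.sqrt Λ) := by ring
      _ = _ := by rw [Real.mul_self_sqrt hΛ0]
  have hBB2 : ε₁ / τ * Λ ≤ C₀ / κ * (ε₁ * Λ) := by
    have h5 : 0 ≤ ε₁ * Λ := by positivity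
    calc ε₁ / τ * Λ = 1 / τ * (ε₁ * Λ) := by ring
      _ ≤ _ := mul_le_mul_of_nonneg_right hτi h5
  -- comparison of the constants
  have q1 : 0 ≤ π₀ / κ + ε₃ * Λ := by positivity
  have k1 : 8 * C₀ ^ 3 / κ ≤ 8 * (C₀ ^ 3 * C₁) / κ := by
    have : C₀ ^ 3 ≤ C₀ ^ 3 * C₁ := le_mul_of_one_le_right (by positivity) hC₁
    gcongr
  have hM4 : M3 ≤ 8 * (C₀ ^ 3 * C₁) / κ * (π₀ / κ + ε₃ * Λ) :=
    hM2.trans (mul_le_mul_of_nonneg_right k1 q1)
  constructor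
  · have k2 : 2 * C₀ ^ 2 * C₁ / κ ≤ 2 * (C₀ ^ 3 * C₁) / κ := by
      have : C₀ ^ 2 * C₁ ≤ C₀ ^ 3 * C₁ :=
        mul_le_mul_of_nonneg_right (pow_le_pow_right₀ hC₀ (by norm_num)) hC₁0.le
      rw [mul_assoc]
      gcongr
    have k3 : C₀ / κ ≤ (C₀ ^ 3 * C₁) / κ := by
      have h6 : C₀ ≤ C₀ ^ 3 := le_self_pow₀ hC₀ (by norm_num)
      have : C₀ ^ 3 ≤ C₀ ^ 3 * C₁ := le_mul_of_one_le_right (by positivity) hC₁
      have := h6.trans this
      gcongr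
    set D : ℝ := C₀ ^ 3 * C₁
    set R : ℝ := Real.sqrt (Λ * (δ ^ 2 * (N + δ ^ 2 / κ))) with hRdef
    have hR0 : 0 ≤ R := Real.sqrt_nonneg _
    have r1 : (K * EK G μ) a a ≤ 2 * D / κ * R :=
      hKE.trans (mul_le_mul_of_nonneg_right k2 hR0)
    have r2 : (∑ b, ∑ c, (starRingEnd ℂ) (BB G a b) * BB G a c * BB G c b).re ≤
        D / κ * (ε₁ * Λ) :=
      (hBB.trans hBB2).trans (mul_le_mul_of_nonneg_right k3 (by positivity))
    unfold lLa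
    rw [← hKdef, ← hM3]
    have hD0 : 0 ≤ D / κ := by positivity
    have w1 : 0 ≤ D / κ * (π₀ / κ) := by positivity
    have w3 : 0 ≤ D / κ * (ε₃ * Λ) := by positivity
    have w4 : 0 ≤ D / κ * (ε₁ * Λ) := by positivity
    have w5 : 0 ≤ D / κ * R := by positivity
    have f1 : 8 * D / κ * (π₀ / κ + ε₃ * Λ) = 8 * (D / κ * (π₀ / κ)) +
        8 * (D / κ * (ε₃ * Λ)) := by ring
    have f2 : 2 * D / κ * R = 2 * (D / κ * R) := by ring
    have f3 : 128 * D / κ * (π₀ / κ + (ε₃ + ε₁) * Λ + R) =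
        128 * (D / κ * (π₀ / κ)) + 128 * (D / κ * (ε₃ * Λ)) +
          128 * (D / κ * (ε₁ * Λ)) + 128 * (D / κ * R) := by ring
    rw [f1] at hM4
    rw [f2] at r1
    rw [f3]
    linarith only [hM4, r1, r2, w1, w3, w4, w5]
  · -- the gradient
    have hgr : ∀ c, (2 * ∑ b, K a b * dK G c a b) ^ 2 ≤ 16 * Λ * (K a c * ∑ b, K c b * K b a) := by
      intro c
      have h1 : |∑ b, K a b * dK G c a b| ≤ 2 * ‖G a c‖ * ∑ b, K a b * (‖G a b‖ * ‖G c b‖) := by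
        refine (Finset.abs_sum_le_sum_abs _ _).trans ?_
        rw [Finset.mul_sum]
        apply Finset.sum_le_sum
        intro b _
        rw [abs_mul, abs_of_nonneg (hK0 a b)]
        have h2 : |dK G c a b| ≤ 2 * (‖G a b‖ * ‖G a c‖ * ‖G c b‖) := by
          unfold dK
          rw [abs_neg, abs_mul, abs_of_nonneg (show (0:ℝ) ≤ 2 by norm_num)]
          have := Complex.abs_re_le_norm ((starRingEnd ℂ) (G a b) * G a c * G c b)
          rw [norm_mul, norm_mul, RCLike.norm_conj] at this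
          linarith only [this]
        calc K a b * |dK G c a b| ≤ K a b * (2 * (‖G a b‖ * ‖G a c‖ * ‖G c b‖)) :=
              mul_le_mul_of_nonneg_left h2 (hK0 a b)
          _ = _ := by ring
      have h3 : (∑ b, K a b * (‖G a b‖ * ‖G c b‖)) ^ 2 ≤ Λ * ∑ b, K c b * K b a := by
        refine (Finset.sum_mul_sq_le_sq_mul_sq _ _ _).trans ?_
        refine mul_le_mul_of_nonneg_left (le_of_eq ?_) hΛ0
        apply Finset.sum_congr rfl
        intro b _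
        rw [mul_pow, ← hKab, ← hKab, hKs a b]
        ring
      have h4 : (∑ b, K a b * dK G c a b) ^ 2 ≤
          (2 * ‖G a c‖ * ∑ b, K a b * (‖G a b‖ * ‖G c b‖)) ^ 2 := by
        rw [← sq_abs]
        exact pow_le_pow_left₀ (abs_nonneg _) h1 2
      calc (2 * ∑ b, K a b * dK G c a b) ^ 2 = 4 * (∑ b, K a b * dK G c a b) ^ 2 := by ring
        _ ≤ 4 * (2 * ‖G a c‖ * ∑ b, K a b * (‖G a b‖ * ‖G c b‖)) ^ 2 := by linarith only [h4]
        _ = 16 * ‖G a c‖ ^ 2 * (∑ b, K a b * (‖G a b‖ * ‖G c b‖)) ^ 2 := by ring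
        _ ≤ 16 * ‖G a c‖ ^ 2 * (Λ * ∑ b, K c b * K b a) := by gcongr
        _ = _ := by rw [← hKab]; ring
    have hs3 : ∑ c, K a c * ∑ b, K c b * K b a = M3 := by
      rw [hM3, Matrix.mul_assoc, Matrix.mul_apply]
      exact Finset.sum_congr rfl fun c _ => by rw [Matrix.mul_apply]
    calc ∑ c, (2 * ∑ b, K a b * dK G c a b) ^ 2
        ≤ ∑ c, 16 * Λ * (K a c * ∑ b, K c b * K b a) := Finset.sum_le_sum fun c _ => hgr c
      _ = 16 * Λ * M3 := by rw [← Finset.mul_sum, hs3]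
      _ ≤ 16 * Λ * (8 * (C₀ ^ 3 * C₁) / κ * (π₀ / κ + ε₃ * Λ)) := by gcongr
      _ = _ := by ring

end Pool.Agent.LE.QX.H22L
end
end -- Pool.Agent.Helper22_LQX.LMB

section -- Pool.Agent.Helper30_LQX.TOF

/-!
# Row TOF of table lqx: the torus
-/

set_option autoImplicit false

open MeasureTheory ProbabilityTheory Function Filter

open scoped ENNReal BigOperators Topology NNReal ComplexOrder Matrix

noncomputable section

namespace Pool.Agent.LE.QX.H30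

open Pool.Agent.Anderson hiding box mem_box card_box
open Pool.Agent.Loc Pool.Agent.Mob Pool.Agent.Helper54.Bal
  Pool.Agent.Helper96.EXP Pool.Agent.BED
open Pool.Agent.LE.MN Pool.Agent.LE.CL Pool.Agent.LE.IR Pool.Agent.LE.QD Pool.Agent.LE.QF

/-- from eventually to a threshold -/
theorem small_of_ev {P : ℝ → Prop} (h : ∀ᶠ s in 𝓝[>] (0 : ℝ), P s) :
    ∃ c : ℝ, 0 < c ∧ ∀ s, 0 < s → s ≤ c → P s := by
  obtain ⟨u, hu, hs⟩ := mem_nhdsGT_iff_exists_Ioc_subset.1 h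
  exact ⟨u, hu, fun s h0 h1 => hs ⟨h0, h1⟩⟩

theorem ev_rpow {r ρ K : ℝ} (hr : 0 < r) (hρ : 0 < ρ) :
    ∀ᶠ s in 𝓝[>] (0 : ℝ), K * s ^ r ≤ ρ := by
  have h1 : Tendsto (fun s : ℝ => K * s ^ r) (𝓝[>] 0) (𝓝 (K * 0)) := by
    apply Tendsto.const_mul
    have h2 : Tendsto (fun s : ℝ => s ^ r) (𝓝 0) (𝓝 ((0 : ℝ) ^ r)) :=
      (Real.continuousAt_rpow_const 0 r (Or.inr hr.le)).tendsto
    rw [Real.zero_rpow hr.ne'] at h2
    exact h2.mono_left nhdsWithin_le_nhds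
  rw [mul_zero] at h1
  exact (h1.eventually (gt_mem_nhds hρ)).mono fun s hs => hs.le

theorem ev_exp {θ B K : ℝ} (hθ : 0 < θ) :
    ∀ᶠ s in 𝓝[>] (0 : ℝ), K * (s ^ (-B) * Real.exp (-(s ^ (-θ) / 8))) ≤ 1 := by
  have h1 : Tendsto (fun s : ℝ => s ^ (-θ)) (𝓝[>] 0) atTop :=
    tendsto_rpow_neg_nhdsGT_zero (by linarith only [hθ])
  have h2 := (tendsto_rpow_mul_exp_neg_mul_atTop_nhds_zero (B / θ) (1 / 8) (by norm_num)).comp h1
  have h3 := h2.const_mul K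
  rw [mul_zero] at h3
  have h4 := h3.eventually (gt_mem_nhds (zero_lt_one))
  filter_upwards [h4, self_mem_nhdsWithin] with s hs hs0
  have hs0' : (0 : ℝ) < s := hs0
  have e1 : (s ^ (-θ)) ^ (B / θ) = s ^ (-B) := by
    rw [← Real.rpow_mul hs0'.le]
    congr 1
    field_simp
  have e2 : K * (s ^ (-B) * Real.exp (-(s ^ (-θ) / 8))) =
      K * ((s ^ (-θ)) ^ (B / θ) * Real.exp (-(1 / 8) * s ^ (-θ))) := by
    rw [e1]
    congr 3
    ring
  rw [e2]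
  exact hs.le

theorem adm_mono {d M : ℕ} [NeZero M] {D : Dat d M} {c₁ C₁ c₀ c₀' : ℝ}
    (h : Adm D c₁ C₁ c₀) (hc : c₀ ≤ c₀') : Adm D c₁ C₁ c₀' :=
  { h with
    hδ := ⟨h.hδ.1, h.hδ.2.1, h.hδ.2.2.trans hc⟩
    hk := ⟨h.hk.1, h.hk.2.1.trans hc, h.hk.2.2⟩ }

/-- **TOF** -/
theorem tof (hIni : IniStmt) (hUpr : UprStmt) (hOut : OutStmt) : TofStmt := by
  intro d a ε hd ha hε hε1
  obtain ⟨θ, c₁, C₁, hθ, hθ1, hc₁, hC₁, hI⟩ := hIni d a ε hd ha hε hε1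
  obtain ⟨cU, CU, hcU, -, hCU, hU⟩ := hUpr c₁ C₁ hc₁ hC₁
  obtain ⟨cO, CO, hcO, -, hCO, hO⟩ := hOut c₁ C₁ hc₁ hC₁
  obtain ⟨cI, CI, hcI, hcI4, hCI, hI'⟩ := hI (min cU cO) (lt_min hcU hcO)
  have hd3 : (3 : ℝ) ≤ d := by exact_mod_cast hd
  have hCU0 : 0 < CU := by linarith only [hθ, hθ1, hCU]
  have hCI0 : 0 < CI := by linarith only [hθ, hθ1, hCI]
  have hCO0 : 0 < CO := by linarith only [hθ, hθ1, hCO]
  -- the thresholds
  obtain ⟨t1, ht1, hs1⟩ := small_of_ev ((ev_rpow (K := 2 * CU * CI) (r := 3 * θ) (ρ := 1)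
    (by linarith only [hθ]) (by norm_num)).and
    (ev_rpow (K := 1) (r := 2 * θ) (ρ := 7 / 8) (by linarith only [hθ]) (by norm_num)))
  obtain ⟨t2, ht2, hs2⟩ := small_of_ev (ev_exp (θ := 4 * θ) (B := 2)
    (K := 6 * CU * (2 + CI)) (by linarith only [hθ]))
  obtain ⟨t3, ht3, hs3⟩ := small_of_ev (ev_rpow (K := 3 * CO + 1) (r := 3 * θ) (ρ := 1)
    (by linarith only [hθ]) (by norm_num))
  refine ⟨θ, min (min cI (c₁ / 2)) (min t1 (min t2 t3)), hθ, hθ1, ?_, ?_, ?_⟩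
  · exact lt_min (lt_min hcI (by linarith only [hc₁])) (lt_min ht1 (lt_min ht2 ht3))
  · exact (min_le_left _ _).trans ((min_le_left _ _).trans hcI4)
  intro M _ v σ E η hv hσ hσc hE1 hE2 hη1 hη2 hM1 hM2
  obtain ⟨s, hs⟩ : ∃ s, s = |σ| := ⟨_, rfl⟩
  rw [← hs] at hσc hE1 hη1 hη2 hM1 hM2 ⊢
  have hs0 : 0 < s := by rw [hs]; exact abs_pos.2 hσ
  have hc1 : s ≤ cI := hσc.trans ((min_le_left _ _).trans (min_le_left _ _))
  have hc3 : s ≤ t1 := hσc.trans ((min_le_right _ _).trans (min_le_left _ _))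
  have hc4 : s ≤ t2 := hσc.trans ((min_le_right _ _).trans ((min_le_right _ _).trans
    (min_le_left _ _)))
  have hc5 : s ≤ t3 := hσc.trans ((min_le_right _ _).trans ((min_le_right _ _).trans
    (min_le_right _ _)))
  obtain ⟨hn1, hn2⟩ := hs1 s hs0 hc3
  have hn3 := hs2 s hs0 hc4
  have hn4 := hs3 s hs0 hc5
  have hs1' : s ≤ 1 := by linarith only [hθ, hθ1, hcI4, hc1]
  obtain ⟨D, hAdm, hDE, hDη, hDT, hDa, hDp, hDδ, hDe, hDb, hDS⟩ :=
    hI' M σ E η hσ (by rw [← hs]; exact hc1) (by rw [← hs]; exact hE1) hE2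
      (by rw [← hs]; exact hη1) (by rw [← hs]; exact hη2) (by rw [← hs]; exact hM1)
      (by rw [← hs]; exact hM2)
  rw [← hs] at hDa hDp hDδ hDe hDb hDS
  have hη0 : 0 < η := (Real.exp_pos _).trans_le hη1
  have hη3 : η ≤ 1 := hη2.trans (pow_le_one₀ hs0.le hs1')
  have hMpos : (0 : ℝ) < M := by
    exact_mod_cast Nat.pos_of_ne_zero (NeZero.ne M)
  subst hDE
  subst hDη
  -- the event
  have hsub : {V | ¬ ((∀ x, min (min cI (c₁ / 2)) (min t1 (min t2 t3)) ≤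
        (rs V ⟨D.E, D.η⟩ x x).im) ∧
      ∀ C' : Finset (Tor d M), (C'.card : ℝ) ≤ (s ^ (ε - 1) / Real.sqrt D.η) ^ d →
        mss V ⟨D.E, D.η⟩ C' ≤ s ^ θ * C'.card / D.η)} ⊆ {V | 1 ≤ D.U (D.T, V)} := by
    intro V hV
    rw [Set.mem_ofPred_eq] at hV ⊢
    by_contra hlt
    push Not at hlt
    apply hV
    obtain ⟨h1, h2⟩ := hO d M D V (adm_mono hAdm (min_le_right _ _)) hlt
    refine ⟨fun x => ?_, fun C' hC' => ?_⟩
    · exact ((min_le_left _ _).trans (min_le_right _ _)).trans (h1 x)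
    · have h3 := h2 C'
      have h4 := hDS C' hC'
      have hcard : (0 : ℝ) ≤ C'.card := Nat.cast_nonneg _
      have h5 : (C'.card : ℝ) / (M : ℝ) ^ d ≤ s ^ (4 * θ) := by
        rw [div_le_iff₀ (by positivity)]
        have hsq : 0 < Real.sqrt D.η := Real.sqrt_pos.2 hη0
        have hsq1 : Real.sqrt D.η ≤ 1 := Real.sqrt_le_one.2 hη3
        have hsqe : Real.sqrt D.η * Real.sqrt D.η = D.η := Real.mul_self_sqrt hη0.le
        have hsε : 0 < s ^ (ε - 1) := Real.rpow_pos_of_pos hs0 _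
        have h6 : s ^ (ε - 1) / Real.sqrt D.η ≤ s ^ (4 * θ) * M := by
          rw [div_le_iff₀ hsq]
          have e1 : s ^ (ε - 1) ≤ s ^ (-1 : ℝ) :=
            Real.rpow_le_rpow_of_exponent_ge hs0 hs1' (by linarith only [hε])
          have e2 : s ^ (-1 : ℝ) = 1 / s := by rw [Real.rpow_neg_one, one_div]
          have e3 : s ≤ s ^ (4 * θ) := by
            calc s = s ^ (1 : ℝ) := (Real.rpow_one s).symm
              _ ≤ s ^ (4 * θ) :=
                Real.rpow_le_rpow_of_exponent_ge hs0 hs1' (by linarith only [hθ, hθ1])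
          have e4 : 1 / s ≤ s * M * Real.sqrt D.η := by
            rw [div_le_iff₀ hs0]
            have e5 : s ^ 4 * D.η ^ 2 * M ≤ s * M * Real.sqrt D.η * s := by
              have e6 : s ^ 4 * D.η ^ 2 * M = s * M * Real.sqrt D.η * s *
                  (s ^ 2 * (D.η * Real.sqrt D.η)) := by
                calc s ^ 4 * D.η ^ 2 * M = s ^ 4 * (D.η * (Real.sqrt D.η * Real.sqrt D.η)) * M := by
                      rw [hsqe]; ring
                  _ = _ := by ring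
              rw [e6]
              apply mul_le_of_le_one_right (by positivity)
              exact mul_le_one₀ (pow_le_one₀ hs0.le hs1') (by positivity)
                (mul_le_one₀ hη3 hsq.le hsq1)
            exact hM1.trans e5
          calc s ^ (ε - 1) ≤ 1 / s := by rw [← e2]; exact e1
            _ ≤ s * M * Real.sqrt D.η := e4
            _ ≤ s ^ (4 * θ) * M * Real.sqrt D.η := by gcongr
        have h7 : (s ^ (ε - 1) / Real.sqrt D.η) ^ d ≤ (s ^ (4 * θ) * M) ^ d :=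
          pow_le_pow_left₀ (div_nonneg hsε.le hsq.le) h6 d
        refine hC'.trans (h7.trans ?_)
        rw [mul_pow]
        apply mul_le_mul_of_nonneg_right _ (by positivity)
        have hsθ := Real.rpow_nonneg hs0.le (4 * θ)
        have hsθ1 : s ^ (4 * θ) ≤ 1 := Real.rpow_le_one hs0.le hs1' (by linarith only [hθ])
        calc (s ^ (4 * θ)) ^ d ≤ (s ^ (4 * θ)) ^ 1 :=
              pow_le_pow_of_le_one hsθ hsθ1 (by omega)
          _ = s ^ (4 * θ) := pow_one _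
      have h8 : D.δ + (D.e₀ - 1) + (C'.card : ℝ) / (M : ℝ) ^ d ≤ 3 * s ^ (4 * θ) := by linarith only [hDδ, hDe, h5]
      have h9 : CO / D.η * (D.δ + (D.e₀ - 1) + (C'.card : ℝ) / (M : ℝ) ^ d) * C'.card ≤
          CO / D.η * (3 * s ^ (4 * θ)) * C'.card := by
        apply mul_le_mul_of_nonneg_right _ hcard
        exact mul_le_mul_of_nonneg_left h8 (by positivity)
      have h10 : CO / D.η * (3 * s ^ (4 * θ)) * C'.card + s ^ (4 * θ) * C'.card / D.η =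
          ((3 * CO + 1) * s ^ (3 * θ)) * (s ^ θ * C'.card / D.η) := by
        have e : s ^ (4 * θ) = s ^ (3 * θ) * s ^ θ := by
          rw [← Real.rpow_add hs0]
          congr 1
          ring
        rw [e]
        field_simp
      have h11 : ((3 * CO + 1) * s ^ (3 * θ)) * (s ^ θ * C'.card / D.η) ≤
          1 * (s ^ θ * C'.card / D.η) := by
        apply mul_le_mul_of_nonneg_right hn4
        have := Real.rpow_nonneg hs0.le θ
        positivity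
      rw [one_mul] at h11
      linarith
  refine (measure_mono hsub).trans ?_
  refine (hU d M D v (adm_mono hAdm (min_le_left _ _)) (by rw [hv, hDT])).trans ?_
  apply ENNReal.ofReal_le_ofReal
  -- the numbers
  obtain ⟨ℓ, hℓ⟩ : ∃ ℓ, ℓ = 1 + Real.log (D.w / D.η) := ⟨_, rfl⟩
  rw [← hℓ]
  have hw0 : D.η ≤ D.w := by
    unfold Dat.w Dat.kp
    have h1 := hAdm.hT.1
    have h2 := hAdm.hm.1
    have : 0 ≤ (D.T - 0) * D.m.im := mul_nonneg (by linarith only [h1]) (by linarith only [hc₁, h2])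
    linarith only [this]
  have hDw : D.w ≤ 1 := hAdm.hT.2.2.1
  have hℓ1 : 1 ≤ ℓ := by
    rw [hℓ]
    have : 0 ≤ Real.log (D.w / D.η) := Real.log_nonneg (by rw [le_div_iff₀ hη0]; linarith only [hw0])
    linarith only [this]
  have hsθ0 : 1 ≤ s ^ (-θ) := Real.one_le_rpow_of_pos_of_le_one_of_nonpos hs0 hs1' (by linarith only [hθ])
  have hℓ2 : ℓ ≤ 2 * s ^ (-θ) := by
    rw [hℓ]
    have h1 : Real.log (D.w / D.η) ≤ Real.log (1 / D.η) := by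
      apply Real.log_le_log (div_pos (by linarith only [hη0, hw0]) hη0)
      exact div_le_div_of_nonneg_right hDw hη0.le
    have h2 : Real.log (1 / D.η) ≤ s ^ (-θ) := by
      rw [one_div, Real.log_inv]
      have h3 : Real.log (Real.exp (-(s ^ (-θ)))) ≤ Real.log D.η :=
        Real.log_le_log (Real.exp_pos _) hη1
      rw [Real.log_exp] at h3
      linarith only [h3]
    linarith only [hsθ0, h1, h2]
  have hsi : 1 ≤ 1 / s := by rw [le_div_iff₀ hs0]; linarith only [hθ, hθ1, hcI4, hc1]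
  have haN : CU * D.aN * ℓ ≤ 1 := by
    have hsθ := Real.rpow_nonneg hs0.le (4 * θ)
    have h1 : CU * D.aN * ℓ ≤ CU * (CI * s ^ (4 * θ)) * (2 * s ^ (-θ)) := by
      have h2 : CU * D.aN ≤ CU * (CI * s ^ (4 * θ)) :=
        mul_le_mul_of_nonneg_left hDa (by linarith only [hθ, hθ1, hCU])
      calc CU * D.aN * ℓ ≤ CU * (CI * s ^ (4 * θ)) * ℓ :=
            mul_le_mul_of_nonneg_right h2 (by linarith only [hθ, hθ1, hℓ1])
        _ ≤ _ := mul_le_mul_of_nonneg_left hℓ2 (by positivity)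
    have h3 : CU * (CI * s ^ (4 * θ)) * (2 * s ^ (-θ)) = 2 * CU * CI * s ^ (3 * θ) := by
      have e : s ^ (3 * θ) = s ^ (4 * θ) * s ^ (-θ) := by
        rw [← Real.rpow_add hs0]
        congr 1
        ring
      rw [e]
      ring
    linarith only [hn1, h1, h3]
  have hexp : Real.exp (CU * D.aN * ℓ) ≤ 3 := by
    refine (Real.exp_le_exp.2 haN).trans ?_
    have := Real.exp_one_lt_d9
    linarith only [hθ, hθ1, this]
  have hsθ1 : s ^ (4 * θ) ≤ 1 := Real.rpow_le_one hs0.le hs1' (by linarith only [hθ])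
  have hp1 : (D.p : ℝ) ≤ 1 / s := by
    have h1 : s ^ (-1 : ℝ) = 1 / s := by rw [Real.rpow_neg_one, one_div]
    rwa [h1] at hDp
  have hw1 : 0 < D.w := by linarith only [hη0, hw0]
  have hδ0 := hAdm.hδ.1
  have hε0 : 0 < D.ε₁ := by
    have := hAdm.hδ.2.1
    linarith only [hδ0, this]
  have he0 : 0 ≤ D.e₀ - 1 := by
    have h1 := hAdm.he.1
    have h2 := hAdm.he.2.1
    linarith only [h1, h2]
  have he1 : 0 < D.e₁ := by
    have h1 := hAdm.he.1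
    linarith only [hθ, hθ1, h1]
  obtain ⟨-, -, hL0, hN0, hπ0⟩ := hAdm.hj
  have hL0' : 0 < D.L₀ := by linarith only [hθ, hθ1, hL0]
  have hN0' : 0 < D.N := by linarith only [hθ, hθ1, hN0]
  have haN0 : 0 ≤ D.aN := by
    unfold Dat.aN Dat.ch Dat.h
    positivity
  have haN2 : 1 + D.aN + D.p ≤ (2 + CI) * (1 / s) := by
    have h1 : D.aN ≤ CI := hDa.trans (mul_le_of_le_one_right hCI0.le hsθ1)
    have h2 : CI ≤ CI * (1 / s) := le_mul_of_one_le_right hCI0.le hsi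
    linarith only [h1, h2, hsi, hp1]
  have hℓ3 : ℓ ≤ 2 * (1 / s) := by
    have h1 : s ^ (-θ) ≤ s ^ (-1 : ℝ) :=
      Real.rpow_le_rpow_of_exponent_ge hs0 hs1' (by linarith only [hθ, hθ1])
    have h2 : s ^ (-1 : ℝ) = 1 / s := by rw [Real.rpow_neg_one, one_div]
    rw [h2] at h1
    linarith only [h1, hℓ2]
  have hbN0 : 0 ≤ D.bN := by
    unfold Dat.bN
    positivity
  have hsi0 : 0 < 1 / s := by positivity
  have hmid : CU * (1 + D.aN + D.p) * ℓ * D.bN ≤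
      CU * ((2 + CI) * (1 / s)) * (2 * (1 / s)) * Real.exp (-(s ^ (-(4 * θ)))) := by
    apply mul_le_mul _ hDb hbN0 (by positivity)
    apply mul_le_mul _ hℓ3 (by linarith only [hθ, hθ1, hℓ1]) (by positivity)
    exact mul_le_mul_of_nonneg_left haN2 hCU0.le
  have hmid0 : 0 ≤ CU * (1 + D.aN + D.p) * ℓ * D.bN := by positivity
  -- the exponentials
  have hy0 : 0 < s ^ (-(2 * θ)) := Real.rpow_pos_of_pos hs0 _
  have hyx : s ^ (-(4 * θ)) = s ^ (-(2 * θ)) * s ^ (-(2 * θ)) := by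
    rw [← Real.rpow_add hs0]
    congr 1
    ring
  have hy1 : 8 / 7 ≤ s ^ (-(2 * θ)) := by
    rw [one_mul] at hn2
    have h1 : s ^ (2 * θ) * s ^ (-(2 * θ)) = 1 := by
      rw [← Real.rpow_add hs0, add_neg_cancel, Real.rpow_zero]
    have h2 := mul_le_mul_of_nonneg_right hn2 hy0.le
    linarith only [h1, h2]
  have hee : Real.exp (-(s ^ (-(4 * θ)))) ≤
      Real.exp (-(s ^ (-(4 * θ)) / 8)) * Real.exp (-(s ^ (-(2 * θ)))) := by
    rw [← Real.exp_add]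
    apply Real.exp_le_exp.2
    rw [hyx]
    have h2 := mul_le_mul_of_nonneg_left hy1 hy0.le
    linarith only [h2]
  calc Real.exp (CU * D.aN * ℓ) * (CU * (1 + D.aN + D.p) * ℓ * D.bN) ≤
      3 * (CU * ((2 + CI) * (1 / s)) * (2 * (1 / s)) *
        (Real.exp (-(s ^ (-(4 * θ)) / 8)) * Real.exp (-(s ^ (-(2 * θ)))))) := by
        apply mul_le_mul hexp _ hmid0 (by norm_num)
        exact hmid.trans (mul_le_mul_of_nonneg_left hee (by positivity))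
    _ = (6 * CU * (2 + CI) * (s ^ (-(2 : ℝ)) * Real.exp (-(s ^ (-(4 * θ)) / 8)))) *
        Real.exp (-(s ^ (-(2 * θ)))) := by
        have e1 : s ^ (-(2 : ℝ)) = (1 / s) * (1 / s) := by
          have e2 : (-(2 : ℝ)) = -1 + -1 := by norm_num
          rw [e2, Real.rpow_add hs0, Real.rpow_neg_one, one_div]
        rw [e1]
        ring
    _ ≤ 1 * Real.exp (-(s ^ (-(2 * θ)))) :=
        mul_le_mul_of_nonneg_right hn3 (Real.exp_nonneg _)
    _ = Real.exp (-(s ^ (-(2 * θ)))) := one_mul _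

end Pool.Agent.LE.QX.H30
end
end -- Pool.Agent.Helper30_LQX.TOF
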