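import Pool.Agent.Helper12_MEB.B002
import Pool.Agent.Helper12_MEB.B085

/-!
# Merged copies (generated) of the modules

* `Pool.Agent.Helper70_LQF.UFL`
* `Pool.Agent.KIL.Defs`
* `Pool.Agent.KIL.Stmts`
* `Pool.Agent.ATT.Defs`
* `Pool.Agent.ATT.Stmts`
* `Pool.Agent.Helper13_KIL.KTH`
* `Pool.Agent.Helper38_KIL.KNB`
* `Pool.Agent.Helper49_ATT.CUP`
* `Pool.Agent.Helper75_ATT.GUF`
* `Pool.Agent.Helper77_KIL.UF3`
-/

set_option autoImplicit false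

section -- Pool.Agent.Helper70_LQF.UFL

/-!
# The probability that the functional reaches one
-/

set_option autoImplicit false

open MeasureTheory ProbabilityTheory Function Filter

open scoped ENNReal BigOperators Topology NNReal ComplexOrder Matrix

noncomputable section

namespace Pool.Agent.LE.QF.H70

open Pool.Agent.Anderson hiding box mem_box card_box
open Pool.Agent.Loc Pool.Agent.Mob Pool.Agent.Helper54.Bal
  Pool.Agent.Helper96.EXP Pool.Agent.BED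
open Pool.Agent.LE.MN Pool.Agent.LE.CL Pool.Agent.LE.IR Pool.Agent.LE.QD

/-- the positive part to a power -/
theorem hasDerivAt_pospow (n : ℕ) (hn : 1 ≤ n) (y : ℝ) :
    HasDerivAt (fun y : ℝ => max y 0 ^ (n + 1)) ((n + 1) * max y 0 ^ n) y := by
  rcases lt_trichotomy y 0 with h | h | h
  · have h1 : (fun y : ℝ => max y 0 ^ (n + 1)) =ᶠ[𝓝 y] fun _ => 0 := by
      filter_upwards [gt_mem_nhds h] with z hz
      rw [max_eq_right hz.le, zero_pow (by omega)]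
    rw [max_eq_right h.le, zero_pow (by omega), mul_zero]
    exact (hasDerivAt_const y (0 : ℝ)).congr_of_eventuallyEq h1
  · subst h
    rw [max_self, zero_pow (by omega), mul_zero]
    have h1 : (fun y : ℝ => max y 0 ^ (n + 1)) =O[𝓝 0] fun x => ‖x - 0‖ ^ (n + 1) := by
      refine Asymptotics.IsBigO.of_bound 1 (Eventually.of_forall fun z => ?_)
      rw [one_mul, norm_pow, norm_pow, norm_norm, sub_zero]
      refine pow_le_pow_left₀ (norm_nonneg _) ?_ _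
      rw [Real.norm_eq_abs, Real.norm_eq_abs, abs_of_nonneg (le_max_right _ _)]
      exact max_le (le_abs_self z) (abs_nonneg z)
    have h2 : HasFDerivAt (𝕜 := ℝ) (fun y : ℝ => max y 0 ^ (n + 1)) 0 0 :=
      h1.hasFDerivAt (by omega)
    have h3 := h2.hasDerivAt
    simpa using h3
  · have h1 : (fun y : ℝ => max y 0 ^ (n + 1)) =ᶠ[𝓝 y] fun z => z ^ (n + 1) := by
      filter_upwards [lt_mem_nhds h] with z hz
      rw [max_eq_left hz.le]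
    rw [max_eq_left h.le]
    have h2 := hasDerivAt_pow (n + 1) y
    rw [Nat.add_sub_cancel, Nat.cast_add, Nat.cast_one] at h2
    exact h2.congr_of_eventuallyEq h1

/-- the cut-off `1 - (1 - u)³` -/
def cu (x : ℝ) : ℝ := 1 - max (1 - x) 0 ^ 3

theorem cu_hasDerivAt (x : ℝ) : HasDerivAt cu (3 * max (1 - x) 0 ^ 2) x := by
  have h1 := (hasDerivAt_pospow 2 (by norm_num) (1 - x)).comp x
    ((hasDerivAt_const x (1 : ℝ)).sub (hasDerivAt_id x))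
  have h2 := (hasDerivAt_const x (1 : ℝ)).sub h1
  have e : (0 : ℝ) - ((2 : ℕ) + 1) * max (1 - x) 0 ^ 2 * (0 - 1) = 3 * max (1 - x) 0 ^ 2 := by
    push_cast; ring
  rw [e] at h2
  exact h2

theorem cu_deriv : deriv cu = fun x => 3 * max (1 - x) 0 ^ 2 :=
  funext fun x => (cu_hasDerivAt x).deriv

theorem cu_hasDerivAt2 (x : ℝ) : HasDerivAt (deriv cu) (-(6 * max (1 - x) 0)) x := by
  rw [cu_deriv]
  have h1 := (hasDerivAt_pospow 1 (by norm_num) (1 - x)).comp x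
    ((hasDerivAt_const x (1 : ℝ)).sub (hasDerivAt_id x))
  have h2 := h1.const_mul (3 : ℝ)
  have e : (3 : ℝ) * (((1 : ℕ) + 1) * max (1 - x) 0 ^ 1 * (0 - 1)) = -(6 * max (1 - x) 0) := by
    push_cast; ring
  rw [e] at h2
  exact h2

theorem cu_deriv2 : deriv (deriv cu) = fun x => -(6 * max (1 - x) 0) :=
  funext fun x => (cu_hasDerivAt2 x).deriv

theorem cu_contDiff : ContDiff ℝ 2 cu := by
  have h1 : ContDiff ℝ 1 (deriv cu) := by
    rw [contDiff_one_iff_deriv]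
    refine ⟨fun x => (cu_hasDerivAt2 x).differentiableAt, ?_⟩
    rw [cu_deriv2]
    fun_prop
  have h2 : ContDiff ℝ (1 + 1) cu := by
    rw [contDiff_succ_iff_deriv]
    exact ⟨fun x => (cu_hasDerivAt x).differentiableAt, by simp, h1⟩
  exact h2

theorem cu_nonneg {x : ℝ} (hx : 0 ≤ x) : 0 ≤ cu x := by
  unfold cu
  have h1 : max (1 - x) 0 ≤ 1 := max_le (by linarith) zero_le_one
  have h2 := pow_le_one₀ (n := 3) (le_max_right (1 - x) 0) h1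
  linarith

theorem cu_le_one (x : ℝ) : cu x ≤ 1 := by
  unfold cu
  have := pow_nonneg (le_max_right (1 - x) 0) 3
  linarith

theorem cu_eq_one {x : ℝ} (hx : 1 ≤ x) : cu x = 1 := by
  unfold cu
  rw [max_eq_right (by linarith)]
  norm_num

theorem cu_lt_one {x : ℝ} (hx : x < 1) : cu x < 1 := by
  unfold cu
  rw [max_eq_left (by linarith)]
  have : 0 < (1 - x) ^ 3 := pow_pos (by linarith) 3
  linarith

theorem le_cu {x : ℝ} (hx : 0 ≤ x) (hx1 : x ≤ 1) : x ≤ cu x := by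
  unfold cu
  rw [max_eq_left (by linarith)]
  nlinarith only [mul_nonneg hx (sub_nonneg.2 hx1), mul_nonneg (mul_nonneg hx (sub_nonneg.2 hx1))
    (sub_nonneg.2 hx1)]

theorem cu_le {x : ℝ} (hx : 0 ≤ x) : cu x ≤ 3 * x := by
  rcases le_or_gt x 1 with h | h
  · unfold cu
    rw [max_eq_left (by linarith)]
    nlinarith only [mul_nonneg hx hx, mul_nonneg (mul_nonneg hx hx) hx, h]
  · have := cu_le_one x
    linarith

theorem LL_const_near {ι : Type} [Fintype ι] [DecidableEq ι] (F : ℝ × (ι → ℝ) → ℝ)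
    (q : ℝ × (ι → ℝ)) (c : ℝ) (h : F =ᶠ[𝓝 q] fun _ => c) : LL F q = 0 := by
  have h1 : ∀ i : ι, dC i F =ᶠ[𝓝 q] fun _ => 0 := by
    intro i
    have h2 : fderiv ℝ F =ᶠ[𝓝 q] fderiv ℝ fun _ : ℝ × (ι → ℝ) => c := h.fderiv
    filter_upwards [h2] with r hr
    unfold dC
    rw [hr, fderiv_fun_const]
    rfl
  have h3 : ∀ i : ι, dC i (dC i F) q = 0 := by
    intro i
    have h4 := (h1 i).fderiv_eq (𝕜 := ℝ)
    unfold dC at h4 ⊢
    rw [h4, fderiv_fun_const]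
    rfl
  have h5 : fderiv ℝ F q = 0 := by
    rw [h.fderiv_eq, fderiv_fun_const]
    rfl
  unfold LL
  rw [Finset.sum_eq_zero fun i _ => h3 i, h5]
  simp

theorem ufl (jal : JalStmt) (flw : FlwStmt) : UflStmt := by
  intro ι _ _ T a b u hT ha hb hab hu
  obtain ⟨F, hF⟩ : ∃ F : ℝ × (ι → ℝ) → ℝ, F = fun r => cu (u r) := ⟨_, rfl⟩
  have hkey : ∀ q : ℝ × (ι → ℝ), 0 ≤ q.1 → q.1 ≤ T → ContDiffAt ℝ 2 F q ∧ 0 ≤ F q ∧ F q ≤ 1 ∧
      LL F q ≤ 3 * a q.1 * F q + 3 * b q.1 := by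
    intro q h0 h1
    obtain ⟨hu0, hcase⟩ := hu q h0 h1
    have ha0 := (hab q.1).1
    have hb0 := (hab q.1).2
    have hF0 : 0 ≤ F q := by rw [hF]; exact cu_nonneg hu0
    have hF1 : F q ≤ 1 := by rw [hF]; exact cu_le_one _
    have hr0 : 0 ≤ 3 * a q.1 * F q + 3 * b q.1 := by positivity
    rcases hcase with hc | ⟨hs, hl⟩
    · have h2 : F =ᶠ[𝓝 q] fun _ => 1 := by
        filter_upwards [hc] with r hr
        rw [hF]
        exact cu_eq_one hr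
      refine ⟨contDiffAt_const.congr_of_eventuallyEq h2, hF0, hF1, ?_⟩
      rw [LL_const_near F q 1 h2]
      exact hr0
    · have h2 : HJ u q (u q) (fun c => dC c u q) (LL u q) := ⟨hs, rfl, fun _ => rfl, rfl⟩
      have h3 := ((jal ι ℝ q).2.2.2.2.1 u (u q) (LL u q) _ h2).2 cu cu_contDiff.contDiffAt
      have h4 : LL F q = deriv cu (u q) * LL u q +
          deriv (deriv cu) (u q) / 2 * ∑ c, dC c u q ^ 2 := by
        rw [hF]
        exact h3.ge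
      refine ⟨?_, hF0, hF1, ?_⟩
      · rw [hF]
        exact h3.sm
      rw [h4, cu_deriv2, cu_deriv]
      have h5 : 0 ≤ ∑ c, dC c u q ^ 2 := Finset.sum_nonneg fun c _ => sq_nonneg _
      rcases le_or_gt 1 (u q) with h6 | h6
      · have h7 : max (1 - u q) 0 = 0 := max_eq_right (by linarith only [h6])
        simp only [h7]
        have e : (3 : ℝ) * 0 ^ 2 * LL u q + -(6 * 0) / 2 * ∑ c, dC c u q ^ 2 = 0 := by ring
        rw [e]
        exact hr0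
      · have h7 : max (1 - u q) 0 = 1 - u q := max_eq_left (by linarith only [h6])
        simp only [h7]
        have h8 := hl h6
        have h9 : 3 * (1 - u q) ^ 2 * LL u q ≤ 3 * (1 - u q) ^ 2 * (a q.1 * u q + b q.1) :=
          mul_le_mul_of_nonneg_left h8 (by positivity)
        have h10 : -(6 * (1 - u q)) / 2 * ∑ c, dC c u q ^ 2 ≤ 0 := by
          have : 0 ≤ 6 * (1 - u q) / 2 * ∑ c, dC c u q ^ 2 :=
            mul_nonneg (by linarith only [h6]) h5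
          linarith only [this]
        have h11 : u q ≤ F q := by rw [hF]; exact le_cu hu0 h6.le
        have h12 : (1 - u q) ^ 2 ≤ 1 := by nlinarith only [hu0, h6]
        have h13 : (1 - u q) ^ 2 * (a q.1 * u q + b q.1) ≤ a q.1 * F q + b q.1 := by
          have h14 : a q.1 * u q + b q.1 ≤ a q.1 * F q + b q.1 := by
            have := mul_le_mul_of_nonneg_left h11 ha0
            linarith only [this]
          have h15 : 0 ≤ a q.1 * u q + b q.1 := by positivity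
          calc (1 - u q) ^ 2 * (a q.1 * u q + b q.1) ≤ 1 * (a q.1 * u q + b q.1) :=
                mul_le_mul_of_nonneg_right h12 h15
            _ ≤ _ := by linarith only [h14]
        linarith only [h9, h10, h13]
  have h1 := flw ι T (fun t => 3 * a t) (fun t => 3 * b t) F hT (ha.const_mul 3 |> fun h => h)
    (hb.const_mul 3 |> fun h => h)
    (fun t => ⟨by linarith [(hab t).1], by linarith [(hab t).2]⟩) hkey
  rw [intervalIntegral.integral_const_mul, intervalIntegral.integral_const_mul] at h1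
  obtain ⟨P, hP⟩ : ∃ P : Measure (ι → ℝ), P = Measure.pi fun _ : ι => gaussianReal 0 T.toNNReal :=
    ⟨_, rfl⟩
  have hprob : IsProbabilityMeasure P := by rw [hP]; infer_instance
  rw [← hP] at h1 ⊢
  have hcont : Continuous fun V : ι → ℝ => F (T, V) := by
    rw [continuous_iff_continuousAt]
    intro V
    have h2 := (hkey (T, V) hT.le le_rfl).1.continuousAt
    exact ContinuousAt.comp (f := fun V : ι → ℝ => (T, V)) h2 (by fun_prop)
  have hF0 : ∀ V : ι → ℝ, 0 ≤ F (T, V) := fun V => (hkey (T, V) hT.le le_rfl).2.1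
  have hF1 : ∀ V : ι → ℝ, F (T, V) ≤ 1 := fun V => (hkey (T, V) hT.le le_rfl).2.2.1
  have hint : Integrable (fun V : ι → ℝ => F (T, V)) P := by
    refine Integrable.of_bound hcont.aestronglyMeasurable 1 (Eventually.of_forall fun V => ?_)
    rw [Real.norm_eq_abs, abs_of_nonneg (hF0 V)]
    exact hF1 V
  have h2 := mul_meas_ge_le_integral_of_nonneg (μ := P) (f := fun V : ι → ℝ => F (T, V))
    (Eventually.of_forall hF0) hint 1
  rw [one_mul] at h2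
  have h3 : {V : ι → ℝ | 1 ≤ u (T, V)} ⊆ {V : ι → ℝ | 1 ≤ F (T, V)} := by
    intro V hV
    have : F (T, V) = 1 := by rw [hF]; exact cu_eq_one hV
    exact this.ge
  have h4 : F (0, 0) ≤ 3 * u (0, 0) := by
    rw [hF]
    exact cu_le (hu (0, 0) le_rfl hT.le).1
  calc P {V | 1 ≤ u (T, V)} ≤ P {V | 1 ≤ F (T, V)} := measure_mono h3
    _ = ENNReal.ofReal (P.real {V | 1 ≤ F (T, V)}) := by
        rw [Measure.real, ENNReal.ofReal_toReal (measure_ne_top _ _)]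
    _ ≤ _ := by
        refine ENNReal.ofReal_le_ofReal (h2.trans (h1.trans ?_))
        refine mul_le_mul_of_nonneg_left ?_ (Real.exp_pos _).le
        linarith only [h4]

end Pool.Agent.LE.QF.H70
end
end -- Pool.Agent.Helper70_LQF.UFL

section -- Pool.Agent.KIL.Defs

/-!
# The pre-kills of a site `o` (block KIL of AND2B): definitions

A run kills the running sites `e c`, `c : ι` (noise and clock only there). `G` is the resolvent of the
whole network, `κ` the imaginary parts of the energies, `o` the frozen site which will be released.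
`a v` is the part of the current out of `o` which is absorbed at `v ≠ o`.
-/

set_option autoImplicit false

open scoped BigOperators Matrix

noncomputable section

namespace Pool.Agent.KIL

open Pool.Agent.LE.QF (HJ HM gG LL dC)

variable {ι X : Type} [Fintype ι] [DecidableEq ι] [Fintype X] [DecidableEq X]

/-- the jets in a kill run: `∂_c G = - G E_c G`, `LL G = G μ G` with `μ c = G(e c, e c) - m(e c)`, the
absorption `kp` falls with the speed `g` at the killed sites and is constant otherwise -/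
structure KJ (e : ι → X) (q : ℝ × (ι → ℝ)) (Gm : ℝ × (ι → ℝ) → Matrix X X ℂ) (kp : ℝ → X → ℝ)
    (G : Matrix X X ℂ) (κ g : X → ℝ) (μ : ι → ℂ) : Prop where
  inj : Function.Injective e
  hG : HM Gm q G (fun c => gG G (e c)) (fun a b => ∑ c, G a (e c) * μ c * G (e c) b)
  hs : ∀ a b, G a b = G b a
  hk : ∀ v, ContDiffAt ℝ 2 (fun t => kp t v) q.1 ∧ kp q.1 v = κ v
  hd : ∀ c, deriv (fun t => kp t (e c)) q.1 = -g (e c)
  hd0 : ∀ v, v ∉ Set.range e → deriv (fun t => kp t v) q.1 = 0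

/-- the current out of `o` absorbed at `v` -/
def nn (κ : X → ℝ) (G : Matrix X X ℂ) (o v : X) : ℝ := κ v * ‖G v o‖ ^ 2

/-- the current out of `o` -/
def gam (κ : X → ℝ) (G : Matrix X X ℂ) (o : X) : ℝ := ∑ v ∈ Finset.univ.erase o, nn κ G o v

/-- the part of the current out of `o` which is absorbed at `v` -/
def aa (κ : X → ℝ) (G : Matrix X X ℂ) (o v : X) : ℝ := nn κ G o v / gam κ G o

/-- minus the derivative of `nn v` divided by `gam` -/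
def xx (e : ι → X) (κ : X → ℝ) (G : Matrix X X ℂ) (o v : X) (c : ι) : ℝ :=
  2 * κ v * ((starRingEnd ℂ) (G v o) * (G v (e c) * G (e c) o)).re / gam κ G o

/-- minus the derivative of `log gam` -/
def dd (e : ι → X) (κ : X → ℝ) (G : Matrix X X ℂ) (o : X) (c : ι) : ℝ :=
  ∑ v ∈ Finset.univ.erase o, xx e κ G o v c

/-- the current emitted at `e c` and absorbed at `v` -/
def ee (e : ι → X) (κ : X → ℝ) (G : Matrix X X ℂ) (o v : X) (c : ι) : ℝ :=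
  κ v * ‖G v (e c) * G (e c) o‖ ^ 2 / gam κ G o

/-- the speed of the kill of `e c`, seen from `o` -/
def AA (e : ι → X) (κ g : X → ℝ) (G : Matrix X X ℂ) (o : X) (c : ι) : ℝ :=
  g (e c) * ‖G (e c) o‖ ^ 2 / gam κ G o

/-- the error of the gauge -/
def er (e : ι → X) (κ : X → ℝ) (G : Matrix X X ℂ) (μ : ι → ℂ) (o v : X) : ℝ :=
  2 * κ v * ((starRingEnd ℂ) (G v o) * ∑ c, G v (e c) * μ c * G (e c) o).re / gam κ G o

/-- the derivative of `aa` -/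
def da (e : ι → X) (κ : X → ℝ) (G : Matrix X X ℂ) (o v : X) (c : ι) : ℝ :=
  -xx e κ G o v c + aa κ G o v * dd e κ G o c

/-- `LL` of `aa` -/
def la (e : ι → X) (κ g : X → ℝ) (G : Matrix X X ℂ) (μ : ι → ℂ) (o v : X) : ℝ :=
  (∑ c, ee e κ G o v c) - (∑ c, if e c = v then AA e κ g G o c else 0) + er e κ G μ o v -
    aa κ G o v * ((∑ w ∈ Finset.univ.erase o, ((∑ c, ee e κ G o w c) + er e κ G μ o w)) -
      ∑ c, AA e κ g G o c) -
    (∑ c, xx e κ G o v c * dd e κ G o c) + aa κ G o v * ∑ c, dd e κ G o c ^ 2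

/-- a good point of a kill run -/
structure KGd (e : ι → X) (G : Matrix X X ℂ) (κ g : X → ℝ) (μ : ι → ℂ) (Rn : Finset X) (o : X)
    (κs g₀ δ Lc : ℝ) : Prop where
  hs : ∀ a b, G a b = G b a
  hw : ∀ a b, ∑ v, (κ v : ℂ) * (G a v * (starRingEnd ℂ) (G b v)) = ((G a b).im : ℂ)
  hκ : (∀ v, 0 ≤ κ v) ∧ ∀ v ∈ Rn, κ v ≤ κs
  hg : 0 < g₀ ∧ ∀ c, g₀ ≤ g (e c)
  hμ : ∀ c, ‖μ c‖ ≤ δ ∧ |(G (e c) (e c)).im - g (e c)| ≤ δ
  hL : ∀ c, ∑ v ∈ Rn, ‖G (e c) v‖ ^ 4 ≤ Lc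
  ho : ∀ c, κ o * ‖G (e c) o‖ ^ 2 ≤ δ
  hR : (∀ c, e c ∈ Rn) ∧ o ∉ Rn

/-- the properties of the cut off `θ`: zero below `t₀`, the identity above `t₁` -/
structure Cut (θ : ℝ → ℝ) (t₀ t₁ ε : ℝ) : Prop where
  sm : ContDiff ℝ 2 θ
  bd : ∀ a, 0 ≤ a → 0 ≤ θ a ∧ θ a ≤ a
  lo : ∀ a, a ≤ t₀ → θ a = 0 ∧ deriv θ a = 0 ∧ deriv (deriv θ) a = 0
  hi : ∀ a, t₁ ≤ a → θ a = a
  d1 : ∀ a, 0 ≤ a → |a * deriv θ a - θ a| ≤ ε * a
  d2 : ∀ a, 0 ≤ a → |a * deriv (deriv θ) a| ≤ ε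

/-- the cut off of the functionals (`Pool.Agent.LE.QF.H70.cu`) -/
def cu (x : ℝ) : ℝ := 1 - max (1 - x) 0 ^ 3

/-- the mass of the heavy sites -/
def ym (e : ι → X) (θ : ℝ → ℝ) (Rn : Finset X) (κ : X → ℝ) (G : Matrix X X ℂ) (o : X) : ℝ :=
  (∑ c, aa κ G o (e c)) + ∑ v ∈ Rn.filter (fun v => ∀ c, e c ≠ v), θ (aa κ G o v)

/-- the mass of the heavy sites after the run -/
def yn (e : ι → X) (θ : ℝ → ℝ) (Rn : Finset X) (κ : X → ℝ) (G : Matrix X X ℂ) (o : X) : ℝ :=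
  ∑ v ∈ Rn.filter (fun v => ∀ c, e c ≠ v), θ (aa κ G o v)

/-- the Lyapunov function of the run -/
def Ph (e : ι → X) (θ : ℝ → ℝ) (Rn : Finset X) (κ : X → ℝ) (G : Matrix X X ℂ) (o : X) : ℝ :=
  3 * ym e θ Rn κ G o - ym e θ Rn κ G o ^ 2 - (∑ c, aa κ G o (e c)) / 10

end Pool.Agent.KIL
end
end -- Pool.Agent.KIL.Defs

section -- Pool.Agent.KIL.Stmts

/-!
# The pre-kills of a site `o` (block KIL of AND2B): statements, with proofs
-/

set_option autoImplicit false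

open MeasureTheory ProbabilityTheory Function Filter

open scoped ENNReal BigOperators Topology NNReal Matrix

noncomputable section

namespace Pool.Agent.KIL

open Pool.Agent.LE.QF (HJ HM gG LL dC)

/-- UF3: the functional `u` of the flow with a second function `Φ`. Proof: `B ≥ 1 + 2 C₁`,
`F = (1 - cu u) Φ + B cu u`. If `u q ≥ 1`: the first and second derivatives of `cu` vanish at `u q`, and
`LL F = (1 - cu) LL Φ + … = 0`. If `x = u q < 1`: `LL F = (1 - x)³ LL Φ + (B - Φ) (3 (1 - x)² LL u -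
3 (1 - x) |∇u|²) - 3 (1 - x)² ∇u · ∇Φ`, and `3 (1 - x)² |∇u| |∇Φ| ≤ (1 - x)³ |∇Φ|² / C₁ +
(9/4) C₁ (1 - x) |∇u|²`, `(9/4) C₁ ≤ 3 (B - Φ)`. So `LL F ≤ b₁ + 3 B b`. `FlwStmt`
(`Helper2_LQF/FLW.lean`) for `F / B` with the function `a = 0`. The calculus of `cu` is in
`Helper70_LQF/UFL.lean` (the same function). -/
def Uf3Stmt : Prop :=
  ∀ (ι : Type) [Fintype ι] [DecidableEq ι] (T C₁ B : ℝ) (b b₁ : ℝ → ℝ)
    (u Φ ρ : ℝ × (ι → ℝ) → ℝ), 0 < T → 0 < C₁ → 1 + 2 * C₁ ≤ B → Continuous b → Continuous b₁ →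
    (∀ t, 0 ≤ b t ∧ 0 ≤ b₁ t) →
    (∀ q : ℝ × (ι → ℝ), 0 ≤ q.1 → q.1 ≤ T → 0 ≤ u q ∧ ContDiffAt ℝ 2 u q ∧ ContDiffAt ℝ 2 Φ q ∧
      0 ≤ Φ q ∧ Φ q ≤ 1 ∧ (u q < 1 → LL u q ≤ b q.1 ∧ LL Φ q ≤ -ρ q + b₁ q.1 ∧
        ∑ c, dC c Φ q ^ 2 ≤ C₁ * ρ q)) →
      ∫ V, ((1 - cu (u (T, V))) * Φ (T, V) + B * cu (u (T, V)))
          ∂(Measure.pi fun _ : ι => gaussianReal 0 T.toNNReal) ≤
        (1 - cu (u (0, 0))) * Φ (0, 0) + B * cu (u (0, 0)) + (∫ t in (0 : ℝ)..T, b₁ t) +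
          3 * B * ∫ t in (0 : ℝ)..T, b t

/-- KTH: the cut off. Proof: `S = Real.smoothTransition`, `Lg = log (t₁ / t₀)`,
`θ(a) = a S(log (a / t₀) / Lg)` for `a > 0`, `0` for `a ≤ 0` (zero near `(-∞, t₀)`, so it is smooth).
`a θ' - θ = a S' / Lg`, `a θ'' = S' / Lg + S'' / Lg²`, and `S', S''` are bounded (continuous, zero
outside of `[0, 1]`). -/
def KthStmt : Prop :=
  ∃ C : ℝ, 1 ≤ C ∧ ∀ t₀ t₁ : ℝ, 0 < t₀ → Real.exp 1 * t₀ ≤ t₁ →
    ∃ θ : ℝ → ℝ, Cut θ t₀ t₁ (C / Real.log (t₁ / t₀))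

/-- KAL: the algebra. `W` = the sites `≠ o`, `D` = the killed sites, `R` = the other running sites,
`H ⊇ D` = the heavy sites; `p v = θ(a v)`, `w v = θ'(a v)`, `z v = θ''(a v)` on `R`. Proof. `A = ∑ A c`,
`E² = ∑ d_c²`, `w v = 1`, `p v = a v` on `D`, all zero outside of `D ∪ R`; `Y = ∑ w v a v`, `|Y - y| ≤ ε`,
`y = ∑ p v ∈ [0, 1]`.
(1) `|x v c|² ≤ 4 a v e v c`, so `|∑_{v ∈ H} s v x v c|² ≤ 4 (∑ s v² a v) ∑_{v ∈ H} e v c ≤
4 (sup s)² ε² A c`.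
(2) `d c = ∑_v s v x v c + ∑_v (1 - s v) x v c` with `s v = p v / a v ∈ [0, 1]` (`s v = 1` on `D`), the
first is at most `2 ε A_c^{1/2}`, the second at most `(4 (1 - y) (1 + ε) A c)^{1/2}` (`∑ (1 - s v)² a v ≤
1 - y`). So `E² ≤ (4 (1 - y) + C ε) A`.
(3) `LL y = - A + ∑_v w v ∑_c e v c + ∑ w v er v - Y J - ∑_c (∑_v w v x v c) d c + Y E² +
(1/2) ∑_{v ∈ R} z v ∑_c da v c ²`, `J = ∑_v (∑_c e v c + er v) - A`, `|J| ≤ ε A + ∑ |er v|`. The second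
term is at most `(1 + ε) ε² A`, the fifth `C ε A`; `da v c² ≤ 8 a v e v c + 2 a v² d c²`, so the last is at
most `ε ∑_v ∑_c (4 e v c + a v d c²) ≤ C ε A`. So `LL y ≤ - A + y E² + C ε A + C ∑ |er v|`.
(4) `|∇ y|² = ∑_c (- ∑_v w v x v c + Y d c)² ≥ y² E² - C ε A`.
(5) `LL m ≥ - (1 + C ε) A - C ∑ |er v|`, `m = ∑_{v ∈ D} a v`.
(6) `LL Φ = (3 - 2 y) LL y - |∇ y|² - LL m / 10 ≤ - (3 - 2 y) A + 3 y (1 - y) E² + A / 10 + C ε A + … ≤
(- (3 - 2 y) + 12 y (1 - y)² + 1 / 10 + C ε) A + …`, and `3 - 2 y - 12 y (1 - y)² ≥ 2 / 5` on `[0, 1]`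
(minimum `0.463` at `y = 0.431`).
(7) `|∇ Φ|² ≤ C A`. -/
def KalStmt : Prop :=
  ∃ ε₀ C : ℝ, 0 < ε₀ ∧ 1 ≤ C ∧ ∀ (W ι : Type) [Fintype W] [Fintype ι] [DecidableEq W]
    (D R H : Finset W) (a p w z er s : W → ℝ) (x e : W → ι → ℝ) (A : ι → ℝ) (ε : ℝ),
    0 ≤ ε → ε ≤ ε₀ → Disjoint D R → D ⊆ H →
    (∀ v, 0 ≤ a v) → ∑ v, a v = 1 →
    (∀ v ∈ R, 0 ≤ p v ∧ p v ≤ a v ∧ |a v * w v - p v| ≤ ε * a v ∧ |a v * z v| ≤ ε ∧ |w v| ≤ 1 + ε ∧
      (v ∉ H → p v = 0 ∧ w v = 0 ∧ z v = 0)) →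
    (∀ c, 0 ≤ A c) → (∀ v c, 0 ≤ e v c ∧ x v c ^ 2 ≤ 4 * (a v * e v c)) →
    (∀ c, ∑ v ∈ H, e v c ≤ ε ^ 2 * A c) → (∀ c, |∑ v, e v c - A c| ≤ ε * A c) →
    (∀ v, 0 ≤ s v ∧ (v ∉ D → s v = 0)) → ∑ v, s v = ∑ c, A c →
    ∀ (d : ι → ℝ) (da : W → ι → ℝ) (la : W → ℝ) (y m ly lm : ℝ) (dy dm : ι → ℝ),
      (∀ c, d c = ∑ v, x v c) → (∀ v c, da v c = -x v c + a v * d c) →
      (∀ v, la v = (∑ c, e v c) - s v + er v - a v * ((∑ v', ((∑ c, e v' c) + er v')) - ∑ c, A c) -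
        (∑ c, x v c * d c) + a v * ∑ c, d c ^ 2) →
      m = ∑ v ∈ D, a v → y = m + ∑ v ∈ R, p v → (∀ c, dm c = ∑ v ∈ D, da v c) →
      (∀ c, dy c = dm c + ∑ v ∈ R, w v * da v c) → lm = ∑ v ∈ D, la v →
      ly = lm + ∑ v ∈ R, (w v * la v + z v / 2 * ∑ c, da v c ^ 2) →
        0 ≤ m ∧ m ≤ y ∧ y ≤ 1 ∧
        (3 - 2 * y) * ly - ∑ c, dy c ^ 2 - lm / 10 ≤ -(∑ c, A c) / 5 + C * ∑ v, |er v| ∧
        ∑ c, ((3 - 2 * y) * dy c - dm c / 10) ^ 2 ≤ C * ∑ c, A c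

/-- KJN: the jet of `aa`. Proof: `JalStmt` (`Helper77_LQF/JAL.lean`). `∂_c G v o = - G v (e c) G (e c) o`,
`LL (G v o) = ∑_c G v (e c) μ c G (e c) o`, so `∂_c nn v = - gam xx v c`,
`LL nn v = gam (∑_c ee v c + er v) + kp' v |G v o|²`, and the sum of `- kp' v |G v o|²` over `v ≠ o` is
`gam ∑_c AA c` (`e c ≠ o`, `e` is injective). The quotient: `LL (n / Γ) = LL n / Γ - n LL Γ / Γ² -
∇n · ∇Γ / Γ² + n |∇Γ|² / Γ³` (composition with `x ↦ 1 / x`). -/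
def KjnStmt : Prop :=
  ∀ (ι X : Type) [Fintype ι] [DecidableEq ι] [Fintype X] [DecidableEq X] (e : ι → X)
    (q : ℝ × (ι → ℝ)) (Gm : ℝ × (ι → ℝ) → Matrix X X ℂ) (kp : ℝ → X → ℝ) (G : Matrix X X ℂ)
    (κ g : X → ℝ) (μ : ι → ℂ) (o : X), KJ e q Gm kp G κ g μ → (∀ c, e c ≠ o) → 0 < gam κ G o →
    ∀ v, v ≠ o → HJ (fun r => aa (kp r.1) (Gm r) o v) q (aa κ G o v) (fun c => da e κ G o v c)
      (la e κ g G μ o v)

/-- KJA: the jet of the Lyapunov function. Proof: `KjnStmt`, `JalStmt` (composition with `θ`, sums,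
product). -/
def KjaStmt : Prop :=
  ∀ (ι X : Type) [Fintype ι] [DecidableEq ι] [Fintype X] [DecidableEq X] (e : ι → X)
    (q : ℝ × (ι → ℝ)) (Gm : ℝ × (ι → ℝ) → Matrix X X ℂ) (kp : ℝ → X → ℝ) (G : Matrix X X ℂ)
    (κ g : X → ℝ) (μ : ι → ℂ) (o : X) (Rn : Finset X) (θ : ℝ → ℝ), KJ e q Gm kp G κ g μ →
    (∀ c, e c ≠ o) → o ∉ Rn → 0 < gam κ G o → ContDiff ℝ 2 θ →
    ∀ (y m ly lm : ℝ) (dy dm : ι → ℝ), m = ∑ c, aa κ G o (e c) → y = ym e θ Rn κ G o →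
      (∀ c, dm c = ∑ c', da e κ G o (e c') c) →
      (∀ c, dy c = dm c + ∑ v ∈ Rn.filter (fun v => ∀ c, e c ≠ v),
        deriv θ (aa κ G o v) * da e κ G o v c) →
      lm = ∑ c, la e κ g G μ o (e c) →
      ly = lm + ∑ v ∈ Rn.filter (fun v => ∀ c, e c ≠ v), (deriv θ (aa κ G o v) * la e κ g G μ o v +
        deriv (deriv θ) (aa κ G o v) / 2 * ∑ c, da e κ G o v c ^ 2) →
        HJ (fun r => Ph e θ Rn (kp r.1) (Gm r) o) q (3 * y - y ^ 2 - m / 10)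
          (fun c => (3 - 2 * y) * dy c - dm c / 10)
          ((3 - 2 * y) * ly - ∑ c, dy c ^ 2 - lm / 10)

/-- KNB: bounds at a good point. Proof. (1) trivial. (2) Ward: `∑_v κ v |G v (e c)|² = Im G (e c) (e c)`,
and the term `v = o` is at most `δ`. (3) `∑_{v ∈ H} κ v |G v (e c)|² ≤ κs |H|^{1/2} (∑_v |G v (e c)|⁴)^{1/2}`.
(4) `β v = ∑_c G v (e c) μ c G (e c) o`, `∑_v |er v| ≤ 2 (∑ κ v |G v o|²)^{1/2} (∑ κ v |β v|²)^{1/2} / gam`,
`∑_v κ v |β v|² = ∑_{c, c'} u c conj (u c') Im G (e c) (e c')`, `u c = μ c G (e c) o` (Ward), at most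
`(∑_{c, c'} |G (e c) (e c')|²)^{1/2} ∑_c |u c|²`, `∑_c |u c|² ≤ δ² gam ∑_c AA c / g₀`,
`∑_{c'} |G (e c) (e c')|² ≤ (|ι| Lc)^{1/2}` (`e` is injective). -/
def KnbStmt : Prop :=
  ∀ (ι X : Type) [Fintype ι] [DecidableEq ι] [Fintype X] [DecidableEq X] (e : ι → X)
    (G : Matrix X X ℂ) (κ g : X → ℝ) (μ : ι → ℂ) (Rn : Finset X) (o : X) (κs g₀ δ Lc : ℝ),
    Function.Injective e → KGd e G κ g μ Rn o κs g₀ δ Lc → 0 < gam κ G o →
      (∀ v, 0 ≤ aa κ G o v) ∧ (∑ v ∈ Finset.univ.erase o, aa κ G o v = 1) ∧ (∀ c, 0 ≤ AA e κ g G o c) ∧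
      (∀ v c, 0 ≤ ee e κ G o v c ∧ xx e κ G o v c ^ 2 ≤ 4 * (aa κ G o v * ee e κ G o v c)) ∧
      (∀ c, |∑ v ∈ Finset.univ.erase o, ee e κ G o v c - AA e κ g G o c| ≤
        2 * δ / g₀ * AA e κ g G o c) ∧
      (∀ (H : Finset X) (N : ℝ), H ⊆ Rn → (H.card : ℝ) ≤ N → ∀ c,
        ∑ v ∈ H, ee e κ G o v c ≤ κs * Real.sqrt (N * Lc) / g₀ * AA e κ g G o c) ∧
      (∑ v ∈ Finset.univ.erase o, |er e κ G μ o v|) ^ 2 ≤
        4 * Real.sqrt ((Fintype.card ι : ℝ) * Real.sqrt ((Fintype.card ι : ℝ) * Lc)) * δ ^ 2 / g₀ *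
          ∑ c, AA e κ g G o c

/-- KR1: one round. `Φ = m exp (lam (Ph - 2) + β (T - t))`, `lam` small. Proof: `KjaStmt`, `KnbStmt`,
`KalStmt` with `W = {v // v ≠ o}`, `D = {e c}`, `R = Rn` without `D`, `H = D ∪ {v ∈ Rn : aa v > t₀}` (at
most `2 / t₀` points, because `∑ aa v = 1`). By (4) of `KnbStmt` `C ∑ |er| ≤ A / 10 + C' δ² R / g₀`, so
`LL Ph ≤ - A / 10 + C' δ² R / g₀` and `|∇ Ph|² ≤ C A`, so
`LL Φ = Φ (lam LL Ph + (lam² / 2) |∇ Ph|² - β) ≤ - lam Φ A / 20` with `β = lam C' δ² R / g₀`, and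
`|∇ Φ|² ≤ lam² Φ² C A ≤ C₁ (lam Φ A / 20)`. `Uf3Stmt`. At the end `yn ≤ y`, and
`3 y - y² - m / 10 ≥ 3 yn - yn²` (`y = yn + m`, `m ≥ 0`, `y ≤ 1`). -/
def Kr1Body (ε₀ lam C B : ℝ) : Prop :=
    ∀ (ι X : Type) [Fintype ι] [DecidableEq ι] [Fintype X]
    [DecidableEq X] (e : ι → X) (Gm : ℝ × (ι → ℝ) → Matrix X X ℂ) (kp : ℝ → X → ℝ) (g : X → ℝ)
    (μ : ℝ × (ι → ℝ) → ι → ℂ) (Rn : Finset X) (o : X) (T κs g₀ δ Lc t₀ t₁ ε β m : ℝ) (θ : ℝ → ℝ)
    (u : ℝ × (ι → ℝ) → ℝ) (b : ℝ → ℝ), 0 < T → 0 < t₀ → t₀ ≤ t₁ → t₁ ≤ 1 → 0 ≤ ε → ε ≤ ε₀ →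
    Cut θ t₀ t₁ ε → Continuous b → (∀ t, 0 ≤ b t) →
    (Fintype.card ι : ℝ) ≤ 1 / t₀ → 2 * δ / g₀ ≤ ε → κs * Real.sqrt (2 / t₀ * Lc) / g₀ ≤ ε ^ 2 →
    β = C * δ ^ 2 * Real.sqrt (1 / t₀ * Real.sqrt (1 / t₀ * Lc)) / g₀ →
    0 ≤ m → m * Real.exp (β * T) ≤ 1 →
    (∀ q : ℝ × (ι → ℝ), 0 ≤ q.1 → q.1 ≤ T → KJ e q Gm kp (Gm q) (kp q.1) g (μ q) ∧
      (∀ v, 0 ≤ kp q.1 v) ∧ 0 < gam (kp q.1) (Gm q) o ∧ 0 ≤ u q ∧ ContDiffAt ℝ 2 u q ∧
        (u q < 1 → LL u q ≤ b q.1 ∧ KGd e (Gm q) (kp q.1) g (μ q) Rn o κs g₀ δ Lc)) →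
    (∀ c, e c ∈ Rn) → o ∉ Rn →
      ∫ V, ((1 - cu (u (T, V))) * (m * Real.exp (lam * (3 * yn e θ Rn (kp T) (Gm (T, V)) o -
          yn e θ Rn (kp T) (Gm (T, V)) o ^ 2 - 2))) + B * cu (u (T, V)))
          ∂(Measure.pi fun _ : ι => gaussianReal 0 T.toNNReal) ≤
        (1 - cu (u (0, 0))) * (m * Real.exp (β * T + lam * (Ph e θ Rn (kp 0) (Gm (0, 0)) o - 2))) +
          B * cu (u (0, 0)) + 3 * B * ∫ t in (0 : ℝ)..T, b t

/-- KR1, see `Kr1Body` -/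
def Kr1Stmt : Prop :=
  ∃ ε₀ lam C B : ℝ, 0 < ε₀ ∧ 0 < lam ∧ lam ≤ 1 ∧ 1 ≤ C ∧ 1 ≤ B ∧ Kr1Body ε₀ lam C B

/-- the functional of the last round -/
def uL {ι X : Type} [Fintype ι] [Fintype X] [DecidableEq X] (e : ι → X) (B : Finset X)
    (lam ρ t₁ : ℝ) (j : ℕ) (κ : X → ℝ) (G : Matrix X X ℂ) (o : X) : ℝ :=
  Real.exp (lam * ((∑ c, aa κ G o (e c)) - 2 * ρ)) +
    Real.exp (lam * ∑ c, aa κ G o (e c)) * ∑ v ∈ B, ((aa κ G o v + t₁ / 2) / (5 * t₁ / 2)) ^ j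

/-- KLJ: the last round, where the mass `m` of the killed sites is at most `2 ρ`. Proof: `KjnStmt`,
`KnbStmt`, `JalStmt`. `A = ∑ AA c`, `R = (|ι| (|ι| Lc)^{1/2})^{1/2}`, `J = ∑_{v ≠ o} (∑ ee v c + er v) - A`,
`|er| = ∑_{v ≠ o} |er v| ≤ 2 (R δ² A / g₀)^{1/2}`, `|J| ≤ ε A + |er|`.
(1) `∑_{v ∈ D} ee v c ≤ ε² AA c`, so `|∑_{v ∈ D} xx v c|² ≤ 4 m ε² AA c`; `dd c² ≤ 4 (1 + ε) AA c`. So
`LL m ≤ - A (1 - ε² - m ε - 8 m^{1/2} ε - 8 m) + 2 |er| ≤ - (3/4) A + A / 16 + 64 R δ² / g₀`,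
`|∇ m|² ≤ (8 m ε² + 10 m²) A ≤ 4 ρ (4 ε² + 16 ρ) A`, and `(lam / 2) |∇ m|² ≤ A / 16`.
(2) `v ∈ B`, `b = aa v + t₁ / 2`, `H₁ = 2 h / t₁ + 1`: `ee v c ≤ h AA c`, `h ≤ H₁ b`, `aa v ≤ b`. So
`|LL aa v| ≤ 12 H₁ b A + |er v| + b |er|`, `|∇ aa v|² ≤ 18 H₁ b² A`,
`|er v| ≤ 2 δ ∑_c (aa v ee v c)^{1/2} ≤ 2 δ (b |ι| h A)^{1/2}`.
(3) `LL (b^j e^{lam m}) / (b^j e^{lam m}) = j LL aa v / b + (j (j - 1) / 2) |∇ aa v|² / b² + lam LL m +
(lam² / 2) |∇ m|² + j lam ∇ aa v · ∇ m / b ≤ A (30 j² H₁ - (7/16) lam) + (16 j / ρ + 64 j ρ) R δ² / g₀ +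
128 j ρ δ² |ι| h / t₁` (Young for the errors: `j |er| ≤ lam A / 16 + 64 j ρ R δ² / g₀`,
`j |er v| / b ≤ lam A / 16 + 128 j ρ δ² |ι| h / t₁`), and `30 j² H₁ ≤ (7 / 16) lam`. For
`exp (lam (m - 2 ρ))` use (1). -/
def KljStmt : Prop :=
  ∀ (ι X : Type) [Fintype ι] [DecidableEq ι] [Fintype X] [DecidableEq X] (e : ι → X)
    (q : ℝ × (ι → ℝ)) (Gm : ℝ × (ι → ℝ) → Matrix X X ℂ) (kp : ℝ → X → ℝ) (G : Matrix X X ℂ)
    (κ g : X → ℝ) (μ : ι → ℂ) (o : X) (Rn B : Finset X) (κs g₀ δ Lc kI t₁ ρ ε h lam : ℝ) (j : ℕ),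
    KJ e q Gm kp G κ g μ → KGd e G κ g μ Rn o κs g₀ δ Lc → 0 < gam κ G o → B ⊆ Rn →
    (∀ c, e c ∉ B) → (∀ v ∈ B, ∀ c, ‖G v (e c)‖ ^ 2 ≤ kI) → 0 ≤ kI → 1 ≤ j → 0 < t₁ →
    t₁ ≤ 1 → 0 < ρ →
    0 ≤ ε → ε ≤ 1 / 16 → 2 * δ / g₀ ≤ ε → κs * Real.sqrt (Fintype.card ι * Lc) / g₀ ≤ ε ^ 2 →
    h = κs * kI / g₀ → lam = j / (4 * ρ) → j * (4 * ε ^ 2 + 16 * ρ) ≤ 1 / 8 →
    300 * j * (2 * h / t₁ + 1) * ρ ≤ 1 → ∑ c, aa κ G o (e c) ≤ 2 * ρ →
      ∃ (g' : ι → ℝ) (l' : ℝ), HJ (fun r => uL e B lam ρ t₁ j (kp r.1) (Gm r) o) q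
        (uL e B lam ρ t₁ j κ G o) g' l' ∧
        l' ≤ (20 * j * δ ^ 2 * Real.sqrt (Fintype.card ι * Real.sqrt (Fintype.card ι * Lc)) /
          (ρ * g₀) + 128 * j * ρ * δ ^ 2 * Fintype.card ι * h / t₁) * uL e B lam ρ t₁ j κ G o

/-- KLR: the last round. Proof: `KljStmt`: `LL uL ≤ bL uL` where `m ≤ 2 ρ`, so for
`v = e^{bL (T - t)} uL` one has `LL v ≤ 0` there; where `u + v < 1` one has `uL < 1`, so `m ≤ 2 ρ`.
`Uf3Stmt` for `u + v` with `Φ = 0`, `ρ = 0`, `C₁ = 1`, `B = 3`; `cu (x + y) ≤ cu x + 3 y`;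
`uL (0, 0) ≤ e^{- j / 4} + |B| (e^{1/4} 3 / 5)^j ≤ (1 + |B|) e^{- j / 5}`. -/
def KlrStmt : Prop :=
  ∀ (ι X : Type) [Fintype ι] [DecidableEq ι] [Fintype X] [DecidableEq X] (e : ι → X)
    (Gm : ℝ × (ι → ℝ) → Matrix X X ℂ) (kp : ℝ → X → ℝ) (g : X → ℝ)
    (μ : ℝ × (ι → ℝ) → ι → ℂ) (Rn B : Finset X) (o : X)
    (T κs g₀ δ Lc kI t₁ ρ ε h bL lam : ℝ) (j : ℕ)
    (u : ℝ × (ι → ℝ) → ℝ) (b : ℝ → ℝ), 0 < T → B ⊆ Rn → (∀ c, e c ∉ B) → (∀ c, e c ∈ Rn) →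
    o ∉ Rn → 0 ≤ kI → 1 ≤ j → 0 < t₁ → t₁ ≤ 1 → 0 < ρ → 0 ≤ ε → ε ≤ 1 / 16 → 2 * δ / g₀ ≤ ε →
    κs * Real.sqrt (Fintype.card ι * Lc) / g₀ ≤ ε ^ 2 → h = κs * kI / g₀ → lam = j / (4 * ρ) →
    j * (4 * ε ^ 2 + 16 * ρ) ≤ 1 / 8 → 300 * j * (2 * h / t₁ + 1) * ρ ≤ 1 → 0 ≤ bL →
    20 * j * δ ^ 2 * Real.sqrt (Fintype.card ι * Real.sqrt (Fintype.card ι * Lc)) /
          (ρ * g₀) + 128 * j * ρ * δ ^ 2 * Fintype.card ι * h / t₁ ≤ bL →
    Continuous b → (∀ t, 0 ≤ b t) →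
    (∀ q : ℝ × (ι → ℝ), 0 ≤ q.1 → q.1 ≤ T → KJ e q Gm kp (Gm q) (kp q.1) g (μ q) ∧
      (∀ v, 0 ≤ kp q.1 v) ∧ 0 < gam (kp q.1) (Gm q) o ∧ 0 ≤ u q ∧ ContDiffAt ℝ 2 u q ∧
        (u q < 1 → LL u q ≤ b q.1 ∧ KGd e (Gm q) (kp q.1) g (μ q) Rn o κs g₀ δ Lc ∧
          (∀ v ∈ B, ∀ c, ‖Gm q v (e c)‖ ^ 2 ≤ kI))) →
    ∑ c, aa (kp 0) (Gm (0, 0)) o (e c) ≤ ρ → (∀ v ∈ B, aa (kp 0) (Gm (0, 0)) o v ≤ t₁) →
      ∫ V, cu (u (T, V) + uL e B lam ρ t₁ j (kp T) (Gm (T, V)) o)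
          ∂(Measure.pi fun _ : ι => gaussianReal 0 T.toNNReal) ≤
        cu (u (0, 0)) + 3 * Real.exp (T * bL) * ((1 + B.card) * Real.exp (-(j : ℝ) / 5)) +
          3 * ∫ t in (0 : ℝ)..T, b t

/-- RCT: relative Combes-Thomas estimate for the current out of `o`, without any lower bound for this
current. `ω` is a distance from `o` which is constant along the edges with a dead end point (`κ < s`) and
along the edges at `o`. Proof: `φ = e^{α ω}`, `ψ = (φ - 1) u`: `ψ o = 0` and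
`(H ψ) x + (V x - i κ x) ψ x = ∑_y H x y (φ y - φ x) u y` for `x ≠ o`. Multiply by `conj ψ x`, sum, take
the imaginary part: `P = ∑ κ |ψ|² ≤ ∑_{x, y} |H x y| |ψ x| |φ y - φ x| |u y|`, only the pairs with
`κ x, κ y ≥ s`, `x, y ≠ o` occur, `|φ y - φ x| ≤ 2 α φ y`, `φ y |u y| ≤ |ψ y| + |u y|`; by the Schur test
`P ≤ (2 α k / s) (P + (P Γ)^{1/2})`, `Γ = ∑_{v ≠ o} κ v |u v|²`, and `2 α k / s ≤ 1 / 8`. -/
def RctStmt : Prop :=
  ∀ (X : Type) [Fintype X] [DecidableEq X] (Hm : Matrix X X ℝ) (V κ : X → ℝ) (o : X) (u : X → ℂ)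
    (ω : X → ℝ) (s α k : ℝ), (∀ x y, Hm x y = Hm y x) → (∀ x, ∑ y, |Hm x y| ≤ k) → 0 < s →
    (∀ x, 0 ≤ κ x) →
    (∀ x, x ≠ o → (∑ y, (Hm x y : ℂ) * u y) + ((V x : ℂ) - Complex.I * κ x) * u x = 0) →
    ω o = 0 → (∀ x, 0 ≤ ω x) →
    (∀ x y, Hm x y ≠ 0 → |ω x - ω y| ≤ 1 ∧ (κ x < s ∨ κ y < s ∨ x = o ∨ y = o → ω x = ω y)) →
    0 < α → α ≤ 1 → 16 * k * α ≤ s →
      ∑ v ∈ Finset.univ.erase o, κ v * ((Real.exp (α * ω v) - 1) ^ 2 * ‖u v‖ ^ 2) ≤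
        ∑ v ∈ Finset.univ.erase o, κ v * ‖u v‖ ^ 2

end Pool.Agent.KIL
end
end -- Pool.Agent.KIL.Stmts

section -- Pool.Agent.ATT.Defs

/-!
# Attempts (KIL + REL): definitions

All quantities refer to the START OF THE WHOLE ATTEMPT: `Go` is the reference matrix, `Δ = G - Go`.
Exponentials with a budget which is spent in the kill runs: no drift at all.
-/

set_option autoImplicit false

open MeasureTheory ProbabilityTheory Function Filter

open scoped ENNReal BigOperators Topology NNReal Matrix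

noncomputable section

namespace Pool.Agent.ATT

open Pool.Agent.LE.QF (HJ HM gG LL dC)
open Pool.Agent.KIL (KJ KGd gam aa yn ym cu)
open Pool.Agent.ANP (Cfg)

/-- the exponential of an entry: below 1 it gives `|re z|, |im z| ≤ - B / l` -/
def pe (l B : ℝ) (z : ℂ) : ℝ := 2 * Real.exp B * (Real.cosh (l * z.re) + Real.cosh (l * z.im))

/-! ### one kill run -/

section run

variable {X : Type} [Fintype X] [DecidableEq X]

/-- `∑_(y ∈ S) κ_y |G_xy - Go_xy|²` -/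
def mx (κ : X → ℝ) (S : Finset X) (G Go : Matrix X X ℂ) (x : X) : ℝ :=
  ∑ y ∈ S, κ y * ‖G x y - Go x y‖ ^ 2

/-- `∑_(x, y ∈ S) κ_x κ_y |G_xy - Go_xy|²` -/
def MM (κ : X → ℝ) (S : Finset X) (G Go : Matrix X X ℂ) : ℝ := ∑ x ∈ S, κ x * mx κ S G Go x

/-- the parameters of a kill run: `A₁` the sites whose entries are watched, `A₂ ⊆ A₁` the running ones,
`A₃ ⊆ A₂` those which are not killed; `l, ε` the size of the entries, `p x c` bounds `|G_xc|`, `B` the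
budget at the time `0`, `ρ` the rate at which it is spent; `lm, εm, Bm, ρm` the same for `mx` and
`lM, εM, BM, ρM` for `MM` -/
structure Rn (X : Type) where
  A₁ : Finset X
  A₂ : Finset X
  A₃ : Finset X
  l : X → ℝ
  ε : X → ℝ
  p : X → X → ℝ
  B : X → X → ℝ
  ρ : X → X → ℝ
  lm : ℝ
  εm : ℝ
  Bm : X → ℝ
  ρm : X → ℝ
  lM : ℝ
  εM : ℝ
  BM : ℝ
  ρM : ℝ

/-- the functional at the time `t` -/
def Rn.U (W : Rn X) (κ : X → ℝ) (Go : Matrix X X ℂ) (t : ℝ) (G : Matrix X X ℂ) : ℝ :=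
  (∑ x ∈ W.A₁, ∑ y ∈ W.A₂, pe (W.l x) (W.B x y - W.ρ x y * t - W.l x * W.ε x) (G x y - Go x y)) +
    ∑ x ∈ W.A₂, Real.exp (W.Bm x - W.ρm x * t + W.lm * (mx κ W.A₃ G Go x - W.εm)) +
    Real.exp (W.BM - W.ρM * t + W.lM * (MM κ W.A₃ G Go - W.εM))

/-- the cost of the kill of `c` for a pair, `p, p'` bound `|G_xc|`, `|G_yc|` -/
def cs (l δ p p' : ℝ) : ℝ := l * δ * (p * p') + l ^ 2 / 2 * (p * p') ^ 2

/-- the cost of the kill of `c` for `mx x`; `gb` bounds `im G_cc` -/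
def cm (lm εm δ gb p : ℝ) : ℝ :=
  lm * (2 * δ * p * Real.sqrt (εm * gb) + p ^ 2 * gb) + 2 * lm ^ 2 * (p ^ 2 * (εm * gb))

/-- the cost of a kill for `MM`; `gb` bounds `im G_cc` -/
def cM (lM εM δ gb : ℝ) : ℝ :=
  lM * (2 * δ * gb * Real.sqrt εM + gb ^ 2) + 2 * lM ^ 2 * (gb ^ 2 * εM)

end run

/-! ### the networks of the configurations -/

section net

variable {X : Type} [Fintype X] [DecidableEq X]

/-- the real part of the network; `Hm` = hopping minus the energy -/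
def hN (Hm : Matrix X X ℝ) (T : Cfg X) : Matrix X X ℝ :=
  fun x y => Hm x y + if x = y then T.V x - (T.s x : ℝ) * (T.mb x).re else 0

/-- the absorption: `e0` at the dead sites -/
def ka (η e0 : ℝ) (T : Cfg X) (x : X) : ℝ := if T.s x = 0 then e0 else η + (T.s x : ℝ) * (T.mb x).im

/-- the Green function of a configuration -/
def GT (Hm : Matrix X X ℝ) (η e0 : ℝ) (T : Cfg X) : Matrix X X ℂ := ANR.Gr (hN Hm T) (ka η e0 T)

/-- the gauge of a kill run: the absorption goes from `η + v im mb` to `e0` -/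
def mg (η e0 : ℝ) (v : ℝ≥0) (T : Cfg X) (x : X) : ℂ := T.mb x + Complex.I * (((η - e0) / v : ℝ) : ℂ)

/-- the absorption during a kill run of `D` -/
def kr (η e0 : ℝ) (v : ℝ≥0) (T : Cfg X) (D : Finset X) (t : ℝ) (x : X) : ℝ :=
  if x ∈ D then ka η e0 T x - t * (mg η e0 v T x).im else ka η e0 T x

/-- the Green function during a kill run of `D` -/
def Gk (Hm : Matrix X X ℝ) (η e0 : ℝ) (v : ℝ≥0) (T : Cfg X) (D : Finset X) (r : ℝ × (D → ℝ)) :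
    Matrix X X ℂ :=
  ANR.Gr (fun x y => hN Hm T x y +
    if h : x ∈ D then (if x = y then r.2 ⟨x, h⟩ + r.1 * (T.mb x).re else 0) else 0)
    (kr η e0 v T D r.1)

end net

/-! ### the state of an attempt -/

/-- the constants of an attempt: the configuration at the start, the running sites `R` near the cluster
`Q` (monitored), those very near (`Rk`, only they are killed), their clock, the potential on `Q`,
numbers -/
structure Pa (X : Type) where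
  Hm : Matrix X X ℝ
  η : ℝ
  e0 : ℝ
  T₀ : Cfg X
  R : Finset X
  Rk : Finset X
  Q : Finset X
  v : ℝ≥0
  val : X → ℝ
  /-- bounds the fluctuations of the diagonal -/
  δ : ℝ
  /-- bounds `im G_cc` -/
  gb : ℝ
  /-- the threshold for heavy sites -/
  t₁ : ℝ
  /-- the intensity at light sites, per flux -/
  dT : ℝ
  l : X → ℝ
  ε : X → ℝ
  /-- bounds the change of the entries -/
  J : X → ℝ
  lm : ℝ
  εm : ℝ
  lM : ℝ
  εM : ℝ
  /-- the maximal number of kills -/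
  N : ℕ

namespace Pa

variable {X : Type} [Fintype X] [DecidableEq X] (A : Pa X)

/-- the Green function -/
def G (T : Cfg X) : Matrix X X ℂ := GT A.Hm A.η A.e0 T

/-- the absorption -/
def k (T : Cfg X) : X → ℝ := ka A.η A.e0 T

/-- the running sites near `Q` -/
def al (T : Cfg X) : Finset X := {x ∈ A.R | T.s x ≠ 0}

/-- the killed sites -/
def kd (T : Cfg X) : Finset X := {x ∈ A.R | T.s x = 0}

/-- the bound of `|G_xc|` -/
def p (x c : X) : ℝ := ‖A.G A.T₀ x c‖ + A.J x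

/-- the budget of a pair which is left -/
def bud (T : Cfg X) (x y : X) : ℝ :=
  1 - A.v * ∑ c ∈ A.kd T, cs (A.l x) A.δ (A.p x c) (A.p y c)

/-- the budget for `mx` which is left -/
def bum (T : Cfg X) (x : X) : ℝ := 1 - A.v * ∑ c ∈ A.kd T, cm A.lm A.εm A.δ A.gb (A.p x c)

/-- the budget for `MM` which is left -/
def buM (T : Cfg X) : ℝ := 1 - A.v * ((A.kd T).card * cM A.lM A.εM A.δ A.gb)

/-- the functional; `Qr` = the sites of `Q` which are not revealed yet -/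
def U (T : Cfg X) (Qr : Finset X) (Go : Matrix X X ℂ) : ℝ :=
  (∑ x ∈ A.al T ∪ Qr, ∑ y ∈ A.al T,
    pe (A.l x) (A.bud T x y - A.l x * A.ε x) (A.G T x y - Go x y)) +
    ∑ x ∈ A.al T, Real.exp (A.bum T x + A.lm * (mx (A.k T) (A.al T) (A.G T) Go x - A.εm)) +
    Real.exp (A.buM T + A.lM * (MM (A.k T) (A.al T) (A.G T) Go - A.εM))

/-- the part of the current out of `b` which is absorbed at `x` -/
def a (T : Cfg X) (b x : X) : ℝ := aa (A.k T) (A.G T) b x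

/-- the mass of the heavy sites -/
def y (θ : ℝ → ℝ) (T : Cfg X) (b : X) : ℝ := ∑ x ∈ A.al T, θ (A.a T b x)

/-- the state of the attempt after the reveal of `Q \ Qr` -/
structure St (T : Cfg X) (Qr : Finset X) (Go : Matrix X X ℂ) : Prop where
  mb : T.mb = A.T₀.mb
  off : ∀ x, x ∉ A.R → x ∉ A.Q → T.V x = A.T₀.V x ∧ T.s x = A.T₀.s x
  run : ∀ x ∈ A.R, T.s x = 0 ∨ T.V x = A.T₀.V x ∧ T.s x = A.v
  sub : Qr ⊆ A.Q
  rem : ∀ b ∈ Qr, T.V b = A.T₀.V b ∧ T.s b = A.T₀.s b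
  app : ∀ b ∈ A.Q, b ∉ Qr → T.V b = A.val b ∧ T.s b = 0
  num : (A.kd T).card ≤ A.N
  near : A.kd T ⊆ A.Rk
  go : ∀ x ∈ A.al T ∪ Qr, ∀ y ∈ A.al T,
    ‖Go x y - A.G A.T₀ x y‖ ≤ (A.Q \ Qr).card * (2 * Real.sqrt (A.dT * if x ∈ Qr then (A.k A.T₀ x)⁻¹ else A.dT))
  gm : ∀ x ∈ A.al T, Real.sqrt (mx (A.k T) (A.al T) Go (A.G A.T₀) x) ≤
    (A.Q \ Qr).card * (2 * Real.sqrt A.dT)
  gM : Real.sqrt (MM (A.k T) (A.al T) Go (A.G A.T₀)) ≤ (A.Q \ Qr).card * 2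

/-- the parameters of the kill run of `D` -/
def W (T : Cfg X) (D Qr : Finset X) : Rn X where
  A₁ := A.al T ∪ Qr
  A₂ := A.al T
  A₃ := A.al T \ D
  l := A.l
  ε := A.ε
  p := A.p
  B := A.bud T
  ρ := fun x y => ∑ c ∈ D, cs (A.l x) A.δ (A.p x c) (A.p y c)
  lm := A.lm
  εm := A.εm
  Bm := A.bum T
  ρm := fun x => ∑ c ∈ D, cm A.lm A.εm A.δ A.gb (A.p x c)
  lM := A.lM
  εM := A.εM
  BM := A.buM T
  ρM := D.card * cM A.lM A.εM A.δ A.gb

/-- the functional at the end of the kill run of `D` -/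
def Ue (T : Cfg X) (D Qr : Finset X) (Go : Matrix X X ℂ) (ζ : X → ℝ) : ℝ :=
  (A.W T D Qr).U (A.k (T.kl D ζ)) Go A.v (A.G (T.kl D ζ))

/-- the hypotheses of an attempt, in numbers. `κs` bounds the absorption of the running sites, `Λ` the
fourth powers at the start, `Lc` during the attempt, `hK` bounds `κ_b |G_bx|²` outside of the first
kills, `kI` the entries -/
structure Hyp (κs g₀ Λ Lc hK kI : ℝ) : Prop where
  sym : ∀ x y, A.Hm x y = A.Hm y x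
  pos : 0 < A.e0 ∧ A.e0 ≤ A.η ∧ 0 < A.v ∧ 0 < g₀ ∧ 0 < A.t₁ ∧ 0 ≤ A.dT ∧ 0 ≤ A.δ ∧
    0 ≤ A.gb ∧ 0 < A.lm ∧ 0 < A.εm ∧ 0 ≤ hK ∧ 0 < A.lM ∧ 0 < A.εM
  pimb : ∀ x, 0 < A.T₀.s x → 0 < (A.T₀.mb x).im
  dis : Disjoint A.R A.Q
  hRk : A.Rk ⊆ A.R
  /-- the sites of `R` off `Rk` are light (exponential decay) -/
  far : ∀ (T : Cfg X) (Qr : Finset X) (Go : Matrix X X ℂ), A.St T Qr Go → ∀ b ∈ Qr,
    ∀ x ∈ A.al T, x ∉ A.Rk → A.a T b x < A.t₁
  far₀ : ∀ b ∈ A.Q, ∀ x ∈ A.R, x ∉ A.Rk → A.k A.T₀ b * ‖A.G A.T₀ b x‖ ^ 2 ≤ hK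
  hR : ∀ x ∈ A.R, A.T₀.s x = A.v ∧ g₀ ≤ (A.T₀.mb x).im ∧ A.k A.T₀ x ≤ κs
  hQ : ∀ b ∈ A.Q, A.T₀.s b ≠ 0
  le : ∀ x ∈ A.R ∪ A.Q, 0 < A.l x ∧ 0 ≤ A.ε x ∧ 0 ≤ A.J x
  /-- the fluctuations -/
  dia : ∀ c ∈ A.R, ‖A.G A.T₀ c c - mg A.η A.e0 A.v A.T₀ c‖ + A.J c ≤ A.δ ∧
    ‖A.G A.T₀ c c‖ + A.J c ≤ A.gb
  /-- the change of the entries -/
  jj : ∀ x ∈ A.R ∪ A.Q, (A.Q.card : ℝ) * (2 * Real.sqrt (A.dT *
    if x ∈ A.Q then (A.k A.T₀ x)⁻¹ else A.dT)) + 2 * A.ε x ≤ A.J x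
  dt : 2 * A.t₁ ≤ A.dT * (A.v * g₀)
  /-- the budgets suffice for `N` kills -/
  bu : ∀ S : Finset X, S ⊆ A.R → S.card ≤ A.N →
    (∀ x ∈ A.R ∪ A.Q, ∀ y ∈ A.R, A.v * ∑ c ∈ S, cs (A.l x) A.δ (A.p x c) (A.p y c) ≤ 1) ∧
    ∀ x ∈ A.R, A.v * ∑ c ∈ S, cm A.lm A.εm A.δ A.gb (A.p x c) ≤ 1
  buM : A.v * (A.N * cM A.lM A.εM A.δ A.gb) ≤ 1
  lam : ∀ x ∈ A.R, ∑ y ∈ A.R, ‖A.G A.T₀ x y‖ ^ 4 ≤ Λ
  lc : ∀ x ∈ A.R, 16 * Λ + 8 * (A.N * A.J x ^ 4) + 8 * (A.J x ^ 2 *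
    (Real.sqrt A.εm + A.Q.card * (2 * Real.sqrt A.dT)) ^ 2 / (A.v * g₀)) ≤ Lc
  ent : ∀ x ∈ A.R, ∀ y ∈ A.R, (‖A.G A.T₀ x y‖ + A.J x) ^ 2 ≤ kI
  cut : ∀ b ∈ A.Q, (Real.sqrt hK + Real.sqrt (A.k A.T₀ b) * A.J b) ^ 2 ≤ A.δ

end Pa

end Pool.Agent.ATT
end
end -- Pool.Agent.ATT.Defs

section -- Pool.Agent.ATT.Stmts

/-!
# Attempts (KIL + REL): statements

PLAN. In an attempt the sites of `Q` are revealed one after the other; before `b` is revealed the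
running sites of `R` which absorb too much of the current out of `b` are killed, in rounds (block KIL,
helper38). This file controls everything else, CUMULATIVELY (the number of rounds is not small, so
bounds per round do not suffice): the functional `U` (sums of exponentials of the entries of `G - Go`
and of `mx`, with a budget) is a supermartingale without any drift in the kill runs (`UjtStmt`,
`StkStmt`), and does not change at a reveal, because the reference matrix `Go` jumps with `G`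
(`RvsStmt`). `U < 1` gives the good points which KIL needs (`GokStmt`). The number of kills in the phase of one
site `b` is bounded in block KIL (`PhsAt`). Result: `AtaStmt`, `OutStmt`.
-/

set_option autoImplicit false

open MeasureTheory ProbabilityTheory Function Filter

open scoped ENNReal BigOperators Topology NNReal Matrix

noncomputable section

namespace Pool.Agent.ATT

open Pool.Agent.LE.QF (HJ HM gG LL dC)
open Pool.Agent.KIL (KJ KGd Cut gam aa yn ym cu)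
open Pool.Agent.ANP (Cfg gm Att)

/-! ### A. One kill run -/

/-- PEB: bounds from `pe`. Proof: `2 cosh (l x) ≥ exp (l |x|)`, so `pe < 1` gives
`B - l ε + l |re z| < 0`, the same for `im z`, and `‖z‖ ≤ |re z| + |im z|`. -/
def PebStmt : Prop :=
  ∀ (l B ε : ℝ) (z : ℂ), 0 < l → 0 ≤ pe l B z ∧ (0 ≤ B → pe l (B - l * ε) z < 1 → ‖z‖ ≤ 2 * ε)

/-- CUP: the cut off. Proof: calculus (`Helper70_LQF/UFL.lean`); `1 - (1 - u)³ ≥ u` on `[0, 1]`. -/
def CupStmt : Prop :=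
  ContDiff ℝ 2 cu ∧ Monotone cu ∧ (∀ u, 0 ≤ u → 0 ≤ cu u ∧ cu u ≤ 1 ∧ cu u ≤ 3 * u) ∧
    (∀ u, 1 ≤ u → cu u = 1) ∧ ∀ u, 0 ≤ u → u < 1 → u ≤ cu u

/-- PEJ: the jet of `pe`. Proof: `JalStmt` (`Helper77_LQF/JAL.lean`): for `f = cosh (l w)`, `w` the real or
the imaginary part of `F - z₀`: `LL f = l sinh (l w) LL w + (l² / 2) cosh (l w) |∇ w|²`, `|sinh| ≤ cosh`; the
factor `exp (B - ρ t)` gives `- ρ`. -/
def PejStmt : Prop :=
  ∀ (ι : Type) [Fintype ι] [DecidableEq ι] (q : ℝ × (ι → ℝ)) (F : ℝ × (ι → ℝ) → ℂ) (z z₀ lz : ℂ)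
    (g : ι → ℂ) (l B ρ : ℝ), 0 ≤ l → HJ F q z g lz →
      ∃ (g' : ι → ℝ) (l' : ℝ), HJ (fun r => pe l (B - ρ * r.1) (F r - z₀)) q
        (pe l (B - ρ * q.1) (z - z₀)) g' l' ∧
        l' ≤ pe l (B - ρ * q.1) (z - z₀) * (-ρ + l * ‖lz‖ + l ^ 2 / 2 * ∑ c, ‖g c‖ ^ 2)

/-- MXJ: the jet of `mx`. Proof: `JalStmt`; `κ` is constant on `A₃` (`KJ.hd0`). With `Δ y = G x y - Go x y`:
`∂_c mx = - 2 re ∑ κ y conj (Δ y) G x (e c) G (e c) y`, `LL mx = ∑ κ y (2 re (conj (Δ y)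
∑_c G x (e c) μ c G (e c) y) + ∑_c |G x (e c) G (e c) y|²)`. Exchange the sums and use Cauchy-Schwarz in
`ℓ²(A₃, κ)`: `|∑ κ y conj (Δ y) G (e c) y| ≤ (mx gb)^{1/2}`. -/
def MxjStmt : Prop :=
  ∀ (ι X : Type) [Fintype ι] [DecidableEq ι] [Fintype X] [DecidableEq X] (e : ι → X)
    (q : ℝ × (ι → ℝ)) (Gm : ℝ × (ι → ℝ) → Matrix X X ℂ) (kp : ℝ → X → ℝ) (G Go : Matrix X X ℂ)
    (κ g : X → ℝ) (μ : ι → ℂ) (A₃ : Finset X) (x : X), KJ e q Gm kp G κ g μ → (∀ c, e c ∉ A₃) →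
      ∃ (g' : ι → ℝ) (l' : ℝ), HJ (fun r => mx (kp r.1) A₃ (Gm r) Go x) q (mx κ A₃ G Go x) g' l' ∧
        ∀ M gb : ℝ, (∀ y ∈ A₃, 0 ≤ κ y) → mx κ A₃ G Go x ≤ M → 0 ≤ gb →
          (∀ c, ∑ y ∈ A₃, κ y * ‖G (e c) y‖ ^ 2 ≤ gb) →
          l' ≤ ∑ c, (2 * ‖μ c‖ * ‖G x (e c)‖ * Real.sqrt (M * gb) + ‖G x (e c)‖ ^ 2 * gb) ∧
          ∀ c, g' c ^ 2 ≤ 4 * (‖G x (e c)‖ ^ 2 * (M * gb))

/-- MAJ: the jet of `MM`. Proof: as MXJ. With `Δ = G - Go`, `ρ c = ∑_(x ∈ A₃) κ x |G x (e c)|² ≤ gb`: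
`LL MM = 2 re ∑_c μ c ∑_(x y) κ κ conj (Δ x y) G x (e c) G (e c) y + ∑_c (ρ c)²`,
`∂_c MM = - 2 re ∑_(x y) κ κ conj (Δ x y) G x (e c) G (e c) y`; Cauchy-Schwarz: the double sum is at most
`MM^{1/2} ρ c`. (`G x (e c) = G (e c) x` by `KJ`.) -/
def MajStmt : Prop :=
  ∀ (ι X : Type) [Fintype ι] [DecidableEq ι] [Fintype X] [DecidableEq X] (e : ι → X)
    (q : ℝ × (ι → ℝ)) (Gm : ℝ × (ι → ℝ) → Matrix X X ℂ) (kp : ℝ → X → ℝ) (G Go : Matrix X X ℂ)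
    (κ g : X → ℝ) (μ : ι → ℂ) (A₃ : Finset X), KJ e q Gm kp G κ g μ → (∀ c, e c ∉ A₃) →
      ∃ (g' : ι → ℝ) (l' : ℝ), HJ (fun r => MM (kp r.1) A₃ (Gm r) Go) q (MM κ A₃ G Go) g' l' ∧
        ∀ M gb : ℝ, (∀ y ∈ A₃, 0 ≤ κ y) → MM κ A₃ G Go ≤ M → 0 ≤ gb →
          (∀ c, ∑ y ∈ A₃, κ y * ‖G (e c) y‖ ^ 2 ≤ gb) →
          l' ≤ ∑ c, (2 * ‖μ c‖ * gb * Real.sqrt M + gb ^ 2) ∧
          ∀ c, g' c ^ 2 ≤ 4 * (gb ^ 2 * M)

/-- UJT (uses PEB, PEJ, MXJ, MAJ): THE FUNCTIONAL HAS NO DRIFT. Proof: sums of jets (`JalStmt`). Let `U < 1`: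
all terms are `< 1` (they are `≥ 0`), so `‖G x c - Go x c‖ ≤ 2 ε x`, `‖G x c‖ ≤ p x c` for `x ∈ A₁`,
`c ∈ A₂`, and `mx ≤ εm`. For a pair: `‖LL G x y‖ ≤ ∑_c δ p x (e c) p y (e c)`,
`∑ ‖∂_c G x y‖² ≤ ∑_c (p x (e c) p y (e c))²` (`G (e c) y = G y (e c)`), so the bracket in `PejStmt` is at
most `- ρ x y + ∑_c cs ≤ 0`. For `exp (Bm - ρm t + lm (mx - εm))`: `LL` is at most its value times
`- ρm + lm l' + (lm² / 2) ∑ g' c² ≤ - ρm + ∑_c cm ≤ 0`; the same for the term of `MM` (`cM`). -/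
def UjtStmt : Prop :=
  ∀ (ι X : Type) [Fintype ι] [DecidableEq ι] [Fintype X] [DecidableEq X] (e : ι → X)
    (q : ℝ × (ι → ℝ)) (Gm : ℝ × (ι → ℝ) → Matrix X X ℂ) (kp : ℝ → X → ℝ) (G Go : Matrix X X ℂ)
    (κ g : X → ℝ) (μ : ι → ℂ) (W : Rn X) (δ gb : ℝ), KJ e q Gm kp G κ g μ → 0 ≤ δ → 0 ≤ gb →
    W.A₃ ⊆ W.A₂ → W.A₂ ⊆ W.A₁ → (∀ c, e c ∈ W.A₂ ∧ e c ∉ W.A₃) → (∀ y ∈ W.A₃, 0 ≤ κ y) →
    (∀ x ∈ W.A₁, 0 < W.l x ∧ 0 ≤ W.ε x ∧ ∀ c ∈ W.A₂, ‖Go x c‖ + 2 * W.ε x ≤ W.p x c) →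
    0 < W.lm → 0 < W.εm → 0 < W.lM → 0 < W.εM → (∀ x ∈ W.A₁, ∀ y ∈ W.A₂, 0 ≤ W.B x y - W.ρ x y * q.1) →
    (∀ x ∈ W.A₂, 0 ≤ W.Bm x - W.ρm x * q.1) → 0 ≤ W.BM - W.ρM * q.1 →
    (∀ x ∈ W.A₁, ∀ y ∈ W.A₂, ∑ c, cs (W.l x) δ (W.p x (e c)) (W.p y (e c)) ≤ W.ρ x y) →
    (∀ x ∈ W.A₂, ∑ c, cm W.lm W.εm δ gb (W.p x (e c)) ≤ W.ρm x) →
    (Fintype.card ι : ℝ) * cM W.lM W.εM δ gb ≤ W.ρM →
    (W.U κ Go q.1 G < 1 → ∀ c, ‖μ c‖ ≤ δ ∧ ∑ y ∈ W.A₃, κ y * ‖G (e c) y‖ ^ 2 ≤ gb) →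
      0 ≤ W.U κ Go q.1 G ∧
      ContDiffAt ℝ 2 (fun r : ℝ × (ι → ℝ) => W.U (kp r.1) Go r.1 (Gm r)) q ∧
      (W.U κ Go q.1 G < 1 → LL (fun r : ℝ × (ι → ℝ) => W.U (kp r.1) Go r.1 (Gm r)) q ≤ 0) ∧
      (W.U κ Go q.1 G < 1 → (∀ x ∈ W.A₁, ∀ y ∈ W.A₂, ‖G x y - Go x y‖ ≤ 2 * W.ε x) ∧
        (∀ x ∈ W.A₂, mx κ W.A₃ G Go x ≤ W.εm) ∧ MM κ W.A₃ G Go ≤ W.εM)

/-- GUF: the functional in a run. Proof: `FlwStmt` (`Helper2_LQF/FLW.lean`) for `F = cu ∘ u`, `a = b = 0`, as in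
`Helper70_LQF/UFL.lean`: `cu` is concave on `[0, ∞)`, `LL F = cu' LL u + (1/2) cu'' |∇ u|² ≤ 0` where
`u < 1`, `LL F = 0` at the points with `u ≥ 1` (there `cu' = cu'' = 0`, or `F = 1` near the point). -/
def GufStmt : Prop :=
  ∀ (ι : Type) [Fintype ι] [DecidableEq ι] (T : ℝ) (u : ℝ × (ι → ℝ) → ℝ), 0 < T →
    (∀ q : ℝ × (ι → ℝ), 0 ≤ q.1 → q.1 ≤ T → 0 ≤ u q ∧ ContDiffAt ℝ 2 u q ∧ (u q < 1 → LL u q ≤ 0)) →
      ∫ V, cu (u (T, V)) ∂(Measure.pi fun _ : ι => gaussianReal 0 T.toNNReal) ≤ cu (u (0, 0))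

/-! ### B. The networks -/

/-- RUN: a kill run. Proof: `Gk r` is the inverse of the matrix `A r` = `Hm + diag (…) - i diag (…)`, which
is affine in `r`: the entry at `c ∈ D` is `V c + r.2 c - (v - r.1) m̃ c - i e0` with `m̃ = mg`, so
`∂_c A = E_c`, `∂_t A = ∑_(c ∈ D) m̃ c E_c`. The absorption is positive for `0 ≤ r.1 ≤ v`, so `A r` is
invertible (`GEQ` of the tank ANR, or `WK` of AWD) and its inverse has jets (`JmaStmt`,
`Helper77_LQF/JMA.lean`, or the proof of RSJ): `∂_c G = - G E_c G`,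
`LL G = ∑_c (G c c - m̃ c) G E_c G`. Ward: `GEQ`. The end points: `v - r.1 = 0`. -/
def RunStmt : Prop :=
  ∀ (X : Type) [Fintype X] [DecidableEq X] (Hm : Matrix X X ℝ) (η e0 : ℝ) (v : ℝ≥0) (T : Cfg X)
    (D : Finset X), (∀ x y, Hm x y = Hm y x) → 0 < e0 → e0 ≤ η → 0 < v →
    (∀ x, 0 < T.s x → 0 < (T.mb x).im) → (∀ c ∈ D, T.s c = v) →
    (∀ r : ℝ × (D → ℝ), 0 ≤ r.1 → r.1 ≤ v →
      KJ (fun c : D => (c : X)) r (Gk Hm η e0 v T D) (kr η e0 v T D) (Gk Hm η e0 v T D r)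
        (kr η e0 v T D r.1) (fun x => (mg η e0 v T x).im)
        (fun c => Gk Hm η e0 v T D r c c - mg η e0 v T c) ∧
      (∀ x, 0 < kr η e0 v T D r.1 x) ∧
      ∀ a b, ∑ y, (kr η e0 v T D r.1 y : ℂ) * (Gk Hm η e0 v T D r a y *
        (starRingEnd ℂ) (Gk Hm η e0 v T D r b y)) = ((Gk Hm η e0 v T D r a b).im : ℂ)) ∧
    Gk Hm η e0 v T D 0 = GT Hm η e0 T ∧ kr η e0 v T D 0 = ka η e0 T ∧
    (∀ ζ : X → ℝ, Gk Hm η e0 v T D (v, fun c => ζ c) = GT Hm η e0 (T.kl D ζ) ∧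
      kr η e0 v T D v = ka η e0 (T.kl D ζ)) ∧
    ∀ a b, Measurable fun ζ : X → ℝ => GT Hm η e0 (T.kl D ζ) a b

/-- NET: the network of a configuration. Proof: `ANR.Net` holds, then `GEQ` (symmetry, Ward). -/
def NetStmt : Prop :=
  ∀ (X : Type) [Fintype X] [DecidableEq X] (Hm : Matrix X X ℝ) (η e0 : ℝ) (T : Cfg X),
    (∀ x y, Hm x y = Hm y x) → 0 < e0 → e0 ≤ η → (∀ x, 0 < T.s x → 0 < (T.mb x).im) →
      ANR.Net (hN Hm T) (ka η e0 T) ∧ (∀ x y, GT Hm η e0 T x y = GT Hm η e0 T y x) ∧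
      (∀ y, ∑ z, ka η e0 T z * ‖GT Hm η e0 T z y‖ ^ 2 = (GT Hm η e0 T y y).im) ∧
      ∀ b, (∀ v, v ≠ b → hN Hm T v b = 0) ∨ 0 < gam (ka η e0 T) (GT Hm η e0 T) b

/-- MSR: the noise of a kill run. Proof: `gm 0 (kv D)` is a product measure; the image under the
restriction to `D` is the product of the factors of `D` (`MeasureTheory.Measure.pi` and
`Measure.map`, `measurePreserving_piEquivPiSubtypeProd` or `Measure.pi_map_restrict`). -/
def MsrStmt : Prop :=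
  ∀ (X : Type) [Fintype X] [DecidableEq X] (T : Cfg X) (D : Finset X) (v : ℝ≥0)
    (F : (D → ℝ) → ℝ≥0∞), Measurable F → (∀ c ∈ D, T.s c = v) →
      ∫⁻ ζ, F (fun c => ζ c) ∂(gm (fun _ => 0) (T.kv D)) =
        ∫⁻ V, F V ∂(Measure.pi fun _ : D => gaussianReal 0 v)

/-! ### C. Steps of the attempt -/

/-- GOK (uses UJT, RUN): the functional and the good points in a kill run. Proof: `UjtStmt` with `W`:
`‖Go x c‖ + 2 ε x ≤ p x c` by `St.go`, `Hyp.jj`; the budgets are nonnegative by `Hyp.bu` for the set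
`kd T ∪ D`; `‖G c c - mg‖ ≤ ‖G₀ c c - mg‖ + J c ≤ δ`, `∑ κ y ‖G c y‖² ≤ im G c c ≤ gb`. `KGd`: `hL` by
`‖G c y‖⁴ ≤ 8 ‖G₀ c y‖⁴ + 8 ‖G c y - G₀ c y‖⁴`, for `y ∈ D` the last is `≤ 8 J c⁴` (`|D| ≤ N`), for
`y ∉ D`: `∑ ‖G - G₀‖⁴ ≤ J² ∑ ‖G - G₀‖²`, `κ y ≥ v g₀`, Minkowski, `mx ≤ εm` and `St.gm`; `ho` by
`Hyp.cut`. -/
def GokStmt : Prop :=
  ∀ (X : Type) [Fintype X] [DecidableEq X] (A : Pa X) (κs g₀ Λ Lc hK kI : ℝ),
    A.Hyp κs g₀ Λ Lc hK kI → ∀ (T : Cfg X) (Qr D : Finset X) (Go : Matrix X X ℂ) (b : X),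
    A.St T Qr Go → b ∈ Qr → D ⊆ A.al T → (A.kd T).card + D.card ≤ A.N →
    (∀ c ∈ A.al T, A.k A.T₀ b * ‖A.G A.T₀ b c‖ ^ 2 ≤ hK) →
    ∀ r : ℝ × (D → ℝ), 0 ≤ r.1 → r.1 ≤ A.v →
      0 ≤ (A.W T D Qr).U (kr A.η A.e0 A.v T D r.1) Go r.1 (Gk A.Hm A.η A.e0 A.v T D r) ∧
      ContDiffAt ℝ 2 (fun r : ℝ × (D → ℝ) =>
        (A.W T D Qr).U (kr A.η A.e0 A.v T D r.1) Go r.1 (Gk A.Hm A.η A.e0 A.v T D r)) r ∧
      ((A.W T D Qr).U (kr A.η A.e0 A.v T D r.1) Go r.1 (Gk A.Hm A.η A.e0 A.v T D r) < 1 →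
        LL (fun r : ℝ × (D → ℝ) =>
          (A.W T D Qr).U (kr A.η A.e0 A.v T D r.1) Go r.1 (Gk A.Hm A.η A.e0 A.v T D r)) r ≤ 0 ∧
        KGd (fun c : D => (c : X)) (Gk A.Hm A.η A.e0 A.v T D r) (kr A.η A.e0 A.v T D r.1)
          (fun x => (mg A.η A.e0 A.v T x).im)
          (fun c => Gk A.Hm A.η A.e0 A.v T D r c c - mg A.η A.e0 A.v T c) (A.al T) b κs g₀ A.δ Lc ∧
        ∀ x ∈ A.al T, ∀ c : D, ‖Gk A.Hm A.η A.e0 A.v T D r x c‖ ^ 2 ≤ kI)

/-- STK (uses UJT, RUN, MSR, GUF, CUP): one kill. Proof: `St` is a statement about clocks and `Go` only.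
`GufStmt` for the run, `W.U (0) ≤ A.U T` (the sum in `mx` is larger), `A.U (T.kl D ζ) ≤ Ue`: the same
budgets, less terms. -/
def StkStmt : Prop :=
  ∀ (X : Type) [Fintype X] [DecidableEq X] (A : Pa X) (κs g₀ Λ Lc hK kI : ℝ),
    A.Hyp κs g₀ Λ Lc hK kI → ∀ (T : Cfg X) (Qr D : Finset X) (Go : Matrix X X ℂ),
    A.St T Qr Go → D ⊆ A.al T → D ⊆ A.Rk → (A.kd T).card + D.card ≤ A.N →
      (∀ ζ, A.St (T.kl D ζ) Qr Go ∧ 0 ≤ A.U (T.kl D ζ) Qr Go ∧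
        A.U (T.kl D ζ) Qr Go ≤ A.Ue T D Qr Go ζ ∧ A.kd (T.kl D ζ) = A.kd T ∪ D ∧
        A.al (T.kl D ζ) = A.al T \ D) ∧
      (Measurable fun ζ => A.U (T.kl D ζ) Qr Go) ∧ (Measurable fun ζ => A.Ue T D Qr Go ζ) ∧
      ∫⁻ ζ, ENNReal.ofReal (cu (A.Ue T D Qr Go ζ)) ∂(gm (fun _ => 0) (T.kv D)) ≤
        ENNReal.ofReal (cu (A.U T Qr Go))

/-- RVS (uses LV2, LV0 of ANR, NET): one reveal. Proof: `G T' - Go' = G T - Go`, so `U` loses only the
terms with `x = b`. `L y = K_yb / ∑_(z ≠ b) κ_z K_zb = a y / κ_y ≤ 2 t₁ / (v g₀) ≤ dT` on `al T`, `L x ≤ 1 / κ_x`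
always; `LV2`: `‖G T' - G T‖ ≤ 2 (L x L y)^{1/2}`, `∑_y κ_y ‖G T' x y - G T x y‖² ≤ 4 L x`, `∑_x κ_x L_x ≤ 1`; Minkowski. -/
def RvsStmt : Prop :=
  ∀ (X : Type) [Fintype X] [DecidableEq X] (A : Pa X) (κs g₀ Λ Lc hK kI : ℝ),
    A.Hyp κs g₀ Λ Lc hK kI → ∀ (T : Cfg X) (Qr : Finset X) (Go : Matrix X X ℂ) (b : X),
    A.St T Qr Go → b ∈ Qr → (∀ x ∈ A.al T, A.a T b x ≤ 2 * A.t₁) →
      A.St (T.rv {b} A.val) (Qr.erase b) (Go + (A.G (T.rv {b} A.val) - A.G T)) ∧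
      A.U (T.rv {b} A.val) (Qr.erase b) (Go + (A.G (T.rv {b} A.val) - A.G T)) ≤ A.U T Qr Go ∧
      A.al (T.rv {b} A.val) = A.al T ∧ A.kd (T.rv {b} A.val) = A.kd T

/-- PHS (block KIL, helper38): THE PHASE OF `b`: after at most `nP` kills all running sites of `R` are light
for `b`, with failure probability `p`. Continuation form: `a, M` are the constants of the continuation,
the functional `U` is cumulative over the whole attempt. The constants `B, nP, p` and the conditions on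
the numbers are those of block KIL. -/
def PhsAt {X : Type} [Fintype X] [DecidableEq X] (A : Pa X) (hK : ℝ) (nP : ℕ) (p B : ℝ) : Prop :=
  ∀ (T : Cfg X) (Qr : Finset X) (Go : Matrix X X ℂ) (b : X), A.St T Qr Go → b ∈ Qr →
    (∀ c ∈ A.al T, A.k A.T₀ b * ‖A.G A.T₀ b c‖ ^ 2 ≤ hK) → (A.kd T).card + nP ≤ A.N →
    ∀ (Okf : Cfg X → Prop) (a M : ℝ), 0 ≤ a → 0 ≤ M →
    (∀ T' : Cfg X, A.St T' Qr Go → A.al T' ⊆ A.al T → (A.kd T').card ≤ (A.kd T).card + nP →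
      A.U T' Qr Go < 1 → (∀ x ∈ A.al T', A.a T' b x ≤ 2 * A.t₁) →
      Att A.Rk A.Q A.val Okf T' (ENNReal.ofReal (a + M * cu (A.U T' Qr Go)))) →
    Att A.Rk A.Q A.val Okf T (ENNReal.ofReal (a + p + (M + B) * cu (A.U T Qr Go)))

/-- ATA (uses STK, RVS, CUP, PEB): THE ATTEMPT, from the phases. Proof: the first kills are
`D₀ = {x ∈ R | hK < κ_b |G_bx|² for some b ∈ Q}` (`StkStmt` at `T₀`, `Att.kill` with
`q = ofReal (a + M cu U)` if `Ue < 1`, otherwise `1`; `1 ≤ cu Ue` there, so the integral is at most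
`a + (M + 1) cu (U T₀)`), then for the sites `b` of `Q` one after the other (induction on a list): `PhsAt`,
then `Att.ap` (`RvsStmt`: `U` does not increase; `St` for `Qr.erase b`). At the end `Qr = ∅`: `Att.ok`.
`M` starts with `1` and grows by `B` in every phase (`cu` is monotone, `cu u ≤ 3 u`). At `T₀` all
differences vanish, nothing is killed, so `U = ∑_x ∑_y 4 exp (1 - l x ε x) + |R| exp (1 - lm εm) + exp (1 - lM εM)`. -/
def AtaStmt : Prop :=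
  ∀ (X : Type) [Fintype X] [DecidableEq X] (A : Pa X) (κs g₀ Λ Lc hK kI p B : ℝ) (nP : ℕ),
    A.Hyp κs g₀ Λ Lc hK kI → 0 ≤ p → 0 ≤ B → PhsAt A hK nP p B →
    ({x ∈ A.R | ∃ b ∈ A.Q, hK < A.k A.T₀ b * ‖A.G A.T₀ b x‖ ^ 2} : Finset X).card +
      A.Q.card * nP ≤ A.N →
    ∀ Okf : Cfg X → Prop,
      (∀ (T' : Cfg X) (Go : Matrix X X ℂ), A.St T' ∅ Go → A.U T' ∅ Go < 1 →
        (∀ b ∈ A.Q, ∀ x ∈ A.al T', A.k A.T₀ b * ‖A.G A.T₀ b x‖ ^ 2 ≤ hK) → Okf T') →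
      Att A.Rk A.Q A.val Okf A.T₀ (ENNReal.ofReal (A.Q.card * p + 3 * (2 + A.Q.card * B) *
        ((∑ x ∈ A.R ∪ A.Q, A.R.card * (4 * Real.exp (1 - A.l x * A.ε x))) +
          A.R.card * Real.exp (1 - A.lm * A.εm) + Real.exp (1 - A.lM * A.εM))))

/-- OUT (uses UJT, PEB): what the end of the attempt gives. Proof: `U < 1` gives `‖G - Go‖ ≤ 2 ε x` and
`mx (G, Go) ≤ εm`, `MM (G, Go) ≤ εM` (the budgets are nonnegative); `St.go`, `St.gm`, `St.gM`, `Hyp.jj`,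
Minkowski. -/
def OutStmt : Prop :=
  ∀ (X : Type) [Fintype X] [DecidableEq X] (A : Pa X) (κs g₀ Λ Lc hK kI : ℝ),
    A.Hyp κs g₀ Λ Lc hK kI → ∀ (T : Cfg X) (Go : Matrix X X ℂ), A.St T ∅ Go → A.U T ∅ Go < 1 →
      (∀ x ∈ A.al T, ∀ y ∈ A.al T, ‖A.G T x y - A.G A.T₀ x y‖ ≤ A.J x) ∧
      (∀ x ∈ A.al T, Real.sqrt (mx (A.k T) (A.al T) (A.G T) (A.G A.T₀) x) ≤
        Real.sqrt A.εm + A.Q.card * (2 * Real.sqrt A.dT)) ∧
      Real.sqrt (MM (A.k T) (A.al T) (A.G T) (A.G A.T₀)) ≤ Real.sqrt A.εM + A.Q.card * 2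

end Pool.Agent.ATT
end
end -- Pool.Agent.ATT.Stmts

section -- Pool.Agent.Helper13_KIL.KTH

/-!
# Row KTH of tank KIL: the cut off
-/

set_option autoImplicit false

open MeasureTheory ProbabilityTheory Function Filter

open scoped ENNReal BigOperators Topology NNReal Matrix

noncomputable section

namespace Pool.Agent.KIL.H13

open Real (smoothTransition)

theorem S_diff (x : ℝ) : HasDerivAt smoothTransition (deriv smoothTransition x) x :=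
  ((Real.smoothTransition.contDiff (n := 1)).differentiable (by norm_num) x).hasDerivAt

theorem S1_contDiff : ContDiff ℝ 2 (deriv smoothTransition) := by
  have h : ContDiff ℝ (2 + 1) smoothTransition := Real.smoothTransition.contDiff (n := 3)
  exact (contDiff_succ_iff_deriv.1 h).2.2

theorem S1_diff (x : ℝ) :
    HasDerivAt (deriv smoothTransition) (deriv (deriv smoothTransition) x) x :=
  (S1_contDiff.differentiable (by norm_num) x).hasDerivAt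

theorem S2_cont : Continuous (deriv (deriv smoothTransition)) := by
  have h : ContDiff ℝ (1 + 1) (deriv smoothTransition) := S1_contDiff
  exact (contDiff_succ_iff_deriv.1 h).2.2.continuous

theorem S1_lt {x : ℝ} (hx : x < 0) : ∀ᶠ y in 𝓝 x, deriv smoothTransition y = 0 := by
  filter_upwards [Iio_mem_nhds hx] with y hy
  have h : smoothTransition =ᶠ[𝓝 y] fun _ => 0 := by
    filter_upwards [Iio_mem_nhds hy] with z hz
    exact Real.smoothTransition.zero_of_nonpos (le_of_lt hz)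
  rw [h.deriv_eq, deriv_const]

theorem S1_gt {x : ℝ} (hx : 1 < x) : ∀ᶠ y in 𝓝 x, deriv smoothTransition y = 0 := by
  filter_upwards [Ioi_mem_nhds hx] with y hy
  have h : smoothTransition =ᶠ[𝓝 y] fun _ => 1 := by
    filter_upwards [Ioi_mem_nhds hy] with z hz
    exact Real.smoothTransition.one_of_one_le (le_of_lt hz)
  rw [h.deriv_eq, deriv_const]

theorem bnd (f : ℝ → ℝ) (hf : Continuous f) (h : ∀ x, x < 0 ∨ 1 < x → f x = 0) :
    ∃ C : ℝ, 0 ≤ C ∧ ∀ x, |f x| ≤ C := by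
  obtain ⟨C, hC⟩ := (isCompact_Icc (a := (0 : ℝ)) (b := 1)).exists_bound_of_continuousOn
    hf.continuousOn
  refine ⟨|C|, abs_nonneg _, fun x => ?_⟩
  by_cases hx : x < 0 ∨ 1 < x
  · rw [h x hx, abs_zero]
    exact abs_nonneg _
  · rw [not_or, not_lt, not_lt] at hx
    exact (hC x hx).trans (le_abs_self _)

theorem kth : KthStmt := by
  obtain ⟨C₁, hC₁0, hC₁⟩ := bnd (deriv smoothTransition) S1_contDiff.continuous (by
    rintro x (hx | hx)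
    · exact (S1_lt hx).self_of_nhds
    · exact (S1_gt hx).self_of_nhds)
  obtain ⟨C₂, hC₂0, hC₂⟩ := bnd (deriv (deriv smoothTransition)) S2_cont (by
    rintro x (hx | hx)
    · have h : deriv smoothTransition =ᶠ[𝓝 x] fun _ => 0 := S1_lt hx
      rw [h.deriv_eq, deriv_const]
    · have h : deriv smoothTransition =ᶠ[𝓝 x] fun _ => 0 := S1_gt hx
      rw [h.deriv_eq, deriv_const])
  refine ⟨C₁ + C₂ + 1, by linarith, fun t₀ t₁ h0 h1 => ?_⟩
  have ht1 : 0 < t₁ := lt_of_lt_of_le (by positivity) h1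
  have hLg : 1 ≤ Real.log (t₁ / t₀) := by
    rw [Real.le_log_iff_exp_le (by positivity), le_div_iff₀ h0]
    exact h1
  set Lg := Real.log (t₁ / t₀) with hLgd
  have hLp : 0 < Lg := by linarith
  have hLe : Lg = Real.log t₁ - Real.log t₀ := by
    rw [hLgd, Real.log_div ht1.ne' h0.ne']
  set L : ℝ → ℝ := fun a => (Real.log a - Real.log t₀) / Lg with hL
  set F : ℝ → ℝ := fun a => a * smoothTransition (L a) with hF
  set θ : ℝ → ℝ := fun a => if a ≤ 0 then 0 else F a with hθ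
  set G : ℝ → ℝ := fun a => smoothTransition (L a) + deriv smoothTransition (L a) / Lg with hG
  have hLd : ∀ a, 0 < a → HasDerivAt L (a⁻¹ / Lg) a := by
    intro a ha
    exact ((Real.hasDerivAt_log ha.ne').sub_const _).div_const _
  have hFd : ∀ a, 0 < a → HasDerivAt F (G a) a := by
    intro a ha
    have h := (hasDerivAt_id a).mul ((S_diff (L a)).comp a (hLd a ha))
    have e : 1 * (smoothTransition ∘ L) a + id a * (deriv smoothTransition (L a) * (a⁻¹ / Lg)) =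
        G a := by
      simp only [hG, Function.comp, id]
      have := ha.ne'
      field_simp
    rw [← e]
    exact h
  have hGd : ∀ a, 0 < a → HasDerivAt G (deriv smoothTransition (L a) * (a⁻¹ / Lg) +
      deriv (deriv smoothTransition) (L a) * (a⁻¹ / Lg) / Lg) a := by
    intro a ha
    exact ((S_diff (L a)).comp a (hLd a ha)).add
      (((S1_diff (L a)).comp a (hLd a ha)).div_const _)
  have hpos : ∀ a, 0 < a → θ =ᶠ[𝓝 a] F := by
    intro a ha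
    filter_upwards [Ioi_mem_nhds ha] with b hb
    simp only [hθ]
    rw [if_neg (not_le.2 hb)]
  have hzero : ∀ a, a ≤ t₀ → θ a = 0 := by
    intro a ha
    simp only [hθ]
    split_ifs with h
    · rfl
    · simp only [hF]
      have : L a ≤ 0 := by
        simp only [hL]
        apply div_nonpos_of_nonpos_of_nonneg _ hLp.le
        have := Real.log_le_log (not_le.1 h) ha
        linarith
      rw [Real.smoothTransition.zero_of_nonpos this, mul_zero]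
  have hdF : ∀ a, 0 < a → deriv θ a = G a := by
    intro a ha
    rw [(hpos a ha).deriv_eq]
    exact (hFd a ha).deriv
  have hdG : ∀ a, 0 < a → deriv (deriv θ) a = deriv smoothTransition (L a) * (a⁻¹ / Lg) +
      deriv (deriv smoothTransition) (L a) * (a⁻¹ / Lg) / Lg := by
    intro a ha
    have h : deriv θ =ᶠ[𝓝 a] G := by
      filter_upwards [Ioi_mem_nhds ha] with b hb
      exact hdF b hb
    rw [h.deriv_eq]
    exact (hGd a ha).deriv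
  have hsm : ContDiff ℝ 2 θ := by
    rw [contDiff_iff_contDiffAt]
    intro a
    by_cases ha : a < t₀
    · apply (contDiffAt_const (c := (0 : ℝ))).congr_of_eventuallyEq
      filter_upwards [Iio_mem_nhds ha] with b hb
      exact hzero b (le_of_lt hb)
    · have ha' : 0 < a := lt_of_lt_of_le h0 (not_lt.1 ha)
      apply ContDiffAt.congr_of_eventuallyEq _ (hpos a ha')
      apply contDiffAt_id.mul
      apply (Real.smoothTransition.contDiff (n := 2)).contDiffAt.comp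
      exact ((Real.contDiffAt_log.2 ha'.ne').sub contDiffAt_const).div_const _
  refine ⟨θ, hsm, ?_, ?_, ?_, ?_, ?_⟩
  · intro a ha
    simp only [hθ]
    split_ifs with h
    · exact ⟨le_refl _, ha⟩
    · have h2 := Real.smoothTransition.nonneg (L a)
      have h3 := Real.smoothTransition.le_one (L a)
      exact ⟨mul_nonneg ha h2, by
        have := mul_le_mul_of_nonneg_left h3 ha
        simpa using this⟩
  · have hd0 : ∀ a, a < t₀ → deriv θ a = 0 := by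
      intro a ha
      have h : θ =ᶠ[𝓝 a] fun _ => 0 := by
        filter_upwards [Iio_mem_nhds ha] with b hb
        exact hzero b (le_of_lt hb)
      rw [h.deriv_eq, deriv_const]
    have hdd0 : ∀ a, a < t₀ → deriv (deriv θ) a = 0 := by
      intro a ha
      have h : deriv θ =ᶠ[𝓝 a] fun _ => 0 := by
        filter_upwards [Iio_mem_nhds ha] with b hb
        exact hd0 b hb
      rw [h.deriv_eq, deriv_const]
    have hc1 : ContDiff ℝ 1 (deriv θ) := by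
      have h : ContDiff ℝ (1 + 1) θ := hsm
      exact (contDiff_succ_iff_deriv.1 h).2.2
    have hc2 : Continuous (deriv (deriv θ)) := by
      have h : ContDiff ℝ (0 + 1) (deriv θ) := hc1
      exact (contDiff_succ_iff_deriv.1 h).2.2.continuous
    have hcl : ∀ f : ℝ → ℝ, Continuous f → (∀ a, a < t₀ → f a = 0) → ∀ a, a ≤ t₀ → f a = 0 := by
      intro f hf h a ha
      have hc : IsClosed {x : ℝ | f x = 0} := isClosed_eq hf continuous_const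
      have hs : Set.Iio t₀ ⊆ {x : ℝ | f x = 0} := fun x hx => h x hx
      have := hc.closure_subset_iff.2 hs
      rw [closure_Iio] at this
      exact this ha
    intro a ha
    exact ⟨hzero a ha, hcl _ hc1.continuous hd0 a ha, hcl _ hc2 hdd0 a ha⟩
  · intro a ha
    have hap : 0 < a := lt_of_lt_of_le ht1 ha
    simp only [hθ]
    rw [if_neg (not_le.2 hap)]
    simp only [hF]
    have : 1 ≤ L a := by
      simp only [hL]
      rw [le_div_iff₀ hLp, one_mul, hLe]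
      have := Real.log_le_log ht1 ha
      linarith
    rw [Real.smoothTransition.one_of_one_le this, mul_one]
  · intro a ha
    rcases ha.eq_or_lt with rfl | hap
    · simp [hzero 0 h0.le]
    · rw [hdF a hap, (hpos a hap).self_of_nhds]
      have e : a * G a - F a = a * (deriv smoothTransition (L a) / Lg) := by
        simp only [hG, hF]
        ring
      rw [e, abs_mul, abs_of_pos hap, mul_comm]
      apply mul_le_mul_of_nonneg_right _ hap.le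
      rw [abs_div, abs_of_pos hLp]
      apply div_le_div_of_nonneg_right _ hLp.le
      linarith [hC₁ (L a)]
  · intro a ha
    rcases ha.eq_or_lt with rfl | hap
    · rw [zero_mul, abs_zero]
      positivity
    · rw [hdG a hap]
      have e : a * (deriv smoothTransition (L a) * (a⁻¹ / Lg) +
          deriv (deriv smoothTransition) (L a) * (a⁻¹ / Lg) / Lg) =
          (deriv smoothTransition (L a) + deriv (deriv smoothTransition) (L a) / Lg) / Lg := by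
        have := hap.ne'
        field_simp
      rw [e, abs_div, abs_of_pos hLp]
      apply div_le_div_of_nonneg_right _ hLp.le
      refine (abs_add_le _ _).trans ?_
      have h2 : |deriv (deriv smoothTransition) (L a) / Lg| ≤ C₂ := by
        rw [abs_div, abs_of_pos hLp]
        exact (div_le_self (abs_nonneg _) hLg).trans (hC₂ _)
      linarith [hC₁ (L a)]

end Pool.Agent.KIL.H13
end
end -- Pool.Agent.Helper13_KIL.KTH

section -- Pool.Agent.Helper38_KIL.KNB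

/-!
# Row KNB of tank KIL: bounds at a good point
-/

set_option autoImplicit false

open MeasureTheory ProbabilityTheory Function Filter

open scoped ENNReal BigOperators Topology NNReal Matrix

noncomputable section

namespace Pool.Agent.KIL.H38K

/-- the quadratic form of a Gram matrix -/
theorem gram {ι X : Type} [Fintype ι] [Fintype X] (κ : X → ℝ) (b : ι → X → ℂ) (w : ι → ι → ℝ)
    (hw : ∀ c c', ∑ v, (κ v : ℂ) * (b c v * (starRingEnd ℂ) (b c' v)) = (w c c' : ℂ))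
    (u : ι → ℂ) :
    ((∑ v, κ v * ‖∑ c, b c v * u c‖ ^ 2 : ℝ) : ℂ) =
      ∑ c, ∑ c', u c * (starRingEnd ℂ) (u c') * (w c c' : ℂ) := by
  have h1 : ∀ v, ((κ v * ‖∑ c, b c v * u c‖ ^ 2 : ℝ) : ℂ) =
      ∑ c, ∑ c', u c * (starRingEnd ℂ) (u c') * ((κ v : ℂ) * (b c v * (starRingEnd ℂ) (b c' v))) := by
    intro v
    push_cast
    rw [← Complex.mul_conj', map_sum, Finset.sum_mul_sum, Finset.mul_sum]
    apply Finset.sum_congr rfl
    intro c _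
    rw [Finset.mul_sum]
    apply Finset.sum_congr rfl
    intro c' _
    rw [map_mul]
    ring
  rw [Complex.ofReal_sum, Finset.sum_congr rfl fun v _ => h1 v, Finset.sum_comm]
  apply Finset.sum_congr rfl
  intro c _
  rw [Finset.sum_comm]
  apply Finset.sum_congr rfl
  intro c' _
  rw [← hw, Finset.mul_sum]

theorem gram_le {ι X : Type} [Fintype ι] [Fintype X] (κ : X → ℝ) (b : ι → X → ℂ) (w : ι → ι → ℝ)
    (hw : ∀ c c', ∑ v, (κ v : ℂ) * (b c v * (starRingEnd ℂ) (b c' v)) = (w c c' : ℂ))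
    (u : ι → ℂ) (Q : ℝ) (hQ : ∑ c, ∑ c', w c c' ^ 2 ≤ Q) :
    ∑ v, κ v * ‖∑ c, b c v * u c‖ ^ 2 ≤ Real.sqrt Q * ∑ c, ‖u c‖ ^ 2 := by
  have h0 := gram κ b w hw u
  have h1 : ∑ v, κ v * ‖∑ c, b c v * u c‖ ^ 2 ≤ ∑ c, ∑ c', ‖u c‖ * ‖u c'‖ * |w c c'| := by
    calc ∑ v, κ v * ‖∑ c, b c v * u c‖ ^ 2 ≤ |∑ v, κ v * ‖∑ c, b c v * u c‖ ^ 2| := le_abs_self _
      _ = ‖((∑ v, κ v * ‖∑ c, b c v * u c‖ ^ 2 : ℝ) : ℂ)‖ := by
          rw [Complex.norm_real, Real.norm_eq_abs]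
      _ ≤ _ := by
          rw [h0]
          refine (norm_sum_le _ _).trans (Finset.sum_le_sum fun c _ => ?_)
          refine (norm_sum_le _ _).trans (Finset.sum_le_sum fun c' _ => ?_)
          rw [norm_mul, norm_mul, Complex.norm_conj, Complex.norm_real, Real.norm_eq_abs]
  refine h1.trans ?_
  have h2 : ∑ c, ∑ c', ‖u c‖ * ‖u c'‖ * |w c c'| =
      ∑ p : ι × ι, (‖u p.1‖ * ‖u p.2‖) * |w p.1 p.2| := by
    rw [Fintype.sum_prod_type]
  have h3 := Finset.sum_mul_sq_le_sq_mul_sq Finset.univ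
    (fun p : ι × ι => ‖u p.1‖ * ‖u p.2‖) (fun p => |w p.1 p.2|)
  have h4 : ∑ p : ι × ι, (‖u p.1‖ * ‖u p.2‖) ^ 2 = (∑ c, ‖u c‖ ^ 2) ^ 2 := by
    rw [Fintype.sum_prod_type, sq (∑ c, ‖u c‖ ^ 2), Finset.sum_mul_sum]
    apply Finset.sum_congr rfl
    intro c _
    apply Finset.sum_congr rfl
    intro c' _
    ring
  have h5 : ∑ p : ι × ι, |w p.1 p.2| ^ 2 = ∑ c, ∑ c', w c c' ^ 2 := by
    rw [Fintype.sum_prod_type]
    simp only [sq_abs]
  rw [h2]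
  have hU : 0 ≤ ∑ c, ‖u c‖ ^ 2 := Finset.sum_nonneg fun c _ => by positivity
  have hQ0 : 0 ≤ ∑ c, ∑ c', w c c' ^ 2 :=
    Finset.sum_nonneg fun c _ => Finset.sum_nonneg fun c' _ => by positivity
  apply le_of_sq_le_sq _ (mul_nonneg (Real.sqrt_nonneg _) hU)
  rw [mul_pow, Real.sq_sqrt (hQ0.trans hQ)]
  rw [h4, h5] at h3
  refine h3.trans ?_
  rw [mul_comm]
  exact mul_le_mul_of_nonneg_right hQ (by positivity)

theorem knb : KnbStmt := by
  intro ι X _ _ _ _ e G κ g μ Rn o κs g₀ δ Lc he hG hγ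
  have hs := hG.hs
  have hκ := hG.hκ.1
  have hg0 := hG.hg.1
  set γ := gam κ G o with hγd
  have hgc : ∀ c, 0 < g (e c) := fun c => lt_of_lt_of_le hg0 (hG.hg.2 c)
  have hA0 : ∀ c, 0 ≤ AA e κ g G o c := by
    intro c
    unfold AA
    exact div_nonneg (mul_nonneg (hgc c).le (by positivity)) hγ.le
  have hδ : ∀ _ : ι, 0 ≤ δ := fun c => (norm_nonneg _).trans (hG.hμ c).1
  have hκs : ∀ _ : ι, 0 ≤ κs := fun c => (hκ _).trans (hG.hκ.2 _ (hG.hR.1 c))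
  have hward : ∀ c, ∑ v, κ v * ‖G v (e c)‖ ^ 2 = (G (e c) (e c)).im := by
    intro c
    have h := hG.hw (e c) (e c)
    have h2 : ((∑ v, κ v * ‖G v (e c)‖ ^ 2 : ℝ) : ℂ) = ((G (e c) (e c)).im : ℂ) := by
      rw [← h]
      push_cast
      apply Finset.sum_congr rfl
      intro v _
      rw [Complex.mul_conj', hs v (e c)]
    exact_mod_cast h2
  have hn : ∀ c, ‖G (e c) o‖ ^ 2 / γ ≤ AA e κ g G o c / g₀ := by
    intro c
    unfold AA
    rw [← hγd, le_div_iff₀ hg0, div_mul_eq_mul_div]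
    apply div_le_div_of_nonneg_right _ hγ.le
    rw [mul_comm]
    exact mul_le_mul_of_nonneg_right (hG.hg.2 c) (by positivity)
  have hee : ∀ v c, ee e κ G o v c = κ v * ‖G v (e c)‖ ^ 2 * (‖G (e c) o‖ ^ 2 / γ) := by
    intro v c
    unfold ee
    rw [norm_mul, mul_pow, ← hγd]
    ring
  have hnn : ∀ v, 0 ≤ nn κ G o v := fun v => mul_nonneg (hκ v) (by positivity)
  refine ⟨?_, ?_, hA0, ?_, ?_, ?_, ?_⟩
  · intro v
    unfold aa
    exact div_nonneg (hnn v) hγ.le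
  · unfold aa
    rw [← Finset.sum_div]
    exact div_self hγ.ne'
  · intro v c
    have h0 : 0 ≤ ee e κ G o v c := by
      unfold ee
      exact div_nonneg (mul_nonneg (hκ v) (by positivity)) hγ.le
    refine ⟨h0, ?_⟩
    unfold xx aa nn ee
    rw [← hγd]
    have h1 := Complex.abs_re_le_norm ((starRingEnd ℂ) (G v o) * (G v (e c) * G (e c) o))
    rw [norm_mul, Complex.norm_conj] at h1
    have h2 : (((starRingEnd ℂ) (G v o) * (G v (e c) * G (e c) o)).re) ^ 2 ≤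
        (‖G v o‖ * ‖G v (e c) * G (e c) o‖) ^ 2 := by
      rw [← sq_abs]
      exact pow_le_pow_left₀ (abs_nonneg _) h1 2
    have e1 : 4 * (κ v * ‖G v o‖ ^ 2 / γ * (κ v * ‖G v (e c) * G (e c) o‖ ^ 2 / γ)) =
        4 * κ v ^ 2 * (‖G v o‖ * ‖G v (e c) * G (e c) o‖) ^ 2 / γ ^ 2 := by
      field_simp
    rw [e1, div_pow]
    apply div_le_div_of_nonneg_right _ (by positivity)
    have e2 : (2 * κ v * ((starRingEnd ℂ) (G v o) * (G v (e c) * G (e c) o)).re) ^ 2 =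
        4 * κ v ^ 2 * (((starRingEnd ℂ) (G v o) * (G v (e c) * G (e c) o)).re) ^ 2 := by ring
    rw [e2]
    exact mul_le_mul_of_nonneg_left h2 (by positivity)
  · intro c
    have h1 : ∑ v ∈ Finset.univ.erase o, ee e κ G o v c =
        ((G (e c) (e c)).im - κ o * ‖G (e c) o‖ ^ 2) * (‖G (e c) o‖ ^ 2 / γ) := by
      rw [Finset.sum_congr rfl fun v _ => hee v c, ← Finset.sum_mul]
      congr 1
      rw [← hward c, ← Finset.add_sum_erase Finset.univ _ (Finset.mem_univ o), hs o (e c)]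
      ring
    have h2 : AA e κ g G o c = g (e c) * (‖G (e c) o‖ ^ 2 / γ) := by
      unfold AA
      rw [← hγd]
      ring
    have h3 : 0 ≤ ‖G (e c) o‖ ^ 2 / γ := by positivity
    have h4 := abs_le.1 (hG.hμ c).2
    have h5 := hG.ho c
    have h6 : 0 ≤ κ o * ‖G (e c) o‖ ^ 2 := mul_nonneg (hκ o) (by positivity)
    rw [h1]
    nth_rewrite 1 [h2]
    rw [← sub_mul, abs_mul, abs_of_nonneg h3]
    have h7 : |(G (e c) (e c)).im - κ o * ‖G (e c) o‖ ^ 2 - g (e c)| ≤ 2 * δ := by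
      rw [abs_le]
      constructor <;> linarith
    have h8 : 2 * δ / g₀ * AA e κ g G o c = 2 * δ * (AA e κ g G o c / g₀) := by ring
    rw [h8]
    exact mul_le_mul h7 (hn c) h3 (by linarith [hδ c])
  · intro H N hH hN c
    rw [Finset.sum_congr rfl fun v _ => hee v c, ← Finset.sum_mul]
    have h1 : ∑ v ∈ H, κ v * ‖G v (e c)‖ ^ 2 ≤ κs * Real.sqrt (N * Lc) := by
      have h2 : ∑ v ∈ H, κ v * ‖G v (e c)‖ ^ 2 ≤ κs * ∑ v ∈ H, 1 * ‖G v (e c)‖ ^ 2 := by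
        rw [Finset.mul_sum]
        apply Finset.sum_le_sum
        intro v hv
        rw [one_mul]
        exact mul_le_mul_of_nonneg_right (hG.hκ.2 v (hH hv)) (by positivity)
      refine h2.trans (mul_le_mul_of_nonneg_left ?_ (hκs c))
      apply Real.le_sqrt_of_sq_le
      have h3 := Finset.sum_mul_sq_le_sq_mul_sq H (fun _ => (1 : ℝ)) (fun v => ‖G v (e c)‖ ^ 2)
      refine h3.trans ?_
      have h4 : ∑ v ∈ H, (‖G v (e c)‖ ^ 2) ^ 2 ≤ Lc := by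
        refine le_trans ?_ (hG.hL c)
        refine (Finset.sum_le_sum_of_subset_of_nonneg hH
          fun v _ _ => by positivity).trans (le_of_eq ?_)
        apply Finset.sum_congr rfl
        intro v _
        rw [hs v (e c)]
        ring
      have h5 : ∑ v ∈ H, (1 : ℝ) ^ 2 = H.card := by simp
      rw [h5]
      apply mul_le_mul hN h4 (Finset.sum_nonneg fun v _ => by positivity)
      exact (Nat.cast_nonneg _).trans hN
    have e1 : κs * Real.sqrt (N * Lc) / g₀ * AA e κ g G o c =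
        κs * Real.sqrt (N * Lc) * (AA e κ g G o c / g₀) := by ring
    rw [e1]
    exact mul_le_mul h1 (hn c) (by positivity) (mul_nonneg (hκs c) (Real.sqrt_nonneg _))
  · set u : ι → ℂ := fun c => μ c * G (e c) o with hu
    set β : X → ℂ := fun v => ∑ c, G (e c) v * u c with hβ
    have hβ' : ∀ v, β v = ∑ c, G v (e c) * μ c * G (e c) o := by
      intro v
      simp only [hβ, hu]
      apply Finset.sum_congr rfl
      intro c _
      rw [hs (e c) v]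
      ring
    have her : ∀ v, |er e κ G μ o v| ≤
        2 / γ * ((Real.sqrt (κ v) * ‖G v o‖) * (Real.sqrt (κ v) * ‖β v‖)) := by
      intro v
      unfold er
      rw [← hβ' v, ← hγd, abs_div, abs_of_pos hγ, abs_mul, abs_of_nonneg
        (mul_nonneg (by norm_num) (hκ v) : (0 : ℝ) ≤ 2 * κ v)]
      have h1 := Complex.abs_re_le_norm ((starRingEnd ℂ) (G v o) * β v)
      rw [norm_mul, Complex.norm_conj] at h1
      have h2 : (Real.sqrt (κ v) * ‖G v o‖) * (Real.sqrt (κ v) * ‖β v‖) =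
          κ v * (‖G v o‖ * ‖β v‖) := by
        have := Real.mul_self_sqrt (hκ v)
        calc (Real.sqrt (κ v) * ‖G v o‖) * (Real.sqrt (κ v) * ‖β v‖) =
            (Real.sqrt (κ v) * Real.sqrt (κ v)) * (‖G v o‖ * ‖β v‖) := by ring
          _ = _ := by rw [this]
      rw [h2]
      have e1 : 2 / γ * (κ v * (‖G v o‖ * ‖β v‖)) = 2 * κ v * (‖G v o‖ * ‖β v‖) / γ := by ring
      rw [e1]
      apply div_le_div_of_nonneg_right _ hγ.le
      exact mul_le_mul_of_nonneg_left h1 (mul_nonneg (by norm_num) (hκ v))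
    have hsum : ∑ v ∈ Finset.univ.erase o, |er e κ G μ o v| ≤ 2 / γ *
        ∑ v ∈ Finset.univ.erase o, (Real.sqrt (κ v) * ‖G v o‖) * (Real.sqrt (κ v) * ‖β v‖) := by
      rw [Finset.mul_sum]
      exact Finset.sum_le_sum fun v _ => her v
    have h0 : 0 ≤ ∑ v ∈ Finset.univ.erase o, |er e κ G μ o v| :=
      Finset.sum_nonneg fun v _ => abs_nonneg _
    have hcs := Finset.sum_mul_sq_le_sq_mul_sq (Finset.univ.erase o)
      (fun v => Real.sqrt (κ v) * ‖G v o‖) (fun v => Real.sqrt (κ v) * ‖β v‖)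
    have ha : ∑ v ∈ Finset.univ.erase o, (Real.sqrt (κ v) * ‖G v o‖) ^ 2 = γ := by
      rw [hγd]
      unfold gam nn
      apply Finset.sum_congr rfl
      intro v _
      rw [mul_pow, Real.sq_sqrt (hκ v)]
    have hb : ∑ v ∈ Finset.univ.erase o, (Real.sqrt (κ v) * ‖β v‖) ^ 2 ≤
        ∑ v, κ v * ‖β v‖ ^ 2 := by
      have : ∀ v, (Real.sqrt (κ v) * ‖β v‖) ^ 2 = κ v * ‖β v‖ ^ 2 := by
        intro v
        rw [mul_pow, Real.sq_sqrt (hκ v)]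
      rw [Finset.sum_congr rfl fun v _ => this v]
      exact Finset.sum_le_sum_of_subset_of_nonneg (Finset.erase_subset _ _)
        fun v _ _ => mul_nonneg (hκ v) (by positivity)
    have hQ : ∑ c, ∑ c', (G (e c) (e c')).im ^ 2 ≤
        (Fintype.card ι : ℝ) * Real.sqrt ((Fintype.card ι : ℝ) * Lc) := by
      have h1 : ∀ c, ∑ c', (G (e c) (e c')).im ^ 2 ≤ Real.sqrt ((Fintype.card ι : ℝ) * Lc) := by
        intro c
        apply Real.le_sqrt_of_sq_le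
        have h3 := Finset.sum_mul_sq_le_sq_mul_sq Finset.univ (fun _ : ι => (1 : ℝ))
          (fun c' => (G (e c) (e c')).im ^ 2)
        simp only [one_mul, one_pow] at h3
        refine h3.trans ?_
        have h5 : ∑ c' : ι, (1 : ℝ) = Fintype.card ι := by simp
        rw [h5]
        apply mul_le_mul_of_nonneg_left _ (Nat.cast_nonneg _)
        refine le_trans ?_ (hG.hL c)
        have h6 : ∑ c', ‖G (e c) (e c')‖ ^ 4 = ∑ v ∈ Finset.univ.map ⟨e, he⟩, ‖G (e c) v‖ ^ 4 := by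
          rw [Finset.sum_map]
          rfl
        have h7 : ∑ c', ((G (e c) (e c')).im ^ 2) ^ 2 ≤ ∑ c', ‖G (e c) (e c')‖ ^ 4 := by
          apply Finset.sum_le_sum
          intro c' _
          have h8 := Complex.abs_im_le_norm (G (e c) (e c'))
          have h9 : (G (e c) (e c')).im ^ 2 ≤ ‖G (e c) (e c')‖ ^ 2 := by
            rw [← sq_abs]
            exact pow_le_pow_left₀ (abs_nonneg _) h8 2
          calc ((G (e c) (e c')).im ^ 2) ^ 2 ≤ (‖G (e c) (e c')‖ ^ 2) ^ 2 :=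
              pow_le_pow_left₀ (by positivity) h9 2
            _ = ‖G (e c) (e c')‖ ^ 4 := by ring
        refine h7.trans ?_
        rw [h6]
        refine Finset.sum_le_sum_of_subset_of_nonneg (fun v hv => ?_)
          fun v _ _ => by positivity
        obtain ⟨c', _, rfl⟩ := Finset.mem_map.1 hv
        exact hG.hR.1 c'
      refine (Finset.sum_le_sum fun c _ => h1 c).trans (le_of_eq ?_)
      rw [Finset.sum_const, Finset.card_univ, nsmul_eq_mul]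
    have hS := gram_le κ (fun c v => G (e c) v) (fun c c' => (G (e c) (e c')).im)
      (fun c c' => hG.hw (e c) (e c')) u _ hQ
    have hU : ∑ c, ‖u c‖ ^ 2 ≤ δ ^ 2 * (γ * (∑ c, AA e κ g G o c) / g₀) := by
      rw [Finset.mul_sum, Finset.sum_div, Finset.mul_sum]
      apply Finset.sum_le_sum
      intro c _
      simp only [hu]
      rw [norm_mul, mul_pow]
      apply mul_le_mul _ _ (by positivity) (by positivity)
      · exact pow_le_pow_left₀ (norm_nonneg _) (hG.hμ c).1 2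
      · have h1 := hn c
        rw [div_le_iff₀ hγ] at h1
        calc ‖G (e c) o‖ ^ 2 ≤ AA e κ g G o c / g₀ * γ := h1
          _ = γ * AA e κ g G o c / g₀ := by ring
    set Q := Real.sqrt ((Fintype.card ι : ℝ) * Real.sqrt ((Fintype.card ι : ℝ) * Lc)) with hQd
    have hQ0 : 0 ≤ Q := Real.sqrt_nonneg _
    calc (∑ v ∈ Finset.univ.erase o, |er e κ G μ o v|) ^ 2
        ≤ (2 / γ * ∑ v ∈ Finset.univ.erase o,
            (Real.sqrt (κ v) * ‖G v o‖) * (Real.sqrt (κ v) * ‖β v‖)) ^ 2 :=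
          pow_le_pow_left₀ h0 hsum 2
      _ = (2 / γ) ^ 2 * (∑ v ∈ Finset.univ.erase o,
            (Real.sqrt (κ v) * ‖G v o‖) * (Real.sqrt (κ v) * ‖β v‖)) ^ 2 := by rw [mul_pow]
      _ ≤ (2 / γ) ^ 2 * (γ * ∑ v, κ v * ‖β v‖ ^ 2) := by
          apply mul_le_mul_of_nonneg_left _ (by positivity)
          refine hcs.trans ?_
          rw [ha]
          exact mul_le_mul_of_nonneg_left hb hγ.le
      _ ≤ (2 / γ) ^ 2 * (γ * (Q * (δ ^ 2 * (γ * (∑ c, AA e κ g G o c) / g₀)))) := by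
          apply mul_le_mul_of_nonneg_left _ (by positivity)
          apply mul_le_mul_of_nonneg_left _ hγ.le
          exact hS.trans (mul_le_mul_of_nonneg_left hU hQ0)
      _ = 4 * Q * δ ^ 2 / g₀ * ∑ c, AA e κ g G o c := by
          field_simp
          ring

end Pool.Agent.KIL.H38K
end
end -- Pool.Agent.Helper38_KIL.KNB

section -- Pool.Agent.Helper49_ATT.CUP

/-!
# ATT, row CUP (helper49): the cut off
-/

set_option autoImplicit false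

noncomputable section

namespace Pool.Agent.ATT.H49

open Pool.Agent.LE.QF

theorem cu_eq : (Pool.Agent.KIL.cu) = H70.cu := rfl

theorem cup : CupStmt := by
  unfold CupStmt
  rw [cu_eq]
  refine ⟨H70.cu_contDiff, ?_, ?_, ?_, ?_⟩
  · intro x y hxy
    unfold H70.cu
    have h1 : max (1 - y) 0 ≤ max (1 - x) 0 := max_le_max (by linarith) le_rfl
    have h2 := pow_le_pow_left₀ (le_max_right (1 - y) 0) h1 3
    linarith
  · intro u hu
    exact ⟨H70.cu_nonneg hu, H70.cu_le_one u, H70.cu_le hu⟩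
  · intro u hu
    exact H70.cu_eq_one hu
  · intro u hu hu1
    exact H70.le_cu hu hu1.le

end Pool.Agent.ATT.H49
end
end -- Pool.Agent.Helper49_ATT.CUP

section -- Pool.Agent.Helper75_ATT.GUF

/-!
# GUF: the functional in a run (helper75)
-/

set_option autoImplicit false

open MeasureTheory ProbabilityTheory Function Filter

open scoped ENNReal BigOperators Topology NNReal Matrix

noncomputable section

namespace Pool.Agent.ATT.H75

open Pool.Agent.LE.QF (HJ HM gG LL dC)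
open Pool.Agent.KIL (cu)

theorem cu_eq : cu = Pool.Agent.LE.QF.H70.cu := rfl

theorem guf (jal : Pool.Agent.LE.QF.JalStmt) (flw : Pool.Agent.LE.QF.FlwStmt) : GufStmt := by
  intro ι _ _ T u hT hu
  obtain ⟨F, hF⟩ : ∃ F : ℝ × (ι → ℝ) → ℝ, F = fun r => cu (u r) := ⟨_, rfl⟩
  have hkey : ∀ q : ℝ × (ι → ℝ), 0 ≤ q.1 → q.1 ≤ T → ContDiffAt ℝ 2 F q ∧ 0 ≤ F q ∧ F q ≤ 1 ∧
      LL F q ≤ (fun _ : ℝ => (0 : ℝ)) q.1 * F q + (fun _ : ℝ => (0 : ℝ)) q.1 := by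
    intro q h0 h1
    obtain ⟨hu0, hs, hl⟩ := hu q h0 h1
    have hF0 : 0 ≤ F q := by rw [hF, cu_eq]; exact Pool.Agent.LE.QF.H70.cu_nonneg hu0
    have hF1 : F q ≤ 1 := by rw [hF, cu_eq]; exact Pool.Agent.LE.QF.H70.cu_le_one _
    have h2 : HJ u q (u q) (fun c => dC c u q) (LL u q) := ⟨hs, rfl, fun _ => rfl, rfl⟩
    have h3 := ((jal ι ℝ q).2.2.2.2.1 u (u q) (LL u q) _ h2).2 cu
      Pool.Agent.LE.QF.H70.cu_contDiff.contDiffAt
    have h4 : LL F q = deriv cu (u q) * LL u q +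
        deriv (deriv cu) (u q) / 2 * ∑ c, dC c u q ^ 2 := by
      rw [hF]
      exact h3.ge
    have h3' : ContDiffAt ℝ 2 F q := by rw [hF]; exact h3.sm
    refine ⟨h3', hF0, hF1, ?_⟩
    rw [h4, cu_eq, Pool.Agent.LE.QF.H70.cu_deriv2, Pool.Agent.LE.QF.H70.cu_deriv]
    have h5 : 0 ≤ ∑ c, dC c u q ^ 2 := Finset.sum_nonneg fun c _ => sq_nonneg _
    rcases le_or_gt 1 (u q) with h6 | h6
    · have h7 : max (1 - u q) 0 = 0 := max_eq_right (by linarith only [h6])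
      simp only [h7]
      have e : (3 : ℝ) * 0 ^ 2 * LL u q + -(6 * 0) / 2 * ∑ c, dC c u q ^ 2 = 0 := by ring
      rw [e]
      simp
    · have h7 : max (1 - u q) 0 = 1 - u q := max_eq_left (by linarith only [h6])
      simp only [h7]
      have h8 := hl h6
      have h9 : 3 * (1 - u q) ^ 2 * LL u q ≤ 0 :=
        mul_nonpos_of_nonneg_of_nonpos (by positivity) h8
      have h10 : 0 ≤ 6 * (1 - u q) / 2 * ∑ c, dC c u q ^ 2 :=
        mul_nonneg (by linarith only [h6]) h5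
      have h11 : -(6 * (1 - u q)) / 2 * ∑ c, dC c u q ^ 2 ≤ 0 := by
        have e : -(6 * (1 - u q)) / 2 * ∑ c, dC c u q ^ 2 =
          -(6 * (1 - u q) / 2 * ∑ c, dC c u q ^ 2) := by ring
        rw [e]
        linarith only [h10]
      have h12 : (0 : ℝ) * F q + 0 = 0 := by ring
      rw [h12]
      linarith only [h9, h10]
  have h1 := flw ι T (fun _ => 0) (fun _ => 0) F hT continuous_const continuous_const
    (fun _ => ⟨le_rfl, le_rfl⟩) hkey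
  have h2 : Real.exp (∫ _ in (0 : ℝ)..T, (0 : ℝ)) * (F (0, 0) + ∫ _ in (0 : ℝ)..T, (0 : ℝ)) =
      F (0, 0) := by
    rw [intervalIntegral.integral_zero, Real.exp_zero, one_mul, add_zero]
  rw [h2, hF] at h1
  exact h1

end Pool.Agent.ATT.H75
end
end -- Pool.Agent.Helper75_ATT.GUF

section -- Pool.Agent.Helper77_KIL.UF3

/-!
# The pre-kills, row UF3 (helper77): the functional with a second function
-/

set_option autoImplicit false

open MeasureTheory ProbabilityTheory Function Filter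

open scoped ENNReal BigOperators Topology NNReal

noncomputable section

namespace Pool.Agent.KIL.H77

open Pool.Agent.LE.QF (HJ LL dC JalStmt FlwStmt)
open Pool.Agent.LE.QF.H70 (cu_contDiff cu_nonneg cu_le_one cu_eq_one le_cu cu_le cu_deriv
  cu_deriv2 LL_const_near)

theorem core {ι : Type} [Fintype ι] (U P : ι → ℝ) (w u φ LU LP ρ a b b₁ B C₁ g : ℝ)
    (hC : 0 < C₁) (hw : 0 < w) (hw1 : w ≤ 1) (hu0 : 0 ≤ u) (ha : 0 ≤ a) (hb : 0 ≤ b)
    (hb1 : 0 ≤ b₁) (hφ0 : 0 ≤ φ) (hφ1 : φ ≤ 1) (hB : 1 + 2 * C₁ ≤ B) (hg : u ≤ g)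
    (hLU : LU ≤ a * u + b) (hLP : LP ≤ -ρ + b₁) (hS : ∑ c, P c ^ 2 ≤ C₁ * ρ) :
    w ^ 3 * LP + (B - φ) * (3 * w ^ 2 * LU + -(6 * w) / 2 * ∑ c, U c ^ 2) -
      3 * w ^ 2 * ∑ c, U c * P c - 3 * a * B * g ≤ b₁ + 3 * B * b := by
  have hSU : 0 ≤ ∑ c, U c ^ 2 := Finset.sum_nonneg fun c _ => sq_nonneg _
  have h1 : 0 ≤ ∑ c, (w / C₁) * (w * P c + (3 / 2) * C₁ * U c) ^ 2 :=
    Finset.sum_nonneg fun c _ => mul_nonneg (div_nonneg hw.le hC.le) (sq_nonneg _)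
  have h2 : ∑ c, (w / C₁) * (w * P c + (3 / 2) * C₁ * U c) ^ 2 =
      (w ^ 3 / C₁) * ∑ c, P c ^ 2 + 3 * w ^ 2 * ∑ c, U c * P c +
        (9 / 4) * C₁ * w * ∑ c, U c ^ 2 := by
    rw [Finset.mul_sum, Finset.mul_sum, Finset.mul_sum, ← Finset.sum_add_distrib,
      ← Finset.sum_add_distrib]
    refine Finset.sum_congr rfl fun c _ => ?_
    field_simp
    ring
  rw [h2] at h1
  have hw3 : 0 ≤ w ^ 3 := by positivity
  have h3 : (w ^ 3 / C₁) * ∑ c, P c ^ 2 ≤ w ^ 3 * ρ := by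
    calc (w ^ 3 / C₁) * ∑ c, P c ^ 2 ≤ (w ^ 3 / C₁) * (C₁ * ρ) :=
          mul_le_mul_of_nonneg_left hS (by positivity)
      _ = w ^ 3 * ρ := by field_simp
  have h4 : w ^ 3 * LP ≤ -(w ^ 3 * ρ) + b₁ := by
    have h5 := mul_le_mul_of_nonneg_left hLP hw3
    have h6 : w ^ 3 ≤ 1 := pow_le_one₀ hw.le hw1
    have h7 := mul_le_mul_of_nonneg_right h6 hb1
    linarith only [h5, h7]
  have hBφ : 2 * C₁ ≤ B - φ := by linarith only [hφ1, hB]
  have hBφ0 : 0 ≤ B - φ := by linarith only [hC, hφ1, hB]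
  have hB0 : 0 ≤ B := by linarith only [hC, hB]
  have h5 : (B - φ) * (3 * w ^ 2 * LU) ≤ 3 * B * (a * g + b) := by
    have h6 : 3 * w ^ 2 * LU ≤ 3 * w ^ 2 * (a * u + b) :=
      mul_le_mul_of_nonneg_left hLU (by positivity)
    have h7 : 0 ≤ a * u + b := by positivity
    have h8 : w ^ 2 ≤ 1 := pow_le_one₀ hw.le hw1
    have h9 : 3 * w ^ 2 * (a * u + b) ≤ 3 * (a * g + b) := by
      have h10 : w ^ 2 * (a * u + b) ≤ 1 * (a * u + b) := mul_le_mul_of_nonneg_right h8 h7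
      have h11 := mul_le_mul_of_nonneg_left hg ha
      linarith only [h10, h11]
    have h10 : 0 ≤ 3 * w ^ 2 * (a * u + b) := by positivity
    calc (B - φ) * (3 * w ^ 2 * LU) ≤ (B - φ) * (3 * w ^ 2 * (a * u + b)) :=
          mul_le_mul_of_nonneg_left h6 hBφ0
      _ ≤ B * (3 * w ^ 2 * (a * u + b)) := mul_le_mul_of_nonneg_right (by linarith only [hφ0]) h10
      _ ≤ B * (3 * (a * g + b)) := mul_le_mul_of_nonneg_left h9 hB0
      _ = 3 * B * (a * g + b) := by ring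
  have h6 : 2 * C₁ * (3 * w * ∑ c, U c ^ 2) ≤ (B - φ) * (3 * w * ∑ c, U c ^ 2) :=
    mul_le_mul_of_nonneg_right hBφ (by positivity)
  have h7 : 0 ≤ C₁ * w * ∑ c, U c ^ 2 := by positivity
  have e1 : (B - φ) * (3 * w ^ 2 * LU + -(6 * w) / 2 * ∑ c, U c ^ 2) =
      (B - φ) * (3 * w ^ 2 * LU) - (B - φ) * (3 * w * ∑ c, U c ^ 2) := by ring
  rw [e1]
  nlinarith only [h1, h3, h4, h5, h6, h7]

/-- UF3 -/
theorem uf3 (jal : JalStmt) (flw : FlwStmt) : Uf3Stmt := by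
  intro ι _ _ T C₁ B b b₁ u Φ ρ hT hC hB hb hb₁ hab hu
  have hBpos : 0 < B := by linarith only [hC, hB]
  obtain ⟨κ, hκ⟩ : ∃ κ : ℝ, κ = B⁻¹ := ⟨_, rfl⟩
  have hκ0 : 0 < κ := by rw [hκ]; exact inv_pos.2 hBpos
  have hκB : κ * B = 1 := by rw [hκ]; exact inv_mul_cancel₀ hBpos.ne'
  obtain ⟨F, hF⟩ : ∃ F : ℝ × (ι → ℝ) → ℝ,
      F = fun r => κ * ((1 - cu (u r)) * Φ r + B * cu (u r)) := ⟨_, rfl⟩
  have hkey : ∀ q : ℝ × (ι → ℝ), 0 ≤ q.1 → q.1 ≤ T → ContDiffAt ℝ 2 F q ∧ 0 ≤ F q ∧ F q ≤ 1 ∧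
      LL F q ≤ 0 * F q + κ * (b₁ q.1 + 3 * B * b q.1) := by
    intro q h0 h1
    obtain ⟨hu0, hs, hΦs, hΦ0, hΦ1, hl⟩ := hu q h0 h1
    obtain ⟨hbq, hb1q⟩ := hab q.1
    have hg0 : 0 ≤ cu (u q) := cu_nonneg hu0
    have hg1 : cu (u q) ≤ 1 := cu_le_one (u q)
    have hF0 : 0 ≤ F q := by
      rw [hF]
      have h2 : 0 ≤ (1 - cu (u q)) * Φ q := mul_nonneg (by linarith only [hg1]) hΦ0
      have h3 : 0 ≤ B * cu (u q) := mul_nonneg hBpos.le hg0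
      exact mul_nonneg hκ0.le (by linarith only [h2, h3])
    have hF1 : F q ≤ 1 := by
      refine le_trans ?_ hκB.le
      rw [hF]
      refine mul_le_mul_of_nonneg_left ?_ hκ0.le
      have h2 : (1 - cu (u q)) * Φ q ≤ (1 - cu (u q)) * B :=
        mul_le_mul_of_nonneg_left (by linarith only [hC, hB, hΦ1]) (by linarith)
      linarith
    have hr0 : 0 ≤ κ * (b₁ q.1 + 3 * B * b q.1) := by positivity
    have hc := (jal ι ℝ q).1 κ
    have hBj := (jal ι ℝ q).1 B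
    have h2 : HJ u q (u q) (fun c => dC c u q) (LL u q) := ⟨hs, rfl, fun _ => rfl, rfl⟩
    have h3 := ((jal ι ℝ q).2.2.2.2.1 u (u q) (LL u q) _ h2).2
      Pool.Agent.LE.QF.H70.cu cu_contDiff.contDiffAt
    have h4 : HJ Φ q (Φ q) (fun c => dC c Φ q) (LL Φ q) := ⟨hΦs, rfl, fun _ => rfl, rfl⟩
    have h5 := ((jal ι ℝ q).2.2.1 _ _ _ _ _ _ _ _ ((jal ι ℝ q).1 1) h3).2.1
    have h6 := ((jal ι ℝ q).2.2.1 _ _ _ _ _ _ _ _ h5 h4).2.2
    have h7 := ((jal ι ℝ q).2.2.1 _ _ _ _ _ _ _ _ hBj h3).2.2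
    have h8 := ((jal ι ℝ q).2.2.1 _ _ _ _ _ _ _ _ h6 h7).1
    have h9 := ((jal ι ℝ q).2.2.1 _ _ _ _ _ _ _ _ hc h8).2.2
    have hF' : F = fun r => κ * ((1 - Pool.Agent.LE.QF.H70.cu (u r)) * Φ r +
      B * Pool.Agent.LE.QF.H70.cu (u r)) := hF
    have h10 : ContDiffAt ℝ 2 F q := by rw [hF']; exact h9.sm
    refine ⟨h10, hF0, hF1, ?_⟩
    have h11 := h9.ge
    rw [← hF'] at h11
    rw [h11, cu_deriv2, cu_deriv]
    dsimp only
    have e0 : ∀ f : ι → ℝ, ∑ c : ι, (0 : ℝ) * f c = 0 := by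
      intro f
      simp
    rw [e0, e0]
    rcases le_or_gt 1 (u q) with hu1 | hu1
    · have hmx : max (1 - u q) 0 = 0 := max_eq_right (by linarith only [hu1])
      rw [hmx, cu_eq_one hu1]
      have e2 : ∑ c : ι, (0 - 3 * (0 : ℝ) ^ 2 * dC c u q) * dC c Φ q = 0 := by
        refine Finset.sum_eq_zero fun c _ => ?_
        ring
      rw [e2]
      linarith only [hr0]
    · have hmx : max (1 - u q) 0 = 1 - u q := max_eq_left (by linarith only [hu1])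
      rw [hmx]
      obtain ⟨hl1, hl2, hl3⟩ := hl hu1
      have h12 := core (fun c => dC c u q) (fun c => dC c Φ q) (1 - u q) (u q) (Φ q) (LL u q)
        (LL Φ q) (ρ q) 0 (b q.1) (b₁ q.1) B C₁ (cu (u q)) hC (by linarith only [hu1])
        (by linarith only [hu0]) hu0 le_rfl hbq hb1q hΦ0 hΦ1 hB (le_cu hu0 hu1.le) (by linarith only [hl1]) hl2 hl3
      have e2 : ∑ c : ι, (0 - 3 * (1 - u q) ^ 2 * dC c u q) * dC c Φ q =
          -(3 * (1 - u q) ^ 2 * ∑ c, dC c u q * dC c Φ q) := by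
        rw [Finset.mul_sum, ← Finset.sum_neg_distrib]
        refine Finset.sum_congr rfl fun c _ => ?_
        ring
      rw [e2]
      have e3 : 1 - Pool.Agent.LE.QF.H70.cu (u q) = (1 - u q) ^ 3 := by
        unfold Pool.Agent.LE.QF.H70.cu
        rw [hmx]
        ring
      rw [e3]
      have h13 := mul_le_mul_of_nonneg_left h12 hκ0.le
      linarith only [h13]
  have h1 := flw ι T (fun _ => 0) (fun t => κ * (b₁ t + 3 * B * b t)) F hT continuous_const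
    (by fun_prop) (fun t => ⟨le_rfl, by
      have h3 := hab t
      exact mul_nonneg hκ0.le (by nlinarith only [mul_nonneg hBpos.le h3.1, hBpos, h3])⟩) hkey
  rw [intervalIntegral.integral_zero, Real.exp_zero, one_mul,
    intervalIntegral.integral_const_mul] at h1
  have hcb : Continuous fun t => 3 * B * b t := continuous_const.mul hb
  rw [intervalIntegral.integral_add (hb₁.intervalIntegrable _ _) (hcb.intervalIntegrable _ _),
    intervalIntegral.integral_const_mul, hF] at h1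
  rw [integral_const_mul, ← mul_add] at h1
  have h2 := le_of_mul_le_mul_left h1 hκ0
  linarith only [h2]

end Pool.Agent.KIL.H77
end
end -- Pool.Agent.Helper77_KIL.UF3
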