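import Pool.Agent.Helper12_MEB.B102

/-!
# Merged copies (generated) of the modules

* `Pool.Agent.Helper77_LQF.JAL`
* `Pool.Agent.Helper18_ATT.UJT`
* `Pool.Agent.Helper44_KIL.KLR`
* `Pool.Agent.Helper84_KIL.KJN`
* `Pool.Agent.Helper97_ANR.MAS`
* `Pool.Agent.Helper97_ATT.MAJ`
-/

set_option autoImplicit false

section -- Pool.Agent.Helper77_LQF.JAL

/-!
LQF row JAL: algebra of jets.
-/

set_option autoImplicit false

open MeasureTheory ProbabilityTheory Function Filter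

open scoped ENNReal BigOperators Topology NNReal ComplexOrder Matrix

noncomputable section

namespace Pool.Agent.LE.QF.H77

open Pool.Agent.LE.QF

section gen

variable {ι : Type} [Fintype ι] [DecidableEq ι] {E : Type} [NormedAddCommGroup E]
  [NormedSpace ℝ E] {q : ℝ × (ι → ℝ)}

omit [Fintype ι] in
theorem dC_ev {F H : ℝ × (ι → ℝ) → E} (h : F =ᶠ[𝓝 q] H) (c : ι) : dC c F =ᶠ[𝓝 q] dC c H := by
  have h1 := h.fderiv (𝕜 := ℝ)
  filter_upwards [h1] with r hr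
  unfold dC
  rw [hr]

theorem LL_ev {F H : ℝ × (ι → ℝ) → E} (h : F =ᶠ[𝓝 q] H) : LL F q = LL H q := by
  unfold LL
  rw [h.fderiv_eq]
  have h1 : ∑ c, dC c (dC c F) q = ∑ c, dC c (dC c H) q := by
    apply Finset.sum_congr rfl
    intro c _
    exact (dC_ev (dC_ev h c) c).eq_of_nhds
  rw [h1]

theorem mk {F : ℝ × (ι → ℝ) → E} {v l : E} {g : ι → E} (D : ι → ℝ × (ι → ℝ) → E)
    (sm : ContDiffAt ℝ 2 F q) (vl : F q = v) (hD : ∀ c, dC c F =ᶠ[𝓝 q] D c)
    (hg : ∀ c, D c q = g c)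
    (hl : (1 / 2 : ℝ) • ∑ c, dC c (D c) q + fderiv ℝ F q (1, 0) = l) : HJ F q v g l := by
  refine ⟨sm, vl, fun c => ?_, ?_⟩
  · rw [(hD c).eq_of_nhds, hg]
  · rw [← hl]
    unfold LL
    have h1 : ∑ c, dC c (dC c F) q = ∑ c, dC c (D c) q := by
      apply Finset.sum_congr rfl
      intro c _
      exact (dC_ev (hD c) c).eq_of_nhds
    rw [h1]

omit [DecidableEq ι] in
theorem ev_diff {F : ℝ × (ι → ℝ) → E} (h : ContDiffAt ℝ 2 F q) :
    ∀ᶠ r in 𝓝 q, DifferentiableAt ℝ F r := by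
  filter_upwards [h.eventually (by decide)] with r hr
  exact hr.differentiableAt (by decide)

theorem dC_diff {F : ℝ × (ι → ℝ) → E} (h : ContDiffAt ℝ 2 F q) (c : ι) :
    DifferentiableAt ℝ (dC c F) q := by
  have h1 : ContDiffAt ℝ 1 (fderiv ℝ F) q := h.fderiv_right (by norm_num)
  have h2 : DifferentiableAt ℝ (fderiv ℝ F) q := h1.differentiableAt (by decide)
  exact h2.clm_apply (differentiableAt_const _)

theorem germ {F H : ℝ × (ι → ℝ) → E} {v v' l l' : E} {g g' : ι → E} (hF : HJ F q v g l)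
    (hH : HJ H q v' g' l') (h : F =ᶠ[𝓝 q] H) : v = v' ∧ g = g' ∧ l = l' := by
  refine ⟨?_, ?_, ?_⟩
  · rw [← hF.vl, ← hH.vl]
    exact h.eq_of_nhds
  · funext c
    rw [← hF.gr, ← hH.gr]
    exact (dC_ev h c).eq_of_nhds
  · rw [← hF.ge, ← hH.ge]
    exact LL_ev h

theorem jconst (v : E) : HJ (fun _ : ℝ × (ι → ℝ) => v) q v (fun _ => 0) 0 := by
  apply mk (fun _ _ => 0)
  · exact contDiffAt_const
  · rfl
  · intro c
    filter_upwards with r
    unfold dC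
    simp
  · intro c
    rfl
  · have h1 : ∀ c : ι, dC c (fun _ : ℝ × (ι → ℝ) => (0 : E)) q = 0 := by
      intro c
      unfold dC
      simp
    simp [h1]

theorem jadd {F H : ℝ × (ι → ℝ) → E} {v v' l l' : E} {g g' : ι → E} (hF : HJ F q v g l)
    (hH : HJ H q v' g' l') :
    HJ (fun r => F r + H r) q (v + v') (fun c => g c + g' c) (l + l') := by
  apply mk (fun c r => dC c F r + dC c H r)
  · exact hF.sm.add hH.sm
  · show F q + H q = v + v'
    rw [hF.vl, hH.vl]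
  · intro c
    filter_upwards [ev_diff hF.sm, ev_diff hH.sm] with r h1 h2
    unfold dC
    rw [fderiv_fun_add h1 h2]
    rfl
  · intro c
    show dC c F q + dC c H q = g c + g' c
    rw [hF.gr, hH.gr]
  · rw [fderiv_fun_add (ev_diff hF.sm).self_of_nhds (ev_diff hH.sm).self_of_nhds]
    have h1 : ∀ c, dC c (fun r => dC c F r + dC c H r) q = dC c (dC c F) q + dC c (dC c H) q := by
      intro c
      show fderiv ℝ (fun r => dC c F r + dC c H r) q _ = _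
      rw [fderiv_fun_add (dC_diff hF.sm c) (dC_diff hH.sm c)]
      rfl
    simp only [h1, Finset.sum_add_distrib, smul_add]
    rw [← hF.ge, ← hH.ge]
    unfold LL
    simp only [_root_.add_apply]
    abel

theorem jlin {E' : Type} [NormedAddCommGroup E'] [NormedSpace ℝ E'] (A : E →L[ℝ] E')
    {F : ℝ × (ι → ℝ) → E} {v l : E} {g : ι → E} (hF : HJ F q v g l) :
    HJ (fun r => A (F r)) q (A v) (fun c => A (g c)) (A l) := by
  have key : ∀ (F : ℝ × (ι → ℝ) → E) (r : ℝ × (ι → ℝ)), DifferentiableAt ℝ F r →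
      ∀ w, fderiv ℝ (fun r => A (F r)) r w = A (fderiv ℝ F r w) := by
    intro F r h w
    have h1 : HasFDerivAt (fun r => A (F r)) (A.comp (fderiv ℝ F r)) r :=
      A.hasFDerivAt.comp r h.hasFDerivAt
    rw [h1.fderiv]
    rfl
  apply mk (fun c r => A (dC c F r))
  · exact A.contDiff.contDiffAt.comp q hF.sm
  · show A (F q) = A v
    rw [hF.vl]
  · intro c
    filter_upwards [ev_diff hF.sm] with r h1
    exact key F r h1 _
  · intro c
    show A (dC c F q) = A (g c)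
    rw [hF.gr]
  · have h1 : ∀ c, dC c (fun r => A (dC c F r)) q = A (dC c (dC c F) q) := by
      intro c
      exact key (dC c F) q (dC_diff hF.sm c) _
    simp only [h1]
    rw [key F q (ev_diff hF.sm).self_of_nhds, ← map_sum, ← map_smul, ← map_add, ← hF.ge]
    rfl

theorem jsum {κ : Type} (s : Finset κ) (F : κ → ℝ × (ι → ℝ) → E) (v l : κ → E) (g : κ → ι → E)
    (h : ∀ k ∈ s, HJ (F k) q (v k) (g k) (l k)) :
    HJ (fun r => ∑ k ∈ s, F k r) q (∑ k ∈ s, v k) (fun c => ∑ k ∈ s, g k c)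
      (∑ k ∈ s, l k) := by
  classical
  induction s using Finset.induction_on with
  | empty =>
    simp only [Finset.sum_empty]
    exact jconst 0
  | insert a s ha ih =>
    have h1 := jadd (h a (Finset.mem_insert_self a s))
      (ih fun k hk => h k (Finset.mem_insert_of_mem hk))
    simp only [Finset.sum_insert ha]
    exact h1

theorem jtime (f : ℝ → E) (hf : ContDiffAt ℝ 2 f q.1) :
    HJ (fun r : ℝ × (ι → ℝ) => f r.1) q (f q.1) (fun _ => 0) (deriv f q.1) := by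
  have hsm : ContDiffAt ℝ 2 (fun r : ℝ × (ι → ℝ) => f r.1) q :=
    ContDiffAt.comp q hf contDiffAt_fst
  have key : ∀ r : ℝ × (ι → ℝ), DifferentiableAt ℝ f r.1 →
      ∀ w, fderiv ℝ (fun r : ℝ × (ι → ℝ) => f r.1) r w = w.1 • deriv f r.1 := by
    intro r h w
    have h1 : HasFDerivAt (fun r : ℝ × (ι → ℝ) => f r.1)
        ((fderiv ℝ f r.1).comp (ContinuousLinearMap.fst ℝ ℝ (ι → ℝ))) r :=
      h.hasFDerivAt.comp r hasFDerivAt_fst
    rw [h1.fderiv]
    show fderiv ℝ f r.1 w.1 = _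
    have h2 : deriv f r.1 = fderiv ℝ f r.1 1 := rfl
    rw [h2, ← map_smul]
    simp
  have hev : ∀ᶠ r in 𝓝 q, DifferentiableAt ℝ f r.1 := by
    have h1 : ∀ᶠ t in 𝓝 q.1, DifferentiableAt ℝ f t := by
      filter_upwards [hf.eventually (by decide)] with r hr
      exact hr.differentiableAt (by decide)
    exact continuousAt_fst.eventually h1
  apply mk (fun _ _ => 0)
  · exact hsm
  · rfl
  · intro c
    filter_upwards [hev] with r hr
    unfold dC
    rw [key r hr]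
    simp
  · intro c
    rfl
  · rw [key q hev.self_of_nhds]
    have h1 : ∀ c : ι, dC c (fun _ : ℝ × (ι → ℝ) => (0 : E)) q = 0 := by
      intro c
      unfold dC
      simp
    simp [h1]

end gen

section field

variable {ι : Type} [Fintype ι] [DecidableEq ι] {𝕜 : Type} [RCLike 𝕜] {q : ℝ × (ι → ℝ)}

theorem jmul {F H : ℝ × (ι → ℝ) → 𝕜} {v v' l l' : 𝕜} {g g' : ι → 𝕜} (hF : HJ F q v g l)
    (hH : HJ H q v' g' l') :
    HJ (fun r => F r * H r) q (v * v') (fun c => v * g' c + g c * v')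
      (v * l' + l * v' + ∑ c, g c * g' c) := by
  have key : ∀ (F H : ℝ × (ι → ℝ) → 𝕜) (r : ℝ × (ι → ℝ)), DifferentiableAt ℝ F r →
      DifferentiableAt ℝ H r → ∀ w, fderiv ℝ (fun r => F r * H r) r w =
        F r * fderiv ℝ H r w + fderiv ℝ F r w * H r := by
    intro F H r h1 h2 w
    rw [fderiv_fun_mul h1 h2]
    simp only [_root_.add_apply, _root_.smul_apply, smul_eq_mul]
    ring
  apply mk (fun c r => F r * dC c H r + dC c F r * H r)
  · exact hF.sm.mul hH.sm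
  · show F q * H q = v * v'
    rw [hF.vl, hH.vl]
  · intro c
    filter_upwards [ev_diff hF.sm, ev_diff hH.sm] with r h1 h2
    exact key F H r h1 h2 _
  · intro c
    show F q * dC c H q + dC c F q * H q = _
    rw [hF.gr, hH.gr, hF.vl, hH.vl]
  · have dF := (ev_diff hF.sm).self_of_nhds
    have dH := (ev_diff hH.sm).self_of_nhds
    have h1 : ∀ c, dC c (fun r => F r * dC c H r + dC c F r * H r) q =
        v * dC c (dC c H) q + dC c (dC c F) q * v' + 2 * (g c * g' c) := by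
      intro c
      have d1 := dC_diff hF.sm c
      have d2 := dC_diff hH.sm c
      show fderiv ℝ (fun r => F r * dC c H r + dC c F r * H r) q _ = _
      rw [fderiv_fun_add (dF.fun_mul d2) (d1.fun_mul dH)]
      rw [_root_.add_apply, key F (dC c H) q dF d2, key (dC c F) H q d1 dH]
      have e1 : fderiv ℝ F q (0, Pi.single c 1) = g c := hF.gr c
      have e2 : fderiv ℝ H q (0, Pi.single c 1) = g' c := hH.gr c
      rw [e1, e2, hF.vl, hH.vl, hF.gr, hH.gr]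
      unfold dC
      ring
    simp only [h1]
    rw [key F H q dF dH, ← hF.ge, ← hH.ge, hF.vl, hH.vl]
    unfold LL
    rw [Finset.sum_add_distrib, Finset.sum_add_distrib, ← Finset.mul_sum, ← Finset.sum_mul,
      ← Finset.mul_sum]
    simp only [RCLike.real_smul_eq_coe_mul]
    push_cast
    ring

theorem jcoord (c : ι) : HJ (fun r : ℝ × (ι → ℝ) => ((r.2 c : ℝ) : 𝕜)) q ((q.2 c : ℝ) : 𝕜)
    (fun c' => if c' = c then 1 else 0) 0 := by
  have h0 : HJ (fun r : ℝ × (ι → ℝ) => r.2 c) q (q.2 c)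
      (fun c' => if c' = c then (1 : ℝ) else 0) 0 := by
    have key : ∀ (r w : ℝ × (ι → ℝ)), fderiv ℝ (fun r : ℝ × (ι → ℝ) => r.2 c) r w = w.2 c := by
      intro r w
      have h1 : HasFDerivAt (fun r : ℝ × (ι → ℝ) => r.2 c)
          ((ContinuousLinearMap.proj (R := ℝ) (φ := fun _ : ι => ℝ) c).comp
            (ContinuousLinearMap.snd ℝ ℝ (ι → ℝ))) r :=
        ((ContinuousLinearMap.proj (R := ℝ) (φ := fun _ : ι => ℝ) c).comp
            (ContinuousLinearMap.snd ℝ ℝ (ι → ℝ))).hasFDerivAt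
      rw [h1.fderiv]
      rfl
    apply mk (fun c' _ => if c' = c then (1 : ℝ) else 0)
    · exact ((ContinuousLinearMap.proj (R := ℝ) (φ := fun _ : ι => ℝ) c).comp
            (ContinuousLinearMap.snd ℝ ℝ (ι → ℝ))).contDiff.contDiffAt
    · rfl
    · intro c'
      filter_upwards with r
      unfold dC
      rw [key]
      by_cases h : c' = c
      · subst h
        simp
      · rw [if_neg h]
        simp [Pi.single_eq_of_ne (Ne.symm h)]
    · intro c'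
      rfl
    · have h1 : ∀ c' : ι, dC c' (fun _ : ℝ × (ι → ℝ) => if c' = c then (1 : ℝ) else 0) q = 0 := by
        intro c
        unfold dC
        simp
      rw [key]
      simp [h1]
  have h1 := jlin (RCLike.ofRealCLM (K := 𝕜)) h0
  have h2 : (fun c' => (RCLike.ofRealCLM (K := 𝕜)) (if c' = c then (1 : ℝ) else 0)) =
      (fun c' : ι => if c' = c then (1 : 𝕜) else 0) := by
    funext c'
    split_ifs <;> simp
  rw [h2, map_zero] at h1
  exact h1

theorem jcomp {F : ℝ × (ι → ℝ) → ℝ} {v l : ℝ} {g : ι → ℝ} (hF : HJ F q v g l) (f : ℝ → ℝ)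
    (hf : ContDiffAt ℝ 2 f v) :
    HJ (fun r => f (F r)) q (f v) (fun c => deriv f v * g c)
      (deriv f v * l + deriv (deriv f) v / 2 * ∑ c, g c ^ 2) := by
  have key : ∀ (f : ℝ → ℝ) (F : ℝ × (ι → ℝ) → ℝ) (r : ℝ × (ι → ℝ)), DifferentiableAt ℝ f (F r) →
      DifferentiableAt ℝ F r → ∀ w, fderiv ℝ (fun r => f (F r)) r w =
        deriv f (F r) * fderiv ℝ F r w := by
    intro f F r h1 h2 w
    have h3 : HasFDerivAt (fun r => f (F r)) ((fderiv ℝ f (F r)).comp (fderiv ℝ F r)) r :=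
      h1.hasFDerivAt.comp r h2.hasFDerivAt
    rw [h3.fderiv]
    show fderiv ℝ f (F r) (fderiv ℝ F r w) = _
    have h4 : deriv f (F r) = fderiv ℝ f (F r) 1 := rfl
    rw [h4, mul_comm, ← smul_eq_mul, ← map_smul]
    simp
  have hf' : ContDiffAt ℝ 2 f (F q) := by
    rw [hF.vl]
    exact hf
  have hdf : ∀ᶠ t in 𝓝 (F q), DifferentiableAt ℝ f t := by
    filter_upwards [hf'.eventually (by decide)] with r hr
    exact hr.differentiableAt (by decide)
  have hdf2 : DifferentiableAt ℝ (deriv f) (F q) := by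
    have h1 : ContDiffAt ℝ 1 (fderiv ℝ f) (F q) := hf'.fderiv_right (by norm_num)
    have h2 : DifferentiableAt ℝ (fderiv ℝ f) (F q) := h1.differentiableAt (by decide)
    have h3 : DifferentiableAt ℝ (fun t => fderiv ℝ f t 1) (F q) :=
      h2.clm_apply (differentiableAt_const _)
    have h4 : deriv f = fun t => fderiv ℝ f t 1 := rfl
    rw [h4]
    exact h3
  have hcF : ContinuousAt F q := hF.sm.continuousAt
  have hev : ∀ᶠ r in 𝓝 q, DifferentiableAt ℝ f (F r) := hcF.eventually hdf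
  apply mk (fun c r => deriv f (F r) * dC c F r)
  · exact ContDiffAt.comp q hf' hF.sm
  · show f (F q) = f v
    rw [hF.vl]
  · intro c
    filter_upwards [ev_diff hF.sm, hev] with r h1 h2
    exact key f F r h2 h1 _
  · intro c
    show deriv f (F q) * dC c F q = _
    rw [hF.gr, hF.vl]
  · have dF := (ev_diff hF.sm).self_of_nhds
    have h1 : ∀ c, dC c (fun r => deriv f (F r) * dC c F r) q =
        deriv f v * dC c (dC c F) q + deriv (deriv f) v * g c ^ 2 := by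
      intro c
      have d1 := dC_diff hF.sm c
      have d2 : DifferentiableAt ℝ (fun r => deriv f (F r)) q := hdf2.comp q dF
      show fderiv ℝ (fun r => deriv f (F r) * dC c F r) q _ = _
      rw [fderiv_fun_mul d2 d1]
      simp only [_root_.add_apply, _root_.smul_apply, smul_eq_mul]
      rw [key (deriv f) F q hdf2 dF]
      have e1 : fderiv ℝ F q (0, Pi.single c 1) = g c := hF.gr c
      rw [e1, hF.vl, hF.gr]
      unfold dC
      ring
    simp only [h1]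
    rw [key f F q hdf.self_of_nhds dF, ← hF.ge, hF.vl]
    unfold LL
    rw [Finset.sum_add_distrib, ← Finset.mul_sum, ← Finset.mul_sum]
    simp only [smul_eq_mul]
    ring

end field

theorem jal : JalStmt := by
  intro ι _ _ 𝕜 _ q
  refine ⟨fun v => jconst v, fun c => jcoord c, ?_, ?_, ?_, ?_, ?_, ?_⟩
  · intro F H v v' l l' g g' hF hH
    refine ⟨jadd hF hH, ?_, jmul hF hH⟩
    have h1 := jadd hF (jlin (-(ContinuousLinearMap.id ℝ 𝕜)) hH)
    have h2 : (fun r => F r + (-(ContinuousLinearMap.id ℝ 𝕜)) (H r)) = fun r => F r - H r := by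
      funext r
      show F r + -(H r) = F r - H r
      ring
    have h3 : v + (-(ContinuousLinearMap.id ℝ 𝕜)) v' = v - v' := by
      show v + -v' = v - v'
      ring
    have h4 : (fun c => g c + (-(ContinuousLinearMap.id ℝ 𝕜)) (g' c)) =
        fun c => g c - g' c := by
      funext c
      show g c + -(g' c) = g c - g' c
      ring
    have h5 : l + (-(ContinuousLinearMap.id ℝ 𝕜)) l' = l - l' := by
      show l + -l' = l - l'
      ring
    rw [h2, h3, h4, h5] at h1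
    exact h1
  · intro F v l g hF
    exact ⟨jlin ((RCLike.conjCLE (K := 𝕜)) : 𝕜 →L[ℝ] 𝕜) hF, jlin (RCLike.reCLM (K := 𝕜)) hF,
      jlin (-(ContinuousLinearMap.id ℝ 𝕜)) hF⟩
  · intro F v l g hF
    exact ⟨jlin (RCLike.ofRealCLM (K := 𝕜)) hF, fun f hf => jcomp hF f hf⟩
  · intro κ s F v l g h
    exact jsum s F v l g h
  · intro f hf
    exact jtime f hf
  · intro F H v v' l l' g g' hF hH h
    exact germ hF hH h

end Pool.Agent.LE.QF.H77
end
end -- Pool.Agent.Helper77_LQF.JAL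

section -- Pool.Agent.Helper18_ATT.UJT

/-!
# Tank ATT (MP_1906c1_mp), row UJT: the functional has no drift (helper18)
-/

set_option autoImplicit false

open MeasureTheory ProbabilityTheory Function Filter

open scoped ENNReal BigOperators Topology NNReal Matrix

noncomputable section

namespace Pool.Agent.ATT.H18

open Pool.Agent.LE.QF (HJ HM gG LL dC JalStmt)
open Pool.Agent.KIL (KJ)

section one

variable {ι X : Type} [Fintype ι] [DecidableEq ι] [Fintype X] [DecidableEq X]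

/-- the term of a pair -/
theorem pair (pej : PejStmt) {e : ι → X} {q : ℝ × (ι → ℝ)} {Gm : ℝ × (ι → ℝ) → Matrix X X ℂ}
    {kp : ℝ → X → ℝ} {G : Matrix X X ℂ} {κ g : X → ℝ} {μ : ι → ℂ} (h : KJ e q Gm kp G κ g μ)
    (Go : Matrix X X ℂ) (x y : X) (l B ρ ε : ℝ) (hl : 0 ≤ l) :
    ∃ (g' : ι → ℝ) (l' : ℝ),
      HJ (fun r : ℝ × (ι → ℝ) => pe l (B - ρ * r.1 - l * ε) (Gm r x y - Go x y)) q
        (pe l (B - ρ * q.1 - l * ε) (G x y - Go x y)) g' l' ∧
      ∀ (δ : ℝ) (p p' : ι → ℝ), 0 ≤ δ → 0 ≤ pe l (B - ρ * q.1 - l * ε) (G x y - Go x y) →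
        (∀ c, ‖μ c‖ ≤ δ ∧ ‖G x (e c)‖ ≤ p c ∧ ‖G y (e c)‖ ≤ p' c) →
        ∑ c, cs l δ (p c) (p' c) ≤ ρ → l' ≤ 0 := by
  obtain ⟨g', l', h1, h2⟩ := pej ι q (fun r => Gm r x y) (G x y) (Go x y)
    (∑ c, G x (e c) * μ c * G (e c) y) (fun c => gG G (e c) x y) l (B - l * ε) ρ hl (h.hG x y)
  have e1 : ∀ t : ℝ, B - l * ε - ρ * t = B - ρ * t - l * ε := fun t => by ring
  simp only [e1] at h1 h2
  refine ⟨g', l', h1, ?_⟩
  intro δ p p' hδ hpe hb hρ
  refine h2.trans (mul_nonpos_of_nonneg_of_nonpos hpe ?_)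
  have b0 : ∀ c, 0 ≤ p c := fun c => (norm_nonneg _).trans (hb c).2.1
  have b0' : ∀ c, 0 ≤ p' c := fun c => (norm_nonneg _).trans (hb c).2.2
  have b1 : ‖∑ c, G x (e c) * μ c * G (e c) y‖ ≤ ∑ c, δ * (p c * p' c) := by
    refine (norm_sum_le _ _).trans (Finset.sum_le_sum fun c _ => ?_)
    rw [norm_mul, norm_mul, h.hs (e c) y]
    calc ‖G x (e c)‖ * ‖μ c‖ * ‖G y (e c)‖ ≤ p c * δ * p' c :=
          mul_le_mul (mul_le_mul (hb c).2.1 (hb c).1 (norm_nonneg _) (b0 c)) (hb c).2.2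
            (norm_nonneg _) (mul_nonneg (b0 c) hδ)
      _ = δ * (p c * p' c) := by ring
  have b2 : ∑ c, ‖gG G (e c) x y‖ ^ 2 ≤ ∑ c, (p c * p' c) ^ 2 := by
    refine Finset.sum_le_sum fun c _ => ?_
    unfold gG
    rw [norm_neg, norm_mul, h.hs (e c) y]
    exact pow_le_pow_left₀ (by positivity)
      (mul_le_mul (hb c).2.1 (hb c).2.2 (norm_nonneg _) (b0 c)) 2
  have b3 : l * ‖∑ c, G x (e c) * μ c * G (e c) y‖ ≤ l * ∑ c, δ * (p c * p' c) :=
    mul_le_mul_of_nonneg_left b1 hl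
  have b4 : l ^ 2 / 2 * ∑ c, ‖gG G (e c) x y‖ ^ 2 ≤ l ^ 2 / 2 * ∑ c, (p c * p' c) ^ 2 :=
    mul_le_mul_of_nonneg_left b2 (by positivity)
  have b5 : ∑ c, cs l δ (p c) (p' c) = l * ∑ c, δ * (p c * p' c) +
      l ^ 2 / 2 * ∑ c, (p c * p' c) ^ 2 := by
    rw [Finset.mul_sum, Finset.mul_sum, ← Finset.sum_add_distrib]
    refine Finset.sum_congr rfl fun c _ => ?_
    unfold cs
    ring
  linarith

/-- the exponential of a jet -/
theorem expo {q : ℝ × (ι → ℝ)} {m : ℝ × (ι → ℝ) → ℝ} {v l' : ℝ} {g' : ι → ℝ}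
    (h1 : HJ m q v g' l') (B ρ lm εm : ℝ) :
    ∃ g'' : ι → ℝ, HJ (fun r : ℝ × (ι → ℝ) => Real.exp (B - ρ * r.1 + lm * (m r - εm))) q
      (Real.exp (B - ρ * q.1 + lm * (v - εm))) g''
      (Real.exp (B - ρ * q.1 + lm * (v - εm)) *
        (-ρ + lm * l' + 1 / 2 * ∑ c, (lm * g' c) ^ 2)) := by
  obtain ⟨hc, -, ha, -, hcomp, -, ht, -⟩ := Pool.Agent.LE.QF.H77.jal ι ℝ q
  have hcon : ∀ v : ℝ, HJ (fun _ : ℝ × (ι → ℝ) => v) q v (fun _ => 0) 0 := hc
  have htime : HJ (fun r : ℝ × (ι → ℝ) => B - ρ * r.1) q (B - ρ * q.1) (fun _ => 0) (-ρ) := by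
    have t1 := ht (fun t => B - ρ * t) (by fun_prop)
    have t2 : deriv (fun t : ℝ => B - ρ * t) q.1 = -ρ := by
      have t3 : HasDerivAt (fun t : ℝ => B - ρ * t) (-(ρ * 1)) q.1 :=
        ((hasDerivAt_id q.1).const_mul ρ).const_sub B
      rw [t3.deriv]
      ring
    rw [t2] at t1
    exact t1
  have h3 := (ha _ _ _ _ _ _ _ _ h1 (hcon εm)).2.1
  have h4 := (ha _ _ _ _ _ _ _ _ (hcon lm) h3).2.2
  have h5 := (ha _ _ _ _ _ _ _ _ htime h4).1
  have h6 := (hcomp _ _ _ _ h5).2 Real.exp Real.contDiff_exp.contDiffAt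
  simp only [Real.deriv_exp, zero_add, add_zero, sub_zero, zero_mul,
    Finset.sum_const_zero] at h6
  have e1 : Real.exp (B - ρ * q.1 + lm * (v - εm)) *
      (-ρ + lm * l' + 1 / 2 * ∑ c, (lm * g' c) ^ 2) =
      Real.exp (B - ρ * q.1 + lm * (v - εm)) * (-ρ + lm * l') +
      Real.exp (B - ρ * q.1 + lm * (v - εm)) / 2 * ∑ c, (lm * g' c) ^ 2 := by ring
  rw [e1]
  exact ⟨_, h6⟩

/-- the term of a site -/
theorem site (mxj : MxjStmt) {e : ι → X} {q : ℝ × (ι → ℝ)} {Gm : ℝ × (ι → ℝ) → Matrix X X ℂ}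
    {kp : ℝ → X → ℝ} {G : Matrix X X ℂ} {κ g : X → ℝ} {μ : ι → ℂ} (h : KJ e q Gm kp G κ g μ)
    (Go : Matrix X X ℂ) (A₃ : Finset X) (hA : ∀ c, e c ∉ A₃) (x : X) (B ρ lm εm : ℝ) :
    ∃ (g' : ι → ℝ) (l' : ℝ),
      HJ (fun r : ℝ × (ι → ℝ) => Real.exp (B - ρ * r.1 + lm * (mx (kp r.1) A₃ (Gm r) Go x - εm))) q
        (Real.exp (B - ρ * q.1 + lm * (mx κ A₃ G Go x - εm))) g' l' ∧
      ∀ (δ gb : ℝ) (p : ι → ℝ), 0 ≤ δ → 0 ≤ gb → 0 ≤ lm → 0 ≤ εm → (∀ y ∈ A₃, 0 ≤ κ y) →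
        mx κ A₃ G Go x ≤ εm → (∀ c, ∑ y ∈ A₃, κ y * ‖G (e c) y‖ ^ 2 ≤ gb) →
        (∀ c, ‖μ c‖ ≤ δ ∧ ‖G x (e c)‖ ≤ p c) →
        ∑ c, cm lm εm δ gb (p c) ≤ ρ → l' ≤ 0 := by
  obtain ⟨g', l', h1, h2⟩ := mxj ι X e q Gm kp G Go κ g μ A₃ x h hA
  obtain ⟨g'', h6⟩ := expo h1 B ρ lm εm
  refine ⟨_, _, h6, ?_⟩
  intro δ gb p hδ hgb hlm hεm hκ hmx hgg hb hρ
  obtain ⟨h7, h8⟩ := h2 εm gb hκ hmx hgb hgg
  have b0 : ∀ c, 0 ≤ p c := fun c => (norm_nonneg _).trans (hb c).2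
  have b1 : l' ≤ ∑ c, (2 * δ * p c * Real.sqrt (εm * gb) + p c ^ 2 * gb) := by
    refine h7.trans (Finset.sum_le_sum fun c _ => add_le_add ?_ ?_)
    · refine mul_le_mul_of_nonneg_right ?_ (Real.sqrt_nonneg _)
      exact mul_le_mul (mul_le_mul_of_nonneg_left (hb c).1 (by norm_num)) (hb c).2
        (norm_nonneg _) (by positivity)
    · exact mul_le_mul_of_nonneg_right (pow_le_pow_left₀ (norm_nonneg _) (hb c).2 2) hgb
  have b2 : ∑ c, (lm * g' c) ^ 2 ≤ ∑ c, lm ^ 2 * (4 * (p c ^ 2 * (εm * gb))) := by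
    refine Finset.sum_le_sum fun c _ => ?_
    rw [mul_pow]
    refine mul_le_mul_of_nonneg_left ((h8 c).trans ?_) (by positivity)
    refine mul_le_mul_of_nonneg_left ?_ (by norm_num)
    exact mul_le_mul_of_nonneg_right (pow_le_pow_left₀ (norm_nonneg _) (hb c).2 2)
      (mul_nonneg hεm hgb)
  have b3 : ∑ c, cm lm εm δ gb (p c) =
      lm * ∑ c, (2 * δ * p c * Real.sqrt (εm * gb) + p c ^ 2 * gb) +
      1 / 2 * ∑ c, lm ^ 2 * (4 * (p c ^ 2 * (εm * gb))) := by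
    rw [Finset.mul_sum, Finset.mul_sum, ← Finset.sum_add_distrib]
    refine Finset.sum_congr rfl fun c _ => ?_
    unfold cm
    ring
  have b4 : lm * l' ≤ lm * ∑ c, (2 * δ * p c * Real.sqrt (εm * gb) + p c ^ 2 * gb) :=
    mul_le_mul_of_nonneg_left b1 hlm
  have b5 : -ρ + lm * l' + 1 / 2 * ∑ c, (lm * g' c) ^ 2 ≤ 0 := by linarith
  exact mul_nonpos_of_nonneg_of_nonpos (Real.exp_pos _).le b5

/-- the term of `MM` -/
theorem whole (maj : MajStmt) {e : ι → X} {q : ℝ × (ι → ℝ)} {Gm : ℝ × (ι → ℝ) → Matrix X X ℂ}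
    {kp : ℝ → X → ℝ} {G : Matrix X X ℂ} {κ g : X → ℝ} {μ : ι → ℂ} (h : KJ e q Gm kp G κ g μ)
    (Go : Matrix X X ℂ) (A₃ : Finset X) (hA : ∀ c, e c ∉ A₃) (B ρ lM εM : ℝ) :
    ∃ (g' : ι → ℝ) (l' : ℝ),
      HJ (fun r : ℝ × (ι → ℝ) => Real.exp (B - ρ * r.1 + lM * (MM (kp r.1) A₃ (Gm r) Go - εM))) q
        (Real.exp (B - ρ * q.1 + lM * (MM κ A₃ G Go - εM))) g' l' ∧
      ∀ (δ gb : ℝ), 0 ≤ δ → 0 ≤ gb → 0 ≤ lM → 0 ≤ εM → (∀ y ∈ A₃, 0 ≤ κ y) →
        MM κ A₃ G Go ≤ εM → (∀ c, ∑ y ∈ A₃, κ y * ‖G (e c) y‖ ^ 2 ≤ gb) →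
        (∀ c, ‖μ c‖ ≤ δ) → (Fintype.card ι : ℝ) * cM lM εM δ gb ≤ ρ → l' ≤ 0 := by
  obtain ⟨g', l', h1, h2⟩ := maj ι X e q Gm kp G Go κ g μ A₃ h hA
  obtain ⟨g'', h6⟩ := expo h1 B ρ lM εM
  refine ⟨_, _, h6, ?_⟩
  intro δ gb hδ hgb hlM hεM hκ hmx hgg hb hρ
  obtain ⟨h7, h8⟩ := h2 εM gb hκ hmx hgb hgg
  have b1 : l' ≤ ∑ _c : ι, (2 * δ * gb * Real.sqrt εM + gb ^ 2) := by
    refine h7.trans (Finset.sum_le_sum fun c _ => add_le_add ?_ le_rfl)
    refine mul_le_mul_of_nonneg_right ?_ (Real.sqrt_nonneg _)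
    exact mul_le_mul_of_nonneg_right (mul_le_mul_of_nonneg_left (hb c) (by norm_num)) hgb
  have b2 : ∑ c, (lM * g' c) ^ 2 ≤ ∑ _c : ι, lM ^ 2 * (4 * (gb ^ 2 * εM)) := by
    refine Finset.sum_le_sum fun c _ => ?_
    rw [mul_pow]
    exact mul_le_mul_of_nonneg_left (h8 c) (by positivity)
  rw [Finset.sum_const, Finset.card_univ, nsmul_eq_mul] at b1 b2
  have b4 : lM * l' ≤ lM * ((Fintype.card ι : ℝ) * (2 * δ * gb * Real.sqrt εM + gb ^ 2)) :=
    mul_le_mul_of_nonneg_left b1 hlM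
  have b3 : (Fintype.card ι : ℝ) * cM lM εM δ gb =
      lM * ((Fintype.card ι : ℝ) * (2 * δ * gb * Real.sqrt εM + gb ^ 2)) +
      1 / 2 * ((Fintype.card ι : ℝ) * (lM ^ 2 * (4 * (gb ^ 2 * εM)))) := by
    unfold cM
    ring
  have b5 : -ρ + lM * l' + 1 / 2 * ∑ c, (lM * g' c) ^ 2 ≤ 0 := by linarith
  exact mul_nonpos_of_nonneg_of_nonpos (Real.exp_pos _).le b5

end one

/-- UJT -/
theorem ujt (peb : PebStmt) (pej : PejStmt) (mxj : MxjStmt) (maj : MajStmt) : UjtStmt := by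
  intro ι X _ _ _ _ e q Gm kp G Go κ g μ W δ gb h hδ hgb h32 h21 hec hκ hx hlm hεm hlM hεM hB hBm
    hBM hρ hρm hρM hgood
  classical
  obtain ⟨-, -, ha, -, -, hsum, -, -⟩ := Pool.Agent.LE.QF.H77.jal ι ℝ q
  have p0 : ∀ x ∈ W.A₁, ∀ y : X,
      0 ≤ pe (W.l x) (W.B x y - W.ρ x y * q.1 - W.l x * W.ε x) (G x y - Go x y) := fun x hxx y =>
    (peb (W.l x) _ 0 _ (hx x hxx).1).1
  have p1 : ∀ x ∈ W.A₁, 0 ≤ ∑ y ∈ W.A₂,
      pe (W.l x) (W.B x y - W.ρ x y * q.1 - W.l x * W.ε x) (G x y - Go x y) := fun x hxx =>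
    Finset.sum_nonneg fun y _ => p0 x hxx y
  have p2 : 0 ≤ ∑ x ∈ W.A₁, ∑ y ∈ W.A₂,
      pe (W.l x) (W.B x y - W.ρ x y * q.1 - W.l x * W.ε x) (G x y - Go x y) :=
    Finset.sum_nonneg p1
  have p3 : 0 ≤ ∑ x ∈ W.A₂, Real.exp (W.Bm x - W.ρm x * q.1 + W.lm * (mx κ W.A₃ G Go x - W.εm)) :=
    Finset.sum_nonneg fun x _ => (Real.exp_pos _).le
  have p4 : 0 < Real.exp (W.BM - W.ρM * q.1 + W.lM * (MM κ W.A₃ G Go - W.εM)) :=
    Real.exp_pos _
  have hU : W.U κ Go q.1 G = (∑ x ∈ W.A₁, ∑ y ∈ W.A₂,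
      pe (W.l x) (W.B x y - W.ρ x y * q.1 - W.l x * W.ε x) (G x y - Go x y)) +
      ∑ x ∈ W.A₂, Real.exp (W.Bm x - W.ρm x * q.1 + W.lm * (mx κ W.A₃ G Go x - W.εm)) +
      Real.exp (W.BM - W.ρM * q.1 + W.lM * (MM κ W.A₃ G Go - W.εM)) := rfl
  -- good points
  have good : W.U κ Go q.1 G < 1 → (∀ x ∈ W.A₁, ∀ y ∈ W.A₂, ‖G x y - Go x y‖ ≤ 2 * W.ε x) ∧
      (∀ x ∈ W.A₂, mx κ W.A₃ G Go x ≤ W.εm) ∧ MM κ W.A₃ G Go ≤ W.εM := by
    intro hlt
    rw [hU] at hlt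
    refine ⟨?_, ?_, ?_⟩
    · intro x hxx y hy
      have q1 : pe (W.l x) (W.B x y - W.ρ x y * q.1 - W.l x * W.ε x) (G x y - Go x y) ≤
          ∑ y ∈ W.A₂, pe (W.l x) (W.B x y - W.ρ x y * q.1 - W.l x * W.ε x) (G x y - Go x y) :=
        Finset.single_le_sum (f := fun y =>
          pe (W.l x) (W.B x y - W.ρ x y * q.1 - W.l x * W.ε x) (G x y - Go x y))
          (fun y _ => p0 x hxx y) hy
      have q2 : ∑ y ∈ W.A₂, pe (W.l x) (W.B x y - W.ρ x y * q.1 - W.l x * W.ε x)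
          (G x y - Go x y) ≤ ∑ x ∈ W.A₁, ∑ y ∈ W.A₂,
            pe (W.l x) (W.B x y - W.ρ x y * q.1 - W.l x * W.ε x) (G x y - Go x y) :=
        Finset.single_le_sum (f := fun x => ∑ y ∈ W.A₂,
          pe (W.l x) (W.B x y - W.ρ x y * q.1 - W.l x * W.ε x) (G x y - Go x y))
          (fun x hxx => p1 x hxx) hxx
      exact (peb (W.l x) (W.B x y - W.ρ x y * q.1) (W.ε x) (G x y - Go x y) (hx x hxx).1).2
        (hB x hxx y hy) (by linarith)
    · intro x hxx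
      have q1 : Real.exp (W.Bm x - W.ρm x * q.1 + W.lm * (mx κ W.A₃ G Go x - W.εm)) ≤
          ∑ x ∈ W.A₂, Real.exp (W.Bm x - W.ρm x * q.1 + W.lm * (mx κ W.A₃ G Go x - W.εm)) :=
        Finset.single_le_sum (f := fun x =>
          Real.exp (W.Bm x - W.ρm x * q.1 + W.lm * (mx κ W.A₃ G Go x - W.εm)))
          (fun x _ => (Real.exp_pos _).le) hxx
      have q2 : Real.exp (W.Bm x - W.ρm x * q.1 + W.lm * (mx κ W.A₃ G Go x - W.εm)) < 1 := by
        linarith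
      rw [Real.exp_lt_one_iff] at q2
      have q3 := hBm x hxx
      by_contra hcon
      push Not at hcon
      have q4 : 0 < W.lm * (mx κ W.A₃ G Go x - W.εm) := mul_pos hlm (by linarith)
      linarith
    · have q2 : Real.exp (W.BM - W.ρM * q.1 + W.lM * (MM κ W.A₃ G Go - W.εM)) < 1 := by
        linarith
      rw [Real.exp_lt_one_iff] at q2
      by_contra hcon
      push Not at hcon
      have q4 : 0 < W.lM * (MM κ W.A₃ G Go - W.εM) := mul_pos hlM (by linarith)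
      linarith
  -- the jets
  have J1 : ∀ x : X, ∀ y : X, ∃ (g' : ι → ℝ) (l' : ℝ), x ∈ W.A₁ → 
      HJ (fun r : ℝ × (ι → ℝ) => pe (W.l x) (W.B x y - W.ρ x y * r.1 - W.l x * W.ε x)
        (Gm r x y - Go x y)) q
        (pe (W.l x) (W.B x y - W.ρ x y * q.1 - W.l x * W.ε x) (G x y - Go x y)) g' l' ∧
      ∀ (δ : ℝ) (p p' : ι → ℝ), 0 ≤ δ →
        0 ≤ pe (W.l x) (W.B x y - W.ρ x y * q.1 - W.l x * W.ε x) (G x y - Go x y) →
        (∀ c, ‖μ c‖ ≤ δ ∧ ‖G x (e c)‖ ≤ p c ∧ ‖G y (e c)‖ ≤ p' c) →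
        ∑ c, cs (W.l x) δ (p c) (p' c) ≤ W.ρ x y → l' ≤ 0 := by
    intro x y
    by_cases hxx : x ∈ W.A₁
    · obtain ⟨g', l', t⟩ := pair pej h Go x y (W.l x) (W.B x y) (W.ρ x y) (W.ε x) (hx x hxx).1.le
      exact ⟨g', l', fun _ => t⟩
    · exact ⟨fun _ => 0, 0, fun t => absurd t hxx⟩
  choose g1 l1 hJ1 using J1
  have J2 : ∀ x : X, ∃ (g' : ι → ℝ) (l' : ℝ),
      HJ (fun r : ℝ × (ι → ℝ) => Real.exp (W.Bm x - W.ρm x * r.1 +
        W.lm * (mx (kp r.1) W.A₃ (Gm r) Go x - W.εm))) q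
        (Real.exp (W.Bm x - W.ρm x * q.1 + W.lm * (mx κ W.A₃ G Go x - W.εm))) g' l' ∧
      ∀ (δ gb : ℝ) (p : ι → ℝ), 0 ≤ δ → 0 ≤ gb → 0 ≤ W.lm → 0 ≤ W.εm → (∀ y ∈ W.A₃, 0 ≤ κ y) →
        mx κ W.A₃ G Go x ≤ W.εm → (∀ c, ∑ y ∈ W.A₃, κ y * ‖G (e c) y‖ ^ 2 ≤ gb) →
        (∀ c, ‖μ c‖ ≤ δ ∧ ‖G x (e c)‖ ≤ p c) →
        ∑ c, cm W.lm W.εm δ gb (p c) ≤ W.ρm x → l' ≤ 0 := fun x =>
    site mxj h Go W.A₃ (fun c => (hec c).2) x (W.Bm x) (W.ρm x) W.lm W.εm
  choose g2 l2 hJ2 using J2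
  have K1 := hsum X W.A₁ (fun x r => ∑ y ∈ W.A₂, pe (W.l x)
      (W.B x y - W.ρ x y * r.1 - W.l x * W.ε x) (Gm r x y - Go x y))
    (fun x => ∑ y ∈ W.A₂, pe (W.l x) (W.B x y - W.ρ x y * q.1 - W.l x * W.ε x) (G x y - Go x y))
    (fun x => ∑ y ∈ W.A₂, l1 x y) (fun x c => ∑ y ∈ W.A₂, g1 x y c)
    (fun x hxx => hsum X W.A₂ (fun y r => pe (W.l x)
      (W.B x y - W.ρ x y * r.1 - W.l x * W.ε x) (Gm r x y - Go x y))
      (fun y => pe (W.l x) (W.B x y - W.ρ x y * q.1 - W.l x * W.ε x) (G x y - Go x y))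
      (l1 x) (g1 x) (fun y _ => (hJ1 x y hxx).1))
  have K2 := hsum X W.A₂ (fun x r => Real.exp (W.Bm x - W.ρm x * r.1 +
        W.lm * (mx (kp r.1) W.A₃ (Gm r) Go x - W.εm)))
    (fun x => Real.exp (W.Bm x - W.ρm x * q.1 + W.lm * (mx κ W.A₃ G Go x - W.εm))) l2 g2
    (fun x _ => (hJ2 x).1)
  obtain ⟨g3, l3, hJ3, hJ3'⟩ := whole maj h Go W.A₃ (fun c => (hec c).2) W.BM W.ρM W.lM W.εM
  have K3 := (ha _ _ _ _ _ _ _ _ (ha _ _ _ _ _ _ _ _ K1 K2).1 hJ3).1
  have hF : (fun r : ℝ × (ι → ℝ) => W.U (kp r.1) Go r.1 (Gm r)) = fun r =>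
      (∑ x ∈ W.A₁, ∑ y ∈ W.A₂, pe (W.l x) (W.B x y - W.ρ x y * r.1 - W.l x * W.ε x)
        (Gm r x y - Go x y)) +
      (∑ x ∈ W.A₂, Real.exp (W.Bm x - W.ρm x * r.1 +
        W.lm * (mx (kp r.1) W.A₃ (Gm r) Go x - W.εm))) +
      Real.exp (W.BM - W.ρM * r.1 + W.lM * (MM (kp r.1) W.A₃ (Gm r) Go - W.εM)) := rfl
  refine ⟨?_, ?_, ?_, good⟩
  · rw [hU]
    exact add_nonneg (add_nonneg p2 p3) p4.le
  · rw [hF]
    exact K3.sm
  · intro hlt
    obtain ⟨good1, good2, good3⟩ := good hlt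
    have hg3 := hgood hlt
    rw [hF, K3.ge]
    have bp : ∀ x ∈ W.A₁, ∀ c, ‖G x (e c)‖ ≤ W.p x (e c) := by
      intro x hxx c
      have t1 := good1 x hxx (e c) (hec c).1
      have t2 := (hx x hxx).2.2 (e c) (hec c).1
      have t3 : ‖G x (e c)‖ ≤ ‖G x (e c) - Go x (e c)‖ + ‖Go x (e c)‖ := by
        calc ‖G x (e c)‖ = ‖(G x (e c) - Go x (e c)) + Go x (e c)‖ := by rw [sub_add_cancel]
          _ ≤ _ := norm_add_le _ _
      linarith
    have r1 : ∑ x ∈ W.A₁, ∑ y ∈ W.A₂, l1 x y ≤ 0 := by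
      refine Finset.sum_nonpos fun x hxx => Finset.sum_nonpos fun y hy => ?_
      exact (hJ1 x y hxx).2 δ (fun c => W.p x (e c)) (fun c => W.p y (e c)) hδ (p0 x hxx y)
        (fun c => ⟨(hg3 c).1, bp x hxx c, bp y (h21 hy) c⟩) (hρ x hxx y hy)
    have r2 : ∑ x ∈ W.A₂, l2 x ≤ 0 := by
      refine Finset.sum_nonpos fun x hxx => ?_
      exact (hJ2 x).2 δ gb (fun c => W.p x (e c)) hδ hgb hlm.le hεm.le hκ (good2 x hxx)
        (fun c => (hg3 c).2) (fun c => ⟨(hg3 c).1, bp x (h21 hxx) c⟩) (hρm x hxx)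
    have r3 : l3 ≤ 0 := hJ3' δ gb hδ hgb hlM.le hεM.le hκ good3 (fun c => (hg3 c).2)
      (fun c => (hg3 c).1) hρM
    exact add_nonpos (add_nonpos r1 r2) r3

end Pool.Agent.ATT.H18
end
end -- Pool.Agent.Helper18_ATT.UJT

section -- Pool.Agent.Helper44_KIL.KLR

/-! Block KIL (MP_1906c1_mp), row KLR (helper44): the last round. -/

set_option autoImplicit false

open MeasureTheory ProbabilityTheory Function Filter

open scoped ENNReal BigOperators Topology NNReal Matrix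

noncomputable section

namespace Pool.Agent.KIL.H44

open Pool.Agent.LE.QF (HJ HM gG LL dC JalStmt)

section basic

variable {ι X : Type} [Fintype ι] [DecidableEq ι] [Fintype X] [DecidableEq X]

theorem nn_nonneg {κ : X → ℝ} {G : Matrix X X ℂ} {o : X} (hκ : ∀ v, 0 ≤ κ v) (v : X) :
    0 ≤ nn κ G o v := mul_nonneg (hκ v) (sq_nonneg _)

theorem aa_nonneg {κ : X → ℝ} {G : Matrix X X ℂ} {o : X} (hκ : ∀ v, 0 ≤ κ v)
    (hg : 0 < gam κ G o) (v : X) : 0 ≤ aa κ G o v := div_nonneg (nn_nonneg hκ v) hg.le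

/-- `aa` is twice continuously differentiable -/
theorem aa_cd {e : ι → X} {q : ℝ × (ι → ℝ)} {Gm : ℝ × (ι → ℝ) → Matrix X X ℂ}
    {kp : ℝ → X → ℝ} {G : Matrix X X ℂ} {κ g : X → ℝ} {μ : ι → ℂ} {o : X}
    (h : KJ e q Gm kp G κ g μ) (hg : 0 < gam κ G o) (hGq : Gm q = G) (hkq : kp q.1 = κ) (v : X) :
    ContDiffAt ℝ 2 (fun r => aa (kp r.1) (Gm r) o v) q := by
  have h1 : ∀ w, ContDiffAt ℝ 2 (fun r : ℝ × (ι → ℝ) => nn (kp r.1) (Gm r) o w) q := by
    intro w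
    have h2 : ContDiffAt ℝ 2 (fun r : ℝ × (ι → ℝ) => kp r.1 w) q :=
      ContDiffAt.comp q (h.hk w).1 contDiffAt_fst
    exact h2.mul ((h.hG w o).sm.norm_sq ℝ)
  have h3 : ContDiffAt ℝ 2 (fun r : ℝ × (ι → ℝ) => gam (kp r.1) (Gm r) o) q :=
    ContDiffAt.sum fun w _ => h1 w
  refine (h1 v).div h3 ?_
  rw [hGq, hkq]
  exact hg.ne'

theorem uL_cd {e : ι → X} {q : ℝ × (ι → ℝ)} {Gm : ℝ × (ι → ℝ) → Matrix X X ℂ}
    {kp : ℝ → X → ℝ} {G : Matrix X X ℂ} {κ g : X → ℝ} {μ : ι → ℂ} {o : X}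
    (h : KJ e q Gm kp G κ g μ) (hg : 0 < gam κ G o) (hGq : Gm q = G) (hkq : kp q.1 = κ)
    (B : Finset X) (lam ρ t₁ : ℝ) (j : ℕ) :
    ContDiffAt ℝ 2 (fun r => uL e B lam ρ t₁ j (kp r.1) (Gm r) o) q := by
  have ha := aa_cd h hg hGq hkq
  have hm : ContDiffAt ℝ 2 (fun r : ℝ × (ι → ℝ) => ∑ c, aa (kp r.1) (Gm r) o (e c)) q :=
    ContDiffAt.sum fun c _ => ha (e c)
  unfold uL
  refine ContDiffAt.add ?_ (ContDiffAt.mul ?_ ?_)
  · exact (contDiffAt_const.mul (hm.sub contDiffAt_const)).exp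
  · exact (contDiffAt_const.mul hm).exp
  · exact ContDiffAt.sum fun v _ => (((ha v).add contDiffAt_const).div_const _).pow j

/-- lower bound for the functional -/
theorem uL_lb {e : ι → X} {B : Finset X} {lam ρ t₁ : ℝ} {j : ℕ} {κ : X → ℝ}
    {G : Matrix X X ℂ} {o : X} (ht : 0 < t₁) (h : ∀ v ∈ B, -(t₁ / 2) ≤ aa κ G o v) :
    Real.exp (lam * ((∑ c, aa κ G o (e c)) - 2 * ρ)) ≤ uL e B lam ρ t₁ j κ G o := by
  unfold uL
  have h1 : 0 ≤ Real.exp (lam * ∑ c, aa κ G o (e c)) *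
      ∑ v ∈ B, ((aa κ G o v + t₁ / 2) / (5 * t₁ / 2)) ^ j := by
    refine mul_nonneg (Real.exp_pos _).le (Finset.sum_nonneg fun v hv => pow_nonneg ?_ _)
    exact div_nonneg (by linarith [h v hv]) (by linarith only [ht])
  linarith only [h1]

theorem uL_nonneg {e : ι → X} {B : Finset X} {lam ρ t₁ : ℝ} {j : ℕ} {κ : X → ℝ}
    {G : Matrix X X ℂ} {o : X} (ht : 0 < t₁) (h : ∀ v ∈ B, -(t₁ / 2) ≤ aa κ G o v) :
    0 ≤ uL e B lam ρ t₁ j κ G o := (Real.exp_pos _).le.trans (uL_lb ht h)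

theorem uL_ge_one {e : ι → X} {B : Finset X} {lam ρ t₁ : ℝ} {j : ℕ} {κ : X → ℝ}
    {G : Matrix X X ℂ} {o : X} (ht : 0 < t₁) (hl : 0 ≤ lam) (hκ : ∀ v, 0 ≤ aa κ G o v) {v : X}
    (hv : v ∈ B) (h : 2 * t₁ ≤ aa κ G o v) : 1 ≤ uL e B lam ρ t₁ j κ G o := by
  unfold uL
  have h1 : 1 ≤ ((aa κ G o v + t₁ / 2) / (5 * t₁ / 2)) ^ j := by
    refine one_le_pow₀ ?_
    rw [le_div_iff₀ (by linarith only [ht])]
    linarith
  have h2 : ((aa κ G o v + t₁ / 2) / (5 * t₁ / 2)) ^ j ≤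
      ∑ v ∈ B, ((aa κ G o v + t₁ / 2) / (5 * t₁ / 2)) ^ j := by
    refine Finset.single_le_sum (f := fun v => ((aa κ G o v + t₁ / 2) / (5 * t₁ / 2)) ^ j)
      (fun w _ => pow_nonneg (div_nonneg (by linarith only [hκ w, ht]) (by linarith)) _) hv
  have h3 : 1 ≤ Real.exp (lam * ∑ c, aa κ G o (e c)) :=
    Real.one_le_exp (mul_nonneg hl (Finset.sum_nonneg fun c _ => hκ (e c)))
  have h4 : 0 ≤ Real.exp (lam * ((∑ c, aa κ G o (e c)) - 2 * ρ)) := (Real.exp_pos _).le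
  have h5 : (1 : ℝ) * 1 ≤ Real.exp (lam * ∑ c, aa κ G o (e c)) *
      ∑ v ∈ B, ((aa κ G o v + t₁ / 2) / (5 * t₁ / 2)) ^ j :=
    mul_le_mul h3 (h1.trans h2) (by norm_num) (Real.exp_pos _).le
  linarith only [h4, h5]

theorem exp_num : Real.exp (1 / 4) * (3 / 5) ≤ Real.exp (-(1 / 5)) := by
  have h1 : Real.exp (1 / 4) * (3 / 5) = Real.exp (-(1 / 5)) * (Real.exp (9 / 20) * (3 / 5)) := by
    rw [← mul_assoc, ← Real.exp_add]
    norm_num
  rw [h1]
  have h2 : Real.exp (9 / 20) ≤ 5 / 3 := by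
    have h3 : Real.exp (9 / 20) ^ 20 ≤ (5 / 3) ^ 20 := by
      rw [← Real.exp_nat_mul]
      have h4 : ((20 : ℕ) : ℝ) * (9 / 20) = ((9 : ℕ) : ℝ) * 1 := by norm_num
      rw [h4, Real.exp_nat_mul]
      have h5 := Real.exp_one_lt_d9.le
      calc Real.exp 1 ^ 9 ≤ 2.7182818286 ^ 9 := pow_le_pow_left₀ (Real.exp_pos _).le h5 9
        _ ≤ (5 / 3) ^ 20 := by norm_num
    exact le_of_pow_le_pow_left₀ (by norm_num) (by norm_num) h3
  calc Real.exp (-(1 / 5)) * (Real.exp (9 / 20) * (3 / 5)) ≤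
        Real.exp (-(1 / 5)) * (5 / 3 * (3 / 5)) :=
        mul_le_mul_of_nonneg_left (mul_le_mul_of_nonneg_right h2 (by norm_num)) (Real.exp_pos _).le
    _ = Real.exp (-(1 / 5)) := by norm_num

theorem uL_ub {e : ι → X} {B : Finset X} {lam ρ t₁ : ℝ} {j : ℕ} {κ : X → ℝ}
    {G : Matrix X X ℂ} {o : X} (ht : 0 < t₁) (hρ : 0 < ρ) (hl : lam = j / (4 * ρ))
    (hκ : ∀ v, 0 ≤ aa κ G o v) (hm : ∑ c, aa κ G o (e c) ≤ ρ) (hB : ∀ v ∈ B, aa κ G o v ≤ t₁) :
    uL e B lam ρ t₁ j κ G o ≤ (1 + B.card) * Real.exp (-(j : ℝ) / 5) := by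
  have hlr : lam * ρ = j / 4 := by
    rw [hl]
    field_simp
  have hl0 : 0 ≤ lam := by rw [hl]; positivity
  unfold uL
  have h1 : Real.exp (lam * ((∑ c, aa κ G o (e c)) - 2 * ρ)) ≤ Real.exp (-(j : ℝ) / 5) := by
    apply Real.exp_le_exp.2
    have h2 : lam * ((∑ c, aa κ G o (e c)) - 2 * ρ) ≤ lam * (-ρ) :=
      mul_le_mul_of_nonneg_left (by linarith only [hm]) hl0
    have h3 : (0 : ℝ) ≤ j := Nat.cast_nonneg j
    linarith
  have h2 : ∀ v ∈ B, ((aa κ G o v + t₁ / 2) / (5 * t₁ / 2)) ^ j ≤ (3 / 5 : ℝ) ^ j := by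
    intro v hv
    refine pow_le_pow_left₀ (div_nonneg (by linarith only [hκ v, ht]) (by linarith)) ?_ j
    rw [div_le_iff₀ (by linarith only [ht])]
    linarith only [hB v hv]
  have h3 : ∑ v ∈ B, ((aa κ G o v + t₁ / 2) / (5 * t₁ / 2)) ^ j ≤ B.card * (3 / 5 : ℝ) ^ j := by
    refine (Finset.sum_le_sum h2).trans (le_of_eq ?_)
    rw [Finset.sum_const, nsmul_eq_mul]
  have h4 : Real.exp (lam * ∑ c, aa κ G o (e c)) ≤ Real.exp (1 / 4) ^ j := by
    rw [← Real.exp_nat_mul]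
    apply Real.exp_le_exp.2
    have h5 : lam * ∑ c, aa κ G o (e c) ≤ lam * ρ := mul_le_mul_of_nonneg_left hm hl0
    linarith only [hlr, h5]
  have h5 : Real.exp (lam * ∑ c, aa κ G o (e c)) *
      ∑ v ∈ B, ((aa κ G o v + t₁ / 2) / (5 * t₁ / 2)) ^ j ≤
      B.card * Real.exp (-(j : ℝ) / 5) := by
    have h6 : 0 ≤ ∑ v ∈ B, ((aa κ G o v + t₁ / 2) / (5 * t₁ / 2)) ^ j :=
      Finset.sum_nonneg fun v _ => pow_nonneg (div_nonneg (by linarith only [hκ v, ht]) (by linarith only [ht])) _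
    calc _ ≤ Real.exp (1 / 4) ^ j * (B.card * (3 / 5 : ℝ) ^ j) :=
          mul_le_mul h4 h3 h6 (by positivity)
      _ = B.card * (Real.exp (1 / 4) * (3 / 5)) ^ j := by rw [mul_pow]; ring
      _ ≤ B.card * Real.exp (-(1 / 5)) ^ j := by
          refine mul_le_mul_of_nonneg_left ?_ (Nat.cast_nonneg _)
          exact pow_le_pow_left₀ (by positivity) exp_num j
      _ = B.card * Real.exp (-(j : ℝ) / 5) := by
          rw [← Real.exp_nat_mul]
          congr 2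
          ring
  linarith only [h1, h5]

end basic

theorem cu_add {x y : ℝ} (hx : 0 ≤ x) (hy : 0 ≤ y) : cu (x + y) ≤ cu x + 3 * y := by
  unfold cu
  have h1 : 0 ≤ max (1 - x) 0 := le_max_right _ _
  have h2 : max (1 - x) 0 ≤ 1 := max_le (by linarith) (by norm_num)
  have h3 : 0 ≤ max (1 - (x + y)) 0 := le_max_right _ _
  have h4 : max (1 - (x + y)) 0 ≤ max (1 - x) 0 := max_le_max (by linarith) le_rfl
  have h5 : max (1 - x) 0 ≤ max (1 - (x + y)) 0 + y := by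
    refine max_le ?_ (by linarith)
    linarith [le_max_left (1 - (x + y)) 0]
  generalize max (1 - x) 0 = p at *
  generalize max (1 - (x + y)) 0 = r at *
  have h6 : p ^ 3 - r ^ 3 = (p - r) * (p ^ 2 + p * r + r ^ 2) := by ring
  have h7 : p ^ 2 + p * r + r ^ 2 ≤ 3 := by nlinarith only [h1, h2, h3, h4]
  have h8 : (p - r) * (p ^ 2 + p * r + r ^ 2) ≤ y * 3 :=
    mul_le_mul (by linarith) h7 (by positivity) hy
  linarith

theorem klr (hklj : KljStmt) (huf3 : Uf3Stmt) : KlrStmt := by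
  intro ι X _ _ _ _ e Gm kp g μ Rn B o T κs g₀ δ Lc kI t₁ ρ ε h bL lam j u b hT hBR heB heR hoR
    hkI0 hj ht1 ht1' hρ hε0 hε1 hδg hκsL hh hlam hj1 hj2 hbL0 hbL hb hb0 hq hm0 hB0
  have hj0 : (0 : ℝ) < j := by exact_mod_cast (show 0 < j by omega)
  have hl0 : 0 < lam := by rw [hlam]; positivity
  obtain ⟨UL, hUL⟩ : ∃ UL : ℝ × (ι → ℝ) → ℝ, UL = fun r =>
      uL e B lam ρ t₁ j (kp r.1) (Gm r) o := ⟨_, rfl⟩
  have hULa : ∀ r, UL r = uL e B lam ρ t₁ j (kp r.1) (Gm r) o := fun r => by rw [hUL]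
  have haa : ∀ q : ℝ × (ι → ℝ), 0 ≤ q.1 → q.1 ≤ T → ∀ v, 0 ≤ aa (kp q.1) (Gm q) o v :=
    fun q h0 h1 v => aa_nonneg (hq q h0 h1).2.1 (hq q h0 h1).2.2.1 v
  have hULn : ∀ q : ℝ × (ι → ℝ), 0 ≤ q.1 → q.1 ≤ T → 0 ≤ UL q := by
    intro q h0 h1
    rw [hULa]
    exact uL_nonneg ht1 fun v _ => by linarith only [haa q h0 h1 v, ht1]
  obtain ⟨E, hE⟩ : ∃ E : ℝ → ℝ, E = fun t => Real.exp (bL * (T - t)) := ⟨_, rfl⟩
  have hEp : ∀ t, 0 < E t := fun t => by rw [hE]; exact Real.exp_pos _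
  have hE1 : ∀ t, t ≤ T → 1 ≤ E t := fun t ht => by
    rw [hE]
    exact Real.one_le_exp (mul_nonneg hbL0 (by linarith only [ht]))
  have hEcd : ∀ t, ContDiffAt ℝ 2 E t := fun t => by
    rw [hE]
    exact (contDiffAt_const.mul (contDiffAt_const.sub contDiffAt_id)).exp
  have hEd : ∀ t, deriv E t = -bL * E t := by
    intro t
    rw [hE]
    have h1 : HasDerivAt (fun t : ℝ => bL * (T - t)) (bL * (0 - 1)) t :=
      ((hasDerivAt_const t T).sub (hasDerivAt_id t)).const_mul bL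
    rw [h1.exp.deriv]
    ring
  have main := huf3 ι T 1 3 b (fun _ => 0) (fun q => u q + E q.1 * UL q) (fun _ => 0)
    (fun _ => 0) hT one_pos (by norm_num) hb continuous_const (fun t => ⟨hb0 t, le_rfl⟩) (by
      intro q h0 h1
      obtain ⟨hKJ, hkp, hgam, hu0, hcd, himp⟩ := hq q h0 h1
      have hcdL : ContDiffAt ℝ 2 UL q := by
        rw [hUL]
        exact uL_cd hKJ hgam rfl rfl B lam ρ t₁ j
      have hcdE : ContDiffAt ℝ 2 (fun r : ℝ × (ι → ℝ) => E r.1) q :=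
        ContDiffAt.comp q (hEcd q.1) contDiffAt_fst
      refine ⟨add_nonneg hu0 (mul_nonneg (hEp _).le (hULn q h0 h1)),
        hcd.add (hcdE.mul hcdL), contDiffAt_const, le_rfl, zero_le_one, fun hlt => ?_⟩
      have hvn : UL q ≤ E q.1 * UL q := by
        have := mul_le_mul_of_nonneg_right (hE1 q.1 h1) (hULn q h0 h1)
        linarith only [this]
      have hu1 : u q < 1 := by
        have := hULn q h0 h1
        linarith only [hlt, hvn, this]
      have hUL1 : UL q < 1 := by linarith only [hu0, hlt, hvn]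
      obtain ⟨hLL, hKGd, hkI⟩ := himp hu1
      have hm : ∑ c, aa (kp q.1) (Gm q) o (e c) ≤ 2 * ρ := by
        have h3 : Real.exp (lam * ((∑ c, aa (kp q.1) (Gm q) o (e c)) - 2 * ρ)) < 1 := by
          refine lt_of_le_of_lt (uL_lb (e := e) (B := B) (lam := lam) (ρ := ρ) (j := j) ht1
            fun v _ => ?_) (by rw [← hULa]; exact hUL1)
          linarith only [haa q h0 h1 v, ht1]
        rw [Real.exp_lt_one_iff] at h3
        have h4 : (∑ c, aa (kp q.1) (Gm q) o (e c)) - 2 * ρ < 0 := by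
          by_contra hcon
          push Not at hcon
          exact absurd (mul_nonneg hl0.le hcon) (not_le.2 h3)
        linarith only [h4]
      obtain ⟨g', l', hHJ, hl'⟩ := hklj ι X e q Gm kp (Gm q) (kp q.1) g (μ q) o Rn B κs g₀ δ Lc
        kI t₁ ρ ε h lam j hKJ hKGd hgam hBR heB hkI hkI0 hj ht1 ht1' hρ hε0 hε1 hδg hκsL hh hlam
        hj1 hj2 hm
      have hHJu : HJ u q (u q) (fun c => dC c u q) (LL u q) := ⟨hcd, rfl, fun _ => rfl, rfl⟩
      have hHJL : HJ UL q (UL q) g' l' := by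
        rw [hUL]
        exact hHJ
      have hHJE : HJ (fun r : ℝ × (ι → ℝ) => E r.1) q (E q.1) (fun _ => 0) (deriv E q.1) :=
        LE.QF.H77.jtime E (hEcd q.1)
      have hmul := LE.QF.H77.jmul hHJE hHJL
      have hadd := LE.QF.H77.jadd hHJu hmul
      have hLLs : LL (fun r => u r + E r.1 * UL r) q =
          LL u q + (E q.1 * l' + deriv E q.1 * UL q + ∑ c, (0 : ℝ) * g' c) := hadd.ge
      have h0J := LE.QF.H77.jconst (ι := ι) (q := q) (0 : ℝ)
      refine ⟨?_, ?_, ?_⟩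
      · show LL (fun r => u r + E r.1 * UL r) q ≤ b q.1
        rw [hLLs, hEd]
        have h5 : l' ≤ bL * UL q := by
          refine hl'.trans ?_
          rw [hULa]
          exact mul_le_mul_of_nonneg_right hbL (by rw [← hULa]; exact hULn q h0 h1)
        have h6 := mul_le_mul_of_nonneg_left h5 (hEp q.1).le
        simp only [zero_mul, Finset.sum_const_zero]
        nlinarith only [hLL, h6]
      · have h7 : LL (fun _ : ℝ × (ι → ℝ) => (0 : ℝ)) q = 0 := h0J.ge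
        rw [h7]
        simp
      · have h8 : ∀ c, dC c (fun _ : ℝ × (ι → ℝ) => (0 : ℝ)) q = 0 := h0J.gr
        simp [h8])
  have hTT : ∀ V : ι → ℝ, u (T, V) + E T * UL (T, V) =
      u (T, V) + uL e B lam ρ t₁ j (kp T) (Gm (T, V)) o := by
    intro V
    rw [hULa]
    have h1 : E T = 1 := by rw [hE]; simp
    rw [h1, one_mul]
  simp only [mul_zero, zero_add, intervalIntegral.integral_zero, add_zero, hTT] at main
  rw [integral_const_mul] at main
  have h0 : UL (0, 0) ≤ (1 + B.card) * Real.exp (-(j : ℝ) / 5) := by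
    rw [hULa]
    exact uL_ub ht1 hρ hlam (haa (0, 0) le_rfl hT.le) hm0 hB0
  have hu00 : 0 ≤ u (0, 0) := (hq (0, 0) le_rfl hT.le).2.2.2.1
  have hE0 : E 0 = Real.exp (T * bL) := by
    rw [hE]
    show Real.exp (bL * (T - 0)) = _
    congr 1
    ring
  have h1 := cu_add hu00 (mul_nonneg (hEp 0).le (hULn (0, 0) le_rfl hT.le))
  have h2 : E 0 * UL (0, 0) ≤ Real.exp (T * bL) * ((1 + B.card) * Real.exp (-(j : ℝ) / 5)) := by
    rw [hE0]
    exact mul_le_mul_of_nonneg_left h0 (Real.exp_pos _).le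
  linarith only [main, h1, h2]

end Pool.Agent.KIL.H44
end
end -- Pool.Agent.Helper44_KIL.KLR

section -- Pool.Agent.Helper84_KIL.KJN

/-! Block KIL, row KJN: the jet of `aa`. -/

set_option autoImplicit false

open MeasureTheory ProbabilityTheory Function Filter

open scoped ENNReal BigOperators Topology NNReal ComplexOrder Matrix

noncomputable section

namespace Pool.Agent.KIL.H84

open Pool.Agent.LE.QF (HJ HM gG LL dC)
open Pool.Agent.LE.QF.H77 (jadd jmul jsum jtime jcomp jlin)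

section cst

variable {ι : Type} [Fintype ι] [DecidableEq ι] {E : Type} [NormedAddCommGroup E]
  [NormedSpace ℝ E]

theorem hj_cast {F F' : ℝ × (ι → ℝ) → E} {q : ℝ × (ι → ℝ)} {v v' : E} {g g' : ι → E} {l l' : E}
    (h : HJ F q v g l) (hF : F = F') (hv : v = v') (hg : g = g') (hl : l = l') :
    HJ F' q v' g' l' := by
  subst hF hv hg hl
  exact h

theorem jnsq {q : ℝ × (ι → ℝ)} {F : ℝ × (ι → ℝ) → ℂ} {v l : ℂ} {g : ι → ℂ}
    (h : HJ F q v g l) :
    HJ (fun r => ‖F r‖ ^ 2) q (‖v‖ ^ 2) (fun c => 2 * ((starRingEnd ℂ) v * g c).re)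
      (2 * ((starRingEnd ℂ) v * l).re + ∑ c, ‖g c‖ ^ 2) := by
  have h1 := jlin ((RCLike.conjCLE (K := ℂ)) : ℂ →L[ℝ] ℂ) h
  have h2 := jmul (𝕜 := ℂ) h1 h
  have h3 := jlin (RCLike.reCLM (K := ℂ)) h2
  have e1 : ∀ z : ℂ, ((starRingEnd ℂ) z * z).re = ‖z‖ ^ 2 := by
    intro z
    rw [← Complex.normSq_eq_conj_mul_self, Complex.ofReal_re, Complex.normSq_eq_norm_sq]
  have e2 : ∀ z w : ℂ, ((starRingEnd ℂ) w * z).re = ((starRingEnd ℂ) z * w).re := by
    intro z w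
    simp only [Complex.mul_re, Complex.conj_re, Complex.conj_im]
    ring
  refine hj_cast h3 ?_ ?_ ?_ ?_
  · funext r
    exact e1 (F r)
  · exact e1 v
  · funext c
    show ((starRingEnd ℂ) v * g c + (starRingEnd ℂ) (g c) * v).re = _
    rw [Complex.add_re, e2 v (g c)]
    ring
  · show ((starRingEnd ℂ) v * l + (starRingEnd ℂ) l * v +
      ∑ c, (starRingEnd ℂ) (g c) * g c).re = _
    rw [Complex.add_re, Complex.add_re, Complex.re_sum, e2 v l]
    simp only [e1]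
    ring

end cst

variable {ι X : Type} [Fintype ι] [DecidableEq ι] [Fintype X] [DecidableEq X] {e : ι → X}
  {q : ℝ × (ι → ℝ)} {Gm : ℝ × (ι → ℝ) → Matrix X X ℂ} {kp : ℝ → X → ℝ} {G : Matrix X X ℂ}
  {κ g : X → ℝ} {μ : ι → ℂ} {o : X}

theorem jnn (h : KJ e q Gm kp G κ g μ) (hΓ : 0 < gam κ G o) (v : X) :
    HJ (fun r => nn (kp r.1) (Gm r) o v) q (nn κ G o v) (fun c => -(gam κ G o * xx e κ G o v c))
      (gam κ G o * ((∑ c, ee e κ G o v c) + er e κ G μ o v -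
        ∑ c, if e c = v then AA e κ g G o c else 0)) := by
  have h1 := jnsq (h.hG v o)
  have h2 := jtime (q := q) (fun t => kp t v) (h.hk v).1
  have h3 := jmul (𝕜 := ℝ) h2 h1
  have hd : deriv (fun t => kp t v) q.1 * ‖G v o‖ ^ 2 =
      -(gam κ G o * ∑ c, if e c = v then AA e κ g G o c else 0) := by
    by_cases hv : v ∈ Set.range e
    · obtain ⟨c, rfl⟩ := hv
      rw [h.hd c, Finset.sum_eq_single c]
      · rw [if_pos rfl, AA]
        field_simp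
      · intro b _ hb
        rw [if_neg fun hh => hb (h.inj hh)]
      · intro hh
        exact absurd (Finset.mem_univ c) hh
    · rw [h.hd0 v hv, Finset.sum_eq_zero]
      · ring
      · intro c _
        rw [if_neg fun hh => hv ⟨c, hh⟩]
  refine hj_cast h3 rfl ?_ ?_ ?_
  · show kp q.1 v * ‖G v o‖ ^ 2 = κ v * ‖G v o‖ ^ 2
    rw [(h.hk v).2]
  · funext c
    show kp q.1 v * (2 * ((starRingEnd ℂ) (G v o) * (-(G v (e c) * G (e c) o))).re) +
      0 * ‖G v o‖ ^ 2 = _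
    rw [(h.hk v).2, xx, mul_neg, Complex.neg_re]
    field_simp
    ring
  · show kp q.1 v * (2 * ((starRingEnd ℂ) (G v o) * ∑ c, G v (e c) * μ c * G (e c) o).re +
      ∑ c, ‖-(G v (e c) * G (e c) o)‖ ^ 2) + deriv (fun t => kp t v) q.1 * ‖G v o‖ ^ 2 +
      ∑ c : ι, (0 : ℝ) * (2 * ((starRingEnd ℂ) (G v o) * (-(G v (e c) * G (e c) o))).re) = _
    have e1 : ∑ c, ee e κ G o v c = κ v * (∑ c, ‖G v (e c) * G (e c) o‖ ^ 2) / gam κ G o := by
      rw [Finset.mul_sum, Finset.sum_div]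
      rfl
    simp only [zero_mul, Finset.sum_const_zero, norm_neg]
    rw [hd, (h.hk v).2, e1, er]
    field_simp
    ring

theorem jgam (h : KJ e q Gm kp G κ g μ) (he : ∀ c, e c ≠ o) (hΓ : 0 < gam κ G o) :
    HJ (fun r => gam (kp r.1) (Gm r) o) q (gam κ G o) (fun c => -(gam κ G o * dd e κ G o c))
      (gam κ G o * ((∑ w ∈ Finset.univ.erase o, ((∑ c, ee e κ G o w c) + er e κ G μ o w)) -
        ∑ c, AA e κ g G o c)) := by
  have h1 := jsum (Finset.univ.erase o) _ _ _ _ fun v _ => jnn h hΓ v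
  refine hj_cast h1 rfl rfl ?_ ?_
  · funext c
    rw [dd, Finset.sum_neg_distrib, Finset.mul_sum]
  · rw [← Finset.mul_sum, Finset.sum_sub_distrib]
    congr 2
    rw [Finset.sum_comm]
    refine Finset.sum_congr rfl fun c _ => ?_
    rw [Finset.sum_ite_eq, if_pos (Finset.mem_erase.mpr ⟨he c, Finset.mem_univ _⟩)]

theorem jinv {F : ℝ × (ι → ℝ) → ℝ} {v l : ℝ} {g : ι → ℝ} (h : HJ F q v g l) (hv : v ≠ 0) :
    HJ (fun r => (F r)⁻¹) q v⁻¹ (fun c => -(v ^ 2)⁻¹ * g c)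
      (-(v ^ 2)⁻¹ * l + (v ^ 3)⁻¹ * ∑ c, g c ^ 2) := by
  have h1 := jcomp h (fun t => t⁻¹) (contDiffAt_inv ℝ hv)
  have e1 : deriv (fun t : ℝ => t⁻¹) v = -(v ^ 2)⁻¹ := deriv_inv
  have e2 : deriv (deriv fun t : ℝ => t⁻¹) v = 2 * (v ^ 3)⁻¹ := by
    have h2 : deriv (fun t : ℝ => t⁻¹) = fun t => -(t ^ 2)⁻¹ := by
      funext t
      exact deriv_inv
    rw [h2]
    have h3 : HasDerivAt (fun t : ℝ => -(t ^ 2)⁻¹) (-(-(2 * v) / (v ^ 2) ^ 2)) v := by
      have h4 : HasDerivAt (fun t : ℝ => t ^ 2) (2 * v) v := by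
        have h5 := hasDerivAt_pow 2 v
        rw [show ((2 : ℕ) : ℝ) * v ^ (2 - 1) = 2 * v by norm_num] at h5
        exact h5
      exact (h4.fun_inv (pow_ne_zero 2 hv)).neg
    rw [h3.deriv]
    field_simp
  refine hj_cast h1 rfl rfl ?_ ?_
  · funext c
    rw [e1]
  · rw [e1, e2]
    ring

theorem kjn : KjnStmt := by
  intro ι X _ _ _ _ e q Gm kp G κ g μ o h he hΓ v hv
  have h1 := jnn h hΓ v
  have h2 := jinv (jgam h he hΓ) hΓ.ne'
  have h3 := jmul (𝕜 := ℝ) h1 h2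
  refine hj_cast h3 ?_ ?_ ?_ ?_
  · funext r
    rw [aa, div_eq_mul_inv]
  · rw [aa, div_eq_mul_inv]
  · funext c
    rw [da, aa]
    field_simp
    ring
  · have e1 : ∑ c, -(gam κ G o * xx e κ G o v c) *
        (-(gam κ G o ^ 2)⁻¹ * -(gam κ G o * dd e κ G o c)) =
        -∑ c, xx e κ G o v c * dd e κ G o c := by
      rw [← Finset.sum_neg_distrib]
      refine Finset.sum_congr rfl fun c _ => ?_
      field_simp
    have e2 : ∑ c, (-(gam κ G o * dd e κ G o c)) ^ 2 =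
        gam κ G o ^ 2 * ∑ c, dd e κ G o c ^ 2 := by
      rw [Finset.mul_sum]
      refine Finset.sum_congr rfl fun c _ => ?_
      ring
    rw [e1, e2, la, aa]
    field_simp
    ring

end Pool.Agent.KIL.H84
end
end -- Pool.Agent.Helper84_KIL.KJN

section -- Pool.Agent.Helper97_ANR.MAS

/-!
# The total mass of the change of the resolvent in a kill run (AND2B, MP_1906c1_mp), helper97

`mas w A G Go = ∑_{x, y ∈ A} w_x w_y |G_xy - Go_xy|²`, `A` the nodes which are not touched, `w` their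
absorption, `Go` the resolvent at the start of the attempt, `ro w A G c = ∑_{x ∈ A} w_x |G_xc|²`.
-/

set_option autoImplicit false

open scoped BigOperators Matrix

noncomputable section

namespace Pool.Agent.ANR.H97

open Pool.Agent.LE.QF (HJ HM LL dC JalStmt)

variable {X : Type} [Fintype X] [DecidableEq X]

/-- the total mass of the change -/
def mas (w : X → ℝ) (A : Finset X) (G Go : Matrix X X ℂ) : ℝ :=
  ∑ x ∈ A, ∑ y ∈ A, w x * w y * ‖G x y - Go x y‖ ^ 2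

/-- the absorption in `A` of the wave emitted at `c` -/
def ro (w : X → ℝ) (A : Finset X) (G : Matrix X X ℂ) (c : X) : ℝ := ∑ x ∈ A, w x * ‖G x c‖ ^ 2

omit [Fintype X] [DecidableEq X] in
theorem mas_nonneg (w : X → ℝ) (A : Finset X) (G Go : Matrix X X ℂ) (hw : ∀ x ∈ A, 0 ≤ w x) :
    0 ≤ mas w A G Go :=
  Finset.sum_nonneg fun x hx => Finset.sum_nonneg fun y hy =>
    mul_nonneg (mul_nonneg (hw x hx) (hw y hy)) (sq_nonneg _)

omit [Fintype X] [DecidableEq X] in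
theorem ro_nonneg (w : X → ℝ) (A : Finset X) (G : Matrix X X ℂ) (c : X)
    (hw : ∀ x ∈ A, 0 ≤ w x) : 0 ≤ ro w A G c :=
  Finset.sum_nonneg fun x hx => mul_nonneg (hw x hx) (sq_nonneg _)

omit [Fintype X] [DecidableEq X] in
/-- Cauchy-Schwarz over the pairs -/
theorem mas_cs (w : X → ℝ) (A : Finset X) (G Go : Matrix X X ℂ) (c : X)
    (hs : ∀ x y, G x y = G y x) (hw : ∀ x ∈ A, 0 ≤ w x) :
    ∑ x ∈ A, ∑ y ∈ A, w x * w y * (‖G x y - Go x y‖ * (‖G x c‖ * ‖G c y‖)) ≤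
      Real.sqrt (mas w A G Go) * ro w A G c := by
  have h0 := ro_nonneg w A G c hw
  have e1 : ∑ x ∈ A, ∑ y ∈ A, w x * w y * (‖G x y - Go x y‖ * (‖G x c‖ * ‖G c y‖)) =
      ∑ p ∈ A ×ˢ A, (Real.sqrt (w p.1 * w p.2) * ‖G p.1 p.2 - Go p.1 p.2‖) *
        (Real.sqrt (w p.1 * w p.2) * (‖G p.1 c‖ * ‖G c p.2‖)) := by
    rw [Finset.sum_product]
    refine Finset.sum_congr rfl fun x hx => Finset.sum_congr rfl fun y hy => ?_
    have h1 : Real.sqrt (w x * w y) * Real.sqrt (w x * w y) = w x * w y :=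
      Real.mul_self_sqrt (mul_nonneg (hw x hx) (hw y hy))
    simp only
    calc w x * w y * (‖G x y - Go x y‖ * (‖G x c‖ * ‖G c y‖)) =
        (Real.sqrt (w x * w y) * Real.sqrt (w x * w y)) *
          (‖G x y - Go x y‖ * (‖G x c‖ * ‖G c y‖)) := by rw [h1]
      _ = _ := by ring
  rw [e1]
  refine (Real.sum_mul_le_sqrt_mul_sqrt (A ×ˢ A) _ _).trans ?_
  have e2 : ∑ p ∈ A ×ˢ A, (Real.sqrt (w p.1 * w p.2) * ‖G p.1 p.2 - Go p.1 p.2‖) ^ 2 =
      mas w A G Go := by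
    rw [Finset.sum_product]
    unfold mas
    refine Finset.sum_congr rfl fun x hx => Finset.sum_congr rfl fun y hy => ?_
    rw [mul_pow, Real.sq_sqrt (mul_nonneg (hw x hx) (hw y hy))]
  have e3 : ∑ p ∈ A ×ˢ A, (Real.sqrt (w p.1 * w p.2) * (‖G p.1 c‖ * ‖G c p.2‖)) ^ 2 =
      ro w A G c ^ 2 := by
    rw [Finset.sum_product]
    unfold ro
    rw [sq, Finset.sum_mul_sum]
    refine Finset.sum_congr rfl fun x hx => Finset.sum_congr rfl fun y hy => ?_
    simp only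
    rw [mul_pow, Real.sq_sqrt (mul_nonneg (hw x hx) (hw y hy)), mul_pow, hs c y]
    ring
  rw [e2, e3, Real.sqrt_sq h0]

omit [Fintype X] [DecidableEq X] in
/-- MAS: the jet of the total mass in a kill run: the sources are `e c`, `c : ι`, the gauge errors
`μ c`; the weights `w` do not depend on the time -/
theorem mas_jet (hJ : JalStmt) {ι : Type} [Fintype ι] [DecidableEq ι] (e : ι → X)
    (q : ℝ × (ι → ℝ)) (Gm : ℝ × (ι → ℝ) → Matrix X X ℂ) (G Go : Matrix X X ℂ) (μ : ι → ℂ)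
    (w : X → ℝ) (A : Finset X)
    (hG : HM Gm q G (fun c a b => -(G a (e c) * G (e c) b))
      (fun a b => ∑ c, G a (e c) * μ c * G (e c) b))
    (hs : ∀ a b, G a b = G b a) (hw : ∀ x ∈ A, 0 ≤ w x) :
    ∃ (g' : ι → ℝ) (l' : ℝ), HJ (fun r => mas w A (Gm r) Go) q (mas w A G Go) g' l' ∧
      l' ≤ ∑ c, ro w A G (e c) ^ 2 +
        2 * Real.sqrt (mas w A G Go) * ∑ c, ‖μ c‖ * ro w A G (e c) ∧
      ∑ c, g' c ^ 2 ≤ 4 * mas w A G Go * ∑ c, ro w A G (e c) ^ 2 := by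
  obtain ⟨hcC, _, haddC, hconjC, _, _, _, _⟩ := hJ ι ℂ q
  obtain ⟨hcR, _, haddR, _, _, hsumR, _, _⟩ := hJ ι ℝ q
  have hM0 := mas_nonneg w A G Go hw
  have hr0 : ∀ c, 0 ≤ ro w A G (e c) := fun c => ro_nonneg w A G (e c) hw
  -- one entry
  have h1 : ∀ x y, HJ (fun r => ‖Gm r x y - Go x y‖ ^ 2) q (‖G x y - Go x y‖ ^ 2)
      (fun c => -(2 * ((starRingEnd ℂ) (G x y - Go x y) * (G x (e c) * G (e c) y)).re))
      (2 * ((starRingEnd ℂ) (G x y - Go x y) * ∑ c, G x (e c) * μ c * G (e c) y).re +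
        ∑ c, (‖G x (e c)‖ ^ 2 * ‖G (e c) y‖ ^ 2)) := by
    intro x y
    have a1 := (haddC _ _ _ _ _ _ _ _ (hG x y) (hcC (Go x y))).2.1
    have a2 := (hconjC _ _ _ _ a1).1
    have a3 := (haddC _ _ _ _ _ _ _ _ a1 a2).2.2
    have a4 := (hconjC _ _ _ _ a3).2.1
    have e0 : (fun r => ‖Gm r x y - Go x y‖ ^ 2) =
        fun r => RCLike.re ((Gm r x y - Go x y) * (starRingEnd ℂ) (Gm r x y - Go x y)) := by
      funext r
      rw [RCLike.mul_conj]
      norm_cast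
    have e1 : ‖G x y - Go x y‖ ^ 2 =
        RCLike.re ((G x y - Go x y) * (starRingEnd ℂ) (G x y - Go x y)) := by
      rw [RCLike.mul_conj]
      norm_cast
    have e2 : (fun c => -(2 * ((starRingEnd ℂ) (G x y - Go x y) * (G x (e c) * G (e c) y)).re)) =
        fun c => RCLike.re ((G x y - Go x y) * (starRingEnd ℂ) (-(G x (e c) * G (e c) y) - 0) +
          (-(G x (e c) * G (e c) y) - 0) * (starRingEnd ℂ) (G x y - Go x y)) := by
      funext c
      simp only [sub_zero, map_neg, RCLike.re_to_complex, Complex.add_re, Complex.mul_re,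
        Complex.neg_re, Complex.neg_im, Complex.conj_re, Complex.conj_im, map_mul, Complex.mul_im]
      ring
    have e3 : 2 * ((starRingEnd ℂ) (G x y - Go x y) * ∑ c, G x (e c) * μ c * G (e c) y).re +
        ∑ c, (‖G x (e c)‖ ^ 2 * ‖G (e c) y‖ ^ 2) =
        RCLike.re ((G x y - Go x y) *
            (starRingEnd ℂ) ((∑ c, G x (e c) * μ c * G (e c) y) - 0) +
          ((∑ c, G x (e c) * μ c * G (e c) y) - 0) * (starRingEnd ℂ) (G x y - Go x y) +
          ∑ c, (-(G x (e c) * G (e c) y) - 0) *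
            (starRingEnd ℂ) (-(G x (e c) * G (e c) y) - 0)) := by
      have f1 : ∀ z z' : ℂ, (z * (starRingEnd ℂ) z' + z' * (starRingEnd ℂ) z).re =
          2 * ((starRingEnd ℂ) z * z').re := by
        intro z z'
        simp only [Complex.add_re, Complex.mul_re, Complex.conj_re, Complex.conj_im]
        ring
      simp only [sub_zero, RCLike.re_to_complex]
      rw [Complex.add_re, f1, Complex.re_sum]
      congr 1
      refine Finset.sum_congr rfl fun c _ => ?_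
      rw [map_neg, neg_mul_neg, Complex.mul_conj, Complex.ofReal_re, Complex.normSq_eq_norm_sq,
        norm_mul, mul_pow]
    rw [e0, e1, e2, e3]
    exact a4
  -- with weights
  have h2 : ∀ x ∈ A, HJ (fun r => ∑ y ∈ A, w x * w y * ‖Gm r x y - Go x y‖ ^ 2) q
      (∑ y ∈ A, w x * w y * ‖G x y - Go x y‖ ^ 2)
      (fun c => ∑ y ∈ A, w x * w y *
        (-(2 * ((starRingEnd ℂ) (G x y - Go x y) * (G x (e c) * G (e c) y)).re)))
      (∑ y ∈ A, w x * w y *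
        (2 * ((starRingEnd ℂ) (G x y - Go x y) * ∑ c, G x (e c) * μ c * G (e c) y).re +
        ∑ c, (‖G x (e c)‖ ^ 2 * ‖G (e c) y‖ ^ 2))) := by
    intro x _
    refine hsumR X A (fun y r => w x * w y * ‖Gm r x y - Go x y‖ ^ 2)
      (fun y => w x * w y * ‖G x y - Go x y‖ ^ 2)
      (fun y => w x * w y *
        (2 * ((starRingEnd ℂ) (G x y - Go x y) * ∑ c, G x (e c) * μ c * G (e c) y).re +
        ∑ c, (‖G x (e c)‖ ^ 2 * ‖G (e c) y‖ ^ 2)))
      (fun y c => w x * w y *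
        (-(2 * ((starRingEnd ℂ) (G x y - Go x y) * (G x (e c) * G (e c) y)).re))) fun y _ => ?_
    have a1 := (haddR _ _ _ _ _ _ _ _ (hcR (w x * w y)) (h1 x y)).2.2
    simpa using a1
  have h3 := hsumR X A (fun x r => ∑ y ∈ A, w x * w y * ‖Gm r x y - Go x y‖ ^ 2)
      (fun x => ∑ y ∈ A, w x * w y * ‖G x y - Go x y‖ ^ 2)
      (fun x => ∑ y ∈ A, w x * w y *
        (2 * ((starRingEnd ℂ) (G x y - Go x y) * ∑ c, G x (e c) * μ c * G (e c) y).re +
        ∑ c, (‖G x (e c)‖ ^ 2 * ‖G (e c) y‖ ^ 2)))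
      (fun x c => ∑ y ∈ A, w x * w y *
        (-(2 * ((starRingEnd ℂ) (G x y - Go x y) * (G x (e c) * G (e c) y)).re))) h2
  refine ⟨_, _, h3, ?_, ?_⟩
  · -- the drift
    have b1 : ∑ x ∈ A, ∑ y ∈ A, w x * w y *
        (2 * ((starRingEnd ℂ) (G x y - Go x y) * ∑ c, G x (e c) * μ c * G (e c) y).re +
        ∑ c, (‖G x (e c)‖ ^ 2 * ‖G (e c) y‖ ^ 2)) =
        ∑ c, ((∑ x ∈ A, ∑ y ∈ A, w x * w y *
          (2 * ((starRingEnd ℂ) (G x y - Go x y) * (G x (e c) * μ c * G (e c) y)).re)) +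
          ∑ x ∈ A, ∑ y ∈ A, w x * w y * (‖G x (e c)‖ ^ 2 * ‖G (e c) y‖ ^ 2)) := by
      rw [Finset.sum_add_distrib]
      have c1 : ∀ F : ι → X → X → ℝ, ∑ c, ∑ x ∈ A, ∑ y ∈ A, F c x y =
          ∑ x ∈ A, ∑ y ∈ A, ∑ c, F c x y := by
        intro F
        rw [Finset.sum_comm]
        refine Finset.sum_congr rfl fun x _ => ?_
        rw [Finset.sum_comm]
      rw [c1, c1, ← Finset.sum_add_distrib]
      refine Finset.sum_congr rfl fun x _ => ?_
      rw [← Finset.sum_add_distrib]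
      refine Finset.sum_congr rfl fun y _ => ?_
      have k1 : ((starRingEnd ℂ) (G x y - Go x y) * ∑ c, G x (e c) * μ c * G (e c) y).re =
          ∑ c, ((starRingEnd ℂ) (G x y - Go x y) * (G x (e c) * μ c * G (e c) y)).re := by
        rw [Finset.mul_sum, Complex.re_sum]
      rw [k1, mul_add]
      simp only [Finset.mul_sum]
    rw [b1, Finset.sum_add_distrib, add_comm, Finset.mul_sum]
    refine add_le_add ?_ ?_
    · refine Finset.sum_le_sum fun c _ => le_of_eq ?_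
      unfold ro
      rw [sq, Finset.sum_mul_sum]
      refine Finset.sum_congr rfl fun x _ => Finset.sum_congr rfl fun y _ => ?_
      rw [hs (e c) y]
      ring
    · refine Finset.sum_le_sum fun c _ => ?_
      have b2 : ∑ x ∈ A, ∑ y ∈ A, w x * w y *
          (2 * ((starRingEnd ℂ) (G x y - Go x y) * (G x (e c) * μ c * G (e c) y)).re) ≤
          ∑ x ∈ A, ∑ y ∈ A, 2 * ‖μ c‖ *
            (w x * w y * (‖G x y - Go x y‖ * (‖G x (e c)‖ * ‖G (e c) y‖))) := by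
        refine Finset.sum_le_sum fun x hx => Finset.sum_le_sum fun y hy => ?_
        have c1 := Complex.re_le_norm
          ((starRingEnd ℂ) (G x y - Go x y) * (G x (e c) * μ c * G (e c) y))
        rw [norm_mul, RCLike.norm_conj, norm_mul, norm_mul] at c1
        have c2 : 0 ≤ w x * w y := mul_nonneg (hw x hx) (hw y hy)
        calc w x * w y *
            (2 * ((starRingEnd ℂ) (G x y - Go x y) * (G x (e c) * μ c * G (e c) y)).re) ≤
            w x * w y * (2 * (‖G x y - Go x y‖ * (‖G x (e c)‖ * ‖μ c‖ * ‖G (e c) y‖))) :=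
              mul_le_mul_of_nonneg_left (by linarith) c2
          _ = _ := by ring
      refine b2.trans ?_
      have b3 : ∑ x ∈ A, ∑ y ∈ A, 2 * ‖μ c‖ *
            (w x * w y * (‖G x y - Go x y‖ * (‖G x (e c)‖ * ‖G (e c) y‖))) =
          2 * ‖μ c‖ * ∑ x ∈ A, ∑ y ∈ A,
            w x * w y * (‖G x y - Go x y‖ * (‖G x (e c)‖ * ‖G (e c) y‖)) := by
        rw [Finset.mul_sum]
        refine Finset.sum_congr rfl fun x _ => ?_
        rw [Finset.mul_sum]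
      rw [b3]
      calc 2 * ‖μ c‖ * ∑ x ∈ A, ∑ y ∈ A,
            w x * w y * (‖G x y - Go x y‖ * (‖G x (e c)‖ * ‖G (e c) y‖)) ≤
          2 * ‖μ c‖ * (Real.sqrt (mas w A G Go) * ro w A G (e c)) :=
            mul_le_mul_of_nonneg_left (mas_cs w A G Go (e c) hs hw) (by positivity)
        _ = _ := by ring
  · -- the gradient
    rw [Finset.mul_sum]
    refine Finset.sum_le_sum fun c _ => ?_
    have b1 : |∑ x ∈ A, ∑ y ∈ A, w x * w y *
        (-(2 * ((starRingEnd ℂ) (G x y - Go x y) * (G x (e c) * G (e c) y)).re))| ≤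
        2 * (Real.sqrt (mas w A G Go) * ro w A G (e c)) := by
      refine (Finset.abs_sum_le_sum_abs _ _).trans ?_
      refine (Finset.sum_le_sum fun x _ => Finset.abs_sum_le_sum_abs _ _).trans ?_
      refine le_trans ?_ (mul_le_mul_of_nonneg_left (mas_cs w A G Go (e c) hs hw)
        (by norm_num : (0 : ℝ) ≤ 2))
      rw [Finset.mul_sum]
      refine Finset.sum_le_sum fun x hx => ?_
      rw [Finset.mul_sum]
      refine Finset.sum_le_sum fun y hy => ?_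
      have c1 := Complex.abs_re_le_norm
        ((starRingEnd ℂ) (G x y - Go x y) * (G x (e c) * G (e c) y))
      rw [norm_mul, RCLike.norm_conj, norm_mul] at c1
      have c2 : 0 ≤ w x * w y := mul_nonneg (hw x hx) (hw y hy)
      rw [abs_mul (w x * w y), abs_neg, abs_mul (2 : ℝ), abs_two, abs_of_nonneg c2]
      calc w x * w y * (2 * |((starRingEnd ℂ) (G x y - Go x y) * (G x (e c) * G (e c) y)).re|) ≤
          w x * w y * (2 * (‖G x y - Go x y‖ * (‖G x (e c)‖ * ‖G (e c) y‖))) :=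
            mul_le_mul_of_nonneg_left (by linarith) c2
        _ = _ := by ring
    have b2 := pow_le_pow_left₀ (abs_nonneg _) b1 2
    rw [sq_abs] at b2
    refine b2.trans (le_of_eq ?_)
    rw [mul_pow, mul_pow, Real.sq_sqrt hM0]
    ring

end Pool.Agent.ANR.H97
end
end -- Pool.Agent.Helper97_ANR.MAS

section -- Pool.Agent.Helper97_ATT.MAJ

/-!
# Row MAJ (helper97): the jet of the total mass of the change in a kill run
-/

set_option autoImplicit false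

open scoped BigOperators Matrix

noncomputable section

namespace Pool.Agent.ATT.H97

open Pool.Agent.LE.QF (HJ HM gG LL dC JalStmt)
open Pool.Agent.KIL (KJ)
open Pool.Agent.ANR.H97 (mas ro mas_nonneg ro_nonneg mas_cs)

/-- the jet of one entry -/
theorem ent_jet (hJ : JalStmt) {ι : Type} [Fintype ι] [DecidableEq ι] (q : ℝ × (ι → ℝ))
    (F : ℝ × (ι → ℝ) → ℂ) (v v₀ l : ℂ) (g : ι → ℂ) (h : HJ F q v g l) :
    HJ (fun r => ‖F r - v₀‖ ^ 2) q (‖v - v₀‖ ^ 2)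
      (fun c => 2 * ((starRingEnd ℂ) (v - v₀) * g c).re)
      (2 * ((starRingEnd ℂ) (v - v₀) * l).re + ∑ c, ‖g c‖ ^ 2) := by
  obtain ⟨hcC, _, haddC, hconjC, _, _, _, _⟩ := hJ ι ℂ q
  have a1 := (haddC _ _ _ _ _ _ _ _ h (hcC v₀)).2.1
  have a2 := (hconjC _ _ _ _ a1).1
  have a3 := (haddC _ _ _ _ _ _ _ _ a1 a2).2.2
  have a4 := (hconjC _ _ _ _ a3).2.1
  have f1 : ∀ z z' : ℂ, (z * (starRingEnd ℂ) z' + z' * (starRingEnd ℂ) z).re =
      2 * ((starRingEnd ℂ) z * z').re := by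
    intro z z'
    simp only [Complex.add_re, Complex.mul_re, Complex.conj_re, Complex.conj_im]
    ring
  have e0 : (fun r => ‖F r - v₀‖ ^ 2) =
      fun r => RCLike.re ((F r - v₀) * (starRingEnd ℂ) (F r - v₀)) := by
    funext r
    rw [RCLike.mul_conj]
    norm_cast
  have e1 : ‖v - v₀‖ ^ 2 = RCLike.re ((v - v₀) * (starRingEnd ℂ) (v - v₀)) := by
    rw [RCLike.mul_conj]
    norm_cast
  have e2 : (fun c => 2 * ((starRingEnd ℂ) (v - v₀) * g c).re) =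
      fun c => RCLike.re ((v - v₀) * (starRingEnd ℂ) (g c - 0) +
        (g c - 0) * (starRingEnd ℂ) (v - v₀)) := by
    funext c
    simp only [sub_zero, RCLike.re_to_complex]
    rw [f1]
  have e3 : 2 * ((starRingEnd ℂ) (v - v₀) * l).re + ∑ c, ‖g c‖ ^ 2 =
      RCLike.re ((v - v₀) * (starRingEnd ℂ) (l - 0) + (l - 0) * (starRingEnd ℂ) (v - v₀) +
        ∑ c, (g c - 0) * (starRingEnd ℂ) (g c - 0)) := by
    simp only [sub_zero, RCLike.re_to_complex]
    rw [Complex.add_re, f1, Complex.re_sum]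
    congr 1
    refine Finset.sum_congr rfl fun c _ => ?_
    rw [Complex.mul_conj, Complex.ofReal_re, Complex.normSq_eq_norm_sq]
  rw [e0, e1, e2, e3]
  exact a4

theorem maj : MajStmt := by
  intro ι X _ _ _ _ e q Gm kp G Go κ g μ A₃ hK hA
  have hJ : JalStmt := Pool.Agent.LE.QF.H77.jal
  obtain ⟨_, _, haddR, _, _, hsumR, htR, _⟩ := hJ ι ℝ q
  -- the absorption on `A₃`
  have hk : ∀ x ∈ A₃, HJ (fun r : ℝ × (ι → ℝ) => kp r.1 x) q (κ x) (fun _ => 0) 0 := by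
    intro x hx
    have h1 := htR (fun t => kp t x) (hK.hk x).1
    have h2 : deriv (fun t => kp t x) q.1 = 0 := hK.hd0 x (by
      rintro ⟨c, rfl⟩
      exact hA c hx)
    rw [h2] at h1
    have h3 : kp q.1 x = κ x := (hK.hk x).2
    rw [h3] at h1
    exact h1
  -- one entry
  obtain ⟨gr, hgr⟩ : ∃ gr : X → X → ι → ℝ, gr = fun x y c =>
    2 * ((starRingEnd ℂ) (G x y - Go x y) * -(G x (e c) * G (e c) y)).re := ⟨_, rfl⟩
  obtain ⟨lr, hlr⟩ : ∃ lr : X → X → ℝ, lr = fun x y =>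
    2 * ((starRingEnd ℂ) (G x y - Go x y) * ∑ c, G x (e c) * μ c * G (e c) y).re +
      ∑ c, ‖-(G x (e c) * G (e c) y)‖ ^ 2 := ⟨_, rfl⟩
  have h1 : ∀ x y, HJ (fun r => ‖Gm r x y - Go x y‖ ^ 2) q (‖G x y - Go x y‖ ^ 2)
      (gr x y) (lr x y) := by
    intro x y
    rw [hgr, hlr]
    exact ent_jet hJ q _ _ (Go x y) _ _ (hK.hG x y)
  -- with weights
  have h2 : ∀ x ∈ A₃, ∀ y ∈ A₃, HJ (fun r => kp r.1 y * ‖Gm r x y - Go x y‖ ^ 2) q
      (κ y * ‖G x y - Go x y‖ ^ 2) (fun c => κ y * gr x y c) (κ y * lr x y) := by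
    intro x _ y hy
    have a1 := (haddR _ _ _ _ _ _ _ _ (hk y hy) (h1 x y)).2.2
    simpa using a1
  have h3 : ∀ x ∈ A₃, HJ (fun r => mx (kp r.1) A₃ (Gm r) Go x) q (mx κ A₃ G Go x)
      (fun c => ∑ y ∈ A₃, κ y * gr x y c) (∑ y ∈ A₃, κ y * lr x y) := by
    intro x hx
    exact hsumR X A₃ (fun y r => kp r.1 y * ‖Gm r x y - Go x y‖ ^ 2)
      (fun y => κ y * ‖G x y - Go x y‖ ^ 2) (fun y => κ y * lr x y)
      (fun y c => κ y * gr x y c) (h2 x hx)
  have h4 : ∀ x ∈ A₃, HJ (fun r => kp r.1 x * mx (kp r.1) A₃ (Gm r) Go x) q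
      (κ x * mx κ A₃ G Go x) (fun c => κ x * ∑ y ∈ A₃, κ y * gr x y c)
      (κ x * ∑ y ∈ A₃, κ y * lr x y) := by
    intro x hx
    have a1 := (haddR _ _ _ _ _ _ _ _ (hk x hx) (h3 x hx)).2.2
    simpa using a1
  have h5 := hsumR X A₃ (fun x r => kp r.1 x * mx (kp r.1) A₃ (Gm r) Go x)
      (fun x => κ x * mx κ A₃ G Go x) (fun x => κ x * ∑ y ∈ A₃, κ y * lr x y)
      (fun x c => κ x * ∑ y ∈ A₃, κ y * gr x y c) h4
  refine ⟨_, _, h5, ?_⟩
  intro M gb hκ hM hgb hb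
  have hs := hK.hs
  have hmas : mas κ A₃ G Go = MM κ A₃ G Go := by
    unfold mas MM mx
    refine Finset.sum_congr rfl fun x _ => ?_
    rw [Finset.mul_sum]
    refine Finset.sum_congr rfl fun y _ => ?_
    ring
  have hM0 := mas_nonneg κ A₃ G Go hκ
  have hMM : mas κ A₃ G Go ≤ M := hmas ▸ hM
  have hr0 : ∀ c, 0 ≤ ro κ A₃ G (e c) := fun c => ro_nonneg κ A₃ G (e c) hκ
  have hrb : ∀ c, ro κ A₃ G (e c) ≤ gb := by
    intro c
    refine le_trans (le_of_eq ?_) (hb c)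
    unfold ro
    refine Finset.sum_congr rfl fun x _ => ?_
    rw [hs x (e c)]
  have hcs : ∀ c, ∑ x ∈ A₃, ∑ y ∈ A₃,
      κ x * κ y * (‖G x y - Go x y‖ * (‖G x (e c)‖ * ‖G (e c) y‖)) ≤ Real.sqrt M * gb := by
    intro c
    refine (mas_cs κ A₃ G Go (e c) hs hκ).trans ?_
    exact mul_le_mul (Real.sqrt_le_sqrt hMM) (hrb c) (hr0 c) (Real.sqrt_nonneg _)
  constructor
  · -- the drift
    have b0 : ∀ x y, lr x y = ∑ c,
        (2 * ((starRingEnd ℂ) (G x y - Go x y) * (G x (e c) * μ c * G (e c) y)).re +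
          ‖G x (e c)‖ ^ 2 * ‖G (e c) y‖ ^ 2) := by
      intro x y
      rw [hlr]
      simp only
      rw [Finset.sum_add_distrib, Finset.mul_sum, Complex.re_sum, Finset.mul_sum]
      congr 1
      refine Finset.sum_congr rfl fun c _ => ?_
      rw [norm_neg, norm_mul, mul_pow]
    have b1 : ∑ x ∈ A₃, κ x * ∑ y ∈ A₃, κ y * lr x y = ∑ c, ∑ x ∈ A₃, ∑ y ∈ A₃,
        (κ x * κ y) * (2 * ((starRingEnd ℂ) (G x y - Go x y) *
          (G x (e c) * μ c * G (e c) y)).re + ‖G x (e c)‖ ^ 2 * ‖G (e c) y‖ ^ 2) := by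
      rw [Finset.sum_comm]
      refine Finset.sum_congr rfl fun x _ => ?_
      rw [Finset.sum_comm, Finset.mul_sum]
      refine Finset.sum_congr rfl fun y _ => ?_
      rw [b0, ← Finset.mul_sum]
      ring
    rw [b1]
    refine Finset.sum_le_sum fun c _ => ?_
    have b2 : ∑ x ∈ A₃, ∑ y ∈ A₃, (κ x * κ y) * (2 * ((starRingEnd ℂ) (G x y - Go x y) *
          (G x (e c) * μ c * G (e c) y)).re + ‖G x (e c)‖ ^ 2 * ‖G (e c) y‖ ^ 2) ≤
        ∑ x ∈ A₃, ∑ y ∈ A₃, (2 * ‖μ c‖ * (κ x * κ y * (‖G x y - Go x y‖ *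
          (‖G x (e c)‖ * ‖G (e c) y‖))) + (κ x * ‖G x (e c)‖ ^ 2) * (κ y * ‖G y (e c)‖ ^ 2)) := by
      refine Finset.sum_le_sum fun x hx => Finset.sum_le_sum fun y hy => ?_
      have c1 := Complex.re_le_norm
        ((starRingEnd ℂ) (G x y - Go x y) * (G x (e c) * μ c * G (e c) y))
      rw [norm_mul, RCLike.norm_conj, norm_mul, norm_mul] at c1
      have c2 : 0 ≤ κ x * κ y := mul_nonneg (hκ x hx) (hκ y hy)
      rw [hs y (e c)]
      calc (κ x * κ y) * (2 * ((starRingEnd ℂ) (G x y - Go x y) *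
            (G x (e c) * μ c * G (e c) y)).re + ‖G x (e c)‖ ^ 2 * ‖G (e c) y‖ ^ 2) ≤
          (κ x * κ y) * (2 * (‖G x y - Go x y‖ * (‖G x (e c)‖ * ‖μ c‖ * ‖G (e c) y‖)) +
            ‖G x (e c)‖ ^ 2 * ‖G (e c) y‖ ^ 2) :=
            mul_le_mul_of_nonneg_left (by linarith) c2
        _ = _ := by ring
    refine b2.trans ?_
    have b3 : ∑ x ∈ A₃, ∑ y ∈ A₃, (2 * ‖μ c‖ * (κ x * κ y * (‖G x y - Go x y‖ *
          (‖G x (e c)‖ * ‖G (e c) y‖))) + (κ x * ‖G x (e c)‖ ^ 2) * (κ y * ‖G y (e c)‖ ^ 2)) =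
        2 * ‖μ c‖ * (∑ x ∈ A₃, ∑ y ∈ A₃, κ x * κ y * (‖G x y - Go x y‖ *
          (‖G x (e c)‖ * ‖G (e c) y‖))) + ro κ A₃ G (e c) ^ 2 := by
      unfold ro
      rw [sq, Finset.sum_mul_sum, Finset.mul_sum, ← Finset.sum_add_distrib]
      refine Finset.sum_congr rfl fun x _ => ?_
      rw [Finset.mul_sum, ← Finset.sum_add_distrib]
    rw [b3]
    refine add_le_add ?_ (pow_le_pow_left₀ (hr0 c) (hrb c) 2)
    calc 2 * ‖μ c‖ * (∑ x ∈ A₃, ∑ y ∈ A₃, κ x * κ y * (‖G x y - Go x y‖ *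
          (‖G x (e c)‖ * ‖G (e c) y‖))) ≤ 2 * ‖μ c‖ * (Real.sqrt M * gb) :=
          mul_le_mul_of_nonneg_left (hcs c) (by positivity)
      _ = _ := by ring
  · -- the gradient
    intro c
    have b1 : |∑ x ∈ A₃, κ x * ∑ y ∈ A₃, κ y * gr x y c| ≤ 2 * (Real.sqrt M * gb) := by
      refine le_trans ?_ (mul_le_mul_of_nonneg_left (hcs c) (by norm_num : (0 : ℝ) ≤ 2))
      refine (Finset.abs_sum_le_sum_abs _ _).trans ?_
      rw [Finset.mul_sum]
      refine Finset.sum_le_sum fun x hx => ?_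
      rw [abs_mul, abs_of_nonneg (hκ x hx)]
      refine (mul_le_mul_of_nonneg_left (Finset.abs_sum_le_sum_abs _ _) (hκ x hx)).trans ?_
      rw [Finset.mul_sum, Finset.mul_sum]
      refine Finset.sum_le_sum fun y hy => ?_
      rw [hgr]
      simp only
      have c1 := Complex.abs_re_le_norm
        ((starRingEnd ℂ) (G x y - Go x y) * -(G x (e c) * G (e c) y))
      rw [norm_mul, RCLike.norm_conj, norm_neg, norm_mul] at c1
      rw [abs_mul, abs_of_nonneg (hκ y hy), abs_mul, abs_two]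
      have c2 : 0 ≤ κ x * κ y := mul_nonneg (hκ x hx) (hκ y hy)
      calc κ x * (κ y * (2 * |((starRingEnd ℂ) (G x y - Go x y) *
            -(G x (e c) * G (e c) y)).re|)) =
          (κ x * κ y) * (2 * |((starRingEnd ℂ) (G x y - Go x y) *
            -(G x (e c) * G (e c) y)).re|) := by ring
        _ ≤ (κ x * κ y) * (2 * (‖G x y - Go x y‖ * (‖G x (e c)‖ * ‖G (e c) y‖))) :=
            mul_le_mul_of_nonneg_left (by linarith) c2
        _ = _ := by ring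
    have b2 := pow_le_pow_left₀ (abs_nonneg _) b1 2
    rw [sq_abs] at b2
    refine b2.trans (le_of_eq ?_)
    have hMn : 0 ≤ M := hM0.trans hMM
    rw [mul_pow, mul_pow, Real.sq_sqrt hMn]
    ring

end Pool.Agent.ATT.H97
end
end -- Pool.Agent.Helper97_ATT.MAJ
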