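import Pool.Agent.Helper12_MEB.B103

/-!
# Merged copies (generated) of the modules

* `Pool.Agent.Helper38_KIL.KAL`
* `Pool.Agent.Helper58_KIL.KJA`
* `Pool.Agent.Helper58_KIL.KLJ`
-/

set_option autoImplicit false

section -- Pool.Agent.Helper38_KIL.KAL

/-!
# The algebra of the Lyapunov function of the pre-kills
-/

set_option autoImplicit false

open scoped BigOperators

noncomputable section

namespace Pool.Agent.KIL.H38

/-- the weighted sum of the `x v` -/
theorem csw {W : Type} [Fintype W] (H : Finset W) (a ω : W → ℝ) (x e : W → ℝ) (M q : ℝ)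
    (ha : ∀ v, 0 ≤ a v) (he : ∀ v, 0 ≤ e v ∧ x v ^ 2 ≤ 4 * (a v * e v)) (hM : 0 ≤ M)
    (hω : ∀ v, ω v ^ 2 ≤ M) (hH : ∀ v, v ∉ H → ω v = 0) (h1 : ∑ v, a v = 1)
    (hq : ∑ v ∈ H, e v ≤ q) : (∑ v, ω v * x v) ^ 2 ≤ 4 * M * q := by
  have e1 : ∑ v, ω v * x v = ∑ v ∈ H, ω v * x v := by
    symm
    refine Finset.sum_subset (Finset.subset_univ H) fun v _ hv => ?_
    rw [hH v hv, zero_mul]
  rw [e1]
  have e2 := Finset.sum_sq_le_sum_mul_sum_of_sq_le_mul H (r := fun v => ω v * x v)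
    (f := fun v => 4 * M * a v) (g := fun v => e v)
    (fun v _ => mul_nonneg (mul_nonneg (by norm_num) hM) (ha v)) (fun v _ => (he v).1)
    (fun v _ => by
      have e3 := (he v).2
      have e4 := hω v
      have e5 : 0 ≤ 4 * (a v * e v) := le_trans (sq_nonneg _) e3
      calc (ω v * x v) ^ 2 = ω v ^ 2 * x v ^ 2 := by ring
        _ ≤ M * (4 * (a v * e v)) := by gcongr
        _ = 4 * M * a v * e v := by ring)
  refine e2.trans ?_
  rw [← Finset.mul_sum]
  have e6 : ∑ v ∈ H, a v ≤ 1 := by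
    rw [← h1]
    exact Finset.sum_le_sum_of_subset_of_nonneg (Finset.subset_univ _) fun v _ _ => ha v
  have e7 : 0 ≤ ∑ v ∈ H, e v := Finset.sum_nonneg fun v _ => (he v).1
  have e8 : 0 ≤ ∑ v ∈ H, a v := Finset.sum_nonneg fun v _ => ha v
  calc 4 * M * (∑ v ∈ H, a v) * ∑ v ∈ H, e v ≤ 4 * M * 1 * ∑ v ∈ H, e v := by gcongr
    _ ≤ 4 * M * 1 * q := by gcongr
    _ = 4 * M * q := by ring

theorem abs_mul_le_of_sq {a b p q r : ℝ} (ha : a ^ 2 ≤ p) (hb : b ^ 2 ≤ q) (hr : 0 ≤ r)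
    (h : p * q ≤ r ^ 2) : |a * b| ≤ r := by
  refine abs_le_of_sq_le_sq ?_ hr
  calc (a * b) ^ 2 = a ^ 2 * b ^ 2 := by ring
    _ ≤ p * q := mul_le_mul ha hb (sq_nonneg _) (le_trans (sq_nonneg _) ha)
    _ ≤ r ^ 2 := h

theorem poly {y : ℝ} (h0 : 0 ≤ y) (h1 : y ≤ 1) : 2 / 5 ≤ 3 - 2 * y - 12 * y * (1 - y) ^ 2 := by
  nlinarith [mul_nonneg h0 (sq_nonneg (y - 43 / 100)),
    mul_nonneg (sub_nonneg.2 h1) (sq_nonneg (y - 43 / 100)), sq_nonneg (y - 43 / 100)]

theorem kal : KalStmt := by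
  refine ⟨1 / 3000, 2000, by norm_num, by norm_num, ?_⟩
  intro W ι _ _ _ D R H a p w z er s x e A ε hε hε0 hDR hDH ha ha1 hR hA he heH heA hs hsA
    d da la y m ly lm dy dm hd hda hla hm hy hdm hdy hlm hly
  have hε1 : ε ≤ 1 := by linarith
  set At : ℝ := ∑ c, A c with hAt
  set Er : ℝ := ∑ v, |er v| with hEr
  set E2 : ℝ := ∑ c, d c ^ 2 with hE2
  set J : ℝ := (∑ v', ((∑ c, e v' c) + er v')) - ∑ c, A c with hJ
  have hAt0 : 0 ≤ At := Finset.sum_nonneg fun c _ => hA c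
  have hEr0 : 0 ≤ Er := Finset.sum_nonneg fun c _ => abs_nonneg _
  have hE20 : 0 ≤ E2 := Finset.sum_nonneg fun c _ => sq_nonneg _
  -- the sum of all `e v c`
  have hes : ∀ c, ∑ v, e v c ≤ (1 + ε) * A c := fun c => by
    have := (abs_le.1 (heA c)).2; linarith
  have hes' : ∀ c, (1 - ε) * A c ≤ ∑ v, e v c := fun c => by
    have := (abs_le.1 (heA c)).1; linarith
  have hJb : |J| ≤ ε * At + Er := by
    have e1 : J = (∑ c, (∑ v, e v c - A c)) + ∑ v, er v := by
      rw [hJ, Finset.sum_add_distrib, Finset.sum_sub_distrib, Finset.sum_comm]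
      ring
    rw [e1]
    refine (abs_add_le _ _).trans (add_le_add ?_ (Finset.abs_sum_le_sum_abs _ _))
    refine (Finset.abs_sum_le_sum_abs _ _).trans ?_
    rw [hAt, Finset.mul_sum]
    exact Finset.sum_le_sum fun c _ => heA c
  -- weights
  classical
  set om : W → ℝ := fun v => if v ∈ D then 1 else if v ∈ R then w v else 0 with hom
  set oD : W → ℝ := fun v => if v ∈ D then 1 else 0 with hoD
  set sg : W → ℝ := fun v => if v ∈ D then 1 else if v ∈ R then p v / a v else 0 with hsg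
  have hRD : ∀ v, v ∈ R → v ∉ D := fun v hv hv' => (Finset.disjoint_left.1 hDR) hv' hv
  have sumom : ∀ f : W → ℝ, ∑ v, om v * f v = (∑ v ∈ D, f v) + ∑ v ∈ R, w v * f v := by
    intro f
    have e1 : ∀ v, om v * f v = (if v ∈ D then f v else 0) + (if v ∈ R then w v * f v else 0) := by
      intro v
      simp only [hom]
      by_cases h1 : v ∈ D
      · have h2 : v ∉ R := fun h => hRD v h h1
        simp [h1, h2]
      · by_cases h2 : v ∈ R <;> simp [h1, h2]
    rw [Finset.sum_congr rfl fun v _ => e1 v, Finset.sum_add_distrib, Finset.sum_ite_mem,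
      Finset.sum_ite_mem, Finset.univ_inter, Finset.univ_inter]
  have sumoD : ∀ f : W → ℝ, ∑ v, oD v * f v = ∑ v ∈ D, f v := by
    intro f
    have e1 : ∀ v, oD v * f v = (if v ∈ D then f v else 0) := by
      intro v; simp only [hoD]; split_ifs <;> simp
    rw [Finset.sum_congr rfl fun v _ => e1 v, Finset.sum_ite_mem, Finset.univ_inter]
  have homb : ∀ v, |om v| ≤ 1 + ε := by
    intro v
    simp only [hom]
    split_ifs with h1 h2
    · rw [abs_one]; linarith
    · exact (hR v h2).2.2.2.2.1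
    · rw [abs_zero]; linarith
  have homs : ∀ v, om v ^ 2 ≤ 4 := by
    intro v
    have := homb v
    have h2 : |om v| ≤ 2 := by linarith
    rw [← sq_abs]
    exact (pow_le_pow_left₀ (abs_nonneg _) h2 2).trans (by norm_num)
  have homH : ∀ v, v ∉ H → om v = 0 := by
    intro v hv
    simp only [hom]
    rw [if_neg fun h => hv (hDH h)]
    split_ifs with h2
    · exact ((hR v h2).2.2.2.2.2 hv).2.1
    · rfl
  have hoDb : ∀ v, oD v ^ 2 ≤ 1 := by
    intro v; simp only [hoD]; split_ifs <;> norm_num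
  have hoDH : ∀ v, v ∉ H → oD v = 0 := by
    intro v hv
    simp only [hoD]
    rw [if_neg fun h => hv (hDH h)]
  have hsg01 : ∀ v, 0 ≤ sg v ∧ sg v ≤ 1 := by
    intro v
    simp only [hsg]
    split_ifs with h1 h2
    · exact ⟨zero_le_one, le_rfl⟩
    · obtain ⟨q1, q2, -⟩ := hR v h2
      refine ⟨div_nonneg q1 (ha v), ?_⟩
      rcases eq_or_lt_of_le (ha v) with h | h
      · rw [← h, div_zero]; exact zero_le_one
      · rw [div_le_one h]; exact q2
    · exact ⟨le_rfl, zero_le_one⟩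
  have hsgH : ∀ v, v ∉ H → sg v = 0 := by
    intro v hv
    simp only [hsg]
    rw [if_neg fun h => hv (hDH h)]
    split_ifs with h2
    · rw [((hR v h2).2.2.2.2.2 hv).1, zero_div]
    · rfl
  have hsga : ∀ v, sg v * a v = if v ∈ D then a v else if v ∈ R then p v else 0 := by
    intro v
    simp only [hsg]
    split_ifs with h1 h2
    · rw [one_mul]
    · obtain ⟨q1, q2, -⟩ := hR v h2
      rcases eq_or_lt_of_le (ha v) with h | h
      · rw [← h] at q2 ⊢
        rw [mul_zero]; linarith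
      · field_simp
    · rw [zero_mul]
  have hsgy : ∑ v, sg v * a v = y := by
    rw [hy, hm]
    have e1 : ∀ v, sg v * a v = (if v ∈ D then a v else 0) + (if v ∈ R then p v else 0) := by
      intro v
      rw [hsga v]
      by_cases h1 : v ∈ D
      · have h2 : v ∉ R := fun h => hRD v h h1
        simp [h1, h2]
      · by_cases h2 : v ∈ R <;> simp [h1, h2]
    rw [Finset.sum_congr rfl fun v _ => e1 v, Finset.sum_add_distrib, Finset.sum_ite_mem,
      Finset.sum_ite_mem, Finset.univ_inter, Finset.univ_inter]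
  have hy0 : 0 ≤ y := by
    rw [← hsgy]; exact Finset.sum_nonneg fun v _ => mul_nonneg (hsg01 v).1 (ha v)
  have hy1 : y ≤ 1 := by
    rw [← hsgy, ← ha1]
    exact Finset.sum_le_sum fun v _ => mul_le_of_le_one_left (ha v) (hsg01 v).2
  have hm0 : 0 ≤ m := by rw [hm]; exact Finset.sum_nonneg fun v _ => ha v
  have hmy : m ≤ y := by
    rw [hy]
    have : 0 ≤ ∑ v ∈ R, p v := Finset.sum_nonneg fun v hv => (hR v hv).1
    linarith
  -- Y
  set Y : ℝ := ∑ v, om v * a v with hY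
  have hYy : |Y - y| ≤ ε := by
    have e1 : Y - y = ∑ v ∈ R, (a v * w v - p v) := by
      rw [hY, sumom, hy, hm, Finset.sum_sub_distrib]
      have : ∑ v ∈ R, w v * a v = ∑ v ∈ R, a v * w v :=
        Finset.sum_congr rfl fun v _ => mul_comm _ _
      rw [this]; ring
    rw [e1]
    refine (Finset.abs_sum_le_sum_abs _ _).trans ?_
    calc ∑ v ∈ R, |a v * w v - p v| ≤ ∑ v ∈ R, ε * a v :=
          Finset.sum_le_sum fun v hv => (hR v hv).2.2.1
      _ = ε * ∑ v ∈ R, a v := by rw [Finset.mul_sum]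
      _ ≤ ε * 1 := by
          refine mul_le_mul_of_nonneg_left ?_ hε
          rw [← ha1]
          exact Finset.sum_le_sum_of_subset_of_nonneg (Finset.subset_univ _) fun v _ _ => ha v
      _ = ε := mul_one _
  have hYy' := abs_le.1 hYy
  have hYb : |Y| ≤ 2 := by
    rw [abs_le]; constructor <;> linarith [hYy'.1, hYy'.2]
  -- X
  set Xo : ι → ℝ := fun c => ∑ v, om v * x v c with hXo
  set XD : ι → ℝ := fun c => ∑ v, oD v * x v c with hXD
  have hXo2 : ∀ c, Xo c ^ 2 ≤ 16 * (ε ^ 2 * A c) := by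
    intro c
    have := csw H a om (fun v => x v c) (fun v => e v c) 4 (ε ^ 2 * A c) ha (fun v => he v c)
      (by norm_num) homs homH ha1 (heH c)
    calc Xo c ^ 2 ≤ 4 * 4 * (ε ^ 2 * A c) := this
      _ = 16 * (ε ^ 2 * A c) := by ring
  have hXD2 : ∀ c, XD c ^ 2 ≤ 4 * (ε ^ 2 * A c) := by
    intro c
    have := csw H a oD (fun v => x v c) (fun v => e v c) 1 (ε ^ 2 * A c) ha (fun v => he v c)
      (by norm_num) hoDb hoDH ha1 (heH c)
    calc XD c ^ 2 ≤ 4 * 1 * (ε ^ 2 * A c) := this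
      _ = 4 * (ε ^ 2 * A c) := by ring
  -- d
  have hd2 : ∀ c, d c ^ 2 ≤ (4 * (1 - y) + 24 * ε) * A c := by
    intro c
    set f : ℝ := ∑ v, sg v * x v c with hf
    set g : ℝ := ∑ v, (1 - sg v) * x v c with hg
    have e1 : d c = f + g := by
      rw [hd c, hf, hg, ← Finset.sum_add_distrib]
      exact Finset.sum_congr rfl fun v _ => by ring
    have e2 : f ^ 2 ≤ 4 * (ε ^ 2 * A c) := by
      have := csw H a sg (fun v => x v c) (fun v => e v c) 1 (ε ^ 2 * A c) ha (fun v => he v c)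
        (by norm_num) (fun v => pow_le_one₀ (hsg01 v).1 (hsg01 v).2) hsgH ha1 (heH c)
      calc f ^ 2 ≤ 4 * 1 * (ε ^ 2 * A c) := this
        _ = 4 * (ε ^ 2 * A c) := by ring
    have e3 : g ^ 2 ≤ 4 * (1 - y) * ((1 + ε) * A c) := by
      have e4 := Finset.sum_sq_le_sum_mul_sum_of_sq_le_mul Finset.univ
        (r := fun v => (1 - sg v) * x v c) (f := fun v => 4 * ((1 - sg v) * a v))
        (g := fun v => e v c)
        (fun v _ => mul_nonneg (by norm_num) (mul_nonneg (by linarith [(hsg01 v).2]) (ha v)))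
        (fun v _ => (he v c).1)
        (fun v _ => by
          have q1 := (he v c).2
          have q2 := hsg01 v
          have q3 : (1 - sg v) ^ 2 ≤ 1 - sg v := by
            nlinarith only [mul_nonneg q2.1 (sub_nonneg.2 q2.2)]
          have q5 : 0 ≤ 4 * (a v * e v c) := le_trans (sq_nonneg _) q1
          have q6 : 0 ≤ 1 - sg v := by linarith [q2.2]
          calc ((1 - sg v) * x v c) ^ 2 = (1 - sg v) ^ 2 * x v c ^ 2 := by ring
            _ ≤ (1 - sg v) * (4 * (a v * e v c)) := by gcongr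
            _ = 4 * ((1 - sg v) * a v) * e v c := by ring)
      have e5 : ∑ v, 4 * ((1 - sg v) * a v) = 4 * (1 - y) := by
        rw [← Finset.mul_sum]
        congr 1
        have : ∀ v, (1 - sg v) * a v = a v - sg v * a v := fun v => by ring
        rw [Finset.sum_congr rfl fun v _ => this v, Finset.sum_sub_distrib, ha1, hsgy]
      rw [e5] at e4
      refine e4.trans ?_
      exact mul_le_mul_of_nonneg_left (hes c) (by linarith)
    have e4 : |f * g| ≤ 6 * ε * A c := by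
      refine abs_mul_le_of_sq e2 (q := 8 * A c) (e3.trans ?_) ?_ ?_
      · have : (1 - y) * (1 + ε) ≤ 1 * 2 :=
          mul_le_mul (by linarith only [hy0]) (by linarith only [hε1]) (by linarith only [hε])
            (by norm_num)
        nlinarith only [mul_le_mul_of_nonneg_right this (hA c)]
      · have := hA c; positivity
      · nlinarith only [mul_nonneg (sq_nonneg ε) (sq_nonneg (A c))]
    have e5 := (abs_le.1 e4).2
    rw [e1]
    have e6 : (f + g) ^ 2 = f ^ 2 + 2 * (f * g) + g ^ 2 := by ring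
    rw [e6]
    have e7 : 4 * (ε ^ 2 * A c) ≤ 4 * ε * A c := by
      have : ε ^ 2 ≤ ε := by nlinarith only [mul_nonneg hε (sub_nonneg.2 hε1)]
      nlinarith only [mul_le_mul_of_nonneg_right this (hA c)]
    have e8 : 4 * (1 - y) * ((1 + ε) * A c) ≤ 4 * (1 - y) * A c + 4 * ε * A c := by
      have : 0 ≤ ε * A c := mul_nonneg hε (hA c)
      nlinarith only [mul_nonneg hy0 this]
    linarith only [mul_nonneg hε (hA c), e2, e5, e3, e7, e8]
  have hd8 : ∀ c, d c ^ 2 ≤ 8 * A c := by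
    intro c
    refine (hd2 c).trans ?_
    refine mul_le_mul_of_nonneg_right ?_ (hA c)
    linarith
  have hE2b : E2 ≤ (4 * (1 - y) + 24 * ε) * At := by
    rw [hE2, hAt, Finset.mul_sum]
    exact Finset.sum_le_sum fun c _ => hd2 c
  have hE28 : E2 ≤ 8 * At := by
    rw [hE2, hAt, Finset.mul_sum]
    exact Finset.sum_le_sum fun c _ => hd8 c
  have hXd : ∀ c, |Xo c * d c| ≤ 12 * ε * A c := by
    intro c
    refine abs_mul_le_of_sq (hXo2 c) (hd8 c) (by have := hA c; positivity) ?_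
    nlinarith only [mul_nonneg (sq_nonneg ε) (sq_nonneg (A c))]
  have hXDd : ∀ c, |XD c * d c| ≤ 12 * ε * A c := by
    intro c
    refine abs_mul_le_of_sq (hXD2 c) (hd8 c) (by have := hA c; positivity) ?_
    nlinarith only [mul_nonneg (sq_nonneg ε) (sq_nonneg (A c))]
  -- sums of la
  have sumla : ∀ o' : W → ℝ, ∑ v, o' v * la v = (∑ c, ∑ v, o' v * e v c) - (∑ v, o' v * s v) +
      (∑ v, o' v * er v) - (∑ v, o' v * a v) * J - (∑ c, (∑ v, o' v * x v c) * d c) +
      (∑ v, o' v * a v) * E2 := by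
    intro o'
    have e1 : ∀ v, o' v * la v = (∑ c, o' v * e v c) - o' v * s v + o' v * er v -
        o' v * a v * J - (∑ c, o' v * x v c * d c) + o' v * a v * E2 := by
      intro v
      rw [hla v, ← Finset.mul_sum]
      have : ∑ c, o' v * x v c * d c = o' v * ∑ c, x v c * d c := by
        rw [Finset.mul_sum]; exact Finset.sum_congr rfl fun c _ => by ring
      rw [this]
      ring
    rw [Finset.sum_congr rfl fun v _ => e1 v]
    rw [Finset.sum_add_distrib, Finset.sum_sub_distrib, Finset.sum_sub_distrib,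
      Finset.sum_add_distrib, Finset.sum_sub_distrib, ← Finset.sum_mul, ← Finset.sum_mul]
    have e2 : ∑ v, ∑ c, o' v * e v c = ∑ c, ∑ v, o' v * e v c := Finset.sum_comm
    have e3 : ∑ v, ∑ c, o' v * x v c * d c = ∑ c, (∑ v, o' v * x v c) * d c := by
      rw [Finset.sum_comm]
      exact Finset.sum_congr rfl fun c _ => by rw [Finset.sum_mul]
    rw [e2, e3]
  have homs' : ∑ v, om v * s v = At := by
    rw [← hsA]
    refine Finset.sum_congr rfl fun v _ => ?_
    by_cases h : v ∈ D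
    · simp only [hom]; rw [if_pos h, one_mul]
    · rw [(hs v).2 h, mul_zero]
  have hoDs : ∑ v, oD v * s v = At := by
    rw [← hsA]
    refine Finset.sum_congr rfl fun v _ => ?_
    by_cases h : v ∈ D
    · simp only [hoD]; rw [if_pos h, one_mul]
    · rw [(hs v).2 h, mul_zero]
  have hT1 : ∀ o' : W → ℝ, (∀ v, |o' v| ≤ 2) → (∀ v, v ∉ H → o' v = 0) →
      |∑ c, ∑ v, o' v * e v c| ≤ 2 * ε * At := by
    intro o' h1 h2
    refine (Finset.abs_sum_le_sum_abs _ _).trans ?_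
    rw [hAt, Finset.mul_sum]
    refine Finset.sum_le_sum fun c _ => ?_
    have e1 : ∑ v, o' v * e v c = ∑ v ∈ H, o' v * e v c := by
      symm
      refine Finset.sum_subset (Finset.subset_univ H) fun v _ hv => ?_
      rw [h2 v hv, zero_mul]
    rw [e1]
    refine (Finset.abs_sum_le_sum_abs _ _).trans ?_
    have e2 : ∑ v ∈ H, |o' v * e v c| ≤ ∑ v ∈ H, 2 * e v c := by
      refine Finset.sum_le_sum fun v _ => ?_
      rw [abs_mul, abs_of_nonneg (he v c).1]
      exact mul_le_mul_of_nonneg_right (h1 v) (he v c).1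
    refine e2.trans ?_
    rw [← Finset.mul_sum]
    have e3 := heH c
    have e4 : ε ^ 2 * A c ≤ ε * A c := by
      have : ε ^ 2 ≤ ε := by nlinarith only [mul_nonneg hε (sub_nonneg.2 hε1)]
      exact mul_le_mul_of_nonneg_right this (hA c)
    linarith
  have homb2 : ∀ v, |om v| ≤ 2 := fun v => (homb v).trans (by linarith)
  have hoDb2 : ∀ v, |oD v| ≤ 1 := by
    intro v; simp only [hoD]; split_ifs <;> simp
  have hTer : ∀ (o' : W → ℝ) (k : ℝ), (∀ v, |o' v| ≤ k) → |∑ v, o' v * er v| ≤ k * Er := by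
    intro o' k h1
    refine (Finset.abs_sum_le_sum_abs _ _).trans ?_
    rw [hEr, Finset.mul_sum]
    refine Finset.sum_le_sum fun v _ => ?_
    rw [abs_mul]
    exact mul_le_mul_of_nonneg_right (h1 v) (abs_nonneg _)
  -- second order term
  set T7 : ℝ := ∑ v ∈ R, z v / 2 * ∑ c, da v c ^ 2 with hT7
  have hT7b : T7 ≤ 16 * ε * At := by
    have e0 : ∀ v ∈ R, z v / 2 * ∑ c, da v c ^ 2 ≤ ∑ c, ε * (4 * e v c + 8 * (a v * A c)) := by
      intro v hv
      rw [Finset.mul_sum]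
      refine Finset.sum_le_sum fun c _ => ?_
      have q1 : da v c ^ 2 ≤ a v * (8 * e v c + 16 * (a v * A c)) := by
        have q2 := (he v c).2
        have q3 := hd8 c
        rw [hda v c]
        have q4 : (-x v c + a v * d c) ^ 2 ≤ 2 * x v c ^ 2 + 2 * (a v ^ 2 * d c ^ 2) := by
          nlinarith only [sq_nonneg (x v c + a v * d c)]
        have q5 : a v ^ 2 * d c ^ 2 ≤ a v ^ 2 * (8 * A c) :=
          mul_le_mul_of_nonneg_left q3 (sq_nonneg _)
        nlinarith only [q2, q4, q5]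
      have q6 : |a v * z v| ≤ ε := (hR v hv).2.2.2.1
      have q7 : 0 ≤ 8 * e v c + 16 * (a v * A c) := by
        have := (he v c).1; have := mul_nonneg (ha v) (hA c); linarith
      calc z v / 2 * da v c ^ 2 ≤ |z v| / 2 * da v c ^ 2 := by
            refine mul_le_mul_of_nonneg_right ?_ (sq_nonneg _)
            linarith [le_abs_self (z v)]
        _ ≤ |z v| / 2 * (a v * (8 * e v c + 16 * (a v * A c))) := by
            refine mul_le_mul_of_nonneg_left q1 (by positivity)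
        _ = |a v * z v| / 2 * (8 * e v c + 16 * (a v * A c)) := by
            rw [abs_mul, abs_of_nonneg (ha v)]; ring
        _ ≤ ε / 2 * (8 * e v c + 16 * (a v * A c)) := by
            refine mul_le_mul_of_nonneg_right (by linarith) q7
        _ = ε * (4 * e v c + 8 * (a v * A c)) := by ring
    have e1 : ∑ v ∈ R, ∑ c, ε * (4 * e v c + 8 * (a v * A c)) ≤
        ∑ v, ∑ c, ε * (4 * e v c + 8 * (a v * A c)) := by
      refine Finset.sum_le_sum_of_subset_of_nonneg (Finset.subset_univ _) fun v _ _ => ?_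
      refine Finset.sum_nonneg fun c _ => mul_nonneg hε ?_
      have := (he v c).1; have := mul_nonneg (ha v) (hA c); linarith
    have e2 : ∑ v, ∑ c, ε * (4 * e v c + 8 * (a v * A c)) =
        ∑ c, ε * (4 * (∑ v, e v c) + 8 * A c) := by
      rw [Finset.sum_comm]
      refine Finset.sum_congr rfl fun c _ => ?_
      rw [← Finset.mul_sum, Finset.sum_add_distrib, ← Finset.mul_sum, ← Finset.mul_sum,
        ← Finset.sum_mul, ha1, one_mul]
    refine (Finset.sum_le_sum e0).trans (e1.trans ?_)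
    rw [e2, hAt, Finset.mul_sum]
    refine Finset.sum_le_sum fun c _ => ?_
    have q1 := hes c
    have q2 : (1 + ε) * A c ≤ 2 * A c := mul_le_mul_of_nonneg_right (by linarith) (hA c)
    have q3 : 4 * (∑ v, e v c) + 8 * A c ≤ 16 * A c := by linarith
    calc ε * (4 * (∑ v, e v c) + 8 * A c) ≤ ε * (16 * A c) := mul_le_mul_of_nonneg_left q3 hε
      _ = 16 * ε * A c := by ring
  -- ly, lm
  have hly2 : ly = (∑ c, ∑ v, om v * e v c) - At + (∑ v, om v * er v) - Y * J -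
      (∑ c, Xo c * d c) + Y * E2 + T7 := by
    have e1 : ly = (∑ v, om v * la v) + T7 := by
      rw [hly, hlm, sumom, hT7, Finset.sum_add_distrib]
      ring
    rw [e1, sumla om, homs']
  have hlm2 : lm = (∑ c, ∑ v, oD v * e v c) - At + (∑ v, oD v * er v) - m * J -
      (∑ c, XD c * d c) + m * E2 := by
    have e1 : lm = ∑ v, oD v * la v := by rw [hlm, sumoD]
    have e2 : ∑ v, oD v * a v = m := by rw [sumoD, hm]
    rw [e1, sumla oD, hoDs, e2]
  have hXds : |∑ c, Xo c * d c| ≤ 12 * ε * At := by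
    refine (Finset.abs_sum_le_sum_abs _ _).trans ?_
    rw [hAt, Finset.mul_sum]
    exact Finset.sum_le_sum fun c _ => hXd c
  have hXDds : |∑ c, XD c * d c| ≤ 12 * ε * At := by
    refine (Finset.abs_sum_le_sum_abs _ _).trans ?_
    rw [hAt, Finset.mul_sum]
    exact Finset.sum_le_sum fun c _ => hXDd c
  have hεA : 0 ≤ ε * At := mul_nonneg hε hAt0
  have hYJ : |Y * J| ≤ 2 * (ε * At + Er) := by
    rw [abs_mul]
    exact mul_le_mul hYb hJb (abs_nonneg _) (by norm_num)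
  have hlyb : ly ≤ -At + y * E2 + 40 * ε * At + 4 * Er := by
    have q1 := (abs_le.1 (hT1 om homb2 homH)).2
    have q2 := (abs_le.1 (hTer om 2 homb2)).2
    have q3 := (abs_le.1 hYJ).1
    have q4 := (abs_le.1 hXds).1
    have q5 : (Y - y) * E2 ≤ ε * (8 * At) := by
      calc (Y - y) * E2 ≤ ε * E2 := mul_le_mul_of_nonneg_right hYy'.2 hE20
        _ ≤ ε * (8 * At) := mul_le_mul_of_nonneg_left hE28 hε
    have q6 : Y * E2 ≤ y * E2 + 8 * (ε * At) := by nlinarith only [q5]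
    rw [hly2]
    nlinarith only [q1, q2, q3, q4, q6, hT7b]
  have hlmb : -At - 15 * (ε * At) - 2 * Er ≤ lm := by
    have q1 := (abs_le.1 (hT1 oD (fun v => (hoDb2 v).trans (by norm_num)) hoDH)).1
    have q2 := (abs_le.1 (hTer oD 1 hoDb2)).1
    have q3 : |m * J| ≤ ε * At + Er := by
      rw [abs_mul, abs_of_nonneg hm0]
      calc m * |J| ≤ 1 * |J| := mul_le_mul_of_nonneg_right (hmy.trans hy1) (abs_nonneg _)
        _ ≤ ε * At + Er := by rw [one_mul]; exact hJb
    have q4 := (abs_le.1 q3).2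
    have q5 := (abs_le.1 hXDds).2
    have q6 : 0 ≤ m * E2 := mul_nonneg hm0 hE20
    rw [hlm2]
    linarith
  -- dy
  have hdy2 : ∀ c, dy c = -Xo c + Y * d c := by
    intro c
    rw [hdy c, hdm c, ← sumom fun v => da v c, hXo, hY, Finset.sum_mul, ← Finset.sum_neg_distrib,
      ← Finset.sum_add_distrib]
    exact Finset.sum_congr rfl fun v _ => by rw [hda v c]; ring
  have hdm2 : ∀ c, dm c = -XD c + m * d c := by
    intro c
    have e2 : ∑ v, oD v * a v = m := by rw [sumoD, hm]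
    rw [hdm c, ← sumoD fun v => da v c, hXD, ← e2, Finset.sum_mul, ← Finset.sum_neg_distrib,
      ← Finset.sum_add_distrib]
    exact Finset.sum_congr rfl fun v _ => by rw [hda v c]; ring
  have hdyl : y ^ 2 * E2 - 72 * (ε * At) ≤ ∑ c, dy c ^ 2 := by
    have e1 : ∀ c, y ^ 2 * d c ^ 2 - 72 * (ε * A c) ≤ dy c ^ 2 := by
      intro c
      rw [hdy2 c]
      have q1 : |Y * (Xo c * d c)| ≤ 2 * (12 * ε * A c) := by
        rw [abs_mul]
        exact mul_le_mul hYb (hXd c) (abs_nonneg _) (by norm_num)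
      have q2 := (abs_le.1 q1).2
      have q3 : -(3 * ε) ≤ Y ^ 2 - y ^ 2 := by
        have r1 : Y ^ 2 - y ^ 2 = (Y - y) * (Y + y) := by ring
        have r2 : |(Y - y) * (Y + y)| ≤ ε * 3 := by
          rw [abs_mul]
          refine mul_le_mul hYy ?_ (abs_nonneg _) hε
          rw [abs_le]; constructor <;> linarith [hYy'.1, hYy'.2]
        have r3 := (abs_le.1 r2).1
        rw [r1]; linarith
      have q4 : -(3 * ε) * (8 * A c) ≤ (Y ^ 2 - y ^ 2) * d c ^ 2 := by
        have r1 : -(3 * ε) * (8 * A c) ≤ -(3 * ε) * d c ^ 2 := by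
          nlinarith only [mul_le_mul_of_nonneg_left (hd8 c) hε]
        exact r1.trans (mul_le_mul_of_nonneg_right q3 (sq_nonneg _))
      have q5 : (-Xo c + Y * d c) ^ 2 = Xo c ^ 2 - 2 * (Y * (Xo c * d c)) + Y ^ 2 * d c ^ 2 := by
        ring
      rw [q5]
      nlinarith only [sq_nonneg (Xo c), q2, q4]
    calc y ^ 2 * E2 - 72 * (ε * At) = ∑ c, (y ^ 2 * d c ^ 2 - 72 * (ε * A c)) := by
          rw [Finset.sum_sub_distrib, ← Finset.mul_sum, hE2, hAt, Finset.mul_sum, Finset.mul_sum]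
          congr 1
          rw [← Finset.mul_sum, Finset.mul_sum, Finset.mul_sum]
      _ ≤ ∑ c, dy c ^ 2 := Finset.sum_le_sum fun c _ => e1 c
  refine ⟨hm0, hmy, hy1, ?_, ?_⟩
  · -- the drift
    have q0 : 0 ≤ 3 - 2 * y := by linarith
    have q1 : (3 - 2 * y) * ly ≤ (3 - 2 * y) * (-At + y * E2) + 3 * (40 * (ε * At) + 4 * Er) := by
      have r1 : (3 - 2 * y) * ly ≤ (3 - 2 * y) * (-At + y * E2 + (40 * (ε * At) + 4 * Er)) := by
        refine mul_le_mul_of_nonneg_left ?_ q0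
        linarith
      have r2 : (3 - 2 * y) * (40 * (ε * At) + 4 * Er) ≤ 3 * (40 * (ε * At) + 4 * Er) := by
        refine mul_le_mul_of_nonneg_right (by linarith) (by linarith)
      linarith [mul_add (3 - 2 * y) (-At + y * E2) (40 * (ε * At) + 4 * Er)]
    have q2 : 3 * (y * (1 - y)) * E2 ≤ (12 * y * (1 - y) ^ 2 + 18 * ε) * At := by
      have r1 : 0 ≤ 3 * (y * (1 - y)) := by
        have := mul_nonneg hy0 (sub_nonneg.2 hy1); linarith
      have r2 := mul_le_mul_of_nonneg_left hE2b r1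
      have r3 : y * (1 - y) ≤ 1 / 4 := by nlinarith only [sq_nonneg (y - 1 / 2)]
      have r4 : 3 * (y * (1 - y)) * (24 * ε * At) ≤ 18 * ε * At := by
        nlinarith only [mul_le_mul_of_nonneg_right r3 hεA]
      have r5 : 3 * (y * (1 - y)) * ((4 * (1 - y) + 24 * ε) * At) =
          12 * y * (1 - y) ^ 2 * At + 3 * (y * (1 - y)) * (24 * ε * At) := by ring
      have r6 : (12 * y * (1 - y) ^ 2 + 18 * ε) * At = 12 * y * (1 - y) ^ 2 * At + 18 * ε * At := by
        ring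
      rw [r6]; rw [r5] at r2
      linarith
    have q3 := poly hy0 hy1
    have q4 : (-(3 - 2 * y) + 12 * y * (1 - y) ^ 2) * At ≤ -(2 / 5) * At :=
      mul_le_mul_of_nonneg_right (by linarith) hAt0
    have q5 : ε * At ≤ 1 / 3000 * At := mul_le_mul_of_nonneg_right hε0 hAt0
    have q6 : (3 - 2 * y) * (-At + y * E2) - y ^ 2 * E2 =
        -(3 - 2 * y) * At + 3 * (y * (1 - y)) * E2 := by ring
    have q7 : -lm / 10 ≤ (At + 15 * (ε * At) + 2 * Er) / 10 := by linarith only [hlmb]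
    nlinarith only [q1, hdyl, q2, q4, q5, q6, q7, hAt0, hEr0, hεA]
  · -- the gradient
    have e1 : ∀ c, ((3 - 2 * y) * dy c - dm c / 10) ^ 2 ≤ 2000 * A c := by
      intro c
      have q1 : dy c ^ 2 ≤ 96 * A c := by
        rw [hdy2 c]
        have r1 := hXo2 c
        have r2 := hd8 c
        have r3 : Y ^ 2 ≤ 4 := by
          rw [← sq_abs]
          exact (pow_le_pow_left₀ (abs_nonneg Y) hYb 2).trans (by norm_num)
        have r4 : ε ^ 2 * A c ≤ 1 * A c :=
          mul_le_mul_of_nonneg_right (pow_le_one₀ hε hε1) (hA c)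
        have r5 : (-Xo c + Y * d c) ^ 2 ≤ 2 * Xo c ^ 2 + 2 * (Y ^ 2 * d c ^ 2) := by
          nlinarith only [sq_nonneg (Xo c + Y * d c)]
        have r6 : Y ^ 2 * d c ^ 2 ≤ 4 * (8 * A c) :=
          mul_le_mul r3 r2 (sq_nonneg _) (by norm_num)
        linarith
      have q2 : dm c ^ 2 ≤ 96 * A c := by
        rw [hdm2 c]
        have r1 := hXD2 c
        have r2 := hd8 c
        have r3 : m ^ 2 ≤ 1 := pow_le_one₀ hm0 (hmy.trans hy1)
        have r4 : ε ^ 2 * A c ≤ 1 * A c :=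
          mul_le_mul_of_nonneg_right (pow_le_one₀ hε hε1) (hA c)
        have r5 : (-XD c + m * d c) ^ 2 ≤ 2 * XD c ^ 2 + 2 * (m ^ 2 * d c ^ 2) := by
          nlinarith only [sq_nonneg (XD c + m * d c)]
        have r6 : m ^ 2 * d c ^ 2 ≤ 1 * (8 * A c) :=
          mul_le_mul r3 r2 (sq_nonneg _) (by norm_num)
        have := hA c
        linarith
      have q3 : ((3 - 2 * y) * dy c - dm c / 10) ^ 2 ≤
          2 * ((3 - 2 * y) ^ 2 * dy c ^ 2) + 2 * (dm c ^ 2 / 100) := by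
        nlinarith only [sq_nonneg ((3 - 2 * y) * dy c + dm c / 10)]
      have q4 : (3 - 2 * y) ^ 2 ≤ 9 := by
        nlinarith only [mul_nonneg hy0 (sub_nonneg.2 hy1), hy0]
      have q5 : (3 - 2 * y) ^ 2 * dy c ^ 2 ≤ 9 * (96 * A c) :=
        mul_le_mul q4 q1 (sq_nonneg _) (by norm_num)
      have := hA c
      linarith
    calc ∑ c, ((3 - 2 * y) * dy c - dm c / 10) ^ 2 ≤ ∑ c, 2000 * A c :=
          Finset.sum_le_sum fun c _ => e1 c
      _ = 2000 * ∑ c, A c := by rw [Finset.mul_sum]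

end Pool.Agent.KIL.H38
end
end -- Pool.Agent.Helper38_KIL.KAL

section -- Pool.Agent.Helper58_KIL.KJA

/-!
# KIL, row KJA (helper58): the jet of the Lyapunov function of a kill run
-/

set_option autoImplicit false

open MeasureTheory ProbabilityTheory Function Filter

open scoped ENNReal BigOperators Topology NNReal Matrix

noncomputable section

namespace Pool.Agent.KIL.H58

open Pool.Agent.LE.QF (HJ HM gG LL dC)

variable {ι X : Type} [Fintype ι] [DecidableEq ι] [Fintype X] [DecidableEq X]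

theorem cg {q : ℝ × (ι → ℝ)} {F F' : ℝ × (ι → ℝ) → ℝ} {v v' l l' : ℝ} {g g' : ι → ℝ}
    (h : HJ F q v g l) (hF : F = F') (hv : v = v') (hg : ∀ c, g c = g' c) (hl : l = l') :
    HJ F' q v' g' l' := by
  have hg' : g = g' := funext hg
  subst hF hv hg' hl
  exact h

/-- composition with a function with known derivatives -/
theorem comp {q : ℝ × (ι → ℝ)} {F : ℝ × (ι → ℝ) → ℝ} {v l : ℝ} {g : ι → ℝ} (h : HJ F q v g l)
    (f : ℝ → ℝ) (hf : ContDiffAt ℝ 2 f v) :
    HJ (fun r => f (F r)) q (f v) (fun c => deriv f v * g c)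
      (deriv f v * l + deriv (deriv f) v / 2 * ∑ c, g c ^ 2) :=
  ((Pool.Agent.LE.QF.H77.jal ι ℝ q).2.2.2.2.1 F v l g h).2 f hf

theorem hsum {q : ℝ × (ι → ℝ)} (κ : Type) (s : Finset κ) (F : κ → ℝ × (ι → ℝ) → ℝ)
    (v l : κ → ℝ) (g : κ → ι → ℝ) (h : ∀ k ∈ s, HJ (F k) q (v k) (g k) (l k)) :
    HJ (fun r => ∑ k ∈ s, F k r) q (∑ k ∈ s, v k) (fun c => ∑ k ∈ s, g k c) (∑ k ∈ s, l k) :=
  (Pool.Agent.LE.QF.H77.jal ι ℝ q).2.2.2.2.2.1 κ s F v l g h

theorem hadd {q : ℝ × (ι → ℝ)} {F H : ℝ × (ι → ℝ) → ℝ} {v v' l l' : ℝ} {g g' : ι → ℝ}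
    (hF : HJ F q v g l) (hH : HJ H q v' g' l') :
    HJ (fun r => F r + H r) q (v + v') (fun c => g c + g' c) (l + l') :=
  ((Pool.Agent.LE.QF.H77.jal ι ℝ q).2.2.1 F H v v' l l' g g' hF hH).1

theorem hsub {q : ℝ × (ι → ℝ)} {F H : ℝ × (ι → ℝ) → ℝ} {v v' l l' : ℝ} {g g' : ι → ℝ}
    (hF : HJ F q v g l) (hH : HJ H q v' g' l') :
    HJ (fun r => F r - H r) q (v - v') (fun c => g c - g' c) (l - l') :=
  ((Pool.Agent.LE.QF.H77.jal ι ℝ q).2.2.1 F H v v' l l' g g' hF hH).2.1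

theorem hmul {q : ℝ × (ι → ℝ)} {F H : ℝ × (ι → ℝ) → ℝ} {v v' l l' : ℝ} {g g' : ι → ℝ}
    (hF : HJ F q v g l) (hH : HJ H q v' g' l') :
    HJ (fun r => F r * H r) q (v * v') (fun c => v * g' c + g c * v')
      (v * l' + l * v' + ∑ c, g c * g' c) :=
  ((Pool.Agent.LE.QF.H77.jal ι ℝ q).2.2.1 F H v v' l l' g g' hF hH).2.2

theorem kja (hKJN : KjnStmt) : KjaStmt := by
  intro ι X _ _ _ _ e q Gm kp G κ g μ o Rn θ hK heo hoR hgam hθ y m ly lm dy dm hm hy hdm hdy hlm
    hly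
  have hθ2 : ∀ v, ContDiffAt ℝ 2 θ v := fun v => hθ.contDiffAt
  have jm : HJ (fun r => ∑ c, aa (kp r.1) (Gm r) o (e c)) q m dm lm := by
    refine cg (hsum ι Finset.univ (fun c r => aa (kp r.1) (Gm r) o (e c))
      (fun c => aa κ G o (e c)) (fun c => la e κ g G μ o (e c)) (fun c c' => da e κ G o (e c) c')
      (fun c _ => hKJN ι X e q Gm kp G κ g μ o hK heo hgam (e c) (heo c))) rfl hm.symm
      (fun c => (hdm c).symm) hlm.symm
  have jr : HJ (fun r => ∑ v ∈ Rn.filter (fun v => ∀ c, e c ≠ v), θ (aa (kp r.1) (Gm r) o v)) q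
      (∑ v ∈ Rn.filter (fun v => ∀ c, e c ≠ v), θ (aa κ G o v))
      (fun c => ∑ v ∈ Rn.filter (fun v => ∀ c, e c ≠ v), deriv θ (aa κ G o v) * da e κ G o v c)
      (∑ v ∈ Rn.filter (fun v => ∀ c, e c ≠ v), (deriv θ (aa κ G o v) * la e κ g G μ o v +
        deriv (deriv θ) (aa κ G o v) / 2 * ∑ c, da e κ G o v c ^ 2)) := by
    refine hsum X _ (fun v r => θ (aa (kp r.1) (Gm r) o v)) _ _ _ (fun v hv => ?_)
    have hvo : v ≠ o := by
      rintro rfl
      exact hoR (Finset.mem_filter.1 hv).1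
    exact comp (hKJN ι X e q Gm kp G κ g μ o hK heo hgam v hvo) θ (hθ2 _)
  have jy : HJ (fun r => ym e θ Rn (kp r.1) (Gm r) o) q y dy ly :=
    cg (hadd jm jr) rfl (by rw [hy, hm]; rfl) (fun c => (hdy c).symm) hly.symm
  have hd : ∀ x : ℝ, HasDerivAt (fun x : ℝ => 3 * x - x ^ 2) (3 - 2 * x) x := by
    intro x
    have h1 := ((hasDerivAt_id x).const_mul 3).sub (hasDerivAt_pow 2 x)
    refine h1.congr_deriv ?_
    norm_num
  have hd1 : deriv (fun x : ℝ => 3 * x - x ^ 2) = fun x => 3 - 2 * x :=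
    funext fun x => (hd x).deriv
  have hd2 : deriv (fun x : ℝ => 3 - 2 * x) y = -2 := by
    have h1 := ((hasDerivAt_id y).const_mul 2).const_sub 3
    have h2 : HasDerivAt (fun x : ℝ => 3 - 2 * x) (-2) y := by
      refine h1.congr_deriv ?_
      norm_num
    exact h2.deriv
  have hc3 : ContDiffAt ℝ 2 (fun x : ℝ => 3 * x - x ^ 2) y := by fun_prop
  have j3 := comp jy (fun x : ℝ => 3 * x - x ^ 2) hc3
  have hd4 : ∀ x : ℝ, HasDerivAt (fun x : ℝ => x / 10) (1 / 10) x := by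
    intro x
    exact (hasDerivAt_id x).div_const 10
  have hd5 : deriv (fun x : ℝ => x / 10) = fun _ => 1 / 10 := funext fun x => (hd4 x).deriv
  have hc4 : ContDiffAt ℝ 2 (fun x : ℝ => x / 10) m := by fun_prop
  have j4 := comp jm (fun x : ℝ => x / 10) hc4
  refine cg (hsub j3 j4) rfl rfl (fun c => ?_) ?_
  · rw [hd1, hd5]
    ring
  · rw [hd1, hd5, hd2]
    simp only [deriv_const]
    ring

end Pool.Agent.KIL.H58
end
end -- Pool.Agent.Helper58_KIL.KJA

section -- Pool.Agent.Helper58_KIL.KLJ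

/-!
# KIL, row KLJ (helper58): the functional of the last round
-/

set_option autoImplicit false

open MeasureTheory ProbabilityTheory Function Filter

open scoped ENNReal BigOperators Topology NNReal Matrix

noncomputable section

namespace Pool.Agent.KIL.H58

open Pool.Agent.LE.QF (HJ HM gG LL dC)

/-! ### algebra -/

theorem yg {x E A t : ℝ} (hx : x ^ 2 ≤ 4 * (E * A)) (hE : 0 ≤ E) (hA : 0 ≤ A) (ht : 0 < t) :
    x ≤ t * A + E / t := by
  have h0 : 0 ≤ t * A + E / t := by positivity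
  have h1 : t * A * (E / t) = E * A := by
    field_simp
  have h2 : x ^ 2 ≤ (t * A + E / t) ^ 2 := by
    nlinarith only [sq_nonneg (t * A - E / t), hx, h1]
  exact le_trans (le_abs_self x) (abs_le_of_sq_le_sq h2 h0)

theorem lemD {ι : Type} [Fintype ι] (A xD dd dm : ι → ℝ) (m ε ρ SE ser Er J lm : ℝ)
    (hA : ∀ c, 0 ≤ A c) (hε : 0 ≤ ε) (hε1 : ε ≤ 1 / 16) (hρ : ρ ≤ 1 / 128) (hm : 0 ≤ m)
    (hmρ : m ≤ 2 * ρ) (hx : ∀ c, xD c ^ 2 ≤ 4 * (m * (ε ^ 2 * A c)))
    (hd : ∀ c, dd c ^ 2 ≤ 4 * ((1 + ε) * A c)) (hS : SE ≤ ε ^ 2 * ∑ c, A c) (hser : |ser| ≤ Er)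
    (hJ : |J| ≤ ε * (∑ c, A c) + Er)
    (hlm : lm = SE - (∑ c, A c) + ser - m * J - (∑ c, xD c * dd c) + m * ∑ c, dd c ^ 2)
    (hdm : ∀ c, dm c = -xD c + m * dd c) :
    lm ≤ -(3 / 4) * (∑ c, A c) + 2 * Er ∧
      ∑ c, dm c ^ 2 ≤ 4 * ρ * (4 * ε ^ 2 + 16 * ρ) * ∑ c, A c := by
  have hm64 : m ≤ 1 / 64 := by linarith only [hρ, hmρ]
  have hEr : 0 ≤ Er := le_trans (abs_nonneg _) hser
  have hA0 : 0 ≤ ∑ c, A c := Finset.sum_nonneg fun c _ => hA c
  have hε2 : ε ^ 2 ≤ 1 / 256 := by nlinarith only [hε, hε1]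
  have h1 : ∀ c, -(xD c * dd c) ≤ (3 / 40) * A c := by
    intro c
    have h2 : -(xD c * dd c) ≤ 16 * xD c ^ 2 + dd c ^ 2 / 64 := by
      nlinarith only [sq_nonneg (4 * xD c + dd c / 8)]
    have h3 : m * (ε ^ 2 * A c) ≤ 1 / 64 * (1 / 256 * A c) := by
      have := hA c
      gcongr
    have h4 : (1 + ε) * A c ≤ 17 / 16 * A c := by
      have := hA c
      gcongr
      linarith only [hε1]
    have := hx c
    have := hd c
    have := hA c
    linarith
  have h5 : -(∑ c, xD c * dd c) ≤ (3 / 40) * ∑ c, A c := by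
    rw [← Finset.sum_neg_distrib, Finset.mul_sum]
    exact Finset.sum_le_sum fun c _ => h1 c
  have h6 : ∑ c, dd c ^ 2 ≤ 17 / 4 * ∑ c, A c := by
    rw [Finset.mul_sum]
    refine Finset.sum_le_sum fun c _ => ?_
    have := hd c
    have h7 := hA c
    nlinarith only [hε, hε1, this]
  have h6' : 0 ≤ ∑ c, dd c ^ 2 := Finset.sum_nonneg fun c _ => sq_nonneg _
  constructor
  · have h7 : -(m * J) ≤ 1 / 64 * ((1 / 16) * (∑ c, A c) + Er) := by
      have h8 : -(m * J) ≤ m * |J| := by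
        have := neg_abs_le J
        nlinarith only [hm, this]
      have h9 : |J| ≤ (1 / 16) * (∑ c, A c) + Er := by
        refine le_trans hJ ?_
        gcongr
      have h10 : 0 ≤ |J| := abs_nonneg J
      nlinarith only [hρ, hm, hmρ, hEr, hA0, h8, h9]
    have h8 : m * ∑ c, dd c ^ 2 ≤ 1 / 64 * (17 / 4 * ∑ c, A c) := by
      gcongr
    have h9 : ser ≤ Er := le_trans (le_abs_self _) hser
    have h10 : ε ^ 2 * ∑ c, A c ≤ 1 / 256 * ∑ c, A c := by gcongr
    rw [hlm]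
    linarith
  · rw [Finset.mul_sum]
    refine Finset.sum_le_sum fun c _ => ?_
    rw [hdm]
    have h1 : (-xD c + m * dd c) ^ 2 ≤ 2 * xD c ^ 2 + 2 * (m ^ 2 * dd c ^ 2) := by
      nlinarith only [sq_nonneg (xD c + m * dd c)]
    have h2 := hA c
    have hρ0 : 0 ≤ ρ := by linarith only [hm, hmρ]
    have h3 : m * (ε ^ 2 * A c) ≤ 2 * ρ * (ε ^ 2 * A c) := by gcongr
    have h4 : m ^ 2 ≤ (2 * ρ) ^ 2 := by gcongr
    have h5 : m ^ 2 * dd c ^ 2 ≤ (2 * ρ) ^ 2 * (4 * ((1 + ε) * A c)) := by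
      have := hd c
      gcongr
    have h6 : (1 + ε) * A c ≤ 2 * A c := by
      gcongr
      linarith only [hε1]
    have h7 : (2 * ρ) ^ 2 * (4 * ((1 + ε) * A c)) ≤ (2 * ρ) ^ 2 * (4 * (2 * A c)) := by gcongr
    have h8 := hx c
    have h9 : 0 ≤ ρ ^ 2 * A c := by positivity
    nlinarith only [h1, h3, h5, h7, h8]

theorem lemV {ι : Type} [Fintype ι] (A x dd da ev : ι → ℝ) (av ε h t₁ erv Er J la b H : ℝ)
    (hA : ∀ c, 0 ≤ A c) (hε : 0 ≤ ε) (hε1 : ε ≤ 1 / 16) (ht : 0 < t₁) (hh : 0 ≤ h)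
    (hav : 0 ≤ av) (hx : ∀ c, x c ^ 2 ≤ 4 * (av * ev c)) (hev : ∀ c, ev c ≤ h * A c)
    (hd : ∀ c, dd c ^ 2 ≤ 4 * ((1 + ε) * A c))
    (hJ : |J| ≤ ε * (∑ c, A c) + Er) (hb : b = av + t₁ / 2) (hH : H = 2 * h / t₁ + 1)
    (hla : la = (∑ c, ev c) + erv - av * J - (∑ c, x c * dd c) + av * ∑ c, dd c ^ 2)
    (hda : ∀ c, da c = -x c + av * dd c) :
    la ≤ 12 * H * b * (∑ c, A c) + |erv| + b * Er ∧
      ∑ c, da c ^ 2 ≤ 18 * H * b ^ 2 * ∑ c, A c := by
  have hA0 : 0 ≤ ∑ c, A c := Finset.sum_nonneg fun c _ => hA c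
  have hb0 : 0 < b := by rw [hb]; linarith only [ht, hav]
  have hab : av ≤ b := by rw [hb]; linarith only [ht]
  have hht : 0 ≤ 2 * h / t₁ := by positivity
  have hH1 : 1 ≤ H := by rw [hH]; linarith only [hht]
  have hhb : h ≤ H * b := by
    have h1 : t₁ / 2 ≤ b := by rw [hb]; linarith only [hav]
    have h2 : 2 * h / t₁ * (t₁ / 2) = h := by field_simp
    have h3 : 2 * h / t₁ * (t₁ / 2) ≤ 2 * h / t₁ * b := by gcongr
    rw [hH]
    nlinarith only [hb0, h2, h3]
  have hbH : b ≤ H * b := by nlinarith only [ht, hav, hb, hH, hht]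
  have hHb0 : 0 ≤ H * b := by positivity
  -- squares
  have hx2 : ∀ c, x c ^ 2 ≤ 4 * (b * (H * b * A c)) := by
    intro c
    have h1 := hx c
    have h2 := hev c
    have h3 := hA c
    have h4 : h * A c ≤ H * b * A c := by gcongr
    have h5 : av * ev c ≤ av * (H * b * A c) := by
      apply mul_le_mul_of_nonneg_left _ hav
      linarith only [h2, h4]
    have h6 : av * (H * b * A c) ≤ b * (H * b * A c) := by
      gcongr
    linarith only [h1, h5, h6]
  have hdd : ∀ c, dd c ^ 2 ≤ 17 / 4 * A c := by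
    intro c
    have := hd c
    have h7 := hA c
    nlinarith only [hε, hε1, this]
  have h1 : ∀ c, -(x c * dd c) ≤ (2 + 17 / 8) * (H * b * A c) := by
    intro c
    have h2 : -(x c * dd c) ≤ x c ^ 2 / (2 * b) + b / 2 * dd c ^ 2 := by
      have h3 : x c ^ 2 / (2 * b) + b / 2 * dd c ^ 2 + x c * dd c =
          (x c + b * dd c) ^ 2 / (2 * b) := by
        field_simp
        ring
      have h4 : 0 ≤ (x c + b * dd c) ^ 2 / (2 * b) := by positivity
      linarith only [h3, h4]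
    have h5 : x c ^ 2 / (2 * b) ≤ 2 * (H * b * A c) := by
      rw [div_le_iff₀ (by positivity)]
      have := hx2 c
      nlinarith only [this]
    have h6 : b / 2 * dd c ^ 2 ≤ 17 / 8 * (H * b * A c) := by
      have h7 : b / 2 * dd c ^ 2 ≤ b / 2 * (17 / 4 * A c) := by
        have := hdd c
        gcongr
      have h8 : b * A c ≤ H * b * A c := by
        have := hA c
        gcongr
      nlinarith only [h7, h8]
    linarith only [h2, h5, h6]
  have hHbA : 0 ≤ H * b * ∑ c, A c := by positivity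
  have h2 : -(∑ c, x c * dd c) ≤ (2 + 17 / 8) * (H * b * ∑ c, A c) := by
    rw [← Finset.sum_neg_distrib, Finset.mul_sum, Finset.mul_sum]
    exact Finset.sum_le_sum fun c _ => h1 c
  have h3 : ∑ c, ev c ≤ H * b * ∑ c, A c := by
    rw [Finset.mul_sum]
    refine Finset.sum_le_sum fun c _ => ?_
    have h4 : h * A c ≤ H * b * A c := by
      have := hA c
      gcongr
    have := hev c
    linarith only [h4, this]
  have h4 : av * ∑ c, dd c ^ 2 ≤ 17 / 4 * (H * b * ∑ c, A c) := by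
    have h5 : ∑ c, dd c ^ 2 ≤ 17 / 4 * ∑ c, A c := by
      rw [Finset.mul_sum]
      exact Finset.sum_le_sum fun c _ => hdd c
    have h6 : av * ∑ c, dd c ^ 2 ≤ b * (17 / 4 * ∑ c, A c) := by
      have : 0 ≤ ∑ c, dd c ^ 2 := Finset.sum_nonneg fun c _ => sq_nonneg _
      gcongr
    have h7 : b * (∑ c, A c) ≤ H * b * ∑ c, A c := by gcongr
    linarith only [h6, h7]
  have h5 : -(av * J) ≤ 1 / 16 * (H * b * ∑ c, A c) + b * Er := by
    have h6 : -(av * J) ≤ av * |J| := by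
      have := neg_abs_le J
      nlinarith only [hav, this]
    have h7 : av * |J| ≤ b * (ε * (∑ c, A c) + Er) := by
      have : 0 ≤ |J| := abs_nonneg J
      gcongr
    have h8 : b * (ε * ∑ c, A c) ≤ 1 / 16 * (H * b * ∑ c, A c) := by
      have h9 : b * (ε * ∑ c, A c) ≤ b * (1 / 16 * ∑ c, A c) := by gcongr
      have h10 : b * (∑ c, A c) ≤ H * b * ∑ c, A c := by gcongr
      linarith only [h9, h10]
    linarith only [h6, h7, h8]
  constructor
  · have h6 : erv ≤ |erv| := le_abs_self _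
    rw [hla]
    nlinarith only [hHbA, h2, h3, h4, h5, h6]
  · rw [Finset.mul_sum]
    refine Finset.sum_le_sum fun c _ => ?_
    rw [hda]
    have h6 : (-x c + av * dd c) ^ 2 ≤ 2 * x c ^ 2 + 2 * (av ^ 2 * dd c ^ 2) := by
      nlinarith only [sq_nonneg (x c + av * dd c)]
    have h7 := hx2 c
    have h8 : av ^ 2 * dd c ^ 2 ≤ b ^ 2 * (17 / 4 * A c) := by
      have := hdd c
      have : av ^ 2 ≤ b ^ 2 := by gcongr
      gcongr
    have h9 : b ^ 2 * A c ≤ H * b ^ 2 * A c := by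
      have := hA c
      have : b ^ 2 ≤ H * b ^ 2 := by nlinarith only [sq_nonneg b, hH, hht]
      gcongr
    nlinarith only [h6, h7, h8, h9]

/-- the exponent of one term -/
theorem lemF {ι : Type} [Fintype ι] (da dm : ι → ℝ) (la lm b H A lam ρ Er erv E0 E1 ε : ℝ) (j : ℕ)
    (hj : 1 ≤ j) (hb : 0 < b) (hA : 0 ≤ A) (hρ : 0 < ρ) (hρ1 : ρ ≤ 1 / 128) (hE0 : 0 ≤ E0)
    (hE1 : 0 ≤ E1) (hH : 1 ≤ H) (hlam : lam = j / (4 * ρ))
    (hjc : (j : ℝ) * (4 * ε ^ 2 + 16 * ρ) ≤ 1 / 8) (hjH : 300 * (j : ℝ) * H * ρ ≤ 1)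
    (hla : la ≤ 12 * H * b * A + |erv| + b * Er) (hda : ∑ c, da c ^ 2 ≤ 18 * H * b ^ 2 * A)
    (hlm : lm ≤ -(3 / 4) * A + 2 * Er)
    (hdm : ∑ c, dm c ^ 2 ≤ 4 * ρ * (4 * ε ^ 2 + 16 * ρ) * A)
    (hEr : Er ^ 2 ≤ 4 * (E0 * A)) (herv : (|erv| / b) ^ 2 ≤ 4 * (E1 * A)) :
    j / b * la + j / b * ((j - 1) / b) / 2 * ∑ c, da c ^ 2 + lam * lm +
      lam ^ 2 / 2 * ∑ c, dm c ^ 2 + lam * (j / b) * ∑ c, dm c * da c ≤
      20 * j * E0 / ρ + 64 * j * ρ * E1 := by
  have hj1 : (1 : ℝ) ≤ j := by exact_mod_cast hj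
  have hlam0 : 0 < lam := by rw [hlam]; positivity
  have hlρ : lam * ρ = j / 4 := by
    rw [hlam]
    field_simp
  -- the gradient of m
  have h1 : lam ^ 2 / 2 * ∑ c, dm c ^ 2 ≤ lam * A / 16 := by
    have h2 : lam ^ 2 / 2 * ∑ c, dm c ^ 2 ≤ lam ^ 2 / 2 * (4 * ρ * (4 * ε ^ 2 + 16 * ρ) * A) := by
      gcongr
    have h3 : lam ^ 2 / 2 * (4 * ρ * (4 * ε ^ 2 + 16 * ρ) * A) =
        lam * A * ((lam * ρ) * 2 * (4 * ε ^ 2 + 16 * ρ)) := by ring
    have h4 : (lam * ρ) * 2 * (4 * ε ^ 2 + 16 * ρ) ≤ 1 / 16 := by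
      rw [hlρ]
      linarith only [hjc]
    have h5 : lam * A * ((lam * ρ) * 2 * (4 * ε ^ 2 + 16 * ρ)) ≤ lam * A * (1 / 16) := by
      gcongr
    linarith only [h2, h5]
  -- the cross term
  have h6 : lam * (j / b) * ∑ c, dm c * da c ≤
      (j / b) ^ 2 / 2 * (∑ c, da c ^ 2) + lam ^ 2 / 2 * ∑ c, dm c ^ 2 := by
    rw [Finset.mul_sum, Finset.mul_sum, Finset.mul_sum, ← Finset.sum_add_distrib]
    refine Finset.sum_le_sum fun c _ => ?_
    nlinarith only [sq_nonneg (j / b * da c - lam * dm c)]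
  -- da
  have hb' : b ≠ 0 := hb.ne'
  have h7 : (j / b) ^ 2 / 2 * (∑ c, da c ^ 2) ≤ 9 * j ^ 2 * H * A := by
    have h8 : (j / b) ^ 2 / 2 * (∑ c, da c ^ 2) ≤ (j / b) ^ 2 / 2 * (18 * H * b ^ 2 * A) := by
      gcongr
    have h9 : (j / b) ^ 2 / 2 * (18 * H * b ^ 2 * A) = 9 * j ^ 2 * H * A := by
      field_simp
      ring
    linarith only [h8, h9]
  have h10 : j / b * ((j - 1) / b) / 2 * ∑ c, da c ^ 2 ≤ 9 * j ^ 2 * H * A := by
    have h11 : j / b * ((j - 1) / b) / 2 ≤ (j / b) ^ 2 / 2 := by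
      have h12 : ((j : ℝ) - 1) / b ≤ j / b := by
        gcongr
        linarith only [hρ, hρ1]
      have h13 : (0 : ℝ) ≤ j / b := by positivity
      nlinarith only [hρ, hρ1, h12, h13]
    have h14 : 0 ≤ ∑ c, da c ^ 2 := Finset.sum_nonneg fun c _ => sq_nonneg _
    refine le_trans (mul_le_mul_of_nonneg_right h11 h14) h7
  -- la
  have h15 : j / b * la ≤ 12 * j * H * A + j * (|erv| / b) + j * Er := by
    have h16 : j / b * la ≤ j / b * (12 * H * b * A + |erv| + b * Er) := by gcongr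
    have h17 : j / b * (12 * H * b * A + |erv| + b * Er) =
        12 * j * H * A + j * (|erv| / b) + j * Er := by
      field_simp
    linarith only [h16, h17]
  -- Young
  have h18 : Er ≤ 1 / 32 * A + E0 / (1 / 32) := yg hEr hE0 hA (by norm_num)
  have h19 : Er ≤ 1 / (64 * ρ) * A + E0 / (1 / (64 * ρ)) := yg hEr hE0 hA (by positivity)
  have h20 : |erv| / b ≤ 1 / (64 * ρ) * A + E1 / (1 / (64 * ρ)) := yg herv hE1 hA (by positivity)
  have h21 : lam * lm ≤ lam * (-(3 / 4) * A + 2 * Er) := by gcongr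
  have h22 : lam * (2 * Er) ≤ lam * A / 16 + 64 * lam * E0 := by
    have : lam * (2 * Er) ≤ lam * (2 * (1 / 32 * A + E0 / (1 / 32))) := by gcongr
    have h23 : lam * (2 * (1 / 32 * A + E0 / (1 / 32))) = lam * A / 16 + 64 * lam * E0 := by
      ring
    linarith only [this]
  have hj64 : (j : ℝ) * (1 / (64 * ρ) * A) = lam * A / 16 := by
    rw [hlam]
    field_simp
    ring
  have h24 : (j : ℝ) * Er ≤ lam * A / 16 + 64 * j * ρ * E0 := by
    have : (j : ℝ) * Er ≤ j * (1 / (64 * ρ) * A + E0 / (1 / (64 * ρ))) := by gcongr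
    have h25 : (j : ℝ) * (1 / (64 * ρ) * A + E0 / (1 / (64 * ρ))) =
        j * (1 / (64 * ρ) * A) + 64 * j * ρ * E0 := by
      field_simp
    rw [h25, hj64] at this
    exact this
  have h26 : (j : ℝ) * (|erv| / b) ≤ lam * A / 16 + 64 * j * ρ * E1 := by
    have : (j : ℝ) * (|erv| / b) ≤ j * (1 / (64 * ρ) * A + E1 / (1 / (64 * ρ))) := by gcongr
    have h25 : (j : ℝ) * (1 / (64 * ρ) * A + E1 / (1 / (64 * ρ))) =
        j * (1 / (64 * ρ) * A) + 64 * j * ρ * E1 := by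
      field_simp
    rw [h25, hj64] at this
    exact this
  -- sum of the main terms
  have h27 : 12 * (j : ℝ) * H * A + 9 * j ^ 2 * H * A + 9 * j ^ 2 * H * A ≤ 2 / 5 * (lam * A) := by
    have h28 : 12 * (j : ℝ) * H * A ≤ 12 * j ^ 2 * H * A := by
      have : (j : ℝ) ≤ j ^ 2 := by nlinarith only [hj1]
      gcongr
    have h29 : 30 * (j : ℝ) ^ 2 * H ≤ 2 / 5 * lam := by
      have h30 : 30 * (j : ℝ) ^ 2 * H * ρ ≤ 2 / 5 * lam * ρ := by
        have h31 : 2 / 5 * lam * ρ = j / 10 := by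
          rw [mul_assoc, hlρ]
          ring
        rw [h31]
        have h32 : 30 * (j : ℝ) ^ 2 * H * ρ = j / 10 * (300 * j * H * ρ) := by ring
        rw [h32]
        have : (0 : ℝ) ≤ j / 10 := by positivity
        nlinarith only [hjH]
      exact le_of_mul_le_mul_right h30 hρ
    have h33 : 30 * (j : ℝ) ^ 2 * H * A ≤ 2 / 5 * lam * A := by gcongr
    linarith only [h28, h33]
  have hlA : 0 ≤ lam * A := by positivity
  -- the errors
  have h34 : 64 * lam * E0 = 16 * j * E0 / ρ := by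
    rw [hlam]
    field_simp
    ring
  have h35 : 64 * (j : ℝ) * ρ * E0 ≤ 4 * j * E0 / ρ := by
    rw [le_div_iff₀ hρ]
    have h36 : 64 * (j : ℝ) * ρ * E0 * ρ = j * E0 * (64 * ρ ^ 2) := by ring
    have h37 : 64 * ρ ^ 2 ≤ 4 := by nlinarith only [hρ, hρ1]
    rw [h36]
    have : 0 ≤ (j : ℝ) * E0 := by positivity
    nlinarith only [hρ, hρ1, h37, this]
  have h38 : 16 * (j : ℝ) * E0 / ρ + 4 * j * E0 / ρ = 20 * j * E0 / ρ := by
    ring
  nlinarith only [h1, h6, h7, h10, h15, h21, h22, h24, h26, h27, hlA, h34, h35, h38]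

theorem lemF1 {ι : Type} [Fintype ι] (dm : ι → ℝ) (lm A lam ρ Er E0 E1 ε : ℝ) (j : ℕ)
    (hA : 0 ≤ A) (hρ : 0 < ρ) (hE0 : 0 ≤ E0) (hj : 1 ≤ j)
    (hE1 : 0 ≤ E1) (hlam : lam = j / (4 * ρ))
    (hjc : (j : ℝ) * (4 * ε ^ 2 + 16 * ρ) ≤ 1 / 8)
    (hlm : lm ≤ -(3 / 4) * A + 2 * Er)
    (hdm : ∑ c, dm c ^ 2 ≤ 4 * ρ * (4 * ε ^ 2 + 16 * ρ) * A)
    (hEr : Er ^ 2 ≤ 4 * (E0 * A)) :
    lam * lm + lam ^ 2 / 2 * ∑ c, dm c ^ 2 ≤ 20 * j * E0 / ρ + 64 * j * ρ * E1 := by
  have hj1 : (1 : ℝ) ≤ j := by exact_mod_cast hj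
  have hlam0 : 0 < lam := by rw [hlam]; positivity
  have hlρ : lam * ρ = j / 4 := by
    rw [hlam]
    field_simp
  have h1 : lam ^ 2 / 2 * ∑ c, dm c ^ 2 ≤ lam * A / 16 := by
    have h2 : lam ^ 2 / 2 * ∑ c, dm c ^ 2 ≤ lam ^ 2 / 2 * (4 * ρ * (4 * ε ^ 2 + 16 * ρ) * A) := by
      gcongr
    have h3 : lam ^ 2 / 2 * (4 * ρ * (4 * ε ^ 2 + 16 * ρ) * A) =
        lam * A * ((lam * ρ) * 2 * (4 * ε ^ 2 + 16 * ρ)) := by ring
    have h4 : (lam * ρ) * 2 * (4 * ε ^ 2 + 16 * ρ) ≤ 1 / 16 := by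
      rw [hlρ]
      linarith only [hjc]
    have h5 : lam * A * ((lam * ρ) * 2 * (4 * ε ^ 2 + 16 * ρ)) ≤ lam * A * (1 / 16) := by
      gcongr
    linarith only [h2, h5]
  have h18 : Er ≤ 1 / 32 * A + E0 / (1 / 32) := yg hEr hE0 hA (by norm_num)
  have h21 : lam * lm ≤ lam * (-(3 / 4) * A + 2 * Er) := by gcongr
  have h22 : lam * (2 * Er) ≤ lam * A / 16 + 64 * lam * E0 := by
    have : lam * (2 * Er) ≤ lam * (2 * (1 / 32 * A + E0 / (1 / 32))) := by gcongr
    have h23 : lam * (2 * (1 / 32 * A + E0 / (1 / 32))) = lam * A / 16 + 64 * lam * E0 := by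
      ring
    linarith
  have hlA : 0 ≤ lam * A := by positivity
  have h34 : 64 * lam * E0 = 16 * j * E0 / ρ := by
    rw [hlam]
    field_simp
    ring
  have h35 : 16 * (j : ℝ) * E0 / ρ ≤ 20 * j * E0 / ρ := by
    gcongr
    norm_num
  have h36 : 0 ≤ 64 * (j : ℝ) * ρ * E1 := by positivity
  nlinarith only [h1, h21, h22, hlA, h34, h35, h36]

/-! ### the functions -/

theorem dexp1 (lam ρ : ℝ) :
    deriv (fun x : ℝ => Real.exp (lam * (x - 2 * ρ))) =
      fun x => lam * Real.exp (lam * (x - 2 * ρ)) := by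
  funext x
  have h1 : HasDerivAt (fun x : ℝ => lam * (x - 2 * ρ)) lam x := by
    have := ((hasDerivAt_id x).sub_const (2 * ρ)).const_mul lam
    refine this.congr_deriv ?_
    ring
  rw [h1.exp.deriv]
  ring

theorem dexp2 (lam : ℝ) :
    deriv (fun x : ℝ => Real.exp (lam * x)) = fun x => lam * Real.exp (lam * x) := by
  funext x
  have h1 : HasDerivAt (fun x : ℝ => lam * x) lam x := by
    have := (hasDerivAt_id x).const_mul lam
    refine this.congr_deriv ?_
    ring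
  rw [h1.exp.deriv]
  ring

theorem dpow (t c : ℝ) (j : ℕ) :
    deriv (fun x : ℝ => ((x + t) / c) ^ j) =
      fun x => (j : ℝ) * ((x + t) / c) ^ (j - 1) * (1 / c) := by
  funext x
  have h1 : HasDerivAt (fun x : ℝ => (x + t) / c) (1 / c) x :=
    ((hasDerivAt_id x).add_const t).div_const c
  exact (h1.pow j).deriv

theorem dpow2 (t c : ℝ) (j : ℕ) (x : ℝ) :
    deriv (fun x : ℝ => (j : ℝ) * ((x + t) / c) ^ (j - 1) * (1 / c)) x =
      (j : ℝ) * (((j - 1 : ℕ) : ℝ) * ((x + t) / c) ^ (j - 1 - 1) * (1 / c)) * (1 / c) := by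
  have h1 : HasDerivAt (fun x : ℝ => (x + t) / c) (1 / c) x :=
    ((hasDerivAt_id x).add_const t).div_const c
  have h2 := ((h1.pow (j - 1)).const_mul (j : ℝ)).mul_const (1 / c)
  exact h2.deriv

theorem powb {b c : ℝ} (hb : b ≠ 0) (hc : c ≠ 0) (n : ℕ) :
    (n : ℝ) * (b / c) ^ (n - 1) * (1 / c) = (b / c) ^ n * (n / b) := by
  cases n with
  | zero => simp
  | succ k =>
    rw [Nat.add_sub_cancel, pow_succ]
    field_simp

/-! ### the network -/

variable {ι X : Type} [Fintype ι] [DecidableEq ι] [Fintype X] [DecidableEq X]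

omit [Fintype ι] [DecidableEq ι] in
theorem ee_le (e : ι → X) (G : Matrix X X ℂ) (κ g : X → ℝ) (o v : X) (c : ι) (κs kI g₀ : ℝ)
    (h0 : 0 ≤ κ v) (h1 : κ v ≤ κs) (h2 : ‖G v (e c)‖ ^ 2 ≤ kI) (hg0 : 0 < g₀)
    (hg : g₀ ≤ g (e c)) (hgam : 0 < gam κ G o) :
    ee e κ G o v c ≤ κs * kI / g₀ * AA e κ g G o c := by
  unfold ee AA
  rw [norm_mul, mul_pow, ← mul_div_assoc]
  refine div_le_div_of_nonneg_right ?_ hgam.le
  have hκs : 0 ≤ κs := le_trans h0 h1
  have hkI : 0 ≤ kI := le_trans (sq_nonneg _) h2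
  have h3 : κ v * (‖G v (e c)‖ ^ 2 * ‖G (e c) o‖ ^ 2) ≤ κs * (kI * ‖G (e c) o‖ ^ 2) := by gcongr
  have h4 : κs * kI / g₀ * (g₀ * ‖G (e c) o‖ ^ 2) ≤ κs * kI / g₀ * (g (e c) * ‖G (e c) o‖ ^ 2) := by
    gcongr
  have h5 : κs * kI / g₀ * (g₀ * ‖G (e c) o‖ ^ 2) = κs * (kI * ‖G (e c) o‖ ^ 2) := by
    field_simp
  linarith only [h3, h4, h5]

omit [DecidableEq ι] in
theorem er_le (e : ι → X) (G : Matrix X X ℂ) (κ : X → ℝ) (μ : ι → ℂ) (o v : X) (δ : ℝ)
    (h0 : 0 ≤ κ v) (hμ : ∀ c, ‖μ c‖ ≤ δ) (hgam : 0 < gam κ G o) :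
    |er e κ G μ o v| ^ 2 ≤
      4 * (δ ^ 2 * (Fintype.card ι * ∑ c, aa κ G o v * ee e κ G o v c)) := by
  have h1 : |er e κ G μ o v| ≤
      2 * δ * ∑ c, κ v * ‖G v o‖ * ‖G v (e c) * G (e c) o‖ / gam κ G o := by
    unfold er
    rw [abs_div, abs_of_pos hgam, abs_mul, abs_mul, abs_of_nonneg h0, abs_of_nonneg (by norm_num :
      (0 : ℝ) ≤ 2)]
    have h2 : |((starRingEnd ℂ) (G v o) * ∑ c, G v (e c) * μ c * G (e c) o).re| ≤
        ‖G v o‖ * ∑ c, ‖G v (e c) * G (e c) o‖ * δ := by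
      refine le_trans (Complex.abs_re_le_norm _) ?_
      rw [norm_mul, RCLike.norm_conj]
      gcongr
      refine le_trans (norm_sum_le _ _) (Finset.sum_le_sum fun c _ => ?_)
      have h3 : G v (e c) * μ c * G (e c) o = G v (e c) * G (e c) o * μ c := by ring
      rw [h3, norm_mul]
      exact mul_le_mul_of_nonneg_left (hμ c) (norm_nonneg _)
    have h3 : 2 * κ v * |((starRingEnd ℂ) (G v o) * ∑ c, G v (e c) * μ c * G (e c) o).re| ≤
        2 * κ v * (‖G v o‖ * ∑ c, ‖G v (e c) * G (e c) o‖ * δ) := by gcongr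
    have h4 : 2 * δ * ∑ c, κ v * ‖G v o‖ * ‖G v (e c) * G (e c) o‖ / gam κ G o =
        2 * κ v * (‖G v o‖ * ∑ c, ‖G v (e c) * G (e c) o‖ * δ) / gam κ G o := by
      rw [← Finset.sum_mul, ← Finset.sum_div, ← Finset.mul_sum]
      ring
    rw [h4]
    gcongr
  have h5 : ∀ c, (κ v * ‖G v o‖ * ‖G v (e c) * G (e c) o‖ / gam κ G o) ^ 2 =
      aa κ G o v * ee e κ G o v c := by
    intro c
    unfold aa ee nn
    ring
  have h6 : (∑ c, κ v * ‖G v o‖ * ‖G v (e c) * G (e c) o‖ / gam κ G o) ^ 2 ≤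
      Fintype.card ι * ∑ c, aa κ G o v * ee e κ G o v c := by
    have h7 := sq_sum_le_card_mul_sum_sq (s := (Finset.univ : Finset ι))
      (f := fun c => κ v * ‖G v o‖ * ‖G v (e c) * G (e c) o‖ / gam κ G o)
    simp only [h5] at h7
    exact h7
  have h8 : 0 ≤ ∑ c, κ v * ‖G v o‖ * ‖G v (e c) * G (e c) o‖ / gam κ G o :=
    Finset.sum_nonneg fun c _ => by positivity
  calc |er e κ G μ o v| ^ 2 ≤
      (2 * δ * ∑ c, κ v * ‖G v o‖ * ‖G v (e c) * G (e c) o‖ / gam κ G o) ^ 2 := by gcongr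
    _ = 4 * (δ ^ 2 * (∑ c, κ v * ‖G v o‖ * ‖G v (e c) * G (e c) o‖ / gam κ G o) ^ 2) := by ring
    _ ≤ _ := by gcongr

theorem klj (hKJN : KjnStmt) (hKNB : KnbStmt) : KljStmt := by
  intro ι X _ _ _ _ e q Gm kp G κ g μ o Rn B κs g₀ δ Lc kI t₁ ρ ε h lam j hK hG hgam hBR heB hkI
    hkI0 hj ht₁ ht₁1 hρ hε hε1 hδε hκL hh hlam hjc hjH hmρ
  have hj1 : (1 : ℝ) ≤ j := by exact_mod_cast hj
  have hρ1 : ρ ≤ 1 / 128 := by nlinarith only [sq_nonneg ε, hρ, hjc, hj1]
  have hoR : o ∉ Rn := hG.hR.2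
  have heo : ∀ c, e c ≠ o := fun c hc => hoR (hc ▸ hG.hR.1 c)
  have hvo : ∀ v ∈ B, v ≠ o := by
    rintro v hv rfl
    exact hoR (hBR hv)
  obtain ⟨n1, n2, n3, n4, n5, n6, n7⟩ := hKNB ι X e G κ g μ Rn o κs g₀ δ Lc hK.inj hG hgam
  have hg₀ := hG.hg.1
  -- names
  set m : ℝ := ∑ c, aa κ G o (e c) with hm
  set A : ℝ := ∑ c, AA e κ g G o c with hA
  set Er : ℝ := ∑ v ∈ Finset.univ.erase o, |er e κ G μ o v| with hEr
  set E0 : ℝ := Real.sqrt (Fintype.card ι * Real.sqrt (Fintype.card ι * Lc)) * δ ^ 2 / g₀ with hE0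
  set E1 : ℝ := 2 * δ ^ 2 * Fintype.card ι * h / t₁ with hE1
  set J : ℝ := (∑ w ∈ Finset.univ.erase o, ((∑ c, ee e κ G o w c) + er e κ G μ o w)) - A with hJ
  set dm : ι → ℝ := fun c => ∑ c', da e κ G o (e c') c with hdm
  set lm : ℝ := ∑ c', la e κ g G μ o (e c') with hlm
  have hEr0 : 0 ≤ Er := Finset.sum_nonneg fun v _ => abs_nonneg _
  have hA0 : 0 ≤ A := Finset.sum_nonneg fun c _ => n3 c
  have hE00 : 0 ≤ E0 := by positivity
  have hm0 : 0 ≤ m := Finset.sum_nonneg fun c _ => n1 _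
  have hEr2 : Er ^ 2 ≤ 4 * (E0 * A) := by
    refine le_trans n7 (le_of_eq ?_)
    rw [hE0]
    ring
  have hJb : |J| ≤ ε * A + Er := by
    have h1 : J = (∑ c, ((∑ w ∈ Finset.univ.erase o, ee e κ G o w c) - AA e κ g G o c)) +
        ∑ w ∈ Finset.univ.erase o, er e κ G μ o w := by
      rw [hJ, Finset.sum_add_distrib, Finset.sum_comm, Finset.sum_sub_distrib]
      ring
    rw [h1]
    refine le_trans (abs_add_le _ _) (add_le_add ?_ (Finset.abs_sum_le_sum_abs _ _))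
    refine le_trans (Finset.abs_sum_le_sum_abs _ _) ?_
    rw [hA, Finset.mul_sum]
    refine Finset.sum_le_sum fun c _ => le_trans (n5 c) ?_
    exact mul_le_mul_of_nonneg_right hδε (n3 c)
  have hdd : ∀ c, dd e κ G o c ^ 2 ≤ 4 * ((1 + ε) * AA e κ g G o c) := by
    intro c
    have h1 : |dd e κ G o c| ≤ ∑ v ∈ Finset.univ.erase o,
        2 * Real.sqrt (aa κ G o v) * Real.sqrt (ee e κ G o v c) := by
      refine le_trans (Finset.abs_sum_le_sum_abs _ _) (Finset.sum_le_sum fun v _ => ?_)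
      have h2 := (n4 v c).2
      have h3 : 0 ≤ 2 * Real.sqrt (aa κ G o v) * Real.sqrt (ee e κ G o v c) := by positivity
      refine abs_le_of_sq_le_sq ?_ h3
      rw [mul_pow, mul_pow, Real.sq_sqrt (n1 v), Real.sq_sqrt (n4 v c).1]
      linarith only [h2]
    have h4 : (∑ v ∈ Finset.univ.erase o,
        2 * Real.sqrt (aa κ G o v) * Real.sqrt (ee e κ G o v c)) ^ 2 ≤
        (∑ v ∈ Finset.univ.erase o, (2 * Real.sqrt (aa κ G o v)) ^ 2) *
          ∑ v ∈ Finset.univ.erase o, Real.sqrt (ee e κ G o v c) ^ 2 :=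
      Finset.sum_mul_sq_le_sq_mul_sq _ _ _
    have h5 : ∑ v ∈ Finset.univ.erase o, (2 * Real.sqrt (aa κ G o v)) ^ 2 = 4 := by
      rw [← mul_one (4 : ℝ), ← n2, Finset.mul_sum]
      refine Finset.sum_congr rfl fun v _ => ?_
      rw [mul_pow, Real.sq_sqrt (n1 v)]
      norm_num
    have h6 : ∑ v ∈ Finset.univ.erase o, Real.sqrt (ee e κ G o v c) ^ 2 =
        ∑ v ∈ Finset.univ.erase o, ee e κ G o v c :=
      Finset.sum_congr rfl fun v _ => Real.sq_sqrt (n4 v c).1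
    have h7 : ∑ v ∈ Finset.univ.erase o, ee e κ G o v c ≤ (1 + ε) * AA e κ g G o c := by
      have h8 := le_trans (le_abs_self _) (n5 c)
      have h9 := mul_le_mul_of_nonneg_right hδε (n3 c)
      linarith only [h8, h9]
    have h10 : dd e κ G o c ^ 2 = |dd e κ G o c| ^ 2 := (sq_abs _).symm
    rw [h10]
    have h11 : |dd e κ G o c| ^ 2 ≤ (∑ v ∈ Finset.univ.erase o,
        2 * Real.sqrt (aa κ G o v) * Real.sqrt (ee e κ G o v c)) ^ 2 := by
      have := abs_nonneg (dd e κ G o c)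
      gcongr
    rw [h5, h6] at h4
    linarith only [h4, h7, h11]
  -- the killed sites
  have hD : ∀ c, ∑ c', ee e κ G o (e c') c ≤ ε ^ 2 * AA e κ g G o c := by
    intro c
    have h1 := n6 (Finset.univ.image e) (Fintype.card ι) (by
      intro v hv
      obtain ⟨c', -, rfl⟩ := Finset.mem_image.1 hv
      exact hG.hR.1 c') (by
      rw [Finset.card_image_of_injective _ hK.inj, Finset.card_univ]) c
    rw [Finset.sum_image fun x _ y _ hxy => hK.inj hxy] at h1
    exact le_trans h1 (mul_le_mul_of_nonneg_right hκL (n3 c))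
  have hxD : ∀ c, (∑ c', xx e κ G o (e c') c) ^ 2 ≤ 4 * (m * (ε ^ 2 * AA e κ g G o c)) := by
    intro c
    have h1 : |∑ c', xx e κ G o (e c') c| ≤ ∑ c',
        2 * Real.sqrt (aa κ G o (e c')) * Real.sqrt (ee e κ G o (e c') c) := by
      refine le_trans (Finset.abs_sum_le_sum_abs _ _) (Finset.sum_le_sum fun v _ => ?_)
      have h2 := (n4 (e v) c).2
      have h3 : 0 ≤ 2 * Real.sqrt (aa κ G o (e v)) * Real.sqrt (ee e κ G o (e v) c) := by
        positivity
      refine abs_le_of_sq_le_sq ?_ h3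
      rw [mul_pow, mul_pow, Real.sq_sqrt (n1 _), Real.sq_sqrt (n4 _ c).1]
      linarith only [h2]
    have h4 : (∑ c', 2 * Real.sqrt (aa κ G o (e c')) * Real.sqrt (ee e κ G o (e c') c)) ^ 2 ≤
        (∑ c', (2 * Real.sqrt (aa κ G o (e c'))) ^ 2) *
          ∑ c', Real.sqrt (ee e κ G o (e c') c) ^ 2 :=
      Finset.sum_mul_sq_le_sq_mul_sq _ _ _
    have h5 : ∑ c', (2 * Real.sqrt (aa κ G o (e c'))) ^ 2 = 4 * m := by
      rw [hm, Finset.mul_sum]
      refine Finset.sum_congr rfl fun v _ => ?_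
      rw [mul_pow, Real.sq_sqrt (n1 _)]
      norm_num
    have h6 : ∑ c', Real.sqrt (ee e κ G o (e c') c) ^ 2 = ∑ c', ee e κ G o (e c') c :=
      Finset.sum_congr rfl fun v _ => Real.sq_sqrt (n4 _ c).1
    have h10 : (∑ c', xx e κ G o (e c') c) ^ 2 = |∑ c', xx e κ G o (e c') c| ^ 2 :=
      (sq_abs _).symm
    rw [h10]
    have h11 : |∑ c', xx e κ G o (e c') c| ^ 2 ≤
        (∑ c', 2 * Real.sqrt (aa κ G o (e c')) * Real.sqrt (ee e κ G o (e c') c)) ^ 2 := by
      have := abs_nonneg (∑ c', xx e κ G o (e c') c)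
      gcongr
    rw [h5, h6] at h4
    have h12 : 4 * m * ∑ c', ee e κ G o (e c') c ≤ 4 * m * (ε ^ 2 * AA e κ g G o c) := by
      have := hD c
      gcongr
    linarith only [h4, h11, h12]
  have hdmc : ∀ c, dm c = -(∑ c', xx e κ G o (e c') c) + m * dd e κ G o c := by
    intro c
    rw [hdm, hm]
    simp only [da]
    rw [Finset.sum_add_distrib, Finset.sum_neg_distrib, Finset.sum_mul]
  have hser : |∑ c', er e κ G μ o (e c')| ≤ Er := by
    refine le_trans (Finset.abs_sum_le_sum_abs _ _) ?_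
    have h1 : ∑ c', |er e κ G μ o (e c')| =
        ∑ v ∈ Finset.univ.image e, |er e κ G μ o v| := by
      rw [Finset.sum_image fun x _ y _ hxy => hK.inj hxy]
    rw [h1]
    refine Finset.sum_le_sum_of_subset_of_nonneg ?_ fun v _ _ => abs_nonneg _
    intro v hv
    obtain ⟨c', -, rfl⟩ := Finset.mem_image.1 hv
    exact Finset.mem_erase.2 ⟨heo c', Finset.mem_univ _⟩
  have hlme : lm = (∑ c, ∑ c', ee e κ G o (e c') c) - A + (∑ c', er e κ G μ o (e c')) - m * J -
      (∑ c, (∑ c', xx e κ G o (e c') c) * dd e κ G o c) + m * ∑ c, dd e κ G o c ^ 2 := by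
    have h1 : ∑ c', ∑ c, (if e c = e c' then AA e κ g G o c else 0) = A := by
      rw [hA]
      refine Finset.sum_congr rfl fun c' _ => ?_
      rw [Finset.sum_eq_single c']
      · rw [if_pos rfl]
      · intro c _ hc
        rw [if_neg fun hc' => hc (hK.inj hc')]
      · intro hc
        exact absurd (Finset.mem_univ _) hc
    have h2 : ∑ c, (∑ c', xx e κ G o (e c') c) * dd e κ G o c =
        ∑ c', ∑ c, xx e κ G o (e c') c * dd e κ G o c := by
      rw [Finset.sum_comm]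
      refine Finset.sum_congr rfl fun c _ => ?_
      rw [Finset.sum_mul]
    rw [hlm, h2, ← h1, hm, Finset.sum_mul, Finset.sum_mul, Finset.sum_comm (γ := ι) (f := fun c c' => ee e κ G o (e c') c)]
    simp only [la, ← hA, ← hJ]
    rw [← Finset.sum_sub_distrib, ← Finset.sum_add_distrib, ← Finset.sum_sub_distrib,
      ← Finset.sum_sub_distrib, ← Finset.sum_add_distrib]
  obtain ⟨hlmb, hdmb⟩ := lemD (fun c => AA e κ g G o c) (fun c => ∑ c', xx e κ G o (e c') c)
    (fun c => dd e κ G o c) dm m ε ρ (∑ c, ∑ c', ee e κ G o (e c') c)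
    (∑ c', er e κ G μ o (e c')) Er J lm n3 hε hε1 hρ1 hm0 hmρ hxD hdd (by
      rw [Finset.mul_sum]
      exact Finset.sum_le_sum fun c _ => hD c) hser hJb hlme hdmc
  have hE10 : 0 ≤ E1 := by
    rcases isEmpty_or_nonempty ι with hi | hi
    · rw [hE1, Fintype.card_eq_zero]
      simp
    · obtain ⟨c⟩ := hi
      have h1 : 0 ≤ κs := le_trans (hG.hκ.1 (e c)) (hG.hκ.2 _ (hG.hR.1 c))
      have h2 : 0 ≤ h := by rw [hh]; positivity
      positivity
  -- one site of `B`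
  have hV : ∀ v ∈ B, j / (aa κ G o v + t₁ / 2) * la e κ g G μ o v +
      j / (aa κ G o v + t₁ / 2) * ((j - 1) / (aa κ G o v + t₁ / 2)) / 2 *
        ∑ c, da e κ G o v c ^ 2 + lam * lm + lam ^ 2 / 2 * ∑ c, dm c ^ 2 +
      lam * (j / (aa κ G o v + t₁ / 2)) * ∑ c, dm c * da e κ G o v c ≤
      20 * j * E0 / ρ + 64 * j * ρ * E1 := by
    intro v hv
    have hκv := hG.hκ.1 v
    have hκs : 0 ≤ κs := le_trans hκv (hG.hκ.2 v (hBR hv))
    have hh0 : 0 ≤ h := by rw [hh]; positivity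
    have hev : ∀ c, ee e κ G o v c ≤ h * AA e κ g G o c := by
      intro c
      rw [hh]
      exact ee_le e G κ g o v c κs kI g₀ hκv (hG.hκ.2 v (hBR hv)) (hkI v hv c) hg₀ (hG.hg.2 c)
        hgam
    have hlav : la e κ g G μ o v = (∑ c, ee e κ G o v c) + er e κ G μ o v -
        aa κ G o v * J - (∑ c, xx e κ G o v c * dd e κ G o c) +
        aa κ G o v * ∑ c, dd e κ G o c ^ 2 := by
      have h1 : ∑ c, (if e c = v then AA e κ g G o c else 0) = 0 := by
        refine Finset.sum_eq_zero fun c _ => ?_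
        rw [if_neg]
        rintro rfl
        exact heB c hv
      unfold la
      rw [h1, hJ, hA]
      ring
    obtain ⟨g1, g2⟩ := lemV (fun c => AA e κ g G o c) (fun c => xx e κ G o v c)
      (fun c => dd e κ G o c) (fun c => da e κ G o v c) (fun c => ee e κ G o v c) (aa κ G o v) ε h
      t₁ (er e κ G μ o v) Er J (la e κ g G μ o v) (aa κ G o v + t₁ / 2) (2 * h / t₁ + 1) n3 hε hε1
      ht₁ hh0 (n1 v) (fun c => (n4 v c).2) hev hdd hJb rfl rfl hlav (fun c => rfl)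
    have hb0 : 0 < aa κ G o v + t₁ / 2 := by
      have := n1 v
      linarith only [ht₁, this]
    have herv : (|er e κ G μ o v| / (aa κ G o v + t₁ / 2)) ^ 2 ≤ 4 * (E1 * A) := by
      rw [div_pow, div_le_iff₀ (by positivity)]
      refine le_trans (er_le e G κ μ o v δ hκv (fun c => (hG.hμ c).1) hgam) ?_
      have h1 : ∑ c, aa κ G o v * ee e κ G o v c ≤ aa κ G o v * (h * A) := by
        rw [hA, Finset.mul_sum, Finset.mul_sum]
        refine Finset.sum_le_sum fun c _ => ?_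
        exact mul_le_mul_of_nonneg_left (hev c) (n1 v)
      have h2 : aa κ G o v ≤ 2 / t₁ * (aa κ G o v + t₁ / 2) ^ 2 := by
        have h3 : 2 / t₁ * (aa κ G o v + t₁ / 2) ^ 2 =
            aa κ G o v + (2 / t₁ * aa κ G o v ^ 2 + aa κ G o v + t₁ / 2) := by
          field_simp
          ring
        have := n1 v
        rw [h3]
        have : 0 ≤ 2 / t₁ * aa κ G o v ^ 2 := by positivity
        linarith only [hb0, this]
      have h4 : 4 * (δ ^ 2 * (Fintype.card ι * ∑ c, aa κ G o v * ee e κ G o v c)) ≤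
          4 * (δ ^ 2 * (Fintype.card ι * (aa κ G o v * (h * A)))) := by gcongr
      have h5 : 4 * (δ ^ 2 * (Fintype.card ι * (aa κ G o v * (h * A)))) ≤
          4 * (δ ^ 2 * (Fintype.card ι * (2 / t₁ * (aa κ G o v + t₁ / 2) ^ 2 * (h * A)))) := by
        gcongr
      have h6 : 4 * (δ ^ 2 * (Fintype.card ι * (2 / t₁ * (aa κ G o v + t₁ / 2) ^ 2 * (h * A)))) =
          4 * (E1 * A) * (aa κ G o v + t₁ / 2) ^ 2 := by
        rw [hE1]
        ring
      linarith only [h4, h5, h6]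
    exact lemF (fun c => da e κ G o v c) dm (la e κ g G μ o v) lm (aa κ G o v + t₁ / 2)
      (2 * h / t₁ + 1) A lam ρ Er (er e κ G μ o v) E0 E1 ε j hj hb0 hA0 hρ hρ1 hE00 hE10
      (by
        have : 0 ≤ 2 * h / t₁ := by positivity
        linarith only [this]) hlam hjc hjH g1 g2 hlmb hdmb hEr2 herv
  have hM : lam * lm + lam ^ 2 / 2 * ∑ c, dm c ^ 2 ≤ 20 * j * E0 / ρ + 64 * j * ρ * E1 :=
    lemF1 dm lm A lam ρ Er E0 E1 ε j hA0 hρ hE00 hj hE10 hlam hjc hlmb hdmb hEr2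
  have hKc : 20 * j * E0 / ρ + 64 * j * ρ * E1 =
      20 * j * δ ^ 2 * Real.sqrt (Fintype.card ι * Real.sqrt (Fintype.card ι * Lc)) /
          (ρ * g₀) + 128 * j * ρ * δ ^ 2 * Fintype.card ι * h / t₁ := by
    rw [hE0, hE1]
    field_simp
    ring
  -- the jets
  have jm : HJ (fun r => ∑ c, aa (kp r.1) (Gm r) o (e c)) q m dm lm :=
    hsum ι Finset.univ (fun c r => aa (kp r.1) (Gm r) o (e c))
      (fun c => aa κ G o (e c)) (fun c => la e κ g G μ o (e c)) (fun c c' => da e κ G o (e c) c')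
      (fun c _ => hKJN ι X e q Gm kp G κ g μ o hK heo hgam (e c) (heo c))
  have j1 := comp jm (fun x : ℝ => Real.exp (lam * (x - 2 * ρ))) (by fun_prop)
  have j2 := comp jm (fun x : ℝ => Real.exp (lam * x)) (by fun_prop)
  have jv : ∀ v ∈ B, _ := fun v hv =>
    comp (hKJN ι X e q Gm kp G κ g μ o hK heo hgam v (hvo v hv))
      (fun x : ℝ => ((x + t₁ / 2) / (5 * t₁ / 2)) ^ j) (by fun_prop)
  have js := hsum X B _ _ _ _ (fun v hv => hmul j2 (jv v hv))
  refine ⟨_, _, cg (hadd j1 js) ?_ ?_ (fun c => rfl) rfl, ?_⟩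
  · funext r
    unfold uL
    rw [Finset.mul_sum B]
  · unfold uL
    rw [Finset.mul_sum B]
  · rw [← hKc]
    unfold uL
    rw [← hm, Finset.mul_sum B, mul_add, Finset.mul_sum B]
    refine add_le_add ?_ (Finset.sum_le_sum fun v hv => ?_)
    · rw [dexp1]
      have hd2 : deriv (fun x => lam * Real.exp (lam * (x - 2 * ρ))) m =
          lam * (lam * Real.exp (lam * (m - 2 * ρ))) := by
        rw [deriv_const_mul_field, dexp1]
      rw [hd2]
      have h1 : 0 < Real.exp (lam * (m - 2 * ρ)) := Real.exp_pos _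
      calc _ = (lam * lm + lam ^ 2 / 2 * ∑ c, dm c ^ 2) * Real.exp (lam * (m - 2 * ρ)) := by ring
        _ ≤ _ := mul_le_mul_of_nonneg_right hM h1.le
    · have hb0 : 0 < aa κ G o v + t₁ / 2 := by
        have := n1 v
        linarith only [ht₁, this]
      have hc0 : (5 * t₁ / 2) ≠ 0 := by positivity
      have hd2 : deriv (fun x => lam * Real.exp (lam * x)) m =
          lam * (lam * Real.exp (lam * m)) := by
        rw [deriv_const_mul_field, dexp2]
      have hp1 := powb hb0.ne' hc0 j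
      have hp2 : (j : ℝ) * (((j - 1 : ℕ) : ℝ) * ((aa κ G o v + t₁ / 2) / (5 * t₁ / 2)) ^ (j - 1 - 1)
          * (1 / (5 * t₁ / 2))) * (1 / (5 * t₁ / 2)) =
          ((aa κ G o v + t₁ / 2) / (5 * t₁ / 2)) ^ j * (j / (aa κ G o v + t₁ / 2)) *
            ((j - 1) / (aa κ G o v + t₁ / 2)) := by
        have h2 := powb hb0.ne' hc0 (j - 1)
        rw [h2, ← hp1, Nat.cast_sub hj, Nat.cast_one]
        ring
      rw [dexp2, hd2, dpow, dpow2]
      simp only []
      rw [hp1, hp2]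
      have h1 : 0 < Real.exp (lam * m) * ((aa κ G o v + t₁ / 2) / (5 * t₁ / 2)) ^ j := by
        positivity
      have h3 : ∑ c, lam * Real.exp (lam * m) * dm c *
          (((aa κ G o v + t₁ / 2) / (5 * t₁ / 2)) ^ j * (j / (aa κ G o v + t₁ / 2)) *
            da e κ G o v c) =
          lam * (j / (aa κ G o v + t₁ / 2)) * (∑ c, dm c * da e κ G o v c) *
            (Real.exp (lam * m) * ((aa κ G o v + t₁ / 2) / (5 * t₁ / 2)) ^ j) := by
        rw [Finset.mul_sum Finset.univ (fun c => dm c * da e κ G o v c)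
          (lam * (j / (aa κ G o v + t₁ / 2))), Finset.sum_mul]
        refine Finset.sum_congr rfl fun c _ => ?_
        ring
      rw [h3]
      calc _ = (j / (aa κ G o v + t₁ / 2) * la e κ g G μ o v +
      j / (aa κ G o v + t₁ / 2) * ((j - 1) / (aa κ G o v + t₁ / 2)) / 2 *
        ∑ c, da e κ G o v c ^ 2 + lam * lm + lam ^ 2 / 2 * ∑ c, dm c ^ 2 +
      lam * (j / (aa κ G o v + t₁ / 2)) * ∑ c, dm c * da e κ G o v c) *
            (Real.exp (lam * m) * ((aa κ G o v + t₁ / 2) / (5 * t₁ / 2)) ^ j) := by ring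
        _ ≤ _ := mul_le_mul_of_nonneg_right (hV v hv) h1.le

end Pool.Agent.KIL.H58
end
end -- Pool.Agent.Helper58_KIL.KLJ
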