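import Pool.Agent.Helper12_MEB.B102

/-!
# Merged copies (generated) of the modules

* `Pool.Agent.Helper76_ATT.NumA`
* `Pool.Agent.Helper76_ATT.NumB`
* `Pool.Agent.Helper76_ATT.NumC`
-/

set_option autoImplicit false

section -- Pool.Agent.Helper76_ATT.NumA

/-!
# Helper76, tank ATT: the numbers, part 1 (sums over sets of killed sites)
-/

set_option autoImplicit false

open scoped BigOperators NNReal

noncomputable section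

namespace Pool.Agent.ATT.H76

/-- `∑ p² p'² ≤ a² b²` from the fourth powers -/
lemma sum_sq_mul {ι : Type} (S : Finset ι) (p p' : ι → ℝ) (a b : ℝ)
    (h1 : ∑ c ∈ S, p c ^ 4 ≤ a ^ 4) (h2 : ∑ c ∈ S, p' c ^ 4 ≤ b ^ 4) :
    ∑ c ∈ S, (p c * p' c) ^ 2 ≤ (a * b) ^ 2 := by
  have h := Finset.sum_mul_sq_le_sq_mul_sq S (fun c => p c ^ 2) (fun c => p' c ^ 2)
  have h3 : (∑ c ∈ S, (p c * p' c) ^ 2) ^ 2 ≤ (a ^ 4) * (b ^ 4) := by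
    calc (∑ c ∈ S, (p c * p' c) ^ 2) ^ 2 = (∑ c ∈ S, p c ^ 2 * p' c ^ 2) ^ 2 := by
          congr 1; exact Finset.sum_congr rfl fun c _ => by ring
      _ ≤ (∑ c ∈ S, (p c ^ 2) ^ 2) * ∑ c ∈ S, (p' c ^ 2) ^ 2 := h
      _ = (∑ c ∈ S, p c ^ 4) * ∑ c ∈ S, p' c ^ 4 := by
          congr 1 <;> exact Finset.sum_congr rfl fun c _ => by ring
      _ ≤ (a ^ 4) * (b ^ 4) := by
          apply mul_le_mul h1 h2 (Finset.sum_nonneg fun c _ => by positivity) (by positivity)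
  have h4 : 0 ≤ ∑ c ∈ S, (p c * p' c) ^ 2 := Finset.sum_nonneg fun c _ => by positivity
  have h5 : (∑ c ∈ S, (p c * p' c) ^ 2) ^ 2 ≤ ((a * b) ^ 2) ^ 2 := by
    calc _ ≤ (a ^ 4) * (b ^ 4) := h3
      _ = _ := by ring
  exact le_of_sq_le_sq' h5 h4 (by positivity)
where
  le_of_sq_le_sq' {x y : ℝ} (h : x ^ 2 ≤ y ^ 2) (_ : 0 ≤ x) (hy : 0 ≤ y) : x ≤ y :=
    abs_le_of_sq_le_sq' h hy |>.2

/-- `∑ p ≤ n z` if `∑ p² ≤ z²`, `|S| ≤ n²` -/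
lemma sum_le_of_sq {ι : Type} (S : Finset ι) (p : ι → ℝ) (n z : ℝ) (hn : 0 ≤ n) (hz : 0 ≤ z)
    (hS : (S.card : ℝ) ≤ n ^ 2) (h : ∑ c ∈ S, p c ^ 2 ≤ z ^ 2) : ∑ c ∈ S, p c ≤ n * z := by
  have h1 := Finset.sum_mul_sq_le_sq_mul_sq S (fun _ => (1 : ℝ)) p
  have h2 : (∑ c ∈ S, p c) ^ 2 ≤ (n * z) ^ 2 := by
    calc (∑ c ∈ S, p c) ^ 2 = (∑ c ∈ S, 1 * p c) ^ 2 := by simp
      _ ≤ (∑ _c ∈ S, (1 : ℝ) ^ 2) * ∑ c ∈ S, p c ^ 2 := h1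
      _ = (S.card : ℝ) * ∑ c ∈ S, p c ^ 2 := by simp
      _ ≤ n ^ 2 * z ^ 2 := mul_le_mul hS h (Finset.sum_nonneg fun c _ => by positivity)
          (by positivity)
      _ = (n * z) ^ 2 := by ring
  exact (abs_le_of_sq_le_sq' h2 (by positivity)).2

/-- the cost of the kills of `S` for an entry -/
lemma cost_pair {ι : Type} (S : Finset ι) (p p' : ι → ℝ) (v l δ n a b : ℝ) (hv : 0 ≤ v)
    (hl : 0 ≤ l) (hδ : 0 ≤ δ) (hn : 0 ≤ n) (ha : 0 ≤ a) (hb : 0 ≤ b) (hS : (S.card : ℝ) ≤ n ^ 2)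
    (h1 : ∑ c ∈ S, p c ^ 4 ≤ a ^ 4) (h2 : ∑ c ∈ S, p' c ^ 4 ≤ b ^ 4)
    (h3 : v * (δ * n * (l * a * b)) ≤ 1 / 2) (h4 : v * (l * a * b) ^ 2 ≤ 1) :
    v * ∑ c ∈ S, cs l δ (p c) (p' c) ≤ 1 := by
  have e : ∑ c ∈ S, cs l δ (p c) (p' c) =
      l * δ * ∑ c ∈ S, p c * p' c + l ^ 2 / 2 * ∑ c ∈ S, (p c * p' c) ^ 2 := by
    rw [Finset.mul_sum, Finset.mul_sum, ← Finset.sum_add_distrib]
    rfl
  have h5 := sum_sq_mul S p p' a b h1 h2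
  have h6 := sum_le_of_sq S (fun c => p c * p' c) n (a * b) hn (by positivity) hS h5
  rw [e]
  have h7 : l * δ * ∑ c ∈ S, p c * p' c ≤ l * δ * (n * (a * b)) :=
    mul_le_mul_of_nonneg_left h6 (by positivity)
  have h8 : l ^ 2 / 2 * ∑ c ∈ S, (p c * p' c) ^ 2 ≤ l ^ 2 / 2 * (a * b) ^ 2 :=
    mul_le_mul_of_nonneg_left h5 (by positivity)
  have h9 := mul_le_mul_of_nonneg_left (add_le_add h7 h8) hv
  calc _ ≤ v * (l * δ * (n * (a * b)) + l ^ 2 / 2 * (a * b) ^ 2) := h9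
    _ = v * (δ * n * (l * a * b)) + v * (l * a * b) ^ 2 / 2 := by ring
    _ ≤ 1 := by linarith only [h3, h4]

/-- the cost of the kills of `S` for a row; `n = m²` -/
lemma cost_row {ι : Type} (S : Finset ι) (p : ι → ℝ) (v lm εm δ gb m a : ℝ) (hv : 0 ≤ v)
    (hl : 0 ≤ lm) (hε : 0 ≤ εm) (hδ : 0 ≤ δ) (hg : 0 ≤ gb) (hm : 0 ≤ m) (ha : 0 ≤ a)
    (hS : (S.card : ℝ) ≤ m ^ 4)
    (h1 : ∑ c ∈ S, p c ^ 4 ≤ a ^ 4)
    (h2 : v * (lm * (2 * δ * Real.sqrt (εm * gb)) * (m ^ 3 * a)) ≤ 1 / 3)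
    (h3 : v * (lm * gb * (m * a) ^ 2) ≤ 1 / 3)
    (h4 : v * (2 * lm ^ 2 * (εm * gb) * (m * a) ^ 2) ≤ 1 / 3) :
    v * ∑ c ∈ S, cm lm εm δ gb (p c) ≤ 1 := by
  have e : ∑ c ∈ S, cm lm εm δ gb (p c) =
      lm * (2 * δ * Real.sqrt (εm * gb)) * ∑ c ∈ S, p c + lm * gb * ∑ c ∈ S, p c ^ 2 +
        2 * lm ^ 2 * (εm * gb) * ∑ c ∈ S, p c ^ 2 := by
    rw [Finset.mul_sum, Finset.mul_sum, Finset.mul_sum, ← Finset.sum_add_distrib,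
      ← Finset.sum_add_distrib]
    refine Finset.sum_congr rfl fun c _ => ?_
    unfold cm
    ring
  have hS' : (S.card : ℝ) ≤ (m ^ 2) ^ 2 := by rw [← pow_mul]; exact hS
  have h5 : ∑ c ∈ S, p c ^ 2 ≤ (m * a) ^ 2 := by
    have := sum_le_of_sq S (fun c => p c ^ 2) (m ^ 2) (a ^ 2) (by positivity) (by positivity) hS'
      (by
        calc ∑ c ∈ S, (p c ^ 2) ^ 2 = ∑ c ∈ S, p c ^ 4 :=
              Finset.sum_congr rfl fun c _ => by ring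
          _ ≤ a ^ 4 := h1
          _ = (a ^ 2) ^ 2 := by ring)
    calc _ ≤ m ^ 2 * a ^ 2 := this
      _ = _ := by ring
  have h6 : ∑ c ∈ S, p c ≤ m ^ 3 * a := by
    have := sum_le_of_sq S p (m ^ 2) (m * a) (by positivity) (by positivity) hS' h5
    calc _ ≤ m ^ 2 * (m * a) := this
      _ = _ := by ring
  rw [e]
  have h7 := mul_le_mul_of_nonneg_left h6
    (show 0 ≤ v * (lm * (2 * δ * Real.sqrt (εm * gb))) by positivity)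
  have h8 := mul_le_mul_of_nonneg_left h5 (show 0 ≤ v * (lm * gb) by positivity)
  have h9 := mul_le_mul_of_nonneg_left h5 (show 0 ≤ v * (2 * lm ^ 2 * (εm * gb)) by positivity)
  nlinarith only [h7, h8, h9, h2, h3, h4]

/-- the fourth powers of `|G| + J` -/
lemma sum_four {ι : Type} (S : Finset ι) (f : ι → ℝ) (J k m a : ℝ)
    (hf : ∀ c ∈ S, 0 ≤ f c) (hJ : 0 ≤ J) (hL : ∑ c ∈ S, f c ^ 4 ≤ k ^ 4)
    (hS : (S.card : ℝ) ≤ m ^ 4) (hk : 0 ≤ k) (hm : 0 ≤ m) (ha : 2 * (k + m * J) ≤ a) :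
    ∑ c ∈ S, (f c + J) ^ 4 ≤ a ^ 4 := by
  have h1 : ∀ c ∈ S, (f c + J) ^ 4 ≤ 8 * f c ^ 4 + 8 * J ^ 4 := by
    intro c hc
    have := hf c hc
    nlinarith only [sq_nonneg (f c ^ 2 - J ^ 2), sq_nonneg (f c - J), mul_nonneg this hJ,
      sq_nonneg (f c * (f c - J)), sq_nonneg (J * (f c - J)), sq_nonneg (f c ^ 2 - f c * J),
      sq_nonneg (J ^ 2 - f c * J), mul_nonneg (mul_nonneg this hJ) (sq_nonneg (f c - J))]
  have h2 : ∑ c ∈ S, (f c + J) ^ 4 ≤ 8 * k ^ 4 + 8 * (m ^ 4 * J ^ 4) := by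
    calc ∑ c ∈ S, (f c + J) ^ 4 ≤ ∑ c ∈ S, (8 * f c ^ 4 + 8 * J ^ 4) := Finset.sum_le_sum h1
      _ = 8 * ∑ c ∈ S, f c ^ 4 + (S.card : ℝ) * (8 * J ^ 4) := by
          rw [Finset.sum_add_distrib, ← Finset.mul_sum, Finset.sum_const, nsmul_eq_mul]
      _ ≤ _ := by
          have := mul_le_mul_of_nonneg_right hS (show (0 : ℝ) ≤ 8 * J ^ 4 by positivity)
          nlinarith only [hL, this]
  have h3 : 0 ≤ m * J := by positivity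
  have h4 : (2 * (k + m * J)) ^ 4 ≤ a ^ 4 := by gcongr
  have h5 : 8 * k ^ 4 + 8 * (m ^ 4 * J ^ 4) ≤ (2 * (k + m * J)) ^ 4 := by
    have e : (2 * (k + m * J)) ^ 4 = 16 * (k ^ 4 + m ^ 4 * J ^ 4) + 16 * (4 * k ^ 3 * (m * J) +
        6 * k ^ 2 * (m * J) ^ 2 + 4 * k * (m * J) ^ 3) := by ring
    rw [e]
    have : 0 ≤ 4 * k ^ 3 * (m * J) + 6 * k ^ 2 * (m * J) ^ 2 + 4 * k * (m * J) ^ 3 := by
      positivity
    have h6 : 0 ≤ k ^ 4 + m ^ 4 * J ^ 4 := by positivity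
    linarith only [this, h6]
  linarith

end Pool.Agent.ATT.H76
end
end -- Pool.Agent.Helper76_ATT.NumA

section -- Pool.Agent.Helper76_ATT.NumB

/-!
# Helper76, tank ATT: the numbers, part 2: the hypotheses of an attempt

`q` is the scale variable, `s = q ^ 2000` the clock of the running sites; `r = 1 / q`.
-/

set_option autoImplicit false

open scoped BigOperators NNReal

noncomputable section

namespace Pool.Agent.ATT.H76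

open Pool.Agent.ANP (Cfg)

variable {X : Type} [Fintype X] [DecidableEq X]

/-- the bound of the change of the entries: `s ^ 0.122` at running sites, `s ^ 0.0595 / κ_b ^ (1/2)` at
the sites of the cluster -/
def Jn (k : X → ℝ) (Q : Finset X) (q : ℝ) (x : X) : ℝ :=
  if x ∈ Q then q ^ 119 / Real.sqrt (k x) else q ^ 244

/-- the constants of an attempt as powers of the clock -/
def mkA (Hm : Matrix X X ℝ) (e0 : ℝ) (T₀ : Cfg X) (R Rk Q : Finset X) (v : ℝ≥0) (val : X → ℝ)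
    (q g₀ gb : ℝ) : Pa X where
  Hm := Hm
  η := e0
  e0 := e0
  T₀ := T₀
  R := R
  Rk := Rk
  Q := Q
  v := v
  val := val
  δ := q ^ 198
  gb := gb
  t₁ := q ^ 2250
  dT := 2 / g₀ * q ^ 250
  l := fun x => 4 * (q⁻¹) ^ 2 / Jn (ka e0 e0 T₀) Q q x
  ε := fun x => Jn (ka e0 e0 T₀) Q q x / 4
  J := Jn (ka e0 e0 T₀) Q q
  lm := (q⁻¹) ^ 82
  εm := q ^ 80
  lM := q ^ 278
  εM := (q⁻¹) ^ 280
  N := ⌊(q⁻¹) ^ 2260⌋₊

/-- bounds the fourth power of the size of the row `b ∈ Q` -/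
def Cb (g₀ gb : ℝ) : ℝ := 1 + gb ^ 2 / g₀

/-- what is needed at the start of an attempt -/
structure In (Hm : Matrix X X ℝ) (e0 : ℝ) (T₀ : Cfg X) (R Q : Finset X) (v : ℝ≥0)
    (q g₀ g₁ gb : ℝ) : Prop where
  q0 : 0 < q
  vq : (v : ℝ) = q ^ 2000
  sym : ∀ x y, Hm x y = Hm y x
  eq : 0 < e0 ∧ e0 ≤ q ^ 2000
  pimb : ∀ x, 0 < T₀.s x → 0 < (T₀.mb x).im
  dis : Disjoint R Q
  hR : ∀ x ∈ R, T₀.s x = v ∧ g₀ ≤ (T₀.mb x).im ∧ (T₀.mb x).im ≤ g₁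
  hQ : ∀ b ∈ Q, T₀.s b ≠ 0 ∧ ka e0 e0 T₀ b ≤ 1
  cQ : (Q.card : ℝ) ≤ (q⁻¹) ^ 2
  dia : ∀ c ∈ R, ‖GT Hm e0 e0 T₀ c c - T₀.mb c‖ ≤ q ^ 198 / 2
  ent : ∀ x ∈ R, ∀ y ∈ R, ‖GT Hm e0 e0 T₀ x y‖ ≤ gb / 2
  lam : ∀ x ∈ R, ∑ y ∈ R, ‖GT Hm e0 e0 T₀ x y‖ ^ 4 ≤ (q⁻¹) ^ 1500
  lamQ : ∀ b ∈ Q, ∑ y ∈ R, ‖GT Hm e0 e0 T₀ b y‖ ^ 4 ≤
    gb ^ 2 / g₀ / ka e0 e0 T₀ b * (q⁻¹) ^ 2000

/-- powers of `q` and `1 / q` -/
lemma qr {q : ℝ} (hq : 0 < q) (m n : ℕ) : q ^ (m + n) * (q⁻¹) ^ n = q ^ m := by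
  rw [pow_add, mul_assoc, ← mul_pow, mul_inv_cancel₀ hq.ne', one_pow, mul_one]

lemma rq {q : ℝ} (hq : 0 < q) (m n : ℕ) : (q⁻¹) ^ (m + n) * q ^ n = (q⁻¹) ^ m := by
  rw [pow_add, mul_assoc, ← mul_pow, inv_mul_cancel₀ hq.ne', one_pow, mul_one]

lemma one_r {q : ℝ} (hq : 0 < q) (n : ℕ) : q ^ n * (q⁻¹) ^ n = 1 := by
  rw [← mul_pow, mul_inv_cancel₀ hq.ne', one_pow]

/-- small powers -/
lemma pow_small {q : ℝ} (hq : 0 < q) (h1 : q ≤ 1) (n : ℕ) (hn : 1 ≤ n) : q ^ n ≤ q := by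
  calc q ^ n ≤ q ^ 1 := pow_le_pow_of_le_one hq.le h1 hn
    _ = q := pow_one q

lemma small {q K c : ℝ} (hq : 0 < q) (h1 : q ≤ 1) (hK : K * q ≤ 1) (hc0 : 0 ≤ c) (hc : c ≤ K)
    (n : ℕ) (hn : 1 ≤ n) : c * q ^ n ≤ 1 := by
  calc c * q ^ n ≤ K * q := mul_le_mul hc (pow_small hq h1 n hn) (by positivity) (hc0.trans hc)
    _ ≤ 1 := hK

section

variable {Hm : Matrix X X ℝ} {e0 : ℝ} {T₀ : Cfg X} {R Rk Q : Finset X} {v : ℝ≥0} {val : X → ℝ}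
  {q g₀ g₁ gb : ℝ}

lemma ka_pos (h : In Hm e0 T₀ R Q v q g₀ g₁ gb) (x : X) : 0 < ka e0 e0 T₀ x := by
  unfold ka
  split_ifs with hs
  · exact h.eq.1
  · have h1 : 0 < T₀.s x := pos_iff_ne_zero.2 hs
    have h2 := h.pimb x h1
    have h3 := h.eq.1
    have h4 : (0 : ℝ) ≤ T₀.s x := NNReal.coe_nonneg _
    positivity

lemma Jn_pos (h : In Hm e0 T₀ R Q v q g₀ g₁ gb) (x : X) : 0 < Jn (ka e0 e0 T₀) Q q x := by
  unfold Jn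
  have h1 := h.q0
  have h2 := ka_pos h x
  split_ifs
  · have := Real.sqrt_pos.2 h2
    positivity
  · positivity

lemma Jn_R (h : In Hm e0 T₀ R Q v q g₀ g₁ gb) (x : X) (hx : x ∈ R) :
    Jn (ka e0 e0 T₀) Q q x = q ^ 244 := by
  unfold Jn
  rw [if_neg]
  exact Finset.disjoint_left.1 h.dis hx

lemma fourthR (h : In Hm e0 T₀ R Q v q g₀ g₁ gb) (h1 : q ≤ 1) (x : X) (hx : x ∈ R)
    (S : Finset X) (hS : S ⊆ R) (hc : S.card ≤ ⌊(q⁻¹) ^ 2260⌋₊) :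
    ∑ c ∈ S, ((mkA Hm e0 T₀ R Rk Q v val q g₀ gb).p x c) ^ 4 ≤ (4 * (q⁻¹) ^ 375) ^ 4 := by
  have hq := h.q0
  have hr : 0 < q⁻¹ := inv_pos.2 hq
  have hr1 : 1 ≤ q⁻¹ := (one_le_inv₀ hq).2 h1
  refine sum_four S (fun c => ‖GT Hm e0 e0 T₀ x c‖) (Jn (ka e0 e0 T₀) Q q x) ((q⁻¹) ^ 375)
    ((q⁻¹) ^ 565) _ (fun c _ => norm_nonneg _) (Jn_pos h x).le ?_ ?_ (by positivity)
    (by positivity) ?_
  · rw [← pow_mul]
    refine le_trans ?_ (h.lam x hx)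
    exact Finset.sum_le_sum_of_subset_of_nonneg hS fun c _ _ => by positivity
  · rw [← pow_mul]
    refine le_trans ?_ (Nat.floor_le (by positivity))
    exact_mod_cast hc
  · rw [Jn_R h x hx]
    have h2 : (q⁻¹) ^ 565 * q ^ 244 = (q⁻¹) ^ 321 := rq hq 321 244
    rw [h2]
    have h3 : (q⁻¹) ^ 321 ≤ (q⁻¹) ^ 375 := pow_le_pow_right₀ hr1 (by norm_num)
    linarith only [h3]

/-- the rows `b ∈ Q` (Ward) -/
lemma fourthQ (h : In Hm e0 T₀ R Q v q g₀ g₁ gb) (hg₀ : 0 < g₀) (x : X) (hx : x ∈ Q)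
    (S : Finset X) (hS : S ⊆ R) (hc : S.card ≤ ⌊(q⁻¹) ^ 2260⌋₊) :
    ∑ c ∈ S, ((mkA Hm e0 T₀ R Rk Q v val q g₀ gb).p x c) ^ 4 ≤
      (2 * (Cb g₀ gb * (q⁻¹) ^ 500 / Real.sqrt (Real.sqrt (ka e0 e0 T₀ x)) +
        (q⁻¹) ^ 565 * Jn (ka e0 e0 T₀) Q q x)) ^ 4 := by
  have hq := h.q0
  have hr : 0 < q⁻¹ := inv_pos.2 hq
  have hk := ka_pos h x
  have hk1 := Real.sqrt_pos.2 hk
  have hk2 := Real.sqrt_pos.2 hk1
  have hC : 0 ≤ gb ^ 2 / g₀ := by positivity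
  have hC1 : 1 ≤ Cb g₀ gb := by unfold Cb; linarith only [hC]
  refine sum_four S (fun c => ‖GT Hm e0 e0 T₀ x c‖) (Jn (ka e0 e0 T₀) Q q x)
    (Cb g₀ gb * (q⁻¹) ^ 500 / Real.sqrt (Real.sqrt (ka e0 e0 T₀ x)))
    ((q⁻¹) ^ 565) _ (fun c _ => norm_nonneg _) (Jn_pos h x).le ?_ ?_ (by positivity)
    (by positivity) le_rfl
  · have e1 : (Real.sqrt (Real.sqrt (ka e0 e0 T₀ x))) ^ 4 = ka e0 e0 T₀ x := by
      rw [show (4 : ℕ) = 2 * 2 from rfl, pow_mul, Real.sq_sqrt hk1.le, Real.sq_sqrt hk.le]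
    rw [div_pow, mul_pow, e1, ← pow_mul]
    refine le_trans (Finset.sum_le_sum_of_subset_of_nonneg hS fun c _ _ => by positivity)
      ((h.lamQ x hx).trans ?_)
    have h2 : gb ^ 2 / g₀ ≤ Cb g₀ gb ^ 4 := by
      calc gb ^ 2 / g₀ ≤ Cb g₀ gb := by unfold Cb; linarith only
        _ ≤ Cb g₀ gb ^ 4 := le_self_pow₀ hC1 (by norm_num)
    calc gb ^ 2 / g₀ / ka e0 e0 T₀ x * (q⁻¹) ^ 2000
        ≤ Cb g₀ gb ^ 4 / ka e0 e0 T₀ x * (q⁻¹) ^ 2000 := by gcongr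
      _ = _ := by ring
  · rw [← pow_mul]
    refine le_trans ?_ (Nat.floor_le (by positivity))
    exact_mod_cast hc

/-- the size of a row in the costs -/
lemma rows (h : In Hm e0 T₀ R Q v q g₀ g₁ gb) (h1 : q ≤ 1) (hg₀ : 0 < g₀) (x : X)
    (hx : x ∈ R ∪ Q) (S : Finset X) (hS : S ⊆ R) (hc : S.card ≤ ⌊(q⁻¹) ^ 2260⌋₊) :
    ∃ a : ℝ, 0 ≤ a ∧ ∑ c ∈ S, ((mkA Hm e0 T₀ R Rk Q v val q g₀ gb).p x c) ^ 4 ≤ a ^ 4 ∧
      (mkA Hm e0 T₀ R Rk Q v val q g₀ gb).l x * a * (4 * (q⁻¹) ^ 375) ≤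
        64 * Cb g₀ gb * (q⁻¹) ^ 996 := by
  have hq := h.q0
  have hr : 0 < q⁻¹ := inv_pos.2 hq
  have hr1 : 1 ≤ q⁻¹ := (one_le_inv₀ hq).2 h1
  have hC1 : 1 ≤ Cb g₀ gb := by
    have : 0 ≤ gb ^ 2 / g₀ := by positivity
    unfold Cb; linarith only [this]
  by_cases hxQ : x ∈ Q
  · have hk := ka_pos h x
    have hk1 := Real.sqrt_pos.2 hk
    have hk2 := Real.sqrt_pos.2 hk1
    refine ⟨_, ?_, fourthQ h hg₀ x hxQ S hS hc, ?_⟩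
    · have := Jn_pos h x
      positivity
    · show 4 * (q⁻¹) ^ 2 / Jn (ka e0 e0 T₀) Q q x * _ * _ ≤ _
      unfold Jn
      rw [if_pos hxQ]
      set c := Real.sqrt (Real.sqrt (ka e0 e0 T₀ x)) with hcd
      have hcc : Real.sqrt (ka e0 e0 T₀ x) = c ^ 2 := (Real.sq_sqrt hk1.le).symm
      have hc1 : c ≤ 1 := by
        have h2 : Real.sqrt (ka e0 e0 T₀ x) ≤ 1 := by
          rw [← Real.sqrt_one]
          exact Real.sqrt_le_sqrt (h.hQ x hxQ).2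
        rw [hcd, ← Real.sqrt_one]
        exact Real.sqrt_le_sqrt h2
      rw [hcc]
      have e2 : 4 * (q⁻¹) ^ 2 / (q ^ 119 / c ^ 2) *
          (2 * (Cb g₀ gb * (q⁻¹) ^ 500 / c + (q⁻¹) ^ 565 * (q ^ 119 / c ^ 2))) *
          (4 * (q⁻¹) ^ 375) = 32 * (Cb g₀ gb * c * ((q⁻¹) ^ 877 / q ^ 119) +
            (q⁻¹) ^ 942) := by
        field_simp
        ring
      have e3 : (q⁻¹) ^ 877 / q ^ 119 = (q⁻¹) ^ 996 := by
        rw [div_eq_mul_inv, ← inv_pow, ← pow_add]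
      rw [e2, e3]
      have h3 : (q⁻¹) ^ 942 ≤ (q⁻¹) ^ 996 := pow_le_pow_right₀ hr1 (by norm_num)
      have h4 : Cb g₀ gb * c * (q⁻¹) ^ 996 ≤ Cb g₀ gb * 1 * (q⁻¹) ^ 996 := by gcongr
      have h5 : 1 * (q⁻¹) ^ 996 ≤ Cb g₀ gb * (q⁻¹) ^ 996 := by gcongr
      nlinarith only [h3, h4, h5]
  · have hxR : x ∈ R := by
      rcases Finset.mem_union.1 hx with h1 | h1
      · exact h1
      · exact absurd h1 hxQ
    refine ⟨4 * (q⁻¹) ^ 375, by positivity, fourthR h h1 x hxR S hS hc, ?_⟩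
    show 4 * (q⁻¹) ^ 2 / Jn (ka e0 e0 T₀) Q q x * _ * _ ≤ _
    rw [Jn_R h x hxR]
    have e2 : 4 * (q⁻¹) ^ 2 / q ^ 244 * (4 * (q⁻¹) ^ 375) * (4 * (q⁻¹) ^ 375) =
        64 * (q⁻¹) ^ 996 := by
      rw [div_eq_mul_inv, ← inv_pow]
      ring
    rw [e2]
    have h5 : 1 * (q⁻¹) ^ 996 ≤ Cb g₀ gb * (q⁻¹) ^ 996 := by gcongr
    nlinarith only [h5]

/-- the kills: entries -/
lemma bu1 (h : In Hm e0 T₀ R Q v q g₀ g₁ gb) (K : ℝ) (hK : K * q ≤ 1) (hK1 : 2000 ≤ K)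
    (hg₀ : 0 < g₀) (hK4 : (64 * Cb g₀ gb) ^ 2 ≤ K) (x : X)
    (hx : x ∈ R ∪ Q) (y : X) (hy : y ∈ R) (S : Finset X) (hS : S ⊆ R)
    (hc : S.card ≤ ⌊(q⁻¹) ^ 2260⌋₊) :
    v * ∑ c ∈ S, cs ((mkA Hm e0 T₀ R Rk Q v val q g₀ gb).l x) (q ^ 198)
      ((mkA Hm e0 T₀ R Rk Q v val q g₀ gb).p x c)
      ((mkA Hm e0 T₀ R Rk Q v val q g₀ gb).p y c) ≤ 1 := by
  have hq := h.q0
  have hq1 : q ≤ 1 := by nlinarith only [hK, hK1, hq]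
  have hr : 0 < q⁻¹ := inv_pos.2 hq
  have hr1 : 1 ≤ q⁻¹ := (one_le_inv₀ hq).2 hq1
  have hC1 : 1 ≤ Cb g₀ gb := by
    have : 0 ≤ gb ^ 2 / g₀ := by positivity
    unfold Cb; linarith only [this]
  have hl : 0 ≤ (mkA Hm e0 T₀ R Rk Q v val q g₀ gb).l x := by
    show 0 ≤ 4 * (q⁻¹) ^ 2 / Jn (ka e0 e0 T₀) Q q x
    have := Jn_pos h x
    positivity
  obtain ⟨a, ha, h2, h3⟩ := rows (Rk := Rk) (val := val) h hq1 hg₀ x hx S hS hc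
  have hz0 : 0 ≤ (mkA Hm e0 T₀ R Rk Q v val q g₀ gb).l x * a * (4 * (q⁻¹) ^ 375) := by
    positivity
  rw [h.vq]
  refine cost_pair S _ _ (q ^ 2000) _ (q ^ 198) ((q⁻¹) ^ 1130)
    a (4 * (q⁻¹) ^ 375) (by positivity) hl
    (by positivity) (by positivity) ha (by positivity) ?_
    h2 (fourthR h hq1 y hy S hS hc) ?_ ?_
  · rw [← pow_mul]
    refine le_trans ?_ (Nat.floor_le (by positivity))
    exact_mod_cast hc
  · calc q ^ 2000 * (q ^ 198 * (q⁻¹) ^ 1130 *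
        ((mkA Hm e0 T₀ R Rk Q v val q g₀ gb).l x * a * (4 * (q⁻¹) ^ 375)))
        ≤ q ^ 2000 * (q ^ 198 * (q⁻¹) ^ 1130 * (64 * Cb g₀ gb * (q⁻¹) ^ 996)) := by gcongr
      _ = 64 * Cb g₀ gb * (q ^ (72 + 2126) * (q⁻¹) ^ 2126) := by ring
      _ = 64 * Cb g₀ gb * q ^ 72 := by rw [qr hq]
      _ ≤ 1 / 2 := by
          have h5 := small hq hq1 hK (c := (64 * Cb g₀ gb) ^ 2) (by positivity) hK4 72
            (by norm_num)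
          have h6 : 0 ≤ q ^ 72 := by positivity
          have h7 : 2 * (64 * Cb g₀ gb) ≤ (64 * Cb g₀ gb) ^ 2 := by nlinarith only [hK, hK1, hq, hC1]
          nlinarith only [mul_le_mul_of_nonneg_right h7 h6, h5]
  · calc q ^ 2000 * ((mkA Hm e0 T₀ R Rk Q v val q g₀ gb).l x * a * (4 * (q⁻¹) ^ 375)) ^ 2
        ≤ q ^ 2000 * (64 * Cb g₀ gb * (q⁻¹) ^ 996) ^ 2 := by gcongr
      _ = (64 * Cb g₀ gb) ^ 2 * (q ^ (8 + 1992) * (q⁻¹) ^ 1992) := by ring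
      _ = (64 * Cb g₀ gb) ^ 2 * q ^ 8 := by rw [qr hq]
      _ ≤ 1 := small hq hq1 hK (by positivity) hK4 8 (by norm_num)

/-- the kills: rows -/
lemma bu2 (h : In Hm e0 T₀ R Q v q g₀ g₁ gb) (K : ℝ) (hK : K * q ≤ 1) (hK1 : 2000 ≤ K)
    (hgb : 2 ≤ gb) (hK3 : 100 * gb ^ 2 ≤ K) (x : X) (hx : x ∈ R) (S : Finset X) (hS : S ⊆ R)
    (hc : S.card ≤ ⌊(q⁻¹) ^ 2260⌋₊) :
    v * ∑ c ∈ S, cm ((q⁻¹) ^ 82) (q ^ 80) (q ^ 198) gb
      ((mkA Hm e0 T₀ R Rk Q v val q g₀ gb).p x c) ≤ 1 := by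
  have hq := h.q0
  have hq1 : q ≤ 1 := by nlinarith only [hK, hK1, hq]
  have hr : 0 < q⁻¹ := inv_pos.2 hq
  have hr1 : 1 ≤ q⁻¹ := (one_le_inv₀ hq).2 hq1
  have hgb0 : 0 ≤ gb := by linarith only [hgb]
  have hsq : Real.sqrt (q ^ 80 * gb) ≤ q ^ 40 * gb := by
    rw [Real.sqrt_le_left (by positivity)]
    calc q ^ 80 * gb ≤ q ^ 80 * gb ^ 2 := by gcongr; nlinarith only [hK, hK1, hgb, hq]
      _ = _ := by ring
  have hb : gb ≤ gb ^ 2 := by nlinarith only [hK, hK1, hgb, hq]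
  rw [h.vq]
  refine cost_row S _ (q ^ 2000) ((q⁻¹) ^ 82) (q ^ 80) (q ^ 198) gb ((q⁻¹) ^ 565)
    (4 * (q⁻¹) ^ 375) (by positivity) (by positivity) (by positivity) (by positivity) hgb0
    (by positivity) (by positivity) ?_ (fourthR h hq1 x hx S hS hc) ?_ ?_ ?_
  · rw [← pow_mul]
    refine le_trans ?_ (Nat.floor_le (by positivity))
    exact_mod_cast hc
  · calc q ^ 2000 * ((q⁻¹) ^ 82 * (2 * q ^ 198 * Real.sqrt (q ^ 80 * gb)) *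
          (((q⁻¹) ^ 565) ^ 3 * (4 * (q⁻¹) ^ 375)))
        ≤ q ^ 2000 * ((q⁻¹) ^ 82 * (2 * q ^ 198 * (q ^ 40 * gb)) *
          (((q⁻¹) ^ 565) ^ 3 * (4 * (q⁻¹) ^ 375))) := by gcongr
      _ = 8 * gb * (q ^ (86 + 2152) * (q⁻¹) ^ 2152) := by ring
      _ = 8 * gb * q ^ 86 := by rw [qr hq]
      _ ≤ 1 / 3 := by
          have := small hq hq1 hK (c := 100 * gb ^ 2) (by positivity) hK3 86 (by norm_num)
          have h2 : 0 ≤ q ^ 86 := by positivity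
          nlinarith only [mul_le_mul_of_nonneg_right hb h2, this]
  · calc q ^ 2000 * ((q⁻¹) ^ 82 * gb * ((q⁻¹) ^ 565 * (4 * (q⁻¹) ^ 375)) ^ 2)
        = 16 * gb * (q ^ (38 + 1962) * (q⁻¹) ^ 1962) := by ring
      _ = 16 * gb * q ^ 38 := by rw [qr hq]
      _ ≤ 1 / 3 := by
          have := small hq hq1 hK (c := 100 * gb ^ 2) (by positivity) hK3 38 (by norm_num)
          have h2 : 0 ≤ q ^ 38 := by positivity
          nlinarith only [mul_le_mul_of_nonneg_right hb h2, this]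
  · calc q ^ 2000 * (2 * ((q⁻¹) ^ 82) ^ 2 * (q ^ 80 * gb) *
          ((q⁻¹) ^ 565 * (4 * (q⁻¹) ^ 375)) ^ 2)
        = 32 * gb * (q ^ (36 + 2044) * (q⁻¹) ^ 2044) := by ring
      _ = 32 * gb * q ^ 36 := by rw [qr hq]
      _ ≤ 1 / 3 := by
          have := small hq hq1 hK (c := 100 * gb ^ 2) (by positivity) hK3 36 (by norm_num)
          have h2 : 0 ≤ q ^ 36 := by positivity
          have h3 : 2 * gb ≤ gb ^ 2 := by nlinarith only [hgb]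
          nlinarith only [mul_le_mul_of_nonneg_right h3 h2, this]

/-- the kills: the mass -/
lemma bu3 (h : In Hm e0 T₀ R Q v q g₀ g₁ gb) (K : ℝ) (hK : K * q ≤ 1) (hK1 : 2000 ≤ K)
    (hgb : 2 ≤ gb) (hK3 : 100 * gb ^ 2 ≤ K) :
    v * ((⌊(q⁻¹) ^ 2260⌋₊ : ℝ) * cM (q ^ 278) ((q⁻¹) ^ 280) (q ^ 198) gb) ≤ 1 := by
  have hq := h.q0
  have hq1 : q ≤ 1 := by nlinarith only [hK, hK1, hq]
  have hr : 0 < q⁻¹ := inv_pos.2 hq
  have hr1 : 1 ≤ q⁻¹ := (one_le_inv₀ hq).2 hq1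
  have hgb0 : 0 ≤ gb := by linarith
  have hs : Real.sqrt ((q⁻¹) ^ 280) = (q⁻¹) ^ 140 := by
    rw [show (q⁻¹) ^ 280 = ((q⁻¹) ^ 140) ^ 2 by rw [← pow_mul], Real.sqrt_sq (by positivity)]
  have hb : gb ≤ gb ^ 2 := by nlinarith only [hK, hK1, hgb, hq]
  have h1 : cM (q ^ 278) ((q⁻¹) ^ 280) (q ^ 198) gb ≤ 5 * gb ^ 2 * q ^ 276 := by
    unfold cM
    rw [hs]
    have e1 : q ^ 278 * (2 * q ^ 198 * gb * (q⁻¹) ^ 140 + gb ^ 2) +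
        2 * (q ^ 278) ^ 2 * (gb ^ 2 * (q⁻¹) ^ 280) =
        2 * gb * (q ^ (336 + 140) * (q⁻¹) ^ 140) + gb ^ 2 * q ^ 278 +
        2 * gb ^ 2 * (q ^ (276 + 280) * (q⁻¹) ^ 280) := by ring
    rw [e1, qr hq, qr hq]
    have h2 : q ^ 336 ≤ q ^ 276 := pow_le_pow_of_le_one hq.le hq1 (by norm_num)
    have h3 : q ^ 278 ≤ q ^ 276 := pow_le_pow_of_le_one hq.le hq1 (by norm_num)
    have h4 : 0 ≤ q ^ 276 := by positivity
    have h5 := mul_le_mul_of_nonneg_left h2 hgb0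
    have h6 := mul_le_mul_of_nonneg_left h3 (sq_nonneg gb)
    have h7 := mul_le_mul_of_nonneg_right hb h4
    nlinarith only [h5, h6, h7]
  have h2 : (⌊(q⁻¹) ^ 2260⌋₊ : ℝ) ≤ (q⁻¹) ^ 2260 := Nat.floor_le (by positivity)
  have h0 : 0 ≤ cM (q ^ 278) ((q⁻¹) ^ 280) (q ^ 198) gb := by
    unfold cM
    positivity
  rw [h.vq]
  calc q ^ 2000 * ((⌊(q⁻¹) ^ 2260⌋₊ : ℝ) * cM (q ^ 278) ((q⁻¹) ^ 280) (q ^ 198) gb)
      ≤ q ^ 2000 * ((q⁻¹) ^ 2260 * (5 * gb ^ 2 * q ^ 276)) := by gcongr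
    _ = 5 * gb ^ 2 * (q ^ (16 + 2260) * (q⁻¹) ^ 2260) := by ring
    _ = 5 * gb ^ 2 * q ^ 16 := by rw [qr hq]
    _ ≤ 1 := by
        have := small hq hq1 hK (c := 100 * gb ^ 2) (by positivity) hK3 16 (by norm_num)
        have h2 : 0 ≤ gb ^ 2 * q ^ 16 := by positivity
        nlinarith only [this]

/-- THE HYPOTHESES OF AN ATTEMPT -/
theorem hyp (h : In Hm e0 T₀ R Q v q g₀ g₁ gb) (K : ℝ) (hK : K * q ≤ 1) (hg₀ : 0 < g₀)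
    (hgb : 2 ≤ gb) (hK1 : 2000 ≤ K) (hK2 : 100 / g₀ ≤ K)
    (hK3 : 100 * gb ^ 2 ≤ K) (hK4 : (64 * Cb g₀ gb) ^ 2 ≤ K) (hRk : Rk ⊆ R)
    (hfar : ∀ (T : Cfg X) (Qr : Finset X) (Go : Matrix X X ℂ),
      (mkA Hm e0 T₀ R Rk Q v val q g₀ gb).St T Qr Go → ∀ b ∈ Qr,
      ∀ x ∈ (mkA Hm e0 T₀ R Rk Q v val q g₀ gb).al T, x ∉ Rk →
        (mkA Hm e0 T₀ R Rk Q v val q g₀ gb).a T b x < q ^ 2250)
    (hfar₀ : ∀ b ∈ Q, ∀ x ∈ R, x ∉ Rk →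
      ka e0 e0 T₀ b * ‖GT Hm e0 e0 T₀ b x‖ ^ 2 ≤ q ^ 200) :
    (mkA Hm e0 T₀ R Rk Q v val q g₀ gb).Hyp ((g₁ + 1) * q ^ 2000) g₀ ((q⁻¹) ^ 1500)
      (64 * (q⁻¹) ^ 1500) (q ^ 200) (gb ^ 2) := by
  have hq := h.q0
  have hq1 : q ≤ 1 := by nlinarith only [hK, hK1, hq]
  have hq2 : q ≤ 1 / 2000 := by
    rw [le_div_iff₀ (by norm_num)]; nlinarith only [hK, hK1, hq]
  have hr : 0 < q⁻¹ := inv_pos.2 hq
  have hr1 : 1 ≤ q⁻¹ := (one_le_inv₀ hq).2 hq1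
  have hv : 0 < v := by
    rw [← NNReal.coe_pos, h.vq]; positivity
  have hJ := fun x => Jn_pos h x
  have hgb0 : 0 ≤ gb := by linarith only [hgb, hq, hq2]
  have hdT : 2 / g₀ * q ^ 250 ≤ (q ^ 121 / 4) ^ 2 := by
    have h1 := small hq hq1 hK (c := 100 / g₀) (by positivity) hK2 8 (by norm_num)
    calc 2 / g₀ * q ^ 250 = (100 / g₀ * q ^ 8) * (q ^ 242 / 50) := by ring
      _ ≤ 1 * (q ^ 242 / 50) := by gcongr
      _ ≤ _ := by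
          have : 0 ≤ q ^ 242 := by positivity
          have e : (q ^ 121 / 4) ^ 2 = q ^ 242 / 16 := by ring
          rw [e]; linarith only [this]
  have hsd : Real.sqrt (2 / g₀ * q ^ 250) ≤ q ^ 121 / 4 := by
    rw [Real.sqrt_le_left (by positivity)]
    exact hdT
  have hJR : ∀ x ∈ R, Jn (ka e0 e0 T₀) Q q x = q ^ 244 := fun x hx => Jn_R h x hx
  have hJs : q ^ 244 ≤ q := pow_small hq hq1 244 (by norm_num)
  refine ⟨h.sym, ⟨h.eq.1, le_rfl, hv, hg₀, ?_, ?_, ?_, hgb0, ?_, ?_, ?_, ?_, ?_⟩, h.pimb, h.dis,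
    hRk, hfar, hfar₀, ?_, fun b hb => (h.hQ b hb).1, ?_, ?_, ?_, ?_, ?_, ?_, ?_, ?_, ?_, ?_⟩
  · show 0 < q ^ 2250
    positivity
  · show 0 ≤ 2 / g₀ * q ^ 250
    positivity
  · show 0 ≤ q ^ 198
    positivity
  · show 0 < (q⁻¹) ^ 82
    positivity
  · show 0 < q ^ 80
    positivity
  · positivity
  · show 0 < q ^ 278
    positivity
  · show 0 < (q⁻¹) ^ 280
    positivity
  · intro x hx
    obtain ⟨h1, h2, h3⟩ := h.hR x hx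
    refine ⟨h1, h2, ?_⟩
    show ka e0 e0 T₀ x ≤ _
    unfold ka
    rw [if_neg (by rw [h1]; exact hv.ne'), h1, h.vq]
    have := h.eq.2
    have h4 : 0 ≤ q ^ 2000 := by positivity
    nlinarith only [mul_le_mul_of_nonneg_left h3 h4, this]
  · intro x _
    refine ⟨?_, ?_, ?_⟩
    · show 0 < 4 * (q⁻¹) ^ 2 / Jn (ka e0 e0 T₀) Q q x
      have := hJ x
      positivity
    · show 0 ≤ Jn (ka e0 e0 T₀) Q q x / 4
      have := hJ x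
      positivity
    · exact (hJ x).le
  · intro c hc
    have h1 := h.dia c hc
    have h2 := h.ent c hc c hc
    have hmg : mg e0 e0 v T₀ c = T₀.mb c := by
      unfold mg
      simp
    show ‖GT Hm e0 e0 T₀ c c - mg e0 e0 v T₀ c‖ + Jn (ka e0 e0 T₀) Q q c ≤ q ^ 198 ∧
      ‖GT Hm e0 e0 T₀ c c‖ + Jn (ka e0 e0 T₀) Q q c ≤ gb
    rw [hmg, hJR c hc]
    constructor
    · have h3 : q ^ 244 = q ^ 46 * q ^ 198 := by ring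
      have h4 : q ^ 46 ≤ q := pow_small hq hq1 46 (by norm_num)
      have h5 : 0 ≤ q ^ 198 := by positivity
      have h6 : q ^ 46 * q ^ 198 ≤ 1 / 2 * q ^ 198 := by
        apply mul_le_mul_of_nonneg_right _ h5
        linarith only [hq, hq2, h4]
      rw [h3]
      linarith only [h1, h6]
    · linarith only [hgb, hq, hq2, hJs, h2]
  · intro x hx
    show (Q.card : ℝ) * (2 * Real.sqrt (2 / g₀ * q ^ 250 *
      if x ∈ Q then (ka e0 e0 T₀ x)⁻¹ else 2 / g₀ * q ^ 250)) +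
      2 * (Jn (ka e0 e0 T₀) Q q x / 4) ≤ Jn (ka e0 e0 T₀) Q q x
    have hcQ := h.cQ
    have hmain : (Q.card : ℝ) * (2 * Real.sqrt (2 / g₀ * q ^ 250 *
        if x ∈ Q then (ka e0 e0 T₀ x)⁻¹ else 2 / g₀ * q ^ 250)) ≤
        Jn (ka e0 e0 T₀) Q q x / 2 := by
      by_cases hxQ : x ∈ Q
      · have hk := ka_pos h x
        have hk' := Real.sqrt_pos.2 hk
        rw [if_pos hxQ, Real.sqrt_mul (by positivity), Real.sqrt_inv]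
        unfold Jn
        rw [if_pos hxQ]
        calc (Q.card : ℝ) * (2 * (Real.sqrt (2 / g₀ * q ^ 250) *
              (Real.sqrt (ka e0 e0 T₀ x))⁻¹))
            ≤ (q⁻¹) ^ 2 * (2 * (q ^ 121 / 4 * (Real.sqrt (ka e0 e0 T₀ x))⁻¹)) := by gcongr
          _ = (q ^ (119 + 2) * (q⁻¹) ^ 2) * (Real.sqrt (ka e0 e0 T₀ x))⁻¹ / 2 := by ring
          _ = q ^ 119 / Real.sqrt (ka e0 e0 T₀ x) / 2 := by
              rw [qr hq]; ring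
      · have hxR : x ∈ R := by
          rcases Finset.mem_union.1 hx with h1 | h1
          · exact h1
          · exact absurd h1 hxQ
        rw [if_neg hxQ, hJR x hxR, Real.sqrt_mul_self (by positivity)]
        have h1 := small hq hq1 hK (c := 100 / g₀) (by positivity) hK2 4 (by norm_num)
        have h2 : 2 / g₀ * q ^ 250 ≤ q ^ 246 / 4 := by
          calc 2 / g₀ * q ^ 250 = (100 / g₀ * q ^ 4) * (q ^ 246 / 50) := by ring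
            _ ≤ 1 * (q ^ 246 / 50) := by gcongr
            _ ≤ _ := by
                have : 0 ≤ q ^ 246 := by positivity
                linarith only [this]
        calc (Q.card : ℝ) * (2 * (2 / g₀ * q ^ 250)) ≤ (q⁻¹) ^ 2 * (2 * (q ^ 246 / 4)) := by
              gcongr
          _ = (q ^ (244 + 2) * (q⁻¹) ^ 2) / 2 := by ring
          _ = q ^ 244 / 2 := by rw [qr hq]
    linarith only [hmain]
  · show 2 * q ^ 2250 ≤ 2 / g₀ * q ^ 250 * (v * g₀)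
    rw [h.vq]
    apply le_of_eq
    field_simp
  · intro S hS hc
    exact ⟨fun x hx y hy => bu1 h K hK hK1 hg₀ hK4 x hx y hy S hS hc,
      fun x hx => bu2 h K hK hK1 hgb hK3 x hx S hS hc⟩
  · exact bu3 h K hK hK1 hgb hK3
  · exact h.lam
  · intro x hx
    show 16 * (q⁻¹) ^ 1500 + 8 * ((⌊(q⁻¹) ^ 2260⌋₊ : ℝ) * Jn (ka e0 e0 T₀) Q q x ^ 4) +
      8 * (Jn (ka e0 e0 T₀) Q q x ^ 2 * (Real.sqrt (q ^ 80) + Q.card *
        (2 * Real.sqrt (2 / g₀ * q ^ 250))) ^ 2 / (v * g₀)) ≤ 64 * (q⁻¹) ^ 1500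
    rw [hJR x hx, h.vq]
    have hs : Real.sqrt (q ^ 80) = q ^ 40 := by
      rw [show q ^ 80 = (q ^ 40) ^ 2 by rw [← pow_mul], Real.sqrt_sq (by positivity)]
    have h1 : (⌊(q⁻¹) ^ 2260⌋₊ : ℝ) ≤ (q⁻¹) ^ 2260 := Nat.floor_le (by positivity)
    have h2 : (⌊(q⁻¹) ^ 2260⌋₊ : ℝ) * (q ^ 244) ^ 4 ≤ (q⁻¹) ^ 1500 := by
      calc (⌊(q⁻¹) ^ 2260⌋₊ : ℝ) * (q ^ 244) ^ 4 ≤ (q⁻¹) ^ 2260 * (q ^ 244) ^ 4 := by gcongr
        _ = (q⁻¹) ^ (1284 + 976) * q ^ 976 := by ring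
        _ = (q⁻¹) ^ 1284 := rq hq _ _
        _ ≤ (q⁻¹) ^ 1500 := pow_le_pow_right₀ hr1 (by norm_num)
    have h3 : Real.sqrt (q ^ 80) + Q.card * (2 * Real.sqrt (2 / g₀ * q ^ 250)) ≤
        2 * q ^ 40 := by
      rw [hs]
      have h4 : (Q.card : ℝ) * (2 * Real.sqrt (2 / g₀ * q ^ 250)) ≤ q ^ 40 := by
        calc (Q.card : ℝ) * (2 * Real.sqrt (2 / g₀ * q ^ 250))
            ≤ (q⁻¹) ^ 2 * (2 * (q ^ 121 / 4)) := by
              have := h.cQ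
              gcongr
          _ = (q ^ (119 + 2) * (q⁻¹) ^ 2) / 2 := by ring
          _ = q ^ 119 / 2 := by rw [qr hq]
          _ ≤ q ^ 40 := by
              have h5 : q ^ 119 ≤ q ^ 40 := pow_le_pow_of_le_one hq.le hq1 (by norm_num)
              have h6 : 0 ≤ q ^ 119 := by positivity
              linarith only [h5, h6]
      linarith only [h4]
    have h4 : (q ^ 244) ^ 2 * (Real.sqrt (q ^ 80) + Q.card *
        (2 * Real.sqrt (2 / g₀ * q ^ 250))) ^ 2 / (q ^ 2000 * g₀) ≤ (q⁻¹) ^ 1500 := by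
      have h5 : 0 ≤ Real.sqrt (q ^ 80) + Q.card * (2 * Real.sqrt (2 / g₀ * q ^ 250)) := by
        positivity
      have h6 := small hq hq1 hK (c := 100 / g₀) (by positivity) hK2 68 (by norm_num)
      calc (q ^ 244) ^ 2 * (Real.sqrt (q ^ 80) + Q.card *
          (2 * Real.sqrt (2 / g₀ * q ^ 250))) ^ 2 / (q ^ 2000 * g₀)
          ≤ (q ^ 244) ^ 2 * (2 * q ^ 40) ^ 2 / (q ^ 2000 * g₀) := by gcongr
        _ = 4 / g₀ * (q ^ 568 * (q⁻¹) ^ 2000) := by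
            rw [inv_pow]
            field_simp
            ring
        _ = 4 / g₀ * ((q⁻¹) ^ (1432 + 568) * q ^ 568) := by ring
        _ = 4 / g₀ * (q⁻¹) ^ 1432 := by rw [rq hq]
        _ = (100 / g₀ * q ^ 68) / 25 * (q⁻¹) ^ 1500 := by
            have : (q⁻¹) ^ 1432 = (q⁻¹) ^ (1432 + 68) * q ^ 68 := (rq hq _ _).symm
            rw [this]
            ring
        _ ≤ 1 / 25 * (q⁻¹) ^ 1500 := by gcongr
        _ ≤ (q⁻¹) ^ 1500 := by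
            have : 0 ≤ (q⁻¹) ^ 1500 := by positivity
            linarith only [this]
    have h5 : 0 ≤ (q⁻¹) ^ 1500 := by positivity
    linarith only [h2, h4, h5]
  · intro x hx y hy
    show (‖GT Hm e0 e0 T₀ x y‖ + Jn (ka e0 e0 T₀) Q q x) ^ 2 ≤ gb ^ 2
    rw [hJR x hx]
    have := h.ent x hx y hy
    have h2 : 0 ≤ ‖GT Hm e0 e0 T₀ x y‖ := norm_nonneg _
    gcongr
    linarith only [hgb, hq, hq2, hJs, this]
  · intro b hb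
    show (Real.sqrt (q ^ 200) + Real.sqrt (ka e0 e0 T₀ b) * Jn (ka e0 e0 T₀) Q q b) ^ 2 ≤ q ^ 198
    have hk := Real.sqrt_pos.2 (ka_pos h b)
    have h1 : Real.sqrt (ka e0 e0 T₀ b) * Jn (ka e0 e0 T₀) Q q b = q ^ 119 := by
      unfold Jn
      rw [if_pos (show b ∈ Q from hb)]
      field_simp
    have hs : Real.sqrt (q ^ 200) = q ^ 100 := by
      rw [show q ^ 200 = (q ^ 100) ^ 2 by rw [← pow_mul], Real.sqrt_sq (by positivity)]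
    rw [h1, hs]
    have h2 : q ^ 119 ≤ q ^ 100 := pow_le_pow_of_le_one hq.le hq1 (by norm_num)
    calc (q ^ 100 + q ^ 119) ^ 2 ≤ (q ^ 100 + q ^ 100) ^ 2 := by gcongr
      _ = (4 * q ^ 2) * q ^ 198 := by ring
      _ ≤ 1 * q ^ 198 := by
          gcongr
          nlinarith only [hK, hK1, hq, hq2]
      _ = q ^ 198 := one_mul _

end

end Pool.Agent.ATT.H76
end
end -- Pool.Agent.Helper76_ATT.NumB

section -- Pool.Agent.Helper76_ATT.NumC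

/-!
# Helper76, tank ATT: the numbers, part 3: the rows of the cluster, the first kills, the start
-/

set_option autoImplicit false

open scoped BigOperators NNReal

noncomputable section

namespace Pool.Agent.ATT.H76

open Pool.Agent.ANP (Cfg)

variable {X : Type} [Fintype X] [DecidableEq X]

/-- what is needed at the start of an attempt, without the rows of the cluster -/
structure In0 (Hm : Matrix X X ℝ) (e0 : ℝ) (T₀ : Cfg X) (R Q : Finset X) (v : ℝ≥0)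
    (q g₀ g₁ gb : ℝ) : Prop where
  q0 : 0 < q
  vq : (v : ℝ) = q ^ 2000
  sym : ∀ x y, Hm x y = Hm y x
  eq : 0 < e0 ∧ e0 ≤ q ^ 2000
  pimb : ∀ x, 0 < T₀.s x → 0 < (T₀.mb x).im
  dis : Disjoint R Q
  hR : ∀ x ∈ R, T₀.s x = v ∧ g₀ ≤ (T₀.mb x).im ∧ (T₀.mb x).im ≤ g₁
  hQ : ∀ b ∈ Q, T₀.s b ≠ 0 ∧ ka e0 e0 T₀ b ≤ 1 ∧ ‖GT Hm e0 e0 T₀ b b‖ ≤ gb
  cQ : (Q.card : ℝ) ≤ (q⁻¹) ^ 2
  dia : ∀ c ∈ R, ‖GT Hm e0 e0 T₀ c c - T₀.mb c‖ ≤ q ^ 198 / 2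
  ent : ∀ x ∈ R, ∀ y ∈ R, ‖GT Hm e0 e0 T₀ x y‖ ≤ gb / 2
  lam : ∀ x ∈ R, ∑ y ∈ R, ‖GT Hm e0 e0 T₀ x y‖ ^ 4 ≤ (q⁻¹) ^ 1500

section

variable {Hm : Matrix X X ℝ} {e0 : ℝ} {T₀ : Cfg X} {R Rk Q : Finset X} {v : ℝ≥0} {val : X → ℝ}
  {q g₀ g₁ gb : ℝ}

lemma ka_pos' (h : In0 Hm e0 T₀ R Q v q g₀ g₁ gb) (x : X) : 0 < ka e0 e0 T₀ x := by
  unfold ka
  split_ifs with hs
  · exact h.eq.1
  · have h1 : 0 < T₀.s x := pos_iff_ne_zero.2 hs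
    have h2 := h.pimb x h1
    have h3 := h.eq.1
    have h4 : (0 : ℝ) ≤ T₀.s x := NNReal.coe_nonneg _
    positivity

/-- the rows of the cluster in `ℓ²(R)` -/
lemma row2 (hnet : NetStmt) (h : In0 Hm e0 T₀ R Q v q g₀ g₁ gb) (hg₀ : 0 < g₀) (b : X)
    (hb : b ∈ Q) : ∑ y ∈ R, ‖GT Hm e0 e0 T₀ b y‖ ^ 2 ≤ gb / g₀ * (q⁻¹) ^ 2000 := by
  obtain ⟨-, hsym, hward, -⟩ := hnet X Hm e0 e0 T₀ h.sym h.eq.1 le_rfl h.pimb
  have hq := h.q0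
  have hv : (0 : ℝ) < v := by rw [h.vq]; positivity
  have hk : ∀ y ∈ R, (v : ℝ) * g₀ ≤ ka e0 e0 T₀ y := by
    intro y hy
    obtain ⟨h1, h2, h3⟩ := h.hR y hy
    unfold ka
    rw [if_neg (by rw [h1]; exact fun h0 => by rw [h0] at hv; simp at hv), h1]
    have := h.eq.1
    nlinarith only [mul_le_mul_of_nonneg_left h2 hv.le, this]
  have h1 : (v : ℝ) * g₀ * ∑ y ∈ R, ‖GT Hm e0 e0 T₀ b y‖ ^ 2 ≤ gb := by
    calc (v : ℝ) * g₀ * ∑ y ∈ R, ‖GT Hm e0 e0 T₀ b y‖ ^ 2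
        = ∑ y ∈ R, (v : ℝ) * g₀ * ‖GT Hm e0 e0 T₀ y b‖ ^ 2 := by
          rw [Finset.mul_sum]
          exact Finset.sum_congr rfl fun y _ => by rw [hsym b y]
      _ ≤ ∑ y ∈ R, ka e0 e0 T₀ y * ‖GT Hm e0 e0 T₀ y b‖ ^ 2 :=
          Finset.sum_le_sum fun y hy => mul_le_mul_of_nonneg_right (hk y hy) (by positivity)
      _ ≤ ∑ y, ka e0 e0 T₀ y * ‖GT Hm e0 e0 T₀ y b‖ ^ 2 :=
          Finset.sum_le_sum_of_subset_of_nonneg (Finset.subset_univ _) fun y _ _ => by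
            have := ka_pos' h y
            positivity
      _ = (GT Hm e0 e0 T₀ b b).im := hward b
      _ ≤ ‖GT Hm e0 e0 T₀ b b‖ := le_trans (le_abs_self _) (Complex.abs_im_le_norm _)
      _ ≤ gb := (h.hQ b hb).2.2
  rw [h.vq] at h1
  have h2 : 0 < q ^ 2000 * g₀ := by positivity
  calc ∑ y ∈ R, ‖GT Hm e0 e0 T₀ b y‖ ^ 2 ≤ gb / (q ^ 2000 * g₀) := by
        rw [le_div_iff₀ h2]; linarith
    _ = gb / g₀ * (q⁻¹) ^ 2000 := by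
        rw [inv_pow]; field_simp

/-- the structure `In` -/
lemma toIn (hnet : NetStmt) (h : In0 Hm e0 T₀ R Q v q g₀ g₁ gb) (hg₀ : 0 < g₀)
    (hgb : 0 ≤ gb) : In Hm e0 T₀ R Q v q g₀ g₁ gb := by
  refine ⟨h.q0, h.vq, h.sym, h.eq, h.pimb, h.dis, h.hR, fun b hb => ⟨(h.hQ b hb).1,
    (h.hQ b hb).2.1⟩, h.cQ, h.dia, h.ent, h.lam, ?_⟩
  intro b hb
  obtain ⟨-, hsym, hward, -⟩ := hnet X Hm e0 e0 T₀ h.sym h.eq.1 le_rfl h.pimb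
  have hk := ka_pos' h b
  have hq := h.q0
  have h1 : ∀ y ∈ R, ‖GT Hm e0 e0 T₀ b y‖ ^ 2 ≤ gb / ka e0 e0 T₀ b := by
    intro y hy
    rw [le_div_iff₀ hk]
    calc ‖GT Hm e0 e0 T₀ b y‖ ^ 2 * ka e0 e0 T₀ b = ka e0 e0 T₀ b * ‖GT Hm e0 e0 T₀ b y‖ ^ 2 := by
          ring
      _ ≤ ∑ z, ka e0 e0 T₀ z * ‖GT Hm e0 e0 T₀ z y‖ ^ 2 :=
          Finset.single_le_sum (f := fun z => ka e0 e0 T₀ z * ‖GT Hm e0 e0 T₀ z y‖ ^ 2)
            (fun z _ => by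
              have := ka_pos' h z
              positivity) (Finset.mem_univ b)
      _ = (GT Hm e0 e0 T₀ y y).im := hward y
      _ ≤ ‖GT Hm e0 e0 T₀ y y‖ := le_trans (le_abs_self _) (Complex.abs_im_le_norm _)
      _ ≤ gb / 2 := h.ent y hy y hy
      _ ≤ gb := by linarith
  calc ∑ y ∈ R, ‖GT Hm e0 e0 T₀ b y‖ ^ 4
      = ∑ y ∈ R, ‖GT Hm e0 e0 T₀ b y‖ ^ 2 * ‖GT Hm e0 e0 T₀ b y‖ ^ 2 :=
        Finset.sum_congr rfl fun y _ => by ring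
    _ ≤ ∑ y ∈ R, gb / ka e0 e0 T₀ b * ‖GT Hm e0 e0 T₀ b y‖ ^ 2 :=
        Finset.sum_le_sum fun y hy => mul_le_mul_of_nonneg_right (h1 y hy) (by positivity)
    _ = gb / ka e0 e0 T₀ b * ∑ y ∈ R, ‖GT Hm e0 e0 T₀ b y‖ ^ 2 := by rw [Finset.mul_sum]
    _ ≤ gb / ka e0 e0 T₀ b * (gb / g₀ * (q⁻¹) ^ 2000) :=
        mul_le_mul_of_nonneg_left (row2 hnet h hg₀ b hb) (by positivity)
    _ = _ := by ring

/-- the number of the first kills -/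
lemma card0 (hnet : NetStmt) (h : In0 Hm e0 T₀ R Q v q g₀ g₁ gb) (hg₀ : 0 < g₀) (hgb : 0 ≤ gb)
    (hK : ℝ) (hhK : hK = q ^ 200) :
    (({x ∈ R | ∃ b ∈ Q, hK < ka e0 e0 T₀ b * ‖GT Hm e0 e0 T₀ b x‖ ^ 2} : Finset X).card : ℝ) ≤
      gb / g₀ * (q⁻¹) ^ 2202 := by
  classical
  have hq := h.q0
  have hK0 : 0 < hK := by rw [hhK]; positivity
  have h1 : (({x ∈ R | ∃ b ∈ Q, hK < ka e0 e0 T₀ b * ‖GT Hm e0 e0 T₀ b x‖ ^ 2} :
      Finset X).card : ℝ) * hK ≤ ∑ b ∈ Q, ∑ x ∈ R, ka e0 e0 T₀ b * ‖GT Hm e0 e0 T₀ b x‖ ^ 2 := by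
    rw [Finset.sum_comm]
    rw [← nsmul_eq_mul, ← Finset.sum_const]
    refine le_trans (Finset.sum_le_sum (g := fun x => ∑ b ∈ Q,
      ka e0 e0 T₀ b * ‖GT Hm e0 e0 T₀ b x‖ ^ 2) ?_) ?_
    · intro x hx
      obtain ⟨-, b, hb, h2⟩ := Finset.mem_filter.1 hx
      refine h2.le.trans (Finset.single_le_sum (f := fun b => ka e0 e0 T₀ b *
        ‖GT Hm e0 e0 T₀ b x‖ ^ 2) (fun z _ => by
          have := ka_pos' h z
          positivity) hb)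
    · refine Finset.sum_le_sum_of_subset_of_nonneg (Finset.filter_subset _ _) fun x _ _ => ?_
      exact Finset.sum_nonneg fun z _ => by
        have := ka_pos' h z
        positivity
  have h2 : ∑ b ∈ Q, ∑ x ∈ R, ka e0 e0 T₀ b * ‖GT Hm e0 e0 T₀ b x‖ ^ 2 ≤
      (q⁻¹) ^ 2 * (gb / g₀ * (q⁻¹) ^ 2000) := by
    calc ∑ b ∈ Q, ∑ x ∈ R, ka e0 e0 T₀ b * ‖GT Hm e0 e0 T₀ b x‖ ^ 2
        ≤ ∑ _b ∈ Q, gb / g₀ * (q⁻¹) ^ 2000 := by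
          refine Finset.sum_le_sum fun b hb => ?_
          rw [← Finset.mul_sum]
          have h3 := row2 hnet h hg₀ b hb
          have h4 := (h.hQ b hb).2.1
          have h5 : 0 ≤ ∑ y ∈ R, ‖GT Hm e0 e0 T₀ b y‖ ^ 2 :=
            Finset.sum_nonneg fun y _ => by positivity
          nlinarith only [mul_le_mul_of_nonneg_right h4 h5, h3]
      _ = (Q.card : ℝ) * (gb / g₀ * (q⁻¹) ^ 2000) := by
          rw [Finset.sum_const, nsmul_eq_mul]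
      _ ≤ _ := mul_le_mul_of_nonneg_right h.cQ (by positivity)
  have h3 : (({x ∈ R | ∃ b ∈ Q, hK < ka e0 e0 T₀ b * ‖GT Hm e0 e0 T₀ b x‖ ^ 2} :
      Finset X).card : ℝ) ≤ (q⁻¹) ^ 2 * (gb / g₀ * (q⁻¹) ^ 2000) / hK := by
    rw [le_div_iff₀ hK0]
    exact h1.trans h2
  refine h3.trans (le_of_eq ?_)
  rw [hhK, div_eq_mul_inv, ← inv_pow]
  ring

/-- the functional at the start -/
lemma start (h : In Hm e0 T₀ R Q v q g₀ g₁ gb) (h1 : q ≤ 1) (D : ℕ)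
    (hc : (R.card : ℝ) ≤ (q⁻¹) ^ D) (hD : 2 ≤ D) :
    (∑ x ∈ R ∪ Q, (R.card : ℝ) * (4 * Real.exp (1 - (mkA Hm e0 T₀ R Rk Q v val q g₀ gb).l x *
      (mkA Hm e0 T₀ R Rk Q v val q g₀ gb).ε x))) +
      R.card * Real.exp (1 - (q⁻¹) ^ 82 * q ^ 80) + Real.exp (1 - q ^ 278 * (q⁻¹) ^ 280) ≤
      30 * (q⁻¹) ^ (2 * D) * Real.exp (-(q⁻¹) ^ 2) := by
  have hq := h.q0
  have hr : 0 < q⁻¹ := inv_pos.2 hq
  have hr1 : 1 ≤ q⁻¹ := (one_le_inv₀ hq).2 h1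
  have e1 : ∀ x, (mkA Hm e0 T₀ R Rk Q v val q g₀ gb).l x *
      (mkA Hm e0 T₀ R Rk Q v val q g₀ gb).ε x = (q⁻¹) ^ 2 := by
    intro x
    show 4 * (q⁻¹) ^ 2 / Jn (ka e0 e0 T₀) Q q x * (Jn (ka e0 e0 T₀) Q q x / 4) = _
    have := (Jn_pos h x).ne'
    field_simp
  have e2 : (q⁻¹) ^ 82 * q ^ 80 = (q⁻¹) ^ 2 := rq hq 2 80
  have e3 : q ^ 278 * (q⁻¹) ^ 280 = (q⁻¹) ^ 2 := by
    rw [mul_comm]; exact rq hq 2 278
  have e4 : Real.exp (1 - (q⁻¹) ^ 2) ≤ 3 * Real.exp (-(q⁻¹) ^ 2) := by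
    rw [sub_eq_add_neg, Real.exp_add]
    have := Real.exp_one_lt_d9
    have h2 := Real.exp_pos (-(q⁻¹) ^ 2)
    nlinarith only [this, h2]
  rw [Finset.sum_congr rfl (g := fun _ => (R.card : ℝ) * (4 * Real.exp (1 - (q⁻¹) ^ 2)))
    (fun x _ => by rw [e1])]
  rw [Finset.sum_const, nsmul_eq_mul, e2, e3]
  have h3 : ((R ∪ Q).card : ℝ) ≤ 2 * (q⁻¹) ^ D := by
    have h4 : ((R ∪ Q).card : ℝ) ≤ R.card + Q.card := by exact_mod_cast Finset.card_union_le R Q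
    have h5 : (q⁻¹) ^ 2 ≤ (q⁻¹) ^ D := pow_le_pow_right₀ hr1 hD
    have h6 := h.cQ
    linarith only [hc, h4, h5, h6]
  have h7 : (1 : ℝ) ≤ (q⁻¹) ^ D := one_le_pow₀ hr1
  have h8 : (q⁻¹) ^ D ≤ (q⁻¹) ^ (2 * D) := pow_le_pow_right₀ hr1 (by omega)
  have h9 : 0 < Real.exp (1 - (q⁻¹) ^ 2) := Real.exp_pos _
  have hR0 : (0 : ℝ) ≤ R.card := Nat.cast_nonneg _
  calc ((R ∪ Q).card : ℝ) * (R.card * (4 * Real.exp (1 - (q⁻¹) ^ 2))) +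
        R.card * Real.exp (1 - (q⁻¹) ^ 2) + Real.exp (1 - (q⁻¹) ^ 2)
      ≤ (2 * (q⁻¹) ^ D) * ((q⁻¹) ^ D * (4 * Real.exp (1 - (q⁻¹) ^ 2))) +
        (q⁻¹) ^ D * Real.exp (1 - (q⁻¹) ^ 2) + (q⁻¹) ^ D * Real.exp (1 - (q⁻¹) ^ 2) := by
        have hA : ((R ∪ Q).card : ℝ) * (R.card * (4 * Real.exp (1 - (q⁻¹) ^ 2))) ≤
            (2 * (q⁻¹) ^ D) * ((q⁻¹) ^ D * (4 * Real.exp (1 - (q⁻¹) ^ 2))) := by gcongr
        have hB : (R.card : ℝ) * Real.exp (1 - (q⁻¹) ^ 2) ≤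
            (q⁻¹) ^ D * Real.exp (1 - (q⁻¹) ^ 2) := by gcongr
        have hC : 1 * Real.exp (1 - (q⁻¹) ^ 2) ≤ (q⁻¹) ^ D * Real.exp (1 - (q⁻¹) ^ 2) := by
          gcongr
        linarith only [hA, hB, hC]
    _ = (8 * (q⁻¹) ^ (2 * D) + 2 * (q⁻¹) ^ D) * Real.exp (1 - (q⁻¹) ^ 2) := by ring
    _ ≤ (10 * (q⁻¹) ^ (2 * D)) * (3 * Real.exp (-(q⁻¹) ^ 2)) := by
        gcongr
        linarith only [h8]
    _ = _ := by ring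

end

end Pool.Agent.ATT.H76
end
end -- Pool.Agent.Helper76_ATT.NumC
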