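import Pool.Agent.Helper12_MEB.B105

/-!
# Merged copies (generated) of the modules

* `Pool.Agent.ATT.StmtsP`
* `Pool.Agent.Helper38_ATT.PhA`
* `Pool.Agent.Helper38_ATT.PhB`
* `Pool.Agent.Helper38_ATT.PhC`
* `Pool.Agent.Helper38_ATT.PhD`
* `Pool.Agent.Helper38_ATT.Phs`
* `Pool.Agent.Helper76_ATT.Att`
-/

set_option autoImplicit false

section -- Pool.Agent.ATT.StmtsP

/-!
# The phase of one site (block KIL): the statement
-/

set_option autoImplicit false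

open MeasureTheory ProbabilityTheory Function Filter

open scoped ENNReal BigOperators Topology NNReal Matrix

noncomputable section

namespace Pool.Agent.ATT

/-- PHN: the phase of one site. Proof: value function `a + tn + M cu U + e^{2 lam} ((1 - cu U)
exp (lam (3 y - y² - 2) - lam S / 20) + B cu U)`, `S` = the remaining budget for the killed mass, `y` the
mass of the heavy sites. If all sites are light: done. Otherwise let `D` be the sites of `al T` with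
`a ≥ t₁` and `r` their mass. If `S ≤ 40 r` the value is at least `1`. If `r ≥ ρ`: KR1 with `S - r` for
`S`. If `r < ρ`: KLR, the last round. -/
def PhnStmt : Prop :=
  ∃ ε₀ c₀ lam C B : ℝ, 0 < ε₀ ∧ 0 < c₀ ∧ c₀ ≤ 1 ∧ 0 < lam ∧ lam ≤ 1 ∧ 1 ≤ C ∧ 1 ≤ B ∧
    ∀ (X : Type) [Fintype X] [DecidableEq X] (A : Pa X)
      (κs g₀ Λ Lc hK kI ρ S₀ ε bL : ℝ) (j nP : ℕ),
      A.Hyp κs g₀ Λ Lc hK kI → A.t₁ ≤ 1 → 2 * A.δ / g₀ ≤ ε₀ →
      κs * Real.sqrt (2 / (c₀ * A.t₁) * Lc) / g₀ ≤ ε₀ ^ 2 →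
      C * A.δ ^ 2 * Real.sqrt (1 / (c₀ * A.t₁) * Real.sqrt (1 / (c₀ * A.t₁) * Lc)) / g₀ * A.v ≤
        lam * ρ / 20 →
      0 < ρ → 1 ≤ j → 0 ≤ ε → ε ≤ 1 / 16 → 2 * A.δ / g₀ ≤ ε →
      κs * Real.sqrt (1 / A.t₁ * Lc) / g₀ ≤ ε ^ 2 →
      j * (4 * ε ^ 2 + 16 * ρ) ≤ 1 / 8 → 300 * j * (2 * (κs * kI / g₀) / A.t₁ + 1) * ρ ≤ 1 →
      20 * j * A.δ ^ 2 * Real.sqrt (1 / A.t₁ * Real.sqrt (1 / A.t₁ * Lc)) / (ρ * g₀) +
        128 * j * ρ * A.δ ^ 2 * (1 / A.t₁) * (κs * kI / g₀) / A.t₁ ≤ bL →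
      0 ≤ S₀ → (S₀ + 1) / A.t₁ ≤ nP →
        PhsAt A hK nP (3 * Real.exp (A.v * bL) * ((1 + A.R.card) * Real.exp (-(j : ℝ) / 5)) +
          Real.exp (2 * lam) * Real.exp (-(lam * S₀ / 20))) (Real.exp (2 * lam) * B)

end Pool.Agent.ATT
end
end -- Pool.Agent.ATT.StmtsP

section -- Pool.Agent.Helper38_ATT.PhA

/-!
# The phase: networks, measures, the functional at the start of a run
-/

set_option autoImplicit false

open MeasureTheory ProbabilityTheory Function Filter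

open scoped ENNReal BigOperators Topology NNReal Matrix

noncomputable section

namespace Pool.Agent.ATT.H38

open Pool.Agent.LE.QF (HJ HM gG LL dC)
open Pool.Agent.KIL (KJ KGd Cut gam nn aa yn ym cu)
open Pool.Agent.ANP (Cfg gm Att)

/-! ### isolated sites -/

section net

variable {X : Type} [Fintype X] [DecidableEq X]

theorem gam_zero (geq : ANR.GeqStmt) (hdir : ANR.DirStmt) (H : Matrix X X ℝ) (κ : X → ℝ)
    (hN : ANR.Net H κ) (b : X) : gam κ (ANR.Gr H κ) b = 0 ↔ ∀ v, v ≠ b → H v b = 0 := by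
  obtain ⟨g1, g2, g3, -, -⟩ := geq X H κ hN
  have hnn : ∀ v ∈ Finset.univ.erase b, 0 ≤ nn κ (ANR.Gr H κ) b v := fun v _ =>
    mul_nonneg (hN.pos v).le (by positivity)
  constructor
  · intro h0
    have hz : ∀ v, v ≠ b → ANR.Gr H κ v b = 0 := by
      intro v hv
      have h3 := (Finset.sum_eq_zero_iff_of_nonneg hnn).1 h0 v
        (Finset.mem_erase.2 ⟨hv, Finset.mem_univ v⟩)
      have h4 : κ v * ‖ANR.Gr H κ v b‖ ^ 2 = 0 := h3
      rcases mul_eq_zero.1 h4 with h5 | h5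
      · exact absurd h5 (hN.pos v).ne'
      · exact norm_eq_zero.1 ((pow_eq_zero_iff two_ne_zero).1 h5)
    have hop : ∀ x, ANR.opv H κ (fun z => ANR.Gr H κ z b) x =
        (H x b : ℂ) * ANR.Gr H κ b b - Complex.I * (κ x : ℂ) * ANR.Gr H κ x b := by
      intro x
      unfold ANR.opv
      rw [Finset.sum_eq_single b]
      · intro v _ hv
        show _ * ANR.Gr H κ v b = 0
        rw [hz v hv, mul_zero]
      · intro h
        exact absurd (Finset.mem_univ b) h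
    intro v hv
    by_contra hvb
    have h3 := g1 v b
    rw [hop, hz v hv, mul_zero, sub_zero, if_neg hv] at h3
    have h4 : ANR.Gr H κ b b = 0 := by
      rcases mul_eq_zero.1 h3 with h5 | h5
      · exact absurd (Complex.ofReal_eq_zero.1 h5) hvb
      · exact h5
    have h6 := g1 b b
    rw [hop, h4, mul_zero, mul_zero, sub_zero, if_pos rfl] at h6
    exact zero_ne_one h6
  · intro hz
    obtain ⟨ψ, _, huni⟩ := hdir X H κ ∅ hN (fun _ => 0) (fun _ => 0)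
    have hw : (fun z => if z = b then 0 else ANR.Gr H κ z b) = ψ := by
      refine huni _ ⟨fun b hb => absurd hb (Finset.notMem_empty b), fun x _ => ?_⟩
      have h1 := g1 x b
      unfold ANR.opv at h1 ⊢
      have h2 : ∑ y, (H x y : ℂ) * (if y = b then 0 else ANR.Gr H κ y b) =
          ∑ y, (H x y : ℂ) * ANR.Gr H κ y b - (H x b : ℂ) * ANR.Gr H κ b b := by
        rw [eq_sub_iff_add_eq, ← Finset.sum_erase_add _ _ (Finset.mem_univ b),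
          ← Finset.sum_erase_add _ (fun y => (H x y : ℂ) * ANR.Gr H κ y b) (Finset.mem_univ b)]
        rw [if_pos rfl, mul_zero, add_zero]
        congr 1
        exact Finset.sum_congr rfl fun y hy => by rw [if_neg (Finset.ne_of_mem_erase hy)]
      rw [h2]
      beta_reduce at h1 ⊢
      by_cases hx : x = b
      · subst hx
        rw [if_pos rfl, mul_zero, sub_zero]
        rw [← Finset.sum_erase_add _ _ (Finset.mem_univ x)]
        rw [add_sub_cancel_right]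
        refine Finset.sum_eq_zero fun y hy => ?_
        rw [hN.sym x y, hz y (Finset.ne_of_mem_erase hy), Complex.ofReal_zero, zero_mul]
      · rw [if_neg hx, hz x hx, Complex.ofReal_zero, zero_mul, sub_zero]
        rw [if_neg hx] at h1
        exact h1
    have hw0 : (fun _ : X => (0 : ℂ)) = ψ := by
      refine huni _ ⟨fun b hb => rfl, fun x _ => ?_⟩
      unfold ANR.opv
      simp
    refine Finset.sum_eq_zero fun v hv => ?_
    have h1 := congrFun (hw.trans hw0.symm) v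
    beta_reduce at h1
    rw [if_neg (Finset.ne_of_mem_erase hv)] at h1
    unfold nn
    rw [h1]
    simp

end net

/-! ### the clocks of a state -/

section state

variable {X : Type} [Fintype X] [DecidableEq X] {A : Pa X} {κs g₀ Λ Lc hK kI : ℝ}
  {T : Cfg X} {Qr D : Finset X} {Go : Matrix X X ℂ}

theorem st_al (st : A.St T Qr Go) {x : X} (hx : x ∈ A.al T) : T.V x = A.T₀.V x ∧ T.s x = A.v := by
  obtain ⟨h1, h2⟩ := Finset.mem_filter.1 hx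
  exact (st.run x h1).resolve_left h2

omit [Fintype X] [DecidableEq X] in
theorem al_sub : A.al T ⊆ A.R := Finset.filter_subset _ _

theorem st_pos (hy : A.Hyp κs g₀ Λ Lc hK kI) (st : A.St T Qr Go) (x : X) (hx : 0 < T.s x) :
    0 < (T.mb x).im := by
  rw [st.mb]
  refine hy.pimb x ?_
  by_cases hR : x ∈ A.R
  · rw [(hy.hR x hR).1]; exact hy.pos.2.2.1
  by_cases hQ : x ∈ A.Q
  · exact pos_iff_ne_zero.2 (hy.hQ x hQ)
  rw [← (st.off x hR hQ).2]; exact hx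

theorem b_notin (hy : A.Hyp κs g₀ Λ Lc hK kI) (st : A.St T Qr Go) {b : X} (hb : b ∈ Qr) :
    b ∉ A.al T := fun h =>
  Finset.disjoint_left.1 hy.dis (al_sub h) (st.sub hb)

/-- the run -/
theorem run_st (hrun : RunStmt) (hy : A.Hyp κs g₀ Λ Lc hK kI) (st : A.St T Qr Go)
    (hD : D ⊆ A.al T) :
    (∀ r : ℝ × (D → ℝ), 0 ≤ r.1 → r.1 ≤ A.v →
      KJ (fun c : D => (c : X)) r (Gk A.Hm A.η A.e0 A.v T D) (kr A.η A.e0 A.v T D)
        (Gk A.Hm A.η A.e0 A.v T D r) (kr A.η A.e0 A.v T D r.1) (fun x => (mg A.η A.e0 A.v T x).im)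
        (fun c => Gk A.Hm A.η A.e0 A.v T D r c c - mg A.η A.e0 A.v T c) ∧
      ∀ x, 0 < kr A.η A.e0 A.v T D r.1 x) ∧
    Gk A.Hm A.η A.e0 A.v T D 0 = A.G T ∧ kr A.η A.e0 A.v T D 0 = A.k T ∧
    (∀ ζ : X → ℝ, Gk A.Hm A.η A.e0 A.v T D (A.v, fun c => ζ c) = A.G (T.kl D ζ) ∧
      kr A.η A.e0 A.v T D A.v = A.k (T.kl D ζ)) ∧
    ∀ a b, Measurable fun ζ : X → ℝ => A.G (T.kl D ζ) a b := by
  obtain ⟨h1, h2, h3, h4, h5⟩ := hrun X A.Hm A.η A.e0 A.v T D hy.sym hy.pos.1 hy.pos.2.1 hy.pos.2.2.1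
    (st_pos hy st) (fun c hc => (st_al st (hD hc)).2)
  exact ⟨fun r hr hr' => ⟨(h1 r hr hr').1, (h1 r hr hr').2.1⟩, h2, h3, h4, h5⟩

theorem net_T (hrun : RunStmt) (hy : A.Hyp κs g₀ Λ Lc hK kI) (st : A.St T Qr Go) :
    ANR.Net (hN A.Hm T) (A.k T) := by
  obtain ⟨h1, _, h3, _⟩ := run_st (D := ∅) hrun hy st (Finset.empty_subset _)
  refine ⟨fun x y => ?_, fun x => ?_⟩
  · unfold hN
    by_cases h : x = y
    · rw [h]
    · rw [if_neg h, if_neg (Ne.symm h), hy.sym x y]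
  · rw [← h3]
    have := (h1 (0, fun _ => 0) le_rfl (NNReal.coe_nonneg _)).2 x
    exact this

/-- the current out of `b` stays positive -/
theorem gam_run (hrun : RunStmt) (geq : ANR.GeqStmt) (hdir : ANR.DirStmt)
    (hy : A.Hyp κs g₀ Λ Lc hK kI) (st : A.St T Qr Go) (hD : D ⊆ A.al T) {b : X}
    (hg : gam (A.k T) (A.G T) b ≠ 0) (r : ℝ × (D → ℝ)) (h0 : 0 ≤ r.1) (h1 : r.1 ≤ A.v) :
    0 < gam (kr A.η A.e0 A.v T D r.1) (Gk A.Hm A.η A.e0 A.v T D r) b := by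
  obtain ⟨hr, _⟩ := run_st hrun hy st hD
  have hpos := (hr r h0 h1).2
  have hN' : ANR.Net (fun x y => hN A.Hm T x y +
    if h : x ∈ D then (if x = y then r.2 ⟨x, h⟩ + r.1 * (T.mb x).re else 0) else 0)
    (kr A.η A.e0 A.v T D r.1) := by
    refine ⟨fun x y => ?_, hpos⟩
    by_cases h : x = y
    · rw [h]
    · simp only [if_neg h, if_neg (Ne.symm h), dite_eq_ite, ite_self, add_zero]
      exact (net_T hrun hy st).sym x y
  have h2 : 0 ≤ gam (kr A.η A.e0 A.v T D r.1) (Gk A.Hm A.η A.e0 A.v T D r) b :=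
    Finset.sum_nonneg fun v _ => mul_nonneg (hpos v).le (by positivity)
  refine lt_of_le_of_ne h2 fun h3 => hg ?_
  have h4 := (gam_zero geq hdir _ _ hN' b).1 h3.symm
  refine (gam_zero geq hdir (hN A.Hm T) (A.k T) (net_T hrun hy st) b).2 fun v hv => ?_
  have h5 := h4 v hv
  simp only [if_neg hv, dite_eq_ite, ite_self, add_zero] at h5
  exact h5

end state

/-! ### measures -/

/-- extension by zero -/
def ext {X : Type} [DecidableEq X] (D : Finset X) (V : D → ℝ) (x : X) : ℝ :=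
  if h : x ∈ D then V ⟨x, h⟩ else 0

theorem meas_ext {X : Type} [DecidableEq X] (D : Finset X) : Measurable (ext D) := by
  refine measurable_pi_lambda _ fun x => ?_
  unfold ext
  by_cases h : x ∈ D
  · simp only [dif_pos h]
    exact measurable_pi_apply _
  · simp only [dif_neg h]
    exact measurable_const

theorem ext_res {X : Type} [DecidableEq X] (D : Finset X) (V : D → ℝ) :
    (fun c : D => ext D V c) = V := by
  funext c
  unfold ext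
  rw [dif_pos c.2]

theorem lint_run (hmsr : MsrStmt) {X : Type} [Fintype X] [DecidableEq X] (T : Cfg X) (D : Finset X)
    (v : ℝ≥0) (hD : ∀ c ∈ D, T.s c = v) (f : (X → ℝ) → ℝ≥0∞) (hf : Measurable f)
    (hres : ∀ ζ ζ', (∀ c ∈ D, ζ c = ζ' c) → f ζ = f ζ') :
    ∫⁻ ζ, f ζ ∂(gm (fun _ => 0) (T.kv D)) =
      ∫⁻ V, f (ext D V) ∂(Measure.pi fun _ : D => gaussianReal 0 v) := by
  rw [← hmsr X T D v (fun V => f (ext D V)) (hf.comp (meas_ext D)) hD]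
  refine lintegral_congr fun ζ => hres _ _ fun c hc => ?_
  unfold ext
  rw [dif_pos hc]

theorem lint_real (hmsr : MsrStmt) {X : Type} [Fintype X] [DecidableEq X] (T : Cfg X)
    (D : Finset X) (v : ℝ≥0) (hD : ∀ c ∈ D, T.s c = v) (h : (X → ℝ) → ℝ) (hh : Measurable h)
    (K : ℝ) (h0 : ∀ ζ, 0 ≤ h ζ) (h1 : ∀ ζ, h ζ ≤ K)
    (hres : ∀ ζ ζ', (∀ c ∈ D, ζ c = ζ' c) → h ζ = h ζ') :
    ∫⁻ ζ, ENNReal.ofReal (h ζ) ∂(gm (fun _ => 0) (T.kv D)) =
      ENNReal.ofReal (∫ V, h (ext D V) ∂(Measure.pi fun _ : D => gaussianReal 0 v)) := by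
  rw [lint_run hmsr T D v hD (fun ζ => ENNReal.ofReal (h ζ)) (by fun_prop)
    (fun ζ ζ' hz => by rw [hres ζ ζ' hz])]
  rw [ofReal_integral_eq_lintegral_ofReal]
  · refine Integrable.of_bound (hh.comp (meas_ext D)).aestronglyMeasurable K
      (Eventually.of_forall fun V => ?_)
    show ‖h (ext D V)‖ ≤ K
    rw [Real.norm_of_nonneg (h0 _)]
    exact h1 _
  · exact Eventually.of_forall fun V => h0 _

theorem kl_congr {X : Type} [DecidableEq X] (T : Cfg X) (D : Finset X) (ζ ζ' : X → ℝ)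
    (h : ∀ c ∈ D, ζ c = ζ' c) : T.kl D ζ = T.kl D ζ' := by
  unfold Cfg.kl
  congr 1
  funext x
  by_cases hx : x ∈ D
  · rw [if_pos hx, if_pos hx, h x hx]
  · rw [if_neg hx, if_neg hx]

instance {X : Type} [Fintype X] (a : X → ℝ) (r : X → ℝ≥0) : IsProbabilityMeasure (gm a r) := by
  unfold gm
  infer_instance

end Pool.Agent.ATT.H38
end
end -- Pool.Agent.Helper38_ATT.PhA

section -- Pool.Agent.Helper38_ATT.PhB

/-!
# The phase: one round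
-/

set_option autoImplicit false

open MeasureTheory ProbabilityTheory Function Filter

open scoped ENNReal BigOperators Topology NNReal Matrix

noncomputable section

namespace Pool.Agent.ATT.H38

open Pool.Agent.LE.QF (HJ HM gG LL dC)
open Pool.Agent.KIL (KJ KGd Cut gam nn aa yn ym cu Ph Kr1Body)
open Pool.Agent.ANP (Cfg gm Att)

/-! ### the value -/

/-- the value of the phase -/
def val (lam B a M S c y : ℝ) : ℝ :=
  a + M * c + Real.exp (2 * lam) * ((1 - c) * Real.exp (lam * (3 * y - y ^ 2 - 2) - lam * S / 20) +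
    B * c)

section value

variable {lam B a M S c c' y : ℝ}

theorem val_ge2 (hlam : 0 < lam) (hB : 1 ≤ B) (hc : 0 ≤ c) (hc1 : c ≤ 1) :
    a + (M + 1) * c ≤ val lam B a M S c y := by
  unfold val
  have h1 : 1 ≤ Real.exp (2 * lam) := Real.one_le_exp (by linarith)
  have h2 := Real.exp_pos (lam * (3 * y - y ^ 2 - 2) - lam * S / 20)
  have h3 : c ≤ (1 - c) * Real.exp (lam * (3 * y - y ^ 2 - 2) - lam * S / 20) + B * c := by
    nlinarith only [mul_nonneg (sub_nonneg.2 hc1) h2.le, hB, hc]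
  have h4 : 0 ≤ (1 - c) * Real.exp (lam * (3 * y - y ^ 2 - 2) - lam * S / 20) + B * c :=
    hc.trans h3
  nlinarith only [hc, h1, h3]

theorem val_ge_one (hlam : 0 < lam) (hB : 1 ≤ B) (ha : 0 ≤ a) (hM : 0 ≤ M) (hc : 0 ≤ c)
    (hc1 : c ≤ 1) (hy0 : 0 ≤ y) (hy1 : y ≤ 1) (h : S ≤ 40 * y) : 1 ≤ val lam B a M S c y := by
  unfold val
  have h1 : 1 ≤ Real.exp (2 * lam) := Real.one_le_exp (by linarith)
  have h2 : 1 ≤ Real.exp (2 * lam) * Real.exp (lam * (3 * y - y ^ 2 - 2) - lam * S / 20) := by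
    rw [← Real.exp_add]
    refine Real.one_le_exp ?_
    have h3 : 2 * lam + (lam * (3 * y - y ^ 2 - 2) - lam * S / 20) =
      lam * (3 * y - y ^ 2 - S / 20) := by ring
    rw [h3]
    refine mul_nonneg hlam.le ?_
    nlinarith only [hy0, hy1, h]
  have h4 : Real.exp (2 * lam) * ((1 - c) * Real.exp (lam * (3 * y - y ^ 2 - 2) - lam * S / 20) +
    B * c) = (1 - c) * (Real.exp (2 * lam) * Real.exp (lam * (3 * y - y ^ 2 - 2) - lam * S / 20)) +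
    Real.exp (2 * lam) * B * c := by ring
  rw [h4]
  have h5 : 1 ≤ Real.exp (2 * lam) * B := by nlinarith only [hB, h1]
  nlinarith only [mul_nonneg hM hc, mul_le_mul_of_nonneg_left h2 (sub_nonneg.2 hc1),
    mul_le_mul_of_nonneg_right h5 hc, ha]

theorem exp_le_one' (hlam : 0 < lam) (hy1 : y ≤ 1) (hS : 0 ≤ S) :
    Real.exp (lam * (3 * y - y ^ 2 - 2) - lam * S / 20) ≤ 1 := by
  rw [Real.exp_le_one_iff]
  have h1 : 3 * y - y ^ 2 - 2 ≤ 0 := by nlinarith only [hy1]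
  have h2 := mul_nonpos_of_nonneg_of_nonpos hlam.le h1
  have h3 := mul_nonneg hlam.le hS
  linarith only [h2, h3]

theorem val_mono (hlam : 0 < lam) (hB : 1 ≤ B) (hM : 0 ≤ M) (hy1 : y ≤ 1) (hS : 0 ≤ S)
    (hcc : c ≤ c') : val lam B a M S c y ≤ val lam B a M S c' y := by
  unfold val
  have h1 := exp_le_one' (y := y) (S := S) hlam hy1 hS
  have h2 := Real.exp_pos (2 * lam)
  have h3 : (1 - c) * Real.exp (lam * (3 * y - y ^ 2 - 2) - lam * S / 20) + B * c ≤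
    (1 - c') * Real.exp (lam * (3 * y - y ^ 2 - 2) - lam * S / 20) + B * c' := by nlinarith only [hB, hcc, h1]
  have h4 := mul_le_mul_of_nonneg_left h3 h2.le
  nlinarith only [hM, hcc, h4]

theorem val_le (hlam : 0 < lam) (hc : 0 ≤ c) (hc1 : c ≤ 1) (hy1 : y ≤ 1) :
    val lam B a M S c y ≤ a + Real.exp (2 * lam) * Real.exp (-(lam * S / 20)) +
      (M + Real.exp (2 * lam) * B) * c := by
  unfold val
  have h1 : Real.exp (lam * (3 * y - y ^ 2 - 2) - lam * S / 20) ≤ Real.exp (-(lam * S / 20)) := by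
    refine Real.exp_le_exp.2 ?_
    have h1 : 3 * y - y ^ 2 - 2 ≤ 0 := by nlinarith only [hy1]
    have h2 := mul_nonpos_of_nonneg_of_nonpos hlam.le h1
    linarith only [h2]
  have h2 := Real.exp_pos (2 * lam)
  have h3 := Real.exp_pos (-(lam * S / 20))
  have h4 : (1 - c) * Real.exp (lam * (3 * y - y ^ 2 - 2) - lam * S / 20) ≤
      Real.exp (-(lam * S / 20)) := by
    have h5 := mul_le_mul_of_nonneg_left h1 (sub_nonneg.2 hc1)
    nlinarith only [hc, h3, h5]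
  have h6 := mul_le_mul_of_nonneg_left h4 h2.le
  nlinarith only [h6]

end value

/-! ### the state -/

section state

variable {X : Type} [Fintype X] [DecidableEq X] {A : Pa X} {κs g₀ Λ Lc hK kI : ℝ}
  {T : Cfg X} {Qr D : Finset X} {Go : Matrix X X ℂ}

theorem mass_T (hrun : RunStmt) (hy : A.Hyp κs g₀ Λ Lc hK kI) (st : A.St T Qr Go) {b : X}
    (hb : b ∈ Qr) {θ : ℝ → ℝ} {t₀ ε : ℝ} (hθ : Cut θ t₀ A.t₁ ε) :
    (∀ x, 0 ≤ A.a T b x) ∧ (∑ x ∈ A.al T, A.a T b x ≤ 1) ∧ 0 ≤ A.y θ T b ∧ A.y θ T b ≤ 1 := by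
  have hN := net_T hrun hy st
  have hnn : ∀ v, 0 ≤ nn (A.k T) (A.G T) b v := fun v =>
    mul_nonneg (hN.pos v).le (by positivity)
  have hg : 0 ≤ gam (A.k T) (A.G T) b := Finset.sum_nonneg fun v _ => hnn v
  have ha : ∀ x, 0 ≤ A.a T b x := fun x => div_nonneg (hnn x) hg
  have hs : ∑ x ∈ A.al T, A.a T b x ≤ 1 := by
    have h1 : ∑ x ∈ A.al T, A.a T b x ≤ ∑ x ∈ Finset.univ.erase b, A.a T b x :=
      Finset.sum_le_sum_of_subset_of_nonneg (fun x hx => Finset.mem_erase.2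
        ⟨fun h => b_notin hy st hb (h ▸ hx), Finset.mem_univ _⟩) fun x _ _ => ha x
    refine h1.trans ?_
    unfold Pa.a aa
    rw [← Finset.sum_div]
    exact div_self_le_one _
  refine ⟨ha, hs, Finset.sum_nonneg fun x _ => (hθ.bd _ (ha x)).1, ?_⟩
  exact (Finset.sum_le_sum fun x _ => (hθ.bd _ (ha x)).2).trans hs

omit [Fintype X] in
theorem filt (T : Cfg X) (D : Finset X) :
    (A.al T).filter (fun v => ∀ c : D, (c : X) ≠ v) = A.al T \ D := by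
  ext v
  simp only [Finset.mem_filter, Finset.mem_sdiff]
  constructor
  · rintro ⟨h1, h2⟩
    exact ⟨h1, fun h => h2 ⟨v, h⟩ rfl⟩
  · rintro ⟨h1, h2⟩
    exact ⟨h1, fun c h => h2 (h ▸ c.2)⟩

/-- the functional along the run -/
def uu (A : Pa X) (T : Cfg X) (D Qr : Finset X) (Go : Matrix X X ℂ) (r : ℝ × (D → ℝ)) : ℝ :=
  (A.W T D Qr).U (kr A.η A.e0 A.v T D r.1) Go r.1 (Gk A.Hm A.η A.e0 A.v T D r)

theorem uu_end (hrun : RunStmt) (hy : A.Hyp κs g₀ Λ Lc hK kI) (st : A.St T Qr Go)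
    (hD : D ⊆ A.al T) (V : D → ℝ) : uu A T D Qr Go (A.v, V) = A.Ue T D Qr Go (ext D V) := by
  obtain ⟨_, _, _, h4, _⟩ := run_st hrun hy st hD
  obtain ⟨h5, h6⟩ := h4 (ext D V)
  rw [ext_res] at h5
  unfold uu Pa.Ue
  simp only
  rw [h5, h6]

omit [Fintype X] [DecidableEq X] in
theorem mx_mono {κ : X → ℝ} (hκ : ∀ x, 0 ≤ κ x) {S S' : Finset X} (h : S ⊆ S')
    (G G' : Matrix X X ℂ) (x : X) : mx κ S G G' x ≤ mx κ S' G G' x :=
  Finset.sum_le_sum_of_subset_of_nonneg h fun y _ _ => mul_nonneg (hκ y) (by positivity)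

omit [Fintype X] [DecidableEq X] in
theorem mx_nonneg {κ : X → ℝ} (hκ : ∀ x, 0 ≤ κ x) (S : Finset X)
    (G G' : Matrix X X ℂ) (x : X) : 0 ≤ mx κ S G G' x :=
  Finset.sum_nonneg fun y _ => mul_nonneg (hκ y) (by positivity)

theorem MM_mono {κ : X → ℝ} (hκ : ∀ x, 0 ≤ κ x) {S S' : Finset X} (h : S ⊆ S')
    (G G' : Matrix X X ℂ) : MM κ S G G' ≤ MM κ S' G G' := by
  unfold MM
  refine (Finset.sum_le_sum fun x _ => mul_le_mul_of_nonneg_left (mx_mono hκ h G G' x) (hκ x)).trans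
    ?_
  exact Finset.sum_le_sum_of_subset_of_nonneg h fun y _ _ =>
    mul_nonneg (hκ y) (mx_nonneg hκ _ _ _ _)

theorem uu_start (hrun : RunStmt) (hy : A.Hyp κs g₀ Λ Lc hK kI) (st : A.St T Qr Go)
    (hD : D ⊆ A.al T) : uu A T D Qr Go (0, 0) ≤ A.U T Qr Go := by
  obtain ⟨_, h2, h3, _, _⟩ := run_st hrun hy st hD
  have hk : ∀ x, 0 ≤ A.k T x := fun x => (net_T hrun hy st).pos x |>.le
  have e1 : Gk A.Hm A.η A.e0 A.v T D (0, 0) = A.G T := h2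
  unfold uu
  simp only
  rw [e1, h3]
  unfold Rn.U Pa.U
  simp only [mul_zero, sub_zero]
  have hsub : A.al T \ D ⊆ A.al T := Finset.sdiff_subset
  refine add_le_add (add_le_add ?_ ?_) ?_
  · exact le_rfl
  · refine Finset.sum_le_sum fun x _ => Real.exp_le_exp.2 ?_
    have := mul_le_mul_of_nonneg_left (mx_mono hk hsub (A.G T) Go x) hy.pos.2.2.2.2.2.2.2.2.1.le
    show A.bum T x + A.lm * (mx (A.k T) (A.al T \ D) (A.G T) Go x - A.εm) ≤ _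
    nlinarith only [this]
  · refine Real.exp_le_exp.2 ?_
    have := mul_le_mul_of_nonneg_left (MM_mono hk hsub (A.G T) Go)
      hy.pos.2.2.2.2.2.2.2.2.2.2.2.1.le
    show A.buM T + A.lM * (MM (A.k T) (A.al T \ D) (A.G T) Go - A.εM) ≤ _
    nlinarith only [this]

/-- the mass after the run is measurable -/
theorem meas_y (hrun : RunStmt) (hy : A.Hyp κs g₀ Λ Lc hK kI) (st : A.St T Qr Go)
    (hD : D ⊆ A.al T) (hal : ∀ ζ, A.al (T.kl D ζ) = A.al T \ D) (b : X) {θ : ℝ → ℝ}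
    (hθ : Continuous θ) : Measurable fun ζ : X → ℝ => A.y θ (T.kl D ζ) b := by
  obtain ⟨_, _, _, h4, h5⟩ := run_st hrun hy st hD
  have h6 : (fun ζ : X → ℝ => A.y θ (T.kl D ζ) b) = fun ζ => ∑ x ∈ A.al T \ D,
      θ (kr A.η A.e0 A.v T D A.v x * ‖A.G (T.kl D ζ) x b‖ ^ 2 / ∑ v ∈ Finset.univ.erase b,
        kr A.η A.e0 A.v T D A.v v * ‖A.G (T.kl D ζ) v b‖ ^ 2) := by
    funext ζ
    unfold Pa.y Pa.a aa gam nn
    rw [hal ζ, ← (h4 ζ).2]
  rw [h6]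
  refine Finset.measurable_sum _ fun x _ => hθ.measurable.comp ?_
  refine Measurable.div ?_ (Finset.measurable_sum _ fun v _ => ?_)
  · exact ((h5 x b).norm.pow_const 2).const_mul _
  · exact ((h5 v b).norm.pow_const 2).const_mul _

theorem yn_end (hrun : RunStmt) (hy : A.Hyp κs g₀ Λ Lc hK kI) (st : A.St T Qr Go)
    (hD : D ⊆ A.al T) (hal : ∀ ζ, A.al (T.kl D ζ) = A.al T \ D) (b : X) (θ : ℝ → ℝ) (V : D → ℝ) :
    yn (fun c : D => (c : X)) θ (A.al T) (kr A.η A.e0 A.v T D A.v)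
      (Gk A.Hm A.η A.e0 A.v T D (A.v, V)) b = A.y θ (T.kl D (ext D V)) b := by
  obtain ⟨_, _, _, h4, _⟩ := run_st hrun hy st hD
  obtain ⟨h5, h6⟩ := h4 (ext D V)
  rw [ext_res] at h5
  unfold yn
  rw [h5, h6, filt]
  unfold Pa.y
  rw [hal]
  rfl

end state

end Pool.Agent.ATT.H38
end
end -- Pool.Agent.Helper38_ATT.PhB

section -- Pool.Agent.Helper38_ATT.PhC

/-!
# The phase: a round with a large killed mass
-/

set_option autoImplicit false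

open MeasureTheory ProbabilityTheory Function Filter

open scoped ENNReal BigOperators Topology NNReal Matrix

noncomputable section

namespace Pool.Agent.ATT.H38

open Pool.Agent.LE.QF (HJ HM gG LL dC)
open Pool.Agent.KIL (KJ KGd Cut gam nn aa yn ym cu Ph Kr1Body)
open Pool.Agent.ANP (Cfg gm Att)

/-- the hypotheses on the other rows -/
structure Rows : Prop where
  run : RunStmt
  gok : GokStmt
  msr : MsrStmt
  stk : StkStmt
  cup : CupStmt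
  geq : ANR.GeqStmt
  dir : ANR.DirStmt

theorem lint3 {Ω : Type} [MeasurableSpace Ω] (μ : Measure Ω) [IsProbabilityMeasure μ]
    (c₁ c₂ c₃ : ℝ≥0∞) (f g : Ω → ℝ≥0∞) (hf : Measurable f) (hg : Measurable g) :
    ∫⁻ x, (c₁ + c₂ * f x + c₃ * g x) ∂μ = c₁ + c₂ * ∫⁻ x, f x ∂μ + c₃ * ∫⁻ x, g x ∂μ := by
  rw [lintegral_add_right _ (hg.const_mul _), lintegral_add_right _ (hf.const_mul _),
    lintegral_const, measure_univ, mul_one, lintegral_const_mul _ hf, lintegral_const_mul _ hg]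

variable {X : Type} [Fintype X] [DecidableEq X]

theorem round (H : Rows) {lam B ε₀ C : ℝ} (hb1 : Kr1Body ε₀ lam C B) (hlam : 0 < lam)
    (hB : 1 ≤ B) (A : Pa X) {κs g₀ Λ Lc hK kI : ℝ} (hy : A.Hyp κs g₀ Λ Lc hK kI) (T : Cfg X)
    (Qr D : Finset X) (Go : Matrix X X ℂ) (b : X) (st : A.St T Qr Go) (hb : b ∈ Qr)
    (hD : D ⊆ A.al T) (hDk : D ⊆ A.Rk) (hN : (A.kd T).card + D.card ≤ A.N)
    (hcut : ∀ c ∈ A.al T, A.k A.T₀ b * ‖A.G A.T₀ b c‖ ^ 2 ≤ hK)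
    (hgam : gam (A.k T) (A.G T) b ≠ 0) (t₀ ε ρ S r a M : ℝ) (θ : ℝ → ℝ) (hθ : Cut θ t₀ A.t₁ ε)
    (ht₀ : 0 < t₀) (ht : t₀ ≤ A.t₁) (ht1 : A.t₁ ≤ 1) (hε : 0 ≤ ε) (hε0 : ε ≤ ε₀)
    (hδ : 2 * A.δ / g₀ ≤ ε) (hκ : κs * Real.sqrt (2 / t₀ * Lc) / g₀ ≤ ε ^ 2)
    (hβ : C * A.δ ^ 2 * Real.sqrt (1 / t₀ * Real.sqrt (1 / t₀ * Lc)) / g₀ * A.v ≤ lam * ρ / 20)
    (hρ : 0 < ρ) (hr : r = ∑ x ∈ D, A.a T b x) (hDt : ∀ x ∈ D, A.t₁ ≤ A.a T b x)
    (hrρ : ρ ≤ r) (hS : 40 * r ≤ S) (ha : 0 ≤ a) (hM : 0 ≤ M) (Okf : Cfg X → Prop)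
    (hcont : ∀ ζ, Att A.Rk A.Q A.val Okf (T.kl D ζ) (ENNReal.ofReal (val lam B a M (S - r)
      (cu (A.U (T.kl D ζ) Qr Go)) (A.y θ (T.kl D ζ) b)))) :
    Att A.Rk A.Q A.val Okf T (ENNReal.ofReal (val lam B a M S (cu (A.U T Qr Go)) (A.y θ T b))) := by
  obtain ⟨q1, q2, q3, q4, q5⟩ := run_st H.run hy st hD
  obtain ⟨s1, s2, s3, s4⟩ := H.stk X A κs g₀ Λ Lc hK kI hy T Qr D Go st hD hDk hN
  obtain ⟨c1, c2, c3, c4, c5⟩ := H.cup
  have hal : ∀ ζ, A.al (T.kl D ζ) = A.al T \ D := fun ζ => (s1 ζ).2.2.2.2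
  have hv : (0 : ℝ) < A.v := by exact_mod_cast hy.pos.2.2.1
  have hDv : ∀ c ∈ D, T.s c = A.v := fun c hc => (st_al st (hD hc)).2
  have hgok := H.gok X A κs g₀ Λ Lc hK kI hy T Qr D Go b st hb hD hN hcut
  obtain ⟨m1, m2, m3, m4⟩ := mass_T H.run hy st hb hθ
  -- the number of killed sites
  have hcard : (Fintype.card D : ℝ) ≤ 1 / t₀ := by
    rw [Fintype.card_coe, le_div_iff₀ ht₀]
    calc (D.card : ℝ) * t₀ = ∑ x ∈ D, t₀ := by rw [Finset.sum_const, nsmul_eq_mul]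
      _ ≤ ∑ x ∈ D, A.a T b x := Finset.sum_le_sum fun x hx => ht.trans (hDt x hx)
      _ ≤ ∑ x ∈ A.al T, A.a T b x := Finset.sum_le_sum_of_subset_of_nonneg hD fun x _ _ => m1 x
      _ ≤ 1 := m2
  set m : ℝ := Real.exp (-(lam * (S - r) / 20)) with hm
  set β : ℝ := C * A.δ ^ 2 * Real.sqrt (1 / t₀ * Real.sqrt (1 / t₀ * Lc)) / g₀ with hβd
  have hm0 : 0 ≤ m := (Real.exp_pos _).le
  have hr0 : 0 < r := lt_of_lt_of_le hρ hrρ
  have hSr : 0 ≤ S - r := by linarith only [hρ, hrρ, hS]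
  have hm1 : m ≤ 1 := by
    rw [hm, Real.exp_le_one_iff]
    have := mul_nonneg hlam.le hSr
    linarith only [this]
  have hmβ : m * Real.exp (β * A.v) ≤ 1 := by
    rw [hm, ← Real.exp_add, Real.exp_le_one_iff]
    have : lam * ρ ≤ lam * (S - r) := mul_le_mul_of_nonneg_left (by linarith only [hρ, hrρ, hS]) hlam.le
    linarith only [hβ, this]
  have key := hb1 D X (fun c : D => (c : X)) (Gk A.Hm A.η A.e0 A.v T D) (kr A.η A.e0 A.v T D)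
    (fun x => (mg A.η A.e0 A.v T x).im)
    (fun r c => Gk A.Hm A.η A.e0 A.v T D r c c - mg A.η A.e0 A.v T c) (A.al T) b A.v κs g₀ A.δ Lc t₀
    A.t₁ ε β m θ (uu A T D Qr Go) (fun _ => 0) hv ht₀ ht ht1 hε hε0 hθ continuous_const
    (fun _ => le_rfl) hcard hδ hκ rfl hm0 hmβ (fun q h0 h1 => ?_) (fun c => hD c.2)
    (b_notin hy st hb)
  swap
  · obtain ⟨g1, g2, g3⟩ := hgok q h0 h1
    exact ⟨(q1 q h0 h1).1, fun v => ((q1 q h0 h1).2 v).le,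
      gam_run H.run H.geq H.dir hy st hD hgam q h0 h1, g1, g2, fun hlt =>
        ⟨(g3 hlt).1, (g3 hlt).2.1⟩⟩
  -- the function after the run
  set h : (X → ℝ) → ℝ := fun ζ => (1 - cu (A.Ue T D Qr Go ζ)) * (m * Real.exp (lam *
    (3 * A.y θ (T.kl D ζ) b - A.y θ (T.kl D ζ) b ^ 2 - 2))) + B * cu (A.Ue T D Qr Go ζ) with hh
  have hUe0 : ∀ ζ, 0 ≤ A.Ue T D Qr Go ζ := fun ζ => (s1 ζ).2.1.trans (s1 ζ).2.2.1
  have hy1 : ∀ ζ, 0 ≤ A.y θ (T.kl D ζ) b ∧ A.y θ (T.kl D ζ) b ≤ 1 := fun ζ =>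
    (mass_T H.run hy (s1 ζ).1 hb hθ).2.2
  have hE1 : ∀ ζ, m * Real.exp (lam * (3 * A.y θ (T.kl D ζ) b - A.y θ (T.kl D ζ) b ^ 2 - 2)) =
      Real.exp (lam * (3 * A.y θ (T.kl D ζ) b - A.y θ (T.kl D ζ) b ^ 2 - 2) -
        lam * (S - r) / 20) := by
    intro ζ
    rw [hm, ← Real.exp_add]
    congr 1
    ring
  have hE2 : ∀ ζ, m * Real.exp (lam * (3 * A.y θ (T.kl D ζ) b - A.y θ (T.kl D ζ) b ^ 2 - 2)) ≤ 1 :=
    fun ζ => by rw [hE1]; exact exp_le_one' hlam (hy1 ζ).2 hSr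
  have hE0 : ∀ ζ, 0 ≤ m * Real.exp (lam * (3 * A.y θ (T.kl D ζ) b -
      A.y θ (T.kl D ζ) b ^ 2 - 2)) := fun ζ => mul_nonneg hm0 (Real.exp_pos _).le
  have hcu : Measurable cu := c1.continuous.measurable
  have hmeasy := meas_y H.run hy st hD hal b hθ.sm.continuous
  have hhm : Measurable h := by
    rw [hh]
    have e1 : Measurable fun ζ => cu (A.Ue T D Qr Go ζ) := hcu.comp s3
    exact ((measurable_const.sub e1).mul (measurable_const.mul (Real.measurable_exp.comp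
      (measurable_const.mul (((measurable_const.mul hmeasy).sub (hmeasy.pow_const 2)).sub
        measurable_const))))).add (measurable_const.mul e1)
  have hh0 : ∀ ζ, 0 ≤ h ζ := by
    intro ζ
    obtain ⟨d1, d2, _⟩ := c3 _ (hUe0 ζ)
    exact add_nonneg (mul_nonneg (sub_nonneg.2 d2) (hE0 ζ)) (mul_nonneg (by linarith only [hB]) d1)
  have hh1 : ∀ ζ, h ζ ≤ 1 + B := by
    intro ζ
    obtain ⟨d1, d2, _⟩ := c3 _ (hUe0 ζ)
    have e1 : (1 - cu (A.Ue T D Qr Go ζ)) * (m * Real.exp (lam *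
      (3 * A.y θ (T.kl D ζ) b - A.y θ (T.kl D ζ) b ^ 2 - 2))) ≤ 1 * 1 :=
      mul_le_mul (by linarith only [d1]) (hE2 ζ) (hE0 ζ) zero_le_one
    have e2 : B * cu (A.Ue T D Qr Go ζ) ≤ B * 1 := mul_le_mul_of_nonneg_left d2 (by linarith only [hB])
    simp only [hh]
    linarith only [e1, e2]
  have hres : ∀ ζ ζ', (∀ c ∈ D, ζ c = ζ' c) → h ζ = h ζ' := by
    intro ζ ζ' hz
    simp only [hh, Pa.Ue, kl_congr T D ζ ζ' hz]
  have hint := lint_real H.msr T D A.v hDv h hhm (1 + B) hh0 hh1 hres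
  have e1 : ∫ V, h (ext D V) ∂(Measure.pi fun _ : D => gaussianReal 0 A.v) =
      ∫ V, ((1 - cu (uu A T D Qr Go (A.v, V))) * (m * Real.exp (lam * (3 * yn (fun c : D => (c : X)) θ
        (A.al T) (kr A.η A.e0 A.v T D A.v) (Gk A.Hm A.η A.e0 A.v T D (A.v, V)) b -
          yn (fun c : D => (c : X)) θ (A.al T) (kr A.η A.e0 A.v T D A.v)
            (Gk A.Hm A.η A.e0 A.v T D (A.v, V)) b ^ 2 - 2))) + B * cu (uu A T D Qr Go (A.v, V)))
          ∂(Measure.pi fun _ : D => gaussianReal 0 (A.v : ℝ).toNNReal) := by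
    rw [Real.toNNReal_coe]
    refine integral_congr_ae (Eventually.of_forall fun V => ?_)
    simp only [hh]
    rw [uu_end H.run hy st hD V, yn_end H.run hy st hD hal b θ V]
  rw [e1] at hint
  -- the value at the start
  have hc0 : 0 ≤ uu A T D Qr Go (0, 0) := (hgok (0, 0) le_rfl hv.le).1
  have hcm : cu (uu A T D Qr Go (0, 0)) ≤ cu (A.U T Qr Go) := c2 (uu_start H.run hy st hD)
  have hUT0 : 0 ≤ A.U T Qr Go := hc0.trans (uu_start H.run hy st hD)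
  obtain ⟨d1, d2, _⟩ := c3 _ hc0
  obtain ⟨d3, d4, _⟩ := c3 _ hUT0
  have hPh : Ph (fun c : D => (c : X)) θ (A.al T) (kr A.η A.e0 A.v T D 0)
      (Gk A.Hm A.η A.e0 A.v T D (0, 0)) b = 3 * A.y θ T b - A.y θ T b ^ 2 - r / 10 := by
    have f1 : Gk A.Hm A.η A.e0 A.v T D (0, 0) = A.G T := q2
    have f2 : ∑ c : D, aa (A.k T) (A.G T) b c = r := by
      rw [hr]
      exact Finset.sum_coe_sort D (fun x => aa (A.k T) (A.G T) b x)
    have f3 : ym (fun c : D => (c : X)) θ (A.al T) (A.k T) (A.G T) b = A.y θ T b := by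
      unfold ym
      rw [filt, f2, hr]
      unfold Pa.y
      rw [← Finset.sum_sdiff hD, add_comm]
      congr 1
      exact Finset.sum_congr rfl fun x hx => (hθ.hi _ (hDt x hx)).symm
    unfold Ph
    rw [f1, q3, f2, f3]
  rw [hPh] at key
  simp only [intervalIntegral.integral_zero, mul_zero, add_zero] at key
  have hstart : (1 - cu (uu A T D Qr Go (0, 0))) * (m * Real.exp (β * A.v +
      lam * (3 * A.y θ T b - A.y θ T b ^ 2 - r / 10 - 2))) + B * cu (uu A T D Qr Go (0, 0)) ≤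
      (1 - cu (A.U T Qr Go)) * Real.exp (lam * (3 * A.y θ T b - A.y θ T b ^ 2 - 2) - lam * S / 20) +
        B * cu (A.U T Qr Go) := by
    have f1 : m * Real.exp (β * A.v + lam * (3 * A.y θ T b - A.y θ T b ^ 2 - r / 10 - 2)) ≤
        Real.exp (lam * (3 * A.y θ T b - A.y θ T b ^ 2 - 2) - lam * S / 20) := by
      rw [hm, ← Real.exp_add]
      refine Real.exp_le_exp.2 ?_
      have : lam * ρ ≤ lam * r := mul_le_mul_of_nonneg_left hrρ hlam.le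
      linarith only [hβ, this]
    have f2 := exp_le_one' (y := A.y θ T b) (S := S) hlam m4 (by linarith only [hρ, hrρ, hS])
    have f3 := mul_le_mul_of_nonneg_left f1 (sub_nonneg.2 d2)
    nlinarith only [hB, hcm, f2, f3]
  have hfin := key.trans hstart
  -- the kill
  have hatt := Att.kill (R := A.Rk) (Q := A.Q) (v := A.val) (Ok := Okf) T D (fun ζ =>
    ENNReal.ofReal a + ENNReal.ofReal M * ENNReal.ofReal (cu (A.Ue T D Qr Go ζ)) +
      ENNReal.ofReal (Real.exp (2 * lam)) * ENNReal.ofReal (h ζ)) hDk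
    (fun x hx => by rw [hDv x hx]; exact hy.pos.2.2.1) ?_ ?_
  · refine Att.mono T _ _ ?_ hatt
    have g1 : Measurable fun ζ => ENNReal.ofReal (cu (A.Ue T D Qr Go ζ)) :=
      ENNReal.measurable_ofReal.comp (hcu.comp s3)
    have g2 : Measurable fun ζ => ENNReal.ofReal (h ζ) := ENNReal.measurable_ofReal.comp hhm
    rw [lint3 _ _ _ _ _ _ g1 g2, hint]
    unfold val
    rw [ENNReal.ofReal_add (by positivity) (mul_nonneg (Real.exp_pos _).le (add_nonneg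
      (mul_nonneg (sub_nonneg.2 d4) (Real.exp_pos _).le) (mul_nonneg (by linarith only [hB]) d3))),
      ENNReal.ofReal_add ha (mul_nonneg hM d3), ENNReal.ofReal_mul hM,
      ENNReal.ofReal_mul (Real.exp_pos _).le]
    gcongr
  · have g1 : Measurable fun ζ => ENNReal.ofReal (cu (A.Ue T D Qr Go ζ)) :=
      ENNReal.measurable_ofReal.comp (hcu.comp s3)
    have g2 : Measurable fun ζ => ENNReal.ofReal (h ζ) := ENNReal.measurable_ofReal.comp hhm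
    exact (measurable_const.add (g1.const_mul _)).add (g2.const_mul _)
  · intro ζ
    refine Att.mono _ _ _ ?_ (hcont ζ)
    obtain ⟨e3, e4, _⟩ := c3 _ (hUe0 ζ)
    have f1 := val_mono (a := a) (M := M) (S := S - r) (y := A.y θ (T.kl D ζ) b) hlam hB hM
      (hy1 ζ).2 hSr (c2 (s1 ζ).2.2.1)
    refine (ENNReal.ofReal_le_ofReal f1).trans ?_
    unfold val
    rw [← hE1 ζ, ENNReal.ofReal_add (by positivity) (mul_nonneg (Real.exp_pos _).le (hh0 ζ)),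
      ENNReal.ofReal_add ha (mul_nonneg hM e3), ENNReal.ofReal_mul hM,
      ENNReal.ofReal_mul (Real.exp_pos _).le]

end Pool.Agent.ATT.H38
end
end -- Pool.Agent.Helper38_ATT.PhC

section -- Pool.Agent.Helper38_ATT.PhD

/-!
# The phase: the last round
-/

set_option autoImplicit false

open MeasureTheory ProbabilityTheory Function Filter

open scoped ENNReal BigOperators Topology NNReal Matrix

noncomputable section

namespace Pool.Agent.ATT.H38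

open Pool.Agent.LE.QF (HJ HM gG LL dC)
open Pool.Agent.KIL (KJ KGd Cut gam nn aa yn ym cu Ph uL KlrStmt)
open Pool.Agent.ANP (Cfg gm Att)

variable {X : Type} [Fintype X] [DecidableEq X]

/-- the functional of the last round at the end -/
def uE (A : Pa X) (T : Cfg X) (D : Finset X) (b : X) (ρ : ℝ) (j : ℕ) (ζ : X → ℝ) : ℝ :=
  uL (fun c : D => (c : X)) (A.al T \ D) (j / (4 * ρ)) ρ A.t₁ j (A.k (T.kl D ζ))
    (A.G (T.kl D ζ)) b

theorem meas_uE (hrun : RunStmt) {A : Pa X} {κs g₀ Λ Lc hK kI : ℝ}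
    (hy : A.Hyp κs g₀ Λ Lc hK kI) {T : Cfg X} {Qr D : Finset X} {Go : Matrix X X ℂ}
    (st : A.St T Qr Go) (hD : D ⊆ A.al T) (b : X) (ρ : ℝ) (j : ℕ) :
    Measurable (uE A T D b ρ j) := by
  obtain ⟨_, _, _, h4, h5⟩ := run_st hrun hy st hD
  have h6 : ∀ x, Measurable fun ζ : X → ℝ => aa (A.k (T.kl D ζ)) (A.G (T.kl D ζ)) b x := by
    intro x
    have h7 : (fun ζ : X → ℝ => aa (A.k (T.kl D ζ)) (A.G (T.kl D ζ)) b x) = fun ζ =>
      kr A.η A.e0 A.v T D A.v x * ‖A.G (T.kl D ζ) x b‖ ^ 2 / ∑ v ∈ Finset.univ.erase b,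
        kr A.η A.e0 A.v T D A.v v * ‖A.G (T.kl D ζ) v b‖ ^ 2 := by
      funext ζ
      unfold aa gam nn
      rw [← (h4 ζ).2]
    rw [h7]
    refine Measurable.div ?_ (Finset.measurable_sum _ fun v _ => ?_)
    · exact ((h5 x b).norm.pow_const 2).const_mul _
    · exact ((h5 v b).norm.pow_const 2).const_mul _
  have h8 : Measurable fun ζ : X → ℝ => ∑ c : D, aa (A.k (T.kl D ζ)) (A.G (T.kl D ζ)) b c :=
    Finset.measurable_sum _ fun c _ => h6 c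
  unfold uE uL
  refine Measurable.add ?_ (Measurable.mul ?_ ?_)
  · exact Real.measurable_exp.comp (measurable_const.mul (h8.sub_const _))
  · exact Real.measurable_exp.comp (measurable_const.mul h8)
  · exact Finset.measurable_sum _ fun v _ => (((h6 v).add_const _).div_const _).pow_const _

theorem last (H : Rows) (hklr : KlrStmt) (A : Pa X) {κs g₀ Λ Lc hK kI : ℝ}
    (hy : A.Hyp κs g₀ Λ Lc hK kI) (T : Cfg X)
    (Qr D : Finset X) (Go : Matrix X X ℂ) (b : X) (st : A.St T Qr Go) (hb : b ∈ Qr)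
    (hD : D ⊆ A.al T) (hDk : D ⊆ A.Rk) (hN : (A.kd T).card + D.card ≤ A.N)
    (hcut : ∀ c ∈ A.al T, A.k A.T₀ b * ‖A.G A.T₀ b c‖ ^ 2 ≤ hK)
    (hgam : gam (A.k T) (A.G T) b ≠ 0) (hDn : D.Nonempty) (ρ ε bL a M : ℝ) (j : ℕ)
    (ht1 : A.t₁ ≤ 1) (hρ : 0 < ρ) (hj : 1 ≤ j) (hε : 0 ≤ ε) (hε1 : ε ≤ 1 / 16)
    (hδ : 2 * A.δ / g₀ ≤ ε) (hκ : κs * Real.sqrt (1 / A.t₁ * Lc) / g₀ ≤ ε ^ 2)
    (hn1 : j * (4 * ε ^ 2 + 16 * ρ) ≤ 1 / 8)
    (hn2 : 300 * j * (2 * (κs * kI / g₀) / A.t₁ + 1) * ρ ≤ 1)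
    (hn3 : 20 * j * A.δ ^ 2 * Real.sqrt (1 / A.t₁ * Real.sqrt (1 / A.t₁ * Lc)) / (ρ * g₀) +
        128 * j * ρ * A.δ ^ 2 * (1 / A.t₁) * (κs * kI / g₀) / A.t₁ ≤ bL)
    (hDt : ∀ x ∈ D, A.t₁ ≤ A.a T b x) (hDt' : ∀ x ∈ A.al T \ D, A.a T b x ≤ A.t₁)
    (hr : ∑ x ∈ D, A.a T b x ≤ ρ) (ha : 0 ≤ a) (hM : 0 ≤ M) (Okf : Cfg X → Prop)
    (hcont : ∀ ζ, A.U (T.kl D ζ) Qr Go < 1 →
      (∀ x ∈ A.al (T.kl D ζ), A.a (T.kl D ζ) b x ≤ 2 * A.t₁) →
      Att A.Rk A.Q A.val Okf (T.kl D ζ) (ENNReal.ofReal (a + M * cu (A.U (T.kl D ζ) Qr Go)))) :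
    Att A.Rk A.Q A.val Okf T (ENNReal.ofReal (a + 3 * Real.exp (A.v * bL) *
      ((1 + A.R.card) * Real.exp (-(j : ℝ) / 5)) + (M + 1) * cu (A.U T Qr Go))) := by
  obtain ⟨q1, q2, q3, q4, q5⟩ := run_st H.run hy st hD
  obtain ⟨s1, s2, s3, s4⟩ := H.stk X A κs g₀ Λ Lc hK kI hy T Qr D Go st hD hDk hN
  obtain ⟨c1, c2, c3, c4, c5⟩ := H.cup
  have hal : ∀ ζ, A.al (T.kl D ζ) = A.al T \ D := fun ζ => (s1 ζ).2.2.2.2
  have hv : (0 : ℝ) < A.v := by exact_mod_cast hy.pos.2.2.1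
  have ht₁ : 0 < A.t₁ := hy.pos.2.2.2.2.1
  have hg₀ : 0 < g₀ := hy.pos.2.2.2.1
  have hDv : ∀ c ∈ D, T.s c = A.v := fun c hc => (st_al st (hD hc)).2
  have hgok := H.gok X A κs g₀ Λ Lc hK kI hy T Qr D Go b st hb hD hN hcut
  have hNet := net_T H.run hy st
  have hann : ∀ (T' : Cfg X), A.St T' Qr Go → ∀ x, 0 ≤ A.a T' b x := by
    intro T' st' x
    have hN' := net_T H.run hy st'
    exact div_nonneg (mul_nonneg (hN'.pos x).le (by positivity))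
      (Finset.sum_nonneg fun v _ => mul_nonneg (hN'.pos v).le (by positivity))
  have m1 := hann T st
  have m2 : ∑ x ∈ A.al T, A.a T b x ≤ 1 := by
    have h1 : ∑ x ∈ A.al T, A.a T b x ≤ ∑ x ∈ Finset.univ.erase b, A.a T b x :=
      Finset.sum_le_sum_of_subset_of_nonneg (fun x hx => Finset.mem_erase.2
        ⟨fun h => b_notin hy st hb (h ▸ hx), Finset.mem_univ _⟩) fun x _ _ => m1 x
    refine h1.trans ?_
    unfold Pa.a aa
    rw [← Finset.sum_div]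
    exact div_self_le_one _
  -- the number of killed sites
  have hcard : (Fintype.card D : ℝ) ≤ 1 / A.t₁ := by
    rw [Fintype.card_coe, le_div_iff₀ ht₁]
    calc (D.card : ℝ) * A.t₁ = ∑ x ∈ D, A.t₁ := by rw [Finset.sum_const, nsmul_eq_mul]
      _ ≤ ∑ x ∈ D, A.a T b x := Finset.sum_le_sum fun x hx => hDt x hx
      _ ≤ ∑ x ∈ A.al T, A.a T b x := Finset.sum_le_sum_of_subset_of_nonneg hD fun x _ _ => m1 x
      _ ≤ 1 := m2
  obtain ⟨x₀, hx₀⟩ := hDn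
  have hx₀R : x₀ ∈ A.R := al_sub (hD hx₀)
  have hκs : 0 ≤ κs := by
    have h1 := (hy.hR x₀ hx₀R).2.2
    have h2 : 0 ≤ A.k A.T₀ x₀ := by
      unfold Pa.k ka
      split_ifs with h
      · exact hy.pos.1.le
      · have h3 := hy.pimb x₀ (pos_iff_ne_zero.2 h)
        have h4 := hy.pos.1.le.trans hy.pos.2.1
        positivity
    linarith only [h1, h2]
  have hkI : 0 ≤ kI := (sq_nonneg _).trans (hy.ent x₀ hx₀R x₀ hx₀R)
  have hLc : 0 ≤ Lc := by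
    have h1 := hy.lc x₀ hx₀R
    have h2 : 0 ≤ Λ := (Finset.sum_nonneg fun y _ => by positivity).trans (hy.lam x₀ hx₀R)
    have h3 : 0 < A.v * g₀ := mul_pos hv hg₀
    refine le_trans ?_ h1
    positivity
  have hc0 : (0 : ℝ) ≤ Fintype.card D := Nat.cast_nonneg _
  have hh0 : 0 ≤ κs * kI / g₀ := by positivity
  have hbL : 0 ≤ bL := by
    refine le_trans ?_ hn3
    positivity
  have key := hklr D X (fun c : D => (c : X)) (Gk A.Hm A.η A.e0 A.v T D) (kr A.η A.e0 A.v T D)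
    (fun x => (mg A.η A.e0 A.v T x).im)
    (fun r c => Gk A.Hm A.η A.e0 A.v T D r c c - mg A.η A.e0 A.v T c) (A.al T) (A.al T \ D) b A.v κs
    g₀ A.δ Lc kI A.t₁ ρ ε (κs * kI / g₀) bL (j / (4 * ρ)) j (uu A T D Qr Go) (fun _ => 0) hv
    Finset.sdiff_subset (fun c hc => (Finset.mem_sdiff.1 hc).2 c.2) (fun c => hD c.2)
    (b_notin hy st hb) hkI hj ht₁ ht1 hρ hε hε1 hδ
    (le_trans (by gcongr) hκ) rfl rfl hn1 hn2 hbL (le_trans (by gcongr) hn3) continuous_const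
    (fun _ => le_rfl) (fun q h0 h1 => ?_) ?_ ?_
  rotate_left
  · obtain ⟨g1, g2, g3⟩ := hgok q h0 h1
    exact ⟨(q1 q h0 h1).1, fun v => ((q1 q h0 h1).2 v).le,
      gam_run H.run H.geq H.dir hy st hD hgam q h0 h1, g1, g2, fun hlt =>
        ⟨(g3 hlt).1, (g3 hlt).2.1, fun v hv c => (g3 hlt).2.2 v (Finset.mem_sdiff.1 hv).1 c⟩⟩
  · have f1 : Gk A.Hm A.η A.e0 A.v T D (0, 0) = A.G T := q2
    rw [f1, q3]
    refine le_trans (le_of_eq ?_) hr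
    exact Finset.sum_coe_sort D (fun x => aa (A.k T) (A.G T) b x)
  · have f1 : Gk A.Hm A.η A.e0 A.v T D (0, 0) = A.G T := q2
    rw [f1, q3]
    exact hDt'
  -- the function after the run
  set h : (X → ℝ) → ℝ := fun ζ => cu (A.Ue T D Qr Go ζ + uE A T D b ρ j ζ) with hh
  have hUe0 : ∀ ζ, 0 ≤ A.Ue T D Qr Go ζ := fun ζ => (s1 ζ).2.1.trans (s1 ζ).2.2.1
  have huE0 : ∀ ζ, 0 ≤ uE A T D b ρ j ζ := by
    intro ζ
    unfold uE uL
    refine add_nonneg (Real.exp_pos _).le (mul_nonneg (Real.exp_pos _).le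
      (Finset.sum_nonneg fun v _ => pow_nonneg (div_nonneg ?_ (by positivity)) _))
    have := hann _ (s1 ζ).1 v
    unfold Pa.a at this
    linarith only [ht₁, this]
  have hcu : Measurable cu := c1.continuous.measurable
  have hhm : Measurable h := hcu.comp (s3.add (meas_uE H.run hy st hD b ρ j))
  have hh0' : ∀ ζ, 0 ≤ h ζ := fun ζ => (c3 _ (add_nonneg (hUe0 ζ) (huE0 ζ))).1
  have hh1 : ∀ ζ, h ζ ≤ 1 := fun ζ => (c3 _ (add_nonneg (hUe0 ζ) (huE0 ζ))).2.1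
  have hres : ∀ ζ ζ', (∀ c ∈ D, ζ c = ζ' c) → h ζ = h ζ' := by
    intro ζ ζ' hz
    simp only [hh, Pa.Ue, uE, kl_congr T D ζ ζ' hz]
  have hint := lint_real H.msr T D A.v hDv h hhm 1 hh0' hh1 hres
  have e1 : ∫ V, h (ext D V) ∂(Measure.pi fun _ : D => gaussianReal 0 A.v) =
      ∫ V, cu (uu A T D Qr Go (A.v, V) + uL (fun c : D => (c : X)) (A.al T \ D) (j / (4 * ρ)) ρ A.t₁ j
        (kr A.η A.e0 A.v T D A.v) (Gk A.Hm A.η A.e0 A.v T D (A.v, V)) b)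
          ∂(Measure.pi fun _ : D => gaussianReal 0 (A.v : ℝ).toNNReal) := by
    rw [Real.toNNReal_coe]
    refine integral_congr_ae (Eventually.of_forall fun V => ?_)
    obtain ⟨h5, h6⟩ := q4 (ext D V)
    rw [ext_res] at h5
    simp only [hh]
    rw [uu_end H.run hy st hD V, h5, h6]
    rfl
  rw [e1] at hint
  have hcm : cu (uu A T D Qr Go (0, 0)) ≤ cu (A.U T Qr Go) := c2 (uu_start H.run hy st hD)
  have hUT0 : 0 ≤ A.U T Qr Go :=
    ((hgok (0, 0) le_rfl hv.le).1).trans (uu_start H.run hy st hD)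
  obtain ⟨d3, d4, _⟩ := c3 _ hUT0
  simp only [intervalIntegral.integral_zero, mul_zero, add_zero] at key
  have hB : ((A.al T \ D).card : ℝ) ≤ A.R.card := by
    exact_mod_cast Finset.card_le_card (Finset.sdiff_subset.trans al_sub)
  have hfin : ∫ V, cu (uu A T D Qr Go (A.v, V) + uL (fun c : D => (c : X)) (A.al T \ D)
      (j / (4 * ρ)) ρ A.t₁ j (kr A.η A.e0 A.v T D A.v) (Gk A.Hm A.η A.e0 A.v T D (A.v, V)) b)
          ∂(Measure.pi fun _ : D => gaussianReal 0 (A.v : ℝ).toNNReal) ≤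
      cu (A.U T Qr Go) + 3 * Real.exp (A.v * bL) * ((1 + A.R.card) * Real.exp (-(j : ℝ) / 5)) := by
    refine key.trans (add_le_add hcm ?_)
    gcongr
  -- the kill
  have g1 : Measurable fun ζ => ENNReal.ofReal (cu (A.Ue T D Qr Go ζ)) :=
    ENNReal.measurable_ofReal.comp (hcu.comp s3)
  have g2 : Measurable fun ζ => ENNReal.ofReal (h ζ) := ENNReal.measurable_ofReal.comp hhm
  have hatt := Att.kill (R := A.Rk) (Q := A.Q) (v := A.val) (Ok := Okf) T D (fun ζ =>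
    ENNReal.ofReal a + ENNReal.ofReal M * ENNReal.ofReal (cu (A.Ue T D Qr Go ζ)) +
      1 * ENNReal.ofReal (h ζ)) hDk
    (fun x hx => by rw [hDv x hx]; exact hy.pos.2.2.1)
    ((measurable_const.add (g1.const_mul _)).add (g2.const_mul _)) ?_
  · refine Att.mono T _ _ ?_ hatt
    rw [lint3 _ _ _ _ _ _ g1 g2, hint, one_mul]
    have f1 : a + 3 * Real.exp (A.v * bL) * ((1 + A.R.card) * Real.exp (-(j : ℝ) / 5)) +
        (M + 1) * cu (A.U T Qr Go) = a + M * cu (A.U T Qr Go) + (cu (A.U T Qr Go) +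
          3 * Real.exp (A.v * bL) * ((1 + A.R.card) * Real.exp (-(j : ℝ) / 5))) := by ring
    rw [f1, ENNReal.ofReal_add (by positivity) (by positivity),
      ENNReal.ofReal_add ha (mul_nonneg hM d3), ENNReal.ofReal_mul hM]
    gcongr
  · intro ζ
    obtain ⟨st', u0, u1, _, u3⟩ := s1 ζ
    rcases le_or_gt 1 (A.Ue T D Qr Go ζ + uE A T D b ρ j ζ) with h1 | h1
    · refine Att.mono _ _ _ ?_ (Att.one _)
      have h2 : h ζ = 1 := c4 _ h1
      rw [h2, ENNReal.ofReal_one, one_mul]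
      exact le_add_self
    · have h2 : A.U (T.kl D ζ) Qr Go < 1 := by
        have := huE0 ζ
        linarith only [u1, h1, this]
      have h3 : uE A T D b ρ j ζ < 1 := by
        have := hUe0 ζ
        linarith only [u0, u1, h1]
      have hlight : ∀ x ∈ A.al (T.kl D ζ), A.a (T.kl D ζ) b x ≤ 2 * A.t₁ := by
        intro x hx
        rw [u3] at hx
        by_contra hcon
        rw [not_le] at hcon
        refine absurd h3 (not_lt.2 ?_)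
        have hnn : ∀ v, 0 ≤ aa (A.k (T.kl D ζ)) (A.G (T.kl D ζ)) b v := hann _ st'
        have hpw : ∀ v ∈ A.al T \ D, 0 ≤ ((aa (A.k (T.kl D ζ)) (A.G (T.kl D ζ)) b v + A.t₁ / 2) /
            (5 * A.t₁ / 2)) ^ j := fun v _ =>
          pow_nonneg (div_nonneg (by have := hnn v; linarith only [ht₁, this]) (by positivity)) _
        have h4 : 1 ≤ ((aa (A.k (T.kl D ζ)) (A.G (T.kl D ζ)) b x + A.t₁ / 2) /
            (5 * A.t₁ / 2)) ^ j := by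
          refine one_le_pow₀ ?_
          rw [le_div_iff₀ (by positivity)]
          unfold Pa.a at hcon
          linarith only [hcon]
        have h5 := h4.trans (Finset.single_le_sum hpw hx)
        have h6 : 1 ≤ Real.exp (j / (4 * ρ) * ∑ c : D, aa (A.k (T.kl D ζ)) (A.G (T.kl D ζ)) b c) := by
          refine Real.one_le_exp (mul_nonneg (by positivity) (Finset.sum_nonneg fun c _ => hnn _))
        unfold uE uL
        have h7 := Real.exp_pos (j / (4 * ρ) * (∑ c : D, aa (A.k (T.kl D ζ)) (A.G (T.kl D ζ)) b c -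
          2 * ρ))
        nlinarith only [h5, h6, h7]
      refine Att.mono _ _ _ ?_ (hcont ζ h2 hlight)
      have h4 := (c3 _ u0).1
      rw [ENNReal.ofReal_add ha (mul_nonneg hM h4), ENNReal.ofReal_mul hM]
      refine le_trans ?_ le_self_add
      gcongr
      exact c2 u1

end Pool.Agent.ATT.H38
end
end -- Pool.Agent.Helper38_ATT.PhD

section -- Pool.Agent.Helper38_ATT.Phs

/-!
# The phase of one site
-/

set_option autoImplicit false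

open MeasureTheory ProbabilityTheory Function Filter

open scoped ENNReal BigOperators Topology NNReal Matrix

noncomputable section

namespace Pool.Agent.ATT.H38

open Pool.Agent.LE.QF (HJ HM gG LL dC)
open Pool.Agent.KIL (KJ KGd Cut gam nn aa yn ym cu Ph uL KlrStmt Kr1Stmt Kr1Body KthStmt)
open Pool.Agent.ANP (Cfg gm Att)

section

variable {X : Type} [Fintype X] [DecidableEq X]

theorem U_nonneg (A : Pa X) (T : Cfg X) (Qr : Finset X) (Go : Matrix X X ℂ) :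
    0 ≤ A.U T Qr Go := by
  unfold Pa.U
  have h1 : ∀ (l B : ℝ) (z : ℂ), 0 ≤ pe l B z := by
    intro l B z
    unfold pe
    have h2 := Real.cosh_pos (l * z.re)
    have h3 := Real.cosh_pos (l * z.im)
    positivity
  refine add_nonneg (add_nonneg (Finset.sum_nonneg fun x _ => Finset.sum_nonneg fun y _ => h1 _ _ _)
    (Finset.sum_nonneg fun x _ => (Real.exp_pos _).le)) (Real.exp_pos _).le

theorem phase (H : Rows) (hklr : KlrStmt) {lam B ε₀ C : ℝ} (hb1 : Kr1Body ε₀ lam C B)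
    (hlam : 0 < lam) (hB : 1 ≤ B) (A : Pa X) {κs g₀ Λ Lc hK kI : ℝ}
    (hy : A.Hyp κs g₀ Λ Lc hK kI) (Qr : Finset X) (Go : Matrix X X ℂ) (b : X) (hb : b ∈ Qr)
    (t₀ εc ρ ε bL a M Nr : ℝ) (j : ℕ) (θ : ℝ → ℝ) (hθ : Cut θ t₀ A.t₁ εc) (ht₀ : 0 < t₀)
    (ht : t₀ ≤ A.t₁) (ht1 : A.t₁ ≤ 1) (hεc : 0 ≤ εc) (hεc0 : εc ≤ ε₀)
    (hδc : 2 * A.δ / g₀ ≤ εc) (hκc : κs * Real.sqrt (2 / t₀ * Lc) / g₀ ≤ εc ^ 2)
    (hβ : C * A.δ ^ 2 * Real.sqrt (1 / t₀ * Real.sqrt (1 / t₀ * Lc)) / g₀ * A.v ≤ lam * ρ / 20)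
    (hρ : 0 < ρ) (hj : 1 ≤ j) (hε : 0 ≤ ε) (hε1 : ε ≤ 1 / 16)
    (hδ : 2 * A.δ / g₀ ≤ ε) (hκ : κs * Real.sqrt (1 / A.t₁ * Lc) / g₀ ≤ ε ^ 2)
    (hn1 : j * (4 * ε ^ 2 + 16 * ρ) ≤ 1 / 8)
    (hn2 : 300 * j * (2 * (κs * kI / g₀) / A.t₁ + 1) * ρ ≤ 1)
    (hn3 : 20 * j * A.δ ^ 2 * Real.sqrt (1 / A.t₁ * Real.sqrt (1 / A.t₁ * Lc)) / (ρ * g₀) +
        128 * j * ρ * A.δ ^ 2 * (1 / A.t₁) * (κs * kI / g₀) / A.t₁ ≤ bL)
    (ha : 0 ≤ a) (hM : 0 ≤ M) (Okf : Cfg X → Prop) (T₁ : Cfg X) (hNr : Nr ≤ A.N)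
    (hcut : ∀ c ∈ A.al T₁, A.k A.T₀ b * ‖A.G A.T₀ b c‖ ^ 2 ≤ hK)
    (hcont : ∀ T', A.St T' Qr Go → A.al T' ⊆ A.al T₁ → ((A.kd T').card : ℝ) ≤ Nr →
      A.U T' Qr Go < 1 → (∀ x ∈ A.al T', A.a T' b x ≤ 2 * A.t₁) →
      Att A.Rk A.Q A.val Okf T' (ENNReal.ofReal (a + M * cu (A.U T' Qr Go)))) :
    ∀ (n : ℕ) (T : Cfg X) (S : ℝ), A.St T Qr Go → A.al T ⊆ A.al T₁ → S ≤ n * ρ →
      ((A.kd T).card : ℝ) + (S + 1) / A.t₁ ≤ Nr →
      Att A.Rk A.Q A.val Okf T (ENNReal.ofReal (val lam B (a + 3 * Real.exp (A.v * bL) *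
        ((1 + A.R.card) * Real.exp (-(j : ℝ) / 5))) M S (cu (A.U T Qr Go)) (A.y θ T b))) := by
  intro n
  have ht₁ : 0 < A.t₁ := hy.pos.2.2.2.2.1
  have hc := H.cup.2.2
  set tn : ℝ := 3 * Real.exp (A.v * bL) * ((1 + A.R.card) * Real.exp (-(j : ℝ) / 5)) with htn
  have htn0 : 0 ≤ tn := by positivity
  have hone : ∀ (T : Cfg X) (S : ℝ), A.St T Qr Go → S ≤ 40 * A.y θ T b →
      Att A.Rk A.Q A.val Okf T (ENNReal.ofReal (val lam B (a + tn) M S (cu (A.U T Qr Go))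
        (A.y θ T b))) := by
    intro T S st hS
    obtain ⟨_, _, m3, m4⟩ := mass_T H.run hy st hb hθ
    obtain ⟨d1, d2, _⟩ := hc.1 _ (U_nonneg A T Qr Go)
    refine Att.mono _ _ _ ?_ (Att.one _)
    rw [← ENNReal.ofReal_one]
    exact ENNReal.ofReal_le_ofReal (val_ge_one hlam hB (add_nonneg ha htn0) hM d1 d2 m3 m4 hS)
  induction n with
  | zero =>
    intro T S st _ hS _
    obtain ⟨_, _, m3, _⟩ := mass_T H.run hy st hb hθ
    refine hone T S st ?_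
    have : S ≤ 0 := by simpa using hS
    linarith only [m3, this]
  | succ n ih =>
    intro T S st hal hS hcd
    obtain ⟨m1, m2, m3, m4⟩ := mass_T H.run hy st hb hθ
    obtain ⟨d1, d2, _⟩ := hc.1 _ (U_nonneg A T Qr Go)
    rcases le_or_gt S (40 * A.y θ T b) with hS0 | hS0
    · exact hone T S st hS0
    have hSpos : 0 < S := by linarith only [m3, hS0]
    have hge2 := val_ge2 (lam := lam) (B := B) (a := a + tn) (M := M) (S := S) (y := A.y θ T b)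
      hlam hB d1 d2
    rcases le_or_gt 1 (A.U T Qr Go) with hU | hU
    · refine Att.mono _ _ _ ?_ (Att.one _)
      rw [← ENNReal.ofReal_one]
      refine ENNReal.ofReal_le_ofReal ?_
      have h1 := hc.2.1 _ hU
      rw [h1] at hge2 ⊢
      linarith only [ha, hM, htn0, hge2]
    by_cases hl : ∀ x ∈ A.al T, A.a T b x ≤ 2 * A.t₁
    · refine Att.mono _ _ _ ?_ (hcont T st hal ?_ hU hl)
      · refine ENNReal.ofReal_le_ofReal (le_trans ?_ hge2)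
        linarith only [htn0, d1]
      · have : 0 ≤ (S + 1) / A.t₁ := by positivity
        linarith only [hcd, this]
    push Not at hl
    obtain ⟨x₁, hx₁, hx₁'⟩ := hl
    have hgam : gam (A.k T) (A.G T) b ≠ 0 := by
      intro h0
      have h1 : A.a T b x₁ = 0 := by
        unfold Pa.a aa
        rw [h0, div_zero]
      rw [h1] at hx₁'
      linarith only [ht₀, ht, hx₁']
    set D : Finset X := (A.al T).filter fun x => A.t₁ ≤ A.a T b x with hD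
    have hDs : D ⊆ A.al T := Finset.filter_subset _ _
    have hDt : ∀ x ∈ D, A.t₁ ≤ A.a T b x := fun x hx => (Finset.mem_filter.1 hx).2
    have hDk : D ⊆ A.Rk := by
      intro x hx
      by_contra hcon
      exact absurd (hDt x hx) (not_le.2 (hy.far T Qr Go st b hb x (hDs hx) hcon))
    have hDn : D.Nonempty := ⟨x₁, Finset.mem_filter.2 ⟨hx₁, by linarith only [ht₀, ht, hx₁']⟩⟩
    set r : ℝ := ∑ x ∈ D, A.a T b x with hr
    have hDr : (D.card : ℝ) * A.t₁ ≤ r := by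
      calc (D.card : ℝ) * A.t₁ = ∑ x ∈ D, A.t₁ := by rw [Finset.sum_const, nsmul_eq_mul]
        _ ≤ ∑ x ∈ D, A.a T b x := Finset.sum_le_sum fun x hx => hDt x hx
    have hr1 : r ≤ 1 := (Finset.sum_le_sum_of_subset_of_nonneg hDs fun x _ _ => m1 x).trans m2
    have hry : r ≤ A.y θ T b := by
      have h1 : r = ∑ x ∈ D, θ (A.a T b x) :=
        Finset.sum_congr rfl fun x hx => (hθ.hi _ (hDt x hx)).symm
      rw [h1]
      exact Finset.sum_le_sum_of_subset_of_nonneg hDs fun x _ _ => (hθ.bd _ (m1 x)).1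
    have hDc : (D.card : ℝ) ≤ r / A.t₁ := by rwa [le_div_iff₀ ht₁]
    have hDc2 : (D.card : ℝ) ≤ (S + 1) / A.t₁ :=
      hDc.trans (div_le_div_of_nonneg_right (by linarith only [m3, hS0, hry]) ht₁.le)
    have hNN : (A.kd T).card + D.card ≤ A.N := by
      have h1 : ((A.kd T).card : ℝ) + D.card ≤ A.N := by linarith only [hNr, hcd, hDc2]
      exact_mod_cast h1
    have hstk := (H.stk X A κs g₀ Λ Lc hK kI hy T Qr D Go st hDs hDk hNN).1
    have hcutT : ∀ c ∈ A.al T, A.k A.T₀ b * ‖A.G A.T₀ b c‖ ^ 2 ≤ hK := fun c hc => hcut c (hal hc)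
    have halz : ∀ ζ, A.al (T.kl D ζ) ⊆ A.al T₁ := fun ζ => by
      rw [(hstk ζ).2.2.2.2]
      exact Finset.sdiff_subset.trans hal
    have hkdz : ∀ ζ, ((A.kd (T.kl D ζ)).card : ℝ) ≤ (A.kd T).card + D.card := fun ζ => by
      rw [(hstk ζ).2.2.2.1]
      exact_mod_cast Finset.card_union_le _ _
    rcases le_or_gt ρ r with hρr | hρr
    · refine round H hb1 hlam hB A hy T Qr D Go b st hb hDs hDk hNN hcutT hgam t₀ εc ρ S r (a + tn) M θ hθ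
        ht₀ ht ht1 hεc hεc0 hδc hκc hβ hρ hr hDt hρr (by linarith only [hS0, hry]) (add_nonneg ha htn0) hM Okf
        fun ζ => ?_
      refine ih (T.kl D ζ) (S - r) (hstk ζ).1 (halz ζ) ?_ ?_
      · push_cast at hS
        linarith only [hρr, hS]
      · have h1 : (S - r + 1) / A.t₁ + r / A.t₁ = (S + 1) / A.t₁ := by ring
        have h2 := hkdz ζ
        linarith only [hcd, hDc, h1, h2]
    · refine Att.mono _ _ _ ?_ (last H hklr A hy T Qr D Go b st hb hDs hDk hNN hcutT hgam hDn ρ ε bL a M j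
        ht1 hρ hj hε hε1 hδ hκ hn1 hn2 hn3 hDt (fun x hx => ?_) hρr.le ha hM Okf fun ζ h1 h2 => ?_)
      · exact ENNReal.ofReal_le_ofReal hge2
      · obtain ⟨h1, h2⟩ := Finset.mem_sdiff.1 hx
        by_contra h3
        exact h2 (Finset.mem_filter.2 ⟨h1, (not_le.1 h3).le⟩)
      · refine hcont _ (hstk ζ).1 (halz ζ) ?_ h1 h2
        have h3 := hkdz ζ
        linarith only [hcd, hDc2, h3]

end

/-- PHN -/
theorem phn (H : Rows) (hklr : KlrStmt) (hkr1 : Kr1Stmt) (hkth : KthStmt) : PhnStmt := by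
  obtain ⟨ε₁, lam, C, B, hε₁, hlam, hlam1, hC, hB, hb1⟩ := hkr1
  obtain ⟨Cθ, hCθ, hth⟩ := hkth
  set ε₀ : ℝ := min ε₁ 1 with hε₀
  have hε0 : 0 < ε₀ := lt_min hε₁ one_pos
  have hε01 : ε₀ ≤ 1 := min_le_right _ _
  have hq : 1 ≤ Cθ / ε₀ := by
    rw [le_div_iff₀ hε0]
    linarith
  refine ⟨ε₀, Real.exp (-(Cθ / ε₀)), lam, C, B, hε0, Real.exp_pos _, ?_, hlam, hlam1, hC, hB, ?_⟩
  · rw [Real.exp_le_one_iff]
    linarith
  intro X _ _ A κs g₀ Λ Lc hK kI ρ S₀ ε bL j nP hy ht1 hδc hκc hβ hρ hj hε hε1 hδ hκ hn1 hn2 hn3 hS₀ hnP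
  have ht₁ : 0 < A.t₁ := hy.pos.2.2.2.2.1
  have hc0 : 0 < Real.exp (-(Cθ / ε₀)) := Real.exp_pos _
  have hc1 : Real.exp (-(Cθ / ε₀)) ≤ 1 := by
    rw [Real.exp_le_one_iff]
    linarith only [hq]
  obtain ⟨θ, hθ⟩ := hth (Real.exp (-(Cθ / ε₀)) * A.t₁) A.t₁ (mul_pos hc0 ht₁) (by
    rw [← mul_assoc, ← Real.exp_add]
    have h1 : Real.exp (1 + -(Cθ / ε₀)) ≤ 1 := by
      rw [Real.exp_le_one_iff]
      linarith only [hq]
    nlinarith only [ht₁, h1])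
  have hlog : Cθ / Real.log (A.t₁ / (Real.exp (-(Cθ / ε₀)) * A.t₁)) = ε₀ := by
    have h1 : A.t₁ / (Real.exp (-(Cθ / ε₀)) * A.t₁) = Real.exp (Cθ / ε₀) := by
      rw [Real.exp_neg]
      field_simp
    rw [h1, Real.log_exp]
    field_simp
  rw [hlog] at hθ
  intro T Qr Go b st hb hcut hN Okf a M ha hM hcont
  have key := phase H hklr hb1 hlam hB A hy Qr Go b hb (Real.exp (-(Cθ / ε₀)) * A.t₁) ε₀ ρ ε bL a M
    ((A.kd T).card + nP) j θ hθ (mul_pos hc0 ht₁) (by nlinarith only [ht₁, hc1]) ht1 hε0.le (min_le_left _ _) hδc hκc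
    hβ hρ hj hε hε1 hδ hκ hn1 hn2 hn3 ha hM Okf T (by exact_mod_cast hN) hcut
    (fun T' st' h1 h2 h3 h4 => hcont T' st' h1 (by exact_mod_cast h2) h3 h4) ⌈S₀ / ρ⌉₊ T S₀ st
    (Finset.Subset.refl _) ?_ (by linarith only [hnP])
  · refine Att.mono _ _ _ (ENNReal.ofReal_le_ofReal ?_) key
    obtain ⟨_, _, m3, m4⟩ := mass_T H.run hy st hb hθ
    obtain ⟨d1, d2, _⟩ := H.cup.2.2.1 _ (U_nonneg A T Qr Go)
    refine (val_le hlam d1 d2 m4).trans (le_of_eq ?_)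
    ring
  · have h1 := Nat.le_ceil (S₀ / ρ)
    rw [div_le_iff₀ hρ] at h1
    exact h1

end Pool.Agent.ATT.H38
end
end -- Pool.Agent.Helper38_ATT.Phs

section -- Pool.Agent.Helper76_ATT.Att

/-!
# Helper76, tank ATT: an attempt succeeds with probability at least `1 - exp (-1/q)`, `s = q ^ 2000`
-/

set_option autoImplicit false

open scoped BigOperators NNReal ENNReal

noncomputable section

namespace Pool.Agent.ATT.H76

open Pool.Agent.ANP (Cfg Att)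

/-- a polynomial times a Gaussian -/
lemma ev_exp (C c : ℝ) (m : ℕ) (hC : 0 ≤ C) (hc : 0 < c) :
    ∃ K : ℝ, 1 ≤ K ∧ ∀ r : ℝ, K ≤ r → C * r ^ m * Real.exp (-(c * r ^ 2)) ≤ Real.exp (-r) := by
  have h1 := (Real.tendsto_pow_mul_exp_neg_atTop_nhds_zero m).const_mul C
  rw [mul_zero] at h1
  have h2 := (h1.eventually (ge_mem_nhds (show (0 : ℝ) < 1 by norm_num))).and
    (Filter.eventually_ge_atTop (0 : ℝ))
  obtain ⟨K, hK⟩ := Filter.eventually_atTop.1 h2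
  refine ⟨max (max K 1) (2 / c), le_trans (le_max_right _ _) (le_max_left _ _), fun r hr => ?_⟩
  have hrK : K ≤ r := le_trans (le_trans (le_max_left _ _) (le_max_left _ _)) hr
  have hr1 : 1 ≤ r := le_trans (le_trans (le_max_right _ _) (le_max_left _ _)) hr
  have hrc : 2 / c ≤ r := le_trans (le_max_right _ _) hr
  have h3 := (hK r hrK).1
  have h4 : 2 * r ≤ c * r ^ 2 := by
    rw [div_le_iff₀ hc] at hrc
    nlinarith only [hr1, hrc]
  have h5 : Real.exp (-(c * r ^ 2)) ≤ Real.exp (-r) * Real.exp (-r) := by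
    rw [← Real.exp_add]
    exact Real.exp_le_exp.2 (by linarith only [h4])
  have h6 : 0 < Real.exp (-r) := Real.exp_pos _
  calc C * r ^ m * Real.exp (-(c * r ^ 2)) ≤ C * r ^ m * (Real.exp (-r) * Real.exp (-r)) := by
        gcongr
    _ = (C * (r ^ m * Real.exp (-r))) * Real.exp (-r) := by ring
    _ ≤ 1 * Real.exp (-r) := by gcongr
    _ = Real.exp (-r) := one_mul _

/-- square roots which occur -/
lemma sq1 {c₀ a : ℝ} (hc : 0 < c₀) (hc1 : c₀ ≤ 1) (n a' : ℝ)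
    (hn : 0 ≤ n) (ha' : a ≤ a' ^ 2) (ha0 : 0 ≤ a') :
    Real.sqrt (a / c₀ * n ^ 2) ≤ a' / c₀ * n := by
  rw [Real.sqrt_le_left (by positivity)]
  have h1 : a / c₀ ≤ (a' / c₀) ^ 2 := by
    rw [div_pow, div_le_div_iff₀ hc (by positivity)]
    have h2 : c₀ ^ 2 ≤ c₀ := by nlinarith only [hc, hc1]
    calc a * c₀ ^ 2 ≤ a' ^ 2 * c₀ ^ 2 := by gcongr
      _ ≤ a' ^ 2 * c₀ := by gcongr
  calc a / c₀ * n ^ 2 ≤ (a' / c₀) ^ 2 * n ^ 2 := by gcongr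
    _ = _ := by ring

/-- the double square root -/
lemma sq2 {q c₀ : ℝ} (hq : 0 < q) (hq1 : q ≤ 1) (hc : 0 < c₀) (hc1 : c₀ ≤ 1) :
    Real.sqrt (1 / (c₀ * q ^ 2250) * Real.sqrt (1 / (c₀ * q ^ 2250) * (64 * (q⁻¹) ^ 1500))) ≤
      3 / c₀ * (q⁻¹) ^ 2063 := by
  have hr : 0 < q⁻¹ := inv_pos.2 hq
  have hr1 : 1 ≤ q⁻¹ := (one_le_inv₀ hq).2 hq1
  have e1 : 1 / (c₀ * q ^ 2250) * (64 * (q⁻¹) ^ 1500) = 64 / c₀ * ((q⁻¹) ^ 1875) ^ 2 := by
    rw [← pow_mul, show 1875 * 2 = 2250 + 1500 by norm_num, pow_add, inv_pow q 2250]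
    field_simp
  have h1 : Real.sqrt (1 / (c₀ * q ^ 2250) * (64 * (q⁻¹) ^ 1500)) ≤
      8 / c₀ * (q⁻¹) ^ 1875 := by
    rw [e1]
    exact sq1 hc hc1 _ 8 (by positivity) (by norm_num) (by norm_num)
  rw [Real.sqrt_le_left (by positivity)]
  calc 1 / (c₀ * q ^ 2250) * Real.sqrt (1 / (c₀ * q ^ 2250) * (64 * (q⁻¹) ^ 1500))
      ≤ 1 / (c₀ * q ^ 2250) * (8 / c₀ * (q⁻¹) ^ 1875) := by gcongr
    _ = 8 / c₀ ^ 2 * (q⁻¹) ^ 4125 := by
        rw [show 4125 = 2250 + 1875 by norm_num, pow_add, inv_pow q 2250]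
        field_simp
    _ ≤ 9 / c₀ ^ 2 * (q⁻¹) ^ 4126 := by
        have : (q⁻¹) ^ 4125 ≤ (q⁻¹) ^ 4126 := pow_le_pow_right₀ hr1 (by norm_num)
        gcongr
        norm_num
    _ = (3 / c₀ * (q⁻¹) ^ 2063) ^ 2 := by
        rw [mul_pow, ← pow_mul, div_pow]
        norm_num

/-- a square root with a constant -/
lemma sq3 {q c₀ a a' : ℝ} (hq : 0 < q) (hc : 0 < c₀) (hc1 : c₀ ≤ 1) (ha' : 64 * a ≤ a' ^ 2)
    (ha0 : 0 ≤ a') :
    Real.sqrt (a / (c₀ * q ^ 2250) * (64 * (q⁻¹) ^ 1500)) ≤ a' / c₀ * (q⁻¹) ^ 1875 := by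
  have hr : 0 < q⁻¹ := inv_pos.2 hq
  have e1 : a / (c₀ * q ^ 2250) * (64 * (q⁻¹) ^ 1500) =
      (64 * a) / c₀ * ((q⁻¹) ^ 1875) ^ 2 := by
    rw [← pow_mul, show 1875 * 2 = 2250 + 1500 by norm_num, pow_add, inv_pow q 2250]
    field_simp
  rw [e1]
  exact sq1 hc hc1 _ a' (by positivity) ha' ha0

/-- the conditions of the phase on the numbers -/
lemma conds (ε₀ c₀ lam C g₀ g₁ gb q K : ℝ) (hε₀ : 0 < ε₀) (hc₀ : 0 < c₀) (hc₁ : c₀ ≤ 1)
    (hlam : 0 < lam) (hC : 1 ≤ C) (hg₀ : 0 < g₀) (hg₁ : 0 ≤ g₁) (hq : 0 < q)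
    (hK : K * q ≤ 1) (k0 : 2000 ≤ K) (k1 : 2 / g₀ / ε₀ ≤ K)
    (k2 : 12 * (g₁ + 1) / (c₀ * g₀) / ε₀ ^ 2 ≤ K) (k3 : 60 * C / (c₀ * g₀ * lam) ≤ K)
    (k4 : 100 / g₀ ≤ K) (k6 : 8 * (g₁ + 1) / g₀ ≤ K)
    (k8 : 300 * (2 * ((g₁ + 1) * gb ^ 2 / g₀) + 1) ≤ K) (k9 : 120 / g₀ ≤ K)
    (k10 : 256 * ((g₁ + 1) * gb ^ 2 / g₀) ≤ K) (j : ℝ) (hj : j ≤ (q⁻¹) ^ 2) :
    2 * q ^ 198 / g₀ ≤ ε₀ ∧
    ((g₁ + 1) * q ^ 2000) * Real.sqrt (2 / (c₀ * q ^ 2250) * (64 * (q⁻¹) ^ 1500)) / g₀ ≤ ε₀ ^ 2 ∧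
    C * (q ^ 198) ^ 2 * Real.sqrt (1 / (c₀ * q ^ 2250) *
      Real.sqrt (1 / (c₀ * q ^ 2250) * (64 * (q⁻¹) ^ 1500))) / g₀ * q ^ 2000 ≤
      lam * q ^ 256 / 20 ∧
    q ^ 60 ≤ 1 / 16 ∧ 2 * q ^ 198 / g₀ ≤ q ^ 60 ∧
    ((g₁ + 1) * q ^ 2000) * Real.sqrt (1 / q ^ 2250 * (64 * (q⁻¹) ^ 1500)) / g₀ ≤
      (q ^ 60) ^ 2 ∧
    j * (4 * (q ^ 60) ^ 2 + 16 * q ^ 256) ≤ 1 / 8 ∧
    300 * j * (2 * (((g₁ + 1) * q ^ 2000) * gb ^ 2 / g₀) / q ^ 2250 + 1) * q ^ 256 ≤ 1 ∧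
    q ^ 2000 * (20 * j * (q ^ 198) ^ 2 * Real.sqrt (1 / q ^ 2250 *
        Real.sqrt (1 / q ^ 2250 * (64 * (q⁻¹) ^ 1500))) / (q ^ 256 * g₀) +
      128 * j * q ^ 256 * (q ^ 198) ^ 2 * (1 / q ^ 2250) *
        (((g₁ + 1) * q ^ 2000) * gb ^ 2 / g₀) / q ^ 2250) ≤ 1 := by
  have hq1 : q ≤ 1 := by nlinarith only [hq, hK, k0]
  have hq2 : q ≤ 1 / 2000 := by
    rw [le_div_iff₀ (by norm_num)]; nlinarith only [hq, hK, k0]
  have hr : 0 < q⁻¹ := inv_pos.2 hq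
  have hr1 : 1 ≤ q⁻¹ := (one_le_inv₀ hq).2 hq1
  have s1 : Real.sqrt (1 / q ^ 2250 * (64 * (q⁻¹) ^ 1500)) ≤ 8 * (q⁻¹) ^ 1875 := by
    have := sq3 (q := q) (c₀ := 1) (a := 1) (a' := 8) hq one_pos le_rfl (by norm_num)
      (by norm_num)
    simpa using this
  have s2 : Real.sqrt (1 / q ^ 2250 * Real.sqrt (1 / q ^ 2250 * (64 * (q⁻¹) ^ 1500))) ≤
      3 * (q⁻¹) ^ 2063 := by
    have := sq2 (q := q) (c₀ := 1) hq hq1 one_pos le_rfl
    simpa using this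
  refine ⟨?_, ?_, ?_, ?_, ?_, ?_, ?_, ?_, ?_⟩
  · have h1 := small hq hq1 hK (c := 2 / g₀ / ε₀) (by positivity) k1 198 (by norm_num)
    rw [div_mul_eq_mul_div, div_le_one hε₀] at h1
    calc 2 * q ^ 198 / g₀ = 2 / g₀ * q ^ 198 := by ring
      _ ≤ ε₀ := h1
  · have h1 := small hq hq1 hK (c := 12 * (g₁ + 1) / (c₀ * g₀) / ε₀ ^ 2) (by positivity) k2 125
      (by norm_num)
    rw [div_mul_eq_mul_div, div_le_one (by positivity)] at h1
    have h2 := sq3 (q := q) (c₀ := c₀) (a := 2) (a' := 12) hq hc₀ hc₁ (by norm_num)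
      (by norm_num)
    calc ((g₁ + 1) * q ^ 2000) * Real.sqrt (2 / (c₀ * q ^ 2250) * (64 * (q⁻¹) ^ 1500)) / g₀
        ≤ ((g₁ + 1) * q ^ 2000) * (12 / c₀ * (q⁻¹) ^ 1875) / g₀ := by gcongr
      _ = 12 * (g₁ + 1) / (c₀ * g₀) * (q ^ (125 + 1875) * (q⁻¹) ^ 1875) := by
          field_simp
      _ = 12 * (g₁ + 1) / (c₀ * g₀) * q ^ 125 := by rw [qr hq]
      _ ≤ ε₀ ^ 2 := h1
  · have h1 := small hq hq1 hK (c := 60 * C / (c₀ * g₀ * lam)) (by positivity) k3 77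
      (by norm_num)
    have h2 := sq2 hq hq1 hc₀ hc₁
    calc C * (q ^ 198) ^ 2 * Real.sqrt (1 / (c₀ * q ^ 2250) *
          Real.sqrt (1 / (c₀ * q ^ 2250) * (64 * (q⁻¹) ^ 1500))) / g₀ * q ^ 2000
        ≤ C * (q ^ 198) ^ 2 * (3 / c₀ * (q⁻¹) ^ 2063) / g₀ * q ^ 2000 := by gcongr
      _ = 3 * C / (c₀ * g₀) * (q ^ (333 + 2063) * (q⁻¹) ^ 2063) := by
          field_simp
      _ = 3 * C / (c₀ * g₀) * q ^ 333 := by rw [qr hq]
      _ = (60 * C / (c₀ * g₀ * lam) * q ^ 77) * (lam * q ^ 256 / 20) := by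
          field_simp
          ring
      _ ≤ 1 * (lam * q ^ 256 / 20) := by gcongr
      _ = _ := one_mul _
  · have := pow_small hq hq1 60 (by norm_num)
    linarith only [hq, hq2, this]
  · have h1 := small hq hq1 hK (c := 100 / g₀) (by positivity) k4 138 (by norm_num)
    calc 2 * q ^ 198 / g₀ = (100 / g₀ * q ^ 138) * (q ^ 60 / 50) := by ring
      _ ≤ 1 * (q ^ 60 / 50) := by gcongr
      _ ≤ q ^ 60 := by
          have : 0 ≤ q ^ 60 := by positivity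
          linarith only [this]
  · have h1 := small hq hq1 hK (c := 8 * (g₁ + 1) / g₀) (by positivity) k6 5 (by norm_num)
    calc ((g₁ + 1) * q ^ 2000) * Real.sqrt (1 / q ^ 2250 * (64 * (q⁻¹) ^ 1500)) / g₀
        ≤ ((g₁ + 1) * q ^ 2000) * (8 * (q⁻¹) ^ 1875) / g₀ := by gcongr
      _ = 8 * (g₁ + 1) / g₀ * (q ^ (125 + 1875) * (q⁻¹) ^ 1875) := by
          field_simp
      _ = 8 * (g₁ + 1) / g₀ * q ^ 125 := by rw [qr hq]
      _ = (8 * (g₁ + 1) / g₀ * q ^ 5) * (q ^ 60) ^ 2 := by ring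
      _ ≤ 1 * (q ^ 60) ^ 2 := by gcongr
      _ = _ := one_mul _
  · calc j * (4 * (q ^ 60) ^ 2 + 16 * q ^ 256)
        ≤ (q⁻¹) ^ 2 * (4 * (q ^ 60) ^ 2 + 16 * q ^ 256) := by gcongr
      _ = 4 * (q ^ (118 + 2) * (q⁻¹) ^ 2) + 16 * (q ^ (254 + 2) * (q⁻¹) ^ 2) := by ring
      _ = 4 * q ^ 118 + 16 * q ^ 254 := by rw [qr hq, qr hq]
      _ ≤ 1 / 8 := by
          have a1 := pow_small hq hq1 118 (by norm_num)
          have a2 := pow_small hq hq1 254 (by norm_num)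
          linarith only [hq, hq2, a1, a2]
  · have h1 := small hq hq1 hK (c := 300 * (2 * ((g₁ + 1) * gb ^ 2 / g₀) + 1)) (by positivity) k8
      4 (by norm_num)
    have h2 : q ^ 2000 / q ^ 2250 = (q⁻¹) ^ 250 := by
      rw [div_eq_mul_inv, ← inv_pow, show 2250 = 250 + 2000 by norm_num, mul_comm]
      exact rq hq _ _
    calc 300 * j * (2 * (((g₁ + 1) * q ^ 2000) * gb ^ 2 / g₀) / q ^ 2250 + 1) * q ^ 256
        ≤ 300 * (q⁻¹) ^ 2 * (2 * (((g₁ + 1) * q ^ 2000) * gb ^ 2 / g₀) / q ^ 2250 + 1) *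
            q ^ 256 := by gcongr
      _ = 300 * (q⁻¹) ^ 2 * (2 * ((g₁ + 1) * gb ^ 2 / g₀) * (q ^ 2000 / q ^ 2250) + 1) *
            q ^ 256 := by ring
      _ = 300 * (2 * ((g₁ + 1) * gb ^ 2 / g₀) * (q ^ (4 + 252) * (q⁻¹) ^ 252) +
            q ^ (254 + 2) * (q⁻¹) ^ 2) := by
          rw [h2]
          ring
      _ = 300 * (2 * ((g₁ + 1) * gb ^ 2 / g₀) * q ^ 4 + q ^ 254) := by rw [qr hq, qr hq]
      _ ≤ 300 * (2 * ((g₁ + 1) * gb ^ 2 / g₀) * q ^ 4 + q ^ 4) := by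
          have : q ^ 254 ≤ q ^ 4 := pow_le_pow_of_le_one hq.le hq1 (by norm_num)
          linarith only [this]
      _ = 300 * (2 * ((g₁ + 1) * gb ^ 2 / g₀) + 1) * q ^ 4 := by ring
      _ ≤ 1 := h1
  · have h1 := small hq hq1 hK (c := 120 / g₀) (by positivity) k9 75 (by norm_num)
    have h2 := small hq hq1 hK (c := 256 * ((g₁ + 1) * gb ^ 2 / g₀)) (by positivity) k10 150
      (by norm_num)
    have i1 : ∀ n : ℕ, 1 / q ^ n = (q⁻¹) ^ n := fun n => by rw [inv_pow, one_div]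
    have h3 : 20 * j * (q ^ 198) ^ 2 * Real.sqrt (1 / q ^ 2250 *
        Real.sqrt (1 / q ^ 2250 * (64 * (q⁻¹) ^ 1500))) / (q ^ 256 * g₀) ≤
        60 / g₀ * (q ^ 396 * (q⁻¹) ^ 2321) := by
      calc 20 * j * (q ^ 198) ^ 2 * Real.sqrt (1 / q ^ 2250 *
            Real.sqrt (1 / q ^ 2250 * (64 * (q⁻¹) ^ 1500))) / (q ^ 256 * g₀)
          ≤ 20 * (q⁻¹) ^ 2 * (q ^ 198) ^ 2 * (3 * (q⁻¹) ^ 2063) / (q ^ 256 * g₀) := by gcongr
        _ = 60 / g₀ * (q ^ 396 * ((q⁻¹) ^ 2065 * (1 / q ^ 256))) := by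
            field_simp
            ring
        _ = _ := by rw [i1, ← pow_add]
    have h4 : 128 * j * q ^ 256 * (q ^ 198) ^ 2 * (1 / q ^ 2250) *
        (((g₁ + 1) * q ^ 2000) * gb ^ 2 / g₀) / q ^ 2250 ≤
        128 * ((g₁ + 1) * gb ^ 2 / g₀) * (q ^ 2652 * (q⁻¹) ^ 4502) := by
      calc 128 * j * q ^ 256 * (q ^ 198) ^ 2 * (1 / q ^ 2250) *
            (((g₁ + 1) * q ^ 2000) * gb ^ 2 / g₀) / q ^ 2250
          ≤ 128 * (q⁻¹) ^ 2 * q ^ 256 * (q ^ 198) ^ 2 * (1 / q ^ 2250) *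
            (((g₁ + 1) * q ^ 2000) * gb ^ 2 / g₀) / q ^ 2250 := by gcongr
        _ = 128 * ((g₁ + 1) * gb ^ 2 / g₀) * (q ^ 2652 * ((q⁻¹) ^ 2 * (1 / q ^ 2250) *
            (1 / q ^ 2250))) := by ring
        _ = _ := by rw [i1, ← pow_add, ← pow_add]
    calc q ^ 2000 * (20 * j * (q ^ 198) ^ 2 * Real.sqrt (1 / q ^ 2250 *
          Real.sqrt (1 / q ^ 2250 * (64 * (q⁻¹) ^ 1500))) / (q ^ 256 * g₀) +
          128 * j * q ^ 256 * (q ^ 198) ^ 2 * (1 / q ^ 2250) *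
          (((g₁ + 1) * q ^ 2000) * gb ^ 2 / g₀) / q ^ 2250)
        ≤ q ^ 2000 * (60 / g₀ * (q ^ 396 * (q⁻¹) ^ 2321) +
          128 * ((g₁ + 1) * gb ^ 2 / g₀) * (q ^ 2652 * (q⁻¹) ^ 4502)) := by gcongr
      _ = 60 / g₀ * (q ^ (75 + 2321) * (q⁻¹) ^ 2321) +
          128 * ((g₁ + 1) * gb ^ 2 / g₀) * (q ^ (150 + 4502) * (q⁻¹) ^ 4502) := by ring
      _ = 60 / g₀ * q ^ 75 + 128 * ((g₁ + 1) * gb ^ 2 / g₀) * q ^ 150 := by rw [qr hq, qr hq]
      _ = (120 / g₀ * q ^ 75) / 2 + (256 * ((g₁ + 1) * gb ^ 2 / g₀) * q ^ 150) / 2 := by ring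
      _ ≤ 1 := by linarith only [h1, h2]

/-- the sum of the failure probabilities -/
lemma fin_num (Qc p U r2 rD rDD E B e2 : ℝ) (hp0 : 0 ≤ p) (hU0 : 0 ≤ U)
    (hQ : Qc ≤ r2) (hp : p ≤ 32 * rD * E) (hU : U ≤ 30 * rDD * E) (he : e2 ≤ 9) (he0 : 0 ≤ e2)
    (h2 : 1 ≤ r2) (hD : rD ≤ rDD) (hD0 : 0 ≤ rD) (hE : 0 ≤ E) (hB : 0 ≤ B) :
    Qc * p + 3 * (2 + Qc * (e2 * B)) * U ≤ (45 + 90 * (2 + 9 * B) + 9) * (r2 * rDD) * E := by
  have hDD : 0 ≤ rDD := hD0.trans hD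
  have h1 : Qc * p ≤ r2 * (32 * rDD * E) := by
    apply mul_le_mul hQ _ hp0 (by linarith)
    refine hp.trans ?_
    gcongr
  have h3 : 3 * (2 + Qc * (e2 * B)) ≤ 3 * (r2 * (2 + 9 * B)) := by
    have h4 : Qc * (e2 * B) ≤ r2 * (9 * B) := by gcongr
    nlinarith only [h2, h4]
  have h5 : 3 * (2 + Qc * (e2 * B)) * U ≤ 3 * (r2 * (2 + 9 * B)) * (30 * rDD * E) :=
    mul_le_mul h3 hU hU0 (by positivity)
  have h6 : 0 ≤ r2 * rDD * E := by positivity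
  nlinarith only [h1, h5, h6]

lemma exp_two {lam : ℝ} (h : lam ≤ 1) : Real.exp (2 * lam) ≤ 9 := by
  have h3 : Real.exp 2 = Real.exp 1 ^ 2 := by rw [← Real.exp_nat_mul]; norm_num
  have := Real.exp_one_lt_d9
  have h4 := Real.exp_pos 1
  calc Real.exp (2 * lam) ≤ Real.exp 2 := Real.exp_le_exp.2 (by linarith only [h])
    _ = Real.exp 1 ^ 2 := h3
    _ ≤ 9 := by nlinarith only [this, h4]

lemma exp_fifth : Real.exp (1 / 5) ≤ 5 / 4 := by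
  have h3 : Real.exp (1 / 5) ^ 5 = Real.exp 1 := by
    rw [← Real.exp_nat_mul]; norm_num
  have h4 := Real.exp_one_lt_d9
  by_contra hcon
  push Not at hcon
  have h5 : (5 / 4 : ℝ) ^ 5 < Real.exp (1 / 5) ^ 5 := by gcongr
  rw [h3] at h5
  norm_num at h5 h4
  linarith only [h5, h4]

lemma exp_j {lam x j : ℝ} (h : lam ≤ 1) (hx : 0 ≤ x) (hj : x - 1 ≤ j) :
    Real.exp (-j / 5) ≤ 5 / 4 * Real.exp (-(lam / 20 * x)) := by
  have h1 : -j / 5 ≤ 1 / 5 + (-(lam / 20 * x)) := by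
    have h3 : lam / 20 * x ≤ 1 / 20 * x := by gcongr
    linarith only [hx, hj, h3]
  calc Real.exp (-j / 5) ≤ Real.exp (1 / 5 + (-(lam / 20 * x))) := Real.exp_le_exp.2 h1
    _ = Real.exp (1 / 5) * Real.exp (-(lam / 20 * x)) := by rw [Real.exp_add]
    _ ≤ 5 / 4 * Real.exp (-(lam / 20 * x)) :=
        mul_le_mul_of_nonneg_right exp_fifth (Real.exp_pos _).le

lemma exp_v {x : ℝ} (h : x ≤ 1) : Real.exp x ≤ 3 := by
  have := Real.exp_one_lt_d9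
  calc Real.exp x ≤ Real.exp 1 := Real.exp_le_exp.2 h
    _ ≤ 3 := by linarith only [this]

lemma exp_r {lam x : ℝ} (h : lam ≤ 1) (hx : 0 ≤ x) :
    Real.exp (-x) ≤ Real.exp (-(lam / 20 * x)) := by
  apply Real.exp_le_exp.2
  have h3 : lam / 20 * x ≤ 1 / 20 * x := by gcongr
  linarith only [hx, h3]

/-- the sum of the failure probabilities, all parts -/
lemma fin_all (Rc Qc U r E B ev ej e2 el er : ℝ) {D : ℕ} (hR0 : 0 ≤ Rc)
    (hU0 : 0 ≤ U) (hQ : Qc ≤ r ^ 2) (hR : Rc ≤ r ^ D)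
    (hU : U ≤ 30 * r ^ (2 * D) * er) (hev : ev ≤ 3) (hej : ej ≤ 5 / 4 * E) (he2 : e2 ≤ 9)
    (hel : el = E) (her : er ≤ E) (hE : 0 ≤ E) (hr : 1 ≤ r) (hB : 0 ≤ B) (hj0 : 0 ≤ ej)
    (h20 : 0 ≤ e2) (hv0 : 0 ≤ ev) :
    Qc * (3 * ev * ((1 + Rc) * ej) + e2 * el) + 3 * (2 + Qc * (e2 * B)) * U ≤
      (45 + 90 * (2 + 9 * B) + 9) * r ^ (2 * D + 2) * E := by
  have hrD : (1 : ℝ) ≤ r ^ D := one_le_pow₀ hr
  have hp : 3 * ev * ((1 + Rc) * ej) + e2 * el ≤ 32 * r ^ D * E := by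
    rw [hel]
    have h1 : 1 + Rc ≤ 2 * r ^ D := by linarith only [hR, hrD]
    calc 3 * ev * ((1 + Rc) * ej) + e2 * E
        ≤ 3 * 3 * ((2 * r ^ D) * (5 / 4 * E)) + 9 * E := by gcongr
      _ ≤ 3 * 3 * ((2 * r ^ D) * (5 / 4 * E)) + 9 * (r ^ D * E) := by
          have : 1 * E ≤ r ^ D * E := by gcongr
          linarith only [this]
      _ = (45 / 2 + 9) * (r ^ D * E) := by ring
      _ ≤ 32 * (r ^ D * E) := by
          have : 0 ≤ r ^ D * E := by positivity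
          linarith only [this]
      _ = _ := by ring
  have hU' : U ≤ 30 * r ^ (2 * D) * E := by
    refine hU.trans ?_
    gcongr
  have hp0 : 0 ≤ 3 * ev * ((1 + Rc) * ej) + e2 * el := by
    rw [hel]; positivity
  have h := fin_num Qc _ U (r ^ 2) (r ^ D) (r ^ (2 * D)) E B e2 hp0 hU0 hQ hp hU' he2 h20
    (one_le_pow₀ hr) (pow_le_pow_right₀ hr (by omega)) (by positivity) hE hB
  refine h.trans (le_of_eq ?_)
  ring

/-- THE ATTEMPT -/
theorem attempt (hPhn : PhnStmt) (hAta : AtaStmt) (hnet : NetStmt) (g₀ g₁ gb : ℝ) (D : ℕ)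
    (hg₀ : 0 < g₀) (hg₁ : 0 ≤ g₁) (hgb : 2 ≤ gb) (hD : 2 ≤ D) :
    ∃ K : ℝ, 1 ≤ K ∧ ∀ (X : Type) [Fintype X] [DecidableEq X] (Hm : Matrix X X ℝ) (e0 : ℝ)
      (T₀ : Cfg X) (R Rk Q : Finset X) (v : ℝ≥0) (val : X → ℝ) (q : ℝ),
      In0 Hm e0 T₀ R Q v q g₀ g₁ gb → K * q ≤ 1 → Rk ⊆ R → (R.card : ℝ) ≤ (q⁻¹) ^ D →
      (∀ (T : Cfg X) (Qr : Finset X) (Go : Matrix X X ℂ),
        (mkA Hm e0 T₀ R Rk Q v val q g₀ gb).St T Qr Go → ∀ b ∈ Qr,
        ∀ x ∈ (mkA Hm e0 T₀ R Rk Q v val q g₀ gb).al T, x ∉ Rk →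
          (mkA Hm e0 T₀ R Rk Q v val q g₀ gb).a T b x < q ^ 2250) →
      (∀ b ∈ Q, ∀ x ∈ R, x ∉ Rk →
        ka e0 e0 T₀ b * ‖GT Hm e0 e0 T₀ b x‖ ^ 2 ≤ q ^ 200) →
      (mkA Hm e0 T₀ R Rk Q v val q g₀ gb).Hyp ((g₁ + 1) * q ^ 2000) g₀ ((q⁻¹) ^ 1500)
        (64 * (q⁻¹) ^ 1500) (q ^ 200) (gb ^ 2) ∧
      ∀ Okf : Cfg X → Prop,
        (∀ (T' : Cfg X) (Go : Matrix X X ℂ),
          (mkA Hm e0 T₀ R Rk Q v val q g₀ gb).St T' ∅ Go →
          (mkA Hm e0 T₀ R Rk Q v val q g₀ gb).U T' ∅ Go < 1 →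
          (∀ b ∈ Q, ∀ x ∈ (mkA Hm e0 T₀ R Rk Q v val q g₀ gb).al T',
            ka e0 e0 T₀ b * ‖GT Hm e0 e0 T₀ b x‖ ^ 2 ≤ q ^ 200) → Okf T') →
        Att Rk Q val Okf T₀ (ENNReal.ofReal (Real.exp (-(q⁻¹)))) := by
  obtain ⟨ε₀, c₀, lam, C, B, hε₀, hc₀, hc₁, hlam, hlam1, hC, hB, hPhn⟩ := hPhn
  obtain ⟨K₁, hK₁, hexp⟩ := ev_exp (45 + 90 * (2 + 9 * B) + 9) (lam / 20) (2 * D + 2)
    (by positivity) (by positivity)
  have hgb0 : 0 ≤ gb := by linarith only [hgb]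
  have hCb : 0 ≤ Cb g₀ gb := by unfold Cb; positivity
  set K : ℝ := K₁ + 2000 + 2 / g₀ / ε₀ + 12 * (g₁ + 1) / (c₀ * g₀) / ε₀ ^ 2 +
    60 * C / (c₀ * g₀ * lam) + 100 / g₀ + 8 * (g₁ + 1) / g₀ +
    300 * (2 * ((g₁ + 1) * gb ^ 2 / g₀) + 1) + 120 / g₀ + 256 * ((g₁ + 1) * gb ^ 2 / g₀) +
    100 * gb ^ 2 + (64 * Cb g₀ gb) ^ 2 + 4 * (gb / g₀) with hKd
  have p1 : 0 ≤ 2 / g₀ / ε₀ := by positivity
  have p2 : 0 ≤ 12 * (g₁ + 1) / (c₀ * g₀) / ε₀ ^ 2 := by positivity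
  have p3 : 0 ≤ 60 * C / (c₀ * g₀ * lam) := by positivity
  have p4 : 0 ≤ 100 / g₀ := by positivity
  have p5 : 0 ≤ 8 * (g₁ + 1) / g₀ := by positivity
  have p6 : 0 ≤ 300 * (2 * ((g₁ + 1) * gb ^ 2 / g₀) + 1) := by positivity
  have p7 : 0 ≤ 120 / g₀ := by positivity
  have p8 : 0 ≤ 256 * ((g₁ + 1) * gb ^ 2 / g₀) := by positivity
  have p9 : 0 ≤ 100 * gb ^ 2 := by positivity
  have p10 : 0 ≤ (64 * Cb g₀ gb) ^ 2 := by positivity
  have p11 : 0 ≤ 4 * (gb / g₀) := by positivity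
  refine ⟨K, by linarith only [hK₁, p1, p2, p3, p4, p5, p7, p8, p9, p10, p11], ?_⟩
  intro X _ _ Hm e0 T₀ R Rk Q v val q hIn0 hKq hRk hRc hfar hfar₀
  have hq := hIn0.q0
  have hIn := toIn hnet hIn0 hg₀ hgb0
  have hq1 : q ≤ 1 := by nlinarith
  have hr : 0 < q⁻¹ := inv_pos.2 hq
  have hr1 : 1 ≤ q⁻¹ := (one_le_inv₀ hq).2 hq1
  have hrK : K ≤ q⁻¹ := by
    rw [← one_div, le_div_iff₀ hq]; exact hKq
  have hHyp := hyp (val := val) hIn K hKq hg₀ hgb (by linarith only [hK₁, p1, p2, p3, p4, p5, p7, p8, p9, p10, p11]) (by linarith only [hK₁, p1, p2, p3, p5, p7, p8, p9, p10, p11]) (by linarith only [hK₁, p1, p2, p3, p4, p5, p7, p8, p10, p11])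
    (by linarith only [hK₁, p1, p2, p3, p4, p5, p7, p8, p9, p11]) hRk hfar hfar₀
  refine ⟨hHyp, ?_⟩
  intro Okf hOk
  set A := mkA Hm e0 T₀ R Rk Q v val q g₀ gb with hA
  -- the phase
  set j : ℕ := ⌊(q⁻¹) ^ 2⌋₊ with hj
  have hjr : (j : ℝ) ≤ (q⁻¹) ^ 2 := Nat.floor_le (by positivity)
  have hjr' : (q⁻¹) ^ 2 - 1 ≤ j := by
    have := Nat.lt_floor_add_one ((q⁻¹) ^ 2)
    linarith only [this]
  have hj1 : 1 ≤ j := by
    rw [hj, Nat.one_le_floor_iff]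
    exact one_le_pow₀ hr1
  set nP : ℕ := ⌈((q⁻¹) ^ 2 + 1) / q ^ 2250⌉₊ with hnP
  obtain ⟨c1, c2, c3, c4, c5, c6, c7, c8, c9⟩ := conds ε₀ c₀ lam C g₀ g₁ gb q K hε₀ hc₀ hc₁ hlam
    hC hg₀ hg₁ hq hKq (by linarith only [hK₁, p1, p2, p3, p4, p5, p7, p8, p9, p10, p11]) (by linarith only [hK₁, p2, p3, p4, p5, p7, p8, p9, p10, p11]) (by linarith only [hK₁, p1, p3, p4, p5, p7, p8, p9, p10, p11]) (by linarith only [hK₁, p1, p2, p4, p5, p7, p8, p9, p10, p11]) (by linarith only [hK₁, p1, p2, p3, p5, p7, p8, p9, p10, p11])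
    (by linarith only [hK₁, p1, p2, p3, p4, p7, p8, p9, p10, p11]) (by linarith only [hK₁, p1, p2, p3, p4, p5, p7, p8, p9, p10, p11]) (by linarith only [hK₁, p1, p2, p3, p4, p5, p8, p9, p10, p11]) (by linarith only [hK₁, p1, p2, p3, p4, p5, p7, p8, p9, p10, p11]) (j : ℝ) hjr
  set bL : ℝ := 20 * j * (q ^ 198) ^ 2 * Real.sqrt (1 / q ^ 2250 *
        Real.sqrt (1 / q ^ 2250 * (64 * (q⁻¹) ^ 1500))) / (q ^ 256 * g₀) +
      128 * j * q ^ 256 * (q ^ 198) ^ 2 * (1 / q ^ 2250) *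
        (((g₁ + 1) * q ^ 2000) * gb ^ 2 / g₀) / q ^ 2250 with hbL
  have hph := hPhn X A ((g₁ + 1) * q ^ 2000) g₀ ((q⁻¹) ^ 1500) (64 * (q⁻¹) ^ 1500) (q ^ 200)
    (gb ^ 2) (q ^ 256) ((q⁻¹) ^ 2) (q ^ 60) bL j nP hHyp
    (show q ^ 2250 ≤ 1 from pow_le_one₀ hq.le hq1) c1 c2
    (by rw [show A.v = v from rfl, hIn.vq]; exact c3)
    (by positivity) hj1 (by positivity) c4 c5 c6 c7 c8 le_rfl (by positivity) (Nat.le_ceil _)
  -- the number of kills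
  have hcard0 := card0 hnet hIn0 hg₀ hgb0 (q ^ 200) rfl
  have hnP' : (nP : ℝ) ≤ 2 * (q⁻¹) ^ 2252 + 1 := by
    have h1 : ((q⁻¹) ^ 2 + 1) / q ^ 2250 ≤ 2 * (q⁻¹) ^ 2252 := by
      have i1 : 1 / q ^ 2250 = (q⁻¹) ^ 2250 := by rw [inv_pow, one_div]
      have h2 : (1 : ℝ) ≤ (q⁻¹) ^ 2 := one_le_pow₀ hr1
      calc ((q⁻¹) ^ 2 + 1) / q ^ 2250 = ((q⁻¹) ^ 2 + 1) * (1 / q ^ 2250) := by ring
        _ ≤ ((q⁻¹) ^ 2 + (q⁻¹) ^ 2) * (1 / q ^ 2250) := by gcongr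
        _ = 2 * ((q⁻¹) ^ 2 * (q⁻¹) ^ 2250) := by rw [i1]; ring
        _ = 2 * (q⁻¹) ^ 2252 := by rw [← pow_add]
    have h3 := Nat.ceil_lt_add_one (show 0 ≤ ((q⁻¹) ^ 2 + 1) / q ^ 2250 by positivity)
    rw [← hnP] at h3
    linarith only [h1, h3]
  have hnum : ({x ∈ A.R | ∃ b ∈ A.Q, q ^ 200 < A.k A.T₀ b * ‖A.G A.T₀ b x‖ ^ 2} :
      Finset X).card + A.Q.card * nP ≤ A.N := by
    show _ ≤ ⌊(q⁻¹) ^ 2260⌋₊
    apply Nat.le_floor
    push_cast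
    have h1 : (({x ∈ A.R | ∃ b ∈ A.Q, q ^ 200 < A.k A.T₀ b * ‖A.G A.T₀ b x‖ ^ 2} :
      Finset X).card : ℝ) ≤ gb / g₀ * (q⁻¹) ^ 2202 := hcard0
    have h2 : (A.Q.card : ℝ) * nP ≤ (q⁻¹) ^ 2 * (2 * (q⁻¹) ^ 2252 + 1) :=
      mul_le_mul hIn.cQ hnP' (Nat.cast_nonneg _) (by positivity)
    have h3 : gb / g₀ * (q⁻¹) ^ 2202 ≤ 1 / 4 * (q⁻¹) ^ 2260 := by
      have h4 := small hq hq1 hKq (c := 4 * (gb / g₀)) p11 (by linarith only [hK₁, p1, p2, p3, p4, p5, p7, p8, p9, p10]) 58 (by norm_num)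
      calc gb / g₀ * (q⁻¹) ^ 2202 = gb / g₀ * ((q⁻¹) ^ (2202 + 58) * q ^ 58) := by rw [rq hq]
        _ = (4 * (gb / g₀) * q ^ 58) / 4 * (q⁻¹) ^ 2260 := by ring
        _ ≤ 1 / 4 * (q⁻¹) ^ 2260 := by gcongr
    have h5 : (q⁻¹) ^ 2 * (2 * (q⁻¹) ^ 2252 + 1) ≤ 3 / 4 * (q⁻¹) ^ 2260 := by
      have h6 : (q⁻¹) ^ 2 ≤ (q⁻¹) ^ 2254 := pow_le_pow_right₀ hr1 (by norm_num)
      have h7 : (q⁻¹) ^ 2254 = (q⁻¹) ^ (2254 + 6) * q ^ 6 := (rq hq _ _).symm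
      have h8 := small hq hq1 hKq (c := 4) (by norm_num) (by linarith only [hK₁, p1, p2, p3, p4, p5, p7, p8, p9, p10, p11]) 6 (by norm_num)
      calc (q⁻¹) ^ 2 * (2 * (q⁻¹) ^ 2252 + 1) = 2 * (q⁻¹) ^ 2254 + (q⁻¹) ^ 2 := by ring
        _ ≤ 3 * (q⁻¹) ^ 2254 := by linarith only [h6]
        _ = 3 * (q ^ 6) * (q⁻¹) ^ 2260 := by rw [h7]; ring
        _ ≤ 3 * (1 / 4) * (q⁻¹) ^ 2260 := by
            gcongr
            linarith only [h8]
        _ = _ := by ring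
    linarith only [h1, h2, h3, h5]
  have hp0 : 0 ≤ 3 * Real.exp (A.v * bL) * ((1 + A.R.card) * Real.exp (-(j : ℝ) / 5)) +
      Real.exp (2 * lam) * Real.exp (-(lam * (q⁻¹) ^ 2 / 20)) := by positivity
  have hB0 : 0 ≤ Real.exp (2 * lam) * B := by positivity
  have hatt := hAta X A ((g₁ + 1) * q ^ 2000) g₀ ((q⁻¹) ^ 1500) (64 * (q⁻¹) ^ 1500) (q ^ 200)
    (gb ^ 2) _ _ nP hHyp hp0 hB0 hph hnum Okf hOk
  refine Att.mono _ _ _ (ENNReal.ofReal_le_ofReal ?_) hatt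
  refine le_trans ?_ (hexp (q⁻¹) (by linarith only [p1, p2, p3, p4, p5, p7, p8, p9, p10, p11, hrK]))
  -- the probabilities
  set E : ℝ := Real.exp (-(lam / 20 * (q⁻¹) ^ 2)) with hE
  have hE0 : 0 < E := Real.exp_pos _
  have hr20 : 0 ≤ (q⁻¹) ^ 2 := by positivity
  have hEj : Real.exp (-(j : ℝ) / 5) ≤ 5 / 4 * E := exp_j hlam1 hr20 hjr'
  have hEv : Real.exp (A.v * bL) ≤ 3 := by
    apply exp_v
    rw [show A.v = v from rfl, hIn.vq]
    exact c9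
  have hE2 : Real.exp (2 * lam) ≤ 9 := exp_two hlam1
  have hEl : Real.exp (-(lam * (q⁻¹) ^ 2 / 20)) = E := by
    rw [hE, mul_div_right_comm]
  have hEr : Real.exp (-(q⁻¹) ^ 2) ≤ E := exp_r hlam1 hr20
  have hR0 : (A.R.card : ℝ) ≤ (q⁻¹) ^ D := hRc
  have hst : (∑ x ∈ A.R ∪ A.Q, (A.R.card : ℝ) * (4 * Real.exp (1 - A.l x * A.ε x))) +
      A.R.card * Real.exp (1 - A.lm * A.εm) + Real.exp (1 - A.lM * A.εM) ≤
      30 * (q⁻¹) ^ (2 * D) * Real.exp (-(q⁻¹) ^ 2) :=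
    start (Rk := Rk) (val := val) hIn hq1 D hRc hD
  have hU0 : 0 ≤ (∑ x ∈ A.R ∪ A.Q, (A.R.card : ℝ) * (4 * Real.exp (1 - A.l x * A.ε x))) +
      A.R.card * Real.exp (1 - A.lm * A.εm) + Real.exp (1 - A.lM * A.εM) := by positivity
  have hcQ : (A.Q.card : ℝ) ≤ (q⁻¹) ^ 2 := hIn.cQ
  have hRn : (0 : ℝ) ≤ A.R.card := Nat.cast_nonneg _
  exact fin_all _ _ _ _ _ _ _ _ _ _ _ hRn hU0 hcQ hR0 hst hEv hEj hE2 hEl hEr
    hE0.le hr1 (by linarith only [hB]) (Real.exp_pos _).le (Real.exp_pos _).le (Real.exp_pos _).le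

end Pool.Agent.ATT.H76
end
end -- Pool.Agent.Helper76_ATT.Att
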