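import Pool.Agent.Helper12_MEB.B102

/-!
# Merged copies (generated) of the modules

* `Pool.Agent.Helper38_KIL.KR1`
* `Pool.Agent.Helper54_ATT.GOK`
-/

set_option autoImplicit false

section -- Pool.Agent.Helper38_KIL.KR1

/-!
# One round of the pre-kills
-/

set_option autoImplicit false

open MeasureTheory ProbabilityTheory Function Filter

open scoped ENNReal BigOperators Topology NNReal Matrix

noncomputable section

namespace Pool.Agent.KIL.H38

open Pool.Agent.LE.QF (HJ HM gG LL dC JalStmt)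

/-! ### the exponential of a jet -/

theorem hj_exp (hJ : JalStmt) {ι : Type} [Fintype ι] [DecidableEq ι] (q : ℝ × (ι → ℝ))
    (P : ℝ × (ι → ℝ) → ℝ) (v l : ℝ) (g : ι → ℝ) (h : HJ P q v g l) (m lam β T : ℝ) :
    HJ (fun r => m * Real.exp (lam * (P r - 2) + β * (T - r.1))) q
      (m * Real.exp (lam * (v - 2) + β * (T - q.1)))
      (fun c => m * Real.exp (lam * (v - 2) + β * (T - q.1)) * (lam * g c))
      (m * Real.exp (lam * (v - 2) + β * (T - q.1)) * (lam * l - β +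
        1 / 2 * ∑ c, (lam * g c) ^ 2)) := by
  obtain ⟨j1, j2, j3, j4, j5, j6, j7, j8⟩ := hJ ι ℝ q
  -- the exponent
  have ht : HJ (fun r : ℝ × (ι → ℝ) => (β * (T - r.1) - 2 * lam : ℝ)) q
      (β * (T - q.1) - 2 * lam) (fun _ => 0) (deriv (fun t : ℝ => β * (T - t) - 2 * lam) q.1) := by
    refine j7 (fun t : ℝ => β * (T - t) - 2 * lam) ?_
    fun_prop
  have hd : deriv (fun t : ℝ => β * (T - t) - 2 * lam) q.1 = -β := by
    have h1 : HasDerivAt (fun t : ℝ => β * (T - t) - 2 * lam) (β * (0 - 1)) q.1 :=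
      (((hasDerivAt_const q.1 T).sub (hasDerivAt_id q.1)).const_mul β).sub_const _
    rw [h1.deriv]; ring
  rw [hd] at ht
  have hl := (j3 (fun _ => lam) P lam v 0 l (fun _ => 0) g (j1 lam) h).2.2
  have hE := (j3 _ _ _ _ _ _ _ _ hl ht).1
  have hX := (j5 _ _ _ _ hE).2 Real.exp Real.contDiff_exp.contDiffAt
  have hM := (j3 (fun _ => m) _ m _ 0 _ (fun _ => 0) _ (j1 m) hX).2.2
  have e0 : ∀ r : ℝ × (ι → ℝ), lam * P r + (β * (T - r.1) - 2 * lam) =
      lam * (P r - 2) + β * (T - r.1) := fun r => by ring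
  have e1 : lam * v + (β * (T - q.1) - 2 * lam) = lam * (v - 2) + β * (T - q.1) := by ring
  rw [Real.deriv_exp, Real.deriv_exp, e1] at hM
  have e2 : (fun r => m * Real.exp (lam * P r + (β * (T - r.1) - 2 * lam))) =
      fun r => m * Real.exp (lam * (P r - 2) + β * (T - r.1)) := by
    funext r; rw [e0 r]
  rw [e2] at hM
  refine ⟨hM.sm, hM.vl, fun c => ?_, ?_⟩
  · rw [hM.gr c]
    ring
  · rw [hM.ge]
    simp only [zero_mul, add_zero, Finset.sum_const_zero]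
    have : ∀ c, (lam * g c + v * 0 + 0) ^ 2 = (lam * g c) ^ 2 := fun c => by ring
    have e3 : (∑ x, (lam * g x + v * 0 + 0) ^ 2) = ∑ c, (lam * g c) ^ 2 :=
      Finset.sum_congr rfl fun c _ => this c
    ring_nf at e3 ⊢

/-! ### sums -/

theorem sum_ne {X : Type} [Fintype X] [DecidableEq X] (o : X) (f : X → ℝ) :
    ∑ v : {v : X // v ≠ o}, f v = ∑ v ∈ Finset.univ.erase o, f v := by
  exact (Finset.sum_subtype (p := fun v => v ≠ o) (Finset.univ.erase o) (fun x => by simp) f).symm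

theorem sum_sub {X : Type} [Fintype X] [DecidableEq X] (o : X) (S : Finset X) (hS : o ∉ S)
    (f : X → ℝ) : ∑ v ∈ S.subtype (fun v => v ≠ o), f v = ∑ v ∈ S, f v :=
  Finset.sum_subtype_of_mem f fun _ hx h => hS (h ▸ hx)

theorem sum_img {ι X : Type} [Fintype ι] [DecidableEq ι] [Fintype X] [DecidableEq X] (o : X)
    (e : ι → X) (he : Injective e) (ho : ∀ c, e c ≠ o) (f : X → ℝ) :
    ∑ v ∈ Finset.univ.image (fun c => (⟨e c, ho c⟩ : {v : X // v ≠ o})), f v = ∑ c, f (e c) := by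
  rw [Finset.sum_image fun a _ b _ h => he (Subtype.ext_iff.1 h)]

/-- the number of the heavy sites -/
theorem card_heavy {X : Type} [DecidableEq X] (S U : Finset X) (a : X → ℝ) (t : ℝ)
    (ht : 0 < t) (ha : ∀ v, 0 ≤ a v) (h1 : ∑ v ∈ U, a v = 1) (hS : S ⊆ U) :
    ((S.filter fun v => t < a v).card : ℝ) ≤ 1 / t := by
  rw [le_div_iff₀ ht, ← h1]
  calc ((S.filter fun v => t < a v).card : ℝ) * t = ∑ v ∈ S.filter (fun v => t < a v), t := by
        rw [Finset.sum_const, nsmul_eq_mul]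
    _ ≤ ∑ v ∈ S.filter (fun v => t < a v), a v :=
        Finset.sum_le_sum fun v hv => (Finset.mem_filter.1 hv).2.le
    _ ≤ ∑ v ∈ U, a v := Finset.sum_le_sum_of_subset_of_nonneg
        ((Finset.filter_subset _ _).trans hS) fun v _ _ => ha v

/-- the elementary inequality for the error of the gauge -/
theorem er_le {CK E R A : ℝ} (hC : 1 ≤ CK) (hR : 0 ≤ R) (hA : 0 ≤ A)
    (h : E ^ 2 ≤ 4 * R * A) : CK * E ≤ A / 10 + 10 * CK ^ 2 * R := by
  have h1 : 0 ≤ A / 10 + 10 * CK ^ 2 * R := by positivity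
  refine abs_le_of_sq_le_sq' ?_ h1 |>.2
  have h2 : (CK * E) ^ 2 ≤ CK ^ 2 * (4 * R * A) := by
    rw [mul_pow]; exact mul_le_mul_of_nonneg_left h (sq_nonneg _)
  nlinarith only [sq_nonneg (A / 10 - 10 * CK ^ 2 * R), h2]

/-- the estimates at a good point -/
theorem pt (hKnb : KnbStmt) {ε₁ CK : ℝ} (hCK : 1 ≤ CK)
    (hKal : ∀ (W ι : Type) [Fintype W] [Fintype ι] [DecidableEq W]
    (D R H : Finset W) (a p w z er s : W → ℝ) (x e : W → ι → ℝ) (A : ι → ℝ) (ε : ℝ),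
    0 ≤ ε → ε ≤ ε₁ → Disjoint D R → D ⊆ H →
    (∀ v, 0 ≤ a v) → ∑ v, a v = 1 →
    (∀ v ∈ R, 0 ≤ p v ∧ p v ≤ a v ∧ |a v * w v - p v| ≤ ε * a v ∧ |a v * z v| ≤ ε ∧ |w v| ≤ 1 + ε ∧
      (v ∉ H → p v = 0 ∧ w v = 0 ∧ z v = 0)) →
    (∀ c, 0 ≤ A c) → (∀ v c, 0 ≤ e v c ∧ x v c ^ 2 ≤ 4 * (a v * e v c)) →
    (∀ c, ∑ v ∈ H, e v c ≤ ε ^ 2 * A c) → (∀ c, |∑ v, e v c - A c| ≤ ε * A c) →
    (∀ v, 0 ≤ s v ∧ (v ∉ D → s v = 0)) → ∑ v, s v = ∑ c, A c →
    ∀ (d : ι → ℝ) (da : W → ι → ℝ) (la : W → ℝ) (y m ly lm : ℝ) (dy dm : ι → ℝ),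
      (∀ c, d c = ∑ v, x v c) → (∀ v c, da v c = -x v c + a v * d c) →
      (∀ v, la v = (∑ c, e v c) - s v + er v - a v * ((∑ v', ((∑ c, e v' c) + er v')) - ∑ c, A c) -
        (∑ c, x v c * d c) + a v * ∑ c, d c ^ 2) →
      m = ∑ v ∈ D, a v → y = m + ∑ v ∈ R, p v → (∀ c, dm c = ∑ v ∈ D, da v c) →
      (∀ c, dy c = dm c + ∑ v ∈ R, w v * da v c) → lm = ∑ v ∈ D, la v →
      ly = lm + ∑ v ∈ R, (w v * la v + z v / 2 * ∑ c, da v c ^ 2) →
        0 ≤ m ∧ m ≤ y ∧ y ≤ 1 ∧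
        (3 - 2 * y) * ly - ∑ c, dy c ^ 2 - lm / 10 ≤ -(∑ c, A c) / 5 + CK * ∑ v, |er v| ∧
        ∑ c, ((3 - 2 * y) * dy c - dm c / 10) ^ 2 ≤ CK * ∑ c, A c)
    {ι X : Type} [Fintype ι] [DecidableEq ι] [Fintype X] [DecidableEq X] (e : ι → X)
    (G : Matrix X X ℂ) (κ g : X → ℝ) (μ : ι → ℂ) (Rn : Finset X) (o : X) (κs g₀ δ Lc t₀ t₁ ε : ℝ)
    (θ : ℝ → ℝ) (he : Injective e) (hG : KGd e G κ g μ Rn o κs g₀ δ Lc) (hg : 0 < gam κ G o)
    (ht : 0 < t₀) (hε : 0 ≤ ε) (hε1 : ε ≤ ε₁) (hθ : Cut θ t₀ t₁ ε)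
    (hι : (Fintype.card ι : ℝ) ≤ 1 / t₀) (hδ : 2 * δ / g₀ ≤ ε)
    (hκ : κs * Real.sqrt (2 / t₀ * Lc) / g₀ ≤ ε ^ 2)
    (y m ly lm : ℝ) (dy dm : ι → ℝ) (hm : m = ∑ c, aa κ G o (e c)) (hy : y = ym e θ Rn κ G o)
    (hdm : ∀ c, dm c = ∑ c', da e κ G o (e c') c)
    (hdy : ∀ c, dy c = dm c + ∑ v ∈ Rn.filter (fun v => ∀ c, e c ≠ v),
        deriv θ (aa κ G o v) * da e κ G o v c)
    (hlm : lm = ∑ c, la e κ g G μ o (e c))
    (hly : ly = lm + ∑ v ∈ Rn.filter (fun v => ∀ c, e c ≠ v),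
      (deriv θ (aa κ G o v) * la e κ g G μ o v +
        deriv (deriv θ) (aa κ G o v) / 2 * ∑ c, da e κ G o v c ^ 2)) :
    0 ≤ m ∧ m ≤ y ∧ y ≤ 1 ∧
      (3 - 2 * y) * ly - ∑ c, dy c ^ 2 - lm / 10 ≤ -(∑ c, AA e κ g G o c) / 10 +
        10 * CK ^ 2 * (Real.sqrt ((Fintype.card ι : ℝ) * Real.sqrt ((Fintype.card ι : ℝ) * Lc)) *
          δ ^ 2 / g₀) ∧
      ∑ c, ((3 - 2 * y) * dy c - dm c / 10) ^ 2 ≤ CK * ∑ c, AA e κ g G o c := by
  obtain ⟨n1, n2, n3, n4, n5, n6, n7⟩ := hKnb ι X e G κ g μ Rn o κs g₀ δ Lc he hG hg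
  have hg0 : 0 < g₀ := hG.hg.1
  have ho : ∀ c, e c ≠ o := fun c h => hG.hR.2 (h ▸ hG.hR.1 c)
  set Rf : Finset X := Rn.filter (fun v => ∀ c, e c ≠ v) with hRf
  set Hf : Finset X := Rn.filter (fun v => (∃ c, e c = v) ∨ t₀ < aa κ G o v) with hHf
  have hoR : o ∉ Rf := fun h => hG.hR.2 (Finset.mem_filter.1 h).1
  have hoH : o ∉ Hf := fun h => hG.hR.2 (Finset.mem_filter.1 h).1
  -- the number of heavy sites
  have hcard : (Hf.card : ℝ) ≤ 2 / t₀ := by
    have h1 : Hf ⊆ Finset.univ.image e ∪ (Rn.filter fun v => t₀ < aa κ G o v) := by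
      intro v hv
      obtain ⟨hv1, hv2⟩ := Finset.mem_filter.1 hv
      rcases hv2 with ⟨c, rfl⟩ | hv2
      · exact Finset.mem_union_left _ (Finset.mem_image_of_mem _ (Finset.mem_univ _))
      · exact Finset.mem_union_right _ (Finset.mem_filter.2 ⟨hv1, hv2⟩)
    have h2 : (Hf.card : ℝ) ≤ (Fintype.card ι : ℝ) + ((Rn.filter fun v => t₀ < aa κ G o v).card : ℝ) := by
      have := (Finset.card_le_card h1).trans (Finset.card_union_le _ _)
      have h3 : (Finset.univ.image e).card ≤ Fintype.card ι := Finset.card_image_le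
      exact_mod_cast this.trans (Nat.add_le_add_right h3 _)
    have h3 := card_heavy Rn (Finset.univ.erase o) (aa κ G o) t₀ ht n1 n2 (fun v hv =>
      Finset.mem_erase.2 ⟨fun h => hG.hR.2 (h ▸ hv), Finset.mem_univ _⟩)
    have h4 : (2 : ℝ) / t₀ = 1 / t₀ + 1 / t₀ := by ring
    rw [h4]; linarith only [hι, h2, h3]
  have key := hKal {v : X // v ≠ o} ι
    (Finset.univ.image (fun c => (⟨e c, ho c⟩ : {v : X // v ≠ o})))
    (Rf.subtype (fun v => v ≠ o)) (Hf.subtype (fun v => v ≠ o))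
    (fun v => aa κ G o v) (fun v => θ (aa κ G o v)) (fun v => deriv θ (aa κ G o v))
    (fun v => deriv (deriv θ) (aa κ G o v)) (fun v => er e κ G μ o v)
    (fun v => ∑ c, if e c = v then AA e κ g G o c else 0)
    (fun v c => xx e κ G o v c) (fun v c => ee e κ G o v c) (AA e κ g G o) ε hε hε1 ?_ ?_
    (fun v => n1 v) ?_ ?_ n3 (fun v c => n4 v c) ?_ ?_ ?_ ?_
    (dd e κ G o) (fun v c => da e κ G o v c) (fun v => la e κ g G μ o v) y m ly lm dy dm ?_ ?_ ?_ ?_ ?_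
    ?_ ?_ ?_ ?_
  · obtain ⟨k1, k2, k3, k4, k5⟩ := key
    refine ⟨k1, k2, k3, k4.trans ?_, k5⟩
    rw [sum_ne o (fun v => |er e κ G μ o v|)]
    have hA : 0 ≤ ∑ c, AA e κ g G o c := Finset.sum_nonneg fun c _ => n3 c
    have h1 := er_le (CK := CK) (E := ∑ v ∈ Finset.univ.erase o, |er e κ G μ o v|)
      (R := Real.sqrt ((Fintype.card ι : ℝ) * Real.sqrt ((Fintype.card ι : ℝ) * Lc)) *
          δ ^ 2 / g₀) (A := ∑ c, AA e κ g G o c) hCK
      (by positivity) hA (n7.trans (le_of_eq (by ring)))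
    linarith only [h1]
  · rw [Finset.disjoint_left]
    intro v hv hv'
    obtain ⟨c, _, rfl⟩ := Finset.mem_image.1 hv
    exact (Finset.mem_filter.1 (Finset.mem_subtype.1 hv')).2 c rfl
  · intro v hv
    obtain ⟨c, _, rfl⟩ := Finset.mem_image.1 hv
    exact Finset.mem_subtype.2 (Finset.mem_filter.2 ⟨hG.hR.1 c, Or.inl ⟨c, rfl⟩⟩)
  · rw [sum_ne o (fun v => aa κ G o v)]; exact n2
  · intro v hv
    have hv1 := Finset.mem_filter.1 (Finset.mem_subtype.1 hv)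
    have ha := n1 (v : X)
    have hb := hθ.bd _ ha
    have hd1 := hθ.d1 _ ha
    refine ⟨hb.1, hb.2, hd1, hθ.d2 _ ha, ?_, ?_⟩
    · rcases eq_or_lt_of_le ha with h | h
      · have := (hθ.lo (aa κ G o v) (by rw [← h]; exact ht.le)).2.1
        simp only [this, abs_zero]; linarith only [hε]
      · have h1 : aa κ G o v * |deriv θ (aa κ G o v)| ≤ aa κ G o v * (1 + ε) := by
          have h2 : |aa κ G o v * deriv θ (aa κ G o v)| = aa κ G o v * |deriv θ (aa κ G o v)| := by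
            rw [abs_mul, abs_of_pos h]
          rw [← h2]
          have h3 := abs_le.1 hd1
          refine abs_le.2 ⟨?_, ?_⟩
          · nlinarith only [h3.1, hb.1, h]
          · nlinarith only [h3.2, hb.2]
        exact le_of_mul_le_mul_left h1 h
    · intro hH
      have h1 : aa κ G o v ≤ t₀ := by
        by_contra h2
        exact hH (Finset.mem_subtype.2 (Finset.mem_filter.2 ⟨hv1.1, Or.inr (not_le.1 h2)⟩))
      exact hθ.lo _ h1
  · intro c
    rw [sum_sub o Hf hoH (fun v => ee e κ G o v c)]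
    refine (n6 Hf (2 / t₀) (Finset.filter_subset _ _) hcard c).trans ?_
    exact mul_le_mul_of_nonneg_right hκ (n3 c)
  · intro c
    rw [sum_ne o (fun v => ee e κ G o v c)]
    exact (n5 c).trans (mul_le_mul_of_nonneg_right hδ (n3 c))
  · intro v
    refine ⟨Finset.sum_nonneg fun c _ => by split_ifs; exacts [n3 c, le_rfl], fun hv => ?_⟩
    refine Finset.sum_eq_zero fun c _ => ?_
    rw [if_neg]
    intro h
    exact hv (Finset.mem_image.2 ⟨c, Finset.mem_univ _, Subtype.ext h⟩)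
  · rw [Finset.sum_comm]
    refine Finset.sum_congr rfl fun c _ => ?_
    rw [sum_ne o (fun v => if e c = v then AA e κ g G o c else 0)]
    rw [Finset.sum_ite_eq, if_pos (Finset.mem_erase.2 ⟨ho c, Finset.mem_univ _⟩)]
  · intro c
    rw [sum_ne o (fun v => xx e κ G o v c)]; rfl
  · intro v c; rfl
  · intro v
    rw [sum_ne o (fun v' => (∑ c, ee e κ G o v' c) + er e κ G μ o v')]; rfl
  · rw [sum_img o e he ho (fun v => aa κ G o v)]; exact hm
  · rw [sum_sub o Rf hoR (fun v => θ (aa κ G o v)), hy, hm]; rfl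
  · intro c
    rw [sum_img o e he ho (fun v => da e κ G o v c)]; exact hdm c
  · intro c
    rw [sum_sub o Rf hoR (fun v => deriv θ (aa κ G o v) * da e κ G o v c)]; exact hdy c
  · rw [sum_img o e he ho (fun v => la e κ g G μ o v)]; exact hlm
  · rw [sum_sub o Rf hoR (fun v => deriv θ (aa κ G o v) * la e κ g G μ o v +
        deriv (deriv θ) (aa κ G o v) / 2 * ∑ c, da e κ G o v c ^ 2)]; exact hly


/-! ### the cut off -/

theorem cu_cont : Continuous cu := by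
  unfold cu
  fun_prop

theorem cu_mem {x : ℝ} (hx : 0 ≤ x) : 0 ≤ cu x ∧ cu x ≤ 1 := by
  unfold cu
  have h1 : 0 ≤ max (1 - x) 0 := le_max_right _ _
  have h2 : max (1 - x) 0 ≤ 1 := max_le (by linarith) zero_le_one
  constructor
  · have : max (1 - x) 0 ^ 3 ≤ 1 := pow_le_one₀ h1 h2
    linarith
  · have := pow_nonneg h1 3
    linarith

theorem cu_one {x : ℝ} (hx : 1 ≤ x) : cu x = 1 := by
  unfold cu
  rw [max_eq_right (by linarith)]
  norm_num

/-! ### the mass -/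

theorem mass {ι X : Type} [Fintype ι] [DecidableEq ι] [Fintype X] [DecidableEq X] (e : ι → X)
    (G : Matrix X X ℂ) (κ : X → ℝ) (Rn : Finset X) (o : X) (θ : ℝ → ℝ) (t₀ t₁ ε : ℝ)
    (hθ : Cut θ t₀ t₁ ε) (he : Injective e) (heR : ∀ c, e c ∈ Rn) (hoR : o ∉ Rn)
    (hκ : ∀ v, 0 ≤ κ v) (hg : 0 < gam κ G o) :
    (∀ v, 0 ≤ aa κ G o v) ∧ 0 ≤ ∑ c, aa κ G o (e c) ∧ 0 ≤ yn e θ Rn κ G o ∧
      ym e θ Rn κ G o = ∑ c, aa κ G o (e c) + yn e θ Rn κ G o ∧ ym e θ Rn κ G o ≤ 1 := by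
  have ha : ∀ v, 0 ≤ aa κ G o v := fun v =>
    div_nonneg (mul_nonneg (hκ v) (by positivity)) hg.le
  have h1 : ∑ v ∈ Finset.univ.erase o, aa κ G o v = 1 := by
    unfold aa
    rw [← Finset.sum_div]
    exact div_self hg.ne'
  refine ⟨ha, Finset.sum_nonneg fun c _ => ha _, Finset.sum_nonneg fun v _ => (hθ.bd _ (ha v)).1,
    rfl, ?_⟩
  have h2 : ym e θ Rn κ G o ≤ ∑ c, aa κ G o (e c) +
      ∑ v ∈ Rn.filter (fun v => ∀ c, e c ≠ v), aa κ G o v := by
    unfold ym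
    exact add_le_add le_rfl (Finset.sum_le_sum fun v _ => (hθ.bd _ (ha v)).2)
  have h3 : ∑ c, aa κ G o (e c) = ∑ v ∈ Finset.univ.image e, aa κ G o v := by
    rw [Finset.sum_image fun a _ b _ h => he h]
  have hdis : Disjoint (Finset.univ.image e) (Rn.filter (fun v => ∀ c, e c ≠ v)) := by
    rw [Finset.disjoint_left]
    intro v hv hv'
    obtain ⟨c, _, rfl⟩ := Finset.mem_image.1 hv
    exact (Finset.mem_filter.1 hv').2 c rfl
  rw [h3, ← Finset.sum_union hdis] at h2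
  refine h2.trans ?_
  rw [← h1]
  refine Finset.sum_le_sum_of_subset_of_nonneg ?_ fun v _ _ => ha v
  intro v hv
  refine Finset.mem_erase.2 ⟨?_, Finset.mem_univ _⟩
  rintro rfl
  rcases Finset.mem_union.1 hv with h | h
  · obtain ⟨c, _, h'⟩ := Finset.mem_image.1 h
    exact hoR (h' ▸ heR c)
  · exact hoR (Finset.mem_filter.1 h).1

/-- KR1 -/
theorem kr1 (hJ : JalStmt) (hKja : KjaStmt) (hKnb : KnbStmt) (hKal : KalStmt) (hU : Uf3Stmt) :
    Kr1Stmt := by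
  obtain ⟨ε₁, CK, hε₁, hCK, hKal⟩ := hKal
  refine ⟨ε₁, 1 / (10 * CK), CK, 5, hε₁, by positivity, ?_, hCK, by norm_num, ?_⟩
  · rw [div_le_one (by positivity)]
    linarith
  intro ι X _ _ _ _ e Gm kp g μ Rn o T κs g₀ δ Lc t₀ t₁ ε β m θ u b hT ht₀ ht01 ht1 hε hεε hθ hb hb0
    hι hδ hκ hβ hm0 hm1 hq heR hoR
  have hbI : 0 ≤ ∫ t in (0 : ℝ)..T, b t :=
    intervalIntegral.integral_nonneg hT.le fun t _ => hb0 t
  have ho : ∀ c, e c ≠ o := fun c h => hoR (h ▸ heR c)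
  rcases le_or_gt g₀ 0 with hg0 | hg0
  · -- no good points
    have hu : ∀ q : ℝ × (ι → ℝ), 0 ≤ q.1 → q.1 ≤ T → cu (u q) = 1 := by
      intro q h1 h2
      obtain ⟨_, _, _, _, _, h3⟩ := hq q h1 h2
      refine cu_one ?_
      by_contra h4
      exact absurd (h3 (not_le.1 h4)).2.hg.1 (not_lt.2 hg0)
    have h1 : ∀ V : ι → ℝ, cu (u (T, V)) = 1 := fun V => hu (T, V) hT.le le_rfl
    simp only [h1, hu (0, 0) le_rfl hT.le, sub_self, zero_mul, zero_add, mul_one]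
    rw [integral_const]
    simp only [probReal_univ, smul_eq_mul, one_mul]
    nlinarith only [hbI]
  have he : Injective e := (hq (0, 0) le_rfl hT.le).1.inj
  have hβ0 : 0 ≤ β := by rw [hβ]; positivity
  set lam : ℝ := 1 / (10 * CK) with hlam
  have hlam0 : 0 < lam := by positivity
  have hlamC : lam * CK = 1 / 10 := by rw [hlam]; field_simp
  set Φ : ℝ × (ι → ℝ) → ℝ := fun r =>
    m * Real.exp (lam * (Ph e θ Rn (kp r.1) (Gm r) o - 2) + β * (T - r.1)) with hΦ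
  -- bounds for `Φ`
  have hms : ∀ q : ℝ × (ι → ℝ), 0 ≤ q.1 → q.1 ≤ T → _ := fun q h1 h2 =>
    mass e (Gm q) (kp q.1) Rn o θ t₀ t₁ ε hθ he heR hoR (hq q h1 h2).2.1 (hq q h1 h2).2.2.1
  have hΦ0 : ∀ q, 0 ≤ Φ q := fun q => mul_nonneg hm0 (Real.exp_pos _).le
  have hΦ1 : ∀ q : ℝ × (ι → ℝ), 0 ≤ q.1 → q.1 ≤ T → Φ q ≤ 1 := by
    intro q h1 h2
    obtain ⟨_, m1, m2, m3, m4⟩ := hms q h1 h2
    refine le_trans (mul_le_mul_of_nonneg_left (Real.exp_le_exp.2 ?_) hm0) hm1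
    have h3 : Ph e θ Rn (kp q.1) (Gm q) o ≤ 2 := by
      unfold Ph
      have h5 : 0 ≤ ym e θ Rn (kp q.1) (Gm q) o := by rw [m3]; linarith only [m1, m2]
      nlinarith only [m1, m4]
    have h4 : lam * (Ph e θ Rn (kp q.1) (Gm q) o - 2) ≤ 0 :=
      mul_nonpos_of_nonneg_of_nonpos hlam0.le (by linarith only [h3])
    nlinarith only [mul_nonneg hβ0 h1, h4]
  -- the jet
  have hjet : ∀ q : ℝ × (ι → ℝ), 0 ≤ q.1 → q.1 ≤ T → ∀ (y mm ly lm : ℝ) (dy dm : ι → ℝ),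
      mm = ∑ c, aa (kp q.1) (Gm q) o (e c) → y = ym e θ Rn (kp q.1) (Gm q) o →
      (∀ c, dm c = ∑ c', da e (kp q.1) (Gm q) o (e c') c) →
      (∀ c, dy c = dm c + ∑ v ∈ Rn.filter (fun v => ∀ c, e c ≠ v),
        deriv θ (aa (kp q.1) (Gm q) o v) * da e (kp q.1) (Gm q) o v c) →
      lm = ∑ c, la e (kp q.1) g (Gm q) (μ q) o (e c) →
      ly = lm + ∑ v ∈ Rn.filter (fun v => ∀ c, e c ≠ v),
        (deriv θ (aa (kp q.1) (Gm q) o v) * la e (kp q.1) g (Gm q) (μ q) o v +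
        deriv (deriv θ) (aa (kp q.1) (Gm q) o v) / 2 * ∑ c, da e (kp q.1) (Gm q) o v c ^ 2) →
      HJ Φ q (Φ q) (fun c => Φ q * (lam * ((3 - 2 * y) * dy c - dm c / 10)))
        (Φ q * (lam * ((3 - 2 * y) * ly - ∑ c, dy c ^ 2 - lm / 10) - β +
          1 / 2 * ∑ c, (lam * ((3 - 2 * y) * dy c - dm c / 10)) ^ 2)) := by
    intro q h1 h2 y mm ly lm dy dm e1 e2 e3 e4 e5 e6
    obtain ⟨hK, _, hgam, _⟩ := hq q h1 h2
    have h := hKja ι X e q Gm kp (Gm q) (kp q.1) g (μ q) o Rn θ hK ho hoR hgam hθ.sm y mm ly lm dy dm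
      e1 e2 e3 e4 e5 e6
    have h3 := hj_exp hJ q _ _ _ _ h m lam β T
    have h4 : 3 * y - y ^ 2 - mm / 10 = Ph e θ Rn (kp q.1) (Gm q) o := by rw [e1, e2]; rfl
    rw [h4] at h3
    exact h3
  have main := hU ι T 2 5 b (fun _ => 0) u Φ
    (fun q => lam * Φ q * (∑ c, AA e (kp q.1) g (Gm q) o c) / 20) hT (by norm_num) (by norm_num) hb
    continuous_const (fun t => ⟨hb0 t, le_rfl⟩) ?_
  · -- the end
    have e0 : Φ (0, 0) = m * Real.exp (β * T + lam * (Ph e θ Rn (kp 0) (Gm (0, 0)) o - 2)) := by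
      simp only [hΦ, sub_zero]
      rw [add_comm]
    rw [e0] at main
    simp only [intervalIntegral.integral_zero, add_zero] at main
    refine le_trans ?_ main
    have hcont : Continuous fun V : ι → ℝ =>
        (1 - cu (u (T, V))) * Φ (T, V) + 5 * cu (u (T, V)) := by
      have hc1 : Continuous fun V : ι → ℝ => u (T, V) := by
        rw [continuous_iff_continuousAt]
        intro V
        have h1 := (hq (T, V) hT.le le_rfl).2.2.2.2.1.continuousAt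
        exact ContinuousAt.comp (f := fun V : ι → ℝ => (T, V)) (g := u) h1
          (Continuous.prodMk_right T).continuousAt
      have hc2 : Continuous fun V : ι → ℝ => Φ (T, V) := by
        rw [continuous_iff_continuousAt]
        intro V
        have h1 := (hjet (T, V) hT.le le_rfl _ _ _ _ _ _ rfl rfl (fun _ => rfl) (fun _ => rfl) rfl
          rfl).sm.continuousAt
        exact ContinuousAt.comp (f := fun V : ι → ℝ => (T, V)) (g := Φ) h1
          (Continuous.prodMk_right T).continuousAt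
      have hc3 := cu_cont.comp hc1
      exact ((continuous_const.sub hc3).mul hc2).add (continuous_const.mul hc3)
    refine integral_mono_of_nonneg (Eventually.of_forall fun V => ?_) ?_
      (Eventually.of_forall fun V => ?_)
    · have h1 := cu_mem (hq (T, V) hT.le le_rfl).2.2.2.1
      have h2 : 0 ≤ 1 - cu (u (T, V)) := by linarith only [h1.2]
      have h3 := h1.1
      simp only [Pi.zero_apply]
      positivity
    · refine Integrable.of_bound hcont.aestronglyMeasurable 6 (Eventually.of_forall fun V => ?_)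
      have h1 := cu_mem (hq (T, V) hT.le le_rfl).2.2.2.1
      have h2 := hΦ0 (T, V)
      have h3 := hΦ1 (T, V) hT.le le_rfl
      rw [Real.norm_of_nonneg (by nlinarith only [mul_nonneg (sub_nonneg.2 h1.2) h2, h1, h2])]
      nlinarith only [mul_nonneg h1.1 h2, h1, h2, h3]
    · have h1 := cu_mem (hq (T, V) hT.le le_rfl).2.2.2.1
      obtain ⟨_, m1, m2, m3, m4⟩ := hms (T, V) hT.le le_rfl
      have h2 : m * Real.exp (lam * (3 * yn e θ Rn (kp T) (Gm (T, V)) o -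
          yn e θ Rn (kp T) (Gm (T, V)) o ^ 2 - 2)) ≤ Φ (T, V) := by
        refine mul_le_mul_of_nonneg_left (Real.exp_le_exp.2 ?_) hm0
        simp only [sub_self, mul_zero, add_zero]
        refine mul_le_mul_of_nonneg_left (sub_le_sub_right ?_ _) hlam0.le
        unfold Ph
        simp only at m1 m2 m3 m4
        rw [m3] at m4 ⊢
        nlinarith only [m4, m1]
      have h3 := mul_le_mul_of_nonneg_left h2 (sub_nonneg.2 h1.2)
      simp only
      linarith only [h3]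
  · intro q h1 h2
    obtain ⟨hK, hkp, hgam, hu0, hu1, hu2⟩ := hq q h1 h2
    have hj := hjet q h1 h2 _ _ _ _ _ _ rfl rfl (fun _ => rfl) (fun _ => rfl) rfl rfl
    refine ⟨hu0, hu1, hj.sm, hΦ0 q, hΦ1 q h1 h2, fun hlt => ?_⟩
    obtain ⟨hL, hG⟩ := hu2 hlt
    obtain ⟨p1, p2, p3, p4, p5⟩ := pt hKnb hCK hKal e (Gm q) (kp q.1) g (μ q) Rn o κs g₀ δ Lc t₀ t₁ ε
      θ he hG hgam ht₀ hε hεε hθ hι hδ hκ _ _ _ _ _ _ rfl rfl (fun _ => rfl) (fun _ => rfl) rfl rfl
    have hS : 0 ≤ ∑ c, AA e (kp q.1) g (Gm q) o c := by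
      refine Finset.sum_nonneg fun c _ => ?_
      unfold AA
      have := hG.hg.2 c
      have h3 : 0 ≤ g (e c) := by linarith only [hG.hg.1, hg0, this]
      positivity
    -- the constant
    have hR : 10 * CK ^ 2 * (Real.sqrt ((Fintype.card ι : ℝ) * Real.sqrt ((Fintype.card ι : ℝ) * Lc)) *
          δ ^ 2 / g₀) * lam ≤ β := by
      have h3 : Real.sqrt ((Fintype.card ι : ℝ) * Real.sqrt ((Fintype.card ι : ℝ) * Lc)) ≤
          Real.sqrt (1 / t₀ * Real.sqrt (1 / t₀ * Lc)) := by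
        rcases le_total 0 Lc with h | h
        · gcongr
        · have h5 : Real.sqrt ((Fintype.card ι : ℝ) * Lc) = 0 :=
            Real.sqrt_eq_zero_of_nonpos (mul_nonpos_of_nonneg_of_nonpos (Nat.cast_nonneg _) h)
          rw [h5, mul_zero, Real.sqrt_zero]
          exact Real.sqrt_nonneg _
      have h4 : 10 * CK ^ 2 * (Real.sqrt ((Fintype.card ι : ℝ) *
          Real.sqrt ((Fintype.card ι : ℝ) * Lc)) * δ ^ 2 / g₀) * lam =
          CK * δ ^ 2 * Real.sqrt ((Fintype.card ι : ℝ) * Real.sqrt ((Fintype.card ι : ℝ) * Lc)) / g₀ *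
            (10 * (lam * CK)) := by ring
      have h6 : (10 : ℝ) * (1 / 10) = 1 := by norm_num
      rw [h4, hlamC, hβ, h6, mul_one]
      exact div_le_div_of_nonneg_right (mul_le_mul_of_nonneg_left h3 (by positivity)) hg0.le
    refine ⟨hL, ?_, ?_⟩
    · rw [hj.ge]
      set P := Φ q with hP
      have hP0 : 0 ≤ P := hΦ0 q
      have e1 : (∑ c, (lam * ((3 - 2 * ym e θ Rn (kp q.1) (Gm q) o) * ((∑ c', da e (kp q.1) (Gm q) o
          (e c') c) + ∑ v ∈ Rn.filter (fun v => ∀ c, e c ≠ v), deriv θ (aa (kp q.1) (Gm q) o v) *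
          da e (kp q.1) (Gm q) o v c) - (∑ c', da e (kp q.1) (Gm q) o (e c') c) / 10)) ^ 2) =
          lam ^ 2 * ∑ c, ((3 - 2 * ym e θ Rn (kp q.1) (Gm q) o) * ((∑ c', da e (kp q.1) (Gm q) o
          (e c') c) + ∑ v ∈ Rn.filter (fun v => ∀ c, e c ≠ v), deriv θ (aa (kp q.1) (Gm q) o v) *
          da e (kp q.1) (Gm q) o v c) - (∑ c', da e (kp q.1) (Gm q) o (e c') c) / 10) ^ 2 := by
        rw [Finset.mul_sum]
        exact Finset.sum_congr rfl fun c _ => by ring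
      rw [e1]
      have h5 := mul_le_mul_of_nonneg_left p5 (sq_nonneg lam)
      have h6 := mul_le_mul_of_nonneg_left p4 hlam0.le
      have h7 : lam ^ 2 * (CK * ∑ c, AA e (kp q.1) g (Gm q) o c) =
          lam * (∑ c, AA e (kp q.1) g (Gm q) o c) / 10 := by
        have : lam ^ 2 * (CK * ∑ c, AA e (kp q.1) g (Gm q) o c) =
          (lam * CK) * (lam * ∑ c, AA e (kp q.1) g (Gm q) o c) := by ring
        rw [this, hlamC]; ring
      rw [h7] at h5
      have h8 : -(lam * P * (∑ c, AA e (kp q.1) g (Gm q) o c) / 20) + 0 =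
        P * (-(lam * (∑ c, AA e (kp q.1) g (Gm q) o c) / 20)) := by ring
      rw [h8]
      refine mul_le_mul_of_nonneg_left ?_ hP0
      linarith only [hR, h5, h6]
    · have e2 : ∀ c, dC c Φ q = _ := fun c => hj.gr c
      simp only [e2]
      set P := Φ q with hP
      have hP0 : 0 ≤ P := hΦ0 q
      have hP1 : P ≤ 1 := hΦ1 q h1 h2
      have e1 : (∑ c, (P * (lam * ((3 - 2 * ym e θ Rn (kp q.1) (Gm q) o) * ((∑ c', da e (kp q.1) (Gm q) o
          (e c') c) + ∑ v ∈ Rn.filter (fun v => ∀ c, e c ≠ v), deriv θ (aa (kp q.1) (Gm q) o v) *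
          da e (kp q.1) (Gm q) o v c) - (∑ c', da e (kp q.1) (Gm q) o (e c') c) / 10))) ^ 2) =
          P ^ 2 * (lam ^ 2 * ∑ c, ((3 - 2 * ym e θ Rn (kp q.1) (Gm q) o) * ((∑ c', da e (kp q.1) (Gm q) o
          (e c') c) + ∑ v ∈ Rn.filter (fun v => ∀ c, e c ≠ v), deriv θ (aa (kp q.1) (Gm q) o v) *
          da e (kp q.1) (Gm q) o v c) - (∑ c', da e (kp q.1) (Gm q) o (e c') c) / 10) ^ 2) := by
        rw [Finset.mul_sum, Finset.mul_sum]
        exact Finset.sum_congr rfl fun c _ => by ring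
      rw [e1]
      have h5 := mul_le_mul_of_nonneg_left p5 (sq_nonneg lam)
      have h7 : lam ^ 2 * (CK * ∑ c, AA e (kp q.1) g (Gm q) o c) =
          lam * (∑ c, AA e (kp q.1) g (Gm q) o c) / 10 := by
        have : lam ^ 2 * (CK * ∑ c, AA e (kp q.1) g (Gm q) o c) =
          (lam * CK) * (lam * ∑ c, AA e (kp q.1) g (Gm q) o c) := by ring
        rw [this, hlamC]; ring
      rw [h7] at h5
      have h6 := mul_le_mul_of_nonneg_left h5 (sq_nonneg P)
      refine h6.trans ?_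
      have h9 : 0 ≤ lam * ∑ c, AA e (kp q.1) g (Gm q) o c := mul_nonneg hlam0.le hS
      have h10 : P ^ 2 ≤ P := by nlinarith only [hP0, hP1]
      calc P ^ 2 * (lam * (∑ c, AA e (kp q.1) g (Gm q) o c) / 10)
          ≤ P * (lam * (∑ c, AA e (kp q.1) g (Gm q) o c) / 10) :=
            mul_le_mul_of_nonneg_right h10 (by linarith only [h9])
        _ = 2 * (lam * P * (∑ c, AA e (kp q.1) g (Gm q) o c) / 20) := by ring

end Pool.Agent.KIL.H38
end
end -- Pool.Agent.Helper38_KIL.KR1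

section -- Pool.Agent.Helper54_ATT.GOK

/-!
# GOK: the functional and the good points in a kill run
-/

set_option autoImplicit false
set_option linter.unusedSectionVars false

open MeasureTheory ProbabilityTheory Function Filter

open scoped ENNReal BigOperators Topology NNReal Matrix

noncomputable section

namespace Pool.Agent.ATT.H54

open Pool.Agent.LE.QF (HJ HM gG LL dC)
open Pool.Agent.KIL (KJ KGd gam aa yn ym cu)
open Pool.Agent.ANP (Cfg)

lemma cs_nn (l δ p p' : ℝ) (hl : 0 ≤ l) (hδ : 0 ≤ δ) (hp : 0 ≤ p) (hp' : 0 ≤ p') :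
    0 ≤ cs l δ p p' := by
  unfold cs
  positivity

lemma cm_nn (lm εm δ gb p : ℝ) (hl : 0 ≤ lm) (he : 0 ≤ εm) (hδ : 0 ≤ δ) (hg : 0 ≤ gb)
    (hp : 0 ≤ p) : 0 ≤ cm lm εm δ gb p := by
  unfold cm
  positivity

lemma cM_nn (lM εM δ gb : ℝ) (hl : 0 ≤ lM) (he : 0 ≤ εM) (hδ : 0 ≤ δ) (hg : 0 ≤ gb) :
    0 ≤ cM lM εM δ gb := by
  unfold cM
  positivity

section

variable {X : Type} [Fintype X] [DecidableEq X]

lemma mx_nn (κ : X → ℝ) (S : Finset X) (G Go : Matrix X X ℂ) (x : X) (hκ : ∀ y ∈ S, 0 ≤ κ y) :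
    0 ≤ mx κ S G Go x :=
  Finset.sum_nonneg fun y hy => mul_nonneg (hκ y hy) (by positivity)

/-- Minkowski in `ℓ²(S, κ)` -/
lemma mx_tri (κ : X → ℝ) (S : Finset X) (G Go G₀ : Matrix X X ℂ) (x : X) (hκ : ∀ y ∈ S, 0 ≤ κ y) :
    Real.sqrt (mx κ S G G₀ x) ≤ Real.sqrt (mx κ S G Go x) + Real.sqrt (mx κ S Go G₀ x) := by
  have h1 : Real.sqrt (∑ y ∈ S, (Real.sqrt (κ y) * ‖G x y - G₀ x y‖) ^ 2) ≤
      Real.sqrt (∑ y ∈ S, (Real.sqrt (κ y) * ‖G x y - Go x y‖ +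
        Real.sqrt (κ y) * ‖Go x y - G₀ x y‖) ^ 2) := by
    apply Real.sqrt_le_sqrt
    apply Finset.sum_le_sum
    intro y hy
    apply pow_le_pow_left₀ (by positivity)
    rw [← mul_add]
    apply mul_le_mul_of_nonneg_left _ (Real.sqrt_nonneg _)
    have h : G x y - G₀ x y = (G x y - Go x y) + (Go x y - G₀ x y) := by ring
    rw [h]
    exact norm_add_le _ _
  have h2 := Real.Lp_add_le (p := 2) S (fun y => Real.sqrt (κ y) * ‖G x y - Go x y‖)
    (fun y => Real.sqrt (κ y) * ‖Go x y - G₀ x y‖) (by norm_num)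
  have e : ∀ (A B : Matrix X X ℂ), mx κ S A B x =
      ∑ y ∈ S, (Real.sqrt (κ y) * ‖A x y - B x y‖) ^ 2 := by
    intro A B
    unfold mx
    apply Finset.sum_congr rfl
    intro y hy
    rw [mul_pow, Real.sq_sqrt (hκ y hy)]
  rw [e, e, e]
  refine h1.trans ?_
  have f : ∀ u : X → ℝ, (∀ y ∈ S, 0 ≤ u y) →
      (∑ y ∈ S, |u y| ^ (2 : ℝ)) ^ ((1 : ℝ) / 2) = Real.sqrt (∑ y ∈ S, u y ^ 2) := by
    intro u hu
    rw [Real.sqrt_eq_rpow]
    congr 1
    apply Finset.sum_congr rfl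
    intro y hy
    rw [abs_of_nonneg (hu y hy)]
    norm_cast
  rw [f _ (fun y _ => by positivity), f _ (fun y _ => by positivity),
    f _ (fun y _ => by positivity)] at h2
  exact h2

variable (A : Pa X)

lemma hp_nn {κs g₀ Λ Lc hK kI : ℝ} (h : A.Hyp κs g₀ Λ Lc hK kI) (x c : X) (hx : x ∈ A.R ∪ A.Q) :
    0 ≤ A.p x c := by
  unfold Pa.p
  have := (h.le x hx).2.2
  positivity

lemma al_R (T : Cfg X) : A.al T ⊆ A.R := Finset.filter_subset _ _

lemma kd_R (T : Cfg X) : A.kd T ⊆ A.R := Finset.filter_subset _ _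

lemma kd_al (T : Cfg X) : Disjoint (A.kd T) (A.al T) := by
  rw [Finset.disjoint_left]
  intro x hx hx'
  unfold Pa.kd at hx
  unfold Pa.al at hx'
  rw [Finset.mem_filter] at hx hx'
  exact hx'.2 hx.2

/-- the gauge has positive imaginary part where the clock is positive -/
lemma st_pimb {κs g₀ Λ Lc hK kI : ℝ} (h : A.Hyp κs g₀ Λ Lc hK kI) {T : Cfg X} {Qr : Finset X}
    {Go : Matrix X X ℂ} (hS : A.St T Qr Go) (x : X) (hx : 0 < T.s x) : 0 < (T.mb x).im := by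
  rw [hS.mb]
  apply h.pimb
  by_cases h1 : x ∈ A.R
  · rw [(h.hR x h1).1]; exact h.pos.2.2.1
  by_cases h2 : x ∈ A.Q
  · by_cases h3 : x ∈ Qr
    · rw [← (hS.rem x h3).2]; exact hx
    · rw [(hS.app x h2 h3).2] at hx
      exact absurd hx (lt_irrefl _)
  · rw [← (hS.off x h1 h2).2]; exact hx

/-- the clock of a running site -/
lemma st_al {T : Cfg X} {Qr : Finset X} {Go : Matrix X X ℂ} (hS : A.St T Qr Go) (x : X)
    (hx : x ∈ A.al T) : T.s x = A.v := by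
  have h1 := al_R A T hx
  unfold Pa.al at hx
  rw [Finset.mem_filter] at hx
  rcases hS.run x h1 with h2 | h2
  · exact absurd h2 hx.2
  · exact h2.2

/-- the absorption of a running site -/
lemma st_k {κs g₀ Λ Lc hK kI : ℝ} (h : A.Hyp κs g₀ Λ Lc hK kI) {T : Cfg X} {Qr : Finset X}
    {Go : Matrix X X ℂ} (hS : A.St T Qr Go) (x : X) (hx : x ∈ A.al T) :
    ka A.η A.e0 T x = A.η + A.v * (A.T₀.mb x).im ∧ A.k A.T₀ x = ka A.η A.e0 T x := by
  have h1 := st_al A hS x hx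
  have hv : A.v ≠ 0 := ne_of_gt h.pos.2.2.1
  have h3 := (h.hR x (al_R A T hx)).1
  constructor
  · unfold ka
    rw [h1, if_neg hv, hS.mb]
  · unfold Pa.k ka
    rw [h1, if_neg hv, hS.mb, h3, if_neg hv]

/-- the change of the entries of the reference matrix -/
lemma st_go {κs g₀ Λ Lc hK kI : ℝ} (h : A.Hyp κs g₀ Λ Lc hK kI) {T : Cfg X} {Qr : Finset X}
    {Go : Matrix X X ℂ} (hS : A.St T Qr Go) (x y : X) (hx : x ∈ A.al T ∪ Qr) (hy : y ∈ A.al T) :
    ‖Go x y - A.G A.T₀ x y‖ + 2 * A.ε x ≤ A.J x := by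
  have h1 := hS.go x hx y hy
  have hxR : x ∈ A.R ∪ A.Q := by
    rcases Finset.mem_union.mp hx with h2 | h2
    · exact Finset.mem_union_left _ (al_R A T h2)
    · exact Finset.mem_union_right _ (hS.sub h2)
  have h2 := h.jj x hxR
  have hif : (if x ∈ Qr then (A.k A.T₀ x)⁻¹ else A.dT) = (if x ∈ A.Q then (A.k A.T₀ x)⁻¹ else A.dT) := by
    rcases Finset.mem_union.mp hx with h3 | h3
    · have h4 : x ∉ A.Q := Finset.disjoint_left.mp h.dis (al_R A T h3)
      have h5 : x ∉ Qr := fun h6 => h4 (hS.sub h6)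
      rw [if_neg h4, if_neg h5]
    · rw [if_pos h3, if_pos (hS.sub h3)]
  rw [hif] at h1
  have hc : ((A.Q \ Qr).card : ℝ) ≤ (A.Q.card : ℝ) := by
    exact_mod_cast Finset.card_le_card Finset.sdiff_subset
  have h3 : ((A.Q \ Qr).card : ℝ) * (2 * Real.sqrt (A.dT * if x ∈ A.Q then (A.k A.T₀ x)⁻¹ else A.dT)) ≤
      (A.Q.card : ℝ) * (2 * Real.sqrt (A.dT * if x ∈ A.Q then (A.k A.T₀ x)⁻¹ else A.dT)) :=
    mul_le_mul_of_nonneg_right hc (by positivity)
  linarith only [h1, h2, h3]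

lemma st_p {κs g₀ Λ Lc hK kI : ℝ} (h : A.Hyp κs g₀ Λ Lc hK kI) {T : Cfg X} {Qr : Finset X}
    {Go : Matrix X X ℂ} (hS : A.St T Qr Go) (x y : X) (hx : x ∈ A.al T ∪ Qr) (hy : y ∈ A.al T) :
    ‖Go x y‖ + 2 * A.ε x ≤ A.p x y := by
  have h1 := st_go A h hS x y hx hy
  have h2 : ‖Go x y‖ ≤ ‖Go x y - A.G A.T₀ x y‖ + ‖A.G A.T₀ x y‖ := by
    have h3 : Go x y = (Go x y - A.G A.T₀ x y) + A.G A.T₀ x y := by ring
    calc ‖Go x y‖ = ‖(Go x y - A.G A.T₀ x y) + A.G A.T₀ x y‖ := by rw [← h3]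
      _ ≤ _ := norm_add_le _ _
  unfold Pa.p
  linarith only [h1, h2]

/-- the budgets during the kill of `D` -/
lemma st_bud {κs g₀ Λ Lc hK kI : ℝ} (h : A.Hyp κs g₀ Λ Lc hK kI) {T : Cfg X} {D : Finset X}
    (hD : D ⊆ A.al T) (hN : (A.kd T).card + D.card ≤ A.N) (t : ℝ) (htv : t ≤ A.v) :
    (∀ x ∈ A.R ∪ A.Q, ∀ y ∈ A.R,
      0 ≤ A.bud T x y - (∑ c ∈ D, cs (A.l x) A.δ (A.p x c) (A.p y c)) * t) ∧
    (∀ x ∈ A.R, 0 ≤ A.bum T x - (∑ c ∈ D, cm A.lm A.εm A.δ A.gb (A.p x c)) * t) ∧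
    0 ≤ A.buM T - (D.card * cM A.lM A.εM A.δ A.gb) * t := by
  obtain ⟨-, -, -, -, -, -, hδ, hgb, hlm, hεm, -, hlM, hεM⟩ := h.pos
  have hdis : Disjoint (A.kd T) D := Finset.disjoint_of_subset_right hD (kd_al A T)
  have hSR : A.kd T ∪ D ⊆ A.R := Finset.union_subset (kd_R A T) (hD.trans (al_R A T))
  have hcard : (A.kd T ∪ D).card ≤ A.N := (Finset.card_union_le _ _).trans hN
  refine ⟨?_, ?_, ?_⟩
  · intro x hx y hy
    have hb := (h.bu (A.kd T ∪ D) hSR hcard).1 x hx y hy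
    rw [Finset.sum_union hdis] at hb
    have hcs : 0 ≤ ∑ c ∈ D, cs (A.l x) A.δ (A.p x c) (A.p y c) :=
      Finset.sum_nonneg fun c _ => cs_nn _ _ _ _ (h.le x hx).1.le hδ (hp_nn A h x c hx)
        (hp_nn A h y c (Finset.mem_union_left _ hy))
    have h2 := mul_le_mul_of_nonneg_left htv hcs
    unfold Pa.bud
    nlinarith only [hb, h2]
  · intro x hx
    have hb := (h.bu (A.kd T ∪ D) hSR hcard).2 x hx
    rw [Finset.sum_union hdis] at hb
    have hcs : 0 ≤ ∑ c ∈ D, cm A.lm A.εm A.δ A.gb (A.p x c) :=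
      Finset.sum_nonneg fun c _ => cm_nn _ _ _ _ _ hlm.le hεm.le hδ hgb
        (hp_nn A h x c (Finset.mem_union_left _ hx))
    have h2 := mul_le_mul_of_nonneg_left htv hcs
    unfold Pa.bum
    nlinarith only [hb, h2]
  · have hb := h.buM
    have hcM := cM_nn A.lM A.εM A.δ A.gb hlM.le hεM.le hδ hgb
    have hN' : ((A.kd T).card : ℝ) + (D.card : ℝ) ≤ A.N := by exact_mod_cast hN
    have h1 := mul_le_mul_of_nonneg_right hN' hcM
    have h2 : 0 ≤ (D.card : ℝ) * cM A.lM A.εM A.δ A.gb := mul_nonneg (Nat.cast_nonneg _) hcM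
    have h3 := mul_le_mul_of_nonneg_left htv h2
    have h4 : (0 : ℝ) ≤ A.v := A.v.2
    have h5 := mul_le_mul_of_nonneg_left h1 h4
    unfold Pa.buM
    nlinarith only [hb, h3, h5]

end

/-- a term of the functional is below 1 -/
lemma U_term {X : Type} [Fintype X] [DecidableEq X] (peb : PebStmt) (W : Rn X) (κ : X → ℝ)
    (Go : Matrix X X ℂ) (t : ℝ) (G : Matrix X X ℂ) (hl : ∀ x ∈ W.A₁, 0 < W.l x)
    (hU : W.U κ Go t G < 1) (x y : X) (hx : x ∈ W.A₁) (hy : y ∈ W.A₂)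
    (hB : 0 ≤ W.B x y - W.ρ x y * t) : ‖G x y - Go x y‖ ≤ 2 * W.ε x := by
  have hp := peb (W.l x) (W.B x y - W.ρ x y * t) (W.ε x) (G x y - Go x y) (hl x hx)
  apply hp.2 hB
  refine lt_of_le_of_lt ?_ hU
  unfold Rn.U
  have h0 : ∀ x ∈ W.A₁, ∀ y ∈ W.A₂,
      0 ≤ pe (W.l x) (W.B x y - W.ρ x y * t - W.l x * W.ε x) (G x y - Go x y) := by
    intro x hx y _
    exact (peb (W.l x) (W.B x y - W.ρ x y * t - W.l x * W.ε x) (W.ε x) (G x y - Go x y) (hl x hx)).1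
  have h1 : pe (W.l x) (W.B x y - W.ρ x y * t - W.l x * W.ε x) (G x y - Go x y) ≤
      ∑ y ∈ W.A₂, pe (W.l x) (W.B x y - W.ρ x y * t - W.l x * W.ε x) (G x y - Go x y) :=
    Finset.single_le_sum (f := fun y => pe (W.l x) (W.B x y - W.ρ x y * t - W.l x * W.ε x)
      (G x y - Go x y)) (fun y hy => h0 x hx y hy) hy
  have h2 : ∑ y ∈ W.A₂, pe (W.l x) (W.B x y - W.ρ x y * t - W.l x * W.ε x) (G x y - Go x y) ≤
      ∑ x ∈ W.A₁, ∑ y ∈ W.A₂,
        pe (W.l x) (W.B x y - W.ρ x y * t - W.l x * W.ε x) (G x y - Go x y) :=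
    Finset.single_le_sum (f := fun x => ∑ y ∈ W.A₂,
      pe (W.l x) (W.B x y - W.ρ x y * t - W.l x * W.ε x)
      (G x y - Go x y)) (fun x hx => Finset.sum_nonneg fun y hy => h0 x hx y hy) hx
  have h3 : 0 ≤ ∑ x ∈ W.A₂, Real.exp (W.Bm x - W.ρm x * t + W.lm * (mx κ W.A₃ G Go x - W.εm)) :=
    Finset.sum_nonneg fun _ _ => (Real.exp_pos _).le
  have h4 := (Real.exp_pos (W.BM - W.ρM * t + W.lM * (MM κ W.A₃ G Go - W.εM))).le
  linarith only [h1, h2, h3, h4]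

lemma pow4_split (a b : ℝ) (_ha : 0 ≤ a) (_hb : 0 ≤ b) : (a + b) ^ 4 ≤ 8 * a ^ 4 + 8 * b ^ 4 := by
  have h1 : (a + b) ^ 2 ≤ 2 * a ^ 2 + 2 * b ^ 2 := by nlinarith only [sq_nonneg (a - b)]
  have h2 : ((a + b) ^ 2) ^ 2 ≤ (2 * a ^ 2 + 2 * b ^ 2) ^ 2 :=
    pow_le_pow_left₀ (by positivity) h1 2
  nlinarith only [h2, sq_nonneg (a ^ 2 - b ^ 2)]

theorem gok (ujt : UjtStmt) (run : RunStmt) (peb : PebStmt) : GokStmt := by
  intro X _ _ A κs g₀ Λ Lc hK kI h T Qr D Go b hS hb hD hN hKb r hr0 hrv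
  obtain ⟨he0, heη, hv, hg₀, ht₁, hdT, hδ, hgb, hlm, hεm, hhK, hlM, hεM⟩ := h.pos
  have hv' : (0 : ℝ) < A.v := by exact_mod_cast hv
  have hDs : ∀ c ∈ D, T.s c = A.v := fun c hc => st_al A hS c (hD hc)
  have hRun := run X A.Hm A.η A.e0 A.v T D h.sym he0 heη hv (st_pimb A h hS) hDs
  obtain ⟨hKJ, hkp, hWd⟩ := hRun.1 r hr0 hrv
  -- names
  obtain ⟨G, hG⟩ : ∃ G, G = Gk A.Hm A.η A.e0 A.v T D r := ⟨_, rfl⟩
  obtain ⟨κ, hκ⟩ : ∃ κ, κ = kr A.η A.e0 A.v T D r.1 := ⟨_, rfl⟩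
  have hbR : b ∉ A.R := fun hb' => Finset.disjoint_left.mp h.dis hb' (hS.sub hb)
  have hbal : b ∉ A.al T := fun hb' => hbR (al_R A T hb')
  have hA1 : ∀ x ∈ A.al T ∪ Qr, x ∈ A.R ∪ A.Q := by
    intro x hx
    rcases Finset.mem_union.mp hx with h2 | h2
    · exact Finset.mem_union_left _ (al_R A T h2)
    · exact Finset.mem_union_right _ (hS.sub h2)
  obtain ⟨hbud, hbum, hbuM⟩ := st_bud A h hD hN r.1 hrv
  have hterm : (A.W T D Qr).U κ Go r.1 G < 1 → ∀ x ∈ A.al T ∪ Qr, ∀ y ∈ A.al T,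
      ‖G x y - Go x y‖ ≤ 2 * A.ε x := by
    intro hU x hx y hy
    exact U_term peb (A.W T D Qr) κ Go r.1 G (fun x hx => (h.le x (hA1 x hx)).1) hU x y hx hy
      (hbud x (hA1 x hx) y (al_R A T hy))
  -- the change of the entries
  have hch : (A.W T D Qr).U κ Go r.1 G < 1 → ∀ x ∈ A.al T ∪ Qr, ∀ y ∈ A.al T,
      ‖G x y - A.G A.T₀ x y‖ ≤ A.J x := by
    intro hU x hx y hy
    have h1 := hterm hU x hx y hy
    have h2 := st_go A h hS x y hx hy
    have h3 : G x y - A.G A.T₀ x y = (G x y - Go x y) + (Go x y - A.G A.T₀ x y) := by ring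
    rw [h3]
    refine (norm_add_le _ _).trans ?_
    linarith only [h1, h2]
  have hnG : (A.W T D Qr).U κ Go r.1 G < 1 → ∀ x ∈ A.al T ∪ Qr, ∀ y ∈ A.al T,
      ‖G x y‖ ≤ ‖A.G A.T₀ x y‖ + A.J x := by
    intro hU x hx y hy
    have h1 := hch hU x hx y hy
    have h3 : G x y = A.G A.T₀ x y + (G x y - A.G A.T₀ x y) := by ring
    calc ‖G x y‖ = ‖A.G A.T₀ x y + (G x y - A.G A.T₀ x y)‖ := by rw [← h3]
      _ ≤ ‖A.G A.T₀ x y‖ + ‖G x y - A.G A.T₀ x y‖ := norm_add_le _ _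
      _ ≤ _ := by linarith only [h1]
  have hmgT : ∀ x, mg A.η A.e0 A.v T x = mg A.η A.e0 A.v A.T₀ x := by
    intro x
    unfold mg
    rw [hS.mb]
  have hκ0 : ∀ x, 0 < κ x := by rw [hκ]; exact hkp
  rw [← hG, ← hκ] at hWd hKJ
  have hsy : ∀ a b, G a b = G b a := hKJ.hs
  have hward : ∀ c, ∑ y, κ y * ‖G c y‖ ^ 2 = (G c c).im := by
    intro c
    have h1 := hWd c c
    have h2 : ∀ y, (κ y : ℂ) * (G c y * (starRingEnd ℂ) (G c y)) = ((κ y * ‖G c y‖ ^ 2 : ℝ) : ℂ) := by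
      intro y
      rw [Complex.mul_conj, Complex.normSq_eq_norm_sq]
      push_cast
      ring
    rw [Finset.sum_congr rfl (fun y _ => h2 y), ← Complex.ofReal_sum] at h1
    exact_mod_cast h1
  have hμδ : (A.W T D Qr).U κ Go r.1 G < 1 → ∀ c : D,
      ‖G c c - mg A.η A.e0 A.v T c‖ ≤ A.δ ∧ ∑ y ∈ (A.W T D Qr).A₃, κ y * ‖G c y‖ ^ 2 ≤ A.gb := by
    intro hU c
    have hcA : (c : X) ∈ A.al T := hD c.2
    have hcR : (c : X) ∈ A.R := al_R A T hcA
    have hc1 : (c : X) ∈ A.al T ∪ Qr := Finset.mem_union_left _ hcA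
    have h1 := hch hU c hc1 c hcA
    have h2 := h.dia c hcR
    constructor
    · have h3 : G c c - mg A.η A.e0 A.v T c =
          (A.G A.T₀ c c - mg A.η A.e0 A.v A.T₀ c) + (G c c - A.G A.T₀ c c) := by
        rw [hmgT]; ring
      rw [h3]
      refine (norm_add_le _ _).trans ?_
      linarith only [h1, h2.1]
    · have h3 : ∑ y ∈ (A.W T D Qr).A₃, κ y * ‖G c y‖ ^ 2 ≤ ∑ y, κ y * ‖G c y‖ ^ 2 :=
        Finset.sum_le_sum_of_subset_of_nonneg (Finset.subset_univ _)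
          fun y _ _ => mul_nonneg (hκ0 y).le (by positivity)
      rw [hward] at h3
      have h4 : (G c c).im ≤ ‖G c c‖ := (le_abs_self _).trans (Complex.abs_im_le_norm _)
      have h5 := hnG hU c hc1 c hcA
      linarith only [h3, h4, h5, h2.2]
  have hU := ujt D X (fun c : D => (c : X)) r (Gk A.Hm A.η A.e0 A.v T D) (kr A.η A.e0 A.v T D) G Go
    κ (fun x => (mg A.η A.e0 A.v T x).im) (fun c => G c c - mg A.η A.e0 A.v T c) (A.W T D Qr)
    A.δ A.gb hKJ hδ hgb Finset.sdiff_subset Finset.subset_union_left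
    (fun c => ⟨hD c.2, fun hc => (Finset.mem_sdiff.mp hc).2 c.2⟩) (fun y _ => (hκ0 y).le)
    (fun x hx => ⟨(h.le x (hA1 x hx)).1, (h.le x (hA1 x hx)).2.1,
      fun c hc => st_p A h hS x c hx hc⟩) hlm hεm hlM hεM
    (fun x hx y hy => hbud x (hA1 x hx) y (al_R A T hy))
    (fun x hx => hbum x (al_R A T hx)) hbuM
    (fun x _ y _ => le_of_eq (Finset.sum_coe_sort D
      (fun c => cs (A.l x) A.δ (A.p x c) (A.p y c))))
    (fun x _ => le_of_eq (Finset.sum_coe_sort D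
      (fun c => cm A.lm A.εm A.δ A.gb (A.p x c))))
    (le_of_eq (by rw [Fintype.card_coe]; rfl)) hμδ
  rw [← hG, ← hκ]
  refine ⟨hU.1, hU.2.1, fun hlt => ⟨hU.2.2.1 hlt, ?_, ?_⟩⟩
  · obtain ⟨-, hmx, -⟩ := hU.2.2.2 hlt
    have hmgim : ∀ x ∈ A.R, g₀ ≤ (mg A.η A.e0 A.v T x).im := by
      intro x hx
      have h1 := (h.hR x hx).2.1
      have h2 : (mg A.η A.e0 A.v T x).im = (A.T₀.mb x).im + (A.η - A.e0) / A.v := by
        unfold mg
        rw [hS.mb]
        simp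
      rw [h2]
      have h3 : 0 ≤ (A.η - A.e0) / A.v := div_nonneg (by linarith only [heη]) hv'.le
      linarith only [h1, h3]
    have hκoff : ∀ x, x ∉ D → κ x = ka A.η A.e0 T x := by
      intro x hx
      rw [hκ]
      unfold kr
      rw [if_neg hx]
    refine ⟨hsy, hWd, ⟨fun v => (hκ0 v).le, ?_⟩, ⟨hg₀, fun c => hmgim c (al_R A T (hD c.2))⟩, ?_, ?_,
      ?_, ⟨fun c => hD c.2, hbal⟩⟩
    · intro v hv1
      have h1 := st_k A h hS v hv1
      have h2 := (h.hR v (al_R A T hv1)).2.2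
      rw [h1.2] at h2
      by_cases hvD : v ∈ D
      · have h3 : κ v = ka A.η A.e0 T v - r.1 * (mg A.η A.e0 A.v T v).im := by
          rw [hκ]
          unfold kr
          rw [if_pos hvD]
        have h4 : 0 ≤ r.1 * (mg A.η A.e0 A.v T v).im :=
          mul_nonneg hr0 (hg₀.le.trans (hmgim v (al_R A T hv1)))
        rw [h3]
        linarith only [h2, h4]
      · rw [hκoff v hvD]
        exact h2
    · intro c
      have h1 := (hμδ hlt c).1
      refine ⟨h1, ?_⟩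
      have h2 : (G c c).im - (mg A.η A.e0 A.v T c).im = (G c c - mg A.η A.e0 A.v T c).im := by
        rw [Complex.sub_im]
      rw [h2]
      exact (Complex.abs_im_le_norm _).trans h1
    · intro c
      have hcA : (c : X) ∈ A.al T := hD c.2
      have hcR : (c : X) ∈ A.R := al_R A T hcA
      have hc1 : (c : X) ∈ A.al T ∪ Qr := Finset.mem_union_left _ hcA
      have hJ : 0 ≤ A.J c := (h.le c (Finset.mem_union_left _ hcR)).2.2
      have hΛ := h.lam c hcR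
      have hlc := h.lc c hcR
      -- each term
      have ht : ∀ y, ‖G c y‖ ^ 4 ≤ 8 * ‖A.G A.T₀ c y‖ ^ 4 + 8 * ‖G c y - A.G A.T₀ c y‖ ^ 4 := by
        intro y
        have h3 : G c y = A.G A.T₀ c y + (G c y - A.G A.T₀ c y) := by ring
        have h4 : ‖G c y‖ ≤ ‖A.G A.T₀ c y‖ + ‖G c y - A.G A.T₀ c y‖ := by
          calc ‖G c y‖ = ‖A.G A.T₀ c y + (G c y - A.G A.T₀ c y)‖ := by rw [← h3]
            _ ≤ _ := norm_add_le _ _
        exact (pow_le_pow_left₀ (norm_nonneg _) h4 4).trans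
          (pow4_split _ _ (norm_nonneg _) (norm_nonneg _))
      have h1 : ∑ y ∈ A.al T, ‖G c y‖ ^ 4 ≤ 8 * ∑ y ∈ A.al T, ‖A.G A.T₀ c y‖ ^ 4 +
          8 * ∑ y ∈ A.al T, ‖G c y - A.G A.T₀ c y‖ ^ 4 := by
        rw [Finset.mul_sum, Finset.mul_sum, ← Finset.sum_add_distrib]
        exact Finset.sum_le_sum fun y _ => ht y
      have h2 : ∑ y ∈ A.al T, ‖A.G A.T₀ c y‖ ^ 4 ≤ Λ :=
        (Finset.sum_le_sum_of_subset_of_nonneg (al_R A T) fun y _ _ => by positivity).trans hΛ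
      have hΛ0 : 0 ≤ Λ := (Finset.sum_nonneg fun y _ => by positivity).trans hΛ
      have h3 : ∑ y ∈ A.al T, ‖G c y - A.G A.T₀ c y‖ ^ 4 =
          ∑ y ∈ A.al T \ D, ‖G c y - A.G A.T₀ c y‖ ^ 4 + ∑ y ∈ D, ‖G c y - A.G A.T₀ c y‖ ^ 4 :=
        (Finset.sum_sdiff hD).symm
      have hJc : ∀ y ∈ A.al T, ‖G c y - A.G A.T₀ c y‖ ≤ A.J c := fun y hy => hch hlt c hc1 y hy
      have h4 : ∑ y ∈ D, ‖G c y - A.G A.T₀ c y‖ ^ 4 ≤ A.N * A.J c ^ 4 := by
        have h5 : ∑ y ∈ D, ‖G c y - A.G A.T₀ c y‖ ^ 4 ≤ ∑ _y ∈ D, A.J c ^ 4 :=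
          Finset.sum_le_sum fun y hy => pow_le_pow_left₀ (norm_nonneg _) (hJc y (hD hy)) 4
        rw [Finset.sum_const, nsmul_eq_mul] at h5
        have h6 : (D.card : ℝ) ≤ A.N := by
          have : D.card ≤ A.N := by omega
          exact_mod_cast this
        exact h5.trans (mul_le_mul_of_nonneg_right h6 (by positivity))
      have hkv : ∀ y ∈ A.al T \ D, A.v * g₀ ≤ κ y := by
        intro y hy
        obtain ⟨hy1, hy2⟩ := Finset.mem_sdiff.mp hy
        rw [hκoff y hy2, (st_k A h hS y hy1).1]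
        have h5 := (h.hR y (al_R A T hy1)).2.1
        have h6 := mul_le_mul_of_nonneg_left h5 hv'.le
        linarith only [h6, he0, heη]
      have hvg : 0 < A.v * g₀ := mul_pos hv' hg₀
      obtain ⟨P, hP⟩ : ∃ P, P = Real.sqrt A.εm + A.Q.card * (2 * Real.sqrt A.dT) := ⟨_, rfl⟩
      have hmm : mx κ (A.al T \ D) G (A.G A.T₀) c ≤ P ^ 2 := by
        have h5 := mx_tri κ (A.al T \ D) G Go (A.G A.T₀) c (fun y _ => (hκ0 y).le)
        have h6 : Real.sqrt (mx κ (A.al T \ D) G Go c) ≤ Real.sqrt A.εm :=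
          Real.sqrt_le_sqrt (hmx c hcA)
        have h7 : mx κ (A.al T \ D) Go (A.G A.T₀) c ≤ mx (A.k T) (A.al T) Go (A.G A.T₀) c := by
          unfold mx
          have h8 : ∑ y ∈ A.al T \ D, κ y * ‖Go c y - A.G A.T₀ c y‖ ^ 2 =
              ∑ y ∈ A.al T \ D, A.k T y * ‖Go c y - A.G A.T₀ c y‖ ^ 2 := by
            apply Finset.sum_congr rfl
            intro y hy
            rw [hκoff y (Finset.mem_sdiff.mp hy).2]
            rfl
          rw [h8]
          apply Finset.sum_le_sum_of_subset_of_nonneg Finset.sdiff_subset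
          intro y hy _
          have h9 := (st_k A h hS y hy).1
          have h10 : A.k T y = ka A.η A.e0 T y := rfl
          rw [h10, h9]
          have h11 := (h.hR y (al_R A T hy)).2.1
          have h12 := mul_le_mul_of_nonneg_left h11 hv'.le
          have h13 : 0 ≤ A.η + A.v * (A.T₀.mb y).im := by linarith only [h12, hvg, he0, heη]
          positivity
        have h8 := hS.gm c hcA
        have h9 : ((A.Q \ Qr).card : ℝ) * (2 * Real.sqrt A.dT) ≤ (A.Q.card : ℝ) * (2 * Real.sqrt A.dT) := by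
          apply mul_le_mul_of_nonneg_right _ (by positivity)
          exact_mod_cast Finset.card_le_card Finset.sdiff_subset
        have h10 : Real.sqrt (mx κ (A.al T \ D) G (A.G A.T₀) c) ≤ P := by
          rw [hP]
          have := Real.sqrt_le_sqrt h7
          linarith only [h5, h6, h8, h9, this]
        have h11 : 0 ≤ mx κ (A.al T \ D) G (A.G A.T₀) c := mx_nn _ _ _ _ _ fun y _ => (hκ0 y).le
        have h12 := pow_le_pow_left₀ (Real.sqrt_nonneg _) h10 2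
        rw [Real.sq_sqrt h11] at h12
        exact h12
      have h5 : ∑ y ∈ A.al T \ D, ‖G c y - A.G A.T₀ c y‖ ^ 4 ≤ A.J c ^ 2 * P ^ 2 / (A.v * g₀) := by
        rw [le_div_iff₀ hvg, Finset.sum_mul]
        calc ∑ y ∈ A.al T \ D, ‖G c y - A.G A.T₀ c y‖ ^ 4 * (A.v * g₀)
            ≤ ∑ y ∈ A.al T \ D, A.J c ^ 2 * (κ y * ‖G c y - A.G A.T₀ c y‖ ^ 2) := by
              apply Finset.sum_le_sum
              intro y hy
              have h6 := hJc y (Finset.mem_sdiff.mp hy).1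
              have h7 := hkv y hy
              have h8 : ‖G c y - A.G A.T₀ c y‖ ^ 2 ≤ A.J c ^ 2 :=
                pow_le_pow_left₀ (norm_nonneg _) h6 2
              have h9 : 0 ≤ ‖G c y - A.G A.T₀ c y‖ ^ 2 := by positivity
              calc ‖G c y - A.G A.T₀ c y‖ ^ 4 * (A.v * g₀)
                  = ‖G c y - A.G A.T₀ c y‖ ^ 2 * (‖G c y - A.G A.T₀ c y‖ ^ 2 * (A.v * g₀)) := by ring
                _ ≤ A.J c ^ 2 * (‖G c y - A.G A.T₀ c y‖ ^ 2 * κ y) := by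
                    apply mul_le_mul h8 (mul_le_mul_of_nonneg_left h7 h9) (by positivity)
                      (by positivity)
                _ = _ := by ring
          _ = A.J c ^ 2 * mx κ (A.al T \ D) G (A.G A.T₀) c := by
              unfold mx
              rw [Finset.mul_sum]
          _ ≤ A.J c ^ 2 * P ^ 2 := mul_le_mul_of_nonneg_left hmm (by positivity)
      rw [← hP] at hlc
      linarith only [h1, h2, h3, h4, h5, hlc, hΛ0]
    · intro c
      have hcA : (c : X) ∈ A.al T := hD c.2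
      have hbQ : b ∈ A.Q := hS.sub hb
      have hbD : b ∉ D := fun hbD => hbal (hD hbD)
      have h1 : κ b = A.k A.T₀ b := by
        rw [hκoff b hbD]
        unfold Pa.k ka
        rw [(hS.rem b hb).2, hS.mb]
      have hk0 : 0 ≤ A.k A.T₀ b := by rw [← h1]; exact (hκ0 b).le
      have h2 := hnG hlt b (Finset.mem_union_right _ hb) c hcA
      have h3 := h.cut b hbQ
      have hJ : 0 ≤ A.J b := (h.le b (Finset.mem_union_right _ hbQ)).2.2
      have h4 : Real.sqrt (A.k A.T₀ b) * ‖A.G A.T₀ b c‖ ≤ Real.sqrt hK := by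
        apply Real.le_sqrt_of_sq_le
        rw [mul_pow, Real.sq_sqrt hk0]
        exact hKb c hcA
      have h5 : Real.sqrt (A.k A.T₀ b) * ‖G b c‖ ≤ Real.sqrt hK + Real.sqrt (A.k A.T₀ b) * A.J b := by
        have h6 := mul_le_mul_of_nonneg_left h2 (Real.sqrt_nonneg (A.k A.T₀ b))
        linarith only [h6, h4]
      have h6 := pow_le_pow_left₀ (by positivity) h5 2
      rw [mul_pow, Real.sq_sqrt hk0] at h6
      rw [h1, hsy c b]
      exact h6.trans h3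
  · intro x hx c
    have hxR := al_R A T hx
    have hcA : (c : X) ∈ A.al T := hD c.2
    have h1 := hnG hlt x (Finset.mem_union_left _ hx) c hcA
    exact (pow_le_pow_left₀ (norm_nonneg _) h1 2).trans (h.ent x hxR c (al_R A T hcA))

end Pool.Agent.ATT.H54
end
end -- Pool.Agent.Helper54_ATT.GOK
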