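import Pool.Agent.Helper12_MEB.B075
import Pool.Agent.Helper12_MEB.B084

/-!
# Merged copies (generated) of the modules

* `Pool.Agent.Helper81_LSP.CLPa`
* `Pool.Agent.Helper81_LSP.CRG`
* `Pool.Agent.Helper54_LQD.CPXa`
* `Pool.Agent.Helper54_LQD.CPXb`
* `Pool.Agent.Helper54_LQD.CPXc`
* `Pool.Agent.Helper81_LSP.CLP`
-/

set_option autoImplicit false

section -- Pool.Agent.Helper81_LSP.CLPa

/-!
# CLP: the probability of the clusters, preparations
-/

set_option autoImplicit false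

open MeasureTheory ProbabilityTheory Function Filter

open scoped ENNReal BigOperators Topology NNReal

noncomputable section

namespace Pool.Agent.LE.CL.H81

open Pool.Agent.Anderson hiding box mem_box card_box
open Pool.Agent.Loc Pool.Agent.Mob Pool.Agent.Helper54.Bal
  Pool.Agent.Helper96.EXP Pool.Agent.BED
open Pool.Agent.LE.MN

theorem clp_nums (c₀ K₁ Q S : ℝ) (hc₀ : 0 < c₀) (hK₁ : 1 ≤ K₁) (hQ : 0 ≤ Q) (hS : 0 ≤ S) :
    ∃ l₀ : ℝ, 3 ≤ l₀ ∧ ∀ l : ℝ, l₀ ≤ l →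
      K₁ * Real.exp (-l) ^ 2 * l ^ 4 ≤ c₀ ∧ Q * l ^ 2 + 7 ≤ Real.exp l ∧ S * l ≤ Real.exp l := by
  have h0 : 0 < 4 * K₁ / c₀ := by positivity
  refine ⟨4 * K₁ / c₀ + 6 * (Q + 7) + 2 * S + 20, by linarith only [hQ, hS, h0], fun l hl => ?_⟩
  have hl1 : 4 * K₁ / c₀ ≤ l := by linarith only [hQ, hS, hl]
  have hl2 : 6 * (Q + 7) ≤ l := by linarith
  have hl3 : 2 * S ≤ l := by linarith
  have hl4 : 20 ≤ l := by linarith
  have hl0 : 0 < l := by linarith
  refine ⟨?_, ?_, ?_⟩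
  · have h1 := Real.pow_div_factorial_le_exp (2 * l) (by linarith) 5
    have h2 : Real.exp (-l) ^ 2 = (Real.exp (2 * l))⁻¹ := by
      rw [← Real.exp_nat_mul, ← Real.exp_neg]
      congr 1
      push_cast
      ring
    have h3 : l ^ 5 / 4 ≤ Real.exp (2 * l) := by
      refine le_trans ?_ h1
      have : ((Nat.factorial 5 : ℕ) : ℝ) = 120 := by norm_num [Nat.factorial]
      rw [this]
      have h5 : 0 < l ^ 5 := by positivity
      nlinarith only [h5]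
    have h4 : 0 < l ^ 5 / 4 := by positivity
    rw [h2]
    have h5 : (Real.exp (2 * l))⁻¹ ≤ (l ^ 5 / 4)⁻¹ := inv_anti₀ h4 h3
    calc K₁ * (Real.exp (2 * l))⁻¹ * l ^ 4 ≤ K₁ * (l ^ 5 / 4)⁻¹ * l ^ 4 := by gcongr
      _ = 4 * K₁ / l := by field_simp
      _ ≤ c₀ := by
        rw [div_le_iff₀ hl0]
        rw [div_le_iff₀ hc₀] at hl1
        linarith only [hl1]
  · have h1 := Real.pow_div_factorial_le_exp l hl0.le 3
    have h2 : ((Nat.factorial 3 : ℕ) : ℝ) = 6 := by norm_num [Nat.factorial]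
    rw [h2] at h1
    refine le_trans ?_ h1
    rw [le_div_iff₀ (by norm_num)]
    have h3 : l ^ 3 = l ^ 2 * l := by ring
    have h4 : l ^ 2 * (6 * (Q + 7)) ≤ l ^ 2 * l := by gcongr
    have h5 : (1 : ℝ) ≤ l ^ 2 := one_le_pow₀ (by linarith only [hQ, hS, h0, hl])
    rw [h3]
    linarith only [h4, h5]
  · have h1 := Real.pow_div_factorial_le_exp l hl0.le 2
    have h2 : ((Nat.factorial 2 : ℕ) : ℝ) = 2 := by norm_num [Nat.factorial]
    rw [h2] at h1
    refine le_trans ?_ h1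
    rw [le_div_iff₀ (by norm_num)]
    have h3 : l ^ 2 = l * l := by ring
    have h4 : 2 * S * l ≤ l * l := by gcongr
    rw [h3]
    linarith only [h4]

theorem olm {a b : ℝ} (ha : 1 ≤ a) (hb : 1 ≤ b) : 1 ≤ a * b := by nlinarith only [ha, hb]

theorem olm' {a b : ℝ} (ha : 1 ≤ a) (hb : 0 ≤ b) : b ≤ a * b := by nlinarith only [ha, hb]

theorem num_d {d l L : ℝ} (h : 0 < d * l) (hL : 0.6931471803 < L) : d * (3 * l) < 5 * d * l * L := by
  nlinarith only [h, hL]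

theorem num_a {A l : ℝ} (hA : 1 ≤ A) (hl : 0 < l) : 3 * l ≤ (A + 3) * l := by nlinarith only [hA, hl]

theorem kf_of {d : ℕ} (dua : DuaStmt) {B : Finset (Site d)} {V : Site d → ℝ} {E η τ : ℝ}
    (hη : 0 < η) (hτ : 0 ≤ τ)
    (h : ∀ v : B → ℂ, nsq (Matrix.mulVec (XM (Csq B E η hη) (fun y => V y)) v) ≤
      τ ^ 2 * nsq v) : KF B V E η τ := by
  intro w _
  have h1 := dua d B (fun y : B => w y) V E η τ (Csq B E η hη) hη hτ (Csq_herm _ _ _ hη)
    (Csq_sq _ _ _ hη) h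
  simp only [hatS_eq_hatV]
  exact h1

/-- the bad events -/
theorem bad_prob {d : ℕ} {σ : ℝ} (hσ : σ ≠ 0) (E a q : ℝ) (N R : ℕ) (b : Site d)
    (P : (Site d → ℝ) → Prop) (hq : 0 ≤ q) (hP : PP d (gl σ) {V | ¬ P V} ≤ ENNReal.ofReal q) :
    PP d (gl σ) {V | ¬ ((RM V (box 0 N) E).det ≠ 0 ∧ (∀ x ∈ box b (R + 1), |V x| ≤ 1) ∧
      (∀ x ∈ box b (R + 1), ∀ y ∈ box b (R + 1), |gr V (box 0 N) E x y| ≤ Real.exp a) ∧ P V)} ≤
      ENNReal.ofReal ((2 * R + 3 : ℝ) ^ d * (4 * Real.exp (-(1 / |σ|))) +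
        (2 * R + 3 : ℝ) ^ (2 * d) * (6 * (1 / |σ|) / Real.exp a) + q) := by
  have hν := bddDens_gl hσ
  have hs : 0 < |σ| := abs_pos.2 hσ
  set S := box b (R + 1) with hS
  have hcard : (S.card : ℝ) = (2 * R + 3 : ℝ) ^ d := by
    rw [hS, card_box]
    push_cast
    ring_nf
  have hsub : {V : Site d → ℝ | ¬ ((RM V (box 0 N) E).det ≠ 0 ∧ (∀ x ∈ S, |V x| ≤ 1) ∧
      (∀ x ∈ S, ∀ y ∈ S, |gr V (box 0 N) E x y| ≤ Real.exp a) ∧ P V)} ⊆
      {V | (RM V (box 0 N) E).det = 0} ∪ ((⋃ x ∈ S, {V | 1 < |V x|}) ∪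
        ((⋃ x ∈ S, ⋃ y ∈ S, {V | Real.exp a < |gr V (box 0 N) E x y|}) ∪ {V | ¬ P V})) := by
    intro V hV
    by_contra hcon
    simp only [Set.mem_union, not_or, Set.mem_iUnion, Set.mem_ofPred_eq, not_exists, not_not,
      exists_prop] at hcon
    obtain ⟨h1, h2, h3, h4⟩ := hcon
    apply hV
    exact ⟨h1, fun x hx => not_lt.1 fun h => h2 x ⟨hx, h⟩,
      fun x hx y hy => not_lt.1 fun h => h3 x ⟨hx, y, hy, h⟩, h4⟩
  have p1 : PP d (gl σ) {V | (RM V (box 0 N) E).det = 0} = 0 := H54.PP_det hν _ _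
  have p2 : PP d (gl σ) (⋃ x ∈ S, {V | 1 < |V x|}) ≤
      ENNReal.ofReal ((2 * R + 3 : ℝ) ^ d * (4 * Real.exp (-(1 / |σ|)))) := by
    refine (measure_biUnion_finset_le _ _).trans ?_
    refine (Finset.sum_le_sum fun x _ => H54W.site_tail hσ 1 x).trans (le_of_eq ?_)
    rw [Finset.sum_const, nsmul_eq_mul, ← ENNReal.ofReal_natCast,
      ← ENNReal.ofReal_mul (Nat.cast_nonneg _), hcard]
  have p3 : PP d (gl σ) (⋃ x ∈ S, ⋃ y ∈ S, {V | Real.exp a < |gr V (box 0 N) E x y|}) ≤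
      ENNReal.ofReal ((2 * R + 3 : ℝ) ^ (2 * d) * (6 * (1 / |σ|) / Real.exp a)) := by
    refine (measure_biUnion_finset_le _ _).trans ?_
    refine (Finset.sum_le_sum fun x _ => (measure_biUnion_finset_le _ _).trans
      (Finset.sum_le_sum fun y _ => H54.PP_weak hν _ E x y (Real.exp_pos a))).trans
        (le_of_eq ?_)
    rw [Finset.sum_const, Finset.sum_const, nsmul_eq_mul, nsmul_eq_mul,
      ← ENNReal.ofReal_natCast, ← ENNReal.ofReal_mul (Nat.cast_nonneg _),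
      ← ENNReal.ofReal_mul (Nat.cast_nonneg _), hcard]
    congr 1
    ring
  refine (measure_mono hsub).trans ((measure_union_le _ _).trans ?_)
  rw [p1, zero_add]
  refine (measure_union_le _ _).trans ?_
  rw [add_assoc, ENNReal.ofReal_add (by positivity) (by positivity),
    ENNReal.ofReal_add (by positivity) hq]
  exact add_le_add p2 ((measure_union_le _ _).trans (add_le_add p3 hP))

/-- the scales -/
theorem clp_scales {d : ℕ} {l η C₁ : ℝ} (hd0 : (3 : ℝ) ≤ d) (hl3 : 3 ≤ l) (hη0 : 0 < η)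
    (hinv1 : 1 ≤ 1 / η) (hinv : 1 / η ≤ Real.exp (2 * l)) (hC₁1 : 1 ≤ C₁)
    (hQ : 24 * d * C₁ * l ^ 2 + 7 ≤ Real.exp l) :
    ∃ R₁ J : ℕ, C₁ * l / η ≤ R₁ ∧ 5 * d * l ≤ J ∧ (J : ℝ) ≤ 6 * d * l ∧ 1 ≤ J ∧ 1 ≤ R₁ ∧
      (2 * ((J * R₁ : ℕ) : ℝ) + 7) ≤ Real.exp (3 * l) := by
  have hlp : 0 < l := by linarith only [hl3]
  have hR₁l : C₁ * l / η ≤ ⌈C₁ * l / η⌉₊ := Nat.le_ceil _
  have hR₁u : (⌈C₁ * l / η⌉₊ : ℝ) ≤ 2 * (C₁ * l) * (1 / η) := by
    have h1 : (⌈C₁ * l / η⌉₊ : ℝ) < C₁ * l / η + 1 := Nat.ceil_lt_add_one (by positivity)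
    have h2 : 1 ≤ C₁ * l * (1 / η) := by
      have h3 : 1 ≤ C₁ * l := olm hC₁1 (by linarith only [hl3])
      exact olm h3 hinv1
    have h3 : C₁ * l / η = C₁ * l * (1 / η) := by ring
    rw [h3] at h1
    rw [h3]
    linarith only [h1, h2]
  have hJl : 5 * d * l ≤ ⌈5 * d * l⌉₊ := Nat.le_ceil _
  have hJu : (⌈5 * d * l⌉₊ : ℝ) ≤ 6 * d * l := by
    have h1 : (⌈5 * d * l⌉₊ : ℝ) < 5 * d * l + 1 := Nat.ceil_lt_add_one (by positivity)
    have h2 : 1 ≤ (d : ℝ) * l := olm (by linarith only [hd0]) (by linarith only [hl3])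
    linarith only [h1, h2]
  have hJ1 : 1 ≤ ⌈5 * d * l⌉₊ := by
    have h1 : (0 : ℝ) < ⌈5 * d * l⌉₊ := by
      have : 0 < 5 * (d : ℝ) * l := by positivity
      linarith only [hJl, this]
    exact_mod_cast h1
  have hR₁1 : 1 ≤ ⌈C₁ * l / η⌉₊ := by
    have h1 : (0 : ℝ) < ⌈C₁ * l / η⌉₊ := by
      have : 0 < C₁ * l / η := by positivity
      linarith only [hR₁l, this]
    exact_mod_cast h1
  refine ⟨⌈C₁ * l / η⌉₊, ⌈5 * d * l⌉₊, hR₁l, hJl, hJu, hJ1, hR₁1, ?_⟩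
  have h1 : ((⌈5 * d * l⌉₊ * ⌈C₁ * l / η⌉₊ : ℕ) : ℝ) ≤
      (6 * d * l) * (2 * (C₁ * l) * (1 / η)) := by
    push_cast
    gcongr
  calc (2 * ((⌈5 * d * l⌉₊ * ⌈C₁ * l / η⌉₊ : ℕ) : ℝ) + 7) ≤
        2 * ((6 * d * l) * (2 * (C₁ * l) * (1 / η))) + 7 * (1 / η) := by
        linarith only [hinv1, h1]
    _ = (24 * d * C₁ * l ^ 2 + 7) * (1 / η) := by ring
    _ ≤ Real.exp l * Real.exp (2 * l) := by gcongr
    _ = Real.exp (3 * l) := by
      rw [← Real.exp_add]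
      ring_nf

/-- the probability of the bad events -/
theorem clp_tail {d : ℕ} {A l s R : ℝ} (hl3 : 3 ≤ l) (hR0 : 0 ≤ R)
    (hRu : (2 * R + 7 : ℝ) ≤ Real.exp (3 * l)) (hS : (A + 3 * d + 3) * l ≤ Real.exp l)
    (hs1 : 1 / s = Real.exp l) :
    (2 * R + 3 : ℝ) ^ d * (4 * Real.exp (-(1 / s))) +
      (2 * R + 3 : ℝ) ^ (2 * d) * (6 * (1 / s) / Real.exp ((A + 6 * d + 5) * l)) +
      Real.exp (-((A + 3) * l)) ≤ Real.exp (-(A * l)) := by
  have hlp : 0 < l := by linarith only [hl3]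
  have h23 : (2 * R + 3 : ℝ) ≤ Real.exp (3 * l) := by linarith
  have he3 : (20 : ℝ) ≤ Real.exp (3 * l) := by
    have h1 : Real.exp 9 ≤ Real.exp (3 * l) := Real.exp_le_exp.2 (by linarith)
    have h2 := Real.quadratic_le_exp_of_nonneg (show (0 : ℝ) ≤ 9 by norm_num)
    linarith only [h1, h2]
  have hAl : 0 < Real.exp (-(A * l)) := Real.exp_pos _
  have t1 : (2 * R + 3 : ℝ) ^ d * (4 * Real.exp (-(1 / s))) ≤
      1 / 4 * Real.exp (-(A * l)) := by
    rw [hs1]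
    have h1 : Real.exp (-Real.exp l) ≤ Real.exp (-((A + 3 * d + 3) * l)) :=
      Real.exp_le_exp.2 (by linarith)
    calc (2 * R + 3 : ℝ) ^ d * (4 * Real.exp (-Real.exp l))
        ≤ (Real.exp (3 * l)) ^ d * (4 * Real.exp (-((A + 3 * d + 3) * l))) := by gcongr
      _ = 4 * (Real.exp (-(A * l)) * Real.exp (-(3 * l))) := by
        rw [← Real.exp_nat_mul, ← Real.exp_add]
        have h2 : Real.exp (d * (3 * l)) * (4 * Real.exp (-((A + 3 * d + 3) * l))) =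
            4 * (Real.exp (d * (3 * l)) * Real.exp (-((A + 3 * d + 3) * l))) := by ring
        rw [h2, ← Real.exp_add]
        congr 2
        ring
      _ ≤ 4 * (Real.exp (-(A * l)) * (20 : ℝ)⁻¹) := by
        rw [Real.exp_neg (3 * l)]
        gcongr
      _ ≤ 1 / 4 * Real.exp (-(A * l)) := by linarith only [hAl]
  have t2 : (2 * R + 3 : ℝ) ^ (2 * d) * (6 * (1 / s) / Real.exp ((A + 6 * d + 5) * l)) ≤
      1 / 2 * Real.exp (-(A * l)) := by
    rw [hs1]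
    calc (2 * R + 3 : ℝ) ^ (2 * d) * (6 * Real.exp l / Real.exp ((A + 6 * d + 5) * l))
        ≤ (Real.exp (3 * l)) ^ (2 * d) * (6 * Real.exp l / Real.exp ((A + 6 * d + 5) * l)) := by
          gcongr
      _ = 6 * (Real.exp (-(A * l)) * Real.exp (-(3 * l)) * Real.exp (-l)) := by
        rw [← Real.exp_nat_mul, mul_div_assoc, ← Real.exp_sub]
        have h2 : Real.exp (((2 * d : ℕ) : ℝ) * (3 * l)) *
            (6 * Real.exp (l - (A + 6 * d + 5) * l)) =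
            6 * (Real.exp (((2 * d : ℕ) : ℝ) * (3 * l)) *
              Real.exp (l - (A + 6 * d + 5) * l)) := by ring
        rw [h2, ← Real.exp_add, ← Real.exp_add, ← Real.exp_add]
        congr 2
        push_cast
        ring
      _ ≤ 6 * (Real.exp (-(A * l)) * (20 : ℝ)⁻¹ * 1) := by
        rw [Real.exp_neg (3 * l)]
        have h3 : Real.exp (-l) ≤ 1 := Real.exp_le_one_iff.2 (by linarith only [hl3])
        gcongr
      _ ≤ 1 / 2 * Real.exp (-(A * l)) := by linarith only [hAl]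
  have t3 : Real.exp (-((A + 3) * l)) ≤ 1 / 4 * Real.exp (-(A * l)) := by
    calc Real.exp (-((A + 3) * l)) = Real.exp (-(A * l)) * Real.exp (-(3 * l)) := by
          rw [← Real.exp_add]
          congr 1
          ring
      _ ≤ Real.exp (-(A * l)) * (20 : ℝ)⁻¹ := by
        rw [Real.exp_neg (3 * l)]
        gcongr
      _ ≤ 1 / 4 * Real.exp (-(A * l)) := by linarith only [hAl]
  linarith only [t1, t2, t3]

/-- the final lower bound for the number -/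
theorem clp_pow {d : ℕ} {K K₁ c₃ σ l η : ℝ} (hd : 3 ≤ d) (hc₃0 : 0 < c₃) (hc₃1 : c₃ ≤ 1)
    (hη : η = K₁ * σ ^ 2 * l ^ 4) (hη0 : 0 < η) (hK : K₁ * (2 / c₃) ≤ K)
    (hx : 0 < K * σ ^ 2 * l ^ 4) :
    (K * σ ^ 2 * l ^ 4) ^ (-(d : ℝ)) ≤ c₃ / 2 * (1 / η) ^ d := by
  rw [Real.rpow_neg hx.le, Real.rpow_natCast, ← inv_pow]
  have h1 : (K * σ ^ 2 * l ^ 4)⁻¹ ≤ c₃ / 2 * (1 / η) := by
    have h2 : 2 / c₃ * η ≤ K * σ ^ 2 * l ^ 4 := by
      rw [hη]
      calc 2 / c₃ * (K₁ * σ ^ 2 * l ^ 4) = K₁ * (2 / c₃) * σ ^ 2 * l ^ 4 := by ring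
        _ ≤ K * σ ^ 2 * l ^ 4 := by gcongr
    calc (K * σ ^ 2 * l ^ 4)⁻¹ ≤ (2 / c₃ * η)⁻¹ := inv_anti₀ (by positivity) h2
      _ = c₃ / 2 * (1 / η) := by
        field_simp
  calc ((K * σ ^ 2 * l ^ 4)⁻¹) ^ d ≤ (c₃ / 2 * (1 / η)) ^ d := by gcongr
    _ = (c₃ / 2) ^ d * (1 / η) ^ d := mul_pow _ _ _
    _ ≤ c₃ / 2 * (1 / η) ^ d := by
      gcongr
      exact pow_le_of_le_one (by positivity) (by linarith only [hc₃1]) (by omega)

end Pool.Agent.LE.CL.H81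
end
end -- Pool.Agent.Helper81_LSP.CLPa

section -- Pool.Agent.Helper81_LSP.CRG

/-!
# CRG: the criterion with numbers
-/

set_option autoImplicit false

open MeasureTheory ProbabilityTheory Function Filter

open scoped ENNReal BigOperators Topology NNReal

noncomputable section

namespace Pool.Agent.LE.CL.H81

open Pool.Agent.Anderson hiding box mem_box card_box
open Pool.Agent.Loc Pool.Agent.Mob Pool.Agent.Helper54.Bal
  Pool.Agent.Helper96.EXP Pool.Agent.BED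
open Pool.Agent.LE.MN

theorem clu_mono_s {d : ℕ} {V : Site d → ℝ} {Λ : Finset (Site d)} {E s s' : ℝ}
    {C C₂ B : Finset (Site d)} (hs : s ≤ s') (hC : C ⊆ C₂) :
    clu V Λ E s C B ⊆ clu V Λ E s' C₂ B := by
  intro y hy
  rw [mem_clu] at hy ⊢
  rcases hy with hy | ⟨hy, x, hx, hxy⟩
  · exact Or.inl (hC hy)
  · exact Or.inr ⟨hy, x, hC hx, (Real.exp_le_exp.2 (by linarith)).trans hxy⟩

theorem rch_mono_s {d : ℕ} {V : Site d → ℝ} {Λ : Finset (Site d)} {E s s' : ℝ} {b : Site d}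
    {ρ : ℕ} (hs : s ≤ s') (j : ℕ) : rch V Λ E s b ρ j ⊆ rch V Λ E s' b ρ j := by
  induction j with
  | zero => exact fun _ h => h
  | succ n ih =>
    rw [rch_succ, rch_succ]
    exact clu_mono_s hs ih

theorem crg_rat {X l r : ℝ} (hX : 0 ≤ X) (h : Real.log 2 ≤ l + r) :
    X ≤ X / Real.log 2 * (l + r) := by
  have h2 : (0 : ℝ) < Real.log 2 := Real.log_pos (by norm_num)
  have h1 : X / Real.log 2 * Real.log 2 = X := div_mul_cancel₀ X h2.ne'
  calc X = X / Real.log 2 * Real.log 2 := h1.symm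
    _ ≤ X / Real.log 2 * (l + r) := mul_le_mul_of_nonneg_left h (div_nonneg hX h2.le)

/-- the pair term -/
theorem crg_pair {d n : ℕ} {ρ σ l K₁ s' : ℝ} (hd0 : (1 : ℝ) ≤ d) (hn0 : (1 : ℝ) ≤ n)
    (hρ0 : (1 : ℝ) ≤ ρ) (hσl : |σ| = Real.exp (-l)) (hl2 : Real.log 2 ≤ l) (hl0 : 0 < l)
    (hlρ : 0 ≤ Real.log ρ) (hρ3 : 2 * ρ + 1 ≤ Real.exp (Real.log 3 + Real.log ρ))
    (hnR : (n : ℝ) ≤ Real.exp (d * (Real.log 3 + Real.log ρ)))
    (hK₁ : K₁ = 3 * d + 1 + (Real.log (16 * d) + 3 * d * Real.log 3) / Real.log 2)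
    (hs' : K₁ * (l + Real.log ρ) ≤ s') :
    d * (2 * ρ + 1) ^ (2 * d) * (16 / |σ| * Real.exp (-s')) ≤ 1 / n := by
  have hlog3 : 0 ≤ Real.log 3 := Real.log_nonneg (by norm_num)
  have hlog16 : 0 ≤ Real.log (16 * d) := Real.log_nonneg (by linarith only [hd0])
  obtain ⟨r, hr⟩ : ∃ r : ℝ, r = Real.log ρ := ⟨_, rfl⟩
  obtain ⟨q, hq⟩ : ∃ q : ℝ, q = Real.log 3 := ⟨_, rfl⟩
  obtain ⟨u, hu⟩ : ∃ u : ℝ, u = Real.log (16 * d) := ⟨_, rfl⟩
  rw [← hr] at hlρ hρ3 hnR hs'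
  rw [← hq] at hlog3 hρ3 hnR hK₁
  rw [← hu] at hlog16 hK₁
  rw [le_div_iff₀ (by linarith only [hn0])]
  have h0 : 0 ≤ 2 * ρ + 1 := by linarith only [hρ0]
  have h1 : (2 * ρ + 1) ^ (2 * d) ≤ Real.exp (2 * d * (q + r)) := by
    calc (2 * ρ + 1) ^ (2 * d) ≤ (Real.exp (q + r)) ^ (2 * d) := pow_le_pow_left₀ h0 hρ3 _
      _ = Real.exp (2 * d * (q + r)) := by
          rw [← Real.exp_nat_mul]
          push_cast
          rfl
  have h3 : 1 / |σ| = Real.exp l := by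
    rw [hσl, Real.exp_neg, one_div, inv_inv]
  have h4 : (16 : ℝ) * d = Real.exp u := by rw [hu, Real.exp_log (by linarith only [hd0])]
  have h5 : u + 3 * d * q + (3 * d + 1) * (l + r) ≤ s' := by
    have h6 : u + 3 * d * q ≤ (u + 3 * d * q) / Real.log 2 * (l + r) :=
      crg_rat (by positivity) (by linarith only [hl2, hlρ])
    have h8 : K₁ * (l + r) = (3 * d + 1) * (l + r) + (u + 3 * d * q) / Real.log 2 * (l + r) := by
      rw [hK₁]
      ring
    linarith only [h6, h8, hs']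
  calc d * (2 * ρ + 1) ^ (2 * d) * (16 / |σ| * Real.exp (-s')) * n
      = (16 * d) * (2 * ρ + 1) ^ (2 * d) * (1 / |σ|) * Real.exp (-s') * n := by ring
    _ = Real.exp u * (2 * ρ + 1) ^ (2 * d) * Real.exp l * Real.exp (-s') * n := by rw [h4, h3]
    _ ≤ Real.exp u * Real.exp (2 * d * (q + r)) *
        Real.exp l * Real.exp (-s') * Real.exp (d * (q + r)) := by
        refine mul_le_mul ?_ hnR (Nat.cast_nonneg n) (by positivity)
        refine mul_le_mul_of_nonneg_right ?_ (Real.exp_pos _).le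
        refine mul_le_mul_of_nonneg_right ?_ (Real.exp_pos _).le
        exact mul_le_mul_of_nonneg_left h1 (Real.exp_pos _).le
    _ = Real.exp (u + 2 * d * (q + r) + l + -s' + d * (q + r)) := by
        rw [← Real.exp_add, ← Real.exp_add, ← Real.exp_add, ← Real.exp_add]
    _ ≤ Real.exp 0 := by
        refine Real.exp_le_exp.2 ?_
        have h9 : 0 ≤ (3 * d : ℝ) * l := by positivity
        have h10 : u + 2 * d * (q + r) + l + -s' + d * (q + r) = u + 3 * d * q +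
              (3 * d + 1) * (l + r) - s' - (3 * d * l + r) := by ring
        rw [h10]
        linarith only [h5, h9, hlρ]
    _ = 1 := Real.exp_zero

/-- the oscillation -/
theorem crg_osc {d n : ℕ} {σ l r K₂ s' J A Co : ℝ} (hn0 : (1 : ℝ) ≤ n)
    (hσl : |σ| = Real.exp (-l)) (hl2 : Real.log 2 ≤ l) (hl0 : 0 < l) (hlρ : 0 ≤ r)
    (hnR : (n : ℝ) ≤ Real.exp (d * (Real.log 3 + r))) (hA : 0 < A) (hCo : 1 ≤ Co)
    (hJ0 : 1 ≤ J) (hs'1 : 1 ≤ s')
    (hK₂ : K₂ = Co * (A + d + (Real.log Co + d * Real.log 3) / Real.log 2))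
    (hs' : K₂ * (l + r) ≤ s') :
    Co * |σ| ^ (-A) * Real.exp (-(2 * s' * J / Co)) ≤ 1 / n * (2 * s' * J) ^ d := by
  have hlog3 : 0 ≤ Real.log 3 := Real.log_nonneg (by norm_num)
  have hlogCo : 0 ≤ Real.log Co := Real.log_nonneg hCo
  have hCo0 : 0 < Co := by linarith only [hCo]
  have h12 : s' ≤ 2 * s' * J := by
    calc s' = s' * 1 := (mul_one _).symm
      _ ≤ s' * J := mul_le_mul_of_nonneg_left hJ0 (by linarith only [hs'1])
      _ ≤ 2 * s' * J := by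
        have : 0 ≤ s' * J := mul_nonneg (by linarith only [hs'1]) (by linarith only [hJ0])
        linarith only [this]
  have h1 : 1 ≤ (2 * s' * J) ^ d := one_le_pow₀ (hs'1.trans h12)
  have hn1 : (0 : ℝ) < n := by linarith only [hn0]
  have h3 : Co * |σ| ^ (-A) * Real.exp (-(2 * s' * J / Co)) ≤ 1 / n := by
    rw [le_div_iff₀ hn1]
    have h4 : |σ| ^ (-A) = Real.exp (A * l) := by
      rw [hσl, ← Real.exp_mul]
      congr 1
      ring
    have h5 : Real.exp (Real.log Co) = Co := Real.exp_log hCo0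
    obtain ⟨q, hq⟩ : ∃ q : ℝ, q = Real.log 3 := ⟨_, rfl⟩
    obtain ⟨u, hu⟩ : ∃ u : ℝ, u = Real.log Co := ⟨_, rfl⟩
    rw [← hq] at hlog3 hnR hK₂
    rw [← hu] at hlogCo hK₂ h5
    have h6 : u + d * q + (A + d) * (l + r) ≤ 2 * s' * J / Co := by
      rw [le_div_iff₀ hCo0]
      have h7 : u + d * q ≤ (u + d * q) / Real.log 2 * (l + r) :=
        crg_rat (by positivity) (by linarith only [hl2, hlρ])
      have h9 : K₂ * (l + r) = ((A + d) * (l + r) +
          (u + d * q) / Real.log 2 * (l + r)) * Co := by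
        rw [hK₂]
        ring
      have h10 : (u + d * q + (A + d) * (l + r)) * Co ≤ K₂ * (l + r) := by
        rw [h9]
        apply mul_le_mul_of_nonneg_right _ hCo0.le
        linarith only [h7]
      exact h10.trans (hs'.trans h12)
    calc Co * |σ| ^ (-A) * Real.exp (-(2 * s' * J / Co)) * n
        = Real.exp u * Real.exp (A * l) * Real.exp (-(2 * s' * J / Co)) * n := by rw [h5, h4]
      _ ≤ Real.exp u * Real.exp (A * l) * Real.exp (-(2 * s' * J / Co)) *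
          Real.exp (d * (q + r)) := mul_le_mul_of_nonneg_left hnR (by positivity)
      _ = Real.exp (u + A * l + -(2 * s' * J / Co) + d * (q + r)) := by
          rw [← Real.exp_add, ← Real.exp_add, ← Real.exp_add]
      _ ≤ Real.exp 0 := by
          refine Real.exp_le_exp.2 ?_
          have h13 : 0 ≤ (d : ℝ) * l := by positivity
          have h14 : 0 ≤ A * r := by positivity
          have h15 : u + A * l + -(2 * s' * J / Co) + d * (q + r) =
              u + d * q + (A + d) * (l + r) - 2 * s' * J / Co - (d * l + A * r) := by ring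
          rw [h15]
          linarith only [h6, h13, h14]
      _ = 1 := Real.exp_zero
  have hinvn : (0 : ℝ) ≤ 1 / n := by positivity
  calc Co * |σ| ^ (-A) * Real.exp (-(2 * s' * J / Co)) ≤ 1 / n * 1 := by
        rw [mul_one]
        exact h3
    _ ≤ 1 / n * (2 * s' * J) ^ d := mul_le_mul_of_nonneg_left h1 hinvn

/-- the condition of the criterion -/
theorem crg_lt {d n : ℕ} {C₁ D κ T Y : ℝ} (hd : 1 ≤ d) (hn0 : (1 : ℝ) ≤ n)
    (hC₁ : C₁ = 10 * 3 ^ d + 4 * d * 6 ^ d) (hC₁0 : 0 < C₁)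
    (hD : D = (2 * C₁) ^ (1 / (d : ℝ))) (hT : 0 < T)
    (hκ : κ = 60 * D * T * (n : ℝ) ^ (-(1 / (d : ℝ)))) (hY : Y ≤ 1 / n) :
    4 * 3 ^ d * (1 / n + Y) + 2 * 3 ^ d / n + 2 ^ d * (4 * 3 ^ d * (d * (1 / n))) <
      (κ / (60 * T)) ^ d := by
  have hd0 : (0 : ℝ) < d := by exact_mod_cast hd
  have hn1 : (0 : ℝ) < n := by linarith only [hn0]
  have hκd : (κ / (60 * T)) ^ d = 2 * C₁ / n := by
    have h1 : κ / (60 * T) = D * (n : ℝ) ^ (-(1 / (d : ℝ))) := by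
      rw [hκ]
      field_simp
    rw [h1, mul_pow, hD, ← Real.rpow_natCast, ← Real.rpow_mul (by positivity),
      ← Real.rpow_natCast, ← Real.rpow_mul (by positivity), one_div, neg_mul,
      inv_mul_cancel₀ hd0.ne', Real.rpow_one, Real.rpow_neg (by positivity),
      Real.rpow_one, div_eq_mul_inv]
  rw [hκd]
  have h6 : (2 : ℝ) ^ d * 3 ^ d = 6 ^ d := by
    rw [← mul_pow]
    norm_num
  calc 4 * 3 ^ d * (1 / n + Y) + 2 * 3 ^ d / n + 2 ^ d * (4 * 3 ^ d * (d * (1 / n)))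
      ≤ 4 * 3 ^ d * (1 / n + 1 / n) + 2 * 3 ^ d / n +
        2 ^ d * (4 * 3 ^ d * (d * (1 / n))) := by
        have h7 : 4 * (3:ℝ) ^ d * (1 / n + Y) ≤ 4 * 3 ^ d * (1 / n + 1 / n) :=
          mul_le_mul_of_nonneg_left (by linarith only [hY]) (by positivity)
        linarith only [h7]
    _ = (10 * 3 ^ d + 4 * d * (2 ^ d * 3 ^ d)) / n := by ring
    _ = C₁ / n := by rw [h6, ← hC₁]
    _ < 2 * C₁ / n := div_lt_div_of_pos_right (by linarith only [hC₁0]) hn1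

/-- CRG -/
theorem crg (cr3 : Cr3Stmt) (ost : OstStmt) (inf : InfStmt) : CrgStmt := by
  intro d hd
  obtain ⟨A, Co, hA, hCo, host⟩ := ost d hd
  have hd0 : (1 : ℝ) ≤ d := by exact_mod_cast hd
  obtain ⟨C₁, hC₁⟩ : ∃ C₁ : ℝ, C₁ = 10 * 3 ^ d + 4 * d * 6 ^ d := ⟨_, rfl⟩
  have hC₁0 : 0 < C₁ := by rw [hC₁]; positivity
  have h2 : (0 : ℝ) < Real.log 2 := Real.log_pos (by norm_num)
  have hlogCo : 0 ≤ Real.log Co := Real.log_nonneg hCo
  have hlog3 : 0 ≤ Real.log 3 := Real.log_nonneg (by norm_num)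
  have hlog16 : 0 ≤ Real.log (16 * d) := Real.log_nonneg (by linarith only [hd0])
  -- the constant `K`
  obtain ⟨K₁, hK₁⟩ : ∃ K₁ : ℝ, K₁ = 3 * d + 1 +
    (Real.log (16 * d) + 3 * d * Real.log 3) / Real.log 2 := ⟨_, rfl⟩
  obtain ⟨K₂, hK₂⟩ : ∃ K₂ : ℝ, K₂ = Co * (A + d +
    (Real.log Co + d * Real.log 3) / Real.log 2) := ⟨_, rfl⟩
  have hK₁0 : 1 ≤ K₁ := by
    have h : 0 ≤ (Real.log (16 * d) + 3 * d * Real.log 3) / Real.log 2 := by positivity
    rw [hK₁]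
    linarith only [h, hd0]
  have hK₂0 : 0 ≤ K₂ := by
    rw [hK₂]
    positivity
  obtain ⟨K, hK⟩ : ∃ K : ℝ, K = K₁ + K₂ := ⟨_, rfl⟩
  have hK0 : 1 ≤ K := by linarith only [hK, hK₁0, hK₂0]
  obtain ⟨D, hD⟩ : ∃ D : ℝ, D = (2 * C₁) ^ (1 / (d : ℝ)) := ⟨_, rfl⟩
  have hD0 : 0 < D := by rw [hD]; exact Real.rpow_pos_of_pos (by linarith only [hC₁0]) _
  have hDK : 0 < 120 * D * K :=
    mul_pos (mul_pos (by norm_num) hD0) (by linarith only [hK0])
  refine ⟨1 + 120 * D * K, by linarith only [hDK], ?_⟩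
  intro σ E s q g J n ρ hσ hσ2 hE hs hJ hn hρ hg hq hqn hrch
  have hσ0 : σ ≠ 0 := abs_pos.1 hσ
  have hJ0 : (1 : ℝ) ≤ J := by exact_mod_cast hJ
  have hn0 : (1 : ℝ) ≤ n := by exact_mod_cast hn
  have hn1 : (0 : ℝ) < n := by linarith only [hn0]
  have hρ0 : (1 : ℝ) ≤ ρ := by exact_mod_cast hρ
  obtain ⟨l, hl⟩ : ∃ l : ℝ, l = Real.log (1 / |σ|) := ⟨_, rfl⟩
  have hl2 : Real.log 2 ≤ l := by
    rw [hl]
    refine Real.log_le_log (by norm_num) ?_
    rw [le_div_iff₀ hσ]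
    linarith only [hσ2]
  have hlρ : 0 ≤ Real.log ρ := Real.log_nonneg hρ0
  have hl0 : 0 < l := lt_of_lt_of_le h2 hl2
  have hσl : |σ| = Real.exp (-l) := by
    rw [hl, one_div, Real.log_inv, neg_neg, Real.exp_log hσ]
  -- `n ≤ (2 ρ + 1)^d`
  have hnρ : n ≤ (2 * ρ + 1) ^ d := by
    by_contra hcon
    push Not at hcon
    have h1 := hrch ρ 0 (fun x hx => hx)
    have h3 : {V : Site d → ℝ | ¬ n ≤ (rch V (box 0 ρ) E s 0 ρ J).card} = Set.univ := by
      rw [Set.eq_univ_iff_forall]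
      intro V
      rw [Set.mem_ofPred_eq, not_le]
      refine lt_of_le_of_lt (Finset.card_le_card (rch_subset_box J)) ?_
      rw [card_box]
      exact hcon
    rw [h3, measure_univ, ← ENNReal.ofReal_one, ENNReal.ofReal_le_ofReal_iff hq] at h1
    have h4 : 3 ^ d ≤ (2 * ρ + 1) ^ d := Nat.pow_le_pow_left (by omega) d
    have h5 : 3 ^ 1 ≤ 3 ^ d := Nat.pow_le_pow_right (by norm_num) hd
    have h6 : 2 ≤ n := by omega
    have h7 : (2 : ℝ) ≤ n := by exact_mod_cast h6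
    have h8 : (n : ℝ) ≤ q * n := le_mul_of_one_le_left hn1.le h1
    linarith only [h7, h8, hqn]
  have hρ3 : (2 * (ρ : ℝ) + 1) ≤ Real.exp (Real.log 3 + Real.log ρ) := by
    rw [Real.exp_add, Real.exp_log (by norm_num), Real.exp_log (by linarith only [hρ0])]
    linarith only [hρ0]
  have hnR : (n : ℝ) ≤ Real.exp (d * (Real.log 3 + Real.log ρ)) := by
    have h1 : (n : ℝ) ≤ (2 * (ρ : ℝ) + 1) ^ d := by exact_mod_cast hnρ
    refine h1.trans ?_
    rw [Real.exp_nat_mul]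
    exact pow_le_pow_left₀ (by linarith only [hρ0]) hρ3 d
  obtain ⟨s', hs'⟩ : ∃ s' : ℝ, s' = s + K * (l + Real.log ρ) := ⟨_, rfl⟩
  have hlρ' : 0 ≤ l + Real.log ρ := by linarith only [hl0, hlρ]
  have hKl : 0 ≤ K * (l + Real.log ρ) := mul_nonneg (by linarith only [hK0]) hlρ'
  have hss' : s ≤ s' := by
    rw [hs']
    linarith only [hKl]
  have hs'1 : 1 ≤ s' := hs.trans hss'
  have hs'0 : 0 < s' := by linarith only [hs'1]
  have hs'K : s' ≤ K * (s + l + Real.log ρ) := by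
    rw [hs']
    have h : s ≤ K * s := le_mul_of_one_le_left (by linarith only [hs]) hK0
    linarith only [h]
  have hinvn : (0 : ℝ) < 1 / n := one_div_pos.2 hn1
  have hqn' : q ≤ 1 / n := by
    rw [le_div_iff₀ hn1]
    exact hqn
  have hKK : K * (l + Real.log ρ) = K₁ * (l + Real.log ρ) + K₂ * (l + Real.log ρ) := by
    rw [hK]
    ring
  have hK₁l : 0 ≤ K₁ * (l + Real.log ρ) := mul_nonneg (by linarith only [hK₁0]) hlρ'
  have hK₂l : 0 ≤ K₂ * (l + Real.log ρ) := mul_nonneg hK₂0 hlρ'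
  -- the pair term
  have hpair : d * (2 * (ρ : ℝ) + 1) ^ (2 * d) * (16 / |σ| * Real.exp (-s')) ≤ 1 / n :=
    crg_pair hd0 hn0 hρ0 hσl hl2 hl0 hlρ hρ3 hnR hK₁
      (by rw [hs']; linarith only [hKK, hK₂l, hs])
  -- the oscillation
  have hosc : Co * |σ| ^ (-A) * Real.exp (-(2 * s' * J / Co)) ≤ 1 / n * (2 * s' * J) ^ d :=
    crg_osc hn0 hσl hl2 hl0 hlρ hnR (by linarith only [hA]) hCo hJ0 hs'1 hK₂
      (by rw [hs']; linarith only [hKK, hK₁l, hs])
  -- the rate `κ`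
  obtain ⟨κ, hκ⟩ : ∃ κ : ℝ, κ = 60 * D * (s' * J) * (n : ℝ) ^ (-(1 / (d : ℝ))) := ⟨_, rfl⟩
  have hnp : 0 < (n : ℝ) ^ (-(1 / (d : ℝ))) := Real.rpow_pos_of_pos hn1 _
  have hsJ : 0 < s' * J := mul_pos hs'0 (by linarith only [hJ0])
  have hκ0 : 0 < κ := by rw [hκ]; exact mul_pos (mul_pos (mul_pos (by norm_num) hD0) hsJ) hnp
  have hlt : 4 * 3 ^ d * (1 / n + d * (2 * (ρ : ℝ) + 1) ^ (2 * d) *
      (16 / |σ| * Real.exp (-s'))) + 2 * 3 ^ d / n +
      2 ^ d * (4 * 3 ^ d * (d * (1 / n))) < (κ / (60 * (s' * J))) ^ d :=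
    crg_lt hd hn0 hC₁ hC₁0 hD hsJ hκ hpair
  -- conclusion
  have hgκ : g ≤ 2 * κ := by
    by_contra hcon
    push Not at hcon
    obtain ⟨L₀, hL₀⟩ := cr3 d ρ n J σ E κ s' (1 / n) (1 / n) hd hσ0 hn hJ hs'0 hκ0 hinvn hinvn
      hlt (fun N S c hS hSN hc => (host σ E (2 * s' * J) N S c hσ0 (by linarith only [hσ2]) hE
        (mul_nonneg (mul_nonneg (by norm_num) hs'0.le) (by linarith only [hJ0])) hS hSN hc).trans
          (ENNReal.ofReal_le_ofReal hosc))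
      (fun N b hb => (measure_mono (fun V hV => by
        rw [Set.mem_ofPred_eq] at hV ⊢
        exact fun h => hV (h.trans (Finset.card_le_card (rch_mono_s hss' J))))).trans
          ((hrch N b hb).trans (ENNReal.ofReal_le_ofReal hqn')))
    obtain ⟨L, N, a, hL, hbox, hP⟩ := inf d σ E g (2 * κ) hd hσ0 hg (by linarith only [hκ0])
      hcon L₀
    refine hL₀ L N a hL hbox ?_
    have h1 : 2 * κ / 2 = κ := by ring
    rw [h1] at hP
    exact hP
  refine hgκ.trans ?_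
  have h1 : 2 * κ = 120 * D * J * s' * (n : ℝ) ^ (-(1 / (d : ℝ))) := by
    rw [hκ]
    ring
  rw [h1]
  have h3 : 0 ≤ J * (s + l + Real.log ρ) := by
    apply mul_nonneg (by linarith only [hJ0])
    linarith only [hs, hlρ']
  have h4 : 0 ≤ 120 * D * J := mul_nonneg (mul_nonneg (by norm_num) hD0.le)
    (by linarith only [hJ0])
  have h5 : 120 * D * J * s' ≤ 120 * D * J * (K * (s + l + Real.log ρ)) :=
    mul_le_mul_of_nonneg_left hs'K h4
  have h6 : 120 * D * J * (K * (s + l + Real.log ρ)) =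
    120 * D * K * (J * (s + l + Real.log ρ)) := by ring
  rw [← hl]
  refine mul_le_mul_of_nonneg_right ?_ hnp.le
  linarith only [h3, h5, h6]

end Pool.Agent.LE.CL.H81
end
end -- Pool.Agent.Helper81_LSP.CRG

section -- Pool.Agent.Helper54_LQD.CPXa

/-!
# CPX: numbers
-/

set_option autoImplicit false

open MeasureTheory ProbabilityTheory Function Filter

open scoped ENNReal BigOperators Topology NNReal

noncomputable section

namespace Pool.Agent.LE.QD.H54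

/-- powers against the exponential function -/
theorem ev_pow (C : ℝ) (k : ℕ) {α : ℝ} (hα : 0 < α) :
    ∀ᶠ l : ℝ in atTop, C * l ^ k ≤ Real.exp (α * l) := by
  have h := isLittleO_pow_exp_pos_mul_atTop (k := k) hα
  have hC : 0 < 1 / (|C| + 1) := by positivity
  filter_upwards [h.bound hC, eventually_ge_atTop (0 : ℝ)] with l hl hl0
  rw [Real.norm_eq_abs, Real.norm_eq_abs, abs_of_nonneg (by positivity),
    abs_of_pos (Real.exp_pos _)] at hl
  have h1 : (|C| + 1) * l ^ k ≤ Real.exp (α * l) := by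
    calc (|C| + 1) * l ^ k ≤ (|C| + 1) * (1 / (|C| + 1) * Real.exp (α * l)) := by gcongr
      _ = Real.exp (α * l) := by field_simp
  have h2 : C * l ^ k ≤ (|C| + 1) * l ^ k := by
    have := le_abs_self C
    gcongr
    linarith
  exact h2.trans h1

/-- all the conditions on `l` -/
theorem nums (d : ℕ) (hd : 3 ≤ d) (Q K' D c A lm : ℝ) (hc : 0 < c) :
    ∃ l₀ : ℝ, 3 ≤ l₀ ∧ ∀ l : ℝ, l₀ ≤ l → lm ≤ l ∧
      Q * l ^ 2 ≤ Real.exp (14 / 15 * l) ∧ 2 * K' ≤ Real.exp l ∧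
      2 ^ (d + 2) ≤ Real.exp (d / 31 * l) ∧
      D * l ^ (4 * d) * Real.exp (-(1 / 915 * l)) + D * Real.exp (-l) < c ∧
      (A + 3 * d + 3) * l ≤ Real.exp l := by
  have hd0 : (0 : ℝ) < d / 31 := by
    have : (0 : ℝ) < d := by exact_mod_cast (by omega : 0 < d)
    positivity
  have h1 := ev_pow Q 2 (α := 14 / 15) (by norm_num)
  have h2 := ev_pow (2 * K') 0 (α := 1) (by norm_num)
  have h3 := ev_pow (2 ^ (d + 2)) 0 hd0
  have h4 := ev_pow (4 * D / c) (4 * d) (α := 1 / 915) (by norm_num)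
  have h5 := ev_pow (4 * D / c) 0 (α := 1) (by norm_num)
  have h6 := ev_pow (A + 3 * d + 3) 1 (α := 1) (by norm_num)
  have h := h1.and (h2.and (h3.and (h4.and (h5.and (h6.and (eventually_ge_atTop lm))))))
  obtain ⟨l₁, hl₁⟩ := eventually_atTop.1 h
  refine ⟨max l₁ 3, le_max_right _ _, fun l hl => ?_⟩
  obtain ⟨g1, g2, g3, g4, g5, g6, g7⟩ := hl₁ l ((le_max_left _ _).trans hl)
  simp only [pow_zero, mul_one, one_mul, pow_one] at g2 g3 g5 g6
  refine ⟨g7, g1, g2, g3, ?_, g6⟩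
  have e1 : D * l ^ (4 * d) * Real.exp (-(1 / 915 * l)) ≤ c / 4 := by
    have h7 : D * l ^ (4 * d) = 4 * D / c * l ^ (4 * d) * (c / 4) := by field_simp
    rw [h7]
    calc 4 * D / c * l ^ (4 * d) * (c / 4) * Real.exp (-(1 / 915 * l)) ≤
          Real.exp (1 / 915 * l) * (c / 4) * Real.exp (-(1 / 915 * l)) := by gcongr
      _ = c / 4 := by
          rw [mul_comm (Real.exp (1 / 915 * l)), mul_assoc, ← Real.exp_add]
          simp
  have e2 : D * Real.exp (-l) ≤ c / 4 := by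
    have h7 : D = 4 * D / c * (c / 4) := by field_simp
    rw [h7]
    calc 4 * D / c * (c / 4) * Real.exp (-l) ≤ Real.exp l * (c / 4) * Real.exp (-l) := by gcongr
      _ = c / 4 := by
          rw [mul_comm (Real.exp l), mul_assoc, ← Real.exp_add]
          simp
  linarith

end Pool.Agent.LE.QD.H54
end
end -- Pool.Agent.Helper54_LQD.CPXa

section -- Pool.Agent.Helper54_LQD.CPXb

/-!
# CPX: scales
-/

set_option autoImplicit false

open MeasureTheory ProbabilityTheory Function Filter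

open scoped ENNReal BigOperators Topology NNReal

noncomputable section

namespace Pool.Agent.LE.QD.H54

theorem ceil_x {x : ℝ} (hx : 1 ≤ x) : ∃ n : ℕ, 1 ≤ n ∧ x ≤ n ∧ (n : ℝ) ≤ 2 * x := by
  refine ⟨⌈x⌉₊, ?_, Nat.le_ceil _, ?_⟩
  · exact Nat.one_le_iff_ne_zero.2 (Nat.ceil_pos.2 (by linarith)).ne'
  · have := Nat.ceil_lt_add_one (by linarith : 0 ≤ x)
    linarith

theorem floor_x {x : ℝ} (hx : 1 ≤ x) : ∃ n : ℕ, 1 ≤ n ∧ (n : ℝ) ≤ x ∧ x ≤ 2 * n := by
  have h1 : 1 ≤ ⌊x⌋₊ := by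
    rw [Nat.one_le_floor_iff]
    exact hx
  have h1' : (1 : ℝ) ≤ ⌊x⌋₊ := by exact_mod_cast h1
  refine ⟨⌊x⌋₊, h1, Nat.floor_le (by linarith only [hx]), ?_⟩
  have := Nat.lt_floor_add_one x
  linarith

/-- the scales -/
theorem scales {d : ℕ} {l C₁ K₁ Q : ℝ} {ρ₁ : ℕ} (hd : 3 ≤ d) (hl : 3 ≤ l) (hC₁ : 1 ≤ C₁)
    (hK₁ : 1 ≤ K₁) (hρ₁ : (ρ₁ : ℝ) ≤ K₁ * Real.exp (2 * l)) (hρ1 : 1 ≤ ρ₁)
    (hQ : Q = 6 * d * (2 * C₁ + K₁) + 2 * K₁ + 7) (hQl : Q * l ^ 2 ≤ Real.exp (14 / 15 * l)) :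
    ∃ R₁ J₂ R : ℕ, C₁ * l * Real.exp (31 / 15 * l) ≤ R₁ ∧ R = J₂ * (R₁ + ρ₁) + ρ₁ ∧
      (J₂ : ℝ) ≤ 3 * d * l ∧ (∀ N₀ : ℕ, (N₀ : ℝ) ≤ Real.exp (d / 31 * l) → N₀ < 2 ^ J₂) ∧
      1 ≤ R ∧ ρ₁ ≤ R ∧ (2 * (R : ℝ) + 7) ≤ Real.exp (3 * l) := by
  have hd0 : (3 : ℝ) ≤ d := by exact_mod_cast hd
  have he1 : 1 ≤ Real.exp (31 / 15 * l) := Real.one_le_exp (by linarith only [hl])
  have hx1 : 1 ≤ C₁ * l * Real.exp (31 / 15 * l) := by
    have h1 : 1 ≤ C₁ * l := by nlinarith only [hl, hC₁]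
    nlinarith only [hl, hC₁, he1, h1]
  obtain ⟨R₁, hR₁1, hR₁l, hR₁u⟩ := ceil_x hx1
  have hdl : 1 ≤ 3 / 2 * (d : ℝ) * l := by nlinarith only [hl, hd0]
  obtain ⟨J₂, hJ1, hJl, hJu⟩ := ceil_x hdl
  refine ⟨R₁, J₂, J₂ * (R₁ + ρ₁) + ρ₁, hR₁l, rfl, by linarith only [hJu], ?_, by omega, by omega, ?_⟩
  · intro N₀ hN₀
    have h1 : (N₀ : ℝ) < 2 ^ J₂ := by
      calc (N₀ : ℝ) ≤ Real.exp (d / 31 * l) := hN₀
        _ < Real.exp (J₂ * Real.log 2) := by
            refine Real.exp_lt_exp.2 ?_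
            have h7 := Real.log_two_gt_d9
            have h8 : 3 / 2 * d * l * Real.log 2 ≤ J₂ * Real.log 2 := by gcongr
            have h9 : 0 < (d : ℝ) * l := by positivity
            nlinarith only [hl, hd0, hJl, h7]
        _ = 2 ^ J₂ := by rw [Real.exp_nat_mul, Real.exp_log (by norm_num)]
    exact_mod_cast h1
  · push_cast
    obtain ⟨e, he⟩ : ∃ e : ℝ, e = Real.exp (31 / 15 * l) := ⟨_, rfl⟩
    rw [← he] at hR₁u he1
    have h2 : Real.exp (2 * l) ≤ e := by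
      rw [he]
      exact Real.exp_le_exp.2 (by linarith only [hl])
    have hρ' : (ρ₁ : ℝ) ≤ K₁ * e := hρ₁.trans (by gcongr)
    have hJ' : (J₂ : ℝ) ≤ 3 * d * l := by linarith only [hJu]
    have h3 : (J₂ : ℝ) * (R₁ + ρ₁) ≤ 3 * d * l * (2 * (C₁ * l * e) + K₁ * e) := by gcongr
    have h4 : 2 * ((J₂ : ℝ) * (R₁ + ρ₁) + ρ₁) + 7 ≤ Q * l ^ 2 * e := by
      have h5 : 3 * (d : ℝ) * l * (2 * (C₁ * l * e) + K₁ * e) ≤
          3 * d * (2 * C₁ + K₁) * (l ^ 2 * e) := by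
        have h6 : 3 * (d : ℝ) * l * (K₁ * e) ≤ 3 * d * K₁ * (l ^ 2 * e) := by
          have h7 : l ≤ l ^ 2 := by nlinarith only [hl]
          calc 3 * (d : ℝ) * l * (K₁ * e) = 3 * d * K₁ * (l * e) := by ring
            _ ≤ 3 * d * K₁ * (l ^ 2 * e) := by gcongr
        nlinarith only [h6]
      have h8 : K₁ * e ≤ K₁ * (l ^ 2 * e) := by
        have h9 : 1 ≤ l ^ 2 := by nlinarith only [hl]
        have h10 : e ≤ l ^ 2 * e := by nlinarith only [hl, he1, h9]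
        gcongr
      have h11 : (7 : ℝ) ≤ 7 * (l ^ 2 * e) := by
        have h9 : 1 ≤ l ^ 2 := by nlinarith only [hl]
        nlinarith only [he1, h9]
      rw [hQ]
      nlinarith only [hρ', h3, h5, h8, h11]
    refine h4.trans ?_
    calc Q * l ^ 2 * e ≤ Real.exp (14 / 15 * l) * e := by gcongr
      _ = Real.exp (3 * l) := by
          rw [he, ← Real.exp_add]
          ring_nf

open Pool.Agent.Anderson hiding box mem_box card_box
open Pool.Agent.Loc Pool.Agent.Mob Pool.Agent.Helper54.Bal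
  Pool.Agent.Helper96.EXP Pool.Agent.BED
open Pool.Agent.LE.MN Pool.Agent.LE.CL Pool.Agent.LE.IR

/-- the potential on the torus -/
theorem ti_rep {d M : ℕ} [NeZero M] {b y : Site d} {R : ℕ} (hM : 2 * R + 1 ≤ M)
    (hy : y ∈ box b R) : b + rep (ti M b y) = y := by
  rw [mem_box, sd_le_iff] at hy
  funext i
  have h1 := hy i
  have h2 : (ti M b y i).valMinAbs = y i - b i := by
    rw [ZMod.valMinAbs_spec]
    refine ⟨rfl, ?_, ?_⟩ <;> rw [abs_le] at h1 <;> omega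
  simp only [Pi.add_apply, rep, h2]
  ring

end Pool.Agent.LE.QD.H54
end
end -- Pool.Agent.Helper54_LQD.CPXb

section -- Pool.Agent.Helper54_LQD.CPXc

/-!
# CPX: the coefficient
-/

set_option autoImplicit false

open MeasureTheory ProbabilityTheory Function Filter

open scoped ENNReal BigOperators Topology NNReal

noncomputable section

namespace Pool.Agent.LE.QD.H54

/-- the coefficient of the mass bound -/
theorem coef {d m N₀ L : ℕ} {l K₂ K' : ℝ} (hd : 3 ≤ d) (hl : 3 ≤ l) (hK₂ : 1 ≤ K₂) (hK' : 1 ≤ K')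
    (hm1 : Real.exp (4 / 61 * l) ≤ m) (hm2 : (m : ℝ) ≤ 2 * Real.exp (4 / 61 * l))
    (hN : (N₀ : ℝ) ≤ Real.exp (d / 31 * l)) (hL : (L : ℝ) ≤ 2 * K' * Real.exp (2 * l)) :
    K₂ * Real.exp (-(1 / 15 * l)) * (m + ((2 * N₀ : ℕ) : ℝ) * (Real.exp (-(2 * l)) * L) ^ d *
      (m : ℝ) ^ (1 - (d : ℝ) / 2)) + 2 * Real.exp (-(1 / 31 * l)) ≤
      (K₂ * (2 + 2 * (2 * K') ^ d) + 2) * Real.exp (-(1 / 915 * l)) := by
  have hd0 : (3 : ℝ) ≤ d := by exact_mod_cast hd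
  have h1 : (Real.exp (-(2 * l)) * L) ^ d ≤ (2 * K') ^ d := by
    have h2 : Real.exp (-(2 * l)) * L ≤ 2 * K' := by
      calc Real.exp (-(2 * l)) * L ≤ Real.exp (-(2 * l)) * (2 * K' * Real.exp (2 * l)) := by gcongr
        _ = 2 * K' * (Real.exp (-(2 * l)) * Real.exp (2 * l)) := by ring
        _ = 2 * K' := by rw [← Real.exp_add]; simp
    gcongr
  have h3 : (m : ℝ) ^ (1 - (d : ℝ) / 2) ≤ Real.exp (4 / 61 * l * (1 - d / 2)) := by
    calc (m : ℝ) ^ (1 - (d : ℝ) / 2) ≤ (Real.exp (4 / 61 * l)) ^ (1 - (d : ℝ) / 2) :=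
          Real.rpow_le_rpow_of_nonpos (Real.exp_pos _) hm1 (by linarith only [hd0])
      _ = Real.exp (4 / 61 * l * (1 - d / 2)) := by rw [← Real.exp_mul]
  have h4 : ((2 * N₀ : ℕ) : ℝ) * (Real.exp (-(2 * l)) * L) ^ d * (m : ℝ) ^ (1 - (d : ℝ) / 2) ≤
      2 * (2 * K') ^ d * Real.exp (4 / 61 * l) := by
    have h5 : ((2 * N₀ : ℕ) : ℝ) ≤ 2 * Real.exp (d / 31 * l) := by
      push_cast
      linarith only [hN]
    calc ((2 * N₀ : ℕ) : ℝ) * (Real.exp (-(2 * l)) * L) ^ d * (m : ℝ) ^ (1 - (d : ℝ) / 2) ≤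
          2 * Real.exp (d / 31 * l) * (2 * K') ^ d * Real.exp (4 / 61 * l * (1 - d / 2)) := by
          gcongr
      _ = 2 * (2 * K') ^ d * Real.exp (d / 31 * l + 4 / 61 * l * (1 - d / 2)) := by
          rw [Real.exp_add]
          ring
      _ ≤ 2 * (2 * K') ^ d * Real.exp (4 / 61 * l) := by
          gcongr
          have h6 : 0 ≤ (d : ℝ) * l := by positivity
          nlinarith only [h6]
  have h7 : K₂ * Real.exp (-(1 / 15 * l)) * (m + ((2 * N₀ : ℕ) : ℝ) *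
      (Real.exp (-(2 * l)) * L) ^ d * (m : ℝ) ^ (1 - (d : ℝ) / 2)) ≤
      K₂ * (2 + 2 * (2 * K') ^ d) * Real.exp (-(1 / 915 * l)) := by
    calc K₂ * Real.exp (-(1 / 15 * l)) * (m + ((2 * N₀ : ℕ) : ℝ) *
          (Real.exp (-(2 * l)) * L) ^ d * (m : ℝ) ^ (1 - (d : ℝ) / 2)) ≤
          K₂ * Real.exp (-(1 / 15 * l)) * (2 * Real.exp (4 / 61 * l) +
            2 * (2 * K') ^ d * Real.exp (4 / 61 * l)) := by gcongr
      _ = K₂ * (2 + 2 * (2 * K') ^ d) * Real.exp (-(1 / 15 * l) + 4 / 61 * l) := by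
          rw [Real.exp_add]
          ring
      _ = K₂ * (2 + 2 * (2 * K') ^ d) * Real.exp (-(1 / 915 * l)) := by
          congr 2
          ring
  have h8 : 2 * Real.exp (-(1 / 31 * l)) ≤ 2 * Real.exp (-(1 / 915 * l)) := by
    gcongr
    norm_num
  linarith only [h7, h8]

/-- the final contradiction -/
theorem fin_c {d n₁ L : ℕ} {l K₁ K₃ K' Ce ε c D : ℝ} (hl : 3 ≤ l)
    (hK₁ : 1 ≤ K₁) (hK₃ : 1 ≤ K₃) (hK' : 1 ≤ K') (hCe : 1 ≤ Ce)
    (hε : ε ≤ Ce * Real.exp (-(1 / 915 * l)))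
    (hn : ((K₁ * Real.exp (-(2 * l)) * l ^ 4) ^ d)⁻¹ ≤ n₁)
    (hL : (L : ℝ) ≤ 2 * K' * Real.exp (2 * l)) (hD : D = K₃ * Ce * (2 * K' * K₁) ^ d)
    (hD2 : D * l ^ (4 * d) * Real.exp (-(1 / 915 * l)) + D * Real.exp (-l) < c) :
    K₃ * (ε * (L : ℝ) ^ d / n₁ + Real.exp (-(31 / 15 * l))) < c := by
  have hx : 0 < (K₁ * Real.exp (-(2 * l)) * l ^ 4) ^ d := by positivity
  have hn0 : (0 : ℝ) < n₁ := lt_of_lt_of_le (by positivity) hn
  have h1 : (n₁ : ℝ)⁻¹ ≤ (K₁ * Real.exp (-(2 * l)) * l ^ 4) ^ d := by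
    rw [inv_le_comm₀ hn0 hx]
    exact hn
  have h2 : (L : ℝ) ^ d / n₁ ≤ (2 * K' * K₁) ^ d * l ^ (4 * d) := by
    calc (L : ℝ) ^ d / n₁ = (L : ℝ) ^ d * (n₁ : ℝ)⁻¹ := div_eq_mul_inv _ _
      _ ≤ (2 * K' * Real.exp (2 * l)) ^ d * (K₁ * Real.exp (-(2 * l)) * l ^ 4) ^ d := by gcongr
      _ = (2 * K' * K₁ * (Real.exp (2 * l) * Real.exp (-(2 * l))) * l ^ 4) ^ d := by
          rw [← mul_pow]
          ring
      _ = (2 * K' * K₁) ^ d * l ^ (4 * d) := by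
          rw [← Real.exp_add]
          simp only [add_neg_cancel, Real.exp_zero, mul_one]
          rw [mul_pow, ← pow_mul]
  have h3 : ε * (L : ℝ) ^ d / n₁ ≤
      Ce * Real.exp (-(1 / 915 * l)) * ((2 * K' * K₁) ^ d * l ^ (4 * d)) := by
    rw [mul_div_assoc]
    exact mul_le_mul hε h2 (by positivity) (by positivity)
  have h4 : Real.exp (-(31 / 15 * l)) ≤ Real.exp (-l) := Real.exp_le_exp.2 (by linarith only [hl])
  have h5 : K₃ ≤ D := by
    rw [hD]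
    have h6 : 1 ≤ Ce * (2 * K' * K₁) ^ d := by
      have h7 : 1 ≤ (2 * K' * K₁) ^ d := by
        apply one_le_pow₀
        nlinarith only [hK₁, hK']
      nlinarith only [hCe, h7]
    calc K₃ = K₃ * 1 := (mul_one _).symm
      _ ≤ K₃ * (Ce * (2 * K' * K₁) ^ d) := by gcongr
      _ = K₃ * Ce * (2 * K' * K₁) ^ d := by ring
  calc K₃ * (ε * (L : ℝ) ^ d / n₁ + Real.exp (-(31 / 15 * l))) ≤
        K₃ * (Ce * Real.exp (-(1 / 915 * l)) * ((2 * K' * K₁) ^ d * l ^ (4 * d)) +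
          Real.exp (-l)) := by gcongr
    _ = D * l ^ (4 * d) * Real.exp (-(1 / 915 * l)) + K₃ * Real.exp (-l) := by
        rw [hD]
        ring
    _ ≤ D * l ^ (4 * d) * Real.exp (-(1 / 915 * l)) + D * Real.exp (-l) := by gcongr
    _ < c := hD2

end Pool.Agent.LE.QD.H54
end
end -- Pool.Agent.Helper54_LQD.CPXc

section -- Pool.Agent.Helper81_LSP.CLP

/-!
# CLP: the probability of the clusters
-/

set_option autoImplicit false

open MeasureTheory ProbabilityTheory Function Filter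

open scoped ENNReal BigOperators Topology NNReal

noncomputable section

namespace Pool.Agent.LE.CL.H81

open Pool.Agent.Anderson hiding box mem_box card_box
open Pool.Agent.Loc Pool.Agent.Mob Pool.Agent.Helper54.Bal
  Pool.Agent.Helper96.EXP Pool.Agent.BED
open Pool.Agent.LE.MN

/-- CLP -/
theorem clp (clb : ClbStmt) (tsa : TsaStmt) (dua : DuaStmt) (prb : PrbStmt) : ClpStmt := by
  intro d δ A hd hδ hA
  obtain ⟨cT, CT, hcT, hCT, htsa⟩ := tsa d δ hd hδ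
  obtain ⟨c, c₂, C, hc, hc1, hc₂, hC, hclb⟩ := clb d cT CT hd hcT hCT
  obtain ⟨CP, hCP, hprb⟩ := prb d (A + 3) hd (by linarith only [hA])
  have hd0 : (3 : ℝ) ≤ d := by exact_mod_cast hd
  set K₁ : ℝ := 36 * CP / c with hK₁
  have hK₁1 : 1 ≤ K₁ := by
    rw [hK₁, le_div_iff₀ hc]
    linarith only [hc1, hCP]
  set c₃ : ℝ := min c₂ 1 with hc₃
  have hc₃0 : 0 < c₃ := lt_min hc₂ one_pos
  have hc₃1 : c₃ ≤ 1 := min_le_right _ _
  have hc₃2 : c₃ ≤ c₂ := min_le_left _ _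
  set a₀ : ℝ := A + 6 * d + 5 with ha₀
  set C₁ : ℝ := C * (a₀ + 5) with hC₁
  have hC₁1 : 1 ≤ C₁ := by
    rw [hC₁]
    exact olm hC (by rw [ha₀]; linarith only [hA, hd0])
  obtain ⟨l₀, hl₀, hnum⟩ := clp_nums (min c (c₃ / 2)) K₁ (24 * d * C₁) (A + 3 * d + 3)
    (lt_min hc (by positivity)) hK₁1 (by positivity) (by positivity)
  have hKa : 0 < 2 / c₃ := by positivity
  have hKb : 1 ≤ 2 / c₃ := by
    rw [le_div_iff₀ hc₃0]
    linarith only [hc₃1]
  set K : ℝ := K₁ * (2 / c₃) + 6 * C + 6 * d with hK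
  have hK0 : 1 ≤ K := by
    rw [hK]
    have : 0 < K₁ * (2 / c₃) := by positivity
    linarith only [hC, hd0, this]
  refine ⟨Real.exp (-l₀), K, Real.exp_pos _, ?_, hK0, ?_⟩
  · have h1 : Real.exp (-l₀) ≤ Real.exp (-3) := Real.exp_le_exp.2 (by linarith only [hl₀])
    have h2 := Real.add_one_le_exp (3 : ℝ)
    have h3 : Real.exp (-3) = (Real.exp 3)⁻¹ := Real.exp_neg 3
    have h4 : (Real.exp 3)⁻¹ ≤ (4 : ℝ)⁻¹ := inv_anti₀ (by norm_num) (by linarith only [h2])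
    linarith only [h1, h3, h4]
  intro σ E hσ hσc hE
  have hσ0 : 0 < |σ| := abs_pos.2 hσ
  set l : ℝ := Real.log (1 / |σ|) with hl
  have hσl : |σ| = Real.exp (-l) := by
    rw [hl, one_div, Real.log_inv, neg_neg, Real.exp_log hσ0]
  have hl0 : l₀ ≤ l := by
    rw [hσl] at hσc
    have := Real.exp_le_exp.1 hσc
    linarith only [this]
  obtain ⟨hηmin, hQ, hS⟩ := hnum l hl0
  have hl3 : 3 ≤ l := hl₀.trans hl0
  have hlp : 0 < l := by linarith only [hl₀, hl0]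
  have hσ2 : σ ^ 2 = Real.exp (-l) ^ 2 := by rw [← hσl, sq_abs]
  set η : ℝ := K₁ * σ ^ 2 * l ^ 4 with hη
  have hη' : η = K₁ * Real.exp (-l) ^ 2 * l ^ 4 := by rw [hη, hσ2]
  rw [← hη'] at hηmin
  have hηc : η ≤ c := hηmin.trans (min_le_left _ _)
  have hηc₃ : η ≤ c₃ / 2 := hηmin.trans (min_le_right _ _)
  have hη1 : η ≤ 1 := hηc.trans hc1
  have he0 : 0 < Real.exp (-l) ^ 2 := by positivity
  have hη0 : 0 < η := by
    rw [hη']
    positivity
  have hηe : Real.exp (-l) ^ 2 ≤ η := by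
    have h1 : 1 ≤ K₁ * l ^ 4 := by
      have : (1 : ℝ) ≤ l ^ 4 := one_le_pow₀ (by linarith only [hl₀, hl0])
      exact olm hK₁1 this
    rw [hη']
    calc Real.exp (-l) ^ 2 ≤ (K₁ * l ^ 4) * Real.exp (-l) ^ 2 := olm' h1 he0.le
      _ = K₁ * Real.exp (-l) ^ 2 * l ^ 4 := by ring
  have hinv : 1 / η ≤ Real.exp (2 * l) := by
    rw [div_le_iff₀ hη0]
    have h5 : Real.exp (2 * l) * Real.exp (-l) ^ 2 = 1 := by
      rw [← Real.exp_nat_mul, ← Real.exp_add]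
      rw [show 2 * l + ((2 : ℕ) : ℝ) * -l = 0 by push_cast; ring, Real.exp_zero]
    calc (1 : ℝ) = Real.exp (2 * l) * Real.exp (-l) ^ 2 := h5.symm
      _ ≤ Real.exp (2 * l) * η := by gcongr
  have hinv1 : 1 ≤ 1 / η := by
    rw [le_div_iff₀ hη0]
    linarith only [hc₃1, hηc₃]
  have hlogη : Real.log (1 / η) ≤ 2 * l := by
    calc Real.log (1 / η) ≤ Real.log (Real.exp (2 * l)) := Real.log_le_log (by positivity) hinv
      _ = 2 * l := Real.log_exp _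
  have hlogη0 : 0 ≤ Real.log (1 / η) := Real.log_nonneg hinv1
  have h3l : 1 + Real.log (1 / η) ≤ 3 * l := by linarith only [hl₀, hl0, hlogη]
  have hσ12 : |σ| ≤ 1 / 2 := by
    have h1 : Real.exp (-l) ≤ Real.exp (-3) := Real.exp_le_exp.2 (by linarith only [hl₀, hl0])
    have h2 := Real.add_one_le_exp (3 : ℝ)
    have h3 : Real.exp (-3) = (Real.exp 3)⁻¹ := Real.exp_neg 3
    have h4 : (Real.exp 3)⁻¹ ≤ (4 : ℝ)⁻¹ := inv_anti₀ (by norm_num) (by linarith only [h2])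
    rw [hσl]
    linarith only [h1, h3, h4]
  have hpow : ∀ a : ℝ, |σ| ^ a = Real.exp (-(a * l)) := by
    intro a
    rw [hσl, ← Real.exp_mul]
    ring_nf
  -- the scales
  obtain ⟨R₁, J, hR₁l, hJl, hJu, hJ1, hR₁1, hRu⟩ :=
    clp_scales hd0 hl3 hη0 hinv1 hinv hC₁1 hQ
  have hdl : 0 < (d : ℝ) * l := by positivity
  set R : ℕ := J * R₁ with hR
  have hR1 : 1 ≤ R := Nat.mul_pos hJ1 hR₁1
  have hR1' : (1 : ℝ) ≤ R := by exact_mod_cast hR1
  have hR0 : (0 : ℝ) ≤ R := Nat.cast_nonneg _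
  have hlogR : Real.log R ≤ 3 * l := by
    calc Real.log R ≤ Real.log (Real.exp (3 * l)) :=
          Real.log_le_log (by linarith only [hR1']) (by linarith only [hRu, hR1'])
      _ = 3 * l := Real.log_exp _
  -- powers of `η`
  have hηd : η ^ (-(d : ℝ)) = (1 / η) ^ d := by
    rw [Real.rpow_neg hη0.le, Real.rpow_natCast, one_div, inv_pow]
  have hηd1 : 1 / η ≤ (1 / η) ^ d := le_self_pow₀ hinv1 (by omega)
  have hηd2 : 2 ≤ c₃ * (1 / η) ^ d := by
    have h1 : 2 ≤ c₃ * (1 / η) := by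
      rw [mul_one_div, le_div_iff₀ hη0]
      linarith only [hηc₃]
    calc 2 ≤ c₃ * (1 / η) := h1
      _ ≤ c₃ * (1 / η) ^ d := by gcongr
  set n : ℕ := ⌊c₃ * (1 / η) ^ d⌋₊ with hn
  have hnu : (n : ℝ) ≤ c₃ * (1 / η) ^ d := Nat.floor_le (by positivity)
  have hnl : c₃ / 2 * (1 / η) ^ d ≤ n := by
    have h1 : c₃ * (1 / η) ^ d < n + 1 := Nat.lt_floor_add_one _
    linarith only [hηd2, h1]
  have hn1 : 1 ≤ n := by
    have h1 : (1 : ℝ) ≤ n := by
      refine le_trans ?_ hnl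
      linarith only [hηd2]
    exact_mod_cast h1
  -- the test multiplier
  have hT₀ : 1 ≤ c / η := by
    rw [le_div_iff₀ hη0]
    linarith only [hηc]
  obtain ⟨T, q, hT1, hT2, htst⟩ := htsa E (c / η) hE hT₀
  -- the operator bound
  set τ : ℝ := Real.sqrt (c / (3 * l)) with hτ
  have hτ2 : τ ^ 2 = c / (3 * l) := Real.sq_sqrt (by positivity)
  have hτ0 : 0 < τ := Real.sqrt_pos.2 (by positivity)
  have hτ1 : τ ≤ 1 := by
    rw [hτ, Real.sqrt_le_iff]
    refine ⟨zero_le_one, ?_⟩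
    rw [one_pow, div_le_iff₀ (by positivity)]
    linarith only [hc1, hl₀, hl0]
  have hτc : τ ^ 2 * (1 + Real.log (1 / η)) ≤ c := by
    rw [hτ2]
    calc c / (3 * l) * (1 + Real.log (1 / η)) ≤ c / (3 * l) * (3 * l) := by gcongr
      _ = c := by field_simp
  have hprb1 : ∀ b : Site d, PP d (gl σ) {V | ¬ ∀ v : (box b R) → ℂ,
      nsq (Matrix.mulVec (XM (Csq (box b R) E η hη0) (fun y => V y)) v) ≤ τ ^ 2 * nsq v} ≤
        ENNReal.ofReal (|σ| ^ (A + 3)) := by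
    intro b
    refine hprb σ E η τ R b hη0 hσ hσ12 hη1 hτ0 hτ1 ?_ ?_
    · rw [← hl, hτ2]
      have h1 : CP * σ ^ 2 * (1 + l) ^ 2 * (1 + Real.log (1 / η)) ≤
          CP * σ ^ 2 * (2 * l) ^ 2 * (3 * l) := by
        gcongr
        linarith only [hl₀, hl0]
      refine h1.trans (le_of_eq ?_)
      rw [hη, hK₁]
      field_simp
      ring
    · rw [hpow]
      refine le_trans (by linarith only : (2 * (R : ℝ) + 1) ≤ 2 * R + 7) (hRu.trans ?_)
      refine Real.exp_le_exp.2 ?_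
      have := num_a hA hlp
      linarith only [this]
  refine ⟨n, R + 2, J, 6 * C * l, olm (by linarith only [hC]) (by linarith only [hl₀, hl0]), ?_, by omega, ?_, hJ1, ?_, hn1, ?_, ?_, ?_⟩
  · have h1 : 6 * C ≤ K := by
      rw [hK]
      have : 0 < K₁ * (2 / c₃) := by positivity
      linarith only [hd0, this]
    gcongr
  · rw [hpow, show -(-3 * l) = 3 * l by ring]
    push_cast
    linarith only [hRu, hR1']
  · refine hJu.trans ?_
    have h1 : 6 * (d : ℝ) ≤ K := by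
      rw [hK]
      have : 0 < K₁ * (2 / c₃) := by positivity
      linarith only [hC, this]
    gcongr
  · rw [hpow]
    refine hnu.trans ?_
    calc c₃ * (1 / η) ^ d ≤ 1 * (Real.exp (2 * l)) ^ d := by gcongr
      _ = Real.exp (-(-(2 * (d : ℝ)) * l)) := by
        rw [one_mul, ← Real.exp_nat_mul]
        congr 1
        ring
  · refine le_trans (clp_pow hd hc₃0 hc₃1 hη hη0 ?_ (by positivity)) hnl
    rw [hK]
    linarith only [hC, hd0]
  · intro N b hbox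
    have hb := bad_prob hσ E (a₀ * l) (|σ| ^ (A + 3)) N R b (fun V => ∀ v : (box b R) → ℂ,
      nsq (Matrix.mulVec (XM (Csq (box b R) E η hη0) (fun y => V y)) v) ≤ τ ^ 2 * nsq v)
      (by positivity) (hprb1 b)
    refine (measure_mono ?_).trans (hb.trans (ENNReal.ofReal_le_ofReal ?_))
    · intro V hV
      rw [Set.mem_ofPred_eq] at hV ⊢
      rintro ⟨h1, h2, h3, h4⟩
      apply hV
      have h5 := hclb V N R R₁ J E η τ (6 * C * l) (a₀ * l) T b q hη0 hηc (by linarith only [hδ, hE])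
        (by positivity) hτ0.le hτc hT1 hT2 htst hbox le_rfl ?_ ?_ ?_ h1 h2 h3
        (kf_of dua hη0 hτ0.le h4)
      · have h6 : (n : ℝ) ≤ (rch V (box 0 N) E (6 * C * l) b R J).card := by
          refine le_trans hnu (le_trans ?_ h5)
          rw [hηd]
          gcongr
        have h7 : n ≤ (rch V (box 0 N) E (6 * C * l) b R J).card := by exact_mod_cast h6
        exact h7.trans (Finset.card_le_card (rch_mono_rad (by omega) J))
      · have h6 : ((2 * (R : ℝ) + 1) ^ d) < 2 ^ J := by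
          calc (2 * (R : ℝ) + 1) ^ d ≤ (Real.exp (3 * l)) ^ d := by
                gcongr
                linarith only [hRu]
            _ = Real.exp (d * (3 * l)) := by rw [← Real.exp_nat_mul]
            _ < Real.exp (J * Real.log 2) := by
                refine Real.exp_lt_exp.2 ?_
                have h7 := Real.log_two_gt_d9
                have h8 : 5 * d * l * Real.log 2 ≤ J * Real.log 2 := by
                  gcongr
                have h9 : d * (3 * l) < 5 * d * l * Real.log 2 := num_d hdl h7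
                linarith only [h8, h9]
            _ = 2 ^ J := by rw [Real.exp_nat_mul, Real.exp_log (by norm_num)]
        exact_mod_cast h6
      · calc C * (a₀ * l + Real.log (1 / η) + Real.log R)
            ≤ C * (a₀ * l + 2 * l + 3 * l) := by gcongr
          _ = η * (C₁ * l / η) := by
            rw [hC₁]
            field_simp
            ring
          _ ≤ η * R₁ := by gcongr
      · calc C * (1 + Real.log (1 / η) + Real.log R) ≤ C * (3 * l + 3 * l) := by gcongr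
          _ = 6 * C * l := by ring
    · rw [hpow, hpow]
      exact clp_tail hl3 hR0 hRu hS (by rw [hσl, Real.exp_neg, one_div, inv_inv])

end Pool.Agent.LE.CL.H81
end
end -- Pool.Agent.Helper81_LSP.CLP
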