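import Pool.Agent.Helper12_MEB.B108

/-!
# Merged copies (generated) of the modules

* `Pool.Agent.Helper18_LQD.TEQ`
* `Pool.Agent.Helper88_LQD.CLQ`
-/

set_option autoImplicit false

section -- Pool.Agent.Helper18_LQD.TEQ

/-!
# Squad LQD, row TEQ: the ladder equation, an exact identity
-/

set_option autoImplicit false

open MeasureTheory ProbabilityTheory Function Filter

open scoped ENNReal BigOperators Topology NNReal ComplexOrder Matrix

noncomputable section

namespace Pool.Agent.LE.QD.H18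

open Pool.Agent.Anderson hiding box mem_box card_box
open Pool.Agent.Loc Pool.Agent.Mob Pool.Agent.Helper54.Bal
  Pool.Agent.Helper96.EXP Pool.Agent.BED
open Pool.Agent.LE.MN Pool.Agent.LE.CL Pool.Agent.LE.IR

/-- bounded continuous functions -/
def Bc {ι : Type} (F : (ι → ℝ) → ℂ) : Prop := Continuous F ∧ ∃ B : ℝ, ∀ V, ‖F V‖ ≤ B

section bc

variable {ι : Type} {F G : (ι → ℝ) → ℂ}

lemma Bc.const (c : ℂ) : Bc (fun _ : ι → ℝ => c) := ⟨continuous_const, ‖c‖, fun _ => le_rfl⟩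

lemma Bc.add (hF : Bc F) (hG : Bc G) : Bc (fun V => F V + G V) := by
  obtain ⟨h1, B, hB⟩ := hF
  obtain ⟨h2, B', hB'⟩ := hG
  exact ⟨h1.add h2, B + B', fun V => (norm_add_le _ _).trans (add_le_add (hB V) (hB' V))⟩

lemma Bc.mul (hF : Bc F) (hG : Bc G) : Bc (fun V => F V * G V) := by
  obtain ⟨h1, B, hB⟩ := hF
  obtain ⟨h2, B', hB'⟩ := hG
  refine ⟨h1.mul h2, B * B', fun V => ?_⟩
  rw [norm_mul]
  exact mul_le_mul (hB V) (hB' V) (norm_nonneg _) ((norm_nonneg _).trans (hB V))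

lemma Bc.neg (hF : Bc F) : Bc (fun V => - F V) := by
  obtain ⟨h1, B, hB⟩ := hF
  exact ⟨h1.neg, B, fun V => by rw [norm_neg]; exact hB V⟩

lemma Bc.sub (hF : Bc F) (hG : Bc G) : Bc (fun V => F V - G V) := by
  have := hF.add hG.neg
  simpa only [sub_eq_add_neg] using this

lemma Bc.conj (hF : Bc F) : Bc (fun V => (starRingEnd ℂ) (F V)) := by
  obtain ⟨h1, B, hB⟩ := hF
  exact ⟨Complex.continuous_conj.comp h1, B, fun V => by rw [RCLike.norm_conj]; exact hB V⟩

lemma Bc.sum {κ : Type} (s : Finset κ) {Φ : κ → (ι → ℝ) → ℂ} (h : ∀ i ∈ s, Bc (Φ i)) :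
    Bc (fun V => ∑ i ∈ s, Φ i V) := by
  classical
  induction s using Finset.induction_on with
  | empty => simpa using Bc.const (ι := ι) 0
  | insert a s ha ih =>
    have h1 := (h a (Finset.mem_insert_self a s)).add
      (ih fun i hi => h i (Finset.mem_insert_of_mem hi))
    simpa only [Finset.sum_insert ha] using h1

lemma Bc.integrable [Fintype ι] (hF : Bc F) (v : ℝ≥0) :
    Integrable F (Measure.pi fun _ : ι => gaussianReal 0 v) := by
  obtain ⟨h1, B, hB⟩ := hF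
  exact Integrable.of_bound h1.aestronglyMeasurable B (Eventually.of_forall hB)

end bc

/-- coordinate times bounded function -/
lemma coord_integrable {ι : Type} [Fintype ι] {F : (ι → ℝ) → ℂ} (hF : Bc F) (v : ℝ≥0) (x : ι) :
    Integrable (fun V : ι → ℝ => (V x : ℂ) * F V) (Measure.pi fun _ : ι => gaussianReal 0 v) := by
  obtain ⟨h1, B, hB⟩ := hF
  have h2 : Integrable (fun V : ι → ℝ => V x) (Measure.pi fun _ : ι => gaussianReal 0 v) := by
    have hmp : MeasurePreserving (fun V : ι → ℝ => V x)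
        (Measure.pi fun _ : ι => gaussianReal 0 v) (gaussianReal 0 v) :=
      measurePreserving_eval _ x
    have hid : Integrable (fun t : ℝ => t) (gaussianReal 0 v) := by
      have := memLp_id_gaussianReal (μ := 0) (v := v) 1
      exact this.integrable (by simp)
    exact hmp.integrable_comp_of_integrable hid
  refine (h2.ofReal (𝕜 := ℂ)).mul_bdd (c := B) h1.aestronglyMeasurable (Eventually.of_forall hB)

variable {d M : ℕ} [NeZero M]

/-- resolvent identity with a shift of the energy -/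
lemma res_id (ral : RalStmt) (V : Tor d M → ℝ) {z ζ c : ℂ} (hz0 : 0 < z.im) (hζ : 0 < ζ.im)
    (h : ζ = z + c) (x b : Tor d M) :
    rs V z x b = rs (0 : Tor d M → ℝ) ζ x b -
      ∑ y, rs (0 : Tor d M → ℝ) ζ x y * ((V y : ℂ) + c) * rs V z y b := by
  have h1 := (ral d M V z hz0).1.1
  have h2 := (ral d M (0 : Tor d M → ℝ) ζ hζ).1.2
  have h3 : hz V z = hz (0 : Tor d M → ℝ) ζ + Matrix.diagonal fun y => (V y : ℂ) + c := by
    unfold hz
    rw [add_assoc, Matrix.diagonal_add]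
    congr 2
    funext y
    rw [h]
    simp
    ring
  have h4 : rs (0 : Tor d M → ℝ) ζ = rs V z +
      rs (0 : Tor d M → ℝ) ζ * (Matrix.diagonal fun y => (V y : ℂ) + c) * rs V z := by
    calc rs (0 : Tor d M → ℝ) ζ = rs (0 : Tor d M → ℝ) ζ * (hz V z * rs V z) := by
          rw [h1, mul_one]
      _ = (rs (0 : Tor d M → ℝ) ζ * hz (0 : Tor d M → ℝ) ζ) * rs V z +
          rs (0 : Tor d M → ℝ) ζ * (Matrix.diagonal fun y => (V y : ℂ) + c) * rs V z := by
          rw [h3]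
          noncomm_ring
      _ = _ := by rw [h2, one_mul]
  have h5 := congrFun (congrFun h4 x) b
  rw [Matrix.add_apply, Matrix.mul_apply] at h5
  simp only [Matrix.mul_diagonal] at h5
  rw [h5]
  ring

lemma ro_cast (V : Tor d M → ℝ) (z : ℂ) (C : Finset (Tor d M)) (x : Tor d M) :
    (ro V z C x : ℂ) = ∑ b ∈ C, rs V z x b * (starRingEnd ℂ) (rs V z x b) := by
  unfold ro
  push_cast
  refine Finset.sum_congr rfl fun b _ => ?_
  rw [Complex.mul_conj, Complex.normSq_eq_norm_sq]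
  push_cast
  rfl

/-- the pointwise identity -/
lemma pointwise (ral : RalStmt) (V : Tor d M → ℝ) {z ζ c : ℂ} (hz0 : 0 < z.im) (hζ : 0 < ζ.im)
    (h : ζ = z + c) (f : Tor d M → ℝ) (C : Finset (Tor d M)) :
    ∑ x, (f x : ℂ) * (ro V z C x : ℂ) =
      (∑ b ∈ C, ∑ a, (f a : ℂ) * rs (0 : Tor d M → ℝ) ζ a b * (starRingEnd ℂ) (rs V z a b)) -
        ∑ x, ((V x : ℂ) + c) * yd V z ζ f C x := by
  have e1 : ∑ x, (f x : ℂ) * (ro V z C x : ℂ) =
      ∑ b ∈ C, ∑ x, (f x : ℂ) * (rs V z x b * (starRingEnd ℂ) (rs V z x b)) := by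
    simp_rw [ro_cast, Finset.mul_sum]
    rw [Finset.sum_comm]
  have e2 : ∑ x, ((V x : ℂ) + c) * yd V z ζ f C x =
      ∑ b ∈ C, ∑ x, (f x : ℂ) * ((∑ y, rs (0 : Tor d M → ℝ) ζ x y * ((V y : ℂ) + c) * rs V z y b) *
        (starRingEnd ℂ) (rs V z x b)) := by
    unfold yd
    simp_rw [Finset.mul_sum, Finset.sum_mul]
    rw [Finset.sum_comm]
    refine Finset.sum_congr rfl fun b _ => ?_
    simp_rw [Finset.mul_sum]
    rw [Finset.sum_comm]
    refine Finset.sum_congr rfl fun x _ => ?_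
    refine Finset.sum_congr rfl fun y _ => ?_
    ring
  rw [e1, e2, ← Finset.sum_sub_distrib]
  refine Finset.sum_congr rfl fun b _ => ?_
  rw [← Finset.sum_sub_distrib]
  refine Finset.sum_congr rfl fun x _ => ?_
  rw [show rs V z x b * (starRingEnd ℂ) (rs V z x b) = (rs (0 : Tor d M → ℝ) ζ x b -
      ∑ y, rs (0 : Tor d M → ℝ) ζ x y * ((V y : ℂ) + c) * rs V z y b) *
        (starRingEnd ℂ) (rs V z x b) by rw [← res_id ral V hz0 hζ h x b]]
  ring

lemma rs_bc (ral : RalStmt) {z : ℂ} (hz0 : 0 < z.im) (a b : Tor d M) :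
    Bc (fun V : Tor d M → ℝ => rs V z a b) :=
  ⟨(ral d M 0 z hz0).2.2.2.2.2.2.2.2.2.1 a b, 1 / z.im,
    fun V => (ral d M V z hz0).2.2.2.2.2.2.2.2.2.2.2 a b⟩

lemma yd_bc (ral : RalStmt) {z ζ : ℂ} (hz0 : 0 < z.im) (f : Tor d M → ℝ) (C : Finset (Tor d M))
    (x : Tor d M) : Bc (fun V => yd V z ζ f C x) := by
  unfold yd
  refine Bc.sum _ fun b _ => ?_
  refine (rs_bc ral hz0 x b).mul ?_
  refine Bc.sum _ fun a _ => ?_
  exact (rs_bc ral hz0 a b).conj.mul (Bc.const _)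

lemma od_bc (ral : RalStmt) {z ζ : ℂ} (hz0 : 0 < z.im) (f : Tor d M → ℝ)
    (x : Tor d M) : Bc (fun V => od V z ζ f x) := by
  unfold od
  refine Bc.sum _ fun a _ => ?_
  exact (rs_bc ral hz0 a x).conj.mul (Bc.const _)

lemma ro_bc (ral : RalStmt) {z : ℂ} (hz0 : 0 < z.im) (C : Finset (Tor d M))
    (x : Tor d M) : Bc (fun V => (ro V z C x : ℂ)) := by
  simp_rw [ro_cast]
  refine Bc.sum _ fun b _ => ?_
  exact (rs_bc ral hz0 x b).mul (rs_bc ral hz0 x b).conj

/-- the derivative of `yd` -/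
lemma yd_deriv (ral : RalStmt) {z ζ : ℂ} (hz0 : 0 < z.im) (f : Tor d M → ℝ) (C : Finset (Tor d M))
    (x : Tor d M) (V : Tor d M → ℝ) :
    HasDerivAt (fun t : ℝ => yd (Function.update V x t) z ζ f C x)
      (-(rs V z x x * yd V z ζ f C x + (ro V z C x : ℂ) * od V z ζ f x)) (V x) := by
  have hd : ∀ a b : Tor d M, HasDerivAt (fun t : ℝ => rs (Function.update V x t) z a b)
      (-(rs V z a x * rs V z x b)) (V x) := fun a b =>
    (ral d M V z hz0).2.2.2.2.2.2.2.2.1 x a b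
  have hsym : ∀ a b : Tor d M, rs V z a b = rs V z b a := (ral d M V z hz0).2.1
  have hc : ∀ a b : Tor d M, HasDerivAt
      (fun t : ℝ => (starRingEnd ℂ) (rs (Function.update V x t) z a b))
      ((starRingEnd ℂ) (-(rs V z a x * rs V z x b))) (V x) := fun a b => (hd a b).star
  have hi : ∀ b : Tor d M, HasDerivAt (fun t : ℝ => ∑ a,
      (starRingEnd ℂ) (rs (Function.update V x t) z a b) *
        ((f a : ℂ) * rs (0 : Tor d M → ℝ) ζ a x))
      (∑ a, (starRingEnd ℂ) (-(rs V z a x * rs V z x b)) *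
        ((f a : ℂ) * rs (0 : Tor d M → ℝ) ζ a x)) (V x) := by
    intro b
    refine HasDerivAt.fun_sum fun a _ => ?_
    exact (hc a b).mul_const _
  have hm : ∀ b : Tor d M, HasDerivAt (fun t : ℝ => rs (Function.update V x t) z x b * ∑ a,
      (starRingEnd ℂ) (rs (Function.update V x t) z a b) *
        ((f a : ℂ) * rs (0 : Tor d M → ℝ) ζ a x))
      (-(rs V z x x * rs V z x b) * (∑ a, (starRingEnd ℂ) (rs V z a b) *
        ((f a : ℂ) * rs (0 : Tor d M → ℝ) ζ a x)) + rs V z x b *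
        (∑ a, (starRingEnd ℂ) (-(rs V z a x * rs V z x b)) *
        ((f a : ℂ) * rs (0 : Tor d M → ℝ) ζ a x))) (V x) := by
    intro b
    have := (hd x b).mul (hi b)
    rw [Function.update_eq_self] at this
    exact this
  have hs := HasDerivAt.fun_sum (u := C) fun b (_ : b ∈ C) => hm b
  have e : (-(rs V z x x * yd V z ζ f C x + (ro V z C x : ℂ) * od V z ζ f x)) =
      ∑ b ∈ C, (-(rs V z x x * rs V z x b) * (∑ a, (starRingEnd ℂ) (rs V z a b) *
        ((f a : ℂ) * rs (0 : Tor d M → ℝ) ζ a x)) + rs V z x b *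
        (∑ a, (starRingEnd ℂ) (-(rs V z a x * rs V z x b)) *
        ((f a : ℂ) * rs (0 : Tor d M → ℝ) ζ a x))) := by
    rw [ro_cast]
    unfold yd
    rw [Finset.mul_sum, Finset.sum_mul, ← Finset.sum_add_distrib, ← Finset.sum_neg_distrib]
    refine Finset.sum_congr rfl fun b _ => ?_
    have e1 : ∑ a, (starRingEnd ℂ) (-(rs V z a x * rs V z x b)) *
        ((f a : ℂ) * rs (0 : Tor d M → ℝ) ζ a x) = -((starRingEnd ℂ) (rs V z x b) *
          od V z ζ f x) := by
      unfold od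
      rw [Finset.mul_sum, ← Finset.sum_neg_distrib]
      refine Finset.sum_congr rfl fun a _ => ?_
      rw [map_neg, map_mul]
      ring
    rw [e1]
    ring
  rw [e]
  exact hs

/-- the free resolvent is translation invariant -/
lemma kk_eq (ral : RalStmt) {ζ : ℂ} (hζ : 0 < ζ.im) (x a : Tor d M) (t : ℝ) :
    ((kk ζ (x - a) * t : ℝ) : ℂ) = (starRingEnd ℂ) (rs (0 : Tor d M → ℝ) ζ a x) *
      ((t : ℂ) * rs (0 : Tor d M → ℝ) ζ a x) := by
  have h1 := (ral d M (0 : Tor d M → ℝ) ζ hζ).2.2.2.2.2.2.1 a 0 (x - a)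
  have h2 : tr a (0 : Tor d M → ℝ) = 0 := rfl
  rw [h2, add_zero, add_sub_cancel] at h1
  unfold kk
  rw [h1]
  have h3 := Complex.mul_conj (rs (0 : Tor d M → ℝ) ζ a x)
  rw [Complex.normSq_eq_norm_sq] at h3
  push_cast at h3 ⊢
  rw [← h3]
  ring

/-- **TEQ.** -/
theorem teq (ral : RalStmt) (ste : SteStmt) : TeqStmt := by
  intro d M _ v z ζ f C hz0 hζ hζz
  set g : ℂ := gb d M v z with hg
  have hgau : gau d M v = Measure.pi fun _ : Tor d M => gaussianReal 0 v := rfl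
  set w : Tor d M → ℂ := fun x => ∑ a, (starRingEnd ℂ) (rs (0 : Tor d M → ℝ) ζ a x) *
    ((f a : ℂ) * rs (0 : Tor d M → ℝ) ζ a x) with hw
  have hwc : ∀ x, ((∑ y, kk ζ (x - y) * f y : ℝ) : ℂ) = w x := by
    intro x
    rw [Complex.ofReal_sum]
    exact Finset.sum_congr rfl fun a _ => kk_eq ral hζ x a (f a)
  -- integrability
  have iY : ∀ x, Integrable (fun V => yd V z ζ f C x) (gau d M v) := fun x =>
    (yd_bc ral hz0 f C x).integrable v
  have iVY : ∀ x, Integrable (fun V => (V x : ℂ) * yd V z ζ f C x) (gau d M v) := fun x =>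
    coord_integrable (yd_bc ral hz0 f C x) v x
  have iGY : ∀ x, Integrable (fun V => rs V z x x * yd V z ζ f C x) (gau d M v) := fun x =>
    ((rs_bc ral hz0 x x).mul (yd_bc ral hz0 f C x)).integrable v
  have iR : ∀ x, Integrable (fun V => (ro V z C x : ℂ)) (gau d M v) := fun x =>
    (ro_bc ral hz0 C x).integrable v
  have iRO : ∀ x, Integrable (fun V => (ro V z C x : ℂ) * od V z ζ f x) (gau d M v) := fun x =>
    ((ro_bc ral hz0 C x).mul (od_bc ral hz0 f x)).integrable v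
  have iG : ∀ a b, Integrable (fun V => (starRingEnd ℂ) (rs V z a b)) (gau d M v) := fun a b =>
    (rs_bc ral hz0 a b).conj.integrable v
  -- integration by parts
  have hibp : ∀ x, ∫ V, (V x : ℂ) * yd V z ζ f C x ∂(gau d M v) =
      -(v * ((∫ V, rs V z x x * yd V z ζ f C x ∂(gau d M v)) +
        ∫ V, (ro V z C x : ℂ) * od V z ζ f x ∂(gau d M v))) := by
    intro x
    obtain ⟨c1, B1, b1⟩ := yd_bc (ζ := ζ) ral hz0 f C x
    obtain ⟨c2, B2, b2⟩ := (((rs_bc ral hz0 x x).mul (yd_bc (ζ := ζ) ral hz0 f C x)).add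
      ((ro_bc ral hz0 C x).mul (od_bc (ζ := ζ) ral hz0 f x))).neg
    have h := ste (Tor d M) v x (fun V => yd V z ζ f C x)
      (fun V => -(rs V z x x * yd V z ζ f C x + (ro V z C x : ℂ) * od V z ζ f x)) (max B1 B2)
      c1 c2 (fun V => (b1 V).trans (le_max_left _ _)) (fun V => (b2 V).trans (le_max_right _ _))
      (fun V => yd_deriv ral hz0 f C x V)
    rw [← hgau] at h
    rw [h, integral_neg, integral_add (iGY x) (iRO x)]
    ring
  -- left side
  have hL : ((∫ V, ∑ x, (f x - v * ∑ y, kk ζ (x - y) * f y) * ro V z C x ∂(gau d M v) : ℝ) : ℂ) =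
      (∑ b ∈ C, ∑ a, (f a : ℂ) * rs (0 : Tor d M → ℝ) ζ a b *
        ∫ V, (starRingEnd ℂ) (rs V z a b) ∂(gau d M v)) -
      (∑ x, ((∫ V, (V x : ℂ) * yd V z ζ f C x ∂(gau d M v)) +
        v * g * ∫ V, yd V z ζ f C x ∂(gau d M v))) -
      ∑ x, v * w x * ∫ V, (ro V z C x : ℂ) ∂(gau d M v) := by
    rw [← integral_complex_ofReal]
    have hp : ∀ V : Tor d M → ℝ,
        ((∑ x, (f x - v * ∑ y, kk ζ (x - y) * f y) * ro V z C x : ℝ) : ℂ) =
        (∑ b ∈ C, ∑ a, (f a : ℂ) * rs (0 : Tor d M → ℝ) ζ a b * (starRingEnd ℂ) (rs V z a b)) -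
        (∑ x, ((V x : ℂ) * yd V z ζ f C x + v * g * yd V z ζ f C x)) -
        ∑ x, v * w x * (ro V z C x : ℂ) := by
      intro V
      have h1 := pointwise ral V hz0 hζ hζz f C
      have h2 : ∑ x, ((V x : ℂ) + v * g) * yd V z ζ f C x =
          ∑ x, ((V x : ℂ) * yd V z ζ f C x + v * g * yd V z ζ f C x) :=
        Finset.sum_congr rfl fun x _ => by ring
      rw [← h2, ← h1, ← Finset.sum_sub_distrib, Complex.ofReal_sum]
      refine Finset.sum_congr rfl fun x _ => ?_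
      rw [Complex.ofReal_mul, Complex.ofReal_sub, Complex.ofReal_mul, hwc]
      ring
    simp_rw [hp]
    have i1 : Integrable (fun V => ∑ b ∈ C, ∑ a, (f a : ℂ) * rs (0 : Tor d M → ℝ) ζ a b *
        (starRingEnd ℂ) (rs V z a b)) (gau d M v) :=
      integrable_finsetSum _ fun b _ => integrable_finsetSum _ fun a _ => (iG a b).const_mul _
    have i2 : ∀ x, Integrable (fun V => (V x : ℂ) * yd V z ζ f C x + v * g * yd V z ζ f C x)
        (gau d M v) := fun x => (iVY x).add ((iY x).const_mul _)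
    have i3 : Integrable (fun V => ∑ x, ((V x : ℂ) * yd V z ζ f C x + v * g * yd V z ζ f C x))
        (gau d M v) := integrable_finsetSum _ fun x _ => i2 x
    have i4 : Integrable (fun V => ∑ x, v * w x * (ro V z C x : ℂ)) (gau d M v) :=
      integrable_finsetSum _ fun x _ => (iR x).const_mul _
    have i5 : Integrable (fun V => (∑ b ∈ C, ∑ a, (f a : ℂ) * rs (0 : Tor d M → ℝ) ζ a b *
        (starRingEnd ℂ) (rs V z a b)) -
        ∑ x, ((V x : ℂ) * yd V z ζ f C x + v * g * yd V z ζ f C x)) (gau d M v) := i1.sub i3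
    rw [integral_sub i5 i4, integral_sub i1 i3]
    congr 1
    · congr 1
      · rw [integral_finsetSum _ fun b _ => integrable_finsetSum _ fun a _ =>
          (iG a b).const_mul _]
        refine Finset.sum_congr rfl fun b _ => ?_
        rw [integral_finsetSum _ fun a _ => (iG a b).const_mul _]
        refine Finset.sum_congr rfl fun a _ => ?_
        rw [integral_const_mul]
      · rw [integral_finsetSum _ fun x _ => i2 x]
        refine Finset.sum_congr rfl fun x _ => ?_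
        rw [integral_add (iVY x) ((iY x).const_mul _), integral_const_mul]
    · rw [integral_finsetSum _ fun x _ => (iR x).const_mul _]
      refine Finset.sum_congr rfl fun x _ => ?_
      rw [integral_const_mul]
  -- right side
  have hR1 : ∫ V, ∑ x, (rs V z x x - g) * yd V z ζ f C x ∂(gau d M v) =
      ∑ x, ((∫ V, rs V z x x * yd V z ζ f C x ∂(gau d M v)) -
        g * ∫ V, yd V z ζ f C x ∂(gau d M v)) := by
    have hp : ∀ V : Tor d M → ℝ, ∑ x, (rs V z x x - g) * yd V z ζ f C x =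
        ∑ x, (rs V z x x * yd V z ζ f C x - g * yd V z ζ f C x) := fun V =>
      Finset.sum_congr rfl fun x _ => by ring
    simp_rw [hp]
    have i6 : ∀ x, Integrable (fun V => rs V z x x * yd V z ζ f C x - g * yd V z ζ f C x)
        (gau d M v) := fun x => (iGY x).sub ((iY x).const_mul _)
    rw [integral_finsetSum _ fun x _ => i6 x]
    refine Finset.sum_congr rfl fun x _ => ?_
    rw [integral_sub (iGY x) ((iY x).const_mul _), integral_const_mul]
  have hR2 : ∫ V, ∑ x, (od V z ζ f x - w x) * (ro V z C x : ℂ) ∂(gau d M v) =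
      ∑ x, ((∫ V, (ro V z C x : ℂ) * od V z ζ f x ∂(gau d M v)) -
        w x * ∫ V, (ro V z C x : ℂ) ∂(gau d M v)) := by
    have hp : ∀ V : Tor d M → ℝ, ∑ x, (od V z ζ f x - w x) * (ro V z C x : ℂ) =
        ∑ x, ((ro V z C x : ℂ) * od V z ζ f x - w x * (ro V z C x : ℂ)) := fun V =>
      Finset.sum_congr rfl fun x _ => by ring
    simp_rw [hp]
    have i6 : ∀ x, Integrable (fun V => (ro V z C x : ℂ) * od V z ζ f x - w x * (ro V z C x : ℂ))
        (gau d M v) := fun x => (iRO x).sub ((iR x).const_mul _)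
    rw [integral_finsetSum _ fun x _ => i6 x]
    refine Finset.sum_congr rfl fun x _ => ?_
    rw [integral_sub (iRO x) ((iR x).const_mul _), integral_const_mul]
  have hT : (∑ b ∈ C, ∑ a, (f a : ℂ) * rs (0 : Tor d M → ℝ) ζ a b *
        ∫ V, (starRingEnd ℂ) (rs V z a b) ∂(gau d M v)) =
      ∑ b ∈ C, ∑ a, (f a : ℂ) * rs (0 : Tor d M → ℝ) ζ a b *
        (starRingEnd ℂ) (∫ V, rs V z a b ∂(gau d M v)) := by
    refine Finset.sum_congr rfl fun b _ => Finset.sum_congr rfl fun a _ => ?_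
    rw [← integral_conj]
  rw [hL, hR1, hR2, ← hT]
  simp_rw [hibp]
  rw [Finset.mul_sum, Finset.mul_sum, sub_sub, sub_eq_add_neg, add_assoc, ← Finset.sum_add_distrib,
    ← Finset.sum_add_distrib, ← Finset.sum_neg_distrib]
  congr 1
  refine Finset.sum_congr rfl fun x _ => ?_
  ring

end Pool.Agent.LE.QD.H18

end
end -- Pool.Agent.Helper18_LQD.TEQ

section -- Pool.Agent.Helper88_LQD.CLQ

/-!
# CLQ: the kinetic clusters (copy of the proof of CLP by helper81, with the radius at most K / σ ^ 2)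
-/

set_option autoImplicit false

open MeasureTheory ProbabilityTheory Function Filter

open scoped ENNReal BigOperators Topology NNReal

noncomputable section

namespace Pool.Agent.LE.QD.H88

open Pool.Agent.Anderson hiding box mem_box card_box
open Pool.Agent.Loc Pool.Agent.Mob Pool.Agent.Helper54.Bal
  Pool.Agent.Helper96.EXP Pool.Agent.BED
open Pool.Agent.LE.MN Pool.Agent.LE.CL Pool.Agent.LE.CL.H81

/-- the scales -/
theorem clq_scales {d : ℕ} {l η C₁ : ℝ} (hd0 : (3 : ℝ) ≤ d) (hl3 : 3 ≤ l) (hη0 : 0 < η)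
    (hinv1 : 1 ≤ 1 / η) (hinv : 1 / η ≤ Real.exp (2 * l)) (hC₁1 : 1 ≤ C₁)
    (hQ : 24 * d * C₁ * l ^ 2 + 7 ≤ Real.exp l) :
    ∃ R₁ J : ℕ, C₁ * l / η ≤ R₁ ∧ 5 * d * l ≤ J ∧ (J : ℝ) ≤ 6 * d * l ∧ 1 ≤ J ∧ 1 ≤ R₁ ∧
      (2 * ((J * R₁ : ℕ) : ℝ) + 7) ≤ Real.exp (3 * l) ∧
      ((J * R₁ : ℕ) : ℝ) ≤ (6 * d * l) * (2 * (C₁ * l) * (1 / η)) := by
  have hlp : 0 < l := by linarith only [hl3]
  have hR₁l : C₁ * l / η ≤ ⌈C₁ * l / η⌉₊ := Nat.le_ceil _
  have hR₁u : (⌈C₁ * l / η⌉₊ : ℝ) ≤ 2 * (C₁ * l) * (1 / η) := by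
    have h1 : (⌈C₁ * l / η⌉₊ : ℝ) < C₁ * l / η + 1 := Nat.ceil_lt_add_one (by positivity)
    have h2 : 1 ≤ C₁ * l * (1 / η) := by
      have h3 : 1 ≤ C₁ * l := olm hC₁1 (by linarith only [hl3])
      exact olm h3 hinv1
    have h3 : C₁ * l / η = C₁ * l * (1 / η) := by ring
    rw [h3] at h1
    rw [h3]
    linarith only [h1, h2]
  have hJl : 5 * d * l ≤ ⌈5 * d * l⌉₊ := Nat.le_ceil _
  have hJu : (⌈5 * d * l⌉₊ : ℝ) ≤ 6 * d * l := by
    have h1 : (⌈5 * d * l⌉₊ : ℝ) < 5 * d * l + 1 := Nat.ceil_lt_add_one (by positivity)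
    have h2 : 1 ≤ (d : ℝ) * l := olm (by linarith only [hd0]) (by linarith only [hl3])
    linarith only [h1, h2]
  have hJ1 : 1 ≤ ⌈5 * d * l⌉₊ := by
    have h1 : (0 : ℝ) < ⌈5 * d * l⌉₊ := by
      have : 0 < 5 * (d : ℝ) * l := by positivity
      linarith only [hJl, this]
    exact_mod_cast h1
  have hR₁1 : 1 ≤ ⌈C₁ * l / η⌉₊ := by
    have h1 : (0 : ℝ) < ⌈C₁ * l / η⌉₊ := by
      have : 0 < C₁ * l / η := by positivity
      linarith only [hR₁l, this]
    exact_mod_cast h1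
  have h1 : ((⌈5 * d * l⌉₊ * ⌈C₁ * l / η⌉₊ : ℕ) : ℝ) ≤
      (6 * d * l) * (2 * (C₁ * l) * (1 / η)) := by
    push_cast
    gcongr
  refine ⟨⌈C₁ * l / η⌉₊, ⌈5 * d * l⌉₊, hR₁l, hJl, hJu, hJ1, hR₁1, ?_, h1⟩
  calc (2 * ((⌈5 * d * l⌉₊ * ⌈C₁ * l / η⌉₊ : ℕ) : ℝ) + 7) ≤
        2 * ((6 * d * l) * (2 * (C₁ * l) * (1 / η))) + 7 * (1 / η) := by
        linarith only [hinv1, h1]
    _ = (24 * d * C₁ * l ^ 2 + 7) * (1 / η) := by ring
    _ ≤ Real.exp l * Real.exp (2 * l) := by gcongr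
    _ = Real.exp (3 * l) := by
      rw [← Real.exp_add]
      ring_nf

/-- CLQ -/
theorem clq (clb : ClbStmt) (tsa : TsaStmt) (dua : DuaStmt) (prb : PrbStmt) : ClqStmt := by
  intro d δ A hd hδ hA
  obtain ⟨cT, CT, hcT, hCT, htsa⟩ := tsa d δ hd hδ
  obtain ⟨c, c₂, C, hc, hc1, hc₂, hC, hclb⟩ := clb d cT CT hd hcT hCT
  obtain ⟨CP, hCP, hprb⟩ := prb d (A + 3) hd (by linarith only [hA])
  have hd0 : (3 : ℝ) ≤ d := by exact_mod_cast hd
  set K₁ : ℝ := 36 * CP / c with hK₁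
  have hK₁1 : 1 ≤ K₁ := by
    rw [hK₁, le_div_iff₀ hc]
    linarith only [hc1, hCP]
  set c₃ : ℝ := min c₂ 1 with hc₃
  have hc₃0 : 0 < c₃ := lt_min hc₂ one_pos
  have hc₃1 : c₃ ≤ 1 := min_le_right _ _
  have hc₃2 : c₃ ≤ c₂ := min_le_left _ _
  set a₀ : ℝ := A + 6 * d + 5 with ha₀
  set C₁ : ℝ := C * (a₀ + 5) with hC₁
  have hC₁1 : 1 ≤ C₁ := by
    rw [hC₁]
    exact olm hC (by rw [ha₀]; linarith only [hA, hd0])
  obtain ⟨l₀, hl₀, hnum⟩ := clp_nums (min c (c₃ / 2)) K₁ (24 * d * C₁) (A + 3 * d + 3)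
    (lt_min hc (by positivity)) hK₁1 (by positivity) (by positivity)
  have hKa : 0 < 2 / c₃ := by positivity
  have hKb : 1 ≤ 2 / c₃ := by
    rw [le_div_iff₀ hc₃0]
    linarith only [hc₃1]
  set K : ℝ := K₁ * (2 / c₃) + 6 * C + 6 * d + (12 * d * C₁ + 2) with hK
  have hKp : 0 < K₁ * (2 / c₃) := by positivity
  have hKq : 0 < 12 * (d : ℝ) * C₁ := by positivity
  have hK0 : 1 ≤ K := by
    rw [hK]
    linarith only [hC, hd0, hKp, hKq]
  refine ⟨Real.exp (-l₀), K, Real.exp_pos _, ?_, hK0, ?_⟩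
  · have h1 : Real.exp (-l₀) ≤ Real.exp (-3) := Real.exp_le_exp.2 (by linarith only [hl₀])
    have h2 := Real.add_one_le_exp (3 : ℝ)
    have h3 : Real.exp (-3) = (Real.exp 3)⁻¹ := Real.exp_neg 3
    have h4 : (Real.exp 3)⁻¹ ≤ (4 : ℝ)⁻¹ := inv_anti₀ (by norm_num) (by linarith only [h2])
    linarith only [h1, h3, h4]
  intro σ E hσ hσc hE
  have hσ0 : 0 < |σ| := abs_pos.2 hσ
  set l : ℝ := Real.log (1 / |σ|) with hl
  have hσl : |σ| = Real.exp (-l) := by
    rw [hl, one_div, Real.log_inv, neg_neg, Real.exp_log hσ0]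
  have hl0 : l₀ ≤ l := by
    rw [hσl] at hσc
    have := Real.exp_le_exp.1 hσc
    linarith only [this]
  obtain ⟨hηmin, hQ, hS⟩ := hnum l hl0
  have hl3 : 3 ≤ l := hl₀.trans hl0
  have hlp : 0 < l := by linarith only [hl₀, hl0]
  have hσ2 : σ ^ 2 = Real.exp (-l) ^ 2 := by rw [← hσl, sq_abs]
  set η : ℝ := K₁ * σ ^ 2 * l ^ 4 with hη
  have hη' : η = K₁ * Real.exp (-l) ^ 2 * l ^ 4 := by rw [hη, hσ2]
  rw [← hη'] at hηmin
  have hηc : η ≤ c := hηmin.trans (min_le_left _ _)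
  have hηc₃ : η ≤ c₃ / 2 := hηmin.trans (min_le_right _ _)
  have hη1 : η ≤ 1 := hηc.trans hc1
  have he0 : 0 < Real.exp (-l) ^ 2 := by positivity
  have hη0 : 0 < η := by
    rw [hη']
    positivity
  have hηe : Real.exp (-l) ^ 2 ≤ η := by
    have h1 : 1 ≤ K₁ * l ^ 4 := by
      have : (1 : ℝ) ≤ l ^ 4 := one_le_pow₀ (by linarith only [hl₀, hl0])
      exact olm hK₁1 this
    rw [hη']
    calc Real.exp (-l) ^ 2 ≤ (K₁ * l ^ 4) * Real.exp (-l) ^ 2 := olm' h1 he0.le
      _ = K₁ * Real.exp (-l) ^ 2 * l ^ 4 := by ring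
  have hinv : 1 / η ≤ Real.exp (2 * l) := by
    rw [div_le_iff₀ hη0]
    have h5 : Real.exp (2 * l) * Real.exp (-l) ^ 2 = 1 := by
      rw [← Real.exp_nat_mul, ← Real.exp_add]
      rw [show 2 * l + ((2 : ℕ) : ℝ) * -l = 0 by push_cast; ring, Real.exp_zero]
    calc (1 : ℝ) = Real.exp (2 * l) * Real.exp (-l) ^ 2 := h5.symm
      _ ≤ Real.exp (2 * l) * η := by gcongr
  have hinv1 : 1 ≤ 1 / η := by
    rw [le_div_iff₀ hη0]
    linarith only [hc₃1, hηc₃]
  have hlogη : Real.log (1 / η) ≤ 2 * l := by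
    calc Real.log (1 / η) ≤ Real.log (Real.exp (2 * l)) := Real.log_le_log (by positivity) hinv
      _ = 2 * l := Real.log_exp _
  have hlogη0 : 0 ≤ Real.log (1 / η) := Real.log_nonneg hinv1
  have h3l : 1 + Real.log (1 / η) ≤ 3 * l := by linarith only [hl₀, hl0, hlogη]
  have hσ12 : |σ| ≤ 1 / 2 := by
    have h1 : Real.exp (-l) ≤ Real.exp (-3) := Real.exp_le_exp.2 (by linarith only [hl₀, hl0])
    have h2 := Real.add_one_le_exp (3 : ℝ)
    have h3 : Real.exp (-3) = (Real.exp 3)⁻¹ := Real.exp_neg 3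
    have h4 : (Real.exp 3)⁻¹ ≤ (4 : ℝ)⁻¹ := inv_anti₀ (by norm_num) (by linarith only [h2])
    rw [hσl]
    linarith only [h1, h3, h4]
  have hpow : ∀ a : ℝ, |σ| ^ a = Real.exp (-(a * l)) := by
    intro a
    rw [hσl, ← Real.exp_mul]
    ring_nf
  -- the scales
  obtain ⟨R₁, J, hR₁l, hJl, hJu, hJ1, hR₁1, hRu, hRw⟩ :=
    clq_scales hd0 hl3 hη0 hinv1 hinv hC₁1 hQ
  have hdl : 0 < (d : ℝ) * l := by positivity
  set R : ℕ := J * R₁ with hR
  have hR1 : 1 ≤ R := Nat.mul_pos hJ1 hR₁1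
  have hR1' : (1 : ℝ) ≤ R := by exact_mod_cast hR1
  have hR0 : (0 : ℝ) ≤ R := Nat.cast_nonneg _
  have hlogR : Real.log R ≤ 3 * l := by
    calc Real.log R ≤ Real.log (Real.exp (3 * l)) :=
          Real.log_le_log (by linarith only [hR1']) (by linarith only [hRu, hR1'])
      _ = 3 * l := Real.log_exp _
  -- powers of `η`
  have hηd : η ^ (-(d : ℝ)) = (1 / η) ^ d := by
    rw [Real.rpow_neg hη0.le, Real.rpow_natCast, one_div, inv_pow]
  have hηd1 : 1 / η ≤ (1 / η) ^ d := le_self_pow₀ hinv1 (by omega)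
  have hηd2 : 2 ≤ c₃ * (1 / η) ^ d := by
    have h1 : 2 ≤ c₃ * (1 / η) := by
      rw [mul_one_div, le_div_iff₀ hη0]
      linarith only [hηc₃]
    calc 2 ≤ c₃ * (1 / η) := h1
      _ ≤ c₃ * (1 / η) ^ d := by gcongr
  set n : ℕ := ⌊c₃ * (1 / η) ^ d⌋₊ with hn
  have hnu : (n : ℝ) ≤ c₃ * (1 / η) ^ d := Nat.floor_le (by positivity)
  have hnl : c₃ / 2 * (1 / η) ^ d ≤ n := by
    have h1 : c₃ * (1 / η) ^ d < n + 1 := Nat.lt_floor_add_one _
    linarith only [hηd2, h1]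
  have hn1 : 1 ≤ n := by
    have h1 : (1 : ℝ) ≤ n := by
      refine le_trans ?_ hnl
      linarith only [hηd2]
    exact_mod_cast h1
  -- the test multiplier
  have hT₀ : 1 ≤ c / η := by
    rw [le_div_iff₀ hη0]
    linarith only [hηc]
  obtain ⟨T, q, hT1, hT2, htst⟩ := htsa E (c / η) hE hT₀
  -- the operator bound
  set τ : ℝ := Real.sqrt (c / (3 * l)) with hτ
  have hτ2 : τ ^ 2 = c / (3 * l) := Real.sq_sqrt (by positivity)
  have hτ0 : 0 < τ := Real.sqrt_pos.2 (by positivity)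
  have hτ1 : τ ≤ 1 := by
    rw [hτ, Real.sqrt_le_iff]
    refine ⟨zero_le_one, ?_⟩
    rw [one_pow, div_le_iff₀ (by positivity)]
    linarith only [hc1, hl₀, hl0]
  have hτc : τ ^ 2 * (1 + Real.log (1 / η)) ≤ c := by
    rw [hτ2]
    calc c / (3 * l) * (1 + Real.log (1 / η)) ≤ c / (3 * l) * (3 * l) := by gcongr
      _ = c := by field_simp
  have hprb1 : ∀ b : Site d, PP d (gl σ) {V | ¬ ∀ v : (box b R) → ℂ,
      nsq (Matrix.mulVec (XM (Csq (box b R) E η hη0) (fun y => V y)) v) ≤ τ ^ 2 * nsq v} ≤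
        ENNReal.ofReal (|σ| ^ (A + 3)) := by
    intro b
    refine hprb σ E η τ R b hη0 hσ hσ12 hη1 hτ0 hτ1 ?_ ?_
    · rw [← hl, hτ2]
      have h1 : CP * σ ^ 2 * (1 + l) ^ 2 * (1 + Real.log (1 / η)) ≤
          CP * σ ^ 2 * (2 * l) ^ 2 * (3 * l) := by
        gcongr
        linarith only [hl₀, hl0]
      refine h1.trans (le_of_eq ?_)
      rw [hη, hK₁]
      field_simp
      ring
    · rw [hpow]
      refine le_trans (by linarith only : (2 * (R : ℝ) + 1) ≤ 2 * R + 7) (hRu.trans ?_)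
      refine Real.exp_le_exp.2 ?_
      have := num_a hA hlp
      linarith only [this]
  refine ⟨n, R + 2, J, 6 * C * l, olm (by linarith only [hC]) (by linarith only [hl₀, hl0]), ?_, by omega, ?_, hJ1, ?_, hn1, ?_, ?_, ?_⟩
  · have h1 : 6 * C ≤ K := by
      rw [hK]
      linarith only [hd0, hKp, hKq]
    gcongr
  · have hs2 : 0 < σ ^ 2 := by positivity
    have hs1 : σ ^ 2 ≤ 1 := by
      rw [← sq_abs]
      have : |σ| ^ 2 ≤ (1 / 2) ^ 2 := by gcongr
      linarith only [this]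
    have hRv : (R : ℝ) ≤ 12 * d * C₁ / σ ^ 2 := by
      refine hRw.trans ?_
      have hl2 : 1 ≤ K₁ * l ^ 2 := olm hK₁1 (one_le_pow₀ (by linarith only [hl₀, hl0]))
      have e1 : (6 * d * l) * (2 * (C₁ * l) * (1 / η)) =
          12 * d * C₁ / σ ^ 2 * (1 / (K₁ * l ^ 2)) := by
        rw [hη]
        field_simp
        ring
      rw [e1]
      have h2 : 0 ≤ 12 * d * C₁ / σ ^ 2 := by positivity
      have h3 : 1 / (K₁ * l ^ 2) ≤ 1 := by
        rw [div_le_one (by linarith only [hl2])]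
        exact hl2
      calc 12 * d * C₁ / σ ^ 2 * (1 / (K₁ * l ^ 2)) ≤ 12 * d * C₁ / σ ^ 2 * 1 := by gcongr
        _ = 12 * d * C₁ / σ ^ 2 := mul_one _
    have h4 : (2 : ℝ) ≤ 2 / σ ^ 2 := by
      rw [le_div_iff₀ hs2]
      linarith only [hc₃1, hσ2, hηc₃, hη0, hηe]
    calc ((R + 2 : ℕ) : ℝ) = R + 2 := by push_cast; ring
      _ ≤ 12 * d * C₁ / σ ^ 2 + 2 / σ ^ 2 := add_le_add hRv h4
      _ = (12 * d * C₁ + 2) / σ ^ 2 := by ring
      _ ≤ K / σ ^ 2 := by
        gcongr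
        rw [hK]
        have : 0 < C := by linarith only [hC]
        linarith only [hC, hd0, hKp]
  · refine hJu.trans ?_
    have h1 : 6 * (d : ℝ) ≤ K := by
      rw [hK]
      linarith only [hC, hKp, hKq]
    gcongr
  · rw [hpow]
    refine hnu.trans ?_
    calc c₃ * (1 / η) ^ d ≤ 1 * (Real.exp (2 * l)) ^ d := by gcongr
      _ = Real.exp (-(-(2 * (d : ℝ)) * l)) := by
        rw [one_mul, ← Real.exp_nat_mul]
        congr 1
        ring
  · refine le_trans (clp_pow hd hc₃0 hc₃1 hη hη0 ?_ (by positivity)) hnl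
    rw [hK]
    linarith only [hC, hd0, hKq]
  · intro N b hbox
    have hb := bad_prob hσ E (a₀ * l) (|σ| ^ (A + 3)) N R b (fun V => ∀ v : (box b R) → ℂ,
      nsq (Matrix.mulVec (XM (Csq (box b R) E η hη0) (fun y => V y)) v) ≤ τ ^ 2 * nsq v)
      (by positivity) (hprb1 b)
    refine (measure_mono ?_).trans (hb.trans (ENNReal.ofReal_le_ofReal ?_))
    · intro V hV
      rw [Set.mem_ofPred_eq] at hV ⊢
      rintro ⟨h1, h2, h3, h4⟩
      apply hV
      have h5 := hclb V N R R₁ J E η τ (6 * C * l) (a₀ * l) T b q hη0 hηc (by linarith only [hδ, hE])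
        (by positivity) hτ0.le hτc hT1 hT2 htst hbox le_rfl ?_ ?_ ?_ h1 h2 h3
        (kf_of dua hη0 hτ0.le h4)
      · have h6 : (n : ℝ) ≤ (rch V (box 0 N) E (6 * C * l) b R J).card := by
          refine le_trans hnu (le_trans ?_ h5)
          rw [hηd]
          gcongr
        have h7 : n ≤ (rch V (box 0 N) E (6 * C * l) b R J).card := by exact_mod_cast h6
        exact h7.trans (Finset.card_le_card (rch_mono_rad (by omega) J))
      · have h6 : ((2 * (R : ℝ) + 1) ^ d) < 2 ^ J := by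
          calc (2 * (R : ℝ) + 1) ^ d ≤ (Real.exp (3 * l)) ^ d := by
                gcongr
                linarith only [hRu]
            _ = Real.exp (d * (3 * l)) := by rw [← Real.exp_nat_mul]
            _ < Real.exp (J * Real.log 2) := by
                refine Real.exp_lt_exp.2 ?_
                have h7 := Real.log_two_gt_d9
                have h8 : 5 * d * l * Real.log 2 ≤ J * Real.log 2 := by
                  gcongr
                have h9 : d * (3 * l) < 5 * d * l * Real.log 2 := num_d hdl h7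
                linarith only [h8, h9]
            _ = 2 ^ J := by rw [Real.exp_nat_mul, Real.exp_log (by norm_num)]
        exact_mod_cast h6
      · calc C * (a₀ * l + Real.log (1 / η) + Real.log R)
            ≤ C * (a₀ * l + 2 * l + 3 * l) := by gcongr
          _ = η * (C₁ * l / η) := by
            rw [hC₁]
            field_simp
            ring
          _ ≤ η * R₁ := by gcongr
      · calc C * (1 + Real.log (1 / η) + Real.log R) ≤ C * (3 * l + 3 * l) := by gcongr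
          _ = 6 * C * l := by ring
    · rw [hpow, hpow]
      exact clp_tail hl3 hR0 hRu hS (by rw [hσl, Real.exp_neg, one_div, inv_inv])

end Pool.Agent.LE.QD.H88
end
end -- Pool.Agent.Helper88_LQD.CLQ
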