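import Pool.Agent.Helper12_MEB.B108

/-!
# Merged copies (generated) of the modules

* `Pool.Agent.Helper54_LQD.CPX`
-/

set_option autoImplicit false

section -- Pool.Agent.Helper54_LQD.CPX

/-!
# CPX: the probability of the large clusters
-/

set_option autoImplicit false

open MeasureTheory ProbabilityTheory Function Filter

open scoped ENNReal BigOperators Topology NNReal

noncomputable section

namespace Pool.Agent.LE.QD.H54

open Pool.Agent.Anderson hiding box mem_box card_box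
open Pool.Agent.Loc Pool.Agent.Mob Pool.Agent.Helper54.Bal
  Pool.Agent.Helper96.EXP Pool.Agent.BED
open Pool.Agent.LE.MN Pool.Agent.LE.CL Pool.Agent.LE.IR

/-- the torus event and the kinetic clusters -/
theorem ev_two {d M : ℕ} [NeZero M] {σ : ℝ} (hσ : σ ≠ 0) {v : ℝ≥0} (hv : (v : ℝ) = σ ^ 2)
    (b : Site d) (N R n₁ ρ₁ J₁ : ℕ) (E s₁ q₁ q₂ : ℝ) (P : (Tor d M → ℝ) → Prop) (hq₁ : 0 ≤ q₁)
    (hq₂ : 0 ≤ q₂) (h₁ : gau d M v {V | ¬ P V} ≤ ENNReal.ofReal q₁)
    (hbox : box b (R + ρ₁) ⊆ box 0 N)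
    (h₂ : ∀ x : Site d, box x ρ₁ ⊆ box 0 N →
      PP d (gl σ) {V | ¬ n₁ ≤ (rch V (box 0 N) E s₁ x ρ₁ J₁).card} ≤ ENNReal.ofReal q₂) :
    PP d (gl σ) {V | ¬ (P (fun x : Tor d M => V (b + rep x)) ∧
      ∀ x ∈ box b R, n₁ ≤ (rch V (box 0 N) E s₁ x ρ₁ J₁).card)} ≤
      ENNReal.ofReal (q₁ + (2 * (R : ℝ) + 1) ^ d * q₂) := by
  have hsub : {V : Site d → ℝ | ¬ (P (fun x : Tor d M => V (b + rep x)) ∧
      ∀ x ∈ box b R, n₁ ≤ (rch V (box 0 N) E s₁ x ρ₁ J₁).card)} ⊆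
      {V | ¬ P (fun x : Tor d M => V (b + rep x))} ∪
        ⋃ x ∈ box b R, {V | ¬ n₁ ≤ (rch V (box 0 N) E s₁ x ρ₁ J₁).card} := by
    intro V hV
    by_contra hcon
    simp only [Set.mem_union, not_or, Set.mem_iUnion, Set.mem_ofPred_eq, not_exists, not_not,
      exists_prop] at hcon
    refine hV ⟨hcon.1, fun x hx => ?_⟩
    by_contra h
    exact hcon.2 x ⟨hx, h⟩
  refine (measure_mono hsub).trans ((measure_union_le _ _).trans ?_)
  rw [ENNReal.ofReal_add hq₁ (by positivity)]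
  refine add_le_add (IR.H54.law_le hσ hv b P h₁) ?_
  refine (measure_biUnion_finset_le _ _).trans ?_
  refine (Finset.sum_le_sum fun x hx => h₂ x ?_).trans (le_of_eq ?_)
  · intro y hy
    apply hbox
    rw [mem_box, sd_le_iff] at *
    intro i
    have h3 := hx i
    have h4 := hy i
    rw [abs_le] at *
    push_cast
    omega
  · rw [Finset.sum_const, nsmul_eq_mul, card_box, ← ENNReal.ofReal_natCast,
      ← ENNReal.ofReal_mul (Nat.cast_nonneg _)]
    push_cast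
    rfl

/-- CPX -/
theorem cpx (tom : TomStmt) (clq : ClqStmt) (gro : GroStmt) (cls : ClsStmt) : CpxStmt := by
  intro d δ A hd hδ hA
  have hd0 : (3 : ℝ) ≤ d := by exact_mod_cast hd
  obtain ⟨c₁, K₁, hc₁, hc₁4, hK₁, hclq⟩ := clq d δ (A + 4 + 3 * d) hd hδ (by linarith only [hA, hd0])
  obtain ⟨c₂, K₂, hc₂, hc₂4, hK₂, htom⟩ := tom d δ (A + 4) hd hδ (by linarith only [hA, hc₁, hc₁4])
  obtain ⟨K₃, hK₃, hcls⟩ := cls d (by omega)
  obtain ⟨K', hK'⟩ : ∃ K' : ℝ, K' = K₂ + 2 * K₁ := ⟨_, rfl⟩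
  have hK'1 : 1 ≤ K' := by linarith only [hK', hK₂, hK₁]
  obtain ⟨Ce, hCe⟩ : ∃ Ce : ℝ, Ce = K₂ * (2 + 2 * (2 * K') ^ d) + 2 := ⟨_, rfl⟩
  have hCe1 : 1 ≤ Ce := by
    have : 0 ≤ K₂ * (2 + 2 * (2 * K') ^ d) := by positivity
    linarith only [hc₁, hc₁4, hCe, this]
  obtain ⟨D, hD⟩ : ∃ D : ℝ, D = K₃ * Ce * (2 * K' * K₁) ^ d := ⟨_, rfl⟩
  obtain ⟨C₁, hC₁⟩ : ∃ C₁ : ℝ, C₁ = K₃ * (A + 6 * d + 12) := ⟨_, rfl⟩
  have hC₁1 : 1 ≤ C₁ := by
    rw [hC₁]
    nlinarith only [hK₃, hA, hd0]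
  obtain ⟨Q, hQ⟩ : ∃ Q : ℝ, Q = 6 * d * (2 * C₁ + K₁) + 2 * K₁ + 7 := ⟨_, rfl⟩
  obtain ⟨l₀, hl₀, hnum⟩ := nums d hd Q K' D c₂ A (max (-Real.log c₁) (-Real.log c₂)) hc₂
  obtain ⟨K, hK⟩ : ∃ K : ℝ, K = K₁ + 7 * K₃ + 2 * (K₁ + 1) * (3 * d + 1) +
      2 ^ (d + 2) * K₁ ^ d := ⟨_, rfl⟩
  have hKa : K₁ + 7 * K₃ ≤ K := by
    have h1 : 0 ≤ 2 * (K₁ + 1) * (3 * d + 1) := by positivity
    have h2 : 0 ≤ 2 ^ (d + 2) * K₁ ^ d := by positivity
    linarith only [hK, h1, h2]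
  have hKb : (K₁ + 1) * (3 * d + 1) ≤ K := by
    have h1 : 0 ≤ (K₁ + 1) * (3 * d + 1) := by positivity
    have h2 : 0 ≤ 2 ^ (d + 2) * K₁ ^ d := by positivity
    linarith only [hc₁, hc₁4, hK₁, hK₃, hK, hKa, h2]
  have hKc : 2 ^ (d + 2) * K₁ ^ d ≤ K := by
    have h1 : 0 ≤ 2 * (K₁ + 1) * (3 * d + 1) := by positivity
    linarith only [hc₁, hc₁4, hK₁, hK₃, hK, h1]
  refine ⟨Real.exp (-l₀), K, Real.exp_pos _, ?_, by linarith only [hc₁, hc₁4, hK₁, hK₃, hKa], ?_⟩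
  · have h1 : Real.exp (-l₀) ≤ Real.exp (-3) := Real.exp_le_exp.2 (by linarith only [hl₀])
    have h2 := Real.add_one_le_exp (3 : ℝ)
    have h3 : Real.exp (-3) = (Real.exp 3)⁻¹ := Real.exp_neg 3
    have h4 : (Real.exp 3)⁻¹ ≤ (4 : ℝ)⁻¹ := inv_anti₀ (by norm_num) (by linarith only [h2])
    linarith only [h1, h2, h3, h4]
  intro σ E hσ hσc hE
  have hσ0 : 0 < |σ| := abs_pos.2 hσ
  obtain ⟨l, hl⟩ : ∃ l, l = Real.log (1 / |σ|) := ⟨_, rfl⟩
  have hσl : |σ| = Real.exp (-l) := by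
    rw [hl, one_div, Real.log_inv, neg_neg, Real.exp_log hσ0]
  have hl0 : l₀ ≤ l := by
    rw [hσl] at hσc
    have := Real.exp_le_exp.1 hσc
    linarith only [this]
  obtain ⟨hlm, hQl, hK'l, h2l, hDl, hAl⟩ := hnum l hl0
  have hl3 : 3 ≤ l := hl₀.trans hl0
  have hlp : 0 < l := by linarith only [hl3]
  have hσ2 : σ ^ 2 = Real.exp (-(2 * l)) := by
    rw [← sq_abs, hσl, ← Real.exp_nat_mul]
    congr 1
    push_cast
    ring
  have hpow : ∀ a : ℝ, |σ| ^ a = Real.exp (-(a * l)) := by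
    intro a
    rw [hσl, ← Real.exp_mul]
    ring_nf
  have hσc₁ : |σ| ≤ c₁ := by
    rw [hσl, ← Real.exp_log hc₁]
    exact Real.exp_le_exp.2 (by linarith only [hlm, le_max_left (-Real.log c₁) (-Real.log c₂)])
  have hσc₂ : |σ| ≤ c₂ := by
    rw [hσl, ← Real.exp_log hc₂]
    exact Real.exp_le_exp.2 (by linarith only [hlm, le_max_right (-Real.log c₁) (-Real.log c₂)])
  obtain ⟨n₁, ρ₁, J₁, s₁, hs₁1, hs₁K, hρ₁1, hρ₁, hJ₁1, hJ₁, hn₁1, hn₁, hn₁l, hP₁⟩ :=
    hclq σ E hσ hσc₁ hE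
  rw [← hl] at hs₁K hJ₁ hn₁l
  have hρ₁' : (ρ₁ : ℝ) ≤ K₁ * Real.exp (2 * l) := by
    rw [hσ2] at hρ₁
    refine hρ₁.trans (le_of_eq ?_)
    rw [Real.exp_neg, div_inv_eq_mul]
  obtain ⟨R₁, J₂, R, hR₁, hR, hJ₂, hN2, hR1, hρR, hRu⟩ :=
    scales hd hl3 hC₁1 hK₁ hρ₁' hρ₁1 hQ hQl
  have hR1' : (1 : ℝ) ≤ R := by exact_mod_cast hR1
  have hR0 : (0 : ℝ) ≤ R := by linarith only [hR1']
  obtain ⟨N₀, hN₀1, hN₀u, hN₀l⟩ := floor_x (x := Real.exp (d / 31 * l))
    (Real.one_le_exp (by positivity))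
  obtain ⟨m, hm1, hml, hmu⟩ := ceil_x (x := Real.exp (4 / 61 * l))
    (Real.one_le_exp (by positivity))
  have he2 : 1 ≤ Real.exp (2 * l) := Real.one_le_exp (by positivity)
  obtain ⟨L, hL1, hLl, hLu⟩ := ceil_x (x := K' * Real.exp (2 * l))
    (by nlinarith only [hK'1, he2])
  obtain ⟨M, hM1, hMl, hMu⟩ := ceil_x (x := Real.exp (10 * l)) (Real.one_le_exp (by positivity))
  have hne : NeZero M := ⟨by omega⟩
  obtain ⟨v, hv⟩ : ∃ v : ℝ≥0, (v : ℝ) = σ ^ 2 := ⟨⟨σ ^ 2, sq_nonneg σ⟩, rfl⟩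
  have hLu' : (L : ℝ) ≤ 2 * K' * Real.exp (2 * l) := by linarith only [hLu]
  have hL3 : (L : ℝ) ≤ Real.exp (3 * l) := by
    calc (L : ℝ) ≤ 2 * K' * Real.exp (2 * l) := hLu'
      _ ≤ Real.exp l * Real.exp (2 * l) := by gcongr
      _ = Real.exp (3 * l) := by
          rw [← Real.exp_add]
          ring_nf
  have he9 : (10 : ℝ) ≤ Real.exp (3 * l) := by
    have := Real.quadratic_le_exp_of_nonneg (show (0 : ℝ) ≤ 3 * l by positivity)
    nlinarith only [this, hl3]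
  have he10 : 100 * Real.exp (3 * l) ≤ Real.exp (10 * l) := by
    calc 100 * Real.exp (3 * l) = 10 * 10 * Real.exp (3 * l) := by ring
      _ ≤ Real.exp (3 * l) * Real.exp (3 * l) * Real.exp (3 * l) := by gcongr
      _ = Real.exp (9 * l) := by
          rw [← Real.exp_add, ← Real.exp_add]
          ring_nf
      _ ≤ Real.exp (10 * l) := Real.exp_le_exp.2 (by linarith only [hlp])
  have hMR : 2 * (R + L) + 5 ≤ M := by
    have h1 : (2 * ((R : ℝ) + L) + 5) ≤ M := by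
      linarith only [hRu, hL3, he10, hMl, he9]
    exact_mod_cast h1
  have hρL : 2 * ρ₁ ≤ L := by
    have h1 : 2 * (ρ₁ : ℝ) ≤ L := by
      calc 2 * (ρ₁ : ℝ) ≤ 2 * (K₁ * Real.exp (2 * l)) := by linarith only [hρ₁']
        _ ≤ K' * Real.exp (2 * l) := by
            rw [hK']
            nlinarith only [hK₂, he2]
        _ ≤ L := hLl
    exact_mod_cast h1
  -- the torus
  obtain ⟨η, hη⟩ : ∃ η : ℝ, η = |σ| ^ (31 / 15 : ℝ) := ⟨_, rfl⟩
  have hη' : η = Real.exp (-(31 / 15 * l)) := by rw [hη, hpow]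
  have hη0 : 0 < η := by rw [hη']; exact Real.exp_pos _
  have hη1 : η ≤ 1 := by
    rw [hη']
    exact Real.exp_le_one_iff.2 (by linarith only [hlp])
  have hlogη : Real.log (1 / η) = 31 / 15 * l := by
    rw [hη', one_div, ← Real.exp_neg, neg_neg, Real.log_exp]
  obtain ⟨ε, hε⟩ : ∃ ε : ℝ, ε = K₂ * |σ| ^ (1 / 15 : ℝ) * (m + ((2 * N₀ : ℕ) : ℝ) *
      (σ ^ 2 * L) ^ d * (m : ℝ) ^ (1 - (d : ℝ) / 2)) + 2 * |σ| ^ (1 / 31 : ℝ) := ⟨_, rfl⟩
  have hε0 : 0 ≤ ε := by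
    rw [hε]
    have : 0 ≤ σ ^ 2 := sq_nonneg σ
    positivity
  have htor := htom M v σ E η L (2 * N₀) m hv hσ hσc₂ hE hη (by rw [hpow]; simpa using hMl) (by
      rw [hpow]
      refine hMu.trans ?_
      calc 2 * Real.exp (10 * l) ≤ Real.exp (10 * l) * Real.exp (10 * l) := by
            gcongr
            linarith only [he9, he10]
        _ = Real.exp (-(-20 * l)) := by
            rw [← Real.exp_add]
            ring_nf) (by
      rw [hσ2]
      calc K₂ ≤ K' := by linarith only [hK', hK₁]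
        _ = Real.exp (-(2 * l)) * (K' * Real.exp (2 * l)) := by
            rw [mul_left_comm, ← Real.exp_add]
            simp
        _ ≤ Real.exp (-(2 * l)) * L := by gcongr) (by
      rw [hpow]
      refine hL3.trans (le_of_eq ?_)
      ring_nf) hm1 (by
      rw [hpow]
      push_cast
      have h1 : (2 : ℝ) ≤ Real.exp (30 / 31 * d * l) := by
        have h2 := Real.add_one_le_exp (30 / 31 * d * l)
        have h3 : 9 ≤ (d : ℝ) * l := by nlinarith only [hd0, hl3]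
        linarith only [h2, h3]
      calc 2 * (N₀ : ℝ) ≤ Real.exp (30 / 31 * d * l) * Real.exp (d / 31 * l) := by gcongr
        _ = Real.exp (-(-(d : ℝ) * l)) := by
            rw [← Real.exp_add]
            ring_nf)
  rw [← hε] at htor
  -- the numbers
  obtain ⟨s, hs⟩ : ∃ s : ℝ, s = s₁ + 7 * K₃ * l := ⟨_, rfl⟩
  have hKl : 0 < 7 * K₃ * l := by positivity
  have hnN : 2 ^ (d + 1) ≤ n₁ * N₀ := by
    have h1 : (2 : ℝ) ^ (d + 1) ≤ (N₀ : ℝ) := by
      have h2 : (2 : ℝ) ^ (d + 2) = 2 * 2 ^ (d + 1) := by ring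
      linarith only [h2, h2l, hN₀l]
    have h2 : 2 ^ (d + 1) ≤ N₀ := by exact_mod_cast h1
    calc 2 ^ (d + 1) ≤ N₀ := h2
      _ = 1 * N₀ := (one_mul _).symm
      _ ≤ n₁ * N₀ := Nat.mul_le_mul_right _ hn₁1
  obtain ⟨n, hn⟩ : ∃ n : ℕ, n = n₁ * N₀ / 2 ^ d := ⟨_, rfl⟩
  have hnu : n * 2 ^ d ≤ n₁ * N₀ := by
    rw [hn]
    exact Nat.div_mul_le_self _ _
  have hnl : n₁ * N₀ ≤ n * 2 ^ (d + 1) := by
    have h1 : n₁ * N₀ < (n + 1) * 2 ^ d := by
      rw [hn, mul_comm (_ + 1)]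
      exact Nat.lt_mul_div_succ _ (by positivity)
    have h2 : 2 ^ (d + 1) = 2 * 2 ^ d := by ring
    have h3 : 2 * 2 ^ d ≤ n₁ * N₀ := by rw [← h2]; exact hnN
    have h4 : 2 ^ d ≤ n * 2 ^ d := by
      nlinarith only [h1, h3]
    nlinarith only [h1, h2, h4]
  have hn1 : 1 ≤ n := by
    rw [hn, Nat.le_div_iff_mul_le (by positivity), one_mul]
    exact le_trans (Nat.pow_le_pow_right (by norm_num) (by omega)) hnN
  have hx4 : 0 < K₁ * Real.exp (-(2 * l)) * l ^ 4 := by positivity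
  have hn₁l' : ((K₁ * Real.exp (-(2 * l)) * l ^ 4) ^ d)⁻¹ ≤ n₁ := by
    rw [hσ2, Real.rpow_neg hx4.le, Real.rpow_natCast] at hn₁l
    exact hn₁l
  refine ⟨n, R + ρ₁ + 2, (J₁ + 1) * (J₂ + 1), s, by linarith only [hs, hs₁1, hKl], ?_,
    by omega, ?_,
    Nat.mul_pos (by omega) (by omega), ?_, hn1, ?_, ?_, ?_⟩
  · rw [← hl, hs]
    calc s₁ + 7 * K₃ * l ≤ K₁ * l + 7 * K₃ * l := by linarith only [hs₁K]
      _ = (K₁ + 7 * K₃) * l := by ring
      _ ≤ K * l := by gcongr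
  · rw [hpow]
    push_cast
    have h1 : (ρ₁ : ℝ) ≤ R := by exact_mod_cast hρR
    calc (R : ℝ) + ρ₁ + 2 ≤ 2 * R + 7 := by linarith only [h1]
      _ ≤ Real.exp (3 * l) := hRu
      _ = Real.exp (-(-3 * l)) := by ring_nf
  · rw [← hl]
    push_cast
    have h1 : (J₁ : ℝ) + 1 ≤ (K₁ + 1) * l := by linarith only [hJ₁, hl3]
    have h2 : (J₂ : ℝ) + 1 ≤ (3 * d + 1) * l := by linarith only [hJ₂, hl3]
    calc ((J₁ : ℝ) + 1) * (J₂ + 1) ≤ ((K₁ + 1) * l) * ((3 * d + 1) * l) := by gcongr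
      _ = (K₁ + 1) * (3 * d + 1) * l ^ 2 := by ring
      _ ≤ K * l ^ 2 := by gcongr
  · have h1 : (n : ℝ) ≤ n₁ * N₀ := by
      have h2 : n ≤ n₁ * N₀ := le_trans (Nat.le_mul_of_pos_right _ (by positivity)) hnu
      exact_mod_cast h2
    rw [hpow] at hn₁ ⊢
    calc (n : ℝ) ≤ n₁ * N₀ := h1
      _ ≤ Real.exp (-(-(2 * (d : ℝ)) * l)) * Real.exp (d / 31 * l) := by gcongr
      _ ≤ Real.exp (-(-(3 * (d : ℝ)) * l)) := by
          rw [← Real.exp_add]
          refine Real.exp_le_exp.2 ?_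
          have : 0 ≤ (d : ℝ) * l := by positivity
          linarith only [this]
  · rw [← hl, hpow]
    have h1 : (n₁ : ℝ) * N₀ ≤ n * 2 ^ (d + 1) := by exact_mod_cast hnl
    have h2 : Real.exp (2 * d * l) ≤ K₁ ^ d * l ^ (4 * d) * n₁ := by
      rw [inv_le_iff_one_le_mul₀ (by positivity)] at hn₁l'
      have h3 : (K₁ * Real.exp (-(2 * l)) * l ^ 4) ^ d =
          K₁ ^ d * l ^ (4 * d) * Real.exp (-(2 * d * l)) := by
        rw [mul_pow, mul_pow, ← Real.exp_nat_mul, ← pow_mul]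
        have h4 : (d : ℝ) * -(2 * l) = -(2 * d * l) := by ring
        rw [h4]
        ring
      rw [h3] at hn₁l'
      have h5 : Real.exp (2 * d * l) * Real.exp (-(2 * d * l)) = 1 := by
        rw [← Real.exp_add]
        simp
      calc Real.exp (2 * d * l) = Real.exp (2 * d * l) * 1 := (mul_one _).symm
        _ ≤ Real.exp (2 * d * l) * (n₁ * (K₁ ^ d * l ^ (4 * d) * Real.exp (-(2 * d * l)))) := by
            gcongr
        _ = K₁ ^ d * l ^ (4 * d) * n₁ * (Real.exp (2 * d * l) * Real.exp (-(2 * d * l))) := by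
            ring
        _ = K₁ ^ d * l ^ (4 * d) * n₁ := by rw [h5, mul_one]
    calc Real.exp (-(-((2 + 1 / 31) * (d : ℝ)) * l)) =
          Real.exp (2 * d * l) * Real.exp (d / 31 * l) := by
          rw [← Real.exp_add]
          ring_nf
      _ ≤ (K₁ ^ d * l ^ (4 * d) * n₁) * (2 * N₀) := by gcongr
      _ = 2 * K₁ ^ d * l ^ (4 * d) * (n₁ * N₀) := by ring
      _ ≤ 2 * K₁ ^ d * l ^ (4 * d) * (n * 2 ^ (d + 1)) := by gcongr
      _ = (2 ^ (d + 2) * K₁ ^ d) * l ^ (4 * d) * n := by ring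
      _ ≤ K * l ^ (4 * d) * n := by gcongr
  · intro N b hbox
    have hbox1 : box b (R + ρ₁) ⊆ box 0 N := (box_mono b (by omega)).trans hbox
    have hbox2 : box b (R + 2) ⊆ box 0 N := (box_mono b (by omega)).trans hbox
    have hA4 : 0 ≤ |σ| ^ (A + 4) := by positivity
    have hA5 : 0 ≤ |σ| ^ (A + 4 + 3 * d) := by positivity
    have h2 := ev_two hσ hv b N R n₁ ρ₁ J₁ E s₁ _ _ _ hA4 hA5 htor hbox1
      (fun x hx => hP₁ N x hx)
    have hq3 : |σ| ^ (A + 4) + (2 * (R : ℝ) + 1) ^ d * |σ| ^ (A + 4 + 3 * d) ≤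
        |σ| ^ (A + 3) := by
      rw [hpow, hpow, hpow]
      have h3 : (2 * (R : ℝ) + 1) ^ d ≤ Real.exp (3 * d * l) := by
        calc (2 * (R : ℝ) + 1) ^ d ≤ (Real.exp (3 * l)) ^ d := by
              gcongr
              linarith only [hRu]
          _ = Real.exp (3 * d * l) := by
              rw [← Real.exp_nat_mul]
              ring_nf
      have h4 : 2 ≤ Real.exp l := by
        have := Real.add_one_le_exp l
        linarith only [this, hl3]
      calc Real.exp (-((A + 4) * l)) + (2 * (R : ℝ) + 1) ^ d *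
            Real.exp (-((A + 4 + 3 * d) * l)) ≤ Real.exp (-((A + 4) * l)) +
            Real.exp (3 * d * l) * Real.exp (-((A + 4 + 3 * d) * l)) := by gcongr
        _ = 2 * Real.exp (-((A + 4) * l)) := by
            rw [← Real.exp_add]
            ring_nf
        _ ≤ Real.exp l * Real.exp (-((A + 4) * l)) := by gcongr
        _ = Real.exp (-((A + 3) * l)) := by
            rw [← Real.exp_add]
            ring_nf
    have hb := CL.H81.bad_prob hσ E ((A + 6 * d + 5) * l) (|σ| ^ (A + 3)) N R b _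
      (by positivity) (h2.trans (ENNReal.ofReal_le_ofReal hq3))
    refine (measure_mono ?_).trans (hb.trans (ENNReal.ofReal_le_ofReal ?_))
    · intro V hV
      rw [Set.mem_ofPred_eq] at hV ⊢
      rintro ⟨h1, h2, h3, ⟨⟨h4, h5⟩, h6⟩⟩
      apply hV
      have hss : s₁ ≤ s := by linarith only [hs, hKl]
      rcases gro d V (box 0 N) E s b ρ₁ R R₁ J₁ J₂ L n₁ N₀ (by omega) hN₀1 hL1 hρL
        (hN2 N₀ hN₀u) (by rw [hR]) (fun x hx => (h6 x hx).trans
          (Finset.card_le_card (CL.H81.rch_mono_s hss J₁))) with h7 | h7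
      · have h8 : 2 ^ d * n ≤ 2 ^ d * (rch V (box 0 N) E s b R ((J₁ + 1) * (J₂ + 1))).card := by
          rw [mul_comm]
          exact hnu.trans h7
        have h9 := Nat.le_of_mul_le_mul_left h8 (by positivity)
        exact h9.trans (Finset.card_le_card (rch_mono_rad (by omega) _))
      · exfalso
        obtain ⟨r, C, 𝒦, g1, g2, g3, g4, g5, g6, g7, g8⟩ := h7
        have key := hcls M V (fun x : Tor d M => V (b + rep x)) N R r R₁ L n₁ E η s
          ((A + 6 * d + 5) * l) c₂ ε b C 𝒦 hη0 hη1 (by linarith only [hE, hδ]) (by positivity)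
          hε0 hL1 hn₁1
          hR1 hMR (fun y hy => by
            have := ti_rep (M := M) (b := b) (y := y) (R := R + 2) (by omega) hy
            simp only [this]) hbox2 g1 g2 g3 g7 g8 g6 h1 h2 h3 ?_ ?_ h4 ?_
        · rw [hη'] at key
          have hfin := fin_c (d := d) (n₁ := n₁) (L := L) (ε := ε) hl3 hK₁ hK₃ hK'1 hCe1 (by
            rw [hε, hCe, hpow, hpow, hσ2]
            exact coef hd hl3 hK₂ hK'1 hml hmu hN₀u hLu') hn₁l' hLu' hD hDl
          linarith only [hfin, key]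
        · have hlogR : Real.log R ≤ 3 * l := by
            calc Real.log R ≤ Real.log (Real.exp (3 * l)) :=
                  Real.log_le_log (by linarith only [hR1']) (by linarith only [hRu, hR0])
              _ = 3 * l := Real.log_exp _
          rw [hlogη]
          calc K₃ * ((A + 6 * d + 5) * l + 1 + 31 / 15 * l + Real.log R) ≤
                K₃ * ((A + 6 * d + 5) * l + l + 3 * l + 3 * l) := by
                gcongr
                · linarith only [hl3]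
                · linarith only [hlp]
            _ = C₁ * l * Real.exp (31 / 15 * l) * Real.exp (-(31 / 15 * l)) := by
                rw [mul_assoc (C₁ * l), ← Real.exp_add, hC₁]
                simp
                ring
            _ ≤ R₁ * Real.exp (-(31 / 15 * l)) := by gcongr
            _ = η * R₁ := by rw [hη']; ring
        · have hlogR : Real.log R ≤ 3 * l := by
            calc Real.log R ≤ Real.log (Real.exp (3 * l)) :=
                  Real.log_le_log (by linarith only [hR1']) (by linarith only [hRu, hR0])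
              _ = 3 * l := Real.log_exp _
          rw [hlogη, hs]
          calc K₃ * (1 + 31 / 15 * l + Real.log R) ≤ K₃ * (l + 3 * l + 3 * l) := by
                gcongr
                · linarith only [hl3]
                · linarith only [hlp]
            _ = 7 * K₃ * l := by ring
            _ ≤ s₁ + 7 * K₃ * l := by linarith only [hs₁1]
        · intro 𝒜 C' a1 a2 a3 a4
          exact h5 𝒜 C' a1 (a2.trans g5) a3 a4
    · rw [hpow, hpow]
      exact CL.H81.clp_tail hl3 hR0 hRu hAl (by rw [hσl, Real.exp_neg, one_div, inv_inv])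

end Pool.Agent.LE.QD.H54
end
end -- Pool.Agent.Helper54_LQD.CPX
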