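import Pool.Agent.Helper12_MEB.B086
import Pool.Agent.Helper12_MEB.B110

/-!
# Merged copies (generated) of the modules

* `Pool.Agent.Helper54_LQX.CPZ`
-/

set_option autoImplicit false

section -- Pool.Agent.Helper54_LQX.CPZ

/-!
# CPZ: the probability of the large clusters
-/

set_option autoImplicit false

open MeasureTheory ProbabilityTheory Function Filter

open scoped ENNReal BigOperators Topology NNReal

noncomputable section

namespace Pool.Agent.LE.QX.H54

open Pool.Agent.Anderson hiding box mem_box card_box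
open Pool.Agent.Loc Pool.Agent.Mob Pool.Agent.Helper54.Bal
  Pool.Agent.Helper96.EXP Pool.Agent.BED
open Pool.Agent.LE.MN Pool.Agent.LE.CL Pool.Agent.LE.IR Pool.Agent.LE.QD

open Pool.Agent.LE.QD.H54 (ceil_x floor_x ti_rep ev_two)

theorem ev_exp (C q : ℝ) : ∀ᶠ x : ℝ in atTop, C * x ^ q ≤ Real.exp x := by
  have h1 := isLittleO_rpow_exp_atTop q
  have h2 := h1.bound (c := 1 / (|C| + 1)) (by positivity)
  filter_upwards [h2, eventually_ge_atTop 1] with x hx h1x
  have hx0 : 0 ≤ x ^ q := by positivity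
  rw [Real.norm_of_nonneg hx0, Real.norm_of_nonneg (Real.exp_pos x).le] at hx
  have h3 : C * x ^ q ≤ (|C| + 1) * x ^ q := by
    gcongr
    linarith only [le_abs_self C]
  refine h3.trans ?_
  have h4 : 0 < |C| + 1 := by positivity
  calc (|C| + 1) * x ^ q ≤ (|C| + 1) * (1 / (|C| + 1) * Real.exp x) := by gcongr
    _ = Real.exp x := by field_simp

/-- all the conditions on `x` -/
theorem nums (d : ℕ) (K₃ C₁ c θ lm : ℝ) (hK : 1 ≤ K₃) (hc : 0 < c) :
    ∃ x₀ : ℝ, 3 ≤ x₀ ∧ ∀ x : ℝ, x₀ ≤ x → lm ≤ x ∧ 24 * x ^ (3 / θ) ≤ Real.exp x ∧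
      (16 * C₁ + 7) * x ^ 2 ≤ Real.exp x ∧ K₃ * (1 / x + Real.exp (-x)) < c ∧
      2 ^ (d + 3) * Real.exp (x / 2) ≤ Real.exp x := by
  have h1 := ev_exp 24 (3 / θ)
  have h2 := ev_exp (16 * C₁ + 7) 2
  have h3 : ∀ᶠ x : ℝ in atTop, 4 * K₃ / c ≤ x := eventually_ge_atTop _
  have h4 : ∀ᶠ x : ℝ in atTop, 2 ^ (d + 3) * (2 : ℝ) ≤ x := eventually_ge_atTop _
  have h := h1.and (h2.and (h3.and (h4.and (eventually_ge_atTop lm))))
  obtain ⟨x₁, hx₁⟩ := eventually_atTop.1 h
  refine ⟨max x₁ 3, le_max_right _ _, fun x hx => ?_⟩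
  obtain ⟨g1, g2, g3, g4, g5⟩ := hx₁ x ((le_max_left _ _).trans hx)
  have hx3 : 3 ≤ x := (le_max_right _ _).trans hx
  have hx0 : 0 < x := by linarith only [hx3]
  refine ⟨g5, g1, ?_, ?_, ?_⟩
  · have e : x ^ (2 : ℝ) = x ^ 2 := by
      rw [← Real.rpow_natCast]
      norm_num
    rwa [e] at g2
  · have e1 : Real.exp (-x) ≤ 1 / x := by
      rw [Real.exp_neg, ← one_div]
      apply one_div_le_one_div_of_le hx0
      linarith only [Real.add_one_le_exp x]
    have e2 : 4 * K₃ ≤ x * c := by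
      rw [div_le_iff₀ hc] at g3
      exact g3
    have e3 : K₃ * (1 / x + Real.exp (-x)) ≤ K₃ * (1 / x + 1 / x) := by gcongr
    have e4 : K₃ * (1 / x + 1 / x) = 2 * K₃ / x := by ring
    have e5 : 2 * K₃ / x ≤ c / 2 := by
      rw [div_le_iff₀ hx0]
      linarith only [e2]
    linarith
  · have e1 : x / 2 ≤ Real.exp (x / 2) := by linarith only [Real.add_one_le_exp (x / 2)]
    have e2 : (2 : ℝ) ^ (d + 3) ≤ Real.exp (x / 2) := by linarith
    calc 2 ^ (d + 3) * Real.exp (x / 2) ≤ Real.exp (x / 2) * Real.exp (x / 2) := by gcongr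
      _ = Real.exp x := by
          rw [← Real.exp_add]
          ring_nf

/-- the probability of the bad events -/
theorem tail {d : ℕ} {x t R q₁ : ℝ} (hx : 3 ≤ x) (hR0 : 0 ≤ R) (hR : 2 * R + 7 ≤ Real.exp (2 * x))
    (ht : 24 * t ≤ Real.exp x) (ht1 : 1 ≤ t) (ht2 : (3 * d + 6) * x ≤ t)
    (hq : q₁ ≤ Real.exp (-(2 * x))) :
    (2 * R + 3 : ℝ) ^ d * (4 * Real.exp (-t)) +
      (2 * R + 3 : ℝ) ^ (2 * d) * (6 * t / Real.exp ((6 * d + 3) * x)) + q₁ ≤
      Real.exp (-x) := by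
  have hx0 : 0 < x := by linarith
  have h3 : (2 * R + 3 : ℝ) ≤ Real.exp (3 * x) := by
    have : Real.exp (2 * x) ≤ Real.exp (3 * x) := Real.exp_le_exp.2 (by linarith)
    linarith
  have hp : 0 < Real.exp (-x) := Real.exp_pos _
  have he4 : (4 : ℝ) ≤ Real.exp x := by linarith [Real.add_one_le_exp x]
  have h1 : (2 * R + 3 : ℝ) ^ d * (4 * Real.exp (-t)) ≤ 1 / 4 * Real.exp (-x) := by
    calc (2 * R + 3 : ℝ) ^ d * (4 * Real.exp (-t)) ≤
          (Real.exp (3 * x)) ^ d * (4 * Real.exp (-((3 * d + 6) * x))) := by gcongr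
      _ = 4 * (Real.exp (-(5 * x)) * Real.exp (-x)) := by
          rw [← Real.exp_nat_mul, ← Real.exp_add]
          have : Real.exp (d * (3 * x)) * (4 * Real.exp (-((3 * d + 6) * x))) =
            4 * (Real.exp (d * (3 * x)) * Real.exp (-((3 * d + 6) * x))) := by ring
          rw [this, ← Real.exp_add]
          congr 2
          ring
      _ ≤ 4 * ((1 / 16) * Real.exp (-x)) := by
          gcongr
          rw [Real.exp_neg, ← one_div]
          apply one_div_le_one_div_of_le (by norm_num)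
          have : Real.exp x ^ 2 ≤ Real.exp (5 * x) := by
            rw [← Real.exp_nat_mul]
            exact Real.exp_le_exp.2 (by push_cast; linarith only [hx])
          nlinarith only [hx, ht, ht1, ht2, this]
      _ = 1 / 4 * Real.exp (-x) := by ring
  have h2 : (2 * R + 3 : ℝ) ^ (2 * d) * (6 * t / Real.exp ((6 * d + 3) * x)) ≤
      1 / 4 * Real.exp (-x) := by
    calc (2 * R + 3 : ℝ) ^ (2 * d) * (6 * t / Real.exp ((6 * d + 3) * x)) ≤
          (Real.exp (3 * x)) ^ (2 * d) * (6 * (Real.exp x / 24) / Real.exp ((6 * d + 3) * x)) := by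
          gcongr
          linarith only [ht]
      _ = 1 / 4 * (Real.exp (-x) * Real.exp (-x)) := by
          have e1 : Real.exp (3 * x) ^ (2 * d) = Real.exp (6 * d * x) := by
            rw [← Real.exp_nat_mul]
            congr 1
            push_cast
            ring
          have e2 : 6 * (Real.exp x / 24) / Real.exp ((6 * d + 3) * x) =
              1 / 4 * (Real.exp x * Real.exp (-((6 * d + 3) * x))) := by
            rw [Real.exp_neg]
            field_simp
            norm_num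
          rw [e1, e2, ← Real.exp_add, ← Real.exp_add]
          have e3 : Real.exp (6 * d * x) * (1 / 4 * Real.exp (x + -((6 * d + 3) * x))) =
            1 / 4 * (Real.exp (6 * d * x) * Real.exp (x + -((6 * d + 3) * x))) := by ring
          rw [e3, ← Real.exp_add]
          congr 2
          ring
      _ ≤ 1 / 4 * (1 * Real.exp (-x)) := by
          gcongr
          exact Real.exp_le_one_iff.2 (by linarith only [hx])
      _ = 1 / 4 * Real.exp (-x) := by ring
  have h4 : q₁ ≤ 1 / 4 * Real.exp (-x) := by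
    refine hq.trans ?_
    have e : Real.exp (-(2 * x)) = Real.exp (-x) * Real.exp (-x) := by
      rw [← Real.exp_add]
      ring_nf
    rw [e]
    gcongr
    rw [Real.exp_neg, ← one_div]
    exact one_div_le_one_div_of_le (by norm_num) he4
  linarith only [hp, h1, h2, h4]

/-- CPZ -/
theorem cpz (tof : TofStmt) (gro : GroStmt) (cls : ClsStmt) : CpzStmt := by
  intro d a ε hd ha hε0 hε1
  have hd0 : (3 : ℝ) ≤ d := by exact_mod_cast hd
  obtain ⟨θ, c₂, hθ, hθ1, hc₂, hc₂4, htof⟩ := tof d a ε hd ha hε0 hε1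
  obtain ⟨K₃, hK₃, hcls⟩ := cls d (by omega)
  obtain ⟨C₁, hC₁⟩ : ∃ C₁ : ℝ, C₁ = K₃ * (6 * d + 7) := ⟨_, rfl⟩
  have hC₁1 : 1 ≤ C₁ := by
    rw [hC₁]
    nlinarith only [hK₃, hd0]
  obtain ⟨A, hA⟩ : ∃ A : ℝ, A = 3 * d + 6 + 4 * K₃ := ⟨_, rfl⟩
  have hA3 : 15 ≤ A := by linarith only [hA, hd0, hK₃]
  obtain ⟨x₀, hx₀, hnum⟩ := nums d K₃ C₁ c₂ θ (max A 1) hK₃ hc₂
  obtain ⟨c, hc⟩ : ∃ c : ℝ, c = min c₂ (x₀ ^ (-(1 / θ))) := ⟨_, rfl⟩
  have hx₀0 : 0 < x₀ := by linarith only [hx₀]
  have hc0 : 0 < c := by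
    rw [hc]
    exact lt_min hc₂ (Real.rpow_pos_of_pos hx₀0 _)
  refine ⟨θ / 2, c, by linarith only [hθ], by linarith only [hθ, hθ1], hc0, ?_, ?_⟩
  · rw [hc]
    exact (min_le_left _ _).trans hc₂4
  intro σ E hσ hσc hEl hE
  have hσ0 : 0 < |σ| := abs_pos.2 hσ
  have hσc₂ : |σ| ≤ c₂ := hσc.trans (by rw [hc]; exact min_le_left _ _)
  have hσ4 : |σ| ≤ 1 / 4 := hσc₂.trans hc₂4
  -- `x = |σ|^{-θ}`
  obtain ⟨x, hx⟩ : ∃ x : ℝ, x = |σ| ^ (-θ) := ⟨_, rfl⟩
  have hxx : x₀ ≤ x := by
    have h1 : |σ| ≤ x₀ ^ (-(1 / θ)) := hσc.trans (by rw [hc]; exact min_le_right _ _)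
    have h2 : (x₀ ^ (-(1 / θ))) ^ (-θ) ≤ |σ| ^ (-θ) :=
      Real.rpow_le_rpow_of_nonpos hσ0 h1 (by linarith only [hθ])
    rw [← Real.rpow_mul hx₀0.le] at h2
    have h3 : -(1 / θ) * -θ = 1 := by field_simp
    rw [h3, Real.rpow_one] at h2
    rw [hx]
    exact h2
  obtain ⟨hAx, hex, hQx, hcx, hnx⟩ := hnum x hxx
  have hx3 : 3 ≤ x := hx₀.trans hxx
  have hxp : 0 < x := by linarith only [hx3]
  have hAx' : A ≤ x := (le_max_left _ _).trans hAx
  have hpow : ∀ y : ℝ, |σ| ^ y = x ^ (-(y / θ)) := by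
    intro y
    rw [hx, ← Real.rpow_mul hσ0.le]
    congr 1
    field_simp
  have hxpow : ∀ y : ℝ, x ^ y = |σ| ^ (-(y * θ)) := by
    intro y
    rw [hx, ← Real.rpow_mul hσ0.le]
    ring_nf
  -- `t = 1 / |σ|`
  obtain ⟨t, ht⟩ : ∃ t : ℝ, t = |σ| ^ (-1 : ℝ) := ⟨_, rfl⟩
  have ht1 : 1 / |σ| = t := by rw [ht, Real.rpow_neg_one, one_div]
  have ht4 : 4 ≤ t := by
    rw [← ht1, le_div_iff₀ hσ0]
    linarith only [hσ4]
  have hxt : x ^ 2 ≤ t := by
    have e1 : x ^ 2 = |σ| ^ (-(2 * θ)) := by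
      rw [← Real.rpow_natCast, hxpow]
      norm_num
    rw [e1, ht]
    exact Real.rpow_le_rpow_of_exponent_ge hσ0 (by linarith only [hσ4])
      (by linarith only [hθ1])
  have hAt : A * x ≤ t := by nlinarith only [hxt, hAx', hxp]
  have ht3 : 24 * t ^ 3 ≤ Real.exp x := by
    have e1 : t ^ 3 = x ^ (3 / θ) := by
      rw [ht, ← Real.rpow_natCast, ← Real.rpow_mul hσ0.le, hxpow]
      congr 1
      field_simp
      norm_num
    rw [e1]
    exact hex
  have htt : t ≤ t ^ 3 := by nlinarith only [ht4, sq_nonneg t, mul_pos (by linarith only [ht4] : 0 < t) (by linarith only [ht4] : 0 < t)]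
  have ht24 : 24 * t ≤ Real.exp x := by linarith only [ht3, htt]
  -- `η = e^{-x}`
  obtain ⟨η, hη⟩ : ∃ η : ℝ, η = Real.exp (-x) := ⟨_, rfl⟩
  have hη0 : 0 < η := by rw [hη]; exact Real.exp_pos _
  have hη1 : η ≤ 1 := by
    rw [hη]
    exact Real.exp_le_one_iff.2 (by linarith only [hxp])
  have hηx : η * Real.exp x = 1 := by
    rw [hη, ← Real.exp_add]
    simp
  have hlogη : Real.log (1 / η) = x := by
    rw [hη, one_div, ← Real.exp_neg, neg_neg, Real.log_exp]
  have hσ3 : |σ| ^ 3 * t ^ 3 = 1 := by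
    rw [← ht1, ← mul_pow]
    field_simp
  have hη3 : η ≤ |σ| ^ 3 := by
    have h1 : 0 < t ^ 3 := by positivity
    have h2 : η * t ^ 3 ≤ 1 := by
      rw [← hηx]
      have h3 : t ^ 3 ≤ Real.exp x := by linarith only [ht3, h1]
      gcongr
    have h4 : η * t ^ 3 ≤ |σ| ^ 3 * t ^ 3 := by rw [hσ3]; exact h2
    exact le_of_mul_le_mul_right h4 h1
  -- `M`
  obtain ⟨M, hM1, hMl, hMu⟩ := ceil_x (x := t ^ 4 * Real.exp (2 * x)) (by
    have h1 : 1 ≤ t ^ 4 := one_le_pow₀ (by linarith only [ht4])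
    have h2 : 1 ≤ Real.exp (2 * x) := Real.one_le_exp (by linarith only [hxp])
    nlinarith only [h1, h2])
  have hne : NeZero M := ⟨by omega⟩
  have hη2 : η ^ 2 * Real.exp (2 * x) = 1 := by
    have e1 : Real.exp (2 * x) = Real.exp x ^ 2 := by
      rw [← Real.exp_nat_mul]
      norm_num
    rw [e1, ← mul_pow, hηx, one_pow]
  have hσt : |σ| * t = 1 := by
    rw [← ht1]
    field_simp
  obtain ⟨v, hv⟩ : ∃ v : ℝ≥0, (v : ℝ) = σ ^ 2 := ⟨⟨σ ^ 2, sq_nonneg σ⟩, rfl⟩
  have htor := htof M v σ E η hv hσ hσc₂ hEl hE (by rw [hη, hx]) hη3 (by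
      calc (1 : ℝ) = (|σ| * t) ^ 4 * (η ^ 2 * Real.exp (2 * x)) := by rw [hσt, hη2]; norm_num
        _ = |σ| ^ 4 * η ^ 2 * (t ^ 4 * Real.exp (2 * x)) := by ring
        _ ≤ |σ| ^ 4 * η ^ 2 * M := by gcongr) (by
      calc |σ| ^ 6 * η ^ 2 * M ≤ |σ| ^ 6 * η ^ 2 * (2 * (t ^ 4 * Real.exp (2 * x))) := by gcongr
        _ = 2 * |σ| ^ 2 * ((|σ| * t) ^ 4 * (η ^ 2 * Real.exp (2 * x))) := by ring
        _ = 2 * |σ| ^ 2 := by rw [hσt, hη2]; norm_num
        _ ≤ 1 := by nlinarith only [hσ4, hσ0])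
  -- the number of the cubes
  have hey : (2 : ℝ) ^ (d + 3) ≤ Real.exp x := by
    have h1 : 1 ≤ Real.exp (x / 2) := Real.one_le_exp (by linarith only [hxp])
    have h2 : (2 : ℝ) ^ (d + 3) ≤ 2 ^ (d + 3) * Real.exp (x / 2) :=
      le_mul_of_one_le_right (by positivity) h1
    exact h2.trans hnx
  have h2d3 : (1 : ℝ) ≤ 2 ^ d := one_le_pow₀ (by norm_num)
  have h2d4 : (2 : ℝ) ^ (d + 3) = 8 * 2 ^ d := by ring
  obtain ⟨N₀, hN₀1, hN₀u, hN₀l⟩ := floor_x (x := Real.exp x / 2) (by linarith only [hey, h2d3, h2d4])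
  obtain ⟨n, hn1, hnu, hnl⟩ := floor_x (x := (N₀ : ℝ) / 2 ^ d) (by
    rw [le_div_iff₀ (by positivity)]
    linarith only [hey, h2d4, hN₀l, h2d3])
  have hnu' : n * 2 ^ d ≤ N₀ := by
    rw [le_div_iff₀ (by positivity)] at hnu
    exact_mod_cast hnu
  have hnl' : Real.exp x ≤ 2 ^ (d + 3) * n := by
    rw [div_le_iff₀ (by positivity)] at hnl
    rw [h2d4]
    linarith only [hnl, hN₀l]
  have hnex : (n : ℝ) ≤ Real.exp x := by
    have h1 : (n : ℝ) * 2 ^ d ≤ N₀ := by exact_mod_cast hnu'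
    have h2 : (n : ℝ) * 1 ≤ n * 2 ^ d := by gcongr
    linarith only [h1, h2, hN₀u, Real.exp_pos x]
  -- the radii
  have hx1 : 1 ≤ 2 * x := by linarith only [hx3]
  obtain ⟨J₂, hJ1, hJl, hJu⟩ := ceil_x hx1
  have hex1 : 1 ≤ Real.exp x := Real.one_le_exp hxp.le
  have hCx : 1 ≤ C₁ * x * Real.exp x := by
    have h1 : 1 ≤ C₁ * x := by nlinarith only [hC₁1, hx3]
    nlinarith only [h1, hex1]
  obtain ⟨R₁, hR₁1, hR₁l, hR₁u⟩ := ceil_x hCx
  have hN2 : N₀ < 2 ^ J₂ := by
    have h1 : (N₀ : ℝ) < 2 ^ J₂ := by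
      calc (N₀ : ℝ) ≤ Real.exp x / 2 := hN₀u
        _ < Real.exp x := by linarith only [Real.exp_pos x]
        _ ≤ Real.exp (J₂ * Real.log 2) := by
            refine Real.exp_le_exp.2 ?_
            have h7 := Real.log_two_gt_d9
            have h8 : 2 * x * Real.log 2 ≤ J₂ * Real.log 2 := by gcongr
            nlinarith only [h7, h8, hxp]
        _ = 2 ^ J₂ := by rw [Real.exp_nat_mul, Real.exp_log (by norm_num)]
    exact_mod_cast h1
  obtain ⟨R, hR⟩ : ∃ R : ℕ, R = J₂ * R₁ := ⟨_, rfl⟩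
  have hR1 : 1 ≤ R := by
    rw [hR]
    exact Nat.mul_pos (by omega) (by omega)
  have hR1' : (1 : ℝ) ≤ R := by exact_mod_cast hR1
  have hR0 : (0 : ℝ) ≤ R := by linarith only [hR1']
  have hRu : 2 * (R : ℝ) + 7 ≤ Real.exp (2 * x) := by
    have e1 : Real.exp (2 * x) = Real.exp x * Real.exp x := by
      rw [← Real.exp_add]
      ring_nf
    have h1 : (R : ℝ) ≤ 8 * C₁ * x ^ 2 * Real.exp x := by
      rw [hR]
      push_cast
      calc (J₂ : ℝ) * R₁ ≤ (2 * (2 * x)) * (2 * (C₁ * x * Real.exp x)) := by gcongr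
        _ = 8 * C₁ * x ^ 2 * Real.exp x := by ring
    have h2 : (7 : ℝ) ≤ 7 * x ^ 2 * Real.exp x := by
      have h3 : 1 ≤ x ^ 2 := one_le_pow₀ (by linarith only [hx3])
      nlinarith only [h3, hex1]
    calc 2 * (R : ℝ) + 7 ≤ (16 * C₁ + 7) * x ^ 2 * Real.exp x := by linarith only [h1, h2]
      _ ≤ Real.exp x * Real.exp x := by gcongr
      _ = Real.exp (2 * x) := e1.symm
  have hMR : 2 * (R + 1) + 5 ≤ M := by
    have h1 : (2 * ((R : ℝ) + 1) + 5) ≤ M := by
      have h2 : 1 ≤ t ^ 4 := one_le_pow₀ (by linarith only [ht4])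
      have h3 : Real.exp (2 * x) ≤ t ^ 4 * Real.exp (2 * x) :=
        le_mul_of_one_le_left (Real.exp_pos _).le h2
      linarith only [hRu, h3, hMl]
    exact_mod_cast h1
  have hlogR : Real.log R ≤ 2 * x := by
    calc Real.log R ≤ Real.log (Real.exp (2 * x)) :=
          Real.log_le_log (by linarith only [hR1']) (by linarith only [hRu, hR0])
      _ = 2 * x := Real.log_exp _
  -- the numbers
  refine ⟨n, R + 2, J₂ + 1, 4 * K₃ * x, Real.exp (-x), ?_, ?_, by omega, ?_, by omega, ?_, hn1,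
    ?_, (Real.exp_pos _).le, ?_, ?_⟩
  · nlinarith only [hK₃, hx3]
  · rw [← ht]
    have h1 : 4 * K₃ ≤ A := by linarith only [hA, hd0]
    nlinarith only [h1, hAt, hxp]
  · rw [← ht]
    push_cast
    calc Real.log ((R : ℝ) + 2) ≤ Real.log (Real.exp (2 * x)) :=
          Real.log_le_log (by linarith only [hR1']) (by linarith only [hRu, hR0])
      _ = 2 * x := Real.log_exp _
      _ ≤ t := by nlinarith only [hAt, hA3, hxp]
  · rw [← ht]
    push_cast
    nlinarith only [hJu, hAt, hA3, hx3]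
  · have h1 : |σ| ^ (-(θ / 2)) ≤ x / 2 := by
      have e1 : |σ| ^ (-(θ / 2)) = Real.sqrt x := by
        rw [Real.sqrt_eq_rpow, hxpow]
        ring_nf
      rw [e1]
      apply Real.sqrt_le_iff.2
      exact ⟨by linarith only [hxp], by nlinarith only [hAx', hA3]⟩
    have h2 : 2 ^ (d + 3) * Real.exp (x / 2) ≤ 2 ^ (d + 3) * n := hnx.trans hnl'
    have h3 : Real.exp (x / 2) ≤ n := le_of_mul_le_mul_left h2 (by positivity)
    exact (Real.exp_le_exp.2 h1).trans h3
  · calc Real.exp (-x) * n ≤ Real.exp (-x) * Real.exp x := by gcongr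
      _ = 1 := by
          rw [← Real.exp_add]
          simp
  · intro N b hbox
    have hbox2 : box b (R + 2) ⊆ box 0 N := hbox
    have h2 := IR.H54.law_le hσ hv b _ htor
    have hb := CL.H81.bad_prob hσ E ((6 * d + 3) * x) (Real.exp (-(|σ| ^ (-(2 * θ))))) N R b _
      (Real.exp_pos _).le h2
    refine (measure_mono ?_).trans (hb.trans (ENNReal.ofReal_le_ofReal ?_))
    · intro V hV
      rw [Set.mem_ofPred_eq] at hV ⊢
      rintro ⟨h1, h2, h3, ⟨h4, h5⟩⟩
      apply hV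
      rcases gro d V (box 0 N) E (4 * K₃ * x) b 0 R R₁ 0 J₂ 1 1 N₀ (by omega) hN₀1 le_rfl
        (by omega) hN2 (by rw [hR]; simp) (fun y _ => by rw [rch_zero, Finset.card_singleton])
        with h7 | h7
      · rw [zero_add, one_mul, one_mul] at h7
        have h8 : 2 ^ d * n ≤ 2 ^ d * (rch V (box 0 N) E (4 * K₃ * x) b R (J₂ + 1)).card := by
          rw [mul_comm]
          exact hnu'.trans h7
        have h9 := Nat.le_of_mul_le_mul_left h8 (by positivity)
        exact h9.trans (Finset.card_le_card (rch_mono_rad (by omega) _))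
      · exfalso
        obtain ⟨r, C, 𝒦, g1, g2, g3, g4, g5, g6, g7, g8⟩ := h7
        have hθ0 : 0 ≤ |σ| ^ θ := by positivity
        have key := hcls M V (fun x : Tor d M => V (b + rep x)) N R r R₁ 1 1 E η (4 * K₃ * x)
          ((6 * d + 3) * x) c₂ (|σ| ^ θ) b C 𝒦 hη0 hη1 (by linarith only [hE, ha])
          (by positivity)
          hθ0 le_rfl le_rfl
          hR1 hMR (fun y hy => by
            have := ti_rep (M := M) (b := b) (y := y) (R := R + 2) (by omega) hy
            simp only [this]) hbox2 g1 g2 g3 g7 g8 g6 h1 h2 h3 ?_ ?_ h4 ?_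
        · have e1 : |σ| ^ θ = 1 / x := by
            rw [hx, Real.rpow_neg hσ0.le]
            simp
          rw [e1, hη] at key
          norm_num at key
          rw [← one_div] at key
          linarith only [hcx, key]
        · rw [hlogη]
          calc K₃ * ((6 * d + 3) * x + 1 + x + Real.log R) ≤
                K₃ * ((6 * d + 3) * x + x + x + 2 * x) := by
                gcongr
                linarith only [hx3]
            _ = η * (C₁ * x * Real.exp x) := by
                rw [mul_left_comm, hηx, hC₁]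
                ring
            _ ≤ η * R₁ := by gcongr
        · rw [hlogη]
          calc K₃ * (1 + x + Real.log R) ≤ K₃ * (x + x + 2 * x) := by
                gcongr
                linarith only [hx3]
            _ = 4 * K₃ * x := by ring
        · intro 𝒜 C' a1 a2 a3 a4
          refine h5 C' ?_
          rw [a4, one_pow, mul_one]
          have a5 : (𝒜.card : ℝ) ≤ 2 * N₀ := by exact_mod_cast a2.trans g5
          have hsq : Real.sqrt η * Real.exp (x / 2) = 1 := by
            have e1 : Real.sqrt η = Real.exp (-x / 2) := by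
              rw [hη, Real.exp_half]
            rw [e1, ← Real.exp_add]
            ring_nf
            exact Real.exp_zero
          have e2 : 1 / Real.sqrt η = Real.exp (x / 2) := by
            have h0 : Real.sqrt η ≠ 0 := (Real.sqrt_pos.2 hη0).ne'
            field_simp
            linarith only [hsq]
          have a6 : (1 : ℝ) ≤ |σ| ^ (ε - 1) := by
            apply Real.one_le_rpow_of_pos_of_le_one_of_nonpos hσ0
            · linarith only [hσ4]
            · linarith only [hε1]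
          have a7 : Real.exp (x / 2) ≤ |σ| ^ (ε - 1) / Real.sqrt η := by
            rw [← e2]
            gcongr
          have a8 : 1 ≤ Real.exp (x / 2) := Real.one_le_exp (by linarith only [hxp])
          calc (𝒜.card : ℝ) ≤ 2 * N₀ := a5
            _ ≤ Real.exp x := by linarith only [hN₀u]
            _ = Real.exp (x / 2) ^ 2 := by
                rw [← Real.exp_nat_mul]
                congr 1
                push_cast
                ring
            _ ≤ Real.exp (x / 2) ^ d := pow_le_pow_right₀ a8 (by omega)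
            _ ≤ (|σ| ^ (ε - 1) / Real.sqrt η) ^ d := by gcongr
    · rw [ht1]
      refine tail hx3 hR0 hRu ht24 (by linarith only [ht4]) ?_ ?_
      · have h1 : 3 * (d : ℝ) + 6 ≤ A := by linarith only [hA, hK₃]
        nlinarith only [h1, hAt, hxp]
      · refine Real.exp_le_exp.2 (neg_le_neg ?_)
        have e1 : |σ| ^ (-(2 * θ)) = x ^ 2 := by
          rw [← Real.rpow_natCast x 2, hxpow]
          norm_num
        rw [e1]
        nlinarith only [hx3]

end Pool.Agent.LE.QX.H54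
end
end -- Pool.Agent.Helper54_LQX.CPZ
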