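import Pool.Agent.Helper12_MEB.B087
import Pool.Agent.Helper12_MEB.B111

/-!
# Merged copies (generated) of the modules

* `Pool.Agent.Helper60_LQZ.CPZ`
-/

set_option autoImplicit false

section -- Pool.Agent.Helper60_LQZ.CPZ

/-!
# Squad LQZ (MP_1906c1_mp), row CPZ: the probability of the large clusters
(edit of `Helper54_LQX/CPZ.lean`)
-/

set_option autoImplicit false

open MeasureTheory ProbabilityTheory Function Filter

open scoped ENNReal BigOperators Topology NNReal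

noncomputable section

namespace Pool.Agent.LE.QZ.H60

open Pool.Agent.Anderson hiding box mem_box card_box
open Pool.Agent.Loc Pool.Agent.Mob Pool.Agent.Helper54.Bal
  Pool.Agent.Helper96.EXP Pool.Agent.BED
open Pool.Agent.LE.MN Pool.Agent.LE.CL Pool.Agent.LE.IR Pool.Agent.LE.QD

open Pool.Agent.LE.QD.H54 (ceil_x floor_x ti_rep ev_two)

/-- the torus theorem in the form of `QX.TofStmt` -/
theorem tofz (tor : TofStmt) (d : ℕ) (a : ℝ) (hd : 3 ≤ d) (ha : 0 < a) :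
    ∃ θ c : ℝ, 0 < θ ∧ θ ≤ 1 / 100 ∧ 0 < c ∧
    c ≤ 1 / 4 ∧ ∀ (M : ℕ) [NeZero M] (v : ℝ≥0) (σ E η : ℝ), (v : ℝ) = σ ^ 2 → σ ≠ 0 → |σ| ≤ c →
      |E| ≤ 2 * d - a → Real.exp (-(|σ| ^ (-θ))) ≤ η → η ≤ |σ| ^ 3 →
      1 ≤ |σ| ^ 4 * η ^ 2 * M → |σ| ^ 6 * η ^ 2 * M ≤ 1 →
        gau d M v {V | ¬ ((∀ x, c ≤ (rs V ⟨E, η⟩ x x).im) ∧
          ∀ C' : Finset (Tor d M), (C'.card : ℝ) ≤ (|σ| ^ ((1 : ℝ) - 1) / Real.sqrt η) ^ d →
            mss V ⟨E, η⟩ C' ≤ |σ| ^ θ * C'.card / η)} ≤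
          ENNReal.ofReal (Real.exp (-(|σ| ^ (-(2 * θ))))) := by
  obtain ⟨θ₀, c₀, C, hθ₀, hθ₀1, hc₀, hc₀4, hC1, H⟩ := tor d a 1 hd ha one_pos le_rfl
  obtain ⟨θ, hθe⟩ : ∃ θ : ℝ, θ = θ₀ / 4 := ⟨_, rfl⟩
  have hθ : 0 < θ := by rw [hθe]; linarith only [hθ₀]
  obtain ⟨K, hK⟩ : ∃ K : ℝ, K = 6 / θ + 2 + C := ⟨_, rfl⟩
  have h6 : 0 < 6 / θ := by positivity
  have hK0 : 0 < K := by linarith only [hC1, hK, h6]
  refine ⟨θ, min c₀ (K ^ (-(1 / θ))), hθ, by linarith only [hθ₀, hθ₀1, hθe], lt_min hc₀ (Real.rpow_pos_of_pos hK0 _),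
    (min_le_left _ _).trans hc₀4, ?_⟩
  intro M _ v σ E η hv hσ hσc hE hηl hηu hM1 hM2
  obtain ⟨s, hs⟩ : ∃ s : ℝ, s = |σ| := ⟨_, rfl⟩
  have hs0 : 0 < s := hs ▸ abs_pos.2 hσ
  have hsc₀ : |σ| ≤ c₀ := hσc.trans (min_le_left _ _)
  have hsK : s ≤ K ^ (-(1 / θ)) := by rw [hs]; exact hσc.trans (min_le_right _ _)
  have hs4 : s ≤ 1 / 4 := by rw [hs]; exact hsc₀.trans hc₀4
  have hs1 : s ≤ 1 := by linarith only [hθ₀1, hc₀4, hθe, hθ, hs, hsc₀]
  obtain ⟨u, hu⟩ : ∃ u : ℝ, u = s ^ (-θ) := ⟨_, rfl⟩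
  have huK : K ≤ u := by
    have h1 : (K ^ (-(1 / θ))) ^ (-θ) ≤ s ^ (-θ) :=
      Real.rpow_le_rpow_of_nonpos hs0 hsK (by linarith only [hθ])
    rw [← Real.rpow_mul hK0.le] at h1
    have h2 : -(1 / θ) * -θ = 1 := by field_simp
    rw [h2, Real.rpow_one] at h1
    rw [hu]
    exact h1
  have hu1 : 1 ≤ u := by linarith only [hC1, hK, h6, huK]
  have hun : ∀ n : ℕ, u ^ n = s ^ (-(n * θ)) := by
    intro n
    rw [hu, ← Real.rpow_natCast, ← Real.rpow_mul hs0.le]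
    congr 1
    ring
  have e4 : s ^ (-θ₀) = u ^ 4 := by
    rw [hun]
    congr 1
    rw [hθe]
    push_cast
    ring
  have e8 : s ^ (-(2 * θ₀)) = u ^ 8 := by
    rw [hun]
    congr 1
    rw [hθe]
    push_cast
    ring
  have e2 : s ^ (-(2 * θ)) = u ^ 2 := by
    rw [hun]
    push_cast
    rfl
  have hη0 : 0 < η := lt_of_lt_of_le (Real.exp_pos _) hηl
  rw [← hs] at hηl hηu hM1 hM2
  rw [← hu] at hηl
  have hs3 : s ^ 3 ≤ 1 := pow_le_one₀ hs0.le hs1
  have hη1 : η ≤ 1 := hηu.trans hs3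
  have hMp : (0 : ℝ) < M := by
    have : M ≠ 0 := NeZero.ne M
    positivity
  have hM1' : (1 : ℝ) ≤ M := by
    have : 1 ≤ M := Nat.one_le_iff_ne_zero.2 (NeZero.ne M)
    exact_mod_cast this
  -- the conditions
  have c1 : s ^ (-5 : ℝ) ≤ M := by
    have hs5 : s ^ (-5 : ℝ) = (s ^ 5)⁻¹ := by
      rw [Real.rpow_neg hs0.le]
      congr 1
      exact_mod_cast Real.rpow_natCast s 5
    rw [hs5, inv_le_iff_one_le_mul₀ (by positivity)]
    have h1 : η ^ 2 ≤ s := by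
      calc η ^ 2 = η * η := by ring
        _ ≤ s ^ 3 * 1 := by gcongr
        _ = s * s ^ 2 := by ring
        _ ≤ s * 1 := by
            have : s ^ 2 ≤ 1 := pow_le_one₀ hs0.le hs1
            gcongr
        _ = s := mul_one _
    calc (1 : ℝ) ≤ s ^ 4 * η ^ 2 * M := hM1
      _ ≤ s ^ 4 * s * M := by gcongr
      _ = M * s ^ 5 := by ring
  have c2 : (M : ℝ) ≤ Real.exp (s ^ (-θ₀)) := by
    rw [e4]
    have h1 : 1 / η ≤ Real.exp u := by
      rw [one_div, inv_le_comm₀ hη0 (Real.exp_pos _), ← Real.exp_neg]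
      exact hηl
    have h3 : 1 / s ^ 6 ≤ Real.exp (6 / θ * u) := by
      have h4 : Real.log (1 / s) ≤ (1 / s) ^ θ / θ :=
        Real.log_le_rpow_div (by positivity) hθ
      have h5 : (1 / s) ^ θ = u := by
        rw [hu, one_div, Real.inv_rpow hs0.le, Real.rpow_neg hs0.le]
      rw [h5] at h4
      have h6 : 1 / s ^ 6 = Real.exp (6 * Real.log (1 / s)) := by
        have h7 := Real.exp_nat_mul (Real.log (1 / s)) 6
        rw [Real.exp_log (by positivity)] at h7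
        push_cast at h7
        rw [h7]
        ring
      rw [h6]
      apply Real.exp_le_exp.2
      calc 6 * Real.log (1 / s) ≤ 6 * (u / θ) := by linarith only [h4]
        _ = 6 / θ * u := by ring
    have h4 : (M : ℝ) ≤ 1 / s ^ 6 * (1 / η) ^ 2 := by
      have : 1 / s ^ 6 * (1 / η) ^ 2 = 1 / (s ^ 6 * η ^ 2) := by
        field_simp
      rw [this, le_div_iff₀ (by positivity)]
      calc (M : ℝ) * (s ^ 6 * η ^ 2) = s ^ 6 * η ^ 2 * M := by ring
        _ ≤ 1 := hM2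
    calc (M : ℝ) ≤ 1 / s ^ 6 * (1 / η) ^ 2 := h4
      _ ≤ Real.exp (6 / θ * u) * Real.exp u ^ 2 := by gcongr
      _ = Real.exp (6 / θ * u + 2 * u) := by
        rw [Real.exp_add, ← Real.exp_nat_mul]
        push_cast
        rfl
      _ ≤ Real.exp (u ^ 4) := by
        apply Real.exp_le_exp.2
        have h9 : 6 / θ + 2 ≤ u := by linarith only [hθ₀1, hC1, hθe, hθ, hK, huK]
        calc 6 / θ * u + 2 * u = (6 / θ + 2) * u := by ring
          _ ≤ u * u := by gcongr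
          _ = u ^ 2 := by ring
          _ ≤ u ^ 4 := pow_le_pow_right₀ hu1 (by norm_num)
  have hsη : 1 ≤ s * η * M := by
    have h1 : s ^ 4 ≤ s := by
      calc s ^ 4 ≤ s ^ 1 := pow_le_pow_of_le_one hs0.le hs1 (by norm_num)
        _ = s := pow_one s
    have h2 : η ^ 2 ≤ η := by nlinarith only [hηu, hη0, hs3]
    calc (1 : ℝ) ≤ s ^ 4 * η ^ 2 * M := hM1
      _ ≤ s * η * M := by gcongr
  have c3 : s ^ (-(1 : ℝ)) ≤ η * (M : ℝ) ^ d := by
    rw [Real.rpow_neg_one, inv_le_iff_one_le_mul₀ hs0]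
    have h1 : (M : ℝ) ≤ (M : ℝ) ^ d := by
      calc (M : ℝ) = (M : ℝ) ^ 1 := (pow_one _).symm
        _ ≤ (M : ℝ) ^ d := pow_le_pow_right₀ hM1' (by omega)
    calc (1 : ℝ) ≤ s * η * M := hsη
      _ ≤ s * η * (M : ℝ) ^ d := by gcongr
      _ = η * (M : ℝ) ^ d * s := by ring
  have hsq : 1 / Real.sqrt η ≤ s * M := by
    have h0 : 0 < Real.sqrt η := Real.sqrt_pos.2 hη0
    rw [div_le_iff₀ h0]
    have h1 : η ≤ Real.sqrt η := by
      apply Real.le_sqrt_of_sq_le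
      nlinarith only [hηu, hη0, hs3]
    calc (1 : ℝ) ≤ s * η * M := hsη
      _ ≤ s * Real.sqrt η * M := by gcongr
      _ = s * M * Real.sqrt η := by ring
  have hξ : 1 ≤ Real.exp (s ^ (-(2 * θ₀))) := Real.one_le_exp (by positivity)
  have h := H M v σ E η hv hσ hsc₀ hE (by rw [← hs]; exact c1) (by rw [← hs]; exact c2)
    (by rw [← hs]; exact c3) (by rw [← hs]; exact hηu)
  obtain ⟨m, hm1, hm2, hm3, hm4⟩ := h
  have h5 := hm4 ⟨0, by omega⟩ (Real.exp (s ^ (-(2 * θ₀)))) hξ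
  refine (measure_mono ?_).trans (h5.trans (ENNReal.ofReal_le_ofReal ?_))
  · intro V hV
    rw [Set.mem_ofPred_eq] at hV ⊢
    rintro ⟨g1, g2, g3, g4⟩
    apply hV
    refine ⟨fun x => (min_le_left _ _).trans (g1 x), fun C' hC' => ?_⟩
    have g5 : (C'.card : ℝ) ≤ |σ| ^ (1 : ℝ) * (M : ℝ) ^ d := by
      refine hC'.trans ?_
      rw [sub_self, Real.rpow_zero, Real.rpow_one, ← hs]
      calc (1 / Real.sqrt η) ^ d ≤ (s * M) ^ d := by gcongr
        _ = s ^ d * (M : ℝ) ^ d := mul_pow _ _ _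
        _ ≤ s * (M : ℝ) ^ d := by
            have : s ^ d ≤ s := by
              calc s ^ d ≤ s ^ 1 := pow_le_pow_of_le_one hs0.le hs1 (by omega)
                _ = s := pow_one s
            gcongr
    refine (g3 C' hC' g5).trans ?_
    have g6 : |σ| ^ θ₀ ≤ |σ| ^ θ := by
      rw [← hs]
      exact Real.rpow_le_rpow_of_exponent_ge hs0 hs1 (by rw [hθe]; linarith only [hθe, hθ])
    gcongr
  · rw [← hs, e8, e2, Real.exp_neg, Real.exp_neg]
    have hp : 0 < Real.exp (u ^ 8) := Real.exp_pos _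
    have e : C / Real.exp (u ^ 8) + (Real.exp (u ^ 8))⁻¹ = (C + 1) * (Real.exp (u ^ 8))⁻¹ := by
      field_simp
    rw [e, ← div_eq_mul_inv, div_le_iff₀ hp, ← Real.exp_neg, ← Real.exp_add]
    calc C + 1 ≤ Real.exp C := Real.add_one_le_exp C
      _ ≤ Real.exp (-u ^ 2 + u ^ 8) := by
        apply Real.exp_le_exp.2
        have h7 : u ^ 3 ≤ u ^ 8 := pow_le_pow_right₀ hu1 (by norm_num)
        have h8 : (C + 2) * u ^ 2 ≤ u * u ^ 2 := by
          have : C + 2 ≤ u := by linarith only [hK, h6, huK]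
          gcongr
        have h9 : 1 ≤ u ^ 2 := one_le_pow₀ hu1
        nlinarith only [hθ₀, hθ₀1, hC1, hθe, hθ, h7, h8, h9]

/-- CPZ -/
theorem cpz (tor : TofStmt) (gro : GroStmt) (cls : ClsStmt) : CpzStmt := by
  intro d a hd ha
  have hd0 : (3 : ℝ) ≤ d := by exact_mod_cast hd
  obtain ⟨θ, c₂, hθ, hθ1, hc₂, hc₂4, htof⟩ := tofz tor d a hd ha
  obtain ⟨K₃, hK₃, hcls⟩ := cls d (by omega)
  obtain ⟨C₁, hC₁⟩ : ∃ C₁ : ℝ, C₁ = K₃ * (6 * d + 7) := ⟨_, rfl⟩
  have hC₁1 : 1 ≤ C₁ := by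
    rw [hC₁]
    nlinarith only [hK₃, hd0]
  obtain ⟨A, hA⟩ : ∃ A : ℝ, A = 3 * d + 6 + 4 * K₃ := ⟨_, rfl⟩
  have hA3 : 15 ≤ A := by linarith only [hA, hd0, hK₃]
  obtain ⟨x₀, hx₀, hnum⟩ := QX.H54.nums d K₃ C₁ c₂ θ (max A 1) hK₃ hc₂
  obtain ⟨c, hc⟩ : ∃ c : ℝ, c = min c₂ (x₀ ^ (-(1 / θ))) := ⟨_, rfl⟩
  have hx₀0 : 0 < x₀ := by linarith only [hx₀]
  have hc0 : 0 < c := by
    rw [hc]
    exact lt_min hc₂ (Real.rpow_pos_of_pos hx₀0 _)
  refine ⟨θ / 2, c, by linarith only [hθ], by linarith only [hθ, hθ1], hc0, ?_, ?_⟩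
  · rw [hc]
    exact (min_le_left _ _).trans hc₂4
  intro σ E hσ hσc hE
  have hσ0 : 0 < |σ| := abs_pos.2 hσ
  have hσc₂ : |σ| ≤ c₂ := hσc.trans (by rw [hc]; exact min_le_left _ _)
  have hσ4 : |σ| ≤ 1 / 4 := hσc₂.trans hc₂4
  -- `x = |σ|^{-θ}`
  obtain ⟨x, hx⟩ : ∃ x : ℝ, x = |σ| ^ (-θ) := ⟨_, rfl⟩
  have hxx : x₀ ≤ x := by
    have h1 : |σ| ≤ x₀ ^ (-(1 / θ)) := hσc.trans (by rw [hc]; exact min_le_right _ _)
    have h2 : (x₀ ^ (-(1 / θ))) ^ (-θ) ≤ |σ| ^ (-θ) :=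
      Real.rpow_le_rpow_of_nonpos hσ0 h1 (by linarith only [hθ])
    rw [← Real.rpow_mul hx₀0.le] at h2
    have h3 : -(1 / θ) * -θ = 1 := by field_simp
    rw [h3, Real.rpow_one] at h2
    rw [hx]
    exact h2
  obtain ⟨hAx, hex, hQx, hcx, hnx⟩ := hnum x hxx
  have hx3 : 3 ≤ x := hx₀.trans hxx
  have hxp : 0 < x := by linarith only [hx3]
  have hAx' : A ≤ x := (le_max_left _ _).trans hAx
  have hpow : ∀ y : ℝ, |σ| ^ y = x ^ (-(y / θ)) := by
    intro y
    rw [hx, ← Real.rpow_mul hσ0.le]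
    congr 1
    field_simp
  have hxpow : ∀ y : ℝ, x ^ y = |σ| ^ (-(y * θ)) := by
    intro y
    rw [hx, ← Real.rpow_mul hσ0.le]
    ring_nf
  -- `t = 1 / |σ|`
  obtain ⟨t, ht⟩ : ∃ t : ℝ, t = |σ| ^ (-1 : ℝ) := ⟨_, rfl⟩
  have ht1 : 1 / |σ| = t := by rw [ht, Real.rpow_neg_one, one_div]
  have ht4 : 4 ≤ t := by
    rw [← ht1, le_div_iff₀ hσ0]
    linarith only [hσ4]
  have hxt : x ^ 2 ≤ t := by
    have e1 : x ^ 2 = |σ| ^ (-(2 * θ)) := by
      rw [← Real.rpow_natCast, hxpow]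
      norm_num
    rw [e1, ht]
    exact Real.rpow_le_rpow_of_exponent_ge hσ0 (by linarith only [hσ4])
      (by linarith only [hθ1])
  have hAt : A * x ≤ t := by nlinarith only [hxt, hAx', hxp]
  have ht3 : 24 * t ^ 3 ≤ Real.exp x := by
    have e1 : t ^ 3 = x ^ (3 / θ) := by
      rw [ht, ← Real.rpow_natCast, ← Real.rpow_mul hσ0.le, hxpow]
      congr 1
      field_simp
      norm_num
    rw [e1]
    exact hex
  have htt : t ≤ t ^ 3 := by nlinarith only [ht4, sq_nonneg t, mul_pos (by linarith only [ht4] : 0 < t) (by linarith only [ht4] : 0 < t)]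
  have ht24 : 24 * t ≤ Real.exp x := by linarith only [ht3, htt]
  -- `η = e^{-x}`
  obtain ⟨η, hη⟩ : ∃ η : ℝ, η = Real.exp (-x) := ⟨_, rfl⟩
  have hη0 : 0 < η := by rw [hη]; exact Real.exp_pos _
  have hη1 : η ≤ 1 := by
    rw [hη]
    exact Real.exp_le_one_iff.2 (by linarith only [hxp])
  have hηx : η * Real.exp x = 1 := by
    rw [hη, ← Real.exp_add]
    simp
  have hlogη : Real.log (1 / η) = x := by
    rw [hη, one_div, ← Real.exp_neg, neg_neg, Real.log_exp]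
  have hσ3 : |σ| ^ 3 * t ^ 3 = 1 := by
    rw [← ht1, ← mul_pow]
    field_simp
  have hη3 : η ≤ |σ| ^ 3 := by
    have h1 : 0 < t ^ 3 := by positivity
    have h2 : η * t ^ 3 ≤ 1 := by
      rw [← hηx]
      have h3 : t ^ 3 ≤ Real.exp x := by linarith only [ht3, h1]
      gcongr
    have h4 : η * t ^ 3 ≤ |σ| ^ 3 * t ^ 3 := by rw [hσ3]; exact h2
    exact le_of_mul_le_mul_right h4 h1
  -- `M`
  obtain ⟨M, hM1, hMl, hMu⟩ := ceil_x (x := t ^ 4 * Real.exp (2 * x)) (by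
    have h1 : 1 ≤ t ^ 4 := one_le_pow₀ (by linarith only [ht4])
    have h2 : 1 ≤ Real.exp (2 * x) := Real.one_le_exp (by linarith only [hxp])
    nlinarith only [h1, h2])
  have hne : NeZero M := ⟨by omega⟩
  have hη2 : η ^ 2 * Real.exp (2 * x) = 1 := by
    have e1 : Real.exp (2 * x) = Real.exp x ^ 2 := by
      rw [← Real.exp_nat_mul]
      norm_num
    rw [e1, ← mul_pow, hηx, one_pow]
  have hσt : |σ| * t = 1 := by
    rw [← ht1]
    field_simp
  obtain ⟨v, hv⟩ : ∃ v : ℝ≥0, (v : ℝ) = σ ^ 2 := ⟨⟨σ ^ 2, sq_nonneg σ⟩, rfl⟩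
  have htor := htof M v σ E η hv hσ hσc₂ hE (by rw [hη, hx]) hη3 (by
      calc (1 : ℝ) = (|σ| * t) ^ 4 * (η ^ 2 * Real.exp (2 * x)) := by rw [hσt, hη2]; norm_num
        _ = |σ| ^ 4 * η ^ 2 * (t ^ 4 * Real.exp (2 * x)) := by ring
        _ ≤ |σ| ^ 4 * η ^ 2 * M := by gcongr) (by
      calc |σ| ^ 6 * η ^ 2 * M ≤ |σ| ^ 6 * η ^ 2 * (2 * (t ^ 4 * Real.exp (2 * x))) := by gcongr
        _ = 2 * |σ| ^ 2 * ((|σ| * t) ^ 4 * (η ^ 2 * Real.exp (2 * x))) := by ring
        _ = 2 * |σ| ^ 2 := by rw [hσt, hη2]; norm_num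
        _ ≤ 1 := by nlinarith only [hσ4, hσ0])
  -- the number of the cubes
  have hey : (2 : ℝ) ^ (d + 3) ≤ Real.exp x := by
    have h1 : 1 ≤ Real.exp (x / 2) := Real.one_le_exp (by linarith only [hxp])
    have h2 : (2 : ℝ) ^ (d + 3) ≤ 2 ^ (d + 3) * Real.exp (x / 2) :=
      le_mul_of_one_le_right (by positivity) h1
    exact h2.trans hnx
  have h2d3 : (1 : ℝ) ≤ 2 ^ d := one_le_pow₀ (by norm_num)
  have h2d4 : (2 : ℝ) ^ (d + 3) = 8 * 2 ^ d := by ring
  obtain ⟨N₀, hN₀1, hN₀u, hN₀l⟩ := floor_x (x := Real.exp x / 2) (by linarith only [hey, h2d3, h2d4])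
  obtain ⟨n, hn1, hnu, hnl⟩ := floor_x (x := (N₀ : ℝ) / 2 ^ d) (by
    rw [le_div_iff₀ (by positivity)]
    linarith only [hey, h2d4, hN₀l, h2d3])
  have hnu' : n * 2 ^ d ≤ N₀ := by
    rw [le_div_iff₀ (by positivity)] at hnu
    exact_mod_cast hnu
  have hnl' : Real.exp x ≤ 2 ^ (d + 3) * n := by
    rw [div_le_iff₀ (by positivity)] at hnl
    rw [h2d4]
    linarith only [hnl, hN₀l]
  have hnex : (n : ℝ) ≤ Real.exp x := by
    have h1 : (n : ℝ) * 2 ^ d ≤ N₀ := by exact_mod_cast hnu'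
    have h2 : (n : ℝ) * 1 ≤ n * 2 ^ d := by gcongr
    linarith only [h1, h2, hN₀u, Real.exp_pos x]
  -- the radii
  have hx1 : 1 ≤ 2 * x := by linarith only [hx3]
  obtain ⟨J₂, hJ1, hJl, hJu⟩ := ceil_x hx1
  have hex1 : 1 ≤ Real.exp x := Real.one_le_exp hxp.le
  have hCx : 1 ≤ C₁ * x * Real.exp x := by
    have h1 : 1 ≤ C₁ * x := by nlinarith only [hC₁1, hx3]
    nlinarith only [h1, hex1]
  obtain ⟨R₁, hR₁1, hR₁l, hR₁u⟩ := ceil_x hCx
  have hN2 : N₀ < 2 ^ J₂ := by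
    have h1 : (N₀ : ℝ) < 2 ^ J₂ := by
      calc (N₀ : ℝ) ≤ Real.exp x / 2 := hN₀u
        _ < Real.exp x := by linarith only [Real.exp_pos x]
        _ ≤ Real.exp (J₂ * Real.log 2) := by
            refine Real.exp_le_exp.2 ?_
            have h7 := Real.log_two_gt_d9
            have h8 : 2 * x * Real.log 2 ≤ J₂ * Real.log 2 := by gcongr
            nlinarith only [h7, h8, hxp]
        _ = 2 ^ J₂ := by rw [Real.exp_nat_mul, Real.exp_log (by norm_num)]
    exact_mod_cast h1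
  obtain ⟨R, hR⟩ : ∃ R : ℕ, R = J₂ * R₁ := ⟨_, rfl⟩
  have hR1 : 1 ≤ R := by
    rw [hR]
    exact Nat.mul_pos (by omega) (by omega)
  have hR1' : (1 : ℝ) ≤ R := by exact_mod_cast hR1
  have hR0 : (0 : ℝ) ≤ R := by linarith only [hR1']
  have hRu : 2 * (R : ℝ) + 7 ≤ Real.exp (2 * x) := by
    have e1 : Real.exp (2 * x) = Real.exp x * Real.exp x := by
      rw [← Real.exp_add]
      ring_nf
    have h1 : (R : ℝ) ≤ 8 * C₁ * x ^ 2 * Real.exp x := by
      rw [hR]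
      push_cast
      calc (J₂ : ℝ) * R₁ ≤ (2 * (2 * x)) * (2 * (C₁ * x * Real.exp x)) := by gcongr
        _ = 8 * C₁ * x ^ 2 * Real.exp x := by ring
    have h2 : (7 : ℝ) ≤ 7 * x ^ 2 * Real.exp x := by
      have h3 : 1 ≤ x ^ 2 := one_le_pow₀ (by linarith only [hx3])
      nlinarith only [h3, hex1]
    calc 2 * (R : ℝ) + 7 ≤ (16 * C₁ + 7) * x ^ 2 * Real.exp x := by linarith only [h1, h2]
      _ ≤ Real.exp x * Real.exp x := by gcongr
      _ = Real.exp (2 * x) := e1.symm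
  have hMR : 2 * (R + 1) + 5 ≤ M := by
    have h1 : (2 * ((R : ℝ) + 1) + 5) ≤ M := by
      have h2 : 1 ≤ t ^ 4 := one_le_pow₀ (by linarith only [ht4])
      have h3 : Real.exp (2 * x) ≤ t ^ 4 * Real.exp (2 * x) :=
        le_mul_of_one_le_left (Real.exp_pos _).le h2
      linarith only [hRu, h3, hMl]
    exact_mod_cast h1
  have hlogR : Real.log R ≤ 2 * x := by
    calc Real.log R ≤ Real.log (Real.exp (2 * x)) :=
          Real.log_le_log (by linarith only [hR1']) (by linarith only [hRu, hR0])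
      _ = 2 * x := Real.log_exp _
  -- the numbers
  refine ⟨n, R + 2, J₂ + 1, 4 * K₃ * x, Real.exp (-x), ?_, ?_, by omega, ?_, by omega, ?_, hn1,
    ?_, (Real.exp_pos _).le, ?_, ?_⟩
  · nlinarith only [hK₃, hx3]
  · rw [← ht]
    have h1 : 4 * K₃ ≤ A := by linarith only [hA, hd0]
    nlinarith only [h1, hAt, hxp]
  · rw [← ht]
    push_cast
    calc Real.log ((R : ℝ) + 2) ≤ Real.log (Real.exp (2 * x)) :=
          Real.log_le_log (by linarith only [hR1']) (by linarith only [hRu, hR0])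
      _ = 2 * x := Real.log_exp _
      _ ≤ t := by nlinarith only [hAt, hA3, hxp]
  · rw [← ht]
    push_cast
    nlinarith only [hJu, hAt, hA3, hx3]
  · have h1 : |σ| ^ (-(θ / 2)) ≤ x / 2 := by
      have e1 : |σ| ^ (-(θ / 2)) = Real.sqrt x := by
        rw [Real.sqrt_eq_rpow, hxpow]
        ring_nf
      rw [e1]
      apply Real.sqrt_le_iff.2
      exact ⟨by linarith only [hxp], by nlinarith only [hAx', hA3]⟩
    have h2 : 2 ^ (d + 3) * Real.exp (x / 2) ≤ 2 ^ (d + 3) * n := hnx.trans hnl'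
    have h3 : Real.exp (x / 2) ≤ n := le_of_mul_le_mul_left h2 (by positivity)
    exact (Real.exp_le_exp.2 h1).trans h3
  · calc Real.exp (-x) * n ≤ Real.exp (-x) * Real.exp x := by gcongr
      _ = 1 := by
          rw [← Real.exp_add]
          simp
  · intro N b hbox
    have hbox2 : box b (R + 2) ⊆ box 0 N := hbox
    have h2 := IR.H54.law_le hσ hv b _ htor
    have hb := CL.H81.bad_prob hσ E ((6 * d + 3) * x) (Real.exp (-(|σ| ^ (-(2 * θ))))) N R b _
      (Real.exp_pos _).le h2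
    refine (measure_mono ?_).trans (hb.trans (ENNReal.ofReal_le_ofReal ?_))
    · intro V hV
      rw [Set.mem_ofPred_eq] at hV ⊢
      rintro ⟨h1, h2, h3, ⟨h4, h5⟩⟩
      apply hV
      rcases gro d V (box 0 N) E (4 * K₃ * x) b 0 R R₁ 0 J₂ 1 1 N₀ (by omega) hN₀1 le_rfl
        (by omega) hN2 (by rw [hR]; simp) (fun y _ => by rw [rch_zero, Finset.card_singleton])
        with h7 | h7
      · rw [zero_add, one_mul, one_mul] at h7
        have h8 : 2 ^ d * n ≤ 2 ^ d * (rch V (box 0 N) E (4 * K₃ * x) b R (J₂ + 1)).card := by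
          rw [mul_comm]
          exact hnu'.trans h7
        have h9 := Nat.le_of_mul_le_mul_left h8 (by positivity)
        exact h9.trans (Finset.card_le_card (rch_mono_rad (by omega) _))
      · exfalso
        obtain ⟨r, C, 𝒦, g1, g2, g3, g4, g5, g6, g7, g8⟩ := h7
        have hθ0 : 0 ≤ |σ| ^ θ := by positivity
        have key := hcls M V (fun x : Tor d M => V (b + rep x)) N R r R₁ 1 1 E η (4 * K₃ * x)
          ((6 * d + 3) * x) c₂ (|σ| ^ θ) b C 𝒦 hη0 hη1 (by linarith only [hE, ha])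
          (by positivity)
          hθ0 le_rfl le_rfl
          hR1 hMR (fun y hy => by
            have := ti_rep (M := M) (b := b) (y := y) (R := R + 2) (by omega) hy
            simp only [this]) hbox2 g1 g2 g3 g7 g8 g6 h1 h2 h3 ?_ ?_ h4 ?_
        · have e1 : |σ| ^ θ = 1 / x := by
            rw [hx, Real.rpow_neg hσ0.le]
            simp
          rw [e1, hη] at key
          norm_num at key
          rw [← one_div] at key
          linarith only [hcx, key]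
        · rw [hlogη]
          calc K₃ * ((6 * d + 3) * x + 1 + x + Real.log R) ≤
                K₃ * ((6 * d + 3) * x + x + x + 2 * x) := by
                gcongr
                linarith only [hx3]
            _ = η * (C₁ * x * Real.exp x) := by
                rw [mul_left_comm, hηx, hC₁]
                ring
            _ ≤ η * R₁ := by gcongr
        · rw [hlogη]
          calc K₃ * (1 + x + Real.log R) ≤ K₃ * (x + x + 2 * x) := by
                gcongr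
                linarith only [hx3]
            _ = 4 * K₃ * x := by ring
        · intro 𝒜 C' a1 a2 a3 a4
          refine h5 C' ?_
          rw [a4, one_pow, mul_one]
          have a5 : (𝒜.card : ℝ) ≤ 2 * N₀ := by exact_mod_cast a2.trans g5
          have hsq : Real.sqrt η * Real.exp (x / 2) = 1 := by
            have e1 : Real.sqrt η = Real.exp (-x / 2) := by
              rw [hη, Real.exp_half]
            rw [e1, ← Real.exp_add]
            ring_nf
            exact Real.exp_zero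
          have e2 : 1 / Real.sqrt η = Real.exp (x / 2) := by
            have h0 : Real.sqrt η ≠ 0 := (Real.sqrt_pos.2 hη0).ne'
            field_simp
            linarith only [hsq]
          have a6 : (1 : ℝ) ≤ |σ| ^ ((1 : ℝ) - 1) := by
            apply Real.one_le_rpow_of_pos_of_le_one_of_nonpos hσ0
            · linarith only [hσ4]
            · norm_num
          have a7 : Real.exp (x / 2) ≤ |σ| ^ ((1 : ℝ) - 1) / Real.sqrt η := by
            rw [← e2]
            gcongr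
          have a8 : 1 ≤ Real.exp (x / 2) := Real.one_le_exp (by linarith only [hxp])
          calc (𝒜.card : ℝ) ≤ 2 * N₀ := a5
            _ ≤ Real.exp x := by linarith only [hN₀u]
            _ = Real.exp (x / 2) ^ 2 := by
                rw [← Real.exp_nat_mul]
                congr 1
                push_cast
                ring
            _ ≤ Real.exp (x / 2) ^ d := pow_le_pow_right₀ a8 (by omega)
            _ ≤ (|σ| ^ ((1 : ℝ) - 1) / Real.sqrt η) ^ d := by gcongr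
    · rw [ht1]
      refine QX.H54.tail hx3 hR0 hRu ht24 (by linarith only [ht4]) ?_ ?_
      · have h1 : 3 * (d : ℝ) + 6 ≤ A := by linarith only [hA, hK₃]
        nlinarith only [h1, hAt, hxp]
      · refine Real.exp_le_exp.2 (neg_le_neg ?_)
        have e1 : |σ| ^ (-(2 * θ)) = x ^ 2 := by
          rw [← Real.rpow_natCast x 2, hxpow]
          norm_num
        rw [e1]
        nlinarith only [hx3]

end Pool.Agent.LE.QZ.H60
end
end -- Pool.Agent.Helper60_LQZ.CPZ
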