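import Pool.Agent.Helper12_MEB.B084

/-!
# Merged copies (generated) of the modules

* `Pool.Agent.Helper69_LQD.DSL`
* `Pool.Agent.Helper82_LQD.INT`
* `Pool.Agent.Helper90_LQD.BE2`
* `Pool.Agent.Helper13_LQD.OFF`
* `Pool.Agent.Helper93_LQD.SCE`
-/

set_option autoImplicit false

section -- Pool.Agent.Helper69_LQD.DSL

/-!
# Squad LQD, row DSL: lower bound for the density of states with the weight `sin ^ 2`
-/

set_option autoImplicit false

open scoped BigOperators

noncomputable section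

namespace Pool.Agent.LE.QD.H69

open Pool.Agent.Anderson hiding box mem_box card_box
open Pool.Agent.Loc Pool.Agent.Mob Pool.Agent.Helper54.Bal
  Pool.Agent.Helper96.EXP Pool.Agent.BED
open Pool.Agent.LE.MN Pool.Agent.LE.CL Pool.Agent.LE.IR

/-- the angle -/
def ang (M : ℕ) (x : ZMod M) : ℝ := 2 * Real.pi * (x.valMinAbs : ℝ) / M

theorem es_eq {d M : ℕ} [NeZero M] (p : Tor d M) :
    es p = ∑ k, 2 * Real.cos (ang M (p k)) := by
  unfold es ds ang
  have h : ∑ k : Fin d, 2 * (1 - Real.cos (2 * Real.pi * ((p k).valMinAbs : ℝ) / M)) =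
      (∑ _k : Fin d, (2 : ℝ)) - ∑ k, 2 * Real.cos (2 * Real.pi * ((p k).valMinAbs : ℝ) / M) := by
    rw [← Finset.sum_sub_distrib]
    apply Finset.sum_congr rfl
    intro k _
    ring
  rw [h, Finset.sum_const, Finset.card_univ, Fintype.card_fin, nsmul_eq_mul]
  ring

/-- the angle of a small natural number -/
theorem ang_nat {M : ℕ} [NeZero M] {k : ℕ} (h : 2 * Real.pi * (k : ℝ) / M ≤ Real.pi) :
    ang M ((k : ℕ) : ZMod M) = 2 * Real.pi * (k : ℝ) / M := by
  have hM : (0 : ℝ) < M := by exact_mod_cast Nat.pos_of_ne_zero (NeZero.ne M)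
  have hpi := Real.pi_pos
  rw [div_le_iff₀ hM] at h
  have h1 : 2 * (k : ℝ) ≤ M := by nlinarith only [h, hpi]
  have h2 : 2 * k ≤ M := by exact_mod_cast h1
  unfold ang
  rw [ZMod.valMinAbs_natCast_of_le_half (by omega)]
  simp

/-- a block of momenta with angles in an interval -/
theorem block {M : ℕ} [NeZero M] {β L : ℝ} (hβ : 0 ≤ β) (hL : β + L ≤ Real.pi)
    (hL0 : 0 ≤ L) : ∃ B : ℕ, ∀ k < ⌊L * M / (2 * Real.pi)⌋₊,
      β ≤ 2 * Real.pi * ((B + k : ℕ) : ℝ) / M ∧ 2 * Real.pi * ((B + k : ℕ) : ℝ) / M ≤ β + L ∧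
        ang M ((B + k : ℕ) : ZMod M) = 2 * Real.pi * ((B + k : ℕ) : ℝ) / M := by
  have hM : (0 : ℝ) < M := by exact_mod_cast Nat.pos_of_ne_zero (NeZero.ne M)
  have hpi := Real.pi_pos
  refine ⟨⌈β * M / (2 * Real.pi)⌉₊, fun k hk => ?_⟩
  have h1 : β * M / (2 * Real.pi) ≤ (⌈β * M / (2 * Real.pi)⌉₊ : ℝ) := Nat.le_ceil _
  have h2 : (⌈β * M / (2 * Real.pi)⌉₊ : ℝ) < β * M / (2 * Real.pi) + 1 :=
    Nat.ceil_lt_add_one (by positivity)
  have h3 : ((k + 1 : ℕ) : ℝ) ≤ (⌊L * M / (2 * Real.pi)⌋₊ : ℝ) := by exact_mod_cast hk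
  have h4 : (⌊L * M / (2 * Real.pi)⌋₊ : ℝ) ≤ L * M / (2 * Real.pi) := Nat.floor_le (by positivity)
  push_cast at h3
  have e1 : 2 * Real.pi * (β * M / (2 * Real.pi)) / M = β := by field_simp
  have e2 : 2 * Real.pi * (L * M / (2 * Real.pi)) / M = L := by field_simp
  have h0k : (0 : ℝ) ≤ k := Nat.cast_nonneg k
  have a1 : β ≤ 2 * Real.pi * ((⌈β * M / (2 * Real.pi)⌉₊ + k : ℕ) : ℝ) / M := by
    push_cast
    calc β = 2 * Real.pi * (β * M / (2 * Real.pi)) / M := e1.symm
      _ ≤ _ := by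
        apply div_le_div_of_nonneg_right _ hM.le
        exact mul_le_mul_of_nonneg_left (by linarith only [h1]) (by positivity)
  have a2 : 2 * Real.pi * ((⌈β * M / (2 * Real.pi)⌉₊ + k : ℕ) : ℝ) / M ≤ β + L := by
    push_cast
    calc 2 * Real.pi * ((⌈β * M / (2 * Real.pi)⌉₊ : ℝ) + k) / M
        ≤ 2 * Real.pi * (β * M / (2 * Real.pi) + L * M / (2 * Real.pi)) / M := by
          apply div_le_div_of_nonneg_right _ hM.le
          exact mul_le_mul_of_nonneg_left (by linarith only [h2, h4, h3]) (by positivity)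
      _ = β + L := by
          rw [mul_add, add_div, e1, e2]
  exact ⟨a1, a2, ang_nat (a2.trans hL)⟩

/-- the map to the momenta is injective -/
theorem block_inj {M n B : ℕ} [NeZero M] (h : ∀ k < n,
      ang M ((B + k : ℕ) : ZMod M) = 2 * Real.pi * ((B + k : ℕ) : ℝ) / M) :
    Set.InjOn (fun k : ℕ => ((B + k : ℕ) : ZMod M)) (Finset.range n : Set ℕ) := by
  intro k hk k' hk' hkk
  have hM : (0 : ℝ) < M := by exact_mod_cast Nat.pos_of_ne_zero (NeZero.ne M)
  have hpi := Real.pi_pos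
  have h1 := h k (by simpa using hk)
  have h2 := h k' (by simpa using hk')
  simp only at hkk
  rw [hkk, h2] at h1
  rw [div_left_inj' hM.ne'] at h1
  have h3 : ((B + k' : ℕ) : ℝ) = ((B + k : ℕ) : ℝ) := by
    have := mul_left_cancel₀ (by positivity : (2 * Real.pi) ≠ 0) h1
    exact this
  have h4 : B + k' = B + k := by exact_mod_cast h3
  omega

/-- an interval of length `L` with an end at `θ` inside of `[0, π]` -/
theorem side {θ L : ℝ} (h0 : 0 ≤ θ) (h1 : θ ≤ Real.pi) (hL0 : 0 ≤ L) (hL : L ≤ 1) :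
    ∃ β : ℝ, 0 ≤ β ∧ β + L ≤ Real.pi ∧ ∀ x, β ≤ x → x ≤ β + L → |x - θ| ≤ L := by
  have hpi := Real.pi_gt_three
  rcases le_total θ (Real.pi / 2) with h | h
  · refine ⟨θ, h0, by linarith, fun x hx hx' => ?_⟩
    rw [abs_le]
    constructor <;> linarith
  · refine ⟨θ - L, by linarith, by linarith, fun x hx hx' => ?_⟩
    rw [abs_le]
    constructor <;> linarith

/-- the number of momenta with energy close to `y` -/
theorem cnt {M : ℕ} [NeZero M] {y η : ℝ} (hy : |y| ≤ 1) (hη : 0 < η) (hη1 : η ≤ 1) :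
    (⌊η / 2 * M / (2 * Real.pi)⌋₊ : ℝ) ≤
      ∑ x : ZMod M, if |2 * Real.cos (ang M x) - 2 * y| ≤ η then (1 : ℝ) else 0 := by
  classical
  rw [abs_le] at hy
  obtain ⟨β, hβ, hβL, hx⟩ := side (θ := Real.arccos y) (L := η / 2) (Real.arccos_nonneg y)
    (Real.arccos_le_pi y) (by linarith only [hη]) (by linarith)
  obtain ⟨B, hB⟩ := block (M := M) hβ hβL (by linarith)
  have hinj := block_inj (M := M) (B := B) (fun k hk => (hB k hk).2.2)
  calc (⌊η / 2 * M / (2 * Real.pi)⌋₊ : ℝ)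
      = ∑ _k ∈ Finset.range ⌊η / 2 * M / (2 * Real.pi)⌋₊, (1 : ℝ) := by
        rw [Finset.sum_const, Finset.card_range, nsmul_eq_mul, mul_one]
    _ ≤ ∑ k ∈ Finset.range ⌊η / 2 * M / (2 * Real.pi)⌋₊,
        (if |2 * Real.cos (ang M ((B + k : ℕ) : ZMod M)) - 2 * y| ≤ η then (1 : ℝ) else 0) := by
        apply Finset.sum_le_sum
        intro k hk
        obtain ⟨h1, h2, h3⟩ := hB k (Finset.mem_range.1 hk)
        rw [if_pos]
        rw [h3]
        have h4 := hx _ h1 h2
        have h5 := Real.abs_cos_sub_cos_le (2 * Real.pi * ((B + k : ℕ) : ℝ) / M) (Real.arccos y)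
        rw [Real.cos_arccos hy.1 hy.2] at h5
        have h6 : 2 * Real.cos (2 * Real.pi * ((B + k : ℕ) : ℝ) / M) - 2 * y =
            2 * (Real.cos (2 * Real.pi * ((B + k : ℕ) : ℝ) / M) - y) := by ring
        rw [h6, abs_mul, abs_of_pos (by norm_num : (0 : ℝ) < 2)]
        linarith only [h4, h5]
    _ = ∑ x ∈ (Finset.range ⌊η / 2 * M / (2 * Real.pi)⌋₊).image
          (fun k : ℕ => ((B + k : ℕ) : ZMod M)),
        (if |2 * Real.cos (ang M x) - 2 * y| ≤ η then (1 : ℝ) else 0) := by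
        rw [Finset.sum_image hinj]
    _ ≤ _ := by
        apply Finset.sum_le_sum_of_subset_of_nonneg (Finset.subset_univ _)
        intro x _ _
        split_ifs <;> norm_num

/-- the weight of a block -/
theorem wgt {M m B : ℕ} [NeZero M] (a : ℝ) (hm : 2 * Real.pi * (m : ℝ) / M ≤ Real.pi / 2)
    (hB : ∀ k < 2 * m, ang M ((B + k : ℕ) : ZMod M) = 2 * Real.pi * ((B + k : ℕ) : ℝ) / M) :
    (m : ℝ) * (2 / Real.pi ^ 2 * (2 * Real.pi * (m : ℝ) / M) ^ 2) ≤
      ∑ x ∈ (Finset.range (2 * m)).image (fun k : ℕ => ((B + k : ℕ) : ZMod M)),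
        Real.sin (ang M x - a) ^ 2 := by
  classical
  have hM : (0 : ℝ) < M := by exact_mod_cast Nat.pos_of_ne_zero (NeZero.ne M)
  have hpi := Real.pi_pos
  rw [Finset.sum_image (block_inj hB)]
  have h1 : ∑ k ∈ Finset.range (2 * m), Real.sin (ang M ((B + k : ℕ) : ZMod M) - a) ^ 2 =
      ∑ k ∈ Finset.range m, (Real.sin (2 * Real.pi * ((B + k : ℕ) : ℝ) / M - a) ^ 2 +
        Real.sin (2 * Real.pi * ((B + k : ℕ) : ℝ) / M - a + 2 * Real.pi * (m : ℝ) / M) ^ 2) := by
    rw [two_mul, Finset.sum_range_add, Finset.sum_add_distrib]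
    congr 1
    · apply Finset.sum_congr rfl
      intro k hk
      rw [hB k (by have := Finset.mem_range.1 hk; omega)]
    · apply Finset.sum_congr rfl
      intro k hk
      rw [hB (m + k) (by have := Finset.mem_range.1 hk; omega)]
      congr 2
      push_cast
      ring
  rw [h1]
  have h2 : ∀ x : ℝ, 2 / Real.pi ^ 2 * (2 * Real.pi * (m : ℝ) / M) ^ 2 ≤
      Real.sin x ^ 2 + Real.sin (x + 2 * Real.pi * (m : ℝ) / M) ^ 2 := by
    intro x
    obtain ⟨t, ht⟩ : ∃ t, t = 2 * Real.pi * (m : ℝ) / M := ⟨_, rfl⟩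
    rw [← ht] at hm ⊢
    have ht0 : 0 ≤ t := by rw [ht]; positivity
    have h3 := Real.cos_le_one_sub_mul_cos_sq (x := t) (by rw [abs_of_nonneg ht0]; linarith only [hpi, hm])
    have h7 : 0 ≤ Real.cos t := Real.cos_nonneg_of_neg_pi_div_two_le_of_le (by linarith only [hpi, ht0]) hm
    have h4 : Real.sin x ^ 2 + Real.sin (x + t) ^ 2 = 1 - Real.cos (2 * x + t) * Real.cos t := by
      have e1 : Real.cos (2 * x + t) * Real.cos t =
          (Real.cos (2 * (x + t)) + Real.cos (2 * x)) / 2 := by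
        rw [Real.cos_add_cos]
        have e2 : (2 * (x + t) + 2 * x) / 2 = 2 * x + t := by ring
        have e3 : (2 * (x + t) - 2 * x) / 2 = t := by ring
        rw [e2, e3]
        ring
      rw [e1, Real.cos_two_mul, Real.cos_two_mul]
      have e4 := Real.sin_sq_add_cos_sq x
      have e5 := Real.sin_sq_add_cos_sq (x + t)
      linarith only [e4, e5]
    rw [h4]
    have h5 := Real.neg_one_le_cos (2 * x + t)
    have h6 := Real.cos_le_one (2 * x + t)
    have h8 : Real.cos (2 * x + t) * Real.cos t ≤ 1 * Real.cos t :=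
      mul_le_mul_of_nonneg_right h6 h7
    linarith only [h3, h8]
  calc (m : ℝ) * (2 / Real.pi ^ 2 * (2 * Real.pi * (m : ℝ) / M) ^ 2)
      = ∑ _k ∈ Finset.range m, (2 / Real.pi ^ 2 * (2 * Real.pi * (m : ℝ) / M) ^ 2) := by
        rw [Finset.sum_const, Finset.card_range, nsmul_eq_mul]
    _ ≤ _ := Finset.sum_le_sum fun k _ => h2 _

/-- splitting of the sum -/
theorem split {d M : ℕ} [NeZero M] (j : Fin d) (f : Tor d M → ℝ) :
    ∑ p, f p = ∑ q : {k : Fin d // k ≠ j} → ZMod M, ∑ x : ZMod M,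
      f ((Equiv.funSplitAt j (ZMod M)).symm (x, q)) := by
  rw [← Equiv.sum_comp (Equiv.funSplitAt j (ZMod M)).symm f, Fintype.sum_prod_type,
    Finset.sum_comm]

theorem prod_one {ι M : Type} [Fintype ι] [DecidableEq ι] [DecidableEq M] (W : Finset M)
    (w : M → ℝ) (i : ι) :
    ∑ q ∈ Fintype.piFinset (fun _ : ι => W), w (q i) =
      (∑ x ∈ W, w x) * (W.card : ℝ) ^ (Fintype.card ι - 1) := by
  have h := Finset.prod_univ_sum (fun _ : ι => W) (fun (k : ι) (x : M) => if k = i then w x else 1)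
  have h1 : ∀ q : ι → M, ∏ k, (if k = i then w (q k) else 1) = w (q i) := by
    intro q
    rw [Finset.prod_ite_eq' Finset.univ i (fun k => w (q k)), if_pos (Finset.mem_univ i)]
  simp only [h1] at h
  rw [← h, ← Finset.mul_prod_erase Finset.univ _ (Finset.mem_univ i)]
  simp only [if_true]
  congr 1
  rw [Finset.prod_congr rfl (g := fun _ => (W.card : ℝ)), Finset.prod_const,
    Finset.card_erase_of_mem (Finset.mem_univ i), Finset.card_univ]
  intro k hk
  rw [Finset.mem_erase] at hk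
  simp only [if_neg hk.1]
  rw [Finset.sum_const, nsmul_eq_mul, mul_one]

/-- DSL -/
theorem dsl : DslStmt := by
  intro d δ hd hδ
  classical
  have hpi := Real.pi_gt_three
  have hpi4 := Real.pi_lt_four
  have hd0 : (3 : ℝ) ≤ d := by exact_mod_cast hd
  obtain ⟨r, hr⟩ : ∃ r, r = min (1 / 3) (δ / (2 * d ^ 2) : ℝ) := ⟨_, rfl⟩
  have hr0 : 0 < r := by rw [hr]; exact lt_min (by norm_num) (by positivity)
  have hr1 : r ≤ 1 / 3 := by rw [hr]; exact min_le_left _ _
  have hr2 : r ≤ δ / (2 * d ^ 2) := by rw [hr]; exact min_le_right _ _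
  obtain ⟨c, hc⟩ : ∃ c, c = 1 / (8 * Real.pi) * (r / (8 * Real.pi)) ^ (d - 1) *
    (r ^ 2 / (8 * Real.pi ^ 2)) := ⟨_, rfl⟩
  have hc0 : 0 < c := by rw [hc]; positivity
  have hc1 : c ≤ 1 := by
    rw [hc]
    have h1 : 1 / (8 * Real.pi) ≤ 1 := by rw [div_le_one (by positivity)]; linarith only [hpi, hr0, hr1]
    have h2 : r / (8 * Real.pi) ≤ 1 := by rw [div_le_one (by positivity)]; linarith only [hpi, hr0, hr1]
    have h3 : (r / (8 * Real.pi)) ^ (d - 1) ≤ 1 := pow_le_one₀ (by positivity) h2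
    have h4 : r ^ 2 / (8 * Real.pi ^ 2) ≤ 1 := by
      rw [div_le_one (by positivity)]; nlinarith only [hpi, hpi4, hr0, hr1]
    calc 1 / (8 * Real.pi) * (r / (8 * Real.pi)) ^ (d - 1) * (r ^ 2 / (8 * Real.pi ^ 2))
        ≤ 1 * 1 * 1 := by gcongr
      _ = 1 := by norm_num
  refine ⟨c, 8 * Real.pi / r, hc0, hc1, ?_, ?_⟩
  · rw [le_div_iff₀ hr0]; linarith only [hpi, hr0, hr1]
  intro M _ E η a i hE hη hηc hM
  have hη1 : η ≤ 1 := hηc.trans hc1
  have hM0 : (0 : ℝ) < M := by exact_mod_cast Nat.pos_of_ne_zero (NeZero.ne M)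
  have hCη : 8 * Real.pi / r ≤ η * M := by
    rw [div_le_iff₀ hη] at hM; linarith only [hM]
  have h8 : 8 * Real.pi ≤ 8 * Real.pi / r := by
    rw [le_div_iff₀ hr0]; nlinarith only [hpi, hpi4, hr0, hr1]
  have hηM : 8 * Real.pi ≤ η * M := h8.trans hCη
  have hrM : 8 * Real.pi ≤ r * M := by
    have h1 : 8 * Real.pi / r ≤ M := hCη.trans (by nlinarith only [hc1, hηc])
    rw [div_le_iff₀ hr0] at h1
    linarith only [h1]
  -- the reference angle
  obtain ⟨e₀, he₀⟩ : ∃ e₀, e₀ = E / (2 * d) := ⟨_, rfl⟩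
  have hd1 : (0 : ℝ) < 2 * d := by linarith only [hd0, hr0, hr1]
  have hE2 : 2 * (d : ℝ) * e₀ = E := by rw [he₀]; field_simp
  have he1 : |e₀| ≤ 1 - δ / (2 * d) := by
    rw [he₀, abs_div, abs_of_pos hd1, div_le_iff₀ hd1]
    have : (1 - δ / (2 * d)) * (2 * d) = 2 * d - δ := by field_simp
    rw [this]; exact hE
  have hdr : (d : ℝ) * r ≤ δ / (2 * d) := by
    calc (d : ℝ) * r ≤ d * (δ / (2 * d ^ 2)) := mul_le_mul_of_nonneg_left hr2 (by linarith only [hd0, hr0, hr1])
      _ = δ / (2 * d) := by field_simp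
  have he2 := abs_le.1 (he1.trans (by linarith only [show 0 ≤ δ / (2 * (d : ℝ)) by positivity] :
    1 - δ / (2 * d) ≤ 1))
  obtain ⟨β, hβ, hβL, hx⟩ := side (θ := Real.arccos e₀) (L := r) (Real.arccos_nonneg e₀)
    (Real.arccos_le_pi e₀) hr0.le (by linarith only [hr0, hr1])
  obtain ⟨B, hB⟩ := block (M := M) hβ hβL hr0.le
  obtain ⟨n, hn⟩ : ∃ n, n = ⌊r * M / (2 * Real.pi)⌋₊ := ⟨_, rfl⟩
  rw [← hn] at hB
  obtain ⟨m, hm⟩ : ∃ m, m = n / 2 := ⟨_, rfl⟩
  have hmn : 2 * m ≤ n := by omega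
  have hnm : n ≤ 2 * m + 1 := by omega
  have hn1 : r * M / (2 * Real.pi) < n + 1 := by rw [hn]; exact Nat.lt_floor_add_one _
  have hn2 : (n : ℝ) ≤ r * M / (2 * Real.pi) := by rw [hn]; exact Nat.floor_le (by positivity)
  have hmn' : 2 * (m : ℝ) ≤ n := by exact_mod_cast hmn
  have hnm' : (n : ℝ) ≤ 2 * m + 1 := by exact_mod_cast hnm
  have hmr : r / (8 * Real.pi) * M ≤ m := by
    have e1 : r * M / (2 * Real.pi) = 4 * (r / (8 * Real.pi) * M) := by field_simp; ring
    have e2 : 1 ≤ r / (8 * Real.pi) * M := by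
      rw [div_mul_eq_mul_div, le_div_iff₀ (by positivity)]; linarith only [hrM]
    linarith only [hn1, hnm', e1, e2]
  have hmpi : 2 * Real.pi * (m : ℝ) / M ≤ Real.pi / 2 := by
    have e1 : 2 * Real.pi * (r * M / (2 * Real.pi)) / M = r := by field_simp
    have e2 : 2 * Real.pi * (m : ℝ) / M ≤ 2 * Real.pi * (r * M / (2 * Real.pi)) / M := by
      apply div_le_div_of_nonneg_right _ hM0.le
      exact mul_le_mul_of_nonneg_left (by linarith only [hn2, hmn']) (by positivity)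
    linarith only [hpi, hr0, hr1, e1, e2]
  have hB' : ∀ k < 2 * m, ang M ((B + k : ℕ) : ZMod M) = 2 * Real.pi * ((B + k : ℕ) : ℝ) / M :=
    fun k hk => (hB k (by omega)).2.2
  obtain ⟨W, hW⟩ : ∃ W, W = (Finset.range (2 * m)).image
    (fun k : ℕ => ((B + k : ℕ) : ZMod M)) := ⟨_, rfl⟩
  have hWc : (W.card : ℝ) = 2 * m := by
    rw [hW, Finset.card_image_of_injOn (block_inj hB'), Finset.card_range]; push_cast; rfl
  have hWx : ∀ x ∈ W, |Real.cos (ang M x) - e₀| ≤ r := by
    intro x hxW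
    rw [hW, Finset.mem_image] at hxW
    obtain ⟨k, hk, rfl⟩ := hxW
    have hk' := Finset.mem_range.1 hk
    obtain ⟨b1, b2, b3⟩ := hB k (by omega)
    rw [b3]
    have h5 := Real.abs_cos_sub_cos_le (2 * Real.pi * ((B + k : ℕ) : ℝ) / M) (Real.arccos e₀)
    rw [Real.cos_arccos he2.1 he2.2] at h5
    exact h5.trans (hx _ b1 b2)
  have hwgt := wgt a hmpi hB'
  rw [← hW] at hwgt
  -- the second coordinate
  haveI : Nontrivial (Fin d) := Fin.nontrivial_iff_two_le.2 (by omega)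
  obtain ⟨j, hj⟩ := exists_ne i
  have hij : i ≠ j := hj.symm
  obtain ⟨N, hN⟩ : ∃ N, N = ⌊η / 2 * M / (2 * Real.pi)⌋₊ := ⟨_, rfl⟩
  have hNη : η * M / (8 * Real.pi) ≤ N := by
    have h1 : η / 2 * M / (2 * Real.pi) < N + 1 := by rw [hN]; exact Nat.lt_floor_add_one _
    have e1 : η / 2 * M / (2 * Real.pi) = 2 * (η * M / (8 * Real.pi)) := by field_simp; ring
    have e2 : 1 ≤ η * M / (8 * Real.pi) := by
      rw [le_div_iff₀ (by positivity)]; linarith only [hCη, h8]
    linarith only [h1, e1, e2]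
  -- the main estimate
  have hmain : (N : ℝ) * ((∑ x ∈ W, Real.sin (ang M x - a) ^ 2) * (W.card : ℝ) ^ (d - 2)) ≤
      ∑ p : Tor d M, (if |es p - E| ≤ η then Real.sin (ang M (p i) - a) ^ 2 else 0) := by
    rw [split j]
    have hcard : Fintype.card {k : Fin d // k ≠ j} = d - 1 := by
      rw [Fintype.card_subtype_compl]; simp
    have h1 := prod_one W (fun x => Real.sin (ang M x - a) ^ 2)
      (⟨i, hij⟩ : {k : Fin d // k ≠ j})
    rw [hcard, show d - 1 - 1 = d - 2 by omega] at h1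
    rw [← h1, Finset.mul_sum]
    calc ∑ q ∈ Fintype.piFinset (fun _ : {k : Fin d // k ≠ j} => W),
          (N : ℝ) * Real.sin (ang M (q ⟨i, hij⟩) - a) ^ 2
        ≤ ∑ q ∈ Fintype.piFinset (fun _ : {k : Fin d // k ≠ j} => W), ∑ x : ZMod M,
          (if |es ((Equiv.funSplitAt j (ZMod M)).symm (x, q)) - E| ≤ η then
            Real.sin (ang M (((Equiv.funSplitAt j (ZMod M)).symm (x, q)) i) - a) ^ 2 else 0) := by
          apply Finset.sum_le_sum
          intro q hq
          rw [Fintype.mem_piFinset] at hq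
          have hpi' : ∀ x : ZMod M, ((Equiv.funSplitAt j (ZMod M)).symm (x, q)) i = q ⟨i, hij⟩ := by
            intro x
            simp [Equiv.funSplitAt, Equiv.piSplitAt, hij]
          have hes : ∀ x : ZMod M, es ((Equiv.funSplitAt j (ZMod M)).symm (x, q)) =
              2 * Real.cos (ang M x) + ∑ k, 2 * Real.cos (ang M (q k)) := by
            intro x
            rw [es_eq, Fintype.sum_eq_add_sum_subtype_ne _ j]
            congr 1
            · simp [Equiv.funSplitAt, Equiv.piSplitAt]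
            · apply Finset.sum_congr rfl
              intro k _
              simp [Equiv.funSplitAt, Equiv.piSplitAt, k.2]
          obtain ⟨y, hy⟩ : ∃ y, y = (E - ∑ k, 2 * Real.cos (ang M (q k))) / 2 := ⟨_, rfl⟩
          have hy1 : |y| ≤ 1 := by
            have e1 : y - e₀ = - ∑ k : {k : Fin d // k ≠ j}, (Real.cos (ang M (q k)) - e₀) := by
              rw [Finset.sum_sub_distrib, Finset.sum_const, Finset.card_univ, hcard, nsmul_eq_mul,
                hy, ← Finset.mul_sum, ← hE2, Nat.cast_sub (by omega)]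
              push_cast
              ring
            have e2 : |y - e₀| ≤ d * r := by
              rw [e1, abs_neg]
              refine (Finset.abs_sum_le_sum_abs _ _).trans ?_
              calc ∑ k : {k : Fin d // k ≠ j}, |Real.cos (ang M (q k)) - e₀|
                  ≤ ∑ _k : {k : Fin d // k ≠ j}, r := Finset.sum_le_sum fun k _ => hWx _ (hq k)
                _ = ((d - 1 : ℕ) : ℝ) * r := by
                    rw [Finset.sum_const, Finset.card_univ, hcard, nsmul_eq_mul]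
                _ ≤ d * r := by
                    apply mul_le_mul_of_nonneg_right _ hr0.le
                    exact_mod_cast Nat.sub_le d 1
            have e3 : |y| ≤ |y - e₀| + |e₀| := by
              have := abs_add_le (y - e₀) e₀
              rwa [sub_add_cancel] at this
            linarith only [he1, hdr, e2, e3]
          have hcnt := cnt (M := M) hy1 hη hη1
          rw [← hN] at hcnt
          have hw0 : 0 ≤ Real.sin (ang M (q ⟨i, hij⟩) - a) ^ 2 := sq_nonneg _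
          calc (N : ℝ) * Real.sin (ang M (q ⟨i, hij⟩) - a) ^ 2
              ≤ (∑ x : ZMod M, if |2 * Real.cos (ang M x) - 2 * y| ≤ η then (1 : ℝ) else 0) *
                Real.sin (ang M (q ⟨i, hij⟩) - a) ^ 2 := mul_le_mul_of_nonneg_right hcnt hw0
            _ = _ := by
              rw [Finset.sum_mul]
              apply Finset.sum_congr rfl
              intro x _
              rw [hpi' x, hes x]
              have e4 : 2 * Real.cos (ang M x) + ∑ k, 2 * Real.cos (ang M (q k)) - E =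
                  2 * Real.cos (ang M x) - 2 * y := by rw [hy]; ring
              rw [e4]
              split_ifs <;> ring
      _ ≤ _ := by
          apply Finset.sum_le_sum_of_subset_of_nonneg (Finset.subset_univ _)
          intro q _ _
          apply Finset.sum_nonneg
          intro x _
          split_ifs
          · exact sq_nonneg _
          · exact le_rfl
  -- conclusion
  have hpm : pm (fun p : Tor d M => if |es p - E| ≤ η then
      Real.sin (2 * Real.pi * ((p i).valMinAbs : ℝ) / M - a) ^ 2 else 0) =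
      (∑ p : Tor d M, (if |es p - E| ≤ η then Real.sin (ang M (p i) - a) ^ 2 else 0)) /
        (M : ℝ) ^ d := rfl
  rw [hpm, le_div_iff₀ (by positivity)]
  refine le_trans ?_ hmain
  have hm0 : (0 : ℝ) ≤ m := Nat.cast_nonneg m
  have hrm0 : 0 ≤ r / (8 * Real.pi) * M := by positivity
  have hsum : r / (8 * Real.pi) * M * (r ^ 2 / (8 * Real.pi ^ 2)) ≤
      ∑ x ∈ W, Real.sin (ang M x - a) ^ 2 := by
    refine le_trans ?_ hwgt
    apply mul_le_mul hmr _ (by positivity) hm0
    have h1 : r / 4 ≤ 2 * Real.pi * (m : ℝ) / M := by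
      rw [le_div_iff₀ hM0]
      calc r / 4 * M = 2 * Real.pi * (r / (8 * Real.pi) * M) := by field_simp; ring
        _ ≤ 2 * Real.pi * m := mul_le_mul_of_nonneg_left hmr (by positivity)
    calc r ^ 2 / (8 * Real.pi ^ 2) = 2 / Real.pi ^ 2 * (r / 4) ^ 2 := by field_simp; ring
      _ ≤ _ := by gcongr
  have hcardpow : (r / (8 * Real.pi) * M) ^ (d - 2) ≤ (W.card : ℝ) ^ (d - 2) := by
    rw [hWc]
    exact pow_le_pow_left₀ hrm0 (by linarith only [hmr]) _
  calc c * η * (M : ℝ) ^ d = (η * M / (8 * Real.pi)) *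
        ((r / (8 * Real.pi) * M * (r ^ 2 / (8 * Real.pi ^ 2))) *
          (r / (8 * Real.pi) * M) ^ (d - 2)) := by
        rw [hc]
        have e1 : d - 1 = (d - 2) + 1 := by omega
        have e2 : d = (d - 2) + 2 := by omega
        rw [e1]
        conv_lhs => rw [e2]
        simp only [Nat.add_sub_cancel]
        rw [pow_succ, mul_pow, pow_add]
        ring
    _ ≤ (N : ℝ) * ((∑ x ∈ W, Real.sin (ang M x - a) ^ 2) * (W.card : ℝ) ^ (d - 2)) := by
        apply mul_le_mul hNη _ (by positivity) (Nat.cast_nonneg N)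
        apply mul_le_mul hsum hcardpow (by positivity)
        exact Finset.sum_nonneg fun x _ => sq_nonneg _

end Pool.Agent.LE.QD.H69
end
end -- Pool.Agent.Helper69_LQD.DSL

section -- Pool.Agent.Helper82_LQD.INT

/-!
# Squad LQD, row INT: interpolation between `ℓ¹ → ℓ^∞` and `ℓ² → ℓ²`

Proof by the three lines theorem for
`F(z) = ∑ conj(sgn f x) |f x|^{(4/3)(1 - z/2)} T x y sgn(f y) |f y|^{(4/3)(1 - z/2)}`.
-/

set_option autoImplicit false

open scoped BigOperators

noncomputable section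

namespace Pool.Agent.LE.QD.H82

/-- `|r|^{(4/3)(1 - z/2)}` -/
def ex (r : ℝ) (z : ℂ) : ℂ := Complex.exp ((4 / 3 : ℂ) * (1 - z / 2) * (Real.log r : ℝ))

theorem ex_norm (r : ℝ) (z : ℂ) : ‖ex r z‖ = Real.exp (4 / 3 * (1 - z.re / 2) * Real.log r) := by
  unfold ex
  rw [Complex.norm_exp]
  congr 1
  simp

theorem ex_zero {r : ℝ} (hr : 0 < r) {z : ℂ} (hz : z.re = 0) : ‖ex r z‖ = r ^ (4 / 3 : ℝ) := by
  rw [ex_norm, hz, Real.rpow_def_of_pos hr]
  congr 1
  ring

theorem ex_one {r : ℝ} (hr : 0 < r) {z : ℂ} (hz : z.re = 1) : ‖ex r z‖ ^ 2 = r ^ (4 / 3 : ℝ) := by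
  rw [ex_norm, hz, Real.rpow_def_of_pos hr, ← Real.exp_nat_mul]
  congr 1
  push_cast
  ring

theorem ex_half {r : ℝ} (hr : 0 < r) : ex r (1 / 2 : ℂ) = (r : ℂ) := by
  unfold ex
  have h : (4 / 3 : ℂ) * (1 - (1 / 2 : ℂ) / 2) * (Real.log r : ℝ) = ((Real.log r : ℝ) : ℂ) := by
    ring
  rw [h, ← Complex.ofReal_exp, Real.exp_log hr]

theorem ex_bdd (r : ℝ) {z : ℂ} (h0 : 0 ≤ z.re) (h1 : z.re ≤ 1) :
    ‖ex r z‖ ≤ Real.exp (4 / 3 * |Real.log r|) := by
  rw [ex_norm]
  apply Real.exp_le_exp.2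
  have h2 : 4 / 3 * (1 - z.re / 2) * Real.log r ≤ |4 / 3 * (1 - z.re / 2) * Real.log r| :=
    le_abs_self _
  refine h2.trans ?_
  rw [abs_mul]
  have h3 : |4 / 3 * (1 - z.re / 2)| ≤ 4 / 3 := by
    rw [abs_of_nonneg (by linarith)]
    linarith
  exact mul_le_mul_of_nonneg_right h3 (abs_nonneg _)

/-- the analytic family -/
def ph {X : Type} (f : X → ℂ) (z : ℂ) (x : X) : ℂ := f x / (‖f x‖ : ℂ) * ex ‖f x‖ z

/-- the conjugate family (analytic in `z`) -/
def pc {X : Type} (f : X → ℂ) (z : ℂ) (x : X) : ℂ :=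
  (starRingEnd ℂ) (f x / (‖f x‖ : ℂ)) * ex ‖f x‖ z

theorem sg_norm (w : ℂ) : w ≠ 0 → ‖w / (‖w‖ : ℂ)‖ = 1 := by
  intro hw
  rw [norm_div, Complex.norm_real, norm_norm, div_self (norm_ne_zero_iff.2 hw)]

theorem ph_norm {X : Type} (f : X → ℂ) (z : ℂ) (x : X) :
    ‖ph f z x‖ = if f x = 0 then 0 else ‖ex ‖f x‖ z‖ := by
  unfold ph
  split_ifs with h
  · rw [h]; simp
  · rw [norm_mul, sg_norm _ h, one_mul]

theorem pc_norm {X : Type} (f : X → ℂ) (z : ℂ) (x : X) : ‖pc f z x‖ = ‖ph f z x‖ := by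
  unfold pc ph
  rw [norm_mul, norm_mul, RCLike.norm_conj]

theorem ph_zero {X : Type} (f : X → ℂ) {z : ℂ} (hz : z.re = 0) (x : X) :
    ‖ph f z x‖ = ‖f x‖ ^ (4 / 3 : ℝ) := by
  rw [ph_norm]
  split_ifs with h
  · rw [h, norm_zero, Real.zero_rpow (by norm_num)]
  · exact ex_zero (norm_pos_iff.2 h) hz

theorem ph_one {X : Type} (f : X → ℂ) {z : ℂ} (hz : z.re = 1) (x : X) :
    ‖ph f z x‖ ^ 2 = ‖f x‖ ^ (4 / 3 : ℝ) := by
  rw [ph_norm]
  split_ifs with h
  · rw [h, norm_zero, Real.zero_rpow (by norm_num)]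
    norm_num
  · exact ex_one (norm_pos_iff.2 h) hz

theorem ph_half {X : Type} (f : X → ℂ) (x : X) : ph f (1 / 2 : ℂ) x = f x := by
  unfold ph
  by_cases h : f x = 0
  · rw [h]; simp
  · rw [ex_half (norm_pos_iff.2 h)]
    have h1 : (‖f x‖ : ℂ) ≠ 0 := by
      exact_mod_cast norm_ne_zero_iff.2 h
    field_simp

theorem pc_half {X : Type} (f : X → ℂ) (x : X) :
    pc f (1 / 2 : ℂ) x = (starRingEnd ℂ) (f x) := by
  unfold pc
  by_cases h : f x = 0
  · rw [h]; simp
  · rw [ex_half (norm_pos_iff.2 h)]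
    have h1 : (‖f x‖ : ℂ) ≠ 0 := by
      exact_mod_cast norm_ne_zero_iff.2 h
    rw [map_div₀, Complex.conj_ofReal]
    field_simp

theorem ph_bdd {X : Type} (f : X → ℂ) {z : ℂ} (h0 : 0 ≤ z.re) (h1 : z.re ≤ 1) (x : X) :
    ‖ph f z x‖ ≤ Real.exp (4 / 3 * |Real.log ‖f x‖|) := by
  rw [ph_norm]
  split_ifs with h
  · exact (Real.exp_pos _).le
  · exact ex_bdd _ h0 h1

theorem ex_diff (r : ℝ) : Differentiable ℂ (ex r) := by
  unfold ex
  fun_prop

/-- INT -/
theorem int : IntStmt := by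
  refine ⟨1, le_refl _, ?_⟩
  intro X _ T f A B hA hB hT hA2
  obtain ⟨S, hS⟩ : ∃ S : ℝ, S = ∑ x, ‖f x‖ ^ (4 / 3 : ℝ) := ⟨_, rfl⟩
  have hS0 : 0 ≤ S := by
    rw [hS]
    exact Finset.sum_nonneg fun x _ => Real.rpow_nonneg (norm_nonneg _) _
  obtain ⟨F, hF⟩ : ∃ F : ℂ → ℂ, F = fun z => ∑ x, ∑ y, pc f z x * (T x y * ph f z y) := ⟨_, rfl⟩
  have hdiff : Differentiable ℂ F := by
    rw [hF]
    refine Differentiable.fun_sum fun x _ => Differentiable.fun_sum fun y _ => ?_
    have h1 : Differentiable ℂ fun z => pc f z x := (ex_diff _).const_mul _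
    have h2 : Differentiable ℂ fun z => ph f z y := (ex_diff _).const_mul _
    exact h1.mul (h2.const_mul _)
  have hle : ∀ z, ‖F z‖ ≤ ∑ x, ∑ y, ‖ph f z x‖ * (B * ‖ph f z y‖) := by
    intro z
    rw [hF]
    refine (norm_sum_le _ _).trans (Finset.sum_le_sum fun x _ => ?_)
    refine (norm_sum_le _ _).trans (Finset.sum_le_sum fun y _ => ?_)
    rw [norm_mul, norm_mul, pc_norm]
    exact mul_le_mul_of_nonneg_left (mul_le_mul_of_nonneg_right (hT x y) (norm_nonneg _))
      (norm_nonneg _)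
  have hbdd : BddAbove ((norm ∘ F) '' Complex.HadamardThreeLines.verticalClosedStrip 0 1) := by
    refine ⟨∑ x, ∑ y, Real.exp (4 / 3 * |Real.log ‖f x‖|) *
      (B * Real.exp (4 / 3 * |Real.log ‖f y‖|)), ?_⟩
    rintro _ ⟨z, hz, rfl⟩
    refine (hle z).trans (Finset.sum_le_sum fun x _ => Finset.sum_le_sum fun y _ => ?_)
    have hz0 : 0 ≤ z.re := hz.1
    have hz1 : z.re ≤ 1 := hz.2
    refine mul_le_mul (ph_bdd f hz0 hz1 x) (mul_le_mul_of_nonneg_left (ph_bdd f hz0 hz1 y) hB)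
      (mul_nonneg hB (norm_nonneg _)) (Real.exp_pos _).le
  have h0 : ∀ z ∈ Complex.re ⁻¹' {(0 : ℝ)}, ‖F z‖ ≤ B * S ^ 2 := by
    intro z hz
    have hz' : z.re = 0 := hz
    refine (hle z).trans (le_of_eq ?_)
    simp only [ph_zero f hz']
    rw [hS, sq, Finset.sum_mul_sum, Finset.mul_sum]
    refine Finset.sum_congr rfl fun x _ => ?_
    rw [Finset.mul_sum]
    refine Finset.sum_congr rfl fun y _ => ?_
    ring
  have h1 : ∀ z ∈ Complex.re ⁻¹' {(1 : ℝ)}, ‖F z‖ ≤ A * S := by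
    intro z hz
    have hz' : z.re = 1 := hz
    have h2 := hA2 (fun x => (starRingEnd ℂ) (pc f z x)) (ph f z)
    have h3 : n2 (fun x => (starRingEnd ℂ) (pc f z x)) = S := by
      unfold n2
      rw [hS]
      refine Finset.sum_congr rfl fun x _ => ?_
      rw [RCLike.norm_conj, pc_norm, ph_one f hz']
    have h4 : n2 (ph f z) = S := by
      unfold n2
      rw [hS]
      exact Finset.sum_congr rfl fun x _ => ph_one f hz' x
    rw [h3, h4, Real.mul_self_sqrt hS0] at h2
    simp only [Complex.conj_conj] at h2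
    rw [hF]
    exact h2
  have hmem : (1 / 2 : ℂ) ∈ Complex.HadamardThreeLines.verticalClosedStrip 0 1 := by
    change (1 / 2 : ℂ).re ∈ Set.Icc (0 : ℝ) 1
    norm_num
  have hmain := Complex.HadamardThreeLines.norm_le_interp_of_mem_verticalClosedStrip₀₁' F hmem
    hdiff.diffContOnCl hbdd h0 h1
  have hFh : F (1 / 2 : ℂ) = ∑ x, ∑ y, (starRingEnd ℂ) (f x) * (T x y * f y) := by
    rw [hF]
    simp only [ph_half, pc_half]
  rw [hFh] at hmain
  have hre : (1 / 2 : ℂ).re = 1 / 2 := by norm_num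
  rw [hre] at hmain
  refine hmain.trans (le_of_eq ?_)
  have e1 : (1 : ℝ) - 1 / 2 = 1 / 2 := by norm_num
  rw [e1, ← hS, one_mul, Real.sqrt_eq_rpow, Real.mul_rpow hB (sq_nonneg _),
    Real.mul_rpow hA hS0, Real.mul_rpow hA hB, ← Real.rpow_natCast, ← Real.rpow_mul hS0]
  have e2 : ((2 : ℕ) : ℝ) * (1 / 2) = 1 := by norm_num
  rw [e2, Real.rpow_one]
  have e3 : S ^ (3 / 2 : ℝ) = S * S ^ (1 / 2 : ℝ) := by
    rcases hS0.eq_or_lt with h | h
    · rw [← h, Real.zero_rpow (by norm_num), zero_mul]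
    · have e4 : (3 / 2 : ℝ) = 1 + 1 / 2 := by norm_num
      rw [e4, Real.rpow_add h, Real.rpow_one]
  rw [e3]
  ring

end Pool.Agent.LE.QD.H82
end
end -- Pool.Agent.Helper82_LQD.INT

section -- Pool.Agent.Helper90_LQD.BE2

/-!
# BE2: the mean square of the Bessel kernel over a dyadic block
-/

set_option autoImplicit false

open MeasureTheory Set Function

noncomputable section

namespace Pool.Agent.LE.QD.H90

/-- Fubini for continuous functions on a rectangle. -/
theorem swap2 (f : ℝ → ℝ → ℂ) (hf : Continuous (uncurry f)) {a b c d : ℝ} (hab : a ≤ b)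
    (hcd : c ≤ d) :
    ∫ x in a..b, ∫ y in c..d, f x y = ∫ y in c..d, ∫ x in a..b, f x y := by
  simp only [intervalIntegral.integral_of_le hab, intervalIntegral.integral_of_le hcd]
  refine integral_integral_swap ?_
  rw [Measure.prod_restrict]
  exact (hf.continuousOn.integrableOn_compact (isCompact_Icc.prod isCompact_Icc)).mono_set
    (prod_mono Ioc_subset_Icc_self Ioc_subset_Icc_self)

/-- the weight -/
def wt (R t : ℝ) : ℝ := 1 - t ^ 2 / R ^ 2

/-- its Fourier transform -/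
theorem wt_hat {R : ℝ} (hR : 1 ≤ R) (u : ℝ) :
    ‖∫ t in (-R)..R, (wt R t : ℂ) * Complex.exp (Complex.I * ((t * u : ℝ) : ℂ))‖ ≤
      16 * R / (1 + R ^ 2 * u ^ 2) := by
  have hR0 : 0 < R := by linarith
  have hpos : 0 < 1 + R ^ 2 * u ^ 2 := by positivity
  by_cases hu : R * |u| ≤ 1
  · -- trivial bound
    have h1 : ‖∫ t in (-R)..R, (wt R t : ℂ) * Complex.exp (Complex.I * ((t * u : ℝ) : ℂ))‖ ≤
        1 * |R - (-R)| := by
      refine intervalIntegral.norm_integral_le_of_norm_le_const fun t ht => ?_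
      rw [uIoc_of_le (by linarith only [hR])] at ht
      rw [norm_mul, mul_comm Complex.I, Complex.norm_exp_ofReal_mul_I, mul_one, Complex.norm_real,
        Real.norm_eq_abs, wt, abs_le]
      have h2 : t ^ 2 / R ^ 2 ≤ 1 := by
        rw [div_le_one (by positivity)]
        nlinarith only [ht.1, ht.2]
      have h3 : 0 ≤ t ^ 2 / R ^ 2 := by positivity
      constructor <;> linarith
    have h2 : R ^ 2 * u ^ 2 ≤ 1 := by
      have : (R * |u|) ^ 2 ≤ 1 := by
        have h0 : 0 ≤ R * |u| := by positivity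
        nlinarith only [hu, h0]
      rwa [mul_pow, sq_abs] at this
    have h3 : |R - (-R)| = 2 * R := by
      rw [abs_of_nonneg (by linarith only [hR])]
      ring
    rw [h3] at h1
    refine h1.trans ?_
    rw [le_div_iff₀ hpos]
    nlinarith only [hR, h2]
  · have hu1 : 1 < R * |u| := not_le.1 hu
    have hu0 : u ≠ 0 := by
      rintro rfl
      norm_num at hu1
    have hua : 0 < |u| := abs_pos.2 hu0
    have huc : (u : ℂ) ≠ 0 := by exact_mod_cast hu0
    have hRc : (R : ℂ) ≠ 0 := by exact_mod_cast hR0.ne'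
    -- antiderivative
    let F : ℝ → ℂ := fun t => Complex.exp (Complex.I * ((t : ℂ) * u)) *
      ((1 - (t : ℂ) ^ 2 / R ^ 2) / (Complex.I * u) - 2 * (t : ℂ) / (R ^ 2 * u ^ 2) -
        2 * Complex.I / (R ^ 2 * (u : ℂ) ^ 3))
    have hF : ∀ t : ℝ, HasDerivAt F
        ((wt R t : ℂ) * Complex.exp (Complex.I * ((t * u : ℝ) : ℂ))) t := by
      intro t
      have hid : HasDerivAt (fun s : ℝ => (s : ℂ)) 1 t := Complex.ofRealCLM.hasDerivAt
      have h1 : HasDerivAt (fun s : ℝ => Complex.exp (Complex.I * ((s : ℂ) * u)))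
          (Complex.exp (Complex.I * ((t : ℂ) * u)) * (Complex.I * (1 * u))) t :=
        ((hid.mul_const (u : ℂ)).const_mul Complex.I).cexp
      have h2 : HasDerivAt (fun s : ℝ => (1 - (s : ℂ) ^ 2 / R ^ 2) / (Complex.I * u) -
          2 * (s : ℂ) / (R ^ 2 * u ^ 2) - 2 * Complex.I / (R ^ 2 * (u : ℂ) ^ 3))
          ((0 - ((2 : ℕ) * (t : ℂ) ^ (2 - 1) * 1) / R ^ 2) / (Complex.I * u) -
          2 * 1 / (R ^ 2 * u ^ 2)) t := by
        refine HasDerivAt.sub_const _ (HasDerivAt.sub ?_ ?_)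
        · exact (((hasDerivAt_const t (1 : ℂ)).sub ((hid.pow 2).div_const _)).div_const _)
        · exact ((hid.const_mul (2 : ℂ)).div_const _)
      have h3 := h1.mul h2
      refine h3.congr_deriv ?_
      rw [wt]
      push_cast
      have hI : Complex.I ^ 3 = -Complex.I := Complex.I_pow_three
      field_simp
      ring_nf
      simp only [hI, Complex.I_sq]
      ring
    have hcont : Continuous fun t : ℝ =>
        (wt R t : ℂ) * Complex.exp (Complex.I * ((t * u : ℝ) : ℂ)) := by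
      unfold wt
      fun_prop
    have hint := intervalIntegral.integral_eq_sub_of_hasDerivAt
      (fun t _ => hF t) (hcont.intervalIntegrable (-R) R)
    have hnorm : ∀ t : ℝ, |t| = R → ‖F t‖ ≤ 4 / (R * u ^ 2) := by
      intro t ht
      have ht2 : t ^ 2 = R ^ 2 := by rw [← sq_abs, ht]
      have ht2c : (t : ℂ) ^ 2 = (R : ℂ) ^ 2 := by exact_mod_cast ht2
      have he : ‖Complex.exp (Complex.I * ((t : ℂ) * u))‖ = 1 := by
        have : Complex.I * ((t : ℂ) * u) = ((t * u : ℝ) : ℂ) * Complex.I := by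
          push_cast
          ring
        rw [this, Complex.norm_exp_ofReal_mul_I]
      have hval : (1 - (t : ℂ) ^ 2 / R ^ 2) / (Complex.I * u) - 2 * (t : ℂ) / (R ^ 2 * u ^ 2) -
          2 * Complex.I / (R ^ 2 * (u : ℂ) ^ 3) =
          - (2 * (t : ℂ) / (R ^ 2 * u ^ 2) + 2 * Complex.I / (R ^ 2 * (u : ℂ) ^ 3)) := by
        rw [ht2c, div_self (pow_ne_zero 2 hRc)]
        ring
      show ‖Complex.exp (Complex.I * ((t : ℂ) * u)) * _‖ ≤ _
      rw [norm_mul, he, one_mul, hval, norm_neg]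
      have e1 : ‖2 * (t : ℂ) / (R ^ 2 * u ^ 2)‖ = 2 / (R * u ^ 2) := by
        rw [norm_div, norm_mul, norm_mul, norm_pow, norm_pow, Complex.norm_real, Complex.norm_real,
          Complex.norm_real, Real.norm_eq_abs, Real.norm_eq_abs, Real.norm_eq_abs, ht, sq_abs,
          sq_abs]
        norm_num
        field_simp
      have e2 : ‖2 * Complex.I / (R ^ 2 * (u : ℂ) ^ 3)‖ = 2 / (R ^ 2 * |u| ^ 3) := by
        rw [norm_div, norm_mul, norm_mul, norm_pow, norm_pow, Complex.norm_real,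
          Complex.norm_real, Complex.norm_I, Real.norm_eq_abs, Real.norm_eq_abs, sq_abs]
        norm_num
      have e3 : 2 / (R ^ 2 * |u| ^ 3) ≤ 2 / (R * u ^ 2) := by
        apply div_le_div_of_nonneg_left (by norm_num) (by positivity)
        have : R ^ 2 * |u| ^ 3 = (R * |u|) * (R * u ^ 2) := by
          rw [← sq_abs u]
          ring
        rw [this]
        nlinarith only [mul_pos hR0 (pow_pos hua 2), sq_abs u, hR, hu, this]
      calc _ ≤ ‖2 * (t : ℂ) / (R ^ 2 * u ^ 2)‖ + ‖2 * Complex.I / (R ^ 2 * (u : ℂ) ^ 3)‖ :=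
            norm_add_le _ _
        _ ≤ 2 / (R * u ^ 2) + 2 / (R * u ^ 2) := by
            rw [e1, e2]
            linarith only [e3]
        _ = 4 / (R * u ^ 2) := by ring
    rw [hint]
    have h1 := hnorm R (abs_of_pos hR0)
    have h2 := hnorm (-R) (by rw [abs_neg, abs_of_pos hR0])
    have h3 : ‖F R - F (-R)‖ ≤ 8 / (R * u ^ 2) := by
      calc _ ≤ ‖F R‖ + ‖F (-R)‖ := norm_sub_le _ _
        _ ≤ 4 / (R * u ^ 2) + 4 / (R * u ^ 2) := add_le_add h1 h2
        _ = _ := by ring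
    refine h3.trans ?_
    have hu2 : 0 < u ^ 2 := by positivity
    rw [div_le_div_iff₀ (by positivity) hpos]
    have h4 : 1 ≤ R ^ 2 * u ^ 2 := by
      have : 1 < (R * |u|) ^ 2 := by nlinarith only [hu]
      rw [mul_pow, sq_abs] at this
      exact this.le
    nlinarith only [h4]

/-- `∫ 1 / (1 + (a (θ - b))²)` -/
theorem int_arctan {a : ℝ} (ha : 0 < a) (b p q : ℝ) :
    ∫ x in p..q, 1 / (1 + (a * (x - b)) ^ 2) ≤ Real.pi / a := by
  have hd : ∀ x : ℝ, HasDerivAt (fun x : ℝ => Real.arctan (a * (x - b)) / a)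
      (1 / (1 + (a * (x - b)) ^ 2)) x := by
    intro x
    have h1 : HasDerivAt (fun x : ℝ => a * (x - b)) (a * 1) x :=
      ((hasDerivAt_id x).sub_const b).const_mul a
    have h2 := (h1.arctan).div_const a
    refine h2.congr_deriv ?_
    field_simp
  have hc : Continuous fun x : ℝ => 1 / (1 + (a * (x - b)) ^ 2) := by
    refine continuous_const.div (by fun_prop) fun x => ?_
    positivity
  rw [intervalIntegral.integral_eq_sub_of_hasDerivAt (fun x _ => hd x) (hc.intervalIntegrable _ _),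
    ← sub_div]
  refine div_le_div_of_nonneg_right ?_ ha.le
  have h1 := Real.arctan_lt_pi_div_two (a * (q - b))
  have h2 := Real.neg_pi_div_two_lt_arctan (a * (p - b))
  linarith only [h1, h2]

/-- the integral over `θ` -/
theorem inner_bound {c : ℝ} (hc : 0 ≤ c) :
    ∫ θ in (0 : ℝ)..(2 * Real.pi), 1 / (1 + c ^ 2 * Real.sin θ ^ 2) ≤ 30 / (1 + c) := by
  have hpi := Real.pi_pos
  have hpi4 : Real.pi < 3.15 := Real.pi_lt_d2
  have hcont : Continuous fun θ : ℝ => 1 / (1 + c ^ 2 * Real.sin θ ^ 2) := by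
    refine continuous_const.div (by fun_prop) fun x => ?_
    positivity
  rcases le_or_gt c 1 with h1 | h1
  · have h2 : ∫ θ in (0 : ℝ)..(2 * Real.pi), 1 / (1 + c ^ 2 * Real.sin θ ^ 2) ≤
        ∫ θ in (0 : ℝ)..(2 * Real.pi), (1 : ℝ) := by
      refine intervalIntegral.integral_mono_on (by positivity) (hcont.intervalIntegrable _ _)
        (continuous_const.intervalIntegrable _ _) fun x _ => ?_
      rw [div_le_one (by positivity)]
      have : 0 ≤ c ^ 2 * Real.sin x ^ 2 := by positivity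
      linarith only [this]
    refine h2.trans ?_
    rw [intervalIntegral.integral_const, smul_eq_mul, mul_one, le_div_iff₀ (by positivity)]
    nlinarith only [hc, hpi4, h1]
  · have hc0 : 0 < c := by linarith
    set a : ℝ := 2 / Real.pi * c with ha
    have ha0 : 0 < a := by positivity
    have hterm : ∀ b : ℝ, Continuous fun x : ℝ => 1 / (1 + (a * (x - b)) ^ 2) := by
      intro b
      refine continuous_const.div (by fun_prop) fun x => ?_
      positivity
    have hpt : ∀ x ∈ Icc (0 : ℝ) (2 * Real.pi), 1 / (1 + c ^ 2 * Real.sin x ^ 2) ≤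
        1 / (1 + (a * (x - 0)) ^ 2) + 1 / (1 + (a * (x - Real.pi)) ^ 2) +
          1 / (1 + (a * (x - 2 * Real.pi)) ^ 2) := by
      intro x hx
      have key : ∀ y : ℝ, |y| ≤ Real.pi / 2 → Real.sin x ^ 2 = Real.sin y ^ 2 →
          1 / (1 + c ^ 2 * Real.sin x ^ 2) ≤ 1 / (1 + (a * y) ^ 2) := by
        intro y hy hs
        rw [hs]
        have h3 := Real.mul_abs_le_abs_sin hy
        have h4 : (2 / Real.pi * |y|) ^ 2 ≤ |Real.sin y| ^ 2 :=
          pow_le_pow_left₀ (by positivity) h3 2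
        rw [sq_abs] at h4
        apply one_div_le_one_div_of_le (by positivity)
        have h5 : (a * y) ^ 2 = c ^ 2 * (2 / Real.pi * |y|) ^ 2 := by
          rw [ha, mul_pow (2 / Real.pi) |y|, sq_abs]
          ring
        rw [h5]
        have := mul_le_mul_of_nonneg_left h4 (sq_nonneg c)
        linarith only [this]
      have p0 : 0 ≤ 1 / (1 + (a * (x - 0)) ^ 2) := by positivity
      have p1 : 0 ≤ 1 / (1 + (a * (x - Real.pi)) ^ 2) := by positivity
      have p2 : 0 ≤ 1 / (1 + (a * (x - 2 * Real.pi)) ^ 2) := by positivity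
      rcases le_or_gt x (Real.pi / 2) with h | h
      · have := key (x - 0) (by rw [sub_zero, abs_of_nonneg hx.1]; exact h) (by rw [sub_zero])
        linarith only [p1, p2, this]
      · rcases le_or_gt x (3 * Real.pi / 2) with h' | h'
        · have := key (x - Real.pi) (by rw [abs_le]; constructor <;> linarith)
            (by rw [Real.sin_sub_pi, neg_sq])
          linarith
        · have := key (x - 2 * Real.pi) (by
            rw [abs_le]
            constructor
            · linarith only [h']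
            · have := hx.2
              linarith only [hpi, this]) (by rw [Real.sin_sub_two_pi])
          linarith only [p0, p1, this]
    have h2 : ∫ θ in (0 : ℝ)..(2 * Real.pi), 1 / (1 + c ^ 2 * Real.sin θ ^ 2) ≤
        ∫ x in (0 : ℝ)..(2 * Real.pi), (1 / (1 + (a * (x - 0)) ^ 2) +
          1 / (1 + (a * (x - Real.pi)) ^ 2) + 1 / (1 + (a * (x - 2 * Real.pi)) ^ 2)) :=
      intervalIntegral.integral_mono_on (by positivity) (hcont.intervalIntegrable _ _)
        ((((hterm 0).add (hterm Real.pi)).add (hterm (2 * Real.pi))).intervalIntegrable _ _) hpt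
    have h01 : Continuous fun x : ℝ => 1 / (1 + (a * (x - 0)) ^ 2) +
        1 / (1 + (a * (x - Real.pi)) ^ 2) := (hterm 0).add (hterm Real.pi)
    rw [intervalIntegral.integral_add (h01.intervalIntegrable _ _)
      ((hterm (2 * Real.pi)).intervalIntegrable _ _),
      intervalIntegral.integral_add ((hterm 0).intervalIntegrable _ _)
      ((hterm Real.pi).intervalIntegrable _ _)] at h2
    have q0 := int_arctan ha0 0 0 (2 * Real.pi)
    have q1 := int_arctan ha0 Real.pi 0 (2 * Real.pi)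
    have q2 := int_arctan ha0 (2 * Real.pi) 0 (2 * Real.pi)
    have h3 : Real.pi / a = Real.pi ^ 2 / (2 * c) := by
      rw [ha]
      field_simp
    have h4 : 3 * (Real.pi ^ 2 / (2 * c)) ≤ 30 / (1 + c) := by
      rw [← mul_div_assoc, div_le_div_iff₀ (by positivity) (by positivity)]
      have : Real.pi ^ 2 ≤ 10 := by nlinarith only [hpi, hpi4]
      nlinarith only [hc, h1, this]
    linarith only [h2, q0, q1, q2, h3, h4]

/-- `∫ 1 / (1 + R u)` -/
theorem int_log {R : ℝ} (hR : 0 < R) :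
    ∫ u in (0 : ℝ)..(2 * Real.pi), 1 / (1 + R * u) = Real.log (1 + R * (2 * Real.pi)) / R := by
  have hpi := Real.pi_pos
  have hd : ∀ x ∈ uIcc (0 : ℝ) (2 * Real.pi), HasDerivAt (fun x : ℝ => Real.log (1 + R * x) / R)
      (1 / (1 + R * x)) x := by
    intro x hx
    rw [uIcc_of_le (by positivity)] at hx
    have hx0 : 0 < 1 + R * x := by
      have := mul_nonneg hR.le hx.1
      linarith only [this]
    have h1 : HasDerivAt (fun x : ℝ => 1 + R * x) (R * 1) x :=
      ((hasDerivAt_id x).const_mul R).const_add 1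
    have h2 := (h1.log hx0.ne').div_const R
    refine h2.congr_deriv ?_
    field_simp
  have hc : ContinuousOn (fun x : ℝ => 1 / (1 + R * x)) (uIcc (0 : ℝ) (2 * Real.pi)) := by
    refine continuousOn_const.div (by fun_prop) fun x hx => ?_
    rw [uIcc_of_le (by positivity)] at hx
    have := mul_nonneg hR.le hx.1
    linarith
  rw [intervalIntegral.integral_eq_sub_of_hasDerivAt hd hc.intervalIntegrable]
  simp

/-- the integral over `u` -/
theorem outer_bound {R : ℝ} (hR : 0 < R) :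
    ∫ u in (0 : ℝ)..(2 * Real.pi), 1 / (1 + 4 * R * |Real.sin (u / 2)|) ≤
      2 * (Real.log (1 + R * (2 * Real.pi)) / R) := by
  have hpi := Real.pi_pos
  have hpi4 : Real.pi < 4 := by linarith only [Real.pi_lt_d2]
  have hcont : Continuous fun u : ℝ => 1 / (1 + 4 * R * |Real.sin (u / 2)|) := by
    refine continuous_const.div (by fun_prop) fun x => ?_
    positivity
  have hc1 : ContinuousOn (fun x : ℝ => 1 / (1 + R * x)) (uIcc (0 : ℝ) (2 * Real.pi)) := by
    refine continuousOn_const.div (by fun_prop) fun x hx => ?_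
    rw [uIcc_of_le (by positivity)] at hx
    have := mul_nonneg hR.le hx.1
    linarith
  have hc2 : ContinuousOn (fun x : ℝ => 1 / (1 + R * (2 * Real.pi - x)))
      (uIcc (0 : ℝ) (2 * Real.pi)) := by
    refine continuousOn_const.div (by fun_prop) fun x hx => ?_
    rw [uIcc_of_le (by positivity)] at hx
    have := mul_nonneg hR.le (sub_nonneg.2 hx.2)
    linarith
  have h2 : ∫ u in (0 : ℝ)..(2 * Real.pi), 1 / (1 + 4 * R * |Real.sin (u / 2)|) ≤
      ∫ u in (0 : ℝ)..(2 * Real.pi), (1 / (1 + R * u) + 1 / (1 + R * (2 * Real.pi - u))) := by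
    refine intervalIntegral.integral_mono_on (by positivity) (hcont.intervalIntegrable _ _)
      (hc1.intervalIntegrable.add hc2.intervalIntegrable) fun u hu => ?_
    have p1 : 0 ≤ R * u := mul_nonneg hR.le hu.1
    have p2 : 0 ≤ R * (2 * Real.pi - u) := mul_nonneg hR.le (sub_nonneg.2 hu.2)
    have key : ∀ y : ℝ, 0 ≤ y → y ≤ Real.pi → |Real.sin (u / 2)| = |Real.sin (y / 2)| →
        1 / (1 + 4 * R * |Real.sin (u / 2)|) ≤ 1 / (1 + R * y) := by
      intro y hy0 hy hs
      rw [hs]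
      have h3 := Real.mul_abs_le_abs_sin (x := y / 2) (by
        rw [abs_of_nonneg (by linarith only [hy0])]
        linarith)
      rw [abs_of_nonneg (by linarith only [hy0] : (0 : ℝ) ≤ y / 2)] at h3
      apply one_div_le_one_div_of_le (by positivity)
      have h4 : y / 4 ≤ 2 / Real.pi * (y / 2) := by
        rw [div_mul_div_comm, div_le_div_iff₀ (by norm_num) (by positivity)]
        nlinarith only [hpi4, hy0]
      have h5 := mul_le_mul_of_nonneg_left (h4.trans h3) (by positivity : (0 : ℝ) ≤ 4 * R)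
      linarith only [h5]
    have q1 : 0 ≤ 1 / (1 + R * u) := by positivity
    have q2 : 0 ≤ 1 / (1 + R * (2 * Real.pi - u)) := by positivity
    rcases le_or_gt u Real.pi with h | h
    · have := key u hu.1 h rfl
      linarith only [q2, this]
    · have := key (2 * Real.pi - u) (sub_nonneg.2 hu.2) (by linarith) (by
        rw [show (2 * Real.pi - u) / 2 = Real.pi - u / 2 by ring, Real.sin_pi_sub])
      linarith only [q1, this]
  refine h2.trans (le_of_eq ?_)
  rw [intervalIntegral.integral_add hc1.intervalIntegrable hc2.intervalIntegrable,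
    intervalIntegral.integral_comp_sub_left (fun x : ℝ => 1 / (1 + R * x)) (2 * Real.pi), sub_self,
    sub_zero, int_log hR]
  ring

/-- the exponential -/
def Ex (n : ℤ) (t θ : ℝ) : ℂ :=
  Complex.exp (Complex.I * ((n * θ + 2 * t * Real.cos θ : ℝ) : ℂ))

theorem ex_cont (n : ℤ) : Continuous (uncurry (Ex n)) := by
  unfold Ex uncurry
  fun_prop

theorem ex_per (n : ℤ) (t : ℝ) : Function.Periodic (Ex n t) (2 * Real.pi) := by
  intro θ
  unfold Ex
  rw [Real.cos_add_two_pi]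
  have : Complex.I * ((n * (θ + 2 * Real.pi) + 2 * t * Real.cos θ : ℝ) : ℂ) =
      Complex.I * ((n * θ + 2 * t * Real.cos θ : ℝ) : ℂ) + n * (2 * Real.pi * Complex.I) := by
    push_cast
    ring
  rw [this, Complex.exp_periodic.int_mul n]

theorem ex_mul (n : ℤ) (t θ u : ℝ) :
    Ex n t (θ + u / 2) * (starRingEnd ℂ) (Ex n t (θ + u / 2 - u)) =
      Complex.exp (Complex.I * ((n * u : ℝ) : ℂ)) *
        Complex.exp (Complex.I * ((t * (-(4 * Real.sin θ * Real.sin (u / 2))) : ℝ) : ℂ)) := by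
  unfold Ex
  rw [← Complex.exp_conj, map_mul, Complex.conj_I, Complex.conj_ofReal, ← Complex.exp_add,
    ← Complex.exp_add]
  congr 1
  have h1 : θ + u / 2 - u = θ - u / 2 := by ring
  rw [h1, neg_mul, ← sub_eq_add_neg, ← mul_sub, ← mul_add]
  congr 1
  rw [← Complex.ofReal_sub, ← Complex.ofReal_add]
  congr 1
  rw [Real.cos_add, Real.cos_sub]
  ring

/-- the square of the norm as a double integral -/
theorem sq_eq (n : ℤ) (t : ℝ) :
    ((‖∫ θ in (0 : ℝ)..(2 * Real.pi), Ex n t θ‖ ^ 2 : ℝ) : ℂ) =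
      ∫ u in (0 : ℝ)..(2 * Real.pi), ∫ θ in (0 : ℝ)..(2 * Real.pi),
        Complex.exp (Complex.I * ((n * u : ℝ) : ℂ)) *
          Complex.exp (Complex.I * ((t * (-(4 * Real.sin θ * Real.sin (u / 2))) : ℝ) : ℂ)) := by
  have hpi := Real.pi_pos
  have hE : Continuous (Ex n t) := by
    unfold Ex
    fun_prop
  have hconj : (starRingEnd ℂ) (∫ θ in (0 : ℝ)..(2 * Real.pi), Ex n t θ) =
      ∫ θ in (0 : ℝ)..(2 * Real.pi), (starRingEnd ℂ) (Ex n t θ) := by
    rw [intervalIntegral.integral_of_le (by positivity),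
      intervalIntegral.integral_of_le (by positivity), integral_conj]
  have hper : Function.Periodic (fun θ => (starRingEnd ℂ) (Ex n t θ)) (2 * Real.pi) := fun θ => by
    show (starRingEnd ℂ) (Ex n t (θ + 2 * Real.pi)) = (starRingEnd ℂ) (Ex n t θ)
    rw [ex_per n t θ]
  have hshift : ∀ θ : ℝ, ∫ x in (0 : ℝ)..(2 * Real.pi), (starRingEnd ℂ) (Ex n t x) =
      ∫ u in (0 : ℝ)..(2 * Real.pi), (starRingEnd ℂ) (Ex n t (θ - u)) := by
    intro θ
    rw [intervalIntegral.integral_comp_sub_left (fun x : ℝ => (starRingEnd ℂ) (Ex n t x)) θ,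
      sub_zero]
    have h1 := hper.intervalIntegral_add_eq (θ - 2 * Real.pi) 0
    rw [sub_add_cancel, zero_add] at h1
    exact h1.symm
  have h1 : ((‖∫ θ in (0 : ℝ)..(2 * Real.pi), Ex n t θ‖ ^ 2 : ℝ) : ℂ) =
      ∫ θ in (0 : ℝ)..(2 * Real.pi), ∫ u in (0 : ℝ)..(2 * Real.pi),
        Ex n t θ * (starRingEnd ℂ) (Ex n t (θ - u)) := by
    rw [Complex.ofReal_pow, ← Complex.mul_conj', hconj, ← intervalIntegral.integral_mul_const]
    refine intervalIntegral.integral_congr fun θ _ => ?_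
    rw [intervalIntegral.integral_const_mul, ← hshift θ]
  rw [h1, swap2 _ _ (by positivity) (by positivity)]
  · refine intervalIntegral.integral_congr fun u _ => ?_
    have hperG : Function.Periodic (fun θ => Ex n t θ * (starRingEnd ℂ) (Ex n t (θ - u)))
        (2 * Real.pi) := fun θ => by
      show Ex n t (θ + 2 * Real.pi) * (starRingEnd ℂ) (Ex n t (θ + 2 * Real.pi - u)) = _
      rw [ex_per n t θ, add_sub_right_comm, ex_per n t (θ - u)]
    have h2 := hperG.intervalIntegral_add_eq 0 (u / 2)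
    rw [zero_add] at h2
    rw [h2, ← intervalIntegral.integral_congr fun θ _ => ex_mul n t θ u,
      intervalIntegral.integral_comp_add_right
        (fun θ : ℝ => Ex n t θ * (starRingEnd ℂ) (Ex n t (θ - u))) (u / 2), zero_add,
      add_comm (u / 2)]
  · unfold uncurry Ex
    fun_prop

/-- the weighted mean square -/
theorem weighted {R : ℝ} (hR : 1 ≤ R) (n : ℤ) :
    ∫ t in (-R)..R, wt R t * ‖∫ θ in (0 : ℝ)..(2 * Real.pi), Ex n t θ‖ ^ 2 ≤
      960 * Real.log (1 + R * (2 * Real.pi)) := by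
  have hpi := Real.pi_pos
  have hR0 : 0 < R := by linarith
  -- the integrand
  let P : ℝ → ℝ → ℝ → ℂ := fun t u θ =>
    (wt R t : ℂ) * (Complex.exp (Complex.I * ((n * u : ℝ) : ℂ)) *
      Complex.exp (Complex.I * ((t * (-(4 * Real.sin θ * Real.sin (u / 2))) : ℝ) : ℂ)))
  have hP3 : Continuous fun p : (ℝ × ℝ) × ℝ => P p.1.1 p.1.2 p.2 := by
    simp only [P]
    unfold wt
    fun_prop
  have e1 : ((∫ t in (-R)..R, wt R t * ‖∫ θ in (0 : ℝ)..(2 * Real.pi), Ex n t θ‖ ^ 2 : ℝ) : ℂ) =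
      ∫ t in (-R)..R, ∫ u in (0 : ℝ)..(2 * Real.pi), ∫ θ in (0 : ℝ)..(2 * Real.pi), P t u θ := by
    rw [← intervalIntegral.integral_ofReal]
    refine intervalIntegral.integral_congr fun t _ => ?_
    simp only [P]
    rw [Complex.ofReal_mul, sq_eq]
    simp only [intervalIntegral.integral_const_mul]
  have e2 : (∫ t in (-R)..R, ∫ u in (0 : ℝ)..(2 * Real.pi), ∫ θ in (0 : ℝ)..(2 * Real.pi),
      P t u θ) = ∫ u in (0 : ℝ)..(2 * Real.pi), ∫ θ in (0 : ℝ)..(2 * Real.pi),
        ∫ t in (-R)..R, P t u θ := by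
    rw [swap2 (fun t u => ∫ θ in (0 : ℝ)..(2 * Real.pi), P t u θ) _ (by linarith) (by positivity)]
    · refine intervalIntegral.integral_congr fun u _ => ?_
      rw [swap2 (fun t θ => P t u θ) _ (by linarith) (by positivity)]
      exact hP3.comp (by fun_prop : Continuous fun q : ℝ × ℝ => (((q.1, u), q.2) : (ℝ × ℝ) × ℝ))
    · have := intervalIntegral.continuous_parametric_intervalIntegral_of_continuous'
        (f := fun (p : ℝ × ℝ) θ => P p.1 p.2 θ) (μ := volume) hP3 0 (2 * Real.pi)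
      exact this
  have hin : ∀ u θ : ℝ, ‖∫ t in (-R)..R, P t u θ‖ ≤
      16 * R * (1 / (1 + (4 * R * |Real.sin (u / 2)|) ^ 2 * Real.sin θ ^ 2)) := by
    intro u θ
    have h1 : (∫ t in (-R)..R, P t u θ) = Complex.exp (Complex.I * ((n * u : ℝ) : ℂ)) *
        ∫ t in (-R)..R, (wt R t : ℂ) *
          Complex.exp (Complex.I * ((t * (-(4 * Real.sin θ * Real.sin (u / 2))) : ℝ) : ℂ)) := by
      rw [← intervalIntegral.integral_const_mul]
      refine intervalIntegral.integral_congr fun t _ => ?_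
      simp only [P]
      ring
    rw [h1, norm_mul, mul_comm Complex.I, Complex.norm_exp_ofReal_mul_I, one_mul]
    refine (wt_hat hR _).trans (le_of_eq ?_)
    rw [mul_one_div]
    congr 2
    rw [mul_pow (4 * R), sq_abs]
    ring
  have hcu : ∀ u : ℝ, Continuous fun θ : ℝ =>
      16 * R * (1 / (1 + (4 * R * |Real.sin (u / 2)|) ^ 2 * Real.sin θ ^ 2)) := by
    intro u
    refine continuous_const.mul (continuous_const.div (by fun_prop) fun x => ?_)
    positivity
  have hmid : ∀ u : ℝ, ‖∫ θ in (0 : ℝ)..(2 * Real.pi), ∫ t in (-R)..R, P t u θ‖ ≤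
      480 * R * (1 / (1 + 4 * R * |Real.sin (u / 2)|)) := by
    intro u
    have h1 := intervalIntegral.norm_integral_le_of_norm_le (μ := volume)
      (by positivity : (0 : ℝ) ≤ 2 * Real.pi) (Filter.Eventually.of_forall fun θ _ => hin u θ)
      ((hcu u).intervalIntegrable _ _)
    refine h1.trans ?_
    rw [intervalIntegral.integral_const_mul]
    have h2 := inner_bound (c := 4 * R * |Real.sin (u / 2)|) (by positivity)
    have h3 := mul_le_mul_of_nonneg_left h2 (by positivity : (0 : ℝ) ≤ 16 * R)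
    refine h3.trans (le_of_eq ?_)
    ring
  have hcm : Continuous fun u : ℝ => 480 * R * (1 / (1 + 4 * R * |Real.sin (u / 2)|)) := by
    refine continuous_const.mul (continuous_const.div (by fun_prop) fun x => ?_)
    positivity
  have h1 := intervalIntegral.norm_integral_le_of_norm_le (μ := volume)
    (by positivity : (0 : ℝ) ≤ 2 * Real.pi) (Filter.Eventually.of_forall fun u _ => hmid u)
    (hcm.intervalIntegrable _ _)
  rw [← e2, ← e1, Complex.norm_real, intervalIntegral.integral_const_mul] at h1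
  have h2 := mul_le_mul_of_nonneg_left (outer_bound hR0) (by positivity : (0 : ℝ) ≤ 480 * R)
  refine (Real.le_norm_self _).trans (h1.trans (h2.trans (le_of_eq ?_)))
  field_simp
  ring

/-- BE2 -/
theorem be2 : Be2Stmt := by
  have hpi := Real.pi_pos
  refine ⟨10240, by norm_num, fun T n hT => ?_⟩
  have hT0 : 0 < T := by linarith
  set R : ℝ := 4 * T with hR
  have hR1 : 1 ≤ R := by linarith
  let h : ℝ → ℝ := fun t => ‖∫ θ in (0 : ℝ)..(2 * Real.pi), Ex n t θ‖ ^ 2
  have hh : Continuous h := by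
    have := intervalIntegral.continuous_parametric_intervalIntegral_of_continuous'
      (f := fun t θ => Ex n t θ) (μ := volume) (ex_cont n) 0 (2 * Real.pi)
    exact this.norm.pow 2
  have hh0 : ∀ t, 0 ≤ h t := fun t => by positivity
  have hjb : ∀ t : ℝ, ‖jb t n‖ ^ 2 ≤ h t := by
    intro t
    have : jb t n = (∫ θ in (0 : ℝ)..(2 * Real.pi), Ex n t θ) / ((2 * Real.pi : ℝ) : ℂ) := rfl
    rw [this, norm_div, Complex.norm_real, Real.norm_of_nonneg (by positivity), div_pow]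
    apply div_le_self (hh0 t)
    have : 1 ≤ 2 * Real.pi := by linarith only [Real.pi_gt_three, hpi]
    nlinarith only [hpi, this]
  have hjc : Continuous fun t : ℝ => ‖jb t n‖ ^ 2 := by
    have := intervalIntegral.continuous_parametric_intervalIntegral_of_continuous'
      (f := fun t θ => Ex n t θ) (μ := volume) (ex_cont n) 0 (2 * Real.pi)
    have h2 : Continuous fun t : ℝ => jb t n := this.div_const _
    exact h2.norm.pow 2
  have hwc : Continuous fun t => wt R t * h t := by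
    refine Continuous.mul ?_ hh
    unfold wt
    fun_prop
  have hw0 : ∀ t ∈ Icc (-R) R, 0 ≤ wt R t * h t := by
    intro t ht
    refine mul_nonneg ?_ (hh0 t)
    unfold wt
    have : t ^ 2 / R ^ 2 ≤ 1 := by
      rw [div_le_one (by positivity)]
      nlinarith only [ht.1, ht.2]
    linarith only [this]
  have hW := weighted hR1 n
  -- the two halves
  have half : ∀ a b : ℝ, -(2 * T) ≤ a → a ≤ b → b ≤ 2 * T →
      ∫ t in a..b, h t ≤ 4 / 3 * ∫ t in (-R)..R, wt R t * h t := by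
    intro a b ha hab hb
    have h1 : ∫ t in a..b, h t ≤ ∫ t in a..b, 4 / 3 * (wt R t * h t) := by
      refine intervalIntegral.integral_mono_on hab (hh.intervalIntegrable _ _)
        ((hwc.const_smul (4 / 3 : ℝ)).intervalIntegrable _ _) fun t ht => ?_
      have h2 : 3 / 4 ≤ wt R t := by
        unfold wt
        have h3 : t ^ 2 / R ^ 2 ≤ 1 / 4 := by
          rw [div_le_div_iff₀ (by positivity) (by norm_num), hR]
          nlinarith only [ht.1, ht.2, ha, hb]
        linarith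
      nlinarith only [hh0 t, h2]
    rw [intervalIntegral.integral_const_mul] at h1
    have h2 : ∫ t in a..b, wt R t * h t ≤ ∫ t in (-R)..R, wt R t * h t := by
      refine intervalIntegral.integral_mono_interval (by linarith only [hT, ha]) hab (by linarith only [hT, hb]) ?_
        (hwc.intervalIntegrable _ _)
      rw [Filter.EventuallyLE, ae_restrict_iff' measurableSet_Ioc]
      exact Filter.Eventually.of_forall fun t ht => hw0 t ⟨ht.1.le, ht.2⟩
    linarith only [h1, h2]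
  have h1 : ∫ t in T..2 * T, (‖jb t n‖ ^ 2 + ‖jb (-t) n‖ ^ 2) ≤
      (∫ t in T..2 * T, h t) + ∫ t in T..2 * T, h (-t) := by
    have hn : Continuous fun t : ℝ => h (-t) := hh.comp continuous_neg
    rw [← intervalIntegral.integral_add (hh.intervalIntegrable _ _)
      (hn.intervalIntegrable _ _)]
    exact intervalIntegral.integral_mono_on (by linarith)
      ((hjc.add (hjc.comp continuous_neg)).intervalIntegrable _ _)
      ((hh.add hn).intervalIntegrable _ _)
      fun t _ => add_le_add (hjb t) (hjb (-t))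
  rw [intervalIntegral.integral_comp_neg] at h1
  have h2 := half T (2 * T) (by linarith only [hT]) (by linarith only [hT]) le_rfl
  have h3 := half (-(2 * T)) (-T) le_rfl (by linarith only [hT]) (by linarith only [hT])
  have h4 : Real.log (1 + R * (2 * Real.pi)) ≤ 4 * (1 + Real.log T) := by
    have e1 : 1 + R * (2 * Real.pi) ≤ 27 * T := by
      rw [hR]
      nlinarith only [Real.pi_lt_d2, hT]
    have e2 : Real.log (1 + R * (2 * Real.pi)) ≤ Real.log (27 * T) :=
      Real.log_le_log (by positivity) e1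
    rw [Real.log_mul (by norm_num) hT0.ne'] at e2
    have e3 : Real.log 27 ≤ 4 := by
      rw [Real.log_le_iff_le_exp (by norm_num)]
      have h5 : (2.7 : ℝ) ≤ Real.exp 1 := by linarith only [Real.exp_one_gt_d9]
      have h6 : Real.exp 4 = Real.exp 1 ^ 4 := by
        rw [← Real.exp_nat_mul]
        norm_num
      rw [h6]
      have h7 : (2.7 : ℝ) ^ 4 ≤ Real.exp 1 ^ 4 := pow_le_pow_left₀ (by norm_num) h5 4
      norm_num at h7 ⊢
      linarith only [h7]
    have e4 : 0 ≤ Real.log T := Real.log_nonneg hT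
    linarith only [e2, e3, e4]
  have hW2 : ∫ t in (-R)..R, wt R t * h t ≤ 960 * Real.log (1 + R * (2 * Real.pi)) := hW
  linarith

end Pool.Agent.LE.QD.H90
end
end -- Pool.Agent.Helper90_LQD.BE2

section -- Pool.Agent.Helper13_LQD.OFF

/-!
# LQD, row OFF: concentration of `(G^* f G₀)(x, x)`
-/

set_option autoImplicit false

open MeasureTheory ProbabilityTheory Function Filter

open scoped ENNReal BigOperators Topology NNReal ComplexOrder Matrix

noncomputable section

namespace Pool.Agent.LE.QD.H13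

open Pool.Agent.Anderson hiding box mem_box card_box
open Pool.Agent.Loc Pool.Agent.Mob Pool.Agent.Helper54.Bal
  Pool.Agent.Helper96.EXP Pool.Agent.BED
open Pool.Agent.LE.MN Pool.Agent.LE.CL Pool.Agent.LE.IR Pool.Agent.LE.QD

/-- two uses of the Cauchy-Schwarz inequality -/
theorem cs3 {X : Type} [Fintype X] (D a b : X → ℝ) (P Q : ℝ)
    (ha : Real.sqrt (∑ y, a y ^ 4) ≤ P) (hb : Real.sqrt (∑ y, b y ^ 4) ≤ Q) :
    ∑ y, |D y| * (a y * b y) ≤ Real.sqrt (P * Q) * Real.sqrt (∑ y, D y ^ 2) := by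
  have h1 : ∑ y, |D y| * (a y * b y) ≤
      Real.sqrt (∑ y, |D y| ^ 2) * Real.sqrt (∑ y, (a y * b y) ^ 2) :=
    Real.sum_mul_le_sqrt_mul_sqrt _ _ _
  have h2 : ∑ y, (a y * b y) ^ 2 ≤
      Real.sqrt (∑ y, (a y ^ 2) ^ 2) * Real.sqrt (∑ y, (b y ^ 2) ^ 2) := by
    have := Real.sum_mul_le_sqrt_mul_sqrt Finset.univ (fun y => a y ^ 2) (fun y => b y ^ 2)
    simpa [mul_pow] using this
  have e1 : ∑ y, (a y ^ 2) ^ 2 = ∑ y, a y ^ 4 := by
    refine Finset.sum_congr rfl fun y _ => ?_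
    ring
  have e2 : ∑ y, (b y ^ 2) ^ 2 = ∑ y, b y ^ 4 := by
    refine Finset.sum_congr rfl fun y _ => ?_
    ring
  rw [e1, e2] at h2
  have hP : 0 ≤ P := (Real.sqrt_nonneg _).trans ha
  have h3 : Real.sqrt (∑ y, a y ^ 4) * Real.sqrt (∑ y, b y ^ 4) ≤ P * Q :=
    mul_le_mul ha hb (Real.sqrt_nonneg _) hP
  have h4 : Real.sqrt (∑ y, (a y * b y) ^ 2) ≤ Real.sqrt (P * Q) :=
    Real.sqrt_le_sqrt (h2.trans h3)
  have e3 : ∑ y, |D y| ^ 2 = ∑ y, D y ^ 2 := by
    refine Finset.sum_congr rfl fun y _ => ?_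
    rw [sq_abs]
  rw [e3] at h1
  calc ∑ y, |D y| * (a y * b y) ≤
      Real.sqrt (∑ y, D y ^ 2) * Real.sqrt (∑ y, (a y * b y) ^ 2) := h1
    _ ≤ Real.sqrt (∑ y, D y ^ 2) * Real.sqrt (P * Q) :=
        mul_le_mul_of_nonneg_left h4 (Real.sqrt_nonneg _)
    _ = Real.sqrt (P * Q) * Real.sqrt (∑ y, D y ^ 2) := by ring

/-- row OFF -/
theorem off (hral : RalStmt) (hres : ResStmt) (hlcc : LccStmt) : OffStmt := by
  intro d M _ v E η η₁ A B p r Φ K₀ ζ f hη hη₁ hA hB hΦ hK₀ hζ hf hkk hSob hpm hFB hp hr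
  obtain ⟨z, hz⟩ : ∃ z : ℂ, z = ⟨E, η⟩ := ⟨_, rfl⟩
  have hzim : z.im = η := by rw [hz]
  have hz0 : 0 < z.im := by rw [hzim]; exact hη
  have hζ0 : 0 < ζ.im := lt_of_lt_of_le hη hζ
  rw [← hz]
  have hη₁0 : 0 < η₁ := lt_of_lt_of_le hη hη₁
  obtain ⟨ℓ, hℓ⟩ : ∃ ℓ : ℝ, ℓ = Real.sqrt (10 * A * B * (η₁ / η) ^ 2 *
    (8 * A * (η₁ / η ^ 2) * (Φ ^ 2 * K₀))) := ⟨_, rfl⟩
  have hℓ0 : 0 < ℓ := by rw [hℓ]; positivity
  have hℓ2 : 80 * A ^ 2 * B * (η₁ ^ 3 / η ^ 4) * Φ ^ 2 * K₀ = ℓ ^ 2 := by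
    rw [hℓ, Real.sq_sqrt (by positivity)]
    field_simp
    ring
  rw [hℓ2]
  obtain ⟨S, hS⟩ : ∃ S : Set (Tor d M → ℝ), S = {V | FBq E η₁ (1 / 4) V} := ⟨_, rfl⟩
  have hSc : gau d M v Sᶜ ≤ ENNReal.ofReal p := by
    have : Sᶜ = {V : Tor d M → ℝ | ¬ FBq E η₁ (1 / 4) V} := by rw [hS]; rfl
    rw [this]; exact hFB
  -- the free resolvent
  have hG0 : ∀ x : Tor d M, ∑ a, ‖rs (0 : Tor d M → ℝ) ζ a x‖ ^ 2 ≤ K₀ := by
    intro x
    have h1 : ∀ a, ‖rs (0 : Tor d M → ℝ) ζ a x‖ ^ 2 = kk ζ (a - x) := by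
      intro a
      have h2 := (hral d M 0 ζ hζ0).2.2.2.2.2.2.1 x 0 (a - x)
      have h3 : tr x (0 : Tor d M → ℝ) = 0 := rfl
      rw [h3, add_zero, add_sub_cancel] at h2
      unfold kk
      rw [h2, (hral d M 0 ζ hζ0).2.1 a x]
    rw [Finset.sum_congr rfl fun a _ => h1 a]
    have h2 : ∑ a, kk ζ (a - x) = ∑ a, kk ζ a := Equiv.sum_comp (Equiv.subRight x) (kk ζ)
    rw [h2]
    exact hkk
  -- Lipschitz bound
  have hLip : ∀ (x : Tor d M), ∀ V ∈ S, ∀ V' ∈ S, ‖od V z ζ f x - od V' z ζ f x‖ ≤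
      ℓ * Real.sqrt (∑ i, (V i - V' i) ^ 2) := by
    intro x V hV V' hV'
    rw [hS] at hV hV'
    have r1 := (hres d M V' E η η₁ A B hη hη₁ hA.le hSob hpm hV').2.2.1 x
    have r2 := (hres d M V E η η₁ A B hη hη₁ hA.le hSob hpm hV).2.2.2.2
      (fun a => (f a : ℂ) * rs (0 : Tor d M → ℝ) ζ a x)
    rw [← hz] at r1 r2
    have hn2 : n2 (fun a => (f a : ℂ) * rs (0 : Tor d M → ℝ) ζ a x) ≤ Φ ^ 2 * K₀ := by
      unfold n2
      calc ∑ a, ‖(f a : ℂ) * rs (0 : Tor d M → ℝ) ζ a x‖ ^ 2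
          ≤ ∑ a, Φ ^ 2 * ‖rs (0 : Tor d M → ℝ) ζ a x‖ ^ 2 := by
            refine Finset.sum_le_sum fun a _ => ?_
            rw [norm_mul, mul_pow, Complex.norm_real, Real.norm_eq_abs]
            exact mul_le_mul_of_nonneg_right (pow_le_pow_left₀ (abs_nonneg _) (hf a) 2)
              (by positivity)
        _ = Φ ^ 2 * ∑ a, ‖rs (0 : Tor d M → ℝ) ζ a x‖ ^ 2 := by rw [Finset.mul_sum]
        _ ≤ Φ ^ 2 * K₀ := mul_le_mul_of_nonneg_left (hG0 x) (by positivity)
    have r3 := r2.trans (mul_le_mul_of_nonneg_left hn2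
      (show 0 ≤ 8 * A * (η₁ / η ^ 2) by positivity))
    unfold n4 at r3
    obtain ⟨-, -, -, -, -, hid, -⟩ := hral d M V z hz0
    have hsym := (hral d M V' z hz0).2.1
    have h1 : od V z ζ f x - od V' z ζ f x =
        -∑ y, ((V y - V' y : ℝ) : ℂ) * ((starRingEnd ℂ) (rs V' z y x) *
          ((rs V z)ᴴ *ᵥ fun a => (f a : ℂ) * rs (0 : Tor d M → ℝ) ζ a x) y) := by
      unfold od
      rw [← Finset.sum_sub_distrib]
      have h2 : ∀ a, (starRingEnd ℂ) (rs V z a x) * ((f a : ℂ) * rs (0 : Tor d M → ℝ) ζ a x) -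
          (starRingEnd ℂ) (rs V' z a x) * ((f a : ℂ) * rs (0 : Tor d M → ℝ) ζ a x) =
          -∑ y, ((V y - V' y : ℝ) : ℂ) * ((starRingEnd ℂ) (rs V' z y x) *
            ((starRingEnd ℂ) (rs V z a y) * ((f a : ℂ) * rs (0 : Tor d M → ℝ) ζ a x))) := by
        intro a
        have h3 := congrFun (congrFun (hid V') a) x
        rw [Matrix.sub_apply, Matrix.neg_apply, Matrix.mul_assoc, Matrix.mul_apply] at h3
        rw [← sub_mul, ← map_sub, h3, map_neg, map_sum, neg_mul, Finset.sum_mul]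
        congr 1
        refine Finset.sum_congr rfl fun y _ => ?_
        rw [Matrix.diagonal_mul, map_mul, map_mul, Complex.conj_ofReal]
        ring
      rw [Finset.sum_congr rfl fun a _ => h2 a, Finset.sum_neg_distrib, Finset.sum_comm]
      congr 1
      refine Finset.sum_congr rfl fun y _ => ?_
      rw [← Finset.mul_sum, ← Finset.mul_sum]
      rfl
    rw [h1, norm_neg]
    refine (norm_sum_le _ _).trans ?_
    rw [hℓ]
    refine le_trans (le_of_eq ?_) (cs3 (fun y => V y - V' y) (fun y => ‖rs V' z x y‖)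
      (fun y => ‖((rs V z)ᴴ *ᵥ fun a => (f a : ℂ) * rs (0 : Tor d M → ℝ) ζ a x) y‖) _ _ r1 r3)
    refine Finset.sum_congr rfl fun y _ => ?_
    rw [norm_mul, norm_mul, Complex.norm_real, Real.norm_eq_abs, Complex.norm_conj, hsym y x]
  -- continuity and bounds
  have hcont : ∀ x : Tor d M, Continuous fun V : Tor d M → ℝ => od V z ζ f x := by
    intro x
    unfold od
    refine continuous_finsetSum _ fun a _ => ?_
    exact (Complex.continuous_conj.comp
      ((hral d M 0 z hz0).2.2.2.2.2.2.2.2.2.1 a x)).mul continuous_const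
  have hrow : ∀ (V : Tor d M → ℝ) (w : ℂ), η ≤ w.im → ∀ x : Tor d M,
      Real.sqrt (∑ a, ‖rs V w a x‖ ^ 2) ≤ 1 / η := by
    intro V w hw x
    have hw0 : 0 < w.im := lt_of_lt_of_le hη hw
    have h1 := (hral d M V w hw0).2.2.2.2.1 x
    have h2 := (hral d M V w hw0).2.2.2.2.2.2.2.2.2.2.2 x x
    have h3 : ∑ a, ‖rs V w a x‖ ^ 2 = ∑ y, ‖rs V w x y‖ ^ 2 :=
      Finset.sum_congr rfl fun a _ => by rw [(hral d M V w hw0).2.1 a x]
    rw [h3, h1]
    have h4 : (rs V w x x).im ≤ 1 / w.im :=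
      ((le_abs_self _).trans (Complex.abs_im_le_norm _)).trans h2
    have h5 : (rs V w x x).im / w.im ≤ (1 / η) ^ 2 := by
      calc (rs V w x x).im / w.im ≤ (1 / w.im) / w.im :=
            div_le_div_of_nonneg_right h4 hw0.le
        _ = (1 / w.im) ^ 2 := by field_simp
        _ ≤ (1 / η) ^ 2 := pow_le_pow_left₀ (by positivity)
            (one_div_le_one_div_of_le hη hw) 2
    calc Real.sqrt ((rs V w x x).im / w.im) ≤ Real.sqrt ((1 / η) ^ 2) := Real.sqrt_le_sqrt h5
      _ = 1 / η := Real.sqrt_sq (by positivity)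
  have hbd : ∀ (V : Tor d M → ℝ) (x : Tor d M), ‖od V z ζ f x‖ ≤ Φ / η ^ 2 := by
    intro V x
    unfold od
    refine (norm_sum_le _ _).trans ?_
    calc ∑ a, ‖(starRingEnd ℂ) (rs V z a x) * ((f a : ℂ) * rs (0 : Tor d M → ℝ) ζ a x)‖
        ≤ ∑ a, Φ * (‖rs V z a x‖ * ‖rs (0 : Tor d M → ℝ) ζ a x‖) := by
          refine Finset.sum_le_sum fun a _ => ?_
          rw [norm_mul, norm_mul, Complex.norm_conj, Complex.norm_real, Real.norm_eq_abs]
          calc ‖rs V z a x‖ * (|f a| * ‖rs (0 : Tor d M → ℝ) ζ a x‖) =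
              |f a| * (‖rs V z a x‖ * ‖rs (0 : Tor d M → ℝ) ζ a x‖) := by ring
            _ ≤ _ := mul_le_mul_of_nonneg_right (hf a) (by positivity)
      _ = Φ * ∑ a, ‖rs V z a x‖ * ‖rs (0 : Tor d M → ℝ) ζ a x‖ := by rw [Finset.mul_sum]
      _ ≤ Φ * (Real.sqrt (∑ a, ‖rs V z a x‖ ^ 2) *
          Real.sqrt (∑ a, ‖rs (0 : Tor d M → ℝ) ζ a x‖ ^ 2)) :=
          mul_le_mul_of_nonneg_left (Real.sum_mul_le_sqrt_mul_sqrt _ _ _) hΦ.le
      _ ≤ Φ * (1 / η * (1 / η)) := by
          refine mul_le_mul_of_nonneg_left ?_ hΦ.le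
          exact mul_le_mul (hrow V z (by rw [hzim]) x) (hrow 0 ζ hζ x) (Real.sqrt_nonneg _)
            (by positivity)
      _ = Φ / η ^ 2 := by
          field_simp
  have : IsProbabilityMeasure (gau d M v) := by unfold gau; infer_instance
  have hint : ∀ x : Tor d M, Integrable (fun V : Tor d M → ℝ => od V z ζ f x) (gau d M v) := by
    intro x
    refine (integrable_const (Φ / η ^ 2)).mono' (hcont x).aestronglyMeasurable ?_
    exact Eventually.of_forall fun V => hbd V x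
  -- the two families of events
  have hRe : ∀ x : Tor d M, gau d M v {V | V ∈ S ∧ r + 2 * (Φ / η ^ 2) * p <
      |(od V z ζ f x).re - (∫ W, od W z ζ f x ∂(gau d M v)).re|} ≤
        ENNReal.ofReal (2 * Real.exp (-(r ^ 2 / (5 * ℓ ^ 2 * v)))) := by
    intro x
    have h := hlcc (Tor d M) v S (fun V => (od V z ζ f x).re) (Φ / η ^ 2) ℓ p r
      (Complex.continuous_re.comp (hcont x)).measurable
      (fun V => (Complex.abs_re_le_norm _).trans (hbd V x)) hℓ0
      (fun V hV V' hV' => by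
        have := hLip x V hV V' hV'
        rw [← Complex.sub_re]
        exact (Complex.abs_re_le_norm _).trans this) hSc hp hr
    have e : ∫ W, (od W z ζ f x).re ∂(gau d M v) = (∫ W, od W z ζ f x ∂(gau d M v)).re :=
      integral_re (hint x)
    have e' : (∫ W, (od W z ζ f x).re ∂(Measure.pi fun _ : Tor d M => gaussianReal 0 v)) =
        (∫ W, od W z ζ f x ∂(gau d M v)).re := e
    rw [e'] at h
    exact h
  have hIm : ∀ x : Tor d M, gau d M v {V | V ∈ S ∧ r + 2 * (Φ / η ^ 2) * p <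
      |(od V z ζ f x).im - (∫ W, od W z ζ f x ∂(gau d M v)).im|} ≤
        ENNReal.ofReal (2 * Real.exp (-(r ^ 2 / (5 * ℓ ^ 2 * v)))) := by
    intro x
    have h := hlcc (Tor d M) v S (fun V => (od V z ζ f x).im) (Φ / η ^ 2) ℓ p r
      (Complex.continuous_im.comp (hcont x)).measurable
      (fun V => (Complex.abs_im_le_norm _).trans (hbd V x)) hℓ0
      (fun V hV V' hV' => by
        have := hLip x V hV V' hV'
        rw [← Complex.sub_im]
        exact (Complex.abs_im_le_norm _).trans this) hSc hp hr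
    have e : ∫ W, (od W z ζ f x).im ∂(gau d M v) = (∫ W, od W z ζ f x ∂(gau d M v)).im :=
      integral_im (hint x)
    have e' : (∫ W, (od W z ζ f x).im ∂(Measure.pi fun _ : Tor d M => gaussianReal 0 v)) =
        (∫ W, od W z ζ f x ∂(gau d M v)).im := e
    rw [e'] at h
    exact h
  -- union bound
  have hsub : {V : Tor d M → ℝ | ¬ ∀ x, ‖od V z ζ f x - ∫ W, od W z ζ f x ∂(gau d M v)‖ ≤
        2 * r + 4 * p * Φ / η ^ 2} ⊆
      Sᶜ ∪ ⋃ x : Tor d M, ({V | V ∈ S ∧ r + 2 * (Φ / η ^ 2) * p <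
        |(od V z ζ f x).re - (∫ W, od W z ζ f x ∂(gau d M v)).re|} ∪
        {V | V ∈ S ∧ r + 2 * (Φ / η ^ 2) * p <
        |(od V z ζ f x).im - (∫ W, od W z ζ f x ∂(gau d M v)).im|}) := by
    intro V hV
    by_cases hVS : V ∈ S
    · right
      have hV' : ∃ x, ¬ ‖od V z ζ f x - ∫ W, od W z ζ f x ∂(gau d M v)‖ ≤
          2 * r + 4 * p * Φ / η ^ 2 := not_forall.1 hV
      obtain ⟨x, hx⟩ := hV'
      rw [Set.mem_iUnion]
      refine ⟨x, ?_⟩
      by_contra hcon
      rw [Set.mem_union, not_or] at hcon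
      have c1 : |(od V z ζ f x).re - (∫ W, od W z ζ f x ∂(gau d M v)).re| ≤
          r + 2 * (Φ / η ^ 2) * p := by
        by_contra h
        exact hcon.1 ⟨hVS, not_le.1 h⟩
      have c2 : |(od V z ζ f x).im - (∫ W, od W z ζ f x ∂(gau d M v)).im| ≤
          r + 2 * (Φ / η ^ 2) * p := by
        by_contra h
        exact hcon.2 ⟨hVS, not_le.1 h⟩
      apply hx
      refine (Complex.norm_le_abs_re_add_abs_im _).trans ?_
      rw [Complex.sub_re, Complex.sub_im]
      refine (add_le_add c1 c2).trans (le_of_eq ?_)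
      ring
    · left; exact hVS
  have hex : 0 ≤ Real.exp (-(r ^ 2 / (5 * ℓ ^ 2 * v))) := (Real.exp_pos _).le
  have hcard : (Finset.univ : Finset (Tor d M)).card = M ^ d := by
    rw [Finset.card_univ, Fintype.card_fun, ZMod.card, Fintype.card_fin]
  calc gau d M v {V : Tor d M → ℝ | ¬ ∀ x, ‖od V z ζ f x - ∫ W, od W z ζ f x ∂(gau d M v)‖ ≤
        2 * r + 4 * p * Φ / η ^ 2}
      ≤ gau d M v (Sᶜ ∪ ⋃ x : Tor d M, ({V | V ∈ S ∧ r + 2 * (Φ / η ^ 2) * p <
        |(od V z ζ f x).re - (∫ W, od W z ζ f x ∂(gau d M v)).re|} ∪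
        {V | V ∈ S ∧ r + 2 * (Φ / η ^ 2) * p <
        |(od V z ζ f x).im - (∫ W, od W z ζ f x ∂(gau d M v)).im|})) := measure_mono hsub
    _ ≤ gau d M v Sᶜ + ∑ x : Tor d M, (gau d M v {V | V ∈ S ∧ r + 2 * (Φ / η ^ 2) * p <
        |(od V z ζ f x).re - (∫ W, od W z ζ f x ∂(gau d M v)).re|} +
        gau d M v {V | V ∈ S ∧ r + 2 * (Φ / η ^ 2) * p <
        |(od V z ζ f x).im - (∫ W, od W z ζ f x ∂(gau d M v)).im|}) := by
        refine (measure_union_le _ _).trans ?_
        gcongr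
        refine (measure_iUnion_fintype_le _ _).trans ?_
        exact Finset.sum_le_sum fun x _ => measure_union_le _ _
    _ ≤ ENNReal.ofReal p + ∑ _x : Tor d M, (ENNReal.ofReal (2 * Real.exp (-(r ^ 2 /
        (5 * ℓ ^ 2 * v)))) + ENNReal.ofReal (2 * Real.exp (-(r ^ 2 / (5 * ℓ ^ 2 * v))))) :=
        add_le_add hSc (Finset.sum_le_sum fun x _ => add_le_add (hRe x) (hIm x))
    _ = ENNReal.ofReal (p + (M : ℝ) ^ d * (4 * Real.exp (-(r ^ 2 / (5 * ℓ ^ 2 * v))))) := by
        rw [Finset.sum_const, hcard, ← ENNReal.ofReal_add (by positivity) (by positivity),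
          nsmul_eq_mul, ENNReal.ofReal_add hp (by positivity),
          ENNReal.ofReal_mul (p := (M : ℝ) ^ d) (by positivity)]
        congr 2
        · rw [← Nat.cast_pow, ENNReal.ofReal_natCast]
        · congr 1
          ring

end Pool.Agent.LE.QD.H13
end
end -- Pool.Agent.Helper13_LQD.OFF

section -- Pool.Agent.Helper93_LQD.SCE

/-!
# Squad LQD, row SCE: the self-consistent equation
-/

set_option autoImplicit false

open MeasureTheory ProbabilityTheory Function Filter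

open scoped ENNReal BigOperators Topology NNReal ComplexOrder Matrix

noncomputable section

namespace Pool.Agent.LE.QD.H93

open Pool.Agent.Anderson hiding box mem_box card_box
open Pool.Agent.Loc Pool.Agent.Mob Pool.Agent.Helper54.Bal
  Pool.Agent.Helper96.EXP Pool.Agent.BED
open Pool.Agent.LE.MN Pool.Agent.LE.CL Pool.Agent.LE.IR

variable {d M : ℕ} [NeZero M]

theorem pm_mono' {F G : Tor d M → ℝ} (h : ∀ p, F p ≤ G p) : pm F ≤ pm G := by
  unfold pm
  exact div_le_div_of_nonneg_right (Finset.sum_le_sum fun p _ => h p) (by positivity)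

theorem pm_const_mul (a : ℝ) (F : Tor d M → ℝ) : pm (fun p => a * F p) = a * pm F := by
  unfold pm
  rw [← Finset.mul_sum, mul_div_assoc]

theorem norm_sub_eq (x : ℝ) (ζ : ℂ) : ‖(x : ℂ) - ζ‖ = Real.sqrt ((x - ζ.re) ^ 2 + ζ.im ^ 2) := by
  rw [Complex.norm_def, Complex.normSq_apply]
  congr 1
  simp only [Complex.sub_re, Complex.ofReal_re, Complex.sub_im, Complex.ofReal_im, zero_sub]
  ring

theorem inv_im (x : ℝ) (ζ : ℂ) : (((x : ℂ) - ζ)⁻¹).im = ζ.im / ((x - ζ.re) ^ 2 + ζ.im ^ 2) := by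
  rw [Complex.inv_im, Complex.normSq_apply]
  simp only [Complex.sub_re, Complex.ofReal_re, Complex.sub_im, Complex.ofReal_im, zero_sub,
    neg_neg]
  congr 1
  ring

theorem sce (ral : RalStmt) (dsu : DsuStmt) (dsl : DslStmt) : SceStmt := by
  intro d δ hd hδ
  obtain ⟨C₁, hC₁, hdsu⟩ := dsu d hd
  obtain ⟨c₁, C₂, hc₁, hc₁1, hC₂, hdsl⟩ := dsl d (δ / 2) hd (by positivity)
  have hC₁0 : 0 < C₁ := by linarith only [hC₁]
  have hC₂0 : 0 < C₂ := by linarith only [hC₂]
  obtain ⟨c, hcd⟩ : ∃ c : ℝ, c = min (c₁ / (4 * C₁)) (min (1 / 4) (δ / (4 * C₁))) := ⟨_, rfl⟩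
  have hc : 0 < c := by rw [hcd]; positivity
  have k1 : 4 * C₁ * c ≤ c₁ := by
    have : c ≤ c₁ / (4 * C₁) := by rw [hcd]; exact min_le_left _ _
    rw [le_div_iff₀ (by positivity)] at this
    linarith only [this]
  have k2 : c ≤ 1 / 4 := by rw [hcd]; exact (min_le_right _ _).trans (min_le_left _ _)
  have k3 : 4 * C₁ * c ≤ δ := by
    have : c ≤ δ / (4 * C₁) := by rw [hcd]; exact (min_le_right _ _).trans (min_le_right _ _)
    rw [le_div_iff₀ (by positivity)] at this
    linarith only [this]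
  have k4 : 4 * c ≤ c₁ := by
    have : 1 * c ≤ C₁ * c := mul_le_mul_of_nonneg_right hC₁ hc.le
    linarith only [k1, this]
  obtain ⟨C, hCd⟩ : ∃ C : ℝ, C = 2 * C₁ + C₂ := ⟨_, rfl⟩
  have hC0 : 0 < C := by rw [hCd]; positivity
  refine ⟨c, C, hc, by linarith only [hc, k2], by linarith only [hC₁, hC₂, hc, k2, hCd], ?_⟩
  intro M _ v E η s₀ g ζ s hE hη hηc hv hM hg hvg hvl hs0 hsl hs hζ hgeq
  obtain ⟨l', hl'⟩ : ∃ l : ℝ, l = 1 + Real.log (1 / η) := ⟨_, rfl⟩
  rw [← hl'] at hvl hsl ⊢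
  have hlog : 0 ≤ Real.log (1 / η) := Real.log_nonneg (by
    rw [le_div_iff₀ hη]
    linarith only [hc, k2, hηc])
  have hl'1 : 1 ≤ l' := by rw [hl']; linarith only [hlog]
  -- the width
  obtain ⟨w, hw⟩ : ∃ w : ℝ, w = ζ.im := ⟨_, rfl⟩
  have hw1 : w = η + v * g.im := by
    rw [hw, hζ]
    simp [Complex.add_im, Complex.mul_im]
  have hηw : η ≤ w := by
    rw [hw1]
    have := mul_nonneg hv hg
    linarith only [this]
  have hw0 : 0 < w := by linarith only [hη, hηw]
  have hwc : w ≤ 2 * c := by linarith only [hηc, hvg, hw1]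
  have hre : ζ.re = E + v * g.re := by
    rw [hζ]
    simp [Complex.add_re, Complex.mul_re]
  have hM0 : (0 : ℝ) < M := by exact_mod_cast Nat.pos_of_ne_zero (NeZero.ne M)
  have hMd : (0 : ℝ) < (M : ℝ) ^ d := by positivity
  have hMC : ∀ A : ℝ, 0 < A → A ≤ C → A / w ≤ M := by
    intro A hA hAC
    calc A / w ≤ A / η := by gcongr
      _ ≤ C / η := by gcongr
      _ ≤ M := hM
  have hlw : 1 + Real.log (1 / w) ≤ l' := by
    rw [hl']
    have : Real.log (1 / w) ≤ Real.log (1 / η) :=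
      Real.log_le_log (by positivity) (one_div_le_one_div_of_le hη hηw)
    linarith only [this]
  obtain ⟨d1, d2⟩ := hdsu M ζ.re w hw0 (by linarith only [hc, k2, hηc, hvg, hw1]) (hMC C₁ hC₁0 (by linarith only [hC₁, hC₂, hc, k2, hCd]))
  have d2' : pm (fun p : Tor d M => (Real.sqrt ((es p - ζ.re) ^ 2 + w ^ 2))⁻¹) ≤ C₁ * l' :=
    d2.trans (mul_le_mul_of_nonneg_left hlw hC₁0.le)
  -- the free resolvent
  have hζim : 0 < ζ.im := by rw [← hw]; exact hw0
  obtain ⟨-, -, -, -, r5, -, -, -, -, -, r11, -⟩ := ral d M 0 ζ hζim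
  obtain ⟨g₀, hg₀⟩ : ∃ g₀ : ℂ, g₀ = rs (0 : Tor d M → ℝ) ζ 0 0 := ⟨_, rfl⟩
  have e0 : g₀ = (∑ p : Tor d M, ((es p : ℂ) - ζ)⁻¹) / (M : ℂ) ^ d := by
    rw [hg₀, r11]
    congr 1
    refine Finset.sum_congr rfl fun p _ => ?_
    have : ec p (0 - 0 : Tor d M) = 1 := by
      simp [ec]
    rw [this, one_div]
  have hMn : ‖(M : ℂ) ^ d‖ = (M : ℝ) ^ d := by
    rw [norm_pow, Complex.norm_natCast]
  have hnorm : ∀ (F : Tor d M → ℂ) (a : ℝ), (∀ p, ‖F p‖ ≤ a) → 0 ≤ a →
      ‖(∑ p : Tor d M, F p * ((es p : ℂ) - ζ)⁻¹) / (M : ℂ) ^ d‖ ≤ a * (C₁ * l') := by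
    intro F a hF ha
    have h1 : ‖∑ p : Tor d M, F p * ((es p : ℂ) - ζ)⁻¹‖ ≤
        ∑ p : Tor d M, a * (Real.sqrt ((es p - ζ.re) ^ 2 + w ^ 2))⁻¹ := by
      refine norm_sum_le_of_le _ fun p _ => ?_
      rw [norm_mul, norm_inv, norm_sub_eq, ← hw]
      exact mul_le_mul_of_nonneg_right (hF p) (by positivity)
    rw [norm_div, hMn]
    calc ‖∑ p : Tor d M, F p * ((es p : ℂ) - ζ)⁻¹‖ / (M : ℝ) ^ d
        ≤ (∑ p : Tor d M, a * (Real.sqrt ((es p - ζ.re) ^ 2 + w ^ 2))⁻¹) / (M : ℝ) ^ d :=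
          div_le_div_of_nonneg_right h1 hMd.le
      _ = a * pm (fun p : Tor d M => (Real.sqrt ((es p - ζ.re) ^ 2 + w ^ 2))⁻¹) :=
          pm_const_mul a _
      _ ≤ a * (C₁ * l') := mul_le_mul_of_nonneg_left d2' ha
  have hdiff : g - g₀ = (∑ p : Tor d M, s p * ((es p : ℂ) - ζ)⁻¹) / (M : ℂ) ^ d := by
    rw [hgeq, e0, ← sub_div, ← Finset.sum_sub_distrib]
    congr 1
    refine Finset.sum_congr rfl fun p _ => ?_
    rw [div_eq_mul_inv]
    ring
  have hD : ‖g - g₀‖ ≤ s₀ * (C₁ * l') := by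
    rw [hdiff]
    exact hnorm s s₀ hs hs0
  have hG0 : ‖g₀‖ ≤ 1 * (C₁ * l') := by
    have h1 := hnorm (fun _ => 1) 1 (fun _ => by simp) (by norm_num)
    simp only [one_mul] at h1 ⊢
    rw [e0]
    exact h1
  have hDc : s₀ * (C₁ * l') ≤ c₁ / 4 := by
    have h1 : C₁ * (s₀ * l') ≤ C₁ * c := mul_le_mul_of_nonneg_left hsl hC₁0.le
    calc s₀ * (C₁ * l') = C₁ * (s₀ * l') := by ring
      _ ≤ C₁ * c := h1
      _ ≤ c₁ / 4 := by linarith only [k1]
  -- the real part
  have hs1 : s₀ ≤ 1 := by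
    have h1 : s₀ * 1 ≤ s₀ * l' := mul_le_mul_of_nonneg_left hl'1 hs0
    linarith only [hc, k2, hsl, h1]
  have hgn : ‖g‖ ≤ 2 * (C₁ * l') := by
    have h1 : ‖g‖ ≤ ‖g₀‖ + ‖g - g₀‖ := by
      have : g = g₀ + (g - g₀) := by ring
      nth_rewrite 1 [this]
      exact norm_add_le _ _
    have h2 : s₀ * (C₁ * l') ≤ 1 * (C₁ * l') := mul_le_mul_of_nonneg_right hs1 (by positivity)
    linarith only [hD, hG0, h1, h2]
  have hreal : |ζ.re| ≤ 2 * d - δ / 2 := by
    have h1 : |v * g.re| ≤ δ / 2 := by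
      rw [abs_mul, abs_of_nonneg hv]
      calc v * |g.re| ≤ v * ‖g‖ := mul_le_mul_of_nonneg_left (Complex.abs_re_le_norm g) hv
        _ ≤ v * (2 * (C₁ * l')) := mul_le_mul_of_nonneg_left hgn hv
        _ = 2 * C₁ * (v * l') := by ring
        _ ≤ 2 * C₁ * c := mul_le_mul_of_nonneg_left hvl (by positivity)
        _ ≤ δ / 2 := by linarith only [k3]
    rw [hre]
    exact (abs_add_le _ _).trans (by linarith only [hE, h1])
  -- the imaginary part of the free resolvent
  have him : g₀.im = pm (fun p : Tor d M => w / ((es p - ζ.re) ^ 2 + w ^ 2)) := by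
    rw [e0]
    have h1 : ((M : ℂ) ^ d) = (((M : ℝ) ^ d : ℝ) : ℂ) := by push_cast; rfl
    rw [h1, Complex.div_ofReal_im, Complex.im_sum]
    unfold pm
    congr 1
    refine Finset.sum_congr rfl fun p _ => ?_
    rw [inv_im, hw]
  have hup : g₀.im ≤ C₁ := by rw [him]; exact d1
  have hlow : c₁ / 2 ≤ g₀.im := by
    have h1 := hdsl M ζ.re w 0 ⟨0, by omega⟩ hreal hw0 (by linarith only [hc, k4, hηc, hvg, hw1])
      (hMC C₂ hC₂0 (by linarith only [hC₁, hc, k2, hCd]))
    have h2 : pm (fun p : Tor d M => if |es p - ζ.re| ≤ w then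
        Real.sin (2 * Real.pi * ((p ⟨0, by omega⟩).valMinAbs : ℝ) / M - 0) ^ 2 else 0) ≤
        pm (fun p : Tor d M => 2 * w * (w / ((es p - ζ.re) ^ 2 + w ^ 2))) := by
      refine pm_mono' fun p => ?_
      have h3 : 0 < (es p - ζ.re) ^ 2 + w ^ 2 := by positivity
      split_ifs with h4
      · have h5 : (es p - ζ.re) ^ 2 ≤ w ^ 2 := sq_le_sq' (abs_le.1 h4).1 (abs_le.1 h4).2
        refine (Real.sin_sq_le_one _).trans ?_
        rw [← mul_div_assoc, le_div_iff₀ h3]
        nlinarith only [h5]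
      · positivity
    rw [pm_const_mul, ← him] at h2
    have h6 : c₁ * w ≤ 2 * g₀.im * w := by linarith
    have := le_of_mul_le_mul_right h6 hw0
    linarith only [this]
  have hdim : |g.im - g₀.im| ≤ s₀ * (C₁ * l') := by
    rw [← Complex.sub_im]
    exact (Complex.abs_im_le_norm _).trans hD
  obtain ⟨q1, q2⟩ := abs_le.1 hdim
  rw [← hg₀]
  refine ⟨hreal, ⟨by linarith only [k4, hDc, hlow, q1], ?_⟩, ?_, ⟨by linarith only [hc, k4, hlow], by linarith⟩, ?_⟩
  · linarith
  · refine hdim.trans ?_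
    have h1 : 0 ≤ s₀ * l' := by positivity
    calc s₀ * (C₁ * l') = C₁ * (s₀ * l') := by ring
      _ ≤ C * (s₀ * l') := mul_le_mul_of_nonneg_right (by linarith only [hC₁, hC₂, hc, k2, hCd]) h1
      _ = C * s₀ * l' := by ring
  · rw [hg₀]
    exact r5 0

end Pool.Agent.LE.QD.H93
end
end -- Pool.Agent.Helper93_LQD.SCE
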