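import Pool.Agent.Helper12_MEB.B084

/-!
# Merged copies (generated) of the modules

* `Pool.Agent.Helper33_LQD.Ev`
* `Pool.Agent.Helper33_LQD.TOA`
* `Pool.Agent.Helper33_LQD.TOB`
* `Pool.Agent.Helper33_LQD.TOM`
-/

set_option autoImplicit false

section -- Pool.Agent.Helper33_LQD.Ev

/-!
# Powers of logarithms
-/

set_option autoImplicit false

open Filter Topology

noncomputable section

namespace Pool.Agent.LE.QD.H33

/-- powers beat powers of the logarithm -/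
theorem ev (K : ℝ) {a : ℝ} (b : ℕ) (ha : 0 < a) :
    ∀ᶠ t in 𝓝[>] (0 : ℝ), K * (t ^ a * Real.log (1 / t) ^ b) ≤ 1 := by
  have hb : (0 : ℝ) < b + 1 := by positivity
  have hab : 0 < a / (b + 1) := div_pos ha hb
  have h1 : Tendsto (fun t : ℝ => Real.log t * t ^ (a / (b + 1))) (𝓝[>] 0) (𝓝 0) :=
    tendsto_log_mul_rpow_nhdsGT_zero hab
  have h2 : Tendsto (fun t : ℝ => (-(Real.log t * t ^ (a / (b + 1)))) ^ b) (𝓝[>] 0)
      (𝓝 ((-0) ^ b)) := h1.neg.pow b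
  have h3 : Tendsto (fun t : ℝ => t ^ (a / (b + 1))) (𝓝[>] 0) (𝓝 0) := by
    have h := (Real.continuousAt_rpow_const 0 (a / (b + 1)) (Or.inr hab.le)).tendsto
    rw [Real.zero_rpow hab.ne'] at h
    exact h.mono_left nhdsWithin_le_nhds
  have h4 : Tendsto (fun t : ℝ => K * ((-(Real.log t * t ^ (a / (b + 1)))) ^ b *
      t ^ (a / (b + 1)))) (𝓝[>] 0) (𝓝 (K * ((-0) ^ b * 0))) := (h2.mul h3).const_mul K
  rw [mul_zero, mul_zero] at h4
  filter_upwards [h4.eventually_le_const one_pos, self_mem_nhdsWithin] with t ht ht0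
  have ht0' : (0 : ℝ) < t := ht0
  have e1 : t ^ a * Real.log (1 / t) ^ b = (-(Real.log t * t ^ (a / (b + 1)))) ^ b *
      t ^ (a / (b + 1)) := by
    have e2 : t ^ a = (t ^ (a / (b + 1))) ^ (b + 1) := by
      rw [← Real.rpow_natCast, ← Real.rpow_mul ht0'.le]
      congr 1
      push_cast
      field_simp
    rw [e2, one_div, Real.log_inv, pow_succ, ← neg_mul, mul_pow]
    ring
  rw [e1]
  exact ht

/-- extraction of a threshold -/
theorem ext {P : ℝ → Prop} (h : ∀ᶠ t in 𝓝[>] (0 : ℝ), P t) (c₀ : ℝ) (hc₀ : 0 < c₀) :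
    ∃ c : ℝ, 0 < c ∧ c ≤ c₀ ∧ ∀ t, 0 < t → t ≤ c → P t := by
  obtain ⟨u, hu, hs⟩ := (mem_nhdsGT_iff_exists_Ioc_subset).1 h
  refine ⟨min u c₀, lt_min hu hc₀, min_le_right _ _, fun t h1 h2 => hs ⟨h1, ?_⟩⟩
  exact h2.trans (min_le_left _ _)

theorem te {t : ℝ} (ht : 0 < t) (a : ℝ) : t ^ a = Real.exp (-(a * Real.log (1 / t))) := by
  rw [Real.rpow_def_of_pos ht, one_div, Real.log_inv]
  congr 1
  ring

/-- `t ^ a` as a natural power of `x = t ^ (1 / 30)` -/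
theorem pw {t : ℝ} (ht : 0 < t) (n : ℕ) {a : ℝ} (h : a = n / 30) :
    t ^ a = (t ^ (1 / 30 : ℝ)) ^ n := by
  rw [h, ← Real.rpow_natCast, ← Real.rpow_mul ht.le]
  congr 1
  ring

theorem pwn {t : ℝ} (ht : 0 < t) (n : ℕ) {a : ℝ} (h : a = -(n / 30)) :
    t ^ a = ((t ^ (1 / 30 : ℝ)) ^ n)⁻¹ := by
  rw [h, Real.rpow_neg ht.le, pw ht n rfl]

theorem evx (K : ℝ) (m b : ℕ) (hm : 1 ≤ m) : ∀ᶠ t in 𝓝[>] (0 : ℝ),
    K * ((t ^ (1 / 30 : ℝ)) ^ m * Real.log (1 / t) ^ b) ≤ 1 := by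
  have hm' : (0 : ℝ) < m := by exact_mod_cast hm
  have h := ev K (a := m / 30) b (by positivity)
  filter_upwards [h, self_mem_nhdsWithin] with t ht ht0
  rw [← pw ht0 m rfl]
  exact ht

/-- the basic facts -/
theorem base {t : ℝ} (ht : 0 < t) (h4 : t ≤ 1 / 4) : 0 < t ^ (1 / 30 : ℝ) ∧
    t ^ (1 / 30 : ℝ) ≤ 1 ∧ (t ^ (1 / 30 : ℝ)) ^ 30 = t ∧ 1 ≤ Real.log (1 / t) := by
  refine ⟨Real.rpow_pos_of_pos ht _, Real.rpow_le_one ht.le (by linarith) (by norm_num), ?_, ?_⟩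
  · rw [← pw ht 30 (a := 1) (by norm_num), Real.rpow_one]
  · rw [Real.le_log_iff_exp_le (by positivity)]
    have h1 : 4 ≤ 1 / t := by
      rw [le_div_iff₀ ht]
      linarith
    have h2 := Real.exp_one_lt_d9
    linarith

/-- the volume of the torus -/
theorem expM {M : ℕ} {t : ℝ} (ht : 0 < t) (hM : (M : ℝ) ≤ t ^ (-20 : ℝ)) (d : ℕ) :
    (M : ℝ) ^ d ≤ Real.exp (20 * d * Real.log (1 / t)) := by
  rw [te ht] at hM
  calc (M : ℝ) ^ d ≤ (Real.exp (-(-20 * Real.log (1 / t)))) ^ d :=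
        pow_le_pow_left₀ (Nat.cast_nonneg _) hM d
    _ = Real.exp (20 * d * Real.log (1 / t)) := by
        rw [← Real.exp_nat_mul]
        congr 1
        ring

end Pool.Agent.LE.QD.H33
end
end -- Pool.Agent.Helper33_LQD.Ev

section -- Pool.Agent.Helper33_LQD.TOA

/-!
# Row TOA: numbers on the torus, the diagonal and the self-consistent equation
-/

set_option autoImplicit false

open MeasureTheory ProbabilityTheory Function Filter

open scoped ENNReal BigOperators Topology NNReal ComplexOrder Matrix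

noncomputable section

namespace Pool.Agent.LE.QD.H33

open Pool.Agent.Anderson hiding box mem_box card_box
open Pool.Agent.Loc Pool.Agent.Mob Pool.Agent.Helper54.Bal
  Pool.Agent.Helper96.EXP Pool.Agent.BED
open Pool.Agent.LE.MN Pool.Agent.LE.CL Pool.Agent.LE.IR

/-! ### numbers -/

/-- the numbers of the form bound -/
theorem num_f {d M k : ℕ} {l a K₂ K₁ C₂ B η₁ v r : ℝ} (hl : 1 ≤ l)
    (hM : (M : ℝ) ^ d ≤ Real.exp (20 * d * l)) (hC : 1 ≤ C₂) (hK2 : K₂ = 2 * (20 * d + a + 1))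
    (ht : Real.exp (-l) ≤ 1 / 4) (ha : 0 ≤ a) (hK1 : K₁ = 600 * K₂ ^ 2 * C₂) (hB0 : 0 ≤ B)
    (hB : B ≤ 3 * C₂ * l) (hv : 0 < v) (hη : η₁ = K₁ * v * l ^ 3) (hr : r ^ 2 = K₂ * l)
    (hk : k = ⌈K₂ * l⌉₊) :
    2 * (M : ℝ) ^ d * Real.exp (-(r ^ 2 / 2)) +
      (M : ℝ) ^ d * (2 * k * r ^ 2 * v * (B / η₁) / (1 / 4) ^ 2) ^ k ≤ Real.exp (-(a * l)) := by
  have hd0 : (0 : ℝ) ≤ d := Nat.cast_nonneg d
  have hK2' : 2 ≤ K₂ := by rw [hK2]; linarith only [ha]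
  have hl0 : 0 < l := by linarith only [hl]
  have hKl : 1 ≤ K₂ * l := by nlinarith only [hl, hK2, ha]
  have hk1 : K₂ * l ≤ k := by rw [hk]; exact Nat.le_ceil _
  have hk2 : (k : ℝ) ≤ 2 * (K₂ * l) := by
    have h := (Nat.ceil_lt_add_one (show 0 ≤ K₂ * l by linarith only [hKl])).le
    rw [← hk] at h
    linarith only [hKl, h]
  have hK1' : 0 < K₁ := by rw [hK1]; positivity
  have hq0 : 0 ≤ 2 * k * r ^ 2 * v * (B / η₁) / (1 / 4) ^ 2 := by
    rw [hη]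
    positivity
  have hq : 2 * k * r ^ 2 * v * (B / η₁) / (1 / 4) ^ 2 ≤ Real.exp (-1) := by
    have e1 : 2 * k * r ^ 2 * v * (B / η₁) / (1 / 4) ^ 2 =
        32 * (k * (K₂ * l)) * (B / (K₁ * l ^ 3)) := by
      rw [hr, hη]
      field_simp
      ring
    have e2 : B / (K₁ * l ^ 3) ≤ 3 * C₂ * l / (K₁ * l ^ 3) :=
      div_le_div_of_nonneg_right hB (by positivity)
    have e3 : 32 * (k * (K₂ * l)) * (B / (K₁ * l ^ 3)) ≤
        32 * (2 * (K₂ * l) * (K₂ * l)) * (3 * C₂ * l / (K₁ * l ^ 3)) := by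
      apply mul_le_mul _ e2 (by positivity) (by positivity)
      have := mul_le_mul_of_nonneg_right hk2 (show 0 ≤ K₂ * l by linarith only [hKl])
      linarith only [this]
    have e4 : 32 * (2 * (K₂ * l) * (K₂ * l)) * (3 * C₂ * l / (K₁ * l ^ 3)) = 192 / 600 := by
      rw [hK1]
      field_simp
      norm_num
    have e5 := Real.exp_neg_one_gt_d9
    rw [e1]
    rw [e4] at e3
    refine e3.trans ?_
    norm_num at e5 ⊢
    linarith only [e5]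
  have hqk : (2 * k * r ^ 2 * v * (B / η₁) / (1 / 4) ^ 2) ^ k ≤ Real.exp (-(K₂ * l)) := by
    refine (pow_le_pow_left₀ hq0 hq k).trans ?_
    rw [← Real.exp_nat_mul]
    apply Real.exp_le_exp.2
    linarith only [hk1]
  have h1 : 2 * (M : ℝ) ^ d * Real.exp (-(r ^ 2 / 2)) ≤ 2 * Real.exp (-((a + 1) * l)) := by
    rw [mul_assoc]
    refine mul_le_mul_of_nonneg_left ?_ (by norm_num)
    calc (M : ℝ) ^ d * Real.exp (-(r ^ 2 / 2)) ≤
        Real.exp (20 * d * l) * Real.exp (-(r ^ 2 / 2)) :=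
          mul_le_mul_of_nonneg_right hM (Real.exp_pos _).le
      _ = Real.exp (-((a + 1) * l)) := by
          rw [← Real.exp_add, hr, hK2]
          congr 1
          ring
  have h2 : (M : ℝ) ^ d * (2 * k * r ^ 2 * v * (B / η₁) / (1 / 4) ^ 2) ^ k ≤
      Real.exp (-((a + 1) * l)) := by
    calc (M : ℝ) ^ d * (2 * k * r ^ 2 * v * (B / η₁) / (1 / 4) ^ 2) ^ k ≤
        Real.exp (20 * d * l) * Real.exp (-(K₂ * l)) :=
          mul_le_mul hM hqk (pow_nonneg hq0 k) (Real.exp_pos _).le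
      _ ≤ Real.exp (-((a + 1) * l)) := by
          rw [← Real.exp_add]
          apply Real.exp_le_exp.2
          rw [hK2]
          nlinarith only [mul_nonneg hd0 hl0.le, mul_nonneg ha hl0.le, hl]
  have h3 : Real.exp (-((a + 1) * l)) = Real.exp (-l) * Real.exp (-(a * l)) := by
    rw [← Real.exp_add]
    congr 1
    ring
  have h4 : Real.exp (-l) * Real.exp (-(a * l)) ≤ 1 / 4 * Real.exp (-(a * l)) :=
    mul_le_mul_of_nonneg_right ht (Real.exp_pos _).le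
  have h5 := Real.exp_pos (-(a * l))
  linarith only [h1, h2, h3, h4, h5]

/-- the numbers of the concentration -/
theorem num_d {d M : ℕ} {l a X : ℝ} (hM : (M : ℝ) ^ d ≤ Real.exp (20 * d * l))
    (ht : Real.exp (-l) ≤ 1 / 4) (hX : (20 * d + a + 2) * l ≤ X) :
    Real.exp (-((a + 3) * l)) + (M : ℝ) ^ d * (4 * Real.exp (-X)) ≤ Real.exp (-(a * l)) := by
  have h1 : (M : ℝ) ^ d * (4 * Real.exp (-X)) ≤ 4 * Real.exp (-((a + 2) * l)) := by
    calc (M : ℝ) ^ d * (4 * Real.exp (-X)) ≤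
        Real.exp (20 * d * l) * (4 * Real.exp (-((20 * d + a + 2) * l))) := by
          refine mul_le_mul hM ?_ (by positivity) (Real.exp_pos _).le
          refine mul_le_mul_of_nonneg_left (Real.exp_le_exp.2 (by linarith only [hX])) (by norm_num)
      _ = 4 * Real.exp (-((a + 2) * l)) := by
          rw [mul_left_comm, ← Real.exp_add]
          congr 2
          ring
  have e2 : Real.exp (-((a + 2) * l)) = Real.exp (-l) ^ 2 * Real.exp (-(a * l)) := by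
    rw [← Real.exp_nat_mul, ← Real.exp_add]
    congr 1
    push_cast
    ring
  have e3 : Real.exp (-((a + 3) * l)) = Real.exp (-l) ^ 3 * Real.exp (-(a * l)) := by
    rw [← Real.exp_nat_mul, ← Real.exp_add]
    congr 1
    push_cast
    ring
  have h0 := Real.exp_pos (-l)
  have h5 := Real.exp_pos (-(a * l))
  have h2 : Real.exp (-l) ^ 2 ≤ (1 / 4) ^ 2 := pow_le_pow_left₀ h0.le ht 2
  have h3 : Real.exp (-l) ^ 3 ≤ (1 / 4) ^ 3 := pow_le_pow_left₀ h0.le ht 3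
  have h6 := mul_le_mul_of_nonneg_right h2 h5.le
  have h7 := mul_le_mul_of_nonneg_right h3 h5.le
  rw [e3]
  rw [e2] at h1
  linarith only [h1, h5, h6, h7]

/-! ### the resolvent -/

section res

variable {d M : ℕ} [NeZero M]

theorem mt_es (E η : ℝ) (p : Tor d M) :
    IR.mt (2 * d - E) η p = Real.sqrt ((es p - E) ^ 2 + η ^ 2) := by
  unfold IR.mt es
  congr 1
  ring

theorem rs_bd (hRal : RalStmt) (V : Tor d M → ℝ) {z : ℂ} (hz : 0 < z.im) (x y : Tor d M) :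
    ‖rs V z x y‖ ≤ 1 / z.im := (hRal d M V z hz).2.2.2.2.2.2.2.2.2.2.2 x y

theorem rs_cont (hRal : RalStmt) {z : ℂ} (hz : 0 < z.im) (x y : Tor d M) :
    Continuous fun W : Tor d M → ℝ => rs W z x y :=
  (hRal d M 0 z hz).2.2.2.2.2.2.2.2.2.1 x y

theorem gb_bd (hRal : RalStmt) (v : ℝ≥0) {z : ℂ} (hz : 0 < z.im) : ‖gb d M v z‖ ≤ 1 / z.im := by
  have := gau_isProb (d := d) (M := M) v
  have h := norm_integral_le_of_norm_le_const (μ := gau d M v)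
    (Eventually.of_forall fun V => rs_bd hRal V hz (0 : Tor d M) 0)
  rw [probReal_univ, mul_one] at h
  exact h

/-- the variance of the diagonal -/
theorem var_le (hRal : RalStmt) (v : ℝ≥0) {z : ℂ} (hz : 0 < z.im) {δ₀ p : ℝ} (hp : 0 ≤ p)
    (h : gau d M v {V | ¬ ∀ x, ‖rs V z x x - gb d M v z‖ ≤ δ₀} ≤ ENNReal.ofReal p) :
    ∫ V, ‖rs V z 0 0 - gb d M v z‖ ^ 2 ∂(gau d M v) ≤ δ₀ ^ 2 + (2 / z.im) ^ 2 * p := by
  have := gau_isProb (d := d) (M := M) v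
  obtain ⟨T, hT⟩ : ∃ T : Set (Tor d M → ℝ), T = {V | δ₀ < ‖rs V z 0 0 - gb d M v z‖} := ⟨_, rfl⟩
  have hTm : MeasurableSet T := by
    rw [hT]
    exact measurableSet_lt measurable_const
      ((rs_cont hRal hz 0 0).sub continuous_const).norm.measurable
  have hTS : T ⊆ {V | ¬ ∀ x, ‖rs V z x x - gb d M v z‖ ≤ δ₀} := by
    intro V hV hcon
    rw [hT] at hV
    exact absurd (hcon 0) (not_le.2 hV)
  have hTp : (gau d M v).real T ≤ p := by
    rw [measureReal_def]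
    exact ENNReal.toReal_le_of_le_ofReal hp ((measure_mono hTS).trans h)
  have hb : ∀ V : Tor d M → ℝ, ‖rs V z 0 0 - gb d M v z‖ ≤ 2 / z.im := by
    intro V
    refine (norm_sub_le _ _).trans ?_
    have h1 := rs_bd hRal V hz (0 : Tor d M) 0
    have h2 := gb_bd (d := d) (M := M) hRal v hz
    have h3 : (2 : ℝ) / z.im = 1 / z.im + 1 / z.im := by ring
    rw [h3]
    exact add_le_add h1 h2
  have hle : ∀ V : Tor d M → ℝ, ‖rs V z 0 0 - gb d M v z‖ ^ 2 ≤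
      δ₀ ^ 2 + T.indicator (fun _ => (2 / z.im) ^ 2) V := by
    intro V
    by_cases hV : V ∈ T
    · rw [Set.indicator_of_mem hV]
      have := pow_le_pow_left₀ (norm_nonneg _) (hb V) 2
      nlinarith [sq_nonneg δ₀]
    · rw [Set.indicator_of_notMem hV, add_zero]
      rw [hT] at hV
      exact pow_le_pow_left₀ (norm_nonneg _) (not_lt.1 hV) 2
  have hint : Integrable (fun V => δ₀ ^ 2 + T.indicator (fun _ => (2 / z.im) ^ 2) V)
      (gau d M v) :=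
    (integrable_const _).add ((integrable_const _).indicator hTm)
  refine (integral_mono_of_nonneg (Eventually.of_forall fun V => sq_nonneg _) hint
    (Eventually.of_forall hle)).trans ?_
  rw [integral_add (integrable_const _) ((integrable_const _).indicator hTm), integral_const,
    integral_indicator_const _ hTm, probReal_univ, one_smul, smul_eq_mul]
  have := mul_le_mul_of_nonneg_right hTp (sq_nonneg (2 / z.im))
  linarith

/-- two events of small measure have a common good point -/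
theorem ex_good {v : ℝ≥0} {P Q : (Tor d M → ℝ) → Prop} {p q : ℝ} (hp : 0 ≤ p) (hq : 0 ≤ q)
    (hpq : p + q < 1) (h1 : gau d M v {V | ¬ P V} ≤ ENNReal.ofReal p)
    (h2 : gau d M v {V | ¬ Q V} ≤ ENNReal.ofReal q) : ∃ V, P V ∧ Q V := by
  have := gau_isProb (d := d) (M := M) v
  by_contra hcon
  push Not at hcon
  have h3 : (Set.univ : Set (Tor d M → ℝ)) ⊆ {V | ¬ P V} ∪ {V | ¬ Q V} := by
    intro V _
    by_cases hV : P V
    · exact Or.inr (hcon V hV)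
    · exact Or.inl hV
  have h4 := (measure_mono h3).trans (measure_union_le (μ := gau d M v) _ _)
  rw [measure_univ] at h4
  have h5 := h4.trans (add_le_add h1 h2)
  rw [← ENNReal.ofReal_add hp hq, ENNReal.one_le_ofReal] at h5
  linarith

end res

/-! ### the theorem -/

theorem dinv {C x : ℝ} (hx : 0 < x) (a b : ℕ) (h : C * x ^ b ≤ 1) :
    C / x ^ a ≤ (x ^ (a + b))⁻¹ := by
  have h1 : 0 < x ^ a := pow_pos hx a
  have h2 : 0 < x ^ b := pow_pos hx b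
  rw [div_le_iff₀ h1, pow_add, mul_inv, mul_right_comm, inv_mul_cancel₀ h1.ne', one_mul,
    ← one_div, le_div_iff₀ h2]
  exact h

theorem ec_zero {d M : ℕ} [NeZero M] (p : Tor d M) : ec p 0 = 1 := by
  unfold ec
  simp

/-- TOA -/
theorem toa (hRal : RalStmt) (hSob : SobStmt) (hDsu : DsuStmt) (hFbp : FbpStmt)
    (hRes : ResStmt) (hDia : DiaStmt) (hMea : MeaStmt) (hSce : SceStmt) : ToaStmt := by
  intro d δ A' hd hδ hA'
  obtain ⟨C₁, hC₁, sob⟩ := hSob d hd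
  obtain ⟨C₂, hC₂, dsu⟩ := hDsu d hd
  obtain ⟨c₃, C₃, hc₃, hc₃1, hC₃, sce⟩ := hSce d δ hd hδ
  obtain ⟨K₂, hK₂⟩ : ∃ K₂ : ℝ, K₂ = 2 * (20 * d + (A' + 9) + 1) := ⟨_, rfl⟩
  obtain ⟨K₁, hK₁⟩ : ∃ K₁ : ℝ, K₁ = 600 * K₂ ^ 2 * C₂ := ⟨_, rfl⟩
  obtain ⟨Q, hQ⟩ : ∃ Q : ℝ, Q = 13230 * C₁ * C₂ * K₁ ^ 2 := ⟨_, rfl⟩
  have hd0 : (0 : ℝ) ≤ d := Nat.cast_nonneg d
  have hK₂2 : 2 ≤ K₂ := by rw [hK₂]; linarith only [hA']
  have hK₁1 : 1 ≤ K₁ := by
    rw [hK₁]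
    nlinarith [mul_le_mul hC₂ (pow_le_pow_left₀ (by norm_num) hK₂2 2) (by positivity)
      (by linarith only [hC₂] : (0 : ℝ) ≤ C₂)]
  have hQ0 : 0 < Q := by rw [hQ]; positivity
  have ev1 := evx K₁ 60 3 (by norm_num)
  have ev2 := evx C₁ 180 0 (by norm_num)
  have ev3 := evx C₂ 240 0 (by norm_num)
  have ev4 := evx (80 * Q ^ 2 * (20 * d + (A' + 6) + 2)) 2 19 (by norm_num)
  have ev5 := evx 8 23 0 (by norm_num)
  have ev6 := evx (8 * C₂ * K₁ / c₃) 58 4 (by norm_num)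
  have ev7 := evx (2 / c₃) 65 0 (by norm_num)
  have ev8 := evx (1 / c₃) 62 0 (by norm_num)
  have ev9 := evx C₃ 238 0 (by norm_num)
  have ev10 := evx (4 / c₃) 60 1 (by norm_num)
  have ev11 := evx (8 / c₃) 3 1 (by norm_num)
  obtain ⟨c, hc0, hcm, hev⟩ := ext (ev1.and (ev2.and (ev3.and (ev4.and (ev5.and (ev6.and
    (ev7.and (ev8.and (ev9.and (ev10.and ev11)))))))))) (min c₃ (1 / 4))
    (lt_min hc₃ (by norm_num))
  have hc3 : c ≤ c₃ := hcm.trans (min_le_left _ _)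
  have hc4 : c ≤ 1 / 4 := hcm.trans (min_le_right _ _)
  obtain ⟨C, hC⟩ : ∃ C : ℝ, C = C₃ + K₁ + 441 * C₁ + 3 * C₂ := ⟨_, rfl⟩
  refine ⟨c, C, hc0, hc4, by rw [hC]; linarith only [hC₁, hC₂, hC₃, hK₁1, hc0, hc4], ?_⟩
  intro M _ v σ E η hv hσ hσc hE hη hM1 hM2
  obtain ⟨t, ht⟩ : ∃ t : ℝ, t = |σ| := ⟨_, rfl⟩
  have ht0 : 0 < t := by rw [ht]; exact abs_pos.2 hσ
  rw [← ht] at hσc hη hM1 hM2 ⊢
  have hv2 : (v : ℝ) = t ^ 2 := by rw [hv, ht, sq_abs]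
  rw [← hv, hv2]
  obtain ⟨f1, f2, f3, f4, f5, f6, f7, f8, f9, f10, f11⟩ := hev t ht0 hσc
  have ht4 : t ≤ 1 / 4 := hσc.trans hc4
  obtain ⟨hx0, hx1, hx30, hl⟩ := base ht0 ht4
  have hMx := expM ht0 hM2 d
  have pw31 := pw ht0 62 (a := 31 / 15) (by norm_num)
  have pw6 := pw ht0 5 (a := 1 / 6) (by norm_num)
  have pw10 := pw ht0 3 (a := 1 / 10) (by norm_num)
  have pwm10 := pwn ht0 300 (a := -10) (by norm_num)
  have pwm23 := pwn ht0 20 (a := -(2 / 3)) (by norm_num)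
  have pwA := te ht0 A'
  have hlt : Real.exp (-Real.log (1 / t)) = t := by
    rw [one_div, Real.log_inv, neg_neg, Real.exp_log ht0]
  have hM20 : Real.log M ≤ 20 * Real.log (1 / t) := by
    have h1 : (0 : ℝ) < M := Nat.cast_pos.2 (NeZero.pos M)
    have h2 := Real.log_le_log h1 hM2
    rw [Real.log_rpow ht0] at h2
    rw [one_div, Real.log_inv]
    linarith only [h2]
  rw [pw31] at hη
  rw [pwm10] at hM1
  rw [pw6, pw10, pwm23, pwA]
  generalize hx : t ^ (1 / 30 : ℝ) = x at *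
  generalize hl' : Real.log (1 / t) = l at *
  simp only [pow_zero, mul_one, pow_one] at f1 f2 f3 f4 f5 f6 f7 f8 f9 f10 f11
  have hxt : t ^ 2 = x ^ 60 := by rw [← hx30]; ring
  have hl0 : 0 < l := by linarith only [hc0, hc4, hl]
  have hl1 : 0 < Real.exp (-l) := Real.exp_pos _
  have hexp4 : Real.exp (-l) ≤ 1 / 4 := by rw [hlt]; exact ht4
  rw [hxt] at hv2 ⊢
  have hv0 : 0 < (v : ℝ) := by rw [hv2]; positivity
  have hη0 : 0 < η := by rw [hη]; positivity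
  -- the scale `η₁`
  obtain ⟨η₁, hη₁⟩ : ∃ η₁ : ℝ, η₁ = K₁ * v * l ^ 3 := ⟨_, rfl⟩
  have hη₁' : η₁ = K₁ * x ^ 60 * l ^ 3 := by rw [hη₁, hv2]
  have hl3 : 1 ≤ l ^ 3 := one_le_pow₀ hl
  have hKl3 : 1 ≤ K₁ * l ^ 3 := one_le_mul_of_one_le_of_one_le hK₁1 hl3
  have hη₁x : x ^ 60 ≤ η₁ := by
    rw [hη₁']
    have := mul_le_mul_of_nonneg_left hKl3 (by positivity : 0 ≤ x ^ 60)
    linarith only [this]
  have hηη₁ : η ≤ η₁ := by
    have : x ^ 62 ≤ x ^ 60 := pow_le_pow_of_le_one hx0.le hx1 (by norm_num)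
    rw [hη]
    linarith only [hη₁x, this]
  have hη₁1 : η₁ ≤ 1 := by
    rw [hη₁']
    linarith only [f1]
  have hη₁0 : 0 < η₁ := lt_of_lt_of_le (by positivity) hη₁x
  have hM1' : (1 : ℝ) ≤ M := by
    exact_mod_cast Nat.one_le_iff_ne_zero.2 (NeZero.ne M)
  have hlogM : 0 ≤ Real.log M := Real.log_nonneg hM1'
  -- the Sobolev inequality
  have hsobM : C₁ / η₁ ^ 2 ≤ M := by
    have h1 : C₁ / η₁ ^ 2 ≤ C₁ / x ^ 120 := by
      refine div_le_div_of_nonneg_left (by linarith only [hC₁, hc0, hc4]) (by positivity) ?_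
      calc x ^ 120 = (x ^ 60) ^ 2 := by ring
        _ ≤ η₁ ^ 2 := pow_le_pow_left₀ (by positivity) hη₁x 2
    exact h1.trans ((dinv hx0 120 180 f2).trans hM1)
  obtain ⟨A, hA⟩ : ∃ A : ℝ, A = C₁ * η₁ ^ (-(1 / 3 : ℝ)) * (1 + Real.log M) ^ 2 := ⟨_, rfl⟩
  have hS : Sob d M E η₁ A := by
    rw [hA]
    exact sob M E η₁ hη₁0 hη₁1 hsobM
  have hA0 : 0 < A := by rw [hA]; positivity
  have hη₁r : η₁ ^ (-(1 / 3 : ℝ)) ≤ (x ^ 20)⁻¹ := by
    refine ((Real.rpow_le_rpow_iff_of_neg hη₁0 (by positivity) (by norm_num)).2 hη₁x).trans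
      (le_of_eq ?_)
    rw [← Real.rpow_natCast, ← Real.rpow_mul hx0.le, ← Real.rpow_natCast, ← Real.rpow_neg hx0.le]
    norm_num
  have hAle : A ≤ 441 * C₁ * (x ^ 20)⁻¹ * l ^ 2 := by
    rw [hA]
    have h1 : (1 + Real.log M) ^ 2 ≤ (21 * l) ^ 2 :=
      pow_le_pow_left₀ (by positivity) (by linarith only [hl, hM20]) 2
    calc C₁ * η₁ ^ (-(1 / 3 : ℝ)) * (1 + Real.log M) ^ 2 ≤ C₁ * (x ^ 20)⁻¹ * (21 * l) ^ 2 := by
          gcongr
      _ = 441 * C₁ * (x ^ 20)⁻¹ * l ^ 2 := by ring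
  -- the density of states
  obtain ⟨B, hB⟩ : ∃ B : ℝ, B = C₂ * (1 + 2 * l) := ⟨_, rfl⟩
  have hB0 : 0 < B := by rw [hB]; positivity
  have hBle : B ≤ 3 * C₂ * l := by
    rw [hB]
    have := mul_le_mul_of_nonneg_left (show 1 + 2 * l ≤ 3 * l by linarith only [hl])
      (by linarith only [hC₂, hc0, hc4] : 0 ≤ C₂)
    linarith only [this]
  have hdsuM : C₂ / η₁ ≤ M := by
    have h1 : C₂ / η₁ ≤ C₂ / x ^ 60 :=
      div_le_div_of_nonneg_left (by linarith only [hC₂, hc0, hc4]) (by positivity) hη₁x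
    exact h1.trans ((dinv hx0 60 240 f3).trans hM1)
  have hpm : pm (fun p : Tor d M => (IR.mt (2 * d - E) η₁ p)⁻¹) ≤ B := by
    have h1 := (dsu M E η₁ hη₁0 hη₁1 hdsuM).2
    simp_rw [mt_es]
    refine h1.trans ?_
    rw [hB]
    refine mul_le_mul_of_nonneg_left ?_ (by linarith only [hC₂, hc0, hc4])
    have h2 : Real.log (1 / η₁) ≤ Real.log (1 / t ^ 2) := by
      refine Real.log_le_log (by positivity) (one_div_le_one_div_of_le (by positivity) ?_)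
      rw [hxt]
      exact hη₁x
    have h3 : Real.log (1 / t ^ 2) = 2 * l := by
      rw [← hl', one_div, one_div, Real.log_inv, Real.log_inv, Real.log_pow]
      push_cast
      ring
    linarith only [h2, h3]
  -- the form bound
  have hr2 : (Real.sqrt (K₂ * l)) ^ 2 = K₂ * l := Real.sq_sqrt (by positivity)
  have hF0 : gau d M v {V | ¬ FBq E η₁ (1 / 4) V} ≤
      ENNReal.ofReal (Real.exp (-((A' + 9) * l))) := by
    refine (hFbp d M v E η₁ (1 / 4) (Real.sqrt (K₂ * l)) B ⌈K₂ * l⌉₊ hη₁0 (by norm_num)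
      (Real.sqrt_nonneg _) (Nat.one_le_ceil_iff.2 (by positivity)) hpm).trans
      (ENNReal.ofReal_le_ofReal ?_)
    exact num_f hl hMx hC₂ hK₂ hexp4 (by linarith only [hA', hc0, hc4]) hK₁ hB0.le hBle hv0 hη₁ hr2 rfl
  have hexp : ∀ (a : ℝ) (n : ℕ), (n : ℝ) ≤ a → Real.exp (-(a * l)) ≤ x ^ (30 * n) := by
    intro a n han
    have h1 : Real.exp (-(a * l)) ≤ Real.exp (-l) ^ n := by
      rw [← Real.exp_nat_mul]
      apply Real.exp_le_exp.2
      have := mul_le_mul_of_nonneg_right han hl0.le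
      linarith only [this]
    rw [hlt, ← hx30, ← pow_mul] at h1
    exact h1
  have hp90 : Real.exp (-((A' + 9) * l)) ≤ x ^ 90 := hexp _ 3 (by push_cast; linarith only [hA', hc0, hc4])
  have hp180 : Real.exp (-((A' + 6) * l)) ≤ x ^ 180 := hexp _ 6 (by push_cast; linarith only [hA', hc0, hc4])
  -- the diagonal
  have hratio : η₁ / η = K₁ * l ^ 3 / x ^ 2 := by
    rw [hη₁', hη]
    field_simp
  have hD0 : gau d M v {V | ¬ ∀ y, ‖rs V ⟨E, η⟩ y y - gb d M v ⟨E, η⟩‖ ≤ x ^ 5} ≤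
      ENNReal.ofReal (Real.exp (-((A' + 6) * l))) := by
    have h1 := hDia d M v E η η₁ A B (Real.exp (-((A' + 9) * l))) (x ^ 5 / 4) hη0 hηη₁ hA0 hB0 hS
      hpm hF0 (Real.exp_pos _).le (by positivity)
    refine (measure_mono ?_).trans (h1.trans (ENNReal.ofReal_le_ofReal ?_))
    · intro V hV hcon
      apply hV
      intro y
      refine (hcon y).trans ?_
      have h2 : 4 * Real.exp (-((A' + 9) * l)) / η ≤ 4 * x ^ 28 := by
        rw [hη, div_le_iff₀ (by positivity)]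
        calc 4 * Real.exp (-((A' + 9) * l)) ≤ 4 * x ^ 90 := by linarith only [hp90]
          _ = 4 * x ^ 28 * x ^ 62 := by ring
      have h3 : 4 * x ^ 28 ≤ x ^ 5 / 2 := by
        have := mul_le_mul_of_nonneg_right f5 (by positivity : 0 ≤ x ^ 5 / 2)
        calc 4 * x ^ 28 = 8 * x ^ 23 * (x ^ 5 / 2) := by ring
          _ ≤ 1 * (x ^ 5 / 2) := this
          _ = x ^ 5 / 2 := one_mul _
      linarith only [h2, h3]
    · have h2 : (20 * d + (A' + 6) + 2) * l ≤ (x ^ 5 / 4) ^ 2 /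
          (5 * (10 * A * B * (η₁ / η) ^ 2) ^ 2 * v) := by
        rw [le_div_iff₀ (by positivity)]
        have h3 : 10 * A * B * (η₁ / η) ^ 2 ≤ Q * l ^ 9 / x ^ 24 := by
          rw [hratio]
          calc 10 * A * B * (K₁ * l ^ 3 / x ^ 2) ^ 2 ≤
              10 * (441 * C₁ * (x ^ 20)⁻¹ * l ^ 2) * (3 * C₂ * l) * (K₁ * l ^ 3 / x ^ 2) ^ 2 := by
                gcongr
            _ = Q * l ^ 9 / x ^ 24 := by
                rw [hQ]
                field_simp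
                ring
        have h4 : (10 * A * B * (η₁ / η) ^ 2) ^ 2 ≤ (Q * l ^ 9 / x ^ 24) ^ 2 :=
          pow_le_pow_left₀ (by positivity) h3 2
        have hA8 : 0 ≤ 20 * (d : ℝ) + (A' + 6) + 2 := by linarith only [hA', hc0, hc4]
        calc (20 * d + (A' + 6) + 2) * l * (5 * (10 * A * B * (η₁ / η) ^ 2) ^ 2 * v) ≤
            (20 * d + (A' + 6) + 2) * l * (5 * (Q * l ^ 9 / x ^ 24) ^ 2 * x ^ 60) := by
              rw [hv2]
              gcongr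
          _ = 80 * Q ^ 2 * (20 * d + (A' + 6) + 2) * (x ^ 2 * l ^ 19) * (x ^ 10 / 16) := by
              field_simp
              ring
          _ ≤ 1 * (x ^ 10 / 16) := mul_le_mul_of_nonneg_right f4 (by positivity)
          _ = (x ^ 5 / 4) ^ 2 := by ring
      have h5 := num_d hMx hexp4 h2
      have h6 : A' + 6 + 3 = A' + 9 := by ring
      rw [h6] at h5
      exact h5
  -- the mean of the resolvent
  obtain ⟨hg0, s, hs, hm⟩ := hMea d M v ⟨E, η⟩ (⟨E, η⟩ + v * gb d M v ⟨E, η⟩) (2 * x ^ 5) hη0 rfl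
    (by positivity) (by
      refine (var_le hRal v hη0 (Real.exp_pos _).le hD0).trans ?_
      have h1 : (2 / η) ^ 2 * Real.exp (-((A' + 6) * l)) ≤ 4 * x ^ 56 := by
        rw [hη, div_pow, div_mul_eq_mul_div, div_le_iff₀ (by positivity)]
        calc 2 ^ 2 * Real.exp (-((A' + 6) * l)) ≤ 2 ^ 2 * x ^ 180 := by linarith only [hp180]
          _ = 4 * x ^ 56 * (x ^ 62) ^ 2 := by ring
      have h2 : x ^ 56 ≤ x ^ 10 * (1 / 8) := by
        calc x ^ 56 = x ^ 10 * (x ^ 23 * x ^ 23) := by ring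
          _ ≤ x ^ 10 * (x ^ 23 * 1) := by
              gcongr
              exact pow_le_one₀ hx0.le hx1
          _ ≤ x ^ 10 * (1 / 8) := by
              gcongr
              linarith only [f5]
      have h3 : 0 < x ^ 10 := by positivity
      have h4 : (⟨E, η⟩ : ℂ).im = η := rfl
      rw [h4]
      have e1 : (x ^ 5) ^ 2 = x ^ 10 := by ring
      have e2 : (2 * x ^ 5) ^ 2 = 4 * x ^ 10 := by ring
      rw [e1, e2]
      linarith only [h1, h2, h3])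
  have hs2 : ∀ q, ‖s q‖ ≤ 2 * x ^ 3 := by
    intro q
    refine (hs q).trans (le_of_eq ?_)
    have h4 : (⟨E, η⟩ : ℂ).im = η := rfl
    rw [h4, hv2, hη]
    field_simp
  -- the imaginary part of the mean
  have hsm : ∀ a : ℝ, 1 ≤ a → Real.exp (-(a * l)) ≤ 1 / 4 := by
    intro a ha
    refine (Real.exp_le_exp.2 ?_).trans hexp4
    have := mul_le_mul_of_nonneg_right ha hl0.le
    linarith only [this]
  obtain ⟨V₀, hV1, hV2⟩ := ex_good (Real.exp_pos _).le (Real.exp_pos _).le (by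
    have h1 := hsm (A' + 9) (by linarith only [hA', hc0, hc4])
    have h2 := hsm (A' + 6) (by linarith only [hA', hc0, hc4])
    linarith only [hc0, hc4, h1, h2]) hF0 hD0
  have hgim : (gb d M v ⟨E, η⟩).im ≤ 4 * C₂ * K₁ * l ^ 4 / x ^ 2 + x ^ 5 := by
    have h1 := (hRes d M V₀ E η η₁ A B hη0 hηη₁ hA0.le hS hpm hV1).1 0
    have h2 := (Complex.abs_im_le_norm _).trans (hV2 0)
    rw [Complex.sub_im] at h2
    have h3 := (abs_le.1 h2).1
    rw [hratio] at h1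
    have h4 : 4 / 3 * B * (K₁ * l ^ 3 / x ^ 2) ≤ 4 / 3 * (3 * C₂ * l) * (K₁ * l ^ 3 / x ^ 2) := by
      gcongr
    have h5 : 4 / 3 * (3 * C₂ * l) * (K₁ * l ^ 3 / x ^ 2) = 4 * C₂ * K₁ * l ^ 4 / x ^ 2 := by
      field_simp
    linarith
  have hvg : (v : ℝ) * (gb d M v ⟨E, η⟩).im ≤ c₃ := by
    have h1 : 8 * C₂ * K₁ * (x ^ 58 * l ^ 4) ≤ c₃ := by
      have : 8 * C₂ * K₁ / c₃ * (x ^ 58 * l ^ 4) = 8 * C₂ * K₁ * (x ^ 58 * l ^ 4) / c₃ := by ring
      rw [this, div_le_one hc₃] at f6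
      exact f6
    have h2 : 2 * x ^ 65 ≤ c₃ := by
      have : 2 / c₃ * x ^ 65 = 2 * x ^ 65 / c₃ := by ring
      rw [this, div_le_one hc₃] at f7
      exact f7
    calc (v : ℝ) * (gb d M v ⟨E, η⟩).im ≤ v * (4 * C₂ * K₁ * l ^ 4 / x ^ 2 + x ^ 5) :=
          mul_le_mul_of_nonneg_left hgim hv0.le
      _ = 4 * C₂ * K₁ * (x ^ 58 * l ^ 4) + x ^ 65 := by
          rw [hv2]
          field_simp
      _ ≤ c₃ := by linarith only [h1, h2]
  -- the self-consistent equation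
  have hlogη : Real.log (1 / η) ≤ 3 * l := by
    have h1 : Real.log (1 / η) ≤ Real.log (1 / t ^ 3) := by
      refine Real.log_le_log (by positivity) (one_div_le_one_div_of_le (by positivity) ?_)
      rw [hη, ← hx30, ← pow_mul]
      exact pow_le_pow_of_le_one hx0.le hx1 (by norm_num)
    have h3 : Real.log (1 / t ^ 3) = 3 * l := by
      rw [← hl', one_div, one_div, Real.log_inv, Real.log_inv, Real.log_pow]
      push_cast
      ring
    linarith only [h1, h3]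
  have hlogη0 : 1 + Real.log (1 / η) ≤ 4 * l := by linarith only [hl, hlogη]
  have hsce := sce M v E η (2 * x ^ 3) (gb d M v ⟨E, η⟩) (⟨E, η⟩ + v * gb d M v ⟨E, η⟩) s hE hη0
    (by
      have : 1 / c₃ * x ^ 62 = x ^ 62 / c₃ := by ring
      rw [this, div_le_one hc₃] at f8
      rw [hη]
      exact f8)
    hv0.le
    (by
      rw [hη]
      exact (dinv hx0 62 238 f9).trans hM1)
    hg0 hvg
    (by
      have : 4 / c₃ * (x ^ 60 * l) = x ^ 60 * (4 * l) / c₃ := by ring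
      rw [this, div_le_one hc₃] at f10
      rw [hv2]
      refine le_trans ?_ f10
      gcongr)
    (by positivity)
    (by
      have : 8 / c₃ * (x ^ 3 * l) = 2 * x ^ 3 * (4 * l) / c₃ := by ring
      rw [this, div_le_one hc₃] at f11
      refine le_trans ?_ f11
      gcongr)
    hs2 rfl
    (by
      have h1 := hm 0 0
      have h2 : gb d M v ⟨E, η⟩ = ∫ V, rs V ⟨E, η⟩ 0 0 ∂(gau d M v) := rfl
      refine (h2.trans h1).trans ?_
      simp only [sub_zero, ec_zero, one_mul])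
  obtain ⟨g1, ⟨g2, g3⟩, g4, ⟨g5, g6⟩, g7⟩ := hsce
  have hCC : C₃ ≤ C := by rw [hC]; linarith only [hC₁, hC₂, hK₁1, hc0, hc4]
  have hmono : ∀ a : ℝ, A' ≤ a → Real.exp (-(a * l)) ≤ Real.exp (-(A' * l)) := by
    intro a ha
    apply Real.exp_le_exp.2
    have := mul_le_mul_of_nonneg_right ha hl0.le
    linarith only [this]
  refine ⟨η₁, A, B, ⟨E, η⟩ + v * gb d M v ⟨E, η⟩, s, ?_, ?_, ?_, ?_⟩
  · exact
      { hη := ⟨hη0, hηη₁, hη₁1⟩
        hA := ⟨hA0, hB0, (Real.exp_pos _).le, by positivity, by positivity⟩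
        hS := hS
        hB := hpm
        hF := hF0.trans (ENNReal.ofReal_le_ofReal (hmono _ (by linarith only [hc0, hc4])))
        hD := hD0.trans (ENNReal.ofReal_le_ofReal (hmono _ (by linarith only [hc0, hc4])))
        hζ := ⟨rfl, g1⟩
        hs := hs2
        hm := hm
        hg := ⟨hc3.trans g2, g3.trans hCC⟩
        h0 := ⟨hc3.trans g5, g6.trans hCC⟩
        hd := by
          refine g4.trans ?_
          have h1 : 0 ≤ 1 + Real.log (1 / η) := by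
            have h2 : 0 ≤ Real.log (1 / η) := by
              apply Real.log_nonneg
              rw [le_div_iff₀ hη0]
              linarith only [f1, hη₁', hηη₁]
            linarith only [hc0, hc4, h2]
          gcongr
        hK := g7 }
  · rw [hη₁']
    gcongr
    rw [hC]
    linarith only [hC₁, hC₂, hC₃, hc0, hc4]
  · refine hAle.trans ?_
    gcongr
    rw [hC]
    linarith only [hC₂, hC₃, hK₁1, hc0, hc4]
  · refine hBle.trans ?_
    gcongr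
    rw [hC]
    linarith only [hC₁, hC₃, hK₁1, hc0, hc4]

end Pool.Agent.LE.QD.H33
end
end -- Pool.Agent.Helper33_LQD.TOA

section -- Pool.Agent.Helper33_LQD.TOB

/-!
# Row TOB: numbers on the torus, the mean of the mass
-/

set_option autoImplicit false

open MeasureTheory ProbabilityTheory Function Filter

open scoped ENNReal BigOperators Topology NNReal ComplexOrder Matrix

noncomputable section

namespace Pool.Agent.LE.QD.H33

open Pool.Agent.Anderson hiding box mem_box card_box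
open Pool.Agent.Loc Pool.Agent.Mob Pool.Agent.Helper54.Bal
  Pool.Agent.Helper96.EXP Pool.Agent.BED
open Pool.Agent.LE.MN Pool.Agent.LE.CL Pool.Agent.LE.IR

/-! ### numbers -/

/-- the error terms -/
theorem num_p {x c₁ C₁ w K₀ p' : ℝ} (hx0 : 0 < x) (hx1 : x ≤ 1) (hc₁ : 0 < c₁) (hC₁ : 1 ≤ C₁)
    (hw1 : c₁ * x ^ 60 ≤ w) (hK₀ : 0 < K₀) (hK₀' : K₀ * w ≤ C₁) (hp' : p' ≤ x ^ 270) :
    x ^ 59 * (2 * x ^ 3 * K₀ + x ^ 60 / x ^ 62 * (C₁ + 1) * (x ^ 5 / w + (x ^ 56)⁻¹ +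
      2 * x ^ 3 * K₀) + 10 * x ^ 60 * p' / (x ^ 62) ^ 4) ≤
      2 * C₁ / c₁ + 2 * C₁ * (1 / c₁ + 1 + 2 * C₁ / c₁) + 10 := by
  have hxp : 0 < x ^ 60 := pow_pos hx0 60
  have hw0 : 0 < w := lt_of_lt_of_le (mul_pos hc₁ hxp) hw1
  have h1 : x ^ 60 / w ≤ 1 / c₁ := by
    rw [div_le_div_iff₀ hw0 hc₁]
    linarith
  have h2 : x ^ 60 * K₀ ≤ C₁ / c₁ := by
    rw [le_div_iff₀ hc₁]
    have := mul_le_mul_of_nonneg_left hw1 hK₀.le
    linarith only [hK₀', this]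
  have hx2 : x ^ 2 ≤ 1 := pow_le_one₀ hx0.le hx1
  have e1 : x ^ 59 * (2 * x ^ 3 * K₀ + x ^ 60 / x ^ 62 * (C₁ + 1) * (x ^ 5 / w + (x ^ 56)⁻¹ +
      2 * x ^ 3 * K₀) + 10 * x ^ 60 * p' / (x ^ 62) ^ 4) =
      2 * (x ^ 2 * (x ^ 60 * K₀)) + (C₁ + 1) * (x ^ 2 * (x ^ 60 / w) + x +
        2 * (x ^ 60 * K₀)) + 10 * (x ^ 119 * p' / x ^ 248) := by
    field_simp
  have h3 : x ^ 2 * (x ^ 60 * K₀) ≤ 1 * (C₁ / c₁) :=
    mul_le_mul hx2 h2 (by positivity) (by norm_num)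
  have h4 : x ^ 2 * (x ^ 60 / w) ≤ 1 * (1 / c₁) :=
    mul_le_mul hx2 h1 (by positivity) (by norm_num)
  have h5 : x ^ 119 * p' / x ^ 248 ≤ 1 := by
    rw [div_le_one (by positivity)]
    calc x ^ 119 * p' ≤ x ^ 119 * x ^ 270 := mul_le_mul_of_nonneg_left hp' (by positivity)
      _ = x ^ 141 * x ^ 248 := by ring
      _ ≤ 1 * x ^ 248 := mul_le_mul_of_nonneg_right (pow_le_one₀ hx0.le hx1) (by positivity)
      _ = x ^ 248 := one_mul _
  have h6 : (C₁ + 1) * (x ^ 2 * (x ^ 60 / w) + x + 2 * (x ^ 60 * K₀)) ≤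
      2 * C₁ * (1 / c₁ + 1 + 2 * C₁ / c₁) := by
    refine mul_le_mul (by linarith only [hC₁]) ?_ (by positivity) (by positivity)
    have : 2 * C₁ / c₁ = 2 * (C₁ / c₁) := by ring
    rw [this]
    linarith only [hx1, h2, h4]
  rw [e1]
  have : 2 * C₁ / c₁ = 2 * (C₁ / c₁) := by ring
  rw [this] at h6 ⊢
  linarith only [h3, h5, h6]

/-- the final numbers -/
theorem num_b {d : ℕ} {x c₁ C₁ C₃ K w K₀ Φ a L M q n m S T p' : ℝ} (hd : 3 ≤ d) (hx0 : 0 < x)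
    (hx1 : x ≤ 1) (hc₁ : 0 < c₁) (hC₁ : 1 ≤ C₁) (hC₃ : 1 ≤ C₃) (hw1 : c₁ * x ^ 60 ≤ w)
    (hw2 : w ≤ 2 * C₁ * x ^ 60) (hK₀ : 0 < K₀) (hK₀' : K₀ * w ≤ C₁) (hΦ : 0 < Φ)
    (hΦ' : Φ * x ^ 2 ≤ 4 * C₁) (ha : 0 ≤ a) (ha' : a * x ^ (30 * d) ≤ 1)
    (hL : 0 ≤ L) (hL' : L * x ^ 90 ≤ 1) (hM : (x ^ 300)⁻¹ ≤ M) (hq : 0 ≤ q) (hn : 0 ≤ n)
    (hm : 0 ≤ m) (hK1 : 1 ≤ K) (hK3 : C₃ * (2 * C₁) ^ d ≤ K)
    (hS : x ^ 60 * S ≤ m * (n + C₃ * a * (L * w) ^ d * q + C₃ * a * (L / M) ^ d * Φ))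
    (hp : 0 ≤ p') (hp' : p' ≤ x ^ 270)
    (hT : T ≤ S + m * Φ * (2 * x ^ 3 * K₀ + x ^ 60 / x ^ 62 * (C₁ + 1) *
      (x ^ 5 / w + (x ^ 56)⁻¹ + 2 * x ^ 3 * K₀) + 10 * x ^ 60 * p' / (x ^ 62) ^ 4)) :
    T ≤ (K * x ^ 2 * (n + a * (x ^ 60 * L) ^ d * q) +
      (4 * C₁ * C₃ + 4 * C₁ * (2 * C₁ / c₁ + 2 * C₁ * (1 / c₁ + 1 + 2 * C₁ / c₁) + 10)) * x) *
        m / x ^ 62 := by
  have hxp : 0 < x ^ 60 := pow_pos hx0 60
  have hw0 : 0 < w := lt_of_lt_of_le (mul_pos hc₁ hxp) hw1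
  have hM0 : 0 < M := lt_of_lt_of_le (by positivity) hM
  -- the third term
  have h1 : L / M ≤ x ^ 210 := by
    rw [div_le_iff₀ hM0]
    have h2 : L * (x ^ 300) ≤ x ^ 210 := by
      calc L * x ^ 300 = L * x ^ 90 * x ^ 210 := by ring
        _ ≤ 1 * x ^ 210 := mul_le_mul_of_nonneg_right hL' (by positivity)
        _ = x ^ 210 := one_mul _
    calc L = L * x ^ 300 * (x ^ 300)⁻¹ := by
          rw [mul_assoc, mul_inv_cancel₀ (by positivity), mul_one]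
      _ ≤ x ^ 210 * M := mul_le_mul h2 hM (by positivity) (by positivity)
  have h3 : a * (L / M) ^ d ≤ x := by
    calc a * (L / M) ^ d ≤ a * (x ^ 210) ^ d := by gcongr
      _ = a * x ^ (30 * d) * x ^ (180 * d) := by
          rw [← pow_mul, mul_assoc, ← pow_add]
          congr 2
          ring
      _ ≤ 1 * x ^ (180 * d) := mul_le_mul_of_nonneg_right ha' (by positivity)
      _ = x ^ (180 * d) := one_mul _
      _ ≤ x ^ 1 := pow_le_pow_of_le_one hx0.le hx1 (by omega)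
      _ = x := pow_one x
  have h4 : (L * w) ^ d ≤ (2 * C₁) ^ d * (x ^ 60 * L) ^ d := by
    rw [← mul_pow]
    refine pow_le_pow_left₀ (by positivity) ?_ d
    have := mul_le_mul_of_nonneg_left hw2 hL
    linarith only [this]
  have h5 : x ^ 62 * S ≤ m * (K * x ^ 2 * (n + a * (x ^ 60 * L) ^ d * q) + 4 * C₁ * C₃ * x) := by
    have h6 : C₃ * a * (L * w) ^ d * q ≤ K * (a * (x ^ 60 * L) ^ d * q) := by
      calc C₃ * a * (L * w) ^ d * q ≤ C₃ * a * ((2 * C₁) ^ d * (x ^ 60 * L) ^ d) * q := by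
            gcongr
        _ = C₃ * (2 * C₁) ^ d * (a * (x ^ 60 * L) ^ d * q) := by ring
        _ ≤ K * (a * (x ^ 60 * L) ^ d * q) :=
            mul_le_mul_of_nonneg_right hK3
              (mul_nonneg (mul_nonneg ha (pow_nonneg (mul_nonneg hxp.le hL) d)) hq)
    have h7 : C₃ * a * (L / M) ^ d * Φ ≤ C₃ * x * Φ := by
      have := mul_le_mul_of_nonneg_left h3 (by positivity : 0 ≤ C₃ * Φ)
      calc C₃ * a * (L / M) ^ d * Φ = C₃ * Φ * (a * (L / M) ^ d) := by ring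
        _ ≤ C₃ * Φ * x := this
        _ = C₃ * x * Φ := by ring
    have h8 : n ≤ K * n := by
      have := mul_le_mul_of_nonneg_right hK1 hn
      linarith only [this]
    calc x ^ 62 * S = x ^ 2 * (x ^ 60 * S) := by ring
      _ ≤ x ^ 2 * (m * (n + C₃ * a * (L * w) ^ d * q + C₃ * a * (L / M) ^ d * Φ)) :=
          mul_le_mul_of_nonneg_left hS (by positivity)
      _ ≤ x ^ 2 * (m * (K * n + K * (a * (x ^ 60 * L) ^ d * q) + C₃ * x * Φ)) := by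
          gcongr
      _ = m * (K * x ^ 2 * (n + a * (x ^ 60 * L) ^ d * q) + C₃ * x * (Φ * x ^ 2)) := by ring
      _ ≤ m * (K * x ^ 2 * (n + a * (x ^ 60 * L) ^ d * q) + C₃ * x * (4 * C₁)) := by
          gcongr
      _ = m * (K * x ^ 2 * (n + a * (x ^ 60 * L) ^ d * q) + 4 * C₁ * C₃ * x) := by ring
  -- the error terms
  have h9 := num_p hx0 hx1 hc₁ hC₁ hw1 hK₀ hK₀' hp'
  have hP0 : 0 ≤ 2 * x ^ 3 * K₀ + x ^ 60 / x ^ 62 * (C₁ + 1) *
      (x ^ 5 / w + (x ^ 56)⁻¹ + 2 * x ^ 3 * K₀) + 10 * x ^ 60 * p' / (x ^ 62) ^ 4 := by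
    positivity
  generalize 2 * x ^ 3 * K₀ + x ^ 60 / x ^ 62 * (C₁ + 1) *
      (x ^ 5 / w + (x ^ 56)⁻¹ + 2 * x ^ 3 * K₀) + 10 * x ^ 60 * p' / (x ^ 62) ^ 4 = P at *
  generalize 2 * C₁ / c₁ + 2 * C₁ * (1 / c₁ + 1 + 2 * C₁ / c₁) + 10 = R at *
  have h10 : x ^ 62 * (m * Φ * P) ≤ m * (4 * C₁ * R * x) := by
    calc x ^ 62 * (m * Φ * P) = m * x * (Φ * x ^ 2) * (x ^ 59 * P) := by ring
      _ ≤ m * x * (4 * C₁) * R := by
          refine mul_le_mul ?_ h9 (mul_nonneg (pow_nonneg hx0.le 59) hP0)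
            (mul_nonneg (mul_nonneg hm hx0.le) (by linarith only [hC₁]))
          exact mul_le_mul_of_nonneg_left hΦ' (mul_nonneg hm hx0.le)
      _ = m * (4 * C₁ * R * x) := by ring
  rw [le_div_iff₀ (by positivity)]
  have h11 := mul_le_mul_of_nonneg_left hT (by positivity : 0 ≤ x ^ 62)
  calc T * x ^ 62 = x ^ 62 * T := mul_comm _ _
    _ ≤ x ^ 62 * (S + m * Φ * P) := h11
    _ = x ^ 62 * S + x ^ 62 * (m * Φ * P) := by ring
    _ ≤ m * (K * x ^ 2 * (n + a * (x ^ 60 * L) ^ d * q) + 4 * C₁ * C₃ * x) +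
        m * (4 * C₁ * R * x) := add_le_add h5 h10
    _ = (K * x ^ 2 * (n + a * (x ^ 60 * L) ^ d * q) + (4 * C₁ * C₃ + 4 * C₁ * R) * x) * m := by
        ring

/-! ### the kernel -/

theorem kk_neg (hRal : RalStmt) {d M : ℕ} [NeZero M] {ζ : ℂ} (hζ : 0 < ζ.im) (x : Tor d M) :
    kk ζ (-x) = kk ζ x := by
  unfold kk
  have h1 := (hRal d M 0 ζ hζ).2.2.2.2.2.2.1 x 0 (-x)
  have h2 : tr x (0 : Tor d M → ℝ) = 0 := rfl
  rw [h2, add_zero, add_neg_cancel] at h1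
  rw [h1, (hRal d M 0 ζ hζ).2.1 x 0]

/-- the exponent of the concentration of `od` -/
theorem num_o {x l C₁ A B η₁ Φ K₀ v Y : ℝ} (hx0 : 0 < x) (hl : 1 ≤ l) (hC₁ : 1 ≤ C₁) (hA0 : 0 < A)
    (hA : A ≤ C₁ * (x ^ 20)⁻¹ * l ^ 2) (hB0 : 0 < B) (hB : B ≤ C₁ * l) (hη0 : 0 < η₁)
    (hη : η₁ ≤ C₁ * x ^ 60 * l ^ 3) (hΦ : 0 < Φ) (hK₀ : 0 < K₀) (hv : 0 < v) (hKv : K₀ * v ≤ 1)
    (hY : 0 ≤ Y) (h : 6400 * C₁ ^ 6 * Y * (x ^ 4 * l ^ 15) ≤ 1) :
    Y * l ≤ ((x ^ 56)⁻¹ * Φ / 4) ^ 2 /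
      (5 * (80 * A ^ 2 * B * (η₁ ^ 3 / (x ^ 62) ^ 4) * Φ ^ 2 * K₀) * v) := by
  rw [le_div_iff₀ (by positivity)]
  have h1 : A ^ 2 * B * (η₁ ^ 3 / (x ^ 62) ^ 4) ≤ C₁ ^ 6 * l ^ 14 / x ^ 108 := by
    calc A ^ 2 * B * (η₁ ^ 3 / (x ^ 62) ^ 4) ≤ (C₁ * (x ^ 20)⁻¹ * l ^ 2) ^ 2 * (C₁ * l) *
        ((C₁ * x ^ 60 * l ^ 3) ^ 3 / (x ^ 62) ^ 4) := by gcongr
      _ = C₁ ^ 6 * l ^ 14 / x ^ 108 := by
          field_simp
  calc Y * l * (5 * (80 * A ^ 2 * B * (η₁ ^ 3 / (x ^ 62) ^ 4) * Φ ^ 2 * K₀) * v) =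
      400 * Y * l * Φ ^ 2 * (K₀ * v) * (A ^ 2 * B * (η₁ ^ 3 / (x ^ 62) ^ 4)) := by ring
    _ ≤ 400 * Y * l * Φ ^ 2 * 1 * (C₁ ^ 6 * l ^ 14 / x ^ 108) := by gcongr
    _ = 6400 * C₁ ^ 6 * Y * (x ^ 4 * l ^ 15) * (Φ ^ 2 / (16 * x ^ 112)) := by
        field_simp
        ring
    _ ≤ 1 * (Φ ^ 2 / (16 * x ^ 112)) := mul_le_mul_of_nonneg_right h (by positivity)
    _ = ((x ^ 56)⁻¹ * Φ / 4) ^ 2 := by
        field_simp
        norm_num

/-- the numbers of the kernel -/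
theorem num_k {x l c₁ C₁ η w v g i₀ : ℝ} (hx0 : 0 < x) (hx1 : x ≤ 1) (hC₁ : 1 ≤ C₁) (hc₁ : 0 < c₁)
    (hη : η = x ^ 62) (hv : v = x ^ 60) (hw : w = η + v * g) (hg : c₁ ≤ g ∧ g ≤ C₁)
    (hi : c₁ ≤ i₀ ∧ i₀ ≤ C₁) (hlog : 1 + Real.log (1 / η) ≤ 4 * l)
    (hd : |g - i₀| ≤ C₁ * (2 * x ^ 3) * (1 + Real.log (1 / η))) (h : 16 * C₁ * (x * l) ≤ 1) :
    0 < w ∧ η ≤ w ∧ c₁ * x ^ 60 ≤ w ∧ w ≤ 2 * C₁ * x ^ 60 ∧ 0 < 1 - v * (i₀ / w) ∧
      1 / (1 - v * (i₀ / w)) * x ^ 2 ≤ 4 * C₁ ∧ 0 < i₀ / w ∧ i₀ / w * w ≤ C₁ := by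
  have hη0 : 0 < η := by rw [hη]; positivity
  have hv0 : 0 < v := by rw [hv]; positivity
  have hg0 : 0 < g := lt_of_lt_of_le hc₁ hg.1
  have hi0 : 0 < i₀ := lt_of_lt_of_le hc₁ hi.1
  have hw0 : 0 < w := by rw [hw]; positivity
  have h1 : η ≤ w := by
    rw [hw]
    have := mul_pos hv0 hg0
    linarith only [this]
  have h2 : c₁ * x ^ 60 ≤ w := by
    rw [hw, hv]
    have := mul_le_mul_of_nonneg_left hg.1 (pow_nonneg hx0.le 60)
    linarith only [hη0, this]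
  have h3 : w ≤ 2 * C₁ * x ^ 60 := by
    rw [hw, hv]
    have e1 := mul_le_mul_of_nonneg_left hg.2 (pow_nonneg hx0.le 60)
    have e2 : x ^ 62 ≤ x ^ 60 := pow_le_pow_of_le_one hx0.le hx1 (by norm_num)
    have e3 := mul_le_mul_of_nonneg_right hC₁ (pow_nonneg hx0.le 60)
    rw [hη]
    linarith only [e1, e2, e3]
  have h4 : η / 2 ≤ w - v * i₀ := by
    have e1 : v * |g - i₀| ≤ v * (C₁ * (2 * x ^ 3) * (4 * l)) := by
      refine mul_le_mul_of_nonneg_left (hd.trans ?_) hv0.le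
      exact mul_le_mul_of_nonneg_left hlog (by positivity)
    have e2 : v * (C₁ * (2 * x ^ 3) * (4 * l)) = 16 * C₁ * (x * l) * (η / 2) := by
      rw [hv, hη]
      ring
    have e3 := mul_le_mul_of_nonneg_right h (by linarith only [hη0] : 0 ≤ η / 2)
    have e4 := mul_le_mul_of_nonneg_left (neg_le_of_abs_le (le_refl |g - i₀|)) hv0.le
    rw [hw]
    rw [e2] at e1
    linarith only [e1, e3, e4]
  have h5 : 1 - v * (i₀ / w) = (w - v * i₀) / w := by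
    field_simp
  have h6 : 0 < w - v * i₀ := by linarith only [hη0, h4]
  refine ⟨hw0, h1, h2, h3, by rw [h5]; positivity, ?_, by positivity, ?_⟩
  · rw [h5, one_div_div, div_mul_eq_mul_div, div_le_iff₀ h6]
    have e1 : w * x ^ 2 ≤ 2 * C₁ * η := by
      have := mul_le_mul_of_nonneg_right h3 (pow_nonneg hx0.le 2)
      rw [hη]
      calc w * x ^ 2 ≤ 2 * C₁ * x ^ 60 * x ^ 2 := this
        _ = 2 * C₁ * x ^ 62 := by ring
    have e2 := mul_le_mul_of_nonneg_left h4 (by linarith only [hC₁] : 0 ≤ 4 * C₁)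
    linarith only [e1, e2]
  · rw [div_mul_cancel₀ _ hw0.ne']
    exact hi.2

/-! ### the theorem -/

/-- TOB -/
theorem tob (hRal : RalStmt) (hToa : ToaStmt) (hOff : OffStmt) (hTer : TerStmt) (hRws : RwsStmt)
    (hGap : GapStmt) : TobStmt := by
  intro d δ hd hδ
  obtain ⟨c₁, C₁, hc₁, hc₁4, hC₁, toa⟩ := hToa d δ 12 hd hδ (by norm_num)
  obtain ⟨c₂, C₂, hc₂, hc₂1, hC₂, gap⟩ := hGap d (δ / 2) hd (by positivity)
  obtain ⟨C₃, hC₃, rws⟩ := hRws d c₂ hd hc₂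
  have hd0 : (0 : ℝ) ≤ d := Nat.cast_nonneg d
  obtain ⟨K, hK⟩ : ∃ K : ℝ, K = 1 + C₃ / c₁ + C₃ * (2 * C₁) ^ d := ⟨_, rfl⟩
  obtain ⟨R, hR⟩ : ∃ R : ℝ, R = 4 * C₁ * C₃ +
    4 * C₁ * (2 * C₁ / c₁ + 2 * C₁ * (1 / c₁ + 1 + 2 * C₁ / c₁) + 10) := ⟨_, rfl⟩
  have hK1 : 1 ≤ K := by
    rw [hK]
    have h1 : 0 ≤ C₃ / c₁ := by positivity
    have h2 : 0 ≤ C₃ * (2 * C₁) ^ d := by positivity
    linarith only [h1, h2]
  have hK2 : C₃ / c₁ ≤ K := by
    rw [hK]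
    have h2 : 0 ≤ C₃ * (2 * C₁) ^ d := by positivity
    linarith only [hc₁, hc₁4, h2]
  have hK3 : C₃ * (2 * C₁) ^ d ≤ K := by
    rw [hK]
    have h1 : 0 ≤ C₃ / c₁ := by positivity
    linarith only [hc₁, hc₁4, h1]
  have ev1 := evx (16 * C₁) 1 1 (by norm_num)
  have ev2 := evx (2 * C₁ / c₂) 60 0 (by norm_num)
  have ev3 := evx (C₂ / c₁) 240 0 (by norm_num)
  have ev4 := evx C₃ 210 0 (by norm_num)
  have ev5 := evx 8 23 0 (by norm_num)
  have ev6 := evx (6400 * C₁ ^ 6 * (20 * d + 9 + 2)) 4 15 (by norm_num)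
  have ev7 := ev R (a := 1 / 30 - 1 / 31) 0 (by norm_num)
  obtain ⟨c, hc0, hcm, hev⟩ := ext (ev1.and (ev2.and (ev3.and (ev4.and (ev5.and (ev6.and
    ev7)))))) c₁ hc₁
  refine ⟨c, K, hc0, hcm.trans hc₁4, hK1, ?_⟩
  intro M _ v σ E η L n 𝒜 C' hv hσ hσc hE hη hM1 hM2 hKL hL hn h𝒜 h𝒜c hcov hcard
  obtain ⟨η₁, A, B, ζ, s, kin, hη₁, hA, hB⟩ := toa M v σ E η hv hσ (hσc.trans hcm) hE hη hM1 hM2
  obtain ⟨t, ht⟩ : ∃ t : ℝ, t = |σ| := ⟨_, rfl⟩
  have ht0 : 0 < t := by rw [ht]; exact abs_pos.2 hσ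
  rw [← ht] at hσc hη hM1 hM2 hL h𝒜c kin hη₁ hA hB ⊢
  have hσ2 : σ ^ 2 = t ^ 2 := by rw [ht, sq_abs]
  rw [hσ2] at hv hKL hη₁ ⊢
  obtain ⟨f1, f2, f3, f4, f5, f6, f7⟩ := hev t ht0 hσc
  have ht4 : t ≤ 1 / 4 := hσc.trans (hcm.trans hc₁4)
  obtain ⟨hx0, hx1, hx30, hl⟩ := base ht0 ht4
  have hMx := expM ht0 hM2 d
  have pw31 := pw ht0 62 (a := 31 / 15) (by norm_num)
  have pw6 := pw ht0 5 (a := 1 / 6) (by norm_num)
  have pw10 := pw ht0 3 (a := 1 / 10) (by norm_num)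
  have pw15 := pw ht0 2 (a := 1 / 15) (by norm_num)
  have pw12 := pw ht0 360 (a := 12) (by norm_num)
  have pwm10 := pwn ht0 300 (a := -10) (by norm_num)
  have pwm3 := pwn ht0 90 (a := -3) (by norm_num)
  have pwmd := pwn ht0 (30 * d) (a := -(d : ℝ)) (by push_cast; ring)
  have pwm23 := pwn ht0 20 (a := -(2 / 3)) (by norm_num)
  have hτ : R * t ^ (1 / 30 : ℝ) ≤ t ^ (1 / 31 : ℝ) := by
    have h1 : t ^ (1 / 30 : ℝ) = t ^ (1 / 30 - 1 / 31 : ℝ) * t ^ (1 / 31 : ℝ) := by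
      rw [← Real.rpow_add ht0]
      congr 1
      ring
    rw [pow_zero, mul_one] at f7
    rw [h1, ← mul_assoc]
    have h2 := mul_le_mul_of_nonneg_right f7 (Real.rpow_nonneg ht0.le (1 / 31 : ℝ))
    linarith only [h2]
  have hlt : Real.exp (-Real.log (1 / t)) = t := by
    rw [one_div, Real.log_inv, neg_neg, Real.exp_log ht0]
  rw [pw31] at hη
  rw [pwm10] at hM1
  rw [pwm3] at hL
  rw [pwmd] at h𝒜c
  rw [pw12, pw6, pw10] at kin
  rw [pwm23] at hA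
  rw [pw15]
  clear f7 ev1 ev2 ev3 ev4 ev5 ev6 ev7 hev hσc pw31 pw6 pw10 pw15 pw12 pwm10 pwm3 pwmd pwm23
  generalize hx : t ^ (1 / 30 : ℝ) = x at *
  generalize hτ' : t ^ (1 / 31 : ℝ) = τ at *
  generalize hl' : Real.log (1 / t) = l at *
  simp only [pow_zero, mul_one, pow_one] at f1 f2 f3 f4 f5 f6
  have hxt : t ^ 2 = x ^ 60 := by rw [← hx30]; ring
  have hl0 : 0 < l := by linarith only [hc₁, hc₁4, hl]
  have hexp4 : Real.exp (-l) ≤ 1 / 4 := by rw [hlt]; exact ht4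
  rw [hxt] at hv hKL hη₁ ⊢
  have hv0 : 0 < (v : ℝ) := by rw [hv]; positivity
  have hη0 : 0 < η := kin.hη.1
  have hlogη : 1 + Real.log (1 / η) ≤ 4 * l := by
    have h1 : Real.log (1 / η) ≤ Real.log (1 / t ^ 3) := by
      refine Real.log_le_log (by positivity) (one_div_le_one_div_of_le (by positivity) ?_)
      rw [hη, ← hx30, ← pow_mul]
      exact pow_le_pow_of_le_one hx0.le hx1 (by norm_num)
    have h3 : Real.log (1 / t ^ 3) = 3 * l := by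
      rw [← hl', one_div, one_div, Real.log_inv, Real.log_inv, Real.log_pow]
      push_cast
      ring
    linarith only [hl, h1, h3]
  -- the kernel
  have hwim : ζ.im = η + v * (gb d M v ⟨E, η⟩).im := by
    rw [kin.hζ.1]
    simp
  obtain ⟨hw0, hηw, hw1, hw2, hθ, hΦx, hK₀0, hK₀w⟩ := num_k hx0 hx1 hC₁ hc₁ hη hv hwim kin.hg
    kin.h0 hlogη kin.hd f1
  rw [← kin.hK] at hθ hΦx hK₀0 hK₀w
  have hM0 : (0 : ℝ) < M := Nat.cast_pos.2 (NeZero.pos M)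
  have hgap : Gap (fun x : Tor d M => kk ζ x) c₂ ζ.im := by
    refine gap M ζ kin.hζ.2 hw0 ?_ ?_
    · refine hw2.trans ?_
      have h1 : 2 * C₁ / c₂ * x ^ 60 = 2 * C₁ * x ^ 60 / c₂ := by ring
      rw [h1, div_le_one hc₂] at f2
      exact f2
    · have h1 : C₂ / ζ.im ≤ C₂ / c₁ / x ^ 60 := by
        rw [div_div]
        exact div_le_div_of_nonneg_left (by linarith only [hc₁, hc₁4, hC₂]) (by positivity) hw1
      exact h1.trans ((dinv hx0 60 240 f3).trans hM1)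
  have hL90 : (L : ℝ) * x ^ 90 ≤ 1 := by
    have := mul_le_mul_of_nonneg_right hL (pow_nonneg hx0.le 90)
    rwa [inv_mul_cancel₀ (by positivity)] at this
  obtain ⟨f, hf1, hf2, hf3⟩ := rws M (kk ζ) v ζ.im L n 𝒜 C' (fun x => by unfold kk; positivity)
    (kk_neg hRal hw0) hv0 hK₀0 (by linarith) hw0
    (by
      refine (hw2.trans ?_).trans hc₂1
      have h1 : 2 * C₁ / c₂ * x ^ 60 = 2 * C₁ * x ^ 60 / c₂ := by ring
      rw [h1, div_le_one hc₂] at f2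
      exact f2)
    hgap
    (by
      have h1 := mul_le_mul_of_nonneg_right hw1 (Nat.cast_nonneg (α := ℝ) L)
      have h2 := mul_le_mul_of_nonneg_left hKL hc₁.le
      have h3 : C₃ ≤ c₁ * K := by
        rw [div_le_iff₀ hc₁] at hK2
        linarith only [hK2]
      linarith only [h1, h2, h3])
    (by
      refine le_trans ?_ hM1
      rw [← one_div, le_div_iff₀ (by positivity)]
      calc C₃ * L * x ^ 300 = C₃ * x ^ 210 * (L * x ^ 90) := by ring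
        _ ≤ 1 * 1 := mul_le_mul f4 hL90 (by positivity) (by norm_num)
        _ = 1 := one_mul 1)
    hn hcov hcard
  -- the concentration of `od`
  obtain ⟨K₀, hK₀⟩ : ∃ K₀ : ℝ, K₀ = ∑ x : Tor d M, kk ζ x := ⟨_, rfl⟩
  obtain ⟨Φ, hΦ⟩ : ∃ Φ : ℝ, Φ = 1 / (1 - v * K₀) := ⟨_, rfl⟩
  rw [← hK₀] at hθ hΦx hK₀0 hK₀w hf1 hf3
  rw [← hΦ] at hΦx hf1
  have hΦ0 : 0 < Φ := by rw [hΦ]; positivity
  have hx360 : Real.exp (-((9 + 3) * l)) = x ^ 360 := by
    have h1 : Real.exp (-((9 + 3) * l)) = Real.exp (-l) ^ 12 := by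
      rw [← Real.exp_nat_mul]
      congr 1
      push_cast
      ring
    rw [h1, hlt, ← hx30, ← pow_mul]
  have hx270 : Real.exp (-(9 * l)) = x ^ 270 := by
    have h1 : Real.exp (-(9 * l)) = Real.exp (-l) ^ 9 := by
      rw [← Real.exp_nat_mul]
      congr 1
      push_cast
      ring
    rw [h1, hlt, ← hx30, ← pow_mul]
  have hod : gau d M v {V | ¬ ∀ y, ‖od V ⟨E, η⟩ ζ f y - ∫ W, od W ⟨E, η⟩ ζ f y ∂(gau d M v)‖ ≤
      (x ^ 56)⁻¹ * Φ} ≤ ENNReal.ofReal (x ^ 270) := by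
    have h1 := hOff d M v E η η₁ A B (x ^ 360) ((x ^ 56)⁻¹ * Φ / 4) Φ K₀ ζ f hη0 kin.hη.2.1
      kin.hA.1 kin.hA.2.1 hΦ0 hK₀0 hηw
      (fun y => by rw [abs_of_nonneg (hf1 y).1]; exact (hf1 y).2) hK₀.ge kin.hS kin.hB kin.hF
      (by positivity) (by positivity)
    refine (measure_mono ?_).trans (h1.trans (ENNReal.ofReal_le_ofReal ?_))
    · intro V hV hcon
      apply hV
      intro y
      refine (hcon y).trans ?_
      have h2 : 4 * x ^ 360 * Φ / η ^ 2 ≤ (x ^ 56)⁻¹ * Φ / 2 := by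
        rw [hη, div_le_iff₀ (by positivity)]
        have e1 : x ^ 292 ≤ 1 / 8 := by
          calc x ^ 292 = x ^ 269 * x ^ 23 := by ring
            _ ≤ 1 * x ^ 23 := mul_le_mul_of_nonneg_right (pow_le_one₀ hx0.le hx1)
                (pow_nonneg hx0.le 23)
            _ ≤ 1 / 8 := by linarith only [f5]
        calc 4 * x ^ 360 * Φ = 4 * Φ * x ^ 68 * x ^ 292 := by ring
          _ ≤ 4 * Φ * x ^ 68 * (1 / 8) := mul_le_mul_of_nonneg_left e1 (by positivity)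
          _ = (x ^ 56)⁻¹ * Φ / 2 * (x ^ 62) ^ 2 := by
              field_simp
              norm_num
      linarith only [h2]
    · have h2 : (20 * d + 9 + 2) * l ≤ ((x ^ 56)⁻¹ * Φ / 4) ^ 2 /
          (5 * (80 * A ^ 2 * B * (η₁ ^ 3 / (x ^ 62) ^ 4) * Φ ^ 2 * K₀) * v) := by
        refine num_o hx0 hl hC₁ kin.hA.1 hA kin.hA.2.1 hB
          (lt_of_lt_of_le hη0 kin.hη.2.1) hη₁ hΦ0 hK₀0 hv0 ?_ (by positivity) f6
        rw [mul_comm]
        linarith only [hθ]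
      have h3 := num_d hMx hexp4 h2
      rw [hx360, hx270] at h3
      rw [hη]
      exact h3
  -- the mean of the mass
  have hter := hTer d M v E η (x ^ 5) ((x ^ 56)⁻¹) (2 * x ^ 3) K₀ (C₁ + 1) Φ (x ^ 270) ζ s C' f
    hη0 (by positivity) (by positivity) (by positivity) hΦ0 (by positivity)
    (hc₁.le.trans kin.hg.1) kin.hζ.1 kin.hs kin.hm hK₀.ge
    (add_le_add kin.hg.2 (pow_le_one₀ hx0.le hx1)) hf1 hf2
    (kin.hD.trans (ENNReal.ofReal_le_ofReal (pow_le_pow_of_le_one hx0.le hx1 (by norm_num)))) hod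
  have hS : x ^ 60 * (∑ y, f y * ∑ b ∈ C', kk ζ (y - b)) ≤ (C'.card : ℝ) * (n + C₃ * 𝒜.card *
      (L * ζ.im) ^ d * (n : ℝ) ^ (1 - (d : ℝ) / 2) + C₃ * 𝒜.card * ((L : ℝ) / M) ^ d * Φ) := by
    rw [← hv]
    refine hf3.trans (le_of_eq ?_)
    rw [hΦ, mul_one_div]
  rw [hv, hη] at hter
  have h𝒜x : (𝒜.card : ℝ) * x ^ (30 * d) ≤ 1 := by
    have := mul_le_mul_of_nonneg_right h𝒜c (pow_nonneg hx0.le (30 * d))
    rwa [inv_mul_cancel₀ (by positivity)] at this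
  have hfin := num_b hd hx0 hx1 hc₁ hC₁ hC₃ hw1 hw2 hK₀0 hK₀w hΦ0 hΦx (Nat.cast_nonneg 𝒜.card)
    h𝒜x (Nat.cast_nonneg L) hL90 hM1 (Real.rpow_nonneg (Nat.cast_nonneg n) (1 - (d : ℝ) / 2))
    (Nat.cast_nonneg n) (Nat.cast_nonneg C'.card) hK1 hK3 hS (by positivity) le_rfl hter
  rw [← hR] at hfin
  rw [hη]
  refine hfin.trans ?_
  gcongr

end Pool.Agent.LE.QD.H33
end
end -- Pool.Agent.Helper33_LQD.TOB

section -- Pool.Agent.Helper33_LQD.TOM

/-!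
# Row TOM: the torus
-/

set_option autoImplicit false

open MeasureTheory ProbabilityTheory Function Filter

open scoped ENNReal BigOperators Topology NNReal ComplexOrder Matrix

noncomputable section

namespace Pool.Agent.LE.QD.H33

open Pool.Agent.Anderson hiding box mem_box card_box
open Pool.Agent.Loc Pool.Agent.Mob Pool.Agent.Helper54.Bal
  Pool.Agent.Helper96.EXP Pool.Agent.BED
open Pool.Agent.LE.MN Pool.Agent.LE.CL Pool.Agent.LE.IR

/-! ### unions of cubes -/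

section cubes

variable {d M : ℕ} [NeZero M]

theorem cbt_card (a : Tor d M) (L : ℕ) : (cbt a L).card ≤ L ^ d := by
  have h1 : (Fintype.piFinset fun _ : Fin d => Finset.range L).card = L ^ d := by
    rw [Fintype.card_piFinset]
    simp
  rw [← h1]
  refine Finset.card_le_card_of_injOn (fun x i => (x i - a i).val) ?_ ?_
  · intro x hx
    have h2 : ∀ i, (x i - a i).val < L := by
      simpa [cbt] using hx
    simpa using h2
  · intro x _ y _ hxy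
    funext i
    have h3 := congrFun hxy i
    simp only at h3
    have h4 := ZMod.val_injective M h3
    exact sub_left_injective h4

/-- the union of the cubes -/
def uc (L : ℕ) (𝒜 : Finset (Tor d M)) : Finset (Tor d M) := 𝒜.biUnion fun a => cbt a L

theorem uc_eq {L : ℕ} {𝒜 C' : Finset (Tor d M)} (h1 : ∀ x ∈ C', ∃ a ∈ 𝒜, x ∈ cbt a L)
    (h2 : C'.card = 𝒜.card * L ^ d) : C' = uc L 𝒜 := by
  refine Finset.eq_of_subset_of_card_le ?_ ?_
  · intro x hx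
    obtain ⟨a, ha, hxa⟩ := h1 x hx
    exact Finset.mem_biUnion.2 ⟨a, ha, hxa⟩
  · rw [h2]
    exact Finset.card_biUnion_le_card_mul _ _ _ fun a _ => cbt_card a L

theorem sum_fam (U : Finset (Tor d M) → Finset (Tor d M)) (𝒮 : Finset (Finset (Tor d M)))
    (h𝒮 : ∀ 𝒜 ∈ 𝒮, 𝒜.Nonempty) (F : Finset (Tor d M) → ℝ) (hF0 : ∀ C, 0 ≤ F C) {q : ℝ}
    (hq0 : 0 ≤ q) (hq : (M : ℝ) ^ d * q ≤ 1) (hF : ∀ 𝒜 ∈ 𝒮, F (U 𝒜) ≤ 2 * q ^ 𝒜.card) :
    ∑ C ∈ 𝒮.image U, F C ≤ 4 * ((M : ℝ) ^ d * q) := by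
  classical
  have h1 : ∑ C ∈ 𝒮.image U, F C ≤ ∑ 𝒜 ∈ 𝒮, F (U 𝒜) := by
    rw [← Finset.sum_fiberwise_of_maps_to (s := 𝒮) (t := 𝒮.image U) (g := U)
      (fun 𝒜 h => Finset.mem_image_of_mem U h)]
    refine Finset.sum_le_sum fun C hC => ?_
    obtain ⟨𝒜, h𝒜, rfl⟩ := Finset.mem_image.1 hC
    exact Finset.single_le_sum (f := fun 𝒜 => F (U 𝒜)) (fun 𝒜 _ => hF0 _)
      (Finset.mem_filter.2 ⟨h𝒜, rfl⟩)
  have h2 : ∑ 𝒜 ∈ 𝒮, F (U 𝒜) ≤ ∑ 𝒜 ∈ (Finset.univ : Finset (Finset (Tor d M))).erase ∅,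
      2 * q ^ 𝒜.card := by
    refine (Finset.sum_le_sum hF).trans (Finset.sum_le_sum_of_subset_of_nonneg ?_ ?_)
    · intro 𝒜 h
      exact Finset.mem_erase.2 ⟨(h𝒮 𝒜 h).ne_empty, Finset.mem_univ _⟩
    · intro 𝒜 _ _
      positivity
  have h3 : ∑ 𝒜 ∈ (Finset.univ : Finset (Finset (Tor d M))).erase ∅, 2 * q ^ 𝒜.card =
      2 * ((q + 1) ^ (Fintype.card (Tor d M)) - 1) := by
    have h4 := Fintype.sum_pow_mul_eq_add_pow (Tor d M) q 1
    simp only [one_pow, mul_one] at h4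
    rw [← h4, ← Finset.mul_sum, Finset.sum_erase_eq_sub (Finset.mem_univ _)]
    simp
  have hcard : (Fintype.card (Tor d M) : ℝ) = (M : ℝ) ^ d := by
    rw [Fintype.card_fun, ZMod.card, Fintype.card_fin]
    push_cast
    rfl
  have h5 : (q + 1) ^ (Fintype.card (Tor d M)) ≤ Real.exp ((M : ℝ) ^ d * q) := by
    rw [← hcard, Real.exp_nat_mul]
    exact pow_le_pow_left₀ (by positivity) (Real.add_one_le_exp q) _
  have hy : 0 ≤ (M : ℝ) ^ d * q := by positivity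
  have h6 := Real.abs_exp_sub_one_le (x := (M : ℝ) ^ d * q) (by rw [abs_of_nonneg hy]; exact hq)
  rw [abs_of_nonneg hy] at h6
  have h7 := le_abs_self (Real.exp ((M : ℝ) ^ d * q) - 1)
  rw [h3] at h2
  linarith

end cubes

/-! ### numbers -/

/-- the exponent of the concentration of the mass -/
theorem num_m {d : ℕ} {x l C₁ B η₁ τ v Y L j : ℝ} (hd : 3 ≤ d) (hx0 : 0 < x) (hx1 : x ≤ 1)
    (hl : 1 ≤ l) (hC₁ : 1 ≤ C₁) (hB0 : 0 < B) (hB : B ≤ C₁ * l) (hη0 : 0 < η₁)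
    (hη : η₁ ≤ C₁ * x ^ 60 * l ^ 3) (hτ : x ≤ τ) (hv : v = x ^ 60) (hL : 1 ≤ x ^ 60 * L)
    (hj : 0 ≤ j) (hY : 0 ≤ Y) (h : 160 * C₁ ^ 4 * Y * (x ^ 110 * l ^ 9) ≤ 1) :
    j * (Y * l) ≤ (τ / (2 * x ^ 62)) ^ 2 * (j * L ^ d) * (x ^ 62) ^ 6 /
      (40 * B ^ 2 * η₁ ^ 2 * v) := by
  have hv0 : 0 < v := by rw [hv]; positivity
  have hx60 : 0 < x ^ 60 := by positivity
  have hL0 : 0 < L := by
    by_contra hcon
    have := mul_nonpos_of_nonneg_of_nonpos hx60.le (not_lt.1 hcon)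
    linarith only [hL, this]
  have hL1 : 1 ≤ L := by
    have h1 : x ^ 60 * L ≤ 1 * L := mul_le_mul_of_nonneg_right (pow_le_one₀ hx0.le hx1) hL0.le
    linarith
  have h1 : 1 ≤ x ^ 180 * L ^ d := by
    calc (1 : ℝ) ≤ (x ^ 60 * L) ^ 3 := one_le_pow₀ hL
      _ = x ^ 180 * L ^ 3 := by ring
      _ ≤ x ^ 180 * L ^ d := by
          refine mul_le_mul_of_nonneg_left (pow_le_pow_right₀ hL1 hd) (pow_nonneg hx0.le 180)
  rw [le_div_iff₀ (by positivity)]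
  have h2 : j * (Y * l) * (40 * B ^ 2 * η₁ ^ 2 * v) ≤
      j * (Y * l) * (40 * (C₁ * l) ^ 2 * (C₁ * x ^ 60 * l ^ 3) ^ 2 * x ^ 60) := by
    rw [hv]
    gcongr
  have h3 : j * (Y * l) * (40 * (C₁ * l) ^ 2 * (C₁ * x ^ 60 * l ^ 3) ^ 2 * x ^ 60) =
      160 * C₁ ^ 4 * Y * (x ^ 110 * l ^ 9) * (j * x ^ 70 / 4) := by ring
  have h4 : 160 * C₁ ^ 4 * Y * (x ^ 110 * l ^ 9) * (j * x ^ 70 / 4) ≤ 1 * (j * x ^ 70 / 4) :=
    mul_le_mul_of_nonneg_right h (by positivity)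
  have h5 : j * x ^ 70 / 4 ≤ (x / (2 * x ^ 62)) ^ 2 * (j * L ^ d) * (x ^ 62) ^ 6 := by
    have e1 : (x / (2 * x ^ 62)) ^ 2 * (j * L ^ d) * (x ^ 62) ^ 6 =
        j * x ^ 70 / 4 * (x ^ 180 * L ^ d) := by
      field_simp
      ring
    rw [e1]
    have e2 := mul_le_mul_of_nonneg_left h1 (by positivity : 0 ≤ j * x ^ 70 / 4)
    linarith only [e2]
  have h6 : (x / (2 * x ^ 62)) ^ 2 * (j * L ^ d) * (x ^ 62) ^ 6 ≤
      (τ / (2 * x ^ 62)) ^ 2 * (j * L ^ d) * (x ^ 62) ^ 6 := by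
    gcongr
  linarith only [h2, h4, h5, h6]

/-! ### the theorem -/

/-- TOM -/
theorem tom (hToa : ToaStmt) (hTob : TobStmt) (hMas : MasStmt) : TomStmt := by
  intro d δ A' hd hδ hA'
  obtain ⟨c₁, C₁, hc₁, hc₁4, hC₁, toa⟩ := hToa d δ (A' + 3) hd hδ (by linarith only [hA'])
  obtain ⟨c₂, K, hc₂, hc₂4, hK, tob⟩ := hTob d δ hd hδ
  have hd0 : (0 : ℝ) ≤ d := Nat.cast_nonneg d
  have ev1 := evx (2 / c₁) 5 0 (by norm_num)
  have ev2 := evx (160 * C₁ ^ 4 * (20 * d + A' + 3)) 110 9 (by norm_num)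
  have ev3 := evx 4 27 0 (by norm_num)
  obtain ⟨c, hc0, hcm, hev⟩ := ext (ev1.and (ev2.and ev3)) (min (c₁ / 2) c₂)
    (lt_min (by positivity) hc₂)
  have hcc1 : c ≤ c₁ / 2 := hcm.trans (min_le_left _ _)
  have hcc2 : c ≤ c₂ := hcm.trans (min_le_right _ _)
  refine ⟨c, K, hc0, hcc2.trans hc₂4, hK, ?_⟩
  intro M _ v σ E η L N n hv hσ hσc hE hη hM1 hM2 hKL hL hn hN
  obtain ⟨η₁, A, B, ζ, s, kin, hη₁, hA, hB⟩ := toa M v σ E η hv hσ (hσc.trans (by linarith only [hc0, hcc1])) hE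
    hη hM1 hM2
  have hmean : ∀ 𝒜 C' : Finset (Tor d M), 𝒜.Nonempty → 𝒜.card ≤ N →
      (∀ x ∈ C', ∃ a ∈ 𝒜, x ∈ cbt a L) → C'.card = 𝒜.card * L ^ d →
      ∫ W, mss W ⟨E, η⟩ C' ∂(gau d M v) ≤
        (K * |σ| ^ (1 / 15 : ℝ) * (n + N * (σ ^ 2 * L) ^ d * (n : ℝ) ^ (1 - (d : ℝ) / 2)) +
          |σ| ^ (1 / 31 : ℝ)) * C'.card / η := by
    intro 𝒜 C' h1 h2 h3 h4
    have h2' : (𝒜.card : ℝ) ≤ N := Nat.cast_le.2 h2
    refine (tob M v σ E η L n 𝒜 C' hv hσ (hσc.trans hcc2) hE hη hM1 hM2 hKL hL hn h1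
      (h2'.trans hN) h3 h4).trans ?_
    have hη0 : 0 < η := kin.hη.1
    have hK0 : 0 ≤ K := by linarith only [hc₁4, hK, hc0, hcc1]
    gcongr
  obtain ⟨t, ht⟩ : ∃ t : ℝ, t = |σ| := ⟨_, rfl⟩
  have ht0 : 0 < t := by rw [ht]; exact abs_pos.2 hσ
  rw [← ht] at hσc hη hM1 hM2 kin hη₁ hA hB hmean ⊢
  have hσ2 : σ ^ 2 = t ^ 2 := by rw [ht, sq_abs]
  rw [hσ2] at hv hKL hη₁ hmean ⊢
  obtain ⟨f1, f2, f3⟩ := hev t ht0 hσc
  have ht4 : t ≤ 1 / 4 := hσc.trans (hcc2.trans hc₂4)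
  obtain ⟨hx0, hx1, hx30, hl⟩ := base ht0 ht4
  have hMx := expM ht0 hM2 d
  have pw31 := pw ht0 62 (a := 31 / 15) (by norm_num)
  have pw6 := pw ht0 5 (a := 1 / 6) (by norm_num)
  have pw15 := pw ht0 2 (a := 1 / 15) (by norm_num)
  have pwA := te ht0 (A' + 3)
  have pwA' := te ht0 A'
  have hτ : t ^ (1 / 30 : ℝ) ≤ t ^ (1 / 31 : ℝ) :=
    Real.rpow_le_rpow_of_exponent_ge ht0 (by linarith only [hc₁4, hc0, hcc1, hσc]) (by norm_num)
  have hlt : Real.exp (-Real.log (1 / t)) = t := by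
    rw [one_div, Real.log_inv, neg_neg, Real.exp_log ht0]
  rw [pw31] at hη
  rw [pw6, pwA] at kin
  rw [pw15] at hmean ⊢
  rw [pwA']
  clear ev1 ev2 ev3 hev pw31 pw6 pw15 pwA pwA'
  generalize hx : t ^ (1 / 30 : ℝ) = x at *
  generalize hτ' : t ^ (1 / 31 : ℝ) = τ at *
  generalize hl' : Real.log (1 / t) = l at *
  simp only [pow_zero, mul_one] at f1 f2 f3
  have hxt : t ^ 2 = x ^ 60 := by rw [← hx30]; ring
  have hl0 : 0 < l := by linarith only [hc₁4, hc0, hcc1, hl]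
  have hexp4 : Real.exp (-l) ≤ 1 / 4 := by rw [hlt]; exact ht4
  rw [hxt] at hv hKL hη₁ hmean ⊢
  have hv0 : 0 < (v : ℝ) := by rw [hv]; positivity
  have hη0 : 0 < η := kin.hη.1
  have hη₁0 : 0 < η₁ := lt_of_lt_of_le hη0 kin.hη.2.1
  have hτ0 : 0 < τ := lt_of_lt_of_le hx0 hτ
  have hL1 : 1 ≤ x ^ 60 * (L : ℝ) := hK.trans hKL
  have hLpos : 0 < L := by
    rcases Nat.eq_zero_or_pos L with h | h
    · rw [h] at hL1
      norm_num at hL1
    · exact h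
  -- the probabilities
  obtain ⟨p, hp⟩ : ∃ p : ℝ, p = Real.exp (-((A' + 3) * l)) := ⟨_, rfl⟩
  rw [← hp] at kin
  have hp0 : 0 < p := by rw [hp]; exact Real.exp_pos _
  have hp90 : p ≤ x ^ 90 := by
    have h1 : p ≤ Real.exp (-l) ^ 3 := by
      rw [hp, ← Real.exp_nat_mul]
      apply Real.exp_le_exp.2
      have := mul_nonneg (by linarith only [hA', hc₁4, hc0, hcc1] : 0 ≤ A') hl0.le
      push_cast
      linarith only [this]
    rw [hlt, ← hx30, ← pow_mul] at h1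
    exact h1
  -- the family
  classical
  obtain ⟨𝒮, h𝒮⟩ : ∃ 𝒮 : Finset (Finset (Tor d M)), 𝒮 = Finset.univ.filter fun 𝒜 =>
    𝒜.Nonempty ∧ 𝒜.card ≤ N ∧ (uc L 𝒜).card = 𝒜.card * L ^ d := ⟨_, rfl⟩
  have hmem : ∀ 𝒜 ∈ 𝒮, 𝒜.Nonempty ∧ 𝒜.card ≤ N ∧ (uc L 𝒜).card = 𝒜.card * L ^ d := by
    intro 𝒜 h
    rw [h𝒮] at h
    exact (Finset.mem_filter.1 h).2
  have hne : ∀ C ∈ 𝒮.image (uc L), C.Nonempty := by
    intro C hC
    obtain ⟨𝒜, h𝒜, rfl⟩ := Finset.mem_image.1 hC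
    obtain ⟨h1, -, h3⟩ := hmem 𝒜 h𝒜
    rw [← Finset.card_pos, h3]
    exact Nat.mul_pos (Finset.card_pos.2 h1) (pow_pos hLpos d)
  have hmas := hMas d M v E η η₁ A B p (τ / (2 * η)) (𝒮.image (uc L)) hη0 kin.hη.2.1 kin.hA.1
    kin.hA.2.1 kin.hS kin.hB kin.hF hp0.le (by positivity) hne
  obtain ⟨q, hq⟩ : ∃ q : ℝ, q = Real.exp (-((20 * d + A' + 3) * l)) := ⟨_, rfl⟩
  have hMq : (M : ℝ) ^ d * q ≤ p := by
    calc (M : ℝ) ^ d * q ≤ Real.exp (20 * d * l) * q := by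
          rw [hq]
          exact mul_le_mul_of_nonneg_right hMx (Real.exp_pos _).le
      _ = p := by
          rw [hq, hp, ← Real.exp_add]
          congr 1
          ring
  have hp4 : 6 * p ≤ Real.exp (-(A' * l)) := by
    have h1 : p = Real.exp (-l) ^ 3 * Real.exp (-(A' * l)) := by
      rw [hp, ← Real.exp_nat_mul, ← Real.exp_add]
      congr 1
      push_cast
      ring
    have h2 : Real.exp (-l) ^ 3 ≤ (1 / 4) ^ 3 := pow_le_pow_left₀ (Real.exp_pos _).le hexp4 3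
    have h3 := mul_le_mul_of_nonneg_right h2 (Real.exp_pos (-(A' * l))).le
    have h4 := Real.exp_pos (-(A' * l))
    rw [h1]
    linarith only [hp0, h1, h3]
  have hp1 : p ≤ 1 := by
    refine hp90.trans (pow_le_one₀ hx0.le hx1)
  have hsum := sum_fam (uc L) 𝒮 (fun 𝒜 h => (hmem 𝒜 h).1) (fun C =>
    2 * Real.exp (-((τ / (2 * η)) ^ 2 * C.card * η ^ 6 / (40 * B ^ 2 * η₁ ^ 2 * v))))
    (fun C => by positivity) (q := q) (by rw [hq]; positivity) (hMq.trans hp1) (by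
      intro 𝒜 h𝒜
      obtain ⟨-, -, h3⟩ := hmem 𝒜 h𝒜
      refine mul_le_mul_of_nonneg_left ?_ (by norm_num)
      rw [hq, ← Real.exp_nat_mul]
      apply Real.exp_le_exp.2
      have h4 := num_m (j := 𝒜.card) (Y := 20 * d + A' + 3) hd hx0 hx1 hl hC₁ kin.hA.2.1 hB hη₁0
        hη₁ hτ hv hL1 (Nat.cast_nonneg _) (by linarith only [hA', hc₁4, hc0, hcc1]) f2
      rw [h3, hη]
      push_cast
      linarith only [h4])
  -- the event
  have hsub : {V | ¬ ((∀ x, c ≤ (rs V ⟨E, η⟩ x x).im) ∧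
      ∀ 𝒜 C' : Finset (Tor d M), 𝒜.Nonempty → 𝒜.card ≤ N → (∀ x ∈ C', ∃ a ∈ 𝒜, x ∈ cbt a L) →
        C'.card = 𝒜.card * L ^ d → mss V ⟨E, η⟩ C' ≤
          (K * x ^ 2 * (n + N * (x ^ 60 * L) ^ d * (n : ℝ) ^ (1 - (d : ℝ) / 2)) +
            2 * τ) * C'.card / η)} ⊆
      {V | ¬ ∀ y, ‖rs V ⟨E, η⟩ y y - gb d M v ⟨E, η⟩‖ ≤ x ^ 5} ∪
      {V | ¬ ∀ C ∈ 𝒮.image (uc L), mss V ⟨E, η⟩ C ≤
        (∫ W, mss W ⟨E, η⟩ C ∂(gau d M v)) + (τ / (2 * η) + 2 * p / η ^ 2) * C.card} := by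
    intro V hV
    by_contra hcon
    rw [Set.mem_union, not_or] at hcon
    obtain ⟨h1, h2⟩ := hcon
    have h1' : ∀ y, ‖rs V ⟨E, η⟩ y y - gb d M v ⟨E, η⟩‖ ≤ x ^ 5 := not_not.1 h1
    have h2' : ∀ C ∈ 𝒮.image (uc L), mss V ⟨E, η⟩ C ≤
        (∫ W, mss W ⟨E, η⟩ C ∂(gau d M v)) + (τ / (2 * η) + 2 * p / η ^ 2) * C.card :=
      not_not.1 h2
    apply hV
    refine ⟨?_, ?_⟩
    · intro y
      have h3 := (Complex.abs_im_le_norm _).trans (h1' y)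
      rw [Complex.sub_im] at h3
      have h4 := (abs_le.1 h3).1
      have h5 : x ^ 5 ≤ c₁ / 2 := by
        have h6 : 2 / c₁ * x ^ 5 = 2 * x ^ 5 / c₁ := by ring
        rw [h6, div_le_one hc₁] at f1
        linarith only [f1]
      have h7 := kin.hg.1
      linarith
    · intro 𝒜 C' g1 g2 g3 g4
      have g5 := uc_eq g3 g4
      have g6 : C' ∈ 𝒮.image (uc L) := by
        rw [g5]
        refine Finset.mem_image_of_mem _ ?_
        rw [h𝒮]
        exact Finset.mem_filter.2 ⟨Finset.mem_univ _, g1, g2, by rw [← g5]; exact g4⟩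
      have g7 := h2' C' g6
      have g8 := hmean 𝒜 C' g1 g2 g3 g4
      have g9 : (τ / (2 * η) + 2 * p / η ^ 2) * (C'.card : ℝ) ≤ τ / η * C'.card := by
        refine mul_le_mul_of_nonneg_right ?_ (Nat.cast_nonneg _)
        have e1 : 2 * p / η ^ 2 ≤ τ / (2 * η) := by
          rw [div_le_div_iff₀ (by positivity) (by positivity)]
          have e2 : 4 * p ≤ τ * η := by
            calc 4 * p ≤ 4 * x ^ 90 := by linarith only [hp90]
              _ = 4 * x ^ 27 * (x * x ^ 62) := by ring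
              _ ≤ 1 * (x * x ^ 62) := mul_le_mul_of_nonneg_right f3 (by positivity)
              _ = x * x ^ 62 := one_mul _
              _ ≤ τ * η := by
                  rw [hη]
                  exact mul_le_mul_of_nonneg_right hτ (by positivity)
          calc 2 * p * (2 * η) = 4 * p * η := by ring
            _ ≤ τ * η * η := mul_le_mul_of_nonneg_right e2 hη0.le
            _ = τ * η ^ 2 := by ring
        have e3 : τ / η = τ / (2 * η) + τ / (2 * η) := by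
          field_simp
          norm_num
        rw [e3]
        linarith only [e1]
      have g10 : (K * x ^ 2 * (n + N * (x ^ 60 * L) ^ d * (n : ℝ) ^ (1 - (d : ℝ) / 2)) +
          2 * τ) * C'.card / η = (K * x ^ 2 * (n + N * (x ^ 60 * L) ^ d *
            (n : ℝ) ^ (1 - (d : ℝ) / 2)) + τ) * C'.card / η + τ / η * C'.card := by
        ring
      rw [g10]
      linarith
  refine (measure_mono hsub).trans ((measure_union_le _ _).trans ?_)
  refine (add_le_add kin.hD hmas).trans ?_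
  have hS0 : 0 ≤ ∑ C ∈ 𝒮.image (uc L),
      2 * Real.exp (-((τ / (2 * η)) ^ 2 * C.card * η ^ 6 / (40 * B ^ 2 * η₁ ^ 2 * v))) :=
    Finset.sum_nonneg fun C _ => by positivity
  rw [← ENNReal.ofReal_add hp0.le (by linarith)]
  refine ENNReal.ofReal_le_ofReal ?_
  linarith

end Pool.Agent.LE.QD.H33
end
end -- Pool.Agent.Helper33_LQD.TOM
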