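import Pool.Agent.Helper12_MEB.B074

/-!
# Merged copies (generated) of the modules

* `Pool.Agent.Helper54_LIR.FTB`
* `Pool.Agent.Helper62_LE.LFL`
-/

set_option autoImplicit false

section -- Pool.Agent.Helper54_LIR.FTB

/-!
# FTB: the Fourier transform on the torus
-/

set_option autoImplicit false
set_option linter.unusedSectionVars false

open MeasureTheory ProbabilityTheory

open scoped ENNReal BigOperators NNReal

noncomputable section

namespace Pool.Agent.LE.IR.H54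

open Pool.Agent.BED Pool.Agent.LE.IR

variable {d M : ℕ} [NeZero M]

theorem ec_norm (p y : Tor d M) : ‖ec p y‖ = 1 := by
  unfold ec
  rw [norm_prod]
  refine Finset.prod_eq_one fun i _ => ?_
  rw [ZMod.stdAddChar_apply]
  exact Circle.norm_coe _

theorem ec_add (p y z : Tor d M) : ec p (y + z) = ec p y * ec p z := by
  unfold ec
  rw [← Finset.prod_mul_distrib]
  refine Finset.prod_congr rfl fun i _ => ?_
  rw [Pi.add_apply, mul_add, AddChar.map_add_eq_mul]

theorem ec_comm (p y : Tor d M) : ec p y = ec y p := by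
  unfold ec
  exact Finset.prod_congr rfl fun i _ => by rw [mul_comm]

theorem ec_add_left (p q y : Tor d M) : ec (p + q) y = ec p y * ec q y := by
  rw [ec_comm, ec_add, ec_comm y p, ec_comm y q]

theorem ec_zero (p : Tor d M) : ec p 0 = 1 := by
  unfold ec
  simp

theorem ec_neg (p y : Tor d M) : ec p (-y) = (starRingEnd ℂ) (ec p y) := by
  have h1 : ec p (-y) * ec p y = 1 := by rw [← ec_add, neg_add_cancel, ec_zero]
  have h2 : (starRingEnd ℂ) (ec p y) * ec p y = 1 := by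
    rw [mul_comm, Complex.mul_conj, Complex.normSq_eq_norm_sq, ec_norm]; norm_num
  have h3 : ec p y ≠ 0 := by
    intro h
    rw [h, mul_zero] at h1
    exact zero_ne_one h1
  exact mul_right_cancel₀ h3 (h1.trans h2.symm)

theorem ec_neg_left (p y : Tor d M) : ec (-p) y = (starRingEnd ℂ) (ec p y) := by
  rw [ec_comm, ec_neg, ec_comm]

theorem ec_sub (p y z : Tor d M) : ec p (y - z) = ec p y * (starRingEnd ℂ) (ec p z) := by
  rw [sub_eq_add_neg, ec_add, ec_neg]

theorem sum_ec (p : Tor d M) : ∑ y, ec p y = if p = 0 then (M : ℂ) ^ d else 0 := by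
  unfold ec
  have h1 : ∑ y : Tor d M, ∏ i, ZMod.stdAddChar (p i * y i) =
      ∏ i, ∑ t : ZMod M, ZMod.stdAddChar (p i * t) := by
    rw [Finset.prod_univ_sum]
    simp [Fintype.piFinset_univ]
  rw [h1]
  have h2 : ∀ i, ∑ t : ZMod M, ZMod.stdAddChar (p i * t) = if p i = 0 then (M : ℂ) else 0 := by
    intro i
    have := AddChar.sum_mulShift (p i) (ZMod.isPrimitive_stdAddChar M)
    rw [ZMod.card] at this
    have h3 : ∑ t : ZMod M, ZMod.stdAddChar (p i * t) = ∑ t : ZMod M, ZMod.stdAddChar (t * p i) :=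
      Finset.sum_congr rfl fun t _ => by rw [mul_comm]
    rw [h3, this]
    split_ifs <;> simp
  simp only [h2]
  by_cases hp : p = 0
  · rw [if_pos hp]
    subst hp
    simp
  · rw [if_neg hp]
    have : ∃ i, p i ≠ 0 := by
      by_contra hcon
      exact hp (funext fun i => by_contra fun h => hcon ⟨i, h⟩)
    obtain ⟨i, hi⟩ := this
    exact Finset.prod_eq_zero (Finset.mem_univ i) (if_neg hi)

theorem sum_ec_right (y : Tor d M) : ∑ p, ec p y = if y = 0 then (M : ℂ) ^ d else 0 := by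
  rw [← sum_ec y]
  exact Finset.sum_congr rfl fun p _ => ec_comm p y

theorem Mne : (M : ℂ) ^ d ≠ 0 := pow_ne_zero _ (by exact_mod_cast NeZero.ne M)

theorem inversion (f : Tor d M → ℂ) (x : Tor d M) : f x = (∑ p, ec p x * ft f p) / (M : ℂ) ^ d := by
  rw [eq_div_iff Mne]
  unfold ft
  have h1 : ∑ p, ec p x * ∑ y, (starRingEnd ℂ) (ec p y) * f y =
      ∑ y, f y * ∑ p, ec p (x - y) := by
    simp only [Finset.mul_sum]
    rw [Finset.sum_comm]
    refine Finset.sum_congr rfl fun y _ => Finset.sum_congr rfl fun p _ => ?_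
    rw [ec_sub]; ring
  rw [h1]
  simp only [sum_ec_right]
  rw [Finset.sum_eq_single x]
  · simp
  · intro y _ hy
    rw [if_neg (sub_ne_zero.2 (Ne.symm hy)), mul_zero]
  · intro h
    exact absurd (Finset.mem_univ x) h

theorem parseval2 (f g : Tor d M → ℂ) : ∑ x, (starRingEnd ℂ) (g x) * f x =
    (∑ p, (starRingEnd ℂ) (ft g p) * ft f p) / (M : ℂ) ^ d := by
  rw [eq_div_iff Mne, Finset.sum_mul]
  have h1 : ∀ x, (starRingEnd ℂ) (g x) * f x * (M : ℂ) ^ d =
      ∑ p, (starRingEnd ℂ) (g x) * (ec p x * ft f p) := by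
    intro x
    have h := inversion f x
    rw [← Finset.mul_sum, mul_assoc]
    congr 1
    rw [h, div_mul_cancel₀ _ Mne]
  rw [Finset.sum_congr rfl fun x _ => h1 x, Finset.sum_comm]
  refine Finset.sum_congr rfl fun p _ => ?_
  unfold ft
  rw [map_sum, Finset.sum_mul]
  refine Finset.sum_congr rfl fun x _ => ?_
  rw [map_mul, Complex.conj_conj]
  ring

theorem parseval1 (f : Tor d M → ℂ) : ∑ x, ‖f x‖ ^ 2 = pm fun p => ‖ft f p‖ ^ 2 := by
  have h := parseval2 f f
  have h1 : ∀ z : ℂ, (starRingEnd ℂ) z * z = ((‖z‖ ^ 2 : ℝ) : ℂ) := by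
    intro z
    rw [mul_comm, Complex.mul_conj, Complex.normSq_eq_norm_sq]
  simp only [h1] at h
  unfold pm
  have h2 : ((∑ x, ‖f x‖ ^ 2 : ℝ) : ℂ) = (((∑ p, ‖ft f p‖ ^ 2) / (M : ℝ) ^ d : ℝ) : ℂ) := by
    push_cast
    push_cast at h
    exact h
  exact_mod_cast h2

theorem surj (F : Tor d M → ℂ) : ∃ f : Tor d M → ℂ, ∀ p, ft f p = F p := by
  refine ⟨fun x => (∑ p, ec p x * F p) / (M : ℂ) ^ d, fun q => ?_⟩
  unfold ft
  have h1 : ∑ y, (starRingEnd ℂ) (ec q y) * ((∑ p, ec p y * F p) / (M : ℂ) ^ d) =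
      (∑ p, F p * ∑ y, ec (p - q) y) / (M : ℂ) ^ d := by
    rw [Finset.sum_div]
    simp only [Finset.mul_sum, Finset.sum_div]
    rw [Finset.sum_comm]
    refine Finset.sum_congr rfl fun p _ => Finset.sum_congr rfl fun y _ => ?_
    rw [sub_eq_add_neg, ec_add_left, ec_neg_left]; ring
  rw [h1]
  simp only [sum_ec]
  rw [Finset.sum_eq_single q]
  · rw [sub_self, if_pos rfl, mul_div_assoc, div_self Mne, mul_one]
  · intro p _ hp
    rw [if_neg (sub_ne_zero.2 hp), mul_zero]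
  · intro h
    exact absurd (Finset.mem_univ q) h

theorem ft_shift (f : Tor d M → ℂ) (e p : Tor d M) :
    ft (fun x => f (x + e)) p = ec p e * ft f p := by
  unfold ft
  have h := Equiv.sum_comp (Equiv.addRight e) (fun y => (starRingEnd ℂ) (ec p (y - e)) * f y)
  simp only [Equiv.coe_addRight, add_sub_cancel_right] at h
  rw [h, Finset.mul_sum]
  refine Finset.sum_congr rfl fun y _ => ?_
  rw [ec_sub, map_mul, Complex.conj_conj]; ring

theorem ft_shift' (f : Tor d M → ℂ) (e p : Tor d M) :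
    ft (fun x => f (x - e)) p = (starRingEnd ℂ) (ec p e) * ft f p := by
  have := ft_shift f (-e) p
  simp only [← sub_eq_add_neg] at this
  rw [this, ec_neg]

theorem ft_add (f g : Tor d M → ℂ) (p : Tor d M) :
    ft (fun x => f x + g x) p = ft f p + ft g p := by
  unfold ft
  simp only [mul_add, Finset.sum_add_distrib]

theorem ft_sub (f g : Tor d M → ℂ) (p : Tor d M) :
    ft (fun x => f x - g x) p = ft f p - ft g p := by
  unfold ft
  simp only [mul_sub, Finset.sum_sub_distrib]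

theorem ft_smul (c : ℂ) (f : Tor d M → ℂ) (p : Tor d M) :
    ft (fun x => c * f x) p = c * ft f p := by
  unfold ft
  rw [Finset.mul_sum]
  exact Finset.sum_congr rfl fun x _ => by ring

theorem ft_sum {ι : Type*} (s : Finset ι) (f : ι → Tor d M → ℂ) (p : Tor d M) :
    ft (fun x => ∑ i ∈ s, f i x) p = ∑ i ∈ s, ft (f i) p := by
  unfold ft
  simp only [Finset.mul_sum]
  rw [Finset.sum_comm]

/-- the real part of the character at the unit vector -/
theorem ec_ev (p : Tor d M) (i : Fin d) : ec p (ev i) = ZMod.stdAddChar (p i) := by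
  unfold ec ev
  rw [Finset.prod_eq_single i]
  · simp
  · intro j _ hj
    rw [Pi.single_eq_of_ne hj, mul_zero, AddChar.map_zero_eq_one]
  · intro h
    exact absurd (Finset.mem_univ i) h

theorem std_re (a : ZMod M) :
    (ZMod.stdAddChar a : ℂ).re = Real.cos (2 * Real.pi * (a.valMinAbs : ℝ) / M) := by
  have h1 : (ZMod.stdAddChar a : ℂ) = ZMod.stdAddChar ((a.valMinAbs : ℤ) : ZMod M) := by
    rw [ZMod.coe_valMinAbs]
  rw [h1, ZMod.stdAddChar_coe]
  have h2 : 2 * (Real.pi : ℂ) * Complex.I * (a.valMinAbs : ℂ) / M =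
      ((2 * Real.pi * (a.valMinAbs : ℝ) / M : ℝ) : ℂ) * Complex.I := by
    push_cast; ring
  rw [h2, Complex.exp_ofReal_mul_I_re]

theorem ds_eq (p : Tor d M) : (ds p : ℂ) =
    ∑ i, (2 - ec p (ev i) - (starRingEnd ℂ) (ec p (ev i))) := by
  unfold ds
  push_cast
  refine Finset.sum_congr rfl fun i _ => ?_
  have h1 : ec p (ev i) + (starRingEnd ℂ) (ec p (ev i)) =
      ((2 * Real.cos (2 * Real.pi * ((p i).valMinAbs : ℝ) / M) : ℝ) : ℂ) := by
    rw [Complex.add_conj, ec_ev, std_re]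
  push_cast at h1
  linear_combination h1

theorem ft_lap (f : Tor d M → ℂ) (p : Tor d M) :
    ft (fun x => ∑ i : Fin d, (2 * f x - f (x + ev i) - f (x - ev i))) p =
      (ds p : ℂ) * ft f p := by
  rw [ft_sum Finset.univ (fun (i : Fin d) x => 2 * f x - f (x + ev i) - f (x - ev i)), ds_eq,
    Finset.sum_mul]
  refine Finset.sum_congr rfl fun i _ => ?_
  rw [ft_sub, ft_sub, ft_smul, ft_shift, ft_shift']
  ring

theorem pm_add (F G : Tor d M → ℝ) : pm (fun p => F p + G p) = pm F + pm G := by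
  unfold pm
  rw [Finset.sum_add_distrib, add_div]

theorem energy_eq (f : Tor d M → ℂ) : ∑ x, ∑ i : Fin d, ‖f (x + ev i) - f x‖ ^ 2 =
    pm fun p => ds p * ‖ft f p‖ ^ 2 := by
  rw [Finset.sum_comm]
  have h1 : ∀ i : Fin d, ∑ x, ‖f (x + ev i) - f x‖ ^ 2 =
      pm fun p => 2 * (1 - Real.cos (2 * Real.pi * ((p i).valMinAbs : ℝ) / M)) *
        ‖ft f p‖ ^ 2 := by
    intro i
    rw [parseval1 (fun x => f (x + ev i) - f x)]
    unfold pm
    congr 1
    refine Finset.sum_congr rfl fun p _ => ?_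
    beta_reduce
    rw [ft_sub (fun x => f (x + ev i)) f, ft_shift]
    have h2 : ec p (ev i) * ft f p - ft f p = (ec p (ev i) - 1) * ft f p := by ring
    rw [h2, norm_mul, mul_pow]
    congr 1
    rw [← Complex.normSq_eq_norm_sq, Complex.normSq_apply]
    have h3 : (ec p (ev i)).re ^ 2 + (ec p (ev i)).im ^ 2 = 1 := by
      have := ec_norm p (ev i)
      rw [← sq_eq_sq₀ (norm_nonneg _) zero_le_one, ← Complex.normSq_eq_norm_sq,
        Complex.normSq_apply] at this
      nlinarith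
    have h4 : (ec p (ev i)).re = Real.cos (2 * Real.pi * ((p i).valMinAbs : ℝ) / M) := by
      rw [ec_ev, std_re]
    rw [← h4]
    simp only [Complex.sub_re, Complex.sub_im, Complex.one_re, Complex.one_im]
    nlinarith
  simp only [h1]
  unfold pm ds
  rw [← Finset.sum_div, Finset.sum_comm]
  congr 1
  refine Finset.sum_congr rfl fun p _ => ?_
  beta_reduce
  rw [Finset.sum_mul]

theorem low_neg (J : ℕ) (p : Tor d M) : -p ∈ low d M J ↔ p ∈ low d M J := by
  unfold low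
  simp only [Finset.mem_filter, Finset.mem_univ, true_and, Pi.neg_apply,
    ZMod.natAbs_valMinAbs_neg]

theorem dk_eq (J : ℕ) (y : Tor d M) : (dk J y : ℂ) = (∑ p ∈ low d M J, ec p y) / (M : ℂ) ^ d := by
  unfold dk
  push_cast
  congr 1
  have h1 : ∑ p ∈ low d M J, ec p y = ∑ p ∈ low d M J, (starRingEnd ℂ) (ec p y) := by
    refine Finset.sum_bij' (fun p _ => -p) (fun p _ => -p) ?_ ?_ ?_ ?_ ?_
    · intro p hp
      exact (low_neg J p).2 hp
    · intro p hp
      exact (low_neg J p).2 hp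
    · intro p _
      exact neg_neg p
    · intro p _
      exact neg_neg p
    · intro p _
      rw [← ec_neg_left, neg_neg]
  have h2 : ∀ z : ℂ, (z.re : ℂ) = (z + (starRingEnd ℂ) z) / 2 := by
    intro z
    rw [Complex.add_conj]
    push_cast
    ring
  simp only [h2]
  rw [← Finset.sum_div, Finset.sum_add_distrib, ← h1]
  ring

theorem ft_lpf (J : ℕ) (f : Tor d M → ℝ) (p : Tor d M) :
    ft (fun x => (lpf J f x : ℂ)) p =
      if p ∈ low d M J then ft (fun x => (f x : ℂ)) p else 0 := by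
  have h1 : ∀ x, ((lpf J f x : ℝ) : ℂ) =
      (∑ q ∈ low d M J, ec q x * ft (fun x => (f x : ℂ)) q) / (M : ℂ) ^ d := by
    intro x
    unfold lpf ft
    push_cast
    simp only [dk_eq, Finset.mul_sum]
    rw [Finset.sum_comm, Finset.sum_div]
    refine Finset.sum_congr rfl fun y _ => ?_
    rw [div_mul_eq_mul_div, Finset.sum_mul]
    congr 1
    refine Finset.sum_congr rfl fun q _ => ?_
    rw [ec_sub]; ring
  simp only [h1]
  obtain ⟨g, hg⟩ := surj (fun q => if q ∈ low d M J then ft (fun x => (f x : ℂ)) q else 0)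
  have h2 : ∀ x, g x = (∑ q ∈ low d M J, ec q x * ft (fun x => (f x : ℂ)) q) / (M : ℂ) ^ d := by
    intro x
    rw [inversion g x]
    congr 1
    simp only [hg, mul_ite, mul_zero]
    rw [Finset.sum_ite_mem, Finset.univ_inter]
  rw [← hg p]
  congr 1
  funext x
  exact (h2 x).symm

theorem ds_nonneg (p : Tor d M) : 0 ≤ ds p := by
  unfold ds
  exact Finset.sum_nonneg fun i _ => by
    have := Real.cos_le_one (2 * Real.pi * ((p i).valMinAbs : ℝ) / M)
    linarith

/-- the free matrix is positive definite -/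
theorem AM0_posDef {h : ℝ} (hh : 0 < h) : (AM (2 * d + h) (0 : Tor d M → ℝ)).PosDef := by
  refine AM_posDef_of_super (g := fun _ => 1) (fun _ => one_pos) fun x => ?_
  rw [AM_mulVec]
  simp only [Pi.zero_apply, sub_zero, mul_one, Finset.sum_const, Finset.card_univ,
    Fintype.card_fin, nsmul_eq_mul]
  linarith

theorem gv_eq {h : ℝ} (hh : 0 < h) (V : Tor d M → ℝ) (x : Tor d M) :
    (2 * d + h) * gv h V x - ∑ i : Fin d, (gv h V (x + ev i) + gv h V (x - ev i)) = V x := by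
  have h1 := mulVec_inv (AM0_posDef (d := d) (M := M) hh) V
  have h2 : (AM (2 * d + h) (0 : Tor d M → ℝ))⁻¹.mulVec V = gv h V := by
    funext y
    rfl
  rw [h2] at h1
  have h3 := congrFun h1 x
  rw [AM_mulVec] at h3
  simpa using h3

theorem ft_gv (h : ℝ) (V : Tor d M → ℝ) (p : Tor d M) (hh : 0 < h) :
    ft (fun x => (gv h V x : ℂ)) p = ft (fun x => (V x : ℂ)) p / ((ds p + h : ℝ) : ℂ) := by
  have hne : ((ds p + h : ℝ) : ℂ) ≠ 0 := by
    have := ds_nonneg p
    exact_mod_cast (by linarith : ds p + h ≠ 0) |> fun h => h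
  rw [eq_div_iff hne]
  have h1 := ft_lap (fun x => (gv h V x : ℂ)) p
  have h2 : ft (fun x => (∑ i : Fin d, (2 * (gv h V x : ℂ) - gv h V (x + ev i) -
      gv h V (x - ev i))) + (h : ℂ) * gv h V x) p = ft (fun x => (V x : ℂ)) p := by
    congr 1
    funext x
    have h3 := gv_eq hh V x
    have h4 : (∑ i : Fin d, (2 * (gv h V x : ℂ) - gv h V (x + ev i) -
        gv h V (x - ev i))) = 2 * d * (gv h V x : ℂ) -
          ∑ i : Fin d, ((gv h V (x + ev i) : ℂ) + gv h V (x - ev i)) := by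
      simp only [sub_sub]
      rw [Finset.sum_sub_distrib]
      simp only [Finset.sum_const, Finset.card_univ, Fintype.card_fin, nsmul_eq_mul]
      ring
    rw [h4, ← h3]
    push_cast
    ring
  rw [ft_add, ft_smul, h1] at h2
  rw [← h2]
  push_cast
  ring

theorem ftb : FtbStmt := by
  intro d M _
  exact ⟨ec_norm, ec_add, ec_add_left, fun p y => ⟨ec_neg_left p y, ec_neg p y⟩, parseval2,
    parseval1, inversion, surj, ft_lap, energy_eq, ft_lpf, ft_gv⟩

end Pool.Agent.LE.IR.H54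
end
end -- Pool.Agent.Helper54_LIR.FTB

section -- Pool.Agent.Helper62_LE.LFL

/-!
# LFL: Lipschitz bound for the low frequency part of the landscape function
-/

set_option autoImplicit false
set_option linter.unusedSectionVars false

open MeasureTheory ProbabilityTheory

open scoped ENNReal BigOperators NNReal

noncomputable section

namespace Pool.Agent.LE.IR.H62

open Matrix Pool.Agent.BED Pool.Agent.LE.IR

/-! ### Cauchy-Schwarz -/

/-- the euclidean norm -/
def nn {ι : Type} [Fintype ι] (f : ι → ℝ) : ℝ := Real.sqrt (∑ i, f i ^ 2)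

theorem nn_nonneg {ι : Type} [Fintype ι] (f : ι → ℝ) : 0 ≤ nn f := Real.sqrt_nonneg _

theorem nn_sq {ι : Type} [Fintype ι] (f : ι → ℝ) : nn f ^ 2 = ∑ i, f i ^ 2 :=
  Real.sq_sqrt (Finset.sum_nonneg fun _ _ => sq_nonneg _)

theorem csw {ι : Type} [Fintype ι] (c f g : ι → ℝ) {κ : ℝ} (hκ : 0 ≤ κ) (hc : ∀ i, |c i| ≤ κ) :
    |∑ i, c i * f i * g i| ≤ κ * (nn f * nn g) := by
  calc |∑ i, c i * f i * g i| ≤ ∑ i, |c i * f i * g i| := Finset.abs_sum_le_sum_abs _ _
    _ ≤ ∑ i, κ * (|f i| * |g i|) := by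
        refine Finset.sum_le_sum fun i _ => ?_
        rw [abs_mul, abs_mul, mul_assoc]
        exact mul_le_mul_of_nonneg_right (hc i) (by positivity)
    _ = κ * ∑ i, |f i| * |g i| := by rw [Finset.mul_sum]
    _ ≤ κ * (nn f * nn g) := by
        refine mul_le_mul_of_nonneg_left ?_ hκ
        have h := Real.sum_mul_le_sqrt_mul_sqrt Finset.univ (fun i => |f i|) (fun i => |g i|)
        simp only [sq_abs] at h
        exact h

variable {d M : ℕ} [NeZero M]

/-! ### The bilinear form -/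

/-- the gradient -/
def gr (u : Tor d M → ℝ) (p : Tor d M × Fin d) : ℝ := u (p.1 + ev p.2) - u p.1

theorem form {z h : ℝ} {V ω : Tor d M → ℝ} (hω : ∀ x, (AM z V *ᵥ ω) x = h)
    (ψ q : Tor d M → ℝ) :
    ∑ x, ψ x * (ω x * (AM z V *ᵥ fun y => ω y * q y) x) =
      ∑ p : Tor d M × Fin d, (ω p.1 * ω (p.1 + ev p.2)) * gr ψ p * gr q p +
        ∑ x, (h * ω x) * ψ x * q x := by
  have h1 : ∀ x, ω x * (AM z V *ᵥ fun y => ω y * q y) x =
      h * ω x * q x + ∑ i : Fin d, (ω x * ω (x + ev i) * (q x - q (x + ev i)) +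
        ω x * ω (x - ev i) * (q x - q (x - ev i))) := by
    intro x
    have e := hω x
    rw [AM_mulVec] at e ⊢
    have e2 : (z - V x) * ω x = h + ∑ i : Fin d, (ω (x + ev i) + ω (x - ev i)) := by linarith only [e]
    have e3 : (z - V x) * (ω x * q x) = h * q x +
        ∑ i : Fin d, (ω (x + ev i) + ω (x - ev i)) * q x := by
      rw [← Finset.sum_mul, ← add_mul, ← e2]; ring
    rw [e3, mul_sub, mul_add, Finset.mul_sum, Finset.mul_sum]
    have e4 : ∑ i : Fin d, ω x * ((ω (x + ev i) + ω (x - ev i)) * q x) -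
        ∑ i : Fin d, ω x * (ω (x + ev i) * q (x + ev i) + ω (x - ev i) * q (x - ev i)) =
        ∑ i : Fin d, (ω x * ω (x + ev i) * (q x - q (x + ev i)) +
        ω x * ω (x - ev i) * (q x - q (x - ev i))) := by
      rw [← Finset.sum_sub_distrib]
      refine Finset.sum_congr rfl fun i _ => ?_
      ring
    rw [← e4]
    ring
  simp only [h1, mul_add, Finset.mul_sum, Finset.sum_add_distrib]
  rw [Fintype.sum_prod_type]
  have h2 : ∑ x : Tor d M, ∑ i : Fin d, ψ x * (ω x * ω (x - ev i) * (q x - q (x - ev i))) =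
      ∑ x : Tor d M, ∑ i : Fin d, ψ (x + ev i) * (ω (x + ev i) * ω x * (q (x + ev i) - q x)) := by
    rw [Finset.sum_comm]
    rw [Finset.sum_comm (f := fun (x : Tor d M) (i : Fin d) =>
      ψ (x + ev i) * (ω (x + ev i) * ω x * (q (x + ev i) - q x)))]
    refine Finset.sum_congr rfl fun i _ => ?_
    rw [← Equiv.sum_comp (Equiv.addRight (ev i : Tor d M))]
    refine Finset.sum_congr rfl fun x _ => ?_
    simp only [Equiv.coe_addRight, add_sub_cancel_right]
  rw [h2]
  have h3 : ∑ x : Tor d M, ∑ i : Fin d, ψ x * (ω x * ω (x + ev i) * (q x - q (x + ev i))) +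
      ∑ x : Tor d M, ∑ i : Fin d, ψ (x + ev i) * (ω (x + ev i) * ω x * (q (x + ev i) - q x)) =
      ∑ x : Tor d M, ∑ i : Fin d, ω x * ω (x + ev i) * gr ψ (x, i) * gr q (x, i) := by
    rw [← Finset.sum_add_distrib]
    refine Finset.sum_congr rfl fun x _ => ?_
    rw [← Finset.sum_add_distrib]
    refine Finset.sum_congr rfl fun i _ => ?_
    unfold gr
    ring
  rw [h3, add_comm]
  congr 1
  refine Finset.sum_congr rfl fun x _ => ?_
  ring

/-- the coercivity of the form -/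
theorem form_self {z h ε : ℝ} {V ω : Tor d M → ℝ} (hω : ∀ x, (AM z V *ᵥ ω) x = h) (hh : 0 < h)
    (hε : ε ≤ 1 / 50) (hω1 : ∀ x, |ω x - 1| ≤ ε) (q : Tor d M → ℝ) :
    0.96 * nn (gr q) ^ 2 + 0.98 * h * nn q ^ 2 ≤
      ∑ x, q x * (ω x * (AM z V *ᵥ fun y => ω y * q y) x) := by
  rw [form hω, nn_sq, nn_sq, Finset.mul_sum, Finset.mul_sum]
  have hlo : ∀ x, 0.98 ≤ ω x := by
    intro x
    have := (abs_le.1 (hω1 x)).1
    norm_num at hε ⊢
    linarith only [this, hε]
  refine add_le_add (Finset.sum_le_sum fun p _ => ?_) (Finset.sum_le_sum fun x _ => ?_)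
  · have h1 := hlo p.1
    have h2 := hlo (p.1 + ev p.2)
    have h3 : 0.96 ≤ ω p.1 * ω (p.1 + ev p.2) := by nlinarith only [h1, h2]
    have h4 := mul_le_mul_of_nonneg_right h3 (sq_nonneg (gr q p))
    calc 0.96 * gr q p ^ 2 ≤ ω p.1 * ω (p.1 + ev p.2) * gr q p ^ 2 := h4
      _ = _ := by ring
  · have h1 := hlo x
    have h3 : 0.98 * h ≤ h * ω x := by nlinarith only [hh, h1]
    have h4 := mul_le_mul_of_nonneg_right h3 (sq_nonneg (q x))
    calc 0.98 * h * q x ^ 2 ≤ h * ω x * q x ^ 2 := h4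
      _ = _ := by ring

/-- the energy estimates -/
theorem energy_est {E N S h : ℝ} (hE : 0 ≤ E) (hN : 0 ≤ N) (hS : 0 ≤ S) (hh : 0 < h)
    (H : 0.96 * E ^ 2 + 0.98 * h * N ^ 2 ≤ 1.05 * (N * S)) :
    h * N ≤ 1.1 * S ∧ h * E ^ 2 ≤ 1.21 * S ^ 2 := by
  have h1 : h * N ≤ 1.08 * S := by
    rcases hN.eq_or_lt with h0 | h0
    · rw [← h0]; nlinarith only [hS]
    · by_contra hcon
      push Not at hcon
      have h2 : 0.98 * h * N ^ 2 ≤ 1.05 * (N * S) := by nlinarith only [sq_nonneg E, H]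
      have h3 : N * (0.98 * (h * N)) ≤ N * (1.05 * S) := by nlinarith only [H]
      have h4 : 0.98 * (h * N) ≤ 1.05 * S := le_of_mul_le_mul_left h3 h0
      nlinarith only [hS, hcon, h4]
  refine ⟨by nlinarith only [hS, h1], ?_⟩
  have h2 : 0.96 * E ^ 2 ≤ 1.05 * (N * S) := by nlinarith only [sq_nonneg N, mul_pos hh hh, hh, H]
  have h3 : 0.96 * (h * E ^ 2) ≤ 1.05 * ((h * N) * S) := by nlinarith only [hh, h2]
  have h4 : (h * N) * S ≤ 1.08 * S * S := mul_le_mul_of_nonneg_right h1 hS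
  nlinarith only [sq_nonneg S, h3, h4]

/-! ### The kernel -/

theorem dk_sq (J : ℕ) (x : Tor d M) :
    ∑ y, dk J (x - y) ^ 2 = ((low d M J).card : ℝ) / (M : ℝ) ^ d := by
  obtain ⟨-, -, -, -, -, hpar, hinv, hsurj, -⟩ := H54.ftb d M
  have h0 : ∑ y, dk J (x - y) ^ 2 = ∑ y : Tor d M, dk J y ^ 2 :=
    Equiv.sum_comp (Equiv.subLeft x) fun y => dk J y ^ 2
  rw [h0]
  obtain ⟨f, hf⟩ := hsurj fun p => if p ∈ low d M J then 1 else 0
  have h1 : ∀ y, f y = (dk J y : ℂ) := by
    intro y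
    rw [hinv f y, H54.dk_eq]
    congr 1
    simp only [hf, mul_ite, mul_one, mul_zero]
    rw [Finset.sum_ite_mem, Finset.univ_inter]
  have h2 := hpar f
  have h3 : ∀ y, ‖f y‖ ^ 2 = dk J y ^ 2 := by
    intro y
    rw [h1, Complex.norm_real, Real.norm_eq_abs, sq_abs]
  simp only [h3] at h2
  rw [h2]
  unfold pm
  congr 1
  simp only [hf]
  have h4 : ∀ p : Tor d M, ‖(if p ∈ low d M J then (1 : ℂ) else 0)‖ ^ 2 =
      if p ∈ low d M J then (1 : ℝ) else 0 := by
    intro p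
    by_cases hp : p ∈ low d M J
    · rw [if_pos hp, if_pos hp]; simp
    · rw [if_neg hp, if_neg hp]; simp
  simp only [h4]
  rw [Finset.sum_ite_mem, Finset.univ_inter]
  simp

/-! ### The estimate -/

theorem AM_om {z μ : ℝ} {V : Tor d M → ℝ} (hA : (AM z V).PosDef) (x : Tor d M) :
    (AM z V *ᵥ om z μ V) x = 1 / μ := by
  have e : om z μ V = (1 / μ) • DD z V := by
    funext y
    simp only [om, Pi.smul_apply, smul_eq_mul]
    ring
  rw [e, Matrix.mulVec_smul, AM_DD hA]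
  simp

theorem om_near {z μ ε : ℝ} {V : Tor d M → ℝ} (hμ : 0 < μ) (hV : FlatE ε z μ V) (x : Tor d M) :
    |om z μ V x - 1| ≤ ε := by
  have h := hV.2.2 x
  have e : om z μ V x - 1 = (DD z V x - μ) / μ := by
    unfold om; field_simp
  rw [e, abs_div, abs_of_pos hμ, div_le_iff₀ hμ]
  exact h

theorem core {z h ε : ℝ} {V ω ω' W δ q : Tor d M → ℝ} (φ : Tor d M → ℝ)
    (hω : ∀ x, (AM z V *ᵥ ω) x = h) (hh : 0 < h) (hε0 : 0 < ε) (hε : ε ≤ 1 / 50)
    (hω1 : ∀ x, |ω x - 1| ≤ ε) (hω2 : ∀ x, |ω' x - 1| ≤ ε)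
    (hδ : ∀ x, δ x = ω x * q x) (hq : ∀ x, (AM z V *ᵥ δ) x = ω' x * W x) :
    h * |∑ y, φ y * (δ y - gv h W y)| ≤ 10 * ε * (nn φ * nn W) := by
  set A0 := AM (2 * d + h) (0 : Tor d M → ℝ) with hA0
  have hA0p : A0.PosDef := H54.AM0_posDef hh
  set ψ : Tor d M → ℝ := A0⁻¹ *ᵥ φ with hψ
  have hψ1 : A0 *ᵥ ψ = φ := mulVec_inv hA0p φ
  have hone : ∀ x : Tor d M, (A0 *ᵥ fun _ => (1 : ℝ)) x = h := by
    intro x
    rw [hA0, AM_mulVec]
    simp only [Pi.zero_apply, sub_zero, mul_one, Finset.sum_const, Finset.card_univ,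
      Fintype.card_fin, nsmul_eq_mul]
    ring
  have hδf : δ = fun y => ω y * q y := funext hδ
  -- the estimates for `q`
  have hφ0 := nn_nonneg φ
  have hW0 := nn_nonneg W
  have hprod : ∀ x, |ω x * ω' x - 1| ≤ 3 * ε := by
    intro x
    have h1 := hω1 x
    have h2 := hω2 x
    have e : ω x * ω' x - 1 = (ω x - 1) * (ω' x - 1) + (ω x - 1) + (ω' x - 1) := by ring
    rw [e]
    have h3 : |(ω x - 1) * (ω' x - 1)| ≤ ε * ε := by
      rw [abs_mul]
      exact mul_le_mul h1 h2 (abs_nonneg _) hε0.le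
    have h4 := abs_add_le ((ω x - 1) * (ω' x - 1) + (ω x - 1)) (ω' x - 1)
    have h5 := abs_add_le ((ω x - 1) * (ω' x - 1)) (ω x - 1)
    nlinarith only [hε0, hε, h1, h2, h3, h4, h5]
  have hq1 := form_self hω hh hε hω1 q
  have hq2 : ∑ x, q x * (ω x * (AM z V *ᵥ fun y => ω y * q y) x) ≤ 1.05 * (nn q * nn W) := by
    rw [← hδf]
    have e : ∀ x, q x * (ω x * (AM z V *ᵥ δ) x) = (ω x * ω' x) * q x * W x := by
      intro x; rw [hq x]; ring
    rw [Finset.sum_congr rfl fun x _ => e x]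
    refine (le_abs_self _).trans ?_
    refine csw _ _ _ (by norm_num) fun x => ?_
    have h1 := (abs_le.1 (hω1 x))
    have h2 := (abs_le.1 (hω2 x))
    rw [abs_mul, abs_of_pos (by linarith only [hε0, hε, h1] : 0 < ω x), abs_of_pos (by linarith only [hε0, hε, h2] : 0 < ω' x)]
    nlinarith only [hε0, hε, h1, h2]
  obtain ⟨q1, q2⟩ := energy_est (nn_nonneg _) (nn_nonneg _) hW0 hh (hq1.trans hq2)
  -- the estimates for `ψ`
  have hp1 := form_self (ε := 0) hone hh (by norm_num) (fun _ => by simp) ψ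
  have hp2 : ∑ x, ψ x * ((1 : ℝ) * (A0 *ᵥ fun y => (1 : ℝ) * ψ y) x) ≤ 1.05 * (nn ψ * nn φ) := by
    simp only [one_mul]
    have e : ∀ x, ψ x * (A0 *ᵥ fun y => ψ y) x = (1 : ℝ) * ψ x * φ x := by
      intro x
      have : (A0 *ᵥ fun y => ψ y) = φ := hψ1
      rw [this]; ring
    rw [Finset.sum_congr rfl fun x _ => e x]
    refine (le_abs_self _).trans ?_
    refine csw _ _ _ (by norm_num) fun x => ?_
    rw [abs_one]; norm_num
  obtain ⟨p1, p2⟩ := energy_est (nn_nonneg _) (nn_nonneg _) hφ0 hh (hp1.trans hp2)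
  -- the decomposition
  have hg : A0 *ᵥ gv h W = W := by
    have e : gv h W = A0⁻¹ *ᵥ W := by
      funext x
      rfl
    rw [e]
    exact mulVec_inv hA0p W
  have hdec : ∑ y, φ y * (δ y - gv h W y) = ∑ y, (ω y - 1) * φ y * q y +
      (∑ p : Tor d M × Fin d, (1 - ω p.1 * ω (p.1 + ev p.2)) * gr ψ p * gr q p +
        h * ∑ x, (1 - ω x) * ψ x * q x) + ∑ x, (ω x * ω' x - 1) * ψ x * W x := by
    have s1 : ∑ y, φ y * (δ y - gv h W y) = ∑ y, (ω y - 1) * φ y * q y +
        ∑ y, φ y * (q y - gv h W y) := by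
      rw [← Finset.sum_add_distrib]
      refine Finset.sum_congr rfl fun y _ => ?_
      rw [hδ]; ring
    have s2 : ∑ y, φ y * (q y - gv h W y) = ∑ x, ψ x * (A0 *ᵥ q) x - ∑ x, ψ x * W x := by
      have t1 := sum_mul_mulVec_comm (A := A0) (AM_symm _ _) ψ q
      have t2 := sum_mul_mulVec_comm (A := A0) (AM_symm _ _) ψ (gv h W)
      rw [hψ1] at t1 t2
      rw [hg] at t2
      rw [t1, t2, ← Finset.sum_sub_distrib]
      refine Finset.sum_congr rfl fun y _ => ?_
      ring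
    have s3 : ∑ x, ψ x * (A0 *ᵥ q) x = ∑ p : Tor d M × Fin d, gr ψ p * gr q p +
        h * ∑ x, ψ x * q x := by
      have t := form hone ψ q
      simp only [one_mul, mul_one] at t
      rw [Finset.mul_sum]
      rw [show (A0 *ᵥ q) = (A0 *ᵥ fun y => q y) from rfl, t]
      congr 1
      refine Finset.sum_congr rfl fun y _ => ?_
      ring
    have s4 : ∑ x, (ω x * ω' x) * ψ x * W x =
        ∑ p : Tor d M × Fin d, (ω p.1 * ω (p.1 + ev p.2)) * gr ψ p * gr q p +
        ∑ x, (h * ω x) * ψ x * q x := by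
      rw [← form hω ψ q, ← hδf]
      refine Finset.sum_congr rfl fun x _ => ?_
      rw [hq x]; ring
    have s5 : ∑ p : Tor d M × Fin d, (1 - ω p.1 * ω (p.1 + ev p.2)) * gr ψ p * gr q p =
        ∑ p : Tor d M × Fin d, gr ψ p * gr q p -
        ∑ p : Tor d M × Fin d, (ω p.1 * ω (p.1 + ev p.2)) * gr ψ p * gr q p := by
      rw [← Finset.sum_sub_distrib]
      refine Finset.sum_congr rfl fun p _ => ?_
      ring
    have s6 : h * ∑ x, (1 - ω x) * ψ x * q x = h * ∑ x, ψ x * q x -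
        ∑ x, (h * ω x) * ψ x * q x := by
      rw [Finset.mul_sum, Finset.mul_sum, ← Finset.sum_sub_distrib]
      refine Finset.sum_congr rfl fun p _ => ?_
      ring
    have s7 : ∑ x, (ω x * ω' x - 1) * ψ x * W x = ∑ x, (ω x * ω' x) * ψ x * W x -
        ∑ x, ψ x * W x := by
      rw [← Finset.sum_sub_distrib]
      refine Finset.sum_congr rfl fun p _ => ?_
      ring
    rw [s1, s2, s3, s5, s6, s7, s4]
    ring
  -- the four terms
  have b1 : |∑ y, (ω y - 1) * φ y * q y| ≤ ε * (nn φ * nn q) := csw _ _ _ hε0.le hω1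
  have b2 : |∑ p : Tor d M × Fin d, (1 - ω p.1 * ω (p.1 + ev p.2)) * gr ψ p * gr q p| ≤
      (3 * ε) * (nn (gr ψ) * nn (gr q)) := by
    refine csw _ _ _ (by linarith only [hε0]) fun p => ?_
    have h1 := hω1 p.1
    have h2 := hω1 (p.1 + ev p.2)
    rw [abs_sub_comm]
    have e : ω p.1 * ω (p.1 + ev p.2) - 1 = (ω p.1 - 1) * (ω (p.1 + ev p.2) - 1) + (ω p.1 - 1) +
      (ω (p.1 + ev p.2) - 1) := by ring
    rw [e]
    have h3 : |(ω p.1 - 1) * (ω (p.1 + ev p.2) - 1)| ≤ ε * ε := by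
      rw [abs_mul]
      exact mul_le_mul h1 h2 (abs_nonneg _) hε0.le
    have h4 := abs_add_le ((ω p.1 - 1) * (ω (p.1 + ev p.2) - 1) + (ω p.1 - 1))
      (ω (p.1 + ev p.2) - 1)
    have h5 := abs_add_le ((ω p.1 - 1) * (ω (p.1 + ev p.2) - 1)) (ω p.1 - 1)
    nlinarith only [hε0, hε, h1, h2, h3, h4, h5]
  have b3 : |∑ x, (1 - ω x) * ψ x * q x| ≤ ε * (nn ψ * nn q) :=
    csw _ _ _ hε0.le fun x => by rw [abs_sub_comm]; exact hω1 x
  have b4 : |∑ x, (ω x * ω' x - 1) * ψ x * W x| ≤ (3 * ε) * (nn ψ * nn W) :=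
    csw _ _ _ (by linarith only [hε0]) hprod
  have hEE : h * (nn (gr ψ) * nn (gr q)) ≤ 1.21 * (nn φ * nn W) := by
    have t1 : (h * (nn (gr ψ) * nn (gr q))) ^ 2 ≤ (1.21 * (nn φ * nn W)) ^ 2 := by
      calc (h * (nn (gr ψ) * nn (gr q))) ^ 2 = (h * nn (gr ψ) ^ 2) * (h * nn (gr q) ^ 2) := by ring
        _ ≤ (1.21 * nn φ ^ 2) * (1.21 * nn W ^ 2) :=
          mul_le_mul p2 q2 (by positivity) (by positivity)
        _ = _ := by ring
    exact le_of_sq_le_sq t1 (by positivity)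
  have hq0 := nn_nonneg q
  have hψ0 := nn_nonneg ψ
  rw [hdec]
  have tri : |∑ y, (ω y - 1) * φ y * q y +
      (∑ p : Tor d M × Fin d, (1 - ω p.1 * ω (p.1 + ev p.2)) * gr ψ p * gr q p +
        h * ∑ x, (1 - ω x) * ψ x * q x) + ∑ x, (ω x * ω' x - 1) * ψ x * W x| ≤
      ε * (nn φ * nn q) + ((3 * ε) * (nn (gr ψ) * nn (gr q)) + h * (ε * (nn ψ * nn q))) +
        (3 * ε) * (nn ψ * nn W) := by
    refine (abs_add_le _ _).trans (add_le_add ((abs_add_le _ _).trans (add_le_add b1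
      ((abs_add_le _ _).trans (add_le_add b2 ?_)))) b4)
    rw [abs_mul, abs_of_pos hh]
    exact mul_le_mul_of_nonneg_left b3 hh.le
  have m1 := mul_le_mul_of_nonneg_left tri hh.le
  have r1 : nn φ * (h * nn q) ≤ nn φ * (1.1 * nn W) := mul_le_mul_of_nonneg_left q1 hφ0
  have r2 : (h * nn ψ) * (h * nn q) ≤ (1.1 * nn φ) * (1.1 * nn W) :=
    mul_le_mul p1 q1 (by positivity) (by positivity)
  have r3 : (h * nn ψ) * nn W ≤ (1.1 * nn φ) * nn W := mul_le_mul_of_nonneg_right p1 hW0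
  have hPW : 0 ≤ nn φ * nn W := by positivity
  calc _ ≤ h * (ε * (nn φ * nn q) + ((3 * ε) * (nn (gr ψ) * nn (gr q)) +
          h * (ε * (nn ψ * nn q))) + (3 * ε) * (nn ψ * nn W)) := m1
    _ = ε * ((nn φ * (h * nn q)) + 3 * (h * (nn (gr ψ) * nn (gr q))) +
          (h * nn ψ) * (h * nn q) + 3 * ((h * nn ψ) * nn W)) := by ring
    _ ≤ ε * (10 * (nn φ * nn W)) := by
        refine mul_le_mul_of_nonneg_left ?_ hε0.le
        nlinarith
    _ = _ := by ring

/-- **LFL**. -/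
theorem lfl : LflStmt := by
  intro d _
  refine ⟨10, by norm_num, ?_⟩
  intro M J _ z μ ε V V' x hμ hε0 hε hV hV'
  have hA := hV.2.1
  have hA' := hV'.2.1
  have hh : 0 < 1 / μ := by positivity
  set ω := om z μ V with hωd
  set ω' := om z μ V' with hωd'
  have hω : ∀ y, (AM z V *ᵥ ω) y = 1 / μ := fun y => AM_om hA y
  have hω' : ∀ y, (AM z V' *ᵥ ω') y = 1 / μ := fun y => AM_om hA' y
  have hn : ∀ y, |ω y - 1| ≤ ε := fun y => om_near hμ hV y
  have hn' : ∀ y, |ω' y - 1| ≤ ε := fun y => om_near hμ hV' y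
  have hpos : ∀ y, ω y ≠ 0 := by
    intro y
    have := (abs_le.1 (hn y)).1
    have h1 : 0 < ω y := by linarith only [hε0, hε, this]
    exact h1.ne'
  have key := core (z := z) (h := 1 / μ) (ε := ε) (V := V) (ω := ω) (ω' := ω')
    (W := fun u => V u - V' u) (δ := fun y => ω y - ω' y) (q := fun y => (ω y - ω' y) / ω y)
    (fun y => dk J (x - y)) hω hh hε0 hε hn hn'
    (fun y => by rw [mul_div_cancel₀ _ (hpos y)]) (fun y => by
      have e : (AM z V *ᵥ fun y => ω y - ω' y) y = (AM z V *ᵥ ω) y - (AM z V *ᵥ ω') y := by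
        rw [show (fun y => ω y - ω' y) = ω - ω' from rfl, Matrix.mulVec_sub, Pi.sub_apply]
      have e2 : (AM z V *ᵥ ω') y = (AM z V' *ᵥ ω') y - (V y - V' y) * ω' y := by
        rw [AM_mulVec, AM_mulVec]; ring
      rw [e, e2, hω y, hω' y]
      ring)
  have e1 : lpf J (fun y => ω y - ω' y - gv (1 / μ) (fun u => V u - V' u) y) x =
      ∑ y, dk J (x - y) * ((ω y - ω' y) - gv (1 / μ) (fun u => V u - V' u) y) := rfl
  rw [e1]
  have e2 : nn (fun y => dk J (x - y)) = Real.sqrt ((low d M J).card / (M : ℝ) ^ d) := by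
    unfold nn
    rw [dk_sq]
  have e3 : nn (fun u => V u - V' u) = Real.sqrt (∑ u, (V u - V' u) ^ 2) := rfl
  rw [← e2, ← e3]
  have h1 : |∑ y, dk J (x - y) * ((ω y - ω' y) - gv (1 / μ) (fun u => V u - V' u) y)| =
      μ * (1 / μ * |∑ y, dk J (x - y) * ((ω y - ω' y) - gv (1 / μ) (fun u => V u - V' u) y)|) := by
    field_simp
  rw [h1]
  calc _ ≤ μ * (10 * ε * (nn (fun y => dk J (x - y)) * nn fun u => V u - V' u)) :=
        mul_le_mul_of_nonneg_left key hμ.le
    _ = _ := by ring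

end Pool.Agent.LE.IR.H62
end
end -- Pool.Agent.Helper62_LE.LFL
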