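import Pool.Agent.Helper12_MEB.B075
import Pool.Agent.Helper12_MEB.B116

/-!
# Merged copies (generated) of the modules

* `Pool.Agent.Helper32_LIR.TseA`
* `Pool.Agent.Helper32_LIR.TseB`
* `Pool.Agent.Helper76_LSP.TSA`
* `Pool.Agent.Helper32_LIR.TseC`
* `Pool.Agent.Helper32_LIR.TSE`
-/

set_option autoImplicit false

section -- Pool.Agent.Helper32_LIR.TseA

/-!
# Squad LIR, row TSE, part 1: the multiplier and Riemann sums
-/

set_option autoImplicit false
set_option linter.unusedSectionVars false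

open MeasureTheory Set Real Function

open scoped ENNReal ComplexConjugate

noncomputable section

namespace Pool.Agent.LE.IR.H32

open Pool.Agent.Anderson Pool.Agent.LE.CL Pool.Agent.LE.CL.H76

/-! ### the continuous version of `wh` -/

/-- `sin x / x` -/
def sc (x : ℝ) : ℝ := ∫ s in (0 : ℝ)..1, Real.cos (x * s)

theorem sc_eq {x : ℝ} (hx : x ≠ 0) : sc x = Real.sin x / x := by
  unfold sc
  rw [intervalIntegral.integral_comp_mul_left (fun y => Real.cos y) hx, integral_cos]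
  simp [div_eq_inv_mul]

theorem sc_zero : sc 0 = 1 := by
  unfold sc
  simp

theorem abs_sc_le (x : ℝ) : |sc x| ≤ 1 := by
  have h := intervalIntegral.norm_integral_le_of_norm_le_const (a := (0 : ℝ)) (b := 1) (C := 1)
    (f := fun s => Real.cos (x * s)) (fun s _ => by
      rw [Real.norm_eq_abs]
      exact Real.abs_cos_le_one _)
  unfold sc
  rw [Real.norm_eq_abs] at h
  simpa using h

theorem abs_cos_sub_cos (a b : ℝ) : |Real.cos a - Real.cos b| ≤ |a - b| := by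
  rw [Real.cos_sub_cos, abs_mul, abs_mul]
  have h1 : |Real.sin ((a + b) / 2)| ≤ 1 := Real.abs_sin_le_one _
  have h2 : |Real.sin ((a - b) / 2)| ≤ |(a - b) / 2| := Real.abs_sin_le_abs
  have h3 : |(a - b) / 2| = |a - b| / 2 := by
    rw [abs_div, abs_of_pos (by norm_num : (0 : ℝ) < 2)]
  have h5 : |(-2 : ℝ)| = 2 := by norm_num
  rw [h5]
  rw [h3] at h2
  have h6 : |Real.sin ((a + b) / 2)| * |Real.sin ((a - b) / 2)| ≤ 1 * (|a - b| / 2) :=
    mul_le_mul h1 h2 (abs_nonneg _) (by norm_num)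
  nlinarith only [h6]

theorem sc_lip (x y : ℝ) : |sc x - sc y| ≤ |x - y| := by
  have hi : ∀ z : ℝ, IntervalIntegrable (fun s => Real.cos (z * s)) volume 0 1 := by
    intro z
    exact (Real.continuous_cos.comp (continuous_const.mul continuous_id)).intervalIntegrable 0 1
  unfold sc
  rw [← intervalIntegral.integral_sub (hi x) (hi y)]
  have h := intervalIntegral.norm_integral_le_of_norm_le_const (a := (0 : ℝ)) (b := 1)
    (C := |x - y|) (f := fun s => Real.cos (x * s) - Real.cos (y * s)) (fun s hs => by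
      rw [Real.norm_eq_abs]
      refine (abs_cos_sub_cos _ _).trans ?_
      rw [Set.uIoc_of_le zero_le_one] at hs
      rw [← sub_mul, abs_mul, abs_of_pos hs.1]
      have := abs_nonneg (x - y)
      nlinarith only [hs.2, this])
  rw [Real.norm_eq_abs] at h
  simpa using h

/-- `wh`, continuous at `0` -/
def w2 (T x : ℝ) : ℝ := 3 * T * (sc (3 / 2 * (T * x)) * sc (1 / 2 * (T * x)))

theorem w2_eq {T : ℝ} (hT : 0 < T) {x : ℝ} (hx : x ≠ 0) : w2 T x = wh T x := by
  unfold w2 wh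
  have h1 : T * x ≠ 0 := mul_ne_zero hT.ne' hx
  rw [sc_eq (by positivity), sc_eq (by positivity)]
  have h2 : Real.cos (T * x) - Real.cos (2 * T * x) =
      2 * Real.sin (3 / 2 * (T * x)) * Real.sin (1 / 2 * (T * x)) := by
    rw [Real.cos_sub_cos]
    rw [show (T * x + 2 * T * x) / 2 = 3 / 2 * (T * x) by ring,
      show (T * x - 2 * T * x) / 2 = -(1 / 2 * (T * x)) by ring, Real.sin_neg]
    ring
  rw [h2]
  field_simp

theorem w2_zero {T : ℝ} : w2 T 0 = 3 * T := by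
  unfold w2
  rw [mul_zero, mul_zero, mul_zero, sc_zero]
  ring

theorem abs_w2_le {T : ℝ} (hT : 0 < T) (x : ℝ) : |w2 T x| ≤ 3 * T := by
  unfold w2
  rw [abs_mul, abs_mul (sc _), abs_of_pos (by positivity : 0 < 3 * T)]
  have h1 := mul_le_mul (abs_sc_le (3 / 2 * (T * x))) (abs_sc_le (1 / 2 * (T * x)))
    (abs_nonneg _) (by norm_num)
  calc 3 * T * _ ≤ 3 * T * (1 * 1) := mul_le_mul_of_nonneg_left h1 (by positivity)
    _ = 3 * T := by ring

theorem w2_lip {T : ℝ} (hT : 0 < T) (x y : ℝ) : |w2 T x - w2 T y| ≤ 6 * T ^ 2 * |x - y| := by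
  unfold w2
  rw [← mul_sub, abs_mul, abs_of_pos (by positivity : 0 < 3 * T)]
  obtain ⟨a, ha⟩ : ∃ a, a = sc (3 / 2 * (T * x)) := ⟨_, rfl⟩
  obtain ⟨b, hb⟩ : ∃ b, b = sc (1 / 2 * (T * x)) := ⟨_, rfl⟩
  obtain ⟨a', ha'⟩ : ∃ a, a = sc (3 / 2 * (T * y)) := ⟨_, rfl⟩
  obtain ⟨b', hb'⟩ : ∃ b, b = sc (1 / 2 * (T * y)) := ⟨_, rfl⟩
  have h1 : |a - a'| ≤ 3 / 2 * T * |x - y| := by
    rw [ha, ha']
    refine (sc_lip _ _).trans (le_of_eq ?_)
    rw [show 3 / 2 * (T * x) - 3 / 2 * (T * y) = 3 / 2 * T * (x - y) by ring, abs_mul,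
      abs_of_pos (by positivity : 0 < 3 / 2 * T)]
  have h2 : |b - b'| ≤ 1 / 2 * T * |x - y| := by
    rw [hb, hb']
    refine (sc_lip _ _).trans (le_of_eq ?_)
    rw [show 1 / 2 * (T * x) - 1 / 2 * (T * y) = 1 / 2 * T * (x - y) by ring, abs_mul,
      abs_of_pos (by positivity : 0 < 1 / 2 * T)]
  have h3 : |a| ≤ 1 := by
    rw [ha]
    exact abs_sc_le _
  have h4 : |b'| ≤ 1 := by
    rw [hb']
    exact abs_sc_le _
  rw [← ha, ← hb, ← ha', ← hb']
  have h5 : |a * b - a' * b'| ≤ |a| * |b - b'| + |a - a'| * |b'| := by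
    rw [← abs_mul, ← abs_mul]
    refine le_trans (le_of_eq ?_) (abs_add_le _ _)
    congr 1
    ring
  have h6 : |a| * |b - b'| ≤ 1 * (1 / 2 * T * |x - y|) :=
    mul_le_mul h3 h2 (abs_nonneg _) (by norm_num)
  have h7 : |a - a'| * |b'| ≤ (3 / 2 * T * |x - y|) * 1 :=
    mul_le_mul h1 h4 (abs_nonneg _) (mul_nonneg (by positivity) (abs_nonneg _))
  calc 3 * T * |a * b - a' * b'| ≤ 3 * T * (2 * T * |x - y|) := by
        apply mul_le_mul_of_nonneg_left _ (by positivity)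
        linarith only [h5, h6, h7]
    _ = 6 * T ^ 2 * |x - y| := by ring

theorem wh_zero (T : ℝ) : wh T 0 = 0 := by
  unfold wh
  simp

theorem wh_le_w2 {T : ℝ} (hT : 0 < T) (x : ℝ) : wh T x ≤ w2 T x := by
  rcases eq_or_ne x 0 with rfl | hx
  · rw [wh_zero, w2_zero]
    positivity
  · rw [w2_eq hT hx]

theorem w2_mul {T : ℝ} (hT : 0 < T) (x : ℝ) : w2 T x * x = wh T x * x := by
  rcases eq_or_ne x 0 with rfl | hx
  · rw [mul_zero, mul_zero]
  · rw [w2_eq hT hx]

theorem w2_neg (T x : ℝ) : w2 T (-x) = w2 T x := by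
  have h : ∀ y, sc (-y) = sc y := by
    intro y
    unfold sc
    congr 1
    funext s
    rw [neg_mul, Real.cos_neg]
  unfold w2
  rw [show 3 / 2 * (T * -x) = -(3 / 2 * (T * x)) by ring,
    show 1 / 2 * (T * -x) = -(1 / 2 * (T * x)) by ring, h, h]

theorem w2_sq_le {T : ℝ} (hT : 0 < T) (x : ℝ) : w2 T x ^ 2 ≤ 32 * T * ker T⁻¹ x := by
  rcases eq_or_ne x 0 with rfl | hx
  · rw [w2_zero, ker_inv hT]
    have h1 : T / (T ^ 2 * 0 ^ 2 + 1) = T := by norm_num
    rw [h1]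
    nlinarith only
  · rw [w2_eq hT hx]
    exact wh_sq_le hT x

theorem w2_sq_abs_le {T : ℝ} (hT : 0 < T) (x : ℝ) : w2 T x ^ 2 * |x| ≤ 32 * ker T⁻¹ x := by
  rcases eq_or_ne x 0 with rfl | hx
  · rw [abs_zero, mul_zero, ker_inv hT]
    positivity
  · rw [w2_eq hT hx]
    exact wh_sq_abs_le hT x

theorem w2_le_ker {T : ℝ} (hT : 0 < T) (x : ℝ) : |w2 T x| ≤ 8 * ker T⁻¹ x := by
  rw [ker_inv hT, ← mul_div_assoc, le_div_iff₀ (by positivity)]
  have h0 := abs_nonneg (w2 T x)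
  rcases le_or_gt ((T * x) ^ 2) 1 with h | h
  · have h1 := abs_w2_le hT x
    have h3 : T ^ 2 * x ^ 2 + 1 ≤ 2 := by nlinarith only [h]
    calc |w2 T x| * (T ^ 2 * x ^ 2 + 1) ≤ (3 * T) * 2 :=
          mul_le_mul h1 h3 (by positivity) (by positivity)
      _ ≤ 8 * T := by nlinarith only [hT]
  · have hx : x ≠ 0 := by
      rintro rfl
      norm_num at h
    have h1 := abs_wh_le2 hT x
    rw [w2_eq hT hx] at *
    have hx2 : 0 < x ^ 2 := by positivity
    have h3 : T ^ 2 * x ^ 2 + 1 ≤ 2 * (T ^ 2 * x ^ 2) := by nlinarith only [h]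
    calc |wh T x| * (T ^ 2 * x ^ 2 + 1) ≤ (4 / (T * x ^ 2)) * (2 * (T ^ 2 * x ^ 2)) :=
          mul_le_mul h1 h3 (by positivity) (by positivity)
      _ = 8 * T := by
          field_simp
          ring

theorem w2_mul_le {T : ℝ} (hT : 0 < T) (x : ℝ) :
    |w2 T x * x| ≤ 8 / T * (Real.sqrt (x ^ 2 + T⁻¹ ^ 2))⁻¹ := by
  have hp : 0 < x ^ 2 + T⁻¹ ^ 2 := by positivity
  have hs : 0 < Real.sqrt (x ^ 2 + T⁻¹ ^ 2) := Real.sqrt_pos.2 hp
  rw [← div_eq_mul_inv, le_div_iff₀ hs]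
  rw [abs_mul]
  have h0 := abs_nonneg (w2 T x)
  have hx0 := abs_nonneg x
  have hxx : |x| ^ 2 = x ^ 2 := sq_abs x
  rcases le_or_gt (T * |x|) 1 with h | h
  · have h1 := abs_w2_le hT x
    have h3 : |x| ≤ T⁻¹ := by
      rw [← one_div, le_div_iff₀ hT, mul_comm]
      exact h
    have h4 : Real.sqrt (x ^ 2 + T⁻¹ ^ 2) ≤ 2 * T⁻¹ := by
      apply Real.sqrt_le_iff.2
      constructor
      · positivity
      · have h5 : |x| ^ 2 ≤ T⁻¹ ^ 2 := pow_le_pow_left₀ hx0 h3 2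
        rw [hxx] at h5
        have h6 : 0 < T⁻¹ ^ 2 := by positivity
        nlinarith only [hp, h5]
    have h7 : |w2 T x| * |x| ≤ 3 := by
      calc |w2 T x| * |x| ≤ 3 * T * |x| := mul_le_mul_of_nonneg_right h1 hx0
        _ = 3 * (T * |x|) := by ring
        _ ≤ 3 := by linarith only [h]
    calc |w2 T x| * |x| * Real.sqrt (x ^ 2 + T⁻¹ ^ 2) ≤ 3 * (2 * T⁻¹) :=
          mul_le_mul h7 h4 hs.le (by norm_num)
      _ ≤ 8 / T := by
          rw [div_eq_mul_inv]
          have : 0 < T⁻¹ := inv_pos.2 hT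
          linarith only [this]
  · have hx : x ≠ 0 := by
      rintro rfl
      norm_num at h
    have hx' : 0 < |x| := abs_pos.2 hx
    have h1 := abs_wh_le2 hT x
    rw [w2_eq hT hx] at *
    have h3 : T⁻¹ ≤ |x| := by
      rw [← one_div, div_le_iff₀ hT, mul_comm]
      exact h.le
    have h4 : Real.sqrt (x ^ 2 + T⁻¹ ^ 2) ≤ 2 * |x| := by
      apply Real.sqrt_le_iff.2
      constructor
      · positivity
      · have h5 : T⁻¹ ^ 2 ≤ |x| ^ 2 := pow_le_pow_left₀ (by positivity) h3 2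
        have h6 : (2 * |x|) ^ 2 = 4 * x ^ 2 := by rw [mul_pow, hxx]; ring
        rw [h6]
        rw [hxx] at h5
        nlinarith only [sq_nonneg x, hp, h5]
    calc |wh T x| * |x| * Real.sqrt (x ^ 2 + T⁻¹ ^ 2) ≤ 4 / (T * x ^ 2) * |x| * (2 * |x|) :=
          mul_le_mul (mul_le_mul_of_nonneg_right h1 hx0) h4 hs.le (by positivity)
      _ = 8 / T := by
          rw [← hxx]
          field_simp
          ring

/-! ### Riemann sums -/

variable {d M : ℕ} [NeZero M]

/-- the angles of a momentum -/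
def an (p : Fin d → ZMod M) (j : Fin d) : ℝ := 2 * π * ((p j).val : ℝ) / M

/-- the cell of a momentum -/
def cell (p : Fin d → ZMod M) : Set (Fin d → ℝ) :=
  Set.pi Set.univ fun j => Ico (2 * π * ((p j).val : ℝ) / M) (2 * π * (((p j).val : ℝ) + 1) / M)

theorem hMpos : (0 : ℝ) < M := by
  have := Nat.pos_of_ne_zero (NeZero.ne M)
  exact_mod_cast this

theorem vol_cell (p : Fin d → ZMod M) :
    (volume : Measure (Fin d → ℝ)).real (cell p) = (2 * π / M) ^ d := by
  have hM : (0 : ℝ) < M := hMpos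
  have hpi := Real.pi_pos
  have h1 : ∀ j, 2 * π * (((p j).val : ℝ) + 1) / M - 2 * π * ((p j).val : ℝ) / M = 2 * π / M := by
    intro j
    field_simp
    ring
  unfold cell
  rw [measureReal_def, Real.volume_pi_Ico_toReal]
  · simp only [h1]
    rw [Finset.prod_const, Finset.card_univ, Fintype.card_fin]
  · intro j
    show 2 * π * ((p j).val : ℝ) / M ≤ 2 * π * (((p j).val : ℝ) + 1) / M
    have := h1 j
    have h2 : 0 < 2 * π / M := by positivity
    linarith only [this, h2]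

theorem measurable_cell (p : Fin d → ZMod M) : MeasurableSet (cell p) :=
  MeasurableSet.univ_pi fun _ => measurableSet_Ico

theorem cell_disjoint : Pairwise (Function.onFun Disjoint (cell : (Fin d → ZMod M) → Set (Fin d → ℝ))) := by
  intro p q hpq
  have hM : (0 : ℝ) < M := hMpos
  have hpi := Real.pi_pos
  show Disjoint (cell p) (cell q)
  rw [Set.disjoint_left]
  intro x hx hy
  apply hpq
  funext j
  have h1 := hx j (Set.mem_univ j)
  have h2 := hy j (Set.mem_univ j)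
  have h3 : 2 * π * ((p j).val : ℝ) / M < 2 * π * (((q j).val : ℝ) + 1) / M :=
    lt_of_le_of_lt h1.1 h2.2
  have h4 : 2 * π * ((q j).val : ℝ) / M < 2 * π * (((p j).val : ℝ) + 1) / M :=
    lt_of_le_of_lt h2.1 h1.2
  rw [div_lt_div_iff_of_pos_right hM, mul_lt_mul_iff_right₀ (by positivity)] at h3 h4
  have h5 : (p j).val < (q j).val + 1 := by exact_mod_cast h3
  have h6 : (q j).val < (p j).val + 1 := by exact_mod_cast h4
  exact ZMod.val_injective M (by omega)

theorem mem_cell_dist (p : Fin d → ZMod M) {x : Fin d → ℝ} (hx : x ∈ cell p) :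
    ‖x - an p‖ ≤ 2 * π / M := by
  have hM : (0 : ℝ) < M := hMpos
  have hpi := Real.pi_pos
  rw [pi_norm_le_iff_of_nonneg (by positivity)]
  intro j
  have h1 := hx j (Set.mem_univ j)
  rw [Pi.sub_apply, Real.norm_eq_abs, abs_le]
  unfold an
  have h2 : 2 * π * (((p j).val : ℝ) + 1) / M = 2 * π * ((p j).val : ℝ) / M + 2 * π / M := by
    field_simp
  have h3 := h1.1
  have h4 := h1.2
  rw [h2] at h4
  have h5 : 0 < 2 * π / M := by positivity
  constructor <;> linarith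

theorem mem_iUnion_cell {x : Fin d → ℝ} (hx : ∀ j, 0 ≤ x j ∧ x j < 2 * π) :
    ∃ p : Fin d → ZMod M, x ∈ cell p := by
  have hM : (0 : ℝ) < M := hMpos
  have hpi := Real.pi_pos
  refine ⟨fun j => ((⌊x j * M / (2 * π)⌋₊ : ℕ) : ZMod M), ?_⟩
  intro j _
  obtain ⟨h1, h2⟩ := hx j
  have h3 : 0 ≤ x j * M / (2 * π) := by positivity
  have h4 : x j * M / (2 * π) < M := by
    rw [div_lt_iff₀ (by positivity), mul_comm]
    exact mul_lt_mul_of_pos_left h2 hM
  have h5 : ⌊x j * M / (2 * π)⌋₊ < M := by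
    rw [Nat.floor_lt h3]
    exact h4
  have h6 : (((⌊x j * M / (2 * π)⌋₊ : ℕ) : ZMod M)).val = ⌊x j * M / (2 * π)⌋₊ := by
    rw [ZMod.val_natCast, Nat.mod_eq_of_lt h5]
  show x j ∈ Ico _ _
  rw [h6]
  have h7 := Nat.floor_le h3
  have h8 := Nat.lt_floor_add_one (x j * M / (2 * π))
  constructor
  · rw [le_div_iff₀ (by positivity)] at h7
    rw [div_le_iff₀ hM]
    linarith only [h7]
  · rw [div_lt_iff₀ (by positivity)] at h8
    rw [lt_div_iff₀ hM]
    linarith only [h8]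

/-- Riemann sums of a Lipschitz function -/
theorem riemann {G : (Fin d → ℝ) → ℂ} {K : ℝ} (hK0 : 0 ≤ K)
    (hK : ∀ x y, ‖G x - G y‖ ≤ K * ‖x - y‖)
    (h0 : ∀ x : Fin d → ℝ, (∃ j, x j < 0 ∨ 2 * π ≤ x j) → G x = 0) :
    ‖(∑ p : Fin d → ZMod M, G (an p)) / (M : ℂ) ^ d - ((2 * π) ^ d)⁻¹ • ∫ x, G x‖ ≤
      K * (2 * π / M) := by
  have hM : (0 : ℝ) < M := hMpos
  have hpi := Real.pi_pos
  have hcont : Continuous G := by
    have h1 : LipschitzWith ⟨K, hK0⟩ G := by
      apply LipschitzWith.of_dist_le_mul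
      intro x y
      rw [dist_eq_norm, dist_eq_norm]
      exact hK x y
    exact h1.continuous
  have hint : ∀ p : Fin d → ZMod M, IntegrableOn G (cell p) := by
    intro p
    have h1 : cell p ⊆ Set.Icc (fun j => 2 * π * ((p j).val : ℝ) / M)
        (fun j => 2 * π * (((p j).val : ℝ) + 1) / M) := by
      intro x hx
      exact ⟨fun j => (hx j (Set.mem_univ j)).1, fun j => (hx j (Set.mem_univ j)).2.le⟩
    exact (hcont.continuousOn.integrableOn_compact isCompact_Icc).mono_set h1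
  have hU : ∫ x, G x = ∑ p : Fin d → ZMod M, ∫ x in cell p, G x := by
    rw [← integral_iUnion_fintype (fun p => measurable_cell p) cell_disjoint hint]
    symm
    apply setIntegral_eq_integral_of_forall_compl_eq_zero
    intro x hx
    apply h0
    by_contra hc
    push Not at hc
    exact hx (Set.mem_iUnion.2 (mem_iUnion_cell hc))
  have hcell : ∀ p : Fin d → ZMod M,
      ‖((2 * π / M) ^ d : ℝ) • G (an p) - ∫ x in cell p, G x‖ ≤
        K * (2 * π / M) * (2 * π / M) ^ d := by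
    intro p
    have h1 : ∫ x in cell p, (G (an p) : ℂ) = ((2 * π / M) ^ d : ℝ) • G (an p) := by
      rw [setIntegral_const, vol_cell]
    have h2 : volume (cell p) < ⊤ := by
      have h3 : cell p ⊆ Set.Icc (fun j => 2 * π * ((p j).val : ℝ) / M)
        (fun j => 2 * π * (((p j).val : ℝ) + 1) / M) := by
        intro x hx
        exact ⟨fun j => (hx j (Set.mem_univ j)).1, fun j => (hx j (Set.mem_univ j)).2.le⟩
      exact lt_of_le_of_lt (measure_mono h3) (isCompact_Icc.measure_lt_top)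
    have hci : IntegrableOn (fun _ : Fin d → ℝ => G (an p)) (cell p) := by
      exact integrableOn_const (hs := h2.ne)
    rw [← h1, ← integral_sub hci (hint p)]
    have h4 := norm_setIntegral_le_of_norm_le_const (f := fun x => G (an p) - G x) (s := cell p)
      (μ := volume) (C := K * (2 * π / M)) h2 (fun x hx => by
        refine (hK _ _).trans ?_
        apply mul_le_mul_of_nonneg_left _ hK0
        rw [norm_sub_rev]
        exact mem_cell_dist p hx)
    rw [vol_cell] at h4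
    exact h4
  have hexp : (∑ p : Fin d → ZMod M, G (an p)) / (M : ℂ) ^ d -
      ((2 * π) ^ d)⁻¹ • ∫ x, G x = ((2 * π) ^ d)⁻¹ •
        ∑ p : Fin d → ZMod M, (((2 * π / M) ^ d : ℝ) • G (an p) - ∫ x in cell p, G x) := by
    rw [hU, Finset.sum_sub_distrib, smul_sub, ← Finset.smul_sum, smul_smul]
    congr 1
    have h1 : ((2 * π) ^ d)⁻¹ * (2 * π / M) ^ d = ((M : ℝ) ^ d)⁻¹ := by
      rw [div_pow]
      field_simp
    rw [h1, div_eq_inv_mul, Complex.real_smul]
    push_cast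
    rfl
  rw [hexp, norm_smul, norm_inv, norm_pow, Real.norm_eq_abs,
    abs_of_pos (by positivity : 0 < 2 * π)]
  have hsum : ‖∑ p : Fin d → ZMod M, (((2 * π / M) ^ d : ℝ) • G (an p) -
      ∫ x in cell p, G x)‖ ≤ (M : ℝ) ^ d * (K * (2 * π / M) * (2 * π / M) ^ d) := by
    refine (norm_sum_le _ _).trans ?_
    refine (Finset.sum_le_sum fun p _ => hcell p).trans ?_
    rw [Finset.sum_const, Finset.card_univ, Fintype.card_fun, ZMod.card, Fintype.card_fin,
      nsmul_eq_mul]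
    push_cast
    exact le_refl _
  calc ((2 * π) ^ d)⁻¹ * _ ≤ ((2 * π) ^ d)⁻¹ * ((M : ℝ) ^ d * (K * (2 * π / M) *
        (2 * π / M) ^ d)) := mul_le_mul_of_nonneg_left hsum (by positivity)
    _ = K * (2 * π / M) := by
        rw [div_pow]
        field_simp

end Pool.Agent.LE.IR.H32
end
end -- Pool.Agent.Helper32_LIR.TseA

section -- Pool.Agent.Helper32_LIR.TseB

/-!
# Squad LIR, row TSE, part 2: the Lipschitz constants, the characters
-/

set_option autoImplicit false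
set_option linter.unusedSectionVars false

open MeasureTheory Set Real Function

open scoped ENNReal ComplexConjugate

noncomputable section

namespace Pool.Agent.LE.IR.H32

open Pool.Agent.Anderson Pool.Agent.LE.CL Pool.Agent.LE.CL.H76 Pool.Agent.BED Pool.Agent.LE.IR

/-! ### the normalized cut-off -/

/-- the normalized cut-off -/
def bb (th0 r x : ℝ) : ℝ := max (1 - ((x - th0) / r) ^ 2) 0

theorem bb_nonneg (th0 r x : ℝ) : 0 ≤ bb th0 r x := le_max_right _ _

theorem bb_le (th0 r x : ℝ) : bb th0 r x ≤ 1 := by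
  unfold bb
  apply max_le
  · have := sq_nonneg ((x - th0) / r)
    linarith only [this]
  · norm_num

theorem aa_eq_bb {th0 r : ℝ} (hr : 0 < r) (x : ℝ) : aa th0 r x = r ^ 2 * bb th0 r x := by
  unfold aa bb
  rw [mul_max_of_nonneg _ _ (by positivity : 0 ≤ r ^ 2), mul_zero]
  congr 1
  field_simp

theorem max_lip (u v : ℝ) : |max (1 - u ^ 2) 0 - max (1 - v ^ 2) 0| ≤ 2 * |u - v| := by
  have h0 := abs_nonneg (u - v)
  rcases le_or_gt (u ^ 2) 1 with hu | hu <;> rcases le_or_gt (v ^ 2) 1 with hv | hv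
  · rw [max_eq_left (by linarith), max_eq_left (by linarith)]
    have h1 : 1 - u ^ 2 - (1 - v ^ 2) = -((u + v) * (u - v)) := by ring
    rw [h1, abs_neg, abs_mul]
    apply mul_le_mul_of_nonneg_right _ h0
    have h2 : |u| ≤ 1 := abs_le_one_iff_mul_self_le_one.2 (by nlinarith only [hu])
    have h3 : |v| ≤ 1 := abs_le_one_iff_mul_self_le_one.2 (by nlinarith only [hv])
    have := abs_add_le u v
    linarith only [h2, h3, this]
  · rw [max_eq_left (by linarith), max_eq_right (by linarith), sub_zero,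
      abs_of_nonneg (by linarith)]
    have h2 : |u| ≤ 1 := abs_le_one_iff_mul_self_le_one.2 (by nlinarith only [hu])
    have h3 : 1 < |v| := by
      rw [← sq_abs] at hv
      by_contra hc
      push Not at hc
      have := pow_le_one₀ (n := 2) (abs_nonneg v) hc
      linarith
    have h4 : |v| - |u| ≤ |u - v| := by
      have := abs_sub_abs_le_abs_sub v u
      rw [abs_sub_comm] at this
      exact this
    have h5 : 1 - u ^ 2 = (1 - |u|) * (1 + |u|) := by
      rw [← sq_abs u]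
      ring
    rw [h5]
    have h6 := abs_nonneg u
    nlinarith only [h2, h3, h4]
  · rw [max_eq_right (by linarith), max_eq_left (by linarith), zero_sub, abs_neg,
      abs_of_nonneg (by linarith)]
    have h2 : |v| ≤ 1 := abs_le_one_iff_mul_self_le_one.2 (by nlinarith only [hv])
    have h3 : 1 < |u| := by
      rw [← sq_abs] at hu
      by_contra hc
      push Not at hc
      have := pow_le_one₀ (n := 2) (abs_nonneg u) hc
      linarith
    have h4 : |u| - |v| ≤ |u - v| := abs_sub_abs_le_abs_sub u v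
    have h5 : 1 - v ^ 2 = (1 - |v|) * (1 + |v|) := by
      rw [← sq_abs v]
      ring
    rw [h5]
    have h6 := abs_nonneg v
    nlinarith only [h2, h3, h4]
  · rw [max_eq_right (by linarith), max_eq_right (by linarith), sub_zero, abs_zero]
    positivity

theorem bb_lip {th0 r : ℝ} (hr : 0 < r) (x y : ℝ) :
    |bb th0 r x - bb th0 r y| ≤ 2 / r * |x - y| := by
  unfold bb
  refine (max_lip _ _).trans (le_of_eq ?_)
  have h1 : (x - th0) / r - (y - th0) / r = (x - y) / r := by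
    field_simp
    ring
  rw [h1, abs_div, abs_of_pos hr]
  ring

theorem prod_lip {d : ℕ} (f g : Fin d → ℝ) (hf : ∀ j, |f j| ≤ 1) (hg : ∀ j, |g j| ≤ 1)
    (s : Finset (Fin d)) : |∏ j ∈ s, f j - ∏ j ∈ s, g j| ≤ ∑ j ∈ s, |f j - g j| := by
  classical
  induction s using Finset.induction_on with
  | empty => simp
  | insert a s ha ih =>
    rw [Finset.prod_insert ha, Finset.prod_insert ha, Finset.sum_insert ha]
    have h1 : f a * ∏ j ∈ s, f j - g a * ∏ j ∈ s, g j =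
        (f a - g a) * ∏ j ∈ s, f j + g a * (∏ j ∈ s, f j - ∏ j ∈ s, g j) := by ring
    rw [h1]
    refine (abs_add_le _ _).trans (add_le_add ?_ ?_)
    · rw [abs_mul, Finset.abs_prod]
      have h2 : ∏ j ∈ s, |f j| ≤ 1 := Finset.prod_le_one (fun j _ => abs_nonneg _) fun j _ => hf j
      calc |f a - g a| * ∏ j ∈ s, |f j| ≤ |f a - g a| * 1 :=
            mul_le_mul_of_nonneg_left h2 (abs_nonneg _)
        _ = |f a - g a| := mul_one _
    · rw [abs_mul]
      calc |g a| * |∏ j ∈ s, f j - ∏ j ∈ s, g j| ≤ 1 * ∑ j ∈ s, |f j - g j| :=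
            mul_le_mul (hg a) ih (abs_nonneg _) (by norm_num)
        _ = _ := one_mul _

variable {d : ℕ}

/-- the normalized product of the cut-offs -/
def cn (th0 r : ℝ) (x : Fin d → ℝ) : ℝ := ∏ j, bb th0 r (x j)

theorem cn_nonneg (th0 r : ℝ) (x : Fin d → ℝ) : 0 ≤ cn th0 r x :=
  Finset.prod_nonneg fun _ _ => bb_nonneg _ _ _

theorem cn_le (th0 r : ℝ) (x : Fin d → ℝ) : cn th0 r x ≤ 1 :=
  Finset.prod_le_one (fun _ _ => bb_nonneg _ _ _) fun _ _ => bb_le _ _ _

theorem prod_aa {th0 r : ℝ} (hr : 0 < r) (x : Fin d → ℝ) :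
    ∏ j, aa th0 r (x j) = r ^ (2 * d) * cn th0 r x := by
  unfold cn
  rw [Finset.prod_congr rfl fun j _ => aa_eq_bb hr (x j), Finset.prod_mul_distrib,
    Finset.prod_const, Finset.card_univ, Fintype.card_fin, ← pow_mul]

theorem coord_le (x y : Fin d → ℝ) (j : Fin d) : |x j - y j| ≤ ‖x - y‖ := by
  have := norm_le_pi_norm (x - y) j
  rwa [Pi.sub_apply, Real.norm_eq_abs] at this

theorem cn_lip {th0 r : ℝ} (hr : 0 < r) (x y : Fin d → ℝ) :
    |cn th0 r x - cn th0 r y| ≤ 2 * d / r * ‖x - y‖ := by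
  unfold cn
  have h0 : ∀ z : ℝ, |bb th0 r z| ≤ 1 := by
    intro z
    rw [abs_of_nonneg (bb_nonneg _ _ _)]
    exact bb_le _ _ _
  refine (prod_lip _ _ (fun j => h0 _) (fun j => h0 _) _).trans ?_
  have h1 : ∀ j ∈ (Finset.univ : Finset (Fin d)), |bb th0 r (x j) - bb th0 r (y j)| ≤
      2 / r * ‖x - y‖ := by
    intro j _
    refine (bb_lip hr _ _).trans ?_
    exact mul_le_mul_of_nonneg_left (coord_le x y j) (by positivity)
  refine (Finset.sum_le_sum h1).trans (le_of_eq ?_)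
  rw [Finset.sum_const, Finset.card_univ, Fintype.card_fin, nsmul_eq_mul]
  ring

/-- the argument of the multiplier -/
def XX (E : ℝ) (x : Fin d → ℝ) : ℝ := ∑ j, 2 * Real.cos (x j) - E

theorem XX_lip (E : ℝ) (x y : Fin d → ℝ) : |XX E x - XX E y| ≤ 2 * d * ‖x - y‖ := by
  unfold XX
  have h1 : ∑ j, 2 * Real.cos (x j) - E - (∑ j, 2 * Real.cos (y j) - E) =
      ∑ j, (2 * Real.cos (x j) - 2 * Real.cos (y j)) := by
    rw [Finset.sum_sub_distrib]
    ring
  rw [h1]
  refine (Finset.abs_sum_le_sum_abs _ _).trans ?_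
  have h2 : ∀ j ∈ (Finset.univ : Finset (Fin d)),
      |2 * Real.cos (x j) - 2 * Real.cos (y j)| ≤ 2 * ‖x - y‖ := by
    intro j _
    rw [← mul_sub, abs_mul, abs_of_pos (by norm_num : (0 : ℝ) < 2)]
    apply mul_le_mul_of_nonneg_left _ (by norm_num)
    exact (abs_cos_sub_cos _ _).trans (coord_le x y j)
  refine (Finset.sum_le_sum h2).trans (le_of_eq ?_)
  rw [Finset.sum_const, Finset.card_univ, Fintype.card_fin, nsmul_eq_mul]
  ring

theorem XX_abs {E : ℝ} (hE : |E| ≤ 2 * d) (x : Fin d → ℝ) : |XX E x| ≤ 4 * d := by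
  unfold XX
  have h1 : |∑ j, 2 * Real.cos (x j)| ≤ 2 * d := by
    refine (Finset.abs_sum_le_sum_abs _ _).trans ?_
    have h2 : ∀ j ∈ (Finset.univ : Finset (Fin d)), |2 * Real.cos (x j)| ≤ 2 := by
      intro j _
      rw [abs_mul, abs_of_pos (by norm_num : (0 : ℝ) < 2)]
      have := Real.abs_cos_le_one (x j)
      linarith
    refine (Finset.sum_le_sum h2).trans (le_of_eq ?_)
    rw [Finset.sum_const, Finset.card_univ, Fintype.card_fin, nsmul_eq_mul]
    ring
  have h3 : |∑ j, 2 * Real.cos (x j) - E| ≤ |∑ j, 2 * Real.cos (x j)| + |E| := abs_sub _ _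
  linarith

/-- the character -/
def ph (n : Fin d → ℤ) (x : Fin d → ℝ) : ℂ := Complex.exp (Complex.I * ((∑ j, n j * x j : ℝ) : ℂ))

theorem norm_exp_I (a : ℝ) : ‖Complex.exp (Complex.I * (a : ℂ))‖ = 1 := by
  rw [mul_comm]
  exact Complex.norm_exp_ofReal_mul_I a

theorem ph_norm (n : Fin d → ℤ) (x : Fin d → ℝ) : ‖ph n x‖ = 1 := norm_exp_I _

theorem ph_lip {n : Fin d → ℤ} {R : ℝ} (hn : ∀ j, |(n j : ℝ)| ≤ R) (x y : Fin d → ℝ) :
    ‖ph n x - ph n y‖ ≤ d * R * ‖x - y‖ := by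
  unfold ph
  obtain ⟨a, ha⟩ : ∃ a : ℝ, a = ∑ j, n j * x j := ⟨_, rfl⟩
  obtain ⟨b, hb⟩ : ∃ b : ℝ, b = ∑ j, n j * y j := ⟨_, rfl⟩
  rw [← ha, ← hb]
  have h1 : Complex.exp (Complex.I * (a : ℂ)) - Complex.exp (Complex.I * (b : ℂ)) =
      Complex.exp (Complex.I * (b : ℂ)) *
        (Complex.exp (Complex.I * ((a - b : ℝ) : ℂ)) - 1) := by
    rw [mul_sub, mul_one, ← Complex.exp_add]
    congr 2
    push_cast
    ring
  rw [h1, norm_mul, norm_exp_I, one_mul]
  refine Real.norm_exp_I_mul_ofReal_sub_one_le.trans ?_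
  rw [Real.norm_eq_abs, ha, hb, ← Finset.sum_sub_distrib]
  refine (Finset.abs_sum_le_sum_abs _ _).trans ?_
  have h2 : ∀ j ∈ (Finset.univ : Finset (Fin d)),
      |(n j : ℝ) * x j - n j * y j| ≤ R * ‖x - y‖ := by
    intro j _
    rw [← mul_sub, abs_mul]
    exact mul_le_mul (hn j) (coord_le x y j) (abs_nonneg _) ((abs_nonneg _).trans (hn j))
  refine (Finset.sum_le_sum h2).trans (le_of_eq ?_)
  rw [Finset.sum_const, Finset.card_univ, Fintype.card_fin, nsmul_eq_mul]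
  ring

theorem lip_mul {f g : (Fin d → ℝ) → ℂ} {A B K L : ℝ} (hA : 0 ≤ A) (hK0 : 0 ≤ K)
    (hf : ∀ x, ‖f x‖ ≤ A) (hg : ∀ x, ‖g x‖ ≤ B) (hK : ∀ x y, ‖f x - f y‖ ≤ K * ‖x - y‖)
    (hL : ∀ x y, ‖g x - g y‖ ≤ L * ‖x - y‖) (x y : Fin d → ℝ) :
    ‖f x * g x - f y * g y‖ ≤ (A * L + K * B) * ‖x - y‖ := by
  have h1 : f x * g x - f y * g y = f x * (g x - g y) + (f x - f y) * g y := by ring
  rw [h1]
  refine (norm_add_le _ _).trans ?_
  rw [norm_mul, norm_mul, add_mul]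
  apply add_le_add
  · rw [mul_assoc]
    exact mul_le_mul (hf x) (hL x y) (norm_nonneg _) hA
  · calc ‖f x - f y‖ * ‖g y‖ ≤ K * ‖x - y‖ * B :=
          mul_le_mul (hK x y) (hg y) (norm_nonneg _) (mul_nonneg hK0 (norm_nonneg _))
      _ = K * B * ‖x - y‖ := by ring

/-- the main function -/
def G1 (th0 r E T : ℝ) (x : Fin d → ℝ) : ℂ := (cn th0 r x : ℂ) * (w2 T (XX E x) : ℂ)

/-- the kernel function -/
def G2 (th0 r E T : ℝ) (n : Fin d → ℤ) (x : Fin d → ℝ) : ℂ :=
  G1 th0 r E T x * (XX E x : ℂ) * ph n x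

theorem norm_ofReal_sub (a b : ℝ) : ‖(a : ℂ) - (b : ℂ)‖ = |a - b| := by
  rw [← Complex.ofReal_sub, Complex.norm_real, Real.norm_eq_abs]

theorem G1_norm (th0 r E : ℝ) {T : ℝ} (hT : 0 < T) (x : Fin d → ℝ) :
    ‖G1 th0 r E T x‖ ≤ 3 * T := by
  unfold G1
  rw [norm_mul, Complex.norm_real, Complex.norm_real, Real.norm_eq_abs, Real.norm_eq_abs,
    abs_of_nonneg (cn_nonneg _ _ _)]
  calc cn th0 r x * |w2 T (XX E x)| ≤ 1 * (3 * T) :=
        mul_le_mul (cn_le _ _ _) (abs_w2_le hT _) (abs_nonneg _) (by norm_num)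
    _ = 3 * T := one_mul _

theorem G1_lip {th0 r : ℝ} (hr : 0 < r) (E : ℝ) {T : ℝ} (hT : 0 < T) (x y : Fin d → ℝ) :
    ‖G1 th0 r E T x - G1 th0 r E T y‖ ≤
      (1 * (6 * T ^ 2 * (2 * d)) + 2 * d / r * (3 * T)) * ‖x - y‖ := by
  unfold G1
  apply lip_mul (f := fun x => (cn th0 r x : ℂ)) (g := fun x => (w2 T (XX E x) : ℂ))
    (by norm_num) (by positivity)
  · intro z
    rw [Complex.norm_real, Real.norm_eq_abs, abs_of_nonneg (cn_nonneg _ _ _)]
    exact cn_le _ _ _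
  · intro z
    rw [Complex.norm_real, Real.norm_eq_abs]
    exact abs_w2_le hT _
  · intro z w
    rw [norm_ofReal_sub]
    exact cn_lip hr z w
  · intro z w
    rw [norm_ofReal_sub]
    refine (w2_lip hT _ _).trans ?_
    rw [mul_assoc (6 * T ^ 2)]
    exact mul_le_mul_of_nonneg_left (XX_lip E z w) (by positivity)

theorem G2_lip {th0 r : ℝ} (hr : 0 < r) {E : ℝ} (hE : |E| ≤ 2 * d) {T : ℝ} (hT : 0 < T)
    {n : Fin d → ℤ} {R : ℝ} (hR : 0 ≤ R) (hn : ∀ j, |(n j : ℝ)| ≤ R) (x y : Fin d → ℝ) :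
    ‖G2 th0 r E T n x - G2 th0 r E T n y‖ ≤
      (3 * T * (4 * d) * (d * R) + (3 * T * (2 * d) +
        (1 * (6 * T ^ 2 * (2 * d)) + 2 * d / r * (3 * T)) * (4 * d)) * 1) * ‖x - y‖ := by
  unfold G2
  have hX : ∀ z : Fin d → ℝ, ‖(XX E z : ℂ)‖ ≤ 4 * d := by
    intro z
    rw [Complex.norm_real, Real.norm_eq_abs]
    exact XX_abs hE z
  apply lip_mul (f := fun x => G1 th0 r E T x * (XX E x : ℂ)) (g := fun x => ph n x)
    (by positivity) (by positivity)
  · intro z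
    rw [norm_mul]
    exact mul_le_mul (G1_norm th0 r E hT z) (hX z) (norm_nonneg _) (by positivity)
  · intro z
    exact (ph_norm n z).le
  · apply lip_mul (by positivity) (by positivity)
    · exact fun z => G1_norm th0 r E hT z
    · exact hX
    · exact fun z w => G1_lip hr E hT z w
    · intro z w
      rw [norm_ofReal_sub]
      exact XX_lip E z w
  · exact fun z w => ph_lip hn z w

theorem bb_zero {th0 r x : ℝ} (hr : 0 < r) (h : r ≤ |x - th0|) : bb th0 r x = 0 := by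
  have h1 := aa_zero hr.le h
  rw [aa_eq_bb hr] at h1
  rcases mul_eq_zero.1 h1 with h2 | h2
  · exact absurd h2 (by positivity)
  · exact h2

theorem cn_zero {th0 r : ℝ} (hr : 0 < r) (x : Fin d → ℝ) (h : ∃ j, r ≤ |x j - th0|) :
    cn th0 r x = 0 := by
  obtain ⟨j, hj⟩ := h
  exact Finset.prod_eq_zero (Finset.mem_univ j) (bb_zero hr hj)

theorem cn_supp {th0 r : ℝ} (hr : 0 < r) (x : Fin d → ℝ) (h : cn th0 r x ≠ 0) (j : Fin d) :
    |x j - th0| < r := by
  by_contra hc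
  push Not at hc
  exact h (cn_zero hr x ⟨j, hc⟩)

/-! ### the characters and the symbol in angles -/

variable {M : ℕ} [NeZero M]

theorem add_char_val (a : ZMod M) (m : ℤ) :
    (ZMod.stdAddChar (a * (m : ZMod M)) : ℂ) =
      Complex.exp (Complex.I * ((m * (2 * π * (a.val : ℝ) / M) : ℝ) : ℂ)) := by
  have h1 : a * (m : ZMod M) = (((a.val : ℤ) * m : ℤ) : ZMod M) := by
    push_cast
    rw [ZMod.natCast_zmod_val]
  rw [h1, ZMod.stdAddChar_coe]
  congr 1
  push_cast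
  ring

theorem ec_an (p y : Tor d M) : ec p y = ph (fun j => (y j).valMinAbs) (an p) := by
  unfold ec ph an
  rw [Complex.ofReal_sum, Finset.mul_sum, Complex.exp_sum]
  apply Finset.prod_congr rfl
  intro i _
  have h1 : p i * y i = p i * (((y i).valMinAbs : ℤ) : ZMod M) := by
    rw [ZMod.coe_valMinAbs]
  rw [h1, add_char_val]

theorem cos_val (a : ZMod M) : Real.cos (2 * Real.pi * (a.valMinAbs : ℝ) / M) =
    Real.cos (2 * π * (a.val : ℝ) / M) := by
  have hM : (M : ℝ) ≠ 0 := (hMpos (M := M)).ne'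
  have h1 : ((a.valMinAbs : ℤ) : ZMod M) = (((a.val : ℕ) : ℤ) : ZMod M) := by
    rw [ZMod.coe_valMinAbs]
    push_cast
    rw [ZMod.natCast_zmod_val]
  rw [ZMod.intCast_eq_intCast_iff_dvd_sub] at h1
  obtain ⟨k, hk⟩ := h1
  have h2 : ((a.val : ℕ) : ℝ) = a.valMinAbs + M * k := by
    have h3 : (((a.val : ℕ) : ℤ) : ℝ) = ((a.valMinAbs + M * k : ℤ) : ℝ) := by
      congr 1
      linarith only [hk]
    push_cast at h3
    exact h3
  rw [h2]
  have h4 : 2 * π * (a.valMinAbs + M * k : ℝ) / M =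
      2 * Real.pi * (a.valMinAbs : ℝ) / M + k * (2 * π) := by
    field_simp
  rw [h4, Real.cos_add_int_mul_two_pi]

theorem ds_an (p : Tor d M) : ds p = 2 * d - ∑ j, 2 * Real.cos (an p j) := by
  unfold ds an
  rw [Finset.sum_congr rfl fun i _ => by rw [cos_val (p i)]]
  simp only [mul_sub, mul_one]
  rw [Finset.sum_sub_distrib, Finset.sum_const, Finset.card_univ, Fintype.card_fin, nsmul_eq_mul]
  ring

theorem XX_an (l : ℝ) (p : Tor d M) : XX (2 * d - l) (an p) = -(ds p - l) := by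
  rw [ds_an]
  unfold XX
  ring

theorem an_lt (p : Tor d M) (j : Fin d) : 0 ≤ an p j ∧ an p j < 2 * π := by
  have hM := hMpos (M := M)
  have hpi := Real.pi_pos
  unfold an
  constructor
  · positivity
  · rw [div_lt_iff₀ hM]
    apply mul_lt_mul_of_pos_left _ (by positivity)
    exact_mod_cast ZMod.val_lt (p j)

theorem ds_le_sq (p : Tor d M) : ds p ≤ ∑ j, an p j ^ 2 := by
  rw [ds_an]
  have h1 : (2 * d : ℝ) - ∑ j, 2 * Real.cos (an p j) = ∑ j, (2 - 2 * Real.cos (an p j)) := by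
    rw [Finset.sum_sub_distrib, Finset.sum_const, Finset.card_univ, Fintype.card_fin,
      nsmul_eq_mul]
    ring
  rw [h1]
  apply Finset.sum_le_sum
  intro j _
  have := Real.one_sub_sq_div_two_le_cos (x := an p j)
  linarith only [this]

end Pool.Agent.LE.IR.H32
end
end -- Pool.Agent.Helper32_LIR.TseB

section -- Pool.Agent.Helper76_LSP.TSA

/-!
# Squad LSP, row TSA: the test multiplier on the torus
-/

set_option autoImplicit false

open MeasureTheory ProbabilityTheory Function Filter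

open scoped ENNReal BigOperators Topology NNReal ComplexOrder

noncomputable section

namespace Pool.Agent.LE.CL.H76

open Pool.Agent.Anderson hiding box mem_box card_box
open Pool.Agent.Loc Pool.Agent.Mob Pool.Agent.Helper54.Bal
  Pool.Agent.Helper96.EXP Pool.Agent.BED
open Pool.Agent.LE.MN

theorem measurable_wh (T : ℝ) : Measurable (wh T) := by
  unfold wh
  fun_prop

/-- the power of `T` -/
theorem pow_eq {d : ℕ} (hd : 1 ≤ d) {T : ℝ} (hT : 0 < T) (C : ℝ) :
    2 / T * (C / Real.sqrt T ^ (d - 1)) = 2 * C * T ^ (-(((d : ℝ) + 1) / 2)) := by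
  have h1 : Real.sqrt T ^ (d - 1) = T ^ (((d : ℝ) - 1) / 2) := by
    rw [Real.sqrt_eq_rpow, ← Real.rpow_natCast, ← Real.rpow_mul hT.le, Nat.cast_sub hd,
      Nat.cast_one]
    congr 1
    ring
  have h2 : T ^ (-(((d : ℝ) + 1) / 2)) = T⁻¹ * (T ^ (((d : ℝ) - 1) / 2))⁻¹ := by
    rw [← Real.rpow_neg hT.le, ← Real.rpow_neg_one, ← Real.rpow_add hT]
    congr 1
    ring
  rw [h1, h2]
  ring

/-- TSA -/
theorem tsa (hK : KrbStmt) : TsaStmt := by
  intro d δ hd hδ
  obtain ⟨r, c, C, hr, hr1, hc, hC, hmain⟩ := hK d δ hd hδ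
  have hpi := Real.pi_pos
  have hpi3 := Real.pi_gt_three
  refine ⟨((2 * Real.pi) ^ d)⁻¹ * c, 32 * (128 * Real.pi) + 2 * C, by positivity,
    by nlinarith only [hr, hr1, hC, hpi3], ?_⟩
  intro E T hE hT
  obtain ⟨th0, h0, hker, hT'⟩ := hmain E hE
  obtain ⟨T', hTT', hT'C, hmt⟩ := hT' T hT
  have hT'1 : 1 ≤ T' := hT.trans hTT'
  have hT'0 : 0 < T' := by linarith only [hr, hr1, hT, hTT']
  have hTi : 0 < T'⁻¹ := inv_pos.2 hT'0
  have hmc : Measurable fun θ : UnitAddTorus (Fin d) => cut th0 r (ang θ) := measurable_cut_ang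
  have hmw : Measurable fun θ : UnitAddTorus (Fin d) => wh T' (sy θ - E) :=
    (measurable_wh T').comp (continuous_sy.measurable.sub_const E)
  have hmq : Measurable fun θ : UnitAddTorus (Fin d) => cut th0 r (ang θ) * wh T' (sy θ - E) :=
    hmc.mul hmw
  have hc0 : ∀ θ : UnitAddTorus (Fin d), 0 ≤ cut th0 r (ang θ) := fun θ => cut_nonneg _
  have hc1 : ∀ θ : UnitAddTorus (Fin d), cut th0 r (ang θ) ≤ 1 := fun θ => cut_le_one hr hr1 _
  have hsq : ∀ θ : UnitAddTorus (Fin d),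
      (cut th0 r (ang θ) * wh T' (sy θ - E)) ^ 2 ≤ wh T' (sy θ - E) ^ 2 := by
    intro θ
    rw [mul_pow]
    have h1 : cut th0 r (ang θ) ^ 2 ≤ 1 := pow_le_one₀ (hc0 θ) (hc1 θ)
    nlinarith only [sq_nonneg (wh T' (sy θ - E)), h1]
  have hkc : Continuous fun θ : UnitAddTorus (Fin d) => ker T'⁻¹ (sy θ - E) :=
    (continuous_ker hTi).comp (continuous_sy.sub continuous_const)
  have hki : Integrable fun θ : UnitAddTorus (Fin d) => ker T'⁻¹ (sy θ - E) :=
    integrable_of_cont hkc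
  have hkb : ∫ θ : UnitAddTorus (Fin d), ker T'⁻¹ (sy θ - E) ≤ 128 * Real.pi :=
    integral_ker_le hd hTi E
  refine ⟨T', fun θ => cut th0 r (ang θ) * wh T' (sy θ - E), hTT', ?_, hmq, ?_, ?_, ?_, ?_, ?_⟩
  · refine hT'C.trans ?_
    apply mul_le_mul_of_nonneg_right _ (by linarith only [hr, hr1, hT])
    nlinarith only [hr, hr1, hC, hpi3]
  · intro θ
    show |cut th0 r (ang θ) * wh T' (sy θ - E)| ≤ _
    rw [abs_mul, abs_of_nonneg (hc0 θ)]
    have h1 := abs_wh_le1 hT'0 (sy θ - E)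
    calc cut th0 r (ang θ) * |wh T' (sy θ - E)| ≤ 1 * (3 * T') :=
          mul_le_mul (hc1 θ) h1 (abs_nonneg _) (by norm_num)
      _ ≤ (32 * (128 * Real.pi) + 2 * C) * T' := by
          rw [one_mul]
          apply mul_le_mul_of_nonneg_right _ hT'0.le
          nlinarith only [hr, hr1, hC, hpi3]
  · have h1 : ∫ θ : UnitAddTorus (Fin d), cut th0 r (ang θ) * wh T' (sy θ - E) =
        ((2 * Real.pi) ^ d)⁻¹ • ∫ y : Fin d → ℝ, (∏ j, aa (th0 j) r (y j)) *
          wh T' (∑ j, 2 * Real.cos (y j) - E) := by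
      obtain ⟨F, hF⟩ : ∃ F : (Fin d → ℝ) → ℝ, ∀ y, F y = (∏ j, aa (th0 j) r (y j)) *
          wh T' (∑ j, 2 * Real.cos (y j) - E) := ⟨_, fun _ => rfl⟩
      have h2 : ∀ θ : UnitAddTorus (Fin d), cut th0 r (ang θ) * wh T' (sy θ - E) =
          F (ang θ) := by
        intro θ
        rw [sy_eq, hF]
        rfl
      have hm2 : Measurable fun θ : UnitAddTorus (Fin d) => F (ang θ) := by
        simpa only [h2] using hmq
      have hz : ∀ y : Fin d → ℝ, (∃ j, y j ≤ 0 ∨ 2 * Real.pi < y j) → F y = 0 := by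
        intro y hy
        rw [hF]
        show (cut th0 r y) * _ = 0
        rw [cut_zero hr h0 y hy, zero_mul]
      rw [integral_congr_ae (Filter.Eventually.of_forall h2),
        integral_ang F hm2.aestronglyMeasurable hz]
      congr 1
      exact integral_congr_ae (Filter.Eventually.of_forall hF)
    show ((2 * Real.pi) ^ d)⁻¹ * c ≤
      |∫ θ : UnitAddTorus (Fin d), cut th0 r (ang θ) * wh T' (sy θ - E)|
    rw [h1, smul_eq_mul, abs_mul, abs_of_pos (by positivity : 0 < ((2 * Real.pi) ^ d)⁻¹)]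
    exact mul_le_mul_of_nonneg_left (hmt.trans (le_abs_self _)) (by positivity)
  · show ∫ θ : UnitAddTorus (Fin d), (cut th0 r (ang θ) * wh T' (sy θ - E)) ^ 2 ≤ _
    have h1 : ∫ θ : UnitAddTorus (Fin d), (cut th0 r (ang θ) * wh T' (sy θ - E)) ^ 2 ≤
        ∫ θ : UnitAddTorus (Fin d), 32 * T' * ker T'⁻¹ (sy θ - E) := by
      apply integral_mono_of_nonneg (Filter.Eventually.of_forall fun θ => sq_nonneg _)
        (hki.const_mul _)
      exact Filter.Eventually.of_forall fun θ => (hsq θ).trans (wh_sq_le hT'0 _)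
    refine h1.trans ?_
    rw [integral_const_mul]
    calc 32 * T' * ∫ θ : UnitAddTorus (Fin d), ker T'⁻¹ (sy θ - E) ≤
          32 * T' * (128 * Real.pi) := mul_le_mul_of_nonneg_left hkb (by positivity)
      _ ≤ (32 * (128 * Real.pi) + 2 * C) * T' := by nlinarith only [hr, hr1, hC, hT, hTT', hT'C]
  · show ∫ θ : UnitAddTorus (Fin d), (cut th0 r (ang θ) * wh T' (sy θ - E)) ^ 2 * |sy θ - E| ≤ _
    have h1 : ∫ θ : UnitAddTorus (Fin d),
        (cut th0 r (ang θ) * wh T' (sy θ - E)) ^ 2 * |sy θ - E| ≤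
        ∫ θ : UnitAddTorus (Fin d), 32 * ker T'⁻¹ (sy θ - E) := by
      apply integral_mono_of_nonneg
        (Filter.Eventually.of_forall fun θ => mul_nonneg (sq_nonneg _) (abs_nonneg _))
        (hki.const_mul _)
      exact Filter.Eventually.of_forall fun θ =>
        (mul_le_mul_of_nonneg_right (hsq θ) (abs_nonneg _)).trans (wh_sq_abs_le hT'0 _)
    refine h1.trans ?_
    rw [integral_const_mul]
    calc 32 * ∫ θ : UnitAddTorus (Fin d), ker T'⁻¹ (sy θ - E) ≤
          32 * (128 * Real.pi) := mul_le_mul_of_nonneg_left hkb (by norm_num)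
      _ ≤ 32 * (128 * Real.pi) + 2 * C := by linarith only [hr, hr1, hC]
  · intro y
    have h1 := coef_le hr hr1 h0 E hT'0 (hker T' hT'1) y
    rw [pow_eq (by omega : 1 ≤ d) hT'0 C] at h1
    refine h1.trans ?_
    apply mul_le_mul_of_nonneg_right _ (Real.rpow_nonneg hT'0.le _)
    nlinarith only [hr, hr1, hpi3]

end Pool.Agent.LE.CL.H76
end
end -- Pool.Agent.Helper76_LSP.TSA

section -- Pool.Agent.Helper32_LIR.TseC

/-!
# Squad LIR, row TSE, part 3: the integrals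
-/

set_option autoImplicit false
set_option linter.unusedSectionVars false

open MeasureTheory ProbabilityTheory Function Filter

open scoped ENNReal BigOperators Topology NNReal ComplexOrder

noncomputable section

namespace Pool.Agent.LE.IR.H32

open Pool.Agent.Anderson hiding box mem_box card_box
open Pool.Agent.Loc Pool.Agent.Mob Pool.Agent.Helper54.Bal
  Pool.Agent.Helper96.EXP Pool.Agent.BED
open Pool.Agent.LE.MN Pool.Agent.LE.CL Pool.Agent.LE.CL.H76

variable {d : ℕ}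

theorem integrable_bb {th0 r : ℝ} (hr : 0 < r) : Integrable (bb th0 r) := by
  have hc : Continuous (bb th0 r) := by
    unfold bb
    fun_prop
  apply hc.integrable_of_hasCompactSupport
  apply HasCompactSupport.intro (K := Set.Icc (th0 - r) (th0 + r)) isCompact_Icc
  intro x hx
  apply bb_zero hr
  rw [Set.mem_Icc, not_and_or, not_le, not_le] at hx
  rcases hx with hx | hx
  · rw [le_abs]
    right
    linarith
  · rw [le_abs]
    left
    linarith

theorem integrable_cn {th0 r : ℝ} (hr : 0 < r) :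
    Integrable (fun x : Fin d → ℝ => cn th0 r x) := by
  unfold cn
  exact Integrable.fintype_prod (f := fun _ : Fin d => bb th0 r) fun _ => integrable_bb hr

theorem continuous_cn {th0 r : ℝ} : Continuous (fun x : Fin d → ℝ => cn th0 r x) := by
  have hc : Continuous (bb th0 r) := by
    unfold bb
    fun_prop
  unfold cn
  apply continuous_finsetProd
  intro j _
  exact hc.comp (continuous_apply j)

theorem continuous_XX (E : ℝ) : Continuous (fun x : Fin d → ℝ => XX E x) := by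
  unfold XX
  fun_prop

theorem continuous_w2 (T : ℝ) (hT : 0 < T) : Continuous (w2 T) := by
  have h1 : LipschitzWith ⟨6 * T ^ 2, by positivity⟩ (w2 T) := by
    apply LipschitzWith.of_dist_le_mul
    intro x y
    rw [Real.dist_eq, Real.dist_eq]
    exact w2_lip hT x y
  exact h1.continuous

/-- a product of the cut-off and a bounded function -/
theorem integrable_cn_mul {th0 r : ℝ} (hr : 0 < r) {f : (Fin d → ℝ) → ℝ} {B : ℝ}
    (hf : Measurable f) (hB : ∀ x, |f x| ≤ B) :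
    Integrable (fun x : Fin d → ℝ => cn th0 r x * f x) := by
  apply Integrable.mono' ((integrable_cn (d := d) (th0 := th0) hr).mul_const B)
  · exact (continuous_cn.measurable.mul hf).aestronglyMeasurable
  · refine Filter.Eventually.of_forall fun x => ?_
    rw [Real.norm_eq_abs, abs_mul, abs_of_nonneg (cn_nonneg _ _ _)]
    exact mul_le_mul_of_nonneg_left (hB x) (cn_nonneg _ _ _)

/-- the main term -/
theorem main_le {th0 r : ℝ} (hr : 0 < r) (E : ℝ) {T m : ℝ} (hT : 0 < T)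
    (h : m * r ^ (2 * d) ≤ ∫ θ : Fin d → ℝ, (∏ j, aa th0 r (θ j)) *
      wh T (∑ j, 2 * Real.cos (θ j) - E)) :
    m ≤ ‖∫ θ : Fin d → ℝ, G1 th0 r E T θ‖ := by
  have hX : Measurable fun x : Fin d → ℝ => XX E x := (continuous_XX E).measurable
  have h1 : ∫ θ : Fin d → ℝ, (∏ j, aa th0 r (θ j)) * wh T (∑ j, 2 * Real.cos (θ j) - E) =
      r ^ (2 * d) * ∫ θ : Fin d → ℝ, cn th0 r θ * wh T (XX E θ) := by
    rw [← integral_const_mul]
    apply integral_congr_ae
    refine Filter.Eventually.of_forall fun θ => ?_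
    show (∏ j, aa th0 r (θ j)) * wh T (∑ j, 2 * Real.cos (θ j) - E) =
      r ^ (2 * d) * (cn th0 r θ * wh T (XX E θ))
    rw [prod_aa hr]
    unfold XX
    ring
  have h2 : ∫ θ : Fin d → ℝ, cn th0 r θ * wh T (XX E θ) ≤
      ∫ θ : Fin d → ℝ, cn th0 r θ * w2 T (XX E θ) := by
    apply integral_mono
    · exact integrable_cn_mul hr ((measurable_wh T).comp hX) fun x => abs_wh_le1 hT _
    · exact integrable_cn_mul hr ((continuous_w2 T hT).measurable.comp hX)
        fun x => abs_w2_le hT _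
    · intro θ
      exact mul_le_mul_of_nonneg_left (wh_le_w2 hT _) (cn_nonneg _ _ _)
  have h3 : ∫ θ : Fin d → ℝ, G1 th0 r E T θ =
      ((∫ θ : Fin d → ℝ, cn th0 r θ * w2 T (XX E θ) : ℝ) : ℂ) := by
    rw [← integral_complex_ofReal]
    apply integral_congr_ae
    refine Filter.Eventually.of_forall fun θ => ?_
    show G1 th0 r E T θ = ((cn th0 r θ * w2 T (XX E θ) : ℝ) : ℂ)
    unfold G1
    rw [Complex.ofReal_mul]
  have hrp : 0 < r ^ (2 * d) := by positivity
  rw [h1, mul_comm] at h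
  have h4 : m ≤ ∫ θ : Fin d → ℝ, cn th0 r θ * wh T (XX E θ) := le_of_mul_le_mul_left h hrp
  rw [h3, Complex.norm_real, Real.norm_eq_abs]
  exact (h4.trans h2).trans (le_abs_self _)

theorem G_zero {th0 r : ℝ} (hr : 0 < r) (h0 : r ≤ th0) (h1 : th0 + r ≤ 2 * Real.pi) (E T : ℝ)
    (x : Fin d → ℝ) (h : ∃ j, x j ≤ 0 ∨ 2 * Real.pi ≤ x j) : G1 th0 r E T x = 0 := by
  obtain ⟨j, hj⟩ := h
  unfold G1
  rw [cn_zero hr x ⟨j, ?_⟩, Complex.ofReal_zero, zero_mul]
  rcases hj with hj | hj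
  · rw [le_abs]
    right
    linarith
  · rw [le_abs]
    left
    linarith

/-- the kernel -/
theorem kernel_le {th0 r : ℝ} (hr : 0 < r) (hr1 : r ≤ 1 / 2) (h0 : 2 * r ≤ th0)
    (h1 : th0 ≤ Real.pi - 2 * r) (E : ℝ) {T K : ℝ} (hT : 0 < T)
    (hK : ∀ n : Fin d → ℤ, ‖∫ t in T..(2 * T), Complex.exp (Complex.I * ((t * E : ℝ) : ℂ)) *
          ∏ j, hh th0 r t (n j)‖ ≤ K * r ^ (2 * d)) (n : Fin d → ℤ) :
    ‖((2 * Real.pi) ^ d)⁻¹ • ∫ θ : Fin d → ℝ, G2 th0 r E T n θ‖ ≤ 2 / T * K := by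
  have hpi := Real.pi_pos
  have hrp : 0 < r ^ (2 * d) := by positivity
  have h0' : ∀ j : Fin d, 2 * r ≤ (fun _ : Fin d => th0) j ∧
      (fun _ : Fin d => th0) j ≤ Real.pi - 2 * r := fun _ => ⟨h0, h1⟩
  have hmain := coef_le (th0 := fun _ : Fin d => th0) hr hr1 h0' E hT hK n
  have hG : ∀ θ : UnitAddTorus (Fin d), G2 th0 r E T n (ang θ) = ((r ^ (2 * d) : ℝ) : ℂ)⁻¹ *
      (((H76.cut (fun _ : Fin d => th0) r (ang θ) * wh T (sy θ - E) * (sy θ - E) : ℝ) : ℂ) *
        ch n θ) := by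
    intro θ
    unfold G2 G1 ph
    rw [ch_eq, prod_exp]
    have e1 : XX E (ang θ) = sy θ - E := by
      rw [sy_eq]
      rfl
    have e2 : H76.cut (fun _ : Fin d => th0) r (ang θ) = r ^ (2 * d) * cn th0 r (ang θ) := by
      unfold H76.cut
      exact prod_aa hr _
    have e3 := w2_mul hT (sy θ - E)
    have hne : ((r ^ (2 * d) : ℝ) : ℂ) ≠ 0 := by exact_mod_cast hrp.ne'
    rw [e1, e2]
    have e4 : (cn th0 r (ang θ) : ℂ) * (w2 T (sy θ - E) : ℂ) * ((sy θ - E : ℝ) : ℂ) =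
        ((cn th0 r (ang θ) * (wh T (sy θ - E) * (sy θ - E)) : ℝ) : ℂ) := by
      rw [← e3]
      push_cast
      ring
    rw [e4]
    obtain ⟨z, hz⟩ : ∃ z : ℂ, z = Complex.exp (Complex.I * ((∑ j, n j * ang θ j : ℝ) : ℂ)) :=
      ⟨_, rfl⟩
    rw [← hz, show r ^ (2 * d) * cn th0 r (ang θ) * wh T (sy θ - E) * (sy θ - E) =
      r ^ (2 * d) * (cn th0 r (ang θ) * (wh T (sy θ - E) * (sy θ - E))) by ring,
      Complex.ofReal_mul (r ^ (2 * d)), mul_assoc ((r ^ (2 * d) : ℝ) : ℂ),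
      inv_mul_cancel_left₀ hne]
  have hz : ∀ y : Fin d → ℝ, (∃ j, y j ≤ 0 ∨ 2 * Real.pi < y j) → G2 th0 r E T n y = 0 := by
    rintro y ⟨j, hj⟩
    unfold G2
    rw [G_zero hr (by linarith) (by linarith) E T y ⟨j, ?_⟩, zero_mul, zero_mul]
    rcases hj with hj | hj
    · left
      exact hj
    · right
      exact hj.le
  have hcont : Continuous fun x : Fin d → ℝ => G2 th0 r E T n x := by
    unfold G2 G1 ph
    have e1 : Continuous fun x : Fin d → ℝ => (cn th0 r x : ℂ) :=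
      Complex.continuous_ofReal.comp continuous_cn
    have e2 : Continuous fun x : Fin d → ℝ => (XX E x : ℂ) :=
      Complex.continuous_ofReal.comp (continuous_XX E)
    have e3 : Continuous fun x : Fin d → ℝ => (w2 T (XX E x) : ℂ) :=
      Complex.continuous_ofReal.comp ((continuous_w2 T hT).comp (continuous_XX E))
    have e4 : Continuous fun x : Fin d → ℝ =>
        Complex.exp (Complex.I * ((∑ j, n j * x j : ℝ) : ℂ)) := by
      fun_prop
    exact ((e1.mul e3).mul e2).mul e4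
  have hm : Measurable fun θ : UnitAddTorus (Fin d) => G2 th0 r E T n (ang θ) :=
    hcont.measurable.comp measurable_ang
  rw [← integral_ang (G2 th0 r E T n) hm.aestronglyMeasurable hz]
  rw [integral_congr_ae (Filter.Eventually.of_forall hG), integral_const_mul, norm_mul, norm_inv,
    Complex.norm_real, Real.norm_eq_abs, abs_of_pos hrp]
  calc (r ^ (2 * d))⁻¹ * _ ≤ (r ^ (2 * d))⁻¹ * (2 / T * (K * r ^ (2 * d))) :=
        mul_le_mul_of_nonneg_left hmain (by positivity)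
    _ = 2 / T * K := by
        field_simp

end Pool.Agent.LE.IR.H32
end
end -- Pool.Agent.Helper32_LIR.TseC

section -- Pool.Agent.Helper32_LIR.TSE

/-!
# Squad LIR, row TSE: the test multiplier on the torus
-/

set_option autoImplicit false
set_option linter.unusedSectionVars false

open MeasureTheory ProbabilityTheory Function Filter

open scoped ENNReal BigOperators Topology NNReal ComplexOrder

noncomputable section

namespace Pool.Agent.LE.IR.H32

open Pool.Agent.Anderson hiding box mem_box card_box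
open Pool.Agent.Loc Pool.Agent.Mob Pool.Agent.Helper54.Bal
  Pool.Agent.Helper96.EXP Pool.Agent.BED
open Pool.Agent.LE.MN Pool.Agent.LE.CL Pool.Agent.LE.CL.H76

theorem K1_le {D r T c₁ : ℝ} (hD : 0 ≤ D) (hT : 1 ≤ T) (hc : 0 < c₁) (hc1 : c₁ ≤ 1)
    (hr0 : 0 < r) (hr : c₁ / T ≤ r) :
    1 * (6 * T ^ 2 * (2 * D)) + 2 * D / r * (3 * T) ≤ 18 * D * T ^ 2 / c₁ := by
  have hT0 : 0 < T := by linarith only [hT]
  have h1 : 2 * D / r ≤ 2 * D * (T / c₁) := by
    rw [div_eq_mul_inv]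
    apply mul_le_mul_of_nonneg_left _ (by positivity)
    rw [inv_le_comm₀ hr0 (by positivity), inv_div]
    exact hr
  have h2 : 12 * D * T ^ 2 ≤ 12 * D * T ^ 2 / c₁ := by
    rw [le_div_iff₀ hc]
    have : 0 ≤ 12 * D * T ^ 2 := by positivity
    nlinarith only [hc1, this]
  calc 1 * (6 * T ^ 2 * (2 * D)) + 2 * D / r * (3 * T) ≤
      12 * D * T ^ 2 / c₁ + 2 * D * (T / c₁) * (3 * T) := by
        apply add_le_add
        · linarith only [h2]
        · exact mul_le_mul_of_nonneg_right h1 (by positivity)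
    _ = 18 * D * T ^ 2 / c₁ := by
        field_simp
        ring

theorem K2_le {D T c₁ R K : ℝ} (hD : 1 ≤ D) (hT : 1 ≤ T) (hc : 0 < c₁) (hc1 : c₁ ≤ 1)
    (hR : 0 ≤ R) (hK : K ≤ 18 * D * T ^ 2 / c₁) :
    3 * T * (4 * D) * (D * R) + (3 * T * (2 * D) + K * (4 * D)) * 1 ≤
      90 * D ^ 2 * T ^ 2 * (R + 1) / c₁ := by
  have hT0 : 0 < T := by linarith only [hT]
  have hD0 : 0 < D := by linarith
  have hTT : T ≤ T ^ 2 := by nlinarith only [hT]
  have hDD : D ≤ D ^ 2 := by nlinarith only [hD]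
  have h1 : K * (4 * D) ≤ 18 * D * T ^ 2 / c₁ * (4 * D) :=
    mul_le_mul_of_nonneg_right hK (by positivity)
  have h2 : 12 * D ^ 2 * T * R + 6 * D * T ≤ (12 * D ^ 2 * T ^ 2 * R + 6 * D ^ 2 * T ^ 2) / c₁ := by
    rw [le_div_iff₀ hc]
    have h3 : 12 * D ^ 2 * T * R ≤ 12 * D ^ 2 * T ^ 2 * R := by
      apply mul_le_mul_of_nonneg_right _ hR
      exact mul_le_mul_of_nonneg_left hTT (by positivity)
    have h4 : 6 * D * T ≤ 6 * D ^ 2 * T ^ 2 := by
      have : D * T ≤ D ^ 2 * T ^ 2 := mul_le_mul hDD hTT hT0.le (by positivity)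
      nlinarith only [this]
    have h5 : 0 ≤ 12 * D ^ 2 * T * R + 6 * D * T := by positivity
    calc (12 * D ^ 2 * T * R + 6 * D * T) * c₁ ≤ (12 * D ^ 2 * T * R + 6 * D * T) * 1 :=
          mul_le_mul_of_nonneg_left hc1 h5
      _ ≤ _ := by linarith only [h3, h4]
  have h6 : (12 * D ^ 2 * T ^ 2 * R + 6 * D ^ 2 * T ^ 2) / c₁ + 18 * D * T ^ 2 / c₁ * (4 * D) ≤
      90 * D ^ 2 * T ^ 2 * (R + 1) / c₁ := by
    have e1 : (12 * D ^ 2 * T ^ 2 * R + 6 * D ^ 2 * T ^ 2) / c₁ +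
        18 * D * T ^ 2 / c₁ * (4 * D) =
        (12 * D ^ 2 * T ^ 2 * R + 78 * (D ^ 2 * T ^ 2)) / c₁ := by
      field_simp
      ring
    rw [e1]
    apply div_le_div_of_nonneg_right _ hc.le
    have h7 : 0 ≤ D ^ 2 * T ^ 2 := by positivity
    have h8 : 0 ≤ D ^ 2 * T ^ 2 * R := by positivity
    nlinarith only [h7, h8]
  linarith only [h1, h2, h6]

section pmL
variable {d M : ℕ} [NeZero M]

theorem pm_mono {F G : Tor d M → ℝ} (h : ∀ p, F p ≤ G p) : pm F ≤ pm G := by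
  unfold pm
  exact div_le_div_of_nonneg_right (Finset.sum_le_sum fun p _ => h p) (by positivity)

theorem pm_mul (c : ℝ) (F : Tor d M → ℝ) : pm (fun p => c * F p) = c * pm F := by
  unfold pm
  rw [← Finset.mul_sum, mul_div_assoc]

theorem pm_supp {F G : Tor d M → ℝ} {c κ : ℝ} (hc : ∀ p, ds p ≤ κ → F p ≤ c * G p)
    (h0 : ∀ p, ¬ ds p ≤ κ → F p ≤ 0) : pm F ≤ c * pm (fun p => if ds p ≤ κ then G p else 0) := by
  rw [← pm_mul]
  apply pm_mono
  intro p
  by_cases h : ds p ≤ κ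
  · rw [if_pos h]
    exact hc p h
  · rw [if_neg h, mul_zero]
    exact h0 p h

theorem pm_ofReal (F : Tor d M → ℝ) : ((pm F : ℝ) : ℂ) = (∑ p, (F p : ℂ)) / (M : ℂ) ^ d := by
  unfold pm
  push_cast
  rfl

end pmL

theorem rpow4 {d : ℕ} (hd : 3 ≤ d) {l : ℝ} (hl : 0 < l) :
    (4 * l) ^ (((d : ℝ) - 2) / 2) ≤ 4 ^ d * l ^ (((d : ℝ) - 2) / 2) := by
  have hd' : (3 : ℝ) ≤ d := by exact_mod_cast hd
  rw [Real.mul_rpow (by norm_num) hl.le]
  apply mul_le_mul_of_nonneg_right _ (Real.rpow_nonneg hl.le _)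
  rw [← Real.rpow_natCast]
  apply Real.rpow_le_rpow_of_exponent_le (by norm_num)
  linarith only [hd']

theorem D0_ge {d : ℕ} (hd : 3 ≤ d) {l T : ℝ} (hl : 0 < l) (hl1 : l ≤ 1) (hT : 0 < T)
    (h : 1 ≤ T * l) : (T ^ d)⁻¹ ≤ l ^ (((d : ℝ) - 2) / 2) := by
  have hd' : (3 : ℝ) ≤ d := by exact_mod_cast hd
  have h1 : l ^ (d : ℝ) ≤ l ^ (((d : ℝ) - 2) / 2) :=
    Real.rpow_le_rpow_of_exponent_ge hl hl1 (by linarith)
  rw [Real.rpow_natCast] at h1
  refine le_trans ?_ h1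
  rw [← inv_pow]
  apply pow_le_pow_left₀ (by positivity)
  rw [← one_div, div_le_iff₀ hT, mul_comm]
  exact h

theorem sqrt_pow {d : ℕ} (hd : 1 ≤ d) {T : ℝ} (hT : 0 < T) :
    T * Real.sqrt T ^ (d - 1) = Real.sqrt T ^ (d + 1) := by
  have h1 : d + 1 = (d - 1) + 2 := by omega
  rw [h1, pow_add, Real.sq_sqrt hT.le, mul_comm]

theorem err_kernel {d : ℕ} {T l c₁ R M : ℝ} (hT : 1 ≤ T) (hl : 0 < l) (hl1 : l ≤ 1)
    (hc : 0 < c₁) (hM : 0 < M)
    (hB : 180 * Real.pi * d ^ 2 / c₁ * (T ^ (d + 3) * (R + 1)) ≤ M) :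
    90 * (d : ℝ) ^ 2 * T ^ 2 * (R + 1) / c₁ * (2 * Real.pi / M) ≤
      1 / (Real.sqrt T ^ (d + 1) * Real.sqrt l) := by
  have hT0 : 0 < T := by linarith only [hT]
  have hpi := Real.pi_pos
  have hs1 : Real.sqrt T ≤ T := by
    rw [Real.sqrt_le_left hT0.le]
    nlinarith only [hT]
  have hs0 : 0 < Real.sqrt T := Real.sqrt_pos.2 hT0
  have hsl : Real.sqrt l ≤ 1 := by
    rw [Real.sqrt_le_one]
    exact hl1
  have hsl0 : 0 < Real.sqrt l := Real.sqrt_pos.2 hl
  have h1 : 1 / T ^ (d + 1) ≤ 1 / (Real.sqrt T ^ (d + 1) * Real.sqrt l) := by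
    apply one_div_le_one_div_of_le (by positivity)
    calc Real.sqrt T ^ (d + 1) * Real.sqrt l ≤ T ^ (d + 1) * 1 :=
          mul_le_mul (pow_le_pow_left₀ hs0.le hs1 _) hsl hsl0.le (by positivity)
      _ = T ^ (d + 1) := mul_one _
  refine le_trans ?_ h1
  rw [le_div_iff₀ (by positivity)]
  have h2 : 90 * (d : ℝ) ^ 2 * T ^ 2 * (R + 1) / c₁ * (2 * Real.pi / M) * T ^ (d + 1) =
      180 * Real.pi * d ^ 2 / c₁ * (T ^ (d + 3) * (R + 1)) / M := by
    rw [show d + 3 = 2 + (d + 1) by ring, pow_add T 2 (d + 1)]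
    field_simp
    ring
  rw [h2, div_le_one hM]
  exact hB

theorem err_main {d : ℕ} {T c₁ c M D₀ : ℝ} (hT : 1 ≤ T)
    (hc₁ : 0 < c₁) (hc : 0 < c) (hM : 0 < M) (hD : (T ^ d)⁻¹ ≤ D₀)
    (hB : 72 * Real.pi * d * (2 * Real.pi) ^ d / (c₁ * c) * T ^ (d + 3) ≤ M) :
    18 * (d : ℝ) * T ^ 2 / c₁ * (2 * Real.pi / M) ≤ ((2 * Real.pi) ^ d)⁻¹ * (c * D₀) / 2 := by
  have hT0 : 0 < T := by linarith only [hT]
  have hpi := Real.pi_pos
  have h1 : ((2 * Real.pi) ^ d)⁻¹ * (c * (T ^ d)⁻¹) / 2 ≤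
      ((2 * Real.pi) ^ d)⁻¹ * (c * D₀) / 2 := by
    apply div_le_div_of_nonneg_right _ (by norm_num)
    apply mul_le_mul_of_nonneg_left _ (by positivity)
    exact mul_le_mul_of_nonneg_left hD hc.le
  refine le_trans ?_ h1
  have h2 : T ^ (d + 2) ≤ T ^ (d + 3) := pow_le_pow_right₀ hT (by omega)
  have h3 : 72 * Real.pi * d * (2 * Real.pi) ^ d / (c₁ * c) * T ^ (d + 2) ≤ M :=
    (mul_le_mul_of_nonneg_left h2 (by positivity)).trans hB
  obtain ⟨W, hW⟩ : ∃ W, W = (2 * Real.pi) ^ d := ⟨_, rfl⟩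
  obtain ⟨P, hP⟩ : ∃ P, P = T ^ d := ⟨_, rfl⟩
  have hW0 : 0 < W := by
    rw [hW]
    positivity
  have hP0 : 0 < P := by
    rw [hP]
    positivity
  rw [pow_add, ← hW, ← hP] at h3
  rw [← hW, ← hP]
  have h4 : 18 * (d : ℝ) * T ^ 2 / c₁ * (2 * Real.pi / M) =
      72 * Real.pi * d * W / (c₁ * c) * (P * T ^ 2) * (c / (2 * W * P * M)) := by
    field_simp
    ring
  have h5 : W⁻¹ * (c * P⁻¹) / 2 = M * (c / (2 * W * P * M)) := by
    field_simp
  rw [h4, h5]
  exact mul_le_mul_of_nonneg_right h3 (by positivity)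

/-- TSE -/
theorem tse (kbe : KbeStmt) (dst : DstStmt) (sms : SmsStmt) : TseStmt := by
  intro d hd
  obtain ⟨c₁, c, C, hc₁, hc₁1, hc, hC, hkbe⟩ := kbe d hd
  obtain ⟨CD, hCD, hdst⟩ := dst d hd
  obtain ⟨CS, hCS, hsms⟩ := sms d hd
  have hpi := Real.pi_pos
  have hpi3 := Real.pi_gt_three
  have hd' : (3 : ℝ) ≤ d := by exact_mod_cast hd
  obtain ⟨W, hW⟩ : ∃ W, W = (2 * Real.pi) ^ d := ⟨_, rfl⟩
  have hW0 : 0 < W := by
    rw [hW]
    positivity
  obtain ⟨A, hA⟩ : ∃ A, A = C + 3 + 32 * (CD * 4 ^ d) + 8 * (CS * 4 ^ d) + 2 * W / c +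
      (2 * C + 1) := ⟨_, rfl⟩
  obtain ⟨B, hB⟩ : ∃ B, B = CD + CS + 72 * Real.pi * d * (2 * Real.pi) ^ d / (c₁ * c) +
      180 * Real.pi * d ^ 2 / c₁ := ⟨_, rfl⟩
  have hd0 : (0 : ℝ) < d := by linarith only [hd']
  have hCD0 : 0 < CD := by linarith only [hCD]
  have hCS0 : 0 < CS := by linarith only [hCS]
  have hC0 : 0 < C := by linarith only [hC]
  have hb1 : 0 ≤ 72 * Real.pi * d * (2 * Real.pi) ^ d / (c₁ * c) := by positivity
  have hb2 : 0 ≤ 180 * Real.pi * d ^ 2 / c₁ := by positivity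
  have hB0 : 0 ≤ B := by
    rw [hB]
    linarith only [hb1, hb2, hCD, hCS]
  have h4d : (0 : ℝ) < 4 ^ d := by positivity
  have hCD4 : 0 ≤ CD * 4 ^ d := mul_nonneg hCD0.le h4d.le
  have hCS4 : 0 ≤ CS * 4 ^ d := mul_nonneg hCS0.le h4d.le
  have hWc : 0 < 2 * W / c := div_pos (mul_pos (by norm_num) hW0) hc
  have hA1 : 1 ≤ A := by
    rw [hA]
    linarith only [hCD4, hCS4, hWc, hC0]
  have hA0 : 0 < A := by linarith only [hA1]
  refine ⟨A, min c₁ (1 / 16), C + B * C ^ (d + 3), d + 3, hA1, lt_min hc₁ (by norm_num), ?_, ?_⟩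
  · have : 0 ≤ B * C ^ (d + 3) := mul_nonneg hB0 (pow_nonneg hC0.le _)
    linarith only [this, hC]
  intro M Rb _ l T hl hlc hTl hMT
  have hl1 : l ≤ c₁ := hlc.trans (min_le_left _ _)
  have hl2 : l ≤ 1 / 16 := hlc.trans (min_le_right _ _)
  have hBC : 0 ≤ B * C ^ (d + 3) := mul_nonneg hB0 (pow_nonneg hC0.le _)
  have hCTl : C ≤ T * l := by linarith only [hTl, hBC]
  have hT0 : 0 < T := by
    by_contra hcon
    push Not at hcon
    have : T * l ≤ 0 := mul_nonpos_of_nonpos_of_nonneg hcon hl.le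
    linarith only [this, hCTl, hC]
  obtain ⟨th0, r, hr1, hr2, hr3, hker, hmt⟩ := hkbe l hl hl1
  obtain ⟨T', hTT', hT'C, hmain⟩ := hmt T hCTl
  have hT'0 : 0 < T' := by linarith only [hTT', hT0]
  have hCT'l : C ≤ T' * l := hCTl.trans (mul_le_mul_of_nonneg_right hTT' hl.le)
  have hT'l : 1 ≤ T' * l := hC.trans hCT'l
  have hT'1 : 1 ≤ T' := by
    by_contra hcon
    push Not at hcon
    have : T' * l ≤ 1 * (1 / 16) := mul_le_mul hcon.le hl2 hl.le (by norm_num)
    linarith only [this, hT'l]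
  have hsl : 0 < Real.sqrt l := Real.sqrt_pos.2 hl
  have hr0 : 0 < r := lt_of_lt_of_le (mul_pos hc₁ hsl) hr1
  have hM := hMpos (M := M)
  have hRb : (0 : ℝ) ≤ Rb := Nat.cast_nonneg _
  have hRb1 : (1 : ℝ) ≤ (Rb : ℝ) + 1 := by linarith only [hRb]
  -- the size of `M`
  have hMB : B * (T' ^ (d + 3) * ((Rb : ℝ) + 1)) ≤ M := by
    refine le_trans ?_ hMT
    have h1 : T' ^ (d + 3) ≤ C ^ (d + 3) * T ^ (d + 3) := by
      rw [← mul_pow]
      exact pow_le_pow_left₀ hT'0.le hT'C _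
    have h2 : (Rb : ℝ) + 1 ≤ ((Rb : ℝ) + 1) ^ (d + 3) := le_self_pow₀ hRb1 (by omega)
    have h3 : T' ^ (d + 3) * ((Rb : ℝ) + 1) ≤
        C ^ (d + 3) * T ^ (d + 3) * ((Rb : ℝ) + 1) ^ (d + 3) :=
      mul_le_mul h1 h2 (by linarith only [hRb]) (mul_nonneg (pow_nonneg hC0.le _)
        (pow_nonneg hT0.le _))
    calc B * (T' ^ (d + 3) * ((Rb : ℝ) + 1)) ≤
        B * (C ^ (d + 3) * T ^ (d + 3) * ((Rb : ℝ) + 1) ^ (d + 3)) :=
          mul_le_mul_of_nonneg_left h3 hB0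
      _ = B * C ^ (d + 3) * (T * ((Rb : ℝ) + 1)) ^ (d + 3) := by
          rw [mul_pow T]
          ring
      _ ≤ (C + B * C ^ (d + 3)) * (T * ((Rb : ℝ) + 1)) ^ (d + 3) := by
          apply mul_le_mul_of_nonneg_right _
            (pow_nonneg (mul_nonneg hT0.le (by linarith only [hRb])) _)
          linarith only [hC0]
  have hTp : T' ≤ T' ^ (d + 3) := le_self_pow₀ hT'1 (by omega)
  have hTR : T' ≤ T' ^ (d + 3) * ((Rb : ℝ) + 1) := by
    calc T' ≤ T' ^ (d + 3) * 1 := by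
          rw [mul_one]
          exact hTp
      _ ≤ _ := mul_le_mul_of_nonneg_left hRb1 (pow_nonneg hT'0.le _)
  have hP0 : 0 ≤ T' ^ (d + 3) * ((Rb : ℝ) + 1) :=
    mul_nonneg (pow_nonneg hT'0.le _) (by linarith only [hRb])
  have hMD : CD / T'⁻¹ ≤ M := by
    rw [div_inv_eq_mul]
    calc CD * T' ≤ B * (T' ^ (d + 3) * ((Rb : ℝ) + 1)) := by
          apply mul_le_mul _ hTR hT'0.le hB0
          rw [hB]
          linarith only [hb1, hb2, hCD0, hCS0]
      _ ≤ M := hMB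
  have hMS : CS / T'⁻¹ ≤ M := by
    rw [div_inv_eq_mul]
    calc CS * T' ≤ B * (T' ^ (d + 3) * ((Rb : ℝ) + 1)) := by
          apply mul_le_mul _ hTR hT'0.le hB0
          rw [hB]
          linarith only [hb1, hb2, hCD0, hCS0]
      _ ≤ M := hMB
  have hM1 : 72 * Real.pi * d * (2 * Real.pi) ^ d / (c₁ * c) * T' ^ (d + 3) ≤ M := by
    refine le_trans ?_ hMB
    apply mul_le_mul _ _ (pow_nonneg hT'0.le _) hB0
    · rw [hB]
      linarith only [hb2, hCD0, hCS0]
    · calc T' ^ (d + 3) = T' ^ (d + 3) * 1 := (mul_one _).symm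
        _ ≤ _ := mul_le_mul_of_nonneg_left hRb1 (pow_nonneg hT'0.le _)
  have hM2 : 180 * Real.pi * d ^ 2 / c₁ * (T' ^ (d + 3) * ((Rb : ℝ) + 1)) ≤ M := by
    refine le_trans ?_ hMB
    apply mul_le_mul_of_nonneg_right _ hP0
    rw [hB]
    linarith only [hb1, hCD0, hCS0]
  -- the radius
  have hrT : c₁ / T' ≤ r := by
    refine le_trans ?_ hr1
    rw [div_eq_mul_inv]
    apply mul_le_mul_of_nonneg_left _ hc₁.le
    have h1 : T'⁻¹ ≤ l := by
      rw [← one_div, div_le_iff₀ hT'0, mul_comm]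
      exact hT'l
    refine h1.trans ?_
    rw [Real.le_sqrt' hl]
    have h2 : l * l ≤ l * 1 := mul_le_mul_of_nonneg_left (by linarith only [hl2]) hl.le
    linarith only [h2]
  have hth : th0 + r ≤ 1 / 2 := by
    have h0 : 0 < th0 + r := by linarith only [hr0, hr2]
    have h1 : 3 * (th0 + r) ^ 2 ≤ d * (th0 + r) ^ 2 :=
      mul_le_mul_of_nonneg_right hd' (sq_nonneg _)
    by_contra hcon
    push Not at hcon
    have h2 := mul_lt_mul'' hcon hcon (by norm_num) (by norm_num)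
    linarith only [h1, h2, hr3, hl2]
  have hth0 : 0 < th0 := by linarith only [hr0, hr2]
  -- names
  obtain ⟨E, hE⟩ : ∃ E : ℝ, E = 2 * d - l := ⟨_, rfl⟩
  have hEd : |E| ≤ 2 * d := by
    rw [hE, abs_le]
    constructor <;> linarith only [hl, hl2, hd']
  obtain ⟨q, hq⟩ : ∃ q : Tor d M → ℝ, ∀ p, q p = cn th0 r (an p) * w2 T' (ds p - l) :=
    ⟨_, fun _ => rfl⟩
  have hXE : ∀ p : Tor d M, XX E (an p) = -(ds p - l) := by
    intro p
    rw [hE]
    exact XX_an l p
  have hqG : ∀ p, (q p : ℂ) = G1 th0 r E T' (an p) := by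
    intro p
    unfold G1
    rw [hXE, w2_neg, hq, Complex.ofReal_mul]
  have hqw : ∀ p, |q p| ≤ |w2 T' (ds p - l)| := by
    intro p
    rw [hq, abs_mul, abs_of_nonneg (cn_nonneg _ _ _)]
    calc cn th0 r (an p) * |w2 T' (ds p - l)| ≤ 1 * |w2 T' (ds p - l)| :=
          mul_le_mul_of_nonneg_right (cn_le _ _ _) (abs_nonneg _)
      _ = _ := one_mul _
  have hqw2 : ∀ p, q p ^ 2 ≤ w2 T' (ds p - l) ^ 2 := by
    intro p
    rw [← sq_abs (q p), ← sq_abs (w2 T' (ds p - l))]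
    exact pow_le_pow_left₀ (abs_nonneg _) (hqw p) 2
  have hsupp : ∀ p, q p ≠ 0 → ds p ≤ 4 * l := by
    intro p hp
    have h1 : cn th0 r (an p) ≠ 0 := by
      intro h
      apply hp
      rw [hq, h, zero_mul]
    have h2 : ∀ j ∈ (Finset.univ : Finset (Fin d)), an p j ^ 2 ≤ (th0 + r) ^ 2 := by
      intro j _
      have h3 := cn_supp hr0 _ h1 j
      rw [abs_lt] at h3
      have h4 := (an_lt p j).1
      apply pow_le_pow_left₀ h4
      linarith only [h3.2]
    have h5 := (ds_le_sq p).trans (Finset.sum_le_sum h2)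
    rw [Finset.sum_const, Finset.card_univ, Fintype.card_fin, nsmul_eq_mul] at h5
    linarith only [h5, hr3, hl]
  have hq0 : ∀ p, ¬ ds p ≤ 4 * l → q p = 0 := by
    intro p hp
    by_contra hcon
    exact hp (hsupp p hcon)
  -- the density of states
  obtain ⟨D₀, hD₀⟩ : ∃ D₀, D₀ = l ^ (((d : ℝ) - 2) / 2) := ⟨_, rfl⟩
  have hD₀0 : 0 < D₀ := by
    rw [hD₀]
    exact Real.rpow_pos_of_pos hl _
  have hη0 : 0 < T'⁻¹ := inv_pos.2 hT'0
  have hηl : T'⁻¹ ≤ l := by
    rw [← one_div, div_le_iff₀ hT'0, mul_comm]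
    exact hT'l
  have h4l := rpow4 hd hl
  rw [← hD₀] at h4l
  have hDk : pm (fun p : Tor d M => if ds p ≤ 4 * l then ker T'⁻¹ (ds p - l) else 0) ≤
      CD * 4 ^ d * D₀ := by
    have h1 := hdst M (4 * l) l T'⁻¹ hη0 (by linarith only [hηl, hl]) (by linarith only [hl2]) hMD
    refine le_trans h1 ?_
    calc CD * (4 * l) ^ (((d : ℝ) - 2) / 2) ≤ CD * (4 ^ d * D₀) :=
          mul_le_mul_of_nonneg_left h4l hCD0.le
      _ = CD * 4 ^ d * D₀ := (mul_assoc _ _ _).symm
  have hDm : pm (fun p : Tor d M => if ds p ≤ 4 * l then (mt l T'⁻¹ p)⁻¹ else 0) ≤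
      CS * 4 ^ d * D₀ * (1 + Real.log T') := by
    have h1 := (hsms M l T'⁻¹ (4 * l) hη0 hηl le_rfl (by linarith only [hl2]) hMS).2
    refine le_trans h1 ?_
    rw [one_div, inv_inv]
    have h2 : 0 ≤ 1 + Real.log T' := by
      have := Real.log_nonneg hT'1
      linarith only [this]
    apply mul_le_mul_of_nonneg_right _ h2
    calc CS * (4 * l) ^ (((d : ℝ) - 2) / 2) ≤ CS * (4 ^ d * D₀) :=
          mul_le_mul_of_nonneg_left h4l hCS0.le
      _ = CS * 4 ^ d * D₀ := (mul_assoc _ _ _).symm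
  have hlog : 0 ≤ 1 + Real.log T' := by
    have := Real.log_nonneg hT'1
    linarith only [this]
  have hK0 : 0 ≤ 18 * (d : ℝ) * T' ^ 2 / c₁ :=
    div_nonneg (mul_nonneg (mul_nonneg (by norm_num) hd0.le) (sq_nonneg T')) hc₁.le
  have hK90 : 0 ≤ 90 * (d : ℝ) ^ 2 * T' ^ 2 * (Rb + 1) / c₁ :=
    div_nonneg (mul_nonneg (mul_nonneg (mul_nonneg (by norm_num) (sq_nonneg _)) (sq_nonneg T'))
      (by linarith only [hRb])) hc₁.le
  have hrth : r ≤ th0 := by linarith only [hr0, hr2]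
  have hth2 : th0 + r ≤ 2 * Real.pi := by linarith only [hth, hpi3]
  have hK1 := K1_le (D := d) hd0.le hT'1 hc₁ hc₁1 hr0 hrT
  have hpm : ∀ F : Tor d M → ℝ, ((pm F : ℝ) : ℂ) = (∑ p, (F p : ℂ)) / (M : ℂ) ^ d :=
    fun F => pm_ofReal F
  refine ⟨T', q, hTT', ?_, ?_⟩
  · refine hT'C.trans (mul_le_mul_of_nonneg_right ?_ hT0.le)
    rw [hA]
    linarith only [hCD4, hCS4, hWc, hC0]
  rw [← hD₀]
  constructor
  · exact hsupp
  · intro p
    refine ((hqw p).trans (abs_w2_le hT'0 _)).trans ?_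
    apply mul_le_mul_of_nonneg_right _ hT'0.le
    rw [hA]
    linarith only [hCD4, hCS4, hWc, hC0]
  · -- the main term
    have h1 := main_le hr0 E hT'0 (m := c * D₀) (d := d) (th0 := th0) (r := r) (by
      rw [hE, hD₀]
      refine le_trans (le_of_eq ?_) hmain
      ring)
    have h2 := riemann (M := M) (G := fun x : Fin d → ℝ => G1 th0 r E T' x)
      (K := 18 * (d : ℝ) * T' ^ 2 / c₁) hK0 (fun x y =>
        (G1_lip hr0 E hT'0 x y).trans (mul_le_mul_of_nonneg_right hK1 (norm_nonneg _)))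
      (fun x ⟨j, hj⟩ => G_zero hr0 hrth hth2 E T' x
        ⟨j, hj.imp (fun h => h.le) (fun h => h)⟩)
    have h3 := err_main (d := d) hT'1 hc₁ hc hM (D₀ := D₀) (by
      rw [hD₀]
      exact D0_ge hd hl (by linarith only [hl2]) hT'0 hT'l) hM1
    have h4 : ((pm q : ℝ) : ℂ) = (∑ p : Fin d → ZMod M, G1 th0 r E T' (an p)) / (M : ℂ) ^ d := by
      rw [hpm]
      exact congrArg (fun x => x / (M : ℂ) ^ d) (Finset.sum_congr rfl fun p _ => hqG p)
    have h5 : ‖((2 * Real.pi) ^ d)⁻¹ • ∫ x : Fin d → ℝ, G1 th0 r E T' x‖ =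
        W⁻¹ * ‖∫ x : Fin d → ℝ, G1 th0 r E T' x‖ := by
      rw [norm_smul, ← hW, Real.norm_eq_abs, abs_of_pos (inv_pos.2 hW0)]
    have h6 : W⁻¹ * (c * D₀) ≤ W⁻¹ * ‖∫ x : Fin d → ℝ, G1 th0 r E T' x‖ :=
      mul_le_mul_of_nonneg_left h1 (inv_pos.2 hW0).le
    rw [← h4] at h2
    have h7 : ‖((2 * Real.pi) ^ d)⁻¹ • ∫ x : Fin d → ℝ, G1 th0 r E T' x‖ ≤
        ‖((pm q : ℝ) : ℂ)‖ + ‖((pm q : ℝ) : ℂ) -
          ((2 * Real.pi) ^ d)⁻¹ • ∫ x : Fin d → ℝ, G1 th0 r E T' x‖ := by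
      have e1 : ((2 * Real.pi) ^ d)⁻¹ • ∫ x : Fin d → ℝ, G1 th0 r E T' x =
          ((pm q : ℝ) : ℂ) - (((pm q : ℝ) : ℂ) -
          ((2 * Real.pi) ^ d)⁻¹ • ∫ x : Fin d → ℝ, G1 th0 r E T' x) := by ring
      conv_lhs => rw [e1]
      exact norm_sub_le _ _
    rw [h5] at h7
    rw [← hW] at h3
    have h8 : ‖((pm q : ℝ) : ℂ)‖ = |pm q| := by
      rw [Complex.norm_real, Real.norm_eq_abs]
    rw [h8] at h7
    have h9 : W⁻¹ * (c * D₀) / 2 ≤ |pm q| := by linarith only [h7, h6, h2, h3]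
    refine le_trans ?_ h9
    have h10 : 2 * W / c ≤ A := by
      rw [hA]
      linarith only [hCD4, hCS4, hC0]
    have h11 : W⁻¹ * (c * D₀) / 2 = D₀ / (2 * W / c) := by
      field_simp
    rw [h11]
    exact div_le_div_of_nonneg_left hD₀0.le hWc h10
  · -- L1
    have h1 := pm_supp (F := fun p : Tor d M => |q p|) (G := fun p => ker T'⁻¹ (ds p - l))
      (c := 8) (κ := 4 * l) (fun p _ => (hqw p).trans (w2_le_ker hT'0 _)) (fun p hp => by
        show |q p| ≤ 0
        rw [hq0 p hp, abs_zero])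
    refine h1.trans ?_
    calc 8 * pm (fun p : Tor d M => if ds p ≤ 4 * l then ker T'⁻¹ (ds p - l) else 0) ≤
        8 * (CD * 4 ^ d * D₀) := mul_le_mul_of_nonneg_left hDk (by norm_num)
      _ = 8 * (CD * 4 ^ d) * D₀ := by ring
      _ ≤ A * D₀ := by
          apply mul_le_mul_of_nonneg_right _ hD₀0.le
          rw [hA]
          linarith only [hCD4, hCS4, hC0, hWc]
  · -- L2
    have h1 := pm_supp (F := fun p : Tor d M => q p ^ 2) (G := fun p => ker T'⁻¹ (ds p - l))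
      (c := 32 * T') (κ := 4 * l) (fun p _ => (hqw2 p).trans (w2_sq_le hT'0 _)) (fun p hp => by
        show q p ^ 2 ≤ 0
        rw [hq0 p hp]
        norm_num)
    refine h1.trans ?_
    calc 32 * T' * pm (fun p : Tor d M => if ds p ≤ 4 * l then ker T'⁻¹ (ds p - l) else 0) ≤
        32 * T' * (CD * 4 ^ d * D₀) := mul_le_mul_of_nonneg_left hDk
          (mul_nonneg (by norm_num) hT'0.le)
      _ = 32 * (CD * 4 ^ d) * (T' * D₀) := by ring
      _ ≤ A * (T' * D₀) := by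
          apply mul_le_mul_of_nonneg_right _ (mul_nonneg hT'0.le hD₀0.le)
          rw [hA]
          linarith only [hCD4, hCS4, hC0, hWc]
      _ = A * T' * D₀ := by ring
  · -- X2
    have h1 := pm_supp (F := fun p : Tor d M => q p ^ 2 * |ds p - l|)
      (G := fun p => ker T'⁻¹ (ds p - l)) (c := 32) (κ := 4 * l)
      (fun p _ => (mul_le_mul_of_nonneg_right (hqw2 p) (abs_nonneg _)).trans
        (w2_sq_abs_le hT'0 _)) (fun p hp => by
        show q p ^ 2 * |ds p - l| ≤ 0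
        rw [hq0 p hp]
        norm_num)
    refine h1.trans ?_
    calc 32 * pm (fun p : Tor d M => if ds p ≤ 4 * l then ker T'⁻¹ (ds p - l) else 0) ≤
        32 * (CD * 4 ^ d * D₀) := mul_le_mul_of_nonneg_left hDk (by norm_num)
      _ = 32 * (CD * 4 ^ d) * D₀ := by ring
      _ ≤ A * D₀ := by
          apply mul_le_mul_of_nonneg_right _ hD₀0.le
          rw [hA]
          linarith only [hCD4, hCS4, hC0, hWc]
  · -- X1
    have h1 := pm_supp (F := fun p : Tor d M => |q p * (ds p - l)|)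
      (G := fun p => (mt l T'⁻¹ p)⁻¹) (c := 8 / T') (κ := 4 * l)
      (fun p _ => by
        show |q p * (ds p - l)| ≤ 8 / T' * (mt l T'⁻¹ p)⁻¹
        refine le_trans ?_ (w2_mul_le hT'0 (ds p - l))
        rw [abs_mul, abs_mul]
        exact mul_le_mul_of_nonneg_right (hqw p) (abs_nonneg _)) (fun p hp => by
        show |q p * (ds p - l)| ≤ 0
        rw [hq0 p hp]
        norm_num)
    refine h1.trans ?_
    calc 8 / T' * pm (fun p : Tor d M => if ds p ≤ 4 * l then (mt l T'⁻¹ p)⁻¹ else 0) ≤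
        8 / T' * (CS * 4 ^ d * D₀ * (1 + Real.log T')) :=
          mul_le_mul_of_nonneg_left hDm (div_nonneg (by norm_num) hT'0.le)
      _ = 8 * (CS * 4 ^ d) * (D₀ * (1 + Real.log T') / T') := by ring
      _ ≤ A * (D₀ * (1 + Real.log T') / T') := by
          apply mul_le_mul_of_nonneg_right _
            (div_nonneg (mul_nonneg hD₀0.le hlog) hT'0.le)
          rw [hA]
          linarith only [hCD4, hCS4, hC0, hWc]
      _ = A * D₀ * (1 + Real.log T') / T' := by ring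
  · -- the kernel
    intro y hy
    obtain ⟨n, hn⟩ : ∃ n : Fin d → ℤ, n = fun j => (y j).valMinAbs := ⟨_, rfl⟩
    have hnR : ∀ j, |(n j : ℝ)| ≤ Rb := by
      intro j
      have h1 : (y j).valMinAbs.natAbs ≤ Rb := by
        refine le_trans ?_ hy
        unfold tds
        have h2 := Finset.le_sup (f := fun i : Fin d => (y i - (0 : Tor d M) i).valMinAbs.natAbs)
          (Finset.mem_univ j)
        have h3 : (y j - (0 : Tor d M) j) = y j := by
          show y j - 0 = y j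
          exact sub_zero _
        rw [h3] at h2
        exact h2
      rw [hn]
      show |(((y j).valMinAbs : ℤ) : ℝ)| ≤ Rb
      rw [← Int.cast_abs, Int.abs_eq_natAbs]
      exact_mod_cast h1
    have h1 := kernel_le (d := d) hr0 (by linarith only [hth, hth0]) hr2
      (by linarith only [hth, hth0, hpi3]) E hT'0
      (K := C / (Real.sqrt T' ^ (d - 1) * Real.sqrt l)) (fun m => by
        rw [hE]
        refine (hker T' hCT'l m).trans (le_of_eq ?_)
        ring) n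
    have hK2 := K2_le (D := d) (R := Rb) (by linarith only [hd']) hT'1 hc₁ hc₁1 hRb hK1
    have h2 := riemann (M := M) (G := fun x : Fin d → ℝ => G2 th0 r E T' n x)
      (K := 90 * (d : ℝ) ^ 2 * T' ^ 2 * (Rb + 1) / c₁) hK90 (fun x y =>
        (G2_lip hr0 hEd hT'0 hRb hnR x y).trans
          (mul_le_mul_of_nonneg_right hK2 (norm_nonneg _)))
      (fun x ⟨j, hj⟩ => by
        show G2 th0 r E T' n x = 0
        unfold G2
        rw [G_zero hr0 hrth hth2 E T' x
          ⟨j, hj.imp (fun h => h.le) (fun h => h)⟩, zero_mul, zero_mul])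
    have h3 := err_kernel (d := d) (R := Rb) hT'1 hl (by linarith only [hl2]) hc₁ hM hM2
    have h4 : (∑ p, ((q p * (ds p - l) : ℝ) : ℂ) * ec p y) / (M : ℂ) ^ d =
        -((∑ p : Fin d → ZMod M, G2 th0 r E T' n (an p)) / (M : ℂ) ^ d) := by
      rw [← neg_div, ← Finset.sum_neg_distrib]
      refine congrArg (fun x => x / (M : ℂ) ^ d) (Finset.sum_congr rfl ?_)
      intro p _
      unfold G2
      rw [hXE, ec_an, ← hn, Complex.ofReal_mul, hqG]
      push_cast
      ring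
    rw [h4, norm_neg]
    have h7 : ‖(∑ p : Fin d → ZMod M, G2 th0 r E T' n (an p)) / (M : ℂ) ^ d‖ ≤
        ‖((2 * Real.pi) ^ d)⁻¹ • ∫ x : Fin d → ℝ, G2 th0 r E T' n x‖ +
        ‖(∑ p : Fin d → ZMod M, G2 th0 r E T' n (an p)) / (M : ℂ) ^ d -
          ((2 * Real.pi) ^ d)⁻¹ • ∫ x : Fin d → ℝ, G2 th0 r E T' n x‖ := by
      obtain ⟨u, hu⟩ : ∃ u, u = (∑ p : Fin d → ZMod M, G2 th0 r E T' n (an p)) / (M : ℂ) ^ d :=
        ⟨_, rfl⟩
      obtain ⟨v, hv⟩ : ∃ v, v = ((2 * Real.pi) ^ d)⁻¹ • ∫ x : Fin d → ℝ, G2 th0 r E T' n x :=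
        ⟨_, rfl⟩
      rw [← hu, ← hv]
      have e1 : u = v + (u - v) := by ring
      conv_lhs => rw [e1]
      exact norm_add_le _ _
    have hsT : 0 < Real.sqrt T' := Real.sqrt_pos.2 hT'0
    have h8 : 2 / T' * (C / (Real.sqrt T' ^ (d - 1) * Real.sqrt l)) =
        2 * C / (Real.sqrt T' ^ (d + 1) * Real.sqrt l) := by
      rw [← sqrt_pow (le_trans (by norm_num) hd) hT'0]
      field_simp
    rw [h8] at h1
    have h9 : 2 * C / (Real.sqrt T' ^ (d + 1) * Real.sqrt l) +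
        1 / (Real.sqrt T' ^ (d + 1) * Real.sqrt l) =
        (2 * C + 1) / (Real.sqrt T' ^ (d + 1) * Real.sqrt l) := by
      rw [add_div]
    have h10 : (2 * C + 1) / (Real.sqrt T' ^ (d + 1) * Real.sqrt l) ≤
        A / (Real.sqrt T' ^ (d + 1) * Real.sqrt l) := by
      apply div_le_div_of_nonneg_right _ (mul_nonneg (pow_nonneg hsT.le _) hsl.le)
      rw [hA]
      linarith only [hCD4, hCS4, hWc, hC0]
    linarith only [h7, h1, h2, h3, h9, h10]

end Pool.Agent.LE.IR.H32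
end
end -- Pool.Agent.Helper32_LIR.TSE
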