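import Pool.Agent.Helper12_MEB.B075
import Pool.Agent.Helper12_MEB.B084
import Pool.Agent.Helper12_MEB.B116

/-!
# Merged copies (generated) of the modules

* `Pool.Agent.Helper76_LQD.RAL`
* `Pool.Agent.Helper65_LQD.STE`
* `Pool.Agent.Helper31_LQD.MEA`
* `Pool.Agent.Helper48_LSP.CLB1`
* `Pool.Agent.Helper48_LSP.CLB2`
* `Pool.Agent.Helper48_LSP.CLB`
* `Pool.Agent.Helper56_LIR.CLE1`
* `Pool.Agent.Helper56_LIR.CLE2`
* `Pool.Agent.Helper56_LIR.CLE3`
* `Pool.Agent.Helper56_LIR.CLE4`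
* `Pool.Agent.Helper72_LQD.CLS`
-/

set_option autoImplicit false

section -- Pool.Agent.Helper76_LQD.RAL

/-!
# Squad LQD, row RAL: algebra of the resolvent on the torus
-/

set_option autoImplicit false

open MeasureTheory ProbabilityTheory Function Filter

open scoped ENNReal BigOperators Topology NNReal ComplexOrder Matrix

noncomputable section

namespace Pool.Agent.LE.QD.H76

open Pool.Agent.Anderson hiding box mem_box card_box
open Pool.Agent.Loc Pool.Agent.Mob Pool.Agent.Helper54.Bal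
  Pool.Agent.Helper96.EXP Pool.Agent.BED
open Pool.Agent.LE.MN Pool.Agent.LE.CL Pool.Agent.LE.IR

section gen

variable {X : Type} [Fintype X] [DecidableEq X]

omit [DecidableEq X] in
theorem n2_nn (w : X → ℂ) : 0 ≤ n2 w := Finset.sum_nonneg fun _ _ => by positivity

omit [DecidableEq X] in
theorem im_zero {H : Matrix X X ℂ} (hH : ∀ x y, (starRingEnd ℂ) (H x y) = H y x) (w : X → ℂ) :
    (∑ x, (starRingEnd ℂ) (w x) * (H *ᵥ w) x).im = 0 := by
  rw [← Complex.conj_eq_iff_im]
  have e : ∀ x, (starRingEnd ℂ) (w x) * (H *ᵥ w) x =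
      ∑ y, (starRingEnd ℂ) (w x) * (H x y * w y) := by
    intro x
    rw [Matrix.mulVec, dotProduct, Finset.mul_sum]
  simp only [e, map_sum, map_mul, Complex.conj_conj, hH]
  rw [Finset.sum_comm]
  refine Finset.sum_congr rfl fun x _ => Finset.sum_congr rfl fun y _ => ?_
  ring

theorem low_bd {H : Matrix X X ℂ} (hH : ∀ x y, (starRingEnd ℂ) (H x y) = H y x) (z : ℂ)
    (w : X → ℂ) : z.im ^ 2 * n2 w ≤ n2 ((H - Matrix.diagonal fun _ => z) *ᵥ w) := by
  obtain ⟨u, hu⟩ : ∃ u, u = (H - Matrix.diagonal fun _ => z) *ᵥ w := ⟨_, rfl⟩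
  rw [← hu]
  have h1 : ∑ x, (starRingEnd ℂ) (w x) * u x =
      (∑ x, (starRingEnd ℂ) (w x) * (H *ᵥ w) x) - z * (n2 w : ℂ) := by
    unfold n2
    rw [Complex.ofReal_sum, Finset.mul_sum, ← Finset.sum_sub_distrib]
    refine Finset.sum_congr rfl fun x _ => ?_
    rw [hu, Matrix.sub_mulVec, Pi.sub_apply, Matrix.mulVec_diagonal, Complex.ofReal_pow,
      ← Complex.conj_mul']
    ring
  have h2 : (∑ x, (starRingEnd ℂ) (w x) * u x).im = -(z.im * n2 w) := by
    rw [h1, Complex.sub_im, im_zero hH w, Complex.mul_im, Complex.ofReal_re, Complex.ofReal_im]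
    ring
  have h3 : |z.im * n2 w| ≤ ∑ x, ‖w x‖ * ‖u x‖ := by
    rw [← abs_neg, ← h2]
    refine (Complex.abs_im_le_norm _).trans ((norm_sum_le _ _).trans (le_of_eq ?_))
    refine Finset.sum_congr rfl fun x _ => ?_
    rw [norm_mul, RCLike.norm_conj]
  have h4 : (z.im * n2 w) ^ 2 ≤ n2 w * n2 u := by
    have h5 := Finset.sum_mul_sq_le_sq_mul_sq Finset.univ (fun x => ‖w x‖) (fun x => ‖u x‖)
    rw [← sq_abs]
    exact (pow_le_pow_left₀ (abs_nonneg _) h3 2).trans h5
  rcases (n2_nn w).eq_or_lt with h0 | h0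
  · rw [← h0, mul_zero]
    exact n2_nn u
  · have h6 : n2 w * (z.im ^ 2 * n2 w) ≤ n2 w * n2 u := by
      calc n2 w * (z.im ^ 2 * n2 w) = (z.im * n2 w) ^ 2 := by ring
        _ ≤ _ := h4
    exact le_of_mul_le_mul_left h6 h0

theorem unit_of {H : Matrix X X ℂ} (hH : ∀ x y, (starRingEnd ℂ) (H x y) = H y x) {z : ℂ}
    (hz : z.im ≠ 0) : IsUnit (H - Matrix.diagonal fun _ => z) := by
  rw [← Matrix.mulVec_injective_iff_isUnit]
  intro w w' h
  have h1 : (H - Matrix.diagonal fun _ => z) *ᵥ (w - w') = 0 := by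
    rw [Matrix.mulVec_sub]
    exact sub_eq_zero.2 h
  have h2 := low_bd hH z (w - w')
  rw [h1] at h2
  have h3 : n2 (0 : X → ℂ) = 0 := by simp [n2]
  rw [h3] at h2
  have h4 : n2 (w - w') ≤ 0 := by
    by_contra h5
    have := mul_pos (pow_pos (abs_pos.2 hz) 2) (not_le.1 h5)
    rw [sq_abs] at this
    linarith
  have h5 : n2 (w - w') = 0 := le_antisymm h4 (n2_nn _)
  unfold n2 at h5
  rw [Finset.sum_eq_zero_iff_of_nonneg fun _ _ => by positivity] at h5
  funext x
  have h6 := h5 x (Finset.mem_univ x)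
  rw [sq_eq_zero_iff, norm_eq_zero, Pi.sub_apply, sub_eq_zero] at h6
  exact h6

/-- the bound of the inverse -/
theorem inv_bd {H : Matrix X X ℂ} (hH : ∀ x y, (starRingEnd ℂ) (H x y) = H y x) {z : ℂ}
    (hz : z.im ≠ 0) (w : X → ℂ) :
    n2 ((H - Matrix.diagonal fun _ => z)⁻¹ *ᵥ w) ≤ n2 w / z.im ^ 2 := by
  have h1 := low_bd hH z ((H - Matrix.diagonal fun _ => z)⁻¹ *ᵥ w)
  rw [Matrix.mulVec_mulVec, Matrix.mul_nonsing_inv _
    ((Matrix.isUnit_iff_isUnit_det _).1 (unit_of hH hz)), Matrix.one_mulVec] at h1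
  rw [le_div_iff₀ (by positivity), mul_comm]
  exact h1

end gen

section tor

variable {d M : ℕ} [NeZero M]

/-- the Hamiltonian -/
def Hm (V : Tor d M → ℝ) : Matrix (Tor d M) (Tor d M) ℂ :=
  (adj d M).map (fun a : ℝ => (a : ℂ)) + Matrix.diagonal fun x => (V x : ℂ)

theorem hz_eq (V : Tor d M → ℝ) (z : ℂ) : hz V z = Hm V - Matrix.diagonal fun _ => z := by
  unfold hz Hm
  rw [add_sub_assoc, Matrix.diagonal_sub]

theorem hm_conj (V : Tor d M → ℝ) (x y : Tor d M) :
    (starRingEnd ℂ) (Hm V x y) = Hm V y x := by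
  unfold Hm
  rw [Matrix.add_apply, Matrix.add_apply, Matrix.map_apply, Matrix.map_apply, map_add,
    Complex.conj_ofReal, adj_symm x y]
  congr 1
  by_cases h : x = y
  · rw [h, Matrix.diagonal_apply_eq, Complex.conj_ofReal]
  · rw [Matrix.diagonal_apply_ne _ h, Matrix.diagonal_apply_ne _ (Ne.symm h), map_zero]

theorem hm_symm (V : Tor d M → ℝ) (x y : Tor d M) : Hm V x y = Hm V y x := by
  unfold Hm
  rw [Matrix.add_apply, Matrix.add_apply, Matrix.map_apply, Matrix.map_apply, adj_symm x y]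
  congr 1
  by_cases h : x = y
  · rw [h]
  · rw [Matrix.diagonal_apply_ne _ h, Matrix.diagonal_apply_ne _ (Ne.symm h)]

theorem hz_unit (V : Tor d M → ℝ) {z : ℂ} (hz0 : z.im ≠ 0) : IsUnit (hz V z).det := by
  rw [hz_eq]
  exact (Matrix.isUnit_iff_isUnit_det _).1 (unit_of (hm_conj V) hz0)

theorem mul_rs (V : Tor d M → ℝ) {z : ℂ} (hz0 : z.im ≠ 0) : hz V z * rs V z = 1 :=
  Matrix.mul_nonsing_inv _ (hz_unit V hz0)

theorem rs_mul (V : Tor d M → ℝ) {z : ℂ} (hz0 : z.im ≠ 0) : rs V z * hz V z = 1 :=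
  Matrix.nonsing_inv_mul _ (hz_unit V hz0)

theorem hz_transpose (V : Tor d M → ℝ) (z : ℂ) : (hz V z)ᵀ = hz V z := by
  rw [hz_eq, Matrix.transpose_sub, Matrix.diagonal_transpose]
  congr 1
  ext x y
  exact hm_symm V y x

theorem rs_symm (V : Tor d M → ℝ) (z : ℂ) (x y : Tor d M) : rs V z x y = rs V z y x := by
  have h : (rs V z)ᵀ = rs V z := by
    unfold rs
    rw [Matrix.transpose_nonsing_inv, hz_transpose]
  exact congrFun (congrFun h.symm x) y

theorem hz_conj (V : Tor d M → ℝ) (z : ℂ) : hz V ((starRingEnd ℂ) z) = (hz V z)ᴴ := by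
  rw [hz_eq, hz_eq, Matrix.conjTranspose_sub]
  congr 1
  · ext x y
    exact (hm_conj V y x).symm
  · rw [Matrix.diagonal_conjTranspose]
    rfl

theorem rs_conj (V : Tor d M → ℝ) (z : ℂ) : rs V ((starRingEnd ℂ) z) = (rs V z)ᴴ := by
  unfold rs
  rw [hz_conj, Matrix.conjTranspose_nonsing_inv]

theorem rs_bd (V : Tor d M → ℝ) {z : ℂ} (hz0 : z.im ≠ 0) (w : Tor d M → ℂ) :
    n2 (rs V z *ᵥ w) ≤ n2 w / z.im ^ 2 := by
  unfold rs
  rw [hz_eq]
  exact inv_bd (hm_conj V) hz0 w

theorem res_id (V V' : Tor d M → ℝ) {z z' : ℂ} (h : z.im ≠ 0) (h' : z'.im ≠ 0) :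
    rs V z - rs V' z' = rs V z * (hz V' z' - hz V z) * rs V' z' := by
  rw [mul_sub, sub_mul, rs_mul V h, one_mul, mul_assoc, mul_rs V' h', mul_one]

/-- (6) -/
theorem res_pot (V V' : Tor d M → ℝ) {z : ℂ} (h : z.im ≠ 0) : rs V z - rs V' z =
    -(rs V z * (Matrix.diagonal fun x => ((V x - V' x : ℝ) : ℂ)) * rs V' z) := by
  rw [res_id V V' h h]
  have e : hz V' z - hz V z = -(Matrix.diagonal fun x => ((V x - V' x : ℝ) : ℂ)) := by
    rw [hz_eq, hz_eq, sub_sub_sub_cancel_right]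
    unfold Hm
    rw [add_sub_add_left_eq_sub, Matrix.diagonal_sub, Matrix.diagonal_neg]
    congr 1
    funext x
    push_cast
    ring
  rw [e, mul_neg, neg_mul]

theorem res_en (V : Tor d M → ℝ) {z z' : ℂ} (h : z.im ≠ 0) (h' : z'.im ≠ 0) :
    rs V z - rs V z' = (z - z') • (rs V z * rs V z') := by
  rw [res_id V V h h']
  have e : hz V z' - hz V z = (z - z') • (1 : Matrix (Tor d M) (Tor d M) ℂ) := by
    rw [hz_eq, hz_eq, sub_sub_sub_cancel_left, Matrix.diagonal_sub, Matrix.smul_one_eq_diagonal]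
  rw [e, mul_smul_comm, mul_one, smul_mul_assoc]

/-- (5) -/
theorem row (V : Tor d M → ℝ) {z : ℂ} (h : 0 < z.im) (x : Tor d M) :
    ∑ y, ‖rs V z x y‖ ^ 2 = (rs V z x x).im / z.im := by
  have hc : ((starRingEnd ℂ) z).im ≠ 0 := by
    rw [Complex.conj_im]
    exact neg_ne_zero.2 h.ne'
  have h1 := congrFun (congrFun (res_en V h.ne' hc) x) x
  rw [rs_conj, Matrix.sub_apply, Matrix.smul_apply, Matrix.mul_apply,
    Matrix.conjTranspose_apply] at h1
  have h2 : ∑ y, rs V z x y * (rs V z)ᴴ y x = ((∑ y, ‖rs V z x y‖ ^ 2 : ℝ) : ℂ) := by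
    rw [Complex.ofReal_sum]
    refine Finset.sum_congr rfl fun y _ => ?_
    rw [Matrix.conjTranspose_apply, Complex.ofReal_pow, ← Complex.mul_conj']
    rfl
  rw [h2] at h1
  have h3 := congrArg Complex.im h1
  rw [eq_div_iff h.ne']
  simp only [Complex.sub_im, RCLike.star_def, Complex.conj_im, smul_eq_mul, Complex.mul_im,
    Complex.sub_re, Complex.conj_re, Complex.ofReal_re, Complex.ofReal_im] at h3
  linarith

/-- (7) -/
theorem transl (V : Tor d M → ℝ) (z : ℂ) (a x y : Tor d M) :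
    rs (tr a V) z x y = rs V z (a + x) (a + y) := by
  have h : hz (tr a V) z = (hz V z).submatrix (Equiv.addLeft a) (Equiv.addLeft a) := by
    ext x y
    rw [Matrix.submatrix_apply, hz_eq, hz_eq, Matrix.sub_apply, Matrix.sub_apply]
    unfold Hm
    rw [Matrix.add_apply, Matrix.add_apply, Matrix.map_apply, Matrix.map_apply]
    have e1 : adj d M x y = adj d M (Equiv.addLeft a x) (Equiv.addLeft a y) := by
      unfold adj
      rw [Matrix.of_apply, Matrix.of_apply]
      refine Finset.sum_congr rfl fun i _ => ?_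
      simp only [Equiv.coe_addLeft, add_assoc, add_sub_assoc, add_right_inj]
    rw [e1]
    by_cases hxy : x = y
    · rw [hxy, Matrix.diagonal_apply_eq, Matrix.diagonal_apply_eq, Matrix.diagonal_apply_eq,
        Matrix.diagonal_apply_eq]
      rfl
    · have hxy' : Equiv.addLeft a x ≠ Equiv.addLeft a y := fun h => hxy ((Equiv.addLeft a).injective h)
      rw [Matrix.diagonal_apply_ne _ hxy, Matrix.diagonal_apply_ne _ hxy,
        Matrix.diagonal_apply_ne _ hxy', Matrix.diagonal_apply_ne _ hxy']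
  unfold rs
  rw [h, Matrix.inv_submatrix_equiv]
  rfl

/-- columns -/
theorem mulVec_single' (A : Matrix (Tor d M) (Tor d M) ℂ) (y : Tor d M) :
    A *ᵥ Pi.single y 1 = fun x => A x y := by
  funext x
  rw [Matrix.mulVec_single_one]
  rfl

/-- (12) -/
theorem entry_bd (V : Tor d M → ℝ) {z : ℂ} (h : 0 < z.im) (x y : Tor d M) :
    ‖rs V z x y‖ ≤ 1 / z.im := by
  have h1 := rs_bd V h.ne' (Pi.single y 1)
  rw [mulVec_single'] at h1
  have h2 : n2 (Pi.single y 1 : Tor d M → ℂ) = 1 := by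
    unfold n2
    rw [Finset.sum_eq_single y]
    · rw [Pi.single_eq_same]
      simp
    · intro b _ hb
      rw [Pi.single_eq_of_ne hb]
      simp
    · intro hy
      exact absurd (Finset.mem_univ y) hy
  rw [h2] at h1
  have h3 : ‖rs V z x y‖ ^ 2 ≤ n2 (fun x => rs V z x y) :=
    Finset.single_le_sum (f := fun x => ‖rs V z x y‖ ^ 2) (fun _ _ => by positivity)
      (Finset.mem_univ x)
  have h4 : ‖rs V z x y‖ ^ 2 ≤ (1 / z.im) ^ 2 := by
    rw [div_pow, one_pow]
    exact h3.trans h1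
  exact (sq_le_sq₀ (norm_nonneg _) (by positivity)).1 h4

/-- (10) -/
theorem cont (z : ℂ) (h : z.im ≠ 0) (a b : Tor d M) :
    Continuous fun W : Tor d M → ℝ => rs W z a b := by
  have h1 : Continuous fun W : Tor d M → ℝ => hz W z := by
    unfold hz
    refine continuous_const.add (Continuous.matrix_diagonal ?_)
    refine continuous_pi fun x => ?_
    change Continuous fun W : Tor d M → ℝ => ((W x : ℝ) : ℂ) - z
    exact (Complex.continuous_ofReal.comp (continuous_apply x)).sub continuous_const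
  have h2 : (fun W : Tor d M → ℝ => rs W z a b) =
      fun W => (hz W z).det⁻¹ * (hz W z).adjugate a b := by
    funext W
    unfold rs
    rw [Matrix.inv_def, Ring.inverse_eq_inv', Matrix.smul_apply, smul_eq_mul]
  rw [h2]
  refine (h1.matrix_det.inv₀ fun W => (hz_unit W h).ne_zero).mul ?_
  exact h1.matrix_adjugate.matrix_elem a b

theorem n2_eq {X : Type} [Fintype X] (f : X → ℂ) :
    n2 f = ‖(WithLp.toLp 2 f : EuclideanSpace ℂ X)‖ ^ 2 := by
  rw [EuclideanSpace.norm_sq_eq]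
  rfl

/-- (8) -/
theorem mono (V : Tor d M → ℝ) (E η η₁ : ℝ) (x : Tor d M) (h : 0 < η) (h1 : η ≤ η₁) :
    (rs V ⟨E, η⟩ x x).im ≤ η₁ / η * (rs V ⟨E, η₁⟩ x x).im := by
  have h0 : 0 < η₁ := h.trans_le h1
  obtain ⟨z, hz⟩ : ∃ z : ℂ, z = ⟨E, η⟩ := ⟨_, rfl⟩
  obtain ⟨z₁, hz₁⟩ : ∃ z : ℂ, z = ⟨E, η₁⟩ := ⟨_, rfl⟩
  have hi : z.im = η := by rw [hz]
  have hi₁ : z₁.im = η₁ := by rw [hz₁]
  rw [← hz, ← hz₁]
  have hzi : z.im ≠ 0 := by rw [hi]; exact h.ne'
  have hzi₁ : z₁.im ≠ 0 := by rw [hi₁]; exact h0.ne'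
  obtain ⟨u, hu⟩ : ∃ u, u = rs V z₁ *ᵥ Pi.single x 1 := ⟨_, rfl⟩
  obtain ⟨g, hg⟩ : ∃ g, g = rs V z *ᵥ Pi.single x 1 := ⟨_, rfl⟩
  have e1 : g = u + (z - z₁) • (rs V z *ᵥ u) := by
    have e2 := congrArg (fun A => A *ᵥ (Pi.single x 1 : Tor d M → ℂ)) (res_en V hzi hzi₁)
    simp only [Matrix.sub_mulVec, Matrix.smul_mulVec, ← Matrix.mulVec_mulVec] at e2
    rw [← hu, ← hg] at e2
    rw [← e2]
    abel
  have e3 : ‖z - z₁‖ = η₁ - η := by
    have : z - z₁ = ((-(η₁ - η) : ℝ) : ℂ) * Complex.I := by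
      rw [hz, hz₁]
      apply Complex.ext <;> simp
    rw [this, norm_mul, Complex.norm_I, mul_one, Complex.norm_real, Real.norm_eq_abs, abs_neg,
      abs_of_nonneg (by linarith)]
  have e4 : ‖(WithLp.toLp 2 (rs V z *ᵥ u) : EuclideanSpace ℂ (Tor d M))‖ ≤
      ‖(WithLp.toLp 2 u : EuclideanSpace ℂ (Tor d M))‖ / η := by
    have e5 := rs_bd V hzi u
    rw [n2_eq, n2_eq, hi, ← div_pow] at e5
    exact (sq_le_sq₀ (norm_nonneg _) (by positivity)).1 e5
  have e6 : ‖(WithLp.toLp 2 g : EuclideanSpace ℂ (Tor d M))‖ ≤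
      η₁ / η * ‖(WithLp.toLp 2 u : EuclideanSpace ℂ (Tor d M))‖ := by
    have e7 : (WithLp.toLp 2 g : EuclideanSpace ℂ (Tor d M)) =
        WithLp.toLp 2 u + (z - z₁) • WithLp.toLp 2 (rs V z *ᵥ u) := by
      rw [e1]
      rfl
    rw [e7]
    refine (norm_add_le _ _).trans ?_
    rw [norm_smul, e3]
    have e8 : (η₁ - η) * ‖(WithLp.toLp 2 (rs V z *ᵥ u) : EuclideanSpace ℂ (Tor d M))‖ ≤
        (η₁ - η) * (‖(WithLp.toLp 2 u : EuclideanSpace ℂ (Tor d M))‖ / η) :=
      mul_le_mul_of_nonneg_left e4 (by linarith)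
    refine (add_le_add le_rfl e8).trans (le_of_eq ?_)
    field_simp
    ring
  have e9 : n2 g ≤ (η₁ / η) ^ 2 * n2 u := by
    rw [n2_eq, n2_eq, ← mul_pow]
    exact pow_le_pow_left₀ (norm_nonneg _) e6 2
  have hcol : ∀ (w : ℂ), 0 < w.im → n2 (rs V w *ᵥ Pi.single x 1) = (rs V w x x).im / w.im := by
    intro w hw
    rw [← row V hw x, mulVec_single']
    unfold n2
    refine Finset.sum_congr rfl fun y _ => ?_
    change ‖rs V w y x‖ ^ 2 = ‖rs V w x y‖ ^ 2
    rw [rs_symm V w y x]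
  rw [hg, hu, hcol z (by rw [hi]; exact h), hcol z₁ (by rw [hi₁]; exact h0), hi, hi₁] at e9
  have e10 : (rs V z x x).im = η * ((rs V z x x).im / η) := by field_simp
  rw [e10]
  calc η * ((rs V z x x).im / η) ≤ η * ((η₁ / η) ^ 2 * ((rs V z₁ x x).im / η₁)) :=
        mul_le_mul_of_nonneg_left e9 h.le
    _ = η₁ / η * (rs V z₁ x x).im := by field_simp

/-- (9) -/
theorem der (V : Tor d M → ℝ) {z : ℂ} (h : z.im ≠ 0) (x a b : Tor d M) :
    HasDerivAt (fun t : ℝ => rs (Function.update V x t) z a b)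
      (-(rs V z a x * rs V z x b)) (V x) := by
  have h1 : ∀ t : ℝ, rs (Function.update V x t) z a b - rs V z a b =
      -((t - V x : ℝ) : ℂ) * (rs (Function.update V x t) z a x * rs V z x b) := by
    intro t
    have e := congrFun (congrFun (res_pot (Function.update V x t) V h) a) b
    rw [Matrix.sub_apply, Matrix.neg_apply, Matrix.mul_assoc, Matrix.mul_apply] at e
    rw [e, Finset.sum_eq_single x]
    · rw [Matrix.diagonal_mul, Function.update_self]
      ring
    · intro y _ hy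
      rw [Matrix.diagonal_mul, Function.update_of_ne hy, sub_self]
      simp
    · intro hx
      exact absurd (Finset.mem_univ x) hx
  have hc : Continuous fun t : ℝ => -(rs (Function.update V x t) z a x * rs V z x b) := by
    have h2 : Continuous fun t : ℝ => rs (Function.update V x t) z a x :=
      (cont z h a x).comp (continuous_const.update x continuous_id)
    exact (h2.mul continuous_const).neg
  rw [hasDerivAt_iff_tendsto_slope]
  have h3 := (hc.tendsto (V x)).mono_left (nhdsWithin_le_nhds (s := {V x}ᶜ))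
  rw [Function.update_eq_self] at h3
  refine h3.congr' ?_
  filter_upwards [self_mem_nhdsWithin] with t ht
  have ht0 : ((t - V x : ℝ) : ℂ) ≠ 0 := by
    rw [Complex.ofReal_ne_zero]
    exact sub_ne_zero.2 ht
  rw [slope_def_module, Function.update_eq_self, h1 t, Complex.real_smul, Complex.ofReal_inv]
  field_simp

end tor

section four

variable {d M : ℕ} [NeZero M]

theorem md_ne : ((M : ℂ) ^ d) ≠ 0 := pow_ne_zero _ (Nat.cast_ne_zero.2 (NeZero.ne M))

/-- the exponentials are eigenvectors of the adjacency matrix -/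
theorem eig (ftb : FtbStmt) (p x : Tor d M) :
    ∑ y, ((adj d M x y : ℝ) : ℂ) * ec p y = (es p : ℂ) * ec p x := by
  obtain ⟨-, -, -, -, -, -, h7, h8, h9, -, -, -⟩ := ftb d M
  obtain ⟨f, hf⟩ := h8 fun q => if q = p then (M : ℂ) ^ d else 0
  have e1 : f = fun x => ec p x := by
    funext x
    rw [h7 f x]
    simp only [hf, mul_ite, mul_zero, Finset.sum_ite_eq', Finset.mem_univ, if_true]
    rw [mul_div_assoc, div_self md_ne, mul_one]
  rw [e1] at hf
  obtain ⟨g, hg⟩ : ∃ g : Tor d M → ℂ, g = fun x => ∑ i : Fin d,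
      (2 * ec p x - ec p (x + ev i) - ec p (x - ev i)) := ⟨_, rfl⟩
  have e2 : ∀ q, ft g q = (ds p : ℂ) * ft (fun x => ec p x) q := by
    intro q
    rw [hg]
    refine (h9 (fun x => ec p x) q).trans ?_
    rw [hf q]
    by_cases hq : q = p
    · rw [hq]
    · rw [if_neg hq, mul_zero, mul_zero]
  have e3 : g x = (ds p : ℂ) * ec p x := by
    rw [h7 g x, h7 (fun x => ec p x) x]
    simp only [e2]
    rw [← mul_div_assoc, Finset.mul_sum]
    congr 1
    exact Finset.sum_congr rfl fun q _ => by ring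
  have e4 : ∑ y, ((adj d M x y : ℝ) : ℂ) * ec p y =
      ∑ i : Fin d, (ec p (x + ev i) + ec p (x - ev i)) := by
    unfold adj
    simp only [Matrix.of_apply]
    push_cast
    simp only [Finset.sum_mul]
    rw [Finset.sum_comm]
    refine Finset.sum_congr rfl fun i _ => ?_
    have hite : ∀ (P : Prop) [Decidable P] (c : ℂ),
        ((if P then (1 : ℝ) else 0 : ℝ) : ℂ) * c = if P then c else 0 := by
      intro P _ c
      split_ifs <;> simp
    simp only [add_mul, hite, Finset.sum_add_distrib, Finset.sum_ite_eq', Finset.mem_univ,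
      if_true]
  rw [e4]
  have e5 : g x = 2 * d * ec p x - ∑ i : Fin d, (ec p (x + ev i) + ec p (x - ev i)) := by
    rw [hg]
    have : (2 * d * ec p x : ℂ) = ∑ _i : Fin d, 2 * ec p x := by
      rw [Finset.sum_const, Finset.card_univ, Fintype.card_fin, nsmul_eq_mul]
      ring
    rw [this, ← Finset.sum_sub_distrib]
    exact Finset.sum_congr rfl fun i _ => by ring
  rw [e3] at e5
  have e6 : ((es p : ℝ) : ℂ) = 2 * d - (ds p : ℂ) := by
    unfold es
    push_cast
    ring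
  rw [e6, sub_mul, e5]
  ring

/-- (11) -/
theorem free (ftb : FtbStmt) {z : ℂ} (hz0 : z.im ≠ 0) (x y : Tor d M) :
    rs (0 : Tor d M → ℝ) z x y =
      (∑ p, ec p (x - y) / ((es p : ℂ) - z)) / (M : ℂ) ^ d := by
  obtain ⟨-, h2, -, h4, -, -, h7, -, -, -, -, -⟩ := ftb d M
  obtain ⟨B, hB⟩ : ∃ B : Matrix (Tor d M) (Tor d M) ℂ, B = Matrix.of fun x y =>
      (∑ p, ec p (x - y) / ((es p : ℂ) - z)) / (M : ℂ) ^ d := ⟨_, rfl⟩
  have hBa : ∀ x y, B x y = (∑ p, ec p (x - y) / ((es p : ℂ) - z)) / (M : ℂ) ^ d := by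
    intro x y
    rw [hB, Matrix.of_apply]
  have hne : ∀ p : Tor d M, (es p : ℂ) - z ≠ 0 := by
    intro p h
    have := congrArg Complex.im h
    simp only [Complex.sub_im, Complex.ofReal_im, Complex.zero_im, zero_sub] at this
    exact hz0 (neg_eq_zero.1 this)
  have h1 : hz (0 : Tor d M → ℝ) z * B = 1 := by
    ext x y
    rw [hz_eq, sub_mul, Matrix.sub_apply, Matrix.diagonal_mul]
    have e1 : (Hm (0 : Tor d M → ℝ) * B) x y =
        (∑ p, (es p : ℂ) * (ec p (x - y) / ((es p : ℂ) - z))) / (M : ℂ) ^ d := by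
      have e2 : Hm (0 : Tor d M → ℝ) = (adj d M).map (fun a : ℝ => (a : ℂ)) := by
        unfold Hm
        have : (Matrix.diagonal fun x : Tor d M => (((0 : Tor d M → ℝ) x : ℝ) : ℂ)) = 0 := by
          ext i j
          simp [Matrix.diagonal_apply]
        rw [this, add_zero]
      rw [e2, Matrix.mul_apply]
      simp only [Matrix.map_apply, hBa]
      have e3 : ∀ w, ((adj d M x w : ℝ) : ℂ) *
          ((∑ p, ec p (w - y) / ((es p : ℂ) - z)) / (M : ℂ) ^ d) =
          (∑ p, (((adj d M x w : ℝ) : ℂ) * ec p w) * (ec p (-y) / ((es p : ℂ) - z))) /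
            (M : ℂ) ^ d := by
        intro w
        rw [← mul_div_assoc, Finset.mul_sum]
        congr 1
        refine Finset.sum_congr rfl fun p _ => ?_
        rw [sub_eq_add_neg, h2]
        ring
      simp only [e3]
      rw [← Finset.sum_div, Finset.sum_comm]
      congr 1
      refine Finset.sum_congr rfl fun p _ => ?_
      rw [← Finset.sum_mul, eig ftb p x, sub_eq_add_neg x y, h2]
      ring
    rw [e1, hBa, ← mul_div_assoc, ← sub_div, Finset.mul_sum, ← Finset.sum_sub_distrib]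
    have e4 : ∑ p, ((es p : ℂ) * (ec p (x - y) / ((es p : ℂ) - z)) -
        z * (ec p (x - y) / ((es p : ℂ) - z))) =
        ∑ p, ec p x * (starRingEnd ℂ) (ec p y) := by
      refine Finset.sum_congr rfl fun p _ => ?_
      rw [← sub_mul, mul_div_cancel₀ _ (hne p), sub_eq_add_neg x y, h2, (h4 p y).2]
    rw [e4]
    have e5 := h7 (Pi.single y 1) x
    have e6 : ∀ p, ft (Pi.single y 1 : Tor d M → ℂ) p = (starRingEnd ℂ) (ec p y) := by
      intro p
      unfold ft
      rw [Finset.sum_eq_single y]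
      · rw [Pi.single_eq_same, mul_one]
      · intro b _ hb
        rw [Pi.single_eq_of_ne hb, mul_zero]
      · intro hy
        exact absurd (Finset.mem_univ y) hy
    simp only [e6] at e5
    rw [← e5, Matrix.one_apply, Pi.single_apply]
  have h3 : rs (0 : Tor d M → ℝ) z = B := Matrix.inv_eq_right_inv h1
  rw [h3, hBa]

end four

/-- RAL -/
theorem ral (ftb : FtbStmt) : RalStmt := by
  intro d M _ V z hz0
  refine ⟨⟨mul_rs V hz0.ne', rs_mul V hz0.ne'⟩, rs_symm V z, ?_, ?_, row V hz0, ?_,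
    transl V z, ?_, der V hz0.ne', cont z hz0.ne', free ftb hz0.ne', entry_bd V hz0⟩
  · intro x y
    rw [rs_conj, Matrix.conjTranspose_apply, rs_symm V z y x]
    rfl
  · intro w
    refine ⟨rs_bd V hz0.ne' w, ?_⟩
    rw [← rs_conj]
    have h := rs_bd V (z := (starRingEnd ℂ) z) (by
      rw [Complex.conj_im]
      exact neg_ne_zero.2 hz0.ne') w
    rw [Complex.conj_im, neg_sq] at h
    exact h
  · intro V'
    exact res_pot V V' hz0.ne'
  · intro E η η₁ x h h1
    exact mono V E η η₁ x h h1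

end Pool.Agent.LE.QD.H76
end
end -- Pool.Agent.Helper76_LQD.RAL

section -- Pool.Agent.Helper65_LQD.STE

/-!
Squad LQD, row STE: Gaussian integration by parts (bounded complex functions, variance `v`).
-/

set_option autoImplicit false

open MeasureTheory ProbabilityTheory Function Filter

open scoped ENNReal BigOperators Topology NNReal

noncomputable section

namespace Pool.Agent.LE.QD.H65

variable {v : ℝ≥0}

theorem hd_pdf (hv : v ≠ 0) (t : ℝ) :
    HasDerivAt (gaussianPDFReal 0 v) (-(t / v) * gaussianPDFReal 0 v t) t := by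
  have hv' : (v : ℝ) ≠ 0 := by exact_mod_cast hv
  have h1 : gaussianPDFReal 0 v =
      fun t => (√(2 * Real.pi * v))⁻¹ * Real.exp (-t ^ 2 / (2 * v)) := by
    funext t
    simp [gaussianPDFReal]
  rw [h1]
  have h2 : HasDerivAt (fun t : ℝ => -t ^ 2 / (2 * v)) (-(t / v)) t := by
    have h3 := ((hasDerivAt_pow 2 t).neg).div_const (2 * (v : ℝ))
    have h4 : -((2 : ℕ) * t ^ (2 - 1)) / (2 * (v : ℝ)) = -(t / v) := by
      norm_num
      field_simp
    rw [h4] at h3
    exact h3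
  have h3 := (h2.exp).const_mul ((√(2 * Real.pi * v))⁻¹)
  have h4 : (√(2 * Real.pi * v))⁻¹ * (Real.exp (-t ^ 2 / (2 * v)) * -(t / v)) =
      -(t / v) * ((√(2 * Real.pi * v))⁻¹ * Real.exp (-t ^ 2 / (2 * v))) := by ring
  rw [h4] at h3
  exact h3

theorem int_bdd {f : ℝ → ℂ} (hf : Continuous f) {B : ℝ} (hb : ∀ t, ‖f t‖ ≤ B) :
    Integrable f (gaussianReal 0 v) :=
  (integrable_const B).mono' hf.aestronglyMeasurable (ae_of_all _ hb)

theorem int_abs : Integrable (fun t : ℝ => |t|) (gaussianReal 0 v) := by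
  have h1 : MemLp (fun t : ℝ => t) 1 (gaussianReal 0 v) :=
    memLp_id_gaussianReal' 1 (by simp)
  exact (memLp_one_iff_integrable.1 h1).abs

theorem int_mul {f : ℝ → ℂ} (hf : Continuous f) {B : ℝ} (hb : ∀ t, ‖f t‖ ≤ B) :
    Integrable (fun t : ℝ => (t : ℂ) * f t) (gaussianReal 0 v) := by
  refine (int_abs.mul_const B).mono'
    ((Complex.continuous_ofReal.mul hf).aestronglyMeasurable) (ae_of_all _ fun t => ?_)
  rw [norm_mul, Complex.norm_real, Real.norm_eq_abs]
  exact mul_le_mul_of_nonneg_left (hb t) (abs_nonneg t)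

theorem int_pdf (hv : v ≠ 0) {f : ℝ → ℂ} (hf : Integrable f (gaussianReal 0 v)) :
    Integrable (fun t => ((gaussianPDFReal 0 v t : ℝ) : ℂ) * f t) := by
  rw [gaussianReal_of_var_ne_zero _ hv] at hf
  rw [integrable_withDensity_iff_integrable_smul' (measurable_gaussianPDF 0 v)
    (ae_of_all _ fun t => ENNReal.ofReal_lt_top)] at hf
  refine hf.congr (ae_of_all _ fun t => ?_)
  change (gaussianPDF 0 v t).toReal • f t = _
  rw [gaussianPDF, ENNReal.toReal_ofReal (gaussianPDFReal_nonneg 0 v t), Complex.real_smul]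

/-- one variable -/
theorem ste1 (hv : v ≠ 0) {f f' : ℝ → ℂ} (hf : ∀ t, HasDerivAt f (f' t) t)
    (hf' : Continuous f') {B : ℝ} (hb : ∀ t, ‖f t‖ ≤ B) (hb' : ∀ t, ‖f' t‖ ≤ B) :
    ∫ t, (t : ℂ) * f t ∂(gaussianReal 0 v) = v * ∫ t, f' t ∂(gaussianReal 0 v) := by
  have hv' : (v : ℝ) ≠ 0 := by exact_mod_cast hv
  have hvC : ((v : ℝ) : ℂ) ≠ 0 := by exact_mod_cast hv'
  have hfc : Continuous f := continuous_iff_continuousAt.2 fun t => (hf t).continuousAt
  have j1 := int_pdf hv (int_bdd (v := v) hfc hb)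
  have j2 := int_pdf hv (int_bdd (v := v) hf' hb')
  have j3 := int_pdf hv (int_mul (v := v) hfc hb)
  rw [integral_gaussianReal_eq_integral_smul hv, integral_gaussianReal_eq_integral_smul hv]
  simp only [Complex.real_smul]
  have h := integral_mul_deriv_eq_deriv_mul_of_integrable (u := f) (u' := f')
    (v := fun t => ((gaussianPDFReal 0 v t : ℝ) : ℂ))
    (v' := fun t => ((-(t / v) * gaussianPDFReal 0 v t : ℝ) : ℂ))
    (fun x _ => hf x) (fun x _ => (hd_pdf hv x).ofReal_comp) ?_ ?_ ?_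
  · have e1 : ∫ t, f t * ((-(t / v) * gaussianPDFReal 0 v t : ℝ) : ℂ) =
        -((v : ℂ)⁻¹ * ∫ t, ((gaussianPDFReal 0 v t : ℝ) : ℂ) * ((t : ℂ) * f t)) := by
      rw [← integral_const_mul, ← integral_neg]
      refine integral_congr_ae (ae_of_all _ fun t => ?_)
      push_cast
      ring
    have e2 : ∫ t, f' t * ((gaussianPDFReal 0 v t : ℝ) : ℂ) =
        ∫ t, ((gaussianPDFReal 0 v t : ℝ) : ℂ) * f' t := by
      refine integral_congr_ae (ae_of_all _ fun t => ?_)
      exact mul_comm _ _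
    rw [e1, e2, neg_inj] at h
    rw [← h, ← mul_assoc, mul_inv_cancel₀ hvC, one_mul]
  · refine (j3.const_mul (-(v : ℂ)⁻¹)).congr (ae_of_all _ fun t => ?_)
    simp only [Pi.mul_apply]
    push_cast
    ring
  · refine j2.congr (ae_of_all _ fun t => ?_)
    simp only [Pi.mul_apply]
    ring
  · refine j1.congr (ae_of_all _ fun t => ?_)
    simp only [Pi.mul_apply]
    ring

theorem ste : SteStmt := by
  intro ι _ _ v x F F' B hF hF' hb hb' hd
  have hmp := Pool.Agent.Loc.resample (n := ι) (ν := gaussianReal 0 v) x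
  have hev := measurePreserving_eval (fun _ : ι => gaussianReal 0 v) x
  by_cases hv : v = 0
  · subst hv
    have h1 : ∀ᵐ V ∂(Measure.pi fun _ : ι => gaussianReal 0 0), V x = 0 := by
      have h2 : ∀ᵐ t ∂(gaussianReal 0 0), t = 0 := by
        rw [gaussianReal_zero_var]
        rw [ae_dirac_eq]
        rfl
      exact hev.quasiMeasurePreserving.ae h2
    have h3 : ∫ V, (V x : ℂ) * F V ∂(Measure.pi fun _ : ι => gaussianReal 0 0) = 0 := by
      rw [← integral_zero (α := ι → ℝ) (μ := Measure.pi fun _ : ι => gaussianReal 0 0)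
        (G := ℂ)]
      refine integral_congr_ae (h1.mono fun V hV => ?_)
      change (V x : ℂ) * F V = 0
      rw [hV, Complex.ofReal_zero, zero_mul]
    rw [h3]
    simp
  have e1 : ∀ G : (ι → ℝ) → ℂ, Continuous G →
      Integrable G (Measure.pi fun _ : ι => gaussianReal 0 v) →
      ∫ V, G V ∂(Measure.pi fun _ : ι => gaussianReal 0 v) =
        ∫ V, ∫ t, G (update V x t) ∂(gaussianReal 0 v)
          ∂(Measure.pi fun _ : ι => gaussianReal 0 v) := by
    intro G hG hint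
    have h1 : Integrable (fun z : (ι → ℝ) × ℝ => G (update z.1 x z.2))
        ((Measure.pi fun _ : ι => gaussianReal 0 v).prod (gaussianReal 0 v)) :=
      hmp.integrable_comp_of_integrable hint
    rw [← integral_prod (fun z : (ι → ℝ) × ℝ => G (update z.1 x z.2)) h1]
    have h2 := hmp.map_eq
    conv_lhs => rw [← h2]
    rw [integral_map hmp.measurable.aemeasurable]
    rw [h2]
    exact hG.aestronglyMeasurable
  have i1 : Integrable (fun V : ι → ℝ => (V x : ℂ) * F V)
      (Measure.pi fun _ : ι => gaussianReal 0 v) := by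
    have h1 : Integrable (fun V : ι → ℝ => |V x|) (Measure.pi fun _ : ι => gaussianReal 0 v) :=
      hev.integrable_comp_of_integrable int_abs
    refine (h1.mul_const B).mono' ?_ (ae_of_all _ fun V => ?_)
    · exact ((Complex.continuous_ofReal.comp (continuous_apply x)).mul hF).aestronglyMeasurable
    · rw [norm_mul, Complex.norm_real, Real.norm_eq_abs]
      exact mul_le_mul_of_nonneg_left (hb V) (abs_nonneg _)
  have i2 : Integrable F' (Measure.pi fun _ : ι => gaussianReal 0 v) :=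
    (integrable_const B).mono' hF'.aestronglyMeasurable (ae_of_all _ hb')
  rw [e1 (fun V => (V x : ℂ) * F V)
    ((Complex.continuous_ofReal.comp (continuous_apply x)).mul hF) i1, e1 _ hF' i2,
    ← integral_const_mul]
  refine integral_congr_ae (ae_of_all _ fun V => ?_)
  simp only [update_self]
  have hu : Continuous fun t : ℝ => update V x t := continuous_const.update x continuous_id
  refine ste1 hv (fun t => ?_) (hF'.comp hu) (fun t => hb _) (fun t => hb' _)
  have h1 := hd (update V x t)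
  simp only [update_idem, update_self] at h1
  exact h1

end Pool.Agent.LE.QD.H65
end
end -- Pool.Agent.Helper65_LQD.STE

section -- Pool.Agent.Helper31_LQD.MEA

/-!
# LQD, row MEA: the mean of the resolvent
-/

set_option autoImplicit false

open MeasureTheory ProbabilityTheory Function Filter

open scoped ENNReal BigOperators Topology NNReal ComplexOrder Matrix

noncomputable section

namespace Pool.Agent.LE.QD.H31

open Pool.Agent.Anderson hiding box mem_box card_box
open Pool.Agent.Loc Pool.Agent.Mob Pool.Agent.Helper54.Bal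
  Pool.Agent.Helper96.EXP Pool.Agent.BED
open Pool.Agent.LE.MN Pool.Agent.LE.CL Pool.Agent.LE.IR
open Pool.Agent.LE.IR.H54 (ec_norm ec_add ec_comm ec_add_left ec_zero ec_neg ec_neg_left ec_sub ftb)

variable {d M : ℕ} [NeZero M]

theorem entry (V : Tor d M → ℝ) {z : ℂ} (hz0 : 0 < z.im) (x y : Tor d M) :
    (V x : ℂ) * rs V z x y =
      (if x = y then 1 else 0) - (∑ w, ((adj d M x w : ℝ) : ℂ) * rs V z w y) + z * rs V z x y := by
  have h1 := congrFun (congrFun (H76.mul_rs V hz0.ne') x) y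
  rw [Matrix.one_apply, Matrix.mul_apply] at h1
  have h2 : ∀ w, hz V z x w * rs V z w y =
      ((adj d M x w : ℝ) : ℂ) * rs V z w y +
        (if x = w then ((V x : ℂ) - z) * rs V z w y else 0) := by
    intro w
    unfold hz
    rw [Matrix.add_apply, Matrix.map_apply, Matrix.diagonal_apply, add_mul]
    congr 1
    by_cases h : x = w
    · rw [if_pos h, if_pos h]
    · rw [if_neg h, if_neg h, zero_mul]
  simp only [h2, Finset.sum_add_distrib, Finset.sum_ite_eq, Finset.mem_univ, if_true] at h1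
  rw [← h1]
  ring

theorem prob (v : ℝ≥0) : IsProbabilityMeasure (gau d M v) := by unfold gau; infer_instance

theorem inte (v : ℝ≥0) {z : ℂ} (hz0 : 0 < z.im) (x y : Tor d M) :
    Integrable (fun V : Tor d M → ℝ => rs V z x y) (gau d M v) := by
  have := prob (d := d) (M := M) v
  refine (integrable_const (1 / z.im)).mono' (H76.cont z hz0.ne' x y).aestronglyMeasurable ?_
  exact Eventually.of_forall fun V => H76.entry_bd V hz0 x y

theorem inte2 (v : ℝ≥0) {z : ℂ} (hz0 : 0 < z.im) (a b x y : Tor d M) :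
    Integrable (fun V : Tor d M → ℝ => rs V z a b * rs V z x y) (gau d M v) := by
  have := prob (d := d) (M := M) v
  refine (integrable_const ((1 / z.im) * (1 / z.im))).mono'
    ((H76.cont z hz0.ne' a b).mul (H76.cont z hz0.ne' x y)).aestronglyMeasurable ?_
  refine Eventually.of_forall fun V => ?_
  rw [norm_mul]
  exact mul_le_mul (H76.entry_bd V hz0 a b) (H76.entry_bd V hz0 x y) (norm_nonneg _)
    (by positivity)

/-- translation invariance of the measure, for continuous functions -/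
theorem inv_tr {E : Type*} [NormedAddCommGroup E] [NormedSpace ℝ E] (v : ℝ≥0) (a : Tor d M)
    (F : (Tor d M → ℝ) → E) (hF : AEStronglyMeasurable F (gau d M v)) :
    ∫ V, F (tr a V) ∂(gau d M v) = ∫ V, F V ∂(gau d M v) := by
  have hmp : MeasurePreserving (tr a) (gau d M v) (gau d M v) :=
    (Pool.Agent.BED.H61.cov d M 0 0 a).2.2.2.2.2 v
  have h := integral_map (μ := gau d M v) (φ := tr a) hmp.measurable.aemeasurable
    (f := F) (by rw [hmp.map_eq]; exact hF)
  rw [hmp.map_eq] at h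
  exact h.symm

/-- the mean of the resolvent depends on the difference -/
theorem mean_tr (v : ℝ≥0) {z : ℂ} (hz0 : 0 < z.im) (a x y : Tor d M) :
    ∫ V, rs V z (a + x) (a + y) ∂(gau d M v) = ∫ V, rs V z x y ∂(gau d M v) := by
  rw [← inv_tr v a (fun V => rs V z x y) (inte v hz0 x y).aestronglyMeasurable]
  refine integral_congr_ae (Eventually.of_forall fun V => ?_)
  exact (H76.transl V z a x y).symm

/-- the equation for the mean -/
theorem mean_eq (ste : SteStmt) (v : ℝ≥0) {z : ℂ} (hz0 : 0 < z.im) (x y : Tor d M) :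
    (∑ w, ((adj d M x w : ℝ) : ℂ) * ∫ V, rs V z w y ∂(gau d M v)) -
      z * ∫ V, rs V z x y ∂(gau d M v) =
      (if x = y then 1 else 0) + v * ∫ V, rs V z x x * rs V z x y ∂(gau d M v) := by
  have := prob (d := d) (M := M) v
  have hη : 0 < z.im := hz0
  have h1 := ste (Tor d M) v x (fun V => rs V z x y) (fun V => -(rs V z x x * rs V z x y))
    (1 / z.im + 1 / z.im * (1 / z.im)) (H76.cont z hz0.ne' x y)
    ((H76.cont z hz0.ne' x x).mul (H76.cont z hz0.ne' x y)).neg
    (fun V => (H76.entry_bd V hz0 x y).trans (by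
      have : 0 ≤ 1 / z.im * (1 / z.im) := by positivity
      linarith))
    (fun V => by
      rw [norm_neg, norm_mul]
      have h2 := mul_le_mul (H76.entry_bd V hz0 x x) (H76.entry_bd V hz0 x y) (norm_nonneg _)
        (by positivity)
      have : 0 ≤ 1 / z.im := by positivity
      linarith)
    (fun V => H76.der V hz0.ne' x x y)
  have h2 : ∫ V, (V x : ℂ) * rs V z x y ∂(gau d M v) =
      (if x = y then 1 else 0) - (∑ w, ((adj d M x w : ℝ) : ℂ) * ∫ V, rs V z w y ∂(gau d M v)) +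
        z * ∫ V, rs V z x y ∂(gau d M v) := by
    have e : (fun V : Tor d M → ℝ => (V x : ℂ) * rs V z x y) = fun V =>
        (if x = y then 1 else 0) - (∑ w, ((adj d M x w : ℝ) : ℂ) * rs V z w y) +
          z * rs V z x y := by
      funext V
      exact entry V hz0 x y
    rw [e]
    have i1 : Integrable (fun V : Tor d M → ℝ => ∑ w, ((adj d M x w : ℝ) : ℂ) * rs V z w y)
        (gau d M v) := integrable_finsetSum _ fun w _ => (inte v hz0 w y).const_mul _
    have i2 : Integrable (fun V : Tor d M → ℝ => z * rs V z x y) (gau d M v) :=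
      (inte v hz0 x y).const_mul _
    have i3 : Integrable (fun V : Tor d M → ℝ => (if x = y then (1 : ℂ) else 0) -
        ∑ w, ((adj d M x w : ℝ) : ℂ) * rs V z w y) (gau d M v) := (integrable_const _).sub i1
    rw [integral_add i3 i2, integral_sub (integrable_const _) i1,
      integral_const, integral_finsetSum _ (fun w _ => (inte v hz0 w y).const_mul _),
      integral_const_mul]
    simp only [integral_const_mul, probReal_univ, one_smul]
  have h3 : ∫ V, (V x : ℂ) * rs V z x y ∂(gau d M v) =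
      v * ∫ V, -(rs V z x x * rs V z x y) ∂(gau d M v) := h1
  rw [h2, integral_neg] at h3
  linear_combination -h3

/-- the value of the resolvent at the exponential -/
def ge (V : Tor d M → ℝ) (z : ℂ) (p x : Tor d M) : ℂ := ∑ y, rs V z x y * ec p y

theorem ge_tr (V : Tor d M → ℝ) (z : ℂ) (p a : Tor d M) :
    ge (tr a V) z p 0 = (starRingEnd ℂ) (ec p a) * ge V z p a := by
  unfold ge
  rw [Finset.mul_sum, ← Equiv.sum_comp (Equiv.addLeft a)
    (fun y => (starRingEnd ℂ) (ec p a) * (rs V z a y * ec p y))]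
  refine Finset.sum_congr rfl fun y _ => ?_
  rw [H76.transl, add_zero, Equiv.coe_addLeft, ec_add]
  have h : (starRingEnd ℂ) (ec p a) * ec p a = 1 := by
    rw [mul_comm, Complex.mul_conj, Complex.normSq_eq_norm_sq, ec_norm]
    norm_num
  linear_combination -(rs V z a (a + y) * ec p y) * h

theorem ge_norm (V : Tor d M → ℝ) (z : ℂ) (p a : Tor d M) :
    ‖ge (tr a V) z p 0‖ = ‖ge V z p a‖ := by
  rw [ge_tr, norm_mul, RCLike.norm_conj, ec_norm, one_mul]

theorem ge_cont {z : ℂ} (hz0 : 0 < z.im) (p x : Tor d M) :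
    Continuous fun V : Tor d M → ℝ => ge V z p x :=
  continuous_finsetSum _ fun y _ => (H76.cont z hz0.ne' x y).mul continuous_const

theorem ge_bd (V : Tor d M → ℝ) {z : ℂ} (hz0 : 0 < z.im) (p x : Tor d M) :
    ‖ge V z p x‖ ≤ (M : ℝ) ^ d * (1 / z.im) := by
  unfold ge
  refine (norm_sum_le _ _).trans ?_
  have : ∀ y ∈ (Finset.univ : Finset (Tor d M)), ‖rs V z x y * ec p y‖ ≤ 1 / z.im := by
    intro y _
    rw [norm_mul, ec_norm, mul_one]
    exact H76.entry_bd V hz0 x y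
  refine (Finset.sum_le_card_nsmul _ _ _ this).trans (le_of_eq ?_)
  rw [nsmul_eq_mul, Finset.card_univ, Fintype.card_fun, ZMod.card, Fintype.card_fin]
  push_cast
  ring

theorem ge_sq_int (v : ℝ≥0) {z : ℂ} (hz0 : 0 < z.im) (p x : Tor d M) :
    Integrable (fun V : Tor d M → ℝ => ‖ge V z p x‖ ^ 2) (gau d M v) := by
  have := prob (d := d) (M := M) v
  refine (integrable_const (((M : ℝ) ^ d * (1 / z.im)) ^ 2)).mono'
    ((ge_cont hz0 p x).norm.pow 2).aestronglyMeasurable ?_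
  refine Eventually.of_forall fun V => ?_
  rw [norm_pow, norm_norm]
  exact pow_le_pow_left₀ (norm_nonneg _) (ge_bd V hz0 p x) 2

theorem ge_mean (v : ℝ≥0) {z : ℂ} (hz0 : 0 < z.im) (p : Tor d M) :
    ∫ V, ‖ge V z p 0‖ ^ 2 ∂(gau d M v) ≤ 1 / z.im ^ 2 := by
  have := prob (d := d) (M := M) v
  have hM : (0 : ℝ) < (M : ℝ) ^ d := pow_pos (Nat.cast_pos.2 (NeZero.pos M)) d
  have h1 : ∀ x : Tor d M, ∫ V, ‖ge V z p x‖ ^ 2 ∂(gau d M v) =
      ∫ V, ‖ge V z p 0‖ ^ 2 ∂(gau d M v) := by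
    intro x
    rw [← inv_tr v x (fun V => ‖ge V z p 0‖ ^ 2) (ge_sq_int v hz0 p 0).aestronglyMeasurable]
    refine integral_congr_ae (Eventually.of_forall fun V => ?_)
    simp only [ge_norm]
  have hcard : ((Finset.univ : Finset (Tor d M)).card : ℝ) = (M : ℝ) ^ d := by
    rw [Finset.card_univ, Fintype.card_fun, ZMod.card, Fintype.card_fin]
    push_cast
    rfl
  have h2 : (M : ℝ) ^ d * ∫ V, ‖ge V z p 0‖ ^ 2 ∂(gau d M v) =
      ∫ V, ∑ x, ‖ge V z p x‖ ^ 2 ∂(gau d M v) := by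
    rw [integral_finsetSum _ fun x _ => ge_sq_int v hz0 p x]
    simp only [h1]
    rw [Finset.sum_const, nsmul_eq_mul, hcard]
  have h3 : ∀ V : Tor d M → ℝ, ∑ x, ‖ge V z p x‖ ^ 2 ≤ (M : ℝ) ^ d / z.im ^ 2 := by
    intro V
    have h4 := H76.rs_bd V hz0.ne' (fun y => ec p y)
    have h5 : n2 (fun y : Tor d M => ec p y) = (M : ℝ) ^ d := by
      unfold n2
      simp only [ec_norm, one_pow]
      rw [Finset.sum_const, nsmul_eq_mul, hcard, mul_one]
    rw [h5] at h4
    exact h4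
  have h4 : ∫ V, ∑ x, ‖ge V z p x‖ ^ 2 ∂(gau d M v) ≤ (M : ℝ) ^ d / z.im ^ 2 := by
    have h5 := integral_mono (integrable_finsetSum _ fun x _ => ge_sq_int v hz0 p x)
      (integrable_const ((M : ℝ) ^ d / z.im ^ 2)) h3 (μ := gau d M v)
    rw [integral_const, probReal_univ, one_smul] at h5
    exact h5
  rw [← h2] at h4
  have h5 : (M : ℝ) ^ d / z.im ^ 2 = (M : ℝ) ^ d * (1 / z.im ^ 2) := by ring
  rw [h5] at h4
  exact le_of_mul_le_mul_left h4 hM

/-- Cauchy-Schwarz -/
theorem cs {Ω : Type*} [MeasurableSpace Ω] (μ : Measure Ω) (a b : Ω → ℝ) (A B : ℝ)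
    (ha : Integrable (fun x => a x ^ 2) μ) (hb : Integrable (fun x => b x ^ 2) μ)
    (hab : Integrable (fun x => a x * b x) μ) (hA : 0 ≤ A) (hB : 0 < B)
    (h1 : ∫ x, a x ^ 2 ∂μ ≤ A ^ 2) (h2 : ∫ x, b x ^ 2 ∂μ ≤ B ^ 2) :
    ∫ x, a x * b x ∂μ ≤ A * B := by
  refine le_of_forall_pos_le_add fun ε hε => ?_
  obtain ⟨A', hA'⟩ : ∃ A', A' = A + ε / B := ⟨_, rfl⟩
  have hp : 0 < A' := by rw [hA']; positivity
  have h3 : ∫ x, a x * b x ∂μ ≤ ∫ x, (B / (2 * A') * a x ^ 2 + A' / (2 * B) * b x ^ 2) ∂μ := by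
    refine integral_mono hab ((ha.const_mul _).add (hb.const_mul _)) fun x => ?_
    have h4 : B / (2 * A') * a x ^ 2 + A' / (2 * B) * b x ^ 2 - a x * b x =
        (B * a x - A' * b x) ^ 2 / (2 * A' * B) := by
      field_simp
      ring
    have h5 : 0 ≤ (B * a x - A' * b x) ^ 2 / (2 * A' * B) := by positivity
    linarith
  rw [integral_add (ha.const_mul _) (hb.const_mul _), integral_const_mul, integral_const_mul] at h3
  have h4 : B / (2 * A') * ∫ x, a x ^ 2 ∂μ ≤ B / (2 * A') * A' ^ 2 := by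
    refine mul_le_mul_of_nonneg_left (h1.trans ?_) (by positivity)
    refine pow_le_pow_left₀ hA ?_ 2
    rw [hA']
    have : 0 ≤ ε / B := by positivity
    linarith
  have h5 : A' / (2 * B) * ∫ x, b x ^ 2 ∂μ ≤ A' / (2 * B) * B ^ 2 :=
    mul_le_mul_of_nonneg_left h2 (by positivity)
  have h6 : B / (2 * A') * A' ^ 2 + A' / (2 * B) * B ^ 2 = A' * B := by
    field_simp
    ring
  have h7 : A' * B = A * B + ε := by
    rw [hA']
    field_simp
  linarith

theorem mea' (ste : SteStmt) : MeaStmt := by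
  intro d M _ v z ζ δ hz0 hζ hδ hD
  have hprob := prob (d := d) (M := M) v
  have hmean := mean_eq ste v hz0 (d := d) (M := M)
  obtain ⟨g, hg⟩ : ∃ g, g = gb d M v z := ⟨_, rfl⟩
  rw [← hg] at hζ hD ⊢
  -- positivity of the imaginary part
  have hgim : 0 ≤ g.im := by
    have h1 : g.im = ∫ V, (rs V z 0 0).im ∂(gau d M v) := by
      rw [hg]
      unfold gb
      exact (integral_im (inte v hz0 0 0)).symm
    rw [h1]
    refine integral_nonneg fun V => ?_
    have h2 := H76.row V hz0 0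
    have h3 : 0 ≤ (rs V z 0 0).im / z.im := by
      rw [← h2]
      exact Finset.sum_nonneg fun _ _ => by positivity
    have h4 := mul_nonneg h3 hz0.le
    rwa [div_mul_cancel₀ _ hz0.ne'] at h4
  have hζim : 0 < ζ.im := by
    rw [hζ]
    have h1 : (z + (v : ℂ) * g).im = z.im + v * g.im := by
      simp [Complex.add_im, Complex.mul_im]
    rw [h1]
    have : 0 ≤ (v : ℝ) * g.im := mul_nonneg v.2 hgim
    linarith
  have hne : ∀ p : Tor d M, (es p : ℂ) - ζ ≠ 0 := by
    intro p h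
    have := congrArg Complex.im h
    simp only [Complex.sub_im, Complex.ofReal_im, Complex.zero_im, zero_sub] at this
    linarith
  obtain ⟨m, hm⟩ : ∃ m : Tor d M → Tor d M → ℂ, m = fun x y => ∫ V, rs V z x y ∂(gau d M v) :=
    ⟨_, rfl⟩
  have hm' : ∀ x y, ∫ V, rs V z x y ∂(gau d M v) = m x y := by
    intro x y
    rw [hm]
  have hmt : ∀ a x y, m (a + x) (a + y) = m x y := by
    intro a x y
    rw [← hm', ← hm', mean_tr v hz0]
  obtain ⟨lam, hlam⟩ : ∃ lam : Tor d M → ℂ, lam = fun p => ∑ y, ec p y * m 0 y := ⟨_, rfl⟩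
  obtain ⟨s, hs⟩ : ∃ s : Tor d M → ℂ, s = fun p =>
      (v : ℂ) * ∫ V, (rs V z 0 0 - g) * ge V z p 0 ∂(gau d M v) := ⟨_, rfl⟩
  have iG : ∀ p, Integrable (fun V : Tor d M → ℝ => ge V z p 0) (gau d M v) := by
    intro p
    unfold ge
    exact integrable_finsetSum _ fun y _ => (inte v hz0 0 y).mul_const _
  have iGG : ∀ p, Integrable (fun V : Tor d M → ℝ => rs V z 0 0 * ge V z p 0) (gau d M v) := by
    intro p
    have e : (fun V : Tor d M → ℝ => rs V z 0 0 * ge V z p 0) =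
        fun V => ∑ y, rs V z 0 0 * rs V z 0 y * ec p y := by
      funext V
      unfold ge
      rw [Finset.mul_sum]
      exact Finset.sum_congr rfl fun y _ => by ring
    rw [e]
    exact integrable_finsetSum _ fun y _ => (inte2 v hz0 0 0 0 y).mul_const _
  -- the equation for the symbol
  have key : ∀ p, ((es p : ℂ) - ζ) * lam p = 1 + s p := by
    intro p
    have e0 : ∀ w, ∑ y, ec p y * m w y = ec p w * lam p := by
      intro w
      rw [hlam, Finset.mul_sum, ← Equiv.sum_comp (Equiv.addLeft w) (fun y => ec p y * m w y)]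
      refine Finset.sum_congr rfl fun y _ => ?_
      have h := hmt w 0 y
      rw [add_zero] at h
      rw [Equiv.coe_addLeft, ec_add, h]
      ring
    have e1 : ∑ y, ec p y * ((∑ w, ((adj d M 0 w : ℝ) : ℂ) * m w y) - z * m 0 y) =
        ((es p : ℂ) - z) * lam p := by
      have e2 : ∑ y, ec p y * (∑ w, ((adj d M 0 w : ℝ) : ℂ) * m w y) =
          ∑ w, ((adj d M 0 w : ℝ) : ℂ) * (ec p w * lam p) := by
        simp only [Finset.mul_sum]
        rw [Finset.sum_comm]
        refine Finset.sum_congr rfl fun w _ => ?_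
        rw [← e0 w, Finset.mul_sum]
        exact Finset.sum_congr rfl fun y _ => by ring
      have e3 : ∑ w, ((adj d M 0 w : ℝ) : ℂ) * (ec p w * lam p) = (es p : ℂ) * lam p := by
        have h := H76.eig ftb p (0 : Tor d M)
        rw [ec_zero, mul_one] at h
        rw [← h, Finset.sum_mul]
        exact Finset.sum_congr rfl fun w _ => by ring
      have e4 : ∑ y, ec p y * (z * m 0 y) = z * lam p := by
        rw [hlam, Finset.mul_sum]
        exact Finset.sum_congr rfl fun y _ => by ring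
      simp only [mul_sub, Finset.sum_sub_distrib]
      rw [e2, e3, e4]
      ring
    have e5 : ∑ y, ec p y * ((∑ w, ((adj d M 0 w : ℝ) : ℂ) * m w y) - z * m 0 y) =
        1 + v * ∫ V, rs V z 0 0 * ge V z p 0 ∂(gau d M v) := by
      have e6 : ∀ y, (∑ w, ((adj d M 0 w : ℝ) : ℂ) * m w y) - z * m 0 y =
          (if (0 : Tor d M) = y then 1 else 0) +
            v * ∫ V, rs V z 0 0 * rs V z 0 y ∂(gau d M v) := by
        intro y
        have h := hmean 0 y
        simp only [hm'] at h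
        exact h
      simp only [e6, mul_add, Finset.sum_add_distrib]
      have e7 : ∑ y, ec p y * (if (0 : Tor d M) = y then (1 : ℂ) else 0) = 1 := by
        simp only [mul_ite, mul_one, mul_zero, Finset.sum_ite_eq, Finset.mem_univ, if_true]
        exact ec_zero p
      have e8 : ∑ y, ec p y * ((v : ℂ) * ∫ V, rs V z 0 0 * rs V z 0 y ∂(gau d M v)) =
          v * ∫ V, rs V z 0 0 * ge V z p 0 ∂(gau d M v) := by
        have e9 : ∫ V, rs V z 0 0 * ge V z p 0 ∂(gau d M v) =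
            ∑ y, ec p y * ∫ V, rs V z 0 0 * rs V z 0 y ∂(gau d M v) := by
          have e : (fun V : Tor d M → ℝ => rs V z 0 0 * ge V z p 0) =
              fun V => ∑ y, ec p y * (rs V z 0 0 * rs V z 0 y) := by
            funext V
            unfold ge
            rw [Finset.mul_sum]
            exact Finset.sum_congr rfl fun y _ => by ring
          rw [e, integral_finsetSum _ fun y _ => (inte2 v hz0 0 0 0 y).const_mul _]
          simp only [integral_const_mul]
        rw [e9, Finset.mul_sum]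
        exact Finset.sum_congr rfl fun y _ => by ring
      rw [e7, e8]
    have e10 : s p = v * ∫ V, rs V z 0 0 * ge V z p 0 ∂(gau d M v) - v * (g * lam p) := by
      have e11 : ∫ V, (rs V z 0 0 - g) * ge V z p 0 ∂(gau d M v) =
          (∫ V, rs V z 0 0 * ge V z p 0 ∂(gau d M v)) - g * lam p := by
        have e12 : g * lam p = ∫ V, g * ge V z p 0 ∂(gau d M v) := by
          rw [integral_const_mul]
          congr 1
          unfold ge
          rw [integral_finsetSum _ fun y _ => (inte v hz0 0 y).mul_const _, hlam]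
          refine Finset.sum_congr rfl fun y _ => ?_
          rw [integral_mul_const, hm']
          ring
        rw [e12, ← integral_sub (iGG p) ((iG p).const_mul _)]
        refine integral_congr_ae (Eventually.of_forall fun V => ?_)
        simp only
        ring
      rw [hs]
      simp only
      rw [e11]
      ring
    rw [e1] at e5
    rw [e10, hζ]
    linear_combination e5
  refine ⟨hgim, s, ?_, ?_⟩
  · intro p
    rw [hs]
    simp only
    rw [norm_mul]
    have hv : ‖(v : ℂ)‖ = v := by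
      rw [Complex.norm_real]
      exact abs_of_nonneg v.2
    rw [hv, mul_div_assoc]
    refine mul_le_mul_of_nonneg_left ?_ v.2
    refine (norm_integral_le_integral_norm _).trans ?_
    simp only [norm_mul]
    have i1 : Integrable (fun V : Tor d M → ℝ => ‖rs V z 0 0 - g‖ ^ 2) (gau d M v) := by
      refine (integrable_const ((1 / z.im + ‖g‖) ^ 2)).mono'
        ((((H76.cont z hz0.ne' 0 0).sub continuous_const).norm.pow 2)).aestronglyMeasurable ?_
      refine Eventually.of_forall fun V => ?_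
      rw [norm_pow, norm_norm]
      exact pow_le_pow_left₀ (norm_nonneg _) ((norm_sub_le _ _).trans
        (add_le_add (H76.entry_bd V hz0 0 0) le_rfl)) 2
    have i2 : Integrable (fun V : Tor d M → ℝ => ‖rs V z 0 0 - g‖ * ‖ge V z p 0‖) (gau d M v) := by
      have h := ((iGG p).sub ((iG p).const_mul g)).norm
      refine h.congr (Eventually.of_forall fun V => ?_)
      simp only [Pi.sub_apply]
      rw [← norm_mul, sub_mul]
    have h := cs (gau d M v) (fun V => ‖rs V z 0 0 - g‖) (fun V => ‖ge V z p 0‖) δ (1 / z.im)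
      i1 (ge_sq_int v hz0 p 0) i2 hδ (by positivity) hD (by
        rw [div_pow, one_pow]
        exact ge_mean v hz0 p)
    rw [mul_one_div] at h
    exact h
  · intro x y
    rw [hm']
    have h1 := Pool.Agent.LE.IR.H54.inversion (fun u : Tor d M => m 0 (-u)) (x - y)
    have h2 : m 0 (-(x - y)) = m x y := by
      have h := hmt x 0 (-(x - y))
      rw [add_zero] at h
      rw [← h]
      congr 1
      abel
    have h3 : ∀ p, ft (fun u : Tor d M => m 0 (-u)) p = lam p := by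
      intro p
      unfold ft
      rw [hlam]
      simp only
      rw [← Equiv.sum_comp (Equiv.neg (Tor d M)) (fun y => ec p y * m 0 y)]
      refine Finset.sum_congr rfl fun u _ => ?_
      rw [Equiv.neg_apply, ec_neg]
    rw [h2] at h1
    rw [h1]
    congr 1
    refine Finset.sum_congr rfl fun p _ => ?_
    rw [h3, ← key p, mul_div_cancel_left₀ _ (hne p)]

/-- MEA -/
theorem mea : MeaStmt := mea' H65.ste

end Pool.Agent.LE.QD.H31
end
end -- Pool.Agent.Helper31_LQD.MEA

section -- Pool.Agent.Helper48_LSP.CLB1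

/-!
# CLB, part 1: the weighted Green function
-/

set_option autoImplicit false

open MeasureTheory ProbabilityTheory Function Filter

open scoped ENNReal BigOperators Topology NNReal

noncomputable section

namespace Pool.Agent.LE.CL.H48

open Pool.Agent.Anderson hiding box mem_box card_box
open Pool.Agent.Loc Pool.Agent.Mob Pool.Agent.Helper54.Bal
  Pool.Agent.Helper96.EXP Pool.Agent.BED
open Pool.Agent.LE.MN

variable {d : ℕ}

/-- the equation of the Green function -/
theorem green_gen {V : Site d → ℝ} {Λ : Finset (Site d)} {E : ℝ} (hdet : (RM V Λ E).det ≠ 0)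
    {x y : Site d} (hx : x ∈ Λ) (hy : y ∈ Λ) :
    nb (gr V Λ E x) y + (V y - E) * gr V Λ E x y = -(if y = x then 1 else 0) := by
  classical
  have hout : ∀ z, z ∉ Λ → gr V Λ E x z = 0 := by
    intro z hz
    unfold gr
    rw [dif_neg fun hh => hz hh.2]
  have h1 := rm_mul_gr hdet hy hx
  unfold nb
  rw [H73.sum_nb Λ (fun z => gr V Λ E x z) hout y, ← h1]
  have h2 : ∀ z ∈ Λ, rm V E y z * gr V Λ E z x =
      (if y = z then (E - V y) * gr V Λ E x z else 0) - hop y z * gr V Λ E x z := by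
    intro z _
    rw [gr_symm V Λ E z x, rm, sub_mul]
    congr 1
    split_ifs <;> ring
  rw [Finset.sum_congr rfl h2, Finset.sum_sub_distrib, Finset.sum_ite_eq, if_pos hy]
  ring

/-! ### the weight -/

/-- the weight -/
def wt (κ : ℝ) (b : Site d) (r₀ : ℕ) (y : Site d) : ℝ :=
  Real.exp (-(κ * ((sd b y - r₀ : ℕ) : ℝ)))

theorem wt_pos (κ : ℝ) (b : Site d) (r₀ : ℕ) (y : Site d) : 0 < wt κ b r₀ y := Real.exp_pos _

theorem wt_le_one {κ : ℝ} (hκ : 0 ≤ κ) (b : Site d) (r₀ : ℕ) (y : Site d) :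
    wt κ b r₀ y ≤ 1 := by
  unfold wt
  rw [Real.exp_le_one_iff]
  have : 0 ≤ κ * ((sd b y - r₀ : ℕ) : ℝ) := by positivity
  linarith

theorem wt_eq_one {κ : ℝ} {b : Site d} {r₀ : ℕ} {y : Site d} (h : sd b y ≤ r₀) :
    wt κ b r₀ y = 1 := by
  unfold wt
  rw [Nat.sub_eq_zero_of_le h, Nat.cast_zero, mul_zero, neg_zero, Real.exp_zero]

theorem wt_le {κ : ℝ} (hκ : 0 ≤ κ) {b : Site d} {r₀ m : ℕ} {y : Site d} (h : r₀ + m ≤ sd b y) :
    wt κ b r₀ y ≤ Real.exp (-(κ * m)) := by
  unfold wt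
  apply Real.exp_le_exp.2
  have h1 : (m : ℝ) ≤ ((sd b y - r₀ : ℕ) : ℝ) := by
    exact_mod_cast (by omega : m ≤ sd b y - r₀)
  have h2 := mul_le_mul_of_nonneg_left h1 hκ
  linarith only [h2]

theorem wt_ratio {κ : ℝ} (hκ : 0 ≤ κ) (hκ1 : κ ≤ 1) {b : Site d} {r₀ : ℕ} {y z : Site d}
    (h : sd y z ≤ 1) : |wt κ b r₀ y / wt κ b r₀ z - 1| ≤ 2 * κ := by
  unfold wt
  rw [← Real.exp_sub]
  obtain ⟨m, hm⟩ : ∃ m : ℕ, m = sd b y - r₀ := ⟨_, rfl⟩
  obtain ⟨n, hn⟩ : ∃ n : ℕ, n = sd b z - r₀ := ⟨_, rfl⟩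
  rw [← hm, ← hn]
  have h1 : m ≤ n + 1 := by
    have := sd_triangle b z y
    rw [sd_comm z y] at this
    omega
  have h2 : n ≤ m + 1 := by
    have := sd_triangle b y z
    omega
  have h1' : (m : ℝ) ≤ n + 1 := by exact_mod_cast h1
  have h2' : (n : ℝ) ≤ m + 1 := by exact_mod_cast h2
  have h3 : -(κ * m) - -(κ * n) = κ * ((n : ℝ) - m) := by ring
  rw [h3]
  have h4 : |(n : ℝ) - m| ≤ 1 := by
    rw [abs_le]
    constructor <;> linarith
  have h5 : |κ * ((n : ℝ) - m)| ≤ κ := by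
    rw [abs_mul, abs_of_nonneg hκ]
    exact mul_le_of_le_one_right hκ h4
  refine le_trans (Real.abs_exp_sub_one_le (le_trans h5 hκ1)) ?_
  linarith only [h5]

/-! ### sums over neighbours -/

theorem nb_abs_le {u : Site d → ℝ} {y : Site d} {M : ℝ}
    (h : ∀ i, |u (y + Pi.single i 1)| ≤ M ∧ |u (y - Pi.single i 1)| ≤ M) :
    |nb u y| ≤ 2 * d * M := by
  unfold nb
  refine le_trans (Finset.abs_sum_le_sum_abs _ _) ?_
  have h1 : ∀ i ∈ (Finset.univ : Finset (Fin d)),
      |u (y + Pi.single i 1) + u (y - Pi.single i 1)| ≤ 2 * M := by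
    intro i _
    refine le_trans (abs_add_le _ _) ?_
    linarith [(h i).1, (h i).2]
  refine le_trans (Finset.sum_le_sum h1) ?_
  rw [Finset.sum_const, Finset.card_univ, Fintype.card_fin, nsmul_eq_mul]
  linarith

theorem sum_shift_le (G : Site d → ℝ) (hG : ∀ y, 0 ≤ G y) {C : Finset (Site d)}
    (hC : ∀ y, y ∉ C → G y = 0) (B : Finset (Site d)) (w : Site d) :
    ∑ y ∈ B, G (y + w) ≤ ∑ z ∈ C, G z := by
  classical
  have e1 : ∑ y ∈ B, G (y + w) = ∑ z ∈ B.map (addRightEmbedding w), G z := by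
    rw [Finset.sum_map]
    rfl
  rw [e1, ← Finset.sum_filter_of_ne (s := B.map (addRightEmbedding w)) (p := fun z => z ∈ C)]
  · refine Finset.sum_le_sum_of_subset_of_nonneg ?_ fun _ _ _ => hG _
    intro z hz
    exact (Finset.mem_filter.1 hz).2
  · intro z _ hz
    by_contra hcon
    exact hz (hC z hcon)

/-- the norm of a weighted sum over the neighbours -/
theorem lap_norm_sq_le {κ : ℝ} (hκ : 0 ≤ κ) {C : Finset (Site d)} (B : Finset (Site d))
    (g : Site d → ℂ) (hg : ∀ y, y ∉ C → g y = 0) (ρ : Site d → Site d → ℂ)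
    (hρ : ∀ y i, ‖ρ y (y + Pi.single i 1)‖ ≤ 2 * κ ∧ ‖ρ y (y - Pi.single i 1)‖ ≤ 2 * κ) :
    ∑ y ∈ B, ‖lap (fun z => ρ y z * g z) y‖ ^ 2 ≤ (4 * d * κ) ^ 2 * ∑ z ∈ C, ‖g z‖ ^ 2 := by
  have h1 : ∀ y, ‖lap (fun z => ρ y z * g z) y‖ ^ 2 ≤
      8 * d * κ ^ 2 * ∑ i : Fin d, (‖g (y + Pi.single i 1)‖ ^ 2 + ‖g (y - Pi.single i 1)‖ ^ 2) := by
    intro y
    have a1 : ‖lap (fun z => ρ y z * g z) y‖ ≤
        ∑ i : Fin d, 2 * κ * (‖g (y + Pi.single i 1)‖ + ‖g (y - Pi.single i 1)‖) := by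
      unfold lap
      refine le_trans (norm_sum_le _ _) (Finset.sum_le_sum fun i _ => ?_)
      refine le_trans (norm_add_le _ _) ?_
      rw [norm_mul, norm_mul, mul_add]
      exact add_le_add (mul_le_mul_of_nonneg_right (hρ y i).1 (norm_nonneg _))
        (mul_le_mul_of_nonneg_right (hρ y i).2 (norm_nonneg _))
    have a2 : ‖lap (fun z => ρ y z * g z) y‖ ^ 2 ≤
        (∑ i : Fin d, 2 * κ * (‖g (y + Pi.single i 1)‖ + ‖g (y - Pi.single i 1)‖)) ^ 2 :=
      pow_le_pow_left₀ (norm_nonneg _) a1 2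
    refine le_trans a2 ?_
    refine le_trans (sq_sum_le_card_mul_sum_sq) ?_
    rw [Finset.card_univ, Fintype.card_fin, mul_assoc (8 * (d : ℝ)), mul_comm (8 : ℝ) (d : ℝ), mul_assoc (d : ℝ)]
    refine mul_le_mul_of_nonneg_left ?_ (Nat.cast_nonneg _)
    rw [Finset.mul_sum, Finset.mul_sum]
    refine Finset.sum_le_sum fun i _ => ?_
    have h2 := sq_nonneg (‖g (y + Pi.single i 1)‖ - ‖g (y - Pi.single i 1)‖)
    have h3 : 0 ≤ κ ^ 2 * (‖g (y + Pi.single i 1)‖ - ‖g (y - Pi.single i 1)‖) ^ 2 := by positivity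
    nlinarith only [h3]
  refine le_trans (Finset.sum_le_sum fun y _ => h1 y) ?_
  rw [← Finset.mul_sum, Finset.sum_comm]
  have h2 : ∑ i : Fin d, ∑ y ∈ B, (‖g (y + Pi.single i 1)‖ ^ 2 + ‖g (y - Pi.single i 1)‖ ^ 2) ≤
      ∑ i : Fin d, 2 * ∑ z ∈ C, ‖g z‖ ^ 2 := by
    refine Finset.sum_le_sum fun i _ => ?_
    rw [Finset.sum_add_distrib, two_mul]
    have hz : ∀ y, y ∉ C → ‖g y‖ ^ 2 = 0 := by
      intro y hy
      rw [hg y hy, norm_zero]
      norm_num
    refine add_le_add (sum_shift_le (fun z => ‖g z‖ ^ 2) (fun _ => by positivity) hz B _) ?_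
    have := sum_shift_le (fun z => ‖g z‖ ^ 2) (fun _ => by positivity) hz B (-Pi.single i 1)
    simpa only [sub_eq_add_neg] using this
  refine le_trans (mul_le_mul_of_nonneg_left h2 (by positivity)) ?_
  rw [Finset.sum_const, Finset.card_univ, Fintype.card_fin, nsmul_eq_mul]
  refine le_of_eq ?_
  ring

end Pool.Agent.LE.CL.H48
end
end -- Pool.Agent.Helper48_LSP.CLB1

section -- Pool.Agent.Helper48_LSP.CLB2

/-!
# CLB, part 2: the system of equations
-/

set_option autoImplicit false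

open MeasureTheory ProbabilityTheory Function Filter

open scoped ENNReal BigOperators Topology NNReal

noncomputable section

namespace Pool.Agent.LE.CL.H48

open Pool.Agent.Anderson hiding box mem_box card_box
open Pool.Agent.Loc Pool.Agent.Mob Pool.Agent.Helper54.Bal
  Pool.Agent.Helper96.EXP Pool.Agent.BED
open Pool.Agent.LE.MN

variable {d : ℕ}

theorem lap_ofReal (u : Site d → ℝ) (y : Site d) : lap (fun z => (u z : ℂ)) y = (nb u y : ℂ) := by
  unfold lap nb
  push_cast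
  rfl

/-- the truncated Green function -/
def tg (V : Site d → ℝ) (Λ : Finset (Site d)) (E : ℝ) (C' : Finset (Site d)) (x z : Site d) : ℝ :=
  if z ∈ C' then gr V Λ E x z else 0

/-- the weighted truncated Green function -/
def psr (V : Site d → ℝ) (Λ : Finset (Site d)) (E κ : ℝ) (b : Site d) (r₀ : ℕ)
    (C' : Finset (Site d)) (x z : Site d) : ℝ :=
  wt κ b r₀ z * tg V Λ E C' x z

/-- the error of the weight -/
def fr (V : Site d → ℝ) (Λ : Finset (Site d)) (E κ : ℝ) (b : Site d) (r₀ : ℕ)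
    (C' : Finset (Site d)) (x y : Site d) : ℝ :=
  -nb (fun z => (wt κ b r₀ y / wt κ b r₀ z - 1) * psr V Λ E κ b r₀ C' x z) y

/-- the error of the truncation -/
def er (V : Site d → ℝ) (Λ : Finset (Site d)) (E κ : ℝ) (b : Site d) (r₀ : ℕ)
    (C' : Finset (Site d)) (x y : Site d) : ℝ :=
  wt κ b r₀ y * (nb (tg V Λ E C' x) y + (V y - E) * tg V Λ E C' x y) + if y = x then 1 else 0

variable {V : Site d → ℝ} {Λ : Finset (Site d)} {E κ : ℝ} {b : Site d} {r₀ m : ℕ}
  {C C' : Finset (Site d)}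

theorem real_eq (x y : Site d) :
    nb (psr V Λ E κ b r₀ C' x) y + V y * psr V Λ E κ b r₀ C' x y - E * psr V Λ E κ b r₀ C' x y =
      fr V Λ E κ b r₀ C' x y + er V Λ E κ b r₀ C' x y - if y = x then 1 else 0 := by
  unfold fr er
  have h1 : nb (fun z => (wt κ b r₀ y / wt κ b r₀ z - 1) * psr V Λ E κ b r₀ C' x z) y =
      wt κ b r₀ y * nb (tg V Λ E C' x) y - nb (psr V Λ E κ b r₀ C' x) y := by
    unfold nb
    rw [Finset.mul_sum, ← Finset.sum_sub_distrib]
    refine Finset.sum_congr rfl fun i _ => ?_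
    have h2 : ∀ z : Site d, (wt κ b r₀ y / wt κ b r₀ z - 1) * psr V Λ E κ b r₀ C' x z =
        wt κ b r₀ y * tg V Λ E C' x z - psr V Λ E κ b r₀ C' x z := by
      intro z
      have h3 := (wt_pos κ b r₀ z).ne'
      unfold psr
      field_simp
    simp only [h2]
    ring
  rw [h1]
  unfold psr
  ring

theorem lin_fr (v : C → ℂ) (y : Site d) :
    lin C (fun x y => (fr V Λ E κ b r₀ C' x y : ℂ)) v y =
      -lap (fun z => ((wt κ b r₀ y / wt κ b r₀ z - 1 : ℝ) : ℂ) *
        lin C (fun x y => (psr V Λ E κ b r₀ C' x y : ℂ)) v z) y := by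
  have h1 : ∀ x : Site d, ((fr V Λ E κ b r₀ C' x y : ℝ) : ℂ) =
      -lap (fun z => ((wt κ b r₀ y / wt κ b r₀ z - 1 : ℝ) : ℂ) *
        (psr V Λ E κ b r₀ C' x z : ℂ)) y := by
    intro x
    unfold fr
    rw [Complex.ofReal_neg, ← lap_ofReal]
    congr 1
    unfold lap
    push_cast
    rfl
  unfold lin
  simp only [h1]
  unfold lap
  simp only [mul_neg, Finset.mul_sum, Finset.sum_neg_distrib]
  congr 1
  rw [Finset.sum_comm]
  refine Finset.sum_congr rfl fun i _ => ?_
  rw [← Finset.sum_add_distrib]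
  refine Finset.sum_congr rfl fun x _ => ?_
  ring

theorem fr_norm (hκ : 0 ≤ κ) (hκ1 : κ ≤ 1) (B : Finset (Site d)) (v : C → ℂ) :
    ∑ y ∈ B, ‖lin C (fun x y => (fr V Λ E κ b r₀ C' x y : ℂ)) v y‖ ^ 2 ≤
      (4 * d * κ) ^ 2 *
        ∑ y ∈ C', ‖lin C (fun x y => (psr V Λ E κ b r₀ C' x y : ℂ)) v y‖ ^ 2 := by
  have h1 : ∀ y ∈ B, ‖lin C (fun x y => (fr V Λ E κ b r₀ C' x y : ℂ)) v y‖ ^ 2 =
      ‖lap (fun z => ((wt κ b r₀ y / wt κ b r₀ z - 1 : ℝ) : ℂ) *
        lin C (fun x y => (psr V Λ E κ b r₀ C' x y : ℂ)) v z) y‖ ^ 2 := by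
    intro y _
    rw [lin_fr, norm_neg]
  rw [Finset.sum_congr rfl h1]
  refine lap_norm_sq_le hκ B _ ?_ (fun y z => ((wt κ b r₀ y / wt κ b r₀ z - 1 : ℝ) : ℂ)) ?_
  · intro y hy
    unfold lin
    refine Finset.sum_eq_zero fun x _ => ?_
    simp only [psr, tg, if_neg hy, mul_zero, Complex.ofReal_zero]
  · intro y i
    constructor
    · rw [Complex.norm_real, Real.norm_eq_abs]
      exact wt_ratio hκ hκ1 (sd_add_single_le y i)
    · rw [Complex.norm_real, Real.norm_eq_abs]
      exact wt_ratio hκ hκ1 (sd_sub_single_le y i)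

theorem sd_step (b y : Site d) (i : Fin d) :
    sd b (y + Pi.single i 1) ≤ sd b y + 1 ∧ sd b (y - Pi.single i 1) ≤ sd b y + 1 ∧
      sd b y ≤ sd b (y + Pi.single i 1) + 1 ∧ sd b y ≤ sd b (y - Pi.single i 1) + 1 := by
  have h1 := sd_add_single_le y i
  have h2 := sd_sub_single_le y i
  have a1 := sd_triangle b y (y + Pi.single i 1)
  have a2 := sd_triangle b y (y - Pi.single i 1)
  have a3 := sd_triangle b (y + Pi.single i 1) y
  have a4 := sd_triangle b (y - Pi.single i 1) y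
  rw [sd_comm (y + Pi.single i 1) y] at a3
  rw [sd_comm (y - Pi.single i 1) y] at a4
  refine ⟨?_, ?_, ?_, ?_⟩ <;> omega

theorem tg_out {r : ℕ} (hC' : C' ⊆ box b r) {x y : Site d} (hy : r < sd b y) :
    tg V Λ E C' x y = 0 := by
  unfold tg
  rw [if_neg]
  intro h
  have := hC' h
  rw [mem_box] at this
  omega

theorem psr_out {r : ℕ} (hC' : C' ⊆ box b r) {x y : Site d} (hy : r < sd b y) :
    psr V Λ E κ b r₀ C' x y = 0 := by
  unfold psr
  rw [tg_out hC' hy, mul_zero]

theorem nb_zero {u : Site d → ℝ} {y : Site d}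
    (h : ∀ i, u (y + Pi.single i 1) = 0 ∧ u (y - Pi.single i 1) = 0) : nb u y = 0 := by
  unfold nb
  refine Finset.sum_eq_zero fun i _ => ?_
  rw [(h i).1, (h i).2, add_zero]

theorem fr_out {r : ℕ} (hC' : C' ⊆ box b r) {x y : Site d} (hy : r + 1 < sd b y) :
    fr V Λ E κ b r₀ C' x y = 0 := by
  unfold fr
  rw [nb_zero, neg_zero]
  intro i
  have h := sd_step b y i
  rw [psr_out hC' (by omega), psr_out hC' (by omega), mul_zero, mul_zero]
  exact ⟨rfl, rfl⟩

theorem er_out {r : ℕ} (hC' : C' ⊆ box b r) {x y : Site d} (hx : sd b x ≤ r)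
    (hy : r + 1 < sd b y) : er V Λ E κ b r₀ C' x y = 0 := by
  unfold er
  rw [nb_zero, tg_out hC' (by omega), if_neg]
  · ring
  · rintro rfl
    omega
  · intro i
    have h := sd_step b y i
    rw [tg_out hC' (by omega), tg_out hC' (by omega)]
    exact ⟨rfl, rfl⟩

theorem VE_le {v E : ℝ} (hv : |v| ≤ 1) (hE : |E| ≤ 2 * d) : |v - E| ≤ 2 * d + 1 := by
  have h1 := abs_sub v E
  linarith

/-- the error of the truncation is small -/
theorem er_le {s a : ℝ} (hκ : 0 ≤ κ) (hdet : (RM V Λ E).det ≠ 0)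
    (hΛ : box b (r₀ + m + 1) ⊆ Λ) (hC : C ⊆ box b r₀) (hm : 1 ≤ m)
    (hC' : C' = clu V Λ E s C (box b (r₀ + m)))
    (hV : ∀ x ∈ box b (r₀ + m + 1), |V x| ≤ 1) (hE : |E| ≤ 2 * d)
    (hG : ∀ x ∈ box b (r₀ + m), ∀ y ∈ box b (r₀ + m), |gr V Λ E x y| ≤ Real.exp a)
    {x y : Site d} (hx : x ∈ C) (hy : y ∈ box b (r₀ + m + 1)) :
    |er V Λ E κ b r₀ C' x y| ≤ (4 * d + 1) * (Real.exp (-s) + Real.exp (a - κ * m)) := by
  have hC'b : C' ⊆ box b (r₀ + m) := by
    intro z hz
    rw [hC', mem_clu] at hz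
    rcases hz with h | h
    · exact box_mono b (Nat.le_add_right _ _) (hC h)
    · exact h.1
  have hxb : sd b x ≤ r₀ := mem_box.1 (hC hx)
  have hxb' : x ∈ box b (r₀ + m) := box_mono b (Nat.le_add_right _ _) (hC hx)
  have hyV := hV y hy
  have hd : (0 : ℝ) ≤ d := Nat.cast_nonneg d
  rcases Nat.lt_or_ge (sd b y) (r₀ + m) with h | h
  · -- inside
    have hout : ∀ z : Site d, sd b z ≤ r₀ + m →
        |gr V Λ E x z - tg V Λ E C' x z| ≤ Real.exp (-s) := by
      intro z hz
      unfold tg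
      split_ifs with h1
      · rw [sub_self, abs_zero]
        exact (Real.exp_pos _).le
      · rw [sub_zero]
        by_contra hcon
        rw [not_le] at hcon
        apply h1
        rw [hC', mem_clu]
        exact Or.inr ⟨mem_box.2 hz, x, hx, hcon.le⟩
    have hgr := green_gen hdet (hΛ (box_mono b (Nat.le_succ _) hxb')) (hΛ hy)
    have h2 : nb (tg V Λ E C' x) y = nb (gr V Λ E x) y -
        nb (fun z => gr V Λ E x z - tg V Λ E C' x z) y := by
      unfold nb
      rw [← Finset.sum_sub_distrib]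
      refine Finset.sum_congr rfl fun i _ => ?_
      ring
    have h3 : er V Λ E κ b r₀ C' x y = -(wt κ b r₀ y *
        (nb (fun z => gr V Λ E x z - tg V Λ E C' x z) y +
          (V y - E) * (gr V Λ E x y - tg V Λ E C' x y))) := by
      unfold er
      rw [h2]
      have h4 : wt κ b r₀ y * (if y = x then (1 : ℝ) else 0) = if y = x then 1 else 0 := by
        split_ifs with h5
        · rw [h5, wt_eq_one hxb, mul_one]
        · rw [mul_zero]
      have h5 : nb (gr V Λ E x) y = -(if y = x then 1 else 0) - (V y - E) * gr V Λ E x y := by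
        linarith only [hgr]
      rw [h5]
      linear_combination -h4
    rw [h3, abs_neg, abs_mul, abs_of_pos (wt_pos _ _ _ _)]
    have h6 : |nb (fun z => gr V Λ E x z - tg V Λ E C' x z) y| ≤ 2 * d * Real.exp (-s) := by
      refine nb_abs_le fun i => ?_
      have h7 := sd_step b y i
      exact ⟨hout _ (by omega), hout _ (by omega)⟩
    have h8 : |(V y - E) * (gr V Λ E x y - tg V Λ E C' x y)| ≤ (2 * d + 1) * Real.exp (-s) := by
      rw [abs_mul]
      exact mul_le_mul (VE_le hyV hE) (hout y (by omega)) (abs_nonneg _) (by positivity)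
    have h9 : |nb (fun z => gr V Λ E x z - tg V Λ E C' x z) y +
        (V y - E) * (gr V Λ E x y - tg V Λ E C' x y)| ≤ (4 * d + 1) * Real.exp (-s) := by
      refine le_trans (abs_add_le _ _) ?_
      linarith only [h6, h8]
    have h10 : 0 ≤ (4 * d + 1) * Real.exp (a - κ * m) := by positivity
    calc wt κ b r₀ y * |nb (fun z => gr V Λ E x z - tg V Λ E C' x z) y +
          (V y - E) * (gr V Λ E x y - tg V Λ E C' x y)| ≤ 1 * ((4 * d + 1) * Real.exp (-s)) :=
          mul_le_mul (wt_le_one hκ _ _ _) h9 (abs_nonneg _) zero_le_one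
      _ ≤ (4 * d + 1) * (Real.exp (-s) + Real.exp (a - κ * m)) := by linarith only [h10]
  · -- near the boundary
    have htg : ∀ z : Site d, |tg V Λ E C' x z| ≤ Real.exp a := by
      intro z
      unfold tg
      split_ifs with h1
      · exact hG x hxb' z (hC'b h1)
      · rw [abs_zero]
        exact (Real.exp_pos _).le
    have hyx : y ≠ x := by
      rintro rfl
      omega
    unfold er
    rw [if_neg hyx, add_zero, abs_mul, abs_of_pos (wt_pos _ _ _ _)]
    have h6 : |nb (tg V Λ E C' x) y| ≤ 2 * d * Real.exp a :=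
      nb_abs_le fun i => ⟨htg _, htg _⟩
    have h8 : |(V y - E) * tg V Λ E C' x y| ≤ (2 * d + 1) * Real.exp a := by
      rw [abs_mul]
      exact mul_le_mul (VE_le hyV hE) (htg y) (abs_nonneg _) (by positivity)
    have h9 : |nb (tg V Λ E C' x) y + (V y - E) * tg V Λ E C' x y| ≤
        (4 * d + 1) * Real.exp a := by
      refine le_trans (abs_add_le _ _) ?_
      linarith only [h6, h8]
    have h10 : 0 ≤ (4 * d + 1) * Real.exp (-s) := by positivity
    have h11 : Real.exp (-(κ * m)) * Real.exp a = Real.exp (a - κ * m) := by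
      rw [← Real.exp_add]
      congr 1
      ring
    calc wt κ b r₀ y * |nb (tg V Λ E C' x) y + (V y - E) * tg V Λ E C' x y| ≤
          Real.exp (-(κ * m)) * ((4 * d + 1) * Real.exp a) :=
          mul_le_mul (wt_le hκ h) h9 (abs_nonneg _) (Real.exp_pos _).le
      _ = (4 * d + 1) * Real.exp (a - κ * m) := by rw [← h11]; ring
      _ ≤ (4 * d + 1) * (Real.exp (-s) + Real.exp (a - κ * m)) := by linarith only [h10]

/-- the form bound on a subset -/
theorem KF_mono {B₁ B₂ : Finset (Site d)} {D : Site d → ℝ} {η τ : ℝ} (h : B₁ ⊆ B₂)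
    (hK : KF B₂ D E η τ) : KF B₁ D E η τ := by
  intro w hw
  have h1 : ∀ (u : Site d → ℂ), (∀ y, y ∉ B₁ → u y = 0) → ∀ θ, hatS B₂ u θ = hatS B₁ u θ := by
    intro u hu θ
    unfold hatS
    symm
    refine Finset.sum_subset h fun y _ hy => ?_
    rw [hu y hy, zero_mul]
  have h2 := hK w fun y hy => hw y fun hy' => hy (h hy')
  simp only [h1 w hw, h1 (fun y => (D y : ℂ) * w y) (fun y hy => by rw [hw y hy, mul_zero])] at h2
  exact h2

theorem sys_of {s a η ε τ : ℝ} (hκ : 0 ≤ κ) (hκ1 : κ ≤ 1) (hdet : (RM V Λ E).det ≠ 0)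
    (hΛ : box b (r₀ + m + 1) ⊆ Λ) (hC : C ⊆ box b r₀) (hm : 1 ≤ m)
    (hC' : C' = clu V Λ E s C (box b (r₀ + m)))
    (hV : ∀ x ∈ box b (r₀ + m + 1), |V x| ≤ 1) (hE : |E| ≤ 2 * d)
    (hG : ∀ x ∈ box b (r₀ + m), ∀ y ∈ box b (r₀ + m), |gr V Λ E x y| ≤ Real.exp a)
    (hε : (2 * ((r₀ + m + 1 : ℕ) : ℝ) + 1) ^ d *
      ((4 * d + 1) * (Real.exp (-s) + Real.exp (a - κ * m))) ^ 2 ≤ ε)
    (hKF : KF (box b (r₀ + m)) V E η τ) :
    Sys C C' (box b (r₀ + m + 1)) V (fun x y => (psr V Λ E κ b r₀ C' x y : ℂ))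
      (fun x y => (fr V Λ E κ b r₀ C' x y : ℂ)) (fun x y => (er V Λ E κ b r₀ C' x y : ℂ))
      E η (4 * d * κ) ε τ := by
  have hC'b : C' ⊆ box b (r₀ + m) := by
    intro z hz
    rw [hC', mem_clu] at hz
    rcases hz with h | h
    · exact box_mono b (Nat.le_add_right _ _) (hC h)
    · exact h.1
  refine ⟨?_, ?_, ?_, ?_, ?_, ?_, ?_, ?_, ?_⟩
  · intro z hz
    rw [hC', mem_clu]
    exact Or.inl hz
  · exact fun z hz => box_mono b (Nat.le_succ _) (hC'b hz)
  · intro y hy i
    have h1 := mem_box.1 (hC'b hy)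
    have h2 := sd_step b y i
    exact ⟨mem_box.2 (by omega), mem_box.2 (by omega)⟩
  · intro x _ y hy
    simp only [psr, tg, if_neg hy, mul_zero, Complex.ofReal_zero]
  · intro x _ y
    have h1 := congrArg (fun t : ℝ => (t : ℂ)) (real_eq (V := V) (Λ := Λ) (E := E) (κ := κ)
      (b := b) (r₀ := r₀) (C' := C') x y)
    have h3 : (if y = x then (1 : ℂ) else 0) = ((if y = x then (1 : ℝ) else 0 : ℝ) : ℂ) := by
      split_ifs <;> simp
    simp only [Complex.ofReal_add, Complex.ofReal_mul, Complex.ofReal_sub] at h1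
    rw [lap_ofReal, h3]
    exact h1
  · intro x hx y hy
    have h1 : r₀ + m + 1 < sd b y := by
      rw [mem_box] at hy
      omega
    have h2 : sd b x ≤ r₀ + m := by
      have := mem_box.1 (hC hx)
      omega
    simp only [fr_out hC'b h1, er_out hC'b h2 h1, Complex.ofReal_zero, and_self]
  · intro v
    exact fr_norm hκ hκ1 _ v
  · intro x hx
    have h1 : ∀ y ∈ box b (r₀ + m + 1), ‖((er V Λ E κ b r₀ C' x y : ℝ) : ℂ)‖ ^ 2 ≤
        ((4 * d + 1) * (Real.exp (-s) + Real.exp (a - κ * m))) ^ 2 := by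
      intro y hy
      rw [Complex.norm_real, Real.norm_eq_abs]
      exact pow_le_pow_left₀ (abs_nonneg _)
        (er_le hκ hdet hΛ hC hm hC' hV hE hG hx hy) 2
    refine le_trans (Finset.sum_le_card_nsmul _ _ _ h1) ?_
    rw [nsmul_eq_mul, card_box]
    push_cast
    push_cast at hε
    exact hε
  · exact KF_mono hC'b hKF

end Pool.Agent.LE.CL.H48
end
end -- Pool.Agent.Helper48_LSP.CLB2

section -- Pool.Agent.Helper48_LSP.CLB

/-!
# CLB: from the Green function to the cluster lemma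
-/

set_option autoImplicit false

open MeasureTheory ProbabilityTheory Function Filter

open scoped ENNReal BigOperators Topology NNReal

noncomputable section

namespace Pool.Agent.LE.CL.H48

open Pool.Agent.Anderson hiding box mem_box card_box
open Pool.Agent.Loc Pool.Agent.Mob Pool.Agent.Helper54.Bal
  Pool.Agent.Helper96.EXP Pool.Agent.BED
open Pool.Agent.LE.MN

variable {d : ℕ}

/-- the growing clusters -/
def Sq (V : Site d → ℝ) (Λ : Finset (Site d)) (E s : ℝ) (b : Site d) (R₁ : ℕ) :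
    ℕ → Finset (Site d)
  | 0 => {b}
  | j + 1 => clu V Λ E s (Sq V Λ E s b R₁ j) (box b (j * R₁ + R₁))

variable {V : Site d → ℝ} {Λ : Finset (Site d)} {E s : ℝ} {b : Site d} {R₁ R J : ℕ}

theorem Sq_box (j : ℕ) : Sq V Λ E s b R₁ j ⊆ box b (j * R₁) := by
  induction j with
  | zero =>
    intro y hy
    rw [Sq, Finset.mem_singleton] at hy
    rw [hy, mem_box, sd_self]
    exact Nat.zero_le _
  | succ j ih =>
    intro y hy
    rw [Sq, mem_clu] at hy
    rw [Nat.succ_mul]
    rcases hy with hy | hy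
    · exact box_mono b (Nat.le_add_right _ _) (ih hy)
    · exact hy.1

theorem Sq_self (j : ℕ) : b ∈ Sq V Λ E s b R₁ j := by
  induction j with
  | zero => rw [Sq, Finset.mem_singleton]
  | succ j ih =>
    rw [Sq, mem_clu]
    exact Or.inl ih

theorem Sq_rch (j : ℕ) (h : j * R₁ ≤ R) : Sq V Λ E s b R₁ j ⊆ rch V Λ E s b R j := by
  induction j with
  | zero =>
    intro y hy
    rw [Sq] at hy
    rw [rch_zero]
    exact hy
  | succ j ih =>
    rw [Nat.succ_mul] at h
    rw [Sq, rch_succ]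
    exact clu_mono (ih (by omega)) (box_mono b h)

theorem pigeon (hJ : (2 * R + 1) ^ d < 2 ^ J) (hR : J * R₁ ≤ R) :
    ∃ j < J, (Sq V Λ E s b R₁ (j + 1)).card ≤ 2 * (Sq V Λ E s b R₁ j).card := by
  by_contra hcon
  push Not at hcon
  have h1 : ∀ j ≤ J, 2 ^ j ≤ (Sq V Λ E s b R₁ j).card := by
    intro j
    induction j with
    | zero =>
      intro _
      rw [Sq, Finset.card_singleton, pow_zero]
    | succ j ih =>
      intro hj
      have h2 := hcon j (by omega)
      have h3 := ih (by omega)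
      rw [pow_succ]
      omega
  have h2 := h1 J le_rfl
  have h3 : (Sq V Λ E s b R₁ J).card ≤ (box b R).card :=
    Finset.card_le_card fun y hy => box_mono b hR (Sq_box J hy)
  rw [card_box] at h3
  omega

theorem rpow_neg_nat {η : ℝ} (hη : 0 < η) (d : ℕ) : η ^ (-(d : ℝ)) = (η ^ d)⁻¹ := by
  rw [Real.rpow_neg hη.le, Real.rpow_natCast]

/-- the numbers -/
theorem num_eps {d R n : ℕ} {c η κ s a : ℝ} (hd : 1 ≤ d) (hR : 1 ≤ R) (hn : n ≤ R + 1)
    (hη : 0 < η) (hη1 : η ≤ 1) (hηc : 4 * 5 ^ d * (4 * d + 1) ^ 2 * η ≤ c)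
    {m : ℕ} (hs : d * (Real.log (1 / η) + Real.log R) ≤ s)
    (hκ : a + d * (Real.log (1 / η) + Real.log R) ≤ κ * m) :
    (2 * (n : ℝ) + 1) ^ d * ((4 * d + 1) * (Real.exp (-s) + Real.exp (a - κ * m))) ^ 2 ≤
      c * η := by
  have hR1 : (1 : ℝ) ≤ R := by exact_mod_cast hR
  have hR0 : (0 : ℝ) < R := by linarith only [hR1]
  have hM : Real.exp (-(d * (Real.log (1 / η) + Real.log R))) = (η / R) ^ d := by
    have h1 : -(d * (Real.log (1 / η) + Real.log R)) = (d : ℝ) * Real.log (η / R) := by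
      rw [Real.log_div hη.ne' hR0.ne', one_div, Real.log_inv]
      ring
    rw [h1, ← Real.log_pow, Real.exp_log (by positivity)]
  obtain ⟨M, hMd⟩ : ∃ M, M = (η / R) ^ d := ⟨_, rfl⟩
  rw [← hMd] at hM
  have hM0 : 0 < M := by rw [hMd]; positivity
  have h1 : Real.exp (-s) ≤ M := by
    rw [← hM]
    exact Real.exp_le_exp.2 (by linarith only [hs])
  have h2 : Real.exp (a - κ * m) ≤ M := by
    rw [← hM]
    exact Real.exp_le_exp.2 (by linarith only [hκ])
  have h3 : (4 * d + 1) * (Real.exp (-s) + Real.exp (a - κ * m)) ≤ (4 * d + 1) * (2 * M) :=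
    mul_le_mul_of_nonneg_left (by linarith only [h2, h1]) (by positivity)
  have h4 : (2 * (n : ℝ) + 1) ^ d ≤ (5 * R : ℝ) ^ d := by
    have h5 : (n : ℝ) ≤ R + 1 := by exact_mod_cast hn
    exact pow_le_pow_left₀ (by positivity) (by linarith only [h5, hR1]) d
  have h5 : ((4 * d + 1) * (Real.exp (-s) + Real.exp (a - κ * m))) ^ 2 ≤
      ((4 * d + 1) * (2 * M)) ^ 2 := pow_le_pow_left₀ (by positivity) h3 2
  have h6 : (R : ℝ) ^ d * M = η ^ d := by
    rw [hMd, div_pow]
    field_simp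
  have h7 : M ≤ η ^ d := by
    rw [hMd]
    refine pow_le_pow_left₀ (by positivity) ?_ d
    rw [div_le_iff₀ hR0]
    nlinarith only [hR1, hη]
  have h8 : η ^ d ≤ η := by
    calc η ^ d ≤ η ^ 1 := pow_le_pow_of_le_one hη.le hη1 hd
      _ = η := pow_one η
  calc (2 * (n : ℝ) + 1) ^ d * ((4 * d + 1) * (Real.exp (-s) + Real.exp (a - κ * m))) ^ 2 ≤
      (5 * R : ℝ) ^ d * ((4 * d + 1) * (2 * M)) ^ 2 := mul_le_mul h4 h5 (by positivity)
        (by positivity)
    _ = 4 * 5 ^ d * (4 * d + 1) ^ 2 * (((R : ℝ) ^ d * M) * M) := by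
        rw [mul_pow]
        ring
    _ = 4 * 5 ^ d * (4 * d + 1) ^ 2 * (η ^ d * M) := by rw [h6]
    _ ≤ 4 * 5 ^ d * (4 * d + 1) ^ 2 * (η * η) := by
        refine mul_le_mul_of_nonneg_left ?_ (by positivity)
        exact mul_le_mul h8 (le_trans h7 h8) hM0.le hη.le
    _ = (4 * 5 ^ d * (4 * d + 1) ^ 2 * η) * η := by ring
    _ ≤ c * η := mul_le_mul_of_nonneg_right hηc hη.le

theorem clb (blk : BlkStmt) : ClbStmt := by
  intro d cT CT hd hcT hCT
  obtain ⟨c, c₂, hc, hc1, hc₂, hblk⟩ := blk d cT CT hd hcT hCT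
  have hd3 : (3 : ℝ) ≤ d := by exact_mod_cast hd
  have hd0 : (0 : ℝ) < d := by linarith only [hd3]
  obtain ⟨η₁, hη₁⟩ : ∃ η₁ : ℝ, η₁ = c / (4 * 5 ^ d * (4 * d + 1) ^ 2) := ⟨_, rfl⟩
  have hη₁0 : 0 < η₁ := by rw [hη₁]; positivity
  have hbig : (1 : ℝ) < 4 * 5 ^ d * (4 * d + 1) ^ 2 := by
    have h1 : (1 : ℝ) ≤ 5 ^ d := one_le_pow₀ (by norm_num)
    have h2 : (1 : ℝ) ≤ (4 * d + 1) ^ 2 := one_le_pow₀ (by linarith only [])
    nlinarith only [h1, hd3]
  have hη₁1 : η₁ < 1 := by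
    rw [hη₁, div_lt_one (by positivity)]
    linarith only [hbig, hc1]
  refine ⟨c, min c₂ (η₁ ^ d), 4 * d ^ 2 / c, hc, hc1, lt_min hc₂ (by positivity), ?_, ?_⟩
  · rw [le_div_iff₀ hc]
    nlinarith only [hd3, hc1]
  intro V N R R₁ J E η τ s a T b q hη hηc hE ha hτ hτl hT1 hT2 hq hbox hJR hJ hR₁ hs hdet hV hG hKF
  obtain ⟨Λ, hΛ⟩ : ∃ Λ : Finset (Site d), Λ = box 0 N := ⟨_, rfl⟩
  rw [← hΛ] at hbox hdet hG ⊢
  have hηd : 0 < η ^ d := by positivity
  rw [rpow_neg_nat hη]
  rcases le_or_gt η₁ η with hcase | hcase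
  · -- trivial
    have h1 : 1 ≤ (rch V Λ E s b R J).card := Finset.card_pos.2 ⟨b, mem_rch_self J⟩
    have h2 : min c₂ (η₁ ^ d) * (η ^ d)⁻¹ ≤ 1 := by
      rw [← div_eq_mul_inv, div_le_one hηd]
      exact le_trans (min_le_right _ _) (pow_le_pow_left₀ hη₁0.le hcase d)
    refine le_trans h2 ?_
    exact_mod_cast h1
  have hη1 : η < 1 := by linarith only [hcase, hη₁1]
  have hl : 0 < Real.log (1 / η) := Real.log_pos (by rw [lt_div_iff₀ hη]; linarith only [hcase, hη₁1])
  have hlR : 0 ≤ Real.log R := Real.log_natCast_nonneg R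
  have hR₁0 : 0 < R₁ := by
    by_contra hcon
    have h0 : R₁ = 0 := by omega
    rw [h0, Nat.cast_zero, mul_zero] at hR₁
    have h1 : 0 < 4 * (d : ℝ) ^ 2 / c * (a + Real.log (1 / η) + Real.log R) := by positivity
    linarith only [h1, hR₁]
  have hJ0 : 0 < J := by
    by_contra hcon
    have h0 : J = 0 := by omega
    rw [h0, pow_zero] at hJ
    have : 0 < (2 * R + 1) ^ d := by positivity
    omega
  have hRR : 1 ≤ R := by
    have h1 : 1 * 1 ≤ J * R₁ := Nat.mul_le_mul hJ0 hR₁0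
    omega
  obtain ⟨j, hj, hcard⟩ := pigeon (V := V) (Λ := Λ) (E := E) (s := s) (b := b) hJ hJR
  have hjR : j * R₁ + R₁ ≤ R := by
    have h1 : (j + 1) * R₁ ≤ J * R₁ := Nat.mul_le_mul_right _ (by omega)
    rw [Nat.succ_mul] at h1
    omega
  obtain ⟨κ, hκ⟩ : ∃ κ : ℝ, κ = c * η / (4 * d) := ⟨_, rfl⟩
  have hκ0 : 0 ≤ κ := by rw [hκ]; positivity
  have hω : 4 * d * κ = c * η := by
    rw [hκ]
    field_simp
  have hκ1 : κ ≤ 1 := by
    rw [hκ, div_le_one (by positivity)]
    nlinarith only [hηc, hd3, hc1, hc]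
  have hcη : c * η ≤ 1 := by nlinarith only [hηc, hc1, hc]
  have hε := num_eps (d := d) (R := R) (n := j * R₁ + R₁ + 1) (c := c) (η := η) (κ := κ) (s := s)
    (a := a) (by omega) hRR (by omega) hη hη1.le (by
      have h1 : η * (4 * 5 ^ d * (4 * d + 1) ^ 2) ≤ c := by
        rw [hη₁] at hcase
        rw [lt_div_iff₀ (by positivity)] at hcase
        exact hcase.le
      linarith only [h1]) (m := R₁) (by
      refine le_trans ?_ hs
      have h1 : (d : ℝ) ≤ 4 * d ^ 2 / c := by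
        rw [le_div_iff₀ hc]
        nlinarith only [hd3, hc1]
      calc (d : ℝ) * (Real.log (1 / η) + Real.log R) ≤
          4 * d ^ 2 / c * (Real.log (1 / η) + Real.log R) :=
            mul_le_mul_of_nonneg_right h1 (by linarith only [hlR, hl])
        _ ≤ 4 * d ^ 2 / c * (1 + Real.log (1 / η) + Real.log R) :=
            mul_le_mul_of_nonneg_left (by linarith only []) (by positivity)) (by
      have h1 : (c / (4 * d)) * (4 * d ^ 2 / c * (a + Real.log (1 / η) + Real.log R)) ≤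
          (c / (4 * d)) * (η * R₁) := mul_le_mul_of_nonneg_left hR₁ (by positivity)
      have h2 : (c / (4 * d)) * (4 * d ^ 2 / c * (a + Real.log (1 / η) + Real.log R)) =
          d * (a + Real.log (1 / η) + Real.log R) := by
        field_simp
      have h3 : (c / (4 * d)) * (η * R₁) = κ * R₁ := by
        rw [hκ]
        ring
      rw [h2, h3] at h1
      have h4 : a ≤ d * a := by nlinarith only [ha, hd3]
      linarith only [h4, h1])
  have hsys := sys_of (V := V) (Λ := Λ) (E := E) (κ := κ) (b := b) (r₀ := j * R₁) (m := R₁)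
    (C := Sq V Λ E s b R₁ j) (C' := Sq V Λ E s b R₁ (j + 1)) (s := s) (a := a) (η := η)
    (ε := c * η) (τ := τ) hκ0 hκ1 hdet (fun y hy => hbox (box_mono b (by omega) hy)) (Sq_box j)
    hR₁0 rfl (fun x hx => hV x (box_mono b (by omega) hx)) hE
    (fun x hx y hy => hG x (box_mono b (by omega) hx) y (box_mono b (by omega) hy)) hε
    (KF_mono (box_mono b hjR) hKF)
  rw [hω] at hsys
  have hfin := hblk _ _ _ _ _ _ _ _ _ _ _ _ _ _ hη hηc (by positivity) le_rfl le_rfl hτ hτl hT1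
    hT2 ⟨b, Sq_self j⟩ hcard hsys hq
  rw [rpow_neg_nat hη] at hfin
  have h1 : (Sq V Λ E s b R₁ (j + 1)).card ≤ (rch V Λ E s b R J).card := by
    refine Finset.card_le_card ?_
    intro y hy
    refine rch_mono (by omega : j + 1 ≤ J) (Sq_rch (j + 1) ?_ hy)
    rw [Nat.succ_mul]
    exact hjR
  calc min c₂ (η₁ ^ d) * (η ^ d)⁻¹ ≤ c₂ * (η ^ d)⁻¹ :=
        mul_le_mul_of_nonneg_right (min_le_left _ _) (by positivity)
    _ ≤ (Sq V Λ E s b R₁ (j + 1)).card := hfin
    _ ≤ (rch V Λ E s b R J).card := by exact_mod_cast h1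

end Pool.Agent.LE.CL.H48
end
end -- Pool.Agent.Helper48_LSP.CLB

section -- Pool.Agent.Helper56_LIR.CLE1

/-!
# CLE, part 1: from the lattice to the torus
-/

set_option autoImplicit false

open MeasureTheory ProbabilityTheory Function Filter

open scoped ENNReal BigOperators Topology NNReal

noncomputable section

namespace Pool.Agent.LE.IR.H56

open Pool.Agent.Anderson hiding box mem_box card_box
open Pool.Agent.Loc Pool.Agent.Mob Pool.Agent.Helper54.Bal
  Pool.Agent.Helper96.EXP Pool.Agent.BED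
open Pool.Agent.LE.MN Pool.Agent.LE.CL Pool.Agent.LE.CL.H48

variable {d M : ℕ}

/-- the site of a point of the torus -/
def lf (b : Site d) (x : Tor d M) : Site d := b + rep x

theorem lf_inj (b : Site d) : Function.Injective (lf b : Tor d M → Site d) := by
  intro x y h
  exact H73.rep_inj (add_left_cancel h)

theorem ti_lf (b : Site d) (x : Tor d M) : ti M b (lf b x) = x := by
  funext i
  change (((b i + (x i).valMinAbs) - b i : ℤ) : ZMod M) = x i
  rw [add_sub_cancel_left, ZMod.coe_valMinAbs]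

theorem abs_sub_le_sd (b y : Site d) (i : Fin d) : |y i - b i| ≤ (sd b y : ℤ) := by
  have h1 : (b i - y i).natAbs ≤ sd b y :=
    Finset.le_sup (f := fun i => (b i - y i).natAbs) (Finset.mem_univ i)
  have h2 : |y i - b i| = ((b i - y i).natAbs : ℤ) := by
    rw [Int.natCast_natAbs, abs_sub_comm]
  rw [h2]
  exact_mod_cast h1

theorem lf_ti [NeZero M] {b y : Site d} {R : ℕ} (hM : 2 * R + 5 ≤ M) (hy : sd b y ≤ R + 2) :
    lf b (ti M b y) = y := by
  have h1 : rep (ti M b y) = y - b := by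
    refine H73.rep_coe (y - b) fun i => ?_
    have h2 := abs_sub_le_sd b y i
    have h3 : (sd b y : ℤ) ≤ R + 2 := by exact_mod_cast hy
    have h4 : 2 * (R : ℤ) + 5 ≤ M := by exact_mod_cast hM
    rw [Pi.sub_apply]
    linarith
  unfold lf
  rw [h1]
  abel

theorem abs_rep_le (b : Site d) (x : Tor d M) (i : Fin d) : |rep x i| ≤ (sd b (lf b x) : ℤ) := by
  have h1 := abs_sub_le_sd b (lf b x) i
  have h2 : lf b x i - b i = rep x i := by
    unfold lf
    rw [Pi.add_apply]
    ring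
  rwa [h2] at h1

theorem lf_add_near [NeZero M] {b : Site d} {x : Tor d M} {R : ℕ} (hM : 2 * R + 5 ≤ M)
    (hx : sd b (lf b x) ≤ R + 1) (i : Fin d) :
    lf b (x + ev i) = lf b x + Pi.single i 1 ∧ lf b (x - ev i) = lf b x - Pi.single i 1 := by
  have h1 : ∀ j, 2 * (|rep x j| + 1) < (M : ℤ) := by
    intro j
    have h2 := abs_rep_le b x j
    have h3 : (sd b (lf b x) : ℤ) ≤ R + 1 := by exact_mod_cast hx
    have h4 : 2 * (R : ℤ) + 5 ≤ M := by exact_mod_cast hM
    linarith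
  unfold lf
  rw [H73.rep_add_ev x h1, H73.rep_sub_ev x h1]
  constructor <;> abel

theorem u_lf [NeZero M] {b : Site d} {R : ℕ} (hM : 2 * R + 5 ≤ M) {X : Type} [Zero X]
    {u : Site d → X} (hu : ∀ y, R < sd b y → u y = 0) (x : Tor d M) (i : Fin d) :
    u (lf b (x + ev i)) = u (lf b x + Pi.single i 1) ∧
      u (lf b (x - ev i)) = u (lf b x - Pi.single i 1) := by
  rcases le_or_gt (sd b (lf b x)) (R + 1) with h | h
  · obtain ⟨h1, h2⟩ := lf_add_near hM h i
    rw [h1, h2]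
    exact ⟨rfl, rfl⟩
  · have h3 := sd_step b (lf b x) i
    constructor
    · rw [hu (lf b x + Pi.single i 1) (by omega)]
      refine hu _ ?_
      by_contra hcon
      rw [not_lt] at hcon
      have h4 := (lf_add_near hM (le_trans hcon (Nat.le_succ _)) i).2
      rw [add_sub_cancel_right] at h4
      have h5 := sd_step b (lf b (x + ev i)) i
      rw [← h4] at h5
      omega
    · rw [hu (lf b x - Pi.single i 1) (by omega)]
      refine hu _ ?_
      by_contra hcon
      rw [not_lt] at hcon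
      have h4 := (lf_add_near hM (le_trans hcon (Nat.le_succ _)) i).1
      rw [sub_add_cancel] at h4
      have h5 := sd_step b (lf b (x - ev i)) i
      rw [← h4] at h5
      omega

theorem nb_lf [NeZero M] {b : Site d} {R : ℕ} (hM : 2 * R + 5 ≤ M) {u : Site d → ℝ}
    (hu : ∀ y, R < sd b y → u y = 0) (x : Tor d M) :
    ∑ i : Fin d, (u (lf b (x + ev i)) + u (lf b (x - ev i))) = CL.nb u (lf b x) := by
  unfold CL.nb
  refine Finset.sum_congr rfl fun i _ => ?_
  obtain ⟨h1, h2⟩ := u_lf hM hu x i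
  rw [h1, h2]

theorem sum_lf [NeZero M] (b : Site d) (G : Site d → ℝ) :
    ∃ B : Finset (Site d), (∀ y : Tor d M, lf b y ∈ B) ∧ (∀ z ∈ B, ∃ y : Tor d M, lf b y = z) ∧
      ∑ x : Tor d M, G (lf b x) = ∑ y ∈ B, G y := by
  classical
  refine ⟨Finset.univ.image (lf b : Tor d M → Site d), fun y => ?_, fun z hz => ?_, ?_⟩
  · exact Finset.mem_image_of_mem _ (Finset.mem_univ y)
  · obtain ⟨y, _, hy⟩ := Finset.mem_image.1 hz
    exact ⟨y, hy⟩
  · rw [Finset.sum_image fun x _ y _ h => lf_inj b h]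

theorem tds_lf [NeZero M] {b : Site d} {R : ℕ} {x y : Tor d M}
    (hx : sd b (lf b x) ≤ R) (hy : sd b (lf b y) ≤ R) : tds x y ≤ 2 * R := by
  unfold tds
  refine Finset.sup_le fun i _ => ?_
  have h1 := abs_rep_le b x i
  have h2 := abs_rep_le b y i
  have h5 : (sd b (lf b x) : ℤ) ≤ R := by exact_mod_cast hx
  have h6 : (sd b (lf b y) : ℤ) ≤ R := by exact_mod_cast hy
  have h7 : (x i).valMinAbs.natAbs ≤ R := by
    have : ((x i).valMinAbs.natAbs : ℤ) ≤ R := by
      rw [Int.natCast_natAbs]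
      exact le_trans h1 h5
    exact_mod_cast this
  have h8 : (y i).valMinAbs.natAbs ≤ R := by
    have : ((y i).valMinAbs.natAbs : ℤ) ≤ R := by
      rw [Int.natCast_natAbs]
      exact le_trans h2 h6
    exact_mod_cast this
  have h9 := ZMod.natAbs_valMinAbs_add_le (y i) (-(x i))
  have h10 := Int.natAbs_add_le (y i).valMinAbs (-(x i)).valMinAbs
  rw [ZMod.natAbs_valMinAbs_neg] at h10
  rw [sub_eq_add_neg]
  omega

/-! ### the operator -/

theorem aop_real [NeZero M] (ω : Tor d M → ℝ) (h lam : ℝ) (f : Tor d M → ℝ) (x : Tor d M) :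
    aop ω h lam (fun w => (f w : ℂ)) x =
      ((∑ i : Fin d, (ω x * ω (x + ev i) * (f x - f (x + ev i)) +
        ω x * ω (x - ev i) * (f x - f (x - ev i))) + (h * ω x - lam * ω x ^ 2) * f x : ℝ) : ℂ) := by
  unfold aop
  push_cast
  rfl

theorem aop_sub [NeZero M] (ω : Tor d M → ℝ) (h lam : ℝ) (f g : Tor d M → ℂ) (x : Tor d M) :
    aop ω h lam (fun w => f w - g w) x = aop ω h lam f x - aop ω h lam g x := by
  unfold aop
  rw [add_sub_add_comm, ← Finset.sum_sub_distrib]
  congr 1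
  · refine Finset.sum_congr rfl fun i _ => ?_
    ring
  · ring

theorem aop_eq [NeZero M] {ω V : Tor d M → ℝ} {h lam z : ℝ} (hω : ∀ y, ω y ≠ 0)
    (heq : ∀ y, (z - V y) * ω y - ∑ i : Fin d, (ω (y + ev i) + ω (y - ev i)) = h)
    (u : Tor d M → ℝ) (y : Tor d M) :
    aop ω h lam (fun w => ((u w / ω w : ℝ) : ℂ)) y =
      ((ω y * ((z - lam - V y) * u y - ∑ i : Fin d, (u (y + ev i) + u (y - ev i))) : ℝ) : ℂ) := by
  rw [aop_real]
  congr 1
  have h1 : ∀ i : Fin d, ω y * ω (y + ev i) * (u y / ω y - u (y + ev i) / ω (y + ev i)) +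
      ω y * ω (y - ev i) * (u y / ω y - u (y - ev i) / ω (y - ev i)) =
      u y * (ω (y + ev i) + ω (y - ev i)) - ω y * (u (y + ev i) + u (y - ev i)) := by
    intro i
    have a1 := hω y
    have a2 := hω (y + ev i)
    have a3 := hω (y - ev i)
    field_simp
    ring
  rw [Finset.sum_congr rfl fun i _ => h1 i, Finset.sum_sub_distrib, ← Finset.mul_sum,
    ← Finset.mul_sum]
  have h2 : (h * ω y - lam * ω y ^ 2) * (u y / ω y) = (h - lam * ω y) * u y := by
    have a1 := hω y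
    field_simp
  rw [h2, ← heq y]
  ring

end Pool.Agent.LE.IR.H56
end
end -- Pool.Agent.Helper56_LIR.CLE1

section -- Pool.Agent.Helper56_LIR.CLE2

/-!
# CLE, part 2: the system on the torus
-/

set_option autoImplicit false

open MeasureTheory ProbabilityTheory Function Filter

open scoped ENNReal BigOperators Topology NNReal

noncomputable section

namespace Pool.Agent.LE.IR.H56

open Pool.Agent.Anderson hiding box mem_box card_box
open Pool.Agent.Loc hiding nb
open Pool.Agent.Mob Pool.Agent.Helper54.Bal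
  Pool.Agent.Helper96.EXP Pool.Agent.BED
open Pool.Agent.LE.MN Pool.Agent.LE.CL Pool.Agent.LE.CL.H48

variable {d M : ℕ}

variable {V : Site d → ℝ} {Λ : Finset (Site d)} {E κ : ℝ} {b : Site d} {r₀ m : ℕ}
  {C C' : Finset (Site d)}

/-- the error of the truncation is small -/
theorem er_le' {s a K : ℝ} (hκ : 0 ≤ κ) (hdet : (RM V Λ E).det ≠ 0)
    (hΛ : box b (r₀ + m + 1) ⊆ Λ) (hC : C ⊆ box b r₀) (hm : 1 ≤ m) (hK0 : 0 ≤ K)
    (hC' : C' = clu V Λ E s C (box b (r₀ + m)))
    (hV : ∀ x ∈ box b (r₀ + m + 1), |V x - E| ≤ K)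
    (hG : ∀ x ∈ box b (r₀ + m), ∀ y ∈ box b (r₀ + m), |gr V Λ E x y| ≤ Real.exp a)
    {x y : Site d} (hx : x ∈ C) (hy : y ∈ box b (r₀ + m + 1)) :
    |er V Λ E κ b r₀ C' x y| ≤ (2 * d + K) * (Real.exp (-s) + Real.exp (a - κ * m)) := by
  have hC'b : C' ⊆ box b (r₀ + m) := by
    intro z hz
    rw [hC', mem_clu] at hz
    rcases hz with h | h
    · exact box_mono b (Nat.le_add_right _ _) (hC h)
    · exact h.1
  have hxb : sd b x ≤ r₀ := mem_box.1 (hC hx)
  have hxb' : x ∈ box b (r₀ + m) := box_mono b (Nat.le_add_right _ _) (hC hx)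
  have hyV := hV y hy
  have hd : (0 : ℝ) ≤ d := Nat.cast_nonneg d
  rcases Nat.lt_or_ge (sd b y) (r₀ + m) with h | h
  · -- inside
    have hout : ∀ z : Site d, sd b z ≤ r₀ + m →
        |gr V Λ E x z - tg V Λ E C' x z| ≤ Real.exp (-s) := by
      intro z hz
      unfold tg
      split_ifs with h1
      · rw [sub_self, abs_zero]
        exact (Real.exp_pos _).le
      · rw [sub_zero]
        by_contra hcon
        rw [not_le] at hcon
        apply h1
        rw [hC', mem_clu]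
        exact Or.inr ⟨mem_box.2 hz, x, hx, hcon.le⟩
    have hgr := green_gen hdet (hΛ (box_mono b (Nat.le_succ _) hxb')) (hΛ hy)
    have h2 : nb (tg V Λ E C' x) y = nb (gr V Λ E x) y -
        nb (fun z => gr V Λ E x z - tg V Λ E C' x z) y := by
      unfold nb
      rw [← Finset.sum_sub_distrib]
      refine Finset.sum_congr rfl fun i _ => ?_
      ring
    have h3 : er V Λ E κ b r₀ C' x y = -(wt κ b r₀ y *
        (nb (fun z => gr V Λ E x z - tg V Λ E C' x z) y +
          (V y - E) * (gr V Λ E x y - tg V Λ E C' x y))) := by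
      unfold er
      rw [h2]
      have h4 : wt κ b r₀ y * (if y = x then (1 : ℝ) else 0) = if y = x then 1 else 0 := by
        split_ifs with h5
        · rw [h5, wt_eq_one hxb, mul_one]
        · rw [mul_zero]
      have h5 : nb (gr V Λ E x) y = -(if y = x then 1 else 0) - (V y - E) * gr V Λ E x y := by
        linarith only [hgr]
      rw [h5]
      linear_combination -h4
    rw [h3, abs_neg, abs_mul, abs_of_pos (wt_pos _ _ _ _)]
    have h6 : |nb (fun z => gr V Λ E x z - tg V Λ E C' x z) y| ≤ 2 * d * Real.exp (-s) := by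
      refine nb_abs_le fun i => ?_
      have h7 := sd_step b y i
      exact ⟨hout _ (by omega), hout _ (by omega)⟩
    have h8 : |(V y - E) * (gr V Λ E x y - tg V Λ E C' x y)| ≤ K * Real.exp (-s) := by
      rw [abs_mul]
      exact mul_le_mul hyV (hout y (by omega)) (abs_nonneg _) hK0
    have h9 : |nb (fun z => gr V Λ E x z - tg V Λ E C' x z) y +
        (V y - E) * (gr V Λ E x y - tg V Λ E C' x y)| ≤ (2 * d + K) * Real.exp (-s) := by
      refine le_trans (abs_add_le _ _) ?_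
      linarith only [h6, h8]
    have h10 : 0 ≤ (2 * d + K) * Real.exp (a - κ * m) := by positivity
    calc wt κ b r₀ y * |nb (fun z => gr V Λ E x z - tg V Λ E C' x z) y +
          (V y - E) * (gr V Λ E x y - tg V Λ E C' x y)| ≤ 1 * ((2 * d + K) * Real.exp (-s)) :=
          mul_le_mul (wt_le_one hκ _ _ _) h9 (abs_nonneg _) zero_le_one
      _ ≤ (2 * d + K) * (Real.exp (-s) + Real.exp (a - κ * m)) := by linarith only [h10]
  · -- near the boundary
    have htg : ∀ z : Site d, |tg V Λ E C' x z| ≤ Real.exp a := by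
      intro z
      unfold tg
      split_ifs with h1
      · exact hG x hxb' z (hC'b h1)
      · rw [abs_zero]
        exact (Real.exp_pos _).le
    have hyx : y ≠ x := by
      rintro rfl
      omega
    unfold er
    rw [if_neg hyx, add_zero, abs_mul, abs_of_pos (wt_pos _ _ _ _)]
    have h6 : |nb (tg V Λ E C' x) y| ≤ 2 * d * Real.exp a :=
      nb_abs_le fun i => ⟨htg _, htg _⟩
    have h8 : |(V y - E) * tg V Λ E C' x y| ≤ K * Real.exp a := by
      rw [abs_mul]
      exact mul_le_mul hyV (htg y) (abs_nonneg _) hK0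
    have h9 : |nb (tg V Λ E C' x) y + (V y - E) * tg V Λ E C' x y| ≤
        (2 * d + K) * Real.exp a := by
      refine le_trans (abs_add_le _ _) ?_
      linarith only [h6, h8]
    have h10 : 0 ≤ (2 * d + K) * Real.exp (-s) := by positivity
    have h11 : Real.exp (-(κ * m)) * Real.exp a = Real.exp (a - κ * m) := by
      rw [← Real.exp_add]
      congr 1
      ring
    calc wt κ b r₀ y * |nb (tg V Λ E C' x) y + (V y - E) * tg V Λ E C' x y| ≤
          Real.exp (-(κ * m)) * ((2 * d + K) * Real.exp a) :=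
          mul_le_mul (wt_le hκ h) h9 (abs_nonneg _) (Real.exp_pos _).le
      _ = (2 * d + K) * Real.exp (a - κ * m) := by rw [← h11]; ring
      _ ≤ (2 * d + K) * (Real.exp (-s) + Real.exp (a - κ * m)) := by linarith only [h10]

/-- the truncated Green functions on the torus -/
def gT (ω : Tor d M → ℝ) (V : Site d → ℝ) (Λ : Finset (Site d)) (E κ : ℝ) (b : Site d) (r₀ : ℕ)
    (C' : Finset (Site d)) (x y : Tor d M) : ℂ :=
  ((psr V Λ E κ b r₀ C' (lf b x) (lf b y) / ω y : ℝ) : ℂ)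

/-- the error of the weight on the torus -/
def FT (ω : Tor d M → ℝ) (V : Site d → ℝ) (Λ : Finset (Site d)) (E κ : ℝ) (b : Site d) (r₀ : ℕ)
    (C' : Finset (Site d)) (x y : Tor d M) : ℂ :=
  ((-(ω y * fr V Λ E κ b r₀ C' (lf b x) (lf b y)) : ℝ) : ℂ)

/-- the error of the truncation on the torus -/
def eT (ω : Tor d M → ℝ) (V : Site d → ℝ) (Λ : Finset (Site d)) (E κ : ℝ) (b : Site d) (r₀ : ℕ)
    (C' : Finset (Site d)) (x y : Tor d M) : ℂ :=
  ((-(ω y * er V Λ E κ b r₀ C' (lf b x) (lf b y)) : ℝ) : ℂ)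

theorem heqT [NeZero M] {R : ℕ} {ω : Tor d M → ℝ} {h lam z : ℝ} (hM : 2 * R + 5 ≤ M)
    (hC' : C' ⊆ box b R) (hω : ∀ y, ω y ≠ 0)
    (heq : ∀ y : Tor d M, (z - V (lf b y)) * ω y -
      ∑ i : Fin d, (ω (y + ev i) + ω (y - ev i)) = h) (x y : Tor d M) :
    aop ω h lam (gT ω V Λ (z - lam) κ b r₀ C' x) y =
      (if y = x then (ω x : ℂ) else 0) + FT ω V Λ (z - lam) κ b r₀ C' x y +
        eT ω V Λ (z - lam) κ b r₀ C' x y := by
  have h1 := aop_eq (V := fun w => V (lf b w)) (lam := lam) hω heq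
    (fun w => psr V Λ (z - lam) κ b r₀ C' (lf b x) (lf b w)) y
  change aop ω h lam (fun w => ((psr V Λ (z - lam) κ b r₀ C' (lf b x) (lf b w) / ω w : ℝ) : ℂ)) y = _
  rw [h1]
  have h2 := nb_lf hM (u := psr V Λ (z - lam) κ b r₀ C' (lf b x))
    (fun w hw => psr_out hC' hw) y
  rw [h2]
  have h3 := real_eq (V := V) (Λ := Λ) (E := z - lam) (κ := κ) (b := b) (r₀ := r₀) (C' := C')
    (lf b x) (lf b y)
  have h4 : (if lf b y = lf b x then (1 : ℝ) else 0) = if y = x then 1 else 0 := by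
    by_cases hyx : y = x
    · rw [if_pos hyx, if_pos (by rw [hyx])]
    · rw [if_neg hyx, if_neg fun hh => hyx (lf_inj b hh)]
  rw [h4] at h3
  have h5 : (if y = x then (ω x : ℂ) else 0) = ((ω y * (if y = x then (1 : ℝ) else 0) : ℝ) : ℂ) := by
    split_ifs with hyx
    · rw [hyx, mul_one]
    · rw [mul_zero, Complex.ofReal_zero]
  rw [h5]
  unfold FT eT
  rw [← Complex.ofReal_add, ← Complex.ofReal_add]
  congr 1
  linear_combination (-ω y) * h3

/-- a combination of the truncated Green functions on the lattice -/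
def GG (V : Site d → ℝ) (Λ : Finset (Site d)) (E κ : ℝ) (b : Site d) (r₀ : ℕ)
    (C' : Finset (Site d)) (D : Finset (Tor d M)) (v : D → ℂ) (z : Site d) : ℂ :=
  ∑ x : D, v x * (psr V Λ E κ b r₀ C' (lf b (x : Tor d M)) z : ℂ)

theorem lnt_gT {ω : Tor d M → ℝ} (hω : ∀ y, ω y ≠ 0) (D : Finset (Tor d M)) (v : D → ℂ)
    (y : Tor d M) :
    GG V Λ E κ b r₀ C' D v (lf b y) = (ω y : ℂ) * lnt D (gT ω V Λ E κ b r₀ C') v y := by
  unfold GG lnt gT
  rw [Finset.mul_sum]
  refine Finset.sum_congr rfl fun x _ => ?_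
  have h1 : (ω y : ℂ) ≠ 0 := Complex.ofReal_ne_zero.2 (hω y)
  push_cast
  field_simp

theorem lnt_FT (ω : Tor d M → ℝ) (D : Finset (Tor d M)) (v : D → ℂ) (y : Tor d M) :
    lnt D (FT ω V Λ E κ b r₀ C') v y = (ω y : ℂ) *
      lap (fun z => ((wt κ b r₀ (lf b y) / wt κ b r₀ z - 1 : ℝ) : ℂ) *
        GG V Λ E κ b r₀ C' D v z) (lf b y) := by
  have h1 : ∀ x : Site d, ((fr V Λ E κ b r₀ C' x (lf b y) : ℝ) : ℂ) =
      -lap (fun z => ((wt κ b r₀ (lf b y) / wt κ b r₀ z - 1 : ℝ) : ℂ) *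
        (psr V Λ E κ b r₀ C' x z : ℂ)) (lf b y) := by
    intro x
    unfold fr
    rw [Complex.ofReal_neg, ← lap_ofReal]
    congr 1
    unfold lap
    push_cast
    rfl
  unfold lnt FT
  simp only [Complex.ofReal_neg, Complex.ofReal_mul, h1]
  unfold lap GG
  simp only [mul_neg, neg_neg, Finset.mul_sum, neg_mul]
  rw [Finset.sum_comm]
  refine Finset.sum_congr rfl fun i _ => ?_
  rw [mul_add, Finset.mul_sum, Finset.mul_sum, ← Finset.sum_add_distrib]
  refine Finset.sum_congr rfl fun x _ => ?_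
  ring

theorem FT_norm [NeZero M] {R : ℕ} {ω : Tor d M → ℝ} (hM : 2 * R + 5 ≤ M)
    (hC' : C' ⊆ box b R) (hω1 : ∀ y, 0 < ω y) (hω2 : ∀ y, ω y ≤ 2) (hκ : 0 ≤ κ) (hκ1 : κ ≤ 1)
    (D : Finset (Tor d M)) (v : D → ℂ) :
    ∑ y, ‖lnt D (FT ω V Λ E κ b r₀ C') v y‖ ^ 2 ≤
      (16 * d * κ) ^ 2 * ∑ y, ‖lnt D (gT ω V Λ E κ b r₀ C') v y‖ ^ 2 := by
  obtain ⟨G, hG⟩ : ∃ G : Site d → ℂ, G = GG V Λ E κ b r₀ C' D v := ⟨_, rfl⟩
  have hω0 : ∀ y, ω y ≠ 0 := fun y => (hω1 y).ne'
  have hsq : ∀ y : Tor d M, ω y ^ 2 ≤ 4 := by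
    intro y
    have h1 := hω1 y
    have h2 := hω2 y
    nlinarith only [h1, h2]
  have hG0 : ∀ y, y ∉ C' → G y = 0 := by
    intro y hy
    rw [hG]
    unfold GG
    refine Finset.sum_eq_zero fun x _ => ?_
    simp only [psr, tg, if_neg hy, mul_zero, Complex.ofReal_zero]
  obtain ⟨B, hB1, hB2, hB3⟩ := sum_lf (M := M) b (fun y => ‖lap (fun z =>
    ((wt κ b r₀ y / wt κ b r₀ z - 1 : ℝ) : ℂ) * G z) y‖ ^ 2)
  obtain ⟨B', hB1', hB2', hB3'⟩ := sum_lf (M := M) b (fun y => ‖G y‖ ^ 2)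
  have h1 : ∑ y, ‖lnt D (FT ω V Λ E κ b r₀ C') v y‖ ^ 2 ≤
      4 * ∑ x : Tor d M, ‖lap (fun z =>
        ((wt κ b r₀ (lf b x) / wt κ b r₀ z - 1 : ℝ) : ℂ) * G z) (lf b x)‖ ^ 2 := by
    rw [Finset.mul_sum]
    refine Finset.sum_le_sum fun y _ => ?_
    rw [lnt_FT, norm_mul, mul_pow, Complex.norm_real, Real.norm_eq_abs, sq_abs, hG]
    exact mul_le_mul_of_nonneg_right (hsq y) (by positivity)
  have h2 := lap_norm_sq_le hκ B G hG0 (fun y z => ((wt κ b r₀ y / wt κ b r₀ z - 1 : ℝ) : ℂ)) (by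
    intro y i
    constructor
    · rw [Complex.norm_real, Real.norm_eq_abs]
      exact wt_ratio hκ hκ1 (sd_add_single_le y i)
    · rw [Complex.norm_real, Real.norm_eq_abs]
      exact wt_ratio hκ hκ1 (sd_sub_single_le y i))
  have h3 : ∑ z ∈ C', ‖G z‖ ^ 2 ≤ ∑ y : Tor d M, ‖G (lf b y)‖ ^ 2 := by
    rw [hB3']
    refine Finset.sum_le_sum_of_subset_of_nonneg ?_ fun _ _ _ => by positivity
    intro z hz
    have h4 := mem_box.1 (hC' hz)
    rw [← lf_ti hM (by omega : sd b z ≤ R + 2)]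
    exact hB1' _
  have h4 : ∑ y : Tor d M, ‖G (lf b y)‖ ^ 2 ≤
      4 * ∑ y, ‖lnt D (gT ω V Λ E κ b r₀ C') v y‖ ^ 2 := by
    rw [Finset.mul_sum]
    refine Finset.sum_le_sum fun y _ => ?_
    rw [hG, lnt_gT hω0, norm_mul, mul_pow, Complex.norm_real, Real.norm_eq_abs, sq_abs]
    exact mul_le_mul_of_nonneg_right (hsq y) (by positivity)
  have h5 : (0 : ℝ) ≤ (4 * d * κ) ^ 2 := by positivity
  rw [hB3] at h1
  have h6 := mul_le_mul_of_nonneg_left (le_trans h3 h4) h5
  calc _ ≤ 4 * ((4 * d * κ) ^ 2 * (4 * ∑ y, ‖lnt D (gT ω V Λ E κ b r₀ C') v y‖ ^ 2)) := by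
        linarith
    _ = _ := by ring

theorem eT_norm [NeZero M] {ω : Tor d M → ℝ} {Q : ℝ} (hω1 : ∀ y, 0 < ω y) (hω2 : ∀ y, ω y ≤ 2)
    (hC' : C' ⊆ box b (r₀ + m)) {x : Tor d M} (hx : sd b (lf b x) ≤ r₀ + m)
    (hQ : ∀ y ∈ box b (r₀ + m + 1), |er V Λ E κ b r₀ C' (lf b x) y| ≤ Q) :
    ∑ y, ‖eT ω V Λ E κ b r₀ C' x y‖ ^ 2 ≤ 4 * ((2 * ((r₀ + m + 1 : ℕ) : ℝ) + 1) ^ d * Q ^ 2) := by
  obtain ⟨B, hB1, hB2, hB3⟩ := sum_lf (M := M) b (fun y => er V Λ E κ b r₀ C' (lf b x) y ^ 2)
  have h1 : ∑ y, ‖eT ω V Λ E κ b r₀ C' x y‖ ^ 2 ≤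
      4 * ∑ y : Tor d M, er V Λ E κ b r₀ C' (lf b x) (lf b y) ^ 2 := by
    rw [Finset.mul_sum]
    refine Finset.sum_le_sum fun y _ => ?_
    unfold eT
    rw [Complex.norm_real, Real.norm_eq_abs, sq_abs, neg_sq, mul_pow]
    have h2 := hω1 y
    have h3 := hω2 y
    exact mul_le_mul_of_nonneg_right (by nlinarith only [h2, h3]) (by positivity)
  refine le_trans h1 (mul_le_mul_of_nonneg_left ?_ (by norm_num))
  rw [hB3]
  have h2 : ∑ y ∈ B, er V Λ E κ b r₀ C' (lf b x) y ^ 2 ≤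
      ∑ y ∈ box b (r₀ + m + 1), er V Λ E κ b r₀ C' (lf b x) y ^ 2 := by
    rw [← Finset.sum_filter_of_ne (s := B) (p := fun y => y ∈ box b (r₀ + m + 1))]
    · refine Finset.sum_le_sum_of_subset_of_nonneg ?_ fun _ _ _ => by positivity
      intro y hy
      exact (Finset.mem_filter.1 hy).2
    · intro y _ hy
      by_contra hcon
      rw [mem_box, not_le] at hcon
      apply hy
      rw [er_out hC' hx hcon]
      norm_num
  refine le_trans h2 ?_
  have h3 : ∀ y ∈ box b (r₀ + m + 1), er V Λ E κ b r₀ C' (lf b x) y ^ 2 ≤ Q ^ 2 := by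
    intro y hy
    have h4 := hQ y hy
    rw [← sq_abs]
    exact pow_le_pow_left₀ (abs_nonneg _) h4 2
  refine le_trans (Finset.sum_le_card_nsmul _ _ _ h3) ?_
  rw [nsmul_eq_mul, card_box]
  push_cast
  exact le_rfl

end Pool.Agent.LE.IR.H56
end
end -- Pool.Agent.Helper56_LIR.CLE2

section -- Pool.Agent.Helper56_LIR.CLE3

/-!
# CLE, part 3: the numbers, the system
-/

set_option autoImplicit false

open MeasureTheory ProbabilityTheory Function Filter

open scoped ENNReal BigOperators Topology NNReal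

noncomputable section

namespace Pool.Agent.LE.IR.H56

open Pool.Agent.Anderson hiding box mem_box card_box
open Pool.Agent.Loc hiding nb
open Pool.Agent.Mob Pool.Agent.Helper54.Bal
  Pool.Agent.Helper96.EXP Pool.Agent.BED
open Pool.Agent.LE.MN Pool.Agent.LE.CL Pool.Agent.LE.CL.H48

/-- the numbers of the cutoff -/
theorem num_eps2 {d R n : ℕ} {c η κ s a K : ℝ} (hR : 1 ≤ R) (hn : n ≤ R + 1)
    (hη : 0 < η) (hη1 : η ≤ 1) (hK : 0 ≤ K) (hηc : 16 * 5 ^ d * K ^ 2 * η ≤ c) {m : ℕ}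
    (hs : (d + 1) * (Real.log (1 / η) + Real.log R) ≤ s)
    (hκ : a + (d + 1) * (Real.log (1 / η) + Real.log R) ≤ κ * m) :
    4 * ((2 * (n : ℝ) + 1) ^ d * (K * (Real.exp (-s) + Real.exp (a - κ * m))) ^ 2) ≤
      c * η ^ (d + 1) := by
  have hR1 : (1 : ℝ) ≤ R := by exact_mod_cast hR
  have hR0 : (0 : ℝ) < R := by linarith only [hR1]
  have hM : Real.exp (-((d + 1) * (Real.log (1 / η) + Real.log R))) = (η / R) ^ (d + 1) := by
    have h1 : -((d + 1) * (Real.log (1 / η) + Real.log R)) =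
        ((d + 1 : ℕ) : ℝ) * Real.log (η / R) := by
      rw [Real.log_div hη.ne' hR0.ne', one_div, Real.log_inv]
      push_cast
      ring
    rw [h1, ← Real.log_pow, Real.exp_log (by positivity)]
  obtain ⟨M, hMd⟩ : ∃ M, M = (η / R) ^ (d + 1) := ⟨_, rfl⟩
  rw [← hMd] at hM
  have hM0 : 0 < M := by rw [hMd]; positivity
  have h1 : Real.exp (-s) ≤ M := by
    rw [← hM]
    exact Real.exp_le_exp.2 (by linarith only [hs])
  have h2 : Real.exp (a - κ * m) ≤ M := by
    rw [← hM]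
    exact Real.exp_le_exp.2 (by linarith only [hκ])
  have h3 : K * (Real.exp (-s) + Real.exp (a - κ * m)) ≤ K * (2 * M) :=
    mul_le_mul_of_nonneg_left (by linarith only [h1, h2]) hK
  have h4 : (2 * (n : ℝ) + 1) ^ d ≤ (5 * R : ℝ) ^ d := by
    have h5 : (n : ℝ) ≤ R + 1 := by exact_mod_cast hn
    exact pow_le_pow_left₀ (by positivity) (by linarith only [hR1, h5]) d
  have h5 : (K * (Real.exp (-s) + Real.exp (a - κ * m))) ^ 2 ≤ (K * (2 * M)) ^ 2 :=
    pow_le_pow_left₀ (by positivity) h3 2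
  have h6 : (R : ℝ) ^ d * M ≤ η ^ (d + 1) := by
    have h7 : (R : ℝ) ^ d * M = η ^ (d + 1) / R := by
      rw [hMd, div_pow, pow_succ (R : ℝ)]
      field_simp
    rw [h7]
    exact div_le_self (by positivity) hR1
  have h7 : M ≤ η := by
    have h8 : η / R ≤ η := div_le_self hη.le hR1
    have h9 : 0 < η / R := by positivity
    calc M = (η / R) ^ (d + 1) := hMd
      _ ≤ (η / R) ^ 1 := pow_le_pow_of_le_one h9.le (le_trans h8 hη1) (by omega)
      _ = η / R := pow_one _
      _ ≤ η := h8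
  calc 4 * ((2 * (n : ℝ) + 1) ^ d * (K * (Real.exp (-s) + Real.exp (a - κ * m))) ^ 2) ≤
      4 * ((5 * R : ℝ) ^ d * (K * (2 * M)) ^ 2) :=
        mul_le_mul_of_nonneg_left (mul_le_mul h4 h5 (by positivity) (by positivity)) (by norm_num)
    _ = 16 * 5 ^ d * K ^ 2 * (((R : ℝ) ^ d * M) * M) := by
        rw [mul_pow]
        ring
    _ ≤ 16 * 5 ^ d * K ^ 2 * (η ^ (d + 1) * η) := by
        refine mul_le_mul_of_nonneg_left ?_ (by positivity)
        exact mul_le_mul h6 h7 hM0.le (by positivity)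
    _ = (16 * 5 ^ d * K ^ 2 * η) * η ^ (d + 1) := by ring
    _ ≤ c * η ^ (d + 1) := mul_le_mul_of_nonneg_right hηc (by positivity)

variable {d M : ℕ} [NeZero M]

/-! ### the landscape function -/

theorem om_near {ε z μ : ℝ} {V : Tor d M → ℝ} (hμ : 0 < μ) (hF : FlatE ε z μ V) (y : Tor d M) :
    |om z μ V y - 1| ≤ ε := by
  unfold om
  have h1 := hF.2.2 y
  have h2 : DD z V y / μ - 1 = (DD z V y - μ) / μ := by
    field_simp
  rw [h2, abs_div, abs_of_pos hμ, div_le_iff₀ hμ]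
  exact h1

theorem om_eq {ε z μ : ℝ} {V : Tor d M → ℝ} (hF : FlatE ε z μ V) (y : Tor d M) :
    (z - V y) * om z μ V y - ∑ i : Fin d, (om z μ V (y + ev i) + om z μ V (y - ev i)) = 1 / μ := by
  have h1 := congrFun (AM_DD hF.2.1) y
  rw [AM_mulVec] at h1
  unfold om
  have h3 : ∑ i : Fin d, (DD z V (y + ev i) / μ + DD z V (y - ev i) / μ) =
      (∑ i : Fin d, (DD z V (y + ev i) + DD z V (y - ev i))) / μ := by
    rw [Finset.sum_div]
    refine Finset.sum_congr rfl fun i _ => ?_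
    rw [add_div]
  rw [h3, ← mul_div_assoc, ← sub_div, h1]
  rfl

theorem V_le {ε z μ : ℝ} {V : Tor d M → ℝ} (hF : FlatE ε z μ V) (y : Tor d M) : V y ≤ z := by
  have h1 := congrFun (AM_DD hF.2.1) y
  rw [AM_mulVec] at h1
  have h2 : 0 ≤ ∑ i : Fin d, (DD z V (y + ev i) + DD z V (y - ev i)) :=
    Finset.sum_nonneg fun i _ =>
      add_nonneg (DD_pos hF.2.1 _).le (DD_pos hF.2.1 _).le
  have h3 : (1 : Tor d M → ℝ) y = 1 := rfl
  rw [h3] at h1
  have h4 := DD_pos hF.2.1 y
  by_contra hcon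
  rw [not_le] at hcon
  nlinarith

/-! ### the sets -/

/-- the image of a set of sites in the torus -/
def im (M : ℕ) (b : Site d) (D : Finset (Site d)) : Finset (Tor d M) := by
  classical
  exact D.image (ti M b)

theorem mem_im {b : Site d} {R : ℕ} (hM : 2 * R + 5 ≤ M) {D : Finset (Site d)}
    (hD : D ⊆ box b R) {x : Tor d M} : x ∈ im M b D ↔ lf b x ∈ D := by
  classical
  unfold im
  rw [Finset.mem_image]
  constructor
  · rintro ⟨y, hy, rfl⟩
    have h1 := mem_box.1 (hD hy)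
    rw [lf_ti hM (by omega : sd b y ≤ R + 2)]
    exact hy
  · intro h
    exact ⟨_, h, ti_lf b x⟩

theorem card_im {b : Site d} {R : ℕ} (hM : 2 * R + 5 ≤ M) {D : Finset (Site d)}
    (hD : D ⊆ box b R) : (im M b D).card = D.card := by
  classical
  unfold im
  refine Finset.card_image_of_injOn ?_
  intro x hx y hy hxy
  have h1 := mem_box.1 (hD hx)
  have h2 := mem_box.1 (hD hy)
  have h3 := congrArg (lf b) hxy
  rwa [lf_ti hM (by omega : sd b x ≤ R + 2), lf_ti hM (by omega : sd b y ≤ R + 2)] at h3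

/-! ### test multipliers -/

theorem tst_mono {A A' D₀ l T Kq : ℝ} {Rb : ℕ} {q : Tor d M → ℝ} (hA : 1 ≤ A) (hAA : A ≤ A')
    (hD : 0 ≤ D₀) (hT : 1 ≤ T) (h : TstT A D₀ l T Kq Rb q) : TstT A' D₀ l T Kq Rb q := by
  have hT0 : 0 ≤ T := by linarith
  have hlog : 0 ≤ Real.log T := Real.log_nonneg hT
  refine ⟨h.hsupp, fun p => ?_, ?_, ?_, ?_, ?_, ?_, h.hker⟩
  · exact le_trans (h.hsup p) (mul_le_mul_of_nonneg_right hAA hT0)
  · exact le_trans (div_le_div_of_nonneg_left hD (by linarith) hAA) h.hmain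
  · exact le_trans h.hL1 (mul_le_mul_of_nonneg_right hAA hD)
  · refine le_trans h.hL2 ?_
    exact mul_le_mul_of_nonneg_right (mul_le_mul_of_nonneg_right hAA hT0) hD
  · exact le_trans h.hX2 (mul_le_mul_of_nonneg_right hAA hD)
  · refine le_trans h.hX1 ?_
    refine div_le_div_of_nonneg_right ?_ hT0
    exact mul_le_mul_of_nonneg_right (mul_le_mul_of_nonneg_right hAA hD) (by linarith)

/-- the growth function -/
theorem growth_ge {d : ℕ} (hd : 3 ≤ d) {n : ℕ} (hn : 1 ≤ n) :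
    (1 / (n : ℝ)) ^ (((d : ℝ) - 4) / 2) ≤ growth d n := by
  have hn1 : (1 : ℝ) ≤ n := by exact_mod_cast hn
  have hn0 : (0 : ℝ) < n := by linarith only [hn1]
  unfold growth
  split_ifs with h3 h4
  · rw [h3, Real.sqrt_eq_rpow, one_div, Real.inv_rpow hn0.le, ← Real.rpow_neg hn0.le]
    refine le_of_eq ?_
    congr 1
    push_cast
    norm_num
  · have h5 : ((d : ℝ) - 4) / 2 = 0 := by
      rw [h4]
      push_cast
      norm_num
    rw [h5, Real.rpow_zero]
    have := Real.log_nonneg hn1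
    linarith only [this]
  · refine Real.rpow_le_one (by positivity) ?_ ?_
    · rw [div_le_one hn0]
      exact hn1
    · have h5 : 5 ≤ d := by omega
      have h6 : (5 : ℝ) ≤ d := by exact_mod_cast h5
      linarith only [h6]

theorem growth_nonneg {d : ℕ} {n : ℕ} (hn : 1 ≤ n) : 0 ≤ growth d n := by
  have hn1 : (1 : ℝ) ≤ n := by exact_mod_cast hn
  have := Real.log_nonneg hn1
  unfold growth
  split_ifs
  · exact Real.sqrt_nonneg _
  · linarith only [this]
  · norm_num

end Pool.Agent.LE.IR.H56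
end
end -- Pool.Agent.Helper56_LIR.CLE3

section -- Pool.Agent.Helper56_LIR.CLE4

/-!
# CLE, part 4: the system
-/

set_option autoImplicit false

open MeasureTheory ProbabilityTheory Function Filter

open scoped ENNReal BigOperators Topology NNReal

noncomputable section

namespace Pool.Agent.LE.IR.H56

open Pool.Agent.Anderson hiding box mem_box card_box
open Pool.Agent.Loc hiding nb
open Pool.Agent.Mob Pool.Agent.Helper54.Bal
  Pool.Agent.Helper96.EXP Pool.Agent.BED
open Pool.Agent.LE.MN Pool.Agent.LE.CL Pool.Agent.LE.CL.H48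

theorem sub_box {d : ℕ} {V : Site d → ℝ} {Λ : Finset (Site d)} {E s : ℝ} {b : Site d} {r₀ m : ℕ}
    {C C' : Finset (Site d)} (hC : C ⊆ box b r₀) (hC' : C' = clu V Λ E s C (box b (r₀ + m))) :
    C' ⊆ box b (r₀ + m) := by
  intro z hz
  rw [hC', mem_clu] at hz
  rcases hz with h | h
  · exact box_mono b (Nat.le_add_right _ _) (hC h)
  · exact h.1

theorem sysT_of {d M : ℕ} [NeZero M] {Cs : ℝ} {V : Site d → ℝ} {Λ : Finset (Site d)}
    {z μ ε lam w l η τ κ s a A' cB D₀ : ℝ} {b : Site d} {r₀ m R n : ℕ}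
    {C C' : Finset (Site d)} (hμ : 0 < μ) (hz : z ≤ 2 * d + 1) (hε : 0 < ε) (hε1 : ε ≤ 1 / 50)
    (hF : FlatE ε z μ (fun x : Tor d M => V (b + rep x)))
    (hsrc : ∀ x : Tor d M,
      (∀ y, aop (om z μ fun x : Tor d M => V (b + rep x)) (1 / μ) lam
        (fun u => sfn z μ lam (fun x : Tor d M => V (b + rep x)) n x u) y =
        (if y = x then ((om z μ fun x : Tor d M => V (b + rep x)) x : ℂ) else 0) -
          Sfn z μ lam (fun x : Tor d M => V (b + rep x)) n x y) ∧
      (∀ p, ‖ft (sfn z μ lam (fun x : Tor d M => V (b + rep x)) n x) p‖ ≤ Cs * n) ∧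
      ∑ y, ‖sfn z μ lam (fun x : Tor d M => V (b + rep x)) n x y‖ ^ 2 ≤
        Cs * growth d n * (1 + Real.log n) ∧
      (∀ p, ‖ft (Sfn z μ lam (fun x : Tor d M => V (b + rep x)) n x) p‖ ≤ Cs) ∧
      ∑ y, ‖Sfn z μ lam (fun x : Tor d M => V (b + rep x)) n x y‖ ^ 2 ≤
        Cs * (1 / (n : ℝ)) ^ ((d : ℝ) / 2) ∧
      ∀ p, ‖ft (Sfn z μ lam (fun x : Tor d M => V (b + rep x)) n x) p -
        (starRingEnd ℂ) (ec p x)‖ ≤
        Cs * (ε + n * (lam + 1 / μ) + Real.sqrt (ds p * (n * (1 + Real.log n)))))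
    (hCs : 0 ≤ Cs) (hA' : Cs ≤ A') (hn : 1 ≤ n)
    (hlam : 0 ≤ lam) (hlam1 : lam ≤ 1) (hκ : 0 ≤ κ) (hκ1 : κ ≤ 1)
    (hφ : 16 * d * κ = cB * η) (hR : 2 * R + 5 ≤ M) (hrR : r₀ + m ≤ R)
    (hΛ : box b (r₀ + m + 1) ⊆ Λ) (hC0 : b ∈ C) (hC : C ⊆ box b r₀) (hm : 1 ≤ m)
    (hC' : C' = clu V Λ (z - lam) s C (box b (r₀ + m))) (hcard : C'.card ≤ 2 * C.card)
    (hdet : (RM V Λ (z - lam)).det ≠ 0)
    (hG : ∀ x ∈ box b (r₀ + m), ∀ y ∈ box b (r₀ + m), |gr V Λ (z - lam) x y| ≤ Real.exp a)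
    (hnum : 4 * ((2 * ((r₀ + m + 1 : ℕ) : ℝ) + 1) ^ d *
      ((4 * d + 2) * (Real.exp (-s) + Real.exp (a - κ * m))) ^ 2) ≤ cB * η * D₀)
    (hW : FBd (om z μ fun x : Tor d M => V (b + rep x)) (1 / μ) lam w l η τ) :
    SysT (om z μ fun x : Tor d M => V (b + rep x)) (1 / μ) lam w l η τ (cB * η) (cB * η * D₀)
      A' (1 / n) (Cs * growth d n * (1 + Real.log n))
      (Cs * (ε + n * (lam + 1 / μ) + Real.sqrt (4 * l * (n * (1 + Real.log n)))))
      (im M b C) (im M b C')
      (gT (om z μ fun x : Tor d M => V (b + rep x)) V Λ (z - lam) κ b r₀ C')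
      (sfn z μ lam (fun x : Tor d M => V (b + rep x)) n)
      (Sfn z μ lam (fun x : Tor d M => V (b + rep x)) n)
      (FT (om z μ fun x : Tor d M => V (b + rep x)) V Λ (z - lam) κ b r₀ C')
      (eT (om z μ fun x : Tor d M => V (b + rep x)) V Λ (z - lam) κ b r₀ C') := by
  obtain ⟨ω, hω⟩ : ∃ ω : Tor d M → ℝ, ω = om z μ fun x : Tor d M => V (b + rep x) := ⟨_, rfl⟩
  have hnear : ∀ y, |ω y - 1| ≤ ε := fun y => by rw [hω]; exact om_near hμ hF y
  have heq : ∀ y : Tor d M, (z - V (lf b y)) * ω y -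
      ∑ i : Fin d, (ω (y + ev i) + ω (y - ev i)) = 1 / μ := fun y => by
    rw [hω]; exact om_eq hF y
  rw [← hω] at hW hsrc ⊢
  have hωpos : ∀ y, 0 < ω y := by
    intro y
    have h1 := (abs_le.1 (hnear y)).1
    linarith only [hε, hε1, h1]
  have hω2 : ∀ y, ω y ≤ 2 := by
    intro y
    have h1 := (abs_le.1 (hnear y)).2
    linarith only [hε, hε1, h1]
  have hω0 : ∀ y, ω y ≠ 0 := fun y => (hωpos y).ne'
  have hC'b := sub_box hC hC'
  have hC'R : C' ⊆ box b R := fun y hy => box_mono b hrR (hC'b hy)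
  have hCR : C ⊆ box b R := fun y hy => box_mono b (by omega) (hC hy)
  have hCC : C ⊆ C' := fun y hy => by rw [hC', mem_clu]; exact Or.inl hy
  have hd0 : (0 : ℝ) ≤ d := Nat.cast_nonneg d
  have hVb : ∀ x ∈ box b (r₀ + m + 1), |V x - (z - lam)| ≤ 2 * d + 2 := by
    intro x hx
    have h1 := mem_box.1 hx
    have h2 := lf_ti (M := M) hR (by omega : sd b x ≤ R + 2)
    have h3 : -1 ≤ V (lf b (ti M b x)) := hF.1 (ti M b x)
    have h4 : V (lf b (ti M b x)) ≤ z := V_le hF (ti M b x)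
    rw [h2] at h3 h4
    rw [abs_le]
    constructor <;> linarith
  refine ⟨⟨?_, ?_, ?_⟩, ?_, ?_, ?_, ?_, ?_, ?_, ?_, ?_, ?_, hW⟩
  · refine ⟨ti M b b, ?_⟩
    rw [mem_im hR hCR, lf_ti hR (by rw [sd_self]; omega)]
    exact hC0
  · intro x hx
    rw [mem_im hR hCR] at hx
    rw [mem_im hR hC'R]
    exact hCC hx
  · rw [card_im hR hCR, card_im hR hC'R]
    exact hcard
  · intro x _ y hy
    rw [mem_im hR hC'R] at hy
    unfold gT
    simp only [psr, tg, if_neg hy, mul_zero, zero_div, Complex.ofReal_zero]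
  · intro x _ y
    have h1 := heqT (V := V) (Λ := Λ) (κ := κ) (b := b) (r₀ := r₀) (C' := C') (lam := lam) hR hC'R
      hω0 heq x y
    have h2 := (hsrc x).1 y
    have h3 := aop_sub ω (1 / μ) lam (gT ω V Λ (z - lam) κ b r₀ C' x)
      (fun u => sfn z μ lam (fun x : Tor d M => V (b + rep x)) n x u) y
    rw [h1, h2] at h3
    rw [h3]
    ring
  · intro v
    have h1 := FT_norm (V := V) (Λ := Λ) (E := z - lam) (r₀ := r₀) hR hC'R hωpos hω2 hκ hκ1
      (im M b C) v
    rw [hφ] at h1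
    exact h1
  · intro x hx
    rw [mem_im hR hCR] at hx
    have hxb := mem_box.1 (hC hx)
    have h1 := eT_norm (V := V) (Λ := Λ) (E := z - lam) (κ := κ) (b := b) (r₀ := r₀) (m := m)
      (C' := C') (Q := (4 * d + 2) * (Real.exp (-s) + Real.exp (a - κ * m))) hωpos hω2 hC'b
      (x := x) (by omega) (by
        intro y hy
        have h2 := er_le' (K := 2 * d + 2) hκ hdet hΛ hC hm (by positivity) hC' hVb hG hx hy
        refine le_trans h2 (le_of_eq ?_)
        ring)
    exact le_trans h1 hnum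
  · intro x _ p
    refine le_trans ((hsrc x).2.1 p) ?_
    rw [div_div_eq_mul_div, div_one]
    exact mul_le_mul_of_nonneg_right hA' (Nat.cast_nonneg n)
  · intro x _
    exact (hsrc x).2.2.1
  · intro x _ p
    exact le_trans ((hsrc x).2.2.2.1 p) hA'
  · intro x _
    refine le_trans (hsrc x).2.2.2.2.1 ?_
    exact mul_le_mul_of_nonneg_right hA' (by positivity)
  · intro x _ p hp
    refine le_trans ((hsrc x).2.2.2.2.2 p) (mul_le_mul_of_nonneg_left ?_ hCs)
    have hn1 : (1 : ℝ) ≤ n := by exact_mod_cast hn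
    have h1 : 0 ≤ (n : ℝ) * (1 + Real.log n) := by
      have := Real.log_nonneg hn1
      positivity
    have h2 := Real.sqrt_le_sqrt (mul_le_mul_of_nonneg_right hp h1)
    linarith only [h2]

end Pool.Agent.LE.IR.H56
end
end -- Pool.Agent.Helper56_LIR.CLE4

section -- Pool.Agent.Helper72_LQD.CLS

/-!
# CLS: a cluster which does not grow
-/

set_option autoImplicit false

open MeasureTheory ProbabilityTheory Function Filter

open scoped ENNReal BigOperators Topology NNReal ComplexOrder Matrix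

noncomputable section

namespace Pool.Agent.LE.QD.H72

open Pool.Agent.Anderson hiding box mem_box card_box
open Pool.Agent.Loc hiding nb
open Pool.Agent.Mob Pool.Agent.Helper54.Bal
  Pool.Agent.Helper96.EXP Pool.Agent.BED
open Pool.Agent.LE.MN Pool.Agent.LE.CL Pool.Agent.LE.CL.H48 Pool.Agent.LE.IR Pool.Agent.LE.IR.H56
open Pool.Agent.LE.QD.H76 (Hm hz_eq mul_rs hm_conj)

variable {d M : ℕ}

/-- the Hamiltonian on a real function -/
theorem hm_real [NeZero M] (W u : Tor d M → ℝ) (y : Tor d M) :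
    (Hm W *ᵥ fun x => (u x : ℂ)) y =
      ((∑ i : Fin d, (u (y + ev i) + u (y - ev i)) + W y * u y : ℝ) : ℂ) := by
  unfold Hm
  rw [Matrix.add_mulVec, Pi.add_apply, Matrix.mulVec_diagonal, ← adj_mulVec]
  unfold Matrix.mulVec dotProduct
  push_cast
  congr 1

/-! ### the coarse cubes -/

theorem mem_cub {b : Site d} {L : ℕ} {k y : Site d} :
    y ∈ cub b L k ↔ ∀ i, b i + L * k i ≤ y i ∧ y i < b i + L * (k i + 1) := by
  unfold cub
  rw [Fintype.mem_piFinset]
  simp only [Finset.mem_Ico]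

theorem card_cub (b : Site d) (L : ℕ) (k : Site d) : (cub b L k).card = L ^ d := by
  unfold cub
  rw [Fintype.card_piFinset]
  have h : ∀ i : Fin d, (Finset.Ico (b i + L * k i) (b i + L * (k i + 1))).card = L := by
    intro i
    rw [Int.card_Ico]
    have : b i + L * (k i + 1) - (b i + L * k i) = (L : ℤ) := by ring
    rw [this, Int.toNat_natCast]
  rw [Finset.prod_congr rfl fun i _ => h i, Finset.prod_const, Finset.card_univ, Fintype.card_fin]

theorem cub_disj {b : Site d} {L : ℕ} {k k' y : Site d} (hL : 1 ≤ L)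
    (h : y ∈ cub b L k) (h' : y ∈ cub b L k') : k = k' := by
  rw [mem_cub] at h h'
  funext i
  have hL0 : (0 : ℤ) < L := by exact_mod_cast hL
  obtain ⟨h1, h2⟩ := h i
  obtain ⟨h3, h4⟩ := h' i
  have h5 : (L : ℤ) * k i < L * (k' i + 1) := by linarith only [h1, h4]
  have h6 : (L : ℤ) * k' i < L * (k i + 1) := by linarith only [h2, h3]
  have h7 := lt_of_mul_lt_mul_left h5 hL0.le
  have h8 := lt_of_mul_lt_mul_left h6 hL0.le
  omega

/-- the corner of a cube -/
def crn (b : Site d) (L : ℕ) (k : Site d) : Site d := fun i => b i + L * k i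

theorem crn_mem {b : Site d} {L : ℕ} (hL : 1 ≤ L) (k : Site d) : crn b L k ∈ cub b L k := by
  rw [mem_cub]
  intro i
  have hL0 : (0 : ℤ) < L := by exact_mod_cast hL
  unfold crn
  constructor
  · exact le_rfl
  · linarith only [hL]

theorem ti_cub [NeZero M] {b : Site d} {L : ℕ} {k y : Site d} (hLM : L ≤ M)
    (hy : y ∈ cub b L k) : ti M b y ∈ cbt (ti M b (crn b L k)) L := by
  unfold cbt
  rw [Finset.mem_filter]
  refine ⟨Finset.mem_univ _, fun i => ?_⟩
  rw [mem_cub] at hy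
  obtain ⟨h1, h2⟩ := hy i
  have h3 : ti M b y i - ti M b (crn b L k) i = ((y i - (b i + L * k i) : ℤ) : ZMod M) := by
    unfold ti crn
    push_cast
    ring
  obtain ⟨t, ht⟩ : ∃ t : ℕ, (t : ℤ) = y i - (b i + L * k i) :=
    ⟨(y i - (b i + L * k i)).toNat, Int.toNat_of_nonneg (by linarith only [h1])⟩
  have h4 : t < L := by
    have : (t : ℤ) < L := by
      rw [ht]
      linarith only [h2]
    exact_mod_cast this
  rw [h3, ← ht, Int.cast_natCast, ZMod.val_natCast, Nat.mod_eq_of_lt (by omega)]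
  exact h4

theorem cls (hsc : HscStmt) : ClsStmt := by
  classical
  intro d hd
  obtain ⟨B, hB⟩ : ∃ B : ℝ, B = 16 * 5 ^ d * (4 * d + 1) ^ 2 := ⟨_, rfl⟩
  have hB0 : 0 ≤ B := by rw [hB]; positivity
  have hd0 : (0 : ℝ) < d := by exact_mod_cast hd
  refine ⟨200 * (2 ^ (d + 1) + B) + 128 * d * (d + 1), ?_, ?_⟩
  · have h1 : (0 : ℝ) ≤ 128 * d * (d + 1) := by positivity
    have h2 : (1 : ℝ) ≤ 2 ^ (d + 1) := one_le_pow₀ (by norm_num)
    linarith only [hB0, h1, h2]
  intro M _ V W N R r R₁ L n E η s a c₀ ε b C 𝒦 hη hη1 hE ha hε hL hn hR hM hW hbox hrR hC0 hC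
    hU hK𝒦 hcard hdet hV hG hR₁ hs hc₀ hmss
  obtain ⟨K, hK⟩ : ∃ K : ℝ, K = 200 * (2 ^ (d + 1) + B) + 128 * d * (d + 1) := ⟨_, rfl⟩
  rw [← hK] at hR₁ hs ⊢
  have hKd : 128 * d * (d + 1) ≤ K := by
    have h2 : (0 : ℝ) ≤ 2 ^ (d + 1) := by positivity
    linarith only [hB0, hK, h2]
  have hK1 : 200 * (2 ^ (d + 1) + B) ≤ K := by
    have h1 : (0 : ℝ) ≤ 128 * d * (d + 1) := by positivity
    linarith only [hK, h1]
  have hK0 : 0 < K := by
    have h1 : (0 : ℝ) < 128 * d * (d + 1) := by positivity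
    linarith only [hKd, h1]
  have hlog : 0 ≤ Real.log (1 / η) := Real.log_nonneg (by rw [le_div_iff₀ hη]; linarith only [hη1])
  have hlR : 0 ≤ Real.log R := Real.log_natCast_nonneg R
  have hR₁0 : 1 ≤ R₁ := by
    by_contra hcon
    have h0 : R₁ = 0 := by omega
    rw [h0, Nat.cast_zero, mul_zero] at hR₁
    have h1 : 0 < K * (a + 1 + Real.log (1 / η) + Real.log R) := by positivity
    linarith only [hR₁, h1]
  obtain ⟨κ, hκ⟩ : ∃ κ : ℝ, κ = η / (128 * d) := ⟨_, rfl⟩
  have hκ0 : 0 ≤ κ := by rw [hκ]; positivity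
  have hφ : 16 * d * κ = η / 8 := by
    rw [hκ]
    field_simp
    norm_num
  have hκ1 : κ ≤ 1 := by
    rw [hκ, div_le_one (by positivity)]
    have h1 : (1 : ℝ) ≤ d := by exact_mod_cast hd
    linarith only [hd0, hη1, h1]
  obtain ⟨Λ, hΛ⟩ : ∃ Λ : Finset (Site d), Λ = box 0 N := ⟨_, rfl⟩
  rw [← hΛ] at hbox hU hdet hG
  obtain ⟨U, hUd⟩ : ∃ U : Finset (Site d), U = clu V Λ E s C (box b (r + R₁)) := ⟨_, rfl⟩
  rw [← hUd] at hU
  have hUb : U ⊆ box b (r + R₁) := sub_box hC hUd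
  have hUR : U ⊆ box b R := fun y hy => box_mono b hrR (hUb hy)
  have hUR' : U ⊆ box b (R + L) := fun y hy => box_mono b (by omega) (hUb hy)
  have hCR : C ⊆ box b R := fun y hy => box_mono b (by omega) (hC hy)
  have hCR' : C ⊆ box b (R + L) := fun y hy => box_mono b (by omega) (hC hy)
  have hMR : 2 * R + 5 ≤ M := by omega
  -- the coarse set
  obtain ⟨D, hD⟩ : ∃ D : Finset (Site d), D = 𝒦.biUnion (cub b L) := ⟨_, rfl⟩
  have hDR : D ⊆ box b (R + L) := by
    intro y hy
    rw [hD, Finset.mem_biUnion] at hy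
    obtain ⟨k, hk, hy⟩ := hy
    exact hK𝒦 k hk hy
  have hDcard : D.card = 𝒦.card * L ^ d := by
    rw [hD, Finset.card_biUnion]
    · rw [Finset.sum_congr rfl fun k _ => card_cub b L k, Finset.sum_const, smul_eq_mul]
    · intro k _ k' _ hkk
      change Disjoint (cub b L k) (cub b L k')
      rw [Finset.disjoint_left]
      intro y hy hy'
      exact hkk (cub_disj hL hy hy')
  have hUD : U ⊆ D := by
    intro y hy
    obtain ⟨k, hk, hy⟩ := hU y hy
    rw [hD, Finset.mem_biUnion]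
    exact ⟨k, hk, hy⟩
  have hCU : C ⊆ U := by
    intro y hy
    rw [hUd, mem_clu]
    exact Or.inl hy
  -- the corners
  obtain ⟨𝒜, h𝒜⟩ : ∃ 𝒜 : Finset (Tor d M), 𝒜 = 𝒦.image fun k => ti M b (crn b L k) := ⟨_, rfl⟩
  have h𝒜card : 𝒜.card = 𝒦.card := by
    rw [h𝒜]
    refine Finset.card_image_of_injOn ?_
    intro k hk k' hk' hkk
    have h1 := mem_box.1 (hK𝒦 k hk (crn_mem hL k))
    have h2 := mem_box.1 (hK𝒦 k' hk' (crn_mem hL k'))
    have h3 := congrArg (lf b) hkk
    dsimp only at h3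
    rw [lf_ti hM (by omega : sd b (crn b L k) ≤ R + L + 2),
      lf_ti hM (by omega : sd b (crn b L k') ≤ R + L + 2)] at h3
    have h4 := crn_mem hL k (b := b)
    rw [h3] at h4
    exact cub_disj hL h4 (crn_mem hL k')
  have h𝒜ne : 𝒜.Nonempty := by
    obtain ⟨y, hy⟩ := hC0
    obtain ⟨k, hk, _⟩ := hU y (hCU hy)
    exact ⟨_, by rw [h𝒜]; exact Finset.mem_image_of_mem _ hk⟩
  have hcov : ∀ x ∈ im M b D, ∃ a ∈ 𝒜, x ∈ cbt a L := by
    intro x hx
    unfold im at hx
    rw [Finset.mem_image] at hx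
    obtain ⟨y, hy, rfl⟩ := hx
    rw [hD, Finset.mem_biUnion] at hy
    obtain ⟨k, hk, hy⟩ := hy
    refine ⟨ti M b (crn b L k), ?_, ti_cub (by omega) hy⟩
    rw [h𝒜]
    exact Finset.mem_image_of_mem _ hk
  have hcardT : (im M b D).card = 𝒜.card * L ^ d := by
    rw [card_im hM hDR, hDcard, h𝒜card]
  have hm := hmss 𝒜 (im M b D) h𝒜ne h𝒜card.le hcov hcardT
  -- the functions
  have hω1 : ∀ y : Tor d M, (0 : ℝ) < (fun _ : Tor d M => (1 : ℝ)) y := fun _ => one_pos
  have hω2 : ∀ y : Tor d M, (fun _ : Tor d M => (1 : ℝ)) y ≤ 2 := fun _ => by norm_num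
  have hnum := num_eps2 (d := d) (R := R) (n := r + R₁ + 1) (c := B) (η := η) (κ := κ)
    (s := s) (a := a) (K := 4 * d + 1) hR (by omega) hη hη1 (by positivity) (by
      rw [← hB]
      exact mul_le_of_le_one_right hB0 hη1) (m := R₁) (by
      refine le_trans ?_ hs
      have h1 : (d : ℝ) + 1 ≤ K := by
        refine le_trans ?_ hKd
        have h2 : (1 : ℝ) ≤ 128 * d := by
          have h1 : (1 : ℝ) ≤ d := by exact_mod_cast hd
          linarith only [hd0, h1]
        exact le_mul_of_one_le_left (by positivity) h2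
      calc ((d : ℝ) + 1) * (Real.log (1 / η) + Real.log R) ≤
          K * (Real.log (1 / η) + Real.log R) := mul_le_mul_of_nonneg_right h1 (by linarith only [hlog, hlR])
        _ ≤ K * (1 + Real.log (1 / η) + Real.log R) :=
            mul_le_mul_of_nonneg_left (by linarith only) hK0.le) (by
      have h1 : 128 * d * (d + 1) * (a + 1 + Real.log (1 / η) + Real.log R) ≤ η * R₁ :=
        le_trans (mul_le_mul_of_nonneg_right hKd (by linarith only [ha, hlog, hlR])) hR₁
      have h4 : κ * R₁ = η * R₁ / (128 * d) := by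
        rw [hκ]
        ring
      rw [h4, le_div_iff₀ (by positivity)]
      have h5 : a ≤ (d + 1) * a := le_mul_of_one_le_left ha (by linarith only [hd0])
      have h6 : a + (d + 1) * (Real.log (1 / η) + Real.log R) ≤
          (d + 1) * (a + 1 + Real.log (1 / η) + Real.log R) := by nlinarith only [hd0, h5]
      calc (a + (d + 1) * (Real.log (1 / η) + Real.log R)) * (128 * d) ≤
          ((d + 1) * (a + 1 + Real.log (1 / η) + Real.log R)) * (128 * d) :=
            mul_le_mul_of_nonneg_right h6 (by positivity)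
        _ = 128 * d * (d + 1) * (a + 1 + Real.log (1 / η) + Real.log R) := by ring
        _ ≤ η * R₁ := h1)
  have hfin := hsc (Tor d M) (Hm W) (rs W ⟨E, η⟩) E η ε (B * η ^ 2) (im M b C) (im M b D)
    (gT (fun _ => 1) V Λ E κ b r U) (FT (fun _ => 1) V Λ E κ b r U)
    (eT (fun _ => 1) V Λ E κ b r U) ?_ hη hε ?_ ?_ ?_ ?_ ?_ ?_ hm
  · -- the conclusion
    have h1 : c₀ * C.card ≤ ∑ x ∈ im M b C, (rs W ⟨E, η⟩ x x).im := by
      rw [← card_im hM hCR', mul_comm, ← nsmul_eq_mul]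
      exact Finset.card_nsmul_le_sum _ _ _ fun x _ => hc₀ x
    have h2 := h1.trans hfin
    rw [hcardT, card_im hM hCR', h𝒜card] at h2
    have hCpos : (0 : ℝ) < C.card := by exact_mod_cast Finset.card_pos.2 hC0
    have hn0 : (0 : ℝ) < n := by exact_mod_cast hn
    have h3 : (𝒦.card : ℝ) ≤ 2 ^ (d + 1) * C.card / n := by
      rw [le_div_iff₀ hn0]
      have : ((n * 𝒦.card : ℕ) : ℝ) ≤ ((2 ^ (d + 1) * C.card : ℕ) : ℝ) := by exact_mod_cast hcard
      push_cast at this
      linarith only [this]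
    have h4 : ε * (((𝒦.card * L ^ d : ℕ) : ℝ)) ≤
        (2 ^ (d + 1) * (ε * (L : ℝ) ^ d / n)) * C.card := by
      push_cast
      have h5 : 0 ≤ ε * (L : ℝ) ^ d := by positivity
      have h6 := mul_le_mul_of_nonneg_left h3 h5
      calc ε * ((𝒦.card : ℝ) * L ^ d) = ε * (L : ℝ) ^ d * 𝒦.card := by ring
        _ ≤ ε * (L : ℝ) ^ d * (2 ^ (d + 1) * C.card / n) := h6
        _ = (2 ^ (d + 1) * (ε * (L : ℝ) ^ d / n)) * C.card := by ring
    have h5 : B * η ^ 2 * C.card / η = (B * η) * C.card := by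
      field_simp
    rw [h5] at h2
    have h6 : c₀ * C.card ≤ (200 * (2 ^ (d + 1) * (ε * (L : ℝ) ^ d / n) + B * η)) * C.card := by
      refine h2.trans ?_
      nlinarith only [h4]
    have h7 := le_of_mul_le_mul_right h6 hCpos
    have h8 : 0 ≤ ε * (L : ℝ) ^ d / n := by positivity
    have h9 : (0 : ℝ) ≤ 2 ^ (d + 1) := by positivity
    refine h7.trans ?_
    calc 200 * (2 ^ (d + 1) * (ε * (L : ℝ) ^ d / n) + B * η) ≤
        (200 * (2 ^ (d + 1) + B)) * (ε * (L : ℝ) ^ d / n + η) := by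
          nlinarith only [mul_nonneg hB0 h8, mul_nonneg h9 hη.le]
      _ ≤ K * (ε * (L : ℝ) ^ d / n + η) :=
          mul_le_mul_of_nonneg_right hK1 (by positivity)
  · -- Hermitian
    ext x y
    rw [Matrix.conjTranspose_apply]
    exact hm_conj W y x
  · -- C ⊆ C'
    intro x hx
    rw [mem_im hM hCR'] at hx
    rw [mem_im hM hDR]
    exact hUD (hCU hx)
  · rw [← hz_eq]
    exact mul_rs W (by exact hη.ne')
  · intro x _ y hy
    rw [mem_im hM hDR] at hy
    unfold gT
    have h1 : lf b y ∉ U := fun h => hy (hUD h)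
    simp only [psr, tg, if_neg h1, mul_zero, zero_div, Complex.ofReal_zero]
  · -- the equation
    intro x _ y
    have h1 : gT (fun _ : Tor d M => (1 : ℝ)) V Λ E κ b r U x =
        fun y => ((psr V Λ E κ b r U (lf b x) (lf b y) : ℝ) : ℂ) := by
      funext y
      unfold gT
      rw [div_one]
    rw [h1, hm_real]
    have h2 := nb_lf hMR (u := psr V Λ E κ b r U (lf b x)) (fun w hw => psr_out hUR hw) y
    rw [h2]
    have h3 := real_eq (V := V) (Λ := Λ) (E := E) (κ := κ) (b := b) (r₀ := r) (C' := U)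
      (lf b x) (lf b y)
    have h4 : (if lf b y = lf b x then (1 : ℝ) else 0) = if y = x then 1 else 0 := by
      by_cases hyx : y = x
      · rw [if_pos hyx, if_pos (by rw [hyx])]
      · rw [if_neg hyx, if_neg fun hh => hyx (lf_inj b hh)]
    rw [h4] at h3
    have h5 : W y * psr V Λ E κ b r U (lf b x) (lf b y) =
        V (lf b y) * psr V Λ E κ b r U (lf b x) (lf b y) := by
      by_cases hy : lf b y ∈ U
      · have h6 := hW (lf b y) (box_mono b (by omega) (hUR hy))
        rw [ti_lf] at h6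
        rw [h6]
      · simp only [psr, tg, if_neg hy, mul_zero]
    have h6 : (if y = x then (1 : ℂ) else 0) = ((if y = x then (1 : ℝ) else 0 : ℝ) : ℂ) := by
      split_ifs <;> simp
    rw [h5, h6]
    unfold FT eT
    rw [← Complex.ofReal_mul, ← Complex.ofReal_sub, ← Complex.ofReal_add, ← Complex.ofReal_add]
    congr 1
    linear_combination (-1 : ℝ) * h3
  · -- the error of the weight
    intro v
    have h1 := FT_norm (V := V) (Λ := Λ) (E := E) (r₀ := r) hMR hUR hω1 hω2 hκ0 hκ1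
      (im M b C) v
    rw [hφ] at h1
    exact h1
  · -- the error of the truncation
    intro x hx
    rw [mem_im hM hCR'] at hx
    have hxb := mem_box.1 (hC hx)
    have h1 := eT_norm (V := V) (Λ := Λ) (E := E) (κ := κ) (b := b) (r₀ := r) (m := R₁)
      (C' := U) (Q := (4 * d + 1) * (Real.exp (-s) + Real.exp (a - κ * R₁))) hω1 hω2 hUb
      (x := x) (by omega) (by
        intro y hy
        exact er_le hκ0 hdet (fun y hy => hbox (box_mono b (by omega) hy)) hC hR₁0 hUd
          (fun x hx => hV x (box_mono b (by omega) hx)) hE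
          (fun x hx y hy => hG x (box_mono b (by omega) hx) y (box_mono b (by omega) hy)) hx hy)
    refine h1.trans (hnum.trans ?_)
    refine mul_le_mul_of_nonneg_left ?_ hB0
    exact pow_le_pow_of_le_one hη.le hη1 (by omega)

end Pool.Agent.LE.QD.H72
end
end -- Pool.Agent.Helper72_LQD.CLS
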