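import Pool.Agent.Helper12_MEB.B087
import Pool.Agent.Helper12_MEB.B118

/-!
# Merged copies (generated) of the modules

* `Pool.Agent.Helper76_LQF.RSJ`
* `Pool.Agent.Helper17_LQZ.RSJ`
* `Pool.Agent.Helper56_LQX.RSJ`
* `Pool.Agent.Helper94_LQX.EIG`
* `Pool.Agent.Helper51_LQY.EIZ`
* `Pool.Agent.Helper76_LQY.TMA`
* `Pool.Agent.Helper81_LQY.TEV`
-/

set_option autoImplicit false

section -- Pool.Agent.Helper76_LQF.RSJ

/-!
# Squad LQF, row RSJ: the jet of the resolvent on the torus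
-/

set_option autoImplicit false

open MeasureTheory ProbabilityTheory Function Filter

open scoped ENNReal BigOperators Topology NNReal ComplexOrder Matrix

noncomputable section

namespace Pool.Agent.LE.QF.H76

open Pool.Agent.Anderson hiding box mem_box card_box
open Pool.Agent.Loc Pool.Agent.Mob Pool.Agent.Helper54.Bal
  Pool.Agent.Helper96.EXP Pool.Agent.BED
open Pool.Agent.LE.MN Pool.Agent.LE.CL Pool.Agent.LE.IR Pool.Agent.LE.QD
open Pool.Agent.LE.QD.H76 (hz_unit rs_mul mul_rs rs_symm rs_conj res_en)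

variable {d M : ℕ} [NeZero M]

omit [NeZero M] in
theorem zt_im (D : Dat d M) (t : ℝ) : (D.zt t).im = D.kp t := by
  unfold Dat.zt Dat.kp
  rw [Complex.add_im, Complex.mul_im, Complex.ofReal_re, Complex.ofReal_im, zero_mul, add_zero]

omit [NeZero M] in
theorem zt_cd (D : Dat d M) (t : ℝ) : ContDiffAt ℝ 2 (fun s => -D.zt s) t := by
  unfold Dat.zt
  have h1 : ContDiffAt ℝ 2 (fun s : ℝ => ((D.T - s : ℝ) : ℂ)) t :=
    Complex.ofRealCLM.contDiff.contDiffAt.comp t (contDiffAt_const.sub contDiffAt_id)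
  exact (contDiffAt_const.add (h1.mul contDiffAt_const)).neg

omit [NeZero M] in
theorem zt_dv (D : Dat d M) (t : ℝ) : deriv (fun s => -D.zt s) t = D.m := by
  unfold Dat.zt
  have h1 : HasDerivAt (fun s : ℝ => ((D.T - s : ℝ) : ℂ)) (((-1 : ℝ)) : ℂ) t :=
    HasDerivAt.ofReal_comp ((hasDerivAt_id t).const_sub D.T)
  have h2 := ((h1.mul_const D.m).const_add (⟨D.E, D.η⟩ : ℂ)).neg
  have h3 : deriv (fun s : ℝ => -((⟨D.E, D.η⟩ : ℂ) + ((D.T - s : ℝ) : ℂ) * D.m)) t = _ := h2.deriv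
  rw [h3]
  push_cast
  ring

omit [NeZero M] in
theorem kp_dv (D : Dat d M) (t : ℝ) : HasDerivAt D.kp (-D.m.im) t := by
  unfold Dat.kp
  have h := (((hasDerivAt_id t).const_sub D.T).mul_const D.m.im).const_add D.η
  have e : (-1 : ℝ) * D.m.im = -D.m.im := by ring
  rw [e] at h
  exact h

omit [NeZero M] in
theorem kp_cd (D : Dat d M) (t : ℝ) : ContDiffAt ℝ 2 D.kp t := by
  unfold Dat.kp
  exact contDiffAt_const.add ((contDiffAt_const.sub contDiffAt_id).mul contDiffAt_const)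

/-- the jet of `H - z` -/
theorem hzj (jal : JalStmt) (D : Dat d M) (q : ℝ × (Tor d M → ℝ)) :
    HM (fun r => hz r.2 (D.zt r.1)) q (hz q.2 (D.zt q.1))
      (fun c => Matrix.diagonal fun a => if c = a then 1 else 0)
      (Matrix.diagonal fun _ => D.m) := by
  obtain ⟨J1, J2, J3, -, -, -, J7, -⟩ := jal (Tor d M) ℂ q
  intro a b
  have hc := J1 (((adj d M).map fun x : ℝ => (x : ℂ)) a b)
  by_cases h : a = b
  · subst h
    have h2 := J2 a
    have h3 := J7 (fun s => -D.zt s) (zt_cd D q.1)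
    rw [zt_dv] at h3
    have h4 := (J3 _ _ _ _ _ _ _ _ hc (J3 _ _ _ _ _ _ _ _ h2 h3).1).1
    have e1 : (fun r : ℝ × (Tor d M → ℝ) => hz r.2 (D.zt r.1) a a) = fun r =>
        ((adj d M).map fun x : ℝ => (x : ℂ)) a a + (((r.2 a : ℝ) : ℂ) + -D.zt r.1) := by
      funext r
      unfold hz
      rw [Matrix.add_apply, Matrix.diagonal_apply_eq, sub_eq_add_neg]
    have e2 : hz q.2 (D.zt q.1) a a =
        ((adj d M).map fun x : ℝ => (x : ℂ)) a a + (((q.2 a : ℝ) : ℂ) + -D.zt q.1) :=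
      congrFun e1 q
    rw [e1, e2]
    simp only [Matrix.diagonal_apply_eq]
    have e3 : (fun c : Tor d M => (0 : ℂ) + ((if c = a then 1 else 0) + 0)) =
        fun c => if c = a then 1 else 0 := by
      funext c
      rw [zero_add, add_zero]
    have e4 : (0 : ℂ) + (0 + D.m) = D.m := by rw [zero_add, zero_add]
    rw [e4] at h4
    rw [← e3]
    exact h4
  · have e1 : (fun r : ℝ × (Tor d M → ℝ) => hz r.2 (D.zt r.1) a b) = fun _ =>
        ((adj d M).map fun x : ℝ => (x : ℂ)) a b := by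
      funext r
      unfold hz
      rw [Matrix.add_apply, Matrix.diagonal_apply_ne _ h, add_zero]
    have e2 : hz q.2 (D.zt q.1) a b = ((adj d M).map fun x : ℝ => (x : ℂ)) a b := congrFun e1 q
    rw [e1, e2]
    simp only [Matrix.diagonal_apply_ne _ h]
    exact hc

section mat

variable {X : Type} [Fintype X] [DecidableEq X]

theorem gec (G : Matrix X X ℂ) (c : X) :
    -(G * (Matrix.diagonal fun a => if c = a then 1 else 0) * G) = gG G c := by
  ext a b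
  unfold gG
  rw [Matrix.neg_apply, Matrix.mul_apply]
  simp only [Matrix.mul_diagonal]
  rw [Finset.sum_eq_single c]
  · rw [if_pos rfl, mul_one]
  · intro y _ hy
    rw [if_neg (Ne.symm hy), mul_zero, zero_mul]
  · intro h
    exact absurd (Finset.mem_univ c) h

theorem gec2 (G : Matrix X X ℂ) (m : ℂ) :
    -(G * (Matrix.diagonal fun _ => m) * G) +
      ∑ c, G * (Matrix.diagonal fun a => if c = a then 1 else 0) * G *
        (Matrix.diagonal fun a => if c = a then 1 else 0) * G = GD G fun a => G a a - m := by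
  have h1 : ∀ c a b, (G * (Matrix.diagonal fun a => if c = a then (1 : ℂ) else 0) * G *
      (Matrix.diagonal fun a => if c = a then 1 else 0) * G : Matrix X X ℂ) a b =
      G a c * G c c * G c b := by
    intro c a b
    have h2 := gec G c
    have h3 : G * (Matrix.diagonal fun a => if c = a then (1 : ℂ) else 0) * G = -gG G c := by
      rw [← h2, neg_neg]
    rw [h3, Matrix.mul_apply]
    simp only [Matrix.mul_diagonal]
    rw [Finset.sum_eq_single c]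
    · rw [if_pos rfl, mul_one, Matrix.neg_apply]
      unfold gG
      rw [neg_neg]
    · intro y _ hy
      rw [if_neg (Ne.symm hy), mul_zero, zero_mul]
    · intro h
      exact absurd (Finset.mem_univ c) h
  ext a b
  rw [Matrix.add_apply, Matrix.neg_apply, Matrix.sum_apply]
  simp only [h1]
  unfold GD
  rw [Matrix.mul_apply, Matrix.mul_apply]
  simp only [Matrix.mul_diagonal]
  rw [← Finset.sum_neg_distrib, ← Finset.sum_add_distrib]
  refine Finset.sum_congr rfl fun c _ => ?_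
  ring

end mat

theorem rsj (jal : JalStmt) (jma : JmaStmt) : RsjStmt := by
  intro d M _ D c₁ C₁ c₀ k₀ q hc₁ hA hκ
  have hm : 0 < D.m.im := hc₁.trans_le hA.hm.1
  have hz0 : (D.zt q.1).im ≠ 0 := by
    rw [zt_im]
    exact hκ.ne'
  have hz1 : ((starRingEnd ℂ) (D.zt q.1)).im ≠ 0 := by
    rw [Complex.conj_im]
    exact neg_ne_zero.2 hz0
  refine ⟨⟨?_, ?_, ?_, rfl, ?_⟩, ?_, ?_, ?_, ?_, ?_, ?_⟩
  · have h1 := ((jma (Tor d M) ℂ q).2 (Tor d M) _ _ _ _ (hzj jal D q)).1 (hz_unit q.2 hz0)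
    have e1 : (fun c => -((hz q.2 (D.zt q.1))⁻¹ *
        (Matrix.diagonal fun a => if c = a then 1 else 0) * (hz q.2 (D.zt q.1))⁻¹)) =
        gG (D.G q) := by
      funext c
      exact gec _ c
    have e2 := gec2 (D.G q) D.m
    rw [e1] at h1
    rw [← e2]
    exact h1
  · intro a b
    exact rs_symm _ _ a b
  · unfold Dat.ta
    exact (kp_cd D q.1).div_const _
  · unfold Dat.ta
    rw [((kp_dv D q.1).div_const D.m.im).deriv, neg_div, div_self hm.ne']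
  · intro a b
    have h1 := congrFun (congrFun (res_en q.2 hz0 hz1) a) b
    rw [rs_conj, Matrix.sub_apply, Matrix.smul_apply, Matrix.mul_apply,
      Matrix.conjTranspose_apply] at h1
    have h2 : ∑ c, rs q.2 (D.zt q.1) a c * (rs q.2 (D.zt q.1))ᴴ c b =
        ∑ c, D.G q a c * (starRingEnd ℂ) (D.G q b c) := rfl
    rw [h2, rs_symm q.2 _ b a] at h1
    have h3 : D.zt q.1 - (starRingEnd ℂ) (D.zt q.1) = 2 * Complex.I * (D.kp q.1 : ℂ) := by
      rw [Complex.sub_conj, zt_im]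
      push_cast
      ring
    have h4 : rs q.2 (D.zt q.1) a b - star (rs q.2 (D.zt q.1) a b) =
        2 * Complex.I * ((D.G q a b).im : ℂ) := by
      have h5 := Complex.sub_conj (rs q.2 (D.zt q.1) a b)
      rw [show star (rs q.2 (D.zt q.1) a b) = (starRingEnd ℂ) (rs q.2 (D.zt q.1) a b) from rfl, h5]
      unfold Dat.G
      push_cast
      ring
    rw [h3, h4, smul_eq_mul, mul_assoc, mul_assoc, mul_assoc] at h1
    have h6 := mul_left_cancel₀ (two_ne_zero' ℂ) h1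
    exact (mul_left_cancel₀ Complex.I_ne_zero h6).symm
  · intro a b
    exact rs_symm _ _ a b
  · unfold Dat.ta
    rw [div_mul_cancel₀ _ hm.ne']
  · intro h0 hT
    unfold Dat.w Dat.kp
    constructor
    · nlinarith only [hm, hT]
    · nlinarith only [hm, h0]
  · unfold Dat.Ls
    have h := kp_cd D q.1
    have h2 : ContDiffAt ℝ 2 (fun t => D.kp t ^ 2) q.1 := h.pow 2
    exact contDiffAt_const.mul ((contDiffAt_const.add
      (contDiffAt_const.div h2 (pow_ne_zero 2 hκ.ne'))).add (contDiffAt_const.div h hκ.ne'))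
  · have h := kp_dv D q.1
    have h2 := ((hasDerivAt_const q.1 D.π₀).div (h.pow 2) (pow_ne_zero 2 hκ.ne'))
    have h3 := ((hasDerivAt_const q.1 (D.δ ^ 4)).div h hκ.ne')
    have h4 := ((h2.const_add D.N).add h3).const_mul D.L₀
    have h5 : deriv D.Ls q.1 = _ := h4.deriv
    rw [h5]
    obtain ⟨-, -, hL, -, hp⟩ := hA.hj
    refine mul_nonneg (zero_le_one.trans hL) (add_nonneg ?_ ?_)
    · refine div_nonneg ?_ (by positivity)
      have : 0 ≤ D.π₀ * (2 * D.kp q.1 * D.m.im) := by positivity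
      simp only [Nat.cast_ofNat, Nat.add_one_sub_one, pow_one, zero_mul, zero_sub] at *
      nlinarith only [this]
    · refine div_nonneg ?_ (by positivity)
      have : 0 ≤ D.δ ^ 4 * D.m.im := by positivity
      rw [zero_mul, zero_sub]
      nlinarith only [this]

end Pool.Agent.LE.QF.H76
end
end -- Pool.Agent.Helper76_LQF.RSJ

section -- Pool.Agent.Helper17_LQZ.RSJ

/-!
# Squad LQZ, row RSJ: the jet of the resolvent on the torus (copy of `Helper56_LQX/RSJ.lean`)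
-/

set_option autoImplicit false

open MeasureTheory ProbabilityTheory Function Filter

open scoped ENNReal BigOperators Topology NNReal ComplexOrder Matrix

noncomputable section

namespace Pool.Agent.LE.QZ.H17

open Pool.Agent.Anderson hiding box mem_box card_box
open Pool.Agent.Loc Pool.Agent.Mob Pool.Agent.Helper54.Bal
  Pool.Agent.Helper96.EXP Pool.Agent.BED
open Pool.Agent.LE.MN Pool.Agent.LE.CL Pool.Agent.LE.IR Pool.Agent.LE.QD Pool.Agent.LE.QF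
open Pool.Agent.LE.QD.H76 (hz_unit rs_mul mul_rs rs_symm rs_conj res_en)
open Pool.Agent.LE.QF.H76 (gec gec2)

variable {d M : ℕ} [NeZero M]

omit [NeZero M] in
theorem zt_im (D : Dat d M) (t : ℝ) : (D.zt t).im = D.kp t := by
  unfold Dat.zt Dat.kp
  rw [Complex.add_im, Complex.mul_im, Complex.ofReal_re, Complex.ofReal_im, zero_mul, add_zero]

omit [NeZero M] in
theorem zt_cd (D : Dat d M) (t : ℝ) : ContDiffAt ℝ 2 (fun s => -D.zt s) t := by
  unfold Dat.zt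
  have h1 : ContDiffAt ℝ 2 (fun s : ℝ => ((D.T - s : ℝ) : ℂ)) t :=
    Complex.ofRealCLM.contDiff.contDiffAt.comp t (contDiffAt_const.sub contDiffAt_id)
  exact (contDiffAt_const.add (h1.mul contDiffAt_const)).neg

omit [NeZero M] in
theorem zt_dv (D : Dat d M) (t : ℝ) : deriv (fun s => -D.zt s) t = D.m := by
  unfold Dat.zt
  have h1 : HasDerivAt (fun s : ℝ => ((D.T - s : ℝ) : ℂ)) (((-1 : ℝ)) : ℂ) t :=
    HasDerivAt.ofReal_comp ((hasDerivAt_id t).const_sub D.T)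
  have h2 := ((h1.mul_const D.m).const_add (⟨D.E, D.η⟩ : ℂ)).neg
  have h3 : deriv (fun s : ℝ => -((⟨D.E, D.η⟩ : ℂ) + ((D.T - s : ℝ) : ℂ) * D.m)) t = _ := h2.deriv
  rw [h3]
  push_cast
  ring

omit [NeZero M] in
theorem kp_dv (D : Dat d M) (t : ℝ) : HasDerivAt D.kp (-D.m.im) t := by
  unfold Dat.kp
  have h := (((hasDerivAt_id t).const_sub D.T).mul_const D.m.im).const_add D.η
  have e : (-1 : ℝ) * D.m.im = -D.m.im := by ring
  rw [e] at h
  exact h

omit [NeZero M] in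
theorem kp_cd (D : Dat d M) (t : ℝ) : ContDiffAt ℝ 2 D.kp t := by
  unfold Dat.kp
  exact contDiffAt_const.add ((contDiffAt_const.sub contDiffAt_id).mul contDiffAt_const)

/-- the jet of `H - z` -/
theorem hzj (jal : JalStmt) (D : Dat d M) (q : ℝ × (Tor d M → ℝ)) :
    HM (fun r => hz r.2 (D.zt r.1)) q (hz q.2 (D.zt q.1))
      (fun c => Matrix.diagonal fun a => if c = a then 1 else 0)
      (Matrix.diagonal fun _ => D.m) := by
  obtain ⟨J1, J2, J3, -, -, -, J7, -⟩ := jal (Tor d M) ℂ q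
  intro a b
  have hc := J1 (((adj d M).map fun x : ℝ => (x : ℂ)) a b)
  by_cases h : a = b
  · subst h
    have h2 := J2 a
    have h3 := J7 (fun s => -D.zt s) (zt_cd D q.1)
    rw [zt_dv] at h3
    have h4 := (J3 _ _ _ _ _ _ _ _ hc (J3 _ _ _ _ _ _ _ _ h2 h3).1).1
    have e1 : (fun r : ℝ × (Tor d M → ℝ) => hz r.2 (D.zt r.1) a a) = fun r =>
        ((adj d M).map fun x : ℝ => (x : ℂ)) a a + (((r.2 a : ℝ) : ℂ) + -D.zt r.1) := by
      funext r
      unfold hz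
      rw [Matrix.add_apply, Matrix.diagonal_apply_eq, sub_eq_add_neg]
    have e2 : hz q.2 (D.zt q.1) a a =
        ((adj d M).map fun x : ℝ => (x : ℂ)) a a + (((q.2 a : ℝ) : ℂ) + -D.zt q.1) :=
      congrFun e1 q
    rw [e1, e2]
    simp only [Matrix.diagonal_apply_eq]
    have e3 : (fun c : Tor d M => (0 : ℂ) + ((if c = a then 1 else 0) + 0)) =
        fun c => if c = a then 1 else 0 := by
      funext c
      rw [zero_add, add_zero]
    have e4 : (0 : ℂ) + (0 + D.m) = D.m := by rw [zero_add, zero_add]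
    rw [e4] at h4
    rw [← e3]
    exact h4
  · have e1 : (fun r : ℝ × (Tor d M → ℝ) => hz r.2 (D.zt r.1) a b) = fun _ =>
        ((adj d M).map fun x : ℝ => (x : ℂ)) a b := by
      funext r
      unfold hz
      rw [Matrix.add_apply, Matrix.diagonal_apply_ne _ h, add_zero]
    have e2 : hz q.2 (D.zt q.1) a b = ((adj d M).map fun x : ℝ => (x : ℂ)) a b := congrFun e1 q
    rw [e1, e2]
    simp only [Matrix.diagonal_apply_ne _ h]
    exact hc

theorem rsj (jal : JalStmt) (jma : JmaStmt) : RsjStmt := by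
  intro d M _ D c₁ C₁ c₀ q hc₁ hA hκ
  have hm : 0 < D.m.im := hc₁.trans_le hA.hm.1
  have hz0 : (D.zt q.1).im ≠ 0 := by
    rw [zt_im]
    exact hκ.ne'
  have hz1 : ((starRingEnd ℂ) (D.zt q.1)).im ≠ 0 := by
    rw [Complex.conj_im]
    exact neg_ne_zero.2 hz0
  refine ⟨⟨?_, ?_, ?_, rfl, ?_⟩, ?_, ?_, ?_, ?_, ?_, ?_⟩
  · have h1 := ((jma (Tor d M) ℂ q).2 (Tor d M) _ _ _ _ (hzj jal D q)).1 (hz_unit q.2 hz0)
    have e1 : (fun c => -((hz q.2 (D.zt q.1))⁻¹ *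
        (Matrix.diagonal fun a => if c = a then 1 else 0) * (hz q.2 (D.zt q.1))⁻¹)) =
        gG (D.G q) := by
      funext c
      exact gec _ c
    have e2 := gec2 (D.G q) D.m
    rw [e1] at h1
    rw [← e2]
    exact h1
  · intro a b
    exact rs_symm _ _ a b
  · unfold Dat.ta
    exact (kp_cd D q.1).div_const _
  · unfold Dat.ta
    rw [((kp_dv D q.1).div_const D.m.im).deriv, neg_div, div_self hm.ne']
  · intro a b
    have h1 := congrFun (congrFun (res_en q.2 hz0 hz1) a) b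
    rw [rs_conj, Matrix.sub_apply, Matrix.smul_apply, Matrix.mul_apply,
      Matrix.conjTranspose_apply] at h1
    have h2 : ∑ c, rs q.2 (D.zt q.1) a c * (rs q.2 (D.zt q.1))ᴴ c b =
        ∑ c, D.G q a c * (starRingEnd ℂ) (D.G q b c) := rfl
    rw [h2, rs_symm q.2 _ b a] at h1
    have h3 : D.zt q.1 - (starRingEnd ℂ) (D.zt q.1) = 2 * Complex.I * (D.kp q.1 : ℂ) := by
      rw [Complex.sub_conj, zt_im]
      push_cast
      ring
    have h4 : rs q.2 (D.zt q.1) a b - star (rs q.2 (D.zt q.1) a b) =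
        2 * Complex.I * ((D.G q a b).im : ℂ) := by
      have h5 := Complex.sub_conj (rs q.2 (D.zt q.1) a b)
      rw [show star (rs q.2 (D.zt q.1) a b) = (starRingEnd ℂ) (rs q.2 (D.zt q.1) a b) from rfl, h5]
      unfold Dat.G
      push_cast
      ring
    rw [h3, h4, smul_eq_mul, mul_assoc, mul_assoc, mul_assoc] at h1
    have h6 := mul_left_cancel₀ (two_ne_zero' ℂ) h1
    exact (mul_left_cancel₀ Complex.I_ne_zero h6).symm
  · intro a b
    exact rs_symm _ _ a b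
  · unfold Dat.ta
    rw [div_mul_cancel₀ _ hm.ne']
  · intro h0 hT
    unfold Dat.w Dat.kp
    constructor
    · nlinarith only [hm, hT]
    · nlinarith only [hm, h0]
  · unfold Dat.Ls
    have h := kp_cd D q.1
    exact contDiffAt_const.mul ((contDiffAt_const.add
      (contDiffAt_const.div h hκ.ne')).add (contDiffAt_const.div h hκ.ne'))
  · have h := kp_dv D q.1
    have h2 := ((hasDerivAt_const q.1 D.π₀).div h hκ.ne')
    have h3 := ((hasDerivAt_const q.1 (D.δ ^ 4)).div h hκ.ne')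
    have h4 := ((h2.const_add D.N).add h3).const_mul D.L₀
    have h5 : deriv D.Ls q.1 = _ := h4.deriv
    rw [h5]
    obtain ⟨-, -, hL, -, hp⟩ := hA.hj
    refine mul_nonneg (zero_le_one.trans hL) (add_nonneg ?_ ?_)
    · refine div_nonneg ?_ (by positivity)
      have : 0 ≤ D.π₀ * D.m.im := by positivity
      rw [zero_mul, zero_sub]
      nlinarith only [this]
    · refine div_nonneg ?_ (by positivity)
      have : 0 ≤ D.δ ^ 4 * D.m.im := by positivity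
      rw [zero_mul, zero_sub]
      nlinarith only [this]

end Pool.Agent.LE.QZ.H17
end
end -- Pool.Agent.Helper17_LQZ.RSJ

section -- Pool.Agent.Helper56_LQX.RSJ

/-!
# Squad LQX, row RSJ: the jet of the resolvent on the torus (adapted from `Helper76_LQF/RSJ.lean`)
-/

set_option autoImplicit false

open MeasureTheory ProbabilityTheory Function Filter

open scoped ENNReal BigOperators Topology NNReal ComplexOrder Matrix

noncomputable section

namespace Pool.Agent.LE.QX.H56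

open Pool.Agent.Anderson hiding box mem_box card_box
open Pool.Agent.Loc Pool.Agent.Mob Pool.Agent.Helper54.Bal
  Pool.Agent.Helper96.EXP Pool.Agent.BED
open Pool.Agent.LE.MN Pool.Agent.LE.CL Pool.Agent.LE.IR Pool.Agent.LE.QD Pool.Agent.LE.QF
open Pool.Agent.LE.QD.H76 (hz_unit rs_mul mul_rs rs_symm rs_conj res_en)
open Pool.Agent.LE.QF.H76 (gec gec2)

variable {d M : ℕ} [NeZero M]

omit [NeZero M] in
theorem zt_im (D : Dat d M) (t : ℝ) : (D.zt t).im = D.kp t := by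
  unfold Dat.zt Dat.kp
  rw [Complex.add_im, Complex.mul_im, Complex.ofReal_re, Complex.ofReal_im, zero_mul, add_zero]

omit [NeZero M] in
theorem zt_cd (D : Dat d M) (t : ℝ) : ContDiffAt ℝ 2 (fun s => -D.zt s) t := by
  unfold Dat.zt
  have h1 : ContDiffAt ℝ 2 (fun s : ℝ => ((D.T - s : ℝ) : ℂ)) t :=
    Complex.ofRealCLM.contDiff.contDiffAt.comp t (contDiffAt_const.sub contDiffAt_id)
  exact (contDiffAt_const.add (h1.mul contDiffAt_const)).neg

omit [NeZero M] in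
theorem zt_dv (D : Dat d M) (t : ℝ) : deriv (fun s => -D.zt s) t = D.m := by
  unfold Dat.zt
  have h1 : HasDerivAt (fun s : ℝ => ((D.T - s : ℝ) : ℂ)) (((-1 : ℝ)) : ℂ) t :=
    HasDerivAt.ofReal_comp ((hasDerivAt_id t).const_sub D.T)
  have h2 := ((h1.mul_const D.m).const_add (⟨D.E, D.η⟩ : ℂ)).neg
  have h3 : deriv (fun s : ℝ => -((⟨D.E, D.η⟩ : ℂ) + ((D.T - s : ℝ) : ℂ) * D.m)) t = _ := h2.deriv
  rw [h3]
  push_cast
  ring

omit [NeZero M] in
theorem kp_dv (D : Dat d M) (t : ℝ) : HasDerivAt D.kp (-D.m.im) t := by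
  unfold Dat.kp
  have h := (((hasDerivAt_id t).const_sub D.T).mul_const D.m.im).const_add D.η
  have e : (-1 : ℝ) * D.m.im = -D.m.im := by ring
  rw [e] at h
  exact h

omit [NeZero M] in
theorem kp_cd (D : Dat d M) (t : ℝ) : ContDiffAt ℝ 2 D.kp t := by
  unfold Dat.kp
  exact contDiffAt_const.add ((contDiffAt_const.sub contDiffAt_id).mul contDiffAt_const)

/-- the jet of `H - z` -/
theorem hzj (jal : JalStmt) (D : Dat d M) (q : ℝ × (Tor d M → ℝ)) :
    HM (fun r => hz r.2 (D.zt r.1)) q (hz q.2 (D.zt q.1))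
      (fun c => Matrix.diagonal fun a => if c = a then 1 else 0)
      (Matrix.diagonal fun _ => D.m) := by
  obtain ⟨J1, J2, J3, -, -, -, J7, -⟩ := jal (Tor d M) ℂ q
  intro a b
  have hc := J1 (((adj d M).map fun x : ℝ => (x : ℂ)) a b)
  by_cases h : a = b
  · subst h
    have h2 := J2 a
    have h3 := J7 (fun s => -D.zt s) (zt_cd D q.1)
    rw [zt_dv] at h3
    have h4 := (J3 _ _ _ _ _ _ _ _ hc (J3 _ _ _ _ _ _ _ _ h2 h3).1).1
    have e1 : (fun r : ℝ × (Tor d M → ℝ) => hz r.2 (D.zt r.1) a a) = fun r =>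
        ((adj d M).map fun x : ℝ => (x : ℂ)) a a + (((r.2 a : ℝ) : ℂ) + -D.zt r.1) := by
      funext r
      unfold hz
      rw [Matrix.add_apply, Matrix.diagonal_apply_eq, sub_eq_add_neg]
    have e2 : hz q.2 (D.zt q.1) a a =
        ((adj d M).map fun x : ℝ => (x : ℂ)) a a + (((q.2 a : ℝ) : ℂ) + -D.zt q.1) :=
      congrFun e1 q
    rw [e1, e2]
    simp only [Matrix.diagonal_apply_eq]
    have e3 : (fun c : Tor d M => (0 : ℂ) + ((if c = a then 1 else 0) + 0)) =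
        fun c => if c = a then 1 else 0 := by
      funext c
      rw [zero_add, add_zero]
    have e4 : (0 : ℂ) + (0 + D.m) = D.m := by rw [zero_add, zero_add]
    rw [e4] at h4
    rw [← e3]
    exact h4
  · have e1 : (fun r : ℝ × (Tor d M → ℝ) => hz r.2 (D.zt r.1) a b) = fun _ =>
        ((adj d M).map fun x : ℝ => (x : ℂ)) a b := by
      funext r
      unfold hz
      rw [Matrix.add_apply, Matrix.diagonal_apply_ne _ h, add_zero]
    have e2 : hz q.2 (D.zt q.1) a b = ((adj d M).map fun x : ℝ => (x : ℂ)) a b := congrFun e1 q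
    rw [e1, e2]
    simp only [Matrix.diagonal_apply_ne _ h]
    exact hc

theorem rsj (jal : JalStmt) (jma : JmaStmt) : RsjStmt := by
  intro d M _ D c₁ C₁ c₀ q hc₁ hA hκ
  have hm : 0 < D.m.im := hc₁.trans_le hA.hm.1
  have hz0 : (D.zt q.1).im ≠ 0 := by
    rw [zt_im]
    exact hκ.ne'
  have hz1 : ((starRingEnd ℂ) (D.zt q.1)).im ≠ 0 := by
    rw [Complex.conj_im]
    exact neg_ne_zero.2 hz0
  refine ⟨⟨?_, ?_, ?_, rfl, ?_⟩, ?_, ?_, ?_, ?_, ?_, ?_⟩
  · have h1 := ((jma (Tor d M) ℂ q).2 (Tor d M) _ _ _ _ (hzj jal D q)).1 (hz_unit q.2 hz0)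
    have e1 : (fun c => -((hz q.2 (D.zt q.1))⁻¹ *
        (Matrix.diagonal fun a => if c = a then 1 else 0) * (hz q.2 (D.zt q.1))⁻¹)) =
        gG (D.G q) := by
      funext c
      exact gec _ c
    have e2 := gec2 (D.G q) D.m
    rw [e1] at h1
    rw [← e2]
    exact h1
  · intro a b
    exact rs_symm _ _ a b
  · unfold Dat.ta
    exact (kp_cd D q.1).div_const _
  · unfold Dat.ta
    rw [((kp_dv D q.1).div_const D.m.im).deriv, neg_div, div_self hm.ne']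
  · intro a b
    have h1 := congrFun (congrFun (res_en q.2 hz0 hz1) a) b
    rw [rs_conj, Matrix.sub_apply, Matrix.smul_apply, Matrix.mul_apply,
      Matrix.conjTranspose_apply] at h1
    have h2 : ∑ c, rs q.2 (D.zt q.1) a c * (rs q.2 (D.zt q.1))ᴴ c b =
        ∑ c, D.G q a c * (starRingEnd ℂ) (D.G q b c) := rfl
    rw [h2, rs_symm q.2 _ b a] at h1
    have h3 : D.zt q.1 - (starRingEnd ℂ) (D.zt q.1) = 2 * Complex.I * (D.kp q.1 : ℂ) := by
      rw [Complex.sub_conj, zt_im]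
      push_cast
      ring
    have h4 : rs q.2 (D.zt q.1) a b - star (rs q.2 (D.zt q.1) a b) =
        2 * Complex.I * ((D.G q a b).im : ℂ) := by
      have h5 := Complex.sub_conj (rs q.2 (D.zt q.1) a b)
      rw [show star (rs q.2 (D.zt q.1) a b) = (starRingEnd ℂ) (rs q.2 (D.zt q.1) a b) from rfl, h5]
      unfold Dat.G
      push_cast
      ring
    rw [h3, h4, smul_eq_mul, mul_assoc, mul_assoc, mul_assoc] at h1
    have h6 := mul_left_cancel₀ (two_ne_zero' ℂ) h1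
    exact (mul_left_cancel₀ Complex.I_ne_zero h6).symm
  · intro a b
    exact rs_symm _ _ a b
  · unfold Dat.ta
    rw [div_mul_cancel₀ _ hm.ne']
  · intro h0 hT
    unfold Dat.w Dat.kp
    constructor
    · nlinarith only [hm, hT]
    · nlinarith only [hm, h0]
  · unfold Dat.Ls
    have h := kp_cd D q.1
    exact contDiffAt_const.mul ((contDiffAt_const.add
      (contDiffAt_const.div h hκ.ne')).add (contDiffAt_const.div h hκ.ne'))
  · have h := kp_dv D q.1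
    have h2 := ((hasDerivAt_const q.1 D.π₀).div h hκ.ne')
    have h3 := ((hasDerivAt_const q.1 (D.δ ^ 4)).div h hκ.ne')
    have h4 := ((h2.const_add D.N).add h3).const_mul D.L₀
    have h5 : deriv D.Ls q.1 = _ := h4.deriv
    rw [h5]
    obtain ⟨-, -, hL, -, hp⟩ := hA.hj
    refine mul_nonneg (zero_le_one.trans hL) (add_nonneg ?_ ?_)
    · refine div_nonneg ?_ (by positivity)
      have : 0 ≤ D.π₀ * D.m.im := by positivity
      rw [zero_mul, zero_sub]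
      nlinarith only [this]
    · refine div_nonneg ?_ (by positivity)
      have : 0 ≤ D.δ ^ 4 * D.m.im := by positivity
      rw [zero_mul, zero_sub]
      nlinarith only [this]

end Pool.Agent.LE.QX.H56
end
end -- Pool.Agent.Helper56_LQX.RSJ

section -- Pool.Agent.Helper94_LQX.EIG

/-!
# Squad LQX (MP_1906c1_mp), row EIG: all local quasimodes are extended
-/

set_option autoImplicit false

open MeasureTheory ProbabilityTheory Function Filter

open scoped ENNReal BigOperators Topology NNReal ComplexOrder Matrix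

noncomputable section

namespace Pool.Agent.LE.QX.H94

open Pool.Agent.Anderson hiding box mem_box card_box
open Pool.Agent.Loc Pool.Agent.Mob Pool.Agent.Helper54.Bal
  Pool.Agent.Helper96.EXP Pool.Agent.BED
open Pool.Agent.LE.MN Pool.Agent.LE.CL Pool.Agent.LE.IR Pool.Agent.LE.QD Pool.Agent.LE.QF

/-! ### Numbers -/

theorem num1 {s t : ℝ} (hs : 0 < s) (hs1 : s ≤ 1 / 4) (ht : s ^ (-4 : ℝ) ≤ t) :
    1 ≤ t * s ^ 4 ∧ 256 ≤ t ∧ 4 / t ≤ s ^ 3 := by
  have e1 : s ^ (-4 : ℝ) = (s ^ 4)⁻¹ := by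
    rw [Real.rpow_neg hs.le]
    congr 1
    exact_mod_cast Real.rpow_natCast s 4
  rw [e1] at ht
  have h4 : 0 < s ^ 4 := by positivity
  have h1 : 1 ≤ t * s ^ 4 := by
    have := mul_le_mul_of_nonneg_right ht h4.le
    rwa [inv_mul_cancel₀ h4.ne'] at this
  have h5 : s ^ 4 ≤ 1 / 256 := by
    have := pow_le_pow_left₀ hs.le hs1 4
    norm_num at this ⊢
    exact this
  have ht0 : 0 < t := by
    by_contra h
    push Not at h
    nlinarith only [h4, h1, h5, h]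
  have h2 : 256 ≤ t := by nlinarith only [h4, h1, h5]
  refine ⟨h1, h2, ?_⟩
  rw [div_le_iff₀ ht0]
  have h6 : 4 * s ≤ s * (s ^ 3 * t) := by
    have : s * (s ^ 3 * t) = t * s ^ 4 := by ring
    rw [this]
    linarith only [hs1, h1]
  nlinarith only [hs, hs1, h1]

theorem num2 {d : ℕ} (hd : 3 ≤ d) {s t ε : ℝ} (hs : 0 < s) (hs1 : s ≤ 1) (hε : ε ≤ 1)
    (ht : 256 ≤ t) : t ≤ (s ^ (ε - 1) / Real.sqrt (4 / t)) ^ d := by
  have ht0 : 0 < t := by linarith only [ht]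
  obtain ⟨y, hy⟩ : ∃ y, y = Real.sqrt (t / 4) := ⟨_, rfl⟩
  have hy2 : y ^ 2 = t / 4 := by
    rw [hy]
    exact Real.sq_sqrt (by positivity)
  have hy0 : 0 ≤ y := hy ▸ Real.sqrt_nonneg _
  have hy8 : 8 ≤ y := by
    by_contra h
    push Not at h
    nlinarith only [ht, hy2, hy0, h]
  have e1 : (Real.sqrt (4 / t))⁻¹ = y := by
    rw [hy, ← Real.sqrt_inv]
    congr 1
    rw [inv_div]
  have h1 : 1 ≤ s ^ (ε - 1) := Real.one_le_rpow_of_pos_of_le_one_of_nonpos hs hs1 (by linarith only [hε])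
  have h2 : y ≤ s ^ (ε - 1) / Real.sqrt (4 / t) := by
    rw [div_eq_mul_inv, e1]
    nlinarith only [hy0, h1]
  have h3 : y ^ d ≤ (s ^ (ε - 1) / Real.sqrt (4 / t)) ^ d := pow_le_pow_left₀ hy0 h2 d
  refine le_trans ?_ h3
  have h4 : y ^ 3 ≤ y ^ d := pow_le_pow_right₀ (by linarith only [hy8]) hd
  refine le_trans ?_ h4
  have e2 : y ^ 3 = y * (t / 4) := by rw [← hy2]; ring
  rw [e2]
  nlinarith only [ht, hy2, hy8, e2]

theorem num3 {d : ℕ} (hd : 3 ≤ d) {s t θ : ℝ} (hs : 0 < s)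
    (hθ : s ^ θ ≤ 1 / (48 * d)) (ht0 : 1 ≤ t) (ht : t ≤ Real.exp (s ^ (-θ))) :
    2 * (2 * d * t + 1) * Real.exp (-(s ^ (-(2 * (4 * θ))))) ≤ Real.exp (-(s ^ (-θ))) := by
  have hd0 : (3 : ℝ) ≤ d := by exact_mod_cast hd
  obtain ⟨X, hX⟩ : ∃ X, X = s ^ (-θ) := ⟨_, rfl⟩
  have hX0 : 48 * (d : ℝ) ≤ X := by
    rw [hX, Real.rpow_neg hs.le]
    rw [le_inv_comm₀ (by positivity) (Real.rpow_pos_of_pos hs _)]
    rwa [one_div] at hθ
  have e1 : s ^ (-(2 * (4 * θ))) = X ^ 8 := by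
    rw [hX, ← Real.rpow_natCast, ← Real.rpow_mul hs.le]
    congr 1
    push_cast
    ring
  rw [e1]
  rw [← hX] at ht ⊢
  have h1 : 6 * (d : ℝ) ≤ Real.exp X := by
    have := Real.add_one_le_exp X
    linarith only [hd0, hX0, this]
  have h2 : 2 * (2 * (d : ℝ) * t + 1) ≤ 6 * d * t := by nlinarith only [ht0, hd0]
  have h3 : 3 * X ≤ X ^ 8 := by
    have h4 : 3 ≤ X := by linarith only [hd0, hX0]
    have h5 : X * 3 ≤ X * X ^ 7 := by
      refine mul_le_mul_of_nonneg_left ?_ (by linarith only [hd0, hX0])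
      calc (3 : ℝ) ≤ X := h4
        _ = X ^ 1 := (pow_one X).symm
        _ ≤ X ^ 7 := pow_le_pow_right₀ (by linarith only [hd0, hX0]) (by norm_num)
    calc 3 * X = X * 3 := by ring
      _ ≤ X * X ^ 7 := h5
      _ = X ^ 8 := by ring
  calc 2 * (2 * d * t + 1) * Real.exp (-X ^ 8) ≤ (6 * d * t) * Real.exp (-X ^ 8) :=
        mul_le_mul_of_nonneg_right h2 (Real.exp_pos _).le
    _ ≤ (Real.exp X * Real.exp X) * Real.exp (-X ^ 8) := by
        refine mul_le_mul_of_nonneg_right ?_ (Real.exp_pos _).le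
        exact mul_le_mul h1 ht (by linarith only [ht0]) (Real.exp_pos _).le
    _ = Real.exp (X + X + -X ^ 8) := by rw [Real.exp_add, Real.exp_add]
    _ ≤ Real.exp (-X) := Real.exp_le_exp.2 (by linarith only [h3])

theorem num4 {s t η B θ n : ℝ} (hs : 0 < s) (ht : 0 < t) (hη : η = 4 / t) (hn : n ≤ t)
    (hB : B = s ^ (4 * θ) * n / η) (h8 : s ^ θ ≤ 1 / 8) : 4 * η * Real.sqrt B ≤ s ^ θ := by
  have hη0 : 0 < η := by rw [hη]; positivity
  have hp : 0 < s ^ θ := Real.rpow_pos_of_pos hs _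
  have e1 : s ^ (4 * θ) = (s ^ θ) ^ 4 := by
    rw [← Real.rpow_natCast, ← Real.rpow_mul hs.le]
    congr 1
    push_cast
    ring
  have h1 : Real.sqrt B ≤ s ^ θ / (4 * η) := by
    rw [Real.sqrt_le_iff]
    refine ⟨by positivity, ?_⟩
    rw [hB, e1, div_pow, div_le_div_iff₀ hη0 (by positivity)]
    have h2 : η * n ≤ 4 := by
      rw [hη, div_mul_eq_mul_div, div_le_iff₀ ht]
      linarith only [hn]
    have h3 : (s ^ θ) ^ 2 ≤ 1 / 64 := by
      have := pow_le_pow_left₀ hp.le h8 2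
      norm_num at this ⊢
      exact this
    have h4 : (s ^ θ) ^ 4 * n * (4 * η) ^ 2 = ((s ^ θ) ^ 2 * (η * n) * 16) * ((s ^ θ) ^ 2 * η) := by
      ring
    rw [h4]
    have h5 : (s ^ θ) ^ 2 * (η * n) * 16 ≤ 1 := by
      have h6 : (s ^ θ) ^ 2 * (η * n) ≤ (s ^ θ) ^ 2 * 4 :=
        mul_le_mul_of_nonneg_left h2 (by positivity)
      linarith only [h3, h6]
    have h7 : 0 ≤ (s ^ θ) ^ 2 * η := by positivity
    nlinarith only [h8, hp, h5, h7]
  have h2 : 4 * η * Real.sqrt B ≤ 4 * η * (s ^ θ / (4 * η)) :=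
    mul_le_mul_of_nonneg_left h1 (by positivity)
  refine h2.trans (le_of_eq ?_)
  field_simp

/-! ### The grid -/

theorem grid {s₀ t E b : ℝ} (ht : 0 < t) (h1 : s₀ ≤ |E|) (h2 : |E| ≤ b) (hs : 0 ≤ s₀) :
    ∃ j ∈ Finset.range (⌊b * t⌋₊ + 1), s₀ + j / t ≤ b ∧
      (|E - (s₀ + j / t)| ≤ 1 / t ∨ |E - (-(s₀ + j / t))| ≤ 1 / t) := by
  refine ⟨⌊(|E| - s₀) * t⌋₊, ?_, ?_, ?_⟩
  · rw [Finset.mem_range]
    refine Nat.lt_succ_of_le (Nat.floor_le_floor ?_)
    refine mul_le_mul_of_nonneg_right ?_ ht.le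
    linarith
  · have h3 := Nat.floor_le (mul_nonneg (sub_nonneg.2 h1) ht.le)
    have h4 : (⌊(|E| - s₀) * t⌋₊ : ℝ) / t ≤ |E| - s₀ := by
      rw [div_le_iff₀ ht]
      exact h3
    linarith
  · have h3 := Nat.floor_le (mul_nonneg (sub_nonneg.2 h1) ht.le)
    have h5 := Nat.lt_floor_add_one ((|E| - s₀) * t)
    have h4 : (⌊(|E| - s₀) * t⌋₊ : ℝ) / t ≤ |E| - s₀ := by
      rw [div_le_iff₀ ht]
      exact h3
    have h6 : |E| - s₀ ≤ (⌊(|E| - s₀) * t⌋₊ : ℝ) / t + 1 / t := by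
      rw [← add_div, le_div_iff₀ ht]
      exact h5.le
    rcases abs_cases E with ⟨h7, h8⟩ | ⟨h7, h8⟩
    · left
      rw [abs_le]
      rw [h7] at h4 h6 ⊢
      constructor <;> linarith [one_div_pos.2 ht]
    · right
      rw [abs_le]
      rw [h7] at h4 h6 ⊢
      constructor <;> linarith [one_div_pos.2 ht]

/-- the good event on the torus -/
def Gd (d M : ℕ) [NeZero M] (c s ε θ E η : ℝ) (V : Tor d M → ℝ) : Prop :=
  (∀ x, c ≤ (rs V ⟨E, η⟩ x x).im) ∧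
    ∀ C' : Finset (Tor d M), (C'.card : ℝ) ≤ (s ^ (ε - 1) / Real.sqrt η) ^ d →
      mss V ⟨E, η⟩ C' ≤ s ^ θ * C'.card / η

theorem union_le {d M : ℕ} [NeZero M] {σ : ℝ} (hσ : σ ≠ 0) {v : ℝ≥0} (hv : (v : ℝ) = σ ^ 2)
    (N : ℕ) (p : ℕ → Prop) (P : ℕ → (Tor d M → ℝ) → Prop) {q : ℝ} (hq : 0 ≤ q)
    (hP : ∀ j, p j → gau d M v {V | ¬ P j V} ≤ ENNReal.ofReal q) :
    PP d (gl σ) (⋃ j ∈ Finset.range N, {V | p j ∧ ¬ P j (fun x : Tor d M => V (0 + rep x))}) ≤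
      ENNReal.ofReal (N * q) := by
  refine (measure_biUnion_finset_le _ _).trans ?_
  have h1 : ∀ j ∈ Finset.range N,
      PP d (gl σ) {V | p j ∧ ¬ P j (fun x : Tor d M => V (0 + rep x))} ≤ ENNReal.ofReal q := by
    intro j _
    by_cases hp : p j
    · refine (measure_mono ?_).trans (Pool.Agent.LE.IR.H54.law_le hσ hv 0 (P j) (hP j hp))
      intro V hV
      exact hV.2
    · have h2 : {V : Site d → ℝ | p j ∧ ¬ P j (fun x : Tor d M => V (0 + rep x))} = ∅ := by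
        ext V
        simp [hp]
      rw [h2, measure_empty]
      exact zero_le
  refine (Finset.sum_le_sum h1).trans (le_of_eq ?_)
  rw [Finset.sum_const, Finset.card_range, nsmul_eq_mul, ← ENNReal.ofReal_natCast,
    ← ENNReal.ofReal_mul (Nat.cast_nonneg _)]

/-- row EIG -/
theorem eig (tof : TofStmt) (egb : EgbStmt) : EigStmt := by
  intro d a ε hd ha hε hε1
  obtain ⟨θ', c', hθ', -, hc', hc'1, htof⟩ := tof d a ε hd ha hε hε1
  obtain ⟨θ, hθ⟩ : ∃ θ, θ = θ' / 4 := ⟨_, rfl⟩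
  have hθ0 : 0 < θ := by rw [hθ]; positivity
  have hθ4 : θ' = 4 * θ := by rw [hθ]; ring
  rw [hθ4] at htof
  have hd0 : (3 : ℝ) ≤ d := by exact_mod_cast hd
  obtain ⟨c, hc⟩ : ∃ c : ℝ, c = min c' (min (1 / (16 * (4 * d + 13))) ((1 / (48 * d)) ^ (1 / θ))) :=
    ⟨_, rfl⟩
  have hc0 : 0 < c := by
    rw [hc]
    exact lt_min hc' (lt_min (by positivity) (Real.rpow_pos_of_pos (by positivity) _))
  have hc1 : c ≤ c' := hc ▸ min_le_left _ _
  have hc2 : c ≤ 1 / (16 * (4 * d + 13)) := hc ▸ (min_le_right _ _).trans (min_le_left _ _)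
  have hc3 : c ≤ (1 / (48 * d)) ^ (1 / θ) := hc ▸ (min_le_right _ _).trans (min_le_right _ _)
  refine ⟨θ, c, hθ0, hc0, hc1.trans hc'1, ?_⟩
  intro σ t hσ hσc ht1 ht2
  obtain ⟨s, hs⟩ : ∃ s, s = |σ| := ⟨_, rfl⟩
  have hs0 : 0 < s := hs ▸ abs_pos.2 hσ
  rw [← hs] at hσc ht1 ht2 ⊢
  have hs4 : s ≤ 1 / 4 := hσc.trans (hc1.trans hc'1)
  have hs1 : s ≤ 1 := by linarith only [hc', hc'1, hc1, hσc]
  obtain ⟨n1, ht256, hη3⟩ := num1 hs0 hs4 ht1
  have ht0 : 0 < t := by linarith only [hc', hc'1, ht256]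
  have hsθ : s ^ θ ≤ 1 / (48 * d) := by
    have h1 : s ^ θ ≤ ((1 / (48 * d)) ^ (1 / θ)) ^ θ :=
      Real.rpow_le_rpow hs0.le (hσc.trans hc3) hθ0.le
    rwa [← Real.rpow_mul (by positivity), one_div_mul_cancel hθ0.ne', Real.rpow_one] at h1
  have hsθ8 : s ^ θ ≤ 1 / 8 := by
    refine hsθ.trans ?_
    rw [div_le_div_iff₀ (by positivity) (by norm_num)]
    linarith only [hc', hc'1, hd0]
  obtain ⟨η, hη⟩ : ∃ η, η = 4 / t := ⟨_, rfl⟩
  have hη0 : 0 < η := by rw [hη]; positivity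
  have hη1 : η ≤ 1 := by
    rw [hη, div_le_iff₀ ht0]
    linarith only [hc', hc'1, ht256]
  rw [← hη] at hη3
  -- the torus
  obtain ⟨M, hM⟩ : ∃ M : ℕ, M = ⌈1 / (s ^ 4 * η ^ 2)⌉₊ := ⟨_, rfl⟩
  have hMpos : 0 < 1 / (s ^ 4 * η ^ 2) := by positivity
  have hM1 : 1 / (s ^ 4 * η ^ 2) ≤ M := hM ▸ Nat.le_ceil _
  have hM2 : (M : ℝ) ≤ 1 / (s ^ 4 * η ^ 2) + 1 := hM ▸ (Nat.ceil_lt_add_one hMpos.le).le
  have hM0 : (0 : ℝ) < M := lt_of_lt_of_le hMpos hM1
  haveI : NeZero M := ⟨by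
    intro h
    rw [h, Nat.cast_zero] at hM0
    exact lt_irrefl _ hM0⟩
  have hMa : 1 ≤ s ^ 4 * η ^ 2 * M := by
    rw [div_le_iff₀ (by positivity)] at hM1
    linarith only [hM1]
  have hMb : s ^ 6 * η ^ 2 * M ≤ 1 := by
    have h1 : s ^ 6 * η ^ 2 * M ≤ s ^ 6 * η ^ 2 * (1 / (s ^ 4 * η ^ 2) + 1) :=
      mul_le_mul_of_nonneg_left hM2 (by positivity)
    have h2 : s ^ 6 * η ^ 2 * (1 / (s ^ 4 * η ^ 2) + 1) = s ^ 2 + s ^ 6 * η ^ 2 := by
      field_simp
    rw [h2] at h1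
    have h3 : s ^ 2 ≤ (1 / 4) ^ 2 := pow_le_pow_left₀ hs0.le hs4 2
    have h4 : s ^ 6 ≤ (1 / 4) ^ 6 := pow_le_pow_left₀ hs0.le hs4 6
    have h5 : η ^ 2 ≤ 1 ^ 2 := pow_le_pow_left₀ hη0.le hη1 2
    have h6 : s ^ 6 * η ^ 2 ≤ (1 / 4) ^ 6 * 1 ^ 2 :=
      mul_le_mul h4 h5 (by positivity) (by positivity)
    norm_num at h3 h6
    linarith only [hc', hc'1, h1, h3, h6]
  -- the cube
  obtain ⟨L, hL⟩ : ∃ L : ℕ, L = ⌈d * t⌉₊ := ⟨_, rfl⟩
  have hL1 : (d : ℝ) * t ≤ L := hL ▸ Nat.le_ceil _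
  have hL2 : (L : ℝ) ≤ d * t + 1 := hL ▸ (Nat.ceil_lt_add_one (by positivity)).le
  have hLt : t ≤ L := by nlinarith only [hc', hc'1, hd0, ht256, hL1]
  have hLM : 4 * L + 9 ≤ M := by
    have h1 : ((4 * L + 9 : ℕ) : ℝ) ≤ M := by
      refine le_trans ?_ hM1
      push_cast
      rw [le_div_iff₀ (by positivity), hη]
      have h2 : s * (16 * (4 * d + 13)) ≤ 1 := by
        have := hσc.trans hc2
        rwa [le_div_iff₀ (by positivity)] at this
      have h3 : (4 * (L : ℝ) + 9) ≤ (4 * d + 13) * t := by nlinarith only [hc', hc'1, ht256, hL2]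
      have h4 : s ^ 4 ≤ s := by
        calc s ^ 4 ≤ s ^ 1 := pow_le_pow_of_le_one hs0.le hs1 (by norm_num)
          _ = s := pow_one s
      calc (4 * (L : ℝ) + 9) * (s ^ 4 * (4 / t) ^ 2) ≤ ((4 * d + 13) * t) * (s * (4 / t) ^ 2) := by
            gcongr
        _ = s * (16 * (4 * d + 13)) / t := by
            field_simp
            ring
        _ ≤ 1 / t := by gcongr
        _ ≤ 1 := by
            rw [div_le_iff₀ ht0]
            linarith only [hc', hc'1, ht256]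
    exact_mod_cast h1
  have hLη : 4 * (d : ℝ) ≤ η * L := by
    have h1 : η * (d * t) ≤ η * L := mul_le_mul_of_nonneg_left hL1 hη0.le
    have h2 : η * (d * t) = 4 * d := by
      rw [hη]
      field_simp
    linarith only [h1, h2]
  obtain ⟨n, hn⟩ : ∃ n : ℕ, n = ⌊t⌋₊ := ⟨_, rfl⟩
  have hnt : (n : ℝ) ≤ t := hn ▸ Nat.floor_le ht0.le
  have hcard := num2 hd hs0 hs1 hε1 ht256
  rw [← hη] at hcard
  obtain ⟨v, hv⟩ : ∃ v : ℝ≥0, (v : ℝ) = σ ^ 2 := ⟨⟨σ ^ 2, sq_nonneg σ⟩, rfl⟩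
  have hηe : Real.exp (-(s ^ (-(4 * θ)))) ≤ η := by
    have h1 : s ^ (-θ) ≤ s ^ (-(4 * θ)) :=
      Real.rpow_le_rpow_of_exponent_ge hs0 hs1 (by linarith only [hθ0])
    have h2 : Real.exp (-(s ^ (-(4 * θ)))) ≤ Real.exp (-(s ^ (-θ))) :=
      Real.exp_le_exp.2 (by linarith only [h1])
    refine h2.trans ?_
    rw [Real.exp_neg]
    have h3 : (Real.exp (s ^ (-θ)))⁻¹ ≤ t⁻¹ := by
      rw [inv_le_inv₀ (Real.exp_pos _) ht0]
      exact ht2
    refine h3.trans ?_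
    rw [hη, inv_eq_one_div]
    gcongr
    norm_num
  obtain ⟨s₀, hs₀⟩ : ∃ s₀, s₀ = s ^ (2 - ε) := ⟨_, rfl⟩
  have hs₀0 : 0 < s₀ := hs₀ ▸ Real.rpow_pos_of_pos hs0 _
  obtain ⟨J, hJ⟩ : ∃ J : ℕ, J = ⌊(2 * d - a) * t⌋₊ + 1 := ⟨_, rfl⟩
  obtain ⟨q, hq⟩ : ∃ q, q = Real.exp (-(s ^ (-(2 * (4 * θ))))) := ⟨_, rfl⟩
  have hq0 : 0 < q := hq ▸ Real.exp_pos _
  have hgau : ∀ E₀ : ℝ, s₀ ≤ |E₀| → |E₀| ≤ 2 * d - a →
      gau d M v {V | ¬ Gd d M c' s ε (4 * θ) E₀ η V} ≤ ENNReal.ofReal q := by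
    intro E₀ h1 h2
    have h3 := htof M v σ E₀ η hv hσ (by rw [← hs]; exact hσc.trans hc1)
      (by rw [← hs, ← hs₀]; exact h1) h2 (by rw [← hs]; exact hηe) (by rw [← hs]; exact hη3)
      (by rw [← hs]; exact hMa) (by rw [← hs]; exact hMb)
    rw [← hs, ← hq] at h3
    exact h3
  have hp : PP d (gl σ) (⋃ j ∈ Finset.range J, {V | s₀ + (j : ℝ) / t ≤ 2 * d - a ∧
      ¬ Gd d M c' s ε (4 * θ) (s₀ + (j : ℝ) / t) η (fun x : Tor d M => V (0 + rep x))}) ≤
        ENNReal.ofReal (J * q) := by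
    refine union_le hσ hv J (fun j => s₀ + (j : ℝ) / t ≤ 2 * d - a)
      (fun j => Gd d M c' s ε (4 * θ) (s₀ + (j : ℝ) / t) η) hq0.le ?_
    intro j hj
    have h1 : 0 ≤ (j : ℝ) / t := by positivity
    refine hgau _ ?_ ?_
    · rw [abs_of_nonneg (by linarith only [hs₀0, h1])]
      linarith only [h1]
    · rw [abs_of_nonneg (by linarith only [hs₀0, h1])]
      exact hj
  have hm : PP d (gl σ) (⋃ j ∈ Finset.range J, {V | s₀ + (j : ℝ) / t ≤ 2 * d - a ∧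
      ¬ Gd d M c' s ε (4 * θ) (-(s₀ + (j : ℝ) / t)) η (fun x : Tor d M => V (0 + rep x))}) ≤
        ENNReal.ofReal (J * q) := by
    refine union_le hσ hv J (fun j => s₀ + (j : ℝ) / t ≤ 2 * d - a)
      (fun j => Gd d M c' s ε (4 * θ) (-(s₀ + (j : ℝ) / t)) η) hq0.le ?_
    intro j hj
    have h1 : 0 ≤ (j : ℝ) / t := by positivity
    refine hgau _ ?_ ?_
    · rw [abs_neg, abs_of_nonneg (by linarith only [hs₀0, h1])]
      linarith only [h1]
    · rw [abs_neg, abs_of_nonneg (by linarith only [hs₀0, h1])]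
      exact hj
  -- one energy
  have key : ∀ (V : Site d → ℝ) (E₀ : ℝ),
      Gd d M c' s ε (4 * θ) E₀ η (fun x : Tor d M => V (0 + rep x)) →
      ∀ (R : ℕ) (E S : ℝ) (u : Site d → ℂ) (C : Finset (Site d)), |E - E₀| ≤ 1 / t →
        3 * d * t ≤ R →
        ∑ x ∈ box 0 (R + 1), ‖u x‖ ^ 2 ≤ S →
        ∑ x ∈ box 0 R, ‖nc u x + ((V x - E : ℝ) : ℂ) * u x‖ ^ 2 ≤ S / t ^ 2 →
        (∀ x ∈ C, ∀ i, |(x i : ℝ)| ≤ t) → (C.card : ℝ) ≤ t → ∑ x ∈ C, ‖u x‖ ^ 2 ≤ s ^ θ * S := by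
    intro V E₀ hG R E S u C hE hR hS1 hS2 hC1 hC2
    obtain ⟨B, hB⟩ : ∃ B, B = s ^ (4 * θ) * n / η := ⟨_, rfl⟩
    have hS0 : 0 ≤ S := le_trans (Finset.sum_nonneg fun x _ => by positivity) hS1
    have hLR : 2 * L ≤ R := by
      have h1 : ((2 * L : ℕ) : ℝ) ≤ R := by
        push_cast
        nlinarith only [hc', hc'1, ht256, hL2, hLt, hR]
      exact_mod_cast h1
    have hbox : ∀ m k : ℕ, m ≤ k → box (0 : Site d) m ⊆ box 0 k := by
      intro m k hmk x hx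
      rw [mem_box] at hx ⊢
      exact hx.trans hmk
    have h1 := egb d (by omega) M L n V E E₀ η B S u C hη0
      (by
        have : (1 : ℝ) ≤ L := by linarith only [hc', hc'1, ht256, hLt]
        exact_mod_cast this) hLM hLη
      (by
        refine hE.trans (le_of_eq ?_)
        rw [hη]
        field_simp)
      (by
        intro C' hC'
        have h2 : (C'.card : ℝ) ≤ n := by exact_mod_cast hC'
        refine (hG.2 C' (h2.trans (hnt.trans hcard))).trans ?_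
        rw [hB]
        gcongr)
      (le_trans (Finset.sum_le_sum_of_subset_of_nonneg (hbox _ _ (by omega))
        fun x _ _ => by positivity) hS1)
      (by
        refine (Finset.sum_le_sum_of_subset_of_nonneg (hbox _ _ hLR)
          fun x _ _ => by positivity).trans (hS2.trans (le_of_eq ?_))
        rw [hη]
        field_simp)
      (by
        intro x hx
        rw [mem_box, sd_le_iff]
        intro i
        have h2 := hC1 x hx i
        have h3 : ((|x i| : ℤ) : ℝ) ≤ L := by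
          rw [Int.cast_abs]
          exact h2.trans hLt
        rw [Pi.zero_apply, zero_sub, abs_neg]
        exact_mod_cast h3)
      (by
        rw [hn]
        exact Nat.le_floor hC2)
    refine h1.trans (mul_le_mul_of_nonneg_right ?_ hS0)
    exact num4 hs0 ht0 hη hnt hB hsθ8
  -- the union
  have hsub : {V : Site d → ℝ | ¬ ∀ (R : ℕ) (E S : ℝ) (u : Site d → ℂ) (C : Finset (Site d)),
        3 * d * t ≤ R → s ^ (2 - ε) ≤ |E| → |E| ≤ 2 * d - a →
        ∑ x ∈ box 0 (R + 1), ‖u x‖ ^ 2 ≤ S →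
        ∑ x ∈ box 0 R, ‖nc u x + ((V x - E : ℝ) : ℂ) * u x‖ ^ 2 ≤ S / t ^ 2 →
        (∀ x ∈ C, ∀ i, |(x i : ℝ)| ≤ t) → (C.card : ℝ) ≤ t →
          ∑ x ∈ C, ‖u x‖ ^ 2 ≤ s ^ θ * S} ⊆
      (⋃ j ∈ Finset.range J, {V | s₀ + (j : ℝ) / t ≤ 2 * d - a ∧
        ¬ Gd d M c' s ε (4 * θ) (s₀ + (j : ℝ) / t) η (fun x : Tor d M => V (0 + rep x))}) ∪
      (⋃ j ∈ Finset.range J, {V | s₀ + (j : ℝ) / t ≤ 2 * d - a ∧
        ¬ Gd d M c' s ε (4 * θ) (-(s₀ + (j : ℝ) / t)) η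
          (fun x : Tor d M => V (0 + rep x))}) := by
    intro V hV
    by_contra hcon
    apply hV
    intro R E S u C hR hE1 hE2 hS1 hS2 hC1 hC2
    simp only [Set.mem_union, Set.mem_iUnion, Set.mem_ofPred_eq, not_or, not_exists, not_and,
      not_not] at hcon
    rw [← hs₀] at hE1
    obtain ⟨j, hj, hj1, hj2⟩ := grid ht0 hE1 hE2 hs₀0.le
    rw [← hJ] at hj
    rcases hj2 with hj2 | hj2
    · exact key V _ (hcon.1 j hj hj1) R E S u C hj2 hR hS1 hS2 hC1 hC2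
    · exact key V _ (hcon.2 j hj hj1) R E S u C hj2 hR hS1 hS2 hC1 hC2
  refine (measure_mono hsub).trans ((measure_union_le _ _).trans ?_)
  refine (add_le_add hp hm).trans ?_
  rw [← ENNReal.ofReal_add (by positivity) (by positivity)]
  refine ENNReal.ofReal_le_ofReal ?_
  have hJ1 : (J : ℝ) ≤ 2 * d * t + 1 := by
    rw [hJ]
    push_cast
    have h1 : (⌊(2 * d - a) * t⌋₊ : ℝ) ≤ 2 * d * t := by
      rcases le_or_gt 0 ((2 * d - a) * t) with h2 | h2
      · refine (Nat.floor_le h2).trans ?_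
        nlinarith only [ha, hc', hc'1, ht256]
      · rw [Nat.floor_of_nonpos h2.le]
        push_cast
        positivity
    linarith only [h1]
  have h1 := num3 hd hs0 hsθ (by linarith only [hc', hc'1, ht256] : (1 : ℝ) ≤ t) ht2
  rw [← hq] at h1
  refine le_trans ?_ h1
  nlinarith only [hc', hc'1, hq0, hJ1]

end Pool.Agent.LE.QX.H94
end
end -- Pool.Agent.Helper94_LQX.EIG

section -- Pool.Agent.Helper51_LQY.EIZ

/-!
# Squad LQY (MP_1906c1_mp), row EIZ: all local quasimodes are extended, with the bound of the supremum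
(adapted from `Helper94_LQX/EIG.lean`)
-/

set_option autoImplicit false

open MeasureTheory ProbabilityTheory Function Filter

open scoped ENNReal BigOperators Topology NNReal ComplexOrder Matrix

noncomputable section

namespace Pool.Agent.LE.QY.H51

open Pool.Agent.Anderson hiding box mem_box card_box
open Pool.Agent.Loc Pool.Agent.Mob Pool.Agent.Helper54.Bal
  Pool.Agent.Helper96.EXP Pool.Agent.BED
open Pool.Agent.LE.MN Pool.Agent.LE.CL Pool.Agent.LE.IR Pool.Agent.LE.QD Pool.Agent.LE.QF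
open Pool.Agent.LE.QX.H94 (num1 num2 num4 grid union_le)

/-! ### Numbers -/

theorem numX {d : ℕ} {K t X : ℝ} (hd : 3 ≤ d) (hK : 1 ≤ K) (hX : 48 * d * K ≤ X) (ht0 : 1 ≤ t)
    (ht : t ≤ Real.exp X) :
    2 * (2 * d * t + 1) * (K * Real.exp (-X ^ 8)) ≤ Real.exp (-X) := by
  have hd0 : (3 : ℝ) ≤ d := by exact_mod_cast hd
  have hX1 : 48 * (d : ℝ) ≤ X := by nlinarith only [hK, hX]
  have hX2 : K ≤ X := by nlinarith only [hK, hX, hd0, hX1]
  have h1 : 6 * (d : ℝ) ≤ Real.exp X := by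
    have := Real.add_one_le_exp X
    linarith
  have h1' : K ≤ Real.exp X := by
    have := Real.add_one_le_exp X
    linarith only [hX2, this]
  have h2 : 2 * (2 * (d : ℝ) * t + 1) ≤ 6 * d * t := by nlinarith only [ht0, hd0]
  have h3 : 4 * X ≤ X ^ 8 := by
    have h4 : 4 ≤ X := by linarith
    have h5 : X * 4 ≤ X * X ^ 7 := by
      refine mul_le_mul_of_nonneg_left ?_ (by linarith only [hd0, hX1])
      calc (4 : ℝ) ≤ X := h4
        _ = X ^ 1 := (pow_one X).symm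
        _ ≤ X ^ 7 := pow_le_pow_right₀ (by linarith) (by norm_num)
    calc 4 * X = X * 4 := by ring
      _ ≤ X * X ^ 7 := h5
      _ = X ^ 8 := by ring
  calc 2 * (2 * d * t + 1) * (K * Real.exp (-X ^ 8)) ≤ (6 * d * t) * (K * Real.exp (-X ^ 8)) :=
        mul_le_mul_of_nonneg_right h2 (mul_nonneg (by linarith only [hK]) (Real.exp_pos _).le)
    _ ≤ (Real.exp X * Real.exp X) * (Real.exp X * Real.exp (-X ^ 8)) := by
        refine mul_le_mul ?_ ?_ (mul_nonneg (by linarith) (Real.exp_pos _).le) (by positivity)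
        · exact mul_le_mul h1 ht (by linarith only [ht0]) (Real.exp_pos _).le
        · exact mul_le_mul_of_nonneg_right h1' (Real.exp_pos _).le
    _ = Real.exp (X + X + (X + -X ^ 8)) := by rw [Real.exp_add, Real.exp_add, Real.exp_add]
    _ ≤ Real.exp (-X) := Real.exp_le_exp.2 (by linarith only [h3])

/-- the good event on the torus -/
def Gd (d M : ℕ) [NeZero M] (K s θ E η : ℝ) (V : Tor d M → ℝ) : Prop :=
  (∀ x, ‖rs V ⟨E, η⟩ x x‖ ≤ K) ∧
    ∀ C' : Finset (Tor d M), (C'.card : ℝ) ≤ (s ^ ((1 : ℝ) - 1) / Real.sqrt η) ^ d →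
      (C'.card : ℝ) ≤ s ^ (1 : ℝ) * (M : ℝ) ^ d → mss V ⟨E, η⟩ C' ≤ s ^ θ * C'.card / η

theorem mss_one {d M : ℕ} [NeZero M] {V : Tor d M → ℝ} {z : ℂ} {K : ℝ}
    (h : ∀ x, ‖rs V z x x‖ ≤ K) (C' : Finset (Tor d M)) (hC : C'.card ≤ 1) :
    mss V z C' ≤ K ^ 2 := by
  rcases Nat.lt_or_ge C'.card 1 with h0 | h0
  · have h1 : C' = ∅ := Finset.card_eq_zero.1 (by omega)
    rw [h1]
    unfold mss
    simp only [Finset.sum_empty]
    positivity
  · obtain ⟨x, hx⟩ := Finset.card_eq_one.1 (le_antisymm hC h0)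
    rw [hx]
    unfold mss
    simp only [Finset.sum_singleton]
    have := pow_le_pow_left₀ (norm_nonneg _) (h x) 2
    exact this

/-- the side of the torus -/
theorem numM {d : ℕ} (hd : 3 ≤ d) {s t η θ X M : ℝ} (hs : 0 < s) (hs4 : s ≤ 1 / 4)
    (n1 : 1 ≤ t * s ^ 4) (ht : 256 ≤ t) (hη : η = 4 / t) (hη3 : η ≤ s ^ 3)
    (hX : X = s ^ (-θ)) (hX4 : 4 ≤ X) (ht2 : t ≤ Real.exp X)
    (hM1 : 1 / (s ^ 4 * η ^ 2) ≤ M) (hM2 : M ≤ 1 / (s ^ 4 * η ^ 2) + 1) :
    s ^ (-5 : ℝ) ≤ M ∧ M ≤ Real.exp (s ^ (-(4 * θ))) ∧ s ^ (-(1 : ℝ)) ≤ η * M ^ d ∧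
      t ≤ s ^ (1 : ℝ) * M ^ d := by
  have ht0 : 0 < t := by linarith only [hs, hs4, ht]
  have hη0 : 0 < η := by rw [hη]; positivity
  have hs1 : s ≤ 1 := by linarith only [hs, hs4]
  have hs31 : s ^ 3 ≤ 1 := pow_le_one₀ hs.le hs1
  have hs3s : s ^ 3 ≤ s := by
    calc s ^ 3 ≤ s ^ 1 := pow_le_pow_of_le_one hs.le hs1 (by norm_num)
      _ = s := pow_one s
  have hη1 : η ≤ 1 := hη3.trans hs31
  have hηs : η ≤ s := hη3.trans hs3s
  have e1 : 1 / (s ^ 4 * η ^ 2) = t ^ 2 / (16 * s ^ 4) := by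
    rw [hη]
    field_simp
    ring
  have hMt : t ^ 2 / (16 * s ^ 4) ≤ M := e1 ▸ hM1
  have hMt' : M ≤ t ^ 2 / (16 * s ^ 4) + 1 := e1 ▸ hM2
  have h0 : 0 < s ^ 4 := by positivity
  have hs41 : s ^ 4 ≤ 1 := pow_le_one₀ hs.le hs1
  have hMone : 1 ≤ M := by
    refine le_trans ?_ hMt
    rw [le_div_iff₀ (by positivity)]
    nlinarith only [hs, hs4, n1, ht, hs41]
  have hMd : M ≤ M ^ d := by
    calc M = M ^ 1 := (pow_one M).symm
      _ ≤ M ^ d := pow_le_pow_right₀ hMone (by omega)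
  refine ⟨?_, ?_, ?_, ?_⟩
  · have e2 : s ^ (-5 : ℝ) = (s ^ 5)⁻¹ := by
      rw [Real.rpow_neg hs.le]
      congr 1
      exact_mod_cast Real.rpow_natCast s 5
    rw [e2, inv_eq_one_div]
    refine le_trans ?_ hM1
    refine one_div_le_one_div_of_le (by positivity) ?_
    have h1 : η ^ 2 ≤ s := by nlinarith only [hη3, hη0, hs31, hs3s]
    calc s ^ 4 * η ^ 2 ≤ s ^ 4 * s := mul_le_mul_of_nonneg_left h1 h0.le
      _ = s ^ 5 := by ring
  · have e2 : s ^ (-(4 * θ)) = X ^ 4 := by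
      rw [hX, ← Real.rpow_natCast, ← Real.rpow_mul hs.le]
      congr 1
      push_cast
      ring
    rw [e2]
    have h1 : 1 / s ^ 4 ≤ t := by
      rw [div_le_iff₀ h0]
      exact n1
    have h2 : t ^ 2 / (16 * s ^ 4) ≤ t ^ 3 / 16 := by
      have e3 : t ^ 2 / (16 * s ^ 4) = t ^ 2 / 16 * (1 / s ^ 4) := by
        field_simp
      have e4 : t ^ 3 / 16 = t ^ 2 / 16 * t := by ring
      rw [e3, e4]
      exact mul_le_mul_of_nonneg_left h1 (by positivity)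
    have h3 : (1 : ℝ) ≤ t ^ 3 := one_le_pow₀ (by linarith only [hs, hs4, ht])
    have h4 : M ≤ t ^ 3 := by
      have h5 : (16 : ℝ) ≤ t ^ 3 := by
        calc (16 : ℝ) ≤ t := by linarith only [hs, hs4, ht]
          _ = t ^ 1 := (pow_one t).symm
          _ ≤ t ^ 3 := pow_le_pow_right₀ (by linarith only [hs, hs4, ht]) (by norm_num)
      linarith only [hs, hs4, hM2, e1, h2, h5]
    refine h4.trans ?_
    have h5 : t ^ 3 ≤ Real.exp X ^ 3 := pow_le_pow_left₀ ht0.le ht2 3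
    refine h5.trans ?_
    rw [← Real.exp_nat_mul]
    refine Real.exp_le_exp.2 ?_
    have h6 : X * 4 ≤ X * X ^ 3 := by
      refine mul_le_mul_of_nonneg_left ?_ (by linarith only [hs, hs4, hX4])
      calc (4 : ℝ) ≤ X := hX4
        _ = X ^ 1 := (pow_one X).symm
        _ ≤ X ^ 3 := pow_le_pow_right₀ (by linarith only [hs, hs4, hX4]) (by norm_num)
    have h7 : X * X ^ 3 = X ^ 4 := by ring
    push_cast
    linarith only [hs, hs4, hX4, h6]
  · rw [Real.rpow_neg hs.le, Real.rpow_one, inv_eq_one_div]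
    have h1 : η * (1 / (s ^ 4 * η ^ 2)) ≤ η * M ^ d :=
      mul_le_mul_of_nonneg_left (hM1.trans hMd) hη0.le
    refine le_trans ?_ h1
    have e2 : η * (1 / (s ^ 4 * η ^ 2)) = 1 / (s ^ 4 * η) := by
      field_simp
    rw [e2]
    refine one_div_le_one_div_of_le (by positivity) ?_
    have h2 : s ^ 4 ≤ s := by
      calc s ^ 4 ≤ s ^ 1 := pow_le_pow_of_le_one hs.le hs1 (by norm_num)
        _ = s := pow_one s
    nlinarith only [hs, hs4, n1, ht, hη3, hs31, hs3s, h0, h2]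
  · rw [Real.rpow_one]
    have h1 : s * (t ^ 2 / (16 * s ^ 4)) ≤ s * M ^ d :=
      mul_le_mul_of_nonneg_left (hMt.trans hMd) hs.le
    refine le_trans ?_ h1
    have e2 : s * (t ^ 2 / (16 * s ^ 4)) = t * (t / (16 * s ^ 3)) := by
      field_simp
    rw [e2]
    have h2 : 1 ≤ t / (16 * s ^ 3) := by
      rw [le_div_iff₀ (by positivity)]
      nlinarith only [hs, hs4, ht, hs31]
    nlinarith only [hs, hs4, ht, h2]

/-- row EIZ -/
theorem eiz (tor : TorStmt) (egb : QX.EgbStmt) : EizStmt := by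
  intro d a hd ha
  obtain ⟨θ', c', C₀, hθ', -, hc', hc'1, hC₀, htor⟩ := tor d a 1 hd ha one_pos le_rfl
  obtain ⟨θ, hθ⟩ : ∃ θ, θ = θ' / 4 := ⟨_, rfl⟩
  have hθ0 : 0 < θ := by rw [hθ]; positivity
  have hθ4 : θ' = 4 * θ := by rw [hθ]; ring
  rw [hθ4] at htor
  obtain ⟨K, hK⟩ : ∃ K, K = C₀ + 1 := ⟨_, rfl⟩
  have hK2 : 2 ≤ K := by rw [hK]; linarith only [hC₀]
  have hd0 : (3 : ℝ) ≤ d := by exact_mod_cast hd
  obtain ⟨c, hc⟩ : ∃ c : ℝ, c = min c' (min (1 / (16 * (4 * d + 13) * K))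
      ((1 / (48 * d * K)) ^ (1 / θ))) := ⟨_, rfl⟩
  have hc0 : 0 < c := by
    rw [hc]
    exact lt_min hc' (lt_min (by positivity) (Real.rpow_pos_of_pos (by positivity) _))
  have hc1 : c ≤ c' := hc ▸ min_le_left _ _
  have hc2 : c ≤ 1 / (16 * (4 * d + 13) * K) := hc ▸ (min_le_right _ _).trans (min_le_left _ _)
  have hc3 : c ≤ (1 / (48 * d * K)) ^ (1 / θ) := hc ▸ (min_le_right _ _).trans (min_le_right _ _)
  refine ⟨θ, c, hθ0, hc0, hc1.trans hc'1, ?_⟩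
  intro σ t hσ hσc ht1 ht2
  obtain ⟨s, hs⟩ : ∃ s, s = |σ| := ⟨_, rfl⟩
  have hs0 : 0 < s := hs ▸ abs_pos.2 hσ
  rw [← hs] at hσc ht1 ht2 ⊢
  have hs4 : s ≤ 1 / 4 := hσc.trans (hc1.trans hc'1)
  have hs1 : s ≤ 1 := by linarith only [hc', hc'1, hc1, hσc]
  obtain ⟨n1, ht256, hη3⟩ := num1 hs0 hs4 ht1
  have ht0 : 0 < t := by linarith only [hc', hc'1, ht256]
  have hsθ : s ^ θ ≤ 1 / (48 * d * K) := by
    have h1 : s ^ θ ≤ ((1 / (48 * d * K)) ^ (1 / θ)) ^ θ :=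
      Real.rpow_le_rpow hs0.le (hσc.trans hc3) hθ0.le
    rwa [← Real.rpow_mul (by positivity), one_div_mul_cancel hθ0.ne', Real.rpow_one] at h1
  have hsθ8 : s ^ θ ≤ 1 / 8 := by
    refine hsθ.trans ?_
    rw [div_le_div_iff₀ (by positivity) (by norm_num)]
    nlinarith only [hc', hc'1, hC₀, hK, hd0]
  obtain ⟨X, hX⟩ : ∃ X, X = s ^ (-θ) := ⟨_, rfl⟩
  have hXK : 48 * d * K ≤ X := by
    rw [hX, Real.rpow_neg hs0.le]
    rw [le_inv_comm₀ (by positivity) (Real.rpow_pos_of_pos hs0 _)]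
    rwa [one_div] at hsθ
  have hX4 : 4 ≤ X := by nlinarith only [hc', hc'1, hC₀, hK, hd0, hXK]
  rw [← hX] at ht2 ⊢
  obtain ⟨η, hη⟩ : ∃ η, η = 4 / t := ⟨_, rfl⟩
  have hη0 : 0 < η := by rw [hη]; positivity
  have hη1 : η ≤ 1 := by
    rw [hη, div_le_iff₀ ht0]
    linarith only [hc', hc'1, ht256]
  rw [← hη] at hη3
  -- the torus
  obtain ⟨M, hM⟩ : ∃ M : ℕ, M = ⌈1 / (s ^ 4 * η ^ 2)⌉₊ := ⟨_, rfl⟩
  have hMpos : 0 < 1 / (s ^ 4 * η ^ 2) := by positivity
  have hM1 : 1 / (s ^ 4 * η ^ 2) ≤ M := hM ▸ Nat.le_ceil _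
  have hM2 : (M : ℝ) ≤ 1 / (s ^ 4 * η ^ 2) + 1 := hM ▸ (Nat.ceil_lt_add_one hMpos.le).le
  have hM0 : (0 : ℝ) < M := lt_of_lt_of_le hMpos hM1
  haveI : NeZero M := ⟨by
    intro h
    rw [h, Nat.cast_zero] at hM0
    exact lt_irrefl _ hM0⟩
  obtain ⟨hMa, hMb, hMc, hMd⟩ := numM hd hs0 hs4 n1 ht256 hη hη3 hX hX4 ht2 hM1 hM2
  -- the cube
  obtain ⟨L, hL⟩ : ∃ L : ℕ, L = ⌈d * t⌉₊ := ⟨_, rfl⟩
  have hL1 : (d : ℝ) * t ≤ L := hL ▸ Nat.le_ceil _
  have hL2 : (L : ℝ) ≤ d * t + 1 := hL ▸ (Nat.ceil_lt_add_one (by positivity)).le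
  have hLt : t ≤ L := by nlinarith only [hc', hc'1, hd0, ht256, hL1]
  have hLM : 4 * L + 9 ≤ M := by
    have h1 : ((4 * L + 9 : ℕ) : ℝ) ≤ M := by
      refine le_trans ?_ hM1
      push_cast
      rw [le_div_iff₀ (by positivity), hη]
      have h2 : s * (16 * (4 * d + 13)) ≤ 1 := by
        have := hσc.trans hc2
        rw [le_div_iff₀ (by positivity)] at this
        have h3 : s * (16 * (4 * d + 13)) ≤ s * (16 * (4 * d + 13) * K) := by
          refine mul_le_mul_of_nonneg_left ?_ hs0.le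
          nlinarith only [hc', hc'1, hC₀, hK]
        linarith only [this, h3]
      have h3 : (4 * (L : ℝ) + 9) ≤ (4 * d + 13) * t := by nlinarith only [hc', hc'1, ht256, hL2]
      have h4 : s ^ 4 ≤ s := by
        calc s ^ 4 ≤ s ^ 1 := pow_le_pow_of_le_one hs0.le hs1 (by norm_num)
          _ = s := pow_one s
      calc (4 * (L : ℝ) + 9) * (s ^ 4 * (4 / t) ^ 2) ≤ ((4 * d + 13) * t) * (s * (4 / t) ^ 2) := by
            gcongr
        _ = s * (16 * (4 * d + 13)) / t := by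
            field_simp
            ring
        _ ≤ 1 / t := by gcongr
        _ ≤ 1 := by
            rw [div_le_iff₀ ht0]
            linarith only [hc', hc'1, ht256]
    exact_mod_cast h1
  have hLη : 4 * (d : ℝ) ≤ η * L := by
    have h1 : η * (d * t) ≤ η * L := mul_le_mul_of_nonneg_left hL1 hη0.le
    have h2 : η * (d * t) = 4 * d := by
      rw [hη]
      field_simp
    linarith only [h1, h2]
  obtain ⟨n, hn⟩ : ∃ n : ℕ, n = ⌊t⌋₊ := ⟨_, rfl⟩
  have hnt : (n : ℝ) ≤ t := hn ▸ Nat.floor_le ht0.le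
  have hcard := num2 hd hs0 hs1 (le_refl (1 : ℝ)) ht256
  rw [← hη] at hcard
  obtain ⟨v, hv⟩ : ∃ v : ℝ≥0, (v : ℝ) = σ ^ 2 := ⟨⟨σ ^ 2, sq_nonneg σ⟩, rfl⟩
  obtain ⟨s₀, hs₀⟩ : ∃ s₀ : ℝ, s₀ = 0 := ⟨_, rfl⟩
  obtain ⟨J, hJ⟩ : ∃ J : ℕ, J = ⌊(2 * d - a) * t⌋₊ + 1 := ⟨_, rfl⟩
  obtain ⟨q, hq⟩ : ∃ q, q = K * Real.exp (-(s ^ (-(2 * (4 * θ))))) := ⟨_, rfl⟩
  have hq0 : 0 < q := hq ▸ mul_pos (by linarith only [hc', hc'1, hC₀, hK]) (Real.exp_pos _)
  have hgau : ∀ E₀ : ℝ, |E₀| ≤ 2 * d - a →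
      gau d M v {V | ¬ Gd d M K s (4 * θ) E₀ η V} ≤ ENNReal.ofReal q := by
    intro E₀ h2
    obtain ⟨m, -, hm2, hm3, hprob⟩ := htor M v σ E₀ η hv hσ (by rw [← hs]; exact hσc.trans hc1) h2
      (by rw [← hs]; exact hMa) (by rw [← hs]; exact hMb) (by rw [← hs]; exact hMc)
      (by rw [← hs]; exact hη3)
    have h3 := hprob ⟨0, by omega⟩ (Real.exp (s ^ (-(2 * (4 * θ)))))
      (Real.one_le_exp (Real.rpow_nonneg hs0.le _))
    rw [← hs] at h3
    have h4 : C₀ / Real.exp (s ^ (-(2 * (4 * θ)))) + Real.exp (-(s ^ (-(2 * (4 * θ))))) = q := by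
      rw [hq, hK, Real.exp_neg, div_eq_mul_inv]
      ring
    rw [h4] at h3
    refine (measure_mono ?_).trans h3
    intro V hV hfull
    apply hV
    obtain ⟨-, hloc, hmss, -⟩ := hfull
    refine ⟨fun x => ?_, hmss⟩
    have h5 := hloc x x
    rw [hm3 x] at h5
    have h6 : ‖rs V ⟨E₀, η⟩ x x‖ ≤ ‖rs V ⟨E₀, η⟩ x x - m‖ + ‖m‖ := by
      have := norm_add_le (rs V ⟨E₀, η⟩ x x - m) m
      rwa [sub_add_cancel] at this
    have h7 : s ^ (4 * θ) ≤ 1 := Real.rpow_le_one hs0.le hs1 (by positivity)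
    rw [hK]
    linarith only [this, hm2, h5, h6, h7]
  have hp : PP d (gl σ) (⋃ j ∈ Finset.range J, {V | s₀ + (j : ℝ) / t ≤ 2 * d - a ∧
      ¬ Gd d M K s (4 * θ) (s₀ + (j : ℝ) / t) η (fun x : Tor d M => V (0 + rep x))}) ≤
        ENNReal.ofReal (J * q) := by
    refine union_le hσ hv J (fun j => s₀ + (j : ℝ) / t ≤ 2 * d - a)
      (fun j => Gd d M K s (4 * θ) (s₀ + (j : ℝ) / t) η) hq0.le ?_
    intro j hj
    have h1 : 0 ≤ (j : ℝ) / t := by positivity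
    refine hgau _ ?_
    rw [abs_of_nonneg (by linarith only [hs₀, h1])]
    exact hj
  have hm : PP d (gl σ) (⋃ j ∈ Finset.range J, {V | s₀ + (j : ℝ) / t ≤ 2 * d - a ∧
      ¬ Gd d M K s (4 * θ) (-(s₀ + (j : ℝ) / t)) η (fun x : Tor d M => V (0 + rep x))}) ≤
        ENNReal.ofReal (J * q) := by
    refine union_le hσ hv J (fun j => s₀ + (j : ℝ) / t ≤ 2 * d - a)
      (fun j => Gd d M K s (4 * θ) (-(s₀ + (j : ℝ) / t)) η) hq0.le ?_
    intro j hj
    have h1 : 0 ≤ (j : ℝ) / t := by positivity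
    refine hgau _ ?_
    rw [abs_neg, abs_of_nonneg (by linarith only [hs₀, h1])]
    exact hj
  -- one energy
  have key : ∀ (V : Site d → ℝ) (E₀ : ℝ),
      Gd d M K s (4 * θ) E₀ η (fun x : Tor d M => V (0 + rep x)) →
      ∀ (R : ℕ) (E S : ℝ) (u : Site d → ℂ), |E - E₀| ≤ 1 / t →
        3 * d * t ≤ R →
        ∑ x ∈ box 0 (R + 1), ‖u x‖ ^ 2 ≤ S →
        ∑ x ∈ box 0 R, ‖QX.nc u x + ((V x - E : ℝ) : ℂ) * u x‖ ^ 2 ≤ S / t ^ 2 →
        (∀ x : Site d, (∀ i, |(x i : ℝ)| ≤ t) → ‖u x‖ ^ 2 ≤ 1 / (c * t) * S) ∧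
        ∀ C : Finset (Site d), (∀ x ∈ C, ∀ i, |(x i : ℝ)| ≤ t) → (C.card : ℝ) ≤ t →
          ∑ x ∈ C, ‖u x‖ ^ 2 ≤ s ^ θ * S := by
    intro V E₀ hG R E S u hE hR hS1 hS2
    have hS0 : 0 ≤ S := le_trans (Finset.sum_nonneg fun x _ => by positivity) hS1
    have hLR : 2 * L ≤ R := by
      have h1 : ((2 * L : ℕ) : ℝ) ≤ R := by
        push_cast
        nlinarith only [hc', hc'1, ht256, hL2, hLt, hR]
      exact_mod_cast h1
    have hbox : ∀ m k : ℕ, m ≤ k → box (0 : Site d) m ⊆ box 0 k := by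
      intro m k hmk x hx
      rw [mem_box] at hx ⊢
      exact hx.trans hmk
    have hmem : ∀ x : Site d, (∀ i, |(x i : ℝ)| ≤ t) → x ∈ box (0 : Site d) L := by
      intro x hx
      rw [mem_box, sd_le_iff]
      intro i
      have h2 := hx i
      have h3 : ((|x i| : ℤ) : ℝ) ≤ L := by
        rw [Int.cast_abs]
        exact h2.trans hLt
      rw [Pi.zero_apply, zero_sub, abs_neg]
      exact_mod_cast h3
    have hL1' : 1 ≤ L := by
      have : (1 : ℝ) ≤ L := by linarith only [hc', hc'1, ht256, hLt]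
      exact_mod_cast this
    have hE' : |E - E₀| ≤ η / 4 := by
      refine hE.trans (le_of_eq ?_)
      rw [hη]
      field_simp
    have hSa : ∑ x ∈ box 0 (2 * L + 1), ‖u x‖ ^ 2 ≤ S :=
      le_trans (Finset.sum_le_sum_of_subset_of_nonneg (hbox _ _ (by omega))
        fun x _ _ => by positivity) hS1
    have hSb : ∑ x ∈ box 0 (2 * L), ‖QX.nc u x + ((V x - E : ℝ) : ℂ) * u x‖ ^ 2 ≤
        (η / 4) ^ 2 * S := by
      refine (Finset.sum_le_sum_of_subset_of_nonneg (hbox _ _ hLR)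
        fun x _ _ => by positivity).trans (hS2.trans (le_of_eq ?_))
      rw [hη]
      field_simp
    constructor
    · intro x hx
      have h1 := egb d (by omega) M L 1 V E E₀ η (K ^ 2) S u {x} hη0 hL1' hLM hLη hE'
        (fun C' hC' => mss_one hG.1 C' hC') hSa hSb
        (by
          intro y hy
          rw [Finset.mem_singleton] at hy
          rw [hy]
          exact hmem x hx) (by rw [Finset.card_singleton])
      rw [Finset.sum_singleton, Real.sqrt_sq (by linarith only [hc', hc'1, hC₀, hK])] at h1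
      refine h1.trans (mul_le_mul_of_nonneg_right ?_ hS0)
      rw [hη, le_div_iff₀ (by positivity)]
      have h2 : 4 * (4 / t) * K * (c * t) = c * (16 * K) := by
        field_simp
        ring
      rw [h2]
      have h3 := hc2
      rw [le_div_iff₀ (by positivity)] at h3
      have h4 : c * (16 * K) ≤ c * (16 * (4 * d + 13) * K) := by
        refine mul_le_mul_of_nonneg_left ?_ hc0.le
        nlinarith only [hc', hc'1, hC₀, hK, hd0]
      linarith only [h3, h4]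
    · intro C hC1 hC2
      obtain ⟨B, hB⟩ : ∃ B, B = s ^ (4 * θ) * n / η := ⟨_, rfl⟩
      have h1 := egb d (by omega) M L n V E E₀ η B S u C hη0 hL1' hLM hLη hE'
        (by
          intro C' hC'
          have h2 : (C'.card : ℝ) ≤ n := by exact_mod_cast hC'
          refine (hG.2 C' (h2.trans (hnt.trans hcard)) (h2.trans (hnt.trans hMd))).trans ?_
          rw [hB]
          gcongr)
        hSa hSb (fun x hx => hmem x (hC1 x hx))
        (by
          rw [hn]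
          exact Nat.le_floor hC2)
      refine h1.trans (mul_le_mul_of_nonneg_right ?_ hS0)
      exact num4 hs0 ht0 hη hnt hB hsθ8
  -- the union
  have hsub : {V : Site d → ℝ | ¬ ∀ (R : ℕ) (E S : ℝ) (u : Site d → ℂ),
        3 * d * t ≤ R → |E| ≤ 2 * d - a → ∑ x ∈ box 0 (R + 1), ‖u x‖ ^ 2 ≤ S →
        ∑ x ∈ box 0 R, ‖QX.nc u x + ((V x - E : ℝ) : ℂ) * u x‖ ^ 2 ≤ S / t ^ 2 →
          (∀ x : Site d, (∀ i, |(x i : ℝ)| ≤ t) → ‖u x‖ ^ 2 ≤ 1 / (c * t) * S) ∧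
          ∀ C : Finset (Site d), (∀ x ∈ C, ∀ i, |(x i : ℝ)| ≤ t) → (C.card : ℝ) ≤ t →
            ∑ x ∈ C, ‖u x‖ ^ 2 ≤ s ^ θ * S} ⊆
      (⋃ j ∈ Finset.range J, {V | s₀ + (j : ℝ) / t ≤ 2 * d - a ∧
        ¬ Gd d M K s (4 * θ) (s₀ + (j : ℝ) / t) η (fun x : Tor d M => V (0 + rep x))}) ∪
      (⋃ j ∈ Finset.range J, {V | s₀ + (j : ℝ) / t ≤ 2 * d - a ∧
        ¬ Gd d M K s (4 * θ) (-(s₀ + (j : ℝ) / t)) η
          (fun x : Tor d M => V (0 + rep x))}) := by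
    intro V hV
    by_contra hcon
    apply hV
    intro R E S u hR hE2 hS1 hS2
    simp only [Set.mem_union, Set.mem_iUnion, Set.mem_ofPred_eq, not_or, not_exists, not_and,
      not_not] at hcon
    obtain ⟨j, hj, hj1, hj2⟩ := grid ht0 (s₀ := s₀) (hs₀ ▸ abs_nonneg E) hE2 (le_of_eq hs₀.symm)
    rw [← hJ] at hj
    rcases hj2 with hj2 | hj2
    · exact key V _ (hcon.1 j hj hj1) R E S u hj2 hR hS1 hS2
    · exact key V _ (hcon.2 j hj hj1) R E S u hj2 hR hS1 hS2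
  refine (measure_mono hsub).trans ((measure_union_le _ _).trans ?_)
  refine (add_le_add hp hm).trans ?_
  rw [← ENNReal.ofReal_add (by positivity) (by positivity)]
  refine ENNReal.ofReal_le_ofReal ?_
  have hJ1 : (J : ℝ) ≤ 2 * d * t + 1 := by
    rw [hJ]
    push_cast
    have h1 : (⌊(2 * d - a) * t⌋₊ : ℝ) ≤ 2 * d * t := by
      rcases le_or_gt 0 ((2 * d - a) * t) with h2 | h2
      · refine (Nat.floor_le h2).trans ?_
        nlinarith only [ha, hc', hc'1, ht256]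
      · rw [Nat.floor_of_nonpos h2.le]
        push_cast
        positivity
    linarith only [h1]
  have e8 : s ^ (-(2 * (4 * θ))) = X ^ 8 := by
    rw [hX, ← Real.rpow_natCast, ← Real.rpow_mul hs0.le]
    congr 1
    push_cast
    ring
  have h1 := numX hd (by linarith only [hc', hc'1, hC₀, hK] : (1 : ℝ) ≤ K) hXK (by linarith only [hc', hc'1, ht256] : (1 : ℝ) ≤ t) ht2
  rw [← e8, ← hq] at h1
  refine le_trans ?_ h1
  nlinarith only [hc', hc'1, hq0, hJ1]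

end Pool.Agent.LE.QY.H51
end
end -- Pool.Agent.Helper51_LQY.EIZ

section -- Pool.Agent.Helper76_LQY.TMA

/-!
# Squad LQY, row TMA: the mean mass in a box on the torus
-/

set_option autoImplicit false

open MeasureTheory ProbabilityTheory Function Filter

open scoped ENNReal BigOperators Topology NNReal ComplexOrder Matrix

noncomputable section

namespace Pool.Agent.LE.QY.H76

open Pool.Agent.Anderson hiding box mem_box card_box
open Pool.Agent.Loc Pool.Agent.Mob Pool.Agent.Helper54.Bal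
  Pool.Agent.Helper96.EXP Pool.Agent.BED
open Pool.Agent.LE.MN Pool.Agent.LE.CL Pool.Agent.LE.IR Pool.Agent.LE.QD Pool.Agent.LE.QF

section boxes

variable {d M : ℕ} [NeZero M]

/-- the box of radius `r` -/
def bx (d M r : ℕ) [NeZero M] : Finset (Tor d M) :=
  Fintype.piFinset fun _ => Finset.univ.filter fun t : ZMod M => |t.valMinAbs| ≤ (r : ℤ)

theorem mem_bx {r : ℕ} {x : Tor d M} : x ∈ bx d M r ↔ ∀ i, |(x i).valMinAbs| ≤ (r : ℤ) := by
  simp [bx]

theorem card_bx_le (r : ℕ) : (bx d M r).card ≤ (2 * r + 1) ^ d := by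
  unfold bx
  rw [Fintype.card_piFinset, Finset.prod_const, Finset.card_univ, Fintype.card_fin]
  refine Nat.pow_le_pow_left ?_ d
  have h := Finset.card_le_card_of_injOn
    (s := Finset.univ.filter fun t : ZMod M => |t.valMinAbs| ≤ (r : ℤ))
    (t := Finset.Icc (-(r : ℤ)) r) (fun t => t.valMinAbs)
    (fun t ht => by
      have h1 := (Finset.mem_filter.1 (Finset.mem_coe.1 ht)).2
      exact Finset.mem_coe.2 (Finset.mem_Icc.2 (abs_le.1 h1)))
    (fun t _ t' _ h => ZMod.injective_valMinAbs h)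
  rw [Int.card_Icc] at h
  have e : ((r : ℤ) + 1 - -(r : ℤ)).toNat = 2 * r + 1 := by omega
  rwa [e] at h

theorem card_bx_ge {r : ℕ} (hr : 2 * r < M) : (2 * r + 1) ^ d ≤ (bx d M r).card := by
  unfold bx
  rw [Fintype.card_piFinset, Finset.prod_const, Finset.card_univ, Fintype.card_fin]
  refine Nat.pow_le_pow_left ?_ d
  have hv : ∀ n : ℤ, n ∈ Finset.Icc (-(r : ℤ)) r → ((n : ℤ) : ZMod M).valMinAbs = n := by
    intro n hn
    rw [ZMod.valMinAbs_spec]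
    rw [Finset.mem_Icc] at hn
    refine ⟨rfl, ?_⟩
    rw [Set.mem_Ioc]
    have hr' : (2 * (r : ℤ)) < M := by exact_mod_cast hr
    constructor <;> linarith only [hn.1, hn.2, hr]
  have h := Finset.card_le_card_of_injOn
    (s := Finset.Icc (-(r : ℤ)) r)
    (t := Finset.univ.filter fun t : ZMod M => |t.valMinAbs| ≤ (r : ℤ))
    (fun n => ((n : ℤ) : ZMod M))
    (fun n hn => by
      refine Finset.mem_coe.2 (Finset.mem_filter.2 ⟨Finset.mem_univ _, ?_⟩)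
      have h1 := hv n (Finset.mem_coe.1 hn)
      rw [h1]
      exact abs_le.2 (Finset.mem_Icc.1 (Finset.mem_coe.1 hn)))
    (fun n hn n' hn' h => by
      have h1 := hv n (Finset.mem_coe.1 hn)
      have h2 := hv n' (Finset.mem_coe.1 hn')
      have h3 : ((n : ℤ) : ZMod M) = ((n' : ℤ) : ZMod M) := h
      rw [← h1, ← h2, h3])
  rw [Int.card_Icc] at h
  have e : ((r : ℤ) + 1 - -(r : ℤ)).toNat = 2 * r + 1 := by omega
  rwa [e] at h

theorem add_mem_bx {r : ℕ} {x y : Tor d M} (hx : x ∈ bx d M r) (hy : y ∈ bx d M r) :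
    x + y ∈ bx d M (2 * r) := by
  rw [mem_bx] at hx hy ⊢
  intro i
  have h1 := ZMod.natAbs_valMinAbs_add_le (x i) (y i)
  have h2 : ((x i).valMinAbs + (y i).valMinAbs).natAbs ≤
      (x i).valMinAbs.natAbs + (y i).valMinAbs.natAbs := Int.natAbs_add_le _ _
  have h3 := hx i
  have h4 := hy i
  have h5 : |((x + y) i).valMinAbs| = (((x i) + (y i)).valMinAbs.natAbs : ℤ) := by
    rw [Int.natCast_natAbs]
    rfl
  rw [h5]
  rw [Int.abs_eq_natAbs] at h3 h4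
  omega

theorem bx_sub (r : ℕ) : bx d M r ⊆ bx d M (2 * r) := by
  intro x hx
  rw [mem_bx] at hx ⊢
  intro i
  have := hx i
  have h0 := abs_nonneg (x i).valMinAbs
  push_cast
  linarith

theorem mem_real {r : ℕ} {x : Tor d M} : x ∈ bx d M r ↔ ∀ i, |((x i).valMinAbs : ℝ)| ≤ r := by
  rw [mem_bx]
  refine forall_congr' fun i => ?_
  constructor
  · intro h
    have h1 : ((|(x i).valMinAbs| : ℤ) : ℝ) ≤ ((r : ℤ) : ℝ) := by exact_mod_cast h
    simpa using h1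
  · intro h
    have h1 : ((|(x i).valMinAbs| : ℤ) : ℝ) ≤ ((r : ℤ) : ℝ) := by simpa using h
    exact_mod_cast h1

end boxes

section mean

variable {d M : ℕ} [NeZero M]

/-- the mass of the box -/
def ms (r : ℕ) (z : ℂ) (V : Tor d M → ℝ) : ℝ := ∑ y ∈ bx d M r, ‖rs V z 0 y‖ ^ 2

theorem ms_nn (r : ℕ) (z : ℂ) (V : Tor d M → ℝ) : 0 ≤ ms r z V :=
  Finset.sum_nonneg fun _ _ => by positivity

theorem ms_cont (r : ℕ) {z : ℂ} (hz0 : 0 < z.im) :
    Continuous fun V : Tor d M → ℝ => ms r z V :=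
  continuous_finsetSum _ fun y _ => (QD.H76.cont z hz0.ne' 0 y).norm.pow 2

theorem mss_cont (C : Finset (Tor d M)) {z : ℂ} (hz0 : 0 < z.im) :
    Continuous fun V : Tor d M → ℝ => mss V z C :=
  continuous_finsetSum _ fun x _ => continuous_finsetSum _ fun y _ =>
    (QD.H76.cont z hz0.ne' x y).norm.pow 2

theorem ms_tr (r : ℕ) (z : ℂ) (V : Tor d M → ℝ) (x : Tor d M) :
    ms r z (tr x V) = ∑ y ∈ bx d M r, ‖rs V z x (x + y)‖ ^ 2 := by
  unfold ms
  refine Finset.sum_congr rfl fun y _ => ?_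
  rw [QD.H76.transl, add_zero]

theorem sum_ms (r : ℕ) (z : ℂ) (V : Tor d M → ℝ) :
    ∑ x ∈ bx d M r, ms r z (tr x V) ≤ mss V z (bx d M (2 * r)) := by
  classical
  unfold mss
  calc ∑ x ∈ bx d M r, ms r z (tr x V)
      ≤ ∑ x ∈ bx d M r, ∑ y ∈ bx d M (2 * r), ‖rs V z x y‖ ^ 2 := by
        refine Finset.sum_le_sum fun x hx => ?_
        rw [ms_tr]
        have h1 : ∑ y ∈ bx d M r, ‖rs V z x (x + y)‖ ^ 2 =
            ∑ y ∈ (bx d M r).image (fun y => x + y), ‖rs V z x y‖ ^ 2 := by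
          rw [Finset.sum_image]
          intro y _ y' _ h
          exact add_left_cancel h
        rw [h1]
        refine Finset.sum_le_sum_of_subset_of_nonneg ?_ fun _ _ _ => by positivity
        intro w hw
        obtain ⟨y, hy, rfl⟩ := Finset.mem_image.1 hw
        exact add_mem_bx hx hy
    _ ≤ ∑ x ∈ bx d M (2 * r), ∑ y ∈ bx d M (2 * r), ‖rs V z x y‖ ^ 2 :=
        Finset.sum_le_sum_of_subset_of_nonneg (bx_sub r)
          fun _ _ _ => Finset.sum_nonneg fun _ _ => by positivity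

theorem mss_le (V : Tor d M → ℝ) {z : ℂ} (hz0 : 0 < z.im) (C : Finset (Tor d M)) :
    mss V z C ≤ C.card / z.im ^ 2 := by
  unfold mss
  have h : ∀ x ∈ C, ∑ y ∈ C, ‖rs V z x y‖ ^ 2 ≤ 1 / z.im ^ 2 := by
    intro x _
    calc ∑ y ∈ C, ‖rs V z x y‖ ^ 2 ≤ ∑ y, ‖rs V z x y‖ ^ 2 :=
          Finset.sum_le_sum_of_subset_of_nonneg (Finset.subset_univ _) fun _ _ _ => by positivity
      _ = (rs V z x x).im / z.im := QD.H76.row V hz0 x
      _ ≤ (1 / z.im) / z.im := by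
          refine div_le_div_of_nonneg_right ?_ hz0.le
          exact ((le_abs_self _).trans (Complex.abs_im_le_norm _)).trans
            (QD.H76.entry_bd V hz0 x x)
      _ = 1 / z.im ^ 2 := by
          field_simp
  refine (Finset.sum_le_sum h).trans (le_of_eq ?_)
  rw [Finset.sum_const, nsmul_eq_mul]
  ring

theorem mp_tr (v : ℝ≥0) (x : Tor d M) :
    MeasurePreserving (tr x) (gau d M v) (gau d M v) :=
  (Pool.Agent.BED.H61.cov d M 0 0 x).2.2.2.2.2 v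

theorem mean_ms (v : ℝ≥0) (r : ℕ) {z : ℂ} (hz0 : 0 < z.im) :
    ((bx d M r).card : ℝ≥0∞) * ∫⁻ V, ENNReal.ofReal (ms r z V) ∂(gau d M v) ≤
      ∫⁻ V, ENNReal.ofReal (mss V z (bx d M (2 * r))) ∂(gau d M v) := by
  have hm : Measurable fun V : Tor d M → ℝ => ENNReal.ofReal (ms r z V) :=
    (ENNReal.continuous_ofReal.comp (ms_cont r hz0)).measurable
  have h1 : ∀ x : Tor d M, ∫⁻ V, ENNReal.ofReal (ms r z (tr x V)) ∂(gau d M v) =
      ∫⁻ V, ENNReal.ofReal (ms r z V) ∂(gau d M v) :=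
    fun x => (mp_tr v x).lintegral_comp hm
  have h2 : ((bx d M r).card : ℝ≥0∞) * ∫⁻ V, ENNReal.ofReal (ms r z V) ∂(gau d M v) =
      ∫⁻ V, ∑ x ∈ bx d M r, ENNReal.ofReal (ms r z (tr x V)) ∂(gau d M v) := by
    have hm' : ∀ x ∈ bx d M r, Measurable fun V : Tor d M → ℝ =>
        ENNReal.ofReal (ms r z (tr x V)) := fun x _ => hm.comp (mp_tr v x).measurable
    rw [lintegral_finsetSum _ hm']
    simp only [h1, Finset.sum_const, nsmul_eq_mul]
  rw [h2]
  refine lintegral_mono fun V => ?_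
  rw [← ENNReal.ofReal_sum_of_nonneg fun x _ => ms_nn r z (tr x V)]
  exact ENNReal.ofReal_le_ofReal (sum_ms r z V)

theorem mean_mss (v : ℝ≥0) (C : Finset (Tor d M)) {z : ℂ} (hz0 : 0 < z.im) {q : ℝ} (hq : 0 ≤ q)
    {P : ℝ} (hP : 0 ≤ P) (hbad : gau d M v {V | ¬ mss V z C ≤ q} ≤ ENNReal.ofReal P) :
    ∫⁻ V, ENNReal.ofReal (mss V z C) ∂(gau d M v) ≤
      ENNReal.ofReal (q + C.card / z.im ^ 2 * P) := by
  have hprob : IsProbabilityMeasure (gau d M v) := by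
    unfold gau
    infer_instance
  have hb : MeasurableSet {V : Tor d M → ℝ | ¬ mss V z C ≤ q} :=
    (measurableSet_le (mss_cont C hz0).measurable measurable_const).compl
  have h1 : ∀ V : Tor d M → ℝ, ENNReal.ofReal (mss V z C) ≤ ENNReal.ofReal q +
      {V : Tor d M → ℝ | ¬ mss V z C ≤ q}.indicator
        (fun _ => ENNReal.ofReal (C.card / z.im ^ 2)) V := by
    intro V
    by_cases h : mss V z C ≤ q
    · exact (ENNReal.ofReal_le_ofReal h).trans le_self_add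
    · rw [Set.indicator_of_mem (by exact h)]
      exact (ENNReal.ofReal_le_ofReal (mss_le V hz0 C)).trans le_add_self
  refine (lintegral_mono h1).trans ?_
  rw [lintegral_add_left measurable_const, lintegral_const, measure_univ, mul_one,
    lintegral_indicator hb, setLIntegral_const]
  rw [ENNReal.ofReal_add hq (by positivity), ENNReal.ofReal_mul (by positivity)]
  gcongr

end mean

/-- numbers -/
theorem num {D K w : ℝ} {d : ℕ} (hK : 2 * D ≤ K) (hD : 1 ≤ D) (hw : K + d + 2 ≤ w) :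
    D / w ^ 2 + K / 2 * (Real.exp (-(w ^ 4)) * Real.exp w ^ d) ≤ 1 / w := by
  have hd : (0 : ℝ) ≤ d := Nat.cast_nonneg d
  have hw2 : 2 ≤ w := by linarith
  have hw0 : 0 < w := by linarith
  obtain ⟨X, hX⟩ : ∃ X, X = Real.exp (-(w ^ 4)) * Real.exp w ^ d := ⟨_, rfl⟩
  have h1 : w * X ≤ Real.exp (-w) := by
    have h2 : w ≤ Real.exp w := by
      have := Real.add_one_le_exp w
      linarith
    have h3 : Real.exp w * X = Real.exp (w + (-(w ^ 4) + d * w)) := by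
      rw [hX, Real.exp_add, Real.exp_add, Real.exp_nat_mul]
    have h4 : w + (-(w ^ 4) + d * w) ≤ -w := by
      have h5 : w ≤ w ^ 3 := by nlinarith only [sq_nonneg (w - 1), hK, hD, hw]
      have h6 : ((d : ℝ) + 2) * w ≤ w ^ 3 * w := by
        refine mul_le_mul_of_nonneg_right ?_ hw0.le
        linarith
      nlinarith only [h6]
    have hX0 : 0 ≤ X := by
      rw [hX]
      positivity
    calc w * X ≤ Real.exp w * X := mul_le_mul_of_nonneg_right h2 hX0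
      _ = Real.exp (w + (-(w ^ 4) + d * w)) := h3
      _ ≤ Real.exp (-w) := Real.exp_le_exp.2 h4
  have h7 : Real.exp (-w) ≤ 1 / w := by
    rw [Real.exp_neg, inv_eq_one_div]
    refine one_div_le_one_div_of_le hw0 ?_
    have := Real.add_one_le_exp w
    linarith
  rw [← hX]
  have h8 : w * X ≤ 1 / w := h1.trans h7
  have h9 : X ≤ 1 / w ^ 2 := by
    rw [le_div_iff₀ (by positivity)]
    rw [le_div_iff₀ hw0] at h8
    linarith [h8, sq w]
  have hK0 : 0 ≤ K / 2 := by linarith only [hK, hD]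
  calc D / w ^ 2 + K / 2 * X ≤ D / w ^ 2 + K / 2 * (1 / w ^ 2) := by
        have := mul_le_mul_of_nonneg_left h9 hK0
        linarith
    _ = (D + K / 2) / w ^ 2 := by ring
    _ ≤ w / w ^ 2 := div_le_div_of_nonneg_right (by linarith only [hK, hw]) (by positivity)
    _ = 1 / w := by
        rw [sq, div_mul_cancel_left₀ hw0.ne', one_div]

/-- the first condition for the box -/
theorem cnd1 {s ε η R : ℝ} (d : ℕ) (hs0 : 0 < s) (hs25 : s ≤ 1 / 25) (hε1 : ε ≤ 1) (hη0 : 0 < η)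
    (hη3 : η ≤ s ^ 3) (hR0 : 0 ≤ R) (hR1 : R ≤ s ^ (ε - 1) / Real.sqrt η)
    (hs8 : s ^ (ε / 2) ≤ 1 / 8) :
    (4 * R + 1) ^ d ≤ (s ^ (ε / 2 - 1) / Real.sqrt η) ^ d := by
  have hsq : Real.sqrt η ≤ 1 / 8 := by
    rw [Real.sqrt_le_left (by norm_num)]
    have h1 : s ^ 3 ≤ (1 / 25 : ℝ) ^ 3 := by gcongr
    refine hη3.trans (h1.trans ?_)
    norm_num
  have hsq0 : 0 < Real.sqrt η := Real.sqrt_pos.2 hη0
  refine pow_le_pow_left₀ (by positivity) ?_ d
  obtain ⟨Y, hY⟩ : ∃ Y : ℝ, Y = s ^ (ε / 2 - 1) / Real.sqrt η := ⟨_, rfl⟩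
  have h1 : R ≤ s ^ (ε / 2) * Y := by
    refine hR1.trans (le_of_eq ?_)
    rw [hY, ← mul_div_assoc, ← Real.rpow_add hs0]
    have e : ε / 2 + (ε / 2 - 1) = ε - 1 := by ring
    rw [e]
  have h2 : 8 ≤ Y := by
    rw [hY, le_div_iff₀ hsq0]
    have h3 : 1 ≤ s ^ (ε / 2 - 1) :=
      Real.one_le_rpow_of_pos_of_le_one_of_nonpos hs0 (by linarith only [hs0, hs25]) (by linarith only [hs0, hs25, hε1])
    linarith only [hsq, h3]
  have h4 : s ^ (ε / 2) * Y ≤ 1 / 8 * Y := mul_le_mul_of_nonneg_right hs8 (by linarith only [hs0, hs25, h2])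
  rw [← hY]
  linarith only [hs0, hs25, h1, h2, h4]

/-- the second condition for the box -/
theorem cnd2 {s ε M R : ℝ} {d : ℕ} (hd : 3 ≤ d) (hs0 : 0 < s) (hs25 : s ≤ 1 / 25) (hε1 : ε ≤ 1)
    (hM0 : 0 < M) (hM5 : s ^ (-5 : ℝ) ≤ M) (hR0 : 0 ≤ R) (hR2 : R ≤ s * M) :
    (4 * R + 1) ^ d ≤ s ^ (ε / 2) * M ^ d := by
  have hMd : 0 < M ^ d := by positivity
  have hsM : 1 ≤ s * M := by
    have h1 : s * s ^ (-5 : ℝ) ≤ s * M := mul_le_mul_of_nonneg_left hM5 hs0.le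
    have h2 : s * s ^ (-5 : ℝ) = s ^ (-4 : ℝ) := by
      nth_rewrite 1 [← Real.rpow_one s]
      rw [← Real.rpow_add hs0]
      norm_num
    have h3 : 1 ≤ s ^ (-4 : ℝ) :=
      Real.one_le_rpow_of_pos_of_le_one_of_nonpos hs0 (by linarith only [hs0, hs25]) (by norm_num)
    linarith only [h1, h2, h3]
  have h1 : (4 * R + 1) ^ d ≤ (5 * s * M) ^ d := by
    refine pow_le_pow_left₀ (by positivity) ?_ d
    nlinarith only [hR2, hsM]
  refine h1.trans ?_
  rw [mul_pow]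
  refine mul_le_mul_of_nonneg_right ?_ hMd.le
  have h2 : (5 * s) ^ d ≤ (5 * s) ^ 1 :=
    pow_le_pow_of_le_one (by positivity) (by linarith only [hs0, hs25]) (by omega)
  have h3 : 5 * s ≤ Real.sqrt s := by
    have h4 : Real.sqrt s ≤ 1 / 5 := by
      rw [Real.sqrt_le_left (by norm_num)]
      norm_num
      linarith only [hs25]
    have h5 := Real.mul_self_sqrt hs0.le
    have h6 := Real.sqrt_nonneg s
    nlinarith only [h4, h5, h6]
  have h7 : Real.sqrt s ≤ s ^ (ε / 2) := by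
    rw [Real.sqrt_eq_rpow]
    exact Real.rpow_le_rpow_of_exponent_ge hs0 (by linarith only [hs0, hs25]) (by linarith only [hε1])
  rw [pow_one] at h2
  linarith only [h2, h3, h7]

/-- the conclusion from the bound for the box of the double size -/
theorem core {d M : ℕ} [NeZero M] (v : ℝ≥0) (R : ℕ) (h2R : 2 * R < M) {E η q P t : ℝ}
    (hη0 : 0 < η) (hq : 0 ≤ q) (hP : 0 ≤ P)
    (hbad : gau d M v {V | ¬ mss V ⟨E, η⟩ (bx d M (2 * R)) ≤ q * (bx d M (2 * R)).card / η} ≤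
      ENNReal.ofReal P) (ht : (2 : ℝ) ^ d * (q + P * (1 / η)) ≤ t) :
    ∫⁻ V, ENNReal.ofReal (∑ y, if ∀ i, |((y i).valMinAbs : ℝ)| ≤ R then
      ‖rs V ⟨E, η⟩ 0 y‖ ^ 2 else 0) ∂(gau d M v) ≤ ENNReal.ofReal (t / η) := by
  obtain ⟨D, hD⟩ : ∃ D : ℝ, D = 2 ^ d := ⟨_, rfl⟩
  rw [← hD] at ht
  have hD1 : 1 ≤ D := by
    rw [hD]
    exact one_le_pow₀ (by norm_num)
  have hR0 : (0 : ℝ) ≤ R := Nat.cast_nonneg R
  have hz0 : 0 < (⟨E, η⟩ : ℂ).im := hη0
  obtain ⟨B, hB⟩ : ∃ B : Finset (Tor d M), B = bx d M (2 * R) := ⟨_, rfl⟩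
  have hBc : (B.card : ℝ) ≤ (4 * R + 1) ^ d := by
    have h1 := card_bx_le (d := d) (M := M) (2 * R)
    rw [← hB] at h1
    have h2 : ((B.card : ℕ) : ℝ) ≤ (((2 * (2 * R) + 1) ^ d : ℕ) : ℝ) := by exact_mod_cast h1
    refine h2.trans (le_of_eq ?_)
    push_cast
    ring
  rw [← hB] at hbad
  have hq' : 0 ≤ q * B.card / η := by positivity
  have H5 := mean_mss v B hz0 hq' hP hbad
  have H6 := mean_ms (d := d) (M := M) v R hz0
  rw [← hB] at H6
  obtain ⟨I, hI⟩ : ∃ I, I = ∫⁻ V, ENNReal.ofReal (ms R (⟨E, η⟩ : ℂ) V) ∂(gau d M v) := ⟨_, rfl⟩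
  have hgoal : ∫⁻ V, ENNReal.ofReal (∑ y, if ∀ i, |((y i).valMinAbs : ℝ)| ≤ R then
      ‖rs V ⟨E, η⟩ 0 y‖ ^ 2 else 0) ∂(gau d M v) = I := by
    rw [hI]
    refine lintegral_congr fun V => ?_
    congr 1
    unfold ms
    rw [← Finset.sum_filter]
    refine Finset.sum_congr ?_ fun _ _ => rfl
    ext y
    rw [Finset.mem_filter, mem_real]
    simp
  rw [hgoal]
  rw [← hI] at H6
  obtain ⟨A, hA⟩ : ∃ A : Finset (Tor d M), A = bx d M R := ⟨_, rfl⟩
  rw [← hA] at H6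
  have hAc : ((2 * R + 1 : ℝ)) ^ d ≤ A.card := by
    have h1 := card_bx_ge (d := d) (M := M) h2R
    rw [← hA] at h1
    exact_mod_cast h1
  have hA0 : (0 : ℝ) < A.card := lt_of_lt_of_le (by positivity) hAc
  have hBA : (B.card : ℝ) ≤ D * A.card := by
    have h1 : (4 * (R : ℝ) + 1) ^ d ≤ (2 * (2 * R + 1)) ^ d :=
      pow_le_pow_left₀ (by positivity) (by linarith only) d
    rw [mul_pow, ← hD] at h1
    refine hBc.trans (h1.trans ?_)
    exact mul_le_mul_of_nonneg_left hAc (by linarith only [hD1])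
  have H7 : q * B.card / η + B.card / (⟨E, η⟩ : ℂ).im ^ 2 * P ≤ A.card * (t / η) := by
    have e1 : q * B.card / η + B.card / (⟨E, η⟩ : ℂ).im ^ 2 * P =
        B.card * ((q + P * (1 / η)) / η) := by
      show q * B.card / η + B.card / η ^ 2 * P = _
      field_simp
    have h0 : 0 ≤ (q + P * (1 / η)) / η := by positivity
    rw [e1]
    calc (B.card : ℝ) * ((q + P * (1 / η)) / η)
        ≤ D * A.card * ((q + P * (1 / η)) / η) := mul_le_mul_of_nonneg_right hBA h0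
      _ = A.card * (D * (q + P * (1 / η)) / η) := by ring
      _ ≤ A.card * (t / η) :=
          mul_le_mul_of_nonneg_left (div_le_div_of_nonneg_right ht hη0.le) hA0.le
  have H8 : ((A.card : ℕ) : ℝ≥0∞) * I ≤ ((A.card : ℕ) : ℝ≥0∞) * ENNReal.ofReal (t / η) := by
    refine H6.trans (H5.trans ((ENNReal.ofReal_le_ofReal H7).trans (le_of_eq ?_)))
    rw [ENNReal.ofReal_mul hA0.le, ENNReal.ofReal_natCast]
  have hA1 : ((A.card : ℕ) : ℝ≥0∞) ≠ 0 := by
    have : 0 < A.card := by exact_mod_cast hA0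
    exact_mod_cast this.ne'
  exact (ENNReal.mul_le_mul_iff_right hA1 (ENNReal.natCast_ne_top _)).1 H8

/-- the choice of the constants -/
theorem consts (c₀ θ₀ ε K : ℝ) (d : ℕ) (hc0 : 0 < c₀) (hθ0 : 0 < θ₀) (hε : 0 < ε) (hK : 0 ≤ K) :
    ∃ c : ℝ, 0 < c ∧ c ≤ c₀ ∧ c ≤ 1 / 25 ∧ ∀ s : ℝ, 0 < s → s ≤ c →
      s ^ (ε / 2) ≤ 1 / 8 ∧ ∃ w : ℝ, K + d + 2 ≤ w ∧ w = s ^ (-(θ₀ / 2)) ∧
        s ^ (θ₀ / 2) = 1 / w ∧ s ^ θ₀ = 1 / w ^ 2 ∧ s ^ (-(2 * θ₀)) = w ^ 4 := by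
  obtain ⟨W, hW⟩ : ∃ W : ℝ, W = K + d + 2 := ⟨_, rfl⟩
  have hdn : (0 : ℝ) ≤ d := Nat.cast_nonneg d
  have hW0 : 0 < W := by linarith only [hK, hW]
  refine ⟨min (min c₀ (1 / 25)) (min (W ^ (-(2 / θ₀))) ((1 / 8 : ℝ) ^ (2 / ε))),
    lt_min (lt_min hc0 (by norm_num)) (lt_min (Real.rpow_pos_of_pos hW0 _)
      (Real.rpow_pos_of_pos (by norm_num) _)), (min_le_left _ _).trans (min_le_left _ _),
    (min_le_left _ _).trans (min_le_right _ _), ?_⟩
  intro s hs0 hsc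
  have hcW : s ≤ W ^ (-(2 / θ₀)) := hsc.trans ((min_le_right _ _).trans (min_le_left _ _))
  have hc8 : s ≤ (1 / 8 : ℝ) ^ (2 / ε) := hsc.trans ((min_le_right _ _).trans (min_le_right _ _))
  constructor
  · have h1 : s ^ (ε / 2) ≤ ((1 / 8 : ℝ) ^ (2 / ε)) ^ (ε / 2) :=
      Real.rpow_le_rpow hs0.le hc8 (by linarith only [hε])
    rw [← Real.rpow_mul (by norm_num)] at h1
    have e : 2 / ε * (ε / 2) = 1 := by
      field_simp
    rwa [e, Real.rpow_one] at h1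
  · obtain ⟨w, hw⟩ : ∃ w : ℝ, w = s ^ (-(θ₀ / 2)) := ⟨_, rfl⟩
    have hwW : W ≤ w := by
      have h1 : (W ^ (-(2 / θ₀))) ^ (-(θ₀ / 2)) ≤ s ^ (-(θ₀ / 2)) :=
        Real.rpow_le_rpow_of_nonpos hs0 hcW (by linarith only [hθ0])
      rw [← Real.rpow_mul hW0.le] at h1
      have e : -(2 / θ₀) * -(θ₀ / 2) = 1 := by
        field_simp
      rw [e, Real.rpow_one] at h1
      rw [hw]
      exact h1
    have hsθ : s ^ (θ₀ / 2) = 1 / w := by
      rw [hw, Real.rpow_neg hs0.le, one_div, inv_inv]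
    refine ⟨w, by rw [← hW]; exact hwW, hw, hsθ, ?_, ?_⟩
    · have e : s ^ θ₀ = (s ^ (θ₀ / 2)) ^ (2 : ℕ) := by
        rw [← Real.rpow_natCast, ← Real.rpow_mul hs0.le]
        have e' : θ₀ / 2 * ((2 : ℕ) : ℝ) = θ₀ := by
          push_cast
          ring
        rw [e']
      rw [e, hsθ, div_pow, one_pow]
    · have e : -(2 * θ₀) = -(θ₀ / 2) * ((4 : ℕ) : ℝ) := by
        push_cast
        ring
      rw [e, Real.rpow_mul hs0.le, Real.rpow_natCast, ← hw]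

/-- TMA -/
theorem tma : TorStmt → TmaStmt := by
  intro tor d a ε hd ha hε hε1
  obtain ⟨θ₀, c₀, C₀, hθ0, hθ1, hc0, hc1, hC, H⟩ :=
    tor d a (ε / 2) hd ha (by linarith only [hε]) (by linarith)
  obtain ⟨D, hD⟩ : ∃ D : ℝ, D = 2 ^ d := ⟨_, rfl⟩
  have hD1 : 1 ≤ D := by
    rw [hD]
    exact one_le_pow₀ (by norm_num)
  obtain ⟨K, hK⟩ : ∃ K : ℝ, K = 2 * D * (C₀ + 1) := ⟨_, rfl⟩
  have hKD : 2 * D ≤ K := by
    rw [hK]
    nlinarith only [hθ0, hθ1, hC, hD1]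
  obtain ⟨c, hcpos, hcc, hc25, hc⟩ := consts c₀ θ₀ ε K d hc0 hθ0 hε (by linarith only [hθ0, hθ1, hD1, hKD])
  refine ⟨θ₀ / 2, c, by linarith only [hθ0], hcpos, by linarith only [hc1, hcc], ?_⟩
  intro M R _ v σ E η hv hσ hσc hE hM5 hMe hηM hη3 hR1 hR2
  have hs0 : 0 < |σ| := abs_pos.2 hσ
  have H0 := H M v σ E η hv hσ (hσc.trans hcc) hE hM5
  obtain ⟨s, hs⟩ : ∃ s : ℝ, s = |σ| := ⟨_, rfl⟩
  rw [← hs] at hσc hM5 hMe hηM hη3 hR1 hR2 H0 hs0 ⊢
  have hs1 : s ≤ 1 := by linarith only [hθ0, hθ1, hc1, hcc, hσc]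
  have hM0 : (0 : ℝ) < M := by
    have := Nat.pos_of_ne_zero (NeZero.ne M)
    exact_mod_cast this
  have hMd : (0 : ℝ) < (M : ℝ) ^ d := by positivity
  have hη0 : 0 < η := by
    have h1 : 0 < η * (M : ℝ) ^ d := lt_of_lt_of_le (Real.rpow_pos_of_pos hs0 _) hηM
    by_contra hcon
    rw [not_lt] at hcon
    have := mul_nonpos_of_nonpos_of_nonneg hcon hMd.le
    linarith only [h1, this]
  obtain ⟨hs8, w, hwW, hw, hsθ, hsθ₀, hw4⟩ := hc s hs0 hσc
  obtain ⟨m, -, -, -, H2⟩ := H0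
    (hMe.trans (Real.exp_le_exp.2 (Real.rpow_le_rpow_of_exponent_ge hs0 hs1 (by linarith only [hθ0]))))
    ((Real.rpow_le_rpow_of_exponent_ge hs0 hs1 (by linarith only [hε])).trans hηM) hη3
  obtain ⟨ξ, hξ⟩ : ∃ ξ : ℝ, ξ = Real.exp (s ^ (-(2 * θ₀))) := ⟨_, rfl⟩
  have hξ1 : 1 ≤ ξ := by
    rw [hξ]
    exact Real.one_le_exp (Real.rpow_nonneg hs0.le _)
  have H3 := H2 ⟨0, by omega⟩ ξ hξ1
  obtain ⟨P, hP⟩ : ∃ P : ℝ, P = C₀ / ξ + Real.exp (-(s ^ (-(2 * θ₀)))) := ⟨_, rfl⟩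
  rw [← hP] at H3
  have hξ0 : 0 < ξ := by linarith only [hθ0, hθ1, hξ1]
  have hP0 : 0 ≤ P := by
    rw [hP]
    positivity
  have hP1 : P = (C₀ + 1) * Real.exp (-(w ^ 4)) := by
    rw [hP, hξ, hw4, Real.exp_neg]
    ring
  have hR0 : (0 : ℝ) ≤ R := Nat.cast_nonneg R
  have hBc : ((bx d M (2 * R)).card : ℝ) ≤ (4 * R + 1) ^ d := by
    have h1 := card_bx_le (d := d) (M := M) (2 * R)
    have h2 : (((bx d M (2 * R)).card : ℕ) : ℝ) ≤ (((2 * (2 * R) + 1) ^ d : ℕ) : ℝ) := by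
      exact_mod_cast h1
    refine h2.trans (le_of_eq ?_)
    push_cast
    ring
  have hB1 := hBc.trans (cnd1 d hs0 (hσc.trans hc25) hε1 hη0 hη3 hR0 hR1 hs8)
  have hB2 := hBc.trans (cnd2 hd hs0 (hσc.trans hc25) hε1 hM0 hM5 hR0 hR2)
  have h2R : 2 * R < M := by
    have h1 : (2 * (R : ℝ)) < M := by nlinarith only [hc1, hcc, hR2, hσc, hM0]
    exact_mod_cast h1
  refine core v R h2R hη0 (q := s ^ θ₀) (P := P) (Real.rpow_nonneg hs0.le _) hP0 ?_ ?_
  · refine le_trans (measure_mono ?_) H3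
    intro V hV hcon
    exact hV (hcon.2.2.1 _ hB1 hB2)
  · have hηi : 1 / η ≤ Real.exp w ^ d := by
      have h1 : 1 ≤ η * (M : ℝ) ^ d := by
        refine le_trans ?_ hηM
        exact Real.one_le_rpow_of_pos_of_le_one_of_nonpos hs0 hs1 (by linarith only [hε])
      have h2 : (M : ℝ) ^ d ≤ Real.exp w ^ d := by
        rw [hw]
        exact pow_le_pow_left₀ hM0.le hMe d
      rw [div_le_iff₀ hη0, mul_comm]
      exact h1.trans (mul_le_mul_of_nonneg_left h2 hη0.le)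
    have h2 : P * (1 / η) ≤ P * Real.exp w ^ d := mul_le_mul_of_nonneg_left hηi hP0
    have h3 := num (d := d) hKD hD1 hwW
    rw [hsθ, hsθ₀, ← hD]
    refine le_trans ?_ h3
    calc D * (1 / w ^ 2 + P * (1 / η)) ≤ D * (1 / w ^ 2 + P * Real.exp w ^ d) := by
          refine mul_le_mul_of_nonneg_left ?_ (by linarith only [hθ0, hθ1, hD1])
          linarith only [h2]
      _ = D / w ^ 2 + K / 2 * (Real.exp (-(w ^ 4)) * Real.exp w ^ d) := by
          rw [hP1, hK]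
          ring

end Pool.Agent.LE.QY.H76
end
end -- Pool.Agent.Helper76_LQY.TMA

section -- Pool.Agent.Helper81_LQY.TEV

/-!
# Squad LQY (MP_1906c1_mp), row TEV: all eigenvectors on the torus are completely delocalized
-/

set_option autoImplicit false

open MeasureTheory ProbabilityTheory Function Filter

open scoped ENNReal BigOperators Topology NNReal ComplexOrder Matrix

noncomputable section

namespace Pool.Agent.LE.QY.H81

open Pool.Agent.Anderson hiding box mem_box card_box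
open Pool.Agent.Loc Pool.Agent.Mob Pool.Agent.Helper54.Bal
  Pool.Agent.Helper96.EXP Pool.Agent.BED
open Pool.Agent.LE.MN Pool.Agent.LE.CL Pool.Agent.LE.IR Pool.Agent.LE.QD Pool.Agent.LE.QF

/-- an eigenvector is delocalized if the diagonal of the resolvent is bounded -/
theorem ev_bd {d M : ℕ} [NeZero M] (V : Tor d M → ℝ) (E E₀ η B : ℝ) (u : Tor d M → ℂ)
    (hη : 0 < η) (hE : |E - E₀| ≤ η) (hu : hz V (E : ℂ) *ᵥ u = 0) (x : Tor d M)
    (hB : ‖rs V ⟨E₀, η⟩ x x‖ ≤ B) : ‖u x‖ ^ 2 ≤ 2 * η * B * n2 u := by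
  obtain ⟨z, hz1⟩ : ∃ z : ℂ, z = ⟨E₀, η⟩ := ⟨_, rfl⟩
  have hzi : z.im = η := by rw [hz1]
  have hzr : z.re = E₀ := by rw [hz1]
  rw [← hz1] at hB
  have h2 : hz V z = hz V (E : ℂ) + Matrix.diagonal fun _ => ((E : ℂ) - z) := by
    unfold hz
    rw [add_assoc, Matrix.diagonal_add]
    congr 2
    funext y
    ring
  have h1 : hz V z *ᵥ u = ((E : ℂ) - z) • u := by
    rw [h2, Matrix.add_mulVec, hu, zero_add]
    ext y
    rw [Matrix.mulVec_diagonal]
    rfl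
  have h3 : u = ((E : ℂ) - z) • (rs V z *ᵥ u) := by
    rw [← Matrix.mulVec_smul, ← h1, Matrix.mulVec_mulVec,
      Pool.Agent.LE.QD.H76.rs_mul V (by rw [hzi]; exact hη.ne'), Matrix.one_mulVec]
  have h4 : ‖(rs V z *ᵥ u) x‖ ^ 2 ≤ (∑ y, ‖rs V z x y‖ ^ 2) * n2 u := by
    have h5 : ‖(rs V z *ᵥ u) x‖ ≤ ∑ y, ‖rs V z x y‖ * ‖u y‖ := by
      refine (norm_sum_le _ _).trans (Finset.sum_le_sum fun y _ => ?_)
      rw [norm_mul]
    refine (pow_le_pow_left₀ (norm_nonneg _) h5 2).trans ?_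
    exact Finset.sum_mul_sq_le_sq_mul_sq _ _ _
  rw [Pool.Agent.LE.QD.H76.row V (by rw [hzi]; exact hη) x, hzi] at h4
  have h6 : (rs V z x x).im ≤ B :=
    ((le_abs_self _).trans (Complex.abs_im_le_norm _)).trans hB
  have h7 : 0 ≤ n2 u := Finset.sum_nonneg fun _ _ => by positivity
  have h8 : ‖(E : ℂ) - z‖ ^ 2 ≤ 2 * η ^ 2 := by
    rw [← Complex.normSq_eq_norm_sq, Complex.normSq_apply]
    have h9 : ((E : ℂ) - z).re = E - E₀ := by simp [hzr]
    have h10 : ((E : ℂ) - z).im = - η := by simp [hzi]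
    rw [h9, h10]
    have h11 : (E - E₀) * (E - E₀) ≤ η * η := by
      rw [← abs_mul_abs_self (E - E₀)]
      exact mul_le_mul hE hE (abs_nonneg _) hη.le
    nlinarith only [h11]
  have h12 : ‖u x‖ ^ 2 = ‖(E : ℂ) - z‖ ^ 2 * ‖(rs V z *ᵥ u) x‖ ^ 2 := by
    have := congrFun h3 x
    rw [Pi.smul_apply, smul_eq_mul] at this
    rw [this, norm_mul, mul_pow]
  rw [h12]
  calc ‖(E : ℂ) - z‖ ^ 2 * ‖(rs V z *ᵥ u) x‖ ^ 2
      ≤ (2 * η ^ 2) * ((rs V z x x).im / η * n2 u) :=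
        mul_le_mul h8 h4 (by positivity) (by positivity)
    _ ≤ (2 * η ^ 2) * (B / η * n2 u) := by gcongr
    _ = 2 * η * B * n2 u := by
        field_simp

theorem union_gau {d M : ℕ} [NeZero M] {v : ℝ≥0} (N : ℕ) (p : ℕ → Prop)
    (P : ℕ → (Tor d M → ℝ) → Prop) {q : ℝ}
    (hP : ∀ j, p j → gau d M v {V | ¬ P j V} ≤ ENNReal.ofReal q) :
    gau d M v (⋃ j ∈ Finset.range N, {V | p j ∧ ¬ P j V}) ≤ ENNReal.ofReal (N * q) := by
  refine (measure_biUnion_finset_le _ _).trans ?_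
  have h1 : ∀ j ∈ Finset.range N, gau d M v {V | p j ∧ ¬ P j V} ≤ ENNReal.ofReal q := by
    intro j _
    by_cases hp : p j
    · refine (measure_mono ?_).trans (hP j hp)
      intro V hV
      exact hV.2
    · have h2 : {V : Tor d M → ℝ | p j ∧ ¬ P j V} = ∅ := by
        ext V
        simp [hp]
      rw [h2, measure_empty]
      exact zero_le
  refine (Finset.sum_le_sum h1).trans (le_of_eq ?_)
  rw [Finset.sum_const, Finset.card_range, nsmul_eq_mul, ← ENNReal.ofReal_natCast,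
    ← ENNReal.ofReal_mul (Nat.cast_nonneg _)]

/-- the numbers: the union bound -/
theorem num_u {d : ℕ} (hd : 3 ≤ d) {s θ C Md : ℝ} (hs : 0 < s) (hC : 1 ≤ C)
    (hθ : s ^ θ ≤ 1 / (6 * d * (C + 1))) (h1 : 1 ≤ Md) (h2 : Md ≤ Real.exp (d * s ^ (-θ))) :
    2 * (2 * d * Md + 1) * ((C + 1) * Real.exp (-(s ^ (-(2 * (2 * θ)))))) ≤
      Real.exp (-(s ^ (-θ))) := by
  have hd0 : (3 : ℝ) ≤ d := by exact_mod_cast hd
  obtain ⟨X, hX⟩ : ∃ X, X = s ^ (-θ) := ⟨_, rfl⟩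
  have hX0 : 6 * (d : ℝ) * (C + 1) ≤ X := by
    rw [hX, Real.rpow_neg hs.le]
    rw [le_inv_comm₀ (by positivity) (Real.rpow_pos_of_pos hs _)]
    rwa [one_div] at hθ
  have e1 : s ^ (-(2 * (2 * θ))) = X ^ 4 := by
    rw [hX, ← Real.rpow_natCast, ← Real.rpow_mul hs.le]
    congr 1
    push_cast
    ring
  rw [e1]
  rw [← hX] at h2 ⊢
  have h3 : 6 * (d : ℝ) * (C + 1) ≤ Real.exp X := by
    have := Real.add_one_le_exp X
    linarith only [hX0, this]
  have h4 : 2 * (2 * (d : ℝ) * Md + 1) ≤ 6 * d * Md := by nlinarith only [h1, hd0]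
  have hXd : (d : ℝ) + 2 ≤ X := by nlinarith only [hC, hd0, hX0]
  have h5 : ((d : ℝ) + 2) * X ≤ X ^ 4 := by
    have hX1 : 1 ≤ X := by linarith only [hd0, hXd]
    calc ((d : ℝ) + 2) * X ≤ X * X := by gcongr
      _ = X ^ 2 := by ring
      _ ≤ X ^ 4 := pow_le_pow_right₀ hX1 (by norm_num)
  calc 2 * (2 * d * Md + 1) * ((C + 1) * Real.exp (-X ^ 4))
      ≤ (6 * d * Md) * ((C + 1) * Real.exp (-X ^ 4)) := by gcongr
    _ = (6 * d * (C + 1)) * Md * Real.exp (-X ^ 4) := by ring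
    _ ≤ (Real.exp X * Real.exp (d * X)) * Real.exp (-X ^ 4) := by gcongr
    _ = Real.exp (X + d * X + -X ^ 4) := by rw [Real.exp_add, Real.exp_add]
    _ ≤ Real.exp (-X) := Real.exp_le_exp.2 (by linarith only [h5])

/-- row TEV -/
theorem tev (tor : TorStmt) : TevStmt := by
  intro d a ε hd ha hε hε1
  obtain ⟨θ', c', C, hθ', hθ'1, hc', hc'1, hC1, htor⟩ := tor d a (ε / 2) hd ha (by linarith only [hε])
    (by linarith)
  obtain ⟨θ, hθ⟩ : ∃ θ, θ = θ' / 2 := ⟨_, rfl⟩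
  have hθ0 : 0 < θ := by rw [hθ]; positivity
  have hθ2 : θ' = 2 * θ := by rw [hθ]; ring
  rw [hθ2] at htor
  have hd0 : (3 : ℝ) ≤ d := by exact_mod_cast hd
  have hdp : (0 : ℝ) < d := by linarith only [hd0]
  have hCp : 0 < C := by linarith only [hC1]
  obtain ⟨c, hc⟩ : ∃ c : ℝ, c = min c' (min ((1 / (2 * (C + 1))) ^ (2 / ε))
    ((1 / (6 * d * (C + 1))) ^ (1 / θ))) := ⟨_, rfl⟩
  have hc0 : 0 < c := by
    rw [hc]
    exact lt_min hc' (lt_min (Real.rpow_pos_of_pos (by positivity) _)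
      (Real.rpow_pos_of_pos (by positivity) _))
  have hc1 : c ≤ c' := hc ▸ min_le_left _ _
  have hc2 : c ≤ (1 / (2 * (C + 1))) ^ (2 / ε) := hc ▸ (min_le_right _ _).trans (min_le_left _ _)
  have hc3 : c ≤ (1 / (6 * d * (C + 1))) ^ (1 / θ) :=
    hc ▸ (min_le_right _ _).trans (min_le_right _ _)
  refine ⟨θ, c, hθ0, hc0, hc1.trans hc'1, ?_⟩
  intro M _ v σ hv hσ hσc hM1 hM2
  obtain ⟨s, hs⟩ : ∃ s, s = |σ| := ⟨_, rfl⟩
  have hs0 : 0 < s := hs ▸ abs_pos.2 hσ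
  rw [← hs] at hσc hM1 hM2 ⊢
  have hs4 : s ≤ 1 / 4 := hσc.trans (hc1.trans hc'1)
  have hs1 : s ≤ 1 := by linarith only [hθ'1, hc'1, hθ, hθ0, hc1, hσc]
  have hsθ : s ^ θ ≤ 1 / (6 * d * (C + 1)) := by
    have h1 : s ^ θ ≤ ((1 / (6 * d * (C + 1))) ^ (1 / θ)) ^ θ :=
      Real.rpow_le_rpow hs0.le (hσc.trans hc3) hθ0.le
    rwa [← Real.rpow_mul (by positivity), one_div_mul_cancel hθ0.ne', Real.rpow_one] at h1
  have hsε : 2 * (C + 1) ≤ s ^ (-(ε / 2)) := by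
    have h1 : s ^ (ε / 2) ≤ ((1 / (2 * (C + 1))) ^ (2 / ε)) ^ (ε / 2) :=
      Real.rpow_le_rpow hs0.le (hσc.trans hc2) (by positivity)
    have h2 : 2 / ε * (ε / 2) = 1 := by field_simp
    rw [← Real.rpow_mul (by positivity), h2, Real.rpow_one] at h1
    rw [Real.rpow_neg hs0.le, le_inv_comm₀ (by positivity) (Real.rpow_pos_of_pos hs0 _)]
    rwa [one_div] at h1
  have hM0 : (0 : ℝ) < M := lt_of_lt_of_le (Real.rpow_pos_of_pos hs0 _) hM1
  have hMge : 1 ≤ (M : ℝ) :=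
    (Real.one_le_rpow_of_pos_of_le_one_of_nonpos hs0 hs1 (by norm_num)).trans hM1
  obtain ⟨η, hη⟩ : ∃ η, η = s ^ (-(ε / 2)) / (M : ℝ) ^ d := ⟨_, rfl⟩
  have hsp : 0 < s ^ (-(ε / 2)) := Real.rpow_pos_of_pos hs0 _
  have hη0 : 0 < η := by rw [hη]; positivity
  have hηM : η * (M : ℝ) ^ d = s ^ (-(ε / 2)) := by
    rw [hη]
    field_simp
  have hsp1 : 1 ≤ s ^ (-(ε / 2)) :=
    Real.one_le_rpow_of_pos_of_le_one_of_nonpos hs0 hs1 (by linarith only [hε])
  have hη3 : η ≤ s ^ 3 := by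
    rw [hη, div_le_iff₀ (by positivity)]
    have h1 : (s ^ (-5 : ℝ)) ^ 3 ≤ (M : ℝ) ^ d :=
      (pow_le_pow_left₀ (Real.rpow_nonneg hs0.le _) hM1 3).trans (pow_le_pow_right₀ hMge hd)
    have h2 : (s ^ (-5 : ℝ)) ^ 3 = s ^ (-15 : ℝ) := by
      rw [← Real.rpow_natCast, ← Real.rpow_mul hs0.le]
      norm_num
    have h3 : s ^ (-(ε / 2)) ≤ s ^ 3 * s ^ (-15 : ℝ) := by
      rw [show s ^ 3 = s ^ (3 : ℝ) by exact_mod_cast (Real.rpow_natCast s 3).symm,
        ← Real.rpow_add hs0]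
      exact Real.rpow_le_rpow_of_exponent_ge hs0 hs1 (by linarith only [hε1, hθ'1, hθ, hθ0])
    rw [h2] at h1
    exact h3.trans (mul_le_mul_of_nonneg_left h1 (by positivity))
  have hX1 : 1 ≤ Real.exp (s ^ (-(2 * (2 * θ)))) :=
    Real.one_le_exp (Real.rpow_nonneg hs0.le _)
  have hMθ : (M : ℝ) ≤ Real.exp (s ^ (-(2 * θ))) := by
    refine hM2.trans (Real.exp_le_exp.2 ?_)
    exact Real.rpow_le_rpow_of_exponent_ge hs0 hs1 (by linarith only [hθ0])
  obtain ⟨q, hq⟩ : ∃ q, q = (C + 1) * Real.exp (-(s ^ (-(2 * (2 * θ))))) := ⟨_, rfl⟩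
  have hgau : ∀ E₀ : ℝ, |E₀| ≤ 2 * d - a →
      gau d M v {V | ¬ ∀ x, ‖rs V ⟨E₀, η⟩ x x‖ ≤ C + 1} ≤ ENNReal.ofReal q := by
    intro E₀ hE₀
    obtain ⟨m, hm1, hm2, hm3, hm4⟩ := htor M v σ E₀ η hv hσ (by rw [← hs]; exact hσc.trans hc1) hE₀
      (by rw [← hs]; exact hM1) (by rw [← hs]; exact hMθ) (by rw [← hs, hηM])
      (by rw [← hs]; exact hη3)
    have h1 := hm4 ⟨0, by omega⟩ _ hX1
    rw [← hs] at h1
    refine (measure_mono ?_).trans (h1.trans (ENNReal.ofReal_le_ofReal ?_))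
    · intro V hV hcon
      apply hV
      intro x
      have h2 := hcon.2.1 x x
      rw [hm3 x] at h2
      have h3 : s ^ (2 * θ) ≤ 1 := Real.rpow_le_one hs0.le hs1 (by linarith only [hθ0])
      calc ‖rs V ⟨E₀, η⟩ x x‖ = ‖(rs V ⟨E₀, η⟩ x x - m) + m‖ := by rw [sub_add_cancel]
        _ ≤ ‖rs V ⟨E₀, η⟩ x x - m‖ + ‖m‖ := norm_add_le _ _
        _ ≤ C + 1 := by linarith
    · rw [hq, div_eq_mul_inv, ← Real.exp_neg]
      linarith only
  obtain ⟨J, hJ⟩ : ∃ J : ℕ, J = ⌊(2 * d - a) * (1 / η)⌋₊ + 1 := ⟨_, rfl⟩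
  have hti : 0 < 1 / η := by positivity
  have hp : gau d M v (⋃ j ∈ Finset.range J, {V | (0 : ℝ) + (j : ℝ) / (1 / η) ≤ 2 * d - a ∧
      ¬ ∀ x, ‖rs V ⟨0 + (j : ℝ) / (1 / η), η⟩ x x‖ ≤ C + 1}) ≤ ENNReal.ofReal (J * q) := by
    refine union_gau J (fun j => (0 : ℝ) + (j : ℝ) / (1 / η) ≤ 2 * d - a)
      (fun j V => ∀ x, ‖rs V ⟨0 + (j : ℝ) / (1 / η), η⟩ x x‖ ≤ C + 1) ?_
    intro j hj
    have h1 : 0 ≤ (j : ℝ) / (1 / η) := by positivity
    refine hgau _ ?_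
    rw [abs_of_nonneg (by linarith only [h1])]
    exact hj
  have hm : gau d M v (⋃ j ∈ Finset.range J, {V | (0 : ℝ) + (j : ℝ) / (1 / η) ≤ 2 * d - a ∧
      ¬ ∀ x, ‖rs V ⟨-(0 + (j : ℝ) / (1 / η)), η⟩ x x‖ ≤ C + 1}) ≤ ENNReal.ofReal (J * q) := by
    refine union_gau J (fun j => (0 : ℝ) + (j : ℝ) / (1 / η) ≤ 2 * d - a)
      (fun j V => ∀ x, ‖rs V ⟨-(0 + (j : ℝ) / (1 / η)), η⟩ x x‖ ≤ C + 1) ?_
    intro j hj
    have h1 : 0 ≤ (j : ℝ) / (1 / η) := by positivity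
    refine hgau _ ?_
    rw [abs_neg, abs_of_nonneg (by linarith only [h1])]
    exact hj
  have hfin : 2 * η * (C + 1) ≤ s ^ (-ε) / (M : ℝ) ^ d := by
    rw [hη, le_div_iff₀ (by positivity)]
    have h1 : 2 * (s ^ (-(ε / 2)) / (M : ℝ) ^ d) * (C + 1) * (M : ℝ) ^ d =
        2 * (C + 1) * s ^ (-(ε / 2)) := by
      field_simp
    rw [h1]
    have h2 : s ^ (-ε) = s ^ (-(ε / 2)) * s ^ (-(ε / 2)) := by
      rw [← Real.rpow_add hs0]
      congr 1
      ring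
    rw [h2]
    exact mul_le_mul_of_nonneg_right hsε hsp.le
  have key : ∀ (V : Tor d M → ℝ) (E₀ : ℝ), (∀ x, ‖rs V ⟨E₀, η⟩ x x‖ ≤ C + 1) →
      ∀ (E : ℝ) (u : Tor d M → ℂ), |E - E₀| ≤ 1 / (1 / η) → hz V (E : ℂ) *ᵥ u = 0 →
        ∀ x, ‖u x‖ ^ 2 ≤ s ^ (-ε) / (M : ℝ) ^ d * n2 u := by
    intro V E₀ hG E u hE hu x
    rw [one_div_one_div] at hE
    have h7 : 0 ≤ n2 u := Finset.sum_nonneg fun _ _ => by positivity
    exact (ev_bd V E E₀ η (C + 1) u hη0 hE hu x (hG x)).trans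
      (mul_le_mul_of_nonneg_right hfin h7)
  have hsub : {V : Tor d M → ℝ | ¬ ∀ (E : ℝ) (u : Tor d M → ℂ), |E| ≤ 2 * d - a →
      hz V (E : ℂ) *ᵥ u = 0 → ∀ x, ‖u x‖ ^ 2 ≤ s ^ (-ε) / (M : ℝ) ^ d * n2 u} ⊆
      (⋃ j ∈ Finset.range J, {V | (0 : ℝ) + (j : ℝ) / (1 / η) ≤ 2 * d - a ∧
      ¬ ∀ x, ‖rs V ⟨0 + (j : ℝ) / (1 / η), η⟩ x x‖ ≤ C + 1}) ∪
      (⋃ j ∈ Finset.range J, {V | (0 : ℝ) + (j : ℝ) / (1 / η) ≤ 2 * d - a ∧
      ¬ ∀ x, ‖rs V ⟨-(0 + (j : ℝ) / (1 / η)), η⟩ x x‖ ≤ C + 1}) := by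
    intro V hV
    by_contra hcon
    apply hV
    intro E u hE hu
    simp only [Set.mem_union, Set.mem_iUnion, Set.mem_ofPred_eq, not_or, not_exists, not_and,
      not_not] at hcon
    obtain ⟨j, hj, hj1, hj2⟩ := Pool.Agent.LE.QX.H94.grid hti (abs_nonneg E) hE le_rfl
    rw [← hJ] at hj
    rcases hj2 with hj2 | hj2
    · exact key V _ (hcon.1 j hj hj1) E u hj2 hu
    · exact key V _ (hcon.2 j hj hj1) E u hj2 hu
  refine (measure_mono hsub).trans ((measure_union_le _ _).trans ?_)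
  refine (add_le_add hp hm).trans ?_
  have hq0 : 0 < q := by rw [hq]; positivity
  rw [← ENNReal.ofReal_add (by positivity) (by positivity)]
  refine ENNReal.ofReal_le_ofReal ?_
  have hMd1 : 1 ≤ (M : ℝ) ^ d := one_le_pow₀ hMge
  have hiη : 1 / η ≤ (M : ℝ) ^ d := by
    rw [div_le_iff₀ hη0, mul_comm, hηM]
    exact hsp1
  have hJ1 : (J : ℝ) ≤ 2 * d * (M : ℝ) ^ d + 1 := by
    rw [hJ]
    push_cast
    have h1 : (⌊(2 * d - a) * (1 / η)⌋₊ : ℝ) ≤ 2 * d * (M : ℝ) ^ d := by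
      rcases le_or_gt 0 ((2 * d - a) * (1 / η)) with h2 | h2
      · refine (Nat.floor_le h2).trans ?_
        calc (2 * d - a) * (1 / η) ≤ (2 * d) * (1 / η) := by
              refine mul_le_mul_of_nonneg_right ?_ hti.le
              linarith only [ha]
          _ ≤ 2 * d * (M : ℝ) ^ d := by gcongr
      · rw [Nat.floor_of_nonpos h2.le]
        push_cast
        positivity
    linarith only [h1]
  have hMe : (M : ℝ) ^ d ≤ Real.exp (d * s ^ (-θ)) := by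
    rw [Real.exp_nat_mul]
    exact pow_le_pow_left₀ hM0.le hM2 d
  have h1 := num_u hd hs0 hC1 hsθ hMd1 hMe
  rw [← hq] at h1
  refine le_trans ?_ h1
  have h2 : (J : ℝ) * q ≤ (2 * d * (M : ℝ) ^ d + 1) * q := mul_le_mul_of_nonneg_right hJ1 hq0.le
  linarith only [h2]

end Pool.Agent.LE.QY.H81
end
end -- Pool.Agent.Helper81_LQY.TEV
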