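import Pool.Agent.Helper12_MEB.B076
import Pool.Agent.Helper12_MEB.B118

/-!
# Merged copies (generated) of the modules

* `Pool.Agent.Helper64_LIR.NCK`
* `Pool.Agent.Helper76_LIR.FMO`
* `Pool.Agent.Helper95_LIR.CVB`
* `Pool.Agent.Helper56_LIR.CLF3`
-/

set_option autoImplicit false

section -- Pool.Agent.Helper64_LIR.NCK

/-!
# NCK: noncommutative Khintchine inequality for Gaussian series of Hermitian matrices
-/

set_option autoImplicit false
set_option linter.unusedSectionVars false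

open MeasureTheory ProbabilityTheory Function Filter Matrix

open scoped ENNReal BigOperators Topology NNReal ComplexOrder

noncomputable section

namespace Pool.Agent.LE.IR.H64

open Pool.Agent.Anderson hiding box mem_box card_box

variable {ι n : Type} [Fintype ι] [DecidableEq ι] [Fintype n] [DecidableEq n]

/-- Matrix series with real coefficients. -/
def SM (A : ι → Matrix n n ℂ) (D : ι → ℝ) : Matrix n n ℂ := ∑ y, (D y : ℂ) • A y

theorem SM_herm {A : ι → Matrix n n ℂ} (hA : ∀ y, (A y).IsHermitian) (D : ι → ℝ) :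
    (SM A D).IsHermitian := by
  unfold SM Matrix.IsHermitian
  rw [conjTranspose_sum]
  apply Finset.sum_congr rfl
  intro y _
  rw [conjTranspose_smul, (hA y).eq]
  congr 1
  simp

theorem SM_flip (A : ι → Matrix n n ℂ) (r : ι → ℝ) (y : ι) (e : ι → Bool) :
    SM A (sD r e) - SM A (sD r (flip1 y e)) = ((2 * (sg (e y) * r y) : ℝ) : ℂ) • A y := by
  unfold SM
  rw [← Finset.sum_sub_distrib, Finset.sum_eq_single y]
  · rw [← sub_smul]
    congr 1
    unfold sD flip1
    rw [Function.update_self, sg_not]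
    push_cast
    ring
  · intro b _ hb
    unfold sD flip1
    rw [Function.update_of_ne hb, sub_self]
  · simp

theorem quad_sq {A : Matrix n n ℂ} (hA : A.IsHermitian) (u : n → ℂ) :
    (star u ⬝ᵥ ((A * A) *ᵥ u)).re = nsq (A *ᵥ u) := by
  have h1 : star u ⬝ᵥ ((A * A) *ᵥ u) = star (A *ᵥ u) ⬝ᵥ (A *ᵥ u) := by
    rw [← mulVec_mulVec, dotProduct_mulVec, star_mulVec, hA.eq]
  rw [h1]
  unfold nsq dotProduct
  rw [Complex.re_sum]
  apply Finset.sum_congr rfl
  intro i _
  have := Complex.mul_conj ((A *ᵥ u) i)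
  rw [Complex.normSq_eq_norm_sq] at this
  have h2 : star ((A *ᵥ u) i) * (A *ᵥ u) i = ((‖(A *ᵥ u) i‖ ^ 2 : ℝ) : ℂ) := by
    rw [mul_comm]; exact this
  rw [Pi.star_apply, h2, Complex.ofReal_re]

theorem nck_step {A : ι → Matrix n n ℂ} (hA : ∀ y, (A y).IsHermitian) {L s : ℝ}
    (hK : ∀ u : n → ℂ, ∑ y, nsq (A y *ᵥ u) ≤ L * nsq u)
    {r : ι → ℝ} (hr : ∀ y, |r y| ≤ s) (m : ℕ) :
    ∑ e : ι → Bool, (SM A (sD r e) ^ (2 * (m + 1))).trace.re ≤
      (2 * m + 1) * (s ^ 2 * L) * ∑ e : ι → Bool, (SM A (sD r e) ^ (2 * m)).trace.re := by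
  have hs2 : ∀ y, r y ^ 2 ≤ s ^ 2 := fun y => by
    rw [← sq_abs (r y)]
    exact pow_le_pow_left₀ (abs_nonneg _) (hr y) 2
  -- expand one factor
  have h1 : ∀ e : ι → Bool, (SM A (sD r e) ^ (2 * (m + 1))).trace.re =
      ∑ y, sg (e y) * r y * (A y * SM A (sD r e) ^ (2 * m + 1)).trace.re := by
    intro e
    rw [show 2 * (m + 1) = (2 * m + 1) + 1 by ring, pow_succ']
    generalize SM A (sD r e) ^ (2 * m + 1) = Z
    unfold SM
    rw [Finset.sum_mul, Matrix.trace_sum, Complex.re_sum]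
    apply Finset.sum_congr rfl
    intro y _
    rw [Matrix.smul_mul, Matrix.trace_smul, smul_eq_mul, Complex.re_ofReal_mul]
    rfl
  have h2 : ∀ y, 2 * ∑ e : ι → Bool, sg (e y) * r y *
      (A y * SM A (sD r e) ^ (2 * m + 1)).trace.re =
      ∑ e : ι → Bool, sg (e y) * r y * ((A y * (SM A (sD r e) ^ (2 * m + 1) -
        SM A (sD r (flip1 y e)) ^ (2 * m + 1))).trace.re) := by
    intro y
    have e1 := sum_flip1 y (fun e : ι → Bool => sg (e y) * r y *
      (A y * SM A (sD r e) ^ (2 * m + 1)).trace.re)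
    rw [two_mul]
    nth_rw 2 [← e1]
    rw [← Finset.sum_add_distrib]
    apply Finset.sum_congr rfl
    intro e _
    have : sg (flip1 y e y) = -sg (e y) := by
      unfold flip1; rw [Function.update_self, sg_not]
    rw [this, Matrix.mul_sub, Matrix.trace_sub, Complex.sub_re]
    ring
  have h3 : ∀ y (e : ι → Bool), sg (e y) * r y * ((A y * (SM A (sD r e) ^ (2 * m + 1) -
        SM A (sD r (flip1 y e)) ^ (2 * m + 1))).trace.re) ≤
      r y ^ 2 * ((2 * m + 1) * ((A y * A y * SM A (sD r e) ^ (2 * m)).trace.re +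
        (A y * A y * SM A (sD r (flip1 y e)) ^ (2 * m)).trace.re)) := by
    intro y e
    set X := SM A (sD r e) with hX
    set Y := SM A (sD r (flip1 y e)) with hY
    have hd : X - Y = ((2 * (sg (e y) * r y) : ℝ) : ℂ) • A y := SM_flip A r y e
    rw [pow_sub_pow_nc, Matrix.mul_sum, Matrix.trace_sum, Complex.re_sum]
    have e2 : ∀ q, (A y * (X ^ q * (X - Y) * Y ^ (2 * m + 1 - 1 - q))).trace.re =
        2 * (sg (e y) * r y) * (A y * X ^ q * A y * Y ^ (2 * m - q)).trace.re := by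
      intro q
      rw [hd, show 2 * m + 1 - 1 - q = 2 * m - q by omega, Matrix.mul_smul, Matrix.smul_mul,
        Matrix.mul_smul, Matrix.trace_smul, smul_eq_mul, Complex.re_ofReal_mul]
      simp only [Matrix.mul_assoc]
    simp only [e2]
    rw [← Finset.mul_sum]
    have h4 := trace_sum_le (SM_herm hA (sD r e)) (SM_herm hA (sD r (flip1 y e)))
      (hA y) m
    rw [← hX, ← hY] at h4
    have h5 := sg_sq (e y)
    have h6 : sg (e y) * r y * (2 * (sg (e y) * r y) *
        ∑ i ∈ Finset.range (2 * m + 1), (A y * X ^ i * A y * Y ^ (2 * m - i)).trace.re) =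
        r y ^ 2 * (2 * ∑ i ∈ Finset.range (2 * m + 1),
          (A y * X ^ i * A y * Y ^ (2 * m - i)).trace.re) := by
      linear_combination (2 * r y ^ 2 * ∑ i ∈ Finset.range (2 * m + 1),
          (A y * X ^ i * A y * Y ^ (2 * m - i)).trace.re) * h5
    rw [h6]
    exact mul_le_mul_of_nonneg_left h4 (sq_nonneg _)
  -- trace of squares times even powers is nonnegative
  have hnn : ∀ y (e : ι → Bool), 0 ≤ (A y * A y * SM A (sD r e) ^ (2 * m)).trace.re := by
    intro y e
    have hX := SM_herm hA (sD r e)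
    have h : (A y * A y * SM A (sD r e) ^ (2 * m)).trace =
        ((A y * SM A (sD r e) ^ m)ᴴ * (A y * SM A (sD r e) ^ m)).trace := by
      rw [conjTranspose_mul, (hA y).eq, (hX.pow m).eq, two_mul, pow_add, Matrix.mul_assoc,
        Matrix.mul_assoc, Matrix.trace_mul_comm (SM A (sD r e) ^ m)]
      simp only [Matrix.mul_assoc]
    rw [h]
    exact trace_conj_nonneg _
  have h4 : ∀ y, ∑ e : ι → Bool, sg (e y) * r y *
      (A y * SM A (sD r e) ^ (2 * m + 1)).trace.re ≤
      (2 * m + 1) * s ^ 2 * ∑ e : ι → Bool, (A y * A y * SM A (sD r e) ^ (2 * m)).trace.re := by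
    intro y
    have e3 : 2 * ∑ e : ι → Bool, sg (e y) * r y *
        (A y * SM A (sD r e) ^ (2 * m + 1)).trace.re ≤
        r y ^ 2 * ((2 * m + 1) *
        (2 * ∑ e : ι → Bool, (A y * A y * SM A (sD r e) ^ (2 * m)).trace.re)) := by
      rw [h2 y]
      refine (Finset.sum_le_sum fun e _ => h3 y e).trans (le_of_eq ?_)
      rw [← Finset.mul_sum, ← Finset.mul_sum, Finset.sum_add_distrib,
        sum_flip1 y (fun e => (A y * A y * SM A (sD r e) ^ (2 * m)).trace.re)]
      ring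
    have hT : 0 ≤ ∑ e : ι → Bool, (A y * A y * SM A (sD r e) ^ (2 * m)).trace.re :=
      Finset.sum_nonneg fun e _ => hnn y e
    set T := ∑ e : ι → Bool, (A y * A y * SM A (sD r e) ^ (2 * m)).trace.re
    have h10 : r y ^ 2 * ((2 * m + 1) * (2 * T)) ≤ s ^ 2 * ((2 * m + 1) * (2 * T)) :=
      mul_le_mul_of_nonneg_right (hs2 y) (by positivity)
    linarith
  have hquad : ∀ u : n → ℂ, (star u ⬝ᵥ ((∑ y, A y * A y) *ᵥ u)).re ≤ L * ∑ y, ‖u y‖ ^ 2 := by
    intro u
    have h5 := hK u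
    have h6 : (star u ⬝ᵥ ((∑ y, A y * A y) *ᵥ u)).re = ∑ y, nsq (A y *ᵥ u) := by
      rw [Matrix.sum_mulVec, dotProduct_sum, Complex.re_sum]
      exact Finset.sum_congr rfl fun y _ => quad_sq (hA y) u
    rw [h6]
    exact h5
  calc ∑ e : ι → Bool, (SM A (sD r e) ^ (2 * (m + 1))).trace.re
      = ∑ y, ∑ e : ι → Bool, sg (e y) * r y *
          (A y * SM A (sD r e) ^ (2 * m + 1)).trace.re := by
        simp only [h1]
        rw [Finset.sum_comm]
    _ ≤ ∑ y, (2 * m + 1) * s ^ 2 *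
          ∑ e : ι → Bool, (A y * A y * SM A (sD r e) ^ (2 * m)).trace.re :=
        Finset.sum_le_sum fun y _ => h4 y
    _ = (2 * m + 1) * s ^ 2 *
          ∑ e : ι → Bool, ((∑ y, A y * A y) * SM A (sD r e) ^ (2 * m)).trace.re := by
        rw [← Finset.mul_sum, Finset.sum_comm]
        congr 1
        apply Finset.sum_congr rfl
        intro e _
        rw [Matrix.sum_mul, Matrix.trace_sum, Complex.re_sum]
    _ ≤ (2 * m + 1) * s ^ 2 *
          ∑ e : ι → Bool, (L * (SM A (sD r e) ^ (2 * m)).trace.re) := by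
        gcongr with e _
        exact trace_K_le (SM_herm hA _) hquad m
    _ = _ := by
        rw [← Finset.mul_sum]
        ring

theorem nck_signs {A : ι → Matrix n n ℂ} (hA : ∀ y, (A y).IsHermitian) {L s : ℝ} (hL : 0 ≤ L)
    (hK : ∀ u : n → ℂ, ∑ y, nsq (A y *ᵥ u) ≤ L * nsq u)
    {r : ι → ℝ} (hr : ∀ y, |r y| ≤ s) (p : ℕ) :
    ∑ e : ι → Bool, (SM A (sD r e) ^ (2 * p)).trace.re ≤
      (2 ^ Fintype.card ι) * (Fintype.card n * (2 * p * (s ^ 2 * L)) ^ p) := by
  have hQ : 0 ≤ s ^ 2 * L := by positivity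
  have key : ∀ P : ℕ, ∀ p ≤ P, ∑ e : ι → Bool, (SM A (sD r e) ^ (2 * p)).trace.re ≤
      (2 ^ Fintype.card ι) * (Fintype.card n * (2 * P * (s ^ 2 * L)) ^ p) := by
    intro P p
    induction p with
    | zero =>
      intro _
      simp [Matrix.trace_one]
    | succ p ih =>
      intro hp
      have h1 := nck_step hA hK hr p
      have h2 := ih (by omega)
      have hpP : (2 * (p : ℝ) + 1) ≤ 2 * P := by
        have : (p : ℝ) + 1 ≤ P := by exact_mod_cast hp
        linarith
      calc _ ≤ (2 * (p:ℝ) + 1) * (s ^ 2 * L) *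
            ∑ e : ι → Bool, (SM A (sD r e) ^ (2 * p)).trace.re := h1
        _ ≤ (2 * (P:ℝ)) * (s ^ 2 * L) *
            ((2 ^ Fintype.card ι) * (Fintype.card n * (2 * P * (s ^ 2 * L)) ^ p)) := by
            have hnn : 0 ≤ ∑ e : ι → Bool, (SM A (sD r e) ^ (2 * p)).trace.re :=
              Finset.sum_nonneg fun e _ => trace_pow_nonneg (SM_herm hA _) p
            apply mul_le_mul _ h2 hnn (by positivity)
            exact mul_le_mul_of_nonneg_right hpP hQ
        _ = _ := by rw [pow_succ]; ring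
  exact key p p le_rfl

theorem continuous_SM (A : ι → Matrix n n ℂ) (q : ℕ) :
    Continuous fun D : ι → ℝ => (SM A D ^ q).trace.re := by
  have h1 : Continuous fun D : ι → ℝ => SM A D := by
    unfold SM
    apply continuous_finsetSum
    intro y _
    have : Continuous fun D : ι → ℝ => (D y : ℂ) := by fun_prop
    exact this.smul continuous_const
  have h2 : Continuous fun D : ι → ℝ => (SM A D ^ q).trace := (h1.pow q).matrix_trace
  exact Complex.continuous_re.comp h2

theorem gauss_sg (v : ℝ≥0) (b : Bool) :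
    MeasurePreserving (fun t : ℝ => sg b * t) (gaussianReal 0 v) (gaussianReal 0 v) := by
  cases b
  · have : (fun t : ℝ => sg false * t) = fun t => -t := by
      funext t; simp [sg]
    rw [this]
    refine ⟨measurable_neg, ?_⟩
    rw [gaussianReal_map_neg, neg_zero]
  · have : (fun t : ℝ => sg true * t) = id := by
      funext t; simp [sg]
    rw [this]
    exact MeasurePreserving.id _

theorem tau_sg (s t : ℝ) (b : Bool) : tau s (sg b * t) = sg b * tau s t := by
  cases b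
  · have h1 : sg false * t = -t := by simp [sg]
    have h2 : sg false * tau s t = -tau s t := by simp [sg]
    rw [h1, h2, tau_neg]
  · have h1 : sg true * t = t := by simp [sg]
    have h2 : sg true * tau s t = tau s t := by simp [sg]
    rw [h1, h2]

theorem nck_lintegral {A : ι → Matrix n n ℂ} (hA : ∀ y, (A y).IsHermitian) {L s : ℝ}
    (hL : 0 ≤ L) (hs : 0 ≤ s)
    (hK : ∀ u : n → ℂ, ∑ y, nsq (A y *ᵥ u) ≤ L * nsq u) (v : ℝ≥0) (p : ℕ) :
    ∫⁻ V, ENNReal.ofReal ((SM A (fun y => tau s (V y)) ^ (2 * p)).trace.re)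
        ∂(Measure.pi fun _ : ι => gaussianReal 0 v) ≤
      ENNReal.ofReal (Fintype.card n * (2 * p * (s ^ 2 * L)) ^ p) := by
  set P : Measure (ι → ℝ) := Measure.pi fun _ : ι => gaussianReal 0 v with hP
  set F : (ι → ℝ) → ℝ≥0∞ := fun D => ENNReal.ofReal ((SM A D ^ (2 * p)).trace.re) with hF
  have hFm : Measurable F :=
    ENNReal.measurable_ofReal.comp (continuous_SM A (2 * p)).measurable
  have htm : Measurable (fun V : ι → ℝ => fun y => tau s (V y)) := by
    apply measurable_pi_lambda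
    intro y
    exact (measurable_tau s).comp (measurable_pi_apply y)
  have hGm : Measurable (fun V : ι → ℝ => F (fun y => tau s (V y))) := hFm.comp htm
  have h2 : ∀ e : ι → Bool, ∫⁻ V, F (sD (fun y => tau s (V y)) e) ∂P =
      ∫⁻ V, F (fun y => tau s (V y)) ∂P := by
    intro e
    have hp : MeasurePreserving (fun D : ι → ℝ => fun y => sg (e y) * D y) P P :=
      measurePreserving_pi (fun _ : ι => gaussianReal 0 v) (fun _ : ι => gaussianReal 0 v)
        (f := fun y t => sg (e y) * t) (fun y => gauss_sg v (e y))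
    have h3 := hp.lintegral_comp hGm
    rw [← h3]
    apply lintegral_congr
    intro V
    congr 1
    funext y
    show sg (e y) * tau s (V y) = tau s (sg (e y) * V y)
    rw [tau_sg]
  have hsDm : ∀ e : ι → Bool, Measurable (fun V : ι → ℝ => F (sD (fun y => tau s (V y)) e)) := by
    intro e
    apply hFm.comp
    unfold sD
    apply measurable_pi_lambda
    intro y
    exact ((measurable_tau s).comp (measurable_pi_apply y)).const_mul _
  have h4 : ∑ e : ι → Bool, ∫⁻ V, F (sD (fun y => tau s (V y)) e) ∂P ≤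
      ENNReal.ofReal ((2 ^ Fintype.card ι) *
        (Fintype.card n * (2 * p * (s ^ 2 * L)) ^ p)) := by
    rw [← lintegral_finsetSum (μ := P) Finset.univ
      (f := fun (e : ι → Bool) V => F (sD (fun y => tau s (V y)) e)) (fun e _ => hsDm e)]
    have h5 : ∀ V : ι → ℝ, ∑ e : ι → Bool, F (sD (fun y => tau s (V y)) e) ≤
        ENNReal.ofReal ((2 ^ Fintype.card ι) *
          (Fintype.card n * (2 * p * (s ^ 2 * L)) ^ p)) := by
      intro V
      rw [hF]
      rw [← ENNReal.ofReal_sum_of_nonneg (fun e _ => trace_pow_nonneg (SM_herm hA _) p)]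
      apply ENNReal.ofReal_le_ofReal
      exact nck_signs hA hL hK (fun y => abs_tau_le hs _) p
    calc _ ≤ ∫⁻ _ : ι → ℝ, ENNReal.ofReal ((2 ^ Fintype.card ι) *
          (Fintype.card n * (2 * p * (s ^ 2 * L)) ^ p)) ∂P := lintegral_mono h5
      _ = _ := by rw [lintegral_const, measure_univ, mul_one]
  simp only [h2] at h4
  rw [Finset.sum_const, Finset.card_univ, Fintype.card_fun, Fintype.card_bool,
    ENNReal.ofReal_mul (by positivity), nsmul_eq_mul] at h4
  have e2 : ENNReal.ofReal (2 ^ Fintype.card ι) = ((2 ^ Fintype.card ι : ℕ) : ℝ≥0∞) := by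
    rw [← ENNReal.ofReal_natCast]
    push_cast
    rfl
  rw [e2] at h4
  exact (ENNReal.mul_le_mul_iff_right (by positivity) (ENNReal.natCast_ne_top _)).1 h4

/-- Gaussian tail. -/
theorem tail_one (v : ℝ≥0) {r : ℝ} (hr : 0 ≤ r) :
    gaussianReal 0 v {x | r * Real.sqrt v < |x|} ≤
      ENNReal.ofReal (2 * Real.exp (-(r ^ 2 / 2))) := by
  by_cases hv : v = 0
  · subst hv
    rw [gaussianReal_zero_var]
    have : (Measure.dirac (0 : ℝ)) {x | r * Real.sqrt ((0 : ℝ≥0) : ℝ) < |x|} = 0 := by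
      rw [Measure.dirac_apply' _ (by
        exact measurableSet_lt measurable_const (by fun_prop))]
      simp
    rw [this]
    exact zero_le
  · have hvpos : (0 : ℝ) < v := by
      have : 0 < v := pos_iff_ne_zero.mpr hv
      exact_mod_cast this
    have hsq : 0 < Real.sqrt v := Real.sqrt_pos.mpr hvpos
    have hlaw : (gaussianReal 0 v).map (fun x => x / Real.sqrt v) = gaussianReal 0 1 := by
      rw [gaussianReal_map_div_const, zero_div]
      congr 1
      apply NNReal.eq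
      simp only [NNReal.coe_div, NNReal.coe_mk, NNReal.coe_one, Real.sq_sqrt hvpos.le]
      exact div_self hvpos.ne'
    have h := gauss_tail (P := gaussianReal 0 v) (X := fun x => x / Real.sqrt v) hlaw hr
    refine le_trans (measure_mono ?_) h
    intro x hx
    simp only [Set.mem_ofPred_eq] at hx ⊢
    rw [abs_div, abs_of_pos hsq, lt_div_iff₀ hsq]
    exact hx

theorem nck : NckStmt := by
  intro ι n _ _ _ _ X v Θ τ r k hX hΘ hK hτ hr hk
  set P : Measure (ι → ℝ) := Measure.pi fun _ : ι => gaussianReal 0 v with hP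
  set s : ℝ := r * Real.sqrt v with hs
  have hs0 : 0 ≤ s := by positivity
  have hs2 : s ^ 2 = r ^ 2 * v := by
    rw [hs, mul_pow, Real.sq_sqrt (NNReal.coe_nonneg v)]
  set F : (ι → ℝ) → ℝ≥0∞ := fun V =>
    ENNReal.ofReal ((SM X (fun y => tau s (V y)) ^ (2 * k)).trace.re) with hF
  have htm : Measurable (fun V : ι → ℝ => fun y => tau s (V y)) := by
    apply measurable_pi_lambda
    intro y
    exact (measurable_tau s).comp (measurable_pi_apply y)
  have hFm : Measurable F :=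
    ENNReal.measurable_ofReal.comp ((continuous_SM X (2 * k)).measurable.comp htm)
  have h1 : ∫⁻ V, F V ∂P ≤ ENNReal.ofReal (Fintype.card n * (2 * k * (s ^ 2 * Θ)) ^ k) :=
    nck_lintegral hX hΘ hs0 hK v k
  -- Markov
  have hmarkov : P {V | ENNReal.ofReal (τ ^ (2 * k)) ≤ F V} ≤
      ENNReal.ofReal (Fintype.card n * (2 * k * r ^ 2 * v * Θ / τ ^ 2) ^ k) := by
    have hτk : 0 < τ ^ (2 * k) := by positivity
    have h5 := meas_ge_le_lintegral_div (μ := P) hFm.aemeasurable
      (ε := ENNReal.ofReal (τ ^ (2 * k))) (by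
        rw [Ne, ENNReal.ofReal_eq_zero, not_le]; exact hτk) ENNReal.ofReal_ne_top
    refine h5.trans ?_
    rw [ENNReal.div_le_iff (by rw [Ne, ENNReal.ofReal_eq_zero, not_le]; exact hτk)
      ENNReal.ofReal_ne_top, ← ENNReal.ofReal_mul (by positivity)]
    refine h1.trans (le_of_eq ?_)
    congr 1
    rw [pow_mul τ 2 k, mul_assoc (Fintype.card n : ℝ), ← mul_pow]
    congr 2
    rw [hs2]
    field_simp
  have htail : ∀ y : ι, P {V | s < |V y|} ≤ ENNReal.ofReal (2 * Real.exp (-(r ^ 2 / 2))) := by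
    intro y
    have hm : MeasurableSet {x : ℝ | s < |x|} := measurableSet_lt measurable_const (by fun_prop)
    have hmp := measurePreserving_eval (fun _ : ι => gaussianReal 0 v) y
    have := hmp.measure_preimage hm.nullMeasurableSet
    have h2 : P {V | s < |V y|} = gaussianReal 0 v {x : ℝ | s < |x|} := by
      rw [← this]
      rfl
    rw [h2]
    exact tail_one v hr
  have hsub : {V : ι → ℝ | ¬ ∀ u : n → ℂ,
      nsq (Matrix.mulVec (∑ y, (V y : ℂ) • X y) u) ≤ τ ^ 2 * nsq u} ⊆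
      (⋃ y, {V | s < |V y|}) ∪ {V | ENNReal.ofReal (τ ^ (2 * k)) ≤ F V} := by
    intro V hV
    by_contra hcon
    rw [Set.mem_union, not_or] at hcon
    obtain ⟨hc1, hc2⟩ := hcon
    apply hV
    have hbd : ∀ y, |V y| ≤ s := by
      intro y
      by_contra hlt
      exact hc1 (Set.mem_iUnion.mpr ⟨y, not_le.mp hlt⟩)
    have heq : (fun y => tau s (V y)) = V := by
      funext y
      exact tau_eq (hbd y)
    rw [Set.mem_ofPred_eq, not_le] at hc2
    have h2 : (SM X V ^ (2 * k)).trace.re ≤ τ ^ (2 * k) := by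
      by_contra h3
      push Not at h3
      have h4 : F V = ENNReal.ofReal ((SM X V ^ (2 * k)).trace.re) := by
        simp only [hF, heq]
      rw [h4] at hc2
      exact absurd (ENNReal.ofReal_le_ofReal h3.le) (not_le.2 hc2)
    intro u
    exact op_of_trace (SM_herm hX V) hk hτ.le h2 u
  refine (measure_mono hsub).trans ((measure_union_le _ _).trans ?_)
  rw [ENNReal.ofReal_add (by positivity) (by positivity)]
  apply add_le_add _ hmarkov
  refine (measure_iUnion_fintype_le P _).trans ?_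
  refine (Finset.sum_le_sum fun y _ => htail y).trans (le_of_eq ?_)
  rw [Finset.sum_const, Finset.card_univ, nsmul_eq_mul, ← ENNReal.ofReal_natCast,
    ← ENNReal.ofReal_mul (by positivity)]
  congr 1
  ring

end Pool.Agent.LE.IR.H64
end
end -- Pool.Agent.Helper64_LIR.NCK

section -- Pool.Agent.Helper76_LIR.FMO

/-!
# Squad LIR, row FMO: the first moment of the powers of `T`
-/

set_option autoImplicit false

open MeasureTheory ProbabilityTheory Function Filter

open scoped ENNReal BigOperators Topology NNReal ComplexOrder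

noncomputable section

namespace Pool.Agent.LE.IR.H76

open Pool.Agent.Anderson hiding box mem_box card_box
open Pool.Agent.Loc Pool.Agent.Mob Pool.Agent.Helper54.Bal
  Pool.Agent.Helper96.EXP Pool.Agent.BED Pool.Agent.BED.H32
open Pool.Agent.LE.MN Pool.Agent.LE.CL

variable {d M : ℕ} [NeZero M]

/-- the weight in one coordinate -/
def gw {M : ℕ} (a : ZMod M) : ℝ := ((1 + (a.valMinAbs.natAbs : ℝ)) ^ 2)⁻¹

theorem gw_pos {M : ℕ} (a : ZMod M) : 0 < gw a := by
  unfold gw
  positivity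

theorem summable_int : Summable fun k : ℤ => ((1 + (k.natAbs : ℝ)) ^ 2)⁻¹ := by
  have h1 : Summable fun n : ℕ => ((1 + (n : ℝ)) ^ 2)⁻¹ := by
    have h2 := (summable_nat_add_iff 1).2 (Real.summable_one_div_nat_pow (p := 2).2 (by norm_num))
    refine h2.congr fun n => ?_
    push_cast
    rw [one_div, add_comm (n : ℝ) 1]
  refine Summable.of_nat_of_neg ?_ ?_
  · refine h1.congr fun n => ?_
    rw [Int.natAbs_natCast]
  · refine h1.congr fun n => ?_
    rw [Int.natAbs_neg, Int.natAbs_natCast]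

/-- the constant -/
def KK : ℝ := ∑' k : ℤ, ((1 + (k.natAbs : ℝ)) ^ 2)⁻¹

theorem KK_nonneg : 0 ≤ KK := tsum_nonneg fun k => by positivity

theorem sum_gw (M : ℕ) [NeZero M] : ∑ a : ZMod M, gw a ≤ KK := by
  classical
  have h1 : ∑ a : ZMod M, gw a =
      ∑ k ∈ Finset.univ.image (fun a : ZMod M => a.valMinAbs), ((1 + (k.natAbs : ℝ)) ^ 2)⁻¹ := by
    rw [Finset.sum_image]
    · rfl
    · intro a _ b _ h
      exact ZMod.injective_valMinAbs h
  rw [h1]
  exact summable_int.sum_le_tsum _ fun k _ => by positivity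

theorem sum_weight (x : Tor d M) :
    ∑ y : Tor d M, ((1 + (tds x y : ℝ)) ^ (2 * d))⁻¹ ≤ KK ^ d := by
  classical
  have h1 : ∀ y : Tor d M, ((1 + (tds x y : ℝ)) ^ (2 * d))⁻¹ ≤ ∏ i, gw (y i - x i) := by
    intro y
    have h2 : ((1 + (tds x y : ℝ)) ^ (2 * d))⁻¹ =
        ∏ _i : Fin d, ((1 + (tds x y : ℝ)) ^ 2)⁻¹ := by
      rw [Finset.prod_const, Finset.card_univ, Fintype.card_fin, inv_pow, pow_mul]
    rw [h2]
    refine Finset.prod_le_prod (fun i _ => by positivity) fun i _ => ?_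
    unfold gw
    have h3 : (y i - x i).valMinAbs.natAbs ≤ tds x y := by
      unfold tds
      exact Finset.le_sup (f := fun i => (y i - x i).valMinAbs.natAbs) (Finset.mem_univ i)
    have h4 : ((y i - x i).valMinAbs.natAbs : ℝ) ≤ tds x y := by exact_mod_cast h3
    apply inv_anti₀ (by positivity)
    gcongr
  refine (Finset.sum_le_sum fun y _ => h1 y).trans ?_
  have h5 : ∑ y : Tor d M, ∏ i, gw (y i - x i) = ∏ i : Fin d, ∑ a : ZMod M, gw (a - x i) := by
    rw [Finset.prod_univ_sum]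
    rw [Fintype.piFinset_univ]
  rw [h5]
  have h6 : ∀ i : Fin d, ∑ a : ZMod M, gw (a - x i) = ∑ a : ZMod M, gw a := fun i =>
    Equiv.sum_comp (Equiv.subRight (x i)) (fun a => gw a)
  simp only [h6]
  rw [Finset.prod_const, Finset.card_univ, Fintype.card_fin]
  refine pow_le_pow_left₀ (Finset.sum_nonneg fun a _ => (gw_pos a).le) (sum_gw M) d

theorem natAbs_one (M : ℕ) [NeZero M] : (1 : ZMod M).valMinAbs.natAbs ≤ 1 := by
  rw [ZMod.valMinAbs_natAbs_eq_min]
  refine (min_le_left _ _).trans ?_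
  rw [ZMod.val_one_eq_one_mod]
  exact Nat.mod_le 1 M

theorem tds_ev (x : Tor d M) (i : Fin d) : tds x (x + ev i) ≤ 1 ∧ tds x (x - ev i) ≤ 1 := by
  constructor
  · unfold tds
    refine Finset.sup_le fun j _ => ?_
    have h1 : (x + ev i : Tor d M) j - x j = (ev i : Tor d M) j := by
      rw [Pi.add_apply]; ring
    rw [h1]
    unfold ev
    rw [Pi.single_apply]
    split_ifs
    · exact natAbs_one M
    · rw [ZMod.valMinAbs_zero]
      norm_num
  · unfold tds
    refine Finset.sup_le fun j _ => ?_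
    have h1 : (x - ev i : Tor d M) j - x j = -(ev i : Tor d M) j := by
      rw [Pi.sub_apply]; ring
    rw [h1, ZMod.natAbs_valMinAbs_neg]
    unfold ev
    rw [Pi.single_apply]
    split_ifs
    · exact natAbs_one M
    · rw [ZMod.valMinAbs_zero]
      norm_num

theorem tds_self (x : Tor d M) : tds x x = 0 := by
  unfold tds
  refine Nat.le_zero.1 (Finset.sup_le fun j _ => ?_)
  rw [sub_self, ZMod.valMinAbs_zero]
  norm_num

theorem TM_supp (z : ℝ) (V : Tor d M → ℝ) (x y : Tor d M) (h : TM z V x y ≠ 0) :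
    tds x y ≤ 1 := by
  by_contra hlt
  push Not at hlt
  apply h
  have hxy : x ≠ y := by
    rintro rfl
    rw [tds_self] at hlt
    omega
  have h1 : ∀ i : Fin d, y ≠ x + ev i ∧ y ≠ x - ev i := by
    intro i
    constructor
    · rintro rfl
      have := (tds_ev x i).1
      omega
    · rintro rfl
      have := (tds_ev x i).2
      omega
  have h2 : adj d M x y = 0 := by
    unfold adj
    rw [Matrix.of_apply]
    refine Finset.sum_eq_zero fun i _ => ?_
    rw [if_neg (h1 i).1, if_neg (h1 i).2, add_zero]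
  unfold TM BED.AM
  rw [Matrix.sub_apply, Matrix.smul_apply, Matrix.sub_apply, Matrix.one_apply_ne hxy,
    Matrix.diagonal_apply_ne _ hxy, h2]
  simp

theorem TM_lam (hd : 1 ≤ d) (z lam : ℝ) (V : Tor d M → ℝ) :
    TM (z - lam) V = TM z V + (lam / (8 * d)) • (1 : Matrix (Tor d M) (Tor d M) ℝ) := by
  have hd0 : (d : ℝ) ≠ 0 := by
    have : d ≠ 0 := by omega
    exact_mod_cast this
  have h1 : AM (z - lam) V = AM z V - lam • (1 : Matrix (Tor d M) (Tor d M) ℝ) := by
    unfold BED.AM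
    ext x y
    by_cases h : x = y
    · subst h
      simp only [Matrix.sub_apply, Matrix.smul_apply, Matrix.diagonal_apply_eq,
        Matrix.one_apply_eq, smul_eq_mul]
      ring
    · simp only [Matrix.sub_apply, Matrix.smul_apply, Matrix.diagonal_apply_ne _ h,
        Matrix.one_apply_ne h, smul_eq_mul]
      ring
  unfold TM
  rw [h1]
  ext x y
  simp only [Matrix.sub_apply, Matrix.add_apply, Matrix.smul_apply, smul_eq_mul]
  field_simp
  ring

/-- the exponential against powers -/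
theorem exp_bd (d n : ℕ) (t : ℝ) (hn : 1 ≤ n) (ht1 : 1 ≤ t)
    (ht : 4 * (d + 1) * (n * (1 + Real.log n)) ≤ t ^ 2) :
    2 * Real.exp (-(t ^ 2 / (2 * n))) * t ≤
      2 * (d + 1).factorial * 4 ^ (d + 1) * 4 ^ d * ((1 + t) ^ (2 * d))⁻¹ := by
  have hn0 : (0 : ℝ) < n := by exact_mod_cast hn
  have ht0 : 0 < t := by linarith only [ht1]
  have e1 : t ^ 2 / (2 * n) = t ^ 2 / (4 * n) + t ^ 2 / (4 * n) := by
    field_simp
    ring
  obtain ⟨s, hs⟩ : ∃ s : ℝ, s = t ^ 2 / (4 * n) := ⟨_, rfl⟩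
  have hs0 : 0 < s := by rw [hs]; positivity
  have h1 : Real.exp (-s) ≤ ((n : ℝ) ^ (d + 1))⁻¹ := by
    have h2 : (d + 1) * Real.log n ≤ s := by
      rw [hs, le_div_iff₀ (by positivity)]
      have h3 : (0 : ℝ) ≤ (d + 1) * n := by positivity
      nlinarith only [ht, h3]
    rw [Real.exp_neg]
    apply inv_anti₀ (by positivity)
    calc (n : ℝ) ^ (d + 1) = Real.exp (Real.log n) ^ (d + 1) := by rw [Real.exp_log hn0]
      _ = Real.exp ((d + 1) * Real.log n) := by
          rw [← Real.exp_nat_mul]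
          push_cast
          rfl
      _ ≤ Real.exp s := Real.exp_le_exp.2 h2
  have h2 : Real.exp (-s) ≤ (d + 1).factorial / s ^ (d + 1) := by
    have h3 := Real.pow_div_factorial_le_exp s hs0.le (d + 1)
    rw [Real.exp_neg, ← inv_div]
    exact inv_anti₀ (by positivity) h3
  have h3 : Real.exp (-(t ^ 2 / (2 * n))) ≤
      ((n : ℝ) ^ (d + 1))⁻¹ * ((d + 1).factorial / s ^ (d + 1)) := by
    rw [e1, ← hs, neg_add, Real.exp_add]
    exact mul_le_mul h1 h2 (Real.exp_pos _).le (by positivity)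
  have h4 : ((n : ℝ) ^ (d + 1))⁻¹ * ((d + 1).factorial / s ^ (d + 1)) =
      (d + 1).factorial * 4 ^ (d + 1) * ((t ^ 2) ^ (d + 1))⁻¹ := by
    rw [hs, div_pow, mul_pow]
    field_simp
  have h5 : ((t ^ 2) ^ (d + 1))⁻¹ * t ≤ 4 ^ d * ((1 + t) ^ (2 * d))⁻¹ := by
    have h6 : (1 + t) ^ (2 * d) ≤ 4 ^ d * t ^ (2 * d) := by
      calc (1 + t) ^ (2 * d) ≤ (2 * t) ^ (2 * d) := by
            apply pow_le_pow_left₀ (by positivity)
            linarith only [ht1]
        _ = 4 ^ d * t ^ (2 * d) := by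
            rw [mul_pow, pow_mul]
            norm_num
    have h7 : ((t ^ 2) ^ (d + 1))⁻¹ * t ≤ (t ^ (2 * d))⁻¹ := by
      rw [← pow_mul, inv_mul_le_iff₀ (by positivity), ← div_eq_mul_inv, le_div_iff₀ (by positivity)]
      calc t * t ^ (2 * d) = t ^ (2 * d + 1) := by rw [pow_succ, mul_comm]
        _ ≤ t ^ (2 * (d + 1)) := pow_le_pow_right₀ ht1 (by omega)
    refine h7.trans ?_
    have h8 : (0 : ℝ) < t ^ (2 * d) := by positivity
    have h9 : (0 : ℝ) < (1 + t) ^ (2 * d) := by positivity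
    rw [← div_eq_mul_inv, le_div_iff₀ h9, inv_mul_le_iff₀ h8, mul_comm (t ^ (2 * d))]
    exact h6
  calc 2 * Real.exp (-(t ^ 2 / (2 * n))) * t
      ≤ 2 * ((d + 1).factorial * 4 ^ (d + 1) * ((t ^ 2) ^ (d + 1))⁻¹) * t := by
        rw [← h4]
        gcongr
    _ = 2 * (d + 1).factorial * 4 ^ (d + 1) * (((t ^ 2) ^ (d + 1))⁻¹ * t) := by ring
    _ ≤ 2 * (d + 1).factorial * 4 ^ (d + 1) * (4 ^ d * ((1 + t) ^ (2 * d))⁻¹) := by
        gcongr
    _ = 2 * (d + 1).factorial * 4 ^ (d + 1) * 4 ^ d * ((1 + t) ^ (2 * d))⁻¹ := by ring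

/-- the first moment for `lam = 0` -/
theorem moment (hCVB : CvbStmt) (hd : 1 ≤ d) {z μ ε : ℝ} {V : Tor d M → ℝ}
    (hz : z ≤ 2 * d + 1) (hμ : 0 < μ) (hε' : ε ≤ 1 / 50)
    (hF : FlatE ε z μ V) (n : ℕ) (hn : 1 ≤ n) (x : Tor d M) (j : ℕ) (hj : j ≤ n) :
    ∑ y, (TM z V ^ j) x y * tds x y ≤
      2 * Real.sqrt (4 * (d + 1) * (n * (1 + Real.log n))) +
        2 * (d + 1).factorial * 4 ^ (d + 1) * 4 ^ d * KK ^ d := by
  obtain ⟨hV, hA, hD⟩ := hF
  have hn0 : (0 : ℝ) < n := by exact_mod_cast hn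
  have hlog : 0 ≤ Real.log n := Real.log_nonneg (by exact_mod_cast hn)
  obtain ⟨R2, hR2⟩ : ∃ R2 : ℝ, R2 = 4 * (d + 1) * (n * (1 + Real.log n)) := ⟨_, rfl⟩
  have hR20 : 0 < R2 := by rw [hR2]; positivity
  have hK0 := KK_nonneg
  rw [← hR2]
  rcases Nat.eq_zero_or_pos j with rfl | hj0
  · have h1 : ∑ y, (TM z V ^ 0) x y * (tds x y : ℝ) = 0 := by
      refine Finset.sum_eq_zero fun y _ => ?_
      rw [pow_zero]
      by_cases h : x = y
      · subst h
        rw [tds_self]
        simp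
      · rw [Matrix.one_apply_ne h, zero_mul]
    rw [h1]
    positivity
  have hrow : ∀ y, 0 ≤ (TM z V ^ j) x y := row_nonneg hd hz hV x j
  have hmass : ∑ y, (TM z V ^ j) x y ≤ 2 := by
    have h1 := row_sum hd hz hV hA x j
    have h2 : DD z V x ≤ (1 + ε) * μ := by
      have := (abs_le.1 (hD x)).2
      linarith
    have h3 : ∀ y, (1 - ε) * μ ≤ DD z V y := by
      intro y
      have := (abs_le.1 (hD y)).1
      linarith
    have h4 : (∑ y, (TM z V ^ j) x y) * ((1 - ε) * μ) ≤ ∑ y, (TM z V ^ j) x y * DD z V y := by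
      rw [Finset.sum_mul]
      exact Finset.sum_le_sum fun y _ => mul_le_mul_of_nonneg_left (h3 y) (hrow y)
    have h5 : (∑ y, (TM z V ^ j) x y) * ((1 - ε) * μ) ≤ (1 + ε) * μ := h4.trans (h1.trans h2)
    have h6 : 0 ≤ ∑ y, (TM z V ^ j) x y := Finset.sum_nonneg fun y _ => hrow y
    by_contra hlt
    push Not at hlt
    have h7 : 2 * ((1 - ε) * μ) < (∑ y, (TM z V ^ j) x y) * ((1 - ε) * μ) := by
      apply mul_lt_mul_of_pos_right hlt
      apply mul_pos _ hμ
      linarith only [hε']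
    have h8 : (1 + ε) * μ ≤ 2 * ((1 - ε) * μ) := by nlinarith
    linarith
  have hcontr : ∀ f : Tor d M → ℝ, ∑ x, (Matrix.mulVec (TM z V) f x) ^ 2 ≤ ∑ x, f x ^ 2 :=
    fun f => (TM_sq_le hd hz hV hA f).trans (TM_form_le hd hA f)
  have hcvb := hCVB d M (TM z V) (TM_symm z V) hcontr (TM_supp z V) j x
  have hpt : ∀ y, (TM z V ^ j) x y * (tds x y : ℝ) ≤ Real.sqrt R2 * (TM z V ^ j) x y +
      2 * (d + 1).factorial * 4 ^ (d + 1) * 4 ^ d * ((1 + (tds x y : ℝ)) ^ (2 * d))⁻¹ := by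
    intro y
    rcases le_or_gt ((tds x y : ℝ)) (Real.sqrt R2) with h | h
    · have h1 : (TM z V ^ j) x y * (tds x y : ℝ) ≤ Real.sqrt R2 * (TM z V ^ j) x y := by
        rw [mul_comm (Real.sqrt R2)]
        exact mul_le_mul_of_nonneg_left h (hrow y)
      have h2 : 0 ≤ 2 * ((d + 1).factorial : ℝ) * 4 ^ (d + 1) * 4 ^ d *
          ((1 + (tds x y : ℝ)) ^ (2 * d))⁻¹ := by positivity
      linarith
    · have hpos : (0 : ℝ) < tds x y := lt_of_le_of_lt (Real.sqrt_nonneg _) h
      have h1 : (1 : ℝ) ≤ tds x y := by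
        have : 0 < tds x y := by exact_mod_cast hpos
        exact_mod_cast this
      have h2 : R2 ≤ (tds x y : ℝ) ^ 2 := by
        have h3 := Real.sq_sqrt hR20.le
        have h4 := Real.sqrt_nonneg R2
        nlinarith only [h, hpos, h3, h4]
      have h3 : (TM z V ^ j) x y ≤ 2 * Real.exp (-((tds x y : ℝ) ^ 2 / (2 * n))) := by
        refine (le_abs_self _).trans ((hcvb y).trans ?_)
        have hj1 : (0 : ℝ) < j := by exact_mod_cast hj0
        have hjn : (j : ℝ) ≤ n := by exact_mod_cast hj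
        have h4 : (tds x y : ℝ) ^ 2 / (2 * n) ≤ (tds x y : ℝ) ^ 2 / (2 * j) := by
          apply div_le_div_of_nonneg_left (by positivity) (by positivity)
          linarith only [hjn]
        have h5 : Real.exp (-((tds x y : ℝ) ^ 2 / (2 * j))) ≤
            Real.exp (-((tds x y : ℝ) ^ 2 / (2 * n))) := by
          apply Real.exp_le_exp.2
          linarith only [h4]
        linarith only [h5]
      have h4 := exp_bd d n (tds x y) hn h1 (by rw [← hR2]; exact h2)
      have h5 : (TM z V ^ j) x y * (tds x y : ℝ) ≤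
          2 * Real.exp (-((tds x y : ℝ) ^ 2 / (2 * n))) * tds x y :=
        mul_le_mul_of_nonneg_right h3 hpos.le
      have h6 : 0 ≤ Real.sqrt R2 * (TM z V ^ j) x y := mul_nonneg (Real.sqrt_nonneg _) (hrow y)
      linarith
  refine (Finset.sum_le_sum fun y _ => hpt y).trans ?_
  rw [Finset.sum_add_distrib, ← Finset.mul_sum, ← Finset.mul_sum]
  have h1 : Real.sqrt R2 * ∑ y, (TM z V ^ j) x y ≤ Real.sqrt R2 * 2 :=
    mul_le_mul_of_nonneg_left hmass (Real.sqrt_nonneg _)
  have h2 : 2 * ((d + 1).factorial : ℝ) * 4 ^ (d + 1) * 4 ^ d *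
      ∑ y : Tor d M, ((1 + (tds x y : ℝ)) ^ (2 * d))⁻¹ ≤
      2 * (d + 1).factorial * 4 ^ (d + 1) * 4 ^ d * KK ^ d :=
    mul_le_mul_of_nonneg_left (sum_weight x) (by positivity)
  linarith

/-- FMO -/
theorem fmo (hCVB : CvbStmt) : FmoStmt := by
  intro d hd
  have hK0 := KK_nonneg
  obtain ⟨K1, hK1⟩ : ∃ K1 : ℝ, K1 = 2 * (d + 1).factorial * 4 ^ (d + 1) * 4 ^ d * KK ^ d :=
    ⟨_, rfl⟩
  have hK10 : 0 ≤ K1 := by rw [hK1]; positivity
  obtain ⟨K2, hK2⟩ : ∃ K2 : ℝ, K2 = 2 * Real.sqrt (4 * (d + 1)) := ⟨_, rfl⟩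
  have hK20 : 0 ≤ K2 := by rw [hK2]; positivity
  refine ⟨3 * (K2 + K1) + 1, by linarith only [hK10, hK20], ?_⟩
  intro M _ z μ ε lam V n x hz hμ hε hε' hF hlam hnl hnM hn
  have hd1 : (1 : ℝ) ≤ d := by exact_mod_cast hd
  have hn1 : (1 : ℝ) ≤ n := by exact_mod_cast hn
  have hn0 : (0 : ℝ) < n := by linarith only [hε, hε', hn1]
  have hlog : 0 ≤ Real.log n := Real.log_nonneg hn1
  obtain ⟨S, hS⟩ : ∃ S : ℝ, S = Real.sqrt (n * (1 + Real.log n)) := ⟨_, rfl⟩
  have hS1 : 1 ≤ S := by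
    rw [hS]
    apply Real.one_le_sqrt.2
    nlinarith only [hn1, hlog]
  have hB : ∀ j ≤ n, ∑ y, (TM z V ^ j) x y * tds x y ≤ (K2 + K1) * S := by
    intro j hj
    refine (moment hCVB hd hz hμ hε' hF n hn x j hj).trans ?_
    rw [Real.sqrt_mul (by positivity), ← hS, ← hK1, ← mul_assoc, ← hK2]
    nlinarith only [hK10, hS1]
  obtain ⟨l, hl⟩ : ∃ l : ℝ, l = lam / (8 * d) := ⟨_, rfl⟩
  have hl0 : 0 ≤ l := by rw [hl]; positivity
  have hpow : ∀ y, (TM (z - lam) V ^ n) x y =
      ∑ j ∈ Finset.range (n + 1), ((n.choose j : ℝ) * l ^ (n - j)) * (TM z V ^ j) x y := by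
    intro y
    rw [TM_lam hd, ← hl]
    have hc : Commute (TM z V) (l • (1 : Matrix (Tor d M) (Tor d M) ℝ)) :=
      (Commute.one_right _).smul_right l
    rw [hc.add_pow, Matrix.sum_apply]
    refine Finset.sum_congr rfl fun j _ => ?_
    rw [smul_pow, one_pow]
    have e1 : TM z V ^ j * l ^ (n - j) • (1 : Matrix (Tor d M) (Tor d M) ℝ) *
        ((n.choose j : ℕ) : Matrix (Tor d M) (Tor d M) ℝ) =
        ((n.choose j : ℝ) * l ^ (n - j)) • (TM z V ^ j) := by
      rw [Matrix.mul_smul, Matrix.mul_one, ← nsmul_eq_mul', smul_comm, ← Nat.cast_smul_eq_nsmul ℝ,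
        smul_smul, mul_comm]
    rw [e1, Matrix.smul_apply, smul_eq_mul]
  have h1 : ∑ y, (TM (z - lam) V ^ n) x y * (tds x y : ℝ) =
      ∑ j ∈ Finset.range (n + 1), ((n.choose j : ℝ) * l ^ (n - j)) *
        ∑ y, (TM z V ^ j) x y * (tds x y : ℝ) := by
    simp_rw [hpow, Finset.sum_mul, Finset.mul_sum]
    rw [Finset.sum_comm]
    refine Finset.sum_congr rfl fun j _ => Finset.sum_congr rfl fun y _ => ?_
    ring
  rw [h1]
  have h2 : ∑ j ∈ Finset.range (n + 1), ((n.choose j : ℝ) * l ^ (n - j)) *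
      ∑ y, (TM z V ^ j) x y * (tds x y : ℝ) ≤
      ∑ j ∈ Finset.range (n + 1), ((n.choose j : ℝ) * l ^ (n - j)) * ((K2 + K1) * S) := by
    refine Finset.sum_le_sum fun j hj => ?_
    refine mul_le_mul_of_nonneg_left (hB j (Nat.lt_succ_iff.1 (Finset.mem_range.1 hj))) ?_
    positivity
  refine h2.trans ?_
  rw [← Finset.sum_mul]
  have h3 : ∑ j ∈ Finset.range (n + 1), ((n.choose j : ℝ) * l ^ (n - j)) = (1 + l) ^ n := by
    rw [add_pow]
    refine Finset.sum_congr rfl fun j _ => ?_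
    rw [one_pow]
    ring
  have h4 : (1 + l) ^ n ≤ 3 := by
    have h5 : 1 + l ≤ Real.exp l := by
      rw [add_comm]
      exact Real.add_one_le_exp l
    have h6 : (1 + l) ^ n ≤ Real.exp l ^ n := pow_le_pow_left₀ (by linarith only [hε, hε', hl0]) h5 n
    rw [← Real.exp_nat_mul] at h6
    have h7 : n * l ≤ 1 := by
      have h8 : l ≤ lam := by
        rw [hl, div_le_iff₀ (by positivity)]
        nlinarith only [hε, hε', hlam, hd1]
      have h9 : 0 ≤ 1 / μ := by positivity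
      have h10 : (n : ℝ) * (lam + 1 / μ) = n * lam + n * (1 / μ) := by ring
      have h11 : 0 ≤ (n : ℝ) * (1 / μ) := by positivity
      have h12 : (n : ℝ) * l ≤ n * lam := mul_le_mul_of_nonneg_left h8 hn0.le
      linarith only [hnl, h11, h12]
    have h13 : Real.exp (n * l) ≤ Real.exp 1 := Real.exp_le_exp.2 h7
    have h14 := Real.exp_one_lt_d9
    linarith only [hε, hε', h6, h13, h14]
  rw [h3, ← hS]
  have h5 : 0 ≤ (K2 + K1) * S := by positivity
  have h6 : (1 + l) ^ n * ((K2 + K1) * S) ≤ 3 * ((K2 + K1) * S) :=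
    mul_le_mul_of_nonneg_right h4 h5
  nlinarith only [hε, hε', hS1, h6]

end Pool.Agent.LE.IR.H76
end
end -- Pool.Agent.Helper76_LIR.FMO

section -- Pool.Agent.Helper95_LIR.CVB

/-!
# CVB: the bound of Carne and Varopoulos
-/

set_option autoImplicit false
set_option linter.unusedSectionVars false

open scoped BigOperators

noncomputable section

namespace Pool.Agent.LE.IR.H95

open Pool.Agent.Anderson hiding box mem_box card_box
open Pool.Agent.Loc Pool.Agent.Mob Pool.Agent.Helper54.Bal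
  Pool.Agent.Helper96.EXP Pool.Agent.BED
open Pool.Agent.LE.MN Pool.Agent.LE.CL

variable {d M : ℕ} [NeZero M]

theorem tds_tri (x y z : Tor d M) : tds x y ≤ tds x z + tds z y := by
  unfold tds
  refine Finset.sup_le fun i _ => ?_
  have h1 : y i - x i = (z i - x i) + (y i - z i) := by ring
  rw [h1]
  refine (ZMod.natAbs_valMinAbs_add_le _ _).trans ((Int.natAbs_add_le _ _).trans
    (add_le_add ?_ ?_))
  · exact Finset.le_sup (f := fun i => (z i - x i).valMinAbs.natAbs) (Finset.mem_univ i)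
  · exact Finset.le_sup (f := fun i => (y i - z i).valMinAbs.natAbs) (Finset.mem_univ i)

theorem tds_self (x : Tor d M) : tds x x = 0 := by
  unfold tds
  rw [← Nat.le_zero]
  refine Finset.sup_le fun i _ => ?_
  rw [sub_self]
  simp

theorem pow_zero_of_lt {T : Matrix (Tor d M) (Tor d M) ℝ} (hT : ∀ x y, T x y ≠ 0 → tds x y ≤ 1)
    (k : ℕ) : ∀ x y, (T ^ k) x y ≠ 0 → tds x y ≤ k := by
  induction k with
  | zero =>
    intro x y h
    rw [pow_zero, Matrix.one_apply] at h
    by_cases hxy : x = y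
    · rw [hxy, tds_self]
    · rw [if_neg hxy] at h
      exact absurd rfl h
  | succ k ih =>
    intro x y h
    rw [pow_succ, Matrix.mul_apply] at h
    obtain ⟨z, -, hz⟩ := Finset.exists_ne_zero_of_sum_ne_zero h
    have h1 := ih x z (left_ne_zero_of_mul hz)
    have h2 := hT z y (right_ne_zero_of_mul hz)
    exact (tds_tri x y z).trans (add_le_add h1 h2)

/-- the expansion of a power in Chebyshev polynomials -/
theorem pow_cheb (n : ℕ) {t : ℝ} (h1 : -1 ≤ t) (h2 : t ≤ 1) :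
    t ^ n = (1 / 2) ^ n * ∑ j ∈ Finset.range (n + 1), (n.choose j : ℝ) *
      (Polynomial.Chebyshev.T ℝ (2 * j - n)).eval t := by
  obtain ⟨a, rfl⟩ : ∃ a, t = Real.cos a := ⟨Real.arccos t, (Real.cos_arccos h1 h2).symm⟩
  have h3 : ∀ j ∈ Finset.range (n + 1), (n.choose j : ℝ) *
      (Polynomial.Chebyshev.T ℝ (2 * j - n)).eval (Real.cos a) =
      (Complex.exp (a * Complex.I) ^ j * Complex.exp (-(a * Complex.I)) ^ (n - j) *
        (n.choose j : ℂ)).re := by
    intro j hj
    have hjn : j ≤ n := by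
      have := Finset.mem_range.1 hj
      omega
    rw [Polynomial.Chebyshev.T_real_cos, ← Complex.exp_nat_mul, ← Complex.exp_nat_mul,
      ← Complex.exp_add]
    have h4 : (j : ℂ) * (a * Complex.I) + ((n - j : ℕ) : ℂ) * (-(a * Complex.I)) =
        (((((2 * j - n : ℤ) : ℤ) : ℝ) * a : ℝ) : ℂ) * Complex.I := by
      rw [Nat.cast_sub hjn]
      push_cast
      ring
    rw [h4, ← Complex.ofReal_natCast, Complex.re_mul_ofReal, Complex.exp_ofReal_mul_I_re, mul_comm]
  rw [Finset.sum_congr rfl h3, ← Complex.re_sum, ← add_pow]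
  have h5 : Complex.exp (a * Complex.I) + Complex.exp (-(a * Complex.I)) =
      ((2 * Real.cos a : ℝ) : ℂ) := by
    rw [← neg_mul]
    push_cast
    rw [Complex.two_cos]
  rw [h5, ← Complex.ofReal_pow, Complex.ofReal_re, mul_pow, ← mul_assoc, ← mul_pow]
  norm_num

/-- Hoeffding's bound -/
theorem hoeff (n D : ℕ) : (1 / 2 : ℝ) ^ n * ∑ j ∈ Finset.range (n + 1),
    (if (D : ℤ) ≤ |2 * (j : ℤ) - n| then (n.choose j : ℝ) else 0) ≤
      2 * Real.exp (-((D : ℝ) ^ 2 / (2 * n))) := by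
  set s : ℝ := (D : ℝ) / n with hs
  have hs0 : 0 ≤ s := by positivity
  have h1 : ∀ j ∈ Finset.range (n + 1),
      (if (D : ℤ) ≤ |2 * (j : ℤ) - n| then (n.choose j : ℝ) else 0) ≤
      Real.exp (-(s * D)) * (Real.exp s ^ j * Real.exp (-s) ^ (n - j) * (n.choose j : ℝ) +
        Real.exp (-s) ^ j * Real.exp s ^ (n - j) * (n.choose j : ℝ)) := by
    intro j hj
    have hjn : j ≤ n := by
      have := Finset.mem_range.1 hj
      omega
    have hR : Real.exp (-(s * D)) * (Real.exp s ^ j * Real.exp (-s) ^ (n - j) * (n.choose j : ℝ) +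
        Real.exp (-s) ^ j * Real.exp s ^ (n - j) * (n.choose j : ℝ)) =
        (Real.exp (s * ((2 * j - n : ℝ) - D)) + Real.exp (s * (-(2 * j - n : ℝ) - D))) *
          (n.choose j : ℝ) := by
      rw [← Real.exp_nat_mul, ← Real.exp_nat_mul, ← Real.exp_nat_mul, ← Real.exp_nat_mul,
        ← Real.exp_add, ← Real.exp_add, ← add_mul, ← mul_assoc, mul_add, ← Real.exp_add,
        ← Real.exp_add, Nat.cast_sub hjn]
      congr 3
      · ring
      · ring
    rw [hR]
    split_ifs with h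
    · have hc : (0 : ℝ) ≤ n.choose j := Nat.cast_nonneg _
      have h2 : (D : ℝ) ≤ |2 * (j : ℝ) - n| := by
        have : ((D : ℤ) : ℝ) ≤ ((|2 * (j : ℤ) - n| : ℤ) : ℝ) := by exact_mod_cast h
        push_cast at this
        exact this
      have h3 : 1 ≤ Real.exp (s * ((2 * j - n : ℝ) - D)) + Real.exp (s * (-(2 * j - n : ℝ) - D)) := by
        rcases le_abs.1 h2 with h4 | h4
        · have h5 : 1 ≤ Real.exp (s * ((2 * j - n : ℝ) - D)) :=
            Real.one_le_exp (mul_nonneg hs0 (by linarith only [h4]))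
          have h6 := Real.exp_pos (s * (-(2 * j - n : ℝ) - D))
          linarith only [h5, h6]
        · have h5 : 1 ≤ Real.exp (s * (-(2 * j - n : ℝ) - D)) :=
            Real.one_le_exp (mul_nonneg hs0 (by linarith only [h4]))
          have h6 := Real.exp_pos (s * ((2 * j - n : ℝ) - D))
          linarith only [h5, h6]
      nlinarith only [h3]
    · positivity
  have h2 := Finset.sum_le_sum h1
  rw [← Finset.mul_sum, Finset.sum_add_distrib, ← add_pow, ← add_pow] at h2
  have h3 : Real.exp s + Real.exp (-s) = 2 * Real.cosh s := by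
    rw [Real.cosh_eq]
    ring
  rw [add_comm (Real.exp (-s)), h3] at h2
  have h4 : (1 / 2 : ℝ) ^ n * (Real.exp (-(s * D)) * ((2 * Real.cosh s) ^ n + (2 * Real.cosh s) ^ n)) =
      2 * (Real.exp (-(s * D)) * Real.cosh s ^ n) := by
    rw [mul_pow]
    have : (1 / 2 : ℝ) ^ n * 2 ^ n = 1 := by
      rw [← mul_pow]
      norm_num
    linear_combination (2 * Real.exp (-(s * D)) * Real.cosh s ^ n) * this
  refine (mul_le_mul_of_nonneg_left h2 (by positivity)).trans ?_
  rw [h4]
  refine mul_le_mul_of_nonneg_left ?_ (by norm_num)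
  have h5 : Real.cosh s ^ n ≤ Real.exp (s ^ 2 / 2) ^ n :=
    pow_le_pow_left₀ (Real.cosh_pos s).le (Real.cosh_le_exp_half_sq s) n
  refine (mul_le_mul_of_nonneg_left h5 (Real.exp_pos _).le).trans ?_
  rw [← Real.exp_nat_mul, ← Real.exp_add]
  refine Real.exp_le_exp.2 (le_of_eq ?_)
  rcases Nat.eq_zero_or_pos n with h | h
  · subst h
    simp [hs]
  · have hn : (n : ℝ) ≠ 0 := by positivity
    rw [hs]
    field_simp
    ring

theorem cvb : CvbStmt := by
  intro d M _ T hsym hcon hT n x y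
  obtain ⟨U, lam, hU1, hU2, hpow⟩ := exists_diag_real (A := T) (by
    ext a b
    exact hsym b a)
  have hent : ∀ (k : ℕ) (a b : Tor d M), (T ^ k) a b = ∑ l, U a l * U b l * lam l ^ k := by
    intro k a b
    rw [hpow k, Matrix.mul_apply]
    refine Finset.sum_congr rfl fun l _ => ?_
    rw [Matrix.mul_diagonal, Matrix.transpose_apply]
    ring
  have hlam : ∀ l, |lam l| ≤ 1 := by
    intro l
    have h1 := hcon (fun a => U a l)
    have h2 : ∑ a, U a l ^ 2 = 1 := by
      have h3 := congrFun (congrFun hU1 l) l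
      rw [Matrix.mul_apply, Matrix.one_apply_eq] at h3
      rw [← h3]
      refine Finset.sum_congr rfl fun a _ => ?_
      rw [Matrix.transpose_apply, sq]
    have h4 : ∀ a, Matrix.mulVec T (fun a => U a l) a = U a l * lam l := by
      intro a
      have h5 : (T * U) a l = Matrix.mulVec T (fun a => U a l) a := by
        rw [Matrix.mul_apply]
        rfl
      rw [← h5]
      have h6 := hpow 1
      rw [pow_one] at h6
      rw [h6, mul_assoc, hU1, mul_one, Matrix.mul_diagonal, pow_one]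
    have h7 : ∑ a, (Matrix.mulVec T (fun a => U a l) a) ^ 2 = lam l ^ 2 := by
      rw [Finset.sum_congr rfl fun a _ => by rw [h4 a, mul_pow], ← Finset.sum_mul, h2, one_mul]
    rw [h7, h2] at h1
    exact (sq_le_one_iff_abs_le_one _).1 h1
  have hrow : ∀ a, ∑ l, U a l ^ 2 = 1 := by
    intro a
    have h3 := congrFun (congrFun hU2 a) a
    rw [Matrix.mul_apply, Matrix.one_apply_eq] at h3
    rw [← h3]
    refine Finset.sum_congr rfl fun l _ => ?_
    rw [Matrix.transpose_apply, sq]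
  -- the polynomials of `T`
  set R : ℤ → ℝ := fun m => ∑ l, U x l * U y l * (Polynomial.Chebyshev.T ℝ m).eval (lam l) with hR
  have hR1 : ∀ m, |R m| ≤ 1 := by
    intro m
    have h1 : |R m| ≤ ∑ l, (U x l ^ 2 + U y l ^ 2) / 2 := by
      refine (Finset.abs_sum_le_sum_abs _ _).trans (Finset.sum_le_sum fun l _ => ?_)
      have h2 : |(Polynomial.Chebyshev.T ℝ m).eval (lam l)| ≤ 1 := by
        have h3 := abs_le.1 (hlam l)
        rw [← Real.cos_arccos h3.1 h3.2, Polynomial.Chebyshev.T_real_cos]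
        exact Real.abs_cos_le_one _
      rw [abs_mul, abs_mul]
      have h4 : |U x l| * |U y l| * |(Polynomial.Chebyshev.T ℝ m).eval (lam l)| ≤
          |U x l| * |U y l| * 1 := mul_le_mul_of_nonneg_left h2 (by positivity)
      have h5 := sq_nonneg (|U x l| - |U y l|)
      have h6 := sq_abs (U x l)
      have h7 := sq_abs (U y l)
      nlinarith
    have h2 : ∑ l, (U x l ^ 2 + U y l ^ 2) / 2 = 1 := by
      rw [← Finset.sum_div, Finset.sum_add_distrib, hrow, hrow]
      norm_num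
    linarith
  have hR0 : ∀ m : ℤ, |m| < (tds x y : ℤ) → R m = 0 := by
    intro m hm
    have h1 : R m = ∑ k ∈ Finset.range ((Polynomial.Chebyshev.T ℝ m).natDegree + 1),
        (Polynomial.Chebyshev.T ℝ m).coeff k * (T ^ k) x y := by
      rw [hR]
      simp only
      simp_rw [Polynomial.eval_eq_sum_range, hent, Finset.mul_sum]
      rw [Finset.sum_comm]
      refine Finset.sum_congr rfl fun k _ => Finset.sum_congr rfl fun l _ => ?_
      ring
    rw [h1]
    refine Finset.sum_eq_zero fun k hk => ?_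
    rw [Polynomial.Chebyshev.natDegree_T] at hk
    have hk' := Finset.mem_range.1 hk
    by_cases h : (T ^ k) x y = 0
    · rw [h, mul_zero]
    · exfalso
      have h2 := pow_zero_of_lt hT k x y h
      have h3 : (m.natAbs : ℤ) = |m| := Int.natCast_natAbs m
      omega
  have hmain : (T ^ n) x y = (1 / 2) ^ n * ∑ j ∈ Finset.range (n + 1), (n.choose j : ℝ) *
      R (2 * j - n) := by
    rw [hent]
    have h1 : ∀ l, U x l * U y l * lam l ^ n = (1 / 2) ^ n * ∑ j ∈ Finset.range (n + 1),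
        (n.choose j : ℝ) * (U x l * U y l * (Polynomial.Chebyshev.T ℝ (2 * j - n)).eval (lam l)) := by
      intro l
      have h3 := abs_le.1 (hlam l)
      rw [pow_cheb n h3.1 h3.2, ← mul_assoc, mul_comm (U x l * U y l), mul_assoc, Finset.mul_sum]
      congr 1
      refine Finset.sum_congr rfl fun j _ => ?_
      ring
    rw [Finset.sum_congr rfl fun l _ => h1 l, ← Finset.mul_sum, Finset.sum_comm]
    congr 1
    refine Finset.sum_congr rfl fun j _ => ?_
    rw [← Finset.mul_sum]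
  rw [hmain, abs_mul, abs_of_nonneg (show (0 : ℝ) ≤ (1 / 2) ^ n by positivity)]
  refine le_trans ?_ (hoeff n (tds x y))
  refine mul_le_mul_of_nonneg_left ?_ (by positivity)
  refine (Finset.abs_sum_le_sum_abs _ _).trans (Finset.sum_le_sum fun j _ => ?_)
  rw [abs_mul, abs_of_nonneg (show (0 : ℝ) ≤ n.choose j from Nat.cast_nonneg _)]
  split_ifs with h
  · have := mul_le_mul_of_nonneg_left (hR1 (2 * j - n)) (show (0 : ℝ) ≤ n.choose j from
      Nat.cast_nonneg _)
    linarith only [this]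
  · rw [hR0 _ (not_le.1 h), abs_zero, mul_zero]

end Pool.Agent.LE.IR.H95
end
end -- Pool.Agent.Helper95_LIR.CVB

section -- Pool.Agent.Helper56_LIR.CLF3

/-!
# CLF, part 3: the tail of the local part
-/

set_option autoImplicit false

open MeasureTheory ProbabilityTheory Function Filter

open scoped ENNReal BigOperators Topology NNReal

noncomputable section

namespace Pool.Agent.LE.IR.H56

open Pool.Agent.Anderson hiding box mem_box card_box
open Pool.Agent.Loc hiding nb
open Pool.Agent.Mob Pool.Agent.Helper54.Bal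
  Pool.Agent.Helper96.EXP Pool.Agent.BED Pool.Agent.BED.H32
open Pool.Agent.LE.MN Pool.Agent.LE.CL

variable {d M : ℕ} [NeZero M]

theorem T0_bd (cvb : CvbStmt) (hd : 1 ≤ d) {z μ ε : ℝ} {V : Tor d M → ℝ} (hz : z ≤ 2 * d + 1)
    (hF : FlatE ε z μ V) {n j : ℕ} (hn : 1 ≤ n) (hj : j ≤ n) (x y : Tor d M) :
    |(TM z V ^ j) x y| ≤ 2 * Real.exp (-((tds x y : ℝ) ^ 2 / (2 * n))) := by
  obtain ⟨hV, hA, hD⟩ := hF
  rcases Nat.eq_zero_or_pos j with rfl | hj0
  · rw [pow_zero]
    by_cases h : x = y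
    · subst h
      rw [H76.tds_self]
      simp
    · rw [Matrix.one_apply_ne h, abs_zero]
      positivity
  · have hcontr : ∀ f : Tor d M → ℝ, ∑ x, (Matrix.mulVec (TM z V) f x) ^ 2 ≤ ∑ x, f x ^ 2 :=
      fun f => (TM_sq_le hd hz hV hA f).trans (TM_form_le hd hA f)
    refine (cvb d M (TM z V) (TM_symm z V) hcontr (H76.TM_supp z V) j x y).trans ?_
    have hj1 : (0 : ℝ) < j := by exact_mod_cast hj0
    have hjn : (j : ℝ) ≤ n := by exact_mod_cast hj
    have h4 : (tds x y : ℝ) ^ 2 / (2 * n) ≤ (tds x y : ℝ) ^ 2 / (2 * j) := by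
      apply div_le_div_of_nonneg_left (by positivity) (by positivity)
      linarith only [hjn]
    have h5 : Real.exp (-((tds x y : ℝ) ^ 2 / (2 * j))) ≤
        Real.exp (-((tds x y : ℝ) ^ 2 / (2 * n))) := by
      apply Real.exp_le_exp.2
      linarith only [h4]
    linarith only [h5]

theorem TM_pow_lam (hd : 1 ≤ d) (z lam : ℝ) (V : Tor d M → ℝ) (n : ℕ) (x y : Tor d M) :
    (TM (z - lam) V ^ n) x y = ∑ j ∈ Finset.range (n + 1),
      ((n.choose j : ℝ) * (lam / (8 * d)) ^ (n - j)) * (TM z V ^ j) x y := by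
  obtain ⟨l, hl⟩ : ∃ l : ℝ, l = lam / (8 * d) := ⟨_, rfl⟩
  rw [H76.TM_lam hd, ← hl]
  have hc : Commute (TM z V) (l • (1 : Matrix (Tor d M) (Tor d M) ℝ)) :=
    (Commute.one_right _).smul_right l
  rw [hc.add_pow, Matrix.sum_apply]
  refine Finset.sum_congr rfl fun j _ => ?_
  rw [smul_pow, one_pow]
  have e1 : TM z V ^ j * l ^ (n - j) • (1 : Matrix (Tor d M) (Tor d M) ℝ) *
      ((n.choose j : ℕ) : Matrix (Tor d M) (Tor d M) ℝ) =
      ((n.choose j : ℝ) * l ^ (n - j)) • (TM z V ^ j) := by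
    rw [Matrix.mul_smul, Matrix.mul_one, ← nsmul_eq_mul', smul_comm, ← Nat.cast_smul_eq_nsmul ℝ,
      smul_smul, mul_comm]
  rw [e1, Matrix.smul_apply, smul_eq_mul]

theorem T_bd (cvb : CvbStmt) (hd : 1 ≤ d) {z μ ε lam : ℝ} {V : Tor d M → ℝ} (hz : z ≤ 2 * d + 1)
    (hF : FlatE ε z μ V) {n j : ℕ} (hn : 1 ≤ n) (hj : j ≤ n) (hlam : 0 ≤ lam)
    (hnl : n * lam ≤ 1) (x y : Tor d M) :
    |(TM (z - lam) V ^ j) x y| ≤ 6 * Real.exp (-((tds x y : ℝ) ^ 2 / (2 * n))) := by
  have hd1 : (1 : ℝ) ≤ d := by exact_mod_cast hd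
  obtain ⟨e, he⟩ : ∃ e : ℝ, e = Real.exp (-((tds x y : ℝ) ^ 2 / (2 * n))) := ⟨_, rfl⟩
  have he0 : 0 ≤ e := by rw [he]; exact (Real.exp_pos _).le
  have hB : ∀ i ≤ j, |(TM z V ^ i) x y| ≤ 2 * e := by
    intro i hi
    rw [he]
    exact T0_bd cvb hd hz hF hn (hi.trans hj) x y
  rw [← he, TM_pow_lam hd]
  obtain ⟨l, hl⟩ : ∃ l : ℝ, l = lam / (8 * d) := ⟨_, rfl⟩
  rw [← hl]
  have hl0 : 0 ≤ l := by rw [hl]; positivity
  have h1 : |∑ i ∈ Finset.range (j + 1), ((j.choose i : ℝ) * l ^ (j - i)) * (TM z V ^ i) x y| ≤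
      ∑ i ∈ Finset.range (j + 1), ((j.choose i : ℝ) * l ^ (j - i)) * (2 * e) := by
    refine (Finset.abs_sum_le_sum_abs _ _).trans (Finset.sum_le_sum fun i hi => ?_)
    rw [abs_mul, abs_of_nonneg (by positivity : 0 ≤ (j.choose i : ℝ) * l ^ (j - i))]
    exact mul_le_mul_of_nonneg_left (hB i (Nat.lt_succ_iff.1 (Finset.mem_range.1 hi)))
      (by positivity)
  refine h1.trans ?_
  rw [← Finset.sum_mul]
  have h3 : ∑ i ∈ Finset.range (j + 1), ((j.choose i : ℝ) * l ^ (j - i)) = (1 + l) ^ j := by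
    rw [add_pow]
    refine Finset.sum_congr rfl fun i _ => ?_
    rw [one_pow]
    ring
  have h4 : (1 + l) ^ j ≤ 3 := by
    have h5 : 1 + l ≤ Real.exp l := by
      rw [add_comm]
      exact Real.add_one_le_exp l
    have h6 : (1 + l) ^ j ≤ Real.exp l ^ j := pow_le_pow_left₀ (by linarith only [hl0]) h5 j
    rw [← Real.exp_nat_mul] at h6
    have h7 : j * l ≤ 1 := by
      have h8 : l ≤ lam := by
        rw [hl]
        exact div_le_self hlam (by linarith only [hd1])
      have hjn : (j : ℝ) ≤ n := by exact_mod_cast hj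
      calc (j : ℝ) * l ≤ n * lam := mul_le_mul hjn h8 hl0 (Nat.cast_nonneg n)
        _ ≤ 1 := hnl
    have h13 : Real.exp (j * l) ≤ Real.exp 1 := Real.exp_le_exp.2 h7
    have h14 := Real.exp_one_lt_d9
    linarith only [h6, h13, h14]
  rw [h3]
  calc (1 + l) ^ j * (2 * e) ≤ 3 * (2 * e) := mul_le_mul_of_nonneg_right h4 (by positivity)
    _ = 6 * e := by ring

theorem sfn_bd (cvb : CvbStmt) (hd : 1 ≤ d) {z μ ε lam : ℝ} {V : Tor d M → ℝ}
    (hz : z ≤ 2 * d + 1) (hμ : 0 < μ) (hε : ε ≤ 1 / 50) (hF : FlatE ε z μ V) {n : ℕ} (hn : 1 ≤ n)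
    (hlam : 0 ≤ lam) (hnl : n * lam ≤ 1) (x y : Tor d M) :
    ‖sfn z μ lam V n x y‖ ≤ 2 * n * Real.exp (-((tds x y : ℝ) ^ 2 / (2 * n))) := by
  have hd1 : (1 : ℝ) ≤ d := by exact_mod_cast hd
  obtain ⟨e, he⟩ : ∃ e : ℝ, e = Real.exp (-((tds x y : ℝ) ^ 2 / (2 * n))) := ⟨_, rfl⟩
  have he0 : 0 ≤ e := by rw [he]; exact (Real.exp_pos _).le
  have hom := om_near hμ hF y
  have hom1 : 1 / 2 ≤ om z μ V y := by
    have := (abs_le.1 hom).1
    linarith
  have h1 : |∑ j ∈ Finset.range n, (TM (z - lam) V ^ j) x y| ≤ n * (6 * e) := by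
    refine (Finset.abs_sum_le_sum_abs _ _).trans ?_
    refine (Finset.sum_le_card_nsmul _ _ (6 * e) fun j hj => ?_).trans (le_of_eq ?_)
    · rw [he]
      exact T_bd cvb hd hz hF hn (Finset.mem_range.1 hj).le hlam hnl x y
    · rw [Finset.card_range, nsmul_eq_mul]
  unfold sfn
  rw [← he, Complex.norm_real, Real.norm_eq_abs, abs_div, abs_div,
    abs_of_pos (by linarith : 0 < om z μ V y), abs_of_pos (by positivity : (0 : ℝ) < 8 * d),
    div_le_iff₀ (by linarith), div_le_iff₀ (by positivity)]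
  refine h1.trans ?_
  have h2 : (0 : ℝ) ≤ 2 * n * e := by positivity
  calc (n : ℝ) * (6 * e) = (2 * n * e) * (1 / 2) * 6 := by ring
    _ ≤ (2 * n * e) * om z μ V y * (8 * d) := by
      refine mul_le_mul (mul_le_mul_of_nonneg_left hom1 h2) (by linarith only [hd1]) (by norm_num) ?_
      exact mul_nonneg h2 (by linarith)

theorem sfn_supp {z μ lam : ℝ} {V : Tor d M → ℝ} {n : ℕ} {x y : Tor d M} (h : n ≤ tds x y) :
    sfn z μ lam V n x y = 0 := by
  unfold sfn
  have h1 : ∑ j ∈ Finset.range n, (TM (z - lam) V ^ j) x y = 0 := by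
    refine Finset.sum_eq_zero fun j hj => ?_
    by_contra hne
    have h2 := H95.pow_zero_of_lt (H76.TM_supp (z - lam) V) j x y hne
    have h3 := Finset.mem_range.1 hj
    omega
  rw [h1, zero_div, zero_div, Complex.ofReal_zero]

theorem aop_norm {ω : Tor d M → ℝ} {h lam Q : ℝ} (hω1 : ∀ y, 0 < ω y) (hω2 : ∀ y, ω y ≤ 2)
    (hh : 0 ≤ h) (hh1 : h ≤ 1) (hl : 0 ≤ lam) (hl1 : lam ≤ 1) {f : Tor d M → ℂ}
    (hf : ∀ y, ‖f y‖ ≤ Q) (y : Tor d M) : ‖aop ω h lam f y‖ ≤ (16 * d + 6) * Q := by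
  have hQ : 0 ≤ Q := (norm_nonneg _).trans (hf y)
  have key : ∀ w : Tor d M, ‖((ω y * ω w : ℝ) : ℂ) * (f y - f w)‖ ≤ 8 * Q := by
    intro w
    rw [norm_mul, Complex.norm_real, Real.norm_eq_abs,
      abs_of_pos (mul_pos (hω1 y) (hω1 w))]
    have h1 : ω y * ω w ≤ 2 * 2 := mul_le_mul (hω2 y) (hω2 w) (hω1 w).le (by norm_num)
    have h2 : ‖f y - f w‖ ≤ 2 * Q := by
      have := norm_sub_le (f y) (f w)
      have a1 := hf y
      have a2 := hf w
      linarith
    calc ω y * ω w * ‖f y - f w‖ ≤ (2 * 2) * (2 * Q) :=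
          mul_le_mul h1 h2 (norm_nonneg _) (by norm_num)
      _ = 8 * Q := by ring
  have hlast : ‖((h * ω y - lam * ω y ^ 2 : ℝ) : ℂ) * f y‖ ≤ 6 * Q := by
    rw [norm_mul, Complex.norm_real, Real.norm_eq_abs]
    have h1 : |h * ω y - lam * ω y ^ 2| ≤ 6 := by
      have a1 : 0 ≤ h * ω y := mul_nonneg hh (hω1 y).le
      have a2 : h * ω y ≤ 1 * 2 := mul_le_mul hh1 (hω2 y) (hω1 y).le zero_le_one
      have a3 : ω y ^ 2 ≤ 2 ^ 2 := pow_le_pow_left₀ (hω1 y).le (hω2 y) 2
      have a4 : 0 ≤ lam * ω y ^ 2 := by positivity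
      have a5 : lam * ω y ^ 2 ≤ 1 * 2 ^ 2 := mul_le_mul hl1 a3 (by positivity) zero_le_one
      rw [abs_le]
      constructor <;> linarith
    exact mul_le_mul h1 (hf y) (norm_nonneg _) (by norm_num)
  unfold aop
  refine (norm_add_le _ _).trans ?_
  have hsum : ‖∑ i : Fin d, (((ω y * ω (y + ev i) : ℝ) : ℂ) * (f y - f (y + ev i)) +
      ((ω y * ω (y - ev i) : ℝ) : ℂ) * (f y - f (y - ev i)))‖ ≤ d * (16 * Q) := by
    refine (norm_sum_le _ _).trans ?_
    refine (Finset.sum_le_card_nsmul _ _ (16 * Q) fun i _ => ?_).trans (le_of_eq ?_)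
    · refine (norm_add_le _ _).trans ?_
      have a1 := key (y + ev i)
      have a2 := key (y - ev i)
      linarith
    · rw [Finset.card_univ, Fintype.card_fin, nsmul_eq_mul]
  calc _ ≤ d * (16 * Q) + 6 * Q := add_le_add hsum hlast
    _ = (16 * d + 6) * Q := by ring

theorem card_tds (x : Tor d M) (n : ℕ) :
    (Finset.univ.filter fun y : Tor d M => tds x y ≤ n).card ≤ (2 * n + 1) ^ d := by
  classical
  have h1 : (Finset.univ.filter fun y : Tor d M => tds x y ≤ n).card ≤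
      (Fintype.piFinset fun _ : Fin d => Finset.Icc (-(n : ℤ)) n).card := by
    refine Finset.card_le_card_of_injOn (fun y i => (y i - x i).valMinAbs) ?_ ?_
    · intro y hy
      have hy' : tds x y ≤ n := (Finset.mem_filter.1 (Finset.mem_coe.1 hy)).2
      rw [Finset.mem_coe, Fintype.mem_piFinset]
      intro i
      have h2 : (y i - x i).valMinAbs.natAbs ≤ n :=
        (Finset.le_sup (f := fun i => (y i - x i).valMinAbs.natAbs) (Finset.mem_univ i)).trans hy'
      rw [Finset.mem_Icc]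
      show -(n : ℤ) ≤ (y i - x i).valMinAbs ∧ (y i - x i).valMinAbs ≤ n
      omega
    · intro y _ y' _ h
      funext i
      have h2 := congrFun h i
      have h3 : y i - x i = y' i - x i := ZMod.injective_valMinAbs h2
      exact sub_left_inj.1 h3
  refine h1.trans (le_of_eq ?_)
  rw [Fintype.card_piFinset_const, Int.card_Icc]
  congr 1
  omega

theorem aop_tail {ω : Tor d M → ℝ} {h lam Q : ℝ} (hω1 : ∀ y, 0 < ω y) (hω2 : ∀ y, ω y ≤ 2)
    (hh : 0 ≤ h) (hh1 : h ≤ 1) (hl : 0 ≤ lam) (hl1 : lam ≤ 1) {f : Tor d M → ℂ}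
    (hf : ∀ y, ‖f y‖ ≤ Q) {x : Tor d M} {n : ℕ} (hsupp : ∀ y, n ≤ tds x y → f y = 0) :
    ∑ y, ‖aop ω h lam f y‖ ^ 2 ≤ (2 * (n : ℝ) + 1) ^ d * ((16 * d + 6) * Q) ^ 2 := by
  classical
  have h0 : ∀ y, n < tds x y → aop ω h lam f y = 0 := by
    intro y hy
    have h1 : ∀ w, tds w y ≤ 1 → f w = 0 := by
      intro w hw
      refine hsupp w ?_
      have := H95.tds_tri x y w
      omega
    have h2 : f y = 0 := hsupp y hy.le
    have h3 : ∀ i : Fin d, f (y + ev i) = 0 ∧ f (y - ev i) = 0 := by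
      intro i
      constructor
      · refine h1 _ ?_
        have := (H76.tds_ev (y + ev i) i).2
        rwa [add_sub_cancel_right] at this
      · refine h1 _ ?_
        have := (H76.tds_ev (y - ev i) i).1
        rwa [sub_add_cancel] at this
    unfold aop
    rw [h2, mul_zero, add_zero]
    refine Finset.sum_eq_zero fun i _ => ?_
    rw [(h3 i).1, (h3 i).2, sub_zero, mul_zero, mul_zero, add_zero]
  rw [← Finset.sum_filter_of_ne (p := fun y => tds x y ≤ n)]
  · refine (Finset.sum_le_card_nsmul _ _ (((16 * d + 6) * Q) ^ 2) fun y _ => ?_).trans ?_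
    · exact pow_le_pow_left₀ (norm_nonneg _) (aop_norm hω1 hω2 hh hh1 hl hl1 hf y) 2
    · rw [nsmul_eq_mul]
      refine mul_le_mul_of_nonneg_right ?_ (sq_nonneg _)
      exact_mod_cast card_tds x n
  · intro y _ hy
    by_contra hcon
    apply hy
    rw [h0 y (not_le.1 hcon), norm_zero, zero_pow two_ne_zero]

/-- the local part, cut at the distance `r₀` -/
def scf (z μ lam : ℝ) (V : Tor d M → ℝ) (n r₀ : ℕ) (x y : Tor d M) : ℂ :=
  if tds x y ≤ r₀ then sfn z μ lam V n x y else 0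

theorem scf_tail (cvb : CvbStmt) (hd : 1 ≤ d) {z μ ε lam : ℝ} {V : Tor d M → ℝ}
    (hz : z ≤ 2 * d + 1) (hμ : 1 ≤ μ) (hε0 : 0 < ε) (hε : ε ≤ 1 / 50) (hF : FlatE ε z μ V) {n r₀ : ℕ}
    (hn : 1 ≤ n) (hlam : 0 ≤ lam) (hnl : n * lam ≤ 1) (x : Tor d M) :
    ∑ y, ‖aop (om z μ V) (1 / μ) lam
      (fun u => sfn z μ lam V n x u - scf z μ lam V n r₀ x u) y‖ ^ 2 ≤
      (2 * (n : ℝ) + 1) ^ d * ((16 * d + 6) * (2 * n * Real.exp (-((r₀ : ℝ) ^ 2 / (2 * n))))) ^ 2 := by
  have hμ0 : 0 < μ := by linarith only [hμ, hε0, hε]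
  have hn1 : (1 : ℝ) ≤ n := by exact_mod_cast hn
  have hω1 : ∀ y, 0 < om z μ V y := by
    intro y
    have h1 := (abs_le.1 (om_near hμ0 hF y)).1
    linarith
  have hω2 : ∀ y, om z μ V y ≤ 2 := by
    intro y
    have h1 := (abs_le.1 (om_near hμ0 hF y)).2
    linarith
  have hlam1 : lam ≤ 1 := (le_mul_of_one_le_left hlam hn1).trans hnl
  refine aop_tail hω1 hω2 (by positivity) ?_ hlam hlam1 ?_ (x := x) ?_
  · rw [div_le_one hμ0]
    exact hμ
  · intro y
    unfold scf
    split_ifs with h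
    · rw [sub_self, norm_zero]
      positivity
    · rw [sub_zero]
      refine (sfn_bd cvb hd hz hμ0 hε hF hn hlam hnl x y).trans ?_
      have h1 : (r₀ : ℝ) ≤ tds x y := by exact_mod_cast (not_le.1 h).le
      have h2 : (r₀ : ℝ) ^ 2 ≤ (tds x y : ℝ) ^ 2 := pow_le_pow_left₀ (Nat.cast_nonneg _) h1 2
      have h3 : (r₀ : ℝ) ^ 2 / (2 * n) ≤ (tds x y : ℝ) ^ 2 / (2 * n) :=
        div_le_div_of_nonneg_right h2 (by positivity)
      exact mul_le_mul_of_nonneg_left (Real.exp_le_exp.2 (by linarith only [h3])) (by positivity)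
  · intro y hy
    unfold scf
    rw [sfn_supp hy, ite_self, sub_zero]

end Pool.Agent.LE.IR.H56
end
end -- Pool.Agent.Helper56_LIR.CLF3
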