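import Pool.Agent.Helper12_MEB.B121

/-!
# Merged copies (generated) of the modules

* `Pool.Agent.Helper56_LIR.CLF1`
* `Pool.Agent.Helper56_LIR.CLF2`
* `Pool.Agent.Helper56_LIR.CLF4`
* `Pool.Agent.Helper56_LIR.CLF`
-/

set_option autoImplicit false

section -- Pool.Agent.Helper56_LIR.CLF1

/-!
# CLF, part 1: the growing sets
-/

set_option autoImplicit false

open MeasureTheory ProbabilityTheory Function Filter

open scoped ENNReal BigOperators Topology NNReal

noncomputable section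

namespace Pool.Agent.LE.IR.H56

open Pool.Agent.Anderson hiding box mem_box card_box
open Pool.Agent.Loc hiding nb
open Pool.Agent.Mob Pool.Agent.Helper54.Bal
  Pool.Agent.Helper96.EXP Pool.Agent.BED
open Pool.Agent.LE.MN Pool.Agent.LE.CL Pool.Agent.LE.CL.H48

variable {d : ℕ} {V : Site d → ℝ} {Λ : Finset (Site d)} {E s : ℝ} {b : Site d} {R₁ r₀ R J : ℕ}

theorem natAbs_le_sd (x y : Site d) (i : Fin d) : (x i - y i).natAbs ≤ sd x y :=
  Finset.le_sup (f := fun i => (x i - y i).natAbs) (Finset.mem_univ i)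

theorem sd_le_of {x y : Site d} {r : ℕ} (h : ∀ i, (x i - y i).natAbs ≤ r) : sd x y ≤ r :=
  Finset.sup_le fun i _ => h i

/-- steps to neighbours are links -/
theorem path (hnb : ∀ x ∈ box b R, ∀ i : Fin d,
    Real.exp (-s) ≤ |gr V Λ E x (x + Pi.single i 1)| ∧
      Real.exp (-s) ≤ |gr V Λ E x (x - Pi.single i 1)|) (n : ℕ) :
    ∀ (k : ℕ) (x y : Site d), x ∈ rch V Λ E s b R k → x ∈ box b R → y ∈ box b R →
      ∑ i, (x i - y i).natAbs ≤ n → y ∈ rch V Λ E s b R (k + n) := by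
  induction n with
  | zero =>
    intro k x y hx _ _ hs
    have h1 : x = y := by
      funext i
      have h2 : (x i - y i).natAbs = 0 := by
        have := Finset.sum_eq_zero_iff.1 (Nat.le_zero.1 hs) i (Finset.mem_univ i)
        exact this
      omega
    rw [← h1]
    exact hx
  | succ n ih =>
    intro k x y hx hxb hyb hs
    by_cases hxy : x = y
    · rw [← hxy]
      exact rch_mono (Nat.le_add_right _ _) hx
    obtain ⟨i, hi⟩ : ∃ i, x i ≠ y i := Function.ne_iff.1 hxy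
    have hx1 : ∀ j, (b j - x j).natAbs ≤ R := fun j =>
      (natAbs_le_sd b x j).trans (mem_box.1 hxb)
    have hy1 : ∀ j, (b j - y j).natAbs ≤ R := fun j =>
      (natAbs_le_sd b y j).trans (mem_box.1 hyb)
    have key : ∀ x' : Site d, (∀ j, j ≠ i → x' j = x j) → (x' i - y i).natAbs < (x i - y i).natAbs →
        (b i - x' i).natAbs ≤ R → Real.exp (-s) ≤ |gr V Λ E x x'| →
        y ∈ rch V Λ E s b R (k + (n + 1)) := by
      intro x' h1 h2 h3 h4
      have h5 : x' ∈ box b R := by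
        rw [mem_box]
        refine sd_le_of fun j => ?_
        by_cases hj : j = i
        · rw [hj]
          exact h3
        · rw [h1 j hj]
          exact hx1 j
      have h6 : x' ∈ rch V Λ E s b R (k + 1) := by
        rw [rch_succ, mem_clu]
        exact Or.inr ⟨h5, x, hx, h4⟩
      have h7 : ∑ j, (x' j - y j).natAbs < ∑ j, (x j - y j).natAbs := by
        refine Finset.sum_lt_sum (fun j _ => ?_) ⟨i, Finset.mem_univ i, h2⟩
        by_cases hj : j = i
        · rw [hj]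
          exact h2.le
        · rw [h1 j hj]
      have h8 := ih (k + 1) x' y h6 h5 hyb (by omega)
      have h9 : k + 1 + n = k + (n + 1) := by ring
      rwa [h9] at h8
    obtain ⟨h1, h2⟩ := hnb x hxb i
    rcases lt_or_gt_of_ne hi with hlt | hlt
    · have hxi : (x + Pi.single i 1 : Site d) i = x i + 1 := by
        rw [Pi.add_apply, Pi.single_eq_same]
      refine key (x + Pi.single i 1) (fun j hj => ?_) ?_ ?_ h1
      · rw [Pi.add_apply, Pi.single_eq_of_ne hj, add_zero]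
      · rw [hxi]
        omega
      · rw [hxi]
        have a1 := hx1 i
        have a2 := hy1 i
        omega
    · have hxi : (x - Pi.single i 1 : Site d) i = x i - 1 := by
        rw [Pi.sub_apply, Pi.single_eq_same]
      refine key (x - Pi.single i 1) (fun j hj => ?_) ?_ ?_ h2
      · rw [Pi.sub_apply, Pi.single_eq_of_ne hj, sub_zero]
      · rw [hxi]
        omega
      · rw [hxi]
        have a1 := hx1 i
        have a2 := hy1 i
        omega

theorem sum_le_sd (x y : Site d) : ∑ i, (x i - y i).natAbs ≤ d * sd x y := by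
  refine (Finset.sum_le_card_nsmul _ _ _ fun i _ => natAbs_le_sd x y i).trans ?_
  rw [Finset.card_univ, Fintype.card_fin, smul_eq_mul]

/-- the growing sets -/
def Sf (V : Site d → ℝ) (Λ : Finset (Site d)) (E s : ℝ) (b : Site d) (R₁ r₀ : ℕ) :
    ℕ → Finset (Site d)
  | 0 => {b}
  | j + 1 => by
    classical
    exact clu V Λ E s (Sf V Λ E s b R₁ r₀ j) (box b (j * R₁ + R₁)) ∪
      (box b (j * R₁ + R₁)).filter fun y => ∃ x ∈ Sf V Λ E s b R₁ r₀ j, sd x y ≤ r₀

theorem mem_Sf_succ {j : ℕ} {y : Site d} : y ∈ Sf V Λ E s b R₁ r₀ (j + 1) ↔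
    y ∈ clu V Λ E s (Sf V Λ E s b R₁ r₀ j) (box b (j * R₁ + R₁)) ∨
      (y ∈ box b (j * R₁ + R₁) ∧ ∃ x ∈ Sf V Λ E s b R₁ r₀ j, sd x y ≤ r₀) := by
  classical
  rw [Sf, Finset.mem_union, Finset.mem_filter]

theorem Sf_box (j : ℕ) : Sf V Λ E s b R₁ r₀ j ⊆ box b (j * R₁) := by
  induction j with
  | zero =>
    intro y hy
    rw [Sf, Finset.mem_singleton] at hy
    rw [hy, mem_box, sd_self]
    exact Nat.zero_le _
  | succ j ih =>
    intro y hy
    rw [mem_Sf_succ] at hy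
    rw [Nat.succ_mul]
    rcases hy with hy | hy
    · rw [mem_clu] at hy
      rcases hy with hy | hy
      · exact box_mono b (Nat.le_add_right _ _) (ih hy)
      · exact hy.1
    · exact hy.1

theorem Sf_sub (j : ℕ) : Sf V Λ E s b R₁ r₀ j ⊆ Sf V Λ E s b R₁ r₀ (j + 1) := by
  intro y hy
  rw [mem_Sf_succ, mem_clu]
  exact Or.inl (Or.inl hy)

theorem Sf_self (j : ℕ) : b ∈ Sf V Λ E s b R₁ r₀ j := by
  induction j with
  | zero => rw [Sf, Finset.mem_singleton]
  | succ j ih => exact Sf_sub j ih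

theorem Sf_rch (hnb : ∀ x ∈ box b R, ∀ i : Fin d,
    Real.exp (-s) ≤ |gr V Λ E x (x + Pi.single i 1)| ∧
      Real.exp (-s) ≤ |gr V Λ E x (x - Pi.single i 1)|) (j : ℕ) (h : j * R₁ ≤ R) :
    Sf V Λ E s b R₁ r₀ j ⊆ rch V Λ E s b R (j * (d * r₀ + 1)) := by
  induction j with
  | zero =>
    intro y hy
    rw [Sf] at hy
    rw [Nat.zero_mul, rch_zero]
    exact hy
  | succ j ih =>
    rw [Nat.succ_mul] at h
    have ih' := ih (by omega)
    intro y hy
    rw [mem_Sf_succ] at hy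
    rw [Nat.succ_mul]
    rcases hy with hy | ⟨hyb, x, hx, hxy⟩
    · have h1 : y ∈ rch V Λ E s b R (j * (d * r₀ + 1) + 1) := by
        rw [rch_succ]
        exact clu_mono ih' (box_mono b h) hy
      exact rch_mono (by omega) h1
    · have h1 := path hnb (d * r₀) (j * (d * r₀ + 1)) x y (ih' hx)
        (box_mono b (by omega) (Sf_box j hx)) (box_mono b h hyb)
        ((sum_le_sd x y).trans (Nat.mul_le_mul_left d hxy))
      exact rch_mono (by omega) h1

theorem pigeonf (hJ : (2 * R + 1) ^ d < 2 ^ J) (hR : J * R₁ ≤ R) :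
    ∃ j < J, (Sf V Λ E s b R₁ r₀ (j + 1)).card ≤ 2 * (Sf V Λ E s b R₁ r₀ j).card := by
  by_contra hcon
  push Not at hcon
  have h1 : ∀ j ≤ J, 2 ^ j ≤ (Sf V Λ E s b R₁ r₀ j).card := by
    intro j
    induction j with
    | zero =>
      intro _
      rw [Sf, Finset.card_singleton, pow_zero]
    | succ j ih =>
      intro hj
      have h2 := hcon j (by omega)
      have h3 := ih (by omega)
      rw [pow_succ]
      omega
  have h2 := h1 J le_rfl
  have h3 : (Sf V Λ E s b R₁ r₀ J).card ≤ (box b R).card :=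
    Finset.card_le_card fun y hy => box_mono b hR (Sf_box J hy)
  rw [card_box] at h3
  omega

/-! ### the distance on the torus -/

variable {M : ℕ} [NeZero M]

theorem sd_of_tds {x y : Tor d M} (hx : sd b (lf b x) ≤ R) (hxy : tds x y ≤ r₀)
    (hM : 2 * (R + r₀) + 5 ≤ M) : sd (lf b x) (lf b y) ≤ r₀ := by
  obtain ⟨w, hw⟩ : ∃ w : Site d, w = fun i => lf b x i + (y i - x i).valMinAbs := ⟨_, rfl⟩
  have hdel : ∀ i, (y i - x i).valMinAbs.natAbs ≤ r₀ := fun i =>
    (Finset.le_sup (f := fun i => (y i - x i).valMinAbs.natAbs) (Finset.mem_univ i)).trans hxy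
  have h1 : ti M b w = y := by
    funext i
    change (((w i - b i : ℤ)) : ZMod M) = y i
    rw [hw]
    change (((b i + rep x i + (y i - x i).valMinAbs - b i : ℤ)) : ZMod M) = y i
    have h2 : b i + rep x i + (y i - x i).valMinAbs - b i = rep x i + (y i - x i).valMinAbs := by
      ring
    rw [h2, Int.cast_add, ZMod.coe_valMinAbs]
    have h3 : ((rep x i : ℤ) : ZMod M) = x i := ZMod.coe_valMinAbs _
    rw [h3]
    ring
  have h2 : sd (lf b x) w ≤ r₀ := by
    refine sd_le_of fun i => ?_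
    rw [hw]
    change (lf b x i - (lf b x i + (y i - x i).valMinAbs)).natAbs ≤ r₀
    have h3 : lf b x i - (lf b x i + (y i - x i).valMinAbs) = -(y i - x i).valMinAbs := by ring
    rw [h3, Int.natAbs_neg]
    exact hdel i
  have h3 : sd b w ≤ R + r₀ + 2 := by
    have := sd_triangle b (lf b x) w
    omega
  have h4 := lf_ti (M := M) (R := R + r₀) (b := b) hM h3
  rw [h1] at h4
  rw [h4]
  exact h2

end Pool.Agent.LE.IR.H56
end
end -- Pool.Agent.Helper56_LIR.CLF1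

section -- Pool.Agent.Helper56_LIR.CLF2

/-!
# CLF, part 2: the errors on the torus
-/

set_option autoImplicit false

open MeasureTheory ProbabilityTheory Function Filter

open scoped ENNReal BigOperators Topology NNReal

noncomputable section

namespace Pool.Agent.LE.IR.H56

open Pool.Agent.Anderson hiding box mem_box card_box
open Pool.Agent.Loc hiding nb
open Pool.Agent.Mob Pool.Agent.Helper54.Bal
  Pool.Agent.Helper96.EXP Pool.Agent.BED
open Pool.Agent.LE.MN Pool.Agent.LE.CL Pool.Agent.LE.CL.H48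

variable {d M : ℕ}

variable {V : Site d → ℝ} {Λ : Finset (Site d)} {E κ : ℝ} {b : Site d} {r₀ m : ℕ}
  {C C' : Finset (Site d)}

/-- the error of the truncation is small -/
theorem er_lef {s a K : ℝ} (hκ : 0 ≤ κ) (hdet : (RM V Λ E).det ≠ 0)
    (hΛ : box b (r₀ + m + 1) ⊆ Λ) (hC : C ⊆ box b r₀) (hm : 1 ≤ m) (hK0 : 0 ≤ K)
    (hC'1 : clu V Λ E s C (box b (r₀ + m)) ⊆ C') (hC'b : C' ⊆ box b (r₀ + m))
    (hV : ∀ x ∈ box b (r₀ + m + 1), |V x - E| ≤ K)
    (hG : ∀ x ∈ box b (r₀ + m), ∀ y ∈ box b (r₀ + m), |gr V Λ E x y| ≤ Real.exp a)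
    {x y : Site d} (hx : x ∈ C) (hy : y ∈ box b (r₀ + m + 1)) :
    |er V Λ E κ b r₀ C' x y| ≤ (2 * d + K) * (Real.exp (-s) + Real.exp (a - κ * m)) := by
  have hxb : sd b x ≤ r₀ := mem_box.1 (hC hx)
  have hxb' : x ∈ box b (r₀ + m) := box_mono b (Nat.le_add_right _ _) (hC hx)
  have hyV := hV y hy
  have hd : (0 : ℝ) ≤ d := Nat.cast_nonneg d
  rcases Nat.lt_or_ge (sd b y) (r₀ + m) with h | h
  · -- inside
    have hout : ∀ z : Site d, sd b z ≤ r₀ + m →
        |gr V Λ E x z - tg V Λ E C' x z| ≤ Real.exp (-s) := by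
      intro z hz
      unfold tg
      split_ifs with h1
      · rw [sub_self, abs_zero]
        exact (Real.exp_pos _).le
      · rw [sub_zero]
        by_contra hcon
        rw [not_le] at hcon
        apply h1
        apply hC'1
        rw [mem_clu]
        exact Or.inr ⟨mem_box.2 hz, x, hx, hcon.le⟩
    have hgr := green_gen hdet (hΛ (box_mono b (Nat.le_succ _) hxb')) (hΛ hy)
    have h2 : nb (tg V Λ E C' x) y = nb (gr V Λ E x) y -
        nb (fun z => gr V Λ E x z - tg V Λ E C' x z) y := by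
      unfold nb
      rw [← Finset.sum_sub_distrib]
      refine Finset.sum_congr rfl fun i _ => ?_
      ring
    have h3 : er V Λ E κ b r₀ C' x y = -(wt κ b r₀ y *
        (nb (fun z => gr V Λ E x z - tg V Λ E C' x z) y +
          (V y - E) * (gr V Λ E x y - tg V Λ E C' x y))) := by
      unfold er
      rw [h2]
      have h4 : wt κ b r₀ y * (if y = x then (1 : ℝ) else 0) = if y = x then 1 else 0 := by
        split_ifs with h5
        · rw [h5, wt_eq_one hxb, mul_one]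
        · rw [mul_zero]
      have h5 : nb (gr V Λ E x) y = -(if y = x then 1 else 0) - (V y - E) * gr V Λ E x y := by
        linarith only [hgr]
      rw [h5]
      linear_combination -h4
    rw [h3, abs_neg, abs_mul, abs_of_pos (wt_pos _ _ _ _)]
    have h6 : |nb (fun z => gr V Λ E x z - tg V Λ E C' x z) y| ≤ 2 * d * Real.exp (-s) := by
      refine nb_abs_le fun i => ?_
      have h7 := sd_step b y i
      exact ⟨hout _ (by omega), hout _ (by omega)⟩
    have h8 : |(V y - E) * (gr V Λ E x y - tg V Λ E C' x y)| ≤ K * Real.exp (-s) := by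
      rw [abs_mul]
      exact mul_le_mul hyV (hout y (by omega)) (abs_nonneg _) hK0
    have h9 : |nb (fun z => gr V Λ E x z - tg V Λ E C' x z) y +
        (V y - E) * (gr V Λ E x y - tg V Λ E C' x y)| ≤ (2 * d + K) * Real.exp (-s) := by
      refine le_trans (abs_add_le _ _) ?_
      linarith only [h6, h8]
    have h10 : 0 ≤ (2 * d + K) * Real.exp (a - κ * m) := by positivity
    calc wt κ b r₀ y * |nb (fun z => gr V Λ E x z - tg V Λ E C' x z) y +
          (V y - E) * (gr V Λ E x y - tg V Λ E C' x y)| ≤ 1 * ((2 * d + K) * Real.exp (-s)) :=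
          mul_le_mul (wt_le_one hκ _ _ _) h9 (abs_nonneg _) zero_le_one
      _ ≤ (2 * d + K) * (Real.exp (-s) + Real.exp (a - κ * m)) := by linarith only [h10]
  · -- near the boundary
    have htg : ∀ z : Site d, |tg V Λ E C' x z| ≤ Real.exp a := by
      intro z
      unfold tg
      split_ifs with h1
      · exact hG x hxb' z (hC'b h1)
      · rw [abs_zero]
        exact (Real.exp_pos _).le
    have hyx : y ≠ x := by
      rintro rfl
      omega
    unfold er
    rw [if_neg hyx, add_zero, abs_mul, abs_of_pos (wt_pos _ _ _ _)]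
    have h6 : |nb (tg V Λ E C' x) y| ≤ 2 * d * Real.exp a :=
      nb_abs_le fun i => ⟨htg _, htg _⟩
    have h8 : |(V y - E) * tg V Λ E C' x y| ≤ K * Real.exp a := by
      rw [abs_mul]
      exact mul_le_mul hyV (htg y) (abs_nonneg _) hK0
    have h9 : |nb (tg V Λ E C' x) y + (V y - E) * tg V Λ E C' x y| ≤
        (2 * d + K) * Real.exp a := by
      refine le_trans (abs_add_le _ _) ?_
      linarith only [h6, h8]
    have h10 : 0 ≤ (2 * d + K) * Real.exp (-s) := by positivity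
    have h11 : Real.exp (-(κ * m)) * Real.exp a = Real.exp (a - κ * m) := by
      rw [← Real.exp_add]
      congr 1
      ring
    calc wt κ b r₀ y * |nb (tg V Λ E C' x) y + (V y - E) * tg V Λ E C' x y| ≤
          Real.exp (-(κ * m)) * ((2 * d + K) * Real.exp a) :=
          mul_le_mul (wt_le hκ h) h9 (abs_nonneg _) (Real.exp_pos _).le
      _ = (2 * d + K) * Real.exp (a - κ * m) := by rw [← h11]; ring
      _ ≤ (2 * d + K) * (Real.exp (-s) + Real.exp (a - κ * m)) := by linarith only [h10]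

/-- the weight is constant near the points with a small distance -/
theorem wt_near {y z : Site d} (h : sd y z ≤ 1) (hz : sd b z < r₀) :
    wt κ b r₀ y / wt κ b r₀ z - 1 = 0 := by
  have h1 := sd_triangle b z y
  rw [sd_comm z y] at h1
  rw [wt_eq_one (by omega : sd b y ≤ r₀), wt_eq_one hz.le, div_one, sub_self]

theorem FT_normf [NeZero M] {R : ℕ} {ω : Tor d M → ℝ} (hM : 2 * R + 5 ≤ M)
    (hC' : C' ⊆ box b R) (hω1 : ∀ y, 0 < ω y) (hω2 : ∀ y, ω y ≤ 2) (hκ : 0 ≤ κ) (hκ1 : κ ≤ 1)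
    (D : Finset (Tor d M)) (r : Tor d M → Tor d M → ℂ)
    (hr : ∀ x ∈ D, ∀ y, r₀ ≤ sd b (lf b y) → r x y = gT ω V Λ E κ b r₀ C' x y) (v : D → ℂ) :
    ∑ y, ‖lnt D (FT ω V Λ E κ b r₀ C') v y‖ ^ 2 ≤
      (16 * d * κ) ^ 2 * ∑ y, ‖lnt D r v y‖ ^ 2 := by
  classical
  obtain ⟨G, hG⟩ : ∃ G : Site d → ℂ, G = GG V Λ E κ b r₀ C' D v := ⟨_, rfl⟩
  obtain ⟨G', hG'⟩ : ∃ G' : Site d → ℂ, G' = fun z => if r₀ ≤ sd b z then G z else 0 := ⟨_, rfl⟩
  have hω0 : ∀ y, ω y ≠ 0 := fun y => (hω1 y).ne'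
  have hsq : ∀ y : Tor d M, ω y ^ 2 ≤ 4 := by
    intro y
    have h1 := hω1 y
    have h2 := hω2 y
    calc ω y ^ 2 ≤ 2 ^ 2 := pow_le_pow_left₀ h1.le h2 2
      _ = 4 := by norm_num
  have hG0 : ∀ y, y ∉ C' → G' y = 0 := by
    intro y hy
    rw [hG']
    change (if r₀ ≤ sd b y then G y else 0) = 0
    split_ifs with h
    · rw [hG]
      unfold GG
      refine Finset.sum_eq_zero fun x _ => ?_
      simp only [psr, tg, if_neg hy, mul_zero, Complex.ofReal_zero]
    · rfl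
  have hlap : ∀ y : Site d, lap (fun z => ((wt κ b r₀ y / wt κ b r₀ z - 1 : ℝ) : ℂ) * G z) y =
      lap (fun z => ((wt κ b r₀ y / wt κ b r₀ z - 1 : ℝ) : ℂ) * G' z) y := by
    intro y
    have h1 : ∀ z : Site d, sd y z ≤ 1 → ((wt κ b r₀ y / wt κ b r₀ z - 1 : ℝ) : ℂ) * G z =
        ((wt κ b r₀ y / wt κ b r₀ z - 1 : ℝ) : ℂ) * G' z := by
      intro z hz
      rw [hG']
      change _ = ((wt κ b r₀ y / wt κ b r₀ z - 1 : ℝ) : ℂ) * (if r₀ ≤ sd b z then G z else 0)
      split_ifs with h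
      · rfl
      · rw [wt_near hz (not_le.1 h), Complex.ofReal_zero, zero_mul, zero_mul]
    unfold lap
    refine Finset.sum_congr rfl fun i _ => ?_
    exact congrArg₂ (· + ·) (h1 _ (sd_add_single_le y i)) (h1 _ (sd_sub_single_le y i))
  obtain ⟨B, hB1, hB2, hB3⟩ := sum_lf (M := M) b (fun y => ‖lap (fun z =>
    ((wt κ b r₀ y / wt κ b r₀ z - 1 : ℝ) : ℂ) * G' z) y‖ ^ 2)
  obtain ⟨B', hB1', hB2', hB3'⟩ := sum_lf (M := M) b (fun y => ‖G' y‖ ^ 2)
  have h1 : ∑ y, ‖lnt D (FT ω V Λ E κ b r₀ C') v y‖ ^ 2 ≤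
      4 * ∑ x : Tor d M, ‖lap (fun z =>
        ((wt κ b r₀ (lf b x) / wt κ b r₀ z - 1 : ℝ) : ℂ) * G' z) (lf b x)‖ ^ 2 := by
    rw [Finset.mul_sum]
    refine Finset.sum_le_sum fun y _ => ?_
    rw [lnt_FT, norm_mul, mul_pow, Complex.norm_real, Real.norm_eq_abs, sq_abs, ← hlap, hG]
    exact mul_le_mul_of_nonneg_right (hsq y) (by positivity)
  have h2 := lap_norm_sq_le hκ B G' hG0 (fun y z => ((wt κ b r₀ y / wt κ b r₀ z - 1 : ℝ) : ℂ)) (by
    intro y i
    constructor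
    · rw [Complex.norm_real, Real.norm_eq_abs]
      exact wt_ratio hκ hκ1 (sd_add_single_le y i)
    · rw [Complex.norm_real, Real.norm_eq_abs]
      exact wt_ratio hκ hκ1 (sd_sub_single_le y i))
  have h3 : ∑ z ∈ C', ‖G' z‖ ^ 2 ≤ ∑ y : Tor d M, ‖G' (lf b y)‖ ^ 2 := by
    rw [hB3']
    refine Finset.sum_le_sum_of_subset_of_nonneg ?_ fun _ _ _ => by positivity
    intro z hz
    have h4 := mem_box.1 (hC' hz)
    rw [← lf_ti hM (by omega : sd b z ≤ R + 2)]
    exact hB1' _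
  have h4 : ∑ y : Tor d M, ‖G' (lf b y)‖ ^ 2 ≤
      4 * ∑ y, ‖lnt D r v y‖ ^ 2 := by
    rw [Finset.mul_sum]
    refine Finset.sum_le_sum fun y _ => ?_
    rw [hG']
    change ‖(if r₀ ≤ sd b (lf b y) then G (lf b y) else 0)‖ ^ 2 ≤ _
    split_ifs with h
    · have h5 : lnt D r v y = lnt D (gT ω V Λ E κ b r₀ C') v y := by
        unfold lnt
        refine Finset.sum_congr rfl fun x _ => ?_
        rw [hr x x.2 y h]
      rw [h5, hG, lnt_gT hω0, norm_mul, mul_pow, Complex.norm_real, Real.norm_eq_abs, sq_abs]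
      exact mul_le_mul_of_nonneg_right (hsq y) (by positivity)
    · rw [norm_zero, zero_pow two_ne_zero]
      exact mul_nonneg (by norm_num) (sq_nonneg _)
  have h5 : (0 : ℝ) ≤ (4 * d * κ) ^ 2 := by positivity
  rw [hB3] at h1
  have h6 := mul_le_mul_of_nonneg_left (le_trans h3 h4) h5
  calc _ ≤ 4 * ((4 * d * κ) ^ 2 * (4 * ∑ y, ‖lnt D r v y‖ ^ 2)) := by
        linarith
    _ = _ := by ring

end Pool.Agent.LE.IR.H56
end
end -- Pool.Agent.Helper56_LIR.CLF2

section -- Pool.Agent.Helper56_LIR.CLF4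

/-!
# CLF, part 4: the numbers, the system
-/

set_option autoImplicit false

open MeasureTheory ProbabilityTheory Function Filter

open scoped ENNReal BigOperators Topology NNReal

noncomputable section

namespace Pool.Agent.LE.IR.H56

open Pool.Agent.Anderson hiding box mem_box card_box
open Pool.Agent.Loc hiding nb
open Pool.Agent.Mob Pool.Agent.Helper54.Bal
  Pool.Agent.Helper96.EXP Pool.Agent.BED
open Pool.Agent.LE.MN Pool.Agent.LE.CL Pool.Agent.LE.CL.H48

/-- the number of the tail -/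
theorem tail_num {d n r₀ : ℕ} {cB η Cf : ℝ} (hn : 1 ≤ n) (hcB : 0 < cB) (hη : 0 < η)
    (hη1 : η ≤ 1) (hnη : η * n ≤ 1) (hC1 : 2 * (d : ℝ) + 3 ≤ Cf)
    (hC2 : 16 * 3 ^ d * (16 * (d : ℝ) + 6) ^ 2 / cB ≤ Cf)
    (hr : Cf * (1 + Real.log (1 / η)) * n ≤ (r₀ : ℝ) ^ 2) :
    (2 * (n : ℝ) + 1) ^ d * ((16 * d + 6) * (2 * n * Real.exp (-((r₀ : ℝ) ^ 2 / (2 * n))))) ^ 2 ≤
      cB / 4 * η ^ (d + 1) := by
  have hn1 : (1 : ℝ) ≤ n := by exact_mod_cast hn
  have hn0 : (0 : ℝ) < n := by linarith only [hn1]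
  have hd0 : (0 : ℝ) ≤ d := Nat.cast_nonneg d
  have hCf : 0 < Cf := by linarith only [hC1]
  have hL : 0 ≤ Real.log (1 / η) := Real.log_nonneg (by rw [le_div_iff₀ hη]; linarith only [hη1])
  obtain ⟨e, he⟩ : ∃ e : ℝ, e = Real.exp (-((r₀ : ℝ) ^ 2 / (2 * n))) := ⟨_, rfl⟩
  have he0 : 0 ≤ e := by rw [he]; exact (Real.exp_pos _).le
  have he2 : e ^ 2 ≤ Real.exp (-Cf) * η ^ (2 * d + 3) := by
    have h1 : e ^ 2 = Real.exp (-((r₀ : ℝ) ^ 2 / n)) := by
      rw [he, ← Real.exp_nat_mul]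
      congr 1
      push_cast
      field_simp
    have h2 : Real.exp (-Cf) * η ^ (2 * d + 3) =
        Real.exp (-(Cf + (2 * d + 3) * Real.log (1 / η))) := by
      have h3 : η ^ (2 * d + 3) = Real.exp (((2 * d + 3 : ℕ) : ℝ) * Real.log η) := by
        rw [← Real.log_pow, Real.exp_log (by positivity)]
      rw [h3, ← Real.exp_add, one_div, Real.log_inv]
      congr 1
      push_cast
      ring
    rw [h1, h2]
    apply Real.exp_le_exp.2
    have h3 : Cf * (1 + Real.log (1 / η)) ≤ (r₀ : ℝ) ^ 2 / n := by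
      rw [le_div_iff₀ hn0]
      exact hr
    have h4 : (2 * (d : ℝ) + 3) * Real.log (1 / η) ≤ Cf * Real.log (1 / η) :=
      mul_le_mul_of_nonneg_right hC1 hL
    linarith only [h3, h4]
  have h1 : (2 * (n : ℝ) + 1) ^ d ≤ (3 * n) ^ d :=
    pow_le_pow_left₀ (by positivity) (by linarith only [hn1]) d
  have h2 : Real.exp (-Cf) * (16 * 3 ^ d * (16 * (d : ℝ) + 6) ^ 2) ≤ cB := by
    have h3 : Real.exp (-Cf) ≤ 1 / Cf := by
      rw [Real.exp_neg, one_div]
      exact inv_anti₀ hCf (by linarith only [Real.add_one_le_exp Cf])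
    have h4 : (0 : ℝ) ≤ 16 * 3 ^ d * (16 * (d : ℝ) + 6) ^ 2 := by positivity
    refine (mul_le_mul_of_nonneg_right h3 h4).trans ?_
    rw [div_mul_eq_mul_div, one_mul, div_le_iff₀ hCf]
    rw [div_le_iff₀ hcB] at hC2
    linarith only [hC2]
  have h3 : (η * n) ^ (d + 2) ≤ 1 := pow_le_one₀ (by positivity) hnη
  rw [← he]
  calc (2 * (n : ℝ) + 1) ^ d * ((16 * d + 6) * (2 * n * e)) ^ 2 ≤
      (3 * n) ^ d * ((16 * d + 6) * (2 * n * e)) ^ 2 :=
        mul_le_mul_of_nonneg_right h1 (sq_nonneg _)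
    _ = (4 * 3 ^ d * (16 * d + 6) ^ 2 * (n : ℝ) ^ (d + 2)) * e ^ 2 := by
        rw [mul_pow, pow_add]
        ring
    _ ≤ (4 * 3 ^ d * (16 * d + 6) ^ 2 * (n : ℝ) ^ (d + 2)) *
        (Real.exp (-Cf) * η ^ (2 * d + 3)) := mul_le_mul_of_nonneg_left he2 (by positivity)
    _ = (Real.exp (-Cf) * (16 * 3 ^ d * (16 * (d : ℝ) + 6) ^ 2)) / 4 *
        ((η * n) ^ (d + 2) * η ^ (d + 1)) := by
        have : η ^ (2 * d + 3) = η ^ (d + 2) * η ^ (d + 1) := by
          rw [← pow_add]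
          congr 1
          ring
        rw [this, mul_pow]
        ring
    _ ≤ cB / 4 * (1 * η ^ (d + 1)) := by
        refine mul_le_mul (by linarith only [h2]) ?_ (by positivity) (by linarith only [hcB])
        exact mul_le_mul_of_nonneg_right h3 (by positivity)
    _ = cB / 4 * η ^ (d + 1) := by rw [one_mul]

/-- the condition which replaces the condition for the mass of the local part -/
theorem kap_eta {d : ℕ} {n : ℕ} {l η : ℝ} (hn : 1 ≤ n) (hl : 0 < l) (hnl : n * l ≤ 1)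
    (hηd : η * (1 / (n * l)) ^ d ≤ l) :
    (1 / (n : ℝ)) ^ (((d : ℝ) - 4) / 2) * η ≤ l ^ (((d : ℝ) - 2) / 2) := by
  have hn0 : (0 : ℝ) < n := by exact_mod_cast hn
  obtain ⟨u, hu⟩ : ∃ u : ℝ, u = n * l := ⟨_, rfl⟩
  obtain ⟨k, hk⟩ : ∃ k : ℝ, k = 1 / (n : ℝ) := ⟨_, rfl⟩
  have hk0 : 0 < k := by rw [hk]; positivity
  have hu0 : 0 < u := by rw [hu]; positivity
  have hlu : l = u * k := by
    rw [hu, hk]
    field_simp
  rw [← hu] at hηd hnl
  rw [← hk]
  have h1 : η ≤ l * u ^ d := by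
    have h2 : η * (1 / u) ^ d * u ^ d ≤ l * u ^ d :=
      mul_le_mul_of_nonneg_right hηd (by positivity)
    have h3 : η * (1 / u) ^ d * u ^ d = η := by
      rw [mul_assoc, ← mul_pow, one_div, inv_mul_cancel₀ hu0.ne', one_pow, mul_one]
    rwa [h3] at h2
  have h2 : k ^ (((d : ℝ) - 4) / 2) * k = k ^ (((d : ℝ) - 2) / 2) := by
    have h3 : ((d : ℝ) - 2) / 2 = ((d : ℝ) - 4) / 2 + 1 := by ring
    rw [h3, Real.rpow_add_one hk0.ne']
  have h4 : u ^ (d + 1) ≤ u ^ (((d : ℝ) - 2) / 2) := by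
    rw [← Real.rpow_natCast]
    refine Real.rpow_le_rpow_of_exponent_ge hu0 hnl ?_
    push_cast
    have : (0 : ℝ) ≤ d := Nat.cast_nonneg d
    linarith only
  calc k ^ (((d : ℝ) - 4) / 2) * η ≤ k ^ (((d : ℝ) - 4) / 2) * (l * u ^ d) :=
        mul_le_mul_of_nonneg_left h1 (Real.rpow_pos_of_pos hk0 _).le
    _ = (k ^ (((d : ℝ) - 4) / 2) * k) * u ^ (d + 1) := by
        rw [hlu, pow_succ]
        ring
    _ = k ^ (((d : ℝ) - 2) / 2) * u ^ (d + 1) := by rw [h2]
    _ ≤ k ^ (((d : ℝ) - 2) / 2) * u ^ (((d : ℝ) - 2) / 2) :=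
        mul_le_mul_of_nonneg_left h4 (Real.rpow_pos_of_pos hk0 _).le
    _ = l ^ (((d : ℝ) - 2) / 2) := by
        rw [hlu, Real.mul_rpow hu0.le hk0.le, mul_comm]

theorem numT_off {d M : ℕ} [NeZero M] {A' Cs Cm cB c w l lam μ ε η τ : ℝ} {n : ℕ} (hd : 3 ≤ d)
    (hCs : 1 ≤ Cs) (hCm : Cm ≤ A') (hcB : 0 < cB) (hc : 0 ≤ c) (hcc : c ≤ cB) (hc4 : 4 * c ≤ 1)
    (hcs : c ≤ (cB / (5 * Cs)) ^ 2) (hw : |w - 1| ≤ 1 / 10) (hlam : 0 < lam)
    (hμ : 0 < μ) (hlμ : 100 ≤ lam * μ) (hl0 : 0 < l) (hll : l ≤ lam) (hε : 0 < ε) (hεc : ε ≤ c)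
    (hn : 1 ≤ n) (hn2 : lam * (n * (1 + Real.log n)) ≤ c) (hη : 0 < η) (hηc : η ≤ c)
    (hηn : η * (1 + Real.log (1 / η)) * n ≤ c)
    (hηd : η * (1 / (n * l)) ^ d ≤ l) (hτ : 0 ≤ τ)
    (hτ2 : τ ^ 2 * (1 / (n : ℝ)) ^ (((d : ℝ) - 2) / 2) * (1 + Real.log (1 / η)) ≤
      c * l ^ (((d : ℝ) - 2) / 2))
    (h2 : pm (fun p : Tor d M => if ds p ≤ 1 / (n : ℝ) then (mt l η p ^ 2)⁻¹ else 0) ≤
        Cm * l ^ (((d : ℝ) - 2) / 2) / η)
    (h1 : pm (fun p : Tor d M => if ds p ≤ 1 / (n : ℝ) then (mt l η p)⁻¹ else 0) ≤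
        Cm * (1 / (n : ℝ)) ^ (((d : ℝ) - 2) / 2) * (1 + Real.log (1 / η))) :
    NumT d M A' cB w l η τ (cB * η) (cB * η * l ^ (((d : ℝ) - 2) / 2)) (1 / n) 0
      (Cs * (ε + n * (lam + 1 / μ) + Real.sqrt (4 * l * (n * (1 + Real.log n)))))
      (l ^ (((d : ℝ) - 2) / 2))
      ((1 / (n : ℝ)) ^ (((d : ℝ) - 2) / 2) * (1 + Real.log (1 / η))) := by
  have hn1 : (1 : ℝ) ≤ n := by exact_mod_cast hn
  have hn0 : (0 : ℝ) < n := by linarith only [hc4, hε, hεc, hn1]
  have hd3 : (3 : ℝ) ≤ d := by exact_mod_cast hd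
  have hlogn := Real.log_nonneg hn1
  have hη1 : η ≤ 1 := by linarith only [hc4, hε, hεc, hηc]
  have hL : 0 ≤ Real.log (1 / η) := Real.log_nonneg (by rw [le_div_iff₀ hη]; linarith only [hc4, hε, hεc, hηc])
  have hD0 : 0 < l ^ (((d : ℝ) - 2) / 2) := Real.rpow_pos_of_pos hl0 _
  have hnl : lam * n ≤ c := by
    refine le_trans ?_ hn2
    refine mul_le_mul_of_nonneg_left ?_ hlam.le
    exact le_mul_of_one_le_right hn0.le (by linarith only [hlogn])
  have hκ1 : (1 : ℝ) / n ≤ 1 := by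
    rw [div_le_one hn0]
    exact hn1
  have hκ0 : (0 : ℝ) < 1 / n := by positivity
  have hln : l * n ≤ lam * n := mul_le_mul_of_nonneg_right hll hn0.le
  have hlκ : 4 * l ≤ 1 / n := by
    rw [le_div_iff₀ hn0]
    linarith only [hc4, hnl, hln]
  have he0 : 0 ≤ ((d : ℝ) - 2) / 2 := by linarith only [hc4, hε, hεc, hd3]
  have hb : (1 / (n : ℝ)) ^ (((d : ℝ) - 2) / 2) ≤
      (1 / (n : ℝ)) ^ (((d : ℝ) - 2) / 2) * (1 + Real.log (1 / η)) := by
    have h3 : 0 < (1 / (n : ℝ)) ^ (((d : ℝ) - 2) / 2) := Real.rpow_pos_of_pos hκ0 _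
    exact le_mul_of_one_le_right h3.le (by linarith only [hL])
  refine ⟨hw, ⟨hη, ?_, hη1⟩, ⟨hl0, hlκ, hκ1⟩, ⟨hD0, ?_⟩, ⟨hb, ?_⟩, ⟨le_rfl, ?_⟩, ⟨?_, le_rfl⟩,
    ⟨?_, le_rfl⟩, ⟨hτ, ?_⟩, ⟨?_, ?_⟩, ?_, ?_⟩
  · rw [mul_one_div cB, le_div_iff₀ hn0]
    linarith only [hcc, hηn]
  · refine le_trans ?_ hb
    exact Real.rpow_le_rpow hl0.le (by linarith only [hl0, hlκ]) he0
  · exact kap_eta hn hl0 (by linarith only [hc4, hε, hεc, hnl, hln]) hηd
  · rw [zero_mul]
    exact hD0.le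
  · positivity
  · positivity
  · rw [← mul_assoc]
    exact le_trans hτ2 (mul_le_mul_of_nonneg_right hcc hD0.le)
  · have h3 : 0 ≤ 1 / μ := by positivity
    have h4 := Real.sqrt_nonneg (4 * l * (n * (1 + Real.log n)))
    have h5 : 0 ≤ (n : ℝ) * (lam + 1 / μ) := by positivity
    positivity
  · have hc1 : 0 ≤ Real.sqrt c := Real.sqrt_nonneg c
    have hcsq : Real.sqrt c ^ 2 = c := Real.sq_sqrt hc
    have hc2 : Real.sqrt c ≤ cB / (5 * Cs) := Real.sqrt_le_iff.2 ⟨by positivity, hcs⟩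
    have hc3 : c ≤ Real.sqrt c := by
      have h3 : Real.sqrt c ≤ 1 := Real.sqrt_le_one.2 (by linarith only [hc4, hε, hεc])
      calc c = Real.sqrt c * Real.sqrt c := (Real.mul_self_sqrt hc).symm
        _ ≤ Real.sqrt c * 1 := mul_le_mul_of_nonneg_left h3 hc1
        _ = Real.sqrt c := mul_one _
    have h3 : Real.sqrt (4 * l * (n * (1 + Real.log n))) ≤ 2 * Real.sqrt c := by
      refine Real.sqrt_le_iff.2 ⟨by positivity, ?_⟩
      rw [mul_pow, hcsq]
      have h4 : l * (n * (1 + Real.log n)) ≤ lam * (n * (1 + Real.log n)) :=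
        mul_le_mul_of_nonneg_right hll (by positivity)
      linarith only [hn2, h4]
    have h4 : 1 / μ ≤ lam := by
      rw [div_le_iff₀ hμ]
      linarith only [hc4, hlμ, hε, hεc]
    have h5 : (n : ℝ) * (lam + 1 / μ) ≤ 2 * c := by
      have h6 : (n : ℝ) * (lam + 1 / μ) ≤ n * (2 * lam) :=
        mul_le_mul_of_nonneg_left (by linarith only [h4]) hn0.le
      linarith only [hnl, h6]
    have h6 : ε + n * (lam + 1 / μ) + Real.sqrt (4 * l * (n * (1 + Real.log n))) ≤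
        5 * Real.sqrt c := by linarith only [hεc, hc3, h3, h5]
    have hCs0 : 0 < Cs := by linarith only [hCs, hc4, hε, hεc]
    calc Cs * (ε + n * (lam + 1 / μ) + Real.sqrt (4 * l * (n * (1 + Real.log n)))) ≤
        Cs * (5 * (cB / (5 * Cs))) := mul_le_mul_of_nonneg_left (by linarith only [hεc, hc2, hc3, h3, h5]) hCs0.le
      _ = cB := by
        field_simp
  · refine le_trans h2 ?_
    exact div_le_div_of_nonneg_right (mul_le_mul_of_nonneg_right hCm hD0.le) hη.le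
  · refine le_trans h1 ?_
    rw [mul_assoc]
    exact mul_le_mul_of_nonneg_right hCm (by positivity)

/-- the Green functions without the local part -/
def rT {d M : ℕ} [NeZero M] (z μ lam : ℝ) (V : Site d → ℝ) (n r₀ : ℕ) (Λ : Finset (Site d))
    (κ : ℝ) (b : Site d) (ρ : ℕ) (C' : Finset (Site d)) (x y : Tor d M) : ℂ :=
  gT (om z μ fun x : Tor d M => V (b + rep x)) V Λ (z - lam) κ b ρ C' x y -
    scf z μ lam (fun x : Tor d M => V (b + rep x)) n r₀ x y

/-- the whole error -/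
def eTf {d M : ℕ} [NeZero M] (z μ lam : ℝ) (V : Site d → ℝ) (n r₀ : ℕ) (Λ : Finset (Site d))
    (κ : ℝ) (b : Site d) (ρ : ℕ) (C' : Finset (Site d)) (x y : Tor d M) : ℂ :=
  eT (om z μ fun x : Tor d M => V (b + rep x)) V Λ (z - lam) κ b ρ C' x y +
    aop (om z μ fun x : Tor d M => V (b + rep x)) (1 / μ) lam
      (fun u => sfn z μ lam (fun x : Tor d M => V (b + rep x)) n x u -
        scf z μ lam (fun x : Tor d M => V (b + rep x)) n r₀ x u) y

theorem norm_add_sq_le2 (a b : ℂ) : ‖a + b‖ ^ 2 ≤ 2 * ‖a‖ ^ 2 + 2 * ‖b‖ ^ 2 := by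
  have h1 : ‖a + b‖ ^ 2 ≤ (‖a‖ + ‖b‖) ^ 2 :=
    pow_le_pow_left₀ (norm_nonneg _) (norm_add_le a b) 2
  have h2 := sq_nonneg (‖a‖ - ‖b‖)
  linarith [h1, h2, (by ring : (‖a‖ + ‖b‖) ^ 2 = 2 * ‖a‖ ^ 2 + 2 * ‖b‖ ^ 2 - (‖a‖ - ‖b‖) ^ 2)]

theorem sysT_off {d M : ℕ} [NeZero M] {Cs : ℝ} {V : Site d → ℝ} {Λ : Finset (Site d)}
    {z μ ε lam w l η τ κ s a A' cB D₀ : ℝ} {b : Site d} {p r₀ m R n : ℕ}
    {C C' : Finset (Site d)} (hμ : 0 < μ) (hz : z ≤ 2 * d + 1) (hε : 0 < ε) (hε1 : ε ≤ 1 / 50)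
    (hF : FlatE ε z μ (fun x : Tor d M => V (b + rep x)))
    (hsrc : ∀ x : Tor d M,
      (∀ y, aop (om z μ fun x : Tor d M => V (b + rep x)) (1 / μ) lam
        (fun u => sfn z μ lam (fun x : Tor d M => V (b + rep x)) n x u) y =
        (if y = x then ((om z μ fun x : Tor d M => V (b + rep x)) x : ℂ) else 0) -
          Sfn z μ lam (fun x : Tor d M => V (b + rep x)) n x y) ∧
      (∀ p, ‖ft (sfn z μ lam (fun x : Tor d M => V (b + rep x)) n x) p‖ ≤ Cs * n) ∧
      ∑ y, ‖sfn z μ lam (fun x : Tor d M => V (b + rep x)) n x y‖ ^ 2 ≤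
        Cs * growth d n * (1 + Real.log n) ∧
      (∀ p, ‖ft (Sfn z μ lam (fun x : Tor d M => V (b + rep x)) n x) p‖ ≤ Cs) ∧
      ∑ y, ‖Sfn z μ lam (fun x : Tor d M => V (b + rep x)) n x y‖ ^ 2 ≤
        Cs * (1 / (n : ℝ)) ^ ((d : ℝ) / 2) ∧
      ∀ p, ‖ft (Sfn z μ lam (fun x : Tor d M => V (b + rep x)) n x) p -
        (starRingEnd ℂ) (ec p x)‖ ≤
        Cs * (ε + n * (lam + 1 / μ) + Real.sqrt (ds p * (n * (1 + Real.log n)))))
    (htail : ∀ x : Tor d M, ∑ y, ‖aop (om z μ fun x : Tor d M => V (b + rep x)) (1 / μ) lam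
      (fun u => sfn z μ lam (fun x : Tor d M => V (b + rep x)) n x u -
        scf z μ lam (fun x : Tor d M => V (b + rep x)) n r₀ x u) y‖ ^ 2 ≤ cB * η * D₀ / 4)
    (hCs : 0 ≤ Cs) (hA' : Cs ≤ A') (hn : 1 ≤ n)
    (hlam : 0 ≤ lam) (hlam1 : lam ≤ 1) (hκ : 0 ≤ κ) (hκ1 : κ ≤ 1)
    (hφ : 16 * d * κ = cB * η) (hR : 4 * R + 5 ≤ M) (hrR : p + r₀ + 1 + m ≤ R)
    (hΛ : box b (p + r₀ + 1 + m + 1) ⊆ Λ) (hC0 : b ∈ C) (hC : C ⊆ box b p) (hm : 1 ≤ m)
    (hCC : C ⊆ C') (hclu : clu V Λ (z - lam) s C (box b (p + r₀ + 1 + m)) ⊆ C')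
    (hC'b : C' ⊆ box b (p + r₀ + 1 + m)) (hnear : ∀ x ∈ C, ∀ y, sd x y ≤ r₀ → y ∈ C')
    (hcard : C'.card ≤ 2 * C.card) (hdet : (RM V Λ (z - lam)).det ≠ 0)
    (hG : ∀ x ∈ box b (p + r₀ + 1 + m), ∀ y ∈ box b (p + r₀ + 1 + m),
      |gr V Λ (z - lam) x y| ≤ Real.exp a)
    (hnum : 4 * ((2 * ((p + r₀ + 1 + m + 1 : ℕ) : ℝ) + 1) ^ d *
      ((4 * d + 2) * (Real.exp (-s) + Real.exp (a - κ * m))) ^ 2) ≤ cB * η * D₀ / 4)
    (hW : FBd (om z μ fun x : Tor d M => V (b + rep x)) (1 / μ) lam w l η τ) :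
    SysT (om z μ fun x : Tor d M => V (b + rep x)) (1 / μ) lam w l η τ (cB * η) (cB * η * D₀)
      A' (1 / n) 0
      (Cs * (ε + n * (lam + 1 / μ) + Real.sqrt (4 * l * (n * (1 + Real.log n)))))
      (im M b C) (im M b C')
      (rT z μ lam V n r₀ Λ κ b (p + r₀ + 1) C')
      (fun _ _ => 0)
      (Sfn z μ lam (fun x : Tor d M => V (b + rep x)) n)
      (FT (om z μ fun x : Tor d M => V (b + rep x)) V Λ (z - lam) κ b (p + r₀ + 1) C')
      (eTf z μ lam V n r₀ Λ κ b (p + r₀ + 1) C') := by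
  have hR2 : 2 * R + 5 ≤ M := by omega
  obtain ⟨ω, hω⟩ : ∃ ω : Tor d M → ℝ, ω = om z μ fun x : Tor d M => V (b + rep x) := ⟨_, rfl⟩
  have hnear1 : ∀ y, |ω y - 1| ≤ ε := fun y => by rw [hω]; exact om_near hμ hF y
  have heq : ∀ y : Tor d M, (z - V (lf b y)) * ω y -
      ∑ i : Fin d, (ω (y + ev i) + ω (y - ev i)) = 1 / μ := fun y => by
    rw [hω]; exact om_eq hF y
  have hrT : ∀ x y : Tor d M, rT z μ lam V n r₀ Λ κ b (p + r₀ + 1) C' x y =
      gT ω V Λ (z - lam) κ b (p + r₀ + 1) C' x y -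
        scf z μ lam (fun x : Tor d M => V (b + rep x)) n r₀ x y := fun x y => by
    rw [hω]; rfl
  have heTf : ∀ x y : Tor d M, eTf z μ lam V n r₀ Λ κ b (p + r₀ + 1) C' x y =
      eT ω V Λ (z - lam) κ b (p + r₀ + 1) C' x y + aop ω (1 / μ) lam
        (fun u => sfn z μ lam (fun x : Tor d M => V (b + rep x)) n x u -
          scf z μ lam (fun x : Tor d M => V (b + rep x)) n r₀ x u) y := fun x y => by
    rw [hω]; rfl
  rw [← hω] at hW hsrc htail ⊢
  have hωpos : ∀ y, 0 < ω y := by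
    intro y
    have h1 := (abs_le.1 (hnear1 y)).1
    linarith only [hε, hε1, h1]
  have hω2 : ∀ y, ω y ≤ 2 := by
    intro y
    have h1 := (abs_le.1 (hnear1 y)).2
    linarith only [hε, hε1, h1]
  have hω0 : ∀ y, ω y ≠ 0 := fun y => (hωpos y).ne'
  have hC'R : C' ⊆ box b R := fun y hy => box_mono b hrR (hC'b hy)
  have hCR : C ⊆ box b R := fun y hy => box_mono b (by omega) (hC hy)
  have hd0 : (0 : ℝ) ≤ d := Nat.cast_nonneg d
  have hVb : ∀ x ∈ box b (p + r₀ + 1 + m + 1), |V x - (z - lam)| ≤ 2 * d + 2 := by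
    intro x hx
    have h1 := mem_box.1 hx
    have h2 := lf_ti (M := M) hR2 (by omega : sd b x ≤ R + 2)
    have h3 : -1 ≤ V (lf b (ti M b x)) := hF.1 (ti M b x)
    have h4 : V (lf b (ti M b x)) ≤ z := V_le hF (ti M b x)
    rw [h2] at h3 h4
    rw [abs_le]
    constructor <;> linarith
  have hsc : ∀ x ∈ im M b C, ∀ y : Tor d M, tds x y ≤ r₀ → sd (lf b x) (lf b y) ≤ r₀ := by
    intro x hx y hxy
    rw [mem_im hR2 hCR] at hx
    exact sd_of_tds (R := R) (mem_box.1 (hCR hx)) hxy (by omega)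
  refine ⟨⟨?_, ?_, ?_⟩, ?_, ?_, ?_, ?_, ?_, ?_, ?_, ?_, ?_, hW⟩
  · refine ⟨ti M b b, ?_⟩
    rw [mem_im hR2 hCR, lf_ti hR2 (by rw [sd_self]; omega)]
    exact hC0
  · intro x hx
    rw [mem_im hR2 hCR] at hx
    rw [mem_im hR2 hC'R]
    exact hCC hx
  · rw [card_im hR2 hCR, card_im hR2 hC'R]
    exact hcard
  · intro x hx y hy
    rw [hrT]
    have h1 : scf z μ lam (fun x : Tor d M => V (b + rep x)) n r₀ x y = 0 := by
      unfold scf
      rw [if_neg]
      intro hxy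
      have h2 := hsc x hx y hxy
      rw [mem_im hR2 hCR] at hx
      apply hy
      rw [mem_im hR2 hC'R]
      exact hnear _ hx _ h2
    rw [mem_im hR2 hC'R] at hy
    rw [h1, sub_zero]
    unfold gT
    simp only [psr, tg, if_neg hy, mul_zero, zero_div, Complex.ofReal_zero]
  · intro x _ y
    have h1 := heqT (V := V) (Λ := Λ) (κ := κ) (b := b) (r₀ := p + r₀ + 1) (C' := C') (lam := lam)
      hR2 hC'R hω0 heq x y
    have h2 := (hsrc x).1 y
    have h3 := aop_sub ω (1 / μ) lam (gT ω V Λ (z - lam) κ b (p + r₀ + 1) C' x)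
      (fun u => scf z μ lam (fun x : Tor d M => V (b + rep x)) n r₀ x u) y
    have h4 := aop_sub ω (1 / μ) lam
      (fun u => sfn z μ lam (fun x : Tor d M => V (b + rep x)) n x u)
      (fun u => scf z μ lam (fun x : Tor d M => V (b + rep x)) n r₀ x u) y
    have h5 : (fun u => rT z μ lam V n r₀ Λ κ b (p + r₀ + 1) C' x u - 0) =
        fun w => gT ω V Λ (z - lam) κ b (p + r₀ + 1) C' x w -
          scf z μ lam (fun x : Tor d M => V (b + rep x)) n r₀ x w := by
      funext u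
      rw [hrT, sub_zero]
    rw [h5, h3, heTf, h4, h1, h2]
    ring
  · intro v
    have h1 := FT_normf (V := V) (Λ := Λ) (E := z - lam) (r₀ := p + r₀ + 1) hR2 hC'R hωpos hω2 hκ
      hκ1 (im M b C) (rT z μ lam V n r₀ Λ κ b (p + r₀ + 1) C') (by
        intro x hx y hy
        rw [hrT]
        have h2 : scf z μ lam (fun x : Tor d M => V (b + rep x)) n r₀ x y = 0 := by
          unfold scf
          rw [if_neg]
          intro hxy
          have h3 := hsc x hx y hxy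
          rw [mem_im hR2 hCR] at hx
          have h4 := mem_box.1 (hC hx)
          have h5 := sd_triangle b (lf b x) (lf b y)
          omega
        rw [h2, sub_zero]) v
    rw [hφ] at h1
    exact h1
  · intro x hx
    have hx' := hx
    rw [mem_im hR2 hCR] at hx
    have hxb := mem_box.1 (hC hx)
    have h1 := eT_norm (V := V) (Λ := Λ) (E := z - lam) (κ := κ) (b := b) (r₀ := p + r₀ + 1)
      (m := m) (C' := C') (Q := (4 * d + 2) * (Real.exp (-s) + Real.exp (a - κ * m))) hωpos hω2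
      hC'b (x := x) (by omega) (by
        intro y hy
        have h2 := er_lef (K := 2 * d + 2) hκ hdet hΛ
          (fun y hy => box_mono b (by omega) (hC hy)) hm (by positivity) hclu hC'b hVb hG hx hy
        refine le_trans h2 (le_of_eq ?_)
        ring)
    have h2 := le_trans h1 hnum
    have h3 := htail x
    calc ∑ y, ‖eTf z μ lam V n r₀ Λ κ b (p + r₀ + 1) C' x y‖ ^ 2 ≤
        ∑ y, (2 * ‖eT ω V Λ (z - lam) κ b (p + r₀ + 1) C' x y‖ ^ 2 + 2 * ‖aop ω (1 / μ) lam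
        (fun u => sfn z μ lam (fun x : Tor d M => V (b + rep x)) n x u -
          scf z μ lam (fun x : Tor d M => V (b + rep x)) n r₀ x u) y‖ ^ 2) := by
          refine Finset.sum_le_sum fun y _ => ?_
          rw [heTf]
          exact norm_add_sq_le2 _ _
      _ ≤ cB * η * D₀ := by
          rw [Finset.sum_add_distrib, ← Finset.mul_sum, ← Finset.mul_sum]
          linarith
  · intro x _ q
    have h1 : ft (fun _ : Tor d M => (0 : ℂ)) q = 0 := by
      unfold ft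
      simp
    change ‖ft (fun _ : Tor d M => (0 : ℂ)) q‖ ≤ _
    rw [h1, norm_zero]
    have h2 : 0 ≤ A' := hCs.trans hA'
    positivity
  · intro x _
    simp
  · intro x _ p
    exact le_trans ((hsrc x).2.2.2.1 p) hA'
  · intro x _
    refine le_trans (hsrc x).2.2.2.2.1 ?_
    exact mul_le_mul_of_nonneg_right hA' (by positivity)
  · intro x _ p hp
    refine le_trans ((hsrc x).2.2.2.2.2 p) (mul_le_mul_of_nonneg_left ?_ hCs)
    have hn1 : (1 : ℝ) ≤ n := by exact_mod_cast hn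
    have h1 : 0 ≤ (n : ℝ) * (1 + Real.log n) := by
      have := Real.log_nonneg hn1
      positivity
    have h2 := Real.sqrt_le_sqrt (mul_le_mul_of_nonneg_right hp h1)
    linarith only [h2]

end Pool.Agent.LE.IR.H56
end
end -- Pool.Agent.Helper56_LIR.CLF4

section -- Pool.Agent.Helper56_LIR.CLF

/-!
# CLF: the cluster of a site is large, with free moves
-/

set_option autoImplicit false

open MeasureTheory ProbabilityTheory Function Filter

open scoped ENNReal BigOperators Topology NNReal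

noncomputable section

namespace Pool.Agent.LE.IR.H56

open Pool.Agent.Anderson hiding box mem_box card_box
open Pool.Agent.Loc hiding nb
open Pool.Agent.Mob Pool.Agent.Helper54.Bal
  Pool.Agent.Helper96.EXP Pool.Agent.BED
open Pool.Agent.LE.MN Pool.Agent.LE.CL Pool.Agent.LE.CL.H48

theorem clf (ble : BleStmt) (src : SrcStmt) (sms : SmsStmt) (cvb : CvbStmt) : ClfStmt := by
  intro d A hd hA
  obtain ⟨Cs, hCs, hsrc⟩ := src d hd
  obtain ⟨Cm, hCm, hsms⟩ := sms d hd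
  have hAA : A ≤ max A (max Cs Cm) := le_max_left _ _
  have hsA : Cs ≤ max A (max Cs Cm) := le_trans (le_max_left _ _) (le_max_right _ _)
  have hmA : Cm ≤ max A (max Cs Cm) := le_trans (le_max_right _ _) (le_max_right _ _)
  obtain ⟨A', hA'⟩ : ∃ A', A' = max A (max Cs Cm) := ⟨_, rfl⟩
  rw [← hA'] at hAA hsA hmA
  obtain ⟨c₁, cB, c₂, hc₁, hc₁A, hcB, hcB1, hc₂, hble⟩ := ble d A' hd (hA.trans hAA)
  have hA'0 : 0 < A' := by linarith only [hCm, hmA]
  have hc₁1 : c₁ ≤ 1 := by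
    refine le_trans hc₁A ?_
    rw [div_le_one hA'0]
    linarith only [hCm, hmA]
  have hd3 : (3 : ℝ) ≤ d := by exact_mod_cast hd
  have hd1 : 1 ≤ d := by omega
  have hCs0 : 0 < Cs := by linarith only [hCs]
  obtain ⟨c, hc⟩ : ∃ c : ℝ, c = min (min (1 / 50) c₁) (min cB (min ((cB / (5 * Cs)) ^ 2)
    (cB / (64 * 5 ^ d * (4 * d + 2) ^ 2)))) := ⟨_, rfl⟩
  have hc50 : c ≤ 1 / 50 := by rw [hc]; exact le_trans (min_le_left _ _) (min_le_left _ _)
  have hcc₁ : c ≤ c₁ := by rw [hc]; exact le_trans (min_le_left _ _) (min_le_right _ _)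
  have hccB : c ≤ cB := by rw [hc]; exact le_trans (min_le_right _ _) (min_le_left _ _)
  have hcs : c ≤ (cB / (5 * Cs)) ^ 2 := by
    rw [hc]
    exact le_trans (min_le_right _ _) (le_trans (min_le_right _ _) (min_le_left _ _))
  have hck : c ≤ cB / (64 * 5 ^ d * (4 * d + 2) ^ 2) := by
    rw [hc]
    exact le_trans (min_le_right _ _) (le_trans (min_le_right _ _) (min_le_right _ _))
  have hc0 : 0 < c := by
    rw [hc]
    refine lt_min (lt_min (by norm_num) hc₁) (lt_min hcB (lt_min (by positivity) ?_))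
    positivity
  refine ⟨c₁, c, c₂, Cs + Cm + (d + 1) * (32 * d) / cB + (2 * d + 3) +
    16 * 3 ^ d * (16 * (d : ℝ) + 6) ^ 2 / cB, hc₁, hc₁1, hc0, hc50, hc₂, ?_, ?_⟩
  · have h1 : 0 ≤ (d + 1) * (32 * d) / cB := by positivity
    have h2 : 0 ≤ 16 * 3 ^ d * (16 * (d : ℝ) + 6) ^ 2 / cB := by positivity
    linarith only [hCs, hCm, hd3, hc50, hc0, h1, h2]
  intro M n N R R₁ r₀ J _ V b z μ ε lam w l η τ s a T Kq q hz hμ hlμ hε hεc hw hl hF hW hn hnM hn2
    hη hηc hηn hηd hτ hτ2 hCM hT1 hT2 hKq hq hR hbox hJR hJ hr₀ hr₀R hr₀n ha hR₁ hs hdet hG hnb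
  obtain ⟨C, hC⟩ : ∃ C : ℝ, C = Cs + Cm + (d + 1) * (32 * d) / cB + (2 * d + 3) +
    16 * 3 ^ d * (16 * (d : ℝ) + 6) ^ 2 / cB := ⟨_, rfl⟩
  rw [← hC] at hCM hr₀n hR₁ hs
  have hC3 : 0 ≤ (d + 1) * (32 * d) / cB := by positivity
  have hC4 : 0 ≤ 16 * 3 ^ d * (16 * (d : ℝ) + 6) ^ 2 / cB := by positivity
  have hCCm : Cm ≤ C := by linarith only [hCs, hd3, hc50, hc0, hC, hC3, hC4]
  have hCd : (d + 1) * (32 * d) / cB ≤ C := by linarith only [hCs, hCm, hd3, hc50, hc0, hC, hC4]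
  have hC5 : 2 * (d : ℝ) + 3 ≤ C := by linarith only [hCs, hCm, hc50, hc0, hC, hC3, hC4]
  have hC6 : 16 * 3 ^ d * (16 * (d : ℝ) + 6) ^ 2 / cB ≤ C := by linarith only [hCs, hCm, hd3, hc50, hc0, hC, hC3]
  have hC0 : 0 ≤ C := by linarith only [hCs, hCm, hd3, hc50, hc0, hC, hC3, hC4]
  have hn1 : (1 : ℝ) ≤ n := by exact_mod_cast hn
  have hn0 : (0 : ℝ) < n := by linarith only [hc50, hc0, hn1]
  have hlogn := Real.log_nonneg hn1
  have hlam : 0 < lam := by
    by_contra h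
    have := mul_nonpos_of_nonpos_of_nonneg (not_lt.mp h) hμ.le
    linarith only [hc50, hc0, hlμ, this]
  have hη1 : η ≤ 1 := by linarith only [hc50, hc0, hηc]
  have hL : 0 ≤ Real.log (1 / η) := Real.log_nonneg (by rw [le_div_iff₀ hη]; linarith only [hc50, hc0, hηc])
  have hlR : 0 ≤ Real.log R := Real.log_natCast_nonneg R
  have hnl : lam * n ≤ c := by
    refine le_trans ?_ hn2
    refine mul_le_mul_of_nonneg_left ?_ hlam.le
    exact le_mul_of_one_le_right hn0.le (by linarith only [hlogn])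
  have hlam1 : lam ≤ 1 := (le_mul_of_one_le_right hlam.le hn1).trans (by linarith only [hc50, hc0, hnl])
  have hμ1 : 1 ≤ μ := by
    have h1 : lam * μ ≤ 1 * μ := mul_le_mul_of_nonneg_right hlam1 hμ.le
    linarith only [hc50, hc0, hlμ, h1]
  have hw1 := (abs_le.1 hw).1
  have hw2 := (abs_le.1 hw).2
  have hw0 : 0 < w := by linarith only [hc50, hc0, hw1]
  have hμw : 0 < 1 / (μ * w) := by positivity
  have hμw2 : 1 / (μ * w) ≤ lam / 2 := by
    rw [div_le_iff₀ (by positivity)]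
    have h1 : 100 * (9 / 10) ≤ (lam * μ) * w :=
      mul_le_mul hlμ (by linarith only [hw1]) (by norm_num) (by positivity)
    have h2 : lam / 2 * (μ * w) = (lam * μ) * w / 2 := by ring
    rw [h2]
    linarith only [hc50, hc0, h1]
  have hll : l ≤ lam := by rw [hl]; linarith only [hμw]
  have hl0 : 0 < l := by rw [hl]; linarith only [hμw, hμw2]
  have hnl2 : n * l ≤ 1 := by
    have : n * l ≤ n * lam := mul_le_mul_of_nonneg_left hll hn0.le
    linarith only [hc50, hc0, hnl, this]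
  have hηl : η ≤ l := by
    refine le_trans ?_ hηd
    have h1 : 1 ≤ 1 / (n * l) := by
      rw [le_div_iff₀ (by positivity)]
      linarith only [hnl2]
    have h2 : 1 ≤ (1 / (n * l)) ^ d := one_le_pow₀ h1
    exact le_mul_of_one_le_right hη.le h2
  have hκ1 : (1 : ℝ) / n ≤ 1 := by
    rw [div_le_one hn0]
    exact hn1
  have hlκ : 4 * l ≤ 1 / n := by
    rw [le_div_iff₀ hn0]
    have : l * n ≤ lam * n := mul_le_mul_of_nonneg_right hll hn0.le
    linarith only [hc50, hc0, hnl, this]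
  have hD0 : 0 < l ^ (((d : ℝ) - 2) / 2) := Real.rpow_pos_of_pos hl0 _
  have hMm : Cm / η ≤ M := le_trans (div_le_div_of_nonneg_right hCCm hη.le) hCM
  have h1μ : 1 / μ ≤ lam := by
    rw [div_le_iff₀ hμ]
    linarith only [hc50, hc0, hlμ]
  have hnlm : n * (lam + 1 / μ) ≤ 1 := by
    have h6 : (n : ℝ) * (lam + 1 / μ) ≤ n * (2 * lam) :=
      mul_le_mul_of_nonneg_left (by linarith only [h1μ]) hn0.le
    linarith only [hc50, hc0, hnl, h6]
  obtain ⟨hsm1, hsm2⟩ := hsms M l η (1 / n) hη hηl hlκ hκ1 hMm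
  have hsm3 := hsm1 (by rw [div_div]; exact hηd)
  have hnum := numT_off (M := M) (A' := A') (μ := μ) (ε := ε) (lam := lam) hd hCs hmA hcB
    hc0.le hccB (by linarith only [hc50, hc0]) hcs hw hlam hμ hlμ hl0 hll hε hεc hn hn2 hη hηc hηn hηd hτ hτ2
    hsm3 hsm2
  -- the clusters
  have hJ0 : 0 < J := by
    by_contra hcon
    have h0 : J = 0 := by omega
    rw [h0, pow_zero] at hJ
    have : 0 < (2 * R + 1) ^ d := by positivity
    omega
  have hRR : 1 ≤ R := by
    have h1 : 1 * 1 ≤ J * R₁ := Nat.mul_le_mul hJ0 (by omega)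
    omega
  obtain ⟨j, hj, hcard⟩ := pigeonf (V := V) (Λ := box 0 N) (E := z - lam) (s := s) (b := b)
    (r₀ := r₀) hJ hJR
  have hjR : j * R₁ + R₁ ≤ R := by
    have h1 : (j + 1) * R₁ ≤ J * R₁ := Nat.mul_le_mul_right _ (by omega)
    rw [Nat.succ_mul] at h1
    omega
  obtain ⟨m, hm⟩ : ∃ m, r₀ + 1 + m = R₁ := ⟨R₁ - (r₀ + 1), by omega⟩
  have hpm : j * R₁ + r₀ + 1 + m = j * R₁ + R₁ := by omega
  have hmR : (R₁ : ℝ) ≤ 2 * m := by exact_mod_cast (by omega : R₁ ≤ 2 * m)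
  obtain ⟨κ, hκ⟩ : ∃ κ : ℝ, κ = cB * η / (16 * d) := ⟨_, rfl⟩
  have hκ0 : 0 ≤ κ := by rw [hκ]; positivity
  have hφ : 16 * d * κ = cB * η := by
    rw [hκ]
    field_simp
  have hκ1' : κ ≤ 1 := by
    rw [hκ, div_le_one (by positivity)]
    have h1 : cB * η ≤ 1 * 1 := mul_le_mul hcB1 hη1 hη.le zero_le_one
    linarith only [hd3, hc50, hc0, h1]
  have hpos : 0 < 64 * 5 ^ d * (4 * (d : ℝ) + 2) ^ 2 := by positivity
  have hηD : η ^ (d + 1) ≤ η * l ^ (((d : ℝ) - 2) / 2) := by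
    rw [pow_succ, mul_comm (η ^ d)]
    refine mul_le_mul_of_nonneg_left ?_ hη.le
    have h1 : η ^ d ≤ l ^ d := pow_le_pow_left₀ hη.le hηl d
    refine le_trans h1 ?_
    rw [← Real.rpow_natCast]
    refine Real.rpow_le_rpow_of_exponent_ge hl0 (by linarith only [hl, hlam1, hμw]) ?_
    linarith only [hd3, hc50, hc0]
  have hnum2 := num_eps2 (d := d) (R := R) (n := j * R₁ + r₀ + 1 + m + 1) (c := cB / 4) (η := η)
    (κ := κ) (s := s) (a := a) (K := 4 * d + 2) hRR (by omega) hη hη1 (by positivity) (by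
      have h1 := le_trans hηc hck
      rw [le_div_iff₀ hpos] at h1
      linarith only [h1]) (m := m) (by
      refine le_trans ?_ hs
      have h1 : (d : ℝ) + 1 ≤ C := by linarith only [hCs, hCm, hd3, hc50, hc0, hC, hC3, hC4]
      calc ((d : ℝ) + 1) * (Real.log (1 / η) + Real.log R) ≤
          C * (Real.log (1 / η) + Real.log R) := mul_le_mul_of_nonneg_right h1 (by linarith only [hL, hlR])
        _ ≤ C * (1 + Real.log (1 / η) + Real.log R) :=
            mul_le_mul_of_nonneg_left (by linarith only [hc50, hc0]) hC0) (by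
      have h1 : (d + 1) * (32 * d) / cB * (a + Real.log (1 / η) + Real.log R) ≤ η * R₁ :=
        le_trans (mul_le_mul_of_nonneg_right hCd (by linarith only [ha, hL, hlR])) hR₁
      have h2 : (cB / (16 * d)) * ((d + 1) * (32 * d) / cB *
          (a + Real.log (1 / η) + Real.log R)) ≤ (cB / (16 * d)) * (η * R₁) :=
        mul_le_mul_of_nonneg_left h1 (by positivity)
      have h3 : (cB / (16 * d)) * ((d + 1) * (32 * d) / cB *
          (a + Real.log (1 / η) + Real.log R)) =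
          2 * ((d + 1) * (a + Real.log (1 / η) + Real.log R)) := by
        field_simp
        ring
      have h4 : (cB / (16 * d)) * (η * R₁) = κ * R₁ := by
        rw [hκ]
        ring
      rw [h3, h4] at h2
      have h5 : a ≤ (d + 1) * a := le_mul_of_one_le_left ha (by linarith only [hd3, hc50, hc0])
      have h6 : κ * R₁ ≤ κ * (2 * m) := mul_le_mul_of_nonneg_left hmR hκ0
      linarith only [h2, h5, h6])
  have hnum3 : 4 * ((2 * ((j * R₁ + r₀ + 1 + m + 1 : ℕ) : ℝ) + 1) ^ d *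
      ((4 * d + 2) * (Real.exp (-s) + Real.exp (a - κ * m))) ^ 2) ≤
        cB * η * l ^ (((d : ℝ) - 2) / 2) / 4 := by
    refine le_trans hnum2 ?_
    calc cB / 4 * η ^ (d + 1) ≤ cB / 4 * (η * l ^ (((d : ℝ) - 2) / 2)) :=
          mul_le_mul_of_nonneg_left hηD (by positivity)
      _ = _ := by ring
  have hηn1 : η * n ≤ 1 := by
    have h1 : η * n ≤ η * (1 + Real.log (1 / η)) * n := by
      refine mul_le_mul_of_nonneg_right ?_ hn0.le
      exact le_mul_of_one_le_right hη.le (by linarith only [hL])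
    linarith only [hc50, hc0, hηn, h1]
  have hr₀n2 : C * (1 + Real.log (1 / η)) * n ≤ (r₀ : ℝ) ^ 2 := by
    refine le_trans ?_ hr₀n
    refine mul_le_mul_of_nonneg_right (mul_le_mul_of_nonneg_left ?_ hC0) hn0.le
    linarith only [hlR]
  have htail : ∀ x : Tor d M, ∑ y, ‖aop (om z μ fun x : Tor d M => V (b + rep x)) (1 / μ) lam
      (fun u => sfn z μ lam (fun x : Tor d M => V (b + rep x)) n x u -
        scf z μ lam (fun x : Tor d M => V (b + rep x)) n r₀ x u) y‖ ^ 2 ≤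
          cB * η * l ^ (((d : ℝ) - 2) / 2) / 4 := by
    intro x
    refine (scf_tail cvb hd1 hz hμ1 hε (by linarith only [hc50, hεc]) hF hn hlam.le (by linarith only [hc50, hc0, hnl]) x).trans ?_
    refine (tail_num (Cf := C) hn hcB hη hη1 hηn1 hC5 hC6 hr₀n2).trans ?_
    calc cB / 4 * η ^ (d + 1) ≤ cB / 4 * (η * l ^ (((d : ℝ) - 2) / 2)) :=
          mul_le_mul_of_nonneg_left hηD (by positivity)
      _ = _ := by ring
  have hsrc2 := fun x : Tor d M => hsrc M z μ ε lam (fun x : Tor d M => V (b + rep x)) n x hz hμ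
    hε (by linarith only [hc50, hεc]) hF hlam.le hnlm hnM hn
  have hboxS : Sf V (box 0 N) (z - lam) s b R₁ r₀ (j + 1) ⊆ box b (j * R₁ + r₀ + 1 + m) := by
    intro y hy
    have h1 := Sf_box (j + 1) hy
    rw [Nat.succ_mul] at h1
    rw [hpm]
    exact h1
  have hsys := sysT_off (M := M) (V := V) (Λ := box 0 N) (z := z) (lam := lam) (w := w) (l := l)
    (η := η) (τ := τ) (κ := κ) (s := s) (a := a) (A' := A') (cB := cB)
    (D₀ := l ^ (((d : ℝ) - 2) / 2)) (b := b) (p := j * R₁) (r₀ := r₀) (m := m) (R := R) (n := n)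
    (C := Sf V (box 0 N) (z - lam) s b R₁ r₀ j)
    (C' := Sf V (box 0 N) (z - lam) s b R₁ r₀ (j + 1))
    hμ hz hε (by linarith only [hc50, hεc]) hF hsrc2 htail hCs0.le hsA hn hlam.le hlam1 hκ0 hκ1' hφ hR (by omega)
    (fun y hy => hbox (box_mono b (by omega) hy)) (Sf_self j) (Sf_box j) (by omega) (Sf_sub j)
    (by
      intro y hy
      rw [mem_Sf_succ]
      rw [hpm] at hy
      exact Or.inl hy) hboxS
    (by
      intro x hx y hxy
      rw [mem_Sf_succ]
      refine Or.inr ⟨?_, x, hx, hxy⟩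
      rw [mem_box]
      have h1 := mem_box.1 (Sf_box j hx)
      have h2 := sd_triangle b x y
      omega) hcard hdet
    (fun x hx y hy => hG x (box_mono b (by omega) hx) y (box_mono b (by omega) hy)) hnum3 hW
  have hT1' : 1 ≤ T := by
    refine le_trans ?_ hT1
    rw [le_div_iff₀ hη]
    linarith only [hcc₁, hηc]
  have hc₁η : 0 ≤ c₁ / η := by positivity
  have hR2 : 2 * R + 5 ≤ M := by omega
  have hC'R : Sf V (box 0 N) (z - lam) s b R₁ r₀ (j + 1) ⊆ box b R := fun y hy =>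
    box_mono b (by omega) (hboxS hy)
  have hfin := hble M (2 * R) _ _ _ _ _ _ _ _ _ _ _ _ _ _ T Kq _ _ _ _ _ _ _ q hnum hsys hT1
    (le_trans hT2 (mul_le_mul_of_nonneg_right hAA hc₁η)) hT1' hKq.le
    (tst_mono hA hAA hD0.le hT1' hq) (by
      intro x hx y hy
      rw [mem_im hR2 hC'R] at hx hy
      exact tds_lf (mem_box.1 (hC'R hx)) (mem_box.1 (hC'R hy)))
  rw [card_im hR2 hC'R] at hfin
  have h1 : (Sf V (box 0 N) (z - lam) s b R₁ r₀ (j + 1)).card ≤
      (rch V (box 0 N) (z - lam) s b R (J * (d * r₀ + 1))).card := by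
    refine Finset.card_le_card ?_
    intro y hy
    refine rch_mono (Nat.mul_le_mul_right _ (by omega : j + 1 ≤ J)) (Sf_rch ?_ (j + 1) ?_ hy)
    · intro x hx i
      exact hnb x (box_mono b (Nat.le_succ R) hx) i
    · rw [Nat.succ_mul]
      exact hjR
  have h2 : ((Sf V (box 0 N) (z - lam) s b R₁ r₀ (j + 1)).card : ℝ) ≤
      (rch V (box 0 N) (z - lam) s b R (J * (d * r₀ + 1))).card := by exact_mod_cast h1
  rw [div_le_iff₀ (by positivity)]
  exact le_trans hfin (mul_le_mul_of_nonneg_right h2 (by positivity))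

end Pool.Agent.LE.IR.H56
end
end -- Pool.Agent.Helper56_LIR.CLF
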