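import Pool.Agent.Helper12_MEB.B087
import Pool.Agent.Helper12_MEB.B096
import Pool.Agent.Helper12_MEB.B118

/-!
# Merged copies (generated) of the modules

* `Pool.Agent.Helper60_LQY.Base`
* `Pool.Agent.Helper47_LQY.TSM`
* `Pool.Agent.Helper47_LQY.LOC`
* `Pool.Agent.Helper60_LQY.MAZ`
* `Pool.Agent.Helper60_LQY.SMZ`
-/

set_option autoImplicit false

section -- Pool.Agent.Helper60_LQY.Base

/-!
# Squad LQY (MP_1906c1_mp), rows SMZ and MAZ: common part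
-/

set_option autoImplicit false

open MeasureTheory ProbabilityTheory Function Filter

open scoped ENNReal BigOperators Topology NNReal ComplexOrder Matrix

noncomputable section

namespace Pool.Agent.LE.QY.H60

open Pool.Agent.Anderson hiding box mem_box card_box
open Pool.Agent.Loc Pool.Agent.Mob Pool.Agent.Helper54.Bal
  Pool.Agent.Helper96.EXP Pool.Agent.BED
open Pool.Agent.LE.MN Pool.Agent.LE.CL Pool.Agent.LE.IR Pool.Agent.LE.QD Pool.Agent.LE.QF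

/-! ### Numbers -/

theorem nums {θ₀ : ℝ} (hθ : 0 < θ₀) : ∃ c₁ : ℝ, 0 < c₁ ∧ c₁ ≤ 1 / 4 ∧ ∀ s T : ℝ, 0 < s → s ≤ c₁ →
    s ^ (-3 : ℝ) ≤ T → T ≤ Real.exp (s ^ (-(θ₀ / 2))) →
    64 ≤ T ∧ 1 ≤ T * s ^ 3 ∧ 1 / T ≤ s ^ 3 ∧
    ∃ M L : ℕ, M ≠ 0 ∧ 1 ≤ L ∧ 4 * L + 9 ≤ M ∧ T ^ 2 ≤ s ^ 4 * M ∧ T ^ 2 ≤ 8 * s ^ 4 * L ∧
      s ^ (-5 : ℝ) ≤ M ∧ (M : ℝ) ≤ Real.exp (s ^ (-θ₀)) ∧
      ∀ (d : ℕ) (ε : ℝ), 3 ≤ d → ε ≤ 1 → s ^ (-ε) ≤ 1 / T * (M : ℝ) ^ d := by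
  obtain ⟨K, hK⟩ : ∃ K : ℝ, K = 3 + 8 / θ₀ := ⟨_, rfl⟩
  have hK3 : 3 ≤ K := by
    rw [hK]
    have : 0 < 8 / θ₀ := by positivity
    linarith
  have hK0 : 0 < K := by linarith only [hK3]
  refine ⟨min (1 / 4) (K ^ (-(2 / θ₀))), lt_min (by norm_num) (Real.rpow_pos_of_pos hK0 _),
    min_le_left _ _, ?_⟩
  intro s T hs hsc hT hTe
  have hs4 : s ≤ 1 / 4 := hsc.trans (min_le_left _ _)
  have hs1 : s ≤ 1 := by linarith only [hs, hs4]
  have hsK : s ≤ K ^ (-(2 / θ₀)) := hsc.trans (min_le_right _ _)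
  obtain ⟨u, hu⟩ : ∃ u : ℝ, u = s ^ (-(θ₀ / 2)) := ⟨_, rfl⟩
  have huK : K ≤ u := by
    have h1 : (K ^ (-(2 / θ₀))) ^ (-(θ₀ / 2)) ≤ s ^ (-(θ₀ / 2)) :=
      Real.rpow_le_rpow_of_nonpos hs hsK (by
        have : 0 < θ₀ / 2 := by positivity
        linarith only [hθ])
    have h2 : (K ^ (-(2 / θ₀))) ^ (-(θ₀ / 2)) = K := by
      rw [← Real.rpow_mul hK0.le]
      have : -(2 / θ₀) * -(θ₀ / 2) = 1 := by
        field_simp
      rw [this, Real.rpow_one]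
    rw [hu, ← h2]
    exact h1
  have hu2 : u ^ 2 = s ^ (-θ₀) := by
    rw [hu, ← Real.rpow_natCast, ← Real.rpow_mul hs.le]
    congr 1
    push_cast
    ring
  rw [← hu] at hTe
  have hs3 : s ^ (-3 : ℝ) = (s ^ 3)⁻¹ := by
    rw [Real.rpow_neg hs.le]
    congr 1
    exact_mod_cast Real.rpow_natCast s 3
  have hs5 : s ^ (-5 : ℝ) = (s ^ 5)⁻¹ := by
    rw [Real.rpow_neg hs.le]
    congr 1
    exact_mod_cast Real.rpow_natCast s 5
  rw [hs3] at hT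
  have hp3 : 0 < s ^ 3 := by positivity
  have hT3 : 1 ≤ T * s ^ 3 := by
    have := mul_le_mul_of_nonneg_right hT hp3.le
    rwa [inv_mul_cancel₀ hp3.ne'] at this
  have hs64 : s ^ 3 ≤ 1 / 64 := by
    have := pow_le_pow_left₀ hs.le hs4 3
    norm_num at this ⊢
    exact this
  have hT0 : 0 < T := by
    by_contra h
    push Not at h
    nlinarith only [hp3, hT3, hs64, h]
  have hT64 : 64 ≤ T := by nlinarith only [hp3, hT3, hs64]
  refine ⟨hT64, hT3, ?_, ?_⟩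
  · rw [div_le_iff₀ hT0, mul_comm]
    exact hT3
  have hp4 : 0 < s ^ 4 := by positivity
  have hs44 : s ^ 4 ≤ 1 := pow_le_one₀ hs.le hs1
  obtain ⟨M, hM⟩ : ∃ M : ℕ, M = ⌈T ^ 2 / s ^ 4⌉₊ := ⟨_, rfl⟩
  have hM1 : T ^ 2 / s ^ 4 ≤ M := by
    rw [hM]
    exact Nat.le_ceil _
  have hM2 : (M : ℝ) ≤ T ^ 2 / s ^ 4 + 1 := by
    rw [hM]
    exact (Nat.ceil_lt_add_one (by positivity)).le
  have hTs : 4096 ≤ T ^ 2 / s ^ 4 := by
    rw [le_div_iff₀ hp4]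
    nlinarith only [hT3, hs64, hT0, hT64, hs44]
  have hM3 : T ^ 2 ≤ s ^ 4 * M := by
    rw [div_le_iff₀ hp4] at hM1
    rw [mul_comm]
    exact hM1
  have hMb : (4096 : ℝ) ≤ M := hTs.trans hM1
  have hMn : 4096 ≤ M := by exact_mod_cast hMb
  obtain ⟨L, hL⟩ : ∃ L : ℕ, L = (M - 9) / 4 := ⟨_, rfl⟩
  have hL8 : M ≤ 8 * L := by omega
  have hL8' : (M : ℝ) ≤ 8 * L := by exact_mod_cast hL8
  refine ⟨M, L, by omega, by omega, by omega, hM3, ?_, ?_, ?_, ?_⟩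
  · calc T ^ 2 ≤ s ^ 4 * M := hM3
      _ ≤ s ^ 4 * (8 * L) := by gcongr
      _ = _ := by ring
  · rw [hs5, inv_le_iff_one_le_mul₀ (by positivity)]
    have h1 : 1 ≤ s * T := by
      have h2 : T * s ^ 3 = s * T * s ^ 2 := by ring
      rw [h2] at hT3
      have h3 : s ^ 2 ≤ 1 := pow_le_one₀ hs.le hs1
      have h4 : 0 < s * T := by positivity
      nlinarith only [hs, hs4, hp3, hT3, hs64]
    calc (1 : ℝ) ≤ s * T * T := by nlinarith only [hp3, hT3, hs64, h1]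
      _ = s * T ^ 2 := by ring
      _ ≤ s * (s ^ 4 * M) := by gcongr
      _ = M * s ^ 5 := by ring
  · rw [← hu2]
    have h1 : (M : ℝ) ≤ 2 * (T ^ 2 / s ^ 4) := by linarith only [hp3, hs64, hM2, hTs]
    have h2 : T ^ 2 ≤ Real.exp (2 * u) := by
      have := pow_le_pow_left₀ hT0.le hTe 2
      rw [← Real.exp_nat_mul] at this
      exact_mod_cast this
    have h3 : 1 / s ^ 4 ≤ Real.exp (8 / θ₀ * u) := by
      have h4 : Real.log (1 / s) ≤ (1 / s) ^ (θ₀ / 2) / (θ₀ / 2) :=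
        Real.log_le_rpow_div (by positivity) (by positivity)
      have h5 : (1 / s) ^ (θ₀ / 2) = u := by
        rw [hu, one_div, Real.inv_rpow hs.le, Real.rpow_neg hs.le]
      rw [h5] at h4
      have h6 : 1 / s ^ 4 = Real.exp (4 * Real.log (1 / s)) := by
        have h7 := Real.exp_nat_mul (Real.log (1 / s)) 4
        rw [Real.exp_log (by positivity)] at h7
        push_cast at h7
        rw [h7]
        ring
      rw [h6]
      apply Real.exp_le_exp.2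
      calc 4 * Real.log (1 / s) ≤ 4 * (u / (θ₀ / 2)) := by linarith only [h4]
        _ = 8 / θ₀ * u := by
          field_simp
          ring
    have h8 : (2 : ℝ) ≤ Real.exp 1 := by
      have := Real.add_one_le_exp (1 : ℝ)
      linarith only [this]
    have hu1 : 1 ≤ u := by linarith only [hK3, huK, hp3, hs64]
    calc (M : ℝ) ≤ 2 * (T ^ 2 / s ^ 4) := h1
      _ = 2 * (T ^ 2 * (1 / s ^ 4)) := by ring
      _ ≤ Real.exp 1 * (Real.exp (2 * u) * Real.exp (8 / θ₀ * u)) := by gcongr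
      _ = Real.exp (1 + (2 * u + 8 / θ₀ * u)) := by rw [Real.exp_add, Real.exp_add]
      _ ≤ Real.exp (u ^ 2) := by
        apply Real.exp_le_exp.2
        have h9 : K * u ≤ u * u := by gcongr
        rw [hK] at h9
        nlinarith only [hK3, huK, hp3, hs64, h9]
  · intro d ε hd hε
    have h1 : s ^ (-ε) ≤ s ^ (-1 : ℝ) :=
      Real.rpow_le_rpow_of_exponent_ge hs hs1 (by linarith only [hε])
    have h2 : s ^ (-1 : ℝ) = 1 / s := by
      rw [Real.rpow_neg_one, one_div]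
    have hM1' : (1 : ℝ) ≤ M := by linarith only [hp3, hs64, hM1, hTs]
    have h3 : (M : ℝ) ≤ (M : ℝ) ^ d := by
      calc (M : ℝ) = (M : ℝ) ^ 1 := (pow_one _).symm
        _ ≤ (M : ℝ) ^ d := pow_le_pow_right₀ hM1' (by omega)
    have h4 : 1 / s ≤ T := by
      rw [div_le_iff₀ hs]
      have h5 : T * s ^ 3 = T * s * s ^ 2 := by ring
      rw [h5] at hT3
      have h6 : s ^ 2 ≤ 1 := pow_le_one₀ hs.le hs1
      have h7 : 0 < T * s := by positivity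
      nlinarith only [hs, hs4, hp3, hT3, hs64]
    have h5 : T ≤ 1 / T * M := by
      rw [one_div, ← div_eq_inv_mul, le_div_iff₀ hT0]
      have : s ^ 4 * M ≤ 1 * M := by gcongr
      nlinarith only [hM3, this]
    calc s ^ (-ε) ≤ 1 / s := by rw [← h2]; exact h1
      _ ≤ T := h4
      _ ≤ 1 / T * M := h5
      _ ≤ 1 / T * (M : ℝ) ^ d := by gcongr

/-! ### The law -/

theorem lin_eq {d M : ℕ} [NeZero M] {σ : ℝ} (hσ : σ ≠ 0) {v : ℝ≥0} (hv : (v : ℝ) = σ ^ 2)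
    (b : Site d) (F : (Tor d M → ℝ) → ℝ≥0∞) (hF : Measurable F) :
    ∫⁻ V, F (fun x : Tor d M => V (b + rep x)) ∂(PP d (gl σ)) = ∫⁻ U, F U ∂(gau d M v) := by
  set f : (Site d → ℝ) → (Tor d M → ℝ) := fun V x => V (b + rep x) with hf
  have hfm : Measurable f := measurable_pi_lambda _ fun x => measurable_pi_apply _
  have h4 := H73.lawT d M (Site d → ℝ) (PP d (gl σ)) (H86.xi σ b) (H86.measurable_xi σ b)
    (H86.map_xi hσ b) (H86.indep_xi b) σ v hv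
  have h5 : (fun (V : Site d → ℝ) (x : Tor d M) => σ * H86.xi σ b (rep x) V) = f := by
    funext V x
    simp only [H86.xi, hf]
    field_simp
  rw [h5] at h4
  rw [← h4, lintegral_map hF hfm]

theorem meas_rs {d M : ℕ} [NeZero M] {z : ℂ} (hz : 0 < z.im) (x y : Tor d M) :
    Measurable fun V : Tor d M → ℝ => ‖rs V z x y‖ ^ 2 :=
  (((QD.H76.cont z hz.ne' x y).norm).pow 2).measurable

/-! ### Geometry -/

theorem ti_zero {d M : ℕ} : ti M (0 : Site d) 0 = 0 := by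
  funext i
  unfold ti
  simp

theorem ti_inj {d M : ℕ} [NeZero M] {L : ℕ} (hM : 2 * L + 1 ≤ M) {x y : Site d}
    (hx : x ∈ box 0 L) (hy : y ∈ box 0 L) (h : ti M 0 x = ti M 0 y) : x = y := by
  rw [mem_box] at hx hy
  rw [← QX.H90.rep_ti hM hx, h, QX.H90.rep_ti hM hy]

theorem sum_ti {d M : ℕ} [NeZero M] {L : ℕ} (hM : 2 * L + 1 ≤ M) (A : Finset (Site d))
    (hA : A ⊆ box 0 L) (f : Tor d M → ℝ) (hf : ∀ y, 0 ≤ f y) :
    ∑ x ∈ A, f (ti M 0 x) ≤ ∑ y, f y := by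
  classical
  rw [← Finset.sum_image (s := A) (f := f) (g := fun x => ti M 0 x)
    (fun x hx y hy h => ti_inj hM (hA hx) (hA hy) h)]
  exact Finset.sum_le_sum_of_subset_of_nonneg (Finset.subset_univ _) (fun y _ _ => hf y)

theorem vma {d M : ℕ} [NeZero M] {L : ℕ} (hM : 2 * L + 1 ≤ M) {x : Site d}
    (hx : x ∈ box 0 L) (i : Fin d) : (ti M 0 x i).valMinAbs = x i := by
  rw [mem_box] at hx
  exact congrFun (QX.H90.rep_ti hM hx) i

theorem vma' {d M : ℕ} [NeZero M] {L : ℕ} (hM : 2 * L + 1 ≤ M) {x : Site d}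
    (hx : x ∈ box 0 L) (i : Fin d) :
    ((((0 - ti M 0 x) i).valMinAbs : ℤ) : ℝ) ^ 2 = (x i : ℝ) ^ 2 := by
  have h1 : (0 - ti M 0 x : Tor d M) i = -(ti M 0 x i) := by
    rw [Pi.sub_apply, Pi.zero_apply, zero_sub]
  rw [h1, ← vma hM hx i]
  have h2 := ZMod.natAbs_valMinAbs_neg (ti M 0 x i)
  have h3 := Int.natAbs_eq_natAbs_iff.1 h2
  rcases h3 with h | h
  · rw [h]
  · rw [h]
    push_cast
    ring

theorem sd_sq {d : ℕ} (hd : 1 ≤ d) (x : Site d) : (sd 0 x : ℝ) ^ 2 ≤ ∑ i, (x i : ℝ) ^ 2 := by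
  have : NeZero d := ⟨by omega⟩
  obtain ⟨i, hi⟩ := exists_sd_eq (0 : Site d) x
  have h1 : ((sd 0 x : ℤ) : ℝ) = |(x i : ℝ)| := by
    rw [hi]
    push_cast
    rw [Pi.zero_apply, Int.cast_zero, zero_sub, abs_neg]
  have h2 : (sd 0 x : ℝ) ^ 2 = (x i : ℝ) ^ 2 := by
    have : (sd 0 x : ℝ) = |(x i : ℝ)| := by exact_mod_cast h1
    rw [this, sq_abs]
  rw [h2]
  exact Finset.single_le_sum (f := fun i => (x i : ℝ) ^ 2) (fun j _ => by positivity)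
    (Finset.mem_univ i)

theorem nsq (a b : ℂ) : ‖a‖ ^ 2 ≤ 2 * ‖b‖ ^ 2 + 2 * ‖a - b‖ ^ 2 := by
  have h1 : ‖a‖ ≤ ‖b‖ + ‖a - b‖ := by
    have := norm_add_le b (a - b)
    rwa [add_sub_cancel] at this
  have h2 := norm_nonneg a
  nlinarith only [sq_nonneg (‖b‖ - ‖a - b‖), norm_nonneg b, norm_nonneg (a - b), h1, h2]

/-- the comparison, with the origin -/
theorem ltt0 {d M : ℕ} [NeZero M] {C : ℝ} {L : ℕ} (V : Site d → ℝ) {E η : ℝ}
    (h : ∑ y ∈ box 0 L, ‖G V ⟨E, η⟩ (del ((0 : Site d) + 0)) (0 + y) -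
        rs (fun p : Tor d M => V (0 + rep p)) ⟨E, η⟩ (ti M 0 0) (ti M 0 y)‖ ^ 2 ≤
          C / ((L : ℝ) ^ 6 * η ^ 8)) :
    ∑ y ∈ box 0 L, ‖G V ⟨E, η⟩ (del 0) y -
        rs (fun p : Tor d M => V (0 + rep p)) ⟨E, η⟩ 0 (ti M 0 y)‖ ^ 2 ≤
          C / ((L : ℝ) ^ 6 * η ^ 8) := by
  refine le_trans (le_of_eq ?_) h
  refine Finset.sum_congr rfl fun y _ => ?_
  rw [add_zero, zero_add, ti_zero]

end Pool.Agent.LE.QY.H60
end
end -- Pool.Agent.Helper60_LQY.Base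

section -- Pool.Agent.Helper47_LQY.TSM

/-!
# Squad LQY, row TSM (helper47): the second moment on the torus
-/

set_option autoImplicit false

open MeasureTheory ProbabilityTheory Function Filter

open scoped ENNReal BigOperators Topology NNReal ComplexOrder Matrix

noncomputable section

namespace Pool.Agent.LE.QY.H47

open Pool.Agent.Anderson hiding box mem_box card_box
open Pool.Agent.Loc Pool.Agent.Mob Pool.Agent.Helper54.Bal
  Pool.Agent.Helper96.EXP Pool.Agent.BED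
open Pool.Agent.LE.MN Pool.Agent.LE.CL Pool.Agent.LE.IR Pool.Agent.LE.QD Pool.Agent.LE.QF

/-! ### numbers -/

/-- negative powers are large -/
theorem pow_big (θ A : ℝ) (hθ : 0 < θ) (hA : 0 < A) :
    ∃ c : ℝ, 0 < c ∧ ∀ s : ℝ, 0 < s → s ≤ c → A ≤ s ^ (-θ) := by
  refine ⟨A ^ (-(1 / θ)), Real.rpow_pos_of_pos hA _, fun s hs hsc => ?_⟩
  have h1 : (A ^ (-(1 / θ))) ^ (-θ) = A := by
    rw [← Real.rpow_mul hA.le]
    have : -(1 / θ) * -θ = 1 := by field_simp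
    rw [this, Real.rpow_one]
  calc A = (A ^ (-(1 / θ))) ^ (-θ) := h1.symm
    _ ≤ s ^ (-θ) := Real.rpow_le_rpow_of_nonpos hs hsc (by linarith only [hθ])

theorem pow_anti {s θ θ' : ℝ} (hs : 0 < s) (hs1 : s ≤ 1) (h : θ ≤ θ') : s ^ (-θ) ≤ s ^ (-θ') :=
  Real.rpow_le_rpow_of_exponent_ge hs hs1 (by linarith)

/-- layer cake with powers of two -/
theorem layer (K : ℕ) (x : ℝ) (hx : x ≤ 2 ^ K) :
    x ≤ 1 + ∑ k ∈ Finset.range K, if (2 : ℝ) ^ k < x then (2 : ℝ) ^ k else 0 := by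
  induction K with
  | zero =>
    rw [pow_zero] at hx
    rw [Finset.range_zero, Finset.sum_empty, add_zero]
    exact hx
  | succ K ih =>
    rw [Finset.sum_range_succ]
    by_cases h : (2 : ℝ) ^ K < x
    · rw [if_pos h]
      have h1 : ∑ k ∈ Finset.range K, (2 : ℝ) ^ k ≤
          ∑ k ∈ Finset.range K, if (2 : ℝ) ^ k < x then (2 : ℝ) ^ k else 0 := by
        refine Finset.sum_le_sum fun k hk => ?_
        have h2 : (2 : ℝ) ^ k < x := by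
          refine lt_of_le_of_lt ?_ h
          exact pow_le_pow_right₀ one_le_two (Finset.mem_range.1 hk).le
        rw [if_pos h2]
      have h3 : ∑ k ∈ Finset.range K, (2 : ℝ) ^ k = 2 ^ K - 1 := by
        have := geom_sum_eq (x := (2 : ℝ)) (by norm_num) K
        rw [this]
        norm_num
      rw [pow_succ] at hx
      linarith
    · rw [if_neg h, add_zero]
      exact ih (not_lt.1 h)

variable {d M : ℕ} [NeZero M]

theorem card_tor' (d M : ℕ) [NeZero M] : Fintype.card (Tor d M) = M ^ d := by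
  have : Fintype.card (Tor d M) = Fintype.card (Fin d → ZMod M) := rfl
  rw [this, Fintype.card_fun, ZMod.card, Fintype.card_fin]

/-- the sum at `a` -/
def f2 (V : Tor d M → ℝ) (z : ℂ) (i : Fin d) (a : Tor d M) : ℝ :=
  ∑ y, ‖rs V z a y‖ ^ 2 * (((a - y) i).valMinAbs : ℝ) ^ 2

theorem f2_nn (V : Tor d M → ℝ) (z : ℂ) (i : Fin d) (a : Tor d M) : 0 ≤ f2 V z i a :=
  Finset.sum_nonneg fun _ _ => by positivity

theorem f2_tr (V : Tor d M → ℝ) (z : ℂ) (i : Fin d) (a : Tor d M) :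
    f2 (tr a V) z i 0 = f2 V z i a := by
  unfold f2
  rw [← Equiv.sum_comp (Equiv.addLeft a)
    (fun y => ‖rs V z a y‖ ^ 2 * (((a - y) i).valMinAbs : ℝ) ^ 2)]
  refine Finset.sum_congr rfl fun y _ => ?_
  rw [QD.H76.transl, add_zero, Equiv.coe_addLeft]
  have h1 : (0 : Tor d M) - y = a - (a + y) := by abel
  rw [h1]

theorem f2_meas {z : ℂ} (hz : z.im ≠ 0) (i : Fin d) (a : Tor d M) :
    Measurable fun V : Tor d M → ℝ => f2 V z i a := by
  unfold f2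
  refine Finset.measurable_sum _ fun y _ => ?_
  exact (((QD.H76.cont z hz a y).norm.pow 2).measurable).mul_const _

theorem f2_bd (V : Tor d M → ℝ) {z : ℂ} (hz : 0 < z.im) (i : Fin d) (a : Tor d M) :
    f2 V z i a ≤ (M : ℝ) ^ 2 / z.im ^ 2 := by
  have h1 : ∀ y : Tor d M, (((a - y) i).valMinAbs : ℝ) ^ 2 ≤ (M : ℝ) ^ 2 := by
    intro y
    have h2 := ZMod.natAbs_valMinAbs_le ((a - y) i)
    have h3 : (((a - y) i).valMinAbs.natAbs : ℝ) ≤ (M : ℝ) := by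
      exact_mod_cast le_trans h2 (Nat.div_le_self M 2)
    have h4 : (((a - y) i).valMinAbs : ℝ) ^ 2 = (((a - y) i).valMinAbs.natAbs : ℝ) ^ 2 := by
      rw [Nat.cast_natAbs, Int.cast_abs, sq_abs]
    rw [h4]
    exact pow_le_pow_left₀ (Nat.cast_nonneg _) h3 2
  have h5 : f2 V z i a ≤ (∑ y, ‖rs V z a y‖ ^ 2) * (M : ℝ) ^ 2 := by
    unfold f2
    rw [Finset.sum_mul]
    exact Finset.sum_le_sum fun y _ => mul_le_mul_of_nonneg_left (h1 y) (by positivity)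
  have h6 : ∑ y, ‖rs V z a y‖ ^ 2 ≤ 1 / z.im ^ 2 := by
    rw [QD.H76.row V hz a]
    have h7 : (rs V z a a).im ≤ 1 / z.im :=
      (le_abs_self _).trans ((Complex.abs_im_le_norm _).trans (QD.H76.entry_bd V hz a a))
    calc (rs V z a a).im / z.im ≤ (1 / z.im) / z.im := div_le_div_of_nonneg_right h7 hz.le
      _ = 1 / z.im ^ 2 := by rw [div_div, sq]
  calc f2 V z i a ≤ (∑ y, ‖rs V z a y‖ ^ 2) * (M : ℝ) ^ 2 := h5
    _ ≤ 1 / z.im ^ 2 * (M : ℝ) ^ 2 := mul_le_mul_of_nonneg_right h6 (by positivity)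
    _ = (M : ℝ) ^ 2 / z.im ^ 2 := by ring

/-- the mean of the sum at `0` -/
theorem avg (v : ℝ≥0) {z : ℂ} (hz : z.im ≠ 0) (i : Fin d) :
    ((M ^ d : ℕ) : ℝ≥0∞) * ∫⁻ V, ENNReal.ofReal (f2 V z i 0) ∂(gau d M v) =
      ∫⁻ V, ENNReal.ofReal (∑ a, f2 V z i a) ∂(gau d M v) := by
  have h1 : ∀ a : Tor d M, ∫⁻ V, ENNReal.ofReal (f2 V z i a) ∂(gau d M v) =
      ∫⁻ V, ENNReal.ofReal (f2 V z i 0) ∂(gau d M v) := by
    intro a
    have hmp : MeasurePreserving (tr a) (gau d M v) (gau d M v) :=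
      (Pool.Agent.BED.H61.cov d M 0 0 a).2.2.2.2.2 v
    rw [← hmp.lintegral_comp (f2_meas hz i 0).ennreal_ofReal]
    refine lintegral_congr fun V => ?_
    rw [f2_tr]
  have h2 : ∀ V : Tor d M → ℝ, ENNReal.ofReal (∑ a, f2 V z i a) =
      ∑ a, ENNReal.ofReal (f2 V z i a) := fun V =>
    ENNReal.ofReal_sum_of_nonneg fun a _ => f2_nn V z i a
  simp only [h2]
  rw [lintegral_finsetSum _ fun a _ => (f2_meas hz i a).ennreal_ofReal]
  simp only [h1]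
  rw [Finset.sum_const, Finset.card_univ, card_tor', nsmul_eq_mul]

/-- the bound of a mean by the probabilities -/
theorem mean_le {Ω : Type} [MeasurableSpace Ω] (P : Measure Ω) [IsProbabilityMeasure P]
    (F : Ω → ℝ) (hF : Measurable F) (D C e0 : ℝ) (hD : 0 < D) (hC : 0 ≤ C) (he : 0 ≤ e0) (K : ℕ)
    (hK : ∀ w, F w ≤ D * 2 ^ K)
    (hP : ∀ k : ℕ, k < K → P {w | D * 2 ^ k < F w} ≤ ENNReal.ofReal (C / 2 ^ k + e0)) :
    ∫⁻ w, ENNReal.ofReal (F w) ∂P ≤ ENNReal.ofReal (D * (1 + K * C + 2 ^ K * e0)) := by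
  have h1 : ∀ w, ENNReal.ofReal (F w) ≤ ENNReal.ofReal D * (1 + ∑ k ∈ Finset.range K,
      ({w | D * 2 ^ k < F w} : Set Ω).indicator (fun _ => (2 : ℝ≥0∞) ^ k) w) := by
    intro w
    have h2 := layer K (F w / D) (by
      rw [div_le_iff₀ hD, mul_comm]
      exact hK w)
    have h3 : F w ≤ D * (1 + ∑ k ∈ Finset.range K,
        if (2 : ℝ) ^ k < F w / D then (2 : ℝ) ^ k else 0) := by
      calc F w = D * (F w / D) := by field_simp
        _ ≤ _ := mul_le_mul_of_nonneg_left h2 hD.le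
    refine (ENNReal.ofReal_le_ofReal h3).trans (le_of_eq ?_)
    have hnn : ∀ k : ℕ, (0 : ℝ) ≤ if (2 : ℝ) ^ k < F w / D then (2 : ℝ) ^ k else 0 := by
      intro k
      split_ifs
      · positivity
      · exact le_rfl
    rw [ENNReal.ofReal_mul hD.le, ENNReal.ofReal_add zero_le_one
      (Finset.sum_nonneg fun k _ => hnn k), ENNReal.ofReal_one,
      ENNReal.ofReal_sum_of_nonneg fun k _ => hnn k]
    congr 2
    refine Finset.sum_congr rfl fun k _ => ?_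
    have h4 : ((2 : ℝ) ^ k < F w / D) ↔ (w ∈ ({w | D * 2 ^ k < F w} : Set Ω)) := by
      rw [lt_div_iff₀ hD, mul_comm]
      rfl
    by_cases h5 : w ∈ ({w | D * 2 ^ k < F w} : Set Ω)
    · rw [if_pos (h4.2 h5), Set.indicator_of_mem h5, ENNReal.ofReal_pow (by norm_num)]
      norm_num
    · rw [if_neg fun h => h5 (h4.1 h), Set.indicator_of_notMem h5, ENNReal.ofReal_zero]
  have hms : ∀ k : ℕ, MeasurableSet {w | D * 2 ^ k < F w} := fun k =>
    measurableSet_lt measurable_const hF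
  calc ∫⁻ w, ENNReal.ofReal (F w) ∂P
      ≤ ∫⁻ w, ENNReal.ofReal D * (1 + ∑ k ∈ Finset.range K,
          ({w | D * 2 ^ k < F w} : Set Ω).indicator (fun _ => (2 : ℝ≥0∞) ^ k) w) ∂P :=
        lintegral_mono h1
    _ = ENNReal.ofReal D * (1 + ∑ k ∈ Finset.range K, 2 ^ k * P {w | D * 2 ^ k < F w}) := by
        rw [lintegral_const_mul, lintegral_add_left measurable_const, lintegral_const,
          measure_univ, mul_one, lintegral_finsetSum]
        · congr 2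
          refine Finset.sum_congr rfl fun k _ => ?_
          rw [lintegral_indicator (hms k), setLIntegral_const]
        · intro k _
          exact measurable_const.indicator (hms k)
        · exact Measurable.add (f := fun _ => (1 : ℝ≥0∞)) measurable_const
            (Finset.measurable_sum _ fun k _ => measurable_const.indicator (hms k))
    _ ≤ ENNReal.ofReal D * (1 + ∑ k ∈ Finset.range K, ENNReal.ofReal (C + 2 ^ k * e0)) := by
        gcongr with k hk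
        refine (mul_le_mul_right (hP k (Finset.mem_range.1 hk)) _).trans (le_of_eq ?_)
        have h2k : (2 : ℝ≥0∞) ^ k = ENNReal.ofReal ((2 : ℝ) ^ k) := by
          rw [ENNReal.ofReal_pow (by norm_num)]
          norm_num
        rw [h2k, ← ENNReal.ofReal_mul (by positivity)]
        congr 1
        field_simp
    _ = ENNReal.ofReal (D * (1 + ∑ k ∈ Finset.range K, (C + 2 ^ k * e0))) := by
        rw [ENNReal.ofReal_mul hD.le, ENNReal.ofReal_add zero_le_one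
          (Finset.sum_nonneg fun k _ => by positivity), ENNReal.ofReal_one,
          ENNReal.ofReal_sum_of_nonneg fun k _ => by positivity]
    _ ≤ ENNReal.ofReal (D * (1 + K * C + 2 ^ K * e0)) := by
        refine ENNReal.ofReal_le_ofReal (mul_le_mul_of_nonneg_left ?_ hD.le)
        rw [Finset.sum_add_distrib, Finset.sum_const, Finset.card_range, nsmul_eq_mul,
          ← Finset.sum_mul]
        have h3 : ∑ k ∈ Finset.range K, (2 : ℝ) ^ k = 2 ^ K - 1 := by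
          have := geom_sum_eq (x := (2 : ℝ)) (by norm_num) K
          rw [this]
          norm_num
        rw [h3]
        nlinarith only [he]

/-- the numbers of the dyadic sum -/
theorem nums (s C e0 : ℝ) (hs : 4 ≤ s) (hC : 1 ≤ C) (he : e0 ≤ Real.exp (-(s ^ 2))) :
    Real.exp s ^ 2 ≤ 2 ^ ⌈3 * s⌉₊ ∧
      1 + (⌈3 * s⌉₊ : ℝ) * C + 2 ^ ⌈3 * s⌉₊ * e0 ≤ 4 * C * s := by
  obtain ⟨K, hK⟩ : ∃ K : ℕ, K = ⌈3 * s⌉₊ := ⟨_, rfl⟩
  rw [← hK]
  have h1 : 3 * s ≤ K := by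
    rw [hK]
    exact Nat.le_ceil _
  have h2 : (K : ℝ) ≤ 3 * s + 1 := by
    rw [hK]
    exact (Nat.ceil_lt_add_one (by linarith only [hs])).le
  have h3 : (2 : ℝ) ^ K = Real.exp (K * Real.log 2) := by
    rw [Real.exp_nat_mul, Real.exp_log (by norm_num)]
  have h4 := Real.log_two_gt_d9
  have h5 := Real.log_two_lt_d9
  constructor
  · rw [h3, ← Real.exp_nat_mul]
    refine Real.exp_le_exp.2 ?_
    push_cast
    nlinarith only [hs, h1, h4, h5]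
  · have h6 : (2 : ℝ) ^ K * e0 ≤ 1 := by
      rw [h3]
      calc Real.exp (K * Real.log 2) * e0
          ≤ Real.exp (3 * s + 1) * Real.exp (-(s ^ 2)) := by
            have h7 : Real.exp (K * Real.log 2) ≤ Real.exp (3 * s + 1) := by
              refine Real.exp_le_exp.2 ?_
              nlinarith only [hs, h2, h4, h5]
            calc Real.exp (K * Real.log 2) * e0
                ≤ Real.exp (K * Real.log 2) * Real.exp (-(s ^ 2)) :=
                  mul_le_mul_of_nonneg_left he (Real.exp_nonneg _)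
              _ ≤ _ := mul_le_mul_of_nonneg_right h7 (Real.exp_nonneg _)
        _ = Real.exp (3 * s + 1 - s ^ 2) := by
            rw [← Real.exp_add]
            congr 1
        _ ≤ 1 := by
            rw [Real.exp_le_one_iff]
            nlinarith only [hs, h4, h5]
    have h8 : (K : ℝ) * C ≤ (3 * s + 1) * C := mul_le_mul_of_nonneg_right h2 (by linarith)
    nlinarith only [hs, hC, h1, h4, h5, h6, h8]

theorem tsm (hT : TorStmt) : TsmStmt := by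
  intro d a ε hd ha hε hε1
  obtain ⟨θ0, c0, C, hθ0, hθ01, hc0, hc04, hC, H⟩ := hT d a ε hd ha hε hε1
  obtain ⟨θ, hθ⟩ : ∃ θ, θ = min θ0 (ε / 2) := ⟨_, rfl⟩
  have hθp : 0 < θ := by
    rw [hθ]
    exact lt_min hθ0 (by linarith only [hε])
  have hθle : θ ≤ θ0 := by
    rw [hθ]
    exact min_le_left _ _
  have hθε : θ ≤ ε / 2 := by
    rw [hθ]
    exact min_le_right _ _
  obtain ⟨c1, hc1, h1⟩ := pow_big θ 4 hθp (by norm_num)
  obtain ⟨c2, hc2, h2⟩ := pow_big (ε / 2) (4 * C ^ 2) (by linarith only [hθp, hθε]) (by positivity)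
  refine ⟨θ, min c0 (min c1 c2), hθp, lt_min hc0 (lt_min hc1 hc2),
    (min_le_left _ _).trans hc04, ?_⟩
  intro M _ v σ E η i hv hσ hσc hE hM5 hM hηM hη
  have hσp : 0 < |σ| := abs_pos.2 hσ
  have hσ0 : |σ| ≤ c0 := hσc.trans (min_le_left _ _)
  have hσ1 : |σ| ≤ c1 := hσc.trans ((min_le_right _ _).trans (min_le_left _ _))
  have hσ2 : |σ| ≤ c2 := hσc.trans ((min_le_right _ _).trans (min_le_right _ _))
  have hσone : |σ| ≤ 1 := by linarith only [hθ0, hθ01, hc04, hσ0]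
  have hMp : (0 : ℝ) < M := Nat.cast_pos.2 (Nat.pos_of_ne_zero (NeZero.ne M))
  have hMd : (0 : ℝ) < (M : ℝ) ^ d := pow_pos hMp d
  have hηp : 0 < η := by
    have h3 : 0 < η * (M : ℝ) ^ d := (Real.rpow_pos_of_pos hσp _).trans_le hηM
    exact pos_of_mul_pos_left h3 hMd.le
  obtain ⟨s, hs⟩ : ∃ s, s = |σ| ^ (-θ) := ⟨_, rfl⟩
  have hs4 : 4 ≤ s := by
    rw [hs]
    exact h1 _ hσp hσ1
  have hsθ0 : s ≤ |σ| ^ (-θ0) := by
    rw [hs]
    exact pow_anti hσp hσone hθle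
  have he : Real.exp (-(|σ| ^ (-(2 * θ0)))) ≤ Real.exp (-(s ^ 2)) := by
    refine Real.exp_le_exp.2 (neg_le_neg ?_)
    have h3 : |σ| ^ (-(2 * θ0)) = (|σ| ^ (-θ0)) ^ 2 := by
      rw [← Real.rpow_natCast, ← Real.rpow_mul hσp.le]
      congr 1
      push_cast
      ring
    rw [h3]
    exact pow_le_pow_left₀ (by linarith only [hθ0, hθ01, hs4]) hsθ0 2
  obtain ⟨hn1, hn2⟩ := nums s C _ hs4 hC he
  obtain ⟨m, -, -, -, Hm⟩ := H M v σ E η hv hσ hσ0 hE hM5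
    (hM.trans (Real.exp_le_exp.2 (pow_anti hσp hσone hθle))) hηM hη
  obtain ⟨z, hz⟩ : ∃ z : ℂ, z = ⟨E, η⟩ := ⟨_, rfl⟩
  have hzi : z.im = η := by rw [hz]
  have hzp : 0 < z.im := by
    rw [hzi]
    exact hηp
  have : IsProbabilityMeasure (gau d M v) := by
    unfold gau
    infer_instance
  obtain ⟨K, hK⟩ : ∃ K : ℕ, K = ⌈3 * s⌉₊ := ⟨_, rfl⟩
  rw [← hK] at hn1 hn2
  obtain ⟨D, hD⟩ : ∃ D : ℝ, D = C * (M : ℝ) ^ d / (σ ^ 2 * η ^ 2) := ⟨_, rfl⟩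
  have hσsq : 0 < σ ^ 2 := by positivity
  have hDp : 0 < D := by
    rw [hD]
    positivity
  have key := mean_le (gau d M v) (fun V => ∑ a, f2 V z i a)
    (Finset.measurable_sum _ fun a _ => f2_meas hzp.ne' i a) D C
    (Real.exp (-(|σ| ^ (-(2 * θ0))))) hDp (by linarith only [hθ0, hθ01, hC]) (Real.exp_nonneg _) K ?_ ?_
  · have h3 := (avg (d := d) (M := M) v hzp.ne' i).trans_le key
    have h4 : ENNReal.ofReal (D * (1 + K * C + 2 ^ K * Real.exp (-(|σ| ^ (-(2 * θ0)))))) ≤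
        ((M ^ d : ℕ) : ℝ≥0∞) * ENNReal.ofReal (|σ| ^ (-2 - ε) / η ^ 2) := by
      have h5 : ((M ^ d : ℕ) : ℝ≥0∞) = ENNReal.ofReal ((M : ℝ) ^ d) := by
        rw [← Nat.cast_pow, ENNReal.ofReal_natCast]
      rw [h5, ← ENNReal.ofReal_mul hMd.le]
      refine ENNReal.ofReal_le_ofReal ?_
      have h6 : |σ| ^ (-2 - ε) = |σ| ^ (-(ε / 2)) * |σ| ^ (-(ε / 2)) / σ ^ 2 := by
        have e1 : (-2 - ε : ℝ) = -(ε / 2) + (-(ε / 2)) + (-2 : ℝ) := by ring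
        rw [e1, Real.rpow_add hσp, Real.rpow_add hσp]
        have e2 : |σ| ^ (-2 : ℝ) = 1 / σ ^ 2 := by
          rw [Real.rpow_neg hσp.le, ← sq_abs σ]
          norm_num
        rw [e2]
        ring
      have h7 : s ≤ |σ| ^ (-(ε / 2)) := by
        rw [hs]
        exact pow_anti hσp hσone hθε
      have h8 : 4 * C ^ 2 ≤ |σ| ^ (-(ε / 2)) := h2 _ hσp hσ2
      have h9 : C * (4 * C * s) ≤ |σ| ^ (-(ε / 2)) * |σ| ^ (-(ε / 2)) := by
        calc C * (4 * C * s) = 4 * C ^ 2 * s := by ring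
          _ ≤ |σ| ^ (-(ε / 2)) * |σ| ^ (-(ε / 2)) :=
            mul_le_mul h8 h7 (by linarith only [hθ0, hθ01, hs4]) (Real.rpow_nonneg hσp.le _)
      calc D * (1 + K * C + 2 ^ K * Real.exp (-(|σ| ^ (-(2 * θ0)))))
          ≤ D * (4 * C * s) := mul_le_mul_of_nonneg_left hn2 hDp.le
        _ = (M : ℝ) ^ d / (σ ^ 2 * η ^ 2) * (C * (4 * C * s)) := by
            rw [hD]
            ring
        _ ≤ (M : ℝ) ^ d / (σ ^ 2 * η ^ 2) * (|σ| ^ (-(ε / 2)) * |σ| ^ (-(ε / 2))) :=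
            mul_le_mul_of_nonneg_left h9 (by positivity)
        _ = (M : ℝ) ^ d * (|σ| ^ (-2 - ε) / η ^ 2) := by
            rw [h6]
            field_simp
    have h5 := h3.trans h4
    have h6 : ((M ^ d : ℕ) : ℝ≥0∞) ≠ 0 := by
      rw [Nat.cast_ne_zero]
      exact pow_ne_zero _ (NeZero.ne M)
    have h7 := (ENNReal.mul_le_mul_iff_right h6 (ENNReal.natCast_ne_top _)).1 h5
    refine le_trans (le_of_eq ?_) h7
    refine lintegral_congr fun V => ?_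
    rw [hz]
    rfl
  · intro V
    have h3 : ∑ a, f2 V z i a ≤ (M : ℝ) ^ d * ((M : ℝ) ^ 2 / η ^ 2) := by
      calc ∑ a, f2 V z i a ≤ ∑ _a : Tor d M, (M : ℝ) ^ 2 / η ^ 2 :=
            Finset.sum_le_sum fun a _ => by
              rw [← hzi]
              exact f2_bd V hzp i a
        _ = (M : ℝ) ^ d * ((M : ℝ) ^ 2 / η ^ 2) := by
            rw [Finset.sum_const, Finset.card_univ, card_tor', nsmul_eq_mul]
            push_cast
            rfl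
    have h4 : (M : ℝ) ^ 2 ≤ 2 ^ K := by
      refine le_trans ?_ hn1
      rw [hs]
      exact pow_le_pow_left₀ hMp.le hM 2
    have h5 : σ ^ 2 ≤ 1 := by
      rw [← sq_abs]
      exact pow_le_one₀ hσp.le hσone
    calc ∑ a, f2 V z i a ≤ (M : ℝ) ^ d * ((M : ℝ) ^ 2 / η ^ 2) := h3
      _ ≤ (M : ℝ) ^ d * (2 ^ K / η ^ 2) := by gcongr
      _ = 1 * (M : ℝ) ^ d / (1 * η ^ 2) * 2 ^ K := by ring
      _ ≤ C * (M : ℝ) ^ d / (σ ^ 2 * η ^ 2) * 2 ^ K := by gcongr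
      _ = D * 2 ^ K := by rw [hD]
  · intro k _
    have h3 := Hm i (2 ^ k) (one_le_pow₀ one_le_two)
    refine le_trans (measure_mono ?_) h3
    intro V hV
    have hV' : D * 2 ^ k < ∑ a, f2 V z i a := hV
    intro h4
    have h5 := h4.2.2.2
    have h6 : ∑ x, ∑ y, ‖rs V ⟨E, η⟩ x y‖ ^ 2 * (((x - y) i).valMinAbs : ℝ) ^ 2 =
        ∑ a, f2 V z i a := by
      rw [hz]
      rfl
    rw [h6] at h5
    have h7 : C * 2 ^ k * (M : ℝ) ^ d / (σ ^ 2 * η ^ 2) = D * 2 ^ k := by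
      rw [hD]
      ring
    rw [h7] at h5
    exact absurd hV' (not_lt.2 h5)

end Pool.Agent.LE.QY.H47
end
end -- Pool.Agent.Helper47_LQY.TSM

section -- Pool.Agent.Helper47_LQY.LOC

/-!
# Squad LQY, row LOC (helper47): the local law
-/

set_option autoImplicit false

open MeasureTheory ProbabilityTheory Function Filter

open scoped ENNReal BigOperators Topology NNReal ComplexOrder Matrix

noncomputable section

namespace Pool.Agent.LE.QY.H47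

open Pool.Agent.Anderson hiding box mem_box card_box
open Pool.Agent.Loc Pool.Agent.Mob Pool.Agent.Helper54.Bal
  Pool.Agent.Helper96.EXP Pool.Agent.BED
open Pool.Agent.LE.MN Pool.Agent.LE.CL Pool.Agent.LE.IR Pool.Agent.LE.QD Pool.Agent.LE.QF

theorem sd_translate' {d : ℕ} (b x y : Site d) : sd (b + x) (b + y) = sd x y := by
  unfold sd
  refine congrArg _ ?_
  funext i
  rw [Pi.add_apply, Pi.add_apply, add_sub_add_left_eq_sub]

/-- the comparison for one entry -/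
theorem entry_le {d M : ℕ} [NeZero M] {C s T : ℝ} {L : ℕ}
    (hC : 1 ≤ C) (hs : 0 < s) (hsC : s ≤ 1 / (512 * C)) (hT : 1 ≤ T) (hL1 : 1 ≤ L)
    (hTL : T ^ 2 ≤ 8 * s ^ 4 * L) (V : Site d → ℝ) (b : Site d) (z : ℂ) (hz : 1 / T ≤ z.im)
    (x y : Site d) (hy : y ∈ box 0 L)
    (h : ∑ y ∈ box 0 L, ‖G V ⟨z.re, z.im⟩ (del (b + x)) (b + y) -
        rs (fun p : Tor d M => V (b + rep p)) ⟨z.re, z.im⟩ (ti M 0 x) (ti M 0 y)‖ ^ 2 ≤
          C / ((L : ℝ) ^ 6 * z.im ^ 8)) :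
    ‖G V z (del (b + x)) (b + y) -
        rs (fun p : Tor d M => V (b + rep p)) z (ti M 0 x) (ti M 0 y)‖ ≤ s := by
  have e0 : (⟨z.re, z.im⟩ : ℂ) = z := Complex.eta z
  rw [e0] at h
  have hL0 : (0 : ℝ) < L := by exact_mod_cast hL1
  have hT0 : 0 < T := by linarith only [hT]
  have h1 : ‖G V z (del (b + x)) (b + y) -
      rs (fun p : Tor d M => V (b + rep p)) z (ti M 0 x) (ti M 0 y)‖ ^ 2 ≤
        C / ((L : ℝ) ^ 6 * z.im ^ 8) :=
    (Finset.single_le_sum (f := fun y => ‖G V z (del (b + x)) (b + y) -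
      rs (fun p : Tor d M => V (b + rep p)) z (ti M 0 x) (ti M 0 y)‖ ^ 2)
      (fun _ _ => by positivity) hy).trans h
  have h2 : C / ((L : ℝ) ^ 6 * z.im ^ 8) ≤ s ^ 2 := by
    have e1 : (1 / T) ^ 8 ≤ z.im ^ 8 := pow_le_pow_left₀ (by positivity) hz 8
    have e2 : C / ((L : ℝ) ^ 6 * z.im ^ 8) ≤ C / ((L : ℝ) ^ 6 * (1 / T) ^ 8) := by gcongr
    refine e2.trans ?_
    rw [div_le_iff₀ (by positivity)]
    have e3 : T ^ 12 ≤ 262144 * s ^ 24 * (L : ℝ) ^ 6 := by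
      calc T ^ 12 = (T ^ 2) ^ 6 := by ring
        _ ≤ (8 * s ^ 4 * (L : ℝ)) ^ 6 := by gcongr
        _ = 262144 * s ^ 24 * (L : ℝ) ^ 6 := by ring
    have e4 : T ^ 8 ≤ T ^ 12 := pow_le_pow_right₀ hT (by norm_num)
    have e5 : 512 * C * s ≤ 1 := by
      rw [le_div_iff₀ (by positivity)] at hsC
      linarith only [hsC]
    have e6 : s ≤ 1 := by nlinarith only [hC, hs, e5]
    have e7 : s ^ 24 ≤ s ^ 4 := pow_le_pow_of_le_one hs.le e6 (by norm_num)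
    have e8 : 262144 * C * s ^ 2 ≤ 1 := by
      have e9 : (512 * C * s) * (512 * C * s) ≤ 1 * 1 := by gcongr
      have e10 : C ≤ C * C := by nlinarith only [hC]
      have e11 : 262144 * C * s ^ 2 ≤ 262144 * (C * C) * s ^ 2 := by gcongr
      nlinarith only [e9, e11]
    have e12 : C * T ^ 8 ≤ s ^ 2 * (L : ℝ) ^ 6 := by
      calc C * T ^ 8 ≤ C * (262144 * s ^ 24 * (L : ℝ) ^ 6) := by
            gcongr
            exact e4.trans e3
        _ ≤ C * (262144 * s ^ 4 * (L : ℝ) ^ 6) := by gcongr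
        _ = (262144 * C * s ^ 2) * (s ^ 2 * (L : ℝ) ^ 6) := by ring
        _ ≤ 1 * (s ^ 2 * (L : ℝ) ^ 6) := by gcongr
        _ = s ^ 2 * (L : ℝ) ^ 6 := one_mul _
    calc C = C * T ^ 8 * (1 / T) ^ 8 := by
          rw [one_div, inv_pow]
          field_simp
      _ ≤ s ^ 2 * (L : ℝ) ^ 6 * (1 / T) ^ 8 := by gcongr
      _ = s ^ 2 * ((L : ℝ) ^ 6 * (1 / T) ^ 8) := by ring
  exact (sq_le_sq₀ (norm_nonneg _) hs.le).1 (h1.trans h2)

theorem small_sum {s θ₀ : ℝ} (hs0 : 0 < s) (hs1 : s ≤ 1) (hθ : θ₀ ≤ 1)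
    (hu : 3 ≤ s ^ (-(θ₀ / 2))) : s ^ θ₀ + 2 * s ≤ s ^ (θ₀ / 2) := by
  have e1 : s ^ θ₀ = s ^ (θ₀ / 2) * s ^ (θ₀ / 2) := by
    rw [← Real.rpow_add hs0]
    congr 1
    ring
  have e2 : s ≤ s ^ θ₀ := by
    have := Real.rpow_le_rpow_of_exponent_ge hs0 hs1 hθ
    rwa [Real.rpow_one] at this
  have e3 : s ^ (θ₀ / 2) * s ^ (-(θ₀ / 2)) = 1 := by
    rw [← Real.rpow_add hs0, add_neg_cancel, Real.rpow_zero]
  have e4 : 0 < s ^ (θ₀ / 2) := Real.rpow_pos_of_pos hs0 _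
  have e5 : 3 * s ^ (θ₀ / 2) ≤ 1 := by nlinarith only [hu, e3, e4]
  nlinarith

theorem exp_num {C u : ℝ} (hC : 1 ≤ C) (hu : C + 3 ≤ u) :
    (C + 1) * Real.exp (-(u ^ 4)) ≤ Real.exp (-u) := by
  have e2 : C + 1 ≤ Real.exp C := Real.add_one_le_exp C
  calc (C + 1) * Real.exp (-(u ^ 4)) ≤ Real.exp C * Real.exp (-(u ^ 4)) := by gcongr
    _ = Real.exp (C - u ^ 4) := by
        rw [← Real.exp_add]
        congr 1
    _ ≤ Real.exp (-u) := by
        refine Real.exp_le_exp.2 ?_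
        have e3 : 3 ≤ u := by linarith only [hC, hu]
        have e4 : u * 3 ≤ u ^ 4 := by
          have e5 : u * 3 ≤ u * u ^ 3 := by
            have : (3 : ℝ) ≤ u ^ 3 := by
              calc (3 : ℝ) ≤ 3 ^ 3 := by norm_num
                _ ≤ u ^ 3 := by gcongr
            gcongr
          calc u * 3 ≤ u * u ^ 3 := e5
            _ = u ^ 4 := by ring
        linarith only [hC, hu, e4]

theorem two_le {s T L : ℝ} (hs : 0 < s) (hs4 : s ≤ 1 / 4) (hL : 0 < L) (hT : 64 ≤ T)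
    (hTL : T ^ 2 ≤ 8 * s ^ 4 * L) : 2 * T ≤ L := by
  have e1 : s ^ 4 ≤ 1 / 256 := by
    calc s ^ 4 ≤ (1 / 4) ^ 4 := pow_le_pow_left₀ hs.le hs4 4
      _ = 1 / 256 := by norm_num
  have e2 : 8 * s ^ 4 * L ≤ 8 * (1 / 256) * L := by gcongr
  nlinarith

theorem im_le {s C m T : ℝ} (hs : 0 < s) (hs4 : s ≤ 1 / 4) (hC : 0 < C)
    (hsC : s ≤ 1 / (2 * C)) (hm : m ≤ C) (hT : 1 / T ≤ s ^ 3) : 1 / T + s ^ 2 * m ≤ 1 := by
  have e1 : s ^ 3 ≤ 1 / 64 := by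
    calc s ^ 3 ≤ (1 / 4) ^ 3 := pow_le_pow_left₀ hs.le hs4 3
      _ = 1 / 64 := by norm_num
  have e2 : s * C ≤ 1 / 2 := by
    rw [le_div_iff₀ (by positivity)] at hsC
    linarith only [hsC]
  have e3 : s ^ 2 * m ≤ 1 / 2 := by
    calc s ^ 2 * m ≤ s ^ 2 * C := by gcongr
      _ = s * (s * C) := by ring
      _ ≤ 1 * (1 / 2) := by
        have : s ≤ 1 := by linarith only [hs, hs4]
        gcongr
      _ = 1 / 2 := by ring
  linarith only [hs, hs4, hT, e1, e3]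

theorem loc (tor : TorStmt) (ltt : LttStmt) : LocStmt := by
  intro d a hd ha
  have hd1 : 1 ≤ d := by omega
  obtain ⟨θ₀, c₀, C, hθ₀, hθ₀1, hc₀, hc₀4, hC, H⟩ := tor d a 1 hd ha one_pos le_rfl
  obtain ⟨C', hC'1, hL⟩ := ltt d hd1
  obtain ⟨c₁, hc₁, hc₁4, hn⟩ := H60.nums hθ₀
  obtain ⟨c₂, hc₂, h2⟩ := pow_big (θ₀ / 2) (C + 3) (by linarith only [hθ₀]) (by linarith only [hθ₀, hθ₀1, hC])
  obtain ⟨c₃, hc₃⟩ : ∃ c₃ : ℝ, c₃ = min (1 / (512 * C')) (1 / (2 * C)) := ⟨_, rfl⟩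
  have hc₃p : 0 < c₃ := by
    rw [hc₃]
    exact lt_min (by positivity) (by positivity)
  refine ⟨θ₀ / 2, min (min c₀ c₁) (min c₂ c₃), by linarith only [hθ₀],
    lt_min (lt_min hc₀ hc₁) (lt_min hc₂ hc₃p),
    (min_le_left _ _).trans ((min_le_left _ _).trans hc₀4), ?_⟩
  intro σ E T hσ hσc hE hT hTe
  obtain ⟨s, hs⟩ : ∃ s : ℝ, s = |σ| := ⟨_, rfl⟩
  rw [← hs] at hσc hT hTe ⊢
  have hs0 : 0 < s := hs ▸ abs_pos.2 hσ
  have hsc0 : s ≤ c₀ := hσc.trans ((min_le_left _ _).trans (min_le_left _ _))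
  have hsc1 : s ≤ c₁ := hσc.trans ((min_le_left _ _).trans (min_le_right _ _))
  have hsc2 : s ≤ c₂ := hσc.trans ((min_le_right _ _).trans (min_le_left _ _))
  have hsc3 : s ≤ c₃ := hσc.trans ((min_le_right _ _).trans (min_le_right _ _))
  have hsC' : s ≤ 1 / (512 * C') := hsc3.trans (by rw [hc₃]; exact min_le_left _ _)
  have hsC : s ≤ 1 / (2 * C) := hsc3.trans (by rw [hc₃]; exact min_le_right _ _)
  have hs1 : s ≤ 1 := by linarith only [hθ₀, hθ₀1, hc₀4, hsc0]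
  obtain ⟨hT64, hT3, hTs, M, L, hM0, hL1, hLM, hTM, hTL, hM5, hMe, hMd⟩ :=
    hn s T hs0 hsc1 hT hTe
  have : NeZero M := ⟨hM0⟩
  have hT0 : 0 < T := by linarith only [hθ₀, hθ₀1, hT64]
  have hT1 : 1 ≤ T := by linarith only [hθ₀, hθ₀1, hT64]
  have hη : 0 < 1 / T := by positivity
  have hη1 : 1 / T ≤ 1 := by
    rw [div_le_one hT0]
    linarith only [hθ₀, hθ₀1, hT64]
  have hL0 : (0 : ℝ) < L := by exact_mod_cast hL1
  have h2TL : 2 * T ≤ L := two_le hs0 (hsc1.trans hc₁4) hL0 hT64 hTL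
  obtain ⟨v, hv⟩ : ∃ v : ℝ≥0, (v : ℝ) = σ ^ 2 := ⟨⟨σ ^ 2, sq_nonneg σ⟩, rfl⟩
  obtain ⟨u, hu⟩ : ∃ u : ℝ, u = s ^ (-(θ₀ / 2)) := ⟨_, rfl⟩
  have huC : C + 3 ≤ u := by
    rw [hu]
    exact h2 s hs0 hsc2
  have hu4 : s ^ (-(2 * θ₀)) = u ^ 4 := by
    rw [hu, ← Real.rpow_natCast, ← Real.rpow_mul hs0.le]
    congr 1
    push_cast
    ring
  obtain ⟨m, hm1, hm2, hm3, Hm⟩ := H M v σ E (1 / T) hv hσ (by rw [← hs]; exact hsc0) hE
    (by rw [← hs]; exact hM5) (by rw [← hs]; exact hMe)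
    (by rw [← hs]; exact hMd d 1 hd le_rfl) (by rw [← hs]; exact hTs)
  obtain ⟨z, hz⟩ : ∃ z : ℂ, z = ⟨E, 1 / T⟩ := ⟨_, rfl⟩
  have hzi : z.im = 1 / T := by rw [hz]
  obtain ⟨z', hz'⟩ : ∃ z' : ℂ, z' = z + (σ : ℂ) ^ 2 * m := ⟨_, rfl⟩
  have hz'i : z'.im = 1 / T + s ^ 2 * m.im := by
    have e1 : ((σ : ℂ) ^ 2 * m).im = s ^ 2 * m.im := by
      rw [← Complex.ofReal_pow, Complex.im_ofReal_mul, hs, sq_abs]
    rw [hz', Complex.add_im, hzi, e1]
  rw [← hz] at hm3 Hm ⊢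
  rw [← hz'] at hm3 Hm
  have hmi : m.im ≤ C := (le_abs_self _).trans ((Complex.abs_im_le_norm _).trans hm2)
  have hz'1 : 1 / T ≤ z'.im := by
    rw [hz'i]
    have : 0 ≤ s ^ 2 * m.im := mul_nonneg (by positivity) (by linarith only [hc₀, hm1])
    linarith only [this]
  have hz'2 : z'.im ≤ 1 := by
    rw [hz'i]
    exact im_le hs0 (hsc1.trans hc₁4) (zero_lt_one.trans_le hC) hsC hmi hTs
  have hu3 : 3 ≤ u := le_trans (le_add_of_nonneg_left (zero_le_one.trans hC)) huC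
  have hθs : s ^ θ₀ + 2 * s ≤ s ^ (θ₀ / 2) :=
    small_sum hs0 hs1 (hθ₀1.trans (by norm_num)) (by rw [← hu]; exact hu3)
  have hent : ∀ (V : Site d → ℝ) (b : Site d) (w : ℂ), 1 / T ≤ w.im → w.im ≤ 1 →
      ∀ x y : Site d, (sd 0 x : ℝ) ≤ T → (sd 0 y : ℝ) ≤ T →
      ‖G V w (del (b + x)) (b + y) -
        rs (fun p : Tor d M => V (b + rep p)) w (ti M 0 x) (ti M 0 y)‖ ≤ s := by
    intro V b w hw hw1 x y hx hy
    refine entry_le hC'1 hs0 hsC' hT1 hL1 hTL V b w hw x y ?_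
      (hL M L V b w.re w.im x (hη.trans_le hw) hw1 hL1 hLM ?_)
    · rw [mem_box]
      have : (sd 0 y : ℝ) ≤ L := by linarith only [hθ₀, hθ₀1, hT64, h2TL, hy]
      exact_mod_cast this
    · have : (2 * sd 0 x : ℝ) ≤ L := by linarith only [h2TL, hx]
      exact_mod_cast this
  refine ⟨m, ?_⟩
  rw [← hz']
  refine ⟨?_, ?_, ?_, ?_⟩
  · exact ((min_le_left _ _).trans (min_le_left _ _)).trans hm1
  · refine hm2.trans ?_
    rw [le_div_iff₀ (lt_min (lt_min hc₀ hc₁) (lt_min hc₂ hc₃p))]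
    have e1 : min (min c₀ c₁) (min c₂ c₃) ≤ 1 / (2 * C) :=
      ((min_le_right _ _).trans (min_le_right _ _)).trans (by rw [hc₃]; exact min_le_right _ _)
    calc C * min (min c₀ c₁) (min c₂ c₃) ≤ C * (1 / (2 * C)) := by gcongr
      _ = 1 / 2 := by field_simp
      _ ≤ 1 := by norm_num
  · have e1 := hent (0 : Site d → ℝ) 0 z' hz'1 hz'2 0 0
      (by rw [sd_self]; push_cast; linarith only [hθ₀, hθ₀1, hT64]) (by rw [sd_self]; push_cast; linarith only [hθ₀, hθ₀1, hT64])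
    have e2 : (fun p : Tor d M => (0 : Site d → ℝ) (0 + rep p)) = 0 := rfl
    rw [e2, hm3, add_zero, norm_sub_rev] at e1
    have e3 : 0 ≤ s ^ θ₀ := Real.rpow_nonneg hs0.le _
    linarith only [hs0, hθs, e1, e3]
  · intro b
    have h5 := Hm ⟨0, hd1⟩ (Real.exp (s ^ (-(2 * θ₀)))) (Real.one_le_exp
      (Real.rpow_nonneg hs0.le _))
    have h6 := IR.H54.law_le hσ hv b _ h5
    refine le_trans (measure_mono ?_) (h6.trans (ENNReal.ofReal_le_ofReal ?_))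
    · intro V hV hP
      refine hV fun x y hx hy => ?_
      obtain ⟨x', hx'⟩ : ∃ x', x = b + x' := ⟨x - b, by abel⟩
      obtain ⟨y', hy'⟩ : ∃ y', y = b + y' := ⟨y - b, by abel⟩
      have e0 : ∀ w : Site d, sd b (b + w) = sd 0 w := by
        intro w
        have := sd_translate' b 0 w
        rwa [add_zero] at this
      rw [hx', e0] at hx
      rw [hy', e0] at hy
      rw [hx', hy']
      have g1 := hent V b z (by rw [hzi]) (by rw [hzi]; exact hη1) x' y' hx hy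
      have g2 := hent (0 : Site d → ℝ) b z' hz'1 hz'2 x' y' hx hy
      have g3 := hP.2.1 (ti M 0 x') (ti M 0 y')
      rw [← hs] at g3
      have e2 : (fun p : Tor d M => (0 : Site d → ℝ) (b + rep p)) = 0 := rfl
      rw [e2, norm_sub_rev] at g2
      calc ‖G V z (del (b + x')) (b + y') - G (0 : Site d → ℝ) z' (del (b + x')) (b + y')‖
          ≤ ‖G V z (del (b + x')) (b + y') -
              rs (fun p : Tor d M => V (b + rep p)) z (ti M 0 x') (ti M 0 y')‖ +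
            ‖rs (fun p : Tor d M => V (b + rep p)) z (ti M 0 x') (ti M 0 y') -
              rs (0 : Tor d M → ℝ) z' (ti M 0 x') (ti M 0 y')‖ +
            ‖rs (0 : Tor d M → ℝ) z' (ti M 0 x') (ti M 0 y') -
              G (0 : Site d → ℝ) z' (del (b + x')) (b + y')‖ := by
            refine le_trans ?_ (norm_add₃_le)
            rw [sub_add_sub_cancel, sub_add_sub_cancel]
        _ ≤ s + s ^ θ₀ + s := by gcongr
        _ ≤ s ^ (θ₀ / 2) := by linarith only [hθs]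
    · rw [← hs, ← hu]
      have e1 : C / Real.exp (s ^ (-(2 * θ₀))) + Real.exp (-(s ^ (-(2 * θ₀)))) =
          (C + 1) * Real.exp (-(u ^ 4)) := by
        rw [hu4, Real.exp_neg]
        ring
      rw [e1]
      exact exp_num hC huC

end Pool.Agent.LE.QY.H47
end
end -- Pool.Agent.Helper47_LQY.LOC

section -- Pool.Agent.Helper60_LQY.MAZ

/-!
# Squad LQY (MP_1906c1_mp), row MAZ: the diffusive lower bound on the lattice
-/

set_option autoImplicit false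

open MeasureTheory ProbabilityTheory Function Filter

open scoped ENNReal BigOperators Topology NNReal ComplexOrder Matrix

noncomputable section

namespace Pool.Agent.LE.QY.H60

open Pool.Agent.Anderson hiding box mem_box card_box
open Pool.Agent.Loc Pool.Agent.Mob Pool.Agent.Helper54.Bal
  Pool.Agent.Helper96.EXP Pool.Agent.BED
open Pool.Agent.LE.MN Pool.Agent.LE.CL Pool.Agent.LE.IR Pool.Agent.LE.QD Pool.Agent.LE.QF

/-- the mass in a box on the torus -/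
def MB {d M : ℕ} [NeZero M] (z : ℂ) (R : ℕ) (U : Tor d M → ℝ) : ℝ :=
  ∑ y, if ∀ i, |((y i).valMinAbs : ℝ)| ≤ R then ‖rs U z 0 y‖ ^ 2 else 0

theorem MB_nn {d M : ℕ} [NeZero M] (z : ℂ) (R : ℕ) (U : Tor d M → ℝ) : 0 ≤ MB z R U :=
  Finset.sum_nonneg fun y _ => by
    split_ifs
    · positivity
    · exact le_rfl

theorem MB_meas {d M : ℕ} [NeZero M] {z : ℂ} (hz : 0 < z.im) (R : ℕ) :
    Measurable fun U : Tor d M → ℝ => MB z R U :=
  Finset.measurable_sum _ fun y _ => by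
    by_cases h : ∀ i, |((y i).valMinAbs : ℝ)| ≤ R
    · simp only [if_pos h]
      exact meas_rs hz 0 y
    · simp only [if_neg h]
      exact measurable_const

/-- the comparison -/
theorem mass_le {d M : ℕ} [NeZero M] {C T E : ℝ} {L R : ℕ} (V : Site d → ℝ)
    (hT : 0 < T) (hL : 1 ≤ L) (hM : 2 * L + 1 ≤ M) (hR : R ≤ L)
    (h : ∑ y ∈ box 0 L, ‖G V ⟨E, 1 / T⟩ (del 0) y -
        rs (fun p : Tor d M => V (0 + rep p)) ⟨E, 1 / T⟩ 0 (ti M 0 y)‖ ^ 2 ≤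
          C / ((L : ℝ) ^ 6 * (1 / T) ^ 8)) :
    ∑ x ∈ box 0 R, rh V T E x ≤
      2 / T * MB ⟨E, 1 / T⟩ R (fun p : Tor d M => V (0 + rep p)) +
        2 * C * T ^ 7 / (L : ℝ) ^ 6 := by
  have hL0 : (0 : ℝ) < L := by exact_mod_cast hL
  obtain ⟨W, hW⟩ : ∃ W : Tor d M → ℝ, W = fun p => V (0 + rep p) := ⟨_, rfl⟩
  obtain ⟨z, hz⟩ : ∃ z : ℂ, z = ⟨E, 1 / T⟩ := ⟨_, rfl⟩
  rw [← hW, ← hz] at h ⊢
  have hsub : box (0 : Site d) R ⊆ box 0 L := by
    intro x hx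
    rw [mem_box] at hx ⊢
    omega
  have h1 : ∀ x ∈ box (0 : Site d) R, rh V T E x ≤
      2 / T * (if ∀ i, |((ti M 0 x i).valMinAbs : ℝ)| ≤ R then ‖rs W z 0 (ti M 0 x)‖ ^ 2
        else 0) + 2 / T * ‖G V z (del 0) x - rs W z 0 (ti M 0 x)‖ ^ 2 := by
    intro x hx
    have hx' := hx
    rw [mem_box, sd_le_iff] at hx'
    rw [if_pos (fun i => by
      rw [vma hM (hsub hx) i]
      have h2 := hx' i
      rw [Pi.zero_apply, zero_sub, abs_neg] at h2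
      exact_mod_cast h2)]
    have e4 := nsq (G V z (del 0) x) (rs W z 0 (ti M 0 x))
    unfold rh
    rw [← hz]
    calc ‖G V z (del 0) x‖ ^ 2 / T
        = 1 / T * ‖G V z (del 0) x‖ ^ 2 := by ring
      _ ≤ 1 / T * (2 * ‖rs W z 0 (ti M 0 x)‖ ^ 2 +
            2 * ‖G V z (del 0) x - rs W z 0 (ti M 0 x)‖ ^ 2) := by gcongr
      _ = _ := by ring
  refine (Finset.sum_le_sum h1).trans ?_
  rw [Finset.sum_add_distrib, ← Finset.mul_sum, ← Finset.mul_sum]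
  have h2 : ∑ x ∈ box (0 : Site d) R,
      (if ∀ i, |((ti M 0 x i).valMinAbs : ℝ)| ≤ R then ‖rs W z 0 (ti M 0 x)‖ ^ 2 else 0) ≤
      MB z R W :=
    sum_ti hM (box 0 R) hsub
      (fun y => if ∀ i, |((y i).valMinAbs : ℝ)| ≤ R then ‖rs W z 0 y‖ ^ 2 else 0) (fun y => by
        split_ifs
        · positivity
        · exact le_rfl)
  have h3 : 2 / T * ∑ x ∈ box (0 : Site d) R,
      ‖G V z (del 0) x - rs W z 0 (ti M 0 x)‖ ^ 2 ≤ 2 * C * T ^ 7 / (L : ℝ) ^ 6 := by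
    calc 2 / T * ∑ x ∈ box (0 : Site d) R,
        ‖G V z (del 0) x - rs W z 0 (ti M 0 x)‖ ^ 2
        ≤ 2 / T * (C / ((L : ℝ) ^ 6 * (1 / T) ^ 8)) := by
          refine mul_le_mul_of_nonneg_left ?_ (by positivity)
          exact (Finset.sum_le_sum_of_subset_of_nonneg hsub (fun y _ _ => by positivity)).trans h
      _ = 2 * C * T ^ 7 / (L : ℝ) ^ 6 := by
        field_simp
  exact add_le_add (by gcongr) h3

theorem maz (tma : TmaStmt) (ltt : LttStmt) : MazStmt := by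
  intro d a ε hd ha hε hε1
  have hd1 : 1 ≤ d := by omega
  obtain ⟨θ₀, c₀, hθ₀, hc₀, hc₀4, H⟩ := tma d a ε hd ha hε hε1
  obtain ⟨C, hC1, hC⟩ := ltt d hd1
  obtain ⟨θ₁, hθ₁⟩ : ∃ θ₁ : ℝ, θ₁ = min θ₀ 1 := ⟨_, rfl⟩
  have hθ₁0 : 0 < θ₁ := hθ₁ ▸ lt_min hθ₀ one_pos
  have hθ₁1 : θ₁ ≤ 1 := hθ₁ ▸ min_le_right _ _
  have hθ₁θ : θ₁ ≤ θ₀ := hθ₁ ▸ min_le_left _ _
  obtain ⟨c₁, hc₁, hc₁4, hn⟩ := nums hθ₁0
  obtain ⟨B, hB⟩ : ∃ B : ℝ, B = 2 + 524288 * C := ⟨_, rfl⟩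
  have hB0 : 0 < B := by rw [hB]; linarith only [hc₀, hc₀4, hC1]
  refine ⟨θ₁ / 2, min (min c₀ c₁) (B ^ (-(2 / θ₁))), by linarith only [hθ₁0],
    lt_min (lt_min hc₀ hc₁) (Real.rpow_pos_of_pos hB0 _),
    (min_le_left _ _).trans ((min_le_left _ _).trans hc₀4), ?_⟩
  intro σ E T hσ hσc hE hT hTe
  obtain ⟨s, hs⟩ : ∃ s : ℝ, s = |σ| := ⟨_, rfl⟩
  rw [← hs] at hσc hT hTe ⊢
  have hs0 : 0 < s := hs ▸ abs_pos.2 hσ
  have hsc0 : s ≤ c₀ := hσc.trans ((min_le_left _ _).trans (min_le_left _ _))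
  have hsc1 : s ≤ c₁ := hσc.trans ((min_le_left _ _).trans (min_le_right _ _))
  have hsB : s ≤ B ^ (-(2 / θ₁)) := hσc.trans (min_le_right _ _)
  have hs1 : s ≤ 1 := by linarith only [hc₀, hc₀4, hsc0]
  obtain ⟨hT64, hT3, hTs, M, L, hM0, hL1, hLM, hTM, hTL, hM5, hMe, hMd⟩ :=
    hn s T hs0 hsc1 hT hTe
  have hMe' : (M : ℝ) ≤ Real.exp (s ^ (-θ₀)) := by
    refine hMe.trans (Real.exp_le_exp.2 ?_)
    exact Real.rpow_le_rpow_of_exponent_ge hs0 hs1 (by linarith only [hθ₁θ])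
  have : NeZero M := ⟨hM0⟩
  have hT0 : 0 < T := by linarith only [hc₀, hc₀4, hT64]
  have hη : 0 < 1 / T := by positivity
  have hη1 : 1 / T ≤ 1 := by
    rw [div_le_one hT0]
    linarith only [hc₀, hc₀4, hT64]
  have hM2 : 2 * L + 1 ≤ M := by omega
  have hL0 : (0 : ℝ) < L := by exact_mod_cast hL1
  obtain ⟨v, hv⟩ : ∃ v : ℝ≥0, (v : ℝ) = σ ^ 2 := ⟨⟨σ ^ 2, sq_nonneg σ⟩, rfl⟩
  obtain ⟨ρ, hρ⟩ : ∃ ρ : ℝ, ρ = s ^ (ε - 1) * Real.sqrt T := ⟨_, rfl⟩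
  have hρ0 : 0 ≤ ρ := by
    rw [hρ]
    positivity
  obtain ⟨R, hR⟩ : ∃ R : ℕ, R = ⌊ρ⌋₊ := ⟨_, rfl⟩
  have hRρ : (R : ℝ) ≤ ρ := by
    rw [hR]
    exact Nat.floor_le hρ0
  have hρT : s * ρ ≤ T := by
    have e1 : s ^ (ε - 1) ≤ s ^ (-1 : ℝ) :=
      Real.rpow_le_rpow_of_exponent_ge hs0 hs1 (by linarith only [hε])
    rw [Real.rpow_neg_one] at e1
    have e2 : Real.sqrt T ≤ T := by
      rw [Real.sqrt_le_left hT0.le]
      nlinarith only [hT64]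
    calc s * ρ = s * (s ^ (ε - 1) * Real.sqrt T) := by rw [hρ]
      _ ≤ s * (s⁻¹ * T) := by gcongr
      _ = T := by rw [← mul_assoc, mul_inv_cancel₀ hs0.ne', one_mul]
  have hs4 : s ^ 4 ≤ 1 := pow_le_one₀ hs0.le hs1
  have hs2 : s ^ 2 ≤ 1 := pow_le_one₀ hs0.le hs1
  have hs3 : s ^ 3 ≤ 1 := pow_le_one₀ hs0.le hs1
  have hRL : R ≤ L := by
    have h1 : (R : ℝ) ≤ L := by
      refine hRρ.trans ?_
      have e1 : s * ρ * T ≤ s * (8 * s ^ 3 * L) := by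
        calc s * ρ * T ≤ T * T := by gcongr
          _ = T ^ 2 := by ring
          _ ≤ 8 * s ^ 4 * L := hTL
          _ = _ := by ring
      have e2 : ρ * T ≤ 8 * s ^ 3 * L := by
        have : s * (ρ * T) ≤ s * (8 * s ^ 3 * L) := by rw [← mul_assoc]; exact e1
        exact le_of_mul_le_mul_left this hs0
      have e3 : 8 * s ^ 3 * L ≤ 8 * 1 * (L : ℝ) := by gcongr
      have e4 : ρ * 64 ≤ ρ * T := by gcongr
      linarith only [hL0, e2, e3, e4]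
    exact_mod_cast h1
  have hRM : (R : ℝ) ≤ s * M := by
    refine hRρ.trans ?_
    have e1 : s * (ρ * T) ≤ s * (s ^ 3 * M) := by
      calc s * (ρ * T) = s * ρ * T := by ring
        _ ≤ T * T := by gcongr
        _ = T ^ 2 := by ring
        _ ≤ s ^ 4 * M := hTM
        _ = _ := by ring
    have e2 : ρ * T ≤ s ^ 3 * M := le_of_mul_le_mul_left e1 hs0
    have e3 : s ^ 3 * M ≤ s * M := by
      have : s ^ 3 ≤ s := by
        calc s ^ 3 = s * s ^ 2 := by ring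
          _ ≤ s * 1 := by gcongr
          _ = s := mul_one _
      gcongr
    have e4 : ρ * 1 ≤ ρ * T := by gcongr; linarith only [hc₀, hc₀4, hT64]
    linarith only [e2, e3, e4]
  have hRη : (R : ℝ) ≤ s ^ (ε - 1) / Real.sqrt (1 / T) := by
    refine hRρ.trans (le_of_eq ?_)
    rw [hρ, one_div, Real.sqrt_inv, div_inv_eq_mul]
  -- the torus
  have hq : ∫⁻ U, ENNReal.ofReal (MB ⟨E, 1 / T⟩ R U) ∂(gau d M v) ≤
      ENNReal.ofReal (s ^ θ₀ / (1 / T)) := by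
    have h := H M R v σ E (1 / T) hv hσ (by rw [← hs]; exact hsc0) hE (by rw [← hs]; exact hM5)
      (by rw [← hs]; exact hMe') (by rw [← hs]; exact hMd d ε hd hε1)
      (by rw [← hs]; exact hTs) (by rw [← hs]; exact hRη) (by rw [← hs]; exact hRM)
    rw [← hs] at h
    exact h
  -- pointwise
  have hpt : ∀ V : Site d → ℝ, ∑' x : Site d, (if (sd 0 x : ℝ) ≤ s ^ (ε - 1) * Real.sqrt T then
        ENNReal.ofReal (rh V T E x) else 0) ≤
      ENNReal.ofReal (2 / T) * ENNReal.ofReal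
        (MB ⟨E, 1 / T⟩ R (fun p : Tor d M => V (0 + rep p))) +
        ENNReal.ofReal (2 * C * T ^ 7 / (L : ℝ) ^ 6) := by
    intro V
    have h1 := ltt0 (M := M) V (hC M L V 0 E (1 / T) 0 hη hη1 hL1 hLM (by
      rw [sd_self]
      omega))
    have h2 := mass_le V hT0 hL1 hM2 hRL h1
    have hrh : ∀ x, 0 ≤ rh V T E x := fun x => by unfold rh; positivity
    have h3 : ∀ x : Site d, x ∉ box 0 R → (if (sd 0 x : ℝ) ≤ s ^ (ε - 1) * Real.sqrt T then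
        ENNReal.ofReal (rh V T E x) else 0) = 0 := by
      intro x hx
      rw [mem_box] at hx
      refine if_neg fun h => hx ?_
      rw [← hρ] at h
      rw [hR]
      exact Nat.le_floor h
    rw [tsum_eq_sum (s := box 0 R) h3]
    have h4 : ∑ x ∈ box (0 : Site d) R, (if (sd 0 x : ℝ) ≤ s ^ (ε - 1) * Real.sqrt T then
        ENNReal.ofReal (rh V T E x) else 0) ≤ ENNReal.ofReal (∑ x ∈ box (0 : Site d) R,
          rh V T E x) := by
      rw [ENNReal.ofReal_sum_of_nonneg (fun x _ => hrh x)]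
      refine Finset.sum_le_sum fun x _ => ?_
      split_ifs
      · exact le_rfl
      · exact zero_le
    refine h4.trans ((ENNReal.ofReal_le_ofReal h2).trans ?_)
    refine (ENNReal.ofReal_add_le).trans ?_
    rw [ENNReal.ofReal_mul (by positivity)]
  have hmq : Measurable fun U : Tor d M → ℝ => ENNReal.ofReal (MB ⟨E, 1 / T⟩ R U) :=
    (MB_meas (z := ⟨E, 1 / T⟩) hη R).ennreal_ofReal
  have hfm : Measurable fun (V : Site d → ℝ) (x : Tor d M) => V (0 + rep x) :=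
    measurable_pi_lambda _ fun x => measurable_pi_apply _
  have hmq' : Measurable fun V : Site d → ℝ => ENNReal.ofReal
      (MB ⟨E, 1 / T⟩ R (fun p : Tor d M => V (0 + rep p))) := hmq.comp hfm
  refine (lintegral_mono hpt).trans ?_
  rw [lintegral_add_right _ measurable_const, lintegral_const, measure_univ, mul_one,
    lintegral_const_mul _ hmq',
    lin_eq hσ hv 0 (fun U : Tor d M → ℝ => ENNReal.ofReal (MB ⟨E, 1 / T⟩ R U)) hmq]
  have h6 : ENNReal.ofReal (2 / T) * ∫⁻ U, ENNReal.ofReal (MB ⟨E, 1 / T⟩ R U) ∂(gau d M v) ≤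
      ENNReal.ofReal (2 * s ^ θ₀) := by
    refine (mul_le_mul_right hq _).trans (le_of_eq ?_)
    rw [← ENNReal.ofReal_mul (by positivity)]
    congr 1
    field_simp
  refine (add_le_add h6 le_rfl).trans ?_
  rw [← ENNReal.ofReal_add (by positivity) (by positivity)]
  apply ENNReal.ofReal_le_ofReal
  -- the final numbers
  have k1 : s ^ (θ₁ / 2) ≤ 1 / B := by
    have e1 : s ^ (θ₁ / 2) ≤ (B ^ (-(2 / θ₁))) ^ (θ₁ / 2) :=
      Real.rpow_le_rpow hs0.le hsB (by linarith only [hθ₁0])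
    have e2 : (B ^ (-(2 / θ₁))) ^ (θ₁ / 2) = 1 / B := by
      rw [← Real.rpow_mul hB0.le]
      have : -(2 / θ₁) * (θ₁ / 2) = -1 := by field_simp
      rw [this, Real.rpow_neg_one, one_div]
    rw [← e2]
    exact e1
  have k2 : s ^ θ₁ = s ^ (θ₁ / 2) * s ^ (θ₁ / 2) := by
    rw [← Real.rpow_add hs0]
    congr 1
    ring
  have k3 : s ^ θ₀ ≤ s ^ θ₁ := Real.rpow_le_rpow_of_exponent_ge hs0 hs1 hθ₁θ
  have k4 : s ≤ s ^ θ₁ := by
    have := Real.rpow_le_rpow_of_exponent_ge hs0 hs1 hθ₁1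
    rwa [Real.rpow_one] at this
  have k5 : 2 * C * T ^ 7 / (L : ℝ) ^ 6 ≤ 524288 * C * s := by
    rw [div_le_iff₀ (by positivity)]
    have e1 : T ^ 12 ≤ 262144 * s ^ 24 * (L : ℝ) ^ 6 := by
      calc T ^ 12 = (T ^ 2) ^ 6 := by ring
        _ ≤ (8 * s ^ 4 * (L : ℝ)) ^ 6 := by gcongr
        _ = 262144 * s ^ 24 * (L : ℝ) ^ 6 := by ring
    have e2 : T ^ 7 ≤ T ^ 12 := pow_le_pow_right₀ (by linarith only [hc₀, hc₀4, hT64]) (by norm_num)
    have e3 : s ^ 24 ≤ s := by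
      calc s ^ 24 ≤ s ^ 1 := pow_le_pow_of_le_one hs0.le hs1 (by norm_num)
        _ = s := pow_one s
    calc 2 * C * T ^ 7 ≤ 2 * C * T ^ 12 := by gcongr
      _ ≤ 2 * C * (262144 * s ^ 24 * (L : ℝ) ^ 6) := by gcongr
      _ ≤ 2 * C * (262144 * s * (L : ℝ) ^ 6) := by gcongr
      _ = 524288 * C * s * (L : ℝ) ^ 6 := by ring
  have hp : 0 < s ^ (θ₁ / 2) := Real.rpow_pos_of_pos hs0 _
  calc 2 * s ^ θ₀ + 2 * C * T ^ 7 / (L : ℝ) ^ 6 ≤ 2 * s ^ θ₁ + 524288 * C * s ^ θ₁ := by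
        have : 524288 * C * s ≤ 524288 * C * s ^ θ₁ := by gcongr
        linarith only [k3, k5, this]
    _ = B * s ^ (θ₁ / 2) * s ^ (θ₁ / 2) := by rw [hB, k2]; ring
    _ ≤ B * (1 / B) * s ^ (θ₁ / 2) := by gcongr
    _ = s ^ (θ₁ / 2) := by
        rw [mul_one_div_cancel hB0.ne', one_mul]

end Pool.Agent.LE.QY.H60
end
end -- Pool.Agent.Helper60_LQY.MAZ

section -- Pool.Agent.Helper60_LQY.SMZ

/-!
# Squad LQY (MP_1906c1_mp), row SMZ: the diffusive upper bound on the lattice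
-/

set_option autoImplicit false

open MeasureTheory ProbabilityTheory Function Filter

open scoped ENNReal BigOperators Topology NNReal ComplexOrder Matrix

noncomputable section

namespace Pool.Agent.LE.QY.H60

open Pool.Agent.Anderson hiding box mem_box card_box
open Pool.Agent.Loc Pool.Agent.Mob Pool.Agent.Helper54.Bal
  Pool.Agent.Helper96.EXP Pool.Agent.BED
open Pool.Agent.LE.MN Pool.Agent.LE.CL Pool.Agent.LE.IR Pool.Agent.LE.QD Pool.Agent.LE.QF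

/-- the second moment on the torus -/
def QQ {d M : ℕ} [NeZero M] (z : ℂ) (i : Fin d) (U : Tor d M → ℝ) : ℝ :=
  ∑ y, ‖rs U z 0 y‖ ^ 2 * (((0 - y) i).valMinAbs : ℝ) ^ 2

theorem QQ_nn {d M : ℕ} [NeZero M] (z : ℂ) (i : Fin d) (U : Tor d M → ℝ) : 0 ≤ QQ z i U :=
  Finset.sum_nonneg fun y _ => by positivity

theorem QQ_meas {d M : ℕ} [NeZero M] {z : ℂ} (hz : 0 < z.im) (i : Fin d) :
    Measurable fun U : Tor d M → ℝ => QQ z i U :=
  Finset.measurable_sum _ fun y _ => (meas_rs hz 0 y).mul_const _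

/-- the part in the box -/
theorem box_le {d M : ℕ} [NeZero M] (hd : 1 ≤ d) {C T E : ℝ} {L : ℕ} (V : Site d → ℝ)
    (hT : 0 < T) (hL : 1 ≤ L) (hM : 2 * L + 1 ≤ M)
    (h : ∑ y ∈ box 0 L, ‖G V ⟨E, 1 / T⟩ (del 0) y -
        rs (fun p : Tor d M => V (0 + rep p)) ⟨E, 1 / T⟩ 0 (ti M 0 y)‖ ^ 2 ≤
          C / ((L : ℝ) ^ 6 * (1 / T) ^ 8)) :
    ∑ x ∈ box 0 L, (sd 0 x : ℝ) ^ 2 * rh V T E x ≤
      2 / T * ∑ i, QQ ⟨E, 1 / T⟩ i (fun p : Tor d M => V (0 + rep p)) +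
        2 * C * T ^ 7 / (L : ℝ) ^ 4 := by
  have hL0 : (0 : ℝ) < L := by exact_mod_cast hL
  obtain ⟨W, hW⟩ : ∃ W : Tor d M → ℝ, W = fun p => V (0 + rep p) := ⟨_, rfl⟩
  obtain ⟨z, hz⟩ : ∃ z : ℂ, z = ⟨E, 1 / T⟩ := ⟨_, rfl⟩
  rw [← hW, ← hz] at h ⊢
  have h1 : ∀ x ∈ box (0 : Site d) L, (sd 0 x : ℝ) ^ 2 * rh V T E x ≤
      2 / T * ∑ i, ‖rs W z 0 (ti M 0 x)‖ ^ 2 * (((0 - ti M 0 x) i).valMinAbs : ℝ) ^ 2 +
        2 / T * ((L : ℝ) ^ 2 * ‖G V z (del 0) x - rs W z 0 (ti M 0 x)‖ ^ 2) := by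
    intro x hx
    have e1 : ∑ i, ‖rs W z 0 (ti M 0 x)‖ ^ 2 * (((0 - ti M 0 x) i).valMinAbs : ℝ) ^ 2 =
        ‖rs W z 0 (ti M 0 x)‖ ^ 2 * ∑ i, (x i : ℝ) ^ 2 := by
      rw [Finset.mul_sum]
      refine Finset.sum_congr rfl fun i _ => ?_
      rw [vma' hM hx i]
    rw [e1]
    have e2 := sd_sq hd x
    have e3 : (sd 0 x : ℝ) ^ 2 ≤ (L : ℝ) ^ 2 := by
      rw [mem_box] at hx
      have : (sd 0 x : ℝ) ≤ L := by exact_mod_cast hx
      exact pow_le_pow_left₀ (Nat.cast_nonneg _) this 2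
    have e4 := nsq (G V z (del 0) x) (rs W z 0 (ti M 0 x))
    unfold rh
    rw [← hz]
    have e5 : (sd 0 x : ℝ) ^ 2 * ‖G V z (del 0) x‖ ^ 2 ≤
        2 * (‖rs W z 0 (ti M 0 x)‖ ^ 2 * ∑ i, (x i : ℝ) ^ 2) +
          2 * ((L : ℝ) ^ 2 * ‖G V z (del 0) x - rs W z 0 (ti M 0 x)‖ ^ 2) := by
      calc (sd 0 x : ℝ) ^ 2 * ‖G V z (del 0) x‖ ^ 2
          ≤ (sd 0 x : ℝ) ^ 2 * (2 * ‖rs W z 0 (ti M 0 x)‖ ^ 2 +
            2 * ‖G V z (del 0) x - rs W z 0 (ti M 0 x)‖ ^ 2) := by gcongr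
        _ = 2 * (‖rs W z 0 (ti M 0 x)‖ ^ 2 * (sd 0 x : ℝ) ^ 2) +
            2 * ((sd 0 x : ℝ) ^ 2 * ‖G V z (del 0) x - rs W z 0 (ti M 0 x)‖ ^ 2) := by ring
        _ ≤ _ := by gcongr
    calc (sd 0 x : ℝ) ^ 2 * (‖G V z (del 0) x‖ ^ 2 / T)
        = 1 / T * ((sd 0 x : ℝ) ^ 2 * ‖G V z (del 0) x‖ ^ 2) := by ring
      _ ≤ 1 / T * (2 * (‖rs W z 0 (ti M 0 x)‖ ^ 2 * ∑ i, (x i : ℝ) ^ 2) +
          2 * ((L : ℝ) ^ 2 * ‖G V z (del 0) x - rs W z 0 (ti M 0 x)‖ ^ 2)) := by gcongr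
      _ = _ := by ring
  refine (Finset.sum_le_sum h1).trans ?_
  rw [Finset.sum_add_distrib, ← Finset.mul_sum, ← Finset.mul_sum, Finset.sum_comm,
    ← Finset.mul_sum]
  have h2 : ∑ i, ∑ x ∈ box (0 : Site d) L,
      ‖rs W z 0 (ti M 0 x)‖ ^ 2 * (((0 - ti M 0 x) i).valMinAbs : ℝ) ^ 2 ≤ ∑ i, QQ z i W := by
    refine Finset.sum_le_sum fun i _ => ?_
    exact sum_ti hM (box 0 L) subset_rfl
      (fun y => ‖rs W z 0 y‖ ^ 2 * (((0 - y) i).valMinAbs : ℝ) ^ 2) (fun y => by positivity)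
  have h3 : 2 / T * ((L : ℝ) ^ 2 * ∑ x ∈ box (0 : Site d) L,
      ‖G V z (del 0) x - rs W z 0 (ti M 0 x)‖ ^ 2) ≤ 2 * C * T ^ 7 / (L : ℝ) ^ 4 := by
    calc 2 / T * ((L : ℝ) ^ 2 * ∑ x ∈ box (0 : Site d) L,
        ‖G V z (del 0) x - rs W z 0 (ti M 0 x)‖ ^ 2)
        ≤ 2 / T * ((L : ℝ) ^ 2 * (C / ((L : ℝ) ^ 6 * (1 / T) ^ 8))) := by gcongr
      _ = 2 * C * T ^ 7 / (L : ℝ) ^ 4 := by
        field_simp
  exact add_le_add (by gcongr) h3

/-- the bound for a fixed potential -/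
theorem pt_le {d M : ℕ} [NeZero M] (hd : 1 ≤ d) {C C' T E : ℝ} {L : ℕ} (V : Site d → ℝ)
    (hT : 0 < T) (hL : 1 ≤ L) (hM : 2 * L + 1 ≤ M)
    (h : ∑ y ∈ box 0 L, ‖G V ⟨E, 1 / T⟩ (del 0) y -
        rs (fun p : Tor d M => V (0 + rep p)) ⟨E, 1 / T⟩ 0 (ti M 0 y)‖ ^ 2 ≤
          C / ((L : ℝ) ^ 6 * (1 / T) ^ 8))
    (hs : Summable (fun y : Site d => (sd 0 y : ℝ) ^ 4 * ‖G V ⟨E, 1 / T⟩ (del 0) y‖ ^ 2))
    (hb : ∑' y : Site d, (sd 0 y : ℝ) ^ 4 * ‖G V ⟨E, 1 / T⟩ (del 0) y‖ ^ 2 ≤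
      C' / (1 / T) ^ 6) (hC : 0 ≤ C) :
    ∑' x : Site d, ENNReal.ofReal ((sd 0 x : ℝ) ^ 2 * rh V T E x) ≤
      ∑ i, ENNReal.ofReal (2 / T) * ENNReal.ofReal
        (QQ ⟨E, 1 / T⟩ i (fun p : Tor d M => V (0 + rep p))) +
        ENNReal.ofReal (2 * C * T ^ 7 / (L : ℝ) ^ 4 + C' * T ^ 5 / (L : ℝ) ^ 2) := by
  classical
  have hL0 : (0 : ℝ) < L := by exact_mod_cast hL
  have hrh : ∀ x, 0 ≤ rh V T E x := fun x => by unfold rh; positivity
  obtain ⟨F, hF⟩ : ∃ F : Site d → ℝ, F = fun x => (sd 0 x : ℝ) ^ 2 * rh V T E x := ⟨_, rfl⟩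
  obtain ⟨F4, hF4⟩ : ∃ F4 : Site d → ℝ, F4 = fun x => 1 / ((L : ℝ) ^ 2 * T) *
    ((sd 0 x : ℝ) ^ 4 * ‖G V ⟨E, 1 / T⟩ (del 0) x‖ ^ 2) := ⟨_, rfl⟩
  have hF0 : ∀ x, 0 ≤ F x := fun x => by
    rw [hF]
    exact mul_nonneg (by positivity) (hrh x)
  have hF40 : ∀ x, 0 ≤ F4 x := fun x => by rw [hF4]; positivity
  have h1 : ∀ x, ENNReal.ofReal (F x) ≤
      (if x ∈ box 0 L then ENNReal.ofReal (F x) else 0) + ENNReal.ofReal (F4 x) := by
    intro x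
    split_ifs with hx
    · exact le_self_add
    · rw [zero_add]
      apply ENNReal.ofReal_le_ofReal
      rw [mem_box, not_le] at hx
      have hx' : (L : ℝ) ≤ sd 0 x := by exact_mod_cast hx.le
      rw [hF, hF4]
      unfold rh
      simp only
      rw [one_div_mul_eq_div, le_div_iff₀ (by positivity)]
      calc (sd 0 x : ℝ) ^ 2 * (‖G V ⟨E, 1 / T⟩ (del 0) x‖ ^ 2 / T) * ((L : ℝ) ^ 2 * T)
          = (sd 0 x : ℝ) ^ 2 * (L : ℝ) ^ 2 * ‖G V ⟨E, 1 / T⟩ (del 0) x‖ ^ 2 := by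
            field_simp
        _ ≤ (sd 0 x : ℝ) ^ 2 * (sd 0 x : ℝ) ^ 2 * ‖G V ⟨E, 1 / T⟩ (del 0) x‖ ^ 2 := by gcongr
        _ = _ := by ring
  have h2 : ∑' x : Site d, ENNReal.ofReal (F4 x) ≤ ENNReal.ofReal (C' * T ^ 5 / (L : ℝ) ^ 2) := by
    have hs4 : Summable F4 := by
      rw [hF4]
      exact hs.mul_left _
    rw [← ENNReal.ofReal_tsum_of_nonneg hF40 hs4]
    apply ENNReal.ofReal_le_ofReal
    rw [hF4, tsum_mul_left]
    calc 1 / ((L : ℝ) ^ 2 * T) * ∑' x : Site d, (sd 0 x : ℝ) ^ 4 *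
        ‖G V ⟨E, 1 / T⟩ (del 0) x‖ ^ 2
        ≤ 1 / ((L : ℝ) ^ 2 * T) * (C' / (1 / T) ^ 6) := by gcongr
      _ = C' * T ^ 5 / (L : ℝ) ^ 2 := by field_simp
  have h3 : ∑' x : Site d, (if x ∈ box 0 L then ENNReal.ofReal (F x) else 0) ≤
      ∑ i, ENNReal.ofReal (2 / T) * ENNReal.ofReal
        (QQ ⟨E, 1 / T⟩ i (fun p : Tor d M => V (0 + rep p))) +
        ENNReal.ofReal (2 * C * T ^ 7 / (L : ℝ) ^ 4) := by
    rw [tsum_eq_sum (s := box 0 L) (fun x hx => if_neg hx)]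
    have e1 : ∑ x ∈ box (0 : Site d) L, (if x ∈ box 0 L then ENNReal.ofReal (F x) else 0) =
        ENNReal.ofReal (∑ x ∈ box (0 : Site d) L, F x) := by
      rw [ENNReal.ofReal_sum_of_nonneg (fun x _ => hF0 x)]
      exact Finset.sum_congr rfl fun x hx => if_pos hx
    rw [e1]
    have e2 := box_le (M := M) hd V hT hL hM h
    have e3 : ∑ x ∈ box (0 : Site d) L, F x = ∑ x ∈ box 0 L, (sd 0 x : ℝ) ^ 2 * rh V T E x := by
      rw [hF]
    rw [e3]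
    refine (ENNReal.ofReal_le_ofReal e2).trans ?_
    refine (ENNReal.ofReal_add_le).trans ?_
    refine add_le_add (le_of_eq ?_) le_rfl
    rw [Finset.mul_sum, ENNReal.ofReal_sum_of_nonneg
      (fun i _ => mul_nonneg (by positivity) (QQ_nn _ _ _))]
    exact Finset.sum_congr rfl fun i _ => ENNReal.ofReal_mul (by positivity)
  have hC'0 : 0 ≤ C' * T ^ 5 / (L : ℝ) ^ 2 := by
    have h5 : 0 ≤ ∑' y : Site d, (sd 0 y : ℝ) ^ 4 * ‖G V ⟨E, 1 / T⟩ (del 0) y‖ ^ 2 :=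
      tsum_nonneg fun y => by positivity
    have h6 := h5.trans hb
    have h7 : C' / (1 / T) ^ 6 = C' * T ^ 6 := by field_simp
    rw [h7] at h6
    have h8 : C' * T ^ 5 / (L : ℝ) ^ 2 = C' * T ^ 6 * (1 / (T * (L : ℝ) ^ 2)) := by
      field_simp
    rw [h8]
    positivity
  have h4 : ∑' x : Site d, ENNReal.ofReal ((sd 0 x : ℝ) ^ 2 * rh V T E x) =
      ∑' x, ENNReal.ofReal (F x) := by rw [hF]
  rw [h4, ENNReal.ofReal_add (by positivity) hC'0, ← add_assoc]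
  refine (ENNReal.tsum_le_tsum h1).trans ?_
  rw [ENNReal.tsum_add]
  exact add_le_add h3 h2

theorem smz (tsm : TsmStmt) (ltt : LttStmt) (bal : BalStmt) : SmzStmt := by
  intro d a ε hd ha hε hε1
  have hd1 : 1 ≤ d := by omega
  obtain ⟨θ₀, c₀, hθ₀, hc₀, hc₀4, H⟩ := tsm d a (ε / 2) hd ha (by linarith only [hε]) (by linarith only [hε1])
  obtain ⟨C, hC1, hC⟩ := ltt d hd1
  obtain ⟨C', hC'1, hC'⟩ := bal d hd1
  obtain ⟨c₁, hc₁, hc₁4, hn⟩ := nums hθ₀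
  obtain ⟨B, hB⟩ : ∃ B : ℝ, B = 2 * d + 8192 * C + 64 * C' := ⟨_, rfl⟩
  have hB1 : 1 ≤ B := by
    rw [hB]
    have : (0 : ℝ) ≤ d := Nat.cast_nonneg d
    linarith only [hc₀, hc₀4, hC1, hC'1]
  have hB0 : 0 < B := by linarith only [hc₀, hc₀4, hC1, hC'1, hB]
  refine ⟨θ₀ / 2, min (min c₀ c₁) (B ^ (-(2 / ε))), by linarith only [hθ₀],
    lt_min (lt_min hc₀ hc₁) (Real.rpow_pos_of_pos hB0 _),
    (min_le_left _ _).trans ((min_le_left _ _).trans hc₀4), ?_⟩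
  intro σ E T hσ hσc hE hT hTe
  obtain ⟨s, hs⟩ : ∃ s : ℝ, s = |σ| := ⟨_, rfl⟩
  rw [← hs] at hσc hT hTe ⊢
  have hs0 : 0 < s := hs ▸ abs_pos.2 hσ
  have hsc0 : s ≤ c₀ := hσc.trans ((min_le_left _ _).trans (min_le_left _ _))
  have hsc1 : s ≤ c₁ := hσc.trans ((min_le_left _ _).trans (min_le_right _ _))
  have hsB : s ≤ B ^ (-(2 / ε)) := hσc.trans (min_le_right _ _)
  have hs1 : s ≤ 1 := by linarith only [hc₀, hc₀4, hsc0]
  obtain ⟨hT64, hT3, hTs, M, L, hM0, hL1, hLM, hTM, hTL, hM5, hMe, hMd⟩ :=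
    hn s T hs0 hsc1 hT hTe
  have : NeZero M := ⟨hM0⟩
  have hT0 : 0 < T := by linarith only [hc₀, hc₀4, hT64]
  have hη : 0 < 1 / T := by positivity
  have hη1 : 1 / T ≤ 1 := by
    rw [div_le_one hT0]
    linarith only [hc₀, hc₀4, hT64]
  have hM2 : 2 * L + 1 ≤ M := by omega
  have hL0 : (0 : ℝ) < L := by exact_mod_cast hL1
  obtain ⟨v, hv⟩ : ∃ v : ℝ≥0, (v : ℝ) = σ ^ 2 := ⟨⟨σ ^ 2, sq_nonneg σ⟩, rfl⟩
  -- the torus
  have hq : ∀ i, ∫⁻ U, ENNReal.ofReal (QQ ⟨E, 1 / T⟩ i U) ∂(gau d M v) ≤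
      ENNReal.ofReal (s ^ (-2 - ε / 2) / (1 / T) ^ 2) := by
    intro i
    have h := H M v σ E (1 / T) i hv hσ (by rw [← hs]; exact hsc0) hE (by rw [← hs]; exact hM5)
      (by rw [← hs]; exact hMe) (by rw [← hs]; exact hMd d (ε / 2) hd (by linarith only [hε1, hc₀, hc₀4]))
      (by rw [← hs]; exact hTs)
    rw [← hs] at h
    exact h
  -- pointwise
  have hpt : ∀ V : Site d → ℝ, ∑' x : Site d, ENNReal.ofReal ((sd 0 x : ℝ) ^ 2 * rh V T E x) ≤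
      ∑ i, ENNReal.ofReal (2 / T) * ENNReal.ofReal
        (QQ ⟨E, 1 / T⟩ i (fun p : Tor d M => V (0 + rep p))) +
        ENNReal.ofReal (2 * C * T ^ 7 / (L : ℝ) ^ 4 + C' * T ^ 5 / (L : ℝ) ^ 2) := by
    intro V
    have h1 := ltt0 (M := M) V (hC M L V 0 E (1 / T) 0 hη hη1 hL1 hLM (by
      rw [sd_self]
      omega))
    obtain ⟨h2, h3⟩ := hC' V E (1 / T) 0 hη hη1
    exact pt_le hd1 V hT0 hL1 hM2 h1 h2 h3 (by linarith only [hc₀, hc₀4, hC1])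
  have hmq : ∀ i, Measurable fun U : Tor d M → ℝ => ENNReal.ofReal (QQ ⟨E, 1 / T⟩ i U) :=
    fun i => (QQ_meas (z := ⟨E, 1 / T⟩) hη i).ennreal_ofReal
  have hfm : Measurable fun (V : Site d → ℝ) (x : Tor d M) => V (0 + rep x) :=
    measurable_pi_lambda _ fun x => measurable_pi_apply _
  have hmq' : ∀ i, Measurable fun V : Site d → ℝ => ENNReal.ofReal
      (QQ ⟨E, 1 / T⟩ i (fun p : Tor d M => V (0 + rep p))) := fun i => (hmq i).comp hfm
  refine (lintegral_mono hpt).trans ?_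
  rw [lintegral_add_right _ measurable_const, lintegral_const, measure_univ, mul_one,
    lintegral_finsetSum _ (fun i _ => (hmq' i).const_mul _)]
  have h5 : ∀ i, ∫⁻ V, ENNReal.ofReal (2 / T) * ENNReal.ofReal
      (QQ ⟨E, 1 / T⟩ i (fun p : Tor d M => V (0 + rep p))) ∂(PP d (gl σ)) ≤
      ENNReal.ofReal (2 * T * s ^ (-2 - ε / 2)) := by
    intro i
    rw [lintegral_const_mul _ (hmq' i),
      lin_eq hσ hv 0 (fun U : Tor d M → ℝ => ENNReal.ofReal (QQ ⟨E, 1 / T⟩ i U)) (hmq i)]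
    refine (mul_le_mul_right (hq i) _).trans (le_of_eq ?_)
    rw [← ENNReal.ofReal_mul (by positivity)]
    congr 1
    field_simp
  have h6 : ∑ i : Fin d, ∫⁻ V, ENNReal.ofReal (2 / T) * ENNReal.ofReal
      (QQ ⟨E, 1 / T⟩ i (fun p : Tor d M => V (0 + rep p))) ∂(PP d (gl σ)) ≤
      ENNReal.ofReal (d * (2 * T * s ^ (-2 - ε / 2))) := by
    refine (Finset.sum_le_sum fun i _ => h5 i).trans (le_of_eq ?_)
    rw [Finset.sum_const, Finset.card_univ, Fintype.card_fin, nsmul_eq_mul,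
      ← ENNReal.ofReal_natCast, ← ENNReal.ofReal_mul (Nat.cast_nonneg _)]
  have hp : 0 < s ^ (-2 - ε / 2) := Real.rpow_pos_of_pos hs0 _
  refine (add_le_add h6 le_rfl).trans ?_
  rw [← ENNReal.ofReal_add (by positivity) (by positivity)]
  apply ENNReal.ofReal_le_ofReal
  -- the final numbers
  have k1 : 1 ≤ s ^ (-2 - ε / 2) :=
    Real.one_le_rpow_of_pos_of_le_one_of_nonpos hs0 hs1 (by linarith only [hε, hc₀, hc₀4])
  have k2 : B ≤ s ^ (-(ε / 2)) := by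
    have e1 : (B ^ (-(2 / ε))) ^ (-(ε / 2)) ≤ s ^ (-(ε / 2)) :=
      Real.rpow_le_rpow_of_nonpos hs0 hsB (by linarith only [hε])
    have e2 : (B ^ (-(2 / ε))) ^ (-(ε / 2)) = B := by
      rw [← Real.rpow_mul hB0.le]
      have : -(2 / ε) * -(ε / 2) = 1 := by field_simp
      rw [this, Real.rpow_one]
    rw [← e2]
    exact e1
  have k3 : s ^ (-2 - ε) = s ^ (-2 - ε / 2) * s ^ (-(ε / 2)) := by
    rw [← Real.rpow_add hs0]
    congr 1
    ring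
  have hs4 : s ^ 4 ≤ 1 := pow_le_one₀ hs0.le hs1
  have hTL' : T ^ 2 ≤ 8 * L := by
    calc T ^ 2 ≤ 8 * s ^ 4 * L := hTL
      _ ≤ 8 * 1 * L := by gcongr
      _ = 8 * L := by ring
  have k4 : 2 * C * T ^ 7 / (L : ℝ) ^ 4 ≤ 8192 * C * T := by
    rw [div_le_iff₀ (by positivity)]
    have e1 : T ^ 8 ≤ 4096 * (L : ℝ) ^ 4 := by
      calc T ^ 8 = (T ^ 2) ^ 4 := by ring
        _ ≤ (8 * (L : ℝ)) ^ 4 := by gcongr
        _ = 4096 * (L : ℝ) ^ 4 := by ring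
    have e2 : T ^ 7 ≤ T ^ 8 := pow_le_pow_right₀ (by linarith only [hc₀, hc₀4, hT64]) (by norm_num)
    have e3 : (1 : ℝ) ≤ T := by linarith only [hc₀, hc₀4, hT64]
    calc 2 * C * T ^ 7 ≤ 2 * C * T ^ 8 := by gcongr
      _ ≤ 2 * C * (4096 * (L : ℝ) ^ 4) := by gcongr
      _ = 8192 * C * 1 * (L : ℝ) ^ 4 := by ring
      _ ≤ 8192 * C * T * (L : ℝ) ^ 4 := by gcongr
  have k5 : C' * T ^ 5 / (L : ℝ) ^ 2 ≤ 64 * C' * T := by
    rw [div_le_iff₀ (by positivity)]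
    have e1 : T ^ 4 ≤ 64 * (L : ℝ) ^ 2 := by
      calc T ^ 4 = (T ^ 2) ^ 2 := by ring
        _ ≤ (8 * (L : ℝ)) ^ 2 := by gcongr
        _ = 64 * (L : ℝ) ^ 2 := by ring
    calc C' * T ^ 5 = C' * T * T ^ 4 := by ring
      _ ≤ C' * T * (64 * (L : ℝ) ^ 2) := by gcongr
      _ = 64 * C' * T * (L : ℝ) ^ 2 := by ring
  calc d * (2 * T * s ^ (-2 - ε / 2)) + (2 * C * T ^ 7 / (L : ℝ) ^ 4 + C' * T ^ 5 / (L : ℝ) ^ 2)
      ≤ d * (2 * T * s ^ (-2 - ε / 2)) + (8192 * C * T + 64 * C' * T) := by gcongr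
    _ = 2 * d * (T * s ^ (-2 - ε / 2)) + (8192 * C + 64 * C') * (T * 1) := by ring
    _ ≤ 2 * d * (T * s ^ (-2 - ε / 2)) + (8192 * C + 64 * C') * (T * s ^ (-2 - ε / 2)) := by
        gcongr
    _ = B * (T * s ^ (-2 - ε / 2)) := by rw [hB]; ring
    _ ≤ s ^ (-(ε / 2)) * (T * s ^ (-2 - ε / 2)) := by gcongr
    _ = s ^ (-2 - ε) * T := by rw [k3]; ring

end Pool.Agent.LE.QY.H60
end
end -- Pool.Agent.Helper60_LQY.SMZ
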