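import Pool.Agent.Helper12_MEB.B118

/-!
# Merged copies (generated) of the modules

* `Pool.Agent.Helper56_LIR.CLE`
-/

set_option autoImplicit false

section -- Pool.Agent.Helper56_LIR.CLE

/-!
# CLE: the cluster of a site is large
-/

set_option autoImplicit false

open MeasureTheory ProbabilityTheory Function Filter

open scoped ENNReal BigOperators Topology NNReal

noncomputable section

namespace Pool.Agent.LE.IR.H56

open Pool.Agent.Anderson hiding box mem_box card_box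
open Pool.Agent.Loc hiding nb
open Pool.Agent.Mob Pool.Agent.Helper54.Bal
  Pool.Agent.Helper96.EXP Pool.Agent.BED
open Pool.Agent.LE.MN Pool.Agent.LE.CL Pool.Agent.LE.CL.H48

theorem numT_of {d M : ℕ} [NeZero M] {A A' Cs Cm cB c w l lam μ ε η τ : ℝ} {n : ℕ} (hd : 3 ≤ d)
    (hCs : 1 ≤ Cs) (hCm : Cm ≤ A') (hcB : 0 < cB) (hc : 0 ≤ c) (hcc : c ≤ cB) (hc4 : 4 * c ≤ 1)
    (hcs : c ≤ (cB / (5 * Cs)) ^ 2) (hw : |w - 1| ≤ 1 / 10) (hlam : 0 < lam)
    (hμ : 0 < μ) (hlμ : 100 ≤ lam * μ) (hl0 : 0 < l) (hll : l ≤ lam) (hε : 0 < ε) (hεc : ε ≤ c)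
    (hn : 1 ≤ n) (hn2 : lam * (n * (1 + Real.log n)) ≤ c) (hη : 0 < η) (hηc : η ≤ c)
    (hηn : η * (1 + Real.log (1 / η)) * n ≤ c) (hηl : η ≤ l)
    (hgr : Cs * growth d n * (1 + Real.log n) * η ≤ l ^ (((d : ℝ) - 2) / 2)) (hτ : 0 ≤ τ)
    (hτ2 : τ ^ 2 * (1 / (n : ℝ)) ^ (((d : ℝ) - 2) / 2) * (1 + Real.log (1 / η)) ≤
      c * l ^ (((d : ℝ) - 2) / 2))
    (h2 : pm (fun p : Tor d M => if ds p ≤ 1 / (n : ℝ) then (mt l η p ^ 2)⁻¹ else 0) ≤
        Cm * l ^ (((d : ℝ) - 2) / 2) / η)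
    (h1 : pm (fun p : Tor d M => if ds p ≤ 1 / (n : ℝ) then (mt l η p)⁻¹ else 0) ≤
        Cm * (1 / (n : ℝ)) ^ (((d : ℝ) - 2) / 2) * (1 + Real.log (1 / η))) :
    NumT d M A' cB w l η τ (cB * η) (cB * η * l ^ (((d : ℝ) - 2) / 2)) (1 / n)
      (Cs * growth d n * (1 + Real.log n))
      (Cs * (ε + n * (lam + 1 / μ) + Real.sqrt (4 * l * (n * (1 + Real.log n)))))
      (l ^ (((d : ℝ) - 2) / 2))
      ((1 / (n : ℝ)) ^ (((d : ℝ) - 2) / 2) * (1 + Real.log (1 / η))) := by
  have hn1 : (1 : ℝ) ≤ n := by exact_mod_cast hn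
  have hn0 : (0 : ℝ) < n := by linarith only [hn1]
  have hd3 : (3 : ℝ) ≤ d := by exact_mod_cast hd
  have hlogn := Real.log_nonneg hn1
  have hη1 : η ≤ 1 := by linarith only [hηc, hc4]
  have hL : 0 ≤ Real.log (1 / η) := Real.log_nonneg (by rw [le_div_iff₀ hη]; linarith only [hηc, hc4])
  have hD0 : 0 < l ^ (((d : ℝ) - 2) / 2) := Real.rpow_pos_of_pos hl0 _
  have hgr0 := growth_nonneg (d := d) hn
  have hnl : lam * n ≤ c := by
    refine le_trans ?_ hn2
    refine mul_le_mul_of_nonneg_left ?_ hlam.le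
    exact le_mul_of_one_le_right hn0.le (by linarith only [hlogn])
  have hκ1 : (1 : ℝ) / n ≤ 1 := by
    rw [div_le_one hn0]
    exact hn1
  have hκ0 : (0 : ℝ) < 1 / n := by positivity
  have hlκ : 4 * l ≤ 1 / n := by
    rw [le_div_iff₀ hn0]
    have : l * n ≤ lam * n := mul_le_mul_of_nonneg_right hll hn0.le
    linarith only [this, hnl, hc4]
  have he0 : 0 ≤ ((d : ℝ) - 2) / 2 := by linarith only [hd3]
  have hb : (1 / (n : ℝ)) ^ (((d : ℝ) - 2) / 2) ≤
      (1 / (n : ℝ)) ^ (((d : ℝ) - 2) / 2) * (1 + Real.log (1 / η)) := by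
    have h3 : 0 < (1 / (n : ℝ)) ^ (((d : ℝ) - 2) / 2) := Real.rpow_pos_of_pos hκ0 _
    exact le_mul_of_one_le_right h3.le (by linarith only [hL])
  have hGη : growth d n * (1 + Real.log n) * η ≤ l ^ (((d : ℝ) - 2) / 2) := by
    refine le_trans ?_ hgr
    have h3 : 0 ≤ growth d n * (1 + Real.log n) * η := by positivity
    have h4 : Cs * growth d n * (1 + Real.log n) * η =
        Cs * (growth d n * (1 + Real.log n) * η) := by ring
    rw [h4]
    exact le_mul_of_one_le_left h3 hCs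
  refine ⟨hw, ⟨hη, ?_, hη1⟩, ⟨hl0, hlκ, hκ1⟩, ⟨hD0, ?_⟩, ⟨hb, ?_⟩, ⟨?_, hgr⟩, ⟨?_, le_rfl⟩,
    ⟨?_, le_rfl⟩, ⟨hτ, ?_⟩, ⟨?_, ?_⟩, ?_, ?_⟩
  · rw [mul_one_div cB, le_div_iff₀ hn0]
    linarith only [hηn, hcc]
  · refine le_trans ?_ hb
    exact Real.rpow_le_rpow hl0.le (by linarith only [hlκ, hl0]) he0
  · have h3 := growth_ge hd hn
    refine le_trans (mul_le_mul_of_nonneg_right h3 hη.le) (le_trans ?_ hGη)
    refine mul_le_mul_of_nonneg_right ?_ hη.le
    exact le_mul_of_one_le_right hgr0 (by linarith only [hlogn])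
  · positivity
  · positivity
  · positivity
  · rw [← mul_assoc]
    exact le_trans hτ2 (mul_le_mul_of_nonneg_right hcc hD0.le)
  · have h3 : 0 ≤ 1 / μ := by positivity
    have h4 := Real.sqrt_nonneg (4 * l * (n * (1 + Real.log n)))
    have h5 : 0 ≤ (n : ℝ) * (lam + 1 / μ) := by positivity
    positivity
  · have hc1 : 0 ≤ Real.sqrt c := Real.sqrt_nonneg c
    have hcsq : Real.sqrt c ^ 2 = c := Real.sq_sqrt hc
    have hc2 : Real.sqrt c ≤ cB / (5 * Cs) := Real.sqrt_le_iff.2 ⟨by positivity, hcs⟩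
    have hc3 : c ≤ Real.sqrt c := by
      have h3 : Real.sqrt c ≤ 1 := Real.sqrt_le_one.2 (by linarith only [hc4])
      calc c = Real.sqrt c * Real.sqrt c := (Real.mul_self_sqrt hc).symm
        _ ≤ Real.sqrt c * 1 := mul_le_mul_of_nonneg_left h3 hc1
        _ = Real.sqrt c := mul_one _
    have h3 : Real.sqrt (4 * l * (n * (1 + Real.log n))) ≤ 2 * Real.sqrt c := by
      refine Real.sqrt_le_iff.2 ⟨by positivity, ?_⟩
      rw [mul_pow, hcsq]
      have h4 : l * (n * (1 + Real.log n)) ≤ lam * (n * (1 + Real.log n)) :=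
        mul_le_mul_of_nonneg_right hll (by positivity)
      linarith only [h4, hn2]
    have h4 : 1 / μ ≤ lam := by
      rw [div_le_iff₀ hμ]
      linarith only [hlμ]
    have h5 : (n : ℝ) * (lam + 1 / μ) ≤ 2 * c := by
      have h6 : (n : ℝ) * (lam + 1 / μ) ≤ n * (2 * lam) :=
        mul_le_mul_of_nonneg_left (by linarith only [h4]) hn0.le
      linarith only [h6, hnl]
    have h6 : ε + n * (lam + 1 / μ) + Real.sqrt (4 * l * (n * (1 + Real.log n))) ≤
        5 * Real.sqrt c := by linarith only [h5, h3, hc3, hεc]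
    have hCs0 : 0 < Cs := by linarith only [hCs]
    calc Cs * (ε + n * (lam + 1 / μ) + Real.sqrt (4 * l * (n * (1 + Real.log n)))) ≤
        Cs * (5 * (cB / (5 * Cs))) := mul_le_mul_of_nonneg_left (by linarith only [h5, h3, hc3, hc2, hεc]) hCs0.le
      _ = cB := by
        field_simp
  · refine le_trans h2 ?_
    exact div_le_div_of_nonneg_right (mul_le_mul_of_nonneg_right hCm hD0.le) hη.le
  · refine le_trans h1 ?_
    rw [mul_assoc]
    exact mul_le_mul_of_nonneg_right hCm (by positivity)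

theorem cle (ble : BleStmt) (src : SrcStmt) (sms : SmsStmt) : CleStmt := by
  intro d A hd hA
  obtain ⟨Cs, hCs, hsrc⟩ := src d hd
  obtain ⟨Cm, hCm, hsms⟩ := sms d hd
  have hAA : A ≤ max A (max Cs Cm) := le_max_left _ _
  have hsA : Cs ≤ max A (max Cs Cm) := le_trans (le_max_left _ _) (le_max_right _ _)
  have hmA : Cm ≤ max A (max Cs Cm) := le_trans (le_max_right _ _) (le_max_right _ _)
  obtain ⟨A', hA'⟩ : ∃ A', A' = max A (max Cs Cm) := ⟨_, rfl⟩
  rw [← hA'] at hAA hsA hmA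
  obtain ⟨c₁, cB, c₂, hc₁, hc₁A, hcB, hcB1, hc₂, hble⟩ := ble d A' hd (hA.trans hAA)
  have hA'0 : 0 < A' := by linarith only [hmA, hCm]
  have hc₁1 : c₁ ≤ 1 := by
    refine le_trans hc₁A ?_
    rw [div_le_one hA'0]
    linarith only [hmA, hCm]
  have hd3 : (3 : ℝ) ≤ d := by exact_mod_cast hd
  have hCs0 : 0 < Cs := by linarith only [hCs]
  obtain ⟨c, hc⟩ : ∃ c : ℝ, c = min (min (1 / 50) c₁) (min cB (min ((cB / (5 * Cs)) ^ 2)
    (cB / (16 * 5 ^ d * (4 * d + 2) ^ 2)))) := ⟨_, rfl⟩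
  have hc50 : c ≤ 1 / 50 := by rw [hc]; exact le_trans (min_le_left _ _) (min_le_left _ _)
  have hcc₁ : c ≤ c₁ := by rw [hc]; exact le_trans (min_le_left _ _) (min_le_right _ _)
  have hccB : c ≤ cB := by rw [hc]; exact le_trans (min_le_right _ _) (min_le_left _ _)
  have hcs : c ≤ (cB / (5 * Cs)) ^ 2 := by
    rw [hc]
    exact le_trans (min_le_right _ _) (le_trans (min_le_right _ _) (min_le_left _ _))
  have hck : c ≤ cB / (16 * 5 ^ d * (4 * d + 2) ^ 2) := by
    rw [hc]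
    exact le_trans (min_le_right _ _) (le_trans (min_le_right _ _) (min_le_right _ _))
  have hc0 : 0 < c := by
    rw [hc]
    refine lt_min (lt_min (by norm_num) hc₁) (lt_min hcB (lt_min (by positivity) ?_))
    positivity
  refine ⟨c₁, c, c₂, Cs + Cm + (d + 1) * (16 * d) / cB, hc₁, hc₁1, hc0, hc50, hc₂, ?_, ?_⟩
  · have : 0 ≤ (d + 1) * (16 * d) / cB := by positivity
    linarith only [this, hCm, hCs]
  intro M n N R R₁ J _ V b z μ ε lam w l η τ s a T Kq q hz hμ hlμ hε hεc hw hl hF hW hn hnM hn2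
    hη hηc hηn hηd hgr hτ hτ2 hCM hT1 hT2 hKq hq hR hbox hJR hJ ha hR₁ hs hdet hG
  obtain ⟨C, hC⟩ : ∃ C : ℝ, C = Cs + Cm + (d + 1) * (16 * d) / cB := ⟨_, rfl⟩
  rw [← hC] at hgr hCM hR₁ hs
  have hC3 : 0 ≤ (d + 1) * (16 * d) / cB := by positivity
  have hCCs : Cs ≤ C := by linarith only [hC3, hC, hCm]
  have hCCm : Cm ≤ C := by linarith only [hC3, hC, hCs]
  have hCd : (d + 1) * (16 * d) / cB ≤ C := by linarith only [hC, hCm, hCs]
  have hC0 : 0 ≤ C := by linarith only [hC3, hC, hCm, hCs]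
  have hn1 : (1 : ℝ) ≤ n := by exact_mod_cast hn
  have hn0 : (0 : ℝ) < n := by linarith only [hn1]
  have hlogn := Real.log_nonneg hn1
  have hlam : 0 < lam := by
    by_contra h
    have := mul_nonpos_of_nonpos_of_nonneg (not_lt.mp h) hμ.le
    linarith only [this, hlμ]
  have hη1 : η ≤ 1 := by linarith only [hηc, hc50]
  have hL : 0 ≤ Real.log (1 / η) := Real.log_nonneg (by rw [le_div_iff₀ hη]; linarith only [hηc, hc50])
  have hlR : 0 ≤ Real.log R := Real.log_natCast_nonneg R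
  have hnl : lam * n ≤ c := by
    refine le_trans ?_ hn2
    refine mul_le_mul_of_nonneg_left ?_ hlam.le
    exact le_mul_of_one_le_right hn0.le (by linarith only [hlogn])
  have hlam1 : lam ≤ 1 := (le_mul_of_one_le_right hlam.le hn1).trans (by linarith only [hnl, hc50])
  have hw1 := (abs_le.1 hw).1
  have hw2 := (abs_le.1 hw).2
  have hw0 : 0 < w := by linarith only [hw1]
  have hμw : 0 < 1 / (μ * w) := by positivity
  have hμw2 : 1 / (μ * w) ≤ lam / 2 := by
    rw [div_le_iff₀ (by positivity)]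
    have h1 : 100 * (9 / 10) ≤ (lam * μ) * w :=
      mul_le_mul hlμ (by linarith only [hw1]) (by norm_num) (by positivity)
    have h2 : lam / 2 * (μ * w) = (lam * μ) * w / 2 := by ring
    rw [h2]
    linarith only [h1]
  have hll : l ≤ lam := by rw [hl]; linarith only [hμw]
  have hl0 : 0 < l := by rw [hl]; linarith only [hμw2, hlam]
  have hnl2 : n * l ≤ 1 := by
    have : n * l ≤ n * lam := mul_le_mul_of_nonneg_left hll hn0.le
    linarith only [this, hnl, hc50]
  have hηl : η ≤ l := by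
    refine le_trans ?_ hηd
    have h1 : 1 ≤ 1 / (n * l) := by
      rw [le_div_iff₀ (by positivity)]
      linarith only [hnl2]
    have h2 : 1 ≤ (1 / (n * l)) ^ d := one_le_pow₀ h1
    exact le_mul_of_one_le_right hη.le h2
  have hκ1 : (1 : ℝ) / n ≤ 1 := by
    rw [div_le_one hn0]
    exact hn1
  have hlκ : 4 * l ≤ 1 / n := by
    rw [le_div_iff₀ hn0]
    have : l * n ≤ lam * n := mul_le_mul_of_nonneg_right hll hn0.le
    linarith only [this, hnl, hc50]
  have hD0 : 0 < l ^ (((d : ℝ) - 2) / 2) := Real.rpow_pos_of_pos hl0 _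
  have hMm : Cm / η ≤ M := le_trans (div_le_div_of_nonneg_right hCCm hη.le) hCM
  have hgr0 := growth_nonneg (d := d) hn
  have h1μ : 1 / μ ≤ lam := by
    rw [div_le_iff₀ hμ]
    linarith only [hlμ]
  have hnlm : n * (lam + 1 / μ) ≤ 1 := by
    have h6 : (n : ℝ) * (lam + 1 / μ) ≤ n * (2 * lam) :=
      mul_le_mul_of_nonneg_left (by linarith only [h1μ]) hn0.le
    linarith only [h6, hnl, hc50]
  obtain ⟨hsm1, hsm2⟩ := hsms M l η (1 / n) hη hηl hlκ hκ1 hMm
  have hsm3 := hsm1 (by rw [div_div]; exact hηd)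
  have hnum := numT_of (M := M) (A' := A') (A := A) (μ := μ) (ε := ε) (lam := lam) hd hCs hmA hcB
    hc0.le hccB (by linarith only [hc50]) hcs hw hlam hμ hlμ hl0 hll hε hεc hn hn2 hη hηc hηn hηl (by
      refine le_trans ?_ hgr
      refine mul_le_mul_of_nonneg_right (mul_le_mul_of_nonneg_right
        (mul_le_mul_of_nonneg_right hCCs hgr0) (by linarith only [hlogn])) hη.le) hτ hτ2 hsm3 hsm2
  -- the clusters
  have hR₁0 : 0 < R₁ := by
    by_contra hcon
    have h0 : R₁ = 0 := by omega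
    rw [h0, Nat.cast_zero, mul_zero] at hR₁
    have h1 : 0 < Real.log (1 / η) := Real.log_pos (by rw [lt_div_iff₀ hη]; linarith only [hηc, hc50])
    have h2 : 0 < C := by linarith only [hC3, hC, hCm, hCs]
    have h3 : 0 < C * (a + Real.log (1 / η) + Real.log R) := by positivity
    linarith only [h3, hR₁]
  have hJ0 : 0 < J := by
    by_contra hcon
    have h0 : J = 0 := by omega
    rw [h0, pow_zero] at hJ
    have : 0 < (2 * R + 1) ^ d := by positivity
    omega
  have hRR : 1 ≤ R := by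
    have h1 : 1 * 1 ≤ J * R₁ := Nat.mul_le_mul hJ0 hR₁0
    omega
  obtain ⟨j, hj, hcard⟩ := pigeon (V := V) (Λ := box 0 N) (E := z - lam) (s := s) (b := b) hJ hJR
  have hjR : j * R₁ + R₁ ≤ R := by
    have h1 : (j + 1) * R₁ ≤ J * R₁ := Nat.mul_le_mul_right _ (by omega)
    rw [Nat.succ_mul] at h1
    omega
  obtain ⟨κ, hκ⟩ : ∃ κ : ℝ, κ = cB * η / (16 * d) := ⟨_, rfl⟩
  have hκ0 : 0 ≤ κ := by rw [hκ]; positivity
  have hφ : 16 * d * κ = cB * η := by
    rw [hκ]
    field_simp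
  have hκ1' : κ ≤ 1 := by
    rw [hκ, div_le_one (by positivity)]
    have h1 : cB * η ≤ 1 * 1 := mul_le_mul hcB1 hη1 hη.le zero_le_one
    linarith only [h1, hd3]
  have hpos : 0 < 16 * 5 ^ d * (4 * (d : ℝ) + 2) ^ 2 := by positivity
  have hnum2 := num_eps2 (d := d) (R := R) (n := j * R₁ + R₁ + 1) (c := cB) (η := η) (κ := κ)
    (s := s) (a := a) (K := 4 * d + 2) hRR (by omega) hη hη1 (by positivity) (by
      have h1 := le_trans hηc hck
      rw [le_div_iff₀ hpos] at h1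
      linarith only [h1]) (m := R₁) (by
      refine le_trans ?_ hs
      have h1 : (d : ℝ) + 1 ≤ C := by
        refine le_trans ?_ hCd
        rw [le_div_iff₀ hcB]
        exact mul_le_mul_of_nonneg_left (by linarith only [hd3, hcB1]) (by positivity)
      calc ((d : ℝ) + 1) * (Real.log (1 / η) + Real.log R) ≤
          C * (Real.log (1 / η) + Real.log R) := mul_le_mul_of_nonneg_right h1 (by linarith only [hlR, hL])
        _ ≤ C * (1 + Real.log (1 / η) + Real.log R) :=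
            mul_le_mul_of_nonneg_left (by linarith only []) hC0) (by
      have h1 : (d + 1) * (16 * d) / cB * (a + Real.log (1 / η) + Real.log R) ≤ η * R₁ :=
        le_trans (mul_le_mul_of_nonneg_right hCd (by linarith only [hlR, hL, ha])) hR₁
      have h2 : (cB / (16 * d)) * ((d + 1) * (16 * d) / cB *
          (a + Real.log (1 / η) + Real.log R)) ≤ (cB / (16 * d)) * (η * R₁) :=
        mul_le_mul_of_nonneg_left h1 (by positivity)
      have h3 : (cB / (16 * d)) * ((d + 1) * (16 * d) / cB *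
          (a + Real.log (1 / η) + Real.log R)) =
          (d + 1) * (a + Real.log (1 / η) + Real.log R) := by
        field_simp
      have h4 : (cB / (16 * d)) * (η * R₁) = κ * R₁ := by
        rw [hκ]
        ring
      rw [h3, h4] at h2
      have h5 : a ≤ (d + 1) * a := le_mul_of_one_le_left (by linarith only [ha]) (by linarith only [])
      linarith only [h5, h2])
  have hnum3 : 4 * ((2 * ((j * R₁ + R₁ + 1 : ℕ) : ℝ) + 1) ^ d *
      ((4 * d + 2) * (Real.exp (-s) + Real.exp (a - κ * R₁))) ^ 2) ≤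
        cB * η * l ^ (((d : ℝ) - 2) / 2) := by
    refine le_trans hnum2 ?_
    rw [pow_succ, mul_comm (η ^ d), ← mul_assoc]
    refine mul_le_mul_of_nonneg_left ?_ (by positivity)
    have h1 : η ^ d ≤ l ^ d := pow_le_pow_left₀ hη.le hηl d
    refine le_trans h1 ?_
    rw [← Real.rpow_natCast]
    refine Real.rpow_le_rpow_of_exponent_ge hl0 (by linarith only [hμw, hlam1, hl]) ?_
    linarith only []
  have hsrc2 := fun x : Tor d M => hsrc M z μ ε lam (fun x : Tor d M => V (b + rep x)) n x hz hμ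
    hε (by linarith only [hεc, hc50]) hF hlam.le hnlm hnM hn
  have hsys := sysT_of (M := M) (V := V) (Λ := box 0 N) (z := z) (lam := lam) (w := w) (l := l)
    (η := η) (τ := τ) (κ := κ) (s := s) (a := a) (A' := A') (cB := cB)
    (D₀ := l ^ (((d : ℝ) - 2) / 2)) (b := b) (r₀ := j * R₁) (m := R₁) (R := R) (n := n)
    (C := Sq V (box 0 N) (z - lam) s b R₁ j) (C' := Sq V (box 0 N) (z - lam) s b R₁ (j + 1))
    hμ hz hε (by linarith only [hεc, hc50]) hF hsrc2 hCs0.le hsA hn hlam.le hlam1 hκ0 hκ1' hφ hR hjR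
    (fun y hy => hbox (box_mono b (by omega) hy)) (Sq_self j) (Sq_box j) hR₁0 rfl hcard hdet
    (fun x hx y hy => hG x (box_mono b (by omega) hx) y (box_mono b (by omega) hy)) hnum3 hW
  have hT1' : 1 ≤ T := by
    refine le_trans ?_ hT1
    rw [le_div_iff₀ hη]
    linarith only [hηc, hcc₁]
  have hc₁η : 0 ≤ c₁ / η := by positivity
  have hC'R : Sq V (box 0 N) (z - lam) s b R₁ (j + 1) ⊆ box b R := fun y hy =>
    box_mono b (by rw [Nat.succ_mul]; exact hjR) (Sq_box (j + 1) hy)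
  have hfin := hble M (2 * R) _ _ _ _ _ _ _ _ _ _ _ _ _ _ T Kq _ _ _ _ _ _ _ q hnum hsys hT1
    (le_trans hT2 (mul_le_mul_of_nonneg_right hAA hc₁η)) hT1' hKq.le
    (tst_mono hA hAA hD0.le hT1' hq) (by
      intro x hx y hy
      rw [mem_im hR hC'R] at hx hy
      exact tds_lf (mem_box.1 (hC'R hx)) (mem_box.1 (hC'R hy)))
  rw [card_im hR hC'R] at hfin
  have h1 : (Sq V (box 0 N) (z - lam) s b R₁ (j + 1)).card ≤
      (rch V (box 0 N) (z - lam) s b R J).card := by
    refine Finset.card_le_card ?_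
    intro y hy
    refine rch_mono (by omega : j + 1 ≤ J) (Sq_rch (j + 1) ?_ hy)
    rw [Nat.succ_mul]
    exact hjR
  have h2 : ((Sq V (box 0 N) (z - lam) s b R₁ (j + 1)).card : ℝ) ≤
      (rch V (box 0 N) (z - lam) s b R J).card := by exact_mod_cast h1
  rw [div_le_iff₀ (by positivity)]
  exact le_trans hfin (mul_le_mul_of_nonneg_right h2 (by positivity))

end Pool.Agent.LE.IR.H56
end
end -- Pool.Agent.Helper56_LIR.CLE
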