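import Pool.Agent.Helper12_MEB.B084
import Pool.Agent.Helper12_MEB.B116

/-!
# Merged copies (generated) of the modules

* `Pool.Agent.Helper70_LQD.RES`
* `Pool.Agent.Helper70_LQD.SOBA`
* `Pool.Agent.Helper70_LQD.SOB`
* `Pool.Agent.Helper70_LQD.FBP`
-/

set_option autoImplicit false

section -- Pool.Agent.Helper70_LQD.RES

set_option autoImplicit false

open MeasureTheory ProbabilityTheory Function Filter

open scoped ENNReal BigOperators Topology NNReal ComplexOrder Matrix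

noncomputable section

namespace Pool.Agent.LE.QD.H70

open Pool.Agent.Anderson hiding box mem_box card_box
open Pool.Agent.Loc Pool.Agent.Mob Pool.Agent.Helper54.Bal
  Pool.Agent.Helper96.EXP Pool.Agent.BED
open Pool.Agent.LE.MN Pool.Agent.LE.CL Pool.Agent.LE.IR Pool.Agent.LE.IR.H54

variable {d M : ℕ} [NeZero M]

theorem Mpos : (0 : ℝ) < (M : ℝ) ^ d := by
  have h : 0 < M := Nat.pos_of_ne_zero (NeZero.ne M)
  positivity

theorem pm_mono {F G : Tor d M → ℝ} (h : ∀ p, F p ≤ G p) : pm F ≤ pm G := by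
  unfold pm
  exact div_le_div_of_nonneg_right (Finset.sum_le_sum fun p _ => h p) Mpos.le

theorem pm_nonneg {F : Tor d M → ℝ} (h : ∀ p, 0 ≤ F p) : 0 ≤ pm F := by
  unfold pm
  exact div_nonneg (Finset.sum_nonneg fun p _ => h p) Mpos.le

theorem pm_cmul (c : ℝ) (F : Tor d M → ℝ) : pm (fun p => c * F p) = c * pm F := by
  unfold pm
  rw [← Finset.mul_sum, mul_div_assoc]

theorem pm_sub (F G : Tor d M → ℝ) : pm (fun p => F p - G p) = pm F - pm G := by
  unfold pm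
  rw [Finset.sum_sub_distrib, sub_div]

/-- Cauchy-Schwarz with a weight -/
theorem cs_pm (m : Tor d M → ℝ) (hm : ∀ p, 0 < m p) (a b : Tor d M → ℂ) :
    ‖(∑ p, (starRingEnd ℂ) (a p) * b p) / (M : ℂ) ^ d‖ ^ 2 ≤
      pm (fun p => m p * ‖a p‖ ^ 2) * pm (fun p => (m p)⁻¹ * ‖b p‖ ^ 2) := by
  have h1 : ‖∑ p, (starRingEnd ℂ) (a p) * b p‖ ≤
      ∑ p, (Real.sqrt (m p) * ‖a p‖) * (‖b p‖ / Real.sqrt (m p)) := by
    refine (norm_sum_le _ _).trans (Finset.sum_le_sum fun p _ => ?_)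
    rw [norm_mul, RCLike.norm_conj]
    have h2 : 0 < Real.sqrt (m p) := Real.sqrt_pos.2 (hm p)
    refine le_of_eq ?_
    field_simp
  have h2 := Finset.sum_mul_sq_le_sq_mul_sq Finset.univ (fun p => Real.sqrt (m p) * ‖a p‖)
    (fun p => ‖b p‖ / Real.sqrt (m p))
  have h3 : ‖∑ p, (starRingEnd ℂ) (a p) * b p‖ ^ 2 ≤
      (∑ p, m p * ‖a p‖ ^ 2) * ∑ p, (m p)⁻¹ * ‖b p‖ ^ 2 := by
    have h4 : ‖∑ p, (starRingEnd ℂ) (a p) * b p‖ ^ 2 ≤
        (∑ p, (Real.sqrt (m p) * ‖a p‖) * (‖b p‖ / Real.sqrt (m p))) ^ 2 := by gcongr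
    refine h4.trans (h2.trans (le_of_eq ?_))
    congr 1
    · refine Finset.sum_congr rfl fun p _ => ?_
      rw [mul_pow, Real.sq_sqrt (hm p).le]
    · refine Finset.sum_congr rfl fun p _ => ?_
      rw [div_pow, Real.sq_sqrt (hm p).le]
      ring
  rw [norm_div, norm_pow, Complex.norm_natCast, div_pow]
  unfold pm
  have h5 : (0 : ℝ) < (M : ℝ) ^ d := Mpos
  rw [div_mul_div_comm, div_le_div_iff₀ (by positivity) (by positivity)]
  calc ‖∑ p, (starRingEnd ℂ) (a p) * b p‖ ^ 2 * ((M : ℝ) ^ d * (M : ℝ) ^ d)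
      ≤ ((∑ p, m p * ‖a p‖ ^ 2) * ∑ p, (m p)⁻¹ * ‖b p‖ ^ 2) * ((M : ℝ) ^ d * (M : ℝ) ^ d) := by
        gcongr
    _ = _ := by ring

/-- action of the operator -/
theorem hz_mulVec (V : Tor d M → ℝ) (z : ℂ) (u : Tor d M → ℂ) (x : Tor d M) :
    (hz V z *ᵥ u) x = (2 * (d : ℂ) - z) * u x -
      ∑ i : Fin d, (2 * u x - u (x + ev i) - u (x - ev i)) + (V x : ℂ) * u x := by
  unfold hz
  rw [Matrix.add_mulVec, Pi.add_apply, Matrix.mulVec_diagonal]
  have h1 : ((adj d M).map (fun a : ℝ => (a : ℂ)) *ᵥ u) x =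
      ∑ i : Fin d, (u (x + ev i) + u (x - ev i)) := by
    have h0 : ∀ (i : Fin d) (y a : Tor d M), ((if y = a then (1 : ℝ) else 0 : ℝ) : ℂ) * u y =
        if y = a then u y else 0 := by
      intro i y a
      split_ifs <;> simp
    unfold Matrix.mulVec dotProduct adj
    simp only [Matrix.map_apply, Matrix.of_apply]
    push_cast
    simp only [Finset.sum_mul]
    rw [Finset.sum_comm]
    refine Finset.sum_congr rfl fun i _ => ?_
    simp only [add_mul, Finset.sum_add_distrib]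
    have h5 : ∀ a : Tor d M, ∑ y, ((if y = a then (1 : ℝ) else 0 : ℝ) : ℂ) * u y = u a := by
      intro a
      rw [Finset.sum_congr rfl fun y _ => h0 i y a, Finset.sum_ite_eq' Finset.univ a u]
      simp
    rw [h5, h5]
  have h2 : ∑ i : Fin d, (2 * u x - u (x + ev i) - u (x - ev i)) =
      2 * (d : ℂ) * u x - ∑ i : Fin d, (u (x + ev i) + u (x - ev i)) := by
    have h3 : ∀ i : Fin d, 2 * u x - u (x + ev i) - u (x - ev i) =
        2 * u x - (u (x + ev i) + u (x - ev i)) := fun i => by ring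
    simp only [h3]
    rw [Finset.sum_sub_distrib, Finset.sum_const, Finset.card_univ, Fintype.card_fin, nsmul_eq_mul]
    ring
  rw [h1, h2]
  ring

theorem ft_hz (V : Tor d M → ℝ) (z : ℂ) (u : Tor d M → ℂ) (p : Tor d M) :
    ft (hz V z *ᵥ u) p = ((es p : ℂ) - z) * ft u p + ft (fun x => (V x : ℂ) * u x) p := by
  have h1 : (hz V z *ᵥ u) = fun x => (fun x => (fun x => (2 * (d : ℂ) - z) * u x) x -
      (fun x => ∑ i : Fin d, (2 * u x - u (x + ev i) - u (x - ev i))) x) x +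
        (fun x => (V x : ℂ) * u x) x := funext fun x => hz_mulVec V z u x
  rw [h1, ft_add, ft_sub, ft_smul, ft_lap]
  unfold es
  push_cast
  ring

/-- the weight -/
theorem mt_sq (E η : ℝ) (p : Tor d M) : mt (2 * d - E) η p ^ 2 = (es p - E) ^ 2 + η ^ 2 := by
  unfold Pool.Agent.LE.IR.mt es
  rw [Real.sq_sqrt (by positivity)]
  ring

theorem mt_pos (E : ℝ) {η : ℝ} (hη : 0 < η) (p : Tor d M) : 0 < mt (2 * d - E) η p := by
  unfold Pool.Agent.LE.IR.mt
  apply Real.sqrt_pos.2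
  positivity

theorem le_mt (E : ℝ) {η : ℝ} (hη : 0 < η) (p : Tor d M) : η ≤ mt (2 * d - E) η p := by
  unfold Pool.Agent.LE.IR.mt
  apply Real.le_sqrt_of_sq_le
  nlinarith only [sq_nonneg (ds p - (2 * d - E))]

/-- real part of the quadratic expression -/
theorem conj_mul_re (r : ℝ) (c w : ℂ) :
    ((starRingEnd ℂ) ((r : ℂ) * w) * (c * w)).re = r * c.re * ‖w‖ ^ 2 := by
  have h1 : (starRingEnd ℂ) ((r : ℂ) * w) * (c * w) = (r : ℂ) * c * ((starRingEnd ℂ) w * w) := by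
    rw [map_mul, Complex.conj_ofReal]
    ring
  have h2 : (starRingEnd ℂ) w * w = ((‖w‖ ^ 2 : ℝ) : ℂ) := by
    rw [mul_comm, Complex.mul_conj, Complex.normSq_eq_norm_sq]
  rw [h1, h2, Complex.re_mul_ofReal, Complex.re_ofReal_mul]

theorem re_div_M (a : ℂ) : (a / (M : ℂ) ^ d).re = a.re / (M : ℝ) ^ d := by
  have h : (M : ℂ) ^ d = (((M : ℝ) ^ d : ℝ) : ℂ) := by push_cast; rfl
  rw [h, Complex.div_ofReal_re]

/-- (a) -/
theorem parta {V : Tor d M → ℝ} {E η η₁ : ℝ} (hη₁ : 0 < η₁)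
    (hFB : FBq E η₁ (1 / 4) V) (u : Tor d M → ℂ) :
    qn E η₁ u ≤ 2 * pm (fun p => (mt (2 * d - E) η₁ p)⁻¹ * ‖ft (hz V ⟨E, η⟩ *ᵥ u) p‖ ^ 2) +
      2 * η₁ * n2 u := by
  set w := hz V ⟨E, η⟩ *ᵥ u with hw
  set m : Tor d M → ℝ := fun p => mt (2 * d - E) η₁ p with hm
  have hm0 : ∀ p, 0 < m p := fun p => mt_pos E hη₁ p
  set Y2 := qn E η₁ u with hY2
  set W2 := pm (fun p => (m p)⁻¹ * ‖ft w p‖ ^ 2) with hW2
  obtain ⟨g, hg⟩ := surj (d := d) (M := M) fun p => (((es p - E) / m p : ℝ) : ℂ) * ft u p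
  have hY0 : 0 ≤ Y2 := pm_nonneg fun p => by
    have := hm0 p
    positivity
  have hW0 : 0 ≤ W2 := pm_nonneg fun p => by
    have := hm0 p
    positivity
  have hXm : ∀ p, (es p - E) ^ 2 ≤ m p ^ 2 := fun p => by
    rw [hm]
    simp only
    rw [mt_sq]
    nlinarith only [sq_nonneg η₁]
  have hgY : pm (fun p => m p * ‖ft g p‖ ^ 2) ≤ Y2 := by
    refine pm_mono fun p => ?_
    rw [hg, norm_mul, mul_pow, Complex.norm_real, Real.norm_eq_abs, sq_abs, div_pow]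
    have h1 : (es p - E) ^ 2 / m p ^ 2 ≤ 1 := by
      rw [div_le_one (by have := hm0 p; positivity)]
      exact hXm p
    have h2 : (es p - E) ^ 2 / m p ^ 2 * ‖ft u p‖ ^ 2 ≤ 1 * ‖ft u p‖ ^ 2 := by gcongr
    rw [one_mul] at h2
    exact mul_le_mul_of_nonneg_left h2 (hm0 p).le
  -- the two scalar products
  have hA : ‖∑ x, (starRingEnd ℂ) (g x) * w x‖ ^ 2 ≤ Y2 * W2 := by
    rw [parseval2]
    refine (cs_pm m hm0 _ _).trans ?_
    gcongr
  have hB : ‖∑ x, (starRingEnd ℂ) (g x) * ((V x : ℂ) * u x)‖ ^ 2 ≤ (1 / 4) ^ 2 * (Y2 * Y2) := by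
    refine (hFB u g).trans ?_
    have h1 : qn E η₁ g ≤ Y2 := hgY
    gcongr
  have hA' : ‖∑ x, (starRingEnd ℂ) (g x) * w x‖ ≤ Y2 / 4 + W2 := by
    refine abs_le_of_sq_le_sq' ?_ (by positivity) |>.2
    nlinarith [sq_nonneg (Y2 / 4 - W2)]
  have hB' : ‖∑ x, (starRingEnd ℂ) (g x) * ((V x : ℂ) * u x)‖ ≤ Y2 / 4 := by
    refine abs_le_of_sq_le_sq' ?_ (by positivity) |>.2
    nlinarith
  -- the identity
  have hI : ((∑ x, (starRingEnd ℂ) (g x) * w x) -
      ∑ x, (starRingEnd ℂ) (g x) * ((V x : ℂ) * u x)).re =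
      pm (fun p => (es p - E) ^ 2 / m p * ‖ft u p‖ ^ 2) := by
    rw [parseval2 w g, parseval2 (fun x => (V x : ℂ) * u x) g, ← sub_div, ← Finset.sum_sub_distrib, re_div_M]
    unfold pm
    congr 1
    rw [Complex.re_sum]
    refine Finset.sum_congr rfl fun p _ => ?_
    rw [hw, ft_hz, ← mul_sub, add_sub_cancel_right, hg, conj_mul_re]
    have h1 : ((es p : ℂ) - (⟨E, η⟩ : ℂ)).re = es p - E := by simp
    rw [h1]
    ring
  have hlow : Y2 - η₁ * n2 u ≤ pm (fun p => (es p - E) ^ 2 / m p * ‖ft u p‖ ^ 2) := by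
    have h1 : n2 u = pm fun p => ‖ft u p‖ ^ 2 := parseval1 u
    rw [h1, ← pm_cmul, hY2]
    unfold qn
    rw [← pm_sub]
    refine pm_mono fun p => ?_
    have h2 : m p - η₁ ≤ (es p - E) ^ 2 / m p := by
      rw [le_div_iff₀ (hm0 p)]
      have h3 : m p ^ 2 = (es p - E) ^ 2 + η₁ ^ 2 := mt_sq E η₁ p
      have h4 : η₁ ≤ m p := le_mt E hη₁ p
      nlinarith only [hη₁, h3, h4]
    have h5 : (m p - η₁) * ‖ft u p‖ ^ 2 ≤ (es p - E) ^ 2 / m p * ‖ft u p‖ ^ 2 := by gcongr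
    refine le_trans (le_of_eq ?_) h5
    ring
  have hup : ((∑ x, (starRingEnd ℂ) (g x) * w x) -
      ∑ x, (starRingEnd ℂ) (g x) * ((V x : ℂ) * u x)).re ≤ (Y2 / 4 + W2) + Y2 / 4 := by
    refine (Complex.re_le_norm _).trans ((norm_sub_le _ _).trans ?_)
    linarith
  rw [hI] at hup
  linarith

/-- (b) -/
theorem partb {V : Tor d M → ℝ} {E η₁ : ℝ} (hη₁ : 0 < η₁)
    (hFB : FBq E η₁ (1 / 4) V) (u : Tor d M → ℂ) :
    qn E η₁ u ≤
      16 / 9 * pm (fun p => (mt (2 * d - E) η₁ p)⁻¹ * ‖ft (hz V ⟨E, η₁⟩ *ᵥ u) p‖ ^ 2) := by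
  set w := hz V ⟨E, η₁⟩ *ᵥ u with hw
  set m : Tor d M → ℝ := fun p => mt (2 * d - E) η₁ p with hm
  have hm0 : ∀ p, 0 < m p := fun p => mt_pos E hη₁ p
  set Y2 := qn E η₁ u with hY2
  set W2 := pm (fun p => (m p)⁻¹ * ‖ft w p‖ ^ 2) with hW2
  obtain ⟨g, hg⟩ := surj (d := d) (M := M)
    fun p => (((m p)⁻¹ : ℝ) : ℂ) * (((es p : ℂ) - (⟨E, η₁⟩ : ℂ)) * ft u p)
  have hY0 : 0 ≤ Y2 := pm_nonneg fun p => by
    have := hm0 p
    positivity
  have hW0 : 0 ≤ W2 := pm_nonneg fun p => by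
    have := hm0 p
    positivity
  have hn : ∀ p, ‖((es p : ℂ) - (⟨E, η₁⟩ : ℂ))‖ ^ 2 = m p ^ 2 := fun p => by
    have h3 : m p ^ 2 = (es p - E) ^ 2 + η₁ ^ 2 := mt_sq E η₁ p
    rw [h3, ← Complex.normSq_eq_norm_sq, Complex.normSq_apply]
    simp
    ring
  have hgY : pm (fun p => m p * ‖ft g p‖ ^ 2) = Y2 := by
    rw [hY2]
    unfold qn
    congr 1
    funext p
    rw [hg, norm_mul, norm_mul, mul_pow, mul_pow, hn, Complex.norm_real, Real.norm_eq_abs, sq_abs]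
    have := (hm0 p).ne'
    show m p * (_ ) = m p * ‖ft u p‖ ^ 2
    field_simp
  have hA : ‖∑ x, (starRingEnd ℂ) (g x) * w x‖ ^ 2 ≤ Y2 * W2 := by
    rw [parseval2]
    refine (cs_pm m hm0 _ _).trans ?_
    rw [hgY]
  have hB : ‖∑ x, (starRingEnd ℂ) (g x) * ((V x : ℂ) * u x)‖ ^ 2 ≤ (1 / 4) ^ 2 * (Y2 * Y2) := by
    refine (hFB u g).trans ?_
    have h1 : qn E η₁ g = Y2 := hgY
    rw [h1]
  have hB' : ‖∑ x, (starRingEnd ℂ) (g x) * ((V x : ℂ) * u x)‖ ≤ Y2 / 4 := by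
    refine abs_le_of_sq_le_sq' ?_ (by positivity) |>.2
    nlinarith
  have hI : ((∑ x, (starRingEnd ℂ) (g x) * w x) -
      ∑ x, (starRingEnd ℂ) (g x) * ((V x : ℂ) * u x)).re = Y2 := by
    rw [parseval2 w g, parseval2 (fun x => (V x : ℂ) * u x) g, ← sub_div, ← Finset.sum_sub_distrib, re_div_M, hY2]
    unfold qn pm
    congr 1
    rw [Complex.re_sum]
    refine Finset.sum_congr rfl fun p _ => ?_
    rw [hw, ft_hz, ← mul_sub, add_sub_cancel_right, hg]
    have h1 : (starRingEnd ℂ) ((((m p)⁻¹ : ℝ) : ℂ) * (((es p : ℂ) - (⟨E, η₁⟩ : ℂ)) * ft u p)) *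
        (((es p : ℂ) - (⟨E, η₁⟩ : ℂ)) * ft u p) =
        (starRingEnd ℂ) ((((m p)⁻¹ : ℝ) : ℂ) * (((es p : ℂ) - (⟨E, η₁⟩ : ℂ)) * ft u p)) *
        (1 * (((es p : ℂ) - (⟨E, η₁⟩ : ℂ)) * ft u p)) := by rw [one_mul]
    rw [h1, conj_mul_re, Complex.one_re, mul_one, norm_mul, mul_pow, hn]
    have := (hm0 p).ne'
    show (m p)⁻¹ * (m p ^ 2 * ‖ft u p‖ ^ 2) = m p * ‖ft u p‖ ^ 2
    field_simp
  have hup : ((∑ x, (starRingEnd ℂ) (g x) * w x) -
      ∑ x, (starRingEnd ℂ) (g x) * ((V x : ℂ) * u x)).re ≤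
      ‖∑ x, (starRingEnd ℂ) (g x) * w x‖ + Y2 / 4 := by
    refine (Complex.re_le_norm _).trans ((norm_sub_le _ _).trans ?_)
    linarith
  rw [hI] at hup
  rcases eq_or_lt_of_le hY0 with h0 | h0
  · rw [← h0]
    positivity
  · have h1 : (3 / 4 * Y2) ^ 2 ≤ Y2 * W2 := by
      refine le_trans ?_ hA
      have h2 : 3 / 4 * Y2 ≤ ‖∑ x, (starRingEnd ℂ) (g x) * w x‖ := by linarith
      gcongr
    have h3 : Y2 * (9 / 16 * Y2) ≤ Y2 * W2 := by
      refine le_trans (le_of_eq ?_) h1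
      ring
    have h4 := le_of_mul_le_mul_left h3 h0
    linarith only [h4]

theorem ft_single (x p : Tor d M) :
    ft (Pi.single x (1 : ℂ)) p = (starRingEnd ℂ) (ec p x) := by
  unfold ft
  rw [Finset.sum_eq_single x]
  · rw [Pi.single_eq_same, mul_one]
  · intro y _ hy
    rw [Pi.single_eq_of_ne hy, mul_zero]
  · intro h
    exact absurd (Finset.mem_univ x) h

theorem res (hRal : RalStmt) : ResStmt := by
  intro d M _ V E η η₁ A B hη hηη₁ hA hSob hB hFB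
  have hη₁ : 0 < η₁ := hη.trans_le hηη₁
  obtain ⟨-, hsym, -, hnor, hward, -, -, hmono, -⟩ := hRal d M V ⟨E, η⟩ hη
  obtain ⟨⟨hz1, -⟩, -⟩ := hRal d M V ⟨E, η₁⟩ hη₁
  obtain ⟨⟨hz0, -⟩, -⟩ := hRal d M V ⟨E, η⟩ hη
  have hm0 : ∀ p : Tor d M, 0 < mt (2 * d - E) η₁ p := fun p => mt_pos E hη₁ p
  have hB0 : 0 ≤ B := le_trans (pm_nonneg fun p => (inv_pos.2 (hm0 p)).le) hB
  -- the columns
  have hcol : ∀ (z : ℂ) (x y : Tor d M), (rs V z *ᵥ Pi.single x (1 : ℂ)) y = rs V z y x := by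
    intro z x y
    rw [Matrix.mulVec_single_one]
    rfl
  have hW : ∀ x : Tor d M, pm (fun p => (mt (2 * d - E) η₁ p)⁻¹ *
      ‖ft (Pi.single x (1 : ℂ)) p‖ ^ 2) ≤ B := by
    intro x
    refine le_trans (le_of_eq ?_) hB
    congr 1
    funext p
    rw [ft_single, RCLike.norm_conj, ec_norm]
    ring
  have hinv : ∀ (z : ℂ), hz V z * rs V z = 1 → ∀ w : Tor d M → ℂ,
      hz V z *ᵥ (rs V z *ᵥ w) = w := by
    intro z h w
    rw [Matrix.mulVec_mulVec, h, Matrix.one_mulVec]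
  -- (1)
  have c1 : ∀ x, (rs V ⟨E, η⟩ x x).im ≤ 4 / 3 * B * (η₁ / η) := by
    intro x
    have h1 : (rs V ⟨E, η₁⟩ x x).im ≤ 4 / 3 * B := by
      set u := rs V ⟨E, η₁⟩ *ᵥ Pi.single x (1 : ℂ) with hu
      have h2 := partb hη₁ hFB u
      rw [hu, hinv _ hz1, ← hu] at h2
      have h3 : qn E η₁ u ≤ 16 / 9 * B := h2.trans (by
        have := hW x
        gcongr)
      have h4 : ‖∑ y, (starRingEnd ℂ) (u y) * (Pi.single x (1 : ℂ) : Tor d M → ℂ) y‖ ^ 2 ≤
          (16 / 9 * B) * B := by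
        rw [parseval2]
        refine (cs_pm (fun p => mt (2 * d - E) η₁ p) hm0 _ _).trans ?_
        have h5 : pm (fun p => mt (2 * d - E) η₁ p * ‖ft u p‖ ^ 2) ≤ 16 / 9 * B := h3
        have h6 : 0 ≤ pm (fun p => (mt (2 * d - E) η₁ p)⁻¹ * ‖ft (Pi.single x (1 : ℂ)) p‖ ^ 2) :=
          pm_nonneg fun p => by
            have := hm0 p
            positivity
        have h7 := hW x
        exact mul_le_mul h5 h7 h6 (by positivity)
      have h5 : ∑ y, (starRingEnd ℂ) (u y) * (Pi.single x (1 : ℂ) : Tor d M → ℂ) y =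
          (starRingEnd ℂ) (rs V ⟨E, η₁⟩ x x) := by
        rw [Finset.sum_eq_single x]
        · rw [Pi.single_eq_same, mul_one, hu, hcol]
        · intro y _ hy
          rw [Pi.single_eq_of_ne hy, mul_zero]
        · intro h
          exact absurd (Finset.mem_univ x) h
      rw [h5, RCLike.norm_conj] at h4
      have h6 : ‖rs V ⟨E, η₁⟩ x x‖ ≤ 4 / 3 * B := by
        refine abs_le_of_sq_le_sq' ?_ (by positivity) |>.2
        refine h4.trans (le_of_eq ?_)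
        ring
      exact ((le_abs_self _).trans (Complex.abs_im_le_norm _)).trans h6
    calc (rs V ⟨E, η⟩ x x).im ≤ η₁ / η * (rs V ⟨E, η₁⟩ x x).im := hmono E η η₁ x hη hηη₁
      _ ≤ η₁ / η * (4 / 3 * B) := by gcongr
      _ = 4 / 3 * B * (η₁ / η) := by ring
  -- (2)
  have c2 : ∀ x, ∑ y, ‖rs V ⟨E, η⟩ x y‖ ^ 2 ≤ 4 / 3 * B * (η₁ / η ^ 2) := by
    intro x
    rw [hward x]
    show (rs V ⟨E, η⟩ x x).im / η ≤ _
    rw [div_le_iff₀ hη]
    refine (c1 x).trans (le_of_eq ?_)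
    field_simp
  -- (4)
  have hgen : ∀ w : Tor d M → ℂ, n4 (rs V ⟨E, η⟩ *ᵥ w) ≤
      A * (2 * pm (fun p => (mt (2 * d - E) η₁ p)⁻¹ * ‖ft w p‖ ^ 2) +
        2 * η₁ * n2 (rs V ⟨E, η⟩ *ᵥ w)) := by
    intro w
    have h1 := parta (η := η) hη₁ hFB (rs V ⟨E, η⟩ *ᵥ w)
    rw [hinv _ hz0] at h1
    exact (hSob _).trans (mul_le_mul_of_nonneg_left h1 hA)
  have c4 : ∀ w : Tor d M → ℂ, n4 (rs V ⟨E, η⟩ *ᵥ w) ≤ 8 * A * (η₁ / η ^ 2) * n2 w := by
    intro w
    refine (hgen w).trans ?_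
    have h1 : pm (fun p => (mt (2 * d - E) η₁ p)⁻¹ * ‖ft w p‖ ^ 2) ≤ η₁⁻¹ * n2 w := by
      have h2 : n2 w = pm fun p => ‖ft w p‖ ^ 2 := parseval1 w
      rw [h2, ← pm_cmul]
      refine pm_mono fun p => ?_
      have h3 : (mt (2 * d - E) η₁ p)⁻¹ ≤ η₁⁻¹ := inv_anti₀ hη₁ (le_mt E hη₁ p)
      gcongr
    have h2 : n2 (rs V ⟨E, η⟩ *ᵥ w) ≤ n2 w / η ^ 2 := (hnor w).1
    have hn0 : 0 ≤ n2 w := Finset.sum_nonneg fun x _ => by positivity
    have h3 : η₁⁻¹ ≤ η₁ / η ^ 2 := by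
      rw [inv_le_iff_one_le_mul₀ hη₁, div_mul_eq_mul_div, le_div_iff₀ (by positivity)]
      nlinarith only [hη, hηη₁]
    have h4 : 2 * pm (fun p => (mt (2 * d - E) η₁ p)⁻¹ * ‖ft w p‖ ^ 2) +
        2 * η₁ * n2 (rs V ⟨E, η⟩ *ᵥ w) ≤ 8 * (η₁ / η ^ 2) * n2 w := by
      have h5 : η₁⁻¹ * n2 w ≤ η₁ / η ^ 2 * n2 w := by gcongr
      have h6 : 2 * η₁ * n2 (rs V ⟨E, η⟩ *ᵥ w) ≤ 2 * η₁ * (n2 w / η ^ 2) := by gcongr
      have h7 : 2 * η₁ * (n2 w / η ^ 2) = 2 * (η₁ / η ^ 2 * n2 w) := by ring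
      have h8 : 0 ≤ η₁ / η ^ 2 * n2 w := by positivity
      linarith
    calc A * (2 * pm (fun p => (mt (2 * d - E) η₁ p)⁻¹ * ‖ft w p‖ ^ 2) +
        2 * η₁ * n2 (rs V ⟨E, η⟩ *ᵥ w)) ≤ A * (8 * (η₁ / η ^ 2) * n2 w) := by gcongr
      _ = _ := by ring
  refine ⟨c1, c2, ?_, c4, ?_⟩
  · -- (3)
    intro x
    have h1 := hgen (Pi.single x (1 : ℂ))
    have h2 : n4 (rs V ⟨E, η⟩ *ᵥ Pi.single x (1 : ℂ)) = Real.sqrt (∑ y, ‖rs V ⟨E, η⟩ x y‖ ^ 4) := by
      unfold n4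
      congr 1
      refine Finset.sum_congr rfl fun y _ => ?_
      rw [hcol, hsym]
    have h3 : n2 (rs V ⟨E, η⟩ *ᵥ Pi.single x (1 : ℂ)) ≤ 4 / 3 * B * (η₁ / η ^ 2) := by
      refine le_trans (le_of_eq ?_) (c2 x)
      unfold n2
      refine Finset.sum_congr rfl fun y _ => ?_
      rw [hcol, hsym]
    rw [h2] at h1
    refine h1.trans ?_
    have h4 := hW x
    have h5 : (1 : ℝ) ≤ (η₁ / η) ^ 2 := one_le_pow₀ ((one_le_div₀ hη).2 hηη₁)
    have h6 : 2 * η₁ * n2 (rs V ⟨E, η⟩ *ᵥ Pi.single x (1 : ℂ)) ≤ 8 / 3 * B * (η₁ / η) ^ 2 := by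
      calc 2 * η₁ * n2 (rs V ⟨E, η⟩ *ᵥ Pi.single x (1 : ℂ)) ≤
          2 * η₁ * (4 / 3 * B * (η₁ / η ^ 2)) := by gcongr
        _ = 8 / 3 * B * (η₁ / η) ^ 2 := by
            rw [div_pow]
            ring
    have h7 : 2 * B ≤ 2 * B * (η₁ / η) ^ 2 := by nlinarith only [hB0, h5]
    have h8 : 2 * pm (fun p => (mt (2 * d - E) η₁ p)⁻¹ * ‖ft (Pi.single x (1 : ℂ)) p‖ ^ 2) +
        2 * η₁ * n2 (rs V ⟨E, η⟩ *ᵥ Pi.single x (1 : ℂ)) ≤ 10 * B * (η₁ / η) ^ 2 := by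
      have h9 : 0 ≤ B * (η₁ / η) ^ 2 := by positivity
      nlinarith
    calc A * (2 * pm (fun p => (mt (2 * d - E) η₁ p)⁻¹ * ‖ft (Pi.single x (1 : ℂ)) p‖ ^ 2) +
        2 * η₁ * n2 (rs V ⟨E, η⟩ *ᵥ Pi.single x (1 : ℂ))) ≤ A * (10 * B * (η₁ / η) ^ 2) := by gcongr
      _ = 10 * A * B * (η₁ / η) ^ 2 := by ring
  · -- (5)
    intro w
    have h1 : ∀ x, ((rs V ⟨E, η⟩)ᴴ *ᵥ w) x =
        (starRingEnd ℂ) ((rs V ⟨E, η⟩ *ᵥ fun y => (starRingEnd ℂ) (w y)) x) := by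
      intro x
      unfold Matrix.mulVec dotProduct
      rw [map_sum]
      refine Finset.sum_congr rfl fun y _ => ?_
      show (starRingEnd ℂ) (rs V ⟨E, η⟩ y x) * w y =
        (starRingEnd ℂ) (rs V ⟨E, η⟩ x y * (starRingEnd ℂ) (w y))
      rw [map_mul, Complex.conj_conj, hsym x y]
    have h2 : n4 ((rs V ⟨E, η⟩)ᴴ *ᵥ w) = n4 (rs V ⟨E, η⟩ *ᵥ fun y => (starRingEnd ℂ) (w y)) := by
      unfold n4
      congr 1
      refine Finset.sum_congr rfl fun y _ => ?_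
      rw [h1, RCLike.norm_conj]
    have h3 : n2 (fun y => (starRingEnd ℂ) (w y)) = n2 w := by
      unfold n2
      refine Finset.sum_congr rfl fun y _ => ?_
      rw [RCLike.norm_conj]
    rw [h2, ← h3]
    exact c4 _

end Pool.Agent.LE.QD.H70
end
end -- Pool.Agent.Helper70_LQD.RES

section -- Pool.Agent.Helper70_LQD.SOBA

/-!
# SOB, part 1: the Laplace transform of the propagator, the form of one dyadic block
-/

set_option autoImplicit false

open MeasureTheory ProbabilityTheory Function Filter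

open scoped ENNReal BigOperators Topology NNReal ComplexOrder Matrix

noncomputable section

namespace Pool.Agent.LE.QD.H70

open Pool.Agent.Anderson hiding box mem_box card_box
open Pool.Agent.Loc Pool.Agent.Mob Pool.Agent.Helper54.Bal
  Pool.Agent.Helper96.EXP Pool.Agent.BED
open Pool.Agent.LE.MN Pool.Agent.LE.CL Pool.Agent.LE.IR Pool.Agent.LE.IR.H54

variable {d M : ℕ} [NeZero M]

/-- the truncated Laplace transform -/
theorem laplace_le {a : ℝ} (ha : 0 < a) (X T : ℝ) :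
    Pool.Agent.Anderson.ker a X ≤ (∫ t in (0 : ℝ)..T, Real.exp (-(a * t)) * Real.cos (t * X)) +
      Real.exp (-(a * T)) / a := by
  set D : ℝ := X ^ 2 + a ^ 2 with hD
  have hD0 : 0 < D := by positivity
  have h1 : ∀ t : ℝ, HasDerivAt
      (fun t : ℝ => Real.exp (-(a * t)) * (X * Real.sin (t * X) - a * Real.cos (t * X)) / D)
      (Real.exp (-(a * t)) * Real.cos (t * X)) t := by
    intro t
    have e1 : HasDerivAt (fun t : ℝ => Real.exp (-(a * t))) (Real.exp (-(a * t)) * (-a)) t := by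
      have e00 : HasDerivAt (fun t : ℝ => a * t) a t := by
        have := (hasDerivAt_id t).const_mul a
        rwa [mul_one] at this
      exact e00.neg.exp
    have e2 : HasDerivAt (fun t : ℝ => t * X) X t := by
      have := (hasDerivAt_id t).mul_const X
      simpa using this
    have e3 : HasDerivAt (fun t : ℝ => X * Real.sin (t * X) - a * Real.cos (t * X))
        (X * (Real.cos (t * X) * X) - a * (-Real.sin (t * X) * X)) t :=
      (e2.sin.const_mul X).sub (e2.cos.const_mul a)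
    have e4 := (e1.mul e3).div_const D
    have e5 : (Real.exp (-(a * t)) * -a * (X * Real.sin (t * X) - a * Real.cos (t * X)) +
        Real.exp (-(a * t)) * (X * (Real.cos (t * X) * X) - a * (-Real.sin (t * X) * X))) / D =
        Real.exp (-(a * t)) * Real.cos (t * X) := by
      rw [div_eq_iff hD0.ne', hD]
      ring
    rw [e5] at e4
    exact e4
  have h2 : ∫ t in (0 : ℝ)..T, Real.exp (-(a * t)) * Real.cos (t * X) =
      Real.exp (-(a * T)) * (X * Real.sin (T * X) - a * Real.cos (T * X)) / D -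
        Real.exp (-(a * 0)) * (X * Real.sin (0 * X) - a * Real.cos (0 * X)) / D :=
    intervalIntegral.integral_eq_sub_of_hasDerivAt (fun t _ => h1 t)
      (Continuous.intervalIntegrable (by fun_prop) _ _)
  rw [h2]
  simp only [mul_zero, neg_zero, Real.exp_zero, zero_mul, Real.sin_zero, Real.cos_zero, mul_one,
    one_mul, zero_sub]
  have h3 : |X * Real.sin (T * X) - a * Real.cos (T * X)| ≤ Real.sqrt D := by
    apply Real.abs_le_sqrt
    have := Real.sin_sq_add_cos_sq (T * X)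
    nlinarith only [sq_nonneg (X * Real.cos (T * X) + a * Real.sin (T * X)), this]
  have h4 : a ≤ Real.sqrt D := by
    apply Real.le_sqrt_of_sq_le
    nlinarith only [sq_nonneg X]
  have h5 : |X * Real.sin (T * X) - a * Real.cos (T * X)| / D ≤ 1 / a := by
    rw [div_le_div_iff₀ hD0 ha, one_mul]
    have h6 : Real.sqrt D * Real.sqrt D = D := Real.mul_self_sqrt hD0.le
    calc |X * Real.sin (T * X) - a * Real.cos (T * X)| * a ≤ Real.sqrt D * Real.sqrt D := by gcongr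
      _ = D := h6
  have h6 : -(Real.exp (-(a * T)) / a) ≤
      Real.exp (-(a * T)) * (X * Real.sin (T * X) - a * Real.cos (T * X)) / D := by
    have h7 := neg_abs_le (X * Real.sin (T * X) - a * Real.cos (T * X))
    have h8 : 0 < Real.exp (-(a * T)) := Real.exp_pos _
    have h9 : -(Real.exp (-(a * T)) * (|X * Real.sin (T * X) - a * Real.cos (T * X)| / D)) ≤
        Real.exp (-(a * T)) * (X * Real.sin (T * X) - a * Real.cos (T * X)) / D := by
      rw [mul_div_assoc, ← mul_neg, ← neg_div]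
      gcongr
    refine le_trans ?_ h9
    rw [neg_le_neg_iff]
    calc Real.exp (-(a * T)) * (|X * Real.sin (T * X) - a * Real.cos (T * X)| / D) ≤
        Real.exp (-(a * T)) * (1 / a) := by gcongr
      _ = Real.exp (-(a * T)) / a := by ring
  unfold Pool.Agent.Anderson.ker
  rw [← hD]
  have h7 : (-a) / D = -(a / D) := neg_div _ _
  linarith only [h6, h7]

/-- the kernel of `cos (t (adj - E))` -/
def kt (E t : ℝ) (y : Tor d M) : ℂ :=
  (∑ p, ec p y * ((Real.cos (t * (es p - E)) : ℝ) : ℂ)) / (M : ℂ) ^ d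

theorem kt_cont (E : ℝ) (y : Tor d M) : Continuous fun t => kt E t y := by
  unfold kt
  refine Continuous.div_const (continuous_finsetSum _ fun p _ => ?_) _
  exact continuous_const.mul (Complex.continuous_ofReal.comp (by fun_prop))

theorem kt_norm_le (E t : ℝ) (y : Tor d M) :
    ‖kt E t y‖ ≤ ‖(∑ p, ec p y * Complex.exp (Complex.I * ((t * es p : ℝ) : ℂ))) / (M : ℂ) ^ d‖ +
      ‖(∑ p, ec p y * Complex.exp (-(Complex.I * ((t * es p : ℝ) : ℂ)))) / (M : ℂ) ^ d‖ := by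
  set c : ℂ := Complex.exp (-(((t * E : ℝ) : ℂ) * Complex.I)) with hc
  set c' : ℂ := Complex.exp (((t * E : ℝ) : ℂ) * Complex.I) with hc'
  have hcn : ‖c‖ = 1 := by
    rw [hc, ← neg_mul, ← Complex.ofReal_neg]
    exact Complex.norm_exp_ofReal_mul_I _
  have hcn' : ‖c'‖ = 1 := Complex.norm_exp_ofReal_mul_I _
  have h1 : kt E t y = 1 / 2 * (c *
      ((∑ p, ec p y * Complex.exp (Complex.I * ((t * es p : ℝ) : ℂ))) / (M : ℂ) ^ d)) +
      1 / 2 * (c' *
      ((∑ p, ec p y * Complex.exp (-(Complex.I * ((t * es p : ℝ) : ℂ)))) / (M : ℂ) ^ d)) := by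
    unfold kt
    rw [← mul_div_assoc, ← mul_div_assoc, ← mul_div_assoc, ← mul_div_assoc, ← add_div,
      Finset.mul_sum, Finset.mul_sum, Finset.mul_sum, Finset.mul_sum, ← Finset.sum_add_distrib]
    congr 1
    refine Finset.sum_congr rfl fun p _ => ?_
    have h2 : ((Real.cos (t * (es p - E)) : ℝ) : ℂ) =
        (c * Complex.exp (Complex.I * ((t * es p : ℝ) : ℂ)) +
          c' * Complex.exp (-(Complex.I * ((t * es p : ℝ) : ℂ)))) / 2 := by
      rw [Complex.ofReal_cos, Complex.cos, hc, hc', ← Complex.exp_add, ← Complex.exp_add]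
      congr 3 <;> · push_cast; ring_nf
    rw [h2]
    ring
  rw [h1]
  refine (norm_add_le _ _).trans ?_
  rw [norm_mul, norm_mul, norm_mul, norm_mul, hcn, hcn']
  have h3 : ‖(1 / 2 : ℂ)‖ = 1 / 2 := by simp
  rw [h3, one_mul, one_mul]
  have h4 := norm_nonneg ((∑ p, ec p y * Complex.exp (Complex.I * ((t * es p : ℝ) : ℂ))) /
    (M : ℂ) ^ d)
  have h5 := norm_nonneg ((∑ p, ec p y * Complex.exp (-(Complex.I * ((t * es p : ℝ) : ℂ)))) /
    (M : ℂ) ^ d)
  linarith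

/-- the form of `cos (t (adj - E))` -/
theorem form_cos (E t : ℝ) (g h : Tor d M → ℂ) :
    ∑ x, ∑ y, (starRingEnd ℂ) (g x) * (kt E t (x - y) * h y) =
      (∑ p, (starRingEnd ℂ) (ft g p) * (((Real.cos (t * (es p - E)) : ℝ) : ℂ) * ft h p)) /
        (M : ℂ) ^ d := by
  unfold kt ft
  rw [eq_div_iff Mne, Finset.sum_mul]
  have h1 : ∀ x, (∑ y, (starRingEnd ℂ) (g x) * ((∑ p, ec p (x - y) *
      ((Real.cos (t * (es p - E)) : ℝ) : ℂ)) / (M : ℂ) ^ d * h y)) * (M : ℂ) ^ d =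
      ∑ p, ∑ y, (starRingEnd ℂ) (g x) * (ec p x * (starRingEnd ℂ) (ec p y) *
      ((Real.cos (t * (es p - E)) : ℝ) : ℂ)) * h y := by
    intro x
    rw [Finset.sum_comm, Finset.sum_mul]
    refine Finset.sum_congr rfl fun y _ => ?_
    rw [← Finset.sum_mul, ← Finset.mul_sum]
    simp only [ec_sub]
    have hM : (M : ℂ) ^ d ≠ 0 := Mne
    field_simp
  rw [Finset.sum_congr rfl fun x _ => h1 x, Finset.sum_comm]
  refine Finset.sum_congr rfl fun p _ => ?_
  rw [map_sum, Finset.sum_mul]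
  refine Finset.sum_congr rfl fun x _ => ?_
  rw [map_mul, Complex.conj_conj, Finset.mul_sum, Finset.mul_sum]
  refine Finset.sum_congr rfl fun y _ => ?_
  ring

theorem form_cos_norm_le (E t : ℝ) (g h : Tor d M → ℂ) :
    ‖(∑ p, (starRingEnd ℂ) (ft g p) * (((Real.cos (t * (es p - E)) : ℝ) : ℂ) * ft h p)) /
        (M : ℂ) ^ d‖ ≤ Real.sqrt (n2 g) * Real.sqrt (n2 h) := by
  have h1 := cs_pm (fun _ : Tor d M => (1 : ℝ)) (fun _ => one_pos) (ft g)
    (fun p => ((Real.cos (t * (es p - E)) : ℝ) : ℂ) * ft h p)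
  have h2 : pm (fun p => 1 * ‖ft g p‖ ^ 2) = n2 g := by
    simp only [one_mul]
    exact (Pool.Agent.LE.IR.H54.parseval1 g).symm
  have h3 : pm (fun p => (1 : ℝ)⁻¹ * ‖((Real.cos (t * (es p - E)) : ℝ) : ℂ) * ft h p‖ ^ 2) ≤
      n2 h := by
    have h4 : n2 h = pm fun p => ‖ft h p‖ ^ 2 := Pool.Agent.LE.IR.H54.parseval1 h
    rw [h4]
    refine pm_mono fun p => ?_
    rw [inv_one, one_mul, norm_mul, mul_pow, Complex.norm_real, Real.norm_eq_abs, sq_abs]
    have h5 : Real.cos (t * (es p - E)) ^ 2 ≤ 1 := Real.cos_sq_le_one _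
    have h6 : Real.cos (t * (es p - E)) ^ 2 * ‖ft h p‖ ^ 2 ≤ 1 * ‖ft h p‖ ^ 2 := by gcongr
    rwa [one_mul] at h6
  rw [h2] at h1
  have hg : 0 ≤ n2 g := Finset.sum_nonneg fun x _ => by positivity
  have hh : 0 ≤ n2 h := Finset.sum_nonneg fun x _ => by positivity
  rw [← Real.sqrt_mul hg]
  apply Real.le_sqrt_of_sq_le
  refine h1.trans ?_
  gcongr

/-- the kernel of one block -/
def kb (E a T : ℝ) (x y : Tor d M) : ℂ :=
  ∫ t in T..2 * T, ((Real.exp (-(a * t)) : ℝ) : ℂ) * kt E t (x - y)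

theorem kb_form (E a T : ℝ) (g h : Tor d M → ℂ) :
    ∑ x, ∑ y, (starRingEnd ℂ) (g x) * (kb E a T x y * h y) =
      ∫ t in T..2 * T, ((Real.exp (-(a * t)) : ℝ) : ℂ) *
        ((∑ p, (starRingEnd ℂ) (ft g p) * (((Real.cos (t * (es p - E)) : ℝ) : ℂ) * ft h p)) /
        (M : ℂ) ^ d) := by
  have hc : Continuous fun t : ℝ => ((Real.exp (-(a * t)) : ℝ) : ℂ) :=
    Complex.continuous_ofReal.comp (by fun_prop)
  have h1 : ∀ t : ℝ, ((Real.exp (-(a * t)) : ℝ) : ℂ) *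
        ((∑ p, (starRingEnd ℂ) (ft g p) * (((Real.cos (t * (es p - E)) : ℝ) : ℂ) * ft h p)) /
        (M : ℂ) ^ d) = ∑ x, ∑ y, (starRingEnd ℂ) (g x) *
          ((((Real.exp (-(a * t)) : ℝ) : ℂ) * kt E t (x - y)) * h y) := by
    intro t
    rw [← form_cos, Finset.mul_sum]
    refine Finset.sum_congr rfl fun x _ => ?_
    rw [Finset.mul_sum]
    exact Finset.sum_congr rfl fun y _ => by ring
  simp only [h1]
  rw [intervalIntegral.integral_finsetSum]
  · refine Finset.sum_congr rfl fun x _ => ?_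
    rw [intervalIntegral.integral_finsetSum]
    · refine Finset.sum_congr rfl fun y _ => ?_
      rw [intervalIntegral.integral_const_mul, intervalIntegral.integral_mul_const]
      rfl
    · intro y _
      exact (continuous_const.mul ((hc.mul (kt_cont E (x - y))).mul
        continuous_const)).intervalIntegrable _ _
  · intro x _
    refine Continuous.intervalIntegrable (continuous_finsetSum _ fun y _ => ?_) _ _
    exact continuous_const.mul ((hc.mul (kt_cont E (x - y))).mul continuous_const)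

theorem kb_op {E a T : ℝ} (ha : 0 < a) (hT : 0 ≤ T) (g h : Tor d M → ℂ) :
    ‖∑ x, ∑ y, (starRingEnd ℂ) (g x) * (kb E a T x y * h y)‖ ≤
      (T * Real.exp (-(a * T))) * (Real.sqrt (n2 g) * Real.sqrt (n2 h)) := by
  rw [kb_form]
  have h1 := intervalIntegral.norm_integral_le_of_norm_le_const (a := T) (b := 2 * T)
    (C := Real.exp (-(a * T)) * (Real.sqrt (n2 g) * Real.sqrt (n2 h)))
    (f := fun t => ((Real.exp (-(a * t)) : ℝ) : ℂ) *
        ((∑ p, (starRingEnd ℂ) (ft g p) * (((Real.cos (t * (es p - E)) : ℝ) : ℂ) * ft h p)) /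
        (M : ℂ) ^ d)) (fun t ht => by
      rw [Set.uIoc_of_le (by linarith)] at ht
      rw [norm_mul, Complex.norm_real, Real.norm_eq_abs, abs_of_pos (Real.exp_pos _)]
      have h2 : Real.exp (-(a * t)) ≤ Real.exp (-(a * T)) := by
        apply Real.exp_le_exp.2
        have := ht.1
        nlinarith only [ha, this]
      have h3 := form_cos_norm_le E t g h
      gcongr)
  refine h1.trans (le_of_eq ?_)
  rw [abs_of_nonneg (by linarith only [hT])]
  ring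

theorem kb_bd {E a T B : ℝ} (ha : 0 < a) (hT : 0 ≤ T) (x y : Tor d M)
    (hB : ∫ t in T..2 * T,
        (‖(∑ p, ec p (x - y) * Complex.exp (Complex.I * ((t * es p : ℝ) : ℂ))) / (M : ℂ) ^ d‖ +
          ‖(∑ p, ec p (x - y) * Complex.exp (-(Complex.I * ((t * es p : ℝ) : ℂ)))) /
            (M : ℂ) ^ d‖) ≤ B) :
    ‖kb E a T x y‖ ≤ Real.exp (-(a * T)) * B := by
  have hle : T ≤ 2 * T := by linarith only [hT]
  have hc : Continuous fun t : ℝ => ((Real.exp (-(a * t)) : ℝ) : ℂ) :=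
    Complex.continuous_ofReal.comp (by fun_prop)
  unfold kb
  refine (intervalIntegral.norm_integral_le_integral_norm hle).trans ?_
  have hc1 : Continuous fun t : ℝ => (‖(∑ p, ec p (x - y) *
      Complex.exp (Complex.I * ((t * es p : ℝ) : ℂ))) / (M : ℂ) ^ d‖ +
      ‖(∑ p, ec p (x - y) * Complex.exp (-(Complex.I * ((t * es p : ℝ) : ℂ)))) /
            (M : ℂ) ^ d‖) := by
    refine Continuous.add (Continuous.norm (Continuous.div_const
      (continuous_finsetSum _ fun p _ => ?_) _)) (Continuous.norm (Continuous.div_const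
      (continuous_finsetSum _ fun p _ => ?_) _))
    · exact continuous_const.mul (Complex.continuous_exp.comp (continuous_const.mul
        (Complex.continuous_ofReal.comp (continuous_id.mul continuous_const))))
    · exact continuous_const.mul (Complex.continuous_exp.comp (continuous_const.mul
        (Complex.continuous_ofReal.comp (continuous_id.mul continuous_const))).neg)
  have h1 : ∫ t in T..2 * T, ‖((Real.exp (-(a * t)) : ℝ) : ℂ) * kt E t (x - y)‖ ≤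
      ∫ t in T..2 * T, Real.exp (-(a * T)) * (‖(∑ p, ec p (x - y) *
      Complex.exp (Complex.I * ((t * es p : ℝ) : ℂ))) / (M : ℂ) ^ d‖ +
      ‖(∑ p, ec p (x - y) * Complex.exp (-(Complex.I * ((t * es p : ℝ) : ℂ)))) /
            (M : ℂ) ^ d‖) := by
    refine intervalIntegral.integral_mono_on hle
      ((hc.mul (kt_cont E (x - y))).norm.intervalIntegrable _ _)
      ((continuous_const.mul hc1).intervalIntegrable _ _) fun t ht => ?_
    rw [norm_mul, Complex.norm_real, Real.norm_eq_abs, abs_of_pos (Real.exp_pos _)]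
    have h2 : Real.exp (-(a * t)) ≤ Real.exp (-(a * T)) := by
      apply Real.exp_le_exp.2
      have := ht.1
      nlinarith only [ha, this]
    have h3 := kt_norm_le E t (x - y)
    gcongr
  refine h1.trans ?_
  rw [intervalIntegral.integral_const_mul]
  gcongr

end Pool.Agent.LE.QD.H70
end
end -- Pool.Agent.Helper70_LQD.SOBA

section -- Pool.Agent.Helper70_LQD.SOB

/-!
# SOB: the Sobolev inequality
-/

set_option autoImplicit false

open MeasureTheory ProbabilityTheory Function Filter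

open scoped ENNReal BigOperators Topology NNReal ComplexOrder Matrix

noncomputable section

namespace Pool.Agent.LE.QD.H70

open Pool.Agent.Anderson hiding box mem_box card_box
open Pool.Agent.Loc Pool.Agent.Mob Pool.Agent.Helper54.Bal
  Pool.Agent.Helper96.EXP Pool.Agent.BED
open Pool.Agent.LE.MN Pool.Agent.LE.CL Pool.Agent.LE.IR Pool.Agent.LE.IR.H54

variable {d M : ℕ} [NeZero M]

theorem n2_nonneg {X : Type} [Fintype X] (g : X → ℂ) : 0 ≤ n2 g :=
  Finset.sum_nonneg fun x _ => by positivity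

/-- the form of `cos (t (adj - E))` -/
def ph (E t : ℝ) (g : Tor d M → ℂ) : ℝ :=
  pm fun p => Real.cos (t * (es p - E)) * ‖ft g p‖ ^ 2

theorem ph_eq (E t : ℝ) (g : Tor d M → ℂ) : ((ph E t g : ℝ) : ℂ) =
    (∑ p, (starRingEnd ℂ) (ft g p) * (((Real.cos (t * (es p - E)) : ℝ) : ℂ) * ft g p)) /
        (M : ℂ) ^ d := by
  unfold ph pm
  push_cast
  congr 1
  refine Finset.sum_congr rfl fun p _ => ?_
  have h1 : (starRingEnd ℂ) (ft g p) * ft g p = ((‖ft g p‖ ^ 2 : ℝ) : ℂ) := by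
    rw [← Complex.normSq_eq_norm_sq, Complex.normSq_eq_conj_mul_self]
  rw [Complex.ofReal_pow] at h1
  rw [← h1]
  ring

theorem ph_abs_le (E t : ℝ) (g : Tor d M → ℂ) : |ph E t g| ≤ n2 g := by
  have h1 := form_cos_norm_le E t g g
  rw [← ph_eq, Complex.norm_real, Real.norm_eq_abs, Real.mul_self_sqrt (n2_nonneg g)] at h1
  exact h1

theorem ph_cont (E : ℝ) (g : Tor d M → ℂ) : Continuous fun t => ph E t g := by
  unfold ph pm
  refine Continuous.div_const (continuous_finsetSum _ fun p _ => ?_) _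
  exact Continuous.mul (by fun_prop) continuous_const

/-- one dyadic block -/
theorem block {CI Cb : ℝ} (hCI : 1 ≤ CI) (hCb : 1 ≤ Cb)
    (hI : ∀ (X : Type) [Fintype X] (T : X → X → ℂ) (f : X → ℂ) (A B : ℝ), 0 ≤ A → 0 ≤ B →
    (∀ x y, ‖T x y‖ ≤ B) →
    (∀ g h : X → ℂ, ‖∑ x, ∑ y, (starRingEnd ℂ) (g x) * (T x y * h y)‖ ≤
      A * (Real.sqrt (n2 g) * Real.sqrt (n2 h))) →
      ‖∑ x, ∑ y, (starRingEnd ℂ) (f x) * (T x y * f y)‖ ≤
        CI * Real.sqrt (A * B) * (∑ x, ‖f x‖ ^ (4 / 3 : ℝ)) ^ (3 / 2 : ℝ))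
    {T : ℝ} (hT : 1 ≤ T)
    (hb : ∀ y : Tor d M, ∫ t in T..2 * T,
        (‖(∑ p, ec p y * Complex.exp (Complex.I * ((t * es p : ℝ) : ℂ))) / (M : ℂ) ^ d‖ +
          ‖(∑ p, ec p y * Complex.exp (-(Complex.I * ((t * es p : ℝ) : ℂ)))) / (M : ℂ) ^ d‖) ≤
        Cb * T ^ (-(1 / 3 : ℝ)) * (1 + Real.log T))
    (E : ℝ) {a : ℝ} (ha : 0 < a) (g : Tor d M → ℂ) :
    |∫ t in T..2 * T, Real.exp (-(a * t)) * ph E t g| ≤
      CI * (Cb * a ^ (-(1 / 3 : ℝ)) * (1 + Real.log T)) *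
        (∑ x, ‖g x‖ ^ (4 / 3 : ℝ)) ^ (3 / 2 : ℝ) := by
  have hT0 : 0 < T := by linarith
  have hlog : 0 ≤ Real.log T := Real.log_nonneg hT
  have hB0 : 0 ≤ Cb * T ^ (-(1 / 3 : ℝ)) * (1 + Real.log T) := by positivity
  have hG : 0 ≤ (∑ x, ‖g x‖ ^ (4 / 3 : ℝ)) ^ (3 / 2 : ℝ) :=
    Real.rpow_nonneg (Finset.sum_nonneg fun x _ => by positivity) _
  have h1 := hI (Tor d M) (kb E a T) g (T * Real.exp (-(a * T)))
    (Real.exp (-(a * T)) * (Cb * T ^ (-(1 / 3 : ℝ)) * (1 + Real.log T))) (by positivity)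
    (by positivity) (fun x y => kb_bd ha hT0.le x y (hb (x - y)))
    (fun g h => kb_op ha hT0.le g h)
  have h2 : ∑ x, ∑ y, (starRingEnd ℂ) (g x) * (kb E a T x y * g y) =
      ((∫ t in T..2 * T, Real.exp (-(a * t)) * ph E t g : ℝ) : ℂ) := by
    rw [kb_form, ← intervalIntegral.integral_ofReal]
    refine intervalIntegral.integral_congr fun t _ => ?_
    rw [← ph_eq]
    push_cast
    ring
  rw [h2, Complex.norm_real, Real.norm_eq_abs] at h1
  refine h1.trans ?_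
  have h3 : Real.sqrt (T * Real.exp (-(a * T)) *
      (Real.exp (-(a * T)) * (Cb * T ^ (-(1 / 3 : ℝ)) * (1 + Real.log T)))) ≤
      Cb * a ^ (-(1 / 3 : ℝ)) * (1 + Real.log T) := by
    apply Real.sqrt_le_iff.2
    refine ⟨by positivity, ?_⟩
    set u : ℝ := T ^ (1 / 3 : ℝ) with hu
    set w : ℝ := a ^ (1 / 3 : ℝ) with hw
    have hu0 : 0 < u := by positivity
    have hw0 : 0 < w := by positivity
    have hu3 : u ^ 3 = T := by
      rw [hu, ← Real.rpow_natCast, ← Real.rpow_mul hT0.le]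
      norm_num
    have hui : T ^ (-(1 / 3 : ℝ)) = u⁻¹ := by
      rw [Real.rpow_neg hT0.le]
    have hwi : a ^ (-(1 / 3 : ℝ)) = w⁻¹ := by
      rw [Real.rpow_neg ha.le]
    have hw3 : w ^ 3 = a := by
      rw [hw, ← Real.rpow_natCast, ← Real.rpow_mul ha.le]
      norm_num
    set e : ℝ := Real.exp (-(a * T)) with he
    have he0 : 0 < e := Real.exp_pos _
    -- `u w e ≤ 1`
    have h4 : u * w * e ≤ 1 := by
      have h5 : u * w ≤ 1 + (u * w) ^ 3 := by
        have : 0 < u * w := by positivity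
        nlinarith only [sq_nonneg (u * w - 1), sq_nonneg (u * w), this]
      have h6 : (u * w) ^ 3 = a * T := by rw [mul_pow, hu3, hw3, mul_comm]
      rw [h6] at h5
      have h7 : 1 + a * T ≤ Real.exp (a * T) := by
        have := Real.add_one_le_exp (a * T)
        linarith only [this]
      have h8 : Real.exp (a * T) * e = 1 := by
        rw [he, ← Real.exp_add, add_neg_cancel, Real.exp_zero]
      calc u * w * e ≤ Real.exp (a * T) * e := by
            apply mul_le_mul_of_nonneg_right (h5.trans h7) he0.le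
        _ = 1 := h8
    rw [hui, hwi]
    have h5 : u * e ≤ w⁻¹ := by
      rw [le_inv_comm₀ (by positivity) hw0, ]
      rw [← one_div, le_div_iff₀ (by positivity)]
      calc w * (u * e) = u * w * e := by ring
        _ ≤ 1 := h4
    have h6 : T * e * (e * (Cb * u⁻¹ * (1 + Real.log T))) =
        (u * e) ^ 2 * (Cb * (1 + Real.log T)) := by
      rw [← hu3]
      field_simp
    rw [h6]
    have h7 : Cb * (1 + Real.log T) ≤ (Cb * (1 + Real.log T)) ^ 2 := by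
      have : 1 ≤ Cb * (1 + Real.log T) := by nlinarith only [hCb, hlog]
      nlinarith only [this]
    calc (u * e) ^ 2 * (Cb * (1 + Real.log T)) ≤ (w⁻¹) ^ 2 * (Cb * (1 + Real.log T)) ^ 2 := by
          gcongr
      _ = (Cb * w⁻¹ * (1 + Real.log T)) ^ 2 := by ring
  gcongr

/-- the value at one scale -/
theorem scale {CI Cb : ℝ} (hCI : 1 ≤ CI) (hCb : 1 ≤ Cb)
    (hI : ∀ (X : Type) [Fintype X] (T : X → X → ℂ) (f : X → ℂ) (A B : ℝ), 0 ≤ A → 0 ≤ B →
    (∀ x y, ‖T x y‖ ≤ B) →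
    (∀ g h : X → ℂ, ‖∑ x, ∑ y, (starRingEnd ℂ) (g x) * (T x y * h y)‖ ≤
      A * (Real.sqrt (n2 g) * Real.sqrt (n2 h))) →
      ‖∑ x, ∑ y, (starRingEnd ℂ) (f x) * (T x y * f y)‖ ≤
        CI * Real.sqrt (A * B) * (∑ x, ‖f x‖ ^ (4 / 3 : ℝ)) ^ (3 / 2 : ℝ))
    (hb : ∀ (T : ℝ) (y : Tor d M), 1 ≤ T → 2 * T ≤ M / 40 → ∫ t in T..2 * T,
        (‖(∑ p, ec p y * Complex.exp (Complex.I * ((t * es p : ℝ) : ℂ))) / (M : ℂ) ^ d‖ +
          ‖(∑ p, ec p y * Complex.exp (-(Complex.I * ((t * es p : ℝ) : ℂ)))) / (M : ℂ) ^ d‖) ≤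
        Cb * T ^ (-(1 / 3 : ℝ)) * (1 + Real.log T))
    {K : ℕ} (hK : (2 : ℝ) ^ K ≤ M / 40)
    (E : ℝ) {a : ℝ} (ha : 0 < a) (haK : 1 ≤ a ^ 2 * 2 ^ K) (g : Tor d M → ℂ) :
    pm (fun p => Pool.Agent.Anderson.ker a (es p - E) * ‖ft g p‖ ^ 2) ≤
      2 * n2 g + K * (CI * (Cb * a ^ (-(1 / 3 : ℝ)) * (1 + Real.log M)) *
        (∑ x, ‖g x‖ ^ (4 / 3 : ℝ)) ^ (3 / 2 : ℝ)) := by
  have hG : 0 ≤ (∑ x, ‖g x‖ ^ (4 / 3 : ℝ)) ^ (3 / 2 : ℝ) :=
    Real.rpow_nonneg (Finset.sum_nonneg fun x _ => by positivity) _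
  set φ : ℝ → ℝ := fun t => Real.exp (-(a * t)) * ph E t g with hφ
  have hφc : Continuous φ := (by fun_prop : Continuous fun t : ℝ => Real.exp (-(a * t))).mul
    (ph_cont E g)
  set T₀ : ℝ := 2 ^ K with hT₀
  have hT₀1 : 1 ≤ T₀ := one_le_pow₀ (by norm_num)
  have hM40 : (1 : ℝ) ≤ M / 40 := hT₀1.trans hK
  have hM1 : (1 : ℝ) ≤ M := by linarith only [hK, hT₀1]
  -- Laplace
  have h1 : pm (fun p => Pool.Agent.Anderson.ker a (es p - E) * ‖ft g p‖ ^ 2) ≤
      (∫ t in (0 : ℝ)..T₀, φ t) + Real.exp (-(a * T₀)) / a * n2 g := by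
    have h2 : ∫ t in (0 : ℝ)..T₀, φ t =
        pm fun p => (∫ t in (0 : ℝ)..T₀, Real.exp (-(a * t)) * Real.cos (t * (es p - E))) *
          ‖ft g p‖ ^ 2 := by
      unfold pm
      have h3 : ∀ p : Tor d M, (∫ t in (0 : ℝ)..T₀, Real.exp (-(a * t)) *
          Real.cos (t * (es p - E))) * ‖ft g p‖ ^ 2 =
          ∫ t in (0 : ℝ)..T₀, Real.exp (-(a * t)) * Real.cos (t * (es p - E)) *
            ‖ft g p‖ ^ 2 := fun p => (intervalIntegral.integral_mul_const _ _).symm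
      rw [Finset.sum_congr rfl fun p _ => h3 p, ← intervalIntegral.integral_finsetSum,
        ← intervalIntegral.integral_div]
      · refine intervalIntegral.integral_congr fun t _ => ?_
        simp only [hφ]
        unfold ph pm
        rw [← mul_div_assoc, Finset.mul_sum]
        congr 1
        exact Finset.sum_congr rfl fun p _ => by ring
      · intro p _
        exact Continuous.intervalIntegrable (by fun_prop) _ _
    rw [h2]
    have h4 : n2 g = pm fun p => ‖ft g p‖ ^ 2 := Pool.Agent.LE.IR.H54.parseval1 g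
    rw [h4, ← pm_cmul]
    have h5 : ∀ F G : Tor d M → ℝ, pm F + pm G = pm fun p => F p + G p := by
      intro F G
      unfold pm
      rw [Finset.sum_add_distrib, add_div]
    rw [h5]
    refine pm_mono fun p => ?_
    have h6 := laplace_le ha (es p - E) T₀
    rw [← add_mul]
    gcongr
  -- tail
  have h2 : Real.exp (-(a * T₀)) / a ≤ 1 := by
    rw [div_le_one ha]
    have h3 : Real.exp (-(a * T₀)) * Real.exp (a * T₀) = 1 := by
      rw [← Real.exp_add, neg_add_cancel, Real.exp_zero]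
    have h4 : a * T₀ ≤ Real.exp (a * T₀) := by
      have := Real.add_one_le_exp (a * T₀)
      linarith only [this]
    have h5 : 0 < Real.exp (-(a * T₀)) := Real.exp_pos _
    have h6 : Real.exp (-(a * T₀)) * (a * T₀) ≤ 1 := by
      calc Real.exp (-(a * T₀)) * (a * T₀) ≤ Real.exp (-(a * T₀)) * Real.exp (a * T₀) := by
            gcongr
        _ = 1 := h3
    have h7 : 0 < a * T₀ := by positivity
    by_contra hcon
    push Not at hcon
    have h8 : a * (a * T₀) < Real.exp (-(a * T₀)) * (a * T₀) := by gcongr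
    nlinarith only [haK, h6, h8]
  -- the integral
  have h3 : ∫ t in (0 : ℝ)..T₀, φ t ≤ n2 g + K * (CI * (Cb * a ^ (-(1 / 3 : ℝ)) *
      (1 + Real.log M)) * (∑ x, ‖g x‖ ^ (4 / 3 : ℝ)) ^ (3 / 2 : ℝ)) := by
    have h4 : ∫ t in (0 : ℝ)..T₀, φ t = (∫ t in (0 : ℝ)..1, φ t) +
        ∑ k ∈ Finset.range K, ∫ t in (2 : ℝ) ^ k..(2 : ℝ) ^ (k + 1), φ t := by
      rw [intervalIntegral.sum_integral_adjacent_intervals
        (fun k _ => hφc.intervalIntegrable _ _)]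
      rw [pow_zero, intervalIntegral.integral_add_adjacent_intervals
        (hφc.intervalIntegrable _ _) (hφc.intervalIntegrable _ _)]
    rw [h4]
    refine add_le_add ?_ ?_
    · have h5 := intervalIntegral.norm_integral_le_of_norm_le_const (a := 0) (b := 1)
        (C := n2 g) (f := φ) (fun t ht => by
          rw [Set.uIoc_of_le (by norm_num)] at ht
          rw [Real.norm_eq_abs, hφ]
          simp only
          rw [abs_mul, abs_of_pos (Real.exp_pos _)]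
          have h6 : Real.exp (-(a * t)) ≤ 1 := by
            rw [Real.exp_le_one_iff]
            have := ht.1
            nlinarith only [ha, this]
          calc Real.exp (-(a * t)) * |ph E t g| ≤ 1 * n2 g :=
                mul_le_mul h6 (ph_abs_le E t g) (abs_nonneg _) zero_le_one
            _ = n2 g := one_mul _)
      have h6 := le_abs_self (∫ t in (0 : ℝ)..1, φ t)
      rw [Real.norm_eq_abs, sub_zero, abs_one, mul_one] at h5
      exact h6.trans h5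
    · have h5 : ∀ k ∈ Finset.range K, ∫ t in (2 : ℝ) ^ k..(2 : ℝ) ^ (k + 1), φ t ≤
          CI * (Cb * a ^ (-(1 / 3 : ℝ)) * (1 + Real.log M)) *
            (∑ x, ‖g x‖ ^ (4 / 3 : ℝ)) ^ (3 / 2 : ℝ) := by
        intro k hk
        rw [Finset.mem_range] at hk
        have hk1 : (1 : ℝ) ≤ 2 ^ k := one_le_pow₀ (by norm_num)
        have hk2 : (2 : ℝ) * 2 ^ k ≤ M / 40 := by
          refine le_trans ?_ hK
          rw [← pow_succ', hT₀]
          exact pow_le_pow_right₀ (by norm_num) hk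
        have h6 := block hCI hCb hI hk1 (fun y => hb _ y hk1 hk2) E ha g
        have h7 : (2 : ℝ) ^ (k + 1) = 2 * 2 ^ k := pow_succ' _ _
        rw [h7]
        refine (le_abs_self _).trans (h6.trans ?_)
        have h8 : Real.log (2 ^ k) ≤ Real.log M := by
          apply Real.log_le_log (by positivity)
          linarith only [hk1, hk2]
        gcongr
      refine (Finset.sum_le_sum h5).trans (le_of_eq ?_)
      rw [Finset.sum_const, Finset.card_range, nsmul_eq_mul]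
  have h4 := n2_nonneg g
  have h5 : Real.exp (-(a * T₀)) / a * n2 g ≤ 1 * n2 g := by gcongr
  linarith

/-- `|g|_2 ≤ |g|_{4/3}` -/
theorem n2_le (g : Tor d M → ℂ) : n2 g ≤ (∑ x, ‖g x‖ ^ (4 / 3 : ℝ)) ^ (3 / 2 : ℝ) := by
  set S : ℝ := ∑ x, ‖g x‖ ^ (4 / 3 : ℝ) with hS
  have hx0 : ∀ x, 0 ≤ ‖g x‖ ^ (4 / 3 : ℝ) := fun x => by positivity
  have hS0 : 0 ≤ S := Finset.sum_nonneg fun x _ => hx0 x
  have h1 : ∀ x, ‖g x‖ ^ 2 ≤ ‖g x‖ ^ (4 / 3 : ℝ) * S ^ (1 / 2 : ℝ) := by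
    intro x
    have h2 : ‖g x‖ ^ 2 = ‖g x‖ ^ (4 / 3 : ℝ) * (‖g x‖ ^ (4 / 3 : ℝ)) ^ (1 / 2 : ℝ) := by
      rw [← Real.rpow_mul (norm_nonneg _), ← Real.rpow_add_of_nonneg (norm_nonneg _)
        (by norm_num) (by norm_num), ← Real.rpow_natCast]
      norm_num
    rw [h2]
    have h3 : ‖g x‖ ^ (4 / 3 : ℝ) ≤ S :=
      Finset.single_le_sum (f := fun x => ‖g x‖ ^ (4 / 3 : ℝ)) (fun x _ => hx0 x)
        (Finset.mem_univ x)
    have h4 := hx0 x
    gcongr
  have h2 : n2 g ≤ S * S ^ (1 / 2 : ℝ) := by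
    unfold n2
    refine (Finset.sum_le_sum fun x _ => h1 x).trans (le_of_eq ?_)
    rw [← Finset.sum_mul]
  refine h2.trans (le_of_eq ?_)
  have h3 : S * S ^ (1 / 2 : ℝ) = S ^ (1 : ℝ) * S ^ (1 / 2 : ℝ) := by rw [Real.rpow_one]
  rw [h3, ← Real.rpow_add_of_nonneg hS0 (by norm_num) (by norm_num)]
  norm_num

/-- duality -/
theorem dual {E η A : ℝ} (hη : 0 < η) (hA : 0 ≤ A)
    (h : ∀ g : Tor d M → ℂ, pm (fun p => (mt (2 * d - E) η p)⁻¹ * ‖ft g p‖ ^ 2) ≤
      A * (∑ x, ‖g x‖ ^ (4 / 3 : ℝ)) ^ (3 / 2 : ℝ)) : Sob d M E η A := by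
  intro f
  have hq0 : 0 ≤ qn E η f := pm_nonneg fun p => mul_nonneg (mt_pos E hη p).le (by positivity)
  set S : ℝ := ∑ x, ‖f x‖ ^ 4 with hS
  have hS0 : 0 ≤ S := Finset.sum_nonneg fun x _ => by positivity
  set g : Tor d M → ℂ := fun x => ((‖f x‖ ^ 2 : ℝ) : ℂ) * f x with hg
  have h1 : ∑ x, (starRingEnd ℂ) (f x) * g x = ((S : ℝ) : ℂ) := by
    rw [hS]
    push_cast
    refine Finset.sum_congr rfl fun x _ => ?_
    have h2 : (starRingEnd ℂ) (f x) * f x = ((‖f x‖ ^ 2 : ℝ) : ℂ) := by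
      rw [← Complex.normSq_eq_norm_sq, Complex.normSq_eq_conj_mul_self]
    calc (starRingEnd ℂ) (f x) * g x = ((‖f x‖ ^ 2 : ℝ) : ℂ) * ((starRingEnd ℂ) (f x) * f x) := by
          rw [hg]; ring
      _ = (‖f x‖ : ℂ) ^ 4 := by
          rw [h2]; push_cast; ring
  have h2 := cs_pm (mt (2 * d - E) η) (mt_pos E hη) (ft f) (ft g)
  rw [← Pool.Agent.LE.IR.H54.parseval2, h1, Complex.norm_real, Real.norm_eq_abs,
    abs_of_nonneg hS0] at h2
  have h3 : ∑ x, ‖g x‖ ^ (4 / 3 : ℝ) = S := by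
    rw [hS]
    refine Finset.sum_congr rfl fun x _ => ?_
    have h4 : ‖g x‖ = ‖f x‖ ^ 3 := by
      rw [hg]
      simp only
      rw [norm_mul, Complex.norm_real, Real.norm_eq_abs, abs_of_nonneg (by positivity)]
      ring
    rw [h4, ← Real.rpow_natCast, ← Real.rpow_mul (norm_nonneg _), ← Real.rpow_natCast]
    norm_num
  have h4 := h g
  rw [h3] at h4
  set s : ℝ := Real.sqrt S with hs
  have hs0 : 0 ≤ s := Real.sqrt_nonneg _
  have hs2 : s ^ 2 = S := Real.sq_sqrt hS0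
  have h5 : S ^ (3 / 2 : ℝ) = s ^ 3 := by
    rw [← hs2, ← Real.rpow_natCast, ← Real.rpow_mul hs0, ← Real.rpow_natCast]
    norm_num
  rw [h5] at h4
  have h6 : s ^ 4 ≤ qn E η f * (A * s ^ 3) := by
    calc s ^ 4 = S ^ 2 := by rw [← hs2]; ring
      _ ≤ _ := h2
      _ ≤ qn E η f * (A * s ^ 3) := by
        apply mul_le_mul_of_nonneg_left h4 hq0
  have h7 : n4 f = s := rfl
  rw [h7]
  rcases hs0.eq_or_lt with h8 | h8
  · rw [← h8]
    positivity
  · have h9 : s ^ 3 * s ≤ s ^ 3 * (A * qn E η f) := by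
      calc s ^ 3 * s = s ^ 4 := by ring
        _ ≤ _ := h6
        _ = _ := by ring
    exact le_of_mul_le_mul_left h9 (by positivity)

theorem sob (hBkt : BktStmt) (hInt : IntStmt) : SobStmt := by
  intro d hd
  obtain ⟨Cb, hCb, hb⟩ := hBkt d hd
  obtain ⟨CI, hCI, hI⟩ := hInt
  have hCC : 1 ≤ CI * Cb := one_le_mul_of_one_le_of_one_le hCI hCb
  refine ⟨80 + 80 * (CI * Cb), by linarith only [hCC], fun M _ E η hη hη1 hM => ?_⟩
  set C : ℝ := 80 + 80 * (CI * Cb) with hC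
  have hM80 : 80 / η ^ 2 ≤ M := by
    refine le_trans ?_ hM
    gcongr
    linarith only [hCC]
  have hη2 : 0 < η ^ 2 := by positivity
  have hMη : 80 ≤ M * η ^ 2 := by rwa [div_le_iff₀ hη2] at hM80
  have hηsq : η ^ 2 ≤ 1 := pow_le_one₀ hη.le hη1
  have hM1 : (80 : ℝ) ≤ M := by
    have hM0 : (0 : ℝ) ≤ M := Nat.cast_nonneg M
    nlinarith only [hMη, hηsq]
  have hlogM : 0 ≤ Real.log M := Real.log_nonneg (by linarith only [hM1])
  have hlog2 : (1 : ℝ) / 2 ≤ Real.log 2 := by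
    have := Real.log_two_gt_d9
    linarith only [this]
  obtain ⟨K, hK1, hK2⟩ := exists_nat_pow_near (x := (M : ℝ) / 40) (y := 2) (by linarith only [hM1])
    (by norm_num)
  have hKlog : (K : ℝ) ≤ 2 * Real.log M := by
    have h1 : Real.log ((2 : ℝ) ^ K) ≤ Real.log M := by
      apply Real.log_le_log (by positivity)
      linarith only [hM1, hK1]
    rw [Real.log_pow] at h1
    have h2 : (0 : ℝ) ≤ K := Nat.cast_nonneg K
    nlinarith only [hlog2, h1]
  obtain ⟨n₀, hn1, hn2⟩ := exists_nat_pow_near (x := 1 / η) (y := 2)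
    (by rw [le_div_iff₀ hη]; linarith only [hη1]) (by norm_num)
  have hnlog : (n₀ : ℝ) ≤ 2 * Real.log M := by
    have h0 : 1 / η ≤ M := by
      rw [div_le_iff₀ hη]
      nlinarith only [hη, hη1, hMη]
    have h1 : Real.log ((2 : ℝ) ^ n₀) ≤ Real.log M := by
      apply Real.log_le_log (by positivity)
      linarith only [hn1, h0]
    rw [Real.log_pow] at h1
    have h2 : (0 : ℝ) ≤ n₀ := Nat.cast_nonneg n₀
    nlinarith only [hlog2, h1]
  have hn : 1 ≤ 2 ^ (n₀ + 1) * η := by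
    rw [div_lt_iff₀ hη] at hn2
    exact hn2.le
  have hw1 : 1 ≤ η ^ (-(1 / 3 : ℝ)) := by
    rw [Real.rpow_neg hη.le]
    apply (one_le_inv₀ (by positivity)).2
    exact Real.rpow_le_one hη.le hη1 (by norm_num)
  apply dual hη (by positivity)
  intro g
  set G : ℝ := (∑ x, ‖g x‖ ^ (4 / 3 : ℝ)) ^ (3 / 2 : ℝ) with hG
  have hG0 : 0 ≤ G := Real.rpow_nonneg (Finset.sum_nonneg fun x _ => by positivity) _
  have hNG : n2 g ≤ G := n2_le g
  have hN0 := n2_nonneg g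
  -- one scale
  have h1 : ∀ j : ℕ, pm (fun p => Pool.Agent.Anderson.ker (2 ^ j * η) (es p - E) *
      ‖ft g p‖ ^ 2) ≤ 2 * G + (2 * Real.log M) * (CI * Cb * (1 + Real.log M)) * G *
        (η ^ (-(1 / 3 : ℝ)) * (4 / 5) ^ j) := by
    intro j
    have hj1 : (1 : ℝ) ≤ 2 ^ j := one_le_pow₀ (by norm_num)
    have ha : 0 < 2 ^ j * η := by positivity
    have h2 := scale hCI hCb hI (fun T y => hb M T y) hK1 E ha (by
      have h3 : η ≤ 2 ^ j * η := by nlinarith only [hη, hj1]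
      have h4 : η ^ 2 ≤ (2 ^ j * η) ^ 2 := by gcongr
      have h5 : (M : ℝ) / 80 ≤ 2 ^ K := by
        rw [pow_succ] at hK2
        linarith only [hK2]
      calc (1 : ℝ) ≤ η ^ 2 * (M / 80) := by linarith only [hMη]
        _ ≤ (2 ^ j * η) ^ 2 * 2 ^ K := by gcongr) g
    refine h2.trans ?_
    rw [← hG]
    have h3 : (2 ^ j * η) ^ (-(1 / 3 : ℝ)) ≤ η ^ (-(1 / 3 : ℝ)) * (4 / 5) ^ j := by
      rw [Real.mul_rpow (by positivity) hη.le, mul_comm]
      have h4 : ((2 : ℝ) ^ j) ^ (-(1 / 3 : ℝ)) ≤ (4 / 5) ^ j := by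
        have h5 : ((2 : ℝ) ^ j) ^ (-(1 / 3 : ℝ)) = ((2 : ℝ) ^ (-(1 / 3 : ℝ))) ^ j := by
          rw [← Real.rpow_natCast, ← Real.rpow_mul (by norm_num), mul_comm,
            Real.rpow_mul (by norm_num), Real.rpow_natCast]
        rw [h5]
        have h6 : (2 : ℝ) ^ (-(1 / 3 : ℝ)) ≤ 4 / 5 := by
          have h7 : (2 : ℝ) ^ (-(1 / 3 : ℝ)) = (1 / 2 : ℝ) ^ (1 / 3 : ℝ) := by
            rw [Real.rpow_neg (by norm_num), ← Real.inv_rpow (by norm_num)]
            congr 1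
            norm_num
          rw [h7]
          have h8 : ((4 / 5 : ℝ) ^ 3) ^ (1 / 3 : ℝ) = 4 / 5 := by
            rw [← Real.rpow_natCast, ← Real.rpow_mul (by norm_num)]
            norm_num
          rw [← h8]
          apply Real.rpow_le_rpow (by norm_num) (by norm_num) (by norm_num)
        gcongr
      gcongr
    have h4 : (0 : ℝ) ≤ K := Nat.cast_nonneg K
    have h5 : (K : ℝ) * (CI * (Cb * (2 ^ j * η) ^ (-(1 / 3 : ℝ)) * (1 + Real.log M)) * G) ≤
        (2 * Real.log M) * (CI * (Cb * (η ^ (-(1 / 3 : ℝ)) * (4 / 5) ^ j) *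
          (1 + Real.log M)) * G) := by
      gcongr
    calc 2 * n2 g + K * (CI * (Cb * (2 ^ j * η) ^ (-(1 / 3 : ℝ)) * (1 + Real.log M)) * G) ≤
        2 * G + (2 * Real.log M) * (CI * (Cb * (η ^ (-(1 / 3 : ℝ)) * (4 / 5) ^ j) *
          (1 + Real.log M)) * G) := by linarith
      _ = _ := by ring
  -- the sum over the scales
  have h2 : pm (fun p => (mt (2 * d - E) η p)⁻¹ * ‖ft g p‖ ^ 2) ≤ n2 g +
      4 * ∑ j ∈ Finset.range (n₀ + 1 + 1), pm (fun p =>
        Pool.Agent.Anderson.ker (2 ^ j * η) (es p - E) * ‖ft g p‖ ^ 2) := by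
    have h3 : n2 g + 4 * ∑ j ∈ Finset.range (n₀ + 1 + 1), pm (fun p : Tor d M =>
        Pool.Agent.Anderson.ker (2 ^ j * η) (es p - E) * ‖ft g p‖ ^ 2) =
        pm fun p => (1 + 4 * ∑ j ∈ Finset.range (n₀ + 1 + 1),
          Pool.Agent.Anderson.ker (2 ^ j * η) (es p - E)) * ‖ft g p‖ ^ 2 := by
      have h4 : n2 g = pm fun p => ‖ft g p‖ ^ 2 := Pool.Agent.LE.IR.H54.parseval1 g
      rw [h4]
      unfold pm
      rw [← Finset.sum_div, ← mul_div_assoc, ← add_div, Finset.sum_comm, Finset.mul_sum,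
        ← Finset.sum_add_distrib]
      congr 1
      refine Finset.sum_congr rfl fun p _ => ?_
      rw [← Finset.sum_mul]
      ring
    rw [h3]
    refine pm_mono fun p => ?_
    have h5 := inv_sqrt_le hη hn (es p - E)
    have h6 : mt (2 * d - E) η p = Real.sqrt ((es p - E) ^ 2 + η ^ 2) := by
      rw [← mt_sq, Real.sqrt_sq (mt_pos E hη p).le]
    rw [h6]
    gcongr
  refine h2.trans ?_
  have h3 : ∑ j ∈ Finset.range (n₀ + 1 + 1), pm (fun p : Tor d M =>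
        Pool.Agent.Anderson.ker (2 ^ j * η) (es p - E) * ‖ft g p‖ ^ 2) ≤
      (n₀ + 2) * (2 * G) + (2 * Real.log M) * (CI * Cb * (1 + Real.log M)) * G *
        (η ^ (-(1 / 3 : ℝ)) * 5) := by
    refine (Finset.sum_le_sum fun j _ => h1 j).trans ?_
    rw [Finset.sum_add_distrib, Finset.sum_const, Finset.card_range, nsmul_eq_mul,
      ← Finset.mul_sum, ← Finset.mul_sum]
    have h4 : ∑ j ∈ Finset.range (n₀ + 1 + 1), (4 / 5 : ℝ) ^ j ≤ 5 := by
      have h5 := geom_sum_eq (x := (4 / 5 : ℝ)) (by norm_num) (n₀ + 1 + 1)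
      have h6 : (0 : ℝ) < (4 / 5) ^ (n₀ + 1 + 1) := by positivity
      have h7 : ((4 / 5 : ℝ) ^ (n₀ + 1 + 1) - 1) / (4 / 5 - 1) =
          5 * (1 - (4 / 5 : ℝ) ^ (n₀ + 1 + 1)) := by ring
      rw [h5, h7]
      linarith only [h6]
    have h5 : (2 * Real.log M) * (CI * Cb * (1 + Real.log M)) * G *
        (η ^ (-(1 / 3 : ℝ)) * ∑ j ∈ Finset.range (n₀ + 1 + 1), (4 / 5 : ℝ) ^ j) ≤
        (2 * Real.log M) * (CI * Cb * (1 + Real.log M)) * G * (η ^ (-(1 / 3 : ℝ)) * 5) := by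
      gcongr
    push_cast
    linarith only [h5]
  set L : ℝ := Real.log M with hL
  set w : ℝ := η ^ (-(1 / 3 : ℝ)) with hw
  have h4 : n2 g + 4 * ∑ j ∈ Finset.range (n₀ + 1 + 1), pm (fun p : Tor d M =>
        Pool.Agent.Anderson.ker (2 ^ j * η) (es p - E) * ‖ft g p‖ ^ 2) ≤
      (1 + 8 * (2 + 2 * L) + 40 * (CI * Cb) * L * (1 + L) * w) * G := by
    have h5 : ((n₀ : ℝ) + 2) * (2 * G) ≤ (2 * L + 2) * (2 * G) := by gcongr
    nlinarith
  refine h4.trans ?_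
  have h5 : 1 + 8 * (2 + 2 * L) + 40 * (CI * Cb) * L * (1 + L) * w ≤ C * w * (1 + L) ^ 2 := by
    have hL1 : 1 ≤ (1 + L) := by linarith only [hlogM]
    have h6 : 1 + 8 * (2 + 2 * L) ≤ 17 * (w * (1 + L) ^ 2) := by
      have h7 : 1 * (1 + L) ≤ w * (1 + L) ^ 2 := by
        have : 1 + L ≤ (1 + L) ^ 2 := by nlinarith only [hlogM]
        gcongr
      nlinarith only [hlogM, h7]
    have h7 : 40 * (CI * Cb) * L * (1 + L) * w ≤ 40 * (CI * Cb) * (w * (1 + L) ^ 2) := by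
      have h8 : L * (1 + L) ≤ (1 + L) ^ 2 := by nlinarith only [hlogM]
      calc 40 * (CI * Cb) * L * (1 + L) * w = 40 * (CI * Cb) * w * (L * (1 + L)) := by ring
        _ ≤ 40 * (CI * Cb) * w * ((1 + L) ^ 2) := by gcongr
        _ = _ := by ring
    have h8 : 0 ≤ w * (1 + L) ^ 2 := by positivity
    rw [hC]
    nlinarith only [hCC, hlogM, h6, h7]
  gcongr

end Pool.Agent.LE.QD.H70
end
end -- Pool.Agent.Helper70_LQD.SOB

section -- Pool.Agent.Helper70_LQD.FBP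

set_option autoImplicit false

open MeasureTheory ProbabilityTheory Function Filter

open scoped ENNReal BigOperators Topology NNReal ComplexOrder Matrix

noncomputable section

namespace Pool.Agent.LE.QD.H70

open Pool.Agent.Anderson hiding box mem_box card_box
open Pool.Agent.Loc Pool.Agent.Mob Pool.Agent.Helper54.Bal
  Pool.Agent.Helper96.EXP Pool.Agent.BED
open Pool.Agent.LE.MN Pool.Agent.LE.CL Pool.Agent.LE.IR Pool.Agent.LE.IR.H54

variable {d M : ℕ} [NeZero M]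

/-- the rank one matrices of the form of the potential on the momenta -/
def xm (m : Tor d M → ℝ) (y : Tor d M) : Matrix (Tor d M) (Tor d M) ℂ :=
  Matrix.of fun p q => (((Real.sqrt (m p))⁻¹ * (Real.sqrt (m q))⁻¹ / (M : ℝ) ^ d : ℝ) : ℂ) *
    ((starRingEnd ℂ) (ec p y) * ec q y)

theorem xm_herm (m : Tor d M → ℝ) (y : Tor d M) : (xm m y).IsHermitian := by
  apply Matrix.IsHermitian.ext
  intro p q
  unfold xm
  simp only [Matrix.of_apply]
  show (starRingEnd ℂ) (_ : ℂ) = _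
  rw [map_mul, Complex.conj_ofReal, map_mul, Complex.conj_conj]
  have h : (Real.sqrt (m q))⁻¹ * (Real.sqrt (m p))⁻¹ / (M : ℝ) ^ d =
      (Real.sqrt (m p))⁻¹ * (Real.sqrt (m q))⁻¹ / (M : ℝ) ^ d := by ring
  rw [h]
  ring

theorem xm_mulVec (m : Tor d M → ℝ) (y : Tor d M) (u : Tor d M → ℂ) (p : Tor d M) :
    (xm m y *ᵥ u) p = (((Real.sqrt (m p))⁻¹ / (M : ℝ) ^ d : ℝ) : ℂ) *
      ((starRingEnd ℂ) (ec p y) * ∑ q, ec q y * ((((Real.sqrt (m q))⁻¹ : ℝ) : ℂ) * u q)) := by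
  unfold Matrix.mulVec dotProduct xm
  simp only [Matrix.of_apply]
  rw [Finset.mul_sum, Finset.mul_sum]
  refine Finset.sum_congr rfl fun q _ => ?_
  push_cast
  ring

theorem xm_sum (m : Tor d M → ℝ) (hm : ∀ p, 0 < m p) {η B : ℝ} (hη : 0 < η)
    (hle : ∀ p, η ≤ m p) (hB : pm (fun p => (m p)⁻¹) ≤ B) (u : Tor d M → ℂ) :
    ∑ y, nsq (xm m y *ᵥ u) ≤ B / η * nsq u := by
  have hM : (0 : ℝ) < (M : ℝ) ^ d := Mpos
  obtain ⟨F, hF⟩ := surj (d := d) (M := M) fun q => (((Real.sqrt (m q))⁻¹ : ℝ) : ℂ) * u q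
  have hS : ∀ y, ∑ q, ec q y * ((((Real.sqrt (m q))⁻¹ : ℝ) : ℂ) * u q) = (M : ℂ) ^ d * F y := by
    intro y
    have h := inversion F y
    rw [eq_div_iff Mne] at h
    rw [mul_comm, h]
    exact Finset.sum_congr rfl fun q _ => by rw [hF]
  have h1 : ∀ y, nsq (xm m y *ᵥ u) = (M : ℝ) ^ d * pm (fun p => (m p)⁻¹) * ‖F y‖ ^ 2 := by
    intro y
    unfold nsq pm
    have h2 : ∀ p, ‖(xm m y *ᵥ u) p‖ ^ 2 = (m p)⁻¹ * ‖F y‖ ^ 2 := by
      intro p
      rw [xm_mulVec, hS, norm_mul, norm_mul, norm_mul, RCLike.norm_conj, ec_norm, one_mul, norm_pow,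
        Complex.norm_natCast, Complex.norm_real, Real.norm_eq_abs]
      have h3 : 0 < Real.sqrt (m p) := Real.sqrt_pos.2 (hm p)
      rw [abs_of_pos (by positivity)]
      have h4 : (Real.sqrt (m p))⁻¹ / (M : ℝ) ^ d * ((M : ℝ) ^ d * ‖F y‖) =
          (Real.sqrt (m p))⁻¹ * ‖F y‖ := by
        field_simp
      rw [h4, mul_pow, inv_pow, Real.sq_sqrt (hm p).le]
    simp only [h2]
    rw [← Finset.sum_mul]
    field_simp
  simp only [h1]
  rw [← Finset.mul_sum, Pool.Agent.LE.IR.H54.parseval1]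
  have h5 : (fun p => ‖ft F p‖ ^ 2) = fun p => (m p)⁻¹ * ‖u p‖ ^ 2 := by
    funext p
    rw [hF, norm_mul, mul_pow, Complex.norm_real, Real.norm_eq_abs, sq_abs, inv_pow,
      Real.sq_sqrt (hm p).le]
  rw [h5]
  have h6 : pm (fun p => (m p)⁻¹ * ‖u p‖ ^ 2) ≤ η⁻¹ * (nsq u / (M : ℝ) ^ d) := by
    have h7 : nsq u / (M : ℝ) ^ d = pm fun p => ‖u p‖ ^ 2 := rfl
    rw [h7, ← pm_cmul]
    refine pm_mono fun p => ?_
    have h8 : (m p)⁻¹ ≤ η⁻¹ := inv_anti₀ hη (hle p)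
    gcongr
  have h9 : 0 ≤ pm (fun p => (m p)⁻¹) := pm_nonneg fun p => (inv_pos.2 (hm p)).le
  have h10 : 0 ≤ pm (fun p => (m p)⁻¹ * ‖u p‖ ^ 2) := pm_nonneg fun p => by
    have := hm p
    positivity
  have h11 : 0 ≤ B := h9.trans hB
  calc (M : ℝ) ^ d * pm (fun p => (m p)⁻¹) * pm (fun p => (m p)⁻¹ * ‖u p‖ ^ 2)
      ≤ (M : ℝ) ^ d * B * (η⁻¹ * (nsq u / (M : ℝ) ^ d)) := by gcongr
    _ = B / η * nsq u := by
        field_simp

theorem fbq_of {E η τ : ℝ} (hη : 0 < η) {V : Tor d M → ℝ}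
    (h : ∀ u : Tor d M → ℂ,
      nsq (Matrix.mulVec (∑ y, (V y : ℂ) • xm (fun p => IR.mt (2 * d - E) η p) y) u) ≤
        τ ^ 2 * nsq u) : FBq E η τ V := by
  set m : Tor d M → ℝ := fun p => IR.mt (2 * d - E) η p with hmd
  have hm : ∀ p, 0 < m p := fun p => mt_pos E hη p
  have hM : (0 : ℝ) < (M : ℝ) ^ d := Mpos
  intro f g
  have h1 := h fun p => ((Real.sqrt (m p) : ℝ) : ℂ) * ft f p
  have h2 : ∀ p, (Matrix.mulVec (∑ y, (V y : ℂ) • xm m y)
      (fun p => ((Real.sqrt (m p) : ℝ) : ℂ) * ft f p)) p =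
      (((Real.sqrt (m p))⁻¹ : ℝ) : ℂ) * ft (fun x => (V x : ℂ) * f x) p := by
    intro p
    rw [Matrix.sum_mulVec, Finset.sum_apply]
    unfold ft
    rw [Finset.mul_sum]
    refine Finset.sum_congr rfl fun y _ => ?_
    rw [Matrix.smul_mulVec, Pi.smul_apply, smul_eq_mul, xm_mulVec]
    have h3 : ∑ q, ec q y * ((((Real.sqrt (m q))⁻¹ : ℝ) : ℂ) *
        (((Real.sqrt (m q) : ℝ) : ℂ) * ∑ y, (starRingEnd ℂ) (ec q y) * f y)) =
        (M : ℂ) ^ d * f y := by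
      have h := inversion f y
      rw [eq_div_iff Mne] at h
      rw [mul_comm ((M : ℂ) ^ d), h]
      refine Finset.sum_congr rfl fun q _ => ?_
      have h4 : ((Real.sqrt (m q) : ℝ) : ℂ) ≠ 0 := by
        exact_mod_cast (Real.sqrt_pos.2 (hm q)).ne'
      rw [← mul_assoc ((((Real.sqrt (m q))⁻¹ : ℝ) : ℂ)), Complex.ofReal_inv, inv_mul_cancel₀ h4,
        one_mul]
      rfl
    rw [h3]
    have hM' : (M : ℂ) ^ d ≠ 0 := Mne
    push_cast
    field_simp
  have h3 : nsq (Matrix.mulVec (∑ y, (V y : ℂ) • xm m y)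
      (fun p => ((Real.sqrt (m p) : ℝ) : ℂ) * ft f p)) =
      (M : ℝ) ^ d * pm (fun p => (m p)⁻¹ * ‖ft (fun x => (V x : ℂ) * f x) p‖ ^ 2) := by
    unfold nsq pm
    rw [mul_div_cancel₀ _ hM.ne']
    refine Finset.sum_congr rfl fun p _ => ?_
    rw [h2, norm_mul, mul_pow, Complex.norm_real, Real.norm_eq_abs, sq_abs, inv_pow,
      Real.sq_sqrt (hm p).le]
  have h4 : nsq (fun p => ((Real.sqrt (m p) : ℝ) : ℂ) * ft f p) = (M : ℝ) ^ d * qn E η f := by
    unfold nsq qn pm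
    rw [mul_div_cancel₀ _ hM.ne']
    refine Finset.sum_congr rfl fun p _ => ?_
    rw [norm_mul, mul_pow, Complex.norm_real, Real.norm_eq_abs, sq_abs, Real.sq_sqrt (hm p).le]
  rw [h3, h4] at h1
  have h5 : pm (fun p => (m p)⁻¹ * ‖ft (fun x => (V x : ℂ) * f x) p‖ ^ 2) ≤ τ ^ 2 * qn E η f := by
    refine le_of_mul_le_mul_left ?_ hM
    refine h1.trans (le_of_eq ?_)
    ring
  rw [parseval2 (fun x => (V x : ℂ) * f x) g]
  refine (cs_pm m hm _ _).trans ?_
  have h6 : 0 ≤ pm (fun p => m p * ‖ft g p‖ ^ 2) := pm_nonneg fun p => by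
    have := hm p
    positivity
  calc pm (fun p => m p * ‖ft g p‖ ^ 2) *
        pm (fun p => (m p)⁻¹ * ‖ft (fun x => (V x : ℂ) * f x) p‖ ^ 2)
      ≤ pm (fun p => m p * ‖ft g p‖ ^ 2) * (τ ^ 2 * qn E η f) := by gcongr
    _ = τ ^ 2 * (qn E η g * qn E η f) := by
        unfold qn
        ring

theorem fbp (hNck : NckStmt) : FbpStmt := by
  intro d M _ v E η τ r B k hη hτ hr hk hB
  have hm : ∀ p : Tor d M, 0 < IR.mt (2 * d - E) η p := fun p => mt_pos E hη p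
  have hB0 : 0 ≤ B := le_trans (pm_nonneg fun p => (inv_pos.2 (hm p)).le) hB
  have h1 := hNck (Tor d M) (Tor d M) (fun y => xm (fun p => IR.mt (2 * d - E) η p) y) v (B / η) τ r k
    (fun y => xm_herm _ y) (by positivity)
    (fun u => xm_sum _ hm hη (fun p => le_mt E hη p) hB u) hτ hr hk
  have hcard : (Fintype.card (Tor d M) : ℝ) = (M : ℝ) ^ d := by
    rw [Fintype.card_fun, ZMod.card, Fintype.card_fin]
    push_cast
    rfl
  rw [hcard] at h1
  refine le_trans (measure_mono ?_) h1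
  intro V hV h
  exact hV (fbq_of hη h)

end Pool.Agent.LE.QD.H70
end
end -- Pool.Agent.Helper70_LQD.FBP
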