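import Pool.Agent.Helper12_MEB.B076
import Pool.Agent.Helper12_MEB.B084
import Pool.Agent.Helper12_MEB.B116

/-!
# Merged copies (generated) of the modules

* `Pool.Agent.Helper20_LQD.DIA`
* `Pool.Agent.Helper3_LIR.PIE`
* `Pool.Agent.Helper59_LQD.HSCa`
* `Pool.Agent.Helper59_LQD.HSCb`
* `Pool.Agent.Helper59_LQD.HSC`
* `Pool.Agent.Helper81_LQD.RWSa`
* `Pool.Agent.Helper81_LQD.RWSb`
* `Pool.Agent.Helper81_LQD.RWSc`
* `Pool.Agent.Helper81_LQD.RWSd`
* `Pool.Agent.Helper81_LQD.RWS`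
* `Pool.Agent.Helper93_LIF.PIF`
-/

set_option autoImplicit false

section -- Pool.Agent.Helper20_LQD.DIA

/-!
# LQD, row DIA: the diagonal of the resolvent is nearly constant
-/

set_option autoImplicit false

open MeasureTheory ProbabilityTheory Function Filter

open scoped ENNReal BigOperators Topology NNReal ComplexOrder Matrix

noncomputable section

namespace Pool.Agent.LE.QD.H20

open Pool.Agent.Anderson hiding box mem_box card_box
open Pool.Agent.Loc Pool.Agent.Mob Pool.Agent.Helper54.Bal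
  Pool.Agent.Helper96.EXP Pool.Agent.BED
open Pool.Agent.LE.MN Pool.Agent.LE.CL Pool.Agent.LE.IR Pool.Agent.LE.QD

/-- two uses of the Cauchy-Schwarz inequality -/
theorem cs3 {X : Type} [Fintype X] (D a b : X → ℝ) (ℓ : ℝ) (ha0 : ∀ y, 0 ≤ a y)
    (hb0 : ∀ y, 0 ≤ b y) (ha : Real.sqrt (∑ y, a y ^ 4) ≤ ℓ) (hb : Real.sqrt (∑ y, b y ^ 4) ≤ ℓ) :
    ∑ y, |D y| * (a y * b y) ≤ ℓ * Real.sqrt (∑ y, D y ^ 2) := by
  have h1 : ∑ y, |D y| * (a y * b y) ≤
      Real.sqrt (∑ y, |D y| ^ 2) * Real.sqrt (∑ y, (a y * b y) ^ 2) :=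
    Real.sum_mul_le_sqrt_mul_sqrt _ _ _
  have h2 : ∑ y, (a y * b y) ^ 2 ≤
      Real.sqrt (∑ y, (a y ^ 2) ^ 2) * Real.sqrt (∑ y, (b y ^ 2) ^ 2) := by
    have := Real.sum_mul_le_sqrt_mul_sqrt Finset.univ (fun y => a y ^ 2) (fun y => b y ^ 2)
    simpa [mul_pow] using this
  have e1 : ∑ y, (a y ^ 2) ^ 2 = ∑ y, a y ^ 4 := by
    refine Finset.sum_congr rfl fun y _ => ?_
    ring
  have e2 : ∑ y, (b y ^ 2) ^ 2 = ∑ y, b y ^ 4 := by
    refine Finset.sum_congr rfl fun y _ => ?_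
    ring
  rw [e1, e2] at h2
  have hℓ : 0 ≤ ℓ := (Real.sqrt_nonneg _).trans ha
  have h3 : Real.sqrt (∑ y, a y ^ 4) * Real.sqrt (∑ y, b y ^ 4) ≤ ℓ * ℓ :=
    mul_le_mul ha hb (Real.sqrt_nonneg _) hℓ
  have h4 : Real.sqrt (∑ y, (a y * b y) ^ 2) ≤ ℓ := by
    rw [Real.sqrt_le_left hℓ]
    calc ∑ y, (a y * b y) ^ 2 ≤ ℓ * ℓ := h2.trans h3
      _ = ℓ ^ 2 := by ring
  have e3 : ∑ y, |D y| ^ 2 = ∑ y, D y ^ 2 := by
    refine Finset.sum_congr rfl fun y _ => ?_
    rw [sq_abs]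
  rw [e3] at h1
  calc ∑ y, |D y| * (a y * b y) ≤
      Real.sqrt (∑ y, D y ^ 2) * Real.sqrt (∑ y, (a y * b y) ^ 2) := h1
    _ ≤ Real.sqrt (∑ y, D y ^ 2) * ℓ := mul_le_mul_of_nonneg_left h4 (Real.sqrt_nonneg _)
    _ = ℓ * Real.sqrt (∑ y, D y ^ 2) := by ring

/-- row DIA -/
theorem dia (hral : RalStmt) (hres : ResStmt) (hlcc : LccStmt) : DiaStmt := by
  intro d M _ v E η η₁ A B p r hη hη₁ hA hB hSob hpm hFB hp hr
  obtain ⟨z, hz⟩ : ∃ z : ℂ, z = ⟨E, η⟩ := ⟨_, rfl⟩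
  have hzim : z.im = η := by rw [hz]
  have hz0 : 0 < z.im := by rw [hzim]; exact hη
  rw [← hz]
  obtain ⟨ℓ, hℓ⟩ : ∃ ℓ : ℝ, ℓ = 10 * A * B * (η₁ / η) ^ 2 := ⟨_, rfl⟩
  have hη₁0 : 0 < η₁ := lt_of_lt_of_le hη hη₁
  have hℓ0 : 0 < ℓ := by rw [hℓ]; positivity
  rw [← hℓ]
  obtain ⟨S, hS⟩ : ∃ S : Set (Tor d M → ℝ), S = {V | FBq E η₁ (1 / 4) V} := ⟨_, rfl⟩
  have hSc : gau d M v Sᶜ ≤ ENNReal.ofReal p := by
    have : Sᶜ = {V : Tor d M → ℝ | ¬ FBq E η₁ (1 / 4) V} := by rw [hS]; rfl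
    rw [this]; exact hFB
  -- Lipschitz bound
  have hLip : ∀ (x : Tor d M), ∀ V ∈ S, ∀ V' ∈ S, ‖rs V z x x - rs V' z x x‖ ≤
      ℓ * Real.sqrt (∑ i, (V i - V' i) ^ 2) := by
    intro x V hV V' hV'
    rw [hS] at hV hV'
    have r1 := (hres d M V E η η₁ A B hη hη₁ hA.le hSob hpm hV).2.2.1 x
    have r2 := (hres d M V' E η η₁ A B hη hη₁ hA.le hSob hpm hV').2.2.1 x
    rw [← hz, ← hℓ] at r1 r2
    obtain ⟨-, -, -, -, -, hid, -⟩ := hral d M V z hz0
    have hsym := (hral d M V' z hz0).2.1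
    have h1 : rs V z x x - rs V' z x x =
        -∑ y, rs V z x y * (((V y - V' y : ℝ) : ℂ) * rs V' z y x) := by
      have := congrFun (congrFun (hid V') x) x
      rw [Matrix.sub_apply, Matrix.neg_apply, Matrix.mul_assoc, Matrix.mul_apply] at this
      rw [this]
      congr 1
      refine Finset.sum_congr rfl fun y _ => ?_
      rw [Matrix.diagonal_mul]
    rw [h1, norm_neg]
    refine (norm_sum_le _ _).trans ?_
    refine le_trans (le_of_eq ?_) (cs3 (fun y => V y - V' y) (fun y => ‖rs V z x y‖)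
      (fun y => ‖rs V' z x y‖) ℓ (fun _ => norm_nonneg _) (fun _ => norm_nonneg _) r1 r2)
    refine Finset.sum_congr rfl fun y _ => ?_
    rw [norm_mul, norm_mul, Complex.norm_real, Real.norm_eq_abs, hsym y x]
    ring
  -- continuity and bounds
  have hcont : ∀ x : Tor d M, Continuous fun V : Tor d M → ℝ => rs V z x x := fun x =>
    (hral d M 0 z hz0).2.2.2.2.2.2.2.2.2.1 x x
  have hbd : ∀ (V : Tor d M → ℝ) (x : Tor d M), ‖rs V z x x‖ ≤ 1 / η := by
    intro V x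
    have := (hral d M V z hz0).2.2.2.2.2.2.2.2.2.2.2 x x
    rwa [hzim] at this
  have : IsProbabilityMeasure (gau d M v) := by unfold gau; infer_instance
  have hint : ∀ x : Tor d M, Integrable (fun V : Tor d M → ℝ => rs V z x x) (gau d M v) := by
    intro x
    refine (integrable_const (1 / η)).mono' (hcont x).aestronglyMeasurable ?_
    exact Eventually.of_forall fun V => hbd V x
  have hmean : ∀ x : Tor d M, ∫ V, rs V z x x ∂(gau d M v) = gb d M v z := by
    intro x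
    have hmp : MeasurePreserving (tr x) (gau d M v) (gau d M v) :=
      (Pool.Agent.BED.H61.cov d M 0 0 x).2.2.2.2.2 v
    have h0 : ∀ V : Tor d M → ℝ, rs (tr x V) z 0 0 = rs V z x x := by
      intro V
      have := (hral d M V z hz0).2.2.2.2.2.2.1 x 0 0
      rw [this, add_zero]
    have h1 : ∫ V, rs (tr x V) z 0 0 ∂(gau d M v) = ∫ V, rs V z 0 0 ∂(gau d M v) := by
      have := integral_map (μ := gau d M v) (φ := tr x) hmp.measurable.aemeasurable
        (f := fun V => rs V z 0 0) (hcont 0).aestronglyMeasurable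
      rw [hmp.map_eq] at this
      exact this.symm
    unfold gb
    rw [← h1]
    exact integral_congr_ae (Eventually.of_forall fun V => (h0 V).symm)
  -- the two families of events
  have hRe : ∀ x : Tor d M, gau d M v {V | V ∈ S ∧ r + 2 * (1 / η) * p <
      |(rs V z x x).re - (gb d M v z).re|} ≤
        ENNReal.ofReal (2 * Real.exp (-(r ^ 2 / (5 * ℓ ^ 2 * v)))) := by
    intro x
    have h := hlcc (Tor d M) v S (fun V => (rs V z x x).re) (1 / η) ℓ p r
      (Complex.continuous_re.comp (hcont x)).measurable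
      (fun V => (Complex.abs_re_le_norm _).trans (hbd V x)) hℓ0
      (fun V hV V' hV' => by
        have := hLip x V hV V' hV'
        rw [← Complex.sub_re]
        exact (Complex.abs_re_le_norm _).trans this) hSc hp hr
    have e : ∫ W, (rs W z x x).re ∂(gau d M v) = (gb d M v z).re := by
      rw [← hmean x]
      exact (integral_re (hint x))
    have e' : (∫ W, (rs W z x x).re ∂(Measure.pi fun _ : Tor d M => gaussianReal 0 v)) =
        (gb d M v z).re := e
    rw [e'] at h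
    exact h
  have hIm : ∀ x : Tor d M, gau d M v {V | V ∈ S ∧ r + 2 * (1 / η) * p <
      |(rs V z x x).im - (gb d M v z).im|} ≤
        ENNReal.ofReal (2 * Real.exp (-(r ^ 2 / (5 * ℓ ^ 2 * v)))) := by
    intro x
    have h := hlcc (Tor d M) v S (fun V => (rs V z x x).im) (1 / η) ℓ p r
      (Complex.continuous_im.comp (hcont x)).measurable
      (fun V => (Complex.abs_im_le_norm _).trans (hbd V x)) hℓ0
      (fun V hV V' hV' => by
        have := hLip x V hV V' hV'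
        rw [← Complex.sub_im]
        exact (Complex.abs_im_le_norm _).trans this) hSc hp hr
    have e : ∫ W, (rs W z x x).im ∂(gau d M v) = (gb d M v z).im := by
      rw [← hmean x]
      exact (integral_im (hint x))
    have e' : (∫ W, (rs W z x x).im ∂(Measure.pi fun _ : Tor d M => gaussianReal 0 v)) =
        (gb d M v z).im := e
    rw [e'] at h
    exact h
  -- union bound
  have hsub : {V : Tor d M → ℝ | ¬ ∀ x, ‖rs V z x x - gb d M v z‖ ≤ 2 * r + 4 * p / η} ⊆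
      Sᶜ ∪ ⋃ x : Tor d M, ({V | V ∈ S ∧ r + 2 * (1 / η) * p <
        |(rs V z x x).re - (gb d M v z).re|} ∪ {V | V ∈ S ∧ r + 2 * (1 / η) * p <
        |(rs V z x x).im - (gb d M v z).im|}) := by
    intro V hV
    by_cases hVS : V ∈ S
    · right
      have hV' : ∃ x, ¬ ‖rs V z x x - gb d M v z‖ ≤ 2 * r + 4 * p / η := not_forall.1 hV
      obtain ⟨x, hx⟩ := hV'
      rw [Set.mem_iUnion]
      refine ⟨x, ?_⟩
      by_contra hcon
      rw [Set.mem_union, not_or] at hcon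
      have c1 : |(rs V z x x).re - (gb d M v z).re| ≤ r + 2 * (1 / η) * p := by
        by_contra h
        exact hcon.1 ⟨hVS, not_le.1 h⟩
      have c2 : |(rs V z x x).im - (gb d M v z).im| ≤ r + 2 * (1 / η) * p := by
        by_contra h
        exact hcon.2 ⟨hVS, not_le.1 h⟩
      apply hx
      refine (Complex.norm_le_abs_re_add_abs_im _).trans ?_
      rw [Complex.sub_re, Complex.sub_im]
      refine (add_le_add c1 c2).trans (le_of_eq ?_)
      ring
    · left; exact hVS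
  have hex : 0 ≤ Real.exp (-(r ^ 2 / (5 * ℓ ^ 2 * v))) := (Real.exp_pos _).le
  have hcard : (Finset.univ : Finset (Tor d M)).card = M ^ d := by
    rw [Finset.card_univ, Fintype.card_fun, ZMod.card, Fintype.card_fin]
  calc gau d M v {V : Tor d M → ℝ | ¬ ∀ x, ‖rs V z x x - gb d M v z‖ ≤ 2 * r + 4 * p / η}
      ≤ gau d M v (Sᶜ ∪ ⋃ x : Tor d M, ({V | V ∈ S ∧ r + 2 * (1 / η) * p <
        |(rs V z x x).re - (gb d M v z).re|} ∪ {V | V ∈ S ∧ r + 2 * (1 / η) * p <
        |(rs V z x x).im - (gb d M v z).im|})) := measure_mono hsub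
    _ ≤ gau d M v Sᶜ + ∑ x : Tor d M, (gau d M v {V | V ∈ S ∧ r + 2 * (1 / η) * p <
        |(rs V z x x).re - (gb d M v z).re|} + gau d M v {V | V ∈ S ∧ r + 2 * (1 / η) * p <
        |(rs V z x x).im - (gb d M v z).im|}) := by
        refine (measure_union_le _ _).trans ?_
        gcongr
        refine (measure_iUnion_fintype_le _ _).trans ?_
        exact Finset.sum_le_sum fun x _ => measure_union_le _ _
    _ ≤ ENNReal.ofReal p + ∑ _x : Tor d M, (ENNReal.ofReal (2 * Real.exp (-(r ^ 2 /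
        (5 * ℓ ^ 2 * v)))) + ENNReal.ofReal (2 * Real.exp (-(r ^ 2 / (5 * ℓ ^ 2 * v))))) :=
        add_le_add hSc (Finset.sum_le_sum fun x _ => add_le_add (hRe x) (hIm x))
    _ = ENNReal.ofReal (p + (M : ℝ) ^ d * (4 * Real.exp (-(r ^ 2 / (5 * ℓ ^ 2 * v))))) := by
        rw [Finset.sum_const, hcard, ← ENNReal.ofReal_add (by positivity) (by positivity),
          nsmul_eq_mul, ENNReal.ofReal_add hp (by positivity),
          ENNReal.ofReal_mul (p := (M : ℝ) ^ d) (by positivity)]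
        congr 2
        · rw [← Nat.cast_pow, ENNReal.ofReal_natCast]
        · congr 1
          ring

end Pool.Agent.LE.QD.H20
end
end -- Pool.Agent.Helper20_LQD.DIA

section -- Pool.Agent.Helper3_LIR.PIE

/-!
# Squad LIR, row PIE: the final bound
-/

set_option autoImplicit false

open MeasureTheory ProbabilityTheory

open scoped ENNReal BigOperators NNReal

noncomputable section

namespace Pool.Agent.LE.IR.H3

open Pool.Agent.Anderson hiding box mem_box card_box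
open Pool.Agent.Loc Pool.Agent.Mob Pool.Agent.Helper54.Bal
  Pool.Agent.Helper96.EXP Pool.Agent.BED
open Pool.Agent.LE.MN Pool.Agent.LE.CL

/-- the energy is not far below `2 d` -/
theorem z_gt {d M : ℕ} [NeZero M] {ε z μ : ℝ} {V : Tor d M → ℝ} (h : FlatE ε z μ V) :
    2 * (d : ℝ) - 1 < z := by
  have hne : (fun _ : Tor d M => (1 : ℝ)) ≠ 0 := by
    intro h0
    have := congrFun h0 0
    simp at this
  have h1 := pos_of_posDef h.2.1 hne
  by_contra hz
  push Not at hz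
  refine absurd h1 (not_lt.2 (Finset.sum_nonpos fun x _ => ?_))
  rw [AM_mulVec]
  have h2 := h.1 x
  simp only [Finset.sum_const, Finset.card_univ, Fintype.card_fin, nsmul_eq_mul]
  linarith

theorem growth_pos {d : ℕ} {t : ℝ} (ht : 1 ≤ t) : 0 < growth d t := by
  have := Real.log_nonneg ht
  unfold growth
  split_ifs
  · exact Real.sqrt_pos.2 (by linarith only [ht])
  · linarith
  · norm_num

theorem pie (cpe : CpeStmt) (crg : CrgStmt) : PieStmt := by
  intro d hd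
  have hd0 : (3 : ℝ) ≤ d := by exact_mod_cast hd
  obtain ⟨K₀, hK₀, hcpe⟩ := cpe d hd
  refine ⟨K₀, hK₀, ?_⟩
  intro Kε hKε
  obtain ⟨c, K, hc, hc4, hK, h⟩ := hcpe (2 * (d : ℝ) + 1) Kε (by linarith only [hd0]) hKε
  obtain ⟨C, hC, hg⟩ := crg d (by omega)
  obtain ⟨K', hK'⟩ : ∃ K' : ℝ, K' = C * K * (K + 1 + K₀) * K + 100 := ⟨_, rfl⟩
  have hCK : 1 ≤ C * K := one_le_mul_of_one_le_of_one_le hC hK
  have h2 : 1 ≤ C * K * (K + 1 + K₀) := one_le_mul_of_one_le_of_one_le hCK (by linarith only [hK₀, hc, hc4, hK])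
  have hB0 : K ≤ C * K * (K + 1 + K₀) * K := by
    nlinarith only [hK₀, hc, hc4, hK, hCK, h2]
  have hK1 : K ≤ K' := by rw [hK']; linarith only [hc, hc4, hB0]
  have hK2 : C * K * (K + 1 + K₀) * K ≤ K' := by rw [hK']; linarith only [hc, hc4]
  have hK3 : 100 ≤ K' := by rw [hK']; linarith only [hc, hc4, hK, hB0]
  refine ⟨c, K', hc, hc4, by linarith only [hc, hc4, hK, hK', hB0], ?_⟩
  intro M' v σ t z μ ε p lam L g hσ hσc hv ht hL hz hμ1 hμ2 hl1 hl2 hε hε2 hK5 hM1 hM2 hp hp0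
    hp1 hLy
  have hσ0 : 0 < |σ| := abs_pos.2 hσ
  have hσ4 : |σ| ≤ 1 / 4 := hσc.trans hc4
  have ht1 : 100 ≤ t := hK3.trans ht
  have ht0 : 0 < t := by linarith only [hc, hc4, hK, hK', hB0, ht]
  have hG := growth_pos (d := d) (t := t) (by linarith only [hc, hc4, hK, hK', hB0, ht])
  have hlt : 0 ≤ Real.log t := Real.log_nonneg (by linarith only [hc, hc4, hK, hK', hB0, ht])
  have hls : 1 ≤ Real.log (1 / |σ|) := by
    rw [Real.le_log_iff_exp_le (by positivity)]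
    have h1 := Real.exp_one_lt_d9
    have h2 : 4 ≤ 1 / |σ| := by
      rw [le_div_iff₀ hσ0]
      linarith only [hc4, hσc]
    linarith only [hc, hc4, h1, h2]
  have hL1 : 1 ≤ L := by rw [hL]; linarith only [hlt, hls]
  have hlam0 : 0 < lam := lt_of_lt_of_le (by positivity) hl1
  have hlam1 : lam ≤ 1 := by
    refine hl2.trans ?_
    rw [div_le_one ht0]
    exact ht1
  have hts : 1 ≤ t / |σ| := by
    rw [one_le_div hσ0]
    linarith only [hc, hc4, hK, hK', hB0, hσc, ht]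
  have hts0 : 0 < t / |σ| := by linarith only [hc, hc4, hts]
  have hq0 : 0 < |σ| / t := by positivity
  have hq1 : |σ| / t < 1 := by
    rw [div_lt_one ht0]
    linarith only [hc, hc4, hK, hK', hB0, hσc, ht]
  have hqi : |σ| / t = (t / |σ|)⁻¹ := (inv_div _ _).symm
  -- the hypothesis with the smaller constant
  have hK5' : K * σ ^ 2 * growth d t ^ 2 * L ^ (2 * d + 10) ≤ lam ^ (((d : ℝ) - 4) / 2) := by
    refine le_trans ?_ hK5
    gcongr
  obtain ⟨n, ρ, J, s, hs1, hsK, hρ1, hρ, hJ1, hJ, hn1, hn, hnl, hP⟩ := h M' v σ t z μ ε p lam L hσ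
    hσc hv (hK1.trans ht) hL hz hμ1 hμ2 hl1 hl2 hε hε2 hK5' hM1 hM2 hp hp0 hp1
  -- the energy
  have hM0 : M' ≠ 0 := by
    intro h0
    rw [h0] at hM1
    have := Real.rpow_pos_of_pos hts0 K₀
    simp only [Nat.cast_zero] at hM1
    linarith only [this, hM1]
  have hzl : |z - lam| ≤ 2 * d + 2 := by
    have hNZ : NeZero M' := ⟨hM0⟩
    have h3 := hp hNZ
    have hp2 : p < 1 := by
      refine hp1.trans_lt ?_
      exact Real.rpow_lt_one hq0.le hq1 (by linarith only [hd0, hc, hc4])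
    have h4 : ∃ V : Tor d M' → ℝ, FlatE ε z μ V := by
      by_contra hcon
      push Not at hcon
      have h5 : {V : Tor d M' → ℝ | ¬ FlatE ε z μ V} = Set.univ := by
        ext V
        simp [hcon V]
      rw [h5] at h3
      unfold gau at h3
      rw [measure_univ] at h3
      have h6 : ENNReal.ofReal p < 1 := by
        rw [← ENNReal.ofReal_one]
        exact (ENNReal.ofReal_lt_ofReal_iff (by norm_num)).2 hp2
      exact absurd h3 (not_le.2 h6)
    obtain ⟨V, hV⟩ := h4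
    have h5 := z_gt hV
    rw [abs_le]
    constructor
    · linarith only [hd0, hc, hc4, hlam1, h5]
    · linarith only [hc, hc4, hz, hlam0]
  have hn0 : (0 : ℝ) < n := by exact_mod_cast hn1
  have hρ0 : (1 : ℝ) ≤ ρ := by exact_mod_cast hρ1
  have hJ0 : (1 : ℝ) ≤ J := by exact_mod_cast hJ1
  have key := hg σ (z - lam) s (3 * (|σ| / t) ^ (2 * (d : ℝ) + 1)) g J n ρ hσ0 (by linarith only [hc, hc4, hσc]) hzl
    hs1 hJ1 hn1 hρ1 hLy (by positivity) (by
      have h3 : (n : ℝ) ≤ (|σ| / t) ^ (-(2 * (d : ℝ))) := by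
        rw [hqi, Real.inv_rpow hts0.le, Real.rpow_neg hts0.le, inv_inv]
        refine hn.trans (le_of_eq ?_)
        rw [← Real.rpow_natCast]
        push_cast
        rfl
      calc 3 * (|σ| / t) ^ (2 * (d : ℝ) + 1) * n
          ≤ 3 * (|σ| / t) ^ (2 * (d : ℝ) + 1) * (|σ| / t) ^ (-(2 * (d : ℝ))) := by
            gcongr
        _ = 3 * (|σ| / t) := by
            rw [mul_assoc, ← Real.rpow_add hq0]
            have : 2 * (d : ℝ) + 1 + -(2 * (d : ℝ)) = 1 := by ring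
            rw [this, Real.rpow_one]
        _ ≤ 1 := by
            have : |σ| / t ≤ 1 / 4 / 100 := by
              gcongr
            linarith only [hq0, this]) hP
  have hlogρ : Real.log ρ ≤ K₀ * L := by
    calc Real.log ρ ≤ Real.log ((t / |σ|) ^ K₀) := Real.log_le_log (by linarith only [hc, hc4, hρ0]) hρ
      _ = K₀ * L := by
          rw [Real.log_rpow hts0, hL, Real.log_div ht0.ne' hσ0.ne', one_div, Real.log_inv]
          ring
  obtain ⟨B, hB⟩ : ∃ B : ℝ, B = K * σ ^ 2 * growth d t * Real.sqrt lam * L ^ (d + 4) := ⟨_, rfl⟩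
  rw [← hB] at hnl
  have hBp : 0 < B := by
    rw [hB]
    have := Real.sqrt_pos.2 hlam0
    have h3 : 0 < σ ^ 2 := by positivity
    positivity
  have hnd : (n : ℝ) ^ (-(1 / (d : ℝ))) ≤ B := by
    calc (n : ℝ) ^ (-(1 / (d : ℝ))) ≤ (B ^ (-(d : ℝ))) ^ (-(1 / (d : ℝ))) :=
          Real.rpow_le_rpow_of_nonpos (Real.rpow_pos_of_pos hBp _) hnl
            (by rw [neg_nonpos]; positivity)
      _ = B := by
          rw [← Real.rpow_mul hBp.le]
          have : -(d : ℝ) * -(1 / (d : ℝ)) = 1 := by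
            field_simp
          rw [this, Real.rpow_one]
  have hsum : s + Real.log (1 / |σ|) + Real.log ρ ≤ (K + 1 + K₀) * L := by
    have : Real.log (1 / |σ|) ≤ L := by rw [hL]; linarith only [hlt]
    linarith only [hL, hlt, hsK, hlogρ]
  have hsum0 : 0 ≤ s + Real.log (1 / |σ|) + Real.log ρ := by
    have := Real.log_nonneg hρ0
    linarith only [hc, hc4, hls, hs1, this]
  refine key.trans ?_
  calc C * J * (s + Real.log (1 / |σ|) + Real.log ρ) * (n : ℝ) ^ (-(1 / (d : ℝ)))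
      ≤ C * (K * L) * ((K + 1 + K₀) * L) * B := by
        gcongr
    _ = C * K * (K + 1 + K₀) * K * σ ^ 2 * growth d t * Real.sqrt lam * L ^ (d + 6) := by
        rw [hB]
        ring
    _ ≤ _ := by
        gcongr

end Pool.Agent.LE.IR.H3
end
end -- Pool.Agent.Helper3_LIR.PIE

section -- Pool.Agent.Helper59_LQD.HSCa

/-!
Linear algebra for row HSC: norms of vectors and matrices.
-/

set_option autoImplicit false

open scoped BigOperators Matrix ComplexOrder

noncomputable section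

namespace Pool.Agent.LE.QD.H59

/-- the norm of `ℓ²` -/
def nrm {X : Type} [Fintype X] (f : X → ℂ) : ℝ := ‖(WithLp.toLp 2 f : EuclideanSpace ℂ X)‖

variable {X Y : Type} [Fintype X] [Fintype Y]

theorem nrm_nonneg (f : X → ℂ) : 0 ≤ nrm f := norm_nonneg _

theorem nrm_sq (f : X → ℂ) : nrm f ^ 2 = ∑ x, ‖f x‖ ^ 2 := by
  unfold nrm
  rw [EuclideanSpace.norm_sq_eq]

theorem nrm_add (f g : X → ℂ) : nrm (f + g) ≤ nrm f + nrm g := by
  unfold nrm
  rw [WithLp.toLp_add]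
  exact norm_add_le _ _

theorem nrm_smul (c : ℂ) (f : X → ℂ) : nrm (c • f) = ‖c‖ * nrm f := by
  unfold nrm
  rw [WithLp.toLp_smul]
  exact norm_smul _ _

theorem nrm_neg (f : X → ℂ) : nrm (-f) = nrm f := by
  unfold nrm
  rw [WithLp.toLp_neg]
  exact norm_neg _

theorem nrm_le_of_sq {f : X → ℂ} {g : Y → ℂ} {c : ℝ} (hc : 0 ≤ c)
    (h : ∑ x, ‖f x‖ ^ 2 ≤ c ^ 2 * ∑ x, ‖g x‖ ^ 2) : nrm f ≤ c * nrm g := by
  apply le_of_sq_le_sq _ (mul_nonneg hc (nrm_nonneg g))
  rw [mul_pow, nrm_sq, nrm_sq]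
  exact h

theorem dot_le (f g : X → ℂ) : ‖star g ⬝ᵥ f‖ ≤ nrm g * nrm f := by
  have h := norm_inner_le_norm (𝕜 := ℂ) (WithLp.toLp 2 g : EuclideanSpace ℂ X)
    (WithLp.toLp 2 f : EuclideanSpace ℂ X)
  have e : inner ℂ (WithLp.toLp 2 g : EuclideanSpace ℂ X) (WithLp.toLp 2 f : EuclideanSpace ℂ X) =
      star g ⬝ᵥ f := by
    rw [PiLp.inner_apply]
    unfold dotProduct
    refine Finset.sum_congr rfl fun x _ => ?_
    rw [RCLike.inner_apply, mul_comm]
    rfl
  rw [e] at h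
  exact h

theorem dot_self (g : X → ℂ) : star g ⬝ᵥ g = ((∑ x, ‖g x‖ ^ 2 : ℝ) : ℂ) := by
  unfold dotProduct
  push_cast
  refine Finset.sum_congr rfl fun x _ => ?_
  change starRingEnd ℂ (g x) * g x = _
  rw [mul_comm, Complex.mul_conj, Complex.normSq_eq_norm_sq]
  push_cast
  rfl

/-- the square of the Hilbert-Schmidt norm -/
def hs (B : Matrix X Y ℂ) : ℝ := ∑ y, ∑ x, ‖B x y‖ ^ 2

theorem hs_nonneg (B : Matrix X Y ℂ) : 0 ≤ hs B :=
  Finset.sum_nonneg fun _ _ => Finset.sum_nonneg fun _ _ => sq_nonneg _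

theorem hs_trace (B : Matrix X Y ℂ) : (hs B : ℂ) = Matrix.trace (B * Bᴴ) := by
  unfold hs Matrix.trace
  rw [Finset.sum_comm]
  push_cast
  refine Finset.sum_congr rfl fun x _ => ?_
  rw [Matrix.diag_apply, Matrix.mul_apply]
  refine Finset.sum_congr rfl fun y _ => ?_
  rw [Matrix.conjTranspose_apply]
  change _ = B x y * starRingEnd ℂ (B x y)
  rw [Complex.mul_conj, Complex.normSq_eq_norm_sq]
  push_cast
  rfl

theorem hs_trace' (B : Matrix X Y ℂ) : (hs B : ℂ) = Matrix.trace (Bᴴ * B) := by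
  rw [hs_trace, Matrix.trace_mul_comm]

/-- decomposition with a projection -/
theorem hs_proj [DecidableEq Y] (B : Matrix X Y ℂ) {Q : Matrix Y Y ℂ} (hQ : Q.IsHermitian)
    (hQQ : Q * Q = Q) : hs B = hs (B * Q) + hs (B * (1 - Q)) := by
  have h1 : (hs (B * Q) : ℂ) = Matrix.trace (B * Q * Bᴴ) := by
    rw [hs_trace, Matrix.conjTranspose_mul, hQ.eq]
    congr 1
    calc B * Q * (Q * Bᴴ) = B * (Q * Q) * Bᴴ := by simp only [Matrix.mul_assoc]
      _ = B * Q * Bᴴ := by rw [hQQ]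
  have h2 : (hs (B * (1 - Q)) : ℂ) = Matrix.trace (B * (1 - Q) * Bᴴ) := by
    rw [hs_trace, Matrix.conjTranspose_mul, Matrix.conjTranspose_sub, Matrix.conjTranspose_one,
      hQ.eq]
    congr 1
    have h3 : (1 - Q) * (1 - Q) = 1 - Q := by
      rw [Matrix.sub_mul, Matrix.mul_sub, Matrix.mul_sub, hQQ, Matrix.one_mul, Matrix.mul_one,
        Matrix.one_mul, sub_self, sub_zero]
    calc B * (1 - Q) * ((1 - Q) * Bᴴ) = B * ((1 - Q) * (1 - Q)) * Bᴴ := by
          simp only [Matrix.mul_assoc]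
      _ = B * (1 - Q) * Bᴴ := by rw [h3]
  have h4 : (hs B : ℂ) = hs (B * Q) + hs (B * (1 - Q)) := by
    rw [h1, h2, hs_trace, ← Matrix.trace_add, ← Matrix.add_mul, ← Matrix.mul_add,
      add_sub_cancel, Matrix.mul_one]
  exact_mod_cast h4

theorem hs_cols (B : Matrix X Y ℂ) : hs B = ∑ k, nrm (fun x => B x k) ^ 2 := by
  unfold hs
  exact Finset.sum_congr rfl fun k _ => (nrm_sq _).symm

/-- identity for the imaginary part -/
theorem im_dot {H : Matrix X X ℂ} [DecidableEq X] (hH : H.IsHermitian) (E η : ℝ) {f g : X → ℂ}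
    (h : (H - Matrix.diagonal fun _ => (⟨E, η⟩ : ℂ)) *ᵥ g = f) :
    (star g ⬝ᵥ f).im = -(η * ∑ x, ‖g x‖ ^ 2) := by
  have hd : (Matrix.diagonal fun _ => (⟨E, η⟩ : ℂ)) *ᵥ g = (⟨E, η⟩ : ℂ) • g := by
    funext x
    rw [Matrix.mulVec_diagonal]
    rfl
  rw [← h, Matrix.sub_mulVec, dotProduct_sub, hd, dotProduct_smul, dot_self, Complex.sub_im]
  have h1 : (star g ⬝ᵥ H *ᵥ g).im = 0 := hH.im_star_dotProduct_mulVec_self g
  rw [h1, smul_eq_mul, Complex.mul_im, Complex.ofReal_re, Complex.ofReal_im]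
  simp

/-- the norm of the resolvent -/
theorem res_le {H G : Matrix X X ℂ} [DecidableEq X] (hH : H.IsHermitian) {E η : ℝ} (hη : 0 < η)
    (hG : (H - Matrix.diagonal fun _ => (⟨E, η⟩ : ℂ)) * G = 1) (f : X → ℂ) :
    nrm (G *ᵥ f) ≤ nrm f / η := by
  have h1 : (H - Matrix.diagonal fun _ => (⟨E, η⟩ : ℂ)) *ᵥ (G *ᵥ f) = f := by
    rw [Matrix.mulVec_mulVec, hG, Matrix.one_mulVec]
  have h2 := im_dot hH E η h1
  have h3 := dot_le f (G *ᵥ f)
  have h4 := Complex.abs_im_le_norm (star (G *ᵥ f) ⬝ᵥ f)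
  rw [h2, abs_neg, ← nrm_sq, abs_of_nonneg (by positivity)] at h4
  have h5 : η * nrm (G *ᵥ f) ^ 2 ≤ nrm (G *ᵥ f) * nrm f := h4.trans h3
  rw [le_div_iff₀ hη]
  rcases (nrm_nonneg (G *ᵥ f)).eq_or_lt with h6 | h6
  · rw [← h6, zero_mul]
    exact nrm_nonneg f
  · nlinarith

/-- the diagonal of the resolvent -/
theorem diag_im {H G : Matrix X X ℂ} [DecidableEq X] (hH : H.IsHermitian) {E η : ℝ}
    (hG : (H - Matrix.diagonal fun _ => (⟨E, η⟩ : ℂ)) * G = 1) (x : X) :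
    (G x x).im = η * ∑ y, ‖G y x‖ ^ 2 := by
  have h1 : (H - Matrix.diagonal fun _ => (⟨E, η⟩ : ℂ)) *ᵥ (G *ᵥ Pi.single x 1) =
      Pi.single x 1 := by
    rw [Matrix.mulVec_mulVec, hG, Matrix.one_mulVec]
  have h2 := im_dot hH E η h1
  have h3 : G *ᵥ Pi.single x 1 = fun y => G y x := by
    rw [Matrix.mulVec_single_one]
    rfl
  rw [h3] at h2
  have h4 : star (fun y => G y x) ⬝ᵥ (Pi.single x 1 : X → ℂ) = star (G x x) := by
    rw [dotProduct_single_one]
    rfl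
  rw [h4] at h2
  have h5 : (star (G x x)).im = -(G x x).im := Complex.conj_im _
  rw [h5] at h2
  linarith

end Pool.Agent.LE.QD.H59
end
end -- Pool.Agent.Helper59_LQD.HSCa

section -- Pool.Agent.Helper59_LQD.HSCb

/-!
The core of row HSC.
-/

set_option autoImplicit false

open scoped BigOperators Matrix ComplexOrder

noncomputable section

namespace Pool.Agent.LE.QD.H59

variable {X K : Type} [Fintype X] [DecidableEq X] [Fintype K] [DecidableEq K]

/-- the projection to `C'` -/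
def pr (C' : Finset X) : Matrix X X ℂ := Matrix.diagonal fun y => if y ∈ C' then 1 else 0

theorem pr_mulVec (C' : Finset X) (f : X → ℂ) (y : X) :
    (pr C' *ᵥ f) y = if y ∈ C' then f y else 0 := by
  unfold pr
  rw [Matrix.mulVec_diagonal]
  by_cases h : y ∈ C'
  · rw [if_pos h, if_pos h, one_mul]
  · rw [if_neg h, if_neg h, zero_mul]

theorem nrm_pr_le (C' : Finset X) (f : X → ℂ) : nrm (pr C' *ᵥ f) ≤ nrm f := by
  have h := nrm_le_of_sq (f := pr C' *ᵥ f) (g := f) (c := 1) zero_le_one ?_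
  · rwa [one_mul] at h
  · rw [one_pow, one_mul]
    refine Finset.sum_le_sum fun y _ => ?_
    rw [pr_mulVec]
    by_cases h : y ∈ C'
    · rw [if_pos h]
    · rw [if_neg h, norm_zero, zero_pow two_ne_zero]
      exact sq_nonneg _

/-- the pointwise estimate -/
theorem vec_le {H G : Matrix X X ℂ} {E η : ℝ} {C' : Finset X} (hH : H.IsHermitian) (hη : 0 < η)
    (hG : (H - Matrix.diagonal fun _ => (⟨E, η⟩ : ℂ)) * G = 1) {f j F e : X → ℂ}
    (hf : pr C' *ᵥ f = f) (heq : (E : ℂ) • f - H *ᵥ f = j + F + e)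
    (hF : nrm F ≤ η / 8 * nrm f) (hT : η * nrm (pr C' *ᵥ (G *ᵥ f)) ≤ 1 / 2 * nrm f) :
    nrm (G *ᵥ j) ^ 2 ≤ 129 * nrm (pr C' *ᵥ (G *ᵥ j)) ^ 2 + 131 * (nrm e ^ 2 / η ^ 2) := by
  have hG' : G * (H - Matrix.diagonal fun _ => (⟨E, η⟩ : ℂ)) = 1 := mul_eq_one_comm.mp hG
  have hz : (⟨E, η⟩ : ℂ) = (E : ℂ) + Complex.I * (η : ℂ) := by
    apply Complex.ext <;> simp
  have h1 : (H - Matrix.diagonal fun _ => (⟨E, η⟩ : ℂ)) *ᵥ f =
      -(j + F + e) - (Complex.I * (η : ℂ)) • f := by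
    have hd : (Matrix.diagonal fun _ => (⟨E, η⟩ : ℂ)) *ᵥ f = (⟨E, η⟩ : ℂ) • f := by
      funext x
      rw [Matrix.mulVec_diagonal]
      rfl
    rw [Matrix.sub_mulVec, hd, ← heq, hz, add_smul]
    abel
  have h2 : f = -(G *ᵥ j) - G *ᵥ F - G *ᵥ e - (Complex.I * (η : ℂ)) • (G *ᵥ f) := by
    have h3 : G *ᵥ ((H - Matrix.diagonal fun _ => (⟨E, η⟩ : ℂ)) *ᵥ f) = f := by
      rw [Matrix.mulVec_mulVec, hG', Matrix.one_mulVec]
    rw [h1, Matrix.mulVec_sub, Matrix.mulVec_neg, Matrix.mulVec_add, Matrix.mulVec_add,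
      Matrix.mulVec_smul] at h3
    refine h3.symm.trans ?_
    abel
  have hI : ‖Complex.I * (η : ℂ)‖ = η := by
    rw [norm_mul, Complex.norm_I, one_mul, Complex.norm_real, Real.norm_eq_abs, abs_of_pos hη]
  have hGF := res_le hH hη hG F
  have hGe := res_le hH hη hG e
  have hGf := res_le hH hη hG f
  have hF' : nrm F / η ≤ 1 / 8 * nrm f := by
    rw [div_le_iff₀ hη]
    linarith only [hF]
  have hGf' : η * nrm (G *ᵥ f) ≤ nrm f := by
    rw [le_div_iff₀ hη] at hGf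
    linarith only [hGf]
  have h3 : nrm f ≤ nrm (pr C' *ᵥ (G *ᵥ j)) + nrm (G *ᵥ F) + nrm (G *ᵥ e) +
      η * nrm (pr C' *ᵥ (G *ᵥ f)) := by
    have h4 : f = -(pr C' *ᵥ (G *ᵥ j)) + -(pr C' *ᵥ (G *ᵥ F)) + -(pr C' *ᵥ (G *ᵥ e)) +
        -((Complex.I * (η : ℂ)) • (pr C' *ᵥ (G *ᵥ f))) := by
      have h5 := congrArg (fun u => pr C' *ᵥ u) h2
      simp only [Matrix.mulVec_sub, Matrix.mulVec_neg, Matrix.mulVec_smul] at h5
      rw [hf] at h5
      refine h5.trans ?_
      abel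
    have h6 := nrm_add (-(pr C' *ᵥ (G *ᵥ j)) + -(pr C' *ᵥ (G *ᵥ F)) + -(pr C' *ᵥ (G *ᵥ e)))
      (-((Complex.I * (η : ℂ)) • (pr C' *ᵥ (G *ᵥ f))))
    have h7 := nrm_add (-(pr C' *ᵥ (G *ᵥ j)) + -(pr C' *ᵥ (G *ᵥ F))) (-(pr C' *ᵥ (G *ᵥ e)))
    have h8 := nrm_add (-(pr C' *ᵥ (G *ᵥ j))) (-(pr C' *ᵥ (G *ᵥ F)))
    rw [← h4] at h6
    rw [nrm_neg, nrm_smul, hI] at h6
    rw [nrm_neg (pr C' *ᵥ (G *ᵥ e))] at h7
    rw [nrm_neg, nrm_neg] at h8
    have h9 := nrm_pr_le C' (G *ᵥ F)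
    have h10 := nrm_pr_le C' (G *ᵥ e)
    linarith only [h6, h7, h8, h9, h10]
  have h4 : nrm (G *ᵥ j) ≤ nrm f + nrm (G *ᵥ F) + nrm (G *ᵥ e) + η * nrm (G *ᵥ f) := by
    have h5 : G *ᵥ j = -f + -(G *ᵥ F) + -(G *ᵥ e) + -((Complex.I * (η : ℂ)) • (G *ᵥ f)) := by
      have h6 : f + G *ᵥ j = -(G *ᵥ F) - G *ᵥ e - (Complex.I * (η : ℂ)) • (G *ᵥ f) := by
        nth_rewrite 1 [h2]
        abel
      have h7 : G *ᵥ j = -f + (f + G *ᵥ j) := by abel
      rw [h7, h6]
      abel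
    have h6 := nrm_add (-f + -(G *ᵥ F) + -(G *ᵥ e)) (-((Complex.I * (η : ℂ)) • (G *ᵥ f)))
    have h7 := nrm_add (-f + -(G *ᵥ F)) (-(G *ᵥ e))
    have h8 := nrm_add (-f) (-(G *ᵥ F))
    rw [← h5] at h6
    rw [nrm_neg ((Complex.I * (η : ℂ)) • (G *ᵥ f)), nrm_smul, hI] at h6
    rw [nrm_neg (G *ᵥ e)] at h7
    rw [nrm_neg, nrm_neg] at h8
    linarith only [h6, h7, h8]
  have ha := nrm_nonneg (pr C' *ᵥ (G *ᵥ j))
  have hb : 0 ≤ nrm e / η := div_nonneg (nrm_nonneg e) hη.le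
  have hf0 := nrm_nonneg f
  have hj0 := nrm_nonneg (G *ᵥ j)
  rw [← div_pow]
  have hA : 3 * nrm f ≤ 8 * (nrm (pr C' *ᵥ (G *ᵥ j)) + nrm e / η) := by linarith only [hT, hGF, hGe, hF', h3]
  have hB : 8 * nrm (G *ᵥ j) ≤ 17 * nrm f + 8 * (nrm e / η) := by linarith only [hGF, hGe, hF', hGf', h4]
  have hA2 : 9 * nrm f ^ 2 ≤ 128 * (nrm (pr C' *ᵥ (G *ᵥ j)) ^ 2 + (nrm e / η) ^ 2) := by
    have h5 : (3 * nrm f) ^ 2 ≤ (8 * (nrm (pr C' *ᵥ (G *ᵥ j)) + nrm e / η)) ^ 2 :=
      pow_le_pow_left₀ (by positivity) hA 2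
    nlinarith only [sq_nonneg (nrm (pr C' *ᵥ (G *ᵥ j)) - nrm e / η), h5]
  have hB2 : 64 * nrm (G *ᵥ j) ^ 2 ≤ 578 * nrm f ^ 2 + 128 * (nrm e / η) ^ 2 := by
    have h5 : (8 * nrm (G *ᵥ j)) ^ 2 ≤ (17 * nrm f + 8 * (nrm e / η)) ^ 2 :=
      pow_le_pow_left₀ (by positivity) hB 2
    nlinarith only [sq_nonneg (17 * nrm f - 8 * (nrm e / η)), h5]
  nlinarith only [sq_nonneg (nrm (pr C' *ᵥ (G *ᵥ j))), sq_nonneg (nrm e / η), hA2, hB2]

/-- columns -/
theorem col_eq {Y : Type} (B : Matrix Y K ℂ) (k : K) : B *ᵥ (Pi.single k 1 : K → ℂ) = fun x => B x k := by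
  rw [Matrix.mulVec_single_one]
  rfl

theorem hs_cols' {Y : Type} [Fintype Y] (B : Matrix Y K ℂ) : hs B = ∑ k, nrm (B *ᵥ (Pi.single k 1 : K → ℂ)) ^ 2 := by
  rw [hs_cols]
  exact Finset.sum_congr rfl fun k _ => by rw [col_eq]

/-- a contraction from the left -/
theorem hs_left_le {Y : Type} [Fintype Y] {A : Matrix Y X ℂ} {c : ℝ}
    (hA : ∀ f : X → ℂ, nrm (A *ᵥ f) ≤ c * nrm f) (B : Matrix X K ℂ) :
    hs (A * B) ≤ c ^ 2 * hs B := by
  rw [hs_cols', hs_cols', Finset.mul_sum]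
  refine Finset.sum_le_sum fun k _ => ?_
  rw [← Matrix.mulVec_mulVec, ← mul_pow]
  exact pow_le_pow_left₀ (nrm_nonneg _) (hA _) 2

/-- the core of the row -/
theorem core {H G : Matrix X X ℂ} {E η S e₁ : ℝ} {C' : Finset X} {J Ψ Fm Em : Matrix X K ℂ}
    {Q : Matrix K K ℂ} (hH : H.IsHermitian) (hη : 0 < η)
    (hG : (H - Matrix.diagonal fun _ => (⟨E, η⟩ : ℂ)) * G = 1)
    (hJ : ∀ v : K → ℂ, nrm (J *ᵥ v) ≤ 1 * nrm v)
    (hP : pr C' * Ψ = Ψ) (heq : (E : ℂ) • Ψ - H * Ψ = J + Fm + Em)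
    (hF : ∀ v : K → ℂ, nrm (Fm *ᵥ v) ≤ η / 8 * nrm (Ψ *ᵥ v))
    (hQ : Q.IsHermitian) (hQQ : Q * Q = Q)
    (hT : ∀ v : K → ℂ, η * nrm (pr C' *ᵥ (G *ᵥ (Ψ *ᵥ (Q *ᵥ v)))) ≤ 1 / 2 * nrm (Ψ *ᵥ (Q *ᵥ v)))
    (hE : hs Em ≤ e₁) (hS : hs (pr C' * (G * J)) ≤ S)
    (htr : (Matrix.trace (1 - Q)).re ≤ 4 * η ^ 2 * S) :
    hs (G * J) ≤ 133 * S + 131 * (e₁ / η ^ 2) := by
  have hη2 : 0 < η ^ 2 := by positivity
  -- the good part
  have h1 : hs (G * J * Q) ≤ 129 * hs (pr C' * (G * J)) + 131 * (hs Em / η ^ 2) := by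
    have h2 : hs (pr C' * (G * J) * Q) ≤ hs (pr C' * (G * J)) := by
      have := hs_proj (pr C' * (G * J)) hQ hQQ
      have h3 := hs_nonneg (pr C' * (G * J) * (1 - Q))
      linarith only [this, h3]
    have h3 : hs (Em * Q) ≤ hs Em := by
      have := hs_proj Em hQ hQQ
      have h3 := hs_nonneg (Em * (1 - Q))
      linarith only [this, h3]
    have h4 : hs (G * J * Q) ≤ 129 * hs (pr C' * (G * J) * Q) + 131 * (hs (Em * Q) / η ^ 2) := by
      rw [hs_cols', hs_cols', hs_cols', Finset.mul_sum, Finset.sum_div, Finset.mul_sum,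
        ← Finset.sum_add_distrib]
      refine Finset.sum_le_sum fun k _ => ?_
      have h5 := vec_le (C' := C') hH hη hG (f := Ψ *ᵥ (Q *ᵥ Pi.single k 1))
        (j := J *ᵥ (Q *ᵥ Pi.single k 1)) (F := Fm *ᵥ (Q *ᵥ Pi.single k 1))
        (e := Em *ᵥ (Q *ᵥ Pi.single k 1)) ?_ ?_ (hF _) (hT _)
      · simpa only [Matrix.mulVec_mulVec, Matrix.mul_assoc] using h5
      · rw [Matrix.mulVec_mulVec, hP]
      · rw [← Matrix.add_mulVec, ← Matrix.add_mulVec, ← heq, Matrix.sub_mulVec, Matrix.smul_mulVec,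
          ← Matrix.mulVec_mulVec]
    have h5 : hs (Em * Q) / η ^ 2 ≤ hs Em / η ^ 2 := div_le_div_of_nonneg_right h3 hη2.le
    linarith only [h2, h4, h5]
  -- the bad part
  have h2 : hs (G * J * (1 - Q)) ≤ 4 * S := by
    have h3 : hs (G * (J * (1 - Q))) ≤ (1 / η) ^ 2 * hs (J * (1 - Q)) := by
      refine hs_left_le (fun f => ?_) _
      rw [one_div, mul_comm, ← div_eq_mul_inv]
      exact res_le hH hη hG f
    have h4 : hs (J * (1 - Q)) ≤ 1 ^ 2 * hs (1 - Q) := hs_left_le hJ _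
    have h5 : hs (1 - Q) = (Matrix.trace (1 - Q)).re := by
      have h6 := hs_trace (1 - Q)
      have h7 : (1 - Q) * (1 - Q)ᴴ = 1 - Q := by
        rw [Matrix.conjTranspose_sub, Matrix.conjTranspose_one, hQ.eq, Matrix.sub_mul,
          Matrix.mul_sub, Matrix.mul_sub, hQQ, Matrix.one_mul, Matrix.mul_one, Matrix.one_mul,
          sub_self, sub_zero]
      rw [h7] at h6
      rw [← h6, Complex.ofReal_re]
    rw [Matrix.mul_assoc]
    rw [one_pow, one_mul, h5] at h4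
    have h8 : (1 / η) ^ 2 * hs (J * (1 - Q)) ≤ (1 / η) ^ 2 * (4 * η ^ 2 * S) :=
      mul_le_mul_of_nonneg_left (h4.trans htr) (by positivity)
    have h9 : (1 / η) ^ 2 * (4 * η ^ 2 * S) = 4 * S := by
      field_simp
    linarith only [h3, h8, h9]
  have h3 := hs_proj (G * J) hQ hQQ
  have h4 : hs Em / η ^ 2 ≤ e₁ / η ^ 2 := div_le_div_of_nonneg_right hE hη2.le
  linarith only [hS, h1, h2, h3, h4]

end Pool.Agent.LE.QD.H59
end
end -- Pool.Agent.Helper59_LQD.HSCb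

section -- Pool.Agent.Helper59_LQD.HSC

/-!
Row HSC: the Hilbert-Schmidt bound.
-/

set_option autoImplicit false

open scoped BigOperators Matrix ComplexOrder

noncomputable section

namespace Pool.Agent.LE.QD.H59

open Pool.Agent.LE.CL (LaqStmt)

variable {X : Type} [Fintype X] [DecidableEq X]

/-- the inclusion of `ℓ²(C)` -/
def inc (C : Finset X) : Matrix X C ℂ := fun y x => if y = x.1 then 1 else 0

theorem mul_inc (C : Finset X) (G : Matrix X X ℂ) (y : X) (x : C) :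
    (G * inc C) y x = G y x.1 := by
  rw [Matrix.mul_apply]
  unfold inc
  simp

theorem nrm_inc_le (C : Finset X) (v : C → ℂ) : nrm (inc C *ᵥ v) ≤ 1 * nrm v := by
  apply nrm_le_of_sq zero_le_one
  rw [one_pow, one_mul]
  have h1 : ∀ x : C, (inc C *ᵥ v) x.1 = v x := by
    intro x
    change ∑ b : C, (if x.1 = b.1 then (1 : ℂ) else 0) * v b = v x
    rw [Finset.sum_eq_single x]
    · rw [if_pos rfl, one_mul]
    · intro b _ hb
      rw [if_neg (fun h : x.1 = b.1 => hb (Subtype.ext h.symm)), zero_mul]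
    · intro h
      exact absurd (Finset.mem_univ x) h
  have h2 : ∀ y, y ∉ C → (inc C *ᵥ v) y = 0 := by
    intro y hy
    change ∑ b : C, (if y = b.1 then (1 : ℂ) else 0) * v b = 0
    refine Finset.sum_eq_zero fun b _ => ?_
    rw [if_neg (fun h : y = b.1 => hy (h ▸ b.2)), zero_mul]
  have h3 : ∑ x : C, ‖v x‖ ^ 2 = ∑ y ∈ C, ‖(inc C *ᵥ v) y‖ ^ 2 := by
    rw [← Finset.sum_coe_sort C (fun y => ‖(inc C *ᵥ v) y‖ ^ 2)]
    exact Finset.sum_congr rfl fun x _ => by rw [h1]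
  rw [h3]
  refine le_of_eq (Finset.sum_subset (Finset.subset_univ C) fun y _ hy => ?_).symm
  rw [h2 y hy, norm_zero, zero_pow two_ne_zero]

theorem hsc (hLAQ : LaqStmt) : HscStmt := by
  intro X _ _ H G E η ε e₀ C C' ψ F e hH hη hε hCC hG hsupp heq hF he hS
  set Ψ : Matrix X C ℂ := fun y x => ψ x y with hΨ
  set Fm : Matrix X C ℂ := fun y x => F x y with hFm
  set Em : Matrix X C ℂ := fun y x => e x y with hEm
  set T : Matrix X X ℂ := ((Real.sqrt 2 * η : ℝ) : ℂ) • (pr C' * G * pr C') with hTdef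
  set S : ℝ := ∑ x ∈ C', ∑ y ∈ C', ‖G x y‖ ^ 2 with hSdef
  obtain ⟨Q, hQ, hQQ, htr, hT⟩ := hLAQ C X (Tᴴ * T) Ψ (Matrix.posSemidef_conjTranspose_mul_self T)
  have hs2 : (Real.sqrt 2 * η) ^ 2 = 2 * η ^ 2 := by
    rw [mul_pow, Real.sq_sqrt (by norm_num)]
  have hlnt : ∀ (A : X → X → ℂ) (v : C → ℂ),
      Pool.Agent.LE.IR.lnt C A v = (fun y (x : C) => A x y : Matrix X C ℂ) *ᵥ v := by
    intro A v
    funext y
    unfold Pool.Agent.LE.IR.lnt Matrix.mulVec dotProduct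
    exact Finset.sum_congr rfl fun x _ => mul_comm _ _
  have hP : pr C' * Ψ = Ψ := by
    funext y x
    unfold pr
    rw [Matrix.diagonal_mul]
    by_cases h : y ∈ C'
    · rw [if_pos h, one_mul]
    · rw [if_neg h, zero_mul]
      exact (hsupp x.1 x.2 y h).symm
  have hPv : ∀ v : C → ℂ, pr C' *ᵥ (Ψ *ᵥ v) = Ψ *ᵥ v := by
    intro v
    rw [Matrix.mulVec_mulVec, hP]
  have heq' : (E : ℂ) • Ψ - H * Ψ = inc C + Fm + Em := by
    funext y x
    have := heq x.1 x.2 y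
    change (E : ℂ) * ψ x y - (H * Ψ) y x = (if y = x.1 then 1 else 0) + F x y + e x y
    rw [← this]
    rfl
  have hF' : ∀ v : C → ℂ, nrm (Fm *ᵥ v) ≤ η / 8 * nrm (Ψ *ᵥ v) := by
    intro v
    apply nrm_le_of_sq (by positivity)
    have := hF v
    rw [hlnt, hlnt] at this
    exact this
  have hST : hs T = 2 * η ^ 2 * S := by
    have h1 : ∀ x y, T x y = ((Real.sqrt 2 * η : ℝ) : ℂ) *
        (if x ∈ C' then (if y ∈ C' then G x y else 0) else 0) := by
      intro x y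
      rw [hTdef]
      unfold pr
      rw [Matrix.smul_apply, Matrix.mul_diagonal, Matrix.diagonal_mul, smul_eq_mul]
      by_cases h : x ∈ C' <;> by_cases h' : y ∈ C' <;> simp [h, h']
    unfold hs
    rw [Finset.sum_comm, hSdef, Finset.mul_sum]
    have h2 : ∀ x, ∑ y, ‖T x y‖ ^ 2 = if x ∈ C' then 2 * η ^ 2 * ∑ y ∈ C', ‖G x y‖ ^ 2 else 0 := by
      intro x
      by_cases h : x ∈ C'
      · rw [if_pos h, Finset.mul_sum, ← Finset.sum_subset (Finset.subset_univ C')]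
        · refine Finset.sum_congr rfl fun y hy => ?_
          rw [h1, if_pos h, if_pos hy, norm_mul, mul_pow, Complex.norm_real, Real.norm_eq_abs,
            sq_abs, hs2]
        · intro y _ hy
          rw [h1, if_neg hy, ite_self, mul_zero, norm_zero, zero_pow two_ne_zero]
      · rw [if_neg h]
        refine Finset.sum_eq_zero fun y _ => ?_
        rw [h1, if_neg h, mul_zero, norm_zero, zero_pow two_ne_zero]
    rw [← Finset.sum_subset (Finset.subset_univ C')]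
    · refine Finset.sum_congr rfl fun x hx => ?_
      rw [h2, if_pos hx]
    · intro x _ hx
      rw [h2, if_neg hx]
  have htr' : (Matrix.trace (1 - Q)).re ≤ 4 * η ^ 2 * S := by
    have h1 := hs_trace' T
    rw [← h1, Complex.ofReal_re, hST] at htr
    linarith only [htr]
  have hT' : ∀ v : C → ℂ, η * nrm (pr C' *ᵥ (G *ᵥ (Ψ *ᵥ (Q *ᵥ v)))) ≤
      1 / 2 * nrm (Ψ *ᵥ (Q *ᵥ v)) := by
    intro v
    have h1 := hT v
    set f : X → ℂ := Ψ *ᵥ (Q *ᵥ v) with hf
    have h2 : star f ⬝ᵥ ((Tᴴ * T) *ᵥ f) = star (T *ᵥ f) ⬝ᵥ (T *ᵥ f) := by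
      rw [← Matrix.mulVec_mulVec, Matrix.dotProduct_mulVec, Matrix.star_mulVec T f]
    have h3 : T *ᵥ f = ((Real.sqrt 2 * η : ℝ) : ℂ) • (pr C' *ᵥ (G *ᵥ f)) := by
      rw [hTdef, Matrix.smul_mulVec, ← Matrix.mulVec_mulVec, ← Matrix.mulVec_mulVec, hf, hPv]
    have h4 : nrm (T *ᵥ f) ^ 2 = 2 * η ^ 2 * nrm (pr C' *ᵥ (G *ᵥ f)) ^ 2 := by
      rw [h3, nrm_smul, mul_pow, Complex.norm_real, Real.norm_eq_abs, sq_abs, hs2]
    have h5 : Pool.Agent.Anderson.nsq f = nrm f ^ 2 := (nrm_sq f).symm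
    rw [h2, dot_self, Complex.ofReal_re, ← nrm_sq, h4, h5] at h1
    have h6 : (η * nrm (pr C' *ᵥ (G *ᵥ f))) ^ 2 ≤ (1 / 2 * nrm f) ^ 2 := by
      rw [mul_pow, mul_pow]
      linarith only [h1]
    exact (abs_le_of_sq_le_sq' h6 (mul_nonneg (by norm_num) (nrm_nonneg f))).2
  have hE : hs Em ≤ e₀ * C.card := by
    have h1 : hs Em ≤ ∑ _x : C, e₀ := Finset.sum_le_sum fun x _ => he x.1 x.2
    rwa [Finset.sum_const, Finset.card_univ, Fintype.card_coe, nsmul_eq_mul, mul_comm] at h1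
  have hS' : hs (pr C' * (G * inc C)) ≤ S := by
    have h1 : ∀ (y : X) (x : C), (pr C' * (G * inc C)) y x = if y ∈ C' then G y x.1 else 0 := by
      intro y x
      unfold pr
      rw [Matrix.diagonal_mul, mul_inc]
      by_cases h : y ∈ C'
      · rw [if_pos h, if_pos h, one_mul]
      · rw [if_neg h, if_neg h, zero_mul]
    have h2 : ∀ x : C, ∑ y, ‖(pr C' * (G * inc C)) y x‖ ^ 2 = ∑ y ∈ C', ‖G y x.1‖ ^ 2 := by
      intro x
      rw [← Finset.sum_subset (Finset.subset_univ C')]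
      · refine Finset.sum_congr rfl fun y hy => ?_
        rw [h1, if_pos hy]
      · intro y _ hy
        rw [h1, if_neg hy, norm_zero, zero_pow two_ne_zero]
    unfold hs
    rw [Finset.sum_congr rfl fun x _ => h2 x,
      Finset.sum_coe_sort C (fun x => ∑ y ∈ C', ‖G y x‖ ^ 2), hSdef, Finset.sum_comm (s := C')]
    exact Finset.sum_le_sum_of_subset_of_nonneg hCC fun _ _ _ =>
      Finset.sum_nonneg fun _ _ => sq_nonneg _
  have hcore := core (C' := C') (J := inc C) (Ψ := Ψ) (Fm := Fm) (Em := Em) (Q := Q) hH hη hG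
    (nrm_inc_le C) hP heq' hF' hQ hQQ hT' hE hS' htr'
  have hsum : ∑ x ∈ C, (G x x).im = η * hs (G * inc C) := by
    rw [← Finset.sum_coe_sort C (fun x => (G x x).im)]
    unfold hs
    rw [Finset.mul_sum]
    refine Finset.sum_congr rfl fun x _ => ?_
    rw [diag_im hH hG]
    congr 1
    exact Finset.sum_congr rfl fun y _ => by rw [mul_inc]
  have h0 : 0 ≤ e₀ * C.card := (hs_nonneg Em).trans hE
  have h1 : η * (133 * S + 131 * (e₀ * C.card / η ^ 2)) =
      133 * (η * S) + 131 * (e₀ * C.card / η) := by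
    field_simp
  have h2 : η * S ≤ ε * C'.card := by
    have := (le_div_iff₀ hη).mp hS
    linarith only [this]
  have h3 : 0 ≤ e₀ * C.card / η := div_nonneg h0 hη.le
  have h4 : 0 ≤ ε * C'.card := mul_nonneg hε (Nat.cast_nonneg _)
  rw [hsum]
  calc η * hs (G * inc C) ≤ η * (133 * S + 131 * (e₀ * C.card / η ^ 2)) :=
        mul_le_mul_of_nonneg_left hcore hη.le
    _ = 133 * (η * S) + 131 * (e₀ * C.card / η) := h1
    _ ≤ 200 * (ε * C'.card + e₀ * C.card / η) := by linarith only [h2, h3, h4]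

end Pool.Agent.LE.QD.H59
end
end -- Pool.Agent.Helper59_LQD.HSC

section -- Pool.Agent.Helper81_LQD.RWSa

/-!
# RWS, part a: a Gauss sum on the cyclic group, a tail sum
-/

set_option autoImplicit false

open scoped BigOperators

noncomputable section

namespace Pool.Agent.LE.QD.H81

/-- a Gauss sum -/
theorem gauss_range (a : ℝ) (ha : 0 < a) (N : ℕ) :
    ∑ j ∈ Finset.range (N + 1), Real.exp (-(a * (j : ℝ) ^ 2)) ≤ 1 + Real.sqrt (Real.pi / a) / 2 := by
  rw [Finset.sum_range_succ']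
  have h0 : Real.exp (-(a * ((0 : ℕ) : ℝ) ^ 2)) = 1 := by simp
  rw [h0]
  have h1 : ∑ j ∈ Finset.range N, Real.exp (-(a * ((j + 1 : ℕ) : ℝ) ^ 2)) ≤
      ∫ x in (0 : ℝ)..((0 : ℝ) + N), Real.exp (-a * x ^ 2) := by
    have h2 : AntitoneOn (fun x : ℝ => Real.exp (-a * x ^ 2)) (Set.Icc (0 : ℝ) (0 + N)) := by
      intro x hx y hy hxy
      apply Real.exp_le_exp.mpr
      have hx0 : 0 ≤ x := hx.1
      nlinarith only [mul_nonneg ha.le (mul_nonneg (sub_nonneg.mpr hxy) (add_nonneg hx0 (hx0.trans hxy)))]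
    have h3 := h2.sum_le_integral
    refine le_trans (le_of_eq ?_) h3
    refine Finset.sum_congr rfl fun j _ => ?_
    congr 1
    push_cast
    ring
  have h4 : ∫ x in (0 : ℝ)..((0 : ℝ) + N), Real.exp (-a * x ^ 2) ≤
      ∫ x in Set.Ioi (0 : ℝ), Real.exp (-a * x ^ 2) := by
    rw [intervalIntegral.integral_of_le (by positivity)]
    apply MeasureTheory.setIntegral_mono_set
    · exact (integrable_exp_neg_mul_sq ha).integrableOn
    · exact Filter.Eventually.of_forall fun x => (Real.exp_pos _).le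
    · exact (Set.Ioc_subset_Ioi_self).eventuallyLE
  rw [integral_gaussian_Ioi] at h4
  linarith

/-- the sum over the cyclic group of a function of the absolute value -/
theorem sum_zmod (M : ℕ) [NeZero M] (G : ℕ → ℝ) (hG : ∀ j, 0 ≤ G j) :
    ∑ q : ZMod M, G q.valMinAbs.natAbs ≤ 2 * ∑ j ∈ Finset.range (M + 1), G j := by
  classical
  let e : ZMod M → ℕ × Bool := fun q => (q.valMinAbs.natAbs, decide (0 ≤ q.valMinAbs))
  have he : Function.Injective e := by
    intro p q h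
    simp only [e, Prod.mk.injEq, decide_eq_decide] at h
    obtain ⟨h1, h2⟩ := h
    apply ZMod.injective_valMinAbs
    omega
  have h1 : ∑ q : ZMod M, G q.valMinAbs.natAbs =
      ∑ x ∈ Finset.univ.image e, G x.1 := by
    rw [Finset.sum_image (fun a _ b _ h => he h)]
  have h2 : Finset.univ.image e ⊆ Finset.range (M + 1) ×ˢ (Finset.univ : Finset Bool) := by
    intro x hx
    rw [Finset.mem_image] at hx
    obtain ⟨q, _, rfl⟩ := hx
    rw [Finset.mem_product]
    refine ⟨?_, Finset.mem_univ _⟩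
    rw [Finset.mem_range]
    have := ZMod.natAbs_valMinAbs_le q
    show q.valMinAbs.natAbs < M + 1
    omega
  rw [h1]
  refine (Finset.sum_le_sum_of_subset_of_nonneg h2 fun x _ _ => hG _).trans ?_
  rw [Finset.sum_product]
  simp only [Finset.sum_const, Finset.card_univ, Fintype.card_bool, nsmul_eq_mul]
  rw [Finset.mul_sum]
  push_cast
  exact le_rfl

/-- telescoping: `∑_{m > n} m^{-3/2} ≤ 2 n^{-1/2}` -/
theorem tail_sum (n : ℕ) (hn : 1 ≤ n) (N : ℕ) :
    ∑ m ∈ Finset.Ico (n + 1) N, (1 / Real.sqrt m) ^ 3 ≤ 2 * (1 / Real.sqrt n) := by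
  have key : ∀ m : ℕ, 2 ≤ m → (1 / Real.sqrt m) ^ 3 ≤
      2 * (1 / Real.sqrt ((m - 1 : ℕ) : ℝ)) - 2 * (1 / Real.sqrt m) := by
    intro m hm
    obtain ⟨k, rfl⟩ : ∃ k, m = k + 1 := ⟨m - 1, by omega⟩
    have hk : 1 ≤ k := by omega
    rw [Nat.add_sub_cancel]
    set a : ℝ := Real.sqrt ((k : ℕ) : ℝ) with ha
    set b : ℝ := Real.sqrt ((k + 1 : ℕ) : ℝ) with hb
    have ha2 : a ^ 2 = k := Real.sq_sqrt (by positivity)
    have hb2 : b ^ 2 = k + 1 := by
      rw [hb, Real.sq_sqrt (by positivity)]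
      push_cast
      ring
    have ha0 : 0 < a := Real.sqrt_pos.mpr (by exact_mod_cast hk)
    have hb0 : 0 < b := Real.sqrt_pos.mpr (by positivity)
    have hab : a ≤ b := Real.sqrt_le_sqrt (by push_cast; linarith only)
    have h1 : (b - a) * (b + a) = 1 := by
      have : (b - a) * (b + a) = b ^ 2 - a ^ 2 := by ring
      rw [this, ha2, hb2]
      ring
    have h2 : 2 * (1 / a) - 2 * (1 / b) - (1 / b) ^ 3 =
        (2 * (b - a) * b ^ 2 - a) / (a * b ^ 3) := by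
      field_simp
    have h3 : 0 ≤ 2 * (b - a) * b ^ 2 - a := by
      have h4 : a * (b + a) ≤ 2 * b ^ 2 := by nlinarith only [ha2, hb2, hb0, hab]
      have h5 : 2 * (b - a) * b ^ 2 ≥ (b - a) * (a * (b + a)) := by
        have := mul_le_mul_of_nonneg_left h4 (sub_nonneg.mpr hab)
        linarith only [this]
      have h6 : (b - a) * (a * (b + a)) = a * ((b - a) * (b + a)) := by ring
      rw [h6, h1] at h5
      linarith only [h5]
    have h7 : 0 ≤ (2 * (b - a) * b ^ 2 - a) / (a * b ^ 3) := div_nonneg h3 (by positivity)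
    linarith
  have h8 : ∀ N : ℕ, n + 1 ≤ N → ∑ m ∈ Finset.Ico (n + 1) N, (1 / Real.sqrt m) ^ 3 ≤
      2 * (1 / Real.sqrt n) - 2 * (1 / Real.sqrt ((N - 1 : ℕ) : ℝ)) := by
    intro N hN
    induction N, hN using Nat.le_induction with
    | base => simp
    | succ N hN ih =>
      rw [Finset.sum_Ico_succ_top hN]
      have h9 := key N (by omega)
      rw [Nat.add_sub_cancel]
      linarith only [ih, h9]
  rcases Nat.lt_or_ge N (n + 1) with h | h
  · rw [Finset.Ico_eq_empty (by omega)]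
    simp only [Finset.sum_empty]
    positivity
  · have h9 := h8 N h
    have h10 : 0 ≤ 2 * (1 / Real.sqrt ((N - 1 : ℕ) : ℝ)) := by positivity
    linarith only [h9, h10]

end Pool.Agent.LE.QD.H81
end
end -- Pool.Agent.Helper81_LQD.RWSa

section -- Pool.Agent.Helper81_LQD.RWSb

/-!
# RWS, part b: the convolution operator and its Fourier transform
-/

set_option autoImplicit false
set_option linter.unusedSectionVars false

open scoped BigOperators

noncomputable section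

namespace Pool.Agent.LE.QD.H81

open Pool.Agent.BED Pool.Agent.LE.IR Pool.Agent.LE.QD
open Pool.Agent.LE.IR.H54

variable {d M : ℕ} [NeZero M]

/-- the convolution with `v k` -/
def TT (k : Tor d M → ℝ) (v : ℝ) (g : Tor d M → ℝ) (x : Tor d M) : ℝ :=
  v * ∑ y, k (x - y) * g y

/-- the Fourier transform of an even kernel -/
def kh (k : Tor d M → ℝ) (q : Tor d M) : ℝ := ∑ x, k x * (ec q x).re

theorem ft_k (k : Tor d M → ℝ) (hk : ∀ x, k (-x) = k x) (q : Tor d M) :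
    ft (fun x => (k x : ℂ)) q = (kh k q : ℂ) := by
  have h1 : (starRingEnd ℂ) (ft (fun x => (k x : ℂ)) q) = ft (fun x => (k x : ℂ)) q := by
    unfold ft
    rw [map_sum]
    have h2 := Equiv.sum_comp (Equiv.neg (Tor d M)) (fun z => (starRingEnd ℂ)
      ((starRingEnd ℂ) (ec q z) * (k z : ℂ)))
    rw [← h2]
    refine Finset.sum_congr rfl fun z _ => ?_
    simp only [Equiv.neg_apply]
    rw [ec_neg, hk, Complex.conj_conj, map_mul, Complex.conj_ofReal]
  have h3 := Complex.conj_eq_iff_re.mp h1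
  rw [← h3]
  congr 1
  unfold ft kh
  rw [Complex.re_sum]
  refine Finset.sum_congr rfl fun z _ => ?_
  rw [Complex.re_mul_ofReal, Complex.conj_re, mul_comm]

theorem ft_TT (k : Tor d M → ℝ) (hk : ∀ x, k (-x) = k x) (v : ℝ) (g : Tor d M → ℝ)
    (q : Tor d M) : ft (fun x => (TT k v g x : ℂ)) q =
      ((v * kh k q : ℝ) : ℂ) * ft (fun x => (g x : ℂ)) q := by
  have h1 : (fun x => (TT k v g x : ℂ)) = fun x => (v : ℂ) * ∑ y, (g y : ℂ) * (k (x - y) : ℂ) := by
    funext x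
    unfold TT
    push_cast
    congr 1
    exact Finset.sum_congr rfl fun y _ => mul_comm _ _
  rw [h1, ft_smul, ft_sum Finset.univ (fun (y : Tor d M) x => (g y : ℂ) * (k (x - y) : ℂ))]
  have h2 : ∀ y : Tor d M, ft (fun x => (g y : ℂ) * (k (x - y) : ℂ)) q =
      (kh k q : ℂ) * ((starRingEnd ℂ) (ec q y) * (g y : ℂ)) := by
    intro y
    rw [ft_smul, ft_shift' (fun x => (k x : ℂ)) y q, ft_k k hk]
    ring
  rw [Finset.sum_congr rfl fun y _ => h2 y, ← Finset.mul_sum]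
  unfold ft
  push_cast
  ring

theorem ft_iter (k : Tor d M → ℝ) (hk : ∀ x, k (-x) = k x) (v : ℝ) (g : Tor d M → ℝ) (m : ℕ)
    (q : Tor d M) : ft (fun x => ((TT k v)^[m] g x : ℂ)) q =
      (((v * kh k q) ^ m : ℝ) : ℂ) * ft (fun x => (g x : ℂ)) q := by
  induction m with
  | zero => simp
  | succ m ih =>
    have h1 : (fun x => ((TT k v)^[m + 1] g x : ℂ)) =
        fun x => (TT k v ((TT k v)^[m] g) x : ℂ) := by
      funext x
      rw [Function.iterate_succ_apply']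
    rw [h1, ft_TT k hk, ih, pow_succ]
    push_cast
    ring

theorem parseval_iter (k : Tor d M → ℝ) (hk : ∀ x, k (-x) = k x) (v : ℝ) (g : Tor d M → ℝ)
    (m : ℕ) : ∑ x, g x * (TT k v)^[m] g x =
      pm fun q => (v * kh k q) ^ m * ‖ft (fun x => (g x : ℂ)) q‖ ^ 2 := by
  have h1 := parseval2 (fun x => ((TT k v)^[m] g x : ℂ)) (fun x => (g x : ℂ))
  have h2 : ∑ x, (starRingEnd ℂ) (g x : ℂ) * ((TT k v)^[m] g x : ℂ) =
      ((∑ x, g x * (TT k v)^[m] g x : ℝ) : ℂ) := by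
    push_cast
    exact Finset.sum_congr rfl fun x _ => by rw [Complex.conj_ofReal]
  have h3 : (∑ p, (starRingEnd ℂ) (ft (fun x => (g x : ℂ)) p) *
      ft (fun x => ((TT k v)^[m] g x : ℂ)) p) / (M : ℂ) ^ d =
      ((pm fun q => (v * kh k q) ^ m * ‖ft (fun x => (g x : ℂ)) q‖ ^ 2 : ℝ) : ℂ) := by
    unfold pm
    push_cast
    congr 1
    refine Finset.sum_congr rfl fun p _ => ?_
    rw [ft_iter k hk]
    have h4 : (starRingEnd ℂ) (ft (fun x => (g x : ℂ)) p) * ft (fun x => (g x : ℂ)) p =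
        ((‖ft (fun x => (g x : ℂ)) p‖ ^ 2 : ℝ) : ℂ) := by
      rw [mul_comm, Complex.mul_conj, Complex.normSq_eq_norm_sq]
    push_cast at h4 ⊢
    linear_combination ((v : ℂ) * (kh k p : ℂ)) ^ m * h4
  rw [h2, h3] at h1
  exact_mod_cast h1

theorem TT_mono (k : Tor d M → ℝ) (hk0 : ∀ x, 0 ≤ k x) {v : ℝ} (hv : 0 ≤ v)
    {g g' : Tor d M → ℝ} (h : ∀ x, g x ≤ g' x) (x : Tor d M) : TT k v g x ≤ TT k v g' x := by
  unfold TT
  apply mul_le_mul_of_nonneg_left _ hv
  exact Finset.sum_le_sum fun y _ => mul_le_mul_of_nonneg_left (h y) (hk0 _)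

theorem iter_mono (k : Tor d M → ℝ) (hk0 : ∀ x, 0 ≤ k x) {v : ℝ} (hv : 0 ≤ v)
    {g g' : Tor d M → ℝ} (h : ∀ x, g x ≤ g' x) (m : ℕ) (x : Tor d M) :
    (TT k v)^[m] g x ≤ (TT k v)^[m] g' x := by
  induction m generalizing x with
  | zero => exact h x
  | succ m ih =>
    rw [Function.iterate_succ_apply', Function.iterate_succ_apply']
    exact TT_mono k hk0 hv ih x

theorem sum_k_sub (k : Tor d M → ℝ) (x : Tor d M) : ∑ y, k (x - y) = ∑ y, k y :=
  Equiv.sum_comp (Equiv.subLeft x) k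

theorem TT_bd (k : Tor d M → ℝ) (hk0 : ∀ x, 0 ≤ k x) {v : ℝ} (hv : 0 ≤ v) {g : Tor d M → ℝ}
    {B : ℝ} (h : ∀ x, 0 ≤ g x ∧ g x ≤ B) (x : Tor d M) :
    0 ≤ TT k v g x ∧ TT k v g x ≤ (v * ∑ y, k y) * B := by
  unfold TT
  constructor
  · exact mul_nonneg hv (Finset.sum_nonneg fun y _ => mul_nonneg (hk0 _) (h y).1)
  · rw [mul_assoc, ← sum_k_sub k x, Finset.sum_mul]
    apply mul_le_mul_of_nonneg_left _ hv
    exact Finset.sum_le_sum fun y _ => mul_le_mul_of_nonneg_left (h y).2 (hk0 _)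

theorem iter_bd (k : Tor d M → ℝ) (hk0 : ∀ x, 0 ≤ k x) {v : ℝ} (hv : 0 ≤ v) {g : Tor d M → ℝ}
    (h : ∀ x, 0 ≤ g x ∧ g x ≤ 1) (m : ℕ) (x : Tor d M) :
    0 ≤ (TT k v)^[m] g x ∧ (TT k v)^[m] g x ≤ (v * ∑ y, k y) ^ m := by
  induction m generalizing x with
  | zero => simpa using h x
  | succ m ih =>
    rw [Function.iterate_succ_apply', pow_succ']
    exact TT_bd k hk0 hv ih x

end Pool.Agent.LE.QD.H81
end
end -- Pool.Agent.Helper81_LQD.RWSb

section -- Pool.Agent.Helper81_LQD.RWSc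

/-!
# RWS, part c: the test function
-/

set_option autoImplicit false
set_option linter.unusedSectionVars false

open scoped BigOperators

noncomputable section

namespace Pool.Agent.LE.QD.H81

open Pool.Agent.BED Pool.Agent.LE.IR Pool.Agent.LE.QD
open Pool.Agent.LE.IR.H54

variable {d M : ℕ} [NeZero M]

theorem mem_low {J : ℕ} {p : Tor d M} : p ∈ low d M J ↔ ∀ i, (p i).valMinAbs.natAbs ≤ J := by
  unfold low
  rw [Finset.mem_filter]
  exact ⟨fun h => h.2, fun h => ⟨Finset.mem_univ _, h⟩⟩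

/-- the number of low momenta -/
theorem low_card (J : ℕ) (hJ : J ≤ M / 2) : (J + 1) ^ d ≤ (low d M J).card := by
  classical
  set S : Finset (ZMod M) := (Finset.range (J + 1)).image (fun j : ℕ => (j : ZMod M)) with hS
  have hval : ∀ j : ℕ, j ≤ J → ((j : ZMod M)).valMinAbs = j := fun j hj =>
    ZMod.valMinAbs_natCast_of_le_half (hj.trans hJ)
  have h1 : S.card = J + 1 := by
    rw [hS, Finset.card_image_of_injOn, Finset.card_range]
    intro a ha b hb hab
    have ha' : a ≤ J := by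
      have := Finset.mem_coe.mp ha
      rw [Finset.mem_range] at this
      omega
    have hb' : b ≤ J := by
      have := Finset.mem_coe.mp hb
      rw [Finset.mem_range] at this
      omega
    have h2 := hval a ha'
    have h3 := hval b hb'
    simp only at hab
    rw [hab, h3] at h2
    exact_mod_cast h2.symm
  have h2 : Fintype.piFinset (fun _ : Fin d => S) ⊆ low d M J := by
    intro p hp
    rw [Fintype.mem_piFinset] at hp
    rw [mem_low]
    intro i
    have h3 := hp i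
    rw [hS, Finset.mem_image] at h3
    obtain ⟨j, hj, hj'⟩ := h3
    rw [Finset.mem_range] at hj
    rw [← hj', hval j (by omega)]
    simp only [Int.natAbs_natCast]
    omega
  have h3 := Finset.card_le_card h2
  rw [Fintype.card_piFinset_const, h1] at h3
  exact h3

/-- the real part of the characters with low momentum on the cube -/
theorem ec_re_low (L J : ℕ) (hJL : 16 * d * L * J ≤ M) (p x : Tor d M) (hp : p ∈ low d M J)
    (hx : ∀ i, (x i).val < L) : 3 / 4 ≤ (ec p x).re := by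
  rw [mem_low] at hp
  have hM : (0 : ℝ) < M := by exact_mod_cast Nat.pos_of_ne_zero (NeZero.ne M)
  set t : ℝ := ∑ i, 2 * Real.pi * (((p i).valMinAbs : ℝ) * ((x i).val : ℝ)) / M with ht
  have h1 : ec p x = Complex.exp ((t : ℂ) * Complex.I) := by
    unfold ec
    rw [ht]
    push_cast
    rw [Finset.sum_mul, Complex.exp_sum]
    refine Finset.prod_congr rfl fun i _ => ?_
    have h2 : p i * x i = (((p i).valMinAbs * ((x i).val : ℤ) : ℤ) : ZMod M) := by
      push_cast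
      rw [ZMod.natCast_zmod_val]
    rw [h2, ZMod.stdAddChar_coe]
    congr 1
    push_cast
    ring
  rw [h1, Complex.exp_ofReal_mul_I_re]
  have h3 : |t| ≤ Real.pi / 8 := by
    rw [ht]
    refine (Finset.abs_sum_le_sum_abs _ _).trans ?_
    have h4 : ∀ i : Fin d, |2 * Real.pi * (((p i).valMinAbs : ℝ) * ((x i).val : ℝ)) / M| ≤
        2 * Real.pi * ((J : ℝ) * L) / M := by
      intro i
      have h2pi : |2 * Real.pi| = 2 * Real.pi := abs_of_pos (by positivity)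
      rw [abs_div, abs_mul (2 * Real.pi), h2pi, abs_mul, abs_of_pos hM, Nat.abs_cast]
      have h5 : |((p i).valMinAbs : ℝ)| ≤ J := by
        have h6 := hp i
        have h7 : |((p i).valMinAbs : ℤ)| ≤ (J : ℤ) := by
          rw [Int.abs_eq_natAbs]
          exact_mod_cast h6
        exact_mod_cast h7
      have h8 : ((x i).val : ℝ) ≤ L := by exact_mod_cast (hx i).le
      gcongr
    refine (Finset.sum_le_sum fun i _ => h4 i).trans ?_
    rw [Finset.sum_const, Finset.card_univ, Fintype.card_fin, nsmul_eq_mul]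
    have h9 : (16 : ℝ) * d * L * J ≤ M := by exact_mod_cast hJL
    rw [← mul_div_assoc, div_le_iff₀ hM]
    have h10 : (d : ℝ) * (2 * Real.pi * ((J : ℝ) * L)) = Real.pi / 8 * (16 * d * L * J) := by ring
    rw [h10]
    exact mul_le_mul_of_nonneg_left h9 (by positivity)
  have h11 := Real.one_sub_sq_div_two_le_cos (x := t)
  have h12 : t ^ 2 ≤ 1 / 2 := by
    have h13 : |t| ^ 2 ≤ (Real.pi / 8) ^ 2 := pow_le_pow_left₀ (abs_nonneg _) h3 2
    rw [sq_abs] at h13
    have h14 : Real.pi < 3.15 := Real.pi_lt_d2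
    have h15 : 0 < Real.pi := Real.pi_pos
    nlinarith only [h13, h14, h15]
  linarith only [h11, h12]

/-- the sum of the characters with low momenta -/
def dd (J : ℕ) (x : Tor d M) : ℂ := ∑ p ∈ low d M J, ec p x

/-- the test function -/
def hf (J : ℕ) (x : Tor d M) : ℝ := 2 * ‖dd J x‖ ^ 2 / ((low d M J).card : ℝ) ^ 2

theorem low_nonempty (J : ℕ) : 0 < (low d M J).card := by
  apply Finset.card_pos.mpr
  refine ⟨0, ?_⟩
  rw [mem_low]
  intro i
  simp

theorem hf_nonneg (J : ℕ) (x : Tor d M) : 0 ≤ hf J x := by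
  unfold hf
  positivity

theorem hf_ge (L J : ℕ) (hJL : 16 * d * L * J ≤ M) (x : Tor d M) (hx : ∀ i, (x i).val < L) :
    1 ≤ hf J x := by
  have hc : (0 : ℝ) < (low d M J).card := by exact_mod_cast low_nonempty J
  have h1 : 3 / 4 * ((low d M J).card : ℝ) ≤ (dd J x).re := by
    unfold dd
    rw [Complex.re_sum]
    have h2 := Finset.card_nsmul_le_sum (low d M J) (fun p => (ec p x).re) (3 / 4)
      (fun p hp => ec_re_low L J hJL p x hp hx)
    rw [nsmul_eq_mul] at h2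
    linarith
  have h2 : (dd J x).re ≤ ‖dd J x‖ := Complex.re_le_norm _
  unfold hf
  rw [le_div_iff₀ (by positivity), one_mul]
  have h3 : 3 / 4 * ((low d M J).card : ℝ) ≤ ‖dd J x‖ := h1.trans h2
  have h4 : (3 / 4 * ((low d M J).card : ℝ)) ^ 2 ≤ ‖dd J x‖ ^ 2 :=
    pow_le_pow_left₀ (by positivity) h3 2
  nlinarith only [sq_nonneg ((low d M J).card : ℝ), h4]

theorem ft_ec (r q : Tor d M) : ft (fun x => ec r x) q = if r = q then (M : ℂ) ^ d else 0 := by
  unfold ft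
  have h1 : ∀ y : Tor d M, (starRingEnd ℂ) (ec q y) * ec r y = ec (r - q) y := by
    intro y
    rw [sub_eq_add_neg, ec_add_left, ec_neg_left, mul_comm]
  rw [Finset.sum_congr rfl fun y _ => h1 y, sum_ec]
  simp only [sub_eq_zero]

theorem hf_eq (J : ℕ) (x : Tor d M) : (hf J x : ℂ) =
    (2 / ((low d M J).card : ℂ) ^ 2) * ∑ p ∈ low d M J, ∑ p' ∈ low d M J, ec (p - p') x := by
  unfold hf
  have h1 : ((‖dd J x‖ ^ 2 : ℝ) : ℂ) = dd J x * (starRingEnd ℂ) (dd J x) := by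
    rw [Complex.mul_conj, Complex.normSq_eq_norm_sq]
  have h2 : dd J x * (starRingEnd ℂ) (dd J x) =
      ∑ p ∈ low d M J, ∑ p' ∈ low d M J, ec (p - p') x := by
    unfold dd
    rw [map_sum, Finset.sum_mul_sum]
    refine Finset.sum_congr rfl fun p _ => Finset.sum_congr rfl fun p' _ => ?_
    rw [sub_eq_add_neg, ec_add_left, ec_neg_left]
  push_cast
  push_cast at h1
  rw [h1, h2]
  ring

theorem ft_hf (J : ℕ) (q : Tor d M) : ft (fun x => (hf J x : ℂ)) q =
    (2 / ((low d M J).card : ℂ) ^ 2) * ∑ p ∈ low d M J, ∑ p' ∈ low d M J,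
      if p - p' = q then (M : ℂ) ^ d else 0 := by
  have h1 : (fun x : Tor d M => (hf J x : ℂ)) = fun x => (2 / ((low d M J).card : ℂ) ^ 2) *
      ∑ p ∈ low d M J, ∑ p' ∈ low d M J, ec (p - p') x := by
    funext x
    exact hf_eq J x
  rw [h1, ft_smul, ft_sum]
  congr 1
  refine Finset.sum_congr rfl fun p _ => ?_
  rw [ft_sum]
  exact Finset.sum_congr rfl fun p' _ => ft_ec _ _

/-- the bound of the Fourier transform -/
theorem ft_hf_le (J : ℕ) (q : Tor d M) :
    ‖ft (fun x => (hf J x : ℂ)) q‖ ≤ 2 * (M : ℝ) ^ d / (low d M J).card := by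
  have hc : (0 : ℝ) < (low d M J).card := by exact_mod_cast low_nonempty J
  rw [ft_hf, norm_mul]
  have h1 : ‖(2 / ((low d M J).card : ℂ) ^ 2)‖ = 2 / ((low d M J).card : ℝ) ^ 2 := by
    rw [norm_div, norm_pow, Complex.norm_natCast]
    norm_num
  rw [h1]
  have h2 : ‖∑ p ∈ low d M J, ∑ p' ∈ low d M J,
      (if p - p' = q then (M : ℂ) ^ d else 0)‖ ≤ ((low d M J).card : ℝ) * (M : ℝ) ^ d := by
    refine (norm_sum_le _ _).trans ?_
    have h3 : ∀ p ∈ low d M J, ‖∑ p' ∈ low d M J, (if p - p' = q then (M : ℂ) ^ d else 0)‖ ≤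
        (M : ℝ) ^ d := by
      intro p _
      have h4 : ∑ p' ∈ low d M J, (if p - p' = q then (M : ℂ) ^ d else 0) =
          if p - q ∈ low d M J then (M : ℂ) ^ d else 0 := by
        have h5 : ∀ p' : Tor d M, (if p - p' = q then (M : ℂ) ^ d else 0) =
            if p - q = p' then (M : ℂ) ^ d else 0 := by
          intro p'
          have h6 : p - p' = q ↔ p - q = p' := by
            constructor <;> intro h
            · rw [← h]; abel
            · rw [← h]; abel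
          simp only [h6]
        rw [Finset.sum_congr rfl fun p' _ => h5 p', Finset.sum_ite_eq]
      rw [h4]
      split_ifs
      · rw [norm_pow, Complex.norm_natCast]
      · rw [norm_zero]
        positivity
    have h5 := Finset.sum_le_card_nsmul _ _ _ h3
    rw [nsmul_eq_mul] at h5
    exact h5
  calc 2 / ((low d M J).card : ℝ) ^ 2 * ‖∑ p ∈ low d M J, ∑ p' ∈ low d M J,
      (if p - p' = q then (M : ℂ) ^ d else 0)‖
      ≤ 2 / ((low d M J).card : ℝ) ^ 2 * (((low d M J).card : ℝ) * (M : ℝ) ^ d) :=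
        mul_le_mul_of_nonneg_left h2 (by positivity)
    _ = 2 * (M : ℝ) ^ d / (low d M J).card := by
        field_simp

/-- the support of the Fourier transform -/
theorem ft_hf_zero (J : ℕ) (q : Tor d M) (hq : q ∉ low d M (2 * J)) :
    ft (fun x => (hf J x : ℂ)) q = 0 := by
  rw [ft_hf]
  apply mul_eq_zero_of_right
  refine Finset.sum_eq_zero fun p hp => Finset.sum_eq_zero fun p' hp' => ?_
  rw [if_neg]
  intro h
  apply hq
  rw [mem_low] at hp hp' ⊢
  intro i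
  rw [← h]
  have h1 : (p - p') i = p i - p' i := rfl
  rw [h1]
  have h2 : (((p i).valMinAbs - (p' i).valMinAbs : ℤ) : ZMod M) = p i - p' i := by
    simp
  have h3 : (p i - p' i).valMinAbs.natAbs ≤ ((p i).valMinAbs - (p' i).valMinAbs).natAbs := by
    rw [← h2]
    exact ZMod.natAbs_min_of_le_div_two M _ _ (by rw [ZMod.coe_valMinAbs])
      (ZMod.natAbs_valMinAbs_le _)
  have h4 := hp i
  have h5 := hp' i
  omega

end Pool.Agent.LE.QD.H81
end
end -- Pool.Agent.Helper81_LQD.RWSc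

section -- Pool.Agent.Helper81_LQD.RWSd

/-!
# RWS, part d: the bound of `⟨φ, T^m φ⟩`
-/

set_option autoImplicit false
set_option linter.unusedSectionVars false

open scoped BigOperators

noncomputable section

namespace Pool.Agent.LE.QD.H81

open Pool.Agent.BED Pool.Agent.LE.IR Pool.Agent.LE.QD
open Pool.Agent.LE.IR.H54

variable {d M : ℕ} [NeZero M]

/-- the Gaussian mean over the torus -/
theorem pm_gauss (c w : ℝ) (hc : 0 < c) (hw : 0 < w) (m : ℕ) (hm : 1 ≤ m) :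
    pm (fun q : Tor d M => Real.exp (-(m * (c * (2 * Real.pi / M) ^ 2 *
      (∑ i, ((q i).valMinAbs : ℝ) ^ 2) / w ^ 2)))) ≤
      2 ^ d * ((2 / M) ^ d + (w * (1 / Real.sqrt c) * (1 / Real.sqrt m)) ^ d) := by
  classical
  have hM : (0 : ℝ) < M := by exact_mod_cast Nat.pos_of_ne_zero (NeZero.ne M)
  have hm0 : (0 : ℝ) < m := by exact_mod_cast hm
  set a : ℝ := m * (c * (2 * Real.pi / M) ^ 2 / w ^ 2) with ha
  have ha0 : 0 < a := by
    have := Real.pi_pos
    positivity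
  have h1 : ∀ q : Tor d M, Real.exp (-(m * (c * (2 * Real.pi / M) ^ 2 *
      (∑ i, ((q i).valMinAbs : ℝ) ^ 2) / w ^ 2))) =
      ∏ i, Real.exp (-(a * (((q i).valMinAbs.natAbs : ℕ) : ℝ) ^ 2)) := by
    intro q
    rw [← Real.exp_sum]
    congr 1
    rw [Finset.sum_neg_distrib, ← Finset.mul_sum]
    have h2 : ∀ i : Fin d, (((q i).valMinAbs.natAbs : ℕ) : ℝ) ^ 2 = ((q i).valMinAbs : ℝ) ^ 2 := by
      intro i
      have h3 : (((q i).valMinAbs.natAbs : ℕ) : ℝ) = |((q i).valMinAbs : ℝ)| := by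
        rw [← Int.cast_abs, Int.abs_eq_natAbs]
        simp
      rw [h3, sq_abs]
    rw [Finset.sum_congr rfl fun i _ => h2 i, ha]
    ring
  have h2 : pm (fun q : Tor d M => Real.exp (-(m * (c * (2 * Real.pi / M) ^ 2 *
      (∑ i, ((q i).valMinAbs : ℝ) ^ 2) / w ^ 2)))) =
      ((∑ j : ZMod M, Real.exp (-(a * ((j.valMinAbs.natAbs : ℕ) : ℝ) ^ 2))) / M) ^ d := by
    unfold pm
    rw [Finset.sum_congr rfl fun q _ => h1 q, div_pow]
    congr 1
    have h3 := (Finset.prod_univ_sum (fun _ : Fin d => (Finset.univ : Finset (ZMod M)))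
      (fun _ j => Real.exp (-(a * ((j.valMinAbs.natAbs : ℕ) : ℝ) ^ 2)))).symm
    rw [Finset.prod_const, Finset.card_univ, Fintype.card_fin, Fintype.piFinset_univ] at h3
    exact h3
  rw [h2]
  have h3 := sum_zmod M (fun j => Real.exp (-(a * (j : ℝ) ^ 2))) (fun j => (Real.exp_pos _).le)
  have h4 := gauss_range a ha0 M
  have h5 : Real.sqrt (Real.pi / a) ≤ w * M * (1 / Real.sqrt c) * (1 / Real.sqrt m) := by
    rw [Real.sqrt_le_iff]
    constructor
    · positivity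
    · have hcs : Real.sqrt c ^ 2 = c := Real.sq_sqrt hc.le
      have hms : Real.sqrt m ^ 2 = m := Real.sq_sqrt hm0.le
      have h6 : (w * M * (1 / Real.sqrt c) * (1 / Real.sqrt m)) ^ 2 = w ^ 2 * M ^ 2 / (c * m) := by
        rw [mul_pow, mul_pow, mul_pow, div_pow, div_pow, hcs, hms]
        field_simp
      rw [h6, ha]
      have h7 : Real.pi / (m * (c * (2 * Real.pi / M) ^ 2 / w ^ 2)) =
          w ^ 2 * M ^ 2 / (c * m) * (1 / (4 * Real.pi)) := by
        have := Real.pi_pos.ne'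
        field_simp
        ring
      rw [h7]
      apply mul_le_of_le_one_right (by positivity)
      rw [div_le_one (by have := Real.pi_pos; positivity)]
      have := Real.pi_gt_three
      linarith only [this]
  have h6 : (∑ j : ZMod M, Real.exp (-(a * ((j.valMinAbs.natAbs : ℕ) : ℝ) ^ 2))) / M ≤
      2 / M + w * (1 / Real.sqrt c) * (1 / Real.sqrt m) := by
    rw [div_le_iff₀ hM]
    have h7 : (2 / M + w * (1 / Real.sqrt c) * (1 / Real.sqrt m)) * M =
        2 + w * M * (1 / Real.sqrt c) * (1 / Real.sqrt m) := by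
      field_simp
    rw [h7]
    linarith
  have h7 : 0 ≤ (∑ j : ZMod M, Real.exp (-(a * ((j.valMinAbs.natAbs : ℕ) : ℝ) ^ 2))) / M :=
    div_nonneg (Finset.sum_nonneg fun j _ => (Real.exp_pos _).le) hM.le
  refine (pow_le_pow_left₀ h7 h6 d).trans ?_
  refine (add_pow_le (by positivity) (by positivity) d).trans ?_
  apply mul_le_mul_of_nonneg_right _ (by positivity)
  exact pow_le_pow_right₀ (by norm_num) (Nat.sub_le _ _)

/-- the constant -/
def C1 (d : ℕ) (c : ℝ) : ℝ := 4 * (16 * d) ^ (2 * d) * 2 ^ d * (2 ^ d + (1 / Real.sqrt c) ^ d)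

theorem C1_pos (d : ℕ) (hd : 1 ≤ d) (c : ℝ) : 0 < C1 d c := by
  unfold C1
  have : (0 : ℝ) < d := by exact_mod_cast hd
  positivity

theorem S_bd (hd : 1 ≤ d) (k : Tor d M → ℝ) {v w c : ℝ} {L : ℕ} (𝒜 C' : Finset (Tor d M))
    (φ : Tor d M → ℝ) (hφ : ∀ x, φ x = if x ∈ C' then 1 else 0)
    (hk0 : ∀ x, 0 ≤ k x) (hks : ∀ x, k (-x) = k x) (hv : 0 < v) (hK : 0 < ∑ x, k x)
    (hw : 0 < w) (hc : 0 < c) (hgap : Gap k c w) (hwL : 1 / c ≤ w * L) (hL : 1 ≤ L)
    (hcov : ∀ x ∈ C', ∃ a ∈ 𝒜, x ∈ cbt a L) (m : ℕ) (hm : 1 ≤ m) :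
    ∑ x, φ x * (TT k v)^[m] φ x ≤ C1 d c * ((𝒜.card : ℝ) ^ 2 * ((L : ℝ) ^ d) ^ 2) *
      ((v * ∑ x, k x) ^ m * ((1 / (M : ℝ)) ^ d + w ^ d * (1 / Real.sqrt m) ^ d)) := by
  classical
  have hM : (0 : ℝ) < M := by exact_mod_cast Nat.pos_of_ne_zero (NeZero.ne M)
  have hMn : 0 < M := Nat.pos_of_ne_zero (NeZero.ne M)
  set J : ℕ := M / (16 * d * L) with hJ
  have hDpos : 0 < 16 * d * L := by positivity
  have hJ1 : 16 * d * L * J ≤ M := Nat.mul_div_le M _
  have hJ2 : M < 16 * d * L * (J + 1) := Nat.lt_mul_div_succ M hDpos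
  have hJ3 : J ≤ M / 2 := by
    apply Nat.div_le_div_left _ (by norm_num)
    have : 1 ≤ d * L := Nat.one_le_iff_ne_zero.mpr (by positivity)
    nlinarith only [this]
  -- the test function
  set H : Tor d M → ℝ := fun x => ∑ a ∈ 𝒜, hf J (x - a) with hH
  have hH0 : ∀ x, 0 ≤ H x := fun x => Finset.sum_nonneg fun a _ => hf_nonneg J _
  have hφ0 : ∀ x, 0 ≤ φ x ∧ φ x ≤ 1 := by
    intro x
    rw [hφ]
    split_ifs <;> norm_num
  have hφH : ∀ x, φ x ≤ H x := by
    intro x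
    rw [hφ]
    split_ifs with hx
    · obtain ⟨a, ha, hxa⟩ := hcov x hx
      have h1 : ∀ i, ((x - a) i).val < L := by
        unfold cbt at hxa
        rw [Finset.mem_filter] at hxa
        exact hxa.2
      have h2 := hf_ge L J hJ1 (x - a) h1
      have h3 := Finset.single_le_sum (f := fun a => hf J (x - a)) (fun a _ => hf_nonneg J _) ha
      exact h2.trans h3
    · exact hH0 x
  have h1 : ∑ x, φ x * (TT k v)^[m] φ x ≤ ∑ x, H x * (TT k v)^[m] H x := by
    refine Finset.sum_le_sum fun x _ => ?_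
    exact mul_le_mul (hφH x) (iter_mono k hk0 hv.le hφH m x)
      (iter_bd k hk0 hv.le hφ0 m x).1 (hH0 x)
  refine h1.trans ?_
  rw [parseval_iter k hks]
  -- the Fourier transform of the test function
  have hlow : (0 : ℝ) < (low d M J).card := by exact_mod_cast low_nonempty J
  have hftH : ∀ q, ft (fun x => (H x : ℂ)) q =
      (∑ a ∈ 𝒜, (starRingEnd ℂ) (ec q a)) * ft (fun x => (hf J x : ℂ)) q := by
    intro q
    have h2 : (fun x => (H x : ℂ)) = fun x => ∑ a ∈ 𝒜, (hf J (x - a) : ℂ) := by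
      funext x
      rw [hH]
      push_cast
      rfl
    rw [h2, ft_sum, Finset.sum_mul]
    exact Finset.sum_congr rfl fun a _ => ft_shift' (fun x => (hf J x : ℂ)) a q
  have hcard : (M : ℝ) ^ d ≤ (16 * d * L) ^ d * (low d M J).card := by
    have h2 : (M : ℝ) ≤ 16 * d * L * (J + 1) := by exact_mod_cast hJ2.le
    have h3 : ((J + 1 : ℕ) : ℝ) ^ d ≤ (low d M J).card := by
      exact_mod_cast low_card J hJ3
    calc (M : ℝ) ^ d ≤ (16 * d * L * (J + 1)) ^ d := pow_le_pow_left₀ hM.le h2 d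
      _ = (16 * d * L) ^ d * ((J + 1 : ℕ) : ℝ) ^ d := by
          rw [mul_pow]
          push_cast
          ring
      _ ≤ _ := mul_le_mul_of_nonneg_left h3 (by positivity)
  have hftle : ∀ q, ‖ft (fun x => (H x : ℂ)) q‖ ≤ 𝒜.card * (2 * (16 * d * L) ^ d) := by
    intro q
    rw [hftH, norm_mul]
    have h2 : ‖∑ a ∈ 𝒜, (starRingEnd ℂ) (ec q a)‖ ≤ 𝒜.card := by
      refine (norm_sum_le _ _).trans ?_
      have h3 : ∀ a ∈ 𝒜, ‖(starRingEnd ℂ) (ec q a)‖ = 1 := by
        intro a _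
        rw [RCLike.norm_conj, ec_norm]
      rw [Finset.sum_congr rfl h3]
      simp
    have h3 : ‖ft (fun x => (hf J x : ℂ)) q‖ ≤ 2 * (16 * d * L) ^ d := by
      refine (ft_hf_le J q).trans ?_
      rw [div_le_iff₀ hlow]
      linarith
    exact mul_le_mul h2 h3 (norm_nonneg _) (by positivity)
  set θ : ℝ := v * ∑ x, k x with hθ
  have hθ0 : 0 < θ := mul_pos hv hK
  set B : ℝ := (𝒜.card * (2 * (16 * d * L) ^ d)) ^ 2 with hB
  have hB0 : 0 ≤ B := by positivity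
  have hterm : ∀ q : Tor d M, (v * kh k q) ^ m * ‖ft (fun x => (H x : ℂ)) q‖ ^ 2 ≤
      θ ^ m * B * Real.exp (-(m * (c * (2 * Real.pi / M) ^ 2 *
        (∑ i, ((q i).valMinAbs : ℝ) ^ 2) / w ^ 2))) := by
    intro q
    by_cases hq : q ∈ low d M (2 * J)
    · have hq' := hq
      rw [mem_low] at hq'
      have h2 := hgap q (by
        intro i
        have h3 : |((q i).valMinAbs : ℝ)| ≤ 2 * J := by
          have h7 : |((q i).valMinAbs : ℤ)| ≤ ((2 * J : ℕ) : ℤ) := by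
            rw [Int.abs_eq_natAbs]
            exact_mod_cast hq' i
          have h8 : |((q i).valMinAbs : ℝ)| ≤ ((2 * J : ℕ) : ℝ) := by exact_mod_cast h7
          push_cast at h8
          exact h8
        have h4 : (16 : ℝ) * d * L * J ≤ M := by exact_mod_cast hJ1
        have h5 : 1 ≤ c * (w * L) := by
          rw [div_le_iff₀ hc] at hwL
          linarith only [hwL]
        have h6 : (1 : ℝ) ≤ d := by exact_mod_cast hd
        have hJ0 : (0 : ℝ) ≤ J := Nat.cast_nonneg _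
        have hpi : Real.pi < 3.15 := Real.pi_lt_d2
        calc 2 * Real.pi * |((q i).valMinAbs : ℝ)| ≤ 2 * Real.pi * (2 * J) := by
              apply mul_le_mul_of_nonneg_left h3
              have := Real.pi_pos
              positivity
          _ ≤ 16 * J := by nlinarith only [hpi]
          _ ≤ 16 * J * d := by nlinarith only [h6]
          _ ≤ 16 * J * d * (c * (w * L)) := by
              apply le_mul_of_one_le_right _ h5
              positivity
          _ = c * w * (16 * d * L * J) := by ring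
          _ ≤ c * w * M := mul_le_mul_of_nonneg_left h4 (by positivity))
      set X : ℝ := c * (2 * Real.pi / M) ^ 2 * (∑ i, ((q i).valMinAbs : ℝ) ^ 2) / w ^ 2 with hX
      have h3 : |kh k q| ≤ (1 - X) * ∑ x, k x := h2
      have h4 : 0 ≤ 1 - X := by
        have h5 : 0 ≤ (1 - X) * ∑ x, k x := (abs_nonneg _).trans h3
        exact nonneg_of_mul_nonneg_left h5 hK
      have h5 : |v * kh k q| ≤ θ * (1 - X) := by
        rw [abs_mul, abs_of_pos hv, hθ]
        have := mul_le_mul_of_nonneg_left h3 hv.le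
        linarith
      have h6 : (v * kh k q) ^ m ≤ θ ^ m * Real.exp (-(m * X)) := by
        calc (v * kh k q) ^ m ≤ |(v * kh k q) ^ m| := le_abs_self _
          _ = |v * kh k q| ^ m := abs_pow _ _
          _ ≤ (θ * (1 - X)) ^ m := pow_le_pow_left₀ (abs_nonneg _) h5 m
          _ = θ ^ m * (1 - X) ^ m := mul_pow _ _ _
          _ ≤ θ ^ m * Real.exp (-X) ^ m := by
              apply mul_le_mul_of_nonneg_left _ (by positivity)
              apply pow_le_pow_left₀ h4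
              have := Real.add_one_le_exp (-X)
              linarith only [this]
          _ = θ ^ m * Real.exp (-(m * X)) := by
              rw [← Real.exp_nat_mul]
              congr 2
              ring
      have h7 : ‖ft (fun x => (H x : ℂ)) q‖ ^ 2 ≤ B := pow_le_pow_left₀ (norm_nonneg _) (hftle q) 2
      calc (v * kh k q) ^ m * ‖ft (fun x => (H x : ℂ)) q‖ ^ 2
          ≤ (θ ^ m * Real.exp (-(m * X))) * ‖ft (fun x => (H x : ℂ)) q‖ ^ 2 :=
            mul_le_mul_of_nonneg_right h6 (by positivity)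
        _ ≤ (θ ^ m * Real.exp (-(m * X))) * B :=
            mul_le_mul_of_nonneg_left h7 (by positivity)
        _ = _ := by ring
    · rw [hftH, ft_hf_zero J q hq, mul_zero, norm_zero]
      have : 0 ≤ θ ^ m * B * Real.exp (-(m * (c * (2 * Real.pi / M) ^ 2 *
        (∑ i, ((q i).valMinAbs : ℝ) ^ 2) / w ^ 2))) := by positivity
      simpa using this
  have hpm : pm (fun q => (v * kh k q) ^ m * ‖ft (fun x => (H x : ℂ)) q‖ ^ 2) ≤
      θ ^ m * B * pm (fun q : Tor d M => Real.exp (-(m * (c * (2 * Real.pi / M) ^ 2 *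
        (∑ i, ((q i).valMinAbs : ℝ) ^ 2) / w ^ 2)))) := by
    unfold pm
    rw [← mul_div_assoc, Finset.mul_sum]
    apply div_le_div_of_nonneg_right _ (by positivity)
    exact Finset.sum_le_sum fun q _ => hterm q
  refine hpm.trans ?_
  have hg := pm_gauss (d := d) (M := M) c w hc hw m hm
  refine (mul_le_mul_of_nonneg_left hg (by positivity)).trans ?_
  have e1 : (w * (1 / Real.sqrt c) * (1 / Real.sqrt m)) ^ d =
      (1 / Real.sqrt c) ^ d * (w ^ d * (1 / Real.sqrt m) ^ d) := by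
    rw [mul_pow, mul_pow]
    ring
  have e2 : (2 / (M : ℝ)) ^ d = 2 ^ d * (1 / (M : ℝ)) ^ d := by
    rw [← mul_pow]
    congr 1
    ring
  have e3 : B = 4 * (16 * d) ^ (2 * d) * ((𝒜.card : ℝ) ^ 2 * ((L : ℝ) ^ d) ^ 2) := by
    rw [hB]
    have h2 : ((16 : ℝ) * d * L) ^ d = (16 * d) ^ d * (L : ℝ) ^ d := mul_pow _ _ _
    rw [h2, mul_comm 2 d, pow_mul]
    ring
  have hx0 : 0 ≤ (1 / (M : ℝ)) ^ d := by positivity
  have hy0 : 0 ≤ w ^ d * (1 / Real.sqrt m) ^ d := by positivity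
  have hs0 : 0 ≤ (1 / Real.sqrt c) ^ d := by positivity
  have e4 : 2 ^ d * (1 / (M : ℝ)) ^ d + (1 / Real.sqrt c) ^ d * (w ^ d * (1 / Real.sqrt m) ^ d) ≤
      (2 ^ d + (1 / Real.sqrt c) ^ d) * ((1 / (M : ℝ)) ^ d + w ^ d * (1 / Real.sqrt m) ^ d) := by
    have h2 : 0 ≤ (2 : ℝ) ^ d * (w ^ d * (1 / Real.sqrt m) ^ d) := by positivity
    have h3 : 0 ≤ (1 / Real.sqrt c) ^ d * (1 / (M : ℝ)) ^ d := by positivity
    linarith only [h2, h3, add_mul ((2 : ℝ) ^ d) ((1 / Real.sqrt c) ^ d)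
      ((1 / (M : ℝ)) ^ d + w ^ d * (1 / Real.sqrt m) ^ d),
      mul_add ((2 : ℝ) ^ d) ((1 / (M : ℝ)) ^ d) (w ^ d * (1 / Real.sqrt m) ^ d),
      mul_add ((1 / Real.sqrt c) ^ d) ((1 / (M : ℝ)) ^ d) (w ^ d * (1 / Real.sqrt m) ^ d)]
  rw [e1, e2]
  calc θ ^ m * B * (2 ^ d * (2 ^ d * (1 / (M : ℝ)) ^ d +
        (1 / Real.sqrt c) ^ d * (w ^ d * (1 / Real.sqrt m) ^ d)))
      ≤ θ ^ m * B * (2 ^ d * ((2 ^ d + (1 / Real.sqrt c) ^ d) *
          ((1 / (M : ℝ)) ^ d + w ^ d * (1 / Real.sqrt m) ^ d))) := by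
        apply mul_le_mul_of_nonneg_left _ (by positivity)
        exact mul_le_mul_of_nonneg_left e4 (by positivity)
    _ = C1 d c * ((𝒜.card : ℝ) ^ 2 * ((L : ℝ) ^ d) ^ 2) *
      (θ ^ m * ((1 / (M : ℝ)) ^ d + w ^ d * (1 / Real.sqrt m) ^ d)) := by
        rw [e3]
        unfold C1
        ring

end Pool.Agent.LE.QD.H81
end
end -- Pool.Agent.Helper81_LQD.RWSd

section -- Pool.Agent.Helper81_LQD.RWS

/-!
# RWS: the random walk
-/

set_option autoImplicit false
set_option linter.unusedSectionVars false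

open scoped BigOperators

noncomputable section

namespace Pool.Agent.LE.QD.H81

open Pool.Agent.BED Pool.Agent.LE.IR Pool.Agent.LE.QD
open Pool.Agent.LE.IR.H54

/-- the partial sums -/
theorem partial_bd (n : ℕ) (hn : 1 ≤ n) (d : ℕ) (hd : 3 ≤ d) (S : ℕ → ℝ) (A B₁ B₂ θ : ℝ)
    (hA : 0 ≤ A) (hB₁ : 0 ≤ B₁) (hB₂ : 0 ≤ B₂) (hθ0 : 0 ≤ θ) (hθ1 : θ < 1)
    (h1 : ∀ m, S (m + 1) ≤ A)
    (h2 : ∀ m, S (m + 1) ≤ B₁ * θ ^ (m + 1) + B₂ * (1 / Real.sqrt ((m + 1 : ℕ) : ℝ)) ^ d)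
    (N : ℕ) :
    ∑ m ∈ Finset.range N, S (m + 1) ≤
      n * A + B₁ * (1 - θ)⁻¹ + 2 * B₂ * (n : ℝ) ^ (1 - (d : ℝ) / 2) := by
  have hn0 : (0 : ℝ) < n := by exact_mod_cast hn
  set r : ℝ := 1 / Real.sqrt n with hr
  have hr0 : 0 < r := by
    have := Real.sqrt_pos.mpr hn0
    positivity
  have h3 : ∀ m, S (m + 1) ≤ (if m < n then A else 0) + B₁ * θ ^ m +
      (if n ≤ m then B₂ * r ^ (d - 3) * (1 / Real.sqrt ((m + 1 : ℕ) : ℝ)) ^ 3 else 0) := by
    intro m
    have hB : 0 ≤ B₁ * θ ^ m := by positivity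
    by_cases hm : m < n
    · rw [if_pos hm, if_neg (by omega)]
      have := h1 m
      linarith only [hB, this]
    · rw [if_neg hm, if_pos (by omega)]
      have h4 := h2 m
      have h5 : θ ^ (m + 1) ≤ θ ^ m := pow_le_pow_of_le_one hθ0 hθ1.le (Nat.le_succ m)
      have h6 : B₁ * θ ^ (m + 1) ≤ B₁ * θ ^ m := mul_le_mul_of_nonneg_left h5 hB₁
      have h7 : (1 / Real.sqrt ((m + 1 : ℕ) : ℝ)) ^ d ≤
          r ^ (d - 3) * (1 / Real.sqrt ((m + 1 : ℕ) : ℝ)) ^ 3 := by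
        have h8 : (1 / Real.sqrt ((m + 1 : ℕ) : ℝ)) ^ d =
            (1 / Real.sqrt ((m + 1 : ℕ) : ℝ)) ^ (d - 3) *
              (1 / Real.sqrt ((m + 1 : ℕ) : ℝ)) ^ 3 := by
          rw [← pow_add]
          congr 1
          omega
        rw [h8]
        apply mul_le_mul_of_nonneg_right _ (by positivity)
        apply pow_le_pow_left₀ (by positivity)
        rw [hr]
        apply one_div_le_one_div_of_le (Real.sqrt_pos.mpr hn0)
        apply Real.sqrt_le_sqrt
        exact_mod_cast (by omega : n ≤ m + 1)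
      have h9 := mul_le_mul_of_nonneg_left h7 hB₂
      rw [← mul_assoc] at h9
      linarith only [h4, h6, h9]
  refine (Finset.sum_le_sum fun m _ => h3 m).trans ?_
  rw [Finset.sum_add_distrib, Finset.sum_add_distrib]
  have t1 : ∑ m ∈ Finset.range N, (if m < n then A else 0) ≤ n * A := by
    rw [← Finset.sum_filter, Finset.sum_const, nsmul_eq_mul]
    apply mul_le_mul_of_nonneg_right _ hA
    have h4 : ((Finset.range N).filter fun m => m < n) ⊆ Finset.range n := by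
      intro m hm
      rw [Finset.mem_filter] at hm
      exact Finset.mem_range.mpr hm.2
    have h5 := Finset.card_le_card h4
    rw [Finset.card_range] at h5
    exact_mod_cast h5
  have t2 : ∑ m ∈ Finset.range N, B₁ * θ ^ m ≤ B₁ * (1 - θ)⁻¹ := by
    rw [← Finset.mul_sum]
    apply mul_le_mul_of_nonneg_left _ hB₁
    have h4 := (summable_geometric_of_lt_one hθ0 hθ1).sum_le_tsum (Finset.range N)
      (fun m _ => by positivity)
    rwa [tsum_geometric_of_lt_one hθ0 hθ1] at h4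
  have t3 : ∑ m ∈ Finset.range N, (if n ≤ m then B₂ * r ^ (d - 3) *
      (1 / Real.sqrt ((m + 1 : ℕ) : ℝ)) ^ 3 else 0) ≤ 2 * B₂ * (n : ℝ) ^ (1 - (d : ℝ) / 2) := by
    rw [← Finset.sum_filter]
    have h4 : ((Finset.range N).filter fun m => n ≤ m) = Finset.Ico n N := by
      ext m
      rw [Finset.mem_filter, Finset.mem_range, Finset.mem_Ico]
      exact and_comm
    rw [h4, ← Finset.mul_sum]
    have h5 : ∑ m ∈ Finset.Ico n N, (1 / Real.sqrt ((m + 1 : ℕ) : ℝ)) ^ 3 =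
        ∑ m ∈ Finset.Ico (n + 1) (N + 1), (1 / Real.sqrt (m : ℝ)) ^ 3 :=
      Finset.sum_Ico_add' (fun m : ℕ => (1 / Real.sqrt (m : ℝ)) ^ 3) n N 1
    rw [h5]
    have h6 := tail_sum n hn (N + 1)
    have h7 : B₂ * r ^ (d - 3) * ∑ m ∈ Finset.Ico (n + 1) (N + 1), (1 / Real.sqrt (m : ℝ)) ^ 3 ≤
        B₂ * r ^ (d - 3) * (2 * r) := mul_le_mul_of_nonneg_left h6 (by positivity)
    refine h7.trans (le_of_eq ?_)
    have h8 : r ^ (d - 3) * r = (n : ℝ) ^ (1 - (d : ℝ) / 2) := by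
      rw [← pow_succ, hr, one_div, Real.sqrt_eq_rpow, ← Real.rpow_neg hn0.le,
        ← Real.rpow_natCast, ← Real.rpow_mul hn0.le]
      congr 1
      have h9 : ((d - 3 + 1 : ℕ) : ℝ) = (d : ℝ) - 2 := by
        have : ((d - 3 + 1 : ℕ) : ℝ) = ((d - 3 : ℕ) : ℝ) + 1 := by push_cast; ring
        rw [this, Nat.cast_sub hd]
        push_cast
        ring
      rw [h9]
      ring
    rw [← h8]
    ring
  linarith only [t1, t2, t3]

variable {d M : ℕ} [NeZero M]

/-- the Neumann series -/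
theorem neu (k : Tor d M → ℝ) (hk0 : ∀ x, 0 ≤ k x) (hks : ∀ x, k (-x) = k x) {v : ℝ}
    (hv : 0 < v) (hθ0 : 0 < v * ∑ x, k x) (hθ1 : v * ∑ x, k x < 1) (φ : Tor d M → ℝ)
    (hφ0 : ∀ x, 0 ≤ φ x ∧ φ x ≤ 1) :
    ∃ f : Tor d M → ℝ, (∀ x, 0 ≤ f x ∧ f x ≤ 1 / (1 - v * ∑ x, k x)) ∧
      (∀ x, f x - v * ∑ y, k (x - y) * f y = φ x) ∧
      HasSum (fun m : ℕ => ∑ x, φ x * (TT k v)^[m + 1] φ x)
        (v * ∑ x, f x * ∑ y, φ y * k (x - y)) := by
  have hub : ∀ (m : ℕ) (x : Tor d M), 0 ≤ (TT k v)^[m] φ x ∧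
      (TT k v)^[m] φ x ≤ (v * ∑ x, k x) ^ m := fun m x => iter_bd k hk0 hv.le hφ0 m x
  have hsum : ∀ x, Summable fun m : ℕ => (TT k v)^[m] φ x := fun x =>
    Summable.of_nonneg_of_le (fun m => (hub m x).1) (fun m => (hub m x).2)
      (summable_geometric_of_lt_one hθ0.le hθ1)
  obtain ⟨f, hf⟩ : ∃ f : Tor d M → ℝ, ∀ x, HasSum (fun m : ℕ => (TT k v)^[m] φ x) (f x) :=
    ⟨fun x => ∑' m : ℕ, (TT k v)^[m] φ x, fun x => (hsum x).hasSum⟩
  have hhasT : ∀ x, HasSum (fun m : ℕ => (TT k v)^[m + 1] φ x) (TT k v f x) := by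
    intro x
    have h1 : HasSum (fun m : ℕ => ∑ y, k (x - y) * (TT k v)^[m] φ y) (∑ y, k (x - y) * f y) :=
      hasSum_sum fun y _ => (hf y).mul_left _
    have h2 := h1.mul_left v
    have h3 : (fun m : ℕ => (TT k v)^[m + 1] φ x) =
        fun m : ℕ => v * ∑ y, k (x - y) * (TT k v)^[m] φ y := by
      funext m
      rw [Function.iterate_succ_apply']
      rfl
    rw [h3]
    exact h2
  have hfeq : ∀ x, f x = φ x + TT k v f x := by
    intro x
    have h1 := HasSum.zero_add (f := fun m : ℕ => (TT k v)^[m] φ x) (hhasT x)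
    exact (hf x).unique h1
  refine ⟨f, fun x => ⟨(hf x).nonneg fun m => (hub m x).1, ?_⟩, fun x => ?_, ?_⟩
  · have h1 := hasSum_geometric_of_lt_one hθ0.le hθ1
    rw [one_div]
    exact hasSum_le (fun m => (hub m x).2) (hf x) h1
  · have h1 := hfeq x
    show f x - TT k v f x = φ x
    linarith
  · have h1 : v * ∑ x, f x * ∑ y, φ y * k (x - y) = ∑ x, φ x * TT k v f x := by
      unfold TT
      simp only [Finset.mul_sum]
      rw [Finset.sum_comm]
      refine Finset.sum_congr rfl fun y _ => Finset.sum_congr rfl fun x _ => ?_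
      have h3 : k (x - y) = k (y - x) := by
        rw [← hks, neg_sub]
      rw [h3]
      ring
    rw [h1]
    exact hasSum_sum fun x _ => (hhasT x).mul_left _

/-- the final computation -/
theorem fin_calc (d n : ℕ) (a c' l m w θ C C₁ R : ℝ) (ha : 0 ≤ a) (hl : 0 ≤ l) (hm : 0 < m)
    (hw : 0 ≤ w) (hθ : 0 < 1 - θ) (hC : 2 * C₁ ≤ C) (hC0 : 0 < C₁) (hc' : c' = a * l ^ d)
    (hR : 0 ≤ R) :
    n * c' + C₁ * (a ^ 2 * (l ^ d) ^ 2) * (1 / m) ^ d * (1 - θ)⁻¹ +
      2 * (C₁ * (a ^ 2 * (l ^ d) ^ 2) * w ^ d) * R ≤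
    c' * (n + C * a * (l * w) ^ d * R + C * a * (l / m) ^ d / (1 - θ)) := by
  have hc0 : 0 ≤ c' := by
    rw [hc']
    positivity
  have e1 : C₁ * (a ^ 2 * (l ^ d) ^ 2) * (1 / m) ^ d * (1 - θ)⁻¹ =
      c' * (C₁ * a * (l / m) ^ d / (1 - θ)) := by
    rw [hc', div_pow, div_pow, one_pow]
    field_simp
  have e2 : 2 * (C₁ * (a ^ 2 * (l ^ d) ^ 2) * w ^ d) * R =
      c' * ((2 * C₁) * a * (l * w) ^ d * R) := by
    rw [hc', mul_pow]
    ring
  rw [e1, e2]
  have f1 : c' * (C₁ * a * (l / m) ^ d / (1 - θ)) ≤ c' * (C * a * (l / m) ^ d / (1 - θ)) := by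
    apply mul_le_mul_of_nonneg_left _ hc0
    apply div_le_div_of_nonneg_right _ hθ.le
    apply mul_le_mul_of_nonneg_right _ (by positivity)
    apply mul_le_mul_of_nonneg_right _ ha
    linarith only [hC, hC0]
  have f2 : c' * ((2 * C₁) * a * (l * w) ^ d * R) ≤ c' * (C * a * (l * w) ^ d * R) := by
    apply mul_le_mul_of_nonneg_left _ hc0
    apply mul_le_mul_of_nonneg_right _ hR
    apply mul_le_mul_of_nonneg_right _ (by positivity)
    exact mul_le_mul_of_nonneg_right hC ha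
  have e3 : c' * (n + C * a * (l * w) ^ d * R + C * a * (l / m) ^ d / (1 - θ)) =
      n * c' + c' * (C * a * (l * w) ^ d * R) + c' * (C * a * (l / m) ^ d / (1 - θ)) := by ring
  rw [e3]
  linarith only [f1, f2]

theorem rws : RwsStmt := by
  intro d c hd hc
  have hd1 : 1 ≤ d := by omega
  have hC1 := C1_pos d hd1 c
  refine ⟨max (max (2 * C1 d c) (1 / c)) 1, le_max_right _ _, ?_⟩
  intro M _ k v w L n 𝒜 C' hk0 hks hv hK hvK hw hw1 hgap hCwL _ hn hcov hcard
  classical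
  have hM : (0 : ℝ) < M := by exact_mod_cast Nat.pos_of_ne_zero (NeZero.ne M)
  obtain ⟨C, hC⟩ : ∃ C, C = max (max (2 * C1 d c) (1 / c)) 1 := ⟨_, rfl⟩
  rw [← hC] at hCwL ⊢
  have hC2 : 2 * C1 d c ≤ C := by
    rw [hC]
    exact (le_max_left _ _).trans (le_max_left _ _)
  have hC3 : 1 / c ≤ C := by
    rw [hC]
    exact (le_max_right _ _).trans (le_max_left _ _)
  have hC4 : 1 ≤ C := by
    rw [hC]
    exact le_max_right _ _
  have hL : 1 ≤ L := by
    by_contra h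
    have h0 : L = 0 := by omega
    rw [h0] at hCwL
    push_cast at hCwL
    linarith only [hC1, hC2, hCwL]
  have hθ0 : 0 < v * ∑ x, k x := mul_pos hv hK
  obtain ⟨φ, hφ⟩ : ∃ φ : Tor d M → ℝ, ∀ x, φ x = if x ∈ C' then 1 else 0 :=
    ⟨fun x => if x ∈ C' then 1 else 0, fun x => rfl⟩
  have hφ0 : ∀ x, 0 ≤ φ x ∧ φ x ≤ 1 := by
    intro x
    rw [hφ]
    split_ifs <;> norm_num
  obtain ⟨f, hf1, hf2, hf3⟩ := neu k hk0 hks hv hθ0 hvK φ hφ0
  refine ⟨f, hf1, fun x => ?_, ?_⟩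
  · rw [hf2, hφ]
  · have hsumφ : ∀ g : Tor d M → ℝ, ∑ y, φ y * g y = ∑ y ∈ C', g y := by
      intro g
      have h1 : ∀ y, φ y * g y = if y ∈ C' then g y else 0 := by
        intro y
        rw [hφ]
        split_ifs
        · rw [one_mul]
        · rw [zero_mul]
      rw [Finset.sum_congr rfl fun y _ => h1 y, Finset.sum_ite_mem, Finset.univ_inter]
    have h1 : v * ∑ x, f x * ∑ y ∈ C', k (x - y) = v * ∑ x, f x * ∑ y, φ y * k (x - y) := by
      congr 1
      refine Finset.sum_congr rfl fun x _ => ?_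
      rw [hsumφ]
    rw [h1]
    have hcard' : (C'.card : ℝ) = 𝒜.card * (L : ℝ) ^ d := by exact_mod_cast hcard
    have hb1 : ∀ m : ℕ, ∑ x, φ x * (TT k v)^[m + 1] φ x ≤ C'.card := by
      intro m
      rw [hsumφ]
      have h2 : ∀ x ∈ C', (TT k v)^[m + 1] φ x ≤ 1 := fun x _ =>
        (iter_bd k hk0 hv.le hφ0 (m + 1) x).2.trans (pow_le_one₀ hθ0.le hvK.le)
      have h3 := Finset.sum_le_card_nsmul _ _ _ h2
      rwa [nsmul_eq_mul, mul_one] at h3
    have hS := fun m : ℕ => S_bd hd1 k 𝒜 C' φ hφ hk0 hks hv hK hw hc hgap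
        (hC3.trans hCwL) hL hcov (m + 1) (by omega)
    obtain ⟨Z, hZ⟩ : ∃ Z, Z = C1 d c * ((𝒜.card : ℝ) ^ 2 * ((L : ℝ) ^ d) ^ 2) := ⟨_, rfl⟩
    rw [← hZ] at hS
    have hZ0 : 0 ≤ Z := by
      rw [hZ]
      positivity
    have hb2 : ∀ m : ℕ, ∑ x, φ x * (TT k v)^[m + 1] φ x ≤
        Z * (1 / (M : ℝ)) ^ d * (v * ∑ x, k x) ^ (m + 1) +
        Z * w ^ d * (1 / Real.sqrt ((m + 1 : ℕ) : ℝ)) ^ d := by
      intro m
      refine (hS m).trans ?_
      have h3 : (v * ∑ x, k x) ^ (m + 1) ≤ 1 := pow_le_one₀ hθ0.le hvK.le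
      have h4 : 0 ≤ Z * (w ^ d * (1 / Real.sqrt ((m + 1 : ℕ) : ℝ)) ^ d) := by positivity
      have h5 := mul_le_mul_of_nonneg_left h3 h4
      have h6 : Z * ((v * ∑ x, k x) ^ (m + 1) * ((1 / (M : ℝ)) ^ d +
            w ^ d * (1 / Real.sqrt ((m + 1 : ℕ) : ℝ)) ^ d))
          = Z * (1 / (M : ℝ)) ^ d * (v * ∑ x, k x) ^ (m + 1) +
            Z * (w ^ d * (1 / Real.sqrt ((m + 1 : ℕ) : ℝ)) ^ d) * (v * ∑ x, k x) ^ (m + 1) := by
        ring
      rw [h6, mul_assoc Z (w ^ d)]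
      rw [mul_one] at h5
      linarith
    have hlim : ∀ N : ℕ, ∑ m ∈ Finset.range N, ∑ x, φ x * (TT k v)^[m + 1] φ x ≤
        n * (C'.card : ℝ) + Z * (1 / (M : ℝ)) ^ d * (1 - v * ∑ x, k x)⁻¹ +
          2 * (Z * w ^ d) * (n : ℝ) ^ (1 - (d : ℝ) / 2) := by
      intro N
      exact partial_bd n hn d hd (fun m => ∑ x, φ x * (TT k v)^[m] φ x) _ _ _ (v * ∑ x, k x)
        (Nat.cast_nonneg _) (by positivity) (by positivity) hθ0.le hvK hb1 hb2 N
    have hfin := le_of_tendsto' hf3.tendsto_sum_nat hlim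
    refine hfin.trans ?_
    rw [hZ]
    exact fin_calc d n 𝒜.card C'.card L M w (v * ∑ x, k x) C (C1 d c)
      ((n : ℝ) ^ (1 - (d : ℝ) / 2)) (Nat.cast_nonneg _) (Nat.cast_nonneg _) hM hw.le
      (sub_pos.mpr hvK) hC2 hC1 hcard' (by positivity)

end Pool.Agent.LE.QD.H81
end
end -- Pool.Agent.Helper81_LQD.RWS

section -- Pool.Agent.Helper93_LIF.PIF

/-!
# The final bound, all dimensions
-/

set_option autoImplicit false

open MeasureTheory ProbabilityTheory

open scoped ENNReal BigOperators NNReal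

noncomputable section

namespace Pool.Agent.LE.IR.H93F

open Pool.Agent.Anderson hiding box mem_box card_box
open Pool.Agent.Loc Pool.Agent.Mob Pool.Agent.Helper54.Bal
  Pool.Agent.Helper96.EXP Pool.Agent.BED
open Pool.Agent.LE.MN Pool.Agent.LE.CL Pool.Agent.LE.IR.H3

theorem pif (cpf : CpfStmt) (crg : CrgStmt) : PifStmt := by
  intro d hd
  have hd0 : (3 : ℝ) ≤ d := by exact_mod_cast hd
  obtain ⟨K₀, hK₀, hcpe⟩ := cpf d hd
  refine ⟨K₀, hK₀, ?_⟩
  intro Kε hKε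
  obtain ⟨c, K, hc, hc4, hK, h⟩ := hcpe (2 * (d : ℝ) + 1) Kε (by linarith only [hd0]) hKε
  obtain ⟨C, hC, hg⟩ := crg d (by omega)
  obtain ⟨K', hK'⟩ : ∃ K' : ℝ, K' = C * K * (K + 1 + K₀) * K + 100 := ⟨_, rfl⟩
  have hCK : 1 ≤ C * K := one_le_mul_of_one_le_of_one_le hC hK
  have h2 : 1 ≤ C * K * (K + 1 + K₀) := one_le_mul_of_one_le_of_one_le hCK (by linarith only [hK₀, hc, hc4, hK])
  have hB0 : K ≤ C * K * (K + 1 + K₀) * K := by
    nlinarith only [hK₀, hc, hc4, hK, hCK, h2]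
  have hK1 : K ≤ K' := by rw [hK']; linarith only [hc, hc4, hB0]
  have hK2 : C * K * (K + 1 + K₀) * K ≤ K' := by rw [hK']; linarith only [hc, hc4]
  have hK3 : 100 ≤ K' := by rw [hK']; linarith only [hc, hc4, hK, hB0]
  refine ⟨c, K', hc, hc4, by linarith only [hc, hc4, hK, hK', hB0], ?_⟩
  intro M' v σ t z μ ε p lam L g hσ hσc hv ht hL hz hμ1 hμ2 hl1 hl2 hε hε2 hK5 hM1 hM2 hp hp0
    hp1 hLy
  have hσ0 : 0 < |σ| := abs_pos.2 hσ
  have hσ4 : |σ| ≤ 1 / 4 := hσc.trans hc4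
  have ht1 : 100 ≤ t := hK3.trans ht
  have ht0 : 0 < t := by linarith only [hc, hc4, hK, hK', hB0, ht]
  have hG := growth_pos (d := d) (t := t) (by linarith only [hc, hc4, hK, hK', hB0, ht])
  have hlt : 0 ≤ Real.log t := Real.log_nonneg (by linarith only [hc, hc4, hK, hK', hB0, ht])
  have hls : 1 ≤ Real.log (1 / |σ|) := by
    rw [Real.le_log_iff_exp_le (by positivity)]
    have h1 := Real.exp_one_lt_d9
    have h2 : 4 ≤ 1 / |σ| := by
      rw [le_div_iff₀ hσ0]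
      linarith only [hc4, hσc]
    linarith only [hc, hc4, h1, h2]
  have hL1 : 1 ≤ L := by rw [hL]; linarith only [hlt, hls]
  have hlam0 : 0 < lam := lt_of_lt_of_le (by positivity) hl1
  have hlam1 : lam ≤ 1 := by
    refine hl2.trans ?_
    rw [div_le_one ht0]
    exact ht1
  have hts : 1 ≤ t / |σ| := by
    rw [one_le_div hσ0]
    linarith only [hc, hc4, hK, hK', hB0, hσc, ht]
  have hts0 : 0 < t / |σ| := by linarith only [hc, hc4, hts]
  have hq0 : 0 < |σ| / t := by positivity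
  have hq1 : |σ| / t < 1 := by
    rw [div_lt_one ht0]
    linarith only [hc, hc4, hK, hK', hB0, hσc, ht]
  have hqi : |σ| / t = (t / |σ|)⁻¹ := (inv_div _ _).symm
  -- the hypothesis with the smaller constant
  have hK5' : K * σ ^ 2 * growth d t * L ^ (2 * d + 10) ≤ 1 := by
    refine le_trans ?_ hK5
    gcongr
  obtain ⟨n, ρ, J, s, hs1, hsK, hρ1, hρ, hJ1, hJ, hn1, hn, hnl, hP⟩ := h M' v σ t z μ ε p lam L hσ
    hσc hv (hK1.trans ht) hL hz hμ1 hμ2 hl1 hl2 hε hε2 hK5' hM1 hM2 hp hp0 hp1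
  -- the energy
  have hM0 : M' ≠ 0 := by
    intro h0
    rw [h0] at hM1
    have := Real.rpow_pos_of_pos hts0 K₀
    simp only [Nat.cast_zero] at hM1
    linarith only [this, hM1]
  have hzl : |z - lam| ≤ 2 * d + 2 := by
    have hNZ : NeZero M' := ⟨hM0⟩
    have h3 := hp hNZ
    have hp2 : p < 1 := by
      refine hp1.trans_lt ?_
      exact Real.rpow_lt_one hq0.le hq1 (by linarith only [hd0, hc, hc4])
    have h4 : ∃ V : Tor d M' → ℝ, FlatE ε z μ V := by
      by_contra hcon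
      push Not at hcon
      have h5 : {V : Tor d M' → ℝ | ¬ FlatE ε z μ V} = Set.univ := by
        ext V
        simp [hcon V]
      rw [h5] at h3
      unfold gau at h3
      rw [measure_univ] at h3
      have h6 : ENNReal.ofReal p < 1 := by
        rw [← ENNReal.ofReal_one]
        exact (ENNReal.ofReal_lt_ofReal_iff (by norm_num)).2 hp2
      exact absurd h3 (not_le.2 h6)
    obtain ⟨V, hV⟩ := h4
    have h5 := z_gt hV
    rw [abs_le]
    constructor
    · linarith only [hd0, hc, hc4, hlam1, h5]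
    · linarith only [hc, hc4, hz, hlam0]
  have hn0 : (0 : ℝ) < n := by exact_mod_cast hn1
  have hρ0 : (1 : ℝ) ≤ ρ := by exact_mod_cast hρ1
  have hJ0 : (1 : ℝ) ≤ J := by exact_mod_cast hJ1
  have key := hg σ (z - lam) s (4 * (|σ| / t) ^ (2 * (d : ℝ) + 1)) g J n ρ hσ0 (by linarith only [hc, hc4, hσc]) hzl
    hs1 hJ1 hn1 hρ1 hLy (by positivity) (by
      have h3 : (n : ℝ) ≤ (|σ| / t) ^ (-(2 * (d : ℝ))) := by
        rw [hqi, Real.inv_rpow hts0.le, Real.rpow_neg hts0.le, inv_inv]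
        refine hn.trans (le_of_eq ?_)
        rw [← Real.rpow_natCast]
        push_cast
        rfl
      calc 4 * (|σ| / t) ^ (2 * (d : ℝ) + 1) * n
          ≤ 4 * (|σ| / t) ^ (2 * (d : ℝ) + 1) * (|σ| / t) ^ (-(2 * (d : ℝ))) := by
            gcongr
        _ = 4 * (|σ| / t) := by
            rw [mul_assoc, ← Real.rpow_add hq0]
            have : 2 * (d : ℝ) + 1 + -(2 * (d : ℝ)) = 1 := by ring
            rw [this, Real.rpow_one]
        _ ≤ 1 := by
            have : |σ| / t ≤ 1 / 4 / 100 := by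
              gcongr
            linarith only [hq0, this]) hP
  have hlogρ : Real.log ρ ≤ K₀ * L := by
    calc Real.log ρ ≤ Real.log ((t / |σ|) ^ K₀) := Real.log_le_log (by linarith only [hc, hc4, hρ0]) hρ
      _ = K₀ * L := by
          rw [Real.log_rpow hts0, hL, Real.log_div ht0.ne' hσ0.ne', one_div, Real.log_inv]
          ring
  obtain ⟨B, hB⟩ : ∃ B : ℝ, B = K * σ ^ 2 * growth d t * Real.sqrt lam * L ^ (d + 4) := ⟨_, rfl⟩
  rw [← hB] at hnl
  have hBp : 0 < B := by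
    rw [hB]
    have hs0 : 0 < Real.sqrt lam := Real.sqrt_pos.2 hlam0
    have h3 : 0 < σ ^ 2 := by positivity
    positivity
  have hs0 : 0 < Real.sqrt lam := Real.sqrt_pos.2 hlam0
  have hnd : (n : ℝ) ^ (-(1 / (d : ℝ))) ≤ B := by
    calc (n : ℝ) ^ (-(1 / (d : ℝ))) ≤ (B ^ (-(d : ℝ))) ^ (-(1 / (d : ℝ))) :=
          Real.rpow_le_rpow_of_nonpos (Real.rpow_pos_of_pos hBp _) hnl
            (by rw [neg_nonpos]; positivity)
      _ = B := by
          rw [← Real.rpow_mul hBp.le]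
          have : -(d : ℝ) * -(1 / (d : ℝ)) = 1 := by
            field_simp
          rw [this, Real.rpow_one]
  have hsum : s + Real.log (1 / |σ|) + Real.log ρ ≤ (K + 1 + K₀) * L := by
    have : Real.log (1 / |σ|) ≤ L := by rw [hL]; linarith only [hlt]
    linarith only [hL, hlt, hsK, hlogρ]
  have hsum0 : 0 ≤ s + Real.log (1 / |σ|) + Real.log ρ := by
    have := Real.log_nonneg hρ0
    linarith only [hc, hc4, hls, hs1, this]
  refine key.trans ?_
  calc C * J * (s + Real.log (1 / |σ|) + Real.log ρ) * (n : ℝ) ^ (-(1 / (d : ℝ)))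
      ≤ C * (K * L ^ 2 / Real.sqrt lam) * ((K + 1 + K₀) * L) * B := by
        gcongr
    _ = C * K * (K + 1 + K₀) * K * σ ^ 2 * growth d t * L ^ (d + 7) := by
        rw [hB]
        field_simp
        ring
    _ ≤ C * K * (K + 1 + K₀) * K * σ ^ 2 * growth d t * L ^ (d + 8) := by
        have h3 : L ^ (d + 7) ≤ L ^ (d + 8) := pow_le_pow_right₀ hL1 (by omega)
        gcongr
    _ ≤ _ := by
        gcongr

end Pool.Agent.LE.IR.H93F
end
end -- Pool.Agent.Helper93_LIF.PIF
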