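import Pool.Agent.Helper12_MEB.B083
import Pool.Agent.Helper12_MEB.B126

/-!
# Merged copies (generated) of the modules

* `Pool.Agent.Helper93_LIF.CPFb`
* `Pool.Agent.Helper93_LIF.CPF`
-/

set_option autoImplicit false

section -- Pool.Agent.Helper93_LIF.CPFb

/-!
# CPF, part b: the free moves
-/

set_option autoImplicit false

open MeasureTheory ProbabilityTheory Function Filter

open scoped ENNReal BigOperators Topology NNReal

noncomputable section

namespace Pool.Agent.LE.IR.H93F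

open Pool.Agent.Anderson hiding box mem_box card_box
open Pool.Agent.Loc Pool.Agent.Mob Pool.Agent.Helper54.Bal
  Pool.Agent.Helper96.EXP Pool.Agent.BED
open Pool.Agent.LE.MN Pool.Agent.LE.CL Pool.Agent.LE.IR.H54

/-- the length of the free moves -/
theorem exists_r0 {d : ℕ} {CE a₀ C₁ L lam η : ℝ} {ns R₁ : ℕ} (hCE : 1 ≤ CE) (ha₀ : 34 ≤ a₀)
    (hC₁ : C₁ = CE * (a₀ + 6)) (hL : 1 ≤ L) (hl : 0 < lam) (hl1 : lam ≤ 1) (hη : 0 < η)
    (hηl : η ≤ lam / 2) (hns1 : 1 ≤ ns) (hns : (ns : ℝ) ≤ 1 / lam) (hR₁ : C₁ * L ≤ η * R₁) :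
    ∃ r₀ : ℕ, 1 ≤ r₀ ∧ 4 * r₀ ≤ R₁ ∧ 7 * CE * L * ns ≤ (r₀ : ℝ) ^ 2 ∧
      (d : ℝ) * r₀ + 1 ≤ (14 * d * CE + 1) * L / Real.sqrt lam := by
  have hns0 : (1 : ℝ) ≤ ns := by exact_mod_cast hns1
  have hL0 : 0 < L := by linarith only [hL, hl1, hη, hηl]
  have hCE0 : 0 < CE := by linarith only [hCE, hl1, hη, hηl]
  have hs0 : 0 < Real.sqrt lam := Real.sqrt_pos.2 hl
  have hss : Real.sqrt lam ^ 2 = lam := Real.sq_sqrt hl.le
  have hs1 : Real.sqrt lam ≤ 1 := Real.sqrt_le_one.2 hl1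
  obtain ⟨A, hA⟩ : ∃ A : ℝ, A = 7 * CE * L * ns := ⟨_, rfl⟩
  have hA7 : 7 ≤ A := by
    rw [hA]
    calc (7 : ℝ) = 7 * 1 * 1 * 1 := by norm_num
      _ ≤ 7 * CE * L * ns := by gcongr
  have hA0 : 0 ≤ A := by linarith only [hl1, hη, hηl, hA7]
  have hsA : Real.sqrt A ^ 2 = A := Real.sq_sqrt hA0
  have hsA1 : 1 ≤ Real.sqrt A := by
    rw [Real.one_le_sqrt]
    linarith only [hl1, hη, hηl, hA7]
  -- `√A ≤ 7 CE L / √lam`
  have hup : Real.sqrt A ≤ 7 * CE * L / Real.sqrt lam := by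
    refine Real.sqrt_le_iff.2 ⟨by positivity, ?_⟩
    rw [div_pow, hss, hA]
    have h1 : (7 * CE * L) ≤ (7 * CE * L) ^ 2 := by
      refine le_self_pow₀ ?_ (by norm_num)
      calc (1 : ℝ) ≤ 7 * 1 * 1 := by norm_num
        _ ≤ 7 * CE * L := by gcongr
    calc 7 * CE * L * ns ≤ (7 * CE * L) ^ 2 * (1 / lam) := by gcongr
      _ = (7 * CE * L) ^ 2 / lam := by ring
  refine ⟨⌈Real.sqrt A⌉₊, ?_, ?_, ?_, ?_⟩
  · exact Nat.one_le_iff_ne_zero.2 (by
      rw [Ne, Nat.ceil_eq_zero, not_le]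
      linarith only [hl1, hη, hηl, hsA1])
  · have h1 : (⌈Real.sqrt A⌉₊ : ℝ) < Real.sqrt A + 1 := Nat.ceil_lt_add_one (Real.sqrt_nonneg _)
    have h2 : Real.sqrt A ≤ 7 * CE * L / lam := by
      refine hup.trans ?_
      refine div_le_div_of_nonneg_left (by positivity) hl ?_
      calc lam = Real.sqrt lam * Real.sqrt lam := by rw [← sq, hss]
        _ ≤ Real.sqrt lam * 1 := by gcongr
        _ = Real.sqrt lam := mul_one _
    have h3 : 80 * (CE * L / lam) ≤ R₁ := by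
      have h4 : C₁ * L / η ≤ R₁ := by
        rw [div_le_iff₀ hη]
        linarith only [hR₁]
      refine le_trans ?_ h4
      have h5 : 40 * CE ≤ C₁ := by
        rw [hC₁]
        nlinarith only [hCE, ha₀]
      have h6 : 0 ≤ C₁ * L := by nlinarith only [hCE, hL, hl1, hη, hηl, h5]
      calc 80 * (CE * L / lam) = 40 * CE * L / (lam / 2) := by
            field_simp
            ring
        _ ≤ C₁ * L / η := by gcongr
    have h4 : (4 * (⌈Real.sqrt A⌉₊ : ℝ)) ≤ R₁ := by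
      have h5 : 7 * CE * L / lam = 7 * (CE * L / lam) := by ring
      rw [h5] at h2
      linarith
    exact_mod_cast h4
  · have h1 : Real.sqrt A ≤ (⌈Real.sqrt A⌉₊ : ℝ) := Nat.le_ceil _
    calc 7 * CE * L * ns = Real.sqrt A ^ 2 := by rw [hsA, hA]
      _ ≤ (⌈Real.sqrt A⌉₊ : ℝ) ^ 2 := by gcongr
  · have h1 : (⌈Real.sqrt A⌉₊ : ℝ) < Real.sqrt A + 1 := Nat.ceil_lt_add_one (Real.sqrt_nonneg _)
    have h2 : (⌈Real.sqrt A⌉₊ : ℝ) ≤ 2 * (7 * CE * L / Real.sqrt lam) := by linarith only [hsA1, hup, h1]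
    have h3 : 1 ≤ L / Real.sqrt lam := by
      rw [le_div_iff₀ hs0]
      linarith only [hL, hs1]
    calc (d : ℝ) * ⌈Real.sqrt A⌉₊ + 1 ≤ d * (2 * (7 * CE * L / Real.sqrt lam)) +
          L / Real.sqrt lam := by gcongr
      _ = (14 * d * CE + 1) * L / Real.sqrt lam := by ring

theorem hop_ne {d : ℕ} (x : Site d) (i : Fin d) {a : ℤ} (ha : a = 1 ∨ a = -1) :
    hop x (x + Pi.single i a) ≠ 0 := by
  have h0 : ∀ j : Fin d, (0 : ℝ) ≤ ((if x + Pi.single i a = x + Pi.single j 1 then 1 else 0) +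
      (if x + Pi.single i a = x - Pi.single j 1 then 1 else 0)) := by
    intro j
    split_ifs <;> norm_num
  have h1 : (1 : ℝ) ≤ ((if x + Pi.single i a = x + Pi.single i 1 then 1 else 0) +
      (if x + Pi.single i a = x - Pi.single i 1 then 1 else 0)) := by
    rcases ha with ha | ha
    · rw [ha, if_pos rfl]
      split_ifs <;> norm_num
    · have e : x + Pi.single i a = x - Pi.single i 1 := by
        rw [ha, Pi.single_neg, sub_eq_add_neg]
      rw [if_pos e]
      split_ifs <;> norm_num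
  have h2 := Finset.single_le_sum (fun j _ => h0 j) (Finset.mem_univ i)
  unfold hop
  have : (1 : ℝ) ≤ ∑ j : Fin d, ((if x + Pi.single i a = x + Pi.single j 1 then 1 else 0) +
      (if x + Pi.single i a = x - Pi.single j 1 then 1 else 0)) := h1.trans h2
  linarith

theorem box_step {d : ℕ} {x b : Site d} {R : ℕ} (hx : x ∈ box b R) (i : Fin d) {a : ℤ}
    (ha : a = 1 ∨ a = -1) : x + Pi.single i a ∈ box b (R + 1) := by
  rw [mem_box] at hx ⊢
  unfold sd at hx ⊢
  refine Finset.sup_le fun j _ => ?_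
  have h1 := Finset.le_sup (f := fun i => (b i - x i).natAbs) (Finset.mem_univ j)
  have h2 : (b j - x j).natAbs ≤ R := le_trans h1 hx
  have h3 : (Pi.single i a : Site d) j = a ∨ (Pi.single i a : Site d) j = 0 := by
    by_cases hij : j = i
    · left
      rw [hij, Pi.single_eq_same]
    · right
      rw [Pi.single_eq_of_ne hij]
  rw [Pi.add_apply]
  rcases h3 with h3 | h3 <;> rcases ha with ha | ha <;> rw [h3] <;> omega

/-- the neighbours are linked -/
theorem badN {d : ℕ} {A C : ℝ} {σ E τ : ℝ} {N R : ℕ} {b : Site d}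
    (h : ∀ x y : Site d, x ∈ box (0 : Site d) N → y ∈ box (0 : Site d) N → hop x y ≠ 0 →
      PP d (gl σ) {V | ¬ τ ≤ |gr V (box 0 N) E x y|} ≤
        ENNReal.ofReal (C * |σ| ^ (-A) * τ ^ (1 / 4 : ℝ))) (hC : 0 ≤ C) (hτ : 0 ≤ τ)
    (hbox : box b (R + 2) ⊆ box 0 N) :
    PP d (gl σ) {V | ¬ ∀ x ∈ box b (R + 1), ∀ i : Fin d,
      τ ≤ |gr V (box 0 N) E x (x + Pi.single i 1)| ∧
      τ ≤ |gr V (box 0 N) E x (x - Pi.single i 1)|} ≤
        ENNReal.ofReal ((2 * R + 3 : ℝ) ^ d * (d * (2 * (C * |σ| ^ (-A) * τ ^ (1 / 4 : ℝ))))) := by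
  obtain ⟨q, hq⟩ : ∃ q : ℝ, q = C * |σ| ^ (-A) * τ ^ (1 / 4 : ℝ) := ⟨_, rfl⟩
  have hq0 : 0 ≤ q := by rw [hq]; positivity
  rw [← hq] at h ⊢
  have hsub : {V : Site d → ℝ | ¬ ∀ x ∈ box b (R + 1), ∀ i : Fin d,
      τ ≤ |gr V (box 0 N) E x (x + Pi.single i 1)| ∧
      τ ≤ |gr V (box 0 N) E x (x - Pi.single i 1)|} ⊆
      ⋃ x ∈ box b (R + 1), ⋃ i ∈ (Finset.univ : Finset (Fin d)),
        ({V | ¬ τ ≤ |gr V (box 0 N) E x (x + Pi.single i 1)|} ∪
          {V | ¬ τ ≤ |gr V (box 0 N) E x (x + Pi.single i (-1))|}) := by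
    intro V hV
    by_contra hcon
    simp only [Set.mem_iUnion, not_exists, Set.mem_union, not_or, Set.mem_ofPred_eq, not_not]
      at hcon
    refine hV fun x hx i => ?_
    obtain ⟨h1, h2⟩ := hcon x hx i (Finset.mem_univ i)
    refine ⟨h1, ?_⟩
    have e : x + Pi.single i (-1) = x - Pi.single i 1 := by
      rw [Pi.single_neg, sub_eq_add_neg]
    rwa [e] at h2
  refine (measure_mono hsub).trans ?_
  refine (measure_biUnion_finset_le _ _).trans ?_
  have h1 : ∀ x ∈ box b (R + 1), PP d (gl σ) (⋃ i ∈ (Finset.univ : Finset (Fin d)),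
        ({V | ¬ τ ≤ |gr V (box 0 N) E x (x + Pi.single i 1)|} ∪
          {V | ¬ τ ≤ |gr V (box 0 N) E x (x + Pi.single i (-1))|})) ≤
      ENNReal.ofReal (d * (2 * q)) := by
    intro x hx
    refine (measure_biUnion_finset_le _ _).trans ?_
    have h2 : ∀ i ∈ (Finset.univ : Finset (Fin d)), PP d (gl σ)
        ({V | ¬ τ ≤ |gr V (box 0 N) E x (x + Pi.single i 1)|} ∪
          {V | ¬ τ ≤ |gr V (box 0 N) E x (x + Pi.single i (-1))|}) ≤ ENNReal.ofReal (2 * q) := by
      intro i _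
      have hx0 : x ∈ box (0 : Site d) N := hbox (box_mono b (by omega) hx)
      have h3 := h x _ hx0 (hbox (box_step hx i (Or.inl rfl))) (hop_ne x i (Or.inl rfl))
      have h4 := h x _ hx0 (hbox (box_step hx i (Or.inr rfl))) (hop_ne x i (Or.inr rfl))
      refine (measure_union_le _ _).trans ((add_le_add h3 h4).trans (le_of_eq ?_))
      rw [← ENNReal.ofReal_add hq0 hq0]
      congr 1
      ring
    refine (Finset.sum_le_sum h2).trans (le_of_eq ?_)
    rw [Finset.sum_const, Finset.card_univ, Fintype.card_fin, nsmul_eq_mul,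
      ENNReal.ofReal_mul (Nat.cast_nonneg d), ENNReal.ofReal_natCast]
  refine (Finset.sum_le_sum h1).trans (le_of_eq ?_)
  have e : (2 * (R : ℝ) + 3) ^ d = (((2 * (R + 1) + 1) ^ d : ℕ) : ℝ) := by
    push_cast
    ring_nf
  rw [e]
  calc ∑ _x ∈ box b (R + 1), ENNReal.ofReal (d * (2 * q)) =
        ENNReal.ofReal (((2 * (R + 1) + 1) ^ d : ℕ) : ℝ) * ENNReal.ofReal (d * (2 * q)) := by
        rw [ENNReal.ofReal_natCast, Finset.sum_const, card_box, nsmul_eq_mul]
    _ = _ := by rw [← ENNReal.ofReal_mul (Nat.cast_nonneg _)]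

end Pool.Agent.LE.IR.H93F
end
end -- Pool.Agent.Helper93_LIF.CPFb

section -- Pool.Agent.Helper93_LIF.CPF

/-!
# CPF: the probability of the clusters, with free moves

Adapted from `Helper54_LIR/CPE.lean` (helper54).
-/

set_option autoImplicit false

open MeasureTheory ProbabilityTheory Function Filter

open scoped ENNReal BigOperators Topology NNReal

noncomputable section

namespace Pool.Agent.LE.IR.H93F

open Pool.Agent.Anderson hiding box mem_box card_box
open Pool.Agent.Loc Pool.Agent.Mob Pool.Agent.Helper54.Bal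
  Pool.Agent.Helper96.EXP Pool.Agent.BED
open Pool.Agent.LE.MN Pool.Agent.LE.CL Pool.Agent.LE.IR.H54

/-- the energy is in the right range -/
theorem zl_bound {d M' : ℕ} {v : ℝ≥0} {ε z μ p lam : ℝ} (hne : NeZero M')
    (h3 : gau d M' v {V | ¬ FlatE ε z μ V} ≤ ENNReal.ofReal p) (hp2 : p < 1)
    (hz : z ≤ 2 * d + 1) (hl0 : 0 ≤ lam) (hl1 : lam ≤ 1) : |z - lam| ≤ 2 * d + 2 := by
  have h4 : ∃ V : Tor d M' → ℝ, FlatE ε z μ V := by
    by_contra hcon
    push Not at hcon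
    have h5 : {V : Tor d M' → ℝ | ¬ FlatE ε z μ V} = Set.univ := by
      ext V
      simp [hcon V]
    rw [h5] at h3
    unfold gau at h3
    rw [measure_univ] at h3
    have h6 : ENNReal.ofReal p < 1 := by
      rw [← ENNReal.ofReal_one]
      exact (ENNReal.ofReal_lt_ofReal_iff (by norm_num)).2 hp2
    exact absurd h3 (not_le.2 h6)
  obtain ⟨V, hV⟩ := h4
  have h5 := H3.z_gt hV
  have hd0 : (0 : ℝ) ≤ d := Nat.cast_nonneg d
  rw [abs_le]
  constructor
  · linarith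
  · linarith

/-- the probability that some neighbours are not linked -/
theorem nlb_num {d R : ℕ} {σ A₀ L AN CN S₀ : ℝ} (hσ : σ ≠ 0) (hL : 1 ≤ L)
    (hse : 1 / |σ| ≤ Real.exp L) (hRu : (2 * R + 7 : ℝ) ≤ Real.exp (4 * L)) (hAN : 1 ≤ AN)
    (hCN : 1 ≤ CN) (hK : 2 * d * CN ≤ Real.exp L)
    (hS₀ : 4 * (4 * d + AN + A₀ + 1) ≤ S₀) :
    (2 * R + 3 : ℝ) ^ d * (d * (2 * (CN * |σ| ^ (-AN) * Real.exp (-(S₀ * L)) ^ (1 / 4 : ℝ)))) ≤
      Real.exp (-(A₀ * L)) := by
  have hσ0 : 0 < |σ| := abs_pos.2 hσ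
  have h1 : (2 * (R : ℝ) + 3) ^ d ≤ Real.exp (4 * d * L) := by
    calc (2 * (R : ℝ) + 3) ^ d ≤ (Real.exp (4 * L)) ^ d := by
          gcongr
          linarith only [hRu]
      _ = Real.exp (4 * d * L) := by
          rw [← Real.exp_nat_mul]
          congr 1
          ring
  have h2 : |σ| ^ (-AN) ≤ Real.exp (AN * L) := by
    have e1 : |σ| ^ (-AN) = (1 / |σ|) ^ AN := by
      rw [one_div, Real.inv_rpow hσ0.le, Real.rpow_neg hσ0.le]
    rw [e1, ← exp_rpow]
    exact Real.rpow_le_rpow (by positivity) hse (by linarith only [hAN])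
  have h3 : Real.exp (-(S₀ * L)) ^ (1 / 4 : ℝ) ≤ Real.exp (-((4 * d + AN + A₀ + 1) * L)) := by
    rw [← Real.exp_mul]
    refine Real.exp_le_exp.2 ?_
    nlinarith only [hL, hS₀]
  calc (2 * R + 3 : ℝ) ^ d * (d * (2 * (CN * |σ| ^ (-AN) *
        Real.exp (-(S₀ * L)) ^ (1 / 4 : ℝ)))) ≤
      Real.exp (4 * d * L) * (d * (2 * (CN * Real.exp (AN * L) *
        Real.exp (-((4 * d + AN + A₀ + 1) * L))))) := by gcongr
    _ = (2 * d * CN) * (Real.exp (4 * d * L) * Real.exp (AN * L) *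
        Real.exp (-((4 * d + AN + A₀ + 1) * L))) := by ring
    _ ≤ Real.exp L * (Real.exp (4 * d * L) * Real.exp (AN * L) *
        Real.exp (-((4 * d + AN + A₀ + 1) * L))) := by gcongr
    _ = Real.exp (-(A₀ * L)) := by
      rw [← Real.exp_add, ← Real.exp_add, ← Real.exp_add]
      congr 1
      ring

/-- CPF -/
theorem cpf (flo : FloStmt) (khl : KhlStmt) (ffb : FfbStmt) (sms : SmsStmt) (tse : TseStmt)
    (clf : ClfStmt) (nlb : NlbStmt) : CpfStmt := by
  intro d hd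
  have hd1 : 1 ≤ d := by omega
  have hd' : (3 : ℝ) ≤ d := by exact_mod_cast hd
  obtain ⟨CF, hCF, hflo⟩ := flo d hd1
  obtain ⟨CK, hCK, hkhl⟩ := khl d hd1
  obtain ⟨CB, hCB, hffb⟩ := ffb d hd1
  obtain ⟨CS, hCS, hsms⟩ := sms d hd
  obtain ⟨AT, cT, CT, k, hAT, hcT, hCT, htse⟩ := tse d hd
  obtain ⟨c₁, cE, c₂, CE, hc₁, hc₁1, hcE, hcE1, hc₂, hCE, hcle⟩ := clf d AT hd hAT
  obtain ⟨AN, CN, hAN, hCN, hnlb⟩ := nlb d hd1
  have hk0 : (0 : ℝ) ≤ k := Nat.cast_nonneg k
  have hK₀60 : 60 + 8 * (k : ℝ) ≤ 8 * k + 20 * d := by linarith only [hd']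
  obtain ⟨K₀, hK₀⟩ : ∃ K₀ : ℝ, K₀ = 8 * k + 20 * d := ⟨_, rfl⟩
  rw [← hK₀] at hK₀60
  refine ⟨K₀, by linarith only [hcE, hcE1, hK₀60], fun A₀ Kε hA₀ hKε => ?_⟩
  have hcE1' : cE ≤ 1 := by linarith only [hcE, hcE1]
  obtain ⟨m, ct, Q, K₃, a₀, C₁, c₃, K1, hcst1⟩ := exists_cst (A₀ := A₀) (Kε := Kε) (K₀ := K₀) hd'
    hCF hCK hCB hCS hAT hcT hCT hc₁ hcE hcE1' hc₂ hCE hA₀ hKε (by linarith only [hcE, hcE1, hK₀60])
  obtain ⟨S₀, hS₀⟩ : ∃ S : ℝ, S = 7 * CE + 4 * (4 * d + AN + A₀ + 1) := ⟨_, rfl⟩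
  obtain ⟨K, hKd⟩ : ∃ K : ℝ, K = K1 + 2 * d * CN + S₀ + 9 * d * (14 * d * CE + 1) := ⟨_, rfl⟩
  have v1 : 0 ≤ 2 * d * CN := by positivity
  have v3 : 0 ≤ 9 * (d : ℝ) * (14 * d * CE + 1) := by positivity
  have hS₀7 : 7 * CE ≤ S₀ := by
    rw [hS₀]
    have : 0 ≤ 4 * (4 * (d : ℝ) + AN + A₀ + 1) := by positivity
    linarith only [this]
  have hS₀4 : 4 * (4 * d + AN + A₀ + 1) ≤ S₀ := by
    rw [hS₀]
    linarith only [hCE]
  have v2 : 0 ≤ S₀ := by linarith only [hS₀7, hCE]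
  have hcst := cst_mono hcst1 (K' := K) (by linarith only [hKd, v1, v2, v3])
  have hK100' := hcst1.hK100
  have hKN : 2 * d * CN ≤ K := by linarith only [hKd, v2, v3, hK100']
  have hKS : S₀ ≤ K := by linarith only [hKd, v1, v3, hK100']
  have hKJ : 9 * (d : ℝ) * (14 * d * CE + 1) ≤ K := by linarith only [hKd, v1, v2, hK100']
  refine ⟨1 / 4, K, by norm_num, le_rfl, by linarith only [hcst.hK100, hd', hcE, hcE1, hCE, hAN, hA₀, hS₀, hKd, v1, v3, hK100'], ?_⟩
  intro M' v σ t z μ ε₀ p lam L hσ hσc hv ht hL hz hμ1 hμ2 hl1 hl2 hε₀ hε₀2 hstar hM1 hM2 hflat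
    hp hpA
  have hn := numF hcst hd (by linarith only [hK₀60]) hcE hcT hσ hσc ht hL hμ1 hμ2 hl1 hl2 hε₀2 hstar hM1 hM2
    hp hpA
  obtain ⟨G, hG⟩ : ∃ G : ℝ, G = growth d t := ⟨_, rfl⟩
  obtain ⟨P, hP⟩ : ∃ P : ℝ, P = lam ^ (((d : ℝ) - 4) / 2) := ⟨_, rfl⟩
  rw [← hG, ← hP] at hn
  clear hstar hM1 hM2 hpA hε₀2 hL hμ1 hμ2 hl1 hl2 ht
  have hL1 := hn.hL1
  have hL0 : 0 < L := by linarith only [hL1]
  have hG1 := hn.hG1
  have hG0 : 0 < G := by linarith only [hG1]
  have hX0 := hn.hX0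
  have hK100 := hcst.hK100
  have hK0 : 0 ≤ K := by linarith only [hK100]
  have hl0 := hn.hl0
  have hlam1 := hn.hlam1
  have hμ0 := hn.hμ0
  have hμl2 := hn.hμl2
  have hKe := hn.hKe
  have hM0 := hn.hM0
  have ht0 : 0 < t := by linarith only [hn.ht100]
  have hσ2 : 0 < σ ^ 2 := by positivity
  have hne : NeZero M' := ⟨by
    rintro rfl
    norm_num at hM0⟩
  have k11 := hcst.k11
  have heL : 576 ≤ Real.exp L := by linarith only [k11, hKe, hCE, hCS]
  have hex : ∀ {a : ℝ}, a ≤ 60 → Real.exp (a * L) ≤ M' := fun ha =>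
    le_trans (Real.exp_le_exp.2 (by gcongr)) hn.hMe
  have he3 : Real.exp (3 * L) = Real.exp L * Real.exp (2 * L) := by
    rw [← Real.exp_add]
    congr 1
    ring
  have hct0 := hcst.hct0
  have hK₃1 := hcst.hK₃1
  have hK₃0 : 0 < K₃ := by linarith only [hK₃1]
  -- the flatness
  obtain ⟨ε, hε⟩ : ∃ ε : ℝ, ε = Real.sqrt (Kε * L * (σ ^ 2 * G)) := ⟨_, rfl⟩
  have hε2 : ε ^ 2 = Kε * L * (σ ^ 2 * G) := by
    rw [hε]
    exact Real.sq_sqrt (by positivity)
  have hε0 : 0 < ε := by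
    rw [hε]
    exact Real.sqrt_pos.2 (by positivity)
  have hεε : ε₀ ≤ ε := by
    refine le_of_sq_le_sq ?_ hε0.le
    rw [hε2]
    exact hn.hε₀2
  have hεcE : ε ≤ cE := by
    refine le_of_sq_le_sq ?_ hcE.le
    rw [hε2]
    have h1 := absorb (j := 1) hcst.k2 hX0.le hL1 (by omega) hK0 hn.hS1
    calc Kε * L * (σ ^ 2 * G) = (Kε / cE ^ 2 * (σ ^ 2 * G) * L ^ 1) * cE ^ 2 := by
          field_simp
      _ ≤ 1 * cE ^ 2 := by gcongr
      _ = cE ^ 2 := one_mul _
  have hflat' : gau d M' v {V | ¬ FlatE ε z μ V} ≤ ENNReal.ofReal p := by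
    refine le_trans (measure_mono ?_) (hflat hne)
    intro V hV hV2
    refine hV ⟨hV2.1, hV2.2.1, fun x => (hV2.2.2 x).trans ?_⟩
    gcongr
  -- the cut of the momenta
  obtain ⟨hsM, Js, hJs1, hJs2, hJs3, hJsM⟩ := exists_cut hn.ht100 hl0 hlam1 hn.hl1 hn.hte
    (hex (by norm_num)) hM0
  -- the resolution
  obtain ⟨η, hη⟩ : ∃ η : ℝ, η = K₃ * (σ ^ 2 * G) * lam * L ^ (d + 4) := ⟨_, rfl⟩
  have hinv := inv_eta (η := η) hη hσ (by linarith only [hn.ht100]) hn.hexp hn.hl1 hL1 hG1 hK₃1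
  obtain ⟨hη0, hηcE, hηl2, hη1⟩ := eta_bounds hη hK₃0 hX0 hl0 hlam1 hL1 hcE hcE1' hcst.k4 hK0
    hn.hS1
  obtain ⟨hlogη, hlogη0⟩ := log_eta hη0 hη1 hinv
  have hlogη3 : 1 + Real.log (1 / η) ≤ 3 * L := by linarith only [hlogη, hL1]
  obtain ⟨τ, hτ⟩ : ∃ τ : ℝ, τ = Real.sqrt (ct / L ^ d) := ⟨_, rfl⟩
  have hτ2 : τ ^ 2 = ct / L ^ d := by
    rw [hτ]
    exact Real.sq_sqrt (by positivity)
  have hτ0 : 0 < τ := by
    rw [hτ]
    exact Real.sqrt_pos.2 (by positivity)
  have hτ1 : τ ≤ 1 := by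
    rw [hτ]
    refine Real.sqrt_le_one.2 ?_
    rw [div_le_one (by positivity)]
    exact hcst.hct1.trans (one_le_pow₀ hL1)
  have hCBε : CB * ε ≤ τ := by
    refine le_of_sq_le_sq ?_ hτ0.le
    rw [mul_pow, hε2, hτ2, le_div_iff₀ (by positivity)]
    have h1 := absorb (j := d + 1) hcst.k3 hX0.le hL1 (by omega) hK0 hn.hS1
    calc CB ^ 2 * (Kε * L * (σ ^ 2 * G)) * L ^ d =
          (CB ^ 2 * Kε / ct * (σ ^ 2 * G) * L ^ (d + 1)) * ct := by
          field_simp
          ring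
      _ ≤ 1 * ct := by gcongr
      _ = ct := one_mul _
  obtain ⟨w, r, hw, hr0, hr2, hev⟩ := ev_probF hcst hd hCF hCK hCS hCE hA₀ hKε hcE hcE1 hflo hkhl
    hsms hσ hv hn hP hJs1 hsM hJs3 hJsM hflat' hε0 hεcE hε2 hη hη0 hηl2 hη1 hinv hτ0 hτ2
  have hw10 : |w - 1| ≤ 1 / 10 := by linarith only [hw, hεcE, hcE1]
  obtain ⟨l, hl⟩ : ∃ l : ℝ, l = lam - 1 / (μ * w) := ⟨_, rfl⟩
  obtain ⟨hw1, hw2, hl_le, hl_ge⟩ := l_bounds hl0 hμ0 hn.hμl2 hw10 hl
  have hlpos : 0 < l := by linarith only [hl0, hl_ge]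
  specialize hev l hl
  -- the scales
  obtain ⟨R₁, J, R, hR, hR₁1, hJ1, hR1, hR₁l, hJu, hRu, h2J⟩ :=
    scales hd hcst.hC₁1 hL1 hη0 hη1 hinv (hcst.k9.trans hKe)
  have hR0 : (0 : ℝ) ≤ R := Nat.cast_nonneg _
  have hR1' : (1 : ℝ) ≤ R := by exact_mod_cast hR1
  have hlogR : Real.log R ≤ 4 * L := by
    calc Real.log R ≤ Real.log (Real.exp (4 * L)) :=
          Real.log_le_log (by linarith only [hR1']) (by linarith only [hR1', hRu])
      _ = 4 * L := Real.log_exp _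
  have hlogR0 : 0 ≤ Real.log R := Real.log_nonneg hR1'
  -- the number of the steps
  obtain ⟨ns, hns1, hns2, hns3, hns4⟩ := exists_ns hcE hcE1' hl0 hn.hlcE
  have hns0 : (0 : ℝ) < ns := by exact_mod_cast hns1
  obtain ⟨hnst, hlogil, hlogns⟩ := log_ns hn.ht100 hl0 hn.hl1 hn.hlogt hns1 hns2
  -- the free moves
  obtain ⟨r₀, hr₀1, hr₀R, hr₀2, hr₀J⟩ := exists_r0 (d := d) hCE (by
    rw [hcst.ha₀]
    linarith only [hd', hA₀]) hcst.hC₁ hL1 hl0 hlam1 hη0 hηl2 hns1 hns2 hR₁l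
  have hzl : |z - lam| ≤ 2 * d + 2 := by
    refine zl_bound hne hflat' (hn.hpA.trans_lt ?_) hz hl0.le hlam1
    rw [Real.exp_lt_one_iff]
    have : 0 < A₀ * L := by positivity
    linarith only [this]
  have hns4' : 1 / (ns : ℝ) ≤ 2 / cE * lam * L := by
    refine hns4.trans ?_
    gcongr
  -- the number of the sites
  obtain ⟨n, hn1, hn2, hn3, hn4⟩ := c_n (d := d) (K₃ := K₃) (K := K) (X := σ ^ 2 * G)
    (lam := lam) (L := L) (η := η) (c₃ := c₃) (l := l) (e := Real.exp (2 * L)) hη hd1 hK₃1 hX0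
    hcst.hc₃0 hcst.hc₃1 hl0 hlam1 hl_ge hl_le hL1 hcst.k8
    (absorb (j := d + 4) hcst.k8 hX0.le hL1 (by omega) hK0 hn.hS1) hinv
    (Real.one_le_exp (by linarith only [hL0]))
  have ha₀0 := hcst.ha₀0
  have hc₃0 := hcst.hc₃0
  rw [hn.hexp]
  have hSL : 7 * CE * L ≤ S₀ * L := by gcongr
  refine ⟨n, R + 2, J * (d * r₀ + 1), S₀ * L, by nlinarith only [hCE, hL1, hSL], ?_, by omega, ?_,
    Nat.mul_pos hJ1 (by omega), ?_, hn1, ?_, ?_, ?_⟩
  · gcongr
  · rw [exp_rpow]
    push_cast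
    calc (R : ℝ) + 2 ≤ 2 * R + 7 := by linarith only [hR0]
      _ ≤ Real.exp (4 * L) := hRu
      _ ≤ Real.exp (K₀ * L) := by
        refine Real.exp_le_exp.2 ?_
        gcongr
        linarith only [hK₀60, hk0]
  · push_cast
    have hsl0 : 0 < Real.sqrt lam := Real.sqrt_pos.2 hl0
    calc (J : ℝ) * (d * r₀ + 1) ≤ (9 * d * L) * ((14 * d * CE + 1) * L / Real.sqrt lam) := by
          gcongr
      _ = (9 * d * (14 * d * CE + 1)) * L ^ 2 / Real.sqrt lam := by ring
      _ ≤ K * L ^ 2 / Real.sqrt lam := by gcongr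
  · refine hn3.trans (le_of_eq ?_)
    rw [← Real.exp_nat_mul, ← Real.exp_nat_mul]
    congr 1
    push_cast
    ring
  · rw [← hG]
    refine le_trans (le_of_eq ?_) hn4
    congr 1
    ring
  · intro N b hbox
    have hA0 : 0 < Real.exp (-(A₀ * L)) := Real.exp_pos _
    have hb := badE hσ hv (z - lam) (a₀ * L) _ N R b _ (by positivity) hev
    have hbN := badN (d := d) (A := AN) (C := CN) (σ := σ) (E := z - lam)
      (τ := Real.exp (-(S₀ * L))) (N := N) (R := R) (b := b)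
      (fun x y hx hy hxy => hnlb σ (z - lam) _ N x y hσ (by linarith only [hσc]) hzl
        (Real.exp_pos _) hx hy hxy) (by linarith only [hCN]) (Real.exp_pos _).le hbox
    refine (measure_mono (t := {V | ¬ ((RM V (box 0 N) (z - lam)).det ≠ 0 ∧
      (∀ x ∈ box b (R + 1), ∀ y ∈ box b (R + 1),
        |gr V (box 0 N) (z - lam) x y| ≤ Real.exp (a₀ * L)) ∧
      ((fun V : Tor d M' → ℝ => FlatE ε z μ V ∧
          (∀ x, |lpf (2 * Js) (fun y => om z μ V y - w - gv (1 / μ) V y) x| ≤ r) ∧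
          KE Js (gv (1 / μ) V) w (1 / μ - 2 * lam * w) l η (τ / 4))
            (fun x : Tor d M' => V (b + rep x))))} ∪
      {V | ¬ ∀ x ∈ box b (R + 1), ∀ i : Fin d,
      Real.exp (-(S₀ * L)) ≤ |gr V (box 0 N) (z - lam) x (x + Pi.single i 1)| ∧
      Real.exp (-(S₀ * L)) ≤ |gr V (box 0 N) (z - lam) x (x - Pi.single i 1)|}) ?_).trans
      ((measure_union_le _ _).trans ((add_le_add hb hbN).trans ?_))
    · intro V hV
      by_contra hcon
      rw [Set.mem_union, not_or, Set.mem_ofPred_eq, Set.mem_ofPred_eq, not_not, not_not] at hcon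
      obtain ⟨⟨g1, g2, g3, g4, g5⟩, g6⟩ := hcon
      rw [Set.mem_ofPred_eq] at hV
      apply hV
      have hform : FBd (om z μ fun x : Tor d M' => V (b + rep x)) (1 / μ) lam w l η τ := by
        refine hffb M' Js _ (gv (1 / μ) fun x : Tor d M' => V (b + rep x)) w ε r (1 / μ) lam l η
          τ hε0 hCBε hτ1 hw ?_ (by positivity) ?_ hlam1 ?_ hJs2 hJs3 hη0 ?_ hr0 g4 g5 ?_ ?_
        · intro x
          have h1 := g3.2.2 x
          unfold om
          rw [div_sub_one hμ0.ne', abs_div, abs_of_pos hμ0, div_le_iff₀ hμ0]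
          exact h1
        · rw [mul_one_div, div_le_iff₀ hμ0]
          linarith only [hμl2]
        · rw [hl, div_div]
        · linarith only [hηl2, hl0]
        · rw [hε2, hτ2]
          exact c_f1 hη hX0.le hl0 hL1 hct0 hcst.r1 hK₃0.le
        · exact c_f2 hη hG0.le hl0 hL1 hct0 (by linarith only [hCB]) hr0 hτ0.le hτ2 hr2 hK₃1
            hcst.r2 hcst.hQ0.le
      have hc₁T : c₁ / η ≤ Real.exp (2 * L) := by
        refine le_trans ?_ hinv
        gcongr
      have hq1 : CT ≤ c₁ / η * l := by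
        -- `CT ≤ T l`
        have h1 := absorb (j := d + 4) hcst.k7 hX0.le hL1 (by omega) hK0 hn.hS1
        have h2 : CT * η ≤ c₁ * l := by
          calc CT * η = (2 * CT * K₃ / c₁ * (σ ^ 2 * G) * L ^ (d + 4)) * (c₁ * (lam / 2)) := by
                rw [hη]
                field_simp
            _ ≤ 1 * (c₁ * (lam / 2)) := by gcongr
            _ ≤ c₁ * l := by
                rw [one_mul]
                gcongr
        calc CT = CT * η / η := by field_simp
          _ ≤ c₁ * l / η := by gcongr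
          _ = c₁ / η * l := by ring
      have hq2 : CT * (c₁ / η * (((2 * R : ℕ) : ℝ) + 1)) ^ k ≤ M' := by
        have h1 : c₁ / η * (((2 * R : ℕ) : ℝ) + 1) ≤ Real.exp (6 * L) := by
          calc c₁ / η * (((2 * R : ℕ) : ℝ) + 1) ≤ Real.exp (2 * L) * Real.exp (4 * L) := by
                gcongr
                push_cast
                linarith only [hRu]
            _ = Real.exp (6 * L) := by
                rw [← Real.exp_add]
                ring_nf
        have h0 : 0 ≤ c₁ / η * (((2 * R : ℕ) : ℝ) + 1) := by positivity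
        have h2 := hcst.k10
        calc CT * (c₁ / η * (((2 * R : ℕ) : ℝ) + 1)) ^ k ≤ Real.exp L * (Real.exp (6 * L)) ^ k := by
              gcongr
              linarith only [h2, hKe]
          _ = Real.exp (L + k * (6 * L)) := by rw [← Real.exp_nat_mul, ← Real.exp_add]
          _ ≤ Real.exp (K₀ * L) := by
              refine Real.exp_le_exp.2 ?_
              have h3 : L + k * (6 * L) = (1 + 6 * k) * L := by ring
              rw [h3]
              refine mul_le_mul_of_nonneg_right ?_ hL0.le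
              linarith only [hK₀60, hk0]
          _ ≤ M' := hn.hM1
      obtain ⟨T', q, hT1, hT2, htst⟩ := htse M' (2 * R) l (c₁ / η) hlpos
        (hl_le.trans hn.hlcT) hq1 hq2
      · have hTpos : 0 < T' := lt_of_lt_of_le (by positivity) hT1
        have hcl := hcle M' ns N R R₁ r₀ J V b z μ ε lam w l η τ (S₀ * L) (a₀ * L) T'
          (AT / (Real.sqrt T' ^ (d + 1) * Real.sqrt l)) q hz hμ0 (by linarith only [hμl2]) hε0
          hεcE hw10 hl
          g3 hform hns1 ?_ hns3 hη0 hηcE ?_ ?_ hτ0.le ?_ ?_ hT1 hT2 ?_ htst ?_ hbox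
          (by rw [hR]) h2J hr₀1 hr₀R ?_ (by positivity) ?_ ?_ g1 g2 g6
        · have h1 := c_size (d := d) (l := l) (η := η) (c₁ := c₁) (c₂ := c₂) (A := AT)
            (T := T') hlpos hη0 hc₁ hc₂ (by linarith only [hAT]) hT1 rfl
          have h2 : (n : ℝ) ≤ (rch V (box 0 N) (z - lam) (S₀ * L) b R (J * (d * r₀ + 1))).card := by
            refine hn2.trans (le_trans ?_ (h1.trans hcl))
            have := hcst.hc₃2
            gcongr
          have h3 : n ≤ (rch V (box 0 N) (z - lam) (S₀ * L) b R (J * (d * r₀ + 1))).card := by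
            exact_mod_cast h2
          exact h3.trans (Finset.card_le_card (rch_mono_rad (by omega) _))
        · have h1 : (ns : ℝ) + 1 ≤ (M' : ℝ) ^ 2 := by
            have h2 : Real.exp (2 * L) ≤ M' := hex (by norm_num)
            have h3 : (M' : ℝ) ≤ (M' : ℝ) ^ 2 := le_self_pow₀ hM0 (by norm_num)
            have h4 : Real.exp L + 1 ≤ Real.exp (2 * L) := by
              rw [two_mul, Real.exp_add]
              nlinarith only [heL]
            linarith only [h2, h3, h4, hnst, hn.hte]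
          exact_mod_cast h1
        · have h1 := absorb (j := d + 5) hcst.k4 hX0.le hL1 (by omega) hK0 hn.hS1
          calc η * (1 + Real.log (1 / η)) * ns ≤ η * (3 * L) * (1 / lam) := by gcongr
            _ = (3 * K₃ / cE * (σ ^ 2 * G) * L ^ (d + 5)) * cE := by
              rw [hη]
              field_simp
              ring
            _ ≤ 1 * cE := by gcongr
            _ = cE := one_mul _
        · exact c_i hη hK₃0.le hX0.le hcE hl0 hl_ge hL0.le hns4'
            (absorb hcst.k5 hX0.le hL1 (by omega) hK0 hn.hS1)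
        · exact c_t hd hcE hcE1' hl0 hl_ge hL1 hns1 hns4' hlogη3 (by linarith only [hlogη0]) hτ2
            hcst.hct
        · calc CE / η = CE * (1 / η) := by ring
            _ ≤ Real.exp L * Real.exp (2 * L) := by
                gcongr
                linarith only [k11, hKe, hCS]
            _ = Real.exp (3 * L) := he3.symm
            _ ≤ M' := hex (by norm_num)
        · positivity
        · have h1 : (4 * R + 14 : ℝ) ≤ M' := by
            have h3 : 2 * Real.exp (4 * L) ≤ Real.exp (5 * L) := by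
              have h4 : Real.exp (5 * L) = Real.exp L * Real.exp (4 * L) := by
                rw [← Real.exp_add]
                congr 1
                ring
              rw [h4]
              exact mul_le_mul_of_nonneg_right (by linarith only [heL]) (Real.exp_pos _).le
            have h5 : Real.exp (5 * L) ≤ M' := hex (by norm_num)
            linarith only [hRu, h3, h5]
          have h2 : ((4 * R + 5 : ℕ) : ℝ) ≤ (M' : ℝ) := by
            push_cast
            linarith only [h1]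
          exact_mod_cast h2
        · refine le_trans ?_ hr₀2
          calc CE * (1 + Real.log (1 / η) + Real.log R) * ns ≤ CE * (L + 2 * L + 4 * L) * ns := by
                gcongr
            _ = 7 * CE * L * ns := by ring
        · refine le_trans ?_ hR₁l
          rw [hcst.hC₁]
          calc CE * (a₀ * L + Real.log (1 / η) + Real.log R) ≤
                CE * (a₀ * L + 2 * L + 4 * L) := by gcongr
            _ = CE * (a₀ + 6) * L := by ring
        · refine le_trans ?_ hSL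
          calc CE * (1 + Real.log (1 / η) + Real.log R) ≤ CE * (L + 2 * L + 4 * L) := by gcongr
            _ = 7 * CE * L := by ring
    · rw [← ENNReal.ofReal_add (by positivity) (by positivity)]
      refine ENNReal.ofReal_le_ofReal ?_
      have h0 := nlb_num (d := d) (R := R) (σ := σ) (A₀ := A₀) (L := L) hσ hL1 hn.hse hRu hAN hCN
        (by linarith only [hKN, hKe]) hS₀4
      have h2 := gr_prob (d := d) (R := R) (σ := σ) (A₀ := A₀) (L := L) (a₀ := a₀) hL1 hn.hse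
        (by linarith only [heL]) hcst.ha₀ hRu
      have e1 : (|σ| / t) ^ A₀ = Real.exp (-(A₀ * L)) := by
        have e2 : |σ| / t = Real.exp (-L) := by
          rw [Real.exp_neg, ← hn.hexp, inv_div]
        rw [e2, exp_rpow]
        congr 1
        ring
      rw [e1]
      have hpA := hn.hpA
      linarith only [h0, h2, hpA, hA0]

end Pool.Agent.LE.IR.H93F
end
end -- Pool.Agent.Helper93_LIF.CPF
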