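import Pool.Agent.Helper12_MEB.B087
import Pool.Agent.Helper12_MEB.B116

/-!
# Merged copies (generated) of the modules

* `Pool.Agent.Helper49_LQF.KFT`
* `Pool.Agent.Helper51_LQD.GAP`
* `Pool.Agent.Helper63_LQZ.IXU`
* `Pool.Agent.Helper54_ANI.SYM`
* `Pool.Agent.Helper94_LQF.GAL`
* `Pool.Agent.Helper93_LQZ.POI`
* `Pool.Agent.Helper38_LQZ.IXI`
-/

set_option autoImplicit false

section -- Pool.Agent.Helper49_LQF.KFT

set_option autoImplicit false

open MeasureTheory ProbabilityTheory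

open scoped ENNReal BigOperators NNReal Matrix ComplexConjugate

noncomputable section

namespace Pool.Agent.LE.QF.H49

open Pool.Agent.Anderson hiding box mem_box card_box
open Pool.Agent.Loc Pool.Agent.Mob Pool.Agent.Helper54.Bal
  Pool.Agent.Helper96.EXP Pool.Agent.BED
open Pool.Agent.LE.MN Pool.Agent.LE.CL Pool.Agent.LE.IR Pool.Agent.LE.QD

variable {d M : ℕ} [NeZero M]

/-- the resolvent depends on the difference -/
theorem rs_diff (hral : RalStmt) {z : ℂ} (hz0 : 0 < z.im) {x y x' y' : Tor d M}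
    (h : x - y = x' - y') : rs (0 : Tor d M → ℝ) z x y = rs (0 : Tor d M → ℝ) z x' y' := by
  obtain ⟨-, -, -, -, -, -, -, -, -, -, h11, -⟩ := hral d M 0 z hz0
  rw [h11, h11, h]

theorem rs_neg (hral : RalStmt) {z : ℂ} (hz0 : 0 < z.im) (x : Tor d M) :
    rs (0 : Tor d M → ℝ) z 0 (-x) = rs (0 : Tor d M → ℝ) z 0 x := by
  obtain ⟨-, h2, -⟩ := hral d M 0 z hz0
  rw [rs_diff hral hz0 (x' := x) (y' := 0) (by rw [sub_neg_eq_add, zero_add, sub_zero]), h2]

/-- the transform of the resolvent -/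
theorem ft_rs (hral : RalStmt) (hftb : FtbStmt) {z : ℂ} (hz0 : 0 < z.im) (p : Tor d M) :
    ft (fun x => rs (0 : Tor d M → ℝ) z 0 x) p = ((es p : ℂ) - z)⁻¹ := by
  obtain ⟨-, -, -, -, -, -, h7, h8, -⟩ := hftb d M
  obtain ⟨-, -, -, -, -, -, -, -, -, -, h11, -⟩ := hral d M 0 z hz0
  obtain ⟨f, hf⟩ := h8 fun p => ((es p : ℂ) - z)⁻¹
  have h1 : (fun x => rs (0 : Tor d M → ℝ) z 0 x) = f := by
    funext x
    rw [← rs_neg hral hz0 x, h11, h7 f x]
    congr 1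
    apply Finset.sum_congr rfl
    intro q _
    rw [hf, zero_sub, neg_neg, div_eq_mul_inv]
  rw [h1, hf]

/-- the transform of `f ec p` -/
theorem ft_mul_ec (hftb : FtbStmt) (f : Tor d M → ℂ) (p q : Tor d M) :
    ft (fun x => f x * ec p x) q = ft f (q - p) := by
  obtain ⟨-, -, h3, h4, -⟩ := hftb d M
  unfold ft
  apply Finset.sum_congr rfl
  intro y _
  rw [sub_eq_add_neg, h3, map_mul, (h4 p y).1, Complex.conj_conj]
  ring

theorem ft_conj (hftb : FtbStmt) (f : Tor d M → ℂ) (q : Tor d M) :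
    ft (fun x => conj (f x)) q = conj (ft f (-q)) := by
  obtain ⟨-, -, h3, h4, -⟩ := hftb d M
  unfold ft
  rw [map_sum]
  apply Finset.sum_congr rfl
  intro y _
  rw [map_mul, (h4 q y).1, Complex.conj_conj]

theorem ec_zero (p : Tor d M) : ec (0 : Tor d M) p = 1 := by
  unfold ec
  apply Finset.prod_eq_one
  intro i _
  rw [Pi.zero_apply, zero_mul, AddChar.map_zero_eq_one]

/-- `∑ |g|² ec p` -/
theorem sum_kk (hral : RalStmt) (hftb : FtbStmt) {z : ℂ} (hz0 : 0 < z.im) (p : Tor d M) :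
    ∑ x : Tor d M, ((kk z x : ℝ) : ℂ) * ec p x = kh z p := by
  obtain ⟨h1, h2, h3, h4, h5, -⟩ := hftb d M
  -- `|g|² ec p = conj (g ec (-p)) g`
  have e1 : ∑ x : Tor d M, ((kk z x : ℝ) : ℂ) * ec p x =
      ∑ x, conj (rs (0 : Tor d M → ℝ) z 0 x * ec (-p) x) * rs (0 : Tor d M → ℝ) z 0 x := by
    apply Finset.sum_congr rfl
    intro x _
    have e2 : ((kk z x : ℝ) : ℂ) = conj (rs (0 : Tor d M → ℝ) z 0 x) *
        rs (0 : Tor d M → ℝ) z 0 x := by
      unfold kk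
      rw [Complex.conj_mul', Complex.ofReal_pow]
    rw [e2, map_mul, (h4 p x).1, Complex.conj_conj]
    ring
  rw [e1, h5 (fun x => rs (0 : Tor d M → ℝ) z 0 x) (fun x => rs (0 : Tor d M → ℝ) z 0 x * ec (-p) x)]
  unfold kh
  congr 1
  apply Finset.sum_congr rfl
  intro k _
  rw [ft_mul_ec hftb (fun x => rs (0 : Tor d M → ℝ) z 0 x), sub_neg_eq_add,
    ft_rs hral hftb hz0, ft_rs hral hftb hz0, mul_comm]

theorem sum_bb (hral : RalStmt) (hftb : FtbStmt) {z : ℂ} (hz0 : 0 < z.im) (p : Tor d M) :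
    ∑ x : Tor d M, rs (0 : Tor d M → ℝ) z 0 x ^ 2 * ec p x = bh z p := by
  obtain ⟨h1, h2, h3, h4, h5, -⟩ := hftb d M
  have e0 : ∑ x : Tor d M, rs (0 : Tor d M → ℝ) z 0 x ^ 2 * ec p x =
      ∑ x : Tor d M, rs (0 : Tor d M → ℝ) z 0 x ^ 2 * ec (-p) x := by
    rw [← Equiv.sum_comp (Equiv.neg (Tor d M))]
    apply Finset.sum_congr rfl
    intro x _
    rw [Equiv.neg_apply, rs_neg hral hz0, (h4 p x).1, (h4 p x).2]
  have e1 : ∑ x : Tor d M, rs (0 : Tor d M → ℝ) z 0 x ^ 2 * ec (-p) x =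
      ∑ x, conj (conj (rs (0 : Tor d M → ℝ) z 0 x) * ec p x) * rs (0 : Tor d M → ℝ) z 0 x := by
    apply Finset.sum_congr rfl
    intro x _
    rw [map_mul, Complex.conj_conj, (h4 p x).1]
    ring
  rw [e0, e1, h5 (fun x => rs (0 : Tor d M → ℝ) z 0 x)
    (fun x => conj (rs (0 : Tor d M → ℝ) z 0 x) * ec p x)]
  unfold bh
  congr 1
  apply Finset.sum_congr rfl
  intro k _
  rw [ft_mul_ec hftb (fun x => conj (rs (0 : Tor d M → ℝ) z 0 x)),
    ft_conj hftb (fun x => rs (0 : Tor d M → ℝ) z 0 x), neg_sub, ft_rs hral hftb hz0,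
    ft_rs hral hftb hz0, Complex.conj_conj, mul_comm]

/-- the transform of `B u` -/
theorem ft_BB (hral : RalStmt) (hftb : FtbStmt) {z : ℂ} (hz0 : 0 < z.im) (u : Tor d M → ℂ)
    (p : Tor d M) :
    ft (BB (rs (0 : Tor d M → ℝ) z) *ᵥ u) p = bh z p * ft u p := by
  obtain ⟨h1, h2, h3, h4, h5, -⟩ := hftb d M
  have e0 : ∀ y : Tor d M, ∑ x, conj (ec p x) * BB (rs (0 : Tor d M → ℝ) z) x y =
      conj (ec p y) * bh z p := by
    intro y
    rw [← sum_bb hral hftb hz0 p, Finset.mul_sum,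
      ← Equiv.sum_comp (Equiv.subLeft y)]
    apply Finset.sum_congr rfl
    intro x _
    rw [Equiv.subLeft_apply]
    have e1 : BB (rs (0 : Tor d M → ℝ) z) (y - x) y = rs (0 : Tor d M → ℝ) z 0 x ^ 2 := by
      unfold BB
      rw [rs_diff hral hz0 (x' := 0) (y' := x) (by abel)]
    rw [e1, sub_eq_add_neg, h2, (h4 p x).2, map_mul, Complex.conj_conj]
    ring
  unfold ft
  simp only [Matrix.mulVec, dotProduct, Finset.mul_sum]
  rw [Finset.sum_comm]
  apply Finset.sum_congr rfl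
  intro y _
  have e2 : ∑ x, conj (ec p x) * (BB (rs (0 : Tor d M → ℝ) z) x y * u y) =
      (∑ x, conj (ec p x) * BB (rs (0 : Tor d M → ℝ) z) x y) * u y := by
    rw [Finset.sum_mul]
    apply Finset.sum_congr rfl
    intro x _
    ring
  rw [e2, e0]
  ring

theorem kft (hral : RalStmt) (hfmu : FmuStmt) (hftb : FtbStmt) : KftStmt := by
  intro d M _ z hz0
  have hkf : ∀ p : Tor d M, kf z p = (∑ x : Tor d M, ((kk z x : ℝ) : ℂ) * ec p x).re := by
    intro p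
    rw [Complex.re_sum]
    unfold kf
    apply Finset.sum_congr rfl
    intro x _
    rw [Complex.re_ofReal_mul]
  obtain ⟨h1, h2, h3, h4, h5, h6, -⟩ := hftb d M
  have hkk : ∀ x : Tor d M, kk z (-x) = kk z x := by
    intro x
    unfold kk
    rw [rs_neg hral hz0]
  refine ⟨?_, sum_bb hral hftb hz0, ?_, ?_, ?_, ?_⟩
  · intro p
    rw [hkf, sum_kk hral hftb hz0]
  · intro β u hβ
    unfold n2
    rw [h6, h6]
    have e1 : β ^ 2 * pm (fun p => ‖ft u p‖ ^ 2) = pm fun p => β ^ 2 * ‖ft u p‖ ^ 2 := by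
      unfold pm
      rw [mul_div_assoc', Finset.mul_sum]
    rw [e1]
    unfold pm
    gcongr with p _
    show ‖ft (BB (rs (0 : Tor d M → ℝ) z) *ᵥ u) p‖ ^ 2 ≤ β ^ 2 * ‖ft u p‖ ^ 2
    rw [ft_BB hral hftb hz0, norm_mul, mul_pow]
    gcongr
    exact hβ p
  · have hM := hfmu d M (fun _ => 0) (fun _ => 0) (fun _ => rfl) (fun _ => rfl)
    obtain ⟨-, -, -, -, -, -, -, -, -, -, h11⟩ := hM
    ext x y
    have e1 := h11 (fun x => kk z x) x y hkk
    have e2 : KK (rs (0 : Tor d M → ℝ) z) x y = kk z (x - y) := by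
      rw [← hkk, neg_sub]
      unfold KK kk
      rw [rs_diff hral hz0 (x' := 0) (y' := y - x) (by abel)]
    rw [e2, e1]
    rfl
  · intro p
    unfold kf
    apply Finset.sum_congr rfl
    intro x _
    rw [(h4 p x).1, Complex.conj_re]
  · obtain ⟨-, -, -, -, h5', -⟩ := hral d M 0 z hz0
    rw [← h5' 0]
    unfold kf
    apply Finset.sum_congr rfl
    intro x _
    rw [ec_zero, Complex.one_re, mul_one]
    rfl

end Pool.Agent.LE.QF.H49
end
end -- Pool.Agent.Helper49_LQF.KFT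

section -- Pool.Agent.Helper51_LQD.GAP

/-!
# LQD, row GAP: the gap of the ladder kernel for small momenta
-/

set_option autoImplicit false
set_option linter.unusedSectionVars false

open MeasureTheory ProbabilityTheory

open scoped ENNReal BigOperators NNReal Matrix

noncomputable section

namespace Pool.Agent.LE.QD.H51

open Pool.Agent.Anderson hiding box mem_box card_box
open Pool.Agent.Loc Pool.Agent.Mob Pool.Agent.Helper54.Bal
  Pool.Agent.Helper96.EXP Pool.Agent.BED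
open Pool.Agent.LE.MN Pool.Agent.LE.CL Pool.Agent.LE.IR

variable {d M : ℕ} [NeZero M]

/-! ### The characters of the cyclic group -/

theorem chi_norm (a : ZMod M) : ‖(ZMod.stdAddChar a : ℂ)‖ = 1 := by
  rw [ZMod.stdAddChar_apply]
  exact Circle.norm_coe _

theorem chi_neg (a : ZMod M) :
    (ZMod.stdAddChar (-a) : ℂ) = (starRingEnd ℂ) (ZMod.stdAddChar a : ℂ) := by
  have h1 : (ZMod.stdAddChar (-a) : ℂ) * ZMod.stdAddChar a = 1 := by
    rw [← AddChar.map_add_eq_mul, neg_add_cancel, AddChar.map_zero_eq_one]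
  have h2 : (starRingEnd ℂ) (ZMod.stdAddChar a : ℂ) * ZMod.stdAddChar a = 1 := by
    rw [mul_comm, Complex.mul_conj, Complex.normSq_eq_norm_sq, chi_norm]
    norm_num
  have h3 : (ZMod.stdAddChar a : ℂ) ≠ 0 := by
    intro h
    rw [h, mul_zero] at h1
    exact zero_ne_one h1
  exact mul_right_cancel₀ h3 (h1.trans h2.symm)

theorem chi_re (n : ℤ) : (ZMod.stdAddChar ((n : ℤ) : ZMod M) : ℂ).re =
    Real.cos (2 * Real.pi * (n : ℝ) / M) := by
  rw [ZMod.stdAddChar_coe]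
  have h1 : (2 * (Real.pi : ℂ) * Complex.I * (n : ℂ) / (M : ℂ)) =
      ((2 * Real.pi * (n : ℝ) / M : ℝ) : ℂ) * Complex.I := by
    push_cast
    ring
  rw [h1, Complex.exp_ofReal_mul_I_re]

theorem chi_re_sq (a : ZMod M) :
    (ZMod.stdAddChar (2 * a) : ℂ).re = 2 * (ZMod.stdAddChar a : ℂ).re ^ 2 - 1 := by
  have h1 : (ZMod.stdAddChar (2 * a) : ℂ) = ZMod.stdAddChar a * ZMod.stdAddChar a := by
    rw [← AddChar.map_add_eq_mul, two_mul]
  have h2 := chi_norm a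
  have h3 : (ZMod.stdAddChar a : ℂ).re ^ 2 + (ZMod.stdAddChar a : ℂ).im ^ 2 = 1 := by
    have h4 : Complex.normSq (ZMod.stdAddChar a : ℂ) = 1 := by
      rw [Complex.normSq_eq_norm_sq, h2]
      norm_num
    rw [Complex.normSq_apply] at h4
    nlinarith
  rw [h1, Complex.mul_re]
  nlinarith

theorem chi_gap (a : ZMod M) : (1 - (ZMod.stdAddChar (2 * a) : ℂ).re) / 4 ≤
    1 - |(ZMod.stdAddChar a : ℂ).re| := by
  rw [chi_re_sq]
  have h1 : |(ZMod.stdAddChar a : ℂ).re| ≤ 1 := by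
    rw [← chi_norm a]
    exact Complex.abs_re_le_norm _
  have h2 := sq_abs (ZMod.stdAddChar a : ℂ).re
  have h3 := abs_nonneg (ZMod.stdAddChar a : ℂ).re
  nlinarith

/-! ### Symmetries -/

theorem es_eq (p : Tor d M) : es p = ∑ j, 2 * (ZMod.stdAddChar (p j) : ℂ).re := by
  unfold es ds
  have h1 : ∀ j, Real.cos (2 * Real.pi * ((p j).valMinAbs : ℝ) / M) =
      (ZMod.stdAddChar (p j) : ℂ).re := by
    intro j
    rw [← chi_re, ZMod.coe_valMinAbs]
  simp only [h1]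
  have h2 : (2 * d : ℝ) = ∑ _j : Fin d, (2 : ℝ) := by
    rw [Finset.sum_const, Finset.card_univ, Fintype.card_fin, nsmul_eq_mul]
    ring
  rw [h2, ← Finset.sum_sub_distrib]
  refine Finset.sum_congr rfl fun j _ => ?_
  ring

theorem es_neg (p : Tor d M) : es (-p) = es p := by
  rw [es_eq, es_eq]
  refine Finset.sum_congr rfl fun j _ => ?_
  rw [Pi.neg_apply, chi_neg, Complex.conj_re]

/-- the reflection of the coordinate `i` -/
def fl (i : Fin d) : Tor d M ≃ Tor d M where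
  toFun p := Function.update p i (-p i)
  invFun p := Function.update p i (-p i)
  left_inv p := by
    simp
  right_inv p := by
    simp

theorem fl_same (i : Fin d) (p : Tor d M) : fl i p i = -p i := by
  show Function.update p i (-p i) i = -p i
  rw [Function.update_self]

theorem fl_ne {i j : Fin d} (h : j ≠ i) (p : Tor d M) : fl i p j = p j := by
  show Function.update p i (-p i) j = p j
  rw [Function.update_of_ne h]

theorem es_fl (i : Fin d) (p : Tor d M) : es (fl i p) = es p := by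
  rw [es_eq, es_eq]
  refine Finset.sum_congr rfl fun j _ => ?_
  by_cases h : j = i
  · subst h
    rw [fl_same, chi_neg, Complex.conj_re]
  · rw [fl_ne h]

theorem ec_fl (i : Fin d) (p x : Tor d M) : ec (fl i p) (fl i x) = ec p x := by
  unfold ec
  refine Finset.prod_congr rfl fun j _ => ?_
  by_cases h : j = i
  · subst h
    rw [fl_same, fl_same, neg_mul_neg]
  · rw [fl_ne h, fl_ne h]

theorem fl_neg (i : Fin d) (x : Tor d M) : fl i (-x) = -fl i x := by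
  funext j
  by_cases h : j = i
  · subst h
    rw [fl_same, Pi.neg_apply, Pi.neg_apply, fl_same]
  · rw [fl_ne h, Pi.neg_apply, Pi.neg_apply, fl_ne h]

/-- the free resolvent at the origin -/
def g0 (ζ : ℂ) (x : Tor d M) : ℂ := rs (0 : Tor d M → ℝ) ζ 0 x

theorem g0_eq (ral : RalStmt) {ζ : ℂ} (hζ : 0 < ζ.im) (x : Tor d M) :
    g0 ζ x = (∑ p, ec p (-x) / ((es p : ℂ) - ζ)) / (M : ℂ) ^ d := by
  obtain ⟨-, -, -, -, -, -, -, -, -, -, h, -⟩ := ral d M 0 ζ hζ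
  unfold g0
  rw [h, zero_sub]

theorem g0_fl (ral : RalStmt) {ζ : ℂ} (hζ : 0 < ζ.im) (i : Fin d) (x : Tor d M) :
    g0 ζ (fl i x) = g0 ζ x := by
  rw [g0_eq ral hζ, g0_eq ral hζ, ← Equiv.sum_comp (fl i)]
  congr 1
  refine Finset.sum_congr rfl fun p _ => ?_
  rw [es_fl, ← fl_neg, ec_fl]

theorem kk_eq (ζ : ℂ) (x : Tor d M) : kk ζ x = ‖g0 ζ x‖ ^ 2 := rfl

/-! ### The reflection argument -/

theorem refl_bound (ral : RalStmt) {ζ : ℂ} (hζ : 0 < ζ.im) (q : Tor d M) (i : Fin d) :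
    |∑ x, kk ζ x * (ec q x).re| ≤ ∑ x, kk ζ x * |(ZMod.stdAddChar (q i * x i) : ℂ).re| := by
  obtain ⟨P, hP⟩ : ∃ P : Tor d M → ℂ, P = fun x =>
    ∏ j ∈ Finset.univ.erase i, (ZMod.stdAddChar (q j * x j) : ℂ) := ⟨_, rfl⟩
  have h1 : ∀ x, ec q x = ZMod.stdAddChar (q i * x i) * P x := by
    intro x
    rw [hP]
    unfold ec
    rw [← Finset.mul_prod_erase Finset.univ _ (Finset.mem_univ i)]
  have h2 : ∀ x, P (fl i x) = P x := by
    intro x
    rw [hP]
    refine Finset.prod_congr rfl fun j hj => ?_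
    rw [fl_ne (Finset.ne_of_mem_erase hj)]
  have h3 : ∀ x, ‖P x‖ = 1 := by
    intro x
    rw [hP]
    simp only [norm_prod]
    exact Finset.prod_eq_one fun j _ => chi_norm _
  have h4 : ∀ x : Tor d M, kk ζ (fl i x) = kk ζ x := by
    intro x
    rw [kk_eq, kk_eq, g0_fl ral hζ]
  have h5 : ∑ x, (kk ζ x : ℂ) * ec q x =
      ∑ x, (kk ζ x : ℂ) * (P x * ((ZMod.stdAddChar (q i * x i) : ℂ).re : ℂ)) := by
    have h6 : ∑ x, (kk ζ x : ℂ) * ec q x = ∑ x, (kk ζ (fl i x) : ℂ) * ec q (fl i x) :=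
      (Equiv.sum_comp (fl i) fun x => (kk ζ x : ℂ) * ec q x).symm
    have h7 : (2 : ℂ) * ∑ x, (kk ζ x : ℂ) * ec q x = 2 *
        ∑ x, (kk ζ x : ℂ) * (P x * ((ZMod.stdAddChar (q i * x i) : ℂ).re : ℂ)) := by
      rw [two_mul]
      nth_rw 2 [h6]
      rw [← Finset.sum_add_distrib, Finset.mul_sum]
      refine Finset.sum_congr rfl fun x _ => ?_
      rw [h4, h1, h1, h2, fl_same, mul_neg, chi_neg]
      have h8 := Complex.add_conj (ZMod.stdAddChar (q i * x i) : ℂ)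
      push_cast at h8
      linear_combination (kk ζ x : ℂ) * P x * h8
    exact mul_left_cancel₀ two_ne_zero h7
  have h9 : ∑ x, kk ζ x * (ec q x).re = (∑ x, (kk ζ x : ℂ) * ec q x).re := by
    rw [Complex.re_sum]
    refine Finset.sum_congr rfl fun x _ => ?_
    rw [Complex.re_ofReal_mul]
  rw [h9]
  refine (Complex.abs_re_le_norm _).trans ?_
  rw [h5]
  refine (norm_sum_le _ _).trans (Finset.sum_le_sum fun x _ => ?_)
  rw [norm_mul, norm_mul, h3, one_mul, Complex.norm_real, Complex.norm_real,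
    Real.norm_of_nonneg (by rw [kk_eq]; positivity), Real.norm_eq_abs]

/-! ### Parseval -/

theorem ft_g0 (ral : RalStmt) (ftb : FtbStmt) {ζ : ℂ} (hζ : 0 < ζ.im) (p : Tor d M) :
    ft (g0 ζ) p = 1 / ((es p : ℂ) - ζ) := by
  obtain ⟨-, -, -, f4, -, -, f7, f8, -⟩ := ftb d M
  obtain ⟨f, hf⟩ := f8 fun p => 1 / ((es p : ℂ) - ζ)
  have h1 : g0 ζ = f := by
    funext x
    rw [g0_eq ral hζ, f7 f x, ← Equiv.sum_comp (Equiv.neg (Tor d M))]
    congr 1
    refine Finset.sum_congr rfl fun p _ => ?_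
    rw [hf, Equiv.neg_apply, es_neg, (f4 p (-x)).1, (f4 p x).2, Complex.conj_conj]
    ring
  rw [h1, hf]

theorem parseval (ral : RalStmt) (ftb : FtbStmt) {ζ : ℂ} (hζ : 0 < ζ.im) (r : Tor d M) :
    ∑ x, kk ζ x * (2 * (1 - (ec r x).re)) =
      pm fun p => ‖1 / ((es p : ℂ) - ζ) - 1 / ((es (p - r) : ℂ) - ζ)‖ ^ 2 := by
  obtain ⟨f1, -, f3, f4, -, f6, -⟩ := ftb d M
  have h1 := f6 fun x => g0 ζ x * (1 - ec r x)
  have h2 : ∀ p, ft (fun x => g0 ζ x * (1 - ec r x)) p =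
      1 / ((es p : ℂ) - ζ) - 1 / ((es (p - r) : ℂ) - ζ) := by
    intro p
    rw [← ft_g0 ral ftb hζ, ← ft_g0 ral ftb hζ]
    unfold ft
    rw [← Finset.sum_sub_distrib]
    refine Finset.sum_congr rfl fun y _ => ?_
    have h3 : (starRingEnd ℂ) (ec (p - r) y) = (starRingEnd ℂ) (ec p y) * ec r y := by
      rw [sub_eq_add_neg, f3, map_mul, (f4 r y).1, Complex.conj_conj]
    rw [h3]
    ring
  simp only [h2] at h1
  rw [← h1]
  refine Finset.sum_congr rfl fun x _ => ?_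
  rw [norm_mul, mul_pow, kk_eq]
  congr 1
  have h4 : Complex.normSq (ec r x) = 1 := by
    rw [Complex.normSq_eq_norm_sq, f1]
    norm_num
  rw [Complex.normSq_apply] at h4
  rw [← Complex.normSq_eq_norm_sq, Complex.normSq_apply]
  simp only [Complex.sub_re, Complex.sub_im, Complex.one_re, Complex.one_im]
  nlinarith

/-! ### The lower bound -/

theorem es_diff (p : Tor d M) (i : Fin d) (b : ZMod M) :
    es p - es (p - Pi.single i b) = 2 * (ZMod.stdAddChar (p i) : ℂ).re -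
      2 * (ZMod.stdAddChar (p i - b) : ℂ).re := by
  rw [es_eq, es_eq, ← Finset.sum_sub_distrib, Finset.sum_eq_single i]
  · rw [Pi.sub_apply, Pi.single_eq_same]
  · intro j _ hj
    rw [Pi.sub_apply, Pi.single_eq_of_ne hj, sub_zero, sub_self]
  · intro h
    exact absurd (Finset.mem_univ _) h

theorem es_diff' (p q : Tor d M) (i : Fin d) :
    es p - es (p - Pi.single i (2 * q i)) =
      -(4 * Real.sin (2 * Real.pi * ((q i).valMinAbs : ℝ) / M) *
        Real.sin (2 * Real.pi * ((p i).valMinAbs : ℝ) / M -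
          2 * Real.pi * ((q i).valMinAbs : ℝ) / M)) := by
  rw [es_diff]
  have h1 : (ZMod.stdAddChar (p i) : ℂ).re =
      Real.cos (2 * Real.pi * ((p i).valMinAbs : ℝ) / M) := by
    rw [← chi_re, ZMod.coe_valMinAbs]
  have h2 : (ZMod.stdAddChar (p i - 2 * q i) : ℂ).re =
      Real.cos (2 * Real.pi * (((p i).valMinAbs - 2 * (q i).valMinAbs : ℤ) : ℝ) / M) := by
    rw [← chi_re]
    congr 2
    push_cast
    rfl
  rw [h1, h2, ← mul_sub, Real.cos_sub_cos]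
  have e1 : (2 * Real.pi * ((p i).valMinAbs : ℝ) / M +
      2 * Real.pi * (((p i).valMinAbs - 2 * (q i).valMinAbs : ℤ) : ℝ) / M) / 2 =
      2 * Real.pi * ((p i).valMinAbs : ℝ) / M - 2 * Real.pi * ((q i).valMinAbs : ℝ) / M := by
    push_cast
    ring
  have e2 : (2 * Real.pi * ((p i).valMinAbs : ℝ) / M -
      2 * Real.pi * (((p i).valMinAbs - 2 * (q i).valMinAbs : ℤ) : ℝ) / M) / 2 =
      2 * Real.pi * ((q i).valMinAbs : ℝ) / M := by
    push_cast
    ring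
  rw [e1, e2]
  ring

theorem inv_diff {ζ : ℂ} {u v w : ℝ} (hw : 0 < w) (hζ : ζ.im = w) (h1 : |u - ζ.re| ≤ w)
    (h2 : |u - v| ≤ w) : (u - v) ^ 2 / (10 * w ^ 4) ≤ ‖1 / ((u : ℂ) - ζ) - 1 / ((v : ℂ) - ζ)‖ ^ 2 := by
  have n1 : Complex.normSq ((u : ℂ) - ζ) = (u - ζ.re) ^ 2 + w ^ 2 := by
    rw [Complex.normSq_apply]
    simp only [Complex.sub_re, Complex.sub_im, Complex.ofReal_re, Complex.ofReal_im, hζ]
    ring
  have n2 : Complex.normSq ((v : ℂ) - ζ) = (v - ζ.re) ^ 2 + w ^ 2 := by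
    rw [Complex.normSq_apply]
    simp only [Complex.sub_re, Complex.sub_im, Complex.ofReal_re, Complex.ofReal_im, hζ]
    ring
  have p1 : 0 < Complex.normSq ((u : ℂ) - ζ) := by rw [n1]; positivity
  have p2 : 0 < Complex.normSq ((v : ℂ) - ζ) := by rw [n2]; positivity
  have u0 : (u : ℂ) - ζ ≠ 0 := Complex.normSq_pos.1 p1
  have v0 : (v : ℂ) - ζ ≠ 0 := Complex.normSq_pos.1 p2
  have e1 : 1 / ((u : ℂ) - ζ) - 1 / ((v : ℂ) - ζ) = ((v - u : ℝ) : ℂ) / (((u : ℂ) - ζ) * ((v : ℂ) - ζ)) := by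
    field_simp
    push_cast
    ring
  have e2 : ‖1 / ((u : ℂ) - ζ) - 1 / ((v : ℂ) - ζ)‖ ^ 2 =
      (u - v) ^ 2 / (Complex.normSq ((u : ℂ) - ζ) * Complex.normSq ((v : ℂ) - ζ)) := by
    rw [← Complex.normSq_eq_norm_sq, e1, Complex.normSq_div, Complex.normSq_mul,
      Complex.normSq_ofReal]
    congr 1
    ring
  rw [e2]
  have b1 : Complex.normSq ((u : ℂ) - ζ) ≤ 2 * w ^ 2 := by
    rw [n1]
    have := sq_le_sq' (abs_le.1 h1).1 (abs_le.1 h1).2
    linarith only [this]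
  have b2 : Complex.normSq ((v : ℂ) - ζ) ≤ 5 * w ^ 2 := by
    rw [n2]
    have h3 : |v - ζ.re| ≤ 2 * w := by
      rw [abs_le] at h1 h2 ⊢
      constructor <;> linarith only [h1.1, h1.2, h2.1, h2.2]
    have := sq_le_sq' (abs_le.1 h3).1 (abs_le.1 h3).2
    nlinarith only [this]
  apply div_le_div_of_nonneg_left (sq_nonneg _) (mul_pos p1 p2)
  calc _ ≤ (2 * w ^ 2) * (5 * w ^ 2) := mul_le_mul b1 b2 p2.le (by positivity)
    _ = 10 * w ^ 4 := by ring

theorem sin_sq_ge {a : ℝ} (h : |a| ≤ 1) : a ^ 2 / 4 ≤ Real.sin a ^ 2 := by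
  have hpi := Real.pi_pos
  have hpi3 := Real.pi_gt_three
  have hpi4 := Real.pi_le_four
  have h1 : 2 / Real.pi * |a| ≤ Real.sin |a| := Real.mul_le_sin (abs_nonneg a) (by linarith only [h, hpi3])
  have h2 : 1 / 2 * |a| ≤ Real.sin |a| := by
    refine le_trans (mul_le_mul_of_nonneg_right ?_ (abs_nonneg a)) h1
    rw [div_le_div_iff₀ (by norm_num) hpi]
    linarith
  have h3 : Real.sin |a| ^ 2 = Real.sin a ^ 2 := by
    rcases abs_choice a with h | h
    · rw [h]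
    · rw [h, Real.sin_neg, neg_sq]
  rw [← h3]
  have h4 : (1 / 2 * |a|) ^ 2 ≤ Real.sin |a| ^ 2 := pow_le_pow_left₀ (by positivity) h2 2
  rw [mul_pow, sq_abs] at h4
  linarith only [h4]

/-- row GAP -/
theorem gap (ral : RalStmt) (dsu : DsuStmt) (dsl : DslStmt) (ftb : FtbStmt) : GapStmt := by
  intro d δ hd hδ
  obtain ⟨C₁, hC₁, hdsu⟩ := dsu d hd
  obtain ⟨c₁, C₂, hc₁, hc₁', hC₂, hdsl⟩ := dsl d δ hd hδ
  have hd0 : (0 : ℝ) < d := by exact_mod_cast (by omega : 0 < d)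
  have hpi := Real.pi_pos
  obtain ⟨c, hc⟩ : ∃ c : ℝ, c = min (1 / 4) (min c₁ (c₁ / (20 * C₁ * d))) := ⟨_, rfl⟩
  have hc0 : 0 < c := by
    rw [hc]
    exact lt_min (by norm_num) (lt_min hc₁ (by positivity))
  have hc2 : c ≤ 1 / 4 := hc ▸ min_le_left _ _
  have hc3 : c ≤ c₁ := hc ▸ (min_le_right _ _).trans (min_le_left _ _)
  have hc4 : c ≤ c₁ / (20 * C₁ * d) := hc ▸ (min_le_right _ _).trans (min_le_right _ _)
  refine ⟨c, max C₁ C₂, hc0, by linarith only [hc0, hc2], hC₁.trans (le_max_left _ _), ?_⟩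
  intro M hM ζ hre him hle hMw q hq
  obtain ⟨w, hw⟩ : ∃ w, w = ζ.im := ⟨_, rfl⟩
  rw [← hw] at him hle hMw hq ⊢
  have hζ : 0 < ζ.im := hw ▸ him
  have hM0 : (0 : ℝ) < M := by exact_mod_cast Nat.pos_of_ne_zero (NeZero.ne M)
  have hM1 : C₁ / w ≤ M := by
    refine le_trans ?_ hMw
    gcongr
    exact le_max_left _ _
  have hM2 : C₂ / w ≤ M := by
    refine le_trans ?_ hMw
    gcongr
    exact le_max_right _ _
  have hw1 : w ≤ 1 := by linarith only [hc0, hc2, hle]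
  have hK0 : 0 ≤ ∑ x : Tor d M, kk ζ x := Finset.sum_nonneg fun x _ => by
    rw [kk_eq]
    positivity
  -- the upper bound for the sum of the kernel
  have hK : ∑ x : Tor d M, kk ζ x ≤ C₁ / w := by
    obtain ⟨-, -, -, -, h5, -, -, -, -, -, h11, -⟩ := ral d M 0 ζ hζ
    have h1 : ∑ x : Tor d M, kk ζ x = (rs (0 : Tor d M → ℝ) ζ 0 0).im / ζ.im := h5 0
    rw [h1, ← hw]
    refine div_le_div_of_nonneg_right ?_ him.le
    refine le_trans (le_of_eq ?_) (hdsu M ζ.re w him hw1 hM1).1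
    rw [h11]
    unfold pm
    have e1 : ((M : ℂ) ^ d) = (((M : ℝ) ^ d : ℝ) : ℂ) := by push_cast; rfl
    rw [e1, Complex.div_ofReal_im, Complex.im_sum]
    congr 1
    refine Finset.sum_congr rfl fun p _ => ?_
    have e2 : ec p (0 - 0 : Tor d M) = 1 := by
      unfold ec
      simp
    rw [e2, one_div, Complex.inv_im, Complex.normSq_apply]
    simp only [Complex.sub_re, Complex.sub_im, Complex.ofReal_re, Complex.ofReal_im, ← hw]
    congr 1
    · ring
    · ring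
  -- one coordinate
  have hone : ∀ i, |∑ x, kk ζ x * (ec q x).re| ≤ (∑ x : Tor d M, kk ζ x) -
      c₁ / (20 * C₁) * ((2 * Real.pi / M) ^ 2 * ((q i).valMinAbs : ℝ) ^ 2 / w ^ 2) *
        ∑ x : Tor d M, kk ζ x := by
    intro i
    obtain ⟨a, ha⟩ : ∃ a : ℝ, a = 2 * Real.pi * ((q i).valMinAbs : ℝ) / M := ⟨_, rfl⟩
    have ha1 : |a| ≤ c * w := by
      rw [ha, abs_div, abs_mul, abs_of_pos (by positivity : 0 < 2 * Real.pi), abs_of_pos hM0,
        div_le_iff₀ hM0]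
      exact hq i
    have ha2 : |a| ≤ 1 := ha1.trans (by nlinarith only [hc0, hc2, hle])
    have h1 := refl_bound ral hζ q i
    have h2 : ∑ x : Tor d M, kk ζ x * (2 * (1 - (ec (Pi.single i (2 * q i)) x).re)) / 8 ≤
        (∑ x : Tor d M, kk ζ x) - ∑ x, kk ζ x * |(ZMod.stdAddChar (q i * x i) : ℂ).re| := by
      rw [← Finset.sum_sub_distrib]
      refine Finset.sum_le_sum fun x _ => ?_
      have e1 : ec (Pi.single i (2 * q i)) x = ZMod.stdAddChar (2 * (q i * x i)) := by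
        unfold ec
        rw [Finset.prod_eq_single i]
        · rw [Pi.single_eq_same, mul_assoc]
        · intro j _ hj
          rw [Pi.single_eq_of_ne hj, zero_mul, AddChar.map_zero_eq_one]
        · intro h
          exact absurd (Finset.mem_univ _) h
      rw [e1]
      have e2 := chi_gap (q i * x i)
      have e3 : 0 ≤ kk ζ x := by
        rw [kk_eq]
        positivity
      nlinarith only [hc0, hc2, hM, e2, e3]
    rw [← Finset.sum_div, parseval ral ftb hζ] at h2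
    have h3 : 16 * Real.sin a ^ 2 / (10 * w ^ 4) * (c₁ * w) ≤ pm fun p : Tor d M =>
        ‖1 / ((es p : ℂ) - ζ) - 1 / ((es (p - Pi.single i (2 * q i)) : ℂ) - ζ)‖ ^ 2 := by
      have h4 := hdsl M ζ.re w a i hre him (hle.trans hc3) hM2
      refine (mul_le_mul_of_nonneg_left h4 (by positivity)).trans ?_
      unfold pm
      rw [mul_div_assoc', Finset.mul_sum]
      refine div_le_div_of_nonneg_right (Finset.sum_le_sum fun p _ => ?_) (by positivity)
      split_ifs with h5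
      · have h6 := es_diff' p q i
        rw [← ha] at h6
        have h7 : |es p - es (p - Pi.single i (2 * q i))| ≤ w := by
          rw [h6, abs_neg, abs_mul, abs_mul]
          have s1 : |Real.sin a| ≤ |a| := Real.abs_sin_le_abs
          have s2 : |Real.sin (2 * Real.pi * ((p i).valMinAbs : ℝ) / M - a)| ≤ 1 :=
            Real.abs_sin_le_one _
          have s3 : |(4 : ℝ)| = 4 := by norm_num
          rw [s3]
          calc 4 * |Real.sin a| * |Real.sin (2 * Real.pi * ((p i).valMinAbs : ℝ) / M - a)| ≤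
              4 * (c * w) * 1 := by
                refine mul_le_mul (mul_le_mul_of_nonneg_left (s1.trans ha1) (by norm_num)) s2
                  (abs_nonneg _) (by positivity)
            _ ≤ w := by nlinarith only [hc2, him]
        refine le_trans (le_of_eq ?_) (inv_diff him hw.symm h5 h7)
        rw [h6]
        ring
      · rw [mul_zero]
        positivity
    have h4 := sin_sq_ge ha2
    have h5 : c₁ / 20 * (a ^ 2 / w ^ 3) ≤ (∑ x : Tor d M, kk ζ x) -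
        ∑ x, kk ζ x * |(ZMod.stdAddChar (q i * x i) : ℂ).re| := by
      refine le_trans ?_ h2
      refine le_trans ?_ (div_le_div_of_nonneg_right h3 (by norm_num))
      have e1 : c₁ / 20 * (a ^ 2 / w ^ 3) = 16 * (a ^ 2 / 4) / (10 * w ^ 4) * (c₁ * w) / 8 := by
        field_simp
        ring
      rw [e1]
      gcongr
    have h6 : c₁ / (20 * C₁) * ((2 * Real.pi / M) ^ 2 * ((q i).valMinAbs : ℝ) ^ 2 / w ^ 2) *
        ∑ x : Tor d M, kk ζ x ≤ c₁ / 20 * (a ^ 2 / w ^ 3) := by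
      have e1 : (2 * Real.pi / M) ^ 2 * ((q i).valMinAbs : ℝ) ^ 2 = a ^ 2 := by
        rw [ha]
        ring
      rw [e1]
      refine (mul_le_mul_of_nonneg_left hK (by positivity)).trans (le_of_eq ?_)
      field_simp
    linarith only [hM, h1, h5, h6]
  -- the mean over the coordinates
  obtain ⟨B, hB⟩ : ∃ B, B = |∑ x, kk ζ x * (ec q x).re| := ⟨_, rfl⟩
  obtain ⟨K, hKd⟩ : ∃ K, K = ∑ x : Tor d M, kk ζ x := ⟨_, rfl⟩
  rw [← hB] at hone
  rw [← hKd] at hone hK0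
  have hsum : (d : ℝ) * B ≤ d * K - c₁ / (20 * C₁) *
      ((2 * Real.pi / M) ^ 2 * (∑ i, ((q i).valMinAbs : ℝ) ^ 2) / w ^ 2) * K := by
    have h1 := Finset.sum_le_sum fun i (_ : i ∈ (Finset.univ : Finset (Fin d))) => hone i
    rw [Finset.sum_const, Finset.card_univ, Fintype.card_fin, nsmul_eq_mul,
      Finset.sum_sub_distrib, Finset.sum_const, Finset.card_univ, Fintype.card_fin,
      nsmul_eq_mul, ← Finset.sum_mul, ← Finset.mul_sum, ← Finset.sum_div, ← Finset.mul_sum] at h1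
    exact h1
  show |∑ x, kk ζ x * (ec q x).re| ≤
      (1 - c * (2 * Real.pi / M) ^ 2 * (∑ i, ((q i).valMinAbs : ℝ) ^ 2) / w ^ 2) *
        ∑ x : Tor d M, kk ζ x
  rw [← hB, ← hKd]
  obtain ⟨S, hS⟩ : ∃ S, S = (2 * Real.pi / M) ^ 2 * (∑ i, ((q i).valMinAbs : ℝ) ^ 2) / w ^ 2 :=
    ⟨_, rfl⟩
  have hS0 : 0 ≤ S := by
    rw [hS]
    have : 0 ≤ ∑ i, ((q i).valMinAbs : ℝ) ^ 2 := Finset.sum_nonneg fun i _ => sq_nonneg _
    positivity
  rw [← hS] at hsum
  have e1 : c * (2 * Real.pi / M) ^ 2 * (∑ i, ((q i).valMinAbs : ℝ) ^ 2) / w ^ 2 = c * S := by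
    rw [hS]
    ring
  rw [e1]
  have e2 : c * S * K ≤ c₁ / (20 * C₁ * d) * S * K :=
    mul_le_mul_of_nonneg_right (mul_le_mul_of_nonneg_right hc4 hS0) hK0
  have e3 : c₁ / (20 * C₁) * S * K = d * (c₁ / (20 * C₁ * d) * S * K) := by
    field_simp
  rw [e3, ← mul_sub] at hsum
  have e4 := le_of_mul_le_mul_left hsum hd0
  linarith only [e2, e4]

end Pool.Agent.LE.QD.H51
end
end -- Pool.Agent.Helper51_LQD.GAP

section -- Pool.Agent.Helper63_LQZ.IXU

/-!
# LQZ, row IXU: the smallest momentum, initially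
-/

set_option autoImplicit false

open MeasureTheory ProbabilityTheory

open scoped ENNReal BigOperators NNReal Matrix ComplexConjugate

noncomputable section

namespace Pool.Agent.LE.QZ.H63

open Pool.Agent.Anderson hiding box mem_box card_box
open Pool.Agent.Loc Pool.Agent.Mob Pool.Agent.Helper54.Bal
  Pool.Agent.Helper96.EXP Pool.Agent.BED
open Pool.Agent.LE.MN Pool.Agent.LE.CL Pool.Agent.LE.IR Pool.Agent.LE.QD Pool.Agent.LE.QF

variable {d M : ℕ} [NeZero M]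

theorem chi_one_sub : ‖(1 : ℂ) - (ZMod.stdAddChar (1 : ZMod M) : ℂ)‖ ≤ 2 * Real.pi / M := by
  have hM : (0 : ℝ) < M := Nat.cast_pos.2 (Nat.pos_of_ne_zero (NeZero.ne M))
  have h1 : (ZMod.stdAddChar (1 : ZMod M) : ℂ) =
      Complex.exp (Complex.I * ((2 * Real.pi / M : ℝ) : ℂ)) := by
    have := ZMod.stdAddChar_coe (N := M) 1
    rw [Int.cast_one] at this
    rw [this]
    congr 1
    push_cast
    ring
  rw [h1, norm_sub_rev]
  refine (Real.norm_exp_I_mul_ofReal_sub_one_le (x := 2 * Real.pi / M)).trans ?_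
  rw [Real.norm_eq_abs, abs_of_nonneg (by positivity)]

theorem es_step (k : Tor d M) (i : Fin d) : |es k - es (k + Pi.single i 1)| ≤ 4 * Real.pi / M := by
  rw [QD.H51.es_eq, QD.H51.es_eq, ← Finset.sum_sub_distrib, Finset.sum_eq_single i]
  · have h1 : (ZMod.stdAddChar ((k + Pi.single i 1 : Tor d M) i) : ℂ) =
        ZMod.stdAddChar (k i) * ZMod.stdAddChar (1 : ZMod M) := by
      rw [Pi.add_apply, Pi.single_eq_same, AddChar.map_add_eq_mul]
    have h2 : 2 * (ZMod.stdAddChar (k i) : ℂ).re -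
        2 * (ZMod.stdAddChar ((k + Pi.single i 1 : Tor d M) i) : ℂ).re =
        2 * ((ZMod.stdAddChar (k i) : ℂ) * (1 - ZMod.stdAddChar (1 : ZMod M))).re := by
      rw [h1, mul_sub, mul_one, Complex.sub_re]
      ring
    rw [h2, abs_mul, abs_of_pos (by norm_num : (0 : ℝ) < 2)]
    have h3 := Complex.abs_re_le_norm ((ZMod.stdAddChar (k i) : ℂ) *
      (1 - ZMod.stdAddChar (1 : ZMod M)))
    rw [norm_mul, QD.H51.chi_norm, one_mul] at h3
    have h4 := chi_one_sub (M := M)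
    have h5 : 4 * Real.pi / M = 2 * (2 * Real.pi / M) := by ring
    rw [h5]
    linarith
  · intro j _ hj
    rw [Pi.add_apply, Pi.single_eq_of_ne hj, add_zero, sub_self]
  · intro h
    exact absurd (Finset.mem_univ i) h

theorem card_tor' : (Fintype.card (Tor d M) : ℝ) = (M : ℝ) ^ d := by
  have : Fintype.card (Tor d M) = M ^ d := by
    show Fintype.card (Fin d → ZMod M) = M ^ d
    rw [Fintype.card_fun, ZMod.card, Fintype.card_fin]
  rw [this, Nat.cast_pow]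

theorem qf_Dl {X : Type} [Fintype X] [DecidableEq X] (K : Matrix X X ℝ) (f : X → ℝ) :
    qf (Dl K) f = ∑ a, ∑ b, K a b * (f a * f a - f a * f b) := by
  unfold QF.qf Dl
  refine Finset.sum_congr rfl fun a _ => ?_
  rw [Matrix.sub_mulVec, Pi.sub_apply, Matrix.mulVec_diagonal, Matrix.mulVec, dotProduct,
    mul_sub, Finset.mul_sum, Finset.sum_mul, Finset.mul_sum, ← Finset.sum_sub_distrib]
  refine Finset.sum_congr rfl fun b _ => ?_
  ring

/-- the form at the character -/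
theorem qf_ec (ral : RalStmt) {ζ : ℂ} (hζ : 0 < ζ.im) (p : Tor d M) :
    qf (Dl (KK (rs (0 : Tor d M → ℝ) ζ))) (fun x => (ec p x).re) +
      qf (Dl (KK (rs (0 : Tor d M → ℝ) ζ))) (fun x => (ec p x).im) =
        (M : ℝ) ^ d * (kf ζ (0 : Tor d M) - kf ζ p) := by
  rw [qf_Dl, qf_Dl, ← Finset.sum_add_distrib]
  have h1 : ∀ a : Tor d M, (∑ b, KK (rs (0 : Tor d M → ℝ) ζ) a b *
        ((ec p a).re * (ec p a).re - (ec p a).re * (ec p b).re) +
      ∑ b, KK (rs (0 : Tor d M → ℝ) ζ) a b *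
        ((ec p a).im * (ec p a).im - (ec p a).im * (ec p b).im)) = kf ζ (0 : Tor d M) - kf ζ p := by
    intro a
    rw [← Finset.sum_add_distrib, ← Equiv.sum_comp (Equiv.addLeft a)]
    unfold kf
    rw [← Finset.sum_sub_distrib]
    refine Finset.sum_congr rfl fun z _ => ?_
    rw [Equiv.coe_addLeft, QF.H49.ec_zero, Complex.one_re]
    have h2 : KK (rs (0 : Tor d M → ℝ) ζ) a (a + z) = kk ζ z := by
      unfold KK kk
      rw [QF.H49.rs_diff ral hζ (x' := 0) (y' := z) (by abel)]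
    have h3 : (ec p a).re * (ec p a).re + (ec p a).im * (ec p a).im = 1 := by
      rw [← Complex.normSq_apply, Complex.normSq_eq_norm_sq, IR.H54.ec_norm, one_pow]
    rw [h2, IR.H54.ec_add, Complex.mul_re, Complex.mul_im]
    linear_combination (kk ζ z - kk ζ z * (ec p z).re) * h3
  rw [Finset.sum_congr rfl fun a _ => h1 a, Finset.sum_const, Finset.card_univ, nsmul_eq_mul,
    card_tor']

theorem inv_norm_le {ζ : ℂ} (hζ : 0 < ζ.im) (e : ℝ) : ‖((e : ℂ) - ζ)⁻¹‖ ≤ 1 / ζ.im := by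
  rw [norm_inv, inv_eq_one_div]
  apply one_div_le_one_div_of_le hζ
  have := Complex.abs_im_le_norm ((e : ℂ) - ζ)
  rw [Complex.sub_im, Complex.ofReal_im, zero_sub, abs_neg, abs_of_pos hζ] at this
  exact this

theorem inv_ne {ζ : ℂ} (hζ : 0 < ζ.im) (e : ℝ) : ((e : ℂ) - ζ) ≠ 0 := by
  intro h
  have := congrArg Complex.im h
  rw [Complex.sub_im, Complex.ofReal_im, zero_sub, Complex.zero_im] at this
  linarith

theorem inv_diff {ζ : ℂ} (hζ : 0 < ζ.im) {e f c : ℝ} (h : |e - f| ≤ c) :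
    ‖((e : ℂ) - ζ)⁻¹ - ((f : ℂ) - ζ)⁻¹‖ ≤ c / ζ.im * ‖((e : ℂ) - ζ)⁻¹‖ := by
  have n1 := inv_ne hζ e
  have n2 := inv_ne hζ f
  have e1 : ((e : ℂ) - ζ)⁻¹ - ((f : ℂ) - ζ)⁻¹ =
      ((f - e : ℝ) : ℂ) * ((e : ℂ) - ζ)⁻¹ * ((f : ℂ) - ζ)⁻¹ := by
    rw [inv_sub_inv n1 n2, div_eq_mul_inv, mul_inv]
    push_cast
    ring
  rw [e1, norm_mul, norm_mul, Complex.norm_real, Real.norm_eq_abs, abs_sub_comm]
  have e3 := inv_norm_le hζ f
  have hc : 0 ≤ c := (abs_nonneg _).trans h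
  calc |e - f| * ‖((e : ℂ) - ζ)⁻¹‖ * ‖((f : ℂ) - ζ)⁻¹‖
      ≤ c * ‖((e : ℂ) - ζ)⁻¹‖ * (1 / ζ.im) := by gcongr
    _ = c / ζ.im * ‖((e : ℂ) - ζ)⁻¹‖ := by ring

theorem sum_aux {X : Type} [Fintype X] (a : X → ℂ) (σ : X ≃ X) {β : ℝ}
    (h : ∀ k, ‖a k - a (σ k)‖ ≤ β * ‖a k‖) :
    ∑ k, ‖a k‖ ^ 2 - ∑ k, (a k * conj (a (σ k))).re ≤ β ^ 2 / 2 * ∑ k, ‖a k‖ ^ 2 := by
  have shift : ∑ k, ‖a (σ k)‖ ^ 2 = ∑ k, ‖a k‖ ^ 2 := Equiv.sum_comp σ fun k => ‖a k‖ ^ 2
  have key : ∑ k, ‖a k‖ ^ 2 - ∑ k, (a k * conj (a (σ k))).re =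
      (1 / 2) * ∑ k, ‖a k - a (σ k)‖ ^ 2 := by
    have e5 : ∀ k, ‖a k - a (σ k)‖ ^ 2 = ‖a k‖ ^ 2 +
        ‖a (σ k)‖ ^ 2 - 2 * (a k * conj (a (σ k))).re := by
      intro k
      rw [← Complex.normSq_eq_norm_sq, Complex.normSq_sub, Complex.normSq_eq_norm_sq,
        Complex.normSq_eq_norm_sq]
    rw [Finset.sum_congr rfl fun k _ => e5 k, Finset.sum_sub_distrib, Finset.sum_add_distrib,
      shift, ← Finset.mul_sum]
    ring
  rw [key, Finset.mul_sum, Finset.mul_sum]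
  refine Finset.sum_le_sum fun k _ => ?_
  have h7 : ‖a k - a (σ k)‖ ^ 2 ≤ (β * ‖a k‖) ^ 2 := pow_le_pow_left₀ (norm_nonneg _) (h k) 2
  rw [mul_pow] at h7
  linarith only [h7]

theorem kf_sub (kft : KftStmt) {ζ : ℂ} (hζ : 0 < ζ.im) (p : Tor d M) {c : ℝ}
    (hc : ∀ k : Tor d M, |es k - es (k + p)| ≤ c) :
    kf ζ (0 : Tor d M) - kf ζ p ≤ (c / ζ.im) ^ 2 / 2 * kf ζ (0 : Tor d M) := by
  obtain ⟨h1, -⟩ := kft d M ζ hζ
  have hM : (0 : ℝ) < M := Nat.cast_pos.2 (Nat.pos_of_ne_zero (NeZero.ne M))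
  have hMd : (0 : ℝ) < (M : ℝ) ^ d := pow_pos hM d
  have hcast : ((M : ℂ) ^ d) = (((M : ℝ) ^ d : ℝ) : ℂ) := by push_cast; rfl
  have kp : ∀ q : Tor d M, kf ζ q = (∑ k : Tor d M, (((es k : ℂ) - ζ)⁻¹ *
      conj (((es (k + q) : ℂ) - ζ)⁻¹)).re) / (M : ℝ) ^ d := by
    intro q
    rw [h1, kh, hcast, Complex.div_ofReal_re, Complex.re_sum]
  have k0 : kf ζ (0 : Tor d M) =
      (∑ k : Tor d M, ‖((es k : ℂ) - ζ)⁻¹‖ ^ 2) / (M : ℝ) ^ d := by
    rw [kp 0]
    congr 1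
    refine Finset.sum_congr rfl fun k _ => ?_
    rw [add_zero, Complex.mul_conj', ← Complex.ofReal_pow, Complex.ofReal_re]
  have key := sum_aux (fun k : Tor d M => ((es k : ℂ) - ζ)⁻¹) (Equiv.addRight p)
    (β := c / ζ.im) (fun k => inv_diff hζ (hc k))
  rw [kp p, k0, ← sub_div, mul_div_assoc', div_le_div_iff_of_pos_right hMd]
  exact key

theorem ixu (ral : RalStmt) (kft : KftStmt) : IxuStmt := by
  intro d M _ ζ τ i hζ hτ h1
  have hM : (0 : ℝ) < M := Nat.cast_pos.2 (Nat.pos_of_ne_zero (NeZero.ne M))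
  have hs : ∀ f : Tor d M → ℝ, qf (τ • Dl (KK (rs (0 : Tor d M → ℝ) ζ))) f =
      τ * qf (Dl (KK (rs (0 : Tor d M → ℝ) ζ))) f := by
    intro f
    unfold QF.qf
    rw [Finset.mul_sum]
    refine Finset.sum_congr rfl fun a _ => ?_
    rw [Matrix.smul_mulVec, Pi.smul_apply, smul_eq_mul]
    ring
  rw [hs, hs, ← mul_add, qf_ec ral hζ]
  have h2 := kf_sub (M := M) kft hζ (Pi.single i 1 : Tor d M) (fun k => es_step k i)
  have hMd : (0 : ℝ) < (M : ℝ) ^ d := by positivity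
  have hpi : 8 * Real.pi ^ 2 ≤ 100 := by
    have := Real.pi_lt_d2
    have h0 := Real.pi_pos
    nlinarith only [this, h0]
  have h3 : (4 * Real.pi / M / ζ.im) ^ 2 / 2 = 8 * Real.pi ^ 2 / (M * ζ.im) ^ 2 := by
    rw [div_div, div_pow]
    ring
  rw [h3] at h2
  calc τ * ((M : ℝ) ^ d * (kf ζ (0 : Tor d M) - kf ζ (Pi.single i 1 : Tor d M)))
      ≤ τ * ((M : ℝ) ^ d * (8 * Real.pi ^ 2 / (M * ζ.im) ^ 2 * kf ζ (0 : Tor d M))) :=
        mul_le_mul_of_nonneg_left (mul_le_mul_of_nonneg_left h2 hMd.le) hτ.le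
    _ = (τ * kf ζ (0 : Tor d M)) * ((8 * Real.pi ^ 2) * (M : ℝ) ^ d / (M * ζ.im) ^ 2) := by ring
    _ = (8 * Real.pi ^ 2) * (M : ℝ) ^ d / (M * ζ.im) ^ 2 := by rw [h1, one_mul]
    _ ≤ 100 * (M : ℝ) ^ d / (M * ζ.im) ^ 2 :=
        div_le_div_of_nonneg_right (mul_le_mul_of_nonneg_right hpi hMd.le) (sq_nonneg _)

end Pool.Agent.LE.QZ.H63
end
end -- Pool.Agent.Helper63_LQZ.IXU

section -- Pool.Agent.Helper54_ANI.SYM

/-!
# ANI, row SYM: the symbol of the first network, two sided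
-/

set_option autoImplicit false

open MeasureTheory ProbabilityTheory Function Filter

open scoped ENNReal BigOperators Topology NNReal ComplexOrder Matrix

noncomputable section

namespace Pool.Agent.ANI.H54

open Pool.Agent.Anderson hiding box mem_box card_box
open Pool.Agent.Loc Pool.Agent.Mob Pool.Agent.Helper54.Bal
  Pool.Agent.Helper96.EXP Pool.Agent.BED
open Pool.Agent.LE Pool.Agent.LE.MN Pool.Agent.LE.CL Pool.Agent.LE.IR Pool.Agent.LE.QD
  Pool.Agent.LE.QF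

variable {d M : ℕ} [NeZero M]

/-- `ds` by characters -/
theorem ds_char (p : Tor d M) :
    ds p = ∑ j, ‖(1 : ℂ) - (ZMod.stdAddChar (p j) : ℂ)‖ ^ 2 := by
  have h1 := QD.H51.es_eq p
  unfold es at h1
  have h2 : ∀ j, ‖(1 : ℂ) - (ZMod.stdAddChar (p j) : ℂ)‖ ^ 2 =
      2 - 2 * (ZMod.stdAddChar (p j) : ℂ).re := by
    intro j
    rw [← Complex.normSq_eq_norm_sq, Complex.normSq_sub, Complex.normSq_eq_norm_sq,
      Complex.normSq_eq_norm_sq, QD.H51.chi_norm]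
    simp
    ring
  rw [Finset.sum_congr rfl fun j _ => h2 j, Finset.sum_sub_distrib, ← h1]
  simp
  ring

/-- the change of the symbol by a shift -/
theorem es_shift (k p : Tor d M) : |es k - es (k + p)| ≤ Real.sqrt (4 * d * ds p) := by
  apply Real.le_sqrt_of_sq_le
  rw [sq_abs, QD.H51.es_eq, QD.H51.es_eq, ← Finset.sum_sub_distrib]
  have h1 : ∀ j, (2 * (ZMod.stdAddChar (k j) : ℂ).re -
      2 * (ZMod.stdAddChar ((k + p : Tor d M) j) : ℂ).re) ^ 2 ≤
      4 * ‖(1 : ℂ) - (ZMod.stdAddChar (p j) : ℂ)‖ ^ 2 := by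
    intro j
    have e1 : (ZMod.stdAddChar ((k + p : Tor d M) j) : ℂ) =
        ZMod.stdAddChar (k j) * ZMod.stdAddChar (p j) := by
      rw [Pi.add_apply, AddChar.map_add_eq_mul]
    have e2 : 2 * (ZMod.stdAddChar (k j) : ℂ).re -
        2 * (ZMod.stdAddChar ((k + p : Tor d M) j) : ℂ).re =
        2 * ((ZMod.stdAddChar (k j) : ℂ) * (1 - ZMod.stdAddChar (p j))).re := by
      rw [e1, mul_sub, mul_one, Complex.sub_re]
      ring
    have e3 := Complex.abs_re_le_norm ((ZMod.stdAddChar (k j) : ℂ) * (1 - ZMod.stdAddChar (p j)))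
    rw [norm_mul, QD.H51.chi_norm, one_mul] at e3
    have e4 := pow_le_pow_left₀ (abs_nonneg _) e3 2
    rw [sq_abs] at e4
    rw [e2, mul_pow]
    linarith only [e4]
  calc (∑ j, (2 * (ZMod.stdAddChar (k j) : ℂ).re -
        2 * (ZMod.stdAddChar ((k + p : Tor d M) j) : ℂ).re)) ^ 2
      ≤ (Finset.univ : Finset (Fin d)).card * ∑ j, (2 * (ZMod.stdAddChar (k j) : ℂ).re -
        2 * (ZMod.stdAddChar ((k + p : Tor d M) j) : ℂ).re) ^ 2 := sq_sum_le_card_mul_sum_sq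
    _ ≤ (Finset.univ : Finset (Fin d)).card *
        ∑ j, 4 * ‖(1 : ℂ) - (ZMod.stdAddChar (p j) : ℂ)‖ ^ 2 :=
        mul_le_mul_of_nonneg_left (Finset.sum_le_sum fun j _ => h1 j) (Nat.cast_nonneg _)
    _ = 4 * d * ds p := by
        rw [← Finset.mul_sum, ← ds_char, Finset.card_univ, Fintype.card_fin]
        ring

theorem ds_nn (p : Tor d M) : 0 ≤ ds p := by
  rw [ds_char]
  exact Finset.sum_nonneg fun _ _ => by positivity

theorem kf_abs (ζ : ℂ) (p : Tor d M) : |kf ζ p| ≤ kf ζ (0 : Tor d M) := by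
  unfold kf
  refine (Finset.abs_sum_le_sum_abs _ _).trans (Finset.sum_le_sum fun x _ => ?_)
  rw [abs_mul, QF.H49.ec_zero, Complex.one_re, mul_one]
  have h0 : 0 ≤ kk ζ x := by
    unfold kk
    positivity
  rw [abs_of_nonneg h0]
  have h1 := Complex.abs_re_le_norm (ec p x)
  rw [IR.H54.ec_norm] at h1
  exact mul_le_of_le_one_right h0 h1

theorem min_frac {x : ℝ} (hx : 0 ≤ x) : x / (1 + x) ≤ min 1 x := by
  apply le_min
  · rw [div_le_one (by positivity)]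
    linarith only
  · exact div_le_self hx (by linarith only [hx])

/-- `1 + log (1/w) ≤ 4 w^(-1/4)` -/
theorem log_quarter {w : ℝ} (hw : 0 < w) :
    (1 + Real.log (1 / w)) * Real.sqrt w ≤ 4 * w ^ ((1 : ℝ) / 4) := by
  have h1 : Real.log (1 / w) = 4 * Real.log ((1 / w) ^ ((1 : ℝ) / 4)) := by
    rw [Real.log_rpow (by positivity)]
    ring
  have h2 := Real.log_le_sub_one_of_pos (show 0 < (1 / w) ^ ((1 : ℝ) / 4) by positivity)
  have h3 : 1 + Real.log (1 / w) ≤ 4 * (1 / w) ^ ((1 : ℝ) / 4) := by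
    rw [h1]
    linarith only [h2]
  calc (1 + Real.log (1 / w)) * Real.sqrt w ≤ 4 * (1 / w) ^ ((1 : ℝ) / 4) * Real.sqrt w :=
        mul_le_mul_of_nonneg_right h3 (Real.sqrt_nonneg _)
    _ = 4 * w ^ ((1 : ℝ) / 4) := by
        rw [one_div, Real.inv_rpow hw.le, ← Real.rpow_neg hw.le, Real.sqrt_eq_rpow, mul_assoc,
          ← Real.rpow_add hw]
        norm_num

/-- the sine of a large momentum -/
theorem sin_big {n : ℤ} (hn : (M : ℝ) < 8 * |(n : ℝ)|) (hn2 : 2 * |(n : ℝ)| ≤ M) :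
    1 / 4 ≤ |Real.sin (Real.pi * (n : ℝ) / M)| := by
  have hM : (0 : ℝ) < M := Nat.cast_pos.2 (Nat.pos_of_ne_zero (NeZero.ne M))
  have hpi := Real.pi_pos
  have h1 : |Real.sin (Real.pi * (n : ℝ) / M)| = |Real.sin (Real.pi * |(n : ℝ)| / M)| := by
    rcases abs_choice (n : ℝ) with h | h
    · rw [h]
    · rw [h, mul_neg, neg_div, Real.sin_neg, abs_neg]
  rw [h1]
  have h2 : 0 ≤ Real.pi * |(n : ℝ)| / M := by positivity
  have h3 : Real.pi * |(n : ℝ)| / M ≤ Real.pi / 2 := by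
    rw [div_le_iff₀ hM]
    nlinarith only [hn2, hpi]
  have h4 := Real.mul_le_sin h2 h3
  refine le_trans ?_ (le_abs_self _)
  refine le_trans ?_ h4
  have h5 : 2 / Real.pi * (Real.pi * |(n : ℝ)| / M) = 2 * |(n : ℝ)| / M := by
    field_simp
  rw [h5, le_div_iff₀ hM]
  linarith only [hn]

theorem sym (gal : GalStmt) (khb : KhbStmt) (kft : KftStmt) : SymStmt := by
  intro d a b hd ha hb
  obtain ⟨c₁, C₁, hc₁, hc₁', hC₁, hgal⟩ := gal d a hd ha
  obtain ⟨C₂, hC₂, hkhb⟩ := khb d hd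
  have hC₂0 : 0 < C₂ := lt_of_lt_of_le one_pos hC₂
  obtain ⟨w₀, hw₀⟩ : ∃ w₀ : ℝ, w₀ = (b / (16 * C₂)) ^ 4 := ⟨_, rfl⟩
  have hw₀0 : 0 < w₀ := by rw [hw₀]; positivity
  obtain ⟨c, hc⟩ : ∃ c, c = min c₁ w₀ := ⟨_, rfl⟩
  obtain ⟨C, hC⟩ : ∃ C : ℝ, C = C₁ + C₂ + 4 * d := ⟨_, rfl⟩
  have hc0 : 0 < c := by rw [hc]; positivity
  have hcc₁ : c ≤ c₁ := by rw [hc]; exact min_le_left _ _
  have hcw₀ : c ≤ w₀ := by rw [hc]; exact min_le_right _ _
  have hd1 : (1 : ℝ) ≤ d := by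
    have : 1 ≤ d := by omega
    exact_mod_cast this
  refine ⟨c, C, hc0, hcc₁.trans hc₁', by rw [hC]; linarith only [hC₁, hC₂, hd1], ?_⟩
  intro M _ ζ hre hw0 hwc hM hb' p
  obtain ⟨w, hw⟩ : ∃ w, w = ζ.im := ⟨_, rfl⟩
  rw [← hw] at hw0 hwc hM hb' ⊢
  have hM0 : (0 : ℝ) < M := Nat.cast_pos.2 (Nat.pos_of_ne_zero (NeZero.ne M))
  have hds := ds_nn p
  have hk0 : 0 < kf ζ (0 : Tor d M) := by
    have : 0 < w * kf ζ (0 : Tor d M) := lt_of_lt_of_le hb hb'
    exact (mul_pos_iff_of_pos_left hw0).1 this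
  obtain ⟨x, hx⟩ : ∃ x, x = ds p / w ^ 2 := ⟨_, rfl⟩
  have hx0 : 0 ≤ x := by rw [hx]; positivity
  have hfrac : ds p / (w ^ 2 + ds p) = x / (1 + x) := by
    have h1 : w ^ 2 ≠ 0 := by positivity
    have h2 : w ^ 2 + ds p ≠ 0 := by positivity
    have h3 : 1 + ds p / w ^ 2 ≠ 0 := by positivity
    rw [hx]
    field_simp
  rw [hfrac]
  have hfr1 : x / (1 + x) ≤ 1 := (min_frac hx0).trans (min_le_left _ _)
  have hfr0 : 0 ≤ x / (1 + x) := by positivity
  constructor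
  · -- the lower bound
    by_cases hp : ∀ i, 8 * |((p i).valMinAbs : ℝ)| ≤ M
    · have hMC : C₁ / ζ.im ≤ M := by
        rw [← hw]
        refine le_trans ?_ hM
        rw [div_le_div_iff₀ hw0 (by positivity)]
        have hC₁C : C₁ ≤ C := by rw [hC]; linarith only [hC₂, hd1]
        have hw1 : w ≤ 1 := by linarith only [hwc, hcc₁, hc₁']
        calc C₁ * w ^ 2 = C₁ * w * w := by ring
          _ ≤ C * w * 1 := by
              have hC0 : 0 ≤ C := by linarith only [hC₁C, hC₁]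
              apply mul_le_mul _ hw1 hw0.le (mul_nonneg hC0 hw0.le)
              exact mul_le_mul_of_nonneg_right hC₁C hw0.le
          _ = C * w := mul_one _
      have h1 := hgal M ζ p hre (by rw [← hw]; exact hw0) (by rw [← hw]; exact hwc.trans hcc₁) hMC hp
      rw [← hw, ← hx] at h1
      have h2 : c * (x / (1 + x)) ≤ c₁ * min 1 x :=
        mul_le_mul hcc₁ (min_frac hx0) hfr0 hc₁.le
      have h3 := mul_le_mul_of_nonneg_right h2 hk0.le
      linarith only [h1, h3]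
    · push Not at hp
      obtain ⟨i, hi⟩ := hp
      have hM2 : C₂ / ζ.im ^ 2 ≤ M := by
        rw [← hw]
        refine le_trans ?_ hM
        apply div_le_div_of_nonneg_right _ (by positivity)
        rw [hC]
        linarith only [hC₁, hd1]
      have hw12 : w ≤ 1 / 2 := by linarith only [hwc, hcc₁, hc₁']
      have h1 := (hkhb M ζ p i (by rw [← hw]; exact hw0) (by rw [← hw]; exact hw12) hM2).1
      rw [← hw] at h1
      have hval : 2 * |(((p i).valMinAbs : ℤ) : ℝ)| ≤ M := by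
        have h2 := ZMod.natAbs_valMinAbs_le (p i)
        have h3 : 2 * (p i).valMinAbs.natAbs ≤ M := by omega
        have h4 : ((2 * (p i).valMinAbs.natAbs : ℕ) : ℝ) ≤ M := by exact_mod_cast h3
        rw [Nat.cast_mul, Nat.cast_natAbs, Int.cast_abs] at h4
        exact_mod_cast h4
      have h2 := sin_big (M := M) hi hval
      have h3 : Real.sqrt (w / (w + |Real.sin (Real.pi * ((p i).valMinAbs : ℝ) / M)|)) ≤
          2 * Real.sqrt w := by
        have h4 : w / (w + |Real.sin (Real.pi * ((p i).valMinAbs : ℝ) / M)|) ≤ 4 * w := by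
          rw [div_le_iff₀ (by positivity)]
          nlinarith only [hw0, h2]
        have h5 := Real.sqrt_le_sqrt h4
        have h6 : Real.sqrt (4 * w) = 2 * Real.sqrt w := by
          rw [Real.sqrt_mul (by norm_num)]
          norm_num
        rw [h6] at h5
        exact h5
      have hlog : 0 ≤ 1 + Real.log (1 / w) := by
        have : 0 ≤ Real.log (1 / w) := Real.log_nonneg (by
          rw [le_div_iff₀ hw0]
          linarith only [hw12])
        linarith only [this]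
      have h4 : ‖kh ζ p‖ ≤ C₂ * (1 + Real.log (1 / w)) / w * (2 * Real.sqrt w) :=
        h1.trans (mul_le_mul_of_nonneg_left h3 (by positivity))
      have h5 := log_quarter hw0
      have h6 : w ^ ((1 : ℝ) / 4) ≤ b / (16 * C₂) := by
        have h7 : w ≤ (b / (16 * C₂)) ^ 4 := by rw [← hw₀]; exact hwc.trans hcw₀
        calc w ^ ((1 : ℝ) / 4) ≤ ((b / (16 * C₂)) ^ 4) ^ ((1 : ℝ) / 4) :=
              Real.rpow_le_rpow hw0.le h7 (by norm_num)
          _ = b / (16 * C₂) := by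
              rw [← Real.rpow_natCast, ← Real.rpow_mul (by positivity)]
              norm_num
      have h7 : ‖kh ζ p‖ ≤ b / 2 / w := by
        refine h4.trans ?_
        have e1 : C₂ * (1 + Real.log (1 / w)) / w * (2 * Real.sqrt w) =
            2 * C₂ * ((1 + Real.log (1 / w)) * Real.sqrt w) / w := by ring
        rw [e1]
        apply div_le_div_of_nonneg_right _ hw0.le
        calc 2 * C₂ * ((1 + Real.log (1 / w)) * Real.sqrt w)
            ≤ 2 * C₂ * (4 * w ^ ((1 : ℝ) / 4)) := mul_le_mul_of_nonneg_left h5 (by positivity)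
          _ ≤ 2 * C₂ * (4 * (b / (16 * C₂))) :=
              mul_le_mul_of_nonneg_left (mul_le_mul_of_nonneg_left h6 (by norm_num)) (by positivity)
          _ = b / 2 := by
              have := hC₂0.ne'
              field_simp
              ring
      have h8 : kf ζ p ≤ b / 2 / w := by
        rw [(kft d M ζ (by rw [← hw]; exact hw0)).1 p]
        exact ((le_abs_self _).trans (Complex.abs_re_le_norm _)).trans h7
      have h9 : b / 2 / w ≤ kf ζ (0 : Tor d M) / 2 := by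
        rw [div_le_iff₀ hw0]
        linarith only [hb']
      have h10 : c * (x / (1 + x)) ≤ 1 / 2 := by
        have h11 : c ≤ 1 / 2 := hcc₁.trans hc₁'
        calc c * (x / (1 + x)) ≤ 1 / 2 * 1 := mul_le_mul h11 hfr1 hfr0 (by norm_num)
          _ = 1 / 2 := mul_one _
      have h11 := mul_le_mul_of_nonneg_right h10 hk0.le
      linarith only [h8, h9, h11]
  · -- the upper bound
    have h1 := Pool.Agent.LE.QZ.H63.kf_sub (M := M) kft (by rw [← hw]; exact hw0) p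
      (fun k => es_shift k p)
    rw [← hw, div_pow, Real.sq_sqrt (by positivity)] at h1
    have h2 : 4 * (d : ℝ) * ds p / w ^ 2 / 2 = 2 * d * x := by
      rw [hx]
      ring
    rw [h2] at h1
    have h3 : kf ζ (0 : Tor d M) - kf ζ p ≤ 2 * kf ζ (0 : Tor d M) := by
      have := (abs_le.1 (kf_abs ζ p)).1
      linarith only [this]
    have hCd : 4 * (d : ℝ) ≤ C := by rw [hC]; linarith only [hC₁, hC₂]
    have h4 : 4 * (d : ℝ) * (x / (1 + x)) ≤ C * (x / (1 + x)) :=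
      mul_le_mul_of_nonneg_right hCd hfr0
    have h5 := mul_le_mul_of_nonneg_right h4 hk0.le
    refine le_trans ?_ h5
    by_cases hx1 : x ≤ 1
    · refine h1.trans (mul_le_mul_of_nonneg_right ?_ hk0.le)
      have h6 : x / 2 ≤ x / (1 + x) :=
        div_le_div_of_nonneg_left hx0 (by positivity) (by linarith only [hx1])
      nlinarith only [h6, hd1]
    · push Not at hx1
      refine h3.trans (mul_le_mul_of_nonneg_right ?_ hk0.le)
      have h6 : 1 / 2 ≤ x / (1 + x) := by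
        rw [div_le_div_iff₀ (by norm_num) (by positivity)]
        linarith only [hx1]
      nlinarith only [h6, hd1]

end Pool.Agent.ANI.H54
end
end -- Pool.Agent.Helper54_ANI.SYM

section -- Pool.Agent.Helper94_LQF.GAL

/-!
# Squad LQF (MP_1906c1_mp), row GAL: the gap for the momenta with `|p_i| ≤ M / 8`
-/

set_option autoImplicit false

open MeasureTheory ProbabilityTheory Function Filter

open scoped ENNReal BigOperators Topology NNReal ComplexOrder Matrix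

noncomputable section

namespace Pool.Agent.LE.QF.H94

open Pool.Agent.Anderson hiding box mem_box card_box
open Pool.Agent.Loc Pool.Agent.Mob Pool.Agent.Helper54.Bal
  Pool.Agent.Helper96.EXP Pool.Agent.BED
open Pool.Agent.LE.MN Pool.Agent.LE.CL Pool.Agent.LE.IR Pool.Agent.LE.QD
open Pool.Agent.LE.QD.H51

theorem ds_le' {d M : ℕ} [NeZero M] (p : Tor d M) :
    ds p ≤ (2 * Real.pi / M) ^ 2 * ∑ i, ((p i).valMinAbs : ℝ) ^ 2 := by
  unfold ds
  rw [Finset.mul_sum]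
  refine Finset.sum_le_sum fun i _ => ?_
  have h := Real.one_sub_sq_div_two_le_cos (x := 2 * Real.pi * ((p i).valMinAbs : ℝ) / M)
  have e : (2 * Real.pi / M) ^ 2 * ((p i).valMinAbs : ℝ) ^ 2 =
      (2 * Real.pi * ((p i).valMinAbs : ℝ) / M) ^ 2 := by ring
  rw [e]
  linarith only [h]

theorem inv_diff2 {ζ : ℂ} {u v w m s : ℝ} (hw : 0 < w) (hζ : ζ.im = w) (h1 : |u - ζ.re| ≤ w)
    (hs0 : 0 ≤ s) (hs1 : s ≤ 1) (hm0 : 0 ≤ m) (hm1 : m ≤ 1) (h2 : m * w * s ≤ |u - v|) :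
    m ^ 2 * s ^ 2 / (18 * w ^ 2) ≤ ‖1 / ((u : ℂ) - ζ) - 1 / ((v : ℂ) - ζ)‖ ^ 2 := by
  have n1 : Complex.normSq ((u : ℂ) - ζ) = (u - ζ.re) ^ 2 + w ^ 2 := by
    rw [Complex.normSq_apply]
    simp only [Complex.sub_re, Complex.sub_im, Complex.ofReal_re, Complex.ofReal_im, hζ]
    ring
  have n2 : Complex.normSq ((v : ℂ) - ζ) = (v - ζ.re) ^ 2 + w ^ 2 := by
    rw [Complex.normSq_apply]
    simp only [Complex.sub_re, Complex.sub_im, Complex.ofReal_re, Complex.ofReal_im, hζ]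
    ring
  have p1 : 0 < Complex.normSq ((u : ℂ) - ζ) := by rw [n1]; positivity
  have p2 : 0 < Complex.normSq ((v : ℂ) - ζ) := by rw [n2]; positivity
  have u0 : (u : ℂ) - ζ ≠ 0 := Complex.normSq_pos.1 p1
  have v0 : (v : ℂ) - ζ ≠ 0 := Complex.normSq_pos.1 p2
  have e1 : 1 / ((u : ℂ) - ζ) - 1 / ((v : ℂ) - ζ) =
      ((v - u : ℝ) : ℂ) / (((u : ℂ) - ζ) * ((v : ℂ) - ζ)) := by
    field_simp
    push_cast
    ring
  have e2 : ‖1 / ((u : ℂ) - ζ) - 1 / ((v : ℂ) - ζ)‖ ^ 2 =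
      |u - v| ^ 2 / (Complex.normSq ((u : ℂ) - ζ) * Complex.normSq ((v : ℂ) - ζ)) := by
    rw [← Complex.normSq_eq_norm_sq, e1, Complex.normSq_div, Complex.normSq_mul,
      Complex.normSq_ofReal, sq_abs]
    congr 1
    ring
  obtain ⟨D, hD⟩ : ∃ D, D = |u - v| := ⟨_, rfl⟩
  have hD0 : 0 ≤ D := hD ▸ abs_nonneg _
  rw [e2]
  rw [← hD] at h2 ⊢
  have b1 : Complex.normSq ((u : ℂ) - ζ) ≤ 2 * w ^ 2 := by
    rw [n1]
    have := sq_le_sq' (abs_le.1 h1).1 (abs_le.1 h1).2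
    linarith only [this]
  have b2 : Complex.normSq ((v : ℂ) - ζ) ≤ (D + 2 * w) ^ 2 := by
    rw [n2]
    have h3 : |v - ζ.re| ≤ D + w := by
      have h4 : v - ζ.re = (u - ζ.re) - (u - v) := by ring
      rw [h4]
      refine (abs_sub _ _).trans ?_
      rw [← hD]
      linarith only [h1]
    have := sq_le_sq' (abs_le.1 h3).1 (abs_le.1 h3).2
    nlinarith only [hw, hD0, this]
  have b3 : m * s * (D + 2 * w) ≤ 3 * D := by
    have h3 : m * s ≤ 1 := mul_le_one₀ hm1 hs0 hs1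
    have h4 : m * s * D ≤ 1 * D := mul_le_mul_of_nonneg_right h3 hD0
    nlinarith only [h2, h4]
  have b4 : (m * s * (D + 2 * w)) ^ 2 ≤ (3 * D) ^ 2 :=
    pow_le_pow_left₀ (by positivity) b3 2
  calc m ^ 2 * s ^ 2 / (18 * w ^ 2) ≤ D ^ 2 / ((2 * w ^ 2) * (D + 2 * w) ^ 2) := by
        rw [div_le_div_iff₀ (by positivity) (by positivity)]
        have := mul_le_mul_of_nonneg_right b4 (by positivity : 0 ≤ 2 * w ^ 2)
        nlinarith only [this]
    _ ≤ _ := div_le_div_of_nonneg_left (sq_nonneg _) (mul_pos p1 p2)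
        (mul_le_mul b1 b2 p2.le (by positivity))

/-- row GAL -/
theorem gal (gap : GapStmt) (dsl : DslStmt) (dsu : DsuStmt) (ral : RalStmt) (ftb : FtbStmt) :
    GalStmt := by
  intro d δ hd hδ
  obtain ⟨C₁, hC₁, hdsu⟩ := dsu d hd
  obtain ⟨c₁, C₂, hc₁, hc₁', hC₂, hdsl⟩ := dsl d δ hd hδ
  obtain ⟨c₀, C₀, hc₀, hc₀', hC₀, hgap⟩ := gap d δ hd hδ
  have hpi := Real.pi_pos
  have hpi4 := Real.pi_le_four
  obtain ⟨c, hc⟩ : ∃ c : ℝ, c = min (1 / 2) (min c₀ (min c₁ (c₀ ^ 2 * c₁ / (144 * C₁)))) :=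
    ⟨_, rfl⟩
  have hc0 : 0 < c := by
    rw [hc]
    exact lt_min (by norm_num) (lt_min hc₀ (lt_min hc₁ (by positivity)))
  have hc2 : c ≤ 1 / 2 := hc ▸ min_le_left _ _
  have hc3 : c ≤ c₀ := hc ▸ (min_le_right _ _).trans (min_le_left _ _)
  have hc4 : c ≤ c₁ := hc ▸ (min_le_right _ _).trans ((min_le_right _ _).trans (min_le_left _ _))
  have hc5 : c ≤ c₀ ^ 2 * c₁ / (144 * C₁) :=
    hc ▸ (min_le_right _ _).trans ((min_le_right _ _).trans (min_le_right _ _))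
  refine ⟨c, max C₀ (max C₁ C₂), hc0, hc2, hC₀.trans (le_max_left _ _), ?_⟩
  intro M hM ζ p hre him hle hMw hp
  obtain ⟨w, hw⟩ : ∃ w, w = ζ.im := ⟨_, rfl⟩
  rw [← hw] at him hle hMw ⊢
  have hζ : 0 < ζ.im := hw ▸ him
  have hM0 : (0 : ℝ) < M := by exact_mod_cast Nat.pos_of_ne_zero (NeZero.ne M)
  have hMC : ∀ X : ℝ, X ≤ max C₀ (max C₁ C₂) → X / w ≤ M := by
    intro X hX
    refine le_trans ?_ hMw
    gcongr
  have hM0' : C₀ / w ≤ M := hMC _ (le_max_left _ _)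
  have hM1 : C₁ / w ≤ M := hMC _ ((le_max_left _ _).trans (le_max_right _ _))
  have hM2 : C₂ / w ≤ M := hMC _ ((le_max_right _ _).trans (le_max_right _ _))
  have hw1 : w ≤ 1 := by linarith only [hc0, hc2, hle]
  have hK0 : 0 ≤ ∑ x : Tor d M, kk ζ x := Finset.sum_nonneg fun x _ => by
    rw [kk_eq]
    positivity
  have hkf0 : kf ζ (0 : Tor d M) = ∑ x : Tor d M, kk ζ x := by
    unfold kf
    refine Finset.sum_congr rfl fun x _ => ?_
    have e2 : ec (0 : Tor d M) x = 1 := by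
      unfold ec
      simp
    rw [e2, Complex.one_re, mul_one]
  -- the upper bound for the sum of the kernel
  have hK : ∑ x : Tor d M, kk ζ x ≤ C₁ / w := by
    obtain ⟨-, -, -, -, h5, -, -, -, -, -, h11, -⟩ := ral d M 0 ζ hζ
    have h1 : ∑ x : Tor d M, kk ζ x = (rs (0 : Tor d M → ℝ) ζ 0 0).im / ζ.im := h5 0
    rw [h1, ← hw]
    refine div_le_div_of_nonneg_right ?_ him.le
    refine le_trans (le_of_eq ?_) (hdsu M ζ.re w him hw1 hM1).1
    rw [h11]
    unfold pm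
    have e1 : ((M : ℂ) ^ d) = (((M : ℝ) ^ d : ℝ) : ℂ) := by push_cast; rfl
    rw [e1, Complex.div_ofReal_im, Complex.im_sum]
    congr 1
    refine Finset.sum_congr rfl fun p _ => ?_
    have e2 : ec p (0 - 0 : Tor d M) = 1 := by
      unfold ec
      simp
    rw [e2, one_div, Complex.inv_im, Complex.normSq_apply]
    simp only [Complex.sub_re, Complex.sub_im, Complex.ofReal_re, Complex.ofReal_im, ← hw]
    congr 1
    · ring
    · ring
  rw [hkf0]
  by_cases hA : ∀ i, 2 * Real.pi * |((p i).valMinAbs : ℝ)| ≤ c₀ * w * M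
  · -- small momenta
    have h1 := hgap M ζ hre hζ (hw ▸ hle.trans hc3) (hw ▸ hM0') p (by rw [← hw]; exact hA)
    rw [← hw] at h1
    have h2 := (le_abs_self _).trans h1
    show ∑ x : Tor d M, kk ζ x * (ec p x).re ≤ _
    refine h2.trans (mul_le_mul_of_nonneg_right ?_ hK0)
    have h3 := ds_le' p
    have h4 : 0 ≤ ds p := by
      unfold ds
      refine Finset.sum_nonneg fun i _ => ?_
      have := Real.cos_le_one (2 * Real.pi * ((p i).valMinAbs : ℝ) / M)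
      linarith only [this]
    have h5 : c * min 1 (ds p / w ^ 2) ≤ c₀ * (ds p / w ^ 2) :=
      mul_le_mul hc3 (min_le_right _ _) (le_min zero_le_one (by positivity)) hc₀.le
    have h6 : c₀ * (ds p / w ^ 2) ≤
        c₀ * (2 * Real.pi / M) ^ 2 * (∑ i, ((p i).valMinAbs : ℝ) ^ 2) / w ^ 2 := by
      rw [mul_assoc c₀, mul_div_assoc]
      gcongr
    linarith only [h5, h6]
  · -- a large momentum
    push Not at hA
    obtain ⟨i, hi⟩ := hA
    obtain ⟨a, ha⟩ : ∃ a : ℝ, a = 2 * Real.pi * ((p i).valMinAbs : ℝ) / M := ⟨_, rfl⟩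
    have ha0 : |a| = 2 * Real.pi * |((p i).valMinAbs : ℝ)| / M := by
      rw [ha, abs_div, abs_mul, abs_of_pos (by positivity : 0 < 2 * Real.pi), abs_of_pos hM0]
    have ha1 : c₀ * w ≤ |a| := by
      rw [ha0, le_div_iff₀ hM0]
      exact hi.le
    have ha2 : |a| ≤ 1 := by
      rw [ha0, div_le_iff₀ hM0, one_mul]
      have := hp i
      nlinarith only [abs_nonneg ((p i).valMinAbs : ℝ), hpi, hpi4, this]
    have ha3 : c₀ * w / 2 ≤ |Real.sin a| := by
      have h1 := sin_sq_ge ha2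
      have h2 : (|a| / 2) ^ 2 ≤ |Real.sin a| ^ 2 := by
        rw [div_pow, sq_abs, sq_abs]
        linarith only [h1]
      have h3 : |a| / 2 ≤ |Real.sin a| :=
        (pow_le_pow_iff_left₀ (by positivity) (abs_nonneg _) two_ne_zero).1 h2
      linarith only [ha1, h3]
    have h1 := refl_bound ral hζ p i
    have h2 : ∑ x : Tor d M, kk ζ x * (2 * (1 - (ec (Pi.single i (2 * p i)) x).re)) / 8 ≤
        (∑ x : Tor d M, kk ζ x) - ∑ x, kk ζ x * |(ZMod.stdAddChar (p i * x i) : ℂ).re| := by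
      rw [← Finset.sum_sub_distrib]
      refine Finset.sum_le_sum fun x _ => ?_
      have e1 : ec (Pi.single i (2 * p i)) x = ZMod.stdAddChar (2 * (p i * x i)) := by
        unfold ec
        rw [Finset.prod_eq_single i]
        · rw [Pi.single_eq_same, mul_assoc]
        · intro j _ hj
          rw [Pi.single_eq_of_ne hj, zero_mul, AddChar.map_zero_eq_one]
        · intro h
          exact absurd (Finset.mem_univ _) h
      rw [e1]
      have e2 := chi_gap (p i * x i)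
      have e3 : 0 ≤ kk ζ x := by
        rw [kk_eq]
        positivity
      nlinarith only [hc0, hc2, hM, e2, e3]
    rw [← Finset.sum_div, parseval ral ftb hζ] at h2
    have h3 : c₀ ^ 2 / (18 * w ^ 2) * (c₁ * w) ≤ pm fun k : Tor d M =>
        ‖1 / ((es k : ℂ) - ζ) - 1 / ((es (k - Pi.single i (2 * p i)) : ℂ) - ζ)‖ ^ 2 := by
      have h4 := hdsl M ζ.re w a i hre him (hle.trans hc4) hM2
      refine (mul_le_mul_of_nonneg_left h4 (by positivity)).trans ?_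
      unfold pm
      rw [mul_div_assoc', Finset.mul_sum]
      refine div_le_div_of_nonneg_right (Finset.sum_le_sum fun k _ => ?_) (by positivity)
      split_ifs with h5
      · have h6 := es_diff' k p i
        rw [← ha] at h6
        have h7 : c₀ * w * |Real.sin (2 * Real.pi * ((k i).valMinAbs : ℝ) / M - a)| ≤
            |es k - es (k - Pi.single i (2 * p i))| := by
          rw [h6, abs_neg, abs_mul, abs_mul]
          have s3 : |(4 : ℝ)| = 4 := by norm_num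
          rw [s3]
          refine mul_le_mul_of_nonneg_right ?_ (abs_nonneg _)
          have : 0 < c₀ * w := by positivity
          linarith only [ha3, this]
        refine le_trans (le_of_eq ?_) (inv_diff2 him hw.symm h5 (abs_nonneg _)
          (Real.abs_sin_le_one _) hc₀.le hc₀' h7)
        rw [sq_abs]
        ring
      · rw [mul_zero]
        positivity
    have h4 : c₀ ^ 2 * c₁ / (144 * w) ≤ (∑ x : Tor d M, kk ζ x) -
        ∑ x, kk ζ x * |(ZMod.stdAddChar (p i * x i) : ℂ).re| := by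
      refine le_trans ?_ h2
      refine le_trans (le_of_eq ?_) (div_le_div_of_nonneg_right h3 (by norm_num))
      field_simp
      ring
    have h5 : c * ∑ x : Tor d M, kk ζ x ≤ c₀ ^ 2 * c₁ / (144 * w) := by
      refine (mul_le_mul hc5 hK hK0 (by positivity)).trans (le_of_eq ?_)
      field_simp
    have h6 : c * min 1 (ds p / w ^ 2) ≤ c * 1 :=
      mul_le_mul_of_nonneg_left (min_le_left _ _) hc0.le
    have h7 : c * min 1 (ds p / w ^ 2) * ∑ x : Tor d M, kk ζ x ≤ c * ∑ x : Tor d M, kk ζ x := by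
      refine mul_le_mul_of_nonneg_right ?_ hK0
      linarith only [h6]
    have h8 := (le_abs_self _).trans h1
    show ∑ x : Tor d M, kk ζ x * (ec p x).re ≤ _
    rw [sub_mul, one_mul]
    linarith only [hM, h4, h5, h7, h8]

end Pool.Agent.LE.QF.H94
end
end -- Pool.Agent.Helper94_LQF.GAL

section -- Pool.Agent.Helper93_LQZ.POI

/-!
# The pointwise inequality for the initial value of `Ξ` (row `IXI` of the squad LQZ)
-/

set_option autoImplicit false

namespace Pool.Agent.LE.QZ.H93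

theorem poi_key (D P : ℝ) (hD : 0 ≤ D) (hS : 0 ≤ D + 4 * P) :
    D * (16 + 4 * (D + 2 * P) + P ^ 2) ≤
      3 / 5 * ((2 + (D + 2 * P)) * (16 + 4 * (D + 2 * P) + P ^ 2)) +
      43 / 25 * ((1 + (D + 2 * P) + P ^ 2) * (8 + (D + 2 * P))) := by
  rcases le_or_gt (-1) P with h | h
  · have h1 : 0 ≤ (1 + P) * (32.96 + 26.8 * P + 4.64 * P ^ 2) :=
      mul_nonneg (by linarith) (by nlinarith only [h])
    have h2 : 0 ≤ D * (13.88 + 8.48 * P + 1.32 * P ^ 2) := mul_nonneg hD (by nlinarith only [h])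
    nlinarith only [sq_nonneg D, h1, h2]
  · obtain ⟨Q, hQ⟩ : ∃ Q, Q = -P := ⟨_, rfl⟩
    obtain ⟨S, hS'⟩ : ∃ S, S = D + 4 * P := ⟨_, rfl⟩
    have hP : P = -Q := by linarith only [hQ]
    have hD' : D = 4 * Q + S := by linarith
    have hQ1 : 1 ≤ Q := by linarith
    have hS0 : 0 ≤ S := by linarith
    subst hP
    rw [hD']
    have h1 : 0 ≤ S * (1.32 * Q ^ 2 - 7.52 * Q + 13.88) := mul_nonneg hS0 (by nlinarith only [sq_nonneg (Q - 3), h])
    have h2 : 0 ≤ 0.64 * Q ^ 3 - 0.56 * Q ^ 2 - 4.24 * Q + 32.96 := by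
      nlinarith [sq_nonneg (Q - 2), mul_nonneg (by linarith only [h] : (0 : ℝ) ≤ Q - 1) (sq_nonneg (Q - 2))]
    nlinarith only [sq_nonneg S, h1, h2]
theorem poi (x y : ℝ) : (x - y) ^ 2 * ((4 + x ^ 2) * (4 + y ^ 2)) ≤
    3 / 5 * ((2 + x ^ 2 + y ^ 2) * ((4 + x ^ 2) * (4 + y ^ 2))) +
    43 / 25 * ((1 + x ^ 2) * (1 + y ^ 2) * (8 + x ^ 2 + y ^ 2)) := by
  have h := poi_key ((x - y) ^ 2) (x * y) (sq_nonneg _) (by nlinarith only [sq_nonneg (x + y)])
  nlinarith only [h]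

end Pool.Agent.LE.QZ.H93
end -- Pool.Agent.Helper93_LQZ.POI

section -- Pool.Agent.Helper38_LQZ.IXI

/-! # IXI: the initial `Ξ` -/

set_option autoImplicit false

open MeasureTheory ProbabilityTheory Function Filter

open scoped ENNReal BigOperators Topology NNReal ComplexOrder Matrix

noncomputable section

namespace Pool.Agent.LE.QZ.H38

open Pool.Agent.Anderson hiding box mem_box card_box
open Pool.Agent.Loc Pool.Agent.Mob Pool.Agent.Helper54.Bal
  Pool.Agent.Helper96.EXP Pool.Agent.BED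
open Pool.Agent.LE.MN Pool.Agent.LE.CL Pool.Agent.LE.IR Pool.Agent.LE.QD Pool.Agent.LE.QF

variable {d M : ℕ} [NeZero M]

theorem ixi_ec0 (p : Tor d M) : ec p (0 : Tor d M) = 1 := by
  unfold ec
  apply Finset.prod_eq_one
  intro i _
  rw [Pi.zero_apply, mul_zero, AddChar.map_zero_eq_one]

theorem ixi_inv_im (a : ℝ) (z : ℂ) :
    (((a : ℂ) - z)⁻¹).im = z.im * ((a - z.re) ^ 2 + z.im ^ 2)⁻¹ := by
  rw [Complex.inv_im, Complex.normSq_apply]
  simp only [Complex.sub_re, Complex.sub_im, Complex.ofReal_re, Complex.ofReal_im, zero_sub,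
    neg_neg, div_eq_mul_inv]
  congr 2
  ring

theorem ixi_inv_norm (a : ℝ) (z : ℂ) :
    ‖((a : ℂ) - z)⁻¹‖ ^ 2 = ((a - z.re) ^ 2 + z.im ^ 2)⁻¹ := by
  rw [norm_inv, inv_pow, ← Complex.normSq_eq_norm_sq, Complex.normSq_apply]
  simp only [Complex.sub_re, Complex.sub_im, Complex.ofReal_re, Complex.ofReal_im]
  congr 1
  ring

theorem ixi_im (hral : RalStmt) {z : ℂ} (hz : 0 < z.im) :
    (rs (0 : Tor d M → ℝ) z 0 0).im =
      z.im * pm (fun p : Tor d M => ((es p - z.re) ^ 2 + z.im ^ 2)⁻¹) := by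
  obtain ⟨-, -, -, -, -, -, -, -, -, -, h11, -⟩ := hral d M 0 z hz
  rw [h11]
  have h1 : (M : ℂ) ^ d = (((M : ℝ) ^ d : ℝ) : ℂ) := by push_cast; rfl
  rw [h1, Complex.div_ofReal_im, Complex.im_sum]
  unfold pm
  rw [← mul_div_assoc, Finset.mul_sum]
  congr 1
  refine Finset.sum_congr rfl fun p _ => ?_
  rw [sub_zero, ixi_ec0, one_div, ixi_inv_im]

theorem ixi_kf (hral : RalStmt) {z : ℂ} (hz : 0 < z.im) :
    kf z (0 : Tor d M) = pm (fun p : Tor d M => ((es p - z.re) ^ 2 + z.im ^ 2)⁻¹) := by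
  obtain ⟨-, -, -, -, h5, -⟩ := hral d M 0 z hz
  have h1 : kf z (0 : Tor d M) = ∑ y, ‖rs (0 : Tor d M → ℝ) z 0 y‖ ^ 2 := by
    unfold kf
    refine Finset.sum_congr rfl fun x _ => ?_
    rw [QF.H49.ec_zero, Complex.one_re, mul_one]
    rfl
  rw [h1, h5 0, ixi_im hral hz]
  field_simp

/-- the pointwise bound -/
theorem ixi_pt (α β w : ℝ) (hw : 0 < w) :
    (α * β - w ^ 2) * ((α ^ 2 + w ^ 2)⁻¹ * (β ^ 2 + w ^ 2)⁻¹) ≤
      -(1 / 5) * ((α ^ 2 + w ^ 2)⁻¹ + (β ^ 2 + w ^ 2)⁻¹) +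
        43 / 50 * ((α ^ 2 + (2 * w) ^ 2)⁻¹ + (β ^ 2 + (2 * w) ^ 2)⁻¹) := by
  obtain ⟨x, hx⟩ : ∃ x, x = α / w := ⟨_, rfl⟩
  obtain ⟨y, hy⟩ : ∃ y, y = -β / w := ⟨_, rfl⟩
  have hα : α = w * x := by rw [hx]; field_simp
  have hβ : β = -(w * y) := by rw [hy]; field_simp
  have hp := H93.poi x y
  have hx1 : 0 < 1 + x ^ 2 := by positivity
  have hy1 : 0 < 1 + y ^ 2 := by positivity
  have hx4 : 0 < 4 + x ^ 2 := by positivity
  have hy4 : 0 < 4 + y ^ 2 := by positivity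
  have h1 : (α ^ 2 + w ^ 2)⁻¹ = (w ^ 2)⁻¹ * (1 + x ^ 2)⁻¹ := by
    rw [hα, ← mul_inv]; congr 1; ring
  have h2 : (β ^ 2 + w ^ 2)⁻¹ = (w ^ 2)⁻¹ * (1 + y ^ 2)⁻¹ := by
    rw [hβ, ← mul_inv]; congr 1; ring
  have h3 : (α ^ 2 + (2 * w) ^ 2)⁻¹ = (w ^ 2)⁻¹ * (4 + x ^ 2)⁻¹ := by
    rw [hα, ← mul_inv]; congr 1; ring
  have h4 : (β ^ 2 + (2 * w) ^ 2)⁻¹ = (w ^ 2)⁻¹ * (4 + y ^ 2)⁻¹ := by
    rw [hβ, ← mul_inv]; congr 1; ring
  rw [h1, h2, h3, h4]
  have h5 : (α * β - w ^ 2) * ((w ^ 2)⁻¹ * (1 + x ^ 2)⁻¹ * ((w ^ 2)⁻¹ * (1 + y ^ 2)⁻¹)) =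
      (w ^ 2)⁻¹ * (-(x * y + 1) * ((1 + x ^ 2)⁻¹ * (1 + y ^ 2)⁻¹)) := by
    rw [hα, hβ]
    field_simp
    ring
  have h6 : -(1 / 5) * ((w ^ 2)⁻¹ * (1 + x ^ 2)⁻¹ + (w ^ 2)⁻¹ * (1 + y ^ 2)⁻¹) +
      43 / 50 * ((w ^ 2)⁻¹ * (4 + x ^ 2)⁻¹ + (w ^ 2)⁻¹ * (4 + y ^ 2)⁻¹) =
      (w ^ 2)⁻¹ * (-(1 / 5) * ((1 + x ^ 2)⁻¹ + (1 + y ^ 2)⁻¹) +
        43 / 50 * ((4 + x ^ 2)⁻¹ + (4 + y ^ 2)⁻¹)) := by ring
  rw [h5, h6]
  refine mul_le_mul_of_nonneg_left ?_ (by positivity)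
  rw [← sub_nonneg]
  have h7 : -(1 / 5) * ((1 + x ^ 2)⁻¹ + (1 + y ^ 2)⁻¹) +
        43 / 50 * ((4 + x ^ 2)⁻¹ + (4 + y ^ 2)⁻¹) -
        -(x * y + 1) * ((1 + x ^ 2)⁻¹ * (1 + y ^ 2)⁻¹) =
      (3 / 5 * ((2 + x ^ 2 + y ^ 2) * ((4 + x ^ 2) * (4 + y ^ 2))) +
        43 / 25 * ((1 + x ^ 2) * (1 + y ^ 2) * (8 + x ^ 2 + y ^ 2)) -
        (x - y) ^ 2 * ((4 + x ^ 2) * (4 + y ^ 2))) /
        (2 * ((1 + x ^ 2) * (1 + y ^ 2) * ((4 + x ^ 2) * (4 + y ^ 2)))) := by
    field_simp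
    ring
  rw [h7]
  exact div_nonneg (by linarith only [hp]) (by positivity)

theorem pm_mono {F H : Tor d M → ℝ} (h : ∀ p, F p ≤ H p) : pm F ≤ pm H := by
  unfold pm
  exact div_le_div_of_nonneg_right (Finset.sum_le_sum fun p _ => h p) (by positivity)

theorem pm_refl (F : Tor d M → ℝ) (p : Tor d M) : pm (fun k => F (p - k)) = pm F := by
  unfold pm
  congr 1
  exact Equiv.sum_comp (Equiv.subLeft p) F

theorem pm_add' (F H : Tor d M → ℝ) : pm (fun k => F k + H k) = pm F + pm H := by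
  unfold pm
  rw [Finset.sum_add_distrib, add_div]

theorem pm_mul' (c : ℝ) (F : Tor d M → ℝ) : pm (fun k => c * F k) = c * pm F := by
  unfold pm
  rw [← Finset.mul_sum, mul_div_assoc]

/-- the real part of the symbol -/
theorem ixi_re (z : ℂ) (hz : 0 < z.im) (p : Tor d M) :
    (bh z p).re ≤ -(2 / 5) * pm (fun k : Tor d M => ((es k - z.re) ^ 2 + z.im ^ 2)⁻¹) +
      43 / 25 * pm (fun k : Tor d M => ((es k - z.re) ^ 2 + (2 * z.im) ^ 2)⁻¹) := by
  have h0 : (bh z p).re = pm fun k : Tor d M =>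
      (((es k : ℂ) - z)⁻¹ * ((es (p - k) : ℂ) - z)⁻¹).re := by
    unfold bh pm
    have h1 : (M : ℂ) ^ d = (((M : ℝ) ^ d : ℝ) : ℂ) := by push_cast; rfl
    rw [h1, Complex.div_ofReal_re, Complex.re_sum]
  rw [h0]
  have hr := pm_refl (fun k : Tor d M => ((es k - z.re) ^ 2 + z.im ^ 2)⁻¹) p
  have hr2 := pm_refl (fun k : Tor d M => ((es k - z.re) ^ 2 + (2 * z.im) ^ 2)⁻¹) p
  have h2 : -(2 / 5) * pm (fun k : Tor d M => ((es k - z.re) ^ 2 + z.im ^ 2)⁻¹) +
      43 / 25 * pm (fun k : Tor d M => ((es k - z.re) ^ 2 + (2 * z.im) ^ 2)⁻¹) =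
      pm (fun k : Tor d M => -(1 / 5) * (((es k - z.re) ^ 2 + z.im ^ 2)⁻¹ +
        ((es (p - k) - z.re) ^ 2 + z.im ^ 2)⁻¹) +
        43 / 50 * (((es k - z.re) ^ 2 + (2 * z.im) ^ 2)⁻¹ +
          ((es (p - k) - z.re) ^ 2 + (2 * z.im) ^ 2)⁻¹)) := by
    rw [pm_add' (fun k : Tor d M => -(1 / 5) * (((es k - z.re) ^ 2 + z.im ^ 2)⁻¹ +
        ((es (p - k) - z.re) ^ 2 + z.im ^ 2)⁻¹)) (fun k : Tor d M =>
        43 / 50 * (((es k - z.re) ^ 2 + (2 * z.im) ^ 2)⁻¹ +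
          ((es (p - k) - z.re) ^ 2 + (2 * z.im) ^ 2)⁻¹)), pm_mul', pm_mul',
      pm_add' (fun k : Tor d M => ((es k - z.re) ^ 2 + z.im ^ 2)⁻¹)
        (fun k : Tor d M => ((es (p - k) - z.re) ^ 2 + z.im ^ 2)⁻¹),
      pm_add' (fun k : Tor d M => ((es k - z.re) ^ 2 + (2 * z.im) ^ 2)⁻¹)
        (fun k : Tor d M => ((es (p - k) - z.re) ^ 2 + (2 * z.im) ^ 2)⁻¹), hr, hr2]
    ring
  rw [h2]
  refine pm_mono fun k => ?_
  refine le_trans (le_of_eq ?_) (ixi_pt (es k - z.re) (es (p - k) - z.re) z.im hz)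
  rw [Complex.mul_re, ixi_inv_im, ixi_inv_im, Complex.inv_re, Complex.inv_re,
    Complex.normSq_apply, Complex.normSq_apply]
  simp only [Complex.sub_re, Complex.sub_im, Complex.ofReal_re, Complex.ofReal_im, zero_sub,
    div_eq_mul_inv]
  have e1 : (es k - z.re) * (es k - z.re) + -z.im * -z.im = (es k - z.re) ^ 2 + z.im ^ 2 := by
    ring
  have e2 : (es (p - k) - z.re) * (es (p - k) - z.re) + -z.im * -z.im =
      (es (p - k) - z.re) ^ 2 + z.im ^ 2 := by ring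
  rw [e1, e2]
  ring

/-- the norm of the symbol -/
theorem ixi_norm (z : ℂ) (p : Tor d M) :
    ‖bh z p‖ ≤ pm (fun k : Tor d M => ((es k - z.re) ^ 2 + z.im ^ 2)⁻¹) := by
  have hr := pm_refl (fun k : Tor d M => ((es k - z.re) ^ 2 + z.im ^ 2)⁻¹) p
  have h2 : pm (fun k : Tor d M => ((es k - z.re) ^ 2 + z.im ^ 2)⁻¹) =
      pm (fun k : Tor d M => 1 / 2 * (((es k - z.re) ^ 2 + z.im ^ 2)⁻¹ +
        ((es (p - k) - z.re) ^ 2 + z.im ^ 2)⁻¹)) := by
    rw [pm_mul', pm_add' (fun k : Tor d M => ((es k - z.re) ^ 2 + z.im ^ 2)⁻¹)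
        (fun k : Tor d M => ((es (p - k) - z.re) ^ 2 + z.im ^ 2)⁻¹), hr]
    ring
  rw [h2]
  have h3 : ‖bh z p‖ ≤ pm (fun k : Tor d M =>
      ‖((es k : ℂ) - z)⁻¹ * ((es (p - k) : ℂ) - z)⁻¹‖) := by
    unfold bh pm
    rw [norm_div, norm_pow, Complex.norm_natCast]
    exact div_le_div_of_nonneg_right (norm_sum_le _ _) (by positivity)
  refine h3.trans (pm_mono fun k => ?_)
  rw [norm_mul, ← ixi_inv_norm, ← ixi_inv_norm]
  nlinarith only [sq_nonneg (‖((es k : ℂ) - z)⁻¹‖ - ‖((es (p - k) : ℂ) - z)⁻¹‖)]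

theorem ixi (hral : RalStmt) (hftb : FtbStmt) : IxiStmt := by
  intro d M _ ζ τ hζ hτ h1 h2
  obtain ⟨Y, hY⟩ : ∃ Y : Matrix (Tor d M) (Tor d M) ℂ,
    Y = (τ : ℂ) • BB (rs (0 : Tor d M → ℝ) ζ) := ⟨_, rfl⟩
  obtain ⟨-, -, -, -, -, h6, -⟩ := hftb d M
  have h2ζ : 0 < (⟨ζ.re, 2 * ζ.im⟩ : ℂ).im := by
    show 0 < 2 * ζ.im
    linarith only [hζ]
  rw [ixi_kf hral hζ] at h1
  rw [ixi_im hral h2ζ] at h2
  obtain ⟨K, hK⟩ : ∃ K, K = pm (fun k : Tor d M => ((es k - ζ.re) ^ 2 + ζ.im ^ 2)⁻¹) := ⟨_, rfl⟩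
  obtain ⟨K2, hK2⟩ : ∃ K2, K2 = pm (fun k : Tor d M =>
    ((es k - ζ.re) ^ 2 + (2 * ζ.im) ^ 2)⁻¹) := ⟨_, rfl⟩
  have h2' : τ * (2 * ζ.im * K2) ≤ 101 / 100 * ζ.im := by rw [hK2]; exact h2
  have h3 : τ * K2 ≤ 101 / 200 := by
    have : ζ.im * (τ * K2) ≤ ζ.im * (101 / 200) := by linarith only [h2']
    exact le_of_mul_le_mul_left this hζ
  have h1' : τ * K = 1 := by rw [hK]; exact h1
  -- the symbol
  have hsy : ∀ p : Tor d M, ‖(τ : ℂ) * bh ζ p‖ ^ 2 ≤ 118 / 125 * ‖1 - (τ : ℂ) * bh ζ p‖ ^ 2 := by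
    intro p
    have a1 : ‖(τ : ℂ) * bh ζ p‖ ≤ 1 := by
      rw [norm_mul, Complex.norm_real, Real.norm_eq_abs, abs_of_pos hτ, ← h1', hK]
      exact mul_le_mul_of_nonneg_left (ixi_norm ζ p) hτ.le
    have a2 : ((τ : ℂ) * bh ζ p).re ≤ 47 / 100 := by
      rw [Complex.re_ofReal_mul]
      have b1 := mul_le_mul_of_nonneg_left (ixi_re ζ hζ p) hτ.le
      rw [← hK, ← hK2] at b1
      have b2 : τ * (-(2 / 5) * K + 43 / 25 * K2) = -(2 / 5) * (τ * K) + 43 / 25 * (τ * K2) := by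
        ring
      rw [b2, h1'] at b1
      linarith
    obtain ⟨y, hy⟩ : ∃ y, y = (τ : ℂ) * bh ζ p := ⟨_, rfl⟩
    rw [← hy] at a1 a2 ⊢
    have a3 : ‖1 - y‖ ^ 2 = 1 - 2 * y.re + ‖y‖ ^ 2 := by
      rw [← Complex.normSq_eq_norm_sq, ← Complex.normSq_eq_norm_sq, Complex.normSq_apply,
        Complex.normSq_apply]
      simp only [Complex.sub_re, Complex.sub_im, Complex.one_re, Complex.one_im]
      ring
    have a4 : ‖y‖ ^ 2 ≤ 1 := pow_le_one₀ (norm_nonneg _) a1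
    rw [a3]
    linarith only [a2, a4]
  have hft : ∀ (v : Tor d M → ℂ) (p : Tor d M), ft (Y *ᵥ v) p = (τ : ℂ) * bh ζ p * ft v p := by
    intro v p
    have b1 : ft (Y *ᵥ v) p = (τ : ℂ) * ft (BB (rs (0 : Tor d M → ℝ) ζ) *ᵥ v) p := by
      rw [hY, Matrix.smul_mulVec]
      unfold ft
      rw [Finset.mul_sum]
      refine Finset.sum_congr rfl fun x _ => ?_
      rw [Pi.smul_apply, smul_eq_mul]
      ring
    rw [b1, QF.H49.ft_BB hral hftb hζ, mul_assoc]
  have hft1 : ∀ (v : Tor d M → ℂ) (p : Tor d M),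
      ft ((1 - Y) *ᵥ v) p = (1 - (τ : ℂ) * bh ζ p) * ft v p := by
    intro v p
    have b1 : ft ((1 - Y) *ᵥ v) p = ft v p - ft (Y *ᵥ v) p := by
      rw [Matrix.sub_mulVec, Matrix.one_mulVec]
      unfold ft
      rw [← Finset.sum_sub_distrib]
      refine Finset.sum_congr rfl fun x _ => ?_
      rw [Pi.sub_apply, mul_sub]
    rw [b1, hft]
    ring
  have key : ∀ v : Tor d M → ℂ, n2 (Y *ᵥ v) ≤ 118 / 125 * n2 ((1 - Y) *ᵥ v) := by
    intro v
    unfold n2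
    rw [h6, h6, ← pm_mul']
    refine pm_mono fun p => ?_
    rw [hft, hft1, norm_mul ((τ : ℂ) * bh ζ p), norm_mul (1 - (τ : ℂ) * bh ζ p), mul_pow,
      mul_pow (‖1 - (τ : ℂ) * bh ζ p‖), ← mul_assoc]
    exact mul_le_mul_of_nonneg_right (hsy p) (by positivity)
  rw [← hY]
  have hunit : IsUnit (1 - Y).det := by
    rw [isUnit_iff_ne_zero]
    intro h0
    obtain ⟨v, hv, hv0⟩ := Matrix.exists_mulVec_eq_zero_iff.2 h0
    have c1 := key v
    rw [hv0] at c1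
    have c2 : n2 (0 : Tor d M → ℂ) = 0 := by simp [n2]
    rw [c2, mul_zero] at c1
    have c3 : Y *ᵥ v = 0 := by
      funext x
      have c4 : ‖(Y *ᵥ v) x‖ ^ 2 ≤ n2 (Y *ᵥ v) :=
        Finset.single_le_sum (f := fun x => ‖(Y *ᵥ v) x‖ ^ 2) (fun _ _ => by positivity)
          (Finset.mem_univ x)
      have c5 : ‖(Y *ᵥ v) x‖ ^ 2 = 0 := le_antisymm (c4.trans c1) (by positivity)
      exact norm_eq_zero.1 (pow_eq_zero_iff (two_ne_zero) |>.1 c5)
    rw [Matrix.sub_mulVec, Matrix.one_mulVec, c3, sub_zero] at hv0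
    exact hv hv0
  refine ⟨hunit, fun u => ?_⟩
  have c1 := key ((1 - Y)⁻¹ *ᵥ u)
  have c2 : (1 - Y) *ᵥ ((1 - Y)⁻¹ *ᵥ u) = u := by
    rw [Matrix.mulVec_mulVec, Matrix.mul_nonsing_inv _ hunit, Matrix.one_mulVec]
  have c3 : ((1 - Y)⁻¹ - 1) *ᵥ u = Y *ᵥ ((1 - Y)⁻¹ *ᵥ u) := by
    have c4 := c2
    rw [Matrix.sub_mulVec (1 : Matrix (Tor d M) (Tor d M) ℂ) Y, Matrix.one_mulVec] at c4
    rw [Matrix.sub_mulVec, Matrix.one_mulVec]
    nth_rewrite 2 [← c4]
    abel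
  rw [c3]
  rw [c2] at c1
  exact c1

end Pool.Agent.LE.QZ.H38
end
end -- Pool.Agent.Helper38_LQZ.IXI
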