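import Pool.Agent.Helper12_MEB.B116

/-!
# Merged copies (generated) of the modules

* `Pool.Agent.Helper49_LIR.FFB`
* `Pool.Agent.Helper49_LIR.KHL`
-/

set_option autoImplicit false

section -- Pool.Agent.Helper49_LIR.FFB

/-!
# Squad LIR, row FFB: the form bound (deterministic)
-/

set_option autoImplicit false

open scoped BigOperators

noncomputable section

namespace Pool.Agent.LE.IR.H49

open Pool.Agent.BED
open Pool.Agent.LE.IR

variable {d M : ℕ} [NeZero M]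

/-- a divergence form operator -/
def wop (a : Fin d → Tor d M → ℝ) (b : Tor d M → ℝ) (f : Tor d M → ℂ) (x : Tor d M) : ℂ :=
  ∑ i : Fin d, (((a i x : ℝ) : ℂ) * (f x - f (x + ev i)) +
    ((a i (x - ev i) : ℝ) : ℂ) * (f x - f (x - ev i))) + ((b x : ℝ) : ℂ) * f x

/-- Dirichlet form -/
def qf (f : Tor d M → ℂ) : ℝ := ∑ x, ∑ i : Fin d, ‖f (x + ev i) - f x‖ ^ 2

/-- square norm -/
def nf (f : Tor d M → ℂ) : ℝ := ∑ x, ‖f x‖ ^ 2

theorem qf_nonneg (f : Tor d M → ℂ) : 0 ≤ qf f :=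
  Finset.sum_nonneg fun _ _ => Finset.sum_nonneg fun _ _ => by positivity

theorem nf_nonneg (f : Tor d M → ℂ) : 0 ≤ nf f := Finset.sum_nonneg fun _ _ => by positivity

theorem sum_shift (F : Tor d M → ℂ) (e : Tor d M) : ∑ x, F (x - e) = ∑ x, F x :=
  Equiv.sum_comp (Equiv.subRight e) F

theorem sbp (a : Fin d → Tor d M → ℝ) (b : Tor d M → ℝ) (g f : Tor d M → ℂ) :
    ∑ x, (starRingEnd ℂ) (g x) * wop a b f x =
      ∑ x, ∑ i : Fin d, ((a i x : ℝ) : ℂ) * ((starRingEnd ℂ) (g (x + ev i) - g x) * (f (x + ev i) - f x)) +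
        ∑ x, ((b x : ℝ) : ℂ) * ((starRingEnd ℂ) (g x) * f x) := by
  have h1 : ∀ i : Fin d, ∑ x, (starRingEnd ℂ) (g x) * (((a i (x - ev i) : ℝ) : ℂ) * (f x - f (x - ev i))) =
      ∑ x, (starRingEnd ℂ) (g (x + ev i)) * (((a i x : ℝ) : ℂ) * (f (x + ev i) - f x)) := by
    intro i
    rw [← sum_shift (fun x => (starRingEnd ℂ) (g (x + ev i)) * (((a i x : ℝ) : ℂ) * (f (x + ev i) - f x)))
      (ev i)]
    apply Finset.sum_congr rfl
    intro x _
    simp only [sub_add_cancel]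
  have h2 : ∑ x, (starRingEnd ℂ) (g x) * wop a b f x =
      ∑ i : Fin d, ((∑ x, (starRingEnd ℂ) (g x) * (((a i x : ℝ) : ℂ) * (f x - f (x + ev i)))) +
        ∑ x, (starRingEnd ℂ) (g x) * (((a i (x - ev i) : ℝ) : ℂ) * (f x - f (x - ev i)))) +
        ∑ x, ((b x : ℝ) : ℂ) * ((starRingEnd ℂ) (g x) * f x) := by
    simp only [← Finset.sum_add_distrib]
    rw [Finset.sum_comm, ← Finset.sum_add_distrib]
    apply Finset.sum_congr rfl
    intro x _
    unfold wop
    rw [mul_add, Finset.mul_sum]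
    congr 1
    · apply Finset.sum_congr rfl
      intro i _
      ring
    · ring
  rw [h2]
  congr 1
  rw [Finset.sum_comm (s := (Finset.univ : Finset (Tor d M)))]
  apply Finset.sum_congr rfl
  intro i _
  rw [h1, ← Finset.sum_add_distrib]
  apply Finset.sum_congr rfl
  intro x _
  rw [map_sub]
  ring

theorem cs2 {p q r s : ℝ} (hp : 0 ≤ p) (hq : 0 ≤ q) (hr : 0 ≤ r) (hs : 0 ≤ s) :
    Real.sqrt p * Real.sqrt q + Real.sqrt r * Real.sqrt s ≤
      Real.sqrt (p + r) * Real.sqrt (q + s) := by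
  rw [← Real.sqrt_mul (by positivity : 0 ≤ p + r)]
  apply Real.le_sqrt_of_sq_le
  obtain ⟨a, ha, rfl⟩ : ∃ a : ℝ, 0 ≤ a ∧ p = a ^ 2 := ⟨√p, Real.sqrt_nonneg p, (Real.sq_sqrt hp).symm⟩
  obtain ⟨b, hb, rfl⟩ : ∃ a : ℝ, 0 ≤ a ∧ q = a ^ 2 := ⟨√q, Real.sqrt_nonneg q, (Real.sq_sqrt hq).symm⟩
  obtain ⟨a', ha', rfl⟩ : ∃ a : ℝ, 0 ≤ a ∧ r = a ^ 2 := ⟨√r, Real.sqrt_nonneg r, (Real.sq_sqrt hr).symm⟩
  obtain ⟨b', hb', rfl⟩ : ∃ a : ℝ, 0 ≤ a ∧ s = a ^ 2 := ⟨√s, Real.sqrt_nonneg s, (Real.sq_sqrt hs).symm⟩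
  rw [Real.sqrt_sq ha, Real.sqrt_sq hb, Real.sqrt_sq ha', Real.sqrt_sq hb']
  nlinarith only [sq_nonneg (a * b' - b * a')]

theorem wbd (a : Fin d → Tor d M → ℝ) (b : Tor d M → ℝ) (g f : Tor d M → ℂ) {α lam : ℝ}
    (hα : 0 ≤ α) (hl : 0 ≤ lam) (ha : ∀ i x, |a i x| ≤ α) (hb : ∀ x, |b x| ≤ α * lam) :
    ‖∑ x, (starRingEnd ℂ) (g x) * wop a b f x‖ ≤
      α * (Real.sqrt (qf g + lam * nf g) * Real.sqrt (qf f + lam * nf f)) := by
  have h1 : ∑ x, ∑ i : Fin d, ‖g (x + ev i) - g x‖ * ‖f (x + ev i) - f x‖ ≤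
      Real.sqrt (qf g) * Real.sqrt (qf f) := by
    have := Real.sum_mul_le_sqrt_mul_sqrt (Finset.univ : Finset (Tor d M × Fin d))
      (fun y => ‖g (y.1 + ev y.2) - g y.1‖) (fun y => ‖f (y.1 + ev y.2) - f y.1‖)
    simpa only [Fintype.sum_prod_type, qf] using this
  have h2 : ∑ x, ‖g x‖ * ‖f x‖ ≤ Real.sqrt (nf g) * Real.sqrt (nf f) :=
    Real.sum_mul_le_sqrt_mul_sqrt _ _ _
  rw [sbp]
  calc _ ≤ ‖∑ x, ∑ i : Fin d, ((a i x : ℝ) : ℂ) * ((starRingEnd ℂ) (g (x + ev i) - g x) *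
        (f (x + ev i) - f x))‖ + ‖∑ x, ((b x : ℝ) : ℂ) * ((starRingEnd ℂ) (g x) * f x)‖ := norm_add_le _ _
    _ ≤ ∑ x, ∑ i : Fin d, α * (‖g (x + ev i) - g x‖ * ‖f (x + ev i) - f x‖) +
        ∑ x, α * lam * (‖g x‖ * ‖f x‖) := by
      apply add_le_add
      · refine (norm_sum_le _ _).trans (Finset.sum_le_sum fun x _ => ?_)
        refine (norm_sum_le _ _).trans (Finset.sum_le_sum fun i _ => ?_)
        rw [norm_mul, norm_mul, RCLike.norm_conj, Complex.norm_real, Real.norm_eq_abs]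
        exact mul_le_mul_of_nonneg_right (ha i x) (by positivity)
      · refine (norm_sum_le _ _).trans (Finset.sum_le_sum fun x _ => ?_)
        rw [norm_mul, norm_mul, RCLike.norm_conj, Complex.norm_real, Real.norm_eq_abs]
        exact mul_le_mul_of_nonneg_right (hb x) (by positivity)
    _ = α * (∑ x, ∑ i : Fin d, ‖g (x + ev i) - g x‖ * ‖f (x + ev i) - f x‖) +
        α * (lam * ∑ x, ‖g x‖ * ‖f x‖) := by
      simp only [Finset.mul_sum]
      congr 1
      apply Finset.sum_congr rfl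
      intro x _
      ring
    _ ≤ α * (Real.sqrt (qf g) * Real.sqrt (qf f)) +
        α * (lam * (Real.sqrt (nf g) * Real.sqrt (nf f))) := by
      gcongr
    _ = α * (Real.sqrt (qf g) * Real.sqrt (qf f) +
        Real.sqrt (lam * nf g) * Real.sqrt (lam * nf f)) := by
      rw [Real.sqrt_mul hl, Real.sqrt_mul hl]
      have := Real.mul_self_sqrt hl
      linear_combination (-(α * (Real.sqrt (nf g) * Real.sqrt (nf f)))) * this
    _ ≤ _ := by
      apply mul_le_mul_of_nonneg_left _ hα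
      exact cs2 (qf_nonneg g) (qf_nonneg f) (mul_nonneg hl (nf_nonneg g))
        (mul_nonneg hl (nf_nonneg f))

/-! ### operators -/

theorem sub_eq_wop (ω : Tor d M → ℝ) (h lam w l : ℝ) (f : Tor d M → ℂ) (x : Tor d M) :
    aop ω h lam f x - fop w l f x =
      wop (fun i x => ω x * ω (x + ev i) - w ^ 2) (fun x => h * ω x - lam * ω x ^ 2 + w ^ 2 * l)
        f x := by
  unfold aop fop wop
  have : ∑ i : Fin d, ((((ω x * ω (x + ev i) - w ^ 2 : ℝ)) : ℂ) * (f x - f (x + ev i)) +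
      (((ω (x - ev i) * ω (x - ev i + ev i) - w ^ 2 : ℝ)) : ℂ) * (f x - f (x - ev i))) =
      ∑ i : Fin d, (((ω x * ω (x + ev i) : ℝ) : ℂ) * (f x - f (x + ev i)) +
        ((ω x * ω (x - ev i) : ℝ) : ℂ) * (f x - f (x - ev i))) -
      ((w ^ 2 : ℝ) : ℂ) * ∑ i : Fin d, (2 * f x - f (x + ev i) - f (x - ev i)) := by
    rw [Finset.mul_sum, ← Finset.sum_sub_distrib]
    apply Finset.sum_congr rfl
    intro i _
    rw [sub_add_cancel]
    push_cast
    ring
  rw [this]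
  push_cast
  ring

theorem tpo_eq_wop (u : Tor d M → ℝ) (w c : ℝ) (f : Tor d M → ℂ) (x : Tor d M) :
    tpo u w c f x = wop (fun i x => w * (u x + u (x + ev i))) (fun x => c * u x) f x := by
  unfold tpo wop
  rw [Finset.mul_sum]
  congr 1
  apply Finset.sum_congr rfl
  intro i _
  simp only [sub_add_cancel]
  push_cast
  ring

theorem wop_add (a : Fin d → Tor d M → ℝ) (b : Tor d M → ℝ) (f₁ f₂ : Tor d M → ℂ)
    (x : Tor d M) : wop a b (fun y => f₁ y + f₂ y) x = wop a b f₁ x + wop a b f₂ x := by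
  unfold wop
  have : ∀ i : Fin d, (((a i x : ℝ) : ℂ) * (f₁ x + f₂ x - (f₁ (x + ev i) + f₂ (x + ev i))) +
      ((a i (x - ev i) : ℝ) : ℂ) * (f₁ x + f₂ x - (f₁ (x - ev i) + f₂ (x - ev i)))) =
      (((a i x : ℝ) : ℂ) * (f₁ x - f₁ (x + ev i)) +
      ((a i (x - ev i) : ℝ) : ℂ) * (f₁ x - f₁ (x - ev i))) +
      (((a i x : ℝ) : ℂ) * (f₂ x - f₂ (x + ev i)) +
      ((a i (x - ev i) : ℝ) : ℂ) * (f₂ x - f₂ (x - ev i))) := by
    intro i; ring
  rw [Finset.sum_congr rfl fun i _ => this i, Finset.sum_add_distrib]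
  ring

theorem split_low (ω θ : Tor d M → ℝ) (h lam w l : ℝ) (hwl : w ^ 2 * l = w ^ 2 * lam - h * w)
    (f : Tor d M → ℂ) (x : Tor d M) :
    wop (fun i x => ω x * ω (x + ev i) - w ^ 2) (fun x => h * ω x - lam * ω x ^ 2 + w ^ 2 * l)
        f x = tpo θ w (h - 2 * lam * w) f x +
      tpo (fun y => ω y - w - θ y) w (h - 2 * lam * w) f x +
      wop (fun i x => (ω x - w) * (ω (x + ev i) - w)) (fun x => - (lam * (ω x - w) ^ 2)) f x := by
  rw [tpo_eq_wop, tpo_eq_wop]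
  unfold wop
  simp only [hwl]
  have e : ∀ (A B C D A' B' C' D' A'' B'' C'' D'' : ℂ), A = A' + A'' + C → B = B' + B'' + D →
      A + B = (A' + B') + (A'' + B'') + (C + D) := by
    intro A B C D A' B' C' D' A'' B'' C'' D'' h1 h2
    rw [h1, h2]; ring
  refine e _ _ _ _ _ _ 0 0 _ _ 0 0 ?_ ?_
  · rw [← Finset.sum_add_distrib, ← Finset.sum_add_distrib]
    apply Finset.sum_congr rfl
    intro i _
    rw [sub_add_cancel]
    push_cast
    ring
  · push_cast
    ring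

/-! ### Fourier support -/

variable (ftb : FtbStmt)

theorem ft_add (f g : Tor d M → ℂ) (p : Tor d M) :
    ft (fun x => f x + g x) p = ft f p + ft g p := by
  unfold ft
  rw [← Finset.sum_add_distrib]
  exact Finset.sum_congr rfl fun _ _ => by ring

theorem ft_sub (f g : Tor d M → ℂ) (p : Tor d M) :
    ft (fun x => f x - g x) p = ft f p - ft g p := by
  unfold ft
  rw [← Finset.sum_sub_distrib]
  exact Finset.sum_congr rfl fun _ _ => by ring

theorem ft_smul (c : ℂ) (f : Tor d M → ℂ) (p : Tor d M) :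
    ft (fun x => c * f x) p = c * ft f p := by
  unfold ft
  rw [Finset.mul_sum]
  exact Finset.sum_congr rfl fun _ _ => by ring

theorem ft_sum {ι : Type} (s : Finset ι) (f : ι → Tor d M → ℂ) (p : Tor d M) :
    ft (fun x => ∑ i ∈ s, f i x) p = ∑ i ∈ s, ft (f i) p := by
  unfold ft
  rw [Finset.sum_comm]
  exact Finset.sum_congr rfl fun _ _ => by rw [Finset.mul_sum]

/-- Fourier support in `low J` -/
def Sup (J : ℕ) (f : Tor d M → ℂ) : Prop := ∀ p, p ∉ low d M J → ft f p = 0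

theorem Sup.sub {J : ℕ} {f g : Tor d M → ℂ} (hf : Sup J f) (hg : Sup J g) :
    Sup J (fun x => f x - g x) := by
  intro p hp
  rw [ft_sub, hf p hp, hg p hp, sub_zero]

include ftb in
theorem ft_shift (f : Tor d M → ℂ) (e p : Tor d M) :
    ft (fun x => f (x + e)) p = ec p e * ft f p := by
  obtain ⟨hn, hadd, -, hneg, -⟩ := ftb d M
  unfold ft
  rw [Finset.mul_sum]
  have h1 : ∀ x : Tor d M, (starRingEnd ℂ) (ec p x) * f (x + e) =
      (fun y => ec p e * ((starRingEnd ℂ) (ec p y) * f y)) (x + e) := by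
    intro x
    simp only [hadd, map_mul]
    have h2 : (starRingEnd ℂ) (ec p e) * ec p e = 1 := by
      rw [mul_comm, Complex.mul_conj, Complex.normSq_eq_norm_sq, hn]
      simp
    linear_combination (-((starRingEnd ℂ) (ec p x) * f (x + e))) * h2
  rw [Finset.sum_congr rfl fun x _ => h1 x]
  exact Equiv.sum_comp (Equiv.addRight e) (fun y => ec p e * ((starRingEnd ℂ) (ec p y) * f y))

include ftb in
theorem Sup.shift {J : ℕ} {f : Tor d M → ℂ} (hf : Sup J f) (e : Tor d M) :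
    Sup J (fun x => f (x + e)) := by
  intro p hp
  rw [ft_shift ftb, hf p hp, mul_zero]

theorem low_sub {J : ℕ} {p q : Tor d M} (hp : p ∈ low d M J) (hq : q ∈ low d M J) :
    q - p ∈ low d M (2 * J) := by
  unfold low at *
  simp only [Finset.mem_filter, Finset.mem_univ, true_and] at *
  intro i
  have h1 : ((q - p) i).valMinAbs.natAbs ≤ ((q i).valMinAbs - (p i).valMinAbs).natAbs := by
    apply ZMod.natAbs_min_of_le_div_two M _ _ _ (ZMod.natAbs_valMinAbs_le _)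
    push_cast
    simp
  have h2 := hp i
  have h3 := hq i
  have h4 := Int.natAbs_sub_le (q i).valMinAbs (p i).valMinAbs
  omega

include ftb in
theorem Sup.mul {J : ℕ} {f g : Tor d M → ℂ} (hg : Sup J g) (hf : Sup J f) :
    Sup (2 * J) (fun x => (starRingEnd ℂ) (g x) * f x) := by
  obtain ⟨hn, hadd, hadd', hneg, hpl, -⟩ := ftb d M
  intro p hp
  have h1 : ft (fun x => (starRingEnd ℂ) (g x) * f x) p = ∑ x, (starRingEnd ℂ) (ec p x * g x) * f x := by
    unfold ft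
    apply Finset.sum_congr rfl
    intro x _
    rw [map_mul]; ring
  have h2 : ∀ q, ft (fun x => ec p x * g x) q = ft g (q - p) := by
    intro q
    unfold ft
    apply Finset.sum_congr rfl
    intro x _
    rw [sub_eq_add_neg, hadd', map_mul, (hneg p x).1, Complex.conj_conj]
    ring
  rw [h1, hpl]
  have h3 : ∑ q, (starRingEnd ℂ) (ft (fun x => ec p x * g x) q) * ft f q = 0 := by
    apply Finset.sum_eq_zero
    intro q _
    rw [h2]
    by_cases h4 : q ∈ low d M J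
    · by_cases h5 : q - p ∈ low d M J
      · exfalso
        apply hp
        have := low_sub h5 h4
        rwa [sub_sub_cancel] at this
      · rw [hg _ h5]; simp
    · rw [hf _ h4]; simp
  rw [h3, zero_div]

/-- the density which is paired with `u` in the form of `tpo u` -/
def kf (w c : ℝ) (g f : Tor d M → ℂ) (x : Tor d M) : ℂ :=
  (w : ℂ) * ∑ i : Fin d, ((starRingEnd ℂ) (g (x + ev i) - g x) * (f (x + ev i) - f x) +
    (starRingEnd ℂ) (g (x - ev i + ev i) - g (x - ev i)) * (f (x - ev i + ev i) - f (x - ev i))) +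
    (c : ℂ) * ((starRingEnd ℂ) (g x) * f x)

theorem tpo_kf (u : Tor d M → ℝ) (w c : ℝ) (g f : Tor d M → ℂ) :
    ∑ x, (starRingEnd ℂ) (g x) * tpo u w c f x = ∑ x, (u x : ℂ) * kf w c g f x := by
  have h0 : ∑ x, (starRingEnd ℂ) (g x) * tpo u w c f x =
      ∑ x, (starRingEnd ℂ) (g x) * wop (fun i x => w * (u x + u (x + ev i))) (fun x => c * u x) f x :=
    Finset.sum_congr rfl fun x _ => by rw [tpo_eq_wop]
  rw [h0, sbp]
  have h1 : ∀ i : Fin d, ∑ x, ((u (x + ev i) : ℝ) : ℂ) *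
      ((starRingEnd ℂ) (g (x + ev i) - g x) * (f (x + ev i) - f x)) =
      ∑ x, ((u x : ℝ) : ℂ) * ((starRingEnd ℂ) (g (x - ev i + ev i) - g (x - ev i)) *
        (f (x - ev i + ev i) - f (x - ev i))) := by
    intro i
    rw [← sum_shift (fun x => ((u (x + ev i) : ℝ) : ℂ) *
      ((starRingEnd ℂ) (g (x + ev i) - g x) * (f (x + ev i) - f x))) (ev i)]
    apply Finset.sum_congr rfl
    intro x _
    simp only [sub_add_cancel]
  have h2 : ∑ x, ∑ i : Fin d, (((w * (u x + u (x + ev i))) : ℝ) : ℂ) *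
      ((starRingEnd ℂ) (g (x + ev i) - g x) * (f (x + ev i) - f x)) =
      ∑ i : Fin d, ((w : ℂ) * (∑ x, ((u x : ℝ) : ℂ) *
        ((starRingEnd ℂ) (g (x + ev i) - g x) * (f (x + ev i) - f x))) +
        (w : ℂ) * ∑ x, ((u (x + ev i) : ℝ) : ℂ) *
        ((starRingEnd ℂ) (g (x + ev i) - g x) * (f (x + ev i) - f x))) := by
    rw [Finset.sum_comm]
    apply Finset.sum_congr rfl
    intro i _
    rw [Finset.mul_sum, Finset.mul_sum, ← Finset.sum_add_distrib]
    apply Finset.sum_congr rfl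
    intro x _
    push_cast
    ring
  rw [h2]
  simp only [h1]
  unfold kf
  have h3 : ∑ x, ((u x : ℝ) : ℂ) * ((w : ℂ) * ∑ i : Fin d,
      ((starRingEnd ℂ) (g (x + ev i) - g x) * (f (x + ev i) - f x) +
      (starRingEnd ℂ) (g (x - ev i + ev i) - g (x - ev i)) * (f (x - ev i + ev i) - f (x - ev i))) +
      (c : ℂ) * ((starRingEnd ℂ) (g x) * f x)) =
      ∑ i : Fin d, ((w : ℂ) * (∑ x, ((u x : ℝ) : ℂ) *
        ((starRingEnd ℂ) (g (x + ev i) - g x) * (f (x + ev i) - f x))) +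
        (w : ℂ) * ∑ x, ((u x : ℝ) : ℂ) * ((starRingEnd ℂ) (g (x - ev i + ev i) - g (x - ev i)) *
          (f (x - ev i + ev i) - f (x - ev i)))) +
      ∑ x, (((c * u x : ℝ)) : ℂ) * ((starRingEnd ℂ) (g x) * f x) := by
    simp only [Finset.mul_sum, ← Finset.sum_add_distrib]
    rw [Finset.sum_comm, ← Finset.sum_add_distrib]
    apply Finset.sum_congr rfl
    intro x _
    rw [mul_add, Finset.mul_sum]
    congr 1
    · apply Finset.sum_congr rfl
      intro i _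
      ring
    · push_cast
      ring
  rw [h3]

include ftb in
theorem kf_sup {J : ℕ} (w c : ℝ) {g f : Tor d M → ℂ} (hg : Sup J g) (hf : Sup J f) :
    Sup (2 * J) (kf w c g f) := by
  intro p hp
  have e1 : kf w c g f = fun x => (w : ℂ) * (∑ i : Fin d,
      ((starRingEnd ℂ) (g (x + ev i) - g x) * (f (x + ev i) - f x) +
      (starRingEnd ℂ) (g (x - ev i + ev i) - g (x - ev i)) * (f (x - ev i + ev i) - f (x - ev i)))) +
      (c : ℂ) * ((starRingEnd ℂ) (g x) * f x) := rfl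
  have h1 : ∀ i : Fin d, Sup (2 * J) (fun x => (starRingEnd ℂ) (g (x + ev i) - g x) * (f (x + ev i) - f x)) :=
    fun i => Sup.mul ftb ((Sup.shift ftb hg _).sub hg) ((Sup.shift ftb hf _).sub hf)
  have h2 : ∀ i : Fin d, Sup (2 * J) (fun x => (starRingEnd ℂ) (g (x - ev i + ev i) - g (x - ev i)) *
      (f (x - ev i + ev i) - f (x - ev i))) := by
    intro i
    have := Sup.shift ftb (h1 i) (-(ev i))
    simpa only [← sub_eq_add_neg] using this
  rw [e1, ft_add, ft_smul, ft_smul, ft_sum]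
  rw [Sup.mul ftb hg hf p hp, mul_zero, add_zero]
  have : ∀ i ∈ (Finset.univ : Finset (Fin d)), ft (fun x => (starRingEnd ℂ) (g (x + ev i) - g x) *
      (f (x + ev i) - f x) + (starRingEnd ℂ) (g (x - ev i + ev i) - g (x - ev i)) *
      (f (x - ev i + ev i) - f (x - ev i))) p = 0 := by
    intro i _
    rw [ft_add, h1 i p hp, h2 i p hp, add_zero]
  rw [Finset.sum_congr rfl this]
  simp

include ftb in
theorem pair_lpf {J : ℕ} (u : Tor d M → ℝ) {K : Tor d M → ℂ} (hK : Sup J K) :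
    ∑ x, (u x : ℂ) * K x = ∑ x, (lpf J u x : ℂ) * K x := by
  obtain ⟨hn, hadd, hadd', hneg, hpl, -, -, -, -, -, hlp, -⟩ := ftb d M
  have h1 : ∀ v : Tor d M → ℝ, ∑ x, (v x : ℂ) * K x =
      (∑ p, (starRingEnd ℂ) (ft (fun x => (v x : ℂ)) p) * ft K p) / (M : ℂ) ^ d := by
    intro v
    rw [← hpl]
    apply Finset.sum_congr rfl
    intro x _
    rw [Complex.conj_ofReal]
  rw [h1, h1]
  congr 1
  apply Finset.sum_congr rfl
  intro p _
  by_cases hp : p ∈ low d M J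
  · rw [hlp, if_pos hp]
  · rw [hK p hp]; simp

include ftb in
theorem low_pair {J : ℕ} (u : Tor d M → ℝ) (w c : ℝ) {g f : Tor d M → ℂ} (hg : Sup J g)
    (hf : Sup J f) : ∑ x, (starRingEnd ℂ) (g x) * tpo u w c f x =
      ∑ x, (starRingEnd ℂ) (g x) * tpo (lpf (2 * J) u) w c f x := by
  rw [tpo_kf, tpo_kf, pair_lpf ftb u (kf_sup ftb w c hg hf)]

/-! ### sizes -/

theorem pm_mono {F G : Tor d M → ℝ} (h : ∀ p, F p ≤ G p) : pm F ≤ pm G := by
  unfold pm
  exact div_le_div_of_nonneg_right (Finset.sum_le_sum fun p _ => h p) (by positivity)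

theorem pm_nonneg {F : Tor d M → ℝ} (h : ∀ p, 0 ≤ F p) : 0 ≤ pm F := by
  unfold pm
  exact div_nonneg (Finset.sum_nonneg fun p _ => h p) (by positivity)

theorem pm_add (F G : Tor d M → ℝ) : pm (fun p => F p + G p) = pm F + pm G := by
  unfold pm
  rw [Finset.sum_add_distrib, add_div]

theorem pm_mul (c : ℝ) (F : Tor d M → ℝ) : pm (fun p => c * F p) = c * pm F := by
  unfold pm
  rw [← Finset.mul_sum, mul_div_assoc]

/-- the norm of the form bound -/
def mf (l η : ℝ) (f : Tor d M → ℂ) : ℝ := pm fun p => mt l η p * ‖ft f p‖ ^ 2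

theorem mt_nonneg (l η : ℝ) (p : Tor d M) : 0 ≤ mt l η p := Real.sqrt_nonneg _

theorem mf_nonneg (l η : ℝ) (f : Tor d M → ℂ) : 0 ≤ mf l η f :=
  pm_nonneg fun p => mul_nonneg (mt_nonneg l η p) (by positivity)

theorem mt_ge (l η : ℝ) (p : Tor d M) : ds p - l ≤ mt l η p := by
  unfold mt
  apply Real.le_sqrt_of_sq_le
  nlinarith only [sq_nonneg η]

theorem mt_ge' {l η : ℝ} (p : Tor d M) : η ≤ mt l η p := by
  unfold mt
  apply Real.le_sqrt_of_sq_le
  nlinarith only [sq_nonneg (ds p - l)]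

omit [NeZero M] in
theorem cos_up (x : ℝ) : 2 * (1 - Real.cos x) ≤ x ^ 2 := by
  have := Real.one_sub_sq_div_two_le_cos (x := x)
  linarith

theorem ds_low {J : ℕ} {lam : ℝ} (hJ : (J : ℝ) ^ 2 ≤ lam * (M : ℝ) ^ 2) {p : Tor d M}
    (hp : p ∈ low d M J) : ds p ≤ 4 * Real.pi ^ 2 * d * lam := by
  have hM : (0 : ℝ) < M := by exact_mod_cast Nat.pos_of_ne_zero (NeZero.ne M)
  unfold low at hp
  simp only [Finset.mem_filter, Finset.mem_univ, true_and] at hp
  unfold ds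
  calc _ ≤ ∑ _i : Fin d, 4 * Real.pi ^ 2 * lam := by
        apply Finset.sum_le_sum
        intro i _
        refine (cos_up _).trans ?_
        have h1 : (((p i).valMinAbs : ℝ)) ^ 2 ≤ (J : ℝ) ^ 2 := by
          rw [sq_le_sq]
          have := hp i
          rw [Nat.abs_cast]
          rw [← Int.cast_abs, Int.abs_eq_natAbs]
          exact_mod_cast this
        have h2 : (2 * Real.pi * ((p i).valMinAbs : ℝ) / M) ^ 2 =
            4 * Real.pi ^ 2 * (((p i).valMinAbs : ℝ) ^ 2 / (M : ℝ) ^ 2) := by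
          field_simp
          ring
        rw [h2]
        apply mul_le_mul_of_nonneg_left _ (by positivity)
        rw [div_le_iff₀ (by positivity)]
        exact h1.trans hJ
    _ = _ := by
        rw [Finset.sum_const, Finset.card_univ, Fintype.card_fin, nsmul_eq_mul]
        ring

theorem ds_term_nonneg (x : ℝ) : 0 ≤ 2 * (1 - Real.cos x) := by
  have := Real.cos_le_one x
  linarith

theorem ds_high {J : ℕ} {lam : ℝ} (hJ : lam * (M : ℝ) ^ 2 ≤ 4 * (J : ℝ) ^ 2) {p : Tor d M}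
    (hp : p ∉ low d M J) : 4 * lam ≤ ds p := by
  have hM : (0 : ℝ) < M := by exact_mod_cast Nat.pos_of_ne_zero (NeZero.ne M)
  unfold low at hp
  simp only [Finset.mem_filter, Finset.mem_univ, true_and, not_forall, not_le] at hp
  obtain ⟨i, hi⟩ := hp
  have h1 : 2 * (1 - Real.cos (2 * Real.pi * ((p i).valMinAbs : ℝ) / M)) ≤ ds p := by
    unfold ds
    exact Finset.single_le_sum (f := fun i : Fin d =>
      2 * (1 - Real.cos (2 * Real.pi * ((p i).valMinAbs : ℝ) / M)))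
      (fun _ _ => ds_term_nonneg _) (Finset.mem_univ i)
  refine le_trans ?_ h1
  have h2 : |2 * Real.pi * ((p i).valMinAbs : ℝ) / M| ≤ Real.pi := by
    have h3 : ((p i).valMinAbs.natAbs : ℝ) * 2 ≤ M := by
      have := ZMod.natAbs_valMinAbs_le (p i)
      have : (p i).valMinAbs.natAbs * 2 ≤ M := by omega
      exact_mod_cast this
    have h4 : |((p i).valMinAbs : ℝ)| = ((p i).valMinAbs.natAbs : ℝ) := by
      rw [← Int.cast_abs, Int.abs_eq_natAbs]
      simp
    rw [abs_div, abs_mul, h4, abs_of_pos (by positivity), abs_of_pos hM, div_le_iff₀ hM]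
    nlinarith only [Real.pi_pos, h3]
  have h5 := Real.cos_le_one_sub_mul_cos_sq h2
  have h6 : (J : ℝ) ^ 2 ≤ (((p i).valMinAbs : ℝ)) ^ 2 := by
    rw [sq_le_sq, Nat.abs_cast, ← Int.cast_abs, Int.abs_eq_natAbs]
    exact_mod_cast hi.le
  have h7 : 2 / Real.pi ^ 2 * (2 * Real.pi * ((p i).valMinAbs : ℝ) / M) ^ 2 =
      8 * (((p i).valMinAbs : ℝ) ^ 2 / (M : ℝ) ^ 2) := by
    have := Real.pi_ne_zero
    field_simp
    ring
  rw [h7] at h5
  have h8 : lam ≤ 4 * (((p i).valMinAbs : ℝ) ^ 2 / (M : ℝ) ^ 2) := by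
    rw [← mul_div_assoc, le_div_iff₀ (by positivity)]
    linarith only [hJ, h6]
  linarith only [h5, h8]

/-- the energy norm -/
def en (lam : ℝ) (f : Tor d M → ℂ) : ℝ := qf f + lam * nf f

include ftb in
theorem en_eq (lam : ℝ) (f : Tor d M → ℂ) : en lam f = pm fun p => (ds p + lam) * ‖ft f p‖ ^ 2 := by
  obtain ⟨-, -, -, -, -, h1, -, -, -, h2, -⟩ := ftb d M
  unfold en qf nf
  rw [h1, h2, ← pm_mul, ← pm_add]
  congr 1
  ext p
  ring

include ftb in
theorem en_high {J : ℕ} {lam l η : ℝ} (hl : l ≤ lam) (h0 : 0 ≤ lam)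
    (hJ : lam * (M : ℝ) ^ 2 ≤ 4 * (J : ℝ) ^ 2) {f : Tor d M → ℂ}
    (hf : ∀ p ∈ low d M J, ft f p = 0) : en lam f ≤ 5 / 3 * mf l η f := by
  rw [en_eq ftb, mf, ← pm_mul]
  apply pm_mono
  intro p
  by_cases hp : p ∈ low d M J
  · rw [hf p hp]; simp
  · have h1 := ds_high hJ hp
    have h2 := mt_ge l η p
    rw [← mul_assoc]
    exact mul_le_mul_of_nonneg_right (by linarith only [hl, h1, h2]) (by positivity)

include ftb in
theorem en_low {J : ℕ} {lam l η : ℝ} (hη : 0 < η) (h0 : 0 ≤ lam)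
    (hJ : (J : ℝ) ^ 2 ≤ lam * (M : ℝ) ^ 2) {f : Tor d M → ℂ} (hf : Sup J f) :
    en lam f ≤ (4 * Real.pi ^ 2 * d + 1) * (lam / η) * mf l η f := by
  rw [en_eq ftb, mf, ← pm_mul]
  apply pm_mono
  intro p
  by_cases hp : p ∈ low d M J
  · have h1 := ds_low hJ hp
    have h2 := mt_ge' (l := l) (η := η) p
    rw [← mul_assoc]
    apply mul_le_mul_of_nonneg_right _ (by positivity)
    calc ds p + lam ≤ (4 * Real.pi ^ 2 * d + 1) * lam := by linarith
      _ = (4 * Real.pi ^ 2 * d + 1) * (lam / η) * η := by field_simp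
      _ ≤ _ := mul_le_mul_of_nonneg_left h2 (by positivity)
  · rw [hf p hp]; simp

include ftb in
theorem exists_part (J : ℕ) (f : Tor d M → ℂ) : ∃ f₁ f₂ : Tor d M → ℂ, (∀ x, f x = f₁ x + f₂ x) ∧
    Sup J f₁ ∧ (∀ p ∈ low d M J, ft f₂ p = 0) ∧
    ∀ l η, mf l η f₁ ≤ mf l η f ∧ mf l η f₂ ≤ mf l η f := by
  obtain ⟨-, -, -, -, -, -, -, hex, -⟩ := ftb d M
  classical
  obtain ⟨f₁, h1⟩ := hex (fun p => if p ∈ low d M J then ft f p else 0)
  have h2 : ∀ p, ft (fun x => f x - f₁ x) p = if p ∈ low d M J then 0 else ft f p := by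
    intro p
    rw [ft_sub, h1]
    split_ifs <;> simp
  refine ⟨f₁, fun x => f x - f₁ x, fun x => by ring, ?_, ?_, ?_⟩
  · intro p hp
    rw [h1, if_neg hp]
  · intro p hp
    rw [h2, if_pos hp]
  · intro l η
    constructor
    · apply pm_mono
      intro p
      rw [h1]
      split_ifs
      · exact le_rfl
      · simp only [norm_zero, ne_eq, OfNat.ofNat_ne_zero, not_false_eq_true, zero_pow, mul_zero]
        exact mul_nonneg (mt_nonneg l η p) (by positivity)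
    · apply pm_mono
      intro p
      rw [h2]
      split_ifs
      · simp only [norm_zero, ne_eq, OfNat.ofNat_ne_zero, not_false_eq_true, zero_pow, mul_zero]
        exact mul_nonneg (mt_nonneg l η p) (by positivity)
      · exact le_rfl

include ftb in
theorem dual {ω : Tor d M → ℝ} {h lam w l η τ : ℝ} (hη : 0 < η) (hτ : 0 ≤ τ)
    (H : ∀ g f : Tor d M → ℂ, ‖∑ x, (starRingEnd ℂ) (g x) * (aop ω h lam f x - fop w l f x)‖ ≤
      τ * (Real.sqrt (mf l η g) * Real.sqrt (mf l η f))) : FBd ω h lam w l η τ := by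
  obtain ⟨-, -, -, -, hpl, -, -, hex, -⟩ := ftb d M
  intro f
  have hm : ∀ p : Tor d M, 0 < mt l η p := fun p => lt_of_lt_of_le hη (mt_ge' p)
  obtain ⟨g, hg⟩ := hex (fun p => (((mt l η p)⁻¹ : ℝ) : ℂ) *
    ft (fun x => aop ω h lam f x - fop w l f x) p)
  have h1 := H g f
  rw [hpl] at h1
  have e1 : (∑ p, (starRingEnd ℂ) (ft g p) * ft (fun x => aop ω h lam f x - fop w l f x) p) / (M : ℂ) ^ d =
      ((pm (fun p => (mt l η p)⁻¹ * ‖ft (fun x => aop ω h lam f x - fop w l f x) p‖ ^ 2) : ℝ) :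
        ℂ) := by
    unfold pm
    push_cast
    congr 1
    apply Finset.sum_congr rfl
    intro p _
    rw [hg, map_mul, Complex.conj_ofReal, mul_assoc, mul_comm ((starRingEnd ℂ) _), Complex.mul_conj,
      Complex.normSq_eq_norm_sq]
    push_cast
    ring
  have e2 : mf l η g =
      pm (fun p => (mt l η p)⁻¹ * ‖ft (fun x => aop ω h lam f x - fop w l f x) p‖ ^ 2) := by
    unfold mf
    congr 1
    ext p
    rw [hg, norm_mul, Complex.norm_real, Real.norm_eq_abs, abs_of_pos (inv_pos.2 (hm p)), mul_pow]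
    have := (hm p).ne'
    field_simp
  rw [e1, Complex.norm_real, Real.norm_eq_abs, e2] at h1
  set S := pm (fun p => (mt l η p)⁻¹ * ‖ft (fun x => aop ω h lam f x - fop w l f x) p‖ ^ 2)
    with hS
  have hS0 : 0 ≤ S := pm_nonneg fun p => mul_nonneg (inv_nonneg.2 (hm p).le) (by positivity)
  rw [abs_of_nonneg hS0] at h1
  have hB := mf_nonneg l η f
  show S ≤ τ ^ 2 * mf l η f
  by_contra hcon
  push Not at hcon
  have h2 : τ * Real.sqrt (mf l η f) < Real.sqrt S := by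
    apply Real.lt_sqrt_of_sq_lt
    rw [mul_pow, Real.sq_sqrt hB]
    exact hcon
  have h3 : 0 < Real.sqrt S := lt_of_le_of_lt (mul_nonneg hτ (Real.sqrt_nonneg _)) h2
  have h4 := mul_lt_mul_of_pos_left h2 h3
  have h5 := Real.mul_self_sqrt hS0
  linarith only [h1, h4, h5]

theorem ffb_pc {c x y p q A B : ℝ} (hc : 0 ≤ c) (hy0 : 0 ≤ y) (hx : x ≤ p * A)
    (hy : y ≤ q * B) (hpA : 0 ≤ p * A) : c * (x * y) ≤ c * (p * q) * (A * B) := by
  calc c * (x * y) ≤ c * ((p * A) * (q * B)) :=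
        mul_le_mul_of_nonneg_left (mul_le_mul hx hy hy0 hpA) hc
    _ = c * (p * q) * (A * B) := by ring

include ftb in
theorem ffb_core (hd : 1 ≤ d) (J : ℕ) (ω θ : Tor d M → ℝ) (w ε δ₂ h lam l η τ : ℝ) (hε : 0 < ε)
    (hε1 : 40000 * (4 * Real.pi ^ 2 * d + 1) * ε ≤ τ) (hτ : τ ≤ 1) (hw : |w - 1| ≤ 3 * ε)
    (hω : ∀ x, |ω x - 1| ≤ ε) (hh : 0 < h) (hhl : 100 * h ≤ lam) (hl : l = lam - h / w)
    (hJ1 : lam * (M : ℝ) ^ 2 ≤ 4 * (J : ℝ) ^ 2) (hJ2 : (J : ℝ) ^ 2 ≤ lam * (M : ℝ) ^ 2)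
    (hη : 0 < η) (hδ : 0 ≤ δ₂)
    (hlp : ∀ x, |lpf (2 * J) (fun y => ω y - w - θ y) x| ≤ δ₂)
    (hKE : KE J θ w (h - 2 * lam * w) l η (τ / 4))
    (hC1 : 40000 * (4 * Real.pi ^ 2 * d + 1) * ε ^ 2 * lam ≤ τ ^ 2 * η)
    (hC2 : 40000 * (4 * Real.pi ^ 2 * d + 1) * δ₂ * lam ≤ τ * η) (g f : Tor d M → ℂ) :
    ‖∑ x, (starRingEnd ℂ) (g x) * (aop ω h lam f x - fop w l f x)‖ ≤
      τ * (Real.sqrt (mf l η g) * Real.sqrt (mf l η f)) := by
  set k0 := 4 * Real.pi ^ 2 * (d : ℝ) + 1 with hk0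
  have hk1 : 1 ≤ k0 := by rw [hk0]; have : 0 ≤ 4 * Real.pi ^ 2 * (d : ℝ) := by positivity
                          linarith only [this]
  have hlam : 0 < lam := by linarith only [hh, hhl]
  have hεs : ε ≤ τ / 40000 := by
    rw [le_div_iff₀ (by norm_num)]
    have h := mul_le_mul_of_nonneg_right hk1 hε.le
    linarith only [h, hε1]
  have hε2 : ε ≤ 1 / 40000 := by linarith only [hεs, hτ]
  have hτ0 : 0 < τ := by linarith only [hεs, hε]
  have hw1 := abs_le.1 hw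
  have hw0 : 0 < w := by linarith only [hw1.1, hε2]
  have hll : l ≤ lam := by
    rw [hl]
    have : 0 ≤ h / w := (div_pos hh hw0).le
    linarith only [this]
  have hwl : w ^ 2 * l = w ^ 2 * lam - h * w := by
    rw [hl]
    field_simp
  set k := k0 * (lam / η) with hk
  have hkp : 0 ≤ k := by positivity
  have hk3 : ε ^ 2 * k ≤ τ ^ 2 / 40000 := by
    rw [hk]
    have : ε ^ 2 * (k0 * (lam / η)) = (40000 * k0 * ε ^ 2 * lam) / (40000 * η) := by
      field_simp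
    rw [this, div_le_div_iff₀ (by linarith only [hη]) (by norm_num)]
    linarith only [hC1]
  have hk4 : δ₂ * k ≤ τ / 40000 := by
    rw [hk]
    have : δ₂ * (k0 * (lam / η)) = (40000 * k0 * δ₂ * lam) / (40000 * η) := by
      field_simp
    rw [this, div_le_div_iff₀ (by linarith only [hη]) (by norm_num)]
    linarith only [hC2]
  have hk5 : ε * Real.sqrt k ≤ τ / 200 := by
    have h1 : (ε * Real.sqrt k) ^ 2 ≤ (τ / 200) ^ 2 := by
      rw [mul_pow, Real.sq_sqrt hkp]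
      calc _ ≤ _ := hk3
        _ = _ := by ring
    exact (abs_le_of_sq_le_sq' h1 (by linarith only [hτ0])).2
  obtain ⟨g₁, g₂, hg, hg1, hg2, hgm⟩ := exists_part ftb J g
  obtain ⟨f₁, f₂, hf, hf1, hf2, hfm⟩ := exists_part ftb J f
  set A := mf l η g with hA
  set B := mf l η f with hB
  have hA0 : 0 ≤ A := mf_nonneg l η g
  have hB0 : 0 ≤ B := mf_nonneg l η f
  -- square roots of the energies
  have hs : ∀ {X c Y : ℝ}, 0 ≤ c → X ≤ c * Y → Real.sqrt X ≤ Real.sqrt c * Real.sqrt Y := by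
    intro X c Y hc hX
    rw [← Real.sqrt_mul hc]
    exact Real.sqrt_le_sqrt hX
  have hgL : Real.sqrt (qf g₁ + lam * nf g₁) ≤ Real.sqrt k * Real.sqrt A :=
    hs hkp ((en_low ftb hη hlam.le hJ2 hg1).trans
      (mul_le_mul_of_nonneg_left (hgm l η).1 hkp))
  have hfL : Real.sqrt (qf f₁ + lam * nf f₁) ≤ Real.sqrt k * Real.sqrt B :=
    hs hkp ((en_low ftb hη hlam.le hJ2 hf1).trans
      (mul_le_mul_of_nonneg_left (hfm l η).1 hkp))
  have hgH : Real.sqrt (qf g₂ + lam * nf g₂) ≤ Real.sqrt (5 / 3) * Real.sqrt A :=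
    hs (by norm_num) ((en_high ftb hll hlam.le hJ1 hg2).trans
      (mul_le_mul_of_nonneg_left (hgm l η).2 (by norm_num)))
  have hfH : Real.sqrt (qf f₂ + lam * nf f₂) ≤ Real.sqrt (5 / 3) * Real.sqrt B :=
    hs (by norm_num) ((en_high ftb hll hlam.le hJ1 hf2).trans
      (mul_le_mul_of_nonneg_left (hfm l η).2 (by norm_num)))
  -- coefficient bounds
  have hδω : ∀ x, |ω x - w| ≤ 4 * ε := by
    intro x
    have := hω x
    have h1 : ω x - w = (ω x - 1) - (w - 1) := by ring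
    rw [h1]
    exact (abs_sub _ _).trans (by linarith only [this, hw])
  have hωa : ∀ x, |ω x| ≤ 1 + ε := by
    intro x
    have h1 : ω x = (ω x - 1) + 1 := by ring
    rw [h1]
    exact (abs_add_le _ _).trans (by rw [abs_one]; linarith only [hω x])
  have ha : ∀ (i : Fin d) (x : Tor d M), |ω x * ω (x + ev i) - w ^ 2| ≤ 10 * ε := by
    intro i x
    have e : ω x * ω (x + ev i) - w ^ 2 = (ω x - w) * ω (x + ev i) + w * (ω (x + ev i) - w) := by
      ring
    rw [e]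
    refine (abs_add_le _ _).trans ?_
    rw [abs_mul, abs_mul, abs_of_pos hw0]
    have h1 : |ω x - w| * |ω (x + ev i)| ≤ 4 * ε * (1 + ε) :=
      mul_le_mul (hδω x) (hωa _) (abs_nonneg _) (by linarith only [hε])
    have h2 : w * |ω (x + ev i) - w| ≤ (1 + 3 * ε) * (4 * ε) :=
      mul_le_mul (by linarith only [hw1.2]) (hδω _) (abs_nonneg _) (by linarith only [hε])
    have h3 : ε * ε ≤ ε * (1 / 40000) := mul_le_mul_of_nonneg_left hε2 hε.le
    linarith only [h1, h2, h3, hε]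
  have hb : ∀ x : Tor d M, |h * ω x - lam * ω x ^ 2 + w ^ 2 * l| ≤ 10 * ε * lam := by
    intro x
    have e : h * ω x - lam * ω x ^ 2 + w ^ 2 * l = (ω x - w) * (h - lam * (ω x + w)) := by
      rw [hwl]; ring
    rw [e, abs_mul]
    have h1 : |h - lam * (ω x + w)| ≤ 5 / 2 * lam := by
      have h3 := abs_le.1 (hω x)
      rw [abs_le]
      have h4 : ω x + w ≤ 5 / 2 := by linarith only [h3.2, hw1.2, hε2]
      have h5 := mul_le_mul_of_nonneg_left h4 hlam.le
      have h6 : 0 ≤ ω x + w := by linarith only [h3.1, hw0, hε2]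
      have h7 := mul_nonneg hlam.le h6
      constructor
      · linarith only [h5, hh]
      · linarith only [h7, hhl, hlam]
    calc |ω x - w| * |h - lam * (ω x + w)| ≤ 4 * ε * (5 / 2 * lam) :=
          mul_le_mul (hδω x) h1 (abs_nonneg _) (by linarith only [hε])
      _ = _ := by ring
  have ha2 : ∀ (i : Fin d) (x : Tor d M), |(ω x - w) * (ω (x + ev i) - w)| ≤ 16 * ε ^ 2 := by
    intro i x
    rw [abs_mul]
    calc _ ≤ 4 * ε * (4 * ε) := mul_le_mul (hδω x) (hδω _) (abs_nonneg _) (by linarith only [hε])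
      _ = _ := by ring
  have hb2 : ∀ x : Tor d M, |-(lam * (ω x - w) ^ 2)| ≤ 16 * ε ^ 2 * lam := by
    intro x
    rw [abs_neg, abs_mul, abs_of_pos hlam, abs_pow]
    have := mul_le_mul_of_nonneg_left (pow_le_pow_left₀ (abs_nonneg _) (hδω x) 2) hlam.le
    linarith only [this]
  -- the pieces
  have h10 : (0 : ℝ) ≤ 10 * ε := by linarith only [hε]
  have h16 : (0 : ℝ) ≤ 16 * ε ^ 2 := by positivity
  have h3δ : (0 : ℝ) ≤ 3 * δ₂ := by linarith only [hδ]
  have T1 := wbd _ _ g₂ f₂ h10 hlam.le ha hb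
  have T2 := wbd _ _ g₂ f₁ h10 hlam.le ha hb
  have T3 := wbd _ _ g₁ f₂ h10 hlam.le ha hb
  have T6 := wbd _ _ g₁ f₁ h16 hlam.le ha2 hb2
  have T5 : ‖∑ x, (starRingEnd ℂ) (g₁ x) * tpo (fun y => ω y - w - θ y) w (h - 2 * lam * w) f₁ x‖ ≤
      3 * δ₂ * (Real.sqrt (qf g₁ + lam * nf g₁) * Real.sqrt (qf f₁ + lam * nf f₁)) := by
    rw [low_pair ftb _ _ _ hg1 hf1]
    have e : ∑ x, (starRingEnd ℂ) (g₁ x) * tpo (lpf (2 * J) fun y => ω y - w - θ y) w (h - 2 * lam * w) f₁ x =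
        ∑ x, (starRingEnd ℂ) (g₁ x) * wop (fun i x => w * (lpf (2 * J) (fun y => ω y - w - θ y) x +
          lpf (2 * J) (fun y => ω y - w - θ y) (x + ev i)))
          (fun x => (h - 2 * lam * w) * lpf (2 * J) (fun y => ω y - w - θ y) x) f₁ x :=
      Finset.sum_congr rfl fun x _ => by rw [tpo_eq_wop]
    rw [e]
    refine wbd _ _ g₁ f₁ h3δ hlam.le ?_ ?_
    · intro i x
      rw [abs_mul, abs_of_pos hw0]
      have h1 : |lpf (2 * J) (fun y => ω y - w - θ y) x +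
          lpf (2 * J) (fun y => ω y - w - θ y) (x + ev i)| ≤ 2 * δ₂ :=
        (abs_add_le _ _).trans (by linarith only [hlp x, hlp (x + ev i)])
      calc _ ≤ 3 / 2 * (2 * δ₂) :=
            mul_le_mul (by linarith only [hw1.2, hε2]) h1 (abs_nonneg _) (by norm_num)
        _ = _ := by ring
    · intro x
      rw [abs_mul]
      have h1 : |h - 2 * lam * w| ≤ 3 * lam := by
        rw [abs_le]
        have h4 : w ≤ 3 / 2 := by linarith only [hw1.2, hε2]
        have h5 := mul_le_mul_of_nonneg_left h4 hlam.le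
        have h7 := mul_pos hlam hw0
        constructor
        · linarith only [h5, hh]
        · linarith only [h7, hhl, hlam]
      calc _ ≤ 3 * lam * δ₂ := mul_le_mul h1 (hlp x) (abs_nonneg _) (by linarith only [hlam])
        _ = _ := by ring
  have T4 : ‖∑ x, (starRingEnd ℂ) (g₁ x) * tpo θ w (h - 2 * lam * w) f₁ x‖ ≤
      τ / 4 * (Real.sqrt A * Real.sqrt B) := by
    have h1 := hKE f₁ g₁ hf1 hg1
    have h2 : (τ / 4) ^ 2 * (pm (fun p => mt l η p * ‖ft g₁ p‖ ^ 2) *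
        pm (fun p => mt l η p * ‖ft f₁ p‖ ^ 2)) ≤ (τ / 4 * (Real.sqrt A * Real.sqrt B)) ^ 2 := by
      rw [mul_pow, mul_pow, Real.sq_sqrt hA0, Real.sq_sqrt hB0]
      apply mul_le_mul_of_nonneg_left _ (by positivity)
      exact mul_le_mul (hgm l η).1 (hfm l η).1 (mf_nonneg l η f₁) hA0
    exact (abs_le_of_sq_le_sq' (h1.trans h2) (by positivity)).2
  -- expansion
  set W : (Tor d M → ℂ) → Tor d M → ℂ := wop (fun i x => ω x * ω (x + ev i) - w ^ 2)
    (fun x => h * ω x - lam * ω x ^ 2 + w ^ 2 * l) with hW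
  have hexp : ∑ x, (starRingEnd ℂ) (g x) * (aop ω h lam f x - fop w l f x) =
      (∑ x, (starRingEnd ℂ) (g₂ x) * W f₂ x) + (∑ x, (starRingEnd ℂ) (g₂ x) * W f₁ x) + (∑ x, (starRingEnd ℂ) (g₁ x) * W f₂ x) +
      ((∑ x, (starRingEnd ℂ) (g₁ x) * tpo θ w (h - 2 * lam * w) f₁ x) +
      (∑ x, (starRingEnd ℂ) (g₁ x) * tpo (fun y => ω y - w - θ y) w (h - 2 * lam * w) f₁ x) +
      ∑ x, (starRingEnd ℂ) (g₁ x) * wop (fun i x => (ω x - w) * (ω (x + ev i) - w))
        (fun x => - (lam * (ω x - w) ^ 2)) f₁ x) := by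
    simp only [← Finset.sum_add_distrib]
    apply Finset.sum_congr rfl
    intro x _
    have e0 : f = fun x => f₁ x + f₂ x := funext hf
    have e1 : aop ω h lam f x - fop w l f x = W f₁ x + W f₂ x := by
      rw [sub_eq_wop, e0, wop_add]
    have e2 : W f₁ x = tpo θ w (h - 2 * lam * w) f₁ x +
      tpo (fun y => ω y - w - θ y) w (h - 2 * lam * w) f₁ x +
      wop (fun i x => (ω x - w) * (ω (x + ev i) - w)) (fun x => - (lam * (ω x - w) ^ 2)) f₁ x :=
      split_low ω θ h lam w l hwl f₁ x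
    rw [e1, hg x, map_add]
    linear_combination ((starRingEnd ℂ) (g₁ x)) * e2
  rw [hexp]
  have hrA := Real.sqrt_nonneg A
  have hrB := Real.sqrt_nonneg B
  have hrk := Real.sqrt_nonneg k
  have h53 : Real.sqrt (5 / 3) ≤ 13 / 10 := by
    rw [Real.sqrt_le_left (by norm_num)]
    norm_num
  have h53' := Real.sqrt_nonneg (5 / 3 : ℝ)
  have hAB : 0 ≤ Real.sqrt A * Real.sqrt B := mul_nonneg hrA hrB
  have kk := Real.mul_self_sqrt hkp
  have q53 : Real.sqrt (5 / 3) * Real.sqrt (5 / 3) = (5 / 3 : ℝ) :=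
    Real.mul_self_sqrt (by norm_num)
  have hgH' := hgH.trans (mul_le_mul_of_nonneg_right h53 hrA)
  have hfH' := hfH.trans (mul_le_mul_of_nonneg_right h53 hrB)
  have h13A : 0 ≤ 13 / 10 * Real.sqrt A := mul_nonneg (by norm_num) hrA
  have hkA : 0 ≤ Real.sqrt k * Real.sqrt A := mul_nonneg hrk hrA
  have P1 : 10 * ε * (Real.sqrt (qf g₂ + lam * nf g₂) * Real.sqrt (qf f₂ + lam * nf f₂)) ≤
      (50 / 3 * ε) * (Real.sqrt A * Real.sqrt B) := by
    refine (ffb_pc h10 (Real.sqrt_nonneg _) hgH hfH (mul_nonneg h53' hrA)).trans_eq ?_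
    rw [q53]
    ring
  have P2 : 10 * ε * (Real.sqrt (qf g₂ + lam * nf g₂) * Real.sqrt (qf f₁ + lam * nf f₁)) ≤
      (13 * (ε * Real.sqrt k)) * (Real.sqrt A * Real.sqrt B) := by
    refine (ffb_pc h10 (Real.sqrt_nonneg _) hgH' hfL h13A).trans_eq ?_
    ring
  have P3 : 10 * ε * (Real.sqrt (qf g₁ + lam * nf g₁) * Real.sqrt (qf f₂ + lam * nf f₂)) ≤
      (13 * (ε * Real.sqrt k)) * (Real.sqrt A * Real.sqrt B) := by
    refine (ffb_pc h10 (Real.sqrt_nonneg _) hgL hfH' hkA).trans_eq ?_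
    ring
  have P5 : 3 * δ₂ * (Real.sqrt (qf g₁ + lam * nf g₁) * Real.sqrt (qf f₁ + lam * nf f₁)) ≤
      (3 * (δ₂ * k)) * (Real.sqrt A * Real.sqrt B) := by
    refine (ffb_pc h3δ (Real.sqrt_nonneg _) hgL hfL hkA).trans_eq ?_
    rw [kk]
    ring
  have P6 : 16 * ε ^ 2 * (Real.sqrt (qf g₁ + lam * nf g₁) * Real.sqrt (qf f₁ + lam * nf f₁)) ≤
      (16 * (ε ^ 2 * k)) * (Real.sqrt A * Real.sqrt B) := by
    refine (ffb_pc h16 (Real.sqrt_nonneg _) hgL hfL hkA).trans_eq ?_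
    rw [kk]
    ring
  have hτ2 : τ ^ 2 ≤ τ := by
    rw [sq]
    exact mul_le_of_le_one_left hτ0.le hτ
  have hsum : 50 / 3 * ε + 13 * (ε * Real.sqrt k) + 13 * (ε * Real.sqrt k) + (τ / 4 +
      3 * (δ₂ * k) + 16 * (ε ^ 2 * k)) ≤ τ := by
    linarith only [hεs, hk3, hk4, hk5, hτ2, hτ0]
  refine (norm_add_le _ _).trans ?_
  have N1 := norm_add₃_le (a := ∑ x, (starRingEnd ℂ) (g₂ x) * W f₂ x) (b := ∑ x, (starRingEnd ℂ) (g₂ x) * W f₁ x)
    (c := ∑ x, (starRingEnd ℂ) (g₁ x) * W f₂ x)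
  have N2 := norm_add₃_le (a := ∑ x, (starRingEnd ℂ) (g₁ x) * tpo θ w (h - 2 * lam * w) f₁ x)
    (b := ∑ x, (starRingEnd ℂ) (g₁ x) * tpo (fun y => ω y - w - θ y) w (h - 2 * lam * w) f₁ x)
    (c := ∑ x, (starRingEnd ℂ) (g₁ x) * wop (fun i x => (ω x - w) * (ω (x + ev i) - w))
        (fun x => - (lam * (ω x - w) ^ 2)) f₁ x)
  calc _ ≤ (50 / 3 * ε + 13 * (ε * Real.sqrt k) + 13 * (ε * Real.sqrt k) + (τ / 4 +
      3 * (δ₂ * k) + 16 * (ε ^ 2 * k))) * (Real.sqrt A * Real.sqrt B) := by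
        linarith only [N1, N2, T1, T2, T3, T4, T5, T6, P1, P2, P3, P5, P6]
    _ ≤ _ := mul_le_mul_of_nonneg_right hsum hAB

theorem ffb (ftb : FtbStmt) : FfbStmt := by
  intro d hd
  refine ⟨40000 * (4 * Real.pi ^ 2 * d + 1), ?_, ?_⟩
  · have : 0 ≤ 4 * Real.pi ^ 2 * (d : ℝ) := by positivity
    linarith only [this]
  · intro M J _ ω θ w ε δ₂ h lam l η τ hε hε1 hτ hw hω hh hhl _ hl hJ1 hJ2 hη _ hδ hlp hKE hC1 hC2
    have hτ0 : 0 ≤ τ := le_trans (by positivity) hε1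
    exact dual ftb hη hτ0 (ffb_core ftb hd J ω θ w ε δ₂ h lam l η τ hε hε1 hτ hw hω hh hhl hl hJ1
      hJ2 hη hδ hlp hKE hC1 hC2)

end Pool.Agent.LE.IR.H49
end
end -- Pool.Agent.Helper49_LIR.FFB

section -- Pool.Agent.Helper49_LIR.KHL

/-!
# Squad LIR, row KHL: the linear part on the low momenta (noncommutative Khintchine inequality)
-/

set_option autoImplicit false

open MeasureTheory ProbabilityTheory

open scoped BigOperators NNReal

noncomputable section

namespace Pool.Agent.LE.IR.H49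

open Pool.Agent.Anderson (nsq)
open Pool.Agent.BED
open Pool.Agent.LE.IR

variable {d M : ℕ} [NeZero M]

/-- the symbol of `tpo` on characters -/
def ts (w c : ℝ) (p q : Tor d M) : ℂ :=
  (w : ℂ) * ∑ i : Fin d, (1 + ec (p - q) (ev i)) *
    ((starRingEnd ℂ) (ec p (ev i) - 1) * (ec q (ev i) - 1)) + (c : ℂ)

theorem ec_sub_left (p q y : Tor d M) : ec (p - q) y = ec p y * (starRingEnd ℂ) (ec q y) := by
  rw [sub_eq_add_neg, H54.ec_add_left, H54.ec_neg_left]

theorem ec_mul_conj (p y : Tor d M) : ec p y * (starRingEnd ℂ) (ec p y) = 1 := by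
  rw [Complex.mul_conj, Complex.normSq_eq_norm_sq, H54.ec_norm]
  simp

theorem kf_ec (w c : ℝ) (p q x : Tor d M) :
    kf w c (fun y => ec p y) (fun y => ec q y) x = (starRingEnd ℂ) (ec (p - q) x) * ts w c p q := by
  unfold kf ts
  have h1 : ∀ i : Fin d, ((starRingEnd ℂ) (ec p (x + ev i) - ec p x) * (ec q (x + ev i) - ec q x) +
      (starRingEnd ℂ) (ec p (x - ev i + ev i) - ec p (x - ev i)) *
        (ec q (x - ev i + ev i) - ec q (x - ev i))) =
      (starRingEnd ℂ) (ec (p - q) x) * ((1 + ec (p - q) (ev i)) *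
        ((starRingEnd ℂ) (ec p (ev i) - 1) * (ec q (ev i) - 1))) := by
    intro i
    rw [sub_add_cancel, ec_sub_left, ec_sub_left, H54.ec_add, H54.ec_add, H54.ec_sub, H54.ec_sub]
    simp only [map_sub, map_mul, Complex.conj_conj, map_one]
    have h1 := ec_mul_conj p (ev i)
    have h2 := ec_mul_conj q (ev i)
    set a := ec p (ev i)
    set a' := (starRingEnd ℂ) a
    set b := ec q (ev i)
    set b' := (starRingEnd ℂ) b
    set u := (starRingEnd ℂ) (ec p x)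
    set v := ec q x
    linear_combination (u * v * b' * (1 - b)) * h1 + (u * v * (a - 1)) * h2
  rw [Finset.sum_congr rfl fun i _ => h1 i, ← Finset.mul_sum, ec_sub_left]
  simp only [map_mul, Complex.conj_conj]
  ring

theorem tpo_ec (θ : Tor d M → ℝ) (w c : ℝ) (p q : Tor d M) :
    ∑ x, (starRingEnd ℂ) (ec p x) * tpo θ w c (fun y => ec q y) x =
      ft (fun x => (θ x : ℂ)) (p - q) * ts w c p q := by
  rw [tpo_kf (g := fun y => ec p y)]
  unfold ft
  rw [Finset.sum_mul]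
  apply Finset.sum_congr rfl
  intro x _
  rw [kf_ec]
  ring

theorem tpo_sum (θ : Tor d M → ℝ) (w c : ℝ) {ι : Type} (s : Finset ι) (a : ι → ℂ)
    (F : ι → Tor d M → ℂ) (x : Tor d M) :
    tpo θ w c (fun y => ∑ q ∈ s, a q * F q y) x = ∑ q ∈ s, a q * tpo θ w c (F q) x := by
  have h1 : ∀ q, a q * tpo θ w c (F q) x = (w : ℂ) * ∑ i : Fin d, a q *
      (((θ x + θ (x + ev i) : ℝ) : ℂ) * (F q x - F q (x + ev i)) +
      ((θ x + θ (x - ev i) : ℝ) : ℂ) * (F q x - F q (x - ev i))) +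
      ((c * θ x : ℝ) : ℂ) * (a q * F q x) := by
    intro q
    unfold tpo
    rw [← Finset.mul_sum]
    ring
  rw [Finset.sum_congr rfl fun q _ => h1 q, Finset.sum_add_distrib, ← Finset.mul_sum,
    ← Finset.mul_sum, Finset.sum_comm]
  unfold tpo
  congr 2
  apply Finset.sum_congr rfl
  intro i _
  rw [← Finset.sum_sub_distrib, ← Finset.sum_sub_distrib, Finset.mul_sum, Finset.mul_sum,
    ← Finset.sum_add_distrib]
  apply Finset.sum_congr rfl
  intro q _
  ring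

theorem form_ft (θ : Tor d M → ℝ) (w c : ℝ) (g f : Tor d M → ℂ) :
    ∑ x, (starRingEnd ℂ) (g x) * tpo θ w c f x =
      (∑ p, ∑ q, (starRingEnd ℂ) (ft g p) * (ft f q * (ft (fun x => (θ x : ℂ)) (p - q) * ts w c p q))) /
        ((M : ℂ) ^ d * (M : ℂ) ^ d) := by
  have hM : (M : ℂ) ^ d ≠ 0 := H54.Mne
  have hf : f = fun y => ∑ q, (ft f q / (M : ℂ) ^ d) * ec q y := by
    ext y
    rw [H54.inversion f y, Finset.sum_div]
    apply Finset.sum_congr rfl
    intro q _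
    ring
  have hg : ∀ x, (starRingEnd ℂ) (g x) = ∑ p, ((starRingEnd ℂ) (ft g p) / (M : ℂ) ^ d) * (starRingEnd ℂ) (ec p x) := by
    intro x
    rw [H54.inversion g x, map_div₀, map_sum, Finset.sum_div]
    apply Finset.sum_congr rfl
    intro q _
    simp only [map_mul, map_pow, map_natCast]
    ring
  have h1 : ∀ x, (starRingEnd ℂ) (g x) * tpo θ w c f x = ∑ p, ∑ q, ((starRingEnd ℂ) (ft g p) / (M : ℂ) ^ d) *
      ((ft f q / (M : ℂ) ^ d) * ((starRingEnd ℂ) (ec p x) * tpo θ w c (fun y => ec q y) x)) := by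
    intro x
    conv_lhs => rw [hf]
    rw [tpo_sum θ w c Finset.univ (fun q => ft f q / (M : ℂ) ^ d) (fun q y => ec q y), hg x,
      Finset.sum_mul]
    apply Finset.sum_congr rfl
    intro p _
    rw [Finset.mul_sum]
    apply Finset.sum_congr rfl
    intro q _
    ring
  rw [Finset.sum_congr rfl fun x _ => h1 x, Finset.sum_comm, Finset.sum_div]
  apply Finset.sum_congr rfl
  intro p _
  rw [Finset.sum_comm, Finset.sum_div]
  apply Finset.sum_congr rfl
  intro q _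
  rw [← Finset.mul_sum, ← Finset.mul_sum, tpo_ec]
  field_simp

/-! ### size of the symbol -/

theorem ec_sub_one (p : Tor d M) (i : Fin d) :
    ‖ec p (ev i) - 1‖ ^ 2 = 2 * (1 - Real.cos (2 * Real.pi * ((p i).valMinAbs : ℝ) / M)) := by
  rw [← Complex.normSq_eq_norm_sq, Complex.normSq_sub]
  have h1 : Complex.normSq (ec p (ev i)) = 1 := by
    rw [Complex.normSq_eq_norm_sq, H54.ec_norm]; norm_num
  rw [h1]
  simp only [map_one, mul_one]
  rw [H54.ec_ev, H54.std_re]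
  ring

theorem ec_sub_one_low {J : ℕ} {lam : ℝ} (hJ : (J : ℝ) ^ 2 ≤ lam * (M : ℝ) ^ 2) {p : Tor d M}
    (hp : p ∈ low d M J) (i : Fin d) : ‖ec p (ev i) - 1‖ ^ 2 ≤ 4 * Real.pi ^ 2 * lam := by
  have hM : (0 : ℝ) < M := by exact_mod_cast Nat.pos_of_ne_zero (NeZero.ne M)
  unfold low at hp
  simp only [Finset.mem_filter, Finset.mem_univ, true_and] at hp
  rw [ec_sub_one]
  refine (cos_up _).trans ?_
  have h1 : (((p i).valMinAbs : ℝ)) ^ 2 ≤ (J : ℝ) ^ 2 := by
    rw [sq_le_sq]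
    have := hp i
    rw [Nat.abs_cast]
    rw [← Int.cast_abs, Int.abs_eq_natAbs]
    exact_mod_cast this
  have h2 : (2 * Real.pi * ((p i).valMinAbs : ℝ) / M) ^ 2 =
      4 * Real.pi ^ 2 * (((p i).valMinAbs : ℝ) ^ 2 / (M : ℝ) ^ 2) := by
    field_simp
    ring
  rw [h2]
  apply mul_le_mul_of_nonneg_left _ (by positivity)
  rw [div_le_iff₀ (by positivity)]
  exact h1.trans hJ

theorem ts_low {J : ℕ} {lam w c : ℝ} (hlam : 0 ≤ lam) (hw : 0 ≤ w) (hw2 : w ≤ 2)
    (hc : |c| ≤ 5 * lam)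
    (hJ : (J : ℝ) ^ 2 ≤ lam * (M : ℝ) ^ 2) {p q : Tor d M}
    (hp : p ∈ low d M J) (hq : q ∈ low d M J) :
    ‖ts w c p q‖ ≤ (16 * Real.pi ^ 2 * d + 5) * lam := by
  have h1 : ∀ i : Fin d, ‖(1 + ec (p - q) (ev i)) *
      ((starRingEnd ℂ) (ec p (ev i) - 1) * (ec q (ev i) - 1))‖ ≤ 8 * Real.pi ^ 2 * lam := by
    intro i
    rw [norm_mul, norm_mul, RCLike.norm_conj]
    have a1 : ‖1 + ec (p - q) (ev i)‖ ≤ 2 := by
      refine (norm_add_le _ _).trans ?_
      rw [norm_one, H54.ec_norm]; norm_num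
    have a2 := ec_sub_one_low hJ hp i
    have a3 := ec_sub_one_low hJ hq i
    have a4 : ‖ec p (ev i) - 1‖ * ‖ec q (ev i) - 1‖ ≤ 4 * Real.pi ^ 2 * lam := by
      nlinarith only [sq_nonneg (‖ec p (ev i) - 1‖ - ‖ec q (ev i) - 1‖), a2, a3]
    calc _ ≤ 2 * (4 * Real.pi ^ 2 * lam) :=
          mul_le_mul a1 a4 (by positivity) (by norm_num)
      _ = _ := by ring
  unfold ts
  refine (norm_add_le _ _).trans ?_
  rw [norm_mul, Complex.norm_real, Complex.norm_real, Real.norm_eq_abs, Real.norm_eq_abs,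
    abs_of_nonneg hw]
  have h2 : ‖∑ i : Fin d, (1 + ec (p - q) (ev i)) *
      ((starRingEnd ℂ) (ec p (ev i) - 1) * (ec q (ev i) - 1))‖ ≤ d * (8 * Real.pi ^ 2 * lam) := by
    refine (norm_sum_le _ _).trans ?_
    refine (Finset.sum_le_sum fun i _ => h1 i).trans ?_
    rw [Finset.sum_const, Finset.card_univ, Fintype.card_fin, nsmul_eq_mul]
  have h3 : w * ‖∑ i : Fin d, (1 + ec (p - q) (ev i)) *
      ((starRingEnd ℂ) (ec p (ev i) - 1) * (ec q (ev i) - 1))‖ ≤ 2 * (d * (8 * Real.pi ^ 2 * lam)) :=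
    mul_le_mul hw2 h2 (norm_nonneg _) (by norm_num)
  linarith

theorem ds_neg (p : Tor d M) : ds (-p) = ds p := by
  have h1 := H54.ds_eq p
  have h2 := H54.ds_eq (-p)
  have h3 : (ds (-p) : ℂ) = (ds p : ℂ) := by
    rw [h1, h2]
    apply Finset.sum_congr rfl
    intro i _
    rw [H54.ec_neg_left, Complex.conj_conj]
    ring
  exact_mod_cast h3

theorem ts_conj (w c : ℝ) (p q : Tor d M) : (starRingEnd ℂ) (ts w c q p) = ts w c p q := by
  unfold ts
  rw [map_add, map_mul, Complex.conj_ofReal, Complex.conj_ofReal, map_sum]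
  congr 2
  apply Finset.sum_congr rfl
  intro i _
  simp only [map_mul, map_add, map_sub, map_one, Complex.conj_conj, ec_sub_left]
  ring

/-- the index set -/
abbrev Lo (d M J : ℕ) [NeZero M] : Type := {p : Tor d M // p ∈ low d M J}

/-- the matrices -/
def Xm (J : ℕ) (w c h l η : ℝ) (y : Tor d M) : Matrix (Lo d M J) (Lo d M J) ℂ := fun p q =>
  (starRingEnd ℂ) (ec (p.1 - q.1) y) * (ts w c p.1 q.1 / ((ds (p.1 - q.1) + h : ℝ) : ℂ)) /
    (((M : ℝ) ^ d * (Real.sqrt (mt l η p.1) * Real.sqrt (mt l η q.1)) : ℝ) : ℂ)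

theorem Xm_herm (J : ℕ) (w c h l η : ℝ) (y : Tor d M) :
    (Xm (d := d) (M := M) J w c h l η y).IsHermitian := by
  ext p q
  rw [Matrix.conjTranspose_apply, RCLike.star_def]
  unfold Xm
  rw [map_div₀, map_mul, map_div₀, Complex.conj_ofReal, Complex.conj_ofReal, Complex.conj_conj,
    ts_conj]
  have h1 : ec (q.1 - p.1) y = (starRingEnd ℂ) (ec (p.1 - q.1) y) := by
    rw [← H54.ec_neg_left, neg_sub]
  have h2 : ds (q.1 - p.1) = ds (p.1 - q.1) := by rw [← ds_neg, neg_sub]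
  rw [h1, h2, mul_comm (Real.sqrt (mt l η q.1))]

theorem pars (J : ℕ) (c : Lo d M J → ℂ) :
    ∑ y : Tor d M, ‖∑ q : Lo d M J, ec q.1 y * c q‖ ^ 2 = (M : ℝ) ^ d * ∑ q, ‖c q‖ ^ 2 := by
  classical
  have hM : (M : ℝ) ^ d ≠ 0 := pow_ne_zero _ (by exact_mod_cast NeZero.ne M)
  obtain ⟨f, hf⟩ := H54.surj (fun q : Tor d M => if h : q ∈ low d M J then c ⟨q, h⟩ else 0)
  have h1 : ∀ y, ∑ q : Lo d M J, ec q.1 y * c q = (M : ℂ) ^ d * f y := by
    intro y
    rw [H54.inversion f y, mul_div_cancel₀ _ H54.Mne]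
    have h2 : ∀ q : Tor d M, q ∉ low d M J → ec q y * ft f q = 0 := by
      intro q hq
      rw [hf, dif_neg hq, mul_zero]
    rw [← Finset.sum_subset (Finset.subset_univ (low d M J)) fun q _ hq => h2 q hq,
      ← Finset.sum_coe_sort (low d M J)]
    apply Finset.sum_congr rfl
    intro q _
    rw [hf, dif_pos q.2]
  have h3 : ∀ y, ‖∑ q : Lo d M J, ec q.1 y * c q‖ ^ 2 = ((M : ℝ) ^ d) ^ 2 * ‖f y‖ ^ 2 := by
    intro y
    rw [h1, norm_mul, mul_pow, norm_pow, Complex.norm_natCast]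
  rw [Finset.sum_congr rfl fun y _ => h3 y, ← Finset.mul_sum, H54.parseval1]
  have h4 : pm (fun p => ‖ft f p‖ ^ 2) = (∑ q : Lo d M J, ‖c q‖ ^ 2) / (M : ℝ) ^ d := by
    unfold pm
    congr 1
    rw [← Finset.sum_subset (Finset.subset_univ (low d M J)) fun q _ hq => by
      rw [hf, dif_neg hq]; simp, ← Finset.sum_coe_sort (low d M J)]
    apply Finset.sum_congr rfl
    intro q _
    rw [hf, dif_pos q.2]
  rw [h4]
  field_simp

theorem Xm_sum {J : ℕ} {w c h l η lam B : ℝ} (hlam : 0 ≤ lam) (hw : 0 ≤ w) (hw2 : w ≤ 2)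
    (hc : |c| ≤ 5 * lam) (hJ : (J : ℝ) ^ 2 ≤ lam * (M : ℝ) ^ 2) (hh : 0 < h)
    (hhl : lam ≤ 1200 * h) (hη : 0 < η)
    (hB : pm (fun p => if p ∈ low d M J then (mt l η p)⁻¹ else 0) ≤ B) (u : Lo d M J → ℂ) :
    ∑ y : Tor d M, nsq (Matrix.mulVec (Xm J w c h l η y) u) ≤
      ((1200 * (16 * Real.pi ^ 2 * d + 5)) ^ 2 * B / η) * nsq u := by
  set C1 := 1200 * (16 * Real.pi ^ 2 * (d : ℝ) + 5) with hC1
  have hC0 : 0 ≤ C1 := by positivity
  have hM : (0 : ℝ) < (M : ℝ) ^ d :=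
    pow_pos (by exact_mod_cast Nat.pos_of_ne_zero (NeZero.ne M)) _
  have hm : ∀ p : Tor d M, 0 < mt l η p := fun p => lt_of_lt_of_le hη (mt_ge' p)
  -- the symbol
  have hT : ∀ p q : Lo d M J, ‖ts w c p.1 q.1 / ((ds (p.1 - q.1) + h : ℝ) : ℂ)‖ ≤ C1 := by
    intro p q
    have h1 := ts_low hlam hw hw2 hc hJ p.2 q.2
    have h2 := H54.ds_nonneg (p.1 - q.1)
    rw [norm_div, Complex.norm_real, Real.norm_eq_abs, abs_of_pos (by linarith),
      div_le_iff₀ (by linarith)]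
    calc ‖ts w c p.1 q.1‖ ≤ (16 * Real.pi ^ 2 * d + 5) * lam := h1
      _ ≤ (16 * Real.pi ^ 2 * d + 5) * (1200 * h) :=
          mul_le_mul_of_nonneg_left hhl (by positivity)
      _ = C1 * h := by rw [hC1]; ring
      _ ≤ _ := mul_le_mul_of_nonneg_left (by linarith) hC0
  have h1 : ∀ (y : Tor d M) (p : Lo d M J), ‖Matrix.mulVec (Xm J w c h l η y) u p‖ ^ 2 =
      (((M : ℝ) ^ d) ^ 2 * mt l η p.1)⁻¹ * ‖∑ q : Lo d M J, ec q.1 y *
        (ts w c p.1 q.1 / ((ds (p.1 - q.1) + h : ℝ) : ℂ) * u q /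
          ((Real.sqrt (mt l η q.1) : ℝ) : ℂ))‖ ^ 2 := by
    intro y p
    have e1 : Matrix.mulVec (Xm J w c h l η y) u p =
        ((starRingEnd ℂ) (ec p.1 y) / (((M : ℝ) ^ d * Real.sqrt (mt l η p.1) : ℝ) : ℂ)) *
        ∑ q : Lo d M J, ec q.1 y *
        (ts w c p.1 q.1 / ((ds (p.1 - q.1) + h : ℝ) : ℂ) * u q /
          ((Real.sqrt (mt l η q.1) : ℝ) : ℂ)) := by
      unfold Matrix.mulVec dotProduct
      rw [Finset.mul_sum]
      apply Finset.sum_congr rfl
      intro q _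
      unfold Xm
      dsimp only
      rw [ec_sub_left, map_mul, Complex.conj_conj]
      have e2 : ((Real.sqrt (mt l η q.1) : ℝ) : ℂ) ≠ 0 := by
        exact_mod_cast (Real.sqrt_pos.2 (hm q.1)).ne'
      have e3 : ((Real.sqrt (mt l η p.1) : ℝ) : ℂ) ≠ 0 := by
        exact_mod_cast (Real.sqrt_pos.2 (hm p.1)).ne'
      have e4 : (M : ℂ) ^ d ≠ 0 := H54.Mne
      push_cast
      field_simp
    rw [e1, norm_mul, mul_pow]
    congr 1
    rw [norm_div, RCLike.norm_conj, H54.ec_norm, Complex.norm_real, Real.norm_eq_abs,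
      abs_of_nonneg (by positivity), one_div, inv_pow, mul_pow, Real.sq_sqrt (hm p.1).le]
  have h2 : ∑ y : Tor d M, nsq (Matrix.mulVec (Xm J w c h l η y) u) =
      ∑ p : Lo d M J, (((M : ℝ) ^ d) ^ 2 * mt l η p.1)⁻¹ * ((M : ℝ) ^ d * ∑ q : Lo d M J,
        ‖ts w c p.1 q.1 / ((ds (p.1 - q.1) + h : ℝ) : ℂ) * u q /
          ((Real.sqrt (mt l η q.1) : ℝ) : ℂ)‖ ^ 2) := by
    unfold nsq
    rw [Finset.sum_comm]
    apply Finset.sum_congr rfl
    intro p _
    rw [Finset.sum_congr rfl fun y _ => h1 y p, ← Finset.mul_sum, pars]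
  have h3 : ∀ p : Lo d M J, ∑ q : Lo d M J,
        ‖ts w c p.1 q.1 / ((ds (p.1 - q.1) + h : ℝ) : ℂ) * u q /
          ((Real.sqrt (mt l η q.1) : ℝ) : ℂ)‖ ^ 2 ≤ C1 ^ 2 / η * nsq u := by
    intro p
    unfold nsq
    rw [Finset.mul_sum]
    apply Finset.sum_le_sum
    intro q _
    rw [norm_div, norm_mul, Complex.norm_real, Real.norm_eq_abs,
      abs_of_nonneg (Real.sqrt_nonneg _), div_pow, mul_pow, Real.sq_sqrt (hm q.1).le]
    have a1 : ‖ts w c p.1 q.1 / ((ds (p.1 - q.1) + h : ℝ) : ℂ)‖ ^ 2 ≤ C1 ^ 2 :=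
      pow_le_pow_left₀ (norm_nonneg _) (hT p q) 2
    calc _ ≤ (C1 ^ 2 * ‖u q‖ ^ 2) / η :=
          div_le_div₀ (by positivity) (mul_le_mul_of_nonneg_right a1 (by positivity)) hη
            (mt_ge' q.1)
      _ = _ := by ring
  have hn : 0 ≤ nsq u := Finset.sum_nonneg fun _ _ => by positivity
  rw [h2]
  calc _ ≤ ∑ p : Lo d M J, (((M : ℝ) ^ d) ^ 2 * mt l η p.1)⁻¹ * ((M : ℝ) ^ d *
        (C1 ^ 2 / η * nsq u)) := by
        apply Finset.sum_le_sum
        intro p _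
        have := hm p.1
        apply mul_le_mul_of_nonneg_left _ (by positivity)
        exact mul_le_mul_of_nonneg_left (h3 p) hM.le
    _ = (C1 ^ 2 / η * nsq u) * pm (fun p => if p ∈ low d M J then (mt l η p)⁻¹ else 0) := by
        unfold pm
        rw [← Finset.sum_filter, Finset.filter_mem_eq_inter, Finset.univ_inter,
          ← Finset.sum_coe_sort (low d M J), Finset.sum_div, Finset.mul_sum]
        apply Finset.sum_congr rfl
        intro p _
        have := (hm p.1).ne'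
        field_simp
    _ ≤ (C1 ^ 2 / η * nsq u) * B := mul_le_mul_of_nonneg_left hB (by positivity)
    _ = _ := by ring

theorem sum_low {J : ℕ} {F : Tor d M → ℂ} (hF : ∀ p, p ∉ low d M J → F p = 0) :
    ∑ p, F p = ∑ p : Lo d M J, F p.1 := by
  rw [← Finset.sum_subset (Finset.subset_univ (low d M J)) fun q _ hq => hF q hq,
    ← Finset.sum_coe_sort (low d M J)]

theorem card_low (J : ℕ) : (Fintype.card (Lo d M J) : ℝ) ≤ (2 * (J : ℝ) + 1) ^ d := by
  have h1 : (low d M J).card ≤ (Fintype.piFinset fun _ : Fin d => Finset.Icc (-(J : ℤ)) J).card := by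
    apply Finset.card_le_card_of_injOn (fun p i => (p i).valMinAbs)
    · intro p hp
      have hp1 : p ∈ low d M J := hp
      unfold low at hp1
      simp only [Finset.mem_filter, Finset.mem_univ, true_and] at hp1
      simp only [Finset.mem_coe, Fintype.mem_piFinset, Finset.mem_Icc]
      intro i
      have := hp1 i
      omega
    · intro p _ q _ hpq
      ext i
      have := congrFun hpq i
      simp only at this
      rw [← ZMod.coe_valMinAbs (p i), ← ZMod.coe_valMinAbs (q i), this]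
  have h2 : (Fintype.piFinset fun _ : Fin d => Finset.Icc (-(J : ℤ)) J).card = (2 * J + 1) ^ d := by
    rw [Fintype.card_piFinset]
    simp only [Int.card_Icc, Finset.prod_const, Finset.card_univ, Fintype.card_fin]
    congr 1
    omega
  rw [Fintype.card_coe]
  have h3 : (low d M J).card ≤ (2 * J + 1) ^ d := h1.trans h2.le
  exact_mod_cast h3

theorem nsq_dot {n : Type} [Fintype n] (b a : n → ℂ) :
    ‖∑ p, (starRingEnd ℂ) (b p) * a p‖ ^ 2 ≤ nsq b * nsq a := by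
  have h1 : ‖∑ p, (starRingEnd ℂ) (b p) * a p‖ ≤ ∑ p, ‖b p‖ * ‖a p‖ := by
    refine (norm_sum_le _ _).trans (Finset.sum_le_sum fun p _ => ?_)
    rw [norm_mul, RCLike.norm_conj]
  have h2 : (∑ p, ‖b p‖ * ‖a p‖) ^ 2 ≤ (∑ p, ‖b p‖ ^ 2) * ∑ p, ‖a p‖ ^ 2 :=
    Finset.sum_mul_sq_le_sq_mul_sq _ _ _
  exact (pow_le_pow_left₀ (norm_nonneg _) h1 2).trans h2

theorem khl (hNck : NckStmt) : KhlStmt := by
  classical
  intro d hd
  set C1 := 1200 * (16 * Real.pi ^ 2 * (d : ℝ) + 5) with hC1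
  have hC11 : 6000 ≤ C1 := by
    have : 0 ≤ 16 * Real.pi ^ 2 * (d : ℝ) := by positivity
    rw [hC1]; linarith only [this]
  refine ⟨2 * C1 ^ 2, by nlinarith only [hC11], ?_⟩
  intro M J _ v w h lam l η τ r B k hw1 hw2 hh hhl hlh hJ hη hτ hr hk hB
  have hlam : 0 < lam := lt_of_lt_of_le hh hhl
  have hc : |h - 2 * lam * w| ≤ 5 * lam := by
    rw [abs_le]
    constructor
    · nlinarith only [hw2, hh, hhl]
    · nlinarith [mul_pos hlam (by linarith only [hw1] : (0 : ℝ) < w)]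
  have hm : ∀ p : Tor d M, 0 < mt l η p := fun p => lt_of_lt_of_le hη (mt_ge' p)
  have hB0 : 0 ≤ B := by
    refine le_trans (pm_nonneg fun p => ?_) hB
    split_ifs
    · exact inv_nonneg.2 (hm p).le
    · exact le_rfl
  have hΘ : 0 ≤ C1 ^ 2 * B / η := by positivity
  have hN := hNck (Tor d M) (Lo d M J) (Xm J w (h - 2 * lam * w) h l η) v (C1 ^ 2 * B / η) τ r k
    (Xm_herm J w _ h l η) hΘ
    (fun u => Xm_sum hlam.le (by linarith only [hw1]) hw2 hc hJ hh hlh hη hB u) hτ hr hk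
  have hsub : {V : Tor d M → ℝ | ¬ KE J (gv h V) w (h - 2 * lam * w) l η τ} ⊆
      {V | ¬ ∀ u : Lo d M J → ℂ, nsq (Matrix.mulVec (∑ y, (V y : ℂ) •
        Xm J w (h - 2 * lam * w) h l η y) u) ≤ τ ^ 2 * nsq u} := by
    intro V hV hall
    apply hV
    intro f g hf hg
    set c := h - 2 * lam * w with hcdef
    have hMp : (0 : ℝ) < (M : ℝ) ^ d :=
      pow_pos (by exact_mod_cast Nat.pos_of_ne_zero (NeZero.ne M)) _
    have hMc : (M : ℂ) ^ d ≠ 0 := H54.Mne
    set a : Lo d M J → ℂ := fun q => ((Real.sqrt (mt l η q.1) : ℝ) : ℂ) * ft f q.1 with ha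
    set b : Lo d M J → ℂ := fun q => ((Real.sqrt (mt l η q.1) : ℝ) : ℂ) * ft g q.1 with hb
    have key : ∑ x, (starRingEnd ℂ) (g x) * tpo (gv h V) w c f x =
        (∑ p, (starRingEnd ℂ) (b p) * Matrix.mulVec (∑ y, (V y : ℂ) • Xm J w c h l η y) a p) /
          (M : ℂ) ^ d := by
      rw [form_ft]
      have s1 : ∀ p : Tor d M, p ∉ low d M J → ∑ q, (starRingEnd ℂ) (ft g p) * (ft f q *
          (ft (fun x => (gv h V x : ℂ)) (p - q) * ts w c p q)) = 0 := by
        intro p hp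
        apply Finset.sum_eq_zero
        intro q _
        rw [hg p hp]; simp
      rw [sum_low s1, Finset.sum_div, Finset.sum_div]
      apply Finset.sum_congr rfl
      intro p _
      have s2 : ∀ q : Tor d M, q ∉ low d M J → (starRingEnd ℂ) (ft g p.1) * (ft f q *
          (ft (fun x => (gv h V x : ℂ)) (p.1 - q) * ts w c p.1 q)) = 0 := by
        intro q hq
        rw [hf q hq]; simp
      rw [sum_low s2]
      unfold Matrix.mulVec dotProduct
      rw [Finset.mul_sum, Finset.sum_div, Finset.sum_div]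
      apply Finset.sum_congr rfl
      intro q _
      rw [H54.ft_gv h V _ hh]
      have e2 : ((Real.sqrt (mt l η q.1) : ℝ) : ℂ) ≠ 0 := by
        exact_mod_cast (Real.sqrt_pos.2 (hm q.1)).ne'
      have e3 : ((Real.sqrt (mt l η p.1) : ℝ) : ℂ) ≠ 0 := by
        exact_mod_cast (Real.sqrt_pos.2 (hm p.1)).ne'
      have e4 : ((ds (p.1 - q.1) + h : ℝ) : ℂ) ≠ 0 := by
        have := H54.ds_nonneg (p.1 - q.1)
        exact_mod_cast (by linarith : (0 : ℝ) < ds (p.1 - q.1) + h).ne'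
      have e5 : (∑ y, (V y : ℂ) • Xm J w c h l η y) p q =
          ft (fun x => (V x : ℂ)) (p.1 - q.1) *
            ((ts w c p.1 q.1 / ((ds (p.1 - q.1) + h : ℝ) : ℂ)) /
            (((M : ℝ) ^ d * (Real.sqrt (mt l η p.1) * Real.sqrt (mt l η q.1)) : ℝ) : ℂ)) := by
        rw [Matrix.sum_apply]
        unfold ft
        rw [Finset.sum_mul]
        apply Finset.sum_congr rfl
        intro y _
        rw [Matrix.smul_apply, smul_eq_mul]
        unfold Xm
        dsimp only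
        ring
      beta_reduce
      rw [e5]
      simp only [ha, hb, map_mul, Complex.conj_ofReal]
      push_cast
      push_cast at e4
      field_simp
    have na : nsq a = (M : ℝ) ^ d * pm (fun p => mt l η p * ‖ft f p‖ ^ 2) := by
      unfold nsq pm
      rw [mul_div_cancel₀ _ hMp.ne', ← Finset.sum_subset (Finset.subset_univ (low d M J))
        fun q _ hq => by rw [hf q hq]; simp, ← Finset.sum_coe_sort (low d M J)]
      apply Finset.sum_congr rfl
      intro q _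
      simp only [ha]
      rw [norm_mul, mul_pow, Complex.norm_real, Real.norm_eq_abs, sq_abs,
        Real.sq_sqrt (hm q.1).le]
    have nb : nsq b = (M : ℝ) ^ d * pm (fun p => mt l η p * ‖ft g p‖ ^ 2) := by
      unfold nsq pm
      rw [mul_div_cancel₀ _ hMp.ne', ← Finset.sum_subset (Finset.subset_univ (low d M J))
        fun q _ hq => by rw [hg q hq]; simp, ← Finset.sum_coe_sort (low d M J)]
      apply Finset.sum_congr rfl
      intro q _
      simp only [hb]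
      rw [norm_mul, mul_pow, Complex.norm_real, Real.norm_eq_abs, sq_abs,
        Real.sq_sqrt (hm q.1).le]
    rw [key, norm_div, div_pow, norm_pow, Complex.norm_natCast]
    have h1 := nsq_dot b (Matrix.mulVec (∑ y, (V y : ℂ) • Xm J w c h l η y) a)
    have h2 := hall a
    have hnb : 0 ≤ nsq b := Finset.sum_nonneg fun _ _ => by positivity
    rw [div_le_iff₀ (by positivity)]
    calc _ ≤ nsq b * (τ ^ 2 * nsq a) := h1.trans (mul_le_mul_of_nonneg_left h2 hnb)
      _ = _ := by rw [na, nb]; ring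
  refine (measure_mono hsub).trans (hN.trans (ENNReal.ofReal_le_ofReal ?_))
  have hcard : (Fintype.card (Tor d M) : ℝ) = (M : ℝ) ^ d := by
    rw [Fintype.card_fun, ZMod.card, Fintype.card_fin]
    push_cast
    rfl
  rw [hcard]
  have e1 : 2 * (k : ℝ) * r ^ 2 * v * (C1 ^ 2 * B / η) / τ ^ 2 =
      2 * C1 ^ 2 * k * r ^ 2 * v * B / (η * τ ^ 2) := by
    field_simp
  rw [e1]
  have h2 : 0 ≤ (2 * C1 ^ 2 * k * r ^ 2 * v * B / (η * τ ^ 2)) ^ k := by positivity
  have h3 := card_low (d := d) (M := M) J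
  have h4 := mul_le_mul_of_nonneg_right h3 h2
  linarith

end Pool.Agent.LE.IR.H49
end
end -- Pool.Agent.Helper49_LIR.KHL
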