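import Pool.Agent.Helper12_MEB.B087
import Pool.Agent.Helper12_MEB.B129

/-!
# Merged copies (generated) of the modules

* `Pool.Agent.Helper49_LQF.INM`
* `Pool.Agent.Helper72_ANI.SYF`
* `Pool.Agent.Helper96_ANI.SLB`
* `Pool.Agent.Helper54_LQF.MSS`
-/

set_option autoImplicit false

section -- Pool.Agent.Helper49_LQF.INM

set_option autoImplicit false

open MeasureTheory ProbabilityTheory

open scoped ENNReal BigOperators NNReal Matrix

noncomputable section

namespace Pool.Agent.LE.QF.H49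

open Pool.Agent.Anderson hiding box mem_box card_box
open Pool.Agent.Loc Pool.Agent.Mob Pool.Agent.Helper54.Bal
  Pool.Agent.Helper96.EXP Pool.Agent.BED
open Pool.Agent.LE.MN Pool.Agent.LE.CL Pool.Agent.LE.IR Pool.Agent.LE.QD

variable {d M : ℕ} [NeZero M]

theorem low_neg (J : ℕ) (p : Tor d M) : -p ∈ low d M J ↔ p ∈ low d M J := by
  unfold low
  simp only [Finset.mem_filter, Finset.mem_univ, true_and, Pi.neg_apply,
    ZMod.natAbs_valMinAbs_neg]

omit [NeZero M] in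
theorem ds_neg (p : Tor d M) : ds (-p) = ds p := by
  unfold ds
  apply Finset.sum_congr rfl
  intro i _
  have h : ((-p) i).valMinAbs = (p i).valMinAbs ∨ ((-p) i).valMinAbs = -(p i).valMinAbs := by
    have := ZMod.natAbs_valMinAbs_neg (p i)
    exact Int.natAbs_eq_natAbs_iff.1 this
  rcases h with h | h
  · rw [h]
  · rw [h, Int.cast_neg, mul_neg, neg_div, Real.cos_neg]

omit [NeZero M] in
theorem ds_nonneg (p : Tor d M) : 0 ≤ ds p := by
  unfold ds
  apply Finset.sum_nonneg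
  intro i _
  have := Real.cos_le_one (2 * Real.pi * ((p i).valMinAbs : ℝ) / M)
  linarith only [this]

theorem sy0_neg (cs w : ℝ) (J : ℕ) (p : Tor d M) : sy0 cs w J (-p) = sy0 cs w J p := by
  unfold sy0
  simp only [low_neg, ds_neg, neg_ne_zero, ne_eq]

theorem sy0_nonneg {cs w : ℝ} (hcs : 0 ≤ cs) (hw : 0 < w) (J : ℕ) (p : Tor d M) :
    0 ≤ sy0 cs w J p := by
  unfold sy0
  split_ifs
  · have := ds_nonneg p
    positivity
  · exact le_rfl

theorem zero_mem_low (J : ℕ) : (0 : Tor d M) ∈ low d M J := by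
  unfold low
  simp only [Finset.mem_filter, Finset.mem_univ, true_and, Pi.zero_apply, ZMod.valMinAbs_zero,
    Int.natAbs_zero]
  exact fun _ => Nat.zero_le _

omit [NeZero M] in
/-- `∑ (valMinAbs)² ≥ 1` for a nonzero momentum -/
theorem one_le_sum {p : Tor d M} (hp : p ≠ 0) : 1 ≤ ∑ i, ((p i).valMinAbs : ℝ) ^ 2 := by
  obtain ⟨i, hi⟩ : ∃ i, p i ≠ 0 := by
    by_contra h
    push Not at h
    exact hp (funext h)
  have h1 : (p i).valMinAbs ≠ 0 := fun h => hi ((ZMod.valMinAbs_eq_zero _).1 h)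
  have h2 : (1 : ℝ) ≤ ((p i).valMinAbs : ℝ) ^ 2 := by
    have h3 : 1 ≤ (p i).valMinAbs ^ 2 := by
      have : 0 < (p i).valMinAbs ^ 2 := by positivity
      omega
    exact_mod_cast h3
  calc (1 : ℝ) ≤ ((p i).valMinAbs : ℝ) ^ 2 := h2
    _ ≤ ∑ i, ((p i).valMinAbs : ℝ) ^ 2 :=
      Finset.single_le_sum (f := fun i => ((p i).valMinAbs : ℝ) ^ 2)
        (fun j _ => sq_nonneg _) (Finset.mem_univ i)

theorem qf_one (f : Tor d M → ℝ) : qf (1 : Matrix (Tor d M) (Tor d M) ℝ) f = ∑ a, f a ^ 2 := by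
  unfold qf
  apply Finset.sum_congr rfl
  intro a _
  rw [Matrix.one_mulVec, sq]

theorem inm (hfmu : FmuStmt) (hlow : LowStmt) : InmStmt := by
  intro d hd
  obtain ⟨C, hC1, hC⟩ := hlow d hd
  refine ⟨C, hC1, ?_⟩
  intro M _ J cs w S Pl hJ hcs hw hw1 hS hPl
  obtain ⟨hds, hJc⟩ := hC M
  obtain ⟨hcard, hsum⟩ := hJc J hJ
  have hMpos : (0 : ℝ) < M := by exact_mod_cast Nat.pos_of_ne_zero (NeZero.ne M)
  have hM1 : (1 : ℝ) ≤ M := by exact_mod_cast Nat.one_le_iff_ne_zero.2 (NeZero.ne M)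
  have hcs0 : 0 ≤ cs := le_trans zero_le_one hcs
  have hC0 : 0 ≤ C := le_trans zero_le_one hC1
  -- the symbols
  obtain ⟨s, hs⟩ : ∃ s : Tor d M → ℝ, s = sy0 cs w J := ⟨_, rfl⟩
  obtain ⟨q, hq⟩ : ∃ q : Tor d M → ℝ, q = fun p => if p ∈ low d M J then 1 else 0 := ⟨_, rfl⟩
  rw [← hs] at hS
  rw [← hq] at hPl
  have hse : ∀ p, s (-p) = s p := fun p => by rw [hs]; exact sy0_neg cs w J p
  have hqe : ∀ p, q (-p) = q p := fun p => by rw [hq]; simp only [low_neg]
  have hs0 : ∀ p, 0 ≤ s p := fun p => by rw [hs]; exact sy0_nonneg hcs0 hw J p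
  obtain ⟨a1, a2, a3, -, -, a6, a7, a8, -, -, -⟩ := hfmu d M s q hse hqe
  obtain ⟨-, b2, b3, -, -, -, b7, b8, -, -, -⟩ := hfmu d M q q hqe hqe
  obtain ⟨c1, -⟩ := hfmu d M (fun _ : Tor d M => (1 : ℝ)) s (fun _ => rfl) hse
  have hpmle : ∀ (F G : Tor d M → ℝ), (∀ p, F p ≤ G p) → pm F ≤ pm G := by
    intro F G h
    unfold pm
    gcongr with p _
    exact h p
  refine ⟨⟨?_, ?_, ?_, ?_⟩, ⟨?_, ?_, ?_, ?_, ?_⟩, ?_⟩
  · intro a b
    rw [hS]
    exact a2 a b
  · intro f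
    rw [hS, a1]
    unfold pm
    apply div_nonneg _ (by positivity)
    exact Finset.sum_nonneg fun p _ => mul_nonneg (hs0 p) (sq_nonneg _)
  · intro a
    rw [hS, a7, hs]
    unfold sy0
    rw [if_neg (fun h => h.2 rfl)]
  · intro a
    rw [hS, a8]
    -- the mean of the symbol
    have e1 : ∑ p, s p = ∑ p ∈ (low d M J).filter (fun p => p ≠ 0), cs * (1 / w + w / ds p) := by
      rw [hs]
      unfold sy0
      rw [← Finset.sum_filter]
      apply Finset.sum_congr _ (fun _ _ => rfl)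
      ext p
      simp only [Finset.mem_filter, Finset.mem_univ, true_and]
    have e2 : ∑ p ∈ (low d M J).filter (fun p => p ≠ 0), cs * (1 / w + w / ds p) =
        cs * ((((low d M J).filter (fun p => p ≠ 0)).card : ℝ) / w +
          w * ∑ p ∈ (low d M J).filter (fun p => p ≠ 0), 1 / ds p) := by
      rw [← Finset.mul_sum, Finset.sum_add_distrib, Finset.sum_const, Finset.mul_sum,
        nsmul_eq_mul]
      congr 2
      · ring
      · apply Finset.sum_congr rfl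
        intro p _
        ring
    have e3 : (((low d M J).filter (fun p => p ≠ 0)).card : ℝ) ≤ C * (J : ℝ) ^ d := by
      refine le_trans ?_ hcard
      exact_mod_cast Finset.card_filter_le _ _
    have e4 : w * pm s ≤ cs * (C * (J : ℝ) ^ d + w ^ 2 * (C * (M : ℝ) ^ 2 * (J : ℝ) ^ (d - 2))) /
        (M : ℝ) ^ d := by
      unfold pm
      rw [e1, e2, mul_div_assoc']
      apply div_le_div_of_nonneg_right _ (by positivity)
      have e5 : w * (cs * ((((low d M J).filter (fun p => p ≠ 0)).card : ℝ) / w +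
          w * ∑ p ∈ (low d M J).filter (fun p => p ≠ 0), 1 / ds p)) =
          cs * ((((low d M J).filter (fun p => p ≠ 0)).card : ℝ) +
          w ^ 2 * ∑ p ∈ (low d M J).filter (fun p => p ≠ 0), 1 / ds p) := by
        field_simp
      rw [e5]
      apply mul_le_mul_of_nonneg_left _ hcs0
      apply add_le_add e3
      exact mul_le_mul_of_nonneg_left hsum (by positivity)
    refine le_trans e4 (le_of_eq ?_)
    obtain ⟨n, rfl⟩ : ∃ n, d = n + 2 := ⟨d - 2, by omega⟩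
    rw [Nat.add_sub_cancel, div_pow, div_pow, pow_add (M : ℝ) n 2, pow_add (J : ℝ) n 2]
    field_simp
  · intro a b
    rw [hPl]
    exact b2 a b
  · rw [hPl, b3]
    congr 1
    rw [hq]
    funext p
    by_cases h : p ∈ low d M J
    · simp only [h, if_true, mul_one]
    · simp only [h, if_false, mul_zero]
  · intro a
    rw [hPl, b8, hq]
    unfold pm
    rw [← Finset.sum_filter, Finset.sum_const, nsmul_eq_mul, mul_one,
      Finset.filter_mem_eq_inter, Finset.univ_inter, div_pow, mul_div_assoc']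
    exact div_le_div_of_nonneg_right hcard (by positivity)
  · intro a
    rw [hPl, b7, hq]
    simp only [zero_mem_low, if_true]
  · rw [hS, hPl, a3]
    congr 1
    rw [hs, hq]
    funext p
    unfold sy0
    by_cases h : p ∈ low d M J
    · simp only [h, if_true, mul_one]
    · simp only [h, false_and, if_false, mul_zero]
  · intro f
    have hb : ∀ p, s p ≤ 2 * cs / w * (M : ℝ) ^ 2 := by
      intro p
      rw [hs]
      unfold sy0
      split_ifs with h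
      · have h1 := (hds p).1
        have h2 := one_le_sum h.2
        have h3 : 16 / (M : ℝ) ^ 2 ≤ ds p := by
          calc 16 / (M : ℝ) ^ 2 = 16 / (M : ℝ) ^ 2 * 1 := (mul_one _).symm
            _ ≤ 16 / (M : ℝ) ^ 2 * ∑ i, ((p i).valMinAbs : ℝ) ^ 2 := by gcongr
            _ ≤ ds p := h1
        have h4 : w / ds p ≤ (M : ℝ) ^ 2 / w := by
          have h5 : 0 < ds p := lt_of_lt_of_le (by positivity) h3
          rw [div_le_div_iff₀ h5 hw]
          have h6 : (1 : ℝ) ≤ (M : ℝ) ^ 2 * ds p := by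
            have h7 : 16 ≤ (M : ℝ) ^ 2 * ds p := by
              have := mul_le_mul_of_nonneg_left h3 (by positivity : (0 : ℝ) ≤ (M : ℝ) ^ 2)
              rwa [mul_div_cancel₀ _ (by positivity)] at this
            linarith only [h7]
          nlinarith only [hw, hw1, h6]
        have h8 : 1 / w ≤ (M : ℝ) ^ 2 / w := by
          gcongr
          nlinarith only [hM1]
        calc cs * (1 / w + w / ds p) ≤ cs * ((M : ℝ) ^ 2 / w + (M : ℝ) ^ 2 / w) := by gcongr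
          _ = 2 * cs / w * (M : ℝ) ^ 2 := by ring
      · positivity
    have h1 : ∑ a, f a ^ 2 = pm fun p => ‖ft (fun x => (f x : ℂ)) p‖ ^ 2 := by
      rw [← qf_one, ← a6, c1]
      congr 1
      funext p
      rw [one_mul]
    rw [hS, a1, h1]
    have h2 : 2 * cs / w * (M : ℝ) ^ 2 * pm (fun p => ‖ft (fun x => (f x : ℂ)) p‖ ^ 2) =
        pm fun p => 2 * cs / w * (M : ℝ) ^ 2 * ‖ft (fun x => (f x : ℂ)) p‖ ^ 2 := by
      unfold pm
      rw [mul_div_assoc', Finset.mul_sum]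
    rw [h2]
    apply hpmle
    intro p
    exact mul_le_mul_of_nonneg_right (hb p) (sq_nonneg _)

end Pool.Agent.LE.QF.H49
end
end -- Pool.Agent.Helper49_LQF.INM

section -- Pool.Agent.Helper72_ANI.SYF

/-!
# ANI, row SYF: the first network against the lattice
-/

set_option autoImplicit false

open MeasureTheory ProbabilityTheory Function Filter

open scoped ENNReal BigOperators Topology NNReal ComplexOrder Matrix

noncomputable section

namespace Pool.Agent.ANI.H72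

open Pool.Agent.Anderson hiding box mem_box card_box
open Pool.Agent.Loc Pool.Agent.Mob Pool.Agent.Helper54.Bal
  Pool.Agent.Helper96.EXP Pool.Agent.BED
open Pool.Agent.LE Pool.Agent.LE.MN Pool.Agent.LE.CL Pool.Agent.LE.IR Pool.Agent.LE.QD
  Pool.Agent.LE.QF
open Pool.Agent.ANI

variable {d M : ℕ} [NeZero M]

theorem pm_mono {F F' : Tor d M → ℝ} (h : ∀ p, F p ≤ F' p) : pm F ≤ pm F' := by
  unfold pm
  gcongr
  exact h _

theorem pm_comb (c a : ℝ) (F F' : Tor d M → ℝ) :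
    c * (pm F + pm F' / a) = pm fun p => c * (F p + F' p / a) := by
  unfold pm
  rw [← Finset.mul_sum, Finset.sum_add_distrib, ← Finset.sum_div]
  ring

theorem sum_sq (hFmu : FmuStmt) (f : Tor d M → ℝ) :
    ∑ x, f x ^ 2 = pm fun p => ‖ft (fun x => (f x : ℂ)) p‖ ^ 2 := by
  obtain ⟨h1, -, -, -, -, h2, -⟩ := hFmu d M (fun _ => 1) (fun _ => 1) (fun _ => rfl) (fun _ => rfl)
  rw [← Pool.Agent.LE.QF.H49.qf_one, ← h2, h1 f]
  simp only [one_mul]

theorem ft_shift (h : Tor d M → ℝ) (i : Fin d) (p : Tor d M) :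
    ft (fun x => ((h (x + ev i) - h x : ℝ) : ℂ)) p =
      (ec p (ev i) - 1) * ft (fun x => (h x : ℂ)) p := by
  unfold ft
  have h1 : ∀ z : Tor d M, (starRingEnd ℂ) (ec p (z - ev i)) =
      (starRingEnd ℂ) (ec p z) * ec p (ev i) := by
    intro z
    have h2 : ec p z = ec p (z - ev i) * ec p (ev i) := by
      rw [← Pool.Agent.LE.IR.H54.ec_add, sub_add_cancel]
    have h3 := Pool.Agent.LE.IR.H49.ec_mul_conj p (ev i)
    rw [h2, map_mul, mul_assoc, mul_comm ((starRingEnd ℂ) (ec p (ev i))), h3, mul_one]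
  have h4 : ∑ y, (starRingEnd ℂ) (ec p y) * ((h (y + ev i) : ℝ) : ℂ) =
      ∑ z, (starRingEnd ℂ) (ec p (z - ev i)) * ((h z : ℝ) : ℂ) := by
    rw [← Equiv.sum_comp (Equiv.addRight (ev i))
      (fun z => (starRingEnd ℂ) (ec p (z - ev i)) * ((h z : ℝ) : ℂ))]
    refine Finset.sum_congr rfl fun y _ => ?_
    simp only [Equiv.coe_addRight, add_sub_cancel_right]
  push_cast
  simp only [mul_sub, Finset.sum_sub_distrib]
  rw [h4]
  simp only [h1]
  rw [sub_mul, one_mul, Finset.mul_sum]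
  congr 1
  refine Finset.sum_congr rfl fun z _ => ?_
  ring

theorem lat (hFmu : FmuStmt) (h : Tor d M → ℝ) :
    ∑ x, ∑ i, (h (x + Pi.single i 1) - h x) ^ 2 =
      pm fun p => ds p * ‖ft (fun x => (h x : ℂ)) p‖ ^ 2 := by
  rw [Finset.sum_comm]
  have h1 : ∀ i : Fin d, ∑ x, (h (x + Pi.single i 1) - h x) ^ 2 =
      pm fun p => ‖ec p (ev i) - 1‖ ^ 2 * ‖ft (fun x => (h x : ℂ)) p‖ ^ 2 := by
    intro i
    have h2 := sum_sq hFmu (fun x => h (x + ev i) - h x)
    simp only [ft_shift, norm_mul, mul_pow] at h2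
    exact h2
  rw [Finset.sum_congr rfl fun i _ => h1 i]
  unfold pm
  rw [← Finset.sum_div, Finset.sum_comm]
  congr 1
  refine Finset.sum_congr rfl fun p _ => ?_
  rw [← Finset.sum_mul]
  congr 1
  unfold ds
  exact Finset.sum_congr rfl fun i _ => Pool.Agent.LE.IR.H49.ec_sub_one p i

theorem qf_eq (A : Matrix (Tor d M) (Tor d M) ℝ) (f : Tor d M → ℝ) : qf A f = f ⬝ᵥ (A *ᵥ f) := rfl

theorem qf_conj {A B : Matrix (Tor d M) (Tor d M) ℝ} (hA : ∀ x y, A x y = A y x)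
    (f : Tor d M → ℝ) : qf B (A *ᵥ f) = qf (A * B * A) f := by
  have h1 : Aᵀ = A := by
    ext x y
    exact hA y x
  rw [qf_eq, qf_eq, ← Matrix.mulVec_mulVec, ← Matrix.mulVec_mulVec, Matrix.dotProduct_mulVec f A,
    ← Matrix.mulVec_transpose, h1]

theorem dlk (hFmu : FmuStmt) (hKft : KftStmt) {ζ : ℂ} (hζ : 0 < ζ.im) (f : Tor d M → ℝ) :
    qf (Dl (KK (rs (0 : Tor d M → ℝ) ζ))) f =
      pm fun p => (kf ζ (0 : Tor d M) - kf ζ p) * ‖ft (fun x => (f x : ℂ)) p‖ ^ 2 := by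
  obtain ⟨-, -, -, k4, k5, -⟩ := hKft d M ζ hζ
  obtain ⟨m1, -, -, -, -, -, m7, -⟩ := hFmu d M (kf ζ) (kf ζ) k5 k5
  rw [k4]
  have h1 : qf (Dl (mlt (kf ζ : Tor d M → ℝ))) f =
      kf ζ (0 : Tor d M) * ∑ x, f x ^ 2 - qf (mlt (kf ζ)) f := by
    unfold Pool.Agent.LE.QF.qf Dl
    rw [Finset.mul_sum, ← Finset.sum_sub_distrib]
    refine Finset.sum_congr rfl fun x _ => ?_
    rw [Matrix.sub_mulVec, Pi.sub_apply, Matrix.mulVec_diagonal, m7]
    ring
  rw [h1, sum_sq hFmu f, m1 f]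
  unfold pm
  rw [mul_div_assoc', Finset.mul_sum, ← sub_div, ← Finset.sum_sub_distrib]
  congr 1
  refine Finset.sum_congr rfl fun p _ => ?_
  ring

theorem syf (hFmu : FmuStmt) (hKft : KftStmt) : SyfStmt := by
  intro d M _ ζ c C hζ hc hC H f
  have hk0 : 0 ≤ kf ζ (0 : Tor d M) := by
    unfold kf
    refine Finset.sum_nonneg fun x _ => ?_
    have h1 : ec (0 : Tor d M) x = 1 := by
      unfold ec
      simp
    rw [h1, Complex.one_re, mul_one]
    unfold kk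
    positivity
  have hw2 : 0 < ζ.im ^ 2 := by positivity
  have hds : ∀ p : Tor d M, 0 ≤ ds p := Pool.Agent.LE.QF.H49.ds_nonneg
  have hdsn : ∀ p : Tor d M, ds (-p) = ds p := Pool.Agent.LE.QF.H49.ds_neg
  constructor
  · obtain ⟨s, hs⟩ : ∃ s : Tor d M → ℝ, s = fun p => ζ.im ^ 2 / (ζ.im ^ 2 + ds p) := ⟨_, rfl⟩
    obtain ⟨s', hs'⟩ : ∃ s' : Tor d M → ℝ, s' = fun p => 1 - s p := ⟨_, rfl⟩
    have hsn : ∀ p, s (-p) = s p := fun p => by rw [hs]; simp only [hdsn]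
    have hsn' : ∀ p, s' (-p) = s' p := fun p => by rw [hs']; simp only [hsn]
    have hds1 : ∀ p : Tor d M, 0 < ζ.im ^ 2 + ds p := fun p => by
      have := hds p
      linarith
    have m3 : ∀ s s' : Tor d M → ℝ, (∀ p, s (-p) = s p) → (∀ p, s' (-p) = s' p) →
        mlt s * mlt s' = mlt fun p => s p * s' p := fun s s' h h' => (hFmu d M s s' h h').2.2.1
    have m2 : ∀ s : Tor d M → ℝ, (∀ p, s (-p) = s p) → ∀ x y, mlt s x y = mlt s y x :=
      fun s h => (hFmu d M s s h h).2.1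
    have m1 : ∀ s : Tor d M → ℝ, (∀ p, s (-p) = s p) → ∀ f : Tor d M → ℝ, qf (mlt s) f =
        pm fun p => s p * ‖ft (fun x => (f x : ℂ)) p‖ ^ 2 := fun s h => (hFmu d M s s h h).1
    have m4 := (hFmu d M s' s hsn' hsn).2.2.2.1
    have m6 := (hFmu d M s' s hsn' hsn).2.2.2.2.2.1
    have h1 : (fun p => s' p + s p) = fun _ : Tor d M => (1 : ℝ) := by
      funext p
      rw [hs']
      ring
    rw [h1, m6] at m4
    have h2 : ∀ x, f x - (mlt s *ᵥ f) x = (mlt s' *ᵥ f) x := by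
      intro x
      have h3 : (1 : Matrix (Tor d M) (Tor d M) ℝ) *ᵥ f = mlt s' *ᵥ f + mlt s *ᵥ f := by
        rw [m4, Matrix.add_mulVec]
      rw [Matrix.one_mulVec] at h3
      have h4 := congrFun h3 x
      rw [Pi.add_apply] at h4
      linarith
    refine ⟨mlt s *ᵥ f, ?_⟩
    have e1 : ∑ x, (f x - (mlt s *ᵥ f) x) ^ 2 =
        pm fun p => s' p * s' p * ‖ft (fun x => (f x : ℂ)) p‖ ^ 2 := by
      rw [Finset.sum_congr rfl fun x _ => by rw [h2 x], ← Pool.Agent.LE.QF.H49.qf_one,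
        qf_conj (m2 s' hsn'), mul_one, m3 s' s' hsn' hsn', m1]
      intro p
      rw [hsn']
    have e2 : ∑ x, ∑ i, ((mlt s *ᵥ f) (x + Pi.single i 1) - (mlt s *ᵥ f) x) ^ 2 =
        pm fun p => s p * ds p * s p * ‖ft (fun x => (f x : ℂ)) p‖ ^ 2 := by
      rw [lat hFmu, ← m1 ds hdsn, qf_conj (m2 s hsn), m3 s ds hsn hdsn,
        m3 (fun p => s p * ds p) s (fun p => by rw [hsn, hdsn]) hsn, m1]
      intro p
      rw [hsn, hdsn]
    rw [e1, e2, dlk hFmu hKft hζ, pm_comb]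
    refine pm_mono fun p => ?_
    have h5 : s' p * s' p + s p * ds p * s p / ζ.im ^ 2 = ds p / (ζ.im ^ 2 + ds p) := by
      rw [hs', hs]
      have := (hds1 p).ne'
      field_simp
      ring
    calc c * kf ζ (0 : Tor d M) * (s' p * s' p * ‖ft (fun x => (f x : ℂ)) p‖ ^ 2 +
          s p * ds p * s p * ‖ft (fun x => (f x : ℂ)) p‖ ^ 2 / ζ.im ^ 2) =
          c * (s' p * s' p + s p * ds p * s p / ζ.im ^ 2) * kf ζ (0 : Tor d M) *
            ‖ft (fun x => (f x : ℂ)) p‖ ^ 2 := by ring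
      _ = c * (ds p / (ζ.im ^ 2 + ds p)) * kf ζ (0 : Tor d M) *
            ‖ft (fun x => (f x : ℂ)) p‖ ^ 2 := by rw [h5]
      _ ≤ _ := mul_le_mul_of_nonneg_right (H p).1 (by positivity)
  · intro h
    have e1 := sum_sq hFmu (fun x => f x - h x)
    rw [lat hFmu, e1, dlk hFmu hKft hζ, pm_comb]
    refine pm_mono fun p => ?_
    have h1 : ft (fun x => ((f x - h x : ℝ) : ℂ)) p =
        ft (fun x => (f x : ℂ)) p - ft (fun x => (h x : ℂ)) p := by
      unfold ft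
      rw [← Finset.sum_sub_distrib]
      refine Finset.sum_congr rfl fun x _ => ?_
      push_cast
      ring
    rw [h1]
    obtain ⟨u, hu⟩ : ∃ u, u = ft (fun x => (f x : ℂ)) p := ⟨_, rfl⟩
    obtain ⟨v, hv⟩ : ∃ v, v = ft (fun x => (h x : ℂ)) p := ⟨_, rfl⟩
    rw [← hu, ← hv]
    have h2 : ‖u‖ ^ 2 ≤ 2 * ‖u - v‖ ^ 2 + 2 * ‖v‖ ^ 2 := by
      have h3 : ‖u‖ ≤ ‖u - v‖ + ‖v‖ := by
        have := norm_add_le (u - v) v
        rwa [sub_add_cancel] at this
      have h4 := norm_nonneg u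
      nlinarith [sq_nonneg (‖u - v‖ - ‖v‖)]
    obtain ⟨r, hr⟩ : ∃ r, r = ds p / (ζ.im ^ 2 + ds p) := ⟨_, rfl⟩
    have hd0 := hds p
    have hr0 : 0 ≤ r := by rw [hr]; positivity
    have hr1 : r ≤ 1 := by
      rw [hr, div_le_one (by linarith)]
      linarith
    have hr2 : r ≤ ds p / ζ.im ^ 2 := by
      rw [hr]
      gcongr
      linarith
    have h5 := (H p).2
    rw [← hr] at h5
    calc (kf ζ (0 : Tor d M) - kf ζ p) * ‖u‖ ^ 2 ≤ C * r * kf ζ (0 : Tor d M) * ‖u‖ ^ 2 :=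
          mul_le_mul_of_nonneg_right h5 (by positivity)
      _ ≤ C * r * kf ζ (0 : Tor d M) * (2 * ‖u - v‖ ^ 2 + 2 * ‖v‖ ^ 2) := by gcongr
      _ = 2 * C * kf ζ (0 : Tor d M) * (r * ‖u - v‖ ^ 2 + r * ‖v‖ ^ 2) := by ring
      _ ≤ 2 * C * kf ζ (0 : Tor d M) * (1 * ‖u - v‖ ^ 2 + ds p / ζ.im ^ 2 * ‖v‖ ^ 2) := by
          gcongr
      _ = _ := by ring

end Pool.Agent.ANI.H72
end
end -- Pool.Agent.Helper72_ANI.SYF

section -- Pool.Agent.Helper96_ANI.SLB

/-!
# ANI, the sharp lower bound of the first form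

`κ² Dl K₀ ≥ (1 - T^(ε/8)) κ g (f - h)² + c T^(ε-1) |∇h|²`: the local part has the constant `1 - T^(ε/8)`.
-/

set_option autoImplicit false

open MeasureTheory ProbabilityTheory Function Filter

open scoped ENNReal BigOperators Topology NNReal ComplexOrder Matrix

noncomputable section

namespace Pool.Agent.ANI.H96

open Pool.Agent.Anderson hiding box mem_box card_box
open Pool.Agent.Loc Pool.Agent.Mob Pool.Agent.Helper54.Bal
  Pool.Agent.Helper96.EXP Pool.Agent.BED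
open Pool.Agent.LE Pool.Agent.LE.MN Pool.Agent.LE.CL Pool.Agent.LE.IR Pool.Agent.LE.QD
  Pool.Agent.LE.QF
open Pool.Agent.ANI

variable {d M : ℕ} [NeZero M]

/-- logarithms against small powers -/
theorem log_small (K b ε : ℝ) (hK : 1 ≤ K) (hb : 0 < b) (hε : 0 < ε) :
    ∃ w0 : ℝ, 0 < w0 ∧ w0 ≤ 1 ∧ ∀ w : ℝ, 0 < w → w ≤ w0 →
      2 * (K * (1 + Real.log (1 / w))) * w ^ ε ≤ b := by
  have hD : 0 < 2 * K * (1 + 2 / ε) := by positivity
  have hβ : 0 < b / (2 * K * (1 + 2 / ε)) := by positivity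
  refine ⟨min 1 ((b / (2 * K * (1 + 2 / ε))) ^ (2 / ε)), ?_, min_le_left _ _, ?_⟩
  · exact lt_min one_pos (Real.rpow_pos_of_pos hβ _)
  intro w hw hw0
  have hw1 : w ≤ 1 := hw0.trans (min_le_left _ _)
  have hw2 : w ≤ (b / (2 * K * (1 + 2 / ε))) ^ (2 / ε) := hw0.trans (min_le_right _ _)
  have h1 : Real.log (1 / w) ≤ (1 / w) ^ (ε / 2) / (ε / 2) :=
    Real.log_le_rpow_div (by positivity) (by positivity)
  have h2 : (1 / w) ^ (ε / 2) = w ^ (-(ε / 2)) := by
    rw [one_div, Real.inv_rpow hw.le, Real.rpow_neg hw.le]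
  have h3 : (1 : ℝ) ≤ w ^ (-(ε / 2)) := by
    rw [← h2]
    apply Real.one_le_rpow
    · rw [one_le_div hw]; exact hw1
    · positivity
  have h4 : 1 + Real.log (1 / w) ≤ (1 + 2 / ε) * w ^ (-(ε / 2)) := by
    rw [h2] at h1
    have h5 : w ^ (-(ε / 2)) / (ε / 2) = 2 / ε * w ^ (-(ε / 2)) := by
      field_simp
    rw [h5] at h1
    linarith only [h1, h3]
  have h6 : w ^ (-(ε / 2)) * w ^ ε = w ^ (ε / 2) := by
    rw [← Real.rpow_add hw]
    congr 1
    ring
  have h7 : w ^ (ε / 2) ≤ b / (2 * K * (1 + 2 / ε)) := by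
    have h8 := Real.rpow_le_rpow hw.le hw2 (by positivity : (0 : ℝ) ≤ ε / 2)
    rw [← Real.rpow_mul hβ.le] at h8
    have h9 : 2 / ε * (ε / 2) = 1 := by
      field_simp
    rwa [h9, Real.rpow_one] at h8
  have hwe : 0 < w ^ ε := Real.rpow_pos_of_pos hw _
  calc 2 * (K * (1 + Real.log (1 / w))) * w ^ ε
      ≤ 2 * (K * ((1 + 2 / ε) * w ^ (-(ε / 2)))) * w ^ ε := by
        apply mul_le_mul_of_nonneg_right _ hwe.le
        apply mul_le_mul_of_nonneg_left _ (by norm_num)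
        exact mul_le_mul_of_nonneg_left h4 (by linarith only [hK])
    _ = (2 * K * (1 + 2 / ε)) * (w ^ (-(ε / 2)) * w ^ ε) := by ring
    _ = (2 * K * (1 + 2 / ε)) * w ^ (ε / 2) := by rw [h6]
    _ ≤ (2 * K * (1 + 2 / ε)) * (b / (2 * K * (1 + 2 / ε))) :=
        mul_le_mul_of_nonneg_left h7 hD.le
    _ = b := by field_simp

/-- the symbol of the Laplacian with sines -/
theorem ds_sin {d M : ℕ} [NeZero M] (p : Tor d M) :
    ds p = ∑ i, 4 * Real.sin (Real.pi * ((p i).valMinAbs : ℝ) / M) ^ 2 := by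
  unfold ds
  refine Finset.sum_congr rfl fun i _ => ?_
  have h : 2 * Real.pi * ((p i).valMinAbs : ℝ) / M = 2 * (Real.pi * ((p i).valMinAbs : ℝ) / M) := by
    ring
  rw [h, Real.cos_two_mul, Real.sin_sq]
  ring

theorem ds_nonneg {d M : ℕ} [NeZero M] (p : Tor d M) : 0 ≤ ds p := by
  rw [ds_sin]
  exact Finset.sum_nonneg fun i _ => by positivity


/-- from the symbols to the form: `h` is the multiplier `al/(al + be ds)` of `f` -/
theorem slb0 (hFmu : FmuStmt) (hKft : KftStmt) (ζ : ℂ) (al be : ℝ) (hζ : 0 < ζ.im)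
    (hal : 0 < al) (hbe : 0 < be)
    (H : ∀ p : Tor d M, al * (be * ds p) / (al + be * ds p) ≤
      ζ.im ^ 2 * (kf ζ (0 : Tor d M) - kf ζ p)) (f : Tor d M → ℝ) :
    ∃ h : Tor d M → ℝ, al * ∑ x, (f x - h x) ^ 2 +
      be * ∑ x, ∑ i, (h (x + Pi.single i 1) - h x) ^ 2 ≤
        ζ.im ^ 2 * qf (Dl (KK (rs (0 : Tor d M → ℝ) ζ))) f := by
  have hds : ∀ p : Tor d M, 0 ≤ ds p := Pool.Agent.LE.QF.H49.ds_nonneg
  have hdsn : ∀ p : Tor d M, ds (-p) = ds p := Pool.Agent.LE.QF.H49.ds_neg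
  obtain ⟨s, hs⟩ : ∃ s : Tor d M → ℝ, s = fun p => al / (al + be * ds p) := ⟨_, rfl⟩
  obtain ⟨s', hs'⟩ : ∃ s' : Tor d M → ℝ, s' = fun p => 1 - s p := ⟨_, rfl⟩
  have hsn : ∀ p, s (-p) = s p := fun p => by rw [hs]; simp only [hdsn]
  have hsn' : ∀ p, s' (-p) = s' p := fun p => by rw [hs']; simp only [hsn]
  have hds1 : ∀ p : Tor d M, 0 < al + be * ds p := fun p => by
    have := hds p
    positivity
  have m3 : ∀ s s' : Tor d M → ℝ, (∀ p, s (-p) = s p) → (∀ p, s' (-p) = s' p) →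
      mlt s * mlt s' = mlt fun p => s p * s' p := fun s s' h h' => (hFmu d M s s' h h').2.2.1
  have m2 : ∀ s : Tor d M → ℝ, (∀ p, s (-p) = s p) → ∀ x y, mlt s x y = mlt s y x :=
    fun s h => (hFmu d M s s h h).2.1
  have m1 : ∀ s : Tor d M → ℝ, (∀ p, s (-p) = s p) → ∀ f : Tor d M → ℝ, qf (mlt s) f =
      pm fun p => s p * ‖ft (fun x => (f x : ℂ)) p‖ ^ 2 := fun s h => (hFmu d M s s h h).1
  have m4 := (hFmu d M s' s hsn' hsn).2.2.2.1
  have m6 := (hFmu d M s' s hsn' hsn).2.2.2.2.2.1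
  have h1 : (fun p => s' p + s p) = fun _ : Tor d M => (1 : ℝ) := by
    funext p
    rw [hs']
    ring
  rw [h1, m6] at m4
  have h2 : ∀ x, f x - (mlt s *ᵥ f) x = (mlt s' *ᵥ f) x := by
    intro x
    have h3 : (1 : Matrix (Tor d M) (Tor d M) ℝ) *ᵥ f = mlt s' *ᵥ f + mlt s *ᵥ f := by
      rw [m4, Matrix.add_mulVec]
    rw [Matrix.one_mulVec] at h3
    have h4 := congrFun h3 x
    rw [Pi.add_apply] at h4
    linarith
  refine ⟨mlt s *ᵥ f, ?_⟩
  have e1 : ∑ x, (f x - (mlt s *ᵥ f) x) ^ 2 =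
      pm fun p => s' p * s' p * ‖ft (fun x => (f x : ℂ)) p‖ ^ 2 := by
    rw [Finset.sum_congr rfl fun x _ => by rw [h2 x], ← Pool.Agent.LE.QF.H49.qf_one,
      H72.qf_conj (m2 s' hsn'), mul_one, m3 s' s' hsn' hsn', m1]
    intro p
    rw [hsn']
  have e2 : ∑ x, ∑ i, ((mlt s *ᵥ f) (x + Pi.single i 1) - (mlt s *ᵥ f) x) ^ 2 =
      pm fun p => s p * ds p * s p * ‖ft (fun x => (f x : ℂ)) p‖ ^ 2 := by
    rw [H72.lat hFmu, ← m1 ds hdsn, H72.qf_conj (m2 s hsn), m3 s ds hsn hdsn,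
      m3 (fun p => s p * ds p) s (fun p => by rw [hsn, hdsn]) hsn, m1]
    intro p
    rw [hsn, hdsn]
  rw [e1, e2, H72.dlk hFmu hKft hζ]
  have e3 : al * (pm fun p : Tor d M => s' p * s' p * ‖ft (fun x => (f x : ℂ)) p‖ ^ 2) +
      be * (pm fun p : Tor d M => s p * ds p * s p * ‖ft (fun x => (f x : ℂ)) p‖ ^ 2) =
      pm fun p : Tor d M => (al * (s' p * s' p) + be * (s p * ds p * s p)) *
        ‖ft (fun x => (f x : ℂ)) p‖ ^ 2 := by
    unfold pm
    rw [mul_div_assoc', mul_div_assoc', ← add_div, Finset.mul_sum, Finset.mul_sum,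
      ← Finset.sum_add_distrib]
    congr 1
    refine Finset.sum_congr rfl fun p _ => ?_
    ring
  have e4 : ζ.im ^ 2 * (pm fun p : Tor d M => (kf ζ (0 : Tor d M) - kf ζ p) *
      ‖ft (fun x => (f x : ℂ)) p‖ ^ 2) =
      pm fun p : Tor d M => ζ.im ^ 2 * (kf ζ (0 : Tor d M) - kf ζ p) *
        ‖ft (fun x => (f x : ℂ)) p‖ ^ 2 := by
    unfold pm
    rw [mul_div_assoc', Finset.mul_sum]
    congr 1
    refine Finset.sum_congr rfl fun p _ => ?_
    ring
  rw [e3, e4]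
  refine H72.pm_mono fun p => ?_
  have h5 : al * (s' p * s' p) + be * (s p * ds p * s p) =
      al * (be * ds p) / (al + be * ds p) := by
    rw [hs', hs]
    have := (hds1 p).ne'
    field_simp
    ring
  rw [h5]
  exact mul_le_mul_of_nonneg_right (H p) (by positivity)

/-- the inequality of the symbols -/
theorem slb1 (b ε cs Ck : ℝ) (hb : 0 < b) (hε : 0 < ε) (hε1 : ε ≤ 1 / 2) (hcs : 0 < cs)
    (hCk : 1 ≤ Ck) (d : ℕ) :
    ∃ c : ℝ, 0 < c ∧ c ≤ 1 / 2 ∧ ∀ (M : ℕ) [NeZero M] (E η T : ℝ) (m ζ : ℂ),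
      ζ = ⟨E, η⟩ + (T : ℂ) * m → 0 < η → η ≤ T → T ≤ c → b ≤ m.im → m.im ≤ 1 / b →
      kf ζ (0 : Tor d M) = m.im / ζ.im →
      (∀ p : Tor d M,
        cs * (ds p / (ζ.im ^ 2 + ds p)) * kf ζ (0 : Tor d M) ≤ kf ζ (0 : Tor d M) - kf ζ p) →
      (∀ (p : Tor d M) (i : Fin d), |kf ζ p| ≤ Ck * (1 + Real.log (1 / ζ.im)) / ζ.im *
        Real.sqrt (ζ.im / (ζ.im + |Real.sin (Real.pi * ((p i).valMinAbs : ℝ) / M)|))) →
      ∀ p : Tor d M, (1 - T ^ (ε / 8)) * (ζ.im * m.im) * (c * T ^ (ε - 1) * ds p) /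
        ((1 - T ^ (ε / 8)) * (ζ.im * m.im) + c * T ^ (ε - 1) * ds p) ≤
          ζ.im ^ 2 * (kf ζ (0 : Tor d M) - kf ζ p) := by
  set B : ℝ := 1 + 1 / b with hB
  have hB1 : 1 ≤ B := by rw [hB]; linarith only [one_div_pos.2 hb]
  have hB0 : 0 < B := by linarith only [hε, hε1, hB1]
  obtain ⟨w0, hw0, hw01, hlog⟩ := log_small (Ck * B) b (ε / 8) (by nlinarith only [hε, hε1, hCk, hB1]) hb
    (by positivity)
  set c₂ : ℝ := cs * b / ((4 * d + 1) * B) with hc₂
  have hc₂0 : 0 < c₂ := by positivity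
  obtain ⟨c, hc0, hc1, hc2, hc3, hc4⟩ : ∃ c : ℝ, 0 < c ∧ c ≤ 1 / 2 ∧ c ≤ 1 / B ∧ c ≤ w0 / B ∧
      c ≤ c₂ := by
    refine ⟨min (min (1 / 2) (1 / B)) (min (w0 / B) c₂), ?_, ?_, ?_, ?_, ?_⟩
    · exact lt_min (lt_min (by norm_num) (by positivity)) (lt_min (by positivity) hc₂0)
    · exact (min_le_left _ _).trans (min_le_left _ _)
    · exact (min_le_left _ _).trans (min_le_right _ _)
    · exact (min_le_right _ _).trans (min_le_left _ _)
    · exact (min_le_right _ _).trans (min_le_right _ _)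
  refine ⟨c, hc0, hc1, ?_⟩
  intro M _ E η T m ζ hζ hη hηT hTc hm hm2 hk0 hsy hkk p
  have hT : 0 < T := hη.trans_le hηT
  have hT1 : T ≤ 1 := by linarith only [hε, hε1, hc1, hTc]
  have hm0 : 0 < m.im := hb.trans_le hm
  have him : ζ.im = η + T * m.im := by
    rw [hζ]
    simp
  obtain ⟨κ, hκ⟩ : ∃ κ, κ = ζ.im := ⟨_, rfl⟩
  obtain ⟨g, hg⟩ : ∃ g, g = m.im := ⟨_, rfl⟩
  rw [← hκ, ← hg] at him
  rw [← hκ] at hsy hkk
  rw [← hκ, ← hg] at hk0 ⊢
  rw [← hg] at hm hm2 hm0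
  have hκ0 : 0 < κ := by rw [him]; positivity
  have hκT : κ ≤ B * T := by
    rw [him, hB]
    have : T * g ≤ T * (1 / b) := by gcongr
    nlinarith only [hηT, this]
  have hκ1 : κ ≤ 1 := by
    calc κ ≤ B * T := hκT
      _ ≤ B * (1 / B) := by
          have := hTc.trans hc2
          gcongr
      _ = 1 := by field_simp
  have hκw : κ ≤ w0 := by
    calc κ ≤ B * T := hκT
      _ ≤ B * (w0 / B) := by
          have := hTc.trans hc3
          gcongr
      _ = w0 := by field_simp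
  have hdp := ds_nonneg p
  have hTd : 0 < T ^ (ε / 8) := Real.rpow_pos_of_pos hT _
  have hTd1 : T ^ (ε / 8) < 1 := by
    apply Real.rpow_lt_one hT.le (by linarith only [hε, hε1, hc1, hTc]) (by positivity)
  have hTe : 0 < T ^ (ε - 1) := Real.rpow_pos_of_pos hT _
  have hkg : 0 < κ * g := by positivity
  set al : ℝ := (1 - T ^ (ε / 8)) * (κ * g) with hal
  have hal0 : 0 < al := by
    rw [hal]
    have : 0 < 1 - T ^ (ε / 8) := by linarith only [hTd1]
    positivity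
  set be : ℝ := c * T ^ (ε - 1) with hbe
  have hbe0 : 0 < be := by positivity
  have hden : 0 < al + be * ds p := by positivity
  by_cases hcase : ∃ i : Fin d, κ ^ (1 - ε / 2) ≤
      |Real.sin (Real.pi * ((p i).valMinAbs : ℝ) / M)|
  · -- large momenta
    obtain ⟨i, hi⟩ := hcase
    have h1 : al * (be * ds p) / (al + be * ds p) ≤ al := by
      rw [div_le_iff₀ hden]
      nlinarith only [hε, hε1, hal0]
    refine h1.trans ?_
    have h2 := hkk p i
    have hl0 : 0 ≤ Real.log (1 / κ) := Real.log_nonneg (by rw [le_div_iff₀ hκ0]; linarith only [hκ1])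
    have hκe : 0 < κ ^ (1 - ε / 2) := Real.rpow_pos_of_pos hκ0 _
    have h3 : Real.sqrt (κ / (κ + |Real.sin (Real.pi * ((p i).valMinAbs : ℝ) / M)|)) ≤
        κ ^ (ε / 4) := by
      rw [show κ ^ (ε / 4) = Real.sqrt (κ ^ (ε / 2)) by
        rw [Real.sqrt_eq_rpow, ← Real.rpow_mul hκ0.le]
        congr 1
        ring]
      apply Real.sqrt_le_sqrt
      rw [div_le_iff₀ (by positivity)]
      have h4 : κ ^ (ε / 2) * κ ^ (1 - ε / 2) = κ := by
        rw [← Real.rpow_add hκ0]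
        simp
      have h5 : 0 < κ ^ (ε / 2) := Real.rpow_pos_of_pos hκ0 _
      nlinarith only [mul_le_mul_of_nonneg_left hi h5.le, hε, hε1, hκ0, hi, h4, h5]
    have h6 : kf ζ p ≤ Ck * (1 + Real.log (1 / κ)) / κ * κ ^ (ε / 4) := by
      refine (le_abs_self _).trans (h2.trans ?_)
      gcongr
    have h7 := hlog κ hκ0 hκw
    have h8 : κ ^ (ε / 8) ≤ B * T ^ (ε / 8) := by
      calc κ ^ (ε / 8) ≤ (B * T) ^ (ε / 8) := Real.rpow_le_rpow hκ0.le hκT (by positivity)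
        _ = B ^ (ε / 8) * T ^ (ε / 8) := Real.mul_rpow hB0.le hT.le
        _ ≤ B * T ^ (ε / 8) := by
            gcongr
            calc B ^ (ε / 8) ≤ B ^ (1 : ℝ) :=
                  Real.rpow_le_rpow_of_exponent_le hB1 (by linarith only [hε, hε1])
              _ = B := Real.rpow_one B
    have h9 : κ ^ (ε / 4) = κ ^ (ε / 8) * κ ^ (ε / 8) := by
      rw [← Real.rpow_add hκ0]
      congr 1
      ring
    have hκd : 0 < κ ^ (ε / 8) := Real.rpow_pos_of_pos hκ0 _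
    have h10 : κ ^ 2 * kf ζ p ≤ κ * g * T ^ (ε / 8) := by
      calc κ ^ 2 * kf ζ p ≤ κ ^ 2 * (Ck * (1 + Real.log (1 / κ)) / κ * κ ^ (ε / 4)) := by
            gcongr
        _ = κ * (Ck * (1 + Real.log (1 / κ)) * κ ^ (ε / 8)) * κ ^ (ε / 8) := by
            rw [h9]
            field_simp
        _ ≤ κ * (Ck * (1 + Real.log (1 / κ)) * κ ^ (ε / 8)) * (B * T ^ (ε / 8)) := by
            gcongr
        _ = κ * (Ck * B * (1 + Real.log (1 / κ)) * κ ^ (ε / 8)) * T ^ (ε / 8) := by ring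
        _ ≤ κ * g * T ^ (ε / 8) := by
            have h11 : Ck * B * (1 + Real.log (1 / κ)) * κ ^ (ε / 8) ≤ g := by
              have h12 : 0 ≤ Ck * B * (1 + Real.log (1 / κ)) * κ ^ (ε / 8) := by positivity
              nlinarith only [hm0, hm, h7]
            gcongr
    have h12 : κ ^ 2 * (g / κ) = κ * g := by
      field_simp
    rw [mul_sub, hk0, h12, hal]
    nlinarith
  · -- small momenta
    push Not at hcase
    have h1 : al * (be * ds p) / (al + be * ds p) ≤ be * ds p := by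
      rw [div_le_iff₀ hden]
      have : 0 ≤ be * ds p := by positivity
      nlinarith only [hε, hε1, this]
    refine h1.trans ?_
    have hκe : 0 < κ ^ (1 - ε / 2) := Real.rpow_pos_of_pos hκ0 _
    have h2 : ds p ≤ 4 * d * κ ^ (2 - ε) := by
      rw [ds_sin]
      have h3 : κ ^ (2 - ε) = (κ ^ (1 - ε / 2)) ^ 2 := by
        rw [← Real.rpow_natCast, ← Real.rpow_mul hκ0.le]
        congr 1
        push_cast
        ring
      calc ∑ i, 4 * Real.sin (Real.pi * ((p i).valMinAbs : ℝ) / M) ^ 2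
          ≤ ∑ _i : Fin d, 4 * (κ ^ (1 - ε / 2)) ^ 2 := by
            refine Finset.sum_le_sum fun i _ => ?_
            have h4 := (hcase i).le
            rw [← sq_abs]
            gcongr
        _ = 4 * d * κ ^ (2 - ε) := by
            rw [Finset.sum_const, Finset.card_univ, Fintype.card_fin, nsmul_eq_mul, h3]
            ring
    have hκ2 : κ ^ 2 ≤ κ ^ (2 - ε) := by
      rw [← Real.rpow_natCast]
      exact Real.rpow_le_rpow_of_exponent_ge hκ0 hκ1 (by push_cast; linarith only [hε])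
    have h3 : κ ^ 2 + ds p ≤ (4 * d + 1) * κ ^ (2 - ε) := by linarith only [h2, hκ2]
    have h4 := hsy p
    rw [hk0] at h4
    have hke : 0 < κ ^ (2 - ε) := Real.rpow_pos_of_pos hκ0 _
    have h5 : ds p / ((4 * d + 1) * κ ^ (2 - ε)) ≤ ds p / (κ ^ 2 + ds p) := by
      gcongr
    have h6 : cs * (ds p / ((4 * d + 1) * κ ^ (2 - ε))) * (g / κ) ≤
        kf ζ (0 : Tor d M) - kf ζ p := by
      rw [hk0]
      refine le_trans ?_ h4
      gcongr
    have h7 : T ^ (ε - 1) ≤ B * κ ^ (ε - 1) := by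
      have h8 : (B * T) ^ (ε - 1) ≤ κ ^ (ε - 1) :=
        Real.rpow_le_rpow_of_nonpos hκ0 hκT (by linarith only [hε, hε1])
      rw [Real.mul_rpow hB0.le hT.le] at h8
      have h9 : B ^ (-1 : ℝ) ≤ B ^ (ε - 1) :=
        Real.rpow_le_rpow_of_exponent_le hB1 (by linarith only [hε])
      rw [Real.rpow_neg_one] at h9
      have h10 : B⁻¹ * T ^ (ε - 1) ≤ κ ^ (ε - 1) := by
        refine le_trans ?_ h8
        gcongr
      rw [inv_mul_le_iff₀ hB0] at h10
      exact h10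
    have h8 : κ ^ 2 * (1 / κ ^ (2 - ε) * (1 / κ)) = κ ^ (ε - 1) := by
      have e1 : κ ^ (ε - 1) = κ ^ (2 : ℝ) * κ ^ (-(2 - ε)) * κ ^ (-1 : ℝ) := by
        rw [← Real.rpow_add hκ0, ← Real.rpow_add hκ0]
        congr 1
        ring
      rw [e1, Real.rpow_neg hκ0.le, Real.rpow_neg_one, Real.rpow_two]
      simp only [one_div]
      ring
    calc be * ds p ≤ c₂ * (B * κ ^ (ε - 1)) * ds p := by
          rw [hbe]
          gcongr
      _ = cs * b / (4 * d + 1) * κ ^ (ε - 1) * ds p := by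
          rw [hc₂]
          field_simp
      _ ≤ cs * g / (4 * d + 1) * κ ^ (ε - 1) * ds p := by
          have : 0 < κ ^ (ε - 1) := Real.rpow_pos_of_pos hκ0 _
          gcongr
      _ = κ ^ 2 * (cs * (ds p / ((4 * d + 1) * κ ^ (2 - ε))) * (g / κ)) := by
          rw [← h8]
          field_simp
      _ ≤ _ := by gcongr

theorem slb (hFmu : FmuStmt) (hKft : KftStmt) : SlbStmt := by
  intro d b ε cs Ck hd hb hε hε1 hcs hCk
  obtain ⟨c, hc0, hc1, H⟩ := slb1 b (8 * ε) cs Ck hb (by linarith only [hε]) (by linarith only [hε, hε1]) hcs hCk d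
  refine ⟨c, hc0, hc1, ?_⟩
  intro M _ E η T m ζ hζ hη hηT hTc hm hm2 hrs hsy hkk f
  have hT : 0 < T := hη.trans_le hηT
  have hm0 : 0 < m.im := hb.trans_le hm
  have him : ζ.im = η + T * m.im := by
    rw [hζ]
    simp
  have hw0 : 0 < ζ.im := by rw [him]; positivity
  obtain ⟨-, -, -, -, -, f6⟩ := hKft d M ζ hw0
  have hkf : kf ζ (0 : Tor d M) = m.im / ζ.im := by
    rw [f6, hrs]
  have H1 := H M E η T m ζ hζ hη hηT hTc hm hm2 hkf hsy hkk
  have e1 : 8 * ε / 8 = ε := by ring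
  simp only [e1] at H1
  rw [← him]
  have hT1 : T ^ ε < 1 := Real.rpow_lt_one hT.le (by linarith only [hε, hε1, hc1, hTc]) hε
  have hal : 0 < (1 - T ^ ε) * (ζ.im * m.im) := by
    have : 0 < 1 - T ^ ε := by linarith only [hT1]
    positivity
  have hbe : 0 < c * T ^ (8 * ε - 1) := by
    have : 0 < T ^ (8 * ε - 1) := Real.rpow_pos_of_pos hT _
    positivity
  exact slb0 hFmu hKft ζ _ _ hw0 hal hbe H1 f

end Pool.Agent.ANI.H96
end
end -- Pool.Agent.Helper96_ANI.SLB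

section -- Pool.Agent.Helper54_LQF.MSS

set_option autoImplicit false

open MeasureTheory ProbabilityTheory Function Filter

open scoped ENNReal BigOperators Topology NNReal ComplexOrder Matrix

noncomputable section

namespace Pool.Agent.LE.QF.H54

open Pool.Agent.Anderson hiding box mem_box card_box
open Pool.Agent.Loc Pool.Agent.Mob Pool.Agent.Helper54.Bal
  Pool.Agent.Helper96.EXP Pool.Agent.BED
open Pool.Agent.LE.MN Pool.Agent.LE.CL Pool.Agent.LE.IR Pool.Agent.LE.QD Pool.Agent.LE.QF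
open Pool.Agent.LE.QF.H49

variable {d M : ℕ} [NeZero M]

theorem norm_ec (p y : Tor d M) : ‖ec p y‖ = 1 := by
  unfold ec
  rw [norm_prod]
  exact Finset.prod_eq_one fun i _ => AddChar.norm_apply _ _

theorem ft_le (C' : Finset (Tor d M)) (p : Tor d M) :
    ‖ft (fun x => ((if x ∈ C' then (1 : ℝ) else 0 : ℝ) : ℂ)) p‖ ≤ C'.card := by
  unfold ft
  refine (norm_sum_le _ _).trans ?_
  calc ∑ y : Tor d M, ‖(starRingEnd ℂ) (ec p y) * ((if y ∈ C' then (1 : ℝ) else 0 : ℝ) : ℂ)‖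
      ≤ ∑ y : Tor d M, (if y ∈ C' then (1 : ℝ) else 0) := by
        refine Finset.sum_le_sum fun y _ => ?_
        rw [norm_mul, RCLike.norm_conj, norm_ec, one_mul, Complex.norm_real]
        split_ifs <;> simp
    _ = C'.card := by
        rw [← Finset.sum_filter]
        simp

theorem out_le {J : ℕ} {p : Tor d M} (hp : p ∉ low d M J) :
    (J : ℝ) ^ 2 ≤ ∑ i, ((p i).valMinAbs : ℝ) ^ 2 := by
  unfold low at hp
  simp only [Finset.mem_filter, Finset.mem_univ, true_and, not_forall, not_le] at hp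
  obtain ⟨i, hi⟩ := hp
  have h1 : (J : ℝ) ^ 2 ≤ ((p i).valMinAbs : ℝ) ^ 2 := by
    have h2 : (J : ℝ) ≤ |((p i).valMinAbs : ℝ)| := by
      have h3 : ((p i).valMinAbs.natAbs : ℝ) = |((p i).valMinAbs : ℝ)| := by
        rw [Nat.cast_natAbs, Int.cast_abs]
      rw [← h3]
      exact_mod_cast hi.le
    rw [← sq_abs ((p i).valMinAbs : ℝ)]
    exact pow_le_pow_left₀ (Nat.cast_nonneg _) h2 2
  exact h1.trans (Finset.single_le_sum (f := fun i => ((p i).valMinAbs : ℝ) ^ 2)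
    (fun j _ => sq_nonneg _) (Finset.mem_univ i))

theorem mss (hfmu : FmuStmt) (hlow : LowStmt) : MssStmt := by
  intro d hd
  obtain ⟨C, hC, hL⟩ := hlow d hd
  refine ⟨C, hC, ?_⟩
  intro M _ J J₁ cs w C' hJ₁ hcs hw
  obtain ⟨hds, hJ⟩ := hL M
  obtain ⟨hcard, hsum⟩ := hJ J₁ hJ₁
  have hM : (0 : ℝ) < M := by exact_mod_cast Nat.pos_of_ne_zero (NeZero.ne M)
  have hMd : (0 : ℝ) < (M : ℝ) ^ d := pow_pos hM d
  have hJp : (0 : ℝ) < J₁ := by exact_mod_cast hJ₁
  obtain ⟨f, hf⟩ : ∃ f : Tor d M → ℝ, f = fun x => if x ∈ C' then (1 : ℝ) else 0 := ⟨_, rfl⟩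
  obtain ⟨s, hs⟩ : ∃ s : Tor d M → ℝ, s = sy0 cs w J := ⟨_, rfl⟩
  have hs0 : ∀ p, 0 ≤ s p := fun p => by rw [hs]; exact sy0_nonneg hcs.le hw J p
  have hsn : ∀ p, s (-p) = s p := fun p => by rw [hs]; exact sy0_neg cs w J p
  have h1 := (hfmu d M s (fun _ => 1) hsn (fun _ => rfl)).1 f
  have h2 := (hfmu d M (fun _ => 1) (fun _ => 1) (fun _ => rfl) (fun _ => rfl)).1 f
  rw [(hfmu d M (fun _ => 1) (fun _ => 1) (fun _ => rfl) (fun _ => rfl)).2.2.2.2.2.1, qf_one] at h2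
  have hff : ∑ a, f a ^ 2 = C'.card := by
    rw [hf]
    have : ∀ a : Tor d M, (if a ∈ C' then (1 : ℝ) else 0) ^ 2 = if a ∈ C' then (1 : ℝ) else 0 := by
      intro a
      split_ifs <;> norm_num
    simp only [this]
    rw [← Finset.sum_filter]
    simp
  rw [hff] at h2
  have hqf : qf (mlt s) f = ∑ x ∈ C', ∑ y ∈ C', mlt s x y := by
    unfold qf
    rw [← Finset.sum_subset (Finset.subset_univ C')]
    · refine Finset.sum_congr rfl fun x hx => ?_
      unfold Matrix.mulVec dotProduct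
      rw [← Finset.sum_subset (Finset.subset_univ C')]
      · rw [hf]
        simp only [hx, if_true, one_mul]
        refine Finset.sum_congr rfl fun y hy => ?_
        simp only [hy, if_true, mul_one]
      · intro y _ hy
        rw [hf]
        simp only [hy, if_false, mul_zero]
    · intro x _ hx
      rw [hf]
      simp only [hx, if_false, zero_mul]
  rw [hs] at hqf
  rw [← hqf, ← hs, h1]
  obtain ⟨g, hg⟩ : ∃ g : Tor d M → ℝ, g = fun p => ‖ft (fun x => (f x : ℂ)) p‖ ^ 2 := ⟨_, rfl⟩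
  have hg0 : ∀ p, 0 ≤ g p := fun p => by rw [hg]; positivity
  have hgC : ∀ p, g p ≤ (C'.card : ℝ) ^ 2 := by
    intro p
    rw [hg, hf]
    exact pow_le_pow_left₀ (norm_nonneg _) (ft_le C' p) 2
  have hgs : (∑ p, g p) / (M : ℝ) ^ d = C'.card := by
    rw [h2]
    unfold pm
    simp only [hg, one_mul]
  have hpm : pm (fun p => s p * ‖ft (fun x => (f x : ℂ)) p‖ ^ 2) =
      (∑ p, s p * g p) / (M : ℝ) ^ d := by
    unfold pm
    simp only [hg]
  rw [hpm]
  obtain ⟨B, hB⟩ : ∃ B : ℝ, B = cs * (1 / w + w * (M : ℝ) ^ 2 / (J₁ : ℝ) ^ 2) := ⟨_, rfl⟩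
  have hB0 : 0 ≤ B := by rw [hB]; positivity
  have hout : ∀ p, p ∉ low d M J₁ → s p ≤ B := by
    intro p hp
    rw [hs]
    unfold sy0
    split_ifs
    · rw [hB]
      refine mul_le_mul_of_nonneg_left ?_ hcs.le
      have h3 : 16 / (M : ℝ) ^ 2 * (J₁ : ℝ) ^ 2 ≤ ds p :=
        (mul_le_mul_of_nonneg_left (out_le hp) (by positivity)).trans (hds p).1
      have h4 : w / ds p ≤ w * (M : ℝ) ^ 2 / (J₁ : ℝ) ^ 2 := by
        have h5 : 0 < 16 / (M : ℝ) ^ 2 * (J₁ : ℝ) ^ 2 := by positivity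
        calc w / ds p ≤ w / (16 / (M : ℝ) ^ 2 * (J₁ : ℝ) ^ 2) := by gcongr
          _ = w * (M : ℝ) ^ 2 / (J₁ : ℝ) ^ 2 / 16 := by field_simp
          _ ≤ w * (M : ℝ) ^ 2 / (J₁ : ℝ) ^ 2 := by
              have : 0 ≤ w * (M : ℝ) ^ 2 / (J₁ : ℝ) ^ 2 := by positivity
              linarith only [this]
      linarith only [h4]
    · exact hB0
  have hin : ∑ p ∈ low d M J₁, s p ≤ cs * (C * (J₁ : ℝ) ^ d / w +
      w * (C * (M : ℝ) ^ 2 * (J₁ : ℝ) ^ (d - 2))) := by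
    have h3 : ∀ p ∈ low d M J₁, s p ≤ cs * (1 / w + w * (if p ≠ 0 then 1 / ds p else 0)) := by
      intro p _
      rw [hs]
      unfold sy0
      split_ifs with h4 h5 h5
      · rw [mul_one_div]
      · exact absurd h4.2 h5
      · have := ds_nonneg p
        positivity
      · simp only [mul_zero, add_zero]
        positivity
    refine (Finset.sum_le_sum h3).trans ?_
    rw [← Finset.mul_sum]
    refine mul_le_mul_of_nonneg_left ?_ hcs.le
    rw [Finset.sum_add_distrib, ← Finset.mul_sum, ← Finset.sum_filter, Finset.sum_const,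
      nsmul_eq_mul]
    refine add_le_add ?_ (mul_le_mul_of_nonneg_left hsum hw.le)
    rw [mul_one_div]
    gcongr
  have hsplit : ∑ p, s p * g p ≤ B * ∑ p, g p +
      (cs * (C * (J₁ : ℝ) ^ d / w + w * (C * (M : ℝ) ^ 2 * (J₁ : ℝ) ^ (d - 2)))) *
        (C'.card : ℝ) ^ 2 := by
    rw [← Finset.sum_add_sum_compl (low d M J₁) fun p => s p * g p]
    have h3 : ∑ p ∈ low d M J₁, s p * g p ≤
        (cs * (C * (J₁ : ℝ) ^ d / w + w * (C * (M : ℝ) ^ 2 * (J₁ : ℝ) ^ (d - 2)))) *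
        (C'.card : ℝ) ^ 2 := by
      calc ∑ p ∈ low d M J₁, s p * g p ≤ ∑ p ∈ low d M J₁, s p * (C'.card : ℝ) ^ 2 :=
            Finset.sum_le_sum fun p _ => mul_le_mul_of_nonneg_left (hgC p) (hs0 p)
        _ = (∑ p ∈ low d M J₁, s p) * (C'.card : ℝ) ^ 2 := by rw [Finset.sum_mul]
        _ ≤ _ := mul_le_mul_of_nonneg_right hin (by positivity)
    have h4 : ∑ p ∈ (low d M J₁)ᶜ, s p * g p ≤ B * ∑ p, g p := by
      calc ∑ p ∈ (low d M J₁)ᶜ, s p * g p ≤ ∑ p ∈ (low d M J₁)ᶜ, B * g p :=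
            Finset.sum_le_sum fun p hp => mul_le_mul_of_nonneg_right
              (hout p (Finset.mem_compl.1 hp)) (hg0 p)
        _ ≤ ∑ p, B * g p := Finset.sum_le_sum_of_subset_of_nonneg (Finset.subset_univ _)
            fun p _ _ => mul_nonneg hB0 (hg0 p)
        _ = B * ∑ p, g p := by rw [Finset.mul_sum]
    linarith
  have h5 : (∑ p, s p * g p) / (M : ℝ) ^ d ≤ B * C'.card +
      (cs * (C * (J₁ : ℝ) ^ d / w + w * (C * (M : ℝ) ^ 2 * (J₁ : ℝ) ^ (d - 2)))) /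
        (M : ℝ) ^ d * (C'.card : ℝ) ^ 2 := by
    rw [← hgs]
    calc (∑ p, s p * g p) / (M : ℝ) ^ d ≤ (B * ∑ p, g p +
      (cs * (C * (J₁ : ℝ) ^ d / w + w * (C * (M : ℝ) ^ 2 * (J₁ : ℝ) ^ (d - 2)))) *
        (C'.card : ℝ) ^ 2) / (M : ℝ) ^ d := by gcongr
      _ = _ := by rw [hgs]; ring_nf; rw [← hgs]; ring
  have h6 : (cs * (C * (J₁ : ℝ) ^ d / w + w * (C * (M : ℝ) ^ 2 * (J₁ : ℝ) ^ (d - 2)))) /
        (M : ℝ) ^ d = C * cs * (((J₁ : ℝ) / M) ^ d / w + w * ((J₁ : ℝ) / M) ^ (d - 2)) := by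
    obtain ⟨e, rfl⟩ : ∃ e, d = e + 2 := ⟨d - 2, by omega⟩
    have h7 : e + 2 - 2 = e := by omega
    rw [h7, div_pow, div_pow]
    field_simp
    ring
  have h8 : B * C'.card ≤ C * cs * ((1 / w + w * (M : ℝ) ^ 2 / (J₁ : ℝ) ^ 2) * C'.card) := by
    rw [hB]
    have h9 : 0 ≤ cs * ((1 / w + w * (M : ℝ) ^ 2 / (J₁ : ℝ) ^ 2) * (C'.card : ℝ)) := by positivity
    have h10 : cs * (1 / w + w * (M : ℝ) ^ 2 / (J₁ : ℝ) ^ 2) * C'.card =
        1 * (cs * ((1 / w + w * (M : ℝ) ^ 2 / (J₁ : ℝ) ^ 2) * C'.card)) := by ring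
    rw [h10, mul_assoc C cs]
    exact mul_le_mul_of_nonneg_right hC h9
  rw [h6] at h5
  calc (∑ p, s p * g p) / (M : ℝ) ^ d ≤ _ := h5
    _ ≤ C * cs * ((1 / w + w * (M : ℝ) ^ 2 / (J₁ : ℝ) ^ 2) * C'.card) +
        C * cs * (((J₁ : ℝ) / M) ^ d / w + w * ((J₁ : ℝ) / M) ^ (d - 2)) * (C'.card : ℝ) ^ 2 := by
        linarith only [h8]
    _ = _ := by ring

end Pool.Agent.LE.QF.H54
end
end -- Pool.Agent.Helper54_LQF.MSS
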