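import Pool.Agent.Helper12_MEB.B087
import Pool.Agent.Helper12_MEB.B116

/-!
# Merged copies (generated) of the modules

* `Pool.Agent.Helper46_LQD.BKT`
* `Pool.Agent.Helper88_LQF.FRB`
* `Pool.Agent.Helper21_ANI.PRD`
* `Pool.Agent.Helper54_ANI.LAM`
* `Pool.Agent.Helper69_LQF.FMU`
* `Pool.Agent.Helper8_LQF.KHB`
-/

set_option autoImplicit false

section -- Pool.Agent.Helper46_LQD.BKT

/-!
Row BKT of squad LQD: the kernel of `e^{i t Δ}` on the torus, integrated over a dyadic block.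
-/

set_option autoImplicit false

open MeasureTheory ProbabilityTheory Function Filter

open scoped ENNReal BigOperators Topology NNReal ComplexOrder Matrix

noncomputable section

namespace Pool.Agent.LE.QD.H46

open Pool.Agent.Anderson hiding box mem_box card_box
open Pool.Agent.Loc Pool.Agent.Mob Pool.Agent.Helper54.Bal
  Pool.Agent.Helper96.EXP Pool.Agent.BED
open Pool.Agent.LE.MN Pool.Agent.LE.CL Pool.Agent.LE.IR

lemma es_eq {d M : ℕ} [NeZero M] (p : Tor d M) :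
    es p = ∑ i, 2 * Real.cos (2 * Real.pi * ((p i).valMinAbs : ℝ) / M) := by
  unfold es ds
  have : ∀ i : Fin d, 2 * (1 - Real.cos (2 * Real.pi * ((p i).valMinAbs : ℝ) / M))
      = 2 - 2 * Real.cos (2 * Real.pi * ((p i).valMinAbs : ℝ) / M) := fun i => by ring
  simp_rw [this]
  rw [Finset.sum_sub_distrib, Finset.sum_const, Finset.card_univ, Fintype.card_fin, nsmul_eq_mul]
  ring

lemma kernel_eq {d M : ℕ} [NeZero M] (t : ℝ) (y : Tor d M) :
    (∑ p, ec p y * Complex.exp (Complex.I * ((t * es p : ℝ) : ℂ))) / (M : ℂ) ^ d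
      = ∏ i, jt M t (y i) := by
  have h1 : ∀ p : Tor d M, ec p y * Complex.exp (Complex.I * ((t * es p : ℝ) : ℂ))
      = ∏ i, (ZMod.stdAddChar (p i * y i) *
        Complex.exp (Complex.I * ((2 * t * Real.cos (2 * Real.pi * ((p i).valMinAbs : ℝ) / M)
          : ℝ) : ℂ))) := by
    intro p
    rw [Finset.prod_mul_distrib, ← Complex.exp_sum]
    unfold ec
    congr 2
    rw [es_eq, Finset.mul_sum, Complex.ofReal_sum, Finset.mul_sum]
    refine Finset.sum_congr rfl fun i _ => ?_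
    congr 2
    ring
  simp_rw [h1]
  unfold jt
  rw [Finset.prod_div_distrib, Finset.prod_const, Finset.card_univ, Fintype.card_fin]
  congr 1
  rw [Finset.prod_univ_sum, Fintype.piFinset_univ]

lemma norm_jt_le (M : ℕ) [NeZero M] (t : ℝ) (n : ZMod M) : ‖jt M t n‖ ≤ 1 := by
  unfold jt
  have hM : (0:ℝ) < M := by exact_mod_cast Nat.pos_of_ne_zero (NeZero.ne M)
  rw [norm_div, Complex.norm_natCast, div_le_one hM]
  refine (norm_sum_le _ _).trans ?_
  have h : ∀ p : ZMod M, ‖(ZMod.stdAddChar (p * n) : ℂ) *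
      Complex.exp (Complex.I * ((2 * t * Real.cos (2 * Real.pi * (p.valMinAbs : ℝ) / M) : ℝ) : ℂ))‖
      = 1 := by
    intro p
    rw [norm_mul, AddChar.norm_apply, one_mul, mul_comm Complex.I, Complex.norm_exp_ofReal_mul_I]
  simp_rw [h]
  rw [Finset.sum_const, Finset.card_univ, ZMod.card, nsmul_eq_mul, mul_one]

lemma continuous_jt (M : ℕ) [NeZero M] (n : ZMod M) : Continuous fun t : ℝ => jt M t n := by
  unfold jt
  fun_prop

lemma continuous_jb (n : ℤ) : Continuous fun t : ℝ => jb t n := by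
  unfold jb
  apply Continuous.div_const
  apply intervalIntegral.continuous_parametric_intervalIntegral_of_continuous'
  fun_prop

lemma prod_le_three {d : ℕ} (hd : 3 ≤ d) (a : Fin d → ℝ) (h0 : ∀ i, 0 ≤ a i)
    (h1 : ∀ i, a i ≤ 1) :
    ∏ i, a i ≤ ∑ i : Fin d, if (i : ℕ) < 3 then a i ^ 3 else 0 := by
  set i0 : Fin d := ⟨0, by omega⟩
  set i1 : Fin d := ⟨1, by omega⟩
  set i2 : Fin d := ⟨2, by omega⟩
  have hS : ({i0, i1, i2} : Finset (Fin d)) ⊆ Finset.univ := Finset.subset_univ _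
  have h01 : i0 ≠ i1 := by simp [i0, i1]
  have h02 : i0 ≠ i2 := by simp [i0, i2]
  have h12 : i1 ≠ i2 := by simp [i1, i2]
  have e1 : ∏ i ∈ ({i0, i1, i2} : Finset (Fin d)), a i = a i0 * (a i1 * a i2) := by
    rw [Finset.prod_insert (by simp [h01, h02]), Finset.prod_insert (by simp [h12]),
      Finset.prod_singleton]
  have e2 : ∏ i, a i ≤ ∏ i ∈ ({i0, i1, i2} : Finset (Fin d)), a i := by
    rw [← Finset.prod_sdiff hS]
    have h3 : ∏ i ∈ Finset.univ \ ({i0, i1, i2} : Finset (Fin d)), a i ≤ 1 :=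
      Finset.prod_le_one (fun i _ => h0 i) (fun i _ => h1 i)
    have h4 : 0 ≤ ∏ i ∈ ({i0, i1, i2} : Finset (Fin d)), a i :=
      Finset.prod_nonneg fun i _ => h0 i
    nlinarith only [h3, h4]
  have e3 : ∑ i ∈ ({i0, i1, i2} : Finset (Fin d)), a i ^ 3
      ≤ ∑ i : Fin d, if (i : ℕ) < 3 then a i ^ 3 else 0 := by
    rw [← Finset.sum_filter]
    apply Finset.sum_le_sum_of_subset_of_nonneg
    · intro i hi
      simp only [Finset.mem_insert, Finset.mem_singleton] at hi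
      simp only [Finset.mem_filter, Finset.mem_univ, true_and]
      rcases hi with rfl | rfl | rfl <;> simp [i0, i1, i2]
    · intro i _ _
      exact pow_nonneg (h0 i) 3
  have e4 : ∑ i ∈ ({i0, i1, i2} : Finset (Fin d)), a i ^ 3 = a i0 ^ 3 + (a i1 ^ 3 + a i2 ^ 3) := by
    rw [Finset.sum_insert (by simp [h01, h02]), Finset.sum_insert (by simp [h12]),
      Finset.sum_singleton]
  have e5 : a i0 * (a i1 * a i2) ≤ a i0 ^ 3 + (a i1 ^ 3 + a i2 ^ 3) := by
    have ha := h0 i0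
    have hb := h0 i1
    have hc := h0 i2
    nlinarith only [mul_nonneg (add_nonneg (add_nonneg ha hb) hc) (sq_nonneg (a i0 - a i1)),
      mul_nonneg (add_nonneg (add_nonneg ha hb) hc) (sq_nonneg (a i1 - a i2)),
      mul_nonneg (add_nonneg (add_nonneg ha hb) hc) (sq_nonneg (a i0 - a i2)),
      mul_nonneg ha (mul_nonneg hb hc)]
  linarith only [e1, e2, e3, e4, e5]

lemma exp_small {T : ℝ} (hT : 1 ≤ T) : Real.exp (-(20 * T)) ≤ T ^ (-(1 / 3 : ℝ)) ∧
    T * Real.exp (-(40 * T)) ≤ 1 := by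
  have h1 : T ≤ Real.exp T := by have := Real.add_one_le_exp T; linarith
  have h2 : 0 < Real.exp T := Real.exp_pos T
  constructor
  · have h3 : Real.exp (-(20 * T)) ≤ Real.exp (-T) := Real.exp_le_exp.mpr (by linarith)
    have h4 : Real.exp (-T) ≤ T⁻¹ := by
      rw [Real.exp_neg]
      exact inv_anti₀ (by linarith) h1
    have h5 : T⁻¹ ≤ T ^ (-(1 / 3 : ℝ)) := by
      rw [← Real.rpow_neg_one]
      exact Real.rpow_le_rpow_of_exponent_le hT (by norm_num)
    linarith only [h3, h4, h5]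
  · have h3 : Real.exp (-(40 * T)) ≤ Real.exp (-T) := Real.exp_le_exp.mpr (by linarith)
    have h4 : T * Real.exp (-(40 * T)) ≤ Real.exp T * Real.exp (-T) := by
      apply mul_le_mul h1 h3 (Real.exp_pos _).le h2.le
    rwa [← Real.exp_add, add_neg_cancel, Real.exp_zero] at h4

theorem bkt (hBES : BesStmt) (hBE2 : Be2Stmt) (hTOR : TorStmt) : BktStmt := by
  intro d hd
  obtain ⟨C1, hC1, hb1⟩ := hBES
  obtain ⟨C2, hC2, hb2⟩ := hBE2
  refine ⟨3 * ((C1 + 8) * (2 * C2 + 256)), by nlinarith only [hC1, hC2], ?_⟩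
  intro M _ T y hT hTM
  have hTpos : 0 < T := by linarith only [hT]
  set r : ℝ := T ^ (-(1 / 3 : ℝ)) with hr
  have hr0 : 0 ≤ r := Real.rpow_nonneg hTpos.le _
  obtain ⟨hx1, hx2⟩ := exp_small hT
  have hlogT : 0 ≤ Real.log T := Real.log_nonneg hT
  -- pointwise bound of `jt`
  have hexp : Real.exp (-((M : ℝ) / 4)) ≤ Real.exp (-(20 * T)) :=
    Real.exp_le_exp.mpr (by linarith only [hTM])
  have hdiff : ∀ (t : ℝ) (n : ZMod M), |t| ≤ 2 * T →
      ‖jt M t n‖ ≤ ‖jb t n.valMinAbs‖ + 8 * Real.exp (-(20 * T)) := by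
    intro t n ht
    have h1 := hTOR M t n (ht.trans hTM)
    have h2 : ‖jt M t n‖ ≤ ‖jt M t n - jb t n.valMinAbs‖ + ‖jb t n.valMinAbs‖ := by
      have := norm_add_le (jt M t n - jb t n.valMinAbs) (jb t n.valMinAbs)
      simpa using this
    linarith
  have hsup : ∀ (t : ℝ) (n : ZMod M), T ≤ |t| → |t| ≤ 2 * T → ‖jt M t n‖ ≤ (C1 + 8) * r := by
    intro t n ht1 ht2
    have h1 := hdiff t n ht2
    have h2 := hb1 t n.valMinAbs (hT.trans ht1)
    have h3 : |t| ^ (-(1 / 3 : ℝ)) ≤ r :=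
      Real.rpow_le_rpow_of_nonpos hTpos ht1 (by norm_num)
    have h4 : C1 * |t| ^ (-(1 / 3 : ℝ)) ≤ C1 * r := mul_le_mul_of_nonneg_left h3 (by linarith only [hC1])
    linarith
  have hsq : ∀ (t : ℝ) (n : ZMod M), |t| ≤ 2 * T →
      ‖jt M t n‖ ^ 2 ≤ 2 * ‖jb t n.valMinAbs‖ ^ 2 + 128 * Real.exp (-(40 * T)) := by
    intro t n ht2
    have h1 := hdiff t n ht2
    have h2 : ‖jt M t n‖ ^ 2 ≤ (‖jb t n.valMinAbs‖ + 8 * Real.exp (-(20 * T))) ^ 2 :=
      pow_le_pow_left₀ (norm_nonneg _) h1 2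
    have h3 : Real.exp (-(40 * T)) = Real.exp (-(20 * T)) * Real.exp (-(20 * T)) := by
      rw [← Real.exp_add]; ring_nf
    rw [h3]
    nlinarith [sq_nonneg (‖jb t n.valMinAbs‖ - 8 * Real.exp (-(20 * T)))]
  have hcube : ∀ (t : ℝ) (n : ZMod M), T ≤ |t| → |t| ≤ 2 * T →
      ‖jt M t n‖ ^ 3 ≤ (C1 + 8) * r * (2 * ‖jb t n.valMinAbs‖ ^ 2
        + 128 * Real.exp (-(40 * T))) := by
    intro t n ht1 ht2
    have e : ‖jt M t n‖ ^ 3 = ‖jt M t n‖ * ‖jt M t n‖ ^ 2 := by ring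
    rw [e]
    exact mul_le_mul (hsup t n ht1 ht2) (hsq t n ht2) (by positivity)
      (mul_nonneg (by linarith only [hC1]) hr0)
  -- the kernel
  have hneg : ∀ t : ℝ, (∑ p, ec p y * Complex.exp (-(Complex.I * ((t * es p : ℝ) : ℂ))))
      / (M : ℂ) ^ d = ∏ i, jt M (-t) (y i) := by
    intro t
    rw [← kernel_eq]
    congr 1
    refine Finset.sum_congr rfl fun p _ => ?_
    congr 2
    push_cast
    ring
  have hker : ∀ t : ℝ, ‖∏ i, jt M t (y i)‖ ≤ ∑ i : Fin d, if (i : ℕ) < 3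
      then ‖jt M t (y i)‖ ^ 3 else 0 := by
    intro t
    rw [norm_prod]
    exact prod_le_three hd _ (fun i => norm_nonneg _) (fun i => norm_jt_le M t (y i))
  set g : ℝ → ℝ := fun t => ∑ i : Fin d, if (i : ℕ) < 3 then
    (C1 + 8) * r * (2 * (‖jb t (y i).valMinAbs‖ ^ 2 + ‖jb (-t) (y i).valMinAbs‖ ^ 2)
      + 256 * Real.exp (-(40 * T))) else 0 with hg
  have hjc : ∀ n : ℤ, Continuous fun t : ℝ => ‖jb t n‖ ^ 2 + ‖jb (-t) n‖ ^ 2 := by
    intro n
    have h1 := continuous_jb n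
    have h2 : Continuous fun t : ℝ => jb (-t) n := h1.comp continuous_neg
    exact (h1.norm.pow 2).add (h2.norm.pow 2)
  have hterm : ∀ i : Fin d, Continuous fun t : ℝ => (if (i : ℕ) < 3 then
    (C1 + 8) * r * (2 * (‖jb t (y i).valMinAbs‖ ^ 2 + ‖jb (-t) (y i).valMinAbs‖ ^ 2)
      + 256 * Real.exp (-(40 * T))) else 0) := by
    intro i
    split_ifs
    · exact ((((hjc _).const_mul 2)).add continuous_const).const_mul _
    · exact continuous_const
  have hgc : Continuous g := continuous_finsetSum _ fun i _ => hterm i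
  have hfc : Continuous fun t : ℝ => ‖∏ i, jt M t (y i)‖ + ‖∏ i, jt M (-t) (y i)‖ := by
    have h1 : Continuous fun t : ℝ => ∏ i, jt M t (y i) :=
      continuous_finsetProd _ fun i _ => continuous_jt M (y i)
    exact h1.norm.add (h1.comp continuous_neg).norm
  have hle : ∀ t ∈ Set.Icc T (2 * T),
      ‖∏ i, jt M t (y i)‖ + ‖∏ i, jt M (-t) (y i)‖ ≤ g t := by
    intro t ht
    have habs : |t| = t := abs_of_nonneg (by linarith only [ht.1, hT])
    have habs' : |(-t)| = t := by rw [abs_neg, habs]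
    refine (add_le_add (hker t) (hker (-t))).trans ?_
    rw [← Finset.sum_add_distrib, hg]
    apply Finset.sum_le_sum
    intro i _
    by_cases hi : (i : ℕ) < 3
    · simp only [if_pos hi]
      have h1 := hcube t (y i) (by rw [habs]; exact ht.1) (by rw [habs]; exact ht.2)
      have h2 := hcube (-t) (y i) (by rw [habs']; exact ht.1) (by rw [habs']; exact ht.2)
      calc _ ≤ _ := add_le_add h1 h2
        _ = _ := by ring
    · simp only [if_neg hi]
      norm_num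
  have hint : ∫ t in T..2 * T, (‖∏ i, jt M t (y i)‖ + ‖∏ i, jt M (-t) (y i)‖)
      ≤ ∫ t in T..2 * T, g t :=
    intervalIntegral.integral_mono_on (by linarith only [hT]) (hfc.intervalIntegrable _ _)
      (hgc.intervalIntegrable _ _) hle
  set X : ℝ := (C1 + 8) * r * ((2 * C2 + 256) * (1 + Real.log T)) with hX
  have hX0 : 0 ≤ X := by
    have : 0 ≤ 1 + Real.log T := by linarith only [hlogT]
    positivity
  have hgint : ∫ t in T..2 * T, g t ≤ ∑ i : Fin d, if (i : ℕ) < 3 then X else 0 := by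
    rw [hg, intervalIntegral.integral_finsetSum fun i _ => (hterm i).intervalIntegrable _ _]
    apply Finset.sum_le_sum
    intro i _
    by_cases hi : (i : ℕ) < 3
    · simp only [if_pos hi]
      rw [intervalIntegral.integral_const_mul, intervalIntegral.integral_add
        (((hjc _).const_mul 2).intervalIntegrable _ _) (continuous_const.intervalIntegrable _ _),
        intervalIntegral.integral_const_mul, intervalIntegral.integral_const, smul_eq_mul]
      have h1 := hb2 T (y i).valMinAbs hT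
      rw [hX]
      apply mul_le_mul_of_nonneg_left _ (mul_nonneg (by linarith only [hC1]) hr0)
      have h2 : (2 * T - T) * (256 * Real.exp (-(40 * T))) ≤ 256 := by nlinarith only [hx2]
      nlinarith only [hx2, hlogT, h1]
    · simp only [if_neg hi]
      simp
  have hcard : ((Finset.univ.filter fun i : Fin d => (i : ℕ) < 3).card : ℝ) ≤ 3 := by
    have h1 : (Finset.univ.filter fun i : Fin d => (i : ℕ) < 3).card ≤ (Finset.range 3).card := by
      apply Finset.card_le_card_of_injOn (fun i : Fin d => (i : ℕ))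
      · intro i hi
        simp only [Finset.coe_filter, Finset.mem_univ, true_and, Set.mem_ofPred_eq] at hi
        simpa using hi
      · intro i _ j _ h
        exact Fin.ext h
    rw [Finset.card_range] at h1
    exact_mod_cast h1
  have hsum : ∑ i : Fin d, (if (i : ℕ) < 3 then X else 0) ≤ 3 * X := by
    rw [← Finset.sum_filter, Finset.sum_const, nsmul_eq_mul]
    exact mul_le_mul_of_nonneg_right hcard hX0
  have hfin : ∫ t in T..2 * T,
      (‖(∑ p, ec p y * Complex.exp (Complex.I * ((t * es p : ℝ) : ℂ))) / (M : ℂ) ^ d‖ +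
        ‖(∑ p, ec p y * Complex.exp (-(Complex.I * ((t * es p : ℝ) : ℂ)))) / (M : ℂ) ^ d‖)
      = ∫ t in T..2 * T, (‖∏ i, jt M t (y i)‖ + ‖∏ i, jt M (-t) (y i)‖) := by
    apply intervalIntegral.integral_congr
    intro t _
    simp only [kernel_eq, hneg]
  rw [hfin]
  calc _ ≤ 3 * X := hint.trans (hgint.trans hsum)
    _ = _ := by rw [hX]; ring

end Pool.Agent.LE.QD.H46
end
end -- Pool.Agent.Helper46_LQD.BKT

section -- Pool.Agent.Helper88_LQF.FRB

/-!
# FRB: the free resolvent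
-/

set_option autoImplicit false

open MeasureTheory ProbabilityTheory Function Filter

open scoped ENNReal BigOperators Topology NNReal ComplexOrder Matrix

noncomputable section

namespace Pool.Agent.LE.QF.H88

open Pool.Agent.Anderson hiding box mem_box card_box
open Pool.Agent.Loc Pool.Agent.Mob Pool.Agent.Helper54.Bal
  Pool.Agent.Helper96.EXP Pool.Agent.BED
open Pool.Agent.LE.MN Pool.Agent.LE.CL Pool.Agent.LE.IR Pool.Agent.LE.QD

variable {d M : ℕ} [NeZero M]

theorem tail_le {a T : ℝ} (ha : 0 < a) (hT : 1 ≤ a ^ 2 * T) : Real.exp (-(a * T)) / a ≤ 1 := by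
  have hT0 : 0 < T := by
    by_contra hcon
    push Not at hcon
    nlinarith [sq_nonneg a]
  rw [div_le_one ha]
  have h3 : Real.exp (-(a * T)) * Real.exp (a * T) = 1 := by
    rw [← Real.exp_add, neg_add_cancel, Real.exp_zero]
  have h4 : a * T ≤ Real.exp (a * T) := by
    have := Real.add_one_le_exp (a * T)
    linarith
  have h5 : 0 < Real.exp (-(a * T)) := Real.exp_pos _
  have h6 : Real.exp (-(a * T)) * (a * T) ≤ 1 := by
    calc Real.exp (-(a * T)) * (a * T) ≤ Real.exp (-(a * T)) * Real.exp (a * T) := by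
          gcongr
      _ = 1 := h3
  have h7 : 0 < a * T := by positivity
  by_contra hcon
  push Not at hcon
  have h8 : a * (a * T) < Real.exp (-(a * T)) * (a * T) := by gcongr
  nlinarith only [hT, h6, h8]

theorem geo (K : ℕ) : ∑ k ∈ Finset.range K, (1 + (k : ℝ)) * (4 / 5 : ℝ) ^ k ≤ 25 := by
  have h : ∑ k ∈ Finset.range K, (1 + (k : ℝ)) * (4 / 5 : ℝ) ^ k =
      25 - (25 + 5 * K) * (4 / 5 : ℝ) ^ K := by
    induction K with
    | zero => norm_num
    | succ n ih =>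
      rw [Finset.sum_range_succ, ih, pow_succ]
      push_cast
      ring
  rw [h]
  have : (0 : ℝ) ≤ (25 + 5 * K) * (4 / 5 : ℝ) ^ K := by positivity
  linarith only [this]

/-- the kernel of `e^{-i t Δ}` -/
def kn (y : Tor d M) (t : ℝ) : ℂ :=
  (∑ p, ec p y * Complex.exp (-(Complex.I * ((t * es p : ℝ) : ℂ)))) / (M : ℂ) ^ d

theorem kn_cont (y : Tor d M) : Continuous (kn y) := by
  unfold kn
  exact Continuous.div_const (continuous_finsetSum _ fun p _ => by fun_prop) _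

theorem kp_cont (y : Tor d M) : Continuous fun t : ℝ =>
    (∑ p, ec p y * Complex.exp (Complex.I * ((t * es p : ℝ) : ℂ))) / (M : ℂ) ^ d :=
  Continuous.div_const (continuous_finsetSum _ fun p _ => by fun_prop) _

theorem card_tor : ((Fintype.card (Tor d M) : ℕ) : ℝ) = (M : ℝ) ^ d := by
  have h : Fintype.card (Tor d M) = M ^ d := by
    unfold Tor
    rw [Fintype.card_fun, ZMod.card, Fintype.card_fin]
  rw [h]
  push_cast
  rfl

theorem mean_le {F : Tor d M → ℂ} {B : ℝ} (h : ∀ p, ‖F p‖ ≤ B) :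
    ‖(∑ p, F p) / (M : ℂ) ^ d‖ ≤ B := by
  have hM : (0 : ℝ) < (M : ℝ) ^ d := by
    have : 0 < (M : ℝ) := by exact_mod_cast Nat.pos_of_ne_zero (NeZero.ne M)
    positivity
  rw [norm_div, norm_pow, Complex.norm_natCast, div_le_iff₀ hM]
  refine (norm_sum_le _ _).trans ((Finset.sum_le_sum fun p _ => h p).trans (le_of_eq ?_))
  rw [Finset.sum_const, Finset.card_univ, nsmul_eq_mul, card_tor, mul_comm]

theorem kn_le (y : Tor d M) (t : ℝ) : ‖kn y t‖ ≤ 1 := by
  unfold kn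
  apply mean_le
  intro p
  rw [norm_mul, Pool.Agent.LE.IR.H54.ec_norm, one_mul]
  have : -(Complex.I * ((t * es p : ℝ) : ℂ)) = ((-(t * es p) : ℝ) : ℂ) * Complex.I := by
    push_cast
    ring
  rw [this, Complex.norm_exp_ofReal_mul_I]

theorem es_sub_ne {z : ℂ} (hz : 0 < z.im) (e : ℝ) : (e : ℂ) - z ≠ 0 := by
  intro h
  have := congrArg Complex.im h
  simp at this
  linarith

theorem es_sub_norm {z : ℂ} (hz : 0 < z.im) (e : ℝ) : z.im ≤ ‖(e : ℂ) - z‖ := by
  have := Complex.abs_im_le_norm ((e : ℂ) - z)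
  simp at this
  rw [abs_of_pos hz] at this
  exact this

/-- the formula for the finite time -/
theorem one_div_eq {z : ℂ} (hz : 0 < z.im) (e T : ℝ) : 1 / ((e : ℂ) - z) =
    Complex.I * (∫ t in (0 : ℝ)..T, Complex.exp (Complex.I * z * t) *
      Complex.exp (-(Complex.I * ((t * e : ℝ) : ℂ)))) +
      Complex.exp (-(Complex.I * ((e : ℂ) - z) * T)) / ((e : ℂ) - z) := by
  have h0 := es_sub_ne hz e
  have hc : -(Complex.I * ((e : ℂ) - z)) ≠ 0 :=
    neg_ne_zero.2 (mul_ne_zero Complex.I_ne_zero h0)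
  have h1 : ∀ t : ℝ, Complex.exp (Complex.I * z * t) *
      Complex.exp (-(Complex.I * ((t * e : ℝ) : ℂ))) =
      Complex.exp (-(Complex.I * ((e : ℂ) - z)) * t) := by
    intro t
    rw [← Complex.exp_add]
    congr 1
    push_cast
    ring
  have h2 : (∫ t in (0 : ℝ)..T, Complex.exp (Complex.I * z * t) *
      Complex.exp (-(Complex.I * ((t * e : ℝ) : ℂ)))) =
      (Complex.exp (-(Complex.I * ((e : ℂ) - z)) * T) - 1) / (-(Complex.I * ((e : ℂ) - z))) := by
    rw [intervalIntegral.integral_congr fun t _ => h1 t, integral_exp_mul_complex hc]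
    simp
  rw [h2]
  have h3 : -(Complex.I * ((e : ℂ) - z) * T) = -(Complex.I * ((e : ℂ) - z)) * T := by ring
  rw [h3]
  set X := Complex.exp (-(Complex.I * ((e : ℂ) - z)) * T)
  have hI : Complex.I ≠ 0 := Complex.I_ne_zero
  field_simp
  ring

theorem pow_third (k : ℕ) : ((2 : ℝ) ^ k) ^ (-(1 / 3 : ℝ)) ≤ (4 / 5) ^ k := by
  have h5 : ((2 : ℝ) ^ k) ^ (-(1 / 3 : ℝ)) = ((2 : ℝ) ^ (-(1 / 3 : ℝ))) ^ k := by
    rw [← Real.rpow_natCast, ← Real.rpow_mul (by norm_num), mul_comm,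
      Real.rpow_mul (by norm_num), Real.rpow_natCast]
  rw [h5]
  have h6 : (2 : ℝ) ^ (-(1 / 3 : ℝ)) ≤ 4 / 5 := by
    have h7 : (2 : ℝ) ^ (-(1 / 3 : ℝ)) = (1 / 2 : ℝ) ^ (1 / 3 : ℝ) := by
      rw [Real.rpow_neg (by norm_num), ← Real.inv_rpow (by norm_num)]
      congr 1
      norm_num
    rw [h7]
    have h8 : ((4 / 5 : ℝ) ^ 3) ^ (1 / 3 : ℝ) = 4 / 5 := by
      rw [← Real.rpow_natCast, ← Real.rpow_mul (by norm_num)]
      norm_num
    rw [← h8]
    apply Real.rpow_le_rpow (by norm_num) (by norm_num) (by norm_num)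
  gcongr

/-- the integral of the kernel -/
theorem kn_int {Cb : ℝ} (hCb : 1 ≤ Cb) (y : Tor d M)
    (hb : ∀ (T : ℝ), 1 ≤ T → 2 * T ≤ M / 40 → ∫ t in T..2 * T,
        (‖(∑ p, ec p y * Complex.exp (Complex.I * ((t * es p : ℝ) : ℂ))) / (M : ℂ) ^ d‖ +
          ‖(∑ p, ec p y * Complex.exp (-(Complex.I * ((t * es p : ℝ) : ℂ)))) / (M : ℂ) ^ d‖) ≤
        Cb * T ^ (-(1 / 3 : ℝ)) * (1 + Real.log T))
    {K : ℕ} (hK : (2 : ℝ) ^ K ≤ M / 40) :
    ∫ t in (0 : ℝ)..2 ^ K, ‖kn y t‖ ≤ 1 + 25 * Cb := by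
  have hc : Continuous fun t => ‖kn y t‖ := (kn_cont y).norm
  have h4 : ∫ t in (0 : ℝ)..2 ^ K, ‖kn y t‖ = (∫ t in (0 : ℝ)..1, ‖kn y t‖) +
      ∑ k ∈ Finset.range K, ∫ t in (2 : ℝ) ^ k..(2 : ℝ) ^ (k + 1), ‖kn y t‖ := by
    rw [intervalIntegral.sum_integral_adjacent_intervals
      (fun k _ => hc.intervalIntegrable _ _)]
    rw [pow_zero, intervalIntegral.integral_add_adjacent_intervals
      (hc.intervalIntegrable _ _) (hc.intervalIntegrable _ _)]
  rw [h4]
  refine add_le_add ?_ ?_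
  · have h5 : ∫ t in (0 : ℝ)..1, ‖kn y t‖ ≤ ∫ t in (0 : ℝ)..1, (1 : ℝ) :=
      intervalIntegral.integral_mono_on (by norm_num) (hc.intervalIntegrable _ _)
        (by simp) fun t _ => kn_le y t
    simpa using h5
  · have h5 : ∀ k ∈ Finset.range K, ∫ t in (2 : ℝ) ^ k..(2 : ℝ) ^ (k + 1), ‖kn y t‖ ≤
        Cb * ((1 + (k : ℝ)) * (4 / 5) ^ k) := by
      intro k hk
      rw [Finset.mem_range] at hk
      have hk1 : (1 : ℝ) ≤ 2 ^ k := one_le_pow₀ (by norm_num)
      have hk2 : (2 : ℝ) * 2 ^ k ≤ M / 40 := by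
        refine le_trans ?_ hK
        rw [← pow_succ']
        exact pow_le_pow_right₀ (by norm_num) hk
      have h6 := hb _ hk1 hk2
      have h7 : (2 : ℝ) ^ (k + 1) = 2 * 2 ^ k := pow_succ' _ _
      rw [h7]
      have h8 : ∫ t in (2 : ℝ) ^ k..2 * 2 ^ k, ‖kn y t‖ ≤ ∫ t in (2 : ℝ) ^ k..2 * 2 ^ k,
        (‖(∑ p, ec p y * Complex.exp (Complex.I * ((t * es p : ℝ) : ℂ))) / (M : ℂ) ^ d‖ +
          ‖(∑ p, ec p y * Complex.exp (-(Complex.I * ((t * es p : ℝ) : ℂ)))) /
            (M : ℂ) ^ d‖) := by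
        refine intervalIntegral.integral_mono_on (by linarith only [hk1]) (hc.intervalIntegrable _ _)
          (((kp_cont y).norm.add hc).intervalIntegrable _ _) fun t _ => ?_
        exact le_add_of_nonneg_left (norm_nonneg _)
      refine h8.trans (h6.trans ?_)
      have h9 : Real.log ((2 : ℝ) ^ k) ≤ k := by
        rw [Real.log_pow]
        have : Real.log 2 ≤ 1 := by
          have := Real.log_two_lt_d9
          linarith only [this]
        have hk0 : (0 : ℝ) ≤ k := Nat.cast_nonneg k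
        nlinarith only [this]
      have h10 : 0 ≤ Real.log ((2 : ℝ) ^ k) := Real.log_nonneg hk1
      have h11 := pow_third k
      calc Cb * ((2 : ℝ) ^ k) ^ (-(1 / 3 : ℝ)) * (1 + Real.log (2 ^ k)) ≤
          Cb * (4 / 5) ^ k * (1 + k) := by gcongr
        _ = _ := by ring
    refine (Finset.sum_le_sum h5).trans ?_
    rw [← Finset.mul_sum, mul_comm]
    have := geo K
    gcongr

theorem frb (bkt : QD.BktStmt) (sob : QD.SobStmt) (dsu : QD.DsuStmt) (ral : QD.RalStmt) :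
    FrbStmt := by
  intro d hd
  obtain ⟨Cb, hCb, hb⟩ := bkt d hd
  obtain ⟨Cs, hCs, hs⟩ := sob d hd
  obtain ⟨Cd, hCd, hdd⟩ := dsu d hd
  have hCC : 1 ≤ Cs * Cd := one_le_mul_of_one_le_of_one_le hCs hCd
  refine ⟨80 + 25 * Cb + (Cs * Cd) ^ 2, by nlinarith only [hCb], fun M _ z hz hz1 hM x => ?_⟩
  obtain ⟨-, hsymm, -, -, -, -, -, -, -, -, hfree, -⟩ := ral d M (0 : Tor d M → ℝ) z hz
  set w : ℝ := z.im with hw
  set C : ℝ := 80 + 25 * Cb + (Cs * Cd) ^ 2 with hC
  have hw2 : 0 < w ^ 2 := by positivity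
  have hC80 : 80 ≤ C := by
    rw [hC]
    nlinarith only [hCb]
  have hMw : C ≤ M * w ^ 2 := by rwa [div_le_iff₀ hw2] at hM
  have hwsq : w ^ 2 ≤ 1 := pow_le_one₀ hz.le hz1
  have hM0 : (0 : ℝ) ≤ M := Nat.cast_nonneg M
  have hM1 : (80 : ℝ) ≤ M := by nlinarith
  refine ⟨fun y => ?_, ?_⟩
  · obtain ⟨K, hK1, hK2⟩ := exists_nat_pow_near (x := (M : ℝ) / 40) (y := 2) (by linarith only [hM1])
      (by norm_num)
    have h1 := kn_int hCb (x - y) (fun T => hb M T (x - y)) hK1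
    set T₀ : ℝ := 2 ^ K with hT₀
    have hT1 : 0 ≤ T₀ := by positivity
    have h2 : Real.exp (-(w * T₀)) / w ≤ 1 := by
      apply tail_le hz
      have h5 : (M : ℝ) / 80 ≤ T₀ := by
        rw [pow_succ] at hK2
        linarith only [hK2]
      calc (1 : ℝ) ≤ w ^ 2 * (M / 80) := by linarith only [hC80, hMw]
        _ ≤ w ^ 2 * T₀ := by gcongr
    have h3 : rs (0 : Tor d M → ℝ) z x y =
        Complex.I * (∫ t in (0 : ℝ)..T₀, Complex.exp (Complex.I * z * t) * kn (x - y) t) +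
        (∑ p, ec p (x - y) * (Complex.exp (-(Complex.I * ((es p : ℂ) - z) * T₀)) /
          ((es p : ℂ) - z))) / (M : ℂ) ^ d := by
      rw [hfree x y]
      have h4 : (∫ t in (0 : ℝ)..T₀, Complex.exp (Complex.I * z * t) * kn (x - y) t) =
          (∑ p, ec p (x - y) * ∫ t in (0 : ℝ)..T₀, Complex.exp (Complex.I * z * t) *
            Complex.exp (-(Complex.I * ((t * es p : ℝ) : ℂ)))) / (M : ℂ) ^ d := by
        have h5 : ∀ p : Tor d M, (ec p (x - y) * ∫ t in (0 : ℝ)..T₀,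
            Complex.exp (Complex.I * z * t) *
            Complex.exp (-(Complex.I * ((t * es p : ℝ) : ℂ)))) =
            ∫ t in (0 : ℝ)..T₀, ec p (x - y) * (Complex.exp (Complex.I * z * t) *
            Complex.exp (-(Complex.I * ((t * es p : ℝ) : ℂ)))) :=
          fun p => (intervalIntegral.integral_const_mul _ _).symm
        rw [Finset.sum_congr rfl fun p _ => h5 p, ← intervalIntegral.integral_finsetSum,
          ← intervalIntegral.integral_div]
        · refine intervalIntegral.integral_congr fun t _ => ?_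
          simp only [kn]
          rw [← mul_div_assoc, Finset.mul_sum]
          congr 1
          exact Finset.sum_congr rfl fun p _ => by ring
        · intro p _
          exact Continuous.intervalIntegrable (by fun_prop) _ _
      rw [h4, ← mul_div_assoc, ← add_div, Finset.mul_sum, ← Finset.sum_add_distrib]
      congr 1
      refine Finset.sum_congr rfl fun p _ => ?_
      have h5 := one_div_eq hz (es p) T₀
      rw [div_eq_mul_one_div, h5]
      ring
    rw [h3]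
    have h4 : ‖Complex.I * (∫ t in (0 : ℝ)..T₀, Complex.exp (Complex.I * z * t) *
        kn (x - y) t)‖ ≤ 1 + 25 * Cb := by
      rw [norm_mul, Complex.norm_I, one_mul]
      refine le_trans ?_ h1
      apply intervalIntegral.norm_integral_le_of_norm_le hT1
      · refine Filter.Eventually.of_forall fun t ht => ?_
        rw [norm_mul]
        have h6 : ‖Complex.exp (Complex.I * z * t)‖ ≤ 1 := by
          rw [Complex.norm_exp]
          rw [Real.exp_le_one_iff]
          have h7 : (Complex.I * z * t).re = -(z.im * t) := by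
            simp
          rw [h7]
          have := ht.1
          have : 0 ≤ z.im * t := mul_nonneg hz.le this.le
          linarith only [this]
        calc ‖Complex.exp (Complex.I * z * t)‖ * ‖kn (x - y) t‖ ≤ 1 * ‖kn (x - y) t‖ := by
              gcongr
          _ = _ := one_mul _
      · exact (kn_cont _).norm.intervalIntegrable _ _
    have h5 : ‖(∑ p, ec p (x - y) * (Complex.exp (-(Complex.I * ((es p : ℂ) - z) * T₀)) /
          ((es p : ℂ) - z))) / (M : ℂ) ^ d‖ ≤ 1 := by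
      apply mean_le
      intro p
      rw [norm_mul, Pool.Agent.LE.IR.H54.ec_norm, one_mul, norm_div]
      refine le_trans ?_ h2
      have h6 : ‖Complex.exp (-(Complex.I * ((es p : ℂ) - z) * T₀))‖ =
          Real.exp (-(w * T₀)) := by
        rw [Complex.norm_exp]
        congr 1
        simp [hw]
      rw [h6]
      have h7 := es_sub_norm hz (es p)
      gcongr
    refine (norm_add_le _ _).trans ((add_le_add h4 h5).trans ?_)
    rw [hC]
    nlinarith only
  · -- the Sobolev inequality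
    have hCs2 : Cs ≤ C := by
      rw [hC]
      nlinarith only [hCb, hCs, hCd, hCC]
    have hCd2 : Cd ≤ C := by
      rw [hC]
      nlinarith only [hCb, hCs, hCd, hCC]
    have h1 := hs M z.re w hz hz1 ((div_le_div_of_nonneg_right hCs2 hw2.le).trans hM)
    have hCdM : Cd / w ≤ M := by
      refine le_trans ?_ hM
      have : Cd / w ≤ C / w := div_le_div_of_nonneg_right hCd2 hz.le
      refine this.trans ?_
      apply div_le_div_of_nonneg_left (by linarith only [hC80]) hw2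
      nlinarith only [hz, hz1]
    obtain ⟨-, h2⟩ := hdd M z.re w hz hz1 hCdM
    -- the function
    set f : Tor d M → ℂ := fun y => rs (0 : Tor d M → ℝ) z x y with hf
    have hft : ∀ p, ft f p = (starRingEnd ℂ) (ec p x) / ((es p : ℂ) - z) := by
      obtain ⟨g, hg⟩ := Pool.Agent.LE.IR.H54.surj
        (fun p : Tor d M => (starRingEnd ℂ) (ec p x) / ((es p : ℂ) - z))
      have hgf : g = f := by
        funext y
        rw [Pool.Agent.LE.IR.H54.inversion g y, hf]
        simp only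
        rw [hsymm x y, hfree y x]
        congr 1
        refine Finset.sum_congr rfl fun p _ => ?_
        rw [hg p, Pool.Agent.LE.IR.H54.ec_sub]
        ring
      rw [← hgf]
      exact hg
    have hmt : ∀ p : Tor d M, ‖(es p : ℂ) - z‖ = Real.sqrt ((es p - z.re) ^ 2 + w ^ 2) := by
      intro p
      rw [Complex.norm_def, Complex.normSq_apply]
      congr 1
      simp only [Complex.sub_re, Complex.ofReal_re, Complex.sub_im, Complex.ofReal_im]
      rw [hw]
      ring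
    have hqn : qn z.re w f =
        pm (fun p : Tor d M => (Real.sqrt ((es p - z.re) ^ 2 + w ^ 2))⁻¹) := by
      unfold qn pm
      congr 1
      refine Finset.sum_congr rfl fun p _ => ?_
      beta_reduce
      rw [hft p, norm_div, RCLike.norm_conj, Pool.Agent.LE.IR.H54.ec_norm, hmt p]
      have h3 : mt (2 * d - z.re) w p = Real.sqrt ((es p - z.re) ^ 2 + w ^ 2) := by
        unfold Pool.Agent.LE.IR.mt es
        congr 1
        ring
      rw [h3]
      have h4 : 0 < Real.sqrt ((es p - z.re) ^ 2 + w ^ 2) := Real.sqrt_pos.2 (by positivity)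
      field_simp
    have h3 := h1 f
    rw [hqn] at h3
    have hlogM : 0 ≤ Real.log M := Real.log_nonneg (by linarith only [hM1])
    have hlogw : Real.log (1 / w) ≤ Real.log M := by
      apply Real.log_le_log (by positivity)
      rw [div_le_iff₀ hz]
      nlinarith
    have hlogw0 : 0 ≤ Real.log (1 / w) := by
      apply Real.log_nonneg
      rw [le_div_iff₀ hz]
      linarith only [hz1]
    have h4 : n4 f ≤ Cs * Cd * w ^ (-(1 / 3 : ℝ)) * (1 + Real.log M) ^ 3 := by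
      calc n4 f ≤ Cs * w ^ (-(1 / 3 : ℝ)) * (1 + Real.log M) ^ 2 *
            (Cd * (1 + Real.log (1 / w))) := h3.trans (by gcongr)
        _ ≤ Cs * w ^ (-(1 / 3 : ℝ)) * (1 + Real.log M) ^ 2 *
            (Cd * (1 + Real.log M)) := by gcongr
        _ = _ := by ring
    have h5 : (0 : ℝ) ≤ ∑ y, ‖f y‖ ^ 4 := Finset.sum_nonneg fun y _ => by positivity
    have h6 : ∑ y, ‖f y‖ ^ 4 ≤ (Cs * Cd * w ^ (-(1 / 3 : ℝ)) * (1 + Real.log M) ^ 3) ^ 2 := by
      have h7 : (n4 f) ^ 2 = ∑ y, ‖f y‖ ^ 4 := Real.sq_sqrt h5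
      rw [← h7]
      have h8 : 0 ≤ n4 f := Real.sqrt_nonneg _
      gcongr
    refine h6.trans ?_
    have h7 : (w ^ (-(1 / 3 : ℝ))) ^ 2 = w ^ (-(2 / 3 : ℝ)) := by
      rw [← Real.rpow_natCast, ← Real.rpow_mul hz.le]
      norm_num
    calc (Cs * Cd * w ^ (-(1 / 3 : ℝ)) * (1 + Real.log M) ^ 3) ^ 2 =
        (Cs * Cd) ^ 2 * (w ^ (-(1 / 3 : ℝ))) ^ 2 * (1 + Real.log M) ^ 6 := by ring
      _ = (Cs * Cd) ^ 2 * w ^ (-(2 / 3 : ℝ)) * (1 + Real.log M) ^ 6 := by rw [h7]
      _ ≤ C * w ^ (-(2 / 3 : ℝ)) * (1 + Real.log M) ^ 6 := by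
        have h8 : (Cs * Cd) ^ 2 ≤ C := by
          rw [hC]
          linarith only [hCb]
        gcongr

end Pool.Agent.LE.QF.H88
end
end -- Pool.Agent.Helper88_LQF.FRB

section -- Pool.Agent.Helper21_ANI.PRD

/-!
# Row ani:PRD, decay of the free resolvent
-/

set_option autoImplicit false

open MeasureTheory ProbabilityTheory Function Filter

open scoped ENNReal BigOperators Topology NNReal ComplexOrder Matrix

noncomputable section

namespace Pool.Agent.ANI.H21

open Pool.Agent.Anderson hiding box mem_box card_box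
open Pool.Agent.Loc Pool.Agent.Mob Pool.Agent.Helper54.Bal
  Pool.Agent.Helper96.EXP Pool.Agent.BED
open Pool.Agent.LE Pool.Agent.LE.MN Pool.Agent.LE.CL Pool.Agent.LE.IR Pool.Agent.LE.QD
  Pool.Agent.LE.QF
open Pool.Agent.LE.QF.H88 (kn kn_cont kp_cont kn_le mean_le es_sub_norm one_div_eq)

variable {d M : ℕ} [NeZero M]

/-- the resolvent as an integral up to the time `T₀` -/
theorem rs_eq (ral : QD.RalStmt) {z : ℂ} (hz : 0 < z.im) (x y : Tor d M) (T₀ : ℝ) :
    rs (0 : Tor d M → ℝ) z x y =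
      Complex.I * (∫ t in (0 : ℝ)..T₀, Complex.exp (Complex.I * z * t) * kn (x - y) t) +
      (∑ p, ec p (x - y) * (Complex.exp (-(Complex.I * ((es p : ℂ) - z) * T₀)) /
        ((es p : ℂ) - z))) / (M : ℂ) ^ d := by
  obtain ⟨-, -, -, -, -, -, -, -, -, -, hfree, -⟩ := ral d M (0 : Tor d M → ℝ) z hz
  rw [hfree x y]
  have h4 : (∫ t in (0 : ℝ)..T₀, Complex.exp (Complex.I * z * t) * kn (x - y) t) =
      (∑ p, ec p (x - y) * ∫ t in (0 : ℝ)..T₀, Complex.exp (Complex.I * z * t) *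
        Complex.exp (-(Complex.I * ((t * es p : ℝ) : ℂ)))) / (M : ℂ) ^ d := by
    have h5 : ∀ p : Tor d M, (ec p (x - y) * ∫ t in (0 : ℝ)..T₀,
        Complex.exp (Complex.I * z * t) *
        Complex.exp (-(Complex.I * ((t * es p : ℝ) : ℂ)))) =
        ∫ t in (0 : ℝ)..T₀, ec p (x - y) * (Complex.exp (Complex.I * z * t) *
        Complex.exp (-(Complex.I * ((t * es p : ℝ) : ℂ)))) :=
      fun p => (intervalIntegral.integral_const_mul _ _).symm
    rw [Finset.sum_congr rfl fun p _ => h5 p, ← intervalIntegral.integral_finsetSum,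
      ← intervalIntegral.integral_div]
    · refine intervalIntegral.integral_congr fun t _ => ?_
      simp only [kn]
      rw [← mul_div_assoc, Finset.mul_sum]
      congr 1
      exact Finset.sum_congr rfl fun p _ => by ring
    · intro p _
      exact Continuous.intervalIntegrable (by fun_prop) _ _
  rw [h4, ← mul_div_assoc, ← add_div, Finset.mul_sum, ← Finset.sum_add_distrib]
  congr 1
  refine Finset.sum_congr rfl fun p _ => ?_
  have h5 := one_div_eq hz (es p) T₀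
  rw [div_eq_mul_one_div, h5]
  ring

theorem rs_le (ral : QD.RalStmt) {z : ℂ} (hz : 0 < z.im) (x y : Tor d M) {T₀ : ℝ}
    (hT : 0 ≤ T₀) : ‖rs (0 : Tor d M → ℝ) z x y‖ ≤
      (∫ t in (0 : ℝ)..T₀, ‖kn (x - y) t‖) + Real.exp (-(z.im * T₀)) / z.im := by
  rw [rs_eq ral hz x y T₀]
  have h4 : ‖Complex.I * (∫ t in (0 : ℝ)..T₀, Complex.exp (Complex.I * z * t) *
      kn (x - y) t)‖ ≤ ∫ t in (0 : ℝ)..T₀, ‖kn (x - y) t‖ := by
    rw [norm_mul, Complex.norm_I, one_mul]
    apply intervalIntegral.norm_integral_le_of_norm_le hT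
    · refine Filter.Eventually.of_forall fun t ht => ?_
      rw [norm_mul]
      have h6 : ‖Complex.exp (Complex.I * z * t)‖ ≤ 1 := by
        rw [Complex.norm_exp]
        rw [Real.exp_le_one_iff]
        have h7 : (Complex.I * z * t).re = -(z.im * t) := by
          simp
        rw [h7]
        have := ht.1
        have : 0 ≤ z.im * t := mul_nonneg hz.le this.le
        linarith
      calc ‖Complex.exp (Complex.I * z * t)‖ * ‖kn (x - y) t‖ ≤ 1 * ‖kn (x - y) t‖ := by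
            gcongr
        _ = _ := one_mul _
    · exact (kn_cont _).norm.intervalIntegrable _ _
  have h5 : ‖(∑ p, ec p (x - y) * (Complex.exp (-(Complex.I * ((es p : ℂ) - z) * T₀)) /
        ((es p : ℂ) - z))) / (M : ℂ) ^ d‖ ≤ Real.exp (-(z.im * T₀)) / z.im := by
    apply mean_le
    intro p
    rw [norm_mul, Pool.Agent.LE.IR.H54.ec_norm, one_mul, norm_div]
    have h6 : ‖Complex.exp (-(Complex.I * ((es p : ℂ) - z) * T₀))‖ =
        Real.exp (-(z.im * T₀)) := by
      rw [Complex.norm_exp]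
      congr 1
      simp
    rw [h6]
    have h7 := es_sub_norm hz (es p)
    gcongr
  exact (norm_add_le _ _).trans (add_le_add h4 h5)

/-- the kernel for small times -/
theorem kn_small (smt : SmtStmt) (y : Tor d M) (i : Fin d) {t : ℝ} (ht0 : 0 ≤ t)
    (ht : 12 * t ≤ ((y i).valMinAbs.natAbs : ℝ)) :
    ‖kn y t‖ ≤ 2 * (1 / 2) ^ (y i).valMinAbs.natAbs := by
  have h1 : kn y t = ∏ j, jt M (-t) (y j) := by
    rw [← Pool.Agent.LE.QD.H46.kernel_eq]
    unfold kn
    congr 1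
    refine Finset.sum_congr rfl fun p _ => ?_
    congr 2
    push_cast
    ring
  rw [h1, norm_prod, ← Finset.mul_prod_erase _ _ (Finset.mem_univ i)]
  have h2 : ∏ j ∈ Finset.univ.erase i, ‖jt M (-t) (y j)‖ ≤ 1 :=
    Finset.prod_le_one (fun j _ => norm_nonneg _)
      (fun j _ => Pool.Agent.LE.QD.H46.norm_jt_le M (-t) (y j))
  have h3 := smt M (-t) (y i) (by rw [abs_neg, abs_of_nonneg ht0]; exact ht)
  calc ‖jt M (-t) (y i)‖ * ∏ j ∈ Finset.univ.erase i, ‖jt M (-t) (y j)‖ ≤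
      ‖jt M (-t) (y i)‖ * 1 := by gcongr
    _ ≤ _ := by rw [mul_one]; exact h3

theorem pow_sixth (k : ℕ) : ((2 : ℝ) ^ k) ^ (-(1 / 6 : ℝ)) ≤ (9 / 10) ^ k := by
  have h5 : ((2 : ℝ) ^ k) ^ (-(1 / 6 : ℝ)) = ((2 : ℝ) ^ (-(1 / 6 : ℝ))) ^ k := by
    rw [← Real.rpow_natCast, ← Real.rpow_mul (by norm_num), mul_comm,
      Real.rpow_mul (by norm_num), Real.rpow_natCast]
  rw [h5]
  have h6 : (2 : ℝ) ^ (-(1 / 6 : ℝ)) ≤ 9 / 10 := by
    have h7 : (2 : ℝ) ^ (-(1 / 6 : ℝ)) = (1 / 2 : ℝ) ^ (1 / 6 : ℝ) := by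
      rw [Real.rpow_neg (by norm_num), ← Real.inv_rpow (by norm_num)]
      congr 1
      norm_num
    rw [h7]
    have h8 : ((9 / 10 : ℝ) ^ 6) ^ (1 / 6 : ℝ) = 9 / 10 := by
      rw [← Real.rpow_natCast, ← Real.rpow_mul (by norm_num)]
      norm_num
    rw [← h8]
    apply Real.rpow_le_rpow (by norm_num) (by norm_num) (by norm_num)
  gcongr

theorem geo10 (J : ℕ) : ∑ j ∈ Finset.range J, (9 / 10 : ℝ) ^ j ≤ 10 := by
  have h : ∑ j ∈ Finset.range J, (9 / 10 : ℝ) ^ j = 10 - 10 * (9 / 10 : ℝ) ^ J := by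
    induction J with
    | zero => norm_num
    | succ n ih =>
      rw [Finset.sum_range_succ, ih, pow_succ]
      ring
  rw [h]
  have : (0 : ℝ) ≤ 10 * (9 / 10 : ℝ) ^ J := by positivity
  linarith only [this]

theorem blk {Cb : ℝ} (hCb : 1 ≤ Cb) (y : Tor d M)
    (hb : ∀ (T : ℝ), 1 ≤ T → 2 * T ≤ M / 40 → ∫ t in T..2 * T,
        (‖(∑ p, ec p y * Complex.exp (Complex.I * ((t * es p : ℝ) : ℂ))) / (M : ℂ) ^ d‖ +
          ‖(∑ p, ec p y * Complex.exp (-(Complex.I * ((t * es p : ℝ) : ℂ)))) / (M : ℂ) ^ d‖) ≤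
        Cb * T ^ (-(1 / 3 : ℝ)) * (1 + Real.log T)) {T : ℝ} (hT : 1 ≤ T) (hT2 : 2 * T ≤ M / 40) :
    ∫ t in T..2 * T, ‖kn y t‖ ≤ 7 * Cb * T ^ (-(1 / 6 : ℝ)) := by
  have hc : Continuous fun t => ‖kn y t‖ := (kn_cont y).norm
  have hT0 : 0 < T := by linarith only [hT]
  have h8 : ∫ t in T..2 * T, ‖kn y t‖ ≤ ∫ t in T..2 * T,
      (‖(∑ p, ec p y * Complex.exp (Complex.I * ((t * es p : ℝ) : ℂ))) / (M : ℂ) ^ d‖ +
        ‖(∑ p, ec p y * Complex.exp (-(Complex.I * ((t * es p : ℝ) : ℂ)))) /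
          (M : ℂ) ^ d‖) := by
    refine intervalIntegral.integral_mono_on (by linarith) (hc.intervalIntegrable _ _)
      (((kp_cont y).norm.add hc).intervalIntegrable _ _) fun t _ => ?_
    exact le_add_of_nonneg_left (norm_nonneg _)
  refine h8.trans ((hb T hT hT2).trans ?_)
  have h9 : 1 + Real.log T ≤ 7 * T ^ (1 / 6 : ℝ) := by
    have h10 := Real.log_le_rpow_div hT0.le (ε := 1 / 6) (by norm_num)
    have h11 : (1 : ℝ) ≤ T ^ (1 / 6 : ℝ) := Real.one_le_rpow hT (by norm_num)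
    have h12 : T ^ (1 / 6 : ℝ) / (1 / 6) = 6 * T ^ (1 / 6 : ℝ) := by ring
    rw [h12] at h10
    linarith only [h10, h11]
  calc Cb * T ^ (-(1 / 3 : ℝ)) * (1 + Real.log T) ≤
      Cb * T ^ (-(1 / 3 : ℝ)) * (7 * T ^ (1 / 6 : ℝ)) := by gcongr
    _ = 7 * Cb * (T ^ (-(1 / 3 : ℝ)) * T ^ (1 / 6 : ℝ)) := by ring
    _ = 7 * Cb * T ^ (-(1 / 6 : ℝ)) := by
      rw [← Real.rpow_add hT0]
      norm_num

theorem blks {Cb : ℝ} (hCb : 1 ≤ Cb) (y : Tor d M)
    (hb : ∀ (T : ℝ), 1 ≤ T → 2 * T ≤ M / 40 → ∫ t in T..2 * T,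
        (‖(∑ p, ec p y * Complex.exp (Complex.I * ((t * es p : ℝ) : ℂ))) / (M : ℂ) ^ d‖ +
          ‖(∑ p, ec p y * Complex.exp (-(Complex.I * ((t * es p : ℝ) : ℂ)))) / (M : ℂ) ^ d‖) ≤
        Cb * T ^ (-(1 / 3 : ℝ)) * (1 + Real.log T)) {A : ℝ} (hA : 1 ≤ A) {J : ℕ}
    (hJ : A * 2 ^ J ≤ M / 40) :
    ∫ t in A..A * 2 ^ J, ‖kn y t‖ ≤ 70 * Cb * A ^ (-(1 / 6 : ℝ)) := by
  have hc : Continuous fun t => ‖kn y t‖ := (kn_cont y).norm
  have hA0 : 0 < A := by linarith only [hA]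
  have h4 : ∫ t in A..A * 2 ^ J, ‖kn y t‖ =
      ∑ k ∈ Finset.range J, ∫ t in A * (2 : ℝ) ^ k..A * (2 : ℝ) ^ (k + 1), ‖kn y t‖ := by
    rw [intervalIntegral.sum_integral_adjacent_intervals (a := fun k => A * (2 : ℝ) ^ k)
      (fun k _ => hc.intervalIntegrable _ _)]
    rw [pow_zero, mul_one]
  rw [h4]
  have h5 : ∀ k ∈ Finset.range J, ∫ t in A * (2 : ℝ) ^ k..A * (2 : ℝ) ^ (k + 1), ‖kn y t‖ ≤
      7 * Cb * A ^ (-(1 / 6 : ℝ)) * (9 / 10) ^ k := by
    intro k hk
    rw [Finset.mem_range] at hk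
    have hk1 : (1 : ℝ) ≤ 2 ^ k := one_le_pow₀ (by norm_num)
    have h7 : A * (2 : ℝ) ^ (k + 1) = 2 * (A * 2 ^ k) := by
      rw [pow_succ]
      ring
    have hk2 : (2 : ℝ) * (A * 2 ^ k) ≤ M / 40 := by
      rw [← h7]
      refine le_trans ?_ hJ
      have : (2 : ℝ) ^ (k + 1) ≤ 2 ^ J := pow_le_pow_right₀ (by norm_num) hk
      gcongr
    have h6 := blk hCb y hb (one_le_mul_of_one_le_of_one_le hA hk1) hk2
    rw [h7]
    refine h6.trans ?_
    rw [Real.mul_rpow hA0.le (by positivity)]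
    have h8 := pow_sixth k
    have h9 : 0 ≤ A ^ (-(1 / 6 : ℝ)) := by positivity
    calc 7 * Cb * (A ^ (-(1 / 6 : ℝ)) * ((2 : ℝ) ^ k) ^ (-(1 / 6 : ℝ))) ≤
        7 * Cb * (A ^ (-(1 / 6 : ℝ)) * (9 / 10) ^ k) := by gcongr
      _ = _ := by ring
  refine (Finset.sum_le_sum h5).trans ?_
  rw [← Finset.mul_sum]
  have h6 := geo10 J
  have h9 : 0 ≤ 7 * Cb * A ^ (-(1 / 6 : ℝ)) := by positivity
  calc 7 * Cb * A ^ (-(1 / 6 : ℝ)) * ∑ j ∈ Finset.range J, (9 / 10 : ℝ) ^ j ≤
      7 * Cb * A ^ (-(1 / 6 : ℝ)) * 10 := by gcongr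
    _ = _ := by ring

theorem tail3 {w m T : ℝ} (hw : 0 < w) (hm : 0 < m) (h : 1 ≤ w ^ 2 * m) (hT : m / 80 ≤ T) :
    Real.exp (-(w * T)) / w ≤ 3072000 / m := by
  have h1 : Real.exp (-(w * T)) ≤ Real.exp (-(w * (m / 80))) := by
    apply Real.exp_le_exp.2
    have : w * (m / 80) ≤ w * T := by gcongr
    linarith only [this]
  have hx : 0 < w * (m / 80) := by positivity
  have h2 := Real.pow_div_factorial_le_exp (w * (m / 80)) hx.le 3
  have h3 : (Nat.factorial 3 : ℝ) = 6 := by norm_num [Nat.factorial]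
  rw [h3] at h2
  have h4 : Real.exp (-(w * (m / 80))) ≤ 6 / (w * (m / 80)) ^ 3 := by
    rw [Real.exp_neg, inv_eq_one_div, div_le_div_iff₀ (Real.exp_pos _) (by positivity)]
    have h5 : (w * (m / 80)) ^ 3 ≤ 6 * Real.exp (w * (m / 80)) := by linarith only [h2]
    linarith only [h2]
  have h5 : Real.exp (-(w * T)) / w ≤ 6 / (w * (m / 80)) ^ 3 / w := by
    have := h1.trans h4
    gcongr
  refine h5.trans ?_
  rw [div_div, div_le_div_iff₀ (by positivity) hm]
  have h6 : (1 : ℝ) ≤ (w ^ 2 * m) ^ 2 := one_le_pow₀ h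
  have h7 : 3072000 * ((w * (m / 80)) ^ 3 * w) = 6 * ((w ^ 2 * m) ^ 2 * m) := by ring
  rw [h7]
  have h8 : m ≤ (w ^ 2 * m) ^ 2 * m := by nlinarith only [hm, h6]
  linarith only [h8]

theorem two_pow_ge (k : ℕ) : k * (k + 1) ≤ 6 * 2 ^ k := by
  induction k with
  | zero => norm_num
  | succ n ih =>
    have h1 : n + 1 ≤ 2 ^ n := Nat.lt_two_pow_self
    rw [pow_succ]
    nlinarith

/-- PRD -/
theorem prd (smt : SmtStmt) (bkt : QD.BktStmt) (ral : QD.RalStmt) (frb : QF.FrbStmt) :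
    PrdStmt := by
  intro d hd
  obtain ⟨Cb, hCb, hb⟩ := bkt d hd
  obtain ⟨Cf, hCf, hf⟩ := frb d hd
  refine ⟨2 * Cf + 140 * Cb + 3072001, by linarith only [hCb, hCf], fun M _ z hz hz1 hM x y i => ?_⟩
  set C : ℝ := 2 * Cf + 140 * Cb + 3072001 with hC
  set k : ℕ := ((x - y) i).valMinAbs.natAbs with hk
  have hw2 : 0 < z.im ^ 2 := by positivity
  have hMf : Cf / z.im ^ 2 ≤ M := by
    refine le_trans ?_ hM
    apply div_le_div_of_nonneg_right _ hw2.le
    linarith only [hCb, hCf]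
  have hMw : 1 ≤ z.im ^ 2 * M := by
    rw [div_le_iff₀ hw2] at hM
    have : (1 : ℝ) ≤ C := by linarith only [hCb, hCf]
    linarith only [hCb, hCf, hM]
  have hM0 : (0 : ℝ) < M := by exact_mod_cast Nat.pos_of_ne_zero (NeZero.ne M)
  have hk1 : (0 : ℝ) < 1 + (k : ℝ) := by positivity
  have hu0 : 0 < (1 + (k : ℝ)) ^ (-(1 / 6 : ℝ)) := by positivity
  rcases lt_or_ge k 24 with hlt | hge
  · -- small distances
    have h1 := (hf M z hz hz1 hMf x).1 y
    have h2 : (1 : ℝ) ≤ 2 * (1 + (k : ℝ)) ^ (-(1 / 6 : ℝ)) := by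
      have h3 : (1 + (k : ℝ)) ≤ 2 ^ 6 := by
        have : (k : ℝ) ≤ 24 := by exact_mod_cast hlt.le
        linarith only [this]
      have h4 : (1 + (k : ℝ)) ^ (1 / 6 : ℝ) ≤ 2 := by
        have h5 : ((2 : ℝ) ^ 6) ^ (1 / 6 : ℝ) = 2 := by
          rw [← Real.rpow_natCast, ← Real.rpow_mul (by norm_num)]
          norm_num
        rw [← h5]
        exact Real.rpow_le_rpow hk1.le h3 (by norm_num)
      rw [Real.rpow_neg hk1.le, ← div_eq_mul_inv, le_div_iff₀ (by positivity), one_mul]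
      exact h4
    calc ‖rs (0 : Tor d M → ℝ) z x y‖ ≤ Cf * 1 := by rw [mul_one]; exact h1
      _ ≤ Cf * (2 * (1 + (k : ℝ)) ^ (-(1 / 6 : ℝ))) := by gcongr
      _ = 2 * Cf * (1 + (k : ℝ)) ^ (-(1 / 6 : ℝ)) := by ring
      _ ≤ _ := by
        apply mul_le_mul_of_nonneg_right _ hu0.le
        linarith only [hCb]
  · -- large distances
    have hkr : (24 : ℝ) ≤ k := by exact_mod_cast hge
    have hkM : (k : ℝ) ≤ M / 2 := by
      have h1 : k ≤ M / 2 := ZMod.natAbs_valMinAbs_le _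
      have h2 : k * 2 ≤ M := by omega
      have h3 : (k : ℝ) * 2 ≤ M := by exact_mod_cast h2
      linarith only [h3]
    obtain ⟨A, hA⟩ : ∃ A : ℝ, A = k / 12 := ⟨_, rfl⟩
    have hA2 : 2 ≤ A := by
      rw [hA]
      linarith only [hkr]
    -- `1 / (1 + k)` against the power
    have hinv : (1 + (k : ℝ))⁻¹ ≤ (1 + (k : ℝ)) ^ (-(1 / 6 : ℝ)) := by
      rw [← Real.rpow_neg_one]
      exact Real.rpow_le_rpow_of_exponent_le (by linarith only [hkr]) (by norm_num)
    have hc : Continuous fun t => ‖kn (x - y) t‖ := (kn_cont (x - y)).norm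
    -- the first part of the integral
    have hfirst : ∀ T : ℝ, 0 ≤ T → T ≤ A → ∫ t in (0 : ℝ)..T, ‖kn (x - y) t‖ ≤
        (1 + (k : ℝ)) ^ (-(1 / 6 : ℝ)) := by
      intro T hT hTA
      have h1 : ∫ t in (0 : ℝ)..T, ‖kn (x - y) t‖ ≤ ∫ t in (0 : ℝ)..T, (2 * (1 / 2) ^ k : ℝ) := by
        refine intervalIntegral.integral_mono_on hT (hc.intervalIntegrable _ _)
          (by simp) fun t ht => ?_
        refine kn_small smt (x - y) i ht.1 ?_
        rw [← hk]
        have := ht.2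
        rw [hA] at hTA
        linarith only [hTA, this]
      refine h1.trans ?_
      rw [intervalIntegral.integral_const, smul_eq_mul, sub_zero]
      refine le_trans ?_ hinv
      have h2 : (k : ℝ) * (k + 1) ≤ 6 * 2 ^ k := by exact_mod_cast two_pow_ge k
      have h3 : (0 : ℝ) < (1 / 2) ^ k := by positivity
      have h4 : ((1 : ℝ) / 2) ^ k * 2 ^ k = 1 := by
        rw [← mul_pow]
        norm_num
      rw [inv_eq_one_div, le_div_iff₀ hk1]
      calc T * (2 * (1 / 2) ^ k) * (1 + (k : ℝ)) ≤ A * (2 * (1 / 2) ^ k) * (1 + (k : ℝ)) := by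
            gcongr
        _ = (k * (k + 1)) * (1 / 2) ^ k / 6 := by
          rw [hA]
          ring
        _ ≤ (6 * 2 ^ k) * (1 / 2) ^ k / 6 := by gcongr
        _ = (1 / 2) ^ k * 2 ^ k := by ring
        _ = 1 := h4
    -- the tail
    have htail : ∀ T : ℝ, (M : ℝ) / 80 ≤ T → Real.exp (-(z.im * T)) / z.im ≤
        3072000 * (1 + (k : ℝ)) ^ (-(1 / 6 : ℝ)) := by
      intro T hT
      refine (tail3 hz hM0 hMw hT).trans ?_
      have h1 : (3072000 : ℝ) / M ≤ 3072000 / (1 + (k : ℝ)) := by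
        apply div_le_div_of_nonneg_left (by norm_num) hk1
        linarith only [hkr, hkM]
      refine h1.trans ?_
      rw [div_eq_mul_inv]
      gcongr
    rcases le_or_gt A (M / 40) with hAM | hAM
    · obtain ⟨J, hJ1, hJ2⟩ := exists_nat_pow_near (x := (M : ℝ) / 40 / A) (y := 2)
        (by rw [le_div_iff₀ (by linarith only [hkr, hA]), one_mul]; exact hAM) (by norm_num)
      have hA0 : 0 < A := by linarith only [hkr, hA]
      rw [le_div_iff₀ hA0] at hJ1
      rw [div_lt_iff₀ hA0] at hJ2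
      have hJ1' : A * 2 ^ J ≤ M / 40 := by
        rw [mul_comm]
        exact hJ1
      have hJ2' : (M : ℝ) / 80 ≤ A * 2 ^ J := by
        rw [pow_succ] at hJ2
        linarith only [hJ2]
      have hT0 : 0 ≤ A * 2 ^ J := by positivity
      have h1 := rs_le ral hz x y hT0
      have h2 : ∫ t in (0 : ℝ)..A * 2 ^ J, ‖kn (x - y) t‖ =
          (∫ t in (0 : ℝ)..A, ‖kn (x - y) t‖) + ∫ t in A..A * 2 ^ J, ‖kn (x - y) t‖ :=
        (intervalIntegral.integral_add_adjacent_intervals (hc.intervalIntegrable _ _)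
          (hc.intervalIntegrable _ _)).symm
      have h3 := hfirst A hA0.le le_rfl
      have h4 := blks hCb (x - y) (fun T => hb M T (x - y)) (by linarith only [hkr, hA] : (1 : ℝ) ≤ A) hJ1'
      have h5 := htail _ hJ2'
      have h6 : A ^ (-(1 / 6 : ℝ)) ≤ 2 * (1 + (k : ℝ)) ^ (-(1 / 6 : ℝ)) := by
        have h7 : (1 + (k : ℝ)) / 2 ^ 6 ≤ A := by
          rw [hA]
          linarith only [hkr]
        have h8 : A ^ (-(1 / 6 : ℝ)) ≤ ((1 + (k : ℝ)) / 2 ^ 6) ^ (-(1 / 6 : ℝ)) :=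
          Real.rpow_le_rpow_of_nonpos (by positivity) h7 (by norm_num)
        refine h8.trans (le_of_eq ?_)
        rw [Real.div_rpow hk1.le (by positivity), div_eq_mul_inv, mul_comm]
        congr 1
        rw [← Real.rpow_neg (by positivity), ← Real.rpow_natCast, ← Real.rpow_mul (by norm_num)]
        norm_num
      have h7 : 70 * Cb * A ^ (-(1 / 6 : ℝ)) ≤ 140 * Cb * (1 + (k : ℝ)) ^ (-(1 / 6 : ℝ)) := by
        calc 70 * Cb * A ^ (-(1 / 6 : ℝ)) ≤ 70 * Cb * (2 * (1 + (k : ℝ)) ^ (-(1 / 6 : ℝ))) := by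
              gcongr
          _ = _ := by ring
      rw [h2] at h1
      have h8 : 0 ≤ 2 * Cf * (1 + (k : ℝ)) ^ (-(1 / 6 : ℝ)) := by positivity
      calc ‖rs (0 : Tor d M → ℝ) z x y‖ ≤ _ := h1
        _ ≤ (1 + (k : ℝ)) ^ (-(1 / 6 : ℝ)) + 140 * Cb * (1 + (k : ℝ)) ^ (-(1 / 6 : ℝ)) +
            3072000 * (1 + (k : ℝ)) ^ (-(1 / 6 : ℝ)) :=
          add_le_add (add_le_add h3 (h4.trans h7)) h5
        _ ≤ _ := by
          rw [hC]
          linarith only [h8]
    · have hT0 : (0 : ℝ) ≤ M / 40 := by positivity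
      have h1 := rs_le ral hz x y hT0
      have h3 := hfirst (M / 40) hT0 hAM.le
      have h5 := htail (M / 40) (by linarith only [hkr, hkM])
      have h8 : 0 ≤ (2 * Cf + 140 * Cb) * (1 + (k : ℝ)) ^ (-(1 / 6 : ℝ)) := by positivity
      calc ‖rs (0 : Tor d M → ℝ) z x y‖ ≤ _ := h1
        _ ≤ (1 + (k : ℝ)) ^ (-(1 / 6 : ℝ)) + 3072000 * (1 + (k : ℝ)) ^ (-(1 / 6 : ℝ)) :=
          add_le_add h3 h5
        _ ≤ _ := by
          rw [hC]
          linarith only [h8]

end Pool.Agent.ANI.H21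
end
end -- Pool.Agent.Helper21_ANI.PRD

section -- Pool.Agent.Helper54_ANI.LAM

/-!
# LAM: the sum of the fourth powers of the free resolvent, without the logarithm of the side
-/

set_option autoImplicit false

open MeasureTheory ProbabilityTheory Function Filter

open scoped ENNReal BigOperators Topology NNReal ComplexOrder Matrix

noncomputable section

namespace Pool.Agent.ANI.H54

open Pool.Agent.Anderson hiding box mem_box card_box
open Pool.Agent.Loc Pool.Agent.Mob Pool.Agent.Helper54.Bal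
  Pool.Agent.Helper96.EXP Pool.Agent.BED
open Pool.Agent.LE Pool.Agent.LE.MN Pool.Agent.LE.CL Pool.Agent.LE.IR Pool.Agent.LE.QD
  Pool.Agent.LE.QF.H88

theorem lam (sbl : SblStmt) (dsu : QD.DsuStmt) (ral : QD.RalStmt) : LamStmt := by
  intro d hd
  obtain ⟨Cs, hCs, hs⟩ := sbl d hd
  obtain ⟨Cd, hCd, hdd⟩ := dsu d hd
  have hCC : 1 ≤ Cs * Cd := one_le_mul_of_one_le_of_one_le hCs hCd
  refine ⟨80 + (Cs * Cd) ^ 2, by nlinarith only, fun M _ z hz hz1 hM x => ?_⟩
  obtain ⟨-, hsymm, -, -, -, -, -, -, -, -, hfree, -⟩ := ral d M (0 : Tor d M → ℝ) z hz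
  set w : ℝ := z.im with hw
  set C : ℝ := 80 + (Cs * Cd) ^ 2 with hC
  have hw2 : 0 < w ^ 2 := by positivity
  have hC80 : 80 ≤ C := by
    rw [hC]
    nlinarith only
  have hMw : C ≤ M * w ^ 2 := by rwa [div_le_iff₀ hw2] at hM
  have hwsq : w ^ 2 ≤ 1 := pow_le_one₀ hz.le hz1
  have hM0 : (0 : ℝ) ≤ M := Nat.cast_nonneg M
  have hM1 : (80 : ℝ) ≤ M := by nlinarith
  have hCs2 : Cs ≤ C := by
    rw [hC]
    nlinarith only [hCs, hCd, hCC]
  have hCd2 : Cd ≤ C := by
    rw [hC]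
    nlinarith only [hCs, hCd, hCC]
  have h1 := hs M z.re w hz hz1 ((div_le_div_of_nonneg_right hCs2 hw2.le).trans hM)
  have hCdM : Cd / w ≤ M := by
    refine le_trans ?_ hM
    have : Cd / w ≤ C / w := div_le_div_of_nonneg_right hCd2 hz.le
    refine this.trans ?_
    apply div_le_div_of_nonneg_left (by linarith only [hC80]) hw2
    nlinarith only [hz, hz1]
  obtain ⟨-, h2⟩ := hdd M z.re w hz hz1 hCdM
  -- the function
  set f : Tor d M → ℂ := fun y => rs (0 : Tor d M → ℝ) z x y with hf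
  have hft : ∀ p, ft f p = (starRingEnd ℂ) (ec p x) / ((es p : ℂ) - z) := by
    obtain ⟨g, hg⟩ := Pool.Agent.LE.IR.H54.surj
      (fun p : Tor d M => (starRingEnd ℂ) (ec p x) / ((es p : ℂ) - z))
    have hgf : g = f := by
      funext y
      rw [Pool.Agent.LE.IR.H54.inversion g y, hf]
      simp only
      rw [hsymm x y, hfree y x]
      congr 1
      refine Finset.sum_congr rfl fun p _ => ?_
      rw [hg p, Pool.Agent.LE.IR.H54.ec_sub]
      ring
    rw [← hgf]
    exact hg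
  have hmt : ∀ p : Tor d M, ‖(es p : ℂ) - z‖ = Real.sqrt ((es p - z.re) ^ 2 + w ^ 2) := by
    intro p
    rw [Complex.norm_def, Complex.normSq_apply]
    congr 1
    simp only [Complex.sub_re, Complex.ofReal_re, Complex.sub_im, Complex.ofReal_im]
    rw [hw]
    ring
  have hqn : qn z.re w f =
      pm (fun p : Tor d M => (Real.sqrt ((es p - z.re) ^ 2 + w ^ 2))⁻¹) := by
    unfold qn pm
    congr 1
    refine Finset.sum_congr rfl fun p _ => ?_
    beta_reduce
    rw [hft p, norm_div, RCLike.norm_conj, Pool.Agent.LE.IR.H54.ec_norm, hmt p]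
    have h3 : mt (2 * d - z.re) w p = Real.sqrt ((es p - z.re) ^ 2 + w ^ 2) := by
      unfold Pool.Agent.LE.IR.mt es
      congr 1
      ring
    rw [h3]
    have h4 : 0 < Real.sqrt ((es p - z.re) ^ 2 + w ^ 2) := Real.sqrt_pos.2 (by positivity)
    field_simp
  have h3 := h1 f
  rw [hqn] at h3
  have hlogw0 : 0 ≤ Real.log (1 / w) := by
    apply Real.log_nonneg
    rw [le_div_iff₀ hz]
    linarith only [hz1]
  have h4 : n4 f ≤ Cs * Cd * w ^ (-(1 / 3 : ℝ)) * (1 + Real.log (1 / w)) ^ 3 := by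
    calc n4 f ≤ Cs * w ^ (-(1 / 3 : ℝ)) * (1 + Real.log (1 / w)) ^ 2 *
          (Cd * (1 + Real.log (1 / w))) := h3.trans (by gcongr)
      _ = _ := by ring
  have h5 : (0 : ℝ) ≤ ∑ y, ‖f y‖ ^ 4 := Finset.sum_nonneg fun y _ => by positivity
  have h6 : ∑ y, ‖f y‖ ^ 4 ≤
      (Cs * Cd * w ^ (-(1 / 3 : ℝ)) * (1 + Real.log (1 / w)) ^ 3) ^ 2 := by
    have h7 : (n4 f) ^ 2 = ∑ y, ‖f y‖ ^ 4 := Real.sq_sqrt h5
    rw [← h7]
    have h8 : 0 ≤ n4 f := Real.sqrt_nonneg _
    gcongr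
  refine h6.trans ?_
  have h7 : (w ^ (-(1 / 3 : ℝ))) ^ 2 = w ^ (-(2 / 3 : ℝ)) := by
    rw [← Real.rpow_natCast, ← Real.rpow_mul hz.le]
    norm_num
  calc (Cs * Cd * w ^ (-(1 / 3 : ℝ)) * (1 + Real.log (1 / w)) ^ 3) ^ 2 =
      (Cs * Cd) ^ 2 * (w ^ (-(1 / 3 : ℝ))) ^ 2 * (1 + Real.log (1 / w)) ^ 6 := by ring
    _ = (Cs * Cd) ^ 2 * w ^ (-(2 / 3 : ℝ)) * (1 + Real.log (1 / w)) ^ 6 := by rw [h7]
    _ ≤ C * w ^ (-(2 / 3 : ℝ)) * (1 + Real.log (1 / w)) ^ 6 := by
      have h8 : (Cs * Cd) ^ 2 ≤ C := by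
        rw [hC]
        linarith only
      gcongr

end Pool.Agent.ANI.H54
end
end -- Pool.Agent.Helper54_ANI.LAM

section -- Pool.Agent.Helper69_LQF.FMU

/-!
# FMU: Fourier multipliers on the torus
-/

set_option autoImplicit false
set_option linter.unusedSectionVars false

open scoped BigOperators

noncomputable section

namespace Pool.Agent.LE.QF.H69

open Pool.Agent.BED Pool.Agent.LE.IR Pool.Agent.LE.IR.H54 Pool.Agent.LE.QF

variable {d M : ℕ} [NeZero M]

theorem sum_even (s : Tor d M → ℝ) (hs : ∀ p, s (-p) = s p) (z : Tor d M) :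
    ((∑ p, s p * (ec p z).re : ℝ) : ℂ) = ∑ p, (s p : ℂ) * ec p z := by
  have h1 : (starRingEnd ℂ) (∑ p, (s p : ℂ) * ec p z) = ∑ p, (s p : ℂ) * ec p z := by
    rw [map_sum]
    rw [← Equiv.sum_comp (Equiv.neg (Tor d M)) (fun p => (s p : ℂ) * ec p z)]
    refine Finset.sum_congr rfl fun p _ => ?_
    rw [map_mul, Complex.conj_ofReal, Equiv.neg_apply, hs, ec_neg_left]
  have h2 := Complex.conj_eq_iff_re.1 h1
  rw [← h2]
  congr 1
  rw [Complex.re_sum]
  exact Finset.sum_congr rfl fun p _ => (Complex.re_ofReal_mul _ _).symm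

theorem cast_mlt (s : Tor d M → ℝ) (hs : ∀ p, s (-p) = s p) (x y : Tor d M) :
    ((mlt s x y : ℝ) : ℂ) = (∑ p, (s p : ℂ) * ec p (x - y)) / (M : ℂ) ^ d := by
  rw [← sum_even s hs]
  unfold mlt
  push_cast
  rfl

theorem MRne : (M : ℝ) ^ d ≠ 0 := pow_ne_zero _ (by exact_mod_cast NeZero.ne M)

theorem sum_ec_re (z : Tor d M) : ∑ p, (ec p z).re = if z = 0 then (M : ℝ) ^ d else 0 := by
  rw [← Complex.re_sum, sum_ec_right]
  split_ifs
  · rw [← Complex.ofReal_natCast, ← Complex.ofReal_pow, Complex.ofReal_re]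
  · rfl

theorem part1 (s : Tor d M → ℝ) (hs : ∀ p, s (-p) = s p) (f : Tor d M → ℝ) :
    qf (mlt s) f = pm fun p => s p * ‖ft (fun x => (f x : ℂ)) p‖ ^ 2 := by
  apply Complex.ofReal_injective
  unfold qf pm Matrix.mulVec dotProduct
  push_cast
  rw [eq_div_iff Mne, Finset.sum_mul]
  have h1 : ∀ p : Tor d M, (((s p : ℝ) : ℂ) * ((‖ft (fun x => (f x : ℂ)) p‖ : ℝ) : ℂ) ^ 2) =
      ∑ a, ∑ b, (f a : ℂ) * ((s p : ℂ) * ec p (a - b)) * (f b : ℂ) := by
    intro p
    have h2 : ((‖ft (fun x => (f x : ℂ)) p‖ : ℝ) : ℂ) ^ 2 =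
        (starRingEnd ℂ) (ft (fun x => (f x : ℂ)) p) * ft (fun x => (f x : ℂ)) p := by
      rw [mul_comm, Complex.mul_conj, Complex.normSq_eq_norm_sq]
      push_cast
      rfl
    rw [h2]
    unfold ft
    rw [map_sum, Finset.sum_mul_sum, Finset.mul_sum]
    refine Finset.sum_congr rfl fun a _ => ?_
    rw [Finset.mul_sum]
    refine Finset.sum_congr rfl fun b _ => ?_
    rw [map_mul, Complex.conj_conj, Complex.conj_ofReal, ec_sub]
    ring
  simp only [h1]
  rw [Finset.sum_comm]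
  refine Finset.sum_congr rfl fun a _ => ?_
  rw [Finset.sum_comm, Finset.mul_sum, Finset.sum_mul]
  refine Finset.sum_congr rfl fun b _ => ?_
  rw [cast_mlt s hs, ← Finset.sum_mul, ← Finset.mul_sum]
  have h3 := div_mul_cancel₀ (∑ p, (s p : ℂ) * ec p (a - b)) (Mne (d := d) (M := M))
  linear_combination (f a : ℂ) * (f b : ℂ) * h3

theorem part2 (s : Tor d M → ℝ) (x y : Tor d M) : mlt s x y = mlt s y x := by
  unfold mlt
  congr 1
  refine Finset.sum_congr rfl fun p _ => ?_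
  rw [← neg_sub y x, ec_neg, Complex.conj_re]

theorem part3 (s s' : Tor d M → ℝ) (hs : ∀ p, s (-p) = s p) (hs' : ∀ p, s' (-p) = s' p) :
    mlt s * mlt s' = mlt (fun p => s p * s' p) := by
  ext x z
  apply Complex.ofReal_injective
  rw [Matrix.mul_apply, cast_mlt _ (fun p => by rw [hs, hs'])]
  push_cast
  have h1 : ∀ y : Tor d M, (mlt s x y : ℂ) * (mlt s' y z : ℂ) =
      (∑ p, ∑ q, (s p : ℂ) * (s' q : ℂ) * (ec p x * (starRingEnd ℂ) (ec q z)) * ec (q - p) y) /
        ((M : ℂ) ^ d * (M : ℂ) ^ d) := by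
    intro y
    rw [cast_mlt s hs, cast_mlt s' hs', div_mul_div_comm, Finset.sum_mul_sum]
    congr 1
    refine Finset.sum_congr rfl fun p _ => Finset.sum_congr rfl fun q _ => ?_
    rw [ec_sub, ec_sub, sub_eq_add_neg, ec_add_left, ec_neg_left]
    ring
  simp only [h1]
  rw [← Finset.sum_div, Finset.sum_comm]
  rw [div_eq_div_iff (mul_ne_zero Mne Mne) Mne, Finset.sum_mul, Finset.sum_mul]
  refine Finset.sum_congr rfl fun p _ => ?_
  rw [Finset.sum_comm]
  have h2 : ∀ q : Tor d M, ∑ y, (s p : ℂ) * (s' q : ℂ) *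
      (ec p x * (starRingEnd ℂ) (ec q z)) * ec (q - p) y =
      if q = p then (s p : ℂ) * (s' q : ℂ) * (ec p x * (starRingEnd ℂ) (ec q z)) * (M : ℂ) ^ d
        else 0 := by
    intro q
    rw [← Finset.mul_sum, sum_ec]
    by_cases h : q = p
    · rw [if_pos h, if_pos (by rw [h, sub_self])]
    · rw [if_neg h, if_neg (sub_ne_zero.2 h), mul_zero]
  simp only [h2]
  rw [Finset.sum_ite_eq' Finset.univ p]
  rw [if_pos (Finset.mem_univ p), ec_sub]
  ring

theorem part4 (s s' : Tor d M → ℝ) : mlt (fun p => s p + s' p) = mlt s + mlt s' := by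
  ext x y
  rw [Matrix.add_apply]
  unfold mlt
  rw [← add_div, ← Finset.sum_add_distrib]
  congr 1
  exact Finset.sum_congr rfl fun p _ => by ring

theorem part5 (s : Tor d M → ℝ) (t : ℝ) : mlt (fun p => t * s p) = t • mlt s := by
  ext x y
  rw [Matrix.smul_apply]
  unfold mlt
  rw [smul_eq_mul, ← mul_div_assoc, Finset.mul_sum]
  congr 1
  exact Finset.sum_congr rfl fun p _ => by ring

theorem part6 : mlt (fun _ : Tor d M => 1) = 1 := by
  ext x y
  unfold mlt
  simp only [one_mul]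
  rw [sum_ec_re, Matrix.one_apply]
  by_cases h : x = y
  · rw [if_pos h, if_pos (by rw [h, sub_self]), div_self MRne]
  · rw [if_neg h, if_neg (sub_ne_zero.2 h), zero_div]

theorem part7 (s : Tor d M → ℝ) (hs : ∀ p, s (-p) = s p) (x : Tor d M) :
    ∑ y, mlt s x y = s 0 := by
  apply Complex.ofReal_injective
  push_cast
  simp only [cast_mlt s hs]
  rw [← Finset.sum_div, div_eq_iff Mne, Finset.sum_comm]
  have h1 : ∀ p : Tor d M, ∑ y, (s p : ℂ) * ec p (x - y) =
      if p = 0 then (s p : ℂ) * (M : ℂ) ^ d else 0 := by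
    intro p
    have h2 : ∑ y, ec p (x - y) = ∑ y, ec p y :=
      Equiv.sum_comp (Equiv.subLeft x) (fun y => ec p y)
    rw [← Finset.mul_sum, h2, sum_ec]
    split_ifs
    · rfl
    · exact mul_zero _
  simp only [h1]
  rw [Finset.sum_ite_eq' Finset.univ (0 : Tor d M), if_pos (Finset.mem_univ _)]

theorem part8 (s : Tor d M → ℝ) (x : Tor d M) : mlt s x x = pm s := by
  unfold mlt pm
  simp [sub_self, ec_zero]

theorem part9 : P0 (Tor d M) = mlt (fun p => if p = 0 then 1 else 0) := by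
  ext x y
  unfold P0 mlt
  have h1 : ∀ p : Tor d M, (if p = 0 then (1 : ℝ) else 0) * (ec p (x - y)).re =
      if p = 0 then 1 else 0 := by
    intro p
    by_cases h : p = 0
    · rw [if_pos h, h, ec_comm, ec_zero, Complex.one_re, mul_one]
    · rw [if_neg h, zero_mul]
  simp only [h1]
  rw [Finset.sum_ite_eq' Finset.univ (0 : Tor d M), if_pos (Finset.mem_univ _), one_div]
  congr 1
  rw [Fintype.card_fun, ZMod.card, Fintype.card_fin]
  push_cast
  rfl

theorem part10 (s : Tor d M → ℝ) (hs : ∀ p, s (-p) = s p) (h0 : ∀ p, 0 < s p) :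
    (mlt s)⁻¹ = mlt fun p => (s p)⁻¹ := by
  refine Matrix.inv_eq_right_inv ?_
  rw [part3 s _ hs (fun p => by rw [hs]), ← part6]
  congr 1
  funext p
  exact mul_inv_cancel₀ (h0 p).ne'

theorem part11 (k : Tor d M → ℝ) (x y : Tor d M) (hk : ∀ z, k (-z) = k z) :
    k (x - y) = mlt (fun p => ∑ z, k z * (ec p z).re) x y := by
  apply Complex.ofReal_injective
  rw [cast_mlt _ (fun p => Finset.sum_congr rfl fun z _ => by
    rw [ec_neg_left, Complex.conj_re])]
  rw [eq_div_iff Mne]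
  have h1 : ∀ p : Tor d M, ((∑ z, k z * (ec p z).re : ℝ) : ℂ) * ec p (x - y) =
      ∑ z, (k z : ℂ) * ec p (z + (x - y)) := by
    intro p
    have h2 : ∀ z : Tor d M, k z * (ec p z).re = k z * (ec z p).re := fun z => by rw [ec_comm]
    simp only [h2]
    rw [sum_even k hk p, Finset.sum_mul]
    refine Finset.sum_congr rfl fun z _ => ?_
    rw [ec_add, ec_comm z p]
    ring
  simp only [h1]
  rw [Finset.sum_comm]
  have h3 : ∀ z : Tor d M, ∑ p, (k z : ℂ) * ec p (z + (x - y)) =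
      if z = -(x - y) then (k z : ℂ) * (M : ℂ) ^ d else 0 := by
    intro z
    rw [← Finset.mul_sum, sum_ec_right]
    by_cases h : z = -(x - y)
    · rw [if_pos h, if_pos (by rw [h, neg_add_cancel])]
    · rw [if_neg h, if_neg (fun h' => h (eq_neg_of_add_eq_zero_left h')), mul_zero]
  simp only [h3]
  rw [Finset.sum_ite_eq' Finset.univ (-(x - y)), if_pos (Finset.mem_univ _), hk]

/-- Row FMU. -/
theorem fmu : FmuStmt := by
  intro d M _ s s' hs hs'
  exact ⟨part1 s hs, part2 s, part3 s s' hs hs', part4 s s', part5 s, part6, part7 s hs, part8 s,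
    part9, part10 s hs, fun k x y hk => part11 k x y hk⟩

end Pool.Agent.LE.QF.H69
end
end -- Pool.Agent.Helper69_LQF.FMU

section -- Pool.Agent.Helper8_LQF.KHB

set_option autoImplicit false

open MeasureTheory Set


namespace Pool.Agent.LE.QF.H8

/-- Gamma integral with its integrability -/
theorem kh_gam {a w : ℝ} (ha : 0 < a) (hw : 0 < w) :
    IntegrableOn (fun t : ℝ => t ^ (a - 1) * Real.exp (-(w * t))) (Ioi 0) ∧
      ∫ t in Ioi (0 : ℝ), t ^ (a - 1) * Real.exp (-(w * t)) = (1 / w) ^ a * Real.Gamma a := by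
  have h := Real.integral_rpow_mul_exp_neg_mul_Ioi ha hw
  refine ⟨?_, h⟩
  by_contra hn
  have h0 : ∫ t in Ioi (0 : ℝ), t ^ (a - 1) * Real.exp (-(w * t)) = 0 := integral_undef hn
  rw [h] at h0
  have : 0 < (1 / w) ^ a * Real.Gamma a :=
    mul_pos (Real.rpow_pos_of_pos (by positivity) _) (Real.Gamma_pos_of_pos ha)
  exact this.ne' h0

theorem kh_exp {w : ℝ} (hw : 0 < w) :
    IntegrableOn (fun t : ℝ => Real.exp (-(w * t))) (Ioi 0) ∧
      ∫ t in Ioi (0 : ℝ), Real.exp (-(w * t)) = 1 / w := by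
  have h1 : (fun t : ℝ => Real.exp (-(w * t))) = fun t => Real.exp (-w * t) := by
    funext t
    rw [neg_mul]
  rw [h1]
  refine ⟨integrableOn_exp_mul_Ioi (by linarith) 0, ?_⟩
  rw [integral_exp_mul_Ioi (by linarith : -w < 0) 0]
  simp

/-- the logarithm -/
theorem kh_log {w t : ℝ} (hw : 0 < w) (hw2 : w ≤ 1 / 2) :
    IntegrableOn (fun s : ℝ => Real.exp (-(w * s)) * (1 + |t - s|)⁻¹) (Ioi 0) ∧
      ∫ s in Ioi (0 : ℝ), Real.exp (-(w * s)) * (1 + |t - s|)⁻¹ ≤ 3 * (1 + Real.log (1 / w)) := by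
  have hle1 : ∀ s : ℝ, (1 + |t - s|)⁻¹ ≤ 1 := fun s => inv_le_one_of_one_le₀ (by
    have := abs_nonneg (t - s)
    linarith only [this])
  have hnn : ∀ s : ℝ, 0 ≤ (1 + |t - s|)⁻¹ := fun s => by positivity
  have hcont : Continuous fun s : ℝ => Real.exp (-(w * s)) * (1 + |t - s|)⁻¹ := by
    refine Continuous.mul (by fun_prop) (Continuous.inv₀ (by fun_prop) fun s => ?_)
    have := abs_nonneg (t - s)
    linarith only [hw, hw2, this]
  have hint : IntegrableOn (fun s : ℝ => Real.exp (-(w * s)) * (1 + |t - s|)⁻¹) (Ioi 0) := by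
    refine Integrable.mono' (kh_exp hw).1 hcont.aestronglyMeasurable ?_
    refine Filter.Eventually.of_forall fun s => ?_
    rw [Real.norm_of_nonneg (mul_nonneg (Real.exp_nonneg _) (hnn s))]
    exact mul_le_of_le_one_right (Real.exp_nonneg _) (hle1 s)
  refine ⟨hint, ?_⟩
  -- the interval integral
  have hw' : 0 < 1 / w := by positivity
  have hc1 : Continuous fun s : ℝ => (1 + |t - s|)⁻¹ := by
    refine Continuous.inv₀ (by fun_prop) fun s => ?_
    have := abs_nonneg (t - s)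
    linarith only [hw, hw2, this]
  have hI1 : ∫ s in (t - 1 / w)..t, (1 + |t - s|)⁻¹ = Real.log (1 + 1 / w) := by
    have e : ∫ s in (t - 1 / w)..t, (1 + |t - s|)⁻¹ =
        (-Real.log (1 + (t - t))) - (-Real.log (1 + (t - (t - 1 / w)))) := by
      refine intervalIntegral.integral_eq_sub_of_hasDerivAt (f := fun s => -Real.log (1 + (t - s)))
        (fun s hs => ?_) (hc1.intervalIntegrable _ _)
      rw [uIcc_of_le (by linarith only [hw'])] at hs
      have h1 : 0 ≤ t - s := by linarith only [hs.2]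
      have h2 : HasDerivAt (fun s : ℝ => 1 + (t - s)) (-1) s := by
        have := (hasDerivAt_id s).const_sub t
        exact (this.const_add 1)
      have h3 := (h2.log (by positivity)).neg
      rw [abs_of_nonneg h1]
      refine h3.congr_deriv ?_
      field_simp
    rw [e]
    simp
  have hI2 : ∫ s in t..(t + 1 / w), (1 + |t - s|)⁻¹ = Real.log (1 + 1 / w) := by
    have e : ∫ s in t..(t + 1 / w), (1 + |t - s|)⁻¹ =
        (Real.log (1 + (t + 1 / w - t))) - (Real.log (1 + (t - t))) := by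
      refine intervalIntegral.integral_eq_sub_of_hasDerivAt (f := fun s => Real.log (1 + (s - t)))
        (fun s hs => ?_) (hc1.intervalIntegrable _ _)
      rw [uIcc_of_le (by linarith only [hw'])] at hs
      have h1 : 0 ≤ s - t := by linarith only [hs.1]
      have h2 : HasDerivAt (fun s : ℝ => 1 + (s - t)) 1 s := by
        have := (hasDerivAt_id s).sub_const t
        exact (this.const_add 1)
      have h3 := h2.log (by positivity)
      rw [abs_sub_comm, abs_of_nonneg h1]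
      refine h3.congr_deriv ?_
      field_simp
    rw [e]
    simp
  have hI : ∫ s in (t - 1 / w)..(t + 1 / w), (1 + |t - s|)⁻¹ = 2 * Real.log (1 + 1 / w) := by
    rw [← intervalIntegral.integral_add_adjacent_intervals (hc1.intervalIntegrable _ _)
      (hc1.intervalIntegrable t _), hI1, hI2]
    ring
  have hII : ∫ s in Ioc (t - 1 / w) (t + 1 / w), (1 + |t - s|)⁻¹ = 2 * Real.log (1 + 1 / w) := by
    rw [← hI, intervalIntegral.integral_of_le (by linarith only [hw'])]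
  -- the pointwise bound
  have hind : Integrable (fun s : ℝ => (Ioc (t - 1 / w) (t + 1 / w)).indicator
      (fun s => (1 + |t - s|)⁻¹) s) := by
    rw [integrable_indicator_iff measurableSet_Ioc]
    exact (hc1.integrableOn_Icc (a := t - 1 / w) (b := t + 1 / w)).mono_set Ioc_subset_Icc_self
  have hb : ∫ s in Ioi (0 : ℝ), Real.exp (-(w * s)) * (1 + |t - s|)⁻¹ ≤
      ∫ s in Ioi (0 : ℝ), ((Ioc (t - 1 / w) (t + 1 / w)).indicator
        (fun s => (1 + |t - s|)⁻¹) s + w * Real.exp (-(w * s))) := by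
    refine setIntegral_mono_on hint (hind.integrableOn.add ((kh_exp hw).1.const_mul w))
      measurableSet_Ioi fun s hs => ?_
    have hs0 : (0 : ℝ) < s := hs
    have hexp : Real.exp (-(w * s)) ≤ 1 := Real.exp_le_one_iff.mpr (by
      have := mul_pos hw hs0
      linarith only [this])
    by_cases hmem : s ∈ Ioc (t - 1 / w) (t + 1 / w)
    · rw [indicator_of_mem hmem]
      have h1 : Real.exp (-(w * s)) * (1 + |t - s|)⁻¹ ≤ (1 + |t - s|)⁻¹ :=
        mul_le_of_le_one_left (hnn s) hexp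
      have h2 : 0 ≤ w * Real.exp (-(w * s)) := by positivity
      linarith only [h1, h2]
    · rw [indicator_of_notMem hmem, zero_add, mul_comm]
      refine mul_le_mul_of_nonneg_right ?_ (Real.exp_nonneg _)
      have h3 : 1 / w ≤ |t - s| := by
        rw [mem_Ioc, not_and_or, not_lt, not_le] at hmem
        rcases hmem with h | h
        · rw [le_abs]
          left
          linarith only [h]
        · rw [le_abs]
          right
          linarith only [h]
      rw [inv_le_comm₀ (by positivity) hw, ← one_div]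
      linarith only [hw, hw2, h3]
  refine hb.trans ?_
  rw [integral_add hind.integrableOn ((kh_exp hw).1.const_mul w)]
  have h4 : ∫ s in Ioi (0 : ℝ), w * Real.exp (-(w * s)) = 1 := by
    rw [integral_const_mul, (kh_exp hw).2]
    field_simp
  have h5 : ∫ s in Ioi (0 : ℝ), (Ioc (t - 1 / w) (t + 1 / w)).indicator
      (fun s => (1 + |t - s|)⁻¹) s ≤ 2 * Real.log (1 + 1 / w) := by
    rw [← hII, ← integral_indicator measurableSet_Ioc]
    refine setIntegral_le_integral hind (Filter.Eventually.of_forall fun s => ?_)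
    exact indicator_nonneg (fun s _ => hnn s) s
  have h6 : Real.log (1 + 1 / w) ≤ 1 + Real.log (1 / w) := by
    have h7 : 1 + 1 / w ≤ 2 * (1 / w) := by
      have : 1 ≤ 1 / w := by
        rw [le_div_iff₀ hw]
        linarith only [hw, hw2]
      linarith only [this]
    have h8 := Real.log_le_log (by positivity) h7
    rw [Real.log_mul (by norm_num) (by positivity)] at h8
    have h9 := Real.log_two_lt_d9
    linarith only [hw, hw2, h8, h9]
  have h10 : 0 ≤ Real.log (1 / w) := Real.log_nonneg (by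
    rw [le_div_iff₀ hw]
    linarith only [hw, hw2])
  rw [h4]
  linarith only [h5, h6, h10]

/-- the outer integral -/
theorem kh_out {w σ : ℝ} (hw : 0 < w) (hσ : 0 ≤ σ) :
    IntegrableOn (fun t : ℝ => Real.exp (-(w * t)) * (1 + σ * t) ^ (-(1 / 2 : ℝ))) (Ioi 0) ∧
      ∫ t in Ioi (0 : ℝ), Real.exp (-(w * t)) * (1 + σ * t) ^ (-(1 / 2 : ℝ)) ≤
        3 / w * Real.sqrt (w / (w + σ)) := by
  have hle1 : ∀ t ∈ Ioi (0 : ℝ), (1 + σ * t) ^ (-(1 / 2 : ℝ)) ≤ 1 := fun t ht => by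
    have h1 : 1 ≤ 1 + σ * t := by
      have := mul_nonneg hσ (le_of_lt (show (0 : ℝ) < t from ht))
      linarith
    exact Real.rpow_le_one_of_one_le_of_nonpos h1 (by norm_num)
  have hnn : ∀ t ∈ Ioi (0 : ℝ), 0 ≤ (1 + σ * t) ^ (-(1 / 2 : ℝ)) := fun t ht => by
    have := mul_nonneg hσ (le_of_lt (show (0 : ℝ) < t from ht))
    exact Real.rpow_nonneg (by linarith) _
  have hint : IntegrableOn (fun t : ℝ => Real.exp (-(w * t)) * (1 + σ * t) ^ (-(1 / 2 : ℝ)))
      (Ioi 0) := by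
    refine Integrable.mono' (kh_exp hw).1 ?_ ?_
    · refine Measurable.aestronglyMeasurable ?_
      fun_prop
    · refine (ae_restrict_mem measurableSet_Ioi).mono fun t ht => ?_
      rw [Real.norm_of_nonneg (mul_nonneg (Real.exp_nonneg _) (hnn t ht))]
      exact mul_le_of_le_one_right (Real.exp_nonneg _) (hle1 t ht)
  refine ⟨hint, ?_⟩
  rcases le_total σ w with h | h
  · have h1 : ∫ t in Ioi (0 : ℝ), Real.exp (-(w * t)) * (1 + σ * t) ^ (-(1 / 2 : ℝ)) ≤ 1 / w := by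
      rw [← (kh_exp hw).2]
      refine setIntegral_mono_on hint (kh_exp hw).1 measurableSet_Ioi fun t ht => ?_
      exact mul_le_of_le_one_right (Real.exp_nonneg _) (hle1 t ht)
    refine h1.trans ?_
    have h2 : (1 / 3 : ℝ) ≤ Real.sqrt (w / (w + σ)) := by
      refine Real.le_sqrt_of_sq_le ?_
      rw [le_div_iff₀ (by linarith only [hw, hσ])]
      nlinarith only [hw, h]
    have h3 : 3 / w * (1 / 3) ≤ 3 / w * Real.sqrt (w / (w + σ)) :=
      mul_le_mul_of_nonneg_left h2 (by positivity)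
    refine le_trans (le_of_eq ?_) h3
    field_simp
  · have hσ' : 0 < σ := lt_of_lt_of_le hw h
    obtain ⟨hg1, hg2⟩ := kh_gam (a := 1 / 2) (by norm_num) hw
    have h1 : ∫ t in Ioi (0 : ℝ), Real.exp (-(w * t)) * (1 + σ * t) ^ (-(1 / 2 : ℝ)) ≤
        ∫ t in Ioi (0 : ℝ), σ ^ (-(1 / 2 : ℝ)) * (t ^ ((1 / 2 : ℝ) - 1) * Real.exp (-(w * t))) := by
      refine setIntegral_mono_on hint (hg1.const_mul _) measurableSet_Ioi fun t ht => ?_
      have ht0 : (0 : ℝ) < t := ht
      have h2 : (1 + σ * t) ^ (-(1 / 2 : ℝ)) ≤ (σ * t) ^ (-(1 / 2 : ℝ)) :=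
        Real.rpow_le_rpow_of_nonpos (by positivity) (by linarith only) (by norm_num)
      rw [Real.mul_rpow hσ'.le ht0.le] at h2
      have h3 : (1 / 2 : ℝ) - 1 = -(1 / 2) := by norm_num
      rw [h3]
      calc Real.exp (-(w * t)) * (1 + σ * t) ^ (-(1 / 2 : ℝ)) ≤
          Real.exp (-(w * t)) * (σ ^ (-(1 / 2 : ℝ)) * t ^ (-(1 / 2 : ℝ))) :=
            mul_le_mul_of_nonneg_left h2 (Real.exp_nonneg _)
        _ = _ := by ring
    refine h1.trans ?_
    rw [integral_const_mul, hg2, Real.Gamma_one_half_eq]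
    have h4 : σ ^ (-(1 / 2 : ℝ)) * ((1 / w) ^ (1 / 2 : ℝ) * Real.sqrt Real.pi) =
        Real.sqrt (Real.pi / (σ * w)) := by
      rw [← Real.sqrt_eq_rpow, Real.rpow_neg hσ'.le, ← Real.sqrt_eq_rpow, ← Real.sqrt_inv,
        ← Real.sqrt_mul (by positivity), ← Real.sqrt_mul (by positivity)]
      congr 1
      field_simp
    have h5 : 3 / w * Real.sqrt (w / (w + σ)) = Real.sqrt ((3 / w) ^ 2 * (w / (w + σ))) := by
      rw [Real.sqrt_mul (by positivity), Real.sqrt_sq (by positivity)]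
    rw [h4, h5]
    refine Real.sqrt_le_sqrt ?_
    have h6 : (3 / w) ^ 2 * (w / (w + σ)) = 9 / (w * (w + σ)) := by
      field_simp
      norm_num
    rw [h6, div_le_div_iff₀ (by positivity) (by positivity)]
    have h7 := Real.pi_lt_d2
    have h8 : Real.pi * (w * (w + σ)) ≤ 3.15 * (w * (w + σ)) :=
      mul_le_mul_of_nonneg_right h7.le (by positivity)
    have h9 : w * (w + σ) ≤ w * (2 * σ) := mul_le_mul_of_nonneg_left (by linarith only [h]) hw.le
    have h10 : 0 < w * σ := by positivity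
    nlinarith only [h8, h9, h10]

/-- pointwise -/
theorem kh_pw {t s σ ρ : ℝ} (ht : 0 < t) (hs : 0 < s) (hσ : 0 ≤ σ) (hρ : 0 ≤ ρ)
    (hρ2 : ρ ^ 2 = (t - s) ^ 2 + 4 * t * s * σ ^ 2) :
    (1 + |t - s|)⁻¹ * (1 + ρ) ^ (-(1 / 2 : ℝ)) ≤
      (1 + σ * t) ^ (-(1 / 2 : ℝ)) * (1 + |t - s|)⁻¹ +
        t ^ ((1 / 4 : ℝ) - 1) * s ^ ((1 / 4 : ℝ) - 1) := by
  have hts := mul_pos ht hs
  have hσt := mul_nonneg hσ ht.le
  have habs := abs_nonneg (t - s)
  have hx : 0 < 1 + |t - s| := by linarith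
  have hA : 0 ≤ (1 + σ * t) ^ (-(1 / 2 : ℝ)) * (1 + |t - s|)⁻¹ := by positivity
  have hB : 0 ≤ t ^ ((1 / 4 : ℝ) - 1) * s ^ ((1 / 4 : ℝ) - 1) := by positivity
  rcases le_or_gt |t - s| ((t + s) / 2) with h | h
  · have h1 : t ≤ 3 * s := by
      have := le_abs_self (t - s)
      linarith only [h, this]
    have h2 : σ * t ≤ ρ := by
      by_contra hn
      push Not at hn
      have h3 : ρ ^ 2 < (σ * t) ^ 2 := by
        have := mul_self_lt_mul_self hρ hn
        nlinarith only [this]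
      have h4 : t * t ≤ 3 * (t * s) := by nlinarith only [ht, h1]
      have h5 : σ ^ 2 * (t * t) ≤ σ ^ 2 * (3 * (t * s)) :=
        mul_le_mul_of_nonneg_left h4 (sq_nonneg σ)
      have h6 : 0 ≤ σ ^ 2 * (t * s) := by positivity
      nlinarith only [sq_nonneg (t - s), hρ2, h3, h5]
    have h3 : (1 + ρ) ^ (-(1 / 2 : ℝ)) ≤ (1 + σ * t) ^ (-(1 / 2 : ℝ)) :=
      Real.rpow_le_rpow_of_nonpos (by linarith only [hσt]) (by linarith only [h2]) (by norm_num)
    have h4 : (1 + |t - s|)⁻¹ * (1 + ρ) ^ (-(1 / 2 : ℝ)) ≤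
        (1 + |t - s|)⁻¹ * (1 + σ * t) ^ (-(1 / 2 : ℝ)) :=
      mul_le_mul_of_nonneg_left h3 (by positivity)
    rw [mul_comm ((1 + |t - s|)⁻¹) ((1 + σ * t) ^ (-(1 / 2 : ℝ)))] at h4
    linarith only [hB, h4]
  · have h1 : |t - s| ≤ ρ := by
      refine abs_le_of_sq_le_sq ?_ hρ
      rw [hρ2]
      have : 0 ≤ 4 * t * s * σ ^ 2 := by positivity
      linarith only [this]
    have h2 : (1 + ρ) ^ (-(1 / 2 : ℝ)) ≤ (1 + |t - s|) ^ (-(1 / 2 : ℝ)) :=
      Real.rpow_le_rpow_of_nonpos hx (by linarith only [h1]) (by norm_num)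
    have h3 : Real.sqrt (t * s) ≤ 1 + |t - s| := by
      rw [Real.sqrt_le_left hx.le]
      have h4 : t * s ≤ ((t + s) / 2) ^ 2 := by nlinarith only [sq_nonneg (t - s)]
      have h5 : ((t + s) / 2) ^ 2 ≤ (1 + |t - s|) ^ 2 :=
        pow_le_pow_left₀ (by linarith only [ht, hs]) (by linarith only [h]) 2
      linarith only [h4, h5]
    have h4 : (1 + |t - s|) ^ (-(3 / 2 : ℝ)) ≤ (Real.sqrt (t * s)) ^ (-(3 / 2 : ℝ)) :=
      Real.rpow_le_rpow_of_nonpos (Real.sqrt_pos.mpr hts) h3 (by norm_num)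
    have h5 : (Real.sqrt (t * s)) ^ (-(3 / 2 : ℝ)) =
        t ^ ((1 / 4 : ℝ) - 1) * s ^ ((1 / 4 : ℝ) - 1) := by
      rw [Real.sqrt_eq_rpow, ← Real.rpow_mul hts.le, Real.mul_rpow ht.le hs.le]
      norm_num
    have h6 : (1 + |t - s|)⁻¹ * (1 + |t - s|) ^ (-(1 / 2 : ℝ)) =
        (1 + |t - s|) ^ (-(3 / 2 : ℝ)) := by
      rw [← Real.rpow_neg_one, ← Real.rpow_add hx]
      norm_num
    have h7 : (1 + |t - s|)⁻¹ * (1 + ρ) ^ (-(1 / 2 : ℝ)) ≤
        (1 + |t - s|)⁻¹ * (1 + |t - s|) ^ (-(1 / 2 : ℝ)) :=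
      mul_le_mul_of_nonneg_left h2 (by positivity)
    rw [h6] at h7
    rw [h5] at h4
    linarith only [hA, h4, h7]

/-- the double integral -/
theorem kh_two {K : Type} [Fintype K] (A B : K → ℂ) (hA : ∀ k, (A k).re < 0)
    (hB : ∀ k, (B k).re < 0) :
    ∑ k, (A k)⁻¹ * (B k)⁻¹ = ∫ t in Ioi (0 : ℝ), ∫ s in Ioi (0 : ℝ),
      ∑ k, Complex.exp (A k * t) * Complex.exp (B k * s) := by
  have h1 : ∀ t : ℝ, ∫ s in Ioi (0 : ℝ), ∑ k, Complex.exp (A k * t) * Complex.exp (B k * s) =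
      ∑ k, Complex.exp (A k * t) * (-(B k)⁻¹) := by
    intro t
    rw [integral_finsetSum _ fun k _ =>
      (integrableOn_exp_mul_complex_Ioi (hB k) 0).const_mul _]
    refine Finset.sum_congr rfl fun k _ => ?_
    rw [integral_const_mul, integral_exp_mul_complex_Ioi (hB k) 0]
    congr 1
    simp [neg_div]
  simp_rw [h1]
  rw [integral_finsetSum _ fun k _ =>
      (integrableOn_exp_mul_complex_Ioi (hA k) 0).mul_const _]
  refine Finset.sum_congr rfl fun k _ => ?_
  rw [integral_mul_const, integral_exp_mul_complex_Ioi (hA k) 0]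
  simp [neg_div]

/-- the bound of a double integral -/
theorem kh_main {w σ c m : ℝ} (F : ℝ → ℝ → ℂ) (hw : 0 < w) (hw2 : w ≤ 1 / 2) (hσ : 0 ≤ σ)
    (hσ1 : σ ≤ 1) (hc : 0 ≤ c) (hm : 300 / w ^ 2 ≤ m)
    (hF : ∀ t s : ℝ, 0 < t → 0 < s → ‖F t s‖ ≤
      c * (Real.exp (-(w * t)) * Real.exp (-(w * s)) *
        ((1 + σ * t) ^ (-(1 / 2 : ℝ)) * (1 + |t - s|)⁻¹ +
          t ^ ((1 / 4 : ℝ) - 1) * s ^ ((1 / 4 : ℝ) - 1))) +
      Real.exp (-(w / 2 * t)) * Real.exp (-(w / 2 * s)) * Real.exp (-(w * m / 80))) :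
    ‖∫ t in Ioi (0 : ℝ), ∫ s in Ioi (0 : ℝ), F t s‖ ≤
      (c * (9 + 2 * Real.Gamma (1 / 4) ^ 2) + 1) * (1 + Real.log (1 / w)) / w *
        Real.sqrt (w / (w + σ)) := by
  have hw4 : 0 < w / 2 := by positivity
  set Γ := Real.Gamma (1 / 4) with hΓ
  obtain ⟨hg1, hg2⟩ := kh_gam (a := 1 / 4) (by norm_num) hw
  obtain ⟨ho1, ho2⟩ := kh_out hw hσ
  set X := Real.exp (-(w * m / 80)) with hX
  set l := 1 + Real.log (1 / w) with hl
  have hl1 : 1 ≤ l := by
    have : 0 ≤ Real.log (1 / w) := Real.log_nonneg (by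
      rw [le_div_iff₀ hw]
      linarith only [hw, hw2])
    linarith only [this]
  set Q := Real.sqrt (w / (w + σ)) with hQ
  set g := (1 / w) ^ (1 / 4 : ℝ) * Γ with hg
  have hgpos : 0 ≤ g := mul_nonneg (by positivity) (Real.Gamma_pos_of_pos (by norm_num)).le
  -- the inner bound
  have hin : ∀ t : ℝ, 0 < t → ‖∫ s in Ioi (0 : ℝ), F t s‖ ≤
      c * (3 * l * (Real.exp (-(w * t)) * (1 + σ * t) ^ (-(1 / 2 : ℝ))) +
        g * (t ^ ((1 / 4 : ℝ) - 1) * Real.exp (-(w * t)))) +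
        X * (2 / w) * Real.exp (-(w / 2 * t)) := by
    intro t ht
    obtain ⟨hl1', hl2⟩ := kh_log (t := t) hw hw2
    have e0 : Integrable (fun s : ℝ => c * ((Real.exp (-(w * t)) *
        (1 + σ * t) ^ (-(1 / 2 : ℝ))) * (Real.exp (-(w * s)) * (1 + |t - s|)⁻¹)) +
        c * ((t ^ ((1 / 4 : ℝ) - 1) * Real.exp (-(w * t))) *
          (s ^ ((1 / 4 : ℝ) - 1) * Real.exp (-(w * s))))) (volume.restrict (Ioi 0)) :=
      ((hl1'.const_mul _).const_mul _).add ((hg1.const_mul _).const_mul _)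
    have e1 : Integrable (fun s : ℝ => c * ((Real.exp (-(w * t)) *
        (1 + σ * t) ^ (-(1 / 2 : ℝ))) * (Real.exp (-(w * s)) * (1 + |t - s|)⁻¹)) +
        c * ((t ^ ((1 / 4 : ℝ) - 1) * Real.exp (-(w * t))) *
          (s ^ ((1 / 4 : ℝ) - 1) * Real.exp (-(w * s)))) +
        (X * Real.exp (-(w / 2 * t))) * Real.exp (-(w / 2 * s))) (volume.restrict (Ioi 0)) :=
      e0.add ((kh_exp hw4).1.const_mul _)
    refine (norm_integral_le_of_norm_le e1 ?_).trans ?_
    · refine (ae_restrict_mem measurableSet_Ioi).mono fun s hs => ?_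
      refine (hF t s ht hs).trans (le_of_eq ?_)
      ring
    · rw [integral_add e0 ((kh_exp hw4).1.const_mul _),
        integral_add ((hl1'.const_mul _).const_mul _) ((hg1.const_mul _).const_mul _),
        integral_const_mul, integral_const_mul, integral_const_mul, integral_const_mul,
        integral_const_mul, hg2, (kh_exp hw4).2]
      have h1 : c * (Real.exp (-(w * t)) * (1 + σ * t) ^ (-(1 / 2 : ℝ)) *
          ∫ s in Ioi (0 : ℝ), Real.exp (-(w * s)) * (1 + |t - s|)⁻¹) ≤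
          c * (Real.exp (-(w * t)) * (1 + σ * t) ^ (-(1 / 2 : ℝ)) * (3 * l)) := by
        refine mul_le_mul_of_nonneg_left (mul_le_mul_of_nonneg_left hl2 ?_) hc
        have := mul_nonneg hσ ht.le
        positivity
      have h2 : 1 / (w / 2) = 2 / w := by field_simp
      rw [h2]
      refine (add_le_add_left (add_le_add_left h1 _) _).trans (le_of_eq ?_)
      ring
  have e3 : Integrable (fun t : ℝ => c * (3 * l * (Real.exp (-(w * t)) *
      (1 + σ * t) ^ (-(1 / 2 : ℝ))) + g * (t ^ ((1 / 4 : ℝ) - 1) * Real.exp (-(w * t)))))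
      (volume.restrict (Ioi 0)) :=
    ((ho1.const_mul _).add (hg1.const_mul _)).const_mul _
  have e2 : Integrable (fun t : ℝ => c * (3 * l * (Real.exp (-(w * t)) *
      (1 + σ * t) ^ (-(1 / 2 : ℝ))) + g * (t ^ ((1 / 4 : ℝ) - 1) * Real.exp (-(w * t)))) +
      X * (2 / w) * Real.exp (-(w / 2 * t))) (volume.restrict (Ioi 0)) :=
    e3.add ((kh_exp hw4).1.const_mul _)
  refine (norm_integral_le_of_norm_le e2 ?_).trans ?_
  · exact (ae_restrict_mem measurableSet_Ioi).mono fun t ht => hin t ht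
  · rw [integral_add e3 ((kh_exp hw4).1.const_mul _), integral_const_mul,
      integral_add (ho1.const_mul _) (hg1.const_mul _), integral_const_mul, integral_const_mul,
      integral_const_mul, hg2, (kh_exp hw4).2]
    have hw' : 0 < 1 / w := by positivity
    -- numbers
    have hQ0 : 0 ≤ Q := Real.sqrt_nonneg _
    have hQ1 : w ≤ Q := by
      refine Real.le_sqrt_of_sq_le ?_
      rw [le_div_iff₀ (by linarith only [hw, hσ])]
      nlinarith only [hw, hw2, hσ1]
    have hQ2 : Real.sqrt w ≤ 2 * Q := by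
      have h1 : 2 * Q = Real.sqrt (2 ^ 2 * (w / (w + σ))) := by
        rw [Real.sqrt_mul (by positivity), Real.sqrt_sq (by positivity)]
      rw [h1]
      refine Real.sqrt_le_sqrt ?_
      have h2 : (2 : ℝ) ^ 2 * (w / (w + σ)) = 4 * w / (w + σ) := by ring
      rw [h2, le_div_iff₀ (by linarith only [hw, hσ])]
      nlinarith only [hw, hw2, hσ1]
    have hgg : g * g ≤ Γ ^ 2 * (2 * Q / w) := by
      have h1 : g * g = Γ ^ 2 * (Real.sqrt w / w) := by
        have h2 : (1 / w) ^ (1 / 4 : ℝ) * (1 / w) ^ (1 / 4 : ℝ) = Real.sqrt w / w := by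
          rw [← Real.rpow_add hw']
          have h3 : (1 / 4 : ℝ) + 1 / 4 = 1 / 2 := by norm_num
          rw [h3, ← Real.sqrt_eq_rpow, Real.sqrt_div (by norm_num), Real.sqrt_one]
          rw [div_eq_div_iff (Real.sqrt_pos.mpr hw).ne' hw.ne', one_mul,
            Real.mul_self_sqrt hw.le]
        calc g * g = Γ ^ 2 * ((1 / w) ^ (1 / 4 : ℝ) * (1 / w) ^ (1 / 4 : ℝ)) := by
              rw [hg]
              ring
          _ = _ := by rw [h2]
      rw [h1]
      refine mul_le_mul_of_nonneg_left ?_ (sq_nonneg _)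
      exact div_le_div_of_nonneg_right hQ2 hw.le
    have hXb : X * (2 / w) * (1 / (w / 2)) ≤ Q / w := by
      have h1 : 300 / 80 / w ≤ w * m / 80 := by
        have h2 : w * (300 / w ^ 2) ≤ w * m := mul_le_mul_of_nonneg_left hm hw.le
        have h3 : w * (300 / w ^ 2) = 300 / w := by field_simp
        rw [h3] at h2
        have h4 : (300 : ℝ) / 80 / w = 300 / w / 80 := by ring
        rw [h4]
        linarith only [h2]
      set y := w * m / 80 with hy
      have hy0 : 0 < y := lt_of_lt_of_le (by positivity) h1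
      have h5 : Real.exp (-y) ≤ 2 / y ^ 2 := by
        have h6 : y ^ 2 / 2 ≤ Real.exp y := by
          have := Real.quadratic_le_exp_of_nonneg hy0.le
          linarith only [hw, hw2, hy0, this]
        rw [Real.exp_neg, le_div_iff₀ (by positivity)]
        rw [inv_mul_le_iff₀ (Real.exp_pos _)]
        linarith only [h6]
      have h7 : (3.75 / w) ^ 2 ≤ y ^ 2 := by
        refine pow_le_pow_left₀ (by positivity) ?_ 2
        refine le_trans (le_of_eq ?_) h1
        norm_num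
      have h8 : 2 / y ^ 2 ≤ 2 / (3.75 / w) ^ 2 :=
        div_le_div_of_nonneg_left (by norm_num) (by positivity) h7
      have h9 : X ≤ 2 / (3.75 / w) ^ 2 := h5.trans h8
      have h10 : X * (2 / w) * (1 / (w / 2)) ≤ 2 / (3.75 / w) ^ 2 * (2 / w) * (1 / (w / 2)) := by
        refine mul_le_mul_of_nonneg_right (mul_le_mul_of_nonneg_right h9 ?_) ?_ <;> positivity
      have h11 : 2 / (3.75 / w) ^ 2 * (2 / w) * (1 / (w / 2)) = 8 / 3.75 ^ 2 := by
        field_simp
        norm_num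
      have h12 : (1 : ℝ) ≤ Q / w := by
        rw [le_div_iff₀ hw]
        linarith only [hQ1]
      have h13 : (8 : ℝ) / 3.75 ^ 2 ≤ 1 := by norm_num
      linarith only [hw, hw2, h10, h11, h12]
    have h14 : 3 * l * ∫ t in Ioi (0 : ℝ), Real.exp (-(w * t)) *
        (1 + σ * t) ^ (-(1 / 2 : ℝ)) ≤ 3 * l * (3 / w * Q) :=
      mul_le_mul_of_nonneg_left ho2 (by linarith only [hw, hw2, hl1])
    have h15 : c * (3 * l * (∫ t in Ioi (0 : ℝ), Real.exp (-(w * t)) *
        (1 + σ * t) ^ (-(1 / 2 : ℝ))) + g * ((1 / w) ^ (1 / 4 : ℝ) * Real.Gamma (1 / 4))) ≤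
        c * (3 * l * (3 / w * Q) + Γ ^ 2 * (2 * Q / w)) :=
      mul_le_mul_of_nonneg_left (add_le_add h14 hgg) hc
    have hQw : 0 ≤ Q / w := by positivity
    have h16 : Q / w ≤ l * (Q / w) := le_mul_of_one_le_left hQw hl1
    have h17 : c * Γ ^ 2 * 2 * (Q / w) ≤ c * Γ ^ 2 * 2 * (l * (Q / w)) :=
      mul_le_mul_of_nonneg_left h16 (by positivity)
    have h18 : (c * (9 + 2 * Γ ^ 2) + 1) * l / w * Q =
        9 * c * (l * (Q / w)) + c * Γ ^ 2 * 2 * (l * (Q / w)) + l * (Q / w) := by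
      ring
    have h19 : c * (3 * l * (3 / w * Q) + Γ ^ 2 * (2 * Q / w)) =
        9 * c * (l * (Q / w)) + c * Γ ^ 2 * 2 * (Q / w) := by
      field_simp
      ring
    rw [h18]
    rw [h19] at h15
    linarith only [hXb, h15, h16, h17]

open Pool.Agent.LE.QF Pool.Agent.LE.QD Pool.Agent.LE.IR Pool.Agent.BED

/-- the exponential factor -/
noncomputable def ef {M : ℕ} [NeZero M] (a : ℂ) (x : ZMod M) : ℂ :=
  Complex.exp (Complex.I * ((2 * (a * ZMod.stdAddChar x).re : ℝ) : ℂ))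

theorem ef_norm {M : ℕ} [NeZero M] (a : ℂ) (x : ZMod M) : ‖ef a x‖ = 1 := by
  rw [ef, mul_comm, Complex.norm_exp_ofReal_mul_I]

theorem jc_le_one {M : ℕ} [NeZero M] (a : ℂ) : ‖jc M a‖ ≤ 1 := by
  have hM : (0 : ℝ) < M := by exact_mod_cast NeZero.pos M
  have h1 : jc M a = (∑ k : ZMod M, ef a k) / (M : ℂ) := rfl
  rw [h1, norm_div, Complex.norm_natCast, div_le_one hM]
  refine (norm_sum_le _ _).trans ?_
  simp [ef_norm, ZMod.card]

theorem ef_sum {d M : ℕ} [NeZero M] (a : Fin d → ℂ) :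
    (∑ k : Fin d → ZMod M, ∏ j, ef (a j) (k j)) / (M : ℂ) ^ d = ∏ j, jc M (a j) := by
  have h1 : (∏ j, ∑ x : ZMod M, ef (a j) x) = ∑ k : Fin d → ZMod M, ∏ j, ef (a j) (k j) := by
    rw [Finset.prod_univ_sum, Fintype.piFinset_univ]
  rw [← h1]
  have h2 : ∀ j, jc M (a j) = (∑ x : ZMod M, ef (a j) x) / (M : ℂ) := fun j => rfl
  simp only [h2]
  rw [Finset.prod_div_distrib]
  simp

theorem ch_re {M : ℕ} [NeZero M] (x : ZMod M) :
    (ZMod.stdAddChar x : ℂ) =
      Complex.exp (((2 * Real.pi * (x.valMinAbs : ℝ) / M : ℝ) : ℂ) * Complex.I) := by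
  have h := ZMod.stdAddChar_coe (N := M) x.valMinAbs
  rw [ZMod.coe_valMinAbs] at h
  rw [h]
  congr 1
  push_cast
  ring

theorem es_eq {d M : ℕ} [NeZero M] (k : Tor d M) :
    es k = ∑ j, 2 * (ZMod.stdAddChar (k j) : ℂ).re := by
  have h1 : ∀ j, (ZMod.stdAddChar (k j) : ℂ).re =
      Real.cos (2 * Real.pi * ((k j).valMinAbs : ℝ) / M) := by
    intro j
    rw [ch_re, Complex.exp_ofReal_mul_I_re]
  simp only [h1, es, ds, mul_sub, mul_one, Finset.sum_sub_distrib]
  simp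
  ring

/-- the squares of the norms -/
theorem nrm_sin (t s : ℝ) (θ : ℝ) :
    ‖(-(t : ℂ) + (s : ℂ) * Complex.exp (((2 * θ : ℝ) : ℂ) * Complex.I))‖ ^ 2 =
      (t - s) ^ 2 + 4 * t * s * |Real.sin θ| ^ 2 := by
  rw [← Complex.normSq_eq_norm_sq, Complex.normSq_apply, sq_abs]
  have h1 : (-(t : ℂ) + (s : ℂ) * Complex.exp (((2 * θ : ℝ) : ℂ) * Complex.I)).re =
      -t + s * Real.cos (2 * θ) := by
    rw [Complex.add_re, Complex.neg_re, Complex.ofReal_re, Complex.re_ofReal_mul,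
      Complex.exp_ofReal_mul_I_re]
  have h2 : (-(t : ℂ) + (s : ℂ) * Complex.exp (((2 * θ : ℝ) : ℂ) * Complex.I)).im =
      s * Real.sin (2 * θ) := by
    rw [Complex.add_im, Complex.neg_im, Complex.ofReal_im, Complex.im_ofReal_mul,
      Complex.exp_ofReal_mul_I_im, neg_zero, zero_add]
  rw [h1, h2]
  have h3 := Real.sin_sq_add_cos_sq (2 * θ)
  have h4 : Real.cos (2 * θ) = 1 - 2 * Real.sin θ ^ 2 := by
    rw [Real.cos_two_mul, Real.sin_sq]
    ring
  have h5 : (-t + s * Real.cos (2 * θ)) * (-t + s * Real.cos (2 * θ)) +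
      s * Real.sin (2 * θ) * (s * Real.sin (2 * θ)) =
      t ^ 2 - 2 * t * s * Real.cos (2 * θ) +
        s ^ 2 * (Real.sin (2 * θ) ^ 2 + Real.cos (2 * θ) ^ 2) := by ring
  rw [h5, h3, h4]
  ring

theorem nrm_cos (t s : ℝ) (θ : ℝ) :
    ‖(-(t : ℂ) - (s : ℂ) * Complex.exp (((2 * θ : ℝ) : ℂ) * Complex.I))‖ ^ 2 =
      (t - s) ^ 2 + 4 * t * s * |Real.cos θ| ^ 2 := by
  rw [← Complex.normSq_eq_norm_sq, Complex.normSq_apply, sq_abs]
  have h1 : (-(t : ℂ) - (s : ℂ) * Complex.exp (((2 * θ : ℝ) : ℂ) * Complex.I)).re =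
      -t - s * Real.cos (2 * θ) := by
    rw [Complex.sub_re, Complex.neg_re, Complex.ofReal_re, Complex.re_ofReal_mul,
      Complex.exp_ofReal_mul_I_re]
  have h2 : (-(t : ℂ) - (s : ℂ) * Complex.exp (((2 * θ : ℝ) : ℂ) * Complex.I)).im =
      -(s * Real.sin (2 * θ)) := by
    rw [Complex.sub_im, Complex.neg_im, Complex.ofReal_im, Complex.im_ofReal_mul,
      Complex.exp_ofReal_mul_I_im, neg_zero, zero_sub]
  rw [h1, h2]
  have h3 := Real.sin_sq_add_cos_sq (2 * θ)
  have h4 : Real.cos (2 * θ) = 2 * Real.cos θ ^ 2 - 1 := Real.cos_two_mul θ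
  have h5 : (-t - s * Real.cos (2 * θ)) * (-t - s * Real.cos (2 * θ)) +
      -(s * Real.sin (2 * θ)) * -(s * Real.sin (2 * θ)) =
      t ^ 2 + 2 * t * s * Real.cos (2 * θ) +
        s ^ 2 * (Real.sin (2 * θ) ^ 2 + Real.cos (2 * θ) ^ 2) := by ring
  rw [h5, h3, h4]
  ring

/-- the product of the Bessel functions -/
theorem kh_prod {C : ℝ} (hC : 1 ≤ C) {d M : ℕ} [NeZero M] (hd : 3 ≤ d)
    (hJ : ∀ a : ℂ, ‖a‖ ≤ M / 40 → ‖jc M a‖ ≤ C * (1 + ‖a‖) ^ (-(1 / 2 : ℝ)))
    (a : Fin d → ℂ) (σ : Fin d → ℝ) (t s : ℝ) (ht : 0 < t) (hs : 0 < s)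
    (hσ : ∀ j, 0 ≤ σ j ∧ σ j ≤ 1)
    (ha : ∀ j, ‖a j‖ ^ 2 = (t - s) ^ 2 + 4 * t * s * σ j ^ 2) (i : Fin d)
    (hts : t + s ≤ M / 40) :
    ∏ j, ‖jc M (a j)‖ ≤ C ^ 3 * ((1 + |t - s|)⁻¹ * (1 + ‖a i‖) ^ (-(1 / 2 : ℝ))) := by
  have hC0 : 0 ≤ C := by linarith only [hC]
  have hpos := mul_pos ht hs
  have habs := abs_nonneg (t - s)
  have hx : 0 < 1 + |t - s| := by linarith only [habs]
  have h1 : ∀ j, |t - s| ≤ ‖a j‖ := fun j => by
    refine abs_le_of_sq_le_sq ?_ (norm_nonneg _)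
    rw [ha j]
    have := sq_nonneg (σ j)
    have h2 : 0 ≤ 4 * t * s * σ j ^ 2 := by positivity
    linarith only [h2]
  have h2 : ∀ j, ‖a j‖ ≤ M / 40 := fun j => by
    refine le_trans ?_ hts
    refine abs_le_of_sq_le_sq' ?_ (by linarith only [ht, hs]) |>.2
    rw [ha j]
    have h3 : σ j ^ 2 ≤ 1 := by
      have := hσ j
      nlinarith only [this]
    have h4 : 4 * t * s * σ j ^ 2 ≤ 4 * t * s * 1 := mul_le_mul_of_nonneg_left h3 (by positivity)
    nlinarith only [h4]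
  set b := C * (1 + |t - s|) ^ (-(1 / 2 : ℝ)) with hb
  have hb0 : 0 ≤ b := by positivity
  have h3 : ∀ j, ‖jc M (a j)‖ ≤ b := fun j => by
    refine (hJ _ (h2 j)).trans (mul_le_mul_of_nonneg_left ?_ hC0)
    exact Real.rpow_le_rpow_of_nonpos hx (by linarith only [h1 j]) (by norm_num)
  set b' := min 1 b with hb'
  have hb'0 : 0 ≤ b' := le_min zero_le_one hb0
  have h4 : ∀ j, ‖jc M (a j)‖ ≤ b' := fun j => le_min (jc_le_one _) (h3 j)
  have h5 : ∏ j ∈ Finset.univ.erase i, ‖jc M (a j)‖ ≤ b' ^ (d - 1) := by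
    refine (Finset.prod_le_prod (fun j _ => norm_nonneg _) fun j _ => h4 j).trans (le_of_eq ?_)
    rw [Finset.prod_const, Finset.card_erase_of_mem (Finset.mem_univ i), Finset.card_univ,
      Fintype.card_fin]
  have h6 : b' ^ (d - 1) ≤ b ^ 2 :=
    (pow_le_pow_of_le_one hb'0 (min_le_left _ _) (by omega : 2 ≤ d - 1)).trans
      (pow_le_pow_left₀ hb'0 (min_le_right _ _) 2)
  have h7 : b ^ 2 = C ^ 2 * (1 + |t - s|)⁻¹ := by
    rw [hb, mul_pow, ← Real.rpow_natCast ((1 + |t - s|) ^ (-(1 / 2 : ℝ))) 2,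
      ← Real.rpow_mul hx.le]
    have e1 : (-(1 / 2 : ℝ)) * ((2 : ℕ) : ℝ) = -1 := by norm_num
    rw [e1, Real.rpow_neg_one]
  rw [← Finset.mul_prod_erase Finset.univ _ (Finset.mem_univ i)]
  have h8 : ∏ j ∈ Finset.univ.erase i, ‖jc M (a j)‖ ≤ C ^ 2 * (1 + |t - s|)⁻¹ := by
    rw [← h7]
    exact h5.trans h6
  calc ‖jc M (a i)‖ * ∏ j ∈ Finset.univ.erase i, ‖jc M (a j)‖ ≤
      (C * (1 + ‖a i‖) ^ (-(1 / 2 : ℝ))) * (C ^ 2 * (1 + |t - s|)⁻¹) :=
        mul_le_mul (hJ _ (h2 i)) h8 (Finset.prod_nonneg fun j _ => norm_nonneg _) (by positivity)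
    _ = _ := by ring

/-- both cases -/
theorem kh_fin {C : ℝ} (hC : 1 ≤ C) {d M : ℕ} [NeZero M] (hd : 3 ≤ d)
    (hJ : ∀ a : ℂ, ‖a‖ ≤ M / 40 → ‖jc M a‖ ≤ C * (1 + ‖a‖) ^ (-(1 / 2 : ℝ)))
    (a : ℝ → ℝ → Fin d → ℂ) (σ : Fin d → ℝ) (hσ : ∀ j, 0 ≤ σ j ∧ σ j ≤ 1)
    (ha : ∀ t s j, ‖a t s j‖ ^ 2 = (t - s) ^ 2 + 4 * t * s * σ j ^ 2) (i : Fin d)
    (F : ℝ → ℝ → ℂ) (w : ℝ) (hw : 0 < w) (hw2 : w ≤ 1 / 2) (hm : 300 / w ^ 2 ≤ M)
    (hF : ∀ t s : ℝ, 0 < t → 0 < s → ‖F t s‖ =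
      Real.exp (-(w * t)) * Real.exp (-(w * s)) * ∏ j, ‖jc M (a t s j)‖) :
    ‖∫ t in Ioi (0 : ℝ), ∫ s in Ioi (0 : ℝ), F t s‖ ≤
      (C ^ 3 * (9 + 2 * Real.Gamma (1 / 4) ^ 2) + 1) * (1 + Real.log (1 / w)) / w *
        Real.sqrt (w / (w + σ i)) := by
  refine kh_main F hw hw2 (hσ i).1 (hσ i).2 (by positivity) hm fun t s ht hs => ?_
  rw [hF t s ht hs]
  have hE : 0 ≤ Real.exp (-(w / 2 * t)) * Real.exp (-(w / 2 * s)) *
      Real.exp (-(w * (M : ℝ) / 80)) := by positivity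
  have hσi := (hσ i).1
  have hP : 0 ≤ (1 + σ i * t) ^ (-(1 / 2 : ℝ)) * (1 + |t - s|)⁻¹ +
          t ^ ((1 / 4 : ℝ) - 1) * s ^ ((1 / 4 : ℝ) - 1) := by
    have := mul_nonneg hσi ht.le
    positivity
  rcases le_or_gt (t + s) (M / 40 : ℝ) with h | h
  · have h1 := kh_prod hC hd hJ (a t s) σ t s ht hs hσ (ha t s) i h
    have h2 := kh_pw ht hs hσi (norm_nonneg (a t s i)) (ha t s i)
    have h3 : ∏ j, ‖jc M (a t s j)‖ ≤ C ^ 3 * ((1 + σ i * t) ^ (-(1 / 2 : ℝ)) *
        (1 + |t - s|)⁻¹ + t ^ ((1 / 4 : ℝ) - 1) * s ^ ((1 / 4 : ℝ) - 1)) :=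
      h1.trans (mul_le_mul_of_nonneg_left h2 (by positivity))
    have h4 : Real.exp (-(w * t)) * Real.exp (-(w * s)) * ∏ j, ‖jc M (a t s j)‖ ≤
        Real.exp (-(w * t)) * Real.exp (-(w * s)) * (C ^ 3 * ((1 + σ i * t) ^ (-(1 / 2 : ℝ)) *
        (1 + |t - s|)⁻¹ + t ^ ((1 / 4 : ℝ) - 1) * s ^ ((1 / 4 : ℝ) - 1))) :=
      mul_le_mul_of_nonneg_left h3 (by positivity)
    refine h4.trans ?_
    have h5 : Real.exp (-(w * t)) * Real.exp (-(w * s)) * (C ^ 3 * ((1 + σ i * t) ^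
        (-(1 / 2 : ℝ)) * (1 + |t - s|)⁻¹ + t ^ ((1 / 4 : ℝ) - 1) * s ^ ((1 / 4 : ℝ) - 1))) =
        C ^ 3 * (Real.exp (-(w * t)) * Real.exp (-(w * s)) * ((1 + σ i * t) ^
        (-(1 / 2 : ℝ)) * (1 + |t - s|)⁻¹ + t ^ ((1 / 4 : ℝ) - 1) * s ^ ((1 / 4 : ℝ) - 1))) := by
      ring
    rw [h5]
    linarith only [hE]
  · have h1 : ∏ j, ‖jc M (a t s j)‖ ≤ 1 :=
      Finset.prod_le_one (fun j _ => norm_nonneg _) fun j _ => jc_le_one _
    have h2 : Real.exp (-(w * t)) * Real.exp (-(w * s)) * ∏ j, ‖jc M (a t s j)‖ ≤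
        Real.exp (-(w * t)) * Real.exp (-(w * s)) * 1 :=
      mul_le_mul_of_nonneg_left h1 (by positivity)
    refine h2.trans ?_
    have h3 : Real.exp (-(w * t)) * Real.exp (-(w * s)) * 1 ≤
        Real.exp (-(w / 2 * t)) * Real.exp (-(w / 2 * s)) * Real.exp (-(w * (M : ℝ) / 80)) := by
      rw [mul_one, ← Real.exp_add, ← Real.exp_add, ← Real.exp_add]
      refine Real.exp_le_exp.mpr ?_
      have h4 : w * (M / 40) ≤ w * (t + s) := mul_le_mul_of_nonneg_left h.le hw.le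
      linarith only [h4]
    refine h3.trans ?_
    have h5 : 0 ≤ C ^ 3 * (Real.exp (-(w * t)) * Real.exp (-(w * s)) * ((1 + σ i * t) ^
        (-(1 / 2 : ℝ)) * (1 + |t - s|)⁻¹ + t ^ ((1 / 4 : ℝ) - 1) * s ^ ((1 / 4 : ℝ) - 1))) := by
      positivity
    linarith only [h5]

theorem khb (hJ : JcbStmt) : KhbStmt := by
  obtain ⟨C, hC, hJ⟩ := hJ
  intro d hd
  have hΓ : 0 ≤ Real.Gamma (1 / 4) ^ 2 := sq_nonneg _
  have hC3 : 0 ≤ C ^ 3 * (9 + 2 * Real.Gamma (1 / 4) ^ 2) := by positivity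
  set K := C ^ 3 * (9 + 2 * Real.Gamma (1 / 4) ^ 2) + 1 with hK
  refine ⟨K + 300, by linarith only [hC3], ?_⟩
  intro M _ z p i hz hz2 hM
  set w := z.im with hw
  have hM0 : (0 : ℝ) < M := by exact_mod_cast NeZero.pos M
  have hMc : (M : ℂ) ^ d ≠ 0 := pow_ne_zero _ (by exact_mod_cast (NeZero.pos M).ne')
  have hm : 300 / w ^ 2 ≤ (M : ℝ) := by
    refine le_trans ?_ hM
    exact div_le_div_of_nonneg_right (by linarith only [hC3, hz, hz2]) (by positivity)
  have hlog : 0 ≤ Real.log (1 / w) := Real.log_nonneg (by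
    rw [le_div_iff₀ hz]
    linarith only [hz, hz2])
  have hfin : ∀ σ : ℝ, K * (1 + Real.log (1 / w)) / w * Real.sqrt (w / (w + σ)) ≤
      (K + 300) * (1 + Real.log (1 / w)) / w * Real.sqrt (w / (w + σ)) := by
    intro σ
    refine mul_le_mul_of_nonneg_right ?_ (Real.sqrt_nonneg _)
    refine div_le_div_of_nonneg_right ?_ hz.le
    exact mul_le_mul_of_nonneg_right (by linarith only [hz, hz2]) (by linarith only [hz, hz2, hlog])
  have hθ : ∀ j, (ZMod.stdAddChar (p j) : ℂ) = Complex.exp (((2 * (Real.pi *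
      ((p j).valMinAbs : ℝ) / M) : ℝ) : ℂ) * Complex.I) := by
    intro j
    rw [ch_re]
    congr 2
    push_cast
    ring
  constructor
  · -- kh
    set A : Tor d M → ℂ := fun k => -(Complex.I * ((es k : ℂ) - z)) with hA
    set B : Tor d M → ℂ := fun k => Complex.I * ((es (k + p) : ℂ) - (starRingEnd ℂ) z) with hB
    have hAre : ∀ k, (A k).re = -w := fun k => by
      simp [hA, hw]
    have hBre : ∀ k, (B k).re = -w := fun k => by
      simp [hB, hw]
    set F : ℝ → ℝ → ℂ := fun t s =>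
      (∑ k, Complex.exp (A k * t) * Complex.exp (B k * s)) / (M : ℂ) ^ d with hF
    have h1 : kh z p = ∫ t in Ioi (0 : ℝ), ∫ s in Ioi (0 : ℝ), F t s := by
      have h2 := kh_two A B (fun k => by rw [hAre]; linarith only [hz]) fun k => by rw [hBre]; linarith only [hz]
      simp only [hF, integral_div]
      rw [← h2, kh]
      congr 1
      refine Finset.sum_congr rfl fun k _ => ?_
      rw [map_inv₀, map_sub, Complex.conj_ofReal, ← mul_inv, ← mul_inv]
      congr 1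
      simp only [hA, hB]
      linear_combination (((es k : ℂ) - z) * ((es (k + p) : ℂ) - (starRingEnd ℂ) z)) *
        Complex.I_mul_I
    rw [h1]
    refine (kh_fin hC hd (hJ M) (fun t s j => -(t : ℂ) + (s : ℂ) * ZMod.stdAddChar (p j))
      (fun j => |Real.sin (Real.pi * ((p j).valMinAbs : ℝ) / M)|)
      (fun j => ⟨abs_nonneg _, Real.abs_sin_le_one _⟩) (fun t s j => ?_) i F w hz hz2 hm ?_).trans
        (hfin _)
    · rw [hθ j, nrm_sin]
    · intro t s _ _
      have h3 : F t s = Complex.exp (Complex.I * z * t - Complex.I * (starRingEnd ℂ) z * s) *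
          ∏ j, jc M (-(t : ℂ) + (s : ℂ) * ZMod.stdAddChar (p j)) := by
        rw [← ef_sum, hF]
        simp only []
        rw [← mul_div_assoc, Finset.mul_sum]
        congr 1
        refine Finset.sum_congr rfl fun k _ => ?_
        simp only [ef]
        rw [← Complex.exp_sum, ← Complex.exp_add, ← Complex.exp_add, ← Finset.mul_sum]
        congr 1
        have h4 : (∑ j, ((2 * ((-(t : ℂ) + (s : ℂ) * ZMod.stdAddChar (p j)) *
            ZMod.stdAddChar (k j)).re : ℝ) : ℂ)) = ((-t * es k + s * es (k + p) : ℝ) : ℂ) := by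
          rw [← Complex.ofReal_sum]
          congr 1
          rw [es_eq, es_eq, Finset.mul_sum, Finset.mul_sum, ← Finset.sum_add_distrib]
          refine Finset.sum_congr rfl fun j _ => ?_
          rw [Pi.add_apply, AddChar.map_add_eq_mul]
          simp only [Complex.mul_re, Complex.add_re, Complex.neg_re, Complex.ofReal_re,
            Complex.add_im, Complex.neg_im, Complex.ofReal_im, Complex.mul_im]
          ring
        rw [h4]
        simp only [hA, hB]
        push_cast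
        ring
      rw [h3, norm_mul, norm_prod, Complex.norm_exp]
      congr 1
      rw [← Real.exp_add]
      congr 1
      simp [hw]
      ring
  · -- bh
    set A : Tor d M → ℂ := fun k => -(Complex.I * ((es k : ℂ) - z)) with hA
    set B : Tor d M → ℂ := fun k => -(Complex.I * ((es (p - k) : ℂ) - z)) with hB
    have hAre : ∀ k, (A k).re = -w := fun k => by
      simp [hA, hw]
    have hBre : ∀ k, (B k).re = -w := fun k => by
      simp [hB, hw]
    set F : ℝ → ℝ → ℂ := fun t s =>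
      (∑ k, Complex.exp (A k * t) * Complex.exp (B k * s)) / (M : ℂ) ^ d with hF
    have h1 : -(bh z p) = ∫ t in Ioi (0 : ℝ), ∫ s in Ioi (0 : ℝ), F t s := by
      have h2 := kh_two A B (fun k => by rw [hAre]; linarith only [hz]) fun k => by rw [hBre]; linarith only [hz]
      simp only [hF, integral_div]
      rw [← h2, bh, ← neg_div]
      congr 1
      rw [← Finset.sum_neg_distrib]
      refine Finset.sum_congr rfl fun k _ => ?_
      rw [← mul_inv, ← mul_inv, ← inv_neg]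
      congr 1
      simp only [hA, hB]
      linear_combination (-((es k : ℂ) - z) * ((es (p - k) : ℂ) - z)) * Complex.I_mul_I
    rw [← norm_neg, h1]
    refine (kh_fin hC hd (hJ M)
      (fun t s j => -(t : ℂ) - (s : ℂ) * (starRingEnd ℂ) (ZMod.stdAddChar (p j)))
      (fun j => |Real.cos (Real.pi * ((p j).valMinAbs : ℝ) / M)|)
      (fun j => ⟨abs_nonneg _, Real.abs_cos_le_one _⟩) (fun t s j => ?_) i F w hz hz2 hm ?_).trans
        (hfin _)
    · have h5 : -(t : ℂ) - (s : ℂ) * (starRingEnd ℂ) (ZMod.stdAddChar (p j)) =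
          (starRingEnd ℂ) (-(t : ℂ) - (s : ℂ) * ZMod.stdAddChar (p j)) := by
        rw [map_sub, map_neg, map_mul, Complex.conj_ofReal, Complex.conj_ofReal]
      rw [h5, RCLike.norm_conj, hθ j, nrm_cos]
    · intro t s _ _
      have h3 : F t s = Complex.exp (Complex.I * z * t + Complex.I * z * s) *
          ∏ j, jc M (-(t : ℂ) - (s : ℂ) * (starRingEnd ℂ) (ZMod.stdAddChar (p j))) := by
        rw [← ef_sum, hF]
        simp only []
        rw [← mul_div_assoc, Finset.mul_sum]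
        congr 1
        refine Finset.sum_congr rfl fun k _ => ?_
        simp only [ef]
        rw [← Complex.exp_sum, ← Complex.exp_add, ← Complex.exp_add, ← Finset.mul_sum]
        congr 1
        have h4 : (∑ j, ((2 * ((-(t : ℂ) - (s : ℂ) * (starRingEnd ℂ) (ZMod.stdAddChar (p j))) *
            ZMod.stdAddChar (k j)).re : ℝ) : ℂ)) = ((-t * es k - s * es (p - k) : ℝ) : ℂ) := by
          rw [← Complex.ofReal_sum]
          congr 1
          rw [es_eq, es_eq, Finset.mul_sum, Finset.mul_sum, ← Finset.sum_sub_distrib]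
          refine Finset.sum_congr rfl fun j _ => ?_
          rw [Pi.sub_apply, sub_eq_add_neg (p j) (k j), AddChar.map_add_eq_mul,
            AddChar.map_neg_eq_conj]
          simp only [Complex.mul_re, Complex.sub_re, Complex.neg_re, Complex.ofReal_re,
            Complex.sub_im, Complex.neg_im, Complex.ofReal_im, Complex.mul_im, Complex.conj_re,
            Complex.conj_im]
          ring
        rw [h4]
        simp only [hA, hB]
        push_cast
        ring
      rw [h3, norm_mul, norm_prod, Complex.norm_exp]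
      congr 1
      rw [← Real.exp_add]
      congr 1
      simp [hw]

end Pool.Agent.LE.QF.H8
end -- Pool.Agent.Helper8_LQF.KHB
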