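import Pool.Agent.Helper12_MEB.B116

/-!
# Merged copies (generated) of the modules

* `Pool.Agent.Helper17_LSP.HSU`
* `Pool.Agent.Helper17_LSP.BLK`
* `Pool.Agent.Helper32_LIR.BLE`
* `Pool.Agent.Helper8_LYM.PRB`
-/

set_option autoImplicit false

section -- Pool.Agent.Helper17_LSP.HSU

/-!
# HSU (squad LSP): the upper bound in the Hilbert-Schmidt norm
-/

set_option autoImplicit false

open MeasureTheory Function

open scoped BigOperators ComplexConjugate

noncomputable section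

namespace Pool.Agent.LE.CL.H17

open Pool.Agent.Anderson hiding box mem_box card_box
open Pool.Agent.LE.MN
open Pool.Agent.LE.CL

variable {d : ℕ}

/-! ### linear combinations -/

theorem lin_zero {C : Finset (Site d)} {ψ : Site d → Site d → ℂ} {y : Site d} (v : C → ℂ)
    (h : ∀ x ∈ C, ψ x y = 0) : lin C ψ v y = 0 := by
  unfold lin
  refine Finset.sum_eq_zero fun x _ => ?_
  rw [h x x.2, mul_zero]

theorem lin_lap (C : Finset (Site d)) (ψ : Site d → Site d → ℂ) (v : C → ℂ) (y : Site d) :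
    lap (lin C ψ v) y = ∑ x : C, v x * lap (ψ x) y := by
  unfold lap lin
  simp only [Finset.mul_sum, mul_add]
  rw [Finset.sum_comm]
  simp only [Finset.sum_add_distrib]

/-- the equation for the linear combinations -/
theorem lin_eq {C : Finset (Site d)} {D : Site d → ℝ} {ψ F e : Site d → Site d → ℂ} {E : ℝ}
    (h : ∀ x ∈ C, ∀ y, lap (ψ x) y + (D y : ℂ) * ψ x y - (E : ℂ) * ψ x y =
      F x y + e x y - if y = x then 1 else 0) (v : C → ℂ) (y : Site d) :
    lap (lin C ψ v) y + (D y : ℂ) * lin C ψ v y - (E : ℂ) * lin C ψ v y =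
      lin C F v y + lin C e v y - lin C (fun x y => if y = x then 1 else 0) v y := by
  rw [lin_lap]
  unfold lin
  rw [Finset.mul_sum, Finset.mul_sum, ← Finset.sum_add_distrib, ← Finset.sum_sub_distrib,
    ← Finset.sum_add_distrib, ← Finset.sum_sub_distrib]
  refine Finset.sum_congr rfl fun x _ => ?_
  have := h x x.2 y
  linear_combination v x * this

theorem hatS_lin_delta {C B : Finset (Site d)} (hCB : C ⊆ B) (v : C → ℂ)
    (θ : UnitAddTorus (Fin d)) :
    hatS B (lin C (fun x y => if y = x then 1 else 0) v) θ = hatV v θ := by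
  unfold hatS hatV lin
  simp only [Finset.sum_mul]
  rw [Finset.sum_comm]
  refine Finset.sum_congr rfl fun x _ => ?_
  rw [Finset.sum_eq_single (x : Site d)]
  · rw [if_pos rfl, mul_one]
  · intro y _ hy
    rw [if_neg hy, mul_zero, zero_mul]
  · intro h
    exact absurd (hCB x.2) h

theorem hatS_sub_set {C' B : Finset (Site d)} (hCB : C' ⊆ B) {w : Site d → ℂ}
    (hw : ∀ y, y ∉ C' → w y = 0) (θ : UnitAddTorus (Fin d)) : hatS B w θ = hatS C' w θ := by
  unfold hatS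
  symm
  refine Finset.sum_subset hCB fun y _ hy => ?_
  rw [hw y hy, zero_mul]

theorem hatS_add (B : Finset (Site d)) (w z : Site d → ℂ) (θ : UnitAddTorus (Fin d)) :
    hatS B (fun y => w y + z y) θ = hatS B w θ + hatS B z θ := by
  unfold hatS
  rw [← Finset.sum_add_distrib]
  exact Finset.sum_congr rfl fun y _ => add_mul _ _ _

theorem hatS_sub (B : Finset (Site d)) (w z : Site d → ℂ) (θ : UnitAddTorus (Fin d)) :
    hatS B (fun y => w y - z y) θ = hatS B w θ - hatS B z θ := by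
  unfold hatS
  rw [← Finset.sum_sub_distrib]
  exact Finset.sum_congr rfl fun y _ => sub_mul _ _ _

theorem hatS_smul (B : Finset (Site d)) (c : ℂ) (w : Site d → ℂ) (θ : UnitAddTorus (Fin d)) :
    hatS B (fun y => c * w y) θ = c * hatS B w θ := by
  unfold hatS
  rw [Finset.mul_sum]
  exact Finset.sum_congr rfl fun y _ => mul_assoc _ _ _

variable {C C' B : Finset (Site d)} {D : Site d → ℝ} {ψ F e : Site d → Site d → ℂ}
  {E η ω ε τ : ℝ}

/-- the Fourier transform of the equation -/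
theorem hat_eq (h : Sys C C' B D ψ F e E η ω ε τ) (v : C → ℂ) (θ : UnitAddTorus (Fin d)) :
    ((sy θ - E : ℝ) : ℂ) * hatS C' (lin C ψ v) θ =
      hatS B (lin C F v) θ + hatS B (lin C e v) θ - hatV v θ -
        hatS C' (fun y => (D y : ℂ) * lin C ψ v y) θ := by
  obtain ⟨h1, h2, h3, h4, h5, -, -, -, -⟩ := h
  have hg : ∀ y, y ∉ C' → lin C ψ v y = 0 := fun y hy => lin_zero v fun x hx => h4 x hx y hy
  have e1 := hat_lap (Λ := C') (Λ' := B) (w := lin C ψ v) hg (fun y hy i => h3 y hy i) θ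
  have e2 : hatS B (lap (lin C ψ v)) θ =
      hatS B (fun y => lin C F v y + lin C e v y -
        lin C (fun x y => if y = x then 1 else 0) v y - (D y : ℂ) * lin C ψ v y +
          (E : ℂ) * lin C ψ v y) θ := by
    congr 1
    funext y
    have := lin_eq h5 v y
    linear_combination this
  rw [hatS_add, hatS_sub, hatS_sub, hatS_add, hatS_smul, hatS_lin_delta (h1.trans h2),
    hatS_sub_set h2 hg, hatS_sub_set h2 (w := fun y => (D y : ℂ) * lin C ψ v y)
      (fun y hy => by rw [hg y hy, mul_zero])] at e2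
  push_cast
  rw [sub_mul, ← e1, e2]
  ring

theorem norm_sq_four (a b c e : ℂ) : ‖a + b - c - e‖ ^ 2 ≤
    4 * (‖a‖ ^ 2 + ‖b‖ ^ 2 + ‖c‖ ^ 2 + ‖e‖ ^ 2) := by
  have h1 : ‖a + b - c - e‖ ≤ ‖a‖ + ‖b‖ + ‖c‖ + ‖e‖ := by
    calc ‖a + b - c - e‖ ≤ ‖a + b - c‖ + ‖e‖ := norm_sub_le _ _
      _ ≤ ‖a + b‖ + ‖c‖ + ‖e‖ := by linarith [norm_sub_le (a + b) c]
      _ ≤ _ := by linarith [norm_add_le a b]
  have h2 : 0 ≤ ‖a + b - c - e‖ := norm_nonneg _
  nlinarith [sq_nonneg (‖a‖ - ‖b‖), sq_nonneg (‖a‖ - ‖c‖), sq_nonneg (‖a‖ - ‖e‖),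
    sq_nonneg (‖b‖ - ‖c‖), sq_nonneg (‖b‖ - ‖e‖), sq_nonneg (‖c‖ - ‖e‖)]

/-! ### Bessel -/

theorem bes_hat {v : C → C → ℂ} (hv : Bes C v) (θ : UnitAddTorus (Fin d)) :
    ∑ k, ‖hatV (v k) θ‖ ^ 2 ≤ C.card := by
  have h := hv (fun x => ch (x : Site d) θ)
  have h1 : ∀ k, ∑ x : C, ch (x : Site d) θ * v k x = hatV (v k) θ := by
    intro k
    unfold hatV
    exact Finset.sum_congr rfl fun x _ => mul_comm _ _
  simp only [h1, norm_ch, one_pow, Finset.sum_const, Finset.card_univ, Fintype.card_coe,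
    nsmul_eq_mul, mul_one] at h
  exact h

theorem bes_lin {v : C → C → ℂ} (hv : Bes C v) {e : Site d → Site d → ℂ}
    (he : ∀ x ∈ C, ∑ y ∈ B, ‖e x y‖ ^ 2 ≤ ε) :
    ∑ k, ∑ y ∈ B, ‖lin C e (v k) y‖ ^ 2 ≤ C.card * ε := by
  rw [Finset.sum_comm]
  calc ∑ y ∈ B, ∑ k, ‖lin C e (v k) y‖ ^ 2 ≤ ∑ y ∈ B, ∑ x : C, ‖e x y‖ ^ 2 := by
        refine Finset.sum_le_sum fun y _ => ?_
        have h := hv (fun x => e x y)
        have h1 : ∀ k, ∑ x : C, e x y * v k x = lin C e (v k) y := by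
          intro k
          unfold lin
          exact Finset.sum_congr rfl fun x _ => mul_comm _ _
        simp only [h1] at h
        exact h
    _ = ∑ x : C, ∑ y ∈ B, ‖e x y‖ ^ 2 := Finset.sum_comm
    _ ≤ ∑ _x : C, ε := Finset.sum_le_sum fun x _ => he x x.2
    _ = C.card * ε := by
        rw [Finset.sum_const, Finset.card_univ, Fintype.card_coe, nsmul_eq_mul]

/-! ### the weighted sums -/

theorem int_nn {f g : UnitAddTorus (Fin d) → ℝ} (hf : Continuous f) (hg : Continuous g)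
    (h : ∀ θ, f θ ≤ g θ) : ∫ θ, f θ ≤ ∫ θ, g θ :=
  integral_mono (integrable_of_cont hf) (integrable_of_cont hg) h

theorem int4 {f₁ f₂ f₃ f₄ : UnitAddTorus (Fin d) → ℝ} (h₁ : Continuous f₁) (h₂ : Continuous f₂)
    (h₃ : Continuous f₃) (h₄ : Continuous f₄) :
    ∫ θ, 4 * (f₁ θ + f₂ θ + f₃ θ + f₄ θ) =
      4 * ((∫ θ, f₁ θ) + (∫ θ, f₂ θ) + (∫ θ, f₃ θ) + (∫ θ, f₄ θ)) := by
  have i₁ := integrable_of_cont h₁
  have i₂ := integrable_of_cont h₂
  have i₃ := integrable_of_cont h₃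
  have i₄ := integrable_of_cont h₄
  have e1 : ∫ θ, (f₁ θ + f₂ θ + f₃ θ + f₄ θ) = (∫ θ, (f₁ θ + f₂ θ + f₃ θ)) + ∫ θ, f₄ θ :=
    integral_add ((i₁.add i₂).add i₃) i₄
  have e2 : ∫ θ, (f₁ θ + f₂ θ + f₃ θ) = (∫ θ, (f₁ θ + f₂ θ)) + ∫ θ, f₃ θ :=
    integral_add (i₁.add i₂) i₃
  have e3 : ∫ θ, (f₁ θ + f₂ θ) = (∫ θ, f₁ θ) + ∫ θ, f₂ θ := integral_add i₁ i₂
  rw [integral_const_mul, e1, e2, e3]

theorem main_ineq (h : Sys C C' B D ψ F e E η ω ε τ) (v : C → C → ℂ)
    {ρ : UnitAddTorus (Fin d) → ℝ} (hρ : Continuous ρ) (hρ0 : ∀ θ, 0 ≤ ρ θ) :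
    ∑ k, ∫ θ, ρ θ * ((sy θ - E) ^ 2 * ‖hatS C' (lin C ψ (v k)) θ‖ ^ 2) ≤
      4 * ((∑ k, ∫ θ, ρ θ * ‖hatS B (lin C F (v k)) θ‖ ^ 2) +
        (∑ k, ∫ θ, ρ θ * ‖hatS B (lin C e (v k)) θ‖ ^ 2) +
        (∑ k, ∫ θ, ρ θ * ‖hatV (v k) θ‖ ^ 2) +
        (∑ k, ∫ θ, ρ θ * ‖hatS C' (fun y => (D y : ℂ) * lin C ψ (v k) y) θ‖ ^ 2)) := by
  have hc : ∀ (Λ : Finset (Site d)) (w : Site d → ℂ),
      Continuous fun θ : UnitAddTorus (Fin d) => ρ θ * ‖hatS Λ w θ‖ ^ 2 := fun Λ w =>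
    hρ.mul ((continuous_hatS Λ w).norm.pow 2)
  have hcv : ∀ w : C → ℂ, Continuous fun θ : UnitAddTorus (Fin d) => ρ θ * ‖hatV w θ‖ ^ 2 :=
    fun w => hρ.mul ((continuous_hatV w).norm.pow 2)
  rw [← Finset.sum_add_distrib, ← Finset.sum_add_distrib, ← Finset.sum_add_distrib,
    Finset.mul_sum]
  refine Finset.sum_le_sum fun k _ => ?_
  have hsy := continuous_sy (d := d)
  refine le_trans ?_ (int4 (hc B (lin C F (v k))) (hc B (lin C e (v k))) (hcv (v k))
    (hc C' (fun y => (D y : ℂ) * lin C ψ (v k) y))).le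
  refine int_nn ?_ ?_ fun θ => ?_
  · exact hρ.mul (((hsy.sub continuous_const).pow 2).mul
      ((continuous_hatS _ _).norm.pow 2))
  · exact continuous_const.mul ((((hc _ _).add (hc _ _)).add (hcv _)).add (hc _ _))
  · have h1 := hat_eq h (v k) θ
    have h2 : (sy θ - E) ^ 2 * ‖hatS C' (lin C ψ (v k)) θ‖ ^ 2 =
        ‖hatS B (lin C F (v k)) θ + hatS B (lin C e (v k)) θ - hatV (v k) θ -
          hatS C' (fun y => (D y : ℂ) * lin C ψ (v k) y) θ‖ ^ 2 := by
      rw [← h1, norm_mul, mul_pow, Complex.norm_real, Real.norm_eq_abs, sq_abs]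
    rw [h2]
    have h3 := norm_sq_four (hatS B (lin C F (v k)) θ) (hatS B (lin C e (v k)) θ)
      (hatV (v k) θ) (hatS C' (fun y => (D y : ℂ) * lin C ψ (v k) y) θ)
    have h4 := mul_le_mul_of_nonneg_left h3 (hρ0 θ)
    linarith only [h4]

theorem sum_int_le {ρ : UnitAddTorus (Fin d) → ℝ} (hρ : Continuous ρ) {b : ℝ}
    (hb : ∀ θ, ρ θ ≤ b) (Λ : Finset (Site d)) (w : C → Site d → ℂ) :
    ∑ k, ∫ θ, ρ θ * ‖hatS Λ (w k) θ‖ ^ 2 ≤ b * ∑ k, ∑ y ∈ Λ, ‖w k y‖ ^ 2 := by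
  rw [Finset.mul_sum]
  refine Finset.sum_le_sum fun k _ => ?_
  rw [← parsevalS, ← integral_const_mul]
  refine int_nn (hρ.mul ((continuous_hatS _ _).norm.pow 2))
    (continuous_const.mul ((continuous_hatS _ _).norm.pow 2)) fun θ => ?_
  exact mul_le_mul_of_nonneg_right (hb θ) (by positivity)

theorem sum_hatV_le {v : C → C → ℂ} (hv : Bes C v) {ρ : UnitAddTorus (Fin d) → ℝ}
    (hρ : Continuous ρ) (hρ0 : ∀ θ, 0 ≤ ρ θ) :
    ∑ k, ∫ θ, ρ θ * ‖hatV (v k) θ‖ ^ 2 ≤ C.card * ∫ θ, ρ θ := by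
  have hc : ∀ k, Continuous fun θ : UnitAddTorus (Fin d) => ρ θ * ‖hatV (v k) θ‖ ^ 2 :=
    fun k => hρ.mul ((continuous_hatV (v k)).norm.pow 2)
  have hi : ∀ k ∈ Finset.univ,
      Integrable fun θ : UnitAddTorus (Fin d) => ρ θ * ‖hatV (v k) θ‖ ^ 2 :=
    fun k _ => integrable_of_cont (hc k)
  rw [← integral_finsetSum _ hi, ← integral_const_mul]
  refine int_nn ?_ (continuous_const.mul hρ) fun θ => ?_
  · exact continuous_finsetSum _ fun k _ => hρ.mul ((continuous_hatV (v k)).norm.pow 2)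
  · rw [← Finset.mul_sum, mul_comm]
    exact mul_le_mul_of_nonneg_right (bes_hat hv θ) (hρ0 θ)

/-! ### the two inequalities -/

theorem arith_hs {a Y N η t L K κ P : ℝ} (hη : 0 < η) (ha : 0 ≤ a) (hY : 0 ≤ Y) (hN : 0 ≤ N)
    (ht : 0 ≤ t) (hL : 1 ≤ L) (htL : t * L ≤ 1 / 64) (hK : 0 ≤ K) (hκ : κ ≤ K * L)
    (h1 : Y ≤ η * a + 4 * (η * a / 4096 + N + N * κ + t * Y))
    (h2 : η * a ≤ 8 * (η * a / 4096 + N + P * N + t * Y)) (hP : 0 ≤ P) :
    a ≤ ((16 * (1 + P) + 2 * (1 + K)) * 2 + 8 * (1 + K)) * N / η ∧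
      Y ≤ ((16 * (1 + P) + 2 * (1 + K)) * 2 + 8 * (1 + K)) * N * L := by
  set b := η * a with hb
  have hb0 : 0 ≤ b := by positivity
  have ht1 : t ≤ 1 / 64 := by nlinarith only [ht, hL, htL]
  have htY : t * Y ≤ 1 / 64 * Y := mul_le_mul_of_nonneg_right ht1 hY
  have hNκ : N * κ ≤ N * (K * L) := mul_le_mul_of_nonneg_left hκ hN
  have hNKL : 0 ≤ N * (K * L) := by positivity
  have hY2 : Y ≤ 2 * b + 8 * (N * (1 + K * L)) := by
    rw [mul_add N, mul_one]
    linarith only [hY, hN, h1, htY, hNκ, hNKL]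
  have hKL : K * (t * L) ≤ K * (1 / 64) := mul_le_mul_of_nonneg_left htL hK
  have htY2 : t * Y ≤ b / 32 + N * (1 + K) / 8 := by
    have e1 : t * Y ≤ t * (2 * b + 8 * (N * (1 + K * L))) := mul_le_mul_of_nonneg_left hY2 ht
    have e2 : t * b ≤ 1 / 64 * b := mul_le_mul_of_nonneg_right ht1 hb0
    have e3 : N * (t + K * (t * L)) ≤ N * (1 / 64 + K * (1 / 64)) :=
      mul_le_mul_of_nonneg_left (by linarith only [ht1, hKL]) hN
    nlinarith only [e1, e2, e3]
  have hbN : b ≤ (16 * (1 + P) + 2 * (1 + K)) * N := by nlinarith only [h2, hb0, htY2]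
  have hPN : 0 ≤ P * N := by positivity
  have hKN : 0 ≤ K * N := by positivity
  constructor
  · rw [le_div_iff₀ hη]
    have : a * η = b := by rw [hb]; ring
    rw [this]
    nlinarith only [hN, h2, hb0, htY2, hKN]
  · have hNL : N * 1 ≤ N * L := mul_le_mul_of_nonneg_left hL hN
    have hPL : P * N * 1 ≤ P * N * L := mul_le_mul_of_nonneg_left hL hPN
    have hKL' : K * N * 1 ≤ K * N * L := mul_le_mul_of_nonneg_left hL hKN
    nlinarith only [hY, h1, h2, hb0, htY, hNκ, hNL, hPL]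

theorem hsu : HsuStmt := by
  intro d hd
  set K : ℝ := 1 + 1024 * Real.pi with hKdef
  set P : ℝ := 128 * Real.pi with hPdef
  have hπ := Real.pi_pos
  have hK0 : 0 ≤ K := by positivity
  have hP0 : 0 ≤ P := by positivity
  refine ⟨1 / 64, (16 * (1 + P) + 2 * (1 + K)) * 2 + 8 * (1 + K), by norm_num, by nlinarith only [hπ], ?_⟩
  intro C C' B D ψ F e E η ω ε τ v hη hη1 hω hωη hε hτ hτL hs hv hA
  have hs' := hs
  obtain ⟨h1, h2, h3, h4, h5, h6, hF, he, hKF⟩ := hs'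
  have hL : 1 ≤ 1 + Real.log (1 / η) := by
    have : 0 ≤ Real.log (1 / η) := Real.log_nonneg (by rw [le_div_iff₀ hη]; linarith only [hη1])
    linarith only [this]
  have hκ := kap_le hd E hη hη1
  set a : ℝ := ∑ k, ∑ y ∈ C', ‖lin C ψ (v k) y‖ ^ 2 with hadef
  set Y : ℝ := ∑ k, ∫ θ, md E η θ * ‖hatS C' (lin C ψ (v k)) θ‖ ^ 2 with hYdef
  have ha0 : 0 ≤ a := Finset.sum_nonneg fun k _ => Finset.sum_nonneg fun y _ => by positivity
  have hmd : ∀ θ : UnitAddTorus (Fin d), 0 < md E η θ := fun θ => md_pos hη θ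
  have hY0 : 0 ≤ Y := Finset.sum_nonneg fun k _ => integral_nonneg fun θ => by
    have := hmd θ
    positivity
  have hg : ∀ k, ∀ y, y ∉ C' → lin C ψ (v k) y = 0 := fun k y hy =>
    lin_zero (v k) fun x hx => h4 x hx y hy
  have hcm : Continuous fun θ : UnitAddTorus (Fin d) => md E η θ := continuous_md E η
  have hcmi : Continuous fun θ : UnitAddTorus (Fin d) => (md E η θ)⁻¹ :=
    hcm.inv₀ fun θ => (hmd θ).ne'
  have hsy := continuous_sy (d := d)
  have hden : ∀ θ : UnitAddTorus (Fin d), 0 < (sy θ - E) ^ 2 + η ^ 2 := fun θ => by positivity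
  have hcX : Continuous fun θ : UnitAddTorus (Fin d) => (sy θ - E) ^ 2 + η ^ 2 := by fun_prop
  have hcρ : Continuous fun θ : UnitAddTorus (Fin d) => ((sy θ - E) ^ 2 + η ^ 2)⁻¹ :=
    hcX.inv₀ fun θ => (hden θ).ne'
  have hcn : ∀ k, Continuous fun θ : UnitAddTorus (Fin d) =>
      ‖hatS C' (lin C ψ (v k)) θ‖ ^ 2 := fun k => (continuous_hatS _ _).norm.pow 2
  have hpars : ∀ k, ∫ θ, ‖hatS C' (lin C ψ (v k)) θ‖ ^ 2 = ∑ y ∈ C', ‖lin C ψ (v k) y‖ ^ 2 :=
    fun k => parsevalS _ _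
  have hsq : ∀ θ : UnitAddTorus (Fin d), md E η θ ^ 2 = (sy θ - E) ^ 2 + η ^ 2 := fun θ =>
    Real.sq_sqrt (hden θ).le
  have hminv : ∀ θ : UnitAddTorus (Fin d), (md E η θ)⁻¹ ≤ η⁻¹ := fun θ =>
    inv_anti₀ hη (md_ge hη θ)
  have hρm : ∀ θ : UnitAddTorus (Fin d), ((sy θ - E) ^ 2 + η ^ 2)⁻¹ ≤ η⁻¹ * (md E η θ)⁻¹ := by
    intro θ
    rw [← hsq θ, sq, mul_inv]
    exact mul_le_mul_of_nonneg_right (hminv θ) (inv_nonneg.2 (hmd θ).le)
  have hρb : ∀ θ : UnitAddTorus (Fin d), ((sy θ - E) ^ 2 + η ^ 2)⁻¹ ≤ (η ^ 2)⁻¹ := fun θ =>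
    inv_anti₀ (by positivity) (by nlinarith only [sq_nonneg (sy θ - E)])
  -- the norms of the right side
  have hFs : ∑ k, ∑ y ∈ B, ‖lin C F (v k) y‖ ^ 2 ≤ ω ^ 2 * a := by
    rw [hadef, Finset.mul_sum]
    exact Finset.sum_le_sum fun k _ => hF (v k)
  have hes : ∑ k, ∑ y ∈ B, ‖lin C e (v k) y‖ ^ 2 ≤ C.card * ε := bes_lin hv he
  have hN : (0 : ℝ) ≤ C.card := Nat.cast_nonneg _
  have hω2 : ω ^ 2 ≤ η ^ 2 / 4096 := by
    have := pow_le_pow_left₀ hω hωη 2
    nlinarith only [this]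
  -- the D term
  have hD1 : ∑ k, ∫ θ, (md E η θ)⁻¹ *
      ‖hatS C' (fun y => (D y : ℂ) * lin C ψ (v k) y) θ‖ ^ 2 ≤ τ ^ 2 * Y := by
    rw [hYdef, Finset.mul_sum]
    exact Finset.sum_le_sum fun k _ => hKF _ (hg k)
  have hD2 : ∑ k, ∫ θ, ((sy θ - E) ^ 2 + η ^ 2)⁻¹ *
      ‖hatS C' (fun y => (D y : ℂ) * lin C ψ (v k) y) θ‖ ^ 2 ≤ η⁻¹ * (τ ^ 2 * Y) := by
    refine le_trans ?_ (mul_le_mul_of_nonneg_left hD1 (inv_nonneg.2 hη.le))
    rw [Finset.mul_sum]
    refine Finset.sum_le_sum fun k _ => ?_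
    rw [← integral_const_mul]
    refine int_nn (hcρ.mul ((continuous_hatS _ _).norm.pow 2))
      (continuous_const.mul (hcmi.mul ((continuous_hatS _ _).norm.pow 2))) fun θ => ?_
    rw [← mul_assoc]
    exact mul_le_mul_of_nonneg_right (hρm θ) (by positivity)
  -- the first inequality
  have hI1 : Y ≤ η * a + ∑ k, ∫ θ, (md E η θ)⁻¹ *
      ((sy θ - E) ^ 2 * ‖hatS C' (lin C ψ (v k)) θ‖ ^ 2) := by
    rw [hYdef, hadef, Finset.mul_sum, ← Finset.sum_add_distrib]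
    refine Finset.sum_le_sum fun k _ => ?_
    rw [← hpars k, ← integral_const_mul]
    have hc1 : Continuous fun θ : UnitAddTorus (Fin d) =>
        η * ‖hatS C' (lin C ψ (v k)) θ‖ ^ 2 := continuous_const.mul (hcn k)
    have hc2 : Continuous fun θ : UnitAddTorus (Fin d) => (md E η θ)⁻¹ *
        ((sy θ - E) ^ 2 * ‖hatS C' (lin C ψ (v k)) θ‖ ^ 2) :=
      hcmi.mul (((hsy.sub continuous_const).pow 2).mul (hcn k))
    rw [← integral_add (integrable_of_cont hc1) (integrable_of_cont hc2)]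
    refine int_nn (hcm.mul (hcn k)) (hc1.add hc2) fun θ => ?_
    have hm := hmd θ
    have e1 : md E η θ ≤ η + (md E η θ)⁻¹ * (sy θ - E) ^ 2 := by
      have e2 : md E η θ = (md E η θ)⁻¹ * ((sy θ - E) ^ 2 + η ^ 2) := by
        rw [← hsq θ]
        field_simp
      have e3 : (md E η θ)⁻¹ * η ^ 2 ≤ η := by
        calc (md E η θ)⁻¹ * η ^ 2 ≤ η⁻¹ * η ^ 2 :=
              mul_le_mul_of_nonneg_right (hminv θ) (by positivity)
          _ = η := by field_simp
      nlinarith only [e2, e3]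
    have e4 := mul_le_mul_of_nonneg_right e1 (sq_nonneg ‖hatS C' (lin C ψ (v k)) θ‖)
    calc md E η θ * ‖hatS C' (lin C ψ (v k)) θ‖ ^ 2 ≤ _ := e4
      _ = _ := by ring
  have hM1 := main_ineq hs v hcmi fun θ => (inv_nonneg.2 (hmd θ).le)
  have hF1 := sum_int_le (C := C) hcmi hminv B (fun k => lin C F (v k))
  have hE1 := sum_int_le (C := C) hcmi hminv B (fun k => lin C e (v k))
  have hV1 := sum_hatV_le hv hcmi fun θ => (inv_nonneg.2 (hmd θ).le)
  have hηi : 0 < η⁻¹ := inv_pos.2 hη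
  have hF1' : η⁻¹ * (ω ^ 2 * a) ≤ η * a / 4096 := by
    have := mul_le_mul_of_nonneg_left (mul_le_mul_of_nonneg_right hω2 ha0) hηi.le
    refine this.trans (le_of_eq ?_)
    field_simp
  have hE1' : η⁻¹ * (C.card * ε) ≤ C.card := by
    have := mul_le_mul_of_nonneg_left (mul_le_mul_of_nonneg_left hε hN) hηi.le
    refine this.trans (le_of_eq ?_)
    field_simp
  have hR1 : Y ≤ η * a + 4 * (η * a / 4096 + C.card + C.card * kap d E η + τ ^ 2 * Y) := by
    have t1 := mul_le_mul_of_nonneg_left hFs hηi.le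
    have t2 := mul_le_mul_of_nonneg_left hes hηi.le
    have t3 : (C.card : ℝ) * kap d E η = C.card * ∫ θ : UnitAddTorus (Fin d), (md E η θ)⁻¹ := rfl
    linarith only [hD1, hI1, hM1, hF1, hE1, hV1, hF1', hE1', t1, t2, t3]
  -- the second inequality
  have hI2 : a ≤ 2 * ∑ k, ∫ θ, ((sy θ - E) ^ 2 + η ^ 2)⁻¹ *
      ((sy θ - E) ^ 2 * ‖hatS C' (lin C ψ (v k)) θ‖ ^ 2) := by
    rw [hadef, Finset.mul_sum]
    refine Finset.sum_le_sum fun k _ => ?_
    have hc1 : Continuous fun θ : UnitAddTorus (Fin d) =>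
        η ^ 2 / ((sy θ - E) ^ 2 + η ^ 2) * ‖hatS C' (lin C ψ (v k)) θ‖ ^ 2 :=
      (continuous_const.div hcX fun θ => (hden θ).ne').mul (hcn k)
    have hc2 : Continuous fun θ : UnitAddTorus (Fin d) => ((sy θ - E) ^ 2 + η ^ 2)⁻¹ *
        ((sy θ - E) ^ 2 * ‖hatS C' (lin C ψ (v k)) θ‖ ^ 2) :=
      hcρ.mul (((hsy.sub continuous_const).pow 2).mul (hcn k))
    have e1 : ∑ y ∈ C', ‖lin C ψ (v k) y‖ ^ 2 =
        (∫ θ, η ^ 2 / ((sy θ - E) ^ 2 + η ^ 2) * ‖hatS C' (lin C ψ (v k)) θ‖ ^ 2) +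
        ∫ θ, ((sy θ - E) ^ 2 + η ^ 2)⁻¹ *
          ((sy θ - E) ^ 2 * ‖hatS C' (lin C ψ (v k)) θ‖ ^ 2) := by
      rw [← integral_add (integrable_of_cont hc1) (integrable_of_cont hc2), ← hpars k]
      refine integral_congr_ae (Filter.Eventually.of_forall fun θ => ?_)
      have := (hden θ).ne'
      simp only []
      field_simp
      ring
    have e2 := hA k
    linarith only [e1, e2]
  have hM2 := main_ineq hs v hcρ fun θ => (inv_nonneg.2 (hden θ).le)
  have hF2 := sum_int_le (C := C) hcρ hρb B (fun k => lin C F (v k))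
  have hE2 := sum_int_le (C := C) hcρ hρb B (fun k => lin C e (v k))
  have hV2 := sum_hatV_le hv hcρ fun θ => (inv_nonneg.2 (hden θ).le)
  have hker : ∫ θ : UnitAddTorus (Fin d), ((sy θ - E) ^ 2 + η ^ 2)⁻¹ ≤ η⁻¹ * P := by
    have e1 : ∫ θ : UnitAddTorus (Fin d), ((sy θ - E) ^ 2 + η ^ 2)⁻¹ =
        η⁻¹ * ∫ θ : UnitAddTorus (Fin d), ker η (sy θ - E) := by
      rw [← integral_const_mul]
      refine integral_congr_ae (Filter.Eventually.of_forall fun θ => ?_)
      simp only [ker]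
      have := (hden θ).ne'
      field_simp
    rw [e1]
    exact mul_le_mul_of_nonneg_left (integral_ker_le hd hη E) hηi.le
  have hR2 : η * a ≤ 8 * (η * a / 4096 + C.card + P * C.card + τ ^ 2 * Y) := by
    have hη2 : (0 : ℝ) < (η ^ 2)⁻¹ := by positivity
    have t1 := mul_le_mul_of_nonneg_left hFs hη2.le
    have t2 := mul_le_mul_of_nonneg_left hes hη2.le
    have t3 := mul_le_mul_of_nonneg_left hker hN
    have u1 : (η ^ 2)⁻¹ * (ω ^ 2 * a) ≤ η⁻¹ * (η * a / 4096) := by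
      have := mul_le_mul_of_nonneg_left hF1' hηi.le
      refine le_trans (le_of_eq ?_) this
      field_simp
    have u2 : (η ^ 2)⁻¹ * (C.card * ε) ≤ η⁻¹ * C.card := by
      have := mul_le_mul_of_nonneg_left hE1' hηi.le
      refine le_trans (le_of_eq ?_) this
      field_simp
    have u3 : a ≤ η⁻¹ * (8 * (η * a / 4096 + C.card + P * C.card + τ ^ 2 * Y)) := by
      linarith only [hD2, hI2, hM2, hF2, hE2, hV2, t1, t2, t3, u1, u2]
    have u4 := mul_le_mul_of_nonneg_left u3 hη.le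
    refine u4.trans (le_of_eq ?_)
    field_simp
  have key := arith_hs hη ha0 hY0 hN (sq_nonneg τ) hL hτL hK0 hκ hR1 hR2 hP0
  exact ⟨key.1, key.2⟩

end Pool.Agent.LE.CL.H17
end
end -- Pool.Agent.Helper17_LSP.HSU

section -- Pool.Agent.Helper17_LSP.BLK

/-!
# BLK (squad LSP): the cluster lemma
-/

set_option autoImplicit false

open MeasureTheory Function Matrix

open scoped BigOperators ComplexOrder ComplexConjugate

noncomputable section

namespace Pool.Agent.LE.CL.H17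

open Pool.Agent.Anderson hiding box mem_box card_box
open Pool.Agent.LE.MN
open Pool.Agent.LE.CL

variable {d : ℕ}

/-- the kernel matrix of a multiplier -/
def Rmat (Λ : Finset (Site d)) (ρ : UnitAddTorus (Fin d) → ℝ) : Matrix Λ Λ ℂ :=
  fun x y => ∫ θ, conj (ch (x : Site d) θ) * (ρ θ : ℝ) * ch (y : Site d) θ

theorem Rmat_form (Λ : Finset (Site d)) {ρ : UnitAddTorus (Fin d) → ℝ} (hρ : Continuous ρ)
    (v : Λ → ℂ) :
    star v ⬝ᵥ (Rmat Λ ρ *ᵥ v) = ((∫ θ, ρ θ * ‖hatV v θ‖ ^ 2 : ℝ) : ℂ) := by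
  have hint : ∀ x y : Λ, Integrable (fun θ => (conj (v x) * v y) *
      (conj (ch (x : Site d) θ) * (ρ θ : ℝ) * ch (y : Site d) θ)) := by
    intro x y
    apply integrable_of_cont
    have h2 := continuous_ch (x : Site d)
    have h3 := continuous_ch (y : Site d)
    fun_prop
  rw [← integral_complex_ofReal]
  have h1 : ∀ θ, ((ρ θ * ‖hatV v θ‖ ^ 2 : ℝ) : ℂ) = ∑ x : Λ, ∑ y : Λ,
      (conj (v x) * v y) * (conj (ch (x : Site d) θ) * (ρ θ : ℝ) * ch (y : Site d) θ) := by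
    intro θ
    have h2 : ((‖hatV v θ‖ ^ 2 : ℝ) : ℂ) = conj (hatV v θ) * hatV v θ := by
      rw [mul_comm, Complex.mul_conj, Complex.normSq_eq_norm_sq]
    rw [Complex.ofReal_mul, h2]
    unfold hatV
    rw [map_sum, Finset.sum_mul_sum, Finset.mul_sum]
    apply Finset.sum_congr rfl
    intro x _
    rw [Finset.mul_sum]
    apply Finset.sum_congr rfl
    intro y _
    rw [map_mul]
    ring
  simp only [h1]
  rw [integral_finsetSum _ (fun x _ => integrable_finsetSum _ fun y _ => hint x y)]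
  unfold dotProduct
  apply Finset.sum_congr rfl
  intro x _
  rw [integral_finsetSum _ (fun y _ => hint x y)]
  simp only [mulVec, dotProduct, Pi.star_apply, Finset.mul_sum]
  apply Finset.sum_congr rfl
  intro y _
  rw [integral_const_mul]
  unfold Rmat
  simp only [Complex.star_def]
  ring

theorem Rmat_posSemidef (Λ : Finset (Site d)) {ρ : UnitAddTorus (Fin d) → ℝ}
    (hρ : Continuous ρ) (hρ0 : ∀ θ, 0 ≤ ρ θ) : (Rmat Λ ρ).PosSemidef := by
  rw [posSemidef_iff_dotProduct_mulVec]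
  constructor
  · ext x y
    rw [conjTranspose_apply]
    unfold Rmat
    rw [Complex.star_def, ← integral_conj]
    apply integral_congr_ae
    filter_upwards with θ
    rw [map_mul, map_mul, Complex.conj_conj, Complex.conj_ofReal]
    ring
  · intro v
    rw [Rmat_form Λ hρ]
    rw [Complex.zero_le_real]
    apply integral_nonneg
    intro θ
    have := hρ0 θ
    positivity

theorem Rmat_trace (Λ : Finset (Site d)) (ρ : UnitAddTorus (Fin d) → ℝ) :
    (Matrix.trace (Rmat Λ ρ)).re = Λ.card * ∫ θ, ρ θ := by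
  have h1 : ∀ y : Λ, Rmat Λ ρ y y = ((∫ θ, ρ θ : ℝ) : ℂ) := by
    intro y
    unfold Rmat
    rw [← integral_complex_ofReal]
    apply integral_congr_ae
    filter_upwards with θ
    have h : conj (ch (y : Site d) θ) * ch (y : Site d) θ = 1 := by
      rw [mul_comm, Complex.mul_conj, Complex.normSq_eq_norm_sq, norm_ch]
      norm_num
    linear_combination ((ρ θ : ℝ) : ℂ) * h
  unfold Matrix.trace
  simp only [Matrix.diag_apply, h1, Finset.sum_const, Finset.card_univ, Fintype.card_coe,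
    nsmul_eq_mul]
  rw [← Complex.ofReal_natCast, ← Complex.ofReal_mul, Complex.ofReal_re]

/-! ### projections -/

section proj

variable {m : Type} [Fintype m] [DecidableEq m]

theorem proj_pyth {Q : Matrix m m ℂ} (hQ : Q.IsHermitian) (hQQ : Q * Q = Q) (w : m → ℂ) :
    nsq (Q *ᵥ w) + nsq ((1 - Q) *ᵥ w) = nsq w := by
  have hQH : Qᴴ = Q := hQ
  have h1 := star_dot_self (Q *ᵥ w)
  have h2 := star_dot_self ((1 - Q) *ᵥ w)
  have h3 := star_dot_self w
  have e1 : star (Q *ᵥ w) ⬝ᵥ (Q *ᵥ w) = star w ⬝ᵥ (Q *ᵥ w) := by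
    rw [star_mulVec, ← dotProduct_mulVec, mulVec_mulVec, hQH, hQQ]
  have e2 : star ((1 - Q) *ᵥ w) ⬝ᵥ ((1 - Q) *ᵥ w) = star w ⬝ᵥ ((1 - Q) *ᵥ w) := by
    have hH : (1 - Q)ᴴ = 1 - Q := by rw [conjTranspose_sub, conjTranspose_one, hQH]
    have hq : (1 - Q) * (1 - Q) = 1 - Q := by
      rw [mul_sub, mul_one, sub_mul, one_mul, hQQ]
      simp
    rw [star_mulVec, ← dotProduct_mulVec, mulVec_mulVec, hH, hq]
  have e3 : star w ⬝ᵥ (Q *ᵥ w) + star w ⬝ᵥ ((1 - Q) *ᵥ w) = star w ⬝ᵥ w := by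
    rw [← dotProduct_add, ← add_mulVec, add_sub_cancel, one_mulVec]
  rw [← e1, ← e2, h1, h2, h3] at e3
  exact_mod_cast e3

theorem vecMul_proj {Q : Matrix m m ℂ} (hQ : Q.IsHermitian) (u : m → ℂ) :
    ∑ k, ‖∑ x, u x * Q x k‖ ^ 2 = nsq (Q *ᵥ star u) := by
  unfold nsq
  refine Finset.sum_congr rfl fun k _ => ?_
  have h1 : ∑ x, u x * Q x k = star ((Q *ᵥ star u) k) := by
    simp only [mulVec, dotProduct, star_sum, star_mul', Pi.star_apply, star_star]
    refine Finset.sum_congr rfl fun x _ => ?_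
    have : star (Q k x) = Q x k := hQ.apply x k
    rw [this, mul_comm]
  rw [h1, norm_star]

theorem nsq_star (u : m → ℂ) : nsq (star u) = nsq u := by
  unfold nsq
  simp only [Pi.star_apply, norm_star]

theorem proj_hs {Q : Matrix m m ℂ} (hQ : Q.IsHermitian) (hQQ : Q * Q = Q) :
    ∑ k, nsq (fun x => Q x k) = (Matrix.trace Q).re := by
  have hQH : Qᴴ = Q := hQ
  have h1 : Matrix.trace Q = Matrix.trace (Qᴴ * Q) := by rw [hQH, hQQ]
  rw [h1]
  unfold Matrix.trace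
  simp only [Matrix.diag_apply, Complex.re_sum]
  refine Finset.sum_congr rfl fun k _ => ?_
  unfold nsq
  rw [Matrix.mul_apply, Complex.re_sum]
  refine Finset.sum_congr rfl fun x _ => ?_
  rw [conjTranspose_apply, Complex.star_def, mul_comm, Complex.mul_conj,
    Complex.normSq_eq_norm_sq, Complex.ofReal_re]

end proj

/-- the main term -/
theorem main_term {C : Finset (Site d)} {Q : Matrix C C ℂ} (hQ : Q.IsHermitian)
    (hQQ : Q * Q = Q) {q : UnitAddTorus (Fin d) → ℝ} (hq : Measurable q) {b : ℝ}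
    (hb : ∀ θ, |q θ| ≤ b) :
    |(C.card : ℝ) * (∫ θ, q θ) - ∑ k, ∫ θ, q θ * ‖hatV (fun x => Q x k) θ‖ ^ 2| ≤
      b * (Matrix.trace (1 - Q)).re := by
  have hQH : Qᴴ = Q := hQ
  have hH : (1 - Q).IsHermitian := by
    rw [Matrix.IsHermitian, conjTranspose_sub, conjTranspose_one, hQH]
  have hqq : (1 - Q) * (1 - Q) = 1 - Q := by
    rw [mul_sub, mul_one, sub_mul, one_mul, hQQ]
    simp
  have hpt : ∀ θ : UnitAddTorus (Fin d), ∑ k, ‖hatV (fun x => Q x k) θ‖ ^ 2 +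
      ∑ k, ‖hatV (fun x => (1 - Q) x k) θ‖ ^ 2 = C.card := by
    intro θ
    have h1 := vecMul_proj hQ (fun x : C => ch (x : Site d) θ)
    have h2 := vecMul_proj hH (fun x : C => ch (x : Site d) θ)
    have h3 := proj_pyth hQ hQQ (star (fun x : C => ch (x : Site d) θ))
    rw [← h1, ← h2, nsq_star] at h3
    have h4 : nsq (fun x : C => ch (x : Site d) θ) = C.card := by
      unfold nsq
      simp only [norm_ch, one_pow, Finset.sum_const, Finset.card_univ, Fintype.card_coe,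
        nsmul_eq_mul, mul_one]
    rw [h4] at h3
    unfold hatV
    simp only [mul_comm _ (ch _ _)]
    exact h3
  have hqi : Integrable q := by
    refine Integrable.of_bound hq.aestronglyMeasurable b
      (Filter.Eventually.of_forall fun θ => ?_)
    exact hb θ
  have hqh : ∀ w : C → ℂ, Integrable fun θ => q θ * ‖hatV w θ‖ ^ 2 := by
    intro w
    have h1 : Integrable fun θ => ‖hatV w θ‖ ^ 2 :=
      integrable_of_cont ((continuous_hatV w).norm.pow 2)
    exact h1.bdd_mul hq.aestronglyMeasurable (Filter.Eventually.of_forall fun θ => hb θ)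
  have e1 : (C.card : ℝ) * (∫ θ, q θ) - ∑ k, ∫ θ, q θ * ‖hatV (fun x => Q x k) θ‖ ^ 2 =
      ∫ θ, q θ * ∑ k, ‖hatV (fun x => (1 - Q) x k) θ‖ ^ 2 := by
    rw [← integral_const_mul, ← integral_finsetSum _ fun k _ => hqh _,
      ← integral_sub (hqi.const_mul _) (integrable_finsetSum _ fun k _ => hqh _)]
    refine integral_congr_ae (Filter.Eventually.of_forall fun θ => ?_)
    simp only []
    rw [← Finset.mul_sum, ← hpt θ]
    ring
  have hb0 : 0 ≤ b := (abs_nonneg _).trans (hb 0)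
  rw [e1]
  have hcs : Continuous fun θ : UnitAddTorus (Fin d) =>
      ∑ k, ‖hatV (fun x => (1 - Q) x k) θ‖ ^ 2 :=
    continuous_finsetSum _ fun k _ => (continuous_hatV _).norm.pow 2
  have hs0 : ∀ θ : UnitAddTorus (Fin d), 0 ≤ ∑ k, ‖hatV (fun x => (1 - Q) x k) θ‖ ^ 2 :=
    fun θ => Finset.sum_nonneg fun k _ => sq_nonneg _
  have s1 : |∫ θ, q θ * ∑ k, ‖hatV (fun x => (1 - Q) x k) θ‖ ^ 2| ≤
      ∫ θ, b * ∑ k, ‖hatV (fun x => (1 - Q) x k) θ‖ ^ 2 := by
    refine abs_integral_le_integral_abs.trans ?_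
    refine integral_mono_of_nonneg (Filter.Eventually.of_forall fun θ => abs_nonneg _)
      (integrable_of_cont (continuous_const.mul hcs))
      (Filter.Eventually.of_forall fun θ => ?_)
    simp only []
    rw [abs_mul, abs_of_nonneg (hs0 θ)]
    exact mul_le_mul_of_nonneg_right (hb θ) (hs0 θ)
  have hci : ∀ k ∈ Finset.univ, Integrable fun θ : UnitAddTorus (Fin d) =>
      ‖hatV (fun x => (1 - Q) x k) θ‖ ^ 2 := fun k _ =>
    integrable_of_cont ((continuous_hatV _).norm.pow 2)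
  have s2 : ∫ θ, ∑ k, ‖hatV (fun x => (1 - Q) x k) θ‖ ^ 2 =
      ∑ k, nsq (fun x => (1 - Q) x k) := by
    rw [integral_finsetSum _ hci]
    exact Finset.sum_congr rfl fun k _ => parseval _
  rw [integral_const_mul, s2, proj_hs hH hqq] at s1
  exact s1

theorem blk (laq : LaqStmt) (hsu : HsuStmt) (pai : PaiStmt) : BlkStmt := by
  intro d cT CT hd hcT hCT
  obtain ⟨cH, C₂, hcH, hC₂, hH⟩ := hsu d hd
  obtain ⟨c₀, hc₀, hP⟩ := pai d cT CT C₂ hd hcT hCT hC₂
  have hπ := Real.pi_pos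
  set c : ℝ := min (min cH c₀) (min (cT / (1024 * Real.pi * CT ^ 2)) 1) with hc
  have hCT0 : 0 < CT := by linarith only [hCT]
  have hc0 : 0 < c := by
    rw [hc]
    refine lt_min (lt_min hcH hc₀) (lt_min ?_ one_pos)
    positivity
  have hccH : c ≤ cH := (min_le_left _ _).trans (min_le_left _ _)
  have hcc₀ : c ≤ c₀ := (min_le_left _ _).trans (min_le_right _ _)
  have hcT' : c ≤ cT / (1024 * Real.pi * CT ^ 2) := (min_le_right _ _).trans (min_le_left _ _)
  have hc1 : c ≤ 1 := (min_le_right _ _).trans (min_le_right _ _)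
  obtain ⟨c₂, hc₂, hP⟩ := hP c hc0 hcc₀
  refine ⟨c, c₂, hc0, hc1, hc₂, ?_⟩
  intro C C' B D ψ F e E η ω ε τ T q hη hηc hω hωη hε hτ hτL hT1 hT2 hCne hCC hs hq
  have hη1 : η ≤ 1 := hηc.trans hc1
  have hden : ∀ θ : UnitAddTorus (Fin d), 0 < (sy θ - E) ^ 2 + η ^ 2 := fun θ => by positivity
  have hsy := continuous_sy (d := d)
  have hcX : Continuous fun θ : UnitAddTorus (Fin d) => (sy θ - E) ^ 2 + η ^ 2 := by fun_prop
  set ρ : UnitAddTorus (Fin d) → ℝ := fun θ => η ^ 2 / ((sy θ - E) ^ 2 + η ^ 2) with hρdef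
  have hcρ : Continuous ρ := continuous_const.div hcX fun θ => (hden θ).ne'
  have hρ0 : ∀ θ, 0 ≤ ρ θ := fun θ => div_nonneg (sq_nonneg _) (hden θ).le
  obtain ⟨Q, hQ, hQQ, htr, hform⟩ := laq C C' (Rmat C' ρ) (fun y x => ψ x y)
    (Rmat_posSemidef C' hcρ hρ0)
  set v : C → C → ℂ := fun k x => Q x k with hv
  have hN : (0 : ℝ) ≤ C.card := Nat.cast_nonneg _
  -- Bessel
  have hBes : Bes C v := by
    intro u
    have h1 := vecMul_proj hQ u
    have h2 := proj_pyth hQ hQQ (star u)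
    rw [nsq_star] at h2
    have h3 := nsq_nonneg ((1 - Q) *ᵥ star u)
    show ∑ k, ‖∑ x, u x * Q x k‖ ^ 2 ≤ ∑ x, ‖u x‖ ^ 2
    rw [h1]
    unfold nsq at h2 h3 ⊢
    linarith only [h2, h3]
  -- the form
  have hA : ∀ k, ∫ θ, η ^ 2 / ((sy θ - E) ^ 2 + η ^ 2) * ‖hatS C' (lin C ψ (v k)) θ‖ ^ 2 ≤
      1 / 2 * ∑ y ∈ C', ‖lin C ψ (v k) y‖ ^ 2 := by
    intro k
    have h1 := hform (Pi.single k 1)
    have h2 : ((fun (y : C') (x : C) => ψ x y : Matrix C' C ℂ) *ᵥ
        (Q *ᵥ (Pi.single k 1 : C → ℂ))) = fun y : C' => lin C ψ (v k) y := by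
      funext y
      rw [mulVec_single_one]
      simp only [mulVec, dotProduct]
      unfold lin
      exact Finset.sum_congr rfl fun x _ => mul_comm _ _
    rw [h2, Rmat_form C' hcρ, Complex.ofReal_re] at h1
    have h3 : nsq (fun y : C' => lin C ψ (v k) y) = ∑ y ∈ C', ‖lin C ψ (v k) y‖ ^ 2 := by
      unfold nsq
      exact Finset.sum_coe_sort C' (fun y => ‖lin C ψ (v k) y‖ ^ 2)
    rw [h3] at h1
    simp only [hatS_eq_hatV]
    exact h1
  have hlog : 0 ≤ 1 + Real.log (1 / η) := by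
    have : 0 ≤ Real.log (1 / η) := Real.log_nonneg (by rw [le_div_iff₀ hη]; linarith only [hc1, hηc])
    linarith only [this]
  have hcη : c * η ≤ cH * η := mul_le_mul_of_nonneg_right hccH hη.le
  have hεη : ε ≤ η := by
    have := mul_le_mul_of_nonneg_right hc1 hη.le
    linarith only [hε, this]
  have hHS := hH C C' B D ψ F e E η ω ε τ v hη hη1 hω (hωη.trans hcη) hεη hτ
    (hτL.trans hccH) hs hBes hA
  refine hP C C' B D ψ F e E η ω ε τ T q v hη hη1 hω hωη hε hτ hτL hT1 hT2 hCne hs hq hBes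
    hHS.1 hHS.2 ?_
  -- the main term
  obtain ⟨hqm, hqb, hqI, -, -, -⟩ := hq
  have hmain := main_term hQ hQQ hqm hqb
  have hT0 : 0 < T := lt_of_lt_of_le (by positivity) hT1
  have htr2 : (Matrix.trace (1 - Q)).re ≤ 512 * Real.pi * η * C.card := by
    refine htr.trans ?_
    rw [Rmat_trace]
    have hI : ∫ θ, ρ θ ≤ η * (128 * Real.pi) := by
      have e1 : ∫ θ, ρ θ = η * ∫ θ : UnitAddTorus (Fin d), ker η (sy θ - E) := by
        rw [← integral_const_mul]
        refine integral_congr_ae (Filter.Eventually.of_forall fun θ => ?_)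
        simp only [ker, hρdef]
        have := (hden θ).ne'
        field_simp
      rw [e1]
      exact mul_le_mul_of_nonneg_left (integral_ker_le hd hη E) hη.le
    have hcc : (C'.card : ℝ) ≤ 2 * C.card := by exact_mod_cast hCC
    calc 2 * (C'.card * ∫ θ, ρ θ) ≤ 2 * (C'.card * (η * (128 * Real.pi))) := by
          have := mul_le_mul_of_nonneg_left hI (Nat.cast_nonneg (α := ℝ) C'.card)
          linarith only [this]
      _ ≤ 2 * ((2 * C.card) * (η * (128 * Real.pi))) := by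
          have := mul_le_mul_of_nonneg_right hcc (by positivity : 0 ≤ η * (128 * Real.pi))
          linarith only [this]
      _ = 512 * Real.pi * η * C.card := by ring
  have herr : CT * T * (Matrix.trace (1 - Q)).re ≤ cT / 2 * C.card := by
    calc CT * T * (Matrix.trace (1 - Q)).re ≤ CT * T * (512 * Real.pi * η * C.card) :=
          mul_le_mul_of_nonneg_left htr2 (by positivity)
      _ ≤ CT * (CT * (c / η)) * (512 * Real.pi * η * C.card) := by
          refine mul_le_mul_of_nonneg_right ?_ (by positivity)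
          exact mul_le_mul_of_nonneg_left hT2 hCT0.le
      _ = 512 * Real.pi * CT ^ 2 * c * C.card := by
          field_simp
      _ ≤ 512 * Real.pi * CT ^ 2 * (cT / (1024 * Real.pi * CT ^ 2)) * C.card := by
          refine mul_le_mul_of_nonneg_right ?_ hN
          exact mul_le_mul_of_nonneg_left hcT' (by positivity)
      _ = cT / 2 * C.card := by
          field_simp
          ring
  have hfin : cT * C.card ≤ |(C.card : ℝ) * ∫ θ, q θ| := by
    rw [abs_mul, abs_of_nonneg hN, mul_comm]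
    exact mul_le_mul_of_nonneg_left hqI hN
  have htri := abs_sub_abs_le_abs_sub ((C.card : ℝ) * ∫ θ, q θ)
    (∑ k, ∫ θ, q θ * ‖hatV (fun x => Q x k) θ‖ ^ 2)
  show cT / 2 * C.card ≤ |∑ k, ∫ θ, q θ * ‖hatV (fun x => Q x k) θ‖ ^ 2|
  linarith only [hmain, herr, hfin, htri]

end Pool.Agent.LE.CL.H17
end
end -- Pool.Agent.Helper17_LSP.BLK

section -- Pool.Agent.Helper32_LIR.BLE

/-!
# BLE (squad LIR): the cluster lemma on the torus
-/

set_option autoImplicit false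

open Matrix

open scoped BigOperators ComplexOrder ComplexConjugate

noncomputable section

namespace Pool.Agent.LE.IR.H32

open Pool.Agent.Anderson hiding box mem_box card_box
open Pool.Agent.Loc Pool.Agent.Mob Pool.Agent.BED
open Pool.Agent.LE.MN Pool.Agent.LE.CL Pool.Agent.LE.IR

variable {d M : ℕ} [NeZero M]

theorem Mpos : (0 : ℝ) < (M : ℝ) ^ d := by
  have : (0 : ℝ) < M := by exact_mod_cast NeZero.pos M
  positivity

/-- the kernel matrix of a multiplier -/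
def Rmt (Λ : Finset (Tor d M)) (ρ : Tor d M → ℝ) : Matrix Λ Λ ℂ :=
  fun x y => (∑ p, ec p (x : Tor d M) * (ρ p : ℂ) * conj (ec p (y : Tor d M))) / (M : ℂ) ^ d

theorem ft_vx (Λ : Finset (Tor d M)) (v : Λ → ℂ) (p : Tor d M) :
    ft (vx Λ v) p = ∑ x : Λ, conj (ec p (x : Tor d M)) * v x := by
  classical
  unfold ft vx
  rw [← Finset.sum_subset (Finset.subset_univ Λ)]
  · rw [← Finset.sum_coe_sort]
    refine Finset.sum_congr rfl fun x _ => ?_
    rw [dif_pos x.2]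
  · intro y _ hy
    rw [dif_neg hy, mul_zero]

theorem Rmt_form (Λ : Finset (Tor d M)) (ρ : Tor d M → ℝ) (v : Λ → ℂ) :
    star v ⬝ᵥ (Rmt Λ ρ *ᵥ v) = ((pm (fun p => ρ p * ‖ft (vx Λ v) p‖ ^ 2) : ℝ) : ℂ) := by
  have hM : (M : ℂ) ^ d ≠ 0 := pow_ne_zero _ (by exact_mod_cast NeZero.ne M)
  have h1 : ∀ p, ((ρ p * ‖ft (vx Λ v) p‖ ^ 2 : ℝ) : ℂ) = ∑ x : Λ, ∑ y : Λ,
      (conj (v x) * v y) * (ec p (x : Tor d M) * (ρ p : ℂ) * conj (ec p (y : Tor d M))) := by
    intro p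
    have h2 : ((‖ft (vx Λ v) p‖ ^ 2 : ℝ) : ℂ) = conj (ft (vx Λ v) p) * ft (vx Λ v) p := by
      rw [mul_comm, Complex.mul_conj, Complex.normSq_eq_norm_sq]
    rw [Complex.ofReal_mul, h2, ft_vx, map_sum, Finset.sum_mul_sum, Finset.mul_sum]
    apply Finset.sum_congr rfl
    intro x _
    rw [Finset.mul_sum]
    apply Finset.sum_congr rfl
    intro y _
    rw [map_mul, Complex.conj_conj]
    ring
  unfold pm
  rw [Complex.ofReal_div, Complex.ofReal_sum, Complex.ofReal_pow, Complex.ofReal_natCast]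
  simp only [h1]
  rw [Finset.sum_comm, Finset.sum_div]
  unfold dotProduct
  apply Finset.sum_congr rfl
  intro x _
  rw [Finset.sum_comm, Finset.sum_div]
  simp only [mulVec, dotProduct, Pi.star_apply, Finset.mul_sum]
  apply Finset.sum_congr rfl
  intro y _
  unfold Rmt
  rw [← Finset.mul_sum]
  simp only [Complex.star_def]
  ring

theorem pm_nonneg {F : Tor d M → ℝ} (h : ∀ p, 0 ≤ F p) : 0 ≤ pm F :=
  div_nonneg (Finset.sum_nonneg fun p _ => h p) Mpos.le

theorem pm_mono {F G : Tor d M → ℝ} (h : ∀ p, F p ≤ G p) : pm F ≤ pm G :=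
  div_le_div_of_nonneg_right (Finset.sum_le_sum fun p _ => h p) Mpos.le

theorem pm_mul (c : ℝ) (F : Tor d M → ℝ) : pm (fun p => c * F p) = c * pm F := by
  unfold pm
  rw [← Finset.mul_sum, mul_div_assoc]

theorem pm_sum {ι : Type} (s : Finset ι) (F : ι → Tor d M → ℝ) :
    pm (fun p => ∑ i ∈ s, F i p) = ∑ i ∈ s, pm (F i) := by
  unfold pm
  rw [Finset.sum_comm, Finset.sum_div]

theorem Rmt_posSemidef (Λ : Finset (Tor d M)) {ρ : Tor d M → ℝ} (hρ0 : ∀ p, 0 ≤ ρ p) :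
    (Rmt Λ ρ).PosSemidef := by
  rw [posSemidef_iff_dotProduct_mulVec]
  constructor
  · ext x y
    rw [conjTranspose_apply]
    unfold Rmt
    rw [Complex.star_def, map_div₀, map_sum, map_pow, Complex.conj_natCast]
    congr 1
    refine Finset.sum_congr rfl fun p _ => ?_
    rw [map_mul, map_mul, Complex.conj_conj, Complex.conj_ofReal]
    ring
  · intro v
    rw [Rmt_form, Complex.zero_le_real]
    apply pm_nonneg
    intro p
    have := hρ0 p
    positivity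

theorem Rmt_trace (Λ : Finset (Tor d M)) (ρ : Tor d M → ℝ) :
    (Matrix.trace (Rmt Λ ρ)).re = Λ.card * pm ρ := by
  have h1 : ∀ y : Λ, Rmt Λ ρ y y = ((pm ρ : ℝ) : ℂ) := by
    intro y
    unfold Rmt pm
    rw [Complex.ofReal_div, Complex.ofReal_sum, Complex.ofReal_pow, Complex.ofReal_natCast]
    congr 1
    refine Finset.sum_congr rfl fun p _ => ?_
    have h : ec p (y : Tor d M) * conj (ec p (y : Tor d M)) = 1 := by
      rw [Complex.mul_conj, Complex.normSq_eq_norm_sq, H54.ec_norm]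
      norm_num
    linear_combination (ρ p : ℂ) * h
  unfold Matrix.trace
  simp only [Matrix.diag_apply, h1, Finset.sum_const, Finset.card_univ, Fintype.card_coe,
    nsmul_eq_mul]
  rw [← Complex.ofReal_natCast, ← Complex.ofReal_mul, Complex.ofReal_re]

/-- Parseval for functions on a finite set -/
theorem pars (Λ : Finset (Tor d M)) (v : Λ → ℂ) :
    pm (fun p => ‖ft (vx Λ v) p‖ ^ 2) = nsq v := by
  classical
  rw [← H54.parseval1]
  unfold nsq vx
  rw [← Finset.sum_subset (Finset.subset_univ Λ)]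
  · rw [← Finset.sum_coe_sort]
    refine Finset.sum_congr rfl fun x _ => ?_
    rw [dif_pos x.2]
  · intro y _ hy
    rw [dif_neg hy, norm_zero]
    norm_num

/-- the main term -/
theorem main_term {C : Finset (Tor d M)} {Q : Matrix C C ℂ} (hQ : Q.IsHermitian)
    (hQQ : Q * Q = Q) {q : Tor d M → ℝ} {b : ℝ} (hb : ∀ p, |q p| ≤ b) :
    |(C.card : ℝ) * pm q - ∑ k, pm (fun p => q p * ‖ft (vx C (fun x => Q x k)) p‖ ^ 2)| ≤
      b * (Matrix.trace (1 - Q)).re := by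
  have hQH : Qᴴ = Q := hQ
  have hH : (1 - Q).IsHermitian := by
    rw [Matrix.IsHermitian, conjTranspose_sub, conjTranspose_one, hQH]
  have hqq : (1 - Q) * (1 - Q) = 1 - Q := by
    rw [mul_sub, mul_one, sub_mul, one_mul, hQQ]
    simp
  have hpt : ∀ p : Tor d M, ∑ k, ‖ft (vx C (fun x => Q x k)) p‖ ^ 2 +
      ∑ k, ‖ft (vx C (fun x => (1 - Q) x k)) p‖ ^ 2 = C.card := by
    intro p
    have h1 := CL.H17.vecMul_proj hQ (fun x : C => conj (ec p (x : Tor d M)))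
    have h2 := CL.H17.vecMul_proj hH (fun x : C => conj (ec p (x : Tor d M)))
    have h3 := CL.H17.proj_pyth hQ hQQ (star (fun x : C => conj (ec p (x : Tor d M))))
    rw [← h1, ← h2, CL.H17.nsq_star] at h3
    have h4 : nsq (fun x : C => conj (ec p (x : Tor d M))) = C.card := by
      unfold nsq
      simp only [RCLike.norm_conj, H54.ec_norm, one_pow, Finset.sum_const, Finset.card_univ,
        Fintype.card_coe, nsmul_eq_mul, mul_one]
    rw [h4] at h3
    simp only [ft_vx]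
    exact h3
  have e1 : (C.card : ℝ) * pm q - ∑ k, pm (fun p => q p * ‖ft (vx C (fun x => Q x k)) p‖ ^ 2) =
      pm (fun p => q p * ∑ k, ‖ft (vx C (fun x => (1 - Q) x k)) p‖ ^ 2) := by
    rw [← pm_sum, ← pm_mul]
    unfold pm
    rw [← sub_div, ← Finset.sum_sub_distrib]
    congr 1
    refine Finset.sum_congr rfl fun p _ => ?_
    rw [← Finset.mul_sum, ← hpt p]
    ring
  have hb0 : 0 ≤ b := (abs_nonneg _).trans (hb 0)
  rw [e1]
  have hs0 : ∀ p : Tor d M, 0 ≤ ∑ k, ‖ft (vx C (fun x => (1 - Q) x k)) p‖ ^ 2 :=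
    fun p => Finset.sum_nonneg fun k _ => sq_nonneg _
  have s1 : |pm (fun p => q p * ∑ k, ‖ft (vx C (fun x => (1 - Q) x k)) p‖ ^ 2)| ≤
      pm (fun p => b * ∑ k, ‖ft (vx C (fun x => (1 - Q) x k)) p‖ ^ 2) := by
    unfold pm
    rw [abs_div, abs_of_pos (Mpos (d := d) (M := M))]
    refine div_le_div_of_nonneg_right ?_ Mpos.le
    refine (Finset.abs_sum_le_sum_abs _ _).trans (Finset.sum_le_sum fun p _ => ?_)
    rw [abs_mul, abs_of_nonneg (hs0 p)]
    exact mul_le_mul_of_nonneg_right (hb p) (hs0 p)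
  have s2 : pm (fun p => ∑ k, ‖ft (vx C (fun x => (1 - Q) x k)) p‖ ^ 2) =
      ∑ k, nsq (fun x => (1 - Q) x k) := by
    rw [pm_sum]
    exact Finset.sum_congr rfl fun k _ => pars C _
  rw [pm_mul, s2, CL.H17.proj_hs hH hqq] at s1
  exact s1

/-- larger constants -/
theorem numT_mono {A c c' w l η τ φ e0 κ Γ β D₀ b₀ : ℝ} (hcc : c ≤ c')
    (h : NumT d M A c w l η τ φ e0 κ Γ β D₀ b₀) : NumT d M A c' w l η τ φ e0 κ Γ β D₀ b₀ := by
  have hη := h.hη.1
  have hκ : 0 < κ := by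
    have h1 := h.hl.1
    have h2 := h.hl.2.1
    linarith
  have hD := h.hD.1
  refine ⟨h.hw, ⟨hη, h.hη.2.1.trans ?_, h.hη.2.2⟩, h.hl, h.hD, h.hκ, h.hΓ,
    ⟨h.hφ.1, h.hφ.2.trans ?_⟩, ⟨h.he.1, h.he.2.trans ?_⟩, ⟨h.hτ.1, h.hτ.2.trans ?_⟩,
    ⟨h.hβ.1, h.hβ.2.trans hcc⟩, h.h2, h.h1⟩
  · exact mul_le_mul_of_nonneg_right hcc hκ.le
  · exact mul_le_mul_of_nonneg_right hcc hη.le
  · exact mul_le_mul_of_nonneg_right (mul_le_mul_of_nonneg_right hcc hη.le) hD.le
  · exact mul_le_mul_of_nonneg_right hcc hD.le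

theorem alg1 {η : ℝ} (hη : η ≠ 0) (A D₀ : ℝ) : η ^ 2 * (A * D₀ / η) = A * η * D₀ := by
  field_simp

theorem alg2 {η A : ℝ} (hη : η ≠ 0) (hA : A ≠ 0) (D₀ N : ℝ) :
    A * (A * (1 / (8 * A ^ 4) / η)) * (4 * A * η * D₀ * N) = D₀ / (2 * A) * N := by
  field_simp
  ring

theorem alg3 {A : ℝ} (hA : A ≠ 0) (D₀ N : ℝ) :
    D₀ / A * N = D₀ / (2 * A) * N + D₀ / (2 * A) * N := by
  field_simp
  ring

theorem ble (laq : LaqStmt) (hse : HseStmt) (pae : PaeStmt) : BleStmt := by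
  intro d A hd hA
  have hA0 : 0 < A := by linarith only [hA]
  obtain ⟨cH, C₂, hcH, hC₂, hH⟩ := hse d A hd hA
  set c₁ : ℝ := 1 / (8 * A ^ 4) with hc₁
  have hc₁0 : 0 < c₁ := by positivity
  have hc₁A : c₁ ≤ 1 / A := by
    rw [hc₁]
    apply one_div_le_one_div_of_le hA0
    have : A ≤ A ^ 4 := le_self_pow₀ hA (by norm_num)
    nlinarith only [pow_pos hA0 4, hA, this]
  obtain ⟨cP, c₂, hcP, hc₂, hP⟩ := pae d A C₂ c₁ hd hA hC₂ hc₁0 hc₁A
  set c : ℝ := min (min cH cP) 1 with hc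
  have hc0 : 0 < c := lt_min (lt_min hcH hcP) one_pos
  have hccH : c ≤ cH := (min_le_left _ _).trans (min_le_left _ _)
  have hccP : c ≤ cP := (min_le_left _ _).trans (min_le_right _ _)
  refine ⟨c₁, c, c₂, hc₁0, hc₁A, hc0, min_le_right _ _, hc₂, ?_⟩
  intro M Rb _ ω h lam w l η τ φ e0 κ Γ β D₀ b₀ T Kq C C' g s S F e q hN hs hT1 hT2 hT hKq hq hR
  classical
  have hη := hN.hη.1
  have hD := hN.hD.1
  have hT0 : 0 < T := by linarith only [hT]
  set ρ : Tor d M → ℝ := fun p => if ds p ≤ κ then η ^ 2 / mt l η p ^ 2 else 0 with hρ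
  have hρ0 : ∀ p, 0 ≤ ρ p := by
    intro p
    rw [hρ]
    dsimp only
    split_ifs
    · positivity
    · exact le_refl _
  obtain ⟨Q, hQ, hQQ, htr, hform⟩ := laq C C' (Rmt C' ρ) (fun y x => g x y)
    (Rmt_posSemidef C' hρ0)
  set v : C → C → ℂ := fun k x => Q x k with hv
  have hNc : (0 : ℝ) ≤ C.card := Nat.cast_nonneg _
  -- Bessel
  have hBes : BesT C v := by
    intro u
    have h1 := CL.H17.vecMul_proj hQ u
    have h2 := CL.H17.proj_pyth hQ hQQ (star u)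
    rw [CL.H17.nsq_star] at h2
    have h3 : 0 ≤ nsq ((1 - Q) *ᵥ star u) := Finset.sum_nonneg fun _ _ => sq_nonneg _
    show ∑ k, ‖∑ x, u x * Q x k‖ ^ 2 ≤ ∑ x, ‖u x‖ ^ 2
    rw [h1]
    unfold nsq at h2 h3 ⊢
    linarith only [h2, h3]
  -- the functions are supported in `C'`
  have hsup : ∀ k, lnt C g (v k) = vx C' (fun y : C' => lnt C g (v k) y) := by
    intro k
    funext y
    unfold vx
    by_cases hy : y ∈ C'
    · rw [dif_pos hy]
    · rw [dif_neg hy]
      unfold lnt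
      rw [Finset.sum_eq_zero]
      intro x _
      rw [hs.hg x x.2 y hy, mul_zero]
  -- the form
  have hF : ∀ k, pm (fun p => if ds p ≤ κ then
      η ^ 2 / mt l η p ^ 2 * ‖ft (lnt C g (v k)) p‖ ^ 2 else 0) ≤
      1 / 2 * ∑ y, ‖lnt C g (v k) y‖ ^ 2 := by
    intro k
    have h1 := hform (Pi.single k 1)
    have h2 : ((fun (y : C') (x : C) => g x y : Matrix C' C ℂ) *ᵥ
        (Q *ᵥ (Pi.single k 1 : C → ℂ))) = fun y : C' => lnt C g (v k) y := by
      funext y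
      rw [mulVec_single_one]
      simp only [mulVec, dotProduct]
      unfold lnt
      exact Finset.sum_congr rfl fun x _ => mul_comm _ _
    rw [h2, Rmt_form, Complex.ofReal_re, ← hsup k, ← pars C', ← hsup k, ← H54.parseval1] at h1
    refine le_trans (le_of_eq ?_) h1
    congr 1
    funext p
    rw [hρ]
    dsimp only
    split_ifs
    · rfl
    · rw [zero_mul]
  have hHS := hH M ω h lam w l η τ φ e0 κ Γ β D₀ b₀ C C' g s S F e v
    (numT_mono hccH hN) hs hBes hF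
  refine hP M Rb ω h lam w l η τ φ e0 κ Γ β D₀ b₀ T Kq C C' g s S F e q v
    (numT_mono hccP hN) hs hBes hT1 hT2 hT hKq hq hR hHS.1 hHS.2 ?_
  -- the main term
  have hmain := main_term hQ hQQ hq.hsup
  have htr2 : (Matrix.trace (1 - Q)).re ≤ 4 * A * η * D₀ * C.card := by
    refine htr.trans ?_
    rw [Rmt_trace]
    have hI : pm ρ ≤ A * η * D₀ := by
      have e1 : pm ρ = η ^ 2 * pm (fun p : Tor d M => if ds p ≤ κ then (mt l η p ^ 2)⁻¹ else 0) := by
        rw [← pm_mul]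
        congr 1
        funext p
        rw [hρ]
        dsimp only
        split_ifs
        · rw [div_eq_mul_inv]
        · rw [mul_zero]
      rw [e1]
      calc η ^ 2 * pm (fun p : Tor d M => if ds p ≤ κ then (mt l η p ^ 2)⁻¹ else 0) ≤
          η ^ 2 * (A * D₀ / η) := mul_le_mul_of_nonneg_left hN.h2 (sq_nonneg _)
        _ = A * η * D₀ := alg1 hη.ne' A D₀
    have hcc : (C'.card : ℝ) ≤ 2 * C.card := by exact_mod_cast hs.hC.2.2
    have hp : 0 ≤ A * η * D₀ := by positivity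
    calc 2 * (C'.card * pm ρ) ≤ 2 * (C'.card * (A * η * D₀)) := by
          have := mul_le_mul_of_nonneg_left hI (Nat.cast_nonneg (α := ℝ) C'.card)
          linarith
      _ ≤ 2 * ((2 * C.card) * (A * η * D₀)) := by
          have := mul_le_mul_of_nonneg_right hcc hp
          linarith only [this]
      _ = 4 * A * η * D₀ * C.card := by ring
  have hpos : 0 ≤ 4 * A * η * D₀ * (C.card : ℝ) :=
    mul_nonneg (mul_nonneg (mul_nonneg (mul_nonneg (by norm_num) hA0.le) hη.le) hD.le) hNc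
  have herr : A * T * (Matrix.trace (1 - Q)).re ≤ D₀ / (2 * A) * C.card := by
    calc A * T * (Matrix.trace (1 - Q)).re ≤ A * T * (4 * A * η * D₀ * C.card) :=
          mul_le_mul_of_nonneg_left htr2 (by positivity)
      _ ≤ A * (A * (c₁ / η)) * (4 * A * η * D₀ * C.card) :=
          mul_le_mul_of_nonneg_right (mul_le_mul_of_nonneg_left hT2 hA0.le) hpos
      _ = D₀ / (2 * A) * C.card := by
          rw [hc₁]
          exact alg2 hη.ne' hA0.ne' D₀ _
  have hfin : D₀ / A * C.card ≤ |(C.card : ℝ) * pm q| := by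
    rw [abs_mul, abs_of_nonneg hNc, mul_comm]
    exact mul_le_mul_of_nonneg_left hq.hmain hNc
  have htri := abs_sub_abs_le_abs_sub ((C.card : ℝ) * pm q)
    (∑ k, pm (fun p => q p * ‖ft (vx C (fun x => Q x k)) p‖ ^ 2))
  have hhalf : D₀ / A * C.card = D₀ / (2 * A) * C.card + D₀ / (2 * A) * C.card :=
    alg3 hA0.ne' D₀ _
  show D₀ / (2 * A) * C.card ≤ |∑ k, pm (fun p => q p * ‖ft (vx C (fun x => Q x k)) p‖ ^ 2)|
  linarith

end Pool.Agent.LE.IR.H32
end
end -- Pool.Agent.Helper32_LIR.BLE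

section -- Pool.Agent.Helper8_LYM.PRB

/-!
# PRB: the probability of the operator bound
-/

set_option autoImplicit false

open MeasureTheory ProbabilityTheory Function Filter

open scoped ENNReal BigOperators Topology NNReal

noncomputable section

namespace Pool.Agent.LE.MN.H8

open Pool.Agent.Anderson hiding box mem_box card_box
open Pool.Agent.Loc Pool.Agent.Mob Pool.Agent.Helper54.Bal
  Pool.Agent.Helper96.EXP Pool.Agent.BED

/-- the standard variables -/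
def xi {d : ℕ} (σ : ℝ) (y : Site d) (V : Site d → ℝ) : ℝ := V y / σ

theorem meas_xi {d : ℕ} (σ : ℝ) (y : Site d) : Measurable (xi σ y) := by
  unfold xi
  fun_prop

theorem gl_div {σ : ℝ} (hσ : σ ≠ 0) : (gl σ).map (fun t => t / σ) = gaussianReal 0 1 := by
  unfold gl
  rw [Measure.map_map (by fun_prop) (by fun_prop)]
  have : ((fun t : ℝ => t / σ) ∘ fun t => σ * t) = id := by
    funext t
    simp only [Function.comp, id]
    field_simp
  rw [this, Measure.map_id]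

theorem law_xi {d : ℕ} {σ : ℝ} (hσ : σ ≠ 0) (y : Site d) :
    (PP d (gl σ)).map (xi σ y) = gaussianReal 0 1 := by
  have h1 : (PP d (gl σ)).map (fun V : Site d → ℝ => V y) = gl σ :=
    (measurePreserving_eval_infinitePi (fun _ : Site d => gl σ) y).map_eq
  have h2 : xi σ y = (fun t => t / σ) ∘ fun V : Site d → ℝ => V y := by
    funext V
    rfl
  rw [h2, ← Measure.map_map (by fun_prop) (by fun_prop)]
  change Measure.map (fun t => t / σ) ((PP d (gl σ)).map (fun V : Site d → ℝ => V y)) = _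
  rw [h1, gl_div hσ]

theorem ind_xi {d : ℕ} (σ : ℝ) : iIndepFun (xi (d := d) σ) (PP d (gl σ)) := by
  have h := iIndepFun_infinitePi (P := fun _ : Site d => gl σ) (X := fun _ t => t / σ)
    (fun _ => by fun_prop)
  exact h

theorem nsq_smul {n : Type*} [Fintype n] (a : ℂ) (v : n → ℂ) :
    nsq (a • v) = ‖a‖ ^ 2 * nsq v := by
  unfold nsq
  rw [Finset.mul_sum]
  refine Finset.sum_congr rfl fun i _ => ?_
  rw [Pi.smul_apply, smul_eq_mul, norm_mul, mul_pow]

theorem XM_smul {n : Type*} [Fintype n] [DecidableEq n] (C : Matrix n n ℂ) (D : n → ℝ) (a : ℝ) :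
    XM C (fun y => a * D y) = (a : ℂ) • XM C D := by
  rw [XM_eq_sum, XM_eq_sum, Finset.smul_sum]
  refine Finset.sum_congr rfl fun y _ => ?_
  rw [smul_smul]
  push_cast
  rfl

/-- the good event gives the bound -/
theorem good {d : ℕ} {σ τ r : ℝ} (hσ : σ ≠ 0) (hτ : 0 < τ) {Λ : Finset (Site d)}
    {C : Matrix Λ Λ ℂ} {V : Site d → ℝ}
    (h1 : ∀ y ∈ Λ, |xi σ y V| ≤ r)
    (h2 : ∀ a : Λ → ℂ, nsq (Matrix.mulVec (XM C (fun y => zt (σ / (2 * τ)) (|σ| * r / (2 * τ))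
      (xi σ) V y)) a) ≤ 1 / 4 * nsq a) (v : Λ → ℂ) :
    nsq (Matrix.mulVec (XM C (fun y => V y)) v) ≤ τ ^ 2 * nsq v := by
  have e1 : (fun y : Λ => zt (σ / (2 * τ)) (|σ| * r / (2 * τ)) (xi σ) V y) =
      fun y : Λ => (1 / (2 * τ)) * V y := by
    funext y
    have hy := h1 y y.2
    have e2 : σ / (2 * τ) * xi σ (y : Site d) V = (1 / (2 * τ)) * V y := by
      unfold xi
      field_simp
    unfold zt
    rw [tau_eq, e2]
    rw [abs_mul, abs_div, abs_of_pos (by positivity : 0 < 2 * τ), div_mul_eq_mul_div]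
    apply div_le_div_of_nonneg_right _ (by positivity)
    exact mul_le_mul_of_nonneg_left hy (abs_nonneg _)
  have h3 := h2 v
  rw [e1, XM_smul C (fun y : Λ => V y) (1 / (2 * τ)), Matrix.smul_mulVec, nsq_smul,
    Complex.norm_real, Real.norm_eq_abs, sq_abs] at h3
  have h4 : 0 < 2 * τ := by positivity
  have h5 : (1 / (2 * τ)) ^ 2 * nsq (Matrix.mulVec (XM C (fun y => V y)) v) * (4 * τ ^ 2) ≤
      1 / 4 * nsq v * (4 * τ ^ 2) := mul_le_mul_of_nonneg_right h3 (by positivity)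
  have h6 : (1 / (2 * τ)) ^ 2 * nsq (Matrix.mulVec (XM C (fun y => V y)) v) * (4 * τ ^ 2) =
      nsq (Matrix.mulVec (XM C (fun y => V y)) v) := by
    field_simp
    ring
  rw [h6] at h5
  linarith only [h5]

theorem prb : PrbStmt := by
  intro d A hd hA
  have hd' : (3 : ℝ) ≤ d := by exact_mod_cast hd
  have hpi := Real.pi_pos
  have hpi3 := Real.pi_gt_three
  obtain ⟨k, hk⟩ : ∃ k : ℝ, k = A * d + A + 4 := ⟨_, rfl⟩
  have hAd : 3 ≤ A * d := by nlinarith only [hA, hd']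
  have hk8 : 8 ≤ k := by rw [hk]; linarith only [hA, hAd]
  have hC1 : 1 ≤ 24 * k ^ 2 * (1 + 1024 * Real.pi) := by nlinarith only [hA, hd', hpi, hk, hAd]
  refine ⟨24 * k ^ 2 * (1 + 1024 * Real.pi), hC1, ?_⟩
  intro σ E η τ R x hη hσ hσ2 hη1 hτ hτ1 hC hR
  have hσ0 : 0 < |σ| := abs_pos.2 hσ
  have hlog : 0 ≤ Real.log (1 / |σ|) := by
    apply Real.log_nonneg
    rw [le_div_iff₀ hσ0]
    linarith only [hσ2, hσ0]
  have hlη : 0 ≤ Real.log (1 / η) := Real.log_nonneg (by rw [le_div_iff₀ hη]; linarith only [hη1])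
  obtain ⟨l, hl⟩ : ∃ l : ℝ, l = 1 + Real.log (1 / |σ|) := ⟨_, rfl⟩
  obtain ⟨m, hm⟩ : ∃ m : ℝ, m = 1 + Real.log (1 / η) := ⟨_, rfl⟩
  rw [← hl, ← hm] at hC
  have hl1 : 1 ≤ l := by rw [hl]; linarith only [hlog]
  have hm1 : 1 ≤ m := by rw [hm]; linarith only [hlη]
  have hkl : 8 ≤ k * l := by nlinarith only [hA, hd', hk, hAd, hlog, hl]
  obtain ⟨r, hr⟩ : ∃ r : ℝ, r = Real.sqrt (2 * (k * l)) := ⟨_, rfl⟩
  have hr0 : 0 ≤ r := by rw [hr]; exact Real.sqrt_nonneg _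
  have hr2 : r ^ 2 = 2 * (k * l) := by rw [hr, Real.sq_sqrt (by linarith only [hσ2, hσ0, hkl])]
  obtain ⟨p, hp⟩ : ∃ p : ℕ, p = ⌈k * l⌉₊ := ⟨_, rfl⟩
  have hp1 : k * l ≤ p := by rw [hp]; exact Nat.le_ceil _
  have hp2 : (p : ℝ) ≤ 2 * (k * l) := by
    have := Nat.ceil_lt_add_one (by linarith only [hσ2, hσ0, hkl] : 0 ≤ k * l)
    rw [← hp] at this
    linarith only [hσ2, hσ0, hkl, this]
  have hp3 : 1 ≤ p := by
    have : (1 : ℝ) ≤ p := by linarith only [hσ2, hσ0, hkl, hp1]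
    exact_mod_cast this
  have hs : 0 ≤ |σ| * r / (2 * τ) := by positivity
  have hbad := prob_bad (P := PP d (gl σ)) (meas_xi (d := d) σ) (law_xi hσ) (ind_xi σ)
    (σ / (2 * τ)) hs (box x R) (C := Csq (box x R) E η hη) (Csq_herm _ E _ hη)
    (κ := (1 + 1024 * Real.pi) * m) (L := η⁻¹) (by positivity) (by positivity)
    (by
      intro y
      rw [Csq_sq, Kmat_diag, Complex.ofReal_re, hm]
      exact kap_le hd _ hη hη1)
    (by
      intro v
      rw [Csq_sq]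
      exact Kmat_le _ hη v) hp3
  have hV : PP d (gl σ) {V | ∃ y ∈ box x R, r < |xi σ y V|} ≤
      ENNReal.ofReal ((2 * R + 1) ^ d * (2 * Real.exp (-(r ^ 2 / 2)))) := by
    have : {V : Site d → ℝ | ∃ y ∈ box x R, r < |xi σ y V|} ⊆
        ⋃ y ∈ box x R, {V | r < |xi σ y V|} := by
      rintro V ⟨y, hy, h⟩
      rw [Set.mem_iUnion₂]
      exact ⟨y, hy, h⟩
    refine (measure_mono this).trans ((measure_biUnion_finset_le _ _).trans ?_)
    refine (Finset.sum_le_sum fun y _ => gauss_tail (law_xi hσ y) hr0).trans ?_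
    rw [Finset.sum_const, card_box, nsmul_eq_mul, nat_mul_ofReal]
    push_cast
    rfl
  have hsub : {V : Site d → ℝ | ¬ ∀ v : (box x R) → ℂ,
      nsq (Matrix.mulVec (XM (Csq (box x R) E η hη) (fun y => V y)) v) ≤ τ ^ 2 * nsq v} ⊆
      {V | ∃ y ∈ box x R, r < |xi σ y V|} ∪
      {V | ¬ ∀ a : (box x R) → ℂ, nsq (Matrix.mulVec (XM (Csq (box x R) E η hη)
        (fun y => zt (σ / (2 * τ)) (|σ| * r / (2 * τ)) (xi σ) V y)) a) ≤ 1 / 4 * nsq a} := by
    intro V hV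
    by_contra hcon
    rw [Set.mem_union, not_or] at hcon
    obtain ⟨hc1, hc2⟩ := hcon
    apply hV
    have h1 : ∀ y ∈ box x R, |xi σ y V| ≤ r := by
      intro y hy
      by_contra h
      push Not at h
      exact hc1 ⟨y, hy, h⟩
    have h2 : ∀ a : (box x R) → ℂ, nsq (Matrix.mulVec (XM (Csq (box x R) E η hη)
        (fun y => zt (σ / (2 * τ)) (|σ| * r / (2 * τ)) (xi σ) V y)) a) ≤ 1 / 4 * nsq a := by
      by_contra h
      exact hc2 h
    exact good hσ hτ h1 h2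
  refine (measure_mono hsub).trans ((measure_union_le _ _).trans ((add_le_add hV hbad).trans ?_))
  rw [card_box, ← ENNReal.ofReal_add (by positivity) (by positivity)]
  apply ENNReal.ofReal_le_ofReal
  -- the numbers
  have hexp : Real.exp (-(k * l)) = Real.exp (-k) * |σ| ^ k := by
    rw [Real.rpow_def_of_pos hσ0, ← Real.exp_add, hl, Real.log_div one_ne_zero hσ0.ne',
      Real.log_one]
    congr 1
    ring
  have hx : 8 * (p : ℝ) * ((|σ| * r / (2 * τ)) ^ 2 * ((1 + 1024 * Real.pi) * m) * η⁻¹) ≤ 1 / 3 := by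
    have e1 : (|σ| * r / (2 * τ)) ^ 2 = σ ^ 2 * (k * l) / (2 * τ ^ 2) := by
      rw [div_pow, mul_pow, sq_abs, hr2]
      field_simp
    rw [e1]
    have e2 : 8 * (p : ℝ) * (σ ^ 2 * (k * l) / (2 * τ ^ 2) * ((1 + 1024 * Real.pi) * m) * η⁻¹) ≤
        8 * (2 * (k * l)) *
          (σ ^ 2 * (k * l) / (2 * τ ^ 2) * ((1 + 1024 * Real.pi) * m) * η⁻¹) := by
      apply mul_le_mul_of_nonneg_right _ (by positivity)
      linarith only [hp2]
    refine e2.trans ?_
    have e3 : 8 * (2 * (k * l)) *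
          (σ ^ 2 * (k * l) / (2 * τ ^ 2) * ((1 + 1024 * Real.pi) * m) * η⁻¹) =
        (24 * k ^ 2 * (1 + 1024 * Real.pi) * σ ^ 2 * l ^ 2 * m) / (τ ^ 2 * η) / 3 := by
      field_simp
      ring
    rw [e3]
    have e4 : (24 * k ^ 2 * (1 + 1024 * Real.pi) * σ ^ 2 * l ^ 2 * m) / (τ ^ 2 * η) ≤ 1 := by
      rw [div_le_one (by positivity)]
      exact hC
    linarith only [e4]
  have hx0 : 0 ≤ 8 * (p : ℝ) * ((|σ| * r / (2 * τ)) ^ 2 * ((1 + 1024 * Real.pi) * m) * η⁻¹) := by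
    positivity
  have he1 : 1 / 3 ≤ Real.exp (-1) := by
    rw [Real.exp_neg, ← one_div]
    apply one_div_le_one_div_of_le (Real.exp_pos _)
    have := Real.exp_one_lt_d9
    linarith only [hσ2, hσ0, this]
  have hxp : (8 * (p : ℝ) * ((|σ| * r / (2 * τ)) ^ 2 * ((1 + 1024 * Real.pi) * m) * η⁻¹)) ^ p ≤
      Real.exp (-(k * l)) := by
    calc _ ≤ (Real.exp (-1)) ^ p := pow_le_pow_left₀ hx0 (hx.trans he1) p
      _ = Real.exp (-(p : ℝ)) := by
        rw [← Real.exp_nat_mul]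
        congr 1
        ring
      _ ≤ _ := Real.exp_le_exp.2 (by linarith only [hp1])
  have hr3 : Real.exp (-(r ^ 2 / 2)) = Real.exp (-(k * l)) := by
    rw [hr2]
    congr 1
    ring
  rw [hr3]
  have hRd : (2 * (R : ℝ) + 1) ^ d ≤ |σ| ^ (-(A * d)) := by
    calc (2 * (R : ℝ) + 1) ^ d ≤ (|σ| ^ (-A)) ^ d := pow_le_pow_left₀ (by positivity) hR d
      _ = |σ| ^ (-(A * d)) := by
        rw [← Real.rpow_natCast, ← Real.rpow_mul hσ0.le]
        congr 1
        ring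
  have h3 : 3 * Real.exp (-k) ≤ 1 := by
    have h4 : Real.exp (-k) ≤ 1 / 3 := by
      have h5 : Real.exp (-k) ≤ Real.exp (-2) := Real.exp_le_exp.2 (by linarith only [hA, hk, hAd, hσ2, hσ0])
      have h6 : Real.exp (-2) ≤ 1 / 3 := by
        rw [Real.exp_neg, ← one_div]
        apply one_div_le_one_div_of_le (by norm_num)
        have h7 := Real.add_one_le_exp (2 : ℝ)
        linarith only [h7]
      exact h5.trans h6
    linarith only [h4]
  have hσk : |σ| ^ (-(A * d)) * |σ| ^ k ≤ |σ| ^ A := by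
    rw [← Real.rpow_add hσ0]
    apply Real.rpow_le_rpow_of_exponent_ge hσ0 (by linarith only [hσ2, hσ0])
    rw [hk]
    linarith only [hσ2, hσ0]
  have hcast : (((2 * R + 1) ^ d : ℕ) : ℝ) = (2 * (R : ℝ) + 1) ^ d := by push_cast; rfl
  rw [hcast]
  have hE0 : 0 ≤ Real.exp (-(k * l)) := (Real.exp_pos _).le
  calc (2 * (R : ℝ) + 1) ^ d * (2 * Real.exp (-(k * l))) + (2 * (R : ℝ) + 1) ^ d *
        (8 * (p : ℝ) * ((|σ| * r / (2 * τ)) ^ 2 * ((1 + 1024 * Real.pi) * m) * η⁻¹)) ^ p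
      ≤ (2 * (R : ℝ) + 1) ^ d * (2 * Real.exp (-(k * l))) +
        (2 * (R : ℝ) + 1) ^ d * Real.exp (-(k * l)) := by
        gcongr
    _ = (2 * (R : ℝ) + 1) ^ d * (3 * Real.exp (-(k * l))) := by ring
    _ ≤ |σ| ^ (-(A * d)) * (3 * Real.exp (-(k * l))) :=
        mul_le_mul_of_nonneg_right hRd (by positivity)
    _ = (3 * Real.exp (-k)) * (|σ| ^ (-(A * d)) * |σ| ^ k) := by rw [hexp]; ring
    _ ≤ 1 * |σ| ^ A := mul_le_mul h3 hσk (by positivity) (by norm_num)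
    _ = |σ| ^ A := one_mul _

end Pool.Agent.LE.MN.H8
end
end -- Pool.Agent.Helper8_LYM.PRB
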