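import Pool.Agent.Helper12_MEB.B074

/-!
# Merged copies (generated) of the modules

* `Pool.Agent.Helper24_LIR.HSE`
* `Pool.Agent.Helper46_LIR.PAE`
-/

set_option autoImplicit false

section -- Pool.Agent.Helper24_LIR.HSE

/-!
# HSE (squad LIR): the Hilbert-Schmidt bound on the torus
-/

set_option autoImplicit false

open scoped BigOperators ComplexConjugate

noncomputable section

namespace Pool.Agent.LE.IR.H24

open Pool.Agent.Anderson hiding box mem_box card_box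
open Pool.Agent.Loc Pool.Agent.Mob Pool.Agent.Helper54.Bal
  Pool.Agent.Helper96.EXP Pool.Agent.BED
open Pool.Agent.LE.MN Pool.Agent.LE.CL Pool.Agent.LE.IR

variable {d M : ℕ} [NeZero M]

/-! ### the mean over the momenta -/

theorem Mpos (d M : ℕ) [NeZero M] : (0 : ℝ) < (M : ℝ) ^ d := by
  have : 0 < M := Nat.pos_of_ne_zero (NeZero.ne M)
  positivity

theorem pm_le {F G : Tor d M → ℝ} (h : ∀ p, F p ≤ G p) : pm F ≤ pm G := by
  unfold pm
  exact div_le_div_of_nonneg_right (Finset.sum_le_sum fun p _ => h p) (Mpos d M).le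

theorem pm_nonneg {F : Tor d M → ℝ} (h : ∀ p, 0 ≤ F p) : 0 ≤ pm F := by
  unfold pm
  exact div_nonneg (Finset.sum_nonneg fun p _ => h p) (Mpos d M).le

theorem pm_add (F G : Tor d M → ℝ) : pm (fun p => F p + G p) = pm F + pm G := by
  unfold pm
  rw [Finset.sum_add_distrib, add_div]

theorem pm_mul (c : ℝ) (F : Tor d M → ℝ) : pm (fun p => c * F p) = c * pm F := by
  unfold pm
  rw [← Finset.mul_sum, mul_div_assoc]

theorem pm_sum {ι : Type} (s : Finset ι) (F : ι → Tor d M → ℝ) :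
    pm (fun p => ∑ k ∈ s, F k p) = ∑ k ∈ s, pm (F k) := by
  unfold pm
  rw [Finset.sum_comm, Finset.sum_div]

/-! ### linear combinations -/

theorem ft_lnt (C : Finset (Tor d M)) (ψ : Tor d M → Tor d M → ℂ) (v : C → ℂ) (p : Tor d M) :
    ft (lnt C ψ v) p = ∑ x : C, v x * ft (ψ x) p := by
  unfold ft lnt
  simp only [Finset.mul_sum]
  rw [Finset.sum_comm]
  refine Finset.sum_congr rfl fun x _ => Finset.sum_congr rfl fun y _ => ?_
  ring

theorem ft_add (f g : Tor d M → ℂ) (p : Tor d M) :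
    ft (fun y => f y + g y) p = ft f p + ft g p := by
  unfold ft
  rw [← Finset.sum_add_distrib]
  exact Finset.sum_congr rfl fun y _ => by ring

theorem ft_sub (f g : Tor d M → ℂ) (p : Tor d M) :
    ft (fun y => f y - g y) p = ft f p - ft g p := by
  unfold ft
  rw [← Finset.sum_sub_distrib]
  exact Finset.sum_congr rfl fun y _ => by ring

theorem ft_mul (c : ℂ) (f : Tor d M → ℂ) (p : Tor d M) :
    ft (fun y => c * f y) p = c * ft f p := by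
  unfold ft
  rw [Finset.mul_sum]
  exact Finset.sum_congr rfl fun y _ => by ring

theorem bes_ft {C : Finset (Tor d M)} {v : C → C → ℂ} (hv : BesT C v)
    {S : Tor d M → Tor d M → ℂ} {b : ℝ} (p : Tor d M) (hS : ∀ x ∈ C, ‖ft (S x) p‖ ≤ b) :
    ∑ k, ‖ft (lnt C S (v k)) p‖ ^ 2 ≤ C.card * b ^ 2 := by
  have h := hv (fun x => ft (S x) p)
  have h1 : ∀ k, ∑ x : C, ft (S x) p * v k x = ft (lnt C S (v k)) p := by
    intro k
    rw [ft_lnt]
    exact Finset.sum_congr rfl fun x _ => mul_comm _ _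
  simp only [h1] at h
  refine h.trans ?_
  calc ∑ x : C, ‖ft (S x) p‖ ^ 2 ≤ ∑ _x : C, b ^ 2 :=
        Finset.sum_le_sum fun x _ => pow_le_pow_left₀ (norm_nonneg _) (hS x x.2) 2
    _ = C.card * b ^ 2 := by
        rw [Finset.sum_const, Finset.card_univ, Fintype.card_coe, nsmul_eq_mul]

theorem bes_sum {C : Finset (Tor d M)} {v : C → C → ℂ} (hv : BesT C v)
    {e : Tor d M → Tor d M → ℂ} {b : ℝ} (he : ∀ x ∈ C, ∑ y, ‖e x y‖ ^ 2 ≤ b) :
    ∑ k, ∑ y, ‖lnt C e (v k) y‖ ^ 2 ≤ C.card * b := by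
  rw [Finset.sum_comm]
  calc ∑ y, ∑ k, ‖lnt C e (v k) y‖ ^ 2 ≤ ∑ y, ∑ x : C, ‖e x y‖ ^ 2 := by
        refine Finset.sum_le_sum fun y _ => ?_
        have h := hv (fun x => e x y)
        have h1 : ∀ k, ∑ x : C, e x y * v k x = lnt C e (v k) y := by
          intro k
          unfold lnt
          exact Finset.sum_congr rfl fun x _ => mul_comm _ _
        simp only [h1] at h
        exact h
    _ = ∑ x : C, ∑ y, ‖e x y‖ ^ 2 := Finset.sum_comm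
    _ ≤ ∑ _x : C, b := Finset.sum_le_sum fun x _ => he x x.2
    _ = C.card * b := by
        rw [Finset.sum_const, Finset.card_univ, Fintype.card_coe, nsmul_eq_mul]

theorem aop_lnt (C : Finset (Tor d M)) (ψ : Tor d M → Tor d M → ℂ) (v : C → ℂ)
    (ω : Tor d M → ℝ) (h lam : ℝ) (y : Tor d M) :
    aop ω h lam (lnt C ψ v) y = ∑ x : C, v x * aop ω h lam (ψ x) y := by
  unfold aop lnt
  simp only [mul_add, Finset.sum_add_distrib, Finset.mul_sum, mul_sub, Finset.sum_sub_distrib]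
  have c1 : ∀ f : C → Fin d → ℂ, ∑ x : C, ∑ i : Fin d, f x i = ∑ i : Fin d, ∑ x : C, f x i :=
    fun f => Finset.sum_comm
  simp only [c1]
  have e1 : ∀ a b e : ℂ, a * (b * e) = b * (a * e) := fun a b e => by ring
  simp only [e1]

theorem lnt_sub (C : Finset (Tor d M)) (g s : Tor d M → Tor d M → ℂ) (v : C → ℂ) :
    (fun y => lnt C g v y - lnt C s v y) = lnt C (fun x u => g x u - s x u) v := by
  funext y
  unfold lnt
  rw [← Finset.sum_sub_distrib]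
  exact Finset.sum_congr rfl fun x _ => by ring

theorem norm_sq_four (a b c e : ℂ) : ‖a + b + c - e‖ ^ 2 ≤
    4 * (‖a‖ ^ 2 + ‖b‖ ^ 2 + ‖c‖ ^ 2 + ‖e‖ ^ 2) := by
  have h1 : ‖a + b + c - e‖ ≤ ‖a‖ + ‖b‖ + ‖c‖ + ‖e‖ := by
    calc ‖a + b + c - e‖ ≤ ‖a + b + c‖ + ‖e‖ := norm_sub_le _ _
      _ ≤ ‖a + b‖ + ‖c‖ + ‖e‖ := by linarith only [norm_add_le (a + b) c]
      _ ≤ _ := by linarith only [norm_add_le a b]
  have h2 : 0 ≤ ‖a + b + c - e‖ := norm_nonneg _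
  have h3 := pow_le_pow_left₀ h2 h1 2
  linarith only [h3, sq_nonneg (‖a‖ - ‖b‖), sq_nonneg (‖a‖ - ‖c‖), sq_nonneg (‖a‖ - ‖e‖),
    sq_nonneg (‖b‖ - ‖c‖), sq_nonneg (‖b‖ - ‖e‖), sq_nonneg (‖c‖ - ‖e‖)]

theorem norm_sq_two (a b : ℂ) : ‖a + b‖ ^ 2 ≤ 2 * ‖a‖ ^ 2 + 2 * ‖b‖ ^ 2 := by
  have h1 := norm_add_le a b
  have h2 : 0 ≤ ‖a + b‖ := norm_nonneg _
  have h3 := pow_le_pow_left₀ h2 h1 2
  linarith only [h3, sq_nonneg (‖a‖ - ‖b‖)]

/-! ### the equation -/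

variable {ω : Tor d M → ℝ} {h lam w l η τ φ e0 A κ Γ β : ℝ} {C C' : Finset (Tor d M)}
  {g s S F e : Tor d M → Tor d M → ℂ}

/-- the Fourier transform of the equation -/
theorem hat_eq (ftb : FtbStmt) (hs : SysT ω h lam w l η τ φ e0 A κ Γ β C C' g s S F e)
    (v : C → ℂ) (p : Tor d M) :
    ((w ^ 2 * (ds p - l) : ℝ) : ℂ) *
        ft (fun y => lnt C g v y - lnt C s v y) p =
      ft (lnt C S v) p + ft (lnt C F v) p + ft (lnt C e v) p -
        ft (fun x => aop ω h lam (fun y => lnt C g v y - lnt C s v y) x -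
          fop w l (fun y => lnt C g v y - lnt C s v y) x) p := by
  set r : Tor d M → ℂ := fun y => lnt C g v y - lnt C s v y with hr
  have h1 : ∀ x, aop ω h lam r x = (lnt C S v x + lnt C F v x) + lnt C e v x := by
    intro y
    rw [hr, lnt_sub, aop_lnt]
    unfold lnt
    rw [← Finset.sum_add_distrib, ← Finset.sum_add_distrib]
    refine Finset.sum_congr rfl fun x _ => ?_
    rw [hs.heq x x.2 y]
    ring
  have h2 : ft (fun x => aop ω h lam r x) p =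
      ft (lnt C S v) p + ft (lnt C F v) p + ft (lnt C e v) p := by
    have : (fun x => aop ω h lam r x) =
        fun x => (lnt C S v x + lnt C F v x) + lnt C e v x := funext h1
    rw [this, ft_add (fun x => lnt C S v x + lnt C F v x) (lnt C e v),
      ft_add (lnt C S v) (lnt C F v)]
  have h3 : ft (fop w l r) p = ((w ^ 2 * (ds p - l) : ℝ) : ℂ) * ft r p := by
    have h4 := (ftb d M).2.2.2.2.2.2.2.2.1 r p
    have h5 : fop w l r = fun x => ((w ^ 2 : ℝ) : ℂ) *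
        ((fun x => ∑ i : Fin d, (2 * r x - r (x + ev i) - r (x - ev i))) x -
          (fun x => (l : ℂ) * r x) x) := by
      funext x
      rfl
    rw [h5, ft_mul, ft_sub, h4, ft_mul]
    push_cast
    ring
  have h6 : ft (fun x => aop ω h lam r x - fop w l r x) p =
      ft (fun x => aop ω h lam r x) p - ft (fop w l r) p := ft_sub _ _ p
  rw [h6, h2, h3]
  ring

theorem w_sq (hw : |w - 1| ≤ 1 / 10) : (81 : ℝ) / 100 ≤ w ^ 2 := by
  have := abs_le.1 hw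
  have h1 : (9 : ℝ) / 10 ≤ w := by linarith only [this.1]
  have h2 := pow_le_pow_left₀ (by norm_num) h1 2
  linarith only [h2]

/-- the pointwise inequality -/
theorem pt_ineq (ftb : FtbStmt) (hs : SysT ω h lam w l η τ φ e0 A κ Γ β C C' g s S F e)
    (hw : |w - 1| ≤ 1 / 10) (v : C → ℂ) (p : Tor d M) :
    (ds p - l) ^ 2 * ‖ft (fun y => lnt C g v y - lnt C s v y) p‖ ^ 2 ≤
      7 * (‖ft (lnt C S v) p‖ ^ 2 + ‖ft (lnt C F v) p‖ ^ 2 + ‖ft (lnt C e v) p‖ ^ 2 +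
        ‖ft (fun x => aop ω h lam (fun y => lnt C g v y - lnt C s v y) x -
          fop w l (fun y => lnt C g v y - lnt C s v y) x) p‖ ^ 2) := by
  have h1 := hat_eq ftb hs v p
  have h2 := norm_sq_four (ft (lnt C S v) p) (ft (lnt C F v) p) (ft (lnt C e v) p)
    (ft (fun x => aop ω h lam (fun y => lnt C g v y - lnt C s v y) x -
          fop w l (fun y => lnt C g v y - lnt C s v y) x) p)
  rw [← h1, norm_mul, mul_pow, Complex.norm_real, Real.norm_eq_abs, sq_abs] at h2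
  have h3 := w_sq hw
  set R := ‖ft (fun y => lnt C g v y - lnt C s v y) p‖ ^ 2 with hR
  have hR0 : 0 ≤ R := by positivity
  set Q := ‖ft (lnt C S v) p‖ ^ 2 + ‖ft (lnt C F v) p‖ ^ 2 + ‖ft (lnt C e v) p‖ ^ 2 +
    ‖ft (fun x => aop ω h lam (fun y => lnt C g v y - lnt C s v y) x -
          fop w l (fun y => lnt C g v y - lnt C s v y) x) p‖ ^ 2 with hQ
  have hQ0 : 0 ≤ Q := by positivity
  have h4 : (81 / 100 : ℝ) ^ 2 ≤ (w ^ 2) ^ 2 := pow_le_pow_left₀ (by norm_num) h3 2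
  have h5 : 0 ≤ (ds p - l) ^ 2 * R := by positivity
  have h6 : (81 / 100 : ℝ) ^ 2 * ((ds p - l) ^ 2 * R) ≤ (w ^ 2) ^ 2 * ((ds p - l) ^ 2 * R) :=
    mul_le_mul_of_nonneg_right h4 h5
  have h7 : (w ^ 2) ^ 2 * ((ds p - l) ^ 2 * R) = (w ^ 2 * (ds p - l)) ^ 2 * R := by ring
  linarith only [h2, h6, h7, hQ0]

theorem main_ineq (ftb : FtbStmt) (hs : SysT ω h lam w l η τ φ e0 A κ Γ β C C' g s S F e)
    (hw : |w - 1| ≤ 1 / 10) (v : C → C → ℂ) {ρ : Tor d M → ℝ} (hρ : ∀ p, 0 ≤ ρ p) :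
    ∑ k, pm (fun p => ρ p * ((ds p - l) ^ 2 *
        ‖ft (fun y => lnt C g (v k) y - lnt C s (v k) y) p‖ ^ 2)) ≤
      7 * ((∑ k, pm (fun p => ρ p * ‖ft (lnt C S (v k)) p‖ ^ 2)) +
        (∑ k, pm (fun p => ρ p * ‖ft (lnt C F (v k)) p‖ ^ 2)) +
        (∑ k, pm (fun p => ρ p * ‖ft (lnt C e (v k)) p‖ ^ 2)) +
        ∑ k, pm (fun p => ρ p *
          ‖ft (fun x => aop ω h lam (fun y => lnt C g (v k) y - lnt C s (v k) y) x -
            fop w l (fun y => lnt C g (v k) y - lnt C s (v k) y) x) p‖ ^ 2)) := by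
  rw [← Finset.sum_add_distrib, ← Finset.sum_add_distrib, ← Finset.sum_add_distrib,
    Finset.mul_sum]
  refine Finset.sum_le_sum fun k _ => ?_
  rw [← pm_add, ← pm_add, ← pm_add, ← pm_mul]
  refine pm_le fun p => ?_
  have h1 := mul_le_mul_of_nonneg_left (pt_ineq ftb hs hw (v k) p) (hρ p)
  refine h1.trans (le_of_eq ?_)
  ring

theorem sum_pm_le (ftb : FtbStmt) {ρ : Tor d M → ℝ} {b : ℝ} (hb : ∀ p, ρ p ≤ b)
    (f : C → Tor d M → ℂ) :
    ∑ k, pm (fun p => ρ p * ‖ft (f k) p‖ ^ 2) ≤ b * ∑ k, ∑ y, ‖f k y‖ ^ 2 := by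
  rw [Finset.mul_sum]
  refine Finset.sum_le_sum fun k _ => ?_
  rw [(ftb d M).2.2.2.2.2.1 (f k), ← pm_mul]
  exact pm_le fun p => mul_le_mul_of_nonneg_right (hb p) (by positivity)

/-- the sum of the source terms -/
theorem sum_S_le (ftb : FtbStmt) {v : C → C → ℂ} (hv : BesT C v) {b K₁ K₂ : ℝ}
    (hS1 : ∀ x ∈ C, ∀ p, ‖ft (S x) p‖ ≤ A) (hS2 : ∀ x ∈ C, ∑ y, ‖S x y‖ ^ 2 ≤ b)
    {ρ : Tor d M → ℝ} (hρ : ∀ p, 0 ≤ ρ p)
    (h1 : pm (fun p => if ds p ≤ κ then ρ p else 0) ≤ K₁)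
    (h2 : ∀ p, ¬ ds p ≤ κ → ρ p ≤ K₂) (hK2 : 0 ≤ K₂) :
    ∑ k, pm (fun p => ρ p * ‖ft (lnt C S (v k)) p‖ ^ 2) ≤
      C.card * A ^ 2 * K₁ + K₂ * (C.card * b) := by
  have e1 : ∀ k, pm (fun p => ρ p * ‖ft (lnt C S (v k)) p‖ ^ 2) =
      pm (fun p => (if ds p ≤ κ then ρ p else 0) * ‖ft (lnt C S (v k)) p‖ ^ 2) +
        pm (fun p => (if ds p ≤ κ then 0 else ρ p) * ‖ft (lnt C S (v k)) p‖ ^ 2) := by
    intro k
    rw [← pm_add]
    congr 1
    funext p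
    by_cases hp : ds p ≤ κ
    · rw [if_pos hp, if_pos hp]; ring
    · rw [if_neg hp, if_neg hp]; ring
  rw [Finset.sum_congr rfl fun k _ => e1 k, Finset.sum_add_distrib]
  refine add_le_add ?_ ?_
  · rw [← pm_sum]
    have e2 : pm (fun p => ∑ k : C, (if ds p ≤ κ then ρ p else 0) *
        ‖ft (lnt C S (v k)) p‖ ^ 2) ≤
        pm (fun p => (C.card * A ^ 2) * (if ds p ≤ κ then ρ p else 0)) := by
      refine pm_le fun p => ?_
      rw [← Finset.mul_sum, mul_comm]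
      refine mul_le_mul_of_nonneg_right (bes_ft hv p fun x hx => hS1 x hx p) ?_
      by_cases hp : ds p ≤ κ
      · rw [if_pos hp]; exact hρ p
      · rw [if_neg hp]
    refine e2.trans ?_
    rw [pm_mul]
    exact mul_le_mul_of_nonneg_left h1 (by positivity)
  · refine (sum_pm_le ftb (b := K₂) (fun p => ?_) (fun k => lnt C S (v k))).trans ?_
    · by_cases hp : ds p ≤ κ
      · rw [if_pos hp]; exact hK2
      · rw [if_neg hp]; exact h2 p hp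
    · exact mul_le_mul_of_nonneg_left (bes_sum hv hS2) hK2

/-! ### the two inequalities -/

theorem mt_sq (l η : ℝ) (p : Tor d M) : mt l η p ^ 2 = (ds p - l) ^ 2 + η ^ 2 :=
  Real.sq_sqrt (by positivity)

theorem mt_ge {l η : ℝ} (hη : 0 < η) (p : Tor d M) : η ≤ mt l η p := by
  unfold mt
  refine Real.le_sqrt_of_sq_le ?_
  linarith only [sq_nonneg (ds p - l)]

theorem mt_pos {l η : ℝ} (hη : 0 < η) (p : Tor d M) : 0 < mt l η p := hη.trans_le (mt_ge hη p)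

theorem mt_far {l η κ : ℝ} (h4 : 4 * l ≤ κ) (hκ : 0 < κ) {p : Tor d M} (hp : ¬ ds p ≤ κ) :
    3 / 4 * κ ≤ mt l η p := by
  unfold mt
  refine Real.le_sqrt_of_sq_le ?_
  have h1 : 3 / 4 * κ ≤ ds p - l := by
    have := not_le.1 hp
    linarith only [this, h4]
  have h2 : (3 / 4 * κ) ^ 2 ≤ (ds p - l) ^ 2 := pow_le_pow_left₀ (by linarith only [hκ]) h1 2
  linarith only [h2, sq_nonneg η]

/-- the arithmetic at the end: `a = η α` -/
theorem arith {a Y N D₀ b₀ t c K₁ K₂ : ℝ} (ha : 0 ≤ a) (hY : 0 ≤ Y) (hN : 0 ≤ N)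
    (hD : 0 ≤ D₀) (hDb : D₀ ≤ b₀) (ht : 0 ≤ t) (htc : t ≤ c) (htb : t * b₀ ≤ c * D₀)
    (hc0 : 0 ≤ c) (hc : c ≤ 1 / 4000) (hK₁ : 0 ≤ K₁) (hK₂ : 0 ≤ K₂)
    (h1 : Y ≤ 7 * (K₁ * (N * b₀) + c * a + c * (N * D₀) + t * Y) + 2 * (a + N * D₀))
    (h2 : a ≤ 8 * (N * D₀) + 56 * (K₂ * (N * D₀) + c * a + c * (N * D₀) + t * Y)) :
    a ≤ (100 + 200 * K₁ + 200 * K₂) * (N * D₀) ∧
      Y ≤ (1000 + 2000 * K₁ + 2000 * K₂) * (N * b₀) := by
  have hb : 0 ≤ b₀ := hD.trans hDb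
  set n := N * D₀ with hn
  set m := N * b₀ with hm
  have hn0 : 0 ≤ n := by positivity
  have hm0 : 0 ≤ m := by positivity
  have hnm : n ≤ m := mul_le_mul_of_nonneg_left hDb hN
  have hca : c * a ≤ 1 / 4000 * a := mul_le_mul_of_nonneg_right hc ha
  have hcn : c * n ≤ 1 / 4000 * n := mul_le_mul_of_nonneg_right hc hn0
  have htY : t * Y ≤ 1 / 4000 * Y := mul_le_mul_of_nonneg_right (htc.trans hc) hY
  have hK1m : 0 ≤ K₁ * m := by positivity
  have hK2n : 0 ≤ K₂ * n := by positivity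
  have hK1n : 0 ≤ K₁ * n := by positivity
  have hY1 : Y ≤ 8 * (K₁ * m) + 3 * a + 3 * m := by
    linarith only [h1, hca, hcn, htY, hK1m, hn0, hm0, hnm, ha]
  have e1 : t * Y ≤ t * (8 * (K₁ * m) + 3 * a + 3 * m) := mul_le_mul_of_nonneg_left hY1 ht
  have e2 : t * m ≤ c * n := by
    have : t * m = N * (t * b₀) := by rw [hm]; ring
    rw [this]
    have : c * n = N * (c * D₀) := by rw [hn]; ring
    rw [this]
    exact mul_le_mul_of_nonneg_left htb hN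
  have e3 : t * m ≤ 1 / 4000 * n := e2.trans hcn
  have e4 : t * a ≤ 1 / 4000 * a := mul_le_mul_of_nonneg_right (htc.trans hc) ha
  have e5 : K₁ * (t * m) ≤ K₁ * (1 / 4000 * n) := mul_le_mul_of_nonneg_left e3 hK₁
  have e6 : t * Y ≤ 8 * (K₁ * (1 / 4000 * n)) + 3 * (1 / 4000 * a) + 3 * (1 / 4000 * n) := by
    have : t * (8 * (K₁ * m) + 3 * a + 3 * m) = 8 * (K₁ * (t * m)) + 3 * (t * a) +
        3 * (t * m) := by ring
    rw [this] at e1
    linarith only [e1, e3, e4, e5]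
  have ha1 : a ≤ (100 + 200 * K₁ + 200 * K₂) * n := by
    have : (100 + 200 * K₁ + 200 * K₂) * n = 100 * n + 200 * (K₁ * n) + 200 * (K₂ * n) := by ring
    rw [this]
    have e7 : K₁ * (1 / 4000 * n) = 1 / 4000 * (K₁ * n) := by ring
    rw [e7] at e6
    linarith only [e6, h2, hca, hcn, hK2n, hK1n, hn0, ha]
  refine ⟨ha1, ?_⟩
  have ha2 : (100 + 200 * K₁ + 200 * K₂) * n ≤ (100 + 200 * K₁ + 200 * K₂) * m :=
    mul_le_mul_of_nonneg_left hnm (by positivity)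
  have hK2m : 0 ≤ K₂ * m := mul_nonneg hK₂ hm0
  linarith only [hY1, ha1, ha2, hK1m, hK2m, hm0]

theorem rp1 {κ : ℝ} (hκ : 0 < κ) {d : ℕ} (hd : 3 ≤ d) :
    κ ^ ((d : ℝ) / 2) = κ * κ ^ (((d : ℝ) - 2) / 2) := by
  have h3 : (3 : ℝ) ≤ d := by exact_mod_cast hd
  rw [← Real.rpow_one_add' hκ.le]
  · exact congrArg (fun t => κ ^ t) (by ring)
  · intro h0
    linarith only [h0, h3]

theorem rp2 {κ : ℝ} (hκ : 0 < κ) (d : ℕ) :
    κ ^ ((d : ℝ) / 2) = κ ^ 2 * κ ^ (((d : ℝ) - 4) / 2) := by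
  rw [← Real.rpow_natCast κ 2, ← Real.rpow_add hκ]
  refine congrArg (fun t => κ ^ t) ?_
  push_cast
  ring

/-- HSE -/
theorem hse (ftb : FtbStmt) : HseStmt := by
  intro d A hd hA
  have hA0 : 0 ≤ A := by linarith only [hA]
  refine ⟨1 / 4000, 1000 + 2000 * (A ^ 3 + 2 * A) + 2000 * (A ^ 3 + 2 * A), by norm_num, ?_, ?_⟩
  · have : 0 ≤ A ^ 3 + 2 * A := by positivity
    linarith only [this]
  intro M _ ω h lam w l η τ φ e0 κ Γ β D₀ b₀ C C' g s S F e v hn hs hv hH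
  obtain ⟨hη, hηc, hη1⟩ := hn.hη
  obtain ⟨hl, h4l, hκ1⟩ := hn.hl
  obtain ⟨hD, hDb⟩ := hn.hD
  obtain ⟨hκa, hκb⟩ := hn.hκ
  obtain ⟨hΓ, hΓη⟩ := hn.hΓ
  obtain ⟨hφ, hφη⟩ := hn.hφ
  obtain ⟨he0, he0c⟩ := hn.he
  obtain ⟨hτ, hτb⟩ := hn.hτ
  have hκ : 0 < κ := by linarith only [hl, h4l]
  have hb : 0 < b₀ := hD.trans_le hDb
  have hN : (0 : ℝ) ≤ C.card := Nat.cast_nonneg _
  set N : ℝ := (C.card : ℝ) with hNdef
  have hlog : 0 ≤ Real.log (1 / η) :=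
    Real.log_nonneg (by rw [le_div_iff₀ hη]; linarith only [hη1])
  have hηκ : η ≤ 1 / 4000 * κ := by
    have : η * 1 ≤ η * (1 + Real.log (1 / η)) :=
      mul_le_mul_of_nonneg_left (by linarith only [hlog]) hη.le
    linarith only [this, hηc]
  -- notation
  set α : ℝ := ∑ k, ∑ y, ‖lnt C g (v k) y‖ ^ 2 with hα
  set Y : ℝ := ∑ k, pm (fun p => mt l η p *
    ‖ft (fun y => lnt C g (v k) y - lnt C s (v k) y) p‖ ^ 2) with hYd
  have hα0 : 0 ≤ α := Finset.sum_nonneg fun k _ => Finset.sum_nonneg fun y _ => sq_nonneg _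
  have hm0 : ∀ p : Tor d M, 0 < mt l η p := fun p => mt_pos hη p
  have hY0 : 0 ≤ Y := Finset.sum_nonneg fun k _ => pm_nonneg fun p =>
    mul_nonneg (hm0 p).le (sq_nonneg _)
  have hηi : 0 < η⁻¹ := inv_pos.2 hη
  have hmi : ∀ p : Tor d M, (mt l η p)⁻¹ ≤ η⁻¹ := fun p => inv_anti₀ hη (mt_ge hη p)
  have hmi0 : ∀ p : Tor d M, 0 ≤ (mt l η p)⁻¹ := fun p => (inv_pos.2 (hm0 p)).le
  -- sums
  have hss : ∑ k, ∑ y, ‖lnt C s (v k) y‖ ^ 2 ≤ N * Γ := bes_sum hv hs.hs2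
  have hes : ∑ k, ∑ y, ‖lnt C e (v k) y‖ ^ 2 ≤ N * e0 := bes_sum hv hs.he
  have hFs : ∑ k, ∑ y, ‖lnt C F (v k) y‖ ^ 2 ≤ φ ^ 2 * α := by
    rw [hα, Finset.mul_sum]
    exact Finset.sum_le_sum fun k _ => hs.hF (v k)
  have hrs : ∑ k, ∑ y, ‖lnt C g (v k) y - lnt C s (v k) y‖ ^ 2 ≤ 2 * α + 2 * (N * Γ) := by
    have e1 : ∑ k, ∑ y, ‖lnt C g (v k) y - lnt C s (v k) y‖ ^ 2 ≤
        ∑ k, ∑ y, (2 * ‖lnt C g (v k) y‖ ^ 2 + 2 * ‖lnt C s (v k) y‖ ^ 2) := by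
      refine Finset.sum_le_sum fun k _ => Finset.sum_le_sum fun y _ => ?_
      have := norm_sq_two (lnt C g (v k) y) (-lnt C s (v k) y)
      rw [norm_neg, ← sub_eq_add_neg] at this
      exact this
    simp only [Finset.sum_add_distrib, ← Finset.mul_sum] at e1
    linarith only [e1, hss]
  -- the form bound
  have hW : ∑ k, pm (fun p => (mt l η p)⁻¹ *
      ‖ft (fun x => aop ω h lam (fun y => lnt C g (v k) y - lnt C s (v k) y) x -
        fop w l (fun y => lnt C g (v k) y - lnt C s (v k) y) x) p‖ ^ 2) ≤ τ ^ 2 * Y := by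
    rw [hYd, Finset.mul_sum]
    exact Finset.sum_le_sum fun k _ => hs.hW _
  have hφ2 : φ ^ 2 ≤ (1 / 4000 * η) ^ 2 := pow_le_pow_left₀ hφ hφη 2
  have hφη1 : η⁻¹ * (φ ^ 2 * α) ≤ 1 / 4000 * (η * α) := by
    have e1 : η⁻¹ * (φ ^ 2 * α) ≤ η⁻¹ * ((1 / 4000 * η) ^ 2 * α) :=
      mul_le_mul_of_nonneg_left (mul_le_mul_of_nonneg_right hφ2 hα0) hηi.le
    have e2 : η⁻¹ * ((1 / 4000 * η) ^ 2 * α) = 1 / 16000000 * (η * α) := by
      field_simp
      ring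
    have e3 : 0 ≤ η * α := mul_nonneg hη.le hα0
    linarith only [e1, e2, e3]
  have heη : η⁻¹ * (N * e0) ≤ 1 / 4000 * (N * D₀) := by
    have e1 : η⁻¹ * (N * e0) ≤ η⁻¹ * (N * (1 / 4000 * η * D₀)) :=
      mul_le_mul_of_nonneg_left (mul_le_mul_of_nonneg_left he0c hN) hηi.le
    refine e1.trans (le_of_eq ?_)
    field_simp
  -- the first inequality
  have hI1 : Y ≤ (∑ k, pm (fun p => (mt l η p)⁻¹ * ((ds p - l) ^ 2 *
      ‖ft (fun y => lnt C g (v k) y - lnt C s (v k) y) p‖ ^ 2))) +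
        η * (2 * α + 2 * (N * Γ)) := by
    have e0 : η * ∑ k, ∑ y, ‖lnt C g (v k) y - lnt C s (v k) y‖ ^ 2 ≤
        η * (2 * α + 2 * (N * Γ)) := mul_le_mul_of_nonneg_left hrs hη.le
    refine le_trans ?_ (add_le_add_right e0 _)
    rw [hYd, Finset.mul_sum, ← Finset.sum_add_distrib]
    refine Finset.sum_le_sum fun k _ => ?_
    rw [(ftb d M).2.2.2.2.2.1 (fun y => lnt C g (v k) y - lnt C s (v k) y), ← pm_mul, ← pm_add]
    refine pm_le fun p => ?_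
    set R := ‖ft (fun y => lnt C g (v k) y - lnt C s (v k) y) p‖ ^ 2 with hR
    have hR0 : 0 ≤ R := sq_nonneg _
    have hm := hm0 p
    have e1 : mt l η p ≤ (mt l η p)⁻¹ * (ds p - l) ^ 2 + η := by
      have e2 : mt l η p = (mt l η p)⁻¹ * ((ds p - l) ^ 2 + η ^ 2) := by
        rw [← mt_sq l η p]
        field_simp
      have e3 : (mt l η p)⁻¹ * η ^ 2 ≤ η := by
        calc (mt l η p)⁻¹ * η ^ 2 ≤ η⁻¹ * η ^ 2 :=
              mul_le_mul_of_nonneg_right (hmi p) (sq_nonneg _)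
          _ = η := by rw [sq, inv_mul_cancel_left₀ hη.ne']
      rw [mul_add] at e2
      linarith only [e2, e3]
    have e4 := mul_le_mul_of_nonneg_right e1 hR0
    calc mt l η p * R ≤ _ := e4
      _ = _ := by ring
  have hM1 := main_ineq ftb hs hn.hw v hmi0
  have hS1 := sum_S_le (κ := κ) ftb hv (K₁ := A * b₀) (K₂ := 4 / (3 * κ)) hs.hS1 hs.hS2 hmi0 hn.h1
    (fun p hp => by
      have h5 := mt_far (η := η) h4l hκ hp
      have h6 : (mt l η p)⁻¹ ≤ (3 / 4 * κ)⁻¹ := inv_anti₀ (mul_pos (by norm_num) hκ) h5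
      refine h6.trans (le_of_eq ?_)
      field_simp) (div_nonneg (by norm_num) (mul_nonneg (by norm_num) hκ.le))
  have hF1 := sum_pm_le ftb hmi (fun k => lnt C F (v k))
  have hE1 := sum_pm_le ftb hmi (fun k => lnt C e (v k))
  have hκd : (4 : ℝ) / (3 * κ) * (N * (A * κ ^ ((d : ℝ) / 2))) ≤ 2 * A * (N * b₀) := by
    rw [rp1 hκ hd]
    have e2 : (4 : ℝ) / (3 * κ) * (N * (A * (κ * κ ^ (((d : ℝ) - 2) / 2)))) =
        4 / 3 * A * (N * κ ^ (((d : ℝ) - 2) / 2)) := by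
      field_simp
    rw [e2]
    have e3 : N * κ ^ (((d : ℝ) - 2) / 2) ≤ N * b₀ := mul_le_mul_of_nonneg_left hκa hN
    have e4 : 4 / 3 * A * (N * κ ^ (((d : ℝ) - 2) / 2)) ≤ 4 / 3 * A * (N * b₀) :=
      mul_le_mul_of_nonneg_left e3 (mul_nonneg (by norm_num) hA0)
    have e5 : 0 ≤ A * (N * b₀) := mul_nonneg hA0 (mul_nonneg hN hb.le)
    linarith only [e4, e5]
  have hR1 : Y ≤ 7 * ((A ^ 3 + 2 * A) * (N * b₀) + 1 / 4000 * (η * α) + 1 / 4000 * (N * D₀) +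
      τ ^ 2 * Y) + 2 * (η * α + N * D₀) := by
    have t1 := mul_le_mul_of_nonneg_left hFs hηi.le
    have t2 := mul_le_mul_of_nonneg_left hes hηi.le
    have t3 : N * A ^ 2 * (A * b₀) = A ^ 3 * (N * b₀) := by ring
    have t4 : η * (2 * α + 2 * (N * Γ)) ≤ 2 * (η * α + N * D₀) := by
      have : N * (Γ * η) ≤ N * D₀ := mul_le_mul_of_nonneg_left hΓη hN
      linarith only [this]
    have t5 : (A ^ 3 + 2 * A) * (N * b₀) = A ^ 3 * (N * b₀) + 2 * A * (N * b₀) := by ring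
    rw [t3] at hS1
    rw [t5]
    linarith only [hI1, hM1, hS1, hκd, hF1, t1, hφη1, hE1, t2, heη, hW, t4]
  -- the second inequality
  have hI2 : α ≤ 8 * (N * Γ) + 8 * ∑ k, pm (fun p => (mt l η p ^ 2)⁻¹ * ((ds p - l) ^ 2 *
      ‖ft (fun y => lnt C g (v k) y - lnt C s (v k) y) p‖ ^ 2)) := by
    have e0 : (8 : ℝ) * ∑ k, ∑ y, ‖lnt C s (v k) y‖ ^ 2 ≤ 8 * (N * Γ) := by
      linarith only [hss]
    refine le_trans ?_ (add_le_add_left e0 _)
    rw [hα, Finset.mul_sum, Finset.mul_sum, ← Finset.sum_add_distrib]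
    refine Finset.sum_le_sum fun k _ => ?_
    have hk := hH k
    have hpg := (ftb d M).2.2.2.2.2.1 (lnt C g (v k))
    have hps := (ftb d M).2.2.2.2.2.1 (lnt C s (v k))
    -- split
    have e1 : pm (fun p => ‖ft (lnt C g (v k)) p‖ ^ 2) ≤
        pm (fun p => (if ds p ≤ κ then η ^ 2 / mt l η p ^ 2 * ‖ft (lnt C g (v k)) p‖ ^ 2 else 0) +
          (1 / 4 * ‖ft (lnt C g (v k)) p‖ ^ 2 +
            (mt l η p ^ 2)⁻¹ * ((ds p - l) ^ 2 * ‖ft (lnt C g (v k)) p‖ ^ 2))) := by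
      refine pm_le fun p => ?_
      set G := ‖ft (lnt C g (v k)) p‖ ^ 2 with hG
      have hG0 : 0 ≤ G := sq_nonneg _
      have hm := hm0 p
      have hm2 : 0 < mt l η p ^ 2 := pow_pos hm 2
      have e2 : G = η ^ 2 / mt l η p ^ 2 * G + (mt l η p ^ 2)⁻¹ * ((ds p - l) ^ 2 * G) := by
        have e3 : (1 : ℝ) = η ^ 2 / mt l η p ^ 2 + (mt l η p ^ 2)⁻¹ * (ds p - l) ^ 2 := by
          rw [eq_comm, div_eq_mul_inv, mul_comm (η ^ 2), ← mul_add, add_comm (η ^ 2),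
            ← mt_sq l η p, inv_mul_cancel₀ hm2.ne']
        calc G = 1 * G := (one_mul G).symm
          _ = _ := by rw [e3]; ring
      by_cases hp : ds p ≤ κ
      · rw [if_pos hp]
        linarith only [e2, hG0]
      · rw [if_neg hp]
        have h5 := mt_far (η := η) h4l hκ hp
        have h6 : η ^ 2 / mt l η p ^ 2 ≤ 1 / 4 := by
          rw [div_le_iff₀ hm2]
          have h7 : (3 / 4 * κ) ^ 2 ≤ mt l η p ^ 2 :=
            pow_le_pow_left₀ (mul_nonneg (by norm_num) hκ.le) h5 2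
          have h8 : η ^ 2 ≤ (1 / 4000 * κ) ^ 2 := pow_le_pow_left₀ hη.le hηκ 2
          linarith only [h7, h8, sq_nonneg κ]
        have h9 := mul_le_mul_of_nonneg_right h6 hG0
        linarith only [h9, e2]
    rw [pm_add, pm_add, pm_mul] at e1
    have e4 : pm (fun p => (mt l η p ^ 2)⁻¹ * ((ds p - l) ^ 2 * ‖ft (lnt C g (v k)) p‖ ^ 2)) ≤
        2 * pm (fun p => ‖ft (lnt C s (v k)) p‖ ^ 2) +
          2 * pm (fun p => (mt l η p ^ 2)⁻¹ * ((ds p - l) ^ 2 *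
            ‖ft (fun y => lnt C g (v k) y - lnt C s (v k) y) p‖ ^ 2)) := by
      rw [← pm_mul, ← pm_mul, ← pm_add]
      refine pm_le fun p => ?_
      have e5 : ft (lnt C g (v k)) p = ft (lnt C s (v k)) p +
          ft (fun y => lnt C g (v k) y - lnt C s (v k) y) p := by
        rw [ft_sub (lnt C g (v k)) (lnt C s (v k))]
        ring
      have e6 := norm_sq_two (ft (lnt C s (v k)) p)
        (ft (fun y => lnt C g (v k) y - lnt C s (v k) y) p)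
      rw [← e5] at e6
      have hm2 : 0 < mt l η p ^ 2 := pow_pos (hm0 p) 2
      have e7 : (mt l η p ^ 2)⁻¹ * (ds p - l) ^ 2 ≤ 1 := by
        rw [inv_mul_le_iff₀ hm2, mul_one, mt_sq]
        linarith only [sq_nonneg η]
      have e8 : 0 ≤ (mt l η p ^ 2)⁻¹ * (ds p - l) ^ 2 :=
        mul_nonneg (inv_nonneg.2 hm2.le) (sq_nonneg _)
      have e9 := mul_le_mul_of_nonneg_left e6 e8
      have e10 : (mt l η p ^ 2)⁻¹ * (ds p - l) ^ 2 * (2 * ‖ft (lnt C s (v k)) p‖ ^ 2) ≤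
          1 * (2 * ‖ft (lnt C s (v k)) p‖ ^ 2) :=
        mul_le_mul_of_nonneg_right e7 (mul_nonneg zero_le_two (sq_nonneg _))
      have e11 : (mt l η p ^ 2)⁻¹ * (ds p - l) ^ 2 * (2 * ‖ft (lnt C s (v k)) p‖ ^ 2 +
          2 * ‖ft (fun y => lnt C g (v k) y - lnt C s (v k) y) p‖ ^ 2) =
          (mt l η p ^ 2)⁻¹ * (ds p - l) ^ 2 * (2 * ‖ft (lnt C s (v k)) p‖ ^ 2) +
          2 * ((mt l η p ^ 2)⁻¹ * ((ds p - l) ^ 2 *
            ‖ft (fun y => lnt C g (v k) y - lnt C s (v k) y) p‖ ^ 2)) := by ring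
      calc (mt l η p ^ 2)⁻¹ * ((ds p - l) ^ 2 * ‖ft (lnt C g (v k)) p‖ ^ 2) =
          (mt l η p ^ 2)⁻¹ * (ds p - l) ^ 2 * ‖ft (lnt C g (v k)) p‖ ^ 2 := by ring
        _ ≤ _ := e9
        _ ≤ _ := by rw [e11]; linarith only [e10]
    rw [← hpg] at e1
    rw [← hps] at e4
    linarith only [e1, e4, hk]
  have hρ2 : ∀ p : Tor d M, 0 ≤ (mt l η p ^ 2)⁻¹ := fun p =>
    inv_nonneg.2 (sq_nonneg _)
  have hρm : ∀ p : Tor d M, (mt l η p ^ 2)⁻¹ ≤ η⁻¹ * (mt l η p)⁻¹ := by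
    intro p
    rw [sq, mul_inv]
    exact mul_le_mul_of_nonneg_right (hmi p) (hmi0 p)
  have hρb : ∀ p : Tor d M, (mt l η p ^ 2)⁻¹ ≤ (η ^ 2)⁻¹ := fun p =>
    inv_anti₀ (pow_pos hη 2) (pow_le_pow_left₀ hη.le (mt_ge hη p) 2)
  have hM2 := main_ineq ftb hs hn.hw v hρ2
  have hS2 := sum_S_le (κ := κ) ftb hv (K₁ := A * D₀ / η) (K₂ := 16 / (9 * κ ^ 2))
    hs.hS1 hs.hS2 hρ2 hn.h2
    (fun p hp => by
      have h5 := mt_far (η := η) h4l hκ hp
      have h34 : 0 < 3 / 4 * κ := mul_pos (by norm_num) hκ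
      have h6 : (mt l η p ^ 2)⁻¹ ≤ ((3 / 4 * κ) ^ 2)⁻¹ :=
        inv_anti₀ (pow_pos h34 2) (pow_le_pow_left₀ h34.le h5 2)
      refine h6.trans (le_of_eq ?_)
      field_simp
      norm_num) (div_nonneg (by norm_num) (mul_nonneg (by norm_num) (sq_nonneg κ)))
  have hF2 := sum_pm_le ftb hρb (fun k => lnt C F (v k))
  have hE2 := sum_pm_le ftb hρb (fun k => lnt C e (v k))
  have hW2 : ∑ k, pm (fun p => (mt l η p ^ 2)⁻¹ *
      ‖ft (fun x => aop ω h lam (fun y => lnt C g (v k) y - lnt C s (v k) y) x -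
        fop w l (fun y => lnt C g (v k) y - lnt C s (v k) y) x) p‖ ^ 2) ≤
          η⁻¹ * (τ ^ 2 * Y) := by
    refine le_trans ?_ (mul_le_mul_of_nonneg_left hW hηi.le)
    rw [Finset.mul_sum]
    refine Finset.sum_le_sum fun k _ => ?_
    rw [← pm_mul]
    refine pm_le fun p => ?_
    rw [← mul_assoc]
    exact mul_le_mul_of_nonneg_right (hρm p) (sq_nonneg _)
  have hκd2 : (16 : ℝ) / (9 * κ ^ 2) * (N * (A * κ ^ ((d : ℝ) / 2))) ≤
      2 * A * (N * D₀) * η⁻¹ := by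
    rw [rp2 hκ d]
    have e2 : (16 : ℝ) / (9 * κ ^ 2) * (N * (A * (κ ^ 2 * κ ^ (((d : ℝ) - 4) / 2)))) =
        16 / 9 * A * (N * (κ ^ (((d : ℝ) - 4) / 2) * η)) * η⁻¹ := by
      field_simp
    rw [e2]
    refine mul_le_mul_of_nonneg_right ?_ hηi.le
    have e3 : N * (κ ^ (((d : ℝ) - 4) / 2) * η) ≤ N * D₀ := mul_le_mul_of_nonneg_left hκb hN
    have e4 : 16 / 9 * A * (N * (κ ^ (((d : ℝ) - 4) / 2) * η)) ≤ 16 / 9 * A * (N * D₀) :=
      mul_le_mul_of_nonneg_left e3 (mul_nonneg (by norm_num) hA0)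
    have e5 : 0 ≤ A * (N * D₀) := mul_nonneg hA0 (mul_nonneg hN hD.le)
    linarith only [e4, e5]
  have hR2 : η * α ≤ 8 * (N * D₀) + 56 * ((A ^ 3 + 2 * A) * (N * D₀) + 1 / 4000 * (η * α) +
      1 / 4000 * (N * D₀) + τ ^ 2 * Y) := by
    have hη2 : (0 : ℝ) < (η ^ 2)⁻¹ := inv_pos.2 (pow_pos hη 2)
    have t1 := mul_le_mul_of_nonneg_left hFs hη2.le
    have t2 := mul_le_mul_of_nonneg_left hes hη2.le
    have u1 : (η ^ 2)⁻¹ * (φ ^ 2 * α) ≤ η⁻¹ * (1 / 4000 * (η * α)) := by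
      have := mul_le_mul_of_nonneg_left hφη1 hηi.le
      refine le_trans (le_of_eq ?_) this
      field_simp
    have u2 : (η ^ 2)⁻¹ * (N * e0) ≤ η⁻¹ * (1 / 4000 * (N * D₀)) := by
      have := mul_le_mul_of_nonneg_left heη hηi.le
      refine le_trans (le_of_eq ?_) this
      field_simp
    have u3 : N * A ^ 2 * (A * D₀ / η) = A ^ 3 * (N * D₀) * η⁻¹ := by
      field_simp
    rw [u3] at hS2
    have u4 : α ≤ 8 * (N * Γ) + 56 * ((A ^ 3 * (N * D₀) * η⁻¹ + 2 * A * (N * D₀) * η⁻¹) +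
        η⁻¹ * (1 / 4000 * (η * α)) + η⁻¹ * (1 / 4000 * (N * D₀)) + η⁻¹ * (τ ^ 2 * Y)) := by
      linarith only [hI2, hM2, hS2, hκd2, hF2, t1, u1, hE2, t2, u2, hW2]
    have u5 := mul_le_mul_of_nonneg_left u4 hη.le
    have u6 : η * (8 * (N * Γ) + 56 * ((A ^ 3 * (N * D₀) * η⁻¹ + 2 * A * (N * D₀) * η⁻¹) +
        η⁻¹ * (1 / 4000 * (η * α)) + η⁻¹ * (1 / 4000 * (N * D₀)) + η⁻¹ * (τ ^ 2 * Y))) =
        8 * (N * (Γ * η)) + 56 * ((A ^ 3 + 2 * A) * (N * D₀) + 1 / 4000 * (η * α) +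
      1 / 4000 * (N * D₀) + τ ^ 2 * Y) := by
      field_simp
    rw [u6] at u5
    have u7 : N * (Γ * η) ≤ N * D₀ := mul_le_mul_of_nonneg_left hΓη hN
    linarith only [u5, u7]
  have hK : 0 ≤ A ^ 3 + 2 * A := add_nonneg (pow_nonneg hA0 3) (mul_nonneg zero_le_two hA0)
  have hτc : τ ^ 2 ≤ 1 / 4000 := by
    have e1 : τ ^ 2 * b₀ ≤ 1 / 4000 * b₀ := hτb.trans (mul_le_mul_of_nonneg_left hDb (by norm_num))
    exact le_of_mul_le_mul_right e1 hb
  have key := arith (a := η * α) (Y := Y) (N := N) (D₀ := D₀) (b₀ := b₀) (t := τ ^ 2)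
    (c := 1 / 4000) (K₁ := A ^ 3 + 2 * A) (K₂ := A ^ 3 + 2 * A) (mul_nonneg hη.le hα0) hY0 hN hD.le hDb
    (sq_nonneg τ) hτc hτb (by norm_num) le_rfl hK hK hR1 hR2
  refine ⟨?_, ?_⟩
  · rw [le_div_iff₀ hη]
    have e1 : α * η = η * α := mul_comm _ _
    rw [e1]
    refine key.1.trans ?_
    have e2 : (1000 + 2000 * (A ^ 3 + 2 * A) + 2000 * (A ^ 3 + 2 * A)) * N * D₀ =
      (1000 + 2000 * (A ^ 3 + 2 * A) + 2000 * (A ^ 3 + 2 * A)) * (N * D₀) := by ring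
    rw [e2]
    refine mul_le_mul_of_nonneg_right ?_ (mul_nonneg hN hD.le)
    linarith only [hK]
  · refine key.2.trans (le_of_eq ?_)
    ring

end Pool.Agent.LE.IR.H24
end
end -- Pool.Agent.Helper24_LIR.HSE

section -- Pool.Agent.Helper46_LIR.PAE

/-!
# PAE (squad LIR): the pairing with the test multiplier on the torus
-/

set_option autoImplicit false

open scoped BigOperators ComplexConjugate

noncomputable section

namespace Pool.Agent.LE.IR.H46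

open Pool.Agent.Anderson hiding box mem_box card_box
open Pool.Agent.Loc Pool.Agent.Mob Pool.Agent.Helper54.Bal
  Pool.Agent.Helper96.EXP Pool.Agent.BED
open Pool.Agent.LE.MN Pool.Agent.LE.CL Pool.Agent.LE.IR Pool.Agent.LE.IR.H24

variable {d M : ℕ} [NeZero M]

/-! ### 1. Sums -/

theorem norm_pm_le {z : Tor d M → ℂ} {F : Tor d M → ℝ} (h : ∀ p, ‖z p‖ ≤ F p) :
    ‖(∑ p, z p) / (M : ℂ) ^ d‖ ≤ pm F := by
  unfold pm
  rw [norm_div, norm_pow, Complex.norm_natCast]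
  exact div_le_div_of_nonneg_right
    ((norm_sum_le _ _).trans (Finset.sum_le_sum fun p _ => h p)) (Mpos d M).le

theorem ofReal_pm (F : Tor d M → ℝ) : ((pm F : ℝ) : ℂ) = (∑ p, ((F p : ℝ) : ℂ)) / (M : ℂ) ^ d := by
  unfold pm
  push_cast
  rfl

theorem cs_le {ι : Type} (s : Finset ι) (f g : ι → ℂ) {N b : ℝ} (hN : 0 ≤ N) (hb : 0 ≤ b)
    (hf : ∑ k ∈ s, ‖f k‖ ^ 2 ≤ N * b ^ 2) (hg : ∑ k ∈ s, ‖g k‖ ^ 2 ≤ N) :
    ∑ k ∈ s, ‖f k‖ * ‖g k‖ ≤ N * b := by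
  have h1 := Finset.sum_mul_sq_le_sq_mul_sq s (fun k => ‖f k‖) (fun k => ‖g k‖)
  have h2 : (∑ k ∈ s, ‖f k‖ ^ 2) * ∑ k ∈ s, ‖g k‖ ^ 2 ≤ (N * b ^ 2) * N :=
    mul_le_mul hf hg (Finset.sum_nonneg fun k _ => by positivity) (by positivity)
  have h3 : (∑ k ∈ s, ‖f k‖ * ‖g k‖) ^ 2 ≤ (N * b) ^ 2 := by
    refine (h1.trans h2).trans (le_of_eq ?_)
    ring
  exact (le_abs_self _).trans (abs_le_of_sq_le_sq h3 (by positivity))

theorem ft_vx (C : Finset (Tor d M)) (v : C → ℂ) (p : Tor d M) :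
    ft (vx C v) p = ∑ x : C, v x * conj (ec p x) := by
  unfold ft
  rw [← Finset.sum_subset (Finset.subset_univ C)]
  · rw [← Finset.sum_coe_sort C (fun y => conj (ec p y) * vx C v y)]
    refine Finset.sum_congr rfl fun x _ => ?_
    have : vx C v x = v x := by
      unfold vx
      rw [dif_pos x.2]
    rw [this, mul_comm]
  · intro y _ hy
    have : vx C v y = 0 := by
      unfold vx
      rw [dif_neg hy]
    rw [this, mul_zero]

theorem bes_u {C : Finset (Tor d M)} {v : C → C → ℂ} (hv : BesT C v) (u : C → ℂ) {b : ℝ}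
    (hu : ∀ x, ‖u x‖ ≤ b) : ∑ k, ‖∑ x : C, v k x * u x‖ ^ 2 ≤ C.card * b ^ 2 := by
  have h := hv u
  have h1 : ∀ k, ∑ x : C, u x * v k x = ∑ x : C, v k x * u x := fun k =>
    Finset.sum_congr rfl fun x _ => mul_comm _ _
  simp only [h1] at h
  refine h.trans ?_
  calc ∑ x : C, ‖u x‖ ^ 2 ≤ ∑ _x : C, b ^ 2 :=
        Finset.sum_le_sum fun x _ => pow_le_pow_left₀ (norm_nonneg _) (hu x) 2
    _ = C.card * b ^ 2 := by
        rw [Finset.sum_const, Finset.card_univ, Fintype.card_coe, nsmul_eq_mul]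

theorem bes_vx (ftb : FtbStmt) {C : Finset (Tor d M)} {v : C → C → ℂ} (hv : BesT C v)
    (p : Tor d M) : ∑ k, ‖ft (vx C (v k)) p‖ ^ 2 ≤ C.card := by
  have h := bes_u hv (fun x => conj (ec p x)) (b := 1) (fun x => by
    rw [Complex.norm_conj, (ftb d M).1])
  simp only [← ft_vx] at h
  simpa using h

theorem bes_df {C : Finset (Tor d M)} {v : C → C → ℂ} (hv : BesT C v)
    {S : Tor d M → Tor d M → ℂ} {β : ℝ} (p : Tor d M)
    (hβ : ∀ x ∈ C, ‖ft (S x) p - conj (ec p x)‖ ≤ β) :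
    ∑ k, ‖ft (lnt C S (v k)) p - ft (vx C (v k)) p‖ ^ 2 ≤ C.card * β ^ 2 := by
  have h := bes_u hv (fun x => ft (S x) p - conj (ec p x)) (b := β) (fun x => hβ x x.2)
  have h1 : ∀ k, ∑ x : C, v k x * (ft (S x) p - conj (ec p x)) =
      ft (lnt C S (v k)) p - ft (vx C (v k)) p := by
    intro k
    rw [ft_lnt, ft_vx, ← Finset.sum_sub_distrib]
    exact Finset.sum_congr rfl fun x _ => by ring
  simp only [h1] at h
  exact h

/-! ### 2. The pairing in terms of the kernel -/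

theorem pair_ker (ftb : FtbStmt) {C : Finset (Tor d M)} (P : Tor d M → ℝ) (g : Tor d M → ℂ)
    (v : C → ℂ) :
    (∑ p, ((P p : ℝ) : ℂ) * (ft g p * conj (ft (vx C v) p))) / (M : ℂ) ^ d =
      ∑ y, g y * ∑ x : C, conj (v x) *
        ((∑ p, ((P p : ℝ) : ℂ) * ec p ((x : Tor d M) - y)) / (M : ℂ) ^ d) := by
  have h1 : ∀ p, ((P p : ℝ) : ℂ) * (ft g p * conj (ft (vx C v) p)) =
      ∑ y, ∑ x : C, (g y * conj (v x)) * (((P p : ℝ) : ℂ) * ec p ((x : Tor d M) - y)) := by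
    intro p
    rw [ft_vx]
    unfold ft
    rw [map_sum, Finset.sum_mul_sum, Finset.mul_sum]
    refine Finset.sum_congr rfl fun y _ => ?_
    rw [Finset.mul_sum]
    refine Finset.sum_congr rfl fun x _ => ?_
    rw [map_mul, Complex.conj_conj, sub_eq_add_neg, (ftb d M).2.1,
      ((ftb d M).2.2.2.1 p y).2]
    ring
  simp only [h1]
  rw [Finset.sum_comm, Finset.sum_div]
  refine Finset.sum_congr rfl fun y _ => ?_
  rw [Finset.sum_comm, Finset.sum_div, Finset.mul_sum]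
  refine Finset.sum_congr rfl fun x _ => ?_
  rw [← Finset.mul_sum]
  ring

theorem tds_sub (x y : Tor d M) : tds 0 (x - y) = tds y x := by
  unfold tds
  simp

/-- the upper bound for the pairing -/
theorem pair_le (ftb : FtbStmt) {C C' : Finset (Tor d M)} (hC : C ⊆ C') {v : C → C → ℂ}
    (hv : BesT C v) {P : Tor d M → ℝ} {Kq : ℝ} {Rb : ℕ}
    (hK : ∀ y : Tor d M, tds 0 y ≤ Rb →
      ‖(∑ p, ((P p : ℝ) : ℂ) * ec p y) / (M : ℂ) ^ d‖ ≤ Kq)
    (hR : ∀ x ∈ C', ∀ y ∈ C', tds x y ≤ Rb) (g : C → Tor d M → ℂ)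
    (hg : ∀ k y, y ∉ C' → g k y = 0) {t : ℝ} (ht : 0 < t) :
    ∑ k : C, ‖(∑ p, ((P p : ℝ) : ℂ) * (ft (g k) p * conj (ft (vx C (v k)) p))) / (M : ℂ) ^ d‖ ≤
      t / 2 * ∑ k : C, ∑ y, ‖g k y‖ ^ 2 + 1 / (2 * t) * (C'.card * (C.card * Kq ^ 2)) := by
  set h : C → Tor d M → ℂ := fun k y =>
    ∑ x : C, conj (v k x) * ((∑ p, ((P p : ℝ) : ℂ) * ec p ((x : Tor d M) - y)) / (M : ℂ) ^ d)
    with hh
  have h1 : ∀ k : C,
      ‖(∑ p, ((P p : ℝ) : ℂ) * (ft (g k) p * conj (ft (vx C (v k)) p))) / (M : ℂ) ^ d‖ ≤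
      t / 2 * ∑ y, ‖g k y‖ ^ 2 + 1 / (2 * t) * ∑ y ∈ C', ‖h k y‖ ^ 2 := by
    intro k
    rw [pair_ker ftb]
    have e1 : ∑ y, g k y * h k y = ∑ y ∈ C', g k y * h k y := by
      symm
      refine Finset.sum_subset (Finset.subset_univ C') fun y _ hy => ?_
      rw [hg k y hy, zero_mul]
    have e2 : ∑ y ∈ C', ‖g k y‖ ^ 2 ≤ ∑ y, ‖g k y‖ ^ 2 :=
      Finset.sum_le_sum_of_subset_of_nonneg (Finset.subset_univ C')
        fun y _ _ => by positivity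
    have e3 : ‖∑ y ∈ C', g k y * h k y‖ ≤
        t / 2 * ∑ y ∈ C', ‖g k y‖ ^ 2 + 1 / (2 * t) * ∑ y ∈ C', ‖h k y‖ ^ 2 := by
      refine le_trans (norm_sum_le _ _) ?_
      rw [Finset.mul_sum, Finset.mul_sum, ← Finset.sum_add_distrib]
      refine Finset.sum_le_sum fun y _ => ?_
      rw [norm_mul]
      have h2 : t / 2 * ‖g k y‖ ^ 2 + 1 / (2 * t) * ‖h k y‖ ^ 2 - ‖g k y‖ * ‖h k y‖ =
          1 / (2 * t) * (t * ‖g k y‖ - ‖h k y‖) ^ 2 := by
        field_simp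
        ring
      have h3 : 0 ≤ 1 / (2 * t) * (t * ‖g k y‖ - ‖h k y‖) ^ 2 := by positivity
      linarith only [h2, h3]
    change ‖∑ y, g k y * h k y‖ ≤ _
    rw [e1]
    have e4 : t / 2 * ∑ y ∈ C', ‖g k y‖ ^ 2 ≤ t / 2 * ∑ y, ‖g k y‖ ^ 2 :=
      mul_le_mul_of_nonneg_left e2 (by positivity)
    linarith
  have h4 : ∀ y ∈ C', ∑ k : C, ‖h k y‖ ^ 2 ≤ C.card * Kq ^ 2 := by
    intro y hy
    have h5 := bes_u hv (fun x : C =>
      conj ((∑ p, ((P p : ℝ) : ℂ) * ec p ((x : Tor d M) - y)) / (M : ℂ) ^ d)) (b := Kq)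
      (fun x => by
        rw [Complex.norm_conj]
        exact hK _ (by rw [tds_sub]; exact hR y hy x (hC x.2)))
    refine le_trans (le_of_eq (Finset.sum_congr rfl fun k _ => ?_)) h5
    rw [← Complex.norm_conj]
    congr 2
    rw [hh]
    beta_reduce
    rw [map_sum]
    exact Finset.sum_congr rfl fun x _ => by rw [map_mul, Complex.conj_conj]
  refine le_trans (Finset.sum_le_sum fun k _ => h1 k) ?_
  rw [Finset.sum_add_distrib, ← Finset.mul_sum, ← Finset.mul_sum]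
  have h8 : ∑ k : C, ∑ y ∈ C', ‖h k y‖ ^ 2 ≤ C'.card * (C.card * Kq ^ 2) := by
    rw [Finset.sum_comm]
    refine le_trans (Finset.sum_le_sum fun y hy => h4 y hy) ?_
    rw [Finset.sum_const, nsmul_eq_mul]
  have h9 : 0 ≤ 1 / (2 * t) := by positivity
  have h10 := mul_le_mul_of_nonneg_left h8 h9
  linarith

/-! ### 3. The errors -/

theorem mt_le {l η : ℝ} (hη : 0 < η) (p : Tor d M) : mt l η p ≤ |ds p - l| + η := by
  unfold mt
  apply Real.sqrt_le_iff.2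
  have h1 := sq_abs (ds p - l)
  have h2 := abs_nonneg (ds p - l)
  refine ⟨by positivity, ?_⟩
  nlinarith only [hη, h1, h2]

variable {ω : Tor d M → ℝ} {h lam w l η τ φ e0 A κ Γ β : ℝ} {C C' : Finset (Tor d M)}
  {g s S F e : Tor d M → Tor d M → ℂ}

/-- the Fourier transform of the perturbation -/
theorem one_k (ftb : FtbStmt) (hs : SysT ω h lam w l η τ φ e0 A κ Γ β C C' g s S F e)
    (hη : 0 < η) {b : ℝ} (hb : 0 < b) (q : Tor d M → ℝ) (v : C → ℂ) :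
    ‖((w ^ 2 : ℝ) : ℂ) * ((∑ p, ((q p * (ds p - l) : ℝ) : ℂ) *
        (ft (lnt C g v) p * conj (ft (vx C v) p))) / (M : ℂ) ^ d) -
        ((pm (fun p => q p * ‖ft (vx C v) p‖ ^ 2) : ℝ) : ℂ)‖ ≤
      pm (fun p => w ^ 2 * (|q p * (ds p - l)| * (‖ft (lnt C s v) p‖ * ‖ft (vx C v) p‖))) +
        pm (fun p => |q p| * (‖ft (lnt C S v) p - ft (vx C v) p‖ * ‖ft (vx C v) p‖)) +
        1 / (2 * (b * η)) * pm (fun p => ‖ft (lnt C F v) p‖ ^ 2) +
        1 / (2 * (b * η)) * pm (fun p => ‖ft (lnt C e v) p‖ ^ 2) +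
        1 / (2 * b) * pm (fun p => (mt l η p)⁻¹ *
          ‖ft (fun x => aop ω h lam (fun y => lnt C g v y - lnt C s v y) x -
            fop w l (fun y => lnt C g v y - lnt C s v y) x) p‖ ^ 2) +
        pm (fun p => q p ^ 2 * (b * η + b / 2 * mt l η p) * ‖ft (vx C v) p‖ ^ 2) := by
  rw [ofReal_pm, ← mul_div_assoc, ← sub_div, Finset.mul_sum, ← Finset.sum_sub_distrib]
  rw [← pm_mul, ← pm_mul, ← pm_mul, ← pm_add, ← pm_add, ← pm_add, ← pm_add, ← pm_add]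
  refine norm_pm_le fun p => ?_
  have heq := hat_eq ftb hs v p
  rw [ft_sub (lnt C g v) (lnt C s v)] at heq
  have hm := mt_pos (l := l) hη p
  have hVV : ((‖ft (vx C v) p‖ ^ 2 : ℝ) : ℂ) = ft (vx C v) p * conj (ft (vx C v) p) := by
    rw [Complex.mul_conj, Complex.normSq_eq_norm_sq]
  set W := ft (fun x => aop ω h lam (fun y => lnt C g v y - lnt C s v y) x -
            fop w l (fun y => lnt C g v y - lnt C s v y) x) p with hW
  set G := ft (lnt C g v) p with hG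
  set s' := ft (lnt C s v) p with hs'
  set S' := ft (lnt C S v) p with hS'
  set F' := ft (lnt C F v) p with hF'
  set e' := ft (lnt C e v) p with he'
  set V := ft (vx C v) p with hV
  have hid : ((w ^ 2 : ℝ) : ℂ) * (((q p * (ds p - l) : ℝ) : ℂ) * (G * conj V)) -
      ((q p * ‖V‖ ^ 2 : ℝ) : ℂ) =
      ((w ^ 2 * (q p * (ds p - l)) : ℝ) : ℂ) * (s' * conj V) +
        (q p : ℂ) * ((S' - V) * conj V) + (q p : ℂ) * ((F' + e' - W) * conj V) := by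
    rw [Complex.ofReal_mul (q p) (‖V‖ ^ 2), hVV]
    push_cast at heq ⊢
    linear_combination (q p : ℂ) * conj V * heq
  rw [hid]
  have n1 : ‖((w ^ 2 * (q p * (ds p - l)) : ℝ) : ℂ) * (s' * conj V)‖ =
      w ^ 2 * (|q p * (ds p - l)| * (‖s'‖ * ‖V‖)) := by
    rw [norm_mul, norm_mul, Complex.norm_conj, Complex.norm_real, Real.norm_eq_abs, abs_mul,
      abs_of_nonneg (sq_nonneg w)]
    ring
  have n2 : ‖(q p : ℂ) * ((S' - V) * conj V)‖ = |q p| * (‖S' - V‖ * ‖V‖) := by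
    rw [norm_mul, norm_mul, Complex.norm_conj, Complex.norm_real, Real.norm_eq_abs]
  have n3 : ‖(q p : ℂ) * ((F' + e' - W) * conj V)‖ ≤ |q p| * ((‖F'‖ + ‖e'‖ + ‖W‖) * ‖V‖) := by
    rw [norm_mul, norm_mul, Complex.norm_conj, Complex.norm_real, Real.norm_eq_abs]
    have : ‖F' + e' - W‖ ≤ ‖F'‖ + ‖e'‖ + ‖W‖ :=
      (norm_sub_le _ _).trans (add_le_add_left (norm_add_le _ _) _)
    gcongr
  have n4 : ‖((w ^ 2 * (q p * (ds p - l)) : ℝ) : ℂ) * (s' * conj V) +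
      (q p : ℂ) * ((S' - V) * conj V) + (q p : ℂ) * ((F' + e' - W) * conj V)‖ ≤
      ‖((w ^ 2 * (q p * (ds p - l)) : ℝ) : ℂ) * (s' * conj V)‖ +
        ‖(q p : ℂ) * ((S' - V) * conj V)‖ + ‖(q p : ℂ) * ((F' + e' - W) * conj V)‖ :=
    (norm_add_le _ _).trans (add_le_add_left (norm_add_le _ _) _)
  rw [n1, n2] at n4
  have hqq : q p ^ 2 = |q p| ^ 2 := (sq_abs _).symm
  rw [hqq]
  obtain ⟨a, ha⟩ : ∃ a, a = ‖F'‖ := ⟨_, rfl⟩
  obtain ⟨c, hc⟩ : ∃ c, c = ‖e'‖ := ⟨_, rfl⟩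
  obtain ⟨f, hf⟩ : ∃ f, f = ‖W‖ := ⟨_, rfl⟩
  obtain ⟨u, hu⟩ : ∃ u, u = ‖V‖ := ⟨_, rfl⟩
  obtain ⟨m, hmd⟩ : ∃ m, m = mt l η p := ⟨_, rfl⟩
  obtain ⟨Q, hQ⟩ : ∃ Q, Q = |q p| := ⟨_, rfl⟩
  rw [← ha, ← hc, ← hf, ← hu, ← hQ] at n3
  rw [← hu, ← hQ] at n4
  rw [← ha, ← hc, ← hf, ← hu, ← hQ, ← hmd]
  rw [← hmd] at hm
  have e1 : 0 ≤ 1 / (2 * (b * η)) * (a - (b * η) * (Q * u)) ^ 2 := by positivity
  have e2 : 0 ≤ 1 / (2 * (b * η)) * (c - (b * η) * (Q * u)) ^ 2 := by positivity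
  have e3 : 0 ≤ 1 / (2 * b) * (m⁻¹ * (f - b * m * (Q * u)) ^ 2) := by positivity
  have e1' : 1 / (2 * (b * η)) * (a - (b * η) * (Q * u)) ^ 2 =
      1 / (2 * (b * η)) * a ^ 2 - Q * a * u + (b * η) / 2 * (Q ^ 2 * u ^ 2) := by
    field_simp
    ring
  have e2' : 1 / (2 * (b * η)) * (c - (b * η) * (Q * u)) ^ 2 =
      1 / (2 * (b * η)) * c ^ 2 - Q * c * u + (b * η) / 2 * (Q ^ 2 * u ^ 2) := by
    field_simp
    ring
  have e3' : 1 / (2 * b) * (m⁻¹ * (f - b * m * (Q * u)) ^ 2) =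
      1 / (2 * b) * (m⁻¹ * f ^ 2) - Q * f * u + b / 2 * m * (Q ^ 2 * u ^ 2) := by
    field_simp
    ring
  rw [e1'] at e1
  rw [e2'] at e2
  rw [e3'] at e3
  have e4 : Q ^ 2 * (b * η + b / 2 * m) * u ^ 2 = (b * η) / 2 * (Q ^ 2 * u ^ 2) +
      (b * η) / 2 * (Q ^ 2 * u ^ 2) + b / 2 * m * (Q ^ 2 * u ^ 2) := by ring
  rw [e4]
  have e5 : Q * ((a + c + f) * u) = Q * a * u + Q * c * u + Q * f * u := by ring
  rw [e5] at n3
  refine n4.trans ?_
  linarith only [n3, e1, e2, e3]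

theorem w_sq2 (hw : |w - 1| ≤ 1 / 10) : w ^ 2 ≤ 2 := by
  have := abs_le.1 hw
  nlinarith only [this.1, this.2]

/-- the sum of the errors -/
theorem all_k (ftb : FtbStmt) (hs : SysT ω h lam w l η τ φ e0 A κ Γ β C C' g s S F e)
    (hw : |w - 1| ≤ 1 / 10) (hη : 0 < η) (hκ : 0 < κ) (hA : 0 ≤ A) (hβ : 0 ≤ β) {b : ℝ}
    (hb : 0 < b) {q : Tor d M → ℝ} (hq : ∀ p, q p ≠ 0 → ds p ≤ 4 * l) {v : C → C → ℂ}
    (hv : BesT C v) {Q1 Q2 QX1 QX2 a2 Y2 : ℝ}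
    (h1 : pm (fun p => |q p|) ≤ Q1) (h2 : pm (fun p => q p ^ 2) ≤ Q2)
    (hX2 : pm (fun p => q p ^ 2 * |ds p - l|) ≤ QX2)
    (hX1 : pm (fun p => |q p * (ds p - l)|) ≤ QX1)
    (ha : ∑ k, ∑ y, ‖lnt C g (v k) y‖ ^ 2 ≤ a2)
    (hY : ∑ k, pm (fun p => mt l η p *
      ‖ft (fun y => lnt C g (v k) y - lnt C s (v k) y) p‖ ^ 2) ≤ Y2) :
    ∑ k, ‖((w ^ 2 : ℝ) : ℂ) * ((∑ p, ((q p * (ds p - l) : ℝ) : ℂ) *
        (ft (lnt C g (v k)) p * conj (ft (vx C (v k)) p))) / (M : ℂ) ^ d) -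
        ((pm (fun p => q p * ‖ft (vx C (v k)) p‖ ^ 2) : ℝ) : ℂ)‖ ≤
      2 * (C.card * (A / κ)) * QX1 + C.card * β * Q1 + 1 / (2 * (b * η)) * (φ ^ 2 * a2) +
        1 / (2 * (b * η)) * (C.card * e0) + 1 / (2 * b) * (τ ^ 2 * Y2) +
        C.card * (b * η * Q2 + b / 2 * (QX2 + η * Q2)) := by
  refine le_trans (Finset.sum_le_sum fun k _ => one_k ftb hs hη hb q (v k)) ?_
  rw [Finset.sum_add_distrib, Finset.sum_add_distrib, Finset.sum_add_distrib,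
    Finset.sum_add_distrib, Finset.sum_add_distrib, ← Finset.mul_sum,
    ← Finset.mul_sum, ← Finset.mul_sum]
  have i1 : 0 ≤ 1 / (2 * (b * η)) := by positivity
  have i2 : 0 ≤ 1 / (2 * b) := by positivity
  have hN : (0 : ℝ) ≤ C.card := Nat.cast_nonneg _
  have hAκ : 0 ≤ A / κ := by positivity
  have hw2 := w_sq2 hw
  -- s
  have t1 : ∑ k, pm (fun p => w ^ 2 * (|q p * (ds p - l)| *
      (‖ft (lnt C s (v k)) p‖ * ‖ft (vx C (v k)) p‖))) ≤ 2 * (C.card * (A / κ)) * QX1 := by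
    rw [← pm_sum]
    have e1 : pm (fun p => ∑ k : C, w ^ 2 * (|q p * (ds p - l)| *
        (‖ft (lnt C s (v k)) p‖ * ‖ft (vx C (v k)) p‖))) ≤
        pm (fun p => 2 * (C.card * (A / κ)) * |q p * (ds p - l)|) := by
      refine pm_le fun p => ?_
      rw [← Finset.mul_sum, ← Finset.mul_sum]
      have e2 := cs_le Finset.univ (fun k : C => ft (lnt C s (v k)) p)
        (fun k : C => ft (vx C (v k)) p) hN hAκ (bes_ft hv p fun x hx => hs.hs1 x hx p)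
        (bes_vx ftb hv p)
      have e3 : |q p * (ds p - l)| * ∑ k : C, (‖ft (lnt C s (v k)) p‖ * ‖ft (vx C (v k)) p‖) ≤
          |q p * (ds p - l)| * (C.card * (A / κ)) := mul_le_mul_of_nonneg_left e2 (abs_nonneg _)
      have e4 : 0 ≤ |q p * (ds p - l)| * (C.card * (A / κ)) := by positivity
      calc w ^ 2 * (|q p * (ds p - l)| *
            ∑ k : C, (‖ft (lnt C s (v k)) p‖ * ‖ft (vx C (v k)) p‖)) ≤
          w ^ 2 * (|q p * (ds p - l)| * (C.card * (A / κ))) :=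
            mul_le_mul_of_nonneg_left e3 (sq_nonneg w)
        _ ≤ 2 * (|q p * (ds p - l)| * (C.card * (A / κ))) := mul_le_mul_of_nonneg_right hw2 e4
        _ = _ := by ring
    refine e1.trans ?_
    rw [pm_mul]
    exact mul_le_mul_of_nonneg_left hX1 (by positivity)
  -- S
  have t2 : ∑ k, pm (fun p => |q p| * (‖ft (lnt C S (v k)) p - ft (vx C (v k)) p‖ *
      ‖ft (vx C (v k)) p‖)) ≤ C.card * β * Q1 := by
    rw [← pm_sum]
    have e1 : pm (fun p => ∑ k : C, |q p| * (‖ft (lnt C S (v k)) p - ft (vx C (v k)) p‖ *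
        ‖ft (vx C (v k)) p‖)) ≤ pm (fun p => C.card * β * |q p|) := by
      refine pm_le fun p => ?_
      rw [← Finset.mul_sum]
      by_cases hp : q p = 0
      · rw [hp, abs_zero, zero_mul, mul_zero]
      · have e2 := cs_le Finset.univ (fun k : C => ft (lnt C S (v k)) p - ft (vx C (v k)) p)
          (fun k : C => ft (vx C (v k)) p) hN hβ
          (bes_df hv p fun x hx => hs.hβ x hx p (hq p hp)) (bes_vx ftb hv p)
        rw [mul_comm]
        exact mul_le_mul_of_nonneg_right e2 (abs_nonneg _)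
    refine e1.trans ?_
    rw [pm_mul]
    exact mul_le_mul_of_nonneg_left h1 (by positivity)
  -- F
  have t3 : ∑ k, pm (fun p => ‖ft (lnt C F (v k)) p‖ ^ 2) ≤ φ ^ 2 * a2 := by
    simp only [← (ftb d M).2.2.2.2.2.1]
    refine le_trans (Finset.sum_le_sum fun k _ => hs.hF (v k)) ?_
    rw [← Finset.mul_sum]
    exact mul_le_mul_of_nonneg_left ha (sq_nonneg _)
  -- e
  have t4 : ∑ k, pm (fun p => ‖ft (lnt C e (v k)) p‖ ^ 2) ≤ C.card * e0 := by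
    simp only [← (ftb d M).2.2.2.2.2.1]
    exact bes_sum hv hs.he
  -- W
  have t5 : ∑ k, pm (fun p => (mt l η p)⁻¹ *
      ‖ft (fun x => aop ω h lam (fun y => lnt C g (v k) y - lnt C s (v k) y) x -
        fop w l (fun y => lnt C g (v k) y - lnt C s (v k) y) x) p‖ ^ 2) ≤ τ ^ 2 * Y2 := by
    refine le_trans (Finset.sum_le_sum fun k _ => hs.hW _) ?_
    rw [← Finset.mul_sum]
    exact mul_le_mul_of_nonneg_left hY (sq_nonneg _)
  -- the rest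
  have t6 : ∑ k, pm (fun p => q p ^ 2 * (b * η + b / 2 * mt l η p) *
      ‖ft (vx C (v k)) p‖ ^ 2) ≤ C.card * (b * η * Q2 + b / 2 * (QX2 + η * Q2)) := by
    rw [← pm_sum]
    have e1 : pm (fun p => ∑ k : C, q p ^ 2 * (b * η + b / 2 * mt l η p) *
        ‖ft (vx C (v k)) p‖ ^ 2) ≤
        pm (fun p => (C.card * (b * η + b / 2 * η)) * q p ^ 2 +
          (C.card * (b / 2)) * (q p ^ 2 * |ds p - l|)) := by
      refine pm_le fun p => ?_
      rw [← Finset.mul_sum]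
      have e2 := bes_vx ftb hv p
      have e3 := mt_le (l := l) hη p
      have e4 := mt_pos (l := l) hη p
      have e5 : q p ^ 2 * (b * η + b / 2 * mt l η p) * ∑ k : C, ‖ft (vx C (v k)) p‖ ^ 2 ≤
          q p ^ 2 * (b * η + b / 2 * mt l η p) * C.card :=
        mul_le_mul_of_nonneg_left e2 (by positivity)
      have e6 : q p ^ 2 * (b * η + b / 2 * mt l η p) * (C.card : ℝ) ≤
          q p ^ 2 * (b * η + b / 2 * (|ds p - l| + η)) * C.card := by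
        apply mul_le_mul_of_nonneg_right _ hN
        apply mul_le_mul_of_nonneg_left _ (sq_nonneg _)
        have := mul_le_mul_of_nonneg_left e3 (by positivity : 0 ≤ b / 2)
        linarith only [this]
      refine e5.trans (e6.trans (le_of_eq ?_))
      ring
    refine e1.trans ?_
    rw [pm_add, pm_mul, pm_mul]
    have k1 := mul_le_mul_of_nonneg_left h2
      (by positivity : 0 ≤ (C.card : ℝ) * (b * η + b / 2 * η))
    have k2 := mul_le_mul_of_nonneg_left hX2 (by positivity : 0 ≤ (C.card : ℝ) * (b / 2))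
    refine (add_le_add k1 k2).trans (le_of_eq ?_)
    ring
  exact add_le_add (add_le_add (add_le_add (add_le_add (add_le_add t1 t2)
    (mul_le_mul_of_nonneg_left t3 i1)) (mul_le_mul_of_nonneg_left t4 i1))
    (mul_le_mul_of_nonneg_left t5 i2)) t6

/-! ### 4. The theorem -/

/-- the numbers for the errors -/
theorem num_err {A C₂ c₁ c b η T φ e0 τ κ β D₀ b₀ N K : ℝ} (hA : 1 ≤ A) (hC₂ : 1 ≤ C₂)
    (hc₁ : 0 < c₁) (hc₁A : c₁ ≤ 1 / A) (hc : 0 < c) (hc1 : c ≤ 1) (hb0 : 0 < b) (hb1 : b ≤ 1)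
    (hbb : b ^ 2 = c) (hη : 0 < η) (hη1 : η ≤ 1) (hκ : 0 < κ)
    (hηκ : η * (1 + Real.log (1 / η)) ≤ c * κ) (hφ : 0 ≤ φ) (hφc : φ ≤ c * η)
    (he : e0 ≤ c * η * D₀) (hτ : τ ^ 2 * b₀ ≤ c * D₀) (hβc : β ≤ c) (hD : 0 < D₀)
    (hN : 0 < N) (hT1 : c₁ / η ≤ T) (hT2 : T ≤ A * (c₁ / η)) (hT : 1 ≤ T)
    (hK : K = 2 * A ^ 2 / c₁ + 3 * A + C₂ + 1 / 2) (hbK : K * b ≤ 1 / (4 * A)) :
    2 * (N * (A / κ)) * (A * D₀ * (1 + Real.log T) / T) + N * β * (A * D₀) +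
        1 / (2 * (b * η)) * (φ ^ 2 * (C₂ * N * D₀ / η)) + 1 / (2 * (b * η)) * (N * e0) +
        1 / (2 * b) * (τ ^ 2 * (C₂ * N * b₀)) +
        N * (b * η * (A * T * D₀) + b / 2 * (A * D₀ + η * (A * T * D₀))) ≤
      D₀ / (4 * A) * N := by
  have hA0 : 0 < A := by linarith only [hA]
  have hC₂0 : 0 < C₂ := by linarith only [hC₂]
  have hT0 : 0 < T := by linarith only [hT]
  have hcb : c ≤ b := by
    rw [← hbb]
    calc b ^ 2 = b * b := by ring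
      _ ≤ b * 1 := mul_le_mul_of_nonneg_left hb1 hb0.le
      _ = b := mul_one b
  have hND : 0 < N * D₀ := by positivity
  have hAc : A * c₁ ≤ 1 := by
    calc A * c₁ ≤ A * (1 / A) := mul_le_mul_of_nonneg_left hc₁A hA0.le
      _ = 1 := by field_simp
  have hηT : η * T ≤ 1 := by
    calc η * T ≤ η * (A * (c₁ / η)) := mul_le_mul_of_nonneg_left hT2 hη.le
      _ = A * c₁ := by field_simp
      _ ≤ 1 := hAc
  have hTη : T ≤ 1 / η := by
    rw [le_div_iff₀ hη]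
    linarith only [hηT]
  have hlog : Real.log T ≤ Real.log (1 / η) := Real.log_le_log hT0 hTη
  have hlogT : 0 ≤ Real.log T := Real.log_nonneg hT
  have hTi : 1 / T ≤ η / c₁ := by
    rw [div_le_div_iff₀ hT0 hc₁]
    have : c₁ ≤ T * η := by rwa [div_le_iff₀ hη] at hT1
    linarith only [this]
  have hlT : (1 + Real.log T) / T ≤ b * κ / c₁ := by
    calc (1 + Real.log T) / T = (1 + Real.log T) * (1 / T) := by ring
      _ ≤ (1 + Real.log (1 / η)) * (η / c₁) :=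
          mul_le_mul (by linarith only [hlog]) hTi (by positivity) (by linarith only [hlog, hlogT])
      _ = η * (1 + Real.log (1 / η)) / c₁ := by ring
      _ ≤ c * κ / c₁ := div_le_div_of_nonneg_right hηκ hc₁.le
      _ ≤ b * κ / c₁ := by gcongr
  have b1 : 2 * (N * (A / κ)) * (A * D₀ * (1 + Real.log T) / T) ≤
      2 * A ^ 2 / c₁ * b * (N * D₀) := by
    calc 2 * (N * (A / κ)) * (A * D₀ * (1 + Real.log T) / T) =
        2 * (N * (A / κ)) * (A * D₀) * ((1 + Real.log T) / T) := by ring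
      _ ≤ 2 * (N * (A / κ)) * (A * D₀) * (b * κ / c₁) :=
          mul_le_mul_of_nonneg_left hlT (by positivity)
      _ = 2 * A ^ 2 / c₁ * b * (N * D₀) := by
          field_simp
  have b2 : N * β * (A * D₀) ≤ A * b * (N * D₀) := by
    have h1 : β ≤ b := hβc.trans hcb
    calc N * β * (A * D₀) = A * (N * D₀) * β := by ring
      _ ≤ A * (N * D₀) * b := mul_le_mul_of_nonneg_left h1 (by positivity)
      _ = A * b * (N * D₀) := by ring
  have b3 : 1 / (2 * (b * η)) * (φ ^ 2 * (C₂ * N * D₀ / η)) ≤ C₂ / 2 * b * (N * D₀) := by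
    have h1 : φ ^ 2 ≤ (c * η) ^ 2 := pow_le_pow_left₀ hφ hφc 2
    calc 1 / (2 * (b * η)) * (φ ^ 2 * (C₂ * N * D₀ / η))
        ≤ 1 / (2 * (b * η)) * ((c * η) ^ 2 * (C₂ * N * D₀ / η)) := by gcongr
      _ = C₂ / 2 * (c ^ 2 / b) * (N * D₀) := by field_simp
      _ ≤ C₂ / 2 * b * (N * D₀) := by
          have h2 : c ^ 2 / b ≤ b := by
            rw [div_le_iff₀ hb0, ← sq, hbb]
            calc c ^ 2 = c * c := by ring
              _ ≤ c * 1 := mul_le_mul_of_nonneg_left hc1 hc.le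
              _ = c := mul_one c
          gcongr
  have b4 : 1 / (2 * (b * η)) * (N * e0) ≤ 1 / 2 * b * (N * D₀) := by
    calc 1 / (2 * (b * η)) * (N * e0) ≤ 1 / (2 * (b * η)) * (N * (c * η * D₀)) := by gcongr
      _ = 1 / (2 * (b * η)) * (N * (b ^ 2 * η * D₀)) := by rw [hbb]
      _ = 1 / 2 * b * (N * D₀) := by field_simp
  have b5 : 1 / (2 * b) * (τ ^ 2 * (C₂ * N * b₀)) ≤ C₂ / 2 * b * (N * D₀) := by
    calc 1 / (2 * b) * (τ ^ 2 * (C₂ * N * b₀)) = 1 / (2 * b) * (C₂ * N * (τ ^ 2 * b₀)) := by ring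
      _ ≤ 1 / (2 * b) * (C₂ * N * (c * D₀)) := by gcongr
      _ = 1 / (2 * b) * (C₂ * N * (b ^ 2 * D₀)) := by rw [hbb]
      _ = C₂ / 2 * b * (N * D₀) := by field_simp
  have b6 : N * (b * η * (A * T * D₀) + b / 2 * (A * D₀ + η * (A * T * D₀))) ≤
      2 * A * b * (N * D₀) := by
    have h1 : N * (b * η * (A * T * D₀) + b / 2 * (A * D₀ + η * (A * T * D₀))) =
        3 / 2 * A * b * (N * D₀) * (η * T) + 1 / 2 * A * b * (N * D₀) := by ring
    rw [h1]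
    have h2 : 3 / 2 * A * b * (N * D₀) * (η * T) ≤ 3 / 2 * A * b * (N * D₀) * 1 :=
      mul_le_mul_of_nonneg_left hηT (by positivity)
    linarith only [h2]
  have b7 : K * b * (N * D₀) ≤ 1 / (4 * A) * (N * D₀) := mul_le_mul_of_nonneg_right hbK hND.le
  have b8 : K * b * (N * D₀) = 2 * A ^ 2 / c₁ * b * (N * D₀) + A * b * (N * D₀) +
      C₂ / 2 * b * (N * D₀) + 1 / 2 * b * (N * D₀) + C₂ / 2 * b * (N * D₀) +
      2 * A * b * (N * D₀) := by
    rw [hK]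
    ring
  have b9 : D₀ / (4 * A) * N = 1 / (4 * A) * (N * D₀) := by ring
  rw [b9]
  linarith only [b1, b2, b3, b4, b5, b6, b7, b8]

/-- PAE -/
theorem pae (ftb : FtbStmt) : PaeStmt := by
  intro d A C₂ c₁ hd hA hC₂ hc₁ hc₁A
  have hA0 : 0 < A := by linarith only [hA]
  have hC₂0 : 0 < C₂ := by linarith
  obtain ⟨K, hKdef⟩ : ∃ K : ℝ, K = 2 * A ^ 2 / c₁ + 3 * A + C₂ + 1 / 2 := ⟨_, rfl⟩
  have hKpos : 0 < K := by rw [hKdef]; positivity
  obtain ⟨c, hcd⟩ : ∃ c : ℝ, c = min 1 ((1 / (4 * A * K)) ^ 2) := ⟨_, rfl⟩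
  have hc : 0 < c := by rw [hcd]; positivity
  have hc1 : c ≤ 1 := by rw [hcd]; exact min_le_left _ _
  have hc2 : c ≤ (1 / (4 * A * K)) ^ 2 := by rw [hcd]; exact min_le_right _ _
  refine ⟨c, 1 / (64 * A ^ 2 * C₂), hc, by positivity, ?_⟩
  intro M Rb _ ω h lam w l η τ φ e0 κ Γ β D₀ b₀ T Kq C C' g s S F e q v hn hs hv hT1 hT2 hT hKq
    ht hRb ha hY hR
  obtain ⟨hη, hηc, hη1⟩ := hn.hη
  obtain ⟨hl, h4l, hκ1⟩ := hn.hl
  obtain ⟨hD, hDb⟩ := hn.hD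
  obtain ⟨hφ, hφη⟩ := hn.hφ
  obtain ⟨he0, he0c⟩ := hn.he
  obtain ⟨hτ, hτb⟩ := hn.hτ
  obtain ⟨hβ0, hβc⟩ := hn.hβ
  have hκ : 0 < κ := by linarith only [hl, h4l]
  have hN : (0 : ℝ) < C.card := by exact_mod_cast hs.hC.1.card_pos
  have hb0 : 0 < √c := Real.sqrt_pos.2 hc
  have hb1 : √c ≤ 1 := Real.sqrt_le_one.2 hc1
  have hbK : K * √c ≤ 1 / (4 * A) := by
    have h1 : √c ≤ 1 / (4 * A * K) := Real.sqrt_le_iff.2 ⟨by positivity, hc2⟩
    calc K * √c ≤ K * (1 / (4 * A * K)) := mul_le_mul_of_nonneg_left h1 hKpos.le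
      _ = 1 / (4 * A) := by field_simp
  have herr := (all_k ftb hs hn.hw hη hκ hA0.le hβ0 hb0 ht.hsupp hv ht.hL1 ht.hL2 ht.hX2
    ht.hX1 ha hY).trans (num_err hA hC₂ hc₁ hc₁A hc hc1 hb0 hb1 (Real.sq_sqrt hc.le) hη hη1 hκ
      hηc hφ hφη he0c hτb hβc hD hN hT1 hT2 hT hKdef hbK)
  have ht0 : 0 < η / (8 * A * C₂) := by positivity
  have hg : ∀ k y, y ∉ C' → lnt C g (v k) y = 0 := by
    intro k y hy
    unfold lnt
    exact Finset.sum_eq_zero fun x _ => by rw [hs.hg x x.2 y hy, mul_zero]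
  have hup := pair_le ftb hs.hC.2.1 hv (P := fun p => q p * (ds p - l)) ht.hker hRb
    (fun k => lnt C g (v k)) hg ht0
  obtain ⟨Z, hZ⟩ : ∃ Z : C → ℂ, ∀ k, Z k = (∑ p, ((q p * (ds p - l) : ℝ) : ℂ) *
    (ft (lnt C g (v k)) p * conj (ft (vx C (v k)) p))) / (M : ℂ) ^ d := ⟨_, fun _ => rfl⟩
  obtain ⟨R, hRk⟩ : ∃ R : C → ℝ, ∀ k, R k = pm (fun p => q p * ‖ft (vx C (v k)) p‖ ^ 2) :=
    ⟨_, fun _ => rfl⟩
  simp only [← hZ, ← hRk] at herr hup hR
  have hw2 := w_sq2 hn.hw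
  have hcmp : D₀ / (2 * A) * C.card ≤ 2 * ∑ k, ‖Z k‖ + D₀ / (4 * A) * C.card := by
    refine hR.trans ?_
    have h1 : |∑ k : C, R k| = ‖∑ k : C, ((R k : ℝ) : ℂ)‖ := by
      rw [← Complex.ofReal_sum, Complex.norm_real, Real.norm_eq_abs]
    have h2 : ∑ k : C, ((R k : ℝ) : ℂ) = ∑ k : C, ((w ^ 2 : ℝ) : ℂ) * Z k -
        ∑ k : C, (((w ^ 2 : ℝ) : ℂ) * Z k - ((R k : ℝ) : ℂ)) := by
      rw [Finset.sum_sub_distrib]
      ring
    rw [h1, h2]
    refine (norm_sub_le _ _).trans ?_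
    have h3 := norm_sum_le Finset.univ (fun k : C => ((w ^ 2 : ℝ) : ℂ) * Z k - ((R k : ℝ) : ℂ))
    have h4 : ‖∑ k : C, ((w ^ 2 : ℝ) : ℂ) * Z k‖ ≤ 2 * ∑ k, ‖Z k‖ := by
      rw [Finset.mul_sum]
      refine (norm_sum_le _ _).trans (Finset.sum_le_sum fun k _ => ?_)
      rw [norm_mul, Complex.norm_real, Real.norm_eq_abs, abs_of_nonneg (sq_nonneg w)]
      exact mul_le_mul_of_nonneg_right hw2 (norm_nonneg _)
    exact add_le_add h4 (h3.trans herr)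
  have h5 : η / (8 * A * C₂) / 2 * ∑ k : C, ∑ y, ‖lnt C g (v k) y‖ ^ 2 ≤
      η / (8 * A * C₂) / 2 * (C₂ * C.card * D₀ / η) := mul_le_mul_of_nonneg_left ha (by positivity)
  have h6 : η / (8 * A * C₂) / 2 * (C₂ * C.card * D₀ / η) = D₀ / (16 * A) * C.card := by
    field_simp
    ring
  rw [h6] at h5
  have h7 : 1 / (2 * (η / (8 * A * C₂))) * ((C'.card : ℝ) * (C.card * Kq ^ 2)) =
      4 * A * C₂ / η * (C'.card * Kq ^ 2) * C.card := by
    field_simp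
    ring
  rw [h7] at hup
  have h8 : D₀ / (8 * A) * (C.card : ℝ) ≤ 8 * A * C₂ / η * (C'.card * Kq ^ 2) * C.card := by
    have e1 : D₀ / (2 * A) * (C.card : ℝ) = 4 * (D₀ / (8 * A) * C.card) := by
      field_simp
      ring
    have e2 : D₀ / (4 * A) * (C.card : ℝ) = 2 * (D₀ / (8 * A) * C.card) := by
      field_simp
      ring
    have e3 : D₀ / (16 * A) * (C.card : ℝ) = 1 / 2 * (D₀ / (8 * A) * C.card) := by
      field_simp
      ring
    have e4 : 8 * A * C₂ / η * (C'.card * Kq ^ 2) * (C.card : ℝ) =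
        2 * (4 * A * C₂ / η * (C'.card * Kq ^ 2) * C.card) := by ring
    rw [e1, e2] at hcmp
    rw [e3] at h5
    rw [e4]
    linarith
  have h9 : D₀ / (8 * A) ≤ 8 * A * C₂ / η * (C'.card * Kq ^ 2) := le_of_mul_le_mul_right h8 hN
  have h10 := mul_le_mul_of_nonneg_left h9 (by positivity : 0 ≤ η / (8 * A * C₂))
  have h11 : η / (8 * A * C₂) * (8 * A * C₂ / η * (C'.card * Kq ^ 2)) =
      (C'.card : ℝ) * Kq ^ 2 := by
    field_simp
  rw [h11] at h10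
  refine le_trans (le_of_eq ?_) h10
  field_simp
  ring

end Pool.Agent.LE.IR.H46
end
end -- Pool.Agent.Helper46_LIR.PAE
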