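import Pool.Agent.Helper12_MEB.B074

/-!
# Merged copies (generated) of the modules

* `Pool.Agent.Helper19_LIR.HKE`
* `Pool.Agent.Helper6_LIR.SRC`
-/

set_option autoImplicit false

section -- Pool.Agent.Helper19_LIR.HKE

/-!
# Squad LIR, HKE: powers of `T = 1 - (E - H) / (8 d)`
-/

set_option autoImplicit false

open MeasureTheory ProbabilityTheory Function Filter

open scoped ENNReal BigOperators Topology NNReal

noncomputable section

namespace Pool.Agent.LE.IR.H19

open Pool.Agent.Anderson hiding box mem_box card_box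
open Pool.Agent.Loc Pool.Agent.Mob Pool.Agent.BED

variable {d M : ℕ} [NeZero M]

theorem TM_shift (z lam : ℝ) (V : Tor d M → ℝ) :
    TM (z - lam) V = TM z V + (lam / (8 * d)) • (1 : Matrix (Tor d M) (Tor d M) ℝ) := by
  ext x y
  unfold TM
  rw [AM_sub]
  rw [Matrix.sub_apply, Matrix.add_apply, Matrix.sub_apply, Matrix.smul_apply, Matrix.smul_apply,
    Matrix.smul_apply, Matrix.sub_apply, Matrix.smul_apply, smul_eq_mul, smul_eq_mul, smul_eq_mul,
    smul_eq_mul]
  ring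

theorem TM_pow (z lam : ℝ) (V : Tor d M → ℝ) (n : ℕ) (x y : Tor d M) :
    (TM (z - lam) V ^ n) x y = ∑ j ∈ Finset.range (n + 1),
      ((lam / (8 * d)) ^ (n - j) * (n.choose j : ℝ)) * (TM z V ^ j) x y := by
  rw [TM_shift]
  have hc : Commute (TM z V) ((lam / (8 * d)) • (1 : Matrix (Tor d M) (Tor d M) ℝ)) :=
    (Commute.one_right _).smul_right _
  rw [hc.add_pow, Matrix.sum_apply]
  refine Finset.sum_congr rfl fun j _ => ?_
  rw [smul_pow, one_pow, mul_smul_comm, mul_one, ← nsmul_eq_mul', Matrix.smul_apply,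
    Matrix.smul_apply, smul_eq_mul, nsmul_eq_mul]
  ring

theorem pow_nonneg_entries {X : Type} [Fintype X] [DecidableEq X] {A : Matrix X X ℝ}
    (hA : ∀ x y, 0 ≤ A x y) : ∀ (n : ℕ) (x y : X), 0 ≤ (A ^ n) x y := by
  intro n
  induction n with
  | zero =>
    intro x y
    rw [pow_zero, Matrix.one_apply]
    split_ifs <;> norm_num
  | succ n ih =>
    intro x y
    rw [pow_succ, Matrix.mul_apply]
    exact Finset.sum_nonneg fun w _ => mul_nonneg (ih x w) (hA w y)

/-- the mass of the rows -/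
theorem mass_step (hd : 1 ≤ d) {z μ ε lam : ℝ} {V : Tor d M → ℝ} (hμ : 0 < μ) (hε : 0 < ε)
    (hε' : ε ≤ 1 / 50) (hF : FlatE ε z μ V) (hlam : 0 ≤ lam)
    (hT : ∀ x y, 0 ≤ TM (z - lam) V x y) (x : Tor d M) (n : ℕ) :
    |∑ y, (TM (z - lam) V ^ (n + 1)) x y * om z μ V y -
      ∑ y, (TM (z - lam) V ^ n) x y * om z μ V y| ≤
      (lam + 1 / μ) / 7 * ∑ y, (TM (z - lam) V ^ n) x y * om z μ V y := by
  obtain ⟨hV, hA, hD⟩ := hF
  have hd1 : (1 : ℝ) ≤ d := by exact_mod_cast hd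
  have hom : ∀ y, 49 / 50 ≤ om z μ V y := by
    intro y
    unfold om
    rw [le_div_iff₀ hμ]
    have h1 := (abs_le.1 (hD y)).1
    have h2 : ε * μ ≤ 1 / 50 * μ := mul_le_mul_of_nonneg_right hε' hμ.le
    linarith
  have h1 : ∀ y, ∑ w, TM (z - lam) V y w * om z μ V w =
      (1 + lam / (8 * d)) * om z μ V y - 1 / (8 * d * μ) := by
    intro y
    have h2 := H32.TM_mulVec (z - lam) V (fun w => DD z V w) y
    have h3 : (AM (z - lam) V).mulVec (fun w => DD z V w) y = 1 - lam * DD z V y := by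
      rw [AM_sub, Matrix.sub_mulVec, Matrix.smul_mulVec, Matrix.one_mulVec]
      rw [Pi.sub_apply, Pi.smul_apply, smul_eq_mul]
      have h4 := congrFun (AM_DD hA) y
      rw [h4]
      rfl
    rw [h3] at h2
    have h5 : ∑ w, TM (z - lam) V y w * om z μ V w =
        ((TM (z - lam) V).mulVec (fun w => DD z V w) y) / μ := by
      unfold Matrix.mulVec dotProduct om
      rw [Finset.sum_div]
      exact Finset.sum_congr rfl fun w _ => by ring
    rw [h5, h2]
    unfold om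
    field_simp
    ring
  have hP := pow_nonneg_entries hT n x
  have h6 : ∑ y, (TM (z - lam) V ^ (n + 1)) x y * om z μ V y =
      ∑ y, (TM (z - lam) V ^ n) x y * ((1 + lam / (8 * d)) * om z μ V y - 1 / (8 * d * μ)) := by
    rw [pow_succ]
    simp only [Matrix.mul_apply, Finset.sum_mul]
    rw [Finset.sum_comm]
    refine Finset.sum_congr rfl fun y _ => ?_
    rw [← h1 y, Finset.mul_sum]
    exact Finset.sum_congr rfl fun w _ => by ring
  rw [h6, ← Finset.sum_sub_distrib]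
  refine (Finset.abs_sum_le_sum_abs _ _).trans ?_
  rw [Finset.mul_sum]
  refine Finset.sum_le_sum fun y _ => ?_
  have h7 : (TM (z - lam) V ^ n) x y * ((1 + lam / (8 * d)) * om z μ V y - 1 / (8 * d * μ)) -
      (TM (z - lam) V ^ n) x y * om z μ V y =
      (TM (z - lam) V ^ n) x y * (lam / (8 * d) * om z μ V y - 1 / (8 * d * μ)) := by ring
  rw [h7, abs_mul, abs_of_nonneg (hP y)]
  have h8 : |lam / (8 * d) * om z μ V y - 1 / (8 * d * μ)| ≤ (lam + 1 / μ) / 7 * om z μ V y := by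
    have ho := hom y
    have ho0 : 0 ≤ om z μ V y := by linarith
    have a1 : lam / (8 * d) ≤ lam / 8 := by
      apply div_le_div_of_nonneg_left hlam (by norm_num)
      linarith only [hd1]
    have a1' : 0 ≤ lam / (8 * d) := by positivity
    have a2 : 1 / (8 * d * μ) ≤ (1 / μ) / 8 := by
      rw [div_div]
      apply div_le_div_of_nonneg_left (by norm_num) (by positivity)
      nlinarith only [hμ, hd1]
    have a2' : 0 ≤ 1 / (8 * d * μ) := by positivity
    have a3 : 0 ≤ 1 / μ := by positivity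
    have a4 : lam / (8 * d) * om z μ V y ≤ lam / 8 * om z μ V y :=
      mul_le_mul_of_nonneg_right a1 ho0
    have a4' : 0 ≤ lam / (8 * d) * om z μ V y := mul_nonneg a1' ho0
    have a5 : (1 / μ) / 8 ≤ (1 / μ) / 7 * om z μ V y := by
      have : (1 / μ) / 7 * (49 / 50) ≤ (1 / μ) / 7 * om z μ V y :=
        mul_le_mul_of_nonneg_left ho (by positivity)
      linarith
    have a6 : 0 ≤ lam * om z μ V y := mul_nonneg hlam ho0
    rw [abs_le]
    constructor
    · nlinarith
    · nlinarith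
  calc (TM (z - lam) V ^ n) x y * |lam / (8 * d) * om z μ V y - 1 / (8 * d * μ)| ≤
      (TM (z - lam) V ^ n) x y * ((lam + 1 / μ) / 7 * om z μ V y) :=
        mul_le_mul_of_nonneg_left h8 (hP y)
    _ = _ := by ring

theorem mass_all (a : ℕ → ℝ) (q : ℝ) (hq : 0 ≤ q) (n : ℕ) (hn : n * q ≤ 1 / 7)
    (h0 : a 0 ≤ 3 / 2) (h0' : 0 ≤ a 0) (hs : ∀ k, |a (k + 1) - a k| ≤ q * a k) :
    ∀ k, k ≤ n → a k ≤ 3 / 2 * (1 + q) ^ k ∧ |a k - a 0| ≤ 2 * (k * q) := by
  have hexp : ∀ k, k ≤ n → 3 / 2 * (1 + q) ^ k ≤ 2 := by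
    intro k hk
    have h1 : (1 + q) ^ k ≤ Real.exp (k * q) := by
      rw [Real.exp_nat_mul]
      have : 1 + q ≤ Real.exp q := by
        have := Real.add_one_le_exp q
        linarith only [this]
      exact pow_le_pow_left₀ (by linarith only [hq]) this k
    have h2 : (k : ℝ) * q ≤ 1 / 7 := by
      refine le_trans ?_ hn
      exact mul_le_mul_of_nonneg_right (by exact_mod_cast hk) hq
    have h3 : Real.exp (k * q) ≤ 4 / 3 := by
      refine (Real.exp_le_exp.2 h2).trans ?_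
      have := Real.exp_bound_div_one_sub_of_interval (x := 1 / 7) (by norm_num) (by norm_num)
      linarith only [this]
    linarith only [h1, h3]
  intro k
  induction k with
  | zero =>
    intro _
    refine ⟨by rw [pow_zero]; linarith only [h0], ?_⟩
    rw [sub_self, abs_zero]
    simp
  | succ k ih =>
    intro hk
    obtain ⟨h1, h2⟩ := ih (by omega)
    have h3 := hs k
    have h4 : q * a k ≤ q * (3 / 2 * (1 + q) ^ k) := mul_le_mul_of_nonneg_left h1 hq
    have h5 := hexp k (by omega)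
    constructor
    · have h6 := (abs_le.1 h3).2
      calc a (k + 1) ≤ a k + q * a k := by linarith only [h6]
        _ ≤ 3 / 2 * (1 + q) ^ k + q * (3 / 2 * (1 + q) ^ k) := by linarith only [h1, h4]
        _ = 3 / 2 * (1 + q) ^ (k + 1) := by ring
    · have h6 : |a (k + 1) - a 0| ≤ |a (k + 1) - a k| + |a k - a 0| := abs_sub_le _ _ _
      have h7 : q * (3 / 2 * (1 + q) ^ k) ≤ q * 2 := mul_le_mul_of_nonneg_left h5 hq
      push_cast
      linarith only [h2, h3, h4, h6, h7]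

/-- the decay of the powers -/
theorem decay (hd : 1 ≤ d) (K ℓ : ℝ) (hK : 0 ≤ K) (hℓ : 0 ≤ ℓ) (n : ℕ) (hn : n * ℓ ≤ 1 / 8)
    (P : ℕ → Tor d M → ℝ) (hP : ∀ j, j ≤ n → ∑ y, (P j y) ^ 2 ≤ K * ((j : ℝ) + 1) ^ (-(d : ℝ) / 2)) :
    ∑ y, (∑ j ∈ Finset.range (n + 1), (ℓ ^ (n - j) * (n.choose j : ℝ)) * P j y) ^ 2 ≤
      (K * (Real.exp 1 * (Real.exp 1 * (d.factorial * Real.exp 1)))) *
        ((n : ℝ) + 1) ^ (-(d : ℝ) / 2) := by
  have hw : ∀ j, 0 ≤ ℓ ^ (n - j) * (n.choose j : ℝ) := fun j => by positivity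
  have hsum : ∀ t : ℝ, ∑ j ∈ Finset.range (n + 1), (t ^ (n - j) * (n.choose j : ℝ)) = (1 + t) ^ n := by
    intro t
    rw [add_pow]
    refine Finset.sum_congr rfl fun j _ => ?_
    rw [one_pow, one_mul]
  have he1 : (1 : ℝ) ≤ Real.exp 1 := by
    have := Real.add_one_le_exp (1 : ℝ)
    linarith only [this]
  have hb1 : (1 + ℓ) ^ n ≤ Real.exp 1 := by
    have h1 : (1 + ℓ) ^ n ≤ Real.exp (n * ℓ) := by
      rw [Real.exp_nat_mul]
      have : 1 + ℓ ≤ Real.exp ℓ := by
        have := Real.add_one_le_exp ℓ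
        linarith only [this]
      exact pow_le_pow_left₀ (by linarith only [hℓ]) this n
    exact h1.trans (Real.exp_le_exp.2 (by linarith))
  have hb2 : (1 + Real.exp 1 * ℓ) ^ n ≤ Real.exp 1 := by
    have h0 : 0 ≤ Real.exp 1 * ℓ := by positivity
    have h1 : (1 + Real.exp 1 * ℓ) ^ n ≤ Real.exp (n * (Real.exp 1 * ℓ)) := by
      rw [Real.exp_nat_mul]
      have : 1 + Real.exp 1 * ℓ ≤ Real.exp (Real.exp 1 * ℓ) := by
        have := Real.add_one_le_exp (Real.exp 1 * ℓ)
        linarith only [this]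
      exact pow_le_pow_left₀ (by linarith only [h0]) this n
    refine h1.trans (Real.exp_le_exp.2 ?_)
    have h2 := Real.exp_one_lt_d9
    have h3 : (n : ℝ) * (Real.exp 1 * ℓ) = Real.exp 1 * (n * ℓ) := by ring
    rw [h3]
    have h4 : Real.exp 1 * (n * ℓ) ≤ Real.exp 1 * (1 / 8) :=
      mul_le_mul_of_nonneg_left hn (by positivity)
    linarith only [h2, h4]
  have hd0 : (0 : ℝ) ≤ (d : ℝ) / 2 := by positivity
  have key : ∀ j, j ≤ n → (ℓ ^ (n - j) * (n.choose j : ℝ)) * (K * ((j : ℝ) + 1) ^ (-(d : ℝ) / 2)) ≤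
      (((Real.exp 1 * ℓ) ^ (n - j) * (n.choose j : ℝ)) * (K * (d.factorial * Real.exp 1))) *
        ((n : ℝ) + 1) ^ (-(d : ℝ) / 2) := by
    intro j hj
    obtain ⟨i, rfl⟩ := Nat.exists_eq_add_of_le hj
    rw [Nat.add_sub_cancel_left]
    have hj1 : (0 : ℝ) < (j : ℝ) + 1 := by positivity
    have hi1 : (0 : ℝ) < (i : ℝ) + 1 := by positivity
    have hn1 : (0 : ℝ) < ((j + i : ℕ) : ℝ) + 1 := by positivity
    have h1 : (((j + i : ℕ) : ℝ) + 1) ≤ ((j : ℝ) + 1) * ((i : ℝ) + 1) := by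
      push_cast
      have : (0 : ℝ) ≤ (j : ℝ) * i := by positivity
      nlinarith only [this]
    have h2 : (((j + i : ℕ) : ℝ) + 1) ^ ((d : ℝ) / 2) ≤
        ((j : ℝ) + 1) ^ ((d : ℝ) / 2) * ((i : ℝ) + 1) ^ ((d : ℝ) / 2) := by
      rw [← Real.mul_rpow hj1.le hi1.le]
      exact Real.rpow_le_rpow hn1.le h1 hd0
    have h3 : ((i : ℝ) + 1) ^ ((d : ℝ) / 2) ≤ d.factorial * (Real.exp 1 * Real.exp 1 ^ i) := by
      have h4 : ((i : ℝ) + 1) ^ ((d : ℝ) / 2) ≤ ((i : ℝ) + 1) ^ (d : ℝ) := by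
        apply Real.rpow_le_rpow_of_exponent_le
        · have : (0 : ℝ) ≤ i := by positivity
          linarith only
        · have : (0 : ℝ) ≤ (d : ℝ) := by positivity
          linarith only
      rw [Real.rpow_natCast] at h4
      have h5 := Real.pow_div_factorial_le_exp ((i : ℝ) + 1) hi1.le d
      rw [div_le_iff₀ (by positivity)] at h5
      have h6 : Real.exp ((i : ℝ) + 1) = Real.exp 1 * Real.exp 1 ^ i := by
        rw [Real.exp_add, ← Real.exp_nat_mul, mul_one, mul_comm]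
      rw [h6] at h5
      calc _ ≤ _ := h4
        _ ≤ _ := h5
        _ = _ := by ring
    have h7 : ((j : ℝ) + 1) ^ (-(d : ℝ) / 2) ≤
        (d.factorial * (Real.exp 1 * Real.exp 1 ^ i)) * (((j + i : ℕ) : ℝ) + 1) ^ (-(d : ℝ) / 2) := by
      rw [neg_div, Real.rpow_neg hj1.le, Real.rpow_neg hn1.le, ← div_eq_mul_inv,
        le_div_iff₀ (Real.rpow_pos_of_pos hn1 _), inv_mul_le_iff₀ (Real.rpow_pos_of_pos hj1 _)]
      refine h2.trans ?_
      exact mul_le_mul_of_nonneg_left h3 (Real.rpow_nonneg hj1.le _)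
    calc (ℓ ^ i * ((j + i).choose j : ℝ)) * (K * ((j : ℝ) + 1) ^ (-(d : ℝ) / 2)) ≤
        (ℓ ^ i * ((j + i).choose j : ℝ)) * (K * ((d.factorial * (Real.exp 1 * Real.exp 1 ^ i)) *
          (((j + i : ℕ) : ℝ) + 1) ^ (-(d : ℝ) / 2))) :=
          mul_le_mul_of_nonneg_left (mul_le_mul_of_nonneg_left h7 hK) (by positivity)
      _ = _ := by
        rw [mul_pow]
        ring
  have hCS : ∀ y, (∑ j ∈ Finset.range (n + 1), (ℓ ^ (n - j) * (n.choose j : ℝ)) * P j y) ^ 2 ≤
      (1 + ℓ) ^ n * ∑ j ∈ Finset.range (n + 1), (ℓ ^ (n - j) * (n.choose j : ℝ)) * (P j y) ^ 2 := by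
    intro y
    rw [← hsum ℓ]
    apply Finset.sum_sq_le_sum_mul_sum_of_sq_le_mul
    · intro j _
      exact hw j
    · intro j _
      exact mul_nonneg (hw j) (sq_nonneg _)
    · intro j _
      exact le_of_eq (by ring)
  calc ∑ y, (∑ j ∈ Finset.range (n + 1), (ℓ ^ (n - j) * (n.choose j : ℝ)) * P j y) ^ 2
      ≤ ∑ y, (1 + ℓ) ^ n * ∑ j ∈ Finset.range (n + 1),
          (ℓ ^ (n - j) * (n.choose j : ℝ)) * (P j y) ^ 2 := Finset.sum_le_sum fun y _ => hCS y
    _ = (1 + ℓ) ^ n * ∑ j ∈ Finset.range (n + 1),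
          (ℓ ^ (n - j) * (n.choose j : ℝ)) * ∑ y, (P j y) ^ 2 := by
        rw [← Finset.mul_sum, Finset.sum_comm]
        congr 1
        exact Finset.sum_congr rfl fun j _ => by rw [Finset.mul_sum]
    _ ≤ (1 + ℓ) ^ n * ∑ j ∈ Finset.range (n + 1),
          (((Real.exp 1 * ℓ) ^ (n - j) * (n.choose j : ℝ)) * (K * (d.factorial * Real.exp 1))) *
          ((n : ℝ) + 1) ^ (-(d : ℝ) / 2) := by
        refine mul_le_mul_of_nonneg_left (Finset.sum_le_sum fun j hj => ?_) (by positivity)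
        have hj' : j ≤ n := by
          rw [Finset.mem_range] at hj
          omega
        exact (mul_le_mul_of_nonneg_left (hP j hj') (hw j)).trans (key j hj')
    _ = (1 + ℓ) ^ n * ((1 + Real.exp 1 * ℓ) ^ n * (K * (d.factorial * Real.exp 1))) *
          ((n : ℝ) + 1) ^ (-(d : ℝ) / 2) := by
        rw [← Finset.sum_mul, ← Finset.sum_mul, hsum]
        ring
    _ ≤ Real.exp 1 * (Real.exp 1 * (K * (d.factorial * Real.exp 1))) *
          ((n : ℝ) + 1) ^ (-(d : ℝ) / 2) := by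
        refine mul_le_mul_of_nonneg_right ?_ (Real.rpow_nonneg (by positivity) _)
        have h0 : 0 ≤ K * (d.factorial * Real.exp 1) := by positivity
        exact mul_le_mul hb1 (mul_le_mul_of_nonneg_right hb2 h0) (by positivity) (by positivity)
    _ = _ := by ring

theorem hke : HkeStmt := by
  intro d hd
  have hK : 0 ≤ KH d := by unfold KH; positivity
  refine ⟨KH d * (Real.exp 1 * (Real.exp 1 * (d.factorial * Real.exp 1))) + 1, ?_, ?_⟩
  · have : 0 ≤ KH d * (Real.exp 1 * (Real.exp 1 * (d.factorial * Real.exp 1))) := by positivity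
    linarith
  intro M _ z μ ε lam V n x hz hμ hε hε' hF hlam hn hM
  have hC0 : 0 ≤ KH d * (Real.exp 1 * (Real.exp 1 * (d.factorial * Real.exp 1))) := by positivity
  have hF' := hF
  obtain ⟨hV, hA, hD⟩ := hF'
  have hd1 : (1 : ℝ) ≤ d := by exact_mod_cast hd
  have hεμ : ε * μ ≤ 1 / 50 * μ := mul_le_mul_of_nonneg_right hε' hμ.le
  have hH := H32.heat H32.nash H32.seq d M hd z V ((1 - ε) * μ) hz hV hA
    (mul_pos (by linarith only [hε, hε']) hμ)
    (fun x => by
      have := (abs_le.1 (hD x)).1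
      linarith)
    (fun x => by
      have := (abs_le.1 (hD x)).2
      linarith)
  obtain ⟨hT0, -, hdec, -, -, -⟩ := hH
  have hT : ∀ x y, 0 ≤ TM (z - lam) V x y := by
    intro x y
    rw [TM_shift, Matrix.add_apply, Matrix.smul_apply, smul_eq_mul]
    have h1 : 0 ≤ lam / (8 * (d : ℝ)) := by positivity
    have h2 : (0 : ℝ) ≤ (1 : Matrix (Tor d M) (Tor d M) ℝ) x y := by
      rw [Matrix.one_apply]
      split_ifs <;> norm_num
    exact add_nonneg (hT0 x y) (mul_nonneg h1 h2)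
  have hnℓ : (n : ℝ) * lam ≤ 1 := by
    have h1 : 0 ≤ (n : ℝ) * (1 / μ) := by positivity
    nlinarith only [hn, h1]
  refine ⟨pow_nonneg_entries hT n x, ?_, ?_⟩
  · set a : ℕ → ℝ := fun k => ∑ y, (TM (z - lam) V ^ k) x y * om z μ V y with ha
    have hom0 : a 0 = om z μ V x := by
      rw [ha]
      simp only [pow_zero]
      rw [Finset.sum_eq_single x]
      · rw [Matrix.one_apply_eq, one_mul]
      · intro y _ hy
        rw [Matrix.one_apply_ne (Ne.symm hy), zero_mul]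
      · intro h
        exact absurd (Finset.mem_univ _) h
    have hq : 0 ≤ (lam + 1 / μ) / 7 := by positivity
    have h1 := mass_all a ((lam + 1 / μ) / 7) hq n (by linarith only [hn]) (by
      rw [hom0]
      unfold om
      rw [div_le_iff₀ hμ]
      have := (abs_le.1 (hD x)).2
      linarith) (by
      rw [hom0]
      unfold om
      apply div_nonneg _ hμ.le
      have := (abs_le.1 (hD x)).1
      nlinarith) (fun k => mass_step hd hμ hε hε' hF hlam hT x k) n le_rfl
    have h2 := h1.2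
    rw [hom0] at h2
    refine h2.trans ?_
    have h3 : 0 ≤ (n : ℝ) * (lam + 1 / μ) := by positivity
    have h4 : 2 * ((n : ℝ) * ((lam + 1 / μ) / 7)) = 2 / 7 * (n * (lam + 1 / μ)) := by ring
    have h5 : (KH d * (Real.exp 1 * (Real.exp 1 * (d.factorial * Real.exp 1))) + 1) * n *
        (lam + 1 / μ) = (KH d * (Real.exp 1 * (Real.exp 1 * (d.factorial * Real.exp 1))) + 1) *
        (n * (lam + 1 / μ)) := by ring
    rw [h4, h5]
    exact mul_le_mul_of_nonneg_right (by linarith only [hε, hε', hC0]) h3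
  · have h1 : ∀ y, (TM (z - lam) V ^ n) x y = ∑ j ∈ Finset.range (n + 1),
        ((lam / (8 * d)) ^ (n - j) * (n.choose j : ℝ)) * (TM z V ^ j) x y := fun y =>
      TM_pow z lam V n x y
    simp only [h1]
    refine (decay hd (KH d) (lam / (8 * d)) hK (by positivity) n ?_ (fun j y => (TM z V ^ j) x y)
      ?_).trans ?_
    · have h2 : (n : ℝ) * (lam / (8 * d)) = n * lam / (8 * d) := by ring
      rw [h2]
      have h3 : (n : ℝ) * lam / (8 * d) ≤ n * lam / 8 :=
        div_le_div_of_nonneg_left (by positivity) (by norm_num) (by linarith only [hd1])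
      linarith only [hnℓ, h3]
    · intro j hj
      exact hdec x j (by omega)
    · refine mul_le_mul_of_nonneg_right (by linarith only [hε, hε']) (Real.rpow_nonneg (by positivity) _)

end Pool.Agent.LE.IR.H19
end
end -- Pool.Agent.Helper19_LIR.HKE

section -- Pool.Agent.Helper6_LIR.SRC

/-! Squad LIR, row SRC: the local part and the source. -/

set_option autoImplicit false

open MeasureTheory ProbabilityTheory Function Filter Matrix

open scoped ENNReal BigOperators Topology NNReal ComplexOrder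

noncomputable section

namespace Pool.Agent.LE.IR.H6

open Pool.Agent.Anderson hiding box mem_box card_box
open Pool.Agent.Loc Pool.Agent.Mob Pool.Agent.Helper54.Bal
  Pool.Agent.Helper96.EXP Pool.Agent.BED
open Pool.Agent.LE.MN Pool.Agent.LE.CL

theorem norm_pow_sub {z : ℂ} (hz : ‖z‖ = 1) (n : ℕ) : ‖z ^ n - 1‖ ≤ n * ‖z - 1‖ := by
  induction n with
  | zero => simp
  | succ n ih =>
    have e : z ^ (n + 1) - 1 = z * (z ^ n - 1) + (z - 1) := by ring
    rw [e]
    refine (norm_add_le _ _).trans ?_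
    rw [norm_mul, hz, one_mul]
    push_cast
    linarith

theorem norm_zpow_sub {z : ℂ} (hz : ‖z‖ = 1) (m : ℤ) : ‖z ^ m - 1‖ ≤ m.natAbs * ‖z - 1‖ := by
  have hz0 : z ≠ 0 := by
    intro h
    rw [h, norm_zero] at hz
    exact zero_ne_one hz
  rcases Int.natAbs_eq m with h | h
  · have h1 := norm_pow_sub hz m.natAbs
    rw [← zpow_natCast, ← h] at h1
    exact h1
  · have h1 := norm_pow_sub hz m.natAbs
    have e : z ^ m - 1 = -(z ^ m * (z ^ m.natAbs - 1)) := by
      have h2 : z ^ m * z ^ m.natAbs = 1 := by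
        rw [← zpow_natCast, ← zpow_add₀ hz0]
        have : m + (m.natAbs : ℤ) = 0 := by omega
        rw [this, zpow_zero]
      rw [mul_sub, h2, mul_one]
      ring
    rw [e, norm_neg, norm_mul, norm_zpow, hz, _root_.one_zpow, one_mul]
    exact h1

theorem norm_prod_sub {ι : Type} (s : Finset ι) (z : ι → ℂ) (hz : ∀ i, ‖z i‖ = 1) :
    ‖∏ i ∈ s, z i - 1‖ ≤ ∑ i ∈ s, ‖z i - 1‖ := by
  classical
  induction s using Finset.induction_on with
  | empty => simp
  | insert a s ha ih =>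
    rw [Finset.prod_insert ha, Finset.sum_insert ha]
    have e : z a * ∏ i ∈ s, z i - 1 = z a * (∏ i ∈ s, z i - 1) + (z a - 1) := by ring
    rw [e]
    refine (norm_add_le _ _).trans ?_
    rw [norm_mul, hz, one_mul]
    linarith

theorem norm_exp_sub (θ : ℝ) :
    ‖Complex.exp (θ * Complex.I) - 1‖ = Real.sqrt (2 * (1 - Real.cos θ)) := by
  rw [Complex.norm_eq_sqrt_sq_add_sq]
  congr 1
  have h1 : (Complex.exp (θ * Complex.I) - 1).re = Real.cos θ - 1 := by
    rw [Complex.sub_re, Complex.exp_ofReal_mul_I_re, Complex.one_re]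
  have h2 : (Complex.exp (θ * Complex.I) - 1).im = Real.sin θ := by
    rw [Complex.sub_im, Complex.exp_ofReal_mul_I_im, Complex.one_im, sub_zero]
  rw [h1, h2]
  nlinarith only [Real.sin_sq_add_cos_sq θ]

section std

variable {M : ℕ} [NeZero M]

theorem norm_std (a : ZMod M) : ‖ZMod.stdAddChar a‖ = 1 := by
  rw [ZMod.stdAddChar_apply]
  exact Circle.norm_coe _

theorem norm_std_sub (a : ZMod M) : ‖ZMod.stdAddChar a - 1‖ =
    Real.sqrt (2 * (1 - Real.cos (2 * Real.pi * (a.valMinAbs : ℝ) / M))) := by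
  have h1 : ZMod.stdAddChar a = Complex.exp (((2 * Real.pi * (a.valMinAbs : ℝ) / M : ℝ) : ℂ) *
      Complex.I) := by
    have h2 := ZMod.stdAddChar_coe (N := M) a.valMinAbs
    rw [ZMod.coe_valMinAbs] at h2
    rw [h2]
    congr 1
    push_cast
    ring
  rw [h1, norm_exp_sub]

theorem norm_std_mul_sub (a b : ZMod M) : ‖ZMod.stdAddChar (a * b) - 1‖ ≤
    b.valMinAbs.natAbs *
      Real.sqrt (2 * (1 - Real.cos (2 * Real.pi * (a.valMinAbs : ℝ) / M))) := by
  have h1 : ZMod.stdAddChar (a * b) = ZMod.stdAddChar a ^ b.valMinAbs := by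
    have h2 : a * b = b.valMinAbs • a := by
      rw [zsmul_eq_mul, ZMod.coe_valMinAbs, mul_comm]
    rw [h2, AddChar.map_zsmul_eq_zpow]
  rw [h1, ← norm_std_sub]
  exact norm_zpow_sub (norm_std a) _

end std

/-! sums -/

theorem sum34 (n : ℕ) : ∑ j ∈ Finset.range n, ((j : ℝ) + 1) ^ (-(3 : ℝ) / 4) ≤
    4 * (n : ℝ) ^ ((1 : ℝ) / 4) := by
  induction n with
  | zero => simp
  | succ n ih =>
    rw [Finset.sum_range_succ]
    have hn : (0 : ℝ) ≤ n := Nat.cast_nonneg n
    obtain ⟨a, ha⟩ : ∃ a : ℝ, a = ((n : ℝ) + 1) ^ ((1 : ℝ) / 4) := ⟨_, rfl⟩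
    obtain ⟨b, hb⟩ : ∃ b : ℝ, b = (n : ℝ) ^ ((1 : ℝ) / 4) := ⟨_, rfl⟩
    have ha0 : 0 < a := by rw [ha]; positivity
    have hb0 : 0 ≤ b := by rw [hb]; positivity
    have ha4 : a ^ 4 = n + 1 := by
      rw [ha, ← Real.rpow_natCast, ← Real.rpow_mul (by linarith only)]
      norm_num
    have hb4 : b ^ 4 = n := by
      rw [hb, ← Real.rpow_natCast, ← Real.rpow_mul hn]
      norm_num
    have hab : b ≤ a := by
      rw [ha, hb]
      exact Real.rpow_le_rpow hn (by linarith only) (by norm_num)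
    have h1 : ((n : ℝ) + 1) ^ (-(3 : ℝ) / 4) = 1 / a ^ 3 := by
      rw [ha, ← Real.rpow_natCast, ← Real.rpow_mul (by linarith only), one_div,
        ← Real.rpow_neg (by linarith only)]
      norm_num
    push_cast
    rw [← ha, h1]
    rw [← hb] at ih
    have h2 : 1 / a ^ 3 ≤ 4 * (a - b) := by
      rw [div_le_iff₀ (by positivity)]
      have e : (a - b) * (a ^ 3 + a ^ 2 * b + a * b ^ 2 + b ^ 3) = 1 := by
        have : (a - b) * (a ^ 3 + a ^ 2 * b + a * b ^ 2 + b ^ 3) = a ^ 4 - b ^ 4 := by ring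
        rw [this, ha4, hb4]
        ring
      have h3 : a ^ 3 + a ^ 2 * b + a * b ^ 2 + b ^ 3 ≤ 4 * a ^ 3 := by
        have i1 : a ^ 2 * b ≤ a ^ 2 * a := mul_le_mul_of_nonneg_left hab (by positivity)
        have i2 : b ^ 2 ≤ a ^ 2 := pow_le_pow_left₀ hb0 hab 2
        have i3 : a * b ^ 2 ≤ a * a ^ 2 := mul_le_mul_of_nonneg_left i2 ha0.le
        have i4 : b ^ 3 ≤ a ^ 3 := pow_le_pow_left₀ hb0 hab 3
        nlinarith only [i1, i3, i4]
      have h4 := mul_le_mul_of_nonneg_left h3 (sub_nonneg.2 hab)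
      rw [e] at h4
      linarith only [h4]
    linarith only [ih, h2]

theorem sum54 (n : ℕ) (hn1 : 1 ≤ n) : ∑ j ∈ Finset.range n, ((j : ℝ) + 1) ^ (-(5 : ℝ) / 4) ≤
    5 - 4 * (n : ℝ) ^ (-(1 : ℝ) / 4) := by
  induction n, hn1 using Nat.le_induction with
  | base => norm_num
  | succ n hn1 ih =>
    rw [Finset.sum_range_succ]
    have hn : (0 : ℝ) < n := by exact_mod_cast hn1
    obtain ⟨a, ha⟩ : ∃ a : ℝ, a = ((n : ℝ) + 1) ^ ((1 : ℝ) / 4) := ⟨_, rfl⟩
    obtain ⟨b, hb⟩ : ∃ b : ℝ, b = (n : ℝ) ^ ((1 : ℝ) / 4) := ⟨_, rfl⟩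
    have ha0 : 0 < a := by rw [ha]; positivity
    have hb0 : 0 < b := by rw [hb]; positivity
    have ha4 : a ^ 4 = n + 1 := by
      rw [ha, ← Real.rpow_natCast, ← Real.rpow_mul (by linarith only [hn])]
      norm_num
    have hb4 : b ^ 4 = n := by
      rw [hb, ← Real.rpow_natCast, ← Real.rpow_mul hn.le]
      norm_num
    have hab : b ≤ a := by
      rw [ha, hb]
      exact Real.rpow_le_rpow hn.le (by linarith only) (by norm_num)
    have h1 : ((n : ℝ) + 1) ^ (-(5 : ℝ) / 4) = 1 / a ^ 5 := by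
      rw [ha, ← Real.rpow_natCast, ← Real.rpow_mul (by linarith only [hn]), one_div,
        ← Real.rpow_neg (by linarith only [hn])]
      norm_num
    have h5 : (n : ℝ) ^ (-(1 : ℝ) / 4) = 1 / b := by
      rw [hb, one_div, ← Real.rpow_neg hn.le]
      norm_num
    have h6 : ((n : ℝ) + 1) ^ (-(1 : ℝ) / 4) = 1 / a := by
      rw [ha, one_div, ← Real.rpow_neg (by linarith only [hn])]
      norm_num
    push_cast
    rw [h1, h6]
    rw [h5] at ih
    have h2 : 1 / a ^ 5 ≤ 4 * (1 / b - 1 / a) := by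
      have e : (a - b) * (a ^ 3 + a ^ 2 * b + a * b ^ 2 + b ^ 3) = 1 := by
        have : (a - b) * (a ^ 3 + a ^ 2 * b + a * b ^ 2 + b ^ 3) = a ^ 4 - b ^ 4 := by ring
        rw [this, ha4, hb4]
        ring
      have h3 : a ^ 3 + a ^ 2 * b + a * b ^ 2 + b ^ 3 ≤ 4 * a ^ 3 := by
        have i1 : a ^ 2 * b ≤ a ^ 2 * a := mul_le_mul_of_nonneg_left hab (by positivity)
        have i2 : b ^ 2 ≤ a ^ 2 := pow_le_pow_left₀ hb0.le hab 2
        have i3 : a * b ^ 2 ≤ a * a ^ 2 := mul_le_mul_of_nonneg_left i2 ha0.le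
        have i4 : b ^ 3 ≤ a ^ 3 := pow_le_pow_left₀ hb0.le hab 3
        nlinarith only [i1, i3, i4]
      have h4 := mul_le_mul_of_nonneg_left h3 (sub_nonneg.2 hab)
      rw [e] at h4
      have e2 : 4 * (1 / b - 1 / a) = 4 * (a - b) / (b * a) := by
        field_simp
      rw [e2, div_le_div_iff₀ (by positivity) (by positivity)]
      have h7 : b * a ≤ a ^ 2 := by
        rw [sq]
        exact mul_le_mul_of_nonneg_right hab ha0.le
      have h8 : 1 * a ^ 2 ≤ (4 * (a - b)) * a ^ 5 := by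
        have h9 : a ^ 2 * 1 ≤ a ^ 2 * ((a - b) * (4 * a ^ 3)) :=
          mul_le_mul_of_nonneg_left h4 (by positivity)
        calc 1 * a ^ 2 = a ^ 2 * 1 := by ring
          _ ≤ a ^ 2 * ((a - b) * (4 * a ^ 3)) := h9
          _ = _ := by ring
      linarith only [h7, h8]
    linarith only [ih, h2]

/-- weighted Cauchy-Schwarz -/
theorem sq_sum_le_w {ι : Type} (s : Finset ι) (a w : ι → ℝ) (hw : ∀ i ∈ s, 0 < w i) :
    (∑ i ∈ s, a i) ^ 2 ≤ (∑ i ∈ s, w i) * ∑ i ∈ s, a i ^ 2 / w i := by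
  have h := Finset.sum_mul_sq_le_sq_mul_sq s (fun i => Real.sqrt (w i))
    (fun i => a i / Real.sqrt (w i))
  have h1 : ∑ i ∈ s, Real.sqrt (w i) * (a i / Real.sqrt (w i)) = ∑ i ∈ s, a i := by
    refine Finset.sum_congr rfl fun i hi => ?_
    have : Real.sqrt (w i) ≠ 0 := (Real.sqrt_pos.2 (hw i hi)).ne'
    field_simp
  have h2 : ∑ i ∈ s, Real.sqrt (w i) ^ 2 = ∑ i ∈ s, w i :=
    Finset.sum_congr rfl fun i hi => Real.sq_sqrt (hw i hi).le
  have h3 : ∑ i ∈ s, (a i / Real.sqrt (w i)) ^ 2 = ∑ i ∈ s, a i ^ 2 / w i := by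
    refine Finset.sum_congr rfl fun i hi => ?_
    rw [div_pow, Real.sq_sqrt (hw i hi).le]
  rw [h1, h2, h3] at h
  exact h

section basic

variable {d M : ℕ} [NeZero M]

theorem norm_ec (p y : Tor d M) : ‖ec p y‖ = 1 := by
  unfold ec
  rw [norm_prod]
  exact Finset.prod_eq_one fun i _ => norm_std _

theorem ec_add (p y z : Tor d M) : ec p (y + z) = ec p y * ec p z := by
  unfold ec
  rw [← Finset.prod_mul_distrib]
  refine Finset.prod_congr rfl fun i _ => ?_
  rw [← AddChar.map_add_eq_mul, Pi.add_apply, mul_add]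

omit [NeZero M] in
theorem ds_nonneg (p : Tor d M) : 0 ≤ ds p := by
  unfold ds
  refine Finset.sum_nonneg fun i _ => ?_
  have := Real.cos_le_one (2 * Real.pi * ((p i).valMinAbs : ℝ) / M)
  linarith only [this]

theorem norm_ec_sub (p x y : Tor d M) :
    ‖ec p (y - x) - 1‖ ≤ d * (tds x y : ℝ) * Real.sqrt (ds p) := by
  unfold ec
  refine (norm_prod_sub _ _ fun i => norm_std _).trans ?_
  have h1 : ∀ i ∈ (Finset.univ : Finset (Fin d)),
      ‖ZMod.stdAddChar (p i * (y - x) i) - 1‖ ≤ (tds x y : ℝ) * Real.sqrt (ds p) := by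
    intro i _
    refine (norm_std_mul_sub _ _).trans ?_
    have h2 : ((y - x) i).valMinAbs.natAbs ≤ tds x y :=
      Finset.le_sup (f := fun i => (y i - x i).valMinAbs.natAbs) (Finset.mem_univ i)
    have h3 : 2 * (1 - Real.cos (2 * Real.pi * ((p i).valMinAbs : ℝ) / M)) ≤ ds p := by
      unfold ds
      refine Finset.single_le_sum
        (f := fun i => 2 * (1 - Real.cos (2 * Real.pi * ((p i).valMinAbs : ℝ) / M)))
        (fun i _ => ?_) (Finset.mem_univ i)
      have := Real.cos_le_one (2 * Real.pi * ((p i).valMinAbs : ℝ) / M)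
      change 0 ≤ 2 * (1 - Real.cos (2 * Real.pi * ((p i).valMinAbs : ℝ) / M))
      linarith only [this]
    exact mul_le_mul (by exact_mod_cast h2) (Real.sqrt_le_sqrt h3) (Real.sqrt_nonneg _)
      (Nat.cast_nonneg _)
  refine (Finset.sum_le_card_nsmul _ _ _ h1).trans ?_
  rw [Finset.card_univ, Fintype.card_fin, nsmul_eq_mul, mul_assoc]

theorem norm_ft_le (f : Tor d M → ℂ) (p : Tor d M) : ‖ft f p‖ ≤ ∑ y, ‖f y‖ := by
  unfold ft
  refine (norm_sum_le _ _).trans (Finset.sum_le_sum fun y _ => ?_)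
  rw [norm_mul, RCLike.norm_conj, norm_ec, one_mul]

/-- the landscape equation -/
theorem om_eq {z μ : ℝ} (hμ : 0 < μ) {V : Tor d M → ℝ} (hA : (AM z V).PosDef) (y : Tor d M) :
    ∑ i : Fin d, (om z μ V (y + ev i) + om z μ V (y - ev i)) =
      (z - V y) * om z μ V y - 1 / μ := by
  have h1 := congrFun (AM_DD hA) y
  rw [AM_mulVec] at h1
  unfold om
  have h2 : ∑ i : Fin d, (DD z V (y + ev i) / μ + DD z V (y - ev i) / μ) =
      (∑ i : Fin d, (DD z V (y + ev i) + DD z V (y - ev i))) / μ := by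
    rw [Finset.sum_div]
    exact Finset.sum_congr rfl fun i _ => (add_div _ _ _).symm
  have h3 : ∑ i : Fin d, (DD z V (y + ev i) + DD z V (y - ev i)) =
      (z - V y) * DD z V y - 1 := by
    simp only [Pi.one_apply] at h1
    linarith
  rw [h2, h3]
  field_simp

/-- the operator applied to the partial sum of the powers -/
theorem AM_geom (hd : 0 < d) (z : ℝ) (V : Tor d M → ℝ) (n : ℕ) (x y : Tor d M) :
    (AM z V *ᵥ fun u => (∑ j ∈ Finset.range n, (TM z V ^ j) x u) / (8 * d)) y =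
      (if y = x then 1 else 0) - (TM z V ^ n) x y := by
  have hd' : (0 : ℝ) < d := by exact_mod_cast hd
  have h1 : (1 : Matrix (Tor d M) (Tor d M) ℝ) - TM z V = (1 / (8 * (d : ℝ))) • AM z V := by
    unfold TM
    abel
  have h2 := geom_sum_mul_neg (TM z V) n
  rw [h1] at h2
  have h3 := congrFun (congrFun h2 x) y
  rw [Matrix.sub_apply, Matrix.one_apply, Matrix.mul_apply] at h3
  have h4 : (if x = y then (1 : ℝ) else 0) = if y = x then 1 else 0 := by
    by_cases h : x = y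
    · rw [if_pos h, if_pos h.symm]
    · rw [if_neg h, if_neg (Ne.symm h)]
  rw [h4] at h3
  rw [← h3]
  unfold Matrix.mulVec dotProduct
  refine Finset.sum_congr rfl fun u _ => ?_
  change AM z V y u * ((∑ j ∈ Finset.range n, (TM z V ^ j) x u) / (8 * d)) =
    (∑ i ∈ Finset.range n, TM z V ^ i) x u * ((1 / (8 * (d : ℝ))) • AM z V) u y
  rw [AM_symm z V y u, Matrix.smul_apply, smul_eq_mul, Matrix.sum_apply]
  field_simp

theorem aop_div {ω : Tor d M → ℝ} (hω : ∀ y, ω y ≠ 0) {z h lam : ℝ} {V : Tor d M → ℝ}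
    (heq : ∀ y, ∑ i : Fin d, (ω (y + ev i) + ω (y - ev i)) = (z - V y) * ω y - h)
    (s : Tor d M → ℝ) (y : Tor d M) :
    aop ω h lam (fun u => ((s u / ω u : ℝ) : ℂ)) y =
      ((ω y * (AM (z - lam) V *ᵥ s) y : ℝ) : ℂ) := by
  have h1 : ∑ i : Fin d, (ω y * ω (y + ev i) * (s y / ω y - s (y + ev i) / ω (y + ev i)) +
      ω y * ω (y - ev i) * (s y / ω y - s (y - ev i) / ω (y - ev i))) +
      (h * ω y - lam * ω y ^ 2) * (s y / ω y) = ω y * (AM (z - lam) V *ᵥ s) y := by
    rw [AM_mulVec]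
    have h2 : ∀ i : Fin d, ω y * ω (y + ev i) * (s y / ω y - s (y + ev i) / ω (y + ev i)) +
        ω y * ω (y - ev i) * (s y / ω y - s (y - ev i) / ω (y - ev i)) =
        s y * (ω (y + ev i) + ω (y - ev i)) - ω y * (s (y + ev i) + s (y - ev i)) := by
      intro i
      have e1 := hω y
      have e2 := hω (y + ev i)
      have e3 := hω (y - ev i)
      field_simp
      ring
    rw [Finset.sum_congr rfl fun i _ => h2 i, Finset.sum_sub_distrib, ← Finset.mul_sum,
      ← Finset.mul_sum, heq]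
    have e1 := hω y
    field_simp
    ring
  rw [← h1]
  unfold aop
  push_cast
  rfl

end basic

theorem growth_sum {d : ℕ} (hd : 3 ≤ d) {n : ℕ} (hn : 1 ≤ n) :
    (∑ j ∈ Finset.range n, ((j : ℝ) + 1) ^ (-(d : ℝ) / 4)) ^ 2 ≤
      25 * growth d n * (1 + Real.log n) := by
  have hn' : (1 : ℝ) ≤ n := by exact_mod_cast hn
  have hlog : 0 ≤ Real.log n := Real.log_nonneg hn'
  obtain ⟨W, hW⟩ : ∃ W, W = ∑ j ∈ Finset.range n, ((j : ℝ) + 1) ^ (-(d : ℝ) / 4) := ⟨_, rfl⟩
  rw [← hW]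
  have hW0 : 0 ≤ W := by
    rw [hW]
    exact Finset.sum_nonneg fun j _ => by positivity
  unfold growth
  by_cases h3 : d = 3
  · rw [if_pos h3]
    have h1 : W ≤ 4 * (n : ℝ) ^ ((1 : ℝ) / 4) := by
      rw [hW, h3]
      push_cast
      exact sum34 n
    have h2 : W ^ 2 ≤ (4 * (n : ℝ) ^ ((1 : ℝ) / 4)) ^ 2 := pow_le_pow_left₀ hW0 h1 2
    have h4 : (4 * (n : ℝ) ^ ((1 : ℝ) / 4)) ^ 2 = 16 * Real.sqrt n := by
      rw [mul_pow, ← Real.rpow_natCast ((n : ℝ) ^ ((1 : ℝ) / 4)), ← Real.rpow_mul (by linarith only [hn']),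
        Real.sqrt_eq_rpow]
      norm_num
    rw [h4] at h2
    have h5 : 0 ≤ Real.sqrt n := Real.sqrt_nonneg _
    nlinarith only [mul_nonneg h5 hlog, h2]
  · rw [if_neg h3]
    by_cases h4 : d = 4
    · rw [if_pos h4]
      have h1 : W ≤ 1 + Real.log n := by
        have h2 := harmonic_le_one_add_log n
        have h5 : W = ((harmonic n : ℚ) : ℝ) := by
          rw [hW, h4, harmonic]
          push_cast
          refine Finset.sum_congr rfl fun j _ => ?_
          rw [show (-4 : ℝ) / 4 = -1 by norm_num, Real.rpow_neg_one]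
        rw [h5]
        exact h2
      have h2 : W ^ 2 ≤ (1 + Real.log n) ^ 2 := pow_le_pow_left₀ hW0 h1 2
      nlinarith only [mul_nonneg hlog hlog, h2]
    · rw [if_neg h4]
      have h5 : (5 : ℝ) ≤ d := by exact_mod_cast (by omega : 5 ≤ d)
      have h1 : W ≤ 5 := by
        have h2 : W ≤ ∑ j ∈ Finset.range n, ((j : ℝ) + 1) ^ (-(5 : ℝ) / 4) := by
          rw [hW]
          refine Finset.sum_le_sum fun j _ => ?_
          apply Real.rpow_le_rpow_of_exponent_le
          · have : (0 : ℝ) ≤ j := Nat.cast_nonneg j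
            linarith only
          · linarith only [h5]
        have h6 := sum54 n hn
        have h7 : (0 : ℝ) ≤ (n : ℝ) ^ (-(1 : ℝ) / 4) := by positivity
        linarith
      have h2 : W ^ 2 ≤ 5 ^ 2 := pow_le_pow_left₀ hW0 h1 2
      nlinarith only [hlog, h2]

theorem src (hke : HkeStmt) (fmo : FmoStmt) : SrcStmt := by
  intro d hd
  obtain ⟨K, hK1, hK⟩ := hke d (by omega)
  obtain ⟨F, hF1, hF⟩ := fmo d (by omega)
  have hd0 : (3 : ℝ) ≤ d := by exact_mod_cast hd
  have hdF : (0 : ℝ) ≤ 2 * d * F := by positivity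
  refine ⟨25 * K + 2 * d * F, by linarith only [hK1, hdF], ?_⟩
  intro M _ z μ ε lam V n x hz hμ hε hε1 hflat hlam hn1 hn2 hn
  obtain ⟨hV, hA, hD⟩ := id hflat
  obtain ⟨ω, hωdef⟩ : ∃ ω, ω = om z μ V := ⟨_, rfl⟩
  obtain ⟨T, hT⟩ : ∃ T, T = TM (z - lam) V := ⟨_, rfl⟩
  have hω : ∀ y, |ω y - 1| ≤ ε := by
    intro y
    have h1 := hD y
    rw [hωdef]
    unfold om
    have h2 : DD z V y / μ - 1 = (DD z V y - μ) / μ := by field_simp
    rw [h2, abs_div, abs_of_pos hμ, div_le_iff₀ hμ]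
    exact h1
  have hω1 : ∀ y, 49 / 50 ≤ ω y := by
    intro y
    have := (abs_le.1 (hω y)).1
    linarith only [hε1, this]
  have hω2 : ∀ y, ω y ≤ 51 / 50 := by
    intro y
    have := (abs_le.1 (hω y)).2
    linarith only [hε1, this]
  have hω0 : ∀ y, 0 < ω y := fun y => by
    have := hω1 y
    linarith only [hε, hε1, this]
  have hh : 0 ≤ lam + 1 / μ := by positivity
  have hn' : (1 : ℝ) ≤ n := by exact_mod_cast hn
  have hlog : 0 ≤ Real.log n := Real.log_nonneg hn'
  have hpow : ∀ j ≤ n, (∀ y, 0 ≤ (T ^ j) x y) ∧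
      |∑ y, (T ^ j) x y * ω y - ω x| ≤ K * j * (lam + 1 / μ) ∧
      ∑ y, ((T ^ j) x y) ^ 2 ≤ K * ((j : ℝ) + 1) ^ (-(d : ℝ) / 2) := by
    intro j hj
    have hj' : (j : ℝ) ≤ n := by exact_mod_cast hj
    rw [hT, hωdef]
    exact hK M z μ ε lam V j x hz hμ hε hε1 hflat hlam
      ((mul_le_mul_of_nonneg_right hj' hh).trans hn1) (by omega)
  have hmass : ∀ j ≤ n, ∑ y, (T ^ j) x y * ω y ≤ 3 * K := by
    intro j hj
    have h1 := (abs_le.1 (hpow j hj).2.1).2
    have hj' : (j : ℝ) ≤ n := by exact_mod_cast hj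
    have h2 : K * j * (lam + 1 / μ) ≤ K * 1 := by
      rw [mul_assoc]
      exact mul_le_mul_of_nonneg_left ((mul_le_mul_of_nonneg_right hj' hh).trans hn1)
        (by linarith only [hK1, hε, hε1])
    have h3 := hω2 x
    linarith
  -- the partial sum
  obtain ⟨S, hS⟩ : ∃ S : Tor d M → ℝ, S = fun y => ∑ j ∈ Finset.range n, (T ^ j) x y := ⟨_, rfl⟩
  have hS0 : ∀ y, 0 ≤ S y := by
    intro y
    rw [hS]
    exact Finset.sum_nonneg fun j hj => (hpow j (Finset.mem_range.1 hj).le).1 y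
  have hsfn : ∀ y, sfn z μ lam V n x y = ((S y / (8 * d) / ω y : ℝ) : ℂ) := by
    intro y
    rw [hS, hT, hωdef]
    rfl
  have hSfn : ∀ y, Sfn z μ lam V n x y = ((ω y * (T ^ n) x y : ℝ) : ℂ) := by
    intro y
    rw [hT, hωdef]
    rfl
  have hsn : ∀ y, ‖sfn z μ lam V n x y‖ ≤ S y * ω y ∧ ‖sfn z μ lam V n x y‖ ≤ S y := by
    intro y
    rw [hsfn, Complex.norm_real, Real.norm_of_nonneg (by have := hS0 y; have := hω0 y; positivity)]
    have h1 := hω1 y
    have h2 := hS0 y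
    have h3 := hω0 y
    have h4 : S y / (8 * d) / ω y ≤ S y * (49 / 50) := by
      rw [div_div, div_le_iff₀ (by positivity)]
      have h5 : (1 : ℝ) ≤ 49 / 50 * (8 * d * ω y) := by nlinarith only [hd0, hε, hε1, h1]
      calc S y = S y * 1 := (mul_one _).symm
        _ ≤ S y * (49 / 50 * (8 * d * ω y)) := mul_le_mul_of_nonneg_left h5 h2
        _ = _ := by ring
    constructor
    · exact h4.trans (mul_le_mul_of_nonneg_left h1 h2)
    · linarith only [h2, h4]
  have hSn : ∀ y, ‖Sfn z μ lam V n x y‖ = ω y * (T ^ n) x y := by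
    intro y
    rw [hSfn, Complex.norm_real, Real.norm_of_nonneg
      (mul_nonneg (hω0 y).le ((hpow n le_rfl).1 y))]
  have hSsum : ∑ y, ω y * (T ^ n) x y ≤ 3 * K := by
    have h1 := hmass n le_rfl
    calc ∑ y, ω y * (T ^ n) x y = ∑ y, (T ^ n) x y * ω y :=
          Finset.sum_congr rfl fun y _ => mul_comm _ _
      _ ≤ _ := h1
  refine ⟨?_, ?_, ?_, ?_, ?_, ?_⟩
  · -- the equation
    intro y
    have h1 : (fun u => sfn z μ lam V n x u) = fun u => (((S u / (8 * d)) / ω u : ℝ) : ℂ) :=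
      funext hsfn
    have heq : ∀ y, ∑ i : Fin d, (ω (y + ev i) + ω (y - ev i)) = (z - V y) * ω y - 1 / μ := by
      intro y
      rw [hωdef]
      exact om_eq hμ hA y
    rw [← hωdef, h1, aop_div (fun y => (hω0 y).ne') heq (fun u => S u / (8 * d)) y]
    have h2 := AM_geom (by omega : 0 < d) (z - lam) V n x y
    rw [← hT] at h2
    have h3 : (AM (z - lam) V *ᵥ fun u => S u / (8 * d)) y =
        (if y = x then 1 else 0) - (T ^ n) x y := by
      rw [hS]
      exact h2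
    rw [h3, hSfn]
    by_cases h : y = x
    · rw [if_pos h, if_pos h, h]
      push_cast
      ring
    · rw [if_neg h, if_neg h]
      push_cast
      ring
  · intro p
    have h1 : ∑ y, S y * ω y ≤ n * (3 * K) := by
      have h2 : ∑ y, S y * ω y = ∑ j ∈ Finset.range n, ∑ y, (T ^ j) x y * ω y := by
        rw [hS, Finset.sum_comm]
        exact Finset.sum_congr rfl fun y _ => Finset.sum_mul _ _ _
      rw [h2]
      refine (Finset.sum_le_card_nsmul _ _ _ fun j hj => hmass j (Finset.mem_range.1 hj).le).trans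
        ?_
      rw [Finset.card_range, nsmul_eq_mul]
    have h2 : ‖ft (sfn z μ lam V n x) p‖ ≤ n * (3 * K) :=
      (norm_ft_le _ _).trans ((Finset.sum_le_sum fun y _ => (hsn y).1).trans h1)
    have h3 : n * (3 * K) ≤ (25 * K + 2 * d * F) * n := by
      have h4 : 3 * K ≤ 25 * K + 2 * d * F := by linarith only [hK1, hdF, hε, hε1]
      calc (n : ℝ) * (3 * K) = (3 * K) * n := by ring
        _ ≤ _ := mul_le_mul_of_nonneg_right h4 (by linarith only [hε, hε1, hn'])
    exact h2.trans h3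
  · -- the square sum
    have h1 : ∑ y, ‖sfn z μ lam V n x y‖ ^ 2 ≤ ∑ y, S y ^ 2 :=
      Finset.sum_le_sum fun y _ => pow_le_pow_left₀ (norm_nonneg _) (hsn y).2 2
    obtain ⟨W, hW⟩ : ∃ W, W = ∑ j ∈ Finset.range n, ((j : ℝ) + 1) ^ (-(d : ℝ) / 4) := ⟨_, rfl⟩
    have hW0 : 0 ≤ W := by
      rw [hW]
      exact Finset.sum_nonneg fun j _ => by positivity
    have h2 : ∑ y, S y ^ 2 ≤ K * W ^ 2 := by
      have h3 : ∀ y, S y ^ 2 ≤ W * ∑ j ∈ Finset.range n,
          ((T ^ j) x y) ^ 2 / ((j : ℝ) + 1) ^ (-(d : ℝ) / 4) := by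
        intro y
        rw [hS, hW]
        exact sq_sum_le_w _ _ _ fun j _ => by positivity
      refine (Finset.sum_le_sum fun y _ => h3 y).trans ?_
      rw [← Finset.mul_sum, Finset.sum_comm]
      have h4 : ∀ j ∈ Finset.range n,
          ∑ y, ((T ^ j) x y) ^ 2 / ((j : ℝ) + 1) ^ (-(d : ℝ) / 4) ≤
            K * ((j : ℝ) + 1) ^ (-(d : ℝ) / 4) := by
        intro j hj
        rw [← Finset.sum_div, div_le_iff₀ (by positivity)]
        refine (hpow j (Finset.mem_range.1 hj).le).2.2.trans (le_of_eq ?_)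
        have hj0 : (0 : ℝ) < (j : ℝ) + 1 := by positivity
        rw [mul_assoc, ← Real.rpow_add hj0]
        congr 2
        ring
      have h5 : ∑ j ∈ Finset.range n, ∑ y, ((T ^ j) x y) ^ 2 / ((j : ℝ) + 1) ^ (-(d : ℝ) / 4) ≤
          K * W := by
        rw [hW, Finset.mul_sum]
        exact Finset.sum_le_sum h4
      calc W * ∑ j ∈ Finset.range n, ∑ y, ((T ^ j) x y) ^ 2 / ((j : ℝ) + 1) ^ (-(d : ℝ) / 4)
          ≤ W * (K * W) := mul_le_mul_of_nonneg_left h5 hW0
        _ = K * W ^ 2 := by ring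
    have h3 := growth_sum hd hn
    rw [← hW] at h3
    have hg : 0 ≤ growth d n * (1 + Real.log n) := by
      have : 0 ≤ W ^ 2 := sq_nonneg W
      nlinarith only [h3]
    calc ∑ y, ‖sfn z μ lam V n x y‖ ^ 2 ≤ K * W ^ 2 := h1.trans h2
      _ ≤ K * (25 * growth d n * (1 + Real.log n)) := mul_le_mul_of_nonneg_left h3 (by linarith only [hK1, hε, hε1])
      _ = (25 * K) * (growth d n * (1 + Real.log n)) := by ring
      _ ≤ (25 * K + 2 * d * F) * (growth d n * (1 + Real.log n)) :=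
        mul_le_mul_of_nonneg_right (by linarith only [hdF]) hg
      _ = _ := by ring
  · intro p
    refine (norm_ft_le _ _).trans ?_
    rw [Finset.sum_congr rfl fun y _ => hSn y]
    linarith
  · have h1 : ∑ y, ‖Sfn z μ lam V n x y‖ ^ 2 ≤ 2 * ∑ y, ((T ^ n) x y) ^ 2 := by
      rw [Finset.mul_sum]
      refine Finset.sum_le_sum fun y _ => ?_
      rw [hSn, mul_pow]
      have h2 := hω1 y
      have h3 := hω2 y
      exact mul_le_mul_of_nonneg_right (by nlinarith only [hε, hε1, h2, h3]) (sq_nonneg _)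
    have h2 := (hpow n le_rfl).2.2
    have h3 : ((n : ℝ) + 1) ^ (-(d : ℝ) / 2) ≤ (1 / (n : ℝ)) ^ ((d : ℝ) / 2) := by
      have e : (1 / (n : ℝ)) ^ ((d : ℝ) / 2) = (n : ℝ) ^ (-(d : ℝ) / 2) := by
        rw [one_div, Real.inv_rpow (by linarith only [hε, hε1, hn']), ← Real.rpow_neg (by linarith only [hε, hε1, hn']), neg_div]
      rw [e]
      exact Real.rpow_le_rpow_of_nonpos (by linarith only [hε, hε1, hn']) (by linarith only [hε, hε1])
        (by have : (0 : ℝ) ≤ d := by linarith only [hd0, hε, hε1]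
            rw [neg_div]
            linarith only [hd0, hε, hε1])
    have h4 : (0 : ℝ) ≤ (1 / (n : ℝ)) ^ ((d : ℝ) / 2) := by positivity
    calc ∑ y, ‖Sfn z μ lam V n x y‖ ^ 2 ≤ 2 * (K * ((n : ℝ) + 1) ^ (-(d : ℝ) / 2)) := by linarith
      _ ≤ 2 * (K * (1 / (n : ℝ)) ^ ((d : ℝ) / 2)) :=
        mul_le_mul_of_nonneg_left (mul_le_mul_of_nonneg_left h3 (by linarith only [hK1, hε, hε1])) (by norm_num)
      _ = (2 * K) * (1 / (n : ℝ)) ^ ((d : ℝ) / 2) := by ring
      _ ≤ _ := mul_le_mul_of_nonneg_right (by linarith only [hK1, hdF, hε, hε1]) h4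
  · intro p
    have h1 : ft (Sfn z μ lam V n x) p - (starRingEnd ℂ) (ec p x) =
        (starRingEnd ℂ) (ec p x) *
          (∑ y, ((starRingEnd ℂ) (ec p (y - x)) - 1) * ((ω y * (T ^ n) x y : ℝ) : ℂ) +
            ((∑ y, ω y * (T ^ n) x y - 1 : ℝ) : ℂ)) := by
      have h2 : ft (Sfn z μ lam V n x) p =
          (starRingEnd ℂ) (ec p x) * ∑ y, (starRingEnd ℂ) (ec p (y - x)) *
            ((ω y * (T ^ n) x y : ℝ) : ℂ) := by
        unfold ft
        rw [Finset.mul_sum]
        refine Finset.sum_congr rfl fun y _ => ?_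
        have e : ec p y = ec p x * ec p (y - x) := by
          rw [← ec_add]
          congr 1
          abel
        rw [e, map_mul, hSfn, mul_assoc]
      rw [h2]
      have h3 : ∑ y, ((starRingEnd ℂ) (ec p (y - x)) - 1) * ((ω y * (T ^ n) x y : ℝ) : ℂ) =
          ∑ y, (starRingEnd ℂ) (ec p (y - x)) * ((ω y * (T ^ n) x y : ℝ) : ℂ) -
            ((∑ y, ω y * (T ^ n) x y : ℝ) : ℂ) := by
        rw [Complex.ofReal_sum, ← Finset.sum_sub_distrib]
        refine Finset.sum_congr rfl fun y _ => ?_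
        ring
      rw [h3]
      push_cast
      ring
    have hsq := Real.sqrt_nonneg (ds p)
    have h2 : ‖∑ y, ((starRingEnd ℂ) (ec p (y - x)) - 1) * ((ω y * (T ^ n) x y : ℝ) : ℂ)‖ ≤
        51 / 50 * (d * Real.sqrt (ds p) * (F * Real.sqrt (n * (1 + Real.log n)))) := by
      have h3 := hF M z μ ε lam V n x hz hμ hε hε1 hflat hlam hn1 hn2 hn
      rw [← hT] at h3
      have h4 : ∀ y, ‖((starRingEnd ℂ) (ec p (y - x)) - 1) * ((ω y * (T ^ n) x y : ℝ) : ℂ)‖ ≤
          51 / 50 * (d * Real.sqrt (ds p)) * ((T ^ n) x y * (tds x y : ℝ)) := by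
        intro y
        have h5 : (starRingEnd ℂ) (ec p (y - x)) - 1 = (starRingEnd ℂ) (ec p (y - x) - 1) := by
          rw [map_sub, map_one]
        have h6 := (hpow n le_rfl).1 y
        rw [norm_mul, h5, RCLike.norm_conj, Complex.norm_real,
          Real.norm_of_nonneg (mul_nonneg (hω0 y).le h6)]
        have h7 := norm_ec_sub p x y
        have h8 : ω y * (T ^ n) x y ≤ 51 / 50 * (T ^ n) x y :=
          mul_le_mul_of_nonneg_right (hω2 y) h6
        calc ‖ec p (y - x) - 1‖ * (ω y * (T ^ n) x y) ≤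
            (d * (tds x y : ℝ) * Real.sqrt (ds p)) * (51 / 50 * (T ^ n) x y) :=
              mul_le_mul h7 h8 (mul_nonneg (hω0 y).le h6) (by positivity)
          _ = _ := by ring
      refine (norm_sum_le _ _).trans ((Finset.sum_le_sum fun y _ => h4 y).trans ?_)
      rw [← Finset.mul_sum]
      calc 51 / 50 * (d * Real.sqrt (ds p)) * ∑ y, (T ^ n) x y * (tds x y : ℝ) ≤
          51 / 50 * (d * Real.sqrt (ds p)) * (F * Real.sqrt (n * (1 + Real.log n))) :=
            mul_le_mul_of_nonneg_left h3 (by positivity)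
        _ = _ := by ring
    have h3 : ‖((∑ y, ω y * (T ^ n) x y - 1 : ℝ) : ℂ)‖ ≤ ε + K * (n * (lam + 1 / μ)) := by
      rw [Complex.norm_real, Real.norm_eq_abs]
      have h4 := (hpow n le_rfl).2.1
      have h5 := hω x
      have h6 : ∑ y, ω y * (T ^ n) x y - 1 =
          (∑ y, (T ^ n) x y * ω y - ω x) + (ω x - 1) := by
        have : ∑ y, ω y * (T ^ n) x y = ∑ y, (T ^ n) x y * ω y :=
          Finset.sum_congr rfl fun y _ => mul_comm _ _
        rw [this]
        ring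
      rw [h6]
      refine (abs_add_le _ _).trans ?_
      have h7 : K * n * (lam + 1 / μ) = K * (n * (lam + 1 / μ)) := by ring
      linarith
    rw [h1, norm_mul, RCLike.norm_conj, norm_ec, one_mul]
    refine (norm_add_le _ _).trans ((add_le_add h2 h3).trans ?_)
    rw [Real.sqrt_mul (ds_nonneg p)]
    obtain ⟨Y, hY⟩ : ∃ Y, Y = Real.sqrt (ds p) * Real.sqrt (n * (1 + Real.log n)) := ⟨_, rfl⟩
    have hY0 : 0 ≤ Y := by rw [hY]; positivity
    obtain ⟨X, hX⟩ : ∃ X, X = (n : ℝ) * (lam + 1 / μ) := ⟨_, rfl⟩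
    have hX0 : 0 ≤ X := by rw [hX]; positivity
    rw [← hY, ← hX]
    have e : 51 / 50 * (d * Real.sqrt (ds p) * (F * Real.sqrt (n * (1 + Real.log n)))) =
        51 / 50 * (d * F) * Y := by rw [hY]; ring
    rw [e]
    have hdF' : 0 ≤ d * F := by positivity
    have t1 : 51 / 50 * (d * F) * Y ≤ (25 * K + 2 * d * F) * Y :=
      mul_le_mul_of_nonneg_right (by linarith only [hK1, hdF, hε, hε1]) hY0
    have t2 : ε ≤ (25 * K + 2 * d * F) * ε := by
      have : 1 * ε ≤ (25 * K + 2 * d * F) * ε := mul_le_mul_of_nonneg_right (by linarith only [hK1, hdF, hε, hε1]) hε.le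
      linarith only [this]
    have t3 : K * X ≤ (25 * K + 2 * d * F) * X := mul_le_mul_of_nonneg_right (by linarith only [hK1, hdF, hε, hε1]) hX0
    calc 51 / 50 * (d * F) * Y + (ε + K * X) ≤ (25 * K + 2 * d * F) * Y +
        ((25 * K + 2 * d * F) * ε + (25 * K + 2 * d * F) * X) := by linarith only [t1, t2, t3]
      _ = _ := by ring

end Pool.Agent.LE.IR.H6
end
end -- Pool.Agent.Helper6_LIR.SRC
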