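import Pool.Agent.Helper12_MEB.B064
import Pool.Agent.Helper12_MEB.B073

/-!
# Merged copies (generated) of the modules

* `Pool.Agent.Helper32_LSP.CR3`
-/

set_option autoImplicit false

section -- Pool.Agent.Helper32_LSP.CR3

/-!
# CR3: the criterion with clusters
-/

set_option autoImplicit false
set_option linter.unusedSectionVars false

open MeasureTheory ProbabilityTheory Function Filter

open scoped ENNReal BigOperators Topology

noncomputable section

namespace Pool.Agent.LE.CL.H32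

open Pool.Agent.Anderson hiding box mem_box card_box
open Pool.Agent.Loc Pool.Agent.Mob Pool.Agent.Helper54.Bal
  Pool.Agent.LE.H93C Pool.Agent.LE.H93W

variable {d : ℕ}

theorem sd_add_left (a k : Site d) : sd a (a + k) = sd 0 k := by
  unfold sd
  simp

/-- the face `k_i = -n` of the cube of radius `n` about `a` -/
def fac (a : Site d) (n : ℕ) (i : Fin d) : Finset (Site d) :=
  open Classical in
  ((box (0 : Site d) n).filter fun k => k i = -(n : ℤ)).image fun k => a + k

theorem fac_nonempty (a : Site d) (n : ℕ) (i : Fin d) : (fac a n i).Nonempty := by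
  classical
  unfold fac
  rw [Finset.image_nonempty]
  refine ⟨fun _ => -(n : ℤ), ?_⟩
  rw [Finset.mem_filter, mem_box, sd_le_iff]
  refine ⟨fun j => ?_, rfl⟩
  simp

theorem mem_fac {a : Site d} {n : ℕ} {i : Fin d} {k : Site d} (hk : k ∈ box (0 : Site d) n)
    (hi : k i = -(n : ℤ)) : a + k ∈ fac a n i := by
  classical
  unfold fac
  exact Finset.mem_image_of_mem _ (Finset.mem_filter.2 ⟨hk, hi⟩)

theorem exists_of_mem_fac {a z : Site d} {n : ℕ} {i : Fin d} (h : z ∈ fac a n i) :
    ∃ k ∈ box (0 : Site d) n, k i = -(n : ℤ) ∧ a + k = z := by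
  classical
  unfold fac at h
  obtain ⟨k, hk, e⟩ := Finset.mem_image.1 h
  rw [Finset.mem_filter] at hk
  exact ⟨k, hk.1, hk.2, e⟩

/-- along a chain of links -/
theorem chain_le {V : Site d → ℝ} {N : ℕ} {E s : ℝ} {S : Finset (Site d)} {b : Site d} {ρ : ℕ}
    (hs : 0 < s)
    (h : ∀ x ∈ box b ρ, ∀ y ∈ box b ρ, |FD V (box 0 N) E S x - FD V (box 0 N) E S y| ≤
      DL (box 0 N) E V x y + s) (j : ℕ) :
    ∀ y ∈ rch V (box 0 N) E s b ρ j,
      |FD V (box 0 N) E S y - FD V (box 0 N) E S b| ≤ 2 * s * j := by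
  induction j with
  | zero =>
    intro y hy
    rw [rch_zero, Finset.mem_singleton] at hy
    rw [hy, sub_self, abs_zero]
    simp
  | succ j ih =>
    intro y hy
    rw [rch_succ, mem_clu] at hy
    push_cast
    rcases hy with hy | ⟨hy, x, hx, hxy⟩
    · refine (ih y hy).trans ?_
      nlinarith
    · have h1 := ih x hx
      have h2 := h x (rch_subset_box j hx) y hy
      rw [abs_sub_comm] at h2
      have h3 : DL (box 0 N) E V x y ≤ s := by
        unfold DL
        have h4 : Real.log (Real.exp (-s)) ≤ Real.log |gr V (box 0 N) E x y| :=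
          Real.log_le_log (Real.exp_pos _) hxy
        rw [Real.log_exp] at h4
        linarith
      have h5 := abs_sub_le (FD V (box 0 N) E S y) (FD V (box 0 N) E S x)
        (FD V (box 0 N) E S b)
      linarith

/-- the bad event at the site `c` -/
def BadC (V : Site d → ℝ) (N ρ n J : ℕ) (E s : ℝ) (S : Fin d → Finset (Site d)) (c : Site d) :
    Prop :=
  (¬ n ≤ (rch V (box 0 N) E s c ρ J).card) ∨
  ∃ i : Fin d, ∃ x ∈ box c ρ, ∃ y ∈ box c ρ,
    ¬ |FD V (box 0 N) E (S i) x - FD V (box 0 N) E (S i) y| ≤ DL (box 0 N) E V x y + s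

theorem prob_BadC (trf : TrfStmt) {N ρ n J : ℕ} {σ E s q : ℝ} {S : Fin d → Finset (Site d)}
    {c : Site d} (hd : 1 ≤ d) (hσ : σ ≠ 0) (hq : 0 ≤ q)
    (hS : ∀ i, (S i).Nonempty) (hS' : ∀ i, S i ⊆ box 0 N)
    (hc : box c ρ ⊆ box 0 N)
    (hcond : PP d (gl σ) {V | ¬ n ≤ (rch V (box 0 N) E s c ρ J).card} ≤ ENNReal.ofReal q) :
    PP d (gl σ) {V | BadC V N ρ n J E s S c} ≤
      ENNReal.ofReal (q + d * (2 * ρ + 1) ^ (2 * d) * (16 / |σ| * Real.exp (-s))) := by
  classical
  have hσ0 : 0 < |σ| := abs_pos.2 hσ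
  have hsub : {V | BadC V N ρ n J E s S c} ⊆
      {V | ¬ n ≤ (rch V (box 0 N) E s c ρ J).card} ∪
      ⋃ i ∈ (Finset.univ : Finset (Fin d)), ⋃ x ∈ box c ρ, ⋃ y ∈ box c ρ,
        {V | ¬ |FD V (box 0 N) E (S i) x - FD V (box 0 N) E (S i) y| ≤
          DL (box 0 N) E V x y + s} := by
    rintro V (h | ⟨i, x, hx, y, hy, h⟩)
    · exact Or.inl h
    · right
      simp only [Set.mem_iUnion]
      exact ⟨i, Finset.mem_univ i, x, hx, y, hy, h⟩
  refine (measure_mono hsub).trans ((measure_union_le _ _).trans ?_)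
  have hpos : 0 ≤ 16 / |σ| * Real.exp (-s) := by positivity
  rw [ENNReal.ofReal_add hq (by positivity)]
  refine add_le_add hcond ?_
  calc PP d (gl σ) (⋃ i ∈ (Finset.univ : Finset (Fin d)), ⋃ x ∈ box c ρ, ⋃ y ∈ box c ρ,
        {V | ¬ |FD V (box 0 N) E (S i) x - FD V (box 0 N) E (S i) y| ≤
          DL (box 0 N) E V x y + s})
      ≤ ∑ i ∈ (Finset.univ : Finset (Fin d)), ∑ x ∈ box c ρ, ∑ y ∈ box c ρ,
          ENNReal.ofReal (16 / |σ| * Real.exp (-s)) := by
        refine (measure_biUnion_finset_le _ _).trans (Finset.sum_le_sum fun i _ => ?_)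
        refine (measure_biUnion_finset_le _ _).trans (Finset.sum_le_sum fun x hx => ?_)
        refine (measure_biUnion_finset_le _ _).trans (Finset.sum_le_sum fun y hy => ?_)
        exact trf d N σ E s (S i) x y hd hσ (hS i) (hS' i) (hc hx) (hc hy)
    _ = ENNReal.ofReal (d * (2 * ρ + 1) ^ (2 * d) * (16 / |σ| * Real.exp (-s))) := by
        rw [Finset.sum_const, Finset.sum_const, Finset.sum_const, card_box, Finset.card_univ,
          Fintype.card_fin, nsmul_eq_mul, nsmul_eq_mul, nsmul_eq_mul, ← ENNReal.ofReal_natCast,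
          ← ENNReal.ofReal_natCast, ← ENNReal.ofReal_mul (by positivity),
          ← ENNReal.ofReal_mul (by positivity), ← ENNReal.ofReal_mul (by positivity)]
        congr 1
        rw [two_mul d, pow_add]
        push_cast
        ring

/-- CR3 -/
theorem cr3 (cn3 : Cn3Stmt) (trf : TrfStmt) (reg : RegStmt) : Cr3Stmt := by
  classical
  intro d ρ n J σ E κ s q y hd hσ hn hJ hs hκ hq hy hnum hosc hcond
  have hσ0 : 0 < |σ| := abs_pos.2 hσ
  set B : ℝ := |E| + |σ| + 1 / |σ| with hB
  have hB0 : 0 < B := by positivity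
  have hpar : Par B σ E := by
    refine ⟨?_, ?_, ?_⟩
    · rw [hB]
      have : 0 < 1 / |σ| := by positivity
      linarith only [hσ0, this]
    · rw [hB]
      have : 0 < 1 / |σ| := by positivity
      have := abs_nonneg E
      linarith
    · have h1 : 1 / |σ| * |σ| = 1 := by field_simp
      have h2 : 0 ≤ (|E| + |σ|) * |σ| := by positivity
      rw [hB]
      nlinarith only [h1, h2]
  have hJ0 : (0 : ℝ) < J := by exact_mod_cast (by omega : 0 < J)
  have hsJ : 0 < s * J := by positivity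
  obtain ⟨SS, hSS⟩ : ∃ SS : ℝ, SS = 2 * s * J := ⟨_, rfl⟩
  have hSS0 : 0 < SS := by rw [hSS]; positivity
  obtain ⟨L₁, hreg⟩ := reg d 4 B (κ / 4) (1 / 8) hd hB0 (by positivity) (by norm_num)
  obtain ⟨n₁, hn₁⟩ := exists_nat_ge (150 * (s * J) / κ)
  refine ⟨max L₁ (max (2 * ρ + 2) (n₁ + 1)), ?_⟩
  intro L N a hL0 hbox hins
  have hL1 : L₁ ≤ L := (le_max_left _ _).trans hL0
  have hL2 : 2 * ρ + 2 ≤ L := (le_max_left _ _).trans ((le_max_right _ _).trans hL0)
  have hL3 : n₁ + 1 ≤ L := (le_max_right _ _).trans ((le_max_right _ _).trans hL0)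
  obtain ⟨m, hm⟩ : ∃ m, m = ⌊3 * κ * L / (64 * SS)⌋₊ := ⟨_, rfl⟩
  have hn0 : (0 : ℝ) < n := by exact_mod_cast (by omega : 0 < n)
  obtain ⟨pt, hpt⟩ : ∃ pt, pt = q + d * (2 * ρ + 1) ^ (2 * d) *
    (16 / |σ| * Real.exp (-s)) := ⟨_, rfl⟩
  have hpt0 : 0 < pt := by rw [hpt]; positivity
  obtain ⟨S, hSdef⟩ : ∃ S : Fin d → Finset (Site d), S = fun i => fac a L i := ⟨_, rfl⟩
  have hSn : ∀ i, (S i).Nonempty := fun i => by rw [hSdef]; exact fac_nonempty a L i
  have hkL : ∀ k ∈ box (0 : Site d) L, sd a (a + k) ≤ L := fun k hk => by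
    rw [sd_add_left]
    exact mem_box.1 hk
  have hSN : ∀ i, S i ⊆ box 0 N := by
    intro i z hz
    rw [hSdef] at hz
    obtain ⟨k, hk, -, rfl⟩ := exists_of_mem_fac hz
    apply hbox
    rw [mem_box]
    have := hkL k hk
    omega
  have hd0 : (0 : ℝ) < d := by exact_mod_cast (by omega : 0 < d)
  -- the events
  set A1 : Set (Site d → ℝ) := {V | ¬ RegE V N (3 * L) L a E (κ / 4 * L)} with hA1
  set A2 : Set (Site d → ℝ) := {V | ¬ ∀ x ∈ box a (2 * L), ∀ y ∈ box a (2 * L), L + 1 ≤ sd x y →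
    κ * L ≤ DL (box 0 N) E V x y} with hA2
  obtain ⟨Bk, hBk⟩ : ∃ Bk : Site d → Set (Site d → ℝ), Bk = fun k =>
    toMeasurable (PP d (gl σ)) {V | BadC V N ρ n J E s S (a + k)} := ⟨_, rfl⟩
  set T3 : ℝ := 4 * pt * (2 * L + 1) ^ d with hT3
  set A3 : Set (Site d → ℝ) := {V | ENNReal.ofReal T3 ≤ ∑ k ∈ box (0 : Site d) L,
    Set.indicator (Bk k) 1 V} with hA3
  set T4 : ℝ := 4 * (2 * L + 1) ^ d * (d * (y * SS ^ d)) with hT4
  obtain ⟨Q, hQ⟩ : ∃ Q : Site d → Fin d → (Site d → ℝ) → ℝ≥0∞, Q = fun k i =>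
    Set.indicator {V | ENNReal.ofReal SS < osc V N E (S i) (a + k) 1}
      (fun V => (osc V N E (S i) (a + k) 1) ^ d) := ⟨_, rfl⟩
  set A4 : Set (Site d → ℝ) := {V | ENNReal.ofReal T4 ≤ ∑ k ∈ box (0 : Site d) L,
    ∑ i : Fin d, Q k i V} with hA4
  have hL1' : 1 ≤ L := by omega
  have hLR : (1 : ℝ) ≤ L := by exact_mod_cast hL1'
  have hW1 : box a (3 * L + 1) ⊆ box 0 N := (box_mono a (by omega)).trans hbox
  have p1 : PP d (gl σ) A1 ≤ ENNReal.ofReal (1 / 8) :=
    hreg σ E N (3 * L) L a hpar hL1 (by omega) hW1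
  have p2 : PP d (gl σ) A2 ≤ ENNReal.ofReal (1 / 4) := hins
  have hT3pos : 0 < T3 := by positivity
  have hT4pos : 0 < T4 := by positivity
  have p3 : PP d (gl σ) A3 ≤ ENNReal.ofReal (1 / 4) := by
    refine markov_sum (c := ENNReal.ofReal pt) (box (0 : Site d) L) (fun k _ => ?_)
      (fun k hk => ?_) ?_ ENNReal.ofReal_ne_top ?_
    · rw [hBk]
      exact measurable_one.indicator (measurableSet_toMeasurable _ _)
    · rw [hBk, lintegral_indicator_one (measurableSet_toMeasurable _ _), measure_toMeasurable, hpt]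
      have hsub : box (a + k) ρ ⊆ box 0 N := by
        refine Finset.Subset.trans (fun z hz => ?_) hbox
        rw [mem_box] at hz ⊢
        have h1 := hkL k hk
        have h2 := sd_triangle a (a + k) z
        omega
      exact prob_BadC trf hd hσ hq.le hSn hSN hsub (hcond N _ hsub)
    · rw [Ne, ENNReal.ofReal_eq_zero, not_le]
      exact hT3pos
    · rw [card_box, ← ENNReal.ofReal_natCast, ← ENNReal.ofReal_mul (by positivity)]
      have e : (4 : ℝ≥0∞) = ENNReal.ofReal 4 := by simp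
      rw [e, ← ENNReal.ofReal_mul (by norm_num)]
      apply ENNReal.ofReal_le_ofReal
      rw [hT3]
      push_cast
      nlinarith only
  have hms : ∀ (k : Site d) (i : Fin d),
      MeasurableSet {V : Site d → ℝ | ENNReal.ofReal SS < osc V N E (S i) (a + k) 1} :=
    fun k i => measurableSet_lt measurable_const (measurable_osc N E (S i) (a + k) 1)
  have hmq : ∀ k i, Measurable (Q k i) := fun k i => by
    rw [hQ]
    exact ((measurable_osc N E (S i) (a + k) 1).pow_const d).indicator (hms k i)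
  have hmo : ∀ k, Measurable fun V : Site d → ℝ => ∑ i : Fin d, Q k i V := fun k =>
    Finset.measurable_sum _ fun i _ => hmq k i
  have p4 : PP d (gl σ) A4 ≤ ENNReal.ofReal (1 / 4) := by
    refine markov_sum (c := ENNReal.ofReal (d * (y * SS ^ d))) (box (0 : Site d) L)
      (fun k _ => hmo k) (fun k hk => ?_) ?_ ENNReal.ofReal_ne_top ?_
    · have hsub : box (a + k) 1 ⊆ box 0 N := by
        refine Finset.Subset.trans (fun z hz => ?_) hbox
        rw [mem_box] at hz ⊢
        have h1 := hkL k hk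
        have h2 := sd_triangle a (a + k) z
        omega
      rw [lintegral_finsetSum _ (fun i _ => hmq k i)]
      have h1 : ∀ i : Fin d, ∫⁻ V, Q k i V ∂(PP d (gl σ)) ≤ ENNReal.ofReal (y * SS ^ d) := by
        intro i
        rw [hQ]
        simp only
        rw [lintegral_indicator (hms k i), hSS]
        exact hosc N (S i) (a + k) (hSn i) (hSN i) hsub
      refine (Finset.sum_le_sum fun i _ => h1 i).trans (le_of_eq ?_)
      rw [Finset.sum_const, Finset.card_univ, Fintype.card_fin, nsmul_eq_mul,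
        ← ENNReal.ofReal_natCast, ← ENNReal.ofReal_mul (by positivity)]
    · rw [Ne, ENNReal.ofReal_eq_zero, not_le]
      exact hT4pos
    · rw [card_box, ← ENNReal.ofReal_natCast, ← ENNReal.ofReal_mul (by positivity)]
      have e : (4 : ℝ≥0∞) = ENNReal.ofReal 4 := by simp
      rw [e, ← ENNReal.ofReal_mul (by norm_num)]
      apply ENNReal.ofReal_le_ofReal
      rw [hT4]
      push_cast
      linarith only
  obtain ⟨V, hV⟩ : ∃ V, V ∉ (A1 ∪ A2) ∪ (A3 ∪ A4) := by
    by_contra hcon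
    push Not at hcon
    have h1 : (A1 ∪ A2) ∪ (A3 ∪ A4) = Set.univ := Set.eq_univ_of_forall hcon
    have h2 : PP d (gl σ) ((A1 ∪ A2) ∪ (A3 ∪ A4)) ≤ ENNReal.ofReal (7 / 8) := by
      calc PP d (gl σ) ((A1 ∪ A2) ∪ (A3 ∪ A4))
          ≤ (PP d (gl σ) A1 + PP d (gl σ) A2) + (PP d (gl σ) A3 + PP d (gl σ) A4) :=
            (measure_union_le _ _).trans (add_le_add (measure_union_le _ _)
              (measure_union_le _ _))
        _ ≤ (ENNReal.ofReal (1 / 8) + ENNReal.ofReal (1 / 4)) +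
            (ENNReal.ofReal (1 / 4) + ENNReal.ofReal (1 / 4)) :=
            add_le_add (add_le_add p1 p2) (add_le_add p3 p4)
        _ = _ := by
            rw [← ENNReal.ofReal_add (by norm_num) (by norm_num),
              ← ENNReal.ofReal_add (by norm_num) (by norm_num),
              ← ENNReal.ofReal_add (by norm_num) (by norm_num)]
            norm_num
    rw [h1, measure_univ] at h2
    have h3 : ENNReal.ofReal (7 / 8) < 1 := by
      rw [ENNReal.ofReal_lt_one]
      norm_num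
    exact absurd h2 (not_le.2 h3)
  simp only [Set.mem_union, not_or] at hV
  obtain ⟨⟨hV1, hV2⟩, hV3, hV4⟩ := hV
  rw [hA1, Set.mem_ofPred_eq, not_not] at hV1
  rw [hA2, Set.mem_ofPred_eq, not_not] at hV2
  rw [hA3, Set.mem_ofPred_eq, not_le] at hV3
  rw [hA4, Set.mem_ofPred_eq, not_le] at hV4
  obtain ⟨r1, r2, r3, r4, r5⟩ := hV1
  set G : Finset (Site d) := (box (0 : Site d) L).filter fun k => V ∉ Bk k with hG
  obtain ⟨O, hO⟩ : ∃ O : Site d → Fin d → ℝ, O = fun k i =>
    (osc V N E (S i) (a + k) 1).toReal := ⟨_, rfl⟩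
  have hO0 : ∀ k i, 0 ≤ O k i := fun k i => by rw [hO]; exact ENNReal.toReal_nonneg
  have : Nonempty (Fin d) := ⟨⟨0, by omega⟩⟩
  obtain ⟨c, hc⟩ : ∃ c : Site d → ℝ, c = fun k =>
    (Finset.univ.sup' Finset.univ_nonempty (O k)) / SS := ⟨_, rfl⟩
  have hc0 : ∀ k, 0 ≤ c k := fun k => by
    rw [hc]
    refine div_nonneg ?_ hSS0.le
    exact (hO0 k _).trans (Finset.le_sup' (O k) (Finset.mem_univ ⟨0, by omega⟩))
  -- the two counts
  have hcardG : (((box (0 : Site d) L) \ G).card : ℝ) ≤ T3 := by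
    have h1 : (box (0 : Site d) L) \ G = (box (0 : Site d) L).filter fun k => V ∈ Bk k := by
      ext k
      rw [hG, Finset.mem_sdiff, Finset.mem_filter, Finset.mem_filter]
      tauto
    have h2 := indicator_sum_card (box (0 : Site d) L) Bk V
    rw [h2] at hV3
    have h3 := hV3.le
    rw [← ENNReal.ofReal_natCast] at h3
    rw [h1]
    exact (ENNReal.ofReal_le_ofReal_iff hT3pos.le).1 h3
  have hsum : ∑ k ∈ (box (0 : Site d) L).filter (fun k => 1 < c k), c k ^ d ≤
      4 * (2 * L + 1) ^ d * (d * y) := by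
    have hne : ∀ k i, Q k i V ≠ ∞ := fun k i => by
      rw [hQ]
      simp only
      by_cases h : V ∈ {V | ENNReal.ofReal SS < osc V N E (S i) (a + k) 1}
      · rw [Set.indicator_of_mem h]
        exact ENNReal.pow_ne_top (osc_ne_top V N E _ _ 1)
      · rw [Set.indicator_of_notMem h]
        exact ENNReal.zero_ne_top
    have h1 : ∑ k ∈ box (0 : Site d) L, ∑ i : Fin d, (Q k i V).toReal ≤ T4 := by
      have h2 := ENNReal.toReal_mono ENNReal.ofReal_ne_top hV4.le
      rw [ENNReal.toReal_ofReal hT4pos.le, ENNReal.toReal_sum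
        (fun k _ => ENNReal.sum_ne_top.2 fun i _ => hne k i)] at h2
      refine le_trans (le_of_eq ?_) h2
      refine Finset.sum_congr rfl fun k _ => ?_
      rw [ENNReal.toReal_sum (fun i _ => hne k i)]
    have hQ0 : ∀ k i, 0 ≤ (Q k i V).toReal := fun k i => ENNReal.toReal_nonneg
    have h2 : ∀ k ∈ (box (0 : Site d) L).filter (fun k => 1 < c k),
        c k ^ d ≤ (∑ i : Fin d, (Q k i V).toReal) * (1 / SS) ^ d := by
      intro k hk
      have hk2 := (Finset.mem_filter.1 hk).2
      obtain ⟨i, -, hi⟩ := Finset.exists_mem_eq_sup' (Finset.univ_nonempty (α := Fin d)) (O k)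
      have e : c k = O k i * (1 / SS) := by
        rw [hc]
        simp only
        rw [hi]
        ring
      have h3 : SS < O k i := by
        rw [e, mul_one_div, lt_div_iff₀ hSS0, one_mul] at hk2
        exact hk2
      have h4 : (Q k i V).toReal = O k i ^ d := by
        rw [hO] at h3 ⊢
        rw [hQ]
        simp only at h3 ⊢
        have h5 : V ∈ {V | ENNReal.ofReal SS < osc V N E (S i) (a + k) 1} :=
          (ENNReal.ofReal_lt_iff_lt_toReal hSS0.le (osc_ne_top V N E _ _ 1)).2 h3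
        rw [Set.indicator_of_mem h5, ENNReal.toReal_pow]
      rw [e, mul_pow, ← h4]
      refine mul_le_mul_of_nonneg_right ?_ (by positivity)
      exact Finset.single_le_sum (f := fun i => (Q k i V).toReal)
        (fun j _ => hQ0 k j) (Finset.mem_univ i)
    calc ∑ k ∈ (box (0 : Site d) L).filter (fun k => 1 < c k), c k ^ d
        ≤ ∑ k ∈ (box (0 : Site d) L).filter (fun k => 1 < c k),
            (∑ i : Fin d, (Q k i V).toReal) * (1 / SS) ^ d := Finset.sum_le_sum h2
      _ ≤ ∑ k ∈ box (0 : Site d) L, (∑ i : Fin d, (Q k i V).toReal) * (1 / SS) ^ d := by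
          refine Finset.sum_le_sum_of_subset_of_nonneg (Finset.filter_subset _ _)
            fun k _ _ => ?_
          exact mul_nonneg (Finset.sum_nonneg fun i _ => hQ0 k i) (by positivity)
      _ = (∑ k ∈ box (0 : Site d) L, ∑ i : Fin d, (Q k i V).toReal) * (1 / SS) ^ d := by
          rw [Finset.sum_mul]
      _ ≤ T4 * (1 / SS) ^ d := mul_le_mul_of_nonneg_right h1 (by positivity)
      _ = 4 * (2 * (L : ℝ) + 1) ^ d * (d * y) * (SS ^ d * (1 / SS) ^ d) := by
          rw [hT4]
          ring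
      _ = _ := by
          have e : SS ^ d * (1 / SS) ^ d = 1 := by
            rw [← mul_pow, mul_one_div_cancel hSS0.ne', one_pow]
          rw [e, mul_one]
  -- the counting lemma
  have key := cn3 d (fun x i => FD V (box 0 N) E (S i) x) a L ρ n m (κ / 4 * L) (κ * L) SS c G
    hd hL1' hn hSS0 ?_ ?_ ?_ hc0 ?_ ?_
  · -- the contradiction
    have h1 : T3 ≤ 4 * pt * 3 ^ d * (L : ℝ) ^ d := by
      rw [hT3, mul_assoc (4 * pt), ← mul_pow]
      have : (2 * (L : ℝ) + 1) ^ d ≤ (3 * L) ^ d := pow_le_pow_left₀ (by positivity) (by linarith only [hLR]) d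
      exact mul_le_mul_of_nonneg_left this (by positivity)
    have h2 : (2 * (L : ℝ) + 1) ^ d ≤ 3 ^ d * (L : ℝ) ^ d := by
      rw [← mul_pow]
      exact pow_le_pow_left₀ (by positivity) (by linarith only [hLR]) d
    have hρL : 2 * ((L : ℝ) + ρ) + 1 ≤ 3 * L := by
      have : 2 * (L + ρ) + 1 ≤ 3 * L := by omega
      exact_mod_cast this
    have h2' : (2 * ((L : ℝ) + ρ) + 1) ^ d ≤ 3 ^ d * (L : ℝ) ^ d := by
      rw [← mul_pow]
      exact pow_le_pow_left₀ (by positivity) hρL d
    have h3 : (κ / (60 * (s * J))) * L ≤ m := by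
      have h4 : 3 * κ * L / (64 * SS) < m + 1 := by rw [hm]; exact Nat.lt_floor_add_one _
      have h5 : 3 * κ * L / (64 * SS) = 3 / 128 * (κ / (s * J) * L) := by
        rw [hSS]
        field_simp
        ring
      have h6 : κ / (60 * (s * J)) * L = 1 / 60 * (κ / (s * J) * L) := by
        field_simp
      have h8 : 150 ≤ κ / (s * J) * L := by
        rw [div_mul_eq_mul_div, le_div_iff₀ hsJ]
        rw [div_le_iff₀ hκ] at hn₁
        have h9 : (n₁ : ℝ) + 1 ≤ L := by exact_mod_cast hL3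
        nlinarith only [hκ, hn₁, h9]
      rw [h5] at h4
      rw [h6]
      linarith only [h4, h8]
    have h4 : (κ / (60 * (s * J))) ^ d * (L : ℝ) ^ d ≤ (m : ℝ) ^ d := by
      rw [← mul_pow]
      exact pow_le_pow_left₀ (by positivity) h3 d
    have hX0 : (0 : ℝ) < (L : ℝ) ^ d := by positivity
    have h5 : 4 * (2 * (L : ℝ) + 1) ^ d * (d * y) ≤
        (4 * 3 ^ d * (d * y)) * (L : ℝ) ^ d := by
      calc 4 * (2 * (L : ℝ) + 1) ^ d * (d * y) = (4 * (d * y)) * (2 * (L : ℝ) + 1) ^ d := by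
            ring
        _ ≤ (4 * (d * y)) * (3 ^ d * (L : ℝ) ^ d) :=
            mul_le_mul_of_nonneg_left h2 (by positivity)
        _ = _ := by ring
    have h6 : (m : ℝ) ^ d ≤ 4 * pt * 3 ^ d * (L : ℝ) ^ d + (2 * (3 ^ d * (L : ℝ) ^ d)) / n +
        2 ^ d * ((4 * 3 ^ d * (d * y)) * (L : ℝ) ^ d) := by
      refine key.trans (add_le_add (add_le_add (hcardG.trans h1) ?_) ?_)
      · have h7 : (0 : ℝ) ≤ 3 ^ d * (L : ℝ) ^ d := by positivity
        gcongr
        linarith only [h2', h7]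
      · exact mul_le_mul_of_nonneg_left (hsum.trans h5) (by positivity)
    have h7 : 4 * pt * 3 ^ d * (L : ℝ) ^ d + (2 * (3 ^ d * (L : ℝ) ^ d)) / n +
        2 ^ d * ((4 * 3 ^ d * (d * y)) * (L : ℝ) ^ d) =
        (4 * 3 ^ d * pt + 2 * 3 ^ d / n + 2 ^ d * (4 * 3 ^ d * (d * y))) * (L : ℝ) ^ d := by
      ring
    rw [h7] at h6
    rw [← hpt] at hnum
    have h8 := mul_lt_mul_of_pos_right hnum hX0
    linarith only [h4, h6, h8]
  · -- t + 16 SS m ≤ κ L
    have h1 : (m : ℝ) ≤ 3 * κ * L / (64 * SS) := by rw [hm]; exact Nat.floor_le (by positivity)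
    rw [le_div_iff₀ (by positivity)] at h1
    linarith only [h1]
  · intro k hk i hi
    have hmem : a + k ∈ box a (3 * L) := by
      rw [mem_box]
      have := hkL k hk
      omega
    refine (FD_le (z := a + k) ?_ (r2 _ hmem _ hmem).1).trans (r4 _ hmem)
    rw [hSdef]
    exact mem_fac hk hi
  · intro k hk i hi
    refine le_FD (hSn i) fun z hz => ?_
    rw [hSdef] at hz
    obtain ⟨k', hk', hi', rfl⟩ := exists_of_mem_fac hz
    refine hV2 _ ?_ _ ?_ ?_
    · rw [mem_box]
      have := hkL k' hk'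
      omega
    · rw [mem_box]
      have := hkL k hk
      omega
    · have h1 := abs_le_sd (a + k') (a + k) i
      rw [Pi.add_apply, Pi.add_apply, hi, hi'] at h1
      have h2 : a i + -(L : ℤ) - (a i + (L : ℤ)) = -(2 * (L : ℤ)) := by ring
      rw [h2, abs_neg, abs_of_nonneg (by positivity)] at h1
      have h3 : 2 * L ≤ sd (a + k') (a + k) := by exact_mod_cast h1
      omega
  · intro k hk x hx i
    refine (le_osc V N E (S i) hx).trans ?_
    have h1 : O k i ≤ Finset.univ.sup' Finset.univ_nonempty (O k) :=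
      Finset.le_sup' (O k) (Finset.mem_univ i)
    rw [hc]
    simp only
    rw [div_mul_cancel₀ _ hSS0.ne']
    rw [hO] at h1 ⊢
    exact h1
  · intro k hk
    rw [hG, Finset.mem_filter] at hk
    have hgood : ¬ BadC V N ρ n J E s S (a + k) := fun hbad => hk.2 (by
      rw [hBk]
      exact subset_toMeasurable _ _ hbad)
    unfold BadC at hgood
    push Not at hgood
    obtain ⟨g1, g2⟩ := hgood
    refine ⟨rch V (box 0 N) E s (a + k) ρ J, g1, rch_subset_box J, fun z hz i => ?_⟩
    rw [hSS]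
    exact chain_le hs (fun x hx y hy => g2 i x hx y hy) J z hz

end Pool.Agent.LE.CL.H32
end
end -- Pool.Agent.Helper32_LSP.CR3
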