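import Pool.Agent.Helper12_MEB.B072

/-!
# Merged copies (generated) of the modules

* `Pool.Agent.Helper28_LSP.VDC`
* `Pool.Agent.Helper28_LSP.MTA`
* `Pool.Agent.Helper28_LSP.MTB`
* `Pool.Agent.Helper28_LSP.HHL`
* `Pool.Agent.Helper28_LSP.HHM`
* `Pool.Agent.Helper28_LSP.HHN`
* `Pool.Agent.Helper28_LSP.KRN`
* `Pool.Agent.Helper28_LSP.KRO`
* `Pool.Agent.Helper28_LSP.PTS`
* `Pool.Agent.Helper28_LSP.KRB`
* `Pool.Agent.Helper53_LIR.K1`
* `Pool.Agent.Helper53_LIR.K2`
* `Pool.Agent.Helper53_LIR.K3`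
* `Pool.Agent.Helper53_LIR.K4`
-/

set_option autoImplicit false

section -- Pool.Agent.Helper28_LSP.VDC

/-!
# Van der Corput's lemma with an amplitude
-/

set_option autoImplicit false

open MeasureTheory Set Complex

noncomputable section

namespace Pool.Agent.LE.H28V

/-- the first derivative test -/
theorem vdc1 {F F1 F2 : ℝ → ℝ} {a b lam : ℝ} (hab : a ≤ b)
    (hF : ∀ x ∈ Icc a b, HasDerivAt F (F1 x) x) (hF1 : ∀ x ∈ Icc a b, HasDerivAt F1 (F2 x) x)
    (hF2 : ContinuousOn F2 (Icc a b)) (hs : ∀ x ∈ Icc a b, 0 ≤ F2 x) (hlam : 0 < lam)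
    (h1 : ∀ x ∈ Icc a b, lam ≤ |F1 x|) :
    ‖∫ x in a..b, cexp (I * F x)‖ ≤ 4 / lam := by
  have huI : uIcc a b = Icc a b := uIcc_of_le hab
  have hne : ∀ x ∈ Icc a b, F1 x ≠ 0 := by
    intro x hx h0
    have := h1 x hx
    rw [h0, abs_zero] at this
    exact absurd this (not_le.2 hlam)
  have hneC : ∀ x ∈ Icc a b, (F1 x : ℂ) ≠ 0 := fun x hx => by exact_mod_cast hne x hx
  have hcF : ContinuousOn F (Icc a b) := fun x hx => (hF x hx).continuousAt.continuousWithinAt
  have hcF1 : ContinuousOn F1 (Icc a b) := fun x hx =>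
    (hF1 x hx).continuousAt.continuousWithinAt
  set u : ℝ → ℂ := fun x => -I * (F1 x : ℂ)⁻¹ with hu
  set u' : ℝ → ℂ := fun x => -I * (-(F2 x : ℂ) / (F1 x : ℂ) ^ 2) with hu'
  set v : ℝ → ℂ := fun x => cexp (I * F x) with hv
  set v' : ℝ → ℂ := fun x => cexp (I * F x) * (I * F1 x) with hv'
  have hdu : ∀ x ∈ uIcc a b, HasDerivAt u (u' x) x := by
    intro x hx
    rw [huI] at hx
    exact ((hF1 x hx).ofReal_comp.fun_inv (hneC x hx)).const_mul _
  have hdv : ∀ x ∈ uIcc a b, HasDerivAt v (v' x) x := by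
    intro x hx
    rw [huI] at hx
    exact ((hF x hx).ofReal_comp.const_mul I).cexp
  have hcv : ContinuousOn v (Icc a b) := by
    have := Complex.continuous_exp.comp_continuousOn
      (continuousOn_const.mul (Complex.continuous_ofReal.comp_continuousOn hcF) :
        ContinuousOn (fun x => I * (F x : ℂ)) (Icc a b))
    exact this
  have hcu' : ContinuousOn u' (Icc a b) := by
    refine continuousOn_const.mul ((Complex.continuous_ofReal.comp_continuousOn hF2).neg.div
      ((Complex.continuous_ofReal.comp_continuousOn hcF1).pow 2) ?_)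
    intro x hx
    exact pow_ne_zero 2 (hneC x hx)
  have hcv' : ContinuousOn v' (Icc a b) :=
    hcv.mul (continuousOn_const.mul (Complex.continuous_ofReal.comp_continuousOn hcF1))
  have key := intervalIntegral.integral_mul_deriv_eq_deriv_mul hdu hdv
    (ContinuousOn.intervalIntegrable (huI ▸ hcu')) (ContinuousOn.intervalIntegrable (huI ▸ hcv'))
  have e1 : ∫ x in a..b, u x * v' x = ∫ x in a..b, v x := by
    refine intervalIntegral.integral_congr fun x hx => ?_
    rw [huI] at hx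
    have := hneC x hx
    simp only [hu, hv', hv]
    field_simp
    ring_nf
    rw [I_sq]
    ring
  rw [e1] at key
  change ‖∫ x in a..b, v x‖ ≤ _
  rw [key]
  have hnv : ∀ x, ‖v x‖ = 1 := by
    intro x
    simp only [hv]
    rw [mul_comm, Complex.norm_exp_ofReal_mul_I]
  have hnu : ∀ x ∈ Icc a b, ‖u x‖ ≤ 1 / lam := by
    intro x hx
    simp only [hu]
    rw [norm_mul, norm_neg, norm_I, one_mul, norm_inv, Complex.norm_real, Real.norm_eq_abs,
      ← one_div]
    exact one_div_le_one_div_of_le hlam (h1 x hx)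
  have hcg : ContinuousOn (fun x => F2 x / F1 x ^ 2) (Icc a b) :=
    hF2.div (hcF1.pow 2) fun x hx => pow_ne_zero 2 (hne x hx)
  have e2 : ∫ x in a..b, F2 x / F1 x ^ 2 = -(F1 b)⁻¹ - -(F1 a)⁻¹ := by
    refine intervalIntegral.integral_eq_sub_of_hasDerivAt (f := fun x => -(F1 x)⁻¹) ?_
      (ContinuousOn.intervalIntegrable (huI ▸ hcg))
    intro x hx
    rw [huI] at hx
    have := ((hF1 x hx).fun_inv (hne x hx)).fun_neg
    have e : -(-F2 x / F1 x ^ 2) = F2 x / F1 x ^ 2 := by ring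
    rwa [e] at this
  have h3 : ‖∫ x in a..b, u' x * v x‖ ≤ 2 / lam := by
    refine (intervalIntegral.norm_integral_le_integral_norm hab).trans ?_
    have e3 : ∫ x in a..b, ‖u' x * v x‖ = ∫ x in a..b, F2 x / F1 x ^ 2 := by
      refine intervalIntegral.integral_congr fun x hx => ?_
      rw [huI] at hx
      rw [norm_mul, hnv, mul_one]
      simp only [hu']
      rw [norm_mul, norm_neg, norm_I, one_mul, norm_div, norm_neg, norm_pow, Complex.norm_real,
        Complex.norm_real, Real.norm_eq_abs, Real.norm_eq_abs, abs_of_nonneg (hs x hx), sq_abs]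
    rw [e3, e2]
    have ha := abs_le.1 (show |(F1 a)⁻¹| ≤ 1 / lam by
      rw [abs_inv, ← one_div]
      exact one_div_le_one_div_of_le hlam (h1 a (left_mem_Icc.2 hab)))
    have hb := abs_le.1 (show |(F1 b)⁻¹| ≤ 1 / lam by
      rw [abs_inv, ← one_div]
      exact one_div_le_one_div_of_le hlam (h1 b (right_mem_Icc.2 hab)))
    have e4 : 2 / lam = 1 / lam + 1 / lam := by ring
    rw [e4]
    linarith only [ha, hb]
  calc ‖u b * v b - u a * v a - ∫ x in a..b, u' x * v x‖
      ≤ ‖u b * v b‖ + ‖u a * v a‖ + ‖∫ x in a..b, u' x * v x‖ :=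
        (norm_sub_le _ _).trans (add_le_add (norm_sub_le _ _) le_rfl)
    _ ≤ 1 / lam + 1 / lam + 2 / lam := by
        rw [norm_mul (u b), norm_mul (u a), hnv, hnv, mul_one, mul_one]
        exact add_le_add (add_le_add (hnu b (right_mem_Icc.2 hab)) (hnu a (left_mem_Icc.2 hab))) h3
    _ = 4 / lam := by ring

/-- the integral of a bounded function over a short interval -/
theorem norm_int_le {F : ℝ → ℝ} {a b : ℝ} (hab : a ≤ b) :
    ‖∫ x in a..b, cexp (I * F x)‖ ≤ b - a := by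
  have := intervalIntegral.norm_integral_le_of_norm_le_const (a := a) (b := b) (C := 1)
    (f := fun x => cexp (I * F x)) (fun x _ => by
      rw [mul_comm, Complex.norm_exp_ofReal_mul_I])
  rw [one_mul, abs_of_nonneg (sub_nonneg.2 hab)] at this
  exact this

/-- the second derivative test -/
theorem vdc2 {F F1 F2 : ℝ → ℝ} {a b mu : ℝ} (hab : a ≤ b)
    (hF : ∀ x ∈ Icc a b, HasDerivAt F (F1 x) x) (hF1 : ∀ x ∈ Icc a b, HasDerivAt F1 (F2 x) x)
    (hF2 : ContinuousOn F2 (Icc a b)) (hmu : 0 < mu) (hs : ∀ x ∈ Icc a b, mu ≤ F2 x) :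
    ‖∫ x in a..b, cexp (I * F x)‖ ≤ 8 / Real.sqrt mu := by
  have hcF : ContinuousOn F (Icc a b) := fun x hx => (hF x hx).continuousAt.continuousWithinAt
  have hcF1 : ContinuousOn F1 (Icc a b) := fun x hx =>
    (hF1 x hx).continuousAt.continuousWithinAt
  -- growth of the derivative
  have hgr : ∀ x ∈ Icc a b, ∀ y ∈ Icc a b, x ≤ y → mu * (y - x) ≤ F1 y - F1 x := by
    intro x hx y hy hxy
    refine (convex_Icc a b).mul_sub_le_image_sub_of_le_deriv hcF1 ?_ ?_ x hx y hy hxy
    · intro z hz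
      rw [interior_Icc] at hz
      exact (hF1 z (Ioo_subset_Icc_self hz)).differentiableAt.differentiableWithinAt
    · intro z hz
      rw [interior_Icc] at hz
      rw [(hF1 z (Ioo_subset_Icc_self hz)).deriv]
      exact hs z (Ioo_subset_Icc_self hz)
  -- the centre
  obtain ⟨x₀, hx₀, hr, hl⟩ : ∃ x₀ ∈ Icc a b, (∀ x ∈ Icc a b, x₀ < x → mu * (x - x₀) ≤ F1 x) ∧
      (∀ x ∈ Icc a b, x < x₀ → F1 x ≤ -(mu * (x₀ - x))) := by
    by_cases h0 : 0 ≤ F1 a
    · refine ⟨a, left_mem_Icc.2 hab, fun x hx h => ?_, fun x hx h => absurd hx.1 (not_le.2 h)⟩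
      have := hgr a (left_mem_Icc.2 hab) x hx h.le
      linarith
    by_cases h0b : F1 b ≤ 0
    · refine ⟨b, right_mem_Icc.2 hab, fun x hx h => absurd hx.2 (not_le.2 h), fun x hx h => ?_⟩
      have := hgr x hx b (right_mem_Icc.2 hab) h.le
      linarith
    push Not at h0 h0b
    obtain ⟨x₀, hx₀, hz⟩ := intermediate_value_Icc hab hcF1 (show (0 : ℝ) ∈ Icc (F1 a) (F1 b) from
      ⟨h0.le, h0b.le⟩)
    refine ⟨x₀, hx₀, fun x hx h => ?_, fun x hx h => ?_⟩
    · have := hgr x₀ hx₀ x hx h.le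
      linarith
    · have := hgr x hx x₀ hx₀ h.le
      linarith
  set s := Real.sqrt mu with hs'
  have hs0 : 0 < s := Real.sqrt_pos.2 hmu
  have hss : s * s = mu := Real.mul_self_sqrt hmu.le
  set δ := 2 / s with hδ
  have hδ0 : 0 < δ := by positivity
  have hmd : mu * δ = 2 * s := by
    rw [hδ, ← hss]
    field_simp
  set c := max a (x₀ - δ) with hc
  set e := min b (x₀ + δ) with he
  have hac : a ≤ c := le_max_left _ _
  have hcx : c ≤ x₀ := max_le hx₀.1 (by linarith)
  have hxe : x₀ ≤ e := le_min hx₀.2 (by linarith)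
  have heb : e ≤ b := min_le_left _ _
  have hce : c ≤ e := hcx.trans hxe
  have hcv : ContinuousOn (fun x => cexp (I * F x)) (Icc a b) :=
    Complex.continuous_exp.comp_continuousOn
      (continuousOn_const.mul (Complex.continuous_ofReal.comp_continuousOn hcF) :
        ContinuousOn (fun x => I * (F x : ℂ)) (Icc a b))
  have hint : ∀ p q : ℝ, a ≤ p → p ≤ q → q ≤ b →
      IntervalIntegrable (fun x => cexp (I * F x)) volume p q := by
    intro p q h1 h2 h3
    apply ContinuousOn.intervalIntegrable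
    rw [uIcc_of_le h2]
    exact hcv.mono (Icc_subset_Icc h1 h3)
  have hsplit : ∫ x in a..b, cexp (I * F x) = (∫ x in a..c, cexp (I * F x)) +
      (∫ x in c..e, cexp (I * F x)) + ∫ x in e..b, cexp (I * F x) := by
    rw [intervalIntegral.integral_add_adjacent_intervals (hint a c le_rfl hac (hce.trans heb))
      (hint c e hac hce heb),
      intervalIntegral.integral_add_adjacent_intervals (hint a e le_rfl (hac.trans hce) heb)
      (hint e b (hac.trans hce) heb le_rfl)]
  have hsub : ∀ p q : ℝ, a ≤ p → q ≤ b → ∀ x ∈ Icc p q, x ∈ Icc a b := fun p q h1 h2 x hx =>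
    ⟨h1.trans hx.1, hx.2.trans h2⟩
  -- the left part
  have h1 : ‖∫ x in a..c, cexp (I * F x)‖ ≤ 2 / s := by
    rcases eq_or_lt_of_le hac with h | h
    · rw [← h, intervalIntegral.integral_same, norm_zero]
      positivity
    · have hc2 : c = x₀ - δ := by
        rcases max_choice a (x₀ - δ) with h' | h'
        · rw [← hc] at h'
          linarith only [h, h']
        · exact h'
      have := vdc1 (lam := 2 * s) hac (fun x hx => hF x (hsub a c le_rfl (hce.trans heb) x hx))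
        (fun x hx => hF1 x (hsub a c le_rfl (hce.trans heb) x hx))
        (hF2.mono (fun x hx => hsub a c le_rfl (hce.trans heb) x hx))
        (fun x hx => hmu.le.trans (hs x (hsub a c le_rfl (hce.trans heb) x hx)))
        (by positivity) (fun x hx => by
          have hx2 : x < x₀ := by
            have := hx.2
            linarith
          have h2 := hl x (hsub a c le_rfl (hce.trans heb) x hx) hx2
          have h3 : mu * δ ≤ mu * (x₀ - x) := by
            apply mul_le_mul_of_nonneg_left _ hmu.le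
            have := hx.2
            linarith
          rw [hmd] at h3
          refine le_trans ?_ (neg_le_abs (F1 x))
          linarith)
      refine this.trans (le_of_eq ?_)
      field_simp
      ring
  have h3 : ‖∫ x in e..b, cexp (I * F x)‖ ≤ 2 / s := by
    rcases eq_or_lt_of_le heb with h | h
    · rw [h, intervalIntegral.integral_same, norm_zero]
      positivity
    · have he2 : e = x₀ + δ := by
        rcases min_choice b (x₀ + δ) with h' | h'
        · rw [← he] at h'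
          linarith only [h, h']
        · exact h'
      have := vdc1 (lam := 2 * s) heb (fun x hx => hF x (hsub e b (hac.trans hce) le_rfl x hx))
        (fun x hx => hF1 x (hsub e b (hac.trans hce) le_rfl x hx))
        (hF2.mono (fun x hx => hsub e b (hac.trans hce) le_rfl x hx))
        (fun x hx => hmu.le.trans (hs x (hsub e b (hac.trans hce) le_rfl x hx)))
        (by positivity) (fun x hx => by
          have hx2 : x₀ < x := by
            have := hx.1
            linarith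
          have h2 := hr x (hsub e b (hac.trans hce) le_rfl x hx) hx2
          have h3 : mu * δ ≤ mu * (x - x₀) := by
            apply mul_le_mul_of_nonneg_left _ hmu.le
            have := hx.1
            linarith only [he2, this]
          rw [hmd] at h3
          refine le_trans ?_ (le_abs_self (F1 x))
          linarith)
      refine this.trans (le_of_eq ?_)
      field_simp
      ring
  have h2 : ‖∫ x in c..e, cexp (I * F x)‖ ≤ 4 / s := by
    refine (norm_int_le hce).trans ?_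
    have g1 : x₀ - δ ≤ c := le_max_right _ _
    have g2 : e ≤ x₀ + δ := min_le_right _ _
    have g3 : 4 / s = δ + δ := by rw [hδ]; ring
    rw [g3]
    linarith only [g1, g2]
  rw [hsplit]
  calc _ ≤ ‖∫ x in a..c, cexp (I * F x)‖ + ‖∫ x in c..e, cexp (I * F x)‖ +
      ‖∫ x in e..b, cexp (I * F x)‖ := norm_add₃_le
    _ ≤ 2 / s + 4 / s + 2 / s := add_le_add (add_le_add h1 h2) h3
    _ = 8 / s := by ring

/-- the second derivative test, negative second derivative -/
theorem vdc2n {F F1 F2 : ℝ → ℝ} {a b mu : ℝ} (hab : a ≤ b)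
    (hF : ∀ x ∈ Icc a b, HasDerivAt F (F1 x) x) (hF1 : ∀ x ∈ Icc a b, HasDerivAt F1 (F2 x) x)
    (hF2 : ContinuousOn F2 (Icc a b)) (hmu : 0 < mu) (hs : ∀ x ∈ Icc a b, F2 x ≤ -mu) :
    ‖∫ x in a..b, cexp (I * F x)‖ ≤ 8 / Real.sqrt mu := by
  have h := vdc2 (F := fun x => -F x) (F1 := fun x => -F1 x) (F2 := fun x => -F2 x) hab
    (fun x hx => (hF x hx).fun_neg) (fun x hx => (hF1 x hx).fun_neg) hF2.neg hmu
    (fun x hx => by have := hs x hx; linarith)
  rw [← Complex.norm_conj, ← intervalIntegral.intervalIntegral_conj] at h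
  have e : (fun x => (starRingEnd ℂ) (cexp (I * ((-F x : ℝ) : ℂ)))) = fun x => cexp (I * F x) := by
    funext x
    rw [← Complex.exp_conj, map_mul, conj_I, conj_ofReal]
    push_cast
    ring_nf
  rw [e] at h
  exact h

/-- an amplitude -/
theorem amp {f g g' : ℝ → ℂ} {a b K : ℝ} (hab : a ≤ b) (hf : ContinuousOn f (Icc a b))
    (hg : ∀ x ∈ Icc a b, HasDerivAt g (g' x) x) (hg' : ContinuousOn g' (Icc a b))
    (hK : ∀ x ∈ Icc a b, ‖∫ s in a..x, f s‖ ≤ K) :
    ‖∫ x in a..b, g x * f x‖ ≤ K * (‖g b‖ + ∫ x in a..b, ‖g' x‖) := by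
  have huI : uIcc a b = Icc a b := uIcc_of_le hab
  have hfi : IntervalIntegrable f volume a b := ContinuousOn.intervalIntegrable (huI ▸ hf)
  set E : ℝ → ℂ := fun x => ∫ s in a..x, f s with hE
  have hcE : ContinuousOn E (uIcc a b) := by
    rw [huI]
    have := intervalIntegral.continuousOn_primitive_interval' (μ := volume) (f := f) (a := a)
      (b₁ := a) (b₂ := b) hfi (by rw [huI]; exact left_mem_Icc.2 hab)
    rwa [huI] at this
  have hcg : ContinuousOn g (uIcc a b) := by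
    rw [huI]
    exact fun x hx => (hg x hx).continuousAt.continuousWithinAt
  have hdE : ∀ x ∈ Ioo (min a b) (max a b), HasDerivWithinAt E (f x) (Ioi x) x := by
    intro x hx
    rw [min_eq_left hab, max_eq_right hab] at hx
    have hfx : ContinuousAt f x := hf.continuousAt (Icc_mem_nhds hx.1 hx.2)
    refine (intervalIntegral.integral_hasDerivAt_right
      (hfi.mono_set ?_) ?_ hfx).hasDerivWithinAt
    · rw [huI, uIcc_of_le hx.1.le]
      exact Icc_subset_Icc le_rfl hx.2.le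
    · exact (hf.mono Ioo_subset_Icc_self).stronglyMeasurableAtFilter isOpen_Ioo x hx
  have hdg : ∀ x ∈ Ioo (min a b) (max a b), HasDerivWithinAt g (g' x) (Ioi x) x := by
    intro x hx
    rw [min_eq_left hab, max_eq_right hab] at hx
    exact (hg x (Ioo_subset_Icc_self hx)).hasDerivWithinAt
  have hgi : IntervalIntegrable g' volume a b := ContinuousOn.intervalIntegrable (huI ▸ hg')
  have key := intervalIntegral.integral_mul_deriv_eq_deriv_mul_of_hasDeriv_right hcg hcE hdg hdE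
    hgi hfi
  have e0 : E a = 0 := intervalIntegral.integral_same
  rw [e0, mul_zero, sub_zero] at key
  have hK0 : 0 ≤ K := (norm_nonneg _).trans (hK a (left_mem_Icc.2 hab))
  have h2 : ‖∫ x in a..b, g' x * E x‖ ≤ K * ∫ x in a..b, ‖g' x‖ := by
    refine (intervalIntegral.norm_integral_le_integral_norm hab).trans ?_
    rw [← intervalIntegral.integral_const_mul]
    refine intervalIntegral.integral_mono_on hab ?_ ?_ ?_
    · refine ContinuousOn.intervalIntegrable ?_
      exact ((huI ▸ hg' : ContinuousOn g' (uIcc a b)).mul hcE).norm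
    · refine ContinuousOn.intervalIntegrable ?_
      exact continuousOn_const.mul (huI ▸ hg' : ContinuousOn g' (uIcc a b)).norm
    · intro x hx
      rw [norm_mul, mul_comm]
      exact mul_le_mul_of_nonneg_right (hK x hx) (norm_nonneg _)
  change ‖∫ x in a..b, g x * f x‖ ≤ _
  rw [key]
  calc ‖g b * E b - ∫ x in a..b, g' x * E x‖ ≤ ‖g b * E b‖ + ‖∫ x in a..b, g' x * E x‖ :=
        norm_sub_le _ _
    _ ≤ ‖g b‖ * K + K * ∫ x in a..b, ‖g' x‖ := by
        rw [norm_mul]
        exact add_le_add (mul_le_mul_of_nonneg_left (hK b (right_mem_Icc.2 hab))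
          (norm_nonneg _)) h2
    _ = _ := by ring

end Pool.Agent.LE.H28V
end
end -- Pool.Agent.Helper28_LSP.VDC

section -- Pool.Agent.Helper28_LSP.MTA

/-!
# The main term, one coordinate
-/

set_option autoImplicit false

open MeasureTheory Set

open scoped BigOperators

noncomputable section

namespace Pool.Agent.LE.H28V

open Pool.Agent.LE.CL

/-- the Fejér kernel -/
def fj (T x : ℝ) : ℝ := 2 * (1 - Real.cos (T * x)) / (T * x ^ 2)

theorem fj_nonneg {T : ℝ} (hT : 0 < T) (x : ℝ) : 0 ≤ fj T x := by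
  unfold fj
  have := Real.cos_le_one (T * x)
  exact div_nonneg (by linarith) (by positivity)

theorem fj_le {T : ℝ} (hT : 0 < T) (x : ℝ) : fj T x ≤ T := by
  unfold fj
  rcases eq_or_ne x 0 with rfl | hx
  · simp
    exact hT.le
  · have h1 : 0 < x ^ 2 := by positivity
    rw [div_le_iff₀ (by positivity)]
    have := Real.one_sub_sq_div_two_le_cos (x := T * x)
    nlinarith only [this]

theorem fj_le2 {T : ℝ} (hT : 0 < T) (x : ℝ) : fj T x * (T * x ^ 2) ≤ 4 := by
  unfold fj
  rcases eq_or_ne x 0 with rfl | hx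
  · simp
  · have h1 : 0 < x ^ 2 := by positivity
    rw [div_mul_cancel₀ _ (by positivity)]
    have := Real.neg_one_le_cos (T * x)
    linarith

theorem fj_ge {T : ℝ} (hT : 0 < T) {x : ℝ} (hx : x ≠ 0) (h : |x| ≤ 1 / T) : T / 4 ≤ fj T x := by
  unfold fj
  have h1 : 0 < x ^ 2 := by positivity
  rw [le_div_iff₀ (by positivity)]
  have hπ := Real.pi_gt_three
  have hπ4 := Real.pi_le_four
  have h2 : |T * x| ≤ Real.pi := by
    rw [abs_mul, abs_of_pos hT]
    have : T * |x| ≤ T * (1 / T) := mul_le_mul_of_nonneg_left h hT.le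
    rw [mul_one_div_cancel hT.ne'] at this
    linarith only [hπ, this]
  have h3 := Real.cos_le_one_sub_mul_cos_sq h2
  have h4 : 1 / 8 ≤ 2 / Real.pi ^ 2 := by
    rw [div_le_div_iff₀ (by norm_num) (by positivity)]
    nlinarith only [hπ, hπ4]
  have h5 : 1 / 8 * (T * x) ^ 2 ≤ 2 / Real.pi ^ 2 * (T * x) ^ 2 :=
    mul_le_mul_of_nonneg_right h4 (sq_nonneg _)
  nlinarith only [h3, h5]

theorem fj_meas (T : ℝ) : Measurable (fj T) := by
  unfold fj
  fun_prop

theorem wh_fj {T : ℝ} (hT : 0 < T) (x : ℝ) : wh T x = 2 * fj (2 * T) x - fj T x := by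
  unfold wh fj
  rcases eq_or_ne x 0 with rfl | hx
  · simp
  · field_simp
    ring

/-- the comparison function -/
theorem fj_cmp {T κ s x : ℝ} (hT : 0 < T) (hκ : 0 < κ) (h : 2 * κ * |s| ≤ |x|) :
    fj T x ≤ 2 * T / (1 + (κ * T * s) ^ 2) := by
  have h0 := fj_nonneg hT x
  have h1 := fj_le hT x
  have h2 := fj_le2 hT x
  rw [le_div_iff₀ (by positivity)]
  have h3 : 4 * κ ^ 2 * s ^ 2 ≤ x ^ 2 := by
    have := pow_le_pow_left₀ (by positivity) h 2
    rw [mul_pow, mul_pow, sq_abs, sq_abs] at this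
    linarith
  have h4 : fj T x * (κ * T * s) ^ 2 ≤ T := by
    have h5 : fj T x * (T * (4 * κ ^ 2 * s ^ 2)) ≤ 4 :=
      le_trans (mul_le_mul_of_nonneg_left (mul_le_mul_of_nonneg_left h3 hT.le) h0) h2
    have h6 : fj T x * (κ * T * s) ^ 2 = T / 4 * (fj T x * (T * (4 * κ ^ 2 * s ^ 2))) := by ring
    rw [h6]
    calc T / 4 * (fj T x * (T * (4 * κ ^ 2 * s ^ 2))) ≤ T / 4 * 4 :=
          mul_le_mul_of_nonneg_left h5 (by positivity)
      _ = T := by ring
  linarith

/-- the conditions for the main term -/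
structure Mp (x r κ : ℝ) : Prop where
  hr : 0 < r
  hr2 : r ≤ 1 / 2
  hκ : 0 < κ
  hsin : ∀ θ ∈ Icc (x - 2 * r) (x + 2 * r), κ ≤ Real.sin θ

section mp

variable {x r κ : ℝ} (hm : Mp x r κ)
include hm

theorem Mp.mono {p q : ℝ} (hp : p ∈ Icc (x - 2 * r) (x + 2 * r))
    (hq : q ∈ Icc (x - 2 * r) (x + 2 * r)) (hpq : p ≤ q) :
    2 * κ * (q - p) ≤ 2 * Real.cos p - 2 * Real.cos q := by
  have h := (convex_Icc (x - 2 * r) (x + 2 * r)).mul_sub_le_image_sub_of_le_deriv
    (f := fun θ => -Real.cos θ) (C := κ) Real.continuous_cos.neg.continuousOn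
    Real.differentiable_cos.neg.differentiableOn ?_ p hp q hq hpq
  · linarith
  · intro z hz
    rw [interior_Icc] at hz
    have : deriv (fun θ => -Real.cos θ) z = Real.sin z := by
      have := (Real.hasDerivAt_cos z).fun_neg.deriv
      rw [this, neg_neg]
    rw [this]
    exact hm.hsin z (Ioo_subset_Icc_self hz)

theorem Mp.sub {θ : ℝ} (h : θ ∈ Icc (x - r) (x + r)) : θ ∈ Icc (x - 2 * r) (x + 2 * r) :=
  ⟨by linarith [h.1, hm.hr], by linarith [h.2, hm.hr]⟩

/-- the centre -/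
theorem Mp.centre (b : ℝ) : ∃ s ∈ Icc (x - r) (x + r), ∀ θ ∈ Icc (x - r) (x + r),
    2 * κ * |θ - s| ≤ |2 * Real.cos θ + b| := by
  have hr := hm.hr
  have hκ := hm.hκ
  have hab : x - r ≤ x + r := by linarith
  have hc : ContinuousOn (fun θ => 2 * Real.cos θ + b) (Icc (x - r) (x + r)) :=
    Continuous.continuousOn (by fun_prop)
  have hgr : ∀ p ∈ Icc (x - r) (x + r), ∀ q ∈ Icc (x - r) (x + r), p ≤ q →
      2 * κ * (q - p) ≤ (2 * Real.cos p + b) - (2 * Real.cos q + b) := by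
    intro p hp q hq hpq
    have := hm.mono (hm.sub hp) (hm.sub hq) hpq
    linarith
  by_cases h0 : 2 * Real.cos (x - r) + b ≤ 0
  · refine ⟨x - r, left_mem_Icc.2 hab, fun θ hθ => ?_⟩
    have h1 := hgr (x - r) (left_mem_Icc.2 hab) θ hθ hθ.1
    rw [abs_of_nonneg (by linarith [hθ.1])]
    refine le_trans ?_ (neg_le_abs _)
    linarith
  by_cases h1 : 0 ≤ 2 * Real.cos (x + r) + b
  · refine ⟨x + r, right_mem_Icc.2 hab, fun θ hθ => ?_⟩
    have h2 := hgr θ hθ (x + r) (right_mem_Icc.2 hab) hθ.2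
    rw [abs_of_nonpos (by linarith [hθ.2])]
    refine le_trans ?_ (le_abs_self _)
    linarith
  push Not at h0 h1
  obtain ⟨s, hs, hz⟩ := intermediate_value_Icc' hab hc
    (show (0 : ℝ) ∈ Icc (2 * Real.cos (x + r) + b) (2 * Real.cos (x - r) + b) from
      ⟨h1.le, h0.le⟩)
  refine ⟨s, hs, fun θ hθ => ?_⟩
  simp only at hz
  rcases le_total θ s with h2 | h2
  · have h3 := hgr θ hθ s hs h2
    rw [abs_of_nonpos (by linarith)]
    refine le_trans ?_ (le_abs_self _)
    linarith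
  · have h3 := hgr s hs θ hθ h2
    rw [abs_of_nonneg (by linarith)]
    refine le_trans ?_ (neg_le_abs _)
    linarith

/-- the upper bound -/
theorem Mp.upper {T : ℝ} (hT : 0 < T) (b : ℝ) :
    ∫ θ in (x - r)..(x + r), fj T (2 * Real.cos θ + b) ≤ 8 / κ := by
  have hr := hm.hr
  have hκ := hm.hκ
  have hab : x - r ≤ x + r := by linarith
  obtain ⟨s, hs, h⟩ := hm.centre b
  have hden : ∀ θ : ℝ, 1 + (κ * T * (θ - s)) ^ 2 ≠ 0 := fun θ => by positivity
  have hcc : Continuous fun θ : ℝ => 2 * T / (1 + (κ * T * (θ - s)) ^ 2) :=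
    continuous_const.div (by fun_prop) hden
  have h1 : ∫ θ in (x - r)..(x + r), fj T (2 * Real.cos θ + b) ≤
      ∫ θ in (x - r)..(x + r), 2 * T / (1 + (κ * T * (θ - s)) ^ 2) := by
    refine intervalIntegral.integral_mono_on hab ?_ (hcc.intervalIntegrable _ _) ?_
    · refine (intervalIntegrable_const (c := T)).mono_fun ?_ ?_
      · exact ((fj_meas T).comp (by fun_prop)).aestronglyMeasurable
      · refine Filter.Eventually.of_forall fun θ => ?_
        change ‖fj T (2 * Real.cos θ + b)‖ ≤ ‖T‖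
        rw [Real.norm_of_nonneg (fj_nonneg hT _), Real.norm_of_nonneg hT.le]
        exact fj_le hT _
    · intro θ hθ
      exact fj_cmp hT hκ (h θ hθ)
  have h2 : ∫ θ in (x - r)..(x + r), 2 * T / (1 + (κ * T * (θ - s)) ^ 2) =
      2 / κ * Real.arctan (κ * T * (x + r - s)) - 2 / κ * Real.arctan (κ * T * (x - r - s)) := by
    refine intervalIntegral.integral_eq_sub_of_hasDerivAt
      (f := fun θ => 2 / κ * Real.arctan (κ * T * (θ - s))) (fun θ _ => ?_)
      (hcc.intervalIntegrable _ _)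
    have h3 := ((Real.hasDerivAt_arctan (κ * T * (θ - s))).comp θ
      (((hasDerivAt_id θ).sub_const s).const_mul (κ * T))).const_mul (2 / κ)
    refine HasDerivAt.congr_deriv (f := fun θ => 2 / κ * Real.arctan (κ * T * (θ - s))) h3 ?_
    field_simp
  rw [h2] at h1
  have h3 := Real.arctan_lt_pi_div_two (κ * T * (x + r - s))
  have h4 := Real.neg_pi_div_two_lt_arctan (κ * T * (x - r - s))
  have hπ4 := Real.pi_le_four
  have h5 : 2 / κ * Real.arctan (κ * T * (x + r - s)) - 2 / κ * Real.arctan (κ * T * (x - r - s)) =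
      2 / κ * (Real.arctan (κ * T * (x + r - s)) - Real.arctan (κ * T * (x - r - s))) := by ring
  rw [h5] at h1
  refine h1.trans ?_
  calc 2 / κ * (Real.arctan (κ * T * (x + r - s)) - Real.arctan (κ * T * (x - r - s)))
      ≤ 2 / κ * 4 := mul_le_mul_of_nonneg_left (by linarith only [h3, h4, hπ4]) (by positivity)
    _ = 8 / κ := by ring

end mp

/-! ### the cut-off -/

theorem aa_nonneg (x r θ : ℝ) : 0 ≤ aa x r θ := le_max_right _ _

theorem aa_cont (x r : ℝ) : Continuous (aa x r) := by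
  unfold aa
  fun_prop

theorem aa_le {x r : ℝ} (hr : 0 < r) (hr2 : r ≤ 1 / 2) (θ : ℝ) : aa x r θ ≤ 1 := by
  unfold aa
  refine max_le ?_ zero_le_one
  nlinarith only [sq_nonneg (θ - x), hr, hr2]

theorem aa_off {x r θ : ℝ} (hr : 0 < r) (h : θ ∉ Icc (x - r) (x + r)) : aa x r θ = 0 := by
  unfold aa
  refine max_eq_right ?_
  by_contra hc
  push Not at hc
  apply h
  have h1 : (θ - x) ^ 2 < r ^ 2 := by linarith
  have h2 := abs_lt.1 (abs_lt_of_sq_lt_sq h1 hr.le)
  exact ⟨by linarith [h2.1], by linarith [h2.2]⟩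

theorem aa_supp {x r : ℝ} (hr : 0 < r) : HasCompactSupport (aa x r) :=
  HasCompactSupport.intro isCompact_Icc fun _ h => aa_off hr h

theorem aa_int {x r : ℝ} (hr : 0 < r) : Integrable (aa x r) :=
  (aa_cont x r).integrable_of_hasCompactSupport (aa_supp hr)

theorem aa_ge {x r ρ θ : ℝ} (hρ : |θ - x| ≤ ρ) (h : ρ ^ 2 ≤ r ^ 2 / 2) :
    r ^ 2 / 2 ≤ aa x r θ := by
  unfold aa
  refine le_trans ?_ (le_max_left _ _)
  have h1 : (θ - x) ^ 2 ≤ ρ ^ 2 := by
    rw [← sq_abs]
    exact pow_le_pow_left₀ (abs_nonneg _) hρ 2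
  linarith only [h, h1]

/-- the one dimensional integral -/
def J (x r T b : ℝ) : ℝ := ∫ θ, aa x r θ * fj T (2 * Real.cos θ + b)

theorem J_eq {x r : ℝ} (hr : 0 < r) (T b : ℝ) :
    J x r T b = ∫ θ in (x - r)..(x + r), aa x r θ * fj T (2 * Real.cos θ + b) := by
  have hab : x - r ≤ x + r := by linarith
  unfold J
  rw [intervalIntegral.integral_of_le hab, ← integral_Icc_eq_integral_Ioc,
    setIntegral_eq_integral_of_forall_compl_eq_zero]
  intro θ hθ
  rw [aa_off hr hθ, zero_mul]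

theorem J_nonneg {x r T : ℝ} (hT : 0 < T) (b : ℝ) : 0 ≤ J x r T b :=
  integral_nonneg fun θ => mul_nonneg (aa_nonneg _ _ _) (fj_nonneg hT _)

theorem J_intble {x r T : ℝ} (hr : 0 < r) (hT : 0 < T) (b : ℝ) :
    Integrable fun θ => aa x r θ * fj T (2 * Real.cos θ + b) := by
  refine (aa_int hr).mul_bdd (c := T) ?_ ?_
  · exact ((fj_meas T).comp (by fun_prop)).aestronglyMeasurable
  · refine Filter.Eventually.of_forall fun θ => ?_
    rw [Real.norm_of_nonneg (fj_nonneg hT _)]
    exact fj_le hT _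

section mp

variable {x r κ : ℝ} (hm : Mp x r κ)
include hm

theorem Mp.J_upper {T : ℝ} (hT : 0 < T) (b : ℝ) : J x r T b ≤ 8 / κ := by
  have hr := hm.hr
  have hab : x - r ≤ x + r := by linarith
  rw [J_eq hr]
  refine le_trans ?_ (hm.upper hT b)
  refine intervalIntegral.integral_mono_on hab (J_intble hr hT b).intervalIntegrable ?_ ?_
  · refine (intervalIntegrable_const (c := T)).mono_fun ?_ ?_
    · exact ((fj_meas T).comp (by fun_prop)).aestronglyMeasurable
    · refine Filter.Eventually.of_forall fun θ => ?_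
      change ‖fj T (2 * Real.cos θ + b)‖ ≤ ‖T‖
      rw [Real.norm_of_nonneg (fj_nonneg hT _), Real.norm_of_nonneg hT.le]
      exact fj_le hT _
  · intro θ _
    calc aa x r θ * fj T (2 * Real.cos θ + b) ≤ 1 * fj T (2 * Real.cos θ + b) :=
          mul_le_mul_of_nonneg_right (aa_le hr hm.hr2 θ) (fj_nonneg hT _)
      _ = _ := one_mul _

theorem Mp.J_lower {T : ℝ} (hT : 1 ≤ T) {b : ℝ} (hb : |2 * Real.cos x + b| ≤ κ * r) :
    r ^ 3 / 32 ≤ J x r T b := by
  have hr := hm.hr
  have hκ := hm.hκ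
  have hT0 : 0 < T := by linarith
  have hx : x ∈ Icc (x - 2 * r) (x + 2 * r) := ⟨by linarith, by linarith⟩
  have hp : x - r / 2 ∈ Icc (x - 2 * r) (x + 2 * r) := ⟨by linarith only [hr], by linarith⟩
  have hq : x + r / 2 ∈ Icc (x - 2 * r) (x + 2 * r) := ⟨by linarith, by linarith⟩
  have h1 := hm.mono hp hx (by linarith)
  have h2 := hm.mono hx hq (by linarith only [hr])
  have hb' := abs_le.1 hb
  have hc : ContinuousOn (fun θ => 2 * Real.cos θ + b) (Icc (x - r / 2) (x + r / 2)) :=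
    Continuous.continuousOn (by fun_prop)
  obtain ⟨s, hs, hz⟩ := intermediate_value_Icc' (by linarith only [hr] : x - r / 2 ≤ x + r / 2) hc
    (show (0 : ℝ) ∈ Icc (2 * Real.cos (x + r / 2) + b) (2 * Real.cos (x - r / 2) + b) from
      ⟨by nlinarith only [h2, hb'], by nlinarith only [h1, hb']⟩)
  simp only at hz
  set q := r / (4 * T) with hq'
  have hq0 : 0 < q := by positivity
  have hq1 : q ≤ r / 4 := by
    rw [hq']
    apply div_le_div_of_nonneg_left hr.le (by norm_num)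
    linarith only [hT]
  have hq2 : 2 * q ≤ 1 / T := by
    rw [hq', le_div_iff₀ hT0]
    have : 2 * (r / (4 * T)) * T = r / 2 := by field_simp; norm_num
    rw [this]
    linarith only [hm.hr2, hq0, hq1]
  have hsm : s ∈ Icc (x - 2 * r) (x + 2 * r) := ⟨by linarith only [hs.1, hq0, hq1], by linarith only [hs.2, hq0, hq1]⟩
  have hval : ∀ θ ∈ Icc (s - q) (s + q), θ ≠ s → T * r ^ 2 / 16 ≤
      aa x r θ * fj T (2 * Real.cos θ + b) := by
    intro θ hθ hne
    have hθm : θ ∈ Icc (x - 2 * r) (x + 2 * r) :=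
      ⟨by linarith only [hθ.1, hs.1, hq0, hq1], by linarith only [hθ.2, hs.2, hq0, hq1]⟩
    have hθs : |θ - s| ≤ q := abs_le.2 ⟨by linarith only [hθ.1], by linarith only [hθ.2]⟩
    have hu : 2 * Real.cos θ + b ≠ 0 := by
      intro h0
      apply hne
      rcases le_total θ s with h | h
      · have := hm.mono hθm hsm h
        have h3 : s - θ ≤ 0 := by
          by_contra hcon
          push Not at hcon
          have : 0 < 2 * κ * (s - θ) := by positivity
          linarith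
        linarith only [h, h3]
      · have := hm.mono hsm hθm h
        have h3 : θ - s ≤ 0 := by
          by_contra hcon
          push Not at hcon
          have : 0 < 2 * κ * (θ - s) := by positivity
          linarith
        linarith only [h, h3]
    have hu2 : |2 * Real.cos θ + b| ≤ 1 / T := by
      have h3 : |Real.cos θ - Real.cos s| ≤ |θ - s| := Real.abs_cos_sub_cos_le θ s
      have h4 : 2 * Real.cos θ + b = 2 * (Real.cos θ - Real.cos s) := by linarith only [hz]
      rw [h4, abs_mul, abs_two]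
      linarith only [hq2, hθs, h3]
    have h5 := fj_ge hT0 hu hu2
    have h6 : r ^ 2 / 4 ≤ aa x r θ * 1 := by
      rw [mul_one]
      unfold aa
      refine le_trans ?_ (le_max_left _ _)
      have h7 : |θ - x| ≤ 3 * r / 4 := abs_le.2
        ⟨by linarith only [hθ.1, hs.1, hq1], by linarith only [hθ.2, hs.2, hq1]⟩
      have h8 : (θ - x) ^ 2 ≤ (3 * r / 4) ^ 2 := by
        rw [← sq_abs]
        exact pow_le_pow_left₀ (abs_nonneg _) h7 2
      nlinarith only [mul_pos hr hr, h8]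
    rw [mul_one] at h6
    calc T * r ^ 2 / 16 = r ^ 2 / 4 * (T / 4) := by ring
      _ ≤ _ := mul_le_mul h6 h5 (by positivity) (aa_nonneg _ _ _)
  have h9 : ∫ θ in Icc (s - q) (s + q), (T * r ^ 2 / 16 : ℝ) ≤ J x r T b := by
    unfold J
    refine le_trans ?_ (setIntegral_le_integral (s := Icc (s - q) (s + q)) (J_intble hr hT0 b)
      (Filter.Eventually.of_forall fun θ => mul_nonneg (aa_nonneg _ _ _) (fj_nonneg hT0 _)))
    refine setIntegral_mono_ae_restrict ?_ (J_intble hr hT0 b).integrableOn ?_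
    · exact integrableOn_const (by rw [Real.volume_Icc]; exact ENNReal.ofReal_ne_top)
    · have hne : ∀ᵐ θ : ℝ, θ ≠ s := by
        rw [ae_iff]
        simp only [not_not, Set.ofPred_eq_eq_singleton]
        exact Real.volume_singleton
      filter_upwards [ae_restrict_mem measurableSet_Icc, ae_restrict_of_ae hne] with θ h1 h2
      exact hval θ h1 h2
  rw [setIntegral_const, Real.volume_real_Icc_of_le (by linarith only [hq0]), smul_eq_mul] at h9
  refine le_trans (le_of_eq ?_) h9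
  rw [hq']
  field_simp
  ring

end mp

end Pool.Agent.LE.H28V
end
end -- Pool.Agent.Helper28_LSP.MTA

section -- Pool.Agent.Helper28_LSP.MTB

/-!
# The main term
-/

set_option autoImplicit false

open MeasureTheory Set

open scoped BigOperators

noncomputable section

namespace Pool.Agent.LE.H28V

open Pool.Agent.LE.CL

section multi

variable {k : ℕ}

/-- the smoothed density of states -/
def MM (th : Fin (k + 1) → ℝ) (r T E : ℝ) : ℝ :=
  ∫ θ : Fin (k + 1) → ℝ, (∏ j, aa (th j) r (θ j)) * fj T (∑ j, 2 * Real.cos (θ j) - E)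

theorem prod_int {m : ℕ} (th : Fin m → ℝ) {r : ℝ} (hr : 0 < r) :
    Integrable fun θ : Fin m → ℝ => ∏ j, aa (th j) r (θ j) :=
  Integrable.fintype_prod fun j => aa_int (x := th j) hr

theorem MM_int (th : Fin (k + 1) → ℝ) {r T : ℝ} (hr : 0 < r) (hT : 0 < T) (E : ℝ) :
    Integrable fun θ : Fin (k + 1) → ℝ =>
      (∏ j, aa (th j) r (θ j)) * fj T (∑ j, 2 * Real.cos (θ j) - E) := by
  refine (prod_int th hr).mul_bdd (c := T) ?_ ?_
  · exact ((fj_meas T).comp (by fun_prop)).aestronglyMeasurable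
  · refine Filter.Eventually.of_forall fun θ => ?_
    rw [Real.norm_of_nonneg (fj_nonneg hT _)]
    exact fj_le hT _

theorem MM_eq (th : Fin (k + 1) → ℝ) {r T : ℝ} (hr : 0 < r) (hT : 0 < T) (E : ℝ) :
    MM th r T E = ∫ θ : Fin k → ℝ, (∏ j, aa (th j.succ) r (θ j)) *
      J (th 0) r T (∑ j, 2 * Real.cos (θ j) - E) := by
  set g : ℝ × (Fin k → ℝ) → ℝ := fun p => (aa (th 0) r p.1 * ∏ j, aa (th j.succ) r (p.2 j)) *
    fj T (2 * Real.cos p.1 + (∑ j, 2 * Real.cos (p.2 j) - E)) with hg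
  have hgi : Integrable g (volume.prod volume) := by
    have h1 : Integrable (fun p : ℝ × (Fin k → ℝ) => aa (th 0) r p.1 *
        ∏ j, aa (th j.succ) r (p.2 j)) (volume.prod volume) :=
      (aa_int hr).mul_prod (prod_int (fun j => th j.succ) hr)
    refine h1.mul_bdd (c := T) ?_ ?_
    · exact ((fj_meas T).comp (by fun_prop)).aestronglyMeasurable
    · refine Filter.Eventually.of_forall fun θ => ?_
      rw [Real.norm_of_nonneg (fj_nonneg hT _)]
      exact fj_le hT _
  have h1 : MM th r T E = ∫ p, g p ∂(volume.prod volume) := by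
    have h2 := (volume_preserving_piFinSuccAbove (fun _ : Fin (k + 1) => ℝ) 0).integral_comp' g
    unfold MM
    refine Eq.trans ?_ h2
    refine integral_congr_ae (Filter.Eventually.of_forall fun θ => ?_)
    change (∏ j, aa (th j) r (θ j)) * fj T (∑ j, 2 * Real.cos (θ j) - E) =
      (aa (th 0) r (θ 0) * ∏ j : Fin k, aa (th j.succ) r (θ ((0 : Fin (k + 1)).succAbove j))) *
        fj T (2 * Real.cos (θ 0) +
          (∑ j : Fin k, 2 * Real.cos (θ ((0 : Fin (k + 1)).succAbove j)) - E))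
    simp only [Fin.zero_succAbove]
    rw [Fin.prod_univ_succ, Fin.sum_univ_succ, add_sub_assoc]
  rw [h1, integral_prod_symm g hgi]
  refine integral_congr_ae (Filter.Eventually.of_forall fun θ => ?_)
  simp only [hg]
  unfold J
  rw [← integral_const_mul]
  refine integral_congr_ae (Filter.Eventually.of_forall fun t => ?_)
  simp only
  ring

theorem J_meas (x r T : ℝ) (hr : 0 < r) (hT : 0 < T) {m : ℕ} (E : ℝ) :
    AEStronglyMeasurable (fun θ : Fin m → ℝ => J x r T (∑ j, 2 * Real.cos (θ j) - E)) volume := by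
  unfold J
  have h : AEStronglyMeasurable (fun p : (Fin m → ℝ) × ℝ => aa x r p.2 *
      fj T (2 * Real.cos p.2 + (∑ j, 2 * Real.cos (p.1 j) - E))) (volume.prod volume) :=
    (((aa_cont x r).measurable.comp measurable_snd).mul
      ((fj_meas T).comp (by fun_prop))).aestronglyMeasurable
  exact h.integral_prod_right'

variable {th : Fin (k + 1) → ℝ} {r κ : ℝ} (hm : ∀ j, Mp (th j) r κ)
include hm

theorem MM_upper {T : ℝ} (hT : 0 < T) (E : ℝ) : MM th r T E ≤ 8 / κ := by
  have hr := (hm 0).hr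
  have hκ := (hm 0).hκ
  rw [MM_eq th hr hT E]
  have hi : Integrable fun θ : Fin k → ℝ => (∏ j, aa (th j.succ) r (θ j)) *
      J (th 0) r T (∑ j, 2 * Real.cos (θ j) - E) := by
    refine (prod_int (fun j => th j.succ) hr).mul_bdd (c := 8 / κ) (J_meas _ _ _ hr hT E) ?_
    refine Filter.Eventually.of_forall fun θ => ?_
    rw [Real.norm_of_nonneg (J_nonneg hT _)]
    exact (hm 0).J_upper hT _
  have h1 : ∫ θ : Fin k → ℝ, (∏ j, aa (th j.succ) r (θ j)) *
      J (th 0) r T (∑ j, 2 * Real.cos (θ j) - E) ≤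
      ∫ θ : Fin k → ℝ, (∏ j, aa (th j.succ) r (θ j)) * (8 / κ) := by
    refine integral_mono hi ((prod_int (fun j => th j.succ) hr).mul_const _) fun θ => ?_
    exact mul_le_mul_of_nonneg_left ((hm 0).J_upper hT _)
      (Finset.prod_nonneg fun j _ => aa_nonneg _ _ _)
  refine h1.trans ?_
  rw [integral_mul_const, integral_fintype_prod_volume_eq_prod]
  have h2 : ∏ j : Fin k, ∫ θ, aa (th j.succ) r θ ≤ 1 := by
    refine Finset.prod_le_one (fun j _ => integral_nonneg fun _ => aa_nonneg _ _ _) fun j _ => ?_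
    have h3 : ∫ θ, aa (th j.succ) r θ = ∫ θ in Icc (th j.succ - r) (th j.succ + r),
        aa (th j.succ) r θ :=
      (setIntegral_eq_integral_of_forall_compl_eq_zero fun θ hθ => aa_off hr hθ).symm
    rw [h3]
    have h4 : ∫ θ in Icc (th j.succ - r) (th j.succ + r), aa (th j.succ) r θ ≤
        ∫ _θ in Icc (th j.succ - r) (th j.succ + r), (1 : ℝ) := by
      refine setIntegral_mono (aa_int hr).integrableOn ?_ fun θ => aa_le hr (hm 0).hr2 θ
      exact integrableOn_const (by rw [Real.volume_Icc]; exact ENNReal.ofReal_ne_top)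
    rw [setIntegral_const, Real.volume_real_Icc_of_le (by linarith only [hr]), smul_eq_mul, mul_one] at h4
    linarith only [(hm 0).hr2, h4]
  calc (∏ j : Fin k, ∫ θ, aa (th j.succ) r θ) * (8 / κ) ≤ 1 * (8 / κ) :=
        mul_le_mul_of_nonneg_right h2 (by positivity)
    _ = _ := one_mul _

theorem MM_lower {T : ℝ} (hT : 1 ≤ T) {E : ℝ} (hE : ∑ j, 2 * Real.cos (th j) = E) :
    r ^ 3 / 32 * (κ * r / (2 * (k + 1)) * r ^ 2) ^ k ≤ MM th r T E := by
  classical
  have hr := (hm 0).hr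
  have hκ := (hm 0).hκ
  have hT0 : 0 < T := by linarith
  have hκ1 : κ ≤ 1 := ((hm 0).hsin (th 0) ⟨by linarith, by linarith⟩).trans (Real.sin_le_one _)
  rw [MM_eq th hr hT0 E]
  set ρ := κ * r / (2 * (k + 1)) with hρ
  have hk : (0 : ℝ) ≤ k := Nat.cast_nonneg k
  have hρ0 : 0 < ρ := by positivity
  have hρk : 2 * k * ρ ≤ κ * r := by
    have h1 : 2 * (k + 1) * ρ = κ * r := by
      rw [hρ]
      field_simp
    nlinarith only [hρ0, h1]
  have hρr : ρ ≤ r / 2 := by
    rw [hρ, div_le_div_iff₀ (by positivity) (by norm_num)]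
    nlinarith only [mul_le_mul_of_nonneg_right hκ1 hr.le, mul_nonneg hk hr.le]
  have hρ2 : ρ ^ 2 ≤ r ^ 2 / 2 := by
    have := pow_le_pow_left₀ hρ0.le hρr 2
    nlinarith only [mul_pos hr hr, this]
  set lo : Fin k → ℝ → ℝ := fun j => (Icc (th j.succ - ρ) (th j.succ + ρ)).indicator
    fun _ => r ^ 2 / 2 with hlo
  have hloi : ∀ j, Integrable (lo j) := by
    intro j
    refine (integrable_indicator_iff measurableSet_Icc).2 ?_
    exact integrableOn_const (by rw [Real.volume_Icc]; exact ENNReal.ofReal_ne_top)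
  have hlov : ∀ j, ∫ θ, lo j θ = ρ * r ^ 2 := by
    intro j
    simp only [hlo]
    rw [integral_indicator measurableSet_Icc, setIntegral_const,
      Real.volume_real_Icc_of_le (by linarith only [hρ0]), smul_eq_mul]
    ring
  have hlo0 : ∀ j θ, 0 ≤ lo j θ := fun j θ => indicator_nonneg (fun _ _ => by positivity) _
  have hi : Integrable fun θ : Fin k → ℝ => (∏ j, aa (th j.succ) r (θ j)) *
      J (th 0) r T (∑ j, 2 * Real.cos (θ j) - E) := by
    refine (prod_int (fun j => th j.succ) hr).mul_bdd (c := 8 / κ) (J_meas _ _ _ hr hT0 E) ?_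
    refine Filter.Eventually.of_forall fun θ => ?_
    rw [Real.norm_of_nonneg (J_nonneg hT0 _)]
    exact (hm 0).J_upper hT0 _
  have h1 : ∫ θ : Fin k → ℝ, (∏ j, lo j (θ j)) * (r ^ 3 / 32) ≤
      ∫ θ : Fin k → ℝ, (∏ j, aa (th j.succ) r (θ j)) *
        J (th 0) r T (∑ j, 2 * Real.cos (θ j) - E) := by
    refine integral_mono ((Integrable.fintype_prod hloi).mul_const _) hi fun θ => ?_
    change (∏ j, lo j (θ j)) * (r ^ 3 / 32) ≤ (∏ j, aa (th j.succ) r (θ j)) *
        J (th 0) r T (∑ j, 2 * Real.cos (θ j) - E)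
    by_cases h : ∀ j, θ j ∈ Icc (th j.succ - ρ) (th j.succ + ρ)
    · have h2 : ∀ j, |θ j - th j.succ| ≤ ρ := fun j =>
        abs_le.2 ⟨by linarith only [(h j).1], by linarith only [(h j).2]⟩
      refine mul_le_mul ?_ ?_ (by positivity) (Finset.prod_nonneg fun j _ => aa_nonneg _ _ _)
      · refine Finset.prod_le_prod (fun j _ => hlo0 j _) fun j _ => ?_
        simp only [hlo]
        rw [indicator_of_mem (h j)]
        exact aa_ge (h2 j) hρ2
      · refine (hm 0).J_lower hT ?_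
        rw [← hE, Fin.sum_univ_succ]
        have e : 2 * Real.cos (th 0) + (∑ j, 2 * Real.cos (θ j) -
            (2 * Real.cos (th 0) + ∑ j : Fin k, 2 * Real.cos (th j.succ))) =
            ∑ j, (2 * Real.cos (θ j) - 2 * Real.cos (th j.succ)) := by
          rw [Finset.sum_sub_distrib]
          ring
        rw [e]
        refine (Finset.abs_sum_le_sum_abs _ _).trans ?_
        have h3 : ∀ j ∈ (Finset.univ : Finset (Fin k)),
            |2 * Real.cos (θ j) - 2 * Real.cos (th j.succ)| ≤ 2 * ρ := by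
          intro j _
          rw [← mul_sub, abs_mul, abs_two]
          have := (Real.abs_cos_sub_cos_le (θ j) (th j.succ)).trans (h2 j)
          linarith only [this]
        refine (Finset.sum_le_sum h3).trans ?_
        rw [Finset.sum_const, Finset.card_univ, Fintype.card_fin, nsmul_eq_mul]
        linarith only [hρk]
    · push Not at h
      obtain ⟨j, hj⟩ := h
      have h2 : ∏ j, lo j (θ j) = 0 := by
        refine Finset.prod_eq_zero (Finset.mem_univ j) ?_
        simp only [hlo]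
        exact indicator_of_notMem hj _
      rw [h2, zero_mul]
      exact mul_nonneg (Finset.prod_nonneg fun j _ => aa_nonneg _ _ _) (J_nonneg hT0 _)
  refine le_trans (le_of_eq ?_) h1
  rw [integral_mul_const, integral_fintype_prod_volume_eq_prod,
    Finset.prod_congr rfl fun j _ => hlov j, Finset.prod_const, Finset.card_univ,
    Fintype.card_fin]
  ring

omit hm in
theorem MM_wh (th : Fin (k + 1) → ℝ) {r T : ℝ} (hr : 0 < r) (hT : 0 < T) (E : ℝ) :
    ∫ θ : Fin (k + 1) → ℝ, (∏ j, aa (th j) r (θ j)) * wh T (∑ j, 2 * Real.cos (θ j) - E) =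
      2 * MM th r (2 * T) E - MM th r T E := by
  unfold MM
  rw [← integral_const_mul, ← integral_sub ((MM_int th hr (by positivity) E).const_mul 2)
    (MM_int th hr hT E)]
  refine integral_congr_ae (Filter.Eventually.of_forall fun θ => ?_)
  simp only
  rw [wh_fj hT]
  ring

/-- the main term -/
theorem mtm {c : ℝ} (hc : 0 < c) (hcl : c ≤ r ^ 3 / 32 * (κ * r / (2 * (k + 1)) * r ^ 2) ^ k)
    {K : ℕ} (hK : 8 / κ / 2 ^ K < c / 2) {T E : ℝ} (hT : 1 ≤ T)
    (hE : ∑ j, 2 * Real.cos (th j) = E) : ∃ T' : ℝ, T ≤ T' ∧ T' ≤ 2 ^ K * T ∧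
      c / 2 ≤ ∫ θ : Fin (k + 1) → ℝ, (∏ j, aa (th j) r (θ j)) *
        wh T' (∑ j, 2 * Real.cos (θ j) - E) := by
  have hr := (hm 0).hr
  have hT0 : 0 < T := by linarith only [hT]
  by_contra hcon
  push Not at hcon
  have h2k : ∀ m : ℕ, (1 : ℝ) ≤ 2 ^ m := fun m => one_le_pow₀ (by norm_num)
  have key : ∀ m : ℕ, m ≤ K → MM th r (2 ^ m * T) E ≤ 8 / κ / 2 ^ m + c / 2 := by
    intro m
    induction m with
    | zero =>
      intro _
      rw [pow_zero, one_mul, div_one]
      have := MM_upper hm hT0 E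
      linarith only [hc, this]
    | succ m ih =>
      intro hm'
      have h1 := ih (by omega)
      have h2 := hcon (2 ^ m * T) (le_mul_of_one_le_left hT0.le (h2k m))
        (mul_le_mul_of_nonneg_right (pow_le_pow_right₀ (by norm_num) (by omega)) hT0.le)
      rw [MM_wh th hr (by positivity)] at h2
      have e1 : 2 * (2 ^ m * T) = 2 ^ (m + 1) * T := by ring
      rw [e1] at h2
      have e2 : 8 / κ / 2 ^ (m + 1) = 8 / κ / 2 ^ m / 2 := by
        rw [pow_succ, div_div _ ((2 : ℝ) ^ m)]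
      rw [e2]
      linarith only [h1, h2]
  have h1 := key K le_rfl
  have h2 := MM_lower hm (T := 2 ^ K * T) (one_le_mul_of_one_le_of_one_le (h2k K) hT) hE
  linarith

end multi

end Pool.Agent.LE.H28V
end
end -- Pool.Agent.Helper28_LSP.MTB

section -- Pool.Agent.Helper28_LSP.HHL

/-!
# One coordinate: bounds for `hh`
-/

set_option autoImplicit false

open MeasureTheory Set Complex

noncomputable section

namespace Pool.Agent.LE.H28V

open Pool.Agent.LE.CL

/-- the phase -/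
def ph (t : ℝ) (n : ℤ) (θ : ℝ) : ℝ := n * θ - 2 * t * Real.cos θ

theorem hh_eq (x r t : ℝ) (n : ℤ) : hh x r t n = ∫ θ in (x - r)..(x + r),
    ((r ^ 2 - (θ - x) ^ 2 : ℝ) : ℂ) * cexp (I * ph t n θ) := rfl

theorem ph_deriv (t : ℝ) (n : ℤ) (θ : ℝ) :
    HasDerivAt (ph t n) (n + 2 * t * Real.sin θ) θ := by
  have h := ((hasDerivAt_id θ).const_mul (n : ℝ)).fun_sub ((Real.hasDerivAt_cos θ).const_mul (2 * t))
  refine h.congr_deriv ?_
  ring

theorem ph_deriv2 (t : ℝ) (n : ℤ) (θ : ℝ) :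
    HasDerivAt (fun θ => n + 2 * t * Real.sin θ) (2 * t * Real.cos θ) θ :=
  ((Real.hasDerivAt_sin θ).const_mul (2 * t)).const_add _

theorem cont_ph (t : ℝ) (n : ℤ) : Continuous (ph t n) :=
  continuous_iff_continuousAt.2 fun θ => (ph_deriv t n θ).continuousAt

theorem cont_exp_ph (t : ℝ) (n : ℤ) : Continuous fun θ => cexp (I * ph t n θ) :=
  Complex.continuous_exp.comp (continuous_const.mul (Complex.continuous_ofReal.comp (cont_ph t n)))

theorem norm_exp_I (y : ℝ) : ‖cexp (I * y)‖ = 1 := by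
  rw [mul_comm, Complex.norm_exp_ofReal_mul_I]

/-! ### the derivative in `t` -/

/-- the derivative of `hh` in `t` -/
def hd (x r t : ℝ) (n : ℤ) : ℂ := ∫ θ in (x - r)..(x + r),
    ((r ^ 2 - (θ - x) ^ 2 : ℝ) : ℂ) * (cexp (I * ph t n θ) * (I * (-(2 * Real.cos θ) : ℝ)))

theorem hh_deriv (x r : ℝ) (n : ℤ) (t : ℝ) :
    HasDerivAt (fun t => hh x r t n) (hd x r t n) t := by
  have hd1 : ∀ θ t : ℝ, HasDerivAt (fun t => ((r ^ 2 - (θ - x) ^ 2 : ℝ) : ℂ) *
      cexp (I * ph t n θ)) (((r ^ 2 - (θ - x) ^ 2 : ℝ) : ℂ) *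
        (cexp (I * ph t n θ) * (I * (-(2 * Real.cos θ) : ℝ)))) t := by
    intro θ t
    have h1 : HasDerivAt (fun t : ℝ => ph t n θ) (-(2 * Real.cos θ)) t := by
      have h := (((hasDerivAt_id t).const_mul 2).mul_const (Real.cos θ)).const_sub ((n : ℝ) * θ)
      refine h.congr_deriv ?_
      ring
    exact ((h1.ofReal_comp.const_mul I).cexp).const_mul _
  have hc1 : ∀ t, Continuous fun θ : ℝ => ((r ^ 2 - (θ - x) ^ 2 : ℝ) : ℂ) *
      cexp (I * ph t n θ) := fun t =>
    (Complex.continuous_ofReal.comp (by fun_prop)).mul (cont_exp_ph t n)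
  have hc2 : ∀ t, Continuous fun θ : ℝ => ((r ^ 2 - (θ - x) ^ 2 : ℝ) : ℂ) *
      (cexp (I * ph t n θ) * (I * (-(2 * Real.cos θ) : ℝ))) := fun t =>
    (Complex.continuous_ofReal.comp (by fun_prop)).mul ((cont_exp_ph t n).mul
      (continuous_const.mul (Complex.continuous_ofReal.comp (by fun_prop))))
  refine (intervalIntegral.hasDerivAt_integral_of_dominated_loc_of_deriv_le (μ := volume)
    (F := fun t θ => ((r ^ 2 - (θ - x) ^ 2 : ℝ) : ℂ) * cexp (I * ph t n θ))
    (F' := fun t θ => ((r ^ 2 - (θ - x) ^ 2 : ℝ) : ℂ) *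
      (cexp (I * ph t n θ) * (I * (-(2 * Real.cos θ) : ℝ))))
    (bound := fun θ => |r ^ 2 - (θ - x) ^ 2| * 2) (s := Set.univ) Filter.univ_mem
    (Filter.Eventually.of_forall fun t => (hc1 t).aestronglyMeasurable)
    ((hc1 t).intervalIntegrable _ _) (hc2 t).aestronglyMeasurable
    (Filter.Eventually.of_forall fun θ _ t _ => ?_)
    (Continuous.intervalIntegrable (by fun_prop) _ _)
    (Filter.Eventually.of_forall fun θ _ t _ => hd1 θ t)).2
  rw [norm_mul, norm_mul, norm_exp_I, one_mul, norm_mul, norm_I, one_mul, Complex.norm_real,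
    Complex.norm_real, Real.norm_eq_abs, Real.norm_eq_abs]
  refine mul_le_mul_of_nonneg_left ?_ (abs_nonneg _)
  rw [abs_neg, abs_mul, abs_two]
  have := Real.abs_cos_le_one θ
  linarith only [this]

theorem hd_cont (x r : ℝ) (n : ℤ) : Continuous fun t => hd x r t n := by
  unfold hd
  refine intervalIntegral.continuous_parametric_intervalIntegral_of_continuous' ?_ _ _
  unfold Function.uncurry ph
  fun_prop

/-! ### the norm of `hh` -/

/-- `a` and its derivative -/
theorem aq_deriv (x r θ : ℝ) : HasDerivAt (fun θ : ℝ => ((r ^ 2 - (θ - x) ^ 2 : ℝ) : ℂ))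
    ((-(2 * (θ - x)) : ℝ) : ℂ) θ := by
  have h : HasDerivAt (fun θ : ℝ => r ^ 2 - (θ - x) ^ 2) (-(2 * (θ - x))) θ := by
    have h1 := (((hasDerivAt_id θ).sub_const x).fun_pow 2).const_sub (r ^ 2)
    refine h1.congr_deriv ?_
    simp
  exact h.ofReal_comp

/-- with a bound for the partial integrals of the phase factor -/
theorem hh_le {x r t K : ℝ} {n : ℤ} (hr : 0 < r) (hr2 : r ≤ 1 / 2)
    (hK : ∀ y ∈ Icc (x - r) (x + r), ‖∫ θ in (x - r)..y, cexp (I * ph t n θ)‖ ≤ K) :
    ‖hh x r t n‖ ≤ K := by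
  have hab : x - r ≤ x + r := by linarith only [hr]
  have hK0 : 0 ≤ K := (norm_nonneg _).trans (hK _ (left_mem_Icc.2 hab))
  rw [hh_eq]
  refine (amp (g' := fun θ => ((-(2 * (θ - x)) : ℝ) : ℂ)) hab (cont_exp_ph t n).continuousOn
    (fun θ _ => aq_deriv x r θ)
    (Complex.continuous_ofReal.comp (by fun_prop)).continuousOn hK).trans ?_
  have e1 : ((r ^ 2 - (x + r - x) ^ 2 : ℝ) : ℂ) = 0 := by
    rw [show r ^ 2 - (x + r - x) ^ 2 = 0 by ring]
    simp
  rw [e1, norm_zero, zero_add]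
  have e2 : ∫ θ in (x - r)..(x + r), ‖((-(2 * (θ - x)) : ℝ) : ℂ)‖ ≤
      ∫ _θ in (x - r)..(x + r), (2 * r : ℝ) := by
    refine intervalIntegral.integral_mono_on hab ?_ ?_ ?_
    · exact (Complex.continuous_ofReal.comp (by fun_prop)).norm.intervalIntegrable _ _
    · exact continuous_const.intervalIntegrable _ _
    · intro θ hθ
      rw [Complex.norm_real, Real.norm_eq_abs, abs_neg, abs_mul, abs_two]
      have : |θ - x| ≤ r := abs_le.2 ⟨by linarith only [hθ.1], by linarith [hθ.2]⟩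
      linarith only [this]
  rw [intervalIntegral.integral_const, smul_eq_mul] at e2
  have e3 : (x + r - (x - r)) * (2 * r) ≤ 1 := by nlinarith only [hr, hr2]
  calc K * _ ≤ K * 1 := mul_le_mul_of_nonneg_left (e2.trans e3) hK0
    _ = K := mul_one K

/-- the conditions on the base point: `[x - 2r, x + 2r]` is inside `[0, π/2]`, the sine and the
cosine are at least `κ` there -/
structure Bp (x r κ : ℝ) : Prop where
  hr : 0 < r
  hr2 : r ≤ 1 / 2
  hκ : 0 < κ
  hκ1 : κ ≤ 1
  lo : 0 ≤ x - 2 * r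
  hi : x + 2 * r ≤ Real.pi / 2
  hcos : ∀ θ ∈ Icc (x - 2 * r) (x + 2 * r), κ ≤ Real.cos θ
  hsin : ∀ θ ∈ Icc (x - 2 * r) (x + 2 * r), κ ≤ Real.sin θ

section bp

variable {x r κ : ℝ} (hb : Bp x r κ)
include hb

theorem Bp.sub {θ : ℝ} (h : θ ∈ Icc (x - r) (x + r)) : θ ∈ Icc (x - 2 * r) (x + 2 * r) :=
  ⟨by linarith [h.1, hb.hr], by linarith [h.2, hb.hr]⟩

/-- the partial integrals, second derivative -/
theorem Bp.part {t : ℝ} (ht : 0 < t) (n : ℤ) {y : ℝ} (hy : y ∈ Icc (x - r) (x + r)) :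
    ‖∫ θ in (x - r)..y, cexp (I * ph t n θ)‖ ≤ 8 / (κ * Real.sqrt t) := by
  have hκ := hb.hκ
  have h := vdc2 (F := ph t n) (F1 := fun θ => n + 2 * t * Real.sin θ)
    (F2 := fun θ => 2 * t * Real.cos θ) (a := x - r) (b := y) (mu := κ ^ 2 * t) hy.1
    (fun θ _ => ph_deriv t n θ) (fun θ _ => ph_deriv2 t n θ)
    (Continuous.continuousOn (by fun_prop)) (by positivity) (fun θ hθ => by
      have h1 := hb.hcos θ (hb.sub ⟨hθ.1, hθ.2.trans hy.2⟩)
      have h2 : κ ^ 2 ≤ κ := by nlinarith only [hb.hκ1, hκ]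
      nlinarith only [mul_le_mul_of_nonneg_right h1 ht.le, mul_le_mul_of_nonneg_right h2 ht.le, ht, h1, h2])
  rw [Real.sqrt_mul (by positivity), Real.sqrt_sq hκ.le] at h
  exact h

/-- (H1) -/
theorem Bp.h1 {t : ℝ} (ht : 0 < t) (n : ℤ) : ‖hh x r t n‖ ≤ 8 / (κ * Real.sqrt t) :=
  hh_le hb.hr hb.hr2 fun _ hy => hb.part ht n hy

/-- the sine grows -/
theorem Bp.sin_grow {p q : ℝ} (hp : p ∈ Icc (x - 2 * r) (x + 2 * r))
    (hq : q ∈ Icc (x - 2 * r) (x + 2 * r)) (hpq : p ≤ q) :
    κ * (q - p) ≤ Real.sin q - Real.sin p := by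
  refine (convex_Icc (x - 2 * r) (x + 2 * r)).mul_sub_le_image_sub_of_le_deriv
    Real.continuous_sin.continuousOn Real.differentiable_sin.differentiableOn ?_ p hp q hq hpq
  intro z hz
  rw [Real.deriv_sin]
  rw [interior_Icc] at hz
  exact hb.hcos z (Ioo_subset_Icc_self hz)

/-- (H2) -/
theorem Bp.h2 {t : ℝ} (ht : 0 < t) (n : ℤ)
    (hn : ¬ (2 * t * Real.sin (x - 2 * r) ≤ -(n : ℝ) ∧ -(n : ℝ) ≤ 2 * t * Real.sin (x + 2 * r))) :
    ‖hh x r t n‖ ≤ 4 / (κ * r * t) := by
  have hκ := hb.hκ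
  have hr := hb.hr
  have hl : x - 2 * r ∈ Icc (x - 2 * r) (x + 2 * r) := left_mem_Icc.2 (by linarith)
  have hrr : x + 2 * r ∈ Icc (x - 2 * r) (x + 2 * r) := right_mem_Icc.2 (by linarith)
  refine hh_le hb.hr hb.hr2 fun y hy => ?_
  refine vdc1 (F := ph t n) (F1 := fun θ => n + 2 * t * Real.sin θ)
    (F2 := fun θ => 2 * t * Real.cos θ) hy.1
    (fun θ _ => ph_deriv t n θ) (fun θ _ => ph_deriv2 t n θ)
    (Continuous.continuousOn (by fun_prop)) (fun θ hθ => ?_) (by positivity) (fun θ hθ => ?_)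
  · have h1 := hb.hcos θ (hb.sub ⟨hθ.1, hθ.2.trans hy.2⟩)
    exact mul_nonneg (by positivity) (hκ.le.trans h1)
  · have hθ' : θ ∈ Icc (x - r) (x + r) := ⟨hθ.1, hθ.2.trans hy.2⟩
    rcases not_and_or.1 hn with h | h
    · push Not at h
      have h1 := hb.sin_grow hl (hb.sub hθ') (hb.sub hθ').1
      have h2 : κ * r ≤ κ * (θ - (x - 2 * r)) :=
        mul_le_mul_of_nonneg_left (by linarith [hθ'.1]) hκ.le
      refine le_trans ?_ (le_abs_self _)
      nlinarith only [mul_le_mul_of_nonneg_left (h2.trans h1) ht.le, mul_pos (mul_pos hκ hr) ht, h]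
    · push Not at h
      have h1 := hb.sin_grow (hb.sub hθ') hrr (hb.sub hθ').2
      have h2 : κ * r ≤ κ * ((x + 2 * r) - θ) :=
        mul_le_mul_of_nonneg_left (by linarith [hθ'.2]) hκ.le
      refine le_trans ?_ (neg_le_abs _)
      nlinarith only [mul_le_mul_of_nonneg_left (h2.trans h1) ht.le, mul_pos (mul_pos hκ hr) ht, h]

end bp

end Pool.Agent.LE.H28V
end
end -- Pool.Agent.Helper28_LSP.HHL

section -- Pool.Agent.Helper28_LSP.HHM

/-!
# One coordinate: the amplitude
-/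

set_option autoImplicit false

open MeasureTheory Set Complex

noncomputable section

namespace Pool.Agent.LE.H28V

open Pool.Agent.LE.CL

/-- `(2 cos s - 2 cos θ) = tan ((θ + s) / 2) (2 sin θ - 2 sin s)` -/
theorem tan_id {θ s : ℝ} (h : Real.cos ((θ + s) / 2) ≠ 0) :
    2 * Real.cos s - 2 * Real.cos θ =
      Real.tan ((θ + s) / 2) * (2 * Real.sin θ - 2 * Real.sin s) := by
  have h1 := Real.cos_sub_cos s θ
  have h2 := Real.sin_sub_sin θ s
  rw [Real.tan_eq_sin_div_cos]
  have e1 : (s + θ) / 2 = (θ + s) / 2 := by ring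
  have e2 : (s - θ) / 2 = -((θ - s) / 2) := by ring
  rw [e1, e2, Real.sin_neg] at h1
  have e3 : 2 * Real.cos s - 2 * Real.cos θ = 2 * (Real.cos s - Real.cos θ) := by ring
  have e4 : 2 * Real.sin θ - 2 * Real.sin s = 2 * (Real.sin θ - Real.sin s) := by ring
  rw [e3, e4, h1, h2]
  field_simp

section q

variable (x r s : ℝ)

def q0 (θ : ℝ) : ℝ := (r ^ 2 - (θ - x) ^ 2) * Real.tan ((θ + s) / 2)

def q1 (θ : ℝ) : ℝ := -(2 * (θ - x)) * Real.tan ((θ + s) / 2) +
  (r ^ 2 - (θ - x) ^ 2) * (1 / Real.cos ((θ + s) / 2) ^ 2 / 2)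

def q2 (θ : ℝ) : ℝ := -2 * Real.tan ((θ + s) / 2) +
  -(2 * (θ - x)) * (1 / Real.cos ((θ + s) / 2) ^ 2 / 2) +
  (-(2 * (θ - x)) * (1 / Real.cos ((θ + s) / 2) ^ 2 / 2) +
  (r ^ 2 - (θ - x) ^ 2) * (Real.sin ((θ + s) / 2) / Real.cos ((θ + s) / 2) ^ 3 / 2))

variable {x r s}

theorem half_deriv (θ : ℝ) : HasDerivAt (fun θ : ℝ => (θ + s) / 2) (1 / 2) θ := by
  have h := ((hasDerivAt_id θ).add_const s).div_const 2
  exact h

theorem a_deriv (θ : ℝ) : HasDerivAt (fun θ : ℝ => r ^ 2 - (θ - x) ^ 2) (-(2 * (θ - x))) θ := by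
  have h1 := (((hasDerivAt_id θ).sub_const x).fun_pow 2).const_sub (r ^ 2)
  refine h1.congr_deriv ?_
  simp

theorem a_deriv2 (θ : ℝ) : HasDerivAt (fun θ : ℝ => -(2 * (θ - x))) (-2) θ := by
  have h1 := ((((hasDerivAt_id θ).sub_const x).const_mul 2)).fun_neg
  refine h1.congr_deriv ?_
  ring

theorem tan_deriv {θ : ℝ} (h : Real.cos ((θ + s) / 2) ≠ 0) :
    HasDerivAt (fun θ : ℝ => Real.tan ((θ + s) / 2)) (1 / Real.cos ((θ + s) / 2) ^ 2 / 2) θ := by
  have h1 := (Real.hasDerivAt_tan h).comp θ (half_deriv (s := s) θ)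
  refine h1.congr_deriv ?_
  ring

theorem sec_deriv {θ : ℝ} (h : Real.cos ((θ + s) / 2) ≠ 0) :
    HasDerivAt (fun θ : ℝ => 1 / Real.cos ((θ + s) / 2) ^ 2 / 2)
      (Real.sin ((θ + s) / 2) / Real.cos ((θ + s) / 2) ^ 3 / 2) θ := by
  have h1 := (Real.hasDerivAt_cos ((θ + s) / 2)).comp θ (half_deriv (s := s) θ)
  have h2 := (((h1.fun_pow 2).fun_inv (pow_ne_zero 2 h)).div_const 2)
  have e : (fun θ : ℝ => 1 / Real.cos ((θ + s) / 2) ^ 2 / 2) =
      fun y : ℝ => ((Real.cos ∘ fun θ : ℝ => (θ + s) / 2) y ^ 2)⁻¹ / 2 := by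
    funext y
    simp [Function.comp]
  rw [e]
  refine h2.congr_deriv ?_
  simp only [Function.comp]
  field_simp
  push_cast
  ring

theorem q0_deriv {θ : ℝ} (h : Real.cos ((θ + s) / 2) ≠ 0) :
    HasDerivAt (q0 x r s) (q1 x r s θ) θ := (a_deriv θ).mul (tan_deriv h)

theorem q1_deriv {θ : ℝ} (h : Real.cos ((θ + s) / 2) ≠ 0) :
    HasDerivAt (q1 x r s) (q2 x r s θ) θ :=
  ((a_deriv2 θ).mul (tan_deriv h)).add ((a_deriv θ).mul (sec_deriv h))

end q

section bp

variable {x r κ : ℝ} (hb : Bp x r κ)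
include hb

theorem Bp.cosh {θ s : ℝ} (hθ : θ ∈ Icc (x - r) (x + r)) (hs : s ∈ Icc (x - 2 * r) (x + 2 * r)) :
    κ ≤ Real.cos ((θ + s) / 2) := by
  have h := hb.sub hθ
  exact hb.hcos _ ⟨by linarith only [h.1, hs.1], by linarith only [h.2, hs.2]⟩

theorem Bp.q_bound {θ s : ℝ} (hθ : θ ∈ Icc (x - r) (x + r))
    (hs : s ∈ Icc (x - 2 * r) (x + 2 * r)) :
    |q1 x r s θ| ≤ 2 / κ ^ 3 ∧ |q2 x r s θ| ≤ 4 / κ ^ 3 := by
  have hκ := hb.hκ
  have hκ1 := hb.hκ1
  have hc := hb.cosh hθ hs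
  have hc0 : 0 < Real.cos ((θ + s) / 2) := hκ.trans_le hc
  have hθx : |θ - x| ≤ r := abs_le.2 ⟨by linarith [hθ.1], by linarith [hθ.2]⟩
  have ha1 : |(-(2 * (θ - x)))| ≤ 1 := by
    rw [abs_neg, abs_mul, abs_two]
    linarith only [hb.hr2, hθx]
  have ha0 : |r ^ 2 - (θ - x) ^ 2| ≤ 1 := by
    have h1 : (θ - x) ^ 2 ≤ r ^ 2 := sq_le_sq' (by linarith [(abs_le.1 hθx).1])
      (abs_le.1 hθx).2
    have h2 : r ^ 2 ≤ 1 := by nlinarith only [hb.hr, hb.hr2]
    rw [abs_of_nonneg (by linarith)]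
    nlinarith only [sq_nonneg (θ - x), h2]
  have hk1 : 1 ≤ 1 / κ := by rw [le_div_iff₀ hκ]; linarith
  have htan : |Real.tan ((θ + s) / 2)| ≤ 1 / κ := by
    rw [Real.tan_eq_sin_div_cos, abs_div, abs_of_pos hc0]
    exact div_le_div₀ zero_le_one (Real.abs_sin_le_one _) hκ hc
  have hsec : |1 / Real.cos ((θ + s) / 2) ^ 2 / 2| ≤ 1 / κ ^ 2 / 2 := by
    rw [abs_of_nonneg (by positivity)]
    have := one_div_le_one_div_of_le (by positivity : 0 < κ ^ 2)
      (pow_le_pow_left₀ hκ.le hc 2)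
    linarith only [this]
  have hsc : |Real.sin ((θ + s) / 2) / Real.cos ((θ + s) / 2) ^ 3 / 2| ≤ 1 / κ ^ 3 / 2 := by
    rw [abs_div, abs_div, abs_two, abs_of_pos (show 0 < Real.cos ((θ + s) / 2) ^ 3 by positivity)]
    have := div_le_div₀ zero_le_one (Real.abs_sin_le_one ((θ + s) / 2))
      (by positivity : 0 < κ ^ 3) (pow_le_pow_left₀ hκ.le hc 3)
    linarith only [this]
  have p1 : 1 / κ ≤ 1 / κ ^ 3 := by
    apply one_div_le_one_div_of_le (by positivity)
    have : κ ^ 3 = κ * κ * κ := by ring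
    rw [this]
    nlinarith only [mul_pos hκ hκ, hκ, hκ1]
  have p2 : 1 / κ ^ 2 ≤ 1 / κ ^ 3 := by
    apply one_div_le_one_div_of_le (by positivity)
    have : κ ^ 3 = κ ^ 2 * κ := by ring
    rw [this]
    nlinarith only [mul_pos hκ hκ, hκ1]
  have mul1 : ∀ u v w : ℝ, |u| ≤ 1 → |v| ≤ w → |u * v| ≤ w := by
    intro u v w h1 h2
    rw [abs_mul]
    calc |u| * |v| ≤ 1 * |v| := mul_le_mul_of_nonneg_right h1 (abs_nonneg _)
      _ ≤ w := by rw [one_mul]; exact h2
  have hP : 0 < 1 / κ ^ 3 := by positivity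
  constructor
  · unfold q1
    refine (abs_add_le _ _).trans ?_
    have e1 := mul1 _ _ _ ha1 htan
    have e2 := mul1 _ _ _ ha0 hsec
    have e3 : 2 / κ ^ 3 = 1 / κ ^ 3 + 1 / κ ^ 3 := by ring
    rw [e3]
    linarith only [hk1, p1, p2, e1, e2]
  · unfold q2
    have e1 : |(-2) * Real.tan ((θ + s) / 2)| ≤ 2 * (1 / κ) := by
      rw [abs_mul, abs_neg, abs_two]
      linarith only [htan]
    have e2 := mul1 _ _ _ ha1 hsec
    have e3 := mul1 _ _ _ ha0 hsc
    have e4 : 4 / κ ^ 3 = 4 * (1 / κ ^ 3) := by ring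
    rw [e4]
    refine (abs_add_le _ _).trans ?_
    refine (add_le_add (abs_add_le _ _) (abs_add_le _ _)).trans ?_
    linarith

/-- the amplitude derivative is small -/
theorem Bp.amp_deriv {t s : ℝ} (ht : 0 < t) {n : ℤ} (hs : s ∈ Icc (x - 2 * r) (x + 2 * r))
    (hn : 2 * t * Real.sin s = -(n : ℝ)) :
    ‖hd x r t n + I * (2 * Real.cos s : ℝ) * hh x r t n‖ ≤ 48 / (κ ^ 4 * (t * Real.sqrt t)) := by
  have hκ := hb.hκ
  have hr := hb.hr
  have hab : x - r ≤ x + r := by linarith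
  have huI : uIcc (x - r) (x + r) = Icc (x - r) (x + r) := uIcc_of_le hab
  have hne : ∀ θ ∈ Icc (x - r) (x + r), Real.cos ((θ + s) / 2) ≠ 0 := fun θ hθ =>
    (hκ.trans_le (hb.cosh hθ hs)).ne'
  have hq0d : ∀ θ ∈ Icc (x - r) (x + r), HasDerivAt (fun θ => (q0 x r s θ : ℂ))
      (q1 x r s θ : ℂ) θ := fun θ hθ => (q0_deriv (hne θ hθ)).ofReal_comp
  have hq1d : ∀ θ ∈ Icc (x - r) (x + r), HasDerivAt (fun θ => (q1 x r s θ : ℂ))
      (q2 x r s θ : ℂ) θ := fun θ hθ => (q1_deriv (hne θ hθ)).ofReal_comp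
  have hq1c : ContinuousOn (fun θ => (q1 x r s θ : ℂ)) (Icc (x - r) (x + r)) := fun θ hθ =>
    (hq1d θ hθ).continuousAt.continuousWithinAt
  have htanc : ContinuousOn (fun θ : ℝ => Real.tan ((θ + s) / 2)) (Icc (x - r) (x + r)) :=
    fun θ hθ => (tan_deriv (hne θ hθ)).continuousAt.continuousWithinAt
  have hcc : ContinuousOn (fun θ : ℝ => Real.cos ((θ + s) / 2)) (Icc (x - r) (x + r)) :=
    Continuous.continuousOn (by fun_prop)
  have hsecc : ContinuousOn (fun θ : ℝ => 1 / Real.cos ((θ + s) / 2) ^ 2 / 2)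
      (Icc (x - r) (x + r)) := fun θ hθ => (sec_deriv (hne θ hθ)).continuousAt.continuousWithinAt
  have hscc : ContinuousOn (fun θ : ℝ => Real.sin ((θ + s) / 2) / Real.cos ((θ + s) / 2) ^ 3 / 2)
      (Icc (x - r) (x + r)) :=
    ((Continuous.continuousOn (by fun_prop)).div (hcc.pow 3)
      fun θ hθ => pow_ne_zero 3 (hne θ hθ)).div_const 2
  have hq2r : ContinuousOn (q2 x r s) (Icc (x - r) (x + r)) := by
    unfold q2
    refine ((continuousOn_const.mul htanc).add ((Continuous.continuousOn (by fun_prop)).mul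
      hsecc)).add (((Continuous.continuousOn (by fun_prop)).mul hsecc).add
      ((Continuous.continuousOn (by fun_prop)).mul hscc))
  have hq2c : ContinuousOn (fun θ => (q2 x r s θ : ℂ)) (Icc (x - r) (x + r)) :=
    Complex.continuous_ofReal.comp_continuousOn hq2r
  set v : ℝ → ℂ := fun θ => cexp (I * ph t n θ) with hv
  set v' : ℝ → ℂ := fun θ => cexp (I * ph t n θ) * (I * (n + 2 * t * Real.sin θ : ℝ)) with hv'
  have hvd : ∀ θ ∈ uIcc (x - r) (x + r), HasDerivAt v (v' θ) θ := fun θ _ =>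
    ((ph_deriv t n θ).ofReal_comp.const_mul I).cexp
  have hv'c : Continuous v' := (cont_exp_ph t n).mul (continuous_const.mul
    (Complex.continuous_ofReal.comp (by fun_prop)))
  have key := intervalIntegral.integral_mul_deriv_eq_deriv_mul
    (u := fun θ => (q0 x r s θ : ℂ)) (v := v) (u' := fun θ => (q1 x r s θ : ℂ)) (v' := v')
    (a := x - r) (b := x + r) (fun θ hθ => hq0d θ (huI ▸ hθ)) hvd
    (ContinuousOn.intervalIntegrable (huI ▸ hq1c)) (hv'c.intervalIntegrable _ _)
  have z1 : q0 x r s (x + r) = 0 := by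
    unfold q0
    rw [show r ^ 2 - (x + r - x) ^ 2 = 0 by ring, zero_mul]
  have z2 : q0 x r s (x - r) = 0 := by
    unfold q0
    rw [show r ^ 2 - (x - r - x) ^ 2 = 0 by ring, zero_mul]
  rw [z1, z2, ofReal_zero, zero_mul, zero_mul, sub_zero, zero_sub] at key
  have hc1 : Continuous fun θ : ℝ => ((r ^ 2 - (θ - x) ^ 2 : ℝ) : ℂ) * cexp (I * ph t n θ) :=
    (Complex.continuous_ofReal.comp (by fun_prop)).mul (cont_exp_ph t n)
  have hc2 : Continuous fun θ : ℝ => ((r ^ 2 - (θ - x) ^ 2 : ℝ) : ℂ) *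
      (cexp (I * ph t n θ) * (I * (-(2 * Real.cos θ) : ℝ))) :=
    (Complex.continuous_ofReal.comp (by fun_prop)).mul ((cont_exp_ph t n).mul
      (continuous_const.mul (Complex.continuous_ofReal.comp (by fun_prop))))
  have hc3 : Continuous fun θ : ℝ => I * ((2 * Real.cos s : ℝ) : ℂ) *
      (((r ^ 2 - (θ - x) ^ 2 : ℝ) : ℂ) * cexp (I * ph t n θ)) := continuous_const.mul hc1
  have e1 : hd x r t n + I * (2 * Real.cos s : ℝ) * hh x r t n =
      ((t⁻¹ : ℝ) : ℂ) * ∫ θ in (x - r)..(x + r), (q0 x r s θ : ℂ) * v' θ := by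
    rw [hh_eq, hd, ← intervalIntegral.integral_const_mul, ← intervalIntegral.integral_add
      (hc2.intervalIntegrable _ _) (hc3.intervalIntegrable _ _),
      ← intervalIntegral.integral_const_mul]
    refine intervalIntegral.integral_congr fun θ hθ => ?_
    rw [huI] at hθ
    have h1 := tan_id (hne θ hθ)
    have h2 : ((2 * Real.cos s - 2 * Real.cos θ : ℝ) : ℂ) = ((t⁻¹ * (Real.tan ((θ + s) / 2) *
        (n + 2 * t * Real.sin θ)) : ℝ) : ℂ) := by
      rw [h1]
      congr 1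
      have h3 : (n : ℝ) + 2 * t * Real.sin θ = t * (2 * Real.sin θ - 2 * Real.sin s) := by
        rw [show (n : ℝ) = -(2 * t * Real.sin s) by rw [hn]; ring]
        ring
      rw [h3]
      field_simp
    change ((r ^ 2 - (θ - x) ^ 2 : ℝ) : ℂ) * (cexp (I * ph t n θ) * (I * (-(2 * Real.cos θ) : ℝ))) +
      I * (2 * Real.cos s : ℝ) * (((r ^ 2 - (θ - x) ^ 2 : ℝ) : ℂ) * cexp (I * ph t n θ)) =
      ((t⁻¹ : ℝ) : ℂ) * (((r ^ 2 - (θ - x) ^ 2) * Real.tan ((θ + s) / 2) : ℝ) *
        (cexp (I * ph t n θ) * (I * (n + 2 * t * Real.sin θ : ℝ))))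
    have h4 : ((r ^ 2 - (θ - x) ^ 2 : ℝ) : ℂ) * (cexp (I * ph t n θ) *
        (I * (-(2 * Real.cos θ) : ℝ))) +
      I * (2 * Real.cos s : ℝ) * (((r ^ 2 - (θ - x) ^ 2 : ℝ) : ℂ) * cexp (I * ph t n θ)) =
      ((r ^ 2 - (θ - x) ^ 2 : ℝ) : ℂ) * cexp (I * ph t n θ) * I *
        ((2 * Real.cos s - 2 * Real.cos θ : ℝ) : ℂ) := by
      push_cast
      ring
    rw [h4, h2]
    push_cast
    ring
  rw [e1, key, norm_mul, Complex.norm_real, Real.norm_of_nonneg (by positivity), norm_neg]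
  have h5 := amp (f := v) (g := fun θ => (q1 x r s θ : ℂ)) (g' := fun θ => (q2 x r s θ : ℂ)) hab
    (cont_exp_ph t n).continuousOn hq1d hq2c (fun y hy => hb.part ht n hy)
  have h6 : ‖((q1 x r s (x + r) : ℝ) : ℂ)‖ ≤ 2 / κ ^ 3 := by
    rw [Complex.norm_real]
    exact (hb.q_bound (right_mem_Icc.2 hab) hs).1
  have h7 : ∫ θ in (x - r)..(x + r), ‖(q2 x r s θ : ℂ)‖ ≤ 4 / κ ^ 3 := by
    have h8 : ∫ θ in (x - r)..(x + r), ‖(q2 x r s θ : ℂ)‖ ≤
        ∫ _θ in (x - r)..(x + r), (4 / κ ^ 3 : ℝ) := by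
      refine intervalIntegral.integral_mono_on hab ?_ ?_ ?_
      · exact ContinuousOn.intervalIntegrable (huI ▸ hq2c.norm)
      · exact continuous_const.intervalIntegrable _ _
      · intro θ hθ
        rw [Complex.norm_real]
        exact (hb.q_bound hθ hs).2
    rw [intervalIntegral.integral_const, smul_eq_mul] at h8
    refine h8.trans ?_
    have : 0 < 4 / κ ^ 3 := by positivity
    nlinarith only [hb.hr2, this]
  have h8 : ‖∫ θ in (x - r)..(x + r), (q1 x r s θ : ℂ) * v θ‖ ≤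
      8 / (κ * Real.sqrt t) * (6 / κ ^ 3) := by
    refine h5.trans (mul_le_mul_of_nonneg_left ?_ (by positivity))
    have e6 : 6 / κ ^ 3 = 2 / κ ^ 3 + 4 / κ ^ 3 := by ring
    rw [e6]
    exact add_le_add h6 h7
  calc t⁻¹ * ‖∫ θ in (x - r)..(x + r), (q1 x r s θ : ℂ) * v θ‖
      ≤ t⁻¹ * (8 / (κ * Real.sqrt t) * (6 / κ ^ 3)) :=
        mul_le_mul_of_nonneg_left h8 (by positivity)
    _ = 48 / (κ ^ 4 * (t * Real.sqrt t)) := by
        have : 0 < Real.sqrt t := Real.sqrt_pos.2 ht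
        field_simp
        ring

end bp

end Pool.Agent.LE.H28V
end
end -- Pool.Agent.Helper28_LSP.HHM

section -- Pool.Agent.Helper28_LSP.HHN

/-!
# One coordinate: phase and amplitude
-/

set_option autoImplicit false

open MeasureTheory Set Complex

noncomputable section

namespace Pool.Agent.LE.H28V

open Pool.Agent.LE.CL

/-- the critical angle -/
def tha (n : ℤ) (t : ℝ) : ℝ := Real.arcsin (-(n : ℝ) / (2 * t))

/-- the times with a critical point -/
def Rg (x r : ℝ) (n : ℤ) (t : ℝ) : Prop :=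
  2 * t * Real.sin (x - 2 * r) ≤ -(n : ℝ) ∧ -(n : ℝ) ≤ 2 * t * Real.sin (x + 2 * r)

/-- the phase -/
def p0 (n : ℤ) (t : ℝ) : ℝ := ph t n (tha n t)

/-- the second derivative of the phase -/
def p2 (n : ℤ) (t : ℝ) : ℝ := -(2 * (Real.sin (tha n t) ^ 2 / Real.cos (tha n t)) / t)

/-- the amplitude -/
def bm (x r : ℝ) (n : ℤ) (t : ℝ) : ℂ := hh x r t n * cexp (-(I * p0 n t))

/-- the derivative of the amplitude -/
def bm1 (x r : ℝ) (n : ℤ) (t : ℝ) : ℂ :=
  (hd x r t n + I * (2 * Real.cos (tha n t) : ℝ) * hh x r t n) * cexp (-(I * p0 n t))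

section bp

variable {x r κ : ℝ} (hb : Bp x r κ) {n : ℤ} {t : ℝ} (ht : 0 < t) (hR : Rg x r n t)
include hb ht hR

theorem Bp.tha_mem : tha n t ∈ Icc (x - 2 * r) (x + 2 * r) := by
  have hπ := Real.pi_pos
  have h1 : Real.sin (x - 2 * r) ≤ -(n : ℝ) / (2 * t) := by
    rw [le_div_iff₀ (by positivity)]
    linarith [hR.1]
  have h2 : -(n : ℝ) / (2 * t) ≤ Real.sin (x + 2 * r) := by
    rw [div_le_iff₀ (by positivity)]
    linarith only [hR.2]
  have h3 := Real.monotone_arcsin h1
  have h4 := Real.monotone_arcsin h2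
  rw [Real.arcsin_sin (by linarith only [hb.lo, hπ]) (by linarith only [hb.hi, hb.hr])] at h3
  rw [Real.arcsin_sin (by linarith only [hb.lo, hb.hr, hπ]) hb.hi] at h4
  exact ⟨h3, h4⟩

theorem Bp.y_mem : -1 < -(n : ℝ) / (2 * t) ∧ -(n : ℝ) / (2 * t) < 1 := by
  have hr := hb.hr
  have hl : x - 2 * r ∈ Icc (x - 2 * r) (x + 2 * r) := left_mem_Icc.2 (by linarith only [hr])
  have hrr : x + 2 * r ∈ Icc (x - 2 * r) (x + 2 * r) := right_mem_Icc.2 (by linarith)
  have h1 : Real.sin (x - 2 * r) ≤ -(n : ℝ) / (2 * t) := by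
    rw [le_div_iff₀ (by positivity)]
    linarith [hR.1]
  have h2 : -(n : ℝ) / (2 * t) ≤ Real.sin (x + 2 * r) := by
    rw [div_le_iff₀ (by positivity)]
    linarith [hR.2]
  have h3 := hb.hsin _ hl
  have h4 := hb.hcos _ hrr
  have h5 := Real.sin_sq_add_cos_sq (x + 2 * r)
  have h6 : Real.sin (x + 2 * r) < 1 := by
    by_contra h
    push Not at h
    nlinarith only [hb.hκ, mul_pos hb.hκ hb.hκ, h4, h5, h]
  constructor
  · linarith only [hb.hκ, h1, h3]
  · linarith

theorem Bp.sin_tha : 2 * t * Real.sin (tha n t) = -(n : ℝ) := by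
  have h := hb.y_mem ht hR
  unfold tha
  rw [Real.sin_arcsin h.1.le h.2.le]
  field_simp

theorem Bp.cos_tha_pos : 0 < Real.cos (tha n t) := hb.hκ.trans_le (hb.hcos _ (hb.tha_mem ht hR))

theorem Bp.tha_deriv : HasDerivAt (tha n)
    (-(Real.sin (tha n t) / Real.cos (tha n t) / t)) t := by
  have hy := hb.y_mem ht hR
  have hc := hb.cos_tha_pos ht hR
  have h1 : HasDerivAt (fun t : ℝ => -(n : ℝ) / (2 * t)) (-(Real.sin (tha n t) / t)) t := by
    have h2 := (((hasDerivAt_id t).const_mul (2 : ℝ)).fun_inv (by simpa using ht.ne')).const_mul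
      (-(n : ℝ))
    have e : (fun t : ℝ => -(n : ℝ) / (2 * t)) = fun y => -(n : ℝ) * (2 * id y)⁻¹ := by
      funext y
      simp [div_eq_mul_inv]
    rw [e]
    refine h2.congr_deriv ?_
    rw [← hb.sin_tha ht hR]
    simp only [id]
    field_simp
  have h3 := (Real.hasDerivAt_arcsin hy.1.ne' hy.2.ne).comp t h1
  refine h3.congr_deriv ?_
  have h4 : Real.sqrt (1 - (-(n : ℝ) / (2 * t)) ^ 2) = Real.cos (tha n t) := by
    unfold tha
    rw [Real.cos_arcsin]
  rw [h4]
  field_simp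

theorem Bp.p0_deriv : HasDerivAt (p0 n) (-(2 * Real.cos (tha n t))) t := by
  have h1 := hb.tha_deriv ht hR
  have h2 := hb.sin_tha ht hR
  have h3 := (h1.const_mul (n : ℝ)).fun_sub
    (((hasDerivAt_id t).const_mul (2 : ℝ)).fun_mul ((Real.hasDerivAt_cos _).comp t h1))
  refine HasDerivAt.congr_deriv (f := fun y => (n : ℝ) * tha n y - 2 * id y *
    (Real.cos ∘ tha n) y) h3 ?_
  simp only [id, Function.comp]
  rw [show (n : ℝ) = -(2 * t * Real.sin (tha n t)) by rw [h2]; ring]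
  ring

theorem Bp.p1_deriv : HasDerivAt (fun t => -(2 * Real.cos (tha n t))) (p2 n t) t := by
  have h1 := hb.tha_deriv ht hR
  have h3 := (((Real.hasDerivAt_cos _).comp t h1).const_mul (2 : ℝ)).fun_neg
  refine HasDerivAt.congr_deriv (f := fun y => -(2 * (Real.cos ∘ tha n) y)) h3 ?_
  unfold p2
  ring

theorem Bp.p2_cont : ContinuousAt (p2 n) t := by
  have h1 := (hb.tha_deriv ht hR).continuousAt
  have hc := hb.cos_tha_pos ht hR
  unfold p2
  have hs : ContinuousAt (fun t => Real.sin (tha n t)) t :=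
    Real.continuous_sin.continuousAt.comp h1
  have hcc : ContinuousAt (fun t => Real.cos (tha n t)) t :=
    Real.continuous_cos.continuousAt.comp h1
  exact ((continuousAt_const.mul ((hs.pow 2).div hcc hc.ne')).div continuousAt_id ht.ne').neg

theorem Bp.bm_deriv : HasDerivAt (bm x r n) (bm1 x r n t) t := by
  have h1 := hb.p0_deriv ht hR
  have h2 := (hh_deriv x r n t).mul ((h1.ofReal_comp.const_mul I).fun_neg.cexp)
  refine HasDerivAt.congr_deriv (f := bm x r n) h2 ?_
  unfold bm1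
  push_cast
  ring

theorem Bp.bm1_cont : ContinuousAt (bm1 x r n) t := by
  have h1 := (hb.tha_deriv ht hR).continuousAt
  have h0 := (hb.p0_deriv ht hR).continuousAt
  have hcc : ContinuousAt (fun t => ((2 * Real.cos (tha n t) : ℝ) : ℂ)) t :=
    Complex.continuous_ofReal.continuousAt.comp
      (continuousAt_const.mul (Real.continuous_cos.continuousAt.comp h1))
  have he : ContinuousAt (fun t => cexp (-(I * p0 n t))) t :=
    Complex.continuous_exp.continuousAt.comp
      (continuousAt_const.mul (Complex.continuous_ofReal.continuousAt.comp h0)).neg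
  exact ((hd_cont x r n).continuousAt.add ((continuousAt_const.mul hcc).mul
    (hh_deriv x r n t).continuousAt)).mul he

theorem Bp.bm1_le : ‖bm1 x r n t‖ ≤ 48 / (κ ^ 4 * (t * Real.sqrt t)) := by
  unfold bm1
  rw [norm_mul, ← mul_neg, ← Complex.ofReal_neg, norm_exp_I, mul_one]
  exact hb.amp_deriv ht (hb.tha_mem ht hR) (hb.sin_tha ht hR)

end bp

theorem bm_norm (x r : ℝ) (n : ℤ) (t : ℝ) : ‖bm x r n t‖ = ‖hh x r t n‖ := by
  unfold bm
  rw [norm_mul, ← mul_neg, ← Complex.ofReal_neg, norm_exp_I, mul_one]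

theorem hh_bm (x r : ℝ) (n : ℤ) (t : ℝ) : hh x r t n = cexp (I * p0 n t) * bm x r n t := by
  unfold bm
  rw [mul_comm (hh x r t n), ← mul_assoc, ← Complex.exp_add, add_neg_cancel, Complex.exp_zero,
    one_mul]

/-! ### the reflection -/

theorem hh_reflect (x r t : ℝ) (n : ℤ) :
    hh (Real.pi - x) r t n = cexp (I * (n * Real.pi : ℝ)) * (starRingEnd ℂ) (hh x r t n) := by
  have h1 : hh (Real.pi - x) r t n = ∫ θ in (x - r)..(x + r),
      ((r ^ 2 - (Real.pi - θ - (Real.pi - x)) ^ 2 : ℝ) : ℂ) *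
        cexp (I * ph t n (Real.pi - θ)) := by
    rw [hh_eq, intervalIntegral.integral_comp_sub_left (fun θ =>
      ((r ^ 2 - (θ - (Real.pi - x)) ^ 2 : ℝ) : ℂ) * cexp (I * ph t n θ)) Real.pi]
    congr 1 <;> ring
  rw [h1, hh_eq, ← intervalIntegral.intervalIntegral_conj, ← intervalIntegral.integral_const_mul]
  refine intervalIntegral.integral_congr fun θ _ => ?_
  change ((r ^ 2 - (Real.pi - θ - (Real.pi - x)) ^ 2 : ℝ) : ℂ) * cexp (I * ph t n (Real.pi - θ)) =
    cexp (I * (n * Real.pi : ℝ)) * (starRingEnd ℂ) (((r ^ 2 - (θ - x) ^ 2 : ℝ) : ℂ) *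
      cexp (I * ph t n θ))
  rw [map_mul, conj_ofReal, ← Complex.exp_conj, map_mul, conj_I, conj_ofReal]
  have e1 : Real.pi - θ - (Real.pi - x) = -(θ - x) := by ring
  rw [e1, neg_sq]
  have e2 : cexp (I * ph t n (Real.pi - θ)) =
      cexp (I * (n * Real.pi : ℝ)) * cexp (-I * ph t n θ) := by
    rw [← Complex.exp_add]
    congr 1
    unfold ph
    rw [Real.cos_pi_sub]
    push_cast
    ring
  rw [e2]
  ring

end Pool.Agent.LE.H28V
end
end -- Pool.Agent.Helper28_LSP.HHN

section -- Pool.Agent.Helper28_LSP.KRN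

/-!
# The kernel bound for general base points
-/

set_option autoImplicit false

open MeasureTheory Set Complex

open scoped BigOperators

noncomputable section

namespace Pool.Agent.LE.H28V

open Pool.Agent.LE.CL

/-- the sign -/
def sg (b : Bool) : ℝ := if b then 1 else -1

/-- the identity or the conjugation -/
def cx (b : Bool) (z : ℂ) : ℂ := if b then z else (starRingEnd ℂ) z

theorem cx_norm (b : Bool) (z : ℂ) : ‖cx b z‖ = ‖z‖ := by
  cases b
  · simp [cx]
  · simp [cx]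

theorem cx_mul (b : Bool) (z w : ℂ) : cx b (z * w) = cx b z * cx b w := by
  cases b
  · simp [cx]
  · simp [cx]

theorem cx_exp (b : Bool) (p : ℝ) : cx b (cexp (I * p)) = cexp (I * (sg b * p : ℝ)) := by
  cases b
  · simp [cx, sg, ← Complex.exp_conj]
  · simp [cx, sg]

theorem cx_cont (b : Bool) : Continuous (cx b) := by
  cases b
  · have : cx false = fun z => (starRingEnd ℂ) z := by
      funext z
      simp [cx]
    rw [this]
    exact Complex.continuous_conj
  · have : cx true = fun z => z := by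
      funext z
      simp [cx]
    rw [this]
    exact continuous_id

theorem cx_deriv (b : Bool) {f : ℝ → ℂ} {f' : ℂ} {t : ℝ} (h : HasDerivAt f f' t) :
    HasDerivAt (fun t => cx b (f t)) (cx b f') t := by
  cases b
  · have e : (fun t => cx false (f t)) = fun t => Complex.conjCLE (f t) := by
      funext t
      simp [cx]
    have e2 : cx false f' = Complex.conjCLE f' := by simp [cx]
    rw [e, e2]
    exact (Complex.conjCLE.hasFDerivAt (x := f t)).comp_hasDerivAt t h
  · have e : (fun t => cx true (f t)) = f := by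
      funext t
      simp [cx]
    have e2 : cx true f' = f' := by simp [cx]
    rw [e, e2]
    exact h

section main

variable {d : ℕ} {x : Fin d → ℝ} {ε : Fin d → Bool} {r κ : ℝ}

/-- the integrand -/
def fx (x : Fin d → ℝ) (ε : Fin d → Bool) (r E : ℝ) (n : Fin d → ℤ) (t : ℝ) : ℂ :=
  cexp (I * (t * E : ℝ)) * ∏ j, cx (ε j) (hh (x j) r t (n j))

theorem fx_cont (x : Fin d → ℝ) (ε : Fin d → Bool) (r E : ℝ) (n : Fin d → ℤ) :
    Continuous (fx x ε r E n) := by
  unfold fx
  refine (Complex.continuous_exp.comp (continuous_const.mul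
    (Complex.continuous_ofReal.comp (by fun_prop)))).mul ?_
  refine continuous_finsetProd _ fun j _ => (cx_cont _).comp ?_
  exact continuous_iff_continuousAt.2 fun t => (hh_deriv (x j) r (n j) t).continuousAt

theorem prod_le_pow {a : Fin d → ℝ} {b : ℝ} (s : Finset (Fin d)) (h0 : ∀ j, 0 ≤ a j)
    (h : ∀ j, a j ≤ b) : ∏ j ∈ s, a j ≤ b ^ s.card := by
  calc ∏ j ∈ s, a j ≤ ∏ _j ∈ s, b := Finset.prod_le_prod (fun j _ => h0 j) fun j _ => h j
    _ = b ^ s.card := by rw [Finset.prod_const]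

/-- off the region -/
theorem off (hb : ∀ j, Bp (x j) r κ) {T t : ℝ} (hT : 0 < T) (hTt : T ≤ t) {n : Fin d → ℤ}
    {E : ℝ} (h : ¬ ∀ j, Rg (x j) r (n j) t) :
    ‖fx x ε r E n t‖ ≤ 4 / (κ * r) * (8 / κ) ^ (d - 1) / (T * Real.sqrt T ^ (d - 1)) := by
  classical
  push Not at h
  obtain ⟨j₀, hj⟩ := h
  have hκ := (hb j₀).hκ
  have hr := (hb j₀).hr
  have ht : 0 < t := hT.trans_le hTt
  have hsT : 0 < Real.sqrt T := Real.sqrt_pos.2 hT
  have hst : Real.sqrt T ≤ Real.sqrt t := Real.sqrt_le_sqrt hTt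
  unfold fx
  rw [norm_mul, norm_exp_I, one_mul, norm_prod]
  simp only [cx_norm]
  rw [← Finset.mul_prod_erase Finset.univ (fun j => ‖hh (x j) r t (n j)‖) (Finset.mem_univ j₀)]
  have h1 : ‖hh (x j₀) r t (n j₀)‖ ≤ 4 / (κ * r * T) := by
    refine ((hb j₀).h2 ht (n j₀) hj).trans ?_
    apply div_le_div_of_nonneg_left (by norm_num) (by positivity)
    exact mul_le_mul_of_nonneg_left hTt (by positivity)
  have h2 : ∏ j ∈ Finset.univ.erase j₀, ‖hh (x j) r t (n j)‖ ≤
      (8 / (κ * Real.sqrt T)) ^ (d - 1) := by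
    have h3 := prod_le_pow (a := fun j => ‖hh (x j) r t (n j)‖) (b := 8 / (κ * Real.sqrt T))
      (Finset.univ.erase j₀) (fun j => norm_nonneg _) fun j => by
        refine ((hb j).h1 ht (n j)).trans ?_
        apply div_le_div_of_nonneg_left (by norm_num) (by positivity)
        exact mul_le_mul_of_nonneg_left hst hκ.le
    rwa [Finset.card_erase_of_mem (Finset.mem_univ _), Finset.card_univ, Fintype.card_fin] at h3
  calc _ ≤ 4 / (κ * r * T) * (8 / (κ * Real.sqrt T)) ^ (d - 1) :=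
        mul_le_mul h1 h2 (Finset.prod_nonneg fun j _ => norm_nonneg _) (by positivity)
    _ = _ := by
        rw [div_pow, div_pow, mul_pow]
        field_simp

/-- in the region -/
theorem inn (hb : ∀ j, Bp (x j) r κ) (hd : 1 ≤ d) {c0 : ℝ} (hc0 : 0 < c0)
    (hψ : (∀ θ : Fin d → ℝ, (∀ j, θ j ∈ Icc (x j - 2 * r) (x j + 2 * r)) →
        c0 ≤ ∑ j, sg (ε j) * (Real.sin (θ j) ^ 2 / Real.cos (θ j))) ∨
      (∀ θ : Fin d → ℝ, (∀ j, θ j ∈ Icc (x j - 2 * r) (x j + 2 * r)) →
        ∑ j, sg (ε j) * (Real.sin (θ j) ^ 2 / Real.cos (θ j)) ≤ -c0))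
    {T T1 T2 : ℝ} (hT : 0 < T) (hT1 : T ≤ T1) (h12 : T1 ≤ T2) (hT2 : T2 ≤ 2 * T)
    {n : Fin d → ℤ} {E : ℝ} (hR : ∀ t ∈ Icc T1 T2, ∀ j, Rg (x j) r (n j) t) :
    ‖∫ t in T1..T2, fx x ε r E n t‖ ≤
      8 * (1 + d) * (48 / κ ^ 4) ^ d / Real.sqrt c0 / Real.sqrt T ^ (d - 1) := by
  classical
  have j₀ : Fin d := ⟨0, hd⟩
  have hκ := (hb j₀).hκ
  have hκ1 := (hb j₀).hκ1
  have hr := (hb j₀).hr
  have hsT : 0 < Real.sqrt T := Real.sqrt_pos.2 hT
  have hss : Real.sqrt T * Real.sqrt T = T := Real.mul_self_sqrt hT.le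
  have hpos : ∀ t ∈ Icc T1 T2, 0 < t := fun t ht => hT.trans_le (hT1.trans ht.1)
  have hTt : ∀ t ∈ Icc T1 T2, T ≤ t := fun t ht => hT1.trans ht.1
  have hst : ∀ t ∈ Icc T1 T2, Real.sqrt T ≤ Real.sqrt t := fun t ht =>
    Real.sqrt_le_sqrt (hTt t ht)
  set K := 48 / κ ^ 4 with hK
  have hK0 : 0 < K := by positivity
  have hK8 : 8 / κ ≤ K := by
    rw [hK, div_le_div_iff₀ hκ (by positivity)]
    have : κ ^ 4 ≤ κ := by
      calc κ ^ 4 = κ * κ ^ 3 := by ring
        _ ≤ κ * 1 := mul_le_mul_of_nonneg_left (pow_le_one₀ hκ.le hκ1) hκ.le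
        _ = κ := mul_one κ
    linarith only [hκ, this]
  -- the phase
  set F : ℝ → ℝ := fun t => t * E + ∑ j, sg (ε j) * p0 (n j) t with hF
  set F1 : ℝ → ℝ := fun t => E + ∑ j, sg (ε j) * -(2 * Real.cos (tha (n j) t)) with hF1
  set F2 : ℝ → ℝ := fun t => ∑ j, sg (ε j) * p2 (n j) t with hF2
  have hFd : ∀ t ∈ Icc T1 T2, HasDerivAt F (F1 t) t := by
    intro t ht
    have h1 : HasDerivAt (fun t => t * E) E t := by
      have := (hasDerivAt_id t).mul_const E
      rwa [one_mul] at this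
    exact h1.add (HasDerivAt.fun_sum fun j _ =>
      ((hb j).p0_deriv (hpos t ht) (hR t ht j)).const_mul (sg (ε j)))
  have hF1d : ∀ t ∈ Icc T1 T2, HasDerivAt F1 (F2 t) t := by
    intro t ht
    exact (HasDerivAt.fun_sum fun j _ =>
      ((hb j).p1_deriv (hpos t ht) (hR t ht j)).const_mul (sg (ε j))).const_add E
  have hF2c : ContinuousOn F2 (Icc T1 T2) := by
    intro t ht
    refine ContinuousAt.continuousWithinAt ?_
    refine tendsto_finsetSum _ fun j _ => ?_
    exact continuousAt_const.mul ((hb j).p2_cont (hpos t ht) (hR t ht j))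
  have hF2v : ∀ t, F2 t = -(2 / t) * ∑ j, sg (ε j) *
      (Real.sin (tha (n j) t) ^ 2 / Real.cos (tha (n j) t)) := by
    intro t
    simp only [hF2]
    rw [Finset.mul_sum]
    refine Finset.sum_congr rfl fun j _ => ?_
    unfold p2
    ring
  have hmem : ∀ t ∈ Icc T1 T2, ∀ j, tha (n j) t ∈ Icc (x j - 2 * r) (x j + 2 * r) :=
    fun t ht j => (hb j).tha_mem (hpos t ht) (hR t ht j)
  have hpart : ∀ y ∈ Icc T1 T2, ‖∫ t in T1..y, cexp (I * F t)‖ ≤ 8 / Real.sqrt (c0 / T) := by
    intro y hy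
    have hsub : ∀ t ∈ Icc T1 y, t ∈ Icc T1 T2 := fun t ht => ⟨ht.1, ht.2.trans hy.2⟩
    have h2T : ∀ t ∈ Icc T1 y, c0 / T ≤ 2 / t * c0 := by
      intro t ht
      have ht0 := hpos t (hsub t ht)
      rw [div_mul_eq_mul_div, div_le_div_iff₀ hT ht0]
      have : t ≤ 2 * T := (hsub t ht).2.trans hT2
      nlinarith only [hc0, this]
    rcases hψ with h | h
    · refine vdc2n (F1 := F1) (F2 := F2) hy.1 (fun t ht => hFd t (hsub t ht))
        (fun t ht => hF1d t (hsub t ht)) (hF2c.mono hsub) (by positivity) fun t ht => ?_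
      have h1 := h (fun j => tha (n j) t) (hmem t (hsub t ht))
      rw [hF2v]
      have ht0 := hpos t (hsub t ht)
      have h3 := mul_le_mul_of_nonneg_left h1 (by positivity : 0 ≤ 2 / t)
      have h4 := h2T t ht
      rw [neg_mul]
      linarith only [h3, h4]
    · refine vdc2 (F1 := F1) (F2 := F2) hy.1 (fun t ht => hFd t (hsub t ht))
        (fun t ht => hF1d t (hsub t ht)) (hF2c.mono hsub) (by positivity) fun t ht => ?_
      have h1 := h (fun j => tha (n j) t) (hmem t (hsub t ht))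
      rw [hF2v]
      have ht0 := hpos t (hsub t ht)
      have h3 := mul_le_mul_of_nonneg_left h1 (by positivity : 0 ≤ 2 / t)
      have h4 := h2T t ht
      rw [neg_mul]
      linarith only [h3, h4]
  -- the amplitude
  set G : ℝ → ℂ := fun t => ∏ j, cx (ε j) (bm (x j) r (n j) t) with hG
  set G1 : ℝ → ℂ := fun t => ∑ i, (∏ j ∈ Finset.univ.erase i, cx (ε j) (bm (x j) r (n j) t)) •
    cx (ε i) (bm1 (x i) r (n i) t) with hG1
  have hGd : ∀ t ∈ Icc T1 T2, HasDerivAt G (G1 t) t := by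
    intro t ht
    exact HasDerivAt.fun_finsetProd fun j _ =>
      cx_deriv (ε j) ((hb j).bm_deriv (hpos t ht) (hR t ht j))
  have hG1c : ContinuousOn G1 (Icc T1 T2) := by
    intro t ht
    refine ContinuousAt.continuousWithinAt ?_
    refine tendsto_finsetSum _ fun i _ => ?_
    refine Filter.Tendsto.smul ?_ ?_
    · refine tendsto_finsetProd _ fun j _ => ?_
      exact (cx_cont _).continuousAt.comp ((hb j).bm_deriv (hpos t ht) (hR t ht j)).continuousAt
    · exact (cx_cont _).continuousAt.comp ((hb i).bm1_cont (hpos t ht) (hR t ht i))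
  have hbm : ∀ t ∈ Icc T1 T2, ∀ j, ‖cx (ε j) (bm (x j) r (n j) t)‖ ≤ K / Real.sqrt T := by
    intro t ht j
    rw [cx_norm, bm_norm]
    refine ((hb j).h1 (hpos t ht) (n j)).trans ?_
    rw [← div_div]
    exact div_le_div₀ hK0.le hK8 hsT (hst t ht)
  have hbm1 : ∀ t ∈ Icc T1 T2, ∀ j, ‖cx (ε j) (bm1 (x j) r (n j) t)‖ ≤
      K / Real.sqrt T / T := by
    intro t ht j
    rw [cx_norm]
    refine ((hb j).bm1_le (hpos t ht) (hR t ht j)).trans ?_
    have ht0 := hpos t ht
    have hst0 : 0 < Real.sqrt t := hsT.trans_le (hst t ht)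
    rw [hK, div_div, div_div]
    apply div_le_div_of_nonneg_left (by norm_num) (by positivity)
    apply mul_le_mul_of_nonneg_left _ (by positivity)
    rw [mul_comm (Real.sqrt T)]
    exact mul_le_mul (hTt t ht) (hst t ht) hsT.le ht0.le
  have hGn : ∀ t ∈ Icc T1 T2, ‖G t‖ ≤ (K / Real.sqrt T) ^ d := by
    intro t ht
    simp only [hG]
    rw [norm_prod]
    have := prod_le_pow (a := fun j => ‖cx (ε j) (bm (x j) r (n j) t)‖) (b := K / Real.sqrt T)
      Finset.univ (fun j => norm_nonneg _) (hbm t ht)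
    rwa [Finset.card_univ, Fintype.card_fin] at this
  have hG1n : ∀ t ∈ Icc T1 T2, ‖G1 t‖ ≤ d * (K / Real.sqrt T) ^ d / T := by
    intro t ht
    simp only [hG1]
    refine (norm_sum_le _ _).trans ?_
    have h1 : ∀ i ∈ (Finset.univ : Finset (Fin d)),
        ‖(∏ j ∈ Finset.univ.erase i, cx (ε j) (bm (x j) r (n j) t)) •
          cx (ε i) (bm1 (x i) r (n i) t)‖ ≤ (K / Real.sqrt T) ^ d / T := by
      intro i _
      rw [norm_smul, norm_prod]
      have h2 := prod_le_pow (a := fun j => ‖cx (ε j) (bm (x j) r (n j) t)‖)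
        (b := K / Real.sqrt T) (Finset.univ.erase i) (fun j => norm_nonneg _) (hbm t ht)
      rw [Finset.card_erase_of_mem (Finset.mem_univ _), Finset.card_univ, Fintype.card_fin] at h2
      calc _ ≤ (K / Real.sqrt T) ^ (d - 1) * (K / Real.sqrt T / T) :=
            mul_le_mul h2 (hbm1 t ht i) (norm_nonneg _) (by positivity)
        _ = (K / Real.sqrt T) ^ (d - 1 + 1) / T := by rw [pow_succ]; ring
        _ = _ := by rw [Nat.sub_add_cancel hd]
    refine (Finset.sum_le_sum h1).trans (le_of_eq ?_)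
    rw [Finset.sum_const, Finset.card_univ, Fintype.card_fin, nsmul_eq_mul]
    ring
  have hint : ∫ t in T1..T2, ‖G1 t‖ ≤ d * (K / Real.sqrt T) ^ d := by
    have h1 : ∫ t in T1..T2, ‖G1 t‖ ≤ ∫ _t in T1..T2, (d * (K / Real.sqrt T) ^ d / T : ℝ) := by
      refine intervalIntegral.integral_mono_on h12 ?_ ?_ hG1n
      · refine ContinuousOn.intervalIntegrable ?_
        rw [uIcc_of_le h12]
        exact hG1c.norm
      · exact continuous_const.intervalIntegrable _ _
    rw [intervalIntegral.integral_const, smul_eq_mul] at h1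
    refine h1.trans ?_
    have h2 : T2 - T1 ≤ T := by linarith only [hT1, hT2]
    have h3 : 0 ≤ d * (K / Real.sqrt T) ^ d / T := by positivity
    calc (T2 - T1) * (d * (K / Real.sqrt T) ^ d / T) ≤ T * (d * (K / Real.sqrt T) ^ d / T) :=
          mul_le_mul_of_nonneg_right h2 h3
      _ = _ := by field_simp
  have hFc : ContinuousOn (fun t => cexp (I * F t)) (Icc T1 T2) := by
    refine Complex.continuous_exp.comp_continuousOn
      (continuousOn_const.mul (Complex.continuous_ofReal.comp_continuousOn ?_) :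
        ContinuousOn (fun t => I * (F t : ℂ)) (Icc T1 T2))
    exact fun t ht => (hFd t ht).continuousAt.continuousWithinAt
  have key := amp (f := fun t => cexp (I * F t)) (g := G) (g' := G1) h12 hFc hGd hG1c hpart
  have e1 : ∀ t, fx x ε r E n t = G t * cexp (I * F t) := by
    intro t
    simp only [fx, hG, hF]
    have e2 : ∀ j, cx (ε j) (hh (x j) r t (n j)) =
        cexp (I * (sg (ε j) * p0 (n j) t : ℝ)) * cx (ε j) (bm (x j) r (n j) t) := by
      intro j
      rw [hh_bm, cx_mul, cx_exp]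
    rw [Finset.prod_congr rfl fun j _ => e2 j, Finset.prod_mul_distrib, ← Complex.exp_sum,
      ← mul_assoc, ← Complex.exp_add, mul_comm]
    congr 2
    push_cast
    rw [mul_add, Finset.mul_sum]
  simp only [e1]
  refine key.trans ?_
  have h5 : 8 / Real.sqrt (c0 / T) = 8 * Real.sqrt T / Real.sqrt c0 := by
    rw [Real.sqrt_div hc0.le]
    have : 0 < Real.sqrt c0 := Real.sqrt_pos.2 hc0
    field_simp
  rw [h5]
  have hsc : 0 < Real.sqrt c0 := Real.sqrt_pos.2 hc0
  calc 8 * Real.sqrt T / Real.sqrt c0 * (‖G T2‖ + ∫ t in T1..T2, ‖G1 t‖)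
      ≤ 8 * Real.sqrt T / Real.sqrt c0 * ((K / Real.sqrt T) ^ d + d * (K / Real.sqrt T) ^ d) :=
        mul_le_mul_of_nonneg_left (add_le_add (hGn T2 (right_mem_Icc.2 h12)) hint)
          (by positivity)
    _ = _ := by
        obtain ⟨k, rfl⟩ : ∃ k, d = k + 1 := ⟨d - 1, by omega⟩
        rw [Nat.add_sub_cancel, div_pow, pow_succ (Real.sqrt T)]
        field_simp

end main

end Pool.Agent.LE.H28V
end
end -- Pool.Agent.Helper28_LSP.KRN

section -- Pool.Agent.Helper28_LSP.KRO

/-!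
# The kernel bound for general base points, assembled
-/

set_option autoImplicit false

open MeasureTheory Set Complex

open scoped BigOperators

noncomputable section

namespace Pool.Agent.LE.H28V

open Pool.Agent.LE.CL

section main

variable {d : ℕ} {x : Fin d → ℝ} {ε : Fin d → Bool} {r κ : ℝ}

theorem rg_conv {x r : ℝ} {n : ℤ} {s t u : ℝ} (h1 : Rg x r n s) (h2 : Rg x r n u) (hst : s ≤ t)
    (htu : t ≤ u) (hlo : 0 ≤ Real.sin (x - 2 * r)) (hhi : 0 ≤ Real.sin (x + 2 * r)) :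
    Rg x r n t := by
  constructor
  · refine le_trans ?_ h2.1
    exact mul_le_mul_of_nonneg_right (by linarith only [htu]) hlo
  · refine h1.2.trans ?_
    exact mul_le_mul_of_nonneg_right (by linarith) hhi

/-- an integral over an interval where the function is small off the end points -/
theorem int_small {f : ℝ → ℂ} {a b B : ℝ} (hab : a ≤ b)
    (h : ∀ t ∈ Ioo a b, ‖f t‖ ≤ B) : ‖∫ t in a..b, f t‖ ≤ B * (b - a) := by
  have h1 := intervalIntegral.norm_integral_le_of_norm_le_const_ae (a := a) (b := b) (C := B)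
    (f := f) (by
      have h2 : ∀ᵐ t : ℝ, t ≠ b := by
        rw [ae_iff]
        simp only [not_not, Set.ofPred_eq_eq_singleton]
        exact Real.volume_singleton
      filter_upwards [h2] with t ht hm
      rw [uIoc_of_le hab] at hm
      exact h t ⟨hm.1, lt_of_le_of_ne hm.2 ht⟩)
  rwa [abs_of_nonneg (sub_nonneg.2 hab)] at h1

theorem krn (hb : ∀ j, Bp (x j) r κ) (hd : 1 ≤ d) {c0 : ℝ} (hc0 : 0 < c0)
    (hψ : (∀ θ : Fin d → ℝ, (∀ j, θ j ∈ Icc (x j - 2 * r) (x j + 2 * r)) →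
        c0 ≤ ∑ j, sg (ε j) * (Real.sin (θ j) ^ 2 / Real.cos (θ j))) ∨
      (∀ θ : Fin d → ℝ, (∀ j, θ j ∈ Icc (x j - 2 * r) (x j + 2 * r)) →
        ∑ j, sg (ε j) * (Real.sin (θ j) ^ 2 / Real.cos (θ j)) ≤ -c0))
    {T : ℝ} (hT : 0 < T) (n : Fin d → ℤ) (E : ℝ) :
    ‖∫ t in T..(2 * T), fx x ε r E n t‖ ≤
      (4 / (κ * r) * (8 / κ) ^ (d - 1) + 8 * (1 + d) * (48 / κ ^ 4) ^ d / Real.sqrt c0) /
        Real.sqrt T ^ (d - 1) := by
  have j₀ : Fin d := ⟨0, hd⟩
  have hκ := (hb j₀).hκ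
  have hr := (hb j₀).hr
  have hsT : 0 < Real.sqrt T := Real.sqrt_pos.2 hT
  have hsc : 0 < Real.sqrt c0 := Real.sqrt_pos.2 hc0
  set B := 4 / (κ * r) * (8 / κ) ^ (d - 1) / (T * Real.sqrt T ^ (d - 1)) with hB
  have hB0 : 0 < B := by positivity
  have hBT : B * T = 4 / (κ * r) * (8 / κ) ^ (d - 1) / Real.sqrt T ^ (d - 1) := by
    rw [hB]
    field_simp
  have hT2 : T ≤ 2 * T := by linarith only [hT]
  have hfi : ∀ a b : ℝ, IntervalIntegrable (fx x ε r E n) volume a b := fun a b =>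
    (fx_cont x ε r E n).intervalIntegrable a b
  rw [add_div]
  set S : Set ℝ := {t | t ∈ Icc T (2 * T) ∧ ∀ j, Rg (x j) r (n j) t} with hS
  rcases S.eq_empty_or_nonempty with h0 | hne
  · have h1 : ‖∫ t in T..(2 * T), fx x ε r E n t‖ ≤ B * (2 * T - T) := by
      refine int_small hT2 fun t ht => ?_
      refine off hb hT ht.1.le fun h => ?_
      have : t ∈ S := ⟨Ioo_subset_Icc_self ht, h⟩
      rw [h0] at this
      exact this
    have e : 2 * T - T = T := by ring
    rw [e, hBT] at h1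
    refine h1.trans (le_add_of_nonneg_right ?_)
    positivity
  have hlo : ∀ j, 0 ≤ Real.sin (x j - 2 * r) := fun j =>
    hκ.le.trans ((hb j).hsin _ (left_mem_Icc.2 (by linarith only [hr])))
  have hhi : ∀ j, 0 ≤ Real.sin (x j + 2 * r) := fun j =>
    hκ.le.trans ((hb j).hsin _ (right_mem_Icc.2 (by linarith only [hr])))
  have hcl : IsClosed {t : ℝ | ∀ j, Rg (x j) r (n j) t} := by
    rw [Set.ofPred_forall]
    refine isClosed_iInter fun j => ?_
    have c1 : Continuous fun t : ℝ => 2 * t * Real.sin (x j - 2 * r) := by fun_prop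
    have c2 : Continuous fun t : ℝ => 2 * t * Real.sin (x j + 2 * r) := by fun_prop
    exact (isClosed_le c1 continuous_const).inter (isClosed_le continuous_const c2)
  have hcomp : IsCompact S := isCompact_Icc.inter_right hcl
  obtain ⟨hT1a, hT1b⟩ := hcomp.sInf_mem hne
  obtain ⟨hT2a, hT2b⟩ := hcomp.sSup_mem hne
  set T1 := sInf S with hT1
  set T2 := sSup S with hT2'
  have hle : T1 ≤ T2 := (csInf_le hcomp.bddBelow hne.some_mem).trans (le_csSup hcomp.bddAbove hne.some_mem)
  have hbelow : ∀ t ∈ S, T1 ≤ t := fun t ht => csInf_le hcomp.bddBelow ht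
  have habove : ∀ t ∈ S, t ≤ T2 := fun t ht => le_csSup hcomp.bddAbove ht
  have hsplit : ∫ t in T..(2 * T), fx x ε r E n t = (∫ t in T..T1, fx x ε r E n t) +
      (∫ t in T1..T2, fx x ε r E n t) + ∫ t in T2..(2 * T), fx x ε r E n t := by
    rw [intervalIntegral.integral_add_adjacent_intervals (hfi _ _) (hfi _ _),
      intervalIntegral.integral_add_adjacent_intervals (hfi _ _) (hfi _ _)]
  have p1 : ‖∫ t in T..T1, fx x ε r E n t‖ ≤ B * (T1 - T) := by
    refine int_small hT1a.1 fun t ht => ?_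
    refine off hb hT ht.1.le fun h => ?_
    exact absurd (hbelow t ⟨⟨ht.1.le, ht.2.le.trans hT1a.2⟩, h⟩) (not_le.2 ht.2)
  have p3 : ‖∫ t in T2..(2 * T), fx x ε r E n t‖ ≤ B * (2 * T - T2) := by
    refine int_small hT2a.2 fun t ht => ?_
    refine off hb hT (hT2a.1.trans ht.1.le) fun h => ?_
    exact absurd (habove t ⟨⟨hT2a.1.trans ht.1.le, ht.2.le⟩, h⟩) (not_le.2 ht.1)
  have p2 := inn (E := E) hb hd hc0 hψ hT hT1a.1 hle hT2a.2 (n := n) (fun t ht j =>
    rg_conv (hT1b j) (hT2b j) ht.1 ht.2 (hlo j) (hhi j))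
  rw [hsplit]
  calc _ ≤ ‖∫ t in T..T1, fx x ε r E n t‖ + ‖∫ t in T1..T2, fx x ε r E n t‖ +
      ‖∫ t in T2..(2 * T), fx x ε r E n t‖ := norm_add₃_le
    _ ≤ B * (T1 - T) + 8 * (1 + d) * (48 / κ ^ 4) ^ d / Real.sqrt c0 / Real.sqrt T ^ (d - 1) +
        B * (2 * T - T2) := add_le_add (add_le_add p1 p2) p3
    _ ≤ B * T + 8 * (1 + d) * (48 / κ ^ 4) ^ d / Real.sqrt c0 / Real.sqrt T ^ (d - 1) := by
        have : B * (T1 - T) + B * (2 * T - T2) ≤ B * T := by
          rw [← mul_add]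
          apply mul_le_mul_of_nonneg_left _ hB0.le
          linarith only [hle]
        linarith only [this]
    _ = _ := by rw [hBT]

end main

end Pool.Agent.LE.H28V
end
end -- Pool.Agent.Helper28_LSP.KRO

section -- Pool.Agent.Helper28_LSP.PTS

/-!
# The choice of the base points
-/

set_option autoImplicit false

open MeasureTheory Set Complex

open scoped BigOperators

noncomputable section

namespace Pool.Agent.LE.H28V

open Pool.Agent.LE.CL

/-- the conditions for one coordinate from the cosine -/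
theorem bp_arccos {d : ℕ} (hd : 3 ≤ d) {δ c : ℝ} (hδ : 0 < δ) (hδ2 : δ ≤ 1 / 2)
    (hc1 : 1 / (2 * d : ℝ) ≤ c) (hc2 : c ≤ 1 - δ) :
    Bp (Real.arccos c) (δ / (36 * d ^ 3)) (min (1 / (4 * d)) (δ / 2)) ∧
      ∀ θ ∈ Icc (Real.arccos c - 2 * (δ / (36 * d ^ 3))) (Real.arccos c + 2 * (δ / (36 * d ^ 3))),
        |Real.sin θ ^ 2 / Real.cos θ - (1 / c - c)| ≤ δ / (2 * d) := by
  have hd0 : (3 : ℝ) ≤ d := by exact_mod_cast hd
  have hdp : (0 : ℝ) < d := by linarith only [hδ, hδ2, hd0]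
  set r := δ / (36 * (d : ℝ) ^ 3) with hr
  have hr0 : 0 < r := by positivity
  have hd3 : (27 : ℝ) ≤ (d : ℝ) ^ 3 := by
    have := pow_le_pow_left₀ (by norm_num) hd0 3
    linarith only [this]
  have hd22 : (9 : ℝ) ≤ (d : ℝ) ^ 2 := by nlinarith only [hd0]
  have hd32 : (9 : ℝ) * d ≤ (d : ℝ) ^ 3 := by
    have : (d : ℝ) ^ 3 = (d : ℝ) ^ 2 * d := by ring
    rw [this]
    exact mul_le_mul_of_nonneg_right hd22 hdp.le
  have hrδ : r * (36 * (d : ℝ) ^ 3) = δ := by
    rw [hr]
    field_simp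
  have hr4 : 4 * r ≤ δ := by nlinarith only [hδ, hδ2, hr0, hd3, hrδ]
  have hr8 : 8 * (d : ℝ) * r ≤ 1 := by nlinarith only [hδ2, hr0, hd22, hrδ, hr4]
  have hc0 : 0 < c := lt_of_lt_of_le (by positivity) hc1
  have hcx : Real.cos (Real.arccos c) = c := Real.cos_arccos (by linarith only [hδ2, hr0, hr4, hc0]) (by linarith only [hc2, hr0, hr4])
  set x := Real.arccos c with hx
  have hx0 : 0 ≤ x := Real.arccos_nonneg c
  have hxπ : x ≤ Real.pi := Real.arccos_le_pi c
  have hsx0 : 0 ≤ Real.sin x := Real.sin_nonneg_of_nonneg_of_le_pi hx0 hxπ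
  have hsx : δ ≤ Real.sin x := by
    have h1 := Real.sin_sq_add_cos_sq x
    rw [hcx] at h1
    have h2 : δ ≤ Real.sin x ^ 2 := by nlinarith only [hδ, hc2, hc0, h1]
    have h3 := Real.sin_le_one x
    nlinarith only [hsx0, h2, h3]
  have hlip : ∀ θ ∈ Icc (x - 2 * r) (x + 2 * r), |Real.cos θ - c| ≤ 2 * r ∧
      |Real.sin θ - Real.sin x| ≤ 2 * r := by
    intro θ hθ
    have h0 : |θ - x| ≤ 2 * r := abs_le.2 ⟨by linarith only [hθ.1], by linarith only [hθ.2]⟩
    constructor
    · rw [← hcx]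
      exact (Real.abs_cos_sub_cos_le θ x).trans h0
    · exact (Real.abs_sin_sub_sin_le θ x).trans h0
  have hcθ : ∀ θ ∈ Icc (x - 2 * r) (x + 2 * r), 1 / (4 * d : ℝ) ≤ Real.cos θ := by
    intro θ hθ
    have h1 := (abs_le.1 (hlip θ hθ).1).1
    have h2 : 1 / (2 * d : ℝ) = 2 * (1 / (4 * d)) := by field_simp; norm_num
    have h3 : 2 * r ≤ 1 / (4 * d : ℝ) := by
      rw [le_div_iff₀ (by positivity)]
      nlinarith only [hr8]
    linarith only [hc1, h1, h2, h3]
  refine ⟨⟨hr0, ?_, ?_, ?_, ?_, ?_, ?_, ?_⟩, ?_⟩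
  · linarith
  · exact lt_min (by positivity) (by positivity)
  · exact (min_le_right _ _).trans (by linarith only [hδ2, hr0, hr4])
  · have h1 : Real.sin x ≤ x := Real.sin_le hx0
    linarith only [hr0, hr4, hsx, h1]
  · have h1 : Real.cos x ≤ Real.pi / 2 - x := by
      rw [← Real.sin_pi_div_two_sub]
      apply Real.sin_le
      have : x ≤ Real.pi / 2 := by
        rw [hx]
        exact Real.arccos_le_pi_div_two.2 hc0.le
      linarith only [this]
    rw [hcx] at h1
    have h2 : 2 * r ≤ 1 / (2 * d : ℝ) := by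
      rw [le_div_iff₀ (by positivity)]
      nlinarith only [hδ2, hr0, hr4, hr8]
    linarith only [hc1, h1, h2]
  · intro θ hθ
    exact (min_le_left _ _).trans (hcθ θ hθ)
  · intro θ hθ
    refine (min_le_right _ _).trans ?_
    have h1 := (abs_le.1 (hlip θ hθ).2).1
    linarith only [hr4, hsx, h1]
  · intro θ hθ
    have h1 := hcθ θ hθ
    have h2 : 0 < Real.cos θ := lt_of_lt_of_le (by positivity) h1
    have h3 := (hlip θ hθ).1
    have e1 : Real.sin θ ^ 2 / Real.cos θ - (1 / c - c) =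
        (c - Real.cos θ) / (Real.cos θ * c) + (c - Real.cos θ) := by
      have h4 : Real.sin θ ^ 2 = 1 - Real.cos θ ^ 2 := by
        have := Real.sin_sq_add_cos_sq θ
        linarith only [this]
      rw [h4]
      field_simp
      ring
    rw [e1]
    refine (abs_add_le _ _).trans ?_
    have h5 : |c - Real.cos θ| ≤ 2 * r := by rw [abs_sub_comm]; exact h3
    have h6 : |(c - Real.cos θ) / (Real.cos θ * c)| ≤ 2 * r * (8 * d ^ 2) := by
      rw [abs_div, abs_of_pos (mul_pos h2 hc0), div_le_iff₀ (mul_pos h2 hc0)]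
      have h7 : 1 / (4 * d : ℝ) * (1 / (2 * d)) ≤ Real.cos θ * c :=
        mul_le_mul h1 hc1 (by positivity) h2.le
      have h8 : 1 / (4 * d : ℝ) * (1 / (2 * d)) * (8 * d ^ 2) = 1 := by
        field_simp
        norm_num
      calc |c - Real.cos θ| ≤ 2 * r := h5
        _ = 2 * r * (1 / (4 * d : ℝ) * (1 / (2 * d)) * (8 * d ^ 2)) := by rw [h8, mul_one]
        _ ≤ 2 * r * (Real.cos θ * c * (8 * d ^ 2)) := by
            apply mul_le_mul_of_nonneg_left _ (by positivity)
            exact mul_le_mul_of_nonneg_right h7 (by positivity)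
        _ = _ := by ring
    have h9 : 2 * r * (8 * (d : ℝ) ^ 2) + 2 * r ≤ δ / (2 * d) := by
      rw [le_div_iff₀ (by positivity), ← hrδ]
      have : (1 : ℝ) ≤ (d : ℝ) ^ 2 := by nlinarith only [hδ2, hr0, hd22, hr4]
      have h10 : (2 * r * (8 * (d : ℝ) ^ 2) + 2 * r) * (2 * d) =
          r * (32 * (d : ℝ) ^ 3 + 4 * d) := by ring
      rw [h10]
      apply mul_le_mul_of_nonneg_left _ hr0.le
      nlinarith only [hδ2, hr0, hd3, hd32, hr4]
    linarith only [h5, h6, h9]

/-- the points for nonnegative energies -/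
theorem pts_pos {d : ℕ} (hd : 3 ≤ d) {δ E : ℝ} (hδ : 0 < δ) (hδ2 : δ ≤ 1 / 2) (hE0 : 0 ≤ E)
    (hE : E ≤ 2 * d * (1 - δ)) :
    ∃ (c : Fin d → ℝ) (ε : Fin d → Bool), (∀ j, 1 / (2 * d : ℝ) ≤ c j ∧ c j ≤ 1 - δ) ∧
      δ ≤ ∑ j, sg (ε j) * (1 / c j - c j) ∧ ∑ j, sg (ε j) * (2 * c j) = E := by
  classical
  have hd0 : (3 : ℝ) ≤ d := by exact_mod_cast hd
  have hdp : (0 : ℝ) < d := by linarith only [hδ, hδ2, hd0]
  by_cases h : 1 ≤ E
  · refine ⟨fun _ => E / (2 * d), fun _ => true, fun j => ⟨?_, ?_⟩, ?_, ?_⟩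
    · exact div_le_div_of_nonneg_right h (by positivity)
    · rw [div_le_iff₀ (by positivity)]
      linarith only [hE]
    · simp only [sg, if_true, one_mul, Finset.sum_const, Finset.card_univ, Fintype.card_fin,
        nsmul_eq_mul]
      have hc : E / (2 * d) ≤ 1 - δ := by
        rw [div_le_iff₀ (by positivity)]
        linarith only [hE]
      have hc0 : 0 < E / (2 * d) := by positivity
      have h1 : 1 ≤ 1 / (E / (2 * d)) := by
        rw [le_div_iff₀ hc0]
        linarith only [hδ, hc]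
      have h2 : δ ≤ 1 / (E / (2 * d)) - E / (2 * d) := by linarith only [hc, h1]
      nlinarith only [hδ, hδ2, hd0, hc, h1]
    · simp only [sg, if_true, one_mul, Finset.sum_const, Finset.card_univ, Fintype.card_fin,
        nsmul_eq_mul]
      field_simp
  · push Not at h
    obtain ⟨k, rfl⟩ : ∃ k, d = k + 1 := ⟨d - 1, by omega⟩
    have hk : 2 ≤ k := by omega
    have hk0 : (2 : ℝ) ≤ k := by exact_mod_cast hk
    push_cast at *
    set p := (E + 1) / (2 * k) with hp
    have hp0 : 0 < p := by positivity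
    have hp1 : p ≤ 1 / 2 := by
      rw [hp, div_le_div_iff₀ (by positivity) (by norm_num)]
      linarith only [h, hk0]
    refine ⟨fun j => if j = 0 then 1 / 2 else p, fun j => if j = 0 then false else true,
      fun j => ?_, ?_, ?_⟩
    · by_cases hj : j = 0
      · simp only [hj, if_true]
        refine ⟨?_, by linarith only [hδ2]⟩
        apply one_div_le_one_div_of_le (by norm_num)
        linarith only [hδ, hδ2, hk0]
      · simp only [hj, if_false]
        refine ⟨?_, by linarith⟩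
        rw [hp, div_le_div_iff₀ (by positivity) (by positivity)]
        nlinarith only [hδ, hδ2, hE0]
    · rw [Fin.sum_univ_succ]
      simp only [if_true, Fin.succ_ne_zero, if_false, sg, Finset.sum_const, Finset.card_univ,
        Fintype.card_fin, nsmul_eq_mul]
      have h1 : (2 : ℝ) ≤ 1 / p := by
        rw [le_div_iff₀ hp0]
        linarith only [hp1]
      simp only [Bool.false_eq_true, if_false, one_mul]
      nlinarith only [hδ, hδ2, hk0, hp1, h1]
    · rw [Fin.sum_univ_succ]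
      simp only [if_true, Fin.succ_ne_zero, if_false, sg, Finset.sum_const, Finset.card_univ,
        Fintype.card_fin, nsmul_eq_mul]
      simp only [Bool.false_eq_true, if_false, one_mul]
      rw [hp]
      field_simp
      ring

/-- the base points -/
theorem pts (d : ℕ) (δ : ℝ) (hd : 3 ≤ d) (hδ : 0 < δ) : ∃ r κ c0 : ℝ, 0 < r ∧ r ≤ 1 / 2 ∧
    0 < κ ∧ 0 < c0 ∧ ∀ E : ℝ, |E| ≤ 2 * d - δ → ∃ (x : Fin d → ℝ) (ε : Fin d → Bool),
      (∀ j, Bp (x j) r κ) ∧
      ((∀ θ : Fin d → ℝ, (∀ j, θ j ∈ Icc (x j - 2 * r) (x j + 2 * r)) →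
        c0 ≤ ∑ j, sg (ε j) * (Real.sin (θ j) ^ 2 / Real.cos (θ j))) ∨
      (∀ θ : Fin d → ℝ, (∀ j, θ j ∈ Icc (x j - 2 * r) (x j + 2 * r)) →
        ∑ j, sg (ε j) * (Real.sin (θ j) ^ 2 / Real.cos (θ j)) ≤ -c0)) ∧
      ∑ j, sg (ε j) * (2 * Real.cos (x j)) = E := by
  have hd0 : (3 : ℝ) ≤ d := by exact_mod_cast hd
  have hdp : (0 : ℝ) < d := by linarith only [hd0]
  obtain ⟨η, hη⟩ : ∃ η : ℝ, η = min (δ / (2 * d)) (1 / 2) := ⟨_, rfl⟩
  have hη0 : 0 < η := by
    rw [hη]
    exact lt_min (by positivity) (by norm_num)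
  have hη2 : η ≤ 1 / 2 := hη ▸ min_le_right _ _
  have hη1 : 2 * d - δ ≤ 2 * d * (1 - η) := by
    have h1 : η ≤ δ / (2 * d) := hη ▸ min_le_left _ _
    rw [le_div_iff₀ (by positivity)] at h1
    linarith only [h1]
  refine ⟨η / (36 * d ^ 3), min (1 / (4 * d)) (η / 2), η / 2, by positivity, ?_,
    lt_min (by positivity) (by positivity), by positivity, fun E hE => ?_⟩
  · rw [div_le_iff₀ (by positivity)]
    have : (1 : ℝ) ≤ (d : ℝ) ^ 3 := one_le_pow₀ (by linarith only [hd0, hη0, hη2])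
    linarith only [hη0, hη2, this]
  · obtain ⟨c, ε, hc, hs, he⟩ := pts_pos hd hη0 hη2 (abs_nonneg E) (hE.trans hη1)
    have hb := fun j => bp_arccos hd hη0 hη2 (hc j).1 (hc j).2
    have hsum : ∀ θ : Fin d → ℝ, (∀ j, θ j ∈ Icc (Real.arccos (c j) - 2 * (η / (36 * d ^ 3)))
        (Real.arccos (c j) + 2 * (η / (36 * d ^ 3)))) →
        η / 2 ≤ ∑ j, sg (ε j) * (Real.sin (θ j) ^ 2 / Real.cos (θ j)) := by
      intro θ hθ
      have h1 : ∑ j, sg (ε j) * (1 / c j - c j) - ∑ _j : Fin d, η / (2 * d) ≤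
          ∑ j, sg (ε j) * (Real.sin (θ j) ^ 2 / Real.cos (θ j)) := by
        rw [← Finset.sum_sub_distrib]
        refine Finset.sum_le_sum fun j _ => ?_
        have h2 := abs_le.1 ((hb j).2 (θ j) (hθ j))
        cases ε j
        · simp only [sg, Bool.false_eq_true, if_false]
          linarith only [h2]
        · simp only [sg, if_true]
          linarith only [h2]
      have h2 : ∑ _j : Fin d, η / (2 * d) = η / 2 := by
        rw [Finset.sum_const, Finset.card_univ, Fintype.card_fin, nsmul_eq_mul]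
        field_simp
      rw [h2] at h1
      linarith only [hs, h1]
    have hcos : ∀ j, Real.cos (Real.arccos (c j)) = c j := fun j =>
      Real.cos_arccos (by
        have : 0 < 1 / (2 * d : ℝ) := by positivity
        linarith only [(hc j).1, hη0, hη2, this]) (by linarith only [(hc j).2, hη0])
    rcases le_total 0 E with h0 | h0
    · refine ⟨fun j => Real.arccos (c j), ε, fun j => (hb j).1, Or.inl hsum, ?_⟩
      simp only [hcos]
      rw [he, abs_of_nonneg h0]
    · refine ⟨fun j => Real.arccos (c j), fun j => !(ε j), fun j => (hb j).1,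
        Or.inr fun θ hθ => ?_, ?_⟩
      · have h1 := hsum θ hθ
        have h2 : ∑ j, sg (!(ε j)) * (Real.sin (θ j) ^ 2 / Real.cos (θ j)) =
            -∑ j, sg (ε j) * (Real.sin (θ j) ^ 2 / Real.cos (θ j)) := by
          rw [← Finset.sum_neg_distrib]
          refine Finset.sum_congr rfl fun j _ => ?_
          cases ε j <;> simp [sg]
        rw [h2]
        linarith only [h1]
      · simp only [hcos]
        have h2 : ∑ j, sg (!(ε j)) * (2 * c j) = -∑ j, sg (ε j) * (2 * c j) := by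
          rw [← Finset.sum_neg_distrib]
          refine Finset.sum_congr rfl fun j _ => ?_
          cases ε j <;> simp [sg]
        rw [h2, he, abs_of_nonpos h0, neg_neg]

end Pool.Agent.LE.H28V
end
end -- Pool.Agent.Helper28_LSP.PTS

section -- Pool.Agent.Helper28_LSP.KRB

/-!
# KRB: the kernel bound and the main term
-/

set_option autoImplicit false

open MeasureTheory Set Complex

open scoped BigOperators

noncomputable section

namespace Pool.Agent.LE.H28V

open Pool.Agent.LE.CL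

/-- the base point on the circle -/
def t0 (b : Bool) (x : ℝ) : ℝ := if b then x else Real.pi - x

theorem hh_t0 (b : Bool) (x r t : ℝ) (n : ℤ) :
    hh (t0 b x) r t n = (if b then 1 else cexp (I * (n * Real.pi : ℝ))) * cx b (hh x r t n) := by
  cases b
  · simp only [t0, cx, Bool.false_eq_true, if_false]
    exact hh_reflect x r t n
  · simp [t0, cx]

theorem cos_t0 (b : Bool) (x : ℝ) : 2 * Real.cos (t0 b x) = sg b * (2 * Real.cos x) := by
  cases b
  · simp only [t0, sg, Bool.false_eq_true, if_false]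
    rw [Real.cos_pi_sub]
    ring
  · simp [t0, sg]

theorem mp_t0 {x r κ : ℝ} (hb : Bp x r κ) (b : Bool) : Mp (t0 b x) r κ := by
  refine ⟨hb.hr, hb.hr2, hb.hκ, fun θ hθ => ?_⟩
  cases b
  · simp only [t0, Bool.false_eq_true, if_false] at hθ
    rw [← Real.sin_pi_sub]
    exact hb.hsin _ ⟨by linarith [hθ.2], by linarith [hθ.1]⟩
  · simp only [t0, if_true] at hθ
    exact hb.hsin _ hθ

/-- KRB -/
theorem krb : KrbStmt := by
  intro d δ hd hδ
  obtain ⟨r, κ, c0, hr, hr2, hκ, hc0, hpts⟩ := pts d δ hd hδ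
  obtain ⟨k, rfl⟩ : ∃ k, d = k + 1 := ⟨d - 1, by omega⟩
  set c := r ^ 3 / 32 * (κ * r / (2 * (k + 1)) * r ^ 2) ^ k with hc
  have hc1 : 0 < c := by positivity
  obtain ⟨K, hK⟩ : ∃ K : ℕ, 8 / κ / 2 ^ K < c / 2 := by
    obtain ⟨K, hK⟩ := pow_unbounded_of_one_lt (8 / κ / (c / 2)) (one_lt_two (α := ℝ))
    refine ⟨K, ?_⟩
    rw [div_lt_iff₀ (by positivity)] at hK ⊢
    linarith only [hK]
  set C1 := 4 / (κ * r) * (8 / κ) ^ (k + 1 - 1) +
    8 * (1 + ((k + 1 : ℕ) : ℝ)) * (48 / κ ^ 4) ^ (k + 1) / Real.sqrt c0 with hC1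
  refine ⟨r, c / 2, max C1 (2 ^ K), hr, hr2, by positivity,
    (one_le_pow₀ (by norm_num)).trans (le_max_right _ _), fun E hE => ?_⟩
  obtain ⟨x, ε, hb, hψ, hsum⟩ := hpts E hE
  refine ⟨fun j => t0 (ε j) (x j), fun j => ?_, fun T hT n => ?_, fun T hT => ?_⟩
  · have h1 := (hb j).lo
    have h2 := (hb j).hi
    have hπ := Real.pi_pos
    change 2 * r ≤ t0 (ε j) (x j) ∧ t0 (ε j) (x j) ≤ Real.pi - 2 * r
    generalize ε j = b
    cases b
    · simp only [t0, Bool.false_eq_true, if_false]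
      exact ⟨by linarith only [hr, h1, h2], by linarith only [h1]⟩
    · simp only [t0, if_true]
      exact ⟨by linarith only [h1], by linarith only [hr, h1, h2]⟩
  · have hT0 : 0 < T := by linarith only [hr, hr2, hT]
    set u : ℂ := ∏ j, (if ε j then 1 else cexp (I * ((n j : ℝ) * Real.pi : ℝ))) with hu
    have hu1 : ‖u‖ = 1 := by
      rw [hu, norm_prod]
      refine Finset.prod_eq_one fun j _ => ?_
      generalize ε j = b
      cases b
      · simp only [Bool.false_eq_true, if_false]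
        exact norm_exp_I _
      · simp
    have e1 : ∫ t in T..(2 * T), cexp (I * ((t * E : ℝ) : ℂ)) *
        ∏ j, hh (t0 (ε j) (x j)) r t (n j) = u * ∫ t in T..(2 * T), fx x ε r E n t := by
      rw [← intervalIntegral.integral_const_mul]
      refine intervalIntegral.integral_congr fun t _ => ?_
      simp only [fx, hh_t0]
      rw [Finset.prod_mul_distrib, hu]
      ring
    rw [e1, norm_mul, hu1, one_mul]
    refine (krn hb (by omega) hc0 hψ hT0 n E).trans ?_
    refine div_le_div_of_nonneg_right ?_ (by positivity)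
    exact (le_of_eq hC1.symm).trans (le_max_left _ _)
  · have hE2 : ∑ j, 2 * Real.cos (t0 (ε j) (x j)) = E := by
      rw [← hsum]
      exact Finset.sum_congr rfl fun j _ => cos_t0 _ _
    obtain ⟨T', h1, h2, h3⟩ := mtm (fun j => mp_t0 (hb j) (ε j)) hc1 le_rfl hK hT hE2
    refine ⟨T', h1, h2.trans ?_, h3⟩
    exact mul_le_mul_of_nonneg_right (le_max_right _ _) (by linarith only [hr, hr2, hT])

end Pool.Agent.LE.H28V
end
end -- Pool.Agent.Helper28_LSP.KRB

section -- Pool.Agent.Helper53_LIR.K1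

/-!
# The kernel bound near the edge: one coordinate

The base point is `x = 8 r`, `r` small; on `[x - 2 r, x + 2 r] = [6 r, 10 r]` the sine is between `3 r`
and `10 r`, the cosine is at least `1 / 2`.
-/

set_option autoImplicit false

open MeasureTheory Set Complex

open scoped BigOperators

noncomputable section

namespace Pool.Agent.LE.H53K

open Pool.Agent.LE.CL Pool.Agent.LE.H28V

/-- the conditions -/
structure Be (x r : ℝ) : Prop where
  hr : 0 < r
  hr2 : r ≤ 1 / 32
  hx : x = 8 * r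

section be

variable {x r : ℝ} (hb : Be x r)
include hb

theorem Be.mem {θ : ℝ} (h : θ ∈ Icc (x - 2 * r) (x + 2 * r)) : 6 * r ≤ θ ∧ θ ≤ 10 * r := by
  have := hb.hx
  exact ⟨by linarith [h.1], by linarith [h.2]⟩

theorem Be.cos_ge {θ : ℝ} (h : θ ∈ Icc (x - 2 * r) (x + 2 * r)) : 1 / 2 ≤ Real.cos θ := by
  have h1 := hb.mem h
  have hr := hb.hr
  have hr2 := hb.hr2
  have h2 := Real.one_sub_sq_div_two_le_cos (x := θ)
  have h3 : θ ^ 2 ≤ 1 := by nlinarith only [h1, hr, hr2]
  linarith only [h2, h3]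

theorem Be.sin_ge {θ : ℝ} (h : θ ∈ Icc (x - 2 * r) (x + 2 * r)) : 3 * r ≤ Real.sin θ := by
  have h1 := hb.mem h
  have hr := hb.hr
  have hr2 := hb.hr2
  have hπ := Real.pi_gt_three
  have hπ4 := Real.pi_le_four
  have h2 : 2 / Real.pi * θ ≤ Real.sin θ := Real.mul_le_sin (by linarith only [h1, hr]) (by linarith only [h1, hr, hr2, hπ])
  have h3 : 1 / 2 ≤ 2 / Real.pi := by
    rw [div_le_div_iff₀ (by norm_num) (by positivity)]
    linarith only [hπ4]
  have h4 : 1 / 2 * θ ≤ 2 / Real.pi * θ := mul_le_mul_of_nonneg_right h3 (by linarith only [h1, hr])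
  linarith only [h1, h2, h4]

theorem Be.sin_le {θ : ℝ} (h : θ ∈ Icc (x - 2 * r) (x + 2 * r)) : Real.sin θ ≤ 10 * r := by
  have h1 := hb.mem h
  have hr := hb.hr
  have h2 := Real.sin_le (x := θ) (by linarith)
  linarith

theorem Be.bp : Bp x r (3 * r) := by
  have hr := hb.hr
  have hr2 := hb.hr2
  have hx := hb.hx
  have hπ := Real.pi_gt_three
  refine ⟨hr, by linarith only [hr, hr2], by linarith only [hr], by linarith, by linarith only [hr, hx], by linarith, fun θ hθ => ?_,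
    fun θ hθ => hb.sin_ge hθ⟩
  have := hb.cos_ge hθ
  linarith only [hr, hr2, this]

theorem Be.mp : Mp x r (3 * r) := ⟨hb.hr, by linarith only [hb.hr2], by linarith [hb.hr],
  fun _ hθ => hb.sin_ge hθ⟩

/-- with a bound for the partial integrals of the phase factor -/
theorem Be.hh_le {t K : ℝ} {n : ℤ}
    (hK : ∀ y ∈ Icc (x - r) (x + r), ‖∫ θ in (x - r)..y, cexp (I * ph t n θ)‖ ≤ K) :
    ‖hh x r t n‖ ≤ 4 * r ^ 2 * K := by
  have hr := hb.hr
  have hab : x - r ≤ x + r := by linarith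
  have hK0 : 0 ≤ K := (norm_nonneg _).trans (hK _ (left_mem_Icc.2 hab))
  rw [hh_eq]
  refine (amp (g' := fun θ => ((-(2 * (θ - x)) : ℝ) : ℂ)) hab (cont_exp_ph t n).continuousOn
    (fun θ _ => aq_deriv x r θ)
    (Complex.continuous_ofReal.comp (by fun_prop)).continuousOn hK).trans ?_
  have e1 : ((r ^ 2 - (x + r - x) ^ 2 : ℝ) : ℂ) = 0 := by
    rw [show r ^ 2 - (x + r - x) ^ 2 = 0 by ring]
    simp
  rw [e1, norm_zero, zero_add]
  have e2 : ∫ θ in (x - r)..(x + r), ‖((-(2 * (θ - x)) : ℝ) : ℂ)‖ ≤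
      ∫ _θ in (x - r)..(x + r), (2 * r : ℝ) := by
    refine intervalIntegral.integral_mono_on hab ?_ ?_ ?_
    · exact (Complex.continuous_ofReal.comp (by fun_prop)).norm.intervalIntegrable _ _
    · exact continuous_const.intervalIntegrable _ _
    · intro θ hθ
      rw [Complex.norm_real, Real.norm_eq_abs, abs_neg, abs_mul, abs_two]
      have : |θ - x| ≤ r := abs_le.2 ⟨by linarith [hθ.1], by linarith [hθ.2]⟩
      linarith
  rw [intervalIntegral.integral_const, smul_eq_mul] at e2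
  have e3 : (x + r - (x - r)) * (2 * r) = 4 * r ^ 2 := by ring
  rw [e3] at e2
  calc K * _ ≤ K * (4 * r ^ 2) := mul_le_mul_of_nonneg_left e2 hK0
    _ = 4 * r ^ 2 * K := mul_comm _ _

theorem Be.sub {θ : ℝ} (h : θ ∈ Icc (x - r) (x + r)) : θ ∈ Icc (x - 2 * r) (x + 2 * r) :=
  ⟨by linarith [h.1, hb.hr], by linarith [h.2, hb.hr]⟩

/-- the partial integrals, second derivative -/
theorem Be.part {t : ℝ} (ht : 0 < t) (n : ℤ) {y : ℝ} (hy : y ∈ Icc (x - r) (x + r)) :
    ‖∫ θ in (x - r)..y, cexp (I * ph t n θ)‖ ≤ 8 / Real.sqrt t := by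
  exact vdc2 (F := ph t n) (F1 := fun θ => n + 2 * t * Real.sin θ)
    (F2 := fun θ => 2 * t * Real.cos θ) (a := x - r) (b := y) (mu := t) hy.1
    (fun θ _ => ph_deriv t n θ) (fun θ _ => ph_deriv2 t n θ)
    (Continuous.continuousOn (by fun_prop)) ht (fun θ hθ => by
      have h1 := hb.cos_ge (hb.sub ⟨hθ.1, hθ.2.trans hy.2⟩)
      nlinarith only [mul_le_mul_of_nonneg_right h1 ht.le])

/-- (H1) -/
theorem Be.h1 {t : ℝ} (ht : 0 < t) (n : ℤ) : ‖hh x r t n‖ ≤ 32 * r ^ 2 / Real.sqrt t := by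
  refine (hb.hh_le fun _ hy => hb.part ht n hy).trans (le_of_eq ?_)
  ring

/-- the sine grows -/
theorem Be.sin_grow {p q : ℝ} (hp : p ∈ Icc (x - 2 * r) (x + 2 * r))
    (hq : q ∈ Icc (x - 2 * r) (x + 2 * r)) (hpq : p ≤ q) :
    1 / 2 * (q - p) ≤ Real.sin q - Real.sin p := by
  refine (convex_Icc (x - 2 * r) (x + 2 * r)).mul_sub_le_image_sub_of_le_deriv
    Real.continuous_sin.continuousOn Real.differentiable_sin.differentiableOn ?_ p hp q hq hpq
  intro z hz
  rw [Real.deriv_sin]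
  rw [interior_Icc] at hz
  exact hb.cos_ge (Ioo_subset_Icc_self hz)

/-- (H2) -/
theorem Be.h2 {t : ℝ} (ht : 0 < t) (n : ℤ) (hn : ¬ Rg x r n t) :
    ‖hh x r t n‖ ≤ 16 * r / t := by
  have hr := hb.hr
  have hl : x - 2 * r ∈ Icc (x - 2 * r) (x + 2 * r) := left_mem_Icc.2 (by linarith only [hr])
  have hrr : x + 2 * r ∈ Icc (x - 2 * r) (x + 2 * r) := right_mem_Icc.2 (by linarith)
  have key : ‖hh x r t n‖ ≤ 4 * r ^ 2 * (4 / (t * r)) := by
    refine hb.hh_le fun y hy => ?_
    refine vdc1 (F := ph t n) (F1 := fun θ => n + 2 * t * Real.sin θ)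
      (F2 := fun θ => 2 * t * Real.cos θ) hy.1
      (fun θ _ => ph_deriv t n θ) (fun θ _ => ph_deriv2 t n θ)
      (Continuous.continuousOn (by fun_prop)) (fun θ hθ => ?_) (by positivity) (fun θ hθ => ?_)
    · have h1 := hb.cos_ge (hb.sub ⟨hθ.1, hθ.2.trans hy.2⟩)
      exact mul_nonneg (by positivity) (by linarith only [h1])
    · have hθ' : θ ∈ Icc (x - r) (x + r) := ⟨hθ.1, hθ.2.trans hy.2⟩
      unfold Rg at hn
      rcases not_and_or.1 hn with h | h
      · push Not at h
        have h1 := hb.sin_grow hl (hb.sub hθ') (hb.sub hθ').1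
        have h2 : 1 / 2 * r ≤ Real.sin θ - Real.sin (x - 2 * r) := by linarith only [hθ'.1, h1]
        refine le_trans ?_ (le_abs_self _)
        nlinarith only [mul_le_mul_of_nonneg_left h2 ht.le, h]
      · push Not at h
        have h1 := hb.sin_grow (hb.sub hθ') hrr (hb.sub hθ').2
        have h2 : 1 / 2 * r ≤ Real.sin (x + 2 * r) - Real.sin θ := by linarith [hθ'.2]
        refine le_trans ?_ (neg_le_abs _)
        nlinarith only [mul_le_mul_of_nonneg_left h2 ht.le, h]
  refine key.trans (le_of_eq ?_)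
  field_simp
  ring

theorem Be.half {θ s : ℝ} (hθ : θ ∈ Icc (x - r) (x + r)) (hs : s ∈ Icc (x - 2 * r) (x + 2 * r)) :
    (θ + s) / 2 ∈ Icc (x - 2 * r) (x + 2 * r) := by
  have h := hb.sub hθ
  exact ⟨by linarith only [h.1, hs.1], by linarith [h.2, hs.2]⟩

theorem Be.q_bound {θ s : ℝ} (hθ : θ ∈ Icc (x - r) (x + r))
    (hs : s ∈ Icc (x - 2 * r) (x + 2 * r)) :
    |q1 x r s θ| ≤ 42 * r ^ 2 ∧ |q2 x r s θ| ≤ 50 * r := by
  have hr := hb.hr
  have hr2 := hb.hr2
  have hm := hb.half hθ hs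
  have hc := hb.cos_ge hm
  have hc0 : 0 < Real.cos ((θ + s) / 2) := by linarith only [hr, hr2, hc]
  have hs1 := hb.sin_le hm
  have hs0 : 0 ≤ Real.sin ((θ + s) / 2) := by linarith only [hb.sin_ge hm, hr]
  have hθx : |θ - x| ≤ r := abs_le.2 ⟨by linarith only [hθ.1], by linarith only [hθ.2]⟩
  have ha1 : |(-(2 * (θ - x)))| ≤ 2 * r := by
    rw [abs_neg, abs_mul, abs_two]
    linarith only [hθx]
  have ha0 : |r ^ 2 - (θ - x) ^ 2| ≤ r ^ 2 := by
    have h1 : (θ - x) ^ 2 ≤ r ^ 2 := sq_le_sq' (by linarith only [(abs_le.1 hθx).1])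
      (abs_le.1 hθx).2
    rw [abs_of_nonneg (by linarith only [h1])]
    linarith only [sq_nonneg (θ - x)]
  have htan : |Real.tan ((θ + s) / 2)| ≤ 20 * r := by
    rw [Real.tan_eq_sin_div_cos, abs_div, abs_of_pos hc0, abs_of_nonneg hs0, div_le_iff₀ hc0]
    nlinarith only [hr, hc, hs1]
  have hsec : |1 / Real.cos ((θ + s) / 2) ^ 2 / 2| ≤ 2 := by
    rw [abs_of_nonneg (by positivity)]
    have h1 : (1 / 2 : ℝ) ^ 2 ≤ Real.cos ((θ + s) / 2) ^ 2 :=
      pow_le_pow_left₀ (by norm_num) hc 2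
    have h2 : 1 / Real.cos ((θ + s) / 2) ^ 2 ≤ 4 := by
      rw [div_le_iff₀ (by positivity)]
      linarith only [h1]
    linarith only [h2]
  have hsc : |Real.sin ((θ + s) / 2) / Real.cos ((θ + s) / 2) ^ 3 / 2| ≤ 40 * r := by
    rw [abs_div, abs_div, abs_two, abs_of_pos (show 0 < Real.cos ((θ + s) / 2) ^ 3 by positivity),
      abs_of_nonneg hs0]
    have h1 : (1 / 2 : ℝ) ^ 3 ≤ Real.cos ((θ + s) / 2) ^ 3 :=
      pow_le_pow_left₀ (by norm_num) hc 3
    have h2 : Real.sin ((θ + s) / 2) / Real.cos ((θ + s) / 2) ^ 3 ≤ 80 * r := by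
      rw [div_le_iff₀ (by positivity)]
      nlinarith only [hr, hs1, h1]
    linarith only [h2]
  have mul1 : ∀ u v a b : ℝ, |u| ≤ a → |v| ≤ b → |u * v| ≤ a * b := by
    intro u v a b h1 h2
    rw [abs_mul]
    exact mul_le_mul h1 h2 (abs_nonneg _) ((abs_nonneg _).trans h1)
  have e1 := mul1 _ _ _ _ ha1 htan
  have e2 := mul1 _ _ _ _ ha0 hsec
  have e3 := mul1 _ _ _ _ ha1 hsec
  have e4 := mul1 _ _ _ _ ha0 hsc
  have e5 : |(-2) * Real.tan ((θ + s) / 2)| ≤ 2 * (20 * r) := by
    rw [abs_mul, abs_neg, abs_two]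
    linarith only [htan]
  constructor
  · unfold q1
    refine (abs_add_le _ _).trans ?_
    nlinarith only [e1, e2]
  · unfold q2
    refine (abs_add_le _ _).trans ?_
    refine (add_le_add (abs_add_le _ _) (abs_add_le _ _)).trans ?_
    have e6 : r ^ 2 * (40 * r) ≤ 2 * r := by
      have : r ^ 2 ≤ 1 / 32 := by nlinarith only [hr, hr2]
      nlinarith only [hr, hr2]
    linarith only [e3, e4, e5, e6]

/-- the amplitude derivative is small -/
theorem Be.amp_deriv {t s : ℝ} (ht : 0 < t) {n : ℤ} (hs : s ∈ Icc (x - 2 * r) (x + 2 * r))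
    (hn : 2 * t * Real.sin s = -(n : ℝ)) :
    ‖hd x r t n + I * (2 * Real.cos s : ℝ) * hh x r t n‖ ≤ 1200 * r ^ 2 / (t * Real.sqrt t) := by
  have hr := hb.hr
  have hab : x - r ≤ x + r := by linarith
  have huI : uIcc (x - r) (x + r) = Icc (x - r) (x + r) := uIcc_of_le hab
  have hne : ∀ θ ∈ Icc (x - r) (x + r), Real.cos ((θ + s) / 2) ≠ 0 := fun θ hθ =>
    (show 0 < Real.cos ((θ + s) / 2) by linarith only [hb.cos_ge (hb.half hθ hs)]).ne'
  have hq0d : ∀ θ ∈ Icc (x - r) (x + r), HasDerivAt (fun θ => (q0 x r s θ : ℂ))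
      (q1 x r s θ : ℂ) θ := fun θ hθ => (q0_deriv (hne θ hθ)).ofReal_comp
  have hq1d : ∀ θ ∈ Icc (x - r) (x + r), HasDerivAt (fun θ => (q1 x r s θ : ℂ))
      (q2 x r s θ : ℂ) θ := fun θ hθ => (q1_deriv (hne θ hθ)).ofReal_comp
  have hq1c : ContinuousOn (fun θ => (q1 x r s θ : ℂ)) (Icc (x - r) (x + r)) := fun θ hθ =>
    (hq1d θ hθ).continuousAt.continuousWithinAt
  have htanc : ContinuousOn (fun θ : ℝ => Real.tan ((θ + s) / 2)) (Icc (x - r) (x + r)) :=
    fun θ hθ => (tan_deriv (hne θ hθ)).continuousAt.continuousWithinAt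
  have hcc : ContinuousOn (fun θ : ℝ => Real.cos ((θ + s) / 2)) (Icc (x - r) (x + r)) :=
    Continuous.continuousOn (by fun_prop)
  have hsecc : ContinuousOn (fun θ : ℝ => 1 / Real.cos ((θ + s) / 2) ^ 2 / 2)
      (Icc (x - r) (x + r)) := fun θ hθ => (sec_deriv (hne θ hθ)).continuousAt.continuousWithinAt
  have hscc : ContinuousOn (fun θ : ℝ => Real.sin ((θ + s) / 2) / Real.cos ((θ + s) / 2) ^ 3 / 2)
      (Icc (x - r) (x + r)) :=
    ((Continuous.continuousOn (by fun_prop)).div (hcc.pow 3)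
      fun θ hθ => pow_ne_zero 3 (hne θ hθ)).div_const 2
  have hq2r : ContinuousOn (q2 x r s) (Icc (x - r) (x + r)) := by
    unfold q2
    refine ((continuousOn_const.mul htanc).add ((Continuous.continuousOn (by fun_prop)).mul
      hsecc)).add (((Continuous.continuousOn (by fun_prop)).mul hsecc).add
      ((Continuous.continuousOn (by fun_prop)).mul hscc))
  have hq2c : ContinuousOn (fun θ => (q2 x r s θ : ℂ)) (Icc (x - r) (x + r)) :=
    Complex.continuous_ofReal.comp_continuousOn hq2r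
  set v : ℝ → ℂ := fun θ => cexp (I * ph t n θ) with hv
  set v' : ℝ → ℂ := fun θ => cexp (I * ph t n θ) * (I * (n + 2 * t * Real.sin θ : ℝ)) with hv'
  have hvd : ∀ θ ∈ uIcc (x - r) (x + r), HasDerivAt v (v' θ) θ := fun θ _ =>
    ((ph_deriv t n θ).ofReal_comp.const_mul I).cexp
  have hv'c : Continuous v' := (cont_exp_ph t n).mul (continuous_const.mul
    (Complex.continuous_ofReal.comp (by fun_prop)))
  have key := intervalIntegral.integral_mul_deriv_eq_deriv_mul
    (u := fun θ => (q0 x r s θ : ℂ)) (v := v) (u' := fun θ => (q1 x r s θ : ℂ)) (v' := v')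
    (a := x - r) (b := x + r) (fun θ hθ => hq0d θ (huI ▸ hθ)) hvd
    (ContinuousOn.intervalIntegrable (huI ▸ hq1c)) (hv'c.intervalIntegrable _ _)
  have z1 : q0 x r s (x + r) = 0 := by
    unfold q0
    rw [show r ^ 2 - (x + r - x) ^ 2 = 0 by ring, zero_mul]
  have z2 : q0 x r s (x - r) = 0 := by
    unfold q0
    rw [show r ^ 2 - (x - r - x) ^ 2 = 0 by ring, zero_mul]
  rw [z1, z2, ofReal_zero, zero_mul, zero_mul, sub_zero, zero_sub] at key
  have hc1 : Continuous fun θ : ℝ => ((r ^ 2 - (θ - x) ^ 2 : ℝ) : ℂ) * cexp (I * ph t n θ) :=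
    (Complex.continuous_ofReal.comp (by fun_prop)).mul (cont_exp_ph t n)
  have hc2 : Continuous fun θ : ℝ => ((r ^ 2 - (θ - x) ^ 2 : ℝ) : ℂ) *
      (cexp (I * ph t n θ) * (I * (-(2 * Real.cos θ) : ℝ))) :=
    (Complex.continuous_ofReal.comp (by fun_prop)).mul ((cont_exp_ph t n).mul
      (continuous_const.mul (Complex.continuous_ofReal.comp (by fun_prop))))
  have hc3 : Continuous fun θ : ℝ => I * ((2 * Real.cos s : ℝ) : ℂ) *
      (((r ^ 2 - (θ - x) ^ 2 : ℝ) : ℂ) * cexp (I * ph t n θ)) := continuous_const.mul hc1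
  have e1 : hd x r t n + I * (2 * Real.cos s : ℝ) * hh x r t n =
      ((t⁻¹ : ℝ) : ℂ) * ∫ θ in (x - r)..(x + r), (q0 x r s θ : ℂ) * v' θ := by
    rw [hh_eq, hd, ← intervalIntegral.integral_const_mul, ← intervalIntegral.integral_add
      (hc2.intervalIntegrable _ _) (hc3.intervalIntegrable _ _),
      ← intervalIntegral.integral_const_mul]
    refine intervalIntegral.integral_congr fun θ hθ => ?_
    rw [huI] at hθ
    have h1 := tan_id (hne θ hθ)
    have h2 : ((2 * Real.cos s - 2 * Real.cos θ : ℝ) : ℂ) = ((t⁻¹ * (Real.tan ((θ + s) / 2) *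
        (n + 2 * t * Real.sin θ)) : ℝ) : ℂ) := by
      rw [h1]
      congr 1
      have h3 : (n : ℝ) + 2 * t * Real.sin θ = t * (2 * Real.sin θ - 2 * Real.sin s) := by
        rw [show (n : ℝ) = -(2 * t * Real.sin s) by rw [hn]; ring]
        ring
      rw [h3]
      field_simp
    change ((r ^ 2 - (θ - x) ^ 2 : ℝ) : ℂ) * (cexp (I * ph t n θ) * (I * (-(2 * Real.cos θ) : ℝ))) +
      I * (2 * Real.cos s : ℝ) * (((r ^ 2 - (θ - x) ^ 2 : ℝ) : ℂ) * cexp (I * ph t n θ)) =
      ((t⁻¹ : ℝ) : ℂ) * (((r ^ 2 - (θ - x) ^ 2) * Real.tan ((θ + s) / 2) : ℝ) *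
        (cexp (I * ph t n θ) * (I * (n + 2 * t * Real.sin θ : ℝ))))
    have h4 : ((r ^ 2 - (θ - x) ^ 2 : ℝ) : ℂ) * (cexp (I * ph t n θ) *
        (I * (-(2 * Real.cos θ) : ℝ))) +
      I * (2 * Real.cos s : ℝ) * (((r ^ 2 - (θ - x) ^ 2 : ℝ) : ℂ) * cexp (I * ph t n θ)) =
      ((r ^ 2 - (θ - x) ^ 2 : ℝ) : ℂ) * cexp (I * ph t n θ) * I *
        ((2 * Real.cos s - 2 * Real.cos θ : ℝ) : ℂ) := by
      push_cast
      ring
    rw [h4, h2]
    push_cast
    ring
  rw [e1, key, norm_mul, Complex.norm_real, Real.norm_of_nonneg (by positivity), norm_neg]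
  have h5 := amp (f := v) (g := fun θ => (q1 x r s θ : ℂ)) (g' := fun θ => (q2 x r s θ : ℂ)) hab
    (cont_exp_ph t n).continuousOn hq1d hq2c (fun y hy => hb.part ht n hy)
  have h6 : ‖((q1 x r s (x + r) : ℝ) : ℂ)‖ ≤ 42 * r ^ 2 := by
    rw [Complex.norm_real]
    exact (hb.q_bound (right_mem_Icc.2 hab) hs).1
  have h7 : ∫ θ in (x - r)..(x + r), ‖(q2 x r s θ : ℂ)‖ ≤ 100 * r ^ 2 := by
    have h8 : ∫ θ in (x - r)..(x + r), ‖(q2 x r s θ : ℂ)‖ ≤
        ∫ _θ in (x - r)..(x + r), (50 * r : ℝ) := by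
      refine intervalIntegral.integral_mono_on hab ?_ ?_ ?_
      · exact ContinuousOn.intervalIntegrable (huI ▸ hq2c.norm)
      · exact continuous_const.intervalIntegrable _ _
      · intro θ hθ
        rw [Complex.norm_real]
        exact (hb.q_bound hθ hs).2
    rw [intervalIntegral.integral_const, smul_eq_mul] at h8
    refine h8.trans (le_of_eq ?_)
    ring
  have h8 : ‖∫ θ in (x - r)..(x + r), (q1 x r s θ : ℂ) * v θ‖ ≤
      8 / Real.sqrt t * (142 * r ^ 2) := by
    refine h5.trans (mul_le_mul_of_nonneg_left ?_ (by positivity))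
    linarith only [h6, h7]
  have hst : 0 < Real.sqrt t := Real.sqrt_pos.2 ht
  calc t⁻¹ * ‖∫ θ in (x - r)..(x + r), (q1 x r s θ : ℂ) * v θ‖
      ≤ t⁻¹ * (8 / Real.sqrt t * (142 * r ^ 2)) :=
        mul_le_mul_of_nonneg_left h8 (by positivity)
    _ = 1136 * r ^ 2 / (t * Real.sqrt t) := by
        field_simp
        ring
    _ ≤ 1200 * r ^ 2 / (t * Real.sqrt t) := by
        apply div_le_div_of_nonneg_right _ (by positivity)
        nlinarith only [sq_nonneg r]

theorem Be.bm1_le {n : ℤ} {t : ℝ} (ht : 0 < t) (hR : Rg x r n t) :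
    ‖bm1 x r n t‖ ≤ 1200 * r ^ 2 / (t * Real.sqrt t) := by
  unfold bm1
  rw [norm_mul, ← mul_neg, ← Complex.ofReal_neg, norm_exp_I, mul_one]
  exact hb.amp_deriv ht (hb.bp.tha_mem ht hR) (hb.bp.sin_tha ht hR)

end be

end Pool.Agent.LE.H53K
end
end -- Pool.Agent.Helper53_LIR.K1

section -- Pool.Agent.Helper53_LIR.K2

/-!
# The kernel bound near the edge
-/

set_option autoImplicit false

open MeasureTheory Set Complex

open scoped BigOperators

noncomputable section

namespace Pool.Agent.LE.H53K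

open Pool.Agent.LE.CL Pool.Agent.LE.H28V

section main

variable {d : ℕ} {x r : ℝ}

/-- the integrand -/
def gx (d : ℕ) (x r E : ℝ) (n : Fin d → ℤ) (t : ℝ) : ℂ :=
  cexp (I * (t * E : ℝ)) * ∏ j, hh x r t (n j)

theorem gx_cont (x r E : ℝ) (n : Fin d → ℤ) : Continuous (gx d x r E n) := by
  unfold gx
  refine (Complex.continuous_exp.comp (continuous_const.mul
    (Complex.continuous_ofReal.comp (by fun_prop)))).mul ?_
  refine continuous_finsetProd _ fun j _ => ?_
  exact continuous_iff_continuousAt.2 fun t => (hh_deriv x r (n j) t).continuousAt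

/-- off the region -/
theorem off (hb : Be x r) {T t : ℝ} (hT : 0 < T) (hTt : T ≤ t) {n : Fin d → ℤ}
    {E : ℝ} (h : ¬ ∀ j, Rg x r (n j) t) :
    ‖gx d x r E n t‖ ≤ 16 * r * (32 * r ^ 2) ^ (d - 1) / (T * Real.sqrt T ^ (d - 1)) := by
  classical
  push Not at h
  obtain ⟨j₀, hj⟩ := h
  have hr := hb.hr
  have ht : 0 < t := hT.trans_le hTt
  have hsT : 0 < Real.sqrt T := Real.sqrt_pos.2 hT
  have hst : Real.sqrt T ≤ Real.sqrt t := Real.sqrt_le_sqrt hTt
  unfold gx
  rw [norm_mul, norm_exp_I, one_mul, norm_prod]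
  rw [← Finset.mul_prod_erase Finset.univ (fun j => ‖hh x r t (n j)‖) (Finset.mem_univ j₀)]
  have h1 : ‖hh x r t (n j₀)‖ ≤ 16 * r / T := by
    refine (hb.h2 ht (n j₀) hj).trans ?_
    exact div_le_div_of_nonneg_left (by positivity) hT hTt
  have h2 : ∏ j ∈ Finset.univ.erase j₀, ‖hh x r t (n j)‖ ≤
      (32 * r ^ 2 / Real.sqrt T) ^ (d - 1) := by
    have h3 := prod_le_pow (a := fun j => ‖hh x r t (n j)‖) (b := 32 * r ^ 2 / Real.sqrt T)
      (Finset.univ.erase j₀) (fun j => norm_nonneg _) fun j => by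
        refine (hb.h1 ht (n j)).trans ?_
        exact div_le_div_of_nonneg_left (by positivity) hsT hst
    rwa [Finset.card_erase_of_mem (Finset.mem_univ _), Finset.card_univ, Fintype.card_fin] at h3
  calc _ ≤ 16 * r / T * (32 * r ^ 2 / Real.sqrt T) ^ (d - 1) :=
        mul_le_mul h1 h2 (Finset.prod_nonneg fun j _ => norm_nonneg _) (by positivity)
    _ = _ := by
        rw [div_pow]
        field_simp

/-- in the region -/
theorem inn (hb : Be x r) (hd : 1 ≤ d)
    {T T1 T2 : ℝ} (hT : 0 < T) (hT1 : T ≤ T1) (h12 : T1 ≤ T2) (hT2 : T2 ≤ 2 * T)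
    {n : Fin d → ℤ} {E : ℝ} (hR : ∀ t ∈ Icc T1 T2, ∀ j, Rg x r (n j) t) :
    ‖∫ t in T1..T2, gx d x r E n t‖ ≤
      8 * (1 + d) * (1200 * r ^ 2) ^ d / (3 * r) / Real.sqrt T ^ (d - 1) := by
  classical
  have hr := hb.hr
  have hbp := hb.bp
  have hsT : 0 < Real.sqrt T := Real.sqrt_pos.2 hT
  have hss : Real.sqrt T * Real.sqrt T = T := Real.mul_self_sqrt hT.le
  have hpos : ∀ t ∈ Icc T1 T2, 0 < t := fun t ht => hT.trans_le (hT1.trans ht.1)
  have hTt : ∀ t ∈ Icc T1 T2, T ≤ t := fun t ht => hT1.trans ht.1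
  have hst : ∀ t ∈ Icc T1 T2, Real.sqrt T ≤ Real.sqrt t := fun t ht =>
    Real.sqrt_le_sqrt (hTt t ht)
  set K := 1200 * r ^ 2 with hK
  have hK0 : 0 < K := by positivity
  have hK8 : 32 * r ^ 2 ≤ K := by
    rw [hK]
    nlinarith only [sq_nonneg r, hK0]
  -- the phase
  set F : ℝ → ℝ := fun t => t * E + ∑ j, p0 (n j) t with hF
  set F1 : ℝ → ℝ := fun t => E + ∑ j, -(2 * Real.cos (tha (n j) t)) with hF1
  set F2 : ℝ → ℝ := fun t => ∑ j, p2 (n j) t with hF2
  have hFd : ∀ t ∈ Icc T1 T2, HasDerivAt F (F1 t) t := by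
    intro t ht
    have h1 : HasDerivAt (fun t => t * E) E t := by
      have := (hasDerivAt_id t).mul_const E
      rwa [one_mul] at this
    exact h1.add (HasDerivAt.fun_sum fun j _ => hbp.p0_deriv (hpos t ht) (hR t ht j))
  have hF1d : ∀ t ∈ Icc T1 T2, HasDerivAt F1 (F2 t) t := by
    intro t ht
    exact (HasDerivAt.fun_sum fun j _ =>
      hbp.p1_deriv (hpos t ht) (hR t ht j)).const_add E
  have hF2c : ContinuousOn F2 (Icc T1 T2) := by
    intro t ht
    refine ContinuousAt.continuousWithinAt ?_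
    refine tendsto_finsetSum _ fun j _ => ?_
    exact hbp.p2_cont (hpos t ht) (hR t ht j)
  have hF2v : ∀ t, F2 t = -(2 / t) * ∑ j,
      (Real.sin (tha (n j) t) ^ 2 / Real.cos (tha (n j) t)) := by
    intro t
    simp only [hF2]
    rw [Finset.mul_sum]
    refine Finset.sum_congr rfl fun j _ => ?_
    unfold p2
    ring
  have hmem : ∀ t ∈ Icc T1 T2, ∀ j, tha (n j) t ∈ Icc (x - 2 * r) (x + 2 * r) :=
    fun t ht j => hbp.tha_mem (hpos t ht) (hR t ht j)
  have hlow : ∀ t ∈ Icc T1 T2, 9 * r ^ 2 ≤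
      ∑ j, (Real.sin (tha (n j) t) ^ 2 / Real.cos (tha (n j) t)) := by
    intro t ht
    have h1 : ∀ j ∈ (Finset.univ : Finset (Fin d)), 9 * r ^ 2 ≤
        Real.sin (tha (n j) t) ^ 2 / Real.cos (tha (n j) t) := by
      intro j _
      have hc := hb.cos_ge (hmem t ht j)
      have hc1 := Real.cos_le_one (tha (n j) t)
      have hs := hb.sin_ge (hmem t ht j)
      rw [le_div_iff₀ (by linarith only [hc])]
      have h2 : (3 * r) ^ 2 ≤ Real.sin (tha (n j) t) ^ 2 :=
        pow_le_pow_left₀ (by positivity) hs 2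
      nlinarith only [sq_nonneg r, hc1, h2]
    have h2 := Finset.sum_le_sum h1
    rw [Finset.sum_const, Finset.card_univ, Fintype.card_fin, nsmul_eq_mul] at h2
    refine le_trans ?_ h2
    have h3 : (1 : ℝ) ≤ d := by exact_mod_cast hd
    nlinarith only [sq_nonneg r, h3]
  have hpart : ∀ y ∈ Icc T1 T2, ‖∫ t in T1..y, cexp (I * F t)‖ ≤
      8 / Real.sqrt (9 * r ^ 2 / T) := by
    intro y hy
    have hsub : ∀ t ∈ Icc T1 y, t ∈ Icc T1 T2 := fun t ht => ⟨ht.1, ht.2.trans hy.2⟩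
    refine vdc2n (F1 := F1) (F2 := F2) hy.1 (fun t ht => hFd t (hsub t ht))
      (fun t ht => hF1d t (hsub t ht)) (hF2c.mono hsub) (by positivity) fun t ht => ?_
    have ht0 := hpos t (hsub t ht)
    have h1 := hlow t (hsub t ht)
    have h2T : 9 * r ^ 2 / T ≤ 2 / t * (9 * r ^ 2) := by
      rw [div_mul_eq_mul_div, div_le_div_iff₀ hT ht0]
      have : t ≤ 2 * T := (hsub t ht).2.trans hT2
      nlinarith only [sq_nonneg r, mul_nonneg (sq_nonneg r) ht0.le, this]
    rw [hF2v]
    have h3 := mul_le_mul_of_nonneg_left h1 (by positivity : 0 ≤ 2 / t)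
    rw [neg_mul]
    linarith only [h2T, h3]
  -- the amplitude
  set G : ℝ → ℂ := fun t => ∏ j, bm x r (n j) t with hG
  set G1 : ℝ → ℂ := fun t => ∑ i, (∏ j ∈ Finset.univ.erase i, bm x r (n j) t) •
    bm1 x r (n i) t with hG1
  have hGd : ∀ t ∈ Icc T1 T2, HasDerivAt G (G1 t) t := by
    intro t ht
    exact HasDerivAt.fun_finsetProd fun j _ => hbp.bm_deriv (hpos t ht) (hR t ht j)
  have hG1c : ContinuousOn G1 (Icc T1 T2) := by
    intro t ht
    refine ContinuousAt.continuousWithinAt ?_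
    refine tendsto_finsetSum _ fun i _ => ?_
    refine Filter.Tendsto.smul ?_ ?_
    · refine tendsto_finsetProd _ fun j _ => ?_
      exact (hbp.bm_deriv (hpos t ht) (hR t ht j)).continuousAt
    · exact hbp.bm1_cont (hpos t ht) (hR t ht i)
  have hbm : ∀ t ∈ Icc T1 T2, ∀ j, ‖bm x r (n j) t‖ ≤ K / Real.sqrt T := by
    intro t ht j
    rw [bm_norm]
    refine (hb.h1 (hpos t ht) (n j)).trans ?_
    exact div_le_div₀ hK0.le hK8 hsT (hst t ht)
  have hbm1 : ∀ t ∈ Icc T1 T2, ∀ j, ‖bm1 x r (n j) t‖ ≤ K / Real.sqrt T / T := by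
    intro t ht j
    refine (hb.bm1_le (hpos t ht) (hR t ht j)).trans ?_
    have ht0 := hpos t ht
    rw [div_div]
    apply div_le_div_of_nonneg_left hK0.le (by positivity)
    rw [mul_comm (Real.sqrt T)]
    exact mul_le_mul (hTt t ht) (hst t ht) hsT.le ht0.le
  have hGn : ∀ t ∈ Icc T1 T2, ‖G t‖ ≤ (K / Real.sqrt T) ^ d := by
    intro t ht
    simp only [hG]
    rw [norm_prod]
    have := prod_le_pow (a := fun j => ‖bm x r (n j) t‖) (b := K / Real.sqrt T)
      Finset.univ (fun j => norm_nonneg _) (hbm t ht)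
    rwa [Finset.card_univ, Fintype.card_fin] at this
  have hG1n : ∀ t ∈ Icc T1 T2, ‖G1 t‖ ≤ d * (K / Real.sqrt T) ^ d / T := by
    intro t ht
    simp only [hG1]
    refine (norm_sum_le _ _).trans ?_
    have h1 : ∀ i ∈ (Finset.univ : Finset (Fin d)),
        ‖(∏ j ∈ Finset.univ.erase i, bm x r (n j) t) •
          bm1 x r (n i) t‖ ≤ (K / Real.sqrt T) ^ d / T := by
      intro i _
      rw [norm_smul, norm_prod]
      have h2 := prod_le_pow (a := fun j => ‖bm x r (n j) t‖)
        (b := K / Real.sqrt T) (Finset.univ.erase i) (fun j => norm_nonneg _) (hbm t ht)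
      rw [Finset.card_erase_of_mem (Finset.mem_univ _), Finset.card_univ, Fintype.card_fin] at h2
      calc _ ≤ (K / Real.sqrt T) ^ (d - 1) * (K / Real.sqrt T / T) :=
            mul_le_mul h2 (hbm1 t ht i) (norm_nonneg _) (by positivity)
        _ = (K / Real.sqrt T) ^ (d - 1 + 1) / T := by rw [pow_succ]; ring
        _ = _ := by rw [Nat.sub_add_cancel hd]
    refine (Finset.sum_le_sum h1).trans (le_of_eq ?_)
    rw [Finset.sum_const, Finset.card_univ, Fintype.card_fin, nsmul_eq_mul]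
    ring
  have hint : ∫ t in T1..T2, ‖G1 t‖ ≤ d * (K / Real.sqrt T) ^ d := by
    have h1 : ∫ t in T1..T2, ‖G1 t‖ ≤ ∫ _t in T1..T2, (d * (K / Real.sqrt T) ^ d / T : ℝ) := by
      refine intervalIntegral.integral_mono_on h12 ?_ ?_ hG1n
      · refine ContinuousOn.intervalIntegrable ?_
        rw [uIcc_of_le h12]
        exact hG1c.norm
      · exact continuous_const.intervalIntegrable _ _
    rw [intervalIntegral.integral_const, smul_eq_mul] at h1
    refine h1.trans ?_
    have h2 : T2 - T1 ≤ T := by linarith only [hT1, hT2]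
    have h3 : 0 ≤ d * (K / Real.sqrt T) ^ d / T := by positivity
    calc (T2 - T1) * (d * (K / Real.sqrt T) ^ d / T) ≤ T * (d * (K / Real.sqrt T) ^ d / T) :=
          mul_le_mul_of_nonneg_right h2 h3
      _ = _ := by field_simp
  have hFc : ContinuousOn (fun t => cexp (I * F t)) (Icc T1 T2) := by
    refine Complex.continuous_exp.comp_continuousOn
      (continuousOn_const.mul (Complex.continuous_ofReal.comp_continuousOn ?_) :
        ContinuousOn (fun t => I * (F t : ℂ)) (Icc T1 T2))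
    exact fun t ht => (hFd t ht).continuousAt.continuousWithinAt
  have key := amp (f := fun t => cexp (I * F t)) (g := G) (g' := G1) h12 hFc hGd hG1c hpart
  have e1 : ∀ t, gx d x r E n t = G t * cexp (I * F t) := by
    intro t
    simp only [gx, hG, hF]
    rw [Finset.prod_congr rfl fun j _ => hh_bm x r (n j) t, Finset.prod_mul_distrib,
      ← Complex.exp_sum, ← mul_assoc, ← Complex.exp_add, mul_comm]
    congr 2
    push_cast
    rw [mul_add, Finset.mul_sum]
  simp only [e1]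
  refine key.trans ?_
  have h5 : 8 / Real.sqrt (9 * r ^ 2 / T) = 8 * Real.sqrt T / (3 * r) := by
    rw [Real.sqrt_div (by positivity), show 9 * r ^ 2 = (3 * r) ^ 2 by ring,
      Real.sqrt_sq (by positivity)]
    field_simp
  rw [h5]
  calc 8 * Real.sqrt T / (3 * r) * (‖G T2‖ + ∫ t in T1..T2, ‖G1 t‖)
      ≤ 8 * Real.sqrt T / (3 * r) * ((K / Real.sqrt T) ^ d + d * (K / Real.sqrt T) ^ d) :=
        mul_le_mul_of_nonneg_left (add_le_add (hGn T2 (right_mem_Icc.2 h12)) hint)
          (by positivity)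
    _ = _ := by
        obtain ⟨k, rfl⟩ : ∃ k, d = k + 1 := ⟨d - 1, by omega⟩
        rw [Nat.add_sub_cancel, div_pow, pow_succ (Real.sqrt T)]
        field_simp

theorem krn (hb : Be x r) (hd : 1 ≤ d) {T : ℝ} (hT : 0 < T) (n : Fin d → ℤ) (E : ℝ) :
    ‖∫ t in T..(2 * T), gx d x r E n t‖ ≤
      (16 * r * (32 * r ^ 2) ^ (d - 1) + 8 * (1 + d) * (1200 * r ^ 2) ^ d / (3 * r)) /
        Real.sqrt T ^ (d - 1) := by
  have hr := hb.hr
  have hbp := hb.bp
  have hsT : 0 < Real.sqrt T := Real.sqrt_pos.2 hT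
  set B := 16 * r * (32 * r ^ 2) ^ (d - 1) / (T * Real.sqrt T ^ (d - 1)) with hB
  have hB0 : 0 < B := by positivity
  have hBT : B * T = 16 * r * (32 * r ^ 2) ^ (d - 1) / Real.sqrt T ^ (d - 1) := by
    rw [hB]
    field_simp
  have hT2 : T ≤ 2 * T := by linarith only [hT]
  have hfi : ∀ a b : ℝ, IntervalIntegrable (gx d x r E n) volume a b := fun a b =>
    (gx_cont x r E n).intervalIntegrable a b
  rw [add_div]
  set S : Set ℝ := {t | t ∈ Icc T (2 * T) ∧ ∀ j, Rg x r (n j) t} with hS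
  rcases S.eq_empty_or_nonempty with h0 | hne
  · have h1 : ‖∫ t in T..(2 * T), gx d x r E n t‖ ≤ B * (2 * T - T) := by
      refine int_small hT2 fun t ht => ?_
      refine off hb hT ht.1.le fun h => ?_
      have : t ∈ S := ⟨Ioo_subset_Icc_self ht, h⟩
      rw [h0] at this
      exact this
    have e : 2 * T - T = T := by ring
    rw [e, hBT] at h1
    refine h1.trans (le_add_of_nonneg_right ?_)
    positivity
  have hlo : 0 ≤ Real.sin (x - 2 * r) := by
    have := hb.sin_ge (left_mem_Icc.2 (show x - 2 * r ≤ x + 2 * r by linarith only [hr]))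
    linarith only [hr, this]
  have hhi : 0 ≤ Real.sin (x + 2 * r) := by
    have := hb.sin_ge (right_mem_Icc.2 (show x - 2 * r ≤ x + 2 * r by linarith only [hr]))
    linarith only [hr, this]
  have hcl : IsClosed {t : ℝ | ∀ j, Rg x r (n j) t} := by
    rw [Set.ofPred_forall]
    refine isClosed_iInter fun j => ?_
    have c1 : Continuous fun t : ℝ => 2 * t * Real.sin (x - 2 * r) := by fun_prop
    have c2 : Continuous fun t : ℝ => 2 * t * Real.sin (x + 2 * r) := by fun_prop
    exact (isClosed_le c1 continuous_const).inter (isClosed_le continuous_const c2)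
  have hcomp : IsCompact S := isCompact_Icc.inter_right hcl
  obtain ⟨hT1a, hT1b⟩ := hcomp.sInf_mem hne
  obtain ⟨hT2a, hT2b⟩ := hcomp.sSup_mem hne
  set T1 := sInf S with hT1
  set T2 := sSup S with hT2'
  have hle : T1 ≤ T2 :=
    (csInf_le hcomp.bddBelow hne.some_mem).trans (le_csSup hcomp.bddAbove hne.some_mem)
  have hbelow : ∀ t ∈ S, T1 ≤ t := fun t ht => csInf_le hcomp.bddBelow ht
  have habove : ∀ t ∈ S, t ≤ T2 := fun t ht => le_csSup hcomp.bddAbove ht
  have hsplit : ∫ t in T..(2 * T), gx d x r E n t = (∫ t in T..T1, gx d x r E n t) +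
      (∫ t in T1..T2, gx d x r E n t) + ∫ t in T2..(2 * T), gx d x r E n t := by
    rw [intervalIntegral.integral_add_adjacent_intervals (hfi _ _) (hfi _ _),
      intervalIntegral.integral_add_adjacent_intervals (hfi _ _) (hfi _ _)]
  have p1 : ‖∫ t in T..T1, gx d x r E n t‖ ≤ B * (T1 - T) := by
    refine int_small hT1a.1 fun t ht => ?_
    refine off hb hT ht.1.le fun h => ?_
    exact absurd (hbelow t ⟨⟨ht.1.le, ht.2.le.trans hT1a.2⟩, h⟩) (not_le.2 ht.2)
  have p3 : ‖∫ t in T2..(2 * T), gx d x r E n t‖ ≤ B * (2 * T - T2) := by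
    refine int_small hT2a.2 fun t ht => ?_
    refine off hb hT (hT2a.1.trans ht.1.le) fun h => ?_
    exact absurd (habove t ⟨⟨hT2a.1.trans ht.1.le, ht.2.le⟩, h⟩) (not_le.2 ht.1)
  have p2 := inn (E := E) hb hd hT hT1a.1 hle hT2a.2 (n := n) (fun t ht j =>
    rg_conv (hT1b j) (hT2b j) ht.1 ht.2 hlo hhi)
  rw [hsplit]
  calc _ ≤ ‖∫ t in T..T1, gx d x r E n t‖ + ‖∫ t in T1..T2, gx d x r E n t‖ +
      ‖∫ t in T2..(2 * T), gx d x r E n t‖ := norm_add₃_le
    _ ≤ B * (T1 - T) + 8 * (1 + d) * (1200 * r ^ 2) ^ d / (3 * r) / Real.sqrt T ^ (d - 1) +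
        B * (2 * T - T2) := add_le_add (add_le_add p1 p2) p3
    _ ≤ B * T + 8 * (1 + d) * (1200 * r ^ 2) ^ d / (3 * r) / Real.sqrt T ^ (d - 1) := by
        have : B * (T1 - T) + B * (2 * T - T2) ≤ B * T := by
          rw [← mul_add]
          apply mul_le_mul_of_nonneg_left _ hB0.le
          linarith only [hle]
        linarith only [this]
    _ = _ := by rw [hBT]

end main

end Pool.Agent.LE.H53K
end
end -- Pool.Agent.Helper53_LIR.K2

section -- Pool.Agent.Helper53_LIR.K3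

/-!
# The main term near the edge
-/

set_option autoImplicit false

open MeasureTheory Set

open scoped BigOperators

noncomputable section

namespace Pool.Agent.LE.H53K

open Pool.Agent.LE.CL Pool.Agent.LE.H28V

theorem aa_le2 {x r : ℝ} (θ : ℝ) : aa x r θ ≤ r ^ 2 := by
  unfold aa
  refine max_le ?_ (sq_nonneg _)
  nlinarith [sq_nonneg (θ - x)]

section one

variable {x r : ℝ} (hb : Be x r)
include hb

theorem Be.J_upper {T : ℝ} (hT : 0 < T) (b : ℝ) : J x r T b ≤ 8 * r / 3 := by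
  have hr := hb.hr
  have hab : x - r ≤ x + r := by linarith
  have h0 := hb.mp.upper hT b
  have h1 : J x r T b ≤ r ^ 2 * ∫ θ in (x - r)..(x + r), fj T (2 * Real.cos θ + b) := by
    rw [J_eq hr, ← intervalIntegral.integral_const_mul]
    refine intervalIntegral.integral_mono_on hab (J_intble hr hT b).intervalIntegrable ?_ ?_
    · refine IntervalIntegrable.const_mul ?_ _
      refine (intervalIntegrable_const (c := T)).mono_fun ?_ ?_
      · exact ((fj_meas T).comp (by fun_prop)).aestronglyMeasurable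
      · refine Filter.Eventually.of_forall fun θ => ?_
        change ‖fj T (2 * Real.cos θ + b)‖ ≤ ‖T‖
        rw [Real.norm_of_nonneg (fj_nonneg hT _), Real.norm_of_nonneg hT.le]
        exact fj_le hT _
    · intro θ _
      exact mul_le_mul_of_nonneg_right (aa_le2 θ) (fj_nonneg hT _)
  refine h1.trans ?_
  calc r ^ 2 * ∫ θ in (x - r)..(x + r), fj T (2 * Real.cos θ + b) ≤ r ^ 2 * (8 / (3 * r)) :=
        mul_le_mul_of_nonneg_left h0 (by positivity)
    _ = 8 * r / 3 := by
        field_simp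

theorem Be.J_lower {T : ℝ} (hT : 1 / 5 ≤ T * r ^ 2) {b : ℝ}
    (hb2 : |2 * Real.cos x + b| ≤ 3 * r ^ 2) : r / 160 ≤ J x r T b := by
  have hr := hb.hr
  have hm := hb.mp
  have hT0 : 0 < T := by
    by_contra h
    push Not at h
    nlinarith only [sq_nonneg r, hT, h]
  have hx : x ∈ Icc (x - 2 * r) (x + 2 * r) := ⟨by linarith only [hr], by linarith only [hr]⟩
  have hp : x - r / 2 ∈ Icc (x - 2 * r) (x + 2 * r) := ⟨by linarith only [hr], by linarith only [hr]⟩
  have hq : x + r / 2 ∈ Icc (x - 2 * r) (x + 2 * r) := ⟨by linarith only [hr], by linarith only [hr]⟩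
  have h1 := hm.mono hp hx (by linarith only [hr])
  have h2 := hm.mono hx hq (by linarith only [hr])
  have hb' := abs_le.1 hb2
  have hc : ContinuousOn (fun θ => 2 * Real.cos θ + b) (Icc (x - r / 2) (x + r / 2)) :=
    Continuous.continuousOn (by fun_prop)
  obtain ⟨s, hs, hz⟩ := intermediate_value_Icc' (by linarith only [hr] : x - r / 2 ≤ x + r / 2) hc
    (show (0 : ℝ) ∈ Icc (2 * Real.cos (x + r / 2) + b) (2 * Real.cos (x - r / 2) + b) from
      ⟨by nlinarith only [h2, hb'], by nlinarith only [h1, hb']⟩)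
  simp only at hz
  set q := 1 / (20 * r * T) with hq'
  have hq0 : 0 < q := by positivity
  have hq1 : q ≤ r / 4 := by
    rw [hq', div_le_div_iff₀ (by positivity) (by norm_num)]
    nlinarith only [hT]
  have hsm : s ∈ Icc (x - 2 * r) (x + 2 * r) := ⟨by linarith only [hs.1, hq0, hq1], by linarith only [hs.2, hq0, hq1]⟩
  have hval : ∀ θ ∈ Icc (s - q) (s + q), θ ≠ s → T * r ^ 2 / 16 ≤
      aa x r θ * fj T (2 * Real.cos θ + b) := by
    intro θ hθ hne
    have hθm : θ ∈ Icc (x - 2 * r) (x + 2 * r) :=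
      ⟨by linarith only [hθ.1, hs.1, hq0, hq1], by linarith only [hθ.2, hs.2, hq0, hq1]⟩
    have hθs : |θ - s| ≤ q := abs_le.2 ⟨by linarith only [hθ.1], by linarith only [hθ.2]⟩
    have hu : 2 * Real.cos θ + b ≠ 0 := by
      intro h0
      apply hne
      rcases le_total θ s with h | h
      · have := hm.mono hθm hsm h
        have h3 : s - θ ≤ 0 := by
          by_contra hcon
          push Not at hcon
          have : 0 < 2 * (3 * r) * (s - θ) := by positivity
          linarith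
        linarith only [h, h3]
      · have := hm.mono hsm hθm h
        have h3 : θ - s ≤ 0 := by
          by_contra hcon
          push Not at hcon
          have : 0 < 2 * (3 * r) * (θ - s) := by positivity
          linarith
        linarith only [h, h3]
    have hu2 : |2 * Real.cos θ + b| ≤ 1 / T := by
      -- the cosine is Lipschitz with the constant 10 r
      have hlip : ∀ p ∈ Icc (x - 2 * r) (x + 2 * r), ∀ w ∈ Icc (x - 2 * r) (x + 2 * r), p ≤ w →
          Real.cos p - Real.cos w ≤ 10 * r * (w - p) := by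
        intro p hp w hw hpw
        have h := (convex_Icc (x - 2 * r) (x + 2 * r)).image_sub_le_mul_sub_of_deriv_le
          (f := fun θ => -Real.cos θ) (C := 10 * r) Real.continuous_cos.neg.continuousOn
          Real.differentiable_cos.neg.differentiableOn ?_ p hp w hw hpw
        · linarith only [h]
        · intro z hz
          rw [interior_Icc] at hz
          have : deriv (fun θ => -Real.cos θ) z = Real.sin z := by
            have := (Real.hasDerivAt_cos z).fun_neg.deriv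
            rw [this, neg_neg]
          rw [this]
          exact hb.sin_le (Ioo_subset_Icc_self hz)
      have h3 : |Real.cos θ - Real.cos s| ≤ 10 * r * |θ - s| := by
        rcases le_total θ s with h | h
        · have h5 := hlip θ hθm s hsm h
          have h6 := hm.mono hθm hsm h
          have h7 : 0 ≤ 2 * (3 * r) * (s - θ) := mul_nonneg (by positivity) (by linarith only [h])
          rw [abs_of_nonneg (by linarith only [h5, h6]), abs_of_nonpos (by linarith only [h] : θ - s ≤ 0)]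
          linarith only [h5]
        · have h5 := hlip s hsm θ hθm h
          have h6 := hm.mono hsm hθm h
          have h7 : 0 ≤ 2 * (3 * r) * (θ - s) := mul_nonneg (by positivity) (by linarith only [h])
          rw [abs_of_nonpos (by linarith only [h5, h6]), abs_of_nonneg (by linarith only [h] : 0 ≤ θ - s)]
          linarith only [h5]
      have h4 : 2 * Real.cos θ + b = 2 * (Real.cos θ - Real.cos s) := by linarith only [hz]
      rw [h4, abs_mul, abs_two]
      have h5 : 10 * r * |θ - s| ≤ 10 * r * q := mul_le_mul_of_nonneg_left hθs (by positivity)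
      have h6 : 2 * (10 * r * q) = 1 / T := by
        rw [hq']
        field_simp
        norm_num
      linarith only [h3, h5, h6]
    have h5 := fj_ge hT0 hu hu2
    have h6 : r ^ 2 / 4 ≤ aa x r θ := by
      unfold aa
      refine le_trans ?_ (le_max_left _ _)
      have h7 : |θ - x| ≤ 3 * r / 4 := abs_le.2
        ⟨by linarith only [hθ.1, hs.1, hq1], by linarith only [hθ.2, hs.2, hq1]⟩
      have h8 : (θ - x) ^ 2 ≤ (3 * r / 4) ^ 2 := by
        rw [← sq_abs]
        exact pow_le_pow_left₀ (abs_nonneg _) h7 2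
      nlinarith only [mul_pos hr hr, h8]
    calc T * r ^ 2 / 16 = r ^ 2 / 4 * (T / 4) := by ring
      _ ≤ _ := mul_le_mul h6 h5 (by positivity) (aa_nonneg _ _ _)
  have h9 : ∫ θ in Icc (s - q) (s + q), (T * r ^ 2 / 16 : ℝ) ≤ J x r T b := by
    unfold J
    refine le_trans ?_ (setIntegral_le_integral (s := Icc (s - q) (s + q)) (J_intble hr hT0 b)
      (Filter.Eventually.of_forall fun θ => mul_nonneg (aa_nonneg _ _ _) (fj_nonneg hT0 _)))
    refine setIntegral_mono_ae_restrict ?_ (J_intble hr hT0 b).integrableOn ?_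
    · exact integrableOn_const (by rw [Real.volume_Icc]; exact ENNReal.ofReal_ne_top)
    · have hne : ∀ᵐ θ : ℝ, θ ≠ s := by
        rw [ae_iff]
        simp only [not_not, Set.ofPred_eq_eq_singleton]
        exact Real.volume_singleton
      filter_upwards [ae_restrict_mem measurableSet_Icc, ae_restrict_of_ae hne] with θ h1 h2
      exact hval θ h1 h2
  rw [setIntegral_const, Real.volume_real_Icc_of_le (by linarith only [hq0]), smul_eq_mul] at h9
  refine le_trans (le_of_eq ?_) h9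
  rw [hq']
  field_simp
  norm_num

end one

section multi

variable {k : ℕ} {x r : ℝ} (hb : Be x r)
include hb

theorem MM_upper {T : ℝ} (hT : 0 < T) (E : ℝ) :
    MM (fun _ : Fin (k + 1) => x) r T E ≤ (2 * r ^ 3) ^ k * (8 * r / 3) := by
  have hr := hb.hr
  rw [MM_eq _ hr hT E]
  have hi : Integrable fun θ : Fin k → ℝ => (∏ j, aa x r (θ j)) *
      J x r T (∑ j, 2 * Real.cos (θ j) - E) := by
    refine (prod_int (fun _ => x) hr).mul_bdd (c := 8 * r / 3) (J_meas _ _ _ hr hT E) ?_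
    refine Filter.Eventually.of_forall fun θ => ?_
    rw [Real.norm_of_nonneg (J_nonneg hT _)]
    exact hb.J_upper hT _
  have h1 : ∫ θ : Fin k → ℝ, (∏ j, aa x r (θ j)) *
      J x r T (∑ j, 2 * Real.cos (θ j) - E) ≤
      ∫ θ : Fin k → ℝ, (∏ j, aa x r (θ j)) * (8 * r / 3) := by
    refine integral_mono hi ((prod_int (fun _ => x) hr).mul_const _) fun θ => ?_
    exact mul_le_mul_of_nonneg_left (hb.J_upper hT _)
      (Finset.prod_nonneg fun j _ => aa_nonneg _ _ _)
  refine h1.trans ?_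
  rw [integral_mul_const, integral_fintype_prod_volume_eq_prod (fun (_ : Fin k) θ => aa x r θ)]
  have h3 : ∫ θ, aa x r θ ≤ 2 * r ^ 3 := by
    have h3 : ∫ θ, aa x r θ = ∫ θ in Icc (x - r) (x + r), aa x r θ :=
      (setIntegral_eq_integral_of_forall_compl_eq_zero fun θ hθ => aa_off hr hθ).symm
    rw [h3]
    have h4 : ∫ θ in Icc (x - r) (x + r), aa x r θ ≤
        ∫ _θ in Icc (x - r) (x + r), (r ^ 2 : ℝ) := by
      refine setIntegral_mono (aa_int hr).integrableOn ?_ fun θ => aa_le2 θ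
      exact integrableOn_const (by rw [Real.volume_Icc]; exact ENNReal.ofReal_ne_top)
    rw [setIntegral_const, Real.volume_real_Icc_of_le (by linarith only [hr]), smul_eq_mul] at h4
    refine h4.trans (le_of_eq ?_)
    ring
  have h4 : 0 ≤ ∫ θ, aa x r θ := integral_nonneg fun _ => aa_nonneg _ _ _
  rw [Finset.prod_const, Finset.card_univ, Fintype.card_fin]
  exact mul_le_mul_of_nonneg_right (pow_le_pow_left₀ h4 h3 k) (by positivity)

theorem MM_lower {T : ℝ} (hT : 1 / 5 ≤ T * r ^ 2) {E : ℝ}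
    (hE : 2 * (k + 1) * Real.cos x = E) :
    r / 160 * (3 * r / (20 * (k + 1)) * r ^ 2) ^ k ≤ MM (fun _ : Fin (k + 1) => x) r T E := by
  classical
  have hr := hb.hr
  have hT0 : 0 < T := by
    by_contra h
    push Not at h
    nlinarith only [sq_nonneg r, hT, h]
  rw [MM_eq _ hr hT0 E]
  set ρ := 3 * r / (20 * (k + 1)) with hρ
  have hk : (0 : ℝ) ≤ k := Nat.cast_nonneg k
  have hρ0 : 0 < ρ := by positivity
  have hρk : 20 * k * ρ ≤ 3 * r := by
    have h1 : 20 * (k + 1) * ρ = 3 * r := by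
      rw [hρ]
      field_simp
    nlinarith only [hρ0, h1]
  have hρr : ρ ≤ r / 2 := by
    rw [hρ, div_le_div_iff₀ (by positivity) (by norm_num)]
    nlinarith only [mul_nonneg hk hr.le, hr, hk]
  have hρ2 : ρ ^ 2 ≤ r ^ 2 / 2 := by
    have := pow_le_pow_left₀ hρ0.le hρr 2
    nlinarith only [mul_pos hr hr, this]
  set lo : Fin k → ℝ → ℝ := fun _ => (Icc (x - ρ) (x + ρ)).indicator
    fun _ => r ^ 2 / 2 with hlo
  have hloi : ∀ j, Integrable (lo j) := by
    intro j
    refine (integrable_indicator_iff measurableSet_Icc).2 ?_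
    exact integrableOn_const (by rw [Real.volume_Icc]; exact ENNReal.ofReal_ne_top)
  have hlov : ∀ j, ∫ θ, lo j θ = ρ * r ^ 2 := by
    intro j
    simp only [hlo]
    rw [integral_indicator measurableSet_Icc, setIntegral_const,
      Real.volume_real_Icc_of_le (by linarith only [hρ0]), smul_eq_mul]
    ring
  have hlo0 : ∀ j θ, 0 ≤ lo j θ := fun j θ => indicator_nonneg (fun _ _ => by positivity) _
  have hi : Integrable fun θ : Fin k → ℝ => (∏ j, aa x r (θ j)) *
      J x r T (∑ j, 2 * Real.cos (θ j) - E) := by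
    refine (prod_int (fun _ => x) hr).mul_bdd (c := 8 * r / 3) (J_meas _ _ _ hr hT0 E) ?_
    refine Filter.Eventually.of_forall fun θ => ?_
    rw [Real.norm_of_nonneg (J_nonneg hT0 _)]
    exact hb.J_upper hT0 _
  have h1 : ∫ θ : Fin k → ℝ, (∏ j, lo j (θ j)) * (r / 160) ≤
      ∫ θ : Fin k → ℝ, (∏ j, aa x r (θ j)) *
        J x r T (∑ j, 2 * Real.cos (θ j) - E) := by
    refine integral_mono ((Integrable.fintype_prod hloi).mul_const _) hi fun θ => ?_
    change (∏ j, lo j (θ j)) * (r / 160) ≤ (∏ j, aa x r (θ j)) *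
        J x r T (∑ j, 2 * Real.cos (θ j) - E)
    by_cases h : ∀ j, θ j ∈ Icc (x - ρ) (x + ρ)
    · have h2 : ∀ j, |θ j - x| ≤ ρ := fun j =>
        abs_le.2 ⟨by linarith only [(h j).1], by linarith only [(h j).2]⟩
      refine mul_le_mul ?_ ?_ (by positivity) (Finset.prod_nonneg fun j _ => aa_nonneg _ _ _)
      · refine Finset.prod_le_prod (fun j _ => hlo0 j _) fun j _ => ?_
        simp only [hlo]
        rw [indicator_of_mem (h j)]
        exact aa_ge (h2 j) hρ2
      · refine hb.J_lower hT ?_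
        have e : 2 * Real.cos x + (∑ j, 2 * Real.cos (θ j) - E) =
            ∑ j, (2 * Real.cos (θ j) - 2 * Real.cos x) := by
          rw [← hE, Finset.sum_sub_distrib, Finset.sum_const, Finset.card_univ,
            Fintype.card_fin, nsmul_eq_mul]
          ring
        rw [e]
        refine (Finset.abs_sum_le_sum_abs _ _).trans ?_
        have h3 : ∀ j ∈ (Finset.univ : Finset (Fin k)),
            |2 * Real.cos (θ j) - 2 * Real.cos x| ≤ 20 * r * ρ := by
          intro j _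
          have hxm : x ∈ Icc (x - 2 * r) (x + 2 * r) := ⟨by linarith only [hρ0, hρr], by linarith only [hρ0, hρr]⟩
          have hjm : θ j ∈ Icc (x - 2 * r) (x + 2 * r) :=
            ⟨by linarith only [(h j).1, hρ0, hρr], by linarith only [(h j).2, hρ0, hρr]⟩
          have hlip : ∀ p ∈ Icc (x - 2 * r) (x + 2 * r), ∀ w ∈ Icc (x - 2 * r) (x + 2 * r),
              p ≤ w → Real.cos p - Real.cos w ≤ 10 * r * (w - p) := by
            intro p hp w hw hpw
            have h := (convex_Icc (x - 2 * r) (x + 2 * r)).image_sub_le_mul_sub_of_deriv_le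
              (f := fun θ => -Real.cos θ) (C := 10 * r) Real.continuous_cos.neg.continuousOn
              Real.differentiable_cos.neg.differentiableOn ?_ p hp w hw hpw
            · linarith only [h]
            · intro z hz
              rw [interior_Icc] at hz
              have : deriv (fun θ => -Real.cos θ) z = Real.sin z := by
                have := (Real.hasDerivAt_cos z).fun_neg.deriv
                rw [this, neg_neg]
              rw [this]
              exact hb.sin_le (Ioo_subset_Icc_self hz)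
          have h4 := abs_le.1 (h2 j)
          rcases le_total (θ j) x with h' | h'
          · have h5 := hlip (θ j) hjm x hxm h'
            have h6 := hb.mp.mono hjm hxm h'
            have h7 : 0 ≤ 2 * (3 * r) * (x - θ j) := mul_nonneg (by positivity) (by linarith only [h'])
            rw [abs_of_nonneg (by linarith only [h5, h6])]
            have h8 : 10 * r * (x - θ j) ≤ 10 * r * ρ :=
              mul_le_mul_of_nonneg_left (by linarith only [h4]) (by positivity)
            linarith only [h5, h8]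
          · have h5 := hlip x hxm (θ j) hjm h'
            have h6 := hb.mp.mono hxm hjm h'
            have h7 : 0 ≤ 2 * (3 * r) * (θ j - x) := mul_nonneg (by positivity) (by linarith only [h'])
            rw [abs_of_nonpos (by linarith only [h5, h6])]
            have h8 : 10 * r * (θ j - x) ≤ 10 * r * ρ :=
              mul_le_mul_of_nonneg_left (by linarith only [h4]) (by positivity)
            linarith only [h5, h8]
        refine (Finset.sum_le_sum h3).trans ?_
        rw [Finset.sum_const, Finset.card_univ, Fintype.card_fin, nsmul_eq_mul]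
        nlinarith only [hr, hρk]
    · push Not at h
      obtain ⟨j, hj⟩ := h
      have h2 : ∏ j, lo j (θ j) = 0 := by
        refine Finset.prod_eq_zero (Finset.mem_univ j) ?_
        simp only [hlo]
        exact indicator_of_notMem hj _
      rw [h2, zero_mul]
      exact mul_nonneg (Finset.prod_nonneg fun j _ => aa_nonneg _ _ _) (J_nonneg hT0 _)
  refine le_trans (le_of_eq ?_) h1
  rw [integral_mul_const, integral_fintype_prod_volume_eq_prod,
    Finset.prod_congr rfl fun j _ => hlov j, Finset.prod_const, Finset.card_univ,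
    Fintype.card_fin]
  ring

/-- the main term -/
theorem mtm {c C : ℝ} (hc : c = (3 / (20 * ((k : ℝ) + 1))) ^ k / 160)
    (hC : C = 2 ^ k * (8 / 3))
    {K : ℕ} (hK : C / 2 ^ K < c / 2) {T E : ℝ} (hT : 1 / 5 ≤ T * r ^ 2)
    (hE : 2 * (k + 1) * Real.cos x = E) : ∃ T' : ℝ, T ≤ T' ∧ T' ≤ 2 ^ K * T ∧
      c / 2 * r ^ (3 * k + 1) ≤ ∫ θ : Fin (k + 1) → ℝ, (∏ j, aa x r (θ j)) *
        wh T' (∑ j, 2 * Real.cos (θ j) - E) := by
  have hr := hb.hr
  have hT0 : 0 < T := by
    by_contra h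
    push Not at h
    nlinarith only [sq_nonneg r, hT, h]
  set W := r ^ (3 * k + 1) with hW
  have hW0 : 0 < W := by positivity
  have hup : ∀ S : ℝ, 0 < S → MM (fun _ : Fin (k + 1) => x) r S E ≤ C * W := by
    intro S hS
    refine (MM_upper hb hS E).trans (le_of_eq ?_)
    rw [hC, hW, mul_pow, ← pow_mul, pow_succ]
    ring
  have hlo : ∀ S : ℝ, 1 / 5 ≤ S * r ^ 2 → c * W ≤ MM (fun _ : Fin (k + 1) => x) r S E := by
    intro S hS
    refine le_trans (le_of_eq ?_) (MM_lower hb hS hE)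
    have e1 : 3 * r / (20 * ((k : ℝ) + 1)) * r ^ 2 = 3 / (20 * ((k : ℝ) + 1)) * r ^ 3 := by
      ring
    rw [hc, hW, e1, mul_pow, ← pow_mul, pow_succ]
    ring
  by_contra hcon
  push Not at hcon
  have h2k : ∀ m : ℕ, (1 : ℝ) ≤ 2 ^ m := fun m => one_le_pow₀ (by norm_num)
  have key : ∀ m : ℕ, m ≤ K → MM (fun _ : Fin (k + 1) => x) r (2 ^ m * T) E ≤
      (C / 2 ^ m + c / 2) * W := by
    intro m
    induction m with
    | zero =>
      intro _
      rw [pow_zero, one_mul, div_one]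
      have h1 := hup T hT0
      have h2 : 0 ≤ c / 2 * W := by
        rw [hc]
        positivity
      linarith only [h1, h2]
    | succ m ih =>
      intro hm'
      have h1 := ih (by omega)
      have h2 := hcon (2 ^ m * T) (le_mul_of_one_le_left hT0.le (h2k m))
        (mul_le_mul_of_nonneg_right (pow_le_pow_right₀ (by norm_num) (by omega)) hT0.le)
      have h3 := MM_wh (fun _ : Fin (k + 1) => x) hr (show 0 < 2 ^ m * T by positivity) E
      rw [h3] at h2
      have e1 : 2 * (2 ^ m * T) = 2 ^ (m + 1) * T := by ring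
      rw [e1] at h2
      have e2 : C / 2 ^ (m + 1) = C / 2 ^ m / 2 := by
        rw [pow_succ, div_div _ ((2 : ℝ) ^ m)]
      rw [e2]
      linarith only [h1, h2]
  have h1 := key K le_rfl
  have h2 := hlo (2 ^ K * T) (by
    have := mul_le_mul_of_nonneg_right (h2k K) (show 0 ≤ T * r ^ 2 by positivity)
    linarith only [hT, this])
  have h3 : (C / 2 ^ K + c / 2) * W < c * W := mul_lt_mul_of_pos_right (by linarith only [hK]) hW0
  linarith only [h1, h2, h3]

end multi

end Pool.Agent.LE.H53K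
end
end -- Pool.Agent.Helper53_LIR.K3

section -- Pool.Agent.Helper53_LIR.K4

/-!
# The kernel bound near the edge, assembled
-/

set_option autoImplicit false

open MeasureTheory Set Complex

open scoped BigOperators

noncomputable section

namespace Pool.Agent.LE.H53K

open Pool.Agent.LE.CL Pool.Agent.LE.H28V

/-- the base point -/
theorem base {d : ℕ} (hd : 3 ≤ d) {l : ℝ} (hl : 0 < l) (hl1 : l ≤ 1 / (8 * d)) :
    ∃ x r : ℝ, Be x r ∧ 1 / (8 * d) * Real.sqrt l ≤ r ∧ 2 * r ≤ x ∧ d * (x + r) ^ 2 ≤ 2 * l ∧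
      2 * d * Real.cos x = 2 * d - l := by
  have hd0 : (3 : ℝ) ≤ d := by exact_mod_cast hd
  have hdp : (0 : ℝ) < d := by linarith only [hd0]
  have hld : l / (2 * d) ≤ 1 / 48 := by
    rw [div_le_iff₀ (by positivity)]
    have h1 : 1 / (8 * (d : ℝ)) ≤ 1 / 24 := by
      apply one_div_le_one_div_of_le (by norm_num)
      linarith only [hd0]
    nlinarith only [hl, hl1, hd0, h1]
  have hld0 : 0 < l / (2 * d) := by positivity
  set x := Real.arccos (1 - l / (2 * d)) with hx
  have hcos : Real.cos x = 1 - l / (2 * d) := Real.cos_arccos (by linarith only [hld, hld0]) (by linarith only [hld0])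
  have hx0 : 0 ≤ x := Real.arccos_nonneg _
  have hxπ : x ≤ Real.pi := Real.arccos_le_pi _
  have hlow : l / d ≤ x ^ 2 := by
    have h1 := Real.one_sub_sq_div_two_le_cos (x := x)
    have h2 : l / d = 2 * (l / (2 * d)) := by field_simp
    linarith only [hcos, h1, h2]
  have hld1 : 0 < l / d := by positivity
  have hxp : 0 < x := by
    rcases hx0.lt_or_eq with h | h
    · exact h
    · rw [← h] at hlow
      norm_num at hlow
      linarith only [hld1, hlow]
  have hup1 : x ^ 2 ≤ 1 / 16 := by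
    have h1 := Real.cos_le_one_sub_mul_cos_sq (x := x) (by rw [abs_of_nonneg hx0]; exact hxπ)
    have hπ := Real.pi_gt_three
    have hπ4 := Real.pi_lt_d2
    have h4 : 1 / 5 ≤ 2 / Real.pi ^ 2 := by
      rw [div_le_div_iff₀ (by norm_num) (by positivity)]
      nlinarith only [hld, hld0, hx0, hxπ, hπ4]
    have h5 : 1 / 5 * x ^ 2 ≤ 2 / Real.pi ^ 2 * x ^ 2 :=
      mul_le_mul_of_nonneg_right h4 (sq_nonneg _)
    have h6 : l / (2 * d) ≤ 1 / 144 := by
      rw [div_le_iff₀ (by positivity)]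
      have h7 : l * (8 * d) ≤ 1 := by
        have := mul_le_mul_of_nonneg_right hl1 (show 0 ≤ 8 * (d : ℝ) by positivity)
        rwa [one_div_mul_cancel (by positivity)] at this
      nlinarith only [hl, hd0, h7]
    linarith only [hld0, hcos, h1, h5, h6]
  have hx14 : x ≤ 1 / 4 := by nlinarith only [hx0, hup1]
  have hup2 : x ^ 2 ≤ 3 / 2 * (l / d) := by
    have h1 := Real.cos_bound (x := x) (by rw [abs_of_nonneg hx0]; linarith only [hld, hld0, hx14])
    rw [abs_of_nonneg hx0] at h1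
    have h2 := (abs_le.1 h1).2
    have h3 : x ^ 4 = x ^ 2 * x ^ 2 := by ring
    have h4 : x ^ 2 * x ^ 2 ≤ x ^ 2 * (1 / 16) :=
      mul_le_mul_of_nonneg_left hup1 (sq_nonneg _)
    have h2' : l / d = 2 * (l / (2 * d)) := by field_simp
    rw [hcos] at h2
    nlinarith only [hld0, h2, h4, h2']
  refine ⟨x, x / 8, ⟨by positivity, by linarith only [hx14], by ring⟩, ?_, by linarith only [hxp], ?_, ?_⟩
  · have h1 : Real.sqrt l ≤ d * x := by
      refine Real.sqrt_le_iff.2 ⟨by positivity, ?_⟩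
      have h2 : l ≤ d * x ^ 2 := by
        rw [div_le_iff₀ hdp] at hlow
        linarith only [hlow]
      have h3 : d * x ^ 2 ≤ (d * x) ^ 2 := by
        rw [mul_pow]
        apply mul_le_mul_of_nonneg_right _ (sq_nonneg _)
        nlinarith only [hd0, hld, hld0]
      linarith only [h2, h3]
    rw [div_mul_eq_mul_div, one_mul, div_le_div_iff₀ (by positivity) (by norm_num)]
    linarith only [h1]
  · have h1 : d * x ^ 2 ≤ 3 / 2 * l := by
      have := mul_le_mul_of_nonneg_left hup2 hdp.le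
      have h2 : d * (3 / 2 * (l / d)) = 3 / 2 * l := by field_simp
      linarith only [this, h2]
    nlinarith only [hl, h1]
  · rw [hcos]
    field_simp

/-- the kernel bound -/
theorem kb {d : ℕ} (hd : 3 ≤ d) {l x r : ℝ} (hl : 0 < l) (hb : Be x r)
    (hr : 1 / (8 * d) * Real.sqrt l ≤ r) {T : ℝ} (hT : 0 < T) (n : Fin d → ℤ) :
    ‖∫ t in T..(2 * T), cexp (I * ((t * (2 * d - l) : ℝ) : ℂ)) * ∏ j, hh x r t (n j)‖ ≤
      8 * d * (16 * 32 ^ (d - 1) + 8 * (1 + d) * 1200 ^ d / 3) * r ^ (2 * d) /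
        (Real.sqrt T ^ (d - 1) * Real.sqrt l) := by
  have hr0 := hb.hr
  have hsl : 0 < Real.sqrt l := Real.sqrt_pos.2 hl
  have hsT : 0 < Real.sqrt T := Real.sqrt_pos.2 hT
  have hd0 : (3 : ℝ) ≤ d := by exact_mod_cast hd
  refine (krn hb (by omega) hT n (2 * d - l)).trans ?_
  obtain ⟨k, rfl⟩ : ∃ k, d = k + 1 := ⟨d - 1, by omega⟩
  rw [Nat.add_sub_cancel]
  set A := 16 * (32 : ℝ) ^ k + 8 * (1 + ((k + 1 : ℕ) : ℝ)) * 1200 ^ (k + 1) / 3 with hA
  have hA0 : 0 < A := by positivity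
  have e1 : 16 * r * (32 * r ^ 2) ^ k + 8 * (1 + ((k + 1 : ℕ) : ℝ)) *
      (1200 * r ^ 2) ^ (k + 1) / (3 * r) = A * r ^ (2 * (k + 1)) / r := by
    rw [hA]
    have h1 : r ^ (2 * (k + 1)) = (r ^ 2) ^ k * r * r := by
      rw [pow_mul, pow_succ]
      ring
    rw [mul_pow, mul_pow, h1, pow_succ (r ^ 2)]
    field_simp
  rw [e1, div_div, div_le_div_iff₀ (by positivity) (by positivity)]
  have h2 : Real.sqrt l ≤ 8 * ((k + 1 : ℕ) : ℝ) * r := by
    rw [div_mul_eq_mul_div, one_mul, div_le_iff₀ (by positivity)] at hr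
    linarith only [hr]
  have h3 : 0 ≤ A * r ^ (2 * (k + 1)) * Real.sqrt T ^ k := by positivity
  have h4 := mul_le_mul_of_nonneg_left h2 h3
  calc A * r ^ (2 * (k + 1)) * (Real.sqrt T ^ k * Real.sqrt l) =
        A * r ^ (2 * (k + 1)) * Real.sqrt T ^ k * Real.sqrt l := by ring
    _ ≤ A * r ^ (2 * (k + 1)) * Real.sqrt T ^ k * (8 * ((k + 1 : ℕ) : ℝ) * r) := h4
    _ = _ := by ring

/-- KBE -/
theorem kbe0 (d : ℕ) (hd : 3 ≤ d) :
    ∃ c₁ c C : ℝ, 0 < c₁ ∧ c₁ ≤ 1 ∧ 0 < c ∧ 1 ≤ C ∧ ∀ l : ℝ, 0 < l → l ≤ c₁ →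
    ∃ th0 r : ℝ, c₁ * Real.sqrt l ≤ r ∧ 2 * r ≤ th0 ∧ d * (th0 + r) ^ 2 ≤ 2 * l ∧
      (∀ T : ℝ, C ≤ T * l → ∀ n : Fin d → ℤ,
        ‖∫ t in T..(2 * T), Complex.exp (Complex.I * ((t * (2 * d - l) : ℝ) : ℂ)) *
          ∏ j, hh th0 r t (n j)‖ ≤ C * r ^ (2 * d) / (Real.sqrt T ^ (d - 1) * Real.sqrt l)) ∧
      ∀ T : ℝ, C ≤ T * l → ∃ T' : ℝ, T ≤ T' ∧ T' ≤ C * T ∧
        c * r ^ (2 * d) * l ^ (((d : ℝ) - 2) / 2) ≤
          ∫ θ : Fin d → ℝ, (∏ j, aa th0 r (θ j)) * wh T' (∑ j, 2 * Real.cos (θ j) - (2 * d - l))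
    := by
  have hd0 : (3 : ℝ) ≤ d := by exact_mod_cast hd
  have hdp : (0 : ℝ) < d := by linarith only [hd0]
  obtain ⟨k, hk⟩ : ∃ k, d = k + 1 := ⟨d - 1, by omega⟩
  obtain ⟨m, hm⟩ : ∃ m, k = m + 1 := ⟨k - 1, by omega⟩
  set c2 := (3 / (20 * ((k : ℝ) + 1))) ^ k / 160 with hc2
  have hc20 : 0 < c2 := by positivity
  obtain ⟨K, hK⟩ : ∃ K : ℕ, (2 ^ k * (8 / 3)) / 2 ^ K < c2 / 2 := by
    obtain ⟨K, hK⟩ := pow_unbounded_of_one_lt ((2 ^ k * (8 / 3)) / (c2 / 2))
      (one_lt_two (α := ℝ))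
    refine ⟨K, ?_⟩
    rw [div_lt_iff₀ (by positivity)] at hK ⊢
    linarith only [hK]
  set C1 : ℝ := 8 * d * (16 * 32 ^ (d - 1) + 8 * (1 + d) * 1200 ^ d / 3) with hC1
  set c₁ : ℝ := 1 / (8 * d) with hc₁
  have hc₁0 : 0 < c₁ := by positivity
  have hc₁1 : c₁ ≤ 1 := by
    rw [hc₁, div_le_one (by positivity)]
    linarith only [hd0]
  refine ⟨c₁, c2 / 2 * c₁ ^ m, max C1 (max (2 ^ K) (64 * d ^ 2)), hc₁0, hc₁1, by positivity,
    ?_, fun l hl hl1 => ?_⟩
  · refine le_trans ?_ ((le_max_left _ _).trans (le_max_right _ _))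
    exact one_le_pow₀ (by norm_num)
  obtain ⟨x, r, hb, hr, h2r, hsq, hcos⟩ := base hd hl hl1
  have hr0 := hb.hr
  have hsl : 0 < Real.sqrt l := Real.sqrt_pos.2 hl
  refine ⟨x, r, hr, h2r, hsq, fun T hT n => ?_, fun T hT => ?_⟩
  · have hC0 : 0 < max C1 (max (2 ^ K) (64 * (d : ℝ) ^ 2)) :=
      lt_of_lt_of_le (by positivity) ((le_max_left _ _).trans (le_max_right _ _))
    have hT0 : 0 < T := by
      by_contra h
      push Not at h
      nlinarith only [hC0, hl, hT, h]
    refine (kb hd hl hb hr hT0 n).trans ?_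
    apply div_le_div_of_nonneg_right _ (by positivity)
    exact mul_le_mul_of_nonneg_right (le_max_left _ _) (by positivity)
  · have hT64 : 64 * (d : ℝ) ^ 2 ≤ T * l :=
      ((le_max_right _ _).trans (le_max_right _ _)).trans hT
    have hT0 : 0 < T := by
      by_contra h
      push Not at h
      nlinarith only [show 0 < 64 * (d : ℝ) ^ 2 by positivity, hd0, hl, hT64, h]
    have hTr : 1 / 5 ≤ T * r ^ 2 := by
      have h1 : (c₁ * Real.sqrt l) ^ 2 ≤ r ^ 2 := pow_le_pow_left₀ (by positivity) hr 2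
      rw [mul_pow, Real.sq_sqrt hl.le] at h1
      have h2 : T * (c₁ ^ 2 * l) ≤ T * r ^ 2 := mul_le_mul_of_nonneg_left h1 hT0.le
      have h3 : T * (c₁ ^ 2 * l) = c₁ ^ 2 * (T * l) := by ring
      have h4 : c₁ ^ 2 * (64 * (d : ℝ) ^ 2) ≤ c₁ ^ 2 * (T * l) :=
        mul_le_mul_of_nonneg_left hT64 (by positivity)
      have h5 : c₁ ^ 2 * (64 * (d : ℝ) ^ 2) = 1 := by
        rw [hc₁]
        field_simp
        norm_num
      linarith only [h2, h4, h5]
    subst hk
    obtain ⟨T', h1, h2, h3⟩ := mtm (k := k) (C := 2 ^ k * (8 / 3)) hb hc2 rfl hK hTr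
      (E := 2 * ((k + 1 : ℕ) : ℝ) - l) (by
        rw [← hcos]
        push_cast
        ring)
    refine ⟨T', h1, h2.trans ?_, le_trans ?_ h3⟩
    · exact mul_le_mul_of_nonneg_right ((le_max_left _ _).trans (le_max_right _ _)) hT0.le
    · have e1 : l ^ ((((k + 1 : ℕ) : ℝ) - 2) / 2) = Real.sqrt l ^ m := by
        have e2 : (((k + 1 : ℕ) : ℝ) - 2) / 2 = 1 / 2 * (m : ℝ) := by
          rw [hm]
          push_cast
          ring
        rw [e2, Real.rpow_mul hl.le, Real.rpow_natCast, Real.sqrt_eq_rpow]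
      rw [e1]
      have e3 : r ^ (3 * k + 1) = r ^ (2 * (k + 1)) * r ^ m := by
        rw [← pow_add]
        congr 1
        omega
      rw [e3]
      have h4 : (c₁ * Real.sqrt l) ^ m ≤ r ^ m := pow_le_pow_left₀ (by positivity) hr m
      rw [mul_pow] at h4
      calc c2 / 2 * c₁ ^ m * r ^ (2 * (k + 1)) * Real.sqrt l ^ m =
            c2 / 2 * r ^ (2 * (k + 1)) * (c₁ ^ m * Real.sqrt l ^ m) := by ring
        _ ≤ c2 / 2 * r ^ (2 * (k + 1)) * r ^ m :=
            mul_le_mul_of_nonneg_left h4 (by positivity)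
        _ = _ := by ring

end Pool.Agent.LE.H53K
end
end -- Pool.Agent.Helper53_LIR.K4
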