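import Pool.Agent.Helper12_MEB.B087
import Pool.Agent.Helper12_MEB.B136

/-!
# Merged copies (generated) of the modules

* `Pool.Agent.Helper89_LQD.TOR`
* `Pool.Agent.Helper32_LQF.JCB`
* `Pool.Agent.Helper45_LQD.BES`
* `Pool.Agent.Helper77_ANI.SMT`
* `Pool.Agent.Helper56_LQX.UPA`
-/

set_option autoImplicit false

section -- Pool.Agent.Helper89_LQD.TOR

/-!
# Row TOR: the kernel on the cyclic group and the kernel on the integers
-/

set_option autoImplicit false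

noncomputable section

namespace Pool.Agent.LE.QD.H89

open Complex Finset

/-- `e^{i j θ}` -/
def ej (j : ℤ) (θ : ℝ) : ℂ := exp (I * ((j * θ : ℝ) : ℂ))

theorem ej_mul (j k : ℤ) (θ : ℝ) : ej j θ * ej k θ = ej (j + k) θ := by
  unfold ej
  rw [← exp_add]
  congr 1
  push_cast
  ring

theorem ej_norm (j : ℤ) (θ : ℝ) : ‖ej j θ‖ = 1 := by
  unfold ej
  rw [mul_comm, norm_exp_ofReal_mul_I]

theorem cos_pow (θ : ℝ) (m : ℕ) : ((2 * Real.cos θ : ℝ) : ℂ) ^ m =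
    ∑ k ∈ range (m + 1), ((m.choose k : ℕ) : ℂ) * ej (2 * (k : ℤ) - m) θ := by
  have h1 : ((2 * Real.cos θ : ℝ) : ℂ) = ej 1 θ + ej (-1) θ := by
    unfold ej
    push_cast
    rw [two_cos]
    congr 1 <;> congr 1 <;> ring
  rw [h1, add_pow]
  refine sum_congr rfl fun k hk => ?_
  have hk' : k ≤ m := by
    have := mem_range.1 hk
    omega
  have h2 : ej 1 θ ^ k = ej k θ := by
    unfold ej
    rw [← exp_nat_mul]
    congr 1
    push_cast
    ring
  have h3 : ej (-1) θ ^ (m - k) = ej (-((m - k : ℕ) : ℤ)) θ := by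
    unfold ej
    rw [← exp_nat_mul]
    congr 1
    push_cast
    ring
  rw [h2, h3, ej_mul, mul_comm]
  congr 2
  push_cast [hk']
  ring

/-- the angle of `p` -/
def an (M : ℕ) (p : ZMod M) : ℝ := 2 * Real.pi * (p.valMinAbs : ℝ) / M

theorem disc (M : ℕ) [NeZero M] (n : ZMod M) (j : ℤ) :
    (∑ p : ZMod M, ZMod.stdAddChar (p * n) * ej j (an M p)) / (M : ℂ) =
      if n + (j : ZMod M) = 0 then 1 else 0 := by
  have h1 : ∀ p : ZMod M, ej j (an M p) = ZMod.stdAddChar (p * (j : ZMod M)) := by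
    intro p
    have e : p * (j : ZMod M) = ((p.valMinAbs * j : ℤ) : ZMod M) := by
      rw [Int.cast_mul, ZMod.coe_valMinAbs]
    rw [e, ZMod.stdAddChar_coe]
    unfold ej an
    congr 1
    push_cast
    ring
  have h2 : ∀ p : ZMod M, ZMod.stdAddChar (p * n) * ej j (an M p) =
      ZMod.stdAddChar (p * (n + (j : ZMod M))) := by
    intro p
    rw [h1, ← AddChar.map_add_eq_mul, mul_add]
  have hM : (M : ℂ) ≠ 0 := Nat.cast_ne_zero.2 (NeZero.ne M)
  rw [sum_congr rfl fun p _ => h2 p, AddChar.sum_mulShift _ (ZMod.isPrimitive_stdAddChar M)]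
  split_ifs
  · rw [ZMod.card, div_self hM]
  · simp

theorem cont (n j : ℤ) :
    (∫ θ in (0 : ℝ)..(2 * Real.pi), ej n θ * ej j θ) / ((2 * Real.pi : ℝ) : ℂ) =
      if n + j = 0 then 1 else 0 := by
  have h1 : ∀ θ : ℝ, ej n θ * ej j θ = exp ((I * ((n + j : ℤ) : ℂ)) * θ) := by
    intro θ
    rw [ej_mul]
    unfold ej
    congr 1
    push_cast
    ring
  have hpi : ((2 * Real.pi : ℝ) : ℂ) ≠ 0 := by
    rw [Ne, ofReal_eq_zero]
    positivity
  rw [intervalIntegral.integral_congr fun θ _ => h1 θ]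
  split_ifs with h
  · rw [h]
    simp only [Int.cast_zero, mul_zero, zero_mul, exp_zero, intervalIntegral.integral_const,
      sub_zero, real_smul, mul_one]
    exact div_self hpi
  · have h2 : I * ((n + j : ℤ) : ℂ) ≠ 0 := mul_ne_zero I_ne_zero (Int.cast_ne_zero.2 h)
    rw [integral_exp_mul_complex h2]
    have h3 : exp (I * ((n + j : ℤ) : ℂ) * ((2 * Real.pi : ℝ) : ℂ)) = 1 := by
      rw [exp_eq_one_iff]
      exact ⟨n + j, by push_cast; ring⟩
    rw [h3]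
    simp

/-- the partial sum of the power series -/
def ps (t : ℝ) (N : ℕ) (θ : ℝ) : ℂ :=
  ∑ m ∈ range N, (I * (t : ℂ)) ^ m / (m.factorial : ℂ) *
    ∑ k ∈ range (m + 1), ((m.choose k : ℕ) : ℂ) * ej (2 * (k : ℤ) - m) θ

theorem ps_near (M : ℕ) [NeZero M] (t : ℝ) (ht : |t| ≤ M / 40) (N : ℕ) (hN : (M : ℝ) / 2 ≤ N)
    (θ : ℝ) : ‖exp (I * ((2 * t * Real.cos θ : ℝ) : ℂ)) - ps t N θ‖ ≤
      4 * Real.exp (-((M : ℝ) / 4)) := by
  set x : ℂ := I * ((2 * t * Real.cos θ : ℝ) : ℂ) with hx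
  have hM : (0 : ℝ) < M := Nat.cast_pos.2 (NeZero.pos M)
  have hxn : ‖x‖ ≤ M / 20 := by
    rw [hx, norm_mul, norm_I, one_mul, norm_real, Real.norm_eq_abs, abs_mul, abs_mul,
      abs_of_pos (show (0 : ℝ) < 2 by norm_num)]
    have h1 := Real.abs_cos_le_one θ
    have h2 : |t| * |Real.cos θ| ≤ |t| * 1 := mul_le_mul_of_nonneg_left h1 (abs_nonneg t)
    nlinarith only [ht, h2]
  have hps : ps t N θ = ∑ m ∈ range N, x ^ m / (m.factorial : ℂ) := by
    unfold ps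
    refine sum_congr rfl fun m _ => ?_
    rw [← cos_pow, hx]
    rw [show I * ((2 * t * Real.cos θ : ℝ) : ℂ) = I * (t : ℂ) * ((2 * Real.cos θ : ℝ) : ℂ) by
      push_cast; ring, mul_pow]
    ring
  have h3 : ‖x‖ / N.succ ≤ 1 / 2 := by
    rw [div_le_iff₀ (by positivity)]
    push_cast
    linarith only [hN, hM, hxn]
  rw [hps]
  refine (exp_bound' h3).trans ?_
  have h4 : ‖x‖ ^ N / (N.factorial : ℝ) ≤ Real.exp (-(N : ℝ)) * Real.exp (3 * ‖x‖) := by
    have h5 : (3 * ‖x‖) ^ N / (N.factorial : ℝ) ≤ Real.exp (3 * ‖x‖) :=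
      Real.pow_div_factorial_le_exp (3 * ‖x‖) (by positivity) N
    have h6 : ‖x‖ ^ N / (N.factorial : ℝ) = ((3 : ℝ) ^ N)⁻¹ * ((3 * ‖x‖) ^ N / N.factorial) := by
      rw [mul_pow]
      field_simp
    rw [h6]
    refine mul_le_mul ?_ h5 (by positivity) (Real.exp_pos _).le
    rw [Real.exp_neg, show (N : ℝ) = N * 1 by ring, Real.exp_nat_mul]
    refine inv_anti₀ (by positivity) ?_
    refine pow_le_pow_left₀ (Real.exp_pos 1).le ?_ N
    have := Real.exp_one_lt_d9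
    linarith only [this]
  have h7 : Real.exp (-(N : ℝ)) * Real.exp (3 * ‖x‖) ≤ Real.exp (-((M : ℝ) / 4)) := by
    rw [← Real.exp_add]
    refine Real.exp_le_exp.2 ?_
    linarith only [hN, hM, hxn]
  have h8 := h4.trans h7
  have h9 := Real.exp_pos (-((M : ℝ) / 4))
  linarith only [h4, h7, h9]

theorem ej_cont (j : ℤ) : Continuous (ej j) := by
  unfold ej
  fun_prop

theorem ps_cont (t : ℝ) (N : ℕ) : Continuous (ps t N) := by
  unfold ps
  refine continuous_finsetSum _ fun m _ => continuous_const.mul ?_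
  exact continuous_finsetSum _ fun k _ => continuous_const.mul (ej_cont _)

theorem psd (M : ℕ) [NeZero M] (t : ℝ) (n : ZMod M) (N : ℕ) :
    (∑ p : ZMod M, ZMod.stdAddChar (p * n) * ps t N (an M p)) / (M : ℂ) =
      ∑ m ∈ range N, (I * (t : ℂ)) ^ m / (m.factorial : ℂ) *
        ∑ k ∈ range (m + 1), ((m.choose k : ℕ) : ℂ) *
          (if n + ((2 * (k : ℤ) - m : ℤ) : ZMod M) = 0 then 1 else 0) := by
  have h1 : ∀ p : ZMod M, ZMod.stdAddChar (p * n) * ps t N (an M p) =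
      ∑ m ∈ range N, (I * (t : ℂ)) ^ m / (m.factorial : ℂ) *
        ∑ k ∈ range (m + 1), ((m.choose k : ℕ) : ℂ) *
          (ZMod.stdAddChar (p * n) * ej (2 * (k : ℤ) - m) (an M p)) := by
    intro p
    unfold ps
    rw [mul_sum]
    refine sum_congr rfl fun m _ => ?_
    rw [mul_left_comm, mul_sum]
    congr 1
    refine sum_congr rfl fun k _ => ?_
    ring
  rw [sum_congr rfl fun p _ => h1 p, sum_comm, sum_div]
  refine sum_congr rfl fun m _ => ?_
  rw [← mul_sum, mul_div_assoc, sum_comm, sum_div]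
  congr 1
  refine sum_congr rfl fun k _ => ?_
  rw [← mul_sum, mul_div_assoc, disc]

theorem psc (t : ℝ) (n : ℤ) (N : ℕ) :
    (∫ θ in (0 : ℝ)..(2 * Real.pi), ej n θ * ps t N θ) / ((2 * Real.pi : ℝ) : ℂ) =
      ∑ m ∈ range N, (I * (t : ℂ)) ^ m / (m.factorial : ℂ) *
        ∑ k ∈ range (m + 1), ((m.choose k : ℕ) : ℂ) *
          (if n + (2 * (k : ℤ) - m) = 0 then 1 else 0) := by
  have h1 : ∀ θ : ℝ, ej n θ * ps t N θ =
      ∑ m ∈ range N, (I * (t : ℂ)) ^ m / (m.factorial : ℂ) *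
        ∑ k ∈ range (m + 1), ((m.choose k : ℕ) : ℂ) *
          (ej n θ * ej (2 * (k : ℤ) - m) θ) := by
    intro θ
    unfold ps
    rw [mul_sum]
    refine sum_congr rfl fun m _ => ?_
    rw [mul_left_comm, mul_sum]
    congr 1
    refine sum_congr rfl fun k _ => ?_
    ring
  have hc : ∀ k : ℤ, Continuous fun θ => ej n θ * ej k θ := fun k => (ej_cont n).mul (ej_cont k)
  have h2 : ∫ θ in (0 : ℝ)..(2 * Real.pi),
      ∑ m ∈ range N, (I * (t : ℂ)) ^ m / (m.factorial : ℂ) *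
        ∑ k ∈ range (m + 1), ((m.choose k : ℕ) : ℂ) * (ej n θ * ej (2 * (k : ℤ) - m) θ) =
      ∑ m ∈ range N, (I * (t : ℂ)) ^ m / (m.factorial : ℂ) *
        ∑ k ∈ range (m + 1), ((m.choose k : ℕ) : ℂ) *
          ∫ θ in (0 : ℝ)..(2 * Real.pi), ej n θ * ej (2 * (k : ℤ) - m) θ := by
    rw [intervalIntegral.integral_finsetSum]
    · refine sum_congr rfl fun m _ => ?_
      rw [intervalIntegral.integral_const_mul, intervalIntegral.integral_finsetSum]
      · congr 1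
        refine sum_congr rfl fun k _ => ?_
        rw [intervalIntegral.integral_const_mul]
      · intro k _
        exact Continuous.intervalIntegrable (continuous_const.mul (hc _)) _ _
    · intro m _
      exact Continuous.intervalIntegrable
        (continuous_const.mul (continuous_finsetSum _ fun k _ => continuous_const.mul (hc _))) _ _
  rw [intervalIntegral.integral_congr fun θ _ => h1 θ, h2, sum_div]
  refine sum_congr rfl fun m _ => ?_
  rw [mul_div_assoc, sum_div]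
  congr 1
  refine sum_congr rfl fun k _ => ?_
  rw [mul_div_assoc, cont]

/-- TOR: from the cyclic group to `ℤ`. -/
theorem tor : TorStmt := by
  intro M _ t n ht
  have hM : 0 < M := NeZero.pos M
  have hMr : (0 : ℝ) < M := Nat.cast_pos.2 hM
  set a : ℕ := n.valMinAbs.natAbs with ha
  have ha2 : a ≤ M / 2 := ZMod.natAbs_valMinAbs_le n
  set N : ℕ := M - a with hN
  have hN2 : (M : ℝ) / 2 ≤ N := by
    have h1 : M ≤ 2 * N := by omega
    have h2 : (M : ℝ) ≤ 2 * N := by exact_mod_cast h1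
    linarith only [h2]
  set δ : ℝ := 4 * Real.exp (-((M : ℝ) / 4)) with hδ
  set f : ℝ → ℂ := fun θ => exp (I * ((2 * t * Real.cos θ : ℝ) : ℂ)) with hf
  have hfc : Continuous f := by
    rw [hf]
    fun_prop
  have hnear : ∀ θ, ‖f θ - ps t N θ‖ ≤ δ := fun θ => ps_near M t ht N hN2 θ
  have e1 : jt M t n = (∑ p : ZMod M, ZMod.stdAddChar (p * n) * f (an M p)) / (M : ℂ) := rfl
  have e2 : jb t n.valMinAbs =
      (∫ θ in (0 : ℝ)..(2 * Real.pi), ej n.valMinAbs θ * f θ) / ((2 * Real.pi : ℝ) : ℂ) := by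
    unfold jb
    congr 1
    refine intervalIntegral.integral_congr fun θ _ => ?_
    show exp (I * ((n.valMinAbs * θ + 2 * t * Real.cos θ : ℝ) : ℂ)) =
      ej n.valMinAbs θ * exp (I * ((2 * t * Real.cos θ : ℝ) : ℂ))
    unfold ej
    rw [← exp_add]
    congr 1
    push_cast
    ring
  have e3 : (∑ p : ZMod M, ZMod.stdAddChar (p * n) * ps t N (an M p)) / (M : ℂ) =
      (∫ θ in (0 : ℝ)..(2 * Real.pi), ej n.valMinAbs θ * ps t N θ) / ((2 * Real.pi : ℝ) : ℂ) := by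
    rw [psd, psc]
    refine sum_congr rfl fun m hm => ?_
    congr 1
    refine sum_congr rfl fun k hk => ?_
    congr 1
    have hm' := mem_range.1 hm
    have hk' := mem_range.1 hk
    have h1 : n + ((2 * (k : ℤ) - m : ℤ) : ZMod M) =
        ((n.valMinAbs + (2 * (k : ℤ) - m) : ℤ) : ZMod M) := by
      rw [Int.cast_add, ZMod.coe_valMinAbs]
    rw [h1]
    refine if_congr ((ZMod.intCast_zmod_eq_zero_iff_dvd _ M).trans
      ⟨fun h => ?_, fun h => by rw [h]; exact dvd_zero _⟩) rfl rfl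
    by_contra hne
    have h2 := Int.le_of_dvd (Int.natAbs_pos.2 hne |> Int.natCast_pos.2) (Int.dvd_natAbs.2 h)
    omega
  have e4 : ‖jt M t n -
      (∑ p : ZMod M, ZMod.stdAddChar (p * n) * ps t N (an M p)) / (M : ℂ)‖ ≤ δ := by
    rw [e1, ← sub_div, ← sum_sub_distrib, norm_div, Complex.norm_natCast, div_le_iff₀ hMr]
    refine (norm_sum_le _ _).trans ?_
    refine (sum_le_card_nsmul _ _ δ fun p _ => ?_).trans ?_
    · rw [← mul_sub, norm_mul, AddChar.norm_apply, one_mul]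
      exact hnear _
    · rw [card_univ, ZMod.card, nsmul_eq_mul, mul_comm]
  have e5 : ‖jb t n.valMinAbs -
      (∫ θ in (0 : ℝ)..(2 * Real.pi), ej n.valMinAbs θ * ps t N θ) / ((2 * Real.pi : ℝ) : ℂ)‖ ≤
        δ := by
    have hpi : (0 : ℝ) < 2 * Real.pi := by positivity
    have h0 : (∫ θ in (0 : ℝ)..(2 * Real.pi), ej n.valMinAbs θ * f θ) -
        (∫ θ in (0 : ℝ)..(2 * Real.pi), ej n.valMinAbs θ * ps t N θ) =
        ∫ θ in (0 : ℝ)..(2 * Real.pi), (ej n.valMinAbs θ * f θ - ej n.valMinAbs θ * ps t N θ) :=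
      (intervalIntegral.integral_sub (((ej_cont _).mul hfc).intervalIntegrable _ _)
        (((ej_cont _).mul (ps_cont t N)).intervalIntegrable _ _)).symm
    rw [e2, ← sub_div, h0, norm_div, norm_real,
      Real.norm_eq_abs, abs_of_pos hpi, div_le_iff₀ hpi]
    have := intervalIntegral.norm_integral_le_of_norm_le_const (a := 0) (b := 2 * Real.pi)
      (f := fun θ => ej n.valMinAbs θ * f θ - ej n.valMinAbs θ * ps t N θ) (C := δ)
      (fun θ _ => by rw [← mul_sub, norm_mul, ej_norm, one_mul]; exact hnear θ)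
    rwa [sub_zero, abs_of_pos hpi] at this
  have e6 : jt M t n - jb t n.valMinAbs =
      (jt M t n - (∑ p : ZMod M, ZMod.stdAddChar (p * n) * ps t N (an M p)) / (M : ℂ)) -
      (jb t n.valMinAbs -
        (∫ θ in (0 : ℝ)..(2 * Real.pi), ej n.valMinAbs θ * ps t N θ) / ((2 * Real.pi : ℝ) : ℂ)) := by
    rw [e3]
    ring
  rw [e6]
  refine (norm_sub_le _ _).trans ?_
  linarith

end Pool.Agent.LE.QD.H89
end
end -- Pool.Agent.Helper89_LQD.TOR

section -- Pool.Agent.Helper32_LQF.JCB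

/-!
# Squad LQF, row JCB: the Bessel function on the cyclic group
-/

set_option autoImplicit false
set_option linter.unusedSectionVars false

open MeasureTheory Set Complex

noncomputable section

namespace Pool.Agent.LE.QF.H32

open Pool.Agent.LE.H28V Pool.Agent.LE.QD Pool.Agent.LE.QD.H89

/-! ### the circle -/

/-- the first derivative test, negative second derivative -/
theorem vdc1n {F F1 F2 : ℝ → ℝ} {a b lam : ℝ} (hab : a ≤ b)
    (hF : ∀ x ∈ Icc a b, HasDerivAt F (F1 x) x) (hF1 : ∀ x ∈ Icc a b, HasDerivAt F1 (F2 x) x)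
    (hF2 : ContinuousOn F2 (Icc a b)) (hs : ∀ x ∈ Icc a b, F2 x ≤ 0) (hlam : 0 < lam)
    (h1 : ∀ x ∈ Icc a b, lam ≤ |F1 x|) :
    ‖∫ x in a..b, cexp (I * F x)‖ ≤ 4 / lam := by
  have h := vdc1 (F := fun x => -F x) (F1 := fun x => -F1 x) (F2 := fun x => -F2 x) hab
    (fun x hx => (hF x hx).fun_neg) (fun x hx => (hF1 x hx).fun_neg) hF2.neg
    (fun x hx => by have := hs x hx; linarith only [this]) hlam (fun x hx => by rw [abs_neg]; exact h1 x hx)
  rw [← Complex.norm_conj, ← intervalIntegral.intervalIntegral_conj] at h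
  have e : (fun x => (starRingEnd ℂ) (cexp (I * ((-F x : ℝ) : ℂ)))) = fun x => cexp (I * F x) := by
    funext x
    rw [← Complex.exp_conj, map_mul, conj_I, conj_ofReal]
    push_cast
    ring_nf
  rw [e] at h
  exact h

theorem half_le_cos {φ : ℝ} (h : |φ| ≤ Real.pi / 4) : 1 / 2 ≤ Real.cos φ := by
  have hpi := Real.pi_pos
  have h1 : Real.cos (Real.pi / 3) ≤ Real.cos |φ| :=
    Real.cos_le_cos_of_nonneg_of_le_pi (abs_nonneg _) (by linarith only [hpi]) (by linarith only [h, hpi])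
  rw [Real.cos_abs, Real.cos_pi_div_three] at h1
  exact h1

theorem jb_le {t : ℝ} (ht : 1 ≤ t) : ‖jb t 0‖ ≤ 7 / Real.sqrt t := by
  have hpi := Real.pi_pos
  have hpi3 := Real.pi_gt_three
  have ht0 : 0 < t := by linarith only [ht]
  have hst : 0 < Real.sqrt t := Real.sqrt_pos.2 ht0
  have hst1 : 1 ≤ Real.sqrt t := Real.one_le_sqrt.2 ht
  set F : ℝ → ℝ := fun θ => 2 * t * Real.cos θ with hF
  set F1 : ℝ → ℝ := fun θ => -(2 * t * Real.sin θ) with hF1
  set F2 : ℝ → ℝ := fun θ => -(2 * t * Real.cos θ) with hF2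
  have dF : ∀ x, HasDerivAt F (F1 x) x := by
    intro x
    refine ((Real.hasDerivAt_cos x).const_mul (2 * t)).congr_deriv ?_
    simp only [hF1]
    ring
  have dF1 : ∀ x, HasDerivAt F1 (F2 x) x := by
    intro x
    exact ((Real.hasDerivAt_sin x).const_mul (2 * t)).fun_neg
  have cF : Continuous F := continuous_iff_continuousAt.2 fun x => (dF x).continuousAt
  have cF2 : Continuous F2 := by
    simp only [hF2]
    fun_prop
  have hlow : ∀ x φ : ℝ, |φ| ≤ Real.pi / 4 → Real.cos x = Real.cos φ → F2 x ≤ -t := by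
    intro x φ hφ hx
    have h1 := half_le_cos hφ
    simp only [hF2]
    rw [hx]
    nlinarith only [ht, h1]
  have hhigh : ∀ x φ : ℝ, |φ| ≤ Real.pi / 4 → Real.cos x = -Real.cos φ → t ≤ F2 x := by
    intro x φ hφ hx
    have h1 := half_le_cos hφ
    simp only [hF2]
    rw [hx]
    nlinarith only [ht, h1]
  have hs1 : ∀ x φ : ℝ, |φ| ≤ Real.pi / 4 → (Real.sin x = Real.cos φ ∨ Real.sin x = -Real.cos φ) →
      t ≤ |F1 x| := by
    intro x φ hφ hx
    have h1 := half_le_cos hφ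
    have h2 : |F1 x| = 2 * t * Real.cos φ := by
      simp only [hF1]
      rcases hx with hx | hx
      · rw [hx, abs_neg, abs_of_nonneg (by nlinarith only [ht, h1])]
      · rw [hx, mul_neg, neg_neg, abs_of_nonneg (by nlinarith only [ht, h1])]
    rw [h2]
    nlinarith only [ht, h1]
  have I1 : ‖∫ x in (0 : ℝ)..(Real.pi / 4), cexp (I * F x)‖ ≤ 8 / Real.sqrt t := by
    refine vdc2n (by linarith only [hpi3]) (fun x _ => dF x) (fun x _ => dF1 x) cF2.continuousOn ht0 ?_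
    intro x hx
    exact hlow x x (by rw [abs_of_nonneg hx.1]; exact hx.2) rfl
  have I2 : ‖∫ x in (Real.pi / 4)..(Real.pi / 2), cexp (I * F x)‖ ≤ 4 / t := by
    refine vdc1n (by linarith only [hpi3]) (fun x _ => dF x) (fun x _ => dF1 x) cF2.continuousOn ?_ ht0 ?_
    · intro x hx
      have h1 : 0 ≤ Real.cos x := Real.cos_nonneg_of_mem_Icc ⟨by linarith only [hx.1, hpi3], hx.2⟩
      simp only [hF2]
      nlinarith only [ht, h1]
    · intro x hx
      refine hs1 x (Real.pi / 2 - x) ?_ (Or.inl (Real.cos_pi_div_two_sub x).symm)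
      rw [abs_le]
      constructor <;> linarith [hx.1, hx.2]
  have I3 : ‖∫ x in (Real.pi / 2)..(3 * Real.pi / 4), cexp (I * F x)‖ ≤ 4 / t := by
    refine vdc1 (by linarith only [hpi3]) (fun x _ => dF x) (fun x _ => dF1 x) cF2.continuousOn ?_ ht0 ?_
    · intro x hx
      have h1 : Real.cos x ≤ 0 :=
        Real.cos_nonpos_of_pi_div_two_le_of_le hx.1 (by linarith only [hx.2, hpi3])
      simp only [hF2]
      nlinarith only [ht, h1]
    · intro x hx
      refine hs1 x (Real.pi / 2 - x) ?_ (Or.inl (Real.cos_pi_div_two_sub x).symm)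
      rw [abs_le]
      constructor <;> linarith [hx.1, hx.2]
  have I4 : ‖∫ x in (3 * Real.pi / 4)..(5 * Real.pi / 4), cexp (I * F x)‖ ≤ 8 / Real.sqrt t := by
    refine vdc2 (by linarith only [hpi3]) (fun x _ => dF x) (fun x _ => dF1 x) cF2.continuousOn ht0 ?_
    intro x hx
    refine hhigh x (x - Real.pi) ?_ ?_
    · rw [abs_le]
      constructor <;> linarith only [hx.1, hx.2]
    · rw [Real.cos_sub_pi, neg_neg]
  have hsn : ∀ x : ℝ, Real.sin x = -Real.cos (x - 3 * Real.pi / 2) := by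
    intro x
    have h1 : x - 3 * Real.pi / 2 = (x - Real.pi) - Real.pi / 2 := by ring
    rw [h1, Real.cos_sub_pi_div_two, Real.sin_sub_pi, neg_neg]
  have I5 : ‖∫ x in (5 * Real.pi / 4)..(3 * Real.pi / 2), cexp (I * F x)‖ ≤ 4 / t := by
    refine vdc1 (by linarith only [hpi3]) (fun x _ => dF x) (fun x _ => dF1 x) cF2.continuousOn ?_ ht0 ?_
    · intro x hx
      have h1 : Real.cos x ≤ 0 :=
        Real.cos_nonpos_of_pi_div_two_le_of_le (by linarith only [hx.1, hpi3]) (by linarith only [hx.2])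
      simp only [hF2]
      nlinarith only [ht, h1]
    · intro x hx
      refine hs1 x (x - 3 * Real.pi / 2) ?_ (Or.inr (hsn x))
      rw [abs_le]
      constructor <;> linarith [hx.1, hx.2]
  have I6 : ‖∫ x in (3 * Real.pi / 2)..(7 * Real.pi / 4), cexp (I * F x)‖ ≤ 4 / t := by
    refine vdc1n (by linarith only [hpi3]) (fun x _ => dF x) (fun x _ => dF1 x) cF2.continuousOn ?_ ht0 ?_
    · intro x hx
      have h1 : 0 ≤ Real.cos (x - 2 * Real.pi) :=
        Real.cos_nonneg_of_mem_Icc ⟨by linarith only [hx.1], by linarith only [hx.2, hpi3]⟩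
      rw [Real.cos_sub_two_pi] at h1
      simp only [hF2]
      nlinarith only [ht, h1]
    · intro x hx
      refine hs1 x (x - 3 * Real.pi / 2) ?_ (Or.inr (hsn x))
      rw [abs_le]
      constructor <;> linarith [hx.1, hx.2]
  have I7 : ‖∫ x in (7 * Real.pi / 4)..(2 * Real.pi), cexp (I * F x)‖ ≤ 8 / Real.sqrt t := by
    refine vdc2n (by linarith only [hpi3]) (fun x _ => dF x) (fun x _ => dF1 x) cF2.continuousOn ht0 ?_
    intro x hx
    refine hlow x (x - 2 * Real.pi) ?_ ?_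
    · rw [abs_le]
      constructor <;> linarith [hx.1, hx.2]
    · rw [Real.cos_sub_two_pi]
  have hint : ∀ a b : ℝ, IntervalIntegrable (fun x => cexp (I * F x)) volume a b := by
    intro a b
    apply Continuous.intervalIntegrable
    exact Complex.continuous_exp.comp
      (continuous_const.mul (Complex.continuous_ofReal.comp cF))
  have hsum : ∫ x in (0 : ℝ)..(2 * Real.pi), cexp (I * F x)
      = (∫ x in (0 : ℝ)..(Real.pi / 4), cexp (I * F x))
      + (∫ x in (Real.pi / 4)..(Real.pi / 2), cexp (I * F x))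
      + (∫ x in (Real.pi / 2)..(3 * Real.pi / 4), cexp (I * F x))
      + (∫ x in (3 * Real.pi / 4)..(5 * Real.pi / 4), cexp (I * F x))
      + (∫ x in (5 * Real.pi / 4)..(3 * Real.pi / 2), cexp (I * F x))
      + (∫ x in (3 * Real.pi / 2)..(7 * Real.pi / 4), cexp (I * F x))
      + ∫ x in (7 * Real.pi / 4)..(2 * Real.pi), cexp (I * F x) := by
    rw [intervalIntegral.integral_add_adjacent_intervals (hint _ _) (hint _ _),
      intervalIntegral.integral_add_adjacent_intervals (hint _ _) (hint _ _),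
      intervalIntegral.integral_add_adjacent_intervals (hint _ _) (hint _ _),
      intervalIntegral.integral_add_adjacent_intervals (hint _ _) (hint _ _),
      intervalIntegral.integral_add_adjacent_intervals (hint _ _) (hint _ _),
      intervalIntegral.integral_add_adjacent_intervals (hint _ _) (hint _ _)]
  have h4t : 4 / t ≤ 4 / Real.sqrt t := by
    apply div_le_div_of_nonneg_left (by norm_num) hst
    calc Real.sqrt t = Real.sqrt t * 1 := (mul_one _).symm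
      _ ≤ Real.sqrt t * Real.sqrt t := mul_le_mul_of_nonneg_left hst1 hst.le
      _ = t := Real.mul_self_sqrt ht0.le
  have htot : ‖∫ x in (0 : ℝ)..(2 * Real.pi), cexp (I * F x)‖ ≤ 40 / Real.sqrt t := by
    rw [hsum]
    have n1 := norm_add_le ((∫ x in (0 : ℝ)..(Real.pi / 4), cexp (I * F x))
      + (∫ x in (Real.pi / 4)..(Real.pi / 2), cexp (I * F x))
      + (∫ x in (Real.pi / 2)..(3 * Real.pi / 4), cexp (I * F x))
      + (∫ x in (3 * Real.pi / 4)..(5 * Real.pi / 4), cexp (I * F x))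
      + (∫ x in (5 * Real.pi / 4)..(3 * Real.pi / 2), cexp (I * F x))
      + (∫ x in (3 * Real.pi / 2)..(7 * Real.pi / 4), cexp (I * F x)))
      (∫ x in (7 * Real.pi / 4)..(2 * Real.pi), cexp (I * F x))
    have n2 := norm_add_le ((∫ x in (0 : ℝ)..(Real.pi / 4), cexp (I * F x))
      + (∫ x in (Real.pi / 4)..(Real.pi / 2), cexp (I * F x))
      + (∫ x in (Real.pi / 2)..(3 * Real.pi / 4), cexp (I * F x))
      + (∫ x in (3 * Real.pi / 4)..(5 * Real.pi / 4), cexp (I * F x))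
      + (∫ x in (5 * Real.pi / 4)..(3 * Real.pi / 2), cexp (I * F x)))
      (∫ x in (3 * Real.pi / 2)..(7 * Real.pi / 4), cexp (I * F x))
    have n3 := norm_add_le ((∫ x in (0 : ℝ)..(Real.pi / 4), cexp (I * F x))
      + (∫ x in (Real.pi / 4)..(Real.pi / 2), cexp (I * F x))
      + (∫ x in (Real.pi / 2)..(3 * Real.pi / 4), cexp (I * F x))
      + (∫ x in (3 * Real.pi / 4)..(5 * Real.pi / 4), cexp (I * F x)))
      (∫ x in (5 * Real.pi / 4)..(3 * Real.pi / 2), cexp (I * F x))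
    have n4 := norm_add_le ((∫ x in (0 : ℝ)..(Real.pi / 4), cexp (I * F x))
      + (∫ x in (Real.pi / 4)..(Real.pi / 2), cexp (I * F x))
      + (∫ x in (Real.pi / 2)..(3 * Real.pi / 4), cexp (I * F x)))
      (∫ x in (3 * Real.pi / 4)..(5 * Real.pi / 4), cexp (I * F x))
    have n5 := norm_add_le ((∫ x in (0 : ℝ)..(Real.pi / 4), cexp (I * F x))
      + (∫ x in (Real.pi / 4)..(Real.pi / 2), cexp (I * F x)))
      (∫ x in (Real.pi / 2)..(3 * Real.pi / 4), cexp (I * F x))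
    have n6 := norm_add_le (∫ x in (0 : ℝ)..(Real.pi / 4), cexp (I * F x))
      (∫ x in (Real.pi / 4)..(Real.pi / 2), cexp (I * F x))
    have e40 : 40 / Real.sqrt t = 3 * (8 / Real.sqrt t) + 4 * (4 / Real.sqrt t) := by ring
    rw [e40]
    linarith only [I1, I2, I3, I4, I5, I6, I7, h4t, n1, n2, n3, n4, n5, n6]
  have hj : jb t 0 = (∫ x in (0 : ℝ)..(2 * Real.pi), cexp (I * F x)) / ((2 * Real.pi : ℝ) : ℂ) := by
    unfold jb
    congr 1
    apply intervalIntegral.integral_congr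
    intro θ _
    simp only [hF, Int.cast_zero, zero_mul, zero_add]
  rw [hj, norm_div, Complex.norm_real, Real.norm_eq_abs,
    abs_of_pos (by positivity : 0 < 2 * Real.pi), div_le_iff₀ (by positivity)]
  refine htot.trans ?_
  rw [div_mul_eq_mul_div]
  apply div_le_div_of_nonneg_right _ hst.le
  linarith only [hpi3]

/-! ### the power series -/

theorem exp_near (M : ℕ) [NeZero M] (x : ℂ) (hxn : ‖x‖ ≤ M / 20) (N : ℕ) (hN : (M : ℝ) / 2 ≤ N) :
    ‖exp x - ∑ m ∈ Finset.range N, x ^ m / (m.factorial : ℂ)‖ ≤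
      4 * Real.exp (-((M : ℝ) / 4)) := by
  have hM : (0 : ℝ) < M := Nat.cast_pos.2 (NeZero.pos M)
  have h3 : ‖x‖ / N.succ ≤ 1 / 2 := by
    rw [div_le_iff₀ (by positivity)]
    push_cast
    linarith
  refine (exp_bound' h3).trans ?_
  have h4 : ‖x‖ ^ N / (N.factorial : ℝ) ≤ Real.exp (-(N : ℝ)) * Real.exp (3 * ‖x‖) := by
    have h5 : (3 * ‖x‖) ^ N / (N.factorial : ℝ) ≤ Real.exp (3 * ‖x‖) :=
      Real.pow_div_factorial_le_exp (3 * ‖x‖) (by positivity) N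
    have h6 : ‖x‖ ^ N / (N.factorial : ℝ) = ((3 : ℝ) ^ N)⁻¹ * ((3 * ‖x‖) ^ N / N.factorial) := by
      rw [mul_pow]
      field_simp
    rw [h6]
    refine mul_le_mul ?_ h5 (by positivity) (Real.exp_pos _).le
    rw [Real.exp_neg, show (N : ℝ) = N * 1 by ring, Real.exp_nat_mul]
    refine inv_anti₀ (by positivity) ?_
    refine pow_le_pow_left₀ (Real.exp_pos 1).le ?_ N
    have := Real.exp_one_lt_d9
    linarith only [this]
  have h7 : Real.exp (-(N : ℝ)) * Real.exp (3 * ‖x‖) ≤ Real.exp (-((M : ℝ) / 4)) := by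
    rw [← Real.exp_add]
    refine Real.exp_le_exp.2 ?_
    linarith only [hxn, hN, hM]
  have h8 := h4.trans h7
  have h9 := Real.exp_pos (-((M : ℝ) / 4))
  linarith only [h4, h7, h9]

/-- the common value -/
def VV (t : ℝ) (N : ℕ) : ℂ :=
  ∑ m ∈ Finset.range N, (I * (t : ℂ)) ^ m / (m.factorial : ℂ) *
    ∑ k ∈ Finset.range (m + 1), ((m.choose k : ℕ) : ℂ) *
      (if (0 : ℤ) + (2 * (k : ℤ) - m) = 0 then 1 else 0)

theorem jb_VV (M : ℕ) [NeZero M] (t : ℝ) (ht : |t| ≤ M / 40) :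
    ‖jb t 0 - VV t M‖ ≤ 4 * Real.exp (-((M : ℝ) / 4)) := by
  have hM : 0 < M := NeZero.pos M
  have hMr : (0 : ℝ) < M := Nat.cast_pos.2 hM
  set δ : ℝ := 4 * Real.exp (-((M : ℝ) / 4)) with hδ
  set f : ℝ → ℂ := fun θ => exp (I * ((2 * t * Real.cos θ : ℝ) : ℂ)) with hf
  have hfc : Continuous f := by
    rw [hf]
    fun_prop
  have hnear : ∀ θ, ‖f θ - ps t M θ‖ ≤ δ := fun θ => ps_near M t ht M (by linarith only [hMr]) θ
  have e2 : jb t 0 =
      (∫ θ in (0 : ℝ)..(2 * Real.pi), ej 0 θ * f θ) / ((2 * Real.pi : ℝ) : ℂ) := by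
    unfold jb
    congr 1
    refine intervalIntegral.integral_congr fun θ _ => ?_
    show exp (I * (((0 : ℤ) * θ + 2 * t * Real.cos θ : ℝ) : ℂ)) =
      ej 0 θ * exp (I * ((2 * t * Real.cos θ : ℝ) : ℂ))
    unfold ej
    rw [← exp_add]
    congr 1
    push_cast
    ring
  have hpi : (0 : ℝ) < 2 * Real.pi := by positivity
  have h0 : (∫ θ in (0 : ℝ)..(2 * Real.pi), ej 0 θ * f θ) -
      (∫ θ in (0 : ℝ)..(2 * Real.pi), ej 0 θ * ps t M θ) =
      ∫ θ in (0 : ℝ)..(2 * Real.pi), (ej 0 θ * f θ - ej 0 θ * ps t M θ) :=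
    (intervalIntegral.integral_sub (((ej_cont _).mul hfc).intervalIntegrable _ _)
      (((ej_cont _).mul (ps_cont t M)).intervalIntegrable _ _)).symm
  have e5 : VV t M = (∫ θ in (0 : ℝ)..(2 * Real.pi), ej 0 θ * ps t M θ) /
      ((2 * Real.pi : ℝ) : ℂ) := (psc t 0 M).symm
  rw [e2, e5, ← sub_div, h0, norm_div, norm_real,
    Real.norm_eq_abs, abs_of_pos hpi, div_le_iff₀ hpi]
  have := intervalIntegral.norm_integral_le_of_norm_le_const (a := 0) (b := 2 * Real.pi)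
    (f := fun θ => ej 0 θ * f θ - ej 0 θ * ps t M θ) (C := δ)
    (fun θ _ => by rw [← mul_sub, norm_mul, ej_norm, one_mul]; exact hnear θ)
  rwa [sub_zero, abs_of_pos hpi] at this

theorem chr (M : ℕ) [NeZero M] (k : ZMod M) (j i : ℕ) :
    (ZMod.stdAddChar k : ℂ) ^ j * ((starRingEnd ℂ) (ZMod.stdAddChar k : ℂ)) ^ i =
      ZMod.stdAddChar (k * ((j : ZMod M) - (i : ZMod M))) := by
  rw [← AddChar.map_neg_eq_conj, ← AddChar.map_nsmul_eq_pow, ← AddChar.map_nsmul_eq_pow,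
    ← AddChar.map_add_eq_mul]
  congr 1
  rw [nsmul_eq_mul, nsmul_eq_mul]
  ring

theorem mean_pow (M : ℕ) [NeZero M] (a : ℂ) (m : ℕ) (hm : m < M) :
    (∑ k : ZMod M, (I * ((2 * (a * ZMod.stdAddChar k).re : ℝ) : ℂ)) ^ m) / (M : ℂ) =
      (I * ((‖a‖ : ℝ) : ℂ)) ^ m * ∑ k ∈ Finset.range (m + 1), ((m.choose k : ℕ) : ℂ) *
        (if (0 : ℤ) + (2 * (k : ℤ) - m) = 0 then 1 else 0) := by
  have hM : (M : ℂ) ≠ 0 := Nat.cast_ne_zero.2 (NeZero.ne M)
  have h1 : ∀ k : ZMod M, (I * ((2 * (a * ZMod.stdAddChar k).re : ℝ) : ℂ)) ^ m =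
      I ^ m * ∑ j ∈ Finset.range (m + 1), a ^ j * ((starRingEnd ℂ) a) ^ (m - j) *
        ((m.choose j : ℕ) : ℂ) * ZMod.stdAddChar (k * ((j : ZMod M) - ((m - j : ℕ) : ZMod M))) := by
    intro k
    rw [mul_pow, ← Complex.add_conj, add_pow]
    congr 1
    apply Finset.sum_congr rfl
    intro j _
    rw [← chr, map_mul, mul_pow, mul_pow]
    ring
  rw [Finset.sum_congr rfl fun k _ => h1 k, ← Finset.mul_sum, Finset.sum_comm, mul_div_assoc,
    Finset.sum_div, mul_pow, mul_assoc (I ^ m)]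
  congr 1
  rw [Finset.mul_sum]
  apply Finset.sum_congr rfl
  intro j hj
  rw [Finset.mem_range] at hj
  rw [← Finset.mul_sum, AddChar.sum_mulShift _ (ZMod.isPrimitive_stdAddChar M), ZMod.card,
    mul_div_assoc]
  by_cases h : 2 * j = m
  · have hmj : m - j = j := by omega
    rw [hmj, sub_self, if_pos rfl, div_self hM, if_pos (by omega)]
    have h2 : a ^ j * (starRingEnd ℂ) a ^ j = ((‖a‖ : ℝ) : ℂ) ^ m := by
      rw [← mul_pow, Complex.mul_conj, Complex.normSq_eq_norm_sq, ← h, pow_mul]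
      push_cast
      ring
    rw [h2]
    ring
  · rw [if_neg, if_neg (by omega)]
    · simp
    · intro h3
      rw [sub_eq_zero, ZMod.natCast_eq_natCast_iff', Nat.mod_eq_of_lt (by omega),
        Nat.mod_eq_of_lt (by omega)] at h3
      omega

theorem jc_VV (M : ℕ) [NeZero M] (a : ℂ) (ha : ‖a‖ ≤ M / 40) :
    ‖jc M a - VV ‖a‖ M‖ ≤ 4 * Real.exp (-((M : ℝ) / 4)) := by
  have hM : 0 < M := NeZero.pos M
  have hMr : (0 : ℝ) < M := Nat.cast_pos.2 hM
  set δ : ℝ := 4 * Real.exp (-((M : ℝ) / 4)) with hδ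
  set x : ZMod M → ℂ := fun k => I * ((2 * (a * ZMod.stdAddChar k).re : ℝ) : ℂ) with hx
  have hxn : ∀ k, ‖x k‖ ≤ M / 20 := by
    intro k
    rw [hx, norm_mul, norm_I, one_mul, norm_real, Real.norm_eq_abs, abs_mul,
      abs_of_pos (show (0 : ℝ) < 2 by norm_num)]
    have h1 := Complex.abs_re_le_norm (a * ZMod.stdAddChar k)
    rw [norm_mul, AddChar.norm_apply, mul_one] at h1
    linarith
  have h2 : VV ‖a‖ M = (∑ k : ZMod M, ∑ m ∈ Finset.range M, x k ^ m / (m.factorial : ℂ)) /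
      (M : ℂ) := by
    unfold VV
    rw [Finset.sum_comm, Finset.sum_div]
    apply Finset.sum_congr rfl
    intro m hm
    rw [Finset.mem_range] at hm
    have h3 := mean_pow M a m hm
    rw [← Finset.sum_div, div_mul_eq_mul_div, ← h3, div_div, div_div, mul_comm (M : ℂ)]
  have h4 : jc M a = (∑ k : ZMod M, exp (x k)) / (M : ℂ) := rfl
  rw [h2, h4, ← sub_div, ← Finset.sum_sub_distrib, norm_div, Complex.norm_natCast,
    div_le_iff₀ hMr]
  refine (norm_sum_le _ _).trans ?_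
  refine (Finset.sum_le_card_nsmul _ _ δ fun k _ => ?_).trans ?_
  · exact exp_near M (x k) (hxn k) M (by linarith only [hMr])
  · rw [Finset.card_univ, ZMod.card, nsmul_eq_mul, mul_comm]

theorem jc_one (M : ℕ) [NeZero M] (a : ℂ) : ‖jc M a‖ ≤ 1 := by
  have hMr : (0 : ℝ) < M := Nat.cast_pos.2 (NeZero.pos M)
  unfold jc
  rw [norm_div, Complex.norm_natCast, div_le_iff₀ hMr]
  refine (norm_sum_le _ _).trans ?_
  refine (Finset.sum_le_card_nsmul _ _ 1 fun k _ => ?_).trans ?_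
  · rw [mul_comm, Complex.norm_exp_ofReal_mul_I]
  · rw [Finset.card_univ, ZMod.card, nsmul_eq_mul, mul_comm]

theorem jcb : JcbStmt := by
  refine ⟨22, by norm_num, ?_⟩
  intro M _ a ha
  have hMr : (0 : ℝ) < M := Nat.cast_pos.2 (NeZero.pos M)
  set t : ℝ := ‖a‖ with ht
  have ht0 : 0 ≤ t := norm_nonneg a
  have hpow : (1 + t) ^ (-(1 / 2 : ℝ)) = 1 / Real.sqrt (1 + t) := by
    rw [Real.rpow_neg (by linarith only [ht0]), ← Real.sqrt_eq_rpow, one_div]
  rw [hpow]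
  have hs : 0 < Real.sqrt (1 + t) := Real.sqrt_pos.2 (by linarith only [ht0])
  have hs1 : 1 ≤ Real.sqrt (1 + t) := Real.one_le_sqrt.2 (by linarith only [ht0])
  rcases le_or_gt 1 t with h1 | h1
  · -- `t ≥ 1`
    have e1 := jc_VV M a ha
    have e2 := jb_VV M t (by rw [abs_of_nonneg ht0]; exact ha)
    have e3 := jb_le h1
    have e4 : ‖jc M a‖ ≤ 7 / Real.sqrt t + 8 * Real.exp (-((M : ℝ) / 4)) := by
      have h2 : jc M a = (jc M a - VV t M) - (jb t 0 - VV t M) + jb t 0 := by ring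
      rw [h2]
      have h3 := norm_add_le ((jc M a - VV t M) - (jb t 0 - VV t M)) (jb t 0)
      have h4 := norm_sub_le (jc M a - VV t M) (jb t 0 - VV t M)
      linarith
    have e5 : Real.exp (-((M : ℝ) / 4)) ≤ 1 / Real.sqrt (1 + t) := by
      rw [Real.exp_neg, inv_eq_one_div]
      apply one_div_le_one_div_of_le hs
      calc Real.sqrt (1 + t) ≤ Real.sqrt (1 + t) * Real.sqrt (1 + t) := by
            nlinarith only [hs, hs1]
        _ = 1 + t := Real.mul_self_sqrt (by linarith only [h1])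
        _ ≤ (M : ℝ) / 4 + 1 := by linarith only [ha, h1]
        _ ≤ _ := Real.add_one_le_exp _
    have e6 : 7 / Real.sqrt t ≤ 14 / Real.sqrt (1 + t) := by
      have hst : 0 < Real.sqrt t := Real.sqrt_pos.2 (by linarith only [h1])
      rw [div_le_div_iff₀ hst hs]
      have h5 : Real.sqrt (1 + t) ≤ 2 * Real.sqrt t := by
        have h6 : Real.sqrt (1 + t) ≤ Real.sqrt (2 ^ 2 * t) := Real.sqrt_le_sqrt (by linarith only [h1])
        rw [Real.sqrt_mul (by norm_num), Real.sqrt_sq (by norm_num)] at h6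
        exact h6
      linarith only [h5]
    have e7 : (22 : ℝ) * (1 / Real.sqrt (1 + t)) = 14 / Real.sqrt (1 + t) +
        8 * (1 / Real.sqrt (1 + t)) := by ring
    rw [e7]
    linarith
  · refine (jc_one M a).trans ?_
    rw [mul_one_div, le_div_iff₀ hs, one_mul]
    have h2 : Real.sqrt (1 + t) ≤ Real.sqrt (2 ^ 2) := Real.sqrt_le_sqrt (by linarith only [h1])
    rw [Real.sqrt_sq (by norm_num)] at h2
    linarith only [h2]

end Pool.Agent.LE.QF.H32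
end
end -- Pool.Agent.Helper32_LQF.JCB

section -- Pool.Agent.Helper45_LQD.BES

/-!
# Row BES (squad LQD): the kernel `jb t n` is `O(t ^ (-1/3))`
-/

set_option autoImplicit false

open MeasureTheory Set Complex

noncomputable section

namespace Pool.Agent.LE.QD.H45

open Pool.Agent.LE.H28V

theorem cos_low {r φ : ℝ} (hr : 0 ≤ r) (hr1 : r ≤ 1) (hφ : |φ| ≤ Real.pi / 2 - r) :
    r / 2 ≤ Real.cos φ := by
  have hpi := Real.pi_pos
  have hpi3 := Real.pi_gt_three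
  have hpi4 : Real.pi ≤ 4 := Real.pi_le_four
  have h1 : Real.cos (Real.pi / 2 - r) ≤ Real.cos |φ| :=
    Real.cos_le_cos_of_nonneg_of_le_pi (abs_nonneg _) (by linarith only [hr, hpi3]) hφ
  rw [Real.cos_abs, Real.cos_pi_div_two_sub] at h1
  have h2 : 2 / Real.pi * r ≤ Real.sin r := Real.mul_le_sin hr (by linarith only [hr1, hpi3])
  have h3 : (1 : ℝ) / 2 ≤ 2 / Real.pi := by
    rw [div_le_div_iff₀ (by norm_num) hpi]
    linarith only [hpi4]
  have h4 : 1 / 2 * r ≤ 2 / Real.pi * r := mul_le_mul_of_nonneg_right h3 hr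
  linarith only [h1, h2, h4]

theorem bes_pos {t : ℝ} (n : ℤ) (ht : 1 ≤ t) : ‖jb t n‖ ≤ 28 * t ^ (-(1 / 3 : ℝ)) := by
  have hpi := Real.pi_pos
  have hpi3 := Real.pi_gt_three
  have ht0 : 0 < t := by linarith
  set r : ℝ := t ^ (-(1 / 3 : ℝ)) with hr
  have hr0 : 0 < r := Real.rpow_pos_of_pos ht0 _
  have hr1 : r ≤ 1 := Real.rpow_le_one_of_one_le_of_nonpos ht (by norm_num)
  -- the quantity `t r`
  have htr : t * r = (t ^ (1 / 3 : ℝ)) ^ 2 := by
    rw [hr, ← Real.rpow_natCast, ← Real.rpow_mul ht0.le]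
    nth_rewrite 1 [← Real.rpow_one t]
    rw [← Real.rpow_add ht0]
    norm_num
  have hp3 : 0 < t ^ (1 / 3 : ℝ) := Real.rpow_pos_of_pos ht0 _
  have hsq : 8 / Real.sqrt (t * r) = 8 * r := by
    rw [htr, Real.sqrt_sq hp3.le, hr, Real.rpow_neg ht0.le]
    rfl
  have hmu : 0 < t * r := mul_pos ht0 hr0
  set F : ℝ → ℝ := fun θ => n * θ + 2 * t * Real.cos θ with hF
  set F1 : ℝ → ℝ := fun θ => n - 2 * t * Real.sin θ with hF1
  set F2 : ℝ → ℝ := fun θ => -(2 * t * Real.cos θ) with hF2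
  have dF : ∀ x, HasDerivAt F (F1 x) x := by
    intro x
    have h1 := ((hasDerivAt_id x).const_mul (n : ℝ)).add ((Real.hasDerivAt_cos x).const_mul (2 * t))
    refine h1.congr_deriv ?_
    simp only [hF1]
    ring
  have dF1 : ∀ x, HasDerivAt F1 (F2 x) x := by
    intro x
    have h1 := ((Real.hasDerivAt_sin x).const_mul (2 * t)).const_sub (n : ℝ)
    exact h1
  have cF : Continuous F := continuous_iff_continuousAt.2 fun x => (dF x).continuousAt
  have cF2 : Continuous F2 := by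
    simp only [hF2]
    fun_prop
  have hcos : ∀ x, Real.cos x ≤ Real.cos x := fun _ => le_rfl
  -- the good intervals
  have hlow : ∀ x φ : ℝ, |φ| ≤ Real.pi / 2 - r → Real.cos x = Real.cos φ → F2 x ≤ -(t * r) := by
    intro x φ hφ hx
    have h1 := cos_low hr0.le hr1 hφ
    have h2 : t * (r / 2) ≤ t * Real.cos φ := mul_le_mul_of_nonneg_left h1 ht0.le
    simp only [hF2]
    rw [hx]
    linarith only [h2]
  have hhigh : ∀ x φ : ℝ, |φ| ≤ Real.pi / 2 - r → Real.cos x = -Real.cos φ → t * r ≤ F2 x := by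
    intro x φ hφ hx
    have h1 := cos_low hr0.le hr1 hφ
    have h2 : t * (r / 2) ≤ t * Real.cos φ := mul_le_mul_of_nonneg_left h1 ht0.le
    simp only [hF2]
    rw [hx]
    linarith only [h2]
  have I1 : ‖∫ x in (0 : ℝ)..(Real.pi / 2 - r), cexp (I * F x)‖ ≤ 8 * r := by
    rw [← hsq]
    refine vdc2n (by linarith only [hpi3, hr1]) (fun x _ => dF x) (fun x _ => dF1 x) cF2.continuousOn hmu ?_
    intro x hx
    exact hlow x x (by rw [abs_of_nonneg hx.1]; exact hx.2) rfl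
  have I3 : ‖∫ x in (Real.pi / 2 + r)..(3 * Real.pi / 2 - r), cexp (I * F x)‖ ≤ 8 * r := by
    rw [← hsq]
    refine vdc2 (by linarith only [hpi3, hr1]) (fun x _ => dF x) (fun x _ => dF1 x) cF2.continuousOn hmu ?_
    intro x hx
    refine hhigh x (x - Real.pi) ?_ ?_
    · rw [abs_le]
      constructor <;> linarith only [hx.1, hx.2]
    · rw [Real.cos_sub_pi, neg_neg]
  have I5 : ‖∫ x in (3 * Real.pi / 2 + r)..(2 * Real.pi), cexp (I * F x)‖ ≤ 8 * r := by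
    rw [← hsq]
    refine vdc2n (by linarith only [hpi3, hr1]) (fun x _ => dF x) (fun x _ => dF1 x) cF2.continuousOn hmu ?_
    intro x hx
    refine hlow x (x - 2 * Real.pi) ?_ ?_
    · rw [abs_le]
      constructor <;> linarith [hx.1, hx.2]
    · rw [Real.cos_sub_two_pi]
  have I2 : ‖∫ x in (Real.pi / 2 - r)..(Real.pi / 2 + r), cexp (I * F x)‖ ≤ 2 * r :=
    (norm_int_le (by linarith only [hr0])).trans (by linarith only)
  have I4 : ‖∫ x in (3 * Real.pi / 2 - r)..(3 * Real.pi / 2 + r), cexp (I * F x)‖ ≤ 2 * r :=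
    (norm_int_le (by linarith only [hr0])).trans (by linarith only)
  have hint : ∀ a b : ℝ, IntervalIntegrable (fun x => cexp (I * F x)) volume a b := by
    intro a b
    apply Continuous.intervalIntegrable
    exact Complex.continuous_exp.comp
      (continuous_const.mul (Complex.continuous_ofReal.comp cF))
  have hsum : ∫ x in (0 : ℝ)..(2 * Real.pi), cexp (I * F x)
      = (∫ x in (0 : ℝ)..(Real.pi / 2 - r), cexp (I * F x))
      + (∫ x in (Real.pi / 2 - r)..(Real.pi / 2 + r), cexp (I * F x))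
      + (∫ x in (Real.pi / 2 + r)..(3 * Real.pi / 2 - r), cexp (I * F x))
      + (∫ x in (3 * Real.pi / 2 - r)..(3 * Real.pi / 2 + r), cexp (I * F x))
      + ∫ x in (3 * Real.pi / 2 + r)..(2 * Real.pi), cexp (I * F x) := by
    rw [intervalIntegral.integral_add_adjacent_intervals (hint _ _) (hint _ _),
      intervalIntegral.integral_add_adjacent_intervals (hint _ _) (hint _ _),
      intervalIntegral.integral_add_adjacent_intervals (hint _ _) (hint _ _),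
      intervalIntegral.integral_add_adjacent_intervals (hint _ _) (hint _ _)]
  have htot : ‖∫ x in (0 : ℝ)..(2 * Real.pi), cexp (I * F x)‖ ≤ 28 * r := by
    rw [hsum]
    refine (norm_add_le _ _).trans ?_
    have h1 := norm_add_le ((∫ x in (0 : ℝ)..(Real.pi / 2 - r), cexp (I * F x))
      + (∫ x in (Real.pi / 2 - r)..(Real.pi / 2 + r), cexp (I * F x))
      + (∫ x in (Real.pi / 2 + r)..(3 * Real.pi / 2 - r), cexp (I * F x)))
      (∫ x in (3 * Real.pi / 2 - r)..(3 * Real.pi / 2 + r), cexp (I * F x))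
    have h2 := norm_add_le ((∫ x in (0 : ℝ)..(Real.pi / 2 - r), cexp (I * F x))
      + (∫ x in (Real.pi / 2 - r)..(Real.pi / 2 + r), cexp (I * F x)))
      (∫ x in (Real.pi / 2 + r)..(3 * Real.pi / 2 - r), cexp (I * F x))
    have h3 := norm_add_le (∫ x in (0 : ℝ)..(Real.pi / 2 - r), cexp (I * F x))
      (∫ x in (Real.pi / 2 - r)..(Real.pi / 2 + r), cexp (I * F x))
    linarith only [I1, I3, I5, I2, I4, h1, h2, h3]
  have hj : jb t n = (∫ x in (0 : ℝ)..(2 * Real.pi), cexp (I * F x)) / ((2 * Real.pi : ℝ) : ℂ) := rfl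
  rw [hj, norm_div, Complex.norm_real, Real.norm_eq_abs, abs_of_pos (by positivity : 0 < 2 * Real.pi),
    div_le_iff₀ (by positivity)]
  refine htot.trans ?_
  nlinarith only [ht, hpi, hpi3, hr0, htr]

theorem jb_conj (t : ℝ) (n : ℤ) : (starRingEnd ℂ) (jb t n) = jb (-t) (-n) := by
  unfold jb
  rw [map_div₀, Complex.conj_ofReal, ← intervalIntegral.intervalIntegral_conj]
  congr 1
  apply intervalIntegral.integral_congr
  intro θ _
  simp only []
  rw [← Complex.exp_conj, map_mul, conj_I, conj_ofReal]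
  congr 1
  push_cast
  ring

theorem bes : BesStmt := by
  refine ⟨28, by norm_num, fun t n ht => ?_⟩
  rcases le_total 0 t with h0 | h0
  · rw [abs_of_nonneg h0] at ht ⊢
    exact bes_pos n ht
  · rw [abs_of_nonpos h0] at ht ⊢
    rw [← Complex.norm_conj, jb_conj]
    exact bes_pos (-n) ht

end Pool.Agent.LE.QD.H45
end
end -- Pool.Agent.Helper45_LQD.BES

section -- Pool.Agent.Helper77_ANI.SMT

/-!
# Anderson (2b), block I0, row SMT (helper77): the kernel for small times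
-/

set_option autoImplicit false

noncomputable section

namespace Pool.Agent.ANI.H77

open Complex Finset
open Pool.Agent.LE.QD Pool.Agent.LE.QD.H89

theorem ps_eq (t : ℝ) (N : ℕ) (θ : ℝ) :
    ps t N θ = ∑ m ∈ range N, (I * ((2 * t * Real.cos θ : ℝ) : ℂ)) ^ m / (m.factorial : ℂ) := by
  unfold ps
  refine sum_congr rfl fun m _ => ?_
  rw [← cos_pow]
  rw [show I * ((2 * t * Real.cos θ : ℝ) : ℂ) = I * (t : ℂ) * ((2 * Real.cos θ : ℝ) : ℂ) by
    push_cast; ring, mul_pow]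
  ring

theorem tail (t : ℝ) (k : ℕ) (ht : 12 * |t| ≤ k) (θ : ℝ) :
    ‖exp (I * ((2 * t * Real.cos θ : ℝ) : ℂ)) - ps t k θ‖ ≤ 2 * (1 / 2) ^ k := by
  rw [ps_eq]
  generalize hx : I * ((2 * t * Real.cos θ : ℝ) : ℂ) = x
  have hxn : ‖x‖ ≤ k / 6 := by
    rw [← hx, norm_mul, norm_I, one_mul, norm_real, Real.norm_eq_abs, abs_mul, abs_mul,
      abs_of_pos (show (0 : ℝ) < 2 by norm_num)]
    have h1 := Real.abs_cos_le_one θ
    have h2 : |t| * |Real.cos θ| ≤ |t| * 1 := mul_le_mul_of_nonneg_left h1 (abs_nonneg t)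
    nlinarith
  have h3 : ‖x‖ / k.succ ≤ 1 / 2 := by
    rw [div_le_iff₀ (by positivity)]
    push_cast
    have : (0 : ℝ) ≤ k := Nat.cast_nonneg k
    linarith
  refine (exp_bound' h3).trans ?_
  rw [mul_comm]
  refine mul_le_mul_of_nonneg_left ?_ (by norm_num)
  have h4 : ‖x‖ ^ k / (k.factorial : ℝ) ≤ (k / 6 : ℝ) ^ k / (k.factorial : ℝ) :=
    div_le_div_of_nonneg_right (pow_le_pow_left₀ (norm_nonneg _) hxn k) (by positivity)
  refine h4.trans ?_
  have h5 : (k : ℝ) ^ k / (k.factorial : ℝ) ≤ Real.exp k :=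
    Real.pow_div_factorial_le_exp (k : ℝ) (by positivity) k
  have h6 : Real.exp k ≤ 3 ^ k := by
    rw [show (k : ℝ) = k * 1 by ring, Real.exp_nat_mul]
    refine pow_le_pow_left₀ (Real.exp_pos 1).le ?_ k
    have := Real.exp_one_lt_d9
    linarith
  calc (k / 6 : ℝ) ^ k / (k.factorial : ℝ) = (1 / 6) ^ k * ((k : ℝ) ^ k / (k.factorial : ℝ)) := by
        rw [div_pow, one_div, inv_pow]
        ring
    _ ≤ (1 / 6) ^ k * 3 ^ k :=
        mul_le_mul_of_nonneg_left (h5.trans h6) (by positivity)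
    _ = (1 / 2) ^ k := by
        rw [← mul_pow]
        norm_num

theorem coef (M : ℕ) [NeZero M] (n : ZMod M) (m j : ℕ) (hm : m < n.valMinAbs.natAbs)
    (hj : j ≤ m) : n + ((2 * (j : ℤ) - m : ℤ) : ZMod M) ≠ 0 := by
  intro h
  have h1 : ((n.valMinAbs + (2 * (j : ℤ) - m) : ℤ) : ZMod M) = 0 := by
    rw [Int.cast_add, ZMod.coe_valMinAbs]
    exact h
  rw [ZMod.intCast_zmod_eq_zero_iff_dvd] at h1
  have h2 : n.valMinAbs.natAbs ≤ M / 2 := ZMod.natAbs_valMinAbs_le n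
  have h3 : n.valMinAbs + (2 * (j : ℤ) - m) = 0 := by
    apply Int.eq_zero_of_abs_lt_dvd h1
    rw [abs_lt]
    omega
  omega

/-- SMT -/
theorem smt : SmtStmt := by
  intro M _ t n ht
  generalize hk : n.valMinAbs.natAbs = k at ht
  have hM : (0 : ℝ) < M := Nat.cast_pos.2 (NeZero.pos M)
  have h0 : (∑ p : ZMod M, ZMod.stdAddChar (p * n) * ps t k (an M p)) / (M : ℂ) = 0 := by
    rw [psd]
    refine sum_eq_zero fun m hm => ?_
    rw [sum_eq_zero, mul_zero]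
    intro j hj
    rw [if_neg, mul_zero]
    refine coef M n m j ?_ ?_
    · rw [hk]
      exact mem_range.1 hm
    · have := mem_range.1 hj
      omega
  have h1 : jt M t n = (∑ p : ZMod M, ZMod.stdAddChar (p * n) *
      (exp (I * ((2 * t * Real.cos (an M p) : ℝ) : ℂ)) - ps t k (an M p))) / (M : ℂ) := by
    have h2 : jt M t n = (∑ p : ZMod M, ZMod.stdAddChar (p * n) *
      exp (I * ((2 * t * Real.cos (an M p) : ℝ) : ℂ))) / (M : ℂ) := rfl
    rw [h2, ← sub_zero (_ / _), ← h0, ← sub_div, ← sum_sub_distrib]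
    refine congrArg (· / (M : ℂ)) (sum_congr rfl fun p _ => ?_)
    rw [mul_sub]
  rw [h1, norm_div, norm_natCast, div_le_iff₀ hM]
  refine (norm_sum_le _ _).trans ?_
  refine (sum_le_card_nsmul _ _ (2 * (1 / 2) ^ k) fun p _ => ?_).trans ?_
  · rw [norm_mul, AddChar.norm_apply, one_mul]
    exact tail t k ht (an M p)
  · rw [card_univ, ZMod.card, nsmul_eq_mul, mul_comm]

end Pool.Agent.ANI.H77
end
end -- Pool.Agent.Helper77_ANI.SMT

section -- Pool.Agent.Helper56_LQX.UPA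

/-!
# Squad LQX, row UPA: the parts of `φ` and `Xh` (adapted from `Helper91_LQF/UPA.lean`)
-/

set_option autoImplicit false

open MeasureTheory ProbabilityTheory Function Filter

open scoped ENNReal BigOperators Topology NNReal ComplexOrder Matrix

noncomputable section

namespace Pool.Agent.LE.QX.H56

open Pool.Agent.Anderson hiding box mem_box card_box
open Pool.Agent.Loc Pool.Agent.Mob Pool.Agent.Helper54.Bal
  Pool.Agent.Helper96.EXP Pool.Agent.BED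
open Pool.Agent.LE.MN Pool.Agent.LE.CL Pool.Agent.LE.IR Pool.Agent.LE.QD Pool.Agent.LE.QF

section scale

variable {X : Type} [Fintype X] [DecidableEq X]

omit [DecidableEq X] in
theorem qq_smul (G Θ : Matrix X X ℂ) (τ : ℝ) (φ : X → ℂ) (c : ℂ) [DecidableEq X] :
    QQ G (c • Θ) τ φ = c • QQ G Θ τ φ := by
  unfold QF.QQ
  rw [Matrix.smul_mul, smul_neg]

theorem lph_smul (G Θ : Matrix X X ℂ) (τ : ℝ) (φ μ : X → ℂ) (c : ℂ) (a : X) :
    lph G (c • Θ) τ φ μ a = c * (τ * (Θ *ᵥ (EB G μ *ᵥ φ)) a) +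
      c ^ 2 * ∑ c', (Θ *ᵥ (((τ : ℂ) • dB G c') *ᵥ fun y => QQ G Θ τ φ y c')) a := by
  unfold lph
  rw [qq_smul, Matrix.smul_mulVec, Finset.mul_sum]
  congr 1
  · rw [Pi.smul_apply, smul_eq_mul]
    ring
  · refine Finset.sum_congr rfl fun c' _ => ?_
    have e : (fun y => (c • QQ G Θ τ φ) y c') = c • fun y => QQ G Θ τ φ y c' := by
      funext y
      rfl
    rw [e, Matrix.smul_mulVec, Matrix.mulVec_smul, Matrix.mulVec_smul, Pi.smul_apply,
      Pi.smul_apply, smul_eq_mul, smul_eq_mul]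
    ring

/-- `PhbStmt` with a larger bound for the rows of `Θ` -/
theorem phb_h {C₀ P : ℝ} (hC₀ : 1 ≤ C₀)
    (phb : ∀ (X : Type) [Fintype X] [DecidableEq X]
      (G Θ : Matrix X X ℂ) (μ φ : X → ℂ) (𝒩 : X → Finset X) (κ τ δ N Λ : ℝ),
      GdM G μ 𝒩 κ τ δ N C₀ → (∀ a, ∑ b, ‖Θ a b‖ ≤ C₀) → (∀ a, ‖φ a‖ ≤ δ) →
      (∀ a, ∑ b, KK G a b ^ 2 ≤ Λ) → δ ^ 2 * N + δ ^ 4 / κ ≤ Λ →
        (∀ a, ∑ c, ‖QQ G Θ τ φ a c‖ ^ 2 ≤ P * Λ) ∧
        ∀ a, ‖lph G Θ τ φ μ a‖ ≤ P * (δ ^ 2 / κ + Real.sqrt (Λ / κ)))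
    (G Θ : Matrix X X ℂ) (μ φ : X → ℂ) (𝒩 : X → Finset X) (κ τ δ N Λ h : ℝ)
    (hG : GdM G μ 𝒩 κ τ δ N C₀) (hh : 1 ≤ h) (hT : ∀ a, ∑ b, ‖Θ a b‖ ≤ h)
    (hφ : ∀ a, ‖φ a‖ ≤ δ) (hL : ∀ a, ∑ b, KK G a b ^ 2 ≤ Λ)
    (hΛ : δ ^ 2 * N + δ ^ 4 / κ ≤ Λ) :
    (∀ a, ∑ c, ‖QQ G Θ τ φ a c‖ ^ 2 ≤ h ^ 2 * (P * Λ)) ∧
      ∀ a, ‖lph G Θ τ φ μ a‖ ≤ 2 * h ^ 2 * (P * (δ ^ 2 / κ + Real.sqrt (Λ / κ))) := by
  have h0 : 0 < h := by linarith only [hh]
  have hc0 : ((h : ℝ) : ℂ) ≠ 0 := by exact_mod_cast h0.ne'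
  obtain ⟨Θ', hΘ'⟩ : ∃ Θ' : Matrix X X ℂ, Θ' = ((h : ℝ) : ℂ)⁻¹ • Θ := ⟨_, rfl⟩
  have hΘ : Θ = ((h : ℝ) : ℂ) • Θ' := by
    rw [hΘ', smul_smul, mul_inv_cancel₀ hc0, one_smul]
  have hrow : ∀ a, ∑ b, ‖Θ' a b‖ ≤ C₀ := fun a => by
    have e : ∀ b, ‖Θ' a b‖ = h⁻¹ * ‖Θ a b‖ := fun b => by
      rw [hΘ', Matrix.smul_apply, norm_smul, norm_inv, Complex.norm_real,
        Real.norm_of_nonneg h0.le]
    simp only [e]
    rw [← Finset.mul_sum]
    have h1 : h⁻¹ * ∑ b, ‖Θ a b‖ ≤ h⁻¹ * h := mul_le_mul_of_nonneg_left (hT a) (by positivity)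
    rw [inv_mul_cancel₀ h0.ne'] at h1
    linarith only [hC₀, h1]
  have hrow2 : ∀ a, ∑ b, ‖((-1 : ℂ) • Θ') a b‖ ≤ C₀ := fun a => by
    have e : ∀ b, ‖((-1 : ℂ) • Θ') a b‖ = ‖Θ' a b‖ := fun b => by
      rw [Matrix.smul_apply, norm_smul, norm_neg, norm_one, one_mul]
    simp only [e]
    exact hrow a
  obtain ⟨q1, l1⟩ := phb X G Θ' μ φ 𝒩 κ τ δ N Λ hG hrow hφ hL hΛ
  obtain ⟨-, l2⟩ := phb X G ((-1 : ℂ) • Θ') μ φ 𝒩 κ τ δ N Λ hG hrow2 hφ hL hΛ
  constructor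
  · intro a
    have e : ∀ c, ‖QQ G Θ τ φ a c‖ ^ 2 = h ^ 2 * ‖QQ G Θ' τ φ a c‖ ^ 2 := fun c => by
      rw [hΘ, qq_smul, Matrix.smul_apply, norm_smul, Complex.norm_real,
        Real.norm_of_nonneg h0.le, mul_pow]
    simp only [e]
    rw [← Finset.mul_sum]
    exact mul_le_mul_of_nonneg_left (q1 a) (by positivity)
  · intro a
    obtain ⟨A, hA⟩ : ∃ A : ℂ, A = τ * (Θ' *ᵥ (EB G μ *ᵥ φ)) a := ⟨_, rfl⟩
    obtain ⟨B, hB⟩ : ∃ B : ℂ, B = ∑ c', (Θ' *ᵥ (((τ : ℂ) • dB G c') *ᵥ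
      fun y => QQ G Θ' τ φ y c')) a := ⟨_, rfl⟩
    obtain ⟨b, hb⟩ : ∃ b : ℝ, b = P * (δ ^ 2 / κ + Real.sqrt (Λ / κ)) := ⟨_, rfl⟩
    have e1 : lph G Θ' τ φ μ a = A + B := by
      have := lph_smul G Θ' τ φ μ 1 a
      rw [one_smul, one_mul, one_pow, one_mul, ← hA, ← hB] at this
      exact this
    have e2 : lph G ((-1 : ℂ) • Θ') τ φ μ a = -A + B := by
      rw [lph_smul, ← hA, ← hB]
      ring
    have e3 : lph G Θ τ φ μ a = h * A + h ^ 2 * B := by
      rw [hΘ, lph_smul, ← hA, ← hB]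
    have n1 := l1 a
    have n2' := l2 a
    rw [← hb] at n1 n2'
    rw [e1] at n1
    rw [e2] at n2'
    have hA1 : ‖A‖ ≤ b := by
      have e : A = (1 / 2 : ℂ) * ((A + B) - (-A + B)) := by ring
      have h3 : ‖A‖ ≤ 1 / 2 * (‖A + B‖ + ‖-A + B‖) := by
        rw [e, norm_mul]
        have e4 : ‖(1 / 2 : ℂ)‖ = 1 / 2 := by norm_num
        rw [e4]
        have e5 := norm_sub_le (A + B) (-A + B)
        have e6 : (1 / 2 : ℂ) * ((A + B) - (-A + B)) = A := by ring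
        simp only [e6]
        linarith only [e5]
      linarith only [n1, n2', h3]
    have hB1 : ‖B‖ ≤ b := by
      have h3 : ‖B‖ ≤ 1 / 2 * (‖A + B‖ + ‖-A + B‖) := by
        have e5 := norm_add_le (A + B) (-A + B)
        have e6 : (A + B) + (-A + B) = 2 * B := by ring
        rw [e6, norm_mul, Complex.norm_two] at e5
        linarith only [e5]
      linarith only [n1, n2', h3]
    have hb0 : 0 ≤ b := (norm_nonneg _).trans hA1
    rw [e3, ← hb]
    have h4 : ‖(h : ℂ) * A + (h : ℂ) ^ 2 * B‖ ≤ h * ‖A‖ + h ^ 2 * ‖B‖ := by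
      refine (norm_add_le _ _).trans ?_
      rw [norm_mul, norm_mul, norm_pow, Complex.norm_real, Real.norm_of_nonneg h0.le]
    have h5 : h * ‖A‖ ≤ h ^ 2 * b := by
      have h6 : h * ‖A‖ ≤ h * b := mul_le_mul_of_nonneg_left hA1 h0.le
      have h7 : h * b ≤ h ^ 2 * b := by
        apply mul_le_mul_of_nonneg_right _ hb0
        nlinarith only [hh]
      linarith only [h6, h7]
    have h6 : h ^ 2 * ‖B‖ ≤ h ^ 2 * b := mul_le_mul_of_nonneg_left hB1 (by positivity)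
    linarith only [h4, h5, h6]

end scale

variable {d M : ℕ} [NeZero M]

theorem cardT : (Fintype.card (Tor d M) : ℝ) = (M : ℝ) ^ d := by
  have h : Fintype.card (Tor d M) = M ^ d := by
    simp [Tor, ZMod.card]
  rw [h]
  push_cast
  rfl

/-- the constants at a point of the flow -/
theorem ls_bd (D : Dat d M) {c₁ C₁ c₀ κ t : ℝ} (hA : Adm D c₁ C₁ c₀)
    (hκ : κ = D.kp t) (h1 : D.η ≤ κ) (h2 : κ ≤ D.w) (hδ : D.δ ≤ 1) :
    κ * D.Ls t ≤ D.ch ∧ D.δ ^ 2 * D.N + D.δ ^ 4 / κ ≤ D.Ls t := by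
  have hη : 0 < D.η := hA.hT.2.1
  have hκ0 : 0 < κ := hη.trans_le h1
  obtain ⟨-, -, hL, hN, hπ⟩ := hA.hj
  have hδ0 := hA.hδ.1
  have hLs : D.Ls t = D.L₀ * (D.N + D.π₀ / κ + D.δ ^ 4 / κ) := by
    rw [hκ]
    rfl
  constructor
  · have e1 : κ * D.Ls t = D.L₀ * (D.N * κ + D.π₀ + D.δ ^ 4) := by
      rw [hLs]
      field_simp
    rw [e1]
    unfold Dat.ch
    apply mul_le_mul_of_nonneg_left _ (by linarith only [hL])
    have := mul_le_mul_of_nonneg_left h2 (by linarith only [hN] : (0 : ℝ) ≤ D.N)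
    linarith only [this]
  · rw [hLs]
    have e2 : D.δ ^ 2 * D.N ≤ D.N := by
      have : D.δ ^ 2 ≤ 1 := pow_le_one₀ hδ0.le hδ
      nlinarith only [hN, this]
    have e3 : 0 ≤ D.π₀ / κ := by positivity
    have e4 : 0 ≤ D.δ ^ 4 / κ := by positivity
    have e5 : D.N + D.π₀ / κ + D.δ ^ 4 / κ ≤ D.L₀ * (D.N + D.π₀ / κ + D.δ ^ 4 / κ) :=
      le_mul_of_one_le_left (by linarith) hL
    linarith only [e2, e3, e5]

/-- the rate -/
theorem rate (D : Dat d M) {c₁ C₁ c₀ κ t Λ K ℓ γ : ℝ} (hA : Adm D c₁ C₁ c₀)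
    (hκ : κ = D.kp t) (h1 : D.η ≤ κ) (h2 : κ ≤ D.w) (hΛ : κ * Λ ≤ D.ch) (hΛ0 : 0 ≤ Λ)
    (hK : 0 ≤ K) (hℓ : ℓ ≤ K * (D.h ^ 2 * (D.δ ^ 2 / κ + Real.sqrt (Λ / κ)))) (hγ : γ ≤ K * (D.h ^ 4 * Λ)) :
    4 * D.j * ℓ / D.δ + 8 * D.j ^ 2 * γ / D.δ ^ 2 ≤ 8 * K * D.aN / κ := by
  have hη : 0 < D.η := hA.hT.2.1
  have hκ0 : 0 < κ := hη.trans_le h1
  obtain ⟨-, -, hL, hN, hπ⟩ := hA.hj
  obtain ⟨hδ0, hδε, -⟩ := hA.hδ
  have hε : 0 < D.ε₁ := hδ0.trans_le hδε
  have hw : 0 < D.w := hκ0.trans_le h2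
  have he : 0 < D.e₀ - 1 := by linarith only [hA.he.1, hA.he.2.1]
  have hch : 0 ≤ D.ch := (mul_nonneg hκ0.le hΛ0).trans hΛ
  have hj : (0 : ℝ) ≤ D.j := Nat.cast_nonneg _
  have hh : 0 ≤ D.h := by
    unfold Dat.h
    positivity
  have hs : Real.sqrt (Λ / κ) ≤ Real.sqrt D.ch / κ := by
    have e : Real.sqrt D.ch / κ = Real.sqrt (D.ch / κ ^ 2) := by
      rw [Real.sqrt_div hch, Real.sqrt_sq hκ0.le]
    rw [e]
    apply Real.sqrt_le_sqrt
    rw [div_le_div_iff₀ hκ0 (by positivity)]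
    nlinarith only [h1, hΛ, hη]
  have hΛ' : Λ ≤ D.ch / κ := by
    rw [le_div_iff₀ hκ0]
    linarith only [hΛ]
  have e1 : 4 * D.j * ℓ / D.δ ≤ 4 * K * (D.j * (D.h ^ 2 * (D.δ + Real.sqrt D.ch / D.δ))) / κ := by
    have e2 : ℓ ≤ K * (D.h ^ 2 * (D.δ ^ 2 / κ + Real.sqrt D.ch / κ)) :=
      hℓ.trans (mul_le_mul_of_nonneg_left
        (mul_le_mul_of_nonneg_left (by linarith only [hs]) (by positivity)) hK)
    have e3 : 4 * D.j * ℓ / D.δ ≤
        4 * D.j * (K * (D.h ^ 2 * (D.δ ^ 2 / κ + Real.sqrt D.ch / κ))) / D.δ := by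
      gcongr
    refine e3.trans (le_of_eq ?_)
    field_simp
  have e4 : 8 * D.j ^ 2 * γ / D.δ ^ 2 ≤ 8 * K * (D.j ^ 2 * (D.h ^ 4 * (D.ch / D.δ ^ 2))) / κ := by
    have e2 : γ ≤ K * (D.h ^ 4 * (D.ch / κ)) := hγ.trans (mul_le_mul_of_nonneg_left
      (mul_le_mul_of_nonneg_left hΛ' (by positivity)) hK)
    have e3 : 8 * D.j ^ 2 * γ / D.δ ^ 2 ≤ 8 * D.j ^ 2 * (K * (D.h ^ 4 * (D.ch / κ))) / D.δ ^ 2 := by
      gcongr
    refine e3.trans (le_of_eq ?_)
    field_simp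
  have e5 : D.j * (D.h ^ 2 * (D.δ + Real.sqrt D.ch / D.δ)) +
      D.j ^ 2 * (D.h ^ 4 * (D.ch / D.δ ^ 2)) ≤ D.aN := by
    unfold Dat.aN
    have a1 : 0 ≤ D.j * (D.δ / D.ε₁) := by positivity
    have a2 : 0 ≤ (D.N * D.w + D.δ ^ 2) / D.ε₁ ^ 2 := by positivity
    have a3 : 0 ≤ 1 / Real.sqrt D.L₀ := by positivity
    have a4 : 0 ≤ (D.j : ℝ) ^ 2 * ((D.N * D.w + D.δ ^ 2) / D.ε₁ ^ 2 + 1 / Real.sqrt D.L₀ + D.ε₁ +
      (D.e₀ - 1)) := by positivity
    have a5 : 0 ≤ D.p * D.δ + D.p ^ 2 * (D.N * D.w + D.δ ^ 2 + D.π₀) := by positivity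
    nlinarith only [a1, a4, a5]
  have e6 : 0 ≤ D.j * (D.h ^ 2 * (D.δ + Real.sqrt D.ch / D.δ)) := by positivity
  have e7 : 0 ≤ (D.j : ℝ) ^ 2 * (D.h ^ 4 * (D.ch / D.δ ^ 2)) := by positivity
  have e8 : 4 * K * (D.j * (D.h ^ 2 * (D.δ + Real.sqrt D.ch / D.δ))) / κ +
      8 * K * (D.j ^ 2 * (D.h ^ 4 * (D.ch / D.δ ^ 2))) / κ ≤ 8 * K * D.aN / κ := by
    rw [← add_div]
    gcongr
    nlinarith only [mul_nonneg hK e6, mul_nonneg hK e7, mul_le_mul_of_nonneg_left e5 hK]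
  linarith only [e1, e4, e8]

/-- UPA -/
theorem upa (jtp : JtpStmt) (jtx : JtxStmt) (phb : PhbStmt) (xhb : XhbStmt) (pwu : PwuStmt)
    (rsj : RsjStmt) : UpaStmt := by
  intro c₁ C₁ C₀ hc₁ hC₁ hC₀
  obtain ⟨P, hP, phb⟩ := phb C₀ hC₀
  obtain ⟨Q, hQ, xhb⟩ := xhb C₀ hC₀
  have hP2 : (1 : ℝ) ≤ P ^ 2 := one_le_pow₀ hP
  have hPQ : (1 : ℝ) ≤ Q * P ^ 2 := one_le_mul_of_one_le_of_one_le hQ hP2
  refine ⟨8 * (16 * Q * P ^ 2), by linarith only [hPQ], ?_⟩
  intro d M _ D c₀ κ τ q hA hq0 hqT hg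
  obtain ⟨hκe, hτe, h1, h2, hτ0, hτ1, hτ2⟩ := hg.hκ
  have hη : 0 < D.η := hA.hT.2.1
  have hκ0 : 0 < κ := hη.trans_le h1
  have hδ0 : 0 < D.δ := hA.hδ.1
  have hδ1 : D.δ ≤ 1 := by
    have h3 := hg.hG.hδ.2.1
    nlinarith only [hC₀, hδ0, h3]
  obtain ⟨hΛ, hΛ2⟩ := ls_bd D hA hκe h1 h2 hδ1
  obtain ⟨Λ, hΛe⟩ : ∃ Λ, Λ = D.Ls q.1 := ⟨_, rfl⟩
  rw [← hΛe] at hΛ hΛ2
  have hN : 0 ≤ D.N := by linarith only [hA.hj.2.2.2.1]
  have hΛ0 : 0 ≤ Λ := le_trans (by positivity) hΛ2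
  have hr := rsj d M D c₁ C₁ c₀ q hc₁ hA (hκe ▸ hκ0)
  have hJ := hr.1
  rw [← hτe] at hJ
  have hY : D.Y q = (τ : ℂ) • BB (D.G q) := by
    rw [hτe]
    rfl
  -- the jets
  have j1 := jtp (Tor d M) q D.G D.ta (D.G q) (D.Th q) D.m τ (D.mu q) hJ rfl
    (hY ▸ hg.hu) (by unfold Dat.Th; rw [hY])
  have hL : ∀ a, ∑ b, KK (D.G q) a b ^ 2 ≤ Λ := fun a => hΛe ▸ hg.hL a
  have hh1 : 1 ≤ D.h := by
    unfold Dat.h
    have : (0 : ℝ) ≤ D.k := Nat.cast_nonneg _
    linarith only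
  obtain ⟨b1, b2⟩ := phb_h hC₀ phb (D.G q) (D.Th q) (D.mu q) (D.ph q) D.nr κ τ D.δ D.N Λ D.h
    hg.hG hh1 hg.hT hg.hφ hL hΛ2
  have hh2 : 1 ≤ D.h ^ 2 := one_le_pow₀ hh1
  have hh4 : D.h ^ 2 ≤ D.h ^ 4 := pow_le_pow_right₀ hh1 (by norm_num)
  have j1' : ∀ a, HJ (fun r => D.ph r a) q (D.ph q a)
      (fun c => QQ (D.G q) (D.Th q) τ (D.ph q) a c)
      (lph (D.G q) (D.Th q) τ (D.ph q) (D.mu q) a) := j1
  have j2 := jtx (Tor d M) q D.G D.ta (D.G q) D.G0 (QQ (D.G q) (D.Th q) τ (D.ph q)) D.m τ D.ph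
    (D.mu q) (D.ph q) (lph (D.G q) (D.Th q) τ (D.ph q) (D.mu q)) hJ rfl j1' hg.hμ
  obtain ⟨Λ', hΛ'⟩ : ∃ Λ', Λ' = 16 * P ^ 2 * (D.h ^ 4 * Λ) := ⟨_, rfl⟩
  have hΛh : Λ ≤ D.h ^ 4 * Λ := le_mul_of_one_le_left hΛ0 (by linarith only [hh2, hh4])
  have hΛh2 : D.h ^ 2 * Λ ≤ D.h ^ 4 * Λ := mul_le_mul_of_nonneg_right hh4 hΛ0
  have hΛh0 : 0 ≤ D.h ^ 4 * Λ := hΛ0.trans hΛh
  have hΛΛ : Λ ≤ Λ' := by
    rw [hΛ']
    have : D.h ^ 4 * Λ ≤ 16 * P ^ 2 * (D.h ^ 4 * Λ) :=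
      le_mul_of_one_le_left hΛh0 (by linarith only [hP2])
    linarith only [hΛh, this]
  have hsq : Real.sqrt (Λ' / κ) = 4 * P * (D.h ^ 2 * Real.sqrt (Λ / κ)) := by
    have e : Λ' / κ = (4 * P * D.h ^ 2) ^ 2 * (Λ / κ) := by
      rw [hΛ']
      ring
    rw [e, Real.sqrt_mul (by positivity), Real.sqrt_sq (by positivity)]
    ring
  have hsq2 : D.δ ^ 2 / κ ≤ Real.sqrt (Λ / κ) := by
    apply Real.le_sqrt_of_sq_le
    have e : (D.δ ^ 2 / κ) ^ 2 = D.δ ^ 4 / κ / κ := by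
      field_simp
    rw [e]
    gcongr
    have : 0 ≤ D.δ ^ 2 * D.N := by positivity
    linarith only [hΛ2, this]
  have hs0 : 0 ≤ Real.sqrt (Λ / κ) := Real.sqrt_nonneg _
  have hd0 : 0 ≤ D.δ ^ 2 / κ := by positivity
  obtain ⟨b3, b4⟩ := xhb (Tor d M) (D.G q) (QQ (D.G q) (D.Th q) τ (D.ph q)) (D.mu q) (D.ph q)
    (lph (D.G q) (D.Th q) τ (D.ph q) (D.mu q)) D.nr κ τ D.δ D.N Λ' hg.hG hg.hφ
    (fun a => (hL a).trans hΛΛ) (hΛ2.trans hΛΛ)
    (fun a => (b1 a).trans (by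
      rw [hΛ']
      have h3 : D.h ^ 2 * (P * Λ) = P * (D.h ^ 2 * Λ) := by ring
      have h4 : P * (D.h ^ 2 * Λ) ≤ P * (D.h ^ 4 * Λ) :=
        mul_le_mul_of_nonneg_left hΛh2 (by linarith only [hP])
      have : P * (D.h ^ 4 * Λ) ≤ P ^ 2 * (D.h ^ 4 * Λ) := by
        apply mul_le_mul_of_nonneg_right _ hΛh0
        nlinarith only [hP, hP2]
      have h5 : 16 * P ^ 2 * (D.h ^ 4 * Λ) ≤ C₀ * (16 * P ^ 2 * (D.h ^ 4 * Λ)) :=
        le_mul_of_one_le_left (by positivity) hC₀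
      have h6 : 0 ≤ P ^ 2 * (D.h ^ 4 * Λ) := by positivity
      linarith only [hΛ0, hΛ', hΛΛ, h4, this, h5]))
    (fun a => (b2 a).trans (by
      rw [hsq]
      have h5 : D.δ ^ 2 / κ + 4 * P * (D.h ^ 2 * Real.sqrt (Λ / κ)) ≤
        C₀ * (D.δ ^ 2 / κ + 4 * P * (D.h ^ 2 * Real.sqrt (Λ / κ))) :=
        le_mul_of_one_le_left (by positivity) hC₀
      have h6 : 2 * D.h ^ 2 * (P * (D.δ ^ 2 / κ + Real.sqrt (Λ / κ))) ≤
          2 * D.h ^ 2 * (P * (Real.sqrt (Λ / κ) + Real.sqrt (Λ / κ))) := by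
        gcongr
      have h7 : 2 * D.h ^ 2 * (P * (Real.sqrt (Λ / κ) + Real.sqrt (Λ / κ))) =
        4 * P * (D.h ^ 2 * Real.sqrt (Λ / κ)) := by ring
      linarith only [hd0, h5, h6]))
  have hℓ0 : ∀ K : ℝ, 0 ≤ K → 0 ≤ K * (D.δ ^ 2 / κ + Real.sqrt (Λ / κ)) := fun K hK =>
    mul_nonneg hK (by linarith only [hs0, hd0])
  have hj1 : 1 ≤ D.j := by linarith only [hA.hj.1]
  -- `U1`
  obtain ⟨g1, l1, J1, hl1⟩ := pwu (Tor d M) q (Tor d M) (fun a r => D.ph r a) (D.ph q)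
    (lph (D.G q) (D.Th q) τ (D.ph q) (D.mu q)) (fun a c => QQ (D.G q) (D.Th q) τ (D.ph q) a c) D.δ
    (2 * D.h ^ 2 * (P * (D.δ ^ 2 / κ + Real.sqrt (Λ / κ)))) (D.h ^ 2 * (P * Λ)) D.j hδ0
    (mul_nonneg (by positivity) (hℓ0 P (by linarith only [hP])))
    (by positivity) hj1 j1' b2 b1
  have J1' : HJ D.U1 q (D.U1 q) g1 l1 := J1
  -- `U2`
  have eU2 : (fun r => ∑ k : Tor d M × Tor d M, (‖D.Xh r k.1 k.2‖ ^ 2 / D.δ ^ 2) ^ D.j) =
      D.U2 := by
    funext r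
    rw [Fintype.sum_prod_type]
    rfl
  obtain ⟨g2, l2, J2, hl2⟩ := pwu (Tor d M) q (Tor d M × Tor d M)
    (fun k r => D.Xh r k.1 k.2) (fun k => D.Xh q k.1 k.2)
    (fun k => lX (D.G q) (QQ (D.G q) (D.Th q) τ (D.ph q)) τ (D.ph q) (D.mu q)
      (lph (D.G q) (D.Th q) τ (D.ph q) (D.mu q)) k.1 k.2)
    (fun k c => dX (D.G q) (QQ (D.G q) (D.Th q) τ (D.ph q)) τ (D.ph q) c k.1 k.2) D.δ
    (Q * (D.δ ^ 2 / κ + Real.sqrt (Λ' / κ))) (Q * Λ') D.j hδ0
    (mul_nonneg (by linarith only [hQ]) (by rw [hsq]; positivity))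
    (mul_nonneg (by linarith only [hQ]) (hΛ0.trans hΛΛ)) hj1
    (fun k => by
      have := j2 k.1 k.2
      rw [hτe] at this
      rw [hτe]
      exact this) (fun k => b4 k.1 k.2) (fun k => b3 k.1 k.2)
  rw [eU2] at J2
  have eU2q : ∑ k : Tor d M × Tor d M, (‖D.Xh q k.1 k.2‖ ^ 2 / D.δ ^ 2) ^ D.j = D.U2 q :=
    congrFun eU2 q
  rw [eU2q] at J2 hl2
  have hM : (1 : ℝ) ≤ (M : ℝ) ^ d := one_le_pow₀ (by exact_mod_cast Nat.one_le_iff_ne_zero.2 (NeZero.ne M))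
  have r1 := rate D (K := 2 * P) (ℓ := 2 * D.h ^ 2 * (P * (D.δ ^ 2 / κ + Real.sqrt (Λ / κ))))
    (γ := D.h ^ 2 * (P * Λ)) hA hκe h1 h2 hΛ hΛ0 (by linarith only [hP]) (le_of_eq (by ring)) (by
      have h3 : D.h ^ 2 * (P * Λ) = P * (D.h ^ 2 * Λ) := by ring
      have h4 : P * (D.h ^ 2 * Λ) ≤ P * (D.h ^ 4 * Λ) :=
        mul_le_mul_of_nonneg_left hΛh2 (by linarith only [hP])
      have h5 : 0 ≤ P * (D.h ^ 4 * Λ) := by positivity
      have h6 : 2 * P * (D.h ^ 4 * Λ) = 2 * (P * (D.h ^ 4 * Λ)) := by ring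
      linarith only [h4, h5])
  have r2 := rate D (K := 16 * Q * P ^ 2) (ℓ := Q * (D.δ ^ 2 / κ + Real.sqrt (Λ' / κ)))
    (γ := Q * Λ') hA hκe h1 h2 hΛ hΛ0 (by positivity) (by
      rw [hsq]
      have e0 : D.δ ^ 2 / κ ≤ D.h ^ 2 * (D.δ ^ 2 / κ) := le_mul_of_one_le_left hd0 hh2
      have e1 : D.h ^ 2 * (D.δ ^ 2 / κ) ≤ 16 * P ^ 2 * (D.h ^ 2 * (D.δ ^ 2 / κ)) :=
        le_mul_of_one_le_left (by positivity) (by linarith only [hP2])
      have e2 : 4 * P * (D.h ^ 2 * Real.sqrt (Λ / κ)) ≤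
          16 * P ^ 2 * (D.h ^ 2 * Real.sqrt (Λ / κ)) := by
        apply mul_le_mul_of_nonneg_right _ (by positivity)
        nlinarith only [hP, hP2]
      have e3 : 16 * Q * P ^ 2 * (D.h ^ 2 * (D.δ ^ 2 / κ + Real.sqrt (Λ / κ))) =
        Q * (16 * P ^ 2 * (D.h ^ 2 * (D.δ ^ 2 / κ)) +
          16 * P ^ 2 * (D.h ^ 2 * Real.sqrt (Λ / κ))) := by ring
      rw [e3]
      exact mul_le_mul_of_nonneg_left (by linarith only [e0, e1, e2]) (by linarith only [hQ])) (by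
      rw [hΛ']
      exact le_of_eq (by ring))
  have hPP : 2 * P ≤ 16 * Q * P ^ 2 := by
    have : P ≤ P ^ 2 := by nlinarith only [hP, hP2]
    have : P ^ 2 ≤ Q * P ^ 2 := le_mul_of_one_le_left (by positivity) hQ
    linarith
  have haN : 0 ≤ D.aN / κ := by
    have h3 := rate D (K := 1) (ℓ := 0) (γ := 0) hA hκe h1 h2 hΛ hΛ0 zero_le_one
      (by positivity) (by linarith only [hΛ0, hΛh])
    have h4 : 8 * 1 * D.aN / κ = 8 * (D.aN / κ) := by ring
    rw [h4] at h3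
    simp only [mul_zero, zero_div, add_zero] at h3
    linarith only [h3]
  have r1' : 4 * D.j * (2 * D.h ^ 2 * (P * (D.δ ^ 2 / κ + Real.sqrt (Λ / κ)))) / D.δ +
      8 * D.j ^ 2 * (D.h ^ 2 * (P * Λ)) / D.δ ^ 2 ≤ 8 * (16 * Q * P ^ 2) * D.aN / κ := by
    refine r1.trans ?_
    have e1 : 8 * (2 * P) * D.aN / κ = 8 * (2 * P) * (D.aN / κ) := by ring
    have e2 : 8 * (16 * Q * P ^ 2) * D.aN / κ = 8 * (16 * Q * P ^ 2) * (D.aN / κ) := by ring
    rw [e1, e2]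
    exact mul_le_mul_of_nonneg_right (by linarith only [hPP]) haN
  refine ⟨J1'.sm, J2.sm, ?_, ?_⟩
  · rw [J1'.ge]
    refine hl1.trans ?_
    have e1 : ∑ k : Tor d M, (‖D.ph q k‖ ^ 2 / D.δ ^ 2) ^ D.j = D.U1 q := rfl
    rw [e1, cardT]
    have e2 : 0 ≤ D.U1 q := by
      rw [← e1]
      positivity
    have e3 : (M : ℝ) ^ d ≤ ((M : ℝ) ^ d) ^ 2 := by nlinarith only [hM]
    have e4 : (M : ℝ) ^ d * (1 / 4) ^ D.j ≤ ((M : ℝ) ^ d) ^ 2 * (1 / 4) ^ D.j :=
      mul_le_mul_of_nonneg_right e3 (by positivity)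
    have e5 : 0 ≤ (M : ℝ) ^ d * (1 / 4) ^ D.j := by positivity
    refine (mul_le_mul_of_nonneg_right r1' (by linarith)).trans ?_
    refine mul_le_mul_of_nonneg_left (by linarith) ?_
    have e6 : 8 * (16 * Q * P ^ 2) * D.aN / κ = 8 * (16 * Q * P ^ 2) * (D.aN / κ) := by ring
    rw [e6]
    positivity
  · rw [J2.ge]
    refine hl2.trans ?_
    have e1 : ((Fintype.card (Tor d M × Tor d M) : ℕ) : ℝ) = ((M : ℝ) ^ d) ^ 2 := by
      rw [Fintype.card_prod, Nat.cast_mul, cardT, sq]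
    rw [e1]
    have e2 : 0 ≤ D.U2 q := by
      rw [← eU2q]
      positivity
    exact mul_le_mul_of_nonneg_right r2 (by positivity)

end Pool.Agent.LE.QX.H56
end
end -- Pool.Agent.Helper56_LQX.UPA
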