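import Pool.Agent.Helper12_MEB.B057
import Pool.Agent.Helper12_MEB.B058
import Pool.Agent.Helper12_MEB.B066
import Pool.Agent.Helper12_MEB.B071
import Pool.Agent.Helper12_MEB.B108
import Pool.Agent.Helper12_MEB.B117
import Pool.Agent.Helper12_MEB.B118
import Pool.Agent.Helper12_MEB.B132
import Pool.Agent.Helper12_MEB.B135
import Pool.Agent.Helper12_MEB.B136

/-!
# Merged copies (generated) of the modules

* `Pool.Agent.Helper17_LSP.LAQ`
* `Pool.Agent.Helper32_LSP.CN3`
* `Pool.Agent.Helper63_LYM.DUA`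
* `Pool.Agent.Helper67_LSP.PAI`
* `Pool.Agent.Helper93_LSP.PBD`
* `Pool.Agent.Helper9_LSP.OST`
* `Pool.Agent.Helper54_LSC.All`
-/

set_option autoImplicit false

section -- Pool.Agent.Helper17_LSP.LAQ

/-!
# LAQ (squad LSP): linear algebra, projection away from the bad eigenvectors
-/

set_option autoImplicit false

open MeasureTheory Function Matrix

open scoped BigOperators ComplexOrder ComplexConjugate

noncomputable section

namespace Pool.Agent.LE.CL.H17

open Pool.Agent.Anderson hiding box mem_box card_box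
open Pool.Agent.LE.CL

/-- the projection onto the kernel of a matrix -/
theorem ker_proj {m n : Type} [Fintype m] [DecidableEq m] [Fintype n] [DecidableEq n]
    (B : Matrix n m ℂ) : ∃ Q : Matrix m m ℂ, Q.IsHermitian ∧ Q * Q = Q ∧ B * Q = 0 ∧
      (Matrix.trace (1 - Q)).re = (B.rank : ℝ) := by
  have hH : (Bᴴ * B).IsHermitian := Matrix.isHermitian_conjTranspose_mul_self B
  obtain ⟨W, μ, hW1, hW2, hHW, hμ⟩ := exists_diag hH
  set e : m → ℂ := fun i => if μ i = 0 then 1 else 0 with he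
  have hee : ∀ i, e i * e i = e i := by
    intro i
    simp only [he]
    split_ifs <;> simp
  have hstar : star e = e := by
    funext i
    simp only [he, Pi.star_apply]
    split_ifs <;> simp
  refine ⟨W * diagonal e * Wᴴ, ?_, ?_, ?_, ?_⟩
  · rw [Matrix.IsHermitian, conjTranspose_mul, conjTranspose_mul, conjTranspose_conjTranspose,
      diagonal_conjTranspose, hstar, Matrix.mul_assoc]
  · calc W * diagonal e * Wᴴ * (W * diagonal e * Wᴴ)
        = W * diagonal e * (Wᴴ * W) * diagonal e * Wᴴ := by simp only [Matrix.mul_assoc]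
      _ = W * (diagonal e * diagonal e) * Wᴴ := by
          rw [hW2, Matrix.mul_one, Matrix.mul_assoc W]
      _ = W * diagonal e * Wᴴ := by
          rw [diagonal_mul_diagonal]
          simp only [hee]
  · have h1 : (B * (W * diagonal e * Wᴴ))ᴴ * (B * (W * diagonal e * Wᴴ)) = 0 := by
      calc (B * (W * diagonal e * Wᴴ))ᴴ * (B * (W * diagonal e * Wᴴ))
          = (W * diagonal e * Wᴴ)ᴴ * (Bᴴ * B) * (W * diagonal e * Wᴴ) := by
            rw [conjTranspose_mul]
            simp only [Matrix.mul_assoc]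
        _ = (W * diagonal e * Wᴴ)ᴴ * (W * diagonal (fun i => (μ i : ℂ)) *
              (Wᴴ * W) * diagonal e * Wᴴ) := by
            rw [hHW]
            simp only [Matrix.mul_assoc]
        _ = (W * diagonal e * Wᴴ)ᴴ * (W * (diagonal (fun i => (μ i : ℂ)) *
              diagonal e) * Wᴴ) := by
            rw [hW2, Matrix.mul_one]
            simp only [Matrix.mul_assoc]
        _ = 0 := by
            have h2 : diagonal (fun i => (μ i : ℂ)) * diagonal e = 0 := by
              rw [diagonal_mul_diagonal]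
              have : (fun i => (μ i : ℂ) * e i) = 0 := by
                funext i
                simp only [he, Pi.zero_apply]
                split_ifs with h
                · rw [h]; simp
                · simp
              rw [this]
              exact diagonal_zero
            rw [h2, Matrix.mul_zero, Matrix.zero_mul, Matrix.mul_zero]
    exact Matrix.conjTranspose_mul_self_eq_zero.1 h1
  · have h1 : (1 : Matrix m m ℂ) - W * diagonal e * Wᴴ =
        W * diagonal (fun i => 1 - e i) * Wᴴ := by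
      have : diagonal (fun i => 1 - e i) = (1 : Matrix m m ℂ) - diagonal e := by
        rw [← diagonal_one, diagonal_sub]
      rw [this, Matrix.mul_sub, Matrix.sub_mul, Matrix.mul_one, hW1]
    rw [h1, Matrix.trace_mul_comm, ← Matrix.mul_assoc, hW2, Matrix.one_mul,
      Matrix.trace_diagonal, ← Matrix.rank_conjTranspose_mul_self B,
      hH.rank_eq_card_non_zero_eigs, Complex.re_sum, Fintype.card_subtype, ← hμ]
    have h3 : ∀ i, (1 - e i).re = if μ i ≠ 0 then (1 : ℝ) else 0 := by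
      intro i
      simp only [he]
      by_cases h : μ i = 0
      · rw [if_pos h, if_neg (not_not.2 h), sub_self, Complex.zero_re]
      · rw [if_neg h, if_pos h, sub_zero, Complex.one_re]
    rw [Finset.sum_congr rfl fun i _ => h3 i, Finset.sum_boole]

/-- **LAQ** -/
theorem laq : LaqStmt := by
  intro m n _ _ _ _ A Ψ hA
  obtain ⟨U, l, hU1, hU2, hAU, hl⟩ := exists_diag hA.1
  have hl0 : ∀ i, 0 ≤ l i := fun i => by rw [hl]; exact hA.eigenvalues_nonneg i
  set p : n → ℂ := fun i => if 1 / 2 < l i then 1 else 0 with hp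
  obtain ⟨Q, hQ1, hQ2, hQ3, hQ4⟩ := ker_proj (diagonal p * (Uᴴ * Ψ))
  refine ⟨Q, hQ1, hQ2, ?_, ?_⟩
  · rw [hQ4]
    have htr : (Matrix.trace A).re = ∑ i, l i := by
      rw [hAU, Matrix.trace_mul_comm, ← Matrix.mul_assoc, hU2, Matrix.one_mul,
        Matrix.trace_diagonal, Complex.re_sum]
      simp only [Complex.ofReal_re]
    have hr : (diagonal p * (Uᴴ * Ψ)).rank ≤ (diagonal p).rank := Matrix.rank_mul_le_left _ _
    have hr2 : (diagonal p).rank = (Finset.univ.filter fun i => 1 / 2 < l i).card := by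
      rw [Matrix.rank_diagonal, Fintype.card_subtype]
      congr 1
      ext i
      simp only [hp, Finset.mem_filter, Finset.mem_univ, true_and]
      by_cases h : 1 / 2 < l i
      · rw [if_pos h]
        exact ⟨fun _ => h, fun _ => one_ne_zero⟩
      · rw [if_neg h]
        exact ⟨fun h' => absurd rfl h', fun h' => absurd h' h⟩
    have h5 : ((Finset.univ.filter fun i => 1 / 2 < l i).card : ℝ) * (1 / 2) ≤ ∑ i, l i := by
      calc ((Finset.univ.filter fun i => 1 / 2 < l i).card : ℝ) * (1 / 2)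
          = ∑ i ∈ Finset.univ.filter (fun i => 1 / 2 < l i), (1 / 2 : ℝ) := by
            rw [Finset.sum_const, nsmul_eq_mul]
        _ ≤ ∑ i ∈ Finset.univ.filter (fun i => 1 / 2 < l i), l i :=
            Finset.sum_le_sum fun i hi => (Finset.mem_filter.1 hi).2.le
        _ ≤ ∑ i, l i := Finset.sum_le_sum_of_subset_of_nonneg (Finset.filter_subset _ _)
            fun i _ _ => hl0 i
    have h6 : ((diagonal p * (Uᴴ * Ψ)).rank : ℝ) ≤
        ((Finset.univ.filter fun i => 1 / 2 < l i).card : ℝ) := by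
      rw [← hr2]
      exact_mod_cast hr
    rw [htr]
    linarith
  · intro v
    set x := Ψ *ᵥ (Q *ᵥ v) with hx
    set z := Uᴴ *ᵥ x with hz
    have hz0 : ∀ i, 1 / 2 < l i → z i = 0 := by
      intro i hi
      have h1 : (diagonal p * (Uᴴ * Ψ) * Q) *ᵥ v = 0 := by
        rw [hQ3, Matrix.zero_mulVec]
      have h2 : (diagonal p * (Uᴴ * Ψ) * Q) *ᵥ v = diagonal p *ᵥ z := by
        rw [hz, hx]
        simp only [Matrix.mulVec_mulVec, Matrix.mul_assoc]
      rw [h2] at h1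
      have h3 := congrFun h1 i
      rw [Matrix.mulVec_diagonal] at h3
      simp only [hp, if_pos hi, one_mul, Pi.zero_apply] at h3
      exact h3
    have hzx : nsq z = nsq x := by
      apply nsq_mulVec_unitary
      rw [conjTranspose_conjTranspose, hU1]
    have h4 : star x ⬝ᵥ (A *ᵥ x) = ∑ i, ((l i * ‖z i‖ ^ 2 : ℝ) : ℂ) := by
      have h5 : A *ᵥ x = U *ᵥ (diagonal (fun i => (l i : ℂ)) *ᵥ z) := by
        rw [hAU, hz]
        simp only [Matrix.mulVec_mulVec, Matrix.mul_assoc]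
      rw [h5, dotProduct_mulVec]
      have h6 : star x ᵥ* U = star z := by
        have h7 := star_mulVec Uᴴ x
        rw [conjTranspose_conjTranspose] at h7
        exact h7.symm
      rw [h6, dotProduct]
      refine Finset.sum_congr rfl fun i _ => ?_
      rw [Matrix.mulVec_diagonal, Pi.star_apply]
      have h7 := Complex.mul_conj (z i)
      rw [Complex.normSq_eq_norm_sq] at h7
      push_cast at h7 ⊢
      rw [← h7, Complex.star_def]
      ring
    rw [h4, Complex.re_sum, ← hzx]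
    simp only [Complex.ofReal_re]
    rw [nsq, Finset.mul_sum]
    refine Finset.sum_le_sum fun i _ => ?_
    by_cases hi : 1 / 2 < l i
    · rw [hz0 i hi]
      simp
    · exact mul_le_mul_of_nonneg_right (not_lt.1 hi) (by positivity)

end Pool.Agent.LE.CL.H17
end
end -- Pool.Agent.Helper17_LSP.LAQ

section -- Pool.Agent.Helper32_LSP.CN3

/-!
# CN3: the counting lemma for a map with clusters
-/

set_option autoImplicit false

open Finset

noncomputable section

namespace Pool.Agent.LE.CL.H32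

open Pool.Agent.Anderson hiding box mem_box card_box
open Pool.Agent.Loc Pool.Agent.LE.H96C

/-- CN3 -/
theorem cn3 (hDmi : DmiStmt) : Cn3Stmt := by
  classical
  intro d F a n R M m t h S c G hd hn hM hS hmh hF2 hF3 hc0 hc hG
  obtain ⟨f, hfdef⟩ : ∃ f : Site d → Fin d → ℝ, ∀ x i, f x i = F x i - t :=
    ⟨fun x i => F x i - t, fun _ _ => rfl⟩
  have hff : ∀ x y i, f x i - f y i = F x i - F y i := by
    intro x y i
    rw [hfdef, hfdef]
    ring
  have hf2 : ∀ k ∈ box (0 : Site d) n, ∀ i, k i = -(n : ℤ) → f (a + k) i ≤ 0 := by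
    intro k hk i hi
    have := hF2 k hk i hi
    rw [hfdef]
    linarith only [this]
  have hf3 : ∀ k ∈ box (0 : Site d) n, ∀ i, k i = (n : ℤ) → h - t ≤ f (a + k) i := by
    intro k hk i hi
    have := hF3 k hk i hi
    rw [hfdef]
    linarith only [this]
  obtain ⟨w, hwdef⟩ : ∃ w : ℝ, w = 16 * S := ⟨_, rfl⟩
  have hw : 0 < w := by rw [hwdef]; positivity
  obtain ⟨T, hT⟩ : ∃ T : Finset (Fin d → ℕ), T = Fintype.piFinset fun _ => Finset.Icc 1 m :=
    ⟨_, rfl⟩
  have hcardT : T.card = m ^ d := by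
    rw [hT, Fintype.card_piFinset]
    simp
  have hTm : ∀ κ ∈ T, ∀ i, κ i ∈ Finset.Icc 1 m := by
    intro κ hκ
    rw [hT, Fintype.mem_piFinset] at hκ
    exact hκ
  -- the points of the targets
  have hk : ∀ κ ∈ T, ∃ k ∈ box (0 : Site d) n,
      ∀ i, |w * (κ i : ℝ) - f (a + k) i| ≤ c k * S := by
    intro κ hκ
    have hκ' := hTm κ hκ
    obtain ⟨k, hk, hk2⟩ := hDmi d n (fun k i => f (a + k) i) 0 (h - t)
      (fun i => w * (κ i : ℝ)) hn hf2 hf3 (fun i => by
        have h1 := Finset.mem_Icc.1 (hκ' i)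
        have h3 : (κ i : ℝ) ≤ m := by exact_mod_cast h1.2
        constructor
        · positivity
        · have : w * κ i ≤ w * m := mul_le_mul_of_nonneg_left h3 hw.le
          rw [hwdef] at this ⊢
          linarith only [hmh, this])
    refine ⟨k, hk, fun i => ?_⟩
    obtain ⟨k', hk', h1, h2⟩ := hk2 i
    refine h2.trans ?_
    have h4 := hc k hk (a + k') (by
      rw [mem_box]
      have e : sd (a + k) (a + k') = sd k k' := by
        unfold sd
        simp
      rw [e]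
      exact h1) i
    rw [hff]
    exact h4
  choose! kk hkk1 hkk2 using hk
  have huniq : ∀ (κ κ' : Fin d → ℕ) (F : Fin d → ℝ), (∀ i, |w * (κ i : ℝ) - F i| < w / 2) →
      (∀ i, |w * (κ' i : ℝ) - F i| < w / 2) → κ = κ' := by
    intro κ κ' F h1 h2
    funext i
    have h3 := abs_lt.1 (h1 i)
    have h4 := abs_lt.1 (h2 i)
    have h5 : w * ((κ i : ℝ) - κ' i) < w * 1 := by linarith only [h3.2, h4.1]
    have h6 : w * ((κ' i : ℝ) - κ i) < w * 1 := by linarith only [h3.1, h4.2]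
    have h7 : (κ i : ℝ) < κ' i + 1 := by linarith only [lt_of_mul_lt_mul_left h5 hw.le]
    have h8 : (κ' i : ℝ) < κ i + 1 := by linarith only [lt_of_mul_lt_mul_left h6 hw.le]
    have h9 : κ i < κ' i + 1 := by exact_mod_cast h7
    have h10 : κ' i < κ i + 1 := by exact_mod_cast h8
    omega
  -- small c: everything near the point is near the target
  have hclose : ∀ κ ∈ T, c (kk κ) ≤ 1 → ∀ y : Site d,
      (∀ i, |F y i - F (a + kk κ) i| ≤ S) → ∀ i, |w * (κ i : ℝ) - f y i| < w / 2 := by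
    intro κ hκ h1 y hy i
    have h2 := hkk2 κ hκ i
    have h3 : c (kk κ) * S ≤ 1 * S := mul_le_mul_of_nonneg_right h1 hS.le
    have h4 := hy i
    rw [← hff, abs_sub_comm] at h4
    have h5 := abs_sub_le (w * (κ i : ℝ)) (f (a + kk κ) i) (f y i)
    rw [hwdef] at h2 h5 ⊢
    linarith only [hS, h2, h3, h4, h5]
  have hinj : ∀ κ ∈ T, ∀ κ' ∈ T, c (kk κ) ≤ 1 → c (kk κ') ≤ 1 → kk κ = kk κ' → κ = κ' := by
    intro κ hκ κ' hκ' h1 h2 h3
    refine huniq κ κ' (fun i => f (a + kk κ) i) (hclose κ hκ h1 _ fun i => ?_) ?_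
    · rw [sub_self, abs_zero]
      exact hS.le
    · refine hclose κ' hκ' h2 _ fun i => ?_
      rw [h3, sub_self, abs_zero]
      exact hS.le
  -- the three classes
  obtain ⟨Ta, hTa⟩ : ∃ Ta, Ta = T.filter fun κ => 1 < c (kk κ) := ⟨_, rfl⟩
  obtain ⟨Tb, hTb⟩ : ∃ Tb, Tb = T.filter fun κ => c (kk κ) ≤ 1 ∧ kk κ ∉ G := ⟨_, rfl⟩
  obtain ⟨Tc, hTc⟩ : ∃ Tc, Tc = T.filter fun κ => c (kk κ) ≤ 1 ∧ kk κ ∈ G := ⟨_, rfl⟩
  have hsub : T ⊆ Ta ∪ (Tb ∪ Tc) := by
    intro κ hκ
    simp only [hTa, hTb, hTc, Finset.mem_union, Finset.mem_filter]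
    by_cases h1 : 1 < c (kk κ)
    · exact Or.inl ⟨hκ, h1⟩
    · rw [not_lt] at h1
      by_cases h2 : kk κ ∈ G
      · exact Or.inr (Or.inr ⟨hκ, h1, h2⟩)
      · exact Or.inr (Or.inl ⟨hκ, h1, h2⟩)
  have hcard : (m : ℝ) ^ d ≤ Ta.card + (Tb.card + Tc.card) := by
    have h1 := (card_le_card hsub).trans ((card_union_le _ _).trans
      (Nat.add_le_add_left (card_union_le _ _) _))
    rw [hcardT] at h1
    exact_mod_cast h1
  -- (a)
  have hA : (Ta.card : ℝ) ≤
      2 ^ d * ∑ k ∈ (box (0 : Site d) n).filter (fun k => 1 < c k), c k ^ d := by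
    have hmap : ∀ κ ∈ Ta, kk κ ∈ (box (0 : Site d) n).filter fun k => 1 < c k := by
      intro κ hκ
      rw [hTa, Finset.mem_filter] at hκ
      exact Finset.mem_filter.2 ⟨hkk1 κ hκ.1, hκ.2⟩
    rw [Finset.card_eq_sum_card_fiberwise hmap, Finset.mul_sum]
    push_cast
    refine Finset.sum_le_sum fun k hk => ?_
    have hck : 1 < c k := (Finset.mem_filter.1 hk).2
    have h0 : 0 ≤ c k * S := by
      have := hc0 k
      positivity
    have h1 := fiber_card (m := m) (fun i => f (a + k) i) w (c k * S) hw h0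
      (Ta.filter fun κ => kk κ = k) (by
        intro κ hκ
        rw [Finset.mem_filter, hTa, Finset.mem_filter] at hκ
        refine ⟨hTm κ hκ.1.1, fun i => ?_⟩
        have h2 := hkk2 κ hκ.1.1 i
        rw [hκ.2] at h2
        exact h2)
    have h2 : 2 * (c k * S) / w + 1 ≤ 2 * c k := by
      have h4 : 2 * (c k * S) / w = c k / 8 := by
        rw [hwdef]
        field_simp
        ring
      rw [h4]
      linarith only [hck]
    rw [← mul_pow]
    exact h1.trans (pow_le_pow_left₀ (by positivity) h2 d)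
  -- (b)
  have hB : (Tb.card : ℝ) ≤ ((box (0 : Site d) n) \ G).card := by
    have : Tb.card ≤ ((box (0 : Site d) n) \ G).card := by
      refine Finset.card_le_card_of_injOn kk (fun κ hκ => ?_) (fun κ hκ κ' hκ' he => ?_)
      · rw [hTb, Finset.mem_coe, Finset.mem_filter] at hκ
        rw [Finset.mem_coe, Finset.mem_sdiff]
        exact ⟨hkk1 κ hκ.1, hκ.2.2⟩
      · rw [hTb, Finset.mem_coe, Finset.mem_filter] at hκ hκ'
        exact hinj κ hκ.1 κ' hκ'.1 hκ.2.1 hκ'.2.1 he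
    exact_mod_cast this
  -- (c)
  choose! P hP1 hP2 hP3 using hG
  have hC : (Tc.card : ℝ) * M ≤ (2 * ((n : ℝ) + R) + 1) ^ d := by
    have hdisj : ∀ κ ∈ Tc, ∀ κ' ∈ Tc, κ ≠ κ' → Disjoint (P (kk κ)) (P (kk κ')) := by
      intro κ hκ κ' hκ' hne
      rw [hTc, Finset.mem_filter] at hκ hκ'
      rw [Finset.disjoint_left]
      intro y hy hy'
      exact hne (huniq κ κ' (fun i => f y i)
        (hclose κ hκ.1 hκ.2.1 y (hP3 _ hκ.2.2 y hy))
        (hclose κ' hκ'.1 hκ'.2.1 y (hP3 _ hκ'.2.2 y hy')))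
    have h1 : Tc.card * M ≤ (Tc.biUnion fun κ => P (kk κ)).card := by
      rw [Finset.card_biUnion hdisj, Finset.card_eq_sum_ones, Finset.sum_mul]
      refine Finset.sum_le_sum fun κ hκ => ?_
      rw [one_mul]
      rw [hTc, Finset.mem_filter] at hκ
      exact hP1 _ hκ.2.2
    have h2 : (Tc.biUnion fun κ => P (kk κ)) ⊆ box a (n + R) := by
      intro y hy
      obtain ⟨κ, hκ, hy⟩ := Finset.mem_biUnion.1 hy
      rw [hTc, Finset.mem_filter] at hκ
      have h3 := hP2 _ hκ.2.2 hy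
      have h4 := hkk1 κ hκ.1
      rw [mem_box] at h3 h4 ⊢
      have h5 := sd_triangle a (a + kk κ) y
      have h6 : sd a (a + kk κ) = sd 0 (kk κ) := by
        unfold sd
        simp
      omega
    have h3 := Finset.card_le_card h2
    rw [card_box] at h3
    have h4 := h1.trans h3
    exact_mod_cast h4
  have hM0 : (0 : ℝ) < M := by exact_mod_cast hM
  have hC' : (Tc.card : ℝ) ≤ (2 * ((n : ℝ) + R) + 1) ^ d / M := by
    rw [le_div_iff₀ hM0]
    exact hC
  calc (m : ℝ) ^ d ≤ Ta.card + (Tb.card + Tc.card) := hcard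
    _ ≤ 2 ^ d * ∑ k ∈ (box (0 : Site d) n).filter (fun k => 1 < c k), c k ^ d +
        (((box (0 : Site d) n) \ G).card + (2 * ((n : ℝ) + R) + 1) ^ d / M) := by
        gcongr
    _ = _ := by ring

end Pool.Agent.LE.CL.H32
end
end -- Pool.Agent.Helper32_LSP.CN3

section -- Pool.Agent.Helper63_LYM.DUA

/-!
# Squad LYM, row DUA: duality
-/

set_option autoImplicit false

open MeasureTheory Set Real Function Matrix

open scoped ENNReal ComplexConjugate ComplexOrder

noncomputable section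

namespace Pool.Agent.LE.MN.H63

open Pool.Agent.Anderson hiding box mem_box card_box

open scoped Pool.Agent.LE.MN

variable {d : ℕ}

/-- the inequality with a positive constant -/
theorem dua_pos {Λ : Finset (Site d)} (w : Λ → ℂ) (D : Site d → ℝ) (E η s : ℝ)
    (C : Matrix Λ Λ ℂ) (hη : 0 < η) (hs : 0 < s) (hC : C.IsHermitian) (hCK : C * C = Kmat Λ E η)
    (hX : ∀ v : Λ → ℂ, nsq (XM C (fun y => D y) *ᵥ v) ≤ s ^ 2 * nsq v) :
    ∫ θ, (md E η θ)⁻¹ * ‖hatV (fun y : Λ => (D y : ℂ) * w y) θ‖ ^ 2 ≤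
      s ^ 2 * ∫ θ, md E η θ * ‖hatV w θ‖ ^ 2 := by
  set m : UnitAddTorus (Fin d) → ℝ := md E η with hm
  have hmpos : ∀ θ, 0 < m θ := fun θ => md_pos hη θ
  have cm : Continuous m := continuous_md E η
  have cim : Continuous fun θ => (m θ)⁻¹ := continuous_inv_md hη
  set bv : Λ → ℂ := fun y => (D y : ℂ) * w y with hbv
  have cw := continuous_hatV w
  have cb := continuous_hatV bv
  set N2 : ℝ := ∫ θ, m θ * ‖hatV w θ‖ ^ 2 with hN2
  set B : ℝ := ∫ θ, (m θ)⁻¹ * ‖hatV bv θ‖ ^ 2 with hB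
  have hform : ∀ v : Λ → ℂ, nsq (C *ᵥ v) = ∫ θ, (m θ)⁻¹ * ‖hatV v θ‖ ^ 2 := by
    intro v
    rw [← Kmat_form_re Λ hη, ← hCK]
    have h1 := star_dot_self (C *ᵥ v)
    rw [star_mulVec, ← dotProduct_mulVec, mulVec_mulVec, hC.eq] at h1
    rw [h1, Complex.ofReal_re]
  set a : Λ → ℂ := C *ᵥ bv with ha
  have haB : nsq a = B := hform bv
  set c : Λ → ℂ := diagonal (fun y : Λ => ((D y : ℝ) : ℂ)) *ᵥ (C *ᵥ a) with hc
  have hbd : bv = diagonal (fun y : Λ => ((D y : ℝ) : ℂ)) *ᵥ w := by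
    funext y
    rw [mulVec_diagonal]
  have hCc : C *ᵥ c = XM C (fun y => D y) *ᵥ a := by
    rw [hc]
    unfold XM
    rw [← mulVec_mulVec, ← mulVec_mulVec]
  have cc := continuous_hatV c
  have hpair : (nsq a : ℂ) = ∫ θ, conj (hatV w θ) * hatV c θ := by
    rw [integral_hatV, ← star_dot_self]
    have h1 : star a ⬝ᵥ a = star w ⬝ᵥ c := by
      conv_lhs => rw [ha]
      rw [star_mulVec, ← dotProduct_mulVec, hC.eq, ← ha, hbd, star_mulVec, ← dotProduct_mulVec, hc]
      congr 2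
      rw [diagonal_conjTranspose]
      congr 1
      funext y
      simp
    rw [h1]
    rfl
  have hle : nsq a ≤ s ^ 2 / 2 * N2 + 1 / (2 * s ^ 2) * nsq (C *ᵥ c) := by
    have h1 : nsq a = ‖∫ θ, conj (hatV w θ) * hatV c θ‖ := by
      rw [← hpair, Complex.norm_real, Real.norm_eq_abs, abs_of_nonneg (nsq_nonneg a)]
    rw [h1, hform c]
    refine (norm_integral_le_integral_norm _).trans ?_
    rw [hN2, ← integral_const_mul, ← integral_const_mul, ← integral_add]
    · apply integral_mono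
      · apply integrable_of_cont
        fun_prop
      · apply integrable_of_cont
        fun_prop
      · intro θ
        have hmp := hmpos θ
        simp only
        rw [norm_mul, RCLike.norm_conj]
        have h2 : s ^ 2 / 2 * (m θ * ‖hatV w θ‖ ^ 2) + 1 / (2 * s ^ 2) *
            ((m θ)⁻¹ * ‖hatV c θ‖ ^ 2) - ‖hatV w θ‖ * ‖hatV c θ‖ =
            (m θ)⁻¹ / (2 * s ^ 2) * (s ^ 2 * m θ * ‖hatV w θ‖ - ‖hatV c θ‖) ^ 2 := by
          field_simp
          ring
        have h3 : 0 ≤ (m θ)⁻¹ / (2 * s ^ 2) *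
            (s ^ 2 * m θ * ‖hatV w θ‖ - ‖hatV c θ‖) ^ 2 := by
          have := inv_pos.2 hmp
          positivity
        linarith
    · apply integrable_of_cont
      fun_prop
    · apply integrable_of_cont
      fun_prop
  have hXa := hX a
  rw [← hCc] at hXa
  have h5 : 1 / (2 * s ^ 2) * nsq (C *ᵥ c) ≤ nsq a / 2 := by
    have h6 : 1 / (2 * s ^ 2) * nsq (C *ᵥ c) ≤ 1 / (2 * s ^ 2) * (s ^ 2 * nsq a) :=
      mul_le_mul_of_nonneg_left hXa (by positivity)
    have h7 : 1 / (2 * s ^ 2) * (s ^ 2 * nsq a) = nsq a / 2 := by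
      field_simp
    linarith only [h6, h7]
  rw [← haB]
  linarith only [hle, h5]

theorem dua : DuaStmt := by
  intro d Λ w D E η τ C hη hτ hC hCK hX
  rcases hτ.eq_or_lt with h0 | h0
  · subst h0
    have key : ∀ s : ℝ, 0 < s → ∫ θ, (md E η θ)⁻¹ * ‖hatV (fun y : Λ => (D y : ℂ) * w y) θ‖ ^ 2 ≤
        s ^ 2 * ∫ θ, md E η θ * ‖hatV w θ‖ ^ 2 := by
      intro s hs
      apply dua_pos w D E η s C hη hs hC hCK
      intro v
      refine (hX v).trans ?_
      have := nsq_nonneg v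
      have h2 : 0 ≤ s ^ 2 * nsq v := by positivity
      have h3 : (0 : ℝ) ^ 2 * nsq v = 0 := by ring
      rw [h3]
      exact h2
    generalize (∫ θ, (md E η θ)⁻¹ * ‖hatV (fun y : Λ => (D y : ℂ) * w y) θ‖ ^ 2) = B at key ⊢
    have hN : 0 ≤ ∫ θ, md E η θ * ‖hatV w θ‖ ^ 2 := by
      apply integral_nonneg
      intro θ
      have := md_pos (E := E) hη θ
      positivity
    generalize (∫ θ, md E η θ * ‖hatV w θ‖ ^ 2) = N at key hN ⊢
    have h1 : B ≤ 0 := by
      by_contra hB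
      push Not at hB
      have hs : 0 < √(B / (2 * (N + 1))) := Real.sqrt_pos.2 (by positivity)
      have h2 := key _ hs
      rw [Real.sq_sqrt (by positivity)] at h2
      have h3 : B / (2 * (N + 1)) * N ≤ B / 2 := by
        rw [div_mul_eq_mul_div, div_le_div_iff₀ (by positivity) (by norm_num)]
        nlinarith only [hB]
      linarith
    have h4 : (0 : ℝ) ^ 2 * N = 0 := by ring
    rw [h4]
    exact h1
  · exact dua_pos w D E η τ C hη h0 hC hCK hX

end Pool.Agent.LE.MN.H63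
end
end -- Pool.Agent.Helper63_LYM.DUA

section -- Pool.Agent.Helper67_LSP.PAI

/-!
# Squad LSP, row PAI (helper67): the pairing with the test multiplier
-/

set_option autoImplicit false

open MeasureTheory Set Real Function

open scoped ENNReal ComplexConjugate BigOperators

noncomputable section

namespace Pool.Agent.LE.CL.H67

open Pool.Agent.Anderson hiding box mem_box card_box
open Pool.Agent.LE.MN

variable {d : ℕ}

/-! ### 1. The equation on the torus -/

theorem lap_lin {C : Finset (Site d)} (ψ : Site d → Site d → ℂ) (v : C → ℂ) (y : Site d) :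
    lap (lin C ψ v) y = ∑ x : C, v x * lap (ψ x) y := by
  unfold lap lin
  simp only [Finset.mul_sum]
  rw [Finset.sum_comm]
  refine Finset.sum_congr rfl fun i _ => ?_
  rw [← Finset.sum_add_distrib]
  exact Finset.sum_congr rfl fun x _ => by ring

theorem lin_zero {C C' : Finset (Site d)} {ψ : Site d → Site d → ℂ}
    (h : ∀ x ∈ C, ∀ y, y ∉ C' → ψ x y = 0) (v : C → ℂ) (y : Site d) (hy : y ∉ C') :
    lin C ψ v y = 0 := by
  unfold lin
  exact Finset.sum_eq_zero fun x _ => by rw [h x x.2 y hy, mul_zero]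

theorem eq_hat {C C' B : Finset (Site d)} {D : Site d → ℝ} {ψ F e : Site d → Site d → ℂ}
    {E η ω ε τ : ℝ} (hS : Sys C C' B D ψ F e E η ω ε τ) (v : C → ℂ)
    (θ : UnitAddTorus (Fin d)) :
    ((sy θ - E : ℝ) : ℂ) * hatS C' (lin C ψ v) θ = hatS B (lin C F v) θ + hatS B (lin C e v) θ -
      hatV v θ - hatS C' (fun y => (D y : ℂ) * lin C ψ v y) θ := by
  classical
  obtain ⟨h1, h2, h3, h4, h5, -⟩ := hS
  have hw := lin_zero h4 v
  have hl := hat_lap hw h3 θ
  have hB := hatS_mono h2 hw θ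
  have hD := hatS_mono h2 (w := fun y => (D y : ℂ) * lin C ψ v y)
    (fun y hy => by rw [hw y hy, mul_zero]) θ
  have hV : hatV v θ = ∑ y ∈ B, (∑ x : C, v x * (if y = (x : Site d) then 1 else 0)) * ch y θ := by
    unfold hatV
    simp only [Finset.sum_mul]
    rw [Finset.sum_comm]
    refine Finset.sum_congr rfl fun x _ => ?_
    rw [Finset.sum_eq_single_of_mem (x : Site d) (h2 (h1 x.2))]
    · rw [if_pos rfl, mul_one]
    · intro y _ hy
      rw [if_neg hy, mul_zero, zero_mul]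
  have hpt : ∀ y, lap (lin C ψ v) y + (D y : ℂ) * lin C ψ v y - (E : ℂ) * lin C ψ v y =
      lin C F v y + lin C e v y - ∑ x : C, v x * (if y = (x : Site d) then 1 else 0) := by
    intro y
    rw [lap_lin]
    unfold lin
    rw [Finset.mul_sum, Finset.mul_sum, ← Finset.sum_add_distrib, ← Finset.sum_sub_distrib,
      ← Finset.sum_add_distrib, ← Finset.sum_sub_distrib]
    refine Finset.sum_congr rfl fun x _ => ?_
    have h6 := h5 x x.2 y
    linear_combination v x * h6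
  have hsum : hatS B (lap (lin C ψ v)) θ + hatS B (fun y => (D y : ℂ) * lin C ψ v y) θ -
      (E : ℂ) * hatS B (lin C ψ v) θ =
      hatS B (lin C F v) θ + hatS B (lin C e v) θ - hatV v θ := by
    rw [hV]
    unfold hatS
    rw [Finset.mul_sum, ← Finset.sum_add_distrib, ← Finset.sum_sub_distrib,
      ← Finset.sum_add_distrib, ← Finset.sum_sub_distrib]
    refine Finset.sum_congr rfl fun y _ => ?_
    linear_combination ch y θ * hpt y
  rw [hl, hB, hD] at hsum
  push_cast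
  linear_combination hsum

/-! ### 2. Bessel -/

theorem bes_hat {C : Finset (Site d)} {v : C → C → ℂ} (hv : Bes C v)
    (θ : UnitAddTorus (Fin d)) : ∑ k, ‖hatV (v k) θ‖ ^ 2 ≤ C.card := by
  have h1 := hv (fun x => ch (x : Site d) θ)
  have h2 : ∑ x : C, ‖ch (x : Site d) θ‖ ^ 2 = C.card := by
    simp only [norm_ch, one_pow, Finset.sum_const, Finset.card_univ, Fintype.card_coe,
      nsmul_eq_mul, mul_one]
  rw [h2] at h1
  refine le_trans (le_of_eq (Finset.sum_congr rfl fun k _ => ?_)) h1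
  unfold hatV
  congr 2
  exact Finset.sum_congr rfl fun x _ => mul_comm _ _

theorem bes_lin {C : Finset (Site d)} {v : C → C → ℂ} (hv : Bes C v)
    (e : Site d → Site d → ℂ) (y : Site d) :
    ∑ k, ‖lin C e (v k) y‖ ^ 2 ≤ ∑ x : C, ‖e x y‖ ^ 2 := by
  refine le_trans (le_of_eq (Finset.sum_congr rfl fun k _ => ?_)) (hv (fun x => e x y))
  unfold lin
  congr 2
  exact Finset.sum_congr rfl fun x _ => mul_comm _ _

theorem err_e {C B : Finset (Site d)} {v : C → C → ℂ} (hv : Bes C v)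
    (e : Site d → Site d → ℂ) {ε : ℝ} (he : ∀ x ∈ C, ∑ y ∈ B, ‖e x y‖ ^ 2 ≤ ε) :
    ∑ k, ∑ y ∈ B, ‖lin C e (v k) y‖ ^ 2 ≤ C.card * ε := by
  rw [Finset.sum_comm]
  refine le_trans (Finset.sum_le_sum fun y _ => bes_lin hv e y) ?_
  rw [Finset.sum_comm]
  refine le_trans (Finset.sum_le_sum fun x _ => he x x.2) ?_
  rw [Finset.sum_const, Finset.card_univ, Fintype.card_coe, nsmul_eq_mul]

/-! ### 3. Integrals -/

theorem int_c {q : UnitAddTorus (Fin d) → ℝ} (hq : Measurable q) {K : ℝ} (hK : ∀ θ, |q θ| ≤ K)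
    {f : UnitAddTorus (Fin d) → ℂ} (hf : Continuous f) :
    Integrable (fun θ => (q θ : ℂ) * f θ) :=
  (integrable_of_cont hf).bdd_mul (c := K)
    (Complex.measurable_ofReal.comp hq).aestronglyMeasurable
    (Filter.Eventually.of_forall fun θ => by
      rw [Complex.norm_real, Real.norm_eq_abs]
      exact hK θ)

theorem int_r {q : UnitAddTorus (Fin d) → ℝ} (hq : Measurable q) {K : ℝ} (hK : ∀ θ, |q θ| ≤ K)
    {f : UnitAddTorus (Fin d) → ℝ} (hf : Continuous f) :
    Integrable (fun θ => q θ * f θ) :=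
  (integrable_of_cont hf).bdd_mul (c := K) hq.aestronglyMeasurable
    (Filter.Eventually.of_forall fun θ => by
      rw [Real.norm_eq_abs]
      exact hK θ)

/-- the pairing in terms of the kernel -/
theorem pair_ker {C C' : Finset (Site d)} {p : UnitAddTorus (Fin d) → ℝ} (hp : Measurable p)
    {K : ℝ} (hK : ∀ θ, |p θ| ≤ K) (g : Site d → ℂ) (v : C → ℂ) :
    ∫ θ, (p θ : ℂ) * (hatS C' g θ * conj (hatV v θ)) =
      ∑ y ∈ C', g y * ∑ x : C, conj (v x) * ∫ θ, (p θ : ℂ) * ch (y - (x : Site d)) θ := by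
  have h1 : ∀ θ, (p θ : ℂ) * (hatS C' g θ * conj (hatV v θ)) =
      ∑ y ∈ C', ∑ x : C, (g y * conj (v x)) * ((p θ : ℂ) * ch (y - (x : Site d)) θ) := by
    intro θ
    unfold hatS hatV
    rw [map_sum, Finset.sum_mul_sum, Finset.mul_sum]
    refine Finset.sum_congr rfl fun y _ => ?_
    rw [Finset.mul_sum]
    refine Finset.sum_congr rfl fun x _ => ?_
    rw [map_mul, sub_eq_add_neg, ch_add, ch_neg]
    ring
  have hi : ∀ (y : Site d) (x : C), Integrable (fun θ => (g y * conj (v x)) *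
      ((p θ : ℂ) * ch (y - (x : Site d)) θ)) := fun y x =>
    (int_c hp hK (continuous_ch _)).const_mul _
  simp only [h1]
  rw [integral_finsetSum _ (fun y _ => integrable_finsetSum _ fun x _ => hi y x)]
  refine Finset.sum_congr rfl fun y _ => ?_
  rw [integral_finsetSum _ (fun x _ => hi y x), Finset.mul_sum]
  refine Finset.sum_congr rfl fun x _ => ?_
  rw [integral_const_mul]
  ring

/-- the upper bound for the pairing -/
theorem pair_le {C C' : Finset (Site d)} {v : C → C → ℂ} (hv : Bes C v)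
    {p : UnitAddTorus (Fin d) → ℝ} (hp : Measurable p)
    {K : ℝ} (hK : ∀ θ, |p θ| ≤ K) {κ : ℝ}
    (hκ : ∀ y : Site d, ‖∫ θ, (p θ : ℂ) * ch y θ‖ ≤ κ) (g : C → Site d → ℂ) {t : ℝ} (ht : 0 < t) :
    ∑ k : C, ‖∫ θ, (p θ : ℂ) * (hatS C' (g k) θ * conj (hatV (v k) θ))‖ ≤
      t / 2 * ∑ k : C, ∑ y ∈ C', ‖g k y‖ ^ 2 + 1 / (2 * t) * (C'.card * (C.card * κ ^ 2)) := by
  have hκ0 : 0 ≤ κ := le_trans (norm_nonneg _) (hκ 0)
  set h : C → Site d → ℂ := fun k y =>
    ∑ x : C, conj (v k x) * ∫ θ, (p θ : ℂ) * ch (y - (x : Site d)) θ with hh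
  have h1 : ∀ k : C, ‖∫ θ, (p θ : ℂ) * (hatS C' (g k) θ * conj (hatV (v k) θ))‖ ≤
      t / 2 * ∑ y ∈ C', ‖g k y‖ ^ 2 + 1 / (2 * t) * ∑ y ∈ C', ‖h k y‖ ^ 2 := by
    intro k
    rw [pair_ker hp hK]
    refine le_trans (norm_sum_le _ _) ?_
    rw [Finset.mul_sum, Finset.mul_sum, ← Finset.sum_add_distrib]
    refine Finset.sum_le_sum fun y _ => ?_
    rw [norm_mul]
    change ‖g k y‖ * ‖h k y‖ ≤ _
    have h2 : t / 2 * ‖g k y‖ ^ 2 + 1 / (2 * t) * ‖h k y‖ ^ 2 - ‖g k y‖ * ‖h k y‖ =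
        1 / (2 * t) * (t * ‖g k y‖ - ‖h k y‖) ^ 2 := by
      field_simp
      ring
    have h3 : 0 ≤ 1 / (2 * t) * (t * ‖g k y‖ - ‖h k y‖) ^ 2 := by positivity
    linarith
  have h4 : ∀ y, ∑ k : C, ‖h k y‖ ^ 2 ≤ C.card * κ ^ 2 := by
    intro y
    have h5 := hv (fun x : C => conj (∫ θ, (p θ : ℂ) * ch (y - (x : Site d)) θ))
    have h6 : ∀ k : C, ‖h k y‖ =
        ‖∑ x : C, conj (∫ θ, (p θ : ℂ) * ch (y - (x : Site d)) θ) * v k x‖ := by
      intro k
      rw [← Complex.norm_conj]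
      congr 1
      rw [hh]
      beta_reduce
      rw [map_sum]
      exact Finset.sum_congr rfl fun x _ => by rw [map_mul, Complex.conj_conj, mul_comm]
    simp only [h6]
    refine le_trans h5 ?_
    have h7 : ∀ x : C, ‖conj (∫ θ, (p θ : ℂ) * ch (y - (x : Site d)) θ)‖ ^ 2 ≤ κ ^ 2 := by
      intro x
      rw [Complex.norm_conj]
      exact pow_le_pow_left₀ (norm_nonneg _) (hκ _) 2
    refine le_trans (Finset.sum_le_sum fun x _ => h7 x) ?_
    rw [Finset.sum_const, Finset.card_univ, Fintype.card_coe, nsmul_eq_mul]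
  refine le_trans (Finset.sum_le_sum fun k _ => h1 k) ?_
  rw [Finset.sum_add_distrib, ← Finset.mul_sum, ← Finset.mul_sum]
  have h8 : ∑ k : C, ∑ y ∈ C', ‖h k y‖ ^ 2 ≤ C'.card * (C.card * κ ^ 2) := by
    rw [Finset.sum_comm]
    refine le_trans (Finset.sum_le_sum fun y _ => h4 y) ?_
    rw [Finset.sum_const, nsmul_eq_mul]
  have h9 : 0 ≤ 1 / (2 * t) := by positivity
  have h10 := mul_le_mul_of_nonneg_left h8 h9
  linarith only [h10]

/-! ### 4. The errors -/

theorem md_le (E : ℝ) {η : ℝ} (hη : 0 < η) (θ : UnitAddTorus (Fin d)) :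
    md E η θ ≤ |sy θ - E| + η := by
  unfold md
  apply Real.sqrt_le_iff.2
  have h1 := sq_abs (sy θ - E)
  have h2 := abs_nonneg (sy θ - E)
  refine ⟨by positivity, ?_⟩
  nlinarith only [hη, h1, h2]

theorem one_k {C C' B : Finset (Site d)} {D : Site d → ℝ} {ψ F e : Site d → Site d → ℂ}
    {E η ω ε τ : ℝ} (hS : Sys C C' B D ψ F e E η ω ε τ) (hη : 0 < η)
    {q : UnitAddTorus (Fin d) → ℝ} (hq : Measurable q) {K : ℝ} (hK : ∀ θ, |q θ| ≤ K)
    {s : ℝ} (hs : 0 < s) (v : C → ℂ) :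
    ‖(∫ θ, ((q θ * (sy θ - E) : ℝ) : ℂ) * (hatS C' (lin C ψ v) θ * conj (hatV v θ))) +
        ((∫ θ, q θ * ‖hatV v θ‖ ^ 2 : ℝ) : ℂ)‖ ≤
      1 / (2 * η) * (∫ θ, ‖hatS B (lin C F v) θ‖ ^ 2) +
        1 / (2 * η) * (∫ θ, ‖hatS B (lin C e v) θ‖ ^ 2) +
        1 / (2 * s) * (∫ θ, (md E η θ)⁻¹ *
          ‖hatS C' (fun y => (D y : ℂ) * lin C ψ v y) θ‖ ^ 2) +
        ∫ θ, q θ ^ 2 * ((η + s / 2 * md E η θ) * ‖hatV v θ‖ ^ 2) := by
  have cG := continuous_hatS C' (lin C ψ v)
  have cV := continuous_hatV v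
  have cF := continuous_hatS B (lin C F v)
  have ce := continuous_hatS B (lin C e v)
  have cD := continuous_hatS C' (fun y => (D y : ℂ) * lin C ψ v y)
  have cs := continuous_sy (d := d)
  have cm := continuous_md (d := d) E η
  have cmi : Continuous fun θ : UnitAddTorus (Fin d) => (md E η θ)⁻¹ :=
    cm.inv₀ (fun θ => (md_pos hη θ).ne')
  have hq2 : Measurable fun θ => q θ ^ 2 := hq.pow_const 2
  have hK2 : ∀ θ, |q θ ^ 2| ≤ K ^ 2 := fun θ => by
    rw [abs_pow]
    exact pow_le_pow_left₀ (abs_nonneg _) (hK θ) 2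
  have hi1 : Integrable (fun θ => ((q θ * (sy θ - E) : ℝ) : ℂ) *
      (hatS C' (lin C ψ v) θ * conj (hatV v θ))) := by
    have h1 : (fun θ => ((q θ * (sy θ - E) : ℝ) : ℂ) *
        (hatS C' (lin C ψ v) θ * conj (hatV v θ))) = fun θ => (q θ : ℂ) *
        (((sy θ - E : ℝ) : ℂ) * (hatS C' (lin C ψ v) θ * conj (hatV v θ))) := by
      funext θ
      push_cast
      ring
    rw [h1]
    apply int_c hq hK
    fun_prop
  have hi2 : Integrable (fun θ => ((q θ * ‖hatV v θ‖ ^ 2 : ℝ) : ℂ)) := by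
    have h1 : (fun θ => ((q θ * ‖hatV v θ‖ ^ 2 : ℝ) : ℂ)) = fun θ => (q θ : ℂ) *
        ((‖hatV v θ‖ ^ 2 : ℝ) : ℂ) := by
      funext θ
      push_cast
      ring
    rw [h1]
    apply int_c hq hK
    fun_prop
  rw [← integral_complex_ofReal, ← integral_add hi1 hi2]
  have hj1 : Integrable (fun θ => 1 / (2 * η) * ‖hatS B (lin C F v) θ‖ ^ 2) := by
    apply integrable_of_cont
    fun_prop
  have hj2 : Integrable (fun θ => 1 / (2 * η) * ‖hatS B (lin C e v) θ‖ ^ 2) := by
    apply integrable_of_cont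
    fun_prop
  have hj3 : Integrable (fun θ => 1 / (2 * s) * ((md E η θ)⁻¹ *
      ‖hatS C' (fun y => (D y : ℂ) * lin C ψ v y) θ‖ ^ 2)) := by
    apply integrable_of_cont
    fun_prop
  have hj4 : Integrable (fun θ => q θ ^ 2 * ((η + s / 2 * md E η θ) * ‖hatV v θ‖ ^ 2)) := by
    apply int_r hq2 hK2
    fun_prop
  have hj12 : Integrable (fun θ => 1 / (2 * η) * ‖hatS B (lin C F v) θ‖ ^ 2 +
      1 / (2 * η) * ‖hatS B (lin C e v) θ‖ ^ 2) := hj1.add hj2
  have hj123 : Integrable (fun θ => 1 / (2 * η) * ‖hatS B (lin C F v) θ‖ ^ 2 +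
      1 / (2 * η) * ‖hatS B (lin C e v) θ‖ ^ 2 + 1 / (2 * s) * ((md E η θ)⁻¹ *
      ‖hatS C' (fun y => (D y : ℂ) * lin C ψ v y) θ‖ ^ 2)) := hj12.add hj3
  rw [← integral_const_mul, ← integral_const_mul, ← integral_const_mul, ← integral_add hj1 hj2,
    ← integral_add hj12 hj3, ← integral_add hj123 hj4]
  refine norm_integral_le_of_norm_le (hj123.add hj4)
    (Filter.Eventually.of_forall fun θ => ?_)
  have hm := md_pos (E := E) hη θ
  have hVV : ((‖hatV v θ‖ ^ 2 : ℝ) : ℂ) = hatV v θ * conj (hatV v θ) := by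
    rw [Complex.mul_conj, Complex.normSq_eq_norm_sq]
  have heq : ((q θ * (sy θ - E) : ℝ) : ℂ) * (hatS C' (lin C ψ v) θ * conj (hatV v θ)) +
      ((q θ * ‖hatV v θ‖ ^ 2 : ℝ) : ℂ) = (q θ : ℂ) * (hatS B (lin C F v) θ +
        hatS B (lin C e v) θ - hatS C' (fun y => (D y : ℂ) * lin C ψ v y) θ) *
        conj (hatV v θ) := by
    have h1 := eq_hat hS v θ
    rw [Complex.ofReal_mul, Complex.ofReal_mul (q θ), hVV]
    linear_combination (q θ : ℂ) * conj (hatV v θ) * h1
  rw [heq, norm_mul, norm_mul, Complex.norm_real, Real.norm_eq_abs, Complex.norm_conj]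
  set a := ‖hatS B (lin C F v) θ‖ with ha
  set b := ‖hatS B (lin C e v) θ‖ with hb
  set c := ‖hatS C' (fun y => (D y : ℂ) * lin C ψ v y) θ‖ with hc
  set w := ‖hatV v θ‖ with hw
  set m := md E η θ with hmd
  have hn : ‖hatS B (lin C F v) θ + hatS B (lin C e v) θ -
      hatS C' (fun y => (D y : ℂ) * lin C ψ v y) θ‖ ≤ a + b + c :=
    (norm_sub_le _ _).trans (add_le_add_left (norm_add_le _ _) _)
  have hw0 : 0 ≤ w := norm_nonneg _
  have h1 : |q θ| * ‖hatS B (lin C F v) θ + hatS B (lin C e v) θ -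
      hatS C' (fun y => (D y : ℂ) * lin C ψ v y) θ‖ * w ≤ |q θ| * (a + b + c) * w :=
    mul_le_mul_of_nonneg_right (mul_le_mul_of_nonneg_left hn (abs_nonneg _)) hw0
  have hqq : q θ ^ 2 = |q θ| ^ 2 := (sq_abs _).symm
  rw [hqq]
  set Q := |q θ| with hQ
  have e1 : 0 ≤ 1 / (2 * η) * (a - η * (Q * w)) ^ 2 := by positivity
  have e2 : 0 ≤ 1 / (2 * η) * (b - η * (Q * w)) ^ 2 := by positivity
  have e3 : 0 ≤ 1 / (2 * s) * (m⁻¹ * (c - s * m * (Q * w)) ^ 2) := by positivity
  have e1' : 1 / (2 * η) * (a - η * (Q * w)) ^ 2 = 1 / (2 * η) * a ^ 2 - Q * a * w +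
      η / 2 * (Q ^ 2 * w ^ 2) := by
    field_simp
    ring
  have e2' : 1 / (2 * η) * (b - η * (Q * w)) ^ 2 = 1 / (2 * η) * b ^ 2 - Q * b * w +
      η / 2 * (Q ^ 2 * w ^ 2) := by
    field_simp
    ring
  have e3' : 1 / (2 * s) * (m⁻¹ * (c - s * m * (Q * w)) ^ 2) =
      1 / (2 * s) * (m⁻¹ * c ^ 2) - Q * c * w + s / 2 * m * (Q ^ 2 * w ^ 2) := by
    field_simp
    ring
  rw [e1'] at e1
  rw [e2'] at e2
  rw [e3'] at e3
  refine le_trans h1 ?_
  nlinarith only [e1, e2, e3]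

/-- the sum of the errors -/
theorem all_k {C C' B : Finset (Site d)} {D : Site d → ℝ} {ψ F e : Site d → Site d → ℂ}
    {E η ω ε τ : ℝ} (hS : Sys C C' B D ψ F e E η ω ε τ) (hη : 0 < η)
    {q : UnitAddTorus (Fin d) → ℝ} (hq : Measurable q) {K : ℝ} (hK : ∀ θ, |q θ| ≤ K)
    {s : ℝ} (hs : 0 < s) {v : C → C → ℂ} (hv : Bes C v) {Q2 QX a2 Y2 : ℝ}
    (h2 : ∫ θ, q θ ^ 2 ≤ Q2) (hX : ∫ θ, q θ ^ 2 * |sy θ - E| ≤ QX)
    (ha : ∑ k, ∑ y ∈ C', ‖lin C ψ (v k) y‖ ^ 2 ≤ a2)
    (hY : ∑ k, ∫ θ, md E η θ * ‖hatS C' (lin C ψ (v k)) θ‖ ^ 2 ≤ Y2) :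
    ∑ k : C, ‖(∫ θ, ((q θ * (sy θ - E) : ℝ) : ℂ) *
        (hatS C' (lin C ψ (v k)) θ * conj (hatV (v k) θ))) +
        ((∫ θ, q θ * ‖hatV (v k) θ‖ ^ 2 : ℝ) : ℂ)‖ ≤
      1 / (2 * η) * (ω ^ 2 * a2) + 1 / (2 * η) * (C.card * ε) + 1 / (2 * s) * (τ ^ 2 * Y2) +
        C.card * (η * Q2 + s / 2 * (QX + η * Q2)) := by
  have hS' := hS
  obtain ⟨g1, g2, g3, g4, g5, g6, g7, g8, g9⟩ := hS'
  refine le_trans (Finset.sum_le_sum fun k _ => one_k hS hη hq hK hs (v k)) ?_
  rw [Finset.sum_add_distrib, Finset.sum_add_distrib, Finset.sum_add_distrib, ← Finset.mul_sum,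
    ← Finset.mul_sum, ← Finset.mul_sum]
  have i1 : 0 ≤ 1 / (2 * η) := by positivity
  have i2 : 0 ≤ 1 / (2 * s) := by positivity
  -- F
  have t1 : ∑ k : C, ∫ θ, ‖hatS B (lin C F (v k)) θ‖ ^ 2 ≤ ω ^ 2 * a2 := by
    simp only [parsevalS]
    refine le_trans (Finset.sum_le_sum fun k _ => g7 (v k)) ?_
    rw [← Finset.mul_sum]
    exact mul_le_mul_of_nonneg_left ha (sq_nonneg _)
  -- e
  have t2 : ∑ k : C, ∫ θ, ‖hatS B (lin C e (v k)) θ‖ ^ 2 ≤ C.card * ε := by
    simp only [parsevalS]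
    exact err_e hv e g8
  -- D
  have t3 : ∑ k : C, ∫ θ, (md E η θ)⁻¹ *
      ‖hatS C' (fun y => (D y : ℂ) * lin C ψ (v k) y) θ‖ ^ 2 ≤ τ ^ 2 * Y2 := by
    refine le_trans (Finset.sum_le_sum fun k _ => g9 (lin C ψ (v k)) (lin_zero g4 (v k))) ?_
    rw [← Finset.mul_sum]
    exact mul_le_mul_of_nonneg_left hY (sq_nonneg _)
  -- the pointwise Bessel inequality
  have t4 : ∑ k : C, ∫ θ, q θ ^ 2 * ((η + s / 2 * md E η θ) * ‖hatV (v k) θ‖ ^ 2) ≤
      C.card * (η * Q2 + s / 2 * (QX + η * Q2)) := by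
    have hq2 : Measurable fun θ => q θ ^ 2 := hq.pow_const 2
    have hK2 : ∀ θ, |q θ ^ 2| ≤ K ^ 2 := fun θ => by
      rw [abs_pow]
      exact pow_le_pow_left₀ (abs_nonneg _) (hK θ) 2
    have cs := continuous_sy (d := d)
    have cm := continuous_md (d := d) E η
    have hi : ∀ k : C, Integrable
        (fun θ => q θ ^ 2 * ((η + s / 2 * md E η θ) * ‖hatV (v k) θ‖ ^ 2)) := by
      intro k
      have cV := continuous_hatV (v k)
      apply int_r hq2 hK2
      fun_prop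
    rw [← integral_finsetSum _ (fun k _ => hi k)]
    have hj0 : Integrable (fun θ => q θ ^ 2) := by
      have h := int_r hq2 hK2 (continuous_const (y := (1 : ℝ)))
      simpa using h
    have hj1 : Integrable (fun θ => q θ ^ 2 * |sy θ - E|) := by
      apply int_r hq2 hK2
      fun_prop
    have hN : (0 : ℝ) ≤ C.card := Nat.cast_nonneg _
    have hle : ∫ θ, ∑ k : C, q θ ^ 2 * ((η + s / 2 * md E η θ) * ‖hatV (v k) θ‖ ^ 2) ≤
        ∫ θ, (C.card : ℝ) * ((η + s / 2 * η) * q θ ^ 2 + s / 2 * (q θ ^ 2 * |sy θ - E|)) := by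
      refine integral_mono (integrable_finsetSum _ fun k _ => hi k)
        (((hj0.const_mul _).add (hj1.const_mul _)).const_mul _) fun θ => ?_
      have h5 := bes_hat hv θ
      have h6 := md_le E hη θ
      have h7 := md_pos (E := E) hη θ
      have h8 : ∑ k : C, q θ ^ 2 * ((η + s / 2 * md E η θ) * ‖hatV (v k) θ‖ ^ 2) =
          q θ ^ 2 * (η + s / 2 * md E η θ) * ∑ k : C, ‖hatV (v k) θ‖ ^ 2 := by
        rw [Finset.mul_sum]
        exact Finset.sum_congr rfl fun k _ => by ring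
      beta_reduce
      rw [h8]
      have h9 : q θ ^ 2 * (η + s / 2 * md E η θ) * ∑ k : C, ‖hatV (v k) θ‖ ^ 2 ≤
          q θ ^ 2 * (η + s / 2 * md E η θ) * C.card :=
        mul_le_mul_of_nonneg_left h5 (by positivity)
      have h10 : q θ ^ 2 * (η + s / 2 * md E η θ) * (C.card : ℝ) ≤
          q θ ^ 2 * (η + s / 2 * (|sy θ - E| + η)) * C.card := by
        apply mul_le_mul_of_nonneg_right _ hN
        apply mul_le_mul_of_nonneg_left _ (sq_nonneg _)
        have := mul_le_mul_of_nonneg_left h6 (by positivity : 0 ≤ s / 2)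
        linarith only [this]
      refine h9.trans (h10.trans (le_of_eq ?_))
      ring
    refine hle.trans ?_
    rw [integral_const_mul, integral_add (hj0.const_mul _) (hj1.const_mul _), integral_const_mul,
      integral_const_mul]
    apply mul_le_mul_of_nonneg_left _ hN
    have k1 := mul_le_mul_of_nonneg_left h2 (by positivity : 0 ≤ η + s / 2 * η)
    have k2 := mul_le_mul_of_nonneg_left hX (by positivity : 0 ≤ s / 2)
    refine (add_le_add k1 k2).trans (le_of_eq ?_)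
    ring
  exact add_le_add (add_le_add (add_le_add (mul_le_mul_of_nonneg_left t1 i1)
    (mul_le_mul_of_nonneg_left t2 i1)) (mul_le_mul_of_nonneg_left t3 i2)) t4

/-! ### 5. The theorem -/

/-- the numbers for the errors -/
theorem num_err {C₂ CT cT c s η T ω ε τ L N K : ℝ} (hC₂ : 1 ≤ C₂) (hCT : 1 ≤ CT) (hc : 0 < c)
    (hc1 : c ≤ 1) (hs0 : 0 < s) (hs1 : s ≤ 1) (hss : s ^ 2 = c) (hη : 0 < η) (hω : 0 ≤ ω)
    (hωc : ω ≤ c * η) (hεc : ε ≤ c * η) (hτc : τ ^ 2 * L ≤ c) (hηT : η * T ≤ CT * c)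
    (hN : 0 < N) (hK : K = C₂ + 1 / 2 + 2 * CT ^ 2) (hsK : K * s ≤ cT / 4) :
    1 / (2 * η) * (ω ^ 2 * (C₂ * N / η)) + 1 / (2 * η) * (N * ε) +
      1 / (2 * s) * (τ ^ 2 * (C₂ * N * L)) +
        N * (η * (CT * T) + s / 2 * (CT + η * (CT * T))) ≤ cT / 4 * N := by
  have hcs : c ≤ s := by
    rw [← hss]
    calc s ^ 2 = s * s := by ring
      _ ≤ s * 1 := mul_le_mul_of_nonneg_left hs1 hs0.le
      _ = s := mul_one s
  have hcc : c ^ 2 ≤ s := by
    calc c ^ 2 = c * c := by ring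
      _ ≤ c * 1 := mul_le_mul_of_nonneg_left hc1 hc.le
      _ = c := mul_one c
      _ ≤ s := hcs
  have b1 : 1 / (2 * η) * (ω ^ 2 * (C₂ * N / η)) ≤ C₂ / 2 * s * N := by
    have h1 : ω ^ 2 ≤ (c * η) ^ 2 := pow_le_pow_left₀ hω hωc 2
    calc 1 / (2 * η) * (ω ^ 2 * (C₂ * N / η))
        ≤ 1 / (2 * η) * ((c * η) ^ 2 * (C₂ * N / η)) := by gcongr
      _ = C₂ / 2 * c ^ 2 * N := by field_simp
      _ ≤ C₂ / 2 * s * N := by gcongr
  have b2 : 1 / (2 * η) * (N * ε) ≤ 1 / 2 * s * N := by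
    calc 1 / (2 * η) * (N * ε) ≤ 1 / (2 * η) * (N * (c * η)) := by gcongr
      _ = 1 / 2 * c * N := by field_simp
      _ ≤ 1 / 2 * s * N := by gcongr
  have b3 : 1 / (2 * s) * (τ ^ 2 * (C₂ * N * L)) ≤ C₂ / 2 * s * N := by
    calc 1 / (2 * s) * (τ ^ 2 * (C₂ * N * L)) = 1 / (2 * s) * (C₂ * N * (τ ^ 2 * L)) := by ring
      _ ≤ 1 / (2 * s) * (C₂ * N * c) := by gcongr
      _ = 1 / (2 * s) * (C₂ * N * s ^ 2) := by rw [hss]
      _ = C₂ / 2 * s * N := by field_simp
  have h1 : η * (CT * T) ≤ CT ^ 2 * c := by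
    calc η * (CT * T) = CT * (η * T) := by ring
      _ ≤ CT * (CT * c) := mul_le_mul_of_nonneg_left hηT (by linarith only [hCT])
      _ = CT ^ 2 * c := by ring
  have h2 : CT ^ 2 * c ≤ CT ^ 2 := by
    calc CT ^ 2 * c ≤ CT ^ 2 * 1 := mul_le_mul_of_nonneg_left hc1 (sq_nonneg _)
      _ = CT ^ 2 := mul_one _
  have h3 : CT ≤ CT ^ 2 := by
    calc CT = CT * 1 := (mul_one _).symm
      _ ≤ CT * CT := mul_le_mul_of_nonneg_left hCT (by linarith only [hCT])
      _ = CT ^ 2 := by ring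
  have h5 : s / 2 * (CT + η * (CT * T)) ≤ s / 2 * (CT ^ 2 + CT ^ 2) :=
    mul_le_mul_of_nonneg_left (add_le_add h3 (h1.trans h2)) (by positivity)
  have h6 : CT ^ 2 * c ≤ CT ^ 2 * s := mul_le_mul_of_nonneg_left hcs (by positivity)
  have h7 : s / 2 * (CT ^ 2 + CT ^ 2) = CT ^ 2 * s := by ring
  have h4 : η * (CT * T) + s / 2 * (CT + η * (CT * T)) ≤ 2 * CT ^ 2 * s := by
    rw [h7] at h5
    linarith only [h1, h5, h6]
  have b4 := mul_le_mul_of_nonneg_left h4 hN.le
  have b5 : K * s * N ≤ cT / 4 * N := mul_le_mul_of_nonneg_right hsK hN.le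
  have b6 : K * s * N = C₂ / 2 * s * N + 1 / 2 * s * N + C₂ / 2 * s * N +
      N * (2 * CT ^ 2 * s) := by
    rw [hK]
    ring
  linarith only [b1, b2, b3, b4, b5, b6]

/-- the numbers at the end -/
theorem num_fin {d : ℕ} {C₂ CT cT c η T N n t : ℝ} (hC₂ : 1 ≤ C₂) (hCT : 1 ≤ CT) (hcT : 0 < cT)
    (hc : 0 < c) (hη : 0 < η) (hN : 0 < N) (hT1 : c / η ≤ T)
    (ht : t = cT * η / (4 * C₂))
    (h : cT / 4 * N ≤ t / 2 * (C₂ * N / η) +
      1 / (2 * t) * (n * (N * (CT * T ^ (-(((d : ℝ) + 1) / 2))) ^ 2))) :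
    cT ^ 2 * c ^ (d + 1) / (16 * C₂ * CT ^ 2) * η ^ (-(d : ℝ)) ≤ n := by
  have hT0 : 0 < T := lt_of_lt_of_le (by positivity) hT1
  have hpow : (T ^ (-(((d : ℝ) + 1) / 2))) ^ 2 = (T ^ (d + 1))⁻¹ := by
    rw [← Real.rpow_natCast, ← Real.rpow_mul hT0.le, ← Real.rpow_natCast T (d + 1),
      ← Real.rpow_neg hT0.le]
    congr 1
    push_cast
    ring
  rw [mul_pow, hpow] at h
  have hCT0 : 0 < CT := by linarith only [hCT]
  have hC₂0 : 0 < C₂ := by linarith only [hC₂]
  have h8 : t / 2 * (C₂ * N / η) = cT / 8 * N := by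
    rw [ht]
    field_simp
    ring
  rw [h8] at h
  have h9 : 1 / (2 * t) * (n * (N * (CT ^ 2 * (T ^ (d + 1))⁻¹))) =
      (2 * C₂ * CT ^ 2 / (cT * (η * T ^ (d + 1))) * n) * N := by
    rw [ht]
    field_simp
    ring
  rw [h9] at h
  have h10 : cT / 8 ≤ 2 * C₂ * CT ^ 2 / (cT * (η * T ^ (d + 1))) * n := by
    have h11 : cT / 8 * N ≤ (2 * C₂ * CT ^ 2 / (cT * (η * T ^ (d + 1))) * n) * N := by linarith only [h]
    exact le_of_mul_le_mul_right h11 hN
  have h12 : (c / η) ^ (d + 1) ≤ T ^ (d + 1) := pow_le_pow_left₀ (by positivity) hT1 _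
  have h13 : η ^ (-(d : ℝ)) = (η ^ d)⁻¹ := by
    rw [Real.rpow_neg hη.le, Real.rpow_natCast]
  rw [h13]
  have h14 : cT ^ 2 * (η * T ^ (d + 1)) ≤ 16 * C₂ * CT ^ 2 * n := by
    have h15 : 0 < cT * (η * T ^ (d + 1)) := by positivity
    have h16 := mul_le_mul_of_nonneg_right h10 h15.le
    have h17 : 2 * C₂ * CT ^ 2 / (cT * (η * T ^ (d + 1))) * n *
        (cT * (η * T ^ (d + 1))) = 2 * C₂ * CT ^ 2 * n := by
      field_simp
    rw [h17] at h16
    have h20 : cT / 8 * (cT * (η * T ^ (d + 1))) = cT ^ 2 * (η * T ^ (d + 1)) / 8 := by ring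
    rw [h20] at h16
    linarith only [h16]
  have h18 : cT ^ 2 * (η * (c / η) ^ (d + 1)) ≤ 16 * C₂ * CT ^ 2 * n := by
    refine le_trans ?_ h14
    gcongr
  have h19 : cT ^ 2 * c ^ (d + 1) / (16 * C₂ * CT ^ 2) * (η ^ d)⁻¹ =
      cT ^ 2 * (η * (c / η) ^ (d + 1)) / (16 * C₂ * CT ^ 2) := by
    rw [div_pow, pow_succ η d]
    field_simp
  rw [h19, div_le_iff₀ (by positivity)]
  linarith only [h18]

theorem pai : PaiStmt := by
  intro d cT CT C₂ hd hcT hCT hC₂
  set K : ℝ := C₂ + 1 / 2 + 2 * CT ^ 2 with hKdef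
  have hKpos : 0 < K := by positivity
  refine ⟨min 1 ((cT / (4 * K)) ^ 2), by positivity, fun c hc hc0 => ?_⟩
  refine ⟨cT ^ 2 * c ^ (d + 1) / (16 * C₂ * CT ^ 2), by positivity, ?_⟩
  intro C C' B D ψ F e E η ω ε τ T q v hη hη1 hω hωc hεc hτ hτc hT1 hT2 hCne hS hq hv ha hY hR
  obtain ⟨q1, q2, q3, q4, q5, q6⟩ := hq
  have hc1 : c ≤ 1 := hc0.trans (min_le_left _ _)
  have hc2 : c ≤ (cT / (4 * K)) ^ 2 := hc0.trans (min_le_right _ _)
  have hs0 : 0 < √c := Real.sqrt_pos.2 hc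
  have hs1 : √c ≤ 1 := Real.sqrt_le_one.2 hc1
  have hsK : K * √c ≤ cT / 4 := by
    have h1 : √c ≤ cT / (4 * K) := Real.sqrt_le_iff.2 ⟨by positivity, hc2⟩
    calc K * √c ≤ K * (cT / (4 * K)) := mul_le_mul_of_nonneg_left h1 hKpos.le
      _ = cT / 4 := by field_simp
  have hN : (0 : ℝ) < C.card := by exact_mod_cast hCne.card_pos
  have hT0 : 0 < T := lt_of_lt_of_le (by positivity) hT1
  have hηT : η * T ≤ CT * c := by
    calc η * T ≤ η * (CT * (c / η)) := mul_le_mul_of_nonneg_left hT2 hη.le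
      _ = CT * c := by field_simp
  -- the errors
  have herr' := (all_k hS hη q1 q2 hs0 hv q4 q5 ha hY).trans
    (num_err hC₂ hCT hc hc1 hs0 hs1 (Real.sq_sqrt hc.le) hη hω hωc hεc hτc hηT hN hKdef hsK)
  -- the upper bound
  have hp : Measurable fun θ : UnitAddTorus (Fin d) => q θ * (sy θ - E) :=
    q1.mul ((continuous_sy.measurable).sub_const E)
  obtain ⟨Kp, hKp⟩ : ∃ Kp : ℝ, ∀ θ : UnitAddTorus (Fin d), |q θ * (sy θ - E)| ≤ Kp := by
    have hcont : Continuous fun θ : UnitAddTorus (Fin d) => |sy θ - E| :=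
      (continuous_sy.sub continuous_const).abs
    obtain ⟨M, hM⟩ := (isCompact_range hcont).bddAbove
    refine ⟨CT * T * M, fun θ => ?_⟩
    rw [abs_mul]
    exact mul_le_mul (q2 θ) (hM ⟨θ, rfl⟩) (abs_nonneg _) (by positivity)
  have ht0 : 0 < cT * η / (4 * C₂) := by positivity
  have hup := pair_le (C' := C') hv hp hKp q6 (fun k => lin C ψ (v k)) ht0
  -- comparison
  obtain ⟨Z, hZ⟩ : ∃ Z : C → ℂ, ∀ k, Z k = ∫ θ, ((q θ * (sy θ - E) : ℝ) : ℂ) *
    (hatS C' (lin C ψ (v k)) θ * conj (hatV (v k) θ)) := ⟨_, fun _ => rfl⟩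
  obtain ⟨R, hRk⟩ : ∃ R : C → ℝ, ∀ k, R k = ∫ θ, q θ * ‖hatV (v k) θ‖ ^ 2 := ⟨_, fun _ => rfl⟩
  simp only [← hZ, ← hRk] at herr' hup hR
  have hcmp : cT / 2 * C.card ≤ ∑ k, ‖Z k‖ + cT / 4 * C.card := by
    refine hR.trans ?_
    have h1 : |∑ k : C, R k| = ‖∑ k : C, ((R k : ℝ) : ℂ)‖ := by
      rw [← Complex.ofReal_sum, Complex.norm_real, Real.norm_eq_abs]
    have h2 : ∑ k : C, ((R k : ℝ) : ℂ) = ∑ k : C, (Z k + ((R k : ℝ) : ℂ)) - ∑ k : C, Z k := by
      rw [Finset.sum_add_distrib]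
      ring
    rw [h1, h2]
    refine (norm_sub_le _ _).trans ?_
    have h3 := norm_sum_le Finset.univ (fun k : C => Z k + ((R k : ℝ) : ℂ))
    have h4 := norm_sum_le Finset.univ (fun k : C => Z k)
    have h5 := h3.trans herr'
    linarith only [herr', h3, h4]
  refine num_fin hC₂ hCT hcT hc hη hN hT1 rfl ?_
  have h1 : cT * η / (4 * C₂) / 2 * ∑ k : C, ∑ y ∈ C', ‖lin C ψ (v k) y‖ ^ 2 ≤
      cT * η / (4 * C₂) / 2 * (C₂ * C.card / η) :=
    mul_le_mul_of_nonneg_left ha (by positivity)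
  linarith only [hup, hcmp, h1]

end Pool.Agent.LE.CL.H67
end
end -- Pool.Agent.Helper67_LSP.PAI

section -- Pool.Agent.Helper93_LSP.PBD

/-!
# PBD: the final bound
-/

set_option autoImplicit false

open MeasureTheory ProbabilityTheory

open scoped ENNReal

noncomputable section

namespace Pool.Agent.LE.CL.H93

open Pool.Agent.Anderson hiding box mem_box card_box
open Pool.Agent.Loc Pool.Agent.Mob Pool.Agent.Helper54.Bal Pool.Agent.LE.MN

theorem pbd (clp : ClpStmt) (crg : CrgStmt) : PbdStmt := by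
  intro d δ hd hδ
  have hd0 : (3 : ℝ) ≤ d := by exact_mod_cast hd
  obtain ⟨c, K, hc, hc4, hK, h⟩ := clp d δ (2 * d) hd hδ (by linarith only [hd0])
  obtain ⟨C, hC, hg⟩ := crg d (by omega)
  refine ⟨c, C * K * (K + 4) * K, hc, hc4, ?_, ?_⟩
  · have h1 : 1 ≤ C * K := one_le_mul_of_one_le_of_one_le hC hK
    have h2 : 1 ≤ C * K * (K + 4) := one_le_mul_of_one_le_of_one_le h1 (by linarith only [hc, hc4, hK])
    exact one_le_mul_of_one_le_of_one_le h2 hK
  intro σ E g hσ hσc hE hL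
  have hσ0 : 0 < |σ| := abs_pos.2 hσ
  have hσ4 : |σ| ≤ 1 / 4 := hσc.trans hc4
  obtain ⟨l, hl⟩ : ∃ l, l = Real.log (1 / |σ|) := ⟨_, rfl⟩
  have hl1 : 1 ≤ l := by
    rw [hl, Real.le_log_iff_exp_le (by positivity)]
    have h1 := Real.exp_one_lt_d9
    have h2 : 4 ≤ 1 / |σ| := by
      rw [le_div_iff₀ hσ0]
      linarith only [hc4, hσc]
    linarith only [hc, hc4, h1, h2]
  obtain ⟨n, ρ, J, s, hs1, hsK, hρ1, hρ, hJ1, hJ, hn1, hn, hnl, hP⟩ := h σ E hσ hσc hE
  rw [← hl] at hsK hJ hnl ⊢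
  have hn0 : (0 : ℝ) < n := by exact_mod_cast hn1
  have hρ0 : (1 : ℝ) ≤ ρ := by exact_mod_cast hρ1
  have hJ0 : (1 : ℝ) ≤ J := by exact_mod_cast hJ1
  have key := hg σ E s (|σ| ^ (2 * (d : ℝ))) g J n ρ hσ0 (by linarith only [hc, hc4, hσc]) (by linarith only [hδ, hc, hc4, hE]) hs1 hJ1 hn1
    hρ1 hL (Real.rpow_nonneg hσ0.le _) (by
      calc |σ| ^ (2 * (d : ℝ)) * n ≤ |σ| ^ (2 * (d : ℝ)) * |σ| ^ (-(2 * (d : ℝ))) :=
            mul_le_mul_of_nonneg_left hn (Real.rpow_nonneg hσ0.le _)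
        _ = 1 := by rw [← Real.rpow_add hσ0, add_neg_cancel, Real.rpow_zero]) hP
  rw [← hl] at key
  have hlogρ : Real.log ρ ≤ 3 * l := by
    calc Real.log ρ ≤ Real.log (|σ| ^ (-3 : ℝ)) := Real.log_le_log (by linarith only [hc, hc4, hρ0]) hρ
      _ = 3 * l := by
          rw [Real.log_rpow hσ0, hl, one_div, Real.log_inv]
          ring
  have hKl : 0 < K * σ ^ 2 * l ^ 4 := by positivity
  have hnd : (n : ℝ) ^ (-(1 / (d : ℝ))) ≤ K * σ ^ 2 * l ^ 4 := by
    calc (n : ℝ) ^ (-(1 / (d : ℝ))) ≤ ((K * σ ^ 2 * l ^ 4) ^ (-(d : ℝ))) ^ (-(1 / (d : ℝ))) :=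
          Real.rpow_le_rpow_of_nonpos (Real.rpow_pos_of_pos hKl _) hnl
            (by rw [neg_nonpos]; positivity)
      _ = K * σ ^ 2 * l ^ 4 := by
          rw [← Real.rpow_mul hKl.le]
          have : -(d : ℝ) * -(1 / (d : ℝ)) = 1 := by
            field_simp
          rw [this, Real.rpow_one]
  have hsum : s + l + Real.log ρ ≤ (K + 4) * l := by linarith only [hsK, hlogρ]
  have hsum0 : 0 ≤ s + l + Real.log ρ := by
    have := Real.log_nonneg hρ0
    linarith only [hc, hc4, hl1, hs1, this]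
  refine key.trans ?_
  calc C * J * (s + l + Real.log ρ) * (n : ℝ) ^ (-(1 / (d : ℝ)))
      ≤ C * (K * l) * ((K + 4) * l) * (K * σ ^ 2 * l ^ 4) := by
        gcongr
    _ = C * K * (K + 4) * K * σ ^ 2 * l ^ 6 := by ring

end Pool.Agent.LE.CL.H93
end
end -- Pool.Agent.Helper93_LSP.PBD

section -- Pool.Agent.Helper9_LSP.OST

/-! LSP, row OST: the exponential tail of the oscillation. -/

set_option autoImplicit false

open MeasureTheory ProbabilityTheory Function Filter

open scoped ENNReal BigOperators Topology NNReal ComplexOrder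

noncomputable section

namespace Pool.Agent.LE.CL.H09

open Pool.Agent.Anderson hiding box mem_box card_box
open Pool.Agent.Loc Pool.Agent.Mob Pool.Agent.Helper54.Bal
  Pool.Agent.Helper96.EXP Pool.Agent.BED
open Pool.Agent.LE.MN

theorem pow_le_exp_div (n : ℕ) (hn : 1 ≤ n) (c x : ℝ) (hc : 0 < c) (hx : 0 ≤ x) :
    x ^ n ≤ (c * n) ^ n * Real.exp (x / c) := by
  have hn0 : (0 : ℝ) < n := by exact_mod_cast hn
  have h1 : x / (c * n) ≤ Real.exp (x / (c * n)) := by
    have := Real.add_one_le_exp (x / (c * n))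
    linarith only [this]
  have h2 : (x / (c * n)) ^ n ≤ Real.exp (x / (c * n)) ^ n :=
    pow_le_pow_left₀ (by positivity) h1 n
  rw [← Real.exp_nat_mul] at h2
  have h3 : (n : ℝ) * (x / (c * n)) = x / c := by
    field_simp
  rw [h3, div_pow, div_le_iff₀ (by positivity)] at h2
  linarith only [mul_comm (Real.exp (x / c)) ((c * (n : ℝ)) ^ n), h2]

/-- from explicit moments to the tail -/
theorem tail_of_mom {Ω : Type} [MeasurableSpace Ω] (P : Measure Ω) (f : Ω → ℝ≥0∞) (d : ℕ)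
    (hd : 1 ≤ d) (D M u : ℝ) (hD : 0 < D) (hM : 0 ≤ M) (hu : 0 ≤ u)
    (hf : Measurable f)
    (hm : ∀ q : ℕ, 1 ≤ q → ∫⁻ ω, f ω ^ q ∂P ≤ ENNReal.ofReal (M * (D * q) ^ q)) :
    ∫⁻ ω in {ω | ENNReal.ofReal u < f ω}, f ω ^ d ∂P ≤
      ENNReal.ofReal (M * (Real.exp (d + 1) * (12 * D * d) ^ d) * Real.exp (-(u / (12 * D)))) := by
  have hd0 : (0 : ℝ) < d := by exact_mod_cast hd
  have hd1 : (1 : ℝ) ≤ d := by exact_mod_cast hd
  set q : ℕ := ⌊u / (6 * D)⌋₊ with hq
  have hq1 : (q : ℝ) ≤ u / (6 * D) := Nat.floor_le (by positivity)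
  have hq2 : u / (6 * D) < q + 1 := Nat.lt_floor_add_one _
  have hq3 : q * (6 * D) ≤ u := by
    rwa [le_div_iff₀ (by positivity)] at hq1
  have hhalf : u / (12 * D) = (u / (6 * D)) / 2 := by
    field_simp
    ring
  by_cases hqd : q < d
  · have h1 : u / (12 * D) ≤ d := by
      have h2 : ((q : ℝ) + 1) ≤ d := by exact_mod_cast hqd
      have h3 : 0 ≤ u / (6 * D) := by positivity
      rw [hhalf]
      linarith only [hd0, hq2, h2]
    calc ∫⁻ ω in {ω | ENNReal.ofReal u < f ω}, f ω ^ d ∂P ≤ ∫⁻ ω, f ω ^ d ∂P :=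
          setLIntegral_le_lintegral _ _
      _ ≤ ENNReal.ofReal (M * (D * d) ^ d) := hm d hd
      _ ≤ _ := by
          apply ENNReal.ofReal_le_ofReal
          have h4 : (D * (d : ℝ)) ^ d ≤ (12 * D * d) ^ d := by
            apply pow_le_pow_left₀ (by positivity)
            have : 0 ≤ D * (d : ℝ) := by positivity
            linarith only [this]
          have h5 : 1 ≤ Real.exp (d + 1) * Real.exp (-(u / (12 * D))) := by
            rw [← Real.exp_add]
            apply Real.one_le_exp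
            linarith only [h1]
          calc M * (D * d) ^ d ≤ M * (12 * D * d) ^ d := mul_le_mul_of_nonneg_left h4 hM
            _ = M * (12 * D * d) ^ d * 1 := (mul_one _).symm
            _ ≤ M * (12 * D * d) ^ d * (Real.exp (d + 1) * Real.exp (-(u / (12 * D)))) :=
                mul_le_mul_of_nonneg_left h5 (by positivity)
            _ = _ := by ring
  · push Not at hqd
    have hq0 : 1 ≤ q := hd.trans hqd
    have hq0' : (1 : ℝ) ≤ q := by exact_mod_cast hq0
    have hup : 0 < u := by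
      have : 0 < (q : ℝ) * (6 * D) := by positivity
      linarith only [hq3, this]
    have hqd' : (d : ℝ) ≤ q := by exact_mod_cast hqd
    have key : ENNReal.ofReal u ^ q * ∫⁻ ω in {ω | ENNReal.ofReal u < f ω}, f ω ^ d ∂P ≤
        ENNReal.ofReal (M * ((u / 3) ^ q * u ^ d)) := by
      rw [← lintegral_const_mul' _ _ (ENNReal.pow_ne_top ENNReal.ofReal_ne_top)]
      have hmono : ∫⁻ ω in {ω | ENNReal.ofReal u < f ω}, ENNReal.ofReal u ^ q * f ω ^ d ∂P ≤
          ∫⁻ ω in {ω | ENNReal.ofReal u < f ω}, f ω ^ (q + d) ∂P := by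
        apply setLIntegral_mono' (measurableSet_lt measurable_const hf)
        intro ω hω
        have hω' : ENNReal.ofReal u < f ω := hω
        rw [pow_add]
        gcongr
      refine hmono.trans ((setLIntegral_le_lintegral _ _).trans ((hm (q + d) (by omega)).trans ?_))
      apply ENNReal.ofReal_le_ofReal
      apply mul_le_mul_of_nonneg_left _ hM
      have h1 : D * ((q + d : ℕ) : ℝ) ≤ u / 3 := by
        push_cast
        have : D * ((q : ℝ) + d) ≤ D * (2 * q) := mul_le_mul_of_nonneg_left (by linarith only [hqd']) hD.le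
        linarith only [hq3, this]
      have h2 : u / 3 ≤ u := by linarith only [hup]
      calc (D * ((q + d : ℕ) : ℝ)) ^ (q + d) ≤ (u / 3) ^ (q + d) :=
            pow_le_pow_left₀ (by positivity) h1 _
        _ = (u / 3) ^ q * (u / 3) ^ d := pow_add _ _ _
        _ ≤ (u / 3) ^ q * u ^ d :=
            mul_le_mul_of_nonneg_left (pow_le_pow_left₀ (by positivity) h2 d) (by positivity)
    have huq : 0 < u ^ q := pow_pos hup q
    have hne0 : ENNReal.ofReal u ^ q ≠ 0 := by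
      rw [← ENNReal.ofReal_pow hup.le]
      exact (ENNReal.ofReal_pos.mpr huq).ne'
    have hnet : ENNReal.ofReal u ^ q ≠ ∞ := ENNReal.pow_ne_top ENNReal.ofReal_ne_top
    have h3 : ∫⁻ ω in {ω | ENNReal.ofReal u < f ω}, f ω ^ d ∂P ≤
        ENNReal.ofReal (M * ((1 / 3) ^ q * u ^ d)) := by
      have h4 : ENNReal.ofReal (M * ((u / 3) ^ q * u ^ d)) =
          ENNReal.ofReal u ^ q * ENNReal.ofReal (M * ((1 / 3) ^ q * u ^ d)) := by
        rw [← ENNReal.ofReal_pow hup.le, ← ENNReal.ofReal_mul huq.le]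
        congr 1
        have : (u / 3) ^ q = u ^ q * (1 / 3) ^ q := by
          rw [← mul_pow]
          congr 1
          ring
        rw [this]
        ring
      rw [h4] at key
      exact (ENNReal.mul_le_mul_iff_right hne0 hnet).mp key
    refine h3.trans (ENNReal.ofReal_le_ofReal ?_)
    have h5 : (1 / 3 : ℝ) ^ q ≤ Real.exp (1 - u / (6 * D)) := by
      have h6 : (1 / 3 : ℝ) ≤ Real.exp (-1) := by
        rw [Real.exp_neg, one_div]
        apply inv_anti₀ (Real.exp_pos 1)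
        have := Real.exp_one_lt_d9
        linarith only [this]
      calc (1 / 3 : ℝ) ^ q ≤ Real.exp (-1) ^ q := pow_le_pow_left₀ (by norm_num) h6 q
        _ = Real.exp (-(q : ℝ)) := by
            rw [← Real.exp_nat_mul]
            congr 1
            ring
        _ ≤ Real.exp (1 - u / (6 * D)) := by
            apply Real.exp_le_exp.mpr
            linarith only [hq2]
    have h7 := pow_le_exp_div d hd (12 * D) u (by positivity) hu
    have h8 : (1 / 3 : ℝ) ^ q * u ^ d ≤ Real.exp (1 - u / (6 * D)) *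
        ((12 * D * d) ^ d * Real.exp (u / (12 * D))) :=
      mul_le_mul h5 h7 (by positivity) (Real.exp_pos _).le
    have h9 : Real.exp (1 - u / (6 * D)) * ((12 * D * d) ^ d * Real.exp (u / (12 * D))) =
        Real.exp 1 * (12 * D * d) ^ d * Real.exp (-(u / (12 * D))) := by
      have h10 : Real.exp (1 - u / (6 * D)) * Real.exp (u / (12 * D)) =
          Real.exp 1 * Real.exp (-(u / (12 * D))) := by
        rw [← Real.exp_add, ← Real.exp_add]
        congr 1
        rw [hhalf]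
        ring
      calc Real.exp (1 - u / (6 * D)) * ((12 * D * d) ^ d * Real.exp (u / (12 * D)))
          = (12 * D * d) ^ d * (Real.exp (1 - u / (6 * D)) * Real.exp (u / (12 * D))) := by ring
        _ = _ := by
            rw [h10]
            ring
    have h11 : Real.exp 1 ≤ Real.exp (d + 1) := Real.exp_le_exp.mpr (by linarith only [hd0])
    calc M * ((1 / 3) ^ q * u ^ d)
        ≤ M * (Real.exp 1 * (12 * D * d) ^ d * Real.exp (-(u / (12 * D)))) := by
          rw [← h9]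
          exact mul_le_mul_of_nonneg_left h8 hM
      _ ≤ M * (Real.exp (d + 1) * (12 * D * d) ^ d * Real.exp (-(u / (12 * D)))) := by
          apply mul_le_mul_of_nonneg_left _ hM
          apply mul_le_mul_of_nonneg_right _ (Real.exp_pos _).le
          exact mul_le_mul_of_nonneg_right h11 (by positivity)
      _ = _ := by ring

theorem ost (trf : TrfStmt) : OstStmt := by
  intro d hd
  have hd1 : (1 : ℝ) ≤ d := by exact_mod_cast hd
  obtain ⟨A, hA, K, hK, hm⟩ := Pool.Agent.LE.H9W.oscE trf hd (B₀ := 2 * d + 2) (by positivity)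
  set D : ℝ := 32 * d with hDdef
  have hD : 0 < D := by positivity
  set L : ℝ := Real.exp (d + 1) * (12 * D * d) ^ d with hL
  have hL0 : 0 < L := by positivity
  refine ⟨A, 1 + K * L + 12 * D, hA, ?_, ?_⟩
  · have : 0 ≤ K * L := by positivity
    linarith only [hd1, this]
  intro σ E u N S c hσ hσ1 hE hu hS hSN hcN
  have hR : 0 < |σ| ^ (-A) := Real.rpow_pos_of_pos (abs_pos.mpr hσ) _
  have h1 := tail_of_mom (PP d (gl σ)) (fun V => osc V N E S c 1) d hd D (K * |σ| ^ (-A)) u hD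
    (by positivity) hu (Pool.Agent.LE.H93W.measurable_osc N E S c 1)
    (fun q hq => hm q hq σ E N S c hσ hσ1 hE hS hSN hcN)
  refine h1.trans (ENNReal.ofReal_le_ofReal ?_)
  have hC : 0 < 1 + K * L + 12 * D := by positivity
  have h2 : Real.exp (-(u / (12 * D))) ≤ Real.exp (-(u / (1 + K * L + 12 * D))) := by
    apply Real.exp_le_exp.mpr
    apply neg_le_neg
    apply div_le_div_of_nonneg_left hu (by positivity)
    have : 0 ≤ K * L := by positivity
    linarith only [this]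
  have h3 : K * |σ| ^ (-A) * L ≤ (1 + K * L + 12 * D) * |σ| ^ (-A) := by
    have h4 : K * L ≤ 1 + K * L + 12 * D := by linarith only [hd1]
    calc K * |σ| ^ (-A) * L = K * L * |σ| ^ (-A) := by ring
      _ ≤ _ := mul_le_mul_of_nonneg_right h4 hR.le
  exact mul_le_mul h3 h2 (Real.exp_pos _).le (by positivity)

end Pool.Agent.LE.CL.H09
end
end -- Pool.Agent.Helper9_LSP.OST

section -- Pool.Agent.Helper54_LSC.All

/-!
# The Lyapunov exponent, pointwise: assembly of the bulk and of the edge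
-/

set_option autoImplicit false

open MeasureTheory ProbabilityTheory

noncomputable section

namespace Pool.Agent.LE.CL.H54

open Pool.Agent.Anderson Pool.Agent.Loc Pool.Agent.Helper54.Bal Pool.Agent.Mob
  Pool.Agent.LE.H93C Pool.Agent.LE.H93W Pool.Agent.BED

theorem cn3T : Cn3Stmt := H32.cn3 H24.dmi

theorem cr3T : Cr3Stmt := H32.cr3 cn3T trfT (H76C.reg uchT)

theorem ostT : OstStmt := H09.ost trfT

theorem crgT : CrgStmt := H81.crg cr3T ostT infT

theorem enbT : EnbStmt := H70.enb H82.sbp H18.fki (H77.eni H82.sbp)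

theorem eclT : EclStmt := ecl H82.sbp enbT

theorem edcT : EdcStmt := H70.edc H45.cut eclT

theorem edpT : EdpStmt := H86.edp edcT

/-- the bound near the effective band edge -/
theorem penT : PenStmt := H45.pen edpT crgT

theorem blkT : BlkStmt := H17.blk H17.laq H17.hsu H67.pai

theorem clbT : ClbStmt := H48.clb blkT

theorem clpT : ClpStmt := H81.clp clbT (H76.tsa H28V.krb) MN.H63.dua MN.H8.prb

/-- the bound in the bulk -/
theorem pbdT : PbdStmt := H93.pbd clpT crgT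

end Pool.Agent.LE.CL.H54
end
end -- Pool.Agent.Helper54_LSC.All
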