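import Pool.Agent.Helper12_MEB.B067
import Pool.Agent.Helper12_MEB.B083
import Pool.Agent.Helper12_MEB.B121
import Pool.Agent.Helper12_MEB.B124
import Pool.Agent.Helper12_MEB.B126
import Pool.Agent.Helper12_MEB.B129
import Pool.Agent.Helper12_MEB.B133
import Pool.Agent.Helper12_MEB.B134
import Pool.Agent.Helper12_MEB.B138

/-!
# Merged copies (generated) of the modules

* `Pool.Agent.Helper27_LIR.FLO`
* `Pool.Agent.Helper53_LIR.KBE`
* `Pool.Agent.Helper55_LIR.DST`
* `Pool.Agent.Helper65_LSJ.FLQ`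
* `Pool.Agent.Helper95_LIR.SMS`
* `Pool.Agent.Helper54_LIR.All`
-/

set_option autoImplicit false

section -- Pool.Agent.Helper27_LIR.FLO

/-!
# FLO: the low frequency part of the landscape function minus its linearization is nearly constant
-/

set_option autoImplicit false
set_option linter.unusedSectionVars false

open MeasureTheory ProbabilityTheory

open scoped ENNReal BigOperators NNReal

noncomputable section

namespace Pool.Agent.LE.IR.H27

open Pool.Agent.BED Pool.Agent.LE.IR Pool.Agent.LE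

variable {d M : ℕ} [NeZero M]

theorem card_tor : (Fintype.card (Tor d M) : ℝ) = (M : ℝ) ^ d := by
  rw [Fintype.card_fun, ZMod.card, Fintype.card_fin]
  push_cast
  rfl

theorem M_pos : (0 : ℝ) < (M : ℝ) ^ d :=
  pow_pos (by exact_mod_cast Nat.pos_of_ne_zero (NeZero.ne M)) _

theorem zero_mem_low (J : ℕ) : (0 : Tor d M) ∈ low d M J := by
  unfold low
  simp

theorem sum_dk (J : ℕ) : ∑ y : Tor d M, dk J y = 1 := by
  have h : ((∑ y : Tor d M, dk J y : ℝ) : ℂ) = 1 := by
    push_cast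
    simp only [H54.dk_eq]
    rw [← Finset.sum_div, Finset.sum_comm]
    simp only [H54.sum_ec]
    rw [Finset.sum_ite_eq' (low d M J) (0 : Tor d M) (fun _ => (M : ℂ) ^ d),
      if_pos (zero_mem_low J)]
    exact div_self H54.Mne
  exact_mod_cast h

theorem sum_dk_sub (J : ℕ) (x : Tor d M) : ∑ y : Tor d M, dk J (x - y) = 1 := by
  rw [← sum_dk (d := d) (M := M) J]
  exact Equiv.sum_comp (Equiv.subLeft x) (fun y => dk J y)

theorem sum_dk_sub' (J : ℕ) (y : Tor d M) : ∑ x : Tor d M, dk J (x - y) = 1 := by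
  rw [← sum_dk (d := d) (M := M) J]
  exact Equiv.sum_comp (Equiv.subRight y) (fun y => dk J y)

theorem lpf_sub (J : ℕ) (f g : Tor d M → ℝ) (x : Tor d M) :
    lpf J (fun y => f y - g y) x = lpf J f x - lpf J g x := by
  unfold lpf
  rw [← Finset.sum_sub_distrib]
  exact Finset.sum_congr rfl fun y _ => by ring

theorem lpf_const (J : ℕ) (w : ℝ) (x : Tor d M) : lpf J (fun _ => w) x = w := by
  unfold lpf
  rw [← Finset.sum_mul, sum_dk_sub, one_mul]

theorem lpf_tr (J : ℕ) (f : Tor d M → ℝ) (x : Tor d M) :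
    lpf J (fun y => f (x + y)) 0 = lpf J f x := by
  unfold lpf
  rw [← Equiv.sum_comp (Equiv.addLeft x) (fun y => dk J (x - y) * f y)]
  refine Finset.sum_congr rfl fun y _ => ?_
  have h : x - (x + y) = 0 - y := by abel
  simp only [Equiv.coe_addLeft, h]

theorem sum_lpf (J : ℕ) (f : Tor d M → ℝ) : ∑ x, lpf J f x = ∑ y, f y := by
  unfold lpf
  rw [Finset.sum_comm]
  refine Finset.sum_congr rfl fun y _ => ?_
  rw [← Finset.sum_mul, sum_dk_sub', one_mul]

theorem gv_sub (h : ℝ) (V W : Tor d M → ℝ) (x : Tor d M) :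
    gv h (fun u => V u - W u) x = gv h V x - gv h W x := by
  unfold gv
  rw [← Finset.sum_sub_distrib]
  exact Finset.sum_congr rfl fun y _ => by ring

theorem gv_tr (h : ℝ) (V : Tor d M → ℝ) (x y : Tor d M) : gv h (tr x V) y = gv h V (x + y) := by
  unfold gv
  rw [← Equiv.sum_comp (Equiv.addLeft x) (fun w => GM (2 * d + h) 0 (x + y) w * V w)]
  refine Finset.sum_congr rfl fun w _ => ?_
  have h1 := (Pool.Agent.BED.H61.cov d M (2 * d + h) 0 x).2.2.1 y w
  have h2 : tr x (0 : Tor d M → ℝ) = 0 := rfl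
  rw [h2] at h1
  rw [h1]
  rfl

theorem sum_shift (e : Tor d M) (f : Tor d M → ℝ) : ∑ x, f (x + e) = ∑ x, f x := by
  have h := Equiv.sum_comp (Equiv.addRight e) f
  simp only [Equiv.coe_addRight] at h
  exact h

theorem sum_gv {h : ℝ} (hh : 0 < h) (V : Tor d M → ℝ) : ∑ x, gv h V x = (∑ x, V x) / h := by
  rw [eq_div_iff hh.ne']
  have h1 : ∀ x, (2 * d + h) * gv h V x - ∑ i : Fin d, (gv h V (x + ev i) + gv h V (x - ev i)) =
      V x := fun x => H54.gv_eq hh V x
  have h2 : ∑ x, V x = ∑ x, ((2 * d + h) * gv h V x -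
      ∑ i : Fin d, (gv h V (x + ev i) + gv h V (x - ev i))) :=
    Finset.sum_congr rfl fun x _ => (h1 x).symm
  rw [h2, Finset.sum_sub_distrib, ← Finset.mul_sum, Finset.sum_comm]
  have h3 : ∀ i : Fin d, ∑ x, (gv h V (x + ev i) + gv h V (x - ev i)) = 2 * ∑ x, gv h V x := by
    intro i
    have h4 : ∑ x, gv h V (x + ev i) = ∑ x, gv h V x := sum_shift (ev i) (gv h V)
    have h5 : ∑ x, gv h V (x - ev i) = ∑ x, gv h V x := by
      have h6 := sum_shift (-ev i) (gv h V)
      simp only [← sub_eq_add_neg] at h6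
      exact h6
    rw [Finset.sum_add_distrib, two_mul, h4, h5]
  rw [Finset.sum_congr rfl fun i _ => h3 i, Finset.sum_const, Finset.card_univ, Fintype.card_fin,
    nsmul_eq_mul]
  ring

/-- the mean of the potential is small -/
theorem mean_small (v : ℝ≥0) {r : ℝ} (hr : 0 < r) :
    gau d M v {V | r * (M : ℝ) ^ d ≤ |∑ x, V x|} ≤
      ENNReal.ofReal (v / (r ^ 2 * (M : ℝ) ^ d)) := by
  have hM : (0 : ℝ) < (M : ℝ) ^ d := M_pos
  have hm : ∀ _i : Tor d M, MemLp (id : ℝ → ℝ) 2 (gaussianReal 0 v) := fun _ =>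
    memLp_id_gaussianReal 2
  have hv := variance_sum_pi (μ := fun _ : Tor d M => gaussianReal 0 v)
    (X := fun _ : Tor d M => (id : ℝ → ℝ)) hm
  have hmi : ∀ i : Tor d M, MemLp (fun V : Tor d M → ℝ => V i) 2
      (Measure.pi fun _ : Tor d M => gaussianReal 0 v) := by
    intro i
    exact (hm i).comp_measurePreserving
      (measurePreserving_eval (fun _ : Tor d M => gaussianReal 0 v) i)
  have hsum : MemLp (∑ i : Tor d M, fun V : Tor d M → ℝ => (id : ℝ → ℝ) (V i)) 2
      (Measure.pi fun _ : Tor d M => gaussianReal 0 v) :=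
    memLp_finsetSum' _ fun i _ => hmi i
  have hint : ∫ V, (∑ i : Tor d M, fun V : Tor d M → ℝ => (id : ℝ → ℝ) (V i)) V
      ∂(Measure.pi fun _ : Tor d M => gaussianReal 0 v) = 0 := by
    simp only [Finset.sum_apply, id]
    rw [integral_finsetSum _ fun i _ => (hmi i).integrable (by norm_num)]
    refine Finset.sum_eq_zero fun i _ => ?_
    have h1 := (measurePreserving_eval (fun _ : Tor d M => gaussianReal 0 v) i).map_eq
    have h2 : ∫ V : Tor d M → ℝ, V i ∂(Measure.pi fun _ : Tor d M => gaussianReal 0 v) =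
        ∫ x, x ∂((Measure.pi fun _ : Tor d M => gaussianReal 0 v).map (Function.eval i)) := by
      rw [integral_map (measurable_pi_apply i).aemeasurable (by fun_prop)]
    rw [h2, h1, integral_id_gaussianReal]
  have h := meas_ge_le_variance_div_sq hsum (c := r * (M : ℝ) ^ d) (by positivity)
  rw [hint, hv] at h
  simp only [variance_id_gaussianReal, Finset.sum_const, Finset.card_univ, nsmul_eq_mul,
    card_tor, sub_zero, Finset.sum_apply, id] at h
  refine h.trans (ENNReal.ofReal_le_ofReal (le_of_eq ?_))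
  field_simp

theorem om_tr (z μ : ℝ) (V : Tor d M → ℝ) (x y : Tor d M) :
    om z μ (tr x V) y = om z μ V (x + y) := by
  unfold om
  rw [(Pool.Agent.BED.H61.cov d M z V x).2.2.2.1 y]

theorem flatE_tr {ε z μ : ℝ} {V : Tor d M → ℝ} (x : Tor d M) (hV : FlatE ε z μ V) :
    FlatE ε z μ (tr x V) := by
  refine ⟨fun y => hV.1 (x + y), ?_, fun y => ?_⟩
  · exact (Pool.Agent.BED.H61.cov d M z V x).2.1.2 hV.2.1
  · rw [(Pool.Agent.BED.H61.cov d M z V x).2.2.2.1 y]
    exact hV.2.2 (x + y)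

/-- extension of the low frequency part to a Lipschitz function -/
theorem extension {Φ : (Tor d M → ℝ) → ℝ} {S : Set (Tor d M → ℝ)} {K : ℝ} (hK : 0 ≤ K)
    (h : ∀ V ∈ S, ∀ W ∈ S, |Φ V - Φ W| ≤ K * Real.sqrt (∑ u, (V u - W u) ^ 2)) :
    ∃ F : (Tor d M → ℝ) → ℝ,
      (∀ V W, |F V - F W| ≤ K * Real.sqrt (∑ u, (V u - W u) ^ 2)) ∧ ∀ V ∈ S, F V = Φ V := by
  obtain ⟨k, hk⟩ : ∃ k : ℝ≥0, (k : ℝ) = K := ⟨⟨K, hK⟩, rfl⟩
  have hdist : ∀ u w : EuclideanSpace ℝ (Tor d M),
      dist u w = Real.sqrt (∑ i, (u.ofLp i - w.ofLp i) ^ 2) := by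
    intro u w
    rw [EuclideanSpace.dist_eq]
    congr 1
    exact Finset.sum_congr rfl fun i _ => by rw [Real.dist_eq, sq_abs]
  have hL : LipschitzOnWith k (fun u : EuclideanSpace ℝ (Tor d M) => Φ u.ofLp)
      {u | u.ofLp ∈ S} := by
    refine LipschitzOnWith.of_dist_le_mul fun u hu w hw => ?_
    rw [hdist, hk, Real.dist_eq]
    exact h _ hu _ hw
  obtain ⟨g, hg1, hg2⟩ := hL.extend_real
  refine ⟨fun V => g (WithLp.toLp 2 V), fun V W => ?_, fun V hV => ?_⟩
  · have h1 := hg1.dist_le_mul (WithLp.toLp 2 V) (WithLp.toLp 2 W)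
    rw [hdist, hk, Real.dist_eq] at h1
    exact h1
  · exact (hg2 (x := WithLp.toLp 2 V) hV).symm

/-- FLO -/
theorem flo (lfl : LflStmt) : FloStmt := by
  intro d hd
  obtain ⟨C, hC, hL⟩ := lfl d hd
  refine ⟨5 * C ^ 2, by nlinarith only [hC], ?_⟩
  intro M J _ v z μ ε p r q hμ hε hε1 hv hp hr hrε hfl hq hq4 hmean
  have hM : (0 : ℝ) < (M : ℝ) ^ d := M_pos
  have hv' : (0 : ℝ) < v := hv
  obtain ⟨N, hN⟩ : ∃ N : ℝ, N = (low d M J).card / (M : ℝ) ^ d := ⟨_, rfl⟩
  have hlow : (0 : ℝ) < (low d M J).card := by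
    exact_mod_cast Finset.card_pos.2 ⟨0, zero_mem_low J⟩
  have hN0 : 0 < N := by rw [hN]; positivity
  rw [← hN] at hq
  have hC0 : 0 < C := by linarith only [hC, hε, hε1]
  have hK : 0 < C * ε * μ * Real.sqrt N := by
    have := Real.sqrt_pos.2 hN0
    positivity
  obtain ⟨Φ, hΦ⟩ : ∃ Φ : (Tor d M → ℝ) → ℝ,
      ∀ V, Φ V = lpf J (fun y => om z μ V y - gv (1 / μ) V y) 0 := ⟨_, fun _ => rfl⟩
  have hlip : ∀ V ∈ {V : Tor d M → ℝ | FlatE ε z μ V}, ∀ W ∈ {V : Tor d M → ℝ | FlatE ε z μ V},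
      |Φ V - Φ W| ≤ C * ε * μ * Real.sqrt N * Real.sqrt (∑ u, (V u - W u) ^ 2) := by
    intro V hV W hW
    have h1 := hL M J z μ ε V W 0 hμ hε hε1 hV hW
    have h2 : Φ V - Φ W = lpf J (fun y => om z μ V y - om z μ W y -
        gv (1 / μ) (fun u => V u - W u) y) 0 := by
      rw [hΦ, hΦ, ← lpf_sub]
      congr 1
      funext y
      rw [gv_sub]
      ring
    rw [h2, hN]
    exact h1
  obtain ⟨F, hF1, hF2⟩ := extension hK.le hlip
  have hFtr : ∀ V : Tor d M → ℝ, FlatE ε z μ V → ∀ x,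
      F (tr x V) = lpf J (fun y => om z μ V y - gv (1 / μ) V y) x := by
    intro V hV x
    rw [hF2 _ (flatE_tr x hV), hΦ]
    have h1 : (fun y => om z μ (tr x V) y - gv (1 / μ) (tr x V) y) =
        fun y => (fun u => om z μ V u - gv (1 / μ) V u) (x + y) := by
      funext y
      rw [om_tr, gv_tr]
    rw [h1]
    exact lpf_tr J (fun u => om z μ V u - gv (1 / μ) V u) x
  obtain ⟨w, hw⟩ : ∃ w : ℝ, w = ∫ y, F y ∂(Measure.pi fun _ : Tor d M => gaussianReal 0 v) :=
    ⟨_, rfl⟩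
  have hcont := continuous_of_lip hK.le hF1
  have hbad : gau d M v ({V : Tor d M → ℝ | ¬ FlatE ε z μ V} ∪
      ⋃ x, {V : Tor d M → ℝ | r ≤ |F (tr x V) - w|}) ≤ ENNReal.ofReal q := by
    have h0 : q = p + (M : ℝ) ^ d *
        (2 * Real.exp (-(r ^ 2 / (5 * C ^ 2 * v * ε ^ 2 * μ ^ 2 * N)))) := by
      rw [hq]; ring
    rw [h0]
    refine gau_union hp (by positivity) hfl fun x => ?_
    have h1 := Pool.Agent.BED.H55.gc (Tor d M) v F _ hK hF1 r hr.le
    rw [← hw] at h1
    have hmeas : MeasurableSet {V : Tor d M → ℝ | r ≤ |F V - w|} :=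
      measurableSet_le measurable_const ((hcont.measurable.sub_const _).abs)
    have h3 := (Pool.Agent.BED.H61.cov d M z 0 x).2.2.2.2.2 v
    have h2 : gau d M v {V : Tor d M → ℝ | r ≤ |F (tr x V) - w|} =
        gau d M v {V : Tor d M → ℝ | r ≤ |F V - w|} :=
      h3.measure_preimage hmeas.nullMeasurableSet
    rw [h2]
    refine h1.trans (ENNReal.ofReal_le_ofReal (le_of_eq ?_))
    have h4 : 5 * (C * ε * μ * Real.sqrt N) ^ 2 * (v : ℝ) =
        5 * C ^ 2 * v * ε ^ 2 * μ ^ 2 * N := by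
      rw [mul_pow, Real.sq_sqrt hN0.le]
      ring
    rw [h4, neg_div]
  have hgood : ∀ V : Tor d M → ℝ, V ∉ ({V : Tor d M → ℝ | ¬ FlatE ε z μ V} ∪
      ⋃ x, {V : Tor d M → ℝ | r ≤ |F (tr x V) - w|}) → FlatE ε z μ V ∧
        ∀ x, |lpf J (fun y => om z μ V y - gv (1 / μ) V y) x - w| < r := by
    intro V hV
    rw [Set.mem_union, not_or] at hV
    obtain ⟨h1, h2⟩ := hV
    have h1' : FlatE ε z μ V := by
      by_contra h
      exact h1 h
    refine ⟨h1', fun x => ?_⟩
    by_contra h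
    refine h2 (Set.mem_iUnion.2 ⟨x, ?_⟩)
    rw [Set.mem_ofPred_eq, hFtr V h1' x]
    exact not_lt.1 h
  refine ⟨w, ?_, ?_⟩
  · have hms := mean_small (d := d) (M := M) v (r := ε / μ) (by positivity)
    have hlt : (v : ℝ) / ((ε / μ) ^ 2 * (M : ℝ) ^ d) < 1 / 4 := by
      rw [div_lt_iff₀ (by positivity)]
      have h1 : 1 / 4 * ((ε / μ) ^ 2 * (M : ℝ) ^ d) = ε ^ 2 * (M : ℝ) ^ d / (4 * μ ^ 2) := by
        field_simp
      rw [h1, lt_div_iff₀ (by positivity)]
      linarith only [hmean]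
    obtain ⟨V, hV1, hV2⟩ : ∃ V : Tor d M → ℝ,
        V ∉ ({V : Tor d M → ℝ | ¬ FlatE ε z μ V} ∪
          ⋃ x, {V : Tor d M → ℝ | r ≤ |F (tr x V) - w|}) ∧
        |∑ x, V x| < ε / μ * (M : ℝ) ^ d := by
      by_contra hcon
      push Not at hcon
      have h1 : (Set.univ : Set (Tor d M → ℝ)) ⊆
          ({V : Tor d M → ℝ | ¬ FlatE ε z μ V} ∪
            ⋃ x, {V : Tor d M → ℝ | r ≤ |F (tr x V) - w|}) ∪
          {V | ε / μ * (M : ℝ) ^ d ≤ |∑ x, V x|} := by
        intro V _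
        by_cases h : V ∈ ({V : Tor d M → ℝ | ¬ FlatE ε z μ V} ∪
            ⋃ x, {V : Tor d M → ℝ | r ≤ |F (tr x V) - w|})
        · exact Or.inl h
        · exact Or.inr (hcon V h)
      have := gau_isProb (d := d) (M := M) v
      have h2 : (1 : ℝ≥0∞) ≤ ENNReal.ofReal (1 / 4) + ENNReal.ofReal (1 / 4) := by
        calc (1 : ℝ≥0∞) = gau d M v Set.univ := measure_univ.symm
          _ ≤ _ := measure_mono h1
          _ ≤ _ := measure_union_le _ _
          _ ≤ _ := add_le_add (hbad.trans (ENNReal.ofReal_le_ofReal hq4))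
            (hms.trans (ENNReal.ofReal_le_ofReal hlt.le))
      rw [← ENNReal.ofReal_add (by norm_num) (by norm_num), ← ENNReal.ofReal_one,
        ENNReal.ofReal_le_ofReal_iff (by norm_num)] at h2
      norm_num at h2
    obtain ⟨hF, hg⟩ := hgood V hV1
    obtain ⟨A, hA⟩ : ∃ A : ℝ, A = ∑ x, om z μ V x := ⟨_, rfl⟩
    obtain ⟨B, hB⟩ : ∃ B : ℝ, B = ∑ x, V x := ⟨_, rfl⟩
    rw [← hB] at hV2
    have hsum : ∑ x, lpf J (fun y => om z μ V y - gv (1 / μ) V y) x = A - B * μ := by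
      rw [sum_lpf, Finset.sum_sub_distrib, sum_gv (by positivity), ← hA, ← hB]
      field_simp
    have h1 : |A - (M : ℝ) ^ d| ≤ ε * (M : ℝ) ^ d := by
      have h2 : A - (M : ℝ) ^ d = ∑ x : Tor d M, (om z μ V x - 1) := by
        rw [Finset.sum_sub_distrib, ← hA, Finset.sum_const, Finset.card_univ, nsmul_eq_mul,
          card_tor, mul_one]
      rw [h2]
      refine (Finset.abs_sum_le_sum_abs _ _).trans ?_
      have h3 : ∀ x : Tor d M, |om z μ V x - 1| ≤ ε := by
        intro x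
        have h4 := hF.2.2 x
        have h5 : om z μ V x - 1 = (DD z V x - μ) / μ := by
          unfold om
          field_simp
        rw [h5, abs_div, abs_of_pos hμ, div_le_iff₀ hμ]
        exact h4
      refine (Finset.sum_le_sum fun x _ => h3 x).trans (le_of_eq ?_)
      rw [Finset.sum_const, Finset.card_univ, nsmul_eq_mul, card_tor, mul_comm]
    have h2 : |(A - B * μ) - (M : ℝ) ^ d * w| ≤ r * (M : ℝ) ^ d := by
      have h3 : (A - B * μ) - (M : ℝ) ^ d * w =
          ∑ x, (lpf J (fun y => om z μ V y - gv (1 / μ) V y) x - w) := by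
        rw [Finset.sum_sub_distrib, hsum, Finset.sum_const, Finset.card_univ, nsmul_eq_mul,
          card_tor]
      rw [h3]
      refine (Finset.abs_sum_le_sum_abs _ _).trans ?_
      refine (Finset.sum_le_sum fun x _ => (hg x).le).trans (le_of_eq ?_)
      rw [Finset.sum_const, Finset.card_univ, nsmul_eq_mul, card_tor, mul_comm]
    have h3 : |B * μ| ≤ ε * (M : ℝ) ^ d := by
      rw [abs_mul, abs_of_pos hμ]
      have h4 := mul_le_mul_of_nonneg_right hV2.le hμ.le
      have h5 : ε / μ * (M : ℝ) ^ d * μ = ε * (M : ℝ) ^ d := by field_simp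
      rw [h5] at h4
      exact h4
    have h4 : (M : ℝ) ^ d * |w - 1| ≤ (M : ℝ) ^ d * (3 * ε) := by
      rw [← abs_of_pos hM, ← abs_mul, abs_of_pos hM]
      have h5 : (M : ℝ) ^ d * (w - 1) = (A - (M : ℝ) ^ d) - B * μ -
          ((A - B * μ) - (M : ℝ) ^ d * w) := by ring
      rw [h5]
      have h6 := abs_sub (A - (M : ℝ) ^ d - B * μ) ((A - B * μ) - (M : ℝ) ^ d * w)
      have h7 := abs_sub (A - (M : ℝ) ^ d) (B * μ)
      have h8 := mul_le_mul_of_nonneg_right hrε hM.le
      linarith only [h1, h2, h3, h6, h7, h8]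
    exact le_of_mul_le_mul_left h4 hM
  · refine (measure_mono ?_).trans hbad
    intro V hV
    by_contra hcon
    apply hV
    obtain ⟨-, hg⟩ := hgood V hcon
    intro x
    have h1 : (fun y => om z μ V y - w - gv (1 / μ) V y) =
        fun y => (fun u => om z μ V u - gv (1 / μ) V u) y - (fun _ => w) y := by
      funext y
      simp only []
      ring
    rw [h1, lpf_sub, lpf_const]
    exact (hg x).le

end Pool.Agent.LE.IR.H27
end
end -- Pool.Agent.Helper27_LIR.FLO

section -- Pool.Agent.Helper53_LIR.KBE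

/-!
# KBE: the kernel bound near the edge
-/

set_option autoImplicit false

namespace Pool.Agent.LE.IR.H53

/-- KBE -/
theorem kbe : KbeStmt := fun d hd => Pool.Agent.LE.H53K.kbe0 d hd

end Pool.Agent.LE.IR.H53
end -- Pool.Agent.Helper53_LIR.KBE

section -- Pool.Agent.Helper55_LIR.DST

/-!
# Squad LIR, row DST: the density of states near the edge, on the torus

Elementary proof without integrals: the number of `(u, v)` with `|g u + g v - a| ≤ r`, `g = 4 sin²`,
is at most `12 M² r` (slices, `g u ≥ g v`), then a dyadic decomposition of the kernel.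
-/

set_option autoImplicit false

open scoped BigOperators

noncomputable section

namespace Pool.Agent.LE.IR.H55

open Pool.Agent.Anderson hiding box mem_box card_box
open Pool.Agent.Loc Pool.Agent.Mob Pool.Agent.Helper54.Bal
  Pool.Agent.Helper96.EXP Pool.Agent.BED
open Pool.Agent.LE.MN Pool.Agent.LE.CL

/-! ### one dimension -/

def gu {M : ℕ} (u : ZMod M) : ℝ := 2 * (1 - Real.cos (2 * Real.pi * (u.valMinAbs : ℝ) / M))

def tn {M : ℕ} (u : ZMod M) : ℕ := u.valMinAbs.natAbs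

def Xs (M : ℕ) (t : ℝ) : ℝ := 2 * Real.sin (Real.pi * t / M)

lemma gu_eq {M : ℕ} (u : ZMod M) : gu u = Xs M (tn u) ^ 2 := by
  have h1 : ((tn u : ℕ) : ℝ) = |((u.valMinAbs : ℤ) : ℝ)| := by
    unfold tn
    rw [Nat.cast_natAbs, Int.cast_abs]
  have h2 : Real.sin (Real.pi * (tn u : ℝ) / M) ^ 2 =
      Real.sin (Real.pi * (u.valMinAbs : ℝ) / M) ^ 2 := by
    rw [h1]
    rcases abs_choice ((u.valMinAbs : ℤ) : ℝ) with h | h
    · rw [h]
    · rw [h]
      have : Real.pi * -((u.valMinAbs : ℤ) : ℝ) / M = -(Real.pi * (u.valMinAbs : ℝ) / M) := by ring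
      rw [this, Real.sin_neg]
      ring
  unfold gu Xs
  have h3 : 2 * Real.pi * (u.valMinAbs : ℝ) / M = 2 * (Real.pi * (u.valMinAbs : ℝ) / M) := by ring
  rw [h3, Real.cos_two_mul, Real.cos_sq', mul_pow, h2]
  ring

lemma gu_nonneg {M : ℕ} (u : ZMod M) : 0 ≤ gu u := by
  rw [gu_eq]; positivity

lemma tn_le {M : ℕ} [NeZero M] (u : ZMod M) : (tn u : ℝ) ≤ M / 2 := by
  have h := ZMod.natAbs_valMinAbs_le u
  have h2 : tn u ≤ M / 2 := h
  have h3 : (tn u : ℝ) ≤ ((M / 2 : ℕ) : ℝ) := by exact_mod_cast h2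
  exact h3.trans Nat.cast_div_le

lemma Xs_lower {M : ℕ} [NeZero M] {t : ℝ} (h0 : 0 ≤ t) (h1 : t ≤ M / 2) :
    4 * t / M ≤ Xs M t := by
  have hM : (0 : ℝ) < M := by exact_mod_cast Nat.pos_of_ne_zero (NeZero.ne M)
  have hpi := Real.pi_pos
  have h2 : 0 ≤ Real.pi * t / M := by positivity
  have h3 : Real.pi * t / M ≤ Real.pi / 2 := by
    rw [div_le_div_iff₀ hM (by norm_num)]
    nlinarith only [h1, hpi]
  have h4 := Real.mul_le_sin h2 h3
  have h5 : 2 / Real.pi * (Real.pi * t / M) = 2 * t / M := by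
    field_simp
  rw [h5] at h4
  unfold Xs
  have h6 : 4 * t / M = 2 * (2 * t / M) := by ring
  rw [h6]
  linarith only [h4]

lemma Xs_nonneg {M : ℕ} [NeZero M] (u : ZMod M) : 0 ≤ Xs M (tn u) := by
  have hM : (0 : ℝ) < M := by exact_mod_cast Nat.pos_of_ne_zero (NeZero.ne M)
  exact le_trans (by positivity) (Xs_lower (Nat.cast_nonneg _) (tn_le u))

lemma tn_of_le {M : ℕ} [NeZero M] (u : ZMod M) {s : ℝ} (hs : 0 ≤ s) (h : gu u ≤ s ^ 2) :
    (tn u : ℝ) ≤ M * s / 4 := by
  have hM : (0 : ℝ) < M := by exact_mod_cast Nat.pos_of_ne_zero (NeZero.ne M)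
  rw [gu_eq] at h
  have h1 : Xs M (tn u) ≤ s := by
    rw [sq_le_sq₀ (Xs_nonneg u) hs] at h
    exact h
  have h2 := (Xs_lower (Nat.cast_nonneg _) (tn_le u)).trans h1
  rw [div_le_iff₀ hM] at h2
  linarith only [h2]

lemma tn_small {M : ℕ} [NeZero M] (u : ZMod M) (h : gu u ≤ 1) : (tn u : ℝ) ≤ M / 6 := by
  have hM : (0 : ℝ) < M := by exact_mod_cast Nat.pos_of_ne_zero (NeZero.ne M)
  have hpi := Real.pi_pos
  by_contra hc
  push Not at hc
  rw [gu_eq] at h
  have h1 : Xs M (tn u) ≤ 1 := by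
    have : Xs M (tn u) ^ 2 ≤ 1 ^ 2 := by simpa using h
    rwa [sq_le_sq₀ (Xs_nonneg u) zero_le_one] at this
  have h2 : Real.pi / 6 < Real.pi * (tn u : ℝ) / M := by
    rw [div_lt_div_iff₀ (by norm_num) hM]
    nlinarith only [hpi, hc]
  have h3 : Real.pi * (tn u : ℝ) / M ≤ Real.pi / 2 := by
    rw [div_le_div_iff₀ hM (by norm_num)]
    nlinarith only [tn_le u, hpi]
  have h4 := Real.sin_lt_sin_of_lt_of_le_pi_div_two (by linarith only [hpi]) h3 h2
  rw [Real.sin_pi_div_six] at h4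
  unfold Xs at h1
  linarith only [h1, h4]

lemma gap {M : ℕ} [NeZero M] {t t' : ℝ} (h0 : 0 ≤ t) (h1 : t ≤ t') (h2 : t' ≤ M / 6) :
    3 * (t' - t) / M ≤ Xs M t' - Xs M t := by
  have hM : (0 : ℝ) < M := by exact_mod_cast Nat.pos_of_ne_zero (NeZero.ne M)
  have hpi := Real.pi_pos
  unfold Xs
  have h3 : 2 * Real.sin (Real.pi * t' / M) - 2 * Real.sin (Real.pi * t / M) =
      4 * Real.sin ((Real.pi * t' / M - Real.pi * t / M) / 2) *
        Real.cos ((Real.pi * t' / M + Real.pi * t / M) / 2) := by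
    have := Real.sin_sub_sin (Real.pi * t' / M) (Real.pi * t / M)
    linarith only [this]
  rw [h3]
  have ha : 0 ≤ Real.pi * t / M := by positivity
  have hb : Real.pi * t / M ≤ Real.pi * t' / M := by
    apply div_le_div_of_nonneg_right _ hM.le
    nlinarith only [h1, hpi]
  have hc : Real.pi * t' / M ≤ Real.pi / 6 := by
    rw [div_le_div_iff₀ hM (by norm_num)]
    nlinarith only [h2, hpi]
  have h4 := Real.mul_le_sin (x := (Real.pi * t' / M - Real.pi * t / M) / 2) (by linarith only [hb])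
    (by linarith only [hpi, ha, hc])
  have h5 : 2 / Real.pi * ((Real.pi * t' / M - Real.pi * t / M) / 2) = (t' - t) / M := by
    field_simp
  rw [h5] at h4
  have h6 : Real.cos (Real.pi / 6) ≤ Real.cos ((Real.pi * t' / M + Real.pi * t / M) / 2) := by
    apply Real.cos_le_cos_of_nonneg_of_le_pi (by linarith only [ha, hb]) (by linarith only [hpi]) (by linarith only [hb, hc])
  rw [Real.cos_pi_div_six] at h6
  have h7 : (3 : ℝ) / 4 ≤ Real.sqrt 3 / 2 := by
    have : (3 : ℝ) / 2 ≤ Real.sqrt 3 := by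
      apply Real.le_sqrt_of_sq_le
      norm_num
    linarith only [this]
  have h8 : 0 ≤ (t' - t) / M := by
    apply div_nonneg _ hM.le
    linarith only [h1]
  have h9 : 3 * (t' - t) / M = 4 * ((t' - t) / M) * (3 / 4) := by ring
  rw [h9]
  apply mul_le_mul _ (h7.trans h6) (by norm_num) (by linarith only [h4, h8])
  linarith only [h4]

/-! ### counting -/

lemma card_tn_le {M : ℕ} [NeZero M] {K : ℝ} (hK : 0 ≤ K) :
    ((Finset.univ.filter fun u : ZMod M => (tn u : ℝ) ≤ K).card : ℝ) ≤ 2 * K + 1 := by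
  have h1 : (Finset.univ.filter fun u : ZMod M => (tn u : ℝ) ≤ K).card ≤
      (Finset.Icc (-(⌊K⌋₊ : ℤ)) ⌊K⌋₊).card := by
    apply Finset.card_le_card_of_injOn (fun u => u.valMinAbs)
    · intro u hu
      rw [Finset.mem_coe, Finset.mem_filter] at hu
      have h2 : tn u ≤ ⌊K⌋₊ := Nat.le_floor hu.2
      rw [Finset.mem_coe, Finset.mem_Icc]
      unfold tn at h2
      beta_reduce
      omega
    · intro u _ v _ h
      exact ZMod.valMinAbs_inj.1 h
  have h3 : (Finset.Icc (-(⌊K⌋₊ : ℤ)) ⌊K⌋₊).card = 2 * ⌊K⌋₊ + 1 := by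
    rw [Int.card_Icc]
    omega
  rw [h3] at h1
  have h4 : ((Finset.univ.filter fun u : ZMod M => (tn u : ℝ) ≤ K).card : ℝ) ≤
      2 * (⌊K⌋₊ : ℝ) + 1 := by exact_mod_cast h1
  have h5 := Nat.floor_le hK
  linarith

lemma card_tn_between {M : ℕ} [NeZero M] (S : Finset (ZMod M)) {L : ℝ} (hL : 0 ≤ L)
    (h : ∀ u ∈ S, ∀ v ∈ S, (tn u : ℝ) ≤ tn v + L) : (S.card : ℝ) ≤ 2 * (L + 1) := by
  rcases S.eq_empty_or_nonempty with hS | hS
  · rw [hS, Finset.card_empty]
    push_cast
    linarith only [hL]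
  obtain ⟨v, hv, hmin⟩ := Finset.exists_min_image S tn hS
  set m := tn v with hm
  have h1 : S.card ≤ (Finset.Icc (m : ℤ) (m + ⌊L⌋₊) ∪
      Finset.Icc (-(m + ⌊L⌋₊ : ℤ)) (-m)).card := by
    apply Finset.card_le_card_of_injOn (fun u => u.valMinAbs)
    · intro u hu
      have h2 : m ≤ tn u := hmin u hu
      have h3 : tn u ≤ m + ⌊L⌋₊ := by
        have h4 := h u hu v hv
        have h5 : ((tn u - m : ℕ) : ℝ) ≤ L := by
          rw [Nat.cast_sub h2]
          linarith only [h4]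
        have h6 := Nat.le_floor h5
        omega
      rw [Finset.mem_coe, Finset.mem_union, Finset.mem_Icc, Finset.mem_Icc]
      unfold tn at h2 h3
      beta_reduce
      omega
    · intro u _ w _ hh
      exact ZMod.valMinAbs_inj.1 hh
  have h2 : (Finset.Icc (m : ℤ) (m + ⌊L⌋₊) ∪
      Finset.Icc (-(m + ⌊L⌋₊ : ℤ)) (-m)).card ≤ 2 * (⌊L⌋₊ + 1) := by
    refine (Finset.card_union_le _ _).trans ?_
    rw [Int.card_Icc, Int.card_Icc]
    omega
  have h3 : (S.card : ℝ) ≤ 2 * ((⌊L⌋₊ : ℝ) + 1) := by exact_mod_cast h1.trans h2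
  have h4 := Nat.floor_le hL
  linarith only [h3, h4]

lemma card_fib {α β : Type} [DecidableEq β] (s : Finset α) (f : α → β) {A : ℝ}
    (h : ∀ b, ((s.filter fun a => f a = b).card : ℝ) ≤ A) :
    (s.card : ℝ) ≤ A * ((s.image f).card : ℝ) := by
  rw [Finset.card_eq_sum_card_image f s, Nat.cast_sum]
  calc ∑ b ∈ s.image f, ((s.filter fun a => f a = b).card : ℝ)
      ≤ ∑ _b ∈ s.image f, A := Finset.sum_le_sum fun b _ => h b
    _ = A * ((s.image f).card : ℝ) := by
      rw [Finset.sum_const, nsmul_eq_mul, mul_comm]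

lemma half {M : ℕ} [NeZero M] {a r : ℝ} (hr : 1 ≤ M * r) (hr1 : r ≤ 1) (ha : 2 * r < a) :
    ((Finset.univ.filter fun p : ZMod M × ZMod M => gu p.1 ≤ 1 ∧ gu p.2 ≤ gu p.1 ∧
      |gu p.1 + gu p.2 - a| ≤ r).card : ℝ) ≤ 6 * (M : ℝ) ^ 2 * r := by
  have hM : (0 : ℝ) < M := by exact_mod_cast Nat.pos_of_ne_zero (NeZero.ne M)
  have hM1 : (1 : ℝ) ≤ M := by exact_mod_cast Nat.pos_of_ne_zero (NeZero.ne M)
  have hr0 : 0 < r := by
    by_contra hc
    push Not at hc
    nlinarith only [hr, hc]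
  have ha0 : 0 < a := by linarith
  have hsa : 0 < Real.sqrt a := Real.sqrt_pos.2 ha0
  have hsq : Real.sqrt a ^ 2 = a := Real.sq_sqrt ha0.le
  set P := Finset.univ.filter fun p : ZMod M × ZMod M => gu p.1 ≤ 1 ∧ gu p.2 ≤ gu p.1 ∧
      |gu p.1 + gu p.2 - a| ≤ r with hP
  rcases P.eq_empty_or_nonempty with hE | hE
  · rw [hE, Finset.card_empty]
    push_cast
    positivity
  have ha3 : a ≤ 3 := by
    obtain ⟨p, hp⟩ := hE
    rw [hP, Finset.mem_filter] at hp
    obtain ⟨-, h1, h2, h3⟩ := hp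
    have := (abs_le.1 h3).1
    linarith
  set L : ℝ := 2 * r * M / (3 * Real.sqrt a) with hL
  have hL0 : 0 ≤ L := by positivity
  have key : ∀ p ∈ P, a / 4 ≤ gu p.1 ∧ Real.sqrt a / 2 ≤ Xs M (tn p.1) := by
    intro p hp
    rw [hP, Finset.mem_filter] at hp
    obtain ⟨-, h1, h2, h3⟩ := hp
    have h4 := (abs_le.1 h3).1
    have h5 : a / 4 ≤ gu p.1 := by linarith only [ha, h2, h4]
    refine ⟨h5, ?_⟩
    rw [gu_eq] at h5
    have h6 : (Real.sqrt a / 2) ^ 2 ≤ Xs M (tn p.1) ^ 2 := by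
      have : (Real.sqrt a / 2) ^ 2 = a / 4 := by rw [div_pow, hsq]; norm_num
      rw [this]; exact h5
    rwa [sq_le_sq₀ (by positivity) (Xs_nonneg _)] at h6
  have h1 : (P.card : ℝ) ≤ (2 * (L + 1)) * ((P.image Prod.snd).card : ℝ) := by
    apply card_fib P Prod.snd
    intro v
    have hinj : ((P.filter fun a => a.2 = v).image Prod.fst).card =
        (P.filter fun a => a.2 = v).card := by
      apply Finset.card_image_of_injOn
      intro x hx y hy hxy
      rw [Finset.mem_coe, Finset.mem_filter] at hx hy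
      exact Prod.ext hxy (hx.2.trans hy.2.symm)
    rw [← hinj]
    apply card_tn_between _ hL0
    intro u hu u' hu'
    rw [Finset.mem_image] at hu hu'
    obtain ⟨p, hp, rfl⟩ := hu
    obtain ⟨p', hp', rfl⟩ := hu'
    rw [Finset.mem_filter] at hp hp'
    by_cases hlt : (tn p.1 : ℝ) ≤ tn p'.1
    · linarith only [hL0, hlt]
    push Not at hlt
    have k1 := (key p hp.1).2
    have k2 := (key p' hp'.1).2
    have q1 := (Finset.mem_filter.1 (hP ▸ hp.1)).2
    have q2 := (Finset.mem_filter.1 (hP ▸ hp'.1)).2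
    have g1 := gap (M := M) (Nat.cast_nonneg (tn p'.1)) hlt.le (tn_small p.1 q1.1)
    have e1 := (abs_le.1 q1.2.2).2
    have e2 := (abs_le.1 q2.2.2).1
    rw [hp.2] at e1
    rw [hp'.2] at e2
    have e3 : gu p.1 - gu p'.1 ≤ 2 * r := by linarith only [e1, e2]
    rw [gu_eq, gu_eq] at e3
    have e4 : Xs M (tn p.1) ^ 2 - Xs M (tn p'.1) ^ 2 =
        (Xs M (tn p.1) - Xs M (tn p'.1)) * (Xs M (tn p.1) + Xs M (tn p'.1)) := by ring
    rw [e4] at e3
    have e5 : 0 ≤ 3 * ((tn p.1 : ℝ) - tn p'.1) / M := by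
      apply div_nonneg _ hM.le
      linarith only [hlt]
    have e6 : (3 * ((tn p.1 : ℝ) - tn p'.1) / M) * Real.sqrt a ≤ 2 * r := by
      refine le_trans ?_ e3
      apply mul_le_mul g1 (by linarith only [k1, k2]) hsa.le (e5.trans g1)
    have e7 : (tn p.1 : ℝ) - tn p'.1 ≤ L := by
      rw [hL, le_div_iff₀ (by positivity)]
      have : (3 * ((tn p.1 : ℝ) - tn p'.1) / M) * Real.sqrt a =
          ((tn p.1 : ℝ) - tn p'.1) * (3 * Real.sqrt a) / M := by ring
      rw [this, div_le_iff₀ hM] at e6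
      exact e6
    linarith only [e7]
  have h2 : ((P.image Prod.snd).card : ℝ) ≤ 2 * (M * Real.sqrt a / 4) + 1 := by
    refine le_trans ?_ (card_tn_le (M := M) (by positivity))
    have : (P.image Prod.snd) ⊆
        Finset.univ.filter fun u : ZMod M => (tn u : ℝ) ≤ M * Real.sqrt a / 4 := by
      intro v hv
      rw [Finset.mem_image] at hv
      obtain ⟨p, hp, rfl⟩ := hv
      rw [Finset.mem_filter]
      refine ⟨Finset.mem_univ _, tn_of_le _ hsa.le ?_⟩
      rw [hsq]
      have q1 := (Finset.mem_filter.1 (hP ▸ hp)).2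
      have e1 := (abs_le.1 q1.2.2).2
      have := q1.2.1
      linarith only [ha, hr0, q1, e1]
    exact_mod_cast Finset.card_le_card this
  have h3 : (P.card : ℝ) ≤ (2 * (L + 1)) * (2 * (M * Real.sqrt a / 4) + 1) :=
    h1.trans (mul_le_mul_of_nonneg_left h2 (by positivity))
  refine h3.trans ?_
  have e1 : (2 * (L + 1)) * (2 * (M * Real.sqrt a / 4) + 1) =
      2 / 3 * (M : ℝ) ^ 2 * r + 4 / 3 * (M * r / Real.sqrt a) + M * Real.sqrt a + 2 := by
    rw [hL]
    field_simp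
    ring
  rw [e1]
  have e2 : (M : ℝ) ≤ (M : ℝ) ^ 2 * r := by nlinarith only [hr]
  have e3 : (1 : ℝ) ≤ (M : ℝ) ^ 2 * r := hM1.trans e2
  have e4 : M * Real.sqrt a ≤ 1.8 * ((M : ℝ) ^ 2 * r) := by
    have : Real.sqrt a ≤ 1.8 := by
      rw [Real.sqrt_le_left (by norm_num)]
      norm_num
      linarith only [ha3]
    nlinarith only [e2, this]
  have e5 : M * r / Real.sqrt a ≤ (M : ℝ) ^ 2 * r := by
    rw [div_le_iff₀ hsa]
    have hs : (1 : ℝ) ≤ M * Real.sqrt a := by
      have h6 : Real.sqrt r ≤ Real.sqrt a := Real.sqrt_le_sqrt (by linarith only [ha, hr0])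
      have h7 : r ≤ Real.sqrt r := by
        apply Real.le_sqrt_of_sq_le
        nlinarith only [hr1, hr0]
      nlinarith only [hr, h6, h7]
    have : M * r * 1 ≤ M * r * (M * Real.sqrt a) :=
      mul_le_mul_of_nonneg_left hs (by positivity)
    nlinarith only [this]
  nlinarith only [hM, hM1, e2, e4, e5]

lemma two {M : ℕ} [NeZero M] {a r : ℝ} (hr : 1 ≤ M * r) :
    ((Finset.univ.filter fun p : ZMod M × ZMod M => gu p.1 ≤ 1 ∧ gu p.2 ≤ 1 ∧
      |gu p.1 + gu p.2 - a| ≤ r).card : ℝ) ≤ 12 * (M : ℝ) ^ 2 * r := by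
  have hM : (0 : ℝ) < M := by exact_mod_cast Nat.pos_of_ne_zero (NeZero.ne M)
  have hM1 : (1 : ℝ) ≤ M := by exact_mod_cast Nat.pos_of_ne_zero (NeZero.ne M)
  have hr0 : 0 < r := by
    by_contra hc
    push Not at hc
    nlinarith only [hr, hc]
  by_cases hr1 : r ≤ 1
  swap
  · push Not at hr1
    have h1 : ((Finset.univ.filter fun p : ZMod M × ZMod M => gu p.1 ≤ 1 ∧ gu p.2 ≤ 1 ∧
      |gu p.1 + gu p.2 - a| ≤ r).card : ℝ) ≤ (M : ℝ) ^ 2 := by
      have h2 := Finset.card_filter_le (Finset.univ : Finset (ZMod M × ZMod M))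
        (fun p : ZMod M × ZMod M => gu p.1 ≤ 1 ∧ gu p.2 ≤ 1 ∧ |gu p.1 + gu p.2 - a| ≤ r)
      rw [Finset.card_univ, Fintype.card_prod, ZMod.card] at h2
      have h3 : ((Finset.univ.filter fun p : ZMod M × ZMod M => gu p.1 ≤ 1 ∧ gu p.2 ≤ 1 ∧
        |gu p.1 + gu p.2 - a| ≤ r).card : ℝ) ≤ ((M * M : ℕ) : ℝ) := by exact_mod_cast h2
      rw [Nat.cast_mul, ← sq] at h3
      exact h3
    nlinarith [sq_nonneg (M : ℝ)]
  by_cases ha : a ≤ 2 * r
  · set K : ℝ := M * Real.sqrt (3 * r) / 4 with hK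
    have hK0 : 0 ≤ K := by positivity
    have hsub : (Finset.univ.filter fun p : ZMod M × ZMod M => gu p.1 ≤ 1 ∧ gu p.2 ≤ 1 ∧
        |gu p.1 + gu p.2 - a| ≤ r) ⊆
        (Finset.univ.filter fun u : ZMod M => (tn u : ℝ) ≤ K) ×ˢ
          (Finset.univ.filter fun u : ZMod M => (tn u : ℝ) ≤ K) := by
      intro p hp
      rw [Finset.mem_filter] at hp
      obtain ⟨-, h1, h2, h3⟩ := hp
      have h4 := (abs_le.1 h3).2
      rw [Finset.mem_product, Finset.mem_filter, Finset.mem_filter]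
      have g1 := gu_nonneg p.1
      have g2 := gu_nonneg p.2
      have hs : Real.sqrt (3 * r) ^ 2 = 3 * r := Real.sq_sqrt (by positivity)
      exact ⟨⟨Finset.mem_univ _, tn_of_le _ (Real.sqrt_nonneg _) (by rw [hs]; linarith only [ha, h4, g2])⟩,
        ⟨Finset.mem_univ _, tn_of_le _ (Real.sqrt_nonneg _) (by rw [hs]; linarith only [ha, h4, g1])⟩⟩
    have h1 := Finset.card_le_card hsub
    rw [Finset.card_product] at h1
    have h2 : ((Finset.univ.filter fun p : ZMod M × ZMod M => gu p.1 ≤ 1 ∧ gu p.2 ≤ 1 ∧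
        |gu p.1 + gu p.2 - a| ≤ r).card : ℝ) ≤ (2 * K + 1) ^ 2 := by
      have h3 : ((Finset.univ.filter fun p : ZMod M × ZMod M => gu p.1 ≤ 1 ∧ gu p.2 ≤ 1 ∧
        |gu p.1 + gu p.2 - a| ≤ r).card : ℝ) ≤
          ((Finset.univ.filter fun u : ZMod M => (tn u : ℝ) ≤ K).card : ℝ) *
          ((Finset.univ.filter fun u : ZMod M => (tn u : ℝ) ≤ K).card : ℝ) := by
        exact_mod_cast h1
      have h4 := card_tn_le (M := M) hK0
      have h5 : (0 : ℝ) ≤ ((Finset.univ.filter fun u : ZMod M => (tn u : ℝ) ≤ K).card : ℝ) :=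
        Nat.cast_nonneg _
      rw [sq]
      exact h3.trans (mul_le_mul h4 h4 h5 (by positivity))
    refine h2.trans ?_
    have hs : Real.sqrt (3 * r) ^ 2 = 3 * r := Real.sq_sqrt (by positivity)
    have h6 : (1 : ℝ) ≤ M * Real.sqrt (3 * r) := by
      have h7 : r ≤ Real.sqrt (3 * r) := by
        apply Real.le_sqrt_of_sq_le
        nlinarith only [hr, hM1, hr0, hr1]
      nlinarith only [hr, h7]
    have h8 : 2 * K + 1 ≤ 3 / 2 * (M * Real.sqrt (3 * r)) := by
      rw [hK]; linarith only [h6]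
    have h9 : (2 * K + 1) ^ 2 ≤ (3 / 2 * (M * Real.sqrt (3 * r))) ^ 2 :=
      pow_le_pow_left₀ (by positivity) h8 2
    have h10 : (3 / 2 * (M * Real.sqrt (3 * r))) ^ 2 = 27 / 4 * ((M : ℝ) ^ 2 * r) := by
      rw [mul_pow, mul_pow, hs]; ring
    rw [h10] at h9
    have h11 : 0 ≤ (M : ℝ) ^ 2 * r := by positivity
    linarith
  · push Not at ha
    have h1 := half (M := M) hr hr1 ha
    set P1 := Finset.univ.filter fun p : ZMod M × ZMod M => gu p.1 ≤ 1 ∧ gu p.2 ≤ gu p.1 ∧
      |gu p.1 + gu p.2 - a| ≤ r with hP1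
    have hsub : (Finset.univ.filter fun p : ZMod M × ZMod M => gu p.1 ≤ 1 ∧ gu p.2 ≤ 1 ∧
        |gu p.1 + gu p.2 - a| ≤ r) ⊆ P1 ∪ P1.image Prod.swap := by
      intro p hp
      rw [Finset.mem_filter] at hp
      obtain ⟨-, q1, q2, q3⟩ := hp
      rw [Finset.mem_union]
      rcases le_total (gu p.2) (gu p.1) with h | h
      · left
        rw [hP1, Finset.mem_filter]
        exact ⟨Finset.mem_univ _, q1, h, q3⟩
      · right
        rw [Finset.mem_image]
        refine ⟨p.swap, ?_, Prod.swap_swap p⟩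
        rw [hP1, Finset.mem_filter]
        refine ⟨Finset.mem_univ _, q2, h, ?_⟩
        show |gu p.2 + gu p.1 - a| ≤ r
        rw [add_comm (gu p.2)]
        exact q3
    have h2 := (Finset.card_le_card hsub).trans (Finset.card_union_le _ _)
    have h3 : (P1.image Prod.swap).card ≤ P1.card := Finset.card_image_le
    have h4 : ((Finset.univ.filter fun p : ZMod M × ZMod M => gu p.1 ≤ 1 ∧ gu p.2 ≤ 1 ∧
        |gu p.1 + gu p.2 - a| ≤ r).card : ℝ) ≤ (P1.card : ℝ) + (P1.card : ℝ) := by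
      exact_mod_cast h2.trans (Nat.add_le_add_left h3 _)
    linarith

lemma ds_eq {d M : ℕ} (p : Tor d M) : ds p = ∑ i, gu (p i) := rfl

lemma cnt {d M : ℕ} [NeZero M] (hd : 3 ≤ d) {e l r : ℝ} (he : 0 < e) (he1 : e ≤ 1)
    (hr : 1 ≤ M * r) (hMe : 1 ≤ M * Real.sqrt e) :
    ((Finset.univ.filter fun p : Tor d M => ds p ≤ e ∧ |ds p - l| ≤ r).card : ℝ) ≤
      12 * (M : ℝ) ^ 2 * r * (3 / 2 * (M * Real.sqrt e)) ^ (d - 2) := by
  classical
  have hM : (0 : ℝ) < M := by exact_mod_cast Nat.pos_of_ne_zero (NeZero.ne M)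
  have hr0 : 0 < r := by
    by_contra hc
    push Not at hc
    nlinarith only [hr, hc]
  set i0 : Fin d := ⟨0, by omega⟩ with hi0
  set i1 : Fin d := ⟨1, by omega⟩ with hi1
  have hne : i1 ≠ i0 := by
    intro h
    have := congrArg Fin.val h
    simp [hi0, hi1] at this
  set S := Finset.univ.filter fun p : Tor d M => ds p ≤ e ∧ |ds p - l| ≤ r with hS
  set f : Tor d M → Tor d M := fun p => Function.update (Function.update p i0 0) i1 0 with hf
  have hf0 : ∀ p : Tor d M, ∀ i, i ≠ i0 → i ≠ i1 → f p i = p i := by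
    intro p i h0 h1
    simp only [hf]
    rw [Function.update_of_ne h1, Function.update_of_ne h0]
  have hf1 : ∀ p : Tor d M, ∀ i, i = i0 ∨ i = i1 → f p i = 0 := by
    intro p i h
    simp only [hf]
    by_cases h1 : i = i1
    · rw [h1, Function.update_self]
    · rw [Function.update_of_ne h1]
      rcases h with h | h
      · rw [h, Function.update_self]
      · exact absurd h h1
  have hds : ∀ p : Tor d M, ds p = gu (p i0) + (gu (p i1) +
      ∑ i ∈ (Finset.univ.erase i0).erase i1, gu (p i)) := by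
    intro p
    rw [ds_eq, ← Finset.add_sum_erase Finset.univ (fun i => gu (p i)) (Finset.mem_univ i0),
      ← Finset.add_sum_erase (Finset.univ.erase i0) (fun i => gu (p i))
        (Finset.mem_erase.2 ⟨hne, Finset.mem_univ i1⟩)]
  have hgle : ∀ p : Tor d M, ∀ i, gu (p i) ≤ ds p := by
    intro p i
    rw [ds_eq]
    exact Finset.single_le_sum (f := fun i => gu (p i)) (fun i _ => gu_nonneg _)
      (Finset.mem_univ i)
  have h1 : (S.card : ℝ) ≤ (12 * (M : ℝ) ^ 2 * r) * ((S.image f).card : ℝ) := by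
    apply card_fib S f
    intro q
    set c := ∑ i ∈ (Finset.univ.erase i0).erase i1, gu (q i) with hc
    refine le_trans ?_ (two (M := M) (a := l - c) hr)
    have : (S.filter fun a => f a = q).card ≤ (Finset.univ.filter fun p : ZMod M × ZMod M =>
        gu p.1 ≤ 1 ∧ gu p.2 ≤ 1 ∧ |gu p.1 + gu p.2 - (l - c)| ≤ r).card := by
      apply Finset.card_le_card_of_injOn (fun p => (p i0, p i1))
      · intro p hp
        rw [Finset.mem_coe, Finset.mem_filter] at hp
        obtain ⟨hp1, hp2⟩ := hp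
        rw [hS, Finset.mem_filter] at hp1
        rw [Finset.mem_coe, Finset.mem_filter]
        refine ⟨Finset.mem_univ _, ((hgle p i0).trans hp1.2.1).trans he1,
          ((hgle p i1).trans hp1.2.1).trans he1, ?_⟩
        have h3 := hp1.2.2
        have hcc : ∑ i ∈ (Finset.univ.erase i0).erase i1, gu (p i) = c := by
          rw [hc]
          apply Finset.sum_congr rfl
          intro i hi
          rw [Finset.mem_erase, Finset.mem_erase] at hi
          rw [← hp2, hf0 p i hi.2.1 hi.1]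
        rw [hds p, hcc] at h3
        have h4 : gu (p i0) + gu (p i1) - (l - c) = gu (p i0) + (gu (p i1) + c) - l := by ring
        show |gu (p i0) + gu (p i1) - (l - c)| ≤ r
        rw [h4]
        exact h3
      · intro p hp p' hp' hpp
        rw [Finset.mem_coe, Finset.mem_filter] at hp hp'
        have e0 : p i0 = p' i0 := congrArg Prod.fst hpp
        have e1 : p i1 = p' i1 := congrArg Prod.snd hpp
        funext i
        by_cases h0 : i = i0
        · rw [h0]; exact e0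
        by_cases h1 : i = i1
        · rw [h1]; exact e1
        rw [← hf0 p i h0 h1, ← hf0 p' i h0 h1, hp.2, hp'.2]
    exact_mod_cast this
  have h2 : ((S.image f).card : ℝ) ≤ (3 / 2 * (M * Real.sqrt e)) ^ (d - 2) := by
    set B := Finset.univ.filter fun u : ZMod M => (tn u : ℝ) ≤ M * Real.sqrt e / 4 with hB
    have hBc : (B.card : ℝ) ≤ 3 / 2 * (M * Real.sqrt e) := by
      have := card_tn_le (M := M) (K := M * Real.sqrt e / 4) (by positivity)
      rw [hB]
      linarith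
    have hsub : S.image f ⊆ Fintype.piFinset
        (fun i : Fin d => if i = i0 ∨ i = i1 then ({0} : Finset (ZMod M)) else B) := by
      intro q hq
      rw [Finset.mem_image] at hq
      obtain ⟨p, hp, rfl⟩ := hq
      rw [hS, Finset.mem_filter] at hp
      rw [Fintype.mem_piFinset]
      intro i
      by_cases h : i = i0 ∨ i = i1
      · rw [if_pos h, Finset.mem_singleton]
        exact hf1 p i h
      · rw [if_neg h]
        push Not at h
        rw [hf0 p i h.1 h.2, hB, Finset.mem_filter]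
        refine ⟨Finset.mem_univ _, tn_of_le _ (Real.sqrt_nonneg _) ?_⟩
        rw [Real.sq_sqrt he.le]
        exact (hgle p i).trans hp.2.1
    have hcard := Finset.card_le_card hsub
    rw [Fintype.card_piFinset] at hcard
    have hprod : ∏ i : Fin d, (if i = i0 ∨ i = i1 then ({0} : Finset (ZMod M)) else B).card =
        B.card ^ (d - 2) := by
      have e1 : ∀ i : Fin d, (if i = i0 ∨ i = i1 then ({0} : Finset (ZMod M)) else B).card =
          if i ∈ (Finset.univ.erase i0).erase i1 then B.card else 1 := by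
        intro i
        by_cases h : i = i0 ∨ i = i1
        · rw [if_pos h, if_neg, Finset.card_singleton]
          rw [Finset.mem_erase, Finset.mem_erase]
          rintro ⟨a1, a2, -⟩
          rcases h with h | h
          · exact a2 h
          · exact a1 h
        · rw [if_neg h, if_pos]
          push Not at h
          exact Finset.mem_erase.2 ⟨h.2, Finset.mem_erase.2 ⟨h.1, Finset.mem_univ i⟩⟩
      rw [Finset.prod_congr rfl fun i _ => e1 i, Finset.prod_ite_mem, Finset.univ_inter,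
        Finset.prod_const]
      congr 1
      rw [Finset.card_erase_of_mem (Finset.mem_erase.2 ⟨hne, Finset.mem_univ i1⟩),
        Finset.card_erase_of_mem (Finset.mem_univ i0), Finset.card_univ, Fintype.card_fin]
      omega
    rw [hprod] at hcard
    have h3 : ((S.image f).card : ℝ) ≤ (B.card : ℝ) ^ (d - 2) := by exact_mod_cast hcard
    exact h3.trans (pow_le_pow_left₀ (Nat.cast_nonneg _) hBc _)
  exact h1.trans (mul_le_mul_of_nonneg_left h2 (by positivity))

/-! ### the kernel -/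

lemma kern {x η : ℝ} (hη : 0 < η) (J : ℕ) (hJ : |x| ≤ 2 ^ J * η) :
    η / (x ^ 2 + η ^ 2) ≤
      ∑ j ∈ Finset.range (J + 1), 4 / (4 ^ j * η) * (if |x| ≤ 2 ^ j * η then 1 else 0) := by
  classical
  have hex : ∃ j : ℕ, |x| ≤ 2 ^ j * η := ⟨J, hJ⟩
  set j0 := Nat.find hex with hj0
  have hle : j0 ≤ J := Nat.find_min' hex hJ
  have hspec : |x| ≤ 2 ^ j0 * η := Nat.find_spec hex
  have h1 : 4 / (4 ^ j0 * η) * (if |x| ≤ 2 ^ j0 * η then (1 : ℝ) else 0) ≤
      ∑ j ∈ Finset.range (J + 1), 4 / (4 ^ j * η) * (if |x| ≤ 2 ^ j * η then 1 else 0) := by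
    apply Finset.single_le_sum
      (f := fun j : ℕ => 4 / (4 ^ j * η) * (if |x| ≤ 2 ^ j * η then (1 : ℝ) else 0))
    · intro j _
      apply mul_nonneg (by positivity)
      split_ifs <;> norm_num
    · rw [Finset.mem_range]; omega
  refine le_trans ?_ h1
  rw [if_pos hspec, mul_one]
  rcases Nat.eq_zero_or_pos j0 with h0 | h0
  · rw [h0, pow_zero, one_mul, div_le_div_iff₀ (by positivity) hη]
    nlinarith only [sq_nonneg x, sq_nonneg η]
  · obtain ⟨j, hj⟩ : ∃ j, j0 = j + 1 := ⟨j0 - 1, by omega⟩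
    have hn : ¬ |x| ≤ 2 ^ j * η := Nat.find_min hex (by omega)
    push Not at hn
    have h2 : (2 ^ j * η) ^ 2 ≤ x ^ 2 := by
      rw [← sq_abs x]
      exact pow_le_pow_left₀ (by positivity) hn.le 2
    have h3 : ((2 : ℝ) ^ j * η) ^ 2 = 4 ^ j * η ^ 2 := by
      rw [mul_pow, ← pow_mul, mul_comm j 2, pow_mul]
      norm_num
    rw [h3] at h2
    rw [hj, div_le_div_iff₀ (by positivity) (by positivity), pow_succ]
    have h4 : 0 ≤ η ^ 2 := by positivity
    nlinarith only [h2]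

theorem dst : DstStmt := by
  classical
  intro d hd
  set C : ℝ := 96 * (3 / 2) ^ (d - 2) with hC
  have hC1 : 1 ≤ C := by
    have : (1 : ℝ) ≤ (3 / 2) ^ (d - 2) := one_le_pow₀ (by norm_num)
    rw [hC]; linarith only [this]
  refine ⟨C, hC1, ?_⟩
  intro M _ e l η hη hηe he1 hM'
  have hM : (0 : ℝ) < M := by exact_mod_cast Nat.pos_of_ne_zero (NeZero.ne M)
  have he : 0 < e := hη.trans_le hηe
  have hMη : 1 ≤ M * η := by
    rw [div_le_iff₀ hη] at hM'
    linarith only [hC1, hM']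
  have hMe : 1 ≤ M * Real.sqrt e := by
    have h1 : e ≤ Real.sqrt e := by
      apply Real.le_sqrt_of_sq_le
      nlinarith only [hη, hηe, he1]
    have h2 : M * η ≤ M * Real.sqrt e := mul_le_mul_of_nonneg_left (hηe.trans h1) hM.le
    linarith only [hMη, h2]
  obtain ⟨J, hJ⟩ : ∃ J : ℕ, ∀ p : Tor d M, |ds p - l| ≤ 2 ^ J * η := by
    obtain ⟨J, hJ⟩ := pow_unbounded_of_one_lt
      ((∑ p : Tor d M, |ds p - l|) / η) (one_lt_two : (1 : ℝ) < 2)
    refine ⟨J, fun p => ?_⟩
    rw [div_lt_iff₀ hη] at hJ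
    refine le_trans ?_ hJ.le
    exact Finset.single_le_sum (f := fun p : Tor d M => |ds p - l|)
      (fun p _ => abs_nonneg _) (Finset.mem_univ p)
  set D : ℝ := 12 * (M : ℝ) ^ 2 * (3 / 2 * (M * Real.sqrt e)) ^ (d - 2) with hD
  have hD0 : 0 ≤ D := by positivity
  have hsum : (∑ p : Tor d M, if ds p ≤ e then η / ((ds p - l) ^ 2 + η ^ 2) else 0) ≤ 8 * D := by
    calc (∑ p : Tor d M, if ds p ≤ e then η / ((ds p - l) ^ 2 + η ^ 2) else 0)
        ≤ ∑ p : Tor d M, ∑ j ∈ Finset.range (J + 1), 4 / (4 ^ j * η) *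
            (if ds p ≤ e ∧ |ds p - l| ≤ 2 ^ j * η then 1 else 0) := by
          apply Finset.sum_le_sum
          intro p _
          by_cases hp : ds p ≤ e
          · rw [if_pos hp]
            refine (kern hη J (hJ p)).trans (le_of_eq ?_)
            apply Finset.sum_congr rfl
            intro j _
            by_cases hq : |ds p - l| ≤ 2 ^ j * η
            · rw [if_pos hq, if_pos ⟨hp, hq⟩]
            · rw [if_neg hq, if_neg fun h => hq h.2]
          · rw [if_neg hp]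
            apply Finset.sum_nonneg
            intro j _
            apply mul_nonneg (by positivity)
            split_ifs <;> norm_num
      _ = ∑ j ∈ Finset.range (J + 1), 4 / (4 ^ j * η) *
            ((Finset.univ.filter fun p : Tor d M => ds p ≤ e ∧ |ds p - l| ≤ 2 ^ j * η).card : ℝ) := by
          rw [Finset.sum_comm]
          apply Finset.sum_congr rfl
          intro j _
          rw [← Finset.mul_sum, Finset.sum_boole]
      _ ≤ ∑ j ∈ Finset.range (J + 1), 4 * D * (1 / 2) ^ j := by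
          apply Finset.sum_le_sum
          intro j _
          have h2 : (1 : ℝ) ≤ 2 ^ j := one_le_pow₀ (by norm_num)
          have h1 := cnt (M := M) hd (l := l) (r := 2 ^ j * η) he he1 (by nlinarith only [hMη, h2]) hMe
          have h3 : 4 / (4 ^ j * η) * (12 * (M : ℝ) ^ 2 * (2 ^ j * η) *
              (3 / 2 * (M * Real.sqrt e)) ^ (d - 2)) = 4 * D * (1 / 2) ^ j := by
            rw [hD]
            have h4 : (4 : ℝ) ^ j = 2 ^ j * 2 ^ j := by rw [← mul_pow]; norm_num
            rw [h4, div_pow, one_pow]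
            field_simp
          rw [← h3]
          exact mul_le_mul_of_nonneg_left h1 (by positivity)
      _ = 4 * D * ∑ j ∈ Finset.range (J + 1), (1 / 2 : ℝ) ^ j := by rw [Finset.mul_sum]
      _ ≤ 4 * D * 2 := by
          apply mul_le_mul_of_nonneg_left _ (by positivity)
          rw [geom_sum_eq (by norm_num)]
          have : (0 : ℝ) < (1 / 2) ^ (J + 1) := by positivity
          rw [div_le_iff_of_neg (by norm_num)]
          linarith only [this]
      _ = 8 * D := by ring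
  unfold pm
  rw [div_le_iff₀ (by positivity)]
  refine hsum.trans (le_of_eq ?_)
  have hpow : Real.sqrt e ^ (d - 2) = e ^ (((d : ℝ) - 2) / 2) := by
    rw [Real.sqrt_eq_rpow, ← Real.rpow_natCast, ← Real.rpow_mul he.le]
    congr 1
    rw [Nat.cast_sub (by omega)]
    push_cast
    ring
  have hMd : (M : ℝ) ^ d = (M : ℝ) ^ 2 * (M : ℝ) ^ (d - 2) := by
    rw [← pow_add]
    congr 1
    omega
  rw [hD, hC, ← hpow, hMd, mul_pow, mul_pow]
  ring

end Pool.Agent.LE.IR.H55
end
end -- Pool.Agent.Helper55_LIR.DST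

section -- Pool.Agent.Helper65_LSJ.FLQ

/-!
# FLQ: flatness of the landscape function, explicit dependence on the precision `ε`
-/

set_option autoImplicit false
set_option linter.unusedSectionVars false

open scoped Topology ENNReal NNReal
open MeasureTheory Filter ProbabilityTheory

noncomputable section

namespace Pool.Agent.LE.H65J

open Pool.Agent.Anderson Pool.Agent.Loc Pool.Agent.Mob Pool.Agent.Helper54.Bal Pool.Agent.LY
  Pool.Agent.LE.H54 Pool.Agent.LE.H54W Pool.Agent.BED Pool.Agent.LE.H81Z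

/-- flatness of the landscape function; the constants do not depend on `ε` -/
theorem flatQ (d : ℕ) (hd : 3 ≤ d) :
    ∃ C : ℝ, 1 ≤ C ∧
      ∀ (ε : ℝ), 0 < ε → ε ≤ 1 / 50 → ∀ (M : ℕ) [NeZero M] (t : ℝ) (σ : ℝ≥0) (p : ℝ),
      3 ≤ M → 1 ≤ t → t ≤ M → 0 < σ → σ ≤ 1 →
      p = (88 + 4 * C) * (1 + Real.log t) * (M : ℝ) ^ d *
        Real.exp (-(ε ^ 2 / (288000 * C ^ 2)) / ((σ : ℝ) ^ 2 * growth d t)) →
      p ≤ 1 / 2 →
      ∃ z μ : ℝ, 10 * t ≤ μ ∧ μ ≤ 12 * t ∧ z ≤ 2 * d + 1 ∧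
        |z - 2 * d| ≤ (88 + 4 * C) * ((σ : ℝ) ^ 2 + 1 / t + Real.sqrt p) ∧
        gau d M (σ ^ 2) {V | ¬ FlatE ε z μ V} ≤ ENNReal.ofReal p := by
  obtain ⟨C, hC, hSumC⟩ := sumAll d hd
  have hC0 : 0 < C := by linarith only [hC]
  refine ⟨C, hC, ?_⟩
  intro ε hε hε1 M _ t σ p hM ht htM hσ hσ1 hp hp2
  have hgr := one_le_growth d ht
  have hlog := Real.log_nonneg ht
  have hσ' : (0 : ℝ) < σ := hσ
  have hMpos : (0 : ℝ) < M := by exact_mod_cast Nat.pos_of_ne_zero (NeZero.ne M)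
  have hSum' : ∀ (z a : ℝ) (V : Tor d M → ℝ), z ≤ 2 * d + 1 → (∀ x, -1 ≤ V x) →
      (AM z V).PosDef → 1 / 2 ≤ a → a ≤ 15 * t → (∀ x, a ≤ DD z V x) →
      (∀ x, DD z V x ≤ 3 / 2 * a) →
      ∀ x, ∑ y, (GM z V x y) ^ 2 ≤ C * growth d t ∧ GM z V x x ≤ C :=
    fun z a V h1 h2 h3 h4 h5 h6 h7 => hSumC M z t a V hM ht htM h1 h2 h3 h4 h5 h6 h7
  obtain ⟨v, hv⟩ : ∃ v : ℝ≥0, v = σ ^ 2 := ⟨_, rfl⟩
  have hvv : (v : ℝ) = (σ : ℝ) ^ 2 := by rw [hv]; push_cast; rfl
  obtain ⟨K, hK⟩ : ∃ K : ℕ, K = ⌈40 * (1 + Real.log t)⌉₊ := ⟨_, rfl⟩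
  obtain ⟨q, hq⟩ : ∃ q : ℝ, q = (M : ℝ) ^ d * qq C (C * growth d t) v := ⟨_, rfl⟩
  have hq0 : 0 < q := by
    have := qq_pos C (C * growth d t) v
    rw [hq]
    positivity
  have hsg : 0 < (σ : ℝ) ^ 2 * growth d t := by positivity
  obtain ⟨E, hE⟩ : ∃ E : ℝ, E = Real.exp (-(ε ^ 2 / (288000 * C ^ 2)) /
    ((σ : ℝ) ^ 2 * growth d t)) := ⟨_, rfl⟩
  have hE0 : 0 < E := by rw [hE]; exact Real.exp_pos _
  have hsq : (C + Real.sqrt (C * growth d t)) ^ 2 ≤ 4 * C ^ 2 * growth d t := by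
    have h1 : Real.sqrt (C * growth d t) ≤ C * Real.sqrt (growth d t) := by
      rw [Real.sqrt_mul (by positivity)]
      refine mul_le_mul_of_nonneg_right ?_ (Real.sqrt_nonneg _)
      rw [Real.sqrt_le_left (by positivity)]
      nlinarith only [hC]
    have h2 : C ≤ C * Real.sqrt (growth d t) := by
      have : 1 ≤ Real.sqrt (growth d t) := Real.one_le_sqrt.2 hgr
      nlinarith only [hC, this]
    have h4 : C + Real.sqrt (C * growth d t) ≤ 2 * C * Real.sqrt (growth d t) := by linarith only [h1, h2]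
    have h5 : 0 ≤ C + Real.sqrt (C * growth d t) := by positivity
    calc (C + Real.sqrt (C * growth d t)) ^ 2 ≤ (2 * C * Real.sqrt (growth d t)) ^ 2 :=
          pow_le_pow_left₀ h5 h4 2
      _ = 4 * C ^ 2 * (Real.sqrt (growth d t)) ^ 2 := by ring
      _ = 4 * C ^ 2 * growth d t := by rw [Real.sq_sqrt (by linarith only [hε, hε1, hgr])]
  have hsqpos : 0 < (C + Real.sqrt (C * growth d t)) ^ 2 := by positivity
  have hε2 : ε ^ 2 ≤ 1 := by nlinarith only [hε, hε1]
  -- comparison of the probabilities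
  have hqq : qq C (C * growth d t) v ≤ 2 * E := by
    unfold qq
    rw [hE]
    refine mul_le_mul_of_nonneg_left (Real.exp_le_exp.2 ?_) (by norm_num)
    rw [hvv, neg_div, neg_div, neg_le_neg_iff, div_div]
    have h1 : ε ^ 2 / (288000 * C ^ 2 * ((σ : ℝ) ^ 2 * growth d t)) ≤
        1 / (288000 * C ^ 2 * ((σ : ℝ) ^ 2 * growth d t)) :=
      div_le_div_of_nonneg_right hε2 (by positivity)
    refine h1.trans (one_div_le_one_div_of_le (by positivity) ?_)
    calc 72000 * (C + Real.sqrt (C * growth d t)) ^ 2 * (σ : ℝ) ^ 2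
        ≤ 72000 * (4 * C ^ 2 * growth d t) * (σ : ℝ) ^ 2 := by gcongr
      _ = 288000 * C ^ 2 * ((σ : ℝ) ^ 2 * growth d t) := by ring
  have hKle : (K : ℝ) + 2 ≤ 43 * (1 + Real.log t) := by
    have := (Nat.ceil_lt_add_one (a := 40 * (1 + Real.log t)) (by positivity)).le
    rw [← hK] at this
    linarith only [hlog, this]
  have hM0 : 0 < (M : ℝ) ^ d := by positivity
  have hKq : ((K : ℝ) + 2) * q ≤ 86 * ((1 + Real.log t) * (M : ℝ) ^ d * E) := by
    have hq2 : q ≤ (M : ℝ) ^ d * (2 * E) := by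
      rw [hq]
      exact mul_le_mul_of_nonneg_left hqq hM0.le
    calc ((K : ℝ) + 2) * q ≤ (43 * (1 + Real.log t)) * ((M : ℝ) ^ d * (2 * E)) :=
          mul_le_mul hKle hq2 hq0.le (by positivity)
      _ = 86 * ((1 + Real.log t) * (M : ℝ) ^ d * E) := by ring
  have hME : (M : ℝ) ^ d * (2 * E) ≤ 2 * ((1 + Real.log t) * (M : ℝ) ^ d * E) := by
    have h1 : 0 ≤ Real.log t * ((M : ℝ) ^ d * E) := by positivity
    have h2 : 2 * ((1 + Real.log t) * (M : ℝ) ^ d * E) =
        (M : ℝ) ^ d * (2 * E) + 2 * (Real.log t * ((M : ℝ) ^ d * E)) := by ring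
    linarith only [h1]
  have hpE : p = (88 + 4 * C) * ((1 + Real.log t) * (M : ℝ) ^ d * E) := by
    rw [hp, hE]; ring
  have hnn : 0 ≤ (1 + Real.log t) * (M : ℝ) ^ d * E := by positivity
  have hpq : ((K : ℝ) + 2) * q + (M : ℝ) ^ d * (2 * E) ≤ p := by
    rw [hpE]
    have h1 : 0 ≤ 4 * C * ((1 + Real.log t) * (M : ℝ) ^ d * E) := by positivity
    have h2 : (88 + 4 * C) * ((1 + Real.log t) * (M : ℝ) ^ d * E) =
        88 * ((1 + Real.log t) * (M : ℝ) ^ d * E) +
          4 * C * ((1 + Real.log t) * (M : ℝ) ^ d * E) := by ring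
    linarith only [hKq, hME, h1]
  have hpq' : ((K : ℝ) + 2) * q ≤ p := by
    have : 0 ≤ (M : ℝ) ^ d * (2 * E) := by positivity
    linarith only [hpq, this]
  obtain ⟨z, μ, m, F, U, hS, halt⟩ := induct H55.gc H61.mcs H61.cov H73.stepD hC
    (by linarith only [hε, hε1, hgr]) ht hSum' (v := v) K (by rw [← hq]; linarith only [hε, hε1, hp2, hpq'])
  rw [← hq] at hS
  have hμ : 10 * t ≤ μ ∧ μ ≤ 12 * t := by
    rcases halt with h | ⟨h1, h2⟩
    · exact h
    · exfalso
      have := ten_le_pow ht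
      rw [← hK] at this
      linarith only [h1, h2, this]
  have hp'0 : 0 < ((K : ℝ) + 2) * q := by positivity
  have hμ0 := hS.μpos
  have hm0 := hS.mpos
  have hprob := flatE_of_stage hε hC hp'0.le hS
  rw [hv] at hS
  have hest := est H61.cov hC σ hσ hσ1 hS hp'0 (by linarith only [hp2, hpq'])
  refine ⟨z, μ, hμ.1, hμ.2, hS.zle, ?_, ?_⟩
  · refine hest.trans ?_
    have h1 : 1 / μ ≤ 1 / t := one_div_le_one_div_of_le (by linarith only [hε, hε1, ht]) (by linarith only [hμ.1, hε, hε1, ht])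
    have h2 : Real.sqrt (((K : ℝ) + 2) * q) ≤ Real.sqrt p := Real.sqrt_le_sqrt hpq'
    have h3 : 0 ≤ 1 / t := by positivity
    have h4 := Real.sqrt_nonneg p
    have h5 : 0 ≤ (σ : ℝ) ^ 2 := by positivity
    have h6 : 0 ≤ C * (1 / t) := by positivity
    have h7 : 0 ≤ C * Real.sqrt p := by positivity
    have h8 : (88 + 4 * C) * ((σ : ℝ) ^ 2 + 1 / t + Real.sqrt p) =
        88 * (σ : ℝ) ^ 2 + 4 * (C * (σ : ℝ) ^ 2) + 88 * (1 / t) + 4 * (C * (1 / t)) +
          88 * Real.sqrt p + 4 * (C * Real.sqrt p) := by ring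
    rw [h8]
    linarith only [hv, h1, h2, h3, h4, h6, h7]
  · rw [hv] at hprob
    refine hprob.trans (ENNReal.ofReal_le_ofReal (le_trans ?_ hpq))
    have hexp : Real.exp (-((ε * μ) ^ 2) /
        (5 * (m * (C + Real.sqrt (C * growth d t))) ^ 2 * ((σ ^ 2 : ℝ≥0) : ℝ))) ≤ E := by
      rw [hE]
      refine Real.exp_le_exp.2 ?_
      rw [← hv, hvv, neg_div, neg_div, neg_le_neg_iff, div_div]
      have hmμ : m ^ 2 ≤ 1.21 * μ ^ 2 := by
        have h1 := hS.mle
        calc m ^ 2 ≤ (1.1 * μ) ^ 2 := pow_le_pow_left₀ hm0.le h1 2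
          _ = 1.21 * μ ^ 2 := by ring
      rw [div_le_div_iff₀ (by positivity) (by positivity)]
      have h1 : 5 * (m * (C + Real.sqrt (C * growth d t))) ^ 2 * (σ : ℝ) ^ 2 ≤
          μ ^ 2 * (288000 * C ^ 2 * ((σ : ℝ) ^ 2 * growth d t)) := by
        calc 5 * (m * (C + Real.sqrt (C * growth d t))) ^ 2 * (σ : ℝ) ^ 2
            = 5 * (m ^ 2 * (C + Real.sqrt (C * growth d t)) ^ 2) * (σ : ℝ) ^ 2 := by ring
          _ ≤ 5 * ((1.21 * μ ^ 2) * (4 * C ^ 2 * growth d t)) * (σ : ℝ) ^ 2 := by gcongr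
          _ = 24.2 * (μ ^ 2 * (C ^ 2 * ((σ : ℝ) ^ 2 * growth d t))) := by ring
          _ ≤ 288000 * (μ ^ 2 * (C ^ 2 * ((σ : ℝ) ^ 2 * growth d t))) :=
              mul_le_mul_of_nonneg_right (by norm_num) (by positivity)
          _ = μ ^ 2 * (288000 * C ^ 2 * ((σ : ℝ) ^ 2 * growth d t)) := by ring
      calc ε ^ 2 * (5 * (m * (C + Real.sqrt (C * growth d t))) ^ 2 * (σ : ℝ) ^ 2)
          ≤ ε ^ 2 * (μ ^ 2 * (288000 * C ^ 2 * ((σ : ℝ) ^ 2 * growth d t))) :=
            mul_le_mul_of_nonneg_left h1 (by positivity)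
        _ = (ε * μ) ^ 2 * (288000 * C ^ 2 * ((σ : ℝ) ^ 2 * growth d t)) := by ring
    have h2 : (M : ℝ) ^ d * (2 * Real.exp (-((ε * μ) ^ 2) /
        (5 * (m * (C + Real.sqrt (C * growth d t))) ^ 2 * ((σ ^ 2 : ℝ≥0) : ℝ)))) ≤
        (M : ℝ) ^ d * (2 * E) := by
      refine mul_le_mul_of_nonneg_left ?_ hM0.le
      linarith only [hexp]
    linarith only [h2]


theorem flq : Pool.Agent.LE.IR.FlqStmt := by
  intro d hd
  obtain ⟨C, hC, hflat⟩ := flatQ d hd
  have hC0 : 0 < C := by linarith only [hC]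
  refine ⟨1 / (288000 * C ^ 2), 88 + 4 * C, by positivity, by positivity, ?_⟩
  intro M' v σ t ε p hσ hσ1 hv hM' ht htM hε hε1 hp hp2
  have hs : 0 < |σ| := abs_pos.2 hσ
  have hN : NeZero M' := ⟨by omega⟩
  obtain ⟨σ', hσ'⟩ : ∃ σ' : ℝ≥0, σ' = ⟨|σ|, hs.le⟩ := ⟨_, rfl⟩
  have hσ'r : (σ' : ℝ) = |σ| := by rw [hσ']; rfl
  have hσ'0 : 0 < σ' := by
    rw [← NNReal.coe_pos, hσ'r]
    exact hs
  have hσ'1 : σ' ≤ 1 := by
    rw [← NNReal.coe_le_coe, hσ'r]
    simpa using hσ1
  have hvv : v = σ' ^ 2 := by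
    apply NNReal.coe_injective
    push_cast
    rw [hσ'r, sq_abs]
    exact hv
  have hce : 1 / (288000 * C ^ 2) * ε ^ 2 = ε ^ 2 / (288000 * C ^ 2) := by ring
  obtain ⟨z, μ, hμ1, hμ2, hz, hz2, hprob⟩ := hflat ε hε hε1 M' t σ' p hM' ht htM hσ'0 hσ'1
    (by rw [hσ'r, sq_abs, hp, hce]) hp2
  rw [hσ'r, sq_abs] at hz2
  rw [← hvv] at hprob
  exact ⟨z, μ, hz2, hz, hμ1, hμ2, fun _ => hprob⟩

end Pool.Agent.LE.H65J
end
end -- Pool.Agent.Helper65_LSJ.FLQ

section -- Pool.Agent.Helper95_LIR.SMS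

/-!
# SMS: sums over the low momenta
-/

set_option autoImplicit false
set_option linter.unusedSectionVars false

open scoped BigOperators

noncomputable section

namespace Pool.Agent.LE.IR.H95

open Pool.Agent.Anderson hiding box mem_box card_box
open Pool.Agent.Loc Pool.Agent.Mob Pool.Agent.Helper54.Bal
  Pool.Agent.Helper96.EXP Pool.Agent.BED
open Pool.Agent.LE.MN Pool.Agent.LE.CL

variable {d M : ℕ} [NeZero M]

theorem pm_mono {F G : Tor d M → ℝ} (h : ∀ p, F p ≤ G p) : pm F ≤ pm G := by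
  unfold pm
  exact div_le_div_of_nonneg_right (Finset.sum_le_sum fun p _ => h p) (by positivity)

theorem pm_lin (F G : Tor d M → ℝ) (a b : ℝ) :
    pm (fun p => a * F p + b * G p) = a * pm F + b * pm G := by
  unfold pm
  rw [Finset.sum_add_distrib, ← Finset.mul_sum, ← Finset.mul_sum]
  ring

theorem pm_sum {ι : Type} (s : Finset ι) (F : ι → Tor d M → ℝ) (a : ℝ) :
    pm (fun p => a * ∑ j ∈ s, F j p) = a * ∑ j ∈ s, pm (F j) := by
  unfold pm
  rw [← Finset.mul_sum, Finset.sum_comm, ← Finset.sum_div]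
  ring

theorem mt_sq (l η : ℝ) (p : Tor d M) : mt l η p ^ 2 = (ds p - l) ^ 2 + η ^ 2 := by
  unfold mt
  rw [Real.sq_sqrt (by positivity)]

/-- `1 / m` is bounded by one of the kernels -/
theorem kern {η κ u : ℝ} {N : ℕ} (hη : 0 < η) (hu0 : 0 ≤ u) (huκ : u ≤ κ)
    (hN2' : κ < 2 ^ (N + 1) * η) : ∃ j ∈ Finset.range (N + 1), (Real.sqrt (u ^ 2 + η ^ 2))⁻¹ ≤
            5 * ((2 ^ j * η) / (u ^ 2 + (2 ^ j * η) ^ 2)) := by
  by_cases hcase : u ≤ η
  · refine ⟨0, Finset.mem_range.2 (by omega), ?_⟩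
    have h2 : (Real.sqrt (u ^ 2 + η ^ 2))⁻¹ ≤ η⁻¹ := by
      apply inv_anti₀ hη
      exact Real.le_sqrt_of_sq_le (by nlinarith only)
    refine h2.trans ?_
    rw [pow_zero, one_mul, inv_eq_one_div, ← mul_div_assoc,
      div_le_div_iff₀ hη (by positivity)]
    nlinarith only [hη, hu0, hcase]
  · have hcase' := not_le.1 hcase
    obtain ⟨j, hj1, hj2⟩ := exists_nat_pow_near (x := u / η) (y := (2 : ℝ)) (by
      rw [le_div_iff₀ hη]
      linarith) (by norm_num)
    have hj1' : 2 ^ j * η ≤ u := by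
      rwa [le_div_iff₀ hη] at hj1
    have hj2' : u < 2 ^ (j + 1) * η := by
      rwa [div_lt_iff₀ hη] at hj2
    have hjN : j < N + 1 := by
      have h2 : (2 : ℝ) ^ j * η < 2 ^ (N + 1) * η := by linarith only [huκ, hN2', hj1']
      have h3 := lt_of_mul_lt_mul_right h2 hη.le
      exact (pow_lt_pow_iff_right₀ (by norm_num)).1 h3
    refine ⟨j, Finset.mem_range.2 hjN, ?_⟩
    have hu1 : 0 < u := by linarith only [hη, hcase]
    have h2 : (Real.sqrt (u ^ 2 + η ^ 2))⁻¹ ≤ u⁻¹ := by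
      apply inv_anti₀ hu1
      exact Real.le_sqrt_of_sq_le (by nlinarith only)
    refine h2.trans ?_
    set t : ℝ := 2 ^ j * η with ht
    have ht0 : 0 < t := by positivity
    have hj3 : u < 2 * t := by
      rw [pow_succ] at hj2'
      rw [ht]
      linarith only [hj2']
    rw [inv_eq_one_div, ← mul_div_assoc, div_le_div_iff₀ hu1 (by positivity)]
    nlinarith only [hη, hcase, hj1', ht0, hj3]

theorem sms (hDST : DstStmt) : SmsStmt := by
  intro d hd
  obtain ⟨C, hC1, hC⟩ := hDST d hd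
  set s : ℝ := ((d : ℝ) - 2) / 2 with hs
  have hd3 : (3 : ℝ) ≤ d := by exact_mod_cast hd
  have hs0 : 0 < s := by
    rw [hs]
    linarith only [hd3]
  have h4s : (0 : ℝ) < 4 ^ s := Real.rpow_pos_of_pos (by norm_num) _
  refine ⟨C * 4 ^ s + 11 * C, ?_, ?_⟩
  · have : 0 ≤ C * 4 ^ s := by positivity
    linarith only [hC1, this]
  intro M _ l η κ hη hηl hlκ hκ1 hM
  have hl : 0 < l := lt_of_lt_of_le hη hηl
  have hκ : 0 < κ := by linarith only [hη, hηl, hlκ]
  have hη1 : η ≤ 1 := by linarith only [hη, hηl, hlκ, hκ1]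
  have hCη : C / η ≤ M := by
    refine le_trans ?_ hM
    refine div_le_div_of_nonneg_right ?_ hη.le
    have : 0 ≤ C * 4 ^ s := by positivity
    linarith only [hC1, hη, hηl, hlκ, hκ1, this]
  have hge : ∀ t, η ≤ t → C / t ≤ M := by
    intro t ht
    refine le_trans ?_ hCη
    exact div_le_div_of_nonneg_left (by linarith only [hC1, hη, hηl, hlκ, hκ1]) hη ht
  have hls : 0 < l ^ s := Real.rpow_pos_of_pos hl _
  have hκs : 0 < κ ^ s := Real.rpow_pos_of_pos hκ _
  constructor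
  · intro hyp
    have hA := hC M (4 * l) l η hη (by linarith only [hη, hηl]) (by linarith only [hlκ, hκ1]) hCη
    have hB := hC M κ 0 κ hκ le_rfl hκ1 (hge κ (by linarith only [hη, hηl, hlκ]))
    have h1 : pm (fun p : Tor d M => if ds p ≤ κ then (mt l η p ^ 2)⁻¹ else 0) ≤
        (1 / η) * pm (fun p : Tor d M => if ds p ≤ 4 * l then η / ((ds p - l) ^ 2 + η ^ 2) else 0) +
        (2 * κ / (9 * l ^ 2)) *
          pm (fun p : Tor d M => if ds p ≤ κ then κ / ((ds p - 0) ^ 2 + κ ^ 2) else 0) := by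
      rw [← pm_lin]
      refine pm_mono fun p => ?_
      rw [mt_sq]
      have hpos : 0 < (ds p - l) ^ 2 + η ^ 2 := by positivity
      have hpos2 : 0 < (ds p - 0) ^ 2 + κ ^ 2 := by positivity
      by_cases hp : ds p ≤ κ
      · rw [if_pos hp, if_pos hp]
        have hn2 : 0 ≤ 2 * κ / (9 * l ^ 2) * (κ / ((ds p - 0) ^ 2 + κ ^ 2)) := by positivity
        by_cases hp4 : ds p ≤ 4 * l
        · rw [if_pos hp4]
          have h2 : 1 / η * (η / ((ds p - l) ^ 2 + η ^ 2)) = ((ds p - l) ^ 2 + η ^ 2)⁻¹ := by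
            field_simp
          rw [h2]
          linarith only [hn2]
        · rw [if_neg hp4, mul_zero, zero_add]
          have hp4' := not_le.1 hp4
          have h2 : ((ds p - l) ^ 2 + η ^ 2)⁻¹ ≤ (9 * l ^ 2)⁻¹ := by
            apply inv_anti₀ (by positivity)
            nlinarith only [hη, hηl, hlκ, hκ1, hp4]
          refine h2.trans ?_
          have h3 : 1 / 2 ≤ κ * (κ / ((ds p - 0) ^ 2 + κ ^ 2)) := by
            rw [← mul_div_assoc, div_le_div_iff₀ (by norm_num) hpos2]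
            have : (ds p) ^ 2 ≤ κ ^ 2 := pow_le_pow_left₀ (by linarith only [hη, hηl, hp4]) hp 2
            nlinarith only [this]
          have h4 : 2 * κ / (9 * l ^ 2) * (κ / ((ds p - 0) ^ 2 + κ ^ 2)) =
              (9 * l ^ 2)⁻¹ * (2 * (κ * (κ / ((ds p - 0) ^ 2 + κ ^ 2)))) := by
            field_simp
          rw [h4]
          have h5 : (9 * l ^ 2)⁻¹ * 1 ≤
              (9 * l ^ 2)⁻¹ * (2 * (κ * (κ / ((ds p - 0) ^ 2 + κ ^ 2)))) :=
            mul_le_mul_of_nonneg_left (by linarith only [h3]) (by positivity)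
          linarith only [h5]
      · rw [if_neg hp, if_neg hp, mul_zero, add_zero]
        split_ifs
        · positivity
        · simp
    refine h1.trans ?_
    have h2 : (1 / η) * pm (fun p : Tor d M => if ds p ≤ 4 * l then η / ((ds p - l) ^ 2 + η ^ 2)
        else 0) ≤ (1 / η) * (C * (4 * l) ^ s) := mul_le_mul_of_nonneg_left hA (by positivity)
    have h3 : (2 * κ / (9 * l ^ 2)) *
          pm (fun p : Tor d M => if ds p ≤ κ then κ / ((ds p - 0) ^ 2 + κ ^ 2) else 0) ≤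
          (2 * κ / (9 * l ^ 2)) * (C * κ ^ s) := mul_le_mul_of_nonneg_left hB (by positivity)
    have h4 : (1 / η) * (C * (4 * l) ^ s) = C * 4 ^ s * l ^ s / η := by
      rw [Real.mul_rpow (by norm_num) hl.le]
      ring
    -- `κ^{1+s} η ≤ l^{s+2}`
    have hx : 1 ≤ κ / l := by
      rw [le_div_iff₀ hl]
      linarith only [hη, hηl, hlκ]
    have h5 : (κ / l) ^ (s + 1) ≤ (κ / l) ^ d := by
      rw [← Real.rpow_natCast]
      refine Real.rpow_le_rpow_of_exponent_le hx ?_
      rw [hs]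
      linarith only [hd3, hη, hηl, hlκ, hκ1]
    have h6 : η * (κ / l) ^ (s + 1) ≤ l := (mul_le_mul_of_nonneg_left h5 hη.le).trans hyp
    have h7 : (κ / l) ^ (s + 1) = κ ^ s * κ / (l ^ s * l) := by
      rw [Real.div_rpow hκ.le hl.le, Real.rpow_add_one hκ.ne', Real.rpow_add_one hl.ne']
    rw [h7] at h6
    have h8 : κ ^ s * κ / l ^ 2 ≤ l ^ s / η := by
      rw [div_le_div_iff₀ (by positivity) hη]
      have h9 : η * (κ ^ s * κ / (l ^ s * l)) * (l ^ s * l) ≤ l * (l ^ s * l) :=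
        mul_le_mul_of_nonneg_right h6 (by positivity)
      have h10 : η * (κ ^ s * κ / (l ^ s * l)) * (l ^ s * l) = κ ^ s * κ * η := by
        field_simp
      rw [h10] at h9
      linarith only [h9]
    have h11 : (2 * κ / (9 * l ^ 2)) * (C * κ ^ s) = 2 / 9 * C * (κ ^ s * κ / l ^ 2) := by
      field_simp
    have h12 : 2 / 9 * C * (κ ^ s * κ / l ^ 2) ≤ 2 / 9 * C * (l ^ s / η) :=
      mul_le_mul_of_nonneg_left h8 (by positivity)
    have h13 : (C * 4 ^ s + 11 * C) * l ^ s / η = C * 4 ^ s * l ^ s / η + 11 * C * (l ^ s / η) := by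
      ring
    rw [h13]
    have h14 : 2 / 9 * C * (l ^ s / η) ≤ 11 * C * (l ^ s / η) := by
      refine mul_le_mul_of_nonneg_right ?_ (by positivity)
      linarith only [hC1, hη, hηl, hlκ, hκ1]
    linarith
  · obtain ⟨N, hN1, hN2⟩ := exists_nat_pow_near (x := κ / η) (y := (2 : ℝ)) (by
      rw [le_div_iff₀ hη]
      linarith only [hη, hηl, hlκ]) (by norm_num)
    have hN1' : 2 ^ N * η ≤ κ := by
      rwa [le_div_iff₀ hη] at hN1
    have hN2' : κ < 2 ^ (N + 1) * η := by
      rwa [div_lt_iff₀ hη] at hN2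
    have hj : ∀ j ∈ Finset.range (N + 1), η ≤ 2 ^ j * η ∧ 2 ^ j * η ≤ κ := by
      intro j hj
      have hj1 : j ≤ N := by
        have := Finset.mem_range.1 hj
        omega
      constructor
      · have : (1 : ℝ) ≤ 2 ^ j := one_le_pow₀ (by norm_num)
        nlinarith only [hη, this]
      · refine le_trans ?_ hN1'
        exact mul_le_mul_of_nonneg_right (pow_le_pow_right₀ (by norm_num) hj1) hη.le
    have h1 : pm (fun p : Tor d M => if ds p ≤ κ then (mt l η p)⁻¹ else 0) ≤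
        5 * ∑ j ∈ Finset.range (N + 1), pm (fun p : Tor d M =>
          if ds p ≤ κ then (2 ^ j * η) / ((ds p - l) ^ 2 + (2 ^ j * η) ^ 2) else 0) := by
      rw [← pm_sum]
      refine pm_mono fun p => ?_
      by_cases hp : ds p ≤ κ
      · rw [if_pos hp]
        simp only [if_pos hp]
        have hds : 0 ≤ ds p := by
          unfold ds
          refine Finset.sum_nonneg fun i _ => ?_
          have := Real.cos_le_one (2 * Real.pi * ((p i).valMinAbs : ℝ) / M)
          linarith only [this]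
        set u : ℝ := |ds p - l| with hu
        have hu0 : 0 ≤ u := abs_nonneg _
        have hu2 : (ds p - l) ^ 2 = u ^ 2 := (sq_abs _).symm
        have huκ : u ≤ κ := by
          rw [hu, abs_le]
          constructor
          · linarith only [hη, hηl, hlκ, hds]
          · linarith only [hη, hηl, hp]
        rw [hu2]
        have hmt : mt l η p = Real.sqrt (u ^ 2 + η ^ 2) := by
          unfold mt
          rw [hu2]
        rw [hmt]
        have key := kern hη hu0 huκ hN2'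
        obtain ⟨j, hj1, hj2⟩ := key
        refine hj2.trans (mul_le_mul_of_nonneg_left ?_ (by norm_num))
        refine Finset.single_le_sum (f := fun j : ℕ => (2 ^ j * η) / (u ^ 2 + (2 ^ j * η) ^ 2))
          (fun i _ => ?_) hj1
        positivity
      · rw [if_neg hp]
        simp only [if_neg hp]
        simp
    refine h1.trans ?_
    have h2 : ∑ j ∈ Finset.range (N + 1), pm (fun p : Tor d M =>
          if ds p ≤ κ then (2 ^ j * η) / ((ds p - l) ^ 2 + (2 ^ j * η) ^ 2) else 0) ≤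
        ∑ j ∈ Finset.range (N + 1), C * κ ^ s := by
      refine Finset.sum_le_sum fun j hj' => ?_
      obtain ⟨h3, h4⟩ := hj j hj'
      exact hC M κ l (2 ^ j * η) (by linarith only [hη, h3]) h4 hκ1 (hge _ h3)
    rw [Finset.sum_const, Finset.card_range, nsmul_eq_mul] at h2
    have hlog : (N : ℝ) + 1 ≤ 2 * (1 + Real.log (1 / η)) := by
      have h3 : (N : ℝ) * Real.log 2 ≤ Real.log (1 / η) := by
        rw [← Real.log_pow]
        refine Real.log_le_log (by positivity) (hN1.trans ?_)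
        exact div_le_div_of_nonneg_right hκ1 hη.le
      have h4 : 0 ≤ Real.log (1 / η) := Real.log_nonneg (by
        rw [le_div_iff₀ hη]
        linarith only [hη, hηl, hlκ, hκ1])
      have h5 := Real.log_two_gt_d9
      have h6 : (N : ℝ) * (1 / 2) ≤ N * Real.log 2 :=
        mul_le_mul_of_nonneg_left (by linarith only [hη, hηl, hlκ, hκ1, h5]) (Nat.cast_nonneg _)
      linarith only [hη, hηl, hlκ, hκ1, h3, h6]
    have h7 : ((N + 1 : ℕ) : ℝ) * (C * κ ^ s) ≤ 2 * (1 + Real.log (1 / η)) * (C * κ ^ s) := by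
      refine mul_le_mul_of_nonneg_right ?_ (by positivity)
      push_cast
      exact hlog
    have h8 : 0 ≤ Real.log (1 / η) := Real.log_nonneg (by
        rw [le_div_iff₀ hη]
        linarith only [hη, hηl, hlκ, hκ1])
    have h9 : 0 ≤ κ ^ s * (1 + Real.log (1 / η)) := by positivity
    have h10 : 0 ≤ C * 4 ^ s * (κ ^ s * (1 + Real.log (1 / η))) := by positivity
    have h11 : 0 ≤ C * (κ ^ s * (1 + Real.log (1 / η))) := by positivity
    have h12 : (C * 4 ^ s + 11 * C) * κ ^ s * (1 + Real.log (1 / η)) =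
      C * 4 ^ s * (κ ^ s * (1 + Real.log (1 / η))) + 11 * (C * (κ ^ s * (1 + Real.log (1 / η)))) := by
      ring
    rw [h12]
    have h13 : 2 * (1 + Real.log (1 / η)) * (C * κ ^ s) =
      2 * (C * (κ ^ s * (1 + Real.log (1 / η)))) := by ring
    rw [h13] at h7
    linarith

end Pool.Agent.LE.IR.H95
end
end -- Pool.Agent.Helper95_LIR.SMS

section -- Pool.Agent.Helper54_LIR.All

/-!
# The Lyapunov exponent between the effective band edge and the bulk: assembly
-/

set_option autoImplicit false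

open MeasureTheory ProbabilityTheory

noncomputable section

namespace Pool.Agent.LE.IR.H54

open Pool.Agent.Anderson Pool.Agent.Loc Pool.Agent.Helper54.Bal Pool.Agent.Mob
  Pool.Agent.BED Pool.Agent.LE.CL

theorem khlT : KhlStmt := H49.khl H64.nck

theorem floT : FloStmt := H27.flo H62.lfl

theorem ffbT : FfbStmt := H49.ffb ftb

theorem smsT : SmsStmt := H95.sms H55.dst

theorem srcT : SrcStmt := H6.src H19.hke (H76.fmo H95.cvb)

theorem tseT : TseStmt := H32.tse H53.kbe H55.dst smsT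

theorem pieOf (pae : PaeStmt) : PieStmt :=
  H3.pie (cpe floT khlT ffbT smsT tseT
    (H56.cle (H32.ble H17.laq (H24.hse ftb) pae) srcT smsT)) CL.H54.crgT

/-- the bound between the effective band edge and the bulk -/
theorem pieT : PieStmt := pieOf (H46.pae ftb)

theorem flqT : FlqStmt := Pool.Agent.LE.H65J.flq

end Pool.Agent.LE.IR.H54
end
end -- Pool.Agent.Helper54_LIR.All
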