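import Pool.Agent.Helper12_MEB.B038
import Pool.Agent.Helper12_MEB.B081
import Pool.Agent.Helper12_MEB.B139

/-!
# Merged copies (generated) of the modules

* `Pool.Agent.Helper56_LSH.ELE`
* `Pool.Agent.Helper93_LSH.Edge2`
* `Pool.Agent.Helper93_LSH.AllZ`
* `Pool.Agent.Helper93_LSF.All`
* `Pool.Agent.Helper93_LSF.All2`
-/

set_option autoImplicit false

section -- Pool.Agent.Helper56_LSH.ELE

set_option autoImplicit false

open MeasureTheory ProbabilityTheory Function Filter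

open scoped ENNReal BigOperators Topology NNReal

noncomputable section

namespace Pool.Agent.LE.H56Z

open Pool.Agent.LE

/-- `s² ≤ e^s + e^{-s} - 2` -/
theorem sq_le_cosh (s : ℝ) : s ^ 2 ≤ Real.exp s + Real.exp (-s) - 2 := by
  have h0 : ∀ x : ℝ, x ^ 2 ≤ Real.sinh x ^ 2 := by
    intro x
    rcases le_total 0 x with h | h
    · have := Real.self_le_sinh_iff.2 h
      nlinarith only [h, this]
    · have h1 := Real.self_le_sinh_iff.2 (neg_nonneg.2 h)
      rw [Real.sinh_neg] at h1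
      nlinarith only [h, h1]
  have h1 := h0 (s / 2)
  have h2 : Real.cosh s = Real.cosh (2 * (s / 2)) := by ring_nf
  rw [Real.cosh_two_mul, Real.cosh_sq] at h2
  have h3 := Real.cosh_eq s
  nlinarith only [h1, h2, h3]

theorem exp_ge (s : ℝ) : -|s| ≤ Real.exp s - 1 := by
  have h1 := Real.add_one_le_exp s
  have h2 := neg_abs_le s
  linarith

theorem ele1 (A B s : ℝ) (hA : 0 ≤ A) (hAB : A ≤ B) :
    1 / 2 * A ^ 2 * s ^ 2 - 3 * (A - B) ^ 2 ≤
      A ^ 2 * (Real.exp s - 1) + B ^ 2 * (Real.exp (-s) - 1) := by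
  have hr : 0 < Real.exp s := Real.exp_pos s
  have hi : 0 < Real.exp (-s) := Real.exp_pos (-s)
  have hri : Real.exp s * Real.exp (-s) = 1 := by rw [← Real.exp_add]; simp
  have hs := sq_le_cosh s
  set r := Real.exp s with hrdef
  set q := Real.exp (-s) with hqdef
  obtain ⟨δ, hδ⟩ : ∃ δ : ℝ, δ = B - A := ⟨_, rfl⟩
  have hδ0 : 0 ≤ δ := by linarith
  have hB : B = A + δ := by linarith
  subst hB
  have hK : (1 - q) ^ 2 ≤ r + q - 2 ∨ 1 ≤ q := by
    by_cases h : q ≤ 1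
    · left
      have h1 : (1 - q) ^ 2 = q ^ 2 - 2 * q + 1 := by ring
      have h2 : q * (r + q - 2) = (1 - q) ^ 2 := by
        have : q * (r + q - 2) = r * q + q ^ 2 - 2 * q := by ring
        rw [this, hri]
        ring
      have h3 : 0 ≤ r + q - 2 := by nlinarith only [sq_nonneg s, hs]
      nlinarith only [mul_nonneg (sub_nonneg.2 h) h3, hri]
    · right
      exact (not_le.1 h).le
  have hA2 : 0 ≤ A ^ 2 := sq_nonneg A
  have hmain : A ^ 2 * (r - 1) + (A + δ) ^ 2 * (q - 1) =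
      A ^ 2 * (r + q - 2) + (2 * A * δ + δ ^ 2) * (q - 1) := by ring
  rw [hmain]
  have hsA : A ^ 2 * s ^ 2 ≤ A ^ 2 * (r + q - 2) := mul_le_mul_of_nonneg_left hs hA2
  have hsA0 : 0 ≤ A ^ 2 * s ^ 2 := by positivity
  have hAδ : 0 ≤ A * δ := mul_nonneg hA hδ0
  rcases hK with h | h
  · have h1 : A ^ 2 * (1 - q) ^ 2 ≤ A ^ 2 * (r + q - 2) := mul_le_mul_of_nonneg_left h hA2
    have h2 : 0 ≤ (A * (1 - q) - 2 * δ) ^ 2 := sq_nonneg _
    have h3 : 0 ≤ δ ^ 2 * q := by positivity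
    nlinarith
  · have h1 : 0 ≤ (2 * A * δ + δ ^ 2) * (q - 1) := by
      apply mul_nonneg _ (by linarith)
      nlinarith only [sq_nonneg δ, hAδ]
    nlinarith only [sq_nonneg δ, hsA, hsA0, h1]

theorem ele : EleStmt := by
  constructor
  · intro A B s hA hB
    rcases le_total A B with h | h
    · rw [min_eq_left h]
      exact ele1 A B s hA h
    · rw [min_eq_right h]
      have h1 := ele1 B A (-s) hB h
      rw [neg_neg] at h1
      nlinarith only [h1]
  · intro A B s hA hB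
    have hs := sq_le_cosh s
    have e1 := exp_ge s
    have e2 := exp_ge (-s)
    rw [abs_neg] at e2
    rcases le_total A B with h | h
    · rw [min_eq_left h, abs_of_nonpos (by linarith)]
      nlinarith only [mul_le_mul_of_nonneg_left hs hA, mul_le_mul_of_nonneg_left e2 (sub_nonneg.2 h)]
    · rw [min_eq_right h, abs_of_nonneg (by linarith)]
      nlinarith only [mul_le_mul_of_nonneg_left hs hB, mul_le_mul_of_nonneg_left e1 (sub_nonneg.2 h)]

end Pool.Agent.LE.H56Z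
end
end -- Pool.Agent.Helper56_LSH.ELE

section -- Pool.Agent.Helper93_LSH.Edge2

/-!
# The effective band edge: exact asymptotics, both edges
-/

set_option autoImplicit false

open MeasureTheory ProbabilityTheory Function Filter

open scoped ENNReal BigOperators Topology NNReal

noncomputable section

namespace Pool.Agent.LE.H93Z

open Pool.Agent.Anderson Pool.Agent.Loc Pool.Agent.Mob Pool.Agent.Helper54.Bal Pool.Agent.BED

/-- the phase diagram at weak disorder -/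
theorem edge_sharp (qms : QmsStmt) (wkd : WkdStmt) : ∀ (d : ℕ) (ε : ℝ), 3 ≤ d → 0 < ε → ε < 1 →
    ∃ c C : ℝ, 0 < c ∧ 0 < C ∧
    ∀ σ t : ℝ, σ ≠ 0 → |σ| ≤ c → 1 / σ ^ 2 ≤ t → σ ^ 2 * growth d t * Real.log t ≤ c →
    ∃ Es : ℝ, |Es - 2 * d| ≤ C * σ ^ 2 ∧
      (∀ E g : ℝ, Es + 1 / t ≤ |E| → LyaAt d σ E g → c * Real.sqrt (min (|E| - Es) 1) ≤ g) ∧
      (∀ E g : ℝ, Es + 1 / t ≤ |E| → |E| ≤ Es + c → LyaAt d σ E g →
        (1 - ε) * Real.sqrt (|E| - Es) ≤ g ∧ g ≤ (1 + ε) * Real.sqrt (|E| - Es)) ∧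
      (∀ E g : ℝ, |(|E| - Es)| ≤ |σ| → LyaAt d σ E g → g ≤ C * (|(|E| - Es)| + 1 / t) ^ c) ∧
      ∀ E g : ℝ, |E| ≤ Es → LyaAt d σ E g → g ≤ C * |σ| ^ c := by
  intro d ε hd3 hε hε1
  have hd : 1 ≤ d := by omega
  have hdR : (3 : ℝ) ≤ d := by exact_mod_cast hd3
  obtain ⟨c, C, hc, hC, h⟩ := qms d ε hd3 hε hε1
  obtain ⟨C₂, hC₂, hw⟩ := wkd d hd
  obtain ⟨a, ha⟩ : ∃ a : ℝ, a = 1 / ((d : ℝ) * (d + 4)) := ⟨_, rfl⟩
  have ha0 : 0 < a := by rw [ha]; positivity
  obtain ⟨c', hc'⟩ : ∃ c' : ℝ, c' = min (min c a) (min (1 / (2 * C + 2)) (1 / 4)) := ⟨_, rfl⟩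
  have hc'0 : 0 < c' := by rw [hc']; positivity
  have hc1 : c' ≤ c := by rw [hc']; exact (min_le_left _ _).trans (min_le_left _ _)
  have hc2 : c' ≤ a := by rw [hc']; exact (min_le_left _ _).trans (min_le_right _ _)
  have hc3 : (2 * C + 2) * c' ≤ 1 := by
    have : c' ≤ 1 / (2 * C + 2) := by
      rw [hc']; exact (min_le_right _ _).trans (min_le_left _ _)
    rw [le_div_iff₀ (by positivity)] at this
    linarith only [this]
  have hc4 : c' ≤ 1 / 4 := by rw [hc']; exact (min_le_right _ _).trans (min_le_right _ _)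
  refine ⟨c', C + C₂ + C * (2 * C + 2), hc'0, by positivity, ?_⟩
  intro σ t hσ hσc hσt2 hu
  have hσ0 : 0 < |σ| := abs_pos.2 hσ
  have hσ1 : |σ| ≤ 1 := by linarith only [hc'0, hc4, hσc]
  have hσsq : σ ^ 2 ≤ |σ| := by
    rw [← sq_abs, pow_two]
    have := mul_le_mul_of_nonneg_left hσ1 hσ0.le
    linarith only [this]
  have hσsqp : 0 < σ ^ 2 := by positivity
  have hσt : 1 / |σ| ≤ t := (one_div_le_one_div_of_le hσsqp hσsq).trans hσt2
  have ht0 : 0 < t := lt_of_lt_of_le (by positivity) hσt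
  have h1t0 : 0 < 1 / t := by positivity
  have h1t : 1 / t ≤ |σ| := by
    rw [div_le_iff₀ ht0]
    rw [div_le_iff₀ hσ0] at hσt
    linarith only [hσt]
  have ht1 : 1 ≤ t := by
    refine le_trans ?_ hσt
    rw [le_div_iff₀ hσ0]
    linarith only [hc'0, hc4, hσc]
  have hσsq0 := sq_nonneg σ
  have h1tσ : 1 / t ≤ σ ^ 2 := by
    rw [div_le_iff₀ ht0]
    rw [div_le_iff₀ hσsqp] at hσt2
    linarith only [hσt2]
  obtain ⟨Es, hEs, h1, h1s, h2⟩ := h σ t hσ (hσc.trans hc1) hσt (hu.trans hc1)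
  have hEs2 : |Es - 2 * d| ≤ 2 * C * σ ^ 2 := by
    refine hEs.trans ?_
    have := mul_le_mul_of_nonneg_left (by linarith only [h1tσ] : σ ^ 2 + 1 / t ≤ 2 * σ ^ 2) hC.le
    linarith only [this]
  have hEs1 : |Es - 2 * d| ≤ |σ| := by
    refine hEs2.trans ?_
    have h0 : σ ^ 2 = |σ| * |σ| := by rw [← sq_abs, pow_two]
    rw [h0, ← mul_assoc]
    have h3 := mul_le_mul_of_nonneg_left hσc (by positivity : (0 : ℝ) ≤ 2 * C)
    have h4 : 2 * C * |σ| ≤ 1 := by linarith only [hc'0, hc3, h3]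
    have := mul_le_mul_of_nonneg_right h4 hσ0.le
    linarith only [this]
  -- symmetry
  have key : ∀ (E g : ℝ), LyaAt d σ E g → LyaAt d σ |E| g := by
    intro E g hg
    rcases abs_choice E with he | he
    · rw [he]; exact hg
    · rw [he]; exact H96C.lya_negE hg
  have hmono : ∀ x : ℝ, 0 < x → x ≤ 1 → x ^ c ≤ x ^ c' := fun x hx hx1 =>
    Real.rpow_le_rpow_of_exponent_ge hx hx1 hc1
  have hup : ∀ E g : ℝ, |(|E| - Es)| ≤ |σ| → LyaAt d σ E g →
      g ≤ C * (|(|E| - Es)| + 1 / t) ^ c' := by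
    intro E g hE hg
    refine (h2 |E| g hE (key E g hg)).trans ?_
    have hx0 : 0 < |(|E| - Es)| + 1 / t := by
      have := abs_nonneg (|E| - Es)
      linarith only [h1t0, this]
    exact mul_le_mul_of_nonneg_left (hmono _ hx0 (by linarith only [hc'0, hc4, hσc, h1t, hE])) hC.le
  refine ⟨Es, ?_, ?_, ?_, ?_, ?_⟩
  · refine hEs2.trans ?_
    refine mul_le_mul_of_nonneg_right ?_ hσsq0
    have : 0 ≤ C * (2 * C) := by positivity
    linarith only [hC, hC₂, this]
  · intro E g hE hg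
    refine le_trans ?_ (h1 |E| g hE (key E g hg))
    exact mul_le_mul_of_nonneg_right hc1 (Real.sqrt_nonneg _)
  · intro E g hE hE2 hg
    exact h1s |E| g hE (by linarith only [hc1, hE2]) (key E g hg)
  · intro E g hE hg
    refine (hup E g hE hg).trans ?_
    have hx0 : 0 ≤ |(|E| - Es)| + 1 / t := by positivity
    refine mul_le_mul_of_nonneg_right ?_ (Real.rpow_nonneg hx0 _)
    have : 0 ≤ C * (2 * C + 2) := by positivity
    linarith only [hC₂, this]
  · intro E g hE hg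
    have hσc'0 : 0 ≤ |σ| ^ c' := Real.rpow_nonneg (abs_nonneg _) _
    by_cases h3 : |E| ≤ 2 * d
    · refine (hw σ E g hσ hσ1 h3 hg).trans ?_
      rw [← ha]
      have h4 : |σ| ^ a ≤ |σ| ^ c' := Real.rpow_le_rpow_of_exponent_ge hσ0 hσ1 hc2
      calc C₂ * |σ| ^ a ≤ C₂ * |σ| ^ c' := mul_le_mul_of_nonneg_left h4 hC₂.le
        _ ≤ (C + C₂ + C * (2 * C + 2)) * |σ| ^ c' := by
            refine mul_le_mul_of_nonneg_right ?_ hσc'0
            have : 0 ≤ C * (2 * C + 2) := by positivity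
            linarith only [hC, this]
    · push Not at h3
      have h4 := (abs_le.1 (le_refl |Es - 2 * d|)).2
      have h6 : |(|E| - Es)| ≤ |σ| := by
        rw [abs_sub_comm, abs_of_nonneg (by linarith only [hE])]
        linarith only [hEs1, h3, h4]
      refine (hup E g h6 hg).trans ?_
      have hx0 : 0 ≤ |(|E| - Es)| + 1 / t := by positivity
      have h7 : |(|E| - Es)| + 1 / t ≤ 2 * |σ| := by linarith only [h1t, h6]
      have h8 : (|(|E| - Es)| + 1 / t) ^ c' ≤ (2 * |σ|) ^ c' :=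
        Real.rpow_le_rpow hx0 h7 hc'0.le
      have h9 : (2 * |σ|) ^ c' ≤ 2 * |σ| ^ c' := by
        rw [Real.mul_rpow (by norm_num) hσ0.le]
        refine mul_le_mul_of_nonneg_right ?_ hσc'0
        calc (2 : ℝ) ^ c' ≤ 2 ^ (1 : ℝ) :=
              Real.rpow_le_rpow_of_exponent_le (by norm_num) (by linarith only [hc'0, hc4])
          _ = 2 := Real.rpow_one 2
      calc C * (|(|E| - Es)| + 1 / t) ^ c' ≤ C * (2 * |σ| ^ c') :=
            mul_le_mul_of_nonneg_left (h8.trans h9) hC.le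
        _ = (C * 2) * |σ| ^ c' := by ring
        _ ≤ (C + C₂ + C * (2 * C + 2)) * |σ| ^ c' := by
            refine mul_le_mul_of_nonneg_right ?_ hσc'0
            have : 0 ≤ C * (2 * C) := by positivity
            linarith only [hC, hC₂, this]

end Pool.Agent.LE.H93Z
end
end -- Pool.Agent.Helper93_LSH.Edge2

section -- Pool.Agent.Helper93_LSH.AllZ

/-!
# Exact asymptotics above the effective band edge: all modules
-/

set_option autoImplicit false

open MeasureTheory ProbabilityTheory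

noncomputable section

namespace Pool.Agent.LE.H93Z

open Pool.Agent.Anderson Pool.Agent.Loc Pool.Agent.Helper54.Bal Pool.Agent.Mob
  Pool.Agent.LE.H93C Pool.Agent.LE.H93W Pool.Agent.BED

theorem eleT : EleStmt := H56Z.ele

theorem lciT : LciStmt := H56Z.lci eleT

theorem slcT : SlcStmt := H34Z.slc eleT lciT

theorem lcpT : LcpStmt := H65Z.lcp lciT H19Z.pcr

theorem lcsT : LcsStmt := H28Z.lcs slcT lcpT

theorem cdeT : CdeStmt := H60Z.cde lcsT

theorem ctsT : CtsStmt := H3Z.cts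

theorem cdpT : CdpStmt := H42Z.cdp cdeT ctsT

theorem fleT : FleStmt := H81Z.fle H59W.cdf

theorem sgxT : SgxStmt := H60Z.sgx ctsT

theorem smsT : SmsStmt := H24Z.sms H96.smpT

theorem mtrT : MtrStmt := H72Z.mtr H54W.vtr H54.fmn

theorem upxT : UpxStmt := H42Z.upx mtrT H65C.upe

theorem qmsT : QmsStmt := qms crtT oscBT H42W.nux infT fleT sgxT smsT cdpT upxT

theorem edgeSharpT : ∀ (d : ℕ) (ε : ℝ), 3 ≤ d → 0 < ε → ε < 1 →
    ∃ c C : ℝ, 0 < c ∧ 0 < C ∧
    ∀ σ t : ℝ, σ ≠ 0 → |σ| ≤ c → 1 / σ ^ 2 ≤ t → σ ^ 2 * growth d t * Real.log t ≤ c →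
    ∃ Es : ℝ, |Es - 2 * d| ≤ C * σ ^ 2 ∧
      (∀ E g : ℝ, Es + 1 / t ≤ |E| → LyaAt d σ E g → c * Real.sqrt (min (|E| - Es) 1) ≤ g) ∧
      (∀ E g : ℝ, Es + 1 / t ≤ |E| → |E| ≤ Es + c → LyaAt d σ E g →
        (1 - ε) * Real.sqrt (|E| - Es) ≤ g ∧ g ≤ (1 + ε) * Real.sqrt (|E| - Es)) ∧
      (∀ E g : ℝ, |(|E| - Es)| ≤ |σ| → LyaAt d σ E g → g ≤ C * (|(|E| - Es)| + 1 / t) ^ c) ∧
      ∀ E g : ℝ, |E| ≤ Es → LyaAt d σ E g → g ≤ C * |σ| ^ c :=
  edge_sharp qmsT wkdT

end Pool.Agent.LE.H93Z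
end
end -- Pool.Agent.Helper93_LSH.AllZ

section -- Pool.Agent.Helper93_LSF.All

/-!
# The Lyapunov exponent at weak disorder: all modules
-/

set_option autoImplicit false

noncomputable section

namespace Pool.Agent.LE.H93F

open Pool.Agent.LE.H93Z

theorem qmfT : QmfStmt :=
  qmf fleT sgxT smsT cdpT upxT CL.H54.penT LOC.H48.up (LOC.H28.low LOC.H48.greenLow)

end Pool.Agent.LE.H93F
end
end -- Pool.Agent.Helper93_LSF.All

section -- Pool.Agent.Helper93_LSF.All2

/-!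
# The Lyapunov exponent at weak disorder, the whole spectrum: all modules
-/
end -- Pool.Agent.Helper93_LSF.All2
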