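import Pool.Agent.Helper12_MEB.B109
import Pool.Agent.Helper12_MEB.B110
import Pool.Agent.Helper12_MEB.B113
import Pool.Agent.Helper12_MEB.B114
import Pool.Agent.Helper12_MEB.B115
import Pool.Agent.Helper12_MEB.B125
import Pool.Agent.Helper12_MEB.B128
import Pool.Agent.Helper12_MEB.B131
import Pool.Agent.Helper12_MEB.B137
import Pool.Agent.Helper12_MEB.B139

/-!
# Merged copies (generated) of the modules

* `Pool.Agent.Helper38_LQD.DSU`
* `Pool.Agent.Helper23_LQD.GRO`
* `Pool.Agent.Helper24_LQD.QDF`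
* `Pool.Agent.Helper38_LQD.MAS`
* `Pool.Agent.Helper70_LQD.LCC`
* `Pool.Agent.Helper93_LQD.All`
-/

set_option autoImplicit false

section -- Pool.Agent.Helper38_LQD.DSU

/-! Beyond the mean free path, row DSU: the density of states on the torus, upper bound. -/

set_option autoImplicit false
set_option linter.unusedSectionVars false

open MeasureTheory Set Function

open scoped ENNReal BigOperators Topology NNReal

noncomputable section

namespace Pool.Agent.LE.QD.H38

open Pool.Agent.Anderson hiding box mem_box card_box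
open Pool.Agent.Loc Pool.Agent.Mob Pool.Agent.Helper54.Bal
  Pool.Agent.Helper96.EXP Pool.Agent.BED
open Pool.Agent.LE.MN Pool.Agent.LE.CL Pool.Agent.LE.IR
open Pool.Agent.LE.CL.H76 (cov mp_cov)

local instance haarMSq : MeasureSpace UnitAddCircle := ⟨AddCircle.haarAddCircle⟩

local instance haarAHq : Measure.IsAddHaarMeasure (volume : Measure UnitAddCircle) :=
  inferInstanceAs (Measure.IsAddHaarMeasure AddCircle.haarAddCircle)

local instance haarPMq : IsProbabilityMeasure (volume : Measure UnitAddCircle) :=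
  inferInstanceAs (IsProbabilityMeasure AddCircle.haarAddCircle)

variable {d M : ℕ} [NeZero M]

/-- the symbol as a function of the coordinates -/
def sc (x : Fin d → ℝ) : ℝ := ∑ i, 2 * Real.cos (2 * Real.pi * x i)

theorem sy_cov (x : Fin d → ℝ) : sy (cov x) = sc x := by
  unfold sy sc
  refine Finset.sum_congr rfl fun i _ => ?_
  unfold Pool.Agent.Anderson.c2 cov
  rw [u_coe]
  have h : (2 * (Real.pi : ℂ) * (x i : ℂ) * Complex.I) =
      ((2 * Real.pi * x i : ℝ) : ℂ) * Complex.I := by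
    push_cast
    ring
  rw [h, Complex.exp_ofReal_mul_I_re]

theorem continuous_sc : Continuous (sc (d := d)) := by
  unfold sc
  fun_prop

theorem integral_cov {f : UnitAddTorus (Fin d) → ℝ} (hf : Continuous f) :
    ∫ θ, f θ = ∫ x in Set.pi Set.univ fun _ => Ioc (0 : ℝ) 1, f (cov x) := by
  have h1 : AEStronglyMeasurable f
      (Measure.map (cov (d := d)) (volume.restrict (Set.pi Set.univ fun _ => Ioc (0 : ℝ) 1))) := by
    rw [mp_cov.map_eq]
    exact hf.aestronglyMeasurable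
  rw [← integral_map mp_cov.measurable.aemeasurable h1, mp_cov.map_eq]

/-- the corner of the cell of `p` -/
def pt (p : Tor d M) (i : Fin d) : ℝ := ((p i).val : ℝ) / M

theorem es_eq (p : Tor d M) : es p = sc (pt p) := by
  unfold es ds sc
  have h1 : ∀ i : Fin d, Real.cos (2 * Real.pi * ((p i).valMinAbs : ℝ) / M) =
      Real.cos (2 * Real.pi * pt p i) := by
    intro i
    unfold pt
    rw [ZMod.valMinAbs_def_pos]
    split_ifs
    · push_cast
      rw [mul_div_assoc]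
    · have hM : (M : ℝ) ≠ 0 := by exact_mod_cast NeZero.ne M
      have h2 : 2 * Real.pi * ((((p i).val : ℤ) - (M : ℤ) : ℤ) : ℝ) / M =
          2 * Real.pi * (((p i).val : ℝ) / M) - 2 * Real.pi := by
        push_cast
        field_simp
      rw [h2, Real.cos_sub_two_pi]
  have h3 : ∑ i : Fin d, 2 * (1 - Real.cos (2 * Real.pi * ((p i).valMinAbs : ℝ) / M)) =
      ∑ i : Fin d, (2 - 2 * Real.cos (2 * Real.pi * pt p i)) :=
    Finset.sum_congr rfl fun i _ => by rw [h1 i]; ring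
  rw [h3, Finset.sum_sub_distrib, Finset.sum_const, Finset.card_univ, Fintype.card_fin,
    nsmul_eq_mul]
  ring

/-- the cell of `p` -/
def cell (p : Tor d M) : Set (Fin d → ℝ) :=
  Set.pi Set.univ fun i => Ioc (pt p i) (pt p i + 1 / M)

theorem measurableSet_cell (p : Tor d M) : MeasurableSet (cell p) :=
  MeasurableSet.univ_pi fun _ => measurableSet_Ioc

theorem volume_cell (p : Tor d M) : volume.real (cell p) = ((M : ℝ) ^ d)⁻¹ := by
  unfold cell
  rw [Measure.real, Real.volume_pi_Ioc, ENNReal.toReal_prod]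
  have h1 : ∀ i : Fin d, (ENNReal.ofReal (pt p i + 1 / M - pt p i)).toReal = (M : ℝ)⁻¹ := by
    intro i
    rw [add_sub_cancel_left, ENNReal.toReal_ofReal (by positivity), one_div]
  rw [Finset.prod_congr rfl fun i _ => h1 i, Finset.prod_const, Finset.card_univ,
    Fintype.card_fin, inv_pow]

theorem cell_sub (p : Tor d M) : cell p ⊆ Set.pi Set.univ fun _ => Ioc (0 : ℝ) 1 := by
  intro x hx i hi
  have hM : (0 : ℝ) < M := by exact_mod_cast Nat.pos_of_ne_zero (NeZero.ne M)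
  have h1 := hx i hi
  have h2 : (0 : ℝ) ≤ pt p i := by unfold pt; positivity
  have h3 : pt p i + 1 / M ≤ 1 := by
    unfold pt
    rw [← add_div, div_le_one hM]
    have := ZMod.val_lt (p i)
    exact_mod_cast this
  exact ⟨h2.trans_lt h1.1, h1.2.trans h3⟩

theorem cell_disj (p q : Tor d M) (h : p ≠ q) : Disjoint (cell p) (cell q) := by
  rw [Set.disjoint_left]
  intro x hp hq
  apply h
  funext i
  have hM : (0 : ℝ) < M := by exact_mod_cast Nat.pos_of_ne_zero (NeZero.ne M)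
  have h1 : x i ∈ Ioc (pt p i) (pt p i + 1 / M) := hp i (Set.mem_univ i)
  have h2 : x i ∈ Ioc (pt q i) (pt q i + 1 / M) := hq i (Set.mem_univ i)
  unfold pt at h1 h2
  rw [← add_div] at h1 h2
  have a1 : ((p i).val : ℝ) < M * x i := by
    have := h1.1
    rw [div_lt_iff₀ hM] at this
    linarith
  have a2 : M * x i ≤ ((p i).val : ℝ) + 1 := by
    have := h1.2
    rw [le_div_iff₀ hM] at this
    linarith
  have b1 : ((q i).val : ℝ) < M * x i := by
    have := h2.1
    rw [div_lt_iff₀ hM] at this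
    linarith
  have b2 : M * x i ≤ ((q i).val : ℝ) + 1 := by
    have := h2.2
    rw [le_div_iff₀ hM] at this
    linarith
  have c1 : ((p i).val : ℝ) < ((q i).val : ℝ) + 1 := a1.trans_le b2
  have c2 : ((q i).val : ℝ) < ((p i).val : ℝ) + 1 := b1.trans_le a2
  have c3 : (p i).val < (q i).val + 1 := by exact_mod_cast c1
  have c4 : (q i).val < (p i).val + 1 := by exact_mod_cast c2
  exact ZMod.val_injective M (by omega)

theorem sc_near (p : Tor d M) {x : Fin d → ℝ} (hx : x ∈ cell p) :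
    |sc x - sc (pt p)| ≤ 4 * Real.pi * d / M := by
  have hM : (0 : ℝ) < M := by exact_mod_cast Nat.pos_of_ne_zero (NeZero.ne M)
  unfold sc
  rw [← Finset.sum_sub_distrib]
  refine (Finset.abs_sum_le_sum_abs _ _).trans ?_
  have h1 : ∀ i ∈ (Finset.univ : Finset (Fin d)),
      |2 * Real.cos (2 * Real.pi * x i) - 2 * Real.cos (2 * Real.pi * pt p i)| ≤
        4 * Real.pi / M := by
    intro i _
    rw [← mul_sub, abs_mul, abs_two]
    have h2 := Real.abs_cos_sub_cos_le (2 * Real.pi * x i) (2 * Real.pi * pt p i)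
    have h3 := hx i (Set.mem_univ i)
    have h4 : |2 * Real.pi * x i - 2 * Real.pi * pt p i| ≤ 2 * Real.pi / M := by
      rw [← mul_sub, abs_mul, abs_of_pos Real.two_pi_pos, abs_of_nonneg (by linarith [h3.1])]
      have h5 : x i - pt p i ≤ 1 / M := by linarith only [h3.2]
      calc 2 * Real.pi * (x i - pt p i) ≤ 2 * Real.pi * (1 / M) :=
            mul_le_mul_of_nonneg_left h5 Real.two_pi_pos.le
        _ = 2 * Real.pi / M := by rw [mul_one_div]
    have h6 : 4 * Real.pi / (M : ℝ) = 2 * (2 * Real.pi / M) := by ring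
    rw [h6]
    exact mul_le_mul_of_nonneg_left (h2.trans h4) (by norm_num)
  refine (Finset.sum_le_card_nsmul _ _ _ h1).trans (le_of_eq ?_)
  rw [nsmul_eq_mul, Finset.card_univ, Fintype.card_fin]
  ring

theorem ker_near {η a b : ℝ} (hη : 0 < η) (h : |b - a| ≤ η / 2) : ker η a ≤ 4 * ker η b := by
  unfold ker
  rw [← mul_div_assoc, div_le_div_iff₀ (by positivity) (by positivity)]
  have h1 : b ^ 2 ≤ 2 * a ^ 2 + 2 * (b - a) ^ 2 := by nlinarith only [sq_nonneg (2 * a - b)]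
  have h2 : (b - a) ^ 2 ≤ (η / 2) ^ 2 := sq_le_sq' (by linarith only [(abs_le.1 h).1]) (abs_le.1 h).2
  have h3 : b ^ 2 + η ^ 2 ≤ 4 * (a ^ 2 + η ^ 2) := by nlinarith only [sq_nonneg a, h1, h2]
  nlinarith only [hη, h1, h2]

/-- the bound for all scales -/
theorem pm_ker_le (hd : 3 ≤ d) (E : ℝ) {η : ℝ} (hη : 0 < η) (hM : 8 * Real.pi * d ≤ η * M) :
    pm (fun p : Tor d M => ker η (es p - E)) ≤ 512 * Real.pi := by
  have hM0 : (0 : ℝ) < M := by exact_mod_cast Nat.pos_of_ne_zero (NeZero.ne M)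
  have hc : Continuous fun x : Fin d → ℝ => ker η (sc x - E) := by
    have h1 := continuous_ker hη
    have h2 := continuous_sc (d := d)
    fun_prop
  have hcs : Continuous fun θ : UnitAddTorus (Fin d) => ker η (sy θ - E) := by
    have h1 := continuous_ker hη
    have h2 := continuous_sy (d := d)
    fun_prop
  have hb : ∀ y, ker η y ≤ 1 / η := by
    intro y
    unfold ker
    rw [div_le_div_iff₀ (by positivity) hη]
    nlinarith only [sq_nonneg y]
  have hcube : volume (Set.pi Set.univ fun _ : Fin d => Ioc (0 : ℝ) 1) < ⊤ := by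
    rw [volume_pi_pi]
    simp
  have hint : IntegrableOn (fun x : Fin d → ℝ => ker η (sc x - E))
      (Set.pi Set.univ fun _ => Ioc (0 : ℝ) 1) := by
    refine Measure.integrableOn_of_bounded (M := 1 / η) hcube.ne hc.aestronglyMeasurable ?_
    refine Filter.Eventually.of_forall fun x => ?_
    rw [Real.norm_eq_abs, abs_of_nonneg (ker_nonneg hη _)]
    exact hb _
  have hcell : ∀ p : Tor d M, ((M : ℝ) ^ d)⁻¹ * ker η (es p - E) ≤
      4 * ∫ x in cell p, ker η (sc x - E) := by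
    intro p
    have h1 : ((M : ℝ) ^ d)⁻¹ * ker η (es p - E) = ∫ _ in cell p, ker η (es p - E) := by
      rw [setIntegral_const, volume_cell, smul_eq_mul]
    rw [h1, ← integral_const_mul]
    have hfin : volume (cell p) ≠ ⊤ := ((measure_mono (cell_sub p)).trans_lt hcube).ne
    refine setIntegral_mono_on (integrableOn_const hfin) ((hint.mono_set (cell_sub p)).const_mul 4)
      (measurableSet_cell p) fun x hx => ?_
    apply ker_near hη
    rw [es_eq, sub_sub_sub_cancel_right]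
    refine (sc_near p hx).trans ?_
    rw [div_le_iff₀ hM0]
    linarith only [hM]
  have hU : ∑ p : Tor d M, ∫ x in cell p, ker η (sc x - E) ≤
      ∫ x in Set.pi Set.univ fun _ : Fin d => Ioc (0 : ℝ) 1, ker η (sc x - E) := by
    rw [← integral_biUnion_finset Finset.univ (fun p _ => measurableSet_cell p)
      (fun p _ q _ h => cell_disj p q h) (fun p _ => hint.mono_set (cell_sub p))]
    refine setIntegral_mono_set hint (Filter.Eventually.of_forall fun x => ker_nonneg hη _) ?_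
    refine Filter.Eventually.of_forall fun x hx => ?_
    have hx' := Set.mem_iUnion₂.1 hx
    obtain ⟨p, -, hp⟩ := hx'
    exact cell_sub p hp
  have hI : ∫ x in Set.pi Set.univ fun _ : Fin d => Ioc (0 : ℝ) 1, ker η (sc x - E) ≤
      128 * Real.pi := by
    have h1 := integral_ker_le (d := d) hd hη E
    rw [integral_cov hcs] at h1
    simp only [sy_cov] at h1
    exact h1
  unfold pm
  rw [div_eq_inv_mul, Finset.mul_sum]
  calc ∑ p : Tor d M, ((M : ℝ) ^ d)⁻¹ * ker η (es p - E)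
      ≤ ∑ p : Tor d M, 4 * ∫ x in cell p, ker η (sc x - E) := Finset.sum_le_sum fun p _ => hcell p
    _ = 4 * ∑ p : Tor d M, ∫ x in cell p, ker η (sc x - E) := (Finset.mul_sum _ _ _).symm
    _ ≤ 4 * (128 * Real.pi) := mul_le_mul_of_nonneg_left (hU.trans hI) (by norm_num)
    _ = 512 * Real.pi := by ring

theorem pm_add (F G : Tor d M → ℝ) : pm (fun p => F p + G p) = pm F + pm G := by
  unfold pm
  rw [Finset.sum_add_distrib, add_div]

theorem pm_mul (c : ℝ) (F : Tor d M → ℝ) : pm (fun p => c * F p) = c * pm F := by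
  unfold pm
  rw [← Finset.mul_sum, mul_div_assoc]

theorem pm_one : pm (fun _ : Tor d M => (1 : ℝ)) = 1 := by
  unfold pm
  have hM0 : (M : ℝ) ≠ 0 := by exact_mod_cast NeZero.ne M
  rw [Finset.sum_const, Finset.card_univ, Fintype.card_fun, ZMod.card, Fintype.card_fin,
    nsmul_eq_mul, mul_one]
  push_cast
  exact div_self (pow_ne_zero _ hM0)

theorem pm_sum (n : ℕ) (F : ℕ → Tor d M → ℝ) :
    pm (fun p => ∑ k ∈ Finset.range n, F k p) = ∑ k ∈ Finset.range n, pm (F k) := by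
  unfold pm
  rw [Finset.sum_comm, Finset.sum_div]

theorem pm_mono {F G : Tor d M → ℝ} (h : ∀ p, F p ≤ G p) : pm F ≤ pm G := by
  unfold pm
  exact div_le_div_of_nonneg_right (Finset.sum_le_sum fun p _ => h p) (by positivity)

theorem dsu : DsuStmt := by
  intro d hd
  have hpi := Real.pi_pos
  have hdpos : (0 : ℝ) ≤ d := by positivity
  refine ⟨8 * Real.pi * d + (1 + 4096 * Real.pi), by nlinarith only [mul_nonneg hpi.le hdpos, hpi, hdpos],
    fun M _ E η hη hη1 hM => ?_⟩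
  have hM0 : (0 : ℝ) < M := by exact_mod_cast Nat.pos_of_ne_zero (NeZero.ne M)
  have hM1 : 8 * Real.pi * d ≤ η * M := by
    rw [div_le_iff₀ hη] at hM
    nlinarith only [hpi, hM]
  have hd8 : 0 ≤ 8 * Real.pi * d := by positivity
  refine ⟨?_, ?_⟩
  · have h1 := pm_ker_le (M := M) hd E hη hM1
    refine le_trans (b := 512 * Real.pi) h1 ?_
    linarith only [hpi, hd8]
  · set n : ℕ := ⌈Real.logb 2 (1 / η)⌉₊ with hn
    have hl0 : 0 ≤ Real.log (1 / η) := Real.log_nonneg (by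
      rw [le_div_iff₀ hη]; linarith only [hη1])
    have hn1 : 1 ≤ 2 ^ n * η := by
      have h1 : Real.logb 2 (1 / η) ≤ n := Nat.le_ceil _
      have h2 : (1 / η) ≤ (2:ℝ) ^ (n:ℝ) := by
        rw [← Real.logb_le_iff_le_rpow (by norm_num) (by positivity)]
        exact h1
      rw [Real.rpow_natCast] at h2
      rw [div_le_iff₀ hη] at h2
      exact h2
    have hn2 : (n : ℝ) + 1 ≤ 2 * (1 + Real.log (1 / η)) := by
      have h1 : (n : ℝ) < Real.logb 2 (1 / η) + 1 := by
        apply Nat.ceil_lt_add_one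
        exact Real.logb_nonneg (by norm_num) (by rw [le_div_iff₀ hη]; linarith only [hη1])
      have h2 : Real.logb 2 (1 / η) ≤ 2 * Real.log (1 / η) := by
        unfold Real.logb
        rw [div_le_iff₀ (Real.log_pos (by norm_num))]
        have := Real.log_two_gt_d9
        nlinarith only [hl0, this]
      linarith only [h1, h2]
    have h1 : pm (fun p : Tor d M => (Real.sqrt ((es p - E) ^ 2 + η ^ 2))⁻¹) ≤
        pm (fun p : Tor d M => 1 + 4 * ∑ k ∈ Finset.range (n + 1), ker (2 ^ k * η) (es p - E)) :=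
      pm_mono fun p => inv_sqrt_le hη hn1 _
    rw [pm_add, pm_mul, pm_one, pm_sum] at h1
    have h3 : ∑ k ∈ Finset.range (n + 1), pm (fun p : Tor d M => ker (2 ^ k * η) (es p - E)) ≤
        (n + 1) * (512 * Real.pi) := by
      refine (Finset.sum_le_sum fun k _ => pm_ker_le (M := M) hd E (by positivity) ?_).trans
        (le_of_eq ?_)
      · have h4 : (1 : ℝ) ≤ 2 ^ k := one_le_pow₀ (by norm_num)
        calc 8 * Real.pi * d ≤ η * M := hM1
          _ = 1 * (η * M) := (one_mul _).symm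
          _ ≤ 2 ^ k * (η * M) := mul_le_mul_of_nonneg_right h4 (by positivity)
          _ = 2 ^ k * η * M := by ring
      · rw [Finset.sum_const, Finset.card_range, nsmul_eq_mul]
        push_cast
        ring
    have h4 : (n + 1 : ℝ) * (512 * Real.pi) ≤ 2 * (1 + Real.log (1 / η)) * (512 * Real.pi) :=
      mul_le_mul_of_nonneg_right hn2 (by positivity)
    have h5 : pm (fun p : Tor d M => (Real.sqrt ((es p - E) ^ 2 + η ^ 2))⁻¹) ≤
        1 + 4 * (2 * (1 + Real.log (1 / η)) * (512 * Real.pi)) := by linarith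
    refine h5.trans ?_
    nlinarith only [mul_nonneg hd8 hl0, hd8, hl0]

end Pool.Agent.LE.QD.H38
end
end -- Pool.Agent.Helper38_LQD.DSU

section -- Pool.Agent.Helper23_LQD.GRO

namespace Pool.Agent.LE.QD.H23

open MeasureTheory ProbabilityTheory Function Filter
open Pool.Agent.Anderson hiding box mem_box card_box
open Pool.Agent.Loc Pool.Agent.Mob Pool.Agent.Helper54.Bal
  Pool.Agent.Helper96.EXP Pool.Agent.BED
open Pool.Agent.LE.MN Pool.Agent.LE.CL Pool.Agent.LE.IR

theorem mb {d : ℕ} {x y : Site d} {n : ℕ} :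
    y ∈ box x n ↔ ∀ i, x i - n ≤ y i ∧ y i ≤ x i + n := by
  simp [box, Pi.le_def, forall_and]

theorem box_trans {d : ℕ} {b x : Site d} {r ρ : ℕ} (hx : x ∈ box b r) :
    box x ρ ⊆ box b (r + ρ) := by
  intro y hy
  rw [mb] at *
  intro i
  have h1 := hx i
  have h2 := hy i
  push_cast
  constructor <;> linarith only [h1.1, h1.2, h2.1, h2.2]

theorem box_mono {d : ℕ} {b : Site d} {r r' : ℕ} (h : r ≤ r') : box b r ⊆ box b r' := by
  intro y hy
  rw [mb] at *
  intro i
  have h1 := hy i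
  have h2 : (r : ℤ) ≤ r' := by exact_mod_cast h
  constructor <;> linarith only [h1.1, h1.2, h]

theorem self_mem_box {d : ℕ} (b : Site d) (r : ℕ) : b ∈ box b r := by
  rw [mb]
  intro i
  have : (0 : ℤ) ≤ r := by positivity
  constructor <;> linarith

section

variable {d : ℕ} {V : Site d → ℝ} {Λ : Finset (Site d)} {E s : ℝ}

theorem rch_succ {b : Site d} {ρ j : ℕ} {y : Site d} : y ∈ rch V Λ E s b ρ (j + 1) ↔
    y ∈ rch V Λ E s b ρ j ∨
      (y ∈ box b ρ ∧ ∃ x ∈ rch V Λ E s b ρ j, Real.exp (-s) ≤ |gr V Λ E x y|) := by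
  simp [rch]

theorem mem_clu {C B : Finset (Site d)} {y : Site d} : y ∈ clu V Λ E s C B ↔
    y ∈ C ∨ (y ∈ B ∧ ∃ x ∈ C, Real.exp (-s) ≤ |gr V Λ E x y|) := by
  simp [clu]

theorem rch_mono {b : Site d} {ρ j k : ℕ} (h : j ≤ k) :
    rch V Λ E s b ρ j ⊆ rch V Λ E s b ρ k := by
  induction k, h using Nat.le_induction with
  | base => exact subset_rfl
  | succ k _ ih => exact fun y hy => rch_succ.2 (Or.inl (ih hy))

theorem self_mem_rch (b : Site d) (ρ j : ℕ) : b ∈ rch V Λ E s b ρ j :=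
  rch_mono (Nat.zero_le j) (by simp [rch])

theorem rch_sub_box (b : Site d) (ρ j : ℕ) : rch V Λ E s b ρ j ⊆ box b ρ := by
  induction j with
  | zero =>
    intro y hy
    have : y = b := by simpa [rch] using hy
    rw [this]
    exact self_mem_box b ρ
  | succ j ih =>
    intro y hy
    rcases rch_succ.1 hy with h | h
    · exact ih h
    · exact h.1

theorem rch_concat {b x : Site d} {ρ R j : ℕ} (hx : x ∈ rch V Λ E s b R j)
    (hb : box x ρ ⊆ box b R) (k : ℕ) : rch V Λ E s x ρ k ⊆ rch V Λ E s b R (j + k) := by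
  induction k with
  | zero =>
    intro y hy
    have : y = x := by simpa [rch] using hy
    rw [this]
    exact hx
  | succ k ih =>
    intro y hy
    rw [show j + (k + 1) = (j + k) + 1 by ring]
    rcases rch_succ.1 hy with h | ⟨h1, x', hx', h2⟩
    · exact rch_succ.2 (Or.inl (ih h))
    · exact rch_succ.2 (Or.inr ⟨hb h1, x', ih hx', h2⟩)

/-- the points reached from `U` by short paths -/
noncomputable def Ux (V : Site d → ℝ) (Λ : Finset (Site d)) (E s : ℝ) (ρ J : ℕ)
    (U : Finset (Site d)) : Finset (Site d) := by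
  classical
  exact U.biUnion fun x => rch V Λ E s x ρ J

theorem mem_Ux {ρ J : ℕ} {U : Finset (Site d)} {y : Site d} :
    y ∈ Ux V Λ E s ρ J U ↔ ∃ x ∈ U, y ∈ rch V Λ E s x ρ J := by
  simp [Ux]

/-- the growing sets -/
noncomputable def US (V : Site d → ℝ) (Λ : Finset (Site d)) (E s : ℝ) (b : Site d) (ρ J R₁ : ℕ) :
    ℕ → Finset (Site d)
  | 0 => {b}
  | i + 1 => clu V Λ E s (Ux V Λ E s ρ J (US V Λ E s b ρ J R₁ i)) (box b ((i + 1) * (R₁ + ρ)))

theorem Ux_box {b : Site d} {ρ J r : ℕ} {U : Finset (Site d)} (h : U ⊆ box b r) :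
    Ux V Λ E s ρ J U ⊆ box b (r + ρ) := by
  intro y hy
  obtain ⟨x, hx, hyx⟩ := mem_Ux.1 hy
  exact box_trans (h hx) (rch_sub_box x ρ J hyx)

theorem US_box (b : Site d) (ρ J R₁ i : ℕ) :
    US V Λ E s b ρ J R₁ i ⊆ box b (i * (R₁ + ρ)) := by
  induction i with
  | zero =>
    intro y hy
    have : y = b := by simpa [US] using hy
    rw [this]
    exact self_mem_box b _
  | succ i ih =>
    intro y hy
    rcases mem_clu.1 hy with h | ⟨h, _⟩
    · refine box_mono ?_ (Ux_box ih h)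
      nlinarith
    · exact h

theorem US_nonempty (b : Site d) (ρ J R₁ i : ℕ) : b ∈ US V Λ E s b ρ J R₁ i := by
  induction i with
  | zero => simp [US]
  | succ i ih =>
    exact mem_clu.2 (Or.inl (mem_Ux.2 ⟨b, ih, self_mem_rch b ρ J⟩))

theorem Ux_rch {b : Site d} {ρ R J j r : ℕ} {U : Finset (Site d)} (h : U ⊆ box b r)
    (hR : r + ρ ≤ R) (hU : U ⊆ rch V Λ E s b R j) :
    Ux V Λ E s ρ J U ⊆ rch V Λ E s b R (j + J) := by
  intro y hy
  obtain ⟨x, hx, hyx⟩ := mem_Ux.1 hy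
  exact rch_concat (hU hx) ((box_trans (h hx)).trans (box_mono hR)) J hyx

theorem US_rch (b : Site d) (ρ R J R₁ i : ℕ) (hR : i * (R₁ + ρ) + ρ ≤ R) :
    US V Λ E s b ρ J R₁ i ⊆ rch V Λ E s b R (i * (J + 1)) := by
  induction i with
  | zero =>
    intro y hy
    have : y = b := by simpa [US] using hy
    rw [this]
    exact self_mem_rch b R _
  | succ i ih =>
    have hR' : i * (R₁ + ρ) + ρ ≤ R := by nlinarith only [hR]
    have h1 := Ux_rch (V := V) (Λ := Λ) (E := E) (s := s) (J := J) (US_box b ρ J R₁ i) hR' (ih hR')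
    intro y hy
    rw [show (i + 1) * (J + 1) = (i * (J + 1) + J) + 1 by ring]
    rcases mem_clu.1 hy with h | ⟨h, x, hx, h2⟩
    · exact rch_succ.2 (Or.inl (h1 h))
    · exact rch_succ.2 (Or.inr ⟨box_mono (by linarith only [hR]) h, x, h1 hx, h2⟩)

/-- the index of the coarse cube -/
def idx (b : Site d) (L : ℕ) (y : Site d) : Site d := fun i => (y i - b i) / (L : ℤ)

theorem mem_cub {b k y : Site d} {L : ℕ} :
    y ∈ cub b L k ↔ ∀ i, b i + L * k i ≤ y i ∧ y i < b i + L * (k i + 1) := by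
  simp [cub]

theorem idx_spec {b y : Site d} {L : ℕ} (hL : 1 ≤ L) : y ∈ cub b L (idx b L y) := by
  rw [mem_cub]
  intro i
  have hL' : (0 : ℤ) < L := by exact_mod_cast hL
  have h := Int.mul_ediv_add_emod (y i - b i) L
  have h1 := Int.emod_nonneg (y i - b i) hL'.ne'
  have h2 := Int.emod_lt_of_pos (y i - b i) hL'
  have h3 : idx b L y i = (y i - b i) / (L : ℤ) := rfl
  rw [← h3] at h
  constructor
  · linarith only [h, h1]
  · linarith only [mul_add (L : ℤ) (idx b L y i) 1, h, h2]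

theorem dis {b x x' k k' : Site d} {L ρ : ℕ} (hρ : 2 * ρ ≤ L) (hx : x ∈ cub b L k)
    (hx' : x' ∈ cub b L k') (i : Fin d) (hk : k i + 2 ≤ k' i) {y : Site d} (hy : y ∈ box x ρ)
    (hy' : y ∈ box x' ρ) : False := by
  rw [mem_cub] at hx hx'
  rw [mb] at hy hy'
  have h1 := (hx i).2
  have h2 := (hx' i).1
  have h3 := (hy i).2
  have h4 := (hy' i).1
  have h5 : (2 : ℤ) * ρ ≤ L := by exact_mod_cast hρ
  have h6 : (L : ℤ) * (k i + 2) ≤ L * k' i := mul_le_mul_of_nonneg_left hk (by positivity)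
  nlinarith only [hρ, h1, h2, h3, h4, h6]

theorem count {b : Site d} {ρ J L n : ℕ} {U : Finset (Site d)} (hL : 1 ≤ L) (hρ : 2 * ρ ≤ L)
    (hn : ∀ x ∈ U, n ≤ (rch V Λ E s x ρ J).card) :
    n * (U.image (idx b L)).card ≤ 2 ^ d * (Ux V Λ E s ρ J U).card := by
  classical
  set I := U.image (idx b L) with hI
  have hch : ∀ k ∈ I, ∃ x, x ∈ U ∧ idx b L x = k := by
    intro k hk
    exact Finset.mem_image.1 hk
  choose! f hf using hch
  let par : Site d → (Fin d → ZMod 2) := fun k i => (k i : ZMod 2)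
  have hclass : ∀ p : Fin d → ZMod 2,
      n * (I.filter fun k => par k = p).card ≤ (Ux V Λ E s ρ J U).card := by
    intro p
    have hdis : ((I.filter fun k => par k = p : Finset (Site d)) : Set (Site d)).PairwiseDisjoint
        (fun k => rch V Λ E s (f k) ρ J) := by
      intro k hk k' hk' hne
      rw [Finset.mem_coe, Finset.mem_filter] at hk hk'
      obtain ⟨i, hi⟩ := Function.ne_iff.1 hne
      have hpar : ((k i : ℤ) : ZMod 2) = ((k' i : ℤ) : ZMod 2) := by
        have := congrFun (hk.2.trans hk'.2.symm) i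
        exact this
      have hdvd : (2 : ℤ) ∣ k' i - k i := by
        have := (ZMod.intCast_eq_intCast_iff_dvd_sub (k i) (k' i) 2).1 hpar
        simpa using this
      have hfk : f k ∈ cub b L k := by
        have := idx_spec (b := b) (y := f k) hL
        rwa [(hf k hk.1).2] at this
      have hfk' : f k' ∈ cub b L k' := by
        have := idx_spec (b := b) (y := f k') hL
        rwa [(hf k' hk'.1).2] at this
      refine Finset.disjoint_left.2 fun y hy hy' => ?_
      have hy1 := rch_sub_box (f k) ρ J hy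
      have hy2 := rch_sub_box (f k') ρ J hy'
      rcases lt_or_gt_of_ne hi with h | h
      · exact dis hρ hfk hfk' i (by omega) hy1 hy2
      · exact dis hρ hfk' hfk i (by omega) hy2 hy1
    calc n * (I.filter fun k => par k = p).card
        = ∑ k ∈ I.filter (fun k => par k = p), n := by rw [Finset.sum_const, smul_eq_mul, mul_comm]
      _ ≤ ∑ k ∈ I.filter (fun k => par k = p), (rch V Λ E s (f k) ρ J).card :=
          Finset.sum_le_sum fun k hk => hn _ (hf k (Finset.mem_filter.1 hk).1).1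
      _ = ((I.filter fun k => par k = p).biUnion fun k => rch V Λ E s (f k) ρ J).card :=
          (Finset.card_biUnion hdis).symm
      _ ≤ (Ux V Λ E s ρ J U).card := by
          refine Finset.card_le_card fun y hy => ?_
          obtain ⟨k, hk, hyk⟩ := Finset.mem_biUnion.1 hy
          exact mem_Ux.2 ⟨f k, (hf k (Finset.mem_filter.1 hk).1).1, hyk⟩
  have hsum : I.card = ∑ p : Fin d → ZMod 2, (I.filter fun k => par k = p).card :=
    Finset.card_eq_sum_card_fiberwise fun k _ => Finset.mem_coe.2 (Finset.mem_univ _)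
  calc n * I.card = ∑ p : Fin d → ZMod 2, n * (I.filter fun k => par k = p).card := by
        rw [hsum, Finset.mul_sum]
    _ ≤ ∑ _p : Fin d → ZMod 2, (Ux V Λ E s ρ J U).card := Finset.sum_le_sum fun p _ => hclass p
    _ = 2 ^ d * (Ux V Λ E s ρ J U).card := by
        rw [Finset.sum_const, Finset.card_univ, Fintype.card_fun, ZMod.card, Fintype.card_fin,
          smul_eq_mul]

end

theorem gro : GroStmt := by
  intro d V Λ E s b ρ R R₁ J₁ J₂ L n N₀ hd hN₀ hL hρ hJ₂ hR hn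
  classical
  set U := US V Λ E s b ρ J₁ R₁ with hU
  set a : ℕ → ℕ := fun i => ((U i).image (idx b L)).card with ha
  have hle : ∀ i, i ≤ J₂ → i * (R₁ + ρ) + ρ ≤ R := by
    intro i hi
    have := Nat.mul_le_mul_right (R₁ + ρ) hi
    omega
  have hbox : ∀ i, U i ⊆ box b (i * (R₁ + ρ)) := fun i => US_box b ρ J₁ R₁ i
  have hcount : ∀ i, i ≤ J₂ → n * a i ≤ 2 ^ d * (Ux V Λ E s ρ J₁ (U i)).card := by
    intro i hi
    refine count hL hρ fun x hx => hn x ?_
    exact box_mono (by have := hle i hi; omega) (hbox i hx)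
  by_cases hA : ∃ i, i ≤ J₂ ∧ N₀ ≤ a i
  · left
    obtain ⟨i, hi, hai⟩ := hA
    have h1 : Ux V Λ E s ρ J₁ (U i) ⊆ rch V Λ E s b R (i * (J₁ + 1) + J₁) :=
      Ux_rch (hbox i) (hle i hi) (US_rch b ρ R J₁ R₁ i (hle i hi))
    have h2 : i * (J₁ + 1) + J₁ ≤ (J₁ + 1) * (J₂ + 1) := by
      have := Nat.mul_le_mul_right (J₁ + 1) hi
      nlinarith only [this]
    calc n * N₀ ≤ n * a i := Nat.mul_le_mul_left n hai
      _ ≤ 2 ^ d * (Ux V Λ E s ρ J₁ (U i)).card := hcount i hi
      _ ≤ 2 ^ d * (rch V Λ E s b R ((J₁ + 1) * (J₂ + 1))).card :=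
          Nat.mul_le_mul_left _ (Finset.card_le_card (h1.trans (rch_mono h2)))
  · right
    push Not at hA
    have ha0 : 1 ≤ a 0 := by
      refine Finset.card_pos.2 ⟨idx b L b, Finset.mem_image.2 ⟨b, ?_, rfl⟩⟩
      exact US_nonempty b ρ J₁ R₁ 0
    have hex : ∃ i, i < J₂ ∧ a (i + 1) ≤ 2 * a i := by
      by_contra hno
      push Not at hno
      have h2 : ∀ i, i ≤ J₂ → 2 ^ i ≤ a i := by
        intro i
        induction i with
        | zero => intro _; simpa using ha0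
        | succ i ih =>
          intro hi
          have h3 := ih (by omega)
          have h4 := hno i (by omega)
          rw [pow_succ]
          omega
      have h3 := h2 J₂ le_rfl
      have h4 := hA J₂ le_rfl
      omega
    obtain ⟨i, hi, hai⟩ := hex
    have hai' := hA i hi.le
    have hUi : U (i + 1) = clu V Λ E s (Ux V Λ E s ρ J₁ (U i)) (box b ((i + 1) * (R₁ + ρ))) := rfl
    have hr : i * (R₁ + ρ) + ρ + R₁ = (i + 1) * (R₁ + ρ) := by ring
    have hRi : (i + 1) * (R₁ + ρ) + ρ ≤ R := hle (i + 1) hi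
    refine ⟨i * (R₁ + ρ) + ρ, Ux V Λ E s ρ J₁ (U i), (U (i + 1)).image (idx b L), ?_, ?_, ?_, ?_,
      ?_, ?_, ?_, ?_⟩
    · rw [hr]; omega
    · exact ⟨b, mem_Ux.2 ⟨b, US_nonempty b ρ J₁ R₁ i, self_mem_rch b ρ J₁⟩⟩
    · exact Ux_box (hbox i)
    · exact ⟨idx b L b, Finset.mem_image.2 ⟨b, US_nonempty b ρ J₁ R₁ (i + 1), rfl⟩⟩
    · show a (i + 1) ≤ 2 * N₀
      omega
    · show n * a (i + 1) ≤ 2 ^ (d + 1) * (Ux V Λ E s ρ J₁ (U i)).card
      have h1 := hcount i hi.le
      have h2 : n * a (i + 1) ≤ n * (2 * a i) := Nat.mul_le_mul_left n hai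
      rw [pow_succ]
      nlinarith only [h1, h2]
    · intro y hy
      rw [hr, ← hUi] at hy
      exact ⟨idx b L y, Finset.mem_image.2 ⟨y, hy, rfl⟩, idx_spec hL⟩
    · intro k hk w hw
      obtain ⟨y, hy, rfl⟩ := Finset.mem_image.1 hk
      have h1 := box_mono (by omega) (hbox (i + 1) hy) (r' := R)
      have h2 := idx_spec (b := b) (y := y) hL
      rw [mem_cub] at h2 hw
      rw [mb] at h1 ⊢
      intro j
      have h3 := h2 j
      have h4 := hw j
      have h5 := h1 j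
      push_cast
      constructor
      · linarith only [h3.1, h3.2, h4.1, h4.2, h5.1, h5.2, mul_add (L : ℤ) (idx b L y j) 1]
      · linarith only [h3.1, h3.2, h4.1, h4.2, h5.1, h5.2, mul_add (L : ℤ) (idx b L y j) 1]

end Pool.Agent.LE.QD.H23
end -- Pool.Agent.Helper23_LQD.GRO

section -- Pool.Agent.Helper24_LQD.QDF

/-!
# QDF: the final bound
-/

set_option autoImplicit false

open MeasureTheory ProbabilityTheory

open scoped ENNReal

noncomputable section

namespace Pool.Agent.LE.QD.H24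

open Pool.Agent.Anderson hiding box mem_box card_box
open Pool.Agent.Loc Pool.Agent.Mob Pool.Agent.Helper54.Bal Pool.Agent.LE.MN Pool.Agent.LE.CL
  Pool.Agent.LE.QD

theorem log7 {t : ℝ} (ht : 0 < t) (ht1 : t ≤ 1) :
    Real.log (1 / t) ^ 7 * t ^ (2 + 1 / 31 : ℝ) ≤ 6944 ^ 7 * t ^ (2 + 1 / 32 : ℝ) := by
  have h1 : Real.log (1 / t) ≤ (1 / t) ^ (1 / 6944 : ℝ) / (1 / 6944 : ℝ) :=
    Real.log_le_rpow_div (by positivity) (by norm_num)
  have h0 : 0 ≤ Real.log (1 / t) := Real.log_nonneg (by rw [le_div_iff₀ ht]; linarith only [ht1])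
  have h2 : Real.log (1 / t) ^ 7 ≤ ((1 / t) ^ (1 / 6944 : ℝ) / (1 / 6944 : ℝ)) ^ 7 :=
    pow_le_pow_left₀ h0 h1 7
  have h3 : ((1 / t) ^ (1 / 6944 : ℝ) / (1 / 6944 : ℝ)) ^ 7 = 6944 ^ 7 * t ^ (-(1 / 992) : ℝ) := by
    rw [div_pow, ← Real.rpow_natCast, ← Real.rpow_mul (by positivity), one_div t,
      Real.inv_rpow ht.le, ← Real.rpow_neg ht.le]
    have e : -(1 / 6944 * ((7 : ℕ) : ℝ)) = (-(1 / 992) : ℝ) := by norm_num
    rw [e]
    ring
  rw [h3] at h2
  calc Real.log (1 / t) ^ 7 * t ^ (2 + 1 / 31 : ℝ)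
      ≤ 6944 ^ 7 * t ^ (-(1 / 992) : ℝ) * t ^ (2 + 1 / 31 : ℝ) :=
        mul_le_mul_of_nonneg_right h2 (Real.rpow_nonneg ht.le _)
    _ = 6944 ^ 7 * t ^ (2 + 1 / 32 : ℝ) := by
        rw [mul_assoc, ← Real.rpow_add ht]
        norm_num

theorem qdf (cpx : CpxStmt) (crg : CrgStmt) : QdfStmt := by
  intro d δ hd hδ
  have hd0 : (3 : ℝ) ≤ d := by exact_mod_cast hd
  obtain ⟨c, K, hc, hc4, hK, h⟩ := cpx d δ (3 * d) hd hδ (by linarith only [hd0])
  obtain ⟨C, hC, hg⟩ := crg d (by omega)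
  refine ⟨c, C * K * (K + 4) * K * 6944 ^ 7, hc, hc4, ?_, ?_⟩
  · have h1 : 1 ≤ C * K := one_le_mul_of_one_le_of_one_le hC hK
    have h2 : 1 ≤ C * K * (K + 4) := one_le_mul_of_one_le_of_one_le h1 (by linarith only [hc, hc4, hK])
    have h3 := one_le_mul_of_one_le_of_one_le h2 hK
    exact one_le_mul_of_one_le_of_one_le h3 (by norm_num)
  intro σ E g hσ hσc hE hL
  have hσ0 : 0 < |σ| := abs_pos.2 hσ
  have hσ4 : |σ| ≤ 1 / 4 := hσc.trans hc4
  have h7 := log7 hσ0 (by linarith only [hc, hc4, hσc])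
  obtain ⟨l, hl⟩ : ∃ l, l = Real.log (1 / |σ|) := ⟨_, rfl⟩
  have hl1 : 1 ≤ l := by
    rw [hl, Real.le_log_iff_exp_le (by positivity)]
    have h1 := Real.exp_one_lt_d9
    have h2 : 4 ≤ 1 / |σ| := by
      rw [le_div_iff₀ hσ0]
      linarith only [hc4, hσc]
    linarith only [hc, hc4, h1, h2]
  obtain ⟨n, ρ, J, s, hs1, hsK, hρ1, hρ, hJ1, hJ, hn1, hn, hnl, hP⟩ := h σ E hσ hσc hE
  rw [← hl] at hsK hJ hnl h7
  have hn0 : (0 : ℝ) < n := by exact_mod_cast hn1
  have hρ0 : (1 : ℝ) ≤ ρ := by exact_mod_cast hρ1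
  have hJ0 : (1 : ℝ) ≤ J := by exact_mod_cast hJ1
  have key := hg σ E s (|σ| ^ (3 * (d : ℝ))) g J n ρ hσ0 (by linarith only [hc, hc4, hσc]) (by linarith only [hδ, hc, hc4, hE]) hs1 hJ1 hn1
    hρ1 hL (Real.rpow_nonneg hσ0.le _) (by
      calc |σ| ^ (3 * (d : ℝ)) * n ≤ |σ| ^ (3 * (d : ℝ)) * |σ| ^ (-(3 * (d : ℝ))) :=
            mul_le_mul_of_nonneg_left hn (Real.rpow_nonneg hσ0.le _)
        _ = 1 := by rw [← Real.rpow_add hσ0, add_neg_cancel, Real.rpow_zero]) hP
  rw [← hl] at key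
  have hlogρ : Real.log ρ ≤ 3 * l := by
    calc Real.log ρ ≤ Real.log (|σ| ^ (-3 : ℝ)) := Real.log_le_log (by linarith only [hc, hc4, hρ0]) hρ
      _ = 3 * l := by
          rw [Real.log_rpow hσ0, hl, one_div, Real.log_inv]
          ring
  have hd00 : (d : ℝ) ≠ 0 := by linarith only [hd0, hc, hc4]
  have hKl : 0 < K * l ^ (4 * d) := by positivity
  have hS : 0 < |σ| ^ (-((2 + 1 / 31) * (d : ℝ))) := Real.rpow_pos_of_pos hσ0 _
  have hlow : |σ| ^ (-((2 + 1 / 31) * (d : ℝ))) / (K * l ^ (4 * d)) ≤ n := by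
    rw [div_le_iff₀ hKl]
    linarith only [hnl]
  have hnd : (n : ℝ) ^ (-(1 / (d : ℝ))) ≤ K * l ^ 4 * |σ| ^ (2 + 1 / 31 : ℝ) := by
    calc (n : ℝ) ^ (-(1 / (d : ℝ)))
        ≤ (|σ| ^ (-((2 + 1 / 31) * (d : ℝ))) / (K * l ^ (4 * d))) ^ (-(1 / (d : ℝ))) :=
          Real.rpow_le_rpow_of_nonpos (by positivity) hlow
            (by rw [neg_nonpos]; positivity)
      _ = K ^ (1 / (d : ℝ)) * l ^ 4 * |σ| ^ (2 + 1 / 31 : ℝ) := by
          rw [Real.div_rpow hS.le hKl.le, ← Real.rpow_mul hσ0.le,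
            Real.rpow_neg hKl.le, Real.mul_rpow (by linarith only [hc, hc4, hK]) (by positivity),
            ← Real.rpow_natCast, ← Real.rpow_mul (by linarith only [hc, hc4, hl1]), div_inv_eq_mul]
          have e1 : -((2 + 1 / 31) * (d : ℝ)) * -(1 / (d : ℝ)) = (2 + 1 / 31 : ℝ) := by
            field_simp
          have e2 : ((4 * d : ℕ) : ℝ) * (1 / (d : ℝ)) = ((4 : ℕ) : ℝ) := by
            push_cast
            field_simp
          rw [e1, e2, Real.rpow_natCast]
          ring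
      _ ≤ K * l ^ 4 * |σ| ^ (2 + 1 / 31 : ℝ) := by
          have hK1 : K ^ (1 / (d : ℝ)) ≤ K := by
            calc K ^ (1 / (d : ℝ)) ≤ K ^ (1 : ℝ) :=
                  Real.rpow_le_rpow_of_exponent_le hK (by
                    rw [div_le_one (by linarith only [hd0, hc, hc4])]
                    linarith only [hd0, hc, hc4])
              _ = K := Real.rpow_one K
          have hS' : 0 ≤ |σ| ^ (2 + 1 / 31 : ℝ) := Real.rpow_nonneg hσ0.le _
          have hl4 : 0 ≤ l ^ 4 := by positivity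
          exact mul_le_mul_of_nonneg_right (mul_le_mul_of_nonneg_right hK1 hl4) hS'
  have hsum : s + l + Real.log ρ ≤ (K + 4) * l := by linarith only [hsK, hlogρ]
  have hsum0 : 0 ≤ s + l + Real.log ρ := by
    have := Real.log_nonneg hρ0
    linarith only [hc, hc4, hl1, hs1, this]
  refine key.trans ?_
  have hn' : 0 ≤ (n : ℝ) ^ (-(1 / (d : ℝ))) := Real.rpow_nonneg hn0.le _
  calc C * J * (s + l + Real.log ρ) * (n : ℝ) ^ (-(1 / (d : ℝ)))
      ≤ C * (K * l ^ 2) * ((K + 4) * l) * (K * l ^ 4 * |σ| ^ (2 + 1 / 31 : ℝ)) := by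
        gcongr
    _ = C * K * (K + 4) * K * (l ^ 7 * |σ| ^ (2 + 1 / 31 : ℝ)) := by ring
    _ ≤ C * K * (K + 4) * K * (6944 ^ 7 * |σ| ^ (2 + 1 / 32 : ℝ)) := by
        apply mul_le_mul_of_nonneg_left h7
        positivity
    _ = C * K * (K + 4) * K * 6944 ^ 7 * |σ| ^ (2 + 1 / 32 : ℝ) := by ring

end Pool.Agent.LE.QD.H24
end
end -- Pool.Agent.Helper24_LQD.QDF

section -- Pool.Agent.Helper38_LQD.MAS

/-! Beyond the mean free path, row MAS: concentration of the mass. -/

set_option autoImplicit false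
set_option linter.unusedSectionVars false

open MeasureTheory ProbabilityTheory Function Filter

open scoped ENNReal BigOperators Topology NNReal ComplexOrder Matrix

noncomputable section

namespace Pool.Agent.LE.QD.H38

open Pool.Agent.Anderson hiding box mem_box card_box
open Pool.Agent.Loc Pool.Agent.Mob Pool.Agent.Helper54.Bal
  Pool.Agent.Helper96.EXP Pool.Agent.BED
open Pool.Agent.LE.MN Pool.Agent.LE.CL Pool.Agent.LE.IR

/-! ### Cauchy-Schwarz -/

theorem cs_c {X : Type} (C : Finset X) (a b : X → ℂ) :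
    ‖∑ y ∈ C, a y * b y‖ ^ 2 ≤ (∑ y ∈ C, ‖a y‖ ^ 2) * ∑ y ∈ C, ‖b y‖ ^ 2 := by
  have h1 : ‖∑ y ∈ C, a y * b y‖ ≤ ∑ y ∈ C, ‖a y‖ * ‖b y‖ := by
    refine (norm_sum_le _ _).trans (le_of_eq ?_)
    exact Finset.sum_congr rfl fun y _ => norm_mul _ _
  have h2 : (∑ y ∈ C, ‖a y‖ * ‖b y‖) ^ 2 ≤ (∑ y ∈ C, ‖a y‖ ^ 2) * ∑ y ∈ C, ‖b y‖ ^ 2 :=
    Finset.sum_mul_sq_le_sq_mul_sq C _ _
  exact (pow_le_pow_left₀ (norm_nonneg _) h1 2).trans h2

section core

variable {X : Type} [Fintype X] [DecidableEq X]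

theorem qsum (G : Matrix X X ℂ) (C : Finset X) {s2 κ : ℝ} (hκ : 0 ≤ κ)
    (row : ∀ x, ∑ y, ‖G x y‖ ^ 2 ≤ s2) (op : ∀ w : X → ℂ, n2 (G *ᵥ w) ≤ κ * n2 w) :
    ∑ w, ∑ y ∈ C, ‖∑ x ∈ C, G w x * (starRingEnd ℂ) (G y x)‖ ^ 2 ≤ κ * s2 * C.card := by
  rw [Finset.sum_comm]
  have h1 : ∀ y ∈ C, ∑ w, ‖∑ x ∈ C, G w x * (starRingEnd ℂ) (G y x)‖ ^ 2 ≤ κ * s2 := by
    intro y _
    have h2 := op fun x => if x ∈ C then (starRingEnd ℂ) (G y x) else 0
    have h3 : n2 (G *ᵥ fun x => if x ∈ C then (starRingEnd ℂ) (G y x) else 0) =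
        ∑ w, ‖∑ x ∈ C, G w x * (starRingEnd ℂ) (G y x)‖ ^ 2 := by
      unfold n2
      refine Finset.sum_congr rfl fun w _ => ?_
      have h4 : (G *ᵥ fun x => if x ∈ C then (starRingEnd ℂ) (G y x) else 0) w =
          ∑ x ∈ C, G w x * (starRingEnd ℂ) (G y x) := by
        show ∑ x, G w x * (if x ∈ C then (starRingEnd ℂ) (G y x) else 0) = _
        simp only [mul_ite, mul_zero]
        rw [← Finset.sum_filter]
        refine Finset.sum_congr ?_ fun _ _ => rfl
        ext x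
        simp
      rw [h4]
    have h5 : n2 (fun x => if x ∈ C then (starRingEnd ℂ) (G y x) else 0) ≤ s2 := by
      refine le_trans ?_ (row y)
      unfold n2
      refine Finset.sum_le_sum fun x _ => ?_
      by_cases hx : x ∈ C
      · simp only [if_pos hx, RCLike.norm_conj]
        exact le_rfl
      · simp only [if_neg hx, norm_zero]
        exact (by norm_num : (0 : ℝ) ^ 2 ≤ 0).trans (sq_nonneg _)
    rw [h3] at h2
    exact h2.trans (mul_le_mul_of_nonneg_left h5 hκ)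
  refine (Finset.sum_le_card_nsmul _ _ _ h1).trans (le_of_eq ?_)
  rw [nsmul_eq_mul]
  ring

theorem tsum_bd (G G' : Matrix X X ℂ) (C : Finset X) {s2 κ : ℝ} (hκ : 0 ≤ κ) (hs2 : 0 ≤ s2)
    (row : ∀ x, ∑ y, ‖G x y‖ ^ 2 ≤ s2) (row' : ∀ x, ∑ y, ‖G' x y‖ ^ 2 ≤ s2)
    (op : ∀ w : X → ℂ, n2 (G *ᵥ w) ≤ κ * n2 w) :
    ∑ w, ‖∑ y ∈ C, G' w y * ∑ x ∈ C, G w x * (starRingEnd ℂ) (G y x)‖ ^ 2 ≤
      s2 * (κ * s2 * C.card) := by
  have h1 : ∀ w ∈ (Finset.univ : Finset X),
      ‖∑ y ∈ C, G' w y * ∑ x ∈ C, G w x * (starRingEnd ℂ) (G y x)‖ ^ 2 ≤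
        s2 * ∑ y ∈ C, ‖∑ x ∈ C, G w x * (starRingEnd ℂ) (G y x)‖ ^ 2 := by
    intro w _
    refine (cs_c C _ _).trans (mul_le_mul_of_nonneg_right ?_ ?_)
    · refine le_trans ?_ (row' w)
      exact Finset.sum_le_sum_of_subset_of_nonneg (Finset.subset_univ C) fun _ _ _ => by positivity
    · exact Finset.sum_nonneg fun _ _ => by positivity
  refine (Finset.sum_le_sum h1).trans ?_
  rw [← Finset.mul_sum]
  exact mul_le_mul_of_nonneg_left (qsum G C hκ row op) hs2

/-- the difference of the masses -/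
theorem mass_diff (G G' : Matrix X X ℂ) (D : X → ℝ) (C : Finset X) {s2 κ : ℝ} (hκ : 0 ≤ κ)
    (hs2 : 0 ≤ s2) (sym : ∀ x y, G x y = G y x)
    (hres : G - G' = -(G * (Matrix.diagonal fun x => ((D x : ℝ) : ℂ)) * G'))
    (row : ∀ x, ∑ y, ‖G x y‖ ^ 2 ≤ s2) (row' : ∀ x, ∑ y, ‖G' x y‖ ^ 2 ≤ s2)
    (op : ∀ w : X → ℂ, n2 (G *ᵥ w) ≤ κ * n2 w) (op' : ∀ w : X → ℂ, n2 (G' *ᵥ w) ≤ κ * n2 w) :
    |∑ x ∈ C, ∑ y ∈ C, ‖G x y‖ ^ 2 - ∑ x ∈ C, ∑ y ∈ C, ‖G' x y‖ ^ 2| ≤
      Real.sqrt (4 * (s2 * (κ * s2 * C.card))) * Real.sqrt (∑ x, D x ^ 2) := by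
  set T1 : X → ℂ := fun w => ∑ y ∈ C, G' w y * ∑ x ∈ C, G w x * (starRingEnd ℂ) (G y x) with hT1
  set T2 : X → ℂ := fun w => ∑ x ∈ C, G w x * ∑ y ∈ C, G' w y * (starRingEnd ℂ) (G' x y) with hT2
  have hent : ∀ x y, G x y - G' x y = -∑ w, G x w * (D w : ℂ) * G' w y := by
    intro x y
    have h1 := congrFun (congrFun hres x) y
    rw [Matrix.sub_apply, Matrix.neg_apply, Matrix.mul_apply] at h1
    rw [h1]
    congr 1
    refine Finset.sum_congr rfl fun w _ => ?_
    rw [Matrix.mul_diagonal]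
  have hre : ∀ a b : ℂ, ‖a‖ ^ 2 - ‖b‖ ^ 2 = ((a - b) * (starRingEnd ℂ) (a + b)).re := by
    intro a b
    rw [← Complex.normSq_eq_norm_sq, ← Complex.normSq_eq_norm_sq, Complex.normSq_apply,
      Complex.normSq_apply, Complex.mul_re]
    simp only [Complex.sub_re, Complex.sub_im, Complex.conj_re, Complex.conj_im, Complex.add_re,
      Complex.add_im]
    ring
  have hmain : ∑ x ∈ C, ∑ y ∈ C, ‖G x y‖ ^ 2 - ∑ x ∈ C, ∑ y ∈ C, ‖G' x y‖ ^ 2 =
      -(∑ w, (D w : ℂ) * (T1 w + T2 w)).re := by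
    have h1 : ∑ x ∈ C, ∑ y ∈ C, ‖G x y‖ ^ 2 - ∑ x ∈ C, ∑ y ∈ C, ‖G' x y‖ ^ 2 =
        (∑ x ∈ C, ∑ y ∈ C, (G x y - G' x y) * (starRingEnd ℂ) (G x y + G' x y)).re := by
      rw [← Finset.sum_sub_distrib, Complex.re_sum]
      refine Finset.sum_congr rfl fun x _ => ?_
      rw [← Finset.sum_sub_distrib, Complex.re_sum]
      exact Finset.sum_congr rfl fun y _ => hre _ _
    have h2 : ∑ x ∈ C, ∑ y ∈ C, (G x y - G' x y) * (starRingEnd ℂ) (G x y + G' x y) =
        -∑ w, (D w : ℂ) * (T1 w + T2 w) := by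
      have h3 : ∀ w, (D w : ℂ) * (T1 w + T2 w) = ∑ x ∈ C, ∑ y ∈ C,
          (G x w * (D w : ℂ) * G' w y) * (starRingEnd ℂ) (G x y + G' x y) := by
        intro w
        have h4 : T1 w = ∑ x ∈ C, ∑ y ∈ C, G x w * G' w y * (starRingEnd ℂ) (G x y) := by
          rw [hT1]
          simp only [Finset.mul_sum]
          rw [Finset.sum_comm]
          refine Finset.sum_congr rfl fun x _ => Finset.sum_congr rfl fun y _ => ?_
          rw [sym w x, sym y x]
          ring
        have h5 : T2 w = ∑ x ∈ C, ∑ y ∈ C, G x w * G' w y * (starRingEnd ℂ) (G' x y) := by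
          rw [hT2]
          simp only [Finset.mul_sum]
          refine Finset.sum_congr rfl fun x _ => Finset.sum_congr rfl fun y _ => ?_
          rw [sym w x]
          ring
        rw [h4, h5, ← Finset.sum_add_distrib, Finset.mul_sum]
        refine Finset.sum_congr rfl fun x _ => ?_
        rw [← Finset.sum_add_distrib, Finset.mul_sum]
        refine Finset.sum_congr rfl fun y _ => ?_
        rw [map_add]
        ring
      have h3' : ∑ w, (D w : ℂ) * (T1 w + T2 w) = ∑ w, ∑ x ∈ C, ∑ y ∈ C,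
          (G x w * (D w : ℂ) * G' w y) * (starRingEnd ℂ) (G x y + G' x y) :=
        Finset.sum_congr rfl fun w _ => h3 w
      have h3'' : ∑ w, ∑ x ∈ C, ∑ y ∈ C,
          (G x w * (D w : ℂ) * G' w y) * (starRingEnd ℂ) (G x y + G' x y) =
          ∑ x ∈ C, ∑ y ∈ C, ∑ w,
          (G x w * (D w : ℂ) * G' w y) * (starRingEnd ℂ) (G x y + G' x y) := by
        rw [Finset.sum_comm]
        exact Finset.sum_congr rfl fun x _ => Finset.sum_comm
      rw [h3', h3'', ← Finset.sum_neg_distrib]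
      refine Finset.sum_congr rfl fun x _ => ?_
      rw [← Finset.sum_neg_distrib]
      refine Finset.sum_congr rfl fun y _ => ?_
      rw [hent x y, neg_mul, Finset.sum_mul]
    rw [h1, h2, Complex.neg_re]
  have hT1b : ∑ w, ‖T1 w‖ ^ 2 ≤ s2 * (κ * s2 * C.card) := tsum_bd G G' C hκ hs2 row row' op
  have hT2b : ∑ w, ‖T2 w‖ ^ 2 ≤ s2 * (κ * s2 * C.card) := tsum_bd G' G C hκ hs2 row' row op'
  have hTb : ∑ w, ‖T1 w + T2 w‖ ^ 2 ≤ 4 * (s2 * (κ * s2 * C.card)) := by
    have h1 : ∀ w ∈ (Finset.univ : Finset X), ‖T1 w + T2 w‖ ^ 2 ≤ 2 * ‖T1 w‖ ^ 2 + 2 * ‖T2 w‖ ^ 2 := by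
      intro w _
      have h2 := norm_add_le (T1 w) (T2 w)
      have h3 : ‖T1 w + T2 w‖ ^ 2 ≤ (‖T1 w‖ + ‖T2 w‖) ^ 2 :=
        pow_le_pow_left₀ (norm_nonneg _) h2 2
      nlinarith only [sq_nonneg (‖T1 w‖ - ‖T2 w‖), h3]
    refine (Finset.sum_le_sum h1).trans ?_
    rw [Finset.sum_add_distrib, ← Finset.mul_sum, ← Finset.mul_sum]
    linarith only [hT1b, hT2b]
  rw [hmain, abs_neg]
  refine (Complex.abs_re_le_norm _).trans ?_
  have h6 := cs_c (Finset.univ : Finset X) (fun w => (D w : ℂ)) fun w => T1 w + T2 w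
  have h7 : ∑ w, ‖((D w : ℝ) : ℂ)‖ ^ 2 = ∑ w, D w ^ 2 := by
    refine Finset.sum_congr rfl fun w _ => ?_
    rw [Complex.norm_real, Real.norm_eq_abs, sq_abs]
  rw [h7] at h6
  have h8 : (0 : ℝ) ≤ ∑ w, D w ^ 2 := Finset.sum_nonneg fun _ _ => sq_nonneg _
  rw [← Real.sqrt_mul' _ h8]
  apply Real.le_sqrt_of_sq_le
  refine h6.trans ?_
  rw [mul_comm]
  exact mul_le_mul_of_nonneg_right hTb h8

end core

theorem mas (hral : RalStmt) (hres : ResStmt) (hlcc : LccStmt) : MasStmt := by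
  intro d M _ v E η η₁ A B p r 𝒞 hη hη₁ hA hB hSob hpm hp hp0 hr hC
  have hη₁0 : 0 < η₁ := hη.trans_le hη₁
  set z : ℂ := ⟨E, η⟩ with hz
  have hzim : z.im = η := rfl
  set S : Set (Tor d M → ℝ) := {V | FBq E η₁ (1 / 4) V} with hS
  set s2 : ℝ := 4 / 3 * B * (η₁ / η ^ 2) with hs2
  have hs20 : 0 ≤ s2 := by positivity
  have hop : ∀ V : Tor d M → ℝ, ∀ w : Tor d M → ℂ, n2 (rs V z *ᵥ w) ≤ (η ^ 2)⁻¹ * n2 w := by
    intro V w
    have h1 := ((hral d M V z hη).2.2.2.1 w).1
    rw [hzim] at h1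
    rw [inv_mul_eq_div]
    exact h1
  have hrow : ∀ V ∈ S, ∀ x, ∑ y, ‖rs V z x y‖ ^ 2 ≤ s2 := fun V hV x =>
    (hres d M V E η η₁ A B hη hη₁ hA.le hSob hpm hV).2.1 x
  have hcont : ∀ C : Finset (Tor d M), Continuous fun V : Tor d M → ℝ => mss V z C := by
    intro C
    unfold mss
    refine continuous_finsetSum _ fun x _ => continuous_finsetSum _ fun y _ => ?_
    have h1 := (hral d M 0 z hη).2.2.2.2.2.2.2.2.2.1 x y
    fun_prop
  have hbd : ∀ (C : Finset (Tor d M)) (V : Tor d M → ℝ), |mss V z C| ≤ C.card / η ^ 2 := by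
    intro C V
    have h0 : 0 ≤ mss V z C := by
      unfold mss
      exact Finset.sum_nonneg fun x _ => Finset.sum_nonneg fun y _ => by positivity
    rw [abs_of_nonneg h0]
    unfold mss
    have h1 : ∀ x ∈ C, ∑ y ∈ C, ‖rs V z x y‖ ^ 2 ≤ 1 / η ^ 2 := by
      intro x _
      have h2 : ∑ y ∈ C, ‖rs V z x y‖ ^ 2 ≤ ∑ y, ‖rs V z x y‖ ^ 2 :=
        Finset.sum_le_sum_of_subset_of_nonneg (Finset.subset_univ C) fun _ _ _ => by positivity
      have h3 := (hral d M V z hη).2.2.2.2.1 x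
      have h4 := (hral d M V z hη).2.2.2.2.2.2.2.2.2.2.2 x x
      rw [hzim] at h3 h4
      have h5 : (rs V z x x).im ≤ 1 / η :=
        (le_abs_self _).trans ((Complex.abs_im_le_norm _).trans h4)
      refine h2.trans ?_
      rw [h3]
      calc (rs V z x x).im / η ≤ 1 / η / η := div_le_div_of_nonneg_right h5 hη.le
        _ = 1 / η ^ 2 := by rw [div_div, sq]
    refine (Finset.sum_le_card_nsmul _ _ _ h1).trans (le_of_eq ?_)
    rw [nsmul_eq_mul]
    ring
  have hSc : (Measure.pi fun _ : Tor d M => gaussianReal 0 v) Sᶜ ≤ ENNReal.ofReal p := hp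
  -- one set
  have hone : ∀ C ∈ 𝒞, gau d M v {V | V ∈ S ∧ (r + 2 * p / η ^ 2) * C.card <
      |mss V z C - ∫ W, mss W z C ∂(gau d M v)|} ≤
      ENNReal.ofReal (2 * Real.exp (-(r ^ 2 * C.card * η ^ 6 / (40 * B ^ 2 * η₁ ^ 2 * v)))) := by
    intro C hCC
    have hcard : (0 : ℝ) < C.card := by exact_mod_cast (hC C hCC).card_pos
    set ℓ : ℝ := Real.sqrt (8 * B ^ 2 * η₁ ^ 2 * C.card / η ^ 6) with hℓ
    have hin : 0 < 8 * B ^ 2 * η₁ ^ 2 * C.card / η ^ 6 := by positivity
    have hℓ0 : 0 < ℓ := Real.sqrt_pos.2 hin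
    have hℓ2 : ℓ ^ 2 = 8 * B ^ 2 * η₁ ^ 2 * C.card / η ^ 6 := Real.sq_sqrt hin.le
    have hlip : ∀ V ∈ S, ∀ V' ∈ S, |mss V z C - mss V' z C| ≤
        ℓ * Real.sqrt (∑ i, (V i - V' i) ^ 2) := by
      intro V hV V' hV'
      have h1 := mass_diff (rs V z) (rs V' z) (fun x => V x - V' x) C (s2 := s2)
        (κ := (η ^ 2)⁻¹) (by positivity) hs20 (hral d M V z hη).2.1
        ((hral d M V z hη).2.2.2.2.2.1 V') (hrow V hV) (hrow V' hV') (hop V) (hop V')
      refine h1.trans (mul_le_mul_of_nonneg_right ?_ (Real.sqrt_nonneg _))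
      apply Real.sqrt_le_sqrt
      have h2 : 4 * (s2 * ((η ^ 2)⁻¹ * s2 * C.card)) =
          64 / 9 * (B ^ 2 * η₁ ^ 2 * C.card / η ^ 6) := by
        rw [hs2]
        field_simp
        ring
      have h3 : 8 * B ^ 2 * η₁ ^ 2 * C.card / η ^ 6 = 8 * (B ^ 2 * η₁ ^ 2 * C.card / η ^ 6) := by
        ring
      rw [h2, h3]
      exact mul_le_mul_of_nonneg_right (by norm_num) (by positivity)
    have h1 := hlcc (Tor d M) v S (fun V => mss V z C) (C.card / η ^ 2) ℓ p (r * C.card)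
      (hcont C).measurable (hbd C) hℓ0 hlip hSc hp0 (by positivity)
    have h2 : r * C.card + 2 * (C.card / η ^ 2) * p = (r + 2 * p / η ^ 2) * C.card := by ring
    have h3 : (r * C.card) ^ 2 / (5 * ℓ ^ 2 * v) =
        r ^ 2 * C.card * η ^ 6 / (40 * B ^ 2 * η₁ ^ 2 * v) := by
      rw [hℓ2]
      have hc0 : (C.card : ℝ) ≠ 0 := hcard.ne'
      by_cases hv : (v : ℝ) = 0
      · rw [hv]
        simp
      · field_simp
        ring
    rw [h2, h3] at h1
    exact h1
  have hsub : {V : Tor d M → ℝ | ¬ ∀ C ∈ 𝒞, mss V z C ≤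
      (∫ W, mss W z C ∂(gau d M v)) + (r + 2 * p / η ^ 2) * C.card} ⊆
      Sᶜ ∪ ⋃ C ∈ 𝒞, {V | V ∈ S ∧ (r + 2 * p / η ^ 2) * C.card <
        |mss V z C - ∫ W, mss W z C ∂(gau d M v)|} := by
    intro V hV
    by_cases hVS : V ∈ S
    · right
      have hV' : ¬ ∀ C ∈ 𝒞, mss V z C ≤
          (∫ W, mss W z C ∂(gau d M v)) + (r + 2 * p / η ^ 2) * C.card := hV
      push Not at hV'
      obtain ⟨C, hCC, hlt⟩ := hV'
      refine Set.mem_iUnion₂.2 ⟨C, hCC, hVS, ?_⟩
      refine lt_of_lt_of_le ?_ (le_abs_self _)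
      linarith
    · left
      exact hVS
  refine (measure_mono hsub).trans ((measure_union_le _ _).trans ?_)
  rw [ENNReal.ofReal_add hp0 (Finset.sum_nonneg fun C _ => by positivity),
    ENNReal.ofReal_sum_of_nonneg fun C _ => by positivity]
  refine add_le_add hSc ((measure_biUnion_finset_le _ _).trans ?_)
  exact Finset.sum_le_sum hone

end Pool.Agent.LE.QD.H38
end
end -- Pool.Agent.Helper38_LQD.MAS

section -- Pool.Agent.Helper70_LQD.LCC

set_option autoImplicit false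

open MeasureTheory ProbabilityTheory Function Filter

open scoped ENNReal BigOperators Topology NNReal ComplexOrder Matrix

noncomputable section

namespace Pool.Agent.LE.QD.H70

open Pool.Agent.Anderson hiding box mem_box card_box
open Pool.Agent.Loc Pool.Agent.Mob Pool.Agent.Helper54.Bal
  Pool.Agent.Helper96.EXP Pool.Agent.BED
open Pool.Agent.LE.MN Pool.Agent.LE.CL Pool.Agent.LE.IR

theorem lcc (hGC : GCStmt) : LccStmt := by
  intro ι _ v S F B ℓ p r hF hB hℓ hLip hS hp hr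
  set μ : Measure (ι → ℝ) := Measure.pi fun _ : ι => gaussianReal 0 v with hμ
  have hB0 : 0 ≤ B := (abs_nonneg _).trans (hB 0)
  -- the extension
  have hL : LipschitzOnWith ℓ.toNNReal (fun x : EuclideanSpace ℝ ι => F x.ofLp)
      {x | x.ofLp ∈ S} := by
    refine LipschitzOnWith.of_dist_le_mul fun x hx y hy => ?_
    rw [Real.dist_eq, Real.coe_toNNReal _ hℓ.le, EuclideanSpace.dist_eq]
    refine (hLip _ hx _ hy).trans (le_of_eq ?_)
    congr 3
    funext i
    rw [Real.dist_eq, sq_abs]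
  obtain ⟨g, hg, hgS⟩ := hL.extend_real
  set F₁ : (ι → ℝ) → ℝ := fun V => max (-B) (min B (g (WithLp.toLp 2 V))) with hF₁
  have hclip : ∀ a b : ℝ, |max (-B) (min B a) - max (-B) (min B b)| ≤ |a - b| := by
    intro a b
    have h1 := abs_max_sub_max_le_max (-B) (min B a) (-B) (min B b)
    have h2 := abs_min_sub_min_le_max B a B b
    have h3 : max |-B - -B| |min B a - min B b| ≤ |min B a - min B b| :=
      max_le (by rw [sub_self, abs_zero]; exact abs_nonneg _) le_rfl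
    have h4 : max |B - B| |a - b| ≤ |a - b| :=
      max_le (by rw [sub_self, abs_zero]; exact abs_nonneg _) le_rfl
    exact h1.trans (h3.trans (h2.trans h4))
  have hF₁L : ∀ x y, |F₁ x - F₁ y| ≤ ℓ * Real.sqrt (∑ i, (x i - y i) ^ 2) := by
    intro x y
    refine (hclip _ _).trans ?_
    have h1 := hg.dist_le_mul (WithLp.toLp 2 x) (WithLp.toLp 2 y)
    rw [Real.dist_eq, Real.coe_toNNReal _ hℓ.le, EuclideanSpace.dist_eq] at h1
    refine h1.trans (le_of_eq ?_)
    congr 3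
    funext i
    rw [Real.dist_eq, sq_abs]
  have hF₁B : ∀ V, |F₁ V| ≤ B := by
    intro V
    rw [abs_le]
    exact ⟨le_max_left _ _, max_le (by linarith) (min_le_left _ _)⟩
  have hF₁S : ∀ V ∈ S, F₁ V = F V := by
    intro V hV
    have h1 : F V = g (WithLp.toLp 2 V) := hgS (show (WithLp.toLp 2 V).ofLp ∈ S from hV)
    have h2 := abs_le.1 (hB V)
    show max (-B) (min B (g (WithLp.toLp 2 V))) = F V
    rw [← h1, min_eq_right h2.2, max_eq_right h2.1]
  have hF₁m : Measurable F₁ := by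
    have h1 : Continuous fun V : ι → ℝ => g (WithLp.toLp 2 V) :=
      hg.continuous.comp (PiLp.continuous_toLp 2 _)
    exact (continuous_const.max (continuous_const.min h1)).measurable
  -- the means
  set T : Set (ι → ℝ) := {V | F V ≠ F₁ V} with hT
  have hTm : MeasurableSet T := (measurableSet_eq_fun hF hF₁m).compl
  have hTS : T ⊆ Sᶜ := fun V hV hVS => hV (hF₁S V hVS).symm
  have hμT : (μ T).toReal ≤ p := by
    refine ENNReal.toReal_le_of_le_ofReal hp ?_
    exact (measure_mono hTS).trans hS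
  have hprob : IsProbabilityMeasure μ := by
    rw [hμ]
    infer_instance
  have hFi : Integrable F μ := Integrable.of_bound hF.aestronglyMeasurable B
    (Eventually.of_forall fun V => by rw [Real.norm_eq_abs]; exact hB V)
  have hF₁i : Integrable F₁ μ := Integrable.of_bound hF₁m.aestronglyMeasurable B
    (Eventually.of_forall fun V => by rw [Real.norm_eq_abs]; exact hF₁B V)
  have hmean : |(∫ V, F V ∂μ) - ∫ V, F₁ V ∂μ| ≤ 2 * B * p := by
    rw [← integral_sub hFi hF₁i]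
    have h1 : ∀ V, ‖F V - F₁ V‖ ≤ T.indicator (fun _ => 2 * B) V := by
      intro V
      by_cases hV : V ∈ T
      · rw [Set.indicator_of_mem hV, Real.norm_eq_abs]
        have h2 := abs_le.1 (hB V)
        have h3 := abs_le.1 (hF₁B V)
        rw [abs_le]
        constructor <;> linarith
      · rw [Set.indicator_of_notMem hV]
        have h2 : F V = F₁ V := by
          by_contra h
          exact hV h
        rw [h2, sub_self, norm_zero]
    have h2 : Integrable (T.indicator fun _ => 2 * B) μ :=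
      (integrable_const (2 * B)).indicator hTm
    have h3 : |∫ V, (F V - F₁ V) ∂μ| ≤ ∫ V, T.indicator (fun _ => 2 * B) V ∂μ := by
      rw [← Real.norm_eq_abs]
      exact norm_integral_le_of_norm_le h2 (Eventually.of_forall h1)
    rw [integral_indicator_const _ hTm, smul_eq_mul] at h3
    refine h3.trans ?_
    have h4 : μ.real T ≤ p := hμT
    nlinarith
  refine (measure_mono ?_).trans ((hGC ι v F₁ ℓ hℓ hF₁L r hr).trans (le_of_eq ?_))
  · rintro V ⟨hVS, hV⟩
    show r ≤ |F₁ V - ∫ W, F₁ W ∂μ|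
    rw [hF₁S V hVS]
    have h1 : |F V - ∫ W, F W ∂μ| ≤ |F V - ∫ W, F₁ W ∂μ| + |(∫ W, F W ∂μ) - ∫ W, F₁ W ∂μ| := by
      have h2 : F V - ∫ W, F W ∂μ = (F V - ∫ W, F₁ W ∂μ) - ((∫ W, F W ∂μ) - ∫ W, F₁ W ∂μ) := by
        ring
      rw [h2]
      exact abs_sub _ _
    linarith
  · rw [neg_div]

end Pool.Agent.LE.QD.H70
end
end -- Pool.Agent.Helper70_LQD.LCC

section -- Pool.Agent.Helper93_LQD.All

/-!
# Beyond the mean free path: assembly
-/

set_option autoImplicit false

open MeasureTheory ProbabilityTheory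

noncomputable section

namespace Pool.Agent.LE.QD.H93

open Pool.Agent.BED Pool.Agent.LE.CL Pool.Agent.LE.IR

theorem ralT : RalStmt := QD.H76.ral IR.H54.ftb

theorem sobT : SobStmt := QD.H70.sob (QD.H46.bkt QD.H45.bes QD.H90.be2 QD.H89.tor) QD.H82.int

theorem resT : ResStmt := QD.H70.res ralT

theorem lccT : LccStmt := QD.H70.lcc BED.H55.gc

theorem diaT : DiaStmt := QD.H20.dia ralT resT lccT

theorem offT : OffStmt := QD.H13.off ralT resT lccT

theorem masT : MasStmt := QD.H38.mas ralT resT lccT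

theorem terT : TerStmt := QD.H22.ter (QD.H18.teq ralT QD.H65.ste) ralT IR.H54.ftb

theorem gapT : GapStmt := QD.H51.gap ralT QD.H38.dsu QD.H69.dsl IR.H54.ftb

theorem toaT : ToaStmt :=
  QD.H33.toa ralT sobT QD.H38.dsu (QD.H70.fbp IR.H64.nck) resT diaT QD.H31.mea
    (QD.H93.sce ralT QD.H38.dsu QD.H69.dsl)

theorem tobT : TobStmt := QD.H33.tob ralT toaT offT terT QD.H81.rws gapT

theorem tomT : TomStmt := QD.H33.tom toaT tobT masT

theorem clqT : ClqStmt := QD.H88.clq CL.H54.clbT (CL.H76.tsa Pool.Agent.LE.H28V.krb) MN.H63.dua MN.H8.prb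

theorem cpxT : CpxStmt := QD.H54.cpx tomT clqT QD.H23.gro (QD.H72.cls (QD.H59.hsc CL.H17.laq))

/-- the localization length is larger than the mean free path in the bulk -/
theorem qdfT : QdfStmt := QD.H24.qdf cpxT CL.H54.crgT

end Pool.Agent.LE.QD.H93
end
end -- Pool.Agent.Helper93_LQD.All
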