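import Pool.Agent.Helper12_MEB.B088
import Pool.Agent.Helper12_MEB.B092
import Pool.Agent.Helper12_MEB.B094
import Pool.Agent.Helper12_MEB.B130
import Pool.Agent.Helper12_MEB.B141

/-!
# Merged copies (generated) of the modules

* `Pool.Agent.Helper13_ANI.WHM`
* `Pool.Agent.Helper54_ANI.SBL`
* `Pool.Agent.Helper54_ANI.STB`
* `Pool.Agent.Helper54_ANI.All`
-/

set_option autoImplicit false

section -- Pool.Agent.Helper13_ANI.WHM

/-!
# Row WHM of tank ANI
-/

set_option autoImplicit false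

open MeasureTheory ProbabilityTheory Function Filter

open scoped ENNReal BigOperators Topology NNReal ComplexOrder Matrix

noncomputable section

namespace Pool.Agent.ANI.H13

open Pool.Agent.Anderson hiding box mem_box card_box
open Pool.Agent.Loc Pool.Agent.Mob Pool.Agent.Helper54.Bal
  Pool.Agent.Helper96.EXP Pool.Agent.BED
open Pool.Agent.LE Pool.Agent.LE.MN Pool.Agent.LE.CL Pool.Agent.LE.IR Pool.Agent.LE.QD
  Pool.Agent.LE.QF Pool.Agent.ANI

variable {d M : ℕ} [NeZero M]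

theorem ec_norm (p x : Tor d M) : ‖ec p x‖ = 1 := by
  unfold ec
  rw [norm_prod]
  apply Finset.prod_eq_one
  intro i _
  exact AddChar.norm_apply _ _

theorem ec_zero (x : Tor d M) : ec (0 : Tor d M) x = 1 := by
  unfold ec
  apply Finset.prod_eq_one
  intro i _
  simp

theorem kf_abs (z : ℂ) (p : Tor d M) : |kf z p| ≤ kf z (0 : Tor d M) := by
  unfold kf
  refine (Finset.abs_sum_le_sum_abs _ _).trans (Finset.sum_le_sum fun x _ => ?_)
  rw [ec_zero, abs_mul]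
  have h0 : 0 ≤ kk z x := by
    unfold kk
    positivity
  rw [abs_of_nonneg h0, Complex.one_re]
  apply mul_le_mul_of_nonneg_left _ h0
  exact (Complex.abs_re_le_norm _).trans (ec_norm p x).le

theorem whm (hF : FmuStmt) (hK : KftStmt) : WhmStmt := by
  intro d M _ E η T t m ζ hζ hη hT ht hm hG
  have him : ζ.im = η + T * m.im := by
    rw [hζ]
    simp
  have hzp : 0 < ζ.im := by
    rw [him]
    positivity
  obtain ⟨_, _, _, hKK, hev, hk0⟩ := hK d M ζ hzp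
  have hk0' : kf ζ (0 : Tor d M) = m.im / ζ.im := by rw [hk0, hG]
  have hlt : T * kf ζ (0 : Tor d M) < 1 := by
    rw [hk0', ← mul_div_assoc, div_lt_one hzp, him]
    linarith
  have hpos : ∀ p : Tor d M, 0 < 1 - T * kf ζ p := by
    intro p
    have h1 := (abs_le.1 (kf_abs ζ p)).2
    have h2 : T * kf ζ p ≤ T * kf ζ (0 : Tor d M) := mul_le_mul_of_nonneg_left h1 hT.le
    linarith
  have hn0 : ∀ p : Tor d M, n0 ζ T (-p) = n0 ζ T p := by
    intro p
    unfold n0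
    rw [hev]
  have hn1 : ∀ p : Tor d M, n1 ζ T t (-p) = n1 ζ T t p := by
    intro p
    unfold n1
    rw [hn0]
  have hn1p : ∀ p : Tor d M, 0 ≤ n1 ζ T t p := by
    intro p
    unfold n1
    split_ifs with h
    · exact ht.trans h.le
    · exact le_refl _
  have hcmp : ∀ p : Tor d M, n0 ζ T p ≤ t + n1 ζ T t p := by
    intro p
    unfold n1
    split_ifs with h
    · linarith
    · linarith [not_lt.1 h]
  refine ⟨?_, ?_, ?_⟩
  · rw [hKK]
    obtain ⟨_, _, f3, _, _, _, _⟩ := hF d M (kf ζ) (n0 ζ T) hev hn0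
    have hg : ∀ p : Tor d M, (fun p => kf ζ p * n0 ζ T p) (-p) = (fun p => kf ζ p * n0 ζ T p) p := by
      intro p
      simp only [hev, hn0]
    have hg' : ∀ p : Tor d M, (fun p => -T * (kf ζ p * n0 ζ T p)) (-p) =
        (fun p => -T * (kf ζ p * n0 ζ T p)) p := by
      intro p
      simp only [hev, hn0]
    obtain ⟨_, _, _, _, g5, _, _⟩ := hF d M (fun p => kf ζ p * n0 ζ T p) (n0 ζ T) hg hn0
    obtain ⟨_, _, _, e4, _, _, _⟩ := hF d M (n0 ζ T) (fun p => -T * (kf ζ p * n0 ζ T p)) hn0 hg'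
    have h1 : (1 - T • mlt (kf ζ)) * mlt (n0 ζ T) =
        mlt (n0 ζ T) + (-T) • mlt (fun p : Tor d M => kf ζ p * n0 ζ T p) := by
      rw [Matrix.sub_mul, Matrix.one_mul, Matrix.smul_mul, f3, neg_smul, sub_eq_add_neg]
    rw [h1, ← g5 (-T), ← e4]
    congr 1
    funext p
    unfold n0
    have := (hpos p).ne'
    calc kf ζ p / (1 - T * kf ζ p) + -T * (kf ζ p * (kf ζ p / (1 - T * kf ζ p)))
        = kf ζ p / (1 - T * kf ζ p) * (1 - T * kf ζ p) := by ring
      _ = kf ζ p := div_mul_cancel₀ _ this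
  · intro f
    obtain ⟨a1, _, _, _, _, _, _⟩ := hF d M (n1 ζ T t) (n0 ζ T) hn1 hn0
    obtain ⟨b1, _, _, _, _, _, _⟩ := hF d M (n0 ζ T) (n0 ζ T) hn0 hn0
    obtain ⟨c1, _, _, _, _, c6, _⟩ := hF d M (fun _ => 1) (n0 ζ T) (fun _ => rfl) hn0
    have hMp : (0 : ℝ) < (M : ℝ) ^ d := by
      have : (0 : ℝ) < M := by exact_mod_cast Nat.pos_of_ne_zero (NeZero.ne M)
      positivity
    refine ⟨?_, ?_⟩
    · rw [a1]
      unfold pm
      apply div_nonneg _ hMp.le
      apply Finset.sum_nonneg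
      intro p _
      exact mul_nonneg (hn1p p) (by positivity)
    · have h1 : ∑ x, f x ^ 2 = pm fun p : Tor d M => 1 * ‖ft (fun x => (f x : ℂ)) p‖ ^ 2 := by
        rw [← c1 f, c6]
        unfold QF.qf
        apply Finset.sum_congr rfl
        intro x _
        rw [Matrix.one_mulVec, sq]
      rw [b1, a1, h1]
      unfold pm
      rw [mul_div_assoc', ← add_div]
      apply div_le_div_of_nonneg_right _ hMp.le
      rw [Finset.mul_sum, ← Finset.sum_add_distrib]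
      apply Finset.sum_le_sum
      intro p _
      have h2 := mul_le_mul_of_nonneg_right (hcmp p)
        (show (0 : ℝ) ≤ ‖ft (fun x => (f x : ℂ)) p‖ ^ 2 by positivity)
      linarith [h2]
  · intro x y
    obtain ⟨_, a2, _, _, _, _, _, a8, _⟩ := hF d M (n1 ζ T t) (n0 ζ T) hn1 hn0
    exact ⟨a2 x y, a8 x⟩

end Pool.Agent.ANI.H13
end
end -- Pool.Agent.Helper13_ANI.WHM

section -- Pool.Agent.Helper54_ANI.SBL

/-!
# SBL: the Sobolev inequality without the logarithm of the side of the torus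
-/

set_option autoImplicit false

open MeasureTheory ProbabilityTheory Function Filter

open scoped ENNReal BigOperators Topology NNReal ComplexOrder Matrix

noncomputable section

namespace Pool.Agent.ANI.H54

open Pool.Agent.Anderson hiding box mem_box card_box
open Pool.Agent.Loc Pool.Agent.Mob Pool.Agent.Helper54.Bal
  Pool.Agent.Helper96.EXP Pool.Agent.BED
open Pool.Agent.LE Pool.Agent.LE.MN Pool.Agent.LE.CL Pool.Agent.LE.IR Pool.Agent.LE.QD
  Pool.Agent.LE.QD.H70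

variable {d M : ℕ} [NeZero M]

/-- the value at one scale -/
theorem scale2 {CI Cb : ℝ} (hCI : 1 ≤ CI) (hCb : 1 ≤ Cb)
    (hI : ∀ (X : Type) [Fintype X] (T : X → X → ℂ) (f : X → ℂ) (A B : ℝ), 0 ≤ A → 0 ≤ B →
    (∀ x y, ‖T x y‖ ≤ B) →
    (∀ g h : X → ℂ, ‖∑ x, ∑ y, (starRingEnd ℂ) (g x) * (T x y * h y)‖ ≤
      A * (Real.sqrt (n2 g) * Real.sqrt (n2 h))) →
      ‖∑ x, ∑ y, (starRingEnd ℂ) (f x) * (T x y * f y)‖ ≤
        CI * Real.sqrt (A * B) * (∑ x, ‖f x‖ ^ (4 / 3 : ℝ)) ^ (3 / 2 : ℝ))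
    (hb : ∀ (T : ℝ) (y : Tor d M), 1 ≤ T → 2 * T ≤ M / 40 → ∫ t in T..2 * T,
        (‖(∑ p, ec p y * Complex.exp (Complex.I * ((t * es p : ℝ) : ℂ))) / (M : ℂ) ^ d‖ +
          ‖(∑ p, ec p y * Complex.exp (-(Complex.I * ((t * es p : ℝ) : ℂ)))) / (M : ℂ) ^ d‖) ≤
        Cb * T ^ (-(1 / 3 : ℝ)) * (1 + Real.log T))
    {K : ℕ} {L : ℝ} (hK : (2 : ℝ) ^ K ≤ M / 40) (hL : Real.log ((2 : ℝ) ^ K) ≤ L)
    (E : ℝ) {a : ℝ} (ha : 0 < a) (haK : 1 ≤ a ^ 2 * 2 ^ K) (g : Tor d M → ℂ) :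
    pm (fun p => Pool.Agent.Anderson.ker a (es p - E) * ‖ft g p‖ ^ 2) ≤
      2 * n2 g + K * (CI * (Cb * a ^ (-(1 / 3 : ℝ)) * (1 + L)) *
        (∑ x, ‖g x‖ ^ (4 / 3 : ℝ)) ^ (3 / 2 : ℝ)) := by
  have hG : 0 ≤ (∑ x, ‖g x‖ ^ (4 / 3 : ℝ)) ^ (3 / 2 : ℝ) :=
    Real.rpow_nonneg (Finset.sum_nonneg fun x _ => by positivity) _
  set φ : ℝ → ℝ := fun t => Real.exp (-(a * t)) * ph E t g with hφ
  have hφc : Continuous φ := (by fun_prop : Continuous fun t : ℝ => Real.exp (-(a * t))).mul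
    (ph_cont E g)
  set T₀ : ℝ := 2 ^ K with hT₀
  have hT₀1 : 1 ≤ T₀ := one_le_pow₀ (by norm_num)
  have hM40 : (1 : ℝ) ≤ M / 40 := hT₀1.trans hK
  have hM1 : (1 : ℝ) ≤ M := by linarith only [hK, hT₀1]
  -- Laplace
  have h1 : pm (fun p => Pool.Agent.Anderson.ker a (es p - E) * ‖ft g p‖ ^ 2) ≤
      (∫ t in (0 : ℝ)..T₀, φ t) + Real.exp (-(a * T₀)) / a * n2 g := by
    have h2 : ∫ t in (0 : ℝ)..T₀, φ t =
        pm fun p => (∫ t in (0 : ℝ)..T₀, Real.exp (-(a * t)) * Real.cos (t * (es p - E))) *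
          ‖ft g p‖ ^ 2 := by
      unfold pm
      have h3 : ∀ p : Tor d M, (∫ t in (0 : ℝ)..T₀, Real.exp (-(a * t)) *
          Real.cos (t * (es p - E))) * ‖ft g p‖ ^ 2 =
          ∫ t in (0 : ℝ)..T₀, Real.exp (-(a * t)) * Real.cos (t * (es p - E)) *
            ‖ft g p‖ ^ 2 := fun p => (intervalIntegral.integral_mul_const _ _).symm
      rw [Finset.sum_congr rfl fun p _ => h3 p, ← intervalIntegral.integral_finsetSum,
        ← intervalIntegral.integral_div]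
      · refine intervalIntegral.integral_congr fun t _ => ?_
        simp only [hφ]
        unfold ph pm
        rw [← mul_div_assoc, Finset.mul_sum]
        congr 1
        exact Finset.sum_congr rfl fun p _ => by ring
      · intro p _
        exact Continuous.intervalIntegrable (by fun_prop) _ _
    rw [h2]
    have h4 : n2 g = pm fun p => ‖ft g p‖ ^ 2 := Pool.Agent.LE.IR.H54.parseval1 g
    rw [h4, ← pm_cmul]
    have h5 : ∀ F G : Tor d M → ℝ, pm F + pm G = pm fun p => F p + G p := by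
      intro F G
      unfold pm
      rw [Finset.sum_add_distrib, add_div]
    rw [h5]
    refine pm_mono fun p => ?_
    have h6 := laplace_le ha (es p - E) T₀
    rw [← add_mul]
    gcongr
  -- tail
  have h2 : Real.exp (-(a * T₀)) / a ≤ 1 := by
    rw [div_le_one ha]
    have h3 : Real.exp (-(a * T₀)) * Real.exp (a * T₀) = 1 := by
      rw [← Real.exp_add, neg_add_cancel, Real.exp_zero]
    have h4 : a * T₀ ≤ Real.exp (a * T₀) := by
      have := Real.add_one_le_exp (a * T₀)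
      linarith only [this]
    have h5 : 0 < Real.exp (-(a * T₀)) := Real.exp_pos _
    have h6 : Real.exp (-(a * T₀)) * (a * T₀) ≤ 1 := by
      calc Real.exp (-(a * T₀)) * (a * T₀) ≤ Real.exp (-(a * T₀)) * Real.exp (a * T₀) := by
            gcongr
        _ = 1 := h3
    have h7 : 0 < a * T₀ := by positivity
    by_contra hcon
    push Not at hcon
    have h8 : a * (a * T₀) < Real.exp (-(a * T₀)) * (a * T₀) := by gcongr
    nlinarith only [haK, h6, h8]
  -- the integral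
  have h3 : ∫ t in (0 : ℝ)..T₀, φ t ≤ n2 g + K * (CI * (Cb * a ^ (-(1 / 3 : ℝ)) *
      (1 + L)) * (∑ x, ‖g x‖ ^ (4 / 3 : ℝ)) ^ (3 / 2 : ℝ)) := by
    have h4 : ∫ t in (0 : ℝ)..T₀, φ t = (∫ t in (0 : ℝ)..1, φ t) +
        ∑ k ∈ Finset.range K, ∫ t in (2 : ℝ) ^ k..(2 : ℝ) ^ (k + 1), φ t := by
      rw [intervalIntegral.sum_integral_adjacent_intervals
        (fun k _ => hφc.intervalIntegrable _ _)]
      rw [pow_zero, intervalIntegral.integral_add_adjacent_intervals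
        (hφc.intervalIntegrable _ _) (hφc.intervalIntegrable _ _)]
    rw [h4]
    refine add_le_add ?_ ?_
    · have h5 := intervalIntegral.norm_integral_le_of_norm_le_const (a := 0) (b := 1)
        (C := n2 g) (f := φ) (fun t ht => by
          rw [Set.uIoc_of_le (by norm_num)] at ht
          rw [Real.norm_eq_abs, hφ]
          simp only
          rw [abs_mul, abs_of_pos (Real.exp_pos _)]
          have h6 : Real.exp (-(a * t)) ≤ 1 := by
            rw [Real.exp_le_one_iff]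
            have := ht.1
            nlinarith only [ha, this]
          calc Real.exp (-(a * t)) * |ph E t g| ≤ 1 * n2 g :=
                mul_le_mul h6 (ph_abs_le E t g) (abs_nonneg _) zero_le_one
            _ = n2 g := one_mul _)
      have h6 := le_abs_self (∫ t in (0 : ℝ)..1, φ t)
      rw [Real.norm_eq_abs, sub_zero, abs_one, mul_one] at h5
      exact h6.trans h5
    · have h5 : ∀ k ∈ Finset.range K, ∫ t in (2 : ℝ) ^ k..(2 : ℝ) ^ (k + 1), φ t ≤
          CI * (Cb * a ^ (-(1 / 3 : ℝ)) * (1 + L)) *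
            (∑ x, ‖g x‖ ^ (4 / 3 : ℝ)) ^ (3 / 2 : ℝ) := by
        intro k hk
        rw [Finset.mem_range] at hk
        have hk1 : (1 : ℝ) ≤ 2 ^ k := one_le_pow₀ (by norm_num)
        have hk2 : (2 : ℝ) * 2 ^ k ≤ M / 40 := by
          refine le_trans ?_ hK
          rw [← pow_succ', hT₀]
          exact pow_le_pow_right₀ (by norm_num) hk
        have h6 := block hCI hCb hI hk1 (fun y => hb _ y hk1 hk2) E ha g
        have h7 : (2 : ℝ) ^ (k + 1) = 2 * 2 ^ k := pow_succ' _ _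
        rw [h7]
        refine (le_abs_self _).trans (h6.trans ?_)
        have h8 : Real.log (2 ^ k) ≤ L := by
          refine le_trans ?_ hL
          apply Real.log_le_log (by positivity)
          exact pow_le_pow_right₀ (by norm_num) hk.le
        gcongr
      refine (Finset.sum_le_sum h5).trans (le_of_eq ?_)
      rw [Finset.sum_const, Finset.card_range, nsmul_eq_mul]
  have h4 := n2_nonneg g
  have h5 : Real.exp (-(a * T₀)) / a * n2 g ≤ 1 * n2 g := by gcongr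
  linarith

theorem sbl (hBkt : BktStmt) (hInt : IntStmt) : SblStmt := by
  intro d hd
  obtain ⟨Cb, hCb, hb⟩ := hBkt d hd
  obtain ⟨CI, hCI, hI⟩ := hInt
  have hCC : 1 ≤ CI * Cb := one_le_mul_of_one_le_of_one_le hCI hCb
  refine ⟨36 * (80 + 80 * (CI * Cb)), by linarith only [hCC], fun M _ E η hη hη1 hM => ?_⟩
  set C : ℝ := 80 + 80 * (CI * Cb) with hC
  have hM80 : 80 / η ^ 2 ≤ M := by
    refine le_trans ?_ hM
    gcongr
    linarith only [hCC]
  have hη2 : 0 < η ^ 2 := by positivity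
  have hMη : (80 : ℝ) ≤ 80 / η ^ 2 * η ^ 2 := by rw [div_mul_cancel₀ _ hη2.ne']
  obtain ⟨μ, hμ⟩ : ∃ μ : ℝ, μ = 80 / η ^ 2 := ⟨_, rfl⟩
  rw [← hμ] at hMη hM80
  have hηsq : η ^ 2 ≤ 1 := pow_le_one₀ hη.le hη1
  have hM1 : (80 : ℝ) ≤ μ := by
    have hM0 : (0 : ℝ) ≤ μ := by rw [hμ]; positivity
    nlinarith only [hη2, hMη, hηsq]
  have hlogM : 0 ≤ Real.log μ := Real.log_nonneg (by linarith only [hM1])
  have hlog2 : (1 : ℝ) / 2 ≤ Real.log 2 := by
    have := Real.log_two_gt_d9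
    linarith only [this]
  obtain ⟨K, hK1, hK2⟩ := exists_nat_pow_near (x := μ / 40) (y := 2) (by linarith only [hM1])
    (by norm_num)
  have hKlog : (K : ℝ) ≤ 2 * Real.log μ := by
    have h1 : Real.log ((2 : ℝ) ^ K) ≤ Real.log μ := by
      apply Real.log_le_log (by positivity)
      linarith only [hM1, hK1]
    rw [Real.log_pow] at h1
    have h2 : (0 : ℝ) ≤ K := Nat.cast_nonneg K
    nlinarith only [hlog2, h1]
  obtain ⟨n₀, hn1, hn2⟩ := exists_nat_pow_near (x := 1 / η) (y := 2)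
    (by rw [le_div_iff₀ hη]; linarith only [hη1]) (by norm_num)
  have hnlog : (n₀ : ℝ) ≤ 2 * Real.log μ := by
    have h0 : 1 / η ≤ μ := by
      rw [div_le_iff₀ hη]
      nlinarith only [hη, hη1, hMη]
    have h1 : Real.log ((2 : ℝ) ^ n₀) ≤ Real.log μ := by
      apply Real.log_le_log (by positivity)
      linarith only [hn1, h0]
    rw [Real.log_pow] at h1
    have h2 : (0 : ℝ) ≤ n₀ := Nat.cast_nonneg n₀
    nlinarith only [hlog2, h1]
  have hn : 1 ≤ 2 ^ (n₀ + 1) * η := by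
    rw [div_lt_iff₀ hη] at hn2
    exact hn2.le
  have hw1 : 1 ≤ η ^ (-(1 / 3 : ℝ)) := by
    rw [Real.rpow_neg hη.le]
    apply (one_le_inv₀ (by positivity)).2
    exact Real.rpow_le_one hη.le hη1 (by norm_num)
  apply dual hη (by positivity)
  intro g
  set G : ℝ := (∑ x, ‖g x‖ ^ (4 / 3 : ℝ)) ^ (3 / 2 : ℝ) with hG
  have hG0 : 0 ≤ G := Real.rpow_nonneg (Finset.sum_nonneg fun x _ => by positivity) _
  have hNG : n2 g ≤ G := n2_le g
  have hN0 := n2_nonneg g
  -- one scale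
  have h1 : ∀ j : ℕ, pm (fun p => Pool.Agent.Anderson.ker (2 ^ j * η) (es p - E) *
      ‖ft g p‖ ^ 2) ≤ 2 * G + (2 * Real.log μ) * (CI * Cb * (1 + Real.log μ)) * G *
        (η ^ (-(1 / 3 : ℝ)) * (4 / 5) ^ j) := by
    intro j
    have hj1 : (1 : ℝ) ≤ 2 ^ j := one_le_pow₀ (by norm_num)
    have ha : 0 < 2 ^ j * η := by positivity
    have h2 := scale2 (L := Real.log μ) hCI hCb hI (fun T y => hb M T y) (hK1.trans (by linarith only [hM80]))
      (Real.log_le_log (by positivity) (by linarith only [hM1, hK1])) E ha (by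
      have h3 : η ≤ 2 ^ j * η := by nlinarith only [hη, hj1]
      have h4 : η ^ 2 ≤ (2 ^ j * η) ^ 2 := by gcongr
      have h5 : μ / 80 ≤ 2 ^ K := by
        rw [pow_succ] at hK2
        linarith only [hK2]
      calc (1 : ℝ) ≤ η ^ 2 * (μ / 80) := by linarith only [hMη]
        _ ≤ (2 ^ j * η) ^ 2 * 2 ^ K := by gcongr) g
    refine h2.trans ?_
    rw [← hG]
    have h3 : (2 ^ j * η) ^ (-(1 / 3 : ℝ)) ≤ η ^ (-(1 / 3 : ℝ)) * (4 / 5) ^ j := by
      rw [Real.mul_rpow (by positivity) hη.le, mul_comm]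
      have h4 : ((2 : ℝ) ^ j) ^ (-(1 / 3 : ℝ)) ≤ (4 / 5) ^ j := by
        have h5 : ((2 : ℝ) ^ j) ^ (-(1 / 3 : ℝ)) = ((2 : ℝ) ^ (-(1 / 3 : ℝ))) ^ j := by
          rw [← Real.rpow_natCast, ← Real.rpow_mul (by norm_num), mul_comm,
            Real.rpow_mul (by norm_num), Real.rpow_natCast]
        rw [h5]
        have h6 : (2 : ℝ) ^ (-(1 / 3 : ℝ)) ≤ 4 / 5 := by
          have h7 : (2 : ℝ) ^ (-(1 / 3 : ℝ)) = (1 / 2 : ℝ) ^ (1 / 3 : ℝ) := by
            rw [Real.rpow_neg (by norm_num), ← Real.inv_rpow (by norm_num)]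
            congr 1
            norm_num
          rw [h7]
          have h8 : ((4 / 5 : ℝ) ^ 3) ^ (1 / 3 : ℝ) = 4 / 5 := by
            rw [← Real.rpow_natCast, ← Real.rpow_mul (by norm_num)]
            norm_num
          rw [← h8]
          apply Real.rpow_le_rpow (by norm_num) (by norm_num) (by norm_num)
        gcongr
      gcongr
    have h4 : (0 : ℝ) ≤ K := Nat.cast_nonneg K
    have h5 : (K : ℝ) * (CI * (Cb * (2 ^ j * η) ^ (-(1 / 3 : ℝ)) * (1 + Real.log μ)) * G) ≤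
        (2 * Real.log μ) * (CI * (Cb * (η ^ (-(1 / 3 : ℝ)) * (4 / 5) ^ j) *
          (1 + Real.log μ)) * G) := by
      gcongr
    calc 2 * n2 g + K * (CI * (Cb * (2 ^ j * η) ^ (-(1 / 3 : ℝ)) * (1 + Real.log μ)) * G) ≤
        2 * G + (2 * Real.log μ) * (CI * (Cb * (η ^ (-(1 / 3 : ℝ)) * (4 / 5) ^ j) *
          (1 + Real.log μ)) * G) := by linarith
      _ = _ := by ring
  -- the sum over the scales
  have h2 : pm (fun p => (mt (2 * d - E) η p)⁻¹ * ‖ft g p‖ ^ 2) ≤ n2 g +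
      4 * ∑ j ∈ Finset.range (n₀ + 1 + 1), pm (fun p =>
        Pool.Agent.Anderson.ker (2 ^ j * η) (es p - E) * ‖ft g p‖ ^ 2) := by
    have h3 : n2 g + 4 * ∑ j ∈ Finset.range (n₀ + 1 + 1), pm (fun p : Tor d M =>
        Pool.Agent.Anderson.ker (2 ^ j * η) (es p - E) * ‖ft g p‖ ^ 2) =
        pm fun p => (1 + 4 * ∑ j ∈ Finset.range (n₀ + 1 + 1),
          Pool.Agent.Anderson.ker (2 ^ j * η) (es p - E)) * ‖ft g p‖ ^ 2 := by
      have h4 : n2 g = pm fun p => ‖ft g p‖ ^ 2 := Pool.Agent.LE.IR.H54.parseval1 g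
      rw [h4]
      unfold pm
      rw [← Finset.sum_div, ← mul_div_assoc, ← add_div, Finset.sum_comm, Finset.mul_sum,
        ← Finset.sum_add_distrib]
      congr 1
      refine Finset.sum_congr rfl fun p _ => ?_
      rw [← Finset.sum_mul]
      ring
    rw [h3]
    refine pm_mono fun p => ?_
    have h5 := inv_sqrt_le hη hn (es p - E)
    have h6 : mt (2 * d - E) η p = Real.sqrt ((es p - E) ^ 2 + η ^ 2) := by
      rw [← mt_sq, Real.sqrt_sq (mt_pos E hη p).le]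
    rw [h6]
    gcongr
  refine h2.trans ?_
  have h3 : ∑ j ∈ Finset.range (n₀ + 1 + 1), pm (fun p : Tor d M =>
        Pool.Agent.Anderson.ker (2 ^ j * η) (es p - E) * ‖ft g p‖ ^ 2) ≤
      (n₀ + 2) * (2 * G) + (2 * Real.log μ) * (CI * Cb * (1 + Real.log μ)) * G *
        (η ^ (-(1 / 3 : ℝ)) * 5) := by
    refine (Finset.sum_le_sum fun j _ => h1 j).trans ?_
    rw [Finset.sum_add_distrib, Finset.sum_const, Finset.card_range, nsmul_eq_mul,
      ← Finset.mul_sum, ← Finset.mul_sum]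
    have h4 : ∑ j ∈ Finset.range (n₀ + 1 + 1), (4 / 5 : ℝ) ^ j ≤ 5 := by
      have h5 := geom_sum_eq (x := (4 / 5 : ℝ)) (by norm_num) (n₀ + 1 + 1)
      have h6 : (0 : ℝ) < (4 / 5) ^ (n₀ + 1 + 1) := by positivity
      have h7 : ((4 / 5 : ℝ) ^ (n₀ + 1 + 1) - 1) / (4 / 5 - 1) =
          5 * (1 - (4 / 5 : ℝ) ^ (n₀ + 1 + 1)) := by ring
      rw [h5, h7]
      linarith only [h6]
    have h5 : (2 * Real.log μ) * (CI * Cb * (1 + Real.log μ)) * G *
        (η ^ (-(1 / 3 : ℝ)) * ∑ j ∈ Finset.range (n₀ + 1 + 1), (4 / 5 : ℝ) ^ j) ≤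
        (2 * Real.log μ) * (CI * Cb * (1 + Real.log μ)) * G * (η ^ (-(1 / 3 : ℝ)) * 5) := by
      gcongr
    push_cast
    linarith only [h5]
  set L : ℝ := Real.log μ with hL
  set w : ℝ := η ^ (-(1 / 3 : ℝ)) with hw
  have h4 : n2 g + 4 * ∑ j ∈ Finset.range (n₀ + 1 + 1), pm (fun p : Tor d M =>
        Pool.Agent.Anderson.ker (2 ^ j * η) (es p - E) * ‖ft g p‖ ^ 2) ≤
      (1 + 8 * (2 + 2 * L) + 40 * (CI * Cb) * L * (1 + L) * w) * G := by
    have h5 : ((n₀ : ℝ) + 2) * (2 * G) ≤ (2 * L + 2) * (2 * G) := by gcongr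
    nlinarith
  refine h4.trans ?_
  have h5 : 1 + 8 * (2 + 2 * L) + 40 * (CI * Cb) * L * (1 + L) * w ≤ C * w * (1 + L) ^ 2 := by
    have hL1 : 1 ≤ (1 + L) := by linarith only [hlogM]
    have h6 : 1 + 8 * (2 + 2 * L) ≤ 17 * (w * (1 + L) ^ 2) := by
      have h7 : 1 * (1 + L) ≤ w * (1 + L) ^ 2 := by
        have : 1 + L ≤ (1 + L) ^ 2 := by nlinarith only [hlogM]
        gcongr
      nlinarith only [hlogM, h7]
    have h7 : 40 * (CI * Cb) * L * (1 + L) * w ≤ 40 * (CI * Cb) * (w * (1 + L) ^ 2) := by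
      have h8 : L * (1 + L) ≤ (1 + L) ^ 2 := by nlinarith only [hlogM]
      calc 40 * (CI * Cb) * L * (1 + L) * w = 40 * (CI * Cb) * w * (L * (1 + L)) := by ring
        _ ≤ 40 * (CI * Cb) * w * ((1 + L) ^ 2) := by gcongr
        _ = _ := by ring
    have h8 : 0 ≤ w * (1 + L) ^ 2 := by positivity
    rw [hC]
    nlinarith only [hCC, hlogM, h6, h7]
  obtain ⟨l, hl⟩ : ∃ l : ℝ, l = Real.log (1 / η) := ⟨_, rfl⟩
  have hl0 : 0 ≤ l := by
    rw [hl]
    apply Real.log_nonneg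
    rw [le_div_iff₀ hη]
    linarith only [hη1]
  have h6 : L ≤ 5 + 2 * l := by
    have e1 : μ = 80 * (1 / η) ^ 2 := by
      rw [hμ]
      field_simp
    have e2 : L = Real.log 80 + 2 * l := by
      rw [hL, e1, Real.log_mul (by norm_num) (by positivity), Real.log_pow, hl]
      norm_num
    have e3 : Real.log 80 ≤ 5 := by
      have e4 : Real.log 80 ≤ Real.log ((2 : ℝ) ^ 7) :=
        Real.log_le_log (by norm_num) (by norm_num)
      rw [Real.log_pow] at e4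
      have e5 := Real.log_two_lt_d9
      push_cast at e4
      linarith only [e4, e5]
    linarith only [e2, e3]
  have h7 : (1 + L) ^ 2 ≤ 36 * (1 + l) ^ 2 := by
    have e1 : (1 + L) ^ 2 ≤ (6 * (1 + l)) ^ 2 := by
      apply pow_le_pow_left₀ (by linarith only [hlogM])
      linarith only [hl0, h6]
    linarith only [e1, (by ring : (6 * (1 + l)) ^ 2 = 36 * (1 + l) ^ 2)]
  rw [← hl]
  have hC0 : 0 ≤ C * w := by
    rw [hC]
    positivity
  have h8 : C * w * (1 + L) ^ 2 ≤ 36 * C * w * (1 + l) ^ 2 := by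
    calc C * w * (1 + L) ^ 2 ≤ C * w * (36 * (1 + l) ^ 2) := by gcongr
      _ = _ := by ring
  exact mul_le_mul_of_nonneg_right (h5.trans h8) hG0

end Pool.Agent.ANI.H54
end
end -- Pool.Agent.Helper54_ANI.SBL

section -- Pool.Agent.Helper54_ANI.STB

/-! STB: the initial state, final form -/

set_option autoImplicit false

open MeasureTheory ProbabilityTheory Function Filter

open scoped ENNReal BigOperators Topology NNReal ComplexOrder Matrix

noncomputable section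

namespace Pool.Agent.ANI.H54

open Pool.Agent.Anderson hiding box mem_box card_box
open Pool.Agent.Loc Pool.Agent.Mob Pool.Agent.Helper54.Bal
  Pool.Agent.Helper96.EXP Pool.Agent.BED
open Pool.Agent.LE Pool.Agent.LE.MN Pool.Agent.LE.CL Pool.Agent.LE.IR Pool.Agent.LE.QD
  Pool.Agent.LE.QF Pool.Agent.ANI.H15

/-- `T |∑ G₀²|` -/
theorem hb_aux (khb : KhbStmt) {d : ℕ} (hd : 3 ≤ d) (b ε : ℝ) (hb : 0 < b) (hε : 0 < ε) :
    ∃ c C : ℝ, 0 < c ∧ 1 ≤ C ∧ ∀ (M : ℕ) [NeZero M] (T : ℝ) (ζ : ℂ), 0 < T → T ≤ c →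
      b * T ≤ ζ.im → ζ.im ≤ 1 / 2 → C / ζ.im ^ 2 ≤ M →
      ‖bh ζ (0 : Tor d M)‖ ≤ T ^ (-(1 / 2 + ε)) := by
  obtain ⟨CK, hCK, khb⟩ := khb d hd
  obtain ⟨t₂, ht₂, num2⟩ := num CK b (1 / 2) ε 1 (by linarith only [hCK]) hb (by norm_num) hε le_rfl
  refine ⟨t₂, CK, ht₂, hCK, fun M _ T ζ hT hTc hbT hw2 hM => ?_⟩
  have hw0 : 0 < ζ.im := lt_of_lt_of_le (by positivity) hbT
  obtain ⟨w, hw⟩ : ∃ w : ℝ, w = ζ.im := ⟨_, rfl⟩
  have i0 : Fin d := ⟨0, by linarith only [hd]⟩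
  have h2 := (khb M ζ (0 : Tor d M) i0 hw0 hw2 hM).2
  have h3 : |Real.cos (Real.pi * (((0 : Tor d M) i0).valMinAbs : ℝ) / M)| = 1 := by
    simp
  rw [h3, ← hw] at h2
  rw [← hw] at hw0 hw2 hbT
  have h4 : Real.sqrt (w / (w + 1)) ≤ w ^ (1 / 2 : ℝ) := by
    rw [← Real.sqrt_eq_rpow]
    apply Real.sqrt_le_sqrt
    rw [div_le_iff₀ (by linarith only [hw2, hw0])]
    nlinarith only [hw0]
  have hl0 : 0 ≤ Real.log (1 / w) := Real.log_nonneg (by rw [le_div_iff₀ hw0]; linarith only [hw2, hw0])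
  refine h2.trans (le_trans ?_ (num2 T w hT hTc hbT (by linarith only [hw2, hw0])))
  calc CK * (1 + Real.log (1 / w)) / w * Real.sqrt (w / (w + 1))
      ≤ CK * (1 + Real.log (1 / w)) / w * w ^ (1 / 2 : ℝ) := by gcongr
    _ = CK * w ^ (-(1 / 2) : ℝ) * (1 + Real.log (1 / w)) ^ 1 := by
        have h6 : w ^ (-(1 / 2) : ℝ) = w ^ (1 / 2 : ℝ) / w := by
          rw [← Real.rpow_sub_one hw0.ne']
          norm_num
        rw [h6, pow_one]
        ring

theorem stb (sta : StaStmt) (ral : RalStmt) (kft : KftStmt) (khb : KhbStmt) (sym : SymStmt)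
    (slb : SlbStmt) : StbStmt := by
  intro d a ε hd ha hε hε1
  obtain ⟨c₀, C₀, hc₀, hc₀', hC₀, sta⟩ := sta d a ε hd ha hε (by linarith only [hε, hε1])
  obtain ⟨b, hb, hbc, hbC⟩ : ∃ b : ℝ, 0 < b ∧ b ≤ c₀ ∧ b ≤ 1 / C₀ :=
    ⟨min c₀ (1 / C₀), lt_min hc₀ (by positivity), min_le_left _ _, min_le_right _ _⟩
  have hb1 : b ≤ 1 / 2 := hbc.trans hc₀'
  have hbC' : C₀ ≤ 1 / b := by
    rw [le_div_iff₀ hb, mul_comm]
    rwa [le_div_iff₀ (by linarith only [hε, hε1, hC₀])] at hbC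
  obtain ⟨cS, CS, hcS, hcS', hCS, sym⟩ := sym d (a / 2) b hd (by positivity) hb
  obtain ⟨c₂, C₂, hc₂, hC₂, hbh⟩ := hb_aux khb hd b ε hb hε
  obtain ⟨CK, hCK, khb⟩ := khb d hd
  obtain ⟨cB, hcB, hcB', slb⟩ := slb d b ε cS CK hd hb hε hε1 hcS hCK
  obtain ⟨c, hc, k0, k1, k2, k3, k4, k5⟩ : ∃ c : ℝ, 0 < c ∧ c ≤ c₀ ∧ c ≤ cB ∧ c ≤ c₂ ∧
      c * C₀ ≤ a / 2 ∧ c * (1 + C₀) ≤ cS ∧ c * (1 + C₀) ≤ 1 / 2 := by
    refine ⟨min (min c₀ (min cB c₂)) (min (a / 2 / C₀) (min (cS / (1 + C₀)) (1 / 2 / (1 + C₀)))),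
      ?_, ?_, ?_, ?_, ?_, ?_, ?_⟩
    · have h1 : 0 < a / 2 / C₀ := by positivity
      have h2 : 0 < cS / (1 + C₀) := by positivity
      have h3 : 0 < 1 / 2 / (1 + C₀) := by positivity
      exact lt_min (lt_min hc₀ (lt_min hcB hc₂)) (lt_min h1 (lt_min h2 h3))
    · exact (min_le_left _ _).trans (min_le_left _ _)
    · exact (min_le_left _ _).trans ((min_le_right _ _).trans (min_le_left _ _))
    · exact (min_le_left _ _).trans ((min_le_right _ _).trans (min_le_right _ _))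
    · rw [← le_div_iff₀ (by linarith only [hε, hε1, hC₀])]
      exact (min_le_right _ _).trans (min_le_left _ _)
    · rw [← le_div_iff₀ (by linarith only [hε, hε1, hC₀])]
      exact (min_le_right _ _).trans ((min_le_right _ _).trans (min_le_left _ _))
    · rw [← le_div_iff₀ (by linarith only [hε, hε1, hC₀])]
      exact (min_le_right _ _).trans ((min_le_right _ _).trans (min_le_right _ _))
  obtain ⟨C, hC, l1, l2, l3, l4⟩ : ∃ C : ℝ, 1 ≤ C ∧ C₀ ≤ C ∧ CS / b ^ 2 ≤ C ∧ C₂ / b ^ 2 ≤ C ∧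
      CK / b ^ 2 ≤ C := by
    have h0 : 0 < b ^ 2 := by positivity
    have h1 : 0 ≤ CS / b ^ 2 := by positivity
    have h2 : 0 ≤ C₂ / b ^ 2 := by positivity
    have h3 : 0 ≤ CK / b ^ 2 := by positivity
    exact ⟨C₀ + CS / b ^ 2 + C₂ / b ^ 2 + CK / b ^ 2, by linarith only [hC₀, h1, h2, h3], by linarith only [h1, h2, h3], by linarith only [hε, hε1, hC₀, h2, h3],
      by linarith only [hε, hε1, hC₀, h1, h3], by linarith only [hε, hε1, hC₀, h1, h2]⟩
  refine ⟨c, C, hc, k0.trans hc₀', hC, fun M _ E η T hE hη hηT hTc hM => ?_⟩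
  have hT : 0 < T := hη.trans_le hηT
  have hT2 : 0 < T ^ 2 := by positivity
  obtain ⟨m, ζ, hs⟩ := sta M E η T hE hη hηT (hTc.trans k0)
    ((div_le_div_of_nonneg_right l1 hT2.le).trans hM)
  refine ⟨m, ζ, ?_⟩
  have hm1 : b ≤ m.im := hbc.trans hs.hc.1
  have hmC : m.im ≤ C₀ := (le_abs_self _).trans ((Complex.abs_im_le_norm m).trans hs.hc.2)
  have hm2 : m.im ≤ 1 / b := hmC.trans hbC'
  have him : ζ.im = η + T * m.im := by
    rw [hs.hz]
    simp
  have hre : ζ.re = E + T * m.re := by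
    rw [hs.hz]
    simp
  have hw0 : 0 < ζ.im := by
    rw [him]
    have : 0 < m.im := hb.trans_le hm1
    positivity
  have hwl : b * T ≤ ζ.im := by
    rw [him]
    nlinarith only [hε, hε1, hη, hηT, hm1]
  have hwu : ζ.im ≤ T * (1 + C₀) := by
    rw [him]
    nlinarith only [hη, hηT, hmC]
  have hwc : ζ.im ≤ c * (1 + C₀) := hwu.trans (by gcongr)
  have hMw : ∀ X : ℝ, 0 ≤ X → X / b ^ 2 ≤ C → X / ζ.im ^ 2 ≤ M := by
    intro X hX0 hX
    refine le_trans ?_ hM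
    calc X / ζ.im ^ 2 ≤ X / (b * T) ^ 2 := by gcongr
      _ = X / b ^ 2 / T ^ 2 := by
          field_simp
      _ ≤ C / T ^ 2 := by gcongr
  have hre2 : |ζ.re| ≤ 2 * d - a / 2 := by
    rw [hre]
    have h1 : |E + T * m.re| ≤ |E| + |T * m.re| := abs_add_le _ _
    have h2 : |T * m.re| ≤ a / 2 := by
      rw [abs_mul, abs_of_pos hT]
      have h3 := (Complex.abs_re_le_norm m).trans hs.hc.2
      calc T * |m.re| ≤ c * C₀ := by gcongr
        _ ≤ a / 2 := k3
    linarith only [hE, h1, h2]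
  obtain ⟨f1, -, -, -, -, f6⟩ := kft d M ζ hw0
  have hkf : kf ζ (0 : Tor d M) = m.im / ζ.im := by
    rw [f6, hs.hm]
  have hsym := sym M ζ hre2 hw0 (hwc.trans k4) (hMw CS (by linarith only [hε, hε1, hCS]) l2) (by
    rw [hkf, mul_div_cancel₀ _ hw0.ne']
    exact hm1)
  have hkk : ∀ (p : Tor d M) (i : Fin d), |kf ζ p| ≤ CK * (1 + Real.log (1 / ζ.im)) / ζ.im *
      Real.sqrt (ζ.im / (ζ.im + |Real.sin (Real.pi * ((p i).valMinAbs : ℝ) / M)|)) := by
    intro p i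
    rw [f1]
    exact (Complex.abs_re_le_norm _).trans
      (khb M ζ p i hw0 (hwc.trans k5) (hMw CK (by linarith only [hε, hε1, hCK]) l4)).1
  have hbh' := hbh M T ζ hT (hTc.trans k2) hwl (hwc.trans k5) (hMw C₂ (by linarith only [hε, hε1, hC₂]) l3)
  have hST : Start d M E η T ε m ζ c C := by
    refine ⟨hs.hz, hs.hm, ⟨k0.trans hs.hc.1, hs.hc.2.trans l1⟩, fun x y => (hs.hG x y).trans l1,
      fun x y i => (hs.hp x y i).trans (by gcongr), hs.hk, hs.hL, hs.hT, fun f => ?_,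
      fun s hs0 hsT => ?_⟩
    · obtain ⟨⟨h, hh⟩, hu⟩ := hs.hF f
      have e1 : ∀ h : Tor d M → ℝ, 0 ≤ ∑ x, (f x - h x) ^ 2 +
          (∑ x, ∑ i, (h (x + Pi.single i 1) - h x) ^ 2) / T ^ 2 := fun h =>
        add_nonneg (Finset.sum_nonneg fun _ _ => sq_nonneg _)
          (div_nonneg (Finset.sum_nonneg fun _ _ => Finset.sum_nonneg fun _ _ => sq_nonneg _)
            hT2.le)
      exact ⟨⟨h, (mul_le_mul_of_nonneg_right k0 (e1 h)).trans hh⟩,
        fun h => (hu h).trans (mul_le_mul_of_nonneg_right l1 (e1 h))⟩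
    · obtain ⟨S, g1, g2, g3, g4⟩ := hs.hN s hs0 hsT
      refine ⟨S, g1, g2, fun x => (g3 x).trans ?_, g4⟩
      have e2 : 0 ≤ T ^ (3 / 2 : ℝ) * s ^ (1 / 2 - ε) := by positivity
      have e3 : C₀ * T ^ (3 / 2 : ℝ) * s ^ (1 / 2 - ε) ≤ C * T ^ (3 / 2 : ℝ) * s ^ (1 / 2 - ε) := by
        gcongr
      have e4 : C₀ / (η * (M : ℝ) ^ d) ≤ C / (η * (M : ℝ) ^ d) := by gcongr
      linarith only [e3, e4]
  refine ⟨hST, fun x => ?_, fun f => ?_⟩
  · rw [sum_sq ral kft ζ hw0 x]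
    calc T * ‖bh ζ (0 : Tor d M)‖ ≤ T * T ^ (-(1 / 2 + ε)) := by gcongr
      _ = T ^ (1 / 2 - ε) := by
          rw [← Real.rpow_one_add' hT.le (by linarith only [hε, hε1])]
          congr 1
          ring
  · obtain ⟨h, hh⟩ := slb M E η T m ζ hs.hz hη hηT (hTc.trans k1) hm1 hm2 (hs.hm 0)
      (fun p => (hsym p).1) hkk f
    refine ⟨h, le_trans ?_ hh⟩
    have h2 : 0 ≤ ∑ x, ∑ i, (h (x + Pi.single i 1) - h x) ^ 2 :=
      Finset.sum_nonneg fun _ _ => Finset.sum_nonneg fun _ _ => sq_nonneg _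
    have h3 : 0 ≤ T ^ (8 * ε - 1) := Real.rpow_nonneg hT.le _
    have h4 : c * T ^ (8 * ε - 1) * ∑ x, ∑ i, (h (x + Pi.single i 1) - h x) ^ 2 ≤
        cB * T ^ (8 * ε - 1) * ∑ x, ∑ i, (h (x + Pi.single i 1) - h x) ^ 2 := by gcongr
    linarith

end Pool.Agent.ANI.H54
end
end -- Pool.Agent.Helper54_ANI.STB

section -- Pool.Agent.Helper54_ANI.All

/-!
# Block I0 of AND2B: assembly
-/

set_option autoImplicit false

open MeasureTheory ProbabilityTheory

noncomputable section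

namespace Pool.Agent.ANI.H54

open Pool.Agent.LE Pool.Agent.LE.CL Pool.Agent.LE.IR Pool.Agent.LE.QD Pool.Agent.LE.QF

theorem ralT : RalStmt := QD.H76.ral IR.H54.ftb

theorem bktT : BktStmt := QD.H46.bkt QD.H45.bes QD.H90.be2 QD.H89.tor

theorem kftT : KftStmt := QF.H49.kft ralT QF.H69.fmu IR.H54.ftb

theorem khbT : KhbStmt := QF.H8.khb QF.H32.jcb

theorem gapT : GapStmt := QD.H51.gap ralT QD.H38.dsu QD.H69.dsl IR.H54.ftb

theorem galT : GalStmt := QF.H94.gal gapT QD.H69.dsl QD.H38.dsu ralT IR.H54.ftb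

theorem frbT : FrbStmt := QF.H88.frb bktT (QD.H70.sob bktT QD.H82.int) QD.H38.dsu ralT

theorem mbrT : MbrStmt := QF.H68.mbr QD.H69.dsl QD.H38.dsu khbT ralT

theorem sblT : SblStmt := sbl bktT QD.H82.int

theorem lamT : LamStmt := lam sblT QD.H38.dsu ralT

theorem prdT : PrdStmt := H21.prd H77.smt bktT ralT frbT

theorem symT : SymStmt := sym galT khbT kftT

theorem syfT : SyfStmt := H72.syf QF.H69.fmu kftT

theorem whtT : WhtStmt := H31.wht QF.H17.low_ kftT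

theorem whmT : WhmStmt := H13.whm QF.H69.fmu kftT

theorem staT : StaStmt := H15.sta mbrT ralT frbT kftT khbT lamT prdT symT syfT whtT whmT

/-- the start, up to the sharp lower bound of the symbol -/
theorem stbOf (slb : SlbStmt) : StbStmt := stb staT ralT kftT khbT symT slb

theorem slbT : SlbStmt := H96.slb QF.H69.fmu kftT

/-- THE START: a good initial state exists -/
theorem stbT : StbStmt := stbOf slbT

end Pool.Agent.ANI.H54
end
end -- Pool.Agent.Helper54_ANI.All
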