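import Mathlib

/-!
# Merged copies (generated) of the modules

* `Pool.Agent.AGU.Defs`
* `Pool.Agent.AGU.ThetaF`
* `Pool.Agent.AGU.Stmts`
* `Pool.Agent.Helper62_AGU.GPF`
* `Pool.Agent.Helper72_AHH.Gfi`
* `Pool.Agent.Helper10_AGU.GPB`
* `Pool.Agent.Helper19_AGU.GNW`
* `Pool.Agent.Helper49_AGU.GHO`
* `Pool.Agent.Helper99_AGU.GWB`
* `Pool.Agent.Helper51_AGU.GCW`
-/

set_option autoImplicit false

section -- Pool.Agent.AGU.Defs

/-!
# Change of the gauge: definitions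

`G` is a resolvent on a finite set of sites, `k` the total absorption at every site
(`k = η + s Im m` at the nodes with the clock `s` and the gauge `m`, `k = η` at the dead sites).
-/

set_option autoImplicit false

open scoped BigOperators Matrix

noncomputable section

namespace Pool.Agent.AGU

variable {X : Type} [Fintype X] [DecidableEq X]

/-- symmetric, with the Ward identity for the absorption `k` -/
structure WK (G : Matrix X X ℂ) (k : X → ℝ) : Prop where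
  hk : ∀ a, 0 < k a
  hs : ∀ a b, G a b = G b a
  hw : ∀ a b, ∑ c, (k c : ℂ) * (starRingEnd ℂ) (G a c) * G c b = ((G a b).im : ℂ)

/-- the Dirichlet form with the conductances `k_a k_b |G_ab|²` -/
def EF (G : Matrix X X ℂ) (k : X → ℝ) (f : X → ℝ) : ℝ :=
  (1 / 2) * ∑ a, ∑ b, k a * k b * ‖G a b‖ ^ 2 * (f a - f b) ^ 2

/-- `G'` is the resolvent with the absorption and the energy changed by `z` -/
structure Chg (G G' : Matrix X X ℂ) (k k' : X → ℝ) (z : X → ℂ) (d : ℝ) : Prop where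
  h0 : WK G k
  h1 : WK G' k'
  hd : 0 ≤ d ∧ d ≤ 1 / 4
  hz : ∀ a, ‖z a‖ ≤ d * k a
  hk : ∀ a, k' a = k a + (z a).im
  hr : ∀ a b, G' a b = G a b + ∑ c, G a c * z c * G' c b

/-- the running sites `R` with the clock `s`, the gauge `m` with `c₀ ≤ Im m ≤ C₀`, the mismatch at
most `ε`, the form bound `Re (1 - Y) ≥ c` for `Y = s G ∘ G` on `R` -/
structure Run (G : Matrix X X ℂ) (k : X → ℝ) (R : Finset X) (m : X → ℂ)
    (s ε c c₀ C₀ : ℝ) : Prop where
  hw : WK G k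
  hs : 0 < s
  hc : 0 < c ∧ c ≤ 1 ∧ 0 < c₀ ∧ c₀ ≤ 1 ∧ 1 ≤ C₀
  hε : 0 ≤ ε ∧ ε ≤ c₀ / 4
  hm : ∀ a ∈ R, c₀ ≤ (m a).im ∧ (m a).im ≤ C₀
  hk : ∀ a ∈ R, s * (m a).im ≤ k a
  hμ : ∀ a ∈ R, ‖G a a - m a‖ ≤ ε
  hY : ∀ u : X → ℂ, (∑ a ∈ R, (starRingEnd ℂ) (u a) * ∑ b ∈ R, s * G a b ^ 2 * u b).re ≤
    (1 - c) * ∑ a ∈ R, ‖u a‖ ^ 2

end Pool.Agent.AGU
end
end -- Pool.Agent.AGU.Defs

section -- Pool.Agent.AGU.ThetaF

/-!
# The stability operator `1 - Y` of the flow, from a form bound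

The same as `Helper92_AND/Theta.lean` (helper92), with the form bound `Re (1 - Y) ≥ c` as hypothesis.
-/

set_option autoImplicit false

open scoped BigOperators Matrix

namespace Pool.Agent.AGU.TF

section schur

variable {X : Type} [Fintype X]

/-- Schur test, quadratic form -/
theorem schur_form (M : X → X → ℝ) (h : X → ℝ) (c : ℝ) (hM : ∀ a b, 0 ≤ M a b)
    (hs : ∀ a b, M a b = M b a) (hh : ∀ a, 0 < h a)
    (ht : ∀ a, ∑ b, M a b * h b ≤ c * h a) (f : X → ℝ) :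
    ∑ a, ∑ b, M a b * f a * f b ≤ c * ∑ a, f a ^ 2 := by
  have h1 : ∀ a b, M a b * f a * f b ≤
      (M a b * h b * (f a ^ 2 / h a) + M b a * h a * (f b ^ 2 / h b)) / 2 := by
    intro a b
    have ha := hh a
    have hb := hh b
    have h2 : 2 * (f a * f b) ≤ h b * (f a ^ 2 / h a) + h a * (f b ^ 2 / h b) := by
      have h3 : h b * (f a ^ 2 / h a) + h a * (f b ^ 2 / h b) - 2 * (f a * f b) =
          (h b * f a - h a * f b) ^ 2 / (h a * h b) := by
        field_simp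
        ring
      have h4 : 0 ≤ (h b * f a - h a * f b) ^ 2 / (h a * h b) := by positivity
      linarith only [h3, h4]
    rw [← hs a b]
    have h5 := mul_le_mul_of_nonneg_left h2 (hM a b)
    linarith only [h5]
  calc ∑ a, ∑ b, M a b * f a * f b
      ≤ ∑ a, ∑ b, (M a b * h b * (f a ^ 2 / h a) + M b a * h a * (f b ^ 2 / h b)) / 2 :=
        Finset.sum_le_sum fun a _ => Finset.sum_le_sum fun b _ => h1 a b
    _ = ((∑ a, ∑ b, M a b * h b * (f a ^ 2 / h a)) +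
          ∑ a, ∑ b, M b a * h a * (f b ^ 2 / h b)) / 2 := by
        rw [← Finset.sum_add_distrib, Finset.sum_div]
        refine Finset.sum_congr rfl fun a _ => ?_
        rw [← Finset.sum_add_distrib, Finset.sum_div]
    _ = ∑ a, ∑ b, M a b * h b * (f a ^ 2 / h a) := by
        rw [Finset.sum_comm (f := fun a b => M b a * h a * (f b ^ 2 / h b))]
        ring
    _ = ∑ a, (∑ b, M a b * h b) * (f a ^ 2 / h a) :=
        Finset.sum_congr rfl fun a _ => (Finset.sum_mul _ _ _).symm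
    _ ≤ ∑ a, (c * h a) * (f a ^ 2 / h a) := by
        refine Finset.sum_le_sum fun a _ => mul_le_mul_of_nonneg_right (ht a) ?_
        have := hh a
        positivity
    _ = c * ∑ a, f a ^ 2 := by
        rw [Finset.mul_sum]
        refine Finset.sum_congr rfl fun a _ => ?_
        have := (hh a).ne'
        field_simp

/-- Schur test, norm -/
theorem schur_norm (M : X → X → ℝ) (h : X → ℝ) (hM : ∀ a b, 0 ≤ M a b)
    (hs : ∀ a b, M a b = M b a) (hh : ∀ a, 0 < h a)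
    (ht : ∀ a, ∑ b, M a b * h b ≤ h a) (f : X → ℝ) :
    ∑ a, (∑ b, M a b * f b) ^ 2 ≤ ∑ a, f a ^ 2 := by
  have h1 : ∀ a, (∑ b, M a b * f b) ^ 2 ≤ h a * ∑ b, M a b * (f b ^ 2 / h b) := by
    intro a
    have h2 : (∑ b, M a b * f b) ^ 2 ≤
        (∑ b, M a b * h b) * ∑ b, M a b * (f b ^ 2 / h b) := by
      refine Finset.sum_sq_le_sum_mul_sum_of_sq_le_mul _ (fun b _ => mul_nonneg (hM a b) (hh b).le)
        (fun b _ => mul_nonneg (hM a b) (div_nonneg (sq_nonneg _) (hh b).le)) fun b _ =>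
          le_of_eq ?_
      have := (hh b).ne'
      field_simp
    refine h2.trans (mul_le_mul_of_nonneg_right (ht a) ?_)
    exact Finset.sum_nonneg fun b _ => mul_nonneg (hM a b) (div_nonneg (sq_nonneg _) (hh b).le)
  calc ∑ a, (∑ b, M a b * f b) ^ 2 ≤ ∑ a, h a * ∑ b, M a b * (f b ^ 2 / h b) :=
        Finset.sum_le_sum fun a _ => h1 a
    _ = ∑ b, (∑ a, M b a * h a) * (f b ^ 2 / h b) := by
        rw [Finset.sum_congr rfl fun a _ => Finset.mul_sum _ _ _, Finset.sum_comm]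
        refine Finset.sum_congr rfl fun b _ => ?_
        rw [Finset.sum_mul]
        refine Finset.sum_congr rfl fun a _ => ?_
        rw [hs a b]
        ring
    _ ≤ ∑ b, h b * (f b ^ 2 / h b) := by
        refine Finset.sum_le_sum fun b _ => mul_le_mul_of_nonneg_right (ht b) ?_
        exact div_nonneg (sq_nonneg _) (hh b).le
    _ = ∑ a, f a ^ 2 := by
        refine Finset.sum_congr rfl fun b _ => ?_
        have := (hh b).ne'
        field_simp

end schur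

section theta

variable {X : Type} [Fintype X]

/-- the symmetrised stability matrix, `r` = the square roots of the clocks -/
def Ys (G : Matrix X X ℂ) (r : X → ℝ) : Matrix X X ℂ :=
  Matrix.of fun a b => (r a : ℂ) * G a b ^ 2 * (r b : ℂ)

omit [Fintype X] in
theorem Ys_apply (G : Matrix X X ℂ) (r : X → ℝ) (a b : X) :
    Ys G r a b = (r a : ℂ) * G a b ^ 2 * (r b : ℂ) := rfl

/-- the hypotheses: `G` is symmetric, the Ward inequality, and the form bound -/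
structure ThH (G : Matrix X X ℂ) (r g : X → ℝ) (c : ℝ) : Prop where
  sy : ∀ a b, G a b = G b a
  rp : ∀ a, 0 < r a
  gp : ∀ a, 0 < g a
  wd : ∀ a, ∑ b, r b ^ 2 * ‖G a b‖ ^ 2 * g b ≤ g a
  form : ∀ u : X → ℂ, c * ∑ a, ‖u a‖ ^ 2 ≤
    ∑ a, ((starRingEnd ℂ) (u a) * (u a - (Ys G r *ᵥ u) a)).re

variable {G : Matrix X X ℂ} {r g : X → ℝ} {c : ℝ}

/-- `|(1 - Y) u| ≥ c |u|` -/
theorem ThH.lower (H : ThH G r g c) (hc : 0 ≤ c) (u : X → ℂ) :
    c ^ 2 * ∑ a, ‖u a‖ ^ 2 ≤ ∑ a, ‖u a - (Ys G r *ᵥ u) a‖ ^ 2 := by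
  have h1 := H.form u
  set A := ∑ a, ‖u a‖ ^ 2 with hA
  set B := ∑ a, ‖u a - (Ys G r *ᵥ u) a‖ ^ 2 with hB
  have hA0 : 0 ≤ A := Finset.sum_nonneg fun a _ => sq_nonneg _
  have hB0 : 0 ≤ B := Finset.sum_nonneg fun a _ => sq_nonneg _
  have h2 : c * A ≤ ∑ a, ‖u a‖ * ‖u a - (Ys G r *ᵥ u) a‖ := by
    refine h1.trans (Finset.sum_le_sum fun a _ => ?_)
    refine (Complex.re_le_norm _).trans ?_
    rw [norm_mul, RCLike.norm_conj]
  have h3 : (∑ a, ‖u a‖ * ‖u a - (Ys G r *ᵥ u) a‖) ^ 2 ≤ A * B :=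
    Finset.sum_mul_sq_le_sq_mul_sq _ _ _
  have h4 : (c * A) ^ 2 ≤ A * B := (pow_le_pow_left₀ (mul_nonneg hc hA0) h2 2).trans h3
  rcases hA0.eq_or_lt with h5 | h5
  · rw [← h5, mul_zero]
    exact hB0
  · have h6 : A * (c ^ 2 * A) ≤ A * B := by nlinarith only [h4]
    exact le_of_mul_le_mul_left h6 h5

theorem ThH.contr (H : ThH G r g c) (u : X → ℂ) :
    ∑ a, ‖(Ys G r *ᵥ u) a‖ ^ 2 ≤ ∑ a, ‖u a‖ ^ 2 := by
  have h1 := schur_norm (fun a b => r a * r b * ‖G a b‖ ^ 2) (fun a => r a * g a)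
    (fun a b => mul_nonneg (mul_nonneg (H.rp a).le (H.rp b).le) (sq_nonneg _))
    (fun a b => by rw [H.sy a b]; ring) (fun a => mul_pos (H.rp a) (H.gp a))
    (fun a => by
      have h2 := mul_le_mul_of_nonneg_left (H.wd a) (H.rp a).le
      rw [Finset.mul_sum] at h2
      calc ∑ b, r a * r b * ‖G a b‖ ^ 2 * (r b * g b)
          = ∑ b, r a * (r b ^ 2 * ‖G a b‖ ^ 2 * g b) :=
            Finset.sum_congr rfl fun b _ => by ring
        _ ≤ r a * g a := h2) (fun a => ‖u a‖)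
  refine (Finset.sum_le_sum fun a _ => ?_).trans h1
  refine pow_le_pow_left₀ (norm_nonneg _) ?_ 2
  rw [Matrix.mulVec, dotProduct]
  refine (norm_sum_le _ _).trans (Finset.sum_le_sum fun b _ => ?_)
  rw [norm_mul, Ys_apply, norm_mul, norm_mul, norm_pow, Complex.norm_real, Complex.norm_real,
    Real.norm_of_nonneg (H.rp a).le, Real.norm_of_nonneg (H.rp b).le]
  exact le_of_eq (by ring)

/-- `|(1 + Y) u / 2|² ≤ (1 - c/2) |u|²` -/
theorem ThH.half (H : ThH G r g c) (u : X → ℂ) :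
    ∑ a, ‖(1 / 2 : ℂ) * (u a + (Ys G r *ᵥ u) a)‖ ^ 2 ≤ (1 - c / 2) * ∑ a, ‖u a‖ ^ 2 := by
  have h1 := H.form u
  have h2 := H.contr u
  set v := Ys G r *ᵥ u with hv
  have h3 : ∀ a, ‖(1 / 2 : ℂ) * (u a + v a)‖ ^ 2 =
      (3 / 4) * ‖u a‖ ^ 2 + (1 / 4) * ‖v a‖ ^ 2 -
        (1 / 2) * ((starRingEnd ℂ) (u a) * (u a - v a)).re := by
    intro a
    rw [norm_mul, mul_pow]
    have h4 : ‖(1 / 2 : ℂ)‖ = 1 / 2 := by norm_num
    rw [h4, ← Complex.normSq_eq_norm_sq, ← Complex.normSq_eq_norm_sq,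
      ← Complex.normSq_eq_norm_sq, Complex.normSq_apply, Complex.normSq_apply,
      Complex.normSq_apply]
    simp only [Complex.add_re, Complex.add_im, Complex.mul_re, Complex.conj_re, Complex.conj_im,
      Complex.sub_re, Complex.sub_im]
    ring
  simp only [h3, Finset.sum_sub_distrib, Finset.sum_add_distrib, ← Finset.mul_sum]
  linarith only [h1, h2]

/-! ### The inverse -/

/-- the map `u ↦ u - Y u` -/
noncomputable def one_sub (G : Matrix X X ℂ) (r : X → ℝ) : (X → ℂ) →ₗ[ℂ] (X → ℂ) :=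
  LinearMap.id - (Ys G r).mulVecLin

theorem one_sub_apply (G : Matrix X X ℂ) (r : X → ℝ) (u : X → ℂ) (a : X) :
    one_sub G r u a = u a - (Ys G r *ᵥ u) a := rfl

theorem ThH.surj (H : ThH G r g c) (hc : 0 < c) (m : X → ℂ) :
    ∃ u : X → ℂ, (∀ a, u a - (Ys G r *ᵥ u) a = m a) ∧
      c ^ 2 * ∑ a, ‖u a‖ ^ 2 ≤ ∑ a, ‖m a‖ ^ 2 := by
  have hinj : Function.Injective (one_sub G r) := by
    rw [← LinearMap.ker_eq_bot, LinearMap.ker_eq_bot']
    intro u hu
    have h1 := H.lower hc.le u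
    have h2 : ∑ a, ‖u a - (Ys G r *ᵥ u) a‖ ^ 2 = 0 := by
      refine Finset.sum_eq_zero fun a _ => ?_
      rw [← one_sub_apply, hu]
      simp
    rw [h2] at h1
    have h3 : ∑ a, ‖u a‖ ^ 2 = 0 := by
      refine le_antisymm ?_ (Finset.sum_nonneg fun a _ => sq_nonneg _)
      have h4 : 0 < c ^ 2 := by positivity
      by_contra h5
      push Not at h5
      have := mul_pos h4 h5
      linarith
    funext a
    have h6 := (Finset.sum_eq_zero_iff_of_nonneg fun a _ => sq_nonneg _).mp h3 a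
      (Finset.mem_univ a)
    exact norm_eq_zero.mp (pow_eq_zero_iff two_ne_zero |>.mp h6)
  obtain ⟨u, hu⟩ := LinearMap.injective_iff_surjective.mp hinj m
  refine ⟨u, fun a => by rw [← one_sub_apply, hu], ?_⟩
  have h1 := H.lower hc.le u
  refine h1.trans (le_of_eq (Finset.sum_congr rfl fun a _ => ?_))
  rw [← one_sub_apply, hu]

/-! ### The bound in the maximum norm -/

/-- `T = (1 + Y) / 2` -/
noncomputable def Th (G : Matrix X X ℂ) (r : X → ℝ) (u : X → ℂ) : X → ℂ :=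
  fun a => (1 / 2 : ℂ) * (u a + (Ys G r *ᵥ u) a)

/-- `T` does not increase the maximum norm with the weights `r g` -/
theorem ThH.th_sup (H : ThH G r g c) (u : X → ℂ) (M : ℝ) (hu : ∀ a, ‖u a‖ ≤ M * (r a * g a))
    (a : X) : ‖Th G r u a‖ ≤ M * (r a * g a) := by
  have hra := H.rp a
  have hga := H.gp a
  have hM : 0 ≤ M := by
    have h1 := (norm_nonneg _).trans (hu a)
    by_contra h2
    push Not at h2
    have := mul_neg_of_neg_of_pos h2 (mul_pos hra hga)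
    linarith
  have h3 : ‖(Ys G r *ᵥ u) a‖ ≤ M * (r a * g a) := by
    rw [Matrix.mulVec, dotProduct]
    calc ‖∑ b, Ys G r a b * u b‖ ≤ ∑ b, ‖Ys G r a b * u b‖ := norm_sum_le _ _
      _ ≤ ∑ b, M * (r a * (r b ^ 2 * ‖G a b‖ ^ 2 * g b)) := by
          refine Finset.sum_le_sum fun b _ => ?_
          rw [norm_mul, Ys_apply, norm_mul, norm_mul, norm_pow, Complex.norm_real,
            Complex.norm_real, Real.norm_of_nonneg hra.le, Real.norm_of_nonneg (H.rp b).le]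
          have h4 := hu b
          have h5 : 0 ≤ r a * ‖G a b‖ ^ 2 * r b :=
            mul_nonneg (mul_nonneg hra.le (sq_nonneg _)) (H.rp b).le
          calc r a * ‖G a b‖ ^ 2 * r b * ‖u b‖ ≤ r a * ‖G a b‖ ^ 2 * r b * (M * (r b * g b)) :=
                mul_le_mul_of_nonneg_left h4 h5
            _ = M * (r a * (r b ^ 2 * ‖G a b‖ ^ 2 * g b)) := by ring
      _ = M * (r a * ∑ b, r b ^ 2 * ‖G a b‖ ^ 2 * g b) := by
          rw [Finset.mul_sum, Finset.mul_sum]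
      _ ≤ M * (r a * g a) :=
          mul_le_mul_of_nonneg_left (mul_le_mul_of_nonneg_left (H.wd a) hra.le) hM
  unfold Th
  rw [norm_mul]
  have h6 : ‖(1 / 2 : ℂ)‖ = 1 / 2 := by norm_num
  rw [h6]
  have h7 := norm_add_le (u a) ((Ys G r *ᵥ u) a)
  have h8 := hu a
  linarith only [h3, h7, h8]

theorem ThH.th_iter_sup (H : ThH G r g c) (u : X → ℂ) (M : ℝ)
    (hu : ∀ a, ‖u a‖ ≤ M * (r a * g a)) (k : ℕ) (a : X) :
    ‖(Th G r)^[k] u a‖ ≤ M * (r a * g a) := by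
  induction k generalizing a with
  | zero => exact hu a
  | succ k ih =>
    rw [Function.iterate_succ_apply']
    exact H.th_sup _ M ih a

theorem ThH.th_iter_norm (H : ThH G r g c) (hc : c ≤ 2) (u : X → ℂ) (k : ℕ) :
    ∑ a, ‖(Th G r)^[k] u a‖ ^ 2 ≤ (1 - c / 2) ^ k * ∑ a, ‖u a‖ ^ 2 := by
  induction k with
  | zero => simp
  | succ k ih =>
    rw [Function.iterate_succ_apply', pow_succ']
    calc ∑ a, ‖Th G r ((Th G r)^[k] u) a‖ ^ 2
        ≤ (1 - c / 2) * ∑ a, ‖(Th G r)^[k] u a‖ ^ 2 := H.half _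
      _ ≤ (1 - c / 2) * ((1 - c / 2) ^ k * ∑ a, ‖u a‖ ^ 2) :=
          mul_le_mul_of_nonneg_left ih (by linarith only [hc])
      _ = _ := by ring

/-- the Neumann sum with its remainder -/
theorem neumann (G : Matrix X X ℂ) (r : X → ℝ) (u m : X → ℂ)
    (hu : ∀ a, u a - (Ys G r *ᵥ u) a = m a) (J : ℕ) (a : X) :
    u a = (1 / 2 : ℂ) * ∑ k ∈ Finset.range J, (Th G r)^[k] m a + (Th G r)^[J] u a := by
  have hlin : ∀ v w : X → ℂ, Th G r (v + w) = Th G r v + Th G r w := by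
    intro v w
    funext b
    unfold Th
    rw [Matrix.mulVec_add]
    simp only [Pi.add_apply]
    ring
  have hsm : ∀ (z : ℂ) (v : X → ℂ), Th G r (z • v) = z • Th G r v := by
    intro z v
    funext b
    unfold Th
    rw [Matrix.mulVec_smul]
    simp only [Pi.smul_apply, smul_eq_mul]
    ring
  have hit : ∀ (k : ℕ) (z : ℂ) (v w : X → ℂ), (Th G r)^[k] (z • v + w) =
      z • (Th G r)^[k] v + (Th G r)^[k] w := by
    intro k z
    induction k with
    | zero => intro v w; rfl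
    | succ k ih =>
      intro v w
      rw [Function.iterate_succ_apply, Function.iterate_succ_apply, Function.iterate_succ_apply,
        hlin, hsm, ih]
  have hone : u = (1 / 2 : ℂ) • m + Th G r u := by
    funext b
    simp only [Pi.add_apply, Pi.smul_apply, smul_eq_mul]
    unfold Th
    rw [← hu b]
    ring
  induction J with
  | zero => simp
  | succ J ih =>
    rw [Finset.sum_range_succ, mul_add, ih, Function.iterate_succ_apply]
    have h1 : (Th G r)^[J] u a = (1 / 2 : ℂ) * (Th G r)^[J] m a + (Th G r)^[J] (Th G r u) a := by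
      conv_lhs => rw [hone]
      rw [hit]
      rfl
    rw [h1]
    ring

/-- the solution of `u - Y u = m` in the maximum norm: the loss is the number `J` of the terms,
up to an exponentially small multiple of the euclidean norm -/
theorem ThH.sup_bound (H : ThH G r g c) (hc : 0 < c) (hc2 : c ≤ 2) (u m : X → ℂ)
    (hu : ∀ a, u a - (Ys G r *ᵥ u) a = m a) (M : ℝ) (hm : ∀ a, ‖m a‖ ≤ M * (r a * g a))
    (J : ℕ) (a : X) : ‖u a‖ ≤ J / 2 * (M * (r a * g a)) +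
      Real.sqrt ((1 - c / 2) ^ J * (c⁻¹ ^ 2 * ∑ b, ‖m b‖ ^ 2)) := by
  rw [neumann G r u m hu J a]
  refine (norm_add_le _ _).trans (add_le_add ?_ ?_)
  · rw [norm_mul]
    have h6 : ‖(1 / 2 : ℂ)‖ = 1 / 2 := by norm_num
    rw [h6]
    calc (1 / 2) * ‖∑ k ∈ Finset.range J, (Th G r)^[k] m a‖
        ≤ (1 / 2) * ∑ k ∈ Finset.range J, ‖(Th G r)^[k] m a‖ :=
          mul_le_mul_of_nonneg_left (norm_sum_le _ _) (by norm_num)
      _ ≤ (1 / 2) * ∑ k ∈ Finset.range J, M * (r a * g a) :=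
          mul_le_mul_of_nonneg_left (Finset.sum_le_sum fun k _ => H.th_iter_sup m M hm k a)
            (by norm_num)
      _ = J / 2 * (M * (r a * g a)) := by
          rw [Finset.sum_const, Finset.card_range, nsmul_eq_mul]
          ring
  · apply Real.le_sqrt_of_sq_le
    calc ‖(Th G r)^[J] u a‖ ^ 2 ≤ ∑ b, ‖(Th G r)^[J] u b‖ ^ 2 :=
          Finset.single_le_sum (f := fun b => ‖(Th G r)^[J] u b‖ ^ 2)
            (fun b _ => sq_nonneg _) (Finset.mem_univ a)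
      _ ≤ (1 - c / 2) ^ J * ∑ b, ‖u b‖ ^ 2 := H.th_iter_norm hc2 u J
      _ ≤ (1 - c / 2) ^ J * (c⁻¹ ^ 2 * ∑ b, ‖m b‖ ^ 2) := by
          refine mul_le_mul_of_nonneg_left ?_ (pow_nonneg (by linarith only [hc2]) _)
          have h1 := H.lower hc.le u
          have h2 : ∑ b, ‖u b - (Ys G r *ᵥ u) b‖ ^ 2 = ∑ b, ‖m b‖ ^ 2 :=
            Finset.sum_congr rfl fun b _ => by rw [hu b]
          rw [h2] at h1
          rw [inv_pow, ← div_eq_inv_mul, le_div_iff₀ (by positivity)]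
          linarith

/-! ### Exponential decay (Combes-Thomas) -/

/-- the conjugated form: `e` is a positive weight -/
theorem ThH.form_ct (H : ThH G r g c) (e : X → ℝ) (θ : ℝ)
    (hct : ∀ a, ∑ b, r b ^ 2 * ‖G a b‖ ^ 2 * (|1 - e a / e b| ⊔ |1 - e b / e a|) * g b ≤
      θ * g a) (u : X → ℂ) :
    (c - θ) * ∑ a, ‖u a‖ ^ 2 ≤
      ∑ a, ((starRingEnd ℂ) (u a) * (u a - ∑ b, ((e a / e b : ℝ) : ℂ) * Ys G r a b * u b)).re := by
  have h1 := H.form u
  have h2 := schur_form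
    (fun a b => r a * r b * ‖G a b‖ ^ 2 * (|1 - e a / e b| ⊔ |1 - e b / e a|))
    (fun a => r a * g a) θ
    (fun a b => mul_nonneg (mul_nonneg (mul_nonneg (H.rp a).le (H.rp b).le) (sq_nonneg _))
      (le_max_of_le_left (abs_nonneg _)))
    (fun a b => by rw [H.sy a b, max_comm]; ring) (fun a => mul_pos (H.rp a) (H.gp a))
    (fun a => by
      have h3 := mul_le_mul_of_nonneg_left (hct a) (H.rp a).le
      rw [Finset.mul_sum] at h3
      refine (le_of_eq ?_).trans (h3.trans (le_of_eq (by ring)))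
      exact Finset.sum_congr rfl fun b _ => by ring) (fun a => ‖u a‖)
  have h4 : ∑ a, ((starRingEnd ℂ) (u a) * (u a - (Ys G r *ᵥ u) a)).re -
      ∑ a, ((starRingEnd ℂ) (u a) *
        (u a - ∑ b, ((e a / e b : ℝ) : ℂ) * Ys G r a b * u b)).re ≤
      ∑ a, ∑ b, r a * r b * ‖G a b‖ ^ 2 * (|1 - e a / e b| ⊔ |1 - e b / e a|) * ‖u a‖ *
        ‖u b‖ := by
    rw [← Finset.sum_sub_distrib]
    refine Finset.sum_le_sum fun a _ => ?_
    rw [← Complex.sub_re, ← mul_sub]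
    have h5 : (u a - (Ys G r *ᵥ u) a) -
        (u a - ∑ b, ((e a / e b : ℝ) : ℂ) * Ys G r a b * u b) =
        ∑ b, ((e a / e b - 1 : ℝ) : ℂ) * Ys G r a b * u b := by
      rw [Matrix.mulVec, dotProduct, sub_sub_sub_cancel_left, ← Finset.sum_sub_distrib]
      refine Finset.sum_congr rfl fun b _ => ?_
      push_cast
      ring
    rw [h5]
    refine (Complex.re_le_norm _).trans ?_
    rw [norm_mul, RCLike.norm_conj]
    calc ‖u a‖ * ‖∑ b, ((e a / e b - 1 : ℝ) : ℂ) * Ys G r a b * u b‖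
        ≤ ‖u a‖ * ∑ b, ‖((e a / e b - 1 : ℝ) : ℂ) * Ys G r a b * u b‖ :=
          mul_le_mul_of_nonneg_left (norm_sum_le _ _) (norm_nonneg _)
      _ ≤ _ := by
          rw [Finset.mul_sum]
          refine Finset.sum_le_sum fun b _ => ?_
          rw [norm_mul, norm_mul, Complex.norm_real, Ys_apply, norm_mul, norm_mul, norm_pow,
            Complex.norm_real, Complex.norm_real, Real.norm_of_nonneg (H.rp a).le,
            Real.norm_of_nonneg (H.rp b).le, Real.norm_eq_abs]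
          have h6 : |e a / e b - 1| ≤ |1 - e a / e b| ⊔ |1 - e b / e a| := by
            rw [abs_sub_comm]
            exact le_max_left _ _
          have h7 : 0 ≤ r a * ‖G a b‖ ^ 2 * r b * ‖u b‖ * ‖u a‖ := by
            have := (H.rp a).le
            have := (H.rp b).le
            positivity
          calc ‖u a‖ * (|e a / e b - 1| * (r a * ‖G a b‖ ^ 2 * r b) * ‖u b‖)
              = |e a / e b - 1| * (r a * ‖G a b‖ ^ 2 * r b * ‖u b‖ * ‖u a‖) := by ring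
            _ ≤ (|1 - e a / e b| ⊔ |1 - e b / e a|) *
                (r a * ‖G a b‖ ^ 2 * r b * ‖u b‖ * ‖u a‖) :=
                mul_le_mul_of_nonneg_right h6 h7
            _ = _ := by ring
  linarith

/-- the weighted euclidean bound: `∑ e² |u|² ≤ (c - θ)⁻² ∑ e² |m|²` -/
theorem ThH.weighted (H : ThH G r g c) (e : X → ℝ) (he : ∀ a, 0 < e a) (θ : ℝ) (hθ : θ < c)
    (hct : ∀ a, ∑ b, r b ^ 2 * ‖G a b‖ ^ 2 * (|1 - e a / e b| ⊔ |1 - e b / e a|) * g b ≤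
      θ * g a) (u m : X → ℂ) (hu : ∀ a, u a - (Ys G r *ᵥ u) a = m a) :
    (c - θ) ^ 2 * ∑ a, e a ^ 2 * ‖u a‖ ^ 2 ≤ ∑ a, e a ^ 2 * ‖m a‖ ^ 2 := by
  have h1 := H.form_ct e θ hct fun a => (e a : ℂ) * u a
  have h2 : ∀ a, ((e a : ℂ) * u a - ∑ b, ((e a / e b : ℝ) : ℂ) * Ys G r a b * ((e b : ℂ) * u b)) =
      (e a : ℂ) * m a := by
    intro a
    rw [← hu a, mul_sub, Matrix.mulVec, dotProduct, Finset.mul_sum]
    congr 1
    refine Finset.sum_congr rfl fun b _ => ?_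
    have h3 : ((e b : ℝ) : ℂ) ≠ 0 := by exact_mod_cast (he b).ne'
    push_cast
    field_simp
  simp only [h2] at h1
  have hn : ∀ (v : X → ℂ) (a : X), ‖(e a : ℂ) * v a‖ ^ 2 = e a ^ 2 * ‖v a‖ ^ 2 := by
    intro v a
    rw [norm_mul, mul_pow, Complex.norm_real, Real.norm_eq_abs, sq_abs]
  set A := ∑ a, e a ^ 2 * ‖u a‖ ^ 2 with hA
  set B := ∑ a, e a ^ 2 * ‖m a‖ ^ 2 with hB
  have hA0 : 0 ≤ A := Finset.sum_nonneg fun a _ => mul_nonneg (sq_nonneg _) (sq_nonneg _)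
  have hB0 : 0 ≤ B := Finset.sum_nonneg fun a _ => mul_nonneg (sq_nonneg _) (sq_nonneg _)
  have hAe : ∑ a, ‖(e a : ℂ) * u a‖ ^ 2 = A := Finset.sum_congr rfl fun a _ => hn u a
  have hBe : ∑ a, ‖(e a : ℂ) * m a‖ ^ 2 = B := Finset.sum_congr rfl fun a _ => hn m a
  rw [hAe] at h1
  have h4 : (c - θ) * A ≤ ∑ a, ‖(e a : ℂ) * u a‖ * ‖(e a : ℂ) * m a‖ := by
    refine h1.trans (Finset.sum_le_sum fun a _ => ?_)
    refine (Complex.re_le_norm _).trans ?_
    rw [norm_mul, RCLike.norm_conj]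
  have h5 : (∑ a, ‖(e a : ℂ) * u a‖ * ‖(e a : ℂ) * m a‖) ^ 2 ≤ A * B := by
    rw [← hAe, ← hBe]
    exact Finset.sum_mul_sq_le_sq_mul_sq _ _ _
  have hcθ : 0 ≤ c - θ := by linarith
  have h6 : ((c - θ) * A) ^ 2 ≤ A * B :=
    (pow_le_pow_left₀ (mul_nonneg hcθ hA0) h4 2).trans h5
  rcases hA0.eq_or_lt with h7 | h7
  · rw [← h7, mul_zero]
    exact hB0
  · have h8 : A * ((c - θ) ^ 2 * A) ≤ A * B := by nlinarith only [h6]
    exact le_of_mul_le_mul_left h8 h7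

/-- the local bound in the maximum norm at the site `o`: only the values of `m` in `B` enter, up to
an exponentially small error -/
theorem ThH.local_sup [DecidableEq X] (H : ThH G r g c) (hc : 0 < c) (hc2 : c ≤ 2) (e : X → ℝ)
    (he : ∀ a, 0 < e a) (θ : ℝ) (hθ : θ < c)
    (hct : ∀ a, ∑ b, r b ^ 2 * ‖G a b‖ ^ 2 * (|1 - e a / e b| ⊔ |1 - e b / e a|) * g b ≤
      θ * g a) (o : X) (ho : e o = 1) (B : Finset X) (u m : X → ℂ)
    (hu : ∀ a, u a - (Ys G r *ᵥ u) a = m a) (M : ℝ) (hM : 0 ≤ M)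
    (hm : ∀ a ∈ B, ‖m a‖ ≤ M * (r a * g a)) (J : ℕ) :
    ‖u o‖ ≤ J / 2 * (M * (r o * g o)) +
      Real.sqrt ((1 - c / 2) ^ J * (c⁻¹ ^ 2 * ∑ b ∈ B, ‖m b‖ ^ 2)) +
      Real.sqrt ((c - θ)⁻¹ ^ 2 * ∑ b ∈ Bᶜ, e b ^ 2 * ‖m b‖ ^ 2) := by
  obtain ⟨u1, hu1, -⟩ := H.surj hc fun a => if a ∈ B then m a else 0
  have hu2 : ∀ a, (u - u1) a - (Ys G r *ᵥ (u - u1)) a = if a ∈ B then 0 else m a := by
    intro a
    rw [Matrix.mulVec_sub]
    have h1 := hu a
    have h2 := hu1 a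
    simp only [Pi.sub_apply]
    split_ifs with h3
    · rw [if_pos h3] at h2
      rw [← h2] at h1
      linear_combination h1
    · rw [if_neg h3] at h2
      linear_combination h1 - h2
  have h3 : ‖u1 o‖ ≤ J / 2 * (M * (r o * g o)) +
      Real.sqrt ((1 - c / 2) ^ J * (c⁻¹ ^ 2 * ∑ b ∈ B, ‖m b‖ ^ 2)) := by
    have h4 := H.sup_bound hc hc2 u1 _ hu1 M (fun a => by
      split_ifs with h5
      · exact hm a h5
      · rw [norm_zero]
        exact mul_nonneg hM (mul_nonneg (H.rp a).le (H.gp a).le)) J o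
    have h5 : ∑ b, ‖(if b ∈ B then m b else 0 : ℂ)‖ ^ 2 = ∑ b ∈ B, ‖m b‖ ^ 2 := by
      rw [← Finset.sum_filter_add_sum_filter_not Finset.univ (fun b => b ∈ B)]
      rw [Finset.filter_mem_eq_inter, Finset.univ_inter]
      have h6 : ∑ x ∈ Finset.univ.filter (fun b => b ∉ B),
          ‖(if x ∈ B then m x else 0 : ℂ)‖ ^ 2 = 0 := by
        refine Finset.sum_eq_zero fun b hb => ?_
        rw [Finset.mem_filter] at hb
        rw [if_neg hb.2]
        simp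
      rw [h6, add_zero]
      exact Finset.sum_congr rfl fun b hb => by rw [if_pos hb]
    rw [h5] at h4
    exact h4
  have h4 : ‖(u - u1) o‖ ≤ Real.sqrt ((c - θ)⁻¹ ^ 2 * ∑ b ∈ Bᶜ, e b ^ 2 * ‖m b‖ ^ 2) := by
    apply Real.le_sqrt_of_sq_le
    have h5 := H.weighted e he θ hθ hct (u - u1) _ hu2
    have h6 : ∑ a, e a ^ 2 * ‖(if a ∈ B then 0 else m a : ℂ)‖ ^ 2 =
        ∑ b ∈ Bᶜ, e b ^ 2 * ‖m b‖ ^ 2 := by
      rw [← Finset.sum_filter_add_sum_filter_not Finset.univ (fun b => b ∈ B)]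
      have h7 : ∑ x ∈ Finset.univ.filter (fun b => b ∈ B),
          e x ^ 2 * ‖(if x ∈ B then 0 else m x : ℂ)‖ ^ 2 = 0 := by
        refine Finset.sum_eq_zero fun b hb => ?_
        rw [Finset.mem_filter] at hb
        rw [if_pos hb.2]
        simp
      have h8 : Finset.univ.filter (fun b => b ∉ B) = Bᶜ := by
        ext b
        simp
      rw [h7, zero_add, h8]
      refine Finset.sum_congr rfl fun b hb => ?_
      rw [if_neg (Finset.mem_compl.mp hb)]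
    rw [h6] at h5
    have h9 : 0 < c - θ := by linarith only [hθ]
    have h10 : e o ^ 2 * ‖(u - u1) o‖ ^ 2 ≤ ∑ a, e a ^ 2 * ‖(u - u1) a‖ ^ 2 :=
      Finset.single_le_sum (f := fun a => e a ^ 2 * ‖(u - u1) a‖ ^ 2)
        (fun a _ => mul_nonneg (sq_nonneg _) (sq_nonneg _)) (Finset.mem_univ o)
    rw [ho, one_pow, one_mul] at h10
    refine h10.trans ?_
    rw [inv_pow, ← div_eq_inv_mul, le_div_iff₀ (by positivity)]
    linarith only [h5]
  have h5 : u o = u1 o + (u - u1) o := by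
    simp only [Pi.sub_apply]
    ring
  rw [h5]
  exact (norm_add_le _ _).trans (add_le_add h3 h4)

end theta

end Pool.Agent.AGU.TF
end -- Pool.Agent.AGU.ThetaF

section -- Pool.Agent.AGU.Stmts

/-!
# Change of the gauge: statements

At the boundary of a stage the gauge `m` of the running sites is replaced by `m + δ`, where
`δ = (1 - Y)⁻¹ μ` (one Newton step), `μ a = G a a - m a` is the mismatch, `Y = s G ∘ G`. The resolvent
changes by `G' = G + G z G'`, `z = s δ`. Everything is uniform in the volume: `|δ| ≤ C log(1/s) |μ|` in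
the sup norm, the new mismatch is quadratic, the Dirichlet form changes by a relative amount
`C |δ|` for all functions at once.
-/

set_option autoImplicit false

open scoped BigOperators Matrix

noncomputable section

namespace Pool.Agent.AGU

/-- GWB: consequences of the Ward identity. Proof: (1) `hw` with `a = b`. (2) for `u`:
`∑_a k_a |∑_b G_ab u_b|² = ∑_(b,c) conj(u_b) u_c ∑_a k_a conj(G_ba) G_ac = ∑_(b,c) conj(u_b) u_c Im G_bc`,
and this real number is the imaginary part of `∑_(b,c) conj(u_b) u_c G_bc` (symmetry of `G`), so it is at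
most `|∑_b conj(u_b) (G u)_b| ≤ (∑ |u_b|²/k_b)^(1/2) (∑ k_b |(G u)_b|²)^(1/2)`. (3) (2) for
`u = e_b`, `u_b = 1`: `∑_a k_a |G_ab|² ≤ 1/k_b`; one term of the sum. (4) Cauchy-Schwarz and (1). -/
def GwbStmt : Prop :=
  ∀ (X : Type) [Fintype X] [DecidableEq X] (G : Matrix X X ℂ) (k : X → ℝ), WK G k →
    (∀ a, ∑ b, k b * ‖G a b‖ ^ 2 = (G a a).im) ∧
    (∀ u : X → ℂ, ∑ a, k a * ‖∑ b, G a b * u b‖ ^ 2 ≤ ∑ b, ‖u b‖ ^ 2 / k b) ∧
    (∀ a b, k a * k b * ‖G a b‖ ^ 2 ≤ 1) ∧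
    ∀ (a b : X) (z : X → ℂ) (d : ℝ), 0 ≤ d → (∀ c, ‖z c‖ ≤ d * k c) →
      ‖∑ c, G a c * z c * G c b‖ ≤ d * Real.sqrt ((G a a).im * (G b b).im)

/-- GPB (uses GWB): bounds for the change `Δ = G' - G = G z G'`. Write `g = Im G_aa`, `g'` for `G'`;
`k' ≥ (3/4) k`. (a) `|Δ_ab| ≤ ∑_c |G_ac| d k_c |G'_cb| ≤ d (g_a)^(1/2) ((4/3) g'_b)^(1/2)` (Cauchy-Schwarz,
`∑ k_c |G'_cb|² ≤ (4/3) ∑ k'_c |G'_cb|² = (4/3) g'_b`). For `a = b`:
`|g' - g| ≤ (1/4)(4/3)^(1/2) (g g')^(1/2) ≤ 0.29 (g + g')/2`, so `g' ≤ 1.4 g` and `g ≤ 1.4 g'`: (1).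
(2) from (a): `d² (4/3) (1.4) ≤ 2 d²`. (3) `Δ` column `b` is `G (z G' e_b)`: GWB (2):
`∑_a k_a |Δ_ab|² ≤ ∑_c |z_c|² |G'_cb|²/k_c ≤ d² ∑ k_c |G'_cb|² ≤ d² (4/3) (1.4) g_b`.
(4) `Δ_aa - ∑_c G_ac z_c G_ca = ∑_c G_ac z_c Δ_ca`, Cauchy-Schwarz with (3): `d (g_a)^(1/2) (2 d² g_a)^(1/2)`.
(5) `|G'² - G²| ≤ |Δ| (2 |G| + |Δ|)`, Cauchy-Schwarz with the weights `k`: `2 (2 d² g g)^(1/2) + 2 d² g`.
(6) `∑_(b ∈ S) |Δ_ab|⁴ ≤ sup_b |Δ_ab|² ∑_(b ∈ S) |Δ_ab|²`, (2) and (3) (`Δ` is symmetric). -/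
def GpbStmt : Prop :=
  ∀ (X : Type) [Fintype X] [DecidableEq X] (G G' : Matrix X X ℂ) (k k' : X → ℝ) (z : X → ℂ)
    (d : ℝ), Chg G G' k k' z d →
    (∀ a, (G' a a).im ≤ 3 / 2 * (G a a).im ∧ (G a a).im ≤ 3 / 2 * (G' a a).im) ∧
    (∀ a b, ‖G' a b - G a b‖ ^ 2 ≤ 2 * d ^ 2 * ((G a a).im * (G b b).im)) ∧
    (∀ b, ∑ a, k a * ‖G' a b - G a b‖ ^ 2 ≤ 2 * d ^ 2 * (G b b).im) ∧
    (∀ a, ‖G' a a - G a a - ∑ c, G a c ^ 2 * z c‖ ≤ 2 * d ^ 2 * (G a a).im) ∧
    (∀ a, ∑ b, k b * ‖G' a b ^ 2 - G a b ^ 2‖ ≤ 4 * d * (G a a).im) ∧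
    ∀ (a : X) (S : Finset X) (κ₀ g₀ : ℝ), 0 < κ₀ → 0 ≤ g₀ → (∀ b ∈ S, κ₀ ≤ k b ∧ (G b b).im ≤ g₀) →
      ∑ b ∈ S, ‖G' a b - G a b‖ ^ 4 ≤ 4 * d ^ 4 * (G a a).im ^ 2 * g₀ / κ₀

/-- GPF (uses GWB): the change of the form, for all functions at once. Proof: let `F = [f, G]`,
`F_ab = (f_a - f_b) G_ab`, so `EF G k f = (1/2) ∑ k_a k_b |F_ab|²`, and `F'` for `G'`. From
`G' = G + G z G'`, `f` commutes with `z`: `F' = F + F z G' + G z F'`. As `G' = (1 + G' z) G` too (the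
transpose of `hr`, symmetry) and `(1 + G' z)(1 - G z) = 1` (from `G' = G + G' z G`), one gets
`F' = (1 + G' z) F (1 + z G')`. With the norm `N(F)² = ∑ k_a k_b |F_ab|²`: GWB (2) for `G'`, `k'` and
`k ≤ (4/3) k'`, `|z|² ≤ d² k²`: `∑_a k_a |∑_b G'_ab z_b u_b|² ≤ (4/3)² d² ∑ k_b |u_b|²`
(`∑ |z_b u_b|²/k'_b ≤ (4/3) d² ∑ k_b |u_b|²`), so `N(G' z F) ≤ (4/3) d N(F)`, the same on the right side:
`N(F' - F) ≤ (2 (4/3) d + (4/3)² d²) N(F) ≤ (7/2) d N(F)`, `N(F')² ≤ (1 + (7/2) d)² N(F)²`,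
`N(F')² ≥ (1 - (7/2) d)² N(F)²`. The weights: `|k'_a k'_b - k_a k_b| ≤ (2 d + d²) k_a k_b`. In total a relative
change at most `(1 + (7/2) d)² (1 + d)² - 1 ≤ 20 d`. -/
def GpfStmt : Prop :=
  ∀ (X : Type) [Fintype X] [DecidableEq X] (G G' : Matrix X X ℂ) (k k' : X → ℝ) (z : X → ℂ)
    (d : ℝ), Chg G G' k k' z d → ∀ f : X → ℝ, |EF G' k' f - EF G k f| ≤ 20 * d * EF G k f

/-- GHO: Minkowski in `ℓ⁴`. Proof: `N(x) = (∑ |x|⁴)^(1/4)` is a norm (`Real.Lp_add_le` or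
`PiLp` with `p = 4`), square `N(h) ≤ N(g) + N(h - g)`. -/
def GhoStmt : Prop :=
  ∀ (X : Type) (S : Finset X) (g h : X → ℂ) (L Q : ℝ), 0 ≤ L → 0 ≤ Q →
    ∑ b ∈ S, ‖g b‖ ^ 4 ≤ L ^ 4 → ∑ b ∈ S, ‖h b - g b‖ ^ 4 ≤ Q ^ 4 →
      ∑ b ∈ S, ‖h b‖ ^ 4 ≤ (L + Q) ^ 4

/-- GNW: the Newton step. Proof: apply `AGU.TF.ThH.local_sup` (`AGU/ThetaF.lean`, helper92's theorem
with the form bound as hypothesis) on the subtype `R`, with `G` restricted to `R`, `g a = Im m a`,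
`r a = r = (s / (1 + ε/c₀))^(1/2)`. `wd`: `∑_(b ∈ R) s g_b |G_ab|² ≤ ∑ k_b |G_ab|² = Im G_aa ≤ g_a + ε ≤
(1 + ε/c₀) g_a`. `form`: `r² ≤ s`, so from `hY` (the part `1 - r²/s ≥ 0` of `|u|²`: write
`|u|² - r² Re⟨u, G² u⟩ = (1 - r²/s) |u|² + (r²/s)(|u|² - s Re⟨u, G² u⟩) ≥ (1 - r²/s) |u|² + (r²/s) c |u|²
≥ c |u|²`, `c ≤ 1`). `surj` gives `u` with `u - Ys G r u = r μ`; `δ = u / r` on `R`, `0` outside:
`δ_a - μ_a = ∑_b r² G_ab² δ_b` on `R`. `local_sup` at `o` with `θ = c / 4`, `e = e o`, `B = B o`,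
`M = ε/c₀` (`|r μ_a| ≤ r ε ≤ M r g_a`), `J = ⌈4 log N / c⌉`: `(1 - c/2)^J ≤ exp(-c J/2) ≤ 1/N²`, so
`|u_o| ≤ (J/2) (ε/c₀) r C₀ + (c^(-2) N^(-2) N r² ε²)^(1/2) + ((4/(3c))² r² ε²)^(1/2)`: divide by `r`. The
residual: `δ_a - μ_a - ∑ s G_ab² δ_b = - (s - r²) ∑ G_ab² δ_b`, `s - r² ≤ s ε/c₀`, and
`∑_(b ∈ R) s |G_ab|² ≤ (g_a + ε)/c₀`. -/
def GnwStmt : Prop :=
  ∀ c c₀ C₀ : ℝ, 0 < c → 0 < c₀ → 1 ≤ C₀ → ∃ C : ℝ, 1 ≤ C ∧
    ∀ (X : Type) [Fintype X] [DecidableEq X] (G : Matrix X X ℂ) (k : X → ℝ) (R : Finset X)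
      (m : X → ℂ) (s ε : ℝ) (e : X → X → ℝ) (B : X → Finset X) (N : ℝ),
      Run G k R m s ε c c₀ C₀ → 1 ≤ N → (∀ a b, 0 < e a b) → (∀ a, e a a = 1) →
      (∀ o ∈ R, ∀ a ∈ R, ∑ b ∈ R, s * ‖G a b‖ ^ 2 *
        (|1 - e o a / e o b| ⊔ |1 - e o b / e o a|) * (m b).im ≤ c / 4 * (m a).im) →
      (∀ o, ((B o).card : ℝ) ≤ N) → (∀ o, ∑ b ∈ R \ B o, e o b ^ 2 ≤ 1) →
      ∃ δ : X → ℂ, (∀ a, a ∉ R → δ a = 0) ∧ (∀ a, ‖δ a‖ ≤ C * (1 + Real.log N) * ε) ∧
        ∀ a ∈ R, ‖δ a - (G a a - m a) - ∑ b ∈ R, s * G a b ^ 2 * δ b‖ ≤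
          C * (1 + Real.log N) * ε ^ 2

/-- GCW: the weights from the weighted Ward identity. Proof: `e o a = exp(-β D o a)`,
`|1 - e o a/e o b| ≤ exp(β D a b) - 1` (triangle inequality, `|1 - exp t| ≤ exp |t| - 1`), the same for the
other; `exp(β x) - 1 ≤ (β/β₁) (exp(β₁ x) - 1)` for `0 ≤ β ≤ β₁`, `x ≥ 0` (convexity), `s Im m ≤ k`. -/
def GcwStmt : Prop :=
  ∀ (X : Type) [Fintype X] [DecidableEq X] (G : Matrix X X ℂ) (k : X → ℝ) (R : Finset X)
    (m : X → ℂ) (s ε c c₀ C₀ β β₁ C₁ : ℝ) (D : X → X → ℝ), Run G k R m s ε c c₀ C₀ →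
    (∀ a b, 0 ≤ D a b ∧ D a b = D b a) → (∀ a, D a a = 0) → (∀ a b e, D a b ≤ D a e + D e b) →
    0 ≤ β → β ≤ β₁ → 0 < β₁ → 0 ≤ C₁ →
    (∀ a ∈ R, ∑ b, k b * ‖G a b‖ ^ 2 * Real.exp (β₁ * D a b) ≤ C₁ * (m a).im) →
      ∀ o ∈ R, ∀ a ∈ R, ∑ b ∈ R, s * ‖G a b‖ ^ 2 *
        (|1 - Real.exp (-(β * D o a)) / Real.exp (-(β * D o b))| ⊔
          |1 - Real.exp (-(β * D o b)) / Real.exp (-(β * D o a))|) * (m b).im ≤
        β / β₁ * C₁ * (m a).im

/-- the conclusion of the regauging: `L` is `C (1 + log N)` -/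
def Regauged {X : Type} [Fintype X] [DecidableEq X] (G : Matrix X X ℂ) (k : X → ℝ) (R : Finset X)
    (m : X → ℂ) (s ε c₀ L : ℝ) (δ : X → ℂ) : Prop :=
  (∀ a, a ∉ R → δ a = 0) ∧ (∀ a, ‖δ a‖ ≤ L * ε) ∧ (∀ a, ‖(s : ℂ) * δ a‖ ≤ L * ε / c₀ * k a) ∧
    ∀ (G' : Matrix X X ℂ) (k' : X → ℝ), Chg G G' k k' (fun a => (s : ℂ) * δ a) (L * ε / c₀) →
      (∀ a ∈ R, ‖G' a a - (m a + δ a)‖ ≤ L ^ 2 * ε ^ 2) ∧
      ∀ u : X → ℂ, ∑ a ∈ R, ‖∑ b ∈ R, (s : ℂ) * (G' a b ^ 2 - G a b ^ 2) * u b‖ ^ 2 ≤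
        (L * ε) ^ 2 * ∑ b ∈ R, ‖u b‖ ^ 2

/-- GFI (uses GNW, GPB): the regauging. Proof: `δ` from GNW, `L₁ = C (1 + log N)`, `L = C' L₁` with
`C' = C'(c₀, C₀)` large. `|s δ_a| ≤ s L₁ ε ≤ (L₁ ε/c₀) k_a` on `R` (`k ≥ s Im m ≥ s c₀`). New mismatch:
`G'_aa - m_a - δ_a = (G'_aa - G_aa - ∑ G_ac² s δ_c) + (μ_a + ∑ s G_ac² δ_c - δ_a)`: GPB (4) with
`d = L₁ ε/c₀` (`Chg` holds with this `d` too; `Im G_aa ≤ C₀ + 1`) and the residual of GNW. The last: the matrix
`s |G'² - G²|` on `R` is symmetric with row sums `≤ (1/c₀) ∑ k_b |G'_ab² - G_ab²| ≤ 4 d (C₀ + 1)/c₀`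
(GPB (5), `d = L₁ ε/c₀`), Schur test. `L ≥ 1` absorbs the constants. -/
def GfiStmt : Prop :=
  ∀ c c₀ C₀ : ℝ, 0 < c → 0 < c₀ → 1 ≤ C₀ → ∃ C : ℝ, 1 ≤ C ∧
    ∀ (X : Type) [Fintype X] [DecidableEq X] (G : Matrix X X ℂ) (k : X → ℝ) (R : Finset X)
      (m : X → ℂ) (s ε : ℝ) (e : X → X → ℝ) (B : X → Finset X) (N : ℝ),
      Run G k R m s ε c c₀ C₀ → 1 ≤ N → (∀ a b, 0 < e a b) → (∀ a, e a a = 1) →
      (∀ o ∈ R, ∀ a ∈ R, ∑ b ∈ R, s * ‖G a b‖ ^ 2 *
        (|1 - e o a / e o b| ⊔ |1 - e o b / e o a|) * (m b).im ≤ c / 4 * (m a).im) →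
      (∀ o, ((B o).card : ℝ) ≤ N) → (∀ o, ∑ b ∈ R \ B o, e o b ^ 2 ≤ 1) →
      ∃ δ : X → ℂ, Regauged G k R m s ε c₀ (C * (1 + Real.log N)) δ

end Pool.Agent.AGU
end
end -- Pool.Agent.AGU.Stmts

section -- Pool.Agent.Helper62_AGU.GPF

/-! Tank AGU, row GPF (helper62): the change of the Dirichlet form, for all functions at once. -/

set_option autoImplicit false

open scoped BigOperators Matrix

noncomputable section

namespace Pool.Agent.AGU.H62

variable {X : Type} [Fintype X] [DecidableEq X]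

/-- the weighted vector of a matrix -/
def vv (k : X → ℝ) (M : Matrix X X ℂ) : EuclideanSpace ℂ (X × X) :=
  WithLp.toLp 2 fun p => (Real.sqrt (k p.1 * k p.2) : ℂ) * M p.1 p.2

omit [Fintype X] [DecidableEq X] in
theorem vv_add (k : X → ℝ) (M M' : Matrix X X ℂ) : vv k (M + M') = vv k M + vv k M' := by
  ext p
  change (Real.sqrt (k p.1 * k p.2) : ℂ) * (M + M') p.1 p.2 =
    (Real.sqrt (k p.1 * k p.2) : ℂ) * M p.1 p.2 + (Real.sqrt (k p.1 * k p.2) : ℂ) * M' p.1 p.2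
  rw [Matrix.add_apply, mul_add]

omit [DecidableEq X] in
theorem vv_sq {k : X → ℝ} (hk : ∀ a, 0 < k a) (M : Matrix X X ℂ) :
    ‖vv k M‖ ^ 2 = ∑ a, ∑ b, k a * k b * ‖M a b‖ ^ 2 := by
  rw [EuclideanSpace.norm_sq_eq, Fintype.sum_prod_type]
  refine Finset.sum_congr rfl fun a _ => Finset.sum_congr rfl fun b _ => ?_
  change ‖(Real.sqrt (k a * k b) : ℂ) * M a b‖ ^ 2 = _
  have h0 : 0 ≤ k a * k b := (mul_pos (hk a) (hk b)).le
  rw [norm_mul, mul_pow, Complex.norm_real, Real.norm_eq_abs, sq_abs, Real.sq_sqrt h0]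

omit [DecidableEq X] in
theorem vv_tr {k : X → ℝ} (hk : ∀ a, 0 < k a) (M : Matrix X X ℂ) : ‖vv k Mᵀ‖ = ‖vv k M‖ := by
  have h : ‖vv k Mᵀ‖ ^ 2 = ‖vv k M‖ ^ 2 := by
    rw [vv_sq hk, vv_sq hk, Finset.sum_comm]
    refine Finset.sum_congr rfl fun a _ => Finset.sum_congr rfl fun b _ => ?_
    rw [Matrix.transpose_apply, mul_comm (k b)]
  exact (pow_left_inj₀ (norm_nonneg _) (norm_nonneg _) two_ne_zero).1 h

omit [DecidableEq X] in
theorem kk {G G' : Matrix X X ℂ} {k k' : X → ℝ} {z : X → ℂ} {d : ℝ} (h : Chg G G' k k' z d)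
    (a : X) : (1 - d) * k a ≤ k' a ∧ k' a ≤ (1 + d) * k a := by
  have h1 := h.hk a
  have h2 := h.hz a
  have h3 := abs_le.1 ((Complex.abs_im_le_norm (z a)).trans h2)
  constructor <;> nlinarith only [h3.1, h3.2, h1]

/-- one column -/
theorem col (hG : GwbStmt) {G G' : Matrix X X ℂ} {k k' : X → ℝ} {z : X → ℂ} {d : ℝ}
    (h : Chg G G' k k' z d) (u : X → ℂ) :
    ∑ a, k a * ‖∑ c, G' a c * (z c * u c)‖ ^ 2 ≤ (4 / 3 * d) ^ 2 * ∑ c, k c * ‖u c‖ ^ 2 := by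
  obtain ⟨-, h2, -, -⟩ := hG X G' k' h.h1
  have hd := h.hd
  have h3 := h2 (fun c => z c * u c)
  have hk : ∀ a, 3 / 4 * k a ≤ k' a := by
    intro a
    have := (kk h a).1
    have h0 := h.h0.hk a
    nlinarith only [hd.2, this, h0]
  calc ∑ a, k a * ‖∑ c, G' a c * (z c * u c)‖ ^ 2
      ≤ ∑ a, 4 / 3 * (k' a * ‖∑ c, G' a c * (z c * u c)‖ ^ 2) := by
        refine Finset.sum_le_sum fun a _ => ?_
        have h4 := hk a
        have h5 : 0 ≤ ‖∑ c, G' a c * (z c * u c)‖ ^ 2 := by positivity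
        nlinarith only [h4]
    _ = 4 / 3 * ∑ a, k' a * ‖∑ c, G' a c * (z c * u c)‖ ^ 2 := by rw [Finset.mul_sum]
    _ ≤ 4 / 3 * ∑ c, ‖z c * u c‖ ^ 2 / k' c := by
        apply mul_le_mul_of_nonneg_left h3 (by norm_num)
    _ ≤ 4 / 3 * ∑ c, 4 / 3 * d ^ 2 * (k c * ‖u c‖ ^ 2) := by
        apply mul_le_mul_of_nonneg_left _ (by norm_num)
        refine Finset.sum_le_sum fun c _ => ?_
        have h0 := h.h0.hk c
        have h1 := h.h1.hk c
        rw [div_le_iff₀ h1, norm_mul, mul_pow]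
        have h4 : ‖z c‖ ^ 2 ≤ (d * k c) ^ 2 :=
          pow_le_pow_left₀ (norm_nonneg _) (h.hz c) 2
        have h5 : 0 ≤ ‖u c‖ ^ 2 := by positivity
        have h6 := hk c
        calc ‖z c‖ ^ 2 * ‖u c‖ ^ 2 ≤ (d * k c) ^ 2 * ‖u c‖ ^ 2 :=
              mul_le_mul_of_nonneg_right h4 h5
          _ = 4 / 3 * d ^ 2 * (k c * ‖u c‖ ^ 2) * (3 / 4 * k c) := by ring
          _ ≤ 4 / 3 * d ^ 2 * (k c * ‖u c‖ ^ 2) * k' c := by
              apply mul_le_mul_of_nonneg_left h6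
              positivity
    _ = (4 / 3 * d) ^ 2 * ∑ c, k c * ‖u c‖ ^ 2 := by
        rw [← Finset.mul_sum]
        ring

theorem left (hG : GwbStmt) {G G' : Matrix X X ℂ} {k k' : X → ℝ} {z : X → ℂ} {d : ℝ}
    (h : Chg G G' k k' z d) (M : Matrix X X ℂ) :
    ‖vv k (G' * Matrix.diagonal z * M)‖ ≤ 4 / 3 * d * ‖vv k M‖ := by
  have hd := h.hd
  have hk := h.h0.hk
  apply (pow_le_pow_iff_left₀ (norm_nonneg _) (mul_nonneg (by linarith only [hd.1])
    (norm_nonneg _)) two_ne_zero).1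
  rw [mul_pow, vv_sq hk, vv_sq hk, Finset.sum_comm]
  have h1 : ∀ b, ∑ a, k a * k b * ‖(G' * Matrix.diagonal z * M) a b‖ ^ 2 ≤
      k b * ((4 / 3 * d) ^ 2 * ∑ c, k c * ‖M c b‖ ^ 2) := by
    intro b
    have h2 := col hG h (fun c => M c b)
    have h3 : ∀ a, (G' * Matrix.diagonal z * M) a b = ∑ c, G' a c * (z c * M c b) := by
      intro a
      rw [Matrix.mul_apply]
      refine Finset.sum_congr rfl fun c _ => ?_
      rw [Matrix.mul_diagonal, mul_assoc]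
    calc ∑ a, k a * k b * ‖(G' * Matrix.diagonal z * M) a b‖ ^ 2
        = k b * ∑ a, k a * ‖∑ c, G' a c * (z c * M c b)‖ ^ 2 := by
          rw [Finset.mul_sum]
          refine Finset.sum_congr rfl fun a _ => ?_
          rw [h3 a]
          ring
      _ ≤ _ := mul_le_mul_of_nonneg_left h2 (hk b).le
  calc ∑ b, ∑ a, k a * k b * ‖(G' * Matrix.diagonal z * M) a b‖ ^ 2
      ≤ ∑ b, k b * ((4 / 3 * d) ^ 2 * ∑ c, k c * ‖M c b‖ ^ 2) :=
        Finset.sum_le_sum fun b _ => h1 b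
    _ = (4 / 3 * d) ^ 2 * ∑ b, ∑ c, k c * k b * ‖M c b‖ ^ 2 := by
        rw [Finset.mul_sum]
        refine Finset.sum_congr rfl fun b _ => ?_
        rw [← mul_assoc, mul_comm (k b), mul_assoc, Finset.mul_sum]
        congr 1
        refine Finset.sum_congr rfl fun c _ => ?_
        ring
    _ = (4 / 3 * d) ^ 2 * ∑ a, ∑ b, k a * k b * ‖M a b‖ ^ 2 := by rw [Finset.sum_comm]

theorem right (hG : GwbStmt) {G G' : Matrix X X ℂ} {k k' : X → ℝ} {z : X → ℂ} {d : ℝ}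
    (h : Chg G G' k k' z d) (M : Matrix X X ℂ) :
    ‖vv k (M * Matrix.diagonal z * G')‖ ≤ 4 / 3 * d * ‖vv k M‖ := by
  have h1 := left hG h Mᵀ
  rw [vv_tr h.h0.hk M] at h1
  have h2 : G'ᵀ = G' := by
    ext a b
    exact h.h1.hs b a
  have h3 : (G' * Matrix.diagonal z * Mᵀ) = (M * Matrix.diagonal z * G')ᵀ := by
    rw [Matrix.transpose_mul, Matrix.transpose_mul, Matrix.diagonal_transpose, h2, mul_assoc]
  rw [h3, vv_tr h.h0.hk] at h1
  exact h1

theorem ident {G G' : Matrix X X ℂ} {k k' : X → ℝ} {z : X → ℂ} {d : ℝ}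
    (h : Chg G G' k k' z d) (f : X → ℂ) :
    Matrix.diagonal f * G' - G' * Matrix.diagonal f =
      (Matrix.diagonal f * G - G * Matrix.diagonal f) +
      (G' * Matrix.diagonal z * (Matrix.diagonal f * G - G * Matrix.diagonal f) +
        (Matrix.diagonal f * G - G * Matrix.diagonal f) * Matrix.diagonal z * G' +
        G' * Matrix.diagonal z * ((Matrix.diagonal f * G - G * Matrix.diagonal f) *
          Matrix.diagonal z * G')) := by
  have h1 : G' = G + G * Matrix.diagonal z * G' := by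
    ext a b
    rw [Matrix.add_apply, Matrix.mul_apply, h.hr a b]
    congr 1
    refine Finset.sum_congr rfl fun c _ => ?_
    rw [Matrix.mul_diagonal]
  have h2 : G' = G + G' * Matrix.diagonal z * G := by
    ext a b
    rw [Matrix.add_apply, Matrix.mul_apply, h.h1.hs a b, h.hr b a, h.h0.hs b a]
    congr 1
    refine Finset.sum_congr rfl fun c _ => ?_
    rw [Matrix.mul_diagonal, h.h1.hs c a, h.h0.hs b c]
    ring
  have h3 : Matrix.diagonal f * Matrix.diagonal z = Matrix.diagonal z * Matrix.diagonal f := by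
    rw [Matrix.diagonal_mul_diagonal, Matrix.diagonal_mul_diagonal]
    congr 1
    ext a
    ring
  generalize Matrix.diagonal f = D at *
  generalize Matrix.diagonal z = Z at *
  have h4 : G + G * Z * G' - G' = 0 := by rw [← h1, sub_self]
  have h5 : G' - G - G' * Z * G = 0 := by rw [sub_sub, ← h2, sub_self]
  have h6 : Z * D - D * Z = 0 := by rw [h3, sub_self]
  have key : (1 + G' * Z) * (1 - G * Z) = 1 := by
    have e : (1 + G' * Z) * (1 - G * Z) = 1 + (G' - G - G' * Z * G) * Z := by noncomm_ring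
    rw [e, h5, zero_mul, add_zero]
  have e1 : (D * G - G * D) + (D * G - G * D) * Z * G' = (1 - G * Z) * (D * G' - G' * D) := by
    have e : (D * G - G * D) + (D * G - G * D) * Z * G' - (1 - G * Z) * (D * G' - G' * D) =
        D * (G + G * Z * G' - G') - (G + G * Z * G' - G') * D + G * (Z * D - D * Z) * G' := by
      noncomm_ring
    rw [h4, h6] at e
    rw [← sub_eq_zero, e]
    simp
  have e2 : D * G' - G' * D =
      (1 + G' * Z) * ((D * G - G * D) + (D * G - G * D) * Z * G') := by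
    rw [e1, ← mul_assoc, key, one_mul]
  rw [e2]
  noncomm_ring

theorem ef_eq {k : X → ℝ} (G : Matrix X X ℂ) (f : X → ℝ) (a b : X) :
    k a * k b * ‖(Matrix.diagonal (fun a => (f a : ℂ)) * G -
      G * Matrix.diagonal (fun a => (f a : ℂ))) a b‖ ^ 2 =
      k a * k b * ‖G a b‖ ^ 2 * (f a - f b) ^ 2 := by
  rw [Matrix.sub_apply, Matrix.diagonal_mul, Matrix.mul_diagonal]
  have e : (f a : ℂ) * G a b - G a b * (f b : ℂ) = ((f a - f b : ℝ) : ℂ) * G a b := by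
    push_cast
    ring
  rw [e, norm_mul, Complex.norm_real, mul_pow, Real.norm_eq_abs, sq_abs]
  ring

theorem gpf (hG : GwbStmt) : GpfStmt := by
  intro X _ _ G G' k k' z d h f
  have hd := h.hd
  have hk := h.h0.hk
  set F : Matrix X X ℂ := Matrix.diagonal (fun a => (f a : ℂ)) * G -
      G * Matrix.diagonal (fun a => (f a : ℂ)) with hF
  set F' : Matrix X X ℂ := Matrix.diagonal (fun a => (f a : ℂ)) * G' -
      G' * Matrix.diagonal (fun a => (f a : ℂ)) with hF'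
  set N : ℝ := ‖vv k F‖ with hN
  set N' : ℝ := ‖vv k F'‖ with hN'
  have hN0 : 0 ≤ N := norm_nonneg _
  have hN0' : 0 ≤ N' := norm_nonneg _
  have hEF : EF G k f = 1 / 2 * N ^ 2 := by
    unfold EF
    rw [hN, vv_sq hk]
    congr 1
    exact Finset.sum_congr rfl fun a _ => Finset.sum_congr rfl fun b _ => (ef_eq G f a b).symm
  have hid := ident h (fun a => (f a : ℂ))
  rw [← hF, ← hF'] at hid
  -- the norm of the difference
  have hdiff : ‖vv k (G' * Matrix.diagonal z * F + F * Matrix.diagonal z * G' +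
      G' * Matrix.diagonal z * (F * Matrix.diagonal z * G'))‖ ≤ 7 / 2 * d * N := by
    rw [vv_add, vv_add]
    have h1 := left hG h F
    have h2 := right hG h F
    have h3 := left hG h (F * Matrix.diagonal z * G')
    have h4 : 4 / 3 * d * ‖vv k (F * Matrix.diagonal z * G')‖ ≤ 4 / 3 * d * (4 / 3 * d * N) :=
      mul_le_mul_of_nonneg_left h2 (by linarith only [hd.1])
    have h5 : 4 / 3 * d * (4 / 3 * d * N) ≤ 4 / 9 * d * N := by
      have : 0 ≤ d * N := mul_nonneg hd.1 hN0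
      nlinarith only [hd.2, this]
    have h6 : 0 ≤ d * N := mul_nonneg hd.1 hN0
    refine (norm_add_le _ _).trans ?_
    have h7 := norm_add_le (vv k (G' * Matrix.diagonal z * F)) (vv k (F * Matrix.diagonal z * G'))
    linarith
  have hup : N' ≤ (1 + 7 / 2 * d) * N := by
    have e : vv k F' = vv k F + vv k (G' * Matrix.diagonal z * F + F * Matrix.diagonal z * G' +
        G' * Matrix.diagonal z * (F * Matrix.diagonal z * G')) := by
      rw [← vv_add, ← hid]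
    rw [hN', e]
    refine (norm_add_le _ _).trans ?_
    linarith only [hdiff]
  have hlo : (1 - 7 / 2 * d) * N ≤ N' := by
    have e : vv k F = vv k F' - vv k (G' * Matrix.diagonal z * F + F * Matrix.diagonal z * G' +
        G' * Matrix.diagonal z * (F * Matrix.diagonal z * G')) := by
      rw [eq_sub_iff_add_eq, ← vv_add, ← hid]
    have h1 : N ≤ N' + 7 / 2 * d * N := by
      calc N = ‖vv k F' - vv k (G' * Matrix.diagonal z * F + F * Matrix.diagonal z * G' +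
        G' * Matrix.diagonal z * (F * Matrix.diagonal z * G'))‖ := by rw [hN, e]
        _ ≤ _ := (norm_sub_le _ _).trans (by linarith only [hdiff])
    linarith only [h1]
  -- the weights
  have hEF1 : EF G' k' f ≤ (1 + d) ^ 2 * (1 / 2 * N' ^ 2) := by
    unfold EF
    rw [hN', vv_sq hk]
    have : (1 + d) ^ 2 * (1 / 2 * ∑ a, ∑ b, k a * k b * ‖F' a b‖ ^ 2) =
        1 / 2 * ∑ a, ∑ b, (1 + d) ^ 2 * (k a * k b * ‖F' a b‖ ^ 2) := by
      simp only [Finset.mul_sum]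
      refine Finset.sum_congr rfl fun a _ => Finset.sum_congr rfl fun b _ => ?_
      ring
    rw [this]
    refine mul_le_mul_of_nonneg_left ?_ (by norm_num)
    refine Finset.sum_le_sum fun a _ => Finset.sum_le_sum fun b _ => ?_
    rw [hF', ef_eq (k := k) G' f a b]
    have ha := kk h a
    have hb := kk h b
    have ha0 := hk a
    have hb0 := hk b
    have h1 : k' a * k' b ≤ ((1 + d) * k a) * ((1 + d) * k b) :=
      mul_le_mul ha.2 hb.2 (h.h1.hk b).le (by nlinarith only [hd.1, ha, ha0])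
    have h2 : 0 ≤ ‖G' a b‖ ^ 2 * (f a - f b) ^ 2 := by positivity
    calc k' a * k' b * ‖G' a b‖ ^ 2 * (f a - f b) ^ 2
        = k' a * k' b * (‖G' a b‖ ^ 2 * (f a - f b) ^ 2) := by ring
      _ ≤ ((1 + d) * k a) * ((1 + d) * k b) * (‖G' a b‖ ^ 2 * (f a - f b) ^ 2) :=
          mul_le_mul_of_nonneg_right h1 h2
      _ = (1 + d) ^ 2 * (k a * k b * ‖G' a b‖ ^ 2 * (f a - f b) ^ 2) := by ring
  have hEF2 : (1 - d) ^ 2 * (1 / 2 * N' ^ 2) ≤ EF G' k' f := by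
    unfold EF
    rw [hN', vv_sq hk]
    have : (1 - d) ^ 2 * (1 / 2 * ∑ a, ∑ b, k a * k b * ‖F' a b‖ ^ 2) =
        1 / 2 * ∑ a, ∑ b, (1 - d) ^ 2 * (k a * k b * ‖F' a b‖ ^ 2) := by
      simp only [Finset.mul_sum]
      refine Finset.sum_congr rfl fun a _ => Finset.sum_congr rfl fun b _ => ?_
      ring
    rw [this]
    refine mul_le_mul_of_nonneg_left ?_ (by norm_num)
    refine Finset.sum_le_sum fun a _ => Finset.sum_le_sum fun b _ => ?_
    rw [hF', ef_eq (k := k) G' f a b]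
    have ha := kk h a
    have hb := kk h b
    have ha0 := hk a
    have hb0 := hk b
    have h1 : ((1 - d) * k a) * ((1 - d) * k b) ≤ k' a * k' b :=
      mul_le_mul ha.1 hb.1 (by nlinarith only [hd.2, hb, hb0]) (h.h1.hk a).le
    have h2 : 0 ≤ ‖G' a b‖ ^ 2 * (f a - f b) ^ 2 := by positivity
    calc (1 - d) ^ 2 * (k a * k b * ‖G' a b‖ ^ 2 * (f a - f b) ^ 2)
        = ((1 - d) * k a) * ((1 - d) * k b) * (‖G' a b‖ ^ 2 * (f a - f b) ^ 2) := by ring
      _ ≤ k' a * k' b * (‖G' a b‖ ^ 2 * (f a - f b) ^ 2) := mul_le_mul_of_nonneg_right h1 h2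
      _ = k' a * k' b * ‖G' a b‖ ^ 2 * (f a - f b) ^ 2 := by ring
  have hNN : 0 ≤ N ^ 2 := sq_nonneg _
  have hup2 : N' ^ 2 ≤ (1 + 7 / 2 * d) ^ 2 * N ^ 2 := by
    rw [← mul_pow]
    exact pow_le_pow_left₀ hN0' hup 2
  have hlo2 : (1 - 7 / 2 * d) ^ 2 * N ^ 2 ≤ N' ^ 2 := by
    rw [← mul_pow]
    exact pow_le_pow_left₀ (mul_nonneg (by linarith only [hd.2]) hN0) hlo 2
  rw [hEF, abs_le]
  constructor
  · have h1 : (1 - d) ^ 2 * (1 / 2 * ((1 - 7 / 2 * d) ^ 2 * N ^ 2)) ≤ EF G' k' f := by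
      refine le_trans ?_ hEF2
      gcongr
    have h2 : 1 - 20 * d ≤ (1 - d) ^ 2 * (1 - 7 / 2 * d) ^ 2 := by
      have h3 : 1 - 9 / 2 * d ≤ (1 - d) * (1 - 7 / 2 * d) := by nlinarith only [hd.1]
      rcases le_or_gt 0 (1 - 9 / 2 * d) with h4 | h4
      · have h5 : (1 - 9 / 2 * d) ^ 2 ≤ ((1 - d) * (1 - 7 / 2 * d)) ^ 2 :=
          pow_le_pow_left₀ h4 h3 2
        rw [mul_pow] at h5
        nlinarith only [hd.1, sq_nonneg d, h5]
      · have h5 : 0 ≤ (1 - d) ^ 2 * (1 - 7 / 2 * d) ^ 2 := by positivity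
        linarith only [hd, h4, h5]
    have h3 : (1 - 20 * d) * (1 / 2 * N ^ 2) ≤
        (1 - d) ^ 2 * (1 - 7 / 2 * d) ^ 2 * (1 / 2 * N ^ 2) :=
      mul_le_mul_of_nonneg_right h2 (by positivity)
    have h4 : (1 - d) ^ 2 * (1 / 2 * ((1 - 7 / 2 * d) ^ 2 * N ^ 2)) =
        (1 - d) ^ 2 * (1 - 7 / 2 * d) ^ 2 * (1 / 2 * N ^ 2) := by ring
    rw [h4] at h1
    linarith only [h1, h3]
  · have h1 : EF G' k' f ≤ (1 + d) ^ 2 * (1 / 2 * ((1 + 7 / 2 * d) ^ 2 * N ^ 2)) := by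
      refine le_trans hEF1 ?_
      gcongr
    have h2 : (1 + d) ^ 2 * (1 + 7 / 2 * d) ^ 2 ≤ 1 + 20 * d := by
      have h3 : (1 + d) * (1 + 7 / 2 * d) ≤ 1 + 43 / 8 * d := by
        nlinarith only [hd.1, hd.2, mul_nonneg hd.1 (sub_nonneg.2 hd.2)]
      have h4 : 0 ≤ (1 + d) * (1 + 7 / 2 * d) := by
        have := hd.1
        positivity
      have h5 : ((1 + d) * (1 + 7 / 2 * d)) ^ 2 ≤ (1 + 43 / 8 * d) ^ 2 :=
        pow_le_pow_left₀ h4 h3 2
      rw [mul_pow] at h5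
      nlinarith only [hd.1, hd.2, mul_nonneg hd.1 (sub_nonneg.2 hd.2), h3, h5]
    have h3 : (1 + d) ^ 2 * (1 + 7 / 2 * d) ^ 2 * (1 / 2 * N ^ 2) ≤
        (1 + 20 * d) * (1 / 2 * N ^ 2) :=
      mul_le_mul_of_nonneg_right h2 (by positivity)
    have h4 : (1 + d) ^ 2 * (1 / 2 * ((1 + 7 / 2 * d) ^ 2 * N ^ 2)) =
        (1 + d) ^ 2 * (1 + 7 / 2 * d) ^ 2 * (1 / 2 * N ^ 2) := by ring
    rw [h4] at h1
    linarith only [h1, h3]

end Pool.Agent.AGU.H62
end
end -- Pool.Agent.Helper62_AGU.GPF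

section -- Pool.Agent.Helper72_AHH.Gfi

/-!
# AGU: the regauging without the last conclusion (after helper49, `Helper49_AGU/GFI.lean`)
-/

set_option autoImplicit false

open scoped BigOperators

noncomputable section

namespace Pool.Agent.AHH.H72

open Pool.Agent.AGU

/-- the conclusion of the regauging: `L` is `C (1 + log N)` -/
def Rgd {X : Type} [Fintype X] [DecidableEq X] (G : Matrix X X ℂ) (k : X → ℝ) (R : Finset X)
    (m : X → ℂ) (s ε c₀ L : ℝ) (δ : X → ℂ) : Prop :=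
  (∀ a, a ∉ R → δ a = 0) ∧ (∀ a, ‖δ a‖ ≤ L * ε) ∧ (∀ a, ‖(s : ℂ) * δ a‖ ≤ L * ε / c₀ * k a) ∧
    ∀ (G' : Matrix X X ℂ) (k' : X → ℝ), Chg G G' k k' (fun a => (s : ℂ) * δ a) (L * ε / c₀) →
      ∀ a ∈ R, ‖G' a a - (m a + δ a)‖ ≤ L ^ 2 * ε ^ 2

/-- the regauging -/
def Gfi'Stmt : Prop :=
  ∀ c c₀ C₀ : ℝ, 0 < c → 0 < c₀ → 1 ≤ C₀ → ∃ C : ℝ, 1 ≤ C ∧
    ∀ (X : Type) [Fintype X] [DecidableEq X] (G : Matrix X X ℂ) (k : X → ℝ) (R : Finset X)
      (m : X → ℂ) (s ε : ℝ) (e : X → X → ℝ) (B : X → Finset X) (N : ℝ),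
      Run G k R m s ε c c₀ C₀ → 1 ≤ N → (∀ a b, 0 < e a b) → (∀ a, e a a = 1) →
      (∀ o ∈ R, ∀ a ∈ R, ∑ b ∈ R, s * ‖G a b‖ ^ 2 *
        (|1 - e o a / e o b| ⊔ |1 - e o b / e o a|) * (m b).im ≤ c / 4 * (m a).im) →
      (∀ o, ((B o).card : ℝ) ≤ N) → (∀ o, ∑ b ∈ R \ B o, e o b ^ 2 ≤ 1) →
      ∃ δ : X → ℂ, Rgd G k R m s ε c₀ (C * (1 + Real.log N)) δ

theorem ward {X : Type} [Fintype X] {G : Matrix X X ℂ} {k : X → ℝ} (h : WK G k) (a : X) :
    ∑ b, k b * ‖G a b‖ ^ 2 = (G a a).im := by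
  have h1 := h.hw a a
  have h2 : ∀ c, (k c : ℂ) * (starRingEnd ℂ) (G a c) * G c a = ((k c * ‖G a c‖ ^ 2 : ℝ) : ℂ) := by
    intro c
    rw [h.hs c a, mul_assoc, Complex.conj_mul']
    push_cast
    ring
  rw [Finset.sum_congr rfl fun c _ => h2 c, ← Complex.ofReal_sum] at h1
  exact Complex.ofReal_injective h1

theorem gfi' (gnw : GnwStmt) (gpb : GpbStmt) : Gfi'Stmt := by
  intro c c₀ C₀ hc hc₀ hC₀
  obtain ⟨C, hC1, hC⟩ := gnw c c₀ C₀ hc hc₀ hC₀
  obtain ⟨C', hC'⟩ : ∃ C' : ℝ, C' = 6 * (C₀ + 1) / c₀ + 1 := ⟨_, rfl⟩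
  have hq : 0 ≤ 6 * (C₀ + 1) / c₀ := by positivity
  have hC'1 : 1 ≤ C' := by rw [hC']; linarith only [hq]
  have hC'2 : 2 * (C₀ + 1) / c₀ ^ 2 + 1 ≤ C' ^ 2 := by
    have e1 : (6 * (C₀ + 1) / c₀) ^ 2 = 36 * (C₀ + 1) ^ 2 / c₀ ^ 2 := by ring
    have e2 : 2 * (C₀ + 1) / c₀ ^ 2 ≤ 36 * (C₀ + 1) ^ 2 / c₀ ^ 2 := by
      refine div_le_div_of_nonneg_right ?_ (by positivity)
      nlinarith only [hC₀]
    rw [hC']
    nlinarith only [hq, e1, e2]
  refine ⟨C' * C, by nlinarith only [hC1, hC', hq], ?_⟩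
  intro X _ _ G k R m s ε e B N hrun hN he1 he2 he3 hB1 hB2
  obtain ⟨δ, hδ0, hδ1, hδ2⟩ := hC X G k R m s ε e B N hrun hN he1 he2 he3 hB1 hB2
  have hlog : 0 ≤ Real.log N := Real.log_nonneg hN
  obtain ⟨L₁, hL₁⟩ : ∃ L₁ : ℝ, L₁ = C * (1 + Real.log N) := ⟨_, rfl⟩
  have hL₁1 : 1 ≤ L₁ := by rw [hL₁]; nlinarith only [hC1, hlog]
  have hL : C' * C * (1 + Real.log N) = C' * L₁ := by rw [hL₁]; ring
  rw [hL]
  rw [← hL₁] at hδ1 hδ2
  obtain ⟨L, hLd⟩ : ∃ L : ℝ, L = C' * L₁ := ⟨_, rfl⟩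
  rw [← hLd]
  have hLL : L₁ ≤ L := by rw [hLd]; nlinarith only [hC', hq, hL₁1]
  have hε0 := hrun.hε.1
  have hk0 : ∀ a, 0 < k a := hrun.hw.hk
  -- `s ≤ k / c₀` on `R`
  have hsk : ∀ a ∈ R, s ≤ k a / c₀ := by
    intro a ha
    rw [le_div_iff₀ hc₀]
    calc s * c₀ ≤ s * (m a).im := by
          exact mul_le_mul_of_nonneg_left (hrun.hm a ha).1 hrun.hs.le
      _ ≤ k a := hrun.hk a ha
  have hz1 : ∀ a, ‖(s : ℂ) * δ a‖ ≤ L₁ * ε / c₀ * k a := by
    intro a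
    by_cases ha : a ∈ R
    · rw [norm_mul, Complex.norm_real, Real.norm_of_nonneg hrun.hs.le]
      calc s * ‖δ a‖ ≤ (k a / c₀) * (L₁ * ε) := by
            refine mul_le_mul (hsk a ha) (hδ1 a) (norm_nonneg _) ?_
            exact div_nonneg (hk0 a).le hc₀.le
        _ = L₁ * ε / c₀ * k a := by ring
    · rw [hδ0 a ha, mul_zero, norm_zero]
      have := (hk0 a).le
      positivity
  refine ⟨δ, hδ0, fun a => (hδ1 a).trans (mul_le_mul_of_nonneg_right hLL hε0), fun a => ?_, ?_⟩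
  · refine (hz1 a).trans ?_
    have := (hk0 a).le
    refine mul_le_mul_of_nonneg_right ?_ this
    exact div_le_div_of_nonneg_right (mul_le_mul_of_nonneg_right hLL hε0) hc₀.le
  intro G' k' hch
  obtain ⟨d, hd⟩ : ∃ d : ℝ, d = L₁ * ε / c₀ := ⟨_, rfl⟩
  have hd0 : 0 ≤ d := by rw [hd]; positivity
  have hdd : d ≤ L * ε / c₀ := by
    rw [hd]
    exact div_le_div_of_nonneg_right (mul_le_mul_of_nonneg_right hLL hε0) hc₀.le
  have hd4 : d ≤ 1 / 4 := hdd.trans hch.hd.2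
  have hch' : Chg G G' k k' (fun a => (s : ℂ) * δ a) d :=
    ⟨hch.h0, hch.h1, ⟨hd0, hd4⟩, fun a => by rw [hd]; exact hz1 a, hch.hk, hch.hr⟩
  obtain ⟨p1, -, p3, p4, -, -⟩ := gpb X G G' k k' _ d hch'
  have hεle : ε ≤ 1 / 4 := by
    have := hrun.hε.2
    have := hrun.hc.2.2.2.1
    linarith
  have hg : ∀ a ∈ R, (G a a).im ≤ C₀ + 1 := by
    intro a ha
    have h1 := Complex.abs_im_le_norm (G a a - m a)
    rw [Complex.sub_im] at h1
    have h2 := (abs_le.1 (h1.trans (hrun.hμ a ha))).2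
    have h3 := (hrun.hm a ha).2
    linarith only [hεle, h2, h3]
  have hgp : ∀ a, 0 ≤ (G a a).im := by
    intro a
    rw [← ward hch.h0 a]
    exact Finset.sum_nonneg fun b _ => mul_nonneg (hk0 b).le (by positivity)
  intro a ha
  have hs1 : ∑ c, G a c ^ 2 * ((s : ℂ) * δ c) = ∑ b ∈ R, s * G a b ^ 2 * δ b := by
    rw [← Finset.sum_subset (Finset.subset_univ R)]
    · exact Finset.sum_congr rfl fun b _ => by ring
    · intro b _ hb
      rw [hδ0 b hb, mul_zero, mul_zero]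
  have h1 := p4 a
  rw [hs1] at h1
  have h2 := hδ2 a ha
  have h3 : G' a a - (m a + δ a) = (G' a a - G a a - ∑ b ∈ R, s * G a b ^ 2 * δ b) -
      (δ a - (G a a - m a) - ∑ b ∈ R, s * G a b ^ 2 * δ b) := by ring
  rw [h3]
  refine (norm_sub_le _ _).trans ((add_le_add h1 h2).trans ?_)
  have h4 : 2 * d ^ 2 * (G a a).im ≤ 2 * (C₀ + 1) / c₀ ^ 2 * (L₁ ^ 2 * ε ^ 2) := by
    calc 2 * d ^ 2 * (G a a).im ≤ 2 * d ^ 2 * (C₀ + 1) :=
          mul_le_mul_of_nonneg_left (hg a ha) (by positivity)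
      _ = 2 * (C₀ + 1) / c₀ ^ 2 * (L₁ ^ 2 * ε ^ 2) := by rw [hd]; ring
  have h5 : L₁ * ε ^ 2 ≤ 1 * (L₁ ^ 2 * ε ^ 2) := by
    rw [one_mul]
    refine mul_le_mul_of_nonneg_right ?_ (by positivity)
    nlinarith only [hL₁1]
  have h6 : L ^ 2 * ε ^ 2 = C' ^ 2 * (L₁ ^ 2 * ε ^ 2) := by rw [hLd]; ring
  rw [h6]
  have h7 : 0 ≤ L₁ ^ 2 * ε ^ 2 := by positivity
  nlinarith only [hC'2, h4, h5, h7]

end Pool.Agent.AHH.H72
end
end -- Pool.Agent.Helper72_AHH.Gfi

section -- Pool.Agent.Helper10_AGU.GPB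

set_option autoImplicit false

open scoped BigOperators Matrix

noncomputable section

namespace Pool.Agent.AGU.H10

/-- weighted Cauchy-Schwarz -/
theorem wcs {X : Type} [Fintype X] (k : X → ℝ) (hk : ∀ a, 0 < k a) (x y : X → ℂ) :
    (∑ c, k c * ‖x c‖ * ‖y c‖) ^ 2 ≤ (∑ c, k c * ‖x c‖ ^ 2) * ∑ c, k c * ‖y c‖ ^ 2 := by
  refine Finset.sum_sq_le_sum_mul_sum_of_sq_le_mul Finset.univ (fun i _ => ?_) (fun i _ => ?_)
    (fun i _ => ?_)
  · have := (hk i).le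
    positivity
  · have := (hk i).le
    positivity
  · exact le_of_eq (by ring)

/-- the bound of a sum with a diagonal factor -/
theorem dcs {X : Type} [Fintype X] (k : X → ℝ) (hk : ∀ a, 0 < k a) (x y z : X → ℂ) (d : ℝ)
    (hd : 0 ≤ d) (hz : ∀ a, ‖z a‖ ≤ d * k a) :
    ‖∑ c, x c * z c * y c‖ ^ 2 ≤ d ^ 2 * ((∑ c, k c * ‖x c‖ ^ 2) * ∑ c, k c * ‖y c‖ ^ 2) := by
  have h1 : ‖∑ c, x c * z c * y c‖ ≤ d * ∑ c, k c * ‖x c‖ * ‖y c‖ := by
    refine (norm_sum_le _ _).trans ?_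
    rw [Finset.mul_sum]
    refine Finset.sum_le_sum fun c _ => ?_
    rw [norm_mul, norm_mul]
    have h2 := mul_le_mul_of_nonneg_left (hz c) (mul_nonneg (norm_nonneg (x c)) (norm_nonneg (y c)))
    nlinarith only [h2]
  have h3 : ‖∑ c, x c * z c * y c‖ ^ 2 ≤ (d * ∑ c, k c * ‖x c‖ * ‖y c‖) ^ 2 :=
    pow_le_pow_left₀ (norm_nonneg _) h1 2
  refine h3.trans ?_
  rw [mul_pow]
  exact mul_le_mul_of_nonneg_left (wcs k hk x y) (by positivity)

theorem gpb (h : GwbStmt) : GpbStmt := by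
  intro X _ _ G G' k k' z d hC
  have hk := hC.h0.hk
  have hd0 := hC.hd.1
  have hd4 := hC.hd.2
  obtain ⟨w1, -, -, -⟩ := h X G k hC.h0
  obtain ⟨v1, -, -, -⟩ := h X G' k' hC.h1
  have hkk : ∀ a, k a ≤ 4 / 3 * k' a := by
    intro a
    have h1 := hC.hk a
    have h2 := hC.hz a
    have h3 := Complex.abs_im_le_norm (z a)
    have h4 := neg_le_abs (z a).im
    have h5 : d * k a ≤ 1 / 4 * k a := mul_le_mul_of_nonneg_right hd4 (hk a).le
    linarith only [h1, h2, h3, h4, h5]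
  have g0 : ∀ a, 0 ≤ (G a a).im := by
    intro a
    rw [← w1 a]
    exact Finset.sum_nonneg fun b _ => mul_nonneg (hk b).le (sq_nonneg _)
  have g0' : ∀ a, 0 ≤ (G' a a).im := by
    intro a
    rw [← v1 a]
    exact Finset.sum_nonneg fun b _ => mul_nonneg (hC.h1.hk b).le (sq_nonneg _)
  have p1 : ∀ b, ∑ c, k c * ‖G' c b‖ ^ 2 ≤ 4 / 3 * (G' b b).im := by
    intro b
    rw [← v1 b, Finset.mul_sum]
    refine Finset.sum_le_sum fun c _ => ?_
    rw [hC.h1.hs c b]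
    have := mul_le_mul_of_nonneg_right (hkk c) (sq_nonneg ‖G' b c‖)
    linarith
  have q1 : ∀ b, ∑ c, k c * ‖G c b‖ ^ 2 = (G b b).im := by
    intro b
    rw [← w1 b]
    exact Finset.sum_congr rfl fun c _ => by rw [hC.h0.hs c b]
  have hΔ : ∀ a b, G' a b - G a b = ∑ c, G a c * z c * G' c b := by
    intro a b
    rw [hC.hr a b]
    ring
  have A : ∀ a b, ‖G' a b - G a b‖ ^ 2 ≤ d ^ 2 * ((G a a).im * (4 / 3 * (G' b b).im)) := by
    intro a b
    rw [hΔ a b]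
    refine (dcs k hk (fun c => G a c) (fun c => G' c b) z d hd0 hC.hz).trans ?_
    refine mul_le_mul_of_nonneg_left ?_ (by positivity)
    rw [w1 a]
    exact mul_le_mul_of_nonneg_left (p1 b) (g0 a)
  have B : ∀ a, ((G' a a).im - (G a a).im) ^ 2 ≤ 1 / 12 * ((G a a).im * (G' a a).im) := by
    intro a
    have h1 : ((G' a a).im - (G a a).im) ^ 2 ≤ ‖G' a a - G a a‖ ^ 2 := by
      have := Complex.abs_im_le_norm (G' a a - G a a)
      rw [Complex.sub_im] at this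
      rw [← sq_abs ((G' a a).im - (G a a).im)]
      exact pow_le_pow_left₀ (abs_nonneg _) this 2
    refine h1.trans ((A a a).trans ?_)
    have h2 : d ^ 2 ≤ 1 / 16 := by nlinarith only [hd0, hd4]
    have h3 := mul_nonneg (g0 a) (g0' a)
    nlinarith only [h2, h3]
  have P1 : ∀ a, (G' a a).im ≤ 3 / 2 * (G a a).im ∧ (G a a).im ≤ 3 / 2 * (G' a a).im := by
    intro a
    have h1 := B a
    have h2 := g0 a
    have h3 := g0' a
    constructor
    · by_contra hc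
      push Not at hc
      nlinarith only [h1, h2, hc]
    · by_contra hc
      push Not at hc
      nlinarith
  have P2 : ∀ a b, ‖G' a b - G a b‖ ^ 2 ≤ 2 * d ^ 2 * ((G a a).im * (G b b).im) := by
    intro a b
    refine (A a b).trans ?_
    have h1 := mul_le_mul_of_nonneg_left (P1 b).1 (mul_nonneg (sq_nonneg d) (g0 a))
    nlinarith only [h1]
  have P3 : ∀ b, ∑ a, k a * ‖G' a b - G a b‖ ^ 2 ≤ 2 * d ^ 2 * (G b b).im := by
    intro b
    have h1 := (h X G k hC.h0).2.1 (fun c => z c * G' c b)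
    have h2 : ∑ a, k a * ‖G' a b - G a b‖ ^ 2 =
        ∑ a, k a * ‖∑ c, G a c * (z c * G' c b)‖ ^ 2 := by
      refine Finset.sum_congr rfl fun a _ => ?_
      rw [hΔ a b]
      congr 3
      exact Finset.sum_congr rfl fun c _ => by ring
    rw [h2]
    refine h1.trans ?_
    have h3 : ∑ c, ‖z c * G' c b‖ ^ 2 / k c ≤ d ^ 2 * ∑ c, k c * ‖G' c b‖ ^ 2 := by
      rw [Finset.mul_sum]
      refine Finset.sum_le_sum fun c _ => ?_
      rw [div_le_iff₀ (hk c), norm_mul, mul_pow]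
      have h4 : ‖z c‖ ^ 2 ≤ (d * k c) ^ 2 := pow_le_pow_left₀ (norm_nonneg _) (hC.hz c) 2
      have h5 := mul_le_mul_of_nonneg_right h4 (sq_nonneg ‖G' c b‖)
      calc ‖z c‖ ^ 2 * ‖G' c b‖ ^ 2 ≤ (d * k c) ^ 2 * ‖G' c b‖ ^ 2 := h5
        _ = d ^ 2 * (k c * ‖G' c b‖ ^ 2) * k c := by ring
    refine h3.trans ?_
    have h6 := mul_le_mul_of_nonneg_left (p1 b) (sq_nonneg d)
    have h7 := mul_le_mul_of_nonneg_left (P1 b).1 (sq_nonneg d)
    nlinarith only [h6, h7]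
  have hsym : ∀ a b, G' a b - G a b = G' b a - G b a := by
    intro a b
    rw [hC.h1.hs a b, hC.h0.hs a b]
  have P3' : ∀ a, ∑ b, k b * ‖G' a b - G a b‖ ^ 2 ≤ 2 * d ^ 2 * (G a a).im := by
    intro a
    refine le_trans (le_of_eq ?_) (P3 a)
    exact Finset.sum_congr rfl fun b _ => by rw [hsym a b]
  refine ⟨P1, P2, P3, ?_, ?_, ?_⟩
  · intro a
    have h1 : G' a a - G a a - ∑ c, G a c ^ 2 * z c =
        ∑ c, G a c * z c * (G' c a - G c a) := by
      rw [hΔ a a, ← Finset.sum_sub_distrib]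
      refine Finset.sum_congr rfl fun c _ => ?_
      rw [hC.h0.hs c a]
      ring
    rw [h1]
    have h2 := dcs k hk (fun c => G a c) (fun c => G' c a - G c a) z d hd0 hC.hz
    rw [w1 a] at h2
    have h3 : ‖∑ c, G a c * z c * (G' c a - G c a)‖ ^ 2 ≤ (2 * d ^ 2 * (G a a).im) ^ 2 := by
      refine h2.trans ?_
      have h4 := mul_le_mul_of_nonneg_left (P3 a) (mul_nonneg (sq_nonneg d) (g0 a))
      have h5 : 0 ≤ d ^ 4 * (G a a).im ^ 2 := by positivity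
      calc d ^ 2 * ((G a a).im * ∑ c, k c * ‖G' c a - G c a‖ ^ 2)
          = d ^ 2 * (G a a).im * ∑ c, k c * ‖G' c a - G c a‖ ^ 2 := by ring
        _ ≤ d ^ 2 * (G a a).im * (2 * d ^ 2 * (G a a).im) := h4
        _ = 2 * (d ^ 4 * (G a a).im ^ 2) := by ring
        _ ≤ 4 * (d ^ 4 * (G a a).im ^ 2) := by linarith only [h5]
        _ = (2 * d ^ 2 * (G a a).im) ^ 2 := by ring
    have h6 : 0 ≤ 2 * d ^ 2 * (G a a).im := mul_nonneg (by positivity) (g0 a)
    exact (sq_le_sq₀ (norm_nonneg _) h6).1 h3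
  · intro a
    have h1 : ∀ b, k b * ‖G' a b ^ 2 - G a b ^ 2‖ ≤
        2 * (k b * ‖G' a b - G a b‖ * ‖G a b‖) + k b * ‖G' a b - G a b‖ ^ 2 := by
      intro b
      have h2 : G' a b ^ 2 - G a b ^ 2 = (G' a b - G a b) * (2 * G a b + (G' a b - G a b)) := by
        ring
      rw [h2, norm_mul]
      have h3 : ‖2 * G a b + (G' a b - G a b)‖ ≤ 2 * ‖G a b‖ + ‖G' a b - G a b‖ := by
        refine (norm_add_le _ _).trans ?_
        rw [norm_mul, Complex.norm_ofNat]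
      have h4 := mul_le_mul_of_nonneg_left h3 (mul_nonneg (hk b).le (norm_nonneg (G' a b - G a b)))
      calc k b * (‖G' a b - G a b‖ * ‖2 * G a b + (G' a b - G a b)‖)
          = k b * ‖G' a b - G a b‖ * ‖2 * G a b + (G' a b - G a b)‖ := by ring
        _ ≤ k b * ‖G' a b - G a b‖ * (2 * ‖G a b‖ + ‖G' a b - G a b‖) := h4
        _ = _ := by ring
    have h5 : ∑ b, k b * ‖G' a b ^ 2 - G a b ^ 2‖ ≤
        2 * (∑ b, k b * ‖G' a b - G a b‖ * ‖G a b‖) + ∑ b, k b * ‖G' a b - G a b‖ ^ 2 := by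
      rw [Finset.mul_sum, ← Finset.sum_add_distrib]
      exact Finset.sum_le_sum fun b _ => h1 b
    have h6 := wcs k hk (fun b => G' a b - G a b) (fun b => G a b)
    rw [w1 a] at h6
    have h7 : (∑ b, k b * ‖G' a b - G a b‖ * ‖G a b‖) ^ 2 ≤ (3 / 2 * d * (G a a).im) ^ 2 := by
      refine h6.trans ?_
      have h8 := mul_le_mul_of_nonneg_right (P3' a) (g0 a)
      have h9 : 0 ≤ d ^ 2 * (G a a).im ^ 2 := by positivity
      nlinarith only [h8]
    have h10 : 0 ≤ ∑ b, k b * ‖G' a b - G a b‖ * ‖G a b‖ :=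
      Finset.sum_nonneg fun b _ =>
        mul_nonneg (mul_nonneg (hk b).le (norm_nonneg _)) (norm_nonneg _)
    have h11 : 0 ≤ 3 / 2 * d * (G a a).im := mul_nonneg (by positivity) (g0 a)
    have h12 := (sq_le_sq₀ h10 h11).1 h7
    have h13 := P3' a
    have h14 : d * (d * (G a a).im) ≤ 1 / 4 * (d * (G a a).im) :=
      mul_le_mul_of_nonneg_right hd4 (mul_nonneg hd0 (g0 a))
    have h15 := mul_nonneg hd0 (g0 a)
    nlinarith only [h5, h11, h12, h13, h14]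
  · intro a S κ₀ g₀ hκ hg₀ hS
    have h1 : ∀ b ∈ S, ‖G' a b - G a b‖ ^ 4 ≤
        2 * d ^ 2 * (G a a).im * g₀ * (1 / κ₀ * (k b * ‖G' a b - G a b‖ ^ 2)) := by
      intro b hb
      obtain ⟨h2, h3⟩ := hS b hb
      have h4 : ‖G' a b - G a b‖ ^ 2 ≤ 2 * d ^ 2 * (G a a).im * g₀ := by
        refine (P2 a b).trans ?_
        have := mul_le_mul_of_nonneg_left h3 (mul_nonneg (sq_nonneg d) (g0 a))
        nlinarith only [this]
      have h5 : ‖G' a b - G a b‖ ^ 2 ≤ 1 / κ₀ * (k b * ‖G' a b - G a b‖ ^ 2) := by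
        rw [one_div, ← div_eq_inv_mul, le_div_iff₀ hκ]
        have := mul_le_mul_of_nonneg_right h2 (sq_nonneg ‖G' a b - G a b‖)
        linarith only [this]
      calc ‖G' a b - G a b‖ ^ 4 = ‖G' a b - G a b‖ ^ 2 * ‖G' a b - G a b‖ ^ 2 := by ring
        _ ≤ _ := mul_le_mul h4 h5 (sq_nonneg _)
            (mul_nonneg (mul_nonneg (by positivity) (g0 a)) hg₀)
    refine (Finset.sum_le_sum h1).trans ?_
    rw [← Finset.mul_sum, ← Finset.mul_sum]
    have h6 : ∑ b ∈ S, k b * ‖G' a b - G a b‖ ^ 2 ≤ 2 * d ^ 2 * (G a a).im := by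
      refine le_trans ?_ (P3' a)
      exact Finset.sum_le_sum_of_subset_of_nonneg (Finset.subset_univ S)
        fun b _ _ => mul_nonneg (hk b).le (sq_nonneg _)
    have h7 : 0 ≤ 2 * d ^ 2 * (G a a).im * g₀ * (1 / κ₀) :=
      mul_nonneg (mul_nonneg (mul_nonneg (by positivity) (g0 a)) hg₀) (by positivity)
    have h8 := mul_le_mul_of_nonneg_left h6 h7
    calc 2 * d ^ 2 * (G a a).im * g₀ * (1 / κ₀ * ∑ b ∈ S, k b * ‖G' a b - G a b‖ ^ 2)
        = 2 * d ^ 2 * (G a a).im * g₀ * (1 / κ₀) * ∑ b ∈ S, k b * ‖G' a b - G a b‖ ^ 2 := by ring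
      _ ≤ 2 * d ^ 2 * (G a a).im * g₀ * (1 / κ₀) * (2 * d ^ 2 * (G a a).im) := h8
      _ = 4 * d ^ 4 * (G a a).im ^ 2 * g₀ / κ₀ := by ring

end Pool.Agent.AGU.H10
end
end -- Pool.Agent.Helper10_AGU.GPB

section -- Pool.Agent.Helper19_AGU.GNW

/-!
# AGU, row GNW: the Newton step

`AGU.TF.ThH.local_sup` on the subtype of the running sites, with the clock `s / (1 + ε/c₀)`.
-/

set_option autoImplicit false

open scoped BigOperators Matrix

noncomputable section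

namespace Pool.Agent.AGU.H19

open Pool.Agent.AGU.TF

section

variable {X : Type} [Fintype X] [DecidableEq X]

/-- the Ward identity on the diagonal -/
theorem ward_diag {G : Matrix X X ℂ} {k : X → ℝ} (h : WK G k) (a : X) :
    ∑ b, k b * ‖G a b‖ ^ 2 = (G a a).im := by
  have h1 := h.hw a a
  have h2 : ∀ b, (k b : ℂ) * (starRingEnd ℂ) (G a b) * G b a = ((k b * ‖G a b‖ ^ 2 : ℝ) : ℂ) := by
    intro b
    rw [h.hs b a, mul_assoc, mul_comm ((starRingEnd ℂ) (G a b)) (G a b), Complex.mul_conj,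
      Complex.normSq_eq_norm_sq]
    push_cast
    ring
  rw [Finset.sum_congr rfl fun b _ => h2 b, ← Complex.ofReal_sum] at h1
  exact Complex.ofReal_injective h1

/-- the sum over the running sites -/
theorem ward_run {G : Matrix X X ℂ} {k : X → ℝ} {R : Finset X} {m : X → ℂ} {s ε c c₀ C₀ : ℝ}
    (H : Run G k R m s ε c c₀ C₀) (a : X) (ha : a ∈ R) :
    ∑ b ∈ R, s * ‖G a b‖ ^ 2 * (m b).im ≤ (m a).im + ε := by
  have h1 := ward_diag H.hw a
  have h2 : ∑ b ∈ R, s * ‖G a b‖ ^ 2 * (m b).im ≤ ∑ b, k b * ‖G a b‖ ^ 2 := by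
    calc ∑ b ∈ R, s * ‖G a b‖ ^ 2 * (m b).im ≤ ∑ b ∈ R, k b * ‖G a b‖ ^ 2 := by
          refine Finset.sum_le_sum fun b hb => ?_
          have h3 := mul_le_mul_of_nonneg_right (H.hk b hb) (sq_nonneg ‖G a b‖)
          linarith
      _ ≤ ∑ b, k b * ‖G a b‖ ^ 2 :=
          Finset.sum_le_sum_of_subset_of_nonneg (Finset.subset_univ _) fun b _ _ =>
            mul_nonneg (H.hw.hk b).le (sq_nonneg _)
  have h4 : (G a a - m a).im ≤ ε :=
    (le_abs_self _).trans ((Complex.abs_im_le_norm _).trans (H.hμ a ha))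
  rw [Complex.sub_im] at h4
  linarith

/-- extension by zero -/
def ext0 (R : Finset X) (v : R → ℂ) : X → ℂ := fun a => if h : a ∈ R then v ⟨a, h⟩ else 0

omit [Fintype X] in
theorem ext0_coe (R : Finset X) (v : R → ℂ) (a : R) : ext0 R v a = v a := by
  unfold ext0
  rw [dif_pos a.2]

/-- the restricted resolvent -/
def res (R : Finset X) (G : Matrix X X ℂ) : Matrix R R ℂ := Matrix.of fun a b => G a b

omit [Fintype X] in
theorem ys_mulVec (R : Finset X) (G : Matrix X X ℂ) (r : ℝ) (v : R → ℂ) (a : R) :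
    (Ys (res R G) (fun _ => r) *ᵥ v) a = (r : ℂ) ^ 2 * ∑ b ∈ R, G a b ^ 2 * ext0 R v b := by
  rw [Matrix.mulVec, dotProduct, ← Finset.sum_coe_sort R fun b => G a b ^ 2 * ext0 R v b,
    Finset.mul_sum]
  refine Finset.sum_congr rfl fun b _ => ?_
  rw [ext0_coe, Ys_apply]
  change (r : ℂ) * G a b ^ 2 * (r : ℂ) * v b = _
  ring

/-- the clock of the comparison -/
theorem thH_run {G : Matrix X X ℂ} {k : X → ℝ} {R : Finset X} {m : X → ℂ} {s ε c c₀ C₀ : ℝ}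
    (H : Run G k R m s ε c c₀ C₀) (r : ℝ) (hr : 0 < r) (hr2 : r ^ 2 * (1 + ε / c₀) = s) :
    ThH (res R G) (fun _ => r) (fun a : R => (m a).im) c := by
  obtain ⟨hc, hc1, hc0, hc01, hC0⟩ := H.hc
  have hε0 : 0 ≤ ε / c₀ := div_nonneg H.hε.1 hc0.le
  have hpos : 0 < 1 + ε / c₀ := by linarith only [hε0]
  refine ⟨fun a b => H.hw.hs a b, fun _ => hr, fun a => hc0.trans_le (H.hm a a.2).1, ?_, ?_⟩
  · intro a
    have h1 := ward_run H a a.2
    have h2 : ∑ b : R, r ^ 2 * ‖res R G a b‖ ^ 2 * (m b).im =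
        ∑ b ∈ R, r ^ 2 * ‖G a b‖ ^ 2 * (m b).im :=
      Finset.sum_coe_sort R fun b => r ^ 2 * ‖G a b‖ ^ 2 * (m b).im
    rw [h2]
    have h3 : ∑ b ∈ R, s * ‖G a b‖ ^ 2 * (m b).im =
        (1 + ε / c₀) * ∑ b ∈ R, r ^ 2 * ‖G a b‖ ^ 2 * (m b).im := by
      rw [Finset.mul_sum]
      refine Finset.sum_congr rfl fun b _ => ?_
      rw [← hr2]
      ring
    rw [h3] at h1
    have h4 : (m a).im + ε ≤ (1 + ε / c₀) * (m a).im := by
      have h5 := (H.hm a a.2).1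
      have h6 : ε / c₀ * c₀ = ε := div_mul_cancel₀ _ hc0.ne'
      have h7 := mul_le_mul_of_nonneg_left h5 hε0
      linarith only [h6, h7]
    exact le_of_mul_le_mul_left (h1.trans h4) hpos
  · intro u
    have h1 := H.hY (ext0 R u)
    have hA : ∑ a ∈ R, ‖ext0 R u a‖ ^ 2 = ∑ a, ‖u a‖ ^ 2 := by
      rw [← Finset.sum_coe_sort R fun a => ‖ext0 R u a‖ ^ 2]
      exact Finset.sum_congr rfl fun a _ => by rw [ext0_coe]
    set S : ℂ := ∑ a ∈ R, (starRingEnd ℂ) (ext0 R u a) *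
      ∑ b ∈ R, s * G a b ^ 2 * ext0 R u b with hS
    have hS2 : S = (s : ℂ) * ∑ a : R, (starRingEnd ℂ) (u a) *
        ∑ b ∈ R, G a b ^ 2 * ext0 R u b := by
      rw [hS, ← Finset.sum_coe_sort R fun a => (starRingEnd ℂ) (ext0 R u a) *
        ∑ b ∈ R, s * G a b ^ 2 * ext0 R u b, Finset.mul_sum]
      refine Finset.sum_congr rfl fun a _ => ?_
      rw [ext0_coe]
      have : ∑ b ∈ R, (s : ℂ) * G a b ^ 2 * ext0 R u b =
          (s : ℂ) * ∑ b ∈ R, G a b ^ 2 * ext0 R u b := by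
        rw [Finset.mul_sum]
        exact Finset.sum_congr rfl fun b _ => by ring
      rw [this]
      ring
    have hT : ∑ a : R, ((starRingEnd ℂ) (u a) * (u a - (Ys (res R G) (fun _ => r) *ᵥ u) a)).re =
        (∑ a, ‖u a‖ ^ 2) - r ^ 2 * (∑ a : R, (starRingEnd ℂ) (u a) *
          ∑ b ∈ R, G a b ^ 2 * ext0 R u b).re := by
      rw [Complex.re_sum, Finset.mul_sum, ← Finset.sum_sub_distrib]
      refine Finset.sum_congr rfl fun a _ => ?_
      rw [ys_mulVec, mul_sub, Complex.sub_re]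
      congr 1
      · rw [mul_comm, Complex.mul_conj, Complex.normSq_eq_norm_sq, Complex.ofReal_re]
      · rw [mul_left_comm, ← Complex.ofReal_pow, Complex.re_ofReal_mul]
    rw [hT]
    rw [hS2, Complex.re_ofReal_mul, hA] at h1
    set A := ∑ a, ‖u a‖ ^ 2 with hAdef
    set Q := (∑ a : R, (starRingEnd ℂ) (u a) * ∑ b ∈ R, G a b ^ 2 * ext0 R u b).re with hQ
    have hA0 : 0 ≤ A := Finset.sum_nonneg fun a _ => sq_nonneg _
    have h2 : (1 + ε / c₀) * (r ^ 2 * Q) ≤ (1 + ε / c₀) * ((1 - c) * A) := by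
      have h3 : (1 + ε / c₀) * (r ^ 2 * Q) = s * Q := by
        rw [← hr2]
        ring
      rw [h3]
      have h4 : 0 ≤ ε / c₀ * ((1 - c) * A) :=
        mul_nonneg hε0 (mul_nonneg (by linarith only [hc1]) hA0)
      linarith only [h1, h4]
    have h5 := le_of_mul_le_mul_left h2 hpos
    linarith only [h5]

end

theorem gnw : GnwStmt := by
  intro c c₀ C₀ hc hc0 hC0
  set C₁ : ℝ := (1 / c + 1) * (C₀ / c₀) + 3 / c with hC₁
  have hC0p : 0 < C₀ := by linarith only [hC0]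
  have hC₁0 : 0 < C₁ := by positivity
  refine ⟨1 + C₁ + C₁ * ((C₀ + 1) / c₀ ^ 2), ?_, ?_⟩
  · have : 0 < C₁ * ((C₀ + 1) / c₀ ^ 2) := by positivity
    linarith only [hC₁0, this]
  intro X _ _ G k R m s ε e B N H hN he heo hct hB hBe
  obtain ⟨-, hc1, -, hc01, -⟩ := H.hc
  have hε := H.hε.1
  have hlog : 0 ≤ Real.log N := Real.log_nonneg hN
  have hN0 : 0 < N := by linarith only [hN]
  have hq : 0 < 1 + ε / c₀ := by
    have := div_nonneg hε hc0.le
    linarith only [this]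
  set r : ℝ := Real.sqrt (s / (1 + ε / c₀)) with hr
  have hrp : 0 < r := Real.sqrt_pos.2 (div_pos H.hs hq)
  have hr2 : r ^ 2 * (1 + ε / c₀) = s := by
    rw [hr, Real.sq_sqrt (div_pos H.hs hq).le]
    exact div_mul_cancel₀ _ hq.ne'
  have hrs : r ^ 2 ≤ s := by
    rw [← hr2]
    have h1 : 0 ≤ ε / c₀ := div_nonneg hε hc0.le
    have h2 : 0 ≤ r ^ 2 * (ε / c₀) := by positivity
    linarith only [h2]
  have HT := thH_run H r hrp hr2
  obtain ⟨u, hu, -⟩ := HT.surj hc fun a : R => (r : ℂ) * (G a a - m a)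
  have hrc : (r : ℂ) ≠ 0 := by exact_mod_cast hrp.ne'
  set δ : X → ℂ := fun a => ext0 R u a / r with hδ
  -- the sup bound
  have hsup : ∀ o : R, ‖u o‖ ≤ r * (C₁ * (1 + Real.log N) * ε) := by
    intro o
    set J : ℕ := ⌈2 / c * Real.log N⌉₊ with hJ
    have hJ1 : 2 / c * Real.log N ≤ J := Nat.le_ceil _
    have hJ2 : (J : ℝ) ≤ 2 / c * Real.log N + 1 :=
      (Nat.ceil_lt_add_one (by positivity)).le
    have hmu : ∀ b : R, ‖(r : ℂ) * (G b b - m b)‖ ≤ r * ε := by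
      intro b
      rw [norm_mul, Complex.norm_real, Real.norm_of_nonneg hrp.le]
      exact mul_le_mul_of_nonneg_left (H.hμ b b.2) hrp.le
    have h1 := HT.local_sup hc (by linarith only [hc1]) (fun a : R => e o a) (fun a => he o a) (c / 4)
      (by linarith only [hc]) (fun a => by
        have h2 := hct o o.2 a a.2
        refine le_trans ?_ h2
        rw [← Finset.sum_coe_sort R fun b => s * ‖G a b‖ ^ 2 *
          (|1 - e o a / e o b| ⊔ |1 - e o b / e o a|) * (m b).im]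
        refine Finset.sum_le_sum fun b _ => ?_
        refine mul_le_mul_of_nonneg_right ?_ (hc0.le.trans (H.hm b b.2).1)
        refine mul_le_mul_of_nonneg_right ?_ (le_max_of_le_left (abs_nonneg _))
        exact mul_le_mul_of_nonneg_right hrs (sq_nonneg _)) o (heo o)
      (Finset.univ.filter fun b : R => (b : X) ∈ B o) u _ hu (ε / c₀)
      (div_nonneg hε hc0.le) (fun a _ => by
        refine (hmu a).trans ?_
        have h3 := (H.hm a a.2).1
        have h4 : ε / c₀ * (r * c₀) = r * ε := by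
          field_simp
        have h5 : ε / c₀ * (r * c₀) ≤ ε / c₀ * (r * (m a).im) :=
          mul_le_mul_of_nonneg_left (mul_le_mul_of_nonneg_left h3 hrp.le)
            (div_nonneg hε hc0.le)
        linarith only [h4, h5]) J
    have hsum1 : ∑ b ∈ Finset.univ.filter (fun b : R => (b : X) ∈ B o),
        ‖(r : ℂ) * (G b b - m b)‖ ^ 2 ≤ N * (r * ε) ^ 2 := by
      calc ∑ b ∈ Finset.univ.filter (fun b : R => (b : X) ∈ B o),
            ‖(r : ℂ) * (G b b - m b)‖ ^ 2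
          ≤ ∑ b ∈ Finset.univ.filter (fun b : R => (b : X) ∈ B o), (r * ε) ^ 2 :=
            Finset.sum_le_sum fun b _ => pow_le_pow_left₀ (norm_nonneg _) (hmu b) 2
        _ = ((Finset.univ.filter fun b : R => (b : X) ∈ B o).card : ℝ) * (r * ε) ^ 2 := by
            rw [Finset.sum_const, nsmul_eq_mul]
        _ ≤ N * (r * ε) ^ 2 := by
            refine mul_le_mul_of_nonneg_right ?_ (sq_nonneg _)
            refine le_trans ?_ (hB o)
            have h6 : (Finset.univ.filter fun b : R => (b : X) ∈ B o).card ≤ (B o).card := by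
              refine Finset.card_le_card_of_injOn (fun b => (b : X)) ?_ ?_
              · intro b hb
                have hb' := (Finset.mem_filter.1 (Finset.mem_coe.1 hb)).2
                exact Finset.mem_coe.2 hb'
              · intro b _ b' _ hbb
                exact Subtype.ext hbb
            exact_mod_cast h6
    have hsum2 : ∑ b ∈ (Finset.univ.filter fun b : R => (b : X) ∈ B o)ᶜ,
        e o b ^ 2 * ‖(r : ℂ) * (G b b - m b)‖ ^ 2 ≤ (r * ε) ^ 2 := by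
      have h7 : ∑ b ∈ (Finset.univ.filter fun b : R => (b : X) ∈ B o)ᶜ, e o b ^ 2 ≤ 1 := by
        refine le_trans (le_of_eq ?_) (hBe o)
        refine Finset.sum_bij (fun b _ => (b : X)) ?_ ?_ ?_ ?_
        · intro b hb
          rw [Finset.mem_compl, Finset.mem_filter, not_and] at hb
          exact Finset.mem_sdiff.2 ⟨b.2, hb (Finset.mem_univ _)⟩
        · intro b _ b' _ hbb
          exact Subtype.ext hbb
        · intro b hb
          rw [Finset.mem_sdiff] at hb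
          refine ⟨⟨b, hb.1⟩, ?_, rfl⟩
          rw [Finset.mem_compl, Finset.mem_filter, not_and]
          exact fun _ => hb.2
        · intro b _
          rfl
      calc ∑ b ∈ (Finset.univ.filter fun b : R => (b : X) ∈ B o)ᶜ,
            e o b ^ 2 * ‖(r : ℂ) * (G b b - m b)‖ ^ 2
          ≤ ∑ b ∈ (Finset.univ.filter fun b : R => (b : X) ∈ B o)ᶜ,
            e o b ^ 2 * (r * ε) ^ 2 :=
            Finset.sum_le_sum fun b _ => mul_le_mul_of_nonneg_left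
              (pow_le_pow_left₀ (norm_nonneg _) (hmu b) 2) (sq_nonneg _)
        _ = (∑ b ∈ (Finset.univ.filter fun b : R => (b : X) ∈ B o)ᶜ, e o b ^ 2) *
            (r * ε) ^ 2 := by rw [Finset.sum_mul]
        _ ≤ 1 * (r * ε) ^ 2 := mul_le_mul_of_nonneg_right h7 (sq_nonneg _)
        _ = (r * ε) ^ 2 := one_mul _
    have hpow : (1 - c / 2) ^ J * N ≤ 1 := by
      have h8 : (1 - c / 2) ≤ Real.exp (-(c / 2)) := by
        have := Real.add_one_le_exp (-(c / 2))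
        linarith only [this]
      have h9 : (1 - c / 2) ^ J ≤ Real.exp (-(c / 2)) ^ J :=
        pow_le_pow_left₀ (by linarith only [hc1]) h8 J
      have h10 : Real.exp (-(c / 2)) ^ J = Real.exp (-(c / 2) * J) := by
        rw [← Real.exp_nat_mul]
        congr 1
        ring
      have h11 : -(c / 2) * J ≤ - Real.log N := by
        have h12 : c / 2 * (2 / c * Real.log N) = Real.log N := by
          field_simp
        have h13 : c / 2 * (2 / c * Real.log N) ≤ c / 2 * J :=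
          mul_le_mul_of_nonneg_left hJ1 (by linarith only [hc])
        linarith only [h12, h13]
      have h14 : (1 - c / 2) ^ J ≤ N⁻¹ := by
        rw [h10] at h9
        refine h9.trans ((Real.exp_le_exp.2 h11).trans (le_of_eq ?_))
        rw [Real.exp_neg, Real.exp_log hN0]
      calc (1 - c / 2) ^ J * N ≤ N⁻¹ * N := mul_le_mul_of_nonneg_right h14 hN0.le
        _ = 1 := inv_mul_cancel₀ hN0.ne'
    have hp0 : 0 ≤ (1 - c / 2) ^ J := pow_nonneg (by linarith only [hc1]) _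
    have hrε : 0 ≤ r * ε := mul_nonneg hrp.le hε
    have h2nd : Real.sqrt ((1 - c / 2) ^ J * (c⁻¹ ^ 2 *
        ∑ b ∈ Finset.univ.filter (fun b : R => (b : X) ∈ B o),
          ‖(r : ℂ) * (G b b - m b)‖ ^ 2)) ≤ c⁻¹ * (r * ε) := by
      rw [← Real.sqrt_sq (mul_nonneg (inv_nonneg.2 hc.le) hrε)]
      refine Real.sqrt_le_sqrt ?_
      calc (1 - c / 2) ^ J * (c⁻¹ ^ 2 *
            ∑ b ∈ Finset.univ.filter (fun b : R => (b : X) ∈ B o),
              ‖(r : ℂ) * (G b b - m b)‖ ^ 2)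
          ≤ (1 - c / 2) ^ J * (c⁻¹ ^ 2 * (N * (r * ε) ^ 2)) :=
            mul_le_mul_of_nonneg_left (mul_le_mul_of_nonneg_left hsum1 (sq_nonneg _)) hp0
        _ = ((1 - c / 2) ^ J * N) * (c⁻¹ * (r * ε)) ^ 2 := by ring
        _ ≤ 1 * (c⁻¹ * (r * ε)) ^ 2 := mul_le_mul_of_nonneg_right hpow (sq_nonneg _)
        _ = (c⁻¹ * (r * ε)) ^ 2 := one_mul _
    have h3rd : Real.sqrt ((c - c / 4)⁻¹ ^ 2 *
        ∑ b ∈ (Finset.univ.filter fun b : R => (b : X) ∈ B o)ᶜ,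
          e o b ^ 2 * ‖(r : ℂ) * (G b b - m b)‖ ^ 2) ≤ 2 * c⁻¹ * (r * ε) := by
      have h15 : (c - c / 4)⁻¹ ≤ 2 * c⁻¹ := by
        have h16 : c - c / 4 = (3 / 4) * c := by ring
        rw [h16, mul_inv]
        have h17 : 0 < c⁻¹ := inv_pos.2 hc
        nlinarith only [h17]
      have h18 : 0 ≤ (c - c / 4)⁻¹ := inv_nonneg.2 (by linarith only [hc])
      rw [← Real.sqrt_sq (mul_nonneg (mul_nonneg zero_le_two (inv_nonneg.2 hc.le)) hrε)]
      refine Real.sqrt_le_sqrt ?_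
      calc (c - c / 4)⁻¹ ^ 2 *
            ∑ b ∈ (Finset.univ.filter fun b : R => (b : X) ∈ B o)ᶜ,
              e o b ^ 2 * ‖(r : ℂ) * (G b b - m b)‖ ^ 2
          ≤ (2 * c⁻¹) ^ 2 * (r * ε) ^ 2 :=
            mul_le_mul (pow_le_pow_left₀ h18 h15 2) hsum2
              (Finset.sum_nonneg fun b _ => mul_nonneg (sq_nonneg _) (sq_nonneg _))
              (sq_nonneg _)
        _ = (2 * c⁻¹ * (r * ε)) ^ 2 := by ring
    have h1st : (J : ℝ) / 2 * (ε / c₀ * (r * (m o).im)) ≤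
        ((1 / c + 1) * (C₀ / c₀)) * (1 + Real.log N) * (r * ε) := by
      have hmo := (H.hm o o.2).2
      have h19 : (J : ℝ) / 2 ≤ (1 / c + 1) * (1 + Real.log N) := by
        have h20 : (J : ℝ) / 2 ≤ 1 / c * Real.log N + 1 / 2 := by
          have h21 : 2 / c * Real.log N = 2 * (1 / c * Real.log N) := by ring
          linarith only [hJ2, h21]
        have h22 : 0 ≤ 1 / c := by positivity
        nlinarith only [hlog, h20, h22]
      have h23 : ε / c₀ * (r * (m o).im) ≤ (C₀ / c₀) * (r * ε) := by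
        have h24 : ε / c₀ * (r * (m o).im) ≤ ε / c₀ * (r * C₀) :=
          mul_le_mul_of_nonneg_left (mul_le_mul_of_nonneg_left hmo hrp.le)
            (div_nonneg hε hc0.le)
        refine h24.trans (le_of_eq ?_)
        ring
      have h25 : 0 ≤ ε / c₀ * (r * (m o).im) :=
        mul_nonneg (div_nonneg hε hc0.le)
          (mul_nonneg hrp.le (hc0.le.trans (H.hm o o.2).1))
      have h26 : 0 ≤ (1 / c + 1) * (1 + Real.log N) := by positivity
      calc (J : ℝ) / 2 * (ε / c₀ * (r * (m o).im))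
          ≤ ((1 / c + 1) * (1 + Real.log N)) * ((C₀ / c₀) * (r * ε)) :=
            mul_le_mul h19 h23 h25 h26
        _ = _ := by ring
    have hfin : ‖u o‖ ≤ ((1 / c + 1) * (C₀ / c₀)) * (1 + Real.log N) * (r * ε) +
        c⁻¹ * (r * ε) + 2 * c⁻¹ * (r * ε) := by
      refine h1.trans ?_
      exact add_le_add (add_le_add h1st h2nd) h3rd
    refine hfin.trans ?_
    have h27 : 0 ≤ 3 / c * Real.log N * (r * ε) := by positivity
    have h28 : r * (C₁ * (1 + Real.log N) * ε) -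
        (((1 / c + 1) * (C₀ / c₀)) * (1 + Real.log N) * (r * ε) +
        c⁻¹ * (r * ε) + 2 * c⁻¹ * (r * ε)) = 3 / c * Real.log N * (r * ε) := by
      rw [hC₁]
      ring
    linarith only [h27, h28]
  have hδn : ∀ a, ‖δ a‖ ≤ C₁ * (1 + Real.log N) * ε := by
    intro a
    by_cases ha : a ∈ R
    · have h1 := hsup ⟨a, ha⟩
      have h2 : δ a = u ⟨a, ha⟩ / r := by
        rw [hδ]
        change ext0 R u a / r = _
        unfold ext0
        rw [dif_pos ha]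
      rw [h2, norm_div, Complex.norm_real, Real.norm_of_nonneg hrp.le, div_le_iff₀ hrp]
      linarith only [ha, h1]
    · have h2 : δ a = 0 := by
        rw [hδ]
        change ext0 R u a / r = _
        unfold ext0
        rw [dif_neg ha, zero_div]
      rw [h2, norm_zero]
      positivity
  refine ⟨δ, ?_, ?_, ?_⟩
  · intro a ha
    change ext0 R u a / r = _
    unfold ext0
    rw [dif_neg ha, zero_div]
  · intro a
    refine (hδn a).trans ?_
    have h1 : 0 ≤ (1 + Real.log N) * ε := by positivity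
    have h2 : 0 < C₁ * ((C₀ + 1) / c₀ ^ 2) := by positivity
    have h3 : C₁ ≤ 1 + C₁ + C₁ * ((C₀ + 1) / c₀ ^ 2) := by linarith only [h2]
    have h4 := mul_le_mul_of_nonneg_right h3 h1
    linarith only [h4]
  · intro a ha
    have h1 := hu ⟨a, ha⟩
    rw [ys_mulVec] at h1
    have h2 : ∑ b ∈ R, G a b ^ 2 * ext0 R u b = r * ∑ b ∈ R, G a b ^ 2 * δ b := by
      rw [Finset.mul_sum]
      refine Finset.sum_congr rfl fun b _ => ?_
      rw [hδ]
      change _ = (r : ℂ) * (G a b ^ 2 * (ext0 R u b / r))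
      field_simp
    have h3 : u ⟨a, ha⟩ = r * δ a := by
      rw [hδ]
      change _ = (r : ℂ) * (ext0 R u a / r)
      unfold ext0
      rw [dif_pos ha]
      field_simp
    change u ⟨a, ha⟩ - (r : ℂ) ^ 2 * ∑ b ∈ R, G a b ^ 2 * ext0 R u b =
      (r : ℂ) * (G a a - m a) at h1
    rw [h2, h3] at h1
    have h4 : δ a - (G a a - m a) = (r : ℂ) ^ 2 * ∑ b ∈ R, G a b ^ 2 * δ b := by
      have h5 : (r : ℂ) * (δ a - (G a a - m a)) =
          (r : ℂ) * ((r : ℂ) ^ 2 * ∑ b ∈ R, G a b ^ 2 * δ b) := by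
        linear_combination h1
      exact mul_left_cancel₀ hrc h5
    have h6 : ∑ b ∈ R, (s : ℂ) * G a b ^ 2 * δ b = (s : ℂ) * ∑ b ∈ R, G a b ^ 2 * δ b := by
      rw [Finset.mul_sum]
      exact Finset.sum_congr rfl fun b _ => by ring
    rw [h4, h6, ← sub_mul, norm_mul]
    have h7 : ‖(r : ℂ) ^ 2 - (s : ℂ)‖ = s - r ^ 2 := by
      rw [← Complex.ofReal_pow, ← Complex.ofReal_sub, Complex.norm_real, Real.norm_eq_abs,
        abs_sub_comm, abs_of_nonneg (by linarith only [hrs])]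
    rw [h7]
    have h8 : s - r ^ 2 ≤ s * (ε / c₀) := by
      have h9 : s - r ^ 2 = r ^ 2 * (ε / c₀) := by
        rw [← hr2]
        ring
      rw [h9]
      exact mul_le_mul_of_nonneg_right hrs (div_nonneg hε hc0.le)
    have h10 : ‖∑ b ∈ R, G a b ^ 2 * δ b‖ ≤
        (∑ b ∈ R, ‖G a b‖ ^ 2) * (C₁ * (1 + Real.log N) * ε) := by
      refine (norm_sum_le _ _).trans ?_
      rw [Finset.sum_mul]
      refine Finset.sum_le_sum fun b _ => ?_
      rw [norm_mul, norm_pow]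
      exact mul_le_mul_of_nonneg_left (hδn b) (sq_nonneg _)
    have h11 : s * ∑ b ∈ R, ‖G a b‖ ^ 2 ≤ (C₀ + 1) / c₀ := by
      rw [le_div_iff₀ hc0]
      have h12 := ward_run H a ha
      have h13 : s * (∑ b ∈ R, ‖G a b‖ ^ 2) * c₀ ≤ ∑ b ∈ R, s * ‖G a b‖ ^ 2 * (m b).im := by
        rw [Finset.mul_sum, Finset.sum_mul]
        refine Finset.sum_le_sum fun b hb => ?_
        exact mul_le_mul_of_nonneg_left (H.hm b hb).1 (mul_nonneg H.hs.le (sq_nonneg _))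
      have h14 := (H.hm a ha).2
      have h15 := H.hε.2
      linarith only [hc01, h12, h13, h14, h15]
    have hK : 0 ≤ C₁ * (1 + Real.log N) * ε := by positivity
    calc (s - r ^ 2) * ‖∑ b ∈ R, G a b ^ 2 * δ b‖
        ≤ (s * (ε / c₀)) * ((∑ b ∈ R, ‖G a b‖ ^ 2) * (C₁ * (1 + Real.log N) * ε)) :=
          mul_le_mul h8 h10 (norm_nonneg _)
            (mul_nonneg H.hs.le (div_nonneg hε hc0.le))
      _ = (s * ∑ b ∈ R, ‖G a b‖ ^ 2) * ((ε / c₀) * (C₁ * (1 + Real.log N) * ε)) := by ring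
      _ ≤ ((C₀ + 1) / c₀) * ((ε / c₀) * (C₁ * (1 + Real.log N) * ε)) :=
          mul_le_mul_of_nonneg_right h11 (mul_nonneg (div_nonneg hε hc0.le) hK)
      _ = (C₁ * ((C₀ + 1) / c₀ ^ 2)) * ((1 + Real.log N) * ε ^ 2) := by ring
      _ ≤ (1 + C₁ + C₁ * ((C₀ + 1) / c₀ ^ 2)) * ((1 + Real.log N) * ε ^ 2) := by
          refine mul_le_mul_of_nonneg_right (by linarith only [hC₁0]) (by positivity)
      _ = _ := by ring

end Pool.Agent.AGU.H19
end
end -- Pool.Agent.Helper19_AGU.GNW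

section -- Pool.Agent.Helper49_AGU.GHO

set_option autoImplicit false

open scoped BigOperators

noncomputable section

namespace Pool.Agent.AGU.H49

theorem gho : GhoStmt := by
  intro X S g h L Q hL hQ h1 h2
  have h4 : ((4 : ℕ) : ℝ) = 4 := by norm_num
  have key := Real.Lp_add_le S (fun b => ‖g b‖) (fun b => ‖h b - g b‖) (p := 4) (by norm_num)
  have e1 : ∀ f : X → ℝ, (∀ b, 0 ≤ f b) → ∑ b ∈ S, |f b| ^ (4 : ℝ) = ∑ b ∈ S, f b ^ 4 := by
    intro f hf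
    refine Finset.sum_congr rfl fun b _ => ?_
    rw [abs_of_nonneg (hf b), ← h4, Real.rpow_natCast]
  rw [e1 _ (fun b => add_nonneg (norm_nonneg _) (norm_nonneg _)), e1 _ (fun b => norm_nonneg _),
    e1 _ (fun b => norm_nonneg _)] at key
  have r1 : ∀ (x T : ℝ), 0 ≤ x → 0 ≤ T → x ≤ T ^ 4 → x ^ (1 / (4 : ℝ)) ≤ T := by
    intro x T hx hT hxT
    calc x ^ (1 / (4 : ℝ)) ≤ (T ^ 4) ^ (1 / (4 : ℝ)) := Real.rpow_le_rpow hx hxT (by norm_num)
      _ = T := by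
        rw [← Real.rpow_natCast, ← Real.rpow_mul hT]
        norm_num
  have hA : 0 ≤ ∑ b ∈ S, ‖g b‖ ^ 4 := Finset.sum_nonneg fun b _ => by positivity
  have hB : 0 ≤ ∑ b ∈ S, ‖h b - g b‖ ^ 4 := Finset.sum_nonneg fun b _ => by positivity
  have hC : 0 ≤ ∑ b ∈ S, (‖g b‖ + ‖h b - g b‖) ^ 4 := Finset.sum_nonneg fun b _ => by positivity
  have k1 := key.trans (add_le_add (r1 _ L hA hL h1) (r1 _ Q hB hQ h2))
  have k2 : ∑ b ∈ S, (‖g b‖ + ‖h b - g b‖) ^ 4 ≤ (L + Q) ^ 4 := by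
    have h5 := pow_le_pow_left₀ (Real.rpow_nonneg hC _) k1 4
    rw [← Real.rpow_natCast, ← Real.rpow_mul hC] at h5
    norm_num at h5
    exact h5
  refine le_trans (Finset.sum_le_sum fun b _ => ?_) k2
  refine pow_le_pow_left₀ (norm_nonneg _) ?_ 4
  calc ‖h b‖ = ‖g b + (h b - g b)‖ := by rw [add_sub_cancel]
    _ ≤ _ := norm_add_le _ _

end Pool.Agent.AGU.H49
end
end -- Pool.Agent.Helper49_AGU.GHO

section -- Pool.Agent.Helper99_AGU.GWB

set_option autoImplicit false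

open scoped BigOperators Matrix

namespace Pool.Agent.AGU.H99

open Pool.Agent.AGU

lemma part1 (X : Type) [Fintype X] [DecidableEq X] (G : Matrix X X ℂ) (k : X → ℝ) (h : WK G k)
    (a : X) : ∑ b, k b * ‖G a b‖ ^ 2 = (G a a).im := by
  have h1 := h.hw a a
  have h2 : ∑ c, (k c : ℂ) * (starRingEnd ℂ) (G a c) * G c a =
      ((∑ c, k c * ‖G a c‖ ^ 2 : ℝ) : ℂ) := by
    push_cast
    refine Finset.sum_congr rfl fun c _ => ?_
    rw [h.hs c a, mul_assoc, Complex.conj_mul']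
  rw [h2] at h1
  exact_mod_cast h1

lemma part2 (X : Type) [Fintype X] [DecidableEq X] (G : Matrix X X ℂ) (k : X → ℝ) (h : WK G k)
    (u : X → ℂ) : ∑ a, k a * ‖∑ b, G a b * u b‖ ^ 2 ≤ ∑ b, ‖u b‖ ^ 2 / k b := by
  set v : X → ℂ := fun a => ∑ b, G a b * u b with hv
  set T : ℂ := ∑ b, (starRingEnd ℂ) (u b) * v b with hT
  have hS : ((∑ a, k a * ‖v a‖ ^ 2 : ℝ) : ℂ) =
      ∑ b, ∑ c, (starRingEnd ℂ) (u b) * u c * ((G b c).im : ℂ) := by
    have h1 : ∀ a, ((k a * ‖v a‖ ^ 2 : ℝ) : ℂ) = ∑ b, ∑ c, (starRingEnd ℂ) (u b) * u c *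
        ((k a : ℂ) * (starRingEnd ℂ) (G b a) * G a c) := by
      intro a
      push_cast
      rw [← Complex.conj_mul', hv]
      simp only [map_sum, map_mul]
      rw [Finset.sum_mul, Finset.mul_sum]
      refine Finset.sum_congr rfl fun b _ => ?_
      rw [Finset.mul_sum, Finset.mul_sum]
      refine Finset.sum_congr rfl fun c _ => ?_
      rw [h.hs b a]
      ring
    rw [Complex.ofReal_sum, Finset.sum_congr rfl fun a _ => h1 a, Finset.sum_comm]
    refine Finset.sum_congr rfl fun b _ => ?_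
    rw [Finset.sum_comm]
    refine Finset.sum_congr rfl fun c _ => ?_
    rw [← Finset.mul_sum, h.hw]
  have hT2 : T = ∑ b, ∑ c, (starRingEnd ℂ) (u b) * u c * G b c := by
    rw [hT]
    refine Finset.sum_congr rfl fun b _ => ?_
    rw [hv, Finset.mul_sum]
    refine Finset.sum_congr rfl fun c _ => ?_
    ring
  have hT3 : (starRingEnd ℂ) T = ∑ b, ∑ c, (starRingEnd ℂ) (u b) * u c *
      (starRingEnd ℂ) (G b c) := by
    rw [hT2]
    simp only [map_sum, map_mul, Complex.conj_conj]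
    rw [Finset.sum_comm]
    refine Finset.sum_congr rfl fun b _ => Finset.sum_congr rfl fun c _ => ?_
    rw [h.hs c b]
    ring
  have hIm : ∑ a, k a * ‖v a‖ ^ 2 = T.im := by
    have h1 : T - (starRingEnd ℂ) T = 2 * Complex.I * ((∑ a, k a * ‖v a‖ ^ 2 : ℝ) : ℂ) := by
      rw [hS, hT3, hT2, ← Finset.sum_sub_distrib, Finset.mul_sum]
      refine Finset.sum_congr rfl fun b _ => ?_
      rw [← Finset.sum_sub_distrib, Finset.mul_sum]
      refine Finset.sum_congr rfl fun c _ => ?_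
      rw [← mul_sub, Complex.sub_conj]
      push_cast
      ring
    have h2 := Complex.sub_conj T
    rw [h2] at h1
    generalize ∑ a, k a * ‖v a‖ ^ 2 = S at h1 ⊢
    have h3 := congrArg Complex.im h1
    simp at h3
    linarith only [h3]
  have hle : T.im ≤ ∑ b, (‖u b‖ ^ 2 / k b + k b * ‖v b‖ ^ 2) / 2 := by
    refine (Complex.im_le_norm T).trans ?_
    rw [hT]
    refine (norm_sum_le _ _).trans (Finset.sum_le_sum fun b _ => ?_)
    rw [norm_mul, RCLike.norm_conj]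
    have hk := h.hk b
    have h1 : 0 ≤ (‖u b‖ - k b * ‖v b‖) ^ 2 / k b := by positivity
    have h2 : (‖u b‖ - k b * ‖v b‖) ^ 2 / k b =
        ‖u b‖ ^ 2 / k b + k b * ‖v b‖ ^ 2 - 2 * (‖u b‖ * ‖v b‖) := by
      field_simp
      ring
    rw [h2] at h1
    linarith only [h1]
  have h5 : ∑ b, (‖u b‖ ^ 2 / k b + k b * ‖v b‖ ^ 2) / 2 =
      (∑ b, ‖u b‖ ^ 2 / k b + ∑ b, k b * ‖v b‖ ^ 2) / 2 := by
    rw [← Finset.sum_add_distrib, Finset.sum_div]
  rw [h5, ← hIm] at hle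
  linarith only [hle]

theorem gwb : GwbStmt := by
  intro X _ _ G k h
  refine ⟨part1 X G k h, part2 X G k h, ?_, ?_⟩
  · intro a b
    have h1 := part2 X G k h (fun c => if c = b then 1 else 0)
    have h2 : ∀ a, ∑ c, G a c * (if c = b then (1 : ℂ) else 0) = G a b := by
      intro a
      simp
    have h3 : ∑ c, ‖(if c = b then (1 : ℂ) else 0)‖ ^ 2 / k c = 1 / k b := by
      rw [Finset.sum_eq_single b]
      · simp
      · intro c _ hc
        simp [hc]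
      · intro hb
        exact absurd (Finset.mem_univ b) hb
    simp only [h2] at h1
    rw [h3] at h1
    have h4 : k a * ‖G a b‖ ^ 2 ≤ ∑ a, k a * ‖G a b‖ ^ 2 :=
      Finset.single_le_sum (f := fun a => k a * ‖G a b‖ ^ 2)
        (fun c _ => mul_nonneg (h.hk c).le (sq_nonneg _)) (Finset.mem_univ a)
    have h5 := h4.trans h1
    have hk := h.hk b
    rw [le_div_iff₀ hk] at h5
    linarith only [h5]
  · intro a b z d hd hz
    have h1 : ‖∑ c, G a c * z c * G c b‖ ≤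
        ∑ c, d * ((Real.sqrt (k c) * ‖G a c‖) * (Real.sqrt (k c) * ‖G c b‖)) := by
      refine (norm_sum_le _ _).trans (Finset.sum_le_sum fun c _ => ?_)
      rw [norm_mul, norm_mul]
      have h2 : Real.sqrt (k c) * Real.sqrt (k c) = k c := Real.mul_self_sqrt (h.hk c).le
      have h3 := hz c
      have h4 : d * ((Real.sqrt (k c) * ‖G a c‖) * (Real.sqrt (k c) * ‖G c b‖)) =
          (d * k c) * (‖G a c‖ * ‖G c b‖) := by
        calc _ = d * (Real.sqrt (k c) * Real.sqrt (k c)) * (‖G a c‖ * ‖G c b‖) := by ring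
          _ = _ := by rw [h2]
      rw [h4]
      have h5 : ‖G a c‖ * ‖z c‖ * ‖G c b‖ = ‖z c‖ * (‖G a c‖ * ‖G c b‖) := by ring
      rw [h5]
      exact mul_le_mul_of_nonneg_right h3 (by positivity)
    refine h1.trans ?_
    rw [← Finset.mul_sum]
    refine mul_le_mul_of_nonneg_left ?_ hd
    refine (Real.sum_mul_le_sqrt_mul_sqrt Finset.univ _ _).trans ?_
    have e1 : ∑ c, (Real.sqrt (k c) * ‖G a c‖) ^ 2 = (G a a).im := by
      rw [← part1 X G k h a]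
      refine Finset.sum_congr rfl fun c _ => ?_
      rw [mul_pow, Real.sq_sqrt (h.hk c).le]
    have e2 : ∑ c, (Real.sqrt (k c) * ‖G c b‖) ^ 2 = (G b b).im := by
      rw [← part1 X G k h b]
      refine Finset.sum_congr rfl fun c _ => ?_
      rw [mul_pow, Real.sq_sqrt (h.hk c).le, h.hs c b]
    rw [e1, e2, Real.sqrt_mul]
    rw [← e1]
    exact Finset.sum_nonneg fun c _ => sq_nonneg _

end Pool.Agent.AGU.H99
end -- Pool.Agent.Helper99_AGU.GWB

section -- Pool.Agent.Helper51_AGU.GCW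

/-!
# AGU, row GCW (helper51): exponential weights
-/

set_option autoImplicit false

open scoped BigOperators Matrix

noncomputable section

namespace Pool.Agent.AGU.H51

theorem abs_one_sub_exp_le (t x : ℝ) (h : |t| ≤ x) : |1 - Real.exp t| ≤ Real.exp x - 1 := by
  have hx : Real.exp |t| ≤ Real.exp x := Real.exp_le_exp.2 h
  rcases le_total 0 t with ht | ht
  · have h1 : 1 ≤ Real.exp t := Real.one_le_exp ht
    rw [abs_of_nonpos (by linarith)]
    rw [abs_of_nonneg ht] at hx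
    linarith
  · have h1 : Real.exp t ≤ 1 := Real.exp_le_one_iff.2 ht
    rw [abs_of_nonneg (by linarith)]
    rw [abs_of_nonpos ht] at hx
    have h2 : Real.exp t * Real.exp (-t) = 1 := by
      rw [← Real.exp_add, add_neg_cancel, Real.exp_zero]
    have h3 : 0 < Real.exp t := Real.exp_pos t
    have h4 : 2 ≤ Real.exp t + Real.exp (-t) := by
      have h5 : 0 < Real.exp (-t) := Real.exp_pos _
      nlinarith only [sq_nonneg (Real.exp t - Real.exp (-t)), h1, h2, h3]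
    linarith only [hx, h4]

theorem exp_conv (β β₁ x : ℝ) (h0 : 0 ≤ β) (h1 : β ≤ β₁) (h2 : 0 < β₁) :
    Real.exp (β * x) - 1 ≤ β / β₁ * Real.exp (β₁ * x) := by
  have hθ0 : 0 ≤ β / β₁ := div_nonneg h0 h2.le
  have hθ1 : β / β₁ ≤ 1 := (div_le_one h2).2 h1
  have h := convexOn_exp.2 (Set.mem_univ (β₁ * x)) (Set.mem_univ (0 : ℝ)) hθ0
    (by linarith only [hθ1] : 0 ≤ 1 - β / β₁) (by ring)
  simp only [smul_eq_mul, mul_zero, add_zero, Real.exp_zero, mul_one] at h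
  have h3 : β / β₁ * (β₁ * x) = β * x := by
    field_simp
  rw [h3] at h
  linarith only [hθ0, h]

theorem gcw : GcwStmt := by
  intro X _ _ G k R m s ε c c₀ C₀ β β₁ C₁ D hrun hD hD0 htri hβ hβ1 hβ2 hC1 hsum o ho a ha
  have key : ∀ b ∈ R, s * ‖G a b‖ ^ 2 *
        (|1 - Real.exp (-(β * D o a)) / Real.exp (-(β * D o b))| ⊔
          |1 - Real.exp (-(β * D o b)) / Real.exp (-(β * D o a))|) * (m b).im ≤
      β / β₁ * (k b * ‖G a b‖ ^ 2 * Real.exp (β₁ * D a b)) := by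
    intro b hb
    have hab : |D o b - D o a| ≤ D a b := by
      rw [abs_le]
      constructor
      · have h := htri o a b
        rw [(hD b a).2] at h
        linarith only [h]
      · have h := htri o b a
        linarith
    have h1 : |1 - Real.exp (-(β * D o a)) / Real.exp (-(β * D o b))| ≤
        Real.exp (β * D a b) - 1 := by
      rw [← Real.exp_sub]
      apply abs_one_sub_exp_le
      have h2 : -(β * D o a) - -(β * D o b) = β * (D o b - D o a) := by ring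
      rw [h2, abs_mul, abs_of_nonneg hβ]
      exact mul_le_mul_of_nonneg_left hab hβ
    have h2 : |1 - Real.exp (-(β * D o b)) / Real.exp (-(β * D o a))| ≤
        Real.exp (β * D a b) - 1 := by
      rw [← Real.exp_sub]
      apply abs_one_sub_exp_le
      have h2 : -(β * D o b) - -(β * D o a) = -(β * (D o b - D o a)) := by ring
      rw [h2, abs_neg, abs_mul, abs_of_nonneg hβ]
      exact mul_le_mul_of_nonneg_left hab hβ
    have h3 := (sup_le h1 h2).trans (exp_conv β β₁ (D a b) hβ hβ1 hβ2)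
    have hk := hrun.hk b hb
    have hm : 0 ≤ (m b).im := le_trans hrun.hc.2.2.1.le (hrun.hm b hb).1
    have hG : 0 ≤ ‖G a b‖ ^ 2 := by positivity
    have hE : 0 ≤ β / β₁ * Real.exp (β₁ * D a b) :=
      mul_nonneg (div_nonneg hβ hβ2.le) (Real.exp_pos _).le
    calc s * ‖G a b‖ ^ 2 *
        (|1 - Real.exp (-(β * D o a)) / Real.exp (-(β * D o b))| ⊔
          |1 - Real.exp (-(β * D o b)) / Real.exp (-(β * D o a))|) * (m b).im
        ≤ s * ‖G a b‖ ^ 2 * (β / β₁ * Real.exp (β₁ * D a b)) * (m b).im := by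
          apply mul_le_mul_of_nonneg_right _ hm
          exact mul_le_mul_of_nonneg_left h3 (mul_nonneg hrun.hs.le hG)
      _ = (s * (m b).im) * (‖G a b‖ ^ 2 * (β / β₁ * Real.exp (β₁ * D a b))) := by ring
      _ ≤ k b * (‖G a b‖ ^ 2 * (β / β₁ * Real.exp (β₁ * D a b))) :=
          mul_le_mul_of_nonneg_right hk (mul_nonneg hG hE)
      _ = β / β₁ * (k b * ‖G a b‖ ^ 2 * Real.exp (β₁ * D a b)) := by ring
  have hnn : ∀ b, 0 ≤ k b * ‖G a b‖ ^ 2 * Real.exp (β₁ * D a b) := fun b =>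
    mul_nonneg (mul_nonneg (hrun.hw.hk b).le (by positivity)) (Real.exp_pos _).le
  calc _ ≤ ∑ b ∈ R, β / β₁ * (k b * ‖G a b‖ ^ 2 * Real.exp (β₁ * D a b)) :=
        Finset.sum_le_sum key
    _ = β / β₁ * ∑ b ∈ R, k b * ‖G a b‖ ^ 2 * Real.exp (β₁ * D a b) := by
        rw [Finset.mul_sum]
    _ ≤ β / β₁ * ∑ b, k b * ‖G a b‖ ^ 2 * Real.exp (β₁ * D a b) :=
        mul_le_mul_of_nonneg_left
          (Finset.sum_le_sum_of_subset_of_nonneg (Finset.subset_univ _) fun b _ _ => hnn b)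
          (div_nonneg hβ hβ2.le)
    _ ≤ β / β₁ * (C₁ * (m a).im) :=
        mul_le_mul_of_nonneg_left (hsum a ha) (div_nonneg hβ hβ2.le)
    _ = β / β₁ * C₁ * (m a).im := by ring

end Pool.Agent.AGU.H51
end
end -- Pool.Agent.Helper51_AGU.GCW
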