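import Pool.Agent.Helper12_MEB.B000
import Pool.Agent.Helper12_MEB.B084
import Pool.Agent.Helper12_MEB.B143

/-!
# Merged copies (generated) of the modules

* `Pool.Agent.AND2B.Base`
* `Pool.Agent.Helper14_HSL.HSL`
* `Pool.Agent.Helper14_HSL.HSC`
* `Pool.Agent.Helper67_HSL.WGN`
* `Pool.Agent.Helper67_ACX.Har`
* `Pool.Agent.Helper72_AHH.Chg`
* `Pool.Agent.Helper48_ACS.End`
* `Pool.Agent.Helper72_ACS.Tri`
* `Pool.Agent.Helper72_ACS.Tri2`
* `Pool.Agent.Helper72_QDA.Shf`
-/

set_option autoImplicit false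

section -- Pool.Agent.AND2B.Base

/-!
# AND2B (MP_1906c1_mp): the common language

The torus, the network of a configuration, the event `WL`, the failure set, the interface with the end.

The absorption of the site `x` is `e₀ + s_x Im mb_x` for every site; `s_x` is the clock, `mb_x` the gauge.
The number `e₀ > 0` is chosen after everything else (after the torus and the last clock) and is so tiny
that it has no effect; a dead site (clock `0`) is simply a real potential.
-/

set_option autoImplicit false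

open MeasureTheory ProbabilityTheory

open scoped BigOperators NNReal ENNReal Matrix

noncomputable section

namespace Pool.Agent.AND2B

open Pool.Agent.Anderson hiding box mem_box card_box
open Pool.Agent.Loc Pool.Agent.Mob Pool.Agent.Helper54.Bal
  Pool.Agent.Helper96.EXP Pool.Agent.BED
open Pool.Agent.LE.MN Pool.Agent.LE.CL Pool.Agent.LE.IR Pool.Agent.LE.QD
open Pool.Agent.ANP (Cfg gm Win)

variable {d M : ℕ} [NeZero M]

/-! ### the network -/

/-- `Δ + V - E`, real -/
def Hr (V : Tor d M → ℝ) (E : ℝ) : Matrix (Tor d M) (Tor d M) ℝ :=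
  adj d M + Matrix.diagonal fun x => V x - E

/-- `(Δ + V - E - i k)⁻¹` -/
def res (V : Tor d M → ℝ) (E : ℝ) (k : Tor d M → ℝ) : Matrix (Tor d M) (Tor d M) ℂ :=
  ANR.Gr (Hr V E) k

/-- the absorption -/
def kap (e₀ : ℝ) (T : Cfg (Tor d M)) (x : Tor d M) : ℝ := e₀ + (T.s x : ℝ) * (T.mb x).im

/-- the effective potential `V - s Re mb` -/
def Vef (T : Cfg (Tor d M)) (x : Tor d M) : ℝ := T.V x - (T.s x : ℝ) * (T.mb x).re

/-- the resolvent of the configuration -/
def net (E e₀ : ℝ) (T : Cfg (Tor d M)) : Matrix (Tor d M) (Tor d M) ℂ :=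
  res (Vef T) E (kap e₀ T)

/-! ### the event `WL` and the failure set -/

/-- `H - E` restricted to `D` has an inverse of norm at most `L` -/
def WLD (E L : ℝ) (V : Tor d M → ℝ) (D : Finset (Tor d M)) : Prop :=
  ∀ u : Tor d M → ℂ, (∀ x, x ∉ D → u x = 0) →
    ∑ x ∈ D, ‖u x‖ ^ 2 ≤ L ^ 2 * ∑ x ∈ D, ‖∑ y, (Hr V E x y : ℂ) * u y‖ ^ 2

/-- for all subsets -/
def WL (E L : ℝ) (V : Tor d M → ℝ) : Prop := ∀ D, WLD E L V D

/-- the dead sites of the configuration already violate `WL` (their potential is the true one) -/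
def Viol (E L : ℝ) (T : Cfg (Tor d M)) : Prop := ∃ D, (∀ x ∈ D, T.s x = 0) ∧ ¬ WLD E L T.V D

end Pool.Agent.AND2B
end
end -- Pool.Agent.AND2B.Base

section -- Pool.Agent.Helper14_HSL.HSL

/-!
# Absorption at the dead sites does not matter in the Hilbert-Schmidt norm

`G = (H - iη)⁻¹`, `G^N = (H - iη 1_A)⁻¹`, `H` real symmetric on `A ∪ B`: then
`∑_{x,y ∈ A} |G_xy - G^N_xy|² ≤ ∑_{b,b' ∈ B} |G_bb'|²` (helper67, note 3384 (3)).
-/

set_option autoImplicit false

open scoped BigOperators Matrix ComplexConjugate ComplexOrder MatrixOrder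

noncomputable section

namespace Pool.Agent.HSL14

variable {α β : Type} [Fintype α] [Fintype β] [DecidableEq α] [DecidableEq β]

/-- Hilbert-Schmidt norm as a trace -/
theorem hs_trace {m n : Type} [Fintype m] [Fintype n] (Y : Matrix m n ℂ) :
    ((∑ x, ∑ y, ‖Y x y‖ ^ 2 : ℝ) : ℂ) = (Y * Yᴴ).trace := by
  rw [Matrix.trace]
  push_cast
  apply Finset.sum_congr rfl
  intro x _
  rw [Matrix.diag_apply, Matrix.mul_apply]
  apply Finset.sum_congr rfl
  intro y _
  rw [Matrix.conjTranspose_apply, Complex.star_def, Complex.mul_conj, Complex.normSq_eq_norm_sq]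
  push_cast
  rfl

omit [DecidableEq β] in
/-- If `2 Nᴴ N = N + Nᴴ` then every column of `N` has norm at most one. -/
theorem col_le {N : Matrix β β ℂ} (h : (2 : ℂ) • (Nᴴ * N) = N + Nᴴ) :
    (∑ i, ∑ j, ‖N i j‖ ^ 2) ≤ (Fintype.card β : ℝ) := by
  rw [Finset.sum_comm]
  have key : ∀ j : β, (∑ i, ‖N i j‖ ^ 2) ≤ 1 := by
    intro j
    have h1 := congrFun (congrFun h j) j
    rw [Matrix.smul_apply, Matrix.mul_apply, Matrix.add_apply, Matrix.conjTranspose_apply] at h1
    have h2 := congrArg Complex.re h1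
    have h3 : (∑ i, Nᴴ j i * N i j) = ((∑ i, ‖N i j‖ ^ 2 : ℝ) : ℂ) := by
      push_cast
      apply Finset.sum_congr rfl
      intro i _
      rw [Matrix.conjTranspose_apply, Complex.star_def, mul_comm, Complex.mul_conj,
        Complex.normSq_eq_norm_sq]
      push_cast
      rfl
    rw [h3, smul_eq_mul] at h2
    have h4 : (∑ i, ‖N i j‖ ^ 2) = (N j j).re := by
      have h5 : ((2 : ℂ) * ((∑ i, ‖N i j‖ ^ 2 : ℝ) : ℂ)).re = 2 * ∑ i, ‖N i j‖ ^ 2 := by
        rw [show (2 : ℂ) = ((2 : ℝ) : ℂ) by norm_num, ← Complex.ofReal_mul, Complex.ofReal_re]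
      rw [h5, Complex.add_re, Complex.star_def, Complex.conj_re] at h2
      linarith only [h2]
    have h6 : ‖N j j‖ ^ 2 ≤ ∑ i, ‖N i j‖ ^ 2 :=
      Finset.single_le_sum (f := fun i => ‖N i j‖ ^ 2) (fun i _ => by positivity)
        (Finset.mem_univ j)
    have h7 : (N j j).re ≤ ‖N j j‖ := Complex.re_le_norm _
    have h8 := norm_nonneg (N j j)
    set q := ∑ i, ‖N i j‖ ^ 2
    by_contra hq
    push Not at hq
    nlinarith only [h7, h8, h4, h6, hq]
  calc (∑ j, ∑ i, ‖N i j‖ ^ 2) ≤ ∑ _j : β, (1 : ℝ) := Finset.sum_le_sum fun j _ => key j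
    _ = _ := by simp

omit [DecidableEq α] in
/-- The block form: `R = G_BB`, `F = G_BA`, Ward identity on `B`. -/
theorem hsl {F : Matrix β α ℂ} {R : Matrix β β ℂ} {η : ℝ} (hη : 0 < η) (hR : Rᵀ = R)
    (hW : ∀ b b', (η : ℂ) * ((∑ a, F b a * conj (F b' a)) + ∑ c, R b c * conj (R b' c)) =
      ((R b b').im : ℂ))
    (hK : IsUnit (1 + (η * Complex.I : ℂ) • R).det) :
    (∑ x, ∑ y, ‖((η : ℂ) • (Fᵀ * (1 + (η * Complex.I : ℂ) • R)⁻¹ * F)) x y‖ ^ 2) ≤
      ∑ b, ∑ b', ‖R b b'‖ ^ 2 := by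
  set K : Matrix β β ℂ := 1 + (η * Complex.I : ℂ) • R with hKd
  have hKT : Kᵀ = K := by
    rw [hKd, Matrix.transpose_add, Matrix.transpose_one, Matrix.transpose_smul, hR]
  set D : Matrix β β ℂ := (1 / 2 : ℂ) • (K + Kᴴ) with hDd
  set W : Matrix β α ℂ := (η : ℂ) • F with hWd
  -- entries of `K ᴴ`
  have hRH : ∀ b b', Rᴴ b b' = conj (R b b') := by
    intro b b'
    rw [Matrix.conjTranspose_apply, Complex.star_def]
    have : R b' b = R b b' := congrFun (congrFun hR b) b'
    rw [this]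
  have hKH : Kᴴ = 1 - (η * Complex.I : ℂ) • Rᴴ := by
    rw [hKd, Matrix.conjTranspose_add, Matrix.conjTranspose_one, Matrix.conjTranspose_smul]
    have : star (η * Complex.I : ℂ) = -(η * Complex.I : ℂ) := by
      simp
    rw [this, neg_smul, ← sub_eq_add_neg]
  -- Ward
  have hWW : W * Wᴴ = D - K * Kᴴ := by
    have e1 : W * Wᴴ = ((η : ℂ) ^ 2) • (F * Fᴴ) := by
      rw [hWd, Matrix.conjTranspose_smul, Matrix.smul_mul, Matrix.mul_smul, smul_smul]
      congr 1
      simp [pow_two]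
    have e2 : K * Kᴴ = 1 + (η * Complex.I : ℂ) • R - (η * Complex.I : ℂ) • Rᴴ +
        ((η : ℂ) ^ 2) • (R * Rᴴ) := by
      rw [hKH, hKd]
      rw [add_mul, mul_sub, mul_sub, one_mul, one_mul, mul_one, Matrix.smul_mul, Matrix.mul_smul,
        smul_smul]
      have : (η * Complex.I : ℂ) * (η * Complex.I : ℂ) = -(η : ℂ) ^ 2 := by
        ring_nf
        rw [Complex.I_sq]
        ring
      rw [this, neg_smul]
      abel
    have e3 : D = 1 + (1 / 2 : ℂ) • ((η * Complex.I : ℂ) • R - (η * Complex.I : ℂ) • Rᴴ) := by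
      rw [hDd, hKH, hKd]
      ext b b'
      simp only [Matrix.smul_apply, Matrix.add_apply, Matrix.sub_apply, smul_eq_mul]
      ring
    rw [e1, e2, e3]
    ext b b'
    simp only [Matrix.smul_apply, Matrix.add_apply, Matrix.sub_apply, smul_eq_mul,
      Matrix.mul_apply, hRH]
    have h1 := hW b b'
    have h2 : (∑ a, F b a * Fᴴ a b') = ∑ a, F b a * conj (F b' a) := by
      apply Finset.sum_congr rfl
      intro a _
      rw [Matrix.conjTranspose_apply, Complex.star_def]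
    have h3 : (∑ c, R b c * conj (R c b')) = ∑ c, R b c * conj (R b' c) := by
      apply Finset.sum_congr rfl
      intro c _
      rw [show R c b' = R b' c from congrFun (congrFun hR b') c]
    rw [h2, h3]
    have h4 : ((R b b').im : ℂ) = (R b b' - conj (R b b')) / (2 * Complex.I) := by
      rw [Complex.sub_conj]
      push_cast
      field_simp
    rw [h4] at h1
    have hI : (2 * Complex.I : ℂ) ≠ 0 := by simp
    have h5 : (R b b' - conj (R b b')) / (2 * Complex.I) =
        -(Complex.I / 2) * (R b b' - conj (R b b')) := by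
      rw [div_eq_iff hI]
      ring_nf
      rw [Complex.I_sq]
      ring
    rw [h5] at h1
    linear_combination (η : ℂ) * h1
  have hDT : Dᵀ = D := by
    rw [hDd, Matrix.transpose_smul, Matrix.transpose_add, hKT]
    congr 2
    rw [hKH, Matrix.transpose_sub, Matrix.transpose_one, Matrix.transpose_smul]
    congr 2
    ext b b'
    rw [Matrix.transpose_apply, hRH, hRH, show R b' b = R b b' from congrFun (congrFun hR b) b']
  have hKHT : (Kᴴ)ᵀ = Kᴴ := by
    have : (Kᴴ)ᵀ = (Kᵀ)ᴴ := by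
      ext b b'
      simp [Matrix.conjTranspose_apply, Matrix.transpose_apply]
    rw [this, hKT]
  have hWW' : (Wᵀ)ᴴ * Wᵀ = D - Kᴴ * K := by
    have h1 := congrArg Matrix.transpose hWW
    rw [Matrix.transpose_mul, Matrix.transpose_sub, Matrix.transpose_mul, hDT, hKT, hKHT] at h1
    rw [← h1]
    congr 1
  have hKi : K * K⁻¹ = 1 := Matrix.mul_nonsing_inv K hK
  have hiK : K⁻¹ * K = 1 := Matrix.nonsing_inv_mul K hK
  have hKHi : (K⁻¹)ᴴ * Kᴴ = 1 := by
    rw [← Matrix.conjTranspose_mul, hKi, Matrix.conjTranspose_one]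
  have hKHi' : Kᴴ * (K⁻¹)ᴴ = 1 := by
    rw [← Matrix.conjTranspose_mul, hiK, Matrix.conjTranspose_one]
  -- `D` is positive
  have hDpos : D.PosSemidef := by
    have : D = K * Kᴴ + W * Wᴴ := by rw [hWW]; abel
    rw [this]
    exact (Matrix.posSemidef_self_mul_conjTranspose K).add
      (Matrix.posSemidef_self_mul_conjTranspose W)
  obtain ⟨C, hC0⟩ := CStarAlgebra.nonneg_iff_eq_star_mul_self.mp hDpos.nonneg
  have hC : D = Cᴴ * C := by rw [hC0, Matrix.star_eq_conjTranspose]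
  set N : Matrix β β ℂ := C * K⁻¹ * Cᴴ with hN
  have hNN : (2 : ℂ) • (Nᴴ * N) = N + Nᴴ := by
    have h1 : Nᴴ = C * (K⁻¹)ᴴ * Cᴴ := by
      rw [hN, Matrix.conjTranspose_mul, Matrix.conjTranspose_mul, Matrix.conjTranspose_conjTranspose,
        Matrix.mul_assoc]
    have h2 : Nᴴ * N = C * ((K⁻¹)ᴴ * D * K⁻¹) * Cᴴ := by
      rw [h1, hN, hC]
      simp only [Matrix.mul_assoc]
    have h3 : (2 : ℂ) • ((K⁻¹)ᴴ * D * K⁻¹) = (K⁻¹)ᴴ + K⁻¹ := by
      rw [hDd, Matrix.mul_smul, Matrix.smul_mul, smul_smul]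
      norm_num
      rw [Matrix.mul_add, Matrix.add_mul, hKHi, Matrix.mul_assoc, hKi, Matrix.mul_one,
        Matrix.one_mul]
    rw [h2]
    have h4 : ∀ Z : Matrix β β ℂ, (2 : ℂ) • (C * Z * Cᴴ) = C * ((2 : ℂ) • Z) * Cᴴ := by
      intro Z
      rw [Matrix.mul_smul, Matrix.smul_mul]
    rw [h4, h3, Matrix.mul_add, Matrix.add_mul, ← hN, ← h1]
    abel
  have hcol := col_le hNN
  -- the trace formula
  set Y : Matrix α α ℂ := Wᵀ * K⁻¹ * W with hY
  have htr : (Y * Yᴴ).trace = (N * Nᴴ).trace - 2 * D.trace + (K * Kᴴ).trace := by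
    have hYH : Yᴴ = Wᴴ * (K⁻¹)ᴴ * (Wᵀ)ᴴ := by
      rw [hY, Matrix.conjTranspose_mul, Matrix.conjTranspose_mul, Matrix.mul_assoc]
    have h1 : (Y * Yᴴ).trace = ((K⁻¹ * (W * Wᴴ) * (K⁻¹)ᴴ) * ((Wᵀ)ᴴ * Wᵀ)).trace := by
      rw [hYH, hY]
      have : Wᵀ * K⁻¹ * W * (Wᴴ * (K⁻¹)ᴴ * (Wᵀ)ᴴ) =
          Wᵀ * (K⁻¹ * (W * Wᴴ) * (K⁻¹)ᴴ * (Wᵀ)ᴴ) := by
        simp only [Matrix.mul_assoc]
      rw [this, Matrix.trace_mul_comm]
      simp only [Matrix.mul_assoc]
    have h2 : K⁻¹ * (W * Wᴴ) * (K⁻¹)ᴴ = K⁻¹ * D * (K⁻¹)ᴴ - 1 := by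
      rw [hWW, Matrix.mul_sub, Matrix.sub_mul]
      congr 1
      rw [← Matrix.mul_assoc K⁻¹ K, hiK, Matrix.one_mul, hKHi']
    have h3 : (K⁻¹ * D * (K⁻¹)ᴴ - 1) * (D - Kᴴ * K) =
        K⁻¹ * D * (K⁻¹)ᴴ * D - K⁻¹ * D * K - D + Kᴴ * K := by
      rw [Matrix.sub_mul, Matrix.mul_sub, Matrix.one_mul]
      have : K⁻¹ * D * (K⁻¹)ᴴ * (Kᴴ * K) = K⁻¹ * D * K := by
        rw [← Matrix.mul_assoc, Matrix.mul_assoc (K⁻¹ * D), hKHi, Matrix.mul_one]
      rw [this]
      abel
    rw [h1, hWW', h2, h3, Matrix.trace_add, Matrix.trace_sub, Matrix.trace_sub]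
    have h4 : (K⁻¹ * D * K).trace = D.trace := by
      rw [Matrix.trace_mul_comm, ← Matrix.mul_assoc, hKi, Matrix.one_mul]
    have h5 : (Kᴴ * K).trace = (K * Kᴴ).trace := Matrix.trace_mul_comm _ _
    have h6 : (K⁻¹ * D * (K⁻¹)ᴴ * D).trace = (N * Nᴴ).trace := by
      have h7 : Nᴴ = C * (K⁻¹)ᴴ * Cᴴ := by
        rw [hN, Matrix.conjTranspose_mul, Matrix.conjTranspose_mul,
          Matrix.conjTranspose_conjTranspose, Matrix.mul_assoc]
      rw [h7, hN]
      have : C * K⁻¹ * Cᴴ * (C * (K⁻¹)ᴴ * Cᴴ) = C * (K⁻¹ * (Cᴴ * C) * (K⁻¹)ᴴ * Cᴴ) := by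
        simp only [Matrix.mul_assoc]
      rw [this, Matrix.trace_mul_comm C, ← hC]
      have : K⁻¹ * D * (K⁻¹)ᴴ * Cᴴ * C = K⁻¹ * D * (K⁻¹)ᴴ * (Cᴴ * C) := by
        simp only [Matrix.mul_assoc]
      rw [this, ← hC]
    rw [h4, h5, h6]
    ring
  -- real numbers
  have r1 := hs_trace Y
  have r2 := hs_trace N
  have r3 := hs_trace K
  rw [← r2, ← r3] at htr
  rw [htr] at r1
  have hDtr : D.trace = (((Fintype.card β : ℝ) - η * ∑ b, (R b b).im : ℝ) : ℂ) := by
    rw [Matrix.trace]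
    push_cast
    rw [Finset.mul_sum]
    have : (Fintype.card β : ℂ) = ∑ _b : β, (1 : ℂ) := by simp
    rw [this, ← Finset.sum_sub_distrib]
    apply Finset.sum_congr rfl
    intro b _
    rw [Matrix.diag_apply, hDd, hKH, hKd]
    simp only [Matrix.smul_apply, Matrix.add_apply, Matrix.sub_apply, smul_eq_mul,
      Matrix.one_apply_eq, hRH]
    have h4 : ((R b b).im : ℂ) = (R b b - conj (R b b)) / (2 * Complex.I) := by
      rw [Complex.sub_conj]
      push_cast
      field_simp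
    have hI : (2 * Complex.I : ℂ) ≠ 0 := by simp
    have h5 : (R b b - conj (R b b)) / (2 * Complex.I) =
        -(Complex.I / 2) * (R b b - conj (R b b)) := by
      rw [div_eq_iff hI]
      ring_nf
      rw [Complex.I_sq]
      ring
    rw [h4, h5]
    ring
  have hKsum : (∑ b, ∑ b', ‖K b b'‖ ^ 2) =
      (Fintype.card β : ℝ) - 2 * η * (∑ b, (R b b).im) + η ^ 2 * ∑ b, ∑ b', ‖R b b'‖ ^ 2 := by
    have h1 : ∀ b b', ‖K b b'‖ ^ 2 = (if b = b' then 1 - 2 * η * (R b b).im else 0) +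
        η ^ 2 * ‖R b b'‖ ^ 2 := by
      intro b b'
      rw [hKd, Matrix.add_apply, Matrix.smul_apply, smul_eq_mul, ← Complex.normSq_eq_norm_sq,
        ← Complex.normSq_eq_norm_sq, Complex.normSq_apply, Complex.normSq_apply]
      by_cases h : b = b'
      · subst h
        simp
        ring
      · simp [h]
        ring
    simp only [h1, Finset.sum_add_distrib, Finset.sum_ite_eq, Finset.mem_univ, if_true,
      Finset.sum_sub_distrib]
    rw [Finset.mul_sum, Finset.mul_sum]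
    simp only [Finset.mul_sum]
    simp
  rw [hDtr] at r1
  have r4 : (∑ x, ∑ y, ‖Y x y‖ ^ 2) = (∑ i, ∑ j, ‖N i j‖ ^ 2) -
      2 * ((Fintype.card β : ℝ) - η * ∑ b, (R b b).im) + ∑ b, ∑ b', ‖K b b'‖ ^ 2 := by
    exact_mod_cast r1
  have r5 : (∑ x, ∑ y, ‖Y x y‖ ^ 2) ≤ η ^ 2 * ∑ b, ∑ b', ‖R b b'‖ ^ 2 := by
    rw [r4, hKsum]
    linarith only [hcol]
  have r6 : ∀ x y, ‖Y x y‖ ^ 2 = η ^ 2 * ‖((η : ℂ) • (Fᵀ * K⁻¹ * F)) x y‖ ^ 2 := by
    intro x y
    have : Y = (η : ℂ) • ((η : ℂ) • (Fᵀ * K⁻¹ * F)) := by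
      rw [hY, hWd, Matrix.transpose_smul, Matrix.smul_mul, Matrix.smul_mul, Matrix.mul_smul]
    rw [this, Matrix.smul_apply, smul_eq_mul, norm_mul, mul_pow, Complex.norm_real,
      Real.norm_eq_abs, sq_abs]
  simp only [r6] at r5
  simp only [← Finset.mul_sum] at r5
  exact le_of_mul_le_mul_left r5 (by positivity)

end Pool.Agent.HSL14
end
end -- Pool.Agent.Helper14_HSL.HSL

section -- Pool.Agent.Helper14_HSL.HSC

/-!
# Absorption removed from a network: the Hilbert-Schmidt bound and the counting bound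

`G = (H - iκ)⁻¹`, `G' = (H - iκ')⁻¹`, `0 ≤ κ' ≤ κ` (`κ'` may vanish where `G'` exists):
`∑ κ'_x κ'_y |G_xy - G'_xy|² ≤ ∑ (κ_x - κ'_x) (κ_y - κ'_y) |G_xy|² ≤ ∑ (κ_b - κ'_b) Im G_bb`.
-/

set_option autoImplicit false

open scoped BigOperators Matrix ComplexConjugate

noncomputable section

namespace Pool.Agent.HSL14

open Pool.Agent.ANR

variable {X : Type} [Fintype X] [DecidableEq X]

/-- `H - i κ` -/
def mat (H : Matrix X X ℝ) (κ : X → ℝ) : Matrix X X ℂ :=
  H.map (fun t : ℝ => (t : ℂ)) - Matrix.diagonal fun x => Complex.I * (κ x : ℂ)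

theorem gr_eq (H : Matrix X X ℝ) (κ : X → ℝ) : Gr H κ = (mat H κ)⁻¹ := rfl

omit [Fintype X] in
theorem mat_transpose {H : Matrix X X ℝ} (hH : ∀ x y, H x y = H y x) (κ : X → ℝ) :
    (mat H κ)ᵀ = mat H κ := by
  ext x y
  rw [Matrix.transpose_apply, mat, Matrix.sub_apply, Matrix.sub_apply, Matrix.map_apply,
    Matrix.map_apply, hH y x]
  congr 1
  by_cases h : x = y
  · subst h; rfl
  · rw [Matrix.diagonal_apply_ne _ (Ne.symm h), Matrix.diagonal_apply_ne _ h]

theorem gr_sym {H : Matrix X X ℝ} (hH : ∀ x y, H x y = H y x) (κ : X → ℝ) (x y : X) :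
    Gr H κ x y = Gr H κ y x := by
  have : (Gr H κ)ᵀ = Gr H κ := by
    rw [gr_eq, Matrix.transpose_nonsing_inv, mat_transpose hH]
  exact congrFun (congrFun this y) x

/-- `H - i κ` is invertible for `κ > 0` -/
theorem mat_unit {H : Matrix X X ℝ} {κ : X → ℝ} (h : Net H κ) : IsUnit (mat H κ).det := by
  rw [isUnit_iff_ne_zero]
  intro h0
  obtain ⟨v, hv, hv0⟩ := Matrix.exists_mulVec_eq_zero_iff.mpr h0
  apply hv
  -- `im ⟨v, M v⟩ = - ∑ κ |v|²`
  have h1 : (∑ x, conj (v x) * (mat H κ *ᵥ v) x) = 0 := by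
    rw [hv0]; simp
  have h2 : ∀ x, (mat H κ *ᵥ v) x = (∑ y, (H x y : ℂ) * v y) - Complex.I * (κ x : ℂ) * v x := by
    intro x
    rw [mat, Matrix.sub_mulVec, Pi.sub_apply, Matrix.mulVec_diagonal]
    congr 1
  have h3 : (∑ x, conj (v x) * (mat H κ *ᵥ v) x) =
      (∑ x, ∑ y, (H x y : ℂ) * (conj (v x) * v y)) -
        Complex.I * ((∑ x, κ x * ‖v x‖ ^ 2 : ℝ) : ℂ) := by
    push_cast
    rw [Finset.mul_sum, ← Finset.sum_sub_distrib]
    apply Finset.sum_congr rfl
    intro x _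
    rw [h2 x, mul_sub, Finset.mul_sum]
    congr 1
    · apply Finset.sum_congr rfl
      intro y _
      ring
    · have : conj (v x) * v x = ((‖v x‖ : ℂ)) ^ 2 := by
        rw [mul_comm, Complex.mul_conj, Complex.normSq_eq_norm_sq]
        push_cast
        rfl
      linear_combination (Complex.I * (κ x : ℂ)) * this
  have h4 : conj (∑ x, ∑ y, (H x y : ℂ) * (conj (v x) * v y)) =
      ∑ x, ∑ y, (H x y : ℂ) * (conj (v x) * v y) := by
    rw [map_sum]
    simp only [map_sum, map_mul, Complex.conj_ofReal, Complex.conj_conj]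
    rw [Finset.sum_comm]
    apply Finset.sum_congr rfl
    intro x _
    apply Finset.sum_congr rfl
    intro y _
    rw [h.sym y x]
    ring
  have h5 : (∑ x, ∑ y, (H x y : ℂ) * (conj (v x) * v y)).im = 0 := Complex.conj_eq_iff_im.mp h4
  have h6 := congrArg Complex.im (h3.symm.trans h1)
  rw [Complex.sub_im, h5, Complex.mul_im, Complex.I_re, Complex.I_im, Complex.ofReal_re,
    Complex.ofReal_im] at h6
  have h7 : (∑ x, κ x * ‖v x‖ ^ 2) = 0 := by
    simp only [Complex.zero_im] at h6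
    linarith only [h6]
  have h8 : ∀ x ∈ Finset.univ, 0 ≤ κ x * ‖v x‖ ^ 2 := fun x _ =>
    mul_nonneg (h.pos x).le (by positivity)
  have h9 := (Finset.sum_eq_zero_iff_of_nonneg h8).mp h7
  funext x
  have h10 := h9 x (Finset.mem_univ x)
  have h11 : ‖v x‖ ^ 2 = 0 := by
    rcases mul_eq_zero.mp h10 with h' | h'
    · exact absurd h' (h.pos x).ne'
    · exact h'
  have h12 : ‖v x‖ = 0 := by simpa using h11
  simpa using h12

/-- Ward identity -/
theorem ward {H : Matrix X X ℝ} {κ : X → ℝ} (hH : ∀ x y, H x y = H y x)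
    (hU : IsUnit (mat H κ).det) (x z : X) :
    (∑ y, (κ y : ℂ) * (Gr H κ x y * conj (Gr H κ z y))) = ((Gr H κ x z).im : ℂ) := by
  set M := mat H κ with hM
  set G := Gr H κ with hG
  have hGM : G * M = 1 := by rw [hG, gr_eq]; exact Matrix.nonsing_inv_mul _ hU
  have hMG : M * G = 1 := by rw [hG, gr_eq]; exact Matrix.mul_nonsing_inv _ hU
  have hMG' : Mᴴ * Gᴴ = 1 := by
    rw [← Matrix.conjTranspose_mul, hGM, Matrix.conjTranspose_one]
  have hMM : Mᴴ - M = Matrix.diagonal fun x => 2 * Complex.I * (κ x : ℂ) := by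
    ext a b
    rw [Matrix.sub_apply, Matrix.conjTranspose_apply, hM, mat, Matrix.sub_apply, Matrix.sub_apply,
      Matrix.map_apply, Matrix.map_apply, hH b a]
    by_cases h : a = b
    · subst h
      rw [Matrix.diagonal_apply_eq, Matrix.diagonal_apply_eq]
      simp
      ring
    · rw [Matrix.diagonal_apply_ne _ h, Matrix.diagonal_apply_ne _ h,
        Matrix.diagonal_apply_ne _ (Ne.symm h)]
      simp
  have hGG : G - Gᴴ = G * (Mᴴ - M) * Gᴴ := by
    rw [Matrix.mul_sub, Matrix.sub_mul, hGM, Matrix.one_mul, Matrix.mul_assoc, hMG',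
      Matrix.mul_one]
  have h1 := congrFun (congrFun hGG x) z
  rw [hMM, Matrix.sub_apply, Matrix.conjTranspose_apply, Matrix.mul_apply] at h1
  have h2 : ∀ y, (G * Matrix.diagonal fun x => 2 * Complex.I * (κ x : ℂ)) x y * Gᴴ y z =
      2 * Complex.I * ((κ y : ℂ) * (G x y * conj (G z y))) := by
    intro y
    rw [Matrix.mul_diagonal, Matrix.conjTranspose_apply, Complex.star_def]
    ring
  simp only [h2] at h1
  have hs : G z x = G x z := gr_sym hH κ z x
  rw [← Finset.mul_sum, Complex.star_def, hs, Complex.sub_conj] at h1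
  have hI : (2 * Complex.I : ℂ) ≠ 0 := by simp
  apply mul_left_cancel₀ hI
  rw [← h1]
  push_cast
  ring

/-- Ward identity on the diagonal -/
theorem ward_diag {H : Matrix X X ℝ} {κ : X → ℝ} (hH : ∀ x y, H x y = H y x)
    (hU : IsUnit (mat H κ).det) (x : X) :
    (∑ y, κ y * ‖Gr H κ x y‖ ^ 2) = (Gr H κ x x).im := by
  have h := ward hH hU x x
  have h2 : (∑ y, (κ y : ℂ) * (Gr H κ x y * conj (Gr H κ x y))) =
      ((∑ y, κ y * ‖Gr H κ x y‖ ^ 2 : ℝ) : ℂ) := by
    push_cast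
    apply Finset.sum_congr rfl
    intro y _
    rw [Complex.mul_conj, Complex.normSq_eq_norm_sq]
    push_cast
    rfl
  rw [h2] at h
  exact_mod_cast h

/-- THE BOUND, for any two absorptions `0 ≤ κ' ≤ κ` such that both Green functions exist. -/
theorem hsl_gen {H : Matrix X X ℝ} {κ κ' : X → ℝ} (hH : ∀ x y, H x y = H y x)
    (h0 : ∀ x, 0 ≤ κ' x) (hle : ∀ x, κ' x ≤ κ x) (hU : IsUnit (mat H κ).det)
    (hU' : IsUnit (mat H κ').det) :
    (∑ x, ∑ y, κ' x * κ' y * ‖Gr H κ x y - Gr H κ' x y‖ ^ 2) ≤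
      ∑ b, ∑ b', (κ b - κ' b) * (κ b' - κ' b') * ‖Gr H κ b b'‖ ^ 2 := by
  set G := Gr H κ with hG
  set G' := Gr H κ' with hG'
  set M := mat H κ with hM
  set M' := mat H κ' with hM'
  set s : X → ℝ := fun x => Real.sqrt (κ x - κ' x) with hs
  set t : X → ℝ := fun x => Real.sqrt (κ' x) with ht
  have hss : ∀ x, (s x : ℂ) * (s x : ℂ) = (κ x : ℂ) - (κ' x : ℂ) := by
    intro x
    rw [← Complex.ofReal_mul, Real.mul_self_sqrt (by have := hle x; linarith)]
    push_cast
    ring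
  have hss' : ∀ x, s x * s x = κ x - κ' x := fun x =>
    Real.mul_self_sqrt (by have := hle x; linarith)
  have htt' : ∀ x, t x * t x = κ' x := fun x => Real.mul_self_sqrt (h0 x)
  have htt : ∀ x, (t x : ℂ) * (t x : ℂ) = (κ' x : ℂ) := by
    intro x
    rw [← Complex.ofReal_mul, htt' x]
  set S : Matrix X X ℂ := Matrix.diagonal fun x => (s x : ℂ) with hS
  set T : Matrix X X ℂ := Matrix.diagonal fun x => (t x : ℂ) with hT
  have hGM : G * M = 1 := by rw [hG, gr_eq]; exact Matrix.nonsing_inv_mul _ hU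
  have hMG : M * G = 1 := by rw [hG, gr_eq]; exact Matrix.mul_nonsing_inv _ hU
  have hGM' : G' * M' = 1 := by rw [hG', gr_eq]; exact Matrix.nonsing_inv_mul _ hU'
  have hMM : M' = M + Complex.I • (S * S) := by
    rw [hM', hM, mat, mat, hS, Matrix.diagonal_mul_diagonal]
    ext a b
    rw [Matrix.sub_apply, Matrix.add_apply, Matrix.sub_apply, Matrix.smul_apply]
    by_cases h : a = b
    · subst h
      rw [Matrix.diagonal_apply_eq, Matrix.diagonal_apply_eq, Matrix.diagonal_apply_eq, hss,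
        smul_eq_mul]
      ring
    · rw [Matrix.diagonal_apply_ne _ h, Matrix.diagonal_apply_ne _ h,
        Matrix.diagonal_apply_ne _ h]
      simp
  set F : Matrix X X ℂ := S * G * T with hF
  set R : Matrix X X ℂ := S * G * S with hR
  have hGT : Gᵀ = G := by
    ext a b
    exact gr_sym hH κ b a
  have hRT : Rᵀ = R := by
    rw [hR, Matrix.transpose_mul, Matrix.transpose_mul, hGT, hS, Matrix.diagonal_transpose,
      Matrix.mul_assoc]
  have hFT : Fᵀ = T * G * S := by
    rw [hF, Matrix.transpose_mul, Matrix.transpose_mul, hGT, hS, hT, Matrix.diagonal_transpose,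
      Matrix.diagonal_transpose, Matrix.mul_assoc]
  have hFa : ∀ a b, F a b = (s a : ℂ) * G a b * (t b : ℂ) := by
    intro a b
    rw [hF, hT, Matrix.mul_diagonal, hS, Matrix.diagonal_mul]
  have hRa : ∀ a b, R a b = (s a : ℂ) * G a b * (s b : ℂ) := by
    intro a b
    rw [hR, hS, Matrix.mul_diagonal, Matrix.diagonal_mul]
  -- `K` is invertible
  have hK : IsUnit (1 + (((1 : ℝ) : ℂ) * Complex.I : ℂ) • R).det := by
    have e1 : (1 + (((1 : ℝ) : ℂ) * Complex.I : ℂ) • R) = 1 + S * (Complex.I • (G * S)) := by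
      rw [hR, Matrix.mul_smul, Matrix.mul_assoc]
      norm_num
    rw [e1, Matrix.det_one_add_mul_comm]
    have e2 : 1 + (Complex.I • (G * S)) * S = G * M' := by
      rw [hMM, Matrix.mul_add, hGM, Matrix.smul_mul, Matrix.mul_smul, Matrix.mul_assoc]
    rw [e2, Matrix.det_mul]
    have e3 : IsUnit G.det := by
      have := congrArg Matrix.det hGM
      rw [Matrix.det_mul, Matrix.det_one] at this
      exact IsUnit.of_mul_eq_one _ this
    exact e3.mul hU'
  -- Ward
  have hW : ∀ b b', ((1 : ℝ) : ℂ) * ((∑ a, F b a * conj (F b' a)) + ∑ c, R b c * conj (R b' c)) =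
      ((R b b').im : ℂ) := by
    intro b b'
    rw [Complex.ofReal_one, one_mul, ← Finset.sum_add_distrib]
    have e1 : ∀ a, F b a * conj (F b' a) + R b a * conj (R b' a) =
        (s b : ℂ) * (s b' : ℂ) * ((κ a : ℂ) * (G b a * conj (G b' a))) := by
      intro a
      rw [hFa, hFa, hRa, hRa]
      simp only [map_mul, Complex.conj_ofReal]
      linear_combination ((s b : ℂ) * (s b' : ℂ) * (G b a * conj (G b' a))) * (hss a) +
        ((s b : ℂ) * (s b' : ℂ) * (G b a * conj (G b' a))) * (htt a)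
    simp only [e1]
    rw [← Finset.mul_sum]
    have e2 := ward hH hU b b'
    rw [e2, hRa]
    have e3 : ((s b : ℂ) * G b b' * (s b' : ℂ)).im = s b * s b' * (G b b').im := by
      rw [Complex.mul_im, Complex.ofReal_im, Complex.ofReal_re, mul_zero, zero_add,
        Complex.im_ofReal_mul]
      ring
    rw [e3]
    push_cast
    ring
  have key := hsl (F := F) (R := R) (η := 1) one_pos hRT hW hK
  set K : Matrix X X ℂ := 1 + (((1 : ℝ) : ℂ) * Complex.I : ℂ) • R with hKd
  have hKi : K * K⁻¹ = 1 := Matrix.mul_nonsing_inv K hK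
  -- the difference
  have hZ : G' = G - Complex.I • (G * S * K⁻¹ * S * G) := by
    have e1 : M' * (G - Complex.I • (G * S * K⁻¹ * S * G)) = 1 := by
      have e2 : Complex.I • K⁻¹ = Complex.I • (1 : Matrix X X ℂ) + R * K⁻¹ := by
        have e3 : K⁻¹ + Complex.I • (R * K⁻¹) = 1 := by
          rw [← hKi]
          nth_rewrite 3 [hKd]
          rw [Matrix.add_mul, Matrix.one_mul, Matrix.smul_mul]
          norm_num
        rw [← e3, smul_add, smul_smul, Complex.I_mul_I]
        simp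
      have e4 : Complex.I • (S * K⁻¹ * S * G) = Complex.I • (S * S * G) + S * R * K⁻¹ * S * G := by
        have e5 : Complex.I • (S * K⁻¹ * S * G) = S * (Complex.I • K⁻¹) * S * G := by
          rw [Matrix.mul_smul, Matrix.smul_mul, Matrix.smul_mul]
        rw [e5, e2, Matrix.mul_add, Matrix.add_mul, Matrix.add_mul, Matrix.mul_smul,
          Matrix.smul_mul, Matrix.smul_mul, Matrix.mul_one, Matrix.mul_assoc S R]
      rw [hMM, Matrix.add_mul, Matrix.mul_sub, Matrix.mul_sub, hMG, Matrix.mul_smul,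
        Matrix.smul_mul, Matrix.smul_mul, Matrix.mul_smul, smul_smul, Complex.I_mul_I]
      have e6 : M * (G * S * K⁻¹ * S * G) = S * K⁻¹ * S * G := by
        rw [← Matrix.mul_assoc, ← Matrix.mul_assoc, ← Matrix.mul_assoc, ← Matrix.mul_assoc, hMG,
          Matrix.one_mul]
      have e7 : S * S * (G * S * K⁻¹ * S * G) = S * R * K⁻¹ * S * G := by
        rw [hR]
        simp only [Matrix.mul_assoc]
      rw [e6, e7, e4]
      simp
    calc G' = G' * (M' * (G - Complex.I • (G * S * K⁻¹ * S * G))) := by rw [e1, Matrix.mul_one]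
      _ = _ := by rw [← Matrix.mul_assoc, hGM', Matrix.one_mul]
  have hD : ∀ x y, (t x : ℂ) * (G x y - G' x y) * (t y : ℂ) =
      Complex.I * (((1 : ℝ) : ℂ) • (Fᵀ * K⁻¹ * F)) x y := by
    intro x y
    have e1 : Fᵀ * K⁻¹ * F = T * (G * S * K⁻¹ * S * G) * T := by
      rw [hFT, hF]
      simp only [Matrix.mul_assoc]
    rw [Matrix.smul_apply, Complex.ofReal_one, one_smul, e1, hT, Matrix.mul_diagonal,
      Matrix.diagonal_mul, hZ, Matrix.sub_apply, Matrix.smul_apply, smul_eq_mul]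
    ring
  have hL : ∀ x y, κ' x * κ' y * ‖G x y - G' x y‖ ^ 2 =
      ‖(((1 : ℝ) : ℂ) • (Fᵀ * K⁻¹ * F)) x y‖ ^ 2 := by
    intro x y
    have e1 := congrArg (fun z : ℂ => ‖z‖ ^ 2) (hD x y)
    simp only [norm_mul, mul_pow, Complex.norm_real, Real.norm_eq_abs, sq_abs, Complex.norm_I,
      one_mul] at e1
    rw [← e1, ← htt' x, ← htt' y]
    ring
  have hRt : ∀ x y, ‖R x y‖ ^ 2 = (κ x - κ' x) * (κ y - κ' y) * ‖G x y‖ ^ 2 := by
    intro x y
    rw [hRa, norm_mul, norm_mul, Complex.norm_real, Complex.norm_real, Real.norm_eq_abs,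
      Real.norm_eq_abs, mul_pow, mul_pow, sq_abs, sq_abs, ← hss' x, ← hss' y]
    ring
  simp only [hL, ← hRt]
  exact key

/-- The right side is at most the absorption which is removed. -/
theorem hsl_flux {H : Matrix X X ℝ} {κ κ' : X → ℝ} (hH : ∀ x y, H x y = H y x)
    (h0 : ∀ x, 0 ≤ κ' x) (hle : ∀ x, κ' x ≤ κ x) (hU : IsUnit (mat H κ).det) :
    (∑ b, ∑ b', (κ b - κ' b) * (κ b' - κ' b') * ‖Gr H κ b b'‖ ^ 2) ≤
      ∑ b, (κ b - κ' b) * (Gr H κ b b).im := by
  apply Finset.sum_le_sum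
  intro b _
  rw [← ward_diag hH hU b, Finset.mul_sum]
  apply Finset.sum_le_sum
  intro c _
  have h1 : 0 ≤ κ b - κ' b := by have := hle b; linarith
  have h2 : κ c - κ' c ≤ κ c := by have := h0 c; linarith
  rw [mul_assoc]
  exact mul_le_mul_of_nonneg_left (mul_le_mul_of_nonneg_right h2 (by positivity)) h1

/-- THE COUNTING BOUND: few sites (measured by `κ'`) are good for `G'` and bad for `G`. -/
theorem hsc {H : Matrix X X ℝ} {κ κ' : X → ℝ} (hH : ∀ x y, H x y = H y x)
    (h0 : ∀ x, 0 ≤ κ' x) (hle : ∀ x, κ' x ≤ κ x) (hU : IsUnit (mat H κ).det)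
    (hU' : IsUnit (mat H κ').det) {c : ℝ} (hc : 0 < c) (B : Finset X)
    (hB : ∀ x ∈ B, 2 * c ≤ (Gr H κ' x x).im ∧ (Gr H κ x x).im < c / 2) :
    (∑ x ∈ B, κ' x) ≤ (2 / c) * ∑ b, (κ b - κ' b) * (Gr H κ b b).im := by
  set q : X → ℝ := fun x => ∑ y, κ' y * ‖Gr H κ x y - Gr H κ' x y‖ ^ 2 with hq
  have hq0 : ∀ x, 0 ≤ q x := fun x =>
    Finset.sum_nonneg fun y _ => mul_nonneg (h0 y) (by positivity)
  have hqB : ∀ x ∈ B, c / 2 ≤ q x := by
    intro x hx
    obtain ⟨h1, h2⟩ := hB x hx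
    rw [← ward_diag hH hU' x] at h1
    rw [← ward_diag hH hU x] at h2
    by_contra h3
    push Not at h3
    have h4 : (∑ y, κ' y * ‖Gr H κ' x y‖ ^ 2) ≤
        2 * (∑ y, κ y * ‖Gr H κ x y‖ ^ 2) + 2 * q x := by
      rw [hq, Finset.mul_sum, Finset.mul_sum, ← Finset.sum_add_distrib]
      apply Finset.sum_le_sum
      intro y _
      have h5 : ‖Gr H κ' x y‖ ≤ ‖Gr H κ x y‖ + ‖Gr H κ x y - Gr H κ' x y‖ := by
        have := norm_sub_le (Gr H κ x y) (Gr H κ x y - Gr H κ' x y)
        rwa [sub_sub_cancel] at this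
      have h6 : ‖Gr H κ' x y‖ ^ 2 ≤ 2 * ‖Gr H κ x y‖ ^ 2 + 2 * ‖Gr H κ x y - Gr H κ' x y‖ ^ 2 := by
        have h7 := norm_nonneg (Gr H κ' x y)
        nlinarith only [sq_nonneg (‖Gr H κ x y‖ - ‖Gr H κ x y - Gr H κ' x y‖), h5, h7]
      have h8 := mul_le_mul_of_nonneg_left h6 (h0 y)
      have h9 : κ' y * ‖Gr H κ x y‖ ^ 2 ≤ κ y * ‖Gr H κ x y‖ ^ 2 :=
        mul_le_mul_of_nonneg_right (hle y) (by positivity)
      nlinarith only [h8, h9]
    linarith
  have h1 : (∑ x ∈ B, κ' x * (c / 2)) ≤ ∑ x, κ' x * q x := by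
    calc (∑ x ∈ B, κ' x * (c / 2)) ≤ ∑ x ∈ B, κ' x * q x :=
          Finset.sum_le_sum fun x hx => mul_le_mul_of_nonneg_left (hqB x hx) (h0 x)
      _ ≤ ∑ x, κ' x * q x :=
          Finset.sum_le_sum_of_subset_of_nonneg (Finset.subset_univ B)
            fun x _ _ => mul_nonneg (h0 x) (hq0 x)
  have h2 : (∑ x, κ' x * q x) = ∑ x, ∑ y, κ' x * κ' y * ‖Gr H κ x y - Gr H κ' x y‖ ^ 2 := by
    apply Finset.sum_congr rfl
    intro x _
    rw [hq, Finset.mul_sum]
    apply Finset.sum_congr rfl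
    intro y _
    ring
  have h3 := (hsl_gen hH h0 hle hU hU').trans (hsl_flux hH h0 hle hU)
  rw [← h2] at h3
  rw [← Finset.sum_mul] at h1
  have h4 := h1.trans h3
  rw [div_mul_eq_mul_div, le_div_iff₀ hc]
  linarith only [h1, h3]

/-- HSL for networks. -/
theorem hsl_net {H : Matrix X X ℝ} {κ κ' : X → ℝ} (h : Net H κ') (hle : ∀ x, κ' x ≤ κ x) :
    (∑ x, ∑ y, κ' x * κ' y * ‖Gr H κ x y - Gr H κ' x y‖ ^ 2) ≤
      ∑ b, (κ b - κ' b) * (Gr H κ b b).im := by
  have hn : Net H κ := ⟨h.sym, fun x => (h.pos x).trans_le (hle x)⟩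
  exact (hsl_gen h.sym (fun x => (h.pos x).le) hle (mat_unit hn) (mat_unit h)).trans
    (hsl_flux h.sym (fun x => (h.pos x).le) hle (mat_unit hn))

/-- HSC for networks. -/
theorem hsc_net {H : Matrix X X ℝ} {κ κ' : X → ℝ} (h : Net H κ') (hle : ∀ x, κ' x ≤ κ x) {c : ℝ}
    (hc : 0 < c) (B : Finset X)
    (hB : ∀ x ∈ B, 2 * c ≤ (Gr H κ' x x).im ∧ (Gr H κ x x).im < c / 2) :
    (∑ x ∈ B, κ' x) ≤ (2 / c) * ∑ b, (κ b - κ' b) * (Gr H κ b b).im := by
  have hn : Net H κ := ⟨h.sym, fun x => (h.pos x).trans_le (hle x)⟩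
  exact hsc h.sym (fun x => (h.pos x).le) hle (mat_unit hn) (mat_unit h) hc B hB

/-- The case of the torus: `κ = η` everywhere, `κ' = η` off the dead set `D`, `κ' ≤ η` on `D`
(`κ' = 0` on `D` is allowed if the second Green function exists). -/
theorem hsc_card {H : Matrix X X ℝ} {η : ℝ} {κ' : X → ℝ} (hH : ∀ x y, H x y = H y x) (hη : 0 < η)
    (D : Finset X) (hA : ∀ x, x ∉ D → κ' x = η) (h0 : ∀ x, 0 ≤ κ' x) (hle : ∀ x, κ' x ≤ η)
    (hU' : IsUnit (mat H κ').det) {c : ℝ} (hc : 0 < c) (B : Finset X) (hBD : ∀ x ∈ B, x ∉ D)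
    (hB : ∀ x ∈ B, 2 * c ≤ (Gr H κ' x x).im ∧ (Gr H (fun _ => η) x x).im < c / 2) :
    (B.card : ℝ) ≤ (2 / c) * ∑ b ∈ D, (Gr H (fun _ => η) b b).im := by
  have hU : IsUnit (mat H fun _ => η).det := mat_unit ⟨hH, fun _ => hη⟩
  have h1 := hsc (κ := fun _ => η) hH h0 hle hU hU' hc B hB
  have h2 : (∑ x ∈ B, κ' x) = (B.card : ℝ) * η := by
    rw [Finset.sum_congr rfl fun x hx => hA x (hBD x hx), Finset.sum_const, nsmul_eq_mul]
  have h3 : ∀ b, 0 ≤ (Gr H (fun _ => η) b b).im := by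
    intro b
    rw [← ward_diag hH hU b]
    exact Finset.sum_nonneg fun y _ => mul_nonneg hη.le (by positivity)
  have h4 : (∑ b, (η - κ' b) * (Gr H (fun _ => η) b b).im) ≤
      η * ∑ b ∈ D, (Gr H (fun _ => η) b b).im := by
    rw [← Finset.sum_subset (Finset.subset_univ D), Finset.mul_sum]
    · apply Finset.sum_le_sum
      intro b _
      exact mul_le_mul_of_nonneg_right (by have := h0 b; linarith only [this]) (h3 b)
    · intro b _ hb
      rw [hA b hb, sub_self, zero_mul]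
  rw [h2] at h1
  have h5 : (B.card : ℝ) * η ≤ ((2 / c) * ∑ b ∈ D, (Gr H (fun _ => η) b b).im) * η := by
    calc (B.card : ℝ) * η ≤ _ := h1
      _ ≤ (2 / c) * (η * ∑ b ∈ D, (Gr H (fun _ => η) b b).im) :=
          mul_le_mul_of_nonneg_left h4 (by positivity)
      _ = _ := by ring
  exact le_of_mul_le_mul_right h5 hη

end Pool.Agent.HSL14
end
end -- Pool.Agent.Helper14_HSL.HSC

section -- Pool.Agent.Helper67_HSL.WGN

/-!
# Row WGN: the mean of `Im G_bb` over independent Gaussian potentials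

If the variance of the potential at `b` is at least `r₀` then the mean of `Im G_bb` is at most
`(π / (2 r₀))^(1/2)`, whatever the other variances (also `0`) and the means are.
-/

set_option autoImplicit false

open MeasureTheory ProbabilityTheory

open scoped BigOperators Matrix ComplexConjugate ENNReal NNReal

noncomputable section

namespace Pool.Agent.HSL67

open Pool.Agent.ANR Pool.Agent.HSL14
open Pool.Agent.ANP (gm)

/-- the Cauchy distribution -/
theorem lint_cauchy {b : ℝ} (hb : 0 < b) (a : ℝ) :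
    ∫⁻ s : ℝ, ENNReal.ofReal (b / ((s + a) ^ 2 + b ^ 2)) = ENNReal.ofReal Real.pi := by
  have h0 : ∀ s : ℝ, ENNReal.ofReal (b / ((s + a) ^ 2 + b ^ 2)) =
      (fun t : ℝ => ENNReal.ofReal (b / (t ^ 2 + b ^ 2))) (s + a) := fun _ => rfl
  have h1 : ∀ t : ℝ, b / (t ^ 2 + b ^ 2) = b⁻¹ * (1 + (b⁻¹ * t) ^ 2)⁻¹ := by
    intro t
    have : 0 < t ^ 2 + b ^ 2 := by positivity
    field_simp
    ring
  have hint : Integrable fun t : ℝ => b⁻¹ * (1 + (b⁻¹ * t) ^ 2)⁻¹ :=
    (integrable_inv_one_add_sq.comp_mul_left' (inv_ne_zero hb.ne')).const_mul _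
  have hval : ∫ t : ℝ, b⁻¹ * (1 + (b⁻¹ * t) ^ 2)⁻¹ = Real.pi := by
    rw [integral_const_mul, Measure.integral_comp_mul_left (fun t : ℝ => (1 + t ^ 2)⁻¹) b⁻¹,
      integral_univ_inv_one_add_sq, inv_inv, abs_of_pos hb, smul_eq_mul, ← mul_assoc,
      inv_mul_cancel₀ hb.ne', one_mul]
  rw [lintegral_congr h0, lintegral_add_right_eq_self (μ := volume)
    (fun t : ℝ => ENNReal.ofReal (b / (t ^ 2 + b ^ 2))) a]
  simp only [h1]
  rw [← ofReal_integral_eq_lintegral_ofReal hint (ae_of_all _ fun s => by positivity), hval]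

/-- a Gaussian mean is at most the Lebesgue integral times the maximum of the density -/
theorem lint_gauss_le (m : ℝ) {r : ℝ≥0} {r₀ : ℝ} (h0 : 0 < r₀) (hr : r₀ ≤ r) (f : ℝ → ℝ≥0∞) :
    ∫⁻ s, f s ∂(gaussianReal m r) ≤ ENNReal.ofReal ((Real.sqrt (2 * Real.pi * r₀))⁻¹) *
      ∫⁻ s, f s := by
  have hr0 : r ≠ 0 := by
    rintro rfl
    simp at hr
    linarith
  rw [gaussianReal_of_var_ne_zero m hr0]
  have hpdf : ∀ s, gaussianPDF m r s ≤ ENNReal.ofReal ((Real.sqrt (2 * Real.pi * r₀))⁻¹) := by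
    intro s
    rw [gaussianPDF]
    refine ENNReal.ofReal_le_ofReal ?_
    rw [gaussianPDFReal]
    have h1 : Real.exp (-(s - m) ^ 2 / (2 * r)) ≤ 1 := by
      rw [Real.exp_le_one_iff]
      refine div_nonpos_of_nonpos_of_nonneg (by nlinarith [sq_nonneg (s - m)]) (by positivity)
    have h2 : (Real.sqrt (2 * Real.pi * r))⁻¹ ≤ (Real.sqrt (2 * Real.pi * r₀))⁻¹ := by
      refine inv_anti₀ (Real.sqrt_pos.2 (by positivity)) (Real.sqrt_le_sqrt ?_)
      exact mul_le_mul_of_nonneg_left hr (by positivity)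
    calc (Real.sqrt (2 * Real.pi * r))⁻¹ * Real.exp (-(s - m) ^ 2 / (2 * r))
        ≤ (Real.sqrt (2 * Real.pi * r₀))⁻¹ * 1 :=
          mul_le_mul h2 h1 (Real.exp_pos _).le (by positivity)
      _ = _ := mul_one _
  calc ∫⁻ s, f s ∂(volume.withDensity (gaussianPDF m r))
      ≤ ∫⁻ s, (gaussianPDF m r * f) s := lintegral_withDensity_le_lintegral_mul _ (measurable_gaussianPDF m r) f
    _ ≤ ∫⁻ s, ENNReal.ofReal ((Real.sqrt (2 * Real.pi * r₀))⁻¹) * f s :=
        lintegral_mono fun s => mul_le_mul_left (hpdf s) (f s)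
    _ = _ := lintegral_const_mul' _ _ ENNReal.ofReal_ne_top

variable {X : Type} [Fintype X] [DecidableEq X]

/-- `H` plus a potential -/
def addV (H : Matrix X X ℝ) (V : X → ℝ) : Matrix X X ℝ := H + Matrix.diagonal V

omit [Fintype X] in
theorem addV_net {H : Matrix X X ℝ} {κ : X → ℝ} (h : Net H κ) (V : X → ℝ) :
    Net (addV H V) κ := by
  refine ⟨fun x y => ?_, h.pos⟩
  rw [addV, Matrix.add_apply, Matrix.add_apply, h.sym x y]
  congr 1
  by_cases hxy : x = y
  · subst hxy; rfl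
  · rw [Matrix.diagonal_apply_ne _ hxy, Matrix.diagonal_apply_ne _ (Ne.symm hxy)]

omit [Fintype X] in
theorem mat_addV_cont (H : Matrix X X ℝ) (κ : X → ℝ) :
    Continuous fun V : X → ℝ => mat (addV H V) κ := by
  refine continuous_matrix fun x y => ?_
  simp only [mat, addV, Matrix.sub_apply, Matrix.map_apply, Matrix.add_apply]
  refine Continuous.sub ?_ continuous_const
  refine Complex.continuous_ofReal.comp (continuous_const.add ?_)
  by_cases hxy : x = y
  · subst hxy
    simpa using continuous_apply x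
  · simpa [Matrix.diagonal_apply_ne _ hxy] using continuous_const

/-- the entries of the resolvent depend continuously on the potential -/
theorem gr_cont {H : Matrix X X ℝ} {κ : X → ℝ} (h : Net H κ) (x y : X) :
    Continuous fun V : X → ℝ => Gr (addV H V) κ x y := by
  have h1 := mat_addV_cont H κ
  have h2 : ∀ V, (mat (addV H V) κ).det ≠ 0 := fun V =>
    isUnit_iff_ne_zero.1 (mat_unit (addV_net h V))
  have h3 : ∀ V, Gr (addV H V) κ x y =
      (mat (addV H V) κ).det⁻¹ * (mat (addV H V) κ).adjugate x y := by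
    intro V
    rw [gr_eq, Matrix.inv_def, Matrix.smul_apply, smul_eq_mul, Ring.inverse_eq_inv']
  simp only [h3]
  exact (h1.matrix_det.inv₀ h2).mul (h1.matrix_adjugate.matrix_elem x y)

/-- the dependence on the potential at one site -/
theorem one_site {H : Matrix X X ℝ} {κ : X → ℝ} (h : Net H κ) (V : X → ℝ) (b : X) :
    ∃ α β : ℝ, 0 < β ∧ ∀ s : ℝ, (Gr (addV H (Function.update V b s)) κ b b).im =
      β / ((s + α) ^ 2 + β ^ 2) := by
  set V₀ := Function.update V b 0 with hV₀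
  have hn := addV_net h V₀
  have hu := mat_unit hn
  set M := mat (addV H V₀) κ with hM
  set g : ℂ := Gr (addV H V₀) κ b b with hg
  have hgim : 0 < g.im := by
    have h1 := ward_diag hn.sym hu b
    rw [← hg] at h1
    rw [← h1]
    refine Finset.sum_pos' (fun y _ => mul_nonneg (h.pos y).le (by positivity)) ?_
    by_contra hcon
    push Not at hcon
    have h2 : ∀ y, Gr (addV H V₀) κ b y = 0 := by
      intro y
      have := hcon y (Finset.mem_univ y)
      by_contra h3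
      have h4 : 0 < ‖Gr (addV H V₀) κ b y‖ := norm_pos_iff.2 h3
      have h5 := h.pos y
      have : 0 < κ y * ‖Gr (addV H V₀) κ b y‖ ^ 2 := by positivity
      linarith
    have h3 : (Gr (addV H V₀) κ * M) b b = 1 := by
      rw [gr_eq, hM, Matrix.nonsing_inv_mul _ hu, Matrix.one_apply_eq]
    rw [Matrix.mul_apply] at h3
    simp [h2] at h3
  have hg0 : g ≠ 0 := by
    intro h0; rw [h0] at hgim; simp at hgim
  have hns : 0 < Complex.normSq g := Complex.normSq_pos.2 hg0
  refine ⟨g.re / Complex.normSq g, g.im / Complex.normSq g, by positivity, fun s => ?_⟩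
  have hup : Function.update V b s = Function.update V₀ b s := by
    rw [hV₀, Function.update_idem]
  have hns' := addV_net h (Function.update V b s)
  have hus := mat_unit hns'
  set gs : ℂ := Gr (addV H (Function.update V b s)) κ b b with hgs
  -- the matrix is `M + s e_b e_b^T`
  have hmat : mat (addV H (Function.update V b s)) κ = M + Matrix.diagonal
      (fun x => if x = b then (s : ℂ) else 0) := by
    ext x y
    rw [hM, mat, mat, Matrix.add_apply, Matrix.sub_apply, Matrix.sub_apply, Matrix.map_apply,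
      Matrix.map_apply, addV, addV, Matrix.add_apply, Matrix.add_apply]
    by_cases hxy : x = y
    · subst hxy
      simp only [Matrix.diagonal_apply_eq]
      by_cases hxb : x = b
      · subst hxb
        simp only [Function.update_self, hV₀, if_true]
        push_cast
        ring
      · simp only [Function.update_of_ne hxb, hV₀, if_neg hxb]
        ring
    · simp only [Matrix.diagonal_apply_ne _ hxy]
      ring
  have hid : Gr (addV H V₀) κ = Gr (addV H (Function.update V b s)) κ +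
      Gr (addV H V₀) κ * Matrix.diagonal (fun x => if x = b then (s : ℂ) else 0) *
        Gr (addV H (Function.update V b s)) κ := by
    have e1 : Gr (addV H V₀) κ * mat (addV H (Function.update V b s)) κ =
        1 + Gr (addV H V₀) κ * Matrix.diagonal (fun x => if x = b then (s : ℂ) else 0) := by
      rw [hmat, Matrix.mul_add, gr_eq, ← hM, Matrix.nonsing_inv_mul _ hu]
    have e2 : mat (addV H (Function.update V b s)) κ * Gr (addV H (Function.update V b s)) κ = 1 := by
      rw [gr_eq, Matrix.mul_nonsing_inv _ hus]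
    calc Gr (addV H V₀) κ = Gr (addV H V₀) κ * (mat (addV H (Function.update V b s)) κ *
          Gr (addV H (Function.update V b s)) κ) := by rw [e2, Matrix.mul_one]
      _ = (Gr (addV H V₀) κ * mat (addV H (Function.update V b s)) κ) *
          Gr (addV H (Function.update V b s)) κ := by rw [Matrix.mul_assoc]
      _ = _ := by rw [e1, Matrix.add_mul, Matrix.one_mul]
  have h1 : g = gs + g * s * gs := by
    have := congrFun (congrFun hid b) b
    rw [← hg, Matrix.add_apply, Matrix.mul_apply] at this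
    refine this.trans ?_
    congr 1
    rw [Finset.sum_eq_single b]
    · rw [Matrix.mul_diagonal, if_pos rfl]
    · intro y _ hy
      rw [Matrix.mul_diagonal, if_neg hy, mul_zero, zero_mul]
    · intro hb; exact absurd (Finset.mem_univ b) hb
  have h2 : gs * (1 + s * g) = g := by
    linear_combination -h1
  have h3 : (1 + (s : ℂ) * g) ≠ 0 := by
    intro h0
    rw [h0, mul_zero] at h2
    exact hg0 h2.symm
  have h4 : gs = g / (1 + s * g) := by
    rw [eq_div_iff h3, h2]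
  rw [h4, Complex.div_im]
  have h5 : Complex.normSq (1 + (s : ℂ) * g) =
      Complex.normSq g * ((s + g.re / Complex.normSq g) ^ 2 +
        (g.im / Complex.normSq g) ^ 2) := by
    have h6 : Complex.normSq g = g.re ^ 2 + g.im ^ 2 := by
      rw [Complex.normSq_apply]; ring
    have h7 : Complex.normSq (1 + (s : ℂ) * g) = (1 + s * g.re) ^ 2 + (s * g.im) ^ 2 := by
      rw [Complex.normSq_apply]
      simp only [Complex.add_re, Complex.add_im, Complex.one_re, Complex.one_im,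
        Complex.re_ofReal_mul, Complex.im_ofReal_mul]
      ring
    rw [h7]
    field_simp
    rw [h6]
    ring
  have h8 : (1 + (s : ℂ) * g).re = 1 + s * g.re := by simp
  have h9 : (1 + (s : ℂ) * g).im = s * g.im := by simp
  have h10 : 0 < (s + g.re / Complex.normSq g) ^ 2 + (g.im / Complex.normSq g) ^ 2 := by
    have : 0 < g.im / Complex.normSq g := by positivity
    positivity
  rw [h5, h8, h9]
  field_simp
  ring

/-- WGN: the mean of `Im G_bb` -/
theorem wgn {H : Matrix X X ℝ} {κ : X → ℝ} (h : Net H κ) (a : X → ℝ) (r : X → ℝ≥0) (b : X)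
    {r₀ : ℝ} (h0 : 0 < r₀) (hr : r₀ ≤ r b) :
    ∫⁻ V, ENNReal.ofReal (Gr (addV H V) κ b b).im ∂(gm a r) ≤
      ENNReal.ofReal (Real.sqrt (Real.pi / (2 * r₀))) := by
  set F : (∀ _ : X, ℝ) → ℝ≥0∞ := fun V => ENNReal.ofReal (Gr (addV H V) κ b b).im with hF
  have hmeas : Measurable F :=
    (Complex.continuous_im.comp (gr_cont h b b)).measurable.ennreal_ofReal
  set μ : ∀ _ : X, Measure ℝ := fun x => gaussianReal (a x) (r x) with hμ
  have hone : ∀ V : X → ℝ, ∫⁻ s, ENNReal.ofReal (Gr (addV H (Function.update V b s)) κ b b).im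
      ∂(μ b) ≤ ENNReal.ofReal (Real.sqrt (Real.pi / (2 * r₀))) := by
    intro V
    obtain ⟨α, β, hβ, hv⟩ := one_site h V b
    simp only [hv]
    refine (lint_gauss_le (a b) h0 hr _).trans ?_
    rw [lint_cauchy hβ α, ← ENNReal.ofReal_mul (by positivity)]
    refine ENNReal.ofReal_le_ofReal (le_of_eq ?_)
    have hp := Real.pi_pos
    have e1 : Real.sqrt (2 * Real.pi * r₀) ≠ 0 := (Real.sqrt_pos.2 (by positivity)).ne'
    rw [inv_mul_eq_div, div_eq_iff e1, ← Real.sqrt_mul (by positivity)]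
    have e2 : Real.pi / (2 * r₀) * (2 * Real.pi * r₀) = Real.pi ^ 2 := by
      field_simp
    rw [e2, Real.sqrt_sq hp.le]
  have h1 : ∫⁻ V, F V ∂(gm a r) = (∫⋯∫⁻_Finset.univ, F ∂μ) (fun _ => 0) := by
    rw [gm, lintegral_eq_lmarginal_univ (μ := μ) (fun _ => (0 : ℝ))]
  have h2 := congrFun (lmarginal_erase' (μ := μ) F hmeas (Finset.mem_univ b))
    (fun _ => (0 : ℝ))
  refine (h1.trans h2).le.trans ?_
  calc (∫⋯∫⁻_Finset.univ.erase b, (fun x => ∫⁻ xᵢ, F (Function.update x b xᵢ) ∂μ b) ∂μ)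
          (fun _ => 0)
      ≤ (∫⋯∫⁻_Finset.univ.erase b, (fun _ =>
          ENNReal.ofReal (Real.sqrt (Real.pi / (2 * r₀)))) ∂μ) (fun _ => 0) :=
        lmarginal_mono (fun V => hone V) _
    _ = ENNReal.ofReal (Real.sqrt (Real.pi / (2 * r₀))) := by
        rw [lmarginal, lintegral_const, measure_univ, mul_one]

end Pool.Agent.HSL67
end
end -- Pool.Agent.Helper67_HSL.WGN

section -- Pool.Agent.Helper67_ACX.Har

/-!
# The Harnack inequality for Green functions, and the counting bound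

`k` the smallest absorption. If real potentials and absorptions are changed by at most `C k` the
imaginary part of `G_bb` changes by at most a constant factor. Together with the counting bound of
`Helper14_HSL`: the sites where the network is good and the true Green function is bad are few.
-/

set_option autoImplicit false

open scoped BigOperators ComplexConjugate

noncomputable section

namespace Pool.Agent.ACX.H67

open Pool.Agent.ANR

variable {X : Type} [Fintype X] [DecidableEq X]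

theorem grn_ : GrnStmt := ANR.H63.grn
theorem geq_ : GeqStmt := ANR.H72.geq (ANR.H77.dir grn_) grn_

/-- HARNACK -/
theorem har {H H' : Matrix X X ℝ} {κ κ' : X → ℝ} (hN : Net H κ) (hN' : Net H' κ') (v : X → ℝ)
    (hv : ∀ x y, H' x y = H x y + if x = y then v x else 0) {k C : ℝ} (hk : 0 < k) (hC : 1 ≤ C)
    (h1 : ∀ x, k ≤ κ x) (h2 : ∀ x, κ x ≤ C * k) (h1' : ∀ x, k ≤ κ' x) (h2' : ∀ x, κ' x ≤ C * k)
    (hvC : ∀ x, |v x| ≤ C * k) (b : X) :
    (Gr H' κ' b b).im ≤ 10 * C ^ 3 * (Gr H κ b b).im := by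
  have hC0 : 0 < C := by linarith
  obtain ⟨e1, -, e2, -, -⟩ := geq_ X H κ hN
  obtain ⟨e1', -, e2', -, -⟩ := geq_ X H' κ' hN'
  set ψ : X → ℂ := fun z => Gr H κ z b with hψ
  set ψ' : X → ℂ := fun z => Gr H' κ' z b with hψ'
  set χ : X → ℂ := fun z => ψ' z - ψ z with hχ
  set W : X → ℂ := fun x => (v x : ℂ) - Complex.I * ((κ' x : ℂ) - (κ x : ℂ)) with hW
  -- the equation of the difference
  have hop : ∀ x, opv H' κ' χ x = - (W x * ψ x) := by
    intro x
    have a1 : opv H κ ψ x = if x = b then 1 else 0 := e1 x b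
    have a2 : opv H' κ' ψ' x = if x = b then 1 else 0 := e1' x b
    have a3 : opv H' κ' ψ x = opv H κ ψ x + W x * ψ x := by
      unfold opv
      have : ∑ y, (H' x y : ℂ) * ψ y = ∑ y, (H x y : ℂ) * ψ y + (v x : ℂ) * ψ x := by
        have hh : ∀ y, (H' x y : ℂ) * ψ y =
            (H x y : ℂ) * ψ y + if x = y then (v x : ℂ) * ψ y else 0 := by
          intro y
          rw [hv x y]
          by_cases hxy : x = y
          · rw [if_pos hxy, if_pos hxy]
            push_cast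
            ring
          · rw [if_neg hxy, if_neg hxy]
            push_cast
            ring
        rw [Finset.sum_congr rfl fun y _ => hh y, Finset.sum_add_distrib, Finset.sum_ite_eq,
          if_pos (Finset.mem_univ x)]
      rw [this, hW]
      ring
    have a4 : opv H' κ' χ x = opv H' κ' ψ' x - opv H' κ' ψ x := by
      unfold opv
      have : ∑ y, (H' x y : ℂ) * χ y = ∑ y, (H' x y : ℂ) * ψ' y - ∑ y, (H' x y : ℂ) * ψ y := by
        rw [← Finset.sum_sub_distrib]
        exact Finset.sum_congr rfl fun y _ => by rw [hχ]; ring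
      rw [this, hχ]
      ring
    rw [a4, a2, a3, a1]
    ring
  have hWn : ∀ x, ‖W x‖ ≤ 2 * C * k := by
    intro x
    have a1 : ‖W x‖ ≤ ‖(v x : ℂ)‖ + ‖Complex.I * ((κ' x : ℂ) - (κ x : ℂ))‖ := norm_sub_le _ _
    have a2 : ‖(v x : ℂ)‖ = |v x| := by rw [Complex.norm_real, Real.norm_eq_abs]
    have a3 : ‖Complex.I * ((κ' x : ℂ) - (κ x : ℂ))‖ = |κ' x - κ x| := by
      rw [norm_mul, Complex.norm_I, one_mul, ← Complex.ofReal_sub, Complex.norm_real,
        Real.norm_eq_abs]
    have a4 : |κ' x - κ x| ≤ C * k := by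
      rw [abs_le]
      have := h1 x
      have := h2 x
      have := h1' x
      have := h2' x
      constructor <;> nlinarith
    rw [a2, a3] at a1
    linarith [hvC x]
  set A := ∑ x, ‖χ x‖ ^ 2 with hA
  set B := ∑ x, ‖ψ x‖ ^ 2 with hB
  have hAB : A ≤ 4 * C ^ 2 * B := by
    have a1 := (grn_ X H' κ' hN').2 χ
    have a2 : ∑ x, κ' x * ‖χ x‖ ^ 2 ≤ ∑ x, ‖χ x‖ * (2 * C * k * ‖ψ x‖) := by
      have a3 : ∑ x, κ' x * ‖χ x‖ ^ 2 = -(∑ x, conj (χ x) * opv H' κ' χ x).im := by
        rw [a1, neg_neg]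
      rw [a3]
      have a4 : -(∑ x, conj (χ x) * opv H' κ' χ x).im ≤ ‖∑ x, conj (χ x) * opv H' κ' χ x‖ :=
        (neg_le_abs _).trans (Complex.abs_im_le_norm _)
      refine a4.trans ((norm_sum_le _ _).trans (Finset.sum_le_sum fun x _ => ?_))
      rw [hop x, norm_mul, norm_neg, norm_mul, Complex.norm_conj]
      exact mul_le_mul_of_nonneg_left (mul_le_mul_of_nonneg_right (hWn x) (norm_nonneg _))
        (norm_nonneg _)
    have a5 : k * A ≤ ∑ x, κ' x * ‖χ x‖ ^ 2 := by
      rw [hA, Finset.mul_sum]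
      exact Finset.sum_le_sum fun x _ => mul_le_mul_of_nonneg_right (h1' x) (sq_nonneg _)
    have a6 : ∑ x, ‖χ x‖ * (2 * C * k * ‖ψ x‖) ≤ k / 2 * A + 2 * C ^ 2 * k * B := by
      rw [hA, hB, Finset.mul_sum, Finset.mul_sum, ← Finset.sum_add_distrib]
      refine Finset.sum_le_sum fun x _ => ?_
      have := mul_nonneg (mul_nonneg (by norm_num : (0 : ℝ) ≤ 1 / 2) hk.le)
        (sq_nonneg (‖χ x‖ - 2 * C * ‖ψ x‖))
      nlinarith only [this]
    have a7 : k * A ≤ k / 2 * A + 2 * C ^ 2 * k * B := a5.trans (a2.trans a6)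
    have a8 : k * A ≤ k * (4 * C ^ 2 * B) := by nlinarith only [a2, a5, a6]
    exact le_of_mul_le_mul_left a8 hk
  have hB' : ∑ x, ‖ψ' x‖ ^ 2 ≤ 2 * A + 2 * B := by
    rw [hA, hB, Finset.mul_sum, Finset.mul_sum, ← Finset.sum_add_distrib]
    refine Finset.sum_le_sum fun x _ => ?_
    have a1 : ψ' x = χ x + ψ x := by rw [hχ]; ring
    have a2 : ‖ψ' x‖ ≤ ‖χ x‖ + ‖ψ x‖ := by
      rw [a1]
      exact norm_add_le _ _
    have a3 := norm_nonneg (ψ' x)
    nlinarith only [sq_nonneg (‖χ x‖ - ‖ψ x‖), a2, a3]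
  have hB0 : 0 ≤ B := Finset.sum_nonneg fun x _ => sq_nonneg _
  have a9 : (Gr H' κ' b b).im ≤ C * k * ∑ x, ‖ψ' x‖ ^ 2 := by
    rw [← e2' b, Finset.mul_sum]
    exact Finset.sum_le_sum fun x _ => mul_le_mul_of_nonneg_right (h2' x) (sq_nonneg _)
  have a10 : k * B ≤ (Gr H κ b b).im := by
    rw [← e2 b, hB, Finset.mul_sum]
    exact Finset.sum_le_sum fun x _ => mul_le_mul_of_nonneg_right (h1 x) (sq_nonneg _)
  have a11 : ∑ x, ‖ψ' x‖ ^ 2 ≤ 10 * C ^ 2 * B := by
    have : B ≤ C ^ 2 * B := le_mul_of_one_le_left hB0 (one_le_pow₀ hC)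
    nlinarith only [hAB, hB', this]
  calc (Gr H' κ' b b).im ≤ C * k * ∑ x, ‖ψ' x‖ ^ 2 := a9
    _ ≤ C * k * (10 * C ^ 2 * B) := mul_le_mul_of_nonneg_left a11 (by positivity)
    _ = 10 * C ^ 3 * (k * B) := by ring
    _ ≤ 10 * C ^ 3 * (Gr H κ b b).im := mul_le_mul_of_nonneg_left a10 (by positivity)

end Pool.Agent.ACX.H67
end
end -- Pool.Agent.Helper67_ACX.Har

section -- Pool.Agent.Helper72_AHH.Chg

/-!
# AHH, row REG: the change of the resolvent of a configuration by a change of the gauge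
-/

set_option autoImplicit false

open scoped BigOperators NNReal Matrix ComplexConjugate

noncomputable section

namespace Pool.Agent.AHH.H72

open Pool.Agent.ANR (Gr Net)
open Pool.Agent.AGU (WK Chg)
open Pool.Agent.BED (Tor)
open Pool.Agent.AND2B (net kap Vef Hr res)
open Pool.Agent.ANP (Cfg)

section gen

variable {X : Type} [Fintype X] [DecidableEq X]

theorem wk_of_net {H : Matrix X X ℝ} {k : X → ℝ} (hN : Net H k) : WK (Gr H k) k := by
  refine ⟨hN.pos, fun a b => Pool.Agent.HSL14.gr_sym hN.sym k a b, fun a b => ?_⟩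
  have h := Pool.Agent.HSL14.ward hN.sym (Pool.Agent.HSL14.mat_unit hN) b a
  rw [Pool.Agent.HSL14.gr_sym hN.sym k b a] at h
  rw [← h]
  refine Finset.sum_congr rfl fun c _ => ?_
  rw [Pool.Agent.HSL14.gr_sym hN.sym k c b]
  ring

/-- the resolvent identity -/
theorem gr_change {H H' : Matrix X X ℝ} {k k' : X → ℝ} {z : X → ℂ} (hN : Net H k)
    (hN' : Net H' k') (hH : ∀ x y, H' x y = H x y - if x = y then (z x).re else 0)
    (hk : ∀ x, k' x = k x + (z x).im) (a b : X) :
    Gr H' k' a b = Gr H k a b + ∑ c, Gr H k a c * z c * Gr H' k' c b := by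
  have hU := Pool.Agent.HSL14.mat_unit hN
  have hU' := Pool.Agent.HSL14.mat_unit hN'
  have hM : Pool.Agent.HSL14.mat H' k' = Pool.Agent.HSL14.mat H k - Matrix.diagonal z := by
    ext x y
    unfold Pool.Agent.HSL14.mat
    rw [Matrix.sub_apply, Matrix.sub_apply, Matrix.sub_apply, Matrix.map_apply, Matrix.map_apply,
      hH x y]
    by_cases h : x = y
    · subst h
      rw [if_pos rfl, Matrix.diagonal_apply_eq, Matrix.diagonal_apply_eq,
        Matrix.diagonal_apply_eq, hk x]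
      apply Complex.ext <;> simp <;> ring
    · rw [if_neg h, Matrix.diagonal_apply_ne _ h, Matrix.diagonal_apply_ne _ h,
        Matrix.diagonal_apply_ne _ h]
      simp
  have h1 : Gr H' k' = Gr H k + Gr H k * Matrix.diagonal z * Gr H' k' := by
    have e1 : Gr H k * Pool.Agent.HSL14.mat H k = 1 := Matrix.nonsing_inv_mul _ hU
    have e2 : Pool.Agent.HSL14.mat H' k' * Gr H' k' = 1 := Matrix.mul_nonsing_inv _ hU'
    have e3 : Matrix.diagonal z = Pool.Agent.HSL14.mat H k - Pool.Agent.HSL14.mat H' k' := by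
      rw [hM]
      abel
    rw [e3, mul_sub, sub_mul, mul_assoc, mul_assoc, e2, ← mul_assoc, e1, one_mul, mul_one]
    abel
  have h2 := congrFun (congrFun h1 a) b
  rw [Matrix.add_apply, Matrix.mul_apply] at h2
  rw [h2]
  congr 1
  refine Finset.sum_congr rfl fun c _ => ?_
  rw [Matrix.mul_diagonal]

theorem chg_of {H H' : Matrix X X ℝ} {k k' : X → ℝ} {z : X → ℂ} {d : ℝ} (hN : Net H k)
    (hd : 0 ≤ d ∧ d ≤ 1 / 4) (hz : ∀ a, ‖z a‖ ≤ d * k a)
    (hH : ∀ x y, H' x y = H x y - if x = y then (z x).re else 0)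
    (hk : ∀ x, k' x = k x + (z x).im) : Chg (Gr H k) (Gr H' k') k k' z d := by
  have hN' : Net H' k' := by
    refine ⟨fun x y => ?_, fun x => ?_⟩
    · rw [hH, hH, hN.sym x y]
      by_cases h : x = y
      · subst h
        rfl
      · rw [if_neg h, if_neg (Ne.symm h)]
    · rw [hk x]
      have h1 := hz x
      have h2 := Complex.abs_im_le_norm (z x)
      have h3 := hN.pos x
      have h4 := neg_abs_le (z x).im
      nlinarith [hd.1, hd.2]
  exact ⟨wk_of_net hN, wk_of_net hN', hd, hz, hk, fun a b => gr_change hN hN' hH hk a b⟩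

end gen

section tor

variable {d M : ℕ} [NeZero M]

theorem hr_sym (V : Tor d M → ℝ) (E : ℝ) (x y : Tor d M) : Hr V E x y = Hr V E y x := by
  unfold Hr
  rw [Matrix.add_apply, Matrix.add_apply, Pool.Agent.BED.adj_symm x y]
  by_cases h : x = y
  · subst h
    rfl
  · rw [Matrix.diagonal_apply_ne _ h, Matrix.diagonal_apply_ne _ (Ne.symm h)]

/-- the network of a configuration with positive absorption -/
theorem net_net {E e₀ : ℝ} {T : Cfg (Tor d M)} (h : ∀ x, 0 < kap e₀ T x) :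
    Net (Hr (Vef T) E) (kap e₀ T) := ⟨hr_sym _ _, h⟩

theorem wk_net {E e₀ : ℝ} {T : Cfg (Tor d M)} (h : ∀ x, 0 < kap e₀ T x) :
    WK (net E e₀ T) (kap e₀ T) := wk_of_net (net_net h)

/-- THE CHANGE OF THE GAUGE -/
theorem chg_net {E e₀ : ℝ} {T : Cfg (Tor d M)} (h : ∀ x, 0 < kap e₀ T x) {δ z : Tor d M → ℂ}
    {D : ℝ} (hD : 0 ≤ D ∧ D ≤ 1 / 4) (hz : ∀ x, z x = (T.s x : ℝ) * δ x)
    (hzD : ∀ x, ‖z x‖ ≤ D * kap e₀ T x) :
    Chg (net E e₀ T) (net E e₀ (T.rg fun x => T.mb x + δ x)) (kap e₀ T)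
      (kap e₀ (T.rg fun x => T.mb x + δ x)) z D := by
  refine chg_of (net_net h) hD hzD (fun x y => ?_) fun x => ?_
  · unfold Hr
    rw [Matrix.add_apply, Matrix.add_apply]
    by_cases hxy : x = y
    · subst hxy
      rw [Matrix.diagonal_apply_eq, Matrix.diagonal_apply_eq, if_pos rfl, hz x]
      unfold Vef Cfg.rg
      simp only [Complex.add_re, Complex.mul_re, Complex.ofReal_re, Complex.ofReal_im]
      ring
    · rw [Matrix.diagonal_apply_ne _ hxy, Matrix.diagonal_apply_ne _ hxy, if_neg hxy]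
      ring
  · rw [hz x]
    unfold kap Cfg.rg
    simp only [Complex.add_im, Complex.mul_im, Complex.ofReal_re, Complex.ofReal_im]
    ring

end tor

end Pool.Agent.AHH.H72
end
end -- Pool.Agent.Helper72_AHH.Chg

section -- Pool.Agent.Helper48_ACS.End

/-!
# ACS (MP_1906c1_mp): the network at the last clock is the resolvent at `E + i η`

`ngn`: two networks with relatively close diagonals have close diagonal Green functions.
`acs_end`: for a final configuration (only running sites with the clock `f` and dead sites), at most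
`#dead + (2/c) ∑_(b dead) Im G_bb(E + iη)` sites have a small `Im G_xx(E + iη)`, `η = f Im m₀`, where `G`
is the true resolvent (constant absorption `η`), `U = V - s Re m₀` the true potential.
-/

set_option autoImplicit false

open scoped BigOperators ComplexConjugate

noncomputable section

namespace Pool.Agent.ACS.H48

open Pool.Agent.ANR Pool.Agent.HSL14

section gen

variable {X : Type} [Fintype X] [DecidableEq X]

theorem im_nonneg {H : Matrix X X ℝ} {κ : X → ℝ} (h : Net H κ) (x : X) : 0 ≤ (Gr H κ x x).im := by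
  rw [← ward_diag h.sym (mat_unit h) x]
  exact Finset.sum_nonneg fun y _ => mul_nonneg (h.pos y).le (by positivity)

/-- resolvent identity for two networks with the same off-diagonal part -/
theorem res_id {H H' : Matrix X X ℝ} {κ κ' : X → ℝ} (h : Net H κ) (h' : Net H' κ')
    (hoff : ∀ x y, x ≠ y → H' x y = H x y) (x : X) :
    Gr H' κ' x x - Gr H κ x x = ∑ y, Gr H' κ' x y *
      (((H y y - H' y y : ℝ) : ℂ) - Complex.I * ((κ y - κ' y : ℝ) : ℂ)) * Gr H κ y x := by
  have e1 : mat H κ - mat H' κ' = Matrix.diagonal fun y =>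
      ((H y y - H' y y : ℝ) : ℂ) - Complex.I * ((κ y - κ' y : ℝ) : ℂ) := by
    ext a b
    rw [Matrix.sub_apply, mat, mat, Matrix.sub_apply, Matrix.sub_apply, Matrix.map_apply,
      Matrix.map_apply]
    by_cases hab : a = b
    · subst hab
      rw [Matrix.diagonal_apply_eq, Matrix.diagonal_apply_eq, Matrix.diagonal_apply_eq]
      push_cast
      ring
    · rw [Matrix.diagonal_apply_ne _ hab, Matrix.diagonal_apply_ne _ hab,
        Matrix.diagonal_apply_ne _ hab, hoff a b hab]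
      ring
  have e2 : Gr H' κ' - Gr H κ = Gr H' κ' * (mat H κ - mat H' κ') * Gr H κ := by
    have f1 : mat H κ * Gr H κ = 1 := Matrix.mul_nonsing_inv _ (mat_unit h)
    have f2 : Gr H' κ' * mat H' κ' = 1 := Matrix.nonsing_inv_mul _ (mat_unit h')
    rw [Matrix.mul_sub, Matrix.sub_mul, Matrix.mul_assoc, f1, Matrix.mul_one, f2, Matrix.one_mul]
  have e3 := congrFun (congrFun e2 x) x
  rw [Matrix.sub_apply, e1, Matrix.mul_apply] at e3
  rw [e3]
  refine Finset.sum_congr rfl fun y _ => ?_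
  rw [Matrix.mul_diagonal]

/-- NGN: networks with relatively close diagonals -/
theorem ngn {H H' : Matrix X X ℝ} {κ κ' : X → ℝ} (h : Net H κ) (h' : Net H' κ') {ε : ℝ}
    (hoff : ∀ x y, x ≠ y → H' x y = H x y)
    (hd : ∀ x, |H' x x - H x x| + |κ' x - κ x| ≤ ε * (Real.sqrt (κ' x) * Real.sqrt (κ x)))
    (x : X) : ‖Gr H' κ' x x - Gr H κ x x‖ ≤
      ε * (Real.sqrt (Gr H' κ' x x).im * Real.sqrt (Gr H κ x x).im) := by
  have hε : 0 ≤ ε := by
    have h1 := hd x
    have h2 : 0 < Real.sqrt (κ' x) * Real.sqrt (κ x) :=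
      mul_pos (Real.sqrt_pos.2 (h'.pos x)) (Real.sqrt_pos.2 (h.pos x))
    by_contra h3
    push Not at h3
    have := mul_neg_of_neg_of_pos h3 h2
    have h4 := abs_nonneg (H' x x - H x x)
    have h5 := abs_nonneg (κ' x - κ x)
    linarith
  rw [res_id h h' hoff x]
  refine (norm_sum_le _ _).trans ?_
  have e1 : ∀ y, ‖Gr H' κ' x y *
      (((H y y - H' y y : ℝ) : ℂ) - Complex.I * ((κ y - κ' y : ℝ) : ℂ)) * Gr H κ y x‖ ≤
      ε * ((Real.sqrt (κ' y) * ‖Gr H' κ' x y‖) * (Real.sqrt (κ y) * ‖Gr H κ x y‖)) := by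
    intro y
    rw [norm_mul, norm_mul, gr_sym h.sym κ y x]
    have f1 : ‖((H y y - H' y y : ℝ) : ℂ) - Complex.I * ((κ y - κ' y : ℝ) : ℂ)‖ ≤
        ε * (Real.sqrt (κ' y) * Real.sqrt (κ y)) := by
      refine (norm_sub_le _ _).trans (le_trans (le_of_eq ?_) (hd y))
      rw [norm_mul, Complex.norm_I, one_mul, Complex.norm_real, Complex.norm_real, Real.norm_eq_abs,
        Real.norm_eq_abs, abs_sub_comm, abs_sub_comm (κ y)]
    calc ‖Gr H' κ' x y‖ * ‖((H y y - H' y y : ℝ) : ℂ) - Complex.I * ((κ y - κ' y : ℝ) : ℂ)‖ *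
          ‖Gr H κ x y‖ ≤ ‖Gr H' κ' x y‖ * (ε * (Real.sqrt (κ' y) * Real.sqrt (κ y))) *
          ‖Gr H κ x y‖ := by gcongr
      _ = _ := by ring
  refine (Finset.sum_le_sum fun y _ => e1 y).trans ?_
  rw [← Finset.mul_sum]
  refine mul_le_mul_of_nonneg_left ?_ hε
  have e2 := Finset.sum_mul_sq_le_sq_mul_sq Finset.univ
    (fun y => Real.sqrt (κ' y) * ‖Gr H' κ' x y‖) (fun y => Real.sqrt (κ y) * ‖Gr H κ x y‖)
  have e3 : ∀ {H : Matrix X X ℝ} {κ : X → ℝ}, Net H κ →
      ∑ y, (Real.sqrt (κ y) * ‖Gr H κ x y‖) ^ 2 = (Gr H κ x x).im := by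
    intro H κ h
    rw [← ward_diag h.sym (mat_unit h) x]
    refine Finset.sum_congr rfl fun y _ => ?_
    rw [mul_pow, Real.sq_sqrt (h.pos y).le]
  rw [e3 h', e3 h] at e2
  rw [← Real.sqrt_mul (im_nonneg h' x)]
  exact Real.le_sqrt_of_sq_le e2

/-- the imaginary parts are comparable -/
theorem ngn_im {H H' : Matrix X X ℝ} {κ κ' : X → ℝ} (h : Net H κ) (h' : Net H' κ') {ε : ℝ}
    (hε : ε ≤ 1 / 2) (hoff : ∀ x y, x ≠ y → H' x y = H x y)
    (hd : ∀ x, |H' x x - H x x| + |κ' x - κ x| ≤ ε * (Real.sqrt (κ' x) * Real.sqrt (κ x)))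
    (x : X) : (Gr H' κ' x x).im ≤ 2 * (Gr H κ x x).im := by
  have h1 := ngn h h' hoff hd x
  have a0 := im_nonneg h' x
  have b0 := im_nonneg h x
  have h2 : (Gr H' κ' x x).im - (Gr H κ x x).im ≤ ‖Gr H' κ' x x - Gr H κ x x‖ := by
    rw [← Complex.sub_im]
    exact (le_abs_self _).trans (Complex.abs_im_le_norm _)
  set a := (Gr H' κ' x x).im
  set b := (Gr H κ x x).im
  have h3 : Real.sqrt a * Real.sqrt b ≤ (a + b) / 2 := by
    have e1 := Real.sq_sqrt a0
    have e2 := Real.sq_sqrt b0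
    nlinarith only [sq_nonneg (Real.sqrt a - Real.sqrt b), e1, e2]
  have h4 : 0 ≤ Real.sqrt a * Real.sqrt b := by positivity
  have h5 : ε * (Real.sqrt a * Real.sqrt b) ≤ 1 / 2 * (Real.sqrt a * Real.sqrt b) :=
    mul_le_mul_of_nonneg_right hε h4
  linarith only [b0, h1, h2, h3, h5]

end gen

section tor

open Pool.Agent.Anderson hiding box mem_box card_box kap
open Pool.Agent.Loc Pool.Agent.Mob Pool.Agent.Helper54.Bal
  Pool.Agent.Helper96.EXP Pool.Agent.BED
open Pool.Agent.LE.MN Pool.Agent.LE.CL Pool.Agent.LE.IR Pool.Agent.LE.QD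
open Pool.Agent.AND2B (Hr res kap Vef net)
open Pool.Agent.ANP (Cfg)

variable {d M : ℕ} [NeZero M]

theorem hr_off (V V' : Tor d M → ℝ) (E : ℝ) (x y : Tor d M) (h : x ≠ y) :
    Hr V E x y = Hr V' E x y := by
  unfold Hr
  rw [Matrix.add_apply, Matrix.add_apply, Matrix.diagonal_apply_ne _ h,
    Matrix.diagonal_apply_ne _ h]

theorem hr_diag (V V' : Tor d M → ℝ) (E : ℝ) (x : Tor d M) :
    Hr V E x x - Hr V' E x x = V x - V' x := by
  unfold Hr
  rw [Matrix.add_apply, Matrix.add_apply, Matrix.diagonal_apply_eq, Matrix.diagonal_apply_eq]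
  ring

theorem adj_sym (x y : Tor d M) : adj d M x y = adj d M y x := by
  unfold adj
  simp only [Matrix.of_apply]
  refine Finset.sum_congr rfl fun i _ => ?_
  rw [add_comm]
  congr 1
  · have : (y = x - ev i) ↔ (x = y + ev i) := by
      constructor
      · rintro rfl; abel
      · rintro rfl; abel
    simp only [this]
  · have : (y = x + ev i) ↔ (x = y - ev i) := by
      constructor
      · rintro rfl; abel
      · rintro rfl; abel
    simp only [this]

theorem hsym (V : Tor d M → ℝ) (E : ℝ) (x y : Tor d M) : Hr V E x y = Hr V E y x := by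
  unfold Hr
  rw [Matrix.add_apply, Matrix.add_apply, adj_sym x y]
  congr 1
  by_cases h : x = y
  · rw [h]
  · rw [Matrix.diagonal_apply_ne _ h, Matrix.diagonal_apply_ne _ (Ne.symm h)]

/-- THE END: few sites have a small `Im G_xx(E + iη)` -/
theorem acs_end (T : Cfg (Tor d M)) (E e₀ f c₀ δ c : ℝ) (m₀ : ℂ) (U : Tor d M → ℝ) (he₀ : 0 < e₀)
    (hf : 0 < f) (hc₀ : 0 < c₀) (hm₀ : c₀ ≤ m₀.im)
    (hs : ∀ x, (T.s x : ℝ) = 0 ∨ (T.s x : ℝ) = f)
    (hmb : ∀ x, (T.s x : ℝ) = f → ‖T.mb x - m₀‖ ≤ δ ∧ c₀ ≤ (T.mb x).im)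
    (hU : ∀ x, U x = T.V x - (T.s x : ℝ) * m₀.re)
    (hδ : 6 * δ ≤ c₀) (he : e₀ ≤ δ * f) (he' : e₀ ≤ f * m₀.im) (hc : 0 < c)
    (hnet : ∀ x, (T.s x : ℝ) = f → 4 * c ≤ (net E e₀ T x x).im) :
    ((Finset.univ.filter fun x => (Gr (Hr U E) (fun _ => f * m₀.im) x x).im < c / 2).card : ℝ) ≤
      ((Finset.univ.filter fun x => (T.s x : ℝ) = 0).card : ℝ) +
        2 / c * ∑ b ∈ Finset.univ.filter fun x => (T.s x : ℝ) = 0,
          (Gr (Hr U E) (fun _ => f * m₀.im) b b).im := by
  set D : Finset (Tor d M) := Finset.univ.filter fun x => (T.s x : ℝ) = 0 with hD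
  set κN : Tor d M → ℝ := fun x => if (T.s x : ℝ) = 0 then e₀ else f * m₀.im with hκN
  have hη : 0 < f * m₀.im := mul_pos hf (hc₀.trans_le hm₀)
  have hNn : Net (Hr U E) κN := ⟨hsym U E, fun x => by
    simp only [hκN]
    split_ifs
    · exact he₀
    · exact hη⟩
  have hk : ∀ x, 0 < kap e₀ T x := by
    intro x
    unfold kap
    rcases hs x with h | h
    · rw [h]; linarith
    · rw [h]
      have := mul_pos hf (hc₀.trans_le (hmb x h).2)
      linarith
  have hNe : Net (Hr (Vef T) E) (kap e₀ T) := ⟨hsym _ E, hk⟩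
  have hδ0 : 0 ≤ δ := by
    by_contra h
    push Not at h
    have := mul_neg_of_neg_of_pos h hf
    linarith
  have hclose : ∀ x, |Hr (Vef T) E x x - Hr U E x x| + |kap e₀ T x - κN x| ≤
      (3 * δ / c₀) * (Real.sqrt (kap e₀ T x) * Real.sqrt (κN x)) := by
    intro x
    rw [hr_diag, hU x]
    have h0 : 0 ≤ 3 * δ / c₀ := by positivity
    rcases hs x with h | h
    · have e1 : Vef T x - (T.V x - (T.s x : ℝ) * m₀.re) = 0 := by
        unfold Vef
        rw [h]
        ring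
      have e2 : kap e₀ T x - κN x = 0 := by
        simp only [hκN, if_pos h, kap]
        rw [h]
        ring
      rw [e1, e2, abs_zero, add_zero]
      exact mul_nonneg h0 (mul_nonneg (Real.sqrt_nonneg _) (Real.sqrt_nonneg _))
    · obtain ⟨g1, g2⟩ := hmb x h
      have hne : ¬ (T.s x : ℝ) = 0 := by rw [h]; exact hf.ne'
      have e1 : |Vef T x - (T.V x - (T.s x : ℝ) * m₀.re)| ≤ f * δ := by
        unfold Vef
        rw [h]
        have : T.V x - f * (T.mb x).re - (T.V x - f * m₀.re) = -(f * (T.mb x - m₀).re) := by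
          rw [Complex.sub_re]; ring
        rw [this, abs_neg, abs_mul, abs_of_pos hf]
        exact mul_le_mul_of_nonneg_left ((Complex.abs_re_le_norm _).trans g1) hf.le
      have e2 : |kap e₀ T x - κN x| ≤ e₀ + f * δ := by
        simp only [hκN, if_neg hne, kap]
        rw [h]
        have : e₀ + f * (T.mb x).im - f * m₀.im = e₀ + f * (T.mb x - m₀).im := by
          rw [Complex.sub_im]; ring
        rw [this]
        refine (abs_add_le _ _).trans ?_
        rw [abs_of_pos he₀, abs_mul, abs_of_pos hf]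
        have := mul_le_mul_of_nonneg_left ((Complex.abs_im_le_norm _).trans g1) hf.le
        linarith only [this]
      have e3 : c₀ * f ≤ Real.sqrt (kap e₀ T x) * Real.sqrt (κN x) := by
        have k1 : c₀ * f ≤ kap e₀ T x := by
          unfold kap
          rw [h]
          have := mul_le_mul_of_nonneg_left g2 hf.le
          linarith
        have k2 : c₀ * f ≤ κN x := by
          simp only [hκN, if_neg hne]
          have := mul_le_mul_of_nonneg_left hm₀ hf.le
          linarith only [this]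
        have k0 : 0 ≤ c₀ * f := by positivity
        calc c₀ * f = Real.sqrt (c₀ * f) * Real.sqrt (c₀ * f) := (Real.mul_self_sqrt k0).symm
          _ ≤ _ := mul_le_mul (Real.sqrt_le_sqrt k1) (Real.sqrt_le_sqrt k2)
            (Real.sqrt_nonneg _) (Real.sqrt_nonneg _)
      calc |Vef T x - (T.V x - (T.s x : ℝ) * m₀.re)| + |kap e₀ T x - κN x| ≤
            f * δ + (e₀ + f * δ) := add_le_add e1 e2
        _ ≤ 3 * δ / c₀ * (c₀ * f) := by
            have : 3 * δ / c₀ * (c₀ * f) = 3 * δ * f := by field_simp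
            rw [this]
            linarith only [he]
        _ ≤ _ := mul_le_mul_of_nonneg_left e3 h0
  have hε : 3 * δ / c₀ ≤ 1 / 2 := by
    rw [div_le_iff₀ hc₀]
    linarith only [hδ]
  have hcmp : ∀ x, (net E e₀ T x x).im ≤ 2 * (Gr (Hr U E) κN x x).im := fun x =>
    ngn_im hNn hNe hε (fun a b hab => hr_off _ _ E a b hab) hclose x
  set B : Finset (Tor d M) := Finset.univ.filter fun x =>
    (T.s x : ℝ) ≠ 0 ∧ (Gr (Hr U E) (fun _ => f * m₀.im) x x).im < c / 2 with hB
  have key : (B.card : ℝ) ≤ 2 / c * ∑ b ∈ D, (Gr (Hr U E) (fun _ => f * m₀.im) b b).im := by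
    refine hsc_card (κ' := κN) (hsym U E) hη D (fun x hx => ?_) (fun x => (hNn.pos x).le)
      (fun x => ?_) (mat_unit hNn) hc B (fun x hx hx' => ?_) fun x hx => ?_
    · have : ¬ (T.s x : ℝ) = 0 := fun h => hx (Finset.mem_filter.2 ⟨Finset.mem_univ _, h⟩)
      simp only [hκN, if_neg this]
    · simp only [hκN]
      split_ifs
      · exact he'
      · exact le_rfl
    · exact (Finset.mem_filter.1 hx).2.1 (Finset.mem_filter.1 hx').2
    · obtain ⟨-, h1, h2⟩ := Finset.mem_filter.1 hx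
      have h3 : (T.s x : ℝ) = f := (hs x).resolve_left h1
      have h4 := hnet x h3
      have h5 := hcmp x
      exact ⟨by linarith, h2⟩
  have hsub : (Finset.univ.filter fun x =>
      (Gr (Hr U E) (fun _ => f * m₀.im) x x).im < c / 2) ⊆ D ∪ B := by
    intro x hx
    have h1 := (Finset.mem_filter.1 hx).2
    by_cases h : (T.s x : ℝ) = 0
    · exact Finset.mem_union_left _ (Finset.mem_filter.2 ⟨Finset.mem_univ _, h⟩)
    · exact Finset.mem_union_right _ (Finset.mem_filter.2 ⟨Finset.mem_univ _, h, h1⟩)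
  have h1 : ((Finset.univ.filter fun x =>
      (Gr (Hr U E) (fun _ => f * m₀.im) x x).im < c / 2).card : ℝ) ≤ (D.card : ℝ) + B.card := by
    exact_mod_cast (Finset.card_le_card hsub).trans (Finset.card_union_le _ _)
  linarith

end tor

end Pool.Agent.ACS.H48
end
end -- Pool.Agent.Helper48_ACS.End

section -- Pool.Agent.Helper72_ACS.Tri

/-!
# ACS, TRI: the trace inequality

If the absorption is made smaller on `D`, the diagonal entries of the resolvent off `D` change in total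
by at most the absorption of `D` before the change: no condition on resonances.

Proof: for `K s = κ - s (κ - κ')` the function
`∑_(x ∉ D) κ_x Re (θ_x G_s(x,x)) + (1 - s) ∑_(b ∈ D) (κ_b - κ'_b) Im G_s(b,b)` does not increase.
-/

set_option autoImplicit false

open scoped BigOperators Matrix ComplexConjugate Topology

noncomputable section

namespace Pool.Agent.ACS.H72

open Pool.Agent.ANR (Gr Net)
open Pool.Agent.HSL14 (mat gr_eq gr_sym mat_unit ward_diag)

variable {X : Type} [Fintype X] [DecidableEq X]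

/-- the entries of the resolvent are continuous -/
theorem cont_gr {H : Matrix X X ℝ} {K : ℝ → X → ℝ} (hK : ∀ x, Continuous fun s => K s x) {s : ℝ}
    (hN : Net H (K s)) (a b : X) : ContinuousAt (fun t => Gr H (K t) a b) s := by
  have hM : Continuous fun t => mat H (K t) := by
    unfold mat
    refine continuous_const.sub (Continuous.matrix_diagonal ?_)
    refine continuous_pi fun x => ?_
    exact continuous_const.mul (Complex.continuous_ofReal.comp (hK x))
  have hd : (mat H (K s)).det ≠ 0 := (mat_unit hN).ne_zero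
  have he : ∀ t, Gr H (K t) a b = ((mat H (K t)).det)⁻¹ * (mat H (K t)).adjugate a b := fun t => by
    rw [gr_eq, Matrix.inv_def, Ring.inverse_eq_inv', Matrix.smul_apply, smul_eq_mul]
  simp_rw [he]
  refine ContinuousAt.mul (ContinuousAt.inv₀ hM.matrix_det.continuousAt hd) ?_
  exact (hM.matrix_adjugate.matrix_elem a b).continuousAt

/-- the derivative of the entries of the resolvent -/
theorem der_gr {H : Matrix X X ℝ} {κ l : X → ℝ} {s : ℝ}
    (hN : Net H fun x => κ x - s * l x) (a b : X) :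
    HasDerivAt (fun t => Gr H (fun x => κ x - t * l x) a b)
      (-Complex.I * ∑ c, (l c : ℂ) * (Gr H (fun x => κ x - s * l x) a c *
        Gr H (fun x => κ x - s * l x) c b)) s := by
  have hK : ∀ x, Continuous fun t : ℝ => κ x - t * l x := fun x => by fun_prop
  have hev : ∀ᶠ t in 𝓝[≠] s, Net H fun x => κ x - t * l x := by
    have h1 : ∀ᶠ t in 𝓝 s, ∀ x, 0 < κ x - t * l x := by
      rw [Filter.eventually_all]
      intro x
      exact (hK x).continuousAt.eventually (lt_mem_nhds (hN.pos x))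
    exact (h1.filter_mono nhdsWithin_le_nhds).mono fun t ht => ⟨hN.sym, ht⟩
  rw [hasDerivAt_iff_tendsto_slope]
  have h2 : Filter.Tendsto (fun t => -Complex.I * ∑ c, (l c : ℂ) *
      (Gr H (fun x => κ x - s * l x) a c * Gr H (fun x => κ x - t * l x) c b)) (𝓝[≠] s)
      (𝓝 (-Complex.I * ∑ c, (l c : ℂ) * (Gr H (fun x => κ x - s * l x) a c *
        Gr H (fun x => κ x - s * l x) c b))) := by
    refine Filter.Tendsto.const_mul _ (tendsto_finsetSum _ fun c _ => ?_)
    refine Filter.Tendsto.const_mul _ (Filter.Tendsto.const_mul _ ?_)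
    exact (cont_gr (K := fun t x => κ x - t * l x) hK hN c b).tendsto.mono_left nhdsWithin_le_nhds
  refine h2.congr' ?_
  filter_upwards [hev, self_mem_nhdsWithin] with t ht hne
  have hne' : (t : ℂ) - s ≠ 0 := by
    intro h0
    apply hne
    have : (t : ℂ) = s := sub_eq_zero.1 h0
    exact_mod_cast this
  have h3 := AHH.H72.gr_change (z := fun c => -(Complex.I * ((t - s : ℝ) : ℂ) * (l c : ℂ))) hN ht
    (fun x y => by
      have : (-(Complex.I * ((t - s : ℝ) : ℂ) * (l x : ℂ))).re = 0 := by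
        simp
      rw [this]
      simp) (fun x => by
      have : (-(Complex.I * ((t - s : ℝ) : ℂ) * (l x : ℂ))).im = -((t - s) * l x) := by
        rw [Complex.neg_im, mul_assoc, Complex.I_mul_im, ← Complex.ofReal_mul, Complex.ofReal_re]
      rw [this]
      ring) a b
  rw [slope_def_module]
  have h4 : Gr H (fun x => κ x - t * l x) a b - Gr H (fun x => κ x - s * l x) a b =
      ((t - s : ℝ) : ℂ) * (-Complex.I * ∑ c, (l c : ℂ) * (Gr H (fun x => κ x - s * l x) a c *
        Gr H (fun x => κ x - t * l x) c b)) := by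
    rw [h3, add_sub_cancel_left, Finset.mul_sum, Finset.mul_sum]
    refine Finset.sum_congr rfl fun c _ => ?_
    ring
  rw [h4, Complex.real_smul, Complex.ofReal_inv, ← mul_assoc, inv_mul_cancel₀, one_mul]
  push_cast
  exact hne'

/-- TRI -/
theorem tri {H : Matrix X X ℝ} {κ κ' : X → ℝ} (hN : Net H κ) (hN' : Net H κ') (D : Finset X)
    (h1 : ∀ x, x ∉ D → κ' x = κ x) (h2 : ∀ b ∈ D, κ' b ≤ κ b) :
    ∑ x ∈ Dᶜ, κ x * ‖Gr H κ' x x - Gr H κ x x‖ ≤
      ∑ b ∈ D, (κ b - κ' b) * (Gr H κ b b).im := by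
  set l : X → ℝ := fun x => κ x - κ' x with hl
  have hl0 : ∀ x, x ∉ D → l x = 0 := fun x hx => by
    rw [hl]
    simp only
    rw [h1 x hx]
    ring
  have hl1 : ∀ x, 0 ≤ l x := fun x => by
    by_cases hx : x ∈ D
    · have := h2 x hx
      rw [hl]
      simp only
      linarith
    · rw [hl0 x hx]
  have hl2 : ∀ x, l x ≤ κ x := fun x => by
    have := hN'.pos x
    rw [hl]
    simp only
    linarith
  have hNs : ∀ s : ℝ, 0 ≤ s → s ≤ 1 → Net H fun x => κ x - s * l x := fun s h0 h1 => by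
    refine ⟨hN.sym, fun x => ?_⟩
    have e1 := hN.pos x
    have e2 := hN'.pos x
    have e3 : κ x - s * l x = (1 - s) * κ x + s * κ' x := by
      rw [hl]
      simp only
      ring
    rw [e3]
    rcases eq_or_lt_of_le h0 with h | h
    · rw [← h]
      linarith
    · have : 0 < s * κ' x := mul_pos h e2
      have : 0 ≤ (1 - s) * κ x := mul_nonneg (by linarith) e1.le
      linarith
  -- the phases
  have hth : ∀ x, ∃ w : ℂ, ‖w‖ ≤ 1 ∧
      (w * (Gr H κ' x x - Gr H κ x x)).re = ‖Gr H κ' x x - Gr H κ x x‖ := fun x => by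
    obtain ⟨z, hz⟩ : ∃ z, z = Gr H κ' x x - Gr H κ x x := ⟨_, rfl⟩
    rw [← hz]
    by_cases h0 : z = 0
    · exact ⟨0, by simp, by rw [h0]; simp⟩
    · have hn : (‖z‖ : ℂ) ≠ 0 := by
        exact_mod_cast (norm_ne_zero_iff.2 h0)
      refine ⟨conj z / ‖z‖, ?_, ?_⟩
      · rw [norm_div, Complex.norm_real, Real.norm_eq_abs, abs_of_nonneg (norm_nonneg z),
          Complex.norm_conj, div_self (norm_ne_zero_iff.2 h0)]
      · have : conj z / (‖z‖ : ℂ) * z = (‖z‖ : ℂ) := by
          rw [div_mul_eq_mul_div, mul_comm (conj z) z, Complex.mul_conj, Complex.normSq_eq_norm_sq]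
          rw [div_eq_iff hn]
          push_cast
          ring
        rw [this, Complex.ofReal_re]
  choose w hw1 hw2 using hth
  -- the function
  set G : ℝ → X → X → ℂ := fun s a b => Gr H (fun x => κ x - s * l x) a b with hG
  set F : ℝ → ℝ := fun s => ∑ x ∈ Dᶜ, κ x * (w x * G s x x).re +
    (1 - s) * ∑ b ∈ D, l b * (G s b b).im with hF
  have hder : ∀ s : ℝ, 0 ≤ s → s ≤ 1 → HasDerivAt F
      (∑ x ∈ Dᶜ, κ x * (w x * (-Complex.I * ∑ c, (l c : ℂ) * (G s x c * G s c x))).re +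
        (-(∑ b ∈ D, l b * (G s b b).im) +
          (1 - s) * ∑ b ∈ D, l b * (-Complex.I * ∑ c, (l c : ℂ) * (G s b c * G s c b)).im)) s := by
    intro s h0 h1
    have hd := fun a b => der_gr (hNs s h0 h1) a b
    refine HasDerivAt.add ?_ ?_
    · refine HasDerivAt.fun_sum fun x _ => ?_
      refine HasDerivAt.const_mul _ ?_
      have e1 := (hd x x).const_mul (w x)
      exact (Complex.reCLM.hasFDerivAt.comp_hasDerivAt s e1)
    · have e2 : HasDerivAt (fun s : ℝ => ∑ b ∈ D, l b * (G s b b).im)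
          (∑ b ∈ D, l b * (-Complex.I * ∑ c, (l c : ℂ) * (G s b c * G s c b)).im) s := by
        refine HasDerivAt.fun_sum fun b _ => ?_
        refine HasDerivAt.const_mul _ ?_
        exact (Complex.imCLM.hasFDerivAt.comp_hasDerivAt s (hd b b))
      have e3 : HasDerivAt (fun s : ℝ => 1 - s) (-1) s := by
        simpa using (hasDerivAt_id s).const_sub 1
      have e4 := e3.mul e2
      refine e4.congr_deriv ?_
      ring
  have hneg : ∀ s : ℝ, 0 ≤ s → s ≤ 1 →
      ∑ x ∈ Dᶜ, κ x * (w x * (-Complex.I * ∑ c, (l c : ℂ) * (G s x c * G s c x))).re +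
        (-(∑ b ∈ D, l b * (G s b b).im) +
          (1 - s) * ∑ b ∈ D, l b * (-Complex.I * ∑ c, (l c : ℂ) * (G s b c * G s c b)).im) ≤ 0 := by
    intro s h0 h1'
    have hNN := hNs s h0 h1'
    have hsym : ∀ a b, G s a b = G s b a := fun a b => gr_sym hNN.sym _ a b
    have hward : ∀ b, ∑ y, (κ y - s * l y) * ‖G s b y‖ ^ 2 = (G s b b).im := fun b =>
      ward_diag hNN.sym (mat_unit hNN) b
    have hsq : ∀ a c, ‖G s a c * G s c a‖ = ‖G s a c‖ ^ 2 := fun a c => by
      rw [hsym c a, norm_mul, sq]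
    have e1 : ∀ x, (w x * (-Complex.I * ∑ c, (l c : ℂ) * (G s x c * G s c x))).re ≤
        ∑ c, l c * ‖G s x c‖ ^ 2 := fun x => by
      refine (Complex.re_le_norm _).trans ?_
      rw [norm_mul, norm_mul, norm_neg, Complex.norm_I, one_mul]
      refine (mul_le_of_le_one_left (norm_nonneg _) (hw1 x)).trans ?_
      refine (norm_sum_le _ _).trans (Finset.sum_le_sum fun c _ => ?_)
      rw [norm_mul, hsq, Complex.norm_real, Real.norm_eq_abs, abs_of_nonneg (hl1 c)]
    have e2 : ∀ b, (-Complex.I * ∑ c, (l c : ℂ) * (G s b c * G s c b)).im ≤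
        ∑ c, l c * ‖G s b c‖ ^ 2 := fun b => by
      refine (Complex.im_le_norm _).trans ?_
      rw [norm_mul, norm_neg, Complex.norm_I, one_mul]
      refine (norm_sum_le _ _).trans (Finset.sum_le_sum fun c _ => ?_)
      rw [norm_mul, hsq, Complex.norm_real, Real.norm_eq_abs, abs_of_nonneg (hl1 c)]
    have e3 : ∀ (f : X → ℝ), ∑ c, l c * f c = ∑ c ∈ D, l c * f c := fun f => by
      symm
      refine Finset.sum_subset (Finset.subset_univ _) fun c _ hc => ?_
      rw [hl0 c hc, zero_mul]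
    have e4 : ∑ x ∈ Dᶜ, κ x * (w x * (-Complex.I * ∑ c, (l c : ℂ) * (G s x c * G s c x))).re ≤
        ∑ c ∈ D, l c * ∑ x ∈ Dᶜ, κ x * ‖G s c x‖ ^ 2 := by
      calc _ ≤ ∑ x ∈ Dᶜ, κ x * ∑ c ∈ D, l c * ‖G s x c‖ ^ 2 := by
            refine Finset.sum_le_sum fun x _ => ?_
            rw [← e3 fun c => ‖G s x c‖ ^ 2]
            exact mul_le_mul_of_nonneg_left (e1 x) (hN.pos x).le
        _ = _ := by
            simp_rw [Finset.mul_sum]
            rw [Finset.sum_comm]
            refine Finset.sum_congr rfl fun c _ => Finset.sum_congr rfl fun x _ => ?_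
            rw [hsym x c]
            ring
    have e5 : ∑ b ∈ D, l b * (-Complex.I * ∑ c, (l c : ℂ) * (G s b c * G s c b)).im ≤
        ∑ b ∈ D, l b * ∑ c ∈ D, l c * ‖G s b c‖ ^ 2 := by
      refine Finset.sum_le_sum fun b _ => ?_
      rw [← e3 fun c => ‖G s b c‖ ^ 2]
      exact mul_le_mul_of_nonneg_left (e2 b) (hl1 b)
    have e6 : ∀ c, (G s c c).im = ∑ x ∈ Dᶜ, κ x * ‖G s c x‖ ^ 2 +
        ∑ b ∈ D, (κ b - s * l b) * ‖G s c b‖ ^ 2 := fun c => by
      rw [← hward c, ← Finset.sum_add_sum_compl D, add_comm]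
      congr 1
      refine Finset.sum_congr rfl fun x hx => ?_
      rw [hl0 x (Finset.mem_compl.1 hx)]
      ring
    have e7 : ∑ b ∈ D, l b * (G s b b).im = ∑ b ∈ D, l b * ∑ x ∈ Dᶜ, κ x * ‖G s b x‖ ^ 2 +
        ∑ b ∈ D, l b * ∑ c ∈ D, (κ c - s * l c) * ‖G s b c‖ ^ 2 := by
      rw [← Finset.sum_add_distrib]
      refine Finset.sum_congr rfl fun b _ => ?_
      rw [e6 b]
      ring
    have e8 : (1 - s) * ∑ b ∈ D, l b * ∑ c ∈ D, l c * ‖G s b c‖ ^ 2 ≤
        ∑ b ∈ D, l b * ∑ c ∈ D, (κ c - s * l c) * ‖G s b c‖ ^ 2 := by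
      rw [Finset.mul_sum]
      refine Finset.sum_le_sum fun b _ => ?_
      rw [mul_left_comm]
      refine mul_le_mul_of_nonneg_left ?_ (hl1 b)
      rw [Finset.mul_sum]
      refine Finset.sum_le_sum fun c _ => ?_
      have := hl2 c
      have h5 : (1 - s) * l c ≤ κ c - s * l c := by linarith
      calc (1 - s) * (l c * ‖G s b c‖ ^ 2) = ((1 - s) * l c) * ‖G s b c‖ ^ 2 := by ring
        _ ≤ _ := mul_le_mul_of_nonneg_right h5 (sq_nonneg _)
    have e9 := mul_le_mul_of_nonneg_left e5 (show 0 ≤ 1 - s by linarith)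
    linarith
  have hanti : AntitoneOn F (Set.Icc 0 1) := by
    refine antitoneOn_of_deriv_nonpos (convex_Icc 0 1)
      (fun s hs => (hder s hs.1 hs.2).continuousAt.continuousWithinAt) (fun s hs => ?_)
      fun s hs => ?_
    · rw [interior_Icc] at hs
      exact (hder s hs.1.le hs.2.le).differentiableAt.differentiableWithinAt
    · rw [interior_Icc] at hs
      rw [(hder s hs.1.le hs.2.le).deriv]
      exact hneg s hs.1.le hs.2.le
  have hfin := hanti (Set.left_mem_Icc.2 zero_le_one) (Set.right_mem_Icc.2 zero_le_one) zero_le_one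
  have hG0 : G 0 = Gr H κ := by
    funext a b
    rw [hG]
    simp
  have hG1 : G 1 = Gr H κ' := by
    funext a b
    rw [hG]
    simp only
    congr 2
    funext x
    rw [hl]
    ring
  rw [hF] at hfin
  simp only at hfin
  rw [hG0, hG1] at hfin
  have hend : ∑ x ∈ Dᶜ, κ x * ‖Gr H κ' x x - Gr H κ x x‖ =
      ∑ x ∈ Dᶜ, κ x * (w x * Gr H κ' x x).re - ∑ x ∈ Dᶜ, κ x * (w x * Gr H κ x x).re := by
    rw [← Finset.sum_sub_distrib]
    refine Finset.sum_congr rfl fun x _ => ?_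
    rw [← hw2 x, mul_sub, Complex.sub_re]
    ring
  rw [hend]
  linarith

end Pool.Agent.ACS.H72
end
end -- Pool.Agent.Helper72_ACS.Tri

section -- Pool.Agent.Helper72_ACS.Tri2

/-!
# QDA: the resolvent of a network is a contraction

With `κ` the absorption, `√κ G √κ` is a contraction.
-/

set_option autoImplicit false

open scoped BigOperators Matrix ComplexConjugate Topology

noncomputable section

namespace Pool.Agent.ACS.H72

open Pool.Agent.ANR (Gr Net opv GeqStmt)
open Pool.Agent.HSL14 (mat gr_eq gr_sym mat_unit ward_diag)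

variable {X : Type} [Fintype X] [DecidableEq X]

theorem geqT : GeqStmt :=
  Pool.Agent.ANR.H72.geq (Pool.Agent.ANR.H77.dir Pool.Agent.ANR.H63.grn) Pool.Agent.ANR.H63.grn

/-- `√κ G √κ` is a contraction, first form -/
theorem contr1 {H : Matrix X X ℝ} {κ : X → ℝ} (hN : Net H κ) (v : X → ℂ) :
    ∑ x, κ x * ‖∑ y, Gr H κ x y * (κ y * v y)‖ ^ 2 ≤ ∑ x, κ x * ‖v x‖ ^ 2 := by
  set w : X → ℂ := fun x => ∑ y, Gr H κ x y * (κ y * v y) with hw
  have h1 : ∀ x, opv H κ w x = κ x * v x := by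
    intro x
    have e1 : opv H κ w x = ∑ y, opv H κ (fun z => Gr H κ z y) x * (κ y * v y) := by
      have e0 : ∀ y, opv H κ (fun z => Gr H κ z y) x * (κ y * v y) =
          (∑ z, (H x z : ℂ) * (Gr H κ z y * (κ y * v y))) -
            (Complex.I * κ x) * (Gr H κ x y * (κ y * v y)) := fun y => by
        unfold opv
        rw [sub_mul, Finset.sum_mul]
        congr 1
        · refine Finset.sum_congr rfl fun z _ => ?_
          ring
        · ring
      rw [Finset.sum_congr rfl fun y _ => e0 y, Finset.sum_sub_distrib, Finset.sum_comm,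
        ← Finset.mul_sum]
      unfold opv
      rw [hw]
      simp only
      rw [Finset.sum_congr rfl fun z _ => Finset.mul_sum _ _ _]
    rw [e1]
    have e2 := (geqT X H κ hN).1
    rw [Finset.sum_congr rfl fun y _ => by rw [e2 x y]]
    simp
  have h2 := (Pool.Agent.ANR.H63.grn X H κ hN).2 w
  have h3 : ∑ x, κ x * ‖w x‖ ^ 2 ≤ ∑ x, κ x * (‖w x‖ * ‖v x‖) := by
    have e3 : ∑ x, κ x * ‖w x‖ ^ 2 = -(∑ x, conj (w x) * opv H κ w x).im := by
      rw [h2]
      ring
    rw [e3]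
    refine (neg_le_abs _).trans ((Complex.abs_im_le_norm _).trans ?_)
    refine (norm_sum_le _ _).trans (Finset.sum_le_sum fun x _ => ?_)
    rw [h1 x, norm_mul, norm_mul, Complex.norm_conj, Complex.norm_real, Real.norm_eq_abs,
      abs_of_pos (hN.pos x)]
    exact le_of_eq (by ring)
  have h4 : ∑ x, κ x * (‖w x‖ * ‖v x‖) ≤
      (1 / 2) * ∑ x, κ x * ‖w x‖ ^ 2 + (1 / 2) * ∑ x, κ x * ‖v x‖ ^ 2 := by
    rw [Finset.mul_sum, Finset.mul_sum, ← Finset.sum_add_distrib]
    refine Finset.sum_le_sum fun x _ => ?_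
    have := hN.pos x
    nlinarith [sq_nonneg (‖w x‖ - ‖v x‖)]
  linarith

/-- `√κ G √κ` is a contraction, second form -/
theorem contr2 {H : Matrix X X ℝ} {κ : X → ℝ} (hN : Net H κ) (u v : X → ℂ) :
    ‖∑ x, ∑ y, (κ x * u x) * Gr H κ x y * (κ y * v y)‖ ≤
      (1 / 2) * ∑ x, κ x * ‖u x‖ ^ 2 + (1 / 2) * ∑ x, κ x * ‖v x‖ ^ 2 := by
  have h1 : ∑ x, ∑ y, (κ x * u x) * Gr H κ x y * (κ y * v y) =
      ∑ x, (κ x * u x) * ∑ y, Gr H κ x y * (κ y * v y) := by
    refine Finset.sum_congr rfl fun x _ => ?_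
    rw [Finset.mul_sum]
    refine Finset.sum_congr rfl fun y _ => ?_
    ring
  rw [h1]
  have h2 : ‖∑ x, (κ x * u x) * ∑ y, Gr H κ x y * (κ y * v y)‖ ≤
      ∑ x, κ x * (‖u x‖ * ‖∑ y, Gr H κ x y * (κ y * v y)‖) := by
    refine (norm_sum_le _ _).trans (Finset.sum_le_sum fun x _ => ?_)
    rw [norm_mul, norm_mul, Complex.norm_real, Real.norm_eq_abs, abs_of_pos (hN.pos x)]
    exact le_of_eq (by ring)
  have h3 : ∑ x, κ x * (‖u x‖ * ‖∑ y, Gr H κ x y * (κ y * v y)‖) ≤
      (1 / 2) * ∑ x, κ x * ‖u x‖ ^ 2 +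
        (1 / 2) * ∑ x, κ x * ‖∑ y, Gr H κ x y * (κ y * v y)‖ ^ 2 := by
    rw [Finset.mul_sum, Finset.mul_sum, ← Finset.sum_add_distrib]
    refine Finset.sum_le_sum fun x _ => ?_
    have := hN.pos x
    nlinarith [sq_nonneg (‖u x‖ - ‖∑ y, Gr H κ x y * (κ y * v y)‖)]
  have h4 := contr1 hN v
  linarith

end Pool.Agent.ACS.H72
end
end -- Pool.Agent.Helper72_ACS.Tri2

section -- Pool.Agent.Helper72_QDA.Shf

/-!
# QDA, EDQ: a real shift of the potential on a small set
-/

set_option autoImplicit false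

open scoped BigOperators ComplexConjugate

noncomputable section

namespace Pool.Agent.QDA.H72

open Pool.Agent.ANR (Net Gr)
open Pool.Agent.HSL14 (mat gr_sym mat_unit ward_diag)

variable {X : Type} [Fintype X] [DecidableEq X]

/-- Ward, columns -/
theorem ward_col {H : Matrix X X ℝ} {η : ℝ} (hN : Net H (fun _ => η)) (b : X) :
    ∑ x, η * ‖Gr H (fun _ => η) x b‖ ^ 2 = (Gr H (fun _ => η) b b).im := by
  have h1 := ward_diag hN.sym (mat_unit hN) b
  rw [← h1]
  refine Finset.sum_congr rfl fun x _ => ?_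
  rw [gr_sym hN.sym _ x b]

/-- a real shift of the potential on `D` -/
theorem shift (H H₂ : Matrix X X ℝ) (D : Finset X) (η ρ : ℝ) (u : X → ℝ)
    (hH : ∀ x y, H x y = H y x) (hH₂ : ∀ x y, H₂ x y = H₂ y x) (hη : 0 < η) (hρ : 0 ≤ ρ)
    (hu0 : ∀ x, x ∉ D → u x = 0) (hu : ∀ x, |u x| ≤ ρ * η)
    (hHH : ∀ x y, H x y = H₂ x y + if x = y then u x else 0) :
    (∀ b, (Gr H₂ (fun _ => η) b b).im ≤ (2 + 2 * ρ ^ 2) * (Gr H (fun _ => η) b b).im) ∧
    (∑ x, ∑ y, η * ‖Gr H (fun _ => η) x y - Gr H₂ (fun _ => η) x y‖ ^ 2 ≤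
      ρ ^ 2 * ∑ b ∈ D, (Gr H (fun _ => η) b b).im) ∧
    ∑ x, ‖Gr H (fun _ => η) x x - Gr H₂ (fun _ => η) x x‖ ≤
      ρ / 2 * (3 + 2 * ρ ^ 2) * ∑ b ∈ D, (Gr H (fun _ => η) b b).im := by
  have hN : Net H (fun _ => η) := ⟨hH, fun _ => hη⟩
  have hN₂ : Net H₂ (fun _ => η) := ⟨hH₂, fun _ => hη⟩
  have hid : ∀ a b, Gr H (fun _ => η) a b - Gr H₂ (fun _ => η) a b =
      ∑ c, Gr H₂ (fun _ => η) a c * (η * (((-(u c) / η : ℝ) : ℂ) * Gr H (fun _ => η) c b)) := by
    intro a b
    have h1 := Pool.Agent.AHH.H72.gr_change (z := fun c => ((-(u c) : ℝ) : ℂ)) hN₂ hN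
      (fun x y => by
        rw [hHH x y, Complex.ofReal_re]
        split_ifs <;> ring)
      (fun x => by rw [Complex.ofReal_im, add_zero]) a b
    rw [h1, add_sub_cancel_left]
    refine Finset.sum_congr rfl fun c _ => ?_
    have hη' : (η : ℂ) ≠ 0 := by exact_mod_cast hη.ne'
    push_cast
    field_simp
  have him : ∀ b, 0 ≤ (Gr H (fun _ => η) b b).im := fun b =>
    Pool.Agent.ACS.H48.im_nonneg hN b
  -- one column
  have hcol : ∀ y, ∑ x, η * ‖Gr H (fun _ => η) x y - Gr H₂ (fun _ => η) x y‖ ^ 2 ≤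
      ρ ^ 2 * ∑ b ∈ D, η * ‖Gr H (fun _ => η) b y‖ ^ 2 := by
    intro y
    have h1 := Pool.Agent.ACS.H72.contr1 hN₂
      (fun c => ((-(u c) / η : ℝ) : ℂ) * Gr H (fun _ => η) c y)
    calc ∑ x, η * ‖Gr H (fun _ => η) x y - Gr H₂ (fun _ => η) x y‖ ^ 2 =
          ∑ x, η * ‖∑ c, Gr H₂ (fun _ => η) x c *
            (η * (((-(u c) / η : ℝ) : ℂ) * Gr H (fun _ => η) c y))‖ ^ 2 := by
            refine Finset.sum_congr rfl fun x _ => ?_
            rw [hid x y]
      _ ≤ ∑ c, η * ‖((-(u c) / η : ℝ) : ℂ) * Gr H (fun _ => η) c y‖ ^ 2 := h1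
      _ = ∑ c ∈ D, η * ‖((-(u c) / η : ℝ) : ℂ) * Gr H (fun _ => η) c y‖ ^ 2 := by
            symm
            refine Finset.sum_subset (Finset.subset_univ _) fun c _ hc => ?_
            rw [hu0 c hc]
            simp
      _ ≤ ∑ c ∈ D, ρ ^ 2 * (η * ‖Gr H (fun _ => η) c y‖ ^ 2) := by
            refine Finset.sum_le_sum fun c _ => ?_
            rw [norm_mul, mul_pow, Complex.norm_real, Real.norm_eq_abs, abs_div, abs_neg,
              abs_of_pos hη]
            have h2 : |u c| / η ≤ ρ := by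
              rw [div_le_iff₀ hη]
              exact hu c
            have h3 : (|u c| / η) ^ 2 ≤ ρ ^ 2 := pow_le_pow_left₀ (by positivity) h2 2
            have h4 : 0 ≤ η * ‖Gr H (fun _ => η) c y‖ ^ 2 := by positivity
            nlinarith only [mul_le_mul_of_nonneg_right h3 h4]
      _ = _ := by rw [Finset.mul_sum]
  have h1 : ∀ b, (Gr H₂ (fun _ => η) b b).im ≤ (2 + 2 * ρ ^ 2) * (Gr H (fun _ => η) b b).im := by
    intro b
    rw [← ward_col hN₂ b]
    have e1 := hcol b
    have e2 : ∑ c ∈ D, η * ‖Gr H (fun _ => η) c b‖ ^ 2 ≤ (Gr H (fun _ => η) b b).im := by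
      rw [← ward_col hN b]
      exact Finset.sum_le_sum_of_subset_of_nonneg (Finset.subset_univ _) fun x _ _ => by positivity
    have e3 : ∑ x, η * ‖Gr H₂ (fun _ => η) x b‖ ^ 2 ≤
        2 * (∑ x, η * ‖Gr H (fun _ => η) x b‖ ^ 2) +
        2 * ∑ x, η * ‖Gr H (fun _ => η) x b - Gr H₂ (fun _ => η) x b‖ ^ 2 := by
      rw [Finset.mul_sum, Finset.mul_sum, ← Finset.sum_add_distrib]
      refine Finset.sum_le_sum fun x _ => ?_
      have e4 : ‖Gr H₂ (fun _ => η) x b‖ ≤ ‖Gr H (fun _ => η) x b‖ +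
          ‖Gr H (fun _ => η) x b - Gr H₂ (fun _ => η) x b‖ := by
        have := norm_sub_le (Gr H (fun _ => η) x b)
          (Gr H (fun _ => η) x b - Gr H₂ (fun _ => η) x b)
        rwa [sub_sub_cancel] at this
      have e5 : ‖Gr H₂ (fun _ => η) x b‖ ^ 2 ≤ 2 * ‖Gr H (fun _ => η) x b‖ ^ 2 +
          2 * ‖Gr H (fun _ => η) x b - Gr H₂ (fun _ => η) x b‖ ^ 2 := by
        have := mul_self_le_mul_self (norm_nonneg _) e4
        nlinarith only [sq_nonneg (‖Gr H (fun _ => η) x b‖ -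
          ‖Gr H (fun _ => η) x b - Gr H₂ (fun _ => η) x b‖), this]
      have := mul_le_mul_of_nonneg_left e5 hη.le
      linarith
    rw [ward_col hN b] at e3
    have e6 := mul_le_mul_of_nonneg_left e2 (sq_nonneg ρ)
    linarith
  refine ⟨h1, ?_, ?_⟩
  · rw [Finset.sum_comm]
    refine (Finset.sum_le_sum fun y _ => hcol y).trans (le_of_eq ?_)
    rw [← Finset.mul_sum, Finset.sum_comm]
    congr 1
    refine Finset.sum_congr rfl fun b _ => ?_
    rw [← ward_col hN b]
    refine Finset.sum_congr rfl fun y _ => ?_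
    rw [gr_sym hN.sym _ b y]
  · have e1 : ∀ x, ‖Gr H (fun _ => η) x x - Gr H₂ (fun _ => η) x x‖ ≤
        ∑ c ∈ D, (ρ / 2 * (η * ‖Gr H₂ (fun _ => η) x c‖ ^ 2) +
          ρ / 2 * (η * ‖Gr H (fun _ => η) x c‖ ^ 2)) := by
      intro x
      rw [hid x x]
      have e2 : ∑ c, Gr H₂ (fun _ => η) x c *
            (η * (((-(u c) / η : ℝ) : ℂ) * Gr H (fun _ => η) c x)) =
          ∑ c ∈ D, Gr H₂ (fun _ => η) x c *
            (η * (((-(u c) / η : ℝ) : ℂ) * Gr H (fun _ => η) c x)) := by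
        symm
        refine Finset.sum_subset (Finset.subset_univ _) fun c _ hc => ?_
        rw [hu0 c hc]
        simp
      rw [e2]
      refine (norm_sum_le _ _).trans (Finset.sum_le_sum fun c _ => ?_)
      rw [norm_mul, norm_mul, norm_mul, Complex.norm_real, Complex.norm_real, Real.norm_eq_abs,
        Real.norm_eq_abs, abs_of_pos hη, abs_div, abs_neg, abs_of_pos hη, gr_sym hN.sym _ c x]
      have h2 : |u c| / η ≤ ρ := by
        rw [div_le_iff₀ hη]
        exact hu c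
      have h3 : ‖Gr H₂ (fun _ => η) x c‖ * (η * (|u c| / η * ‖Gr H (fun _ => η) x c‖)) ≤
          ‖Gr H₂ (fun _ => η) x c‖ * (η * (ρ * ‖Gr H (fun _ => η) x c‖)) := by
        gcongr
      refine h3.trans ?_
      have h4 := mul_nonneg (mul_nonneg hρ hη.le)
        (sq_nonneg (‖Gr H₂ (fun _ => η) x c‖ - ‖Gr H (fun _ => η) x c‖))
      nlinarith only [h4]
    refine (Finset.sum_le_sum fun x _ => e1 x).trans ?_
    rw [Finset.sum_comm]
    have e3 : ∀ c ∈ D, ∑ x, (ρ / 2 * (η * ‖Gr H₂ (fun _ => η) x c‖ ^ 2) +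
          ρ / 2 * (η * ‖Gr H (fun _ => η) x c‖ ^ 2)) ≤
        ρ / 2 * (3 + 2 * ρ ^ 2) * (Gr H (fun _ => η) c c).im := by
      intro c _
      have e5 : ∑ x, (ρ / 2 * (η * ‖Gr H₂ (fun _ => η) x c‖ ^ 2) +
          ρ / 2 * (η * ‖Gr H (fun _ => η) x c‖ ^ 2)) =
          ρ / 2 * (Gr H₂ (fun _ => η) c c).im + ρ / 2 * (Gr H (fun _ => η) c c).im := by
        rw [← ward_col hN c, ← ward_col hN₂ c, Finset.mul_sum, Finset.mul_sum,
          ← Finset.sum_add_distrib]
      rw [e5]
      have e4 := mul_le_mul_of_nonneg_left (h1 c) (show 0 ≤ ρ / 2 by positivity)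
      linarith
    refine (Finset.sum_le_sum e3).trans (le_of_eq ?_)
    rw [Finset.mul_sum]

end Pool.Agent.QDA.H72
end
end -- Pool.Agent.Helper72_QDA.Shf
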