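import Pool.Agent.Helper12_MEB.B030
import Pool.Agent.Helper12_MEB.B086
import Pool.Agent.Helper12_MEB.B144

/-!
# Merged copies (generated) of the modules

* `Pool.Agent.ANE.Stmts`
* `Pool.Agent.ANE.Stmts2`
* `Pool.Agent.ANE.Stmts3`
* `Pool.Agent.AND2B.Stmts`
-/

set_option autoImplicit false

section -- Pool.Agent.ANE.Stmts

/-!
# Anderson model in dimension `≥ 3`: from the tori to continuous spectrum, statements

Useful: `Pool.Agent.AEN.H76.en2T : En2Stmt` (`Helper76_AEN/All.lean`), `Pool.Agent.Mob.H69.cth :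
CthStmt` (`Helper69_Mob/Cth.lean`), `Pool.Agent.LE.QX.H90` (`Helper90_LQX/EGB.lean`: the cutoff `ct`,
`rep_ti`, `rep_add`, `rep_sub`, `hz_mulVec`, `comm_bound`, `sum_rep`, `sum_shift`),
`Pool.Agent.LE.IR.H54.law_le` (`Helper54_LIR/CPEb.lean`), `Pool.Agent.LE.CH.H77.erg : ErgStmt`
(`Helper77_LCH/ERG.lean`).
-/

set_option autoImplicit false

open MeasureTheory ProbabilityTheory Function Filter

open scoped ENNReal BigOperators InnerProductSpace Topology NNReal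

noncomputable section

namespace Pool.Agent.ANE

open Pool.Agent.Anderson hiding box mem_box card_box
open Pool.Agent.Loc Pool.Agent.Mob Pool.Agent.Helper54.Bal
  Pool.Agent.Helper96.EXP Pool.Agent.BED
open Pool.Agent.LE.MN Pool.Agent.LE.CL Pool.Agent.LE.IR Pool.Agent.LE.QD

universe u

/-- TOR: THE INTERFACE with the analysis (blocks P1 - P3, I0): at weak disorder and for almost every
energy of the bulk there are `c, p > 0` with `P (c ≤ Im G_00 (E + i η)) ≥ p` on a torus of side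
`M ≥ η^{-2}`, for arbitrarily small `η`. -/
def TorStmt : Prop :=
  ∀ (d : ℕ) (a : ℝ), 3 ≤ d → 0 < a → ∃ s₀ : ℝ, 0 < s₀ ∧ ∀ σ : ℝ, σ ≠ 0 → |σ| ≤ s₀ →
    ∀ᵐ E ∂((volume : Measure ℝ).restrict (Set.Ioo (-(2 * d - a)) (2 * d - a))),
      ∃ c p : ℝ, 0 < c ∧ 0 < p ∧ ∀ ε : ℝ, 0 < ε → ∃ (η : ℝ) (M : ℕ) (_ : NeZero M),
        0 < η ∧ η ≤ ε ∧ 1 ≤ η ^ 2 * M ∧ ∀ v : ℝ≥0, (v : ℝ) = σ ^ 2 →
          ENNReal.ofReal p ≤ gau d M v {V | c ≤ (rs V ⟨E, η⟩ 0 0).im}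

/-- CTZ: the Green function at the origin on the lattice and on the torus. Proof: `C` large. If
`M < 16 (d + 1)` both numbers are at most `1 / η` in absolute value. Otherwise `u = G V z δ_0`,
`L = (M - 3) / 4 ≥ 1`, `v x = ct L (rep x) * u (rep x)`: as in the proof of `egb`
(`Helper90_LQX/EGB.lean`) `hz W z *ᵥ v = δ_0 + r` with `r` = the commutator, which vanishes unless
`L ≤ sd 0 (rep x) ≤ 2 L`; `comm_bound` and `sum_rep` give `n2 r ≤ 8 d² ∑_{sd 0 y ≥ L - 1} ‖u y‖²`,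
and `CthStmt` with `α = η / (8 (d + 1))` (`e^α - 1 ≤ 2 α`) gives `≤ 8 d² exp (-2 α (L - 1)) 4 / η²`.
`v = rs (δ_0 + r)`, so `v 0 - rs 0 0 = (rs r) 0`, at most `(1 / η) √(n2 r)`. -/
def CtzStmt : Prop :=
  ∀ d : ℕ, ∃ C : ℝ, 1 ≤ C ∧ ∀ (M : ℕ) [NeZero M] (V : Site d → ℝ) (E η : ℝ), 0 < η → η ≤ 1 →
    ‖G V (zz η E) (del 0) 0 - rs (fun x : Tor d M => V (rep x)) ⟨E, η⟩ 0 0‖ ≤
      C / η ^ 2 * Real.exp (-(η * M / C))

/-- MRS: measurability. Proof: the inverse of a matrix is `Ring.inverse det • adjugate`, the entries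
are measurable (continuous) functions of `V`; or: continuity of `V ↦ rs V z` for `z.im ≠ 0`
(see `Helper60_LQY/Base.lean`). -/
def MrsStmt : Prop :=
  ∀ (d M : ℕ) [NeZero M] (z : ℂ) (x y : Tor d M), 0 < z.im →
    Measurable fun V : Tor d M → ℝ => rs V z x y

/-- LAW (uses CTZ, MRS): the transfer of probabilities. Proof: `law_le` (`b = 0`) for the event
`¬ P`, or the equality of the laws in its proof, with `MrsStmt`. Take `A + 1` in the place of `A` and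
`ε` so small that `C / η² * exp (-(η M / C)) ≤ η` if `η ≤ ε`, `η M ≥ 1 / η`. -/
def LawStmt : Prop :=
  ∀ (d : ℕ) (σ E : ℝ) (p : ℝ≥0∞), σ ≠ 0 →
    (∀ A ε : ℝ, 0 < ε → ∃ (η : ℝ) (M : ℕ) (_ : NeZero M), 0 < η ∧ η ≤ ε ∧ 1 ≤ η ^ 2 * M ∧
      ∀ v : ℝ≥0, (v : ℝ) = σ ^ 2 → p ≤ gau d M v {V | A * η ≤ (rs V ⟨E, η⟩ 0 0).im}) →
    ∀ A : ℝ, ∃ η : ℝ, 0 < η ∧ p ≤ PP d (gl σ) {V | A * η ≤ (G V (zz η E) (del 0) 0).im}

/-- `|V - l| ≤ δ` on the cube of radius `n` at `b` -/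
def FlB {d : ℕ} (V : Site d → ℝ) (l δ : ℝ) (n : ℕ) (b : Site d) : Prop :=
  ∀ y : Site d, sd b y ≤ n → |V y - l| ≤ δ

/-- WEY: Weyl vectors in flat cubes. Proof: `ψ y = max 0 (n - sd b y)`, finitely supported,
`|∑ (ψ (y ± e_i) - ψ y)| ≤ 2 d`, zero for `sd b y > n`; `‖ψ‖² ≥ (n / 2)² n^d` up to a constant,
`‖lap ψ - 2 d ψ‖² ≤ 4 d² (2 n + 1)^d`. Normalize. -/
def WeyStmt : Prop :=
  ∀ d : ℕ, ∃ C : ℝ, 1 ≤ C ∧ ∀ (V : Site d → ℝ) (l δ : ℝ) (n : ℕ) (b : Site d), 1 ≤ n → 0 ≤ δ →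
    FlB V l δ n b → ∃ φ : L2 d, ‖φ‖ = 1 ∧ (∀ y, n < sd b y → φ y = 0) ∧
      IsQuasi V (C * (1 / n + δ)) (l + 2 * d) φ

/-- FLT: there are flat cubes. Proof: for fixed `l δ n` the set `A = {V | ∃ b, FlB V l δ n b}` is
measurable and invariant under `tau`; it contains `{V | FlB V l δ n 0}`, whose probability is a
finite product of numbers `gl σ [l - δ, l + δ] > 0` (`Measure.infinitePi_pi`); `ErgStmt` for `1 ≤ d`. -/
def FltStmt : Prop :=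
  ∀ (d : ℕ) (σ : ℝ), 1 ≤ d → σ ≠ 0 → ∀ᵐ V ∂(PP d (gl σ)), ∀ (l : ℚ) (k n : ℕ),
    ∃ b : Site d, FlB V l (1 / (k + 1)) n b

/-- SPC (uses WEY, FLT): the spectrum is the whole line. Proof: a rational `l` with
`|l - (E₀ - 2 d)| ≤ ε / 4`, large `n`, `k`. -/
def SpcStmt : Prop :=
  ∀ (d : ℕ) (σ : ℝ), 1 ≤ d → σ ≠ 0 → ∀ᵐ V ∂(PP d (gl σ)), ∀ E₀ ε : ℝ, 0 < ε →
    ∃ φ : L2 d, ‖φ‖ = 1 ∧ {x : Site d | φ x ≠ 0}.Finite ∧ IsQuasi V ε E₀ φ

/-- FIN (uses TOR, LAW, SPC, `AEN.En2Stmt`): continuous spectrum in the bulk at weak disorder.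
Proof: `TorStmt` gives the hypothesis of `LawStmt` with `p = ENNReal.ofReal p`
(`A * η ≤ c` if `η ≤ c / (|A| + 1)`, `measure_mono`), `En2Stmt` with the interval
`(-(2 d - a), 2 d - a)`. The law of `V y = σ ξ y` is `PP d (gl σ)` (see the other final theorems,
for example `Helper77_LCH` / `Results/MP_1906c1_mp/LyapunovExponent.lean`). -/
def FinStmt : Prop :=
  ∀ (d : ℕ) (a : ℝ), 3 ≤ d → 0 < a → ∃ s₀ : ℝ, 0 < s₀ ∧ ∀ σ : ℝ, σ ≠ 0 → |σ| ≤ s₀ →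
    ∀ (Ω : Type u) [MeasurableSpace Ω] (P : Measure Ω) [IsProbabilityMeasure P]
      (ξ : Site d → Ω → ℝ), (∀ y, Measurable (ξ y)) → (∀ y, P.map (ξ y) = gaussianReal 0 1) →
      iIndepFun ξ P → ∀ᵐ ω ∂P,
        (∀ E₀ ε : ℝ, 0 < ε → ∃ φ : L2 d, ‖φ‖ = 1 ∧ {x : Site d | φ x ≠ 0}.Finite ∧
          IsQuasi (fun y => σ * ξ y ω) ε E₀ φ) ∧
        ∀ E₀ : ℝ, |E₀| < 2 * d - a → ∀ φ : L2 d, IsEigen (fun y => σ * ξ y ω) E₀ φ → φ = 0

end Pool.Agent.ANE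
end
end -- Pool.Agent.ANE.Stmts

section -- Pool.Agent.ANE.Stmts2

/-!
# Anderson model in dimension `≥ 3`: the end, second version (absorption only on the alive sites)

The torus statement contains no `η`: the set `Sol d M E A` of the potentials on the torus for which
`(H - E) v = δ_0` has a solution with `∑ v² ≤ A` in the middle of the torus. If `G_(E + i 0) δ_0` is
bounded in `ℓ²(ℤ^d)` with positive probability ... : `Bd V E 0` implies `Sol` on every torus (`LAT`), so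
`P (Sol) ≤ 1 - p` for every `A`, for some torus, gives `P (Bd V E 0) ≤ 1 - p`, and `AEN.EndStmt` gives
the absence of eigenvalues. In a good final state of the flow `Sol` is impossible (`KEY`).
-/

set_option autoImplicit false

open MeasureTheory ProbabilityTheory Function Filter

open scoped ENNReal BigOperators InnerProductSpace Topology NNReal

noncomputable section

namespace Pool.Agent.ANE

open Pool.Agent.Anderson hiding box mem_box card_box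
open Pool.Agent.Loc Pool.Agent.Mob Pool.Agent.Helper54.Bal
  Pool.Agent.Helper96.EXP Pool.Agent.BED
open Pool.Agent.LE.MN Pool.Agent.LE.CL Pool.Agent.LE.IR Pool.Agent.LE.QD

universe u

/-- `(H - E) v = δ_0` in the middle of the torus, `∑ v² ≤ A` -/
def Sol (d M : ℕ) [NeZero M] (E A : ℝ) (U : Tor d M → ℝ) : Prop :=
  ∃ v : Tor d M → ℝ, ∑ x, v x ^ 2 ≤ A ∧ ∀ x : Tor d M, 4 * sd 0 (rep x) ≤ M →
    ∑ i : Fin d, (v (x + ev i) + v (x - ev i)) + (U x - E) * v x = if x = 0 then 1 else 0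

/-- TR2: THE INTERFACE with the analysis (blocks P1 - P3, I0). (`F = {U | Sol d M E A U}` in `ANP`:
`MSO` says that it is measurable; `ANP.Ana.out` follows from `KEY`.) -/
def Tr2Stmt : Prop :=
  ∀ (d : ℕ) (a : ℝ), 3 ≤ d → 0 < a → ∃ s₀ : ℝ, 0 < s₀ ∧ ∀ σ : ℝ, σ ≠ 0 → |σ| ≤ s₀ →
    ∀ᵐ E ∂((volume : Measure ℝ).restrict (Set.Ioo (-(2 * d - a)) (2 * d - a))),
      ∃ p : ℝ, 0 < p ∧ ∀ A : ℝ, ∃ (M : ℕ) (_ : NeZero M), 8 ≤ M ∧ ∀ v : ℝ≥0, (v : ℝ) = σ ^ 2 →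
        gau d M v {U | Sol d M E A U} ≤ ENNReal.ofReal (1 - p)

/-- MSO: measurability. Proof: the set is closed: the image of the closed set of the pairs `(U, v)` under
the projection along the compact set `∑ v² ≤ A` (`IsClosed.snd`/`isClosedMap_fst_of_compactSpace` or
sequences). -/
def MsoStmt : Prop :=
  ∀ (d M : ℕ) [NeZero M] (E A : ℝ), MeasurableSet {U : Tor d M → ℝ | Sol d M E A U}

/-- LAT: from the lattice to the torus. Proof: the vectors `g n = Gn V E n 0` are bounded by `C` in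
`ℓ²`; limit along an ultrafilter in each coordinate (or a subsequence), real part: a real function `v`
on `ℤ^d` with `∑ v² ≤ C²`, `lap v + (V - E) v = δ_0` (`G_eq`, `z → E`). Restrict it:
`v' x = v (rep x)` (`rep_add`, `rep_sub` in `Helper90_LQX/EGB.lean`, `rep` injective). -/
def LatStmt : Prop :=
  ∀ (d M : ℕ) [NeZero M] (V : Site d → ℝ) (E C : ℝ), 8 ≤ M →
    (∀ n, ‖Pool.Agent.AEN.Gn V E n 0‖ ≤ C) → Sol d M E (C ^ 2) fun x : Tor d M => V (rep x)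

/-- PR2 (uses LAT): `P (Bd) ≤ 1 - p < 1`. Proof: `law_le` (`Helper54_LIR/CPEb.lean`) for the event
`¬ Sol`; `{V | Bd V E 0}` is the increasing union of `{V | ∀ n, ‖Gn V E n 0‖ ≤ C}`, `C ∈ ℕ`. -/
def Pr2Stmt : Prop :=
  ∀ (d : ℕ) (σ E p : ℝ), σ ≠ 0 → 0 < p →
    (∀ A : ℝ, ∃ (M : ℕ) (_ : NeZero M), 8 ≤ M ∧ ∀ v : ℝ≥0, (v : ℝ) = σ ^ 2 →
      gau d M v {U | Sol d M E A U} ≤ ENNReal.ofReal (1 - p)) →
    PP d (gl σ) {V | ¬ Pool.Agent.AEN.Bd V E 0} ≠ 0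

/-- the Hamiltonian minus `E` on the torus -/
def HV (d M : ℕ) [NeZero M] (E : ℝ) (V : Tor d M → ℝ) : Matrix (Tor d M) (Tor d M) ℝ :=
  adj d M + Matrix.diagonal fun x => V x - E

/-- KEY: in a good final state there is no solution. `V` = the applied potential (with the real part of
the gauge), `U` = the true potential, `κ` = the absorption (arbitrarily small `> 0` off the alive sites
`Al`), `ρ` = the alive distance from the origin. Proof: `G = Gr (HV ..) κ`, `u` = the column `0`,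
`χ = 1` where `ρ < R`, `0` elsewhere, `v' = χ v`. `∑_x v'_x (δ_0 + i κ_x u_x) = ∑_x v'_x (HV u)_x =
∑_x (HV v')_x u_x = u_0 - ∑ χ (U - V) v u + ∑ r u`, `r_x = ∑_(y ~ x) (χ_y - χ_x) v_y`, imaginary parts:
`Im u_0 ≤ ∑ κ |v'| |u| + |errors| ≤ (2 η A)^(1/2) (Im u_0)^(1/2) + ..` (`∑ κ |u|² = Im u_0 ≤ 1/η`, GEQ). The
first error: `δ √A / η`. The second: `r_x ≠ 0` only for `x ∈ Al`, `ρ x ≥ R - 1`, there
`|u_x| ≤ (2/η) e^{-a (R - 1)}`, `a = η / (8 (d + 1))` (`rng` in `Helper92_ANR/Ctp.lean`). -/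
def KeyStmt : Prop :=
  ∀ (d M : ℕ) [NeZero M] (E η δ A : ℝ) (R : ℕ) (U V κ : Tor d M → ℝ) (Al : Finset (Tor d M))
    (ρ : Tor d M → ℕ), 0 < η → η ≤ 1 → 0 ≤ δ → (∀ x, 0 < κ x) → (∀ x ∈ Al, η ≤ κ x) →
    0 ∈ Al → ρ 0 = 0 → 1 ≤ R → (∀ x i, ρ (x + ev i) ≤ ρ x + 1 ∧ ρ x ≤ ρ (x + ev i) + 1) →
    (∀ x i, x ∉ Al ∨ x + ev i ∉ Al → ρ (x + ev i) = ρ x) →
    (∀ x, ρ x < R → 4 * sd 0 (rep x) ≤ M ∧ κ x ≤ 2 * η ∧ (x ∈ Al → |U x - V x| ≤ δ) ∧
      (x ∉ Al → U x = V x)) → Sol d M E A U →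
    (Pool.Agent.ANR.Gr (HV d M E V) κ 0 0).im ≤ 2 * η * A + 2 * δ * Real.sqrt A / η +
      8 * d / η * Real.sqrt ((M : ℝ) ^ d * A) * Real.exp (-(η * (R - 1) / (8 * (d + 1))))

/-- FN2 (uses TR2, PR2, SPC, `AEN.EndStmt`): continuous spectrum in the bulk at weak disorder. -/
def Fn2Stmt : Prop := Tr2Stmt → FinStmt.{u}

end Pool.Agent.ANE
end
end -- Pool.Agent.ANE.Stmts2

section -- Pool.Agent.ANE.Stmts3

/-!
# Anderson model in dimension `≥ 3`: the end, third version (no `η` at all)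

Decision (D3) of helper99. As `Stmts2.lean`, with a bound for the tail of the solution.
-/

set_option autoImplicit false

open MeasureTheory ProbabilityTheory Function Filter

open scoped ENNReal BigOperators InnerProductSpace Topology NNReal

noncomputable section

namespace Pool.Agent.ANE

open Pool.Agent.Anderson hiding box mem_box card_box
open Pool.Agent.Loc Pool.Agent.Mob Pool.Agent.Helper54.Bal
  Pool.Agent.Helper96.EXP Pool.Agent.BED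
open Pool.Agent.LE.MN Pool.Agent.LE.CL Pool.Agent.LE.IR Pool.Agent.LE.QD

universe u

/-- `(H - E) v = δ_0` in the middle of the torus, `∑ v² ≤ A`, `∑_{|x| > R} v² ≤ e²` -/
def SolT (d M : ℕ) [NeZero M] (E A e : ℝ) (R : ℕ) (U : Tor d M → ℝ) : Prop :=
  ∃ v : Tor d M → ℝ, ∑ x, v x ^ 2 ≤ A ∧
    ∑ x : Tor d M, (if R < sd 0 (rep x) then v x ^ 2 else 0) ≤ e ^ 2 ∧
    ∀ x : Tor d M, 4 * sd 0 (rep x) ≤ M →
      ∑ i : Fin d, (v (x + ev i) + v (x - ev i)) + (U x - E) * v x = if x = 0 then 1 else 0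

/-- TR3: THE INTERFACE with the analysis. -/
def Tr3Stmt : Prop :=
  ∀ (d : ℕ) (a : ℝ), 3 ≤ d → 0 < a → ∃ s₀ : ℝ, 0 < s₀ ∧ ∀ σ : ℝ, σ ≠ 0 → |σ| ≤ s₀ →
    ∀ᵐ E ∂((volume : Measure ℝ).restrict (Set.Ioo (-(2 * d - a)) (2 * d - a))),
      ∃ e : ℝ, 0 < e ∧ ∀ (A : ℝ) (R : ℕ), ∃ (M : ℕ) (_ : NeZero M), 8 ≤ M ∧
        ∀ v : ℝ≥0, (v : ℝ) = σ ^ 2 →
          gau d M v {U | SolT d M E A e R U} ≤ ENNReal.ofReal (3 / 4)

/-- MS3: measurability (closed set, as `MsoStmt`). -/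
def Ms3Stmt : Prop :=
  ∀ (d M : ℕ) [NeZero M] (E A e : ℝ) (R : ℕ), MeasurableSet {U : Tor d M → ℝ | SolT d M E A e R U}

/-- LA3: from the lattice to the torus. Proof: `H72.limit_sol` (`Helper72_ANE/Lat.lean`), the tail of a
summable series. -/
def La3Stmt : Prop :=
  ∀ (d : ℕ) (V : Site d → ℝ) (E e : ℝ), 0 < e → Pool.Agent.AEN.Bd V E 0 →
    ∃ n₀ : ℕ, ∀ n : ℕ, n₀ ≤ n → ∀ (M : ℕ) [NeZero M], 8 ≤ M →
      SolT d M E n e n fun x : Tor d M => V (rep x)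

/-- PR3 (uses LA3): `P (Bd) ≤ 3/4`. Proof: `{V | Bd V E 0}` is contained in the increasing union of
`{V | ∀ n' ≥ n, ∀ M ≥ 8, SolT d M E n' e n' (V ∘ rep)}`, each of probability `≤ 3/4` (`law_le` for the `M`
which belongs to `A = n`, `R = n`). -/
def Pr3Stmt : Prop :=
  ∀ (d : ℕ) (σ E e : ℝ), σ ≠ 0 → 0 < e →
    (∀ (A : ℝ) (R : ℕ), ∃ (M : ℕ) (_ : NeZero M), 8 ≤ M ∧ ∀ v : ℝ≥0, (v : ℝ) = σ ^ 2 →
      gau d M v {U | SolT d M E A e R U} ≤ ENNReal.ofReal (3 / 4)) →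
    PP d (gl σ) {V | ¬ Pool.Agent.AEN.Bd V E 0} ≠ 0

/-- OUT, deterministic part: `V` = the effective potential of the final state (with the real part of the
gauge), `U` = the true potential, `κ ≤ κ₁` the absorption, `Al` the alive sites, `χ` a plateau cutoff
(constant on the bonds of dead sites, slope `lam`), `u` = the column `0` of the Green matrix. Proof: as
`KEY`: `Im u_0 ≤ |∑ κ χ v u| + |∑ χ v (U - V) u| + |∑ r u|`, `r_x = ∑_(y ~ x) (χ_y - χ_x) v_y` (only for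
`x ∈ Al`), Cauchy-Schwarz. -/
def OutStmt : Prop :=
  ∀ (d M : ℕ) [NeZero M] (E A e κ₁ lam P Q W : ℝ) (R : ℕ) (U V κ χ : Tor d M → ℝ)
    (Al : Finset (Tor d M)), 0 ≤ e → 0 ≤ lam → 0 ≤ P → 0 ≤ Q → 0 ≤ W →
    (∀ x, 0 < κ x ∧ κ x ≤ κ₁) → χ 0 = 1 → (∀ x, 0 ≤ χ x ∧ χ x ≤ 1) →
    (∀ x, χ x ≠ 0 → 4 * sd 0 (rep x) ≤ M) → (∀ x i, |χ (x + ev i) - χ x| ≤ lam) →
    (∀ x i, x ∉ Al ∨ x + ev i ∉ Al → χ (x + ev i) = χ x) →
    (∀ x, x ∉ Al → χ x ≠ 0 → U x = V x) →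
    ∑ x ∈ Al.filter (fun x => sd 0 (rep x) ≤ R),
      (U x - V x) ^ 2 * ‖Pool.Agent.ANR.Gr (HV d M E V) κ x 0‖ ^ 2 ≤ P ^ 2 →
    ∑ x ∈ Al, (U x - V x) ^ 2 * ‖Pool.Agent.ANR.Gr (HV d M E V) κ x 0‖ ^ 2 ≤ Q ^ 2 →
    ∑ x ∈ Al, ‖Pool.Agent.ANR.Gr (HV d M E V) κ x 0‖ ^ 2 ≤ W ^ 2 → SolT d M E A e R U →
    (Pool.Agent.ANR.Gr (HV d M E V) κ 0 0).im ≤
      κ₁ * A + 2 * (Real.sqrt A * P + e * Q + 2 * d * lam * Real.sqrt A * W)

/-- FN3 (uses PR3, SPC, `AEN.EndStmt`): continuous spectrum in the bulk at weak disorder. -/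
def Fn3Stmt : Prop := Tr3Stmt → FinStmt.{u}

end Pool.Agent.ANE
end
end -- Pool.Agent.ANE.Stmts3

section -- Pool.Agent.AND2B.Stmts

/-!
# AND2B (MP_1906c1_mp): statements around the event `WL`, the end of the protocol
-/

set_option autoImplicit false

open MeasureTheory ProbabilityTheory

open scoped BigOperators NNReal ENNReal Matrix

noncomputable section

namespace Pool.Agent.AND2B

open Pool.Agent.Anderson hiding box mem_box card_box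
open Pool.Agent.Loc Pool.Agent.Mob Pool.Agent.Helper54.Bal
  Pool.Agent.Helper96.EXP Pool.Agent.BED
open Pool.Agent.LE.MN Pool.Agent.LE.CL Pool.Agent.LE.IR Pool.Agent.LE.QD
open Pool.Agent.ANP (Cfg gm Win)
open Pool.Agent.ANE (SolT)

variable {d M : ℕ} [NeZero M]

/-- the failure set of the protocol -/
def FF (d M : ℕ) [NeZero M] (E A ε : ℝ) (R : ℕ) (L : ℝ) : Set (Tor d M → ℝ) :=
  {U | WL E L U ∧ SolT d M E A ε R U}

/-- a cutoff which does not change across the bonds which touch `D` -/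
def Plat (D : Finset (Tor d M)) : Prop :=
  ∃ φ : Tor d M → ℕ, φ 0 = 0 ∧
    (∀ x i, φ (x + ev i) ≤ φ x + 1 ∧ φ x ≤ φ (x + ev i) + 1) ∧
    (∀ x i, x ∈ D ∨ x + ev i ∈ D → φ (x + ev i) = φ x) ∧
    ∀ x, M < 4 * sd 0 (rep x) → M ≤ 16 * φ x

/-- WLP: the probability of `WL` tends to one. Proof: for fixed `D` the determinant of `H - E` restricted
to `D` is a polynomial in `V` of degree one in every variable, with the coefficient `1` at `∏_(x ∈ D) V x`,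
so the set where it vanishes is a null set (Fubini along `V + t 1`, or induction); off these sets every
`H_DD - E` is invertible, so `WLD E L V D` for large `L`; finitely many `D`; continuity of the measure. -/
def WlpStmt : Prop :=
  ∀ (d M : ℕ) [NeZero M] (E δ : ℝ) (v : ℝ≥0), v ≠ 0 → 0 < δ → ∃ L : ℝ, 1 ≤ L ∧
    gau d M v {U | ¬ WL E L U} ≤ ENNReal.ofReal δ

/-- MSW: measurability: `WLD` is a family of closed conditions. -/
def MswStmt : Prop :=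
  ∀ (d M : ℕ) [NeZero M] (E L : ℝ), MeasurableSet {U : Tor d M → ℝ | WL E L U}

/-- FLX: the dead sites have no effect. Proof: let `u = res f`, `(H - E - i k) u = f`, `A` the complement
of `D`. On `D`: `(H_DD - E) u_D = f_D + i e₀ u_D - (Δ u_A)_D`, so
`|u_D| ≤ L (|f| + 2 d |u_A| + e₀ |u_D|)`, `|u_D| ≤ 2 L (|f| + 2 d |u_A|)` as `2 L e₀ ≤ 1`. Imaginary part:
`kv |u_A|² ≤ |u| |f|`. So `|u| ≤ C L² / kv |f|`, and `∑_(b ∈ D) e₀ |G_xb|² ≤ e₀ (C L²/kv)²`. -/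
def FlxStmt : Prop :=
  ∀ d : ℕ, ∃ C : ℝ, 1 ≤ C ∧ ∀ (M : ℕ) [NeZero M] (V k : Tor d M → ℝ) (E L e₀ kv : ℝ)
    (D : Finset (Tor d M)), 1 ≤ L → 0 < e₀ → 2 * L * e₀ ≤ 1 → 0 < kv → kv ≤ 1 →
    (∀ x ∈ D, k x = e₀) → (∀ x, x ∉ D → kv ≤ k x) → WLD E L V D →
      (∀ u : Tor d M → ℂ, ∑ x, ‖∑ y, res V E k x y * u y‖ ^ 2 ≤
        (C * L ^ 2 / kv) ^ 2 * ∑ x, ‖u x‖ ^ 2) ∧
      ∀ x, ∑ b ∈ D, k b * ‖res V E k x b‖ ^ 2 ≤ e₀ * (C * L ^ 2 / kv) ^ 2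

/-- OUTW (uses `ANE.OutStmt`): the end. `T` is the final configuration with the clock `s` at the running
sites `run`, all the other sites are dead (`V` there is the true potential). Proof: with probability
`≥ 3/4` under `gm T.V T.s` both `∑_(x ∈ run) (U x - T.V x)² |u_x|² ≤ 8 s ∑_run |u_x|²` and
`(U x - T.V x)² ≤ 8 (2 R + 1)^d s` for `sd 0 (rep x) ≤ R` hold (Markov); `s ∑_run |u_x|² ≤ Im u_0 / c₀`
(`GEQ`), `|U - Vef| ≤ |U - T.V| + C₀ s`; then `OutStmt` with `χ = max 0 (1 - 16 φ / M)`. -/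
def OutWStmt : Prop :=
  ∀ (d : ℕ) (c₀ C₀ b : ℝ), 0 < c₀ → 1 ≤ C₀ → 0 < b → ∃ ε : ℝ, 0 < ε ∧ ∀ (A : ℝ) (R : ℕ),
    ∃ s₁ : ℝ, 0 < s₁ ∧ ∀ (M : ℕ) [NeZero M] (E e₀ L : ℝ) (s : ℝ≥0) (T : Cfg (Tor d M))
      (run : Finset (Tor d M)), 0 < s → (s : ℝ) ≤ s₁ → 1 ≤ (s : ℝ) ^ 2 * M → 0 < e₀ → e₀ ≤ s ^ 2 →
      (∀ x ∈ run, T.s x = s ∧ c₀ ≤ (T.mb x).im ∧ ‖T.mb x‖ ≤ C₀) → (∀ x, x ∉ run → T.s x = 0) →
      (∀ x ∈ run, ‖net E e₀ T x 0‖ ≤ C₀) → 0 ∈ run → b ≤ (net E e₀ T 0 0).im →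
      Plat (Finset.univ \ run) →
        Win (FF d M E A ε R L) T.V T.s (1 / 4)

end Pool.Agent.AND2B
end
end -- Pool.Agent.AND2B.Stmts
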