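import Pool.Agent.Helper12_MEB.B040
import Pool.Agent.Helper12_MEB.B052
import Pool.Agent.Helper12_MEB.B096
import Pool.Agent.Helper12_MEB.B118
import Pool.Agent.Helper12_MEB.B145

/-!
# Merged copies (generated) of the modules

* `Pool.Agent.Helper72_ANE.Ctz`
* `Pool.Agent.Helper72_ANE.Flt`
* `Pool.Agent.Helper92_ANR.Ctp`
* `Pool.Agent.Helper72_ANE.Key`
* `Pool.Agent.Helper72_ANE.Lat`
* `Pool.Agent.Helper72_ANE.Out`
* `Pool.Agent.Helper72_ANE.Wey`
* `Pool.Agent.Helper90_ANE.PR3`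
* `Pool.Agent.Helper72_ANE.All`
-/

set_option autoImplicit false

section -- Pool.Agent.Helper72_ANE.Ctz

/-!
# ANE, row CTZ: the Green function at the origin on the lattice and on the torus
-/

set_option autoImplicit false

open MeasureTheory ProbabilityTheory Function Filter

open scoped ENNReal BigOperators InnerProductSpace Topology NNReal Matrix

noncomputable section

namespace Pool.Agent.ANE.H72

open Pool.Agent.Anderson hiding box mem_box card_box
open Pool.Agent.Loc Pool.Agent.Mob Pool.Agent.Helper54.Bal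
  Pool.Agent.Helper96.EXP Pool.Agent.BED
open Pool.Agent.LE.MN Pool.Agent.LE.CL Pool.Agent.LE.IR Pool.Agent.LE.QD
open Pool.Agent.LE.QX.H90 Pool.Agent.ANE

theorem zz_eq (η E : ℝ) : zz η E = ⟨E, η⟩ := by
  apply Complex.ext <;> simp

/-- the commutator term -/
def cm {d : ℕ} (L : ℕ) (u : Site d → ℂ) (y : Site d) : ℂ :=
  ∑ i : Fin d, (((ct L (y + Pi.single i 1) - ct L y : ℝ) : ℂ) * u (y + Pi.single i 1) +
      ((ct L (y - Pi.single i 1) - ct L y : ℝ) : ℂ) * u (y - Pi.single i 1))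

theorem cm_zero {d L : ℕ} (hL : 1 ≤ L) (u : Site d → ℂ) {y : Site d} (hy : sd 0 y < L) :
    cm L u y = 0 := by
  unfold cm
  refine Finset.sum_eq_zero fun i _ => ?_
  have h1 := sd_add y i
  have h2 := sd_sub y i
  have h3 := sd_triangle 0 y (y + Pi.single i 1)
  have h4 := sd_triangle 0 y (y - Pi.single i 1)
  rw [ct_one hL (y := y) hy.le, ct_one hL (y := y + Pi.single i 1) (by omega),
    ct_one hL (y := y - Pi.single i 1) (by omega)]
  simp

theorem rep_zero' {d M : ℕ} [NeZero M] : rep (0 : Tor d M) = 0 := by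
  funext i
  unfold rep
  simp

theorem expo {α : ℝ} (h0 : 0 ≤ α) (h1 : α ≤ 1) : Real.exp α - 1 ≤ 2 * α := by
  have h := Real.abs_exp_sub_one_le (x := α) (by rw [abs_of_nonneg h0]; exact h1)
  rw [abs_of_nonneg h0] at h
  exact (le_abs_self _).trans h

/-- the sum over a far set -/
theorem far {d : ℕ} (hCTH : CthStmt) (V : Site d → ℝ) (E η α : ℝ) (hη : 0 < η) (hα : 0 ≤ α)
    (h2 : 2 * d * (Real.exp α - 1) ≤ η / 2) (R : ℕ) (B : Finset (Site d))
    (hB : ∀ y ∈ B, R ≤ sd 0 y) :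
    ∑ y ∈ B, ‖G V (zz η E) (del 0) y‖ ^ 2 ≤ Real.exp (-(2 * α * R)) * (4 / η ^ 2) := by
  have h1 := hCTH d V η E α hη hα h2
  have h3 : ∑ y ∈ B, ENNReal.ofReal (Real.exp (2 * α * sd 0 y) * ‖G V (zz η E) (del 0) y‖ ^ 2) ≤
      ENNReal.ofReal (4 / η ^ 2) := (ENNReal.sum_le_tsum B).trans h1
  rw [← ENNReal.ofReal_sum_of_nonneg (fun y _ => by positivity),
    ENNReal.ofReal_le_ofReal_iff (by positivity)] at h3
  have h4 : Real.exp (2 * α * R) * ∑ y ∈ B, ‖G V (zz η E) (del 0) y‖ ^ 2 ≤ 4 / η ^ 2 := by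
    refine le_trans ?_ h3
    rw [Finset.mul_sum]
    refine Finset.sum_le_sum fun y hy => ?_
    have h5 : (R : ℝ) ≤ sd 0 y := by exact_mod_cast hB y hy
    gcongr
  have h6 : Real.exp (-(2 * α * R)) * Real.exp (2 * α * R) = 1 := by
    rw [← Real.exp_add]
    simp
  calc ∑ y ∈ B, ‖G V (zz η E) (del 0) y‖ ^ 2 = (Real.exp (-(2 * α * R)) * Real.exp (2 * α * R)) *
        ∑ y ∈ B, ‖G V (zz η E) (del 0) y‖ ^ 2 := by rw [h6, one_mul]
    _ = Real.exp (-(2 * α * R)) *
        (Real.exp (2 * α * R) * ∑ y ∈ B, ‖G V (zz η E) (del 0) y‖ ^ 2) := by ring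
    _ ≤ _ := by gcongr

theorem main {d : ℕ} (hCTH : CthStmt) (M : ℕ) [NeZero M] (V : Site d → ℝ) (E η α : ℝ)
    (hη : 0 < η) (hα : 0 ≤ α) (h2 : 2 * d * (Real.exp α - 1) ≤ η / 2) (L : ℕ) (hL : 1 ≤ L)
    (hM : 4 * L + 3 ≤ M) :
    ‖G V (zz η E) (del 0) 0 - rs (fun x : Tor d M => V (rep x)) ⟨E, η⟩ 0 0‖ ≤
      4 * d / η ^ 2 * Real.exp (-(α * (L - 1 : ℕ))) := by
  classical
  have hL0 : (1 : ℝ) ≤ L := by exact_mod_cast hL
  set z : ℂ := zz η E with hzd
  have hzi : z.im = η := zz_im η E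
  have hz0 : z.im ≠ 0 := by rw [hzi]; exact hη.ne'
  rw [← zz_eq, ← hzd]
  obtain ⟨u, hu⟩ : ∃ u : Site d → ℂ, u = fun y => G V z (del 0) y := ⟨_, rfl⟩
  obtain ⟨W, hW⟩ : ∃ W : Tor d M → ℝ, W = fun x => V (rep x) := ⟨_, rfl⟩
  obtain ⟨v, hv⟩ : ∃ v : Tor d M → ℂ, v = fun x => (ct L (rep x) : ℂ) * u (rep x) := ⟨_, rfl⟩
  have hvx : ∀ x, v x = (ct L (rep x) : ℂ) * u (rep x) := fun x => by rw [hv]
  have hWx : ∀ x, W x = V (rep x) := fun x => by rw [hW]
  have heq : ∀ y, ∑ i : Fin d, (u (y + Pi.single i 1) + u (y - Pi.single i 1)) +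
      ((V y : ℂ) - z) * u y = if y = 0 then 1 else 0 := by
    intro y
    have h := G_eq (V := V) hz0 (del (0 : Site d)) y
    rw [del_apply] at h
    rw [hu]
    exact h
  obtain ⟨r, hr⟩ : ∃ r : Tor d M → ℂ, r = hz W z *ᵥ v - Pi.single 0 1 := ⟨_, rfl⟩
  obtain ⟨A, hA⟩ : ∃ A : Finset (Site d), A = (box 0 (2 * L)).filter fun y => L ≤ sd 0 y :=
    ⟨_, rfl⟩
  obtain ⟨F, hF⟩ : ∃ F : Site d → ℝ, F = fun y => 2 * d / (L : ℝ) ^ 2 *
        ∑ i : Fin d, (‖u (y + Pi.single i 1)‖ ^ 2 + ‖u (y - Pi.single i 1)‖ ^ 2) := ⟨_, rfl⟩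
  have hF0 : ∀ y, 0 ≤ F y := by
    intro y
    rw [hF]
    positivity
  have hpt : ∀ x, ‖r x‖ ^ 2 ≤ if rep x ∈ A then F (rep x) else 0 := by
    intro x
    have hrx : r x = (hz W z *ᵥ v) x - if rep x = 0 then 1 else 0 := by
      rw [hr, Pi.sub_apply, Pi.single_apply]
      congr 1
      have : (x = 0) ↔ (rep x = 0) := by
        constructor
        · rintro rfl
          exact rep_zero'
        · intro h
          exact rep_inj (by rw [h, rep_zero'])
      simp only [this]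
    by_cases h : sd 0 (rep x) ≤ 2 * L
    · have e1 : ∀ i, rep (x + ev i) = rep x + Pi.single i 1 := rep_add (R := 2 * L) (by omega) h
      have e2 : ∀ i, rep (x - ev i) = rep x - Pi.single i 1 := rep_sub (R := 2 * L) (by omega) h
      obtain ⟨y, hy⟩ : ∃ y, y = rep x := ⟨_, rfl⟩
      have e3 : r x = cm L u y := by
        rw [hrx, hz_mulVec, hvx x, hWx x, ← hy]
        have e4 : ∀ i, v (x + ev i) + v (x - ev i) =
            (ct L y : ℂ) * (u (y + Pi.single i 1) + u (y - Pi.single i 1)) +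
            (((ct L (y + Pi.single i 1) - ct L y : ℝ) : ℂ) * u (y + Pi.single i 1) +
            ((ct L (y - Pi.single i 1) - ct L y : ℝ) : ℂ) * u (y - Pi.single i 1)) := by
          intro i
          rw [hvx, hvx, e1, e2, ← hy]
          push_cast
          ring
        rw [Finset.sum_congr rfl fun i _ => e4 i, Finset.sum_add_distrib, ← Finset.mul_sum]
        have e5 := heq y
        have e6 : (ct L y : ℂ) * (if y = 0 then (1 : ℂ) else 0) = if y = 0 then 1 else 0 := by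
          split_ifs with h0
          · rw [h0, ct_one hL (by rw [show sd (0 : Site d) 0 = 0 by
              rw [← Nat.le_zero, sd_le_iff]; simp]; omega)]
            simp
          · simp
        unfold cm
        rw [← e6, ← e5]
        ring
      rw [e3]
      by_cases h3 : L ≤ sd 0 y
      · rw [if_pos (by rw [hA, Finset.mem_filter, mem_box, ← hy]; exact ⟨by rw [hy]; exact h, h3⟩),
          hF, ← hy]
        exact comm_bound hL u y
      · rw [cm_zero hL u (not_le.1 h3)]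
        split_ifs
        · simpa using hF0 _
        · simp
    · have z0 : v x = 0 := by
        rw [hvx, ct_zero hL (by omega)]
        simp
      have z1 : ∀ x' : Tor d M, (∃ i, x = x' + ev i ∨ x = x' - ev i) → v x' = 0 := by
        rintro x' ⟨i, hi⟩
        rw [hvx]
        by_cases h2 : 2 * L ≤ sd 0 (rep x')
        · rw [ct_zero hL h2]
          simp
        · exfalso
          rw [not_le] at h2
          have h3 : sd 0 (rep x) ≤ 2 * L := by
            rcases hi with hi | hi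
            · rw [hi, rep_add (R := 2 * L) (by omega) (by omega)]
              have h4 := sd_triangle 0 (rep x') (rep x' + Pi.single i 1)
              have h5 := sd_add (rep x') i
              omega
            · rw [hi, rep_sub (R := 2 * L) (by omega) (by omega)]
              have h4 := sd_triangle 0 (rep x') (rep x' - Pi.single i 1)
              have h5 := sd_sub (rep x') i
              omega
          omega
      have z2 : ∑ i : Fin d, (v (x + ev i) + v (x - ev i)) = 0 := by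
        refine Finset.sum_eq_zero fun i _ => ?_
        rw [z1 (x + ev i) ⟨i, Or.inr (by abel)⟩, z1 (x - ev i) ⟨i, Or.inl (by abel)⟩, add_zero]
      have z3 : rep x ≠ 0 := by
        intro h0
        apply h
        rw [h0, show sd (0 : Site d) 0 = 0 by rw [← Nat.le_zero, sd_le_iff]; simp]
        omega
      rw [hrx, hz_mulVec, z0, z2, if_neg z3]
      split_ifs
      · simpa using hF0 _
      · simp
  obtain ⟨B, hB⟩ : ∃ B : Finset (Site d), B = (box 0 (2 * L + 1)).filter fun y => L - 1 ≤ sd 0 y :=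
    ⟨_, rfl⟩
  have hfar : ∑ y ∈ B, ‖u y‖ ^ 2 ≤ Real.exp (-(2 * α * (L - 1 : ℕ))) * (4 / η ^ 2) := by
    have h := far hCTH V E η α hη hα h2 (L - 1) B (by
      intro y hy
      rw [hB, Finset.mem_filter] at hy
      exact hy.2)
    rw [hu]
    exact h
  obtain ⟨S, hS⟩ : ∃ S : ℝ, S = Real.exp (-(2 * α * (L - 1 : ℕ))) * (4 / η ^ 2) := ⟨_, rfl⟩
  have hS0 : 0 ≤ S := by rw [hS]; positivity
  have hn2 : n2 r ≤ 4 * (d : ℝ) ^ 2 * S := by
    unfold n2
    refine (Finset.sum_le_sum fun x _ => hpt x).trans ?_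
    refine (sum_rep F hF0 _).trans ?_
    rw [hF, ← Finset.mul_sum, Finset.sum_comm]
    have h1 : ∀ i : Fin d, ∑ y ∈ A, (‖u (y + Pi.single i 1)‖ ^ 2 +
        ‖u (y - Pi.single i 1)‖ ^ 2) ≤ 2 * S := by
      intro i
      rw [Finset.sum_add_distrib]
      have h2 := sum_shift (fun y => ‖u y‖ ^ 2) (fun y => by positivity) (A := A)
        (B := B) (Pi.single i 1 : Site d) (by
          intro y hy
          rw [hA, Finset.mem_filter, mem_box] at hy
          rw [hB, Finset.mem_filter, mem_box]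
          have h4 := sd_triangle 0 y (y + Pi.single i 1)
          have h5 := sd_add y i
          have h6 := sd_triangle 0 (y + Pi.single i 1) y
          rw [sd_comm (y + Pi.single i 1) y] at h6
          omega)
      have h3 := sum_shift (fun y => ‖u y‖ ^ 2) (fun y => by positivity) (A := A)
        (B := B) (-Pi.single i 1 : Site d) (by
          intro y hy
          rw [hA, Finset.mem_filter, mem_box] at hy
          rw [hB, Finset.mem_filter, mem_box]
          have h4 := sd_triangle 0 y (y - Pi.single i 1)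
          have h5 := sd_sub y i
          have h6 := sd_triangle 0 (y - Pi.single i 1) y
          rw [sd_comm (y - Pi.single i 1) y] at h6
          rw [← sub_eq_add_neg]
          omega)
      simp only [← sub_eq_add_neg] at h3
      rw [← hS] at hfar
      linarith only [hfar, h2, h3]
    have h5 : ∑ i : Fin d, ∑ y ∈ A, (‖u (y + Pi.single i 1)‖ ^ 2 +
        ‖u (y - Pi.single i 1)‖ ^ 2) ≤ 2 * d * S := by
      calc _ ≤ ∑ _i : Fin d, 2 * S := Finset.sum_le_sum fun i _ => h1 i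
        _ = 2 * d * S := by
            rw [Finset.sum_const, Finset.card_univ, Fintype.card_fin, nsmul_eq_mul]
            ring
    have h6 : 2 * (d : ℝ) / (L : ℝ) ^ 2 ≤ 2 * d := by
      rw [div_le_iff₀ (by positivity)]
      have : (1 : ℝ) ≤ (L : ℝ) ^ 2 := by nlinarith only [hL0]
      have h7 : (0 : ℝ) ≤ 2 * d := by positivity
      nlinarith only [this]
    calc _ ≤ 2 * (d : ℝ) * (2 * d * S) :=
          mul_le_mul h6 h5 (Finset.sum_nonneg fun i _ => Finset.sum_nonneg fun y _ => by positivity)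
            (by positivity)
      _ = _ := by ring
  -- the solution
  have hsol : v = rs W z *ᵥ (Pi.single 0 1) + rs W z *ᵥ r := by
    have h1 : rs W z *ᵥ (hz W z *ᵥ v) = v := by
      rw [Matrix.mulVec_mulVec, Pool.Agent.LE.QD.H76.rs_mul W hz0, Matrix.one_mulVec]
    rw [← Matrix.mulVec_add, hr, add_sub_cancel, h1]
  have hv0 : v 0 = G V z (del 0) 0 := by
    rw [hvx, rep_zero', ct_one hL (by rw [show sd (0 : Site d) 0 = 0 by
      rw [← Nat.le_zero, sd_le_iff]; simp]; omega), hu]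
    simp
  have h00 : (rs W z *ᵥ (Pi.single 0 1)) 0 = rs W z 0 0 := by
    rw [Matrix.mulVec_single_one]
    rfl
  have hdiff : G V z (del 0) 0 - rs W z 0 0 = (rs W z *ᵥ r) 0 := by
    have h1 := congrFun hsol 0
    rw [Pi.add_apply, h00, hv0] at h1
    rw [h1]
    ring
  have hb1 : ‖(rs W z *ᵥ r) 0‖ ^ 2 ≤ n2 r / η ^ 2 := by
    have h1 := Pool.Agent.LE.QD.H76.rs_bd W hz0 r
    rw [hzi] at h1
    refine le_trans ?_ h1
    exact Finset.single_le_sum (f := fun x => ‖(rs W z *ᵥ r) x‖ ^ 2)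
      (fun x _ => by positivity) (Finset.mem_univ 0)
  have hb2 : ‖(rs W z *ᵥ r) 0‖ ^ 2 ≤ (4 * d / η ^ 2 * Real.exp (-(α * (L - 1 : ℕ)))) ^ 2 := by
    refine hb1.trans ?_
    have h3 : Real.exp (-(2 * α * (L - 1 : ℕ))) = Real.exp (-(α * (L - 1 : ℕ))) ^ 2 := by
      rw [← Real.exp_nat_mul]
      congr 1
      push_cast
      ring
    rw [div_le_iff₀ (by positivity)]
    refine hn2.trans (le_of_eq ?_)
    rw [hS, h3]
    field_simp
  rw [← hW, hdiff]
  exact (le_abs_self _).trans (abs_le_of_sq_le_sq hb2 (by positivity))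

theorem small {d M : ℕ} [NeZero M] (V : Site d → ℝ) (E η : ℝ) (hη : 0 < η) (h1 : η ≤ 1) :
    ‖G V (zz η E) (del 0) 0 - rs (fun x : Tor d M => V (rep x)) ⟨E, η⟩ 0 0‖ ≤ 2 / η ^ 2 := by
  have hz0 : (zz η E).im ≠ 0 := by rw [zz_im]; exact hη.ne'
  have h2 : ‖G V (zz η E) (del 0) 0‖ ≤ 1 / η := by
    have h3 := (isRes_G V).norm_le' hz0 (del (0 : Site d))
    rw [norm_del, zz_im, abs_of_pos hη, mul_one] at h3
    refine (lp.norm_apply_le_norm (by norm_num) _ _).trans (h3.trans (le_of_eq ?_))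
    rw [one_div]
  have h4 : ‖rs (fun x : Tor d M => V (rep x)) ⟨E, η⟩ 0 0‖ ≤ 1 / η := by
    have h5 := Pool.Agent.LE.QD.H76.rs_bd (fun x : Tor d M => V (rep x)) hz0 (Pi.single 0 1)
    rw [Matrix.mulVec_single_one, zz_im, zz_eq] at h5
    have h6 : n2 (Pi.single 0 1 : Tor d M → ℂ) = 1 := by
      unfold n2
      rw [Finset.sum_eq_single 0]
      · simp
      · intro b _ hb
        simp [hb]
      · simp
    rw [h6] at h5
    have h7 : ‖rs (fun x : Tor d M => V (rep x)) ⟨E, η⟩ 0 0‖ ^ 2 ≤ (1 / η) ^ 2 := by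
      rw [div_pow, one_pow]
      refine le_trans ?_ h5
      exact Finset.single_le_sum
        (f := fun x => ‖(rs (fun x : Tor d M => V (rep x)) ⟨E, η⟩).col 0 x‖ ^ 2)
        (fun x _ => by positivity) (Finset.mem_univ 0)
    exact (le_abs_self _).trans (abs_le_of_sq_le_sq h7 (by positivity))
  have h8 : 1 / η ≤ 1 / η ^ 2 := by
    apply one_div_le_one_div_of_le (by positivity)
    nlinarith only [hη, h1]
  calc _ ≤ ‖G V (zz η E) (del 0) 0‖ + ‖rs (fun x : Tor d M => V (rep x)) ⟨E, η⟩ 0 0‖ :=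
        norm_sub_le _ _
    _ ≤ 1 / η ^ 2 + 1 / η ^ 2 := by linarith
    _ = _ := by ring

/-- CTZ -/
theorem ctz' (hCTH : CthStmt) : CtzStmt := by
  intro d
  refine ⟨32 * (d + 1), by nlinarith only [(Nat.cast_nonneg d : (0 : ℝ) ≤ d)], ?_⟩
  intro M _ V E η hη hη1
  have hd0 : (0 : ℝ) ≤ d := Nat.cast_nonneg d
  obtain ⟨C, hC⟩ : ∃ C : ℝ, C = 32 * (d + 1) := ⟨_, rfl⟩
  rw [← hC]
  have hC0 : 32 ≤ C := by rw [hC]; linarith
  by_cases hM : M < 12
  · refine (small V E η hη hη1).trans ?_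
    have hM' : (M : ℝ) ≤ 12 := by exact_mod_cast hM.le
    have h1 : η * M / C ≤ 1 / 2 := by
      rw [div_le_iff₀ (by linarith only [hC])]
      nlinarith only [(Nat.cast_nonneg M : (0 : ℝ) ≤ M), hη1, hC, hM']
    have h2 : 1 / 2 ≤ Real.exp (-(η * M / C)) := by
      have := Real.add_one_le_exp (-(η * M / C))
      linarith only [h1, this]
    have h3 : 2 / η ^ 2 ≤ C / η ^ 2 * (1 / 2) := by
      rw [div_mul_eq_mul_div]
      gcongr
      linarith only [hC]
    refine h3.trans ?_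
    gcongr
  · rw [not_lt] at hM
    obtain ⟨α, hα⟩ : ∃ α : ℝ, α = η / (8 * (d + 1)) := ⟨_, rfl⟩
    have hα0 : 0 ≤ α := by rw [hα]; positivity
    have hα1 : α ≤ 1 / 8 := by
      rw [hα, div_le_iff₀ (by positivity)]
      linarith only [hη1]
    have hαη : α * (8 * (d + 1)) = η := by
      rw [hα]
      field_simp
    have h2 : 2 * d * (Real.exp α - 1) ≤ η / 2 := by
      have h3 := expo hα0 (by linarith only [hα1])
      have h4 : 2 * d * (Real.exp α - 1) ≤ 2 * d * (2 * α) := by gcongr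
      nlinarith only [hα0, hαη, h4]
    obtain ⟨L, hL⟩ : ∃ L : ℕ, L = (M - 3) / 4 := ⟨_, rfl⟩
    have h5 := main hCTH M V E η α hη hα0 h2 L (by omega) (by omega)
    refine h5.trans ?_
    have h6 : (M : ℝ) ≤ 4 * ((L - 1 : ℕ) : ℝ) + 10 := by
      have : M ≤ 4 * (L - 1) + 10 := by omega
      exact_mod_cast this
    have h7 : -(α * ((L - 1 : ℕ) : ℝ)) ≤ 1 / 2 + -(η * M / C) := by
      have h8 : η * M / C = α * M / 4 := by
        rw [div_eq_iff (by linarith only [hC]), hC, ← hαη]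
        ring
      rw [h8]
      nlinarith only [hη, hη1, hαη, h6]
    have h9 : Real.exp (-(α * ((L - 1 : ℕ) : ℝ))) ≤ 2 * Real.exp (-(η * M / C)) := by
      refine (Real.exp_le_exp.2 h7).trans ?_
      rw [Real.exp_add]
      gcongr
      have := expo (α := 1 / 2) (by norm_num) (by norm_num)
      linarith only [this]
    calc 4 * d / η ^ 2 * Real.exp (-(α * ((L - 1 : ℕ) : ℝ))) ≤
        4 * d / η ^ 2 * (2 * Real.exp (-(η * M / C))) := by gcongr
      _ = 8 * d / η ^ 2 * Real.exp (-(η * M / C)) := by ring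
      _ ≤ _ := by
          gcongr
          rw [hC]
          linarith only

/-- CTZ -/
theorem ctz : CtzStmt := ctz' Pool.Agent.Mob.H69.cth

end Pool.Agent.ANE.H72
end
end -- Pool.Agent.Helper72_ANE.Ctz

section -- Pool.Agent.Helper72_ANE.Flt

/-!
# ANE, rows FLT and SPC: flat cubes, the spectrum is the whole line
-/

set_option autoImplicit false

open MeasureTheory ProbabilityTheory Function Filter

open scoped ENNReal BigOperators InnerProductSpace Topology NNReal

noncomputable section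

namespace Pool.Agent.ANE.H72

open Pool.Agent.Anderson hiding box mem_box card_box
open Pool.Agent.Loc Pool.Agent.Mob Pool.Agent.Helper54.Bal
  Pool.Agent.Helper96.EXP Pool.Agent.BED
open Pool.Agent.LE.MN Pool.Agent.LE.CL Pool.Agent.LE.IR Pool.Agent.LE.QD
open Pool.Agent.ANE

variable {d : ℕ}

theorem meas_flb (l δ : ℝ) (n : ℕ) (b : Site d) :
    MeasurableSet {V : Site d → ℝ | FlB V l δ n b} := by
  unfold FlB
  have h1 : {V : Site d → ℝ | ∀ y : Site d, sd b y ≤ n → |V y - l| ≤ δ} =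
      ⋂ y : Site d, ⋂ _ : sd b y ≤ n, {V : Site d → ℝ | |V y - l| ≤ δ} := by
    ext V
    simp only [Set.mem_ofPred_eq, Set.mem_iInter]
  rw [h1]
  refine MeasurableSet.iInter fun y => MeasurableSet.iInter fun _ => ?_
  have h2 : Measurable fun V : Site d → ℝ => |V y - l| := by fun_prop
  exact measurableSet_le h2 measurable_const

theorem gl_pos {σ : ℝ} (hσ : σ ≠ 0) (l : ℝ) {δ : ℝ} (hδ : 0 < δ) :
    gl σ (Set.Icc (l - δ) (l + δ)) ≠ 0 := by
  have h1 : gl σ = gaussianReal 0 (.mk (σ ^ 2) (sq_nonneg _)) := by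
    unfold gl γ1
    rw [gaussianReal_map_const_mul, mul_zero, mul_one]
  have hv : (NNReal.mk (σ ^ 2) (sq_nonneg _)) ≠ 0 := by
    intro h
    have : σ ^ 2 = 0 := congrArg NNReal.toReal h
    exact hσ (by simpa using this)
  rw [h1]
  intro h0
  have h2 := gaussianReal_absolutelyContinuous' 0 hv h0
  rw [Real.volume_Icc, ENNReal.ofReal_eq_zero] at h2
  linarith only [hδ, h2]

theorem flb_pos {σ : ℝ} (hσ : σ ≠ 0) (l : ℝ) {δ : ℝ} (hδ : 0 < δ) (n : ℕ) :
    PP d (gl σ) {V : Site d → ℝ | FlB V l δ n 0} ≠ 0 := by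
  have h1 : {V : Site d → ℝ | FlB V l δ n 0} =
      Set.pi (box (0 : Site d) n : Set (Site d)) fun _ => Set.Icc (l - δ) (l + δ) := by
    ext V
    simp only [FlB, Set.mem_ofPred_eq, Set.mem_pi, Finset.mem_coe, mem_box, Set.mem_Icc, abs_le]
    constructor
    · intro h y hy
      have := h y hy
      exact ⟨by linarith only [this.1], by linarith [this.2]⟩
    · intro h y hy
      have := h y hy
      exact ⟨by linarith [this.1], by linarith [this.2]⟩
  rw [h1]
  unfold PP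
  rw [Measure.infinitePi_pi _ (fun _ _ => measurableSet_Icc)]
  exact Finset.prod_ne_zero_iff.2 fun _ _ => gl_pos hσ l hδ

theorem flt : FltStmt := by
  intro d σ hd hσ
  rw [ae_all_iff]
  intro l
  rw [ae_all_iff]
  intro k
  rw [ae_all_iff]
  intro n
  obtain ⟨A, hA⟩ : ∃ A : Set (Site d → ℝ), A = {V | ∃ b : Site d, FlB V l (1 / (k + 1)) n b} :=
    ⟨_, rfl⟩
  have hm : MeasurableSet A := by
    have h1 : A = ⋃ b : Site d, {V | FlB V l (1 / (k + 1)) n b} := by
      rw [hA]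
      ext V
      simp only [Set.mem_ofPred_eq, Set.mem_iUnion]
    rw [h1]
    exact MeasurableSet.iUnion fun b => meas_flb _ _ _ _
  have hinv : ∀ a : Site d, Pool.Agent.Helper54.Bal.tau a ⁻¹' A = A := by
    intro a
    rw [hA]
    ext V
    simp only [Set.mem_preimage, Set.mem_ofPred_eq]
    constructor
    · rintro ⟨b, hb⟩
      refine ⟨b + a, fun y hy => ?_⟩
      have h1 := hb (y - a) (by
        rw [sd_le_iff] at hy ⊢
        intro i
        have := hy i
        simp only [Pi.add_apply, Pi.sub_apply] at this ⊢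
        rw [show b i - (y i - a i) = b i + a i - y i by ring]
        exact this)
      have h2 : Pool.Agent.Helper54.Bal.tau a V (y - a) = V y := by
        unfold Pool.Agent.Helper54.Bal.tau
        rw [sub_add_cancel]
      rwa [h2] at h1
    · rintro ⟨b, hb⟩
      refine ⟨b - a, fun y hy => ?_⟩
      have h1 := hb (y + a) (by
        rw [sd_le_iff] at hy ⊢
        intro i
        have := hy i
        simp only [Pi.add_apply, Pi.sub_apply] at this ⊢
        rw [show b i - (y i + a i) = b i - a i - y i by ring]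
        exact this)
      exact h1
  have hpos : PP d (gl σ) A ≠ 0 := by
    have h1 := flb_pos (d := d) hσ (l : ℝ) (δ := 1 / ((k : ℝ) + 1)) (by positivity) n
    intro h0
    apply h1
    refine measure_mono_null ?_ h0
    intro V hV
    rw [hA]
    exact ⟨0, hV⟩
  have h1 : PP d (gl σ) A = 1 := by
    rcases Pool.Agent.LE.CH.H77.erg d (gl σ) A hd hm hinv with h | h
    · exact absurd h hpos
    · exact h
  have h2 : ∀ᵐ V ∂(PP d (gl σ)), V ∈ A := by
    rw [← prob_compl_eq_zero_iff hm] at h1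
    exact h1
  filter_upwards [h2] with V hV
  rw [hA] at hV
  exact hV

theorem quasi_shift {V : Site d → ℝ} {ε lam E : ℝ} {v : L2 d} (h : IsQuasi V ε lam v) :
    IsQuasi V (ε + |lam - E|) E v := by
  obtain ⟨hv, r, hr, heq⟩ := h
  refine ⟨hv, r + ((lam - E : ℝ) : ℂ) • v, ?_, ?_⟩
  · refine (norm_add_le _ _).trans (add_le_add hr ?_)
    rw [norm_smul, Complex.norm_real, Real.norm_eq_abs]
    nlinarith only [abs_nonneg (lam - E), norm_nonneg v, hv]
  · intro y
    rw [lp.coeFn_add, Pi.add_apply, lp.coeFn_smul, Pi.smul_apply, smul_eq_mul, ← heq y]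
    push_cast
    ring

theorem spc (hWEY : WeyStmt) (hFLT : FltStmt) : SpcStmt := by
  intro d σ hd hσ
  obtain ⟨C, hC, H⟩ := hWEY d
  filter_upwards [hFLT d σ hd hσ] with V hV
  intro E₀ ε hε
  have hC0 : 0 < C := by linarith only [hC]
  obtain ⟨l, hl1, hl2⟩ := exists_rat_btwn (show E₀ - 2 * d - ε / 2 < E₀ - 2 * d by linarith only [hε])
  obtain ⟨k, hk⟩ := exists_nat_gt (4 * C / ε)
  obtain ⟨b, hb⟩ := hV l k (k + 1)
  obtain ⟨φ, hφ, hφ0, hq⟩ := H V l (1 / ((k : ℝ) + 1)) (k + 1) b (by omega) (by positivity) hb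
  refine ⟨φ, hφ, ?_, ?_⟩
  · refine (box b (k + 1)).finite_toSet.subset ?_
    intro x hx
    by_contra hcon
    rw [Finset.mem_coe, mem_box, not_le] at hcon
    exact hx (hφ0 x hcon)
  · have h1 := quasi_shift (E := E₀) hq
    obtain ⟨hv, r, hr, heq⟩ := h1
    refine ⟨hv, r, hr.trans ?_, heq⟩
    have h2 : |(l : ℝ) + 2 * d - E₀| ≤ ε / 2 := by
      rw [abs_le]
      constructor <;> linarith
    have h3 : C * (1 / (((k + 1 : ℕ) : ℕ) : ℝ) + 1 / ((k : ℝ) + 1)) ≤ ε / 2 := by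
      push_cast
      have h4 : 4 * C / ε < (k : ℝ) + 1 := by linarith only [hk]
      rw [div_lt_iff₀ hε] at h4
      have h5 : C * (1 / ((k : ℝ) + 1) + 1 / ((k : ℝ) + 1)) = 2 * C / ((k : ℝ) + 1) := by ring
      rw [h5, div_le_iff₀ (by positivity)]
      nlinarith only [h4]
    linarith only [h2, h3]

end Pool.Agent.ANE.H72
end
end -- Pool.Agent.Helper72_ANE.Flt

section -- Pool.Agent.Helper92_ANR.Ctp

/-!
# Plateau Combes-Thomas and locality for networks (block D2 of AND2B, MP_1906c1_mp)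

`H` real symmetric, absorption `κ > 0` (dead sites: `κ = η`), `G = (H - i κ)⁻¹`. A weight `w > 0` is
admissible (`Adm`) if `∑_y |H_xy| |w_x / w_y - 1| ≤ κ_x / 2` and the same with `w_y / w_x`: the weight has
to be constant across the bonds of a dead site.

* `ctp_l2` : `(H - i κ) ψ = r` implies `∑ κ w² |ψ|² ≤ 4 ∑ w² |r|² / κ`.
* `ctp` : `κ_x κ_y |G_xy|² w_x² ≤ 4 w_y²`.
* `adm_exp` : `w = exp (a ρ)` is admissible if `|ρ x - ρ y| ≤ 1` on bonds, `ρ x = ρ y` on the bonds of a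
  dead site, `∑_y |H_xy| ≤ D` (off the diagonal), `4 a D ≤ κ₀`, `a ≤ 1`.
* `rng` : `κ_x κ_y |G_xy|² ≤ 4 exp (- 2 a (ρ x - ρ y))`.
* `cut_bound` : a solution off `F`, cut along living bonds.
* `lev_decay` : exponential decay of the leverages.
* `loc_bound` : two networks which agree in `B`: `G_xy - G'_xy` is exponentially small in the interior.
-/

set_option autoImplicit false

open scoped BigOperators ComplexConjugate

noncomputable section

namespace Pool.Agent.ANR.H92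

/-- an admissible weight -/
structure Adm {X : Type} [Fintype X] (H : Matrix X X ℝ) (κ : X → ℝ) (w : X → ℝ) : Prop where
  pos : ∀ x, 0 < w x
  row : ∀ x, ∑ y, |H x y| * |w x / w y - 1| ≤ κ x / 2
  col : ∀ x, ∑ y, |H x y| * |w y / w x - 1| ≤ κ x / 2

section

variable {X : Type} [Fintype X] [DecidableEq X]

omit [DecidableEq X] in
theorem opv_sub' (H : Matrix X X ℝ) (κ : X → ℝ) (a b : X → ℂ) (x : X) :
    opv H κ (fun z => a z - b z) x = opv H κ a x - opv H κ b x := by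
  unfold opv
  simp only [mul_sub, Finset.sum_sub_distrib]
  ring

omit [DecidableEq X] in
/-- the weighted energy inequality -/
theorem ctp_l2 {H : Matrix X X ℝ} {κ w : X → ℝ} (hN : Net H κ) (hw : Adm H κ w) {ψ r : X → ℂ}
    (h : ∀ x, opv H κ ψ x = r x) :
    ∑ x, κ x * (w x * ‖ψ x‖) ^ 2 ≤ 4 * ∑ x, (w x * ‖r x‖) ^ 2 / κ x := by
  classical
  obtain ⟨u, hu⟩ : ∃ u : X → ℂ, ∀ x, u x = (w x : ℂ) * ψ x := ⟨_, fun _ => rfl⟩
  have hun : ∀ x, ‖u x‖ = w x * ‖ψ x‖ := by
    intro x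
    rw [hu x, norm_mul, Complex.norm_real, Real.norm_eq_abs, abs_of_pos (hw.pos x)]
  set A : ℝ := ∑ x, κ x * ‖u x‖ ^ 2 with hA
  set R : ℝ := ∑ x, (w x * ‖r x‖) ^ 2 / κ x with hR
  have hA0 : 0 ≤ A := Finset.sum_nonneg fun x _ => mul_nonneg (hN.pos x).le (sq_nonneg _)
  have hR0 : 0 ≤ R := Finset.sum_nonneg fun x _ => div_nonneg (sq_nonneg _) (hN.pos x).le
  -- the conjugated equation
  have heq : ∀ x, ∑ y, (H x y : ℂ) * u y + ∑ y, ((H x y * (w x / w y - 1) : ℝ) : ℂ) * u y -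
      Complex.I * (κ x : ℂ) * u x = (w x : ℂ) * r x := by
    intro x
    have h1 := h x
    unfold opv at h1
    rw [← h1, mul_sub, Finset.mul_sum, ← Finset.sum_add_distrib]
    congr 1
    · refine Finset.sum_congr rfl fun y _ => ?_
      have hy : (w y : ℂ) ≠ 0 := by exact_mod_cast (hw.pos y).ne'
      rw [hu y]
      push_cast
      field_simp
      ring
    · rw [hu x]
      ring
  -- the imaginary part
  have hreal : (∑ x, conj (u x) * ∑ y, (H x y : ℂ) * u y).im = 0 := by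
    have hz : conj (∑ x, conj (u x) * ∑ y, (H x y : ℂ) * u y) =
        ∑ x, conj (u x) * ∑ y, (H x y : ℂ) * u y := by
      rw [map_sum]
      have e1 : ∀ x, conj (conj (u x) * ∑ y, (H x y : ℂ) * u y) =
          ∑ y, (H x y : ℂ) * (u x * conj (u y)) := by
        intro x
        rw [map_mul, Complex.conj_conj, map_sum, Finset.mul_sum]
        refine Finset.sum_congr rfl fun y _ => ?_
        rw [map_mul, Complex.conj_ofReal]
        ring
      have e2 : ∀ x, conj (u x) * ∑ y, (H x y : ℂ) * u y =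
          ∑ y, (H x y : ℂ) * (u y * conj (u x)) := by
        intro x
        rw [Finset.mul_sum]
        refine Finset.sum_congr rfl fun y _ => ?_
        ring
      rw [Finset.sum_congr rfl fun x _ => e1 x, Finset.sum_congr rfl fun x _ => e2 x,
        Finset.sum_comm]
      refine Finset.sum_congr rfl fun x _ => Finset.sum_congr rfl fun y _ => ?_
      rw [hN.sym y x]
    exact Complex.conj_eq_iff_im.1 hz
  have hmain : A = (∑ x, conj (u x) * ∑ y, ((H x y * (w x / w y - 1) : ℝ) : ℂ) * u y).im -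
      (∑ x, conj (u x) * ((w x : ℂ) * r x)).im := by
    have e1 : ∑ x, conj (u x) * ((w x : ℂ) * r x) =
        ∑ x, conj (u x) * ∑ y, (H x y : ℂ) * u y +
        ∑ x, conj (u x) * ∑ y, ((H x y * (w x / w y - 1) : ℝ) : ℂ) * u y -
        Complex.I * ((A : ℝ) : ℂ) := by
      have e2 : Complex.I * ((A : ℝ) : ℂ) = ∑ x, conj (u x) * (Complex.I * (κ x : ℂ) * u x) := by
        rw [hA, Complex.ofReal_sum, Finset.mul_sum]
        refine Finset.sum_congr rfl fun x _ => ?_
        have e3 : conj (u x) * u x = ((‖u x‖ ^ 2 : ℝ) : ℂ) := by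
          rw [mul_comm, Complex.mul_conj, Complex.normSq_eq_norm_sq]
        rw [Complex.ofReal_mul, ← e3]
        ring
      rw [e2, ← Finset.sum_add_distrib, ← Finset.sum_sub_distrib]
      refine Finset.sum_congr rfl fun x _ => ?_
      rw [← heq x]
      ring
    have e4 := congrArg Complex.im e1
    rw [Complex.sub_im, Complex.add_im, hreal] at e4
    have e5 : (Complex.I * ((A : ℝ) : ℂ)).im = A := by simp
    rw [e5] at e4
    linarith only [e4]
  -- the commutator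
  have hcomm : (∑ x, conj (u x) * ∑ y, ((H x y * (w x / w y - 1) : ℝ) : ℂ) * u y).im ≤ A / 2 := by
    have h1 : (∑ x, conj (u x) * ∑ y, ((H x y * (w x / w y - 1) : ℝ) : ℂ) * u y).im ≤
        ∑ x, ∑ y, |H x y| * |w x / w y - 1| * ((‖u x‖ ^ 2 + ‖u y‖ ^ 2) / 2) := by
      refine le_trans (le_trans (le_abs_self _) (Complex.abs_im_le_norm _)) ?_
      refine le_trans (norm_sum_le _ _) (Finset.sum_le_sum fun x _ => ?_)
      rw [norm_mul, RCLike.norm_conj]
      refine le_trans (mul_le_mul_of_nonneg_left (norm_sum_le _ _) (norm_nonneg _)) ?_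
      rw [Finset.mul_sum]
      refine Finset.sum_le_sum fun y _ => ?_
      rw [norm_mul, Complex.norm_real, Real.norm_eq_abs, abs_mul]
      have h2 : ‖u x‖ * ‖u y‖ ≤ (‖u x‖ ^ 2 + ‖u y‖ ^ 2) / 2 := by
        nlinarith only [sq_nonneg (‖u x‖ - ‖u y‖)]
      have h3 : 0 ≤ |H x y| * |w x / w y - 1| := by positivity
      calc ‖u x‖ * (|H x y| * |w x / w y - 1| * ‖u y‖)
          = |H x y| * |w x / w y - 1| * (‖u x‖ * ‖u y‖) := by ring
        _ ≤ _ := mul_le_mul_of_nonneg_left h2 h3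
    have h2 : ∑ x, ∑ y, |H x y| * |w x / w y - 1| * ((‖u x‖ ^ 2 + ‖u y‖ ^ 2) / 2) =
        (1 / 2) * ∑ x, (∑ y, |H x y| * |w x / w y - 1|) * ‖u x‖ ^ 2 +
        (1 / 2) * ∑ x, (∑ y, |H x y| * |w y / w x - 1|) * ‖u x‖ ^ 2 := by
      have e1 : ∑ x, ∑ y, |H x y| * |w x / w y - 1| * ((‖u x‖ ^ 2 + ‖u y‖ ^ 2) / 2) =
          ∑ x, ∑ y, (1 / 2) * (|H x y| * |w x / w y - 1| * ‖u x‖ ^ 2) +
          ∑ x, ∑ y, (1 / 2) * (|H x y| * |w x / w y - 1| * ‖u y‖ ^ 2) := by
        rw [← Finset.sum_add_distrib]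
        refine Finset.sum_congr rfl fun x _ => ?_
        rw [← Finset.sum_add_distrib]
        exact Finset.sum_congr rfl fun y _ => by ring
      rw [e1]
      congr 1
      · rw [Finset.mul_sum]
        refine Finset.sum_congr rfl fun x _ => ?_
        rw [Finset.sum_mul, Finset.mul_sum]
      · rw [Finset.sum_comm, Finset.mul_sum]
        refine Finset.sum_congr rfl fun x _ => ?_
        rw [Finset.sum_mul, Finset.mul_sum]
        refine Finset.sum_congr rfl fun y _ => ?_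
        rw [hN.sym y x]
    have h3 : ∑ x, (∑ y, |H x y| * |w x / w y - 1|) * ‖u x‖ ^ 2 ≤ A / 2 := by
      rw [hA, Finset.sum_div]
      refine Finset.sum_le_sum fun x _ => ?_
      have := mul_le_mul_of_nonneg_right (hw.row x) (sq_nonneg ‖u x‖)
      linarith only [this]
    have h4 : ∑ x, (∑ y, |H x y| * |w y / w x - 1|) * ‖u x‖ ^ 2 ≤ A / 2 := by
      rw [hA, Finset.sum_div]
      refine Finset.sum_le_sum fun x _ => ?_
      have := mul_le_mul_of_nonneg_right (hw.col x) (sq_nonneg ‖u x‖)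
      linarith only [this]
    rw [h2] at h1
    linarith only [h1, h3, h4]
  -- the source
  have hsrc : -(∑ x, conj (u x) * ((w x : ℂ) * r x)).im ≤ Real.sqrt A * Real.sqrt R := by
    have h1 : -(∑ x, conj (u x) * ((w x : ℂ) * r x)).im ≤ ∑ x, ‖u x‖ * (w x * ‖r x‖) := by
      refine le_trans (neg_le_abs _) (le_trans (Complex.abs_im_le_norm _) ?_)
      refine le_trans (norm_sum_le _ _) (Finset.sum_le_sum fun x _ => ?_)
      rw [norm_mul, RCLike.norm_conj, norm_mul, Complex.norm_real, Real.norm_eq_abs,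
        abs_of_pos (hw.pos x)]
    have h2 : ∑ x, ‖u x‖ * (w x * ‖r x‖) =
        ∑ x, (Real.sqrt (κ x) * ‖u x‖) * ((w x * ‖r x‖) / Real.sqrt (κ x)) := by
      refine Finset.sum_congr rfl fun x _ => ?_
      have : Real.sqrt (κ x) ≠ 0 := (Real.sqrt_pos.2 (hN.pos x)).ne'
      field_simp
    have h3 := Finset.sum_mul_sq_le_sq_mul_sq Finset.univ
      (fun x => Real.sqrt (κ x) * ‖u x‖) (fun x => (w x * ‖r x‖) / Real.sqrt (κ x))
    have h4 : ∑ x, (Real.sqrt (κ x) * ‖u x‖) ^ 2 = A := by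
      rw [hA]
      refine Finset.sum_congr rfl fun x _ => ?_
      rw [mul_pow, Real.sq_sqrt (hN.pos x).le]
    have h5 : ∑ x, ((w x * ‖r x‖) / Real.sqrt (κ x)) ^ 2 = R := by
      rw [hR]
      refine Finset.sum_congr rfl fun x _ => ?_
      rw [div_pow, Real.sq_sqrt (hN.pos x).le]
    rw [h4, h5] at h3
    rw [h2] at h1
    refine le_trans h1 ?_
    rw [← Real.sqrt_mul hA0]
    exact Real.le_sqrt_of_sq_le h3
  have hfin : A / 2 ≤ Real.sqrt A * Real.sqrt R := by linarith only [hmain, hcomm, hsrc]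
  have hfin2 : A ≤ 4 * R := by
    have hs1 : Real.sqrt A * Real.sqrt A = A := Real.mul_self_sqrt hA0
    have hs2 : Real.sqrt R * Real.sqrt R = R := Real.mul_self_sqrt hR0
    have hs3 := Real.sqrt_nonneg A
    have hs4 := Real.sqrt_nonneg R
    nlinarith only [sq_nonneg (Real.sqrt A - 2 * Real.sqrt R), hmain, hcomm, hsrc, hs1, hs2]
  have hAe : A = ∑ x, κ x * (w x * ‖ψ x‖) ^ 2 := by
    rw [hA]
    exact Finset.sum_congr rfl fun x _ => by rw [hun x]
  rw [← hAe]
  exact hfin2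

/-- the column of a Green function -/
theorem ctp {H : Matrix X X ℝ} {κ w : X → ℝ} (hN : Net H κ) (hw : Adm H κ w) {g : X → ℂ} {y : X}
    (hg : ∀ x, opv H κ g x = if x = y then 1 else 0) :
    ∑ x, κ x * (w x * ‖g x‖) ^ 2 ≤ 4 * (w y ^ 2 / κ y) ∧
    ∀ x, κ x * κ y * ‖g x‖ ^ 2 * w x ^ 2 ≤ 4 * w y ^ 2 := by
  have h1 := ctp_l2 hN hw (ψ := g) (r := fun x => if x = y then 1 else 0) hg
  have h2 : ∑ x, (w x * ‖(if x = y then (1 : ℂ) else 0)‖) ^ 2 / κ x = w y ^ 2 / κ y := by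
    rw [Finset.sum_eq_single y]
    · simp
    · intro x _ hxy
      simp [hxy]
    · intro h
      exact absurd (Finset.mem_univ y) h
  rw [h2] at h1
  refine ⟨h1, fun x => ?_⟩
  have h3 : κ x * (w x * ‖g x‖) ^ 2 ≤ 4 * (w y ^ 2 / κ y) := by
    refine le_trans ?_ h1
    exact Finset.single_le_sum (f := fun x => κ x * (w x * ‖g x‖) ^ 2)
      (fun z _ => mul_nonneg (hN.pos z).le (sq_nonneg _)) (Finset.mem_univ x)
  have hy := hN.pos y
  calc κ x * κ y * ‖g x‖ ^ 2 * w x ^ 2 = κ x * (w x * ‖g x‖) ^ 2 * κ y := by ring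
    _ ≤ 4 * (w y ^ 2 / κ y) * κ y := mul_le_mul_of_nonneg_right h3 hy.le
    _ = 4 * w y ^ 2 := by field_simp

/-- exponential weights -/
theorem adm_exp {H : Matrix X X ℝ} {κ : X → ℝ} {ρ : X → ℝ} {A : Set X} {D κ₀ a : ℝ}
    (hN : Net H κ) (ha : 0 ≤ a) (ha1 : a ≤ 1) (haD : 4 * a * D ≤ κ₀)
    (hD : ∀ x ∈ A, ∑ y, (if x = y then 0 else |H x y|) ≤ D)
    (hκ : ∀ x ∈ A, κ₀ ≤ κ x)
    (hρ : ∀ x y, H x y ≠ 0 → |ρ x - ρ y| ≤ 1)
    (hρ' : ∀ x y, x ∉ A → H x y ≠ 0 → ρ x = ρ y) :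
    Adm H κ (fun x => Real.exp (a * ρ x)) ∧ Adm H κ (fun x => Real.exp (-(a * ρ x))) := by
  have key : ∀ σ : ℝ, (σ = 1 ∨ σ = -1) → ∀ x,
      ∑ y, |H x y| * |Real.exp (σ * (a * (ρ x - ρ y))) - 1| ≤ κ x / 2 := by
    intro σ hσ x
    by_cases hx : x ∈ A
    · have h1 : ∀ y, |H x y| * |Real.exp (σ * (a * (ρ x - ρ y))) - 1| ≤
          2 * a * (if x = y then 0 else |H x y|) := by
        intro y
        by_cases hxy : x = y
        · subst hxy
          simp
        · rw [if_neg hxy]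
          by_cases h0 : H x y = 0
          · simp [h0]
          · have h2 := hρ x y h0
            have h3 : |σ * (a * (ρ x - ρ y))| ≤ a := by
              have hσa : |σ| = 1 := by rcases hσ with h | h <;> simp [h]
              rw [abs_mul, hσa, one_mul, abs_mul, abs_of_nonneg ha]
              calc a * |ρ x - ρ y| ≤ a * 1 := mul_le_mul_of_nonneg_left h2 ha
                _ = a := mul_one a
            have h4 : |Real.exp (σ * (a * (ρ x - ρ y))) - 1| ≤ 2 * a := by
              have h5 := Real.abs_exp_sub_one_le (x := σ * (a * (ρ x - ρ y))) (le_trans h3 ha1)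
              linarith only [h3, h5]
            calc |H x y| * |Real.exp (σ * (a * (ρ x - ρ y))) - 1| ≤ |H x y| * (2 * a) :=
                  mul_le_mul_of_nonneg_left h4 (abs_nonneg _)
              _ = _ := by ring
      refine le_trans (Finset.sum_le_sum fun y _ => h1 y) ?_
      rw [← Finset.mul_sum]
      have h6 := mul_le_mul_of_nonneg_left (hD x hx) (by linarith : (0 : ℝ) ≤ 2 * a)
      have h7 := hκ x hx
      linarith only [haD, h6, h7]
    · have h1 : ∀ y, |H x y| * |Real.exp (σ * (a * (ρ x - ρ y))) - 1| = 0 := by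
        intro y
        by_cases h0 : H x y = 0
        · simp [h0]
        · rw [hρ' x y hx h0]
          simp
      simp only [h1, Finset.sum_const_zero]
      exact (half_pos (hN.pos x)).le
  constructor
  · refine ⟨fun x => Real.exp_pos _, fun x => ?_, fun x => ?_⟩
    · have := key 1 (Or.inl rfl) x
      refine le_trans (le_of_eq (Finset.sum_congr rfl fun y _ => ?_)) this
      rw [← Real.exp_sub]
      congr 4
      ring
    · have := key (-1) (Or.inr rfl) x
      refine le_trans (le_of_eq (Finset.sum_congr rfl fun y _ => ?_)) this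
      rw [← Real.exp_sub]
      congr 4
      ring
  · refine ⟨fun x => Real.exp_pos _, fun x => ?_, fun x => ?_⟩
    · have := key (-1) (Or.inr rfl) x
      refine le_trans (le_of_eq (Finset.sum_congr rfl fun y _ => ?_)) this
      rw [← Real.exp_sub]
      congr 4
      ring
    · have := key 1 (Or.inl rfl) x
      refine le_trans (le_of_eq (Finset.sum_congr rfl fun y _ => ?_)) this
      rw [← Real.exp_sub]
      congr 4
      ring

omit [DecidableEq X] in
/-- the trivial weight -/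
theorem adm_one {H : Matrix X X ℝ} {κ : X → ℝ} (hN : Net H κ) : Adm H κ (fun _ => 1) := by
  refine ⟨fun _ => one_pos, fun x => ?_, fun x => ?_⟩ <;>
  · simp only [div_one, sub_self, abs_zero, mul_zero, Finset.sum_const_zero]
    exact (half_pos (hN.pos x)).le

/-- RNG: decay in any distance which does not count the bonds of dead sites -/
theorem rng {H : Matrix X X ℝ} {κ : X → ℝ} {ρ : X → ℝ} {A : Set X} {D κ₀ a : ℝ}
    (hN : Net H κ) (ha : 0 ≤ a) (ha1 : a ≤ 1) (haD : 4 * a * D ≤ κ₀)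
    (hD : ∀ x ∈ A, ∑ y, (if x = y then 0 else |H x y|) ≤ D)
    (hκ : ∀ x ∈ A, κ₀ ≤ κ x)
    (hρ : ∀ x y, H x y ≠ 0 → |ρ x - ρ y| ≤ 1)
    (hρ' : ∀ x y, x ∉ A → H x y ≠ 0 → ρ x = ρ y) {g : X → ℂ} {y : X}
    (hg : ∀ x, opv H κ g x = if x = y then 1 else 0) (x : X) :
    κ x * κ y * ‖g x‖ ^ 2 ≤ 4 * Real.exp (-(2 * a * |ρ x - ρ y|)) := by
  obtain ⟨h1, h2⟩ := adm_exp hN ha ha1 haD hD hκ hρ hρ'
  have h3 := (ctp hN h1 hg).2 x
  have h4 := (ctp hN h2 hg).2 x
  have e : ∀ t : ℝ, Real.exp t ^ 2 = Real.exp (2 * t) := by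
    intro t
    rw [← Real.exp_nat_mul]
    norm_num
  simp only [e] at h3 h4
  rcases le_total (ρ y) (ρ x) with h | h
  · rw [abs_of_nonneg (sub_nonneg.2 h)]
    have h5 : κ x * κ y * ‖g x‖ ^ 2 = (κ x * κ y * ‖g x‖ ^ 2 * Real.exp (2 * (a * ρ x))) *
        Real.exp (-(2 * (a * ρ x))) := by
      rw [mul_assoc (κ x * κ y * ‖g x‖ ^ 2), ← Real.exp_add, add_neg_cancel, Real.exp_zero,
        mul_one]
    rw [h5]
    refine le_trans (mul_le_mul_of_nonneg_right h3 (Real.exp_pos _).le) (le_of_eq ?_)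
    rw [mul_assoc, ← Real.exp_add]
    congr 2
    ring
  · rw [abs_of_nonpos (sub_nonpos.2 h)]
    have h5 : κ x * κ y * ‖g x‖ ^ 2 = (κ x * κ y * ‖g x‖ ^ 2 * Real.exp (2 * (-(a * ρ x)))) *
        Real.exp (-(2 * (-(a * ρ x)))) := by
      rw [mul_assoc (κ x * κ y * ‖g x‖ ^ 2), ← Real.exp_add, add_neg_cancel, Real.exp_zero,
        mul_one]
    rw [h5]
    refine le_trans (mul_le_mul_of_nonneg_right h4 (Real.exp_pos _).le) (le_of_eq ?_)
    rw [mul_assoc, ← Real.exp_add]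
    congr 2
    ring

/-- a cut along living bonds: `S` contains the ends of all bonds between `B` and its complement -/
structure Cut (H : Matrix X X ℝ) (κ w : X → ℝ) (B S : Finset X) (D κ₀ W : ℝ) : Prop where
  hB : ∀ z ∈ B, ∀ y, y ∉ B → H z y ≠ 0 → z ∈ S ∧ y ∈ S
  hD : ∀ x ∈ S, ∑ y, (if x = y then 0 else |H x y|) ≤ D
  hκ : ∀ x ∈ S, κ₀ ≤ κ x
  hW : ∀ x ∈ S, w x ≤ W
  h0 : 0 < κ₀
  hD0 : 0 ≤ D

/-- the field inside of `B` is controlled by its values near the boundary -/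
theorem cut_bound {H : Matrix X X ℝ} {κ w : X → ℝ} {B S : Finset X} {D κ₀ W : ℝ}
    (hN : Net H κ) (hw : Adm H κ w) (hC : Cut H κ w B S D κ₀ W) {ψ : X → ℂ}
    (hψ : ∀ z ∈ B, opv H κ ψ z = 0) :
    ∑ x ∈ B, κ x * (w x * ‖ψ x‖) ^ 2 ≤ 4 * (W ^ 2 / κ₀ * D ^ 2 * ∑ y ∈ S, ‖ψ y‖ ^ 2) := by
  obtain ⟨χ, hχ⟩ : ∃ χ : X → ℂ, ∀ z, χ z = if z ∈ B then ψ z else 0 := ⟨_, fun _ => rfl⟩
  obtain ⟨d, hd⟩ : ∃ d : X → X → ℝ, ∀ x y, d x y =
      if x ∈ B then (if y ∈ B then 0 else -H x y) else (if y ∈ B then H x y else 0) :=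
    ⟨_, fun _ _ => rfl⟩
  have hr : ∀ x, opv H κ χ x = ∑ y, (d x y : ℂ) * ψ y := by
    intro x
    by_cases hx : x ∈ B
    · have h1 := hψ x hx
      unfold opv at h1 ⊢
      have h2 : ∑ y, (H x y : ℂ) * ψ y = Complex.I * (κ x : ℂ) * ψ x := sub_eq_zero.1 h1
      rw [hχ x, if_pos hx, ← h2, ← Finset.sum_sub_distrib]
      refine Finset.sum_congr rfl fun y _ => ?_
      rw [hd x y, if_pos hx, hχ y]
      by_cases hy : y ∈ B
      · simp [hy]
      · simp [hy]
    · unfold opv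
      rw [hχ x, if_neg hx, mul_zero, sub_zero]
      refine Finset.sum_congr rfl fun y _ => ?_
      rw [hd x y, if_neg hx, hχ y]
      by_cases hy : y ∈ B
      · simp [hy]
      · simp [hy]
  have hdS : ∀ x y, d x y ≠ 0 → x ∈ S ∧ y ∈ S := by
    intro x y h
    rw [hd x y] at h
    by_cases hx : x ∈ B
    · by_cases hy : y ∈ B
      · simp [hx, hy] at h
      · rw [if_pos hx, if_neg hy] at h
        exact hC.hB x hx y hy (neg_ne_zero.1 h)
    · by_cases hy : y ∈ B
      · rw [if_neg hx, if_pos hy] at h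
        have h3 : H y x ≠ 0 := by rw [hN.sym y x]; exact h
        exact (hC.hB y hy x hx h3).symm
      · simp [hx, hy] at h
  have hdabs : ∀ x y, |d x y| ≤ if x = y then 0 else |H x y| := by
    intro x y
    rw [hd x y]
    by_cases hxy : x = y
    · subst hxy
      by_cases hx : x ∈ B <;> simp [hx]
    · rw [if_neg hxy]
      by_cases hx : x ∈ B <;> by_cases hy : y ∈ B <;> simp [hx, hy]
  have hdsym : ∀ x y, |d x y| = |d y x| := by
    intro x y
    rw [hd x y, hd y x, hN.sym x y]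
    by_cases hx : x ∈ B <;> by_cases hy : y ∈ B <;> simp [hx, hy]
  have hdD : ∀ x, ∑ y, |d x y| ≤ D := by
    intro x
    by_cases hx : x ∈ S
    · exact le_trans (Finset.sum_le_sum fun y _ => hdabs x y) (hC.hD x hx)
    · refine le_trans (le_of_eq (Finset.sum_eq_zero fun y _ => ?_)) hC.hD0
      rw [abs_eq_zero]
      by_contra h
      exact hx (hdS x y h).1
  have h1 := ctp_l2 hN hw hr
  -- the left side
  have hL : ∑ x ∈ B, κ x * (w x * ‖ψ x‖) ^ 2 ≤ ∑ x, κ x * (w x * ‖χ x‖) ^ 2 := by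
    have e1 : ∑ x ∈ B, κ x * (w x * ‖ψ x‖) ^ 2 = ∑ x ∈ B, κ x * (w x * ‖χ x‖) ^ 2 := by
      refine Finset.sum_congr rfl fun x hx => ?_
      rw [hχ x, if_pos hx]
    rw [e1]
    exact Finset.sum_le_sum_of_subset_of_nonneg (Finset.subset_univ B)
      fun x _ _ => mul_nonneg (hN.pos x).le (sq_nonneg _)
  -- the right side
  have hsq : ∀ x, ‖∑ y, (d x y : ℂ) * ψ y‖ ^ 2 ≤ D * ∑ y, |d x y| * ‖ψ y‖ ^ 2 := by
    intro x
    have e1 : ‖∑ y, (d x y : ℂ) * ψ y‖ ≤ ∑ y, |d x y| * ‖ψ y‖ := by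
      refine le_trans (norm_sum_le _ _) (le_of_eq (Finset.sum_congr rfl fun y _ => ?_))
      rw [norm_mul, Complex.norm_real, Real.norm_eq_abs]
    have e2 : (∑ y, |d x y| * ‖ψ y‖) ^ 2 ≤ (∑ y, |d x y|) * ∑ y, |d x y| * ‖ψ y‖ ^ 2 := by
      refine Finset.sum_sq_le_sum_mul_sum_of_sq_le_mul _ (fun y _ => abs_nonneg _)
        (fun y _ => by positivity) (fun y _ => le_of_eq ?_)
      ring
    have e3 : 0 ≤ ∑ y, |d x y| * ‖ψ y‖ ^ 2 := Finset.sum_nonneg fun y _ => by positivity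
    calc ‖∑ y, (d x y : ℂ) * ψ y‖ ^ 2 ≤ (∑ y, |d x y| * ‖ψ y‖) ^ 2 := by gcongr
      _ ≤ _ := e2
      _ ≤ _ := mul_le_mul_of_nonneg_right (hdD x) e3
  have hterm : ∀ x, (w x * ‖∑ y, (d x y : ℂ) * ψ y‖) ^ 2 / κ x ≤
      W ^ 2 / κ₀ * (D * ∑ y, |d x y| * ‖ψ y‖ ^ 2) := by
    intro x
    have e3 : 0 ≤ ∑ y, |d x y| * ‖ψ y‖ ^ 2 := Finset.sum_nonneg fun y _ => by positivity
    by_cases hx : x ∈ S
    · have e4 := hC.hκ x hx
      have e5 := hC.hW x hx
      have e6 := hw.pos x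
      have e7 := hC.h0
      calc (w x * ‖∑ y, (d x y : ℂ) * ψ y‖) ^ 2 / κ x
          ≤ (W * ‖∑ y, (d x y : ℂ) * ψ y‖) ^ 2 / κ₀ := by
            gcongr
        _ = W ^ 2 / κ₀ * ‖∑ y, (d x y : ℂ) * ψ y‖ ^ 2 := by ring
        _ ≤ _ := by
            apply mul_le_mul_of_nonneg_left (hsq x)
            positivity
    · have e4 : ∑ y, (d x y : ℂ) * ψ y = 0 := by
        refine Finset.sum_eq_zero fun y _ => ?_
        have : d x y = 0 := by
          by_contra h
          exact hx (hdS x y h).1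
        rw [this]
        simp
      rw [e4]
      have e7 := hC.h0
      have e8 := hC.hD0
      simp only [norm_zero, mul_zero, ne_eq, OfNat.ofNat_ne_zero, not_false_eq_true, zero_pow,
        zero_div]
      positivity
  have hR : ∑ x, (w x * ‖∑ y, (d x y : ℂ) * ψ y‖) ^ 2 / κ x ≤
      W ^ 2 / κ₀ * D ^ 2 * ∑ y ∈ S, ‖ψ y‖ ^ 2 := by
    refine le_trans (Finset.sum_le_sum fun x _ => hterm x) ?_
    rw [← Finset.mul_sum, ← Finset.mul_sum, Finset.sum_comm]
    have e1 : ∀ y, ∑ x, |d x y| * ‖ψ y‖ ^ 2 ≤ D * (if y ∈ S then ‖ψ y‖ ^ 2 else 0) := by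
      intro y
      rw [← Finset.sum_mul]
      by_cases hy : y ∈ S
      · rw [if_pos hy]
        refine mul_le_mul_of_nonneg_right ?_ (sq_nonneg _)
        refine le_trans (le_of_eq (Finset.sum_congr rfl fun x _ => hdsym x y)) (hdD y)
      · rw [if_neg hy, mul_zero]
        refine le_of_eq ?_
        have : ∑ x, |d x y| = 0 := Finset.sum_eq_zero fun x _ => by
          rw [abs_eq_zero]
          by_contra h
          exact hy (hdS x y h).2
        rw [this, zero_mul]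
    have e2 : ∑ y, ∑ x, |d x y| * ‖ψ y‖ ^ 2 ≤ D * ∑ y ∈ S, ‖ψ y‖ ^ 2 := by
      refine le_trans (Finset.sum_le_sum fun y _ => e1 y) (le_of_eq ?_)
      rw [← Finset.mul_sum, Finset.sum_ite_mem, Finset.univ_inter]
    have e7 := hC.h0
    have e8 := hC.hD0
    calc W ^ 2 / κ₀ * (D * ∑ y, ∑ x, |d x y| * ‖ψ y‖ ^ 2)
        ≤ W ^ 2 / κ₀ * (D * (D * ∑ y ∈ S, ‖ψ y‖ ^ 2)) := by gcongr
      _ = _ := by ring
  exact le_trans hL (le_trans h1 (mul_le_mul_of_nonneg_left hR (by norm_num)))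

/-- decay of the leverages -/
theorem lev_decay {H : Matrix X X ℝ} {κ w : X → ℝ} {B S F : Finset X} {D κ₀ W : ℝ}
    (hN : Net H κ) (hw : Adm H κ w) (hC : Cut H κ w B S D κ₀ W) (hBF : Disjoint B F)
    (hSF : Disjoint S F) {x : X} (hx : x ∈ B) :
    Lev H κ F x (4 * (W ^ 2 * D ^ 2) / (κ₀ ^ 2 * κ x * w x ^ 2)) := by
  intro ψ hψ
  have h1 := cut_bound hN hw hC (ψ := ψ) (fun z hz => hψ z (Finset.disjoint_left.1 hBF hz))
  have h2 : κ x * (w x * ‖ψ x‖) ^ 2 ≤ ∑ x ∈ B, κ x * (w x * ‖ψ x‖) ^ 2 :=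
    Finset.single_le_sum (f := fun x => κ x * (w x * ‖ψ x‖) ^ 2)
      (fun z _ => mul_nonneg (hN.pos z).le (sq_nonneg _)) hx
  have h3 : κ₀ * ∑ y ∈ S, ‖ψ y‖ ^ 2 ≤ Q κ F ψ := by
    rw [Finset.mul_sum]
    unfold Q
    refine le_trans (Finset.sum_le_sum (g := fun y => κ y * ‖ψ y‖ ^ 2) fun y hy => ?_) ?_
    · exact mul_le_mul_of_nonneg_right (hC.hκ y hy) (sq_nonneg _)
    · refine Finset.sum_le_sum_of_subset_of_nonneg ?_
        fun y _ _ => mul_nonneg (hN.pos y).le (sq_nonneg _)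
      intro y hy
      exact Finset.mem_compl.2 (Finset.disjoint_left.1 hSF hy)
  have e7 := hC.h0
  have e8 := hC.hD0
  have hκx := hN.pos x
  have hwx := hw.pos x
  have hQ : ∑ y ∈ S, ‖ψ y‖ ^ 2 ≤ Q κ F ψ / κ₀ := by
    rw [le_div_iff₀ e7]
    linarith only [h3]
  have h4 : κ x * (w x * ‖ψ x‖) ^ 2 ≤ 4 * (W ^ 2 / κ₀ * D ^ 2 * (Q κ F ψ / κ₀)) := by
    refine le_trans h2 (le_trans h1 ?_)
    gcongr
  have h5 : ‖ψ x‖ ^ 2 = κ x * (w x * ‖ψ x‖) ^ 2 / (κ x * w x ^ 2) := by
    field_simp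
  rw [h5]
  refine le_trans (div_le_div_of_nonneg_right h4 (by positivity)) (le_of_eq ?_)
  field_simp

/-- LOCALITY: two networks with the same rows in `B`, cut along bonds which are alive in both -/
theorem loc_bound {H H' : Matrix X X ℝ} {κ κ' w : X → ℝ} {B S : Finset X} {D κ₀ W : ℝ}
    (hN : Net H κ) (hN' : Net H' κ') (hw : Adm H κ w) (hC : Cut H κ w B S D κ₀ W)
    (hκ' : ∀ x ∈ S, κ₀ ≤ κ' x) (hO : ∀ x ∈ B, κ' x = κ x ∧ ∀ y, H' x y = H x y)
    {g g' : X → ℂ} {y : X} (hy : y ∈ B)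
    (hg : ∀ x, opv H κ g x = if x = y then 1 else 0)
    (hg' : ∀ x, opv H' κ' g' x = if x = y then 1 else 0) :
    ∑ x ∈ B, κ x * (w x * ‖g x - g' x‖) ^ 2 ≤ 64 * (W ^ 2 * D ^ 2) / (κ₀ ^ 2 * κ y) := by
  have h1 := cut_bound hN hw hC (ψ := fun z => g z - g' z) (by
    intro z hz
    have h2 : opv H κ g' z = opv H' κ' g' z := by
      unfold opv
      rw [(hO z hz).1]
      congr 1
      exact Finset.sum_congr rfl fun u _ => by rw [(hO z hz).2 u]
    rw [opv_sub', h2, hg z, hg' z, sub_self])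
  have h2 := (ctp hN (adm_one hN) hg).1
  have h3 := (ctp hN' (adm_one hN') hg').1
  rw [(hO y hy).1] at h3
  have e7 := hC.h0
  have e8 := hC.hD0
  have hκy := hN.pos y
  have h4 : κ₀ * ∑ z ∈ S, ‖g z - g' z‖ ^ 2 ≤ 16 / κ y := by
    have e1 : ∀ z ∈ S, κ₀ * ‖g z - g' z‖ ^ 2 ≤
        2 * (κ z * (1 * ‖g z‖) ^ 2) + 2 * (κ' z * (1 * ‖g' z‖) ^ 2) := by
      intro z hz
      have e2 := hC.hκ z hz
      have e3 := hκ' z hz
      have e4 : ‖g z - g' z‖ ≤ ‖g z‖ + ‖g' z‖ := norm_sub_le _ _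
      have e5 : ‖g z - g' z‖ ^ 2 ≤ 2 * ‖g z‖ ^ 2 + 2 * ‖g' z‖ ^ 2 := by
        nlinarith only [norm_nonneg (g z - g' z), norm_nonneg (g z), norm_nonneg (g' z),
          sq_nonneg (‖g z‖ - ‖g' z‖), e4]
      have e6 := mul_le_mul_of_nonneg_right e2 (sq_nonneg ‖g z‖)
      have e9 := mul_le_mul_of_nonneg_right e3 (sq_nonneg ‖g' z‖)
      have e10 := mul_le_mul_of_nonneg_left e5 e7.le
      rw [one_mul, one_mul]
      linarith only [e6, e9, e10]
    rw [Finset.mul_sum]
    refine le_trans (Finset.sum_le_sum e1) ?_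
    rw [Finset.sum_add_distrib, ← Finset.mul_sum, ← Finset.mul_sum]
    have e2 : ∑ z ∈ S, κ z * (1 * ‖g z‖) ^ 2 ≤ ∑ z, κ z * (1 * ‖g z‖) ^ 2 :=
      Finset.sum_le_sum_of_subset_of_nonneg (Finset.subset_univ S)
        fun z _ _ => mul_nonneg (hN.pos z).le (sq_nonneg _)
    have e3 : ∑ z ∈ S, κ' z * (1 * ‖g' z‖) ^ 2 ≤ ∑ z, κ' z * (1 * ‖g' z‖) ^ 2 :=
      Finset.sum_le_sum_of_subset_of_nonneg (Finset.subset_univ S)
        fun z _ _ => mul_nonneg (hN'.pos z).le (sq_nonneg _)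
    have e4 : (1 : ℝ) ^ 2 / κ y = 1 / κ y := by norm_num
    rw [e4] at h2 h3
    have e5 : (16 : ℝ) / κ y = 16 * (1 / κ y) := by ring
    rw [e5]
    linarith only [h2, h3, e2, e3]
  have h5 : ∑ z ∈ S, ‖g z - g' z‖ ^ 2 ≤ 16 / κ y / κ₀ := by
    rw [le_div_iff₀ e7]
    linarith only [h4]
  refine le_trans h1 ?_
  calc 4 * (W ^ 2 / κ₀ * D ^ 2 * ∑ z ∈ S, ‖g z - g' z‖ ^ 2)
      ≤ 4 * (W ^ 2 / κ₀ * D ^ 2 * (16 / κ y / κ₀)) := by gcongr
    _ = _ := by
      field_simp
      ring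

end

end Pool.Agent.ANR.H92
end
end -- Pool.Agent.Helper92_ANR.Ctp

section -- Pool.Agent.Helper72_ANE.Key

/-!
# ANE, row KEY: no solution in a good final state
-/

set_option autoImplicit false

open scoped BigOperators ComplexConjugate

noncomputable section

namespace Pool.Agent.ANE.H72

open Pool.Agent.ANR

section gen

variable {X : Type} [Fintype X] [DecidableEq X]

/-- the pairing -/
theorem pairing {H : Matrix X X ℝ} {κ : X → ℝ} (hN : Net H κ) {u : X → ℂ} {o : X}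
    (hu : ∀ x, opv H κ u x = if x = o then 1 else 0) (w f : X → ℝ)
    (hf : ∀ x, ∑ y, H x y * w y = f x) :
    (w o : ℂ) + Complex.I * ∑ x, ((κ x * w x : ℝ) : ℂ) * u x = ∑ x, ((f x : ℝ) : ℂ) * u x := by
  have h1 : ∑ x, (w x : ℂ) * ∑ y, (H x y : ℂ) * u y = ∑ x, ((f x : ℝ) : ℂ) * u x := by
    simp only [Finset.mul_sum]
    rw [Finset.sum_comm]
    refine Finset.sum_congr rfl fun y _ => ?_
    rw [← hf y, Complex.ofReal_sum, Finset.sum_mul]
    refine Finset.sum_congr rfl fun x _ => ?_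
    rw [hN.sym x y]
    push_cast
    ring
  rw [← h1]
  have h2 : ∀ x, ∑ y, (H x y : ℂ) * u y = (if x = o then 1 else 0) +
      Complex.I * (κ x : ℂ) * u x := by
    intro x
    rw [← hu x]
    unfold opv
    ring
  simp only [h2, mul_add, Finset.sum_add_distrib, mul_ite, mul_one, mul_zero,
    Finset.sum_ite_eq', Finset.mem_univ, if_true]
  congr 1
  rw [Finset.mul_sum]
  refine Finset.sum_congr rfl fun x _ => ?_
  push_cast
  ring

end gen

open Pool.Agent.Anderson hiding box mem_box card_box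
open Pool.Agent.Loc hiding nb
open Pool.Agent.BED Pool.Agent.LE.QD Pool.Agent.ANE

variable {d M : ℕ} [NeZero M]

theorem hv_apply (E : ℝ) (V w : Tor d M → ℝ) (x : Tor d M) :
    ∑ y, HV d M E V x y * w y =
      ∑ i : Fin d, (w (x + ev i) + w (x - ev i)) + (V x - E) * w x := by
  unfold HV
  simp only [Matrix.add_apply, add_mul, Finset.sum_add_distrib]
  congr 1
  · unfold adj
    simp only [Matrix.of_apply, Finset.sum_mul, add_mul]
    rw [Finset.sum_comm, ← Finset.sum_add_distrib]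
    refine Finset.sum_congr rfl fun i _ => ?_
    rw [Finset.sum_add_distrib]
    simp
  · simp [Matrix.diagonal_apply]

theorem adj_symm' (x y : Tor d M) : adj d M x y = adj d M y x := by
  unfold adj
  simp only [Matrix.of_apply]
  refine Finset.sum_congr rfl fun i _ => ?_
  rw [add_comm]
  congr 1
  · have : (y = x - ev i) ↔ (x = y + ev i) := by
      constructor
      · rintro rfl; abel
      · rintro rfl; abel
    simp only [this]
  · have : (y = x + ev i) ↔ (x = y - ev i) := by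
      constructor
      · rintro rfl; abel
      · rintro rfl; abel
    simp only [this]

theorem net_hv (E : ℝ) (V : Tor d M → ℝ) {κ : Tor d M → ℝ} (hκ : ∀ x, 0 < κ x) :
    Net (HV d M E V) κ := by
  refine ⟨fun x y => ?_, hκ⟩
  unfold HV
  rw [Matrix.add_apply, Matrix.add_apply, adj_symm' x y]
  congr 1
  by_cases h : x = y
  · rw [h]
  · rw [Matrix.diagonal_apply_ne _ h, Matrix.diagonal_apply_ne _ (Ne.symm h)]

theorem hv_ne {E : ℝ} {V : Tor d M → ℝ} {x y : Tor d M} (h : HV d M E V x y ≠ 0) :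
    x = y ∨ ∃ i : Fin d, y = x + ev i ∨ y = x - ev i := by
  by_contra hcon
  push Not at hcon
  obtain ⟨h1, h2⟩ := hcon
  apply h
  unfold HV adj
  rw [Matrix.add_apply, Matrix.diagonal_apply_ne _ h1, Matrix.of_apply, add_zero]
  refine Finset.sum_eq_zero fun i _ => ?_
  rw [if_neg (h2 i).1, if_neg (h2 i).2, add_zero]

theorem hv_row (E : ℝ) (V : Tor d M → ℝ) (x : Tor d M) :
    ∑ y, (if x = y then 0 else |HV d M E V x y|) ≤ 2 * d := by
  have h1 : ∀ y, (if x = y then 0 else |HV d M E V x y|) ≤ adj d M x y := by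
    intro y
    have h0 : 0 ≤ adj d M x y := by
      unfold adj
      rw [Matrix.of_apply]
      refine Finset.sum_nonneg fun i _ => ?_
      split_ifs <;> norm_num
    split_ifs with h
    · exact h0
    · unfold HV
      rw [Matrix.add_apply, Matrix.diagonal_apply_ne _ h, add_zero, abs_of_nonneg h0]
  refine (Finset.sum_le_sum fun y _ => h1 y).trans ?_
  unfold adj
  simp only [Matrix.of_apply]
  rw [Finset.sum_comm]
  calc _ = ∑ _i : Fin d, (2 : ℝ) := by
        refine Finset.sum_congr rfl fun i _ => ?_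
        rw [Finset.sum_add_distrib]
        simp
        norm_num
    _ ≤ 2 * d := by
        rw [Finset.sum_const, Finset.card_univ, Fintype.card_fin, nsmul_eq_mul]
        linarith

/-- Cauchy-Schwarz -/
theorem cs {X : Type} (s : Finset X) (f g : X → ℝ) {A B : ℝ} (hA : ∑ x ∈ s, f x ^ 2 ≤ A)
    (hB : ∑ x ∈ s, g x ^ 2 ≤ B) : ∑ x ∈ s, f x * g x ≤ Real.sqrt A * Real.sqrt B := by
  have hA0 : 0 ≤ A := (Finset.sum_nonneg fun x _ => sq_nonneg _).trans hA
  have hB0 : 0 ≤ B := (Finset.sum_nonneg fun x _ => sq_nonneg _).trans hB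
  rw [← Real.sqrt_mul hA0]
  refine Real.le_sqrt_of_sq_le ((Finset.sum_mul_sq_le_sq_mul_sq s f g).trans ?_)
  exact mul_le_mul hA hB (Finset.sum_nonneg fun x _ => sq_nonneg _) hA0

theorem key (hGEQ : GeqStmt) : KeyStmt := by
  classical
  intro d M _ E η δ A R U V κ Al ρ hη hη1 hδ hκ hκA h0A hρ0 hR hbond hdead hin hSol
  obtain ⟨v, hvA, hveq⟩ := hSol
  have hA0 : 0 ≤ A := (Finset.sum_nonneg fun x _ => sq_nonneg _).trans hvA
  have hN := net_hv E V hκ
  obtain ⟨g1, -, g3, g4, -⟩ := hGEQ (Tor d M) (HV d M E V) κ hN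
  obtain ⟨u, hu⟩ : ∃ u : Tor d M → ℂ, u = fun x => Gr (HV d M E V) κ x 0 := ⟨_, rfl⟩
  have hueq : ∀ x, opv (HV d M E V) κ u x = if x = 0 then 1 else 0 := by
    intro x
    rw [hu]
    exact g1 x 0
  have hward : ∑ x, κ x * ‖u x‖ ^ 2 = (u 0).im := by rw [hu]; exact g3 0
  have hu0 : (u 0).im ≤ 1 / η := by
    have h1 : κ 0 * ‖u 0‖ ≤ 1 := by rw [hu]; exact g4 0
    have h2 : (u 0).im ≤ ‖u 0‖ := (le_abs_self _).trans (Complex.abs_im_le_norm _)
    rw [le_div_iff₀ hη]
    have h3 := hκA 0 h0A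
    nlinarith only [norm_nonneg (u 0), hη, h1, h2, h3]
  have hI0 : 0 ≤ (u 0).im := by
    rw [← hward]
    exact Finset.sum_nonneg fun x _ => mul_nonneg (hκ x).le (by positivity)
  have hgoal : (Gr (HV d M E V) κ 0 0).im = (u 0).im := by rw [hu]
  rw [hgoal]
  -- the cutoff
  obtain ⟨χ, hχ⟩ : ∃ χ : Tor d M → ℝ, ∀ x, χ x = if ρ x < R then 1 else 0 := ⟨_, fun _ => rfl⟩
  have hχ0 : χ 0 = 1 := by rw [hχ, if_pos (by omega)]
  have hχ01 : ∀ x, 0 ≤ χ x ∧ χ x ≤ 1 := by
    intro x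
    rw [hχ]
    split_ifs <;> norm_num
  obtain ⟨w, hw⟩ : ∃ w : Tor d M → ℝ, ∀ x, w x = χ x * v x := ⟨_, fun _ => rfl⟩
  obtain ⟨r, hr⟩ : ∃ r : Tor d M → ℝ, ∀ x, r x = ∑ i : Fin d,
    ((χ (x + ev i) - χ x) * v (x + ev i) + (χ (x - ev i) - χ x) * v (x - ev i)) :=
    ⟨_, fun _ => rfl⟩
  obtain ⟨f, hf⟩ : ∃ f : Tor d M → ℝ, ∀ x, f x = (if x = 0 then 1 else 0) -
      χ x * ((U x - V x) * v x) + r x := ⟨_, fun _ => rfl⟩
  have hfeq : ∀ x, ∑ y, HV d M E V x y * w y = f x := by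
    intro x
    rw [hv_apply, hf, hw x]
    have e1 : ∑ i : Fin d, (w (x + ev i) + w (x - ev i)) =
        χ x * ∑ i : Fin d, (v (x + ev i) + v (x - ev i)) + r x := by
      rw [hr, Finset.mul_sum, ← Finset.sum_add_distrib]
      refine Finset.sum_congr rfl fun i _ => ?_
      rw [hw, hw]
      ring
    rw [e1]
    by_cases h : ρ x < R
    · have h1 := hveq x (hin x h).1
      have h2 : χ x = 1 := by rw [hχ, if_pos h]
      rw [h2, ← h1]
      ring
    · have h2 : χ x = 0 := by rw [hχ, if_neg h]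
      have h3 : x ≠ 0 := by
        rintro rfl
        apply h
        omega
      rw [h2, if_neg h3]
      ring
  have hpair := pairing hN hueq w f hfeq
  -- the errors
  obtain ⟨E1, hE1⟩ : ∃ E1 : ℂ, E1 = ∑ x, ((χ x * ((U x - V x) * v x) : ℝ) : ℂ) * u x := ⟨_, rfl⟩
  obtain ⟨E2, hE2⟩ : ∃ E2 : ℂ, E2 = ∑ x, ((r x : ℝ) : ℂ) * u x := ⟨_, rfl⟩
  have hfu : ∑ x, ((f x : ℝ) : ℂ) * u x = u 0 - E1 + E2 := by
    rw [hE1, hE2]
    have h1 : u 0 = ∑ x : Tor d M, (if x = 0 then (1 : ℂ) else 0) * u x := by simp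
    rw [h1, ← Finset.sum_sub_distrib, ← Finset.sum_add_distrib]
    refine Finset.sum_congr rfl fun x _ => ?_
    rw [hf]
    split_ifs <;> (push_cast; ring)
  have him : (u 0).im ≤ ‖∑ x, ((κ x * w x : ℝ) : ℂ) * u x‖ + ‖E1‖ + ‖E2‖ := by
    rw [hfu] at hpair
    have h1 := congrArg Complex.im hpair
    rw [Complex.add_im, Complex.add_im, Complex.sub_im, Complex.ofReal_im, Complex.mul_im,
      Complex.I_re, Complex.I_im] at h1
    have h2 := (le_abs_self _).trans (Complex.abs_re_le_norm (∑ x, ((κ x * w x : ℝ) : ℂ) * u x))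
    have h3 := (le_abs_self _).trans (Complex.abs_im_le_norm E1)
    have h4 := (neg_le_abs _).trans (Complex.abs_im_le_norm E2)
    linarith
  -- the main term
  have hmain : ‖∑ x, ((κ x * w x : ℝ) : ℂ) * u x‖ ≤ η * A + (u 0).im / 2 := by
    have h1 : ‖∑ x, ((κ x * w x : ℝ) : ℂ) * u x‖ ≤
        ∑ x, (Real.sqrt (κ x) * |w x|) * (Real.sqrt (κ x) * ‖u x‖) := by
      refine (norm_sum_le _ _).trans (Finset.sum_le_sum fun x _ => ?_)
      rw [norm_mul, Complex.norm_real, Real.norm_eq_abs, abs_mul, abs_of_pos (hκ x)]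
      refine le_of_eq ?_
      have h2 := Real.mul_self_sqrt (hκ x).le
      calc κ x * |w x| * ‖u x‖ = (Real.sqrt (κ x) * Real.sqrt (κ x)) * |w x| * ‖u x‖ := by rw [h2]
        _ = _ := by ring
    have h2 : ∑ x, (Real.sqrt (κ x) * |w x|) ^ 2 ≤ 2 * η * A := by
      calc ∑ x, (Real.sqrt (κ x) * |w x|) ^ 2 ≤ ∑ x, 2 * η * v x ^ 2 := by
            refine Finset.sum_le_sum fun x _ => ?_
            rw [mul_pow, Real.sq_sqrt (hκ x).le, sq_abs, hw, hχ]
            split_ifs with h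
            · rw [one_mul]
              exact mul_le_mul_of_nonneg_right (hin x h).2.1 (sq_nonneg _)
            · rw [zero_mul]
              have : 0 ≤ 2 * η * v x ^ 2 := by positivity
              simpa using this
        _ = 2 * η * ∑ x, v x ^ 2 := by rw [Finset.mul_sum]
        _ ≤ 2 * η * A := by gcongr
    have h3 : ∑ x, (Real.sqrt (κ x) * ‖u x‖) ^ 2 ≤ (u 0).im := by
      rw [← hward]
      refine Finset.sum_le_sum fun x _ => ?_
      rw [mul_pow, Real.sq_sqrt (hκ x).le]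
    have h4 := cs Finset.univ _ _ h2 h3
    have h5 := Real.sq_sqrt (show 0 ≤ 2 * η * A by positivity)
    have h6 := Real.sq_sqrt hI0
    nlinarith [sq_nonneg (Real.sqrt (2 * η * A) - Real.sqrt (u 0).im)]
  -- the first error
  have herr1 : ‖E1‖ ≤ δ * Real.sqrt A / η := by
    have h1 : ‖E1‖ ≤ δ * ∑ x ∈ Al, |v x| * ‖u x‖ := by
      rw [hE1, Finset.mul_sum]
      refine (norm_sum_le _ _).trans ?_
      rw [← Finset.sum_subset (Finset.subset_univ Al)]
      · refine Finset.sum_le_sum fun x hx => ?_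
        rw [norm_mul, Complex.norm_real, Real.norm_eq_abs]
        have hh : |χ x * ((U x - V x) * v x)| ≤ δ * |v x| := by
          rw [hχ]
          split_ifs with h
          · rw [one_mul, abs_mul]
            exact mul_le_mul_of_nonneg_right ((hin x h).2.2.1 hx) (abs_nonneg _)
          · rw [zero_mul, abs_zero]
            positivity
        calc |χ x * ((U x - V x) * v x)| * ‖u x‖ ≤ δ * |v x| * ‖u x‖ :=
              mul_le_mul_of_nonneg_right hh (norm_nonneg _)
          _ = _ := by ring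
      · intro x _ hx
        rw [hχ]
        split_ifs with h
        · rw [(hin x h).2.2.2 hx]
          simp
        · simp
    have h2 : ∑ x ∈ Al, |v x| ^ 2 ≤ A := by
      simp only [sq_abs]
      exact (Finset.sum_le_sum_of_subset_of_nonneg (Finset.subset_univ Al)
        fun x _ _ => sq_nonneg _).trans hvA
    have h3 : ∑ x ∈ Al, ‖u x‖ ^ 2 ≤ (1 / η) ^ 2 := by
      have h4 : η * ∑ x ∈ Al, ‖u x‖ ^ 2 ≤ (u 0).im := by
        rw [← hward, Finset.mul_sum]
        refine le_trans (Finset.sum_le_sum (g := fun x => κ x * ‖u x‖ ^ 2) fun x hx => ?_) ?_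
        · exact mul_le_mul_of_nonneg_right (hκA x hx) (by positivity)
        · exact Finset.sum_le_sum_of_subset_of_nonneg (Finset.subset_univ Al)
            fun x _ _ => mul_nonneg (hκ x).le (by positivity)
      have h5 := h4.trans hu0
      calc ∑ x ∈ Al, ‖u x‖ ^ 2 = (1 / η) * (η * ∑ x ∈ Al, ‖u x‖ ^ 2) := by
            field_simp
        _ ≤ (1 / η) * (1 / η) := by gcongr
        _ = (1 / η) ^ 2 := by ring
    have h4 := cs Al _ _ h2 h3
    rw [Real.sqrt_sq (by positivity)] at h4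
    calc ‖E1‖ ≤ δ * ∑ x ∈ Al, |v x| * ‖u x‖ := h1
      _ ≤ δ * (Real.sqrt A * (1 / η)) := by gcongr
      _ = _ := by ring
  -- the second error
  obtain ⟨a, ha⟩ : ∃ a : ℝ, a = η / (8 * (d + 1)) := ⟨_, rfl⟩
  have ha0 : 0 ≤ a := by rw [ha]; positivity
  have hd0 : (0 : ℝ) ≤ d := Nat.cast_nonneg d
  have ha1 : a ≤ 1 := by
    rw [ha, div_le_one (by positivity)]
    linarith only [hη1]
  have haη : a * (8 * (d + 1)) = η := by
    rw [ha]
    field_simp
  have hux : ∀ x ∈ Al, R ≤ ρ x + 1 → ‖u x‖ ≤ 2 / η * Real.exp (-(a * (R - 1))) := by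
    intro x hx hRx
    have h1 := Pool.Agent.ANR.H92.rng (ρ := fun x => (ρ x : ℝ)) (A := (Al : Set (Tor d M)))
      (D := 2 * d) (κ₀ := η) (a := a) hN ha0 ha1 (by nlinarith only [ha0, haη])
      (fun x _ => hv_row E V x) (fun x hx => hκA x hx)
      (by
        intro x y hxy
        rcases hv_ne hxy with h | ⟨i, h | h⟩
        · rw [h]
          simp
        · rw [h, abs_le]
          have h2 := hbond x i
          have h3 : ((ρ (x + ev i) : ℕ) : ℝ) ≤ ρ x + 1 := by exact_mod_cast h2.1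
          have h4 : ((ρ x : ℕ) : ℝ) ≤ ρ (x + ev i) + 1 := by exact_mod_cast h2.2
          constructor <;> linarith
        · rw [h, abs_le]
          have h2 := hbond (x - ev i) i
          rw [sub_add_cancel] at h2
          have h3 : ((ρ x : ℕ) : ℝ) ≤ ρ (x - ev i) + 1 := by exact_mod_cast h2.1
          have h4 : ((ρ (x - ev i) : ℕ) : ℝ) ≤ ρ x + 1 := by exact_mod_cast h2.2
          constructor <;> linarith)
      (by
        intro x y hx hxy
        have hx' : x ∉ Al := fun h => hx (Finset.mem_coe.2 h)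
        rcases hv_ne hxy with h | ⟨i, h | h⟩
        · rw [h]
        · have h2 := hdead x i (Or.inl hx')
          rw [h]
          simp only [h2]
        · have h2 := hdead (x - ev i) i (Or.inr (by rwa [sub_add_cancel]))
          rw [sub_add_cancel] at h2
          rw [h]
          simp only [h2])
      hueq x
    simp only [hρ0, Nat.cast_zero, sub_zero] at h1
    rw [abs_of_nonneg (Nat.cast_nonneg (ρ x))] at h1
    have h2 : η * η * ‖u x‖ ^ 2 ≤ κ x * κ 0 * ‖u x‖ ^ 2 := by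
      have t1 := hκA x hx
      have t2 := hκA 0 h0A
      have t3 := (hκ x).le
      gcongr
    have h3 : Real.exp (-(2 * a * ρ x)) ≤ Real.exp (-(a * (R - 1))) ^ 2 := by
      rw [← Real.exp_nat_mul]
      apply Real.exp_le_exp.2
      have h4 : (R : ℝ) ≤ ρ x + 1 := by exact_mod_cast hRx
      push_cast
      nlinarith only [hη, haη, h4]
    have h4 : ‖u x‖ ^ 2 ≤ (2 / η * Real.exp (-(a * (R - 1)))) ^ 2 := by
      rw [mul_pow, div_pow, div_mul_eq_mul_div, le_div_iff₀ (by positivity)]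
      nlinarith only [h1, h2, h3]
    exact (le_abs_self _).trans (abs_le_of_sq_le_sq h4 (by positivity))
  obtain ⟨τ, hτ⟩ : ∃ τ : ℝ, τ = 2 / η * Real.exp (-(a * (R - 1))) := ⟨_, rfl⟩
  have hτ0 : 0 ≤ τ := by rw [hτ]; positivity
  have hterm : ∀ x y : Tor d M, (∃ i : Fin d, y = x + ev i ∨ y = x - ev i) →
      |(χ y - χ x) * v y| * ‖u x‖ ≤ τ * |v y| := by
    rintro x y ⟨i, hy⟩
    rw [abs_mul]
    by_cases h : χ y = χ x
    · rw [h, sub_self, abs_zero, zero_mul, zero_mul]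
      positivity
    · have h1 : ρ y ≠ ρ x := by
        intro h2
        apply h
        rw [hχ, hχ, h2]
      have h2 : x ∈ Al ∧ (ρ y ≤ ρ x + 1 ∧ ρ x ≤ ρ y + 1) := by
        rcases hy with hy | hy
        · have h3 := hbond x i
          rw [← hy] at h3
          refine ⟨?_, h3⟩
          by_contra h4
          have h5 := hdead x i (Or.inl h4)
          rw [← hy] at h5
          exact h1 h5
        · have h3 := hbond y i
          have h6 : y + ev i = x := by rw [hy]; abel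
          rw [h6] at h3
          refine ⟨?_, h3.2, h3.1⟩
          by_contra h4
          have h5 := hdead y i (Or.inr (by rw [h6]; exact h4))
          rw [h6] at h5
          exact h1 h5.symm
      have h3 : R ≤ ρ x + 1 := by
        by_contra h4
        apply h
        rw [hχ, hχ, if_pos (by omega), if_pos (by omega)]
      have h4 := hux x h2.1 h3
      rw [← hτ] at h4
      have h5 : |χ y - χ x| ≤ 1 := by
        rw [abs_le]
        have a1 := hχ01 x
        have a2 := hχ01 y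
        constructor <;> linarith only [a1, a2]
      calc |χ y - χ x| * |v y| * ‖u x‖ ≤ 1 * |v y| * τ := by gcongr
        _ = _ := by ring
  have herr2 : ‖E2‖ ≤ τ * (2 * d * Real.sqrt ((M : ℝ) ^ d * A)) := by
    have h1 : ‖E2‖ ≤ ∑ x, ∑ i : Fin d, (τ * |v (x + ev i)| + τ * |v (x - ev i)|) := by
      rw [hE2]
      refine (norm_sum_le _ _).trans (Finset.sum_le_sum fun x _ => ?_)
      rw [norm_mul, Complex.norm_real, Real.norm_eq_abs, hr]
      refine (mul_le_mul_of_nonneg_right (Finset.abs_sum_le_sum_abs _ _) (norm_nonneg _)).trans ?_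
      rw [Finset.sum_mul]
      refine Finset.sum_le_sum fun i _ => ?_
      refine (mul_le_mul_of_nonneg_right (abs_add_le _ _) (norm_nonneg _)).trans ?_
      rw [add_mul]
      exact add_le_add (hterm x (x + ev i) ⟨i, Or.inl rfl⟩) (hterm x (x - ev i) ⟨i, Or.inr rfl⟩)
    have h2 : ∑ x, ∑ i : Fin d, (τ * |v (x + ev i)| + τ * |v (x - ev i)|) =
        τ * (2 * d * ∑ x, |v x|) := by
      rw [Finset.sum_comm]
      have h3 : ∀ i : Fin d, ∑ x, (τ * |v (x + ev i)| + τ * |v (x - ev i)|) =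
          2 * τ * ∑ x, |v x| := by
        intro i
        rw [Finset.sum_add_distrib, ← Finset.mul_sum, ← Finset.mul_sum]
        have h4 : ∑ x, |v (x + ev i)| = ∑ x, |v x| :=
          Equiv.sum_comp (Equiv.addRight (ev i : Tor d M)) fun x => |v x|
        have h5 : ∑ x, |v (x - ev i)| = ∑ x, |v x| :=
          Equiv.sum_comp (Equiv.subRight (ev i : Tor d M)) fun x => |v x|
        rw [h4, h5]
        ring
      rw [Finset.sum_congr rfl fun i _ => h3 i, Finset.sum_const, Finset.card_univ,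
        Fintype.card_fin, nsmul_eq_mul]
      ring
    have h3 : ∑ x : Tor d M, |v x| ≤ Real.sqrt ((M : ℝ) ^ d * A) := by
      have h4 : ∑ _x : Tor d M, (1 : ℝ) ^ 2 ≤ (M : ℝ) ^ d := by
        rw [Finset.sum_const, Finset.card_univ, nsmul_eq_mul, one_pow, mul_one]
        refine le_of_eq ?_
        have : Fintype.card (Tor d M) = M ^ d := by
          unfold Tor
          rw [Fintype.card_fun, ZMod.card, Fintype.card_fin]
        rw [this]
        push_cast
        ring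
      have h5 : ∑ x : Tor d M, |v x| ^ 2 ≤ A := by simpa only [sq_abs] using hvA
      have h6 := cs Finset.univ (fun _ => (1 : ℝ)) (fun x => |v x|) h4 h5
      rw [← Real.sqrt_mul (by positivity)] at h6
      simpa only [one_mul] using h6
    rw [h2] at h1
    refine h1.trans ?_
    gcongr
  have hfin : 2 * (τ * (2 * d * Real.sqrt ((M : ℝ) ^ d * A))) =
      8 * d / η * Real.sqrt ((M : ℝ) ^ d * A) * Real.exp (-(η * (R - 1) / (8 * (d + 1)))) := by
    rw [hτ, ha]
    have h1 : η / (8 * ((d : ℝ) + 1)) * (R - 1) = η * (R - 1) / (8 * (d + 1)) := by ring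
    rw [h1]
    ring
  rw [← hfin]
  have h7 : 2 * δ * Real.sqrt A / η = 2 * (δ * Real.sqrt A / η) := by ring
  rw [h7]
  linarith

end Pool.Agent.ANE.H72
end
end -- Pool.Agent.Helper72_ANE.Key

section -- Pool.Agent.Helper72_ANE.Lat

/-!
# ANE, row LAT: from the lattice to the torus
-/

set_option autoImplicit false

open MeasureTheory ProbabilityTheory Function Filter

open scoped ENNReal BigOperators InnerProductSpace Topology NNReal

noncomputable section

namespace Pool.Agent.ANE.H72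

open Pool.Agent.Anderson hiding box mem_box card_box
open Pool.Agent.Loc Pool.Agent.Mob Pool.Agent.Helper54.Bal
  Pool.Agent.Helper96.EXP Pool.Agent.BED
open Pool.Agent.LE.MN Pool.Agent.LE.CL Pool.Agent.LE.IR Pool.Agent.LE.QD
open Pool.Agent.LE.QX.H90 Pool.Agent.ANE

variable {d : ℕ}

/-- a weak limit of the Green vectors -/
theorem limit_sol (V : Site d → ℝ) (E C : ℝ) (h : ∀ n, ‖Pool.Agent.AEN.Gn V E n 0‖ ≤ C) :
    ∃ w : Site d → ℝ, (∀ S : Finset (Site d), ∑ y ∈ S, w y ^ 2 ≤ C ^ 2) ∧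
      ∀ y, ∑ i : Fin d, (w (y + Pi.single i 1) + w (y - Pi.single i 1)) + (V y - E) * w y =
        if y = 0 then 1 else 0 := by
  obtain ⟨g, hg⟩ : ∃ g : ℕ → L2 d, g = fun n => Pool.Agent.AEN.Gn V E n 0 := ⟨_, rfl⟩
  have hC : ∀ n, ‖g n‖ ≤ C := fun n => by rw [hg]; exact h n
  have hpt : ∀ y, ∃ c : ℂ, Tendsto (fun n => g n y) (hyperfilter ℕ : Filter ℕ) (𝓝 c) := by
    intro y
    have h1 : ∀ n, g n y ∈ Metric.closedBall (0 : ℂ) C := by
      intro n
      rw [mem_closedBall_zero_iff]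
      exact (lp.norm_apply_le_norm (by norm_num) _ _).trans (hC n)
    obtain ⟨c, -, hc⟩ := (isCompact_closedBall (0 : ℂ) C).ultrafilter_le_nhds
      ((hyperfilter ℕ).map fun n => g n y) (by
        rw [le_principal_iff]
        exact Filter.mem_map.2 (Filter.Eventually.of_forall h1))
    exact ⟨c, hc⟩
  choose v hv using hpt
  have hz : Tendsto (fun n => Pool.Agent.AEN.zn E n) (hyperfilter ℕ : Filter ℕ) (𝓝 (E : ℂ)) := by
    have h1 : Tendsto (fun n => Pool.Agent.AEN.et n) (hyperfilter ℕ : Filter ℕ) (𝓝 0) :=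
      Pool.Agent.AEN.tendsto_et.mono_left Nat.hyperfilter_le_atTop
    have h2 : Tendsto (fun n => (E : ℂ) + ((Pool.Agent.AEN.et n : ℝ) : ℂ) * Complex.I)
        (hyperfilter ℕ : Filter ℕ) (𝓝 ((E : ℂ) + ((0 : ℝ) : ℂ) * Complex.I)) :=
      (((Complex.continuous_ofReal.tendsto 0).comp h1).mul_const _).const_add _
    simp only [Complex.ofReal_zero, zero_mul, add_zero] at h2
    exact h2
  have heq : ∀ y, lap v y + ((V y : ℂ) - E) * v y = if y = 0 then 1 else 0 := by
    intro y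
    have h1 : ∀ n, lap (g n) y + ((V y : ℂ) - Pool.Agent.AEN.zn E n) * g n y =
        if y = 0 then 1 else 0 := by
      intro n
      have h2 := G_eq (V := V) (Pool.Agent.AEN.zn_im_ne E n) (del (0 : Site d)) y
      rw [del_apply] at h2
      rw [hg]
      exact h2
    have h3 : Tendsto (fun n => lap (g n) y + ((V y : ℂ) - Pool.Agent.AEN.zn E n) * g n y)
        (hyperfilter ℕ : Filter ℕ) (𝓝 (lap v y + ((V y : ℂ) - E) * v y)) := by
      refine Tendsto.add ?_ ((hz.const_sub _).mul (hv y))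
      unfold lap
      exact tendsto_finsetSum _ fun i _ => (hv _).add (hv _)
    simp only [h1] at h3
    exact tendsto_nhds_unique h3 tendsto_const_nhds
  refine ⟨fun y => (v y).re, ?_, ?_⟩
  · intro S
    have h1 : ∀ n, ∑ y ∈ S, ‖g n y‖ ^ 2 ≤ C ^ 2 := by
      intro n
      have h2 : ∑ y ∈ S, ‖g n y‖ ^ 2 ≤ ‖g n‖ ^ 2 := by
        rw [L2.norm_sq]
        exact (L2.summable_sq (g n)).sum_le_tsum S fun y _ => by positivity
      exact h2.trans (pow_le_pow_left₀ (norm_nonneg _) (hC n) 2)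
    have h3 : Tendsto (fun n => ∑ y ∈ S, ‖g n y‖ ^ 2) (hyperfilter ℕ : Filter ℕ)
        (𝓝 (∑ y ∈ S, ‖v y‖ ^ 2)) :=
      tendsto_finsetSum _ fun y _ => (hv y).norm.pow 2
    have h4 : ∑ y ∈ S, ‖v y‖ ^ 2 ≤ C ^ 2 := le_of_tendsto h3 (Eventually.of_forall h1)
    refine le_trans (Finset.sum_le_sum fun y _ => ?_) h4
    rw [← sq_abs]
    exact pow_le_pow_left₀ (abs_nonneg _) (Complex.abs_re_le_norm _) 2
  · intro y
    have h1 := congrArg Complex.re (heq y)
    rw [Complex.add_re] at h1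
    have h2 : (lap v y).re = ∑ i : Fin d, ((v (y + Pi.single i 1)).re +
        (v (y - Pi.single i 1)).re) := by
      unfold lap
      rw [Complex.re_sum]
      exact Finset.sum_congr rfl fun i _ => Complex.add_re _ _
    have h3 : (((V y : ℂ) - E) * v y).re = (V y - E) * (v y).re := by
      rw [← Complex.ofReal_sub, Complex.re_ofReal_mul]
    rw [h2, h3] at h1
    simp only
    rw [h1]
    split_ifs <;> simp

theorem lat : LatStmt := by
  classical
  intro d M _ V E C hM h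
  obtain ⟨w, hw1, hw2⟩ := limit_sol V E C h
  refine ⟨fun x => w (rep x), ?_, ?_⟩
  · have h1 := hw1 (Finset.univ.image (rep : Tor d M → Site d))
    rwa [Finset.sum_image (fun x _ y _ hxy => rep_inj hxy)] at h1
  · intro x hx
    have e1 : ∀ i, rep (x + ev i) = rep x + Pi.single i 1 :=
      rep_add (R := sd 0 (rep x)) (by omega) le_rfl
    have e2 : ∀ i, rep (x - ev i) = rep x - Pi.single i 1 :=
      rep_sub (R := sd 0 (rep x)) (by omega) le_rfl
    have h1 := hw2 (rep x)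
    simp only [e1, e2]
    rw [h1]
    have h2 : (rep x = 0) ↔ (x = 0) := by
      constructor
      · intro h
        apply rep_inj
        rw [h]
        funext i
        unfold rep
        simp
      · rintro rfl
        funext i
        unfold rep
        simp
    simp only [h2]

end Pool.Agent.ANE.H72
end
end -- Pool.Agent.Helper72_ANE.Lat

section -- Pool.Agent.Helper72_ANE.Out

/-!
# ANE, rows OUT, LA3, FN3: the end without `η`
-/

set_option autoImplicit false

open MeasureTheory ProbabilityTheory Function Filter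

open scoped ENNReal BigOperators InnerProductSpace Topology NNReal

noncomputable section

namespace Pool.Agent.ANE.H72

open Pool.Agent.ANR
open Pool.Agent.Anderson hiding box mem_box card_box
open Pool.Agent.Loc hiding nb
open Pool.Agent.Helper54.Bal
open Pool.Agent.BED Pool.Agent.LE.QD Pool.Agent.ANE
open Pool.Agent.LE.QX.H90

universe u

theorem cs_abs {X : Type} (s : Finset X) (f g : X → ℝ) {A B : ℝ} (hB : 0 ≤ B)
    (h1 : ∑ x ∈ s, f x ^ 2 ≤ A) (h2 : ∑ x ∈ s, g x ^ 2 ≤ B ^ 2) :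
    ∑ x ∈ s, |f x| * |g x| ≤ Real.sqrt A * B := by
  have h3 := cs s (fun x => |f x|) (fun x => |g x|) (by simpa only [sq_abs] using h1)
    (by simpa only [sq_abs] using h2)
  rwa [Real.sqrt_sq hB] at h3

theorem out (hGEQ : GeqStmt) : OutStmt := by
  classical
  intro d M _ E A e κ₁ lam P Q W R U V κ χ Al he hlam hP hQ hW hκ hχ0 hχ01 hχs hχl hχd hUV hPs hQs
    hWs hSol
  obtain ⟨v, hvA, hve, hveq⟩ := hSol
  have hA0 : 0 ≤ A := (Finset.sum_nonneg fun x _ => sq_nonneg _).trans hvA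
  have hN := net_hv E V (fun x => (hκ x).1)
  obtain ⟨g1, -, g3, -, -⟩ := hGEQ (Tor d M) (HV d M E V) κ hN
  obtain ⟨u, hu⟩ : ∃ u : Tor d M → ℂ, ∀ x, u x = Gr (HV d M E V) κ x 0 := ⟨_, fun _ => rfl⟩
  have hueq : ∀ x, opv (HV d M E V) κ u x = if x = 0 then 1 else 0 := by
    intro x
    have : u = fun x => Gr (HV d M E V) κ x 0 := funext hu
    rw [this]
    exact g1 x 0
  have hward : ∑ x, κ x * ‖u x‖ ^ 2 = (u 0).im := by
    simp only [hu]
    exact g3 0
  simp only [← hu] at hPs hQs hWs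
  have hI0 : 0 ≤ (u 0).im := by
    rw [← hward]
    exact Finset.sum_nonneg fun x _ => mul_nonneg (hκ x).1.le (by positivity)
  rw [← hu]
  obtain ⟨w, hw⟩ : ∃ w : Tor d M → ℝ, ∀ x, w x = χ x * v x := ⟨_, fun _ => rfl⟩
  obtain ⟨r, hr⟩ : ∃ r : Tor d M → ℝ, ∀ x, r x = ∑ i : Fin d,
    ((χ (x + ev i) - χ x) * v (x + ev i) + (χ (x - ev i) - χ x) * v (x - ev i)) :=
    ⟨_, fun _ => rfl⟩
  obtain ⟨f, hf⟩ : ∃ f : Tor d M → ℝ, ∀ x, f x = (if x = 0 then 1 else 0) -
      χ x * ((U x - V x) * v x) + r x := ⟨_, fun _ => rfl⟩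
  have hfeq : ∀ x, ∑ y, HV d M E V x y * w y = f x := by
    intro x
    rw [hv_apply, hf, hw x]
    have e1 : ∑ i : Fin d, (w (x + ev i) + w (x - ev i)) =
        χ x * ∑ i : Fin d, (v (x + ev i) + v (x - ev i)) + r x := by
      rw [hr, Finset.mul_sum, ← Finset.sum_add_distrib]
      refine Finset.sum_congr rfl fun i _ => ?_
      rw [hw, hw]
      ring
    rw [e1]
    by_cases h : χ x = 0
    · have h3 : x ≠ 0 := by
        rintro rfl
        rw [hχ0] at h
        exact one_ne_zero h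
      rw [h, if_neg h3]
      ring
    · have h1 := hveq x (hχs x h)
      have h2 : χ x * (if x = 0 then (1 : ℝ) else 0) = if x = 0 then 1 else 0 := by
        split_ifs with h0
        · rw [h0, hχ0, mul_one]
        · rw [mul_zero]
      rw [← h2, ← h1]
      ring
  have hpair := pairing hN hueq w f hfeq
  obtain ⟨E1, hE1⟩ : ∃ E1 : ℂ, E1 = ∑ x, ((χ x * ((U x - V x) * v x) : ℝ) : ℂ) * u x := ⟨_, rfl⟩
  obtain ⟨E2, hE2⟩ : ∃ E2 : ℂ, E2 = ∑ x, ((r x : ℝ) : ℂ) * u x := ⟨_, rfl⟩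
  have hfu : ∑ x, ((f x : ℝ) : ℂ) * u x = u 0 - E1 + E2 := by
    rw [hE1, hE2]
    have h1 : u 0 = ∑ x : Tor d M, (if x = 0 then (1 : ℂ) else 0) * u x := by simp
    rw [h1, ← Finset.sum_sub_distrib, ← Finset.sum_add_distrib]
    refine Finset.sum_congr rfl fun x _ => ?_
    rw [hf]
    split_ifs <;> (push_cast; ring)
  have him : (u 0).im ≤ ‖∑ x, ((κ x * w x : ℝ) : ℂ) * u x‖ + ‖E1‖ + ‖E2‖ := by
    rw [hfu] at hpair
    have h1 := congrArg Complex.im hpair
    rw [Complex.add_im, Complex.add_im, Complex.sub_im, Complex.ofReal_im, Complex.mul_im,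
      Complex.I_re, Complex.I_im] at h1
    have h2 := (le_abs_self _).trans (Complex.abs_re_le_norm (∑ x, ((κ x * w x : ℝ) : ℂ) * u x))
    have h3 := (le_abs_self _).trans (Complex.abs_im_le_norm E1)
    have h4 := (neg_le_abs _).trans (Complex.abs_im_le_norm E2)
    linarith
  have hκ10 : 0 ≤ κ₁ := (hκ 0).1.le.trans (hκ 0).2
  have hwv : ∀ x, w x ^ 2 ≤ v x ^ 2 := by
    intro x
    rw [hw, mul_pow]
    have h1 := hχ01 x
    have h2 : χ x ^ 2 ≤ 1 := by nlinarith only [h1.1, h1.2]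
    nlinarith only [sq_nonneg (v x), h2]
  -- the main term
  have hmain : ‖∑ x, ((κ x * w x : ℝ) : ℂ) * u x‖ ≤ (κ₁ * A + (u 0).im) / 2 := by
    have h1 : ‖∑ x, ((κ x * w x : ℝ) : ℂ) * u x‖ ≤
        ∑ x, (Real.sqrt (κ x) * |w x|) * (Real.sqrt (κ x) * ‖u x‖) := by
      refine (norm_sum_le _ _).trans (Finset.sum_le_sum fun x _ => ?_)
      rw [norm_mul, Complex.norm_real, Real.norm_eq_abs, abs_mul, abs_of_pos (hκ x).1]
      refine le_of_eq ?_
      have h2 := Real.mul_self_sqrt (hκ x).1.le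
      calc κ x * |w x| * ‖u x‖ = (Real.sqrt (κ x) * Real.sqrt (κ x)) * |w x| * ‖u x‖ := by rw [h2]
        _ = _ := by ring
    have h2 : ∑ x, (Real.sqrt (κ x) * |w x|) ^ 2 ≤ κ₁ * A := by
      calc ∑ x, (Real.sqrt (κ x) * |w x|) ^ 2 ≤ ∑ x, κ₁ * v x ^ 2 := by
            refine Finset.sum_le_sum fun x _ => ?_
            rw [mul_pow, Real.sq_sqrt (hκ x).1.le, sq_abs]
            exact mul_le_mul (hκ x).2 (hwv x) (sq_nonneg _) hκ10
        _ = κ₁ * ∑ x, v x ^ 2 := by rw [Finset.mul_sum]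
        _ ≤ κ₁ * A := by gcongr
    have h3 : ∑ x, (Real.sqrt (κ x) * ‖u x‖) ^ 2 ≤ (u 0).im := by
      rw [← hward]
      refine Finset.sum_le_sum fun x _ => ?_
      rw [mul_pow, Real.sq_sqrt (hκ x).1.le]
    have h4 := cs Finset.univ _ _ h2 h3
    have h5 := Real.sq_sqrt (show 0 ≤ κ₁ * A by positivity)
    have h6 := Real.sq_sqrt hI0
    nlinarith [sq_nonneg (Real.sqrt (κ₁ * A) - Real.sqrt (u 0).im)]
  -- the first error
  obtain ⟨D, hD⟩ : ∃ D : Tor d M → ℝ, ∀ x, D x = (U x - V x) * ‖u x‖ := ⟨_, fun _ => rfl⟩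
  have herr1 : ‖E1‖ ≤ Real.sqrt A * P + e * Q := by
    have h1 : ‖E1‖ ≤ ∑ x ∈ Al, |v x| * |D x| := by
      rw [hE1]
      refine (norm_sum_le _ _).trans ?_
      rw [← Finset.sum_subset (Finset.subset_univ Al)]
      · refine Finset.sum_le_sum fun x hx => ?_
        rw [norm_mul, Complex.norm_real, Real.norm_eq_abs, hD, abs_mul, abs_mul, abs_mul,
          abs_of_nonneg (norm_nonneg (u x)), abs_of_nonneg (hχ01 x).1]
        calc χ x * (|U x - V x| * |v x|) * ‖u x‖ ≤ 1 * (|U x - V x| * |v x|) * ‖u x‖ := by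
              have := (hχ01 x).2
              gcongr
          _ = _ := by ring
      · intro x _ hx
        by_cases h : χ x = 0
        · rw [h]
          simp
        · rw [hUV x hx h]
          simp
    rw [← Finset.sum_filter_add_sum_filter_not Al (fun x => sd 0 (rep x) ≤ R)] at h1
    have h2 : ∑ x ∈ Al.filter (fun x => sd 0 (rep x) ≤ R), |v x| * |D x| ≤ Real.sqrt A * P := by
      refine cs_abs _ v D hP ?_ ?_
      · exact (Finset.sum_le_sum_of_subset_of_nonneg (Finset.subset_univ _)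
          fun x _ _ => sq_nonneg _).trans hvA
      · simp only [hD, mul_pow]
        exact hPs
    have h3 : ∑ x ∈ Al.filter (fun x => ¬ sd 0 (rep x) ≤ R), |v x| * |D x| ≤ e * Q := by
      have h4 := cs_abs (Al.filter (fun x => ¬ sd 0 (rep x) ≤ R)) v D (A := e ^ 2) hQ ?_ ?_
      · rwa [Real.sqrt_sq he] at h4
      · refine le_trans ?_ hve
        rw [← Finset.sum_filter]
        refine Finset.sum_le_sum_of_subset_of_nonneg ?_ fun x _ _ => sq_nonneg _
        intro x hx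
        rw [Finset.mem_filter] at hx ⊢
        exact ⟨Finset.mem_univ _, not_le.1 hx.2⟩
      · refine le_trans ?_ hQs
        simp only [hD, mul_pow]
        exact Finset.sum_le_sum_of_subset_of_nonneg (Finset.filter_subset _ _)
          fun x _ _ => by positivity
    linarith only [h1, h2, h3]
  -- the second error
  have hterm : ∀ x y : Tor d M, (∃ i : Fin d, y = x + ev i ∨ y = x - ev i) →
      |(χ y - χ x) * v y| * ‖u x‖ ≤ if x ∈ Al then lam * (|v y| * |‖u x‖|) else 0 := by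
    rintro x y ⟨i, hy⟩
    rw [abs_mul, abs_of_nonneg (norm_nonneg (u x))]
    by_cases hx : x ∈ Al
    · rw [if_pos hx]
      have h5 : |χ y - χ x| ≤ lam := by
        rcases hy with hy | hy
        · rw [hy]
          exact hχl x i
        · have h6 : y + ev i = x := by rw [hy]; abel
          have h7 := hχl y i
          rw [h6, abs_sub_comm] at h7
          exact h7
      calc |χ y - χ x| * |v y| * ‖u x‖ ≤ lam * |v y| * ‖u x‖ := by gcongr
        _ = _ := by ring
    · rw [if_neg hx]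
      have h5 : χ y = χ x := by
        rcases hy with hy | hy
        · rw [hy]
          exact hχd x i (Or.inl hx)
        · have h6 : y + ev i = x := by rw [hy]; abel
          have h7 := hχd y i (Or.inr (by rw [h6]; exact hx))
          rw [h6] at h7
          exact h7.symm
      rw [h5, sub_self, abs_zero, zero_mul, zero_mul]
  have herr2 : ‖E2‖ ≤ 2 * d * lam * Real.sqrt A * W := by
    have h1 : ‖E2‖ ≤ ∑ x ∈ Al, ∑ i : Fin d, (lam * (|v (x + ev i)| * |‖u x‖|) +
        lam * (|v (x - ev i)| * |‖u x‖|)) := by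
      have h0 : ∑ x ∈ Al, ∑ i : Fin d, (lam * (|v (x + ev i)| * |‖u x‖|) +
          lam * (|v (x - ev i)| * |‖u x‖|)) = ∑ x, ∑ i : Fin d,
          ((if x ∈ Al then lam * (|v (x + ev i)| * |‖u x‖|) else 0) +
          (if x ∈ Al then lam * (|v (x - ev i)| * |‖u x‖|) else 0)) := by
        rw [← Finset.sum_subset (Finset.subset_univ Al)]
        · refine Finset.sum_congr rfl fun x hx => Finset.sum_congr rfl fun i _ => ?_
          rw [if_pos hx, if_pos hx]
        · intro x _ hx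
          refine Finset.sum_eq_zero fun i _ => ?_
          rw [if_neg hx, if_neg hx, add_zero]
      rw [hE2, h0]
      refine (norm_sum_le _ _).trans (Finset.sum_le_sum fun x _ => ?_)
      rw [norm_mul, Complex.norm_real, Real.norm_eq_abs, hr]
      refine (mul_le_mul_of_nonneg_right (Finset.abs_sum_le_sum_abs _ _) (norm_nonneg _)).trans ?_
      rw [Finset.sum_mul]
      refine Finset.sum_le_sum fun i _ => ?_
      refine (mul_le_mul_of_nonneg_right (abs_add_le _ _) (norm_nonneg _)).trans ?_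
      rw [add_mul]
      exact add_le_add (hterm x (x + ev i) ⟨i, Or.inl rfl⟩) (hterm x (x - ev i) ⟨i, Or.inr rfl⟩)
    rw [Finset.sum_comm] at h1
    have hWs' : ∑ x ∈ Al, (‖u x‖) ^ 2 ≤ W ^ 2 := hWs
    have h3 : ∀ i : Fin d, ∑ x ∈ Al, (lam * (|v (x + ev i)| * |‖u x‖|) +
        lam * (|v (x - ev i)| * |‖u x‖|)) ≤ 2 * lam * (Real.sqrt A * W) := by
      intro i
      rw [Finset.sum_add_distrib, ← Finset.mul_sum, ← Finset.mul_sum]
      have h4 : ∑ x ∈ Al, v (x + ev i) ^ 2 ≤ A := by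
        refine (Finset.sum_le_sum_of_subset_of_nonneg (Finset.subset_univ _)
          fun x _ _ => sq_nonneg _).trans ?_
        have := Equiv.sum_comp (Equiv.addRight (ev i : Tor d M)) fun x => v x ^ 2
        exact this.le.trans hvA
      have h5 : ∑ x ∈ Al, v (x - ev i) ^ 2 ≤ A := by
        refine (Finset.sum_le_sum_of_subset_of_nonneg (Finset.subset_univ _)
          fun x _ _ => sq_nonneg _).trans ?_
        have := Equiv.sum_comp (Equiv.subRight (ev i : Tor d M)) fun x => v x ^ 2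
        exact this.le.trans hvA
      have h6 := cs_abs Al (fun x => v (x + ev i)) (fun x => ‖u x‖) hW h4 hWs'
      have h7 := cs_abs Al (fun x => v (x - ev i)) (fun x => ‖u x‖) hW h5 hWs'
      have h8 := mul_le_mul_of_nonneg_left h6 hlam
      have h9 := mul_le_mul_of_nonneg_left h7 hlam
      linarith only [h8, h9]
    refine h1.trans ((Finset.sum_le_sum fun i _ => h3 i).trans (le_of_eq ?_))
    rw [Finset.sum_const, Finset.card_univ, Fintype.card_fin, nsmul_eq_mul]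
    ring
  linarith

/-- LA3 -/
theorem la3 : La3Stmt := by
  classical
  intro d V E e he hBd
  obtain ⟨C, hC⟩ := hBd
  obtain ⟨w, hw1, hw2⟩ := limit_sol V E C hC
  have hsum : Summable fun y : Site d => w y ^ 2 :=
    summable_of_sum_le (fun y => sq_nonneg _) hw1
  -- the tail
  obtain ⟨S, hS⟩ := (summable_iff_vanishing_norm.1 hsum) (e ^ 2) (by positivity)
  obtain ⟨n₁, hn₁⟩ : ∃ n₁ : ℕ, ∀ y ∈ S, sd 0 y ≤ n₁ :=
    ⟨S.sup fun y => sd 0 y, fun y hy => Finset.le_sup (f := fun y => sd 0 y) hy⟩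
  obtain ⟨n₂, hn₂⟩ := exists_nat_ge (C ^ 2)
  refine ⟨max n₁ n₂, fun n hn M _ hM => ?_⟩
  refine ⟨fun x => w (rep x), ?_, ?_, ?_⟩
  · have h1 := hw1 (Finset.univ.image (rep : Tor d M → Site d))
    rw [Finset.sum_image (fun x _ y _ hxy => rep_inj hxy)] at h1
    refine h1.trans (hn₂.trans ?_)
    exact_mod_cast (le_max_right n₁ n₂).trans hn
  · obtain ⟨T, hT⟩ : ∃ T : Finset (Tor d M), T = Finset.univ.filter fun x => n < sd 0 (rep x) :=
      ⟨_, rfl⟩
    have h1 : Disjoint (T.image (rep : Tor d M → Site d)) S := by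
      rw [Finset.disjoint_left]
      intro y hy hyS
      obtain ⟨x, hx, rfl⟩ := Finset.mem_image.1 hy
      rw [hT, Finset.mem_filter] at hx
      have h2 := hn₁ _ hyS
      have h3 := (le_max_left n₁ n₂).trans hn
      omega
    have h2 := hS _ h1
    rw [Finset.sum_image (fun x _ y _ hxy => rep_inj hxy), Real.norm_eq_abs] at h2
    rw [← Finset.sum_filter, ← hT]
    exact ((le_abs_self _).trans_lt h2).le
  · intro x hx
    have e1 : ∀ i, rep (x + ev i) = rep x + Pi.single i 1 :=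
      rep_add (R := sd 0 (rep x)) (by omega) le_rfl
    have e2 : ∀ i, rep (x - ev i) = rep x - Pi.single i 1 :=
      rep_sub (R := sd 0 (rep x)) (by omega) le_rfl
    have h1 := hw2 (rep x)
    simp only [e1, e2]
    rw [h1]
    have h2 : (rep x = 0) ↔ (x = 0) := by
      constructor
      · intro h
        apply rep_inj
        rw [h]
        funext i
        unfold rep
        simp
      · rintro rfl
        funext i
        unfold rep
        simp
    simp only [h2]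

/-- FN3 -/
theorem fn3 (hPR3 : Pr3Stmt) (hSPC : SpcStmt) (hEND : Pool.Agent.AEN.EndStmt) : Fn3Stmt.{u} := by
  intro hTR d a hd ha
  obtain ⟨s₀, hs₀, H⟩ := hTR d a hd ha
  refine ⟨s₀, hs₀, ?_⟩
  intro σ hσ hσs Ω _ P _ ξ hm hlaw hind
  have h1 : ∀ᵐ V ∂(PP d (gl σ)), ∀ E0 : ℝ, -(2 * d - a) < E0 → E0 < 2 * d - a →
      ∀ φ : L2 d, IsEigen V E0 φ → φ = 0 := by
    refine hEND d σ (-(2 * d - a)) (2 * d - a) (by omega) hσ ?_
    filter_upwards [H σ hσ hσs] with E hE
    obtain ⟨e, he, hE⟩ := hE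
    exact hPR3 d σ E e hσ he hE
  have h2 := hSPC d σ (by omega) hσ
  rw [← Pool.Agent.Mob.H42.map_eq_PP hm hlaw hind σ] at h1 h2
  have hme : AEMeasurable (fun (ω : Ω) (y : Site d) => σ * ξ y ω) P :=
    (Pool.Agent.Mob.H42.measurable_W hm σ).aemeasurable
  have h3 := ae_of_ae_map hme h1
  have h4 := ae_of_ae_map hme h2
  filter_upwards [h3, h4] with ω w1 w2
  refine ⟨fun E₀ ε hε => w2 E₀ ε hε, fun E₀ hE₀ φ hφ => ?_⟩
  rw [abs_lt] at hE₀
  exact w1 E₀ hE₀.1 hE₀.2 φ hφ

end Pool.Agent.ANE.H72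
end
end -- Pool.Agent.Helper72_ANE.Out

section -- Pool.Agent.Helper72_ANE.Wey

/-!
# ANE, row WEY: Weyl vectors in flat cubes
-/

set_option autoImplicit false

open MeasureTheory ProbabilityTheory Function Filter

open scoped ENNReal BigOperators InnerProductSpace Topology NNReal

noncomputable section

namespace Pool.Agent.ANE.H72

open Pool.Agent.Anderson hiding box mem_box card_box
open Pool.Agent.Loc Pool.Agent.Mob Pool.Agent.Helper54.Bal
  Pool.Agent.Helper96.EXP Pool.Agent.BED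
open Pool.Agent.LE.MN Pool.Agent.LE.CL Pool.Agent.LE.IR Pool.Agent.LE.QD
open Pool.Agent.LE.QX.H90 Pool.Agent.ANE

variable {d : ℕ}

theorem fin_mem (f : Site d → ℂ) (S : Finset (Site d)) (h : ∀ y, y ∉ S → f y = 0) :
    Memℓp f 2 := by
  rw [memℓp_iff]
  refine summable_of_ne_finset_zero (s := S) fun y hy => ?_
  rw [h y hy]
  simp

/-- a finitely supported vector -/
def fv (f : Site d → ℂ) (S : Finset (Site d)) (h : ∀ y, y ∉ S → f y = 0) : L2 d :=
  ⟨f, fin_mem f S h⟩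

theorem fv_apply (f : Site d → ℂ) (S : Finset (Site d)) (h : ∀ y, y ∉ S → f y = 0) (y : Site d) :
    fv f S h y = f y := rfl

theorem fv_norm (f : Site d → ℂ) (S : Finset (Site d)) (h : ∀ y, y ∉ S → f y = 0) :
    ‖fv f S h‖ ^ 2 = ∑ y ∈ S, ‖f y‖ ^ 2 := by
  rw [L2.norm_sq]
  refine tsum_eq_sum fun y hy => ?_
  rw [fv_apply, h y hy]
  simp

/-- the tent -/
def tent (n : ℕ) (b y : Site d) : ℝ := max 0 ((n : ℝ) - sd b y)

theorem tent_nonneg (n : ℕ) (b y : Site d) : 0 ≤ tent n b y := le_max_left _ _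

theorem tent_zero {n : ℕ} {b y : Site d} (h : n ≤ sd b y) : tent n b y = 0 := by
  unfold tent
  have : (n : ℝ) ≤ sd b y := by exact_mod_cast h
  exact max_eq_left (by linarith only [this])

theorem tent_lip (n : ℕ) (b : Site d) {y y' : Site d} (h : sd y y' ≤ 1) :
    |tent n b y' - tent n b y| ≤ 1 := by
  have h1 : (sd b y' : ℝ) ≤ sd b y + 1 := by
    have := sd_triangle b y y'
    exact_mod_cast this.trans (by omega)
  have h2 : (sd b y : ℝ) ≤ sd b y' + 1 := by
    have h3 := sd_triangle b y' y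
    rw [sd_comm y' y] at h3
    exact_mod_cast h3.trans (by omega)
  unfold tent
  rw [abs_le]
  constructor <;> simp only [max_def] <;> split_ifs <;> linarith

theorem wey : WeyStmt := by
  classical
  intro d
  obtain ⟨C, hC⟩ : ∃ C : ℝ, C = 2 + 6 * d * 3 ^ d := ⟨_, rfl⟩
  have hC2 : 2 ≤ C := by rw [hC]; have : (0 : ℝ) ≤ 6 * d * 3 ^ d := by positivity
                         linarith
  refine ⟨C, by linarith, ?_⟩
  intro V l δ n b hn hδ hF
  have hn0 : (1 : ℝ) ≤ n := by exact_mod_cast hn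
  obtain ⟨ψ, hψ⟩ : ∃ ψ : Site d → ℂ, ψ = fun y => (tent n b y : ℂ) := ⟨_, rfl⟩
  have hψx : ∀ y, ψ y = (tent n b y : ℂ) := fun y => by rw [hψ]
  have hψ0 : ∀ y, y ∉ box b n → ψ y = 0 := by
    intro y hy
    rw [mem_box, not_le] at hy
    rw [hψx, tent_zero hy.le]
    simp
  obtain ⟨r, hr⟩ : ∃ r : Site d → ℂ, r = fun y => lap ψ y + (V y : ℂ) * ψ y -
      ((l + 2 * d : ℝ) : ℂ) * ψ y := ⟨_, rfl⟩
  have hrx : ∀ y, r y = lap ψ y + (V y : ℂ) * ψ y - ((l + 2 * d : ℝ) : ℂ) * ψ y := fun y => by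
    rw [hr]
  have hr0 : ∀ y, y ∉ box b n → r y = 0 := by
    intro y hy
    rw [hrx, hψ0 y hy]
    rw [mem_box, not_le] at hy
    have h1 : lap ψ y = 0 := by
      unfold lap
      refine Finset.sum_eq_zero fun i _ => ?_
      have h2 := sd_triangle b (y + Pi.single i 1) y
      have h3 := sd_triangle b (y - Pi.single i 1) y
      rw [sd_comm (y + Pi.single i 1) y] at h2
      rw [sd_comm (y - Pi.single i 1) y] at h3
      have h4 := sd_add y i
      have h5 := sd_sub y i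
      rw [hψx, hψx, tent_zero (y := y + Pi.single i 1) (by omega),
        tent_zero (y := y - Pi.single i 1) (by omega)]
      simp
    rw [h1]
    simp
  -- the pointwise bound for `r`
  have hrb : ∀ y ∈ box b n, ‖r y‖ ^ 2 ≤ 2 * (2 * d) ^ 2 + 2 * (δ ^ 2 * ‖ψ y‖ ^ 2) := by
    intro y hy
    rw [mem_box] at hy
    have h1 : r y = ∑ i : Fin d, (((tent n b (y + Pi.single i 1) - tent n b y : ℝ) : ℂ) +
        ((tent n b (y - Pi.single i 1) - tent n b y : ℝ) : ℂ)) +
        ((V y - l : ℝ) : ℂ) * ψ y := by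
      rw [hrx]
      unfold lap
      have h2 : ∀ i : Fin d, ψ (y + Pi.single i 1) + ψ (y - Pi.single i 1) =
          (((tent n b (y + Pi.single i 1) - tent n b y : ℝ) : ℂ) +
          ((tent n b (y - Pi.single i 1) - tent n b y : ℝ) : ℂ)) + 2 * ψ y := by
        intro i
        rw [hψx, hψx, hψx]
        push_cast
        ring
      rw [Finset.sum_congr rfl fun i _ => h2 i, Finset.sum_add_distrib, Finset.sum_const,
        Finset.card_univ, Fintype.card_fin, nsmul_eq_mul]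
      push_cast
      ring
    have h2 : ‖∑ i : Fin d, (((tent n b (y + Pi.single i 1) - tent n b y : ℝ) : ℂ) +
        ((tent n b (y - Pi.single i 1) - tent n b y : ℝ) : ℂ))‖ ≤ 2 * d := by
      refine (norm_sum_le _ _).trans ?_
      calc _ ≤ ∑ _i : Fin d, (2 : ℝ) := by
            refine Finset.sum_le_sum fun i _ => ?_
            refine (norm_add_le _ _).trans ?_
            rw [Complex.norm_real, Complex.norm_real, Real.norm_eq_abs, Real.norm_eq_abs]
            have a1 := tent_lip n b (sd_add y i)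
            have a2 := tent_lip n b (sd_sub y i)
            linarith only [a1, a2]
        _ = 2 * d := by
            rw [Finset.sum_const, Finset.card_univ, Fintype.card_fin, nsmul_eq_mul]
            ring
    have h3 : ‖((V y - l : ℝ) : ℂ) * ψ y‖ ≤ δ * ‖ψ y‖ := by
      rw [norm_mul, Complex.norm_real, Real.norm_eq_abs]
      exact mul_le_mul_of_nonneg_right (hF y hy) (norm_nonneg _)
    have h4 : ‖r y‖ ≤ 2 * d + δ * ‖ψ y‖ := by
      rw [h1]
      exact (norm_add_le _ _).trans (add_le_add h2 h3)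
    have h5 : ‖r y‖ ^ 2 ≤ (2 * d + δ * ‖ψ y‖) ^ 2 := pow_le_pow_left₀ (norm_nonneg _) h4 2
    nlinarith only [sq_nonneg (2 * (d : ℝ) - δ * ‖ψ y‖), h5]
  obtain ⟨Ψ, hΨ⟩ : ∃ Ψ : L2 d, Ψ = fv ψ (box b n) hψ0 := ⟨_, rfl⟩
  obtain ⟨R, hR⟩ : ∃ R : L2 d, R = fv r (box b n) hr0 := ⟨_, rfl⟩
  have hΨn : ‖Ψ‖ ^ 2 = ∑ y ∈ box b n, ‖ψ y‖ ^ 2 := by rw [hΨ]; exact fv_norm _ _ _
  have hRn : ‖R‖ ^ 2 = ∑ y ∈ box b n, ‖r y‖ ^ 2 := by rw [hR]; exact fv_norm _ _ _
  -- the lower bound for the norm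
  have hlow : (n : ℝ) ^ 2 / 4 * n ^ d ≤ ‖Ψ‖ ^ 2 := by
    rw [hΨn]
    have h1 : ∑ y ∈ box b (n / 2), (n : ℝ) ^ 2 / 4 ≤ ∑ y ∈ box b n, ‖ψ y‖ ^ 2 := by
      have h2 : box b (n / 2) ⊆ box b n := by
        intro y hy
        rw [mem_box] at hy ⊢
        omega
      refine le_trans ?_ (Finset.sum_le_sum_of_subset_of_nonneg h2 fun y _ _ => by positivity)
      refine Finset.sum_le_sum fun y hy => ?_
      rw [mem_box] at hy
      have h3 : (n : ℝ) / 2 ≤ tent n b y := by
        refine le_trans ?_ (le_max_right _ _)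
        have h4 : (sd b y : ℝ) ≤ n / 2 := by
          have h5 : 2 * sd b y ≤ n := by omega
          have h6 : (2 : ℝ) * sd b y ≤ n := by exact_mod_cast h5
          linarith only [h6]
        linarith only [h4]
      rw [hψx, Complex.norm_real, Real.norm_of_nonneg (tent_nonneg n b y)]
      nlinarith
    rw [Finset.sum_const, card_box, nsmul_eq_mul] at h1
    have h7 : (n : ℝ) ^ d ≤ (((2 * (n / 2) + 1) ^ d : ℕ) : ℝ) := by
      have h8 : n ^ d ≤ (2 * (n / 2) + 1) ^ d := Nat.pow_le_pow_left (by omega) d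
      exact_mod_cast h8
    calc (n : ℝ) ^ 2 / 4 * n ^ d ≤ (n : ℝ) ^ 2 / 4 * (((2 * (n / 2) + 1) ^ d : ℕ) : ℝ) := by
          gcongr
      _ = (((2 * (n / 2) + 1) ^ d : ℕ) : ℝ) * ((n : ℝ) ^ 2 / 4) := by ring
      _ ≤ _ := h1
  have hΨ0 : 0 < ‖Ψ‖ := by
    have h1 : 0 < ‖Ψ‖ ^ 2 := lt_of_lt_of_le (by positivity) hlow
    rcases (norm_nonneg Ψ).eq_or_lt with h | h
    · rw [← h] at h1
      norm_num at h1
    · exact h
  have hup : ‖R‖ ^ 2 ≤ (C * (1 / n + δ) * ‖Ψ‖) ^ 2 := by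
    rw [hRn]
    have h1 : ∑ y ∈ box b n, ‖r y‖ ^ 2 ≤ 8 * (d : ℝ) ^ 2 * (3 ^ d * n ^ d) +
        2 * δ ^ 2 * ‖Ψ‖ ^ 2 := by
      refine (Finset.sum_le_sum hrb).trans ?_
      rw [Finset.sum_add_distrib, Finset.sum_const, card_box, nsmul_eq_mul, ← Finset.mul_sum,
        ← Finset.mul_sum, ← hΨn]
      have h2 : (((2 * n + 1) ^ d : ℕ) : ℝ) ≤ 3 ^ d * n ^ d := by
        rw [← mul_pow]
        have h3 : (2 * n + 1) ^ d ≤ (3 * n) ^ d := Nat.pow_le_pow_left (by omega) d
        exact_mod_cast h3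
      calc (((2 * n + 1) ^ d : ℕ) : ℝ) * (2 * (2 * (d : ℝ)) ^ 2) + 2 * (δ ^ 2 * ‖Ψ‖ ^ 2) ≤
          3 ^ d * n ^ d * (2 * (2 * (d : ℝ)) ^ 2) + 2 * (δ ^ 2 * ‖Ψ‖ ^ 2) := by gcongr
        _ = _ := by ring
    have h2 : 8 * (d : ℝ) ^ 2 * (3 ^ d * n ^ d) ≤ 32 * (d : ℝ) ^ 2 * 3 ^ d * (1 / n) ^ 2 *
        ‖Ψ‖ ^ 2 := by
      calc 8 * (d : ℝ) ^ 2 * (3 ^ d * n ^ d) = 32 * (d : ℝ) ^ 2 * 3 ^ d * (1 / n) ^ 2 *
            ((n : ℝ) ^ 2 / 4 * n ^ d) := by
            field_simp
            ring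
        _ ≤ _ := by gcongr
    have h3 : 32 * (d : ℝ) ^ 2 * 3 ^ d ≤ C ^ 2 := by
      have h4 : (1 : ℝ) ≤ 3 ^ d := one_le_pow₀ (by norm_num)
      have h5 : 6 * (d : ℝ) * 3 ^ d ≤ C := by rw [hC]; linarith only
      calc 32 * (d : ℝ) ^ 2 * 3 ^ d ≤ 36 * (d : ℝ) ^ 2 * (3 ^ d * 3 ^ d) := by
            have h6 : (0 : ℝ) ≤ (d : ℝ) ^ 2 * 3 ^ d := by positivity
            nlinarith only [h4, h6]
        _ = (6 * (d : ℝ) * 3 ^ d) ^ 2 := by ring
        _ ≤ C ^ 2 := pow_le_pow_left₀ (by positivity) h5 2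
    have h6 : 2 ≤ C ^ 2 := by nlinarith only [hC2]
    have h7 : (0 : ℝ) ≤ 1 / n := by positivity
    calc _ ≤ 32 * (d : ℝ) ^ 2 * 3 ^ d * (1 / n) ^ 2 * ‖Ψ‖ ^ 2 + 2 * δ ^ 2 * ‖Ψ‖ ^ 2 := by
          linarith only [h1, h2]
      _ ≤ C ^ 2 * (1 / n) ^ 2 * ‖Ψ‖ ^ 2 + C ^ 2 * δ ^ 2 * ‖Ψ‖ ^ 2 := by gcongr
      _ = C ^ 2 * ((1 / n) ^ 2 + δ ^ 2) * ‖Ψ‖ ^ 2 := by ring
      _ ≤ C ^ 2 * (1 / n + δ) ^ 2 * ‖Ψ‖ ^ 2 := by
          gcongr
          nlinarith only [hδ, h7]
      _ = _ := by ring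
  have hC0 : 0 ≤ C * (1 / n + δ) * ‖Ψ‖ := by
    have : (0 : ℝ) ≤ 1 / n := by positivity
    positivity
  have hRle : ‖R‖ ≤ C * (1 / n + δ) * ‖Ψ‖ := by
    have := abs_le_of_sq_le_sq hup hC0
    exact (le_abs_self _).trans this
  have hinv : ‖((‖Ψ‖⁻¹ : ℝ) : ℂ)‖ = ‖Ψ‖⁻¹ := by
    rw [Complex.norm_real, Real.norm_of_nonneg (by positivity)]
  have hone : ‖((‖Ψ‖⁻¹ : ℝ) : ℂ) • Ψ‖ = 1 := by
    rw [norm_smul, hinv, inv_mul_cancel₀ hΨ0.ne']
  refine ⟨((‖Ψ‖⁻¹ : ℝ) : ℂ) • Ψ, hone, ?_, hone.le, ((‖Ψ‖⁻¹ : ℝ) : ℂ) • R, ?_, ?_⟩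
  · intro y hy
    rw [lp.coeFn_smul, Pi.smul_apply, hΨ, fv_apply, hψ0 y (by rw [mem_box]; omega), smul_zero]
  · rw [norm_smul, hinv, inv_mul_le_iff₀ hΨ0]
    linarith only [hRle]
  · intro y
    have h1 : ∀ x, (((‖Ψ‖⁻¹ : ℝ) : ℂ) • Ψ) x = ((‖Ψ‖⁻¹ : ℝ) : ℂ) * ψ x := by
      intro x
      rw [lp.coeFn_smul, Pi.smul_apply, hΨ, fv_apply, smul_eq_mul]
    have h2 : (((‖Ψ‖⁻¹ : ℝ) : ℂ) • R) y = ((‖Ψ‖⁻¹ : ℝ) : ℂ) * r y := by
      rw [lp.coeFn_smul, Pi.smul_apply, hR, fv_apply, smul_eq_mul]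
    have h3 : lap (⇑(((‖Ψ‖⁻¹ : ℝ) : ℂ) • Ψ)) y = ((‖Ψ‖⁻¹ : ℝ) : ℂ) * lap ψ y := by
      unfold lap
      rw [Finset.mul_sum]
      refine Finset.sum_congr rfl fun i _ => ?_
      rw [h1, h1]
      ring
    rw [h2, h3, h1, hrx]
    ring

end Pool.Agent.ANE.H72
end
end -- Pool.Agent.Helper72_ANE.Wey

section -- Pool.Agent.Helper90_ANE.PR3

/-!
# PR3: the vectors are unbounded with positive probability
-/

set_option autoImplicit false

open MeasureTheory ProbabilityTheory Function Filter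

open scoped ENNReal BigOperators InnerProductSpace Topology NNReal

noncomputable section

namespace Pool.Agent.ANE.H90

open Pool.Agent.Anderson hiding box mem_box card_box
open Pool.Agent.Loc Pool.Agent.Mob Pool.Agent.Helper54.Bal
  Pool.Agent.Helper96.EXP Pool.Agent.BED
open Pool.Agent.LE.MN Pool.Agent.LE.CL Pool.Agent.LE.IR Pool.Agent.LE.QD

theorem pr3 (hL : La3Stmt) : Pr3Stmt := by
  intro d σ E e hσ he h hcon
  obtain ⟨v, hv⟩ : ∃ v : ℝ≥0, (v : ℝ) = σ ^ 2 := ⟨⟨σ ^ 2, sq_nonneg σ⟩, rfl⟩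
  let S : ℕ → Set (Site d → ℝ) := fun m => {V | ∀ n : ℕ, m ≤ n → ∀ (M : ℕ) [NeZero M], 8 ≤ M →
    SolT d M E n e n fun x : Tor d M => V (rep x)}
  have hmono : Monotone S := by
    intro a b hab V hV n hn
    exact hV n (hab.trans hn)
  have hc : PP d (gl σ) (⋃ m, S m)ᶜ = 0 := by
    refine measure_mono_null ?_ hcon
    intro V hV hB
    obtain ⟨m, hm⟩ := hL d V E e he hB
    exact hV (Set.mem_iUnion.2 ⟨m, hm⟩)
  have h1 : PP d (gl σ) (⋃ m, S m) = 1 := by
    have h2 : PP d (gl σ) (Set.univ : Set (Site d → ℝ)) ≤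
        PP d (gl σ) (⋃ m, S m) + PP d (gl σ) (⋃ m, S m)ᶜ := by
      rw [← Set.union_compl_self (⋃ m, S m)]
      exact measure_union_le _ _
    rw [hc, add_zero, measure_univ] at h2
    exact le_antisymm prob_le_one h2
  rw [hmono.measure_iUnion] at h1
  have h3 : ENNReal.ofReal (3 / 4) < ⨆ m, PP d (gl σ) (S m) := by
    rw [h1, ENNReal.ofReal_lt_one]
    norm_num
  obtain ⟨m, hm⟩ := lt_iSup_iff.1 h3
  obtain ⟨M, hM, h8, hg⟩ := h (m : ℝ) m
  have := hM
  have hg' := hg v hv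
  have h4 := Pool.Agent.LE.IR.H54.law_le (d := d) (M := M) hσ hv (0 : Site d)
    (fun U => ¬ SolT d M E (m : ℝ) e m U) (q := ENNReal.ofReal (3 / 4)) (by
      simpa only [not_not] using hg')
  refine absurd (hm.trans_le ((measure_mono ?_).trans h4)) (lt_irrefl _)
  intro V hV
  have h5 : SolT d M E (m : ℝ) e m fun x : Tor d M => V (rep x) := hV m le_rfl M h8
  have h6 : (fun x : Tor d M => V ((0 : Site d) + rep x)) = fun x : Tor d M => V (rep x) := by
    funext x
    rw [zero_add]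
  show ¬ ¬ SolT d M E (m : ℝ) e m (fun x : Tor d M => V ((0 : Site d) + rep x))
  rw [h6, not_not]
  exact h5

end Pool.Agent.ANE.H90
end
end -- Pool.Agent.Helper90_ANE.PR3

section -- Pool.Agent.Helper72_ANE.All

/-!
# ANE: the end of the Anderson model in dimension `≥ 3`, with no open hypothesis except TR3
-/

set_option autoImplicit false

namespace Pool.Agent.ANE.H72

open Pool.Agent.ANE

universe u

/-- Continuous spectrum in the bulk at weak disorder follows from the interface TR3. -/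
theorem finT : Fn3Stmt.{u} :=
  fn3 (Pool.Agent.ANE.H90.pr3 la3) (spc wey flt) Pool.Agent.AEN.H76.endT

end Pool.Agent.ANE.H72
end -- Pool.Agent.Helper72_ANE.All
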