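import Pool.Agent.Helper12_MEB.B080
import Pool.Agent.Helper12_MEB.B122
import Pool.Agent.Helper12_MEB.B127
import Pool.Agent.Helper12_MEB.B140
import Pool.Agent.Helper12_MEB.B141
import Pool.Agent.Helper12_MEB.B146

/-!
# Merged copies (generated) of the modules

* `Pool.Agent.Helper93_LSF3.All3`
* `Pool.Agent.Helper54_EXT.Main`
* `Pool.Agent.Helper54_EXT.Phase`
* `Pool.Agent.SPX.Defs`
* `Pool.Agent.SPX.Stmts`
-/

set_option autoImplicit false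

section -- Pool.Agent.Helper93_LSF3.All3

/-!
# The Lyapunov exponent at weak disorder, all dimensions: all modules
-/

set_option autoImplicit false

noncomputable section

namespace Pool.Agent.LE.H93F

open Pool.Agent.LE.CL Pool.Agent.LE.IR

theorem clfT : IR.ClfStmt :=
  IR.H56.clf (IR.H32.ble CL.H17.laq (IR.H24.hse IR.H54.ftb) (IR.H46.pae IR.H54.ftb)) IR.H54.srcT IR.H54.smsT
    IR.H95.cvb

theorem cpfT : IR.CpfStmt :=
  IR.H93F.cpf IR.H54.floT IR.H54.khlT IR.H54.ffbT IR.H54.smsT IR.H54.tseT clfT IR.H34.nlb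

theorem pifT : IR.PifStmt := IR.H93F.pif cpfT CL.H54.crgT

end Pool.Agent.LE.H93F
end
end -- Pool.Agent.Helper93_LSF3.All3

section -- Pool.Agent.Helper54_EXT.Main

/-!
# Continuous spectrum in the bulk and localization outside: the assembly

From `ANE.FinStmt` (no eigenvalues in `|E| < 2 d - a` at weak disorder) and the earlier results about
the Lyapunov exponent: the mobility edge `E₁(σ)`.
-/

set_option autoImplicit false

open MeasureTheory ProbabilityTheory Filter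

open scoped ENNReal ComplexInnerProductSpace Topology

noncomputable section

namespace Pool.Agent.EXT.H54

open Pool.Agent.Anderson Pool.Agent.Loc Pool.Agent.Helper54.Bal Pool.Agent.LE

universe u

/-- the window is at most `K |σ|³` -/
theorem window_cube (d : ℕ) {c σ : ℝ} (hc : 0 < c) (hc1 : c ≤ 1) (hσ : σ ≠ 0) (hσ1 : |σ| ≤ 1) :
    LOC.window d c σ ≤ 6 / c ^ 3 * |σ| ^ 3 := by
  have hσ0 : 0 < |σ| := abs_pos.2 hσ
  obtain ⟨x, hx⟩ : ∃ x, x = |σ| := ⟨_, rfl⟩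
  have hc3 : c ^ 3 ≤ c := by
    calc c ^ 3 = c * c ^ 2 := by ring
      _ ≤ c * 1 := mul_le_mul_of_nonneg_left (pow_le_one₀ hc.le hc1) hc.le
      _ = c := mul_one c
  have hc2 : c ^ 3 ≤ c ^ 2 := by
    calc c ^ 3 = c ^ 2 * c := by ring
      _ ≤ c ^ 2 * 1 := mul_le_mul_of_nonneg_left hc1 (by positivity)
      _ = c ^ 2 := mul_one _
  unfold LOC.window
  rw [← sq_abs σ, ← hx]
  have hσ4 : σ ^ 4 = x ^ 4 := by
    rw [hx, ← abs_pow]
    exact (abs_of_nonneg (by positivity)).symm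
  rw [hσ4]
  rw [← hx] at hσ0 hσ1
  split_ifs
  · have h1 : 1 + Real.log (1 / x) ≤ 2 * (Real.sqrt x)⁻¹ := by
      have h2 : Real.log (1 / x) = 2 * Real.log (Real.sqrt x)⁻¹ := by
        rw [Real.log_inv, Real.log_sqrt hσ0.le, one_div, Real.log_inv]
        ring
      have h3 := Real.log_le_sub_one_of_pos (show 0 < (Real.sqrt x)⁻¹ by positivity)
      rw [h2]
      linarith only [h3]
    have h0 : 0 ≤ 1 + Real.log (1 / x) := by
      have : 0 ≤ Real.log (1 / x) := Real.log_nonneg (by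
        rw [le_div_iff₀ hσ0]
        linarith only [hσ1])
      linarith only [this]
    have h4 : (1 + Real.log (1 / x)) ^ 2 ≤ 4 / x := by
      have h5 := pow_le_pow_left₀ h0 h1 2
      rw [mul_pow, inv_pow, Real.sq_sqrt hσ0.le] at h5
      calc (1 + Real.log (1 / x)) ^ 2 ≤ 2 ^ 2 * x⁻¹ := h5
        _ = 4 / x := by rw [div_eq_mul_inv]; norm_num
    calc x ^ 4 * (1 + Real.log (1 / x)) ^ 2 / c ≤ x ^ 4 * (4 / x) / c := by gcongr
      _ = 4 / c * x ^ 3 := by field_simp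
      _ ≤ 6 / c ^ 3 * x ^ 3 := by gcongr; norm_num
  · have h1 := Real.pow_div_factorial_le_exp (c / x) (by positivity) 3
    have h2 : (0 : ℝ) < (c / x) ^ 3 / (Nat.factorial 3 : ℕ) := by positivity
    have h3 : Real.exp (-c / x) ≤ ((c / x) ^ 3 / (Nat.factorial 3 : ℕ))⁻¹ := by
      rw [neg_div, Real.exp_neg]
      exact inv_anti₀ h2 h1
    refine h3.trans (le_of_eq ?_)
    have e5 : ((Nat.factorial 3 : ℕ) : ℝ) = 6 := by norm_num [Nat.factorial]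
    rw [e5]
    field_simp
  · have h1 := Real.pow_div_factorial_le_exp (c / x ^ 2) (by positivity) 3
    have h2 : (0 : ℝ) < (c / x ^ 2) ^ 3 / (Nat.factorial 3 : ℕ) := by positivity
    have h3 : Real.exp (-c / x ^ 2) ≤ ((c / x ^ 2) ^ 3 / (Nat.factorial 3 : ℕ))⁻¹ := by
      rw [neg_div, Real.exp_neg]
      exact inv_anti₀ h2 h1
    refine h3.trans ?_
    have e5 : ((Nat.factorial 3 : ℕ) : ℝ) = 6 := by norm_num [Nat.factorial]
    rw [e5]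
    have e6 : ((c / x ^ 2) ^ 3 / 6)⁻¹ = 6 / c ^ 3 * x ^ 6 := by field_simp
    rw [e6]
    have h7 : x ^ 6 ≤ x ^ 3 := pow_le_pow_of_le_one hσ0.le hσ1 (by norm_num)
    gcongr

theorem window_pos (d : ℕ) {c σ : ℝ} (hc : 0 < c) (hσ : σ ≠ 0) (hσ1 : |σ| ≤ 1) :
    0 < LOC.window d c σ := by
  have hσ0 : 0 < |σ| := abs_pos.2 hσ
  unfold LOC.window
  split_ifs
  · have : 0 ≤ Real.log (1 / |σ|) := Real.log_nonneg (by
      rw [le_div_iff₀ hσ0]
      linarith only [hσ1])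
    positivity
  · exact Real.exp_pos _
  · exact Real.exp_pos _

/-- a closed-ball argument: if `γ` were positive at an energy of the continuous spectrum, there would
be an eigenvalue near it -/
theorem gamma_zero {d : ℕ} {V : Site d → ℝ} {E r : ℝ} (hr : 0 < r)
    (hsp : ∀ ε : ℝ, 0 < ε → ∃ φ : L2 d, ‖φ‖ = 1 ∧ {x : Site d | φ x ≠ 0}.Finite ∧ IsQuasi V ε E φ)
    (hno : ∀ E' : ℝ, E' ∈ Set.Icc (E - r) (E + r) → ∀ φ : L2 d, IsEigen V E' φ → φ = 0)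
    (hcomp : ∀ u w : L2 d, (∀ x, w x = lap u x + (V x : ℂ) * u x) →
      (∀ (E' : ℝ) (ψ : L2 d), E' ∈ Set.Icc (E - r) (E + r) → IsEigen V E' ψ → ⟪ψ, u⟫ = 0) →
      r * ‖u‖ ≤ ‖w - (E : ℂ) • u‖) : False := by
  obtain ⟨φ, hφ, -, -, ρ, hρ, hρ'⟩ := hsp (r / 2) (by linarith only [hr])
  have h1 := hcomp φ (ρ + (E : ℂ) • φ) (fun x => by
    have h2 := hρ' x
    have h3 : (ρ + (E : ℂ) • φ : L2 d) x = ρ x + (E : ℂ) * φ x := rfl
    rw [h3, ← h2]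
    ring) (fun E' ψ hE' hψ => by
    rw [hno E' hE' ψ hψ]
    exact inner_zero_left _)
  rw [add_sub_cancel_right, hφ] at h1
  linarith only [h1, hρ, hr]

/-- a probability space with independent standard Gaussians -/
theorem prob_space (d : ℕ) : ∃ (Ω : Type u) (_ : MeasurableSpace Ω)
    (P : Measure Ω) (_ : IsProbabilityMeasure P) (ξ : Site d → Ω → ℝ),
    (∀ y, Measurable (ξ y)) ∧ (∀ y, P.map (ξ y) = gaussianReal 0 1) ∧ iIndepFun ξ P := by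
  obtain ⟨μ, hμ⟩ : ∃ μ : Measure ((Fin d → ℤ) → ℝ),
    μ = Measure.infinitePi fun _ : Fin d → ℤ => gaussianReal 0 1 := ⟨_, rfl⟩
  have hprob : IsProbabilityMeasure μ := by rw [hμ]; infer_instance
  have hup : Measurable (ULift.up : ((Fin d → ℤ) → ℝ) → ULift.{u} ((Fin d → ℤ) → ℝ)) :=
    measurable_up
  have hdown : Measurable (ULift.down : ULift.{u} ((Fin d → ℤ) → ℝ) → ((Fin d → ℤ) → ℝ)) :=
    measurable_down
  have hξ : ∀ y : Fin d → ℤ, Measurable fun ω : ULift.{u} ((Fin d → ℤ) → ℝ) => ω.down y :=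
    fun y => (measurable_pi_apply y).comp hdown
  have hlaw : ∀ y : Fin d → ℤ, (μ.map (ULift.up.{u})).map (fun ω => ω.down y) = gaussianReal 0 1 := by
    intro y
    rw [Measure.map_map (hξ y) hup]
    have : ((fun ω : ULift.{u} ((Fin d → ℤ) → ℝ) => ω.down y) ∘ ULift.up) = fun ξ => ξ y := rfl
    rw [this, hμ]
    exact (measurePreserving_eval_infinitePi (fun _ : Fin d → ℤ => gaussianReal 0 1) y).map_eq
  have hP : IsProbabilityMeasure (μ.map (ULift.up.{u})) :=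
    Measure.isProbabilityMeasure_map hup.aemeasurable
  refine ⟨ULift.{u} ((Fin d → ℤ) → ℝ), inferInstance, μ.map ULift.up, hP,
    fun y ω => ω.down y, hξ, hlaw, ?_⟩
  rw [iIndepFun_iff_map_fun_eq_infinitePi_map hξ]
  simp only [hlaw]
  rw [Measure.map_map (by fun_prop) hup]
  have : ((fun (ω : ULift.{u} ((Fin d → ℤ) → ℝ)) (i : Fin d → ℤ) => ω.down i) ∘ ULift.up) = id := rfl
  rw [this, Measure.map_id, hμ]

/-- the conclusions for one `σ` with `γ` -/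
def AtSigma.{v} (d : ℕ) (γ : ℝ → ℝ) (σ : ℝ) : Prop :=
  ∀ (Ω : Type v) [MeasurableSpace Ω] (P : Measure Ω) [IsProbabilityMeasure P]
    (ξ : Site d → Ω → ℝ), (∀ y, Measurable (ξ y)) →
    (∀ y, P.map (ξ y) = gaussianReal 0 1) → iIndepFun ξ P →
    (∀ᵐ ω ∂P, ∀ c r : ℝ, Set.Icc (c - r) (c + r) ⊆ {E | 0 < γ E} → ∀ u w : L2 d,
      (∀ x, w x = lap u x + ((σ * ξ x ω : ℝ) : ℂ) * u x) →
      (∀ (E : ℝ) (ψ : L2 d), E ∈ Set.Icc (c - r) (c + r) →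
        IsEigen (fun x => σ * ξ x ω) E ψ → ⟪ψ, u⟫ = 0) →
      r * ‖u‖ ≤ ‖w - (c : ℂ) • u‖) ∧
    (∀ᵐ ω ∂P, ∀ (E : ℝ) (ψ : Site d → ℂ), (∃ x, ψ x ≠ 0) →
      (∃ (B : ℝ) (k : ℕ), ∀ x, ‖ψ x‖ ≤ B * (1 + (sd 0 x : ℝ)) ^ k) →
      (∀ x, lap ψ x + ((σ * ξ x ω : ℝ) : ℂ) * ψ x = (E : ℂ) * ψ x) →
      (∀ m : ℝ, m < γ E → ∃ B : ℝ, ∀ x, ‖ψ x‖ ≤ B * Real.exp (-m * sd 0 x)) ∧
      ∀ m B : ℝ, γ E < m → ¬ ∀ x, ‖ψ x‖ ≤ B * Real.exp (-m * sd 0 x)) ∧
    (∀ a b β k : ℝ, Set.Icc a b ⊆ {E | 0 < γ E} → 0 < β → ∃ T₀ : ℝ, ∀ T : ℝ, T₀ ≤ T →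
      ∫⁻ ω, Pool.Agent.Mob.spread (fun x => σ * ξ x ω) T (T ^ β) (Set.Ioo a b) ∂P ≤
        ENNReal.ofReal (T ^ (-k))) ∧
    (∀ a b δ : ℝ, ¬ Set.Ioo a b ⊆ {E | 0 < γ E} → 0 < δ → δ ≤ 1 → ∃ T₀ : ℝ, ∀ T : ℝ,
      T₀ ≤ T → ENNReal.ofReal (T ^ (-6 : ℝ)) ≤
        ∫⁻ ω, Pool.Agent.Mob.spread (fun x => σ * ξ x ω) T (T ^ (1 / ((d : ℝ) + δ)))
          (Set.Ioo a b) ∂P)

/-- THE MOBILITY EDGE AT WEAK DISORDER -/
theorem ext (hf : Pool.Agent.ANE.FinStmt.{u}) (d : ℕ) (hd : 3 ≤ d) :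
    ∃ (γ : ℝ → ℝ → ℝ) (σc : ℝ) (E₁ : ℝ → ℝ), 0 < σc ∧
    (∀ σ : ℝ, σ ≠ 0 → ∀ E : ℝ, 0 ≤ γ σ E ∧ ∀ ε : ℝ, 0 < ε →
      Tendsto (H93.pr d σ E (γ σ E + ε)) atTop (𝓝 0) ∧
      Tendsto (H93.pr d σ E (γ σ E - ε)) atTop (𝓝 1)) ∧
    (∀ σ : ℝ, σ ≠ 0 → ∀ E : ℝ, ContinuousAt (fun q : ℝ × ℝ => γ q.1 q.2) (σ, E)) ∧
    (∀ σ : ℝ, σc < |σ| → ∀ E : ℝ, 0 < γ σ E) ∧ (∃ E : ℝ, γ σc E = 0) ∧
    (∃ c C : ℝ, 0 < c ∧ 0 < C ∧ ∀ σ : ℝ, σ ≠ 0 → |σ| ≤ c →
      E₁ σ ≤ 2 * d + watson d * σ ^ 2 + C * |σ| ^ (2 + 1 / (24 * d : ℝ))) ∧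
    (∀ a : ℝ, 0 < a → ∃ s₀ : ℝ, 0 < s₀ ∧ ∀ σ : ℝ, σ ≠ 0 → |σ| ≤ s₀ →
      2 * d - a ≤ E₁ σ ∧ γ σ (E₁ σ) = 0 ∧ γ σ (-E₁ σ) = 0 ∧
      (∀ E : ℝ, |E| ≤ 2 * d - a → γ σ E = 0) ∧ (∀ E : ℝ, E₁ σ < |E| → 0 < γ σ E) ∧
      ∀ (Ω : Type u) [MeasurableSpace Ω] (P : Measure Ω) [IsProbabilityMeasure P]
        (ξ : Site d → Ω → ℝ), (∀ y, Measurable (ξ y)) →
        (∀ y, P.map (ξ y) = gaussianReal 0 1) → iIndepFun ξ P → ∀ᵐ ω ∂P,
          (∀ E ε : ℝ, 0 < ε → ∃ φ : L2 d, ‖φ‖ = 1 ∧ {x : Site d | φ x ≠ 0}.Finite ∧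
            IsQuasi (fun y => σ * ξ y ω) ε E φ) ∧
          ∀ E : ℝ, |E| < 2 * d - a → ∀ φ : L2 d, IsEigen (fun y => σ * ξ y ω) E φ → φ = 0) ∧
    ∀ σ : ℝ, σ ≠ 0 → AtSigma.{u} d (γ σ) σ := by
  have hd1 : 1 ≤ d := by omega
  have hd3 : (3 : ℝ) ≤ d := by exact_mod_cast hd
  obtain ⟨γ, h0, -, hcrit, h3⟩ := H42J.mainJ.{u} H96.mainGT H96.smpT H15.smn H96.algT d hd1
  have hL : ∀ σ : ℝ, σ ≠ 0 → ∀ E, LyaAt d σ E (γ σ E) := fun σ hσ E =>
    H96.lyaAt_of_pr (h0 σ hσ E).1 (h0 σ hσ E).2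
  have h1 := H93C.conT d γ hd1 hL
  obtain ⟨γ', Es, h0', hedge, -, -, hsol⟩ :=
    H93F.final3.{u} H93F.qmfT CL.H54.pbdT
      H93Z.fleT H93Z.sgxT H93Z.smsT
      H93Z.cdpT H93Z.upxT IR.H54.flqT
      IR.H54.pieT H93F.pifT
      (fun σ => |σ| ^ (2 + 1 / 32 : ℝ)) d hd (fun δ hδ => QD.H93.qdfT d δ hd hδ)
  have hγ : ∀ σ : ℝ, σ ≠ 0 → ∀ E, γ' σ E = γ σ E := fun σ hσ E =>
    H42J.lya_unique (H96.lyaAt_of_pr (h0' σ hσ E).1 (h0' σ hσ E).2) (hL σ hσ E)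
  have hcont : ∀ σ : ℝ, σ ≠ 0 → Continuous fun E => γ σ E := fun σ hσ =>
    continuous_iff_continuousAt.2 fun E =>
      (h1 (σ, E) hσ).comp (f := fun E : ℝ => (σ, E))
        (continuous_const.prodMk continuous_id).continuousAt
  have heven : ∀ σ : ℝ, σ ≠ 0 → ∀ E, γ σ (-E) = γ σ E := fun σ hσ => H96C.lya_even hL hσ
  -- the edge
  have hex : ∀ σ : ℝ, ∃ E₁ : ℝ, σ ≠ 0 → (∃ E, γ σ E = 0) →
      0 ≤ E₁ ∧ γ σ E₁ = 0 ∧ γ σ (-E₁) = 0 ∧ ∀ E, E₁ < |E| → 0 < γ σ E := by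
    intro σ
    by_cases hz : σ ≠ 0 ∧ ∃ E, γ σ E = 0
    · obtain ⟨E₁, hE₁⟩ := H96C.edge (fun E => (h0 σ hz.1 E).1) (hcont σ hz.1)
        (heven σ hz.1) ((h3 σ hz.1).1 hd) hz.2
      exact ⟨E₁, fun _ _ => hE₁⟩
    · exact ⟨0, fun h h' => absurd ⟨h, h'⟩ hz⟩
  choose E₁ hE₁ using hex
  -- the Lyapunov exponent vanishes in the bulk
  have hbulk : ∀ a : ℝ, 0 < a → ∃ s₀ : ℝ, 0 < s₀ ∧ ∀ σ : ℝ, σ ≠ 0 → |σ| ≤ s₀ →
      (∀ E : ℝ, |E| ≤ 2 * d - a → γ σ E = 0) ∧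
      ∀ (Ω : Type u) [MeasurableSpace Ω] (P : Measure Ω) [IsProbabilityMeasure P]
        (ξ : Site d → Ω → ℝ), (∀ y, Measurable (ξ y)) →
        (∀ y, P.map (ξ y) = gaussianReal 0 1) → iIndepFun ξ P → ∀ᵐ ω ∂P,
          (∀ E ε : ℝ, 0 < ε → ∃ φ : L2 d, ‖φ‖ = 1 ∧ {x : Site d | φ x ≠ 0}.Finite ∧
            IsQuasi (fun y => σ * ξ y ω) ε E φ) ∧
          ∀ E : ℝ, |E| < 2 * d - a → ∀ φ : L2 d, IsEigen (fun y => σ * ξ y ω) E φ → φ = 0 := by
    intro a ha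
    obtain ⟨s₀, hs₀, hfin⟩ := hf d (a / 2) hd (by linarith only [ha])
    refine ⟨s₀, hs₀, fun σ hσ hσs => ⟨fun E hE => ?_, fun Ω _ P _ ξ hm hlaw hind => ?_⟩⟩
    · by_contra hne
      have hpos : 0 < γ σ E := lt_of_le_of_ne (h0 σ hσ E).1 (Ne.symm hne)
      -- a neighbourhood
      have hopen : IsOpen {E : ℝ | 0 < γ σ E} := isOpen_lt continuous_const (hcont σ hσ)
      obtain ⟨ρ, hρ, hρ'⟩ := Metric.isOpen_iff.1 hopen E hpos
      obtain ⟨r, hr⟩ : ∃ r, r = min (ρ / 2) (a / 4) := ⟨_, rfl⟩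
      have hr0 : 0 < r := by rw [hr]; positivity
      have hrρ : r ≤ ρ / 2 := by rw [hr]; exact min_le_left _ _
      have hra : r ≤ a / 4 := by rw [hr]; exact min_le_right _ _
      have hsub : Set.Icc (E - r) (E + r) ⊆ {E | 0 < γ σ E} := by
        intro E' hE'
        apply hρ'
        rw [Metric.mem_ball, Real.dist_eq, abs_lt]
        constructor
        · linarith only [hE'.1, hrρ, hρ]
        · linarith only [hE'.2, hrρ, hρ]
      -- a probability space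
      obtain ⟨Ω, i1, P, i2, ξ, hm, hlaw, hind⟩ := prob_space.{u} d
      have h4 := hfin σ hσ hσs Ω P ξ hm hlaw hind
      have h5 := ((h3 σ hσ).2.2 Ω P ξ hm hlaw hind).2.1
      obtain ⟨ω, hω, hω'⟩ := (h4.and h5).exists
      refine gamma_zero (V := fun y => σ * ξ y ω) hr0 (fun ε hε => hω.1 E ε hε)
        (fun E' hE' φ hφ => hω.2 E' ?_ φ hφ) (fun u w hw hu => hω' E r hsub u w hw hu)
      rw [abs_le] at hE
      rw [abs_lt]
      constructor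
      · linarith only [hE'.1, hE.1, hra, ha]
      · linarith only [hE'.2, hE.2, hra, ha]
    · filter_upwards [hfin σ hσ hσs Ω P ξ hm hlaw hind] with ω hω
      exact ⟨hω.1, fun E hE => hω.2 E (by linarith only [hE, ha])⟩
  obtain ⟨s₁, hs₁, hz1⟩ := hbulk 1 one_pos
  have hzero : ∀ σ : ℝ, σ ≠ 0 → |σ| ≤ s₁ → ∃ E, γ σ E = 0 := fun σ hσ hσs =>
    ⟨0, (hz1 σ hσ hσs).1 0 (by rw [abs_zero]; linarith only [hd3])⟩
  -- the critical coupling
  obtain ⟨σc, hσc0, hσc, hσc'⟩ := hcrit hd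
  have hσcpos : 0 < σc := by
    rcases hσc0.lt_or_eq with h | h
    · exact h
    · exfalso
      obtain ⟨E, hE⟩ := hzero s₁ hs₁.ne' (by rw [abs_of_pos hs₁])
      have := hσc s₁ (by rw [← h, abs_of_pos hs₁]; exact hs₁) E
      rw [hE] at this
      exact lt_irrefl _ this
  refine ⟨γ, σc, E₁, hσcpos, h0, fun σ hσ E => h1 (σ, E) hσ, hσc, hσc' hσcpos, ?_, fun a ha => ?_,
    fun σ hσ Ω _ P _ ξ hm hlaw hind => ?_⟩
  · obtain ⟨c, C, hc, hC, hcC⟩ := hedge (1 / 2) (by norm_num) (by norm_num)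
    obtain ⟨c', hc'⟩ : ∃ c', c' = min c 1 := ⟨_, rfl⟩
    have hc'0 : 0 < c' := by rw [hc']; positivity
    refine ⟨min c' s₁, C + 6 / c' ^ 3, by positivity, by positivity, fun σ hσ hσc => ?_⟩
    have hσc' : |σ| ≤ c' := hσc.trans (min_le_left _ _)
    have hσcc : |σ| ≤ c := hσc'.trans (by rw [hc']; exact min_le_left _ _)
    have hσ1 : |σ| ≤ 1 := hσc'.trans (by rw [hc']; exact min_le_right _ _)
    obtain ⟨hE0, hE1, -, -⟩ := hE₁ σ hσ (hzero σ hσ (hσc.trans (min_le_right _ _)))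
    obtain ⟨g1, g2, -, -⟩ := hcC σ hσ hσcc
    have hw0 : LOC.window d c σ ≤ LOC.window d c' σ :=
      LOC.window_anti d hc'0 (by rw [hc']; exact min_le_left _ _)
    have hw1 := window_cube d hc'0 (by rw [hc']; exact min_le_right _ _) hσ hσ1
    have hwpos : 0 < LOC.window d c σ := window_pos d hc hσ hσ1
    have hlt : E₁ σ < Es σ + LOC.window d c σ := by
      by_contra hcon
      push Not at hcon
      have h6 := (g2 (E₁ σ) (by rw [abs_of_nonneg hE0]; exact hcon)).1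
      rw [hγ σ hσ, hE1, abs_of_nonneg hE0] at h6
      have h7 : 0 < c * Real.sqrt (min (E₁ σ - Es σ) 1) := by
        apply mul_pos hc
        apply Real.sqrt_pos.2
        apply lt_min _ one_pos
        linarith only [hcon, hwpos]
      linarith only [h6, h7]
    have h8 : |σ| ^ 3 ≤ |σ| ^ (2 + 1 / (24 * d : ℝ)) := by
      rw [← Real.rpow_natCast]
      apply Real.rpow_le_rpow_of_exponent_ge (abs_pos.2 hσ) hσ1
      push_cast
      have : 1 / (24 * d : ℝ) ≤ 1 := by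
        rw [div_le_iff₀ (by positivity)]
        linarith only [hd3]
      linarith only [this]
    have h9 : 6 / c' ^ 3 * |σ| ^ 3 ≤ 6 / c' ^ 3 * |σ| ^ (2 + 1 / (24 * d : ℝ)) :=
      mul_le_mul_of_nonneg_left h8 (by positivity)
    have h10 := (abs_le.1 g1).2
    have h11 : (C + 6 / c' ^ 3) * |σ| ^ (2 + 1 / (24 * d : ℝ)) =
        C * |σ| ^ (2 + 1 / (24 * d : ℝ)) + 6 / c' ^ 3 * |σ| ^ (2 + 1 / (24 * d : ℝ)) := by ring
    rw [h11]
    linarith only [hlt, h10, hw0, hw1, h9]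
  · obtain ⟨s₀, hs₀, hz⟩ := hbulk a ha
    refine ⟨min s₀ s₁, by positivity, fun σ hσ hσs => ?_⟩
    obtain ⟨z1, z2⟩ := hz σ hσ (hσs.trans (min_le_left _ _))
    obtain ⟨hE0, hE1, hE2, hE3⟩ := hE₁ σ hσ (hzero σ hσ (hσs.trans (min_le_right _ _)))
    refine ⟨?_, hE1, hE2, z1, hE3, z2⟩
    by_contra hcon
    push Not at hcon
    have hpos := hE3 (2 * d - a) (lt_of_lt_of_le hcon (le_abs_self _))
    rw [z1 (2 * d - a) (le_of_eq (abs_of_nonneg (hE0.trans hcon.le)))] at hpos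
    exact lt_irrefl _ hpos
  · obtain ⟨-, g2, g3, g4⟩ := (h3 σ hσ).2.2 Ω P ξ hm hlaw hind
    refine ⟨g2, ?_, g3, g4⟩
    filter_upwards [hsol σ hσ Ω P ξ hm hlaw hind] with ω w3
    intro E ψ hψ hB hs
    have h4 := w3 E ψ hψ hB hs
    rw [hγ σ hσ] at h4
    exact h4

end Pool.Agent.EXT.H54
end
end -- Pool.Agent.Helper54_EXT.Main

section -- Pool.Agent.Helper54_EXT.Phase

/-!
# The phase diagram: the assembly

From `ANE.FinStmt`, the Lyapunov exponent `γ(σ, E)` and the effective mobility edge: the critical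
coupling `σc > 0`, the mobility edge `E₀(σ)`.
-/

set_option autoImplicit false

open MeasureTheory ProbabilityTheory Filter

open scoped ENNReal ComplexInnerProductSpace Topology

noncomputable section

namespace Pool.Agent.EXT.H54

open Pool.Agent.Anderson Pool.Agent.Loc Pool.Agent.Helper54.Bal Pool.Agent.LE
open Pool.Agent.LE.CH.H93 (LocIn Exact)

universe u

variable {d : ℕ}

/-- `p` holds almost surely for the potential `σ ξ`, `ξ` independent standard Gaussians -/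
def Almost.{v} (d : ℕ) (σ : ℝ) (p : (Site d → ℝ) → Prop) : Prop :=
  ∀ (Ω : Type v) [MeasurableSpace Ω] (P : Measure Ω) [IsProbabilityMeasure P]
    (ξ : Site d → Ω → ℝ), (∀ y, Measurable (ξ y)) → (∀ y, P.map (ξ y) = gaussianReal 0 1) →
    iIndepFun ξ P → ∀ᵐ ω ∂P, p fun x => σ * ξ x ω

/-- the set `I` is contained in the spectrum -/
def InSpec (V : Site d → ℝ) (I : Set ℝ) : Prop :=
  ∀ E ∈ I, ∀ ε : ℝ, 0 < ε → ∃ φ : L2 d, ‖φ‖ = 1 ∧ {x : Site d | φ x ≠ 0}.Finite ∧ IsQuasi V ε E φ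

/-- there are no eigenvalues in `I` -/
def NoEv (V : Site d → ℝ) (I : Set ℝ) : Prop :=
  ∀ E ∈ I, ∀ φ : L2 d, IsEigen V E φ → φ = 0

/-- the eigenvalues are dense in the open set `I` -/
def EvDense (V : Site d → ℝ) (I : Set ℝ) : Prop :=
  ∀ E ∈ I, ∀ r : ℝ, 0 < r → ∃ E' : ℝ, |E' - E| < r ∧ ∃ φ : L2 d, φ ≠ 0 ∧ IsEigen V E' φ

theorem almost_spec (σ : ℝ) (hd : 1 ≤ d) (hσ : σ ≠ 0) :
    Almost.{u} d σ fun V => InSpec V Set.univ := by
  intro Ω _ P _ ξ hm hlaw hind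
  have h2 := Pool.Agent.ANE.H72.spc Pool.Agent.ANE.H72.wey Pool.Agent.ANE.H72.flt d σ hd hσ
  rw [← Pool.Agent.Mob.H42.map_eq_PP hm hlaw hind σ] at h2
  have hme : AEMeasurable (fun (ω : Ω) (y : Site d) => σ * ξ y ω) P :=
    (Pool.Agent.Mob.H42.measurable_W hm σ).aemeasurable
  filter_upwards [ae_of_ae_map hme h2] with ω h
  exact fun E _ ε hε => h E ε hε

theorem Almost.mono {σ : ℝ} {p q : (Site d → ℝ) → Prop} (h : Almost.{u} d σ p)
    (hpq : ∀ V, p V → q V) : Almost.{u} d σ q := by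
  intro Ω _ P _ ξ hm hlaw hind
  filter_upwards [h Ω P ξ hm hlaw hind] with ω hω
  exact hpq _ hω

theorem Almost.and {σ : ℝ} {p q : (Site d → ℝ) → Prop} (h : Almost.{u} d σ p)
    (h' : Almost.{u} d σ q) : Almost.{u} d σ fun V => p V ∧ q V := by
  intro Ω _ P _ ξ hm hlaw hind
  filter_upwards [h Ω P ξ hm hlaw hind, h' Ω P ξ hm hlaw hind] with ω hω hω'
  exact ⟨hω, hω'⟩

/-- pure point spectrum: the eigenvalues are dense in the spectrum -/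
theorem ev_dense {V : Site d → ℝ} {I : Set ℝ} (hI : IsOpen I) (hloc : LocIn V I)
    (hsp : InSpec V I) : EvDense V I := by
  intro E hE r hr
  obtain ⟨ρ, hρ, hρ'⟩ := Metric.isOpen_iff.1 hI E hE
  obtain ⟨s, hs⟩ : ∃ s, s = min (ρ / 2) (r / 2) := ⟨_, rfl⟩
  have hs0 : 0 < s := by rw [hs]; positivity
  have hsρ : s ≤ ρ / 2 := by rw [hs]; exact min_le_left _ _
  have hsr : s ≤ r / 2 := by rw [hs]; exact min_le_right _ _
  by_contra hcon
  push Not at hcon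
  refine gamma_zero (V := V) hs0 (fun ε hε => hsp E hE ε hε) (fun E' hE' φ hφ => ?_)
    (hloc.1 E s fun E' hE' => hρ' ?_)
  · by_contra hne
    refine hcon E' ?_ φ hne hφ
    rw [abs_lt]
    constructor
    · linarith only [hE'.1, hsr, hr]
    · linarith only [hE'.2, hsr, hr]
  · rw [Metric.mem_ball, Real.dist_eq, abs_lt]
    constructor
    · linarith only [hE'.1, hsρ, hρ]
    · linarith only [hE'.2, hsρ, hρ]

/-- THE PHASE DIAGRAM -/
theorem phase (hf : Pool.Agent.ANE.FinStmt.{u}) (d : ℕ) (hd : 3 ≤ d) :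
    ∃ (σc : ℝ) (E₀ : ℝ → ℝ) (γ : ℝ → ℝ → ℝ), 0 < σc ∧
    (∀ σ : ℝ, σc < |σ| → Almost.{u} d σ fun V =>
      LocIn V Set.univ ∧ InSpec V Set.univ ∧ EvDense V Set.univ) ∧
    (∀ σ : ℝ, σ ≠ 0 → 0 ≤ E₀ σ ∧ Almost.{u} d σ fun V =>
      LocIn V {E | E₀ σ < |E|} ∧ InSpec V Set.univ ∧ EvDense V {E | E₀ σ < |E|}) ∧
    (∀ a : ℝ, 0 < a → ∃ s : ℝ, 0 < s ∧ ∀ σ : ℝ, σ ≠ 0 → |σ| ≤ s → 2 * d - a ≤ E₀ σ ∧
      (∀ E : ℝ, |E| ≤ 2 * d - a → γ σ E = 0) ∧
      Almost.{u} d σ fun V => NoEv V {E | |E| < 2 * d - a}) ∧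
    (∃ c C : ℝ, 0 < c ∧ 0 < C ∧ ∀ σ : ℝ, σ ≠ 0 → |σ| ≤ c →
      E₀ σ ≤ 2 * d + watson d * σ ^ 2 + C * |σ| ^ (2 + 1 / (24 * d : ℝ))) ∧
    (∀ σ : ℝ, σ ≠ 0 → ∀ E : ℝ, 0 ≤ γ σ E ∧ ∀ ε : ℝ, 0 < ε →
      Tendsto (H93.pr d σ E (γ σ E + ε)) atTop (𝓝 0) ∧
      Tendsto (H93.pr d σ E (γ σ E - ε)) atTop (𝓝 1)) ∧
    (∀ σ : ℝ, σ ≠ 0 → ∀ E : ℝ, ContinuousAt (fun q : ℝ × ℝ => γ q.1 q.2) (σ, E)) ∧
    (∀ σ : ℝ, σc < |σ| → ∀ E : ℝ, 0 < γ σ E) ∧ (∃ E : ℝ, γ σc E = 0) ∧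
    (∀ σ : ℝ, σ ≠ 0 → (∀ E : ℝ, E₀ σ < |E| → 0 < γ σ E) ∧
      ((∃ E : ℝ, γ σ E = 0) → γ σ (E₀ σ) = 0 ∧ γ σ (-E₀ σ) = 0)) ∧
    ∀ σ : ℝ, σ ≠ 0 → Almost.{u} d σ fun V => Exact V (γ σ) ∧
      ∀ I : Set ℝ, IsOpen I → (LocIn V I ↔ volume {E | E ∈ I ∧ γ σ E = 0} = 0) := by
  have hd1 : 1 ≤ d := by omega
  have hd3 : (3 : ℝ) ≤ d := by exact_mod_cast hd
  obtain ⟨γ, σc, E₁, hσc, h0, h1, hc1, hc2, hup, hweak, -⟩ := ext hf d hd
  have hL : ∀ σ : ℝ, σ ≠ 0 → ∀ E, LyaAt d σ E (γ σ E) := fun σ hσ E =>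
    H96.lyaAt_of_pr (h0 σ hσ E).1 (h0 σ hσ E).2
  -- the exact statement for one `σ`
  have hmain : ∀ σ : ℝ, σ ≠ 0 → (∃ K : ℝ, ∀ E : ℝ, K < |E| → 0 < γ σ E) ∧
      Almost.{u} d σ fun V => Exact V (γ σ) ∧
        ∀ I : Set ℝ, IsOpen I → (LocIn V I ↔ volume {E | E ∈ I ∧ γ σ E = 0} = 0) := by
    intro σ hσ
    obtain ⟨γ', g0, -, gK, g4⟩ := CH.H93.mainT.{u} d hd1 σ hσ
    have hγ : γ' = γ σ := funext fun E =>
      H42J.lya_unique (H96.lyaAt_of_pr (g0 E).1 (g0 E).2) (hL σ hσ E)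
    rw [hγ] at gK g4
    refine ⟨gK hd, fun Ω _ P _ ξ hm hlaw hind => ?_⟩
    filter_upwards [g4 Ω P ξ hm hlaw hind] with ω hω
    exact ⟨hω.1, hω.2.1⟩
  have hcont : ∀ σ : ℝ, σ ≠ 0 → Continuous fun E => γ σ E := fun σ hσ =>
    continuous_iff_continuousAt.2 fun E =>
      (h1 σ hσ E).comp (f := fun E : ℝ => (σ, E))
        (continuous_const.prodMk continuous_id).continuousAt
  have heven : ∀ σ : ℝ, σ ≠ 0 → ∀ E, γ σ (-E) = γ σ E := fun σ hσ => H96C.lya_even hL hσ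
  -- the edge
  have hex : ∀ σ : ℝ, ∃ E₀ : ℝ, 0 ≤ E₀ ∧ (σ ≠ 0 → (∀ E : ℝ, E₀ < |E| → 0 < γ σ E) ∧
      ((∃ E : ℝ, γ σ E = 0) → γ σ E₀ = 0 ∧ γ σ (-E₀) = 0)) := by
    intro σ
    by_cases hσ : σ ≠ 0
    · by_cases hz : ∃ E, γ σ E = 0
      · obtain ⟨E₁, e1, e2, e3, e4⟩ := H96C.edge (fun E => (h0 σ hσ E).1) (hcont σ hσ)
          (heven σ hσ) (hmain σ hσ).1 hz
        exact ⟨E₁, e1, fun _ => ⟨e4, fun _ => ⟨e2, e3⟩⟩⟩
      · refine ⟨0, le_rfl, fun _ => ⟨fun E _ => ?_, fun h => absurd h hz⟩⟩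
        exact lt_of_le_of_ne (h0 σ hσ E).1 fun h => hz ⟨E, h.symm⟩
    · exact ⟨0, le_rfl, fun h => absurd h hσ⟩
  choose E₀ hE₀ hE₀' using hex
  -- localization where `γ > 0`
  have hloc : ∀ σ : ℝ, σ ≠ 0 → ∀ I : Set ℝ, IsOpen I → (∀ E ∈ I, 0 < γ σ E) →
      Almost.{u} d σ fun V => LocIn V I ∧ InSpec V Set.univ ∧ EvDense V I := by
    intro σ hσ I hI hpos
    refine ((hmain σ hσ).2.and (almost_spec σ hd1 hσ)).mono fun V hV => ?_
    obtain ⟨⟨-, g⟩, hsp⟩ := hV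
    have h2 : LocIn V I := by
      refine (g I hI).2 ?_
      have h3 : {E | E ∈ I ∧ γ σ E = 0} = ∅ := by
        ext E
        simp only [Set.mem_ofPred_eq, Set.mem_empty_iff_false, iff_false, not_and]
        exact fun hE => (hpos E hE).ne'
      rw [h3, measure_empty]
    exact ⟨h2, hsp, ev_dense hI h2 fun E _ ε hε => hsp E (Set.mem_univ E) ε hε⟩
  -- the two edges agree
  have hE₁ : ∀ a : ℝ, 0 < a → ∃ s : ℝ, 0 < s ∧ ∀ σ : ℝ, σ ≠ 0 → |σ| ≤ s →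
      E₀ σ = E₁ σ := by
    intro a ha
    obtain ⟨s, hs, hsσ⟩ := hweak 1 one_pos
    refine ⟨s, hs, fun σ hσ hσs => ?_⟩
    obtain ⟨f1, f2, -, f4, f5, -⟩ := hsσ σ hσ hσs
    have hz : ∃ E, γ σ E = 0 := ⟨E₁ σ, f2⟩
    have e1 := (hE₀' σ hσ).2 hz
    have e0 : 0 ≤ E₁ σ := by linarith only [f1, hd3]
    apply le_antisymm
    · by_contra hcon
      push Not at hcon
      have := f5 (E₀ σ) (lt_of_lt_of_le hcon (le_abs_self _))
      rw [e1.1] at this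
      exact lt_irrefl _ this
    · by_contra hcon
      push Not at hcon
      have := (hE₀' σ hσ).1 (E₁ σ) (lt_of_lt_of_le hcon (le_abs_self _))
      rw [f2] at this
      exact lt_irrefl _ this
  refine ⟨σc, E₀, γ, hσc, ?_, ?_, ?_, ?_, h0, h1, hc1, hc2, fun σ hσ => hE₀' σ hσ,
    fun σ hσ => (hmain σ hσ).2⟩
  · intro σ hσ
    have hσ0 : σ ≠ 0 := by
      rintro rfl
      rw [abs_zero] at hσ
      linarith only [hσ, hσc]
    exact hloc σ hσ0 Set.univ isOpen_univ fun E _ => hc1 σ hσ E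
  · intro σ hσ
    refine ⟨hE₀ σ, hloc σ hσ _ (isOpen_lt continuous_const continuous_abs) fun E hE => ?_⟩
    exact (hE₀' σ hσ).1 E hE
  · intro a ha
    obtain ⟨s, hs, hsσ⟩ := hweak a ha
    obtain ⟨s', hs', hsσ'⟩ := hE₁ a ha
    refine ⟨min s s', lt_min hs hs', fun σ hσ hσs => ?_⟩
    obtain ⟨f1, -, -, f4, -, f6⟩ := hsσ σ hσ (hσs.trans (min_le_left _ _))
    rw [hsσ' σ hσ (hσs.trans (min_le_right _ _))]
    refine ⟨f1, f4, fun Ω _ P _ ξ hm hlaw hind => ?_⟩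
    filter_upwards [f6 Ω P ξ hm hlaw hind] with ω hω
    exact fun E hE φ hφ => hω.2 E hE φ hφ
  · obtain ⟨c, C, hc, hC, hcC⟩ := hup
    obtain ⟨s', hs', hsσ'⟩ := hE₁ 1 one_pos
    refine ⟨min c s', C, lt_min hc hs', hC, fun σ hσ hσs => ?_⟩
    rw [hsσ' σ hσ (hσs.trans (min_le_right _ _))]
    exact hcC σ hσ (hσs.trans (min_le_left _ _))

end Pool.Agent.EXT.H54
end
end -- Pool.Agent.Helper54_EXT.Phase

section -- Pool.Agent.SPX.Defs

/-!
# SPX (MP_1906c1_mp): the literal spectral theory of the final hand-in, definitions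

`L2 d = lp (fun _ : Fin d → ℤ => ℂ) 2`, `lap` the sum over the nearest neighbours.
-/

set_option autoImplicit false

open MeasureTheory ProbabilityTheory

open scoped InnerProductSpace ENNReal

noncomputable section

namespace Pool.Agent.SPX

open Pool.Agent.Anderson

variable {d : ℕ}

theorem lap_add' (u v : Site d → ℂ) (x : Site d) : lap (u + v) x = lap u x + lap v x := by
  unfold lap
  rw [← Finset.sum_add_distrib]
  refine Finset.sum_congr rfl fun i _ => ?_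
  simp only [Pi.add_apply]
  ring

theorem lap_smul' (c : ℂ) (u : Site d → ℂ) (x : Site d) : lap (c • u) x = c * lap u x := by
  unfold lap
  rw [Finset.mul_sum]
  refine Finset.sum_congr rfl fun i _ => ?_
  simp only [Pi.smul_apply, smul_eq_mul]
  ring

/-- The Hamiltonian `H = Δ + V` as an unbounded operator on `ℓ²(ℤ^d)`. Its domain is the set of all
`u ∈ ℓ²(ℤ^d)` with `Δ u + V u ∈ ℓ²(ℤ^d)`. -/
def ham (V : Site d → ℝ) : L2 d →ₗ.[ℂ] L2 d where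
  domain :=
    { carrier := {u | Memℓp (fun x => lap u x + (V x : ℂ) * u x) 2}
      add_mem' := fun {u v} hu hv => by
        have h : (fun x => lap (u + v : L2 d) x + (V x : ℂ) * (u + v : L2 d) x) =
            (fun x => lap u x + (V x : ℂ) * u x) + fun x => lap v x + (V x : ℂ) * v x := by
          funext x
          simp only [lp.coeFn_add, lap_add', Pi.add_apply]
          ring
        show Memℓp (fun x => lap (u + v : L2 d) x + (V x : ℂ) * (u + v : L2 d) x) 2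
        rw [h]
        exact Memℓp.add hu hv
      zero_mem' := by
        have h : (fun x => lap (0 : L2 d) x + (V x : ℂ) * (0 : L2 d) x) = 0 := by
          funext x
          simp [lap]
        show Memℓp (fun x => lap (0 : L2 d) x + (V x : ℂ) * (0 : L2 d) x) 2
        rw [h]
        exact zero_memℓp
      smul_mem' := fun c {u} hu => by
        have h : (fun x => lap (c • u : L2 d) x + (V x : ℂ) * (c • u : L2 d) x) =
            c • fun x => lap u x + (V x : ℂ) * u x := by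
          funext x
          simp only [lp.coeFn_smul, lap_smul', Pi.smul_apply, smul_eq_mul]
          ring
        show Memℓp (fun x => lap (c • u : L2 d) x + (V x : ℂ) * (c • u : L2 d) x) 2
        rw [h]
        exact Memℓp.const_smul hu c }
  toFun :=
    { toFun := fun u => ⟨fun x => lap (u : L2 d) x + (V x : ℂ) * (u : L2 d) x, u.2⟩
      map_add' := fun u v => by
        ext x
        simp only [Submodule.coe_add, lp.coeFn_add, lap_add', Pi.add_apply]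
        ring
      map_smul' := fun c u => by
        ext x
        simp only [Submodule.coe_smul, lp.coeFn_smul, lap_smul', Pi.smul_apply, smul_eq_mul,
          RingHom.id_apply]
        ring }

/-- The spectrum of the (unbounded) operator `A`: the set of all complex numbers `z` such that `A - z`
is not a bijection of the domain of `A` onto `ℓ²(ℤ^d)`. -/
def spectrumOf (A : L2 d →ₗ.[ℂ] L2 d) : Set ℂ :=
  {z | ¬ Function.Bijective fun u : A.domain => A u - z • (u : L2 d)}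

/-- `u` is an eigenvector of `A` with the eigenvalue `E`. -/
def IsEigenvector (A : L2 d →ₗ.[ℂ] L2 d) (E : ℝ) (u : L2 d) : Prop :=
  u ≠ 0 ∧ ∃ h : u ∈ A.domain, A ⟨u, h⟩ = (E : ℂ) • u

/-- `μ` is the spectral measure of the vector `u` for the self-adjoint operator `A`: `μ` is a finite
measure on the line and `⟨u, (A - z)⁻¹ u⟩ = ∫ (E - z)⁻¹ dμ(E)` for all `z` off the line. -/
def IsSpectralMeasure (A : L2 d →ₗ.[ℂ] L2 d) (u : L2 d) (μ : Measure ℝ) : Prop :=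
  IsFiniteMeasure μ ∧ ∀ (z : ℂ) (v : A.domain), z.im ≠ 0 → A v - z • (v : L2 d) = u →
    ⟪u, (v : L2 d)⟫_ℂ = ∫ E : ℝ, ((E : ℂ) - z)⁻¹ ∂μ

/-- The spectrum of `A` in `I` is pure point: the restriction to `I` of every spectral measure is
carried by a countable set. -/
def PurePointIn (A : L2 d →ₗ.[ℂ] L2 d) (I : Set ℝ) : Prop :=
  ∀ (u : L2 d) (μ : Measure ℝ), IsSpectralMeasure A u μ →
    ∃ S : Set ℝ, S.Countable ∧ μ (I \ S) = 0

/-- `A` has continuous spectrum in `I`: the spectral projection of `A` onto `I` is nonzero (some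
spectral measure does not vanish on `I`) and it has no point part (no spectral measure has an atom
in `I`). -/
def ContinuousIn (A : L2 d →ₗ.[ℂ] L2 d) (I : Set ℝ) : Prop :=
  (∃ (u : L2 d) (μ : Measure ℝ), IsSpectralMeasure A u μ ∧ μ I ≠ 0) ∧
  ∀ (u : L2 d) (μ : Measure ℝ), IsSpectralMeasure A u μ → ∀ E ∈ I, μ {E} = 0

/-- `H = Δ + V` is exponentially localized in `I`: the spectrum in `I` is pure point and every
eigenvector with an eigenvalue in `I` decays exponentially; `‖x‖` is the maximum of the `|x i|`. -/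
def LocalizedIn (V : Site d → ℝ) (I : Set ℝ) : Prop :=
  PurePointIn (ham V) I ∧ ∀ E ∈ I, ∀ u : L2 d, IsEigenvector (ham V) E u →
    ∃ m C : ℝ, 0 < m ∧ ∀ x, ‖u x‖ ≤ C * Real.exp (-m * ‖x‖)

/-- Almost surely `p V` holds for the potential `V = σ ξ`, `ξ(y)`, `y ∈ ℤ^d`, independent standard
Gaussians (on any probability space). -/
def Almost.{v} (d : ℕ) (σ : ℝ) (p : (Site d → ℝ) → Prop) : Prop :=
  ∀ (Ω : Type v) [MeasurableSpace Ω] (P : Measure Ω) [IsProbabilityMeasure P]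
    (ξ : Site d → Ω → ℝ), (∀ y, Measurable (ξ y)) → (∀ y, P.map (ξ y) = gaussianReal 0 1) →
    iIndepFun ξ P → ∀ᵐ ω ∂P, p fun x => σ * ξ x ω

end Pool.Agent.SPX
end
end -- Pool.Agent.SPX.Defs

section -- Pool.Agent.SPX.Stmts

/-!
# SPX (MP_1906c1_mp): the literal spectral theory of the final hand-in, statements of the rows

`G V z = (H - z)⁻¹` bounded on `ℓ²(ℤ^d)`, `IsRes (G V)` (`isRes_G`: `ident`, `adj`, `inj`, `im_inner`:
`Im ⟨f, G f⟩ = Im z ‖G f‖²`, `norm_le`, `dense_range`), `G_eq`, `G_unique`; `wt V S η u =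
∫⁻ E in S, η/π ‖G V (E + i η) u‖²`, `Cpl`, `CplJ`, `Orth` (`LE/StmtsH.lean`). Landed, to be cited:
`wtaT wtlT wteT fvgT wtqT wtsT limT` (namespace `Pool.Agent.LE.CH.H93`), `Pool.Agent.LE.CH.H81.wtc`,
`integral_poisson` (`Helper54_Ballistic/Int.lean`).
-/

set_option autoImplicit false

open MeasureTheory ProbabilityTheory Filter

open scoped InnerProductSpace ENNReal Topology ComplexConjugate

noncomputable section

namespace Pool.Agent.SPX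

open Pool.Agent.Anderson Pool.Agent.Loc Pool.Agent.Helper54.Bal Pool.Agent.LE.CH
open Pool.Agent.EXT.H54 (InSpec NoEv)

variable {d : ℕ}

/-- `μ` is the spectral measure of `u`, in terms of `G`. -/
def SpecM (V : Site d → ℝ) (u : L2 d) (μ : Measure ℝ) : Prop :=
  IsFiniteMeasure μ ∧ ∀ z : ℂ, z.im ≠ 0 → ⟪u, G V z u⟫_ℂ = ∫ E : ℝ, ((E : ℂ) - z)⁻¹ ∂μ

/-- DOM: the domain, and the resolvent of `ham V`. Proof: `G_eq`, `G_unique`. -/
def DomStmt : Prop :=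
  ∀ (d : ℕ) (V : Site d → ℝ) (z : ℂ), z.im ≠ 0 →
    (∀ u : L2 d, ∃ h : G V z u ∈ (ham V).domain, ham V ⟨G V z u, h⟩ = u + z • G V z u) ∧
    (∀ v : (ham V).domain, G V z (ham V v - z • (v : L2 d)) = v)

/-- SMI: the two forms of the spectral measure. Proof: `DomStmt`. -/
def SmiStmt : Prop :=
  ∀ (d : ℕ) (V : Site d → ℝ) (u : L2 d) (μ : Measure ℝ),
    IsSpectralMeasure (ham V) u μ ↔ SpecM V u μ

/-- SAJ: `ham V` is self-adjoint (`LinearPMap.isSelfAdjoint_def`, `LinearPMap.adjoint`). Proof, from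
`DomStmt`. The domain contains the range of `G V i`, which is dense (`IsRes.dense_range`). Symmetry
(`IsFormalAdjoint`): with `f = H u - z u`, `g = H v - conj z v` (`z = i`), `u = G V z f`,
`v = G V (conj z) g`, so `⟪H u, v⟫ = ⟪f, v⟫ + conj z ⟪u, v⟫`, `⟪u, H v⟫ = ⟪u, g⟫ + conj z ⟪u, v⟫` and
`⟪f, v⟫ = ⟪f, G V (conj z) g⟫ = ⟪G V z f, g⟫ = ⟪u, g⟫`. So `ham V ≤ (ham V)†`. Conversely let `y` be in
the domain of `(ham V)†`, `w = (ham V)† y`, `u = G V z (w - z y)`. For all `v` in the domain of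
`ham V`: `⟪y, H v - conj z v⟫ = ⟪w - z y, v⟫ = ⟪H u - z u, v⟫ = ⟪u, H v - conj z v⟫`, and `H v - conj z v`
is arbitrary (`v = G V (conj z) g`), so `y = u` is in the domain. -/
def SajStmt : Prop :=
  ∀ (d : ℕ) (V : Site d → ℝ), IsSelfAdjoint (ham V)

/-- EXM: existence of the spectral measure. Proof: `Helper83_QE/Spec.lean`, `spec`, with `del x`
replaced by `u` (`exists_measure_cfc U hUn u` is general). -/
def ExmStmt : Prop :=
  ∀ (d : ℕ) (V : Site d → ℝ) (u : L2 d), ∃ μ : Measure ℝ, SpecM V u μ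

/-- UNM: a finite measure is determined by its Stieltjes transform. Proof: for `f` bounded continuous
real valued on the line, `z = E + i η`, `Im ((t - z)⁻¹) = η / ((t - E)² + η²)`, so by Fubini
`∫ (∫ f(E) η / ((t - E)² + η²) dE) dμ(t) = ∫ f(E) Im (∫ (t - z)⁻¹ dμ(t)) dE` is the same for `μ` and
`ν`. The inner integral is `∫ f(t + η y) (1 + y²)⁻¹ dy → π f(t)`, bounded by `π sup |f|`, as `η → 0`
(dominated convergence), and so `∫ f dμ = ∫ f dν`. `ext_of_forall_integral_eq_of_IsFiniteMeasure`. -/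
def UnmStmt : Prop :=
  ∀ μ ν : Measure ℝ, IsFiniteMeasure μ → IsFiniteMeasure ν →
    (∀ z : ℂ, z.im ≠ 0 → ∫ E : ℝ, ((E : ℂ) - z)⁻¹ ∂μ = ∫ E : ℝ, ((E : ℂ) - z)⁻¹ ∂ν) → μ = ν

/-- WTB: `wt` and the spectral measure. Proof: `η ‖G V z u‖² = Im ⟪u, G V z u⟫` (`im_inner`), the
imaginary part of `SpecM`, Tonelli (`lintegral_lintegral_swap`), `z = zz η E`. -/
def WtbStmt : Prop :=
  ∀ (d : ℕ) (V : Site d → ℝ) (u : L2 d) (μ : Measure ℝ) (S : Set ℝ) (η : ℝ), SpecM V u μ → 0 < η →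
    MeasurableSet S →
    wt V S η u = ∫⁻ t, (∫⁻ E in S, ENNReal.ofReal (η / Real.pi / ((E - t) ^ 2 + η ^ 2))) ∂μ

/-- OPN: open sets, closed sets. Proof: `WtbStmt`. For every `t` the inner integral over the whole line
is `1` (`integral_poisson`). (1) `S` open, `t ∈ S`: the inner integral tends to `1` as `η → 0` (it is
at least the integral over `|E - t| < s`, `(2 / π) arctan (s / η)`); Fatou along any sequence `η → 0`.
(2) `S` closed, `μ S = 0`: for `t ∉ S` the inner integral over `S` tends to `0` (it is at most the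
integral over `|E - t| ≥ s`); dominated convergence, the bound is `1`. -/
def OpnStmt : Prop :=
  ∀ (d : ℕ) (V : Site d → ℝ) (u : L2 d) (μ : Measure ℝ) (S : Set ℝ), SpecM V u μ →
    (∀ ε : ℝ≥0∞, IsOpen S → (∃ᶠ η in 𝓝[>] (0 : ℝ), wt V S η u ≤ ε) → μ S ≤ ε) ∧
    (IsClosed S → μ S = 0 → Tendsto (fun η : ℝ => wt V S η u) (𝓝[>] 0) (𝓝 0))

/-- PAR: algebra of the spectral measures. Proof: (1) `⟪u + v, G (u + v)⟫ + ⟪u - v, G (u - v)⟫ =
2 ⟪u, G u⟫ + 2 ⟪v, G v⟫`, so by `ExmStmt` (for `u - v`) and `UnmStmt`, `μ_{u+v} + μ_{u-v} =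
2 μ_u + 2 μ_v` as measures. (2) `UnmStmt`. (3) `UnmStmt`: for an eigenfunction
`G V z φ = (E₀ - z)⁻¹ φ` (`G_unique`). (4) `η Im ⟪u, G V (i η) u⟫ = ∫ η² / (t² + η²) dμ(t) → μ univ` as
`η → ∞` (dominated convergence), and it is at most `‖u‖²` (`norm_le`). -/
def ParStmt : Prop :=
  ∀ (d : ℕ) (V : Site d → ℝ) (u : L2 d) (μ : Measure ℝ), SpecM V u μ →
    (∀ (v : L2 d) (ν ρ : Measure ℝ) (S : Set ℝ), SpecM V v ν → SpecM V (u + v) ρ →
      ρ S ≤ 2 * μ S + 2 * ν S) ∧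
    (∀ (c : ℂ) (ρ : Measure ℝ), SpecM V (c • u) ρ → ρ = ENNReal.ofReal (‖c‖ ^ 2) • μ) ∧
    (∀ E₀ : ℝ, IsEigen V E₀ u → μ {E₀}ᶜ = 0) ∧
    μ Set.univ ≤ ENNReal.ofReal (‖u‖ ^ 2)

/-- ATM: an atom of a spectral measure is an eigenvalue. Proof: `f_η = -i η G V (E + i η) u`. For
`η, η' > 0`, `z = E + i η`, `w = E + i η'`: `⟪G z u, G w u⟫ = ⟪u, G (conj z) (G w u)⟫ =
(conj z - w)⁻¹ (⟪u, G (conj z) u⟫ - ⟪u, G w u⟫) = ∫ ((t - conj z) (t - w))⁻¹ dμ` (`ident`), so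
`⟪f_η, f_η'⟫ = ∫ η η' / ((t - E + i η) (t - E - i η')) dμ(t) → μ {E}` as `η, η' → 0` (dominated
convergence, bound `1`; the integrand is `1` for `t = E`). So `‖f_η - f_η'‖² → 0`: `f_η` converges in
`ℓ²` to some `φ` along `η = 1 / (n + 1)`. `H f_η = E f_η + i η f_η - i η u` (`G_eq`) gives `IsEigen V E
φ` pointwise, and `⟪u, f_η⟫ = ∫ -i η / (t - E - i η) dμ → μ {E}`. -/
def AtmStmt : Prop :=
  ∀ (d : ℕ) (V : Site d → ℝ) (u : L2 d) (μ : Measure ℝ) (E : ℝ), SpecM V u μ → μ {E} ≠ 0 →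
    ∃ φ : L2 d, IsEigen V E φ ∧ ⟪φ, u⟫_ℂ ≠ 0

/-- PPT: complete eigenfunctions imply pure point spectrum. Proof: `M` the closure of the span of all
`φ` with `IsEigen V E₀ φ` for some `E₀`; `u = m + v`, `m ∈ M`, `v ∈ Mᗮ`. (a) A finite combination of
eigenfunctions has a spectral measure carried by a finite set (`ParStmt` (1), (2), (3), induction);
`m` is a limit of such `m_k`, and `μ_m (Sᶜ) ≤ 2 μ_{m_k} (Sᶜ) + 2 ‖m - m_k‖²` with `S` the union of the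
finite sets, so `μ_m (Sᶜ) = 0`. (b) Let `a ∈ O`, `[a - r, a + r] ⊆ O`: by `H81.wtc`,
`‖G V (zz η E) v‖ ≤ (4 / r) ‖v‖` for `|E - a| ≤ r / 2`, so `wt V (Ioo (a - r / 2) (a + r / 2)) η v ≤
C η` and `μ_v` vanishes there (`OpnStmt` (1)); so `μ_v O = 0` (`measure_null_of_locally_null`). Now
`μ_u ≤ 2 μ_m + 2 μ_v`, and `I \ (S ∪ (I \ O)) ⊆ O \ S`. -/
def PptStmt : Prop :=
  ∀ (d : ℕ) (V : Site d → ℝ) (O I : Set ℝ), IsOpen O → Cpl V O → (I \ O).Countable →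
    PurePointIn (ham V) I

/-- PPC: the converse. Proof: let `[a - r, a + r] = J ⊆ I`, `Orth V J u`, `w = H u`, `μ` the spectral
measure of `u` (`ExmStmt`). By `AtmStmt` there is no atom in `J`, so with the countable `S`,
`μ J ≤ μ (I \ S) + μ (J ∩ S) = 0`, `wt V J η u → 0` (`OpnStmt` (2)); `H93.wtqT`, `η → 0` (if `r < 0`
there is nothing to prove). -/
def PpcStmt : Prop :=
  ∀ (d : ℕ) (V : Site d → ℝ) (I : Set ℝ), PurePointIn (ham V) I → Cpl V I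

/-- NZR: Weyl vectors near one energy. Proof: `[E - r, E + r] ⊆ I`, `u` a unit vector with
`‖(H - E) u‖ ≤ r / 2` (from `InSpec`), `μ` its spectral measure. If `μ I = 0` then
`wt V [E - r, E + r] η u → 0` (`OpnStmt` (2)) and `H93.wtqT` with `a = E` gives `r² ≤ r² / 4`. -/
def NzrStmt : Prop :=
  ∀ (d : ℕ) (V : Site d → ℝ) (I : Set ℝ) (E r : ℝ), InSpec V {E} → 0 < r →
    Set.Icc (E - r) (E + r) ⊆ I → ∃ (u : L2 d) (μ : Measure ℝ), SpecM V u μ ∧ μ I ≠ 0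

/-- SPR: the spectrum of `ham V` is the line. Proof: `z.im ≠ 0`: `DomStmt`. `z = E` real, assume
that `H - E` is bijective, `B : ℓ² → ℓ²` the inverse, a linear map. Its graph is closed (limits in
`ℓ²` are pointwise limits), so it is continuous (`LinearMap.continuous_of_isClosed_graph`); for the
Weyl vectors `‖u‖ = 1 ≤ ‖B‖ ‖(H - E) u‖ ≤ ‖B‖ ε`. -/
def SprStmt : Prop :=
  ∀ (d : ℕ) (V : Site d → ℝ), InSpec V Set.univ →
    spectrumOf (ham V) = Set.range ((↑) : ℝ → ℂ)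

/-- EIG: eigenvectors; the distance. -/
def EigStmt : Prop :=
  ∀ (d : ℕ) (V : Site d → ℝ) (E : ℝ) (u : L2 d),
    (IsEigenvector (ham V) E u ↔ u ≠ 0 ∧ IsEigen V E u) ∧ ∀ x : Site d, ‖x‖ = (sd 0 x : ℝ)

end Pool.Agent.SPX
end
end -- Pool.Agent.SPX.Stmts
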