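import Pool.Agent.Helper12_MEB.B147

/-!
# Merged copies (generated) of the modules

* `Pool.Agent.Helper54_EXT.Edge`
* `Pool.Agent.Helper54_EXT.Handin`
* `Pool.Agent.Helper54_SPX.Dom`
* `Pool.Agent.Helper54_SPX.Ppc`
* `Pool.Agent.Helper54_SPX.Ppt`
* `Pool.Agent.Helper68_SPX.Spr`
* `Pool.Agent.Helper54_SPX.Asm`
* `Pool.Agent.Helper54_SPX.AsmAC`
-/

set_option autoImplicit false

section -- Pool.Agent.Helper54_EXT.Edge

/-!
# The phase diagram in terms of localization only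

The critical coupling `σc` and the mobility edge `E₀(σ)` are the exact thresholds for exponential
localization.
-/

set_option autoImplicit false

open MeasureTheory ProbabilityTheory Filter

open scoped ENNReal ComplexInnerProductSpace Topology

noncomputable section

namespace Pool.Agent.EXT.H54

open Pool.Agent.Anderson Pool.Agent.Loc Pool.Agent.Helper54.Bal Pool.Agent.LE
open Pool.Agent.LE.CH (Cpl Sml)
open Pool.Agent.LE.CH.H93 (LocIn Exact)

universe u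

variable {d : ℕ}

/-- almost surely for the product measure -/
theorem almost_of_PP {σ : ℝ} {p : (Site d → ℝ) → Prop} (h : ∀ᵐ V ∂(PP d (gl σ)), p V) :
    Almost.{u} d σ p := by
  intro Ω _ P _ ξ hm hlaw hind
  rw [← Pool.Agent.Mob.H42.map_eq_PP hm hlaw hind σ] at h
  have hme : AEMeasurable (fun (ω : Ω) (y : Site d) => σ * ξ y ω) P :=
    (Pool.Agent.Mob.H42.measurable_W hm σ).aemeasurable
  filter_upwards [ae_of_ae_map hme h] with ω hω
  exact hω

/-- localization in every set (open or not) in which the zeros of `γ` have measure zero -/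
theorem loc_set {σ : ℝ} (hσ : σ ≠ 0) {g : ℝ → ℝ} (hg : Continuous g) (h0 : ∀ E, 0 ≤ g E)
    (h : Almost.{u} d σ fun V => ∀ I : Set ℝ, IsOpen I →
      (LocIn V I ↔ volume {E | E ∈ I ∧ g E = 0} = 0)) {I : Set ℝ}
    (hI : volume {E | E ∈ I ∧ g E = 0} = 0) : Almost.{u} d σ fun V => LocIn V I := by
  obtain ⟨U, hU, hS⟩ := CH.H93.smlT d σ {E | E ∈ I ∧ g E = 0} hσ hI
  refine (h.and (almost_of_PP hS)).mono fun V hV => ?_
  obtain ⟨h1, h2⟩ := hV
  have hO : IsOpen {E | 0 < g E} := isOpen_lt continuous_const hg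
  have h3 : LocIn V {E | 0 < g E} := by
    refine (h1 _ hO).2 ?_
    have h4 : {E | E ∈ {E | 0 < g E} ∧ g E = 0} = ∅ := by
      ext E
      simp only [Set.mem_ofPred_eq, Set.mem_empty_iff_false, iff_false, not_and]
      exact fun hE => hE.ne'
    rw [h4, measure_empty]
  have hcov : ∀ E ∈ I, 0 < g E ∨ ∀ k, E ∈ U k := by
    intro E hE
    rcases (h0 E).lt_or_eq with h5 | h5
    · exact Or.inl h5
    · exact Or.inr fun k => (hU k).2 ⟨hE, h5.symm⟩
  refine ⟨CH.H93.cpgT d V U {E | 0 < g E} I hO (fun k => (hU k).1) h2 (fun k E hE => ?_) h3.1,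
    fun E hE φ hφ => ?_⟩
  · rcases hcov E hE with h5 | h5
    · exact Or.inl h5
    · exact Or.inr (h5 k)
  · rcases hcov E hE with h5 | h5
    · exact h3.2 E h5 φ hφ
    · have h6 := CH.H93.nulT d V U (fun k => (hU k).1) h2 E h5 φ hφ
      refine ⟨1, 0, one_pos, fun x => ?_⟩
      rw [h6]
      simp

/-- THE PHASE DIAGRAM, in terms of localization -/
theorem edge (hf : Pool.Agent.ANE.FinStmt.{u}) (d : ℕ) (hd : 3 ≤ d) :
    ∃ (σc : ℝ) (E₀ : ℝ → ℝ), 0 < σc ∧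
    (∀ σ : ℝ, σc < |σ| → Almost.{u} d σ fun V =>
      LocIn V Set.univ ∧ InSpec V Set.univ ∧ EvDense V Set.univ) ∧
    (∀ s : ℝ, s < σc → ∃ σ : ℝ, s < |σ| ∧ |σ| ≤ σc ∧ 0 < E₀ σ) ∧
    (∀ σ : ℝ, σ ≠ 0 → 0 ≤ E₀ σ ∧
      (Almost.{u} d σ fun V =>
        LocIn V {E | E₀ σ ≤ |E|} ∧ InSpec V Set.univ ∧ EvDense V {E | E₀ σ < |E|}) ∧
      ∀ e : ℝ, 0 ≤ e → e < E₀ σ → Almost.{u} d σ fun V => ¬ LocIn V {E | e < |E|}) ∧
    (∀ a : ℝ, 0 < a → ∃ s : ℝ, 0 < s ∧ ∀ σ : ℝ, σ ≠ 0 → |σ| ≤ s → 2 * d - a ≤ E₀ σ ∧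
      Almost.{u} d σ fun V => NoEv V {E | |E| < 2 * d - a}) ∧
    (∃ c C : ℝ, 0 < c ∧ 0 < C ∧ ∀ σ : ℝ, σ ≠ 0 → |σ| ≤ c →
      E₀ σ ≤ 2 * d + watson d * σ ^ 2 + C * |σ| ^ (2 + 1 / (24 * d : ℝ))) := by
  have hd3 : (3 : ℝ) ≤ d := by exact_mod_cast hd
  obtain ⟨σ₁, E₁, γ, hσ₁, -, p2, p3, p4, p5, p6, p7, -, p9, p10⟩ := phase hf d hd
  have hcont : ∀ σ : ℝ, σ ≠ 0 → Continuous (γ σ) := fun σ hσ =>
    continuous_iff_continuousAt.2 fun E =>
      (p6 σ hσ E).comp (f := fun E : ℝ => (σ, E))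
        (continuous_const.prodMk continuous_id).continuousAt
  have hiff : ∀ σ : ℝ, σ ≠ 0 → Almost.{u} d σ fun V => ∀ I : Set ℝ, IsOpen I →
      (LocIn V I ↔ volume {E | E ∈ I ∧ γ σ E = 0} = 0) := fun σ hσ =>
    (p10 σ hσ).mono fun V hV => hV.2
  -- the thresholds
  obtain ⟨S, hS⟩ : ∃ S : ℝ → Set ℝ,
      ∀ σ, S σ = {e : ℝ | 0 ≤ e ∧ volume {E | e < |E| ∧ γ σ E = 0} = 0} := ⟨_, fun _ => rfl⟩
  obtain ⟨E₀, hE₀⟩ : ∃ E₀ : ℝ → ℝ, ∀ σ, E₀ σ = sInf (S σ) := ⟨_, fun _ => rfl⟩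
  have hbdd : ∀ σ, BddBelow (S σ) := fun σ => ⟨0, fun e he => by
    rw [hS] at he
    exact he.1⟩
  have hmem : ∀ σ : ℝ, σ ≠ 0 → E₁ σ ∈ S σ := by
    intro σ hσ
    rw [hS]
    refine ⟨(p2 σ hσ).1, ?_⟩
    have h3 : {E | E₁ σ < |E| ∧ γ σ E = 0} = ∅ := by
      ext E
      simp only [Set.mem_ofPred_eq, Set.mem_empty_iff_false, iff_false, not_and]
      exact fun hE => ((p9 σ hσ).1 E hE).ne'
    rw [h3, measure_empty]
  have hnn : ∀ σ, 0 ≤ E₀ σ := fun σ => by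
    rw [hE₀]
    exact Real.sInf_nonneg fun e he => by
      rw [hS] at he
      exact he.1
  have hle : ∀ σ : ℝ, σ ≠ 0 → E₀ σ ≤ E₁ σ := fun σ hσ => by
    rw [hE₀]
    exact csInf_le (hbdd σ) (hmem σ hσ)
  have hnull : ∀ σ : ℝ, σ ≠ 0 → volume {E | E₀ σ < |E| ∧ γ σ E = 0} = 0 := by
    intro σ hσ
    have h3 : {E | E₀ σ < |E| ∧ γ σ E = 0} ⊆
        ⋃ n : ℕ, {E | E₀ σ + 1 / ((n : ℝ) + 1) < |E| ∧ γ σ E = 0} := by
      intro E hE
      obtain ⟨n, hn⟩ := exists_nat_one_div_lt (show 0 < |E| - E₀ σ by linarith only [hE.1])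
      refine Set.mem_iUnion.2 ⟨n, ?_, hE.2⟩
      linarith only [hn]
    refine measure_mono_null h3 (measure_iUnion_null fun n => ?_)
    have hlt : sInf (S σ) < E₀ σ + 1 / ((n : ℝ) + 1) := by
      rw [← hE₀]
      have : 0 < 1 / ((n : ℝ) + 1) := by positivity
      linarith only [this]
    obtain ⟨e, he, hlt'⟩ := exists_lt_of_csInf_lt ⟨_, hmem σ hσ⟩ hlt
    rw [hS] at he
    have h6 : {E | E₀ σ + 1 / ((n : ℝ) + 1) < |E| ∧ γ σ E = 0} ⊆ {E | e < |E| ∧ γ σ E = 0} :=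
      fun E hE => ⟨hlt'.trans hE.1, hE.2⟩
    exact measure_mono_null h6 he.2
  have hnull' : ∀ σ : ℝ, σ ≠ 0 → volume {E | E ∈ {E | E₀ σ ≤ |E|} ∧ γ σ E = 0} = 0 := by
    intro σ hσ
    have h3 : {E | E ∈ {E | E₀ σ ≤ |E|} ∧ γ σ E = 0} ⊆
        {E | E₀ σ < |E| ∧ γ σ E = 0} ∪ {E₀ σ, -E₀ σ} := by
      intro E hE
      rcases (show E₀ σ ≤ |E| from hE.1).lt_or_eq with h4 | h4
      · exact Or.inl ⟨h4, hE.2⟩
      · refine Or.inr ?_
        rcases abs_eq (hnn σ) |>.1 h4.symm with h5 | h5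
        · exact Or.inl h5
        · exact Or.inr h5
    refine measure_mono_null h3 (measure_union_null (hnull σ hσ) ?_)
    exact (Set.toFinite _).measure_zero _
  have hpos : ∀ σ e : ℝ, 0 ≤ e → e < E₀ σ → volume {E | e < |E| ∧ γ σ E = 0} ≠ 0 := by
    intro σ e he hlt hv
    rw [hE₀] at hlt
    refine notMem_of_lt_csInf hlt (hbdd σ) ?_
    rw [hS]
    exact ⟨he, hv⟩
  -- localization above the edge
  have hloc : ∀ σ : ℝ, σ ≠ 0 → Almost.{u} d σ fun V =>
      LocIn V {E | E₀ σ ≤ |E|} ∧ InSpec V Set.univ ∧ EvDense V {E | E₀ σ < |E|} := by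
    intro σ hσ
    refine ((loc_set hσ (hcont σ hσ) (fun E => (p5 σ hσ E).1) (hiff σ hσ) (hnull' σ hσ)).and
      (almost_spec σ (by omega) hσ)).mono fun V hV => ?_
    have h6 : {E : ℝ | E₀ σ < |E|} ⊆ {E | E₀ σ ≤ |E|} := fun E (hE : E₀ σ < |E|) => hE.le
    exact ⟨hV.1, hV.2, ev_dense (isOpen_lt continuous_const continuous_abs)
      (CH.H93.locIn_mono hV.1 h6) fun E _ ε hε => hV.2 E (Set.mem_univ E) ε hε⟩
  -- the lower bound
  have hlow : ∀ a : ℝ, 0 < a → ∃ s : ℝ, 0 < s ∧ ∀ σ : ℝ, σ ≠ 0 → |σ| ≤ s → 2 * d - a ≤ E₀ σ ∧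
      Almost.{u} d σ fun V => NoEv V {E | |E| < 2 * d - a} := by
    intro a ha
    obtain ⟨s, hs, h⟩ := p3 a ha
    refine ⟨s, hs, fun σ hσ hσs => ?_⟩
    obtain ⟨-, h1, h2⟩ := h σ hσ hσs
    refine ⟨?_, h2⟩
    by_contra hcon
    push Not at hcon
    have h3 : Set.Ioo (E₀ σ) (2 * d - a) ⊆ {E | E₀ σ < |E| ∧ γ σ E = 0} := by
      intro E hE
      have hE0 : 0 ≤ E := (hnn σ).trans hE.1.le
      refine ⟨?_, h1 E ?_⟩
      · rw [abs_of_nonneg hE0]
        exact hE.1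
      · rw [abs_of_nonneg hE0]
        exact hE.2.le
    have h4 := measure_mono_null h3 (hnull σ hσ)
    rw [Real.volume_Ioo, ENNReal.ofReal_eq_zero] at h4
    linarith only [h4, hcon]
  -- the critical coupling
  obtain ⟨K, hK⟩ : ∃ K : Set ℝ, K = {s : ℝ | ∃ σ : ℝ, σ ≠ 0 ∧ s = |σ| ∧ 0 < E₀ σ} := ⟨_, rfl⟩
  have hKb : BddAbove K := by
    refine ⟨σ₁, fun s hs => ?_⟩
    rw [hK] at hs
    obtain ⟨σ, hσ, rfl, h1⟩ := hs
    by_contra hcon
    push Not at hcon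
    have h2 : (0 : ℝ) ∈ S σ := by
      rw [hS]
      refine ⟨le_rfl, ?_⟩
      have h3 : {E | 0 < |E| ∧ γ σ E = 0} = ∅ := by
        ext E
        simp only [Set.mem_ofPred_eq, Set.mem_empty_iff_false, iff_false, not_and]
        exact fun _ => (p7 σ hcon E).ne'
      rw [h3, measure_empty]
    have h3 := csInf_le (hbdd σ) h2
    rw [← hE₀] at h3
    linarith only [h1, h3]
  obtain ⟨s₁, hs₁, hs₁'⟩ := hlow 1 one_pos
  have hKs : s₁ ∈ K := by
    rw [hK]
    refine ⟨s₁, hs₁.ne', (abs_of_pos hs₁).symm, ?_⟩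
    have := (hs₁' s₁ hs₁.ne' (abs_of_pos hs₁).le).1
    linarith only [this, hd3]
  have hσc : 0 < sSup K := lt_of_lt_of_le hs₁ (le_csSup hKb hKs)
  refine ⟨sSup K, E₀, hσc, ?_, ?_, fun σ hσ => ⟨hnn σ, hloc σ hσ, ?_⟩, hlow, ?_⟩
  · intro σ hσ
    have hσ0 : σ ≠ 0 := by
      rintro rfl
      rw [abs_zero] at hσ
      linarith only [hσ, hσc]
    have hE : E₀ σ = 0 := by
      refine le_antisymm ?_ (hnn σ)
      by_contra hcon
      push Not at hcon
      refine absurd (le_csSup hKb (a := |σ|) ?_) (not_le.2 hσ)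
      rw [hK]
      exact ⟨σ, hσ0, rfl, hcon⟩
    refine (hloc σ hσ0).mono fun V hV => ?_
    have h1 : {E : ℝ | E₀ σ ≤ |E|} = Set.univ := by
      ext E
      simp only [Set.mem_ofPred_eq, Set.mem_univ, iff_true, hE]
      exact abs_nonneg E
    rw [h1] at hV
    exact ⟨hV.1, hV.2.1, ev_dense isOpen_univ hV.1 hV.2.1⟩
  · intro s hs
    obtain ⟨s', hs', hlt⟩ := exists_lt_of_lt_csSup ⟨s₁, hKs⟩ hs
    have hle' := le_csSup hKb hs'
    rw [hK] at hs'
    obtain ⟨σ, -, rfl, h1⟩ := hs'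
    exact ⟨σ, hlt, hle', h1⟩
  · intro e he hlt
    refine (hiff σ hσ).mono fun V hV hcon => ?_
    exact hpos σ e he hlt ((hV _ (isOpen_lt continuous_const continuous_abs)).1 hcon)
  · obtain ⟨c, C, hc, hC, h⟩ := p4
    exact ⟨c, C, hc, hC, fun σ hσ hσc => (hle σ hσ).trans (h σ hσ hσc)⟩

end Pool.Agent.EXT.H54
end
end -- Pool.Agent.Helper54_EXT.Edge

section -- Pool.Agent.Helper54_EXT.Handin

/-!
# MP_1906c1_mp: continuous spectrum at weak disorder, the mobility edge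

For `H = Δ + σ ξ` on `ℤ^d`, `d ≥ 3`, `ξ` iid standard Gaussian, there are a critical coupling
`0 < σc < ∞` and a mobility edge `E₀(σ) ≥ 0`, `σ ≠ 0`, such that, almost surely (the spectrum is the
whole line):

* (1) if `|σ| > σc`, the spectrum is pure point, the eigenvalues are dense and all the eigenfunctions
  decay exponentially;
* (2a) for every `σ ≠ 0` there is exponential localization in `|E| ≥ E₀(σ)`, and `E₀(σ)` is optimal: for
  `0 ≤ e < E₀(σ)` there is no exponential localization in `|E| > e`. The number `σc` is optimal too: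
  arbitrarily close to it, or at it, there are `|σ| ≤ σc` with `E₀(σ) > 0`, no localization on the line;
* (2b) at weak disorder there is continuous spectrum: for each `a > 0` there is `s > 0` such that for
  `0 < |σ| ≤ s` there is no eigenvalue in `|E| < 2 d - a`, and
  `2 d - a ≤ E₀(σ) ≤ 2 d + G σ² + C |σ|^(2 + 1 / (24 d))`, `G = (2 d - Δ)⁻¹(0, 0)`.
-/

set_option autoImplicit false

open MeasureTheory ProbabilityTheory Filter

open scoped ENNReal InnerProductSpace Topology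

noncomputable section

namespace Pool.Agent.EXT.H54.Handin

open Pool.Agent.Anderson Pool.Agent.Loc

universe u

variable {d : ℕ}

/-- Almost surely `p V` holds for the potential `V = σ ξ`, `ξ(y)`, `y ∈ ℤ^d`, independent standard
Gaussians (on any probability space). -/
def Almost.{v} (d : ℕ) (σ : ℝ) (p : (Site d → ℝ) → Prop) : Prop :=
  ∀ (Ω : Type v) [MeasurableSpace Ω] (P : Measure Ω) [IsProbabilityMeasure P]
    (ξ : Site d → Ω → ℝ), (∀ y, Measurable (ξ y)) → (∀ y, P.map (ξ y) = gaussianReal 0 1) →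
    iIndepFun ξ P → ∀ᵐ ω ∂P, p fun x => σ * ξ x ω

/-- `E` is in the spectrum of `H = Δ + V`: for every `ε > 0` there is a unit vector `u` of finite
support with `‖(H - E) u‖ ≤ ε`. -/
def InSpectrum (V : Site d → ℝ) (E : ℝ) : Prop :=
  ∀ ε : ℝ, 0 < ε → ∃ u w : L2 d, ‖u‖ = 1 ∧ {x : Site d | u x ≠ 0}.Finite ∧ ‖w‖ ≤ ε ∧
    ∀ x, w x = lap u x + (V x : ℂ) * u x - (E : ℂ) * u x

/-- `H = Δ + V` is exponentially localized in the set `I` of energies: the spectrum in `I` is pure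
point (for `[a - r, a + r] ⊆ I` a vector `u ∈ ℓ²` with `w = H u ∈ ℓ²` which is orthogonal to all
the eigenfunctions with eigenvalues in `[a - r, a + r]` satisfies `‖(H - a) u‖ ≥ r ‖u‖`), and all the
eigenfunctions with eigenvalues in `I` decay exponentially. -/
def Localized (V : Site d → ℝ) (I : Set ℝ) : Prop :=
  (∀ a r : ℝ, Set.Icc (a - r) (a + r) ⊆ I → ∀ u w : L2 d,
    (∀ x, w x = lap u x + (V x : ℂ) * u x) →
    (∀ (E : ℝ) (φ : L2 d), E ∈ Set.Icc (a - r) (a + r) → IsEigen V E φ → ⟪φ, u⟫_ℂ = 0) →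
    r * ‖u‖ ≤ ‖w - (a : ℂ) • u‖) ∧
  ∀ E ∈ I, ∀ φ : L2 d, IsEigen V E φ →
    ∃ m B : ℝ, 0 < m ∧ ∀ x, ‖φ x‖ ≤ B * Real.exp (-m * sd 0 x)

/-- The eigenvalues of `H = Δ + V` are dense in the line. -/
def DenseEigenvalues (V : Site d → ℝ) : Prop :=
  ∀ E r : ℝ, 0 < r → ∃ E' : ℝ, |E' - E| < r ∧ ∃ φ : L2 d, φ ≠ 0 ∧ IsEigen V E' φ

/-- `H = Δ + V` has no eigenvalue in `I`. -/
def NoEigenvalue (V : Site d → ℝ) (I : Set ℝ) : Prop :=
  ∀ E ∈ I, ∀ φ : L2 d, IsEigen V E φ → φ = 0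

/-- The number of nearest neighbour walks on `ℤ^d` with `n` steps from `0` to `x`. -/
def walks : ℕ → Site d → ℕ
  | 0, x => if x = 0 then 1 else 0
  | n + 1, x => ∑ i : Fin d, (walks n (x + Pi.single i 1) + walks n (x - Pi.single i 1))

/-- The Green function of the lattice, `(2 d - Δ)⁻¹(0, 0) = ∑ₙ walks n 0 / (2 d)^(n+1)`. -/
def latticeGreen (d : ℕ) : ℝ := ∑' n : ℕ, (walks n (0 : Site d) : ℝ) / (2 * d) ^ (n + 1)

theorem walks_eq : ∀ (n : ℕ) (x : Site d), walks n x = Pool.Agent.Loc.walks n x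
  | 0, _ => rfl
  | n + 1, x => by
    unfold walks Pool.Agent.Loc.walks
    exact Finset.sum_congr rfl fun i _ => by rw [walks_eq n, walks_eq n]

theorem latticeGreen_eq (d : ℕ) : latticeGreen d = watson d := by
  unfold latticeGreen watson
  exact tsum_congr fun n => by rw [walks_eq]

theorem inSpectrum_of {V : Site d → ℝ} (h : Pool.Agent.EXT.H54.InSpec V Set.univ) (E : ℝ) :
    InSpectrum V E := by
  intro ε hε
  obtain ⟨φ, h1, h2, h3⟩ := h E (Set.mem_univ E) ε hε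
  obtain ⟨-, r, h4, h5⟩ := h3
  exact ⟨φ, r, h1, h2, h4, fun x => (h5 x).symm⟩

/-- Let `d ≥ 3`, `H = Δ + σ ξ` with `ξ(y)`, `y ∈ ℤ^d`, independent standard Gaussians. There are
`σc > 0` and a function `E₀` such that:

* for every `σ ≠ 0`, almost surely, the spectrum of `H` is the whole line;
* (1) if `|σ| > σc`, almost surely, `H` is exponentially localized at all energies and its eigenvalues
  are dense in the line;
* (2a) for every `σ ≠ 0`: `E₀(σ) ≥ 0`, almost surely `H` is exponentially localized in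
  `|E| ≥ E₀(σ)`, and for `0 ≤ e < E₀(σ)`, almost surely, `H` is not exponentially localized in
  `|E| > e`; and for every `s < σc` there is `σ` with `s < |σ| ≤ σc` and `E₀(σ) > 0`;
* (2b) for every `a > 0` there is `s > 0` such that for `0 < |σ| ≤ s`: `2 d - a ≤ E₀(σ)`, and almost
  surely `H` has no eigenvalue in `|E| < 2 d - a`: the spectrum is continuous there;
* there are `c, C > 0` such that `E₀(σ) ≤ 2 d + G σ² + C |σ|^(2 + 1 / (24 d))` for `0 < |σ| ≤ c`,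
  `G = (2 d - Δ)⁻¹(0, 0)`. -/
theorem result_of (hf : Pool.Agent.ANE.FinStmt.{u}) (d : ℕ) (hd : 3 ≤ d) :
    ∃ (σc : ℝ) (E₀ : ℝ → ℝ), 0 < σc ∧
    (∀ σ : ℝ, σ ≠ 0 → Almost.{u} d σ fun V => ∀ E : ℝ, InSpectrum V E) ∧
    (∀ σ : ℝ, σc < |σ| → Almost.{u} d σ fun V =>
      Localized V Set.univ ∧ DenseEigenvalues V) ∧
    (∀ σ : ℝ, σ ≠ 0 → 0 ≤ E₀ σ ∧ (Almost.{u} d σ fun V => Localized V {E | E₀ σ ≤ |E|}) ∧
      ∀ e : ℝ, 0 ≤ e → e < E₀ σ → Almost.{u} d σ fun V => ¬ Localized V {E | e < |E|}) ∧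
    (∀ s : ℝ, s < σc → ∃ σ : ℝ, s < |σ| ∧ |σ| ≤ σc ∧ 0 < E₀ σ) ∧
    (∀ a : ℝ, 0 < a → ∃ s : ℝ, 0 < s ∧ ∀ σ : ℝ, σ ≠ 0 → |σ| ≤ s → 2 * d - a ≤ E₀ σ ∧
      Almost.{u} d σ fun V => NoEigenvalue V {E | |E| < 2 * d - a}) ∧
    ∃ c C : ℝ, 0 < c ∧ 0 < C ∧ ∀ σ : ℝ, σ ≠ 0 → |σ| ≤ c →
      E₀ σ ≤ 2 * d + latticeGreen d * σ ^ 2 + C * |σ| ^ (2 + 1 / (24 * d : ℝ)) := by
  obtain ⟨σc, E₀, h0, h1, h2, h3, h4, h5⟩ := edge hf d hd
  refine ⟨σc, E₀, h0, fun σ hσ => ?_, fun σ hσ => ?_, fun σ hσ => ?_, h2, h4, ?_⟩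
  · intro Ω _ P _ ξ hm hlaw hind
    filter_upwards [(h3 σ hσ).2.1 Ω P ξ hm hlaw hind] with ω hω
    exact inSpectrum_of hω.2.1
  · intro Ω _ P _ ξ hm hlaw hind
    filter_upwards [h1 σ hσ Ω P ξ hm hlaw hind] with ω hω
    exact ⟨hω.1, fun E r hr => hω.2.2 E (Set.mem_univ E) r hr⟩
  · obtain ⟨g1, g2, g3⟩ := h3 σ hσ
    refine ⟨g1, ?_, g3⟩
    intro Ω _ P _ ξ hm hlaw hind
    filter_upwards [g2 Ω P ξ hm hlaw hind] with ω hω
    exact hω.1
  · rw [latticeGreen_eq]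
    exact h5

end Pool.Agent.EXT.H54.Handin
end
end -- Pool.Agent.Helper54_EXT.Handin

section -- Pool.Agent.Helper54_SPX.Dom

/-!
# SPX, rows DOM, SMI, EIG
-/

set_option autoImplicit false

open MeasureTheory ProbabilityTheory Filter

open scoped InnerProductSpace ENNReal Topology ComplexConjugate

noncomputable section

namespace Pool.Agent.SPX.H54

open Pool.Agent.Anderson Pool.Agent.Loc Pool.Agent.Helper54.Bal Pool.Agent.LE.CH Pool.Agent.SPX

variable {d : ℕ}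

/-- the values of `ham V` -/
theorem ham_apply (V : Site d → ℝ) (u : (ham V).domain) (x : Site d) :
    ham V u x = lap (u : L2 d) x + (V x : ℂ) * (u : L2 d) x := rfl

theorem mem_domain {V : Site d → ℝ} {u : L2 d} :
    u ∈ (ham V).domain ↔ Memℓp (fun x => lap u x + (V x : ℂ) * u x) 2 := Iff.rfl

/-- a vector `w` with `w = H u` -/
theorem mem_domain_of {V : Site d → ℝ} {u w : L2 d}
    (h : ∀ x, w x = lap u x + (V x : ℂ) * u x) : u ∈ (ham V).domain := by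
  rw [mem_domain]
  have h1 : (fun x => lap u x + (V x : ℂ) * u x) = fun x => w x := by
    funext x
    exact (h x).symm
  rw [h1]
  exact lp.memℓp w

theorem ham_eq_of {V : Site d → ℝ} {u w : L2 d}
    (h : ∀ x, w x = lap u x + (V x : ℂ) * u x) (hu : u ∈ (ham V).domain) :
    ham V ⟨u, hu⟩ = w := by
  ext x
  rw [ham_apply, h x]

theorem G_ham (V : Site d → ℝ) {z : ℂ} (hz : z.im ≠ 0) (v : (ham V).domain) :
    G V z (ham V v - z • (v : L2 d)) = v := by
  symm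
  apply G_unique hz
  intro x
  rw [lp.coeFn_sub, Pi.sub_apply, lp.coeFn_smul, Pi.smul_apply, smul_eq_mul, ham_apply]
  ring

theorem dom : DomStmt := by
  intro d V z hz
  refine ⟨fun u => ?_, G_ham V hz⟩
  have h1 : ∀ x, (u + z • G V z u : L2 d) x = lap (G V z u) x + (V x : ℂ) * G V z u x := by
    intro x
    have h2 := G_eq (V := V) hz u x
    rw [lp.coeFn_add, Pi.add_apply, lp.coeFn_smul, Pi.smul_apply, smul_eq_mul]
    linear_combination -h2
  exact ⟨mem_domain_of h1, ham_eq_of h1 _⟩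

theorem smi : SmiStmt := by
  intro d V u μ
  constructor
  · rintro ⟨h1, h2⟩
    refine ⟨h1, fun z hz => ?_⟩
    obtain ⟨h3, h4⟩ := (dom d V z hz).1 u
    refine h2 z ⟨G V z u, h3⟩ hz ?_
    rw [h4]
    exact add_sub_cancel_right u (z • G V z u)
  · rintro ⟨h1, h2⟩
    refine ⟨h1, fun z v hz hv => ?_⟩
    have h3 := G_ham V hz v
    rw [hv] at h3
    rw [← h3, ← h2 z hz]

theorem norm_site (x : Site d) : ‖x‖ = (sd 0 x : ℝ) := by
  apply le_antisymm
  · rw [pi_norm_le_iff_of_nonneg (Nat.cast_nonneg _)]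
    intro i
    rw [Int.norm_eq_abs, ← Int.cast_abs, Int.abs_eq_natAbs, Int.cast_natCast, Nat.cast_le]
    unfold sd
    have h := Finset.le_sup (f := fun i : Fin d => ((0 : Site d) i - x i).natAbs)
      (Finset.mem_univ i)
    simp only [Pi.zero_apply, zero_sub, Int.natAbs_neg] at h
    simpa using h
  · have h : ∀ i ∈ (Finset.univ : Finset (Fin d)), ((0 : Site d) i - x i).natAbs ≤ ⌊‖x‖⌋₊ := by
      intro i _
      rw [Nat.le_floor_iff (norm_nonneg _)]
      have h1 := norm_le_pi_norm x i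
      rw [Int.norm_eq_abs, ← Int.cast_abs, Int.abs_eq_natAbs, Int.cast_natCast] at h1
      simpa using h1
    have h2 : sd 0 x ≤ ⌊‖x‖⌋₊ := Finset.sup_le h
    exact (Nat.le_floor_iff (norm_nonneg _)).1 h2

theorem eigenvector_iff {V : Site d → ℝ} {E : ℝ} {u : L2 d} :
    IsEigenvector (ham V) E u ↔ u ≠ 0 ∧ IsEigen V E u := by
  constructor
  · rintro ⟨h1, h2, h3⟩
    refine ⟨h1, fun x => ?_⟩
    have h4 := congrArg (fun g : L2 d => g x) h3
    exact h4
  · rintro ⟨h1, h2⟩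
    have h3 : ∀ x, ((E : ℂ) • u : L2 d) x = lap u x + (V x : ℂ) * u x := fun x => (h2 x).symm
    exact ⟨h1, mem_domain_of h3, ham_eq_of h3 _⟩

theorem eig : EigStmt := fun _ _ _ _ => ⟨eigenvector_iff, norm_site⟩

end Pool.Agent.SPX.H54
end
end -- Pool.Agent.Helper54_SPX.Dom

section -- Pool.Agent.Helper54_SPX.Ppc

/-!
# SPX, row PPC: pure point spectrum implies complete eigenfunctions
-/

set_option autoImplicit false

open MeasureTheory ProbabilityTheory Filter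

open scoped InnerProductSpace ENNReal Topology ComplexConjugate

noncomputable section

namespace Pool.Agent.SPX.H54

open Pool.Agent.Anderson Pool.Agent.Loc Pool.Agent.Helper54.Bal Pool.Agent.LE.CH Pool.Agent.SPX

variable {d : ℕ}

/-- little mass in `[a - r, a + r]` as `η → 0`: the lower bound for `H - a` -/
theorem wtq_limit {V : Site d → ℝ} {a r : ℝ} {u w : L2 d} (hr : 0 ≤ r)
    (hw : ∀ x, w x = lap u x + (V x : ℂ) * u x)
    (h : Tendsto (fun η : ℝ => wt V (Set.Icc (a - r) (a + r)) η u) (𝓝[>] 0) (𝓝 0)) :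
    r * ‖u‖ ≤ ‖w - (a : ℂ) • u‖ := by
  have h1 : ∀ᶠ η in 𝓝[>] (0 : ℝ), ENNReal.ofReal (r ^ 2 * ‖u‖ ^ 2) ≤
      ENNReal.ofReal (‖w - (a : ℂ) • u‖ ^ 2 + (r ^ 2 + 3 * r) * √η * ‖u‖ ^ 2) +
        ENNReal.ofReal (r ^ 2) * wt V (Set.Icc (a - r) (a + r)) η u := by
    have h2 : Set.Ioc (0 : ℝ) 1 ∈ 𝓝[>] (0 : ℝ) := Ioc_mem_nhdsGT one_pos
    filter_upwards [h2] with η hη
    exact H93.wtqT d V a r η u w hr hη.1 hη.2 hw
  have h3 : Tendsto (fun η : ℝ =>
      ENNReal.ofReal (‖w - (a : ℂ) • u‖ ^ 2 + (r ^ 2 + 3 * r) * √η * ‖u‖ ^ 2) +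
        ENNReal.ofReal (r ^ 2) * wt V (Set.Icc (a - r) (a + r)) η u) (𝓝[>] 0)
      (𝓝 (ENNReal.ofReal (‖w - (a : ℂ) • u‖ ^ 2 + (r ^ 2 + 3 * r) * √0 * ‖u‖ ^ 2) +
        ENNReal.ofReal (r ^ 2) * 0)) := by
    refine Tendsto.add ?_ (ENNReal.Tendsto.const_mul h (Or.inr ENNReal.ofReal_ne_top))
    refine ENNReal.tendsto_ofReal ?_
    have hc : Continuous fun η : ℝ =>
        ‖w - (a : ℂ) • u‖ ^ 2 + (r ^ 2 + 3 * r) * √η * ‖u‖ ^ 2 := by fun_prop
    exact (hc.tendsto 0).mono_left nhdsWithin_le_nhds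
  have h4 := ge_of_tendsto h3 h1
  rw [Real.sqrt_zero, mul_zero, zero_mul, mul_zero, add_zero, add_zero,
    ENNReal.ofReal_le_ofReal_iff (by positivity), ← mul_pow] at h4
  exact (pow_le_pow_iff_left₀ (mul_nonneg hr (norm_nonneg _)) (norm_nonneg _) two_ne_zero).1 h4

theorem ppc (hex : ExmStmt) (hatm : AtmStmt) (hop : OpnStmt) : PpcStmt := by
  intro d V I hpp a r har u w hw hO
  rcases lt_or_ge r 0 with hr | hr
  · have h1 : r * ‖u‖ ≤ 0 := mul_nonpos_of_nonpos_of_nonneg hr.le (norm_nonneg _)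
    exact h1.trans (norm_nonneg _)
  obtain ⟨μ, hμ⟩ := hex d V u
  obtain ⟨S, hS, hS'⟩ := hpp u μ ((smi d V u μ).2 hμ)
  have hJ : μ (Set.Icc (a - r) (a + r)) = 0 := by
    have hat : ∀ E ∈ Set.Icc (a - r) (a + r), μ {E} = 0 := by
      intro E hE
      by_contra hne
      obtain ⟨φ, h1, h2⟩ := hatm d V u μ E hμ hne
      exact h2 (hO E φ hE h1)
    have h1 : μ (⋃ E ∈ S ∩ Set.Icc (a - r) (a + r), {E}) = 0 :=
      (measure_biUnion_null_iff (hS.mono Set.inter_subset_left)).2 fun E hE => hat E hE.2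
    refine measure_mono_null (t := (I \ S) ∪ ⋃ E ∈ S ∩ Set.Icc (a - r) (a + r), {E}) ?_
      (measure_union_null hS' h1)
    intro E hE
    by_cases hES : E ∈ S
    · right
      simp only [Set.mem_iUnion]
      exact ⟨E, ⟨hES, hE⟩, rfl⟩
    · exact Or.inl ⟨har hE, hES⟩
  exact wtq_limit hr hw ((hop d V u μ _ hμ).2 isClosed_Icc hJ)

end Pool.Agent.SPX.H54
end
end -- Pool.Agent.Helper54_SPX.Ppc

section -- Pool.Agent.Helper54_SPX.Ppt

/-!
# SPX, row PPT: complete eigenfunctions imply pure point spectrum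
-/

set_option autoImplicit false

open MeasureTheory ProbabilityTheory Filter

open scoped InnerProductSpace ENNReal Topology ComplexConjugate

noncomputable section

namespace Pool.Agent.SPX.H54

open Pool.Agent.Anderson Pool.Agent.Loc Pool.Agent.Helper54.Bal Pool.Agent.LE.CH Pool.Agent.SPX

variable {d : ℕ}

/-- the spectral measure of `u` is carried by the set `S` -/
def Carried (V : Site d → ℝ) (u : L2 d) (S : Set ℝ) : Prop :=
  ∀ μ : Measure ℝ, SpecM V u μ → μ Sᶜ = 0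

theorem Carried.mono {V : Site d → ℝ} {u : L2 d} {S T : Set ℝ} (h : Carried V u S)
    (hST : S ⊆ T) : Carried V u T :=
  fun μ hμ => measure_mono_null (Set.compl_subset_compl.2 hST) (h μ hμ)

/-- finite combinations of eigenfunctions -/
theorem carried_span (hex : ExmStmt) (hpar : ParStmt) {V : Site d → ℝ} {m : L2 d}
    (hm : m ∈ Submodule.span ℂ {φ : L2 d | ∃ E₀ : ℝ, IsEigen V E₀ φ}) :
    ∃ S : Set ℝ, S.Countable ∧ Carried V m S := by
  induction hm using Submodule.span_induction with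
  | mem φ hφ =>
    obtain ⟨E₀, h1⟩ := hφ
    exact ⟨{E₀}, Set.countable_singleton E₀, fun μ hμ => (hpar d V φ μ hμ).2.2.1 E₀ h1⟩
  | zero =>
    refine ⟨∅, Set.countable_empty, fun μ hμ => ?_⟩
    have h1 := (hpar d V 0 μ hμ).2.2.2
    rw [norm_zero, zero_pow two_ne_zero, ENNReal.ofReal_zero] at h1
    exact measure_mono_null (Set.subset_univ _) (le_antisymm h1 zero_le)
  | add x y _ _ hx hy =>
    obtain ⟨S, hS, hSx⟩ := hx
    obtain ⟨T, hT, hTy⟩ := hy
    refine ⟨S ∪ T, hS.union hT, fun ρ hρ => ?_⟩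
    obtain ⟨μ, hμ⟩ := hex d V x
    obtain ⟨ν, hν⟩ := hex d V y
    have h1 := (hpar d V x μ hμ).1 y ν ρ (S ∪ T)ᶜ hν hρ
    rw [hSx.mono Set.subset_union_left μ hμ, hTy.mono Set.subset_union_right ν hν, mul_zero,
      add_zero] at h1
    exact le_antisymm h1 zero_le
  | smul c x _ hx =>
    obtain ⟨S, hS, hSx⟩ := hx
    refine ⟨S, hS, fun ρ hρ => ?_⟩
    obtain ⟨μ, hμ⟩ := hex d V x
    rw [(hpar d V x μ hμ).2.1 c ρ hρ, Measure.smul_apply, hSx μ hμ, smul_zero]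

/-- limits of finite combinations of eigenfunctions -/
theorem carried_closure (hex : ExmStmt) (hpar : ParStmt) {V : Site d → ℝ} {m : L2 d}
    (hm : m ∈ closure (Submodule.span ℂ {φ : L2 d | ∃ E₀ : ℝ, IsEigen V E₀ φ} : Set (L2 d))) :
    ∃ S : Set ℝ, S.Countable ∧ Carried V m S := by
  obtain ⟨x, hx, hlim⟩ := mem_closure_iff_seq_limit.1 hm
  have h1 : ∀ k : ℕ, ∃ S : Set ℝ, S.Countable ∧ Carried V (x k) S := fun k =>
    carried_span hex hpar (hx k)
  obtain ⟨S, hS⟩ : ∃ S : ℕ → Set ℝ, ∀ k, (S k).Countable ∧ Carried V (x k) (S k) :=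
    ⟨fun k => (h1 k).choose, fun k => (h1 k).choose_spec⟩
  refine ⟨⋃ k, S k, Set.countable_iUnion fun k => (hS k).1, fun μ hμ => ?_⟩
  have h2 : ∀ k : ℕ, μ (⋃ k, S k)ᶜ ≤ 2 * ENNReal.ofReal (‖m - x k‖ ^ 2) := by
    intro k
    obtain ⟨ν, hν⟩ := hex d V (x k)
    obtain ⟨ρ, hρ⟩ := hex d V (m - x k)
    have h3 : SpecM V (x k + (m - x k)) μ := by
      rw [add_sub_cancel]
      exact hμ
    have h4 := (hpar d V (x k) ν hν).1 (m - x k) ρ μ (⋃ k, S k)ᶜ hρ h3
    rw [((hS k).2.mono (Set.subset_iUnion S k)) ν hν, mul_zero, zero_add] at h4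
    refine h4.trans ?_
    gcongr
    exact (measure_mono (Set.subset_univ _)).trans (hpar d V (m - x k) ρ hρ).2.2.2
  have h3 : Tendsto (fun k : ℕ => 2 * ENNReal.ofReal (‖m - x k‖ ^ 2)) atTop (𝓝 0) := by
    have h4 : Tendsto (fun k : ℕ => ‖m - x k‖ ^ 2) atTop (𝓝 0) := by
      have h5 : Tendsto (fun k : ℕ => ‖m - x k‖) atTop (𝓝 ‖m - m‖) :=
        (tendsto_const_nhds.sub hlim).norm
      rw [sub_self, norm_zero] at h5
      have h6 := h5.pow 2
      rwa [zero_pow two_ne_zero] at h6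
    have h5 := ENNReal.tendsto_ofReal h4
    rw [ENNReal.ofReal_zero] at h5
    have h6 := ENNReal.Tendsto.const_mul (a := 2) h5 (Or.inr ENNReal.ofNat_ne_top)
    rwa [mul_zero] at h6
  exact le_antisymm (ge_of_tendsto h3 (Eventually.of_forall h2)) zero_le

/-- a vector orthogonal to the eigenfunctions: no spectral measure where they are complete -/
theorem null_of_orth (hop : OpnStmt) {V : Site d → ℝ} {a r : ℝ} {v : L2 d} {μ : Measure ℝ}
    (hr : 0 < r) (hcpl : CplJ V a r) (hv : Orth V (Set.Icc (a - r) (a + r)) v)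
    (hμ : SpecM V v μ) : μ (Set.Ioo (a - r / 2) (a + r / 2)) = 0 := by
  have hv2 : ∀ η : ℝ, 0 < η → ∀ E ∈ Set.Ioo (a - r / 2) (a + r / 2),
      ‖G V (zz η E) v‖ ≤ 4 / r * ‖v‖ := by
    intro η hη E hE
    have h1 := H81.wtc d V a r η E v hη hcpl hv
    have h2 : |E - a| ≤ r / 2 := by
      rw [abs_le]
      obtain ⟨h3, h4⟩ := hE
      exact ⟨by linarith only [h3], by linarith only [h4]⟩
    have h3 : r / 2 * ‖G V (zz η E) v‖ ≤ (r - |E - a|) * ‖G V (zz η E) v‖ :=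
      mul_le_mul_of_nonneg_right (by linarith only [h2]) (norm_nonneg _)
    rw [div_mul_eq_mul_div, le_div_iff₀ hr]
    linarith only [h1, h3]
  have hv3 : ∀ η : ℝ, 0 < η → wt V (Set.Ioo (a - r / 2) (a + r / 2)) η v ≤
      ENNReal.ofReal (η * (1 / Real.pi * (4 / r * ‖v‖) ^ 2)) * ENNReal.ofReal r := by
    intro η hη
    unfold wt
    calc ∫⁻ E in Set.Ioo (a - r / 2) (a + r / 2), ENNReal.ofReal (η / Real.pi * ‖G V (zz η E) v‖ ^ 2)
        ≤ ∫⁻ _ in Set.Ioo (a - r / 2) (a + r / 2),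
            ENNReal.ofReal (η * (1 / Real.pi * (4 / r * ‖v‖) ^ 2)) := by
          refine setLIntegral_mono' measurableSet_Ioo fun E hE => ENNReal.ofReal_le_ofReal ?_
          have h1 : ‖G V (zz η E) v‖ ^ 2 ≤ (4 / r * ‖v‖) ^ 2 :=
            pow_le_pow_left₀ (norm_nonneg _) (hv2 η hη E hE) 2
          have h2 : 0 ≤ η / Real.pi := div_nonneg hη.le Real.pi_pos.le
          have h3 := mul_le_mul_of_nonneg_left h1 h2
          have h4 : η / Real.pi * (4 / r * ‖v‖) ^ 2 = η * (1 / Real.pi * (4 / r * ‖v‖) ^ 2) := by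
            ring
          rw [← h4]; exact h3
      _ = ENNReal.ofReal (η * (1 / Real.pi * (4 / r * ‖v‖) ^ 2)) * ENNReal.ofReal r := by
          rw [setLIntegral_const, Real.volume_Ioo]
          congr 2
          ring
  have hv4 : Tendsto (fun η : ℝ =>
      ENNReal.ofReal (η * (1 / Real.pi * (4 / r * ‖v‖) ^ 2)) * ENNReal.ofReal r)
      (𝓝[>] 0) (𝓝 0) := by
    have h1 : Tendsto (fun η : ℝ => η * (1 / Real.pi * (4 / r * ‖v‖) ^ 2)) (𝓝[>] 0) (𝓝 0) := by
      have h2 : Tendsto (fun η : ℝ => η * (1 / Real.pi * (4 / r * ‖v‖) ^ 2)) (𝓝 0)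
          (𝓝 (0 * (1 / Real.pi * (4 / r * ‖v‖) ^ 2))) := tendsto_id.mul_const _
      rw [zero_mul] at h2
      exact h2.mono_left nhdsWithin_le_nhds
    have h3 := ENNReal.tendsto_ofReal h1
    rw [ENNReal.ofReal_zero] at h3
    have h4 := ENNReal.Tendsto.mul_const (b := ENNReal.ofReal r) h3
      (Or.inr ENNReal.ofReal_ne_top)
    rwa [zero_mul] at h4
  refine le_antisymm (le_of_forall_pos_le_add fun ε hε => ?_) zero_le
  rw [zero_add]
  refine (hop d V v μ _ hμ).1 ε isOpen_Ioo ?_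
  have h5 : ∀ᶠ η in 𝓝[>] (0 : ℝ), wt V (Set.Ioo (a - r / 2) (a + r / 2)) η v ≤ ε := by
    have h6 := (tendsto_order.1 hv4).2 ε hε
    filter_upwards [h6, self_mem_nhdsWithin] with η h7 h8
    exact (hv3 η h8).trans h7.le
  exact h5.frequently

theorem ppt (hex : ExmStmt) (hop : OpnStmt) (hpar : ParStmt) : PptStmt := by
  intro d V O I hO hcpl hI u μ hμ
  have hμ' := (smi d V u μ).1 hμ
  obtain ⟨M, hM⟩ : ∃ M : Submodule ℂ (L2 d),
      M = (Submodule.span ℂ {φ : L2 d | ∃ E₀ : ℝ, IsEigen V E₀ φ}).topologicalClosure := ⟨_, rfl⟩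
  have hMc : IsClosed (M : Set (L2 d)) := by
    rw [hM]; exact Submodule.isClosed_topologicalClosure _
  have hcs : CompleteSpace M := hMc.completeSpace_coe
  obtain ⟨m, hm, v, hv, huv⟩ := Submodule.exists_add_mem_mem_orthogonal (K := M) u
  obtain ⟨S, hS, hSm⟩ : ∃ S : Set ℝ, S.Countable ∧ Carried V m S := by
    refine carried_closure hex hpar ?_
    rw [← Submodule.topologicalClosure_coe, ← hM]
    exact hm
  obtain ⟨μm, hμm⟩ := hex d V m
  obtain ⟨μv, hμv⟩ := hex d V v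
  have hv1 : ∀ J : Set ℝ, Orth V J v := by
    intro J E φ _ hφ
    have h1 : φ ∈ M := by
      rw [hM]
      exact Submodule.le_topologicalClosure _ (Submodule.subset_span ⟨E, hφ⟩)
    exact (Submodule.mem_orthogonal M v).1 hv φ h1
  have hvO : μv O = 0 := by
    refine measure_null_of_locally_null O fun a ha => ?_
    obtain ⟨r, hr, hr1⟩ := Metric.isOpen_iff.1 hO a ha
    have hr2 : Set.Icc (a - r / 2) (a + r / 2) ⊆ O := by
      intro E hE
      apply hr1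
      rw [Metric.mem_ball, Real.dist_eq, abs_lt]
      obtain ⟨h3, h4⟩ := hE
      exact ⟨by linarith only [h3, hr], by linarith only [h4, hr]⟩
    refine ⟨Set.Ioo (a - r / 2 / 2) (a + r / 2 / 2), ?_, ?_⟩
    · refine mem_nhdsWithin_of_mem_nhds (Ioo_mem_nhds ?_ ?_)
      · linarith only [hr]
      · linarith only [hr]
    · exact null_of_orth hop (half_pos hr) (hcpl a (r / 2) hr2) (hv1 _) hμv
  refine ⟨S ∪ (I \ O), hS.union hI, ?_⟩
  have hsub : I \ (S ∪ (I \ O)) ⊆ O \ S := by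
    rintro E ⟨h1, h2⟩
    refine ⟨?_, fun h => h2 (Or.inl h)⟩
    by_contra h3
    exact h2 (Or.inr ⟨h1, h3⟩)
  refine measure_mono_null hsub ?_
  rw [huv] at hμ'
  have h1 := (hpar d V m μm hμm).1 v μv μ (O \ S) hμv hμ'
  have h2 : μm (O \ S) = 0 := measure_mono_null (fun E hE => hE.2) (hSm μm hμm)
  have h3 : μv (O \ S) = 0 := measure_mono_null Set.sdiff_subset hvO
  rw [h2, h3, mul_zero, add_zero] at h1
  exact le_antisymm h1 zero_le

end Pool.Agent.SPX.H54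
end
end -- Pool.Agent.Helper54_SPX.Ppt

section -- Pool.Agent.Helper68_SPX.Spr

/-!
# SPX, row SPR (helper68): the spectrum of the Hamiltonian is the line
-/

set_option autoImplicit false

open MeasureTheory ProbabilityTheory Filter

open scoped InnerProductSpace ENNReal Topology ComplexConjugate

noncomputable section

namespace Pool.Agent.SPX.H68

open Pool.Agent.Anderson Pool.Agent.Loc Pool.Agent.Helper54.Bal Pool.Agent.SPX
open Pool.Agent.EXT.H54 (InSpec NoEv)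

variable {d : ℕ}

/-- limits in `ℓ²` are pointwise limits -/
theorem tendsto_apply {f : ℕ → L2 d} {g : L2 d} (h : Tendsto f atTop (𝓝 g)) (x : Site d) :
    Tendsto (fun n => f n x) atTop (𝓝 (g x)) := by
  have h1 : ∀ u : L2 d, u x = ⟪(del x : L2 d), u⟫_ℂ := fun u => (inner_del_left x u).symm
  simp only [h1]
  exact Tendsto.inner tendsto_const_nhds h

theorem tendsto_lap {f : ℕ → L2 d} {g : L2 d} (h : Tendsto f atTop (𝓝 g)) (x : Site d) :
    Tendsto (fun n => lap (f n) x) atTop (𝓝 (lap g x)) := by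
  simp only [← Lap_apply]
  exact tendsto_apply (((Lap d).continuous.tendsto g).comp h) x

/-- row SPR -/
theorem spr : SprStmt := by
  intro d V hV
  ext z
  constructor
  · intro hz
    rw [Set.mem_range]
    by_contra hcon
    have hz' : z.im ≠ 0 := by
      intro h0
      exact hcon ⟨z.re, Complex.ext (by simp) (by simp [h0])⟩
    apply hz
    obtain ⟨h1, h2⟩ := H54.dom d V z hz'
    constructor
    · intro u v huv
      have h3 : G V z (ham V u - z • (u : L2 d)) = G V z (ham V v - z • (v : L2 d)) :=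
        congrArg (G V z) huv
      rw [h2, h2] at h3
      exact Subtype.ext h3
    · intro f
      obtain ⟨h3, h4⟩ := h1 f
      refine ⟨⟨G V z f, h3⟩, ?_⟩
      show ham V ⟨G V z f, h3⟩ - z • G V z f = f
      rw [h4]
      abel
  · rintro ⟨E, rfl⟩ hbij
    -- the inverse
    let A : (ham V).domain →ₗ[ℂ] L2 d :=
      { toFun := fun u => ham V u - (E : ℂ) • (u : L2 d)
        map_add' := fun u v => by
          rw [LinearPMap.map_add, Submodule.coe_add, smul_add]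
          abel
        map_smul' := fun c u => by
          rw [LinearPMap.map_smul, Submodule.coe_smul, RingHom.id_apply, smul_sub,
            smul_comm c (E : ℂ)] }
    let e : (ham V).domain ≃ₗ[ℂ] L2 d := LinearEquiv.ofBijective A hbij
    let B : L2 d →ₗ[ℂ] L2 d := (ham V).domain.subtype.comp e.symm.toLinearMap
    have hB : ∀ f : L2 d, ∃ h : B f ∈ (ham V).domain,
        ham V ⟨B f, h⟩ - (E : ℂ) • B f = f := by
      intro f
      refine ⟨(e.symm f).2, ?_⟩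
      have h1 : A (e.symm f) = f := e.apply_symm_apply f
      exact h1
    have hB' : ∀ u : (ham V).domain, B (ham V u - (E : ℂ) • (u : L2 d)) = u := by
      intro u
      have h1 : e.symm (A u) = u := e.symm_apply_apply u
      exact congrArg (fun v : (ham V).domain => (v : L2 d)) h1
    have hcont : Continuous B := by
      refine B.continuous_of_seq_closed_graph fun f x y hf hy => ?_
      have hpt : ∀ a : Site d, lap y a + (V a : ℂ) * y a - (E : ℂ) * y a = x a := by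
        intro a
        have h1 : ∀ n, lap (B (f n)) a + (V a : ℂ) * B (f n) a - (E : ℂ) * B (f n) a =
            f n a := by
          intro n
          obtain ⟨h2, h3⟩ := hB (f n)
          have h4 := congrArg (fun v : L2 d => v a) h3
          simp only [lp.coeFn_sub, Pi.sub_apply, lp.coeFn_smul, Pi.smul_apply, smul_eq_mul] at h4
          rw [H54.ham_apply] at h4
          exact h4
        have h5 : Tendsto (fun n => lap (B (f n)) a + (V a : ℂ) * B (f n) a -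
            (E : ℂ) * B (f n) a) atTop (𝓝 (lap y a + (V a : ℂ) * y a - (E : ℂ) * y a)) :=
          ((tendsto_lap hy a).add ((tendsto_apply hy a).const_mul _)).sub
            ((tendsto_apply hy a).const_mul _)
        simp only [h1] at h5
        exact tendsto_nhds_unique h5 (tendsto_apply hf a)
      have hw : ∀ a, (x + (E : ℂ) • y : L2 d) a = lap y a + (V a : ℂ) * y a := by
        intro a
        rw [lp.coeFn_add, Pi.add_apply, lp.coeFn_smul, Pi.smul_apply, smul_eq_mul, ← hpt a]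
        ring
      have hmem := H54.mem_domain_of hw
      have h6 := H54.ham_eq_of hw hmem
      have h7 := hB' ⟨y, hmem⟩
      rw [h6] at h7
      have h8 : x + (E : ℂ) • y - (E : ℂ) • ((⟨y, hmem⟩ : (ham V).domain) : L2 d) = x := by
        show x + (E : ℂ) • y - (E : ℂ) • y = x
        abel
      rw [h8] at h7
      exact h7.symm
    let Bc : L2 d →L[ℂ] L2 d := ⟨B, hcont⟩
    obtain ⟨φ, h1, -, -, r, h2, h3⟩ := hV E (Set.mem_univ E) (1 / (2 * (‖Bc‖ + 1)))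
      (by positivity)
    have hw : ∀ a, (r + (E : ℂ) • φ : L2 d) a = lap φ a + (V a : ℂ) * φ a := by
      intro a
      rw [lp.coeFn_add, Pi.add_apply, lp.coeFn_smul, Pi.smul_apply, smul_eq_mul, ← h3 a]
      ring
    have hmem := H54.mem_domain_of hw
    have h6 := H54.ham_eq_of hw hmem
    have h7 := hB' ⟨φ, hmem⟩
    rw [h6] at h7
    have h8 : r + (E : ℂ) • φ - (E : ℂ) • ((⟨φ, hmem⟩ : (ham V).domain) : L2 d) = r := by
      show r + (E : ℂ) • φ - (E : ℂ) • φ = r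
      abel
    rw [h8] at h7
    have h9 : ‖φ‖ ≤ ‖Bc‖ * ‖r‖ := by
      have h10 := Bc.le_opNorm r
      have h11 : Bc r = φ := h7
      rwa [h11] at h10
    have h12 : ‖Bc‖ * ‖r‖ ≤ ‖Bc‖ * (1 / (2 * (‖Bc‖ + 1))) :=
      mul_le_mul_of_nonneg_left h2 (norm_nonneg _)
    have h13 : ‖Bc‖ * (1 / (2 * (‖Bc‖ + 1))) < 1 := by
      rw [mul_one_div, div_lt_one (by positivity)]
      linarith [norm_nonneg Bc]
    linarith

end Pool.Agent.SPX.H68
end
end -- Pool.Agent.Helper68_SPX.Spr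

section -- Pool.Agent.Helper54_SPX.Asm

/-!
# SPX, row ASM: the phase diagram with the literal spectral theory
-/

set_option autoImplicit false

open MeasureTheory ProbabilityTheory Filter

open scoped InnerProductSpace ENNReal Topology ComplexConjugate

noncomputable section

namespace Pool.Agent.SPX.H54

open Pool.Agent.Anderson Pool.Agent.Loc Pool.Agent.Helper54.Bal Pool.Agent.LE.CH Pool.Agent.SPX
open Pool.Agent.LE.CH.H93 (LocIn)
open Pool.Agent.EXT.H54 (InSpec NoEv EvDense)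
open Pool.Agent.EXT.H54.Handin (latticeGreen latticeGreen_eq)

universe u

variable {d : ℕ}

/-- self-adjointness and the spectral measures, for all potentials -/
theorem well_posed (saj : SajStmt) (exm : ExmStmt) (unm : UnmStmt) (d : ℕ) (V : Site d → ℝ) :
    IsSelfAdjoint (ham V) ∧ ∀ u : L2 d, ∃! μ : Measure ℝ, IsSpectralMeasure (ham V) u μ := by
  refine ⟨saj d V, fun u => ?_⟩
  obtain ⟨μ, hμ⟩ := exm d V u
  refine ⟨μ, (smi d V u μ).2 hμ, fun ν hν => ?_⟩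
  have hν' := (smi d V u ν).1 hν
  exact unm ν μ hν'.1 hμ.1 fun z hz => (hν'.2 z hz).symm.trans (hμ.2 z hz)

/-- from `LocIn` to `LocalizedIn` -/
theorem localized_of (ppt : PptStmt) {V : Site d → ℝ} {O I : Set ℝ} (hO : IsOpen O)
    (hOI : O ⊆ I) (hI : (I \ O).Countable) (h : LocIn V I) : LocalizedIn V I := by
  refine ⟨ppt d V O I hO (fun a r har => h.1 a r (har.trans hOI)) hI, fun E hE u hu => ?_⟩
  obtain ⟨m, C, hm, hC⟩ := h.2 E hE u (eigenvector_iff.1 hu).2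
  refine ⟨m, C, hm, fun x => ?_⟩
  rw [norm_site]
  exact hC x

/-- from `LocalizedIn` to `LocIn` -/
theorem locIn_of (ppc : PpcStmt) {V : Site d → ℝ} {I : Set ℝ} (h : LocalizedIn V I) :
    LocIn V I := by
  refine ⟨ppc d V I h.1, fun E hE u hu => ?_⟩
  by_cases h0 : u = 0
  · refine ⟨1, 0, one_pos, fun x => ?_⟩
    rw [h0]
    simp
  obtain ⟨m, C, hm, hC⟩ := h.2 E hE u (eigenvector_iff.2 ⟨h0, hu⟩)
  refine ⟨m, C, hm, fun x => ?_⟩
  rw [← norm_site]
  exact hC x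

/-- no eigenvalue: continuous spectrum -/
theorem continuous_of (nzr : NzrStmt) (atm : AtmStmt) {V : Site d → ℝ} {b : ℝ} (hb : 0 < b)
    (hsp : InSpec V Set.univ) (hno : NoEv V {E | |E| < b}) :
    ContinuousIn (ham V) {E | |E| < b} := by
  constructor
  · obtain ⟨u, μ, h1, h2⟩ := nzr d V {E | |E| < b} 0 (b / 2)
      (fun E _ ε hε => hsp E (Set.mem_univ E) ε hε) (half_pos hb) (by
        intro E hE
        obtain ⟨h1, h2⟩ := hE
        show |E| < b
        rw [abs_lt]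
        exact ⟨by linarith only [h1, hb], by linarith only [h2, hb]⟩)
    exact ⟨u, μ, (smi d V u μ).2 h1, h2⟩
  · intro u μ hμ E hE
    by_contra hne
    obtain ⟨φ, h1, h2⟩ := atm d V u μ E ((smi d V u μ).1 hμ) hne
    apply h2
    rw [hno E hE φ h1, inner_zero_left]

theorem closure_eigenvalues {V : Site d → ℝ} (h : EvDense V Set.univ) :
    closure {E : ℝ | ∃ u : L2 d, IsEigenvector (ham V) E u} = Set.univ := by
  refine Set.eq_univ_of_forall fun E => Metric.mem_closure_iff.2 fun r hr => ?_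
  obtain ⟨E', h1, φ, h2, h3⟩ := h E (Set.mem_univ E) r hr
  refine ⟨E', ⟨φ, eigenvector_iff.2 ⟨h2, h3⟩⟩, ?_⟩
  rw [Real.dist_eq, abs_sub_comm]
  exact h1

/-- THE PHASE DIAGRAM (continuous spectrum), literal definitions -/
theorem asm (hf : Pool.Agent.ANE.FinStmt.{u}) (saj : SajStmt) (exm : ExmStmt) (unm : UnmStmt)
    (ppt : PptStmt) (ppc : PpcStmt) (atm : AtmStmt) (nzr : NzrStmt) (spr : SprStmt)
    (d : ℕ) (hd : 3 ≤ d) :
    (∀ V : Site d → ℝ, IsSelfAdjoint (ham V) ∧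
      ∀ u : L2 d, ∃! μ : Measure ℝ, IsSpectralMeasure (ham V) u μ) ∧
    ∃ (σc : ℝ) (E₀ : ℝ → ℝ), 0 < σc ∧
    (∀ σ : ℝ, σ ≠ 0 → Almost.{u} d σ fun V =>
      spectrumOf (ham V) = Set.range ((↑) : ℝ → ℂ)) ∧
    (∀ σ : ℝ, σc < |σ| → Almost.{u} d σ fun V =>
      LocalizedIn V Set.univ ∧
        closure {E : ℝ | ∃ u : L2 d, IsEigenvector (ham V) E u} = Set.univ) ∧
    (∀ σ : ℝ, σ ≠ 0 → 0 ≤ E₀ σ ∧ (Almost.{u} d σ fun V => LocalizedIn V {E | E₀ σ ≤ |E|}) ∧
      ∀ e : ℝ, 0 ≤ e → e < E₀ σ → Almost.{u} d σ fun V => ¬ LocalizedIn V {E | e < |E|}) ∧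
    (∀ s : ℝ, s < σc → ∃ σ : ℝ, s < |σ| ∧ |σ| ≤ σc ∧ 0 < E₀ σ) ∧
    (∀ a : ℝ, 0 < a → a < 2 * d → ∃ s : ℝ, 0 < s ∧ ∀ σ : ℝ, σ ≠ 0 → |σ| ≤ s →
      2 * d - a ≤ E₀ σ ∧ Almost.{u} d σ fun V =>
        ContinuousIn (ham V) {E | |E| < 2 * d - a} ∧
        ∀ (E : ℝ) (u : L2 d), |E| < 2 * d - a → ¬ IsEigenvector (ham V) E u) ∧
    ∃ c C : ℝ, 0 < c ∧ 0 < C ∧ ∀ σ : ℝ, σ ≠ 0 → |σ| ≤ c →
      E₀ σ ≤ 2 * d + latticeGreen d * σ ^ 2 + C * |σ| ^ (2 + 1 / (24 * d : ℝ)) := by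
  refine ⟨fun V => well_posed saj exm unm d V, ?_⟩
  obtain ⟨σc, E₀, h0, h1, h2, h3, h4, h5⟩ := Pool.Agent.EXT.H54.edge hf d hd
  refine ⟨σc, E₀, h0, fun σ hσ => ?_, fun σ hσ => ?_, fun σ hσ => ?_, h2, fun a ha had => ?_, ?_⟩
  · intro Ω _ P _ ξ hm hlaw hind
    filter_upwards [(h3 σ hσ).2.1 Ω P ξ hm hlaw hind] with ω hω
    exact spr d _ hω.2.1
  · intro Ω _ P _ ξ hm hlaw hind
    filter_upwards [h1 σ hσ Ω P ξ hm hlaw hind] with ω hω
    exact ⟨localized_of ppt isOpen_univ (Set.subset_univ _) (by simp) hω.1,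
      closure_eigenvalues hω.2.2⟩
  · obtain ⟨g1, g2, g3⟩ := h3 σ hσ
    refine ⟨g1, ?_, fun e he hlt => ?_⟩
    · intro Ω _ P _ ξ hm hlaw hind
      filter_upwards [g2 Ω P ξ hm hlaw hind] with ω hω
      refine localized_of ppt (O := {E : ℝ | E₀ σ < |E|}) (isOpen_lt continuous_const continuous_abs)
        (fun E (hE : E₀ σ < |E|) => hE.le) ?_ hω.1
      refine Set.Countable.mono (s₂ := {E₀ σ, -E₀ σ}) ?_ (Set.to_countable _)
      rintro E ⟨h6, h7⟩
      have h6' : E₀ σ ≤ |E| := h6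
      have h7' : ¬ E₀ σ < |E| := h7
      rcases (abs_eq g1).1 (le_antisymm (not_lt.1 h7') h6') with h8 | h8
      · exact Or.inl h8
      · exact Or.inr h8
    · intro Ω _ P _ ξ hm hlaw hind
      filter_upwards [g3 e he hlt Ω P ξ hm hlaw hind] with ω hω hcon
      exact hω (locIn_of ppc hcon)
  · obtain ⟨s, hs, g⟩ := h4 a ha
    refine ⟨s, hs, fun σ hσ hσs => ⟨(g σ hσ hσs).1, ?_⟩⟩
    intro Ω _ P _ ξ hm hlaw hind
    filter_upwards [(g σ hσ hσs).2 Ω P ξ hm hlaw hind, (h3 σ hσ).2.1 Ω P ξ hm hlaw hind]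
      with ω h6 h7
    refine ⟨continuous_of nzr atm (by linarith only [had]) h7.2.1 h6, fun E u hE hu => ?_⟩
    exact (eigenvector_iff.1 hu).1 (h6 E hE u (eigenvector_iff.1 hu).2)
  · rw [latticeGreen_eq]
    exact h5

end Pool.Agent.SPX.H54
end
end -- Pool.Agent.Helper54_SPX.Asm

section -- Pool.Agent.Helper54_SPX.AsmAC

/-!
# SPX: the phase diagram with purely absolutely continuous spectrum at weak disorder
-/

set_option autoImplicit false

open MeasureTheory ProbabilityTheory Filter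

open scoped InnerProductSpace ENNReal Topology ComplexConjugate

noncomputable section

namespace Pool.Agent.SPX.H54

open Pool.Agent.Anderson Pool.Agent.Loc Pool.Agent.Helper54.Bal Pool.Agent.LE.CH Pool.Agent.SPX
open Pool.Agent.LE.CH.H93 (LocIn)
open Pool.Agent.EXT.H54 (InSpec NoEv EvDense)
open Pool.Agent.EXT.H54.Handin (latticeGreen latticeGreen_eq)

universe u

variable {d : ℕ}

/-- The spectrum of `A` in `I` is purely absolutely continuous and fills `I`: the restriction to `I` of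
every spectral measure is absolutely continuous with respect to the Lebesgue measure, and the
Lebesgue measure on `I` is absolutely continuous with respect to some spectral measure. -/
def PurelyACIn (A : L2 d →ₗ.[ℂ] L2 d) (I : Set ℝ) : Prop :=
  (∀ (u : L2 d) (μ : Measure ℝ), IsSpectralMeasure A u μ → μ.restrict I ≪ volume) ∧
  ∃ (u : L2 d) (μ : Measure ℝ), IsSpectralMeasure A u μ ∧ (volume : Measure ℝ).restrict I ≪ μ

/-- PURELY ABSOLUTELY CONTINUOUS SPECTRUM AT WEAK DISORDER -/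
def AcsStmt : Prop :=
  ∀ (d : ℕ) (a : ℝ), 3 ≤ d → 0 < a → ∃ s : ℝ, 0 < s ∧ ∀ σ : ℝ, σ ≠ 0 → |σ| ≤ s →
    ∀ᵐ V ∂(PP d (gl σ)), Pool.Agent.ACE.ACIn V (-(2 * d - a)) (2 * d - a)

theorem purelyAC_of {V : Site d → ℝ} {a b : ℝ} (h : Pool.Agent.ACE.ACIn V a b) :
    PurelyACIn (ham V) (Set.Ioo a b) := by
  obtain ⟨h1, h2, h3⟩ := h
  constructor
  · intro u μ hμ N hN
    rw [Measure.restrict_apply' measurableSet_Ioo]
    exact h2 u μ ((smi d V u μ).1 hμ) _ Set.inter_subset_right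
      (measure_mono_null Set.inter_subset_left hN)
  · obtain ⟨m, hm⟩ := h1 (del 0)
    refine ⟨del 0, m, (smi d V _ m).2 hm, fun N hN => ?_⟩
    rw [Measure.restrict_apply' measurableSet_Ioo]
    exact h3 0 m hm _ Set.inter_subset_right (measure_mono_null Set.inter_subset_left hN)

theorem ioo_eq (b : ℝ) : Set.Ioo (-b) b = {E : ℝ | |E| < b} := by
  ext E
  exact abs_lt.symm

/-- THE PHASE DIAGRAM (absolutely continuous spectrum), literal definitions -/
theorem asmAC (hf : Pool.Agent.ANE.FinStmt.{u}) (hac : AcsStmt) (saj : SajStmt) (exm : ExmStmt)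
    (unm : UnmStmt) (ppt : PptStmt) (ppc : PpcStmt) (spr : SprStmt)
    (d : ℕ) (hd : 3 ≤ d) :
    (∀ V : Site d → ℝ, IsSelfAdjoint (ham V) ∧
      ∀ u : L2 d, ∃! μ : Measure ℝ, IsSpectralMeasure (ham V) u μ) ∧
    ∃ (σc : ℝ) (E₀ : ℝ → ℝ), 0 < σc ∧
    (∀ σ : ℝ, σ ≠ 0 → Almost.{u} d σ fun V =>
      spectrumOf (ham V) = Set.range ((↑) : ℝ → ℂ)) ∧
    (∀ σ : ℝ, σc < |σ| → Almost.{u} d σ fun V =>
      LocalizedIn V Set.univ ∧
        closure {E : ℝ | ∃ u : L2 d, IsEigenvector (ham V) E u} = Set.univ) ∧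
    (∀ σ : ℝ, σ ≠ 0 → 0 ≤ E₀ σ ∧ (Almost.{u} d σ fun V => LocalizedIn V {E | E₀ σ ≤ |E|}) ∧
      ∀ e : ℝ, 0 ≤ e → e < E₀ σ → Almost.{u} d σ fun V => ¬ LocalizedIn V {E | e < |E|}) ∧
    (∀ s : ℝ, s < σc → ∃ σ : ℝ, s < |σ| ∧ |σ| ≤ σc ∧ 0 < E₀ σ) ∧
    (∀ a : ℝ, 0 < a → ∃ s : ℝ, 0 < s ∧ ∀ σ : ℝ, σ ≠ 0 → |σ| ≤ s →
      2 * d - a ≤ E₀ σ ∧ Almost.{u} d σ fun V =>
        PurelyACIn (ham V) {E | |E| < 2 * d - a} ∧
        ∀ (E : ℝ) (u : L2 d), |E| < 2 * d - a → ¬ IsEigenvector (ham V) E u) ∧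
    ∃ c C : ℝ, 0 < c ∧ 0 < C ∧ ∀ σ : ℝ, σ ≠ 0 → |σ| ≤ c →
      E₀ σ ≤ 2 * d + latticeGreen d * σ ^ 2 + C * |σ| ^ (2 + 1 / (24 * d : ℝ)) := by
  refine ⟨fun V => well_posed saj exm unm d V, ?_⟩
  obtain ⟨σc, E₀, h0, h1, h2, h3, h4, h5⟩ := Pool.Agent.EXT.H54.edge hf d hd
  refine ⟨σc, E₀, h0, fun σ hσ => ?_, fun σ hσ => ?_, fun σ hσ => ?_, h2, fun a ha => ?_, ?_⟩
  · intro Ω _ P _ ξ hm hlaw hind
    filter_upwards [(h3 σ hσ).2.1 Ω P ξ hm hlaw hind] with ω hω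
    exact spr d _ hω.2.1
  · intro Ω _ P _ ξ hm hlaw hind
    filter_upwards [h1 σ hσ Ω P ξ hm hlaw hind] with ω hω
    exact ⟨localized_of ppt isOpen_univ (Set.subset_univ _) (by simp) hω.1,
      closure_eigenvalues hω.2.2⟩
  · obtain ⟨g1, g2, g3⟩ := h3 σ hσ
    refine ⟨g1, ?_, fun e he hlt => ?_⟩
    · intro Ω _ P _ ξ hm hlaw hind
      filter_upwards [g2 Ω P ξ hm hlaw hind] with ω hω
      refine localized_of ppt (O := {E : ℝ | E₀ σ < |E|}) (isOpen_lt continuous_const continuous_abs)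
        (fun E (hE : E₀ σ < |E|) => hE.le) ?_ hω.1
      refine Set.Countable.mono (s₂ := {E₀ σ, -E₀ σ}) ?_ (Set.to_countable _)
      rintro E ⟨h6, h7⟩
      have h6' : E₀ σ ≤ |E| := h6
      have h7' : ¬ E₀ σ < |E| := h7
      rcases (abs_eq g1).1 (le_antisymm (not_lt.1 h7') h6') with h8 | h8
      · exact Or.inl h8
      · exact Or.inr h8
    · intro Ω _ P _ ξ hm hlaw hind
      filter_upwards [g3 e he hlt Ω P ξ hm hlaw hind] with ω hω hcon
      exact hω (locIn_of ppc hcon)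
  · obtain ⟨s, hs, g⟩ := h4 a ha
    obtain ⟨s', hs', g'⟩ := hac d a hd ha
    refine ⟨min s s', lt_min hs hs', fun σ hσ hσs => ?_⟩
    have hσ1 := hσs.trans (min_le_left s s')
    have hσ2 := hσs.trans (min_le_right s s')
    refine ⟨(g σ hσ hσ1).1, ?_⟩
    have g2 : Pool.Agent.EXT.H54.Almost.{u} d σ fun V =>
        Pool.Agent.ACE.ACIn V (-(2 * d - a)) (2 * d - a) :=
      Pool.Agent.EXT.H54.almost_of_PP (g' σ hσ hσ2)
    intro Ω _ P _ ξ hm hlaw hind
    filter_upwards [(g σ hσ hσ1).2 Ω P ξ hm hlaw hind, g2 Ω P ξ hm hlaw hind] with ω h6 h7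
    refine ⟨?_, fun E u hE hu => ?_⟩
    · rw [← ioo_eq]
      exact purelyAC_of h7
    · exact (eigenvector_iff.1 hu).1 (h6 E hE u (eigenvector_iff.1 hu).2)
  · rw [latticeGreen_eq]
    exact h5

end Pool.Agent.SPX.H54
end
end -- Pool.Agent.Helper54_SPX.AsmAC
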