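import Pool.Agent.Helper12_MEB.B147

/-!
# Merged copies (generated) of the modules

* `Pool.Agent.Helper41_SPX.Poi`
* `Pool.Agent.Helper41_SPX.Poi2`
* `Pool.Agent.Helper41_SPX.OPN`
* `Pool.Agent.Helper41_SPX.UNM`
-/

set_option autoImplicit false

section -- Pool.Agent.Helper41_SPX.Poi

/-!
# The Poisson kernel: Stieltjes inversion, and limits
-/

set_option autoImplicit false

open MeasureTheory ProbabilityTheory Filter

open scoped ENNReal Topology

noncomputable section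

namespace Pool.Agent.SPX.H41

/-! ### Stieltjes inversion -/

theorem im_inv (t E η : ℝ) : ((((t : ℝ) : ℂ) - ⟨E, η⟩)⁻¹).im = η / ((t - E) ^ 2 + η ^ 2) := by
  rw [Complex.inv_im, Complex.normSq_apply]
  simp only [Complex.sub_im, Complex.ofReal_im, Complex.sub_re, Complex.ofReal_re]
  ring

theorem cont_inv {E η : ℝ} (hη : 0 < η) : Continuous fun t : ℝ => (((t : ℝ) : ℂ) - ⟨E, η⟩)⁻¹ := by
  refine Continuous.inv₀ (by fun_prop) fun t h => ?_
  have := congrArg Complex.im h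
  simp at this
  exact hη.ne' this

theorem norm_inv_le {E η : ℝ} (hη : 0 < η) (t : ℝ) : ‖(((t : ℝ) : ℂ) - ⟨E, η⟩)⁻¹‖ ≤ η⁻¹ := by
  rw [norm_inv]
  refine inv_anti₀ hη ?_
  have h := Complex.abs_im_le_norm (((t : ℝ) : ℂ) - ⟨E, η⟩)
  simp only [Complex.sub_im, Complex.ofReal_im, zero_sub, abs_neg, abs_of_pos hη] at h
  exact h

theorem im_int (μ : Measure ℝ) [IsFiniteMeasure μ] {E η : ℝ} (hη : 0 < η) :
    (∫ t : ℝ, (((t : ℝ) : ℂ) - ⟨E, η⟩)⁻¹ ∂μ).im = ∫ t : ℝ, η / ((t - E) ^ 2 + η ^ 2) ∂μ := by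
  have hint : Integrable (fun t : ℝ => (((t : ℝ) : ℂ) - ⟨E, η⟩)⁻¹) μ :=
    Integrable.of_bound (cont_inv hη).aestronglyMeasurable η⁻¹
      (Eventually.of_forall fun t => norm_inv_le hη t)
  have h := Complex.imCLM.integral_comp_comm hint
  simp only [Complex.imCLM_apply] at h
  rw [← h]
  exact integral_congr_ae (Eventually.of_forall fun t => im_inv t E η)

/-- the Poisson integral -/
def Ph (f : ℝ → ℝ) (η t : ℝ) : ℝ := ∫ y : ℝ, f (η * y + t) * (1 + y ^ 2)⁻¹

theorem sub_eq (f : ℝ → ℝ) {η : ℝ} (hη : 0 < η) (t : ℝ) :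
    ∫ E : ℝ, f E * (η / ((t - E) ^ 2 + η ^ 2)) = Ph f η t := by
  have h1 : ∫ E : ℝ, f E * (η / ((t - E) ^ 2 + η ^ 2)) =
      ∫ x : ℝ, f (x + t) * (η / (x ^ 2 + η ^ 2)) := by
    rw [← integral_add_right_eq_self (fun E => f E * (η / ((t - E) ^ 2 + η ^ 2))) t]
    refine integral_congr_ae (Eventually.of_forall fun x => ?_)
    show f (x + t) * (η / ((t - (x + t)) ^ 2 + η ^ 2)) = f (x + t) * (η / (x ^ 2 + η ^ 2))
    congr 3
    ring
  have h2 := Measure.integral_comp_div (fun y : ℝ => f (η * y + t) * (1 + y ^ 2)⁻¹) η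
  rw [abs_of_pos hη, smul_eq_mul] at h2
  have h3 : ∫ x : ℝ, f (x + t) * (η / (x ^ 2 + η ^ 2)) =
      η⁻¹ * ∫ x : ℝ, f (η * (x / η) + t) * (1 + (x / η) ^ 2)⁻¹ := by
    rw [← integral_const_mul]
    refine integral_congr_ae (Eventually.of_forall fun x => ?_)
    show f (x + t) * (η / (x ^ 2 + η ^ 2)) =
      η⁻¹ * (f (η * (x / η) + t) * (1 + (x / η) ^ 2)⁻¹)
    have e1 : η * (x / η) = x := by field_simp
    rw [e1]
    have e2 : η / (x ^ 2 + η ^ 2) = η⁻¹ * (1 + (x / η) ^ 2)⁻¹ := by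
      field_simp
      ring
    rw [e2]
    ring
  rw [h1, h3, h2, ← mul_assoc, inv_mul_cancel₀ hη.ne', one_mul]
  rfl

theorem pos_den {η : ℝ} (hη : 0 < η) (x : ℝ) : 0 < x ^ 2 + η ^ 2 := by positivity

theorem fub {f : ℝ → ℝ} (hf : Continuous f) {B : ℝ} (hB : ∀ x, |f x| ≤ B) (μ : Measure ℝ)
    [IsFiniteMeasure μ] {η : ℝ} (hη : 0 < η) :
    ∫ t, Ph f η t ∂μ = ∫ E : ℝ, f E * ∫ t, η / ((t - E) ^ 2 + η ^ 2) ∂μ := by
  have hB0 : 0 ≤ B := (abs_nonneg _).trans (hB 0)
  have hcont : Continuous (Function.uncurry fun t E : ℝ => f E * (η / ((t - E) ^ 2 + η ^ 2))) := by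
    have : Continuous fun p : ℝ × ℝ => f p.2 * (η / ((p.1 - p.2) ^ 2 + η ^ 2)) := by
      refine (hf.comp continuous_snd).mul (Continuous.div (by fun_prop) (by fun_prop) fun p => ?_)
      exact (pos_den hη _).ne'
    exact this
  have hbase : ∀ t : ℝ, Integrable fun E : ℝ => η / ((t - E) ^ 2 + η ^ 2) := by
    intro t
    have h1 : Integrable fun x : ℝ => (1 + x ^ 2)⁻¹ := integrable_inv_one_add_sq
    have h2 : Integrable fun x : ℝ => (1 + (x / η) ^ 2)⁻¹ := h1.comp_div hη.ne'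
    have h3 : Integrable fun E : ℝ => (1 + ((E - t) / η) ^ 2)⁻¹ := h2.comp_sub_right t
    refine (h3.const_mul η⁻¹).congr (Eventually.of_forall fun E => ?_)
    show η⁻¹ * (1 + ((E - t) / η) ^ 2)⁻¹ = η / ((t - E) ^ 2 + η ^ 2)
    field_simp
    ring
  have hval : ∀ t : ℝ, ∫ E : ℝ, η / ((t - E) ^ 2 + η ^ 2) = Real.pi := by
    intro t
    have h := sub_eq (fun _ => 1) hη t
    simp only [one_mul] at h
    rw [h]
    unfold Ph
    simp only [one_mul]
    exact integral_univ_inv_one_add_sq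
  have hint : Integrable (Function.uncurry fun t E : ℝ => f E * (η / ((t - E) ^ 2 + η ^ 2)))
      (μ.prod volume) := by
    rw [integrable_prod_iff hcont.aestronglyMeasurable]
    have hle : ∀ t E : ℝ, ‖f E * (η / ((t - E) ^ 2 + η ^ 2))‖ ≤ B * (η / ((t - E) ^ 2 + η ^ 2)) := by
      intro t E
      rw [norm_mul, Real.norm_eq_abs, Real.norm_eq_abs,
        abs_of_nonneg (div_nonneg hη.le (pos_den hη _).le)]
      exact mul_le_mul_of_nonneg_right (hB E) (div_nonneg hη.le (pos_den hη _).le)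
    have hsl : ∀ t : ℝ, Integrable fun E : ℝ => f E * (η / ((t - E) ^ 2 + η ^ 2)) := fun t =>
      ((hbase t).const_mul B).mono'
        (hcont.comp (Continuous.prodMk_right t)).aestronglyMeasurable
        (Eventually.of_forall fun E => hle t E)
    refine ⟨Eventually.of_forall hsl, ?_⟩
    refine Integrable.of_bound (C := B * Real.pi) ?_ (Eventually.of_forall fun t => ?_)
    · exact (hcont.norm.stronglyMeasurable.integral_prod_right (ν := volume)).aestronglyMeasurable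
    · rw [Real.norm_eq_abs, abs_of_nonneg (integral_nonneg fun E => norm_nonneg _)]
      calc ∫ E : ℝ, ‖f E * (η / ((t - E) ^ 2 + η ^ 2))‖
          ≤ ∫ E : ℝ, B * (η / ((t - E) ^ 2 + η ^ 2)) :=
            integral_mono (hsl t).norm ((hbase t).const_mul B) (hle t)
        _ = B * Real.pi := by rw [integral_const_mul, hval]
  have h1 := integral_integral_swap hint
  calc ∫ t, Ph f η t ∂μ = ∫ t, (∫ E : ℝ, f E * (η / ((t - E) ^ 2 + η ^ 2))) ∂μ :=
        integral_congr_ae (Eventually.of_forall fun t => (sub_eq f hη t).symm)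
    _ = ∫ E : ℝ, (∫ t, f E * (η / ((t - E) ^ 2 + η ^ 2)) ∂μ) := h1
    _ = _ := integral_congr_ae (Eventually.of_forall fun E => integral_const_mul _ _)

theorem lim_in {f : ℝ → ℝ} (hf : Continuous f) {B : ℝ} (hB : ∀ x, |f x| ≤ B) (t : ℝ)
    {e : ℕ → ℝ} (he : Tendsto e atTop (𝓝 0)) :
    Tendsto (fun n => Ph f (e n) t) atTop (𝓝 (f t * Real.pi)) := by
  have h1 : f t * Real.pi = ∫ y : ℝ, f t * (1 + y ^ 2)⁻¹ := by
    rw [integral_const_mul, integral_univ_inv_one_add_sq]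
  rw [h1]
  unfold Ph
  refine tendsto_integral_of_dominated_convergence (fun y => B * (1 + y ^ 2)⁻¹) ?_
    (integrable_inv_one_add_sq.const_mul B) ?_ ?_
  · intro n
    refine Continuous.aestronglyMeasurable ?_
    refine (hf.comp (by fun_prop)).mul (Continuous.inv₀ (by fun_prop) fun y => ?_)
    positivity
  · intro n
    refine Eventually.of_forall fun y => ?_
    have h0 : (0 : ℝ) ≤ (1 + y ^ 2)⁻¹ := by positivity
    rw [norm_mul, Real.norm_eq_abs, Real.norm_eq_abs, abs_of_nonneg h0]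
    exact mul_le_mul_of_nonneg_right (hB _) h0
  · refine Eventually.of_forall fun y => ?_
    refine Tendsto.mul_const _ ?_
    have h2 : Tendsto (fun n => e n * y + t) atTop (𝓝 t) := by
      have := (he.mul_const y).add_const t
      rwa [zero_mul, zero_add] at this
    exact (hf.tendsto t).comp h2

theorem lim_out {f : ℝ → ℝ} (hf : Continuous f) {B : ℝ} (hB : ∀ x, |f x| ≤ B) (μ : Measure ℝ)
    [IsFiniteMeasure μ] {e : ℕ → ℝ} (he : Tendsto e atTop (𝓝 0)) :
    Tendsto (fun n => ∫ t, Ph f (e n) t ∂μ) atTop (𝓝 (∫ t, f t * Real.pi ∂μ)) := by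
  refine tendsto_integral_of_dominated_convergence (fun _ => B * Real.pi) ?_
    (integrable_const _) ?_ ?_
  · intro n
    have hc : Continuous (Function.uncurry fun t y : ℝ => f (e n * y + t) * (1 + y ^ 2)⁻¹) := by
      have : Continuous fun p : ℝ × ℝ => f (e n * p.2 + p.1) * (1 + p.2 ^ 2)⁻¹ := by
        refine (hf.comp (by fun_prop)).mul (Continuous.inv₀ (by fun_prop) fun y => ?_)
        positivity
      exact this
    exact (hc.stronglyMeasurable.integral_prod_right (ν := volume)).aestronglyMeasurable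
  · intro n
    refine Eventually.of_forall fun t => ?_
    unfold Ph
    refine (norm_integral_le_integral_norm _).trans ?_
    have h0 : ∀ y : ℝ, (0 : ℝ) ≤ (1 + y ^ 2)⁻¹ := fun y => by positivity
    calc ∫ y : ℝ, ‖f (e n * y + t) * (1 + y ^ 2)⁻¹‖ ≤ ∫ y : ℝ, B * (1 + y ^ 2)⁻¹ := by
          refine integral_mono_of_nonneg (Eventually.of_forall fun y => norm_nonneg _)
            (integrable_inv_one_add_sq.const_mul B) (Eventually.of_forall fun y => ?_)
          show ‖f (e n * y + t) * (1 + y ^ 2)⁻¹‖ ≤ B * (1 + y ^ 2)⁻¹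
          rw [norm_mul, Real.norm_eq_abs, Real.norm_eq_abs, abs_of_nonneg (h0 y)]
          exact mul_le_mul_of_nonneg_right (hB _) (h0 y)
      _ = B * Real.pi := by rw [integral_const_mul, integral_univ_inv_one_add_sq]
  · exact Eventually.of_forall fun t => lim_in hf hB t he

theorem stieltjes {μ ν : Measure ℝ} [IsFiniteMeasure μ] [IsFiniteMeasure ν]
    (h : ∀ z : ℂ, z.im ≠ 0 → ∫ E : ℝ, ((E : ℂ) - z)⁻¹ ∂μ = ∫ E : ℝ, ((E : ℂ) - z)⁻¹ ∂ν) :
    μ = ν := by
  refine ext_of_forall_integral_eq_of_IsFiniteMeasure fun f => ?_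
  have hf : Continuous f := f.continuous
  have hB : ∀ x, |f x| ≤ ‖f‖ := fun x => f.norm_coe_le_norm x
  have h1 : ∀ η : ℝ, 0 < η → ∫ t, Ph f η t ∂μ = ∫ t, Ph f η t ∂ν := by
    intro η hη
    rw [fub hf hB μ hη, fub hf hB ν hη]
    refine integral_congr_ae (Eventually.of_forall fun E => ?_)
    show f E * ∫ t, η / ((t - E) ^ 2 + η ^ 2) ∂μ = f E * ∫ t, η / ((t - E) ^ 2 + η ^ 2) ∂ν
    rw [← im_int μ hη, ← im_int ν hη, h ⟨E, η⟩ hη.ne']
  have he : Tendsto (fun n : ℕ => 1 / ((n : ℝ) + 1)) atTop (𝓝 0) :=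
    tendsto_one_div_add_atTop_nhds_zero_nat
  have h2 := lim_out hf hB μ he
  have h3 := lim_out hf hB ν he
  have h4 : (fun n : ℕ => ∫ t, Ph f (1 / ((n : ℝ) + 1)) t ∂μ) =
      fun n : ℕ => ∫ t, Ph f (1 / ((n : ℝ) + 1)) t ∂ν := by
    funext n
    exact h1 _ (by positivity)
  rw [h4] at h2
  have h5 := tendsto_nhds_unique h2 h3
  rw [integral_mul_const, integral_mul_const] at h5
  exact mul_right_cancel₀ Real.pi_ne_zero h5

end Pool.Agent.SPX.H41
end
end -- Pool.Agent.Helper41_SPX.Poi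

section -- Pool.Agent.Helper41_SPX.Poi2

/-!
# The Poisson kernel: open sets and closed sets
-/

set_option autoImplicit false

open MeasureTheory ProbabilityTheory Filter

open scoped ENNReal Topology

noncomputable section

namespace Pool.Agent.SPX.H41

/-- the Poisson kernel -/
def pk (η t E : ℝ) : ℝ := η / Real.pi / ((E - t) ^ 2 + η ^ 2)

theorem pk_nonneg {η : ℝ} (hη : 0 < η) (t E : ℝ) : 0 ≤ pk η t E := by
  unfold pk
  have := Real.pi_pos
  positivity

theorem pk_cont {η : ℝ} (hη : 0 < η) (t : ℝ) : Continuous fun E => pk η t E := by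
  unfold pk
  exact Continuous.div (by fun_prop) (by fun_prop) fun E => (pos_den hη _).ne'

theorem pk_int {η : ℝ} (hη : 0 < η) (t : ℝ) : Integrable fun E => pk η t E := by
  have h1 : Integrable fun x : ℝ => (1 + x ^ 2)⁻¹ := integrable_inv_one_add_sq
  have h2 : Integrable fun x : ℝ => (1 + (x / η) ^ 2)⁻¹ := h1.comp_div hη.ne'
  have h3 : Integrable fun E : ℝ => (1 + ((E - t) / η) ^ 2)⁻¹ := h2.comp_sub_right t
  refine (h3.const_mul (η⁻¹ / Real.pi)).congr (Eventually.of_forall fun E => ?_)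
  show η⁻¹ / Real.pi * (1 + ((E - t) / η) ^ 2)⁻¹ = η / Real.pi / ((E - t) ^ 2 + η ^ 2)
  have := Real.pi_pos
  field_simp
  ring

theorem pk_val {η : ℝ} (hη : 0 < η) (t : ℝ) : ∫ E, pk η t E = 1 := by
  have h := sub_eq (fun _ => 1) hη t
  simp only [one_mul] at h
  unfold Ph at h
  simp only [one_mul] at h
  rw [integral_univ_inv_one_add_sq] at h
  have h2 : (fun E => pk η t E) = fun E => Real.pi⁻¹ * (η / ((t - E) ^ 2 + η ^ 2)) := by
    funext E
    unfold pk
    have e : (E - t) ^ 2 = (t - E) ^ 2 := by ring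
    rw [e]
    ring
  rw [h2, integral_const_mul, h, inv_mul_cancel₀ Real.pi_ne_zero]

theorem pk_univ {η : ℝ} (hη : 0 < η) (t : ℝ) : ∫⁻ E, ENNReal.ofReal (pk η t E) = 1 := by
  rw [← ofReal_integral_eq_lintegral_ofReal (pk_int hη t)
    (Eventually.of_forall fun E => pk_nonneg hη t E), pk_val hη, ENNReal.ofReal_one]

/-- far from `t` -/
theorem pk_far {η s : ℝ} (hη : 0 < η) (hs : 0 < s) (t : ℝ) {A : Set ℝ} (hA : MeasurableSet A)
    (hd : ∀ E ∈ A, s ≤ |E - t|) :
    ∫⁻ E in A, ENNReal.ofReal (pk η t E) ≤ ENNReal.ofReal (η * (1 + 1 / s ^ 2)) := by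
  have h1 : Integrable fun x : ℝ => (1 + x ^ 2)⁻¹ := integrable_inv_one_add_sq
  have h2 : Integrable fun E : ℝ => (1 + (E - t) ^ 2)⁻¹ := h1.comp_sub_right t
  have hpi := Real.pi_pos
  have h3 : ∫⁻ E in A, ENNReal.ofReal (pk η t E) ≤
      ∫⁻ E in A, ENNReal.ofReal (η / Real.pi * (1 + 1 / s ^ 2) * (1 + (E - t) ^ 2)⁻¹) := by
    refine setLIntegral_mono' hA fun E hE => ENNReal.ofReal_le_ofReal ?_
    have h4 := hd E hE
    have h5 : s ^ 2 ≤ (E - t) ^ 2 := by
      rw [← sq_abs (E - t)]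
      exact pow_le_pow_left₀ hs.le h4 2
    have hx : 0 < (E - t) ^ 2 := lt_of_lt_of_le (by positivity) h5
    unfold pk
    have h6 : η / Real.pi / ((E - t) ^ 2 + η ^ 2) ≤ η / Real.pi / (E - t) ^ 2 :=
      div_le_div_of_nonneg_left (by positivity) hx (by nlinarith only [sq_nonneg η])
    refine h6.trans ?_
    have h7 : 1 / (E - t) ^ 2 ≤ (1 + 1 / s ^ 2) * (1 + (E - t) ^ 2)⁻¹ := by
      rw [← div_eq_mul_inv, div_le_div_iff₀ hx (by positivity)]
      have h8 : 1 ≤ 1 / s ^ 2 * (E - t) ^ 2 := by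
        rw [one_div, ← div_eq_inv_mul, le_div_iff₀ (by positivity)]
        linarith only [h5]
      linarith only [h8]
    calc η / Real.pi / (E - t) ^ 2 = η / Real.pi * (1 / (E - t) ^ 2) := by ring
      _ ≤ η / Real.pi * ((1 + 1 / s ^ 2) * (1 + (E - t) ^ 2)⁻¹) :=
          mul_le_mul_of_nonneg_left h7 (by positivity)
      _ = _ := by ring
  refine h3.trans ((setLIntegral_le_lintegral A _).trans ?_)
  rw [← ofReal_integral_eq_lintegral_ofReal (h2.const_mul _)
    (Eventually.of_forall fun E => by positivity)]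
  refine ENNReal.ofReal_le_ofReal (le_of_eq ?_)
  rw [integral_const_mul, integral_sub_right_eq_self (fun x : ℝ => (1 + x ^ 2)⁻¹) t,
    integral_univ_inv_one_add_sq]
  field_simp

theorem pk_le_one {η : ℝ} (hη : 0 < η) (t : ℝ) (A : Set ℝ) :
    ∫⁻ E in A, ENNReal.ofReal (pk η t E) ≤ 1 :=
  (setLIntegral_le_lintegral A _).trans (pk_univ hη t).le

theorem far_lim (c : ℝ) : Tendsto (fun η : ℝ => ENNReal.ofReal (η * c)) (𝓝[>] 0) (𝓝 0) := by
  have h : Tendsto (fun η : ℝ => η * c) (𝓝[>] 0) (𝓝 (0 * c)) :=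
    (tendsto_id.mono_left nhdsWithin_le_nhds).mul_const c
  rw [zero_mul] at h
  have := ENNReal.tendsto_ofReal h
  rwa [ENNReal.ofReal_zero] at this

/-- a point outside of a closed set -/
theorem lim_closed {S : Set ℝ} (hS : IsClosed S) {t : ℝ} (ht : t ∉ S) :
    Tendsto (fun η : ℝ => ∫⁻ E in S, ENNReal.ofReal (pk η t E)) (𝓝[>] 0) (𝓝 0) := by
  obtain ⟨s, hs, hb⟩ := Metric.isOpen_iff.1 hS.isOpen_compl t ht
  refine tendsto_of_tendsto_of_tendsto_of_le_of_le' tendsto_const_nhds (far_lim (1 + 1 / s ^ 2))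
    (Eventually.of_forall fun η => zero_le) ?_
  filter_upwards [self_mem_nhdsWithin] with η hη
  refine pk_far hη hs t hS.measurableSet fun E hE => ?_
  by_contra hlt
  push Not at hlt
  exact hb (by rw [Metric.mem_ball, Real.dist_eq]; exact hlt) hE

/-- a point of an open set -/
theorem lim_open {S : Set ℝ} (hS : IsOpen S) {t : ℝ} (ht : t ∈ S) :
    Tendsto (fun η : ℝ => ∫⁻ E in S, ENNReal.ofReal (pk η t E)) (𝓝[>] 0) (𝓝 1) := by
  have h1 := lim_closed hS.isClosed_compl (t := t) (fun h => h ht)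
  have h2 : Tendsto (fun η : ℝ => 1 - ∫⁻ E in Sᶜ, ENNReal.ofReal (pk η t E)) (𝓝[>] 0)
      (𝓝 (1 - 0)) := ENNReal.Tendsto.sub tendsto_const_nhds h1 (Or.inl ENNReal.one_ne_top)
  rw [tsub_zero] at h2
  refine h2.congr' ?_
  filter_upwards [self_mem_nhdsWithin] with η hη
  have h3 := lintegral_add_compl (fun E => ENNReal.ofReal (pk η t E)) hS.measurableSet
    (μ := volume)
  rw [pk_univ hη t] at h3
  rw [← h3]
  refine ENNReal.add_sub_cancel_right ?_
  exact ((pk_le_one hη t Sᶜ).trans_lt ENNReal.one_lt_top).ne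

theorem meas_in (η : ℝ) (S : Set ℝ) :
    Measurable fun t : ℝ => ∫⁻ E in S, ENNReal.ofReal (pk η t E) := by
  have h : Measurable (Function.uncurry fun t E : ℝ => ENNReal.ofReal (pk η t E)) := by
    have : Measurable fun p : ℝ × ℝ => ENNReal.ofReal (pk η p.1 p.2) := by
      unfold pk
      fun_prop
    exact this
  exact h.lintegral_prod_right' (ν := volume.restrict S)

/-- (1) open sets -/
theorem opn1 (μ : Measure ℝ) {S : Set ℝ} (hS : IsOpen S) {ε : ℝ≥0∞}
    (h : ∃ᶠ η in 𝓝[>] (0 : ℝ), ∫⁻ t, (∫⁻ E in S, ENNReal.ofReal (pk η t E)) ∂μ ≤ ε) :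
    μ S ≤ ε := by
  obtain ⟨e, he, hle⟩ := exists_seq_forall_of_frequently h
  have h1 : μ S ≤ ∫⁻ t, liminf (fun n => ∫⁻ E in S, ENNReal.ofReal (pk (e n) t E)) atTop ∂μ := by
    rw [← lintegral_indicator_one hS.measurableSet]
    refine lintegral_mono fun t => ?_
    by_cases ht : t ∈ S
    · rw [Set.indicator_of_mem ht]
      have h2 := (lim_open hS ht).comp he
      have h3 : liminf (fun n => ∫⁻ E in S, ENNReal.ofReal (pk (e n) t E)) atTop = 1 :=
        h2.liminf_eq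
      rw [h3]
      exact le_refl (1 : ℝ≥0∞)
    · rw [Set.indicator_of_notMem ht]
      exact zero_le
  refine h1.trans ((lintegral_liminf_le fun n => meas_in (e n) S).trans ?_)
  refine (liminf_le_liminf (Eventually.of_forall hle)).trans ?_
  rw [liminf_const]

/-- (2) closed sets -/
theorem opn2 (μ : Measure ℝ) [IsFiniteMeasure μ] {S : Set ℝ} (hS : IsClosed S) (h0 : μ S = 0) :
    Tendsto (fun η : ℝ => ∫⁻ t, (∫⁻ E in S, ENNReal.ofReal (pk η t E)) ∂μ) (𝓝[>] 0) (𝓝 0) := by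
  have h1 : (0 : ℝ≥0∞) = ∫⁻ _, (0 : ℝ≥0∞) ∂μ := by rw [lintegral_zero]
  rw [h1]
  refine tendsto_lintegral_filter_of_dominated_convergence (fun _ => 1)
    (Eventually.of_forall fun η => meas_in η S) ?_ ?_ ?_
  · filter_upwards [self_mem_nhdsWithin] with η hη
    exact Eventually.of_forall fun t => pk_le_one hη t S
  · rw [lintegral_const, one_mul]
    exact measure_ne_top μ _
  · have h2 : ∀ᵐ t ∂μ, t ∉ S := by
      rw [ae_iff]
      simpa using h0
    filter_upwards [h2] with t ht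
    exact lim_closed hS ht

end Pool.Agent.SPX.H41
end
end -- Pool.Agent.Helper41_SPX.Poi2

section -- Pool.Agent.Helper41_SPX.OPN

/-!
# SPX, row OPN
-/

set_option autoImplicit false

open MeasureTheory Filter

open scoped ENNReal Topology

namespace Pool.Agent.SPX.H41

theorem opn (hW : WtbStmt) : OpnStmt := by
  intro d V u μ S hS
  haveI : IsFiniteMeasure μ := hS.1
  refine ⟨fun ε hO hfr => ?_, fun hC h0 => ?_⟩
  · refine opn1 μ hO ((hfr.and_eventually self_mem_nhdsWithin).mono fun η h => ?_)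
    obtain ⟨h1, h2⟩ := h
    rw [hW d V u μ S η hS h2 hO.measurableSet] at h1
    exact h1
  · refine (opn2 μ hC h0).congr' ?_
    filter_upwards [self_mem_nhdsWithin] with η hη
    exact (hW d V u μ S η hS hη hC.measurableSet).symm

end Pool.Agent.SPX.H41
end -- Pool.Agent.Helper41_SPX.OPN

section -- Pool.Agent.Helper41_SPX.UNM

/-!
# SPX, row UNM
-/

set_option autoImplicit false

namespace Pool.Agent.SPX.H41

theorem unm : UnmStmt := by
  intro μ ν hμ hν h
  haveI := hμ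
  haveI := hν
  exact stieltjes h

end Pool.Agent.SPX.H41
end -- Pool.Agent.Helper41_SPX.UNM
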