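import Pool.Agent.Helper12_MEB.B148
import Pool.Agent.Helper12_MEB.B149

/-!
# Merged copies (generated) of the modules

* `Pool.Agent.Helper67_SPX.Atm`
* `Pool.Agent.Helper68_SPX.Par`
* `Pool.Agent.Helper89_SPX.Nzr`
* `Pool.Agent.Helper89_SPX.Saj`
* `Pool.Agent.Helper89_SPX.Wtb`
* `Pool.Agent.Helper54_SPX.All`
* `Pool.Agent.Helper54_SPX.Graph`
-/

set_option autoImplicit false

section -- Pool.Agent.Helper67_SPX.Atm

/-!
# Row ATM of table spx: an atom of a spectral measure is an eigenvalue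
-/

set_option autoImplicit false

open MeasureTheory ProbabilityTheory Filter

open scoped InnerProductSpace ENNReal Topology ComplexConjugate

noncomputable section

namespace Pool.Agent.SPX.H67

open Pool.Agent.Anderson Pool.Agent.Loc Pool.Agent.Helper54.Bal

variable {d : ℕ}

/-- the spectral parameter -/
def zn (E : ℝ) (n : ℕ) : ℂ := ⟨E, 1 / ((n : ℝ) + 1)⟩

/-- the approximations of the projection -/
def fn (V : Site d → ℝ) (E : ℝ) (u : L2 d) (n : ℕ) : L2 d :=
  (-(Complex.I * ((1 / ((n : ℝ) + 1) : ℝ) : ℂ))) • G V (zn E n) u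

/-- the same functions on the spectral side -/
def ph (E : ℝ) (n : ℕ) (t : ℝ) : ℂ :=
  -(Complex.I * ((1 / ((n : ℝ) + 1) : ℝ) : ℂ)) * ((t : ℂ) - zn E n)⁻¹

theorem eta_pos (n : ℕ) : (0 : ℝ) < 1 / ((n : ℝ) + 1) := by positivity

theorem zn_im (E : ℝ) (n : ℕ) : (zn E n).im = 1 / ((n : ℝ) + 1) := rfl

theorem zn_im_ne (E : ℝ) (n : ℕ) : (zn E n).im ≠ 0 := (eta_pos n).ne'

theorem sub_ne (E : ℝ) (n : ℕ) (t : ℝ) : (t : ℂ) - zn E n ≠ 0 := by
  intro h
  have := congrArg Complex.im h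
  rw [Complex.sub_im, Complex.ofReal_im, zn_im, Complex.zero_im] at this
  have := eta_pos n
  linarith

theorem sub_conj_ne (E : ℝ) (n : ℕ) (t : ℝ) : (t : ℂ) - conj (zn E n) ≠ 0 := by
  intro h
  have := congrArg Complex.im h
  rw [Complex.sub_im, Complex.ofReal_im, Complex.conj_im, zn_im, Complex.zero_im] at this
  have := eta_pos n
  linarith

theorem ph_meas (E : ℝ) (n : ℕ) : Measurable (ph E n) := by
  unfold ph
  fun_prop

theorem ph_norm (E : ℝ) (n : ℕ) (t : ℝ) : ‖ph E n t‖ ≤ 1 := by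
  unfold ph
  rw [norm_mul, norm_neg, norm_mul, Complex.norm_I, one_mul, Complex.norm_real, norm_inv,
    Real.norm_eq_abs, abs_of_pos (eta_pos n)]
  have h1 : 1 / ((n : ℝ) + 1) ≤ ‖(t : ℂ) - zn E n‖ := by
    have h2 := Complex.abs_im_le_norm ((t : ℂ) - zn E n)
    rw [Complex.sub_im, Complex.ofReal_im, zn_im, zero_sub, abs_neg, abs_of_pos (eta_pos n)] at h2
    exact h2
  have h2 : 0 < ‖(t : ℂ) - zn E n‖ := (eta_pos n).trans_le h1
  rw [← div_eq_mul_inv, div_le_one h2]
  exact h1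

/-- the limit of `ph` -/
def ph0 (E t : ℝ) : ℂ := if t = E then 1 else 0

theorem ph_tendsto (E t : ℝ) : Tendsto (fun n => ph E n t) atTop (𝓝 (ph0 E t)) := by
  have h0 : Tendsto (fun n : ℕ => ((1 / ((n : ℝ) + 1) : ℝ) : ℂ)) atTop (𝓝 ((0 : ℝ) : ℂ)) :=
    (Complex.continuous_ofReal.tendsto 0).comp tendsto_one_div_add_atTop_nhds_zero_nat
  have hz : ∀ n, zn E n = (E : ℂ) + ((1 / ((n : ℝ) + 1) : ℝ) : ℂ) * Complex.I := by
    intro n
    unfold zn
    rw [Complex.mk_eq_add_mul_I]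
  by_cases h : t = E
  · subst h
    have h1 : ∀ n, ph t n t = 1 := by
      intro n
      unfold ph
      have h3 : ((1 / ((n : ℝ) + 1) : ℝ) : ℂ) ≠ 0 := by
        exact_mod_cast (eta_pos n).ne'
      have h4 : (t : ℂ) - zn t n = -(Complex.I * ((1 / ((n : ℝ) + 1) : ℝ) : ℂ)) := by
        rw [hz n]
        ring
      rw [h4]
      exact mul_inv_cancel₀ (neg_ne_zero.2 (mul_ne_zero Complex.I_ne_zero h3))
    simp only [h1, ph0, if_true]
    exact tendsto_const_nhds
  · unfold ph0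
    rw [if_neg h]
    have hne : (t : ℂ) - (E : ℂ) ≠ 0 := by
      rw [sub_ne_zero]
      exact_mod_cast h
    have h1 : Tendsto (fun n : ℕ => (t : ℂ) - zn E n) atTop (𝓝 ((t : ℂ) - (E : ℂ))) := by
      have h2 : Tendsto (fun n : ℕ => (E : ℂ) + ((1 / ((n : ℝ) + 1) : ℝ) : ℂ) * Complex.I) atTop
          (𝓝 ((E : ℂ) + ((0 : ℝ) : ℂ) * Complex.I)) := (h0.mul_const _).const_add _
      have h3 : (E : ℂ) + ((0 : ℝ) : ℂ) * Complex.I = (E : ℂ) := by simp
      rw [h3] at h2
      simp only [hz]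
      exact h2.const_sub _
    have h2 := h1.inv₀ hne
    have h3 : Tendsto (fun n : ℕ => -(Complex.I * ((1 / ((n : ℝ) + 1) : ℝ) : ℂ))) atTop
        (𝓝 (-(Complex.I * ((0 : ℝ) : ℂ)))) := (h0.const_mul _).neg
    have h4 := h3.mul h2
    have h5 : -(Complex.I * ((0 : ℝ) : ℂ)) * ((t : ℂ) - (E : ℂ))⁻¹ = 0 := by simp
    rw [h5] at h4
    exact h4

theorem inner_fn {V : Site d → ℝ} {u : L2 d} {μ : Measure ℝ} (E : ℝ) (h : SpecM V u μ)
    (n m : ℕ) : ⟪fn V E u n, fn V E u m⟫_ℂ = ∫ t, conj (ph E n t) * ph E m t ∂μ := by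
  haveI := h.1
  have hn := zn_im_ne E n
  have hn' := conj_im_ne hn
  have hm := zn_im_ne E m
  have h1 : ⟪G V (zn E n) u, G V (zn E m) u⟫_ℂ = ⟪u, G V (conj (zn E n)) (G V (zn E m) u)⟫_ℂ :=
    (isRes_G V).adj _ hn _ _
  have h2 := (isRes_G V).ident_apply hn' hm u
  have h3 : ⟪u, G V (conj (zn E n)) u⟫_ℂ - ⟪u, G V (zn E m) u⟫_ℂ =
      (conj (zn E n) - zn E m) * ⟪u, G V (conj (zn E n)) (G V (zn E m) u)⟫_ℂ := by
    rw [← inner_sub_right, h2, inner_smul_right]
  have h4 : conj (zn E n) - zn E m ≠ 0 := by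
    intro h0
    have := congrArg Complex.im h0
    rw [Complex.sub_im, Complex.conj_im, zn_im, zn_im, Complex.zero_im] at this
    have := eta_pos n
    have := eta_pos m
    linarith
  have hint : ∀ z : ℂ, z.im ≠ 0 → Integrable (fun t : ℝ => ((t : ℂ) - z)⁻¹) μ := by
    intro z hz
    refine Integrable.of_bound (C := |z.im|⁻¹) (by fun_prop) (Eventually.of_forall fun t => ?_)
    rw [norm_inv]
    refine inv_anti₀ (abs_pos.2 hz) ?_
    have := Complex.abs_im_le_norm ((t : ℂ) - z)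
    rwa [Complex.sub_im, Complex.ofReal_im, zero_sub, abs_neg] at this
  have h5 : (conj (zn E n) - zn E m) * ⟪G V (zn E n) u, G V (zn E m) u⟫_ℂ =
      (conj (zn E n) - zn E m) *
        ∫ t : ℝ, ((t : ℂ) - conj (zn E n))⁻¹ * ((t : ℂ) - zn E m)⁻¹ ∂μ := by
    rw [h1, ← h3, h.2 _ hn', h.2 _ hm, ← integral_sub (hint _ hn') (hint _ hm),
      ← integral_const_mul]
    refine integral_congr_ae (Eventually.of_forall fun t => ?_)
    have a1 := sub_conj_ne E n t
    have a2 := sub_ne E m t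
    dsimp only
    field_simp
    ring
  have h6 := mul_left_cancel₀ h4 h5
  unfold fn
  rw [inner_smul_left, inner_smul_right, h6, ← integral_const_mul, ← integral_const_mul]
  refine integral_congr_ae (Eventually.of_forall fun t => ?_)
  unfold ph
  simp only [map_mul, map_neg, Complex.conj_ofReal, map_inv₀, map_sub]
  ring

theorem ph_int {μ : Measure ℝ} [IsFiniteMeasure μ] (E : ℝ) (n : ℕ) : Integrable (ph E n) μ :=
  Integrable.of_bound (C := 1) (ph_meas E n).aestronglyMeasurable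
    (Eventually.of_forall fun t => ph_norm E n t)

theorem ph_int2 {μ : Measure ℝ} [IsFiniteMeasure μ] (E : ℝ) (n m : ℕ) :
    Integrable (fun t => conj (ph E n t) * ph E m t) μ := by
  refine Integrable.of_bound (C := 1) ?_ (Eventually.of_forall fun t => ?_)
  · exact ((Complex.continuous_conj.measurable.comp (ph_meas E n)).mul
      (ph_meas E m)).aestronglyMeasurable
  · rw [norm_mul, Complex.norm_conj]
    have h1 := ph_norm E n t
    have h2 := ph_norm E m t
    have h3 := norm_nonneg (ph E n t)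
    have h4 := norm_nonneg (ph E m t)
    nlinarith

/-- the isometry -/
theorem norm_fn {V : Site d → ℝ} {u : L2 d} {μ : Measure ℝ} (E : ℝ) (h : SpecM V u μ)
    (n m : ℕ) : ‖fn V E u n - fn V E u m‖ ^ 2 = ∫ t, ‖ph E n t - ph E m t‖ ^ 2 ∂μ := by
  haveI := h.1
  have h1 : ((‖fn V E u n - fn V E u m‖ ^ 2 : ℝ) : ℂ) =
      ⟪fn V E u n - fn V E u m, fn V E u n - fn V E u m⟫_ℂ := by
    rw [inner_self_eq_norm_sq_to_K]
    push_cast
    rfl
  have h2 : ⟪fn V E u n - fn V E u m, fn V E u n - fn V E u m⟫_ℂ =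
      ∫ t, (((‖ph E n t - ph E m t‖ ^ 2 : ℝ)) : ℂ) ∂μ := by
    rw [inner_sub_left, inner_sub_right, inner_sub_right, inner_fn E h, inner_fn E h,
      inner_fn E h, inner_fn E h, ← integral_sub (ph_int2 E n n) (ph_int2 E n m),
      ← integral_sub (ph_int2 E m n) (ph_int2 E m m)]
    have h9 := integral_sub (μ := μ) ((ph_int2 E n n).sub (ph_int2 E n m))
      ((ph_int2 E m n).sub (ph_int2 E m m))
    simp only [Pi.sub_apply] at h9
    rw [← h9]
    refine integral_congr_ae (Eventually.of_forall fun t => ?_)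
    dsimp only
    have h3 : (((‖ph E n t - ph E m t‖ ^ 2 : ℝ)) : ℂ) =
        conj (ph E n t - ph E m t) * (ph E n t - ph E m t) := by
      rw [mul_comm, Complex.mul_conj, Complex.normSq_eq_norm_sq]
    rw [h3, map_sub]
    ring
  rw [← h1, integral_complex_ofReal] at h2
  exact_mod_cast h2

/-- the distance to the limit in `L²(μ)` -/
def bn (μ : Measure ℝ) (E : ℝ) (n : ℕ) : ℝ := ∫ t, ‖ph E n t - ph0 E t‖ ^ 2 ∂μ

theorem ph0_meas (E : ℝ) : Measurable (ph0 E) := by
  unfold ph0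
  exact Measurable.ite (measurableSet_singleton E) measurable_const measurable_const

theorem ph0_norm (E t : ℝ) : ‖ph0 E t‖ ≤ 1 := by
  unfold ph0
  split_ifs <;> simp

theorem df_bound (E : ℝ) (n : ℕ) (t : ℝ) : ‖‖ph E n t - ph0 E t‖ ^ 2‖ ≤ 4 := by
  rw [Real.norm_eq_abs, abs_of_nonneg (sq_nonneg _)]
  have h1 := norm_sub_le (ph E n t) (ph0 E t)
  have h2 := ph_norm E n t
  have h3 := ph0_norm E t
  have h4 := norm_nonneg (ph E n t - ph0 E t)
  nlinarith

theorem df_meas (E : ℝ) (n : ℕ) : Measurable fun t => ‖ph E n t - ph0 E t‖ ^ 2 :=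
  (((ph_meas E n).sub (ph0_meas E)).norm).pow_const 2

theorem bn_tendsto (μ : Measure ℝ) [IsFiniteMeasure μ] (E : ℝ) :
    Tendsto (bn μ E) atTop (𝓝 0) := by
  have h := tendsto_integral_of_dominated_convergence (μ := μ)
    (F := fun n t => ‖ph E n t - ph0 E t‖ ^ 2) (f := fun _ => (0 : ℝ)) (fun _ => (4 : ℝ))
    (fun n => (df_meas E n).aestronglyMeasurable) (integrable_const _)
    (fun n => Eventually.of_forall fun t => df_bound E n t)
    (Eventually.of_forall fun t => by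
      have h1 := ((ph_tendsto E t).sub_const (ph0 E t)).norm.pow 2
      simpa using h1)
  rw [integral_zero] at h
  exact h

theorem norm_fn_le {V : Site d → ℝ} {u : L2 d} {μ : Measure ℝ} (E : ℝ) (h : SpecM V u μ)
    (n m : ℕ) : ‖fn V E u n - fn V E u m‖ ^ 2 ≤ 2 * (bn μ E n + bn μ E m) := by
  haveI := h.1
  rw [norm_fn E h, bn, bn, ← integral_add, ← integral_const_mul]
  · refine integral_mono_of_nonneg (Eventually.of_forall fun t => sq_nonneg _) ?_
      (Eventually.of_forall fun t => ?_)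
    · exact ((Integrable.of_bound (C := 4) (df_meas E n).aestronglyMeasurable
        (Eventually.of_forall fun t => df_bound E n t)).add
        (Integrable.of_bound (C := 4) (df_meas E m).aestronglyMeasurable
        (Eventually.of_forall fun t => df_bound E m t))).const_mul 2
    · dsimp only
      have h1 : ‖ph E n t - ph E m t‖ ≤ ‖ph E n t - ph0 E t‖ + ‖ph E m t - ph0 E t‖ := by
        have h2 := norm_sub_le (ph E n t - ph0 E t) (ph E m t - ph0 E t)
        rwa [sub_sub_sub_cancel_right] at h2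
      have h3 := norm_nonneg (ph E n t - ph E m t)
      nlinarith [sq_nonneg (‖ph E n t - ph0 E t‖ - ‖ph E m t - ph0 E t‖)]
  · exact Integrable.of_bound (C := 4) (df_meas E n).aestronglyMeasurable
      (Eventually.of_forall fun t => df_bound E n t)
  · exact Integrable.of_bound (C := 4) (df_meas E m).aestronglyMeasurable
      (Eventually.of_forall fun t => df_bound E m t)

theorem cauchy_fn {V : Site d → ℝ} {u : L2 d} {μ : Measure ℝ} (E : ℝ) (h : SpecM V u μ) :
    CauchySeq (fn V E u) := by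
  haveI := h.1
  rw [Metric.cauchySeq_iff']
  intro ε hε
  have h1 : ∀ᶠ n in atTop, bn μ E n < ε ^ 2 / 4 :=
    (bn_tendsto μ E).eventually_lt_const (by positivity)
  obtain ⟨N, hN⟩ := h1.exists_forall_of_atTop
  refine ⟨N, fun n hn => ?_⟩
  rw [dist_eq_norm]
  have h2 := norm_fn_le E h n N
  have h3 := hN n hn
  have h4 := hN N le_rfl
  have h5 : ‖fn V E u n - fn V E u N‖ ^ 2 < ε ^ 2 := by linarith
  exact lt_of_pow_lt_pow_left₀ 2 hε.le h5

theorem inner_u {V : Site d → ℝ} {u : L2 d} {μ : Measure ℝ} (E : ℝ) (h : SpecM V u μ)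
    (n : ℕ) : ⟪u, fn V E u n⟫_ℂ = ∫ t, ph E n t ∂μ := by
  unfold fn ph
  rw [inner_smul_right, h.2 _ (zn_im_ne E n), integral_const_mul]

theorem tendsto_int (μ : Measure ℝ) [IsFiniteMeasure μ] (E : ℝ) :
    Tendsto (fun n => ∫ t, ph E n t ∂μ) atTop (𝓝 ((μ.real {E} : ℝ) : ℂ)) := by
  have h := tendsto_integral_of_dominated_convergence (μ := μ)
    (F := fun n t => ph E n t) (f := fun t => ph0 E t) (fun _ => (1 : ℝ))
    (fun n => (ph_meas E n).aestronglyMeasurable) (integrable_const _)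
    (fun n => Eventually.of_forall fun t => ph_norm E n t)
    (Eventually.of_forall fun t => ph_tendsto E t)
  have h1 : ∫ t, ph0 E t ∂μ = ((μ.real {E} : ℝ) : ℂ) := by
    have h2 : ph0 E = Set.indicator {E} fun _ => (1 : ℂ) := by
      funext t
      unfold ph0
      by_cases ht : t = E
      · rw [if_pos ht, Set.indicator_of_mem (by exact ht)]
      · rw [if_neg ht, Set.indicator_of_notMem (by exact ht)]
    rw [h2, integral_indicator_const _ (measurableSet_singleton E)]
    simp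
  rw [h1] at h
  exact h

theorem apply_tendsto {f : ℕ → L2 d} {φ : L2 d} (h : Tendsto f atTop (𝓝 φ)) (x : Site d) :
    Tendsto (fun n => f n x) atTop (𝓝 (φ x)) := by
  rw [tendsto_iff_norm_sub_tendsto_zero] at h ⊢
  refine squeeze_zero (fun n => norm_nonneg _) (fun n => ?_) h
  have h1 := lp.norm_apply_le_norm (p := 2) (by norm_num) (f n - φ) x
  rwa [lp.coeFn_sub, Pi.sub_apply] at h1

/-- **ATM.** -/
theorem atm : AtmStmt := by
  intro d V u μ E h hE
  haveI := h.1
  obtain ⟨φ, hφ⟩ := cauchySeq_tendsto_of_complete (cauchy_fn E h)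
  refine ⟨φ, ?_, ?_⟩
  · intro x
    have h0 : Tendsto (fun n : ℕ => ((1 / ((n : ℝ) + 1) : ℝ) : ℂ)) atTop (𝓝 ((0 : ℝ) : ℂ)) :=
      (Complex.continuous_ofReal.tendsto 0).comp tendsto_one_div_add_atTop_nhds_zero_nat
    have h1 : ∀ n, lap (fn V E u n) x + ((V x : ℂ) - zn E n) * fn V E u n x =
        -(Complex.I * ((1 / ((n : ℝ) + 1) : ℝ) : ℂ)) * u x := by
      intro n
      have h2 := G_eq (V := V) (zn_im_ne E n) u x
      have h3 : lap (fn V E u n) x =
          -(Complex.I * ((1 / ((n : ℝ) + 1) : ℝ) : ℂ)) * lap (G V (zn E n) u) x := by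
        unfold fn
        rw [lp.coeFn_smul]
        exact lap_smul' _ _ _
      have h4 : fn V E u n x =
          -(Complex.I * ((1 / ((n : ℝ) + 1) : ℝ) : ℂ)) * G V (zn E n) u x := by
        unfold fn
        rw [lp.coeFn_smul, Pi.smul_apply, smul_eq_mul]
      rw [h3, h4, ← h2]
      ring
    have h5 : Tendsto (fun n => lap (fn V E u n) x + ((V x : ℂ) - zn E n) * fn V E u n x) atTop
        (𝓝 (lap φ x + ((V x : ℂ) - (E : ℂ)) * φ x)) := by
      refine Tendsto.add ?_ (Tendsto.mul ?_ (apply_tendsto hφ x))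
      · unfold lap
        exact tendsto_finsetSum _ fun i _ => (apply_tendsto hφ _).add (apply_tendsto hφ _)
      · have h6 : ∀ n, zn E n = (E : ℂ) + ((1 / ((n : ℝ) + 1) : ℝ) : ℂ) * Complex.I := by
          intro n
          unfold zn
          rw [Complex.mk_eq_add_mul_I]
        have h7 : Tendsto (fun n : ℕ => (E : ℂ) + ((1 / ((n : ℝ) + 1) : ℝ) : ℂ) * Complex.I) atTop
            (𝓝 ((E : ℂ) + ((0 : ℝ) : ℂ) * Complex.I)) := (h0.mul_const _).const_add _
        have h8 : (E : ℂ) + ((0 : ℝ) : ℂ) * Complex.I = (E : ℂ) := by simp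
        rw [h8] at h7
        simp only [h6]
        exact h7.const_sub _
    have h6 : Tendsto (fun n : ℕ => -(Complex.I * ((1 / ((n : ℝ) + 1) : ℝ) : ℂ)) * u x) atTop
        (𝓝 (-(Complex.I * ((0 : ℝ) : ℂ)) * u x)) := ((h0.const_mul _).neg).mul_const _
    have h7 : -(Complex.I * ((0 : ℝ) : ℂ)) * u x = 0 := by simp
    rw [h7] at h6
    simp only [h1] at h5
    have h8 := tendsto_nhds_unique h5 h6
    linear_combination h8
  · have h1 : Tendsto (fun n => ⟪u, fn V E u n⟫_ℂ) atTop (𝓝 ⟪u, φ⟫_ℂ) :=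
      ((innerSL ℂ u).continuous.tendsto φ).comp hφ
    simp only [inner_u E h] at h1
    have h2 := tendsto_nhds_unique h1 (tendsto_int μ E)
    intro h3
    have h4 : ⟪u, φ⟫_ℂ = 0 := by
      rw [← inner_conj_symm, h3, map_zero]
    rw [h4] at h2
    have h5 : μ.real {E} = 0 := by exact_mod_cast h2.symm
    rw [measureReal_eq_zero_iff] at h5
    exact hE h5

end Pool.Agent.SPX.H67
end
end -- Pool.Agent.Helper67_SPX.Atm

section -- Pool.Agent.Helper68_SPX.Par

/-!
# SPX, rows EXM and PAR (helper68)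
-/

set_option autoImplicit false

open MeasureTheory ProbabilityTheory Filter

open scoped InnerProductSpace ENNReal Topology ComplexConjugate

noncomputable section

namespace Pool.Agent.SPX.H68

open Pool.Agent.Anderson Pool.Agent.Loc Pool.Agent.Helper54.Bal Pool.Agent.SPX

variable {d : ℕ}

/-- row EXM -/
theorem exm : ExmStmt := fun _ V u => Pool.Agent.ACE.exists_repM V u

/-- row PAR -/
theorem par (hUnm : UnmStmt) : ParStmt := by
  intro d V u μ hμ
  refine ⟨fun v ν ρ S hν hρ => ?_, fun c ρ hρ => ?_, fun E₀ hE => ?_,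
    Pool.Agent.ACE.mass_le hμ⟩
  · have h1 : ρ ≤ (2 : ℝ≥0∞) • μ + (2 : ℝ≥0∞) • ν := by
      rw [Measure.le_iff]
      intro N hN
      have h2 := Pool.Agent.ACE.rep_add (V := V) hμ hν hρ hN
      simpa using h2
    have h3 := Measure.le_iff'.1 h1 S
    simpa using h3
  · have i1 : IsFiniteMeasure μ := hμ.1
    have i2 : IsFiniteMeasure ρ := hρ.1
    have i3 : IsFiniteMeasure (ENNReal.ofReal (‖c‖ ^ 2) • μ) :=
      μ.smul_finite ENNReal.ofReal_ne_top
    refine hUnm _ _ i2 i3 fun z hz => ?_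
    rw [← hρ.2 z hz, integral_smul_measure, ← hμ.2 z hz, map_smul, inner_smul_left,
      inner_smul_right, ENNReal.toReal_ofReal (by positivity), ← mul_assoc]
    have h1 : conj c * c = ((‖c‖ ^ 2 : ℝ) : ℂ) := by
      rw [Complex.conj_mul']
      push_cast
      rfl
    rw [h1]
    exact (Complex.real_smul).symm
  · have i1 : IsFiniteMeasure μ := hμ.1
    have i2 : IsFiniteMeasure (ENNReal.ofReal (‖u‖ ^ 2) • Measure.dirac E₀) :=
      (Measure.dirac E₀).smul_finite ENNReal.ofReal_ne_top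
    have h1 : μ = ENNReal.ofReal (‖u‖ ^ 2) • Measure.dirac E₀ := by
      refine hUnm _ _ i1 i2 fun z hz => ?_
      have hne : (E₀ : ℂ) - z ≠ 0 := real_sub_ne hz E₀
      have h2 : ((E₀ : ℂ) - z)⁻¹ • u = G V z u := by
        apply G_unique hz
        intro x
        have h3 := hE x
        have h4 : lap (⇑(((E₀ : ℂ) - z)⁻¹ • u)) x = ((E₀ : ℂ) - z)⁻¹ * lap u x := by
          rw [← Lap_apply, ← Lap_apply, map_smul, lp.coeFn_smul, Pi.smul_apply, smul_eq_mul]
        rw [h4, lp.coeFn_smul, Pi.smul_apply, smul_eq_mul]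
        have h5 : lap u x = (E₀ : ℂ) * u x - (V x : ℂ) * u x := by rw [← h3]; ring
        rw [h5]
        field_simp
        ring
      rw [← hμ.2 z hz, ← h2, inner_smul_right, integral_smul_measure, integral_dirac,
        ENNReal.toReal_ofReal (by positivity), inner_self_eq_norm_sq_to_K]
      rw [Complex.real_smul, mul_comm]
      push_cast
      rfl
    rw [h1]
    simp

end Pool.Agent.SPX.H68
end
end -- Pool.Agent.Helper68_SPX.Par

section -- Pool.Agent.Helper89_SPX.Nzr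

/-!
# SPX, row NZR: Weyl vectors near one energy
-/

set_option autoImplicit false

open MeasureTheory ProbabilityTheory Filter

open scoped InnerProductSpace ENNReal Topology ComplexConjugate

noncomputable section

namespace Pool.Agent.SPX.H89

open Pool.Agent.Anderson Pool.Agent.Loc Pool.Agent.Helper54.Bal Pool.Agent.LE.CH Pool.Agent.SPX

variable {d : ℕ}

theorem nzr (hex : ExmStmt) (hop : OpnStmt) : NzrStmt := by
  intro d V I E r hsp hr hI
  obtain ⟨φ, h1, _, h2⟩ := hsp E rfl (r / 2) (half_pos hr)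
  obtain ⟨_, q, hq1, hq2⟩ := h2
  obtain ⟨μ, hμ⟩ := hex d V φ
  refine ⟨φ, μ, hμ, fun h0 => ?_⟩
  have h3 : μ (Set.Icc (E - r) (E + r)) = 0 := measure_mono_null hI h0
  have h4 := (hop d V φ μ _ hμ).2 isClosed_Icc h3
  have h5 : ∀ x, (q + (E : ℂ) • φ : L2 d) x = lap φ x + (V x : ℂ) * φ x := by
    intro x
    have := hq2 x
    rw [lp.coeFn_add, Pi.add_apply, lp.coeFn_smul, Pi.smul_apply, smul_eq_mul]
    linear_combination -this
  have h6 := H54.wtq_limit hr.le h5 h4
  rw [h1, add_sub_cancel_right] at h6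
  linarith

end Pool.Agent.SPX.H89
end
end -- Pool.Agent.Helper89_SPX.Nzr

section -- Pool.Agent.Helper89_SPX.Saj

/-!
# SPX, row SAJ: `H = Δ + V` with its maximal domain is self-adjoint
-/

set_option autoImplicit false

open Filter LinearPMap

open scoped InnerProductSpace ENNReal Topology ComplexConjugate

noncomputable section

namespace Pool.Agent.SPX.H89

open Pool.Agent.Anderson Pool.Agent.Loc Pool.Agent.Helper54.Bal Pool.Agent.LE.CH Pool.Agent.SPX

variable {d : ℕ}

theorem I_im : (Complex.I).im ≠ 0 := by simp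

theorem dense_dom (V : Site d → ℝ) : Dense ((ham V).domain : Set (L2 d)) := by
  have h := (isRes_G V).dense_range I_im
  refine Dense.mono ?_ h
  rintro x ⟨f, rfl⟩
  exact ((H54.dom d V Complex.I I_im).1 f).1

theorem symm_ham (V : Site d → ℝ) : (ham V).IsFormalAdjoint (ham V) := by
  intro u v
  have hc : (conj Complex.I).im ≠ 0 := conj_im_ne I_im
  have hu := H54.G_ham V I_im u
  have hv := H54.G_ham V hc v
  have h1 := (isRes_G V).adj Complex.I I_im (ham V u - Complex.I • (u : L2 d))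
    (ham V v - conj Complex.I • (v : L2 d))
  rw [hu, hv, inner_sub_left, inner_sub_right, inner_smul_left, inner_smul_right] at h1
  linear_combination -h1

theorem saj : SajStmt := by
  intro d V
  rw [isSelfAdjoint_def]
  have hle : ham V ≤ (ham V).adjoint := (symm_ham V).le_adjoint (dense_dom V)
  symm
  refine LinearPMap.eq_of_le_of_domain_eq hle (le_antisymm hle.1 ?_)
  intro y hy
  have hc : (conj Complex.I).im ≠ 0 := conj_im_ne I_im
  set w : L2 d := (ham V).adjoint ⟨y, hy⟩ with hw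
  have hf := LinearPMap.adjoint_isFormalAdjoint (dense_dom V)
  obtain ⟨hd, hu⟩ := (H54.dom d V Complex.I I_im).1 (w - Complex.I • y)
  set u : L2 d := G V Complex.I (w - Complex.I • y) with hudef
  have key : ∀ g : L2 d, ⟪y - u, g⟫_ℂ = 0 := by
    intro g
    obtain ⟨hvd, hv⟩ := (H54.dom d V (conj Complex.I) hc).1 g
    have h1 := hf ⟨y, hy⟩ ⟨G V (conj Complex.I) g, hvd⟩
    have h2 := symm_ham V ⟨u, hd⟩ ⟨G V (conj Complex.I) g, hvd⟩
    rw [hv] at h1 h2
    rw [← hw] at h1
    rw [hu] at h2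
    simp only [inner_add_right, inner_add_left, inner_sub_left, inner_smul_left, inner_smul_right]
      at h1 h2 ⊢
    linear_combination h2 - h1
  have h0 : y - u = 0 := by
    have := key (y - u)
    exact inner_self_eq_zero.1 this
  rw [sub_eq_zero.1 h0]
  exact hd

end Pool.Agent.SPX.H89
end
end -- Pool.Agent.Helper89_SPX.Saj

section -- Pool.Agent.Helper89_SPX.Wtb

/-!
# SPX, row WTB: the smoothed spectral measure
-/

set_option autoImplicit false

open MeasureTheory ProbabilityTheory Filter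

open scoped InnerProductSpace ENNReal Topology ComplexConjugate

noncomputable section

namespace Pool.Agent.SPX.H89

open Pool.Agent.Anderson Pool.Agent.Loc Pool.Agent.Helper54.Bal Pool.Agent.LE.CH Pool.Agent.SPX

variable {d : ℕ}

theorem inv_im_eq (t E η : ℝ) : (((t : ℂ) - zz η E)⁻¹).im = η / ((E - t) ^ 2 + η ^ 2) := by
  rw [Complex.inv_im, Complex.normSq_apply]
  simp only [Complex.sub_re, Complex.sub_im, Complex.ofReal_re, Complex.ofReal_im, zz_re, zz_im,
    zero_sub, neg_neg]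
  congr 1
  ring

theorem norm_inv_le {z : ℂ} (hz : z.im ≠ 0) (t : ℝ) : ‖((t : ℂ) - z)⁻¹‖ ≤ |z.im|⁻¹ := by
  rw [norm_inv]
  have h1 : |z.im| ≤ ‖(t : ℂ) - z‖ := by
    have h2 := Complex.abs_im_le_norm ((t : ℂ) - z)
    simpa using h2
  exact inv_anti₀ (abs_pos.2 hz) h1

theorem integrable_inv {μ : Measure ℝ} [IsFiniteMeasure μ] {z : ℂ} (hz : z.im ≠ 0) :
    Integrable (fun t : ℝ => ((t : ℂ) - z)⁻¹) μ := by
  refine Integrable.of_bound (C := |z.im|⁻¹) ?_ (Eventually.of_forall fun t => norm_inv_le hz t)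
  exact (Measurable.inv (by fun_prop)).aestronglyMeasurable

theorem integrable_ker {μ : Measure ℝ} [IsFiniteMeasure μ] {η : ℝ} (hη : 0 < η) (E : ℝ) :
    Integrable (fun t : ℝ => η / Real.pi / ((E - t) ^ 2 + η ^ 2)) μ := by
  have hz : (zz η E).im ≠ 0 := by
    rw [zz_im]
    exact hη.ne'
  have h1 := ((integrable_inv (μ := μ) hz).im).const_mul (Real.pi)⁻¹
  refine h1.congr (Eventually.of_forall fun t => ?_)
  show (Real.pi)⁻¹ * (((t : ℂ) - zz η E)⁻¹).im = _
  rw [inv_im_eq]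
  ring

theorem wt_key {V : Site d → ℝ} {u : L2 d} {μ : Measure ℝ} (hμ : SpecM V u μ) {η : ℝ} (hη : 0 < η)
    (E : ℝ) : ENNReal.ofReal (η / Real.pi * ‖G V (zz η E) u‖ ^ 2) =
      ∫⁻ t, ENNReal.ofReal (η / Real.pi / ((E - t) ^ 2 + η ^ 2)) ∂μ := by
  obtain ⟨hfin, h⟩ := hμ
  have hz : (zz η E).im ≠ 0 := by
    rw [zz_im]
    exact hη.ne'
  have h1 := h (zz η E) hz
  have h2 := (isRes_G V).im_inner hz u
  rw [h1, zz_im] at h2
  have h3 : (∫ t : ℝ, ((t : ℂ) - zz η E)⁻¹ ∂μ).im = ∫ t : ℝ, (((t : ℂ) - zz η E)⁻¹).im ∂μ :=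
    (integral_im (integrable_inv hz)).symm
  rw [← ofReal_integral_eq_lintegral_ofReal (integrable_ker hη E)
    (Eventually.of_forall fun t => by positivity)]
  have h4 : ∫ t : ℝ, η / Real.pi / ((E - t) ^ 2 + η ^ 2) ∂μ =
      (Real.pi)⁻¹ * ∫ t : ℝ, (((t : ℂ) - zz η E)⁻¹).im ∂μ := by
    rw [← integral_const_mul]
    refine integral_congr_ae (Eventually.of_forall fun t => ?_)
    show η / Real.pi / ((E - t) ^ 2 + η ^ 2) = (Real.pi)⁻¹ * (((t : ℂ) - zz η E)⁻¹).im
    rw [inv_im_eq]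
    ring
  rw [h4, ← h3, h2]
  congr 1
  ring

theorem wtb : WtbStmt := by
  intro d V u μ S η hμ hη hS
  have hfin : IsFiniteMeasure μ := hμ.1
  unfold wt
  rw [← lintegral_lintegral_swap]
  · exact lintegral_congr fun E => wt_key hμ hη E
  · have hm : Measurable (Function.uncurry fun E t : ℝ =>
        ENNReal.ofReal (η / Real.pi / ((E - t) ^ 2 + η ^ 2))) := by
      unfold Function.uncurry
      fun_prop
    exact hm.aemeasurable

end Pool.Agent.SPX.H89
end
end -- Pool.Agent.Helper89_SPX.Wtb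

section -- Pool.Agent.Helper54_SPX.All

/-!
# SPX: all the rows
-/

set_option autoImplicit false

namespace Pool.Agent.SPX.H54

theorem sajT : SajStmt := H89.saj

theorem exmT : ExmStmt := H68.exm

theorem unmT : UnmStmt := H41.unm

theorem wtbT : WtbStmt := H89.wtb

theorem opnT : OpnStmt := H41.opn wtbT

theorem parT : ParStmt := H68.par unmT

theorem atmT : AtmStmt := H67.atm

theorem pptT : PptStmt := ppt exmT opnT parT

theorem ppcT : PpcStmt := ppc exmT atmT opnT

theorem nzrT : NzrStmt := H89.nzr exmT opnT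

theorem sprT : SprStmt := H68.spr

end Pool.Agent.SPX.H54
end -- Pool.Agent.Helper54_SPX.All

section -- Pool.Agent.Helper54_SPX.Graph

/-!
# SPX: the operator as a relation

`IsH V u w`: `u` is in the domain of `H = Δ + V` and `w = H u`. The same notions as in `SPX/Defs.lean`
(`ham V` is the `LinearPMap` with the graph `IsH V`), with less notation.
-/

set_option autoImplicit false

open MeasureTheory ProbabilityTheory Filter

open scoped InnerProductSpace ENNReal Topology ComplexConjugate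

noncomputable section

namespace Pool.Agent.SPX.Gr

open Pool.Agent.Anderson Pool.Agent.Loc Pool.Agent.Helper54.Bal Pool.Agent.SPX
open Pool.Agent.SPX.H54 (mem_domain_of ham_eq_of ham_apply smi dom eigenvector_iff norm_site)
open Pool.Agent.EXT.H54.Handin (latticeGreen)

universe u

variable {d : ℕ}

/-- `w = H u`: `u` is in the domain `{u ∈ ℓ²(ℤ^d) : Δ u + V u ∈ ℓ²(ℤ^d)}` of `H = Δ + V` and
`w = Δ u + V u`. -/
def IsH (V : Site d → ℝ) (u w : L2 d) : Prop :=
  ∀ x, w x = lap u x + (V x : ℂ) * u x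

/-- `H` is self-adjoint: its domain is dense and `H* = H`, where `H* u = w` means that
`⟨v, w⟩ = ⟨H v, u⟩` for all `v` in the domain of `H`. -/
def SelfAdjoint (V : Site d → ℝ) : Prop :=
  Dense {u : L2 d | ∃ w, IsH V u w} ∧
  ∀ u w : L2 d, (∀ v k : L2 d, IsH V v k → ⟪v, w⟫_ℂ = ⟪k, u⟫_ℂ) ↔ IsH V u w

/-- The spectrum of `H`: the set of all complex numbers `z` such that `H - z` is not a bijection of the
domain of `H` onto `ℓ²(ℤ^d)`. -/
def spectrumOf (V : Site d → ℝ) : Set ℂ :=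
  {z | ¬ ∀ f : L2 d, ∃! u : L2 d, IsH V u (f + z • u)}

/-- The set of the eigenvalues of `H`. -/
def eigenvalues (V : Site d → ℝ) : Set ℝ :=
  {E | ∃ u : L2 d, u ≠ 0 ∧ IsH V u ((E : ℂ) • u)}

/-- `μ` is the spectral measure of the vector `u`: `μ` is a finite measure on the line and
`⟨u, (H - z)⁻¹ u⟩ = ∫ (E - z)⁻¹ dμ(E)` for all `z` off the line; `v = (H - z)⁻¹ u` means
`H v = u + z v`. -/
def IsSpectralMeasure (V : Site d → ℝ) (u : L2 d) (μ : Measure ℝ) : Prop :=
  IsFiniteMeasure μ ∧ ∀ (z : ℂ) (v : L2 d), z.im ≠ 0 → IsH V v (u + z • v) →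
    ⟪u, v⟫_ℂ = ∫ E : ℝ, ((E : ℂ) - z)⁻¹ ∂μ

/-- The spectrum of `H` in the Borel set `I` is pure point: the restriction to `I` of every spectral
measure is carried by a countable set. -/
def PurePointIn (V : Site d → ℝ) (I : Set ℝ) : Prop :=
  ∀ (u : L2 d) (μ : Measure ℝ), IsSpectralMeasure V u μ →
    ∃ S : Set ℝ, S.Countable ∧ μ (I \ S) = 0

/-- The spectrum of `H` in the Borel set `I` is purely absolutely continuous and fills `I`: the
restriction to `I` of every spectral measure is absolutely continuous with respect to the Lebesgue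
measure, and the Lebesgue measure on `I` is absolutely continuous with respect to some spectral
measure. -/
def PurelyACIn (V : Site d → ℝ) (I : Set ℝ) : Prop :=
  (∀ (u : L2 d) (μ : Measure ℝ), IsSpectralMeasure V u μ → μ.restrict I ≪ volume) ∧
  ∃ (u : L2 d) (μ : Measure ℝ), IsSpectralMeasure V u μ ∧ (volume : Measure ℝ).restrict I ≪ μ

/-- `H` is exponentially localized in the Borel set `I`: the spectrum in `I` is pure point and every
eigenvector with an eigenvalue in `I` decays exponentially; `‖x‖` is the maximum of the `|x i|`. -/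
def LocalizedIn (V : Site d → ℝ) (I : Set ℝ) : Prop :=
  PurePointIn V I ∧ ∀ E ∈ I, ∀ u : L2 d, IsH V u ((E : ℂ) • u) →
    ∃ m C : ℝ, 0 < m ∧ ∀ x, ‖u x‖ ≤ C * Real.exp (-m * ‖x‖)

theorem isH_iff {V : Site d → ℝ} {u w : L2 d} :
    IsH V u w ↔ ∃ h : u ∈ (ham V).domain, ham V ⟨u, h⟩ = w := by
  constructor
  · intro h
    exact ⟨mem_domain_of h, ham_eq_of h _⟩
  · rintro ⟨h, rfl⟩ x
    rw [ham_apply]

theorem isH_G {V : Site d → ℝ} {z : ℂ} (hz : z.im ≠ 0) (f : L2 d) :
    IsH V (G V z f) (f + z • G V z f) := by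
  obtain ⟨h1, h2⟩ := (dom d V z hz).1 f
  exact isH_iff.2 ⟨h1, h2⟩

theorem isH_unique {V : Site d → ℝ} {z : ℂ} (hz : z.im ≠ 0) {f u : L2 d}
    (h : IsH V u (f + z • u)) : u = G V z f := by
  apply G_unique hz
  intro x
  have h1 := h x
  rw [lp.coeFn_add, Pi.add_apply, lp.coeFn_smul, Pi.smul_apply, smul_eq_mul] at h1
  linear_combination -h1

theorem selfAdjoint (V : Site d → ℝ) : SelfAdjoint V := by
  have hI : (Complex.I).im ≠ 0 := by simp
  have hI' : (conj Complex.I).im ≠ 0 := conj_im_ne hI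
  constructor
  · refine Dense.mono ?_ ((isRes_G V).dense_range hI)
    rintro _ ⟨f, rfl⟩
    exact ⟨_, isH_G hI f⟩
  · intro u w
    constructor
    · intro h
      have hu : u = G V Complex.I (w - Complex.I • u) := by
        refine ext_inner_left ℂ fun g => ?_
        have h1 := h _ _ (isH_G hI' g)
        rw [inner_add_left, inner_smul_left, Complex.conj_conj] at h1
        have h2 := (isRes_G V).adj (conj Complex.I) hI' g (w - Complex.I • u)
        rw [Complex.conj_conj, inner_sub_right, inner_smul_right] at h2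
        rw [← h2, h1]
        ring
      have h3 := isH_G (V := V) hI (w - Complex.I • u)
      rw [← hu, sub_add_cancel] at h3
      exact h3
    · intro h v k hk
      have hu : u = G V Complex.I (w - Complex.I • u) := by
        apply isH_unique hI
        rw [sub_add_cancel]
        exact h
      have hv : v = G V (conj Complex.I) (k - conj Complex.I • v) := by
        apply isH_unique hI'
        rw [sub_add_cancel]
        exact hk
      have h2 := (isRes_G V).adj (conj Complex.I) hI' (k - conj Complex.I • v)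
        (w - Complex.I • u)
      rw [Complex.conj_conj, ← hu, ← hv, inner_sub_left, inner_sub_right, inner_smul_left,
        inner_smul_right, Complex.conj_conj] at h2
      linear_combination h2

theorem spectrum_eq (V : Site d → ℝ) : spectrumOf V = SPX.spectrumOf (ham V) := by
  ext z
  refine not_congr ?_
  rw [Function.bijective_iff_existsUnique]
  refine forall_congr' fun f => ?_
  constructor
  · rintro ⟨u, hu, huu⟩
    obtain ⟨h1, h2⟩ := isH_iff.1 hu
    refine ⟨⟨u, h1⟩, ?_, fun v hv => ?_⟩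
    · show ham V ⟨u, h1⟩ - z • u = f
      rw [h2, add_sub_cancel_right]
    · apply Subtype.ext
      apply huu
      refine isH_iff.2 ⟨v.2, ?_⟩
      have hv' : ham V v - z • (v : L2 d) = f := hv
      rw [← hv', sub_add_cancel]
  · rintro ⟨u, hu, huu⟩
    have hu' : ham V u - z • (u : L2 d) = f := hu
    refine ⟨u, ?_, fun v hv => ?_⟩
    · refine isH_iff.2 ⟨u.2, ?_⟩
      rw [← hu', sub_add_cancel]
    · obtain ⟨h1, h2⟩ := isH_iff.1 hv
      have h3 := huu ⟨v, h1⟩ (by
        show ham V ⟨v, h1⟩ - z • v = f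
        rw [h2, add_sub_cancel_right])
      exact congrArg Subtype.val h3

theorem eigen_iff {V : Site d → ℝ} {E : ℝ} {u : L2 d} :
    (u ≠ 0 ∧ IsH V u ((E : ℂ) • u)) ↔ IsEigenvector (ham V) E u := by
  unfold IsEigenvector
  rw [isH_iff]

theorem eigenvalues_eq (V : Site d → ℝ) :
    eigenvalues V = {E : ℝ | ∃ u : L2 d, IsEigenvector (ham V) E u} := by
  ext E
  exact exists_congr fun u => eigen_iff

theorem spectral_iff {V : Site d → ℝ} {u : L2 d} {μ : Measure ℝ} :
    IsSpectralMeasure V u μ ↔ SPX.IsSpectralMeasure (ham V) u μ := by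
  unfold IsSpectralMeasure SPX.IsSpectralMeasure
  refine and_congr Iff.rfl (forall_congr' fun z => ?_)
  constructor
  · intro h v hz hv
    refine h v hz (isH_iff.2 ⟨v.2, ?_⟩)
    rw [← hv, sub_add_cancel]
  · intro h v hz hv
    obtain ⟨h1, h2⟩ := isH_iff.1 hv
    refine h ⟨v, h1⟩ hz ?_
    rw [h2, add_sub_cancel_right]

theorem purePoint_iff {V : Site d → ℝ} {I : Set ℝ} :
    PurePointIn V I ↔ SPX.PurePointIn (ham V) I := by
  unfold PurePointIn SPX.PurePointIn
  simp only [spectral_iff]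

theorem purelyAC_iff {V : Site d → ℝ} {I : Set ℝ} :
    PurelyACIn V I ↔ SPX.H54.PurelyACIn (ham V) I := by
  unfold PurelyACIn SPX.H54.PurelyACIn
  simp only [spectral_iff]

theorem localized_iff {V : Site d → ℝ} {I : Set ℝ} :
    LocalizedIn V I ↔ SPX.LocalizedIn V I := by
  unfold LocalizedIn SPX.LocalizedIn
  rw [purePoint_iff]
  refine and_congr Iff.rfl (forall₂_congr fun E hE => forall_congr' fun u => ?_)
  constructor
  · intro h hu
    exact h (eigen_iff.2 hu).2
  · intro h hu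
    by_cases h0 : u = 0
    · refine ⟨1, 0, one_pos, fun x => ?_⟩
      rw [h0]
      simp
    · exact h (eigen_iff.1 ⟨h0, hu⟩)

theorem existsUnique_spectral (V : Site d → ℝ) (u : L2 d) :
    ∃! μ : Measure ℝ, IsSpectralMeasure V u μ := by
  obtain ⟨μ, h1, h2⟩ := (SPX.H54.well_posed SPX.H54.sajT SPX.H54.exmT SPX.H54.unmT d V).2 u
  exact ⟨μ, spectral_iff.2 h1, fun ν hν => h2 ν (spectral_iff.1 hν)⟩

/-- THE PHASE DIAGRAM -/
theorem main (hf : Pool.Agent.ANE.FinStmt.{u}) (hac : SPX.H54.AcsStmt) (d : ℕ) (hd : 3 ≤ d) :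
    (∀ V : Site d → ℝ, SelfAdjoint V ∧ ∀ u : L2 d, ∃! μ : Measure ℝ, IsSpectralMeasure V u μ) ∧
    ∃ (σc : ℝ) (E₀ : ℝ → ℝ), 0 < σc ∧
    (∀ σ : ℝ, σ ≠ 0 → Almost.{u} d σ fun V => spectrumOf V = Set.range ((↑) : ℝ → ℂ)) ∧
    (∀ σ : ℝ, σc < |σ| → Almost.{u} d σ fun V =>
      LocalizedIn V Set.univ ∧ closure (eigenvalues V) = Set.univ) ∧
    (∀ σ : ℝ, σ ≠ 0 → 0 ≤ E₀ σ ∧ (Almost.{u} d σ fun V => LocalizedIn V {E | E₀ σ ≤ |E|}) ∧
      ∀ e : ℝ, 0 ≤ e → e < E₀ σ → Almost.{u} d σ fun V => ¬ LocalizedIn V {E | e < |E|}) ∧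
    (∀ s : ℝ, s < σc → ∃ σ : ℝ, s < |σ| ∧ |σ| ≤ σc ∧ 0 < E₀ σ) ∧
    (∀ a : ℝ, 0 < a → ∃ s : ℝ, 0 < s ∧ ∀ σ : ℝ, σ ≠ 0 → |σ| ≤ s →
      2 * d - a ≤ E₀ σ ∧ Almost.{u} d σ fun V =>
        PurelyACIn V {E | |E| < 2 * d - a} ∧ ∀ E ∈ eigenvalues V, 2 * d - a ≤ |E|) ∧
    ∃ c C : ℝ, 0 < c ∧ 0 < C ∧ ∀ σ : ℝ, σ ≠ 0 → |σ| ≤ c →
      E₀ σ ≤ 2 * d + latticeGreen d * σ ^ 2 + C * |σ| ^ (2 + 1 / (24 * d : ℝ)) := by
  obtain ⟨h1, σc, E₀, h2, h3, h4, h5, h6, h7, h8⟩ :=
    SPX.H54.asmAC.{u} hf hac SPX.H54.sajT SPX.H54.exmT SPX.H54.unmT SPX.H54.pptT SPX.H54.ppcT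
      SPX.H54.sprT d hd
  simp only [spectrum_eq, localized_iff, eigenvalues_eq, purelyAC_iff]
  refine ⟨fun V => ⟨selfAdjoint V, existsUnique_spectral V⟩, σc, E₀, h2, h3, h4, h5, h6,
    fun a ha => ?_, h8⟩
  obtain ⟨s, hs, g⟩ := h7 a ha
  refine ⟨s, hs, fun σ hσ hσs => ⟨(g σ hσ hσs).1, ?_⟩⟩
  intro Ω _ P _ ξ hm hlaw hind
  filter_upwards [(g σ hσ hσs).2 Ω P ξ hm hlaw hind] with ω h9
  refine ⟨h9.1, fun E hE => ?_⟩
  obtain ⟨v, hv⟩ := hE
  by_contra hlt
  exact h9.2 E v (not_le.1 hlt) hv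

end Pool.Agent.SPX.Gr
end
end -- Pool.Agent.Helper54_SPX.Graph
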