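import Pool.Agent.Helper12_MEB.B001
import Pool.Agent.Helper12_MEB.B085
import Pool.Agent.Helper12_MEB.B144

/-!
# Merged copies (generated) of the modules

* `Pool.Agent.AFJ.Defs`
* `Pool.Agent.ABY.Defs`
* `Pool.Agent.AFJ.Stmts`
* `Pool.Agent.ABY.Stmts`
* `Pool.Agent.AHH.Defs`
* `Pool.Agent.Helper32_AFJ.BEJ`
* `Pool.Agent.Helper41_ABY.VBL`
* `Pool.Agent.Helper44_AFJ.BET`
* `Pool.Agent.Helper59_ABY.VJT`
-/

set_option autoImplicit false

section -- Pool.Agent.AFJ.Defs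

/-!
# One block update of the flow: definitions (block D3 of AND2B, MP_1906c1_mp)

`X` is a finite set of sites, `H` a real symmetric matrix (hopping plus the potential applied so far),
`s x` the clock of the site `x` (`0` if `x` is dead), `mb x` the gauge. In a block update only the sites
of `b` run: at the time `t` they carry a fresh Gaussian potential of variance `t` and the clock
`s x - t`. `κ x = η + (clock) * Im mb x` is the absorption at `x`. The coordinates of the noise are the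
elements of `b`. Jets (`HJ`, `HM`, `LL`) are those of `Pool.Agent.LE.QF`.
-/

set_option autoImplicit false

open scoped BigOperators Matrix

noncomputable section

namespace Pool.Agent.AFJ

open Pool.Agent.LE.QF

variable {X : Type} [Fintype X] [DecidableEq X]

/-- the indicator of a set -/
def ind (b : Finset X) (x : X) : ℝ := if x ∈ b then 1 else 0

/-- the gauge error on the running block -/
def mub (G : Matrix X X ℂ) (mb : X → ℂ) (b : Finset X) (x : X) : ℂ :=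
  if x ∈ b then G x x - mb x else 0

/-- the conductances `κ_x |G_xy|² κ_y` between the nodes `A` -/
def cd (G : Matrix X X ℂ) (κ : X → ℝ) (A : Finset X) : Matrix X X ℝ :=
  fun x y => if x ∈ A ∧ y ∈ A then κ x * κ y * KK G x y else 0

/-- the Dirichlet form of the network: `qf (EE G κ A) f = (1/2) ∑_{x, y ∈ A} κ_x K_xy κ_y (f_x - f_y)²` -/
def EE (G : Matrix X X ℂ) (κ : X → ℝ) (A : Finset X) : Matrix X X ℝ := Dl (cd G κ A)

/-- the derivative of the conductances in the direction of the potential at `c` -/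
def cdc (G : Matrix X X ℂ) (κ : X → ℝ) (A : Finset X) (c : X) : Matrix X X ℝ :=
  fun x y => if x ∈ A ∧ y ∈ A then κ x * κ y * dK G c x y else 0

/-- the derivative of the form -/
def Ec (G : Matrix X X ℂ) (κ : X → ℝ) (A : Finset X) (c : X) : Matrix X X ℝ := Dl (cdc G κ A c)

/-- the total absorption in `A` of the waves emitted at `x` -/
def rho (G : Matrix X X ℂ) (κ : X → ℝ) (A : Finset X) (x : X) : ℝ := ∑ y ∈ A, κ y * KK G x y

/-- the conductances of the error term in the drift of `EE` -/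
def ee (G : Matrix X X ℂ) (κ : X → ℝ) (g : X → ℝ) (μ : X → ℂ) (A b : Finset X) : Matrix X X ℝ :=
  fun x y => if x ∈ A ∧ y ∈ A then
    (ind b x * (rho G κ A x - g x) * κ y + κ x * (rho G κ A y - g y) * ind b y) * KK G x y +
      κ x * κ y * EK G μ x y else 0

/-- `∑_{y ∈ R} |G_xy|⁴` -/
def LaR (G : Matrix X X ℂ) (R : Finset X) (x : X) : ℝ := ∑ y ∈ R, KK G x y ^ 2

/-- `β_xc(f) = ∑_{y ∈ A} κ_y conj(G_xy) G_cy (f_x - f_y)` -/
def bet (G : Matrix X X ℂ) (κ : X → ℝ) (A : Finset X) (f : X → ℝ) (x c : X) : ℂ :=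
  ∑ y ∈ A, (κ y : ℂ) * (starRingEnd ℂ) (G x y) * G c y * ((f x - f y : ℝ) : ℂ)

/-- `D_x(f) = ∑_{y ∈ A} κ_y |G_xy|² (f_x - f_y)²` -/
def DD (G : Matrix X X ℂ) (κ : X → ℝ) (A : Finset X) (f : X → ℝ) (x : X) : ℝ :=
  ∑ y ∈ A, κ y * KK G x y * (f x - f y) ^ 2

/-- a complex symmetric `G` with positive absorption `κ`: Ward identity and norm bound -/
structure Net (G : Matrix X X ℂ) (κ : X → ℝ) : Prop where
  hs : ∀ x y, G x y = G y x
  hκ : ∀ x, 0 < κ x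
  hw : ∀ x z, ∑ y, (κ y : ℂ) * (G x y * (starRingEnd ℂ) (G z y)) = ((G x z).im : ℂ)
  hn : ∀ v : X → ℂ, ∑ x, κ x * ‖∑ y, G x y * ((κ y : ℂ) * v y)‖ ^ 2 ≤ ∑ x, κ x * ‖v x‖ ^ 2

/-- `Gm` and `kf` have at `q` the jets of the resolvent and of the absorption of a block update -/
structure BJ {b : Finset X} (q : ℝ × (b → ℝ)) (Gm : ℝ × (b → ℝ) → Matrix X X ℂ)
    (kf : ℝ → X → ℝ) (G : Matrix X X ℂ) (κ : X → ℝ) (mb : X → ℂ) : Prop where
  hG : HM Gm q G (fun c => gG G (c : X)) (GD G (mub G mb b))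
  hs : ∀ x y, G x y = G y x
  hk : ∀ x, ContDiffAt ℝ 2 (fun t => kf t x) q.1 ∧ kf q.1 x = κ x ∧
    deriv (fun t => kf t x) q.1 = -(ind b x * (mb x).im)

/-- the data of a block update -/
structure Blk (X : Type) [Fintype X] [DecidableEq X] where
  H : Matrix X X ℝ
  E : ℝ
  η : ℝ
  s : X → ℝ
  mb : X → ℂ
  b : Finset X

namespace Blk

variable (D : Blk X)

/-- the absorption at the time `t` -/
def kp (t : ℝ) (x : X) : ℝ := D.η + (D.s x - if x ∈ D.b then t else 0) * (D.mb x).im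

/-- the diagonal: fresh potential, self-energy, energy -/
def pt (r : ℝ × (D.b → ℝ)) (x : X) : ℂ :=
  (if h : x ∈ D.b then ((r.2 ⟨x, h⟩ : ℝ) : ℂ) + (r.1 : ℂ) * D.mb x else 0) -
    (D.s x : ℂ) * D.mb x - ⟨D.E, D.η⟩

/-- the resolvent at the time `r.1` with the fresh potential `r.2` -/
def G (r : ℝ × (D.b → ℝ)) : Matrix X X ℂ :=
  (D.H.map (fun a => (a : ℂ)) + Matrix.diagonal (D.pt r))⁻¹

end Blk

end Pool.Agent.AFJ
end
end -- Pool.Agent.AFJ.Defs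

section -- Pool.Agent.ABY.Defs

/-!
# The Theta threshold inside a stage: virtual final clocks, definitions (block Y of AND2B)

`M` is `G ∘ G` (complex) or `|G|²` (real), `K` bounds the absolute values of its entries. The running
sites which are not yet processed have the clock `lam + P`, `lam` the final clock of the stage; the
virtual matrix `(M⁻¹ - P)⁻¹` is the matrix at the final clocks in the absence of noise. `vir M P w` is
this matrix applied to `w = lam g` on the running sites.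
-/

set_option autoImplicit false

open scoped BigOperators Matrix

noncomputable section

namespace Pool.Agent.ABY

open Pool.Agent.LE.QF Pool.Agent.AFJ

variable {X : Type} [Fintype X] [DecidableEq X]

/-- a real diagonal matrix -/
def dg (𝕜 : Type) [RCLike 𝕜] (P : X → ℝ) : Matrix X X 𝕜 :=
  Matrix.diagonal fun x => ((P x : ℝ) : 𝕜)

/-- `(1 - M P)⁻¹` -/
def TT {𝕜 : Type} [RCLike 𝕜] (M : Matrix X X 𝕜) (P : X → ℝ) : Matrix X X 𝕜 :=
  (1 - M * dg 𝕜 P)⁻¹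

/-- `(1 - M P)⁻¹ M w` -/
def vir {𝕜 : Type} [RCLike 𝕜] (M : Matrix X X 𝕜) (P w : X → ℝ) : X → 𝕜 :=
  TT M P *ᵥ (M *ᵥ fun x => ((w x : ℝ) : 𝕜))

/-- `ψ = w + P be` -/
def psi {𝕜 : Type} [RCLike 𝕜] (P w : X → ℝ) (be : X → 𝕜) (x : X) : 𝕜 :=
  ((w x : ℝ) : 𝕜) + ((P x : ℝ) : 𝕜) * be x

/-- the data of the comparison: `|M| ≤ K`, `P ≥ 0` lives on `U ⊆ A`, and `∑_b K_ab P_b g_b ≤ ρ g_a` on `A` -/
structure Cmp {𝕜 : Type} [RCLike 𝕜] (M : Matrix X X 𝕜) (K : Matrix X X ℝ) (P g : X → ℝ)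
    (U A : Finset X) (ρ : ℝ) : Prop where
  hM : ∀ a b, ‖M a b‖ ≤ K a b
  hP : (∀ x, 0 ≤ P x) ∧ ∀ x, x ∉ U → P x = 0
  hU : U ⊆ A
  hg : ∀ a ∈ A, 0 < g a
  hρ : 0 ≤ ρ ∧ ρ < 1
  hK : ∀ a ∈ A, ∑ b, K a b * P b * g b ≤ ρ * g a

/-- the pair for a network: `|be| + q ≤ (1 + θ) g` on `R`, for the virtual clocks `P` and the weights `w` -/
def Yin (G : Matrix X X ℂ) (P w g : X → ℝ) (R : Finset X) (θ : ℝ) : Prop :=
  ∀ a ∈ R, ‖vir (BB G) P w a‖ + vir (KK G) P w a ≤ (1 + θ) * g a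

/-- the situation of the rows C: a network, the running block `b ⊆ U ⊆ R`, `κ` is at least `c₀ ≤ g ≤ C₀`
times the clocks, the diagonal is comparable with `g` -/
structure YBl (G : Matrix X X ℂ) (κ P w g : X → ℝ) (μ : X → ℂ) (b U R : Finset X)
    (c₀ C₀ κv μs Λ : ℝ) : Prop where
  net : Net G κ
  hc : 0 < c₀ ∧ c₀ ≤ 1 ∧ 1 ≤ C₀ ∧ 0 < κv ∧ κv ≤ 1 ∧ 0 ≤ μs ∧ 0 ≤ Λ
  hb : b ⊆ U ∧ U ⊆ R
  hg : ∀ a ∈ R, c₀ ≤ g a ∧ g a ≤ C₀ ∧ (G a a).im ≤ 3 / 2 * g a
  hP : (∀ x, 0 ≤ P x) ∧ (∀ x, x ∉ U → P x = 0) ∧ ∀ x ∈ U, 2 * (P x * g x) ≤ κ x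
  hw : (∀ x, 0 ≤ w x ∧ w x ≤ κ x) ∧ ∀ x, x ∉ R → w x = 0
  hv : ∀ c ∈ b, κv ≤ κ c
  hμ : (∀ c ∈ b, ‖μ c‖ ≤ μs) ∧ ∀ c, c ∉ b → μ c = 0
  hΛ : ∀ a ∈ R, ∑ c ∈ b, KK G a c ^ 2 ≤ Λ

end Pool.Agent.ABY
end
end -- Pool.Agent.ABY.Defs

section -- Pool.Agent.AFJ.Stmts

/-!
# One block update of the flow: jets and bounds at a point (block D3 of AND2B, MP_1906c1_mp)

MAIN IDEA. Let `Λ` bound `∑_{c ∈ b} K_xc²`, `K = |G|²`, and let `κv` be the smallest absorption in the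
running block `b`. The form `E(f) = (1/2) ∑_{x,y ∈ A} κ_x K_xy κ_y (f_x - f_y)²` of the network of the
nodes `A` (running and frozen ones, every node with its own absorption) has the EXACT drift
`L E = - E diag(1_b κ⁻²) E + e`, `e` = a Laplacian form with `|e(f)| ≤ C max_b |μ| / κv * E(f)`, and the
noise `E_c`, `c ∈ b`, is small relative to `E` as an operator: the white part is at most
`8 (ρ Λ / κv)^{1/2} E(f)`, the part seen by a positive matrix `S` with small diagonal `S0` is at most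
`8 ρ S0 / κv * E(f)`. No assumption on the frozen nodes or on the dead sites is used. Everything
follows from `(E_c f)_x = - 2 κ_x Re (G_xc β_xc)`, `|β_xc|² ≤ ρ_c D_x(f)`, `∑_c κ_c |β_xc|² ≤ D_x(f)`.
-/

set_option autoImplicit false

open scoped BigOperators Matrix

noncomputable section

namespace Pool.Agent.AFJ

open Pool.Agent.LE.QF

/-! ### A. Jets -/

/-- BGJ: the resolvent of a block update. Proof: let `M r = H + diag (pt r)`. (1) `Im (pt r x) = - kp`;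
if `M q u = v` then `Im ⟨u, M u⟩ = - ∑ kp |u|²`, so `M r` is injective for `r` near `q` (`kp > 0` near
`q.1`, a finite number of linear functions of the time) and `IsUnit (M r).det`. (2) `M` is a matrix of
affine functions of `r`: `HM M q (M q) (fun c => E_c) (diag (1_b mb))` (`JalStmt`: constants, coordinates,
the time `r.1`), `JmaStmt` (inverse): `∂_c G = - G E_c G = gG G c`, `LL G = - G diag (1_b mb) G +
∑_{c ∈ b} G E_c G E_c G`, and `(G E_c G E_c G) x y = G x c G c c G c y`: together `GD G (mub ..)`.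
(3) `G` is symmetric (`M` is). (4) Ward: `G - G^* = G (M^* - M) G^* = 2 i G diag(kp) G^*`, and
`(G - G^*) x z = 2 i Im (G x z)` by symmetry. (5) the norm: `u = G (κ v)`, `M u = κ v`,
`∑ κ |u|² = - Im ⟨u, M u⟩ ≤ ∑ κ |u| |v|`, Cauchy-Schwarz. -/
def BgjStmt : Prop :=
  JalStmt → JmaStmt → ∀ (X : Type) [Fintype X] [DecidableEq X] (D : Blk X) (q : ℝ × (D.b → ℝ)),
    (∀ x y, D.H x y = D.H y x) → (∀ x, 0 < D.kp q.1 x) →
      BJ q D.G D.kp (D.G q) (D.kp q.1) D.mb ∧ Net (D.G q) (D.kp q.1)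

/-- BKJ: jets of the squares, of the absolute squares, of the entries. Proof: `JalStmt`, as `JtbStmt`;
the second order terms are `∑_{c ∈ b} (G x c G c y)²` and `∑_{c ∈ b} |G x c G c y|²` (the coordinates
of the noise are the elements of `b`; `Finset.sum_coe_sort`). -/
def BkjStmt : Prop :=
  JalStmt → ∀ (X : Type) [Fintype X] [DecidableEq X] (b : Finset X) (q : ℝ × (b → ℝ))
    (Gm : ℝ × (b → ℝ) → Matrix X X ℂ) (kf : ℝ → X → ℝ) (G : Matrix X X ℂ) (κ : X → ℝ)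
    (mb : X → ℂ), BJ q Gm kf G κ mb →
    HM (fun r => BB (Gm r)) q (BB G) (fun c => dB G (c : X))
      (BB G * Matrix.diagonal (fun x => ((ind b x : ℝ) : ℂ)) * BB G + EB G (mub G mb b)) ∧
    HM (fun r => KK (Gm r)) q (KK G) (fun c => dK G (c : X))
      (KK G * Matrix.diagonal (ind b) * KK G + EK G (mub G mb b)) ∧
    ∀ x y, HJ (fun r => Gm r x y) q (G x y) (fun c => -(G x c * G c y)) (GD G (mub G mb b) x y)

/-- BEJ: the jet of the form of the network. Proof: `BkjStmt` and `JalStmt`: the entry `(x, y)`,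
`x, y ∈ A`, of the conductances is `kf x * kf y * KK x y`, with the derivatives `κ_x κ_y dK G c x y` and
`LL = κ_x κ_y ((K 1_b K) x y + EK x y) - (1_b(x) g_x κ_y + κ_x 1_b(y) g_y) K x y`, `g = Im mb` (`kf` depends on
the time only). `Dl` is linear, its entries are finite sums. Now the identity
`Dl (κ (K 1_b K) κ - (1_b g κ + κ 1_b g) K) = - EE diag(1_b κ⁻²) EE + Dl (the first part of ee)`:
all matrices have zero row sums (`EE *ᵥ 1 = 0`, `EE` symmetric), are zero outside of `A × A`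
(`b ⊆ A`), so it suffices to compare the entries `x ≠ y` in `A`: `EE = diag (κ ρ) - κ K κ` on `A`, so
`(EE diag(1_b κ⁻²) EE) x y = (κ K 1_b K κ) x y - 1_b(x) ρ_x K x y κ_y - κ_x K x y ρ_y 1_b(y)`
(the sum over `c ∈ b ⊆ A`; the diagonal entries `κ_c ρ_c - κ_c² K c c` of `EE` are multiplied with
`- κ K κ`: the terms with `K c c` complete the sum). -/
def BejStmt : Prop :=
  JalStmt → BkjStmt → ∀ (X : Type) [Fintype X] [DecidableEq X] (b A : Finset X) (q : ℝ × (b → ℝ))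
    (Gm : ℝ × (b → ℝ) → Matrix X X ℂ) (kf : ℝ → X → ℝ) (G : Matrix X X ℂ) (κ : X → ℝ)
    (mb : X → ℂ), BJ q Gm kf G κ mb → b ⊆ A → (∀ x, κ x ≠ 0) →
    HM (fun r => EE (Gm r) (kf r.1) A) q (EE G κ A) (fun c => Ec G κ A (c : X))
      (-(EE G κ A * Matrix.diagonal (fun x => ind b x / κ x ^ 2) * EE G κ A) +
        Dl (ee G κ (fun x => (mb x).im) (mub G mb b) A b))

/-- LAJ: the jet of `Λ_x = ∑_{y ∈ R} K_xy²`, with bounds of the gradient and of the drift. Proof: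
`BkjStmt`, `JalStmt`: `∂_c Λ = 2 ∑_{y ∈ R} K_xy dK_c(x, y)`, `LL Λ = ∑_{y ∈ R} (2 K_xy ((K 1_b K)_xy + EK_xy) +
∑_{c ∈ b} dK_c(x, y)²)`. `|dK_c(x, y)| ≤ 2 |G_xy| |G_xc| |G_cy|`, so `dK_c² ≤ 4 K_xy K_xc K_cy`: the drift is at
most `6 ∑_{y ∈ R, c ∈ b} K_xy K_xc K_cy + 2 ∑_{y ∈ R} K_xy EK_xy`. The gradient: `(∂_c Λ)² ≤ 16 K_xc
(∑_{y ∈ R} K_xy |G_xy| |G_cy|)² ≤ 16 K_xc Λ_x ∑_{y ∈ R} K_xy K_cy`. -/
def LajStmt : Prop :=
  JalStmt → BkjStmt → ∀ (X : Type) [Fintype X] [DecidableEq X] (b R : Finset X) (q : ℝ × (b → ℝ))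
    (Gm : ℝ × (b → ℝ) → Matrix X X ℂ) (kf : ℝ → X → ℝ) (G : Matrix X X ℂ) (κ : X → ℝ)
    (mb : X → ℂ) (x : X), BJ q Gm kf G κ mb →
    ∃ (g' : b → ℝ) (l' : ℝ), HJ (fun r => LaR (Gm r) R x) q (LaR G R x) g' l' ∧
      l' ≤ 6 * (∑ y ∈ R, ∑ c ∈ b, KK G x y * KK G x c * KK G c y) +
        2 * ∑ y ∈ R, KK G x y * EK G (mub G mb b) x y ∧
      ∑ c, g' c ^ 2 ≤ 16 * LaR G R x * ∑ y ∈ R, ∑ c ∈ b, KK G x y * KK G x c * KK G c y

/-! ### B. Bounds at a point: the noise of the form -/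

/-- BET: the formula for the noise and the bounds for `β`. Proof: (1) `Ec` is a Laplacian:
`(Ec f) x = ∑_{y ∈ A} κ_x κ_y dK_c(x, y) (f_x - f_y)` for `x ∈ A`, `0` otherwise, and
`dK_c(x, y) = - 2 Re (conj (G x y) G x c G c y)` (`G` symmetric). (2) `∑_{x ∈ A} κ_x G_xc β_xc = 0`: the
double sum over `x, y ∈ A` of `κ_x κ_y conj(G_xy) G_xc G_cy (f_x - f_y)` is antisymmetric. (3)
Cauchy-Schwarz with the weights `κ_y`. (4) `hn` with `v y = conj (G x y) (f x - f y)` for `y ∈ A`, `0`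
otherwise; drop the `c` outside of `b`. (5) `qf (EE) f = (1/2) ∑_{x ∈ A} κ_x D_x(f)`. -/
def BetStmt : Prop :=
  ∀ (X : Type) [Fintype X] [DecidableEq X] (G : Matrix X X ℂ) (κ : X → ℝ) (A : Finset X)
    (f : X → ℝ), Net G κ →
    (∀ c x, x ∈ A → (Ec G κ A c *ᵥ f) x = -(2 * κ x * (G x c * bet G κ A f x c).re)) ∧
    (∀ c x, x ∉ A → (Ec G κ A c *ᵥ f) x = 0) ∧
    (∀ c, ∑ x ∈ A, (κ x : ℂ) * (G x c * bet G κ A f x c) = 0) ∧
    (∀ x c, ‖bet G κ A f x c‖ ^ 2 ≤ rho G κ A c * DD G κ A f x) ∧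
    (∀ (x : X) (b : Finset X), ∑ c ∈ b, κ c * ‖bet G κ A f x c‖ ^ 2 ≤ DD G κ A f x) ∧
    qf (EE G κ A) f = (1 / 2) * ∑ x ∈ A, κ x * DD G κ A f x

/-- NBW: the white part of the noise. Proof: `BetStmt`: `(Ec f)_x² / κ_x ≤ 4 κ_x K_xc |β_xc|²`, and for fixed
`x`: `∑_{c ∈ b} K_xc |β_xc|² ≤ (∑ K_xc²)^{1/2} (∑ |β_xc|⁴)^{1/2} ≤ Λ^{1/2} (ρ D_x · D_x / κv)^{1/2}`. -/
def NbwStmt : Prop :=
  BetStmt → ∀ (X : Type) [Fintype X] [DecidableEq X] (G : Matrix X X ℂ) (κ : X → ℝ)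
    (A b : Finset X) (f : X → ℝ) (κv Λ r : ℝ), Net G κ → 0 < κv → 0 ≤ Λ → 0 ≤ r →
    (∀ c ∈ b, κv ≤ κ c) → (∀ c ∈ b, rho G κ A c ≤ r) →
    (∀ x ∈ A, ∑ c ∈ b, KK G x c ^ 2 ≤ Λ) →
      ∑ c ∈ b, ∑ x ∈ A, (Ec G κ A c *ᵥ f) x ^ 2 / κ x ≤
        8 * Real.sqrt (r * Λ / κv) * qf (EE G κ A) f

/-- NBS: the smooth part of the noise. Proof: with `j = Ec f` (zero outside of `A`): `qf S j ≤
(∑_x |j_x| (S x x)^{1/2})² ≤ S0 (∑_{x ∈ A} |j_x|)²` (`|S x y| ≤ (S x x S y y)^{1/2}`, `S ≥ 0`), and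
`∑_{x ∈ A} |j_x| ≤ 2 ∑ κ_x |G_xc| |β_xc| ≤ 2 (ρ_c)^{1/2} (∑_{x ∈ A} κ_x |β_xc|²)^{1/2}`; then
`∑_{c ∈ b} ∑_{x ∈ A} κ_x |β_xc|² ≤ (1/κv) ∑_{x ∈ A} κ_x D_x = (2/κv) qf EE f`. -/
def NbsStmt : Prop :=
  BetStmt → ∀ (X : Type) [Fintype X] [DecidableEq X] (G : Matrix X X ℂ) (κ : X → ℝ)
    (A b : Finset X) (f : X → ℝ) (S : Matrix X X ℝ) (κv S0 r : ℝ), Net G κ → 0 < κv → 0 ≤ r →
    (∀ c ∈ b, κv ≤ κ c) → (∀ c ∈ b, rho G κ A c ≤ r) →
    (∀ x y, S x y = S y x) → (∀ h, 0 ≤ qf S h) → (∀ x ∈ A, S x x ≤ S0) →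
      ∑ c ∈ b, qf S (Ec G κ A c *ᵥ f) ≤ 8 * r * S0 / κv * qf (EE G κ A) f

/-- DRE: the error term of the drift. Proof: `qf (Dl c) f = (1/2) ∑ c_xy (f_x - f_y)²` for symmetric `c`.
First part: `∑_{x ∈ b} (ρ_x - g_x) D_x(f)`, at most `δ ∑_{x ∈ b} D_x ≤ (δ/κv) ∑_{x ∈ A} κ_x D_x`. Second part:
`(1/2) ∑_{x, y ∈ A} κ_x κ_y EK (f_x - f_y)² = Re ∑_{c ∈ b} μ_c ∑_{x, y ∈ A} κ_x κ_y conj(G_xy) G_xc G_cy (f_x - f_y)²`,
and the inner double sum is `2 ∑_{x ∈ A} κ_x G_xc (f_x - f_c) β_xc` (write `f_x - f_y = (f_x - f_c) - (f_y - f_c)`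
in one factor, symmetry): at most `2 D_c(f)^{1/2} (∑_{x ∈ A} κ_x |β_xc|²)^{1/2}`; Cauchy-Schwarz over `c`:
`2 μs (∑_{c ∈ b} D_c)^{1/2} (∑_c ∑_x κ_x |β_xc|²)^{1/2} ≤ 2 μs (2 E/κv)^{1/2} (2 E/κv)^{1/2}`, with
`E = qf EE f`. -/
def DreStmt : Prop :=
  BetStmt → ∀ (X : Type) [Fintype X] [DecidableEq X] (G : Matrix X X ℂ) (κ g : X → ℝ)
    (μ : X → ℂ) (A b : Finset X) (f : X → ℝ) (κv μs δ : ℝ), Net G κ → 0 < κv → b ⊆ A →
    (∀ c ∈ b, κv ≤ κ c) → (∀ x ∈ b, |rho G κ A x - g x| ≤ δ) → 0 ≤ δ → 0 ≤ μs →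
    (∀ c ∈ b, ‖μ c‖ ≤ μs) → (∀ c, c ∉ b → μ c = 0) →
      |qf (Dl (ee G κ g μ A b)) f| ≤ (2 * δ + 4 * μs) / κv * qf (EE G κ A) f

/-! ### C. Bounds at a point: entries -/

/-- ENB: rows of `G` and of `G μ G`. Proof: (1) `hw` with `z = x`. (2) `|∑_c G_xc μ_c G_cy| ≤
μs (∑_{c ∈ b} K_xc)^{1/2} (∑_{c ∈ b} K_cy)^{1/2}`. (3) `hn` with `v c = μ_c G_xc / κ_c` on `b` (`GD G μ x y =
∑_c G_yc (μ_c G_xc)`). (4) the square of (2) times (3). (5) `|EK| ≤ 2 |G_xy| |u_y|` and Hoelder with the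
exponents `4/3`, `4` (twice Cauchy-Schwarz: `∑ K^{3/2} |u| = ∑ K · K^{1/2} |u|`, `∑ K |u|² ≤
(∑ K²)^{1/2} (∑ |u|⁴)^{1/2}`). (6) `|G_xc G_cy|² = K_xc K_yc`, Cauchy-Schwarz. -/
def EnbStmt : Prop :=
  ∀ (X : Type) [Fintype X] [DecidableEq X] (G : Matrix X X ℂ) (κ : X → ℝ) (μ : X → ℂ)
    (b R T : Finset X) (κv κR μs r : ℝ), Net G κ → 0 < κv → 0 < κR → 0 ≤ μs → 0 ≤ r → R ⊆ T →
    (∀ c ∈ b, κv ≤ κ c) → (∀ c ∈ R, κR ≤ κ c) → (∀ c ∈ b, ‖μ c‖ ≤ μs) → (∀ c, c ∉ b → μ c = 0) →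
    (∀ x ∈ T, (∑ c ∈ b, κ c * KK G x c) ≤ r) →
    (∀ x, ∑ y, κ y * KK G x y = (G x x).im) ∧
    (∀ x ∈ T, ∀ y ∈ T, ‖GD G μ x y‖ ≤ μs * r / κv) ∧
    (∀ x ∈ T, ∑ y, κ y * ‖GD G μ x y‖ ^ 2 ≤ μs ^ 2 * r / κv ^ 2) ∧
    (∀ x ∈ T, ∑ y ∈ R, ‖GD G μ x y‖ ^ 4 ≤ (μs * r / κv) ^ 2 * (μs ^ 2 * r / (κv ^ 2 * κR))) ∧
    (∀ x, (∑ y ∈ R, KK G x y * EK G μ x y) ^ 4 ≤
      16 * LaR G R x ^ 3 * ∑ y ∈ R, ‖GD G μ x y‖ ^ 4) ∧
    ∀ x y, ∑ c ∈ b, ‖G x c * G c y‖ ^ 2 ≤ Real.sqrt (LaR G b x) * Real.sqrt (LaR G b y)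

/-- LAT: the triple sum in the drift of `Λ_x`. Proof: the terms are nonnegative and `b ⊆ R`, so the sum
is at most `qf K u` with `u = K_x. 1_R`; by the form bound it is at most `a ∑ u² + qf S u`, `∑ u² = Λ_x`,
`qf S u ≤ S0 (∑_{y ∈ R} K_xy)² ≤ S0 (r / κR)²` (`∑_{y ∈ R} κ_y K_xy ≤ r`). -/
def LatStmt : Prop :=
  ∀ (X : Type) [Fintype X] [DecidableEq X] (G : Matrix X X ℂ) (κ : X → ℝ)
    (b R : Finset X) (S : Matrix X X ℝ) (x : X) (κR a r S0 : ℝ), Net G κ → b ⊆ R → 0 < κR →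
    (∀ c ∈ R, κR ≤ κ c) → (∑ c ∈ R, κ c * KK G x c) ≤ r →
    (∀ x y, S x y = S y x) → (∀ h, 0 ≤ qf S h) → (∀ x ∈ R, S x x ≤ S0) → 0 ≤ S0 →
    (∀ u : X → ℝ, (∀ y, y ∉ R → u y = 0) → qf (KK G) u ≤ a * ∑ y, u y ^ 2 + qf S u) →
      ∑ y ∈ R, ∑ c ∈ b, KK G x y * KK G x c * KK G c y ≤ a * LaR G R x + S0 * (r / κR) ^ 2

/-- YNB: the noise of `B = G ∘ G` restricted to `R`. Proof: `(dB c v)_x = - 2 G_xc m_xc`,
`m_xc = ∑_{y ∈ R} G_xy G_cy v_y`. `∑_{c ∈ b} |m_xc|² ≤ (1/κv) ∑ κ_c |m_xc|² ≤ (1/κv) ∑_{y ∈ R} K_xy |v_y|² / κ_y` (`hn` with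
`G_xy v_y / κ_y`), `|m_xc|² ≤ (∑_{y ∈ R} K_cy) (∑_{y ∈ R} K_xy |v_y|²) ≤ (r/κR) ∑ K_xy |v_y|²`; so
`∑_{c ∈ b} K_xc |m_xc|² ≤ Λ^{1/2} (∑_c |m_xc|⁴)^{1/2} ≤ (Λ r / (κv κR²))^{1/2} ∑_{y ∈ R} K_xy |v_y|²`, and
`∑_{x ∈ R} K_xy ≤ r/κR`. The adjoint: `dB c` is symmetric. -/
def YnbStmt : Prop :=
  ∀ (X : Type) [Fintype X] [DecidableEq X] (G : Matrix X X ℂ) (κ : X → ℝ)
    (b R : Finset X) (κv κR Λ r : ℝ), Net G κ → 0 < κv → 0 < κR → 0 ≤ Λ → 0 ≤ r →
    (∀ c ∈ b, κv ≤ κ c) → (∀ c ∈ R, κR ≤ κ c) →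
    (∀ x ∈ R, ∑ c ∈ b, KK G x c ^ 2 ≤ Λ) → (∀ x ∈ R ∪ b, ∑ y ∈ R, κ y * KK G x y ≤ r) →
    ∀ v : X → ℂ, (∀ y, y ∉ R → v y = 0) →
      ∑ c ∈ b, ∑ x ∈ R, ‖(dB G c *ᵥ v) x‖ ^ 2 ≤
        4 * Real.sqrt (Λ * r / (κv * κR ^ 2)) * (r / κR) * ∑ y, ‖v y‖ ^ 2 ∧
      ∑ c ∈ b, ∑ x ∈ R, ‖((dB G c)ᴴ *ᵥ v) x‖ ^ 2 ≤
        4 * Real.sqrt (Λ * r / (κv * κR ^ 2)) * (r / κR) * ∑ y, ‖v y‖ ^ 2

end Pool.Agent.AFJ
end
end -- Pool.Agent.AFJ.Stmts

section -- Pool.Agent.ABY.Stmts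

/-!
# The Theta threshold inside a stage: statements (block Y of AND2B, MP_1906c1_mp)

MAIN IDEA. `B = G ∘ G`, `K = |G|²`. Under the ladder flow `B⁻¹ - (clock)` is conserved, so with
`P = (clock) - lam` on the unprocessed running sites, `lam` the final clock of the stage, the vector
`be = (1 - B P)⁻¹ B w`, `w = lam g` on the running sites `R`, has no drift of the first order, also when
the blocks are processed one after the other; the same for `q = (1 - K P)⁻¹ K w`. The invariant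
`|be| + q ≤ (1 + θ) g` on `R` (`Yin`) is not worse at the start of the next stage (VST), is exactly
monotone if any set of sites is frozen (VFR), loses the flux share of `D` if `D` is killed (VKL), and
for `P = 0` it gives `∑_b w_b (Re G_ab)² ≤ ((1 + θ)/2) g_a` (VTH), which is the hypothesis of
`Helper92_AND.ThH` and of the regauging. Everything is in the sup norm.
-/

set_option autoImplicit false

open scoped BigOperators Matrix

noncomputable section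

namespace Pool.Agent.ABY

open Pool.Agent.LE.QF Pool.Agent.AFJ

/-! ### A. Comparison -/

/-- CMP: comparison. Proof: (1) let `r` be the maximum over `a ∈ U` of `(N a - u a) / g a` (if `U` is empty
all sums vanish and the claim is the hypothesis). If `r > 0`, at a maximal `a`:
`N a - u a ≤ ∑_b K_ab P_b (N b - u b) ≤ r ∑_b K_ab P_b g_b ≤ r ρ g_a` (`K ≥ 0` by `hM`, `P = 0` off `U`), so
`r ≤ ρ r`, a contradiction. So `N ≤ u` on `U`, and then on `A` by the first inequality. (2) (1) for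
`N a = ‖f a‖`: `‖f a‖ ≤ ‖f a - ∑ M P f‖ + ∑ K P ‖f‖`. -/
def CmpStmt : Prop :=
  ∀ (𝕜 : Type) [RCLike 𝕜] (X : Type) [Fintype X] [DecidableEq X] (M : Matrix X X 𝕜)
    (K : Matrix X X ℝ) (P g : X → ℝ) (U A : Finset X) (ρ : ℝ), Cmp M K P g U A ρ →
    (∀ N u : X → ℝ, (∀ a ∈ A, N a - ∑ b, K a b * (P b * N b) ≤ u a - ∑ b, K a b * (P b * u b)) →
      ∀ a ∈ A, N a ≤ u a) ∧
    ∀ (f : X → 𝕜) (u : X → ℝ),
      (∀ a ∈ A, ‖f a - ∑ b, M a b * (((P b : ℝ) : 𝕜) * f b)‖ ≤ u a - ∑ b, K a b * (P b * u b)) →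
        ∀ a ∈ A, ‖f a‖ ≤ u a

/-- VEX (uses CMP): existence, the equation, uniqueness, bounds. Proof: (1) if `(1 - M P) f = 0` then CMP
(2) with `u = 0` gives `f = 0` on `A`, so `P f = 0` and `f = M (P f) = 0`: the matrix is injective
(`Matrix.mulVec_injective_iff_isUnit`, `Matrix.isUnit_iff_isUnit_det`). (2) `(1 - M P) be = M w`. (3) the
same with (1). (4) `f = TT M P h` has `f - M P f = h`; CMP (2) with `u = (c / (1 - ρ)) g`:
`u - K P u ≥ (c / (1 - ρ)) (g - ρ g)`. (5) CMP (2) for `vir M P w` and `u = vir K P w`: `‖(M w) a‖ ≤ (K w) a`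
(`Cmp K K ..` holds too, `K ≥ 0`). -/
def VexStmt : Prop :=
  CmpStmt → ∀ (𝕜 : Type) [RCLike 𝕜] (X : Type) [Fintype X] [DecidableEq X] (M : Matrix X X 𝕜)
    (K : Matrix X X ℝ) (P g : X → ℝ) (U A : Finset X) (ρ : ℝ), Cmp M K P g U A ρ →
    IsUnit (1 - M * dg 𝕜 P).det ∧
    (∀ (w : X → ℝ) (a : X), vir M P w a = ∑ b, M a b * psi P w (vir M P w) b) ∧
    (∀ (w : X → ℝ) (be : X → 𝕜), (∀ a, be a = ∑ b, M a b * psi P w be b) → be = vir M P w) ∧
    (∀ (h : X → 𝕜) (c : ℝ), 0 ≤ c → (∀ a ∈ A, ‖h a‖ ≤ c * g a) →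
      ∀ a ∈ A, ‖(TT M P *ᵥ h) a‖ ≤ c / (1 - ρ) * g a) ∧
    ∀ w : X → ℝ, (∀ x, 0 ≤ w x) → ∀ a ∈ A, ‖vir M P w a‖ ≤ vir K P w a

/-- TSP (uses CMP): the bound for square functions. Proof: `f c = TT M P (h c)`, so
`f c a = h c a + ∑_b M_ab P_b f c b` (VEX (1)). `N a = (∑_c ‖f c a‖²)^(1/2)` satisfies
`N a ≤ V g a + ∑_b K_ab P_b N b` on `A` (Minkowski), CMP (1) with `u = (V / (1 - ρ)) g`. -/
def TspStmt : Prop :=
  CmpStmt → VexStmt → ∀ (𝕜 : Type) [RCLike 𝕜] (X : Type) [Fintype X] [DecidableEq X]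
    (M : Matrix X X 𝕜) (K : Matrix X X ℝ) (P g : X → ℝ) (U A : Finset X) (ρ : ℝ),
    Cmp M K P g U A ρ → ∀ (ι : Type) (b : Finset ι) (h : ι → X → 𝕜) (V : ℝ), 0 ≤ V →
      (∀ a ∈ A, ∑ c ∈ b, ‖h c a‖ ^ 2 ≤ (V * g a) ^ 2) →
        ∀ a ∈ A, ∑ c ∈ b, ‖(TT M P *ᵥ h c) a‖ ^ 2 ≤ (V / (1 - ρ) * g a) ^ 2

/-! ### B. The invariant -/

/-- VST (uses CMP, VEX): the start of a stage. All running sites have the clock `s`, the final clock is
`s / 2`. Proof: `vir M 0 w = M w`. `Cmp` holds for `BB G` and for `KK G` with `K = KK G`, `U = A = R`,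
`ρ = (1 + e)/2`. Let `be, q` be the new pair, `be⁰, q⁰` the old one; then `be - B P be = be⁰/2`,
`q - K P q = q⁰/2`. CMP (2) with `f = be`, `u = ((1 + θ)/(1 - e)) g - q`:
`u - K P u = ((1 + θ)/(1 - e)) (g - q⁰/2) - q⁰/2 ≥ (1 + θ) g/2 - q⁰/2 ≥ ‖be⁰‖/2`, because
`g - q⁰/2 ≥ g (1 - e)/2`. -/
def VstStmt : Prop :=
  CmpStmt → VexStmt → ∀ (X : Type) [Fintype X] [DecidableEq X] (G : Matrix X X ℂ) (g : X → ℝ)
    (R : Finset X) (s e θ : ℝ), 0 < s → 0 ≤ e → e < 1 → 0 ≤ θ → (∀ a ∈ R, 0 < g a) →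
    (∀ a ∈ R, ∑ b ∈ R, KK G a b * (s * g b) ≤ (1 + e) * g a) →
    Yin G 0 (fun x => ind R x * (s * g x)) g R θ →
      Yin G (fun x => ind R x * (s / 2)) (fun x => ind R x * (s / 2 * g x)) g R
        ((1 + θ) / (1 - e) - 1)

/-- VFR (uses CMP, VEX): freezing the sites of `N`, at any moment. Proof: let `be, q` be the pair for
`P, w` and `be', q'` the pair for the new `P', w'`; `δ = be - be'` satisfies
`δ - B P' δ = B (1_N (w + P be))`, `δq = q - q'` the same with `K`. By CMP (2) for `P'` (`Cmp` holds for `P'`)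
and `‖be‖ ≤ q` on `R` (VEX (5)): `‖δ‖ ≤ δq` on `R`, so `‖be'‖ + q' ≤ ‖be‖ + ‖δ‖ + q - δq ≤ ‖be‖ + q`. -/
def VfrStmt : Prop :=
  CmpStmt → VexStmt → ∀ (X : Type) [Fintype X] [DecidableEq X] (G : Matrix X X ℂ)
    (P w g : X → ℝ) (U R N : Finset X) (ρ : ℝ), Cmp (BB G) (KK G) P g U R ρ → N ⊆ R →
    (∀ x, 0 ≤ w x) → ∀ a ∈ R,
      ‖vir (BB G) (fun x => (1 - ind N x) * P x) (fun x => (1 - ind N x) * w x) a‖ +
        vir (KK G) (fun x => (1 - ind N x) * P x) (fun x => (1 - ind N x) * w x) a ≤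
      ‖vir (BB G) P w a‖ + vir (KK G) P w a

/-- VKL (uses CMP, VEX): the start of the kill of `D`: the final clock is `0` on `D` and `s` on the other
running sites. Proof: `be¹ = B w'`, `q¹ = K w'` with the new `w'`: `‖be¹‖ + q¹ ≤ ‖be⁰‖ + q⁰` (the sum over
`D` has the absolute value at most the one of `K`). `Cmp` with `U = D`, `A = R`, `ρ = e`. CMP (2) with
`f = be`, `be - B P be = be¹`, `u = ((1 + θ)/(1 - e)) g - q`: `u - K P u ≥ (1 + θ) g - q¹ ≥ ‖be¹‖` on `R`. -/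
def VklStmt : Prop :=
  CmpStmt → VexStmt → ∀ (X : Type) [Fintype X] [DecidableEq X] (G : Matrix X X ℂ) (g : X → ℝ)
    (R D : Finset X) (s e θ : ℝ), 0 < s → 0 ≤ e → e < 1 → 0 ≤ θ → D ⊆ R → (∀ a ∈ R, 0 < g a) →
    (∀ a ∈ R, ∑ b ∈ D, KK G a b * (s * g b) ≤ e * g a) →
    Yin G 0 (fun x => ind R x * (s * g x)) g R θ →
      Yin G (fun x => ind D x * s) (fun x => ind (R \ D) x * (s * g x)) g R
        ((1 + θ) / (1 - e) - 1)

/-- VTH: the output. Proof: `vir M 0 w = M w`; `2 (Re z)² = |z|² + Re z²`, and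
`Re ∑ w_b G_ab² ≤ ‖∑ w_b G_ab²‖`. -/
def VthStmt : Prop :=
  ∀ (X : Type) [Fintype X] [DecidableEq X] (G : Matrix X X ℂ) (w g : X → ℝ) (R : Finset X)
    (θ : ℝ), Yin G 0 w g R θ → ∀ a ∈ R, ∑ b, w b * (G a b).re ^ 2 ≤ (1 + θ) / 2 * g a

/-- VRG: the change by a regauging or a release (rows `p = G_a.`, `p' = G'_a.`). Proof: the differences are
at most `∑ w ‖p'² - p²‖ + ∑ |w' - w| ‖p'‖²`, `‖p'² - p²‖ ≤ ‖p' - p‖ (2 ‖p‖ + ‖p' - p‖)` (the same bound for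
`|‖p'‖² - ‖p‖²|`), Cauchy-Schwarz with the weights `k`, and `∑ k ‖p'‖² ≤ (γ + δ)²` (Minkowski). -/
def VrgStmt : Prop :=
  ∀ (X : Type) [Fintype X] [DecidableEq X] (p p' : X → ℂ) (k w w' : X → ℝ) (δ γ d : ℝ),
    0 ≤ δ → 0 ≤ γ → 0 ≤ d → (∀ b, 0 ≤ w b ∧ w b ≤ k b) → (∀ b, |w' b - w b| ≤ d * k b) →
    ∑ b, k b * ‖p' b - p b‖ ^ 2 ≤ δ ^ 2 → ∑ b, k b * ‖p b‖ ^ 2 ≤ γ ^ 2 →
      |‖∑ b, (w' b : ℂ) * p' b ^ 2‖ - ‖∑ b, (w b : ℂ) * p b ^ 2‖| +
        |∑ b, w' b * ‖p' b‖ ^ 2 - ∑ b, w b * ‖p b‖ ^ 2| ≤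
      2 * (2 * δ * γ + δ ^ 2) + 2 * d * (γ + δ) ^ 2

/-! ### C. The flow of a block -/

/-- VJT: the jet of the virtual vector; `e` is the error term in the drift of `M` (`EB G μ` or `EK G μ`).
Proof: `F r = 1 - M r * dg (Pf r.1)` has the jet `(1 - v P, - g_c P, - (v 1_b v + e) P + v 1_b)` (`JalStmt`,
`JmaStmt`; `P' = - 1_b`), `F⁻¹` has `(T, T g_c P T, T ((v 1_b v + e) P - v 1_b) T + ∑ T g_c P T g_c P T)`.
`M w` has `(v w, g_c w, (v 1_b v + e) w)`. The product, with `T v w = be`, `v ψ = be` (`ψ = w + P be`,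
`(1 - v P) be = v w`): `LL = T (v 1_b v + e) ψ - T v 1_b be + ∑ T g_c P T g_c ψ`, and `v 1_b v ψ = v 1_b be`
cancels. -/
def VjtStmt : Prop :=
  JalStmt → JmaStmt → ∀ (𝕜 : Type) [RCLike 𝕜] (X : Type) [Fintype X] [DecidableEq X]
    (b : Finset X) (q : ℝ × (b → ℝ)) (M : ℝ × (b → ℝ) → Matrix X X 𝕜) (v e : Matrix X X 𝕜)
    (gM : b → Matrix X X 𝕜) (Pf : ℝ → X → ℝ) (P w : X → ℝ),
    HM M q v gM (v * dg 𝕜 (ind b) * v + e) →
    (∀ x, ContDiffAt ℝ 2 (fun t => Pf t x) q.1 ∧ Pf q.1 x = P x ∧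
      deriv (fun t => Pf t x) q.1 = -ind b x) →
    IsUnit (1 - v * dg 𝕜 P).det → ∀ a,
      HJ (fun r => vir (M r) (Pf r.1) w a) q (vir v P w a)
        (fun c => (TT v P *ᵥ (gM c *ᵥ psi P w (vir v P w))) a)
        ((TT v P *ᵥ (e *ᵥ psi P w (vir v P w))) a +
          ∑ c, (TT v P *ᵥ (gM c *ᵥ (dg 𝕜 P *ᵥ (TT v P *ᵥ
            (gM c *ᵥ psi P w (vir v P w)))))) a)

/-- VGR (uses VEX, TSP): the gradient. Proof: `Cmp` holds for `BB G`, `KK G` with `U`, `A = R`, `ρ = 3/4`: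
`∑ K_ab P_b g_b ≤ (1/2) ∑ κ_b K_ab = (1/2) Im G_aa` (`hw` of `Net`, `hP`). `‖(M w) a‖ ≤ Im G_aa ≤ (3/2) g_a`, so
`‖be_a‖ ≤ 6 g_a` on `R` (VEX (4)) and `‖ψ_y‖ ≤ 4 κ_y` for all `y`. Let `m_zc = ∑_y G_zy ψ_y G_yc` for `BB`
(`∑_y conj(G_zy) G_yc ψ_y` for `KK`): `(dB G c ψ)_z = - 2 G_zc m_zc`, `(dK G c ψ)_z = - 2 Re (G_zc m_zc)`.
`|m_zc| ≤ 4 (Im G_zz Im G_cc)^(1/2) ≤ 6 C₀`, and `∑_c κ_c |m_zc|² ≤ 16 Im G_zz ≤ 24 C₀` (`hn` with `v_y = ψ_y G_zy / κ_y` or its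
conjugate version), so `∑_(c ∈ b) K_zc |m_zc|² ≤ (∑ K_zc²)^(1/2) (∑ |m|⁴)^(1/2) ≤ C (Λ / κv)^(1/2)` for `z ∈ R`. TSP with
`V = C (Λ/κv)^(1/4) / c₀`. -/
def VgrStmt : Prop :=
  CmpStmt → VexStmt → TspStmt → ∀ c₀ C₀ : ℝ, ∃ C : ℝ, 1 ≤ C ∧
    ∀ (X : Type) [Fintype X] [DecidableEq X] (G : Matrix X X ℂ) (κ P w g : X → ℝ) (μ : X → ℂ)
      (b U R : Finset X) (κv μs Λ : ℝ), YBl G κ P w g μ b U R c₀ C₀ κv μs Λ →
      Cmp (BB G) (KK G) P g U R (3 / 4) ∧ Cmp (KK G) (KK G) P g U R (3 / 4) ∧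
      (∀ y, ‖psi P w (vir (BB G) P w) y‖ ≤ 4 * κ y ∧ |psi P w (vir (KK G) P w) y| ≤ 4 * κ y) ∧
      (∀ a ∈ R, ∑ c ∈ b, ‖(TT (BB G) P *ᵥ (dB G c *ᵥ psi P w (vir (BB G) P w))) a‖ ^ 2 ≤
        C * Real.sqrt (Λ / κv)) ∧
      ∀ a ∈ R, ∑ c ∈ b, ((TT (KK G) P *ᵥ (dK G c *ᵥ psi P w (vir (KK G) P w))) a) ^ 2 ≤
        C * Real.sqrt (Λ / κv)

/-- VDR (uses VEX, TSP, VGR, `EnbStmt`): the drift. Proof: first term, `BB`: `(EB G μ ψ)_z =
2 ∑_y G_zy (G μ G)_zy ψ_y`, at most `8 ∑_y κ_y |G_zy| |(G μ G)_zy| ≤ 8 (Im G_zz)^(1/2) (∑_y κ_y |(G μ G)_zy|²)^(1/2) ≤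
C μs / κv` (`EnbStmt` (3) with `r = (3/2) C₀`, `T = R`), then VEX (4) (`g ≥ c₀`); `KK` the same. Second term: let
`f^c = TT M P (dM_c ψ)`, `∑_(c ∈ b) ‖f^c_y‖² ≤ C (Λ/κv)^(1/2) = V²` for `y ∈ R` (VGR). For `z ∈ R`:
`|(dB_c (P f^c))_z| ≤ 2 ∑_(y ∈ U) |G_zc| |G_zy| |G_cy| P_y |f^c_y|`, the sum over `c ∈ b` is at most
`2 ∑_(y ∈ U) |G_zy| P_y (∑_c K_zc K_cy)^(1/2) V`, `P_y ≤ κ_y / (2 c₀)`, and by Cauchy-Schwarz
`∑_y κ_y |G_zy| (∑_c K_zc K_cy)^(1/2) ≤ (Im G_zz)^(1/2) (∑_c K_zc Im G_cc)^(1/2) ≤ C κv^(-1/2)`. The same for `dK`. Then VEX (4) for the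
vector `∑_c dM_c (P f^c)` (`TT` is linear). -/
def VdrStmt : Prop :=
  CmpStmt → VexStmt → TspStmt → VgrStmt → EnbStmt → ∀ c₀ C₀ : ℝ, ∃ C : ℝ, 1 ≤ C ∧
    ∀ (X : Type) [Fintype X] [DecidableEq X] (G : Matrix X X ℂ) (κ P w g : X → ℝ) (μ : X → ℂ)
      (b U R : Finset X) (κv μs Λ : ℝ), YBl G κ P w g μ b U R c₀ C₀ κv μs Λ → ∀ a ∈ R,
      ‖(TT (BB G) P *ᵥ (EB G μ *ᵥ psi P w (vir (BB G) P w))) a +
          ∑ c ∈ b, (TT (BB G) P *ᵥ (dB G c *ᵥ (dg ℂ P *ᵥ (TT (BB G) P *ᵥ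
            (dB G c *ᵥ psi P w (vir (BB G) P w)))))) a‖ ≤
        C * (μs / κv + Real.sqrt (Real.sqrt (Λ / κv)) / Real.sqrt κv) ∧
      |(TT (KK G) P *ᵥ (EK G μ *ᵥ psi P w (vir (KK G) P w))) a +
          ∑ c ∈ b, (TT (KK G) P *ᵥ (dK G c *ᵥ (dg ℝ P *ᵥ (TT (KK G) P *ᵥ
            (dK G c *ᵥ psi P w (vir (KK G) P w)))))) a| ≤
        C * (μs / κv + Real.sqrt (Real.sqrt (Λ / κv)) / Real.sqrt κv)

/-- VBL (uses VJT, VGR, VDR, BKJ): the pair in the flow of a block: jets with bounds. Proof: `BkjStmt` gives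
the jets of `BB (Gm r)`, `KK (Gm r)` with `e = EB G μ`, `EK G μ`, `μ = mub G mb b` (`dg 𝕜 (ind b)` is the diagonal
matrix there); VEX (1) for `IsUnit`; VJT; VGR, VDR (`Finset.sum_coe_sort`: the coordinates are the
elements of `b`). -/
def VblStmt : Prop :=
  JalStmt → JmaStmt → BkjStmt → EnbStmt → CmpStmt → VexStmt → TspStmt → VjtStmt → VgrStmt →
    VdrStmt → ∀ c₀ C₀ : ℝ, ∃ C : ℝ, 1 ≤ C ∧
    ∀ (X : Type) [Fintype X] [DecidableEq X] (b : Finset X) (q : ℝ × (b → ℝ))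
      (Gm : ℝ × (b → ℝ) → Matrix X X ℂ) (kf : ℝ → X → ℝ) (G : Matrix X X ℂ) (κ : X → ℝ)
      (mb : X → ℂ) (Pf : ℝ → X → ℝ) (P w g : X → ℝ) (U R : Finset X) (κv μs Λ : ℝ),
      BJ q Gm kf G κ mb →
      (∀ x, ContDiffAt ℝ 2 (fun t => Pf t x) q.1 ∧ Pf q.1 x = P x ∧
        deriv (fun t => Pf t x) q.1 = -ind b x) →
      YBl G κ P w g (mub G mb b) b U R c₀ C₀ κv μs Λ → ∀ a ∈ R,
      (∃ (g' : b → ℂ) (l' : ℂ), HJ (fun r => vir (BB (Gm r)) (Pf r.1) w a) q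
          (vir (BB G) P w a) g' l' ∧ ∑ c, ‖g' c‖ ^ 2 ≤ C * Real.sqrt (Λ / κv) ∧
        ‖l'‖ ≤ C * (μs / κv + Real.sqrt (Real.sqrt (Λ / κv)) / Real.sqrt κv)) ∧
      ∃ (g' : b → ℝ) (l' : ℝ), HJ (fun r => vir (KK (Gm r)) (Pf r.1) w a) q
          (vir (KK G) P w a) g' l' ∧ ∑ c, g' c ^ 2 ≤ C * Real.sqrt (Λ / κv) ∧
        |l'| ≤ C * (μs / κv + Real.sqrt (Real.sqrt (Λ / κv)) / Real.sqrt κv)

end Pool.Agent.ABY
end
end -- Pool.Agent.ABY.Stmts

section -- Pool.Agent.AHH.Defs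

/-!
# AND2B (MP_1906c1_mp): the induction statement (`HS`, `HM`, `HR` of `Ana0`)

`HS n k T run := St`: the configuration `T` at the start of the stage `k` of the super-stage `n`.
`HM n k T₀ run₀ P T run := Md`: during the stage, relative to its start `T₀`; `P` = the processed sites.
`HR n T₀ run₀ P T run := Rl`: during the release phase, `P` = the neighbourhoods of the processed
clusters.

One potential function does the whole far / near bookkeeping: every accepted block update changes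
every quantity at the node `x` by at most (increment) `* om n B x`, `om n B x = e² exp(-D(x, B)/L_n)`,
so inside a stage everything is bounded by (increment) `* Psi n P x`, `Psi n P x` = the sum of
`om n B x` over the representatives `B ∈ P` of blocks. The nodes are all the alive sites.
-/

set_option autoImplicit false

open scoped BigOperators NNReal Matrix

noncomputable section

namespace Pool.Agent.AHH

open Pool.Agent.BED (Tor)
open Pool.Agent.LE.QF (BB KK)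
open Pool.Agent.AND2B (net kap)
open Pool.Agent.ANP (Cfg Geo Fc)
open Pool.Agent.AFJ (ind LaR EE)
open Pool.Agent.ABY (vir)
open Pool.Agent.LTG (Fm Bd sT tT qd)

/-! ### The fixed data and the thresholds -/

/-- the fixed data: geometry, stages `kk`, clocks `cl`, the factor `th` of a stage, bounds `Dn`, `Kn` for
the numbers of dead sites, energy `E`, floor `e₀`, the constant `L` of the event `WL`, the first gauge
`m₀`, the first resolvent `G₀`, bounds `c₀ ≤ Im m`, `|m| ≤ C₀`, the bond weights `D₀` (lower bound), `D₁`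
(upper bound), `u₀ < 1`: the first upper node weights are `w / (1 - u₀)`, `Cp` the bound of `Psi` -/
structure Env (d M : ℕ) where
  /-- geometry -/
  Γ : Geo (Tor d M)
  /-- first stage of a super-stage -/
  kk : ℕ → ℕ
  /-- clocks -/
  cl : ℕ → ℝ≥0
  /-- the factor of a stage -/
  th : ℝ≥0
  /-- dead sites -/
  Dn : ℕ → ℕ
  /-- kills -/
  Kn : ℕ → ℕ
  /-- energy -/
  E : ℝ
  /-- floor -/
  e₀ : ℝ
  /-- the constant of `WL` -/
  L : ℝ
  /-- first gauge -/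
  m₀ : ℂ
  /-- first resolvent -/
  G₀ : Matrix (Tor d M) (Tor d M) ℂ
  /-- lower bound of the gauge -/
  c₀ : ℝ
  /-- upper bound of the gauge -/
  C₀ : ℝ
  /-- lower bond weight -/
  D₀ : ℝ
  /-- upper bond weight -/
  D₁ : ℝ
  /-- upper node weight -/
  u₀ : ℝ
  /-- the bound of the potentials -/
  Cp : ℝ

/-- six numbers: entries and gauge relative to the start of everything; mismatch of the running sites;
`∑ |G|⁴`; the threshold of block Y; node weights of the running sites; node weights of the frozen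
sites and bond weights -/
structure Num where
  /-- entries and gauge, relative to the start of everything -/
  del : ℝ
  /-- mismatch of the running sites -/
  mis : ℝ
  /-- `∑ |G|⁴` -/
  lam : ℝ
  /-- the threshold of block Y -/
  tht : ℝ
  /-- node weights of the running sites -/
  eps : ℝ
  /-- node weights of the frozen sites, bond weights -/
  rho : ℝ

/-- the budget; the arguments are `n` (super-stage) and `k` (stage) -/
structure Bud where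
  /-- the thresholds at the start of a stage -/
  q : ℕ → ℕ → Num
  /-- the threshold of block Y inside a stage -/
  thm : ℕ → ℕ → ℝ
  /-- increment of the entries by one block -/
  inc : ℕ → ℕ → ℝ
  /-- relative increment of `∑ |G|⁴` by one block -/
  inL : ℕ → ℕ → ℝ
  /-- increment of the pair of block Y by one block -/
  inY : ℕ → ℕ → ℝ
  /-- relative increment of the form by one block -/
  nn : ℕ → ℕ → ℝ
  /-- increment of the entries by one cluster -/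
  icR : ℕ → ℝ
  /-- relative increment of `∑ |G|⁴` by one cluster -/
  lR : ℕ → ℝ
  /-- increment of the pair of block Y by one cluster -/
  yR : ℕ → ℝ
  /-- relative increment of the form by one cluster -/
  nR : ℕ → ℝ
  /-- the tail of a cluster -/
  tau : ℕ → ℝ

/-! ### Potentials -/

section pot

variable {X : Type} [Fintype X] [DecidableEq X]

/-- `e² exp(-D(x, B) / L_n)`, at least `1` if `D(x, B) ≤ 2 L_n` -/
def om (Γ : Geo X) (n : ℕ) (B x : X) : ℝ := Real.exp (2 - (Γ.D x B : ℝ) / Γ.L n)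

/-- the potential of the processed blocks -/
def Psi (Γ : Geo X) (n : ℕ) (P : Finset X) (x : X) : ℝ :=
  ∑ B ∈ P with Γ.bl n B = B, om Γ n B x

/-- the potential of the processed clusters, `P` the union of their `ρ_n`-neighbourhoods -/
def Phi (Γ : Geo X) (τ : ℝ) (n : ℕ) (P : Finset X) (x : X) : ℝ :=
  ind P x + τ * ∑ y ∈ P, Real.exp (-((Γ.D x y : ℝ) / Γ.ρ n))

end pot

/-! ### Quantities of a configuration -/

section conf

variable {d M : ℕ} [NeZero M]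

/-- the alive sites (the nodes) -/
def Al (T : Cfg (Tor d M)) : Finset (Tor d M) := Finset.univ.filter fun x => 0 < T.s x

/-- the imaginary part of the gauge -/
def gg (T : Cfg (Tor d M)) (x : Tor d M) : ℝ := (T.mb x).im

/-- the node weights `k g` -/
def ww (e₀ : ℝ) (T : Cfg (Tor d M)) (x : Tor d M) : ℝ := kap e₀ T x * gg T x

/-- the form of the network between the nodes -/
def Ef (E e₀ : ℝ) (T : Cfg (Tor d M)) : Matrix (Tor d M) (Tor d M) ℝ :=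
  EE (net E e₀ T) (kap e₀ T) (Al T)

/-- virtual clocks, `c` = the final clock -/
def pv (T : Cfg (Tor d M)) (run : Finset (Tor d M)) (c : ℝ) (x : Tor d M) : ℝ :=
  ind run x * ((T.s x : ℝ) - c)

/-- final clock times `g` on the running sites -/
def pw (T : Cfg (Tor d M)) (run : Finset (Tor d M)) (c : ℝ) (x : Tor d M) : ℝ :=
  ind run x * (c * gg T x)

/-- the pair of block Y at the site `a` -/
def yy (E e₀ : ℝ) (T : Cfg (Tor d M)) (run : Finset (Tor d M)) (c : ℝ) (a : Tor d M) : ℝ :=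
  ‖vir (BB (net E e₀ T)) (pv T run c) (pw T run c) a‖ +
    vir (KK (net E e₀ T)) (pv T run c) (pw T run c) a

/-- the form bounds: `εl ≤ eb`, `εu ≤ u₀ + r` at the nodes, `D₀ (1 - r) ≤ bl`,
`D₁ ≤ bu ≤ D₁ (1 + r)` on the bonds, `r` a function on the sites (a bond is at its first site) -/
def FB (V : Env d M) (T : Cfg (Tor d M)) (eb r : Tor d M → ℝ) : Prop :=
  ∃ (εl εu : Tor d M → ℝ) (bl bu : Bd d M → ℝ),
    Fm sT tT (Al T) (ww V.e₀ T) εl εu bl bu (qd (Ef V.E V.e₀ T)) ∧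
    (∀ x ∈ Al T, 0 ≤ εl x ∧ εl x ≤ eb x ∧ 0 ≤ εu x ∧ εu x ≤ V.u₀ + r x) ∧
    ∀ e, V.D₀ * (1 - r (sT e)) ≤ bl e ∧ V.D₁ ≤ bu e ∧ bu e ≤ V.D₁ * (1 + r (sT e))

/-- bounds for the gauge at the nodes -/
def Gb (V : Env d M) (T : Cfg (Tor d M)) (δ : ℝ) : Prop :=
  ∀ x ∈ Al T, V.c₀ ≤ gg T x ∧ ‖T.mb x‖ ≤ V.C₀ ∧ ‖T.mb x - V.m₀‖ ≤ δ

/-! ### Start of a stage -/

/-- a good configuration, with the thresholds `q`; `s` is the clock of the running sites -/
structure StN (V : Env d M) (q : Num) (s : ℝ) (T : Cfg (Tor d M)) (run : Finset (Tor d M)) :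
    Prop where
  /-- the gauge -/
  gau : Gb V T q.del
  /-- the running sites are alive -/
  alv : run ⊆ Al T
  /-- the mismatch -/
  mis : ∀ x ∈ run, ‖net V.E V.e₀ T x x - T.mb x‖ ≤ q.mis
  /-- the entries between nodes -/
  ent : ∀ x ∈ Al T, ∀ y ∈ Al T, ‖net V.E V.e₀ T x y - V.G₀ x y‖ ≤ q.del
  /-- `∑_(y running) |G_xy|⁴` at the nodes -/
  lar : ∀ x ∈ Al T, LaR (net V.E V.e₀ T) run x ≤ q.lam
  /-- block Y: `|∑_(b running) s g_b G_ab²| + ∑_(b running) s g_b |G_ab|² ≤ (1 + θ) g_a` -/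
  yin : ∀ a ∈ run, yy V.E V.e₀ T run s a ≤ (1 + q.tht) * gg T a
  /-- the form -/
  frm : FB V T (fun x => if x ∈ run then q.eps else q.rho) (fun _ => q.rho)

/-- around an old site (`n = m + 1`, clock larger than `cl (kk m)`) there is no alive site with a clock
smaller than `cl (kk n)` -/
def Old (V : Env d M) (n : ℕ) (T : Cfg (Tor d M)) : Prop :=
  ∀ m, n = m + 1 → ∀ x, V.cl (V.kk m) < T.s x → ∀ y, V.Γ.D x y ≤ 3 * V.Γ.ρ m →
    T.s y = 0 ∨ V.cl (V.kk n) ≤ T.s y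

/-- the dead sites are of the levels `j < n` -/
def Ded (V : Env d M) (n : ℕ) (T : Cfg (Tor d M)) : Prop :=
  ∃ dd : ℕ → Finset (Tor d M), (∀ x, T.s x = 0 → ∃ j < n, x ∈ dd j) ∧
    ∀ j B, (dd j ∩ V.Γ.blk j B).card ≤ V.Dn j

/-- a good configuration at the start of the stage `k` (super-stage `n`) -/
structure St (V : Env d M) (b : Bud) (n k : ℕ) (T : Cfg (Tor d M)) (run : Finset (Tor d M)) :
    Prop extends StN V (b.q n k) (V.cl k) T run where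
  /-- the shells of the old sites -/
  old : Old V n T
  /-- the dead sites -/
  ded : Ded V n T

/-! ### Inside a stage -/

/-- inside the stage `k`: `T₀`, `run₀` the start, `P` the processed sites -/
structure Md (V : Env d M) (b : Bud) (n k : ℕ) (T₀ : Cfg (Tor d M)) (run₀ P : Finset (Tor d M))
    (T : Cfg (Tor d M)) (run : Finset (Tor d M)) : Prop where
  /-- the context -/
  ctx : n ≤ V.Γ.N ∧ V.kk n ≤ k ∧ k < V.kk (n + 1)
  fc0 : Fc V.Γ V.kk V.cl V.Dn n k ∅ T₀ run₀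
  st0 : St V b n k T₀ run₀
  sub : run ⊆ run₀
  /-- the gauge does not change, the clocks of some running sites have been multiplied by `th` -/
  mb : T.mb = T₀.mb
  clk : ∀ x, T.s x = T₀.s x ∨ x ∈ run₀ ∧ x ∈ P ∧ T.s x = V.th * T₀.s x
  /-- the potential of the dead sites does not change -/
  ddV : ∀ x, T₀.s x = 0 → T.V x = T₀.V x
  ent : ∀ x ∈ Al T, ∀ y ∈ Al T,
    ‖net V.E V.e₀ T x y - net V.E V.e₀ T₀ x y‖ ≤ b.inc n k * Psi V.Γ n P x
  lar : ∀ x ∈ Al T, LaR (net V.E V.e₀ T) run x ≤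
    (b.q n k).lam * (1 + b.inL n k * Psi V.Γ n P x)
  yin : ∀ a ∈ run, yy V.E V.e₀ T run (V.cl (k + 1)) a ≤
    (1 + b.thm n k + b.inY n k * Psi V.Γ n P a) * gg T a
  frm : FB V T
    (fun x => (if x ∈ run then (b.q n k).eps * (ww V.e₀ T x / ww V.e₀ T₀ x) else (b.q n k).rho) +
      b.nn n k * Psi V.Γ n P x) (fun x => (b.q n k).rho + b.nn n k * Psi V.Γ n P x)
  /-- the shells of the old sites -/
  old : Old V n T
  /-- the dead sites -/
  ded : Ded V n T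

/-- THE INTERFACE WITH THE BLOCK UPDATES (FLO + FAR): the increments of one accepted update of the
block `B` (`T' = T.hf th (run ∩ blk n B) ζ`) -/
structure Inc (V : Env d M) (b : Bud) (n k : ℕ) (run : Finset (Tor d M)) (B : Tor d M)
    (T T' : Cfg (Tor d M)) : Prop where
  ent : ∀ x ∈ Al T, ∀ y ∈ Al T,
    ‖net V.E V.e₀ T' x y - net V.E V.e₀ T x y‖ ≤ b.inc n k * om V.Γ n B x
  lar : ∀ x ∈ Al T, LaR (net V.E V.e₀ T') run x ≤
    LaR (net V.E V.e₀ T) run x + (b.q n k).lam * (b.inL n k * om V.Γ n B x)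
  yin : ∀ a ∈ run, yy V.E V.e₀ T' run (V.cl (k + 1)) a ≤
    yy V.E V.e₀ T run (V.cl (k + 1)) a + b.inY n k * om V.Γ n B a * gg T a
  /-- the form: `Helper22_LTG.fbk` -/
  frm : ∀ (εl εu : Tor d M → ℝ) (bl bu : Bd d M → ℝ),
    Fm sT tT (Al T) (ww V.e₀ T) εl εu bl bu (qd (Ef V.E V.e₀ T)) →
    (∀ x ∈ Al T, 0 ≤ εl x ∧ εl x ≤ 1 / 8 ∧ 0 ≤ εu x ∧ εu x ≤ (1 + V.u₀) / 2) →
    (∀ e, V.D₀ / 2 ≤ bl e ∧ V.D₁ ≤ bu e ∧ bu e ≤ 2 * V.D₁) →
    Fm sT tT (Al T) (ww V.e₀ T')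
      (fun x => εl x * (ww V.e₀ T' x / ww V.e₀ T x) + b.nn n k * om V.Γ n B x)
      (fun x => εu x * (ww V.e₀ T' x / ww V.e₀ T x) + b.nn n k * om V.Γ n B x)
      (fun e => bl e - V.D₀ * (b.nn n k * om V.Γ n B (sT e)))
      (fun e => bu e + V.D₁ * (b.nn n k * om V.Γ n B (sT e))) (qd (Ef V.E V.e₀ T'))

/-! ### The release phase -/

/-- during the release phase of the super-stage `n`, `k = kk (n + 1)`: `T₀`, `run₀` its start, `P` the
union of the `ρ_n`-neighbourhoods of the processed clusters -/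
structure Rl (V : Env d M) (b : Bud) (n : ℕ) (T₀ : Cfg (Tor d M)) (run₀ P : Finset (Tor d M))
    (T : Cfg (Tor d M)) (run : Finset (Tor d M)) : Prop where
  /-- the context -/
  ctx : n ≤ V.Γ.N
  fc0 : Fc V.Γ V.kk V.cl V.Dn n (V.kk (n + 1)) ∅ T₀ run₀
  st0 : St V b n (V.kk (n + 1)) T₀ run₀
  sub : run ⊆ run₀ ∧ run ⊆ Al T
  /-- the gauge does not change, some sites in `P` have died, nothing else has changed -/
  mb : T.mb = T₀.mb
  chg : ∀ x, T.V x = T₀.V x ∧ T.s x = T₀.s x ∨ x ∈ P ∧ 0 < T₀.s x ∧ T.s x = 0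
  ent : ∀ x ∈ Al T, ∀ y ∈ Al T, ‖net V.E V.e₀ T x y - net V.E V.e₀ T₀ x y‖ ≤
    b.icR n * Phi V.Γ (b.tau n) n P x
  lar : ∀ x ∈ Al T, LaR (net V.E V.e₀ T) run x ≤
    (b.q n (V.kk (n + 1))).lam * (1 + b.lR n * Phi V.Γ (b.tau n) n P x)
  yin : ∀ a ∈ run, yy V.E V.e₀ T run (V.cl (V.kk (n + 1))) a ≤
    (1 + (b.q n (V.kk (n + 1))).tht + b.yR n * Phi V.Γ (b.tau n) n P a) * gg T a
  frm : FB V T
    (fun x => (if x ∈ run then (b.q n (V.kk (n + 1))).eps else (b.q n (V.kk (n + 1))).rho) +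
      b.nR n * Phi V.Γ (b.tau n) n P x)
    (fun x => (b.q n (V.kk (n + 1))).rho + b.nR n * Phi V.Γ (b.tau n) n P x)

end conf

end Pool.Agent.AHH
end
end -- Pool.Agent.AHH.Defs

section -- Pool.Agent.Helper32_AFJ.BEJ

/-!
# BEJ: the jet of the form of the network
-/

set_option autoImplicit false

open scoped BigOperators Matrix

noncomputable section

namespace Pool.Agent.AFJ.H32

open Pool.Agent.LE.QF Pool.Agent.AFJ

theorem hj_cast2 {ι : Type} [Fintype ι] [DecidableEq ι] {E : Type} [NormedAddCommGroup E]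
    [NormedSpace ℝ E] {F F' : ℝ × (ι → ℝ) → E} {q : ℝ × (ι → ℝ)} {v v' : E} {g g' : ι → E}
    {l l' : E} (h : HJ F q v g l) (hF : F = F') (hv : v = v') (hg : g = g') (hl : l = l') :
    HJ F' q v' g' l' := by
  subst hF hv hg hl
  exact h

variable {X : Type} [Fintype X] [DecidableEq X]

theorem dl_apply (K : Matrix X X ℝ) (a b : X) :
    Dl K a b = (if a = b then ∑ y, K a y else 0) - K a b := by
  simp only [Dl, Matrix.sub_apply, Matrix.diagonal_apply]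

theorem dl_add (K L : Matrix X X ℝ) : Dl (K + L) = Dl K + Dl L := by
  ext a b
  rw [Matrix.add_apply, dl_apply, dl_apply, dl_apply]
  simp only [Matrix.add_apply, Finset.sum_add_distrib]
  split_ifs <;> ring

theorem dl_row (K : Matrix X X ℝ) (a : X) : ∑ b, Dl K a b = 0 := by
  simp only [dl_apply, Finset.sum_sub_distrib, Finset.sum_ite_eq, Finset.mem_univ, if_true]
  ring

theorem mul3_apply (A : Matrix X X ℝ) (D : X → ℝ) (B : Matrix X X ℝ) (a b : X) :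
    (A * Matrix.diagonal D * B) a b = ∑ c, A a c * D c * B c b := by
  rw [Matrix.mul_apply]
  refine Finset.sum_congr rfl fun c _ => ?_
  rw [Matrix.mul_diagonal]

/-- `C D C - diag (C 1) D C - C D diag (C 1)` -/
def qm (C : Matrix X X ℝ) (D : X → ℝ) : Matrix X X ℝ :=
  fun x y => (C * Matrix.diagonal D * C) x y - (∑ z, C x z) * D x * C x y -
      C x y * D y * ∑ z, C y z

theorem dl_quad (C : Matrix X X ℝ) (D : X → ℝ) :
    Dl (qm C D) = -(Dl C * Matrix.diagonal D * Dl C) := by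
  have hW : ∀ x y, (Dl C * Matrix.diagonal D * Dl C) x y =
      (if x = y then (∑ z, C x z) * D x * (∑ z, C x z) else 0) + qm C D x y := by
    intro x y
    simp only [qm]
    rw [mul3_apply, mul3_apply]
    have e1 : ∀ c, Dl C x c * D c * Dl C c y =
        (if x = c then (∑ z, C x z) * D x * Dl C x y else 0) -
        (if c = y then C x y * D y * (∑ z, C y z) else 0) + C x c * D c * C c y := by
      intro c
      rw [dl_apply C x c, dl_apply C c y]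
      by_cases h1 : x = c
      · subst h1
        rw [if_pos rfl, if_pos rfl, dl_apply C x y]
        by_cases h2 : x = y
        · subst h2
          simp only [if_true]
          ring
        · simp only [if_neg h2]
          ring
      · rw [if_neg h1, if_neg h1]
        by_cases h2 : c = y
        · subst h2
          simp only [if_true]
          ring
        · simp only [if_neg h2]
          ring
    rw [Finset.sum_congr rfl fun c _ => e1 c]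
    rw [Finset.sum_add_distrib, Finset.sum_sub_distrib]
    simp only [Finset.sum_ite_eq, Finset.sum_ite_eq', Finset.mem_univ, if_true]
    rw [dl_apply C x y]
    split_ifs with h
    · ring
    · ring
  have hrow : ∀ x, ∑ y, (Dl C * Matrix.diagonal D * Dl C) x y = 0 := by
    intro x
    simp only [mul3_apply]
    rw [Finset.sum_comm]
    refine Finset.sum_eq_zero fun c _ => ?_
    rw [← Finset.mul_sum, dl_row, mul_zero]
  ext x y
  rw [dl_apply, Matrix.neg_apply]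
  have h1 := hrow x
  simp only [hW, Finset.sum_add_distrib, Finset.sum_ite_eq, Finset.mem_univ, if_true] at h1
  rw [hW x y]
  split_ifs with h
  · linarith
  · ring

theorem sum_cd (G : Matrix X X ℂ) (κ : X → ℝ) (A : Finset X) (x : X) :
    ∑ y, cd G κ A x y = if x ∈ A then κ x * rho G κ A x else 0 := by
  by_cases hx : x ∈ A
  · rw [if_pos hx]
    simp only [cd, hx, true_and, rho]
    rw [Finset.sum_ite_mem, Finset.univ_inter, Finset.mul_sum]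
    refine Finset.sum_congr rfl fun y _ => ?_
    ring
  · rw [if_neg hx]
    refine Finset.sum_eq_zero fun y _ => ?_
    simp only [cd, hx, false_and, if_false]

/-- the generator of the conductances -/
def lcd (G : Matrix X X ℂ) (κ g : X → ℝ) (μ : X → ℂ) (A b : Finset X) : Matrix X X ℝ :=
  fun x y => if x ∈ A ∧ y ∈ A then
    κ x * κ y * ((KK G * Matrix.diagonal (ind b) * KK G) x y + EK G μ x y) -
      (ind b x * g x * κ y + κ x * (ind b y * g y)) * KK G x y else 0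

theorem lcd_eq (G : Matrix X X ℂ) (κ g : X → ℝ) (μ : X → ℂ) (A b : Finset X) (hb : b ⊆ A)
    (hκ : ∀ x, κ x ≠ 0) :
    lcd G κ g μ A b =
      qm (cd G κ A) (fun x => ind b x / κ x ^ 2) + ee G κ g μ A b := by
  ext x y
  rw [Matrix.add_apply]
  simp only [qm, sum_cd]
  by_cases h : x ∈ A ∧ y ∈ A
  · obtain ⟨hx, hy⟩ := h
    have hkx := hκ x
    have hky := hκ y
    rw [mul3_apply]
    have e1 : ∀ c, cd G κ A x c * (ind b c / κ c ^ 2) * cd G κ A c y =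
        κ x * κ y * (KK G x c * ind b c * KK G c y) := by
      intro c
      by_cases hc : c ∈ A
      · have hkc := hκ c
        simp only [cd, hx, hy, hc, and_self, if_true]
        field_simp
      · have hcb : ind b c = 0 := by
          simp only [ind]
          rw [if_neg fun h => hc (hb h)]
        rw [hcb]
        ring
    rw [Finset.sum_congr rfl fun c _ => e1 c, ← Finset.mul_sum]
    simp only [lcd, ee, cd, hx, hy, and_self, if_true, mul3_apply]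
    field_simp
    ring
  · have hz : cd G κ A x y = 0 := by
      simp only [cd, if_neg h]
    have hz2 : (cd G κ A * Matrix.diagonal (fun x => ind b x / κ x ^ 2) * cd G κ A) x y = 0 := by
      rw [mul3_apply]
      refine Finset.sum_eq_zero fun c _ => ?_
      by_cases hx : x ∈ A
      · have hy : ¬ y ∈ A := fun hy => h ⟨hx, hy⟩
        simp only [cd, hy, and_false, if_false, mul_zero]
      · simp only [cd, hx, false_and, if_false, zero_mul]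
    rw [hz, hz2]
    simp only [lcd, ee, if_neg h]
    ring

theorem hj_kf (hJ : JalStmt) {b : Finset X} {q : ℝ × (b → ℝ)}
    {Gm : ℝ × (b → ℝ) → Matrix X X ℂ} {kf : ℝ → X → ℝ} {G : Matrix X X ℂ} {κ : X → ℝ}
    {mb : X → ℂ} (hH : BJ q Gm kf G κ mb) (x : X) :
    HJ (fun r : ℝ × (b → ℝ) => kf r.1 x) q (κ x) (fun _ => 0) (-(ind b x * (mb x).im)) := by
  obtain ⟨_, _, _, _, _, _, ht, _⟩ := hJ b ℝ q
  have h1 := ht (fun t => kf t x) (hH.hk x).1
  exact hj_cast2 h1 rfl (hH.hk x).2.1 rfl (hH.hk x).2.2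

theorem hj_cd (hJ : JalStmt) (hB : BkjStmt) {b : Finset X} (A : Finset X) {q : ℝ × (b → ℝ)}
    {Gm : ℝ × (b → ℝ) → Matrix X X ℂ} {kf : ℝ → X → ℝ} {G : Matrix X X ℂ} {κ : X → ℝ}
    {mb : X → ℂ} (hH : BJ q Gm kf G κ mb) (x y : X) :
    HJ (fun r : ℝ × (b → ℝ) => cd (Gm r) (kf r.1) A x y) q (cd G κ A x y)
      (fun c => cdc G κ A (c : X) x y)
      (lcd G κ (fun x => (mb x).im) (mub G mb b) A b x y) := by
  obtain ⟨hc, _, hadd, _, _, _, _, _⟩ := hJ b ℝ q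
  by_cases h : x ∈ A ∧ y ∈ A
  · have hK := (hB hJ X b q Gm kf G κ mb hH).2.1 x y
    have h1 := (hadd _ _ _ _ _ _ _ _ (hj_kf hJ hH x) (hj_kf hJ hH y)).2.2
    have h2 := (hadd _ _ _ _ _ _ _ _ h1 hK).2.2
    refine hj_cast2 h2 ?_ ?_ ?_ ?_
    · funext r
      simp only [cd, if_pos h]
    · simp only [cd, if_pos h]
    · funext c
      simp only [cdc, if_pos h]
      ring
    · simp only [lcd, if_pos h, Matrix.add_apply]
      simp only [mul_zero, zero_mul, add_zero, Finset.sum_const_zero]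
      ring
  · refine hj_cast2 (hc 0) ?_ ?_ ?_ ?_
    · funext r
      simp only [cd, if_neg h]
    · simp only [cd, if_neg h]
    · funext c
      simp only [cdc, if_neg h]
    · simp only [lcd, if_neg h]

theorem bej : BejStmt := by
  intro hJ hB X _ _ b A q Gm kf G κ mb hH hbA hκ
  have hl : -(EE G κ A * Matrix.diagonal (fun x => ind b x / κ x ^ 2) * EE G κ A) +
      Dl (ee G κ (fun x => (mb x).im) (mub G mb b) A b) =
      Dl (lcd G κ (fun x => (mb x).im) (mub G mb b) A b) := by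
    rw [lcd_eq G κ (fun x => (mb x).im) (mub G mb b) A b hbA hκ, dl_add]
    simp only [EE]
    rw [← dl_quad (cd G κ A) (fun x => ind b x / κ x ^ 2)]
  rw [hl]
  obtain ⟨hc, _, hadd, _, _, hsum, _, _⟩ := hJ b ℝ q
  intro x y
  by_cases h : x = y
  · have h1 := hsum X Finset.univ (fun z r => cd (Gm r) (kf r.1) A x z)
      (fun z => cd G κ A x z) (fun z => lcd G κ (fun x => (mb x).im) (mub G mb b) A b x z)
      (fun z c => cdc G κ A (c : X) x z) (fun z _ => hj_cd hJ hB A hH x z)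
    have h2 := (hadd _ _ _ _ _ _ _ _ h1 (hj_cd hJ hB A hH x y)).2.1
    refine hj_cast2 h2 ?_ ?_ ?_ ?_
    · funext r
      simp only [EE, dl_apply, if_pos h]
    · simp only [EE, dl_apply, if_pos h]
    · funext c
      simp only [Ec, dl_apply, if_pos h]
    · simp only [dl_apply, if_pos h]
  · have h2 := (hadd _ _ _ _ _ _ _ _ (hc 0) (hj_cd hJ hB A hH x y)).2.1
    refine hj_cast2 h2 ?_ ?_ ?_ ?_
    · funext r
      simp only [EE, dl_apply, if_neg h]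
    · simp only [EE, dl_apply, if_neg h]
    · funext c
      simp only [Ec, dl_apply, if_neg h]
    · simp only [dl_apply, if_neg h]

end Pool.Agent.AFJ.H32
end
end -- Pool.Agent.Helper32_AFJ.BEJ

section -- Pool.Agent.Helper41_ABY.VBL

/-! Tank ABY, row VBL: the pair in the flow of a block. -/

set_option autoImplicit false

open scoped BigOperators Matrix

noncomputable section

namespace Pool.Agent.ABY.H41

open Pool.Agent.LE.QF Pool.Agent.AFJ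

theorem vbl : VblStmt := by
  intro JAL JMA BKJ ENB CMP VEX TSP VJT VGR VDR c₀ C₀
  obtain ⟨C₁, hC₁, H1⟩ := VGR CMP VEX TSP c₀ C₀
  obtain ⟨C₂, hC₂, H2⟩ := VDR CMP VEX TSP VGR ENB c₀ C₀
  refine ⟨C₁ + C₂, by linarith, ?_⟩
  intro X _ _ b q Gm kf G κ mb Pf P w g U R κv μs Λ hBJ hPf hY a ha
  obtain ⟨hB, hK, -⟩ := BKJ JAL X b q Gm kf G κ mb hBJ
  obtain ⟨cB, cK, -, gB, gK⟩ := H1 X G κ P w g (mub G mb b) b U R κv μs Λ hY
  obtain ⟨dB', dK'⟩ := H2 X G κ P w g (mub G mb b) b U R κv μs Λ hY a ha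
  obtain ⟨-, -, -, hκv, -, hμs, hΛ⟩ := hY.hc
  have hs : 0 ≤ Real.sqrt (Λ / κv) := Real.sqrt_nonneg _
  have ht : 0 ≤ μs / κv + Real.sqrt (Real.sqrt (Λ / κv)) / Real.sqrt κv := by positivity
  have uB := (VEX CMP ℂ X (BB G) (KK G) P g U R (3 / 4) cB).1
  have uK := (VEX CMP ℝ X (KK G) (KK G) P g U R (3 / 4) cK).1
  have jB := VJT JAL JMA ℂ X b q (fun r => BB (Gm r)) (BB G) (EB G (mub G mb b))
    (fun c => dB G (c : X)) Pf P w hB hPf uB a
  have jK := VJT JAL JMA ℝ X b q (fun r => KK (Gm r)) (KK G) (EK G (mub G mb b))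
    (fun c => dK G (c : X)) Pf P w hK hPf uK a
  refine ⟨⟨_, _, jB, ?_, ?_⟩, _, _, jK, ?_, ?_⟩
  · rw [Finset.sum_coe_sort b (fun c => ‖(TT (BB G) P *ᵥ (dB G c *ᵥ
      psi P w (vir (BB G) P w))) a‖ ^ 2)]
    refine (gB a ha).trans ?_
    nlinarith only [hC₂, hs]
  · rw [Finset.sum_coe_sort b (fun c => (TT (BB G) P *ᵥ (dB G c *ᵥ (dg ℂ P *ᵥ
      (TT (BB G) P *ᵥ (dB G c *ᵥ psi P w (vir (BB G) P w)))))) a)]
    refine dB'.trans ?_
    nlinarith only [hC₁, ht]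
  · rw [Finset.sum_coe_sort b (fun c => ((TT (KK G) P *ᵥ (dK G c *ᵥ
      psi P w (vir (KK G) P w))) a) ^ 2)]
    refine (gK a ha).trans ?_
    nlinarith only [hC₂, hs]
  · rw [Finset.sum_coe_sort b (fun c => (TT (KK G) P *ᵥ (dK G c *ᵥ (dg ℝ P *ᵥ
      (TT (KK G) P *ᵥ (dK G c *ᵥ psi P w (vir (KK G) P w)))))) a)]
    refine dK'.trans ?_
    nlinarith only [hC₁, ht]

end Pool.Agent.ABY.H41
end
end -- Pool.Agent.Helper41_ABY.VBL

section -- Pool.Agent.Helper44_AFJ.BET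

/-! Squad AFJ (MP_1906c1_mp), row BET (helper44): the noise of the form. -/

set_option autoImplicit false

open scoped BigOperators Matrix

noncomputable section

namespace Pool.Agent.AFJ.H44

open Pool.Agent.LE.QF

variable {X : Type} [Fintype X] [DecidableEq X]

theorem Dl_mulVec' (K : Matrix X X ℝ) (f : X → ℝ) (x : X) :
    (Dl K *ᵥ f) x = ∑ y, K x y * (f x - f y) := by
  unfold Dl
  rw [Matrix.sub_mulVec, Pi.sub_apply, Matrix.mulVec_diagonal]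
  simp only [Matrix.mulVec, dotProduct, mul_sub, Finset.sum_sub_distrib, Finset.sum_mul]

theorem qf_Dl' (K : Matrix X X ℝ) (hK : ∀ x y, K x y = K y x) (f : X → ℝ) :
    qf (Dl K) f = 1 / 2 * ∑ x, ∑ y, K x y * (f x - f y) ^ 2 := by
  have h1 : qf (Dl K) f = ∑ x, ∑ y, K x y * (f x * (f x - f y)) := by
    unfold qf
    refine Finset.sum_congr rfl fun x _ => ?_
    rw [Dl_mulVec', Finset.mul_sum]
    refine Finset.sum_congr rfl fun y _ => ?_
    ring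
  have h2 : ∑ x, ∑ y, K x y * (f x * (f x - f y)) = ∑ x, ∑ y, K x y * (f y * (f y - f x)) := by
    rw [Finset.sum_comm]
    refine Finset.sum_congr rfl fun x _ => Finset.sum_congr rfl fun y _ => ?_
    rw [hK]
  have h3 : ∑ x, ∑ y, K x y * (f x - f y) ^ 2 = ∑ x, ∑ y, K x y * (f x * (f x - f y)) +
      ∑ x, ∑ y, K x y * (f y * (f y - f x)) := by
    rw [← Finset.sum_add_distrib]
    refine Finset.sum_congr rfl fun x _ => ?_
    rw [← Finset.sum_add_distrib]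
    refine Finset.sum_congr rfl fun y _ => ?_
    ring
  rw [h3, ← h2, h1]
  ring

theorem bet_ : BetStmt := by
  intro X _ _ G κ A f hN
  refine ⟨?_, ?_, ?_, ?_, ?_, ?_⟩
  · intro c x hx
    have e1 : (Ec G κ A c *ᵥ f) x = ∑ y ∈ A, κ x * κ y * dK G c x y * (f x - f y) := by
      unfold Ec
      rw [Dl_mulVec']
      unfold cdc
      simp only [hx, true_and, ite_mul, zero_mul]
      rw [Finset.sum_ite_mem, Finset.univ_inter]
    rw [e1]
    have e2 : (G x c * bet G κ A f x c).re =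
        ∑ y ∈ A, κ y * (f x - f y) * ((starRingEnd ℂ) (G x y) * G x c * G c y).re := by
      unfold bet
      rw [Finset.mul_sum, Complex.re_sum]
      refine Finset.sum_congr rfl fun y _ => ?_
      have h : G x c * ((κ y : ℂ) * (starRingEnd ℂ) (G x y) * G c y * ((f x - f y : ℝ) : ℂ)) =
          ((κ y * (f x - f y) : ℝ) : ℂ) * ((starRingEnd ℂ) (G x y) * G x c * G c y) := by
        push_cast
        ring
      rw [h, Complex.re_ofReal_mul]
    rw [e2, Finset.mul_sum, ← Finset.sum_neg_distrib]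
    refine Finset.sum_congr rfl fun y _ => ?_
    unfold dK
    ring
  · intro c x hx
    unfold Ec
    rw [Dl_mulVec']
    refine Finset.sum_eq_zero fun y _ => ?_
    unfold cdc
    rw [if_neg (fun h => hx h.1), zero_mul]
  · intro c
    obtain ⟨t, ht⟩ : ∃ t : X → X → ℂ, t = fun x y => (κ x : ℂ) * (κ y : ℂ) *
        (G x c * (starRingEnd ℂ) (G x y) * G c y) * ((f x - f y : ℝ) : ℂ) := ⟨_, rfl⟩
    have e1 : ∑ x ∈ A, (κ x : ℂ) * (G x c * bet G κ A f x c) = ∑ x ∈ A, ∑ y ∈ A, t x y := by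
      refine Finset.sum_congr rfl fun x _ => ?_
      unfold bet
      rw [Finset.mul_sum, Finset.mul_sum]
      refine Finset.sum_congr rfl fun y _ => ?_
      rw [ht]
      ring
    have e2 : ∀ x y, t y x = -t x y := by
      intro x y
      rw [ht]
      simp only
      rw [hN.hs y c, hN.hs y x, hN.hs c x]
      push_cast
      ring
    have e3 : ∑ x ∈ A, ∑ y ∈ A, t x y = -∑ x ∈ A, ∑ y ∈ A, t x y := by
      calc ∑ x ∈ A, ∑ y ∈ A, t x y = ∑ y ∈ A, ∑ x ∈ A, t x y := Finset.sum_comm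
        _ = ∑ y ∈ A, ∑ x ∈ A, -t y x :=
            Finset.sum_congr rfl fun y _ => Finset.sum_congr rfl fun x _ => e2 y x
        _ = -∑ x ∈ A, ∑ y ∈ A, t x y := by simp only [Finset.sum_neg_distrib]
    rw [e1]
    have e4 : (2 : ℂ) * ∑ x ∈ A, ∑ y ∈ A, t x y = 0 := by linear_combination e3
    exact (mul_eq_zero.1 e4).resolve_left two_ne_zero
  · intro x c
    have h1 : ‖bet G κ A f x c‖ ≤ ∑ y ∈ A, (Real.sqrt (κ y) * ‖G c y‖) *
        (Real.sqrt (κ y) * (‖G x y‖ * |f x - f y|)) := by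
      unfold bet
      refine (norm_sum_le _ _).trans (le_of_eq (Finset.sum_congr rfl fun y _ => ?_))
      have hk := (hN.hκ y).le
      rw [norm_mul, norm_mul, norm_mul, RCLike.norm_conj, Complex.norm_real, Complex.norm_real,
        Real.norm_eq_abs, Real.norm_eq_abs, abs_of_nonneg hk]
      have h2 : Real.sqrt (κ y) * Real.sqrt (κ y) = κ y := Real.mul_self_sqrt hk
      calc κ y * ‖G x y‖ * ‖G c y‖ * |f x - f y| =
          (Real.sqrt (κ y) * Real.sqrt (κ y)) * ‖G x y‖ * ‖G c y‖ * |f x - f y| := by rw [h2]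
        _ = _ := by ring
    have h0 : 0 ≤ ∑ y ∈ A, (Real.sqrt (κ y) * ‖G c y‖) *
        (Real.sqrt (κ y) * (‖G x y‖ * |f x - f y|)) :=
      Finset.sum_nonneg fun y _ => by positivity
    calc ‖bet G κ A f x c‖ ^ 2 ≤ (∑ y ∈ A, (Real.sqrt (κ y) * ‖G c y‖) *
          (Real.sqrt (κ y) * (‖G x y‖ * |f x - f y|))) ^ 2 :=
          pow_le_pow_left₀ (norm_nonneg _) h1 2
      _ ≤ (∑ y ∈ A, (Real.sqrt (κ y) * ‖G c y‖) ^ 2) *
          ∑ y ∈ A, (Real.sqrt (κ y) * (‖G x y‖ * |f x - f y|)) ^ 2 :=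
          Finset.sum_mul_sq_le_sq_mul_sq _ _ _
      _ = rho G κ A c * DD G κ A f x := by
          unfold rho DD
          congr 1
          · refine Finset.sum_congr rfl fun y _ => ?_
            rw [mul_pow, Real.sq_sqrt (hN.hκ y).le]
            rfl
          · refine Finset.sum_congr rfl fun y _ => ?_
            rw [mul_pow, mul_pow, Real.sq_sqrt (hN.hκ y).le, sq_abs, ← mul_assoc]
            rfl
  · intro x b
    obtain ⟨v, hv⟩ : ∃ v : X → ℂ, v = fun y => if y ∈ A then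
        (starRingEnd ℂ) (G x y) * ((f x - f y : ℝ) : ℂ) else 0 := ⟨_, rfl⟩
    have h1 : ∀ c, ∑ y, G c y * ((κ y : ℂ) * v y) = bet G κ A f x c := by
      intro c
      rw [hv]
      unfold bet
      simp only [mul_ite, mul_zero]
      rw [Finset.sum_ite_mem, Finset.univ_inter]
      refine Finset.sum_congr rfl fun y _ => ?_
      ring
    have h2 : ∑ y, κ y * ‖v y‖ ^ 2 = DD G κ A f x := by
      have h3 : ∀ y, κ y * ‖v y‖ ^ 2 =
          if y ∈ A then κ y * KK G x y * (f x - f y) ^ 2 else 0 := by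
        intro y
        rw [hv]
        simp only
        split_ifs
        · rw [norm_mul, RCLike.norm_conj, Complex.norm_real, Real.norm_eq_abs, mul_pow, sq_abs,
            ← mul_assoc]
          rfl
        · rw [norm_zero, zero_pow two_ne_zero, mul_zero]
      unfold DD
      simp only [h3]
      rw [Finset.sum_ite_mem, Finset.univ_inter]
    have h3 := hN.hn v
    rw [h2] at h3
    simp only [h1] at h3
    exact (Finset.sum_le_sum_of_subset_of_nonneg (Finset.subset_univ b) fun c _ _ =>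
      mul_nonneg (hN.hκ c).le (sq_nonneg _)).trans h3
  · unfold EE
    rw [qf_Dl']
    · congr 1
      unfold cd DD
      have h1 : ∀ x, ∑ y, (if x ∈ A ∧ y ∈ A then κ x * κ y * KK G x y else 0) *
          (f x - f y) ^ 2 = if x ∈ A then
            κ x * ∑ y ∈ A, κ y * KK G x y * (f x - f y) ^ 2 else 0 := by
        intro x
        by_cases hx : x ∈ A
        · simp only [hx, true_and, if_true, ite_mul, zero_mul]
          rw [Finset.sum_ite_mem, Finset.univ_inter, Finset.mul_sum]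
          refine Finset.sum_congr rfl fun y _ => ?_
          ring
        · simp only [hx, false_and, if_false, zero_mul, Finset.sum_const_zero]
      simp only [h1]
      rw [Finset.sum_ite_mem, Finset.univ_inter]
    · intro x y
      unfold cd KK
      by_cases h : x ∈ A ∧ y ∈ A
      · rw [if_pos h, if_pos h.symm, hN.hs x y, mul_comm (κ x)]
      · rw [if_neg h, if_neg (fun h' => h h'.symm)]

end Pool.Agent.AFJ.H44
end
end -- Pool.Agent.Helper44_AFJ.BET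

section -- Pool.Agent.Helper59_ABY.VJT

/-!
# Tank ABY, row VJT: the jet of the virtual vector (helper59)
-/

set_option autoImplicit false

open scoped BigOperators Matrix

noncomputable section

namespace Pool.Agent.ABY.H59

open Pool.Agent.LE.QF Pool.Agent.AFJ

section jets

variable {ι : Type} [Fintype ι] [DecidableEq ι] {𝕜 : Type} [RCLike 𝕜] {q : ℝ × (ι → ℝ)}

/-- jets of vectors -/
def HV {m : Type} (F : ℝ × (ι → ℝ) → m → 𝕜) (q : ℝ × (ι → ℝ)) (v : m → 𝕜) (g : ι → m → 𝕜)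
    (l : m → 𝕜) : Prop :=
  ∀ a, HJ (fun r => F r a) q (v a) (fun c => g c a) (l a)

theorem hv_mul (jma : JmaStmt) {m n : Type} [Fintype n] {F : ℝ × (ι → ℝ) → Matrix m n 𝕜}
    {H : ℝ × (ι → ℝ) → n → 𝕜} {v l : Matrix m n 𝕜} {v' l' : n → 𝕜} {g : ι → Matrix m n 𝕜}
    {g' : ι → n → 𝕜} (hF : HM F q v g l) (hH : HV H q v' g' l') :
    HV (fun r => F r *ᵥ H r) q (v *ᵥ v') (fun c => v *ᵥ g' c + g c *ᵥ v')
      (v *ᵥ l' + l *ᵥ v' + ∑ c, g c *ᵥ g' c) := by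
  have h1 : HM (fun r => (Matrix.of fun x (_ : Unit) => H r x : Matrix n Unit 𝕜)) q
      (Matrix.of fun x _ => v' x) (fun c => Matrix.of fun x _ => g' c x)
      (Matrix.of fun x _ => l' x) := fun a _ => hH a
  have h2 := (jma ι 𝕜 q).1 m n Unit F _ v l _ _ g _ hF h1
  intro a
  have h3 := h2 a ()
  have e1 : (v * (Matrix.of fun x (_ : Unit) => l' x : Matrix n Unit 𝕜) +
      l * (Matrix.of fun x (_ : Unit) => v' x : Matrix n Unit 𝕜) +
      ∑ c, g c * (Matrix.of fun x (_ : Unit) => g' c x : Matrix n Unit 𝕜)) a () =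
      (v *ᵥ l' + l *ᵥ v' + ∑ c, g c *ᵥ g' c) a := by
    rw [Matrix.add_apply, Matrix.add_apply, Matrix.sum_apply, Pi.add_apply, Pi.add_apply,
      Finset.sum_apply]
    rfl
  rw [e1] at h3
  exact h3

theorem hm_const (jal : JalStmt) {m n : Type} (v : Matrix m n 𝕜) :
    HM (fun _ : ℝ × (ι → ℝ) => v) q v (fun _ => 0) 0 :=
  fun a b => (jal ι 𝕜 q).1 (v a b)

theorem hv_const (jal : JalStmt) {m : Type} (v : m → 𝕜) :
    HV (fun _ : ℝ × (ι → ℝ) => v) q v (fun _ => 0) 0 :=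
  fun a => (jal ι 𝕜 q).1 (v a)

theorem hm_sub (jal : JalStmt) {m n : Type} {F H : ℝ × (ι → ℝ) → Matrix m n 𝕜}
    {v v' l l' : Matrix m n 𝕜} {g g' : ι → Matrix m n 𝕜} (hF : HM F q v g l)
    (hH : HM H q v' g' l') :
    HM (fun r => F r - H r) q (v - v') (fun c => g c - g' c) (l - l') :=
  fun a b => ((jal ι 𝕜 q).2.2.1 _ _ _ _ _ _ _ _ (hF a b) (hH a b)).2.1

theorem hm_dg (jal : JalStmt) {X : Type} [Fintype X] [DecidableEq X] {Pf : ℝ → X → ℝ}
    {P d : X → ℝ} (hP : ∀ x, ContDiffAt ℝ 2 (fun t => Pf t x) q.1 ∧ Pf q.1 x = P x ∧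
      deriv (fun t => Pf t x) q.1 = d x) :
    HM (fun r => dg 𝕜 (Pf r.1)) q (dg 𝕜 P) (fun _ => 0) (dg 𝕜 d) := by
  intro x y
  by_cases hxy : x = y
  · subst hxy
    obtain ⟨h1, h2, h3⟩ := hP x
    have h4 := (jal ι ℝ q).2.2.2.2.2.2.1 (fun t => Pf t x) h1
    have h5 := ((jal ι 𝕜 q).2.2.2.2.1 _ _ _ _ h4).1
    have e1 : (fun r : ℝ × (ι → ℝ) => dg 𝕜 (Pf r.1) x x) =
        fun r => ((Pf r.1 x : ℝ) : 𝕜) := by
      funext r
      exact Matrix.diagonal_apply_eq _ _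
    rw [e1]
    have e2 : dg 𝕜 P x x = ((Pf q.1 x : ℝ) : 𝕜) := by
      rw [h2]
      exact Matrix.diagonal_apply_eq _ _
    have e3 : dg 𝕜 d x x = ((deriv (fun t => Pf t x) q.1 : ℝ) : 𝕜) := by
      rw [h3]
      exact Matrix.diagonal_apply_eq _ _
    rw [e2, e3]
    simp only [RCLike.ofReal_zero] at h5
    exact h5
  · have e1 : (fun r : ℝ × (ι → ℝ) => dg 𝕜 (Pf r.1) x y) = fun r => (0 : 𝕜) := by
      funext r
      exact Matrix.diagonal_apply_ne _ hxy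
    rw [e1, show dg 𝕜 P x y = 0 from Matrix.diagonal_apply_ne _ hxy,
      show dg 𝕜 d x y = 0 from Matrix.diagonal_apply_ne _ hxy]
    exact (jal ι 𝕜 q).1 0

end jets

/-- Row VJT. -/
theorem vjt : VjtStmt := by
  intro jal jma 𝕜 _ X _ _ b q M v e gM Pf P w hM hP hu a
  have hD : HM (fun r => dg 𝕜 (Pf r.1)) q (dg 𝕜 P) (fun _ => 0) (dg 𝕜 fun x => -ind b x) :=
    hm_dg jal hP
  have hMD := (jma b 𝕜 q).1 X X X M _ _ _ _ _ _ _ hM hD
  have hF := hm_sub jal (hm_const (q := q) jal (1 : Matrix X X 𝕜)) hMD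
  have hI := ((jma b 𝕜 q).2 X _ _ _ _ hF).1 hu
  have hw := hv_mul jma hM (hv_const (q := q) jal fun x => ((w x : ℝ) : 𝕜))
  have hV := hv_mul jma hI hw
  have h := hV a
  set T : Matrix X X 𝕜 := (1 - v * dg 𝕜 P)⁻¹ with hT
  set W : X → 𝕜 := fun x => ((w x : ℝ) : 𝕜) with hW
  set D : Matrix X X 𝕜 := dg 𝕜 (ind b) with hDd
  set Q : Matrix X X 𝕜 := dg 𝕜 P with hQ
  have hneg : dg 𝕜 (fun x => -ind b x) = -D := by
    rw [hDd]
    ext x y
    by_cases hxy : x = y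
    · subst hxy
      simp [dg]
    · simp [dg, hxy]
  set be : X → 𝕜 := T *ᵥ (v *ᵥ W) with hbe
  have hvir : vir v P w = be := rfl
  have hpsi : psi P w be = W + Q *ᵥ be := by
    funext x
    rw [Pi.add_apply, hQ, dg, Matrix.mulVec_diagonal]
    rfl
  -- `be = v ψ`
  have hbv : v *ᵥ W + v *ᵥ (Q *ᵥ be) = be := by
    have h1 : (1 - v * Q) *ᵥ be = v *ᵥ W := by
      rw [hbe, Matrix.mulVec_mulVec, hT, Matrix.mul_nonsing_inv _ hu, Matrix.one_mulVec]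
    rw [Matrix.sub_mulVec, Matrix.one_mulVec, ← Matrix.mulVec_mulVec] at h1
    rw [← h1]
    abel
  have hTT : TT v P = T := rfl
  have hT2 : (fun r : ℝ × (b → ℝ) => vir (M r) (Pf r.1) w a) =
      fun r => ((1 - M r * dg 𝕜 (Pf r.1))⁻¹ *ᵥ (M r *ᵥ W)) a := rfl
  rw [hT2, hvir, hpsi, hTT]
  have eg : ∀ c, (T *ᵥ (v *ᵥ (0 : X → 𝕜) + gM c *ᵥ W) +
      (-(T * (0 - (v * 0 + gM c * Q)) * T)) *ᵥ (v *ᵥ W)) =
      T *ᵥ (gM c *ᵥ (W + Q *ᵥ be)) := by
    intro c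
    simp only [Matrix.mulVec_zero, Matrix.mul_zero, zero_add, zero_sub, Matrix.mul_neg,
      Matrix.neg_mul, neg_neg, Matrix.mulVec_add, ← Matrix.mulVec_mulVec, ← hbe]
  have el : T *ᵥ (v *ᵥ (0 : X → 𝕜) + (v * D * v + e) *ᵥ W + ∑ c, gM c *ᵥ (0 : X → 𝕜)) +
      (-(T * (0 - (v * dg 𝕜 (fun x => -ind b x) + (v * D * v + e) * Q +
        ∑ c, gM c * (0 : Matrix X X 𝕜))) * T) +
        ∑ c, T * (0 - (v * 0 + gM c * Q)) * T * (0 - (v * 0 + gM c * Q)) * T) *ᵥ (v *ᵥ W) +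
      ∑ c, (-(T * (0 - (v * 0 + gM c * Q)) * T)) *ᵥ (v *ᵥ (0 : X → 𝕜) + gM c *ᵥ W) =
      T *ᵥ (e *ᵥ (W + Q *ᵥ be)) +
        ∑ c, T *ᵥ (gM c *ᵥ (Q *ᵥ (T *ᵥ (gM c *ᵥ (W + Q *ᵥ be))))) := by
    have e1 : T *ᵥ (v *ᵥ (D *ᵥ (v *ᵥ W))) =
        T *ᵥ (v *ᵥ (D *ᵥ be)) - T *ᵥ (v *ᵥ (D *ᵥ (v *ᵥ (Q *ᵥ be)))) := by
      rw [← Matrix.mulVec_sub, ← Matrix.mulVec_sub, ← Matrix.mulVec_sub]
      congr 4
      exact eq_sub_of_add_eq hbv
    rw [hneg]
    simp only [Matrix.mulVec_zero, Matrix.mul_zero, zero_add, zero_sub, Matrix.mul_neg,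
      Matrix.neg_mul, neg_neg, Finset.sum_const_zero, add_zero, Matrix.mulVec_add,
      Matrix.add_mulVec, Matrix.mul_add, Matrix.add_mul, Matrix.sum_mulVec, Matrix.neg_mulVec,
      ← Matrix.mulVec_mulVec, Finset.sum_add_distrib, ← hbe, e1]
    abel
  simp only [eg] at h
  rw [el, Pi.add_apply, Finset.sum_apply] at h
  exact h

end Pool.Agent.ABY.H59
end
end -- Pool.Agent.Helper59_ABY.VJT
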